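import Mathlib.Tactic

/-! Fixed point arithmetic on natural numbers for the kernel, and the recursion over boxes
(MP_73ccd0_lc). -/

namespace Pool.Agent.RZ.RCO.BxN

open Set

/-- the value of a number over `2 ^ 20` -/
noncomputable def rD (n : ℕ) : ℝ := (n : ℝ) / 1048576

theorem rD_nonneg (n : ℕ) : 0 ≤ rD n := by unfold rD; positivity
theorem rD_mono {a b : ℕ} (h : a ≤ b) : rD a ≤ rD b := by
  unfold rD
  have : (a : ℝ) ≤ b := by exact_mod_cast h
  linarith
theorem rD_le {a b : ℕ} : rD a ≤ rD b ↔ a ≤ b := by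
  unfold rD
  rw [div_le_div_iff_of_pos_right (by norm_num)]
  exact_mod_cast Iff.rfl
theorem rD_lt {a b : ℕ} : rD a < rD b ↔ a < b := by
  unfold rD
  rw [div_lt_div_iff_of_pos_right (by norm_num)]
  exact_mod_cast Iff.rfl
theorem rD_pos {a : ℕ} (h : 0 < a) : 0 < rD a := by
  unfold rD
  have : (0 : ℝ) < a := by exact_mod_cast h
  positivity
theorem rD_zero : rD 0 = 0 := by unfold rD; simp
theorem rD_one : rD 1048576 = 1 := by unfold rD; norm_num
theorem rD_half : rD 524288 = 1 / 2 := by unfold rD; norm_num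
theorem rD_add (a b : ℕ) : rD (a + b) = rD a + rD b := by unfold rD; push_cast; ring
theorem rD_mul (a b : ℕ) : rD (a * b) = a * rD b := by unfold rD; push_cast; ring
theorem rD_sub {a b : ℕ} (h : b ≤ a) : rD (a - b) = rD a - rD b := by
  unfold rD; rw [Nat.cast_sub h]; ring
/-- truncated subtraction -/
theorem rD_sub_ge (a b : ℕ) : rD a - rD b ≤ rD (a - b) := by
  rcases le_total b a with h | h
  · exact (rD_sub h).ge
  · have := rD_mono h
    have := rD_nonneg (a - b)
    linarith

/-- upper product -/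
def mu (a b : ℕ) : ℕ := Nat.add (Nat.div (Nat.mul a b) 1048576) 1
/-- lower product -/
def md (a b : ℕ) : ℕ := Nat.div (Nat.mul a b) 1048576
/-- upper quotient -/
def qu (a b : ℕ) : ℕ := Nat.add (Nat.div (Nat.mul a 1048576) b) 1
/-- lower quotient -/
def qd (a b : ℕ) : ℕ := Nat.div (Nat.mul a 1048576) b
/-- upper half -/
def hf (a : ℕ) : ℕ := Nat.add (Nat.div a 2) 1
def mx (a b : ℕ) : ℕ := cond (Nat.ble a b) b a
def mn (a b : ℕ) : ℕ := cond (Nat.ble a b) a b

theorem mx_eq (a b : ℕ) : mx a b = max a b := by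
  unfold mx
  rcases h : Nat.ble a b with _ | _
  · have : ¬a ≤ b := fun h' => by rw [Nat.ble_eq_true_of_le h'] at h; cases h
    simp only [cond_false]
    omega
  · have := Nat.le_of_ble_eq_true h
    simp only [cond_true]
    omega

theorem mn_eq (a b : ℕ) : mn a b = min a b := by
  unfold mn
  rcases h : Nat.ble a b with _ | _
  · have : ¬a ≤ b := fun h' => by rw [Nat.ble_eq_true_of_le h'] at h; cases h
    simp only [cond_false]
    omega
  · have := Nat.le_of_ble_eq_true h
    simp only [cond_true]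
    omega

theorem div_up (a b : ℕ) (hb : 0 < b) : (a : ℝ) / b ≤ ((a / b + 1 : ℕ) : ℝ) := by
  have hb' : (0 : ℝ) < b := by exact_mod_cast hb
  rw [div_le_iff₀ hb']
  have := Nat.lt_mul_div_succ a hb
  have h2 : (a : ℝ) ≤ (b * (a / b + 1) : ℕ) := by exact_mod_cast this.le
  push_cast at h2 ⊢
  linarith

theorem div_lo (a b : ℕ) : ((a / b : ℕ) : ℝ) ≤ (a : ℝ) / b := Nat.cast_div_le

theorem mu_ge (a b : ℕ) : rD a * rD b ≤ rD (mu a b) := by
  have h := div_up (a * b) 1048576 (by norm_num)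
  have e : rD (mu a b) = ((a * b / 1048576 + 1 : ℕ) : ℝ) / 1048576 := rfl
  rw [e]
  have e2 : rD a * rD b = ((a * b : ℕ) : ℝ) / (1048576 : ℕ) / 1048576 := by
    unfold rD; push_cast; ring
  rw [e2]
  exact div_le_div_of_nonneg_right h (by norm_num)

theorem md_le (a b : ℕ) : rD (md a b) ≤ rD a * rD b := by
  have h := div_lo (a * b) 1048576
  have e : rD (md a b) = ((a * b / 1048576 : ℕ) : ℝ) / 1048576 := rfl
  rw [e]
  have e2 : rD a * rD b = ((a * b : ℕ) : ℝ) / (1048576 : ℕ) / 1048576 := by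
    unfold rD; push_cast; ring
  rw [e2]
  exact div_le_div_of_nonneg_right h (by norm_num)

theorem qu_ge (a : ℕ) {b : ℕ} (hb : 0 < b) : rD a / rD b ≤ rD (qu a b) := by
  have h := div_up (a * 1048576) b hb
  have hb' : (0 : ℝ) < b := by exact_mod_cast hb
  have e : rD (qu a b) = ((a * 1048576 / b + 1 : ℕ) : ℝ) / 1048576 := rfl
  rw [e]
  have e2 : rD a / rD b = ((a * 1048576 : ℕ) : ℝ) / b / 1048576 := by
    unfold rD; push_cast; field_simp
  rw [e2]
  exact div_le_div_of_nonneg_right h (by norm_num)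

theorem qd_le (a b : ℕ) : rD (qd a b) ≤ rD a / rD b := by
  rcases Nat.eq_zero_or_pos b with h0 | hb
  · rw [h0]
    have : qd a 0 = 0 := by unfold qd; exact Nat.div_zero _
    rw [this, rD_zero]; simp
  have h := div_lo (a * 1048576) b
  have hb' : (0 : ℝ) < b := by exact_mod_cast hb
  have e : rD (qd a b) = ((a * 1048576 / b : ℕ) : ℝ) / 1048576 := rfl
  rw [e]
  have e2 : rD a / rD b = ((a * 1048576 : ℕ) : ℝ) / b / 1048576 := by
    unfold rD; push_cast; field_simp
  rw [e2]
  exact div_le_div_of_nonneg_right h (by norm_num)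

theorem hf_ge (a : ℕ) : rD a / 2 ≤ rD (hf a) := by
  have h := div_up a 2 (by norm_num)
  have e : rD (hf a) = ((a / 2 + 1 : ℕ) : ℝ) / 1048576 := rfl
  rw [e]
  unfold rD
  push_cast at h ⊢
  linarith

/-! ### upper bounds -/

/-- `x` is at most the value of `n` -/
def U (x : ℝ) (n : ℕ) : Prop := x ≤ rD n
/-- the value of `n` is at most `x` -/
def L (x : ℝ) (n : ℕ) : Prop := rD n ≤ x

theorem U.add {x y : ℝ} {a b : ℕ} (h1 : U x a) (h2 : U y b) : U (x + y) (Nat.add a b) := by
  have e : rD (Nat.add a b) = rD a + rD b := rD_add a b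
  unfold U at *
  rw [e]; linarith

theorem U.mu {x y : ℝ} {a b : ℕ} (h1 : U x a) (h2 : U y b) (x0 : 0 ≤ x) (y0 : 0 ≤ y) :
    U (x * y) (mu a b) :=
  (mul_le_mul h1 h2 y0 (rD_nonneg a)).trans (mu_ge a b)

theorem U.mono {x y : ℝ} {a : ℕ} (h : U y a) (hx : x ≤ y) : U x a := hx.trans h
theorem U.le {x : ℝ} {a b : ℕ} (h : U x a) (hab : a ≤ b) : U x b := h.trans (rD_mono hab)
theorem U.hf {x : ℝ} {a : ℕ} (h : U x a) : U (x / 2) (hf a) :=
  (div_le_div_of_nonneg_right h zero_le_two).trans (hf_ge a)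
theorem U.three {x : ℝ} {a : ℕ} (h : U x a) : U (3 * x) (Nat.mul 3 a) := by
  have e : rD (Nat.mul 3 a) = 3 * rD a := by
    have := rD_mul 3 a
    push_cast at this
    exact this
  unfold U at *
  rw [e]; linarith
theorem U.sub {x y : ℝ} {a b : ℕ} (h1 : U x a) (h2 : L y b) : U (x - y) (Nat.sub a b) := by
  have e : rD a - rD b ≤ rD (Nat.sub a b) := rD_sub_ge a b
  unfold U L at *
  linarith
theorem U.sub0 {x y : ℝ} {a b : ℕ} (h1 : U x a) (h2 : L y b) : U (max 0 (x - y)) (Nat.sub a b) :=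
  max_le (rD_nonneg _) (h1.sub h2)
theorem U.mx1 {x : ℝ} {a b : ℕ} (h : U x a) : U x (mx a b) := by
  rw [mx_eq]; exact h.le (le_max_left _ _)
theorem U.mx2 {x : ℝ} {a b : ℕ} (h : U x b) : U x (mx a b) := by
  rw [mx_eq]; exact h.le (le_max_right _ _)
theorem U.mn {x : ℝ} {a b : ℕ} (h : U x a) (h' : U x b) : U x (mn a b) := by
  rw [mn_eq]
  rcases min_choice a b with e | e <;> rw [e] <;> assumption
theorem L.mn {x y : ℝ} {a b : ℕ} (h : L x a) (h' : L y b) : L (min x y) (BxN.mn a b) := by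
  rw [mn_eq]
  exact le_min ((rD_mono (min_le_left _ _)).trans h) ((rD_mono (min_le_right _ _)).trans h')
theorem L.md {x y : ℝ} {a b : ℕ} (h1 : L x a) (h2 : L y b) : L (x * y) (md a b) :=
  (md_le a b).trans (mul_le_mul h1 h2 (rD_nonneg b) ((rD_nonneg a).trans h1))
theorem L.add {x y : ℝ} {a b : ℕ} (h1 : L x a) (h2 : L y b) : L (x + y) (Nat.add a b) := by
  have e : rD (Nat.add a b) = rD a + rD b := rD_add a b
  unfold L at *
  rw [e]; linarith
theorem L.sub {x y : ℝ} {a b : ℕ} (h1 : L x a) (h2 : U y b) (h : b ≤ a) :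
    L (x - y) (Nat.sub a b) := by
  have e : rD (Nat.sub a b) = rD a - rD b := rD_sub h
  unfold U L at *
  rw [e]; linarith
theorem L.nonneg {x : ℝ} {a : ℕ} (h : L x a) : 0 ≤ x := (rD_nonneg a).trans h
theorem U.one : U 1 1048576 := rD_one.ge
theorem L.one : L 1 1048576 := rD_one.le
/-- reciprocal of a lower bound -/
theorem U.inv {x : ℝ} {a : ℕ} (h : L x a) (ha : 0 < a) : U x⁻¹ (qu 1048576 a) := by
  have h1 := qu_ge 1048576 ha
  rw [rD_one] at h1
  refine le_trans ?_ h1
  rw [one_div]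
  exact inv_anti₀ (rD_pos ha) h
theorem L.qd {x y : ℝ} {a b : ℕ} (h1 : L x a) (h2 : U y b) (y0 : 0 < y) :
    L (x / y) (qd a b) := by
  refine (qd_le a b).trans ?_
  exact div_le_div₀ ((rD_nonneg a).trans h1) h1 y0 h2

/-! ### boxes -/

/-- the point `x` belongs to the box `[a, b]`, with strict inequality on the left unless
`a = 0` -/
def Inb (x : ℝ) (a b : ℕ) : Prop := (rD a < x ∨ a = 0) ∧ rD a ≤ x ∧ x ≤ rD b

theorem Inb.lo {x : ℝ} {a b : ℕ} (h : Inb x a b) : L x a := h.2.1
theorem Inb.up {x : ℝ} {a b : ℕ} (h : Inb x a b) : U x b := h.2.2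
theorem Inb.nonneg {x : ℝ} {a b : ℕ} (h : Inb x a b) : 0 ≤ x := h.lo.nonneg

theorem Inb.split {x : ℝ} {a b m : ℕ} (h : Inb x a b) : Inb x a m ∨ Inb x m b := by
  rcases le_or_gt x (rD m) with h1 | h1
  · exact Or.inl ⟨h.1, h.2.1, h1⟩
  · exact Or.inr ⟨Or.inl h1, h1.le, h.2.2⟩

/-- bisection with a bound of the depth -/
noncomputable def bis (leaf : ℕ → ℕ → Bool) (n : ℕ) : ℕ → ℕ → Bool :=
  Nat.rec (fun a b => leaf a b)
    (fun _ ih a b => cond (leaf a b) true
      (cond (ih a (Nat.div (Nat.add a b) 2)) (ih (Nat.div (Nat.add a b) 2) b) false)) n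

theorem bis_ok {leaf : ℕ → ℕ → Bool} {P : ℝ → Prop}
    (hl : ∀ a b, leaf a b = true → ∀ x, Inb x a b → P x) (n : ℕ) :
    ∀ a b, bis leaf n a b = true → ∀ x, Inb x a b → P x := by
  induction n with
  | zero => exact hl
  | succ n ih =>
    intro a b h x hx
    have e : bis leaf (n + 1) a b = cond (leaf a b) true
      (cond (bis leaf n a (Nat.div (Nat.add a b) 2))
        (bis leaf n (Nat.div (Nat.add a b) 2) b) false) := rfl
    rw [e] at h
    rcases hl' : leaf a b with _ | _
    · rw [hl'] at h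
      simp only [cond_false] at h
      rcases h1 : bis leaf n a (Nat.div (Nat.add a b) 2) with _ | _
      · rw [h1] at h; simp at h
      · rw [h1] at h
        simp only [cond_true] at h
        rcases hx.split (m := Nat.div (Nat.add a b) 2) with h2 | h2
        · exact ih _ _ h1 x h2
        · exact ih _ _ h x h2
    · exact hl a b hl' x hx

/-- a list of steps, coded with the digits in base 1024, in units of `2 ^ 11` -/
noncomputable def stp (f : ℕ → ℕ → Bool) (stop : ℕ) (n : ℕ) : ℕ → ℕ → Bool :=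
  Nat.rec (fun a _ => Nat.ble stop a)
    (fun _ ih a s => cond (Nat.ble stop a) true
      (cond (f a (Nat.add a (Nat.mul 2048 (Nat.mod s 1024))))
        (ih (Nat.add a (Nat.mul 2048 (Nat.mod s 1024))) (Nat.div s 1024)) false)) n

theorem stp_ok {f : ℕ → ℕ → Bool} {P : ℝ → Prop} {stop : ℕ}
    (hf : ∀ a b, f a b = true → ∀ x, Inb x a b → P x) (n : ℕ) :
    ∀ a s, stp f stop n a s = true → ∀ x, Inb x a stop → stop ≤ a ∨ P x := by
  induction n with
  | zero => exact fun a _ h x _ => Or.inl (Nat.le_of_ble_eq_true h)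
  | succ n ih =>
    intro a s h x hx
    have e : stp f stop (n + 1) a s = cond (Nat.ble stop a) true
      (cond (f a (Nat.add a (Nat.mul 2048 (Nat.mod s 1024))))
        (stp f stop n (Nat.add a (Nat.mul 2048 (Nat.mod s 1024))) (Nat.div s 1024)) false) := rfl
    rw [e] at h
    rcases hs : Nat.ble stop a with _ | _
    · rw [hs] at h
      simp only [cond_false] at h
      set b := Nat.add a (Nat.mul 2048 (Nat.mod s 1024)) with hb
      rcases h1 : f a b with _ | _
      · rw [h1] at h; simp at h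
      · rw [h1] at h
        simp only [cond_true] at h
        rcases hx.split (m := b) with h2 | h2
        · exact Or.inr (hf _ _ h1 x h2)
        · rcases ih _ _ h x h2 with h3 | h3
          · -- `stop ≤ b`: the point lies in the first box
            rcases hx.split (m := b) with h4 | h4
            · exact Or.inr (hf _ _ h1 x h4)
            · rcases h4.1 with h5 | h5
              · exact absurd (h4.2.2.trans (rD_mono h3)) (not_le.2 h5)
              · have h6 : x ≤ rD b := h4.2.2.trans (rD_mono h3)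
                exact Or.inr (hf _ _ h1 x ⟨hx.1, hx.2.1, h6⟩)
          · exact Or.inr h3
    · exact Or.inl (Nat.le_of_ble_eq_true hs)

end Pool.Agent.RZ.RCO.BxN
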