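import Mathlib

/-! Route P: the closures of all times of a cell from one exact solution of the system at the
horizons of the cell (MP_73ccd0_lc). -/

namespace Pool.Agent.RZ.RCO

open Set Finset MeasureTheory

set_option linter.unusedSectionVars false

variable {V : Type*} [Fintype V] [DecidableEq V]

/-! ### restriction of the horizons -/

/-! ### the contribution of the direct pair -/

/-- the contribution of the direct pair up to the horizon `σ` -/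
noncomputable def dirI (hb T : ℝ → V → V → ℝ) (X : Finset V) (c d : V) (σ N1 N2 : ℝ) : ℝ :=
  ∫ r in (0 : ℝ)..σ, hb r c d * max 0 (1
    - Real.exp (-(N1 + (∫ ρ in (0 : ℝ)..r, hb ρ c d) + ∫ ρ in (0 : ℝ)..r, ∑ b ∈ X, T ρ d b))
    - Real.exp (-(N2 + (∫ ρ in (0 : ℝ)..r, hb ρ c d) + ∫ ρ in (0 : ℝ)..r, ∑ b ∈ X, T ρ c b)))

theorem prim_cont {R : ℝ → ℝ} {τ : ℝ} (hτ : 0 ≤ τ) (cR : ContinuousOn R (Icc 0 τ)) :
    ContinuousOn (fun r => ∫ ρ in (0 : ℝ)..r, R ρ) (Icc 0 τ) := by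
  have := intervalIntegral.continuousOn_primitive_interval (μ := volume) (a := (0 : ℝ))
    (b := τ) (f := R) (by rw [uIcc_of_le hτ]; exact cR.integrableOn_Icc)
  rwa [uIcc_of_le hτ] at this

theorem dirI_cont {hb T : ℝ → V → V → ℝ} {X : Finset V} {c d : V} {σ : ℝ} (σ0 : 0 ≤ σ)
    (bc : ContinuousOn (fun r => hb r c d) (Icc 0 σ))
    (Tc : ∀ u v, ContinuousOn (fun r => T r u v) (Icc 0 σ)) (N1 N2 : ℝ) :
    ContinuousOn (fun r => hb r c d * max 0 (1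
      - Real.exp (-(N1 + (∫ ρ in (0 : ℝ)..r, hb ρ c d) + ∫ ρ in (0 : ℝ)..r, ∑ b ∈ X, T ρ d b))
      - Real.exp (-(N2 + (∫ ρ in (0 : ℝ)..r, hb ρ c d) + ∫ ρ in (0 : ℝ)..r, ∑ b ∈ X, T ρ c b))))
      (Icc 0 σ) := by
  have c1 := prim_cont σ0 bc
  have c2 : ∀ u, ContinuousOn (fun r => ∫ ρ in (0 : ℝ)..r, ∑ b ∈ X, T ρ u b) (Icc 0 σ) :=
    fun u => prim_cont σ0 (continuousOn_finsetSum _ fun b _ => Tc u b)
  exact bc.mul (continuousOn_const.sup ((continuousOn_const.sub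
    (Real.continuous_exp.comp_continuousOn (((continuousOn_const.add c1).add (c2 d)).neg))).sub
    (Real.continuous_exp.comp_continuousOn (((continuousOn_const.add c1).add (c2 c)).neg))))

theorem dirI_mono {hb T : ℝ → V → V → ℝ} {X : Finset V} {c d : V} {s σ : ℝ} (s0 : 0 ≤ s)
    (hs : s ≤ σ) (b0 : ∀ r ∈ Icc 0 σ, 0 ≤ hb r c d)
    (bc : ContinuousOn (fun r => hb r c d) (Icc 0 σ))
    (Tc : ∀ u v, ContinuousOn (fun r => T r u v) (Icc 0 σ)) (N1 N2 : ℝ) :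
    dirI hb T X c d s N1 N2 ≤ dirI hb T X c d σ N1 N2 := by
  have cI := dirI_cont (X := X) (s0.trans hs) bc Tc N1 N2
  have ii : ∀ {a b : ℝ}, 0 ≤ a → a ≤ b → b ≤ σ → IntervalIntegrable (fun r => hb r c d * max 0 (1
      - Real.exp (-(N1 + (∫ ρ in (0 : ℝ)..r, hb ρ c d) + ∫ ρ in (0 : ℝ)..r, ∑ b ∈ X, T ρ d b))
      - Real.exp (-(N2 + (∫ ρ in (0 : ℝ)..r, hb ρ c d) + ∫ ρ in (0 : ℝ)..r, ∑ b ∈ X, T ρ c b))))
      volume a b := fun {a b} ha hab hb =>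
    (cI.mono (by rw [uIcc_of_le hab]; exact Icc_subset_Icc ha hb)).intervalIntegrable
  unfold dirI
  rw [← intervalIntegral.integral_add_adjacent_intervals (ii le_rfl s0 hs) (ii s0 hs le_rfl)]
  have := intervalIntegral.integral_nonneg (μ := volume) hs fun r hr =>
    mul_nonneg (b0 r ⟨s0.trans hr.1, hr.2⟩) (le_max_left 0 (1
      - Real.exp (-(N1 + (∫ ρ in (0 : ℝ)..r, hb ρ c d) + ∫ ρ in (0 : ℝ)..r, ∑ b ∈ X, T ρ d b))
      - Real.exp (-(N2 + (∫ ρ in (0 : ℝ)..r, hb ρ c d) + ∫ ρ in (0 : ℝ)..r, ∑ b ∈ X, T ρ c b))))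
  linarith

theorem dirI_nonneg {hb T : ℝ → V → V → ℝ} {X : Finset V} {c d : V} {σ : ℝ} (σ0 : 0 ≤ σ)
    (b0 : ∀ r ∈ Icc 0 σ, 0 ≤ hb r c d) (N1 N2 : ℝ) : 0 ≤ dirI hb T X c d σ N1 N2 :=
  intervalIntegral.integral_nonneg σ0 fun r hr => mul_nonneg (b0 r hr) (le_max_left _ _)

/-! ### the exact data of a world -/

end Pool.Agent.RZ.RCO
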