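import Pool.Agent.RZ.RCM.Mono
import Pool.Agent.RZ.RCN.Brg_3

/-! Route P: step exponents on cells and classes, from constant closures to `Cls`
(MP_73ccd0_lc). -/

namespace Pool.Agent.RZ.RCO

open Set Finset MeasureTheory Pool.Agent.RZ.RCRSHalf Pool.Agent.RZ.RCG Pool.Agent.RZ.RCG.Ct
open Pool.Agent.RZ.RCN Pool.Agent.RZ.RCN.K

set_option linter.unusedSectionVars false

variable {V : Type*} [Fintype V] [DecidableEq V]

/-- the hypotheses on the hazards of a process at the time `t` -/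
structure Wh (Z : Hzd) (x : V → V → ℝ) (P : V → Prop) [DecidablePred P]
    (h : ℝ → V → V → ℝ) (H : V → V → ℝ → ℝ) (t : ℝ) : Prop where
  hh : Haz h H
  le : ∀ u v, ∀ r ∈ Icc 0 t, h r u v ≤ Z.hh x P r u v
  Hle : ∀ u v, ∀ σ ∈ Icc 0 t, ∀ r ∈ Icc 0 σ, H u v σ - H u v r ≤ Z.Hh x P σ u v r
  lo : ∀ u v, Bp P u v → ∀ r ∈ Icc 0 t, x u v * Z.hl (xr x P u v) r ≤ h r u v

/-- the lower bound at a real pair -/
theorem Wh.lor {Z : Hzd} {x : V → V → ℝ} {P : V → Prop} [DecidablePred P]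
    {h : ℝ → V → V → ℝ} {H : V → V → ℝ → ℝ} {t : ℝ} (hw : Wh Z x P h H t) {u v : V} (hu : P u)
    (hv : P v) {r : ℝ} (hr : r ∈ Icc 0 t) : x u v * Z.hl (x u v) r ≤ h r u v := by
  have h1 := hw.lo u v (Or.inl ⟨hu, hv⟩) r hr
  rwa [show xr x P u v = x u v from if_pos ⟨hu, hv⟩] at h1

section

variable (Z : Hzd) (x : V → V → ℝ) (P : V → Prop) [DecidablePred P]

/-- the deleted closures of a cell with constant exponents -/
def ClK (A D : Finset V) (α τ σ : ℝ) (L : V → V → ℝ) : Prop :=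
  ∀ (h : ℝ → V → V → ℝ) (H : V → V → ℝ → ℝ) (t : ℝ), Wh Z x P h H t → t ∈ Icc α τ →
    ∀ s ∈ Icc 0 t, s ≤ σ → ∀ c ∈ Dᶜ, ∀ d ∈ Dᶜ, c ≠ d →
      RCM.CloD h t s A D c d (Real.exp (L c d))

/-- the deleted closures of a cell with constant exponents, for the times in `[σm, σ]` -/
def ClM (A D : Finset V) (α τ σm σ : ℝ) (L : V → V → ℝ) : Prop :=
  ∀ (h : ℝ → V → V → ℝ) (H : V → V → ℝ → ℝ) (t : ℝ), Wh Z x P h H t → t ∈ Icc α τ →
    ∀ s ∈ Icc 0 t, σm ≤ s → s ≤ σ → ∀ c ∈ Dᶜ, ∀ d ∈ Dᶜ, c ≠ d →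
      RCM.CloD h t s A D c d (Real.exp (L c d))

/-- the released closures of a cell with constant exponents, for the times in `[σm, σ]` -/
def ClR (A D : Finset V) (α τ σm σ : ℝ) (L : V → V → ℝ) : Prop :=
  ∀ (h : ℝ → V → V → ℝ) (H : V → V → ℝ → ℝ) (t : ℝ), Wh Z x P h H t → t ∈ Icc α τ →
    ∀ s ∈ Icc 0 t, σm ≤ s → s ≤ σ → ∀ c ∈ Dᶜ, ∀ d ∈ Dᶜ, c ≠ d →
      RCM.CloDt h t s A D c d (Real.exp (L c d))

end

variable {Z : Hzd} {x : V → V → ℝ} {P : V → Prop} [DecidablePred P] {sl : ℝ → ℝ → ℝ}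
variable {A D : Finset V} {α τ σ σm : ℝ} {T Am Bm : ℝ → V → V → ℝ}
    {gp gp' gm gm' : V → V → ℝ → ℝ} {p p' n n' q q' m m' : V → V → ℝ → ℝ}
    {k k' : V → V → ℝ → ℝ}

theorem ClK.mono {L L' : V → V → ℝ} (h : ClK Z x P A D α τ σ L) (α0 : 0 ≤ α) (τ1 : τ ≤ 1)
    (hL : ∀ c ∈ Dᶜ, ∀ d ∈ Dᶜ, c ≠ d → L c d ≤ L' c d) : ClK Z x P A D α τ σ L' :=
  fun h' H t hw ht s hs hσ c hc d hd hcd => (h h' H t hw ht s hs hσ c hc d hd hcd).mono hw.hh
    ⟨α0.trans ht.1, ht.2.trans τ1⟩ hs (Real.exp_le_exp.2 (hL c hc d hd hcd))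

theorem ClR.mono {L L' : V → V → ℝ} (h : ClR Z x P A D α τ σm σ L) (α0 : 0 ≤ α) (τ1 : τ ≤ 1)
    (hL : ∀ c ∈ Dᶜ, ∀ d ∈ Dᶜ, c ≠ d → L c d ≤ L' c d) : ClR Z x P A D α τ σm σ L' :=
  fun h' H t hw ht s hs hm hσ c hc d hd hcd => RCM.CloDt.mono hw.hh
    ⟨α0.trans ht.1, ht.2.trans τ1⟩ hs (h h' H t hw ht s hs hm hσ c hc d hd hcd)
    (Real.exp_le_exp.2 (hL c hc d hd hcd))

theorem ClK.toM {L : V → V → ℝ} (h : ClK Z x P A D α τ σ L) : ClM Z x P A D α τ σm σ L :=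
  fun h' H t hw ht s hs _ hσ => h h' H t hw ht s hs hσ

/-! ### step exponents -/

/-- the lower end of the validity of the fine released exponent of a class -/
noncomputable def sgm (sg : ℕ → ℕ → ℝ) (ε : ℝ) (i : ℕ) : ℕ → ℝ
  | 0 => -ε
  | j + 1 => sg i j - 2 * ε

/-- the released exponent of a class: the coarse one is added below the class -/
noncomputable def rmp (ε σm f g s : ℝ) : ℝ := f + (1 - lam ε (σm + ε) s) * g

theorem rmp_fine {ε σm f g s : ℝ} (g0 : 0 ≤ g) : f ≤ rmp ε σm f g s := by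
  unfold rmp
  have := mul_nonneg (sub_nonneg.2 (lam_le_one ε (σm + ε) s)) g0
  linarith

theorem rmp_coarse {ε σm f g s : ℝ} (hε : 0 < ε) (f0 : 0 ≤ f) (hs : s ≤ σm) :
    g ≤ rmp ε σm f g s := by
  unfold rmp
  rw [lam_zero hε (by linarith)]
  linarith

theorem rmp_eq {ε σm f g s : ℝ} (hε : 0 < ε) (hs : σm + ε ≤ s) : rmp ε σm f g s = f := by
  unfold rmp
  rw [lam_one hε hs]
  ring

theorem rmp_cont (ε σm f g : ℝ) : Continuous (rmp ε σm f g) := by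
  unfold rmp
  exact continuous_const.add ((continuous_const.sub (lam_cont ε (σm + ε))).mul continuous_const)

/-- the coarse exponent: the sum of the fine ones of the earlier classes -/
noncomputable def lgs (Lf : ℕ → ℕ → V → V → V → V → ℝ) (i j : ℕ) (a b c d : V) : ℝ :=
  ∑ k ∈ Finset.range j, Lf i k a b c d

/-- the step exponents -/
noncomputable def mkC (N : ℕ) (M : ℕ → ℕ) (sg : ℕ → ℕ → ℝ) (ε : ℝ)
    (L Lf Lg : ℕ → ℕ → V → V → V → V → ℝ) : Cx V where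
  N := N
  M := M
  sg := sg
  ε := ε
  L := fun i j a b c d _ s => rmp ε (sgm sg ε i j) (L i j a b c d) (lgs L i j a b c d) s
  Lt := fun i j a b c d _ s => rmp ε (sgm sg ε i j) (Lf i j a b c d) (Lg i j a b c d) s

/-- the constants of a pair in a cell and a class -/
structure Ck2 (Z : Hzd) (x : V → V → ℝ) (P : V → Prop) [DecidablePred P] (N : ℕ) (sg : ℕ → ℕ → ℝ)
    (ε : ℝ) (i j : ℕ) (a b : V) (L Lf : V → V → ℝ) : Prop where
  l : ClM Z x P {a} {a, b} (ca N i) (cb N i) (sgm sg ε i j) (sg i j) L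
  f : ClR Z x P {a} {a, b} (ca N i) (cb N i) (sgm sg ε i j) (sg i j) Lf
  l0 : ∀ c ∈ ({a, b} : Finset V)ᶜ, ∀ d ∈ ({a, b} : Finset V)ᶜ, c ≠ d → 0 ≤ L c d
  f0 : ∀ c ∈ ({a, b} : Finset V)ᶜ, ∀ d ∈ ({a, b} : Finset V)ᶜ, c ≠ d → 0 ≤ Lf c d

variable {N : ℕ} {M : ℕ → ℕ} {sg : ℕ → ℕ → ℝ} {ε : ℝ} {L Lf Lg : ℕ → ℕ → V → V → V → V → ℝ}

/-- the first class which contains a time below a class -/
theorem cls_first {M : ℕ → ℕ} {sg : ℕ → ℕ → ℝ} {ε : ℝ} {i j : ℕ} {s t : ℝ} (ε0 : 0 < ε)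
    (hs : s ∈ Icc 0 t) (hsj : s ≤ sg i j) (h1 : s ≤ sgm sg ε i j) :
    ∃ l < j, sgm sg ε i l ≤ s ∧ s ≤ sg i l := by
  have hex : ∃ l, s ≤ sg i l := ⟨j, hsj⟩
  classical
  set l := Nat.find hex with hl
  have l1 : s ≤ sg i l := Nat.find_spec hex
  have l2 : ∀ l' < l, sg i l' < s := fun l' h' => not_le.1 (Nat.find_min hex h')
  have l3 : l < j := by
    cases j with
    | zero =>
      have h2 : s ≤ -ε := h1
      linarith [hs.1]
    | succ j =>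
      have h2 : s ≤ sg i j - 2 * ε := h1
      exact Nat.lt_succ_of_le (Nat.find_min' hex (by linarith))
  refine ⟨l, l3, ?_, l1⟩
  rcases hl' : l with _ | l'
  · show -ε ≤ s
    linarith [hs.1]
  · show sg i l' - 2 * ε ≤ s
    have := l2 l' (by omega)
    linarith

/-- **the cells and classes with step exponents** -/
theorem cls_step (N0 : 0 < N) (ε0 : 0 < ε) (sg0 : ∀ i < N, ∀ j ≤ M i, 0 ≤ sg i j)
    (last : ∀ i < N, sg i (M i) = cb N i)
    (h : ∀ i < N, ∀ j ≤ M i, ∀ a b, P a → P b → a ≠ b →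
      Ck2 Z x P N sg ε i j a b (L i j a b) (Lf i j a b)) :
    Cls Z x P (mkC N M sg ε L Lf (lgs Lf)) where
  N0 := N0
  ε0 := ε0
  sg0 := sg0
  last := last
  cL := fun i _ j _ a b c d _ => ((rmp_cont ε (sgm sg ε i j) (L i j a b c d)
    (lgs L i j a b c d)).comp continuous_snd).continuousOn
  cLt := fun i _ j _ a b c d _ => ((rmp_cont ε (sgm sg ε i j) (Lf i j a b c d)
    (lgs Lf i j a b c d)).comp continuous_snd).continuousOn
  vL := fun i hi j hj h' H t hh ht hle hHle hlo a b c d hv s hs hsj => by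
    obtain ⟨ha, hb, hab, hc, hd, hcd⟩ := hv
    have k := fun j (hj : j ≤ M i) => h i hi j hj a b ha hb hab
    have hN : (0 : ℝ) < N := Nat.cast_pos.2 N0
    have ht1 : t ∈ Icc (0 : ℝ) 1 := by
      refine ⟨hs.1.trans hs.2, ht.2.trans ?_⟩
      have h1 : ((i : ℝ) + 1) ≤ N := by exact_mod_cast hi
      show ((i : ℝ) + 1) / N ≤ 1
      rw [div_le_one hN]
      exact h1
    have f0 : ∀ l ≤ j, 0 ≤ L i l a b c d := fun l hl => (k l (hl.trans hj)).l0 c hc d hd hcd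
    have g0 : 0 ≤ lgs L i j a b c d := Finset.sum_nonneg fun l hl =>
      f0 l (Finset.mem_range.1 hl).le
    rcases le_total (sgm sg ε i j) s with h1 | h1
    · exact RCM.CloD.mono hh ht1 hs
        ((k j hj).l h' H t ⟨hh, hle, hHle, hlo⟩ ht s hs h1 hsj c hc d hd hcd)
        (Real.exp_le_exp.2 (rmp_fine g0))
    · obtain ⟨l, l3, l4, l1⟩ := cls_first (M := M) ε0 hs hsj h1
      refine RCM.CloD.mono hh ht1 hs
        ((k l (l3.le.trans hj)).l h' H t ⟨hh, hle, hHle, hlo⟩ ht s hs l4 l1 c hc d hd hcd)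
        (Real.exp_le_exp.2 (le_trans ?_ (rmp_coarse ε0 (f0 j le_rfl) h1)))
      exact Finset.single_le_sum (f := fun l => L i l a b c d)
        (fun l hl => f0 l (Finset.mem_range.1 hl).le) (Finset.mem_range.2 l3)
  vLt := fun i hi j hj h' H t hh ht hle hHle hlo a b c d hv s hs hsj => by
    obtain ⟨ha, hb, hab, hc, hd, hcd⟩ := hv
    have k := fun j (hj : j ≤ M i) => h i hi j hj a b ha hb hab
    have hN : (0 : ℝ) < N := Nat.cast_pos.2 N0
    have ht1 : t ∈ Icc (0 : ℝ) 1 := by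
      refine ⟨hs.1.trans hs.2, ht.2.trans ?_⟩
      have h1 : ((i : ℝ) + 1) ≤ N := by exact_mod_cast hi
      show ((i : ℝ) + 1) / N ≤ 1
      rw [div_le_one hN]
      exact h1
    have f0 : ∀ l ≤ j, 0 ≤ Lf i l a b c d := fun l hl => (k l (hl.trans hj)).f0 c hc d hd hcd
    have g0 : 0 ≤ lgs Lf i j a b c d := Finset.sum_nonneg fun l hl =>
      f0 l (Finset.mem_range.1 hl).le
    rcases le_total (sgm sg ε i j) s with h1 | h1
    · exact RCM.CloDt.mono hh ht1 hs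
        ((k j hj).f h' H t ⟨hh, hle, hHle, hlo⟩ ht s hs h1 hsj c hc d hd hcd)
        (Real.exp_le_exp.2 (rmp_fine g0))
    · obtain ⟨l, l3, l4, l1⟩ := cls_first (M := M) ε0 hs hsj h1
      refine RCM.CloDt.mono hh ht1 hs
        ((k l (l3.le.trans hj)).f h' H t ⟨hh, hle, hHle, hlo⟩ ht s hs l4 l1 c hc d hd hcd)
        (Real.exp_le_exp.2 (le_trans ?_ (rmp_coarse ε0 (f0 j le_rfl) h1)))
      exact Finset.single_le_sum (f := fun l => Lf i l a b c d)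
        (fun l hl => f0 l (Finset.mem_range.1 hl).le) (Finset.mem_range.2 l3)

/-- existence of the step exponents with a property of the constants -/
theorem cls_ex {G : ℕ → ℕ → V → V → (V → V → ℝ) → (V → V → ℝ) → Prop}
    (N0 : 0 < N) (ε0 : 0 < ε) (sg0 : ∀ i < N, ∀ j ≤ M i, 0 ≤ sg i j)
    (last : ∀ i < N, sg i (M i) = cb N i)
    (h : ∀ i < N, ∀ j ≤ M i, ∀ a b, P a → P b → a ≠ b →
      ∃ L Lf : V → V → ℝ, Ck2 Z x P N sg ε i j a b L Lf ∧ G i j a b L Lf) :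
    ∃ L Lf : ℕ → ℕ → V → V → V → V → ℝ, Cls Z x P (mkC N M sg ε L Lf (lgs Lf)) ∧
      ∀ i < N, ∀ j ≤ M i, ∀ a b, P a → P b → a ≠ b → G i j a b (L i j a b) (Lf i j a b) := by
  classical
  have h' : ∀ i j a b, ∃ K : (V → V → ℝ) × (V → V → ℝ),
      i < N → j ≤ M i → P a → P b → a ≠ b →
        Ck2 Z x P N sg ε i j a b K.1 K.2 ∧ G i j a b K.1 K.2 := by
    intro i j a b
    by_cases hc : i < N ∧ j ≤ M i ∧ P a ∧ P b ∧ a ≠ b
    · obtain ⟨L, Lf, h1, h2⟩ := h i hc.1 j hc.2.1 a b hc.2.2.1 hc.2.2.2.1 hc.2.2.2.2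
      exact ⟨(L, Lf), fun _ _ _ _ _ => ⟨h1, h2⟩⟩
    · exact ⟨(fun _ _ => 0, fun _ _ => 0),
        fun h1 h2 h3 h4 h5 => absurd ⟨h1, h2, h3, h4, h5⟩ hc⟩
  choose K hK using h'
  refine ⟨fun i j a b => (K i j a b).1, fun i j a b => (K i j a b).2, ?_,
    fun i hi j hj a b ha hb hab => (hK i j a b hi hj ha hb hab).2⟩
  exact cls_step N0 ε0 sg0 last fun i hi j hj a b ha hb hab => (hK i j a b hi hj ha hb hab).1

/-! ### sums of the exponents -/

/-- the classes of the cell `i` which matter at the time `s` -/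
def Act (M : ℕ → ℕ) (sg : ℕ → ℕ → ℝ) (ε : ℝ) (i : ℕ) (s : ℝ) (j : ℕ) : Prop :=
  j ≤ M i ∧ (j < M i → s ≤ sg i j) ∧ ∀ k < j, sg i k - ε < s

variable {ι : Type*}

/-- sums of the deleted exponents -/
theorem lc_sum_le (ε0 : 0 < ε) (N0 : 0 < N) (last : ∀ i < N, sg i (M i) = cb N i)
    {t s B : ℝ} (ht1 : t ≤ 1) (hs : s ∈ Icc 0 t)
    (S : Finset ι) (w : ι → ℝ) (qa qb qc qd : ι → V)
    (hv : ∀ z ∈ S, Vq P (qa z) (qb z) (qc z) (qd z))
    (h : ∀ j, Act M sg ε (ci N t) s j →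
      ∑ z ∈ S, w z * max 0 (L (ci N t) j (qa z) (qb z) (qc z) (qd z)) ≤ B) :
    ∑ z ∈ S, w z * Lc P (mkC N M sg ε L Lf Lg) (qa z) (qb z) (qc z) (qd z) t s ≤ B := by
  have ht0 : 0 ≤ t := hs.1.trans hs.2
  have hi := ci_lt N0 ht1
  have hm := ci_mem N0 ht0 ht1
  set i := ci N t with hidef
  have e : ∀ z ∈ S, w z * Lc P (mkC N M sg ε L Lf Lg) (qa z) (qb z) (qc z) (qd z) t s
      = w z * bl ε (sg i) (fun j => max 0 (rmp ε (sgm sg ε i j)
        (L i j (qa z) (qb z) (qc z) (qd z)) (lgs L i j (qa z) (qb z) (qc z) (qd z))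
        (min s (sg i j)))) s (M i) 0 := fun z hz => by
    unfold Lc
    rw [if_pos (hv z hz)]
    rfl
  rw [Finset.sum_congr rfl e, bl_sum S w
    (fun z j => max 0 (rmp ε (sgm sg ε i j) (L i j (qa z) (qb z) (qc z) (qd z))
      (lgs L i j (qa z) (qb z) (qc z) (qd z)) (min s (sg i j))))]
  refine bl_le ε0 _ 0 fun j _ hj h1 h2 => ?_
  rw [zero_add] at hj h1
  have hmin : min s (sg i j) = s := by
    rcases lt_or_eq_of_le hj with h3 | h3
    · exact min_eq_left (h1 h3)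
    · rw [h3, last i hi]
      exact min_eq_left (hs.2.trans hm.2)
  have hsj : sgm sg ε i j + ε ≤ s := by
    cases j with
    | zero => show -ε + ε ≤ s; linarith [hs.1]
    | succ j =>
      show sg i j - 2 * ε + ε ≤ s
      have := h2 j (Nat.zero_le _) (Nat.lt_succ_self j)
      linarith
  refine le_trans (le_of_eq ?_) (h j ⟨hj, h1, fun k hk => h2 k (Nat.zero_le _) hk⟩)
  refine Finset.sum_congr rfl fun z _ => ?_
  rw [hmin, rmp_eq ε0 hsj]

/-- sums of the released exponents -/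
theorem lr_sum_le (ε0 : 0 < ε) (N0 : 0 < N) (last : ∀ i < N, sg i (M i) = cb N i)
    {t s B : ℝ} (ht1 : t ≤ 1) (hs : s ∈ Icc 0 t)
    (S : Finset ι) (w : ι → ℝ) (qa qb qc qd : ι → V)
    (hv : ∀ z ∈ S, Vq P (qa z) (qb z) (qc z) (qd z))
    (h : ∀ j, Act M sg ε (ci N t) s j →
      ∑ z ∈ S, w z * max 0 (Lf (ci N t) j (qa z) (qb z) (qc z) (qd z)) ≤ B) :
    ∑ z ∈ S, w z * Lr P (mkC N M sg ε L Lf Lg) (qa z) (qb z) (qc z) (qd z) t s ≤ B := by
  have ht0 : 0 ≤ t := hs.1.trans hs.2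
  have hi := ci_lt N0 ht1
  have hm := ci_mem N0 ht0 ht1
  set i := ci N t with hidef
  have e : ∀ z ∈ S, w z * Lr P (mkC N M sg ε L Lf Lg) (qa z) (qb z) (qc z) (qd z) t s
      = w z * bl ε (sg i) (fun j => max 0 (rmp ε (sgm sg ε i j)
        (Lf i j (qa z) (qb z) (qc z) (qd z)) (Lg i j (qa z) (qb z) (qc z) (qd z))
        (min s (sg i j)))) s (M i) 0 := fun z hz => by
    unfold Lr
    rw [if_pos (hv z hz)]
    rfl
  rw [Finset.sum_congr rfl e, bl_sum S w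
    (fun z j => max 0 (rmp ε (sgm sg ε i j) (Lf i j (qa z) (qb z) (qc z) (qd z))
      (Lg i j (qa z) (qb z) (qc z) (qd z)) (min s (sg i j))))]
  refine bl_le ε0 _ 0 fun j _ hj h1 h2 => ?_
  rw [zero_add] at hj h1
  have hmin : min s (sg i j) = s := by
    rcases lt_or_eq_of_le hj with h3 | h3
    · exact min_eq_left (h1 h3)
    · rw [h3, last i hi]
      exact min_eq_left (hs.2.trans hm.2)
  have hsj : sgm sg ε i j + ε ≤ s := by
    cases j with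
    | zero => show -ε + ε ≤ s; linarith [hs.1]
    | succ j =>
      show sg i j - 2 * ε + ε ≤ s
      have := h2 j (Nat.zero_le _) (Nat.lt_succ_self j)
      linarith
  refine le_trans (le_of_eq ?_) (h j ⟨hj, h1, fun k hk => h2 k (Nat.zero_le _) hk⟩)
  refine Finset.sum_congr rfl fun z _ => ?_
  rw [hmin, rmp_eq ε0 hsj]

end Pool.Agent.RZ.RCO
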