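import Pool.Agent.RZ.RCN.Par

/-! Route P: the uniform grid of cells and classes (MP_73ccd0_lc). -/

namespace Pool.Agent.RZ.RCO

open Set Finset MeasureTheory

open Pool.Agent.RZ.RCN

set_option linter.unusedSectionVars false

variable {V : Type*} [Fintype V] [DecidableEq V]

/-- the classes of the uniform grid: the class `j` ends at `(j + 1) / N` in every cell -/
noncomputable def sgN (N : ℕ) (_ : ℕ) (j : ℕ) : ℝ := cb N j

/-- the cell `i` has the classes `0, …, i` -/
def MN (i : ℕ) : ℕ := i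

variable {N : ℕ} {ε : ℝ}

theorem sgN_last (i : ℕ) : sgN N i (MN i) = cb N i := rfl

theorem cb_nonneg (N j : ℕ) : 0 ≤ cb N j := by
  unfold cb
  positivity

theorem sgN_nonneg (i j : ℕ) : 0 ≤ sgN N i j := cb_nonneg N j

theorem cb_mono {i j : ℕ} (h : i ≤ j) : cb N i ≤ cb N j := by
  unfold cb
  have : (i : ℝ) ≤ j := by exact_mod_cast h
  exact div_le_div_of_nonneg_right (by linarith) (Nat.cast_nonneg N)

theorem cb_le_one {i : ℕ} (h : i < N) : cb N i ≤ 1 := by
  have hN : (0 : ℝ) < N := Nat.cast_pos.2 (Nat.lt_of_le_of_lt (Nat.zero_le _) h)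
  unfold cb
  rw [div_le_one hN]
  exact_mod_cast h

end Pool.Agent.RZ.RCO
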