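import Mathlib

/-! The late rates of the density errors from weighted sums of the exponents of the closures
(MP_73ccd0_lc, route P). -/

set_option autoImplicit false
set_option linter.unusedSectionVars false

namespace Pool.Agent.RZ.RCO

open Set Finset MeasureTheory

/-- Jensen's inequality for `1 - exp (-L)` with a total mass at most `ρ` -/
theorem sum_one_sub_exp {ι : Type*} (s : Finset ι) {w L : ι → ℝ} (hw : ∀ i ∈ s, 0 ≤ w i)
    {ρ l : ℝ} (hρ : ∑ i ∈ s, w i ≤ ρ) (l0 : 0 ≤ l) (hL : ∑ i ∈ s, w i * L i ≤ ρ * l) :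
    ∑ i ∈ s, w i * (1 - Real.exp (-(L i))) ≤ ρ * (1 - Real.exp (-l)) := by
  have e0 : 0 < Real.exp (-l) := Real.exp_pos _
  have k0 : 0 ≤ 1 - Real.exp (-l) * (1 + l) := by
    have h1 := mul_le_mul_of_nonneg_left (Real.add_one_le_exp l) e0.le
    rw [← Real.exp_add, neg_add_cancel, Real.exp_zero] at h1
    linarith
  have h2 : ∀ i ∈ s, w i * (1 - Real.exp (-(L i)))
      ≤ w i * (1 - Real.exp (-l) * (1 + l)) + Real.exp (-l) * (w i * L i) := by
    intro i hi
    have h3 := mul_le_mul_of_nonneg_left (Real.add_one_le_exp (l - L i)) e0.le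
    rw [← Real.exp_add] at h3
    have h4 : -l + (l - L i) = -(L i) := by ring
    rw [h4] at h3
    have h5 := mul_le_mul_of_nonneg_left h3 (hw i hi)
    nlinarith
  refine (Finset.sum_le_sum h2).trans ?_
  rw [Finset.sum_add_distrib, ← Finset.sum_mul, ← Finset.mul_sum]
  have h6 := mul_le_mul_of_nonneg_right hρ k0
  have h7 := mul_le_mul_of_nonneg_left hL e0.le
  nlinarith

end Pool.Agent.RZ.RCO
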