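import Pool.Agent.RZ.RCE.DnM2
import Pool.Agent.RZ.RCE.TDat
import Pool.Agent.RZ.RCE.TDt5
import Pool.Agent.RZ.RCO.Cl3
import Pool.Agent.RZ.RCO.DnS

/-! The pointwise rates of the density errors from weighted sums of the exponents of the closures
of the cells and classes (MP_73ccd0_lc, route P). -/

set_option autoImplicit false
set_option linter.unusedSectionVars false

namespace Pool.Agent.RZ.RCO

open Set Finset MeasureTheory Pool.Agent.RZ.RCRSHalf Pool.Agent.RZ.RCG Pool.Agent.RZ.RCG.Ct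
open Pool.Agent.RZ.RCN Pool.Agent.RZ.RCN.K Pool.Agent.RZ.RCE Pool.Agent.RZ.RCM9
open Pool.Agent.RZ.RCM9.Bern Pool.Agent.RZ.RCM9.Pk

variable {V : Type*} [Fintype V] [DecidableEq V] {x : V → V → ℝ} {P : V → Prop} [DecidablePred P]

/-- equal times: weighted sums of the exponents of the worlds `{a}`, `{a, b}` in a cell -/
structure SumT (Z : Hzd) (x : V → V → ℝ) (P : V → Prop) [DecidablePred P] (kw : ℝ → ℝ)
    (α τ lA lC : ℝ) :
    Prop where
  A0 : 0 ≤ lA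
  C0 : 0 ≤ lC
  c1 : ∀ a b, P a → P b → a ≠ b → ∃ L1 L3 : V → V → ℝ, (∀ c d, 0 ≤ L1 c d) ∧
    (∀ c d, 0 ≤ L3 c d) ∧ ClK Z x P {a} {a} α τ τ L1 ∧ ClK Z x P {a, b} {a, b} α τ τ L3 ∧
    ∀ c, a ≠ c → b ≠ c → ∑ d ∈ ({a, b, c} : Finset V)ᶜ, x a d * (L3 d c + L1 d b)
      ≤ kw (x a b + x a c) * lA
  c3 : ∀ a b, P a → a ≠ b → ∃ L : V → V → ℝ, (∀ c d, 0 ≤ L c d) ∧
    ClK Z x P {a, b} {a, b} α τ τ L ∧ ∀ c, a ≠ c → b ≠ c →
      ∑ d ∈ ({a, b, c} : Finset V)ᶜ, (x a d + x b d) * L d c ≤ 2 * lC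

/-- different times: weighted sums of the exponents of the ordered worlds `{a}`, `{a, b}` in a cell
for the times up to `σ` -/
structure SumS (Z : Hzd) (x : V → V → ℝ) (P : V → Prop) [DecidablePred P] (kw : ℝ → ℝ)
    (α τ σ lD : ℝ) :
    Prop where
  D0 : 0 ≤ lD
  c2 : ∀ a b, P a → P b → a ≠ b → ∃ L1 L2 : V → V → ℝ, (∀ c d, 0 ≤ L1 c d) ∧
    (∀ c d, 0 ≤ L2 c d) ∧ ClK Z x P {a} {a} α τ σ L1 ∧ ClK Z x P {a} {a, b} α τ σ L2 ∧
    ∀ c, a ≠ c → b ≠ c → ∑ d ∈ ({a, b, c} : Finset V)ᶜ, x a d * (L1 d b + L2 d c)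
      ≤ kw (x a b + x a c) * lD

section rates

variable {Z : Hzd} {kw : ℝ → ℝ} (hkw : ∀ w ∈ Icc (0 : ℝ) 1, 1 - w / 2 ≤ kw w)
  {α τ σ lA lC lD : ℝ} (hx : Wt x P 1) (α0 : 0 ≤ α) (τ1 : τ ≤ 1)
  {h : ℝ → V → V → ℝ} {H : V → V → ℝ → ℝ} {t : ℝ} (hw : Wh Z x P h H t) (ht : t ∈ Icc α τ)
  {a b c : V} (ha : P a) (hb : P b) (hab : a ≠ b) (hac : a ≠ c) (hbc : b ≠ c)
include hkw hx α0 τ1 hw ht ha hb hab hac hbc

/-- the rates at equal times -/
theorem SumT.rt (hS : SumT Z x P kw α τ lA lC) :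
    RtT h x a b c t (kw (x a b + x a c) * (1 - Real.exp (-lA)))
      (2 * (1 - Real.exp (-lC))) := by
  have t0 : 0 ≤ t := α0.trans ht.1
  have tm : t ∈ Icc 0 t := ⟨t0, le_rfl⟩
  have t01 : t ∈ Icc (0 : ℝ) 1 := ⟨t0, ht.2.trans τ1⟩
  obtain ⟨L1, L3, n1, n3, k1, k3, s1⟩ := hS.c1 a b ha hb hab
  obtain ⟨L4, n4, k4, s4⟩ := hS.c3 b c hb hbc
  have s1' := s1 c hac hbc
  have s4' := s4 a hab.symm hac.symm
  have ebc : ({b, c, a} : Finset V) = {a, b, c} := by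
    ext e
    simp only [Finset.mem_insert, Finset.mem_singleton]
    tauto
  rw [ebc] at s4'
  have nb : ∀ {d : V}, d ∈ ({a, b, c} : Finset V)ᶜ → d ≠ a ∧ d ≠ b ∧ d ≠ c := fun hd => by
    simp only [Finset.mem_compl, Finset.mem_insert, Finset.mem_singleton, not_or] at hd
    exact hd
  have u0 := hx.nonneg a b
  have y0 := hx.nonneg a c
  have w1 : x a b + x a c ≤ 1 := by
    have h3 := hx.row a
    rw [← Finset.sum_add_sum_compl ({b, c} : Finset V), Finset.sum_pair hbc] at h3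
    have : 0 ≤ ∑ e ∈ ({b, c} : Finset V)ᶜ, x a e := Finset.sum_nonneg fun e _ => hx.nonneg a e
    linarith
  have rw1 : ∑ d ∈ ({a, b, c} : Finset V)ᶜ, x a d ≤ kw (x a b + x a c) := by
    have := row_abc hx hab hac hbc
    have := hkw (x a b + x a c) ⟨add_nonneg (hx.nonneg _ _) (hx.nonneg _ _), w1⟩
    linarith [hx.nonneg a b, hx.nonneg a c]
  have rw2 : ∑ d ∈ ({a, b, c} : Finset V)ᶜ, (x b d + x c d) ≤ 2 := by
    have := sum_cst2 hx hab hac hbc (m := 1) zero_le_one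
    simpa using this
  have e01 : ∀ {l : ℝ}, 0 ≤ l → 0 ≤ 1 - Real.exp (-l) := fun {l} hl => by
    have h2 : Real.exp (-l) ≤ 1 := Real.exp_le_one_iff.2 (by linarith)
    linarith
  refine ⟨⟨fun d => 1 - Real.exp (-(L3 d c + L1 d b)),
      fun d _ => e01 (add_nonneg (n3 _ _) (n1 _ _)), fun d hd => ?_, ?_⟩,
    ⟨fun d => 1 - Real.exp (-(L4 d a)), fun d _ => e01 (n4 _ _), fun d hd => ?_, ?_⟩⟩
  · obtain ⟨da, db, dc⟩ := nb hd
    refine ⟨Real.exp (L3 d c), Real.exp (L1 d b),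
      RCM.CloD.swap hw.hh t01 (by simp [da, db]) ?_,
      RCM.CloD.swap hw.hh t01 (by simp [da]) ?_, RCM.two_e⟩
    · exact k3 h H t hw ht t tm ht.2 d (by simp [da, db]) c (by simp [hac.symm, hbc.symm]) dc
    · exact k1 h H t hw ht t tm ht.2 d (by simp [da]) b (by simp [hab.symm]) db
  · exact sum_one_sub_exp _ (fun d _ => hx.nonneg a d) rw1 hS.A0 s1'
  · obtain ⟨da, db, dc⟩ := nb hd
    refine ⟨Real.exp (L4 d a), RCM.CloD.swap hw.hh t01 (by simp [db, dc]) ?_, RCM.one_e⟩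
    exact k4 h H t hw ht t tm ht.2 d (by simp [db, dc]) a (by simp [hab, hac]) da
  · exact sum_one_sub_exp _ (fun d _ => add_nonneg (hx.nonneg b d) (hx.nonneg c d)) rw2 hS.C0
      s4'

/-- the rate at different times -/
theorem SumS.rt (hS : SumS Z x P kw α τ σ lD) {s : ℝ} (hs : s ∈ Icc 0 t) (hσ : s ≤ σ) :
    RtS h x a b c t s (kw (x a b + x a c) * (1 - Real.exp (-lD))) := by
  obtain ⟨L1, L2, n1, n2, k1, k2, s2⟩ := hS.c2 a b ha hb hab
  have s2' := s2 c hac hbc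
  have nb : ∀ {d : V}, d ∈ ({a, b, c} : Finset V)ᶜ → d ≠ a ∧ d ≠ b ∧ d ≠ c := fun hd => by
    simp only [Finset.mem_compl, Finset.mem_insert, Finset.mem_singleton, not_or] at hd
    exact hd
  have u0 := hx.nonneg a b
  have y0 := hx.nonneg a c
  have w1 : x a b + x a c ≤ 1 := by
    have h3 := hx.row a
    rw [← Finset.sum_add_sum_compl ({b, c} : Finset V), Finset.sum_pair hbc] at h3
    have : 0 ≤ ∑ e ∈ ({b, c} : Finset V)ᶜ, x a e := Finset.sum_nonneg fun e _ => hx.nonneg a e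
    linarith
  have rw1 : ∑ d ∈ ({a, b, c} : Finset V)ᶜ, x a d ≤ kw (x a b + x a c) := by
    have := row_abc hx hab hac hbc
    have := hkw (x a b + x a c) ⟨add_nonneg (hx.nonneg _ _) (hx.nonneg _ _), w1⟩
    linarith [hx.nonneg a b, hx.nonneg a c]
  have e01 : ∀ {l : ℝ}, 0 ≤ l → 0 ≤ 1 - Real.exp (-l) := fun {l} hl => by
    have h2 : Real.exp (-l) ≤ 1 := Real.exp_le_one_iff.2 (by linarith)
    linarith
  refine ⟨fun d => 1 - Real.exp (-(L1 d b + L2 d c)),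
    fun d _ => e01 (add_nonneg (n1 _ _) (n2 _ _)), fun d hd => ?_, ?_⟩
  · obtain ⟨da, db, dc⟩ := nb hd
    refine ⟨Real.exp (L1 d b), Real.exp (L2 d c), ?_, ?_, RCM.two_e⟩
    · exact k1 h H t hw ht s hs hσ d (by simp [da]) b (by simp [hab.symm]) db
    · exact k2 h H t hw ht s hs hσ d (by simp [da, db]) c (by simp [hac.symm, hbc.symm]) dc
  · exact sum_one_sub_exp _ (fun d _ => hx.nonneg a d) rw1 hS.D0 s2'

end rates

/-- the parametrisation of `[0, t2]` -/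
def tS (q : TDt5) : E := qc q.t2 * wT

/-- the certificate of the rates from the sums: `SA` (equal times), `SC` (pair), `SD + s² SE`
(different times) -/
structure LtN (q : TDt5) (SA SC SD SE EA EC ED : List ℚ) : Prop where
  A0 : N4 (pe SA (tS q))
  C0 : N4 (pe SC (tS q))
  D0 : N4 (pe SD (tS q))
  S0 : N4 (pe SE (tS q))
  A1 : N4 (L5 (pe SA (tS q)) - pe EA (tS q))
  C1 : N4 (L5 (pe SC (tS q)) - pe EC (tS q))
  D1 : N4 (L5 (pe SD (tS q)) - pe ED (tS q))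
  q1 : N4 (pe q.q1 (tS q) - (1 - pe EA (tS q)))
  q2 : N4 (pe q.q2 (tS q) - 2 * (1 - pe EC (tS q)))
  q3 : N4 (pe q.q3 (tS q) - (1 - pe ED (tS q)))
  q4 : N4 (pe q.q4 (tS q) - pe SE (tS q))

variable {q : TDt5} {SA SC SD SE EA EC ED : List ℚ}

theorem LtN.ok (hL : LtN q SA SC SD SE EA EC ED) (t20 : (0 : ℝ) ≤ q.t2) {t : ℝ}
    (ht : t ∈ Icc (0 : ℝ) q.t2) :
    1 - Real.exp (-(pv SA t)) ≤ pv q.q1 t ∧ 2 * (1 - Real.exp (-(pv SC t))) ≤ pv q.q2 t ∧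
      ∀ s, 1 - Real.exp (-(pv SD t + s ^ 2 * pv SE t)) ≤ pv q.q3 t + s ^ 2 * pv q.q4 t := by
  obtain ⟨T, hT, hTe⟩ := map_mem t20 ht
  have v : (tS q).val (pt 0 0 0 T) = t := by
    simp only [tS, val_mul, val_qc, val_wT]
    exact hTe
  have s0 := hL.A0.t hT
  have s1 := hL.C0.t hT
  have s2 := hL.D0.t hT
  have s3 := hL.S0.t hT
  have e0 := hL.A1.t hT
  have e1 := hL.C1.t hT
  have e2 := hL.D1.t hT
  have h1 := hL.q1.t hT
  have h2 := hL.q2.t hT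
  have h3 := hL.q3.t hT
  have h4 := hL.q4.t hT
  simp only [val_pe, v] at s0 s1 s2 s3
  simp only [val_sub, val_L5, val_pe, v] at e0 e1 e2
  simp only [val_sub, val_one, val_pe, v] at h1 h3
  simp only [val_sub, val_pe, v] at h4
  simp only [val_sub, val_mul, val_two, val_one, val_pe, v] at h2
  have l0 := l5_le s0
  have l1 := l5_le s1
  have l2 := l5_le s2
  refine ⟨by linarith, by linarith, fun s => ?_⟩
  have y0 : 0 ≤ s ^ 2 * pv SE t := mul_nonneg (sq_nonneg s) s3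
  have y1 := mul_le_mul_of_nonneg_left (show pv SE t ≤ pv q.q4 t by linarith) (sq_nonneg s)
  have a1 : 1 - s ^ 2 * pv SE t ≤ Real.exp (-(s ^ 2 * pv SE t)) := Real.one_sub_le_exp_neg _
  have a2 : Real.exp (-(pv SD t)) ≤ 1 := Real.exp_le_one_iff.2 (by linarith)
  have a3 := (Real.exp_pos (-(pv SD t))).le
  have a4 : Real.exp (-(pv SD t + s ^ 2 * pv SE t))
      = Real.exp (-(pv SD t)) * Real.exp (-(s ^ 2 * pv SE t)) := by
    rw [← Real.exp_add]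
    congr 1
    ring
  have a5 := mul_le_mul_of_nonneg_left a1 a3
  have a6 := mul_le_mul_of_nonneg_right a2 y0
  rw [a4]
  nlinarith

end Pool.Agent.RZ.RCO
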