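import Pool.Agent.RZ.RCN.Ins

/-! The conditions of the gap with polynomial data for the density factor with the cap: the product
form up to a time, the cap afterwards (MP_73ccd0_lc). -/

set_option autoImplicit false

namespace Pool.Agent.RZ.RCO

open Set Finset MeasureTheory Pool.Agent.RZ.RCRSHalf Pool.Agent.RZ.RCG Pool.Agent.RZ.RCG.Ct
open Pool.Agent.RZ.RCN.Ker Pool.Agent.RZ.RCRS Pool.Agent.RZ.RCM9 Pool.Agent.RZ.RCM9.Bern Pool.Agent.RZ.RCM9.Pk
open Pool.Agent.RZ.RCN Pool.Agent.RZ.RCN.K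

set_option linter.unusedSectionVars false

/-- the expression `b(y, t)` -/
def ebt (d : Dat) (y e : E) : E := 1 + (1 - y) * (pe d.be0 vT - 1) + e * pe d.be1 vT

theorem val_ebt (d : Dat) (ρ : ℕ → ℝ) (y e : E) : (ebt d y e).val ρ
    = 1 + (1 - y.val ρ) * (pv d.be0 (vT.val ρ) - 1) + e.val ρ * pv d.be1 (vT.val ρ) := by
  simp only [ebt, val_mul, val_sub, val_add, val_one, val_pe]

/-- the bound of the densities -/
noncomputable def rb (d : Dat) (y t : ℝ) : ℝ :=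
  1 + (1 - y) * (pv d.be0 t - 1) + eta y * pv d.be1 t

/-- the integral of a polynomial -/
theorem int_l (l : List ℚ) (t : ℝ) : ∫ s in (0 : ℝ)..t, pv l s = pv (pri l) t := by
  rw [intervalIntegral.integral_eq_sub_of_hasDerivAt (fun s _ => hasDerivAt_pri l s)
    ((continuous_pv l).intervalIntegrable _ _), pri_zero, sub_zero]

/-- `e^{-z} ≤ 1 - z + z² / 2` -/
theorem exp_neg_le2 {z : ℝ} (hz : 0 ≤ z) : Real.exp (-z) ≤ 1 - z + z ^ 2 / 2 := by
  have key := nonneg_of_forward (a := 0) (s := z)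
    (U := fun v => 1 - v + v ^ 2 / 2 - Real.exp (-v)) (U' := fun v => -1 + v + Real.exp (-v))
    (fun r _ => by
      have h1 := (hasDerivAt_neg r).exp
      have h2 := ((hasDerivAt_id' r).const_sub 1).add ((hasDerivAt_pow 2 r).div_const 2)
      refine (h2.sub h1).congr_deriv ?_
      push_cast
      ring)
    (by simp)
    (fun r _ _ => by
      have := Real.one_sub_le_exp_neg r
      linarith) z ⟨hz, le_rfl⟩
  linarith

namespace GDatM

end GDatM

variable {p : Ps}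

theorem fhk_cont (y : ℝ) :
    ContinuousOn ((p.d.dt.kf (pv p.d.be0) (pv p.d.be1) p.d.rPe p.d.rP).fh y) (Icc 0 1) := by
  have e : (p.d.dt.kf (pv p.d.be0) (pv p.d.be1) p.d.rPe p.d.rP).fh y
      = fun t => rb p.d y t * ((1 + t) ^ 2)⁻¹ := rfl
  rw [e]
  refine ContinuousOn.mul ?_ (ContinuousOn.inv₀ (by fun_prop) fun t ht => by
    have := ht.1; positivity)
  unfold rb
  exact ((continuous_const.add (continuous_const.mul ((continuous_pv _).sub
    continuous_const))).add (continuous_const.mul (continuous_pv _))).continuousOn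

theorem rPe_nn (hp : p.Ok) {w t : ℝ} (hw : w ∈ Icc (0 : ℝ) 1) (ht : t ∈ Icc (0 : ℝ) 1) :
    0 ≤ p.d.rPe w t := by
  have ee0 : (0 : ℝ) ≤ (p.d.ee : ℝ) := by exact_mod_cast hp.k.ee0
  unfold Dat.rPe
  have := mul_nonneg hw.1 ht.1
  have := mul_nonneg ee0 ht.1
  exact mul_nonneg (by linarith) (by linarith)

theorem pos_int {r : ℝ → ℝ} {k : ℝ → ℝ} {t : ℝ} (ht : t ∈ Icc (0 : ℝ) 1)
    (r0 : ∀ s ∈ Icc (0 : ℝ) 1, 0 ≤ r s) (k0 : ∀ s ∈ Icc (0 : ℝ) 1, 0 ≤ k s) :
    0 ≤ ∫ s in (0 : ℝ)..t, r s * k s :=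
  intervalIntegral.integral_nonneg ht.1 fun s hs =>
    mul_nonneg (r0 s ⟨hs.1, hs.2.trans ht.2⟩) (k0 s ⟨hs.1, hs.2.trans ht.2⟩)

end Pool.Agent.RZ.RCO
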