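import Pool.Agent.RZ.RCO.DnN
import Pool.Agent.RZ.RCO.GapM

/-! The conditions of the gap with polynomial data for the density factor `kdN`
(MP_73ccd0_lc, route P). -/

set_option autoImplicit false

namespace Pool.Agent.RZ.RCO

open Set Finset MeasureTheory Pool.Agent.RZ.RCRSHalf Pool.Agent.RZ.RCG Pool.Agent.RZ.RCG.Ct
open Pool.Agent.RZ.RCN.Ker Pool.Agent.RZ.RCRS Pool.Agent.RZ.RCM9 Pool.Agent.RZ.RCM9.Bern Pool.Agent.RZ.RCM9.Pk
open Pool.Agent.RZ.RCN Pool.Agent.RZ.RCN.K Pool.Agent.RZ.RCE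

set_option linter.unusedSectionVars false

/-- the data of the gap: `Qa`, `Qb`, `Qc`, `Qd` bounds of the densities for the weights `0`,
`1 / 2`, `1` and for the pendant pairs; `al (1 + w ga)` the bound of the integrated densities, `im`
and `im2` the bounds of the integrals with the density error (without and with the factor `s²`) -/
structure GDatN where
  Qa : List ℚ
  Qb : List ℚ
  Qc : List ℚ
  Qd : List ℚ
  im : List ℚ
  im2 : List ℚ
  al : List ℚ
  ga : List ℚ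
  dl : ℚ

namespace GDatN

variable (g : GDatN) (d : Dat) (q : TDt5)

def eQa : E := (1 + vT) ^ 2 * pe g.Qa vT - pe d.be0 vT
def eQb : E := (1 + vT) ^ 2 * pe g.Qb vT - (1 + (pe d.be0 vT - 1) * hlf + pe d.be1 vT * hlf)
def eQc : E := (1 + vT) ^ 2 * pe g.Qc vT - (1 + pe d.be1 vT * hlf)
def eQd : E := (1 + vT) ^ 2 * pe g.Qd vT - 1
def eI (Q : List ℚ) : E := pe g.im vT - pe (pri (lmul Q q.kq)) vT
def eJ (Q : List ℚ) : E := pe g.im2 vT - pe (pri (lmul Q (0 :: 0 :: q.kq))) vT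
def eFl : E := (1 + vT) * ((1 - vX) * pe (pri g.Qa) vT + vX * pe (pri g.Qb) vT)
  - d.eez Dat.xlo Dat.xlo vT
def eFh : E := (1 + vT) * ((1 - vX) * pe (pri g.Qb) vT + vX * pe (pri g.Qc) vT)
  - d.eez Dat.xhi hlf vT
def eZ : E := vX * qc q.th * pe q.cl vT * hlf
def eA : E := pe g.al vT * (1 + vX * pe g.ga vT) - (1 + vX * vT) * (1 + qc d.ee * vT)
  * (pe q.kA vT * (1 - eZ q + eZ q ^ 2 * hlf)
    * (pe g.im vT + qc q.ρ0 * pe (pri q.bp) vT * pe g.im2 vT))
def eAd : E := 1 - qc g.dl - pe g.al vT * (1 + pe g.ga vT * qc (1 / 3))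
def eg0 : E := pe g.ga vT
def eg1 : E := 1 - pe g.ga vT
def ebl : E := ebt d Dat.xlo Dat.xlo
def ebh : E := ebt d Dat.xhi hlf

/-- the polynomial inequalities -/
structure Pos : Prop where
  Qa : NN (g.eQa d)
  Qb : NN (g.eQb d)
  Qc : NN (g.eQc d)
  Qd : NN g.eQd
  Ia : NN (g.eI q g.Qa)
  Ib : NN (g.eI q g.Qb)
  Ic : NN (g.eI q g.Qc)
  Iq : NN (g.eI q g.Qd)
  Ja : NN (g.eJ q g.Qa)
  Jb : NN (g.eJ q g.Qb)
  Jc : NN (g.eJ q g.Qc)
  Jq : NN (g.eJ q g.Qd)
  Fl : NN (g.eFl d)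
  Fh : NN (g.eFh d)
  A : NN (g.eA d q)
  Ad : NN g.eAd
  g0 : NN g.eg0
  g1 : NN g.eg1
  bl : NN (ebl d)
  bh : NN (ebh d)

/-- the numerical conditions -/
structure Bd : Prop where
  d0 : 0 < g.dl
  d1 : g.dl ≤ 1

variable {g d q}

theorem Pos.b0 (h : g.Pos d q) {y t : ℝ} (hy : y ∈ Icc (0 : ℝ) 1) (ht : t ∈ Icc (0 : ℝ) 1) :
    0 ≤ rb d y t := by
  unfold rb
  rcases le_total y (1 / 2) with h1 | h1
  · have h2 := h.bl (2 * y) 0 0 t (Dat.two_mul_mem hy.1 h1) Dat.z01 Dat.z01 ht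
    simp only [ebl, val_ebt, Dat.val_xlo, val_vT] at h2
    rw [show 1 / 2 * (2 * y) = y by ring] at h2
    rwa [Dat.eta_lo h1]
  · have h2 := h.bh (2 * y - 1) 0 0 t (Dat.two_sub_mem h1 hy.2) Dat.z01 Dat.z01 ht
    simp only [ebh, val_ebt, Dat.val_xhi, val_hlf, val_vT] at h2
    rw [show 1 / 2 + 1 / 2 * (2 * y - 1) = y by ring] at h2
    rwa [Dat.eta_hi h1]

theorem Pos.qa (h : g.Pos d q) {t : ℝ} (ht : t ∈ Icc (0 : ℝ) 1) :
    pv d.be0 t ≤ (1 + t) ^ 2 * pv g.Qa t := by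
  have h2 := h.Qa.t ht
  simp only [eQa, val_sub, val_mul, val_add, val_one, val_pow, val_pe, val_vT] at h2
  linarith

theorem Pos.qb (h : g.Pos d q) {t : ℝ} (ht : t ∈ Icc (0 : ℝ) 1) :
    1 + (pv d.be0 t - 1) * (1 / 2) + pv d.be1 t * (1 / 2) ≤ (1 + t) ^ 2 * pv g.Qb t := by
  have h2 := h.Qb.t ht
  simp only [eQb, val_sub, val_mul, val_add, val_one, val_pow, val_pe, val_hlf, val_vT] at h2
  linarith

theorem Pos.qc (h : g.Pos d q) {t : ℝ} (ht : t ∈ Icc (0 : ℝ) 1) :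
    1 + pv d.be1 t * (1 / 2) ≤ (1 + t) ^ 2 * pv g.Qc t := by
  have h2 := h.Qc.t ht
  simp only [eQc, val_sub, val_mul, val_add, val_one, val_pow, val_pe, val_hlf, val_vT] at h2
  linarith

theorem Pos.qd (h : g.Pos d q) {t : ℝ} (ht : t ∈ Icc (0 : ℝ) 1) :
    1 ≤ (1 + t) ^ 2 * pv g.Qd t := by
  have h2 := h.Qd.t ht
  simp only [eQd, val_sub, val_mul, val_add, val_one, val_pow, val_pe, val_vT] at h2
  linarith

/-- the bound of the densities for the weight `y` -/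
noncomputable def Qy (g : GDatN) (y t : ℝ) : ℝ :=
  if y ≤ 1 / 2 then (1 - 2 * y) * pv g.Qa t + 2 * y * pv g.Qb t
  else (1 - (2 * y - 1)) * pv g.Qb t + (2 * y - 1) * pv g.Qc t

/-- the interpolation of three numbers -/
noncomputable def ip (y a b c : ℝ) : ℝ :=
  if y ≤ 1 / 2 then (1 - 2 * y) * a + 2 * y * b else (1 - (2 * y - 1)) * b + (2 * y - 1) * c

theorem ip_le {y a b c M : ℝ} (hy : y ∈ Icc (0 : ℝ) 1) (ha : a ≤ M) (hb : b ≤ M) (hc : c ≤ M) :
    ip y a b c ≤ M := by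
  unfold ip
  split_ifs with h1
  · have i1 := mul_le_mul_of_nonneg_left ha (show 0 ≤ 1 - 2 * y by linarith)
    have i2 := mul_le_mul_of_nonneg_left hb (show 0 ≤ 2 * y by linarith [hy.1])
    linarith
  · have i1 := mul_le_mul_of_nonneg_left hb (show 0 ≤ 1 - (2 * y - 1) by linarith [hy.2])
    have i2 := mul_le_mul_of_nonneg_left hc (show 0 ≤ 2 * y - 1 by linarith [not_le.1 h1])
    linarith

theorem Qy_cont (g : GDatN) (y : ℝ) : Continuous (g.Qy y) := by
  unfold Qy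
  split_ifs
  · exact (continuous_const.mul (continuous_pv _)).add (continuous_const.mul (continuous_pv _))
  · exact (continuous_const.mul (continuous_pv _)).add (continuous_const.mul (continuous_pv _))

theorem int_Qy (g : GDatN) (y t : ℝ) :
    ∫ s in (0 : ℝ)..t, g.Qy y s = ip y (pv (pri g.Qa) t) (pv (pri g.Qb) t) (pv (pri g.Qc) t) := by
  have ii : ∀ (c : ℝ) (l : List ℚ), IntervalIntegrable (fun s => c * pv l s) volume 0 t :=
    fun c l => (continuous_const.mul (continuous_pv l)).intervalIntegrable _ _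
  unfold Qy ip
  split_ifs
  · rw [intervalIntegral.integral_add (ii _ _) (ii _ _), intervalIntegral.integral_const_mul,
      intervalIntegral.integral_const_mul, int_l, int_l]
  · rw [intervalIntegral.integral_add (ii _ _) (ii _ _), intervalIntegral.integral_const_mul,
      intervalIntegral.integral_const_mul, int_l, int_l]

theorem int_Qyk (g : GDatN) (k : List ℚ) (y t : ℝ) :
    ∫ s in (0 : ℝ)..t, g.Qy y s * pv k s = ip y (pv (pri (lmul g.Qa k)) t)
      (pv (pri (lmul g.Qb k)) t) (pv (pri (lmul g.Qc k)) t) := by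
  have ii : ∀ (c : ℝ) (l : List ℚ), IntervalIntegrable (fun s => c * pv l s) volume 0 t :=
    fun c l => (continuous_const.mul (continuous_pv l)).intervalIntegrable _ _
  have e : ∀ (a b : ℝ) (l m : List ℚ) (s : ℝ), (a * pv l s + b * pv m s) * pv k s
      = a * pv (lmul l k) s + b * pv (lmul m k) s := fun a b l m s => by
    rw [pv_lmul, pv_lmul]; ring
  unfold Qy ip
  split_ifs
  · simp only [e]
    rw [intervalIntegral.integral_add (ii _ _) (ii _ _), intervalIntegral.integral_const_mul,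
      intervalIntegral.integral_const_mul, int_l, int_l]
  · simp only [e]
    rw [intervalIntegral.integral_add (ii _ _) (ii _ _), intervalIntegral.integral_const_mul,
      intervalIntegral.integral_const_mul, int_l, int_l]

theorem Pos.fQ (h : g.Pos d q) {y t : ℝ} (hy : y ∈ Icc (0 : ℝ) 1) (ht : t ∈ Icc (0 : ℝ) 1) :
    rb d y t * ((1 + t) ^ 2)⁻¹ ≤ g.Qy y t := by
  have h2 : 0 < (1 + t) ^ 2 := by have := ht.1; positivity
  have key : rb d y t ≤ (1 + t) ^ 2 * g.Qy y t := by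
    unfold rb Qy
    have a := h.qa ht
    have b := h.qb ht
    have c := h.qc ht
    split_ifs with h1
    · rw [Dat.eta_lo h1]
      have i1 := mul_le_mul_of_nonneg_left a (show 0 ≤ 1 - 2 * y by linarith)
      have i2 := mul_le_mul_of_nonneg_left b (show 0 ≤ 2 * y by linarith [hy.1])
      nlinarith
    · rw [Dat.eta_hi (not_le.1 h1).le]
      have i1 := mul_le_mul_of_nonneg_left b (show 0 ≤ 1 - (2 * y - 1) by linarith [hy.2])
      have i2 := mul_le_mul_of_nonneg_left c (show 0 ≤ 2 * y - 1 by linarith [not_le.1 h1])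
      nlinarith
  calc rb d y t * ((1 + t) ^ 2)⁻¹ ≤ ((1 + t) ^ 2 * g.Qy y t) * ((1 + t) ^ 2)⁻¹ :=
        mul_le_mul_of_nonneg_right key (inv_nonneg.2 h2.le)
    _ = g.Qy y t := by rw [mul_comm, inv_mul_cancel_left₀ h2.ne']

theorem Pos.qQ (h : g.Pos d q) {t : ℝ} (ht : t ∈ Icc (0 : ℝ) 1) : qq t ≤ pv g.Qd t := by
  have h1 := h.qd ht
  have h2 : 0 < (1 + t) ^ 2 := by have := ht.1; positivity
  unfold qq
  calc ((1 + t) ^ 2)⁻¹ = ((1 + t) ^ 2)⁻¹ * 1 := (mul_one _).symm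
    _ ≤ ((1 + t) ^ 2)⁻¹ * ((1 + t) ^ 2 * pv g.Qd t) :=
        mul_le_mul_of_nonneg_left h1 (inv_nonneg.2 h2.le)
    _ = pv g.Qd t := inv_mul_cancel_left₀ h2.ne' _

theorem Pos.F (h : g.Pos d q) (y : ℝ) (hy : y ∈ Icc (0 : ℝ) 1) {t : ℝ} (ht : t ∈ Icc (0 : ℝ) 1) :
    d.rez y (eta y) t
      ≤ (1 + t) * ip y (pv (pri g.Qa) t) (pv (pri g.Qb) t) (pv (pri g.Qc) t) := by
  unfold ip
  split_ifs with h1
  · have h2 := h.Fl (2 * y) 0 0 t (Dat.two_mul_mem hy.1 h1) Dat.z01 Dat.z01 ht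
    simp only [eFl, val_sub, val_mul, val_add, val_one, val_pe, Dat.val_eez,
      Dat.val_xlo, val_vT, val_vX] at h2
    rw [show 1 / 2 * (2 * y) = y by ring] at h2
    rw [Dat.eta_lo h1]
    linarith
  · have h1' := (not_le.1 h1).le
    have h2 := h.Fh (2 * y - 1) 0 0 t (Dat.two_sub_mem h1' hy.2) Dat.z01 Dat.z01 ht
    simp only [eFh, val_sub, val_mul, val_add, val_one, val_pe, Dat.val_eez,
      Dat.val_xhi, val_hlf, val_vT, val_vX] at h2
    rw [show 1 / 2 + 1 / 2 * (2 * y - 1) = y by ring] at h2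
    rw [Dat.eta_hi h1']
    linarith

/-- the bound of the gap -/
noncomputable def α (g : GDatN) (t : ℝ) : ℝ := pv g.al t
noncomputable def γ (g : GDatN) (t : ℝ) : ℝ := pv g.ga t
noncomputable def A (g : GDatN) (w t : ℝ) : ℝ := g.α t * (1 + w * g.γ t)

end GDatN

variable {p : Ps} {g : GDatN} {q : TDt5}

/-- the exponential of the exponent `A` with the dependence on the weight -/
theorem exp_w_leN (qP : q.Pos) (qB : q.Bd) {w t : ℝ} (hw : w ∈ Icc (0 : ℝ) 1)
    (ht : t ∈ Icc (0 : ℝ) 1) : Real.exp (q.kw w * q.A t) ≤ pv q.kA t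
      * (1 - w * (q.th : ℝ) * pv q.cl t * (1 / 2)
        + (w * (q.th : ℝ) * pv q.cl t * (1 / 2)) ^ 2 * (1 / 2)) := by
  have c1 := TDt5.cl_le qP qB ht
  have c0 := TDt5.cl_nn qP ht
  have e1 : Real.exp (q.kw w * q.A t)
      = Real.exp (q.A t) * Real.exp (-(w * (q.th : ℝ) * q.A t * (1 / 2))) := by
    rw [← Real.exp_add]
    congr 1
    unfold TDt5.kw
    ring
  have th0 : (0 : ℝ) ≤ (q.th : ℝ) := by exact_mod_cast qB.th0
  have wt0 := mul_nonneg hw.1 th0
  have z0 : 0 ≤ w * (q.th : ℝ) * pv q.cl t * (1 / 2) := by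
    have := mul_nonneg wt0 c0
    linarith
  have e2 : Real.exp (-(w * (q.th : ℝ) * q.A t * (1 / 2)))
      ≤ Real.exp (-(w * (q.th : ℝ) * pv q.cl t * (1 / 2))) := by
    refine Real.exp_le_exp.2 ?_
    have := mul_le_mul_of_nonneg_left c1 wt0
    linarith
  have e2' := e2.trans (exp_neg_le2 z0)
  have e3 := TDt5.exp_A qP qB ht
  rw [e1]
  refine (mul_le_mul e3 e2' (Real.exp_pos _).le ((Real.exp_pos _).le.trans e3)).trans
    (le_of_eq ?_)
  ring

theorem kq_nn (qP : q.Pos) (qB : q.Bd) {s : ℝ} (hs : s ∈ Icc (0 : ℝ) 1) : 0 ≤ pv q.kq s :=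
  (Real.exp_pos _).le.trans (TDt5.exp_q qP qB hs)

/-- the integral of the density factor -/
theorem kdN_int (hp : p.Ok) (qP : q.Pos) (qB : q.Bd) {r : ℝ → ℝ} (cr : Continuous r)
    (r0 : ∀ s ∈ Icc (0 : ℝ) 1, 0 ≤ r s) {w t : ℝ} (hw : w ∈ Icc (0 : ℝ) 1)
    (ht : t ∈ Icc (0 : ℝ) 1) :
    ∫ s in (0 : ℝ)..t, r s * kdN p q w t s
      ≤ p.d.rPe w t * Real.exp (q.kw w * q.A t) * ((∫ s in (0 : ℝ)..t, r s * pv q.kq s)
        + (q.ρ0 : ℝ) * q.B t * ∫ s in (0 : ℝ)..t, r s * pv (0 :: 0 :: q.kq) s) := by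
  have ci : ∀ l : List ℚ, IntervalIntegrable (fun s => r s * pv l s) volume 0 t := fun l =>
    (cr.mul (continuous_pv l)).intervalIntegrable _ _
  rw [← intervalIntegral.integral_const_mul, ← intervalIntegral.integral_add (ci _)
    ((ci _).const_mul _), ← intervalIntegral.integral_const_mul]
  have c1 : Continuous fun s => kdN p q w t s :=
    (kdN_cont (p := p) (q := q) w).comp (continuous_const.prodMk continuous_id)
  have c2 : Continuous fun s => p.d.rPe w t * Real.exp (q.kw w * q.A t)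
      * (r s * pv q.kq s + (q.ρ0 : ℝ) * q.B t * (r s * pv (0 :: 0 :: q.kq) s)) :=
    continuous_const.mul ((cr.mul (continuous_pv _)).add
      (continuous_const.mul (cr.mul (continuous_pv _))))
  refine intervalIntegral.integral_mono_on ht.1 ((cr.mul c1).intervalIntegrable _ _)
    (c2.intervalIntegrable _ _) fun s hs => ?_
  have h1 := mul_le_mul_of_nonneg_left (kdN_le hp qP qB w hw t s hs.1 hs.2 ht.2)
    (r0 s ⟨hs.1, hs.2.trans ht.2⟩)
  refine h1.trans (le_of_eq ?_)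
  have e : pv (0 :: 0 :: q.kq) s = s ^ 2 * pv q.kq s := by
    simp only [pv]
    push_cast
    ring
  rw [e]
  ring

theorem GDatN.Qy_nn (hg : g.Pos p.d q) {y s : ℝ} (hy : y ∈ Icc (0 : ℝ) 1)
    (hs : s ∈ Icc (0 : ℝ) 1) : 0 ≤ g.Qy y s := by
  refine le_trans ?_ (hg.fQ hy hs)
  have h1 := hg.b0 hy hs
  have h2 : 0 ≤ (1 + s) ^ 2 := by positivity
  exact mul_nonneg h1 (inv_nonneg.2 h2)

theorem GDatN.Qd_nn (hg : g.Pos p.d q) {s : ℝ} (hs : s ∈ Icc (0 : ℝ) 1) : 0 ≤ pv g.Qd s :=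
  (qq_pos hs).le.trans (hg.qQ hs)

/-- the condition of the gap at one time from the bounds of the two integrals -/
theorem GDatN.main (hp : p.Ok) (qP : q.Pos) (qB : q.Bd) (hg : g.Pos p.d q)
    {w t I J : ℝ} (hw : w ∈ Icc (0 : ℝ) 1) (ht : t ∈ Icc (0 : ℝ) 1)
    (hI : I ≤ pv g.im t) (hJ : J ≤ pv g.im2 t) (I0 : 0 ≤ I) (J0 : 0 ≤ J) :
    p.d.rPe w t * Real.exp (q.kw w * q.A t) * (I + (q.ρ0 : ℝ) * q.B t * J) ≤ g.A w t := by
  have r0 := rPe_nn hp hw ht
  have ρ0 : 0 ≤ (q.ρ0 : ℝ) := by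
    have h1 := qB.ρ
    have h2 := qB.y0
    have h3 : (0 : ℚ) ≤ q.ρ0 * q.y0 := by
      refine le_trans ?_ h1
      positivity
    have h4 : 0 ≤ q.ρ0 := by
      by_contra hc
      have := mul_neg_of_neg_of_pos (not_le.1 hc) h2
      linarith
    exact_mod_cast h4
  have b0 := TDt5.B_nn qP ht
  have rb := mul_nonneg ρ0 b0
  have hIJ : I + (q.ρ0 : ℝ) * q.B t * J
      ≤ pv g.im t + (q.ρ0 : ℝ) * q.B t * pv g.im2 t :=
    add_le_add hI (mul_le_mul_of_nonneg_left hJ rb)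
  have IJ0 : 0 ≤ I + (q.ρ0 : ℝ) * q.B t * J := add_nonneg I0 (mul_nonneg rb J0)
  have h2 := hg.A w 0 0 t hw Dat.z01 Dat.z01 ht
  simp only [GDatN.eA, GDatN.eZ, val_sub, val_mul, val_add, val_one, val_pow, val_pe,
    val_qc, val_hlf, val_vX, val_vT] at h2
  have e4 := exp_w_leN qP qB hw ht
  have h3 := mul_le_mul_of_nonneg_left (mul_le_mul e4 hIJ IJ0
    ((Real.exp_pos _).le.trans e4)) r0
  rw [mul_assoc]
  refine h3.trans ?_
  have e6 : g.A w t = pv g.al t * (1 + w * pv g.ga t) := rfl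
  have e7 : q.B t = pv (pri q.bp) t := rfl
  rw [e6, e7]
  unfold Dat.rPe
  linarith

theorem GDatN.im_of (Q : List ℚ) (hQ : NN (g.eI q Q)) {t : ℝ}
    (ht : t ∈ Icc (0 : ℝ) 1) : pv (pri (lmul Q q.kq)) t ≤ pv g.im t := by
  have h2 := hQ.t ht
  simp only [GDatN.eI, val_sub, val_pe, val_vT] at h2
  linarith

theorem GDatN.im2_of (Q : List ℚ) (hQ : NN (g.eJ q Q)) {t : ℝ}
    (ht : t ∈ Icc (0 : ℝ) 1) : pv (pri (lmul Q (0 :: 0 :: q.kq))) t ≤ pv g.im2 t := by
  have h2 := hQ.t ht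
  simp only [GDatN.eJ, val_sub, val_pe, val_vT] at h2
  linarith

theorem kq2_nn (qP : q.Pos) (qB : q.Bd) {s : ℝ} (hs : s ∈ Icc (0 : ℝ) 1) :
    0 ≤ pv (0 :: 0 :: q.kq) s := by
  have e : pv (0 :: 0 :: q.kq) s = s ^ 2 * pv q.kq s := by
    simp only [pv]
    push_cast
    ring
  rw [e]
  exact mul_nonneg (sq_nonneg s) (kq_nn qP qB hs)

/-- the integral of the densities for the weight `y` -/
theorem GDatN.bndQ (hp : p.Ok) (qP : q.Pos) (qB : q.Bd) (hg : g.Pos p.d q)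
    {y w t : ℝ} (hy : y ∈ Icc (0 : ℝ) 1) (hw : w ∈ Icc (0 : ℝ) 1) (ht : t ∈ Icc (0 : ℝ) 1) :
    ∫ s in (0 : ℝ)..t, g.Qy y s * kdN p q w t s ≤ g.A w t := by
  refine (kdN_int hp qP qB (g.Qy_cont y) (fun s hs => GDatN.Qy_nn hg hy hs) hw ht).trans ?_
  refine GDatN.main hp qP qB hg hw ht ?_ ?_
    (pos_int ht (fun s hs => GDatN.Qy_nn hg hy hs) fun s hs => kq_nn qP qB hs)
    (pos_int ht (fun s hs => GDatN.Qy_nn hg hy hs) fun s hs => kq2_nn qP qB hs)
  · rw [GDatN.int_Qyk]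
    exact GDatN.ip_le hy (GDatN.im_of _ hg.Ia ht) (GDatN.im_of _ hg.Ib ht)
      (GDatN.im_of _ hg.Ic ht)
  · rw [GDatN.int_Qyk]
    exact GDatN.ip_le hy (GDatN.im2_of _ hg.Ja ht) (GDatN.im2_of _ hg.Jb ht)
      (GDatN.im2_of _ hg.Jc ht)

/-- the integral of the densities of the pendant pairs -/
theorem GDatN.bndd (hp : p.Ok) (qP : q.Pos) (qB : q.Bd) (hg : g.Pos p.d q)
    {w t : ℝ} (hw : w ∈ Icc (0 : ℝ) 1) (ht : t ∈ Icc (0 : ℝ) 1) :
    ∫ s in (0 : ℝ)..t, pv g.Qd s * kdN p q w t s ≤ g.A w t := by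
  have e : ∀ k : List ℚ, ∫ s in (0 : ℝ)..t, pv g.Qd s * pv k s
      = pv (pri (lmul g.Qd k)) t := fun k => by
    have e1 : ∀ s, pv g.Qd s * pv k s = pv (lmul g.Qd k) s := fun s =>
      (pv_lmul _ _ _).symm
    simp only [e1]
    exact int_l _ _
  refine (kdN_int hp qP qB (continuous_pv g.Qd) (fun s hs => GDatN.Qd_nn hg hs) hw ht).trans ?_
  refine GDatN.main hp qP qB hg hw ht ?_ ?_
    (pos_int ht (fun s hs => GDatN.Qd_nn hg hs) fun s hs => kq_nn qP qB hs)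
    (pos_int ht (fun s hs => GDatN.Qd_nn hg hs) fun s hs => kq2_nn qP qB hs)
  · rw [e]
    exact GDatN.im_of _ hg.Iq ht
  · rw [e]
    exact GDatN.im2_of _ hg.Jq ht

/-- **the conditions of the gap** -/
theorem gpN_of (hp : p.Ok) (qP : q.Pos) (qB : q.Bd) (hg : g.Pos p.d q) (hB : g.Bd)
    {V : Type} [Fintype V] [DecidableEq V] (C : Cx (V ⊕ V)) :
    Gp (p.da (kdN p q) C) (g.dl : ℝ) g.A g.α g.γ := by
  have hfQ : ∀ y ∈ Icc (0 : ℝ) 1, ∀ s ∈ Icc (0 : ℝ) 1,
      (p.d.dt.kf (pv p.d.be0) (pv p.d.be1) p.d.rPe p.d.rP).fh y s ≤ g.Qy y s :=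
    fun y hy s hs => hg.fQ hy hs
  have ck : ∀ w t, Continuous fun s => kdN p q w t s := fun w t =>
    (kdN_cont (p := p) (q := q) w).comp (continuous_const.prodMk continuous_id)
  have k0 : ∀ w ∈ Icc (0 : ℝ) 1, ∀ t ∈ Icc (0 : ℝ) 1, ∀ s ∈ Icc 0 t, 0 ≤ kdN p q w t s :=
    fun w hw t ht s hs => (rPe_nn hp hw ht).trans (kdN_ge hp qP qB w hw t s hs.1 hs.2 ht.2)
  have mono : ∀ (f r : ℝ → ℝ), ContinuousOn f (Icc 0 1) → Continuous r →
      (∀ s ∈ Icc (0 : ℝ) 1, f s ≤ r s) → ∀ w ∈ Icc (0 : ℝ) 1, ∀ t ∈ Icc (0 : ℝ) 1,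
      ∀ k : ℝ → ℝ, Continuous k → (∀ s ∈ Icc 0 t, 0 ≤ k s) →
      ∫ s in (0 : ℝ)..t, f s * k s ≤ ∫ s in (0 : ℝ)..t, r s * k s := by
    intro f r hf hr hle w hw t ht k hk hk0
    have cs : ContinuousOn (fun s => f s * k s) (Icc 0 t) :=
      (hf.mono (Icc_subset_Icc_right ht.2)).mul hk.continuousOn
    refine intervalIntegral.integral_mono_on ht.1 ?_ ((hr.mul hk).intervalIntegrable _ _)
      fun s hs => mul_le_mul_of_nonneg_right (hle s ⟨hs.1, hs.2.trans ht.2⟩) (hk0 s hs)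
    rw [← uIcc_of_le ht.1] at cs
    exact cs.intervalIntegrable
  exact
    { d0 := by exact_mod_cast hB.d0
      d1 := by exact_mod_cast hB.d1
      ab :=
        { fi := fun w hw y hy t ht => by
            show p.d.rPe w t * (p.d.dt.kf (pv p.d.be0) (pv p.d.be1) p.d.rPe p.d.rP).fi y t
              + ∫ s in (0 : ℝ)..t,
                (p.d.dt.kf (pv p.d.be0) (pv p.d.be1) p.d.rPe p.d.rP).fh y s
                  * (kdN p q w t s - p.d.rPe w t) ≤ g.A w t
            have hT : 0 < 1 + t := by linarith [ht.1]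
            have i1 := mono _ _ (fhk_cont y) (g.Qy_cont y) (hfQ y hy) w hw t ht
              (fun s => kdN p q w t s - p.d.rPe w t) ((ck w t).sub continuous_const)
              (fun s hs => by
                have := kdN_ge hp qP qB w hw t s hs.1 hs.2 ht.2
                linarith)
            have i2 : ∫ s in (0 : ℝ)..t, g.Qy y s * (kdN p q w t s - p.d.rPe w t)
                = (∫ s in (0 : ℝ)..t, g.Qy y s * kdN p q w t s)
                  - p.d.rPe w t * ∫ s in (0 : ℝ)..t, g.Qy y s := by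
              rw [← intervalIntegral.integral_const_mul, ← intervalIntegral.integral_sub]
              · refine intervalIntegral.integral_congr fun s _ => ?_
                ring
              · exact ((g.Qy_cont y).mul (ck w t)).intervalIntegrable _ _
              · exact (continuous_const.mul (g.Qy_cont y)).intervalIntegrable _ _
            have i3 : (p.d.dt.kf (pv p.d.be0) (pv p.d.be1) p.d.rPe p.d.rP).fi y t
                ≤ ∫ s in (0 : ℝ)..t, g.Qy y s := by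
              have e1 : (1 + t) * (p.d.dt.kf (pv p.d.be0) (pv p.d.be1) p.d.rPe p.d.rP).fi y t
                  = p.d.rez y (eta y) t := Dt.fi_eq ht
              refine le_of_mul_le_mul_left ?_ hT
              rw [e1, GDatN.int_Qy]
              exact hg.F y hy ht
            have i4 := mul_le_mul_of_nonneg_left i3 (rPe_nn hp hw ht)
            have i5 := GDatN.bndQ hp qP qB hg hy hw ht
            linarith
          fh := fun w hw y hy t ht =>
            (mono _ _ (fhk_cont y) (g.Qy_cont y) (hfQ y hy) w hw t ht _ (ck w t)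
              (k0 w hw t ht)).trans (GDatN.bndQ hp qP qB hg hy hw ht)
          qq := fun w hw t ht =>
            (mono _ _ qq_cont (continuous_pv g.Qd) (fun s hs => hg.qQ hs) w hw t ht _ (ck w t)
              (k0 w hw t ht)).trans (GDatN.bndd hp qP qB hg hw ht) }
      hA := fun w _ t _ => le_rfl
      a0 := fun t ht => by
        have h1 := GDatN.bndd hp qP qB hg (w := 0) ⟨le_rfl, zero_le_one⟩ ht
        have h2 : 0 ≤ ∫ s in (0 : ℝ)..t, pv g.Qd s * kdN p q 0 t s :=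
          intervalIntegral.integral_nonneg ht.1 fun s hs =>
            mul_nonneg (GDatN.Qd_nn hg ⟨hs.1, hs.2.trans ht.2⟩)
              (k0 0 ⟨le_rfl, zero_le_one⟩ t ht s hs)
        have h3 := h2.trans h1
        unfold GDatN.A at h3
        rw [zero_mul, add_zero, mul_one] at h3
        exact h3
      hγ := fun t ht => by
        have a := hg.g0.t ht
        have b := hg.g1.t ht
        simp only [GDatN.eg0, val_pe, val_vT] at a
        simp only [GDatN.eg1, val_sub, val_one, val_pe, val_vT] at b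
        exact ⟨a, by unfold GDatN.γ; linarith⟩
      le := fun t ht => by
        have e : (((1 / 3 : ℚ)) : ℝ) = 1 / 3 := by norm_num
        have h2 := hg.Ad.t ht
        simp only [GDatN.eAd, val_sub, val_mul, val_add, val_one, val_qc, val_pe, val_vT, e] at h2
        unfold GDatN.α GDatN.γ
        linarith }

end Pool.Agent.RZ.RCO
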