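import Pool.Agent.RZ.RCM9.CertP
import Pool.Agent.RZ.RCO.DnT
import Pool.Agent.RZ.RCO.GapN

/-! Generated: the data of the density errors and of the gap, with the box certificates. -/

set_option autoImplicit false

namespace Pool.Agent.RZ.RCO.DatX

open Pool.Agent.RZ.RCM9 Pool.Agent.RZ.RCM9.Bern Pool.Agent.RZ.RCM9.Pk Pool.Agent.RZ.RCE Pool.Agent.RZ.RCO
open Pool.Agent.RZ.RCM9.CertP

def q : TDt5 where
  t2 := 1
  τ := 1/2
  th := 0
  y0 := 31/200
  ρ0 := 10817/10000
  mb := [50647/50000, (-96753/125000), 2010127/125000, (-2163308/15625), 57564899/100000, (-3863006/3125), 178850119/125000, (-106320767/125000), 204173651/1000000]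
  bq := [1000091/1000000, 98415677/25000000, (-4925233493/100000000), 11820601571/50000000, (-59793624173/100000000), 8697203371/10000000, (-14692768593/20000000), 8407198019/25000000, (-647089193/10000000), 0]
  q1 := [11607/50000000, 1178379/100000000, 10554449/50000000, 3173469/50000000, (-499793/1562500), 78932021/100000000, (-912239/1250000), 83955141/100000000, (-9654109/25000000), 0]
  q2 := [497/5000000, 205121/25000000, 1432609/6250000, (-4850043/50000000), 2804463/6250000, (-60034729/50000000), 56414571/25000000, (-78201577/50000000), 592297/1250000, 0]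
  q3 := [23239/100000000, 282097/100000000, 13544409/50000000, (-100003341/100000000), 110037241/25000000, (-1112276619/100000000), 1608880353/100000000, (-624602451/50000000), 203284311/50000000, 0]
  q4 := [998091/10000000, 0, 11867/500000, 239873/1000000, 0, 0, 0, 0, 0, 0, 0, 0, 417/8000]
  ap := [3627/10000000, 109/20000, 2099753/5000000, (-15824251/10000000), 8064837/2000000, (-12791591/10000000), (-59850903/5000000), 116350509/5000000, (-170630303/10000000), 45610591/10000000, 0]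
  ap2 := [0]
  cp := [3357/10000000, (-10469/5000000), 1071007/2500000, (-899937/400000), 3910053/500000, (-13176377/1000000), 8343881/1000000, 40021413/10000000, (-41476287/5000000), 1322289/400000, 0]
  cp2 := [0]
  bp := [1088277/10000000, 554719/5000000, (-3281987/2000000), 12778491/2000000, (-99728007/10000000), 71112541/10000000, (-8825977/5000000), 0]
  ep := [1207/10000000, 51899/2500000, (-1722461/10000000), 49085807/10000000, (-60907159/2000000), 1017243887/10000000, (-1880769973/10000000), 979350747/5000000, (-267052297/2500000), 239787187/10000000, 0]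
  ep2 := [0]
  kA := [50001217/50000000, 3121/10000000, (-44739/100000000), 108513/800000, (-6441009/12500000), 34463507/25000000, (-86957201/50000000), 24390107/50000000, 58361481/50000000, (-127762969/100000000), 4128983/10000000, 0]
  kq := [500033/500000, 16179/100000000, 341929/25000000, (-8138117/50000000), 32392773/25000000, (-613509283/100000000), 1695705727/100000000, (-1363054443/50000000), 1267049839/50000000, (-12498183/1000000), 6348471/2500000, 0]
  cl := [0, 0, 790989/100000000, 133081/3125000, 1138603/20000000, (-79973489/100000000), 183322171/50000000, (-84417609/10000000), 218321621/20000000, (-804628751/100000000), 39072417/12500000, (-11982127/25000000), 0]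

def SA : List ℚ := [115511/500000000, 716331/62500000, 27321/125000, 0, 0, 48821/1000000, 83559/250000, 0, 0, 0, 0, 0, 0, 0, 19647/500000]

def SC : List ℚ := [21857/500000000, 109283/25000000, 21857/200000, 0, 0, 6109/250000, 167083/1000000, 0, 0, 0, 0, 0, 0, 0, 9829/500000]

def SD : List ℚ := [95511/1000000000, 238777/25000000, 150137/1000000, 0, 0, 0, 0, 0, 0, 0, 0, 0, 0, 0, 82301/1000000]

def SE : List ℚ := [99809/1000000, 0, 11867/500000, 239873/1000000, 0, 0, 0, 0, 0, 0, 0, 0, 417/8000]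

def EA : List ℚ := [24994199/25000000, (-1178379/100000000), (-10554449/50000000), (-3173469/50000000), 499793/1562500, (-78932021/100000000), 912239/1250000, (-83955141/100000000), 9654109/25000000, 0]

def EC : List ℚ := [19999007/20000000, (-205121/50000000), (-1432609/12500000), 4850043/100000000, (-2804463/12500000), 60034729/100000000, (-56414571/50000000), 78201577/100000000, (-592297/2500000), 0]

def ED : List ℚ := [99976771/100000000, (-282097/100000000), (-13544409/50000000), 100003341/100000000, (-110037241/25000000), 1112276619/100000000, (-1608880353/100000000), 624602451/50000000, (-203284311/50000000), 0]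

def g : GDatN where
  Qa := [25022171/25000000, 10295151/100000000, (-855952721/100000000), 590141463/25000000, (-3334163801/100000000), 709572137/25000000, (-696979921/50000000), 299876187/100000000, 0]
  Qb := [3127901/100000000, 15518049/2500000, (-1141766543/50000000), 4402057993/100000000, (-2726033709/50000000), 2212328921/50000000, (-2126020827/100000000), 14130067/3125000, 0]
  Qc := [3080351/100000000, 64463613/12500000, (-1707590729/100000000), 189788553/6250000, (-3596477701/100000000), 1432847427/50000000, (-682429663/50000000), 288912811/100000000, 0]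
  Qd := [500001/500000, (-199837921/100000000), 474741/160000, (-186566741/50000000), 47804289/12500000, (-285239553/100000000), 131244733/100000000, (-27181289/100000000), 0]
  im := [1/1000000, 12513121/12500000, 2472391/50000000, (-2832357/1000000), 14534751/2500000, (-323754651/50000000), 7029461/1562500, (-7379711/4000000), 16945691/50000000, 0]
  im2 := [1/1000000, 471527/100000000, (-673607/5000000), 34945021/20000000, (-42871849/6250000), 773387931/50000000, (-47158269/2500000), 292607137/25000000, (-144918651/50000000), 0]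
  al := [1/500000, 1251647/1250000, 4544501/100000000, (-276829059/100000000), 70813937/12500000, (-76647491/12500000), 41936097/10000000, (-85912613/50000000), 6742311/25000000, 2543013/50000000, 0]
  ga := [0, 99999/100000, 0, 0, 0, 0, 0, 0, 0, 0, 0, 0, 0]
  dl := 1/100

theorem n_T_mb : N4 (pe q.mb wT - 1) :=
  N4.of (K := 139) (D := ⟨1, 1, 1, 9⟩) (Box.of 20104264955611 (by decide +kernel)) (by decide +kernel)

theorem n_T_bq : N4 (pe q.bq wT) :=
  N4.of (K := 63) (D := ⟨1, 1, 1, 10⟩) (Box.of 4 (by decide +kernel)) (by decide +kernel)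

theorem n_T_h1A : N4 (pe q.ap q.tO - pe q.bq q.tO * pe q.q1 q.tO) :=
  N4.of (K := 178) (D := ⟨1, 1, 1, 19⟩) (Box.of 18715 (by decide +kernel)) (by decide +kernel)

theorem n_T_h1B : N4 (TDt5.dE q.ap q.ap2 q.tB q.kB - pe q.bq q.tB * pe q.q1 q.tB) :=
  N4.of (K := 165) (D := ⟨1, 1, 1, 19⟩) (Box.of 291 (by decide +kernel)) (by decide +kernel)

theorem n_T_h2A : N4 (pe q.ep q.tO - pe q.mb q.tO * pe q.q2 q.tO) :=
  N4.of (K := 167) (D := ⟨1, 1, 1, 18⟩) (Box.of 18715 (by decide +kernel)) (by decide +kernel)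

theorem n_T_h2B : N4 (TDt5.dE q.ep q.ep2 q.tB q.kB - pe q.mb q.tB * pe q.q2 q.tB) :=
  N4.of (K := 190) (D := ⟨1, 1, 1, 18⟩) (Box.of 18659 (by decide +kernel)) (by decide +kernel)

theorem n_T_h3A : N4 (pe q.cp q.tO - pe q.bq q.tO * pe q.q3 q.tO) :=
  N4.of (K := 146) (D := ⟨1, 1, 1, 19⟩) (Box.of 291 (by decide +kernel)) (by decide +kernel)

theorem n_T_h3B : N4 (TDt5.dE q.cp q.cp2 q.tB q.kB - pe q.bq q.tB * pe q.q3 q.tB) :=
  N4.of (K := 169) (D := ⟨1, 1, 1, 19⟩) (Box.of 291 (by decide +kernel)) (by decide +kernel)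

theorem n_T_h4 : N4 (pe q.bp q.tT - pe q.bq q.tT * pe q.q4 q.tT) :=
  N4.of (K := 258) (D := ⟨1, 1, 1, 22⟩) (Box.of 313070339803 (by decide +kernel)) (by decide +kernel)

theorem n_T_a0O : N4 (pe q.ap q.tO) :=
  N4.of (K := 58) (D := ⟨1, 1, 1, 11⟩) (Box.of 4 (by decide +kernel)) (by decide +kernel)

theorem n_T_a0D : N4 (TDt5.dE q.ap q.ap2 q.tD q.kD) :=
  N4.of (K := 73) (D := ⟨1, 1, 1, 11⟩) (Box.of 4 (by decide +kernel)) (by decide +kernel)

theorem n_T_c0O : N4 (pe q.cp q.tO) :=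
  N4.of (K := 59) (D := ⟨1, 1, 1, 11⟩) (Box.of 4 (by decide +kernel)) (by decide +kernel)

theorem n_T_c0D : N4 (TDt5.dE q.cp q.cp2 q.tD q.kD) :=
  N4.of (K := 72) (D := ⟨1, 1, 1, 11⟩) (Box.of 4 (by decide +kernel)) (by decide +kernel)

theorem n_T_e0O : N4 (pe q.ep q.tO) :=
  N4.of (K := 62) (D := ⟨1, 1, 1, 11⟩) (Box.of 4 (by decide +kernel)) (by decide +kernel)

theorem n_T_e0D : N4 (TDt5.dE q.ep q.ep2 q.tD q.kD) :=
  N4.of (K := 76) (D := ⟨1, 1, 1, 11⟩) (Box.of 4 (by decide +kernel)) (by decide +kernel)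

theorem n_T_b0 : N4 (pe q.bp wT) :=
  N4.of (K := 51) (D := ⟨1, 1, 1, 8⟩) (Box.of 4 (by decide +kernel)) (by decide +kernel)

theorem n_T_acO : N4 (TDt5.pE q.ap q.ap2 q.tO (qc 0) - TDt5.pE q.cp q.cp2 q.tO (qc 0)) :=
  N4.of (K := 65) (D := ⟨1, 1, 1, 12⟩) (Box.of 4 (by decide +kernel)) (by decide +kernel)

theorem n_T_acD : N4 (TDt5.pE q.ap q.ap2 q.tD q.kD - TDt5.pE q.cp q.cp2 q.tD q.kD) :=
  N4.of (K := 80) (D := ⟨1, 1, 1, 12⟩) (Box.of 4 (by decide +kernel)) (by decide +kernel)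

theorem n_T_kAO : N4 (q.eA q.tO (qc 0)) :=
  N4.of (K := 270) (D := ⟨1, 1, 1, 56⟩) (Box.of 4 (by decide +kernel)) (by decide +kernel)

theorem n_T_kAD : N4 (q.eA q.tD q.kD) :=
  N4.of (K := 316) (D := ⟨1, 1, 1, 56⟩) (Box.of 4 (by decide +kernel)) (by decide +kernel)

theorem n_T_kqO : N4 (q.eQ q.tO (qc 0)) :=
  N4.of (K := 307) (D := ⟨1, 1, 1, 56⟩) (Box.of 4 (by decide +kernel)) (by decide +kernel)

theorem n_T_kqD : N4 (q.eQ q.tD q.kD) :=
  N4.of (K := 373) (D := ⟨1, 1, 1, 56⟩) (Box.of 4 (by decide +kernel)) (by decide +kernel)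

theorem n_T_clO : N4 (q.eL q.tO (qc 0)) :=
  N4.of (K := 113) (D := ⟨1, 1, 1, 13⟩) (Box.of 18715 (by decide +kernel)) (by decide +kernel)

theorem n_T_clD : N4 (q.eL q.tD q.kD) :=
  N4.of (K := 81) (D := ⟨1, 1, 1, 13⟩) (Box.of 4 (by decide +kernel)) (by decide +kernel)

theorem n_T_cl0 : N4 (pe q.cl wT) :=
  N4.of (K := 60) (D := ⟨1, 1, 1, 13⟩) (Box.of 4 (by decide +kernel)) (by decide +kernel)

theorem n_B_one : N4 ((1 + wT) * pe q.bq wT - 1) :=
  N4.of (K := 85) (D := ⟨1, 1, 1, 11⟩) (Box.of 291 (by decide +kernel)) (by decide +kernel)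

theorem n_B_v0 : N4 ((1 + wT) * pe q.bq wT - pe p.d.be0 wT) :=
  N4.of (K := 187) (D := ⟨1, 1, 1, 11⟩) (Box.of 314143815899 (by decide +kernel)) (by decide +kernel)

theorem n_B_v1 : N4 ((1 + wT) * pe q.bq wT - 1 - (pe p.d.be0 wT - 1) * E.num 1 2 - pe p.d.be1 wT * E.num 1 2) :=
  N4.of (K := 126) (D := ⟨1, 1, 1, 11⟩) (Box.of 4891494171 (by decide +kernel)) (by decide +kernel)

theorem n_B_v2 : N4 ((1 + wT) * pe q.bq wT - 1 - pe p.d.be1 wT * E.num 1 2) :=
  N4.of (K := 106) (D := ⟨1, 1, 1, 11⟩) (Box.of 18659 (by decide +kernel)) (by decide +kernel)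

theorem n_L_A0 : N4 (pe SA (tS q)) :=
  N4.of (K := 59) (D := ⟨1, 1, 1, 15⟩) (Box.of 4 (by decide +kernel)) (by decide +kernel)

theorem n_L_C0 : N4 (pe SC (tS q)) :=
  N4.of (K := 58) (D := ⟨1, 1, 1, 15⟩) (Box.of 4 (by decide +kernel)) (by decide +kernel)

theorem n_L_D0 : N4 (pe SD (tS q)) :=
  N4.of (K := 58) (D := ⟨1, 1, 1, 15⟩) (Box.of 4 (by decide +kernel)) (by decide +kernel)

theorem n_L_S0 : N4 (pe SE (tS q)) :=
  N4.of (K := 46) (D := ⟨1, 1, 1, 13⟩) (Box.of 4 (by decide +kernel)) (by decide +kernel)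

theorem n_L_A1 : N4 (L5 (pe SA (tS q)) - pe EA (tS q)) :=
  N4.of (K := 252) (D := ⟨1, 1, 1, 71⟩) (Box.of 4 (by decide +kernel)) (by decide +kernel)

theorem n_L_C1 : N4 (L5 (pe SC (tS q)) - pe EC (tS q)) :=
  N4.of (K := 252) (D := ⟨1, 1, 1, 71⟩) (Box.of 4 (by decide +kernel)) (by decide +kernel)

theorem n_L_D1 : N4 (L5 (pe SD (tS q)) - pe ED (tS q)) :=
  N4.of (K := 629) (D := ⟨1, 1, 1, 71⟩) (Box.of 1198299 (by decide +kernel)) (by decide +kernel)

theorem n_L_q1 : N4 (pe q.q1 (tS q) - (1 - pe EA (tS q))) :=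
  N4.of (K := 55) (D := ⟨1, 1, 1, 10⟩) (Box.of 4 (by decide +kernel)) (by decide +kernel)

theorem n_L_q2 : N4 (pe q.q2 (tS q) - 2 * (1 - pe EC (tS q))) :=
  N4.of (K := 55) (D := ⟨1, 1, 1, 10⟩) (Box.of 4 (by decide +kernel)) (by decide +kernel)

theorem n_L_q3 : N4 (pe q.q3 (tS q) - (1 - pe ED (tS q))) :=
  N4.of (K := 58) (D := ⟨1, 1, 1, 10⟩) (Box.of 4 (by decide +kernel)) (by decide +kernel)

theorem n_L_q4 : N4 (pe q.q4 (tS q) - pe SE (tS q)) :=
  N4.of (K := 51) (D := ⟨1, 1, 1, 13⟩) (Box.of 4 (by decide +kernel)) (by decide +kernel)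

theorem n_G_Qa : NN (g.eQa p.d) :=
  NN.of (K := 163) (D := ⟨1, 1, 1, 11⟩) (Box.of 1380964270131463180109531 (by decide +kernel)) (by decide +kernel)

theorem n_G_Qb : NN (g.eQb p.d) :=
  NN.of (K := 184) (D := ⟨1, 1, 1, 11⟩) (Box.of 88381713288413643528849115 (by decide +kernel)) (by decide +kernel)

theorem n_G_Qc : NN (g.eQc p.d) :=
  NN.of (K := 184) (D := ⟨1, 1, 1, 11⟩) (Box.of 88381713288413643528849115 (by decide +kernel)) (by decide +kernel)

theorem n_G_Qd : NN g.eQd :=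
  NN.of (K := 120) (D := ⟨1, 1, 1, 11⟩) (Box.of 4891494619 (by decide +kernel)) (by decide +kernel)

theorem n_G_Ia : NN (g.eI q g.Qa) :=
  NN.of (K := 163) (D := ⟨1, 1, 1, 21⟩) (Box.of 291 (by decide +kernel)) (by decide +kernel)

theorem n_G_Ib : NN (g.eI q g.Qb) :=
  NN.of (K := 126) (D := ⟨1, 1, 1, 21⟩) (Box.of 4 (by decide +kernel)) (by decide +kernel)

theorem n_G_Ic : NN (g.eI q g.Qc) :=
  NN.of (K := 117) (D := ⟨1, 1, 1, 21⟩) (Box.of 4 (by decide +kernel)) (by decide +kernel)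

theorem n_G_Iq : NN (g.eI q g.Qd) :=
  NN.of (K := 123) (D := ⟨1, 1, 1, 21⟩) (Box.of 4 (by decide +kernel)) (by decide +kernel)

theorem n_G_Ja : NN (g.eJ q g.Qa) :=
  NN.of (K := 340) (D := ⟨1, 1, 1, 23⟩) (Box.of 20104262862555 (by decide +kernel)) (by decide +kernel)

theorem n_G_Jb : NN (g.eJ q g.Qb) :=
  NN.of (K := 298) (D := ⟨1, 1, 1, 23⟩) (Box.of 4891752163 (by decide +kernel)) (by decide +kernel)

theorem n_G_Jc : NN (g.eJ q g.Qc) :=
  NN.of (K := 174) (D := ⟨1, 1, 1, 23⟩) (Box.of 291 (by decide +kernel)) (by decide +kernel)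

theorem n_G_Jq : NN (g.eJ q g.Qd) :=
  NN.of (K := 213) (D := ⟨1, 1, 1, 23⟩) (Box.of 18715 (by decide +kernel)) (by decide +kernel)

theorem n_G_Fl : NN (g.eFl p.d) :=
  NN.of (K := 73) (D := ⟨2, 1, 1, 11⟩) (Box.of 4 (by decide +kernel)) (by decide +kernel)

theorem n_G_Fh : NN (g.eFh p.d) :=
  NN.of (K := 74) (D := ⟨2, 1, 1, 11⟩) (Box.of 4 (by decide +kernel)) (by decide +kernel)

theorem n_G_A : NN (g.eA p.d q) :=
  NN.of (K := 359) (D := ⟨4, 1, 1, 55⟩) (Box.of 291 (by decide +kernel)) (by decide +kernel)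

theorem n_G_Ad : NN g.eAd :=
  NN.of (K := 90) (D := ⟨1, 1, 1, 23⟩) (Box.of 4 (by decide +kernel)) (by decide +kernel)

theorem n_G_g0 : NN g.eg0 :=
  NN.of (K := 44) (D := ⟨1, 1, 1, 13⟩) (Box.of 4 (by decide +kernel)) (by decide +kernel)

theorem n_G_g1 : NN g.eg1 :=
  NN.of (K := 45) (D := ⟨1, 1, 1, 13⟩) (Box.of 4 (by decide +kernel)) (by decide +kernel)

theorem n_G_bl : NN (GDatN.ebl p.d) :=
  NN.of (K := 47) (D := ⟨2, 1, 1, 5⟩) (Box.of 4 (by decide +kernel)) (by decide +kernel)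

theorem n_G_bh : NN (GDatN.ebh p.d) :=
  NN.of (K := 47) (D := ⟨2, 1, 1, 5⟩) (Box.of 4 (by decide +kernel)) (by decide +kernel)

theorem pos : q.Pos :=
  ⟨n_T_mb, n_T_bq, n_T_h1A, n_T_h1B, Or.inl rfl, n_T_h2A, n_T_h2B, Or.inl rfl, n_T_h3A, n_T_h3B, Or.inl rfl, n_T_h4, n_T_a0O, n_T_a0D, n_T_c0O, n_T_c0D, n_T_e0O, n_T_e0D, n_T_b0, n_T_acO, n_T_acD, n_T_kAO, n_T_kAD, n_T_kqO, n_T_kqD, n_T_clO, n_T_clD, n_T_cl0⟩

theorem bd : q.Bd := by
  constructor <;> decide +kernel

theorem bp : BP5 p.d.be0 p.d.be1 q.bq :=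
  ⟨n_B_one, n_B_v0, n_B_v1, n_B_v2⟩

theorem dnn : DnN p q where
  M := CertN.posL
  qP := pos
  qB := bd
  bq := bp
  mb := rfl

theorem ltn : LtN q SA SC SD SE EA EC ED :=
  ⟨n_L_A0, n_L_C0, n_L_D0, n_L_S0, n_L_A1, n_L_C1, n_L_D1, n_L_q1, n_L_q2, n_L_q3, n_L_q4⟩

theorem gpos : g.Pos p.d q :=
  ⟨n_G_Qa, n_G_Qb, n_G_Qc, n_G_Qd, n_G_Ia, n_G_Ib, n_G_Ic, n_G_Iq, n_G_Ja, n_G_Jb, n_G_Jc, n_G_Jq, n_G_Fl, n_G_Fh, n_G_A, n_G_Ad, n_G_g0, n_G_g1, n_G_bl, n_G_bh⟩

theorem gbd : g.Bd := by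
  constructor <;> decide +kernel

end Pool.Agent.RZ.RCO.DatX
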