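import Pool.Agent.RZ.RCM.Zero

/-! Route P: level 0 of a cell with vertex dependent functions, for all times of the cell
(MP_73ccd0_lc). -/

namespace Pool.Agent.RZ.RCO

open Set Finset MeasureTheory Pool.Agent.RZ.RCRSHalf Pool.Agent.RZ.RCG Pool.Agent.RZ.RCM

set_option linter.unusedSectionVars false

variable {V : Type*} [Fintype V] [DecidableEq V]

/-- the exponent of the boost: `ζ w` majorises the increments of `H w` for the removed `w` -/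
noncomputable def yv (D : Finset V) (ζ : V → V → ℝ → ℝ) (Y : V → ℝ → ℝ) (e : V)
    (r : ℝ) : ℝ := ∑ w ∈ D, ζ w e r + Y e r

/-- the conditions of level 0 of a cell with the horizon `τ`, vertex dependent functions -/
structure L0v (hb : ℝ → V → V → ℝ) (D : Finset V) (τ : ℝ)
    (ζ : V → V → ℝ → ℝ) (Y Y' N N' : V → ℝ → ℝ) : Prop where
  b0 : ∀ u v, ∀ r ∈ Icc 0 τ, 0 ≤ hb r u v
  ζ0 : ∀ w ∈ D, ∀ e, ∀ r ∈ Icc 0 τ, 0 ≤ ζ w e r
  dY : ∀ e ∈ Dᶜ, ∀ r ∈ Icc 0 τ, HasDerivAt (Y e) (Y' e r) r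
  dN : ∀ e ∈ Dᶜ, ∀ r ∈ Icc 0 τ, HasDerivAt (N e) (N' e r) r
  Y0 : ∀ e, ∀ r ∈ Icc 0 τ, 0 ≤ Y e r
  N0 : ∀ e, ∀ r ∈ Icc 0 τ, 0 ≤ N e r
  N1 : ∀ e, ∀ r ∈ Icc 0 τ, N e r ≤ 1
  oY : ∀ e ∈ Dᶜ, ∀ r ∈ Icc 0 τ, ∑ f ∈ Dᶜ, hb r e f * N f r ≤ -Y' e r
  oN : ∀ e ∈ Dᶜ, ∀ r ∈ Icc 0 τ,
    ∑ f ∈ Dᶜ, hb r e f * (Real.exp (yv D ζ Y f r) - 1) ≤ -N' e r

variable {hb : ℝ → V → V → ℝ} {D : Finset V} {τ : ℝ} {ζ : V → V → ℝ → ℝ}
  {Y Y' N N' : V → ℝ → ℝ}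

variable {h : ℝ → V → V → ℝ} {H : V → V → ℝ → ℝ}

/-- one phase of the world: `A` is removed with the horizons `ρ w` -/
theorem L0v.phase (hL : L0v hb D τ ζ Y Y' N N') (hh : Haz h H) {s : ℝ}
    (hsτ : s ≤ τ) (hle : ∀ u v, ∀ r ∈ Icc 0 s, h r u v ≤ hb r u v) {A : Finset V} (hAD : A ⊆ D)
    {ρ : V → ℝ} (hsρ : ∀ w ∈ A, s ≤ ρ w)
    (hζ : ∀ w ∈ A, ∀ e, ∀ r ∈ Icc 0 s, H w e (ρ w) - H w e r ≤ ζ w e r) :
    ∃ P P' : V → ℝ → ℝ,
      L0 h (fun r v => ∑ w ∈ A, h r w v) Dᶜ s P P' N N' ∧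
      (∀ e, ∀ r ∈ Icc 0 s, P e r = Real.exp (∑ w ∈ A, (H w e (ρ w) - H w e r)
        + Y e r) - 1) ∧
      (∀ e, ∀ r ∈ Icc 0 s, 0 ≤ P e r ∧ P e r ≤ Real.exp (yv D ζ Y e r) - 1) := by
  have m : ∀ r ∈ Icc 0 s, r ∈ Icc 0 τ := fun r hr => ⟨hr.1, hr.2.trans hsτ⟩
  set E : V → ℝ → ℝ := fun e r => ∑ w ∈ A, (H w e (ρ w) - H w e r) + Y e r with hE
  have E0 : ∀ e, ∀ r ∈ Icc 0 s, 0 ≤ E e r := fun e r hr =>
    add_nonneg (Finset.sum_nonneg fun w hw => by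
      linarith [hh.Hmono w e (hr.2.trans (hsρ w hw))]) (hL.Y0 e r (m r hr))
  have El : ∀ e, ∀ r ∈ Icc 0 s, E e r ≤ yv D ζ Y e r := fun e r hr => by
    refine add_le_add ?_ le_rfl
    refine (Finset.sum_le_sum fun w hw => hζ w hw e r hr).trans ?_
    exact Finset.sum_le_sum_of_subset_of_nonneg hAD fun w hw _ => hL.ζ0 w hw e r (m r hr)
  have dE : ∀ e ∈ Dᶜ, ∀ r ∈ Icc 0 s, HasDerivAt (E e) (∑ w ∈ A, (0 - h r w e)
      + Y' e r) r := fun e he r hr =>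
    (HasDerivAt.fun_sum fun w _ => (hasDerivAt_const _ _).sub (hh.Hd w e r)).add
      (hL.dY e he r (m r hr))
  have P0 : ∀ e, ∀ r ∈ Icc 0 s, 0 ≤ Real.exp (E e r) - 1 := fun e r hr => by
    have := Real.one_le_exp (E0 e r hr); linarith
  have Pl : ∀ e, ∀ r ∈ Icc 0 s, Real.exp (E e r) - 1 ≤ Real.exp (yv D ζ Y e r) - 1 :=
    fun e r hr => by have := Real.exp_le_exp.2 (El e r hr); linarith
  refine ⟨fun e r => Real.exp (E e r) - 1, fun e r => Real.exp (E e r)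
      * (∑ w ∈ A, (0 - h r w e) + Y' e r),
    ⟨fun e he r hr => ?_, fun e he r hr => hL.dN e he r (m r hr), fun e r hr => P0 e r hr,
      fun e r hr => hL.N0 e r (m r hr), fun e r hr => hL.N1 e r (m r hr),
      fun e he r hr => ?_, fun e he r hr => ?_⟩, fun e r _ => rfl,
    fun e r hr => ⟨P0 e r hr, Pl e r hr⟩⟩
  · exact (dE e he r hr).exp.sub_const 1
  · have e1 : -(Real.exp (E e r) * (∑ w ∈ A, (0 - h r w e) + Y' e r))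
        = Real.exp (E e r) * (∑ w ∈ A, h r w e + -Y' e r) := by
      simp only [zero_sub, Finset.sum_neg_distrib]
      ring
    rw [e1]
    have e2 : 1 + (Real.exp (E e r) - 1) = Real.exp (E e r) := by ring
    rw [e2]
    refine mul_le_mul_of_nonneg_left (add_le_add le_rfl ?_) (Real.exp_pos _).le
    refine le_trans ?_ (hL.oY e he r (m r hr))
    exact Finset.sum_le_sum fun f _ => mul_le_mul_of_nonneg_right (hle e f r hr)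
      (hL.N0 f r (m r hr))
  · refine le_trans (Finset.sum_le_sum fun f _ => ?_) (hL.oN e he r (m r hr))
    exact mul_le_mul (hle e f r hr) (Pl f r hr) (P0 f r hr) (hL.b0 e f r (m r hr))

end Pool.Agent.RZ.RCO
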