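import Pool.Agent.RZ.RCO.Hf3
import Pool.Agent.RZ.RCO.L0v

/-! Route P: exact level 0 of a cell with piecewise smooth bounds (MP_73ccd0_lc). -/

namespace Pool.Agent.RZ.RCO

open Set Finset MeasureTheory Pool.Agent.RZ.RCM

set_option linter.unusedSectionVars false

variable {V : Type*} [Fintype V] [DecidableEq V]

/-- the right side of level 0 -/
noncomputable def l0R (hb : ℝ → V → V → ℝ) (D : Finset V) (z : V → ℝ → ℝ) (r : ℝ)
    (u : Bool × V → ℝ) (q : Bool × V) : ℝ :=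
  if q.2 ∈ Dᶜ then
    (if q.1 then ∑ f ∈ Dᶜ, hb r q.2 f * u (false, f)
      else ∑ f ∈ Dᶜ, hb r q.2 f * (Real.exp (z f r + u (true, f)) - 1)) else 0

variable {hb : ℝ → V → V → ℝ} {D : Finset V} {τ : ℝ} {ζ : V → V → ℝ → ℝ}

theorem l0R_mono {z : V → ℝ → ℝ} {r : ℝ} (b0 : ∀ u v, 0 ≤ hb r u v) {u v : Bool × V → ℝ}
    (huv : ∀ q, u q ≤ v q) (q : Bool × V) : l0R hb D z r u q ≤ l0R hb D z r v q := by
  unfold l0R
  split_ifs
  · exact Finset.sum_le_sum fun f _ => mul_le_mul_of_nonneg_left (huv _) (b0 _ _)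
  · refine Finset.sum_le_sum fun f _ => mul_le_mul_of_nonneg_left ?_ (b0 _ _)
    have := Real.exp_le_exp.2 (add_le_add (le_refl (z f r)) (huv (true, f)))
    linarith
  · exact le_rfl

theorem l0R_nonneg {z : V → ℝ → ℝ} {r : ℝ} (b0 : ∀ u v, 0 ≤ hb r u v) (z0 : ∀ f, 0 ≤ z f r)
    {u : Bool × V → ℝ} (hu : ∀ q, 0 ≤ u q) (q : Bool × V) : 0 ≤ l0R hb D z r u q := by
  unfold l0R
  split_ifs
  · exact Finset.sum_nonneg fun f _ => mul_nonneg (b0 _ _) (hu _)
  · refine Finset.sum_nonneg fun f _ => mul_nonneg (b0 _ _) ?_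
    have := Real.one_le_exp (add_nonneg (z0 f) (hu (true, f)))
    linarith
  · exact le_rfl

theorem l0R_cont {z : V → ℝ → ℝ} (cb : ∀ u ∈ Dᶜ, ∀ v ∈ Dᶜ, ContinuousOn (fun r => hb r u v)
      (Icc 0 τ)) (cz : ∀ f, ContinuousOn (z f) (Icc 0 τ)) (q : Bool × V) :
    ContinuousOn (fun p : ℝ × (Bool × V → ℝ) => l0R hb D z p.1 p.2 q) (Icc 0 τ ×ˢ univ) := by
  have m : MapsTo (fun p : ℝ × (Bool × V → ℝ) => p.1) (Icc 0 τ ×ˢ univ) (Icc 0 τ) :=
    fun p hp => hp.1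
  have c2 : ∀ q' : Bool × V, ContinuousOn (fun p : ℝ × (Bool × V → ℝ) => p.2 q')
      (Icc 0 τ ×ˢ univ) := fun q' => ((continuous_apply q').comp continuous_snd).continuousOn
  unfold l0R
  by_cases h : q.2 ∈ Dᶜ
  · simp only [if_pos h]
    by_cases h1 : q.1 = true
    · simp only [h1, if_true]
      exact continuousOn_finsetSum _ fun f hf =>
        ((cb _ h f hf).comp continuousOn_fst m).mul (c2 _)
    · simp only [h1]
      exact continuousOn_finsetSum _ fun f hf =>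
        ((cb _ h f hf).comp continuousOn_fst m).mul ((Real.continuous_exp.comp_continuousOn
          (((cz f).comp continuousOn_fst m).add (c2 _))).sub continuousOn_const)
  · simp only [if_neg h]
    exact continuousOn_const

/-- **exact level 0 below piecewise smooth vertex dependent bounds** -/
theorem exists_L0v (S : Finset ℝ) (hτ : 0 ≤ τ)
    (b0 : ∀ u v, ∀ r ∈ Icc 0 τ, 0 ≤ hb r u v)
    (cb : ∀ u ∈ Dᶜ, ∀ v ∈ Dᶜ, ContinuousOn (fun r => hb r u v) (Icc 0 τ))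
    (ζ0 : ∀ w ∈ D, ∀ e, ∀ r ∈ Icc 0 τ, 0 ≤ ζ w e r)
    (cζ : ∀ w ∈ D, ∀ e, ContinuousOn (ζ w e) (Icc 0 τ))
    {φY φY' φN φN' : V → ℝ → ℝ}
    (cY : ∀ e ∈ Dᶜ, ContinuousOn (φY e) (Icc 0 τ)) (cN : ∀ e ∈ Dᶜ, ContinuousOn (φN e) (Icc 0 τ))
    (dY : ∀ e ∈ Dᶜ, ∀ r ∈ Icc 0 τ, r ∉ S → HasDerivAt (φY e) (φY' e r) r)
    (dN : ∀ e ∈ Dᶜ, ∀ r ∈ Icc 0 τ, r ∉ S → HasDerivAt (φN e) (φN' e r) r)
    (Y0 : ∀ e ∈ Dᶜ, ∀ r ∈ Icc 0 τ, 0 ≤ φY e r) (N0 : ∀ e ∈ Dᶜ, ∀ r ∈ Icc 0 τ, 0 ≤ φN e r)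
    (N1 : ∀ e ∈ Dᶜ, ∀ r ∈ Icc 0 τ, φN e r ≤ 1)
    (oY : ∀ e ∈ Dᶜ, ∀ r ∈ Icc 0 τ, r ∉ S → ∑ f ∈ Dᶜ, hb r e f * φN f r ≤ -φY' e r)
    (oN : ∀ e ∈ Dᶜ, ∀ r ∈ Icc 0 τ, r ∉ S →
      ∑ f ∈ Dᶜ, hb r e f * (Real.exp (yv D ζ φY f r) - 1) ≤ -φN' e r) :
    ∃ Y Y' N N' : V → ℝ → ℝ, L0v hb D τ ζ Y Y' N N' ∧
      ∀ e ∈ Dᶜ, ∀ r ∈ Icc 0 τ, Y e r ≤ φY e r ∧ N e r ≤ φN e r := by
  let z : V → ℝ → ℝ := fun f r => ∑ w ∈ D, ζ w f r
  have cz : ∀ f, ContinuousOn (z f) (Icc 0 τ) := fun f =>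
    continuousOn_finsetSum _ fun w hw => cζ w hw f
  have z0 : ∀ f, ∀ r ∈ Icc 0 τ, 0 ≤ z f r := fun f r hr =>
    Finset.sum_nonneg fun w hw => ζ0 w hw f r hr
  let φ : Bool × V → ℝ → ℝ := fun q r =>
    if q.2 ∈ Dᶜ then (if q.1 then φY q.2 r else φN q.2 r) else 0
  let φ' : Bool × V → ℝ → ℝ := fun q r =>
    if q.2 ∈ Dᶜ then (if q.1 then φY' q.2 r else φN' q.2 r) else 0
  have cφ : ∀ q, ContinuousOn (φ q) (Icc 0 τ) := by
    rintro ⟨b, e⟩
    by_cases he : e ∈ Dᶜ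
    · cases b
      · simp only [φ, if_pos he]; exact cN e he
      · simp only [φ, if_pos he, if_true]; exact cY e he
    · simp only [φ, if_neg he]; exact continuousOn_const
  have dφ : ∀ q, ∀ r ∈ Icc 0 τ, r ∉ S → HasDerivAt (φ q) (φ' q r) r := by
    rintro ⟨b, e⟩ r hr hS
    by_cases he : e ∈ Dᶜ
    · cases b
      · simp only [φ, φ', if_pos he]; exact dN e he r hr hS
      · simp only [φ, φ', if_pos he, if_true]; exact dY e he r hr hS
    · simp only [φ, φ', if_neg he]; exact hasDerivAt_const _ _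
  have φ0 : ∀ q, ∀ r ∈ Icc 0 τ, 0 ≤ φ q r := by
    rintro ⟨b, e⟩ r hr
    by_cases he : e ∈ Dᶜ
    · cases b
      · simp only [φ, if_pos he]; exact N0 e he r hr
      · simp only [φ, if_pos he, if_true]; exact Y0 e he r hr
    · simp only [φ, if_neg he]; exact le_rfl
  -- the invariant
  have inv : Inv τ (l0R hb D z) (fun r u => (True ∧ ∀ q, 0 ≤ u q) ∧ ∀ q, ∑ p, (if p = q then 1 else 0) * u p ≤ φ q r) := by
    refine inv_linS (τ := τ) S (R := l0R hb D z) (D := fun _ _ => True)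
      ⟨fun r _ => by simp, fun r _ => trivial, fun u w _ _ _ _ => trivial⟩
      (fun r hr u hu _ q => l0R_nonneg (fun a b => b0 a b r hr) (fun f => z0 f r hr) hu q)
      (A := Bool × V) (c := fun q p _ => if p = q then 1 else 0) (c' := fun _ _ _ => 0)
      (φ := φ) (φ' := φ') cφ dφ φ0 (fun _ _ => continuousOn_const)
      (fun _ _ _ _ _ => hasDerivAt_const _ _) (fun _ _ _ _ _ => le_rfl) ?_
    intro r hr hS u hu _ hb1 q
    have hb2 : ∀ p, u p ≤ φ p r := fun p => by simpa using hb1 p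
    have e1 : ∑ p, (if p = q then 1 else 0) * l0R hb D z r u p = l0R hb D z r u q := by simp
    rw [e1]
    obtain ⟨b, e⟩ := q
    by_cases he : e ∈ Dᶜ
    · cases b
      · have h1 := oN e he r hr hS
        simp only [l0R, φ', if_pos he]
        refine le_trans (Finset.sum_le_sum fun f hf => mul_le_mul_of_nonneg_left ?_ (b0 _ _ r hr)) h1
        have h2 := hb2 (true, f)
        simp only [φ, if_pos hf, if_true] at h2
        have := Real.exp_le_exp.2 (add_le_add (le_refl (z f r)) h2)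
        show Real.exp (z f r + u (true, f)) - 1 ≤ Real.exp (z f r + φY f r) - 1
        linarith
      · have h1 := oY e he r hr hS
        simp only [l0R, φ', if_pos he, if_true]
        refine le_trans (Finset.sum_le_sum fun f hf => mul_le_mul_of_nonneg_left ?_ (b0 _ _ r hr)) h1
        have h2 := hb2 (false, f)
        simpa only [φ, if_pos hf, Bool.false_eq_true, if_false] using h2
    · simp only [l0R, φ', if_neg he, neg_zero, le_refl]
  obtain ⟨M, hM⟩ : ∃ M, ∀ q, ∀ r ∈ Icc 0 τ, φ q r ≤ M := by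
    have h1 : ∀ q, ∃ B, ∀ r ∈ Icc 0 τ, ‖φ q r‖ ≤ B := fun q =>
      isCompact_Icc.exists_bound_of_continuousOn (cφ q)
    choose B hB using h1
    refine ⟨∑ q, |B q|, fun q r hr => ?_⟩
    have h2 := (le_abs_self _).trans ((hB q r hr).trans (le_abs_self _))
    exact h2.trans (Finset.single_le_sum (f := fun q => |B q|) (fun q _ => abs_nonneg _)
      (Finset.mem_univ q))
  obtain ⟨g, gd, ge, g0, gC⟩ := exists_pic hτ (R := l0R hb D z)
    (fun q => l0R_cont cb cz q)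
    (fun r hr u v _ huv q => l0R_mono (fun a b => b0 a b r hr) huv q)
    (fun r hr q => l0R_nonneg (fun a b => b0 a b r hr) (fun f => z0 f r hr) (fun _ => le_rfl) q)
    inv (M := M) (fun r hr u hu q => by
      have := hu.2 q
      simp only [ite_mul, one_mul, zero_mul, Finset.sum_ite_eq', Finset.mem_univ, if_true] at this
      exact this.trans (hM q r hr))
  have gb : ∀ q, ∀ r ∈ Icc 0 τ, g q r ≤ φ q r := fun q r hr => by
    have := (gC _ inv r hr).2 q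
    simpa using this
  refine ⟨fun e => g (true, e), fun e r => -∑ f ∈ Dᶜ, hb r e f * g (false, f) r,
    fun e => g (false, e), fun e r => -∑ f ∈ Dᶜ, hb r e f * (Real.exp (z f r + g (true, f) r) - 1),
    ⟨b0, ζ0, fun e he r hr => ?_, fun e he r hr => ?_, fun e r hr => g0 _ r hr,
      fun e r hr => g0 _ r hr, fun e r hr => ?_, fun e he r hr => ?_, fun e he r hr => ?_⟩,
    fun e he r hr => ⟨?_, ?_⟩⟩
  · have := gd (true, e) r hr
    simpa only [l0R, if_pos he, if_true] using this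
  · have := gd (false, e) r hr
    simpa only [l0R, if_pos he, Bool.false_eq_true, if_false] using this
  · have h1 := gb (false, e) r hr
    by_cases he : e ∈ Dᶜ
    · simp only [φ, if_pos he, Bool.false_eq_true, if_false] at h1
      exact h1.trans (N1 e he r hr)
    · simp only [φ, if_neg he] at h1
      linarith
  · rw [neg_neg]
  · rw [neg_neg]
    exact le_rfl
  · have h1 := gb (true, e) r hr
    simpa only [φ, if_pos he, if_true] using h1
  · have h1 := gb (false, e) r hr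
    simpa only [φ, if_pos he, Bool.false_eq_true, if_false] using h1

end Pool.Agent.RZ.RCO
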