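import Pool.Agent.RZ.RCM.Pic

/-! Invariance of families of linear bounds under the Picard step (MP_73ccd0_lc, route M). -/

namespace Pool.Agent.RZ.RCO

open Set Finset Pool.Agent.RZ.RCM

set_option linter.unusedSectionVars false

variable {ι : Type*} [Fintype ι]

theorem back_le_in {a b : ℝ} {f g f' g' : ℝ → ℝ} (cf : ContinuousOn f (Icc a b))
    (cg : ContinuousOn g (Icc a b)) (hf : ∀ r ∈ Ioo a b, HasDerivAt f (f' r) r)
    (hg : ∀ r ∈ Ioo a b, HasDerivAt g (g' r) r) (h : ∀ r ∈ Ioo a b, g' r ≤ f' r)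
    (he : f b ≤ g b) : ∀ r ∈ Icc a b, f r ≤ g r := by
  intro r hr
  have hd : ∀ z ∈ Ioo a b, HasDerivAt (fun z => g z - f z) (g' z - f' z) z := fun z hz =>
    (hg z hz).sub (hf z hz)
  have anti : AntitoneOn (fun z => g z - f z) (Icc a b) := by
    refine antitoneOn_of_deriv_nonpos (convex_Icc a b) (cg.sub cf) (fun z hz => ?_) fun z hz => ?_
    · rw [interior_Icc] at hz
      exact (hd z hz).differentiableAt.differentiableWithinAt
    · rw [interior_Icc] at hz
      rw [(hd z hz).deriv]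
      linarith [h z hz]
  have := anti hr ⟨hr.1.trans hr.2, le_rfl⟩ hr.2
  simp only at this
  linarith

/-- nonnegativity is invariant -/
theorem inv_nonneg {τ : ℝ} {R : ℝ → (ι → ℝ) → ι → ℝ} {D : ℝ → (ι → ℝ) → Prop}
    (hD : Inv τ R D)
    (R0 : ∀ r ∈ Icc 0 τ, ∀ u : ι → ℝ, (∀ i, 0 ≤ u i) → D r u → ∀ i, 0 ≤ R r u i) :
    Inv τ R (fun r u => D r u ∧ ∀ i, 0 ≤ u i) := by
  refine hD.and (fun r _ => ?_) (fun r _ i => le_rfl) fun u w hp hc _ r hr i => ?_
  · have : {u : ι → ℝ | ∀ i, 0 ≤ u i} = ⋂ i, {u | 0 ≤ u i} := by ext; simp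
    rw [this]
    exact isClosed_iInter fun i => isClosed_le continuous_const (continuous_apply i)
  · have h0 : ∀ z ∈ Icc 0 τ, HasDerivAt (fun _ : ℝ => (0 : ℝ)) 0 z := fun z _ =>
      hasDerivAt_const z 0
    have := back_le (f := fun _ => (0 : ℝ)) (g := w i) (f' := fun _ => 0)
      (g' := fun z => -R z (fun j => u j z) i) h0 (fun z hz => hp.2.2.1 i z hz)
      (fun z hz => by
        have := R0 z hz _ (fun j => hp.2.1 j z hz) (hc z hz) i
        simp only [Left.neg_nonpos_iff]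
        exact this) (by rw [hp.2.2.2 i])
    exact this r hr

end Pool.Agent.RZ.RCO
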