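import Pool.Agent.RZ.RCO.Hf2
import Pool.Agent.RZ.RCO.InvL

/-! Static bounds of the rows of the F-indexed system, and linear bounds with finitely many kinks
(MP_73ccd0_lc). -/

namespace Pool.Agent.RZ.RCO

open Set Finset Pool.Agent.RZ.RCM

set_option linter.unusedSectionVars false

/-! ### Finitely many kinks -/

/-- comparison by the derivatives, backward in time, with finitely many kinks -/
theorem back_le_fin (S : Finset ℝ) : ∀ {a b : ℝ} {f g f' g' : ℝ → ℝ},
    ContinuousOn f (Icc a b) → ContinuousOn g (Icc a b) →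
    (∀ r ∈ Ioo a b, r ∉ S → HasDerivAt f (f' r) r) →
    (∀ r ∈ Ioo a b, r ∉ S → HasDerivAt g (g' r) r) →
    (∀ r ∈ Ioo a b, r ∉ S → g' r ≤ f' r) → f b ≤ g b → ∀ r ∈ Icc a b, f r ≤ g r := by
  classical
  induction S using Finset.induction_on with
  | empty =>
    intro a b f g f' g' cf cg hf hg h he
    exact back_le_in cf cg (fun r hr => hf r hr (by simp)) (fun r hr => hg r hr (by simp))
      (fun r hr => h r hr (by simp)) he
  | insert σ S _ ih =>
    intro a b f g f' g' cf cg hf hg h he r hr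
    by_cases hσ : σ ∈ Ioo a b
    · have m1 : ∀ z ∈ Ioo σ b, z ∈ Ioo a b := fun z hz => ⟨hσ.1.trans hz.1, hz.2⟩
      have m2 : ∀ z ∈ Ioo a σ, z ∈ Ioo a b := fun z hz => ⟨hz.1, hz.2.trans hσ.2⟩
      have c1 : Icc σ b ⊆ Icc a b := Icc_subset_Icc_left hσ.1.le
      have c2 : Icc a σ ⊆ Icc a b := Icc_subset_Icc_right hσ.2.le
      have n1 : ∀ z ∈ Ioo σ b, z ∉ S → z ∉ insert σ S := fun z hz hs e => by
        rcases Finset.mem_insert.1 e with e | e
        · exact hz.1.ne' e
        · exact hs e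
      have n2 : ∀ z ∈ Ioo a σ, z ∉ S → z ∉ insert σ S := fun z hz hs e => by
        rcases Finset.mem_insert.1 e with e | e
        · exact hz.2.ne e
        · exact hs e
      have k1 := ih (cf.mono c1) (cg.mono c1) (fun z hz hs => hf z (m1 z hz) (n1 z hz hs))
        (fun z hz hs => hg z (m1 z hz) (n1 z hz hs)) (fun z hz hs => h z (m1 z hz) (n1 z hz hs))
        he
      have k2 := ih (cf.mono c2) (cg.mono c2) (fun z hz hs => hf z (m2 z hz) (n2 z hz hs))
        (fun z hz hs => hg z (m2 z hz) (n2 z hz hs)) (fun z hz hs => h z (m2 z hz) (n2 z hz hs))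
        (k1 σ ⟨le_rfl, hσ.2.le⟩)
      rcases le_total r σ with hrσ | hrσ
      · exact k2 r ⟨hr.1, hrσ⟩
      · exact k1 r ⟨hrσ, hr.2⟩
    · have n : ∀ z ∈ Ioo a b, z ∉ S → z ∉ insert σ S := fun z hz hs e => by
        rcases Finset.mem_insert.1 e with e | e
        · exact hσ (e ▸ hz)
        · exact hs e
      exact ih cf cg (fun z hz hs => hf z hz (n z hz hs)) (fun z hz hs => hg z hz (n z hz hs))
        (fun z hz hs => h z hz (n z hz hs)) he r hr

section

variable {ι : Type*} [Fintype ι]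

/-- **linear bounds** with time-dependent weights and finitely many kinks; the growth of the
weights may be used with the values of the last iterate only through its sign -/
theorem inv_linS {τ : ℝ} (S : Finset ℝ) {R : ℝ → (ι → ℝ) → ι → ℝ} {D : ℝ → (ι → ℝ) → Prop}
    (hD : Inv τ R D)
    (R0 : ∀ r ∈ Icc 0 τ, ∀ u : ι → ℝ, (∀ i, 0 ≤ u i) → D r u → ∀ i, 0 ≤ R r u i)
    {A : Type*} {c c' : A → ι → ℝ → ℝ} {φ φ' : A → ℝ → ℝ}
    (cφ : ∀ α, ContinuousOn (φ α) (Icc 0 τ))
    (hφ : ∀ α, ∀ r ∈ Icc 0 τ, r ∉ S → HasDerivAt (φ α) (φ' α r) r)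
    (hφ0 : ∀ α, ∀ r ∈ Icc 0 τ, 0 ≤ φ α r)
    (cc : ∀ α i, ContinuousOn (c α i) (Icc 0 τ))
    (hc : ∀ α i, ∀ r ∈ Icc 0 τ, r ∉ S → HasDerivAt (c α i) (c' α i r) r)
    (hc' : ∀ α i, ∀ r ∈ Icc 0 τ, r ∉ S → 0 ≤ c' α i r)
    (st : ∀ r ∈ Icc 0 τ, r ∉ S → ∀ u : ι → ℝ, (∀ i, 0 ≤ u i) → D r u →
      (∀ α, ∑ i, c α i r * u i ≤ φ α r) → ∀ α, ∑ i, c α i r * R r u i ≤ -φ' α r) :
    Inv τ R (fun r u => (D r u ∧ ∀ i, 0 ≤ u i) ∧ ∀ α, ∑ i, c α i r * u i ≤ φ α r) := by
  refine (inv_nonneg hD R0).and (fun r hr => ?_) (fun r hr α => by simpa using hφ0 α r hr)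
    fun u w hp hc0 hc1 r hr α => ?_
  · have : {u : ι → ℝ | ∀ α, ∑ i, c α i r * u i ≤ φ α r}
        = ⋂ α, {u | ∑ i, c α i r * u i ≤ φ α r} := by ext; simp
    rw [this]
    refine isClosed_iInter fun α => isClosed_le ?_ continuous_const
    exact continuous_finsetSum _ fun i _ => continuous_const.mul (continuous_apply i)
  · have hw0 : ∀ i, ∀ z ∈ Icc 0 τ, 0 ≤ w i z := fun i z hz =>
      ((inv_nonneg hD R0).st u w hp hc0 z hz).2 i
    have wc : ∀ i, ContinuousOn (w i) (Icc 0 τ) := fun i z hz =>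
      (hp.2.2.1 i z hz).continuousAt.continuousWithinAt
    refine back_le_fin S (f := fun z => ∑ i, c α i z * w i z) (g := φ α) (g' := φ' α)
      (f' := fun z => ∑ i, (c' α i z * w i z + c α i z * (-R z (fun j => u j z) i)))
      (continuousOn_finsetSum _ fun i _ => (cc α i).mul (wc i)) (cφ α)
      (fun z hz hzσ => HasDerivAt.fun_sum fun i _ => (hc α i z (Ioo_subset_Icc_self hz) hzσ).mul
        (hp.2.2.1 i z (Ioo_subset_Icc_self hz)))
      (fun z hz hzσ => hφ α z (Ioo_subset_Icc_self hz) hzσ) (fun z hz0 hzσ => ?_) ?_ r hr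
    · have hz := Ioo_subset_Icc_self hz0
      have h1 := st z hz hzσ (fun i => u i z) (fun j => hp.2.1 j z hz) (hc0 z hz).1 (hc1 z hz) α
      have h2 : 0 ≤ ∑ i, c' α i z * w i z := Finset.sum_nonneg fun i _ =>
        mul_nonneg (hc' α i z hz hzσ) (hw0 i z hz)
      have e : ∑ i, (c' α i z * w i z + c α i z * (-R z (fun j => u j z) i))
          = ∑ i, c' α i z * w i z - ∑ i, c α i z * R z (fun j => u j z) i := by
        rw [← Finset.sum_sub_distrib]
        exact Finset.sum_congr rfl fun i _ => by ring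
      rw [e]
      linarith
    · have : ∑ i, c α i τ * w i τ = 0 := Finset.sum_eq_zero fun i _ => by rw [hp.2.2.2 i, mul_zero]
      show ∑ i, c α i τ * w i τ ≤ φ α τ
      rw [this]
      exact hφ0 α τ ⟨hr.1.trans hr.2, le_rfl⟩

end

variable {V : Type*} [Fintype V] [DecidableEq V]

/-! ### Exchange of sums -/

theorem swap2 {F : Finset V} (f : V → V → ℝ) :
    ∑ j ∈ F, ∑ x ∈ F.erase j, f j x = ∑ x ∈ F, ∑ j ∈ F.erase x, f j x := by
  refine Finset.sum_comm' fun j x => ?_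
  simp only [Finset.mem_erase]
  constructor
  · rintro ⟨h1, h2, h3⟩; exact ⟨⟨fun e => h2 e.symm, h1⟩, h3⟩
  · rintro ⟨⟨h1, h2⟩, h3⟩; exact ⟨h2, fun e => h1 e.symm, h3⟩

theorem swap3 {F : Finset V} (f : V → V → V → ℝ) :
    ∑ j ∈ F, ∑ x ∈ F.erase j, ∑ y ∈ F.erase j, f j x y
      = ∑ x ∈ F, ∑ y ∈ F, ∑ j ∈ (F.erase x).erase y, f j x y := by
  rw [swap2 fun j x => ∑ y ∈ F.erase j, f j x y]
  refine Finset.sum_congr rfl fun x _ => ?_
  refine Finset.sum_comm' fun j y => ?_
  simp only [Finset.mem_erase]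
  constructor
  · rintro ⟨⟨h1, h2⟩, h3, h4⟩; exact ⟨⟨fun e => h3 e.symm, h1, h2⟩, h4⟩
  · rintro ⟨⟨h1, h2, h3⟩, h4⟩; exact ⟨⟨h2, h3⟩, fun e => h1 e.symm, h4⟩

/-! ### The column-pair operator -/

/-- the pair operator at the vertex `x` of `F` -/
noncomputable def KF (T : V → V → ℝ) (φ : V → Finset V → ℝ) (F : Finset V) (x : V) : ℝ :=
  (1 / 2) * ∑ y ∈ F, T x y * (φ x (F.erase x) + φ y ((F.erase x).erase y)
    + (φ y (F.erase y) + φ x ((F.erase y).erase x)))

variable {U : Finset V} {T A B : V → V → ℝ}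

/-- the product terms, summed over a row -/
theorem quadF {a b : Finset V → V → V → ℝ} {wl : V → ℝ} {wb : V → V → ℝ}
    {φ : V → Finset V → ℝ} {F : Finset V} {i : V}
    (T0 : ∀ i j, 0 ≤ T i j) (Ts : ∀ i j, T i j = T j i) (hF : F ⊆ U) (hi : i ∈ U) (hiF : i ∉ F)
    (w0 : ∀ j ∈ F, 0 ≤ wl j) (wle : ∀ x ∈ F, ∀ j ∈ F.erase x, wl j ≤ wb x j)
    (a0 : ∀ F i j, 0 ≤ a F i j) (b0 : ∀ F i j, 0 ≤ b F i j)
    (as : ∀ F i j, a F i j = a F j i)
    (bm : ∀ F G i j, G ⊆ F → VP U F i j → b G i j ≤ b F i j)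
    (hφ : ∀ x ∈ U, ∀ G ⊆ U, x ∉ G → ∑ j ∈ G, wb x j * a (G.erase j) x j ≤ φ x G) :
    ∑ j ∈ F, wl j * ((1 / 2) * ∑ x ∈ F.erase j, ∑ y ∈ F.erase j, T x y *
        ((a ((F.erase j).erase x) j x + a (((F.erase j).erase x).erase y) j y)
          * (b ((F.erase j).erase x) i x + b (((F.erase j).erase x).erase y) i y)))
      ≤ ∑ x ∈ F, b (F.erase x) i x * KF T φ F x := by
  have hv : ∀ x ∈ F, VP U (F.erase x) i x := fun x hx =>
    ⟨(Finset.erase_subset _ _).trans hF, hi, hF hx,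
      fun e => hiF (Finset.mem_of_mem_erase e), Finset.notMem_erase _ _, fun e => hiF (e ▸ hx)⟩
  have bx : ∀ j, ∀ x ∈ F, b ((F.erase j).erase x) i x ≤ b (F.erase x) i x := fun j x hx =>
    bm _ _ _ _ (Finset.erase_subset_erase _ (Finset.erase_subset _ _)) (hv x hx)
  have by' : ∀ j x, ∀ y ∈ F, b (((F.erase j).erase x).erase y) i y ≤ b (F.erase y) i y :=
    fun j x y hy => bm _ _ _ _ (Finset.erase_subset_erase _ ((Finset.erase_subset _ _).trans
      (Finset.erase_subset _ _))) (hv y hy)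
  -- the sums over `j`
  have s1 : ∀ x ∈ F, ∀ y, ∑ j ∈ (F.erase x).erase y, wl j * a ((F.erase j).erase x) j x
      ≤ φ x (F.erase x) := by
    intro x hx y
    refine le_trans ?_ (hφ x (hF hx) (F.erase x) ((Finset.erase_subset _ _).trans hF)
      (Finset.notMem_erase _ _))
    refine (Finset.sum_le_sum_of_subset_of_nonneg (Finset.erase_subset _ _) fun j hj _ =>
      mul_nonneg (w0 j (Finset.mem_of_mem_erase hj)) (a0 _ _ _)).trans ?_
    refine Finset.sum_le_sum fun j hj => ?_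
    rw [Finset.erase_right_comm, as _ j x]
    exact mul_le_mul_of_nonneg_right (wle x hx j hj) (a0 _ _ _)
  have s2 : ∀ x ∈ F, ∀ y ∈ F, ∑ j ∈ (F.erase x).erase y,
      wl j * a (((F.erase j).erase x).erase y) j y ≤ φ y ((F.erase x).erase y) := by
    intro x hx y hy
    refine le_trans ?_ (hφ y (hF hy) ((F.erase x).erase y) (((Finset.erase_subset _ _).trans
      (Finset.erase_subset _ _)).trans hF) (Finset.notMem_erase _ _))
    refine Finset.sum_le_sum fun j hj => ?_
    have hj1 := Finset.mem_erase.1 hj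
    have hj2 := Finset.mem_of_mem_erase hj1.2
    rw [Finset.erase_right_comm (a := j) (b := x), Finset.erase_right_comm (a := j) (b := y),
      as _ j y]
    exact mul_le_mul_of_nonneg_right (wle y hy j (Finset.mem_erase.2 ⟨hj1.1, hj2⟩)) (a0 _ _ _)
  calc ∑ j ∈ F, wl j * ((1 / 2) * ∑ x ∈ F.erase j, ∑ y ∈ F.erase j, T x y *
        ((a ((F.erase j).erase x) j x + a (((F.erase j).erase x).erase y) j y)
          * (b ((F.erase j).erase x) i x + b (((F.erase j).erase x).erase y) i y)))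
      ≤ ∑ j ∈ F, wl j * ((1 / 2) * ∑ x ∈ F.erase j, ∑ y ∈ F.erase j, T x y *
        ((a ((F.erase j).erase x) j x + a (((F.erase j).erase x).erase y) j y)
          * (b (F.erase x) i x + b (F.erase y) i y))) := by
        refine Finset.sum_le_sum fun j hj => mul_le_mul_of_nonneg_left
          (mul_le_mul_of_nonneg_left ?_ (by norm_num)) (w0 j hj)
        refine Finset.sum_le_sum fun x hx => Finset.sum_le_sum fun y hy =>
          mul_le_mul_of_nonneg_left (mul_le_mul_of_nonneg_left (add_le_add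
            (bx j x (Finset.mem_of_mem_erase hx)) (by' j x y (Finset.mem_of_mem_erase hy)))
            (add_nonneg (a0 _ _ _) (a0 _ _ _))) (T0 _ _)
    _ = (1 / 2) * ∑ j ∈ F, ∑ x ∈ F.erase j, ∑ y ∈ F.erase j, T x y *
        ((b (F.erase x) i x + b (F.erase y) i y) * (wl j * a ((F.erase j).erase x) j x
          + wl j * a (((F.erase j).erase x).erase y) j y)) := by
        rw [Finset.mul_sum]
        refine Finset.sum_congr rfl fun j _ => ?_
        rw [mul_left_comm, Finset.mul_sum]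
        congr 1
        refine Finset.sum_congr rfl fun x _ => ?_
        rw [Finset.mul_sum]
        exact Finset.sum_congr rfl fun y _ => by ring
    _ = (1 / 2) * ∑ x ∈ F, ∑ y ∈ F, T x y * ((b (F.erase x) i x + b (F.erase y) i y) *
        (∑ j ∈ (F.erase x).erase y, wl j * a ((F.erase j).erase x) j x
          + ∑ j ∈ (F.erase x).erase y, wl j * a (((F.erase j).erase x).erase y) j y)) := by
        rw [swap3]
        congr 1
        refine Finset.sum_congr rfl fun x _ => Finset.sum_congr rfl fun y _ => ?_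
        rw [← Finset.sum_add_distrib, Finset.mul_sum, Finset.mul_sum]
    _ ≤ (1 / 2) * ∑ x ∈ F, ∑ y ∈ F, T x y * ((b (F.erase x) i x + b (F.erase y) i y) *
        (φ x (F.erase x) + φ y ((F.erase x).erase y))) := by
        refine mul_le_mul_of_nonneg_left ?_ (by norm_num)
        refine Finset.sum_le_sum fun x hx => Finset.sum_le_sum fun y hy =>
          mul_le_mul_of_nonneg_left (mul_le_mul_of_nonneg_left (add_le_add (s1 x hx y)
            (s2 x hx y hy)) (add_nonneg (b0 _ _ _) (b0 _ _ _))) (T0 _ _)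
    _ = ∑ x ∈ F, b (F.erase x) i x * KF T φ F x := by
        have e1 : ∑ x ∈ F, ∑ y ∈ F, T x y * ((b (F.erase x) i x + b (F.erase y) i y) *
            (φ x (F.erase x) + φ y ((F.erase x).erase y)))
            = ∑ x ∈ F, ∑ y ∈ F, T x y * (b (F.erase x) i x *
              (φ x (F.erase x) + φ y ((F.erase x).erase y)))
            + ∑ x ∈ F, ∑ y ∈ F, T x y * (b (F.erase y) i y *
              (φ x (F.erase x) + φ y ((F.erase x).erase y))) := by
          rw [← Finset.sum_add_distrib]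
          refine Finset.sum_congr rfl fun x _ => ?_
          rw [← Finset.sum_add_distrib]
          exact Finset.sum_congr rfl fun y _ => by ring
        have e2 : ∑ x ∈ F, ∑ y ∈ F, T x y * (b (F.erase y) i y *
              (φ x (F.erase x) + φ y ((F.erase x).erase y)))
            = ∑ x ∈ F, ∑ y ∈ F, T x y * (b (F.erase x) i x *
              (φ y (F.erase y) + φ x ((F.erase y).erase x))) := by
          rw [Finset.sum_comm]
          refine Finset.sum_congr rfl fun x _ => Finset.sum_congr rfl fun y _ => ?_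
          rw [Ts y x]
        rw [e1, e2, ← Finset.sum_add_distrib, Finset.mul_sum]
        refine Finset.sum_congr rfl fun x _ => ?_
        unfold KF
        rw [← Finset.sum_add_distrib]
        simp only [Finset.mul_sum]
        exact Finset.sum_congr rfl fun y _ => by ring

/-- the single terms of the first kind, summed over a row -/
theorem l1F {a : Finset V → V → V → ℝ} {wl : V → ℝ} {wb : V → V → ℝ}
    {φ : V → Finset V → ℝ} {F : Finset V} {i : V}
    (T0 : ∀ i j, 0 ≤ T i j) (hF : F ⊆ U)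
    (w0 : ∀ j ∈ F, 0 ≤ wl j) (wle : ∀ x ∈ F, ∀ j ∈ F.erase x, wl j ≤ wb x j)
    (a0 : ∀ F i j, 0 ≤ a F i j) (as : ∀ F i j, a F i j = a F j i)
    (hφ : ∀ x ∈ U, ∀ G ⊆ U, x ∉ G → ∑ j ∈ G, wb x j * a (G.erase j) x j ≤ φ x G) :
    ∑ j ∈ F, wl j * ∑ b ∈ F.erase j, T i b * (1 - Real.exp (-a ((F.erase j).erase b) j b))
      ≤ ∑ b ∈ F, T i b * φ b (F.erase b) := by
  calc ∑ j ∈ F, wl j * ∑ b ∈ F.erase j, T i b * (1 - Real.exp (-a ((F.erase j).erase b) j b))
      ≤ ∑ j ∈ F, ∑ b ∈ F.erase j, T i b * (wb b j * a ((F.erase b).erase j) b j) := by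
        refine Finset.sum_le_sum fun j hj => ?_
        rw [Finset.mul_sum]
        refine Finset.sum_le_sum fun b hb => ?_
        rw [mul_left_comm]
        refine mul_le_mul_of_nonneg_left ?_ (T0 _ _)
        have hb' := Finset.mem_erase.1 hb
        rw [Finset.erase_right_comm, as _ b j]
        exact mul_le_mul (wle b hb'.2 j (Finset.mem_erase.2 ⟨fun e => hb'.1 e.symm, hj⟩))
          (e1l _) (e1 (a0 _ _ _)) ((w0 j hj).trans
            (wle b hb'.2 j (Finset.mem_erase.2 ⟨fun e => hb'.1 e.symm, hj⟩)))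
    _ = ∑ b ∈ F, T i b * ∑ j ∈ F.erase b, wb b j * a ((F.erase b).erase j) b j := by
        rw [swap2 fun j b => T i b * (wb b j * a ((F.erase b).erase j) b j)]
        exact Finset.sum_congr rfl fun b _ => by rw [Finset.mul_sum]
    _ ≤ ∑ b ∈ F, T i b * φ b (F.erase b) :=
        Finset.sum_le_sum fun b hb => mul_le_mul_of_nonneg_left (hφ b (hF hb) (F.erase b)
          ((Finset.erase_subset _ _).trans hF) (Finset.notMem_erase _ _)) (T0 _ _)

/-- the single terms of the second kind, summed over a row -/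
theorem l2F {a : Finset V → V → V → ℝ} {wl : V → ℝ} {F : Finset V} {i : V}
    (T0 : ∀ i j, 0 ≤ T i j) (hF : F ⊆ U) (hi : i ∈ U) (hiF : i ∉ F)
    (w0 : ∀ j ∈ F, 0 ≤ wl j)
    (a0 : ∀ F i j, 0 ≤ a F i j)
    (am : ∀ F G i j, G ⊆ F → VP U F i j → a G i j ≤ a F i j) :
    ∑ j ∈ F, wl j * ∑ b ∈ F.erase j, T j b * (1 - Real.exp (-a ((F.erase j).erase b) i b))
      ≤ ∑ x ∈ F, a (F.erase x) i x * ∑ j ∈ F.erase x, wl j * T j x := by
  calc ∑ j ∈ F, wl j * ∑ b ∈ F.erase j, T j b * (1 - Real.exp (-a ((F.erase j).erase b) i b))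
      ≤ ∑ j ∈ F, ∑ b ∈ F.erase j, a (F.erase b) i b * (wl j * T j b) := by
        refine Finset.sum_le_sum fun j hj => ?_
        rw [Finset.mul_sum]
        refine Finset.sum_le_sum fun b hb => ?_
        have hb' := Finset.mem_of_mem_erase hb
        have h1 : a ((F.erase j).erase b) i b ≤ a (F.erase b) i b :=
          am _ _ _ _ (Finset.erase_subset_erase _ (Finset.erase_subset _ _))
            ⟨(Finset.erase_subset _ _).trans hF, hi, hF hb',
              fun e => hiF (Finset.mem_of_mem_erase e), Finset.notMem_erase _ _,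
              fun e => hiF (e ▸ hb')⟩
        have h2 := (e1l (a ((F.erase j).erase b) i b)).trans h1
        calc wl j * (T j b * (1 - Real.exp (-a ((F.erase j).erase b) i b)))
            = (1 - Real.exp (-a ((F.erase j).erase b) i b)) * (wl j * T j b) := by ring
          _ ≤ a (F.erase b) i b * (wl j * T j b) :=
            mul_le_mul_of_nonneg_right h2 (mul_nonneg (w0 j hj) (T0 _ _))
    _ = ∑ x ∈ F, a (F.erase x) i x * ∑ j ∈ F.erase x, wl j * T j x := by
        rw [swap2 fun j b => a (F.erase b) i b * (wl j * T j b)]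
        exact Finset.sum_congr rfl fun b _ => by rw [Finset.mul_sum]

/-- static bound of the row of the growing pairs -/
theorem opF_row {gp gm : Finset V → V → V → ℝ} {wl : V → ℝ} {wb : V → V → ℝ}
    {φp φm : V → Finset V → ℝ} {F : Finset V} {i : V}
    (T0 : ∀ i j, 0 ≤ T i j) (Ts : ∀ i j, T i j = T j i) (hF : F ⊆ U) (hi : i ∈ U) (hiF : i ∉ F)
    (w0 : ∀ j ∈ F, 0 ≤ wl j) (wle : ∀ x ∈ F, ∀ j ∈ F.erase x, wl j ≤ wb x j)
    (p0 : ∀ F i j, 0 ≤ gp F i j) (m0 : ∀ F i j, 0 ≤ gm F i j)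
    (ps : ∀ F i j, gp F i j = gp F j i) (ms : ∀ F i j, gm F i j = gm F j i)
    (pm : ∀ F G i j, G ⊆ F → VP U F i j → gp G i j ≤ gp F i j)
    (mm : ∀ F G i j, G ⊆ F → VP U F i j → gm G i j ≤ gm F i j)
    (hp : ∀ x ∈ U, ∀ G ⊆ U, x ∉ G → ∑ j ∈ G, wb x j * gp (G.erase j) x j ≤ φp x G)
    (hm : ∀ x ∈ U, ∀ G ⊆ U, x ∉ G → ∑ j ∈ G, wb x j * gm (G.erase j) x j ≤ φm x G) :
    ∑ j ∈ F, wl j * opF T A gp gm (F.erase j) i j ≤ ∑ j ∈ F, wl j * A i j
      + ∑ b ∈ F, T i b * φm b (F.erase b)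
      + ∑ x ∈ F, gp (F.erase x) i x * KF T φp F x
      + ∑ x ∈ F, gm (F.erase x) i x * (∑ j ∈ F.erase x, wl j * T j x + KF T φm F x) := by
  have q1 := quadF (U := U) (a := gp) (b := gp) T0 Ts hF hi hiF w0 wle p0 p0 ps pm hp
  have q2 := quadF (U := U) (a := gm) (b := gm) T0 Ts hF hi hiF w0 wle m0 m0 ms mm hm
  have q3 := l1F (U := U) (a := gm) (i := i) T0 hF w0 wle m0 ms hm
  have q4 := l2F (U := U) (a := gm) (i := i) T0 hF hi hiF w0 m0 mm
  have s1 : ∀ j ∈ F, wl j * opF T A gp gm (F.erase j) i j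
      ≤ wl j * A i j
        + wl j * ∑ b ∈ F.erase j, T i b * (1 - Real.exp (-gm ((F.erase j).erase b) j b))
        + wl j * ∑ b ∈ F.erase j, T j b * (1 - Real.exp (-gm ((F.erase j).erase b) i b))
        + wl j * ((1 / 2) * ∑ x ∈ F.erase j, ∑ y ∈ F.erase j, T x y *
          ((gp ((F.erase j).erase x) j x + gp (((F.erase j).erase x).erase y) j y)
          * (gp ((F.erase j).erase x) i x + gp (((F.erase j).erase x).erase y) i y)))
        + wl j * ((1 / 2) * ∑ x ∈ F.erase j, ∑ y ∈ F.erase j, T x y *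
          ((gm ((F.erase j).erase x) j x + gm (((F.erase j).erase x).erase y) j y)
          * (gm ((F.erase j).erase x) i x + gm (((F.erase j).erase x).erase y) i y))) := by
    intro j hj
    unfold opF
    rw [← mul_add, ← mul_add, ← mul_add, ← mul_add]
    refine mul_le_mul_of_nonneg_left ?_ (w0 j hj)
    rw [add_assoc (A i j + _ + _), ← mul_add, ← Finset.sum_add_distrib]
    refine add_le_add le_rfl (mul_le_mul_of_nonneg_left ?_ (by norm_num))
    refine Finset.sum_le_sum fun x _ => ?_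
    rw [← Finset.sum_add_distrib]
    refine Finset.sum_le_sum fun y _ => ?_
    rw [← mul_add]
    refine mul_le_mul_of_nonneg_left ?_ (T0 _ _)
    set a1 := gp ((F.erase j).erase x) j x + gp (((F.erase j).erase x).erase y) j y with ha1
    set a2 := gp ((F.erase j).erase x) i x + gp (((F.erase j).erase x).erase y) i y with ha2
    set b1 := gm ((F.erase j).erase x) j x + gm (((F.erase j).erase x).erase y) j y with hb1
    set b2 := gm ((F.erase j).erase x) i x + gm (((F.erase j).erase x).erase y) i y with hb2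
    have a10 : 0 ≤ a1 := add_nonneg (p0 _ _ _) (p0 _ _ _)
    have a20 : 0 ≤ a2 := add_nonneg (p0 _ _ _) (p0 _ _ _)
    have b10 : 0 ≤ b1 := add_nonneg (m0 _ _ _) (m0 _ _ _)
    have b20 : 0 ≤ b2 := add_nonneg (m0 _ _ _) (m0 _ _ _)
    have c1 : (1 - Real.exp (-a1)) * (1 - Real.exp (-a2)) ≤ a1 * a2 :=
      mul_le_mul (e1l a1) (e1l a2) (e1 a20) a10
    have c2 : (1 - Real.exp (-b1)) * (1 - Real.exp (-b2)) ≤ b1 * b2 :=
      mul_le_mul (e1l b1) (e1l b2) (e1 b20) b10
    exact max_le (c1.trans (le_add_of_nonneg_right (mul_nonneg b10 b20)))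
      (c2.trans (le_add_of_nonneg_left (mul_nonneg a10 a20)))
  have s2 := Finset.sum_le_sum s1
  simp only [Finset.sum_add_distrib] at s2
  have s3 : ∑ x ∈ F, gm (F.erase x) i x * (∑ j ∈ F.erase x, wl j * T j x + KF T φm F x)
      = ∑ x ∈ F, gm (F.erase x) i x * ∑ j ∈ F.erase x, wl j * T j x
        + ∑ x ∈ F, gm (F.erase x) i x * KF T φm F x := by
    rw [← Finset.sum_add_distrib]
    exact Finset.sum_congr rfl fun x _ => by ring
  rw [s3]
  linarith

/-- static bound of the row of the decreasing pairs -/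
theorem omF_row {gp gm : Finset V → V → V → ℝ} {wl : V → ℝ} {wb : V → V → ℝ}
    {φp φm : V → Finset V → ℝ} {F : Finset V} {i : V}
    (T0 : ∀ i j, 0 ≤ T i j) (Ts : ∀ i j, T i j = T j i) (hF : F ⊆ U) (hi : i ∈ U) (hiF : i ∉ F)
    (w0 : ∀ j ∈ F, 0 ≤ wl j) (wle : ∀ x ∈ F, ∀ j ∈ F.erase x, wl j ≤ wb x j)
    (p0 : ∀ F i j, 0 ≤ gp F i j) (m0 : ∀ F i j, 0 ≤ gm F i j)
    (ps : ∀ F i j, gp F i j = gp F j i) (ms : ∀ F i j, gm F i j = gm F j i)
    (pm : ∀ F G i j, G ⊆ F → VP U F i j → gp G i j ≤ gp F i j)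
    (mm : ∀ F G i j, G ⊆ F → VP U F i j → gm G i j ≤ gm F i j)
    (hp : ∀ x ∈ U, ∀ G ⊆ U, x ∉ G → ∑ j ∈ G, wb x j * gp (G.erase j) x j ≤ φp x G)
    (hm : ∀ x ∈ U, ∀ G ⊆ U, x ∉ G → ∑ j ∈ G, wb x j * gm (G.erase j) x j ≤ φm x G) :
    ∑ j ∈ F, wl j * omF T B gp gm (F.erase j) i j ≤ ∑ j ∈ F, wl j * B i j
      + ∑ b ∈ F, T i b * φp b (F.erase b)
      + ∑ x ∈ F, gm (F.erase x) i x * KF T φp F x
      + ∑ x ∈ F, gp (F.erase x) i x * (∑ j ∈ F.erase x, wl j * T j x + KF T φm F x) := by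
  have q1 := quadF (U := U) (a := gp) (b := gm) T0 Ts hF hi hiF w0 wle p0 m0 ps mm hp
  have q2 := quadF (U := U) (a := gm) (b := gp) T0 Ts hF hi hiF w0 wle m0 p0 ms pm hm
  have q3 := l1F (U := U) (a := gp) (i := i) T0 hF w0 wle p0 ps hp
  have q4 := l2F (U := U) (a := gp) (i := i) T0 hF hi hiF w0 p0 pm
  have s1 : ∀ j ∈ F, wl j * omF T B gp gm (F.erase j) i j
      ≤ wl j * B i j
        + wl j * ∑ b ∈ F.erase j, T i b * (1 - Real.exp (-gp ((F.erase j).erase b) j b))
        + wl j * ∑ b ∈ F.erase j, T j b * (1 - Real.exp (-gp ((F.erase j).erase b) i b))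
        + wl j * ((1 / 2) * ∑ x ∈ F.erase j, ∑ y ∈ F.erase j, T x y *
          ((gp ((F.erase j).erase x) j x + gp (((F.erase j).erase x).erase y) j y)
          * (gm ((F.erase j).erase x) i x + gm (((F.erase j).erase x).erase y) i y)))
        + wl j * ((1 / 2) * ∑ x ∈ F.erase j, ∑ y ∈ F.erase j, T x y *
          ((gm ((F.erase j).erase x) j x + gm (((F.erase j).erase x).erase y) j y)
          * (gp ((F.erase j).erase x) i x + gp (((F.erase j).erase x).erase y) i y))) := by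
    intro j hj
    unfold omF
    rw [← mul_add, ← mul_add, ← mul_add, ← mul_add]
    refine mul_le_mul_of_nonneg_left ?_ (w0 j hj)
    rw [add_assoc (B i j + _ + _), ← mul_add, ← Finset.sum_add_distrib]
    refine add_le_add le_rfl (mul_le_mul_of_nonneg_left ?_ (by norm_num))
    refine Finset.sum_le_sum fun x _ => ?_
    rw [← Finset.sum_add_distrib]
    refine Finset.sum_le_sum fun y _ => ?_
    rw [← mul_add]
    refine mul_le_mul_of_nonneg_left ?_ (T0 _ _)
    set a1 := gp ((F.erase j).erase x) j x + gp (((F.erase j).erase x).erase y) j y with ha1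
    set a2 := gm ((F.erase j).erase x) i x + gm (((F.erase j).erase x).erase y) i y with ha2
    set b1 := gm ((F.erase j).erase x) j x + gm (((F.erase j).erase x).erase y) j y with hb1
    set b2 := gp ((F.erase j).erase x) i x + gp (((F.erase j).erase x).erase y) i y with hb2
    have a10 : 0 ≤ a1 := add_nonneg (p0 _ _ _) (p0 _ _ _)
    have a20 : 0 ≤ a2 := add_nonneg (m0 _ _ _) (m0 _ _ _)
    have b10 : 0 ≤ b1 := add_nonneg (m0 _ _ _) (m0 _ _ _)
    have b20 : 0 ≤ b2 := add_nonneg (p0 _ _ _) (p0 _ _ _)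
    have c1 : (1 - Real.exp (-a1)) * (1 - Real.exp (-a2)) ≤ a1 * a2 :=
      mul_le_mul (e1l a1) (e1l a2) (e1 a20) a10
    have c2 : (1 - Real.exp (-b1)) * (1 - Real.exp (-b2)) ≤ b1 * b2 :=
      mul_le_mul (e1l b1) (e1l b2) (e1 b20) b10
    exact max_le (c1.trans (le_add_of_nonneg_right (mul_nonneg b10 b20)))
      (c2.trans (le_add_of_nonneg_left (mul_nonneg a10 a20)))
  have s2 := Finset.sum_le_sum s1
  simp only [Finset.sum_add_distrib] at s2
  have s3 : ∑ x ∈ F, gp (F.erase x) i x * (∑ j ∈ F.erase x, wl j * T j x + KF T φm F x)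
      = ∑ x ∈ F, gp (F.erase x) i x * ∑ j ∈ F.erase x, wl j * T j x
        + ∑ x ∈ F, gp (F.erase x) i x * KF T φm F x := by
    rw [← Finset.sum_add_distrib]
    exact Finset.sum_congr rfl fun x _ => by ring
  rw [s3]
  linarith

end Pool.Agent.RZ.RCO
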