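import Pool.Agent.RZ.RCM.Cond
import Pool.Agent.RZ.RCM.Zero
import Pool.Agent.RZ.RCO.Hf3

/-! Level 0 with signed lower functions: the killing of the removed vertex lowers the loss of its
removal (MP_73ccd0_lc). -/

namespace Pool.Agent.RZ.RCO

open Set Finset Pool.Agent.RZ.RCRSHalf Pool.Agent.RZ.RCG Pool.Agent.RZ.RCM

set_option linter.unusedSectionVars false

variable {V : Type*} [Fintype V] [DecidableEq V]

/-- backward positivity with finitely many kinks -/
theorem nonneg_back_fin (S : Finset ℝ) {U U' : ℝ → ℝ} {a s : ℝ} (hc : ContinuousOn U (Icc a s))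
    (hd : ∀ r ∈ Ioo a s, r ∉ S → HasDerivAt U (U' r) r) (hs : 0 ≤ U s)
    (hneg : ∀ r ∈ Ioo a s, r ∉ S → U r < 0 → U' r ≤ 0) : ∀ r ∈ Icc a s, 0 ≤ U r := by
  intro r hr
  by_contra hlt
  push Not at hlt
  have hcont : ContinuousOn U (Icc r s) := hc.mono (Icc_subset_Icc_left hr.1)
  let K : Set ℝ := {t | t ∈ Icc r s ∧ 0 ≤ U t}
  have hKne : K.Nonempty := ⟨s, ⟨hr.2, le_rfl⟩, hs⟩
  have hKc : IsClosed K := by
    have : K = Icc r s ∩ U ⁻¹' Ici 0 := by ext t; simp [K]
    rw [this]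
    exact hcont.preimage_isClosed_of_isClosed isClosed_Icc isClosed_Ici
  have hKb : BddBelow K := ⟨r, fun t ht => ht.1.1⟩
  have hm := hKc.csInf_mem hKne hKb
  set σ := sInf K
  have hbefore : ∀ t ∈ Ioo r σ, U t < 0 := fun t ht => by
    by_contra h
    push Not at h
    have : σ ≤ t := csInf_le hKb ⟨⟨ht.1.le, ht.2.le.trans hm.1.2⟩, h⟩
    linarith [ht.2]
  have key := back_le_fin S (a := r) (b := σ) (f := fun _ => 0) (g := U) (f' := fun _ => 0)
    (g' := U') continuousOn_const (hcont.mono (Icc_subset_Icc_right hm.1.2))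
    (fun z _ _ => hasDerivAt_const z _)
    (fun z hz hS => hd z ⟨hr.1.trans_lt hz.1, hz.2.trans_le hm.1.2⟩ hS)
    (fun z hz hS => hneg z ⟨hr.1.trans_lt hz.1, hz.2.trans_le hm.1.2⟩ hS (hbefore z hz))
    hm.2 r ⟨le_rfl, hm.1.1⟩
  exact absurd key (not_le.2 hlt)

section steps

variable {h : ℝ → V → V → ℝ} {k : ℝ → V → ℝ} {s : ℝ} {R : Finset V → ℝ → ℝ}

/-- Step N, signed: lower bound of the influence of `a` from upper bounds for the others, the
killing of `a` counts as a gain. -/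
theorem stepNs (S : Finset ℝ) (hs : ∀ t a b, h t a b = h t b a) (haa : ∀ t a, h t a a = 0)
    (h0 : ∀ t a b, 0 ≤ h t a b) (k0 : ∀ t a, 0 ≤ k t a)
    (hR : IsEv h k (fun _ => 0) (fun _ => 0) s R)
    {H0 : Finset V} {a : V} (ha : a ∉ H0) {P : V → ℝ → ℝ}
    (hP0 : ∀ b ∈ H0, ∀ r ∈ Icc 0 s, 0 ≤ P b r)
    (hP : ∀ G ⊆ H0, ∀ b ∈ G, ∀ r ∈ Icc 0 s, R (G.erase b) r ≤ (1 + P b r) * R G r)
    {N N' : ℝ → ℝ} (hNc : ContinuousOn N (Icc 0 s))
    (hNd : ∀ r ∈ Icc 0 s, r ∉ S → HasDerivAt N (N' r) r)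
    (hN1 : ∀ r ∈ Icc 0 s, N r ≤ 1)
    (hNs : ∀ G ⊆ H0, (1 - N s) * R (insert a G) s ≤ R G s)
    (hN : ∀ r ∈ Icc 0 s, r ∉ S → (1 - N r) * (∑ b ∈ H0, h r a b
      * max 0 ((1 + P b r) * (1 - N r) - 1) - k r a) ≤ -N' r) :
    ∀ G ⊆ H0, ∀ r ∈ Icc 0 s, (1 - N r) * R (insert a G) r ≤ R G r := by
  intro G
  induction hn : G.card using Nat.strong_induction_on generalizing G with
  | _ n ih =>
  intro hG
  have haG : a ∉ G := fun hh => ha (hG hh)
  have cR : ∀ F, ContinuousOn (R F) (Icc 0 s) := fun F r hr =>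
    (hR.deriv F r hr).continuousAt.continuousWithinAt
  have key := nonneg_back_fin S (U := fun r => R G r - (1 - N r) * R (insert a G) r)
    (U' := fun r => (-(gen (h r) (fun F => R F r) G - (∑ c ∈ G, k r c) * R G r
        - 0 * R G r + 0))
      - ((-N' r) * R (insert a G) r + (1 - N r) *
        (-(gen (h r) (fun F => R F r) (insert a G) - (∑ c ∈ insert a G, k r c) * R (insert a G) r
          - 0 * R (insert a G) r + 0))))
    (a := 0) (s := s)
    (ContinuousOn.sub (cR G) (ContinuousOn.mul (continuousOn_const.sub hNc) (cR (insert a G))))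
    (fun r hr hS => by
      have hr' : r ∈ Icc 0 s := Ioo_subset_Icc_self hr
      exact (hR.deriv G r hr').sub (((hNd r hr' hS).const_sub 1).mul
        (hR.deriv (insert a G) r hr')))
    (by have := hNs G hG; linarith) ?_
  · intro r hr
    have := key r hr
    linarith
  · intro r hr' hS hU
    have hr : r ∈ Icc 0 s := Ioo_subset_Icc_self hr'
    set U : ℝ := R G r - (1 - N r) * R (insert a G) r with hUdef
    have hRa0 : 0 ≤ R (insert a G) r := hR.nonneg _ r hr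
    have hN1r := hN1 r hr
    rw [gen_insert (h r) (hs r) (haa r) _ haG, Finset.sum_insert haG]
    have t1 : 0 ≤ gen (h r) (fun F => R F r) G
        - (1 - N r) * ((1 / 2) * ∑ b ∈ G, ∑ c ∈ G,
        h r b c * (R (insert a ((G.erase b).erase c)) r - R (insert a G) r))
        + ((1 / 2) * ∑ b ∈ G, ∑ c ∈ G, h r b c) * U := by
      unfold gen
      rw [hUdef]
      have : (1 / 2) * ∑ b ∈ G, ∑ c ∈ G, h r b c * (R ((G.erase b).erase c) r - R G r)
          - (1 - N r) * ((1 / 2) * ∑ b ∈ G, ∑ c ∈ G,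
          h r b c * (R (insert a ((G.erase b).erase c)) r - R (insert a G) r))
          + ((1 / 2) * ∑ b ∈ G, ∑ c ∈ G, h r b c) * (R G r - (1 - N r) * R (insert a G) r)
          = (1 / 2) * ∑ b ∈ G, ∑ c ∈ G, h r b c *
            (R ((G.erase b).erase c) r - (1 - N r) * R (insert a ((G.erase b).erase c)) r) := by
        rw [mul_left_comm (1 - N r), ← mul_sub, mul_assoc, ← mul_add]
        congr 1
        rw [Finset.mul_sum, Finset.sum_mul, ← Finset.sum_sub_distrib, ← Finset.sum_add_distrib]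
        refine Finset.sum_congr rfl fun b _ => ?_
        rw [Finset.mul_sum, Finset.sum_mul, ← Finset.sum_sub_distrib, ← Finset.sum_add_distrib]
        refine Finset.sum_congr rfl fun c _ => ?_
        ring
      rw [this]
      refine mul_nonneg (by norm_num) (Finset.sum_nonneg fun b hb => Finset.sum_nonneg fun c hc => ?_)
      refine mul_nonneg (h0 _ _ _) ?_
      have hcard : ((G.erase b).erase c).card < n := by
        rw [← hn]
        exact (Finset.card_le_card (Finset.erase_subset _ _)).trans_lt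
          (Finset.card_erase_lt_of_mem hb)
      have := ih _ hcard ((G.erase b).erase c) rfl
        ((Finset.erase_subset _ _).trans ((Finset.erase_subset _ _).trans hG)) r hr
      linarith
    have t2 : 0 ≤ -((1 - N r) * ∑ b ∈ G, h r a b * (R (G.erase b) r - R (insert a G) r))
        + (1 - N r) * (∑ b ∈ G, h r a b * max 0 ((1 + P b r) * (1 - N r) - 1))
          * R (insert a G) r
        + (1 - N r) * (∑ b ∈ G, h r a b * (1 + P b r)) * U := by
      have : -((1 - N r) * ∑ b ∈ G, h r a b * (R (G.erase b) r - R (insert a G) r))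
        + (1 - N r) * (∑ b ∈ G, h r a b * max 0 ((1 + P b r) * (1 - N r) - 1))
          * R (insert a G) r
        + (1 - N r) * (∑ b ∈ G, h r a b * (1 + P b r)) * U
        = (1 - N r) * ∑ b ∈ G, h r a b * (-(R (G.erase b) r - R (insert a G) r)
          + max 0 ((1 + P b r) * (1 - N r) - 1) * R (insert a G) r + (1 + P b r) * U) := by
        rw [mul_assoc, mul_assoc, ← mul_neg, ← mul_add, ← mul_add, ← Finset.sum_neg_distrib,
          Finset.sum_mul, Finset.sum_mul, ← Finset.sum_add_distrib, ← Finset.sum_add_distrib]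
        congr 1
        refine Finset.sum_congr rfl fun b _ => ?_
        ring
      rw [this]
      refine mul_nonneg (by linarith) (Finset.sum_nonneg fun b hb => mul_nonneg (h0 _ _ _) ?_)
      have e1 := hP G hG b hb r hr
      have e3 : R G r = (1 - N r) * R (insert a G) r + U := by rw [hUdef]; ring
      rw [e3] at e1
      have e6 : ((1 + P b r) * (1 - N r) - 1) * R (insert a G) r
          ≤ max 0 ((1 + P b r) * (1 - N r) - 1) * R (insert a G) r :=
        mul_le_mul_of_nonneg_right (le_max_right _ _) hRa0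
      nlinarith
    have t3 : 0 ≤ (∑ b ∈ G, h r a b * (1 + P b r)) := Finset.sum_nonneg fun b hb =>
      mul_nonneg (h0 _ _ _) (by linarith [hP0 b (hG hb) r hr])
    have t4 : 0 ≤ ∑ b ∈ G, ∑ c ∈ G, h r b c :=
      Finset.sum_nonneg fun b _ => Finset.sum_nonneg fun c _ => h0 _ _ _
    have t5 : 0 ≤ ∑ c ∈ G, k r c := Finset.sum_nonneg fun c _ => k0 _ _
    have t6 : (1 - N r) * (∑ b ∈ G, h r a b * max 0 ((1 + P b r) * (1 - N r) - 1) - k r a)
        ≤ -N' r := by
      refine le_trans (mul_le_mul_of_nonneg_left (sub_le_sub_right ?_ _) (by linarith))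
        (hN r hr hS)
      exact Finset.sum_le_sum_of_subset_of_nonneg hG fun b hb _ =>
        mul_nonneg (h0 _ _ _) (le_max_left _ _)
    have t7 : 0 ≤ (-N' r - (1 - N r) * (∑ b ∈ G, h r a b
        * max 0 ((1 + P b r) * (1 - N r) - 1) - k r a)) * R (insert a G) r :=
      mul_nonneg (by linarith) hRa0
    have u1 : ((1 / 2) * ∑ b ∈ G, ∑ c ∈ G, h r b c) * U ≤ 0 :=
      mul_nonpos_of_nonneg_of_nonpos (by positivity) hU.le
    have u2 : (1 - N r) * (∑ b ∈ G, h r a b * (1 + P b r)) * U ≤ 0 :=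
      mul_nonpos_of_nonneg_of_nonpos (mul_nonneg (by linarith) t3) hU.le
    have u3 : (∑ c ∈ G, k r c) * U ≤ 0 := mul_nonpos_of_nonneg_of_nonpos t5 hU.le
    have e8 : (∑ c ∈ G, k r c) * R G r
        = (∑ c ∈ G, k r c) * ((1 - N r) * R (insert a G) r) + (∑ c ∈ G, k r c) * U := by
      have eU : R G r = (1 - N r) * R (insert a G) r + U := by rw [hUdef]; ring
      rw [eU]; ring
    nlinarith [t1, t2, t7, u1, u2, u3, e8]

end steps

/-- level 0 with signed lower functions: `N` is the smaller one of a lower function of the old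
form and of a signed function -/
structure L0q (h : ℝ → V → V → ℝ) (κ : ℝ → V → ℝ) (U : Finset V) (t : ℝ)
    (P P' N N' : V → ℝ → ℝ) : Prop where
  ex : ∃ Q Q' M M' : V → ℝ → ℝ, L0 h κ U t P P' Q Q' ∧ (∀ a r, N a r = min (M a r) (Q a r)) ∧
    ∃ S : Finset ℝ, ∀ a ∈ U, ContinuousOn (M a) (Icc 0 t) ∧ (∀ r ∈ Icc 0 t, M a r ≤ 1) ∧
      ∀ r ∈ Icc 0 t, r ∉ S → HasDerivAt (M a) (M' a r) r ∧
        (1 - M a r) * (∑ b ∈ U, h r a b * max 0 ((1 + P b r) * (1 - M a r) - 1) - κ r a)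
          ≤ -M' a r

section

variable {h : ℝ → V → V → ℝ} {κ : ℝ → V → ℝ} {U : Finset V} {t : ℝ} {P P' N N' : V → ℝ → ℝ}

theorem L0q.P0 (hL : L0q h κ U t P P' N N') : ∀ a, ∀ r ∈ Icc 0 t, 0 ≤ P a r := by
  obtain ⟨Q, Q', M, M', h1, -⟩ := hL.ex
  exact h1.P0

theorem L0q.N1 (hL : L0q h κ U t P P' N N') : ∀ a, ∀ r ∈ Icc 0 t, N a r ≤ 1 := by
  obtain ⟨Q, Q', M, M', h1, h2, -⟩ := hL.ex
  intro a r hr
  rw [h2]
  exact (min_le_right _ _).trans (h1.N1 a r hr)

theorem L0q.inf (hL : L0q h κ U t P P' N N')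
    (hs : ∀ t a b, h t a b = h t b a) (haa : ∀ t a, h t a a = 0) (h0 : ∀ t a b, 0 ≤ h t a b)
    (κ0 : ∀ r a, 0 ≤ κ r a) {Φ : Finset V → ℝ → ℝ} (hΦ : Wd h κ t Φ)
    (hend : 0 ≤ t → Inf0 Φ U P N t) : ∀ r ∈ Icc 0 t, Inf0 Φ U P N r := by
  obtain ⟨Q, Q', M, M', h1, h2, S, h3⟩ := hL.ex
  intro r hr
  have t0 : 0 ≤ t := hr.1.trans hr.2
  have tt : t ∈ Icc 0 t := ⟨t0, le_rfl⟩
  have en := hend t0
  have iQ : ∀ r ∈ Icc 0 t, Inf0 Φ U P Q r := h1.inf hs haa h0 κ0 (fun _ _ => le_rfl) le_rfl hΦ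
    fun _ G hG a ha => ⟨(en G hG a ha).1, le_trans (mul_le_mul_of_nonneg_right
      (by have := h2 a t; have := min_le_right (M a t) (Q a t); linarith) (hΦ.pos G t tt).le)
      (en G hG a ha).2⟩
  intro G hG a ha
  have haU := hG ha
  have hsub : G.erase a ⊆ U := (Finset.erase_subset _ _).trans hG
  have hins : insert a (G.erase a) = G := Finset.insert_erase ha
  have hna : a ∉ G.erase a := Finset.notMem_erase a G
  have h4 := stepNs S hs haa h0 κ0 hΦ.ev (H0 := G.erase a) hna (P := P) (N := M a) (N' := M' a)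
    (fun b _ => h1.P0 b) (fun G' hG' b hb r hr => (iQ r hr G' (hG'.trans hsub) b hb).1)
    (h3 a haU).1 (fun r hr hS => ((h3 a haU).2.2 r hr hS).1) (h3 a haU).2.1
    (fun G' hG' => by
      have hi : insert a G' ⊆ U := Finset.insert_subset haU (hG'.trans hsub)
      have h5 := (en (insert a G') hi a (Finset.mem_insert_self _ _)).2
      rw [Finset.erase_insert (fun hh => hna (hG' hh))] at h5
      refine le_trans (mul_le_mul_of_nonneg_right ?_ (hΦ.pos _ t tt).le) h5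
      have := h2 a t
      have := min_le_left (M a t) (Q a t)
      linarith)
    (fun r hr hS => by
      refine le_trans (mul_le_mul_of_nonneg_left (sub_le_sub_right ?_ _)
        (by linarith [(h3 a haU).2.1 r hr])) ((h3 a haU).2.2 r hr hS).2
      exact Finset.sum_le_sum_of_subset_of_nonneg hsub fun b hb _ =>
        mul_nonneg (h0 _ _ _) (le_max_left _ _))
    (G.erase a) Finset.Subset.rfl r hr
  rw [hins] at h4
  refine ⟨(iQ r hr G hG a ha).1, ?_⟩
  rw [h2]
  rcases le_total (M a r) (Q a r) with h5 | h5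
  · rw [min_eq_left h5]; exact h4
  · rw [min_eq_right h5]; exact (iQ r hr G hG a ha).2

end

/-- level 0 of a world with its majorants, signed lower functions -/
structure W0q (h : ℝ → V → V → ℝ) (A D : Finset V) (s t : ℝ) (U : Finset V)
    (Pa Pa' Na Na' P P' N N' : V → ℝ → ℝ) (T Am Bm : ℝ → V → V → ℝ) : Prop where
  La : L0q h (fun r v => ∑ w ∈ A, h r w v) U t Pa Pa' Na Na'
  L : L0q h (fun r v => ∑ w ∈ D, h r w v) U s P P' N N'
  Nt : ∀ e ∈ U, 0 ≤ Na e t
  mP : ∀ e ∈ U, Pa e s ≤ P e s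
  mN : ∀ e ∈ U, Na e s ≤ N e s
  Ta : ∀ r ∈ Icc 0 t, ∀ i ∈ U, ∀ j ∈ U, h r i j * Wf Pa r i j ≤ T r i j
  Aa : ∀ r ∈ Icc 0 t, ∀ i ∈ U, ∀ j ∈ U, h r i j * (Wf Pa r i j - 1) ≤ Am r i j
  Ba : ∀ r ∈ Icc 0 t, ∀ i ∈ U, ∀ j ∈ U, h r i j * (1 - Tf Na r i j) ≤ Bm r i j
  Td : ∀ r ∈ Icc 0 s, ∀ i ∈ U, ∀ j ∈ U, h r i j * Wf P r i j ≤ T r i j
  Ad : ∀ r ∈ Icc 0 s, ∀ i ∈ U, ∀ j ∈ U, h r i j * (Wf P r i j - 1) ≤ Am r i j
  Bd : ∀ r ∈ Icc 0 s, ∀ i ∈ U, ∀ j ∈ U, h r i j * (1 - Tf N r i j) ≤ Bm r i j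

end Pool.Agent.RZ.RCO
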