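import Pool.Agent.RZ.RCM.WldOf
import Pool.Agent.RZ.RCO.Cl3
import Pool.Agent.RZ.RCO.L0x
import Pool.Agent.RZ.RCO.Ns1

/-! Level 0 of a cell with signed lower functions (MP_73ccd0_lc). -/

namespace Pool.Agent.RZ.RCO

open Set Finset MeasureTheory Pool.Agent.RZ.RCRSHalf Pool.Agent.RZ.RCRSGen Pool.Agent.RZ.RCG
open Pool.Agent.RZ.RCM Pool.Agent.RZ.RCG.Ct Pool.Agent.RZ.RCN Pool.Agent.RZ.RCN.K

set_option linter.unusedSectionVars false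

variable {V : Type*} [Fintype V] [DecidableEq V]

/-- the majorant of the decreasing sources, signed lower functions -/
noncomputable def Bq (hb : ℝ → V → V → ℝ) (N : V → ℝ → ℝ) (r : ℝ) (e f : V) : ℝ :=
  hb r e f * max 0 (1 - (1 - N e r) * (1 - N f r))

/-- signed lower functions of a cell: `y` the exponents of the boost, `kl` a lower bound of the
killing -/
structure Sgn (hb : ℝ → V → V → ℝ) (D : Finset V) (τ α : ℝ) (y : V → ℝ → ℝ) (kl : V → ℝ → ℝ)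
    (S : Finset ℝ) (M M' : V → ℝ → ℝ) : Prop where
  c : ∀ e ∈ Dᶜ, ContinuousOn (M e) (Icc 0 τ)
  M1 : ∀ e ∈ Dᶜ, ∀ r ∈ Icc 0 τ, M e r ≤ 1
  Mt : ∀ e ∈ Dᶜ, ∀ r ∈ Icc α τ, 0 ≤ M e r
  d : ∀ e ∈ Dᶜ, ∀ r ∈ Icc 0 τ, r ∉ S → HasDerivAt (M e) (M' e r) r
  o : ∀ e ∈ Dᶜ, ∀ r ∈ Icc 0 τ, r ∉ S → (1 - M e r) * (∑ f ∈ Dᶜ, hb r e f
    * max 0 (Real.exp (y f r) * (1 - M e r) - 1) - kl e r) ≤ -M' e r

/-- the conditions of level 0 of a cell: exact old data and a signed lower function -/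
structure L0w (hb : ℝ → V → V → ℝ) (D : Finset V) (τ α : ℝ) (ζ : V → V → ℝ → ℝ)
    (Y Y' N N' : V → ℝ → ℝ) (kl : V → ℝ → ℝ) : Prop where
  ex : ∃ (Q Q' M M' : V → ℝ → ℝ) (S : Finset ℝ), L0v hb D τ ζ Y Y' Q Q' ∧
    Sgn hb D τ α (yv D ζ Y) kl S M M' ∧ ∀ e r, N e r = min (M e r) (Q e r)

variable {hb : ℝ → V → V → ℝ} {D : Finset V} {τ α : ℝ} {ζ : V → V → ℝ → ℝ}
  {Y Y' N N' : V → ℝ → ℝ} {kl : V → ℝ → ℝ}

theorem Sgn.mono {y y' : V → ℝ → ℝ} {S : Finset ℝ} {M M' : V → ℝ → ℝ}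
    (b0 : ∀ u v, ∀ r ∈ Icc 0 τ, 0 ≤ hb r u v)
    (h : Sgn hb D τ α y' kl S M M') (hy : ∀ f ∈ Dᶜ, ∀ r ∈ Icc 0 τ, y f r ≤ y' f r) :
    Sgn hb D τ α y kl S M M' where
  c := h.c
  M1 := h.M1
  Mt := h.Mt
  d := h.d
  o := fun e he r hr hS => by
    have m1 := h.M1 e he r hr
    refine le_trans (mul_le_mul_of_nonneg_left (sub_le_sub_right ?_ _) (by linarith))
      (h.o e he r hr hS)
    refine Finset.sum_le_sum fun f hf => mul_le_mul_of_nonneg_left ?_ (b0 e f r hr)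
    refine max_le_max le_rfl (sub_le_sub_right ?_ _)
    exact mul_le_mul_of_nonneg_right (Real.exp_le_exp.2 (hy f hf r hr)) (by linarith)

theorem L0w.b0 (h : L0w hb D τ α ζ Y Y' N N' kl) : ∀ u v, ∀ r ∈ Icc 0 τ, 0 ≤ hb r u v := by
  obtain ⟨Q, Q', M, M', S, h1, -⟩ := h.ex
  exact h1.b0

theorem L0w.ζ0 (h : L0w hb D τ α ζ Y Y' N N' kl) :
    ∀ w ∈ D, ∀ e, ∀ r ∈ Icc 0 τ, 0 ≤ ζ w e r := by
  obtain ⟨Q, Q', M, M', S, h1, -⟩ := h.ex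
  exact h1.ζ0

theorem L0w.Y0 (h : L0w hb D τ α ζ Y Y' N N' kl) : ∀ e, ∀ r ∈ Icc 0 τ, 0 ≤ Y e r := by
  obtain ⟨Q, Q', M, M', S, h1, -⟩ := h.ex
  exact h1.Y0

theorem L0w.dY (h : L0w hb D τ α ζ Y Y' N N' kl) :
    ∀ e ∈ Dᶜ, ∀ r ∈ Icc 0 τ, HasDerivAt (Y e) (Y' e r) r := by
  obtain ⟨Q, Q', M, M', S, h1, -⟩ := h.ex
  exact h1.dY

theorem L0w.Nt (h : L0w hb D τ α ζ Y Y' N N' kl) (α0 : 0 ≤ α) :
    ∀ e ∈ Dᶜ, ∀ r ∈ Icc α τ, 0 ≤ N e r := by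
  obtain ⟨Q, Q', M, M', S, h1, h2, h3⟩ := h.ex
  intro e he r hr
  rw [h3]
  exact le_min (h2.Mt e he r hr) (h1.N0 e r ⟨α0.trans hr.1, hr.2⟩)

theorem L0w.cN (h : L0w hb D τ α ζ Y Y' N N' kl) : ∀ e ∈ Dᶜ, ContinuousOn (N e) (Icc 0 τ) := by
  obtain ⟨Q, Q', M, M', S, h1, h2, h3⟩ := h.ex
  intro e he
  have e1 : N e = fun r => min (M e r) (Q e r) := by funext r; exact h3 e r
  rw [e1]
  exact ContinuousOn.inf (h2.c e he) fun r hr =>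
    (h1.dN e he r hr).continuousAt.continuousWithinAt

/-- **exact level 0 below piecewise smooth bounds, with a signed lower function** -/
theorem exists_L0w (S : Finset ℝ) (hτ : 0 ≤ τ)
    (b0 : ∀ u v, ∀ r ∈ Icc 0 τ, 0 ≤ hb r u v)
    (cb : ∀ u ∈ Dᶜ, ∀ v ∈ Dᶜ, ContinuousOn (fun r => hb r u v) (Icc 0 τ))
    (ζ0 : ∀ w ∈ D, ∀ e, ∀ r ∈ Icc 0 τ, 0 ≤ ζ w e r)
    (cζ : ∀ w ∈ D, ∀ e, ContinuousOn (ζ w e) (Icc 0 τ))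
    {φY φY' φN φN' M M' : V → ℝ → ℝ}
    (cY : ∀ e ∈ Dᶜ, ContinuousOn (φY e) (Icc 0 τ)) (cN : ∀ e ∈ Dᶜ, ContinuousOn (φN e) (Icc 0 τ))
    (dY : ∀ e ∈ Dᶜ, ∀ r ∈ Icc 0 τ, r ∉ S → HasDerivAt (φY e) (φY' e r) r)
    (dN : ∀ e ∈ Dᶜ, ∀ r ∈ Icc 0 τ, r ∉ S → HasDerivAt (φN e) (φN' e r) r)
    (Y0 : ∀ e ∈ Dᶜ, ∀ r ∈ Icc 0 τ, 0 ≤ φY e r) (N0 : ∀ e ∈ Dᶜ, ∀ r ∈ Icc 0 τ, 0 ≤ φN e r)
    (N1 : ∀ e ∈ Dᶜ, ∀ r ∈ Icc 0 τ, φN e r ≤ 1)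
    (oY : ∀ e ∈ Dᶜ, ∀ r ∈ Icc 0 τ, r ∉ S → ∑ f ∈ Dᶜ, hb r e f * φN f r ≤ -φY' e r)
    (oN : ∀ e ∈ Dᶜ, ∀ r ∈ Icc 0 τ, r ∉ S →
      ∑ f ∈ Dᶜ, hb r e f * (Real.exp (yv D ζ φY f r) - 1) ≤ -φN' e r)
    (hM : Sgn hb D τ α (yv D ζ φY) kl S M M') :
    ∃ Y Y' N N' : V → ℝ → ℝ, L0w hb D τ α ζ Y Y' N N' kl ∧
      ∀ e ∈ Dᶜ, ∀ r ∈ Icc 0 τ, Y e r ≤ φY e r ∧ N e r ≤ φN e r ∧ N e r ≤ M e r := by
  obtain ⟨Y, Y', Q, Q', h1, h2⟩ := exists_L0v S hτ b0 cb ζ0 cζ cY cN dY dN Y0 N0 N1 oY oN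
  refine ⟨Y, Y', fun e r => min (M e r) (Q e r), Q', ⟨Q, Q', M, M', S, h1,
    hM.mono b0 fun f hf r hr => add_le_add le_rfl (h2 f hf r hr).1, fun _ _ => rfl⟩,
    fun e he r hr => ⟨(h2 e he r hr).1, (min_le_right _ _).trans (h2 e he r hr).2,
      min_le_left _ _⟩⟩

variable {h : ℝ → V → V → ℝ} {H : V → V → ℝ → ℝ}

/-- the signed data of one phase -/
theorem Sgn.phase {S : Finset ℝ} {M M' : V → ℝ → ℝ} {y : V → ℝ → ℝ}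
    (hM : Sgn hb D τ α y kl S M M') {s : ℝ} (hsτ : s ≤ τ)
    (h0 : ∀ r u v, 0 ≤ h r u v)
    (hle : ∀ u v, ∀ r ∈ Icc 0 s, h r u v ≤ hb r u v) {κ : ℝ → V → ℝ} {P : V → ℝ → ℝ}
    (hP : ∀ e, ∀ r ∈ Icc 0 s, 0 ≤ P e r ∧ P e r ≤ Real.exp (y e r) - 1)
    (hκ : ∀ e ∈ Dᶜ, ∀ r ∈ Icc 0 s, kl e r ≤ κ r e) :
    ∀ a ∈ Dᶜ, ContinuousOn (M a) (Icc 0 s) ∧ (∀ r ∈ Icc 0 s, M a r ≤ 1) ∧
      ∀ r ∈ Icc 0 s, r ∉ S → HasDerivAt (M a) (M' a r) r ∧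
        (1 - M a r) * (∑ b ∈ Dᶜ, h r a b * max 0 ((1 + P b r) * (1 - M a r) - 1) - κ r a)
          ≤ -M' a r := by
  have m : ∀ r ∈ Icc 0 s, r ∈ Icc 0 τ := fun r hr => ⟨hr.1, hr.2.trans hsτ⟩
  intro a ha
  refine ⟨(hM.c a ha).mono fun r hr => m r hr, fun r hr => hM.M1 a ha r (m r hr),
    fun r hr hS => ⟨hM.d a ha r (m r hr) hS, ?_⟩⟩
  have m1 := hM.M1 a ha r (m r hr)
  refine le_trans (mul_le_mul_of_nonneg_left (sub_le_sub ?_ (hκ a ha r hr)) (by linarith))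
    (hM.o a ha r (m r hr) hS)
  refine Finset.sum_le_sum fun b _ => ?_
  refine mul_le_mul (hle a b r hr) (max_le_max le_rfl (sub_le_sub_right ?_ _)) (le_max_left _ _)
    ((h0 r a b).trans (hle a b r hr))
  exact mul_le_mul_of_nonneg_right (by linarith [(hP b r hr).2]) (by linarith)

/-- **level 0 of the world for all times of the cell** -/
theorem L0w.w0 (hL : L0w hb D τ α ζ Y Y' N N' kl) (hh : Haz h H) (α0 : 0 ≤ α) {t : ℝ}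
    (ht : t ∈ Icc α τ) (hle : ∀ u v, ∀ r ∈ Icc 0 t, h r u v ≤ hb r u v) {A : Finset V}
    (hAD : A ⊆ D) {s : ℝ} (hs : s ∈ Icc 0 t)
    (hζa : ∀ w ∈ A, ∀ e, ∀ r ∈ Icc 0 t, H w e t - H w e r ≤ ζ w e r)
    (hζs : ∀ w ∈ D, w ∉ A → ∀ e, ∀ r ∈ Icc 0 s, H w e s - H w e r ≤ ζ w e r)
    (hkl : ∀ e ∈ Dᶜ, ∀ r ∈ Icc 0 t, kl e r ≤ ∑ w ∈ A, h r w e)
    {T Am Bm : ℝ → V → V → ℝ}
    (hT : ∀ r ∈ Icc 0 τ, ∀ i ∈ Dᶜ, ∀ j ∈ Dᶜ, RCM.Tb hb (yv D ζ Y) r i j ≤ T r i j)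
    (hA : ∀ r ∈ Icc 0 τ, ∀ i ∈ Dᶜ, ∀ j ∈ Dᶜ, RCM.Ab hb (yv D ζ Y) r i j ≤ Am r i j)
    (hB : ∀ r ∈ Icc 0 τ, ∀ i ∈ Dᶜ, ∀ j ∈ Dᶜ, Bq hb N r i j ≤ Bm r i j) :
    ∃ Pa Pa' Na Na' P P' Nd Nd' : V → ℝ → ℝ,
      W0q h A D s t Dᶜ Pa Pa' Na Na' P P' Nd Nd' T Am Bm := by
  obtain ⟨Q, Q', M, M', S, hv, hM, hN⟩ := hL.ex
  have m : ∀ r ∈ Icc 0 s, r ∈ Icc 0 t := fun r hr => ⟨hr.1, hr.2.trans hs.2⟩
  have mτ : ∀ r ∈ Icc 0 t, r ∈ Icc 0 τ := fun r hr => ⟨hr.1, hr.2.trans ht.2⟩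
  obtain ⟨Pa, Pa', La, ea, ba⟩ := hv.phase hh ht.2 hle hAD (ρ := fun _ => t)
    (fun _ _ => le_rfl) hζa
  obtain ⟨P, P', Ld, ed, bd⟩ := hv.phase hh (hs.2.trans ht.2)
    (fun u v r hr => hle u v r (m r hr)) (Finset.Subset.refl D)
    (ρ := fun w => if w ∈ A then t else s)
    (fun w _ => by split_ifs; exacts [hs.2, le_rfl])
    (fun w hw e r hr => by
      by_cases hA : w ∈ A
      · rw [if_pos hA]; exact hζa w hA e r (m r hr)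
      · rw [if_neg hA]; exact hζs w hw hA e r hr)
  have key : ∀ {R : V → ℝ → ℝ} {r : ℝ}, r ∈ Icc 0 t → (∀ e, 0 ≤ R e r ∧
      R e r ≤ Real.exp (yv D ζ Y e r) - 1) → ∀ i ∈ Dᶜ, ∀ j ∈ Dᶜ,
      h r i j * RCM.Wf R r i j ≤ T r i j ∧ h r i j * (RCM.Wf R r i j - 1) ≤ Am r i j := by
    intro R r hr hR i hi j hj
    have a1 : RCM.Wf R r i j ≤ Real.exp (yv D ζ Y i r + yv D ζ Y j r) := by
      unfold RCM.Wf
      rw [Real.exp_add]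
      exact mul_le_mul (by linarith [(hR i).2]) (by linarith [(hR j).2])
        (by linarith [(hR j).1]) (Real.exp_pos _).le
    have a2 : 1 ≤ RCM.Wf R r i j := by
      unfold RCM.Wf
      nlinarith [(hR i).1, (hR j).1]
    have b0 := hv.b0 i j r (mτ r hr)
    exact ⟨le_trans (mul_le_mul (hle i j r hr) a1 (by linarith) b0) (hT r (mτ r hr) i hi j hj),
      le_trans (mul_le_mul (hle i j r hr) (by linarith) (by linarith) b0)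
        (hA r (mτ r hr) i hi j hj)⟩
  have kB : ∀ r ∈ Icc 0 t, ∀ i ∈ Dᶜ, ∀ j ∈ Dᶜ, h r i j * (1 - Tf N r i j)
      ≤ Bm r i j := by
    intro r hr i hi j hj
    refine le_trans ?_ (hB r (mτ r hr) i hi j hj)
    unfold Bq Tf
    exact (mul_le_mul_of_nonneg_left (le_max_right _ _) (hh.nonneg r i j)).trans
      (mul_le_mul_of_nonneg_right (hle i j r hr) (le_max_left _ _))
  have h0 : ∀ r u v, 0 ≤ h r u v := fun r u v => hh.nonneg r u v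
  refine ⟨Pa, Pa', N, N', P, P', N, N',
    ⟨Q, Q', M, M', La, hN, S, hM.phase ht.2 h0 hle ba hkl⟩,
    ⟨Q, Q', M, M', Ld, hN, S, hM.phase (hs.2.trans ht.2) h0
      (fun u v r hr => hle u v r (m r hr)) bd fun e he r hr =>
        (hkl e he r (m r hr)).trans (Finset.sum_le_sum_of_subset_of_nonneg hAD
          fun w _ _ => h0 _ _ _)⟩,
    fun e he => hL.Nt α0 e he t ht, fun e _ => ?_, fun e _ => le_rfl,
    fun r hr i hi j hj => (key hr (fun e => ba e r hr) i hi j hj).1,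
    fun r hr i hi j hj => (key hr (fun e => ba e r hr) i hi j hj).2,
    fun r hr i hi j hj => kB r hr i hi j hj,
    fun r hr i hi j hj => (key (m r hr) (fun e => bd e r hr) i hi j hj).1,
    fun r hr i hi j hj => (key (m r hr) (fun e => bd e r hr) i hi j hj).2,
    fun r hr i hi j hj => kB r (m r hr) i hi j hj⟩
  have hss : s ∈ Icc 0 s := ⟨hs.1, le_rfl⟩
  rw [ea e s hs, ed e s hss]
  have e1 : ∑ w ∈ A, (H w e t - H w e s)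
      ≤ ∑ w ∈ D, (H w e (if w ∈ A then t else s) - H w e s) := by
    refine le_trans (le_of_eq ?_) (Finset.sum_le_sum_of_subset_of_nonneg hAD fun w _ hw => ?_)
    · exact Finset.sum_congr rfl fun w hw => by rw [if_pos hw]
    · rw [if_neg hw, sub_self]
  have := Real.exp_le_exp.2 (add_le_add_left e1 (Y e s))
  linarith

/-! ### the class of hazards of a cell -/

section

variable {Z : Hzd} {x : V → V → ℝ} {P : V → Prop} [DecidablePred P] {A : Finset V} {σ : ℝ}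
  {T Am Bm : ℝ → V → V → ℝ}

variable (Z x P) in
/-- the lower bound of the killing by the removed vertices `A` -/
noncomputable def klw (A : Finset V) (e : V) (r : ℝ) : ℝ :=
  if P e then ∑ w ∈ A, (if P w then max 0 (x w e * Z.hl (x w e) r) else 0) else 0

theorem klw_nonneg (e : V) (r : ℝ) : 0 ≤ klw Z x P A e r := by
  unfold klw
  split_ifs
  · refine Finset.sum_nonneg fun w _ => ?_
    split_ifs
    · exact le_max_left _ _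
    · exact le_rfl
  · exact le_rfl

theorem klw_le {t : ℝ} (hw : Wh Z x P h H t) (e : V) {r : ℝ} (hr : r ∈ Icc 0 t) :
    klw Z x P A e r ≤ ∑ w ∈ A, h r w e := by
  unfold klw
  split_ifs with he
  · refine Finset.sum_le_sum fun w _ => ?_
    split_ifs with hP
    · exact max_le (hw.hh.nonneg r w e) (hw.lor hP he hr)
    · exact hw.hh.nonneg r w e
  · exact Finset.sum_nonneg fun w _ => hw.hh.nonneg r w e

variable (Z x P) in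
/-- level 0 with fixed majorants for all times of a cell, signed lower functions -/
def W0cq (A D : Finset V) (α τ σ : ℝ) (T Am Bm : ℝ → V → V → ℝ) : Prop :=
  ∀ (h : ℝ → V → V → ℝ) (H : V → V → ℝ → ℝ) (t : ℝ), Wh Z x P h H t → t ∈ Icc α τ →
    ∀ s ∈ Icc 0 t, s ≤ σ → ∃ Pa Pa' Na Na' Q Q' N N' : V → ℝ → ℝ,
      W0q h A D s t Dᶜ Pa Pa' Na Na' Q Q' N N' T Am Bm

/-- level 0 from the vertex dependent system -/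
theorem w0cq_ofv (hL : L0w (Z.hh x P) D τ α ζ Y Y' N N' (klw Z x P A)) (hAD : A ⊆ D)
    (α0 : 0 ≤ α)
    (hζa : ∀ w ∈ A, ∀ e, ∀ t ∈ Icc α τ, ∀ r ∈ Icc 0 t, Z.Hh x P t w e r ≤ ζ w e r)
    (hζs : ∀ w ∈ D, w ∉ A → ∀ e, ∀ s ∈ Icc 0 σ, s ≤ τ → ∀ r ∈ Icc 0 s,
      Z.Hh x P s w e r ≤ ζ w e r)
    (hT : ∀ r ∈ Icc 0 τ, ∀ i ∈ Dᶜ, ∀ j ∈ Dᶜ, RCM.Tb (Z.hh x P) (yv D ζ Y) r i j ≤ T r i j)
    (hA : ∀ r ∈ Icc 0 τ, ∀ i ∈ Dᶜ, ∀ j ∈ Dᶜ, RCM.Ab (Z.hh x P) (yv D ζ Y) r i j ≤ Am r i j)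
    (hB : ∀ r ∈ Icc 0 τ, ∀ i ∈ Dᶜ, ∀ j ∈ Dᶜ, Bq (Z.hh x P) N r i j ≤ Bm r i j) :
    W0cq Z x P A D α τ σ T Am Bm := by
  intro h H t hw ht s hs hσ
  exact hL.w0 hw.hh α0 ht hw.le hAD hs
    (fun w hwA e r hr => (hw.Hle w e t ⟨hs.1.trans hs.2, le_rfl⟩ r hr).trans
      (hζa w hwA e t ht r hr))
    (fun w hwD hwA e r hr => (hw.Hle w e s hs r hr).trans
      (hζs w hwD hwA e s ⟨hs.1, hσ⟩ (hs.2.trans ht.2) r hr))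
    (fun e _ r hr => klw_le hw e hr) hT hA hB

end

end Pool.Agent.RZ.RCO
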