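import Pool.Agent.RZ.RCN.Cst
import Pool.Agent.RZ.RCO.Ns2

/-! Route P: the majorants of a world in a cell from level 0 (MP_73ccd0_lc). -/

namespace Pool.Agent.RZ.RCO

open Set Finset MeasureTheory Pool.Agent.RZ.RCRSHalf Pool.Agent.RZ.RCG Pool.Agent.RZ.RCG.Ct
open Pool.Agent.RZ.RCN Pool.Agent.RZ.RCN.K

set_option linter.unusedSectionVars false

variable {V : Type*} [Fintype V] [DecidableEq V]

/-- a function of pairs, zero at the removed vertices -/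
def cut (D : Finset V) (f : ℝ → V → V → ℝ) (r : ℝ) (u v : V) : ℝ :=
  if u ∈ D ∨ v ∈ D then 0 else f r u v

section cut

variable {D : Finset V} {f g : ℝ → V → V → ℝ} {r : ℝ} {u v : V}

theorem cut_eq (hu : u ∈ Dᶜ) (hv : v ∈ Dᶜ) : cut D f r u v = f r u v := by
  unfold cut
  rw [if_neg]
  rintro (h | h)
  · exact (Finset.mem_compl.1 hu) h
  · exact (Finset.mem_compl.1 hv) h

theorem cut_nonneg (h : ∀ u ∈ Dᶜ, ∀ v ∈ Dᶜ, 0 ≤ f r u v) (u v : V) : 0 ≤ cut D f r u v := by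
  unfold cut
  split_ifs with hc
  · exact le_rfl
  · rw [not_or] at hc
    exact h u (Finset.mem_compl.2 hc.1) v (Finset.mem_compl.2 hc.2)

theorem cut_symm (h : ∀ u v, f r u v = f r v u) (u v : V) : cut D f r u v = cut D f r v u := by
  unfold cut
  by_cases hc : u ∈ D ∨ v ∈ D
  · rw [if_pos hc, if_pos hc.symm]
  · rw [if_neg hc, if_neg fun h' => hc h'.symm, h]

theorem cut_cont {S : Set ℝ} (h : ∀ u ∈ Dᶜ, ∀ v ∈ Dᶜ, ContinuousOn (fun r => f r u v) S)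
    (u v : V) : ContinuousOn (fun r => cut D f r u v) S := by
  unfold cut
  by_cases hc : u ∈ D ∨ v ∈ D
  · simp only [if_pos hc]
    exact continuousOn_const
  · simp only [if_neg hc]
    rw [not_or] at hc
    exact h u (Finset.mem_compl.2 hc.1) v (Finset.mem_compl.2 hc.2)

end cut

/-- level 0 of a world `(A, D)` in a cell: `ζ w e` majorises the killing of the removed `w` -/
structure Dt0 (Z : Hzd) (x : V → V → ℝ) (P : V → Prop) [DecidablePred P] (A D : Finset V)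
    (α τ σ : ℝ) (ζ : V → V → ℝ → ℝ) (Y Y' N N' : V → ℝ → ℝ) : Prop where
  AD : A ⊆ D
  α0 : 0 ≤ α
  L : L0w (Z.hh x P) D τ α ζ Y Y' N N' (klw Z x P A)
  cζ : ∀ w ∈ D, ∀ e, ContinuousOn (ζ w e) (Icc 0 τ)
  ζa : ∀ w ∈ A, ∀ e, ∀ t ∈ Icc α τ, ∀ r ∈ Icc 0 t, Z.Hh x P t w e r ≤ ζ w e r
  ζs : ∀ w ∈ D, w ∉ A → ∀ e, ∀ s ∈ Icc 0 σ, s ≤ τ → ∀ r ∈ Icc 0 s,
    Z.Hh x P s w e r ≤ ζ w e r

/-- the removal rates -/
noncomputable def Tc0 (hb : ℝ → V → V → ℝ) (D : Finset V) (ζ : V → V → ℝ → ℝ) (Y : V → ℝ → ℝ) :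
    ℝ → V → V → ℝ := cut D (RCM.Tb hb (yv D ζ Y))

/-- the growing sources -/
noncomputable def Ac0 (hb : ℝ → V → V → ℝ) (D : Finset V) (ζ : V → V → ℝ → ℝ) (Y : V → ℝ → ℝ) :
    ℝ → V → V → ℝ := cut D (RCM.Ab hb (yv D ζ Y))

/-- the decreasing sources -/
noncomputable def Bc0 (hb : ℝ → V → V → ℝ) (D : Finset V) (N : V → ℝ → ℝ) :
    ℝ → V → V → ℝ := cut D (Bq hb N)

variable {Z : Hzd} {x : V → V → ℝ} {P : V → Prop} [DecidablePred P] {sl : ℝ → ℝ → ℝ}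
variable {A D : Finset V} {α τ σ : ℝ} {ζ : V → V → ℝ → ℝ} {Y Y' N N' : V → ℝ → ℝ}

theorem Dt0.w (h : Dt0 Z x P A D α τ σ ζ Y Y' N N') :
    W0cq Z x P A D α τ σ (Tc0 (Z.hh x P) D ζ Y) (Ac0 (Z.hh x P) D ζ Y) (Bc0 (Z.hh x P) D N) :=
  w0cq_ofv h.L h.AD h.α0 h.ζa h.ζs (fun _ _ _ hi _ hj => (cut_eq hi hj).ge)
    (fun _ _ _ hi _ hj => (cut_eq hi hj).ge) fun _ _ _ hi _ hj => (cut_eq hi hj).ge

theorem Dt0.y0 (h : Dt0 Z x P A D α τ σ ζ Y Y' N N') (e : V) {r : ℝ} (hr : r ∈ Icc 0 τ) :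
    0 ≤ yv D ζ Y e r :=
  add_nonneg (Finset.sum_nonneg fun w hw => h.L.ζ0 w hw e r hr) (h.L.Y0 e r hr)

theorem Dt0.cy (h : Dt0 Z x P A D α τ σ ζ Y Y' N N') {e : V} (he : e ∈ Dᶜ) :
    ContinuousOn (yv D ζ Y e) (Icc 0 τ) :=
  (continuousOn_finsetSum _ fun w hw => h.cζ w hw e).add fun r hr =>
    (h.L.dY e he r hr).continuousAt.continuousWithinAt

theorem Dt0.dat (h : Dt0 Z x P A D α τ σ ζ Y Y' N N') (hZ : Z.Ok sl) (hx : RCG.Ct.Wt x P 1)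
    (τ1 : τ ≤ 1) : GDat Dᶜ τ (Tc0 (Z.hh x P) D ζ Y) (Ac0 (Z.hh x P) D ζ Y)
      (Bc0 (Z.hh x P) D N) := by
  have hc : ∀ u v, ContinuousOn (fun r => Z.hh x P r u v) (Icc 0 τ) := fun u v =>
    (hZ.hh_cont hx u v).mono (Icc_subset_Icc_right τ1)
  have cE : ∀ u ∈ Dᶜ, ∀ v ∈ Dᶜ, ContinuousOn
      (fun r => Real.exp (yv D ζ Y u r + yv D ζ Y v r)) (Icc 0 τ) := fun u hu v hv =>
    Real.continuous_exp.comp_continuousOn ((h.cy hu).add (h.cy hv))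
  have cN : ∀ u ∈ Dᶜ, ContinuousOn (N u) (Icc 0 τ) := h.L.cN
  have s0 : ∀ r u v, Z.hh x P r u v = Z.hh x P r v u := fun r u v => Z.hh_symm hx r u v
  refine ⟨fun r hr => cut_nonneg fun u _ v _ => mul_nonneg (h.L.b0 u v r hr) (Real.exp_pos _).le,
    fun r hr => cut_nonneg fun u _ v _ => mul_nonneg (h.L.b0 u v r hr)
      (sub_nonneg.2 (Real.one_le_exp (add_nonneg (h.y0 u hr) (h.y0 v hr)))),
    fun r hr => cut_nonneg fun u _ v _ => mul_nonneg (h.L.b0 u v r hr) (le_max_left _ _),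
    fun r _ => cut_symm fun u v => ?_, fun r _ => cut_symm fun u v => ?_,
    fun r _ => cut_symm fun u v => ?_,
    cut_cont fun u hu v hv => (hc u v).mul (cE u hu v hv),
    cut_cont fun u hu v hv => (hc u v).mul ((cE u hu v hv).sub continuousOn_const),
    cut_cont fun u hu v hv => (hc u v).mul (ContinuousOn.sup continuousOn_const
      (continuousOn_const.sub ((continuousOn_const.sub (cN u hu)).mul
        (continuousOn_const.sub (cN v hv)))))⟩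
  · unfold RCM.Tb
    rw [s0, add_comm]
  · unfold RCM.Ab
    rw [s0, add_comm]
  · unfold Bq
    rw [s0, mul_comm (1 - N u r)]

/-! ### the standard killing -/

open Classical in
/-- the killing of the removed vertices: those in `A` up to `τ`, the others up to `σ` -/
noncomputable def zst (Z : Hzd) (x : V → V → ℝ) (P : V → Prop) [DecidablePred P] (A : Finset V)
    (τ σ : ℝ) (w e : V) (r : ℝ) : ℝ :=
  if w ∈ A then Z.Hh x P τ w e r else Z.Hh x P σ w e (min r σ)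

theorem Hh_mono (hZ : Z.Ok sl) (hx : RCG.Ct.Wt x P 1) (u v : V) {r t τ : ℝ} (hr : 0 ≤ r)
    (hrt : r ≤ t) (htτ : t ≤ τ) (τ1 : τ ≤ 1) : Z.Hh x P t u v r ≤ Z.Hh x P τ u v r := by
  have ht : t ∈ Icc (0 : ℝ) τ := ⟨hr.trans hrt, htτ⟩
  have h1 := hZ.Hh_nonneg hx (t := τ) ⟨ht.1.trans htτ, τ1⟩ u v ht
  have e : Z.Hh x P τ u v r = Z.Hh x P t u v r + Z.Hh x P τ u v t := by
    unfold Hzd.Hh
    split_ifs <;> ring
  linarith

theorem zst_nonneg (hZ : Z.Ok sl) (hx : RCG.Ct.Wt x P 1) (σ0 : 0 ≤ σ) (στ : σ ≤ τ) (τ1 : τ ≤ 1)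
    (w e : V) {r : ℝ} (hr : r ∈ Icc 0 τ) : 0 ≤ zst Z x P A τ σ w e r := by
  unfold zst
  split_ifs
  · exact hZ.Hh_nonneg hx ⟨hr.1.trans hr.2, τ1⟩ w e hr
  · exact hZ.Hh_nonneg hx ⟨σ0, στ.trans τ1⟩ w e ⟨le_min hr.1 σ0, min_le_right _ _⟩

theorem zst_cont (hZ : Z.Ok sl) (hx : RCG.Ct.Wt x P 1) (σ0 : 0 ≤ σ) (στ : σ ≤ τ) (τ1 : τ ≤ 1)
    (w e : V) : ContinuousOn (zst Z x P A τ σ w e) (Icc 0 τ) := by
  have c1 : ∀ t, ContinuousOn (Z.Hh x P t w e) (Icc 0 1) := fun t r hr =>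
    (hZ.Hh_deriv hx w e hr).continuousAt.continuousWithinAt
  unfold zst
  split_ifs
  · exact (c1 τ).mono (Icc_subset_Icc_right τ1)
  · exact (c1 σ).comp (by fun_prop) fun r hr => ⟨le_min hr.1 σ0, (min_le_right _ _).trans
      (στ.trans τ1)⟩

/-- level 0 with the standard killing -/
theorem Dt0.std (hZ : Z.Ok sl) (hx : RCG.Ct.Wt x P 1) (σ0 : 0 ≤ σ) (στ : σ ≤ τ)
    (τ1 : τ ≤ 1) (hAD : A ⊆ D) (α0 : 0 ≤ α)
    (hL : L0w (Z.hh x P) D τ α (zst Z x P A τ σ) Y Y' N N' (klw Z x P A)) :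
    Dt0 Z x P A D α τ σ (zst Z x P A τ σ) Y Y' N N' where
  AD := hAD
  α0 := α0
  L := hL
  cζ := fun w _ e => zst_cont hZ hx σ0 στ τ1 w e
  ζa := fun w hw e t ht r hr => by
    unfold zst
    rw [if_pos hw]
    exact Hh_mono hZ hx w e hr.1 hr.2 ht.2 τ1
  ζs := fun w _ hwA e s hs _ r hr => by
    unfold zst
    rw [if_neg hwA, min_eq_left (hr.2.trans hs.2)]
    exact Hh_mono hZ hx w e hr.1 hr.2 hs.2 (στ.trans τ1)

end Pool.Agent.RZ.RCO
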