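import Pool.Agent.RZ.RCO.G12I
import Pool.Agent.RZ.RCO.Hf3

/-! Weighted row bounds of the F-indexed system (MP_73ccd0_lc). -/

namespace Pool.Agent.RZ.RCO

open Set Finset Pool.Agent.RZ.RCM

set_option linter.unusedSectionVars false

variable {V : Type*} [Fintype V] [DecidableEq V]

/-- the weights and the row bounds used at the neighbours: any functions implied by the bounds of
the family (a member, the least one, a convex combination, also depending on the vertex, on the set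
and on the time) -/
structure VrR (V Λ : Type*) where
  w : Λ → V → V → ℝ → ℝ
  φ : Bool → Λ → V → Finset V → ℝ → ℝ

/-- the bounds used at the neighbours are implied by the family: for every vertex, set and time
some member has larger weights and a smaller bound -/
def VrR.Im {Λ : Type*} (π : VrR V Λ) (U : Finset V) (τ : ℝ) (S : Finset ℝ)
    (w : Λ → V → V → ℝ → ℝ) (φ : Bool → Λ → V → Finset V → ℝ → ℝ) : Prop :=
  ∀ s l, ∀ b ∈ U, ∀ G ⊆ U, b ∉ G → ∀ r ∈ Icc 0 τ, r ∉ S →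
    ∃ m, (∀ j ∈ G, π.w l b j r ≤ w m b j r) ∧ φ s m b G r ≤ π.φ s l b G r

/-- scalar data of the row bounds
`∑ j ∈ F, w l i j r * g_s (F.erase j) i j r ≤ φ s l i F r` (`i ∉ F`) -/
structure RDatF (U : Finset V) (τ : ℝ) (S : Finset ℝ) (T A B : ℝ → V → V → ℝ) {Λ : Type*}
    [Fintype Λ] (π : VrR V Λ)
    (w w' : Λ → V → V → ℝ → ℝ) (φ φ' : Bool → Λ → V → Finset V → ℝ → ℝ)
    (Gp Gm : Λ → Λ → V → Finset V → ℝ → ℝ) (α β : Λ → V → Finset V → ℝ → ℝ) : Prop where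
  cw : ∀ l, ∀ i ∈ U, ∀ j ∈ U, ContinuousOn (w l i j) (Icc 0 τ)
  dw : ∀ l, ∀ i ∈ U, ∀ j ∈ U, ∀ r ∈ Icc 0 τ, r ∉ S → HasDerivAt (w l i j) (w' l i j r) r
  w0 : ∀ l, ∀ i ∈ U, ∀ j ∈ U, ∀ r ∈ Icc 0 τ, 0 ≤ w l i j r
  w1 : ∀ l, ∀ i ∈ U, ∀ j ∈ U, ∀ r ∈ Icc 0 τ, r ∉ S → 0 ≤ w' l i j r
  wπ : ∀ l, ∀ i ∈ U, ∀ b ∈ U, ∀ j ∈ U, i ≠ b → i ≠ j → b ≠ j → ∀ r ∈ Icc 0 τ, r ∉ S →
    w l i j r ≤ π.w l b j r
  hπ : π.Im U τ S w φ
  cφ : ∀ s l, ∀ i ∈ U, ∀ F ⊆ U, i ∉ F → ContinuousOn (φ s l i F) (Icc 0 τ)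
  dφ : ∀ s l, ∀ i ∈ U, ∀ F ⊆ U, i ∉ F → ∀ r ∈ Icc 0 τ, r ∉ S →
    HasDerivAt (φ s l i F) (φ' s l i F r) r
  φ0 : ∀ s l, ∀ i ∈ U, ∀ F ⊆ U, i ∉ F → ∀ r ∈ Icc 0 τ, 0 ≤ φ s l i F r
  Gp0 : ∀ l m, ∀ i ∈ U, ∀ F ⊆ U, i ∉ F → ∀ r ∈ Icc 0 τ, 0 ≤ Gp l m i F r
  Gm0 : ∀ l m, ∀ i ∈ U, ∀ F ⊆ U, i ∉ F → ∀ r ∈ Icc 0 τ, 0 ≤ Gm l m i F r
  hα : ∀ l, ∀ i ∈ U, ∀ F ⊆ U, i ∉ F → ∀ r ∈ Icc 0 τ, r ∉ S →
    ∑ j ∈ F, w l i j r * A r i j ≤ α l i F r
  hβ : ∀ l, ∀ i ∈ U, ∀ F ⊆ U, i ∉ F → ∀ r ∈ Icc 0 τ, r ∉ S →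
    ∑ j ∈ F, w l i j r * B r i j ≤ β l i F r
  hGp : ∀ l, ∀ i ∈ U, ∀ F ⊆ U, i ∉ F → ∀ x ∈ F, ∀ r ∈ Icc 0 τ, r ∉ S →
    KF (T r) (fun y G => π.φ true l y G r) F x ≤ ∑ m, Gp l m i F r * w m i x r
  hGm : ∀ l, ∀ i ∈ U, ∀ F ⊆ U, i ∉ F → ∀ x ∈ F, ∀ r ∈ Icc 0 τ, r ∉ S →
    ∑ j ∈ F.erase x, w l i j r * T r j x + KF (T r) (fun y G => π.φ false l y G r) F x
      ≤ ∑ m, Gm l m i F r * w m i x r
  sp : ∀ l, ∀ i ∈ U, ∀ F ⊆ U, i ∉ F → ∀ r ∈ Icc 0 τ, r ∉ S →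
    α l i F r + ∑ b ∈ F, T r i b * π.φ false l b (F.erase b) r
      + ∑ m, (Gp l m i F r * φ true m i F r + Gm l m i F r * φ false m i F r)
      ≤ -φ' true l i F r
  sm : ∀ l, ∀ i ∈ U, ∀ F ⊆ U, i ∉ F → ∀ r ∈ Icc 0 τ, r ∉ S →
    β l i F r + ∑ b ∈ F, T r i b * π.φ true l b (F.erase b) r
      + ∑ m, (Gp l m i F r * φ false m i F r + Gm l m i F r * φ true m i F r)
      ≤ -φ' false l i F r

variable {U : Finset V} {T A B : ℝ → V → V → ℝ} {τ : ℝ} {S : Finset ℝ} {Λ : Type*} [Fintype Λ]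
  {π : VrR V Λ} {w w' : Λ → V → V → ℝ → ℝ} {φ φ' : Bool → Λ → V → Finset V → ℝ → ℝ}
  {Gp Gm : Λ → Λ → V → Finset V → ℝ → ℝ} {α β : Λ → V → Finset V → ℝ → ℝ}

/-- the row predicate -/
def RowPF (U : Finset V) (w : Λ → V → V → ℝ → ℝ) (φ : Bool → Λ → V → Finset V → ℝ → ℝ) (r : ℝ)
    (u : Bool × Finset V × V × V → ℝ) : Prop :=
  ((FSym U u ∧ FMon U u) ∧ ∀ q, 0 ≤ u q) ∧ ∀ s l, ∀ i ∈ U, ∀ F ⊆ U, i ∉ F →
    ∑ j ∈ F, w l i j r * u (s, F.erase j, i, j) ≤ φ s l i F r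

open Classical in
/-- the row functional -/
theorem rowF_fun (s : Bool) (i : V) (F : Finset V) (w : V → ℝ)
    (u : Bool × Finset V × V × V → ℝ) :
    ∑ q : Bool × Finset V × V × V, (if q.1 = s ∧ q.2.2.1 = i ∧ q.2.2.2 ∈ F ∧
        q.2.1 = F.erase q.2.2.2 then w q.2.2.2 else 0) * u q
      = ∑ j ∈ F, w j * u (s, F.erase j, i, j) := by
  have inj : Function.Injective fun j : V =>
      ((s, F.erase j, i, j) : Bool × Finset V × V × V) := by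
    intro a b h
    simp only [Prod.mk.injEq] at h
    exact h.2.2.2
  have h1 : ∑ j ∈ F, w j * u (s, F.erase j, i, j)
      = ∑ j ∈ F, (fun q : Bool × Finset V × V × V => (if q.1 = s ∧ q.2.2.1 = i ∧ q.2.2.2 ∈ F ∧
        q.2.1 = F.erase q.2.2.2 then w q.2.2.2 else 0) * u q) (s, F.erase j, i, j) := by
    refine Finset.sum_congr rfl fun j hj => ?_
    simp [hj]
  rw [h1, ← Finset.sum_image (g := fun j : V =>
      ((s, F.erase j, i, j) : Bool × Finset V × V × V)) (f := fun q => (if q.1 = s ∧ q.2.2.1 = i ∧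
      q.2.2.2 ∈ F ∧ q.2.1 = F.erase q.2.2.2 then w q.2.2.2 else 0) * u q) (fun a _ b _ h => inj h)]
  symm
  refine Finset.sum_subset (Finset.subset_univ _) fun q _ hq => ?_
  rw [if_neg, zero_mul]
  rintro ⟨e1, e2, e3, e4⟩
  refine hq (Finset.mem_image.2 ⟨q.2.2.2, e3, ?_⟩)
  obtain ⟨q1, q2, q3, q4⟩ := q
  simp only at e1 e2 e3 e4 ⊢
  rw [e1, e2, e4]

open Classical in
theorem inv_rowsF (hD : GDat U τ T A B) (hR : RDatF U τ S T A B π w w' φ φ' Gp Gm α β) :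
    Inv τ (fR U T A B) (RowPF U w φ) := by
  let Ix := {p : Bool × Λ × V × Finset V // p.2.2.1 ∈ U ∧ p.2.2.2 ⊆ U ∧ p.2.2.1 ∉ p.2.2.2}
  let cnd : Ix → Bool × Finset V × V × V → Prop := fun a q =>
    q.1 = a.1.1 ∧ q.2.2.1 = a.1.2.2.1 ∧ q.2.2.2 ∈ a.1.2.2.2 ∧ q.2.1 = a.1.2.2.2.erase q.2.2.2
  have main := inv_linS (τ := τ) S (R := fR U T A B) (D := fun _ u => FSym U u ∧ FMon U u)
    (inv_fmon hD) (fun r hr u u0 _ => fR_nonneg hD r hr u u0)
    (A := Ix)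
    (c := fun a q r => if q.1 = a.1.1 ∧ q.2.2.1 = a.1.2.2.1 ∧ q.2.2.2 ∈ a.1.2.2.2 ∧
      q.2.1 = a.1.2.2.2.erase q.2.2.2 then w a.1.2.1 a.1.2.2.1 q.2.2.2 r else 0)
    (c' := fun a q r => if q.1 = a.1.1 ∧ q.2.2.1 = a.1.2.2.1 ∧ q.2.2.2 ∈ a.1.2.2.2 ∧
      q.2.1 = a.1.2.2.2.erase q.2.2.2 then w' a.1.2.1 a.1.2.2.1 q.2.2.2 r else 0)
    (φ := fun a r => φ a.1.1 a.1.2.1 a.1.2.2.1 a.1.2.2.2 r)
    (φ' := fun a r => φ' a.1.1 a.1.2.1 a.1.2.2.1 a.1.2.2.2 r)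
    (fun a => hR.cφ a.1.1 a.1.2.1 a.1.2.2.1 a.2.1 a.1.2.2.2 a.2.2.1 a.2.2.2)
    (fun a => hR.dφ a.1.1 a.1.2.1 a.1.2.2.1 a.2.1 a.1.2.2.2 a.2.2.1 a.2.2.2)
    (fun a => hR.φ0 a.1.1 a.1.2.1 a.1.2.2.1 a.2.1 a.1.2.2.2 a.2.2.1 a.2.2.2)
    (fun a q => by
      by_cases h : q.1 = a.1.1 ∧ q.2.2.1 = a.1.2.2.1 ∧ q.2.2.2 ∈ a.1.2.2.2 ∧
        q.2.1 = a.1.2.2.2.erase q.2.2.2
      · simp only [if_pos h]; exact hR.cw _ _ a.2.1 _ (a.2.2.1 h.2.2.1)
      · simp only [if_neg h]; exact continuousOn_const)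
    (fun a q r hr hσ => by
      by_cases h : q.1 = a.1.1 ∧ q.2.2.1 = a.1.2.2.1 ∧ q.2.2.2 ∈ a.1.2.2.2 ∧
        q.2.1 = a.1.2.2.2.erase q.2.2.2
      · simp only [if_pos h]; exact hR.dw _ _ a.2.1 _ (a.2.2.1 h.2.2.1) r hr hσ
      · simp only [if_neg h]; exact hasDerivAt_const _ _)
    (fun a q r hr hσ => by
      by_cases h : q.1 = a.1.1 ∧ q.2.2.1 = a.1.2.2.1 ∧ q.2.2.2 ∈ a.1.2.2.2 ∧
        q.2.1 = a.1.2.2.2.erase q.2.2.2
      · simp only [if_pos h]; exact hR.w1 _ _ a.2.1 _ (a.2.2.1 h.2.2.1) r hr hσ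
      · simp only [if_neg h]; exact le_rfl)
    ?_
  · refine ⟨fun r hr => ?_, fun r hr => ?_, fun u v hp hc r hr => ?_⟩
    · have e : {u | RowPF U w φ r u} = {u | ((FSym U u ∧ FMon U u) ∧ ∀ q, 0 ≤ u q) ∧
          ∀ a : Ix, ∑ q, (if q.1 = a.1.1 ∧ q.2.2.1 = a.1.2.2.1 ∧ q.2.2.2 ∈ a.1.2.2.2 ∧
            q.2.1 = a.1.2.2.2.erase q.2.2.2 then w a.1.2.1 a.1.2.2.1 q.2.2.2 r else 0) * u q
            ≤ φ a.1.1 a.1.2.1 a.1.2.2.1 a.1.2.2.2 r} := by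
        ext u
        constructor
        · rintro ⟨h1, h2⟩
          exact ⟨h1, fun a => (rowF_fun a.1.1 a.1.2.2.1 a.1.2.2.2
            (fun j => w a.1.2.1 a.1.2.2.1 j r) u).le.trans
            (h2 a.1.1 a.1.2.1 a.1.2.2.1 a.2.1 a.1.2.2.2 a.2.2.1 a.2.2.2)⟩
        · rintro ⟨h1, h2⟩
          exact ⟨h1, fun s l i hi F hF hiF => (rowF_fun s i F (fun j => w l i j r) u).ge.trans
            (h2 ⟨(s, l, i, F), hi, hF, hiF⟩)⟩
      rw [e]
      exact main.cl r hr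
    · obtain ⟨h1, h2⟩ := main.z r hr
      refine ⟨h1, fun s l i hi F hF hiF => ?_⟩
      have := h2 ⟨(s, l, i, F), hi, hF, hiF⟩
      exact (rowF_fun s i F (fun j => w l i j r) 0).ge.trans this
    · have key := main.st u v hp (fun z hz => ⟨(hc z hz).1, fun a => ?_⟩) r hr
      · obtain ⟨h1, h2⟩ := key
        refine ⟨h1, fun s l i hi F hF hiF => ?_⟩
        have := h2 ⟨(s, l, i, F), hi, hF, hiF⟩
        exact (rowF_fun s i F (fun j => w l i j r) _).ge.trans this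
      · obtain ⟨⟨s, l, i, F⟩, hi, hF, hiF⟩ := a
        exact (rowF_fun s i F (fun j => w l i j z) _).le.trans ((hc z hz).2 s l i hi F hF hiF)
  · rintro r hr hσ u u0 ⟨⟨us, uz⟩, um⟩ hu ⟨⟨s, l, i, F⟩, hi, hF, hiF⟩
    have hu' : ∀ s l, ∀ i ∈ U, ∀ F ⊆ U, i ∉ F →
        ∑ j ∈ F, w l i j r * u (s, F.erase j, i, j) ≤ φ s l i F r := by
      intro s l i hi F hF hiF
      exact (rowF_fun s i F (fun j => w l i j r) u).ge.trans (hu ⟨(s, l, i, F), hi, hF, hiF⟩)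
    refine (rowF_fun s i F (fun j => w l i j r) _).le.trans ?_
    simp only at hi hF hiF ⊢
    have T0 := hD.T0 r hr
    have Ts := hD.Ts r hr
    have hψ : ∀ s l, ∀ b ∈ U, ∀ G ⊆ U, b ∉ G →
        ∑ j ∈ G, π.w l b j r * u (s, G.erase j, b, j) ≤ π.φ s l b G r := by
      intro s l b hb G hG hbG
      obtain ⟨m, h1, h2⟩ := hR.hπ s l b hb G hG hbG r hr hσ
      exact (Finset.sum_le_sum fun j hj => mul_le_mul_of_nonneg_right (h1 j hj) (u0 _)).trans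
        ((hu' s m b hb G hG hbG).trans h2)
    have hw : ∀ j ∈ F, 0 ≤ w l i j r := fun j hj => hR.w0 l i hi j (hF hj) r hr
    have hwe : ∀ x ∈ F, ∀ j ∈ F.erase x, w l i j r ≤ π.w l x j r := fun x hx j hj => by
      have hj' := Finset.mem_erase.1 hj
      exact hR.wπ l i hi x (hF hx) j (hF hj'.2) (fun e => hiF (e ▸ hx)) (fun e => hiF (e ▸ hj'.2))
        (fun e => hj'.1 e.symm) r hr hσ
    have hv : ∀ j ∈ F, VP U (F.erase j) i j := fun j hj =>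
      ⟨(Finset.erase_subset _ _).trans hF, hi, hF hj,
        fun e => hiF (Finset.mem_of_mem_erase e), Finset.notMem_erase _ _, fun e => hiF (e ▸ hj)⟩
    cases s
    · -- decreasing pairs
      have h1 : ∑ j ∈ F, w l i j r * fR U T A B r u (false, F.erase j, i, j)
          = ∑ j ∈ F, w l i j r * omF (T r) (B r) (fun F i j => u (true, F, i, j))
            (fun F i j => u (false, F, i, j)) (F.erase j) i j :=
        Finset.sum_congr rfl fun j hj => by rw [fR_f (hv j hj)]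
      have h2 := omF_row (U := U) (B := B r) (gp := fun F i j => u (true, F, i, j))
        (gm := fun F i j => u (false, F, i, j)) (wl := fun j => w l i j r)
        (wb := fun b j => π.w l b j r) (φp := fun b G => π.φ true l b G r)
        (φm := fun b G => π.φ false l b G r) T0 Ts hF hi hiF hw hwe
        (fun F i j => u0 _) (fun F i j => u0 _) (fun F i j => us _ F i j)
        (fun F i j => us _ F i j) (fun F G i j hG hv => um _ F G i j hG hv)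
        (fun F G i j hG hv => um _ F G i j hG hv)
        (fun x hx G hG hxG => hψ true l x hx G hG hxG)
        (fun x hx G hG hxG => hψ false l x hx G hG hxG)
      have h3 := comb_le (U := F) (G := fun m => Gp l m i F r) (W := fun m x => w m i x r)
        (g := fun x => u (false, F.erase x, i, x)) (F := fun m => φ false m i F r)
        (fun m => hR.Gp0 l m i hi F hF hiF r hr) (fun x _ => u0 _)
        (fun x hx => hR.hGp l i hi F hF hiF x hx r hr hσ)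
        (fun m => hu' false m i hi F hF hiF)
      have h4 := comb_le (U := F) (G := fun m => Gm l m i F r) (W := fun m x => w m i x r)
        (g := fun x => u (true, F.erase x, i, x)) (F := fun m => φ true m i F r)
        (fun m => hR.Gm0 l m i hi F hF hiF r hr) (fun x _ => u0 _)
        (fun x hx => hR.hGm l i hi F hF hiF x hx r hr hσ)
        (fun m => hu' true m i hi F hF hiF)
      have h5 := hR.sm l i hi F hF hiF r hr hσ
      have h6 := hR.hβ l i hi F hF hiF r hr hσ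
      rw [Finset.sum_add_distrib] at h5
      refine h1.le.trans (h2.trans ?_)
      linarith
    · have h1 : ∑ j ∈ F, w l i j r * fR U T A B r u (true, F.erase j, i, j)
          = ∑ j ∈ F, w l i j r * opF (T r) (A r) (fun F i j => u (true, F, i, j))
            (fun F i j => u (false, F, i, j)) (F.erase j) i j :=
        Finset.sum_congr rfl fun j hj => by rw [fR_t (hv j hj)]
      have h2 := opF_row (U := U) (A := A r) (gp := fun F i j => u (true, F, i, j))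
        (gm := fun F i j => u (false, F, i, j)) (wl := fun j => w l i j r)
        (wb := fun b j => π.w l b j r) (φp := fun b G => π.φ true l b G r)
        (φm := fun b G => π.φ false l b G r) T0 Ts hF hi hiF hw hwe
        (fun F i j => u0 _) (fun F i j => u0 _) (fun F i j => us _ F i j)
        (fun F i j => us _ F i j) (fun F G i j hG hv => um _ F G i j hG hv)
        (fun F G i j hG hv => um _ F G i j hG hv)
        (fun x hx G hG hxG => hψ true l x hx G hG hxG)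
        (fun x hx G hG hxG => hψ false l x hx G hG hxG)
      have h3 := comb_le (U := F) (G := fun m => Gp l m i F r) (W := fun m x => w m i x r)
        (g := fun x => u (true, F.erase x, i, x)) (F := fun m => φ true m i F r)
        (fun m => hR.Gp0 l m i hi F hF hiF r hr) (fun x _ => u0 _)
        (fun x hx => hR.hGp l i hi F hF hiF x hx r hr hσ)
        (fun m => hu' true m i hi F hF hiF)
      have h4 := comb_le (U := F) (G := fun m => Gm l m i F r) (W := fun m x => w m i x r)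
        (g := fun x => u (false, F.erase x, i, x)) (F := fun m => φ false m i F r)
        (fun m => hR.Gm0 l m i hi F hF hiF r hr) (fun x _ => u0 _)
        (fun x hx => hR.hGm l i hi F hF hiF x hx r hr hσ)
        (fun m => hu' false m i hi F hF hiF)
      have h5 := hR.sp l i hi F hF hiF r hr hσ
      have h6 := hR.hα l i hi F hF hiF r hr hσ
      rw [Finset.sum_add_distrib] at h5
      refine h1.le.trans (h2.trans ?_)
      linarith

theorem RowPF.bd {w : Λ → V → V → ℝ → ℝ} {φ : Bool → Λ → V → Finset V → ℝ → ℝ} (l0 : Λ)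
    {wm Φ r : ℝ} (hwm : 0 < wm) (hΦ0 : 0 ≤ Φ) (hw0 : ∀ i ∈ U, ∀ j ∈ U, 0 ≤ w l0 i j r)
    (hw : ∀ i ∈ U, ∀ j ∈ U, i ≠ j → wm ≤ w l0 i j r)
    (hΦ : ∀ s, ∀ i ∈ U, ∀ F ⊆ U, i ∉ F → φ s l0 i F r ≤ Φ)
    {u : Bool × Finset V × V × V → ℝ} (hu : RowPF U w φ r u) : ∀ q, u q ≤ Φ / wm := by
  rintro ⟨s, F, i, j⟩
  obtain ⟨⟨⟨⟨_, uz⟩, _⟩, u0⟩, hu⟩ := hu
  by_cases h : VP U F i j
  · obtain ⟨hF, hi, hj, hiF, hjF, hij⟩ := h
    have hF' : insert j F ⊆ U := Finset.insert_subset hj hF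
    have hiF' : i ∉ insert j F := by
      rw [Finset.mem_insert]; rintro (e | e)
      · exact hij e
      · exact hiF e
    have h1 := Finset.single_le_sum (f := fun j' => w l0 i j' r * u (s, (insert j F).erase j', i, j'))
      (fun j' hj' => mul_nonneg (hw0 i hi j' (hF' hj')) (u0 _)) (Finset.mem_insert_self j F)
    have h2 := hu s l0 i hi _ hF' hiF'
    have h3 := hΦ s i hi _ hF' hiF'
    have h4 := mul_le_mul_of_nonneg_right (hw i hi j hj hij) (u0 (s, F, i, j))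
    simp only [Finset.erase_insert hjF] at h1
    rw [le_div_iff₀ hwm]
    linarith
  · rw [uz s F i j h]
    positivity

/-- **level 1/2 indexed by the set, with weighted row bounds** -/
theorem exists_rowsF (hτ : 0 ≤ τ) (hD : GDat U τ T A B)
    (hR : RDatF U τ S T A B π w w' φ φ' Gp Gm α β) (l0 : Λ) {wm Φ : ℝ}
    (hwm : 0 < wm) (hΦ0 : 0 ≤ Φ) (hw : ∀ i ∈ U, ∀ j ∈ U, i ≠ j → ∀ r ∈ Icc 0 τ, wm ≤ w l0 i j r)
    (hΦ : ∀ s, ∀ i ∈ U, ∀ F ⊆ U, i ∉ F → ∀ r ∈ Icc 0 τ, φ s l0 i F r ≤ Φ) :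
    ∃ gp gp' gm gm' : Finset V → V → V → ℝ → ℝ, S12F U τ T A B gp gp' gm gm' ∧
      (∀ F i j, gp F i j τ = 0) ∧ (∀ F i j, gm F i j τ = 0) ∧
      (∀ F i j, ∀ r ∈ Icc 0 τ, gp F i j r = gp F j i r) ∧
      (∀ F i j, ∀ r ∈ Icc 0 τ, gm F i j r = gm F j i r) ∧
      (∀ l, ∀ i ∈ U, ∀ F ⊆ U, i ∉ F → ∀ r ∈ Icc 0 τ,
        ∑ j ∈ F, w l i j r * gp (F.erase j) i j r ≤ φ true l i F r) ∧
      (∀ l, ∀ i ∈ U, ∀ F ⊆ U, i ∉ F → ∀ r ∈ Icc 0 τ,
        ∑ j ∈ F, w l i j r * gm (F.erase j) i j r ≤ φ false l i F r) ∧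
      ∀ C : ℝ → (Bool × Finset V × V × V → ℝ) → Prop, Inv τ (fR U T A B) C →
        ∀ r ∈ Icc 0 τ, C r fun q => if q.1 = true then gp q.2.1 q.2.2.1 q.2.2.2 r
          else gm q.2.1 q.2.2.1 q.2.2.2 r := by
  obtain ⟨gp, gp', gm, gm', h1, h2, h3, h5, h6, h4⟩ := exists_g12F hτ hD (inv_rowsF hD hR)
    (M := Φ / wm) (fun r hr u hu => hu.bd l0 hwm hΦ0
      (fun i hi j hj => hR.w0 l0 i hi j hj r hr)
      (fun i hi j hj hij => hw i hi j hj hij r hr) (fun s i hi F hF hiF => hΦ s i hi F hF hiF r hr))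
  have key := fun r hr => h4 _ (inv_rowsF hD hR) r hr
  refine ⟨gp, gp', gm, gm', h1, h2, h3, h5, h6, fun l i hi F hF hiF r hr => ?_,
    fun l i hi F hF hiF r hr => ?_, h4⟩
  · have := (key r hr).2 true l i hi F hF hiF
    simpa using this
  · have := (key r hr).2 false l i hi F hF hiF
    simpa using this

end Pool.Agent.RZ.RCO
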