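import Pool.Agent.RZ.RCO.Hl3

/-! Level 1 indexed by the world: target sums and position sums under a Picard step
(MP_73ccd0_lc). -/

namespace Pool.Agent.RZ.RCO

open Set Finset Pool.Agent.RZ.RCRSHalf Pool.Agent.RZ.RCRSGen Pool.Agent.RZ.RCG Pool.Agent.RZ.RCM

set_option linter.unusedSectionVars false

variable {V : Type*} [Fintype V] [DecidableEq V]

section stat

variable {U : Finset V} {T : V → V → ℝ} {gp gm H N D E : Finset V → V → V → ℝ} {c1 c4 : ℝ}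
  {u : IxF V → ℝ} {Λ : Type*} [Fintype Λ]

/-- position sums of the lower rate of the target `c`, with the explicit part `E` of the single
terms apart -/
theorem LbF.posN' (hb : LbF U T gp gm H N D E c1 c4 u) {c : V} {wl : V → ℝ} {wb : V → V → ℝ}
    {φp φm : V → Finset V → ℝ} {F : Finset V} (hF : F ⊆ U) (hc : c ∈ U) (hcF : c ∉ F)
    (w0 : ∀ e ∈ F, 0 ≤ wl e) (wle : ∀ x ∈ F, ∀ e ∈ F.erase x, wl e ≤ wb x e)
    (hp : ∀ x ∈ U, ∀ G ⊆ U, x ∉ G → ∑ j ∈ G, wb x j * gp (G.erase j) x j ≤ φp x G)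
    (hm : ∀ x ∈ U, ∀ G ⊆ U, x ∉ G → ∑ j ∈ G, wb x j * gm (G.erase j) x j ≤ φm x G)
    {w : Λ → V → ℝ} {Ke Kn Kd : Λ → ℝ} {P An Ad : Λ → ℝ} {Es : ℝ} (Ke0 : ∀ m, 0 ≤ Ke m)
    (Kn0 : ∀ m, 0 ≤ Kn m) (Kd0 : ∀ m, 0 ≤ Kd m)
    (hE : ∑ e ∈ F, wl e * ∑ b ∈ F.erase e, T e b * E ((F.erase e).erase b) c b ≤ Es)
    (ke : ∀ x ∈ F, ∑ e ∈ F.erase x, wl e * T e x ≤ ∑ m, Ke m * w m x)
    (kn : ∀ x ∈ F, KF T φp F x ≤ ∑ m, Kn m * w m x)
    (kd : ∀ x ∈ F, KF T φm F x ≤ ∑ m, Kd m * w m x)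
    (hu : ∀ m, ∑ x ∈ F, w m x * u (true, F.erase x, c, x) ≤ P m)
    (hn : ∀ m, ∑ x ∈ F, w m x * nuF N u c (F.erase x) x ≤ An m)
    (hd : ∀ m, ∑ x ∈ F, w m x * (D (F.erase x) c x + c4 * u (true, F.erase x, c, x)) ≤ Ad m) :
    ∑ e ∈ F, wl e * RnF T gp gm (puF H u c) (nuF N u c) (F.erase e) e
      ≤ Es + ∑ m, (Ke m * (c1 * P m) + (Kn m * An m + Kd m * Ad m)) := by
  have h2 := posF_pair (U := U) (p := puF H u c) (n := nuF N u c)
    (d := fun G z => D G c z + c4 * u (true, G, c, z)) hb.T0 hb.Ts hb.Tz hF hc hcF w0 wle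
    hb.gp0 hb.gm0 hb.gps hb.gms (hb.nu0 c) (fun F e => hb.dq0 F c e) (hb.mnu c) (hb.mdq c)
    (fun e _ x hx y hy hxy => hb.hE2 _ ((Finset.erase_subset _ _).trans hF) c hc
      (fun h => hcF (Finset.mem_of_mem_erase h)) x hx y hy hxy) hp hm
  have h3 := posF_one (U := U) (T := T) (n := fun G b => c1 * u (true, G, c, b)) hb.T0 hF hc hcF
    w0 (q := fun G b => c1 * u (true, G, c, b)) (fun G b => mul_nonneg hb.c10 (hb.u0 _))
    (fun F G e hG hv => mul_le_mul_of_nonneg_left (hb.mu true c F G e hG hv) hb.c10)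
    (fun e _ b _ => le_rfl)
  have e1 : ∑ e ∈ F, wl e * RnF T gp gm (puF H u c) (nuF N u c) (F.erase e) e
      = ∑ e ∈ F, wl e * ∑ b ∈ F.erase e, T e b *
          (Real.exp (puF H u c ((F.erase e).erase b) b) - 1)
        + ∑ e ∈ F, wl e * ((1 / 2) * ∑ x ∈ F.erase e, ∑ y ∈ F.erase e, T x y *
      (max ((1 - Real.exp (-pq (nuF N u c) (F.erase e) x y))
          * (1 - Real.exp (-pq (fun G z => gp G e z) (F.erase e) x y)))
        ((Real.exp (pq (puF H u c) (F.erase e) x y) - 1)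
          * (1 - Real.exp (-pq (fun G z => gm G e z) (F.erase e) x y))))) := by
    rw [← Finset.sum_add_distrib]
    exact Finset.sum_congr rfl fun c _ => by unfold RnF; rw [mul_add]
  have h1 : ∑ e ∈ F, wl e * ∑ b ∈ F.erase e, T e b *
          (Real.exp (puF H u c ((F.erase e).erase b) b) - 1)
      ≤ ∑ e ∈ F, wl e * ∑ b ∈ F.erase e, T e b * E ((F.erase e).erase b) c b
        + ∑ e ∈ F, wl e * ∑ b ∈ F.erase e, T e b * (c1 * u (true, (F.erase e).erase b, c, b)) := by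
    rw [← Finset.sum_add_distrib]
    refine Finset.sum_le_sum fun e he => ?_
    rw [← mul_add, ← Finset.sum_add_distrib]
    refine mul_le_mul_of_nonneg_left (Finset.sum_le_sum fun b hb' => ?_) (w0 e he)
    rw [← mul_add]
    exact mul_le_mul_of_nonneg_left (hb.hE1 _ c b ⟨((Finset.erase_subset _ _).trans
      (Finset.erase_subset _ _)).trans hF, hc, hF (Finset.mem_of_mem_erase hb'),
      fun h => hcF (Finset.mem_of_mem_erase (Finset.mem_of_mem_erase h)), Finset.notMem_erase _ _,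
      fun h => hcF (h ▸ Finset.mem_of_mem_erase hb')⟩) (hb.T0 _ _)
  have t0 := comb_le (U := F) (G := Ke) (W := w)
    (K := fun x => ∑ e ∈ F.erase x, wl e * T e x)
    (g := fun x => c1 * u (true, F.erase x, c, x)) (F := fun m => c1 * P m) Ke0
    (fun x _ => mul_nonneg hb.c10 (hb.u0 _)) ke (fun m => by
      have := mul_le_mul_of_nonneg_left (hu m) hb.c10
      refine le_trans (le_of_eq ?_) this
      rw [Finset.mul_sum]
      exact Finset.sum_congr rfl fun z _ => by ring)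
  have t1 := comb_le (U := F) (G := Kn) (W := w) (K := KF T φp F)
    (g := fun x => nuF N u c (F.erase x) x) (F := An) Kn0 (fun x _ => hb.nu0 _ _ _) kn hn
  have t2 := comb_le (U := F) (G := Kd) (W := w) (K := KF T φm F)
    (g := fun x => D (F.erase x) c x + c4 * u (true, F.erase x, c, x)) (F := Ad) Kd0
    (fun x _ => hb.dq0 _ _ _) kd hd
  rw [Finset.sum_add_distrib, Finset.sum_add_distrib, e1]
  linarith

end stat

/-- bounds of the target sums with the weights `f` -/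
def TgF (U : Finset V) (f : V → V → ℝ) (P Q : V → Finset V → ℝ) (u : IxF V → ℝ) : Prop :=
  ∀ e ∈ U, ∀ F ⊆ U, e ∉ F → ∑ c ∈ F, f e c * u (true, F.erase c, c, e) ≤ P e F ∧
    ∑ c ∈ F, f e c * u (false, F.erase c, c, e) ≤ Q e F

/-- bounds of the position sums with the weights `w` -/
def PgF (U : Finset V) (w : V → V → ℝ) (P Q : V → Finset V → ℝ) (u : IxF V → ℝ) : Prop :=
  ∀ c ∈ U, ∀ F ⊆ U, c ∉ F → ∑ e ∈ F, w c e * u (true, F.erase e, c, e) ≤ P c F ∧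
    ∑ e ∈ F, w c e * u (false, F.erase e, c, e) ≤ Q c F

theorem closed_sumF {ι : Type*} (X : Finset V) (f : V → ℝ) (j : V → ι) (k : ℝ) :
    IsClosed {u : ι → ℝ | ∑ c ∈ X, f c * u (j c) ≤ k} :=
  isClosed_le (continuous_finsetSum _ fun c _ => continuous_const.mul (continuous_apply _))
    continuous_const

theorem TgF_closed (U : Finset V) (f : V → V → ℝ) (P Q : V → Finset V → ℝ) :
    IsClosed {u : IxF V → ℝ | TgF U f P Q u} := by
  have e : {u : IxF V → ℝ | TgF U f P Q u} = ⋂ e, ⋂ (_ : e ∈ U), ⋂ F, ⋂ (_ : F ⊆ U),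
      ⋂ (_ : e ∉ F), ({u | ∑ c ∈ F, f e c * u (true, F.erase c, c, e) ≤ P e F}
        ∩ {u | ∑ c ∈ F, f e c * u (false, F.erase c, c, e) ≤ Q e F}) := by
    ext u; simp only [TgF, mem_ofPred_eq, mem_iInter, mem_inter_iff]
  rw [e]
  exact isClosed_iInter fun e => isClosed_iInter fun _ => isClosed_iInter fun F =>
    isClosed_iInter fun _ => isClosed_iInter fun _ =>
    (closed_sumF F (fun c => f e c) (fun c => (true, F.erase c, c, e)) _).inter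
      (closed_sumF F (fun c => f e c) (fun c => (false, F.erase c, c, e)) _)

theorem PgF_closed (U : Finset V) (w : V → V → ℝ) (P Q : V → Finset V → ℝ) :
    IsClosed {u : IxF V → ℝ | PgF U w P Q u} := by
  have e : {u : IxF V → ℝ | PgF U w P Q u} = ⋂ c, ⋂ (_ : c ∈ U), ⋂ F, ⋂ (_ : F ⊆ U),
      ⋂ (_ : c ∉ F), ({u | ∑ e ∈ F, w c e * u (true, F.erase e, c, e) ≤ P c F}
        ∩ {u | ∑ e ∈ F, w c e * u (false, F.erase e, c, e) ≤ Q c F}) := by
    ext u; simp only [PgF, mem_ofPred_eq, mem_iInter, mem_inter_iff]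
  rw [e]
  exact isClosed_iInter fun c => isClosed_iInter fun _ => isClosed_iInter fun F =>
    isClosed_iInter fun _ => isClosed_iInter fun _ =>
    (closed_sumF F (fun e => w c e) (fun e => (true, F.erase e, c, e)) _).inter
      (closed_sumF F (fun e => w c e) (fun e => (false, F.erase e, c, e)) _)

/-- the weights and the bounds used at the neighbours in the target sums: any functions implied by
the bounds of the family -/
structure VrT (V L : Type*) where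
  f : L → V → V → ℝ → ℝ
  N : L → V → Finset V → ℝ → ℝ
  D : L → V → Finset V → ℝ → ℝ
  E : L → V → Finset V → ℝ → ℝ
  P : L → V → Finset V → ℝ → ℝ
  Q : L → V → Finset V → ℝ → ℝ

/-- the bound `b` is implied by the family `B` of bounds with the weights `f` -/
def VrT.Im {L L' : Type*} (π : VrT V L) (U : Finset V) (τ : ℝ) (S : Finset ℝ)
    (f : L' → V → V → ℝ → ℝ) (B : L' → V → Finset V → ℝ → ℝ) (b : L → V → Finset V → ℝ → ℝ) :
    Prop :=
  ∀ l, ∀ x ∈ U, ∀ G ⊆ U, x ∉ G → ∀ r ∈ Icc 0 τ, r ∉ S →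
    ∃ m, (∀ c ∈ G, π.f l x c r ≤ f m x c r) ∧ B m x G r ≤ b l x G r

theorem VrT.Im.sum_le {L L' : Type*} {π : VrT V L} {U : Finset V} {τ : ℝ} {S : Finset ℝ}
    {f : L' → V → V → ℝ → ℝ} {B : L' → V → Finset V → ℝ → ℝ} {b : L → V → Finset V → ℝ → ℝ}
    (h : π.Im U τ S f B b) {l : L} {x : V}
    (hx : x ∈ U) {G : Finset V} (hG : G ⊆ U) (hxG : x ∉ G) {r : ℝ} (hr : r ∈ Icc 0 τ)
    (hrS : r ∉ S) {u : V → ℝ} (u0 : ∀ c, 0 ≤ u c)
    (hB : ∀ m, ∑ c ∈ G, f m x c r * u c ≤ B m x G r) :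
    ∑ c ∈ G, π.f l x c r * u c ≤ b l x G r := by
  obtain ⟨m, h1, h2⟩ := h l x hx G hG hxG r hr hrS
  exact (Finset.sum_le_sum fun c hc => mul_le_mul_of_nonneg_right (h1 c hc) (u0 c)).trans
    ((hB m).trans h2)

/-- the conditions of a family of target sums: weights `f l e c` (nondecreasing in time), bounds
`P, Q` of the sums of the tails, `NB, DB, EB` of the sums of `N, D, E` -/
structure ScTF (U : Finset V) (τ : ℝ) (S : Finset ℝ) (T : ℝ → V → V → ℝ)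
    (gp gm N D E : Finset V → V → V → ℝ → ℝ) (c1 c4 : ℝ → ℝ) {Λ : Type*} [Fintype Λ]
    (w : Λ → V → V → ℝ → ℝ) (bp bm : Λ → V → Finset V → ℝ → ℝ) {L : Type*} (π : VrT V L)
    (f f' : L → V → V → ℝ → ℝ) (NB DB EB P P' Q Q' : L → V → Finset V → ℝ → ℝ)
    (Gn Gd : L → Λ → V → Finset V → ℝ → ℝ) : Prop where
  cf : ∀ l, ∀ e ∈ U, ∀ c ∈ U, ContinuousOn (f l e c) (Icc 0 τ)
  df : ∀ l, ∀ e ∈ U, ∀ c ∈ U, ∀ r ∈ Icc 0 τ, r ∉ S → HasDerivAt (f l e c) (f' l e c r) r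
  f0 : ∀ l, ∀ e ∈ U, ∀ c ∈ U, ∀ r ∈ Icc 0 τ, 0 ≤ f l e c r
  f1 : ∀ l, ∀ e ∈ U, ∀ c ∈ U, ∀ r ∈ Icc 0 τ, r ∉ S → 0 ≤ f' l e c r
  fπ : ∀ l, ∀ e ∈ U, ∀ b ∈ U, ∀ c ∈ U, e ≠ b → e ≠ c → b ≠ c → ∀ r ∈ Icc 0 τ, r ∉ S →
    f l e c r ≤ π.f l b c r
  πN : ∀ l, ∀ e ∈ U, ∀ F ⊆ U, e ∉ F → ∀ r ∈ Icc 0 τ, r ∉ S →
    ∑ c ∈ F, π.f l e c r * N (F.erase c) c e r ≤ π.N l e F r
  πD : ∀ l, ∀ e ∈ U, ∀ F ⊆ U, e ∉ F → ∀ r ∈ Icc 0 τ, r ∉ S →
    ∑ c ∈ F, π.f l e c r * D (F.erase c) c e r ≤ π.D l e F r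
  πE : ∀ l, ∀ e ∈ U, ∀ F ⊆ U, e ∉ F → ∀ r ∈ Icc 0 τ, r ∉ S →
    ∑ c ∈ F, π.f l e c r * E (F.erase c) c e r ≤ π.E l e F r
  πP : π.Im U τ S f P π.P
  πQ : π.Im U τ S f Q π.Q
  hN : ∀ l, ∀ e ∈ U, ∀ F ⊆ U, e ∉ F → ∀ r ∈ Icc 0 τ, r ∉ S →
    ∑ c ∈ F, f l e c r * N (F.erase c) c e r ≤ NB l e F r
  hD : ∀ l, ∀ e ∈ U, ∀ F ⊆ U, e ∉ F → ∀ r ∈ Icc 0 τ, r ∉ S →
    ∑ c ∈ F, f l e c r * D (F.erase c) c e r ≤ DB l e F r
  hE : ∀ l, ∀ e ∈ U, ∀ F ⊆ U, e ∉ F → ∀ r ∈ Icc 0 τ, r ∉ S →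
    ∑ c ∈ F, f l e c r * E (F.erase c) c e r ≤ EB l e F r
  P0 : ∀ l, ∀ e ∈ U, ∀ F ⊆ U, e ∉ F → ∀ r ∈ Icc 0 τ, 0 ≤ P l e F r
  Q0 : ∀ l, ∀ e ∈ U, ∀ F ⊆ U, e ∉ F → ∀ r ∈ Icc 0 τ, 0 ≤ Q l e F r
  cP : ∀ l, ∀ e ∈ U, ∀ F ⊆ U, e ∉ F → ContinuousOn (P l e F) (Icc 0 τ)
  cQ : ∀ l, ∀ e ∈ U, ∀ F ⊆ U, e ∉ F → ContinuousOn (Q l e F) (Icc 0 τ)
  dP : ∀ l, ∀ e ∈ U, ∀ F ⊆ U, e ∉ F → ∀ r ∈ Icc 0 τ, r ∉ S →
    HasDerivAt (P l e F) (P' l e F r) r
  dQ : ∀ l, ∀ e ∈ U, ∀ F ⊆ U, e ∉ F → ∀ r ∈ Icc 0 τ, r ∉ S →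
    HasDerivAt (Q l e F) (Q' l e F r) r
  Gn0 : ∀ l m, ∀ e ∈ U, ∀ F ⊆ U, e ∉ F → ∀ r ∈ Icc 0 τ, 0 ≤ Gn l m e F r
  Gd0 : ∀ l m, ∀ e ∈ U, ∀ F ⊆ U, e ∉ F → ∀ r ∈ Icc 0 τ, 0 ≤ Gd l m e F r
  rp : ∀ m, ∀ e ∈ U, ∀ F ⊆ U, e ∉ F → ∀ r ∈ Icc 0 τ, r ∉ S →
    ∑ x ∈ F, w m e x r * gp (F.erase x) e x r ≤ bp m e F r
  rm : ∀ m, ∀ e ∈ U, ∀ F ⊆ U, e ∉ F → ∀ r ∈ Icc 0 τ, r ∉ S →
    ∑ x ∈ F, w m e x r * gm (F.erase x) e x r ≤ bm m e F r
  kA : ∀ l, ∀ e ∈ U, ∀ F ⊆ U, e ∉ F → ∀ x ∈ F, ∀ r ∈ Icc 0 τ, r ∉ S →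
    KF (T r) (fun y G => π.N l y G r + π.Q l y G r) F x ≤ ∑ m, Gn l m e F r * w m e x r
  kB : ∀ l, ∀ e ∈ U, ∀ F ⊆ U, e ∉ F → ∀ x ∈ F, ∀ r ∈ Icc 0 τ, r ∉ S →
    KF (T r) (fun y G => π.D l y G r + c4 r * π.P l y G r) F x
      ≤ ∑ m, Gd l m e F r * w m e x r
  sP : ∀ l, ∀ e ∈ U, ∀ F ⊆ U, e ∉ F → ∀ r ∈ Icc 0 τ, r ∉ S →
    ∑ b ∈ F, T r e b * (π.N l b (F.erase b) r + π.Q l b (F.erase b) r)
      + ∑ m, (Gn l m e F r * bm m e F r + Gd l m e F r * bp m e F r) ≤ -P' l e F r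
  sQ : ∀ l, ∀ e ∈ U, ∀ F ⊆ U, e ∉ F → ∀ r ∈ Icc 0 τ, r ∉ S →
    ∑ b ∈ F, T r e b * (π.E l b (F.erase b) r + c1 r * π.P l b (F.erase b) r)
      + ∑ m, (Gn l m e F r * bp m e F r + Gd l m e F r * bm m e F r) ≤ -Q' l e F r

/-- the conditions of a family of position sums: weights `w m c e` (nondecreasing in time), row
weights `v` of the pair functions with the row bounds `φp, φm` -/
structure ScPF (U : Finset V) (τ : ℝ) (S : Finset ℝ) (T : ℝ → V → V → ℝ)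
    (gp gm N D E : Finset V → V → V → ℝ → ℝ) (c1 c4 : ℝ → ℝ) {Λ : Type*} [Fintype Λ]
    (w w' v : Λ → V → V → ℝ → ℝ) (φp φm : Λ → V → Finset V → ℝ → ℝ)
    (Kn Kp Ke Km : Λ → Λ → V → Finset V → ℝ → ℝ)
    (NB DB EB P P' Q Q' : Λ → V → Finset V → ℝ → ℝ) : Prop where
  cw : ∀ m, ∀ c ∈ U, ∀ e ∈ U, ContinuousOn (w m c e) (Icc 0 τ)
  dw : ∀ m, ∀ c ∈ U, ∀ e ∈ U, ∀ r ∈ Icc 0 τ, r ∉ S → HasDerivAt (w m c e) (w' m c e r) r
  w0 : ∀ m, ∀ c ∈ U, ∀ e ∈ U, ∀ r ∈ Icc 0 τ, 0 ≤ w m c e r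
  w1 : ∀ m, ∀ c ∈ U, ∀ e ∈ U, ∀ r ∈ Icc 0 τ, r ∉ S → 0 ≤ w' m c e r
  wv : ∀ m, ∀ c ∈ U, ∀ x ∈ U, ∀ e ∈ U, c ≠ x → c ≠ e → x ≠ e → ∀ r ∈ Icc 0 τ, r ∉ S →
    w m c e r ≤ v m x e r
  rp : ∀ m, ∀ x ∈ U, ∀ G ⊆ U, x ∉ G → ∀ r ∈ Icc 0 τ, r ∉ S →
    ∑ j ∈ G, v m x j r * gp (G.erase j) x j r ≤ φp m x G r
  rm : ∀ m, ∀ x ∈ U, ∀ G ⊆ U, x ∉ G → ∀ r ∈ Icc 0 τ, r ∉ S →
    ∑ j ∈ G, v m x j r * gm (G.erase j) x j r ≤ φm m x G r
  Kn0 : ∀ m m', ∀ c ∈ U, ∀ F ⊆ U, c ∉ F → ∀ r ∈ Icc 0 τ, 0 ≤ Kn m m' c F r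
  Kp0 : ∀ m m', ∀ c ∈ U, ∀ F ⊆ U, c ∉ F → ∀ r ∈ Icc 0 τ, 0 ≤ Kp m m' c F r
  Ke0 : ∀ m m', ∀ c ∈ U, ∀ F ⊆ U, c ∉ F → ∀ r ∈ Icc 0 τ, 0 ≤ Ke m m' c F r
  Km0 : ∀ m m', ∀ c ∈ U, ∀ F ⊆ U, c ∉ F → ∀ r ∈ Icc 0 τ, 0 ≤ Km m m' c F r
  kn : ∀ m, ∀ c ∈ U, ∀ F ⊆ U, c ∉ F → ∀ x ∈ F, ∀ r ∈ Icc 0 τ, r ∉ S →
    ∑ e ∈ F.erase x, w m c e r * T r e x + KF (T r) (fun y G => φm m y G r) F x
      ≤ ∑ m', Kn m m' c F r * w m' c x r
  kp : ∀ m, ∀ c ∈ U, ∀ F ⊆ U, c ∉ F → ∀ x ∈ F, ∀ r ∈ Icc 0 τ, r ∉ S →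
    KF (T r) (fun y G => φp m y G r) F x ≤ ∑ m', Kp m m' c F r * w m' c x r
  ke : ∀ m, ∀ c ∈ U, ∀ F ⊆ U, c ∉ F → ∀ x ∈ F, ∀ r ∈ Icc 0 τ, r ∉ S →
    ∑ e ∈ F.erase x, w m c e r * T r e x ≤ ∑ m', Ke m m' c F r * w m' c x r
  km : ∀ m, ∀ c ∈ U, ∀ F ⊆ U, c ∉ F → ∀ x ∈ F, ∀ r ∈ Icc 0 τ, r ∉ S →
    KF (T r) (fun y G => φm m y G r) F x ≤ ∑ m', Km m m' c F r * w m' c x r
  hN : ∀ m, ∀ c ∈ U, ∀ F ⊆ U, c ∉ F → ∀ r ∈ Icc 0 τ, r ∉ S →
    ∑ e ∈ F, w m c e r * N (F.erase e) c e r ≤ NB m c F r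
  hD : ∀ m, ∀ c ∈ U, ∀ F ⊆ U, c ∉ F → ∀ r ∈ Icc 0 τ, r ∉ S →
    ∑ e ∈ F, w m c e r * D (F.erase e) c e r ≤ DB m c F r
  hE : ∀ m, ∀ c ∈ U, ∀ F ⊆ U, c ∉ F → ∀ r ∈ Icc 0 τ, r ∉ S →
    ∑ e ∈ F, w m c e r * ∑ b ∈ F.erase e, T r e b * E ((F.erase e).erase b) c b r ≤ EB m c F r
  P0 : ∀ m, ∀ c ∈ U, ∀ F ⊆ U, c ∉ F → ∀ r ∈ Icc 0 τ, 0 ≤ P m c F r
  Q0 : ∀ m, ∀ c ∈ U, ∀ F ⊆ U, c ∉ F → ∀ r ∈ Icc 0 τ, 0 ≤ Q m c F r
  cP : ∀ m, ∀ c ∈ U, ∀ F ⊆ U, c ∉ F → ContinuousOn (P m c F) (Icc 0 τ)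
  cQ : ∀ m, ∀ c ∈ U, ∀ F ⊆ U, c ∉ F → ContinuousOn (Q m c F) (Icc 0 τ)
  dP : ∀ m, ∀ c ∈ U, ∀ F ⊆ U, c ∉ F → ∀ r ∈ Icc 0 τ, r ∉ S →
    HasDerivAt (P m c F) (P' m c F r) r
  dQ : ∀ m, ∀ c ∈ U, ∀ F ⊆ U, c ∉ F → ∀ r ∈ Icc 0 τ, r ∉ S →
    HasDerivAt (Q m c F) (Q' m c F r) r
  sP : ∀ m, ∀ c ∈ U, ∀ F ⊆ U, c ∉ F → ∀ r ∈ Icc 0 τ, r ∉ S →
    ∑ m', (Kn m m' c F r * (NB m' c F r + Q m' c F r)
      + Kp m m' c F r * (DB m' c F r + c4 r * P m' c F r)) ≤ -P' m c F r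
  sQ : ∀ m, ∀ c ∈ U, ∀ F ⊆ U, c ∉ F → ∀ r ∈ Icc 0 τ, r ∉ S →
    EB m c F r + ∑ m', (Ke m m' c F r * (c1 r * P m' c F r)
      + (Kp m m' c F r * (NB m' c F r + Q m' c F r)
        + Km m m' c F r * (DB m' c F r + c4 r * P m' c F r))) ≤ -Q' m c F r

section

variable {U : Finset V} {τ : ℝ} {S : Finset ℝ} {T : ℝ → V → V → ℝ}
  {gp gm H N D E : Finset V → V → V → ℝ → ℝ} {c1 c4 : ℝ → ℝ} {Λ : Type*} [Fintype Λ]

/-- one Picard step keeps the target sums -/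
theorem step_tgtF {w : Λ → V → V → ℝ → ℝ} {bp bm : Λ → V → Finset V → ℝ → ℝ} {L : Type*}
    {π : VrT V L} {f f' : L → V → V → ℝ → ℝ}
    {NB DB EB P P' Q Q' : L → V → Finset V → ℝ → ℝ} {Gn Gd : L → Λ → V → Finset V → ℝ → ℝ}
    (hsc : ScTF U τ S T gp gm N D E c1 c4 w bp bm π f f' NB DB EB P P' Q Q' Gn Gd)
    {u y : IxF V → ℝ → ℝ} (hp : Pst τ (hR U T gp gm H N) u y)
    (y0 : ∀ i, ∀ r ∈ Icc 0 τ, 0 ≤ y i r)
    (ht : ∀ l, ∀ r ∈ Icc 0 τ, TgF U (fun e c => f l e c r) (fun e F => P l e F r)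
      (fun e F => Q l e F r) fun i => u i r)
    (hL : ∀ r ∈ Icc 0 τ,
      LbF U (T r) (fun F x y => gp F x y r) (fun F x y => gm F x y r) (fun F c e => H F c e r)
        (fun F c e => N F c e r) (fun F c e => D F c e r) (fun F c e => E F c e r)
        (c1 r) (c4 r) fun i => u i r) (l : L) :
    ∀ r ∈ Icc 0 τ, TgF U (fun e c => f l e c r) (fun e F => P l e F r) (fun e F => Q l e F r)
      fun i => y i r := by
  intro r hr e he F hF heF
  have hy : ∀ i, ContinuousOn (y i) (Icc 0 τ) := fun i z hz =>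
    (hp.2.2.1 i z hz).continuousAt.continuousWithinAt
  have hτ : τ ∈ Icc 0 τ := ⟨hr.1.trans hr.2, le_rfl⟩
  have io : ∀ z ∈ Ioo 0 τ, z ∈ Icc 0 τ := fun z hz => Ioo_subset_Icc_self hz
  have nn : ∀ (b : Bool) (z : ℝ), z ∈ Icc 0 τ → z ∉ S →
      0 ≤ ∑ c ∈ F, f' l e c z * y (b, F.erase c, c, e) z := fun b z hz hzσ =>
    Finset.sum_nonneg fun c hc => mul_nonneg (hsc.f1 l e he c (hF hc) z hz hzσ) (y0 _ z hz)
  have ev : ∀ (b : Bool) (z : ℝ),
      ∑ c ∈ F, (f' l e c z * y (b, F.erase c, c, e) z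
        + f l e c z * (-hR U T gp gm H N z (fun j => u j z) (b, F.erase c, c, e)))
      = ∑ c ∈ F, f' l e c z * y (b, F.erase c, c, e) z
        - ∑ c ∈ F, f l e c z * hR U T gp gm H N z (fun j => u j z) (b, F.erase c, c, e) :=
    fun b z => by
      rw [← Finset.sum_sub_distrib]
      exact Finset.sum_congr rfl fun e _ => by ring
  have hv : ∀ c ∈ F, VP U (F.erase c) c e := fun c hc =>
    ⟨(Finset.erase_subset _ _).trans hF, hF hc, he, Finset.notMem_erase _ _,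
      fun h => heF (Finset.mem_of_mem_erase h), fun h => heF (h ▸ hc)⟩
  have ple : ∀ z ∈ Icc 0 τ, z ∉ S → ∀ x ∈ U, ∀ G ⊆ U, x ∉ G →
      ∑ c ∈ G, π.f l x c z * u (true, G.erase c, c, x) z ≤ π.P l x G z :=
    fun z hz hzσ x hx G hG hxG => hsc.πP.sum_le hx hG hxG hz hzσ
      (u := fun c => u (true, G.erase c, c, x) z) (fun c => (hL z hz).u0 _)
      fun m => (ht m z hz x hx G hG hxG).1
  have qle : ∀ z ∈ Icc 0 τ, z ∉ S → ∀ x ∈ U, ∀ G ⊆ U, x ∉ G →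
      ∑ c ∈ G, π.f l x c z * u (false, G.erase c, c, x) z ≤ π.Q l x G z :=
    fun z hz hzσ x hx G hG hxG => hsc.πQ.sum_le hx hG hxG hz hzσ
      (u := fun c => u (false, G.erase c, c, x) z) (fun c => (hL z hz).u0 _)
      fun m => (ht m z hz x hx G hG hxG).2
  have sN : ∀ z ∈ Icc 0 τ, z ∉ S → ∀ x ∈ U, ∀ G ⊆ U, x ∉ G → ∑ c ∈ G, π.f l x c z *
      nuF (fun F c e => N F c e z) (fun i => u i z) c (G.erase c) x
        ≤ π.N l x G z + π.Q l x G z := fun z hz hzσ x hx G hG hxG => by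
    refine le_trans (le_of_eq ?_) (add_le_add (hsc.πN l x hx G hG hxG z hz hzσ)
      (qle z hz hzσ x hx G hG hxG))
    rw [← Finset.sum_add_distrib]
    exact Finset.sum_congr rfl fun c _ => by unfold nuF; ring
  have sD : ∀ z ∈ Icc 0 τ, z ∉ S → ∀ x ∈ U, ∀ G ⊆ U, x ∉ G → ∑ c ∈ G, π.f l x c z *
      (D (G.erase c) c x z + c4 z * u (true, G.erase c, c, x) z)
        ≤ π.D l x G z + c4 z * π.P l x G z := fun z hz hzσ x hx G hG hxG => by
    refine le_trans (le_of_eq ?_) (add_le_add (hsc.πD l x hx G hG hxG z hz hzσ)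
      (mul_le_mul_of_nonneg_left (ple z hz hzσ x hx G hG hxG) (hL z hz).c40))
    rw [Finset.mul_sum, ← Finset.sum_add_distrib]
    exact Finset.sum_congr rfl fun c _ => by ring
  have sE : ∀ z ∈ Icc 0 τ, z ∉ S → ∀ x ∈ U, ∀ G ⊆ U, x ∉ G → ∑ c ∈ G, π.f l x c z *
      (E (G.erase c) c x z + c1 z * u (true, G.erase c, c, x) z)
        ≤ π.E l x G z + c1 z * π.P l x G z := fun z hz hzσ x hx G hG hxG => by
    refine le_trans (le_of_eq ?_) (add_le_add (hsc.πE l x hx G hG hxG z hz hzσ)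
      (mul_le_mul_of_nonneg_left (ple z hz hzσ x hx G hG hxG) (hL z hz).c10))
    rw [Finset.mul_sum, ← Finset.sum_add_distrib]
    exact Finset.sum_congr rfl fun c _ => by ring
  have fle : ∀ z ∈ Icc 0 τ, z ∉ S → ∀ x ∈ F, ∀ c ∈ F.erase x, f l e c z ≤ π.f l x c z :=
    fun z hz hzσ x hx c hc => hsc.fπ l e he x (hF hx) c (hF (Finset.mem_of_mem_erase hc))
      (fun h => heF (h ▸ hx)) (fun h => heF (h ▸ Finset.mem_of_mem_erase hc))
      (fun h => (Finset.ne_of_mem_erase hc) h.symm) z hz hzσ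
  constructor
  · refine back_le_fin S (f := fun z => ∑ c ∈ F, f l e c z * y (true, F.erase c, c, e) z)
      (g := P l e F) (g' := P' l e F)
      (f' := fun z => ∑ c ∈ F, (f' l e c z * y (true, F.erase c, c, e) z
        + f l e c z * (-hR U T gp gm H N z (fun j => u j z) (true, F.erase c, c, e))))
      (continuousOn_finsetSum _ fun c hc => (hsc.cf l e he c (hF hc)).mul (hy _))
      (hsc.cP l e he F hF heF)
      (fun z hz hzσ => HasDerivAt.fun_sum fun c hc =>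
        (hsc.df l e he c (hF hc) z (io z hz) hzσ).mul (hp.2.2.1 _ z (io z hz)))
      (fun z hz hzσ => hsc.dP l e he F hF heF z (io z hz) hzσ) (fun z hz0 hzσ => ?_) ?_ r hr
    · have hz := io z hz0
      have k := (hL z hz).tgtP (F := F) (e := e) (fl := fun c => f l e c z)
        (fb := fun x c => π.f l x c z) hF he heF (fun c hc => hsc.f0 l e he c (hF hc) z hz)
        (fle z hz hzσ) (sN z hz hzσ) (sD z hz hzσ) (w := fun m x => w m e x z)
        (Gn := fun m => Gn l m e F z) (Gd := fun m => Gd l m e F z)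
        (bp := fun m => bp m e F z) (bm := fun m => bm m e F z)
        (fun m => hsc.Gn0 l m e he F hF heF z hz) (fun m => hsc.Gd0 l m e he F hF heF z hz)
        (fun x hx => hsc.kA l e he F hF heF x hx z hz hzσ)
        (fun x hx => hsc.kB l e he F hF heF x hx z hz hzσ)
        (fun m => hsc.rp m e he F hF heF z hz hzσ) (fun m => hsc.rm m e he F hF heF z hz hzσ)
      have s := hsc.sP l e he F hF heF z hz hzσ
      have e1 : ∑ c ∈ F, f l e c z * hR U T gp gm H N z (fun j => u j z) (true, F.erase c, c, e)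
          = ∑ c ∈ F, f l e c z * RpF (T z) (fun F i j => gp F i j z) (fun F i j => gm F i j z)
            (puF (fun F c e => H F c e z) (fun j => u j z) c)
            (nuF (fun F c e => N F c e z) (fun j => u j z) c) (F.erase c) e :=
        Finset.sum_congr rfl fun c hc => by rw [hR_t (hv c hc)]
      have n := nn true z hz hzσ
      show P' l e F z ≤ ∑ c ∈ F, (f' l e c z * y (true, F.erase c, c, e) z
        + f l e c z * (-hR U T gp gm H N z (fun j => u j z) (true, F.erase c, c, e)))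
      rw [ev, e1]
      linarith
    · have : ∑ c ∈ F, f l e c τ * y (true, F.erase c, c, e) τ = 0 :=
        Finset.sum_eq_zero fun c _ => by rw [hp.2.2.2, mul_zero]
      show ∑ c ∈ F, f l e c τ * y (true, F.erase c, c, e) τ ≤ P l e F τ
      rw [this]
      exact hsc.P0 l e he F hF heF τ hτ
  · refine back_le_fin S (f := fun z => ∑ c ∈ F, f l e c z * y (false, F.erase c, c, e) z)
      (g := Q l e F) (g' := Q' l e F)
      (f' := fun z => ∑ c ∈ F, (f' l e c z * y (false, F.erase c, c, e) z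
        + f l e c z * (-hR U T gp gm H N z (fun j => u j z) (false, F.erase c, c, e))))
      (continuousOn_finsetSum _ fun c hc => (hsc.cf l e he c (hF hc)).mul (hy _))
      (hsc.cQ l e he F hF heF)
      (fun z hz hzσ => HasDerivAt.fun_sum fun c hc =>
        (hsc.df l e he c (hF hc) z (io z hz) hzσ).mul (hp.2.2.1 _ z (io z hz)))
      (fun z hz hzσ => hsc.dQ l e he F hF heF z (io z hz) hzσ) (fun z hz0 hzσ => ?_) ?_ r hr
    · have hz := io z hz0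
      have k := (hL z hz).tgtN (F := F) (e := e) (fl := fun c => f l e c z)
        (fb := fun x c => π.f l x c z) hF he heF (fun c hc => hsc.f0 l e he c (hF hc) z hz)
        (fle z hz hzσ) (sN z hz hzσ) (sD z hz hzσ) (sE z hz hzσ) (w := fun m x => w m e x z)
        (Gn := fun m => Gn l m e F z) (Gd := fun m => Gd l m e F z)
        (bp := fun m => bp m e F z) (bm := fun m => bm m e F z)
        (fun m => hsc.Gn0 l m e he F hF heF z hz) (fun m => hsc.Gd0 l m e he F hF heF z hz)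
        (fun x hx => hsc.kA l e he F hF heF x hx z hz hzσ)
        (fun x hx => hsc.kB l e he F hF heF x hx z hz hzσ)
        (fun m => hsc.rp m e he F hF heF z hz hzσ) (fun m => hsc.rm m e he F hF heF z hz hzσ)
      have s := hsc.sQ l e he F hF heF z hz hzσ
      have e1 : ∑ c ∈ F, f l e c z * hR U T gp gm H N z (fun j => u j z) (false, F.erase c, c, e)
          = ∑ c ∈ F, f l e c z * RnF (T z) (fun F i j => gp F i j z) (fun F i j => gm F i j z)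
            (puF (fun F c e => H F c e z) (fun j => u j z) c)
            (nuF (fun F c e => N F c e z) (fun j => u j z) c) (F.erase c) e :=
        Finset.sum_congr rfl fun c hc => by rw [hR_f (hv c hc)]
      have n := nn false z hz hzσ
      show Q' l e F z ≤ ∑ c ∈ F, (f' l e c z * y (false, F.erase c, c, e) z
        + f l e c z * (-hR U T gp gm H N z (fun j => u j z) (false, F.erase c, c, e)))
      rw [ev, e1]
      linarith
    · have : ∑ c ∈ F, f l e c τ * y (false, F.erase c, c, e) τ = 0 :=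
        Finset.sum_eq_zero fun c _ => by rw [hp.2.2.2, mul_zero]
      show ∑ c ∈ F, f l e c τ * y (false, F.erase c, c, e) τ ≤ Q l e F τ
      rw [this]
      exact hsc.Q0 l e he F hF heF τ hτ

/-- one Picard step keeps the position sums -/
theorem step_posF {w w' v : Λ → V → V → ℝ → ℝ} {φp φm : Λ → V → Finset V → ℝ → ℝ}
    {Kn Kp Ke Km : Λ → Λ → V → Finset V → ℝ → ℝ}
    {NB DB EB P P' Q Q' : Λ → V → Finset V → ℝ → ℝ}
    (hsc : ScPF U τ S T gp gm N D E c1 c4 w w' v φp φm Kn Kp Ke Km NB DB EB P P' Q Q')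
    {u y : IxF V → ℝ → ℝ} (hp : Pst τ (hR U T gp gm H N) u y)
    (y0 : ∀ i, ∀ r ∈ Icc 0 τ, 0 ≤ y i r)
    (ht : ∀ m, ∀ r ∈ Icc 0 τ, PgF U (fun c e => w m c e r) (fun c F => P m c F r)
      (fun c F => Q m c F r) fun i => u i r)
    (hL : ∀ r ∈ Icc 0 τ,
      LbF U (T r) (fun F x y => gp F x y r) (fun F x y => gm F x y r) (fun F c e => H F c e r)
        (fun F c e => N F c e r) (fun F c e => D F c e r) (fun F c e => E F c e r)
        (c1 r) (c4 r) fun i => u i r) (m : Λ) :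
    ∀ r ∈ Icc 0 τ, PgF U (fun c e => w m c e r) (fun c F => P m c F r) (fun c F => Q m c F r)
      fun i => y i r := by
  intro r hr c hc F hF hcF
  have hy : ∀ i, ContinuousOn (y i) (Icc 0 τ) := fun i z hz =>
    (hp.2.2.1 i z hz).continuousAt.continuousWithinAt
  have hτ : τ ∈ Icc 0 τ := ⟨hr.1.trans hr.2, le_rfl⟩
  have io : ∀ z ∈ Ioo 0 τ, z ∈ Icc 0 τ := fun z hz => Ioo_subset_Icc_self hz
  have nn : ∀ (b : Bool) (z : ℝ), z ∈ Icc 0 τ → z ∉ S →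
      0 ≤ ∑ e ∈ F, w' m c e z * y (b, F.erase e, c, e) z := fun b z hz hzσ =>
    Finset.sum_nonneg fun e he => mul_nonneg (hsc.w1 m c hc e (hF he) z hz hzσ) (y0 _ z hz)
  have ev : ∀ (b : Bool) (z : ℝ),
      ∑ e ∈ F, (w' m c e z * y (b, F.erase e, c, e) z
        + w m c e z * (-hR U T gp gm H N z (fun j => u j z) (b, F.erase e, c, e)))
      = ∑ e ∈ F, w' m c e z * y (b, F.erase e, c, e) z
        - ∑ e ∈ F, w m c e z * hR U T gp gm H N z (fun j => u j z) (b, F.erase e, c, e) :=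
    fun b z => by
      rw [← Finset.sum_sub_distrib]
      exact Finset.sum_congr rfl fun e _ => by ring
  have hv : ∀ e ∈ F, VP U (F.erase e) c e := fun e he =>
    ⟨(Finset.erase_subset _ _).trans hF, hc, hF he, fun h => hcF (Finset.mem_of_mem_erase h),
      Finset.notMem_erase _ _, fun h => hcF (h ▸ he)⟩
  have sN : ∀ m', ∀ z ∈ Icc 0 τ, z ∉ S → ∑ x ∈ F, w m' c x z *
      nuF (fun F c e => N F c e z) (fun i => u i z) c (F.erase x) x
        ≤ NB m' c F z + Q m' c F z := fun m' z hz hzσ => by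
    refine le_trans (le_of_eq ?_) (add_le_add (hsc.hN m' c hc F hF hcF z hz hzσ)
      (ht m' z hz c hc F hF hcF).2)
    rw [← Finset.sum_add_distrib]
    exact Finset.sum_congr rfl fun c _ => by unfold nuF; ring
  have sD : ∀ m', ∀ z ∈ Icc 0 τ, z ∉ S → ∑ x ∈ F, w m' c x z *
      (D (F.erase x) c x z + c4 z * u (true, F.erase x, c, x) z)
        ≤ DB m' c F z + c4 z * P m' c F z := fun m' z hz hzσ => by
    refine le_trans (le_of_eq ?_) (add_le_add (hsc.hD m' c hc F hF hcF z hz hzσ)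
      (mul_le_mul_of_nonneg_left (ht m' z hz c hc F hF hcF).1 (hL z hz).c40))
    rw [Finset.mul_sum, ← Finset.sum_add_distrib]
    exact Finset.sum_congr rfl fun c _ => by ring
  have wle : ∀ z ∈ Icc 0 τ, z ∉ S → ∀ x ∈ F, ∀ e ∈ F.erase x, w m c e z ≤ v m x e z :=
    fun z hz hzσ x hx e he => hsc.wv m c hc x (hF hx) e (hF (Finset.mem_of_mem_erase he))
      (fun h => hcF (h ▸ hx)) (fun h => hcF (h ▸ Finset.mem_of_mem_erase he))
      (fun h => (Finset.ne_of_mem_erase he) h.symm) z hz hzσ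
  constructor
  · refine back_le_fin S (f := fun z => ∑ e ∈ F, w m c e z * y (true, F.erase e, c, e) z)
      (g := P m c F) (g' := P' m c F)
      (f' := fun z => ∑ e ∈ F, (w' m c e z * y (true, F.erase e, c, e) z
        + w m c e z * (-hR U T gp gm H N z (fun j => u j z) (true, F.erase e, c, e))))
      (continuousOn_finsetSum _ fun e he => (hsc.cw m c hc e (hF he)).mul (hy _))
      (hsc.cP m c hc F hF hcF)
      (fun z hz hzσ => HasDerivAt.fun_sum fun e he =>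
        (hsc.dw m c hc e (hF he) z (io z hz) hzσ).mul (hp.2.2.1 _ z (io z hz)))
      (fun z hz hzσ => hsc.dP m c hc F hF hcF z (io z hz) hzσ) (fun z hz0 hzσ => ?_) ?_ r hr
    · have hz := io z hz0
      have k := (hL z hz).posP (F := F) (c := c) (wl := fun e => w m c e z)
        (wb := fun x e => v m x e z) (φp := fun x G => φp m x G z) (φm := fun x G => φm m x G z)
        hF hc hcF (fun e he => hsc.w0 m c hc e (hF he) z hz) (wle z hz hzσ)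
        (fun x hx G hG hxG => hsc.rp m x hx G hG hxG z hz hzσ)
        (fun x hx G hG hxG => hsc.rm m x hx G hG hxG z hz hzσ)
        (w := fun m' x => w m' c x z) (Kn := fun m' => Kn m m' c F z)
        (Kd := fun m' => Kp m m' c F z) (An := fun m' => NB m' c F z + Q m' c F z)
        (Ad := fun m' => DB m' c F z + c4 z * P m' c F z)
        (fun m' => hsc.Kn0 m m' c hc F hF hcF z hz) (fun m' => hsc.Kp0 m m' c hc F hF hcF z hz)
        (fun x hx => hsc.kn m c hc F hF hcF x hx z hz hzσ)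
        (fun x hx => hsc.kp m c hc F hF hcF x hx z hz hzσ)
        (fun m' => sN m' z hz hzσ) (fun m' => sD m' z hz hzσ)
      have s := hsc.sP m c hc F hF hcF z hz hzσ
      have e1 : ∑ e ∈ F, w m c e z * hR U T gp gm H N z (fun j => u j z) (true, F.erase e, c, e)
          = ∑ e ∈ F, w m c e z * RpF (T z) (fun F i j => gp F i j z) (fun F i j => gm F i j z)
            (puF (fun F c e => H F c e z) (fun j => u j z) c)
            (nuF (fun F c e => N F c e z) (fun j => u j z) c) (F.erase e) e :=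
        Finset.sum_congr rfl fun e he => by rw [hR_t (hv e he)]
      have n := nn true z hz hzσ
      show P' m c F z ≤ ∑ e ∈ F, (w' m c e z * y (true, F.erase e, c, e) z
        + w m c e z * (-hR U T gp gm H N z (fun j => u j z) (true, F.erase e, c, e)))
      rw [ev, e1]
      linarith
    · have : ∑ e ∈ F, w m c e τ * y (true, F.erase e, c, e) τ = 0 :=
        Finset.sum_eq_zero fun e _ => by rw [hp.2.2.2, mul_zero]
      show ∑ e ∈ F, w m c e τ * y (true, F.erase e, c, e) τ ≤ P m c F τ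
      rw [this]
      exact hsc.P0 m c hc F hF hcF τ hτ
  · refine back_le_fin S (f := fun z => ∑ e ∈ F, w m c e z * y (false, F.erase e, c, e) z)
      (g := Q m c F) (g' := Q' m c F)
      (f' := fun z => ∑ e ∈ F, (w' m c e z * y (false, F.erase e, c, e) z
        + w m c e z * (-hR U T gp gm H N z (fun j => u j z) (false, F.erase e, c, e))))
      (continuousOn_finsetSum _ fun e he => (hsc.cw m c hc e (hF he)).mul (hy _))
      (hsc.cQ m c hc F hF hcF)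
      (fun z hz hzσ => HasDerivAt.fun_sum fun e he =>
        (hsc.dw m c hc e (hF he) z (io z hz) hzσ).mul (hp.2.2.1 _ z (io z hz)))
      (fun z hz hzσ => hsc.dQ m c hc F hF hcF z (io z hz) hzσ) (fun z hz0 hzσ => ?_) ?_ r hr
    · have hz := io z hz0
      have k := (hL z hz).posN' (F := F) (c := c) (wl := fun e => w m c e z)
        (wb := fun x e => v m x e z) (φp := fun x G => φp m x G z) (φm := fun x G => φm m x G z)
        hF hc hcF (fun e he => hsc.w0 m c hc e (hF he) z hz) (wle z hz hzσ)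
        (fun x hx G hG hxG => hsc.rp m x hx G hG hxG z hz hzσ)
        (fun x hx G hG hxG => hsc.rm m x hx G hG hxG z hz hzσ)
        (w := fun m' x => w m' c x z) (Ke := fun m' => Ke m m' c F z)
        (Kn := fun m' => Kp m m' c F z) (Kd := fun m' => Km m m' c F z)
        (P := fun m' => P m' c F z) (An := fun m' => NB m' c F z + Q m' c F z)
        (Ad := fun m' => DB m' c F z + c4 z * P m' c F z) (Es := EB m c F z)
        (fun m' => hsc.Ke0 m m' c hc F hF hcF z hz) (fun m' => hsc.Kp0 m m' c hc F hF hcF z hz)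
        (fun m' => hsc.Km0 m m' c hc F hF hcF z hz) (hsc.hE m c hc F hF hcF z hz hzσ)
        (fun x hx => hsc.ke m c hc F hF hcF x hx z hz hzσ)
        (fun x hx => hsc.kp m c hc F hF hcF x hx z hz hzσ)
        (fun x hx => hsc.km m c hc F hF hcF x hx z hz hzσ)
        (fun m' => (ht m' z hz c hc F hF hcF).1) (fun m' => sN m' z hz hzσ)
        (fun m' => sD m' z hz hzσ)
      have s := hsc.sQ m c hc F hF hcF z hz hzσ
      have e1 : ∑ e ∈ F, w m c e z * hR U T gp gm H N z (fun j => u j z) (false, F.erase e, c, e)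
          = ∑ e ∈ F, w m c e z * RnF (T z) (fun F i j => gp F i j z) (fun F i j => gm F i j z)
            (puF (fun F c e => H F c e z) (fun j => u j z) c)
            (nuF (fun F c e => N F c e z) (fun j => u j z) c) (F.erase e) e :=
        Finset.sum_congr rfl fun e he => by rw [hR_f (hv e he)]
      have n := nn false z hz hzσ
      show Q' m c F z ≤ ∑ e ∈ F, (w' m c e z * y (false, F.erase e, c, e) z
        + w m c e z * (-hR U T gp gm H N z (fun j => u j z) (false, F.erase e, c, e)))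
      rw [ev, e1]
      linarith
    · have : ∑ e ∈ F, w m c e τ * y (false, F.erase e, c, e) τ = 0 :=
        Finset.sum_eq_zero fun e _ => by rw [hp.2.2.2, mul_zero]
      show ∑ e ∈ F, w m c e τ * y (false, F.erase e, c, e) τ ≤ Q m c F τ
      rw [this]
      exact hsc.Q0 m c hc F hF hcF τ hτ

end

end Pool.Agent.RZ.RCO
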