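import Pool.Agent.RZ.RCM.Row
import Pool.Agent.RZ.RCO.Hl4

/-! Level 1 indexed by the world: joint invariance of the families of sums, the exact solution with
all bounds, comparison of two data sets (MP_73ccd0_lc). -/

namespace Pool.Agent.RZ.RCO

open Set Finset Pool.Agent.RZ.RCRSHalf Pool.Agent.RZ.RCRSGen Pool.Agent.RZ.RCG Pool.Agent.RZ.RCM

set_option linter.unusedSectionVars false

variable {V : Type*} [Fintype V] [DecidableEq V]

/-- all bounds of level 1 -/
def AllPF (U : Finset V) {L Λ : Type*} (f : L → V → V → ℝ → ℝ) (P Q : L → V → Finset V → ℝ → ℝ)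
    (w : Λ → V → V → ℝ → ℝ) (Pc Qc : Λ → V → Finset V → ℝ → ℝ) (r : ℝ) (u : IxF V → ℝ) : Prop :=
  B0F U u ∧ (∀ l, TgF U (fun e c => f l e c r) (fun e F => P l e F r) (fun e F => Q l e F r) u) ∧
    ∀ m, PgF U (fun c e => w m c e r) (fun c F => Pc m c F r) (fun c F => Qc m c F r) u

section

variable {U : Finset V} {τ : ℝ} {S : Finset ℝ} {T : ℝ → V → V → ℝ}
  {gp gm H N D E : Finset V → V → V → ℝ → ℝ} {c1 c4 : ℝ → ℝ} {L : Type*} {Λ Λ' : Type*}
  [Fintype Λ] [Fintype Λ']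
  {w0 : Λ' → V → V → ℝ → ℝ} {bp bm : Λ' → V → Finset V → ℝ → ℝ} {π : VrT V L}
  {f f' : L → V → V → ℝ → ℝ} {NB DB EB P P' Q Q' : L → V → Finset V → ℝ → ℝ}
  {Gn Gd : L → Λ' → V → Finset V → ℝ → ℝ}
  {w w' v : Λ → V → V → ℝ → ℝ} {φp φm : Λ → V → Finset V → ℝ → ℝ}
  {Kn Kp Ke Km : Λ → Λ → V → Finset V → ℝ → ℝ}
  {NBc DBc EBc Pc Pc' Qc Qc' : Λ → V → Finset V → ℝ → ℝ}

/-- **the families of target sums and of position sums are jointly invariant** -/
theorem inv_allF (hs : SgF U τ T gp gm H N)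
    (hT : ScTF U τ S T gp gm N D E c1 c4 w0 bp bm π f f' NB DB EB P P' Q Q' Gn Gd)
    (hP : ScPF U τ S T gp gm N D E c1 c4 w w' v φp φm Kn Kp Ke Km NBc DBc EBc Pc Pc' Qc Qc')
    (hL : ∀ r ∈ Icc 0 τ, ∀ u : IxF V → ℝ, AllPF U f P Q w Pc Qc r u →
      LbF U (T r) (fun F x y => gp F x y r) (fun F x y => gm F x y r) (fun F c e => H F c e r)
        (fun F c e => N F c e r) (fun F c e => D F c e r) (fun F c e => E F c e r)
        (c1 r) (c4 r) u) :
    Inv τ (hR U T gp gm H N) (AllPF U f P Q w Pc Qc) := by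
  refine (inv_B0F hs).and (fun r hr => ?_)
    (fun r hr => ⟨fun l e he F hF heF => ?_, fun m c hc F hF hcF => ?_⟩) fun u y hp hc ht => ?_
  · have e : {u : IxF V → ℝ | (∀ l, TgF U (fun e c => f l e c r) (fun e F => P l e F r)
          (fun e F => Q l e F r) u) ∧
        ∀ m, PgF U (fun c e => w m c e r) (fun c F => Pc m c F r) (fun c F => Qc m c F r) u}
        = (⋂ l, {u | TgF U (fun e c => f l e c r) (fun e F => P l e F r)
            (fun e F => Q l e F r) u})
          ∩ ⋂ m, {u | PgF U (fun c e => w m c e r) (fun c F => Pc m c F r)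
            (fun c F => Qc m c F r) u} := by
      ext u; simp
    rw [e]
    exact (isClosed_iInter fun l => TgF_closed _ _ _ _).inter
      (isClosed_iInter fun m => PgF_closed _ _ _ _)
  · exact ⟨by simpa using hT.P0 l e he F hF heF r hr, by simpa using hT.Q0 l e he F hF heF r hr⟩
  · exact ⟨by simpa using hP.P0 m c hc F hF hcF r hr, by simpa using hP.Q0 m c hc F hF hcF r hr⟩
  · have y0 : ∀ i, ∀ r ∈ Icc 0 τ, 0 ≤ y i r := fun i r hr => ((inv_B0F hs).st u y hp hc r hr).1 i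
    have lb := fun r hr => hL r hr (fun i => u i r) ⟨hc r hr, ht r hr⟩
    exact fun r hr => ⟨fun l => step_tgtF hT hp y0 (fun l z hz => (ht z hz).1 l) lb l r hr,
      fun m => step_posF hP hp y0 (fun m z hz => (ht z hz).2 m) lb m r hr⟩

/-- **the exact solution of level 1** with the families of target and position sums; the target
weights of `l0` are at least `wm > 0`, which bounds the entries -/
theorem exists_allF (hτ : 0 ≤ τ) (hs : SgF U τ T gp gm H N)
    (hT : ScTF U τ S T gp gm N D E c1 c4 w0 bp bm π f f' NB DB EB P P' Q Q' Gn Gd)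
    (hP : ScPF U τ S T gp gm N D E c1 c4 w w' v φp φm Kn Kp Ke Km NBc DBc EBc Pc Pc' Qc Qc')
    (hL : ∀ r ∈ Icc 0 τ, ∀ u : IxF V → ℝ, AllPF U f P Q w Pc Qc r u →
      LbF U (T r) (fun F x y => gp F x y r) (fun F x y => gm F x y r) (fun F c e => H F c e r)
        (fun F c e => N F c e r) (fun F c e => D F c e r) (fun F c e => E F c e r)
        (c1 r) (c4 r) u) (l0 : L) {wm : ℝ} (hwm : 0 < wm)
    (hl0 : ∀ e ∈ U, ∀ c ∈ U, e ≠ c → ∀ r ∈ Icc 0 τ, wm ≤ f l0 e c r) :
    ∃ g : IxF V → ℝ → ℝ,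
      (∀ i, ∀ r ∈ Icc 0 τ, HasDerivAt (g i) (-hR U T gp gm H N r (fun j => g j r) i) r) ∧
      (∀ i, g i τ = 0) ∧ (∀ i, ∀ r ∈ Icc 0 τ, 0 ≤ g i r) ∧
      (∀ r ∈ Icc 0 τ, AllPF U f P Q w Pc Qc r fun i => g i r) ∧
      ∀ C : ℝ → (IxF V → ℝ) → Prop, Inv τ (hR U T gp gm H N) C →
        ∀ r ∈ Icc 0 τ, C r fun i => g i r := by
  classical
  have hI := inv_allF hs hT hP hL
  let Kx := Bool × {q : V × Finset V // q.1 ∈ U ∧ q.2 ⊆ U ∧ q.1 ∉ q.2}
  obtain ⟨M, M0, hM⟩ := exists_bound (κ := Kx) (t := τ)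
    (f := fun k r => if k.1 then P l0 k.2.1.1 k.2.1.2 r else Q l0 k.2.1.1 k.2.1.2 r)
    (fun k => by
      obtain ⟨b, ⟨⟨e, F⟩, h1, h2, h3⟩⟩ := k
      cases b
      · exact hT.cQ l0 e h1 F h2 h3
      · exact hT.cP l0 e h1 F h2 h3)
  obtain ⟨g, dg, gz, g0, gB, gI⟩ := exists_l1F hτ hs hI (M := M / wm) (fun r hr u hu i => by
    obtain ⟨b, F, c, e⟩ := i
    by_cases hv : VP U F c e
    · obtain ⟨hF, hc, he, hcF, heF, hce⟩ := hv
      have hF' : insert c F ⊆ U := Finset.insert_subset hc hF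
      have heF' : e ∉ insert c F := by
        rw [Finset.mem_insert]; rintro (h | h)
        · exact hce h.symm
        · exact heF h
      have key : wm * u (b, F, c, e)
          ≤ ∑ c' ∈ insert c F, f l0 e c' r * u (b, (insert c F).erase c', c', e) := by
        have h1 := Finset.single_le_sum
          (f := fun c' => f l0 e c' r * u (b, (insert c F).erase c', c', e))
          (fun c' hc' => mul_nonneg (hT.f0 l0 e he c' (hF' hc') r hr) (hu.1.1 _))
          (Finset.mem_insert_self c F)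
        simp only [Finset.erase_insert hcF] at h1
        exact (mul_le_mul_of_nonneg_right (hl0 e he c hc hce.symm r hr) (hu.1.1 _)).trans h1
      obtain ⟨h1, h2⟩ := hu.2.1 l0 e he (insert c F) hF' heF'
      rw [le_div_iff₀ hwm, mul_comm]
      cases b
      · exact (key.trans h2).trans (hM (false, ⟨(e, insert c F), he, hF', heF'⟩) r hr)
      · exact (key.trans h1).trans (hM (true, ⟨(e, insert c F), he, hF', heF'⟩) r hr)
    · rw [hu.1.2.1 b F c e hv]; positivity)
  exact ⟨g, dg, gz, g0, fun r hr => gI _ hI r hr, gI⟩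

end

/-! ### comparison of two data sets -/

section cmp

end cmp

end Pool.Agent.RZ.RCO
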