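import Pool.Agent.RZ.RCO.Ex10_1
import Pool.Agent.RZ.RCO.Ex9
import Pool.Agent.RZ.RCO.Hf4
import Pool.Agent.RZ.RCO.Hl5

/-! Route P: the exact solutions of a world with all bounds, from bundled data (MP_73ccd0_lc). -/

namespace Pool.Agent.RZ.RCO

open Set Finset MeasureTheory Pool.Agent.RZ.RCRSHalf Pool.Agent.RZ.RCG Pool.Agent.RZ.RCG.Ct
open Pool.Agent.RZ.RCN Pool.Agent.RZ.RCN.K

set_option linter.unusedSectionVars false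

variable {V : Type*} [Fintype V] [DecidableEq V]

/-! ### bundled data -/

/-- the data of the weighted row bounds of level 1/2 -/
structure R12 (V Λ : Type*) where
  π : VrR V Λ
  w : Λ → V → V → ℝ → ℝ
  w' : Λ → V → V → ℝ → ℝ
  φ : Bool → Λ → V → Finset V → ℝ → ℝ
  φ' : Bool → Λ → V → Finset V → ℝ → ℝ
  Gp : Λ → Λ → V → Finset V → ℝ → ℝ
  Gm : Λ → Λ → V → Finset V → ℝ → ℝ
  α : Λ → V → Finset V → ℝ → ℝ
  β : Λ → V → Finset V → ℝ → ℝ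

/-- the conditions of the row bounds -/
def R12.Ok {Λ : Type*} [Fintype Λ] (d : R12 V Λ) (U : Finset V) (τ : ℝ) (S : Finset ℝ)
    (T A B : ℝ → V → V → ℝ) : Prop :=
  RDatF U τ S T A B d.π d.w d.w' d.φ d.φ' d.Gp d.Gm d.α d.β

/-- the row bounds -/
structure R12.Rows {Λ : Type*} (d : R12 V Λ) (U : Finset V) (τ : ℝ)
    (gp gm : Finset V → V → V → ℝ → ℝ) : Prop where
  p : ∀ l, ∀ i ∈ U, ∀ F ⊆ U, i ∉ F → ∀ r ∈ Icc 0 τ,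
    ∑ j ∈ F, d.w l i j r * gp (F.erase j) i j r ≤ d.φ true l i F r
  m : ∀ l, ∀ i ∈ U, ∀ F ⊆ U, i ∉ F → ∀ r ∈ Icc 0 τ,
    ∑ j ∈ F, d.w l i j r * gm (F.erase j) i j r ≤ d.φ false l i F r

/-- the data of the target and position sums of level 1 -/
structure S1 (V L Λ Λ' : Type*) where
  D : Finset V → V → V → ℝ → ℝ
  E : Finset V → V → V → ℝ → ℝ
  c1 : ℝ → ℝ
  c4 : ℝ → ℝ
  w0 : Λ' → V → V → ℝ → ℝ
  bp : Λ' → V → Finset V → ℝ → ℝ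
  bm : Λ' → V → Finset V → ℝ → ℝ
  π : VrT V L
  f : L → V → V → ℝ → ℝ
  f' : L → V → V → ℝ → ℝ
  NB : L → V → Finset V → ℝ → ℝ
  DB : L → V → Finset V → ℝ → ℝ
  EB : L → V → Finset V → ℝ → ℝ
  P : L → V → Finset V → ℝ → ℝ
  P' : L → V → Finset V → ℝ → ℝ
  Q : L → V → Finset V → ℝ → ℝ
  Q' : L → V → Finset V → ℝ → ℝ
  Gn : L → Λ' → V → Finset V → ℝ → ℝ
  Gd : L → Λ' → V → Finset V → ℝ → ℝ
  w : Λ → V → V → ℝ → ℝ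
  w' : Λ → V → V → ℝ → ℝ
  v : Λ → V → V → ℝ → ℝ
  φp : Λ → V → Finset V → ℝ → ℝ
  φm : Λ → V → Finset V → ℝ → ℝ
  Kn : Λ → Λ → V → Finset V → ℝ → ℝ
  Kp : Λ → Λ → V → Finset V → ℝ → ℝ
  Ke : Λ → Λ → V → Finset V → ℝ → ℝ
  Km : Λ → Λ → V → Finset V → ℝ → ℝ
  NBc : Λ → V → Finset V → ℝ → ℝ
  DBc : Λ → V → Finset V → ℝ → ℝ
  EBc : Λ → V → Finset V → ℝ → ℝ
  Pc : Λ → V → Finset V → ℝ → ℝ
  Pc' : Λ → V → Finset V → ℝ → ℝ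
  Qc : Λ → V → Finset V → ℝ → ℝ
  Qc' : Λ → V → Finset V → ℝ → ℝ

section s1

variable {L Λ Λ' : Type*} [Fintype Λ] [Fintype Λ']

/-- all sums of level 1 at one time -/
def S1.All (s : S1 V L Λ Λ') (U : Finset V) (r : ℝ) (u : IxF V → ℝ) : Prop :=
  AllPF U s.f s.P s.Q s.w s.Pc s.Qc r u

/-- the linear bounds at one time -/
def S1.Lb (s : S1 V L Λ Λ') (U : Finset V) (T : ℝ → V → V → ℝ)
    (gp gm H N : Finset V → V → V → ℝ → ℝ) (r : ℝ) (u : IxF V → ℝ) : Prop :=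
  LbF U (T r) (fun F x y => gp F x y r) (fun F x y => gm F x y r) (fun F c e => H F c e r)
    (fun F c e => N F c e r) (fun F c e => s.D F c e r) (fun F c e => s.E F c e r)
    (s.c1 r) (s.c4 r) u

/-- the conditions of the sums of level 1 with the upper functions `H` and the lower functions `N`
of the first part -/
structure S1.Ok (s : S1 V L Λ Λ') (U : Finset V) (σ : ℝ) (S : Finset ℝ) (T : ℝ → V → V → ℝ)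
    (gp gm H N : Finset V → V → V → ℝ → ℝ) : Prop where
  t : ScTF U σ S T gp gm N s.D s.E s.c1 s.c4 s.w0 s.bp s.bm s.π s.f s.f' s.NB s.DB s.EB
    s.P s.P' s.Q s.Q' s.Gn s.Gd
  p : ScPF U σ S T gp gm N s.D s.E s.c1 s.c4 s.w s.w' s.v s.φp s.φm s.Kn s.Kp s.Ke s.Km
    s.NBc s.DBc s.EBc s.Pc s.Pc' s.Qc s.Qc'
  l : SgF U σ T gp gm H N → ∀ r ∈ Icc 0 σ, ∀ u : IxF V → ℝ, s.All U r u →
    s.Lb U T gp gm H N r u
  l0 : ∃ l0 : L, ∃ wm : ℝ, 0 < wm ∧ ∀ e ∈ U, ∀ c ∈ U, e ≠ c → ∀ r ∈ Icc 0 σ, wm ≤ s.f l0 e c r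

/-- an exact solution of level 1 with its sums -/
structure Sol1 (hb : ℝ → V → V → ℝ) (U : Finset V) (σ : ℝ) (S : Finset ℝ) (T : ℝ → V → V → ℝ)
    (gp gm : Finset V → V → V → ℝ → ℝ) (Fe Ge : Finset V → V → V → ℝ) (s : S1 V L Λ Λ')
    (g : IxF V → ℝ → ℝ) : Prop where
  x : XsF hb U σ T gp gm Fe Ge g
  ok : s.Ok U σ S T gp gm (HFF hb σ Fe) (NGF Ge)
  all : ∀ r ∈ Icc 0 σ, s.All U r fun i => g i r
  lb : ∀ r ∈ Icc 0 σ, s.Lb U T gp gm (HFF hb σ Fe) (NGF Ge) r fun i => g i r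

/-- **existence of the solution of level 1 with its sums** -/
theorem sol1_ex {hb : ℝ → V → V → ℝ} {U : Finset V} {σ : ℝ} {S : Finset ℝ} {T : ℝ → V → V → ℝ}
    {gp gm : Finset V → V → V → ℝ → ℝ} {Fe Ge : Finset V → V → V → ℝ} {s : S1 V L Λ Λ'}
    (σ0 : 0 ≤ σ) (hs : SgF U σ T gp gm (HFF hb σ Fe) (NGF Ge))
    (ok : s.Ok U σ S T gp gm (HFF hb σ Fe) (NGF Ge)) :
    ∃ g, Sol1 hb U σ S T gp gm Fe Ge s g := by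
  obtain ⟨l0, wm, hwm, hl⟩ := ok.l0
  obtain ⟨g, dg, gz, -, all, inv⟩ := exists_allF σ0 hs ok.t ok.p (ok.l hs) l0 hwm hl
  exact ⟨g, ⟨hs, dg, gz, fun r hr => (all r hr).1, inv⟩, ok, all, fun r hr =>
    ok.l hs r hr _ (all r hr)⟩

end s1

/-! ### the solutions of a world -/

/-- existence of level 1/2 with its rows -/
theorem g12_ex {Λ : Type*} [Fintype Λ] {U : Finset V} {τ : ℝ} {S : Finset ℝ}
    {T A B : ℝ → V → V → ℝ} {d : R12 V Λ} (τ0 : 0 ≤ τ) (hD : GDat U τ T A B)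
    (ok : d.Ok U τ S T A B) (l0 : Λ) {wm : ℝ} (hwm : 0 < wm)
    (hw : ∀ i ∈ U, ∀ j ∈ U, i ≠ j → ∀ r ∈ Icc 0 τ, wm ≤ d.w l0 i j r) :
    ∃ gp gp' gm gm', G12X U τ T A B gp gp' gm gm' ∧ d.Rows U τ gp gm := by
  classical
  let Kx := Bool × {q : V × Finset V // q.1 ∈ U ∧ q.2 ⊆ U ∧ q.1 ∉ q.2}
  obtain ⟨M, M0, hM⟩ := RCM.exists_bound (κ := Kx) (t := τ)
    (f := fun k r => d.φ k.1 l0 k.2.1.1 k.2.1.2 r)
    (fun k => by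
      obtain ⟨b, ⟨⟨e, F⟩, h1, h2, h3⟩⟩ := k
      exact ok.cφ b l0 e h1 F h2 h3)
  obtain ⟨gp, gp', gm, gm', h1, h2, h3, -, -, h4, h5, h6⟩ := exists_rowsF τ0 hD ok l0 hwm M0 hw
    (fun s i hi F hF hiF r hr => hM (s, ⟨(i, F), hi, hF, hiF⟩) r hr)
  exact ⟨gp, gp', gm, gm', G12X.of hD h1 h2 h3 h6, ⟨h4, h5⟩⟩

variable {Z : Hzd} {x : V → V → ℝ} {P : V → Prop} [DecidablePred P] {sl : ℝ → ℝ → ℝ}
variable {A D : Finset V} {α τ σ ρ : ℝ} {ζ : V → V → ℝ → ℝ} {Y Y' N N' : V → ℝ → ℝ}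
variable {Λ0 : Type*} [Fintype Λ0] {L1 Λ1 Λ1' : Type*} [Fintype Λ1] [Fintype Λ1']
  {L2 Λ2 Λ2' : Type*} [Fintype Λ2] [Fintype Λ2'] {L3 Λ3 Λ3' : Type*} [Fintype Λ3] [Fintype Λ3']

/-- all solutions of a world with all their bounds -/
structure FulF (Z : Hzd) (x : V → V → ℝ) (P : V → Prop) [DecidablePred P] (A D : Finset V)
    (α τ σ ρ : ℝ) (S : Finset ℝ) (ζ : V → V → ℝ → ℝ) (Y N : V → ℝ → ℝ) (d : R12 V Λ0)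
    (s1 : S1 V L1 Λ1 Λ1') (s2 : S1 V L2 Λ2 Λ2') (s3 : S1 V L3 Λ3 Λ3')
    (gp gp' gm gm' : Finset V → V → V → ℝ → ℝ) (g1 g2 g3 : IxF V → ℝ → ℝ) : Prop where
  wt : RCG.Ct.Wt x P 1
  ρ0 : 0 ≤ ρ
  ρτ : ρ ≤ τ
  dat : GDat Dᶜ τ (Tc0 (Z.hh x P) D ζ Y) (Ac0 (Z.hh x P) D ζ Y) (Bc0 (Z.hh x P) D N)
  sol : SolF Z x P A D α τ σ ρ (Tc0 (Z.hh x P) D ζ Y) (Ac0 (Z.hh x P) D ζ Y)
    (Bc0 (Z.hh x P) D N) gp gp' gm gm' g1 g2 g3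
  rows : d.Rows Dᶜ τ gp gm
  l1 : Sol1 (Z.hh x P) Dᶜ τ S (Tc0 (Z.hh x P) D ζ Y) gp gm ZF ZF s1 g1
  l2 : Sol1 (Z.hh x P) Dᶜ σ S (Tc0 (Z.hh x P) D ζ Y) gp gm ZF ZF s2 g2
  l3 : Sol1 (Z.hh x P) Dᶜ σ S (Tc0 (Z.hh x P) D ζ Y) gp gm (fun X d e => gm X d e ρ)
    (fun X d e => gp X d e ρ) s3 g3

theorem mf_zero {U : Finset V} (d : V) : MF U d fun F e => (ZF F d e : ℝ) :=
  fun _ _ _ _ _ => le_rfl

end Pool.Agent.RZ.RCO
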