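import Pool.Agent.RZ.RCO.Ex11
import Pool.Agent.RZ.RCO.Ex14

/-! Route P: from the solutions of the worlds to the cells, and the bounds of the exponents of the
cells (MP_73ccd0_lc). -/

namespace Pool.Agent.RZ.RCO

open Set Finset MeasureTheory Pool.Agent.RZ.RCRSHalf Pool.Agent.RZ.RCG Pool.Agent.RZ.RCG.Ct
open Pool.Agent.RZ.RCN Pool.Agent.RZ.RCN.K

set_option linter.unusedSectionVars false

variable {V : Type*} [Fintype V] [DecidableEq V]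

section top

variable {Z : Hzd} {x : V → V → ℝ} {P : V → Prop} [DecidablePred P] {sl : ℝ → ℝ → ℝ}
variable {A D : Finset V} {α τ σ ρ : ℝ} {S : Finset ℝ} {ζ : V → V → ℝ → ℝ}
  {Y Y' N N' : V → ℝ → ℝ}
variable {Λ0 : Type*} [Fintype Λ0] {L1 Λ1 Λ1' : Type*} [Fintype Λ1] [Fintype Λ1']
  {L2 Λ2 Λ2' : Type*} [Fintype Λ2] [Fintype Λ2'] {L3 Λ3 Λ3' : Type*} [Fintype Λ3] [Fintype Λ3']
variable {q : R12 V Λ0} {s1 : S1 V L1 Λ1 Λ1'} {s2 : S1 V L2 Λ2 Λ2'} {s3 : S1 V L3 Λ3 Λ3'}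
  {gp gp' gm gm' : Finset V → V → V → ℝ → ℝ} {g1 g2 g3 : IxF V → ℝ → ℝ}

/-- the constants of a world are nonnegative -/
theorem FulF.ld_nonneg (h : FulF Z x P A D α τ σ ρ S ζ Y N q s1 s2 s3 gp gp' gm gm' g1 g2 g3)
    {c d : V} (hc : c ∈ Dᶜ) (hd : d ∈ Dᶜ) :
    0 ≤ LdF (Z.hh x P) Dᶜ τ σ (Tc0 (Z.hh x P) D ζ Y) gm g1 g2 c d := h.sol.ld_nonneg hc hd

theorem FulF.lf_nonneg (h : FulF Z x P A D α τ σ ρ S ζ Y N q s1 s2 s3 gp gp' gm gm' g1 g2 g3)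
    {c d : V} (hc : c ∈ Dᶜ) (hd : d ∈ Dᶜ) :
    0 ≤ LfF (Z.hh x P) Dᶜ τ σ ρ (Tc0 (Z.hh x P) D ζ Y) gp gm g1 g3 c d :=
  h.sol.lf_nonneg ⟨h.ρ0, h.ρτ⟩ hc hd

/-- **the constants of a pair in a cell and a class** -/
theorem FulF.ck2 {M : ℕ} {sg : ℕ → ℕ → ℝ} {ε : ℝ} {i j : ℕ} {a b : V}
    (hm : sgm sg ε i j ≤ sg i j)
    (h : FulF Z x P {a} {a, b} (ca M i) (cb M i) (sg i j) (max 0 (sgm sg ε i j)) S ζ Y N
      q s1 s2 s3 gp gp' gm gm' g1 g2 g3) :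
    Ck2 Z x P M sg ε i j a b
      (LdF (Z.hh x P) ({a, b} : Finset V)ᶜ (cb M i) (sg i j) (Tc0 (Z.hh x P) {a, b} ζ Y) gm g1 g2)
      (LfF (Z.hh x P) ({a, b} : Finset V)ᶜ (cb M i) (sg i j) (max 0 (sgm sg ε i j))
        (Tc0 (Z.hh x P) {a, b} ζ Y) gp gm g1 g3) := h.sol.ck2 hm

/-- the deleted closures of a world -/
theorem FulF.clK (h : FulF Z x P A D α τ σ ρ S ζ Y N q s1 s2 s3 gp gp' gm gm' g1 g2 g3) :
    ClK Z x P A D α τ σ (LdF (Z.hh x P) Dᶜ τ σ (Tc0 (Z.hh x P) D ζ Y) gm g1 g2) := h.sol.clK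

end top

end Pool.Agent.RZ.RCO
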