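import Pool.Agent.RZ.RCO.Kf1

/-! Level 2 indexed by the world: sums of the integrated constant over the first and over the
second target (MP_73ccd0_lc). -/

namespace Pool.Agent.RZ.RCO

open Set Finset MeasureTheory Pool.Agent.RZ.RCRSHalf Pool.Agent.RZ.RCG

set_option linter.unusedSectionVars false

variable {V : Type*} [Fintype V] [DecidableEq V] {Λ : Type*} [Fintype Λ]

/-- sums of integrals from a bound of the sums of the rates; finitely many kinks -/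
theorem bk_sum_leS {C : Finset V} {σ : ℝ} (σ0 : 0 ≤ σ) (S : Finset ℝ) {f : V → ℝ}
    {F : V → ℝ → ℝ} (cF : ∀ c ∈ C, ContinuousOn (F c) (Icc 0 σ)) {K K' : ℝ → ℝ}
    (cK : ContinuousOn K (Icc 0 σ))
    (dK : ∀ r ∈ Icc 0 σ, r ∉ S → HasDerivAt K (K' r) r) (K0 : 0 ≤ K σ)
    (h : ∀ r ∈ Icc 0 σ, r ∉ S → ∑ c ∈ C, f c * F c r ≤ -K' r) :
    ∀ r ∈ Icc 0 σ, ∑ c ∈ C, f c * RCM.bk (F c) σ r ≤ K r := by
  refine back_le_fin S (f := fun r => ∑ c ∈ C, f c * RCM.bk (F c) σ r) (g := K)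
    (f' := fun r => ∑ c ∈ C, f c * (-F c r)) (g' := K')
    (continuousOn_finsetSum _ fun c hc => continuousOn_const.mul fun r hr =>
      (RCM.bk_deriv σ0 (cF c hc) hr).continuousAt.continuousWithinAt) cK
    (fun r hr _ => HasDerivAt.fun_sum fun c hc =>
      (RCM.bk_deriv σ0 (cF c hc) (Ioo_subset_Icc_self hr)).const_mul (f c))
    (fun r hr hrσ => dK r (Ioo_subset_Icc_self hr) hrσ) (fun r hr hrσ => ?_) ?_
  · have e : ∑ c ∈ C, f c * (-F c r) = -∑ c ∈ C, f c * F c r := by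
      rw [← Finset.sum_neg_distrib]
      exact Finset.sum_congr rfl fun c _ => by ring
    rw [e]
    linarith [h r (Ioo_subset_Icc_self hr) hrσ]
  · have : ∑ c ∈ C, f c * RCM.bk (F c) σ σ = 0 := Finset.sum_eq_zero fun c _ => by
      rw [RCM.bk_self, mul_zero]
    rw [this]
    exact K0

section

variable {U : Finset V} {σ τ : ℝ} {T : ℝ → V → V → ℝ} {p n q m e e2 : V → Finset V → V → ℝ → ℝ}

/-- the sum of the rates over the first target, the second target `d` fixed -/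
theorem FkF_sum_c {d : V} {r : ℝ} {f : V → ℝ} {fb : V → V → ℝ} {φn φe : V → Finset V → ℝ}
    (h : SkD (T r) (U.erase d) (fun c G x => p c G x r) (fun c G x => n c G x r)
      (fun c G x => e c G x r) (fun G x => q d G x r) (fun G x => m d G x r)
      (fun G x => e2 d G x r) f fb φn φe) {w : Λ → V → ℝ}
    {Gn Ge Pe Pm : Λ → ℝ} (Gn0 : ∀ l, 0 ≤ Gn l) (Ge0 : ∀ l, 0 ≤ Ge l)
    (kn : ∀ x ∈ U.erase d, KF (T r) φn (U.erase d) x ≤ ∑ l, Gn l * w l x)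
    (ke : ∀ x ∈ U.erase d, KF (T r) φe (U.erase d) x ≤ ∑ l, Ge l * w l x)
    (hPe : ∀ l, ∑ x ∈ U.erase d, w l x * e2 d ((U.erase d).erase x) x r ≤ Pe l)
    (hPm : ∀ l, ∑ x ∈ U.erase d, w l x * m d ((U.erase d).erase x) x r ≤ Pm l) :
    ∑ c ∈ U.erase d, f c * FkF T (p c) (n c) (q d) (m d) (F0 U c d) r
      ≤ ∑ l, (Gn l * Pe l + Ge l * Pm l) := by
  refine le_trans (le_of_eq ?_) (h.sum_w Gn0 Ge0 kn ke hPe hPm)
  refine Finset.sum_congr rfl fun c _ => ?_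
  rw [FkF_eq, F0, Finset.erase_right_comm]

/-- the sum of the rates over the second target, the first target `c` fixed -/
theorem FkF_sum_d {c : V} {r : ℝ} {f : V → ℝ} {fb : V → V → ℝ} {φm φe : V → Finset V → ℝ}
    (h : SkD (T r) (U.erase c) (fun d G x => q d G x r) (fun d G x => m d G x r)
      (fun d G x => e2 d G x r) (fun G x => p c G x r) (fun G x => n c G x r)
      (fun G x => e c G x r) f fb φm φe) {w : Λ → V → ℝ}
    {Gm Ge Pe Pn : Λ → ℝ} (Gm0 : ∀ l, 0 ≤ Gm l) (Ge0 : ∀ l, 0 ≤ Ge l)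
    (km : ∀ x ∈ U.erase c, KF (T r) φm (U.erase c) x ≤ ∑ l, Gm l * w l x)
    (ke : ∀ x ∈ U.erase c, KF (T r) φe (U.erase c) x ≤ ∑ l, Ge l * w l x)
    (hPe : ∀ l, ∑ x ∈ U.erase c, w l x * e c ((U.erase c).erase x) x r ≤ Pe l)
    (hPn : ∀ l, ∑ x ∈ U.erase c, w l x * n c ((U.erase c).erase x) x r ≤ Pn l) :
    ∑ d ∈ U.erase c, f d * FkF T (p c) (n c) (q d) (m d) (F0 U c d) r
      ≤ ∑ l, (Gm l * Pe l + Ge l * Pn l) := by
  refine le_trans (le_of_eq ?_) (h.sum_w Gm0 Ge0 km ke hPe hPn)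
  refine Finset.sum_congr rfl fun d _ => ?_
  rw [FkF_eq, F0, rkF_symm]

/-- **sums of the integrated constant over the first target** -/
theorem kF_sum_c (σ0 : 0 ≤ σ) (S : Finset ℝ) {d : V} {f : V → ℝ} {fb : V → V → ℝ → ℝ}
    {φn φe : V → Finset V → ℝ → ℝ}
    (h : ∀ r ∈ Icc 0 σ, r ∉ S → SkD (T r) (U.erase d) (fun c G x => p c G x r)
      (fun c G x => n c G x r) (fun c G x => e c G x r) (fun G x => q d G x r)
      (fun G x => m d G x r) (fun G x => e2 d G x r) f (fun x c => fb x c r)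
      (fun x G => φn x G r) (fun x G => φe x G r))
    {w : Λ → V → ℝ → ℝ} {Gn Ge Pe Pm : Λ → ℝ → ℝ} (Gn0 : ∀ l, ∀ r ∈ Icc 0 σ, 0 ≤ Gn l r)
    (Ge0 : ∀ l, ∀ r ∈ Icc 0 σ, 0 ≤ Ge l r)
    (kn : ∀ r ∈ Icc 0 σ, r ∉ S → ∀ x ∈ U.erase d,
      KF (T r) (fun x G => φn x G r) (U.erase d) x ≤ ∑ l, Gn l r * w l x r)
    (ke : ∀ r ∈ Icc 0 σ, r ∉ S → ∀ x ∈ U.erase d,
      KF (T r) (fun x G => φe x G r) (U.erase d) x ≤ ∑ l, Ge l r * w l x r)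
    (hPe : ∀ l, ∀ r ∈ Icc 0 σ, r ∉ S →
      ∑ x ∈ U.erase d, w l x r * e2 d ((U.erase d).erase x) x r ≤ Pe l r)
    (hPm : ∀ l, ∀ r ∈ Icc 0 σ, r ∉ S →
      ∑ x ∈ U.erase d, w l x r * m d ((U.erase d).erase x) x r ≤ Pm l r)
    (cF : ∀ c ∈ U.erase d, ContinuousOn (FkF T (p c) (n c) (q d) (m d) (F0 U c d)) (Icc 0 σ))
    {K K' : ℝ → ℝ} (cK : ContinuousOn K (Icc 0 σ))
    (dK : ∀ r ∈ Icc 0 σ, r ∉ S → HasDerivAt K (K' r) r) (K0 : 0 ≤ K σ)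
    (hK : ∀ r ∈ Icc 0 σ, r ∉ S → ∑ l, (Gn l r * Pe l r + Ge l r * Pm l r) ≤ -K' r) :
    ∀ r ∈ Icc 0 σ, ∑ c ∈ U.erase d,
      f c * RCM.bk (FkF T (p c) (n c) (q d) (m d) (F0 U c d)) σ r ≤ K r :=
  bk_sum_leS σ0 S (f := f) cF cK dK K0 fun r hr hrS =>
    (FkF_sum_c (h r hr hrS) (w := fun l x => w l x r) (fun l => Gn0 l r hr) (fun l => Ge0 l r hr)
      (kn r hr hrS) (ke r hr hrS) (fun l => hPe l r hr hrS) (fun l => hPm l r hr hrS)).trans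
      (hK r hr hrS)

/-- **sums of the integrated constant over the second target** -/
theorem kF_sum_d (σ0 : 0 ≤ σ) (S : Finset ℝ) {c : V} {f : V → ℝ} {fb : V → V → ℝ → ℝ}
    {φm φe : V → Finset V → ℝ → ℝ}
    (h : ∀ r ∈ Icc 0 σ, r ∉ S → SkD (T r) (U.erase c) (fun d G x => q d G x r)
      (fun d G x => m d G x r) (fun d G x => e2 d G x r) (fun G x => p c G x r)
      (fun G x => n c G x r) (fun G x => e c G x r) f (fun x d => fb x d r)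
      (fun x G => φm x G r) (fun x G => φe x G r))
    {w : Λ → V → ℝ → ℝ} {Gm Ge Pe Pn : Λ → ℝ → ℝ} (Gm0 : ∀ l, ∀ r ∈ Icc 0 σ, 0 ≤ Gm l r)
    (Ge0 : ∀ l, ∀ r ∈ Icc 0 σ, 0 ≤ Ge l r)
    (km : ∀ r ∈ Icc 0 σ, r ∉ S → ∀ x ∈ U.erase c,
      KF (T r) (fun x G => φm x G r) (U.erase c) x ≤ ∑ l, Gm l r * w l x r)
    (ke : ∀ r ∈ Icc 0 σ, r ∉ S → ∀ x ∈ U.erase c,
      KF (T r) (fun x G => φe x G r) (U.erase c) x ≤ ∑ l, Ge l r * w l x r)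
    (hPe : ∀ l, ∀ r ∈ Icc 0 σ, r ∉ S →
      ∑ x ∈ U.erase c, w l x r * e c ((U.erase c).erase x) x r ≤ Pe l r)
    (hPn : ∀ l, ∀ r ∈ Icc 0 σ, r ∉ S →
      ∑ x ∈ U.erase c, w l x r * n c ((U.erase c).erase x) x r ≤ Pn l r)
    (cF : ∀ d ∈ U.erase c, ContinuousOn (FkF T (p c) (n c) (q d) (m d) (F0 U c d)) (Icc 0 σ))
    {K K' : ℝ → ℝ} (cK : ContinuousOn K (Icc 0 σ))
    (dK : ∀ r ∈ Icc 0 σ, r ∉ S → HasDerivAt K (K' r) r) (K0 : 0 ≤ K σ)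
    (hK : ∀ r ∈ Icc 0 σ, r ∉ S → ∑ l, (Gm l r * Pe l r + Ge l r * Pn l r) ≤ -K' r) :
    ∀ r ∈ Icc 0 σ, ∑ d ∈ U.erase c,
      f d * RCM.bk (FkF T (p c) (n c) (q d) (m d) (F0 U c d)) σ r ≤ K r :=
  bk_sum_leS σ0 S (f := f) cF cK dK K0 fun r hr hrS =>
    (FkF_sum_d (h r hr hrS) (w := fun l x => w l x r) (fun l => Gm0 l r hr) (fun l => Ge0 l r hr)
      (km r hr hrS) (ke r hr hrS) (fun l => hPe l r hr hrS) (fun l => hPn l r hr hrS)).trans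
      (hK r hr hrS)

end

end Pool.Agent.RZ.RCO
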