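import Pool.Agent.RZ.RCO.Hl4
import Pool.Agent.RZ.RCO.Kf2

/-! Level 2 indexed by the world: sums of the integrated constant from the exact solutions of
level 1 (first and second targets) and their target and position sums (MP_73ccd0_lc). -/

namespace Pool.Agent.RZ.RCO

open Set Finset MeasureTheory Pool.Agent.RZ.RCRSHalf Pool.Agent.RZ.RCG

set_option linter.unusedSectionVars false

variable {V : Type*} [Fintype V] [DecidableEq V] {Λ : Type*} [Fintype Λ]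

section stat

variable {U : Finset V} {T : V → V → ℝ} {gp gm gp' gm' H1 N1 D1 E1 H2 N2 D2 E2 :
    Finset V → V → V → ℝ} {c1 c4 c1' c4' : ℝ} {u1 u2 : IxF V → ℝ}

/-- **the static data from the linear bounds of the two systems**: sums over the targets of the
system 1, the target `d` of the system 2 fixed -/
theorem SkD.of_lb (h1 : LbF U T gp gm H1 N1 D1 E1 c1 c4 u1)
    (h2 : LbF U T gp' gm' H2 N2 D2 E2 c1' c4' u2) {d : V} (hd : d ∈ U) {f : V → ℝ}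
    {fb : V → V → ℝ} {φn φe : V → Finset V → ℝ} (f0 : ∀ c ∈ U.erase d, 0 ≤ f c)
    (fle : ∀ x ∈ U.erase d, ∀ c ∈ (U.erase d).erase x, f c ≤ fb x c)
    (hn : ∀ x ∈ U, ∀ G ⊆ U, x ∉ G → ∑ c ∈ G, fb x c * nuF N1 u1 c (G.erase c) x ≤ φn x G)
    (he : ∀ x ∈ U, ∀ G ⊆ U, x ∉ G → ∑ c ∈ G, fb x c *
      (D1 (G.erase c) c x + c4 * u1 (true, G.erase c, c, x)) ≤ φe x G) :
    SkD T (U.erase d) (puF H1 u1) (nuF N1 u1)
      (fun c G x => D1 G c x + c4 * u1 (true, G, c, x)) (puF H2 u2 d) (nuF N2 u2 d)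
      (fun G x => D2 G d x + c4' * u2 (true, G, d, x)) f fb φn φe := by
  have sub : U.erase d ⊆ U := Finset.erase_subset _ _
  have vp : ∀ G ⊆ U.erase d, ∀ x ∈ U.erase d, x ∉ G → VP U G d x := fun G hG x hx hxG =>
    ⟨hG.trans sub, hd, sub hx, fun h => Finset.notMem_erase d U (hG h), hxG,
      fun h => (Finset.ne_of_mem_erase hx) h.symm⟩
  exact {
    T0 := h1.T0
    Ts := h1.Ts
    Tz := h1.Tz
    f0 := f0
    fle := fle
    n0 := fun c _ G x => h1.nu0 c G x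
    e0 := fun c _ G x => h1.dq0 G c x
    q0 := fun G x => add_nonneg (h2.H0 _ _ _) (h2.u0 _)
    m0 := fun G x => h2.nu0 d G x
    e20 := fun G x => h2.dq0 G d x
    hn := fun x hx G hG hxG => hn x (sub hx) G (hG.trans sub) hxG
    he := fun x hx G hG hxG => he x (sub hx) G (hG.trans sub) hxG
    hpe := fun c hc x hx y hy hxy => h1.hE2 _ ((Finset.erase_subset _ _).trans sub) c (sub hc)
      (Finset.notMem_erase _ _) x hx y hy hxy
    hqe := fun c _ x hx y hy hxy => h2.hE2 _ ((Finset.erase_subset _ _).trans sub) d hd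
      (fun h => Finset.notMem_erase d U (Finset.mem_of_mem_erase h)) x hx y hy hxy
    mm := fun G hG H hH x hx hxG => h2.mnu d G H x hH (vp G hG x hx hxG)
    em := fun G hG H hH x hx hxG => h2.mdq d G H x hH (vp G hG x hx hxG) }

end stat

section intg

variable {U : Finset V} {σ τ : ℝ} {T : ℝ → V → V → ℝ}
  {gp gm gp' gm' H1 N1 D1 E1 H2 N2 D2 E2 : Finset V → V → V → ℝ → ℝ} {c1 c4 c1' c4' : ℝ → ℝ}
  {g1 g2 : IxF V → ℝ → ℝ}

/-- upper functions of an exact solution -/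
def pF (H : Finset V → V → V → ℝ → ℝ) (g : IxF V → ℝ → ℝ) (c : V) (F : Finset V) (e : V)
    (r : ℝ) : ℝ := H F c e r + g (true, F, c, e) r

/-- lower functions of an exact solution -/
def nF (N : Finset V → V → V → ℝ → ℝ) (g : IxF V → ℝ → ℝ) (c : V) (F : Finset V) (e : V)
    (r : ℝ) : ℝ := N F c e r + g (false, F, c, e) r

theorem FkF_cont_ex {c d : V}
    (cT : ∀ u v, ContinuousOn (fun r => T r u v) (Icc 0 σ))
    (cH1 : ∀ F e, ContinuousOn (H1 F c e) (Icc 0 σ)) (cN1 : ∀ F e, ContinuousOn (N1 F c e) (Icc 0 σ))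
    (cH2 : ∀ F e, ContinuousOn (H2 F d e) (Icc 0 σ)) (cN2 : ∀ F e, ContinuousOn (N2 F d e) (Icc 0 σ))
    (cg1 : ∀ q, ContinuousOn (g1 q) (Icc 0 σ)) (cg2 : ∀ q, ContinuousOn (g2 q) (Icc 0 σ)) :
    ContinuousOn (FkF T (pF H1 g1 c) (nF N1 g1 c) (pF H2 g2 d) (nF N2 g2 d) (F0 U c d))
      (Icc 0 σ) :=
  FkF_cont (X := F0 U c d) cT (fun F _ e _ _ => (cH1 F e).add (cg1 _))
    (fun F _ e _ _ => (cN1 F e).add (cg1 _)) (fun F _ e _ _ => (cH2 F e).add (cg2 _))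
    (fun F _ e _ _ => (cN2 F e).add (cg2 _)) subset_rfl

/-- **sums of the integrated constant over the first targets** from the target sums of the first
system (`NB, DB` of `N1, D1`; `P, Q` of the tails; weights `fb`) and the position sums of the
second system (`NC, DC` of `N2, D2`; `Pc, Qc` of the tails; weights `w l d`) -/
theorem kF_sum_c_ex (σ0 : 0 ≤ σ) (S : Finset ℝ)
    (h1 : ∀ r ∈ Icc 0 σ, LbF U (T r) (fun F x y => gp F x y r) (fun F x y => gm F x y r)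
      (fun F c e => H1 F c e r) (fun F c e => N1 F c e r) (fun F c e => D1 F c e r)
      (fun F c e => E1 F c e r) (c1 r) (c4 r) fun q => g1 q r)
    (h2 : ∀ r ∈ Icc 0 σ, LbF U (T r) (fun F x y => gp' F x y r) (fun F x y => gm' F x y r)
      (fun F c e => H2 F c e r) (fun F c e => N2 F c e r) (fun F c e => D2 F c e r)
      (fun F c e => E2 F c e r) (c1' r) (c4' r) fun q => g2 q r)
    {d : V} (hd : d ∈ U) {f : V → ℝ} {fb : V → V → ℝ → ℝ} (f0 : ∀ c ∈ U.erase d, 0 ≤ f c)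
    (fle : ∀ r ∈ Icc 0 σ, r ∉ S → ∀ x ∈ U.erase d, ∀ c ∈ (U.erase d).erase x, f c ≤ fb x c r)
    {NB DB P Q : V → Finset V → ℝ → ℝ}
    (hN : ∀ x ∈ U, ∀ G ⊆ U, x ∉ G → ∀ r ∈ Icc 0 σ, r ∉ S →
      ∑ c ∈ G, fb x c r * N1 (G.erase c) c x r ≤ NB x G r)
    (hD : ∀ x ∈ U, ∀ G ⊆ U, x ∉ G → ∀ r ∈ Icc 0 σ, r ∉ S →
      ∑ c ∈ G, fb x c r * D1 (G.erase c) c x r ≤ DB x G r)
    (hT : ∀ r ∈ Icc 0 σ, r ∉ S → TgF U (fun x c => fb x c r) (fun x G => P x G r)
      (fun x G => Q x G r) fun q => g1 q r)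
    {w : Λ → V → V → ℝ → ℝ} {NC DC Pc Qc : Λ → V → Finset V → ℝ → ℝ}
    (hNc : ∀ l, ∀ r ∈ Icc 0 σ, r ∉ S →
      ∑ e ∈ U.erase d, w l d e r * N2 ((U.erase d).erase e) d e r ≤ NC l d (U.erase d) r)
    (hDc : ∀ l, ∀ r ∈ Icc 0 σ, r ∉ S →
      ∑ e ∈ U.erase d, w l d e r * D2 ((U.erase d).erase e) d e r ≤ DC l d (U.erase d) r)
    (hPc : ∀ l, ∀ r ∈ Icc 0 σ, r ∉ S → PgF U (fun c e => w l c e r) (fun c F => Pc l c F r)
      (fun c F => Qc l c F r) fun q => g2 q r)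
    {Gn Ge : Λ → ℝ → ℝ} (Gn0 : ∀ l, ∀ r ∈ Icc 0 σ, 0 ≤ Gn l r)
    (Ge0 : ∀ l, ∀ r ∈ Icc 0 σ, 0 ≤ Ge l r)
    (kn : ∀ r ∈ Icc 0 σ, r ∉ S → ∀ x ∈ U.erase d,
      KF (T r) (fun x G => NB x G r + Q x G r) (U.erase d) x ≤ ∑ l, Gn l r * w l d x r)
    (ke : ∀ r ∈ Icc 0 σ, r ∉ S → ∀ x ∈ U.erase d,
      KF (T r) (fun x G => DB x G r + c4 r * P x G r) (U.erase d) x ≤ ∑ l, Ge l r * w l d x r)
    (cF : ∀ c ∈ U.erase d, ContinuousOn
      (FkF T (pF H1 g1 c) (nF N1 g1 c) (pF H2 g2 d) (nF N2 g2 d) (F0 U c d)) (Icc 0 σ))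
    {K K' : ℝ → ℝ} (cK : ContinuousOn K (Icc 0 σ))
    (dK : ∀ r ∈ Icc 0 σ, r ∉ S → HasDerivAt K (K' r) r) (K0 : 0 ≤ K σ)
    (hK : ∀ r ∈ Icc 0 σ, r ∉ S →
      ∑ l, (Gn l r * (DC l d (U.erase d) r + c4' r * Pc l d (U.erase d) r)
        + Ge l r * (NC l d (U.erase d) r + Qc l d (U.erase d) r)) ≤ -K' r) :
    ∀ r ∈ Icc 0 σ, ∑ c ∈ U.erase d, f c * RCM.bk
      (FkF T (pF H1 g1 c) (nF N1 g1 c) (pF H2 g2 d) (nF N2 g2 d) (F0 U c d)) σ r ≤ K r := by
  have sub : U.erase d ⊆ U := Finset.erase_subset _ _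
  refine kF_sum_c (e := fun c G x r => D1 G c x r + c4 r * g1 (true, G, c, x) r)
    (e2 := fun d G x r => D2 G d x r + c4' r * g2 (true, G, d, x) r) (fb := fb)
    (φn := fun x G r => NB x G r + Q x G r) (φe := fun x G r => DB x G r + c4 r * P x G r)
    (w := fun l x r => w l d x r) (Gn := Gn) (Ge := Ge)
    (Pe := fun l r => DC l d (U.erase d) r + c4' r * Pc l d (U.erase d) r)
    (Pm := fun l r => NC l d (U.erase d) r + Qc l d (U.erase d) r)
    σ0 S (fun r hr hrS => ?_) Gn0 Ge0 kn ke (fun l r hr hrS => ?_) (fun l r hr hrS => ?_) cF cK dK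
    K0 hK
  · refine SkD.of_lb (h1 r hr) (h2 r hr) hd f0 (fle r hr hrS) (fun x hx G hG hxG => ?_)
      (fun x hx G hG hxG => ?_)
    · refine le_trans (le_of_eq ?_) (add_le_add (hN x hx G hG hxG r hr hrS)
        (hT r hr hrS x hx G hG hxG).2)
      rw [← Finset.sum_add_distrib]
      exact Finset.sum_congr rfl fun c _ => by unfold nuF; ring
    · refine le_trans (le_of_eq ?_) (add_le_add (hD x hx G hG hxG r hr hrS)
        (mul_le_mul_of_nonneg_left (hT r hr hrS x hx G hG hxG).1 (h1 r hr).c40))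
      rw [Finset.mul_sum, ← Finset.sum_add_distrib]
      exact Finset.sum_congr rfl fun c _ => by ring
  · refine le_trans (le_of_eq ?_) (add_le_add (hDc l r hr hrS)
      (mul_le_mul_of_nonneg_left (hPc l r hr hrS d hd (U.erase d) sub
        (Finset.notMem_erase _ _)).1 (h2 r hr).c40))
    rw [Finset.mul_sum, ← Finset.sum_add_distrib]
    exact Finset.sum_congr rfl fun c _ => by ring
  · refine le_trans (le_of_eq ?_) (add_le_add (hNc l r hr hrS)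
      (hPc l r hr hrS d hd (U.erase d) sub (Finset.notMem_erase _ _)).2)
    rw [← Finset.sum_add_distrib]
    exact Finset.sum_congr rfl fun c _ => by unfold nF; ring

/-- **sums of the integrated constant over the second targets** from the target sums of the second
system and the position sums of the first system -/
theorem kF_sum_d_ex (σ0 : 0 ≤ σ) (S : Finset ℝ)
    (h1 : ∀ r ∈ Icc 0 σ, LbF U (T r) (fun F x y => gp F x y r) (fun F x y => gm F x y r)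
      (fun F c e => H1 F c e r) (fun F c e => N1 F c e r) (fun F c e => D1 F c e r)
      (fun F c e => E1 F c e r) (c1 r) (c4 r) fun q => g1 q r)
    (h2 : ∀ r ∈ Icc 0 σ, LbF U (T r) (fun F x y => gp' F x y r) (fun F x y => gm' F x y r)
      (fun F c e => H2 F c e r) (fun F c e => N2 F c e r) (fun F c e => D2 F c e r)
      (fun F c e => E2 F c e r) (c1' r) (c4' r) fun q => g2 q r)
    {c : V} (hc : c ∈ U) {f : V → ℝ} {fb : V → V → ℝ → ℝ} (f0 : ∀ d ∈ U.erase c, 0 ≤ f d)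
    (fle : ∀ r ∈ Icc 0 σ, r ∉ S → ∀ x ∈ U.erase c, ∀ d ∈ (U.erase c).erase x, f d ≤ fb x d r)
    {NB DB P Q : V → Finset V → ℝ → ℝ}
    (hN : ∀ x ∈ U, ∀ G ⊆ U, x ∉ G → ∀ r ∈ Icc 0 σ, r ∉ S →
      ∑ d ∈ G, fb x d r * N2 (G.erase d) d x r ≤ NB x G r)
    (hD : ∀ x ∈ U, ∀ G ⊆ U, x ∉ G → ∀ r ∈ Icc 0 σ, r ∉ S →
      ∑ d ∈ G, fb x d r * D2 (G.erase d) d x r ≤ DB x G r)
    (hT : ∀ r ∈ Icc 0 σ, r ∉ S → TgF U (fun x d => fb x d r) (fun x G => P x G r)
      (fun x G => Q x G r) fun q => g2 q r)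
    {w : Λ → V → V → ℝ → ℝ} {NC DC Pc Qc : Λ → V → Finset V → ℝ → ℝ}
    (hNc : ∀ l, ∀ r ∈ Icc 0 σ, r ∉ S →
      ∑ e ∈ U.erase c, w l c e r * N1 ((U.erase c).erase e) c e r ≤ NC l c (U.erase c) r)
    (hDc : ∀ l, ∀ r ∈ Icc 0 σ, r ∉ S →
      ∑ e ∈ U.erase c, w l c e r * D1 ((U.erase c).erase e) c e r ≤ DC l c (U.erase c) r)
    (hPc : ∀ l, ∀ r ∈ Icc 0 σ, r ∉ S → PgF U (fun c e => w l c e r) (fun c F => Pc l c F r)
      (fun c F => Qc l c F r) fun q => g1 q r)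
    {Gn Ge : Λ → ℝ → ℝ} (Gn0 : ∀ l, ∀ r ∈ Icc 0 σ, 0 ≤ Gn l r)
    (Ge0 : ∀ l, ∀ r ∈ Icc 0 σ, 0 ≤ Ge l r)
    (kn : ∀ r ∈ Icc 0 σ, r ∉ S → ∀ x ∈ U.erase c,
      KF (T r) (fun x G => NB x G r + Q x G r) (U.erase c) x ≤ ∑ l, Gn l r * w l c x r)
    (ke : ∀ r ∈ Icc 0 σ, r ∉ S → ∀ x ∈ U.erase c,
      KF (T r) (fun x G => DB x G r + c4' r * P x G r) (U.erase c) x ≤ ∑ l, Ge l r * w l c x r)
    (cF : ∀ d ∈ U.erase c, ContinuousOn
      (FkF T (pF H1 g1 c) (nF N1 g1 c) (pF H2 g2 d) (nF N2 g2 d) (F0 U c d)) (Icc 0 σ))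
    {K K' : ℝ → ℝ} (cK : ContinuousOn K (Icc 0 σ))
    (dK : ∀ r ∈ Icc 0 σ, r ∉ S → HasDerivAt K (K' r) r) (K0 : 0 ≤ K σ)
    (hK : ∀ r ∈ Icc 0 σ, r ∉ S →
      ∑ l, (Gn l r * (DC l c (U.erase c) r + c4 r * Pc l c (U.erase c) r)
        + Ge l r * (NC l c (U.erase c) r + Qc l c (U.erase c) r)) ≤ -K' r) :
    ∀ r ∈ Icc 0 σ, ∑ d ∈ U.erase c, f d * RCM.bk
      (FkF T (pF H1 g1 c) (nF N1 g1 c) (pF H2 g2 d) (nF N2 g2 d) (F0 U c d)) σ r ≤ K r := by
  have sub : U.erase c ⊆ U := Finset.erase_subset _ _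
  refine kF_sum_d (e2 := fun d G x r => D2 G d x r + c4' r * g2 (true, G, d, x) r)
    (e := fun c G x r => D1 G c x r + c4 r * g1 (true, G, c, x) r) (fb := fb)
    (φm := fun x G r => NB x G r + Q x G r) (φe := fun x G r => DB x G r + c4' r * P x G r)
    (w := fun l x r => w l c x r) (Gm := Gn) (Ge := Ge)
    (Pe := fun l r => DC l c (U.erase c) r + c4 r * Pc l c (U.erase c) r)
    (Pn := fun l r => NC l c (U.erase c) r + Qc l c (U.erase c) r)
    σ0 S (fun r hr hrS => ?_) Gn0 Ge0 kn ke (fun l r hr hrS => ?_) (fun l r hr hrS => ?_) cF cK dK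
    K0 hK
  · refine SkD.of_lb (h2 r hr) (h1 r hr) hc f0 (fle r hr hrS) (fun x hx G hG hxG => ?_)
      (fun x hx G hG hxG => ?_)
    · refine le_trans (le_of_eq ?_) (add_le_add (hN x hx G hG hxG r hr hrS)
        (hT r hr hrS x hx G hG hxG).2)
      rw [← Finset.sum_add_distrib]
      exact Finset.sum_congr rfl fun d _ => by unfold nuF; ring
    · refine le_trans (le_of_eq ?_) (add_le_add (hD x hx G hG hxG r hr hrS)
        (mul_le_mul_of_nonneg_left (hT r hr hrS x hx G hG hxG).1 (h2 r hr).c40))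
      rw [Finset.mul_sum, ← Finset.sum_add_distrib]
      exact Finset.sum_congr rfl fun d _ => by ring
  · refine le_trans (le_of_eq ?_) (add_le_add (hDc l r hr hrS)
      (mul_le_mul_of_nonneg_left (hPc l r hr hrS c hc (U.erase c) sub
        (Finset.notMem_erase _ _)).1 (h1 r hr).c40))
    rw [Finset.mul_sum, ← Finset.sum_add_distrib]
    exact Finset.sum_congr rfl fun c _ => by ring
  · refine le_trans (le_of_eq ?_) (add_le_add (hNc l r hr hrS)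
      (hPc l r hr hrS c hc (U.erase c) sub (Finset.notMem_erase _ _)).2)
    rw [← Finset.sum_add_distrib]
    exact Finset.sum_congr rfl fun c _ => by unfold nF; ring

end intg

end Pool.Agent.RZ.RCO
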