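import Pool.Agent.RZ.RCO.Ex10_2
import Pool.Agent.RZ.RCO.Ex9
import Pool.Agent.RZ.RCO.Kf3

/-! Route P: columns, rows and entries of the constants of a world by parts, and their transfer to
the exponents of the cells (MP_73ccd0_lc). -/

namespace Pool.Agent.RZ.RCO

open Set Finset MeasureTheory Pool.Agent.RZ.RCRSHalf Pool.Agent.RZ.RCG Pool.Agent.RZ.RCG.Ct
open Pool.Agent.RZ.RCN Pool.Agent.RZ.RCN.K

set_option linter.unusedSectionVars false

variable {V : Type*} [Fintype V] [DecidableEq V]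

/-! ### level 0: zero diagonal, symmetry -/

section diag

variable {Z : Hzd} {x : V → V → ℝ} {P : V → Prop} [DecidablePred P] {D : Finset V}
  {ζ : V → V → ℝ → ℝ} {Y : V → ℝ → ℝ}

theorem Tc0_diag (hx : RCG.Ct.Wt x P 1) (r : ℝ) (u : V) : Tc0 (Z.hh x P) D ζ Y r u u = 0 := by
  unfold Tc0 cut
  split_ifs
  · rfl
  · unfold RCM.Tb
    rw [Hzd.hh_zero (hx.diag u), zero_mul]

end diag

/-! ### columns and rows of the constants of a world -/

/-- the rate of level 2 of the deleted constants -/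
noncomputable def FdF (hb : ℝ → V → V → ℝ) (U : Finset V) (τ σ : ℝ) (T : ℝ → V → V → ℝ)
    (g1 g2 : IxF V → ℝ → ℝ) (c d : V) : ℝ → ℝ :=
  FkF T (pF (HFF hb τ ZF) g1 c) (nF (NGF ZF) g1 c) (pF (HFF hb σ ZF) g2 d) (nF (NGF ZF) g2 d)
    (F0 U c d)

/-- the rate of level 2 of the released constants -/
noncomputable def FfF (hb : ℝ → V → V → ℝ) (U : Finset V) (τ σ ρ : ℝ) (T : ℝ → V → V → ℝ)
    (gp gm : Finset V → V → V → ℝ → ℝ) (g1 g3 : IxF V → ℝ → ℝ) (c d : V) : ℝ → ℝ :=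
  FkF T (pF (HFF hb τ ZF) g1 c) (nF (NGF ZF) g1 c)
    (pF (HFF hb σ fun X d e => gm X d e ρ) g3 d) (nF (NGF fun X d e => gp X d e ρ) g3 d)
    (F0 U c d)

/-- the direct part of the deleted constants -/
noncomputable def DdF (hb : ℝ → V → V → ℝ) (U : Finset V) (σ : ℝ) (T : ℝ → V → V → ℝ)
    (g1 g2 : IxF V → ℝ → ℝ) (c d : V) : ℝ :=
  dirI hb T (F0 U c d) c d σ (nXF ZF g1 c (F0 U c d) d 0) (nXF ZF g2 d (F0 U c d) c 0)

/-- the direct part of the released constants -/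
noncomputable def DfF (hb : ℝ → V → V → ℝ) (U : Finset V) (σ ρ : ℝ) (T : ℝ → V → V → ℝ)
    (gp : Finset V → V → V → ℝ → ℝ) (g1 g3 : IxF V → ℝ → ℝ) (c d : V) : ℝ :=
  dirI hb T (F0 U c d) c d σ (nXF ZF g1 c (F0 U c d) d 0)
    (nXF (fun X d e => gp X d e ρ) g3 d (F0 U c d) c 0)

section parts

variable {hb : ℝ → V → V → ℝ} {U : Finset V} {τ σ ρ : ℝ} {T : ℝ → V → V → ℝ}
  {gp gm : Finset V → V → V → ℝ → ℝ} {g1 g2 g3 : IxF V → ℝ → ℝ} {f : V → ℝ}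
  {bk bg bn bm bd bH bP be : ℝ}

/-- columns of the deleted constants -/
theorem LdF_col {d : V} (hs : ∀ F i j, gm F i j 0 = gm F j i 0)
    (hk : ∑ c ∈ U.erase d, f c * RCM.bk (FdF hb U τ σ T g1 g2 c d) σ 0 ≤ bk)
    (hg : ∑ c ∈ U.erase d, f c * gm ((U.erase d).erase c) d c 0 ≤ bg)
    (hn : ∑ c ∈ U.erase d, f c * g1 (false, (U.erase d).erase c, c, d) 0 ≤ bn)
    (hm : ∑ c ∈ U.erase d, f c * g2 (false, (U.erase d).erase c, d, c) 0 ≤ bm)
    (hd : ∑ c ∈ U.erase d, f c * DdF hb U σ T g1 g2 c d ≤ bd) :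
    ∑ c ∈ U.erase d, f c * LdF hb U τ σ T gm g1 g2 c d ≤ bk + bg + bn + bm + bd := by
  have z0 : ∑ c ∈ U.erase d, f c * (0 : ℝ) ≤ 0 := by simp
  have h1 := sum_n_tgt (U := U) (Ge := ZF) (g := g1) (f := f) (d := d) (r := 0) (GB := 0)
    (by simp [ZF]) hn
  have h2 := sum_m_pos (U := U) (Ge := ZF) (g := g2) (f := f) (d := d) (r := 0) (GB := 0)
    (by simp [ZF]) hm
  have h3 := sum_g_c (U := U) (gm := gm) (f := f) (d := d) (r := 0) hs hg
  have key := lxiF_sum_c (U := U) (S := U.erase d) (hb := hb) (f := f) (d := d) (T := T) (σ := σ)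
    (gm := gm) (p := pXF hb τ ZF g1) (n := nXF ZF g1) (q := pXF hb σ ZF g2) (m := nXF ZF g2)
    (E := fun _ _ => 0) z0 hk h3 h1 h2 hd
  refine key.trans (le_of_eq ?_)
  ring

/-- rows of the deleted constants -/
theorem LdF_row {c : V}
    (hk : ∑ d ∈ U.erase c, f d * RCM.bk (FdF hb U τ σ T g1 g2 c d) σ 0 ≤ bk)
    (hg : ∑ d ∈ U.erase c, f d * gm ((U.erase c).erase d) c d 0 ≤ bg)
    (hn : ∑ d ∈ U.erase c, f d * g1 (false, (U.erase c).erase d, c, d) 0 ≤ bn)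
    (hm : ∑ d ∈ U.erase c, f d * g2 (false, (U.erase c).erase d, d, c) 0 ≤ bm)
    (hd : ∑ d ∈ U.erase c, f d * DdF hb U σ T g1 g2 c d ≤ bd) :
    ∑ d ∈ U.erase c, f d * LdF hb U τ σ T gm g1 g2 c d ≤ bk + bg + bn + bm + bd := by
  have z0 : ∑ d ∈ U.erase c, f d * (0 : ℝ) ≤ 0 := by simp
  have h1 := sum_n_pos (U := U) (Ge := ZF) (g := g1) (f := f) (c := c) (r := 0) (GB := 0)
    (by simp [ZF]) hn
  have h2 := sum_m_tgt (U := U) (Ge := ZF) (g := g2) (f := f) (d := c) (r := 0) (GB := 0)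
    (by simp [ZF]) hm
  have key := lxiF_sum_d (U := U) (S := U.erase c) (hb := hb) (f := f) (c := c) (T := T) (σ := σ)
    (gm := gm) (p := pXF hb τ ZF g1) (n := nXF ZF g1) (q := pXF hb σ ZF g2) (m := nXF ZF g2)
    (E := fun _ _ => 0) z0 hk hg h1 h2 hd
  refine key.trans (le_of_eq ?_)
  ring

/-- columns of the released constants -/
theorem LfF_col {d : V} (hs : ∀ F i j, gm F i j 0 = gm F j i 0)
    (hH : ∑ c ∈ U.erase d, f c * RCM.bk (fun r => hb r c d) τ ρ ≤ bH)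
    (hP : ∑ c ∈ U.erase d, f c * g1 (true, (U.erase d).erase c, c, d) ρ ≤ bP)
    (hk : ∑ c ∈ U.erase d, f c * RCM.bk (FfF hb U τ σ ρ T gp gm g1 g3 c d) σ 0 ≤ bk)
    (hg : ∑ c ∈ U.erase d, f c * gm ((U.erase d).erase c) d c 0 ≤ bg)
    (hn : ∑ c ∈ U.erase d, f c * g1 (false, (U.erase d).erase c, c, d) 0 ≤ bn)
    (he : ∑ c ∈ U.erase d, f c * gp ((U.erase d).erase c) d c ρ ≤ be)
    (hm : ∑ c ∈ U.erase d, f c * g3 (false, (U.erase d).erase c, d, c) 0 ≤ bm)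
    (hd : ∑ c ∈ U.erase d, f c * DfF hb U σ ρ T gp g1 g3 c d ≤ bd) :
    ∑ c ∈ U.erase d, f c * LfF hb U τ σ ρ T gp gm g1 g3 c d
      ≤ bH + bP + bk + bg + bn + be + bm + bd := by
  have hE : ∑ c ∈ U.erase d, f c * pXF hb τ ZF g1 c (F0 U c d) d ρ ≤ bH + bP := by
    refine le_trans (le_of_eq ?_) (add_le_add hH hP)
    rw [← Finset.sum_add_distrib]
    refine Finset.sum_congr rfl fun c _ => ?_
    rw [F0_c]
    unfold pXF HFF ZF
    ring
  have h1 := sum_n_tgt (U := U) (Ge := ZF) (g := g1) (f := f) (d := d) (r := 0) (GB := 0)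
    (by simp [ZF]) hn
  have h2 := sum_m_pos (U := U) (Ge := fun X d e => gp X d e ρ) (g := g3) (f := f) (d := d)
    (r := 0) he hm
  have h3 := sum_g_c (U := U) (gm := gm) (f := f) (d := d) (r := 0) hs hg
  have key := lxiF_sum_c (U := U) (S := U.erase d) (hb := hb) (f := f) (d := d) (T := T) (σ := σ)
    (gm := gm) (p := pXF hb τ ZF g1) (n := nXF ZF g1)
    (q := pXF hb σ (fun X d e => gm X d e ρ) g3) (m := nXF (fun X d e => gp X d e ρ) g3)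
    (E := fun c d => pXF hb τ ZF g1 c (F0 U c d) d ρ) hE hk h3 h1 h2 hd
  refine key.trans (le_of_eq ?_)
  ring

/-- rows of the released constants -/
theorem LfF_row {c : V}
    (hH : ∑ d ∈ U.erase c, f d * RCM.bk (fun r => hb r c d) τ ρ ≤ bH)
    (hP : ∑ d ∈ U.erase c, f d * g1 (true, (U.erase c).erase d, c, d) ρ ≤ bP)
    (hk : ∑ d ∈ U.erase c, f d * RCM.bk (FfF hb U τ σ ρ T gp gm g1 g3 c d) σ 0 ≤ bk)
    (hg : ∑ d ∈ U.erase c, f d * gm ((U.erase c).erase d) c d 0 ≤ bg)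
    (hn : ∑ d ∈ U.erase c, f d * g1 (false, (U.erase c).erase d, c, d) 0 ≤ bn)
    (he : ∑ d ∈ U.erase c, f d * gp ((U.erase c).erase d) d c ρ ≤ be)
    (hm : ∑ d ∈ U.erase c, f d * g3 (false, (U.erase c).erase d, d, c) 0 ≤ bm)
    (hd : ∑ d ∈ U.erase c, f d * DfF hb U σ ρ T gp g1 g3 c d ≤ bd) :
    ∑ d ∈ U.erase c, f d * LfF hb U τ σ ρ T gp gm g1 g3 c d
      ≤ bH + bP + bk + bg + bn + be + bm + bd := by
  have hE : ∑ d ∈ U.erase c, f d * pXF hb τ ZF g1 c (F0 U c d) d ρ ≤ bH + bP := by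
    refine le_trans (le_of_eq ?_) (add_le_add hH hP)
    rw [← Finset.sum_add_distrib]
    refine Finset.sum_congr rfl fun d _ => ?_
    rw [F0_d]
    unfold pXF HFF ZF
    ring
  have h1 := sum_n_pos (U := U) (Ge := ZF) (g := g1) (f := f) (c := c) (r := 0) (GB := 0)
    (by simp [ZF]) hn
  have h2 := sum_m_tgt (U := U) (Ge := fun X d e => gp X d e ρ) (g := g3) (f := f) (d := c)
    (r := 0) he hm
  have key := lxiF_sum_d (U := U) (S := U.erase c) (hb := hb) (f := f) (c := c) (T := T) (σ := σ)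
    (gm := gm) (p := pXF hb τ ZF g1) (n := nXF ZF g1)
    (q := pXF hb σ (fun X d e => gm X d e ρ) g3) (m := nXF (fun X d e => gp X d e ρ) g3)
    (E := fun c d => pXF hb τ ZF g1 c (F0 U c d) d ρ) hE hk hg h1 h2 hd
  refine key.trans (le_of_eq ?_)
  ring

end parts

/-! ### signs -/

section signs

variable {Z : Hzd} {x : V → V → ℝ} {P : V → Prop} [DecidablePred P]
variable {A D : Finset V} {α τ σ ρ : ℝ} {T Am Bm : ℝ → V → V → ℝ}
    {gp gp' gm gm' : Finset V → V → V → ℝ → ℝ} {g1 g2 g3 : IxF V → ℝ → ℝ}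

theorem SolF.ld_nonneg (h : SolF Z x P A D α τ σ ρ T Am Bm gp gp' gm gm' g1 g2 g3) {c d : V}
    (hc : c ∈ Dᶜ) (hd : d ∈ Dᶜ) : 0 ≤ LdF (Z.hh x P) Dᶜ τ σ T gm g1 g2 c d :=
  h.env.lxi_nonneg h.sec hc hd le_rfl

theorem SolF.lf_nonneg (h : SolF Z x P A D α τ σ ρ T Am Bm gp gp' gm gm' g1 g2 g3)
    (hρ : ρ ∈ Icc 0 τ) {c d : V} (hc : c ∈ Dᶜ) (hd : d ∈ Dᶜ) :
    0 ≤ LfF (Z.hh x P) Dᶜ τ σ ρ T gp gm g1 g3 c d :=
  h.env.lxi_nonneg h.rel hc hd ((h.env.c c hc).p0 _ d ρ hρ)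

end signs

/-! ### columns, rows and entries of a matrix of constants -/

section xfer

variable {x : V → V → ℝ} {P : V → Prop} [DecidablePred P]
variable {N : ℕ} {M : ℕ → ℕ} {sg : ℕ → ℕ → ℝ} {ε : ℝ} {L Lf Lg : ℕ → ℕ → V → V → V → V → ℝ}
  {a b : V}

theorem compl3_c {d : V} : ({a, b, d} : Finset V)ᶜ = ({a, b} : Finset V)ᶜ.erase d := by
  ext z
  simp only [Finset.mem_compl, Finset.mem_insert, Finset.mem_singleton, Finset.mem_erase, not_or]
  tauto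

end xfer

end Pool.Agent.RZ.RCO
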