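import Pool.Agent.RZ.RCO.Ex7
import Pool.Agent.RZ.RCO.Ns2

/-! Route P: the constants of a pair in a cell and a class from the solutions of the levels,
functions indexed by the world (MP_73ccd0_lc). -/

namespace Pool.Agent.RZ.RCO

open Set Finset MeasureTheory Pool.Agent.RZ.RCRSHalf Pool.Agent.RZ.RCG Pool.Agent.RZ.RCG.Ct
open Pool.Agent.RZ.RCN Pool.Agent.RZ.RCN.K

set_option linter.unusedSectionVars false

variable {V : Type*} [Fintype V] [DecidableEq V]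

section

variable {Z : Hzd} {x : V → V → ℝ} {P : V → Prop} [DecidablePred P]
variable {A D : Finset V} {α τ σ σm : ℝ} {T Am Bm : ℝ → V → V → ℝ}
    {gp gp' gm gm' : Finset V → V → V → ℝ → ℝ}
    {p p' n n' q q' m m' : V → Finset V → V → ℝ → ℝ}
    {k k' : V → V → Finset V → ℝ → ℝ}

/-- the deleted closures of a cell from the exact data -/
theorem clK_ofF (hE : ExdF Dᶜ τ σ (Z.hh x P) T Am Bm gp gp' gm gm' p p' n n' q q' m m' k k')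
    (hW : W0cq Z x P A D α τ σ T Am Bm) (τ1 : τ ≤ 1)
    (k0 : ∀ c ∈ Dᶜ, ∀ d ∈ Dᶜ, c ≠ d → ∀ s ∈ Icc 0 σ, ∀ F ⊆ (Dᶜ.erase c).erase d,
      0 ≤ k c d F s) :
    ClK Z x P A D α τ σ (LxF Dᶜ σ (Z.hh x P) T gm n m k) := by
  intro h H t hw ht s hs hσ c hc d hd hcd
  obtain ⟨Pa, Pa', Na, Na', Q, Q', N, N', hw0⟩ := hW h H t hw ht s hs hσ
  exact hE.cloD hw.hh rfl hc hd hcd (ht.2.trans τ1) ht.2 hs hσ hw.le hw0
    (k0 c hc d hd hcd s ⟨hs.1, hσ⟩)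

/-- the released closures of a cell from the exact data -/
theorem clR_ofF (hE : ExdF Dᶜ τ σ (Z.hh x P) T Am Bm gp gp' gm gm' p p' n n' q q' m m' k k')
    (hW : W0cq Z x P A D α τ σ T Am Bm) (τ1 : τ ≤ 1)
    (hq : ∀ d ∈ Dᶜ, ∀ F ⊆ Dᶜ.erase d, ∀ e ∈ Dᶜ.erase d, e ∉ F → ∀ s ∈ Icc 0 σ, σm ≤ s →
      gm F d e s ≤ q d F e s ∧ gp F d e s ≤ m d F e s)
    (k0 : ∀ c ∈ Dᶜ, ∀ d ∈ Dᶜ, c ≠ d → ∀ s ∈ Icc 0 σ, σm ≤ s → ∀ F ⊆ (Dᶜ.erase c).erase d,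
      p c F d s ≤ k c d F s) :
    ClR Z x P A D α τ σm σ (LxF Dᶜ σ (Z.hh x P) T gm n m k) := by
  intro h H t hw ht s hs hm hσ c hc d hd hcd
  obtain ⟨Pa, Pa', Na, Na', Q, Q', N, N', hw0⟩ := hW h H t hw ht s hs hσ
  exact hE.cloDt hw.hh rfl hc hd hcd (ht.2.trans τ1) ht.2 hs hσ hw.le hw0
    (fun F hF e he heF => hq d hd F hF e he heF s ⟨hs.1, hσ⟩ hm)
    (k0 c hc d hd hcd s ⟨hs.1, hσ⟩ hm)

end

/-! ### the constants -/

/-- the exponent with level 2 as an integral -/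
noncomputable def LxiF (U : Finset V) (σ : ℝ) (hb T : ℝ → V → V → ℝ)
    (gm : Finset V → V → V → ℝ → ℝ) (p n q m : V → Finset V → V → ℝ → ℝ) (E : V → V → ℝ)
    (c d : V) : ℝ :=
  LxF U σ hb T gm n m
    (fun c d _ r => E c d + RCM.bk (FkF T (p c) (n c) (q d) (m d) (F0 U c d)) σ r) c d

/-- the parts of the exponent -/
theorem LxiF_eq (U : Finset V) (σ : ℝ) (hb T : ℝ → V → V → ℝ)
    (gm : Finset V → V → V → ℝ → ℝ) (p n q m : V → Finset V → V → ℝ → ℝ) (E : V → V → ℝ)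
    (c d : V) :
    LxiF U σ hb T gm p n q m E c d
      = E c d + RCM.bk (FkF T (p c) (n c) (q d) (m d) (F0 U c d)) σ 0
        + gm (F0 U c d) c d 0 + n c (F0 U c d) d 0 + m d (F0 U c d) c 0
        + dirI hb T (F0 U c d) c d σ (n c (F0 U c d) d 0) (m d (F0 U c d) c 0) := rfl

/-- the environment of a world in a cell: level 0, level 1/2 and the first targets -/
structure EnvF (Z : Hzd) (x : V → V → ℝ) (P : V → Prop) [DecidablePred P] (A D : Finset V)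
    (α τ σ : ℝ) (T Am Bm : ℝ → V → V → ℝ) (gp gp' gm gm' : Finset V → V → V → ℝ → ℝ)
    (p p' n n' : V → Finset V → V → ℝ → ℝ) : Prop where
  τ1 : τ ≤ 1
  σ0 : 0 ≤ σ
  στ : σ ≤ τ
  b0 : ∀ u v, ∀ r ∈ Icc 0 τ, 0 ≤ Z.hh x P r u v
  bc : ∀ u v, ContinuousOn (fun r => Z.hh x P r u v) (Icc 0 τ)
  T0 : ∀ u v, ∀ r ∈ Icc 0 τ, 0 ≤ T r u v
  Tc : ∀ u v, ContinuousOn (fun r => T r u v) (Icc 0 τ)
  A0 : ∀ u ∈ Dᶜ, ∀ v ∈ Dᶜ, ∀ r ∈ Icc 0 τ, 0 ≤ Am r u v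
  B0 : ∀ u ∈ Dᶜ, ∀ v ∈ Dᶜ, ∀ r ∈ Icc 0 τ, 0 ≤ Bm r u v
  w : W0cq Z x P A D α τ σ T Am Bm
  g : S12F Dᶜ τ T Am Bm gp gp' gm gm'
  c : ∀ c ∈ Dᶜ, SVF (Dᶜ.erase c) τ (fun r e => Z.hh x P r c e) T gp gm
    (p c) (p' c) (n c) (n' c)

/-- level 1 of the second targets with the end values `F`, `G` -/
structure SecF (Z : Hzd) (x : V → V → ℝ) (P : V → Prop) [DecidablePred P] (D : Finset V)
    (σ : ℝ) (T : ℝ → V → V → ℝ) (gp gm : Finset V → V → V → ℝ → ℝ)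
    (F G : Finset V → V → V → ℝ)
    (q q' m m' : V → Finset V → V → ℝ → ℝ) : Prop where
  s : ∀ d ∈ Dᶜ, SVF (Dᶜ.erase d) σ (fun r e => Z.hh x P r d e) T gp gm
    (q d) (q' d) (m d) (m' d)
  eq : ∀ d ∈ Dᶜ, ∀ X ⊆ Dᶜ.erase d, ∀ e ∈ Dᶜ.erase d, e ∉ X → F X d e ≤ q d X e σ
  em : ∀ d ∈ Dᶜ, ∀ X ⊆ Dᶜ.erase d, ∀ e ∈ Dᶜ.erase d, e ∉ X → G X d e ≤ m d X e σ

variable {Z : Hzd} {x : V → V → ℝ} {P : V → Prop} [DecidablePred P]
variable {A D : Finset V} {α τ σ σm : ℝ} {T Am Bm : ℝ → V → V → ℝ}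
    {gp gp' gm gm' : Finset V → V → V → ℝ → ℝ}
    {p p' n n' q q' m m' : V → Finset V → V → ℝ → ℝ}
    {F G : Finset V → V → V → ℝ} {E : V → V → ℝ}

theorem EnvF.exd (h : EnvF Z x P A D α τ σ T Am Bm gp gp' gm gm' p p' n n')
    (hq : SecF Z x P D σ T gp gm F G q q' m m') (E : V → V → ℝ) :
    ExdF Dᶜ τ σ (Z.hh x P) T Am Bm gp gp' gm gm' p p' n n' q q' m m'
      (fun c d _ r => E c d + RCM.bk (FkF T (p c) (n c) (q d) (m d) (F0 Dᶜ c d)) σ r)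
      (fun c d _ r => -FkF T (p c) (n c) (q d) (m d) (F0 Dᶜ c d) r) :=
  exd_ofF h.σ0 h.στ h.b0 h.bc h.T0 h.Tc h.g h.c hq.s E

theorem F0_sub_c {U : Finset V} {c d : V} : F0 U c d ⊆ U.erase c := Finset.erase_subset _ _

theorem F0_sub_d {U : Finset V} {c d : V} : F0 U c d ⊆ U.erase d := by
  unfold F0
  rw [Finset.erase_right_comm]
  exact Finset.erase_subset _ _

theorem EnvF.bk_nonneg (h : EnvF Z x P A D α τ σ T Am Bm gp gp' gm gm' p p' n n')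
    (hq : SecF Z x P D σ T gp gm F G q q' m m') {c d : V} (hc : c ∈ Dᶜ) (hd : d ∈ Dᶜ)
    {s : ℝ} (hs : s ∈ Icc 0 σ) :
    0 ≤ RCM.bk (FkF T (p c) (n c) (q d) (m d) (F0 Dᶜ c d)) σ s :=
  RCM.bk_nonneg hs fun r hr => FkF_nonneg (X := F0 Dᶜ c d)
    (fun u v => h.T0 u v r ⟨hr.1, hr.2.trans h.στ⟩)
    (monF_n (h.c c hc) F0_sub_c ⟨hr.1, hr.2.trans h.στ⟩) (monF_p (hq.s d hd) F0_sub_d hr) _

/-- the exponents are nonnegative -/
theorem EnvF.lxi_nonneg (h : EnvF Z x P A D α τ σ T Am Bm gp gp' gm gm' p p' n n')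
    (hq : SecF Z x P D σ T gp gm F G q q' m m') {c d : V} (hc : c ∈ Dᶜ) (hd : d ∈ Dᶜ)
    (E0 : 0 ≤ E c d) :
    0 ≤ LxiF Dᶜ σ (Z.hh x P) T gm p n q m E c d := by
  have z : (0 : ℝ) ∈ Icc 0 σ := ⟨le_rfl, h.σ0⟩
  have z' : (0 : ℝ) ∈ Icc 0 τ := ⟨le_rfl, h.σ0.trans h.στ⟩
  rw [LxiF_eq]
  have h1 := h.bk_nonneg hq hc hd z
  have h2 := h.g.gm0 (F0 Dᶜ c d) c d 0 z'
  have h3 := (h.c c hc).n0 (F0 Dᶜ c d) d 0 z'
  have h4 := (hq.s d hd).n0 (F0 Dᶜ c d) c 0 z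
  have h5 := dirI_nonneg (T := T) (X := F0 Dᶜ c d) h.σ0
    (fun r hr => h.b0 c d r ⟨hr.1, hr.2.trans h.στ⟩) (n c (F0 Dᶜ c d) d 0)
    (m d (F0 Dᶜ c d) c 0)
  linarith

/-- the deleted closures -/
theorem EnvF.clK (h : EnvF Z x P A D α τ σ T Am Bm gp gp' gm gm' p p' n n')
    (hq : SecF Z x P D σ T gp gm F G q q' m m') :
    ClK Z x P A D α τ σ (LxiF Dᶜ σ (Z.hh x P) T gm p n q m fun _ _ => 0) :=
  clK_ofF (h.exd hq fun _ _ => 0) h.w h.τ1 fun c hc d hd _ s hs _ _ => by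
    have := h.bk_nonneg hq hc hd hs
    linarith

/-- the released closures: the end values are those at the time `ρ = max 0 σm` -/
theorem EnvF.clR (h : EnvF Z x P A D α τ σ T Am Bm gp gp' gm gm' p p' n n')
    (hq : SecF Z x P D σ T gp gm (fun X d e => gm X d e (max 0 σm))
      (fun X d e => gp X d e (max 0 σm)) q q' m m') :
    ClR Z x P A D α τ σm σ
      (LxiF Dᶜ σ (Z.hh x P) T gm p n q m fun c d => p c (F0 Dᶜ c d) d (max 0 σm)) := by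
  have στ : ∀ s ∈ Icc 0 σ, s ∈ Icc 0 τ := fun s hs => ⟨hs.1, hs.2.trans h.στ⟩
  refine clR_ofF (h.exd hq fun c d => p c (F0 Dᶜ c d) d (max 0 σm)) h.w h.τ1
    (fun d hd X hX e he heX s hs hm => ?_)
    fun c hc d hd hcd s hs hm X hX => ?_
  · have hρ : max 0 σm ≤ s := max_le hs.1 hm
    have hρ' : max 0 σm ∈ Icc 0 τ := ⟨le_max_left _ _, hρ.trans (στ s hs).2⟩
    have heD := Finset.mem_of_mem_erase he
    have hde : d ≠ e := (Finset.ne_of_mem_erase he).symm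
    have hv : VP Dᶜ X d e := ⟨hX.trans (Finset.erase_subset _ _), hd, heD,
      fun h => (Finset.ne_of_mem_erase (hX h)) rfl, heX, hde⟩
    obtain ⟨a1, a2⟩ := s12F_anti h.g h.T0 h.A0 h.B0 hv
    obtain ⟨b1, b2⟩ := svF_anti (hq.s d hd) (fun u v r hr => h.T0 u v r (στ r hr))
      (fun e _ r hr => h.b0 d e r (στ r hr)) (fun F i j r hr => h.g.gp0 F i j r (στ r hr))
      (fun F i j r hr => h.g.gm0 F i j r (στ r hr)) hX he heX
    have σm' : σ ∈ Icc 0 σ := ⟨h.σ0, le_rfl⟩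
    exact ⟨((a2 hρ' (στ s hs) hρ).trans (hq.eq d hd X hX e he heX)).trans (b1 hs σm' hs.2),
      ((a1 hρ' (στ s hs) hρ).trans (hq.em d hd X hX e he heX)).trans (b2 hs σm' hs.2)⟩
  · have hρ : max 0 σm ≤ s := max_le hs.1 hm
    have hρ' : max 0 σm ∈ Icc 0 τ := ⟨le_max_left _ _, hρ.trans (στ s hs).2⟩
    have hdc : d ∈ Dᶜ.erase c := Finset.mem_erase.2 ⟨fun e => hcd e.symm, hd⟩
    have hdF : d ∉ F0 Dᶜ c d := Finset.notMem_erase _ _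
    have b1 := (svF_anti (h.c c hc) h.T0 (fun e _ r hr => h.b0 c e r hr) h.g.gp0 h.g.gm0
      F0_sub_c hdc hdF).1 hρ' (στ s hs) hρ
    have b2 := (h.c c hc).mpS (F := X) (G := F0 Dᶜ c d) hX F0_sub_c hdc hdF (στ s hs)
    have := h.bk_nonneg hq hc hd hs
    linarith

/-- **the constants of a pair in a cell and a class** -/
theorem ck2_ofF {N : ℕ} {sg : ℕ → ℕ → ℝ} {ε : ℝ} {i j : ℕ} {a b : V}
    {qf qf' mf mf' : V → Finset V → V → ℝ → ℝ} (hm : sgm sg ε i j ≤ sg i j)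
    (h : EnvF Z x P {a} {a, b} (ca N i) (cb N i) (sg i j) T Am Bm gp gp' gm gm' p p' n n')
    (hd : SecF Z x P {a, b} (sg i j) T gp gm F G q q' m m')
    (hf : SecF Z x P {a, b} (sg i j) T gp gm (fun X d e => gm X d e (max 0 (sgm sg ε i j)))
      (fun X d e => gp X d e (max 0 (sgm sg ε i j))) qf qf' mf mf') :
    Ck2 Z x P N sg ε i j a b
      (LxiF ({a, b} : Finset V)ᶜ (sg i j) (Z.hh x P) T gm p n q m fun _ _ => 0)
      (LxiF ({a, b} : Finset V)ᶜ (sg i j) (Z.hh x P) T gm p n qf mf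
        fun c d => p c (F0 ({a, b} : Finset V)ᶜ c d) d (max 0 (sgm sg ε i j))) where
  l := (h.clK hd).toM
  f := h.clR hf
  l0 := fun c hc d hd' _ => h.lxi_nonneg hd hc hd' le_rfl
  f0 := fun c hc d hd' _ => h.lxi_nonneg hf hc hd' ((h.c c hc).p0 _ d _
    ⟨le_max_left _ _, max_le (h.σ0.trans h.στ) (hm.trans h.στ)⟩)

/-! ### sums of the exponents by parts -/

/-- sum over the first targets -/
theorem lxiF_sum_c {U S : Finset V} {hb : ℝ → V → V → ℝ} {f : V → ℝ} {d : V}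
    {bE bk bg bn bm bd : ℝ}
    (hE : ∑ c ∈ S, f c * E c d ≤ bE)
    (hk : ∑ c ∈ S, f c * RCM.bk (FkF T (p c) (n c) (q d) (m d) (F0 U c d)) σ 0 ≤ bk)
    (hg : ∑ c ∈ S, f c * gm (F0 U c d) c d 0 ≤ bg)
    (hn : ∑ c ∈ S, f c * n c (F0 U c d) d 0 ≤ bn)
    (hm : ∑ c ∈ S, f c * m d (F0 U c d) c 0 ≤ bm)
    (hd : ∑ c ∈ S, f c * dirI hb T (F0 U c d) c d σ (n c (F0 U c d) d 0) (m d (F0 U c d) c 0)
      ≤ bd) :
    ∑ c ∈ S, f c * LxiF U σ hb T gm p n q m E c d ≤ bE + bk + bg + bn + bm + bd := by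
  have e : ∑ c ∈ S, f c * LxiF U σ hb T gm p n q m E c d
      = ∑ c ∈ S, f c * E c d
        + ∑ c ∈ S, f c * RCM.bk (FkF T (p c) (n c) (q d) (m d) (F0 U c d)) σ 0
        + ∑ c ∈ S, f c * gm (F0 U c d) c d 0 + ∑ c ∈ S, f c * n c (F0 U c d) d 0
        + ∑ c ∈ S, f c * m d (F0 U c d) c 0
        + ∑ c ∈ S, f c * dirI hb T (F0 U c d) c d σ (n c (F0 U c d) d 0)
          (m d (F0 U c d) c 0) := by
    simp only [← Finset.sum_add_distrib]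
    refine Finset.sum_congr rfl fun c _ => ?_
    rw [LxiF_eq]
    ring
  rw [e]
  linarith

/-- sum over the second targets -/
theorem lxiF_sum_d {U S : Finset V} {hb : ℝ → V → V → ℝ} {f : V → ℝ} {c : V}
    {bE bk bg bn bm bd : ℝ}
    (hE : ∑ d ∈ S, f d * E c d ≤ bE)
    (hk : ∑ d ∈ S, f d * RCM.bk (FkF T (p c) (n c) (q d) (m d) (F0 U c d)) σ 0 ≤ bk)
    (hg : ∑ d ∈ S, f d * gm (F0 U c d) c d 0 ≤ bg)
    (hn : ∑ d ∈ S, f d * n c (F0 U c d) d 0 ≤ bn)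
    (hm : ∑ d ∈ S, f d * m d (F0 U c d) c 0 ≤ bm)
    (hd : ∑ d ∈ S, f d * dirI hb T (F0 U c d) c d σ (n c (F0 U c d) d 0) (m d (F0 U c d) c 0)
      ≤ bd) :
    ∑ d ∈ S, f d * LxiF U σ hb T gm p n q m E c d ≤ bE + bk + bg + bn + bm + bd := by
  have e : ∑ d ∈ S, f d * LxiF U σ hb T gm p n q m E c d
      = ∑ d ∈ S, f d * E c d
        + ∑ d ∈ S, f d * RCM.bk (FkF T (p c) (n c) (q d) (m d) (F0 U c d)) σ 0
        + ∑ d ∈ S, f d * gm (F0 U c d) c d 0 + ∑ d ∈ S, f d * n c (F0 U c d) d 0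
        + ∑ d ∈ S, f d * m d (F0 U c d) c 0
        + ∑ d ∈ S, f d * dirI hb T (F0 U c d) c d σ (n c (F0 U c d) d 0)
          (m d (F0 U c d) c 0) := by
    simp only [← Finset.sum_add_distrib]
    refine Finset.sum_congr rfl fun d _ => ?_
    rw [LxiF_eq]
    ring
  rw [e]
  linarith

end Pool.Agent.RZ.RCO
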