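import Pool.Agent.RZ.RCO.Ex10_1
import Pool.Agent.RZ.RCO.Ex8

/-! Route P: the constants of a pair in a cell and a class from the exact solutions indexed by the
world (MP_73ccd0_lc). -/

namespace Pool.Agent.RZ.RCO

open Set Finset MeasureTheory Pool.Agent.RZ.RCRSHalf Pool.Agent.RZ.RCG Pool.Agent.RZ.RCG.Ct
open Pool.Agent.RZ.RCN Pool.Agent.RZ.RCN.K

set_option linter.unusedSectionVars false

variable {V : Type*} [Fintype V] [DecidableEq V]

/-! ### level 1/2 -/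

section g12

end g12

/-! ### level 1 -/

section lev1

end lev1

/-! ### the solutions of a world -/

/-- the deleted constants of a world -/
noncomputable def LdF (hb : ℝ → V → V → ℝ) (U : Finset V) (τ σ : ℝ) (T : ℝ → V → V → ℝ)
    (gm : Finset V → V → V → ℝ → ℝ) (g1 g2 : IxF V → ℝ → ℝ) : V → V → ℝ :=
  LxiF U σ hb T gm (pXF hb τ ZF g1) (nXF ZF g1) (pXF hb σ ZF g2) (nXF ZF g2) fun _ _ => 0

/-- the released constants of a world, `ρ` the release time -/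
noncomputable def LfF (hb : ℝ → V → V → ℝ) (U : Finset V) (τ σ ρ : ℝ) (T : ℝ → V → V → ℝ)
    (gp gm : Finset V → V → V → ℝ → ℝ) (g1 g3 : IxF V → ℝ → ℝ) : V → V → ℝ :=
  LxiF U σ hb T gm (pXF hb τ ZF g1) (nXF ZF g1) (pXF hb σ (fun X d e => gm X d e ρ) g3)
    (nXF (fun X d e => gp X d e ρ) g3) fun c d => pXF hb τ ZF g1 c (F0 U c d) d ρ

section sol

variable {Z : Hzd} {x : V → V → ℝ} {P : V → Prop} [DecidablePred P]
variable {A D : Finset V} {α τ σ ρ : ℝ} {T Am Bm : ℝ → V → V → ℝ}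
    {gp gp' gm gm' : Finset V → V → V → ℝ → ℝ} {g1 g2 g3 : IxF V → ℝ → ℝ}

theorem SolF.env (h : SolF Z x P A D α τ σ ρ T Am Bm gp gp' gm gm' g1 g2 g3) :
    EnvF Z x P A D α τ σ T Am Bm gp gp' gm gm' (pXF (Z.hh x P) τ ZF g1)
      (fun c F e r => -Z.hh x P r c e
        + -hR Dᶜ T gp gm (HFF (Z.hh x P) τ ZF) (NGF ZF) r (fun j => g1 j r) (true, F, c, e))
      (nXF ZF g1)
      (fun c F e r => 0
        + -hR Dᶜ T gp gm (HFF (Z.hh x P) τ ZF) (NGF ZF) r (fun j => g1 j r) (false, F, c, e)) where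
  τ1 := h.τ1
  σ0 := h.σ0
  στ := h.στ
  b0 := h.b0
  bc := h.bc
  T0 := h.T0
  Tc := h.Tc
  A0 := h.A0
  B0 := h.B0
  w := h.w
  g := h.g.s
  c := fun _ hc => h.x1.svs (h.σ0.trans h.στ) h.bc hc

theorem secF_of {Fe Ge : Finset V → V → V → ℝ} {g : IxF V → ℝ → ℝ} (σ0 : 0 ≤ σ)
    (bc : ∀ u v, ContinuousOn (fun r => Z.hh x P r u v) (Icc 0 σ))
    (hx : XsF (Z.hh x P) Dᶜ σ T gp gm Fe Ge g) :
    SecF Z x P D σ T gp gm Fe Ge (pXF (Z.hh x P) σ Fe g)
      (fun c F e r => -Z.hh x P r c e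
        + -hR Dᶜ T gp gm (HFF (Z.hh x P) σ Fe) (NGF Ge) r (fun j => g j r) (true, F, c, e))
      (nXF Ge g)
      (fun c F e r => 0
        + -hR Dᶜ T gp gm (HFF (Z.hh x P) σ Fe) (NGF Ge) r (fun j => g j r) (false, F, c, e)) := by
  have hσ : σ ∈ Icc 0 σ := ⟨σ0, le_rfl⟩
  refine ⟨fun d hd => hx.svs σ0 bc hd, fun d _ X _ e _ _ => ?_, fun d _ X _ e _ _ => ?_⟩
  · show Fe X d e ≤ HFF (Z.hh x P) σ Fe X d e σ + g (true, X, d, e) σ
    rw [HFF_end]
    linarith [hx.g0 (true, X, d, e) hσ]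
  · show Ge X d e ≤ Ge X d e + g (false, X, d, e) σ
    linarith [hx.g0 (false, X, d, e) hσ]

theorem SolF.sec (h : SolF Z x P A D α τ σ ρ T Am Bm gp gp' gm gm' g1 g2 g3) :
    SecF Z x P D σ T gp gm ZF ZF (pXF (Z.hh x P) σ ZF g2)
      (fun c F e r => -Z.hh x P r c e
        + -hR Dᶜ T gp gm (HFF (Z.hh x P) σ ZF) (NGF ZF) r (fun j => g2 j r) (true, F, c, e))
      (nXF ZF g2)
      (fun c F e r => 0
        + -hR Dᶜ T gp gm (HFF (Z.hh x P) σ ZF) (NGF ZF) r (fun j => g2 j r) (false, F, c, e)) :=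
  secF_of h.σ0 (fun u v => (h.bc u v).mono (Icc_subset_Icc_right h.στ)) h.x2

theorem SolF.rel (h : SolF Z x P A D α τ σ ρ T Am Bm gp gp' gm gm' g1 g2 g3) :
    SecF Z x P D σ T gp gm (fun X d e => gm X d e ρ) (fun X d e => gp X d e ρ)
      (pXF (Z.hh x P) σ (fun X d e => gm X d e ρ) g3)
      (fun c F e r => -Z.hh x P r c e
        + -hR Dᶜ T gp gm (HFF (Z.hh x P) σ (fun X d e => gm X d e ρ))
          (NGF (fun X d e => gp X d e ρ)) r (fun j => g3 j r) (true, F, c, e))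
      (nXF (fun X d e => gp X d e ρ) g3)
      (fun c F e r => 0
        + -hR Dᶜ T gp gm (HFF (Z.hh x P) σ (fun X d e => gm X d e ρ))
          (NGF (fun X d e => gp X d e ρ)) r (fun j => g3 j r) (false, F, c, e)) :=
  secF_of h.σ0 (fun u v => (h.bc u v).mono (Icc_subset_Icc_right h.στ)) h.x3

/-- the deleted closures of the world -/
theorem SolF.clK (h : SolF Z x P A D α τ σ ρ T Am Bm gp gp' gm gm' g1 g2 g3) :
    ClK Z x P A D α τ σ (LdF (Z.hh x P) Dᶜ τ σ T gm g1 g2) := h.env.clK h.sec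

/-- **the constants of a pair in a cell and a class from the exact solutions** -/
theorem SolF.ck2 {N : ℕ} {sg : ℕ → ℕ → ℝ} {ε : ℝ} {i j : ℕ} {a b : V}
    (hm : sgm sg ε i j ≤ sg i j)
    (h : SolF Z x P {a} {a, b} (ca N i) (cb N i) (sg i j) (max 0 (sgm sg ε i j)) T Am Bm
      gp gp' gm gm' g1 g2 g3) :
    Ck2 Z x P N sg ε i j a b
      (LdF (Z.hh x P) ({a, b} : Finset V)ᶜ (cb N i) (sg i j) T gm g1 g2)
      (LfF (Z.hh x P) ({a, b} : Finset V)ᶜ (cb N i) (sg i j) (max 0 (sgm sg ε i j)) T gp gm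
        g1 g3) :=
  ck2_ofF hm h.env h.sec h.rel

end sol

/-! ### sums of the parts -/

section sums

end sums

end Pool.Agent.RZ.RCO
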