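import Pool.Agent.RZ.RCO.Ex10_1
import Pool.Agent.RZ.RCO.Ex8

/-! Route P: vertices without neighbours in the world have no constants (MP_73ccd0_lc). -/

namespace Pool.Agent.RZ.RCO

open Set Finset MeasureTheory Pool.Agent.RZ.RCRSHalf Pool.Agent.RZ.RCG Pool.Agent.RZ.RCG.Ct
open Pool.Agent.RZ.RCN Pool.Agent.RZ.RCN.K

set_option linter.unusedSectionVars false

variable {V : Type*} [Fintype V] [DecidableEq V]

/-- zero at the vertex `d` -/
def Dd0 (d : V) (u : Bool × Finset V × V × V → ℝ) : Prop :=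
  ∀ s F j, u (s, F, d, j) = 0 ∧ u (s, F, j, d) = 0

theorem Dd0_closed (d : V) : IsClosed {u : Bool × Finset V × V × V → ℝ | Dd0 d u} := by
  have : {u : Bool × Finset V × V × V → ℝ | Dd0 d u} = ⋂ s, ⋂ F, ⋂ j,
      ({u | u (s, F, d, j) = 0} ∩ {u | u (s, F, j, d) = 0}) := by
    ext u
    simp only [Dd0, mem_ofPred_eq, mem_iInter, mem_inter_iff]
  rw [this]
  exact isClosed_iInter fun s => isClosed_iInter fun F => isClosed_iInter fun j =>
    (isClosed_eq (continuous_apply _) continuous_const).inter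
      (isClosed_eq (continuous_apply _) continuous_const)

/-- an invariant from the vanishing of the rates -/
theorem inv_dead {τ : ℝ} {d : V}
    {R : ℝ → (Bool × Finset V × V × V → ℝ) → Bool × Finset V × V × V → ℝ}
    (h : ∀ r ∈ Icc 0 τ, ∀ u, Dd0 d u → Dd0 d (R r u)) :
    RCM.Inv τ R (fun _ u => Dd0 d u) := by
  refine ⟨fun r _ => Dd0_closed d, fun r _ s F j => ⟨rfl, rfl⟩, fun u w hp hc r hr s F j => ?_⟩
  have key : ∀ q : Bool × Finset V × V × V,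
      (∀ z ∈ Icc 0 τ, R z (fun j => u j z) q = 0) → w q r = 0 := by
    intro q hq
    refine RCM.back_eq (f := w q) (g := fun _ => 0) (f' := fun _ => 0)
      (fun z hz => ?_) (fun z _ => hasDerivAt_const z 0) (hp.2.2.2 _) r hr
    have := hp.2.2.1 q z hz
    rwa [hq z hz, neg_zero] at this
  exact ⟨key _ fun z hz => (h z hz _ (hc z hz) s F j).1,
    key _ fun z hz => (h z hz _ (hc z hz) s F j).2⟩

section g12

variable {U : Finset V} {τ : ℝ} {T A B : ℝ → V → V → ℝ} {d : V}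

theorem z1 : 1 - Real.exp (-(0 : ℝ)) = 0 := by simp

theorem opF_dead {T A : V → V → ℝ} {gp gm : Finset V → V → V → ℝ} (hT : ∀ b ∈ U, T d b = 0)
    (hA : ∀ b ∈ U, A d b = 0) (hp : ∀ F j, gp F d j = 0) (hm : ∀ F j, gm F d j = 0)
    {F : Finset V} {j : V} (hv : VP U F d j) : opF T A gp gm F d j = 0 := by
  unfold opF
  rw [hA j hv.2.2.1, Finset.sum_eq_zero fun b hb => by rw [hT b (hv.1 hb), zero_mul],
    Finset.sum_eq_zero fun b _ => by rw [hm, z1, mul_zero]]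
  simp only [hp, hm, add_zero, z1, mul_zero, max_self, Finset.sum_const_zero]

theorem omF_dead {T B : V → V → ℝ} {gp gm : Finset V → V → V → ℝ} (hT : ∀ b ∈ U, T d b = 0)
    (hB : ∀ b ∈ U, B d b = 0) (hp : ∀ F j, gp F d j = 0) (hm : ∀ F j, gm F d j = 0)
    {F : Finset V} {j : V} (hv : VP U F d j) : omF T B gp gm F d j = 0 := by
  unfold omF
  rw [hB j hv.2.2.1, Finset.sum_eq_zero fun b hb => by rw [hT b (hv.1 hb), zero_mul],
    Finset.sum_eq_zero fun b _ => by rw [hp, z1, mul_zero]]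
  simp only [hp, hm, add_zero, z1, mul_zero, max_self, Finset.sum_const_zero]

theorem inv_dead12 (hD : GDat U τ T A B) (hT : ∀ r ∈ Icc 0 τ, ∀ b ∈ U, T r d b = 0)
    (hA : ∀ r ∈ Icc 0 τ, ∀ b ∈ U, A r d b = 0) (hB : ∀ r ∈ Icc 0 τ, ∀ b ∈ U, B r d b = 0) :
    RCM.Inv τ (fR U T A B) (fun _ u => Dd0 d u) := by
  refine inv_dead fun r hr u hu s F j => ?_
  have k : fR U T A B r u (s, F, d, j) = 0 := by
    by_cases hv : VP U F d j
    · cases s
      · rw [fR_f hv]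
        exact omF_dead (hT r hr) (hB r hr) (fun F j => (hu true F j).1)
          (fun F j => (hu false F j).1) hv
      · rw [fR_t hv]
        exact opF_dead (hT r hr) (hA r hr) (fun F j => (hu true F j).1)
          (fun F j => (hu false F j).1) hv
    · exact fR_z hv
  exact ⟨k, by rw [fR_symm hD hr]; exact k⟩

theorem G12X.dead {gp gp' gm gm' : Finset V → V → V → ℝ → ℝ}
    (hg : G12X U τ T A B gp gp' gm gm') (hD : GDat U τ T A B)
    (hT : ∀ r ∈ Icc 0 τ, ∀ b ∈ U, T r d b = 0)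
    (hA : ∀ r ∈ Icc 0 τ, ∀ b ∈ U, A r d b = 0) (hB : ∀ r ∈ Icc 0 τ, ∀ b ∈ U, B r d b = 0)
    (F : Finset V) (j : V) {r : ℝ} (hr : r ∈ Icc 0 τ) :
    gp F d j r = 0 ∧ gp F j d r = 0 ∧ gm F d j r = 0 ∧ gm F j d r = 0 := by
  have k := hg.inv _ (inv_dead12 hD hT hA hB) r hr
  have a := k true F j
  have b := k false F j
  simp only [if_true] at a
  simp only [Bool.false_eq_true, if_false] at b
  exact ⟨a.1, a.2, b.1, b.2⟩

end g12

section lev1

variable {U : Finset V} {σ : ℝ} {T : ℝ → V → V → ℝ} {gp gm H N : Finset V → V → V → ℝ → ℝ} {d : V}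

theorem z3 : Real.exp (0 : ℝ) - 1 = 0 := by simp

/-- the position `d` -/
theorem RpF_dead {T : V → V → ℝ} {gp gm : Finset V → V → V → ℝ} {p n : Finset V → V → ℝ}
    (hT : ∀ b ∈ U, T d b = 0) (hp : ∀ F j, gp F d j = 0) (hm : ∀ F j, gm F d j = 0)
    {F : Finset V} (hF : F ⊆ U) : RpF T gp gm p n F d = 0 := by
  unfold RpF pq
  rw [Finset.sum_eq_zero fun b hb => by rw [hT b (hF hb), zero_mul]]
  simp only [hp, hm, add_zero, z1, mul_zero, max_self, Finset.sum_const_zero]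

theorem RnF_dead {T : V → V → ℝ} {gp gm : Finset V → V → V → ℝ} {p n : Finset V → V → ℝ}
    (hT : ∀ b ∈ U, T d b = 0) (hp : ∀ F j, gp F d j = 0) (hm : ∀ F j, gm F d j = 0)
    {F : Finset V} (hF : F ⊆ U) : RnF T gp gm p n F d = 0 := by
  unfold RnF pq
  rw [Finset.sum_eq_zero fun b hb => by rw [hT b (hF hb), zero_mul]]
  simp only [hp, hm, add_zero, z1, mul_zero, max_self, Finset.sum_const_zero]

/-- the target `d` -/
theorem RpF_dead' {T : V → V → ℝ} {gp gm : Finset V → V → V → ℝ} {p n : Finset V → V → ℝ}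
    (hp : ∀ F, ∀ e ∈ U, p F e = 0) (hn : ∀ F, ∀ e ∈ U, n F e = 0) {F : Finset V} (hF : F ⊆ U)
    (e : V) : RpF T gp gm p n F e = 0 := by
  unfold RpF pq
  rw [Finset.sum_eq_zero fun b hb => by rw [hn _ b (hF hb), z1, mul_zero],
    Finset.sum_eq_zero fun x hx => Finset.sum_eq_zero fun y hy => by
      rw [hn _ x (hF hx), hn _ y (hF hy), hp _ x (hF hx), hp _ y (hF hy), add_zero, z1, z3,
        zero_mul, zero_mul, max_self, mul_zero]]
  norm_num

theorem RnF_dead' {T : V → V → ℝ} {gp gm : Finset V → V → V → ℝ} {p n : Finset V → V → ℝ}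
    (hp : ∀ F, ∀ e ∈ U, p F e = 0) (hn : ∀ F, ∀ e ∈ U, n F e = 0) {F : Finset V} (hF : F ⊆ U)
    (e : V) : RnF T gp gm p n F e = 0 := by
  unfold RnF pq
  rw [Finset.sum_eq_zero fun b hb => by rw [hp _ b (hF hb), z3, mul_zero],
    Finset.sum_eq_zero fun x hx => Finset.sum_eq_zero fun y hy => by
      rw [hn _ x (hF hx), hn _ y (hF hy), hp _ x (hF hx), hp _ y (hF hy), add_zero, z1, z3,
        zero_mul, zero_mul, max_self, mul_zero]]
  norm_num

/-- the joint system keeps the zeros at `d` -/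
theorem inv_dead1 (hT : ∀ r ∈ Icc 0 σ, ∀ b ∈ U, T r d b = 0)
    (hp : ∀ F j, ∀ r ∈ Icc 0 σ, gp F d j r = 0) (hm : ∀ F j, ∀ r ∈ Icc 0 σ, gm F d j r = 0)
    (hH : ∀ F, ∀ e ∈ U, ∀ r ∈ Icc 0 σ, H F d e r = 0)
    (hN : ∀ F, ∀ e ∈ U, ∀ r ∈ Icc 0 σ, N F d e r = 0) :
    RCM.Inv σ (hR U T gp gm H N) (fun _ u => Dd0 d u) := by
  refine inv_dead fun r hr u hu s F j => ⟨?_, ?_⟩
  · have p0 : ∀ F, ∀ e ∈ U, puF (fun F c e => H F c e r) u d F e = 0 := fun F e he => by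
      unfold puF
      beta_reduce
      rw [hH F e he r hr, (hu true F e).1, add_zero]
    have n0 : ∀ F, ∀ e ∈ U, nuF (fun F c e => N F c e r) u d F e = 0 := fun F e he => by
      unfold nuF
      beta_reduce
      rw [hN F e he r hr, (hu false F e).1, add_zero]
    by_cases hv : VP U F d j
    · cases s
      · rw [hR_f hv]
        exact RnF_dead' p0 n0 hv.1 _
      · rw [hR_t hv]
        exact RpF_dead' p0 n0 hv.1 _
    · exact hR_z hv
  · by_cases hv : VP U F j d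
    · cases s
      · rw [hR_f hv]
        exact RnF_dead (hT r hr) (fun F j => hp F j r hr) (fun F j => hm F j r hr) hv.1
      · rw [hR_t hv]
        exact RpF_dead (hT r hr) (fun F j => hp F j r hr) (fun F j => hm F j r hr) hv.1
    · exact hR_z hv

theorem XsF.dead {hb : ℝ → V → V → ℝ} {Fe Ge : Finset V → V → V → ℝ} {g : IxF V → ℝ → ℝ}
    (hx : XsF hb U σ T gp gm Fe Ge g) (σ0 : 0 ≤ σ) (hT : ∀ r ∈ Icc 0 σ, ∀ b ∈ U, T r d b = 0)
    (hp : ∀ F j, ∀ r ∈ Icc 0 σ, gp F d j r = 0) (hm : ∀ F j, ∀ r ∈ Icc 0 σ, gm F d j r = 0)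
    (hh : ∀ e ∈ U, ∀ r ∈ Icc 0 σ, hb r d e = 0) (hF : ∀ F, ∀ e ∈ U, Fe F d e = 0)
    (hG : ∀ F, ∀ e ∈ U, Ge F d e = 0) :
    (∀ r ∈ Icc 0 σ, Dd0 d fun i => g i r) ∧
      ∀ F, ∀ e ∈ U, ∀ r ∈ Icc 0 σ, HFF hb σ Fe F d e r = 0 := by
  have hH : ∀ F, ∀ e ∈ U, ∀ r ∈ Icc 0 σ, HFF hb σ Fe F d e r = 0 := fun F e he r _ => by
    unfold HFF RCM.bk
    rw [hF F e he, zero_add]
    have : ∀ z ∈ uIcc r σ, hb (max 0 (min z σ)) d e = 0 := fun z _ =>
      hh e he _ ⟨le_max_left _ _, max_le σ0 (min_le_right _ _)⟩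
    rw [intervalIntegral.integral_congr (g := fun _ => (0 : ℝ)) this]
    simp
  exact ⟨hx.inv _ (inv_dead1 hT hp hm hH fun F e he _ _ => hG F e he), hH⟩

end lev1

/-! ### the constants -/

theorem dirI_dead {hb T : ℝ → V → V → ℝ} {X : Finset V} {c d : V} {σ N1 N2 : ℝ} (σ0 : 0 ≤ σ)
    (h : ∀ r ∈ Icc 0 σ, hb r c d = 0) : dirI hb T X c d σ N1 N2 = 0 := by
  unfold dirI
  rw [intervalIntegral.integral_congr (g := fun _ => (0 : ℝ)) fun z hz => by
    rw [uIcc_of_le σ0] at hz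
    show hb z c d * _ = 0
    rw [h z hz, zero_mul]]
  simp

theorem bk_dead {f : ℝ → ℝ} {σ r : ℝ} (σ0 : 0 ≤ σ) (h : ∀ r ∈ Icc 0 σ, f r = 0) :
    RCM.bk f σ r = 0 := by
  unfold RCM.bk
  rw [intervalIntegral.integral_congr (g := fun _ => (0 : ℝ)) fun z _ =>
    h _ ⟨le_max_left _ _, max_le σ0 (min_le_right _ _)⟩]
  simp

/-- the rate of level 2 vanishes if the functions of the second target vanish -/
theorem FkF_dead2 {T : ℝ → V → V → ℝ} {pc nc pd nd : Finset V → V → ℝ → ℝ} {F : Finset V}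
    {r : ℝ} (hp : ∀ G, ∀ e ∈ F, pd G e r = 0) (hn : ∀ G, ∀ e ∈ F, nd G e r = 0) :
    FkF T pc nc pd nd F r = 0 := by
  unfold FkF pr
  rw [Finset.sum_eq_zero fun x hx => Finset.sum_eq_zero fun y hy => by
      rw [hn _ x hx, hn _ y hy, hp _ x hx, hp _ y hy, add_zero, z1, z3,
        mul_zero, mul_zero, max_self, mul_zero]]
  norm_num

/-- the rate of level 2 vanishes if the functions of the first target vanish -/
theorem FkF_dead1 {T : ℝ → V → V → ℝ} {pc nc pd nd : Finset V → V → ℝ → ℝ} {F : Finset V}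
    {r : ℝ} (hp : ∀ G, ∀ e ∈ F, pc G e r = 0) (hn : ∀ G, ∀ e ∈ F, nc G e r = 0) :
    FkF T pc nc pd nd F r = 0 := by
  unfold FkF pr
  rw [Finset.sum_eq_zero fun x hx => Finset.sum_eq_zero fun y hy => by
      rw [hn _ x hx, hn _ y hy, hp _ x hx, hp _ y hy, add_zero, z1, z3,
        zero_mul, zero_mul, max_self, mul_zero]]
  norm_num

section sol

variable {hb : ℝ → V → V → ℝ} {U : Finset V} {τ σ ρ : ℝ} {T A B : ℝ → V → V → ℝ}
  {gp gp' gm gm' : Finset V → V → V → ℝ → ℝ} {g1 g2 : IxF V → ℝ → ℝ}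
  {Fe Ge : Finset V → V → V → ℝ} {c d : V} {E : V → V → ℝ}

/-- the hypotheses on a vertex without neighbours in `U` -/
structure Dead (U : Finset V) (τ : ℝ) (hb T A B : ℝ → V → V → ℝ) (d : V) : Prop where
  h : ∀ e ∈ U, ∀ r ∈ Icc 0 τ, hb r d e = 0
  hs : ∀ e ∈ U, ∀ r ∈ Icc 0 τ, hb r e d = 0
  T : ∀ r ∈ Icc 0 τ, ∀ b ∈ U, T r d b = 0
  A : ∀ r ∈ Icc 0 τ, ∀ b ∈ U, A r d b = 0
  B : ∀ r ∈ Icc 0 τ, ∀ b ∈ U, B r d b = 0

/-- **the constant of a pair with an isolated second target vanishes** -/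
theorem LxiF_dead2 (hd : Dead U τ hb T A B d) (σ0 : 0 ≤ σ) (στ : σ ≤ τ) (hcU : c ∈ U)
    (hD : GDat U τ T A B) (hg : G12X U τ T A B gp gp' gm gm')
    (hx1 : XsF hb U τ T gp gm ZF ZF g1) (hx2 : XsF hb U σ T gp gm Fe Ge g2)
    (hF : ∀ F, ∀ e ∈ U, Fe F d e = 0) (hG : ∀ F, ∀ e ∈ U, Ge F d e = 0) (hE : E c d = 0) :
    LxiF U σ hb T gm (pXF hb τ ZF g1) (nXF ZF g1) (pXF hb σ Fe g2) (nXF Ge g2) E c d = 0 := by
  have τ0 := σ0.trans στ
  have m : ∀ {r : ℝ}, r ∈ Icc 0 σ → r ∈ Icc 0 τ := fun hr => ⟨hr.1, hr.2.trans στ⟩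
  have z : (0 : ℝ) ∈ Icc 0 σ := ⟨le_rfl, σ0⟩
  have kg := fun F j {r} hr => hg.dead hD hd.T hd.A hd.B F j (r := r) hr
  obtain ⟨k1, -⟩ := hx1.dead τ0 hd.T (fun F j r hr => (kg F j hr).1)
    (fun F j r hr => (kg F j hr).2.2.1) hd.h (fun _ _ _ => rfl) fun _ _ _ => rfl
  obtain ⟨k2, h2⟩ := hx2.dead σ0 (fun r hr => hd.T r (m hr))
    (fun F j r hr => (kg F j (m hr)).1) (fun F j r hr => (kg F j (m hr)).2.2.1)
    (fun e he r hr => hd.h e he r (m hr)) hF hG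
  rw [LxiF_eq, hE, (kg (F0 U c d) c (m z)).2.2.2, dirI_dead σ0 fun r hr => hd.hs c hcU r (m hr),
    bk_dead σ0 fun r hr => FkF_dead2 (fun G e he => ?_) fun G e he => ?_]
  · have a1 := (k1 0 (m z) false (F0 U c d) c).2
    have a2 := (k2 0 z false (F0 U c d) c).1
    beta_reduce at a1 a2
    unfold nXF
    rw [a1, a2, hG _ c hcU]
    unfold ZF
    norm_num
  · have he' : e ∈ U := Finset.mem_of_mem_erase (Finset.mem_of_mem_erase he)
    have a2 := (k2 r hr true G e).1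
    beta_reduce at a2
    unfold pXF
    rw [h2 G e he' r hr, a2, add_zero]
  · have he' : e ∈ U := Finset.mem_of_mem_erase (Finset.mem_of_mem_erase he)
    have a2 := (k2 r hr false G e).1
    beta_reduce at a2
    unfold nXF
    rw [hG G e he', a2, add_zero]

/-- **the constant of a pair with an isolated first target vanishes** -/
theorem LxiF_dead1 (hc : Dead U τ hb T A B c) (σ0 : 0 ≤ σ) (στ : σ ≤ τ) (hdU : d ∈ U)
    (hD : GDat U τ T A B) (hg : G12X U τ T A B gp gp' gm gm')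
    (hx1 : XsF hb U τ T gp gm ZF ZF g1) (hx2 : XsF hb U σ T gp gm Fe Ge g2)
    (hF : ∀ F, ∀ e ∈ U, Fe F c e = 0) (hG : ∀ F, ∀ e ∈ U, Ge F c e = 0)
    (hG' : ∀ F, ∀ e ∈ U, Ge F e c = 0) (hE : E c d = 0) :
    LxiF U σ hb T gm (pXF hb τ ZF g1) (nXF ZF g1) (pXF hb σ Fe g2) (nXF Ge g2) E c d = 0 := by
  have τ0 := σ0.trans στ
  have m : ∀ {r : ℝ}, r ∈ Icc 0 σ → r ∈ Icc 0 τ := fun hr => ⟨hr.1, hr.2.trans στ⟩
  have z : (0 : ℝ) ∈ Icc 0 σ := ⟨le_rfl, σ0⟩
  have kg := fun F j {r} hr => hg.dead hD hc.T hc.A hc.B F j (r := r) hr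
  obtain ⟨k1, h1⟩ := hx1.dead τ0 hc.T (fun F j r hr => (kg F j hr).1)
    (fun F j r hr => (kg F j hr).2.2.1) hc.h (fun _ _ _ => rfl) fun _ _ _ => rfl
  obtain ⟨k2, -⟩ := hx2.dead σ0 (fun r hr => hc.T r (m hr))
    (fun F j r hr => (kg F j (m hr)).1) (fun F j r hr => (kg F j (m hr)).2.2.1)
    (fun e he r hr => hc.h e he r (m hr)) hF hG
  rw [LxiF_eq, hE, (kg (F0 U c d) d (m z)).2.2.1, dirI_dead σ0 fun r hr => hc.h d hdU r (m hr),
    bk_dead σ0 fun r hr => FkF_dead1 (fun G e he => ?_) fun G e he => ?_]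
  · have a1 := (k1 0 (m z) false (F0 U c d) d).1
    have a2 := (k2 0 z false (F0 U c d) d).2
    beta_reduce at a1 a2
    unfold nXF
    rw [a1, a2, hG' _ d hdU]
    unfold ZF
    norm_num
  · have he' : e ∈ U := Finset.mem_of_mem_erase (Finset.mem_of_mem_erase he)
    have a2 := (k1 r (m hr) true G e).1
    beta_reduce at a2
    unfold pXF
    rw [h1 G e he' r (m hr), a2, add_zero]
  · have a2 := (k1 r (m hr) false G e).1
    beta_reduce at a2
    unfold nXF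
    rw [a2]
    unfold ZF
    norm_num

end sol

end Pool.Agent.RZ.RCO
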