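import Pool.Agent.RZ.RCN.Brg_2
import Pool.Agent.RZ.RCO.Ex10_2
import Pool.Agent.RZ.RCO.Ex12
import Pool.Agent.RZ.RCO.Ex9

/-! Route P: entries of the cells and the pendant vertices (MP_73ccd0_lc). -/

namespace Pool.Agent.RZ.RCO

open Set Finset MeasureTheory Pool.Agent.RZ.RCRSHalf Pool.Agent.RZ.RCG Pool.Agent.RZ.RCG.Ct
open Pool.Agent.RZ.RCN Pool.Agent.RZ.RCN.K

set_option linter.unusedSectionVars false

variable {V : Type*} [Fintype V] [DecidableEq V]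

/-! ### entries of the cells -/

section ent

variable {P : V → Prop} [DecidablePred P]
variable {N : ℕ} {M : ℕ → ℕ} {sg : ℕ → ℕ → ℝ} {ε : ℝ} {L Lf Lg : ℕ → ℕ → V → V → V → V → ℝ}
  {a b c d : V} {t s B : ℝ}

/-- an entry of the deleted exponents -/
theorem lc_ent (ε0 : 0 < ε) (N0 : 0 < N) (last : ∀ i < N, sg i (M i) = cb N i)
    (ht1 : t ≤ 1) (hs : s ∈ Icc 0 t) (B0 : 0 ≤ B)
    (h : Vq P a b c d → ∀ j, Act M sg ε (ci N t) s j → L (ci N t) j a b c d ≤ B) :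
    Lc P (mkC N M sg ε L Lf Lg) a b c d t s ≤ B := by
  by_cases hv : Vq P a b c d
  · have key := lc_sum_le (P := P) (N := N) (M := M) (sg := sg) (L := L) (Lf := Lf) (Lg := Lg)
      ε0 N0 last (t := t) (s := s) (B := B) ht1 hs (Finset.univ : Finset Unit) (fun _ => 1)
      (fun _ => a) (fun _ => b) (fun _ => c) (fun _ => d) (fun _ _ => hv) (fun j hj => by
        rw [Finset.univ_unique, Finset.sum_singleton, one_mul]
        exact max_le B0 (h hv j hj))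
    rwa [Finset.univ_unique, Finset.sum_singleton, one_mul] at key
  · unfold Lc
    rw [if_neg hv]
    exact B0

/-- an entry of the released exponents -/
theorem lr_ent (ε0 : 0 < ε) (N0 : 0 < N) (last : ∀ i < N, sg i (M i) = cb N i)
    (ht1 : t ≤ 1) (hs : s ∈ Icc 0 t) (B0 : 0 ≤ B)
    (h : Vq P a b c d → ∀ j, Act M sg ε (ci N t) s j → Lf (ci N t) j a b c d ≤ B) :
    RCN.K.Lr P (mkC N M sg ε L Lf Lg) a b c d t s ≤ B := by
  by_cases hv : Vq P a b c d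
  · have key := lr_sum_le (P := P) (N := N) (M := M) (sg := sg) (L := L) (Lf := Lf) (Lg := Lg)
      ε0 N0 last (t := t) (s := s) (B := B) ht1 hs (Finset.univ : Finset Unit) (fun _ => 1)
      (fun _ => a) (fun _ => b) (fun _ => c) (fun _ => d) (fun _ _ => hv) (fun j hj => by
        rw [Finset.univ_unique, Finset.sum_singleton, one_mul]
        exact max_le B0 (h hv j hj))
    rwa [Finset.univ_unique, Finset.sum_singleton, one_mul] at key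
  · unfold RCN.K.Lr
    rw [if_neg hv]
    exact B0

/-- a deleted exponent vanishes if the active constants do -/
theorem lc_zero (ε0 : 0 < ε) (N0 : 0 < N) (last : ∀ i < N, sg i (M i) = cb N i)
    (ht1 : t ≤ 1) (hs : s ∈ Icc 0 t)
    (h : Vq P a b c d → ∀ j, Act M sg ε (ci N t) s j → L (ci N t) j a b c d ≤ 0) :
    Lc P (mkC N M sg ε L Lf Lg) a b c d t s = 0 :=
  le_antisymm (lc_ent ε0 N0 last ht1 hs le_rfl h) (Lc_nonneg ..)

/-- a released exponent vanishes if the active constants do -/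
theorem lr_zero (ε0 : 0 < ε) (N0 : 0 < N) (last : ∀ i < N, sg i (M i) = cb N i)
    (ht1 : t ≤ 1) (hs : s ∈ Icc 0 t)
    (h : Vq P a b c d → ∀ j, Act M sg ε (ci N t) s j → Lf (ci N t) j a b c d ≤ 0) :
    RCN.K.Lr P (mkC N M sg ε L Lf Lg) a b c d t s = 0 :=
  le_antisymm (lr_ent ε0 N0 last ht1 hs le_rfl h) (RCN.K.Lr_nonneg ..)

end ent

/-! ### pendant vertices -/

section pend

variable {Z : Hzd} {x : V → V → ℝ} {P : V → Prop} [DecidablePred P]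
variable {A D : Finset V} {α τ σ ρ : ℝ} {ζ : V → V → ℝ → ℝ} {Y N : V → ℝ → ℝ}
    {gp gp' gm gm' : Finset V → V → V → ℝ → ℝ} {g1 g2 g3 : IxF V → ℝ → ℝ} {a b c d : V}

/-- the data of a vertex without neighbours in the world -/
theorem dead0 (hx : RCG.Ct.Wt x P 1) (hz : ∀ e ∈ Dᶜ, x d e = 0) :
    Dead Dᶜ τ (Z.hh x P) (Tc0 (Z.hh x P) D ζ Y) (Ac0 (Z.hh x P) D ζ Y) (Bc0 (Z.hh x P) D N) d := by
  have h1 : ∀ e ∈ Dᶜ, ∀ r, Z.hh x P r d e = 0 := fun e he r => Hzd.hh_zero (hz e he) r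
  refine ⟨fun e he r _ => h1 e he r, fun e he r _ => ?_, fun r _ e he => ?_, fun r _ e he => ?_,
    fun r _ e he => ?_⟩
  · rw [Z.hh_symm hx]
    exact h1 e he r
  · unfold Tc0 cut
    split_ifs
    · rfl
    · unfold RCM.Tb
      rw [h1 e he, zero_mul]
  · unfold Ac0 cut
    split_ifs
    · rfl
    · unfold RCM.Ab
      rw [h1 e he, zero_mul]
  · unfold Bc0 cut
    split_ifs
    · rfl
    · unfold Bq
      rw [h1 e he, zero_mul]

/-- **the constants of a pair with an isolated second target vanish** -/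
theorem SolF.dead2 (h : SolF Z x P A D α τ σ ρ (Tc0 (Z.hh x P) D ζ Y) (Ac0 (Z.hh x P) D ζ Y)
      (Bc0 (Z.hh x P) D N) gp gp' gm gm' g1 g2 g3)
    (hD : GDat Dᶜ τ (Tc0 (Z.hh x P) D ζ Y) (Ac0 (Z.hh x P) D ζ Y) (Bc0 (Z.hh x P) D N))
    (hx : RCG.Ct.Wt x P 1) (hρ : ρ ∈ Icc 0 τ) (hc : c ∈ Dᶜ)
    (hz : ∀ e ∈ Dᶜ, x d e = 0) :
    LdF (Z.hh x P) Dᶜ τ σ (Tc0 (Z.hh x P) D ζ Y) gm g1 g2 c d = 0 ∧
      LfF (Z.hh x P) Dᶜ τ σ ρ (Tc0 (Z.hh x P) D ζ Y) gp gm g1 g3 c d = 0 := by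
  have hd := dead0 (Z := Z) (τ := τ) (ζ := ζ) (Y := Y) (N := N) hx hz
  have τ0 := h.σ0.trans h.στ
  have kg := fun F j {r} hr => h.g.dead hD hd.T hd.A hd.B F j (r := r) hr
  refine ⟨LxiF_dead2 hd h.σ0 h.στ hc hD h.g h.x1 h.x2 (fun _ _ _ => rfl) (fun _ _ _ => rfl) rfl,
    LxiF_dead2 hd h.σ0 h.στ hc hD h.g h.x1 h.x3 (fun F e _ => (kg F e hρ).2.2.1)
      (fun F e _ => (kg F e hρ).1) ?_⟩
  obtain ⟨k1, -⟩ := h.x1.dead τ0 hd.T (fun F j r hr => (kg F j hr).1)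
    (fun F j r hr => (kg F j hr).2.2.1) hd.h (fun _ _ _ => rfl) fun _ _ _ => rfl
  have a1 := (k1 ρ hρ true (F0 Dᶜ c d) c).2
  beta_reduce at a1
  show ZF _ _ _ + RCM.bk (fun r => Z.hh x P r c d) τ ρ + g1 (true, F0 Dᶜ c d, c, d) ρ = 0
  rw [a1]
  unfold ZF RCM.bk
  rw [intervalIntegral.integral_congr (g := fun _ => (0 : ℝ)) fun z _ =>
    hd.hs c hc _ ⟨le_max_left _ _, max_le τ0 (min_le_right _ _)⟩]
  simp

/-- **the constants of a pair with an isolated first target vanish** -/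
theorem SolF.dead1 (h : SolF Z x P A D α τ σ ρ (Tc0 (Z.hh x P) D ζ Y) (Ac0 (Z.hh x P) D ζ Y)
      (Bc0 (Z.hh x P) D N) gp gp' gm gm' g1 g2 g3)
    (hD : GDat Dᶜ τ (Tc0 (Z.hh x P) D ζ Y) (Ac0 (Z.hh x P) D ζ Y) (Bc0 (Z.hh x P) D N))
    (hx : RCG.Ct.Wt x P 1) (hρ : ρ ∈ Icc 0 τ) (hd : d ∈ Dᶜ)
    (hz : ∀ e ∈ Dᶜ, x c e = 0) :
    LdF (Z.hh x P) Dᶜ τ σ (Tc0 (Z.hh x P) D ζ Y) gm g1 g2 c d = 0 ∧
      LfF (Z.hh x P) Dᶜ τ σ ρ (Tc0 (Z.hh x P) D ζ Y) gp gm g1 g3 c d = 0 := by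
  have hc := dead0 (Z := Z) (τ := τ) (ζ := ζ) (Y := Y) (N := N) hx hz
  have τ0 := h.σ0.trans h.στ
  have kg := fun F j {r} hr => h.g.dead hD hc.T hc.A hc.B F j (r := r) hr
  refine ⟨LxiF_dead1 hc h.σ0 h.στ hd hD h.g h.x1 h.x2 (fun _ _ _ => rfl) (fun _ _ _ => rfl)
      (fun _ _ _ => rfl) rfl,
    LxiF_dead1 hc h.σ0 h.στ hd hD h.g h.x1 h.x3 (fun F e _ => (kg F e hρ).2.2.1)
      (fun F e _ => (kg F e hρ).1) (fun F e _ => (kg F e hρ).2.1) ?_⟩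
  obtain ⟨k1, -⟩ := h.x1.dead τ0 hc.T (fun F j r hr => (kg F j hr).1)
    (fun F j r hr => (kg F j hr).2.2.1) hc.h (fun _ _ _ => rfl) fun _ _ _ => rfl
  have a1 := (k1 ρ hρ true (F0 Dᶜ c d) d).1
  beta_reduce at a1
  show ZF _ _ _ + RCM.bk (fun r => Z.hh x P r c d) τ ρ + g1 (true, F0 Dᶜ c d, c, d) ρ = 0
  rw [a1]
  unfold ZF RCM.bk
  rw [intervalIntegral.integral_congr (g := fun _ => (0 : ℝ)) fun z _ =>
    hc.h d hd _ ⟨le_max_left _ _, max_le τ0 (min_le_right _ _)⟩]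
  simp

end pend

end Pool.Agent.RZ.RCO
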