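import Mathlib

/-! The table of the rows of the exponents: big cells in the time `t`, nodes in `x = s / t`,
cubic polynomials in the degree `k` (MP_73ccd0_lc). -/

namespace Pool.Agent.RZ.RCO.RT

open Set Finset MeasureTheory

/-! ### piecewise linear functions of `x ∈ [0,1]` with the nodes `j / n` -/

/-- the hat function of the node `j` -/
noncomputable def hat (n j : ℕ) (x : ℝ) : ℝ := max 0 (1 - |n * x - j|)

/-- the piecewise linear function with the values `v j` at the nodes `j / n` -/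
noncomputable def plx (n : ℕ) (v : ℕ → ℝ) (x : ℝ) : ℝ :=
  ∑ j ∈ Finset.range (n + 1), v j * hat n j x

theorem hat_nonneg (n j : ℕ) (x : ℝ) : 0 ≤ hat n j x := le_max_left _ _

theorem hat_cont (n j : ℕ) : Continuous (hat n j) := by
  unfold hat
  fun_prop

theorem plx_cont (n : ℕ) (v : ℕ → ℝ) : Continuous (plx n v) := by
  unfold plx
  exact continuous_finsetSum _ fun j _ => continuous_const.mul (hat_cont n j)

theorem plx_mono {n : ℕ} {v w : ℕ → ℝ} (h : ∀ j ≤ n, v j ≤ w j) (x : ℝ) :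
    plx n v x ≤ plx n w x :=
  Finset.sum_le_sum fun j hj => mul_le_mul_of_nonneg_right
    (h j (Nat.lt_succ_iff.1 (Finset.mem_range.1 hj))) (hat_nonneg n j x)

theorem plx_nonneg {n : ℕ} {v : ℕ → ℝ} (h : ∀ j ≤ n, 0 ≤ v j) (x : ℝ) : 0 ≤ plx n v x :=
  Finset.sum_nonneg fun j hj => mul_nonneg
    (h j (Nat.lt_succ_iff.1 (Finset.mem_range.1 hj))) (hat_nonneg n j x)

theorem plx_add (n : ℕ) (v w : ℕ → ℝ) (x : ℝ) :
    plx n (fun j => v j + w j) x = plx n v x + plx n w x := by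
  unfold plx
  rw [← Finset.sum_add_distrib]
  exact Finset.sum_congr rfl fun j _ => by ring

theorem plx_smul (n : ℕ) (c : ℝ) (v : ℕ → ℝ) (x : ℝ) :
    plx n (fun j => c * v j) x = c * plx n v x := by
  unfold plx
  rw [Finset.mul_sum]
  exact Finset.sum_congr rfl fun j _ => by ring

/-- the value in the cell `l` with the coordinate `c` -/
theorem plx_cell {n l : ℕ} (hl : l < n) (v : ℕ → ℝ) {x c : ℝ} (c0 : 0 ≤ c) (c1 : c ≤ 1)
    (hx : n * x = l + c) : plx n v x = (1 - c) * v l + c * v (l + 1) := by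
  have h1 : ∀ j ∈ Finset.range (n + 1), j ≠ l → j ≠ l + 1 → v j * hat n j x = 0 := by
    intro j _ h2 h3
    have : 1 ≤ |(n : ℝ) * x - j| := by
      rw [hx]
      rcases lt_or_gt_of_ne h2 with h | h
      · have h4 : (j : ℝ) + 1 ≤ l := by exact_mod_cast h
        rw [abs_of_nonneg (by linarith)]
        linarith
      · have h5 : l + 2 ≤ j := by omega
        have h4 : (l : ℝ) + 2 ≤ j := by exact_mod_cast h5
        rw [abs_of_nonpos (by linarith)]
        linarith
    unfold hat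
    rw [max_eq_left (by linarith), mul_zero]
  have e : plx n v x = v l * hat n l x + v (l + 1) * hat n (l + 1) x := by
    unfold plx
    rw [← Finset.sum_subset (s₁ := {l, l + 1})]
    · rw [Finset.sum_pair (by omega)]
    · intro j hj
      rw [Finset.mem_insert, Finset.mem_singleton] at hj
      rw [Finset.mem_range]
      omega
    · intro j hj hj'
      rw [Finset.mem_insert, Finset.mem_singleton, not_or] at hj'
      exact h1 j hj hj'.1 hj'.2
  have e1 : hat n l x = 1 - c := by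
    unfold hat
    rw [hx, show (l : ℝ) + c - l = c by ring, abs_of_nonneg c0, max_eq_right (by linarith)]
  have e2 : hat n (l + 1) x = c := by
    unfold hat
    rw [hx, show (l : ℝ) + c - ((l + 1 : ℕ) : ℝ) = -(1 - c) by push_cast; ring, abs_neg,
      abs_of_nonneg (by linarith), max_eq_right (by linarith)]
    ring
  rw [e, e1, e2]
  ring

/-- every point of `[0,1]` lies in a cell -/
theorem cell_ex {n : ℕ} (n0 : 0 < n) {x : ℝ} (h0 : 0 ≤ x) (h1 : x ≤ 1) :
    ∃ l < n, ∃ c : ℝ, 0 ≤ c ∧ c ≤ 1 ∧ n * x = l + c := by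
  have n0' : (0 : ℝ) < n := Nat.cast_pos.2 n0
  rcases eq_or_lt_of_le h1 with h | h
  · refine ⟨n - 1, by omega, 1, zero_le_one, le_rfl, ?_⟩
    rw [h, Nat.cast_sub (by omega)]
    push_cast
    ring
  · have f0 : (0 : ℝ) ≤ n * x := mul_nonneg n0'.le h0
    refine ⟨⌊(n : ℝ) * x⌋₊, ?_, n * x - ⌊(n : ℝ) * x⌋₊, ?_, ?_, by ring⟩
    · rw [Nat.floor_lt f0]
      nlinarith
    · linarith [Nat.floor_le f0]
    · linarith [(Nat.lt_floor_add_one ((n : ℝ) * x)).le]

theorem plx_le {n : ℕ} (n0 : 0 < n) {v : ℕ → ℝ} {B : ℝ} (h : ∀ j ≤ n, v j ≤ B) {x : ℝ}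
    (h0 : 0 ≤ x) (h1 : x ≤ 1) : plx n v x ≤ B := by
  obtain ⟨l, hl, c, c0, c1, hc⟩ := cell_ex n0 h0 h1
  rw [plx_cell hl v c0 c1 hc]
  have a1 := mul_le_mul_of_nonneg_left (h l hl.le) (sub_nonneg.2 c1)
  have a2 := mul_le_mul_of_nonneg_left (h (l + 1) hl) c0
  linarith

/-! ### cubic polynomials in `k` by their Bernstein coefficients, numerators over `2 ^ 20` -/

/-- the Bernstein coefficients times `2 ^ 20` -/
abbrev Cub := ℕ × ℕ × ℕ × ℕ

/-- the common denominator -/
def RD : ℕ := 1048576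

theorem RD_pos : (0 : ℝ) < (RD : ℝ) := by unfold RD; norm_num

/-- the cubic with real coefficients -/
noncomputable def cubR (a b c d k : ℝ) : ℝ :=
  a * (1 - k) ^ 3 + 3 * b * k * (1 - k) ^ 2 + 3 * c * k ^ 2 * (1 - k) + d * k ^ 3

/-- the value -/
noncomputable def Cub.ev (p : Cub) (k : ℝ) : ℝ :=
  cubR (p.1 / RD) (p.2.1 / RD) (p.2.2.1 / RD) (p.2.2.2 / RD) k

theorem cubR_nonneg {a b c d k : ℝ} (a0 : 0 ≤ a) (b0 : 0 ≤ b) (c0 : 0 ≤ c) (d0 : 0 ≤ d)
    (k0 : 0 ≤ k) (k1 : k ≤ 1) : 0 ≤ cubR a b c d k := by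
  unfold cubR
  have h := sub_nonneg.2 k1
  positivity

theorem cubR_mono {a b c d a' b' c' d' k : ℝ} (ha : a ≤ a') (hb : b ≤ b') (hc : c ≤ c')
    (hd : d ≤ d') (k0 : 0 ≤ k) (k1 : k ≤ 1) : cubR a b c d k ≤ cubR a' b' c' d' k := by
  have h := sub_nonneg.2 k1
  have e : cubR a' b' c' d' k - cubR a b c d k
      = cubR (a' - a) (b' - b) (c' - c) (d' - d) k := by unfold cubR; ring
  have := cubR_nonneg (sub_nonneg.2 ha) (sub_nonneg.2 hb) (sub_nonneg.2 hc) (sub_nonneg.2 hd) k0 k1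
  linarith

/-- nonincreasing coefficients: nonincreasing in `k` -/
theorem cubR_anti {a b c d : ℝ} (h1 : b ≤ a) (h2 : c ≤ b) (h3 : d ≤ c) {k k' : ℝ}
    (k0 : 0 ≤ k) (hk : k ≤ k') (k1 : k' ≤ 1) : cubR a b c d k' ≤ cubR a b c d k := by
  have e : cubR a b c d k - cubR a b c d k' = (k' - k) * ((a - b) * ((1 - k) ^ 2 + (1 - k) * (1 - k')
      + (1 - k') ^ 2) + (b - c) * ((1 - k) * (2 * k + k') + (1 - k') * (k + 2 * k'))
      + (c - d) * (k ^ 2 + k * k' + k' ^ 2)) := by
    unfold cubR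
    ring
  have a1 := sub_nonneg.2 h1
  have a2 := sub_nonneg.2 h2
  have a3 := sub_nonneg.2 h3
  have b1 := sub_nonneg.2 hk
  have b2 : 0 ≤ 1 - k' := sub_nonneg.2 k1
  have b3 : 0 ≤ 1 - k := by linarith
  have b4 : 0 ≤ k' := k0.trans hk
  have : 0 ≤ cubR a b c d k - cubR a b c d k' := by
    rw [e]
    positivity
  linarith

theorem Cub.ev_nonneg (p : Cub) {k : ℝ} (k0 : 0 ≤ k) (k1 : k ≤ 1) : 0 ≤ p.ev k := by
  have := RD_pos
  unfold Cub.ev
  refine cubR_nonneg ?_ ?_ ?_ ?_ k0 k1 <;> positivity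

/-- a cubic with nonincreasing coefficients -/
def Cub.Anti (p : Cub) : Prop := p.2.1 ≤ p.1 ∧ p.2.2.1 ≤ p.2.1 ∧ p.2.2.2 ≤ p.2.2.1

theorem Cub.ev_anti {p : Cub} (h : p.Anti) {k k' : ℝ} (k0 : 0 ≤ k) (hk : k ≤ k') (k1 : k' ≤ 1) :
    p.ev k' ≤ p.ev k := by
  have D := RD_pos
  have c : ∀ {m n : ℕ}, m ≤ n → (m : ℝ) / RD ≤ (n : ℝ) / RD := fun h =>
    div_le_div_of_nonneg_right (by exact_mod_cast h) D.le
  exact cubR_anti (c h.1) (c h.2.1) (c h.2.2) k0 hk k1

/-! ### the table -/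

/-- the table: `M` big cells `[T m / 1000, T (m+1) / 1000]` of the time, cells of the exponents
`1 / N`, ten cells in `x = s / t`; `r K m j` is the cubic of the kind `K` in the big cell `m` at
the node `x = j / 10` -/
structure Tab where
  M : ℕ
  N : ℕ
  T : ℕ → ℕ
  r : ℕ → ℕ → ℕ → Cub

namespace Tab

variable (R : Tab)

/-- the nodes of the time -/
noncomputable def tn (m : ℕ) : ℝ := (R.T m : ℝ) / 1000

/-- the shift of the first cell -/
noncomputable def dl (_ : Tab) (m : ℕ) : ℝ := if m = 0 then 1 / 50 else 0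

/-- the power of the time: `1` for the released exponents, `2` for the deleted ones -/
def ex (K : ℕ) : ℕ :=
  if K = 1 ∨ K = 3 ∨ K = 5 ∨ K = 7 ∨ K = 9 ∨ K = 14 ∨ K = 17 then 1 else 2

/-- **the value of the table**: `(t + δ) ^ ex K * PL(s / t)(r)` -/
noncomputable def val (K m : ℕ) (t s k : ℝ) : ℝ :=
  |t + R.dl m| ^ ex K * plx 10 (fun j => (R.r K m j).ev k) (s / t)

/-- the nodes cover `[0, 1]` -/
structure Cov : Prop where
  T0 : R.T 0 = 0
  T1 : R.T R.M = 1000
  M0 : 0 < R.M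
  N0 : 0 < R.N

variable {R}

theorem dl_nonneg (m : ℕ) : 0 ≤ R.dl m := by
  unfold dl
  split_ifs <;> positivity

theorem val_eq {K m : ℕ} {t s k : ℝ} (t0 : 0 ≤ t) : R.val K m t s k
    = (t + R.dl m) ^ ex K * plx 10 (fun j => (R.r K m j).ev k) (s / t) := by
  unfold val
  rw [abs_of_nonneg (add_nonneg t0 (dl_nonneg m))]

/-- the deleted exponents -/
theorem val_two {K m : ℕ} (hK : ex K = 2) {t s k : ℝ} : R.val K m t s k
    = (t + R.dl m) ^ 2 * plx 10 (fun j => (R.r K m j).ev k) (s / t) := by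
  unfold val
  rw [hK, sq_abs]

theorem val_nonneg (K m : ℕ) (t s : ℝ) {k : ℝ} (k0 : 0 ≤ k) (k1 : k ≤ 1) :
    0 ≤ R.val K m t s k :=
  mul_nonneg (pow_nonneg (abs_nonneg _) _) (plx_nonneg (fun _ _ => Cub.ev_nonneg _ k0 k1) _)

theorem val_cont (K m : ℕ) (t k : ℝ) : Continuous fun s => R.val K m t s k := by
  unfold val
  exact continuous_const.mul ((plx_cont 10 _).comp (continuous_id.div_const t))

theorem val_anti {K m : ℕ} (h : ∀ j ≤ 10, (R.r K m j).Anti) (t s : ℝ) {k k' : ℝ}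
    (k0 : 0 ≤ k) (hk : k ≤ k') (k1 : k' ≤ 1) : R.val K m t s k' ≤ R.val K m t s k :=
  mul_le_mul_of_nonneg_left (plx_mono (fun j hj => Cub.ev_anti (h j hj) k0 hk k1) _)
    (pow_nonneg (abs_nonneg _) _)

end Tab

/-! ### the kinds -/

/-- columns of the deleted exponents: `∑_c L c d`, `k = k_d` -/
def kCL : ℕ := 0
/-- columns of the released exponents -/
def kCF : ℕ := 1
/-- rows of the deleted exponents: `∑_d L c d`, `k = k_c` -/
def kRL : ℕ := 2
/-- rows of the released exponents -/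
def kRF : ℕ := 3
/-- entries of the deleted exponents (constant in `k`: the value at `k = 0` is used) -/
def kEL : ℕ := 4
/-- entries of the released exponents -/
def kEF : ℕ := 5
/-- entries of the deleted exponents: the part of the degree of the first vertex -/
def kEC : ℕ := 13
/-- entries of the released exponents: the part of the degree of the first vertex -/
def kEG : ℕ := 14
/-- columns of the deleted exponents in the world of one vertex, all second vertices -/
def kSL : ℕ := 16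
/-- columns of the released exponents in the world of one vertex, all second vertices -/
def kSF : ℕ := 17
end Pool.Agent.RZ.RCO.RT
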