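import Pool.Agent.RZ.RCN.PpA
import Pool.Agent.RZ.RCO.Ex11
import Pool.Agent.RZ.RCO.Ex13
import Pool.Agent.RZ.RCO.RT

/-! Route P: the bounds of the sums of the exponents of the cells by the table of the rows
(MP_73ccd0_lc). -/

namespace Pool.Agent.RZ.RCO

open Set Finset MeasureTheory Pool.Agent.RZ.RCRSHalf Pool.Agent.RZ.RCG Pool.Agent.RZ.RCG.Ct
open Pool.Agent.RZ.RCN Pool.Agent.RZ.RCN.K

set_option linter.unusedSectionVars false

variable {V : Type*} [Fintype V] [DecidableEq V]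

/-! ### bounds of the exponents at one time -/

/-- the bounds of the sums of the exponents for the pair `a`, `b` at the time `t` by the table in
the big cell `m` -/
structure RTt (x : V → V → ℝ) (P : V → Prop) [DecidablePred P] (R : RT.Tab)
    (L Lt : V → V → V → V → ℝ → ℝ → ℝ) (a b : V) (m : ℕ) (t : ℝ) : Prop where
  cl : ∀ d ∈ ({a, b} : Finset V)ᶜ, ∀ s ∈ Icc 0 t,
    ∑ c ∈ ({a, b, d} : Finset V)ᶜ, rP P L a b c d t s ≤ R.val RT.kCL m t s (x a d + x b d)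
  cf : ∀ d ∈ ({a, b} : Finset V)ᶜ, ∀ s ∈ Icc 0 t,
    ∑ c ∈ ({a, b, d} : Finset V)ᶜ, rP P Lt a b c d t s ≤ R.val RT.kCF m t s (x a d + x b d)
  rl : ∀ c ∈ ({a, b} : Finset V)ᶜ, ∀ s ∈ Icc 0 t,
    ∑ d ∈ ({a, b, c} : Finset V)ᶜ, rP P L a b c d t s ≤ R.val RT.kRL m t s (x a c + x b c)
  rf : ∀ c ∈ ({a, b} : Finset V)ᶜ, ∀ s ∈ Icc 0 t,
    ∑ d ∈ ({a, b, c} : Finset V)ᶜ, rP P Lt a b c d t s ≤ R.val RT.kRF m t s (x a c + x b c)
  el : ∀ c ∈ ({a, b} : Finset V)ᶜ, ∀ d ∈ ({a, b, c} : Finset V)ᶜ, P c → P d → ∀ s ∈ Icc 0 t,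
    L a b c d t s ≤ R.val RT.kEL m t s (x a d + x b d) + R.val RT.kEC m t s (x a c + x b c)
  ef : ∀ c ∈ ({a, b} : Finset V)ᶜ, ∀ d ∈ ({a, b, c} : Finset V)ᶜ, P c → P d → ∀ s ∈ Icc 0 t,
    Lt a b c d t s ≤ R.val RT.kEF m t s (x a d + x b d) + R.val RT.kEG m t s (x a c + x b c)
  pd : ∀ c d, ¬P d → x b d ≠ 0 → ∀ s ∈ Icc 0 t, L a b c d t s = 0 ∧ Lt a b c d t s = 0

/-- the bounds of the sums of the exponents at all times -/
def RTb (x : V → V → ℝ) (P : V → Prop) [DecidablePred P] (R : RT.Tab)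
    (L Lt : V → V → V → V → ℝ → ℝ → ℝ) : Prop :=
  ∀ t ∈ Icc (0 : ℝ) 1, ∃ m < R.M, R.tn m ≤ t ∧ t ≤ R.tn (m + 1) ∧
    ∀ a b, P a → P b → a ≠ b → RTt x P R L Lt a b m t

/-! ### bounds of the constants of a class -/

/-- the real vertices of the world without `a`, `b`, `d` -/
def reE (P : V → Prop) [DecidablePred P] (a b d : V) : Finset V :=
  (({a, b} : Finset V)ᶜ.erase d).filter P

/-- the bounds of the sums of the constants of a class for the pair `a`, `b` by the table at the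
times `t`, `s`; only real vertices -/
structure RTj (x : V → V → ℝ) (P : V → Prop) [DecidablePred P] (R : RT.Tab) (a b : V) (m : ℕ)
    (t s : ℝ) (L Lf : V → V → ℝ) : Prop where
  cl : ∀ d ∈ ({a, b} : Finset V)ᶜ, P d →
    ∑ c ∈ reE P a b d, L c d ≤ R.val RT.kCL m t s (x a d + x b d)
  cf : ∀ d ∈ ({a, b} : Finset V)ᶜ, P d →
    ∑ c ∈ reE P a b d, Lf c d ≤ R.val RT.kCF m t s (x a d + x b d)
  rl : ∀ c ∈ ({a, b} : Finset V)ᶜ, P c →
    ∑ d ∈ reE P a b c, L c d ≤ R.val RT.kRL m t s (x a c + x b c)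
  rf : ∀ c ∈ ({a, b} : Finset V)ᶜ, P c →
    ∑ d ∈ reE P a b c, Lf c d ≤ R.val RT.kRF m t s (x a c + x b c)
  el : ∀ c ∈ ({a, b} : Finset V)ᶜ, ∀ d ∈ ({a, b} : Finset V)ᶜ, c ≠ d → P c → P d →
    L c d ≤ R.val RT.kEL m t s (x a d + x b d) + R.val RT.kEC m t s (x a c + x b c)
  ef : ∀ c ∈ ({a, b} : Finset V)ᶜ, ∀ d ∈ ({a, b} : Finset V)ᶜ, c ≠ d → P c → P d →
    Lf c d ≤ R.val RT.kEF m t s (x a d + x b d) + R.val RT.kEG m t s (x a c + x b c)

/-- the bounds of the constants of the class `j` of the cell `i` -/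
structure RTc (x : V → V → ℝ) (P : V → Prop) [DecidablePred P] (R : RT.Tab) (N : ℕ)
    (M : ℕ → ℕ) (sg : ℕ → ℕ → ℝ) (ε : ℝ) (m i j : ℕ) (a b : V) (L Lf : V → V → ℝ) : Prop where
  nL : ∀ c ∈ ({a, b} : Finset V)ᶜ, ∀ d ∈ ({a, b} : Finset V)ᶜ, 0 ≤ L c d
  nF : ∀ c ∈ ({a, b} : Finset V)ᶜ, ∀ d ∈ ({a, b} : Finset V)ᶜ, 0 ≤ Lf c d
  pd : ∀ c ∈ ({a, b} : Finset V)ᶜ, ∀ d ∈ ({a, b} : Finset V)ᶜ, ¬P d → x b d ≠ 0 →
    L c d = 0 ∧ Lf c d = 0
  B : ∀ t ∈ Icc (0 : ℝ) 1, ci N t = i → ∀ s ∈ Icc 0 t, Act M sg ε i s j →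
    RTj x P R a b m t s L Lf

/-! ### the big cell of a cell -/

/-- the cells are finer than the big cells -/
structure Mp (R : RT.Tab) (mi : ℕ → ℕ) : Prop where
  lt : ∀ i < R.N, mi i < R.M
  lo : ∀ i < R.N, R.tn (mi i) ≤ ca R.N i
  hi : ∀ i < R.N, cb R.N i ≤ R.tn (mi i + 1)

/-- the big cells exist if `N` is a multiple of `1000` -/
theorem mp_ex {R : RT.Tab} (h : R.Cov) {q : ℕ} (q0 : 0 < q) (hN : R.N = 1000 * q) :
    ∃ mi, Mp R mi := by
  classical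
  have hN' : (R.N : ℝ) = 1000 * q := by rw [hN]; push_cast; ring
  have q0' : (0 : ℝ) < q := Nat.cast_pos.2 q0
  have key : ∀ i < R.N, ∃ m < R.M, R.T m * q ≤ i ∧ i < R.T (m + 1) * q := by
    intro i hi
    have hex : ∃ m, i < R.T (m + 1) * q := ⟨R.M - 1, by
      rw [Nat.sub_add_cancel h.M0, h.T1, ← hN]
      exact hi⟩
    set m := Nat.find hex with hm
    have e1 : i < R.T (m + 1) * q := Nat.find_spec hex
    have e2 : m ≤ R.M - 1 := Nat.find_min' hex (by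
      rw [Nat.sub_add_cancel h.M0, h.T1, ← hN]
      exact hi)
    refine ⟨m, by have := h.M0; omega, ?_, e1⟩
    rcases Nat.eq_zero_or_pos m with h2 | h2
    · rw [h2, h.T0, zero_mul]
      exact Nat.zero_le i
    · have := Nat.find_min hex (Nat.sub_lt h2 one_pos)
      have e3 : m - 1 + 1 = m := Nat.sub_add_cancel h2
      rw [← hm, e3] at this
      exact not_lt.1 this
  choose! mi h1 h2 h3 using key
  refine ⟨mi, h1, fun i hi => ?_, fun i hi => ?_⟩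
  · unfold RT.Tab.tn ca
    rw [hN', div_le_div_iff₀ (by norm_num) (by positivity)]
    have : ((R.T (mi i) : ℝ)) * q ≤ i := by exact_mod_cast h2 i hi
    nlinarith
  · unfold RT.Tab.tn cb
    rw [hN', div_le_div_iff₀ (by positivity) (by norm_num)]
    have h4 : i + 1 ≤ R.T (mi i + 1) * q := h3 i hi
    have : ((i : ℝ) + 1) ≤ (R.T (mi i + 1) : ℝ) * q := by exact_mod_cast h4
    nlinarith

/-! ### sums over real vertices -/

section real

variable {P : V → Prop} [DecidablePred P]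
variable {N : ℕ} {M : ℕ → ℕ} {sg : ℕ → ℕ → ℝ} {ε : ℝ} {L Lf Lg : ℕ → ℕ → V → V → V → V → ℝ}
  {a b : V}

theorem rP_sum_c {K : V → V → V → V → ℝ → ℝ → ℝ} {t s : ℝ} {d : V} :
    ∑ c ∈ ({a, b, d} : Finset V)ᶜ, rP P K a b c d t s
      = ∑ c ∈ (({a, b} : Finset V)ᶜ.erase d).filter (fun c => P c ∧ P d), 1 * K a b c d t s := by
  rw [compl3_c, Finset.sum_filter]
  refine Finset.sum_congr rfl fun c _ => ?_
  unfold rP
  rw [one_mul]

theorem rP_sum_d {K : V → V → V → V → ℝ → ℝ → ℝ} {t s : ℝ} {c : V} :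
    ∑ d ∈ ({a, b, c} : Finset V)ᶜ, rP P K a b c d t s
      = ∑ d ∈ (({a, b} : Finset V)ᶜ.erase c).filter (fun d => P c ∧ P d), 1 * K a b c d t s := by
  rw [compl3_c, Finset.sum_filter]
  refine Finset.sum_congr rfl fun c _ => ?_
  unfold rP
  rw [one_mul]

theorem filt_c {d : V} (h : P d) : (({a, b} : Finset V)ᶜ.erase d).filter (fun c => P c ∧ P d)
    = reE P a b d := Finset.filter_congr fun c _ => by simp [h]

theorem filt_d {c : V} (h : P c) : (({a, b} : Finset V)ᶜ.erase c).filter (fun d => P c ∧ P d)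
    = reE P a b c := Finset.filter_congr fun d _ => by simp [h]

theorem filt_c0 {d : V} (h : ¬P d) :
    (({a, b} : Finset V)ᶜ.erase d).filter (fun c => P c ∧ P d) = ∅ :=
  Finset.filter_false_of_mem fun c _ h1 => h h1.2

theorem filt_d0 {c : V} (h : ¬P c) :
    (({a, b} : Finset V)ᶜ.erase c).filter (fun d => P c ∧ P d) = ∅ :=
  Finset.filter_false_of_mem fun d _ h1 => h h1.1

theorem mem_reE {c d : V} (h : c ∈ reE P a b d) :
    c ∈ ({a, b} : Finset V)ᶜ ∧ c ≠ d ∧ P c := by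
  unfold reE at h
  obtain ⟨h1, h2⟩ := Finset.mem_filter.1 h
  exact ⟨Finset.mem_of_mem_erase h1, Finset.ne_of_mem_erase h1, h2⟩

/-- the columns of the deleted exponents of the cells, real vertices -/
theorem lc_colP (ε0 : 0 < ε) (N0 : 0 < N) (last : ∀ i < N, sg i (M i) = cb N i)
    (ha : P a) (hb : P b) (hab : a ≠ b) {t s B : ℝ} (ht1 : t ≤ 1) (hs : s ∈ Icc 0 t)
    (B0 : 0 ≤ B) {d : V} (hd : d ∈ ({a, b} : Finset V)ᶜ)
    (nn : ∀ j ≤ M (ci N t), ∀ c ∈ ({a, b} : Finset V)ᶜ, 0 ≤ L (ci N t) j a b c d)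
    (h : P d → ∀ j, Act M sg ε (ci N t) s j → ∑ c ∈ reE P a b d, L (ci N t) j a b c d ≤ B) :
    ∑ c ∈ ({a, b, d} : Finset V)ᶜ, rP P (Lc P (mkC N M sg ε L Lf Lg)) a b c d t s ≤ B := by
  rw [rP_sum_c]
  by_cases hP : P d
  · rw [filt_c hP]
    refine (lc_sum_le (P := P) (N := N) (M := M) (sg := sg) (L := L) (Lf := Lf) (Lg := Lg)
      ε0 N0 last (t := t) (s := s) (B := B) ht1 hs (reE P a b d) (fun _ => 1)
      (fun _ => a) (fun _ => b) (fun c => c) (fun _ => d) (fun c hc => by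
        have h1 := mem_reE hc
        exact ⟨ha, hb, hab, h1.1, hd, h1.2.1⟩)
      (fun j hj => ?_))
    rw [Finset.sum_congr rfl (g := fun c => L (ci N t) j a b c d) fun c hc => by
      rw [max_eq_right (nn j hj.1 c (mem_reE hc).1), one_mul]]
    exact h hP j hj
  · rw [filt_c0 hP, Finset.sum_empty]
    exact B0

/-- the rows of the deleted exponents of the cells, real vertices -/
theorem lc_rowP (ε0 : 0 < ε) (N0 : 0 < N) (last : ∀ i < N, sg i (M i) = cb N i)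
    (ha : P a) (hb : P b) (hab : a ≠ b) {t s B : ℝ} (ht1 : t ≤ 1) (hs : s ∈ Icc 0 t)
    (B0 : 0 ≤ B) {c : V} (hc : c ∈ ({a, b} : Finset V)ᶜ)
    (nn : ∀ j ≤ M (ci N t), ∀ d ∈ ({a, b} : Finset V)ᶜ, 0 ≤ L (ci N t) j a b c d)
    (h : P c → ∀ j, Act M sg ε (ci N t) s j → ∑ d ∈ reE P a b c, L (ci N t) j a b c d ≤ B) :
    ∑ d ∈ ({a, b, c} : Finset V)ᶜ, rP P (Lc P (mkC N M sg ε L Lf Lg)) a b c d t s ≤ B := by
  rw [rP_sum_d]
  by_cases hP : P c
  · rw [filt_d hP]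
    refine (lc_sum_le (P := P) (N := N) (M := M) (sg := sg) (L := L) (Lf := Lf) (Lg := Lg)
      ε0 N0 last (t := t) (s := s) (B := B) ht1 hs (reE P a b c) (fun _ => 1)
      (fun _ => a) (fun _ => b) (fun _ => c) (fun d => d) (fun d hd => by
        have h1 := mem_reE hd
        exact ⟨ha, hb, hab, hc, h1.1, fun e => h1.2.1 e.symm⟩)
      (fun j hj => ?_))
    rw [Finset.sum_congr rfl (g := fun d => L (ci N t) j a b c d) fun d hd => by
      rw [max_eq_right (nn j hj.1 d (mem_reE hd).1), one_mul]]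
    exact h hP j hj
  · rw [filt_d0 hP, Finset.sum_empty]
    exact B0

/-- the columns of the released exponents of the cells, real vertices -/
theorem lr_colP (ε0 : 0 < ε) (N0 : 0 < N) (last : ∀ i < N, sg i (M i) = cb N i)
    (ha : P a) (hb : P b) (hab : a ≠ b) {t s B : ℝ} (ht1 : t ≤ 1) (hs : s ∈ Icc 0 t)
    (B0 : 0 ≤ B) {d : V} (hd : d ∈ ({a, b} : Finset V)ᶜ)
    (nn : ∀ j ≤ M (ci N t), ∀ c ∈ ({a, b} : Finset V)ᶜ, 0 ≤ Lf (ci N t) j a b c d)
    (h : P d → ∀ j, Act M sg ε (ci N t) s j → ∑ c ∈ reE P a b d, Lf (ci N t) j a b c d ≤ B) :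
    ∑ c ∈ ({a, b, d} : Finset V)ᶜ, rP P (RCN.K.Lr P (mkC N M sg ε L Lf Lg)) a b c d t s
      ≤ B := by
  rw [rP_sum_c]
  by_cases hP : P d
  · rw [filt_c hP]
    refine (lr_sum_le (P := P) (N := N) (M := M) (sg := sg) (L := L) (Lf := Lf) (Lg := Lg)
      ε0 N0 last (t := t) (s := s) (B := B) ht1 hs (reE P a b d) (fun _ => 1)
      (fun _ => a) (fun _ => b) (fun c => c) (fun _ => d) (fun c hc => by
        have h1 := mem_reE hc
        exact ⟨ha, hb, hab, h1.1, hd, h1.2.1⟩)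
      (fun j hj => ?_))
    rw [Finset.sum_congr rfl (g := fun c => Lf (ci N t) j a b c d) fun c hc => by
      rw [max_eq_right (nn j hj.1 c (mem_reE hc).1), one_mul]]
    exact h hP j hj
  · rw [filt_c0 hP, Finset.sum_empty]
    exact B0

/-- the rows of the released exponents of the cells, real vertices -/
theorem lr_rowP (ε0 : 0 < ε) (N0 : 0 < N) (last : ∀ i < N, sg i (M i) = cb N i)
    (ha : P a) (hb : P b) (hab : a ≠ b) {t s B : ℝ} (ht1 : t ≤ 1) (hs : s ∈ Icc 0 t)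
    (B0 : 0 ≤ B) {c : V} (hc : c ∈ ({a, b} : Finset V)ᶜ)
    (nn : ∀ j ≤ M (ci N t), ∀ d ∈ ({a, b} : Finset V)ᶜ, 0 ≤ Lf (ci N t) j a b c d)
    (h : P c → ∀ j, Act M sg ε (ci N t) s j → ∑ d ∈ reE P a b c, Lf (ci N t) j a b c d ≤ B) :
    ∑ d ∈ ({a, b, c} : Finset V)ᶜ, rP P (RCN.K.Lr P (mkC N M sg ε L Lf Lg)) a b c d t s
      ≤ B := by
  rw [rP_sum_d]
  by_cases hP : P c
  · rw [filt_d hP]
    refine (lr_sum_le (P := P) (N := N) (M := M) (sg := sg) (L := L) (Lf := Lf) (Lg := Lg)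
      ε0 N0 last (t := t) (s := s) (B := B) ht1 hs (reE P a b c) (fun _ => 1)
      (fun _ => a) (fun _ => b) (fun _ => c) (fun d => d) (fun d hd => by
        have h1 := mem_reE hd
        exact ⟨ha, hb, hab, hc, h1.1, fun e => h1.2.1 e.symm⟩)
      (fun j hj => ?_))
    rw [Finset.sum_congr rfl (g := fun d => Lf (ci N t) j a b c d) fun d hd => by
      rw [max_eq_right (nn j hj.1 d (mem_reE hd).1), one_mul]]
    exact h hP j hj
  · rw [filt_d0 hP, Finset.sum_empty]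
    exact B0

/-- a sum over the real vertices as a sum with weights -/
theorem reE_eq {d : V} {g : V → ℝ} :
    ∑ c ∈ reE P a b d, g c = ∑ c ∈ ({a, b} : Finset V)ᶜ.erase d, (if P c then 1 else 0) * g c := by
  unfold reE
  rw [Finset.sum_filter]
  refine Finset.sum_congr rfl fun c _ => ?_
  split_ifs <;> ring

end real

/-! ### from the classes to the times -/

section

variable {x : V → V → ℝ} {P : V → Prop} [DecidablePred P] {R : RT.Tab}
variable {M : ℕ → ℕ} {sg : ℕ → ℕ → ℝ} {ε : ℝ} {L Lf Lg : ℕ → ℕ → V → V → V → V → ℝ}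
  {a b : V} {t : ℝ} {m : ℕ}

/-- the bounds at one time from the bounds of the active classes -/
theorem rtt_of {N : ℕ} (hx : RCG.Ct.Wt x P 1) (ε0 : 0 < ε) (N0 : 0 < N)
    (last : ∀ i < N, sg i (M i) = cb N i) (ht : t ∈ Icc (0 : ℝ) 1)
    (ha : P a) (hb : P b) (hab : a ≠ b)
    (h : ∀ j ≤ M (ci N t), RTc x P R N M sg ε m (ci N t) j a b
      (L (ci N t) j a b) (Lf (ci N t) j a b)) :
    RTt x P R (Lc P (mkC N M sg ε L Lf Lg)) (RCN.K.Lr P (mkC N M sg ε L Lf Lg)) a b m t := by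
  have k0 : ∀ {d : V}, d ∈ ({a, b} : Finset V)ᶜ →
      0 ≤ x a d + x b d ∧ x a d + x b d ≤ 1 := fun {d} hd => by
    refine ⟨add_nonneg (hx.nonneg a d) (hx.nonneg b d), ?_⟩
    have h1 := hx.row d
    rw [← Finset.sum_add_sum_compl ({a, b} : Finset V), Finset.sum_pair hab] at h1
    have h2 : 0 ≤ ∑ e ∈ ({a, b} : Finset V)ᶜ, x d e := Finset.sum_nonneg fun e _ => hx.nonneg d e
    rw [hx.symm a d, hx.symm b d]
    linarith
  have v0 : ∀ {K : ℕ} {d : V} {s : ℝ}, d ∈ ({a, b} : Finset V)ᶜ →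
      0 ≤ R.val K m t s (x a d + x b d) := fun hd =>
    RT.Tab.val_nonneg _ _ _ _ (k0 hd).1 (k0 hd).2
  have B : ∀ {s : ℝ} {j : ℕ}, s ∈ Icc 0 t → Act M sg ε (ci N t) s j →
      RTj x P R a b m t s (L (ci N t) j a b) (Lf (ci N t) j a b) := fun {s j} hs hj =>
    (h j hj.1).B t ht rfl s hs hj
  constructor
  · intro d hd s hs
    exact lc_colP ε0 N0 last ha hb hab ht.2 hs (v0 hd) hd (fun j hj c hc => (h j hj).nL c hc d hd)
      fun hP j hj => (B hs hj).cl d hd hP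
  · intro d hd s hs
    exact lr_colP ε0 N0 last ha hb hab ht.2 hs (v0 hd) hd (fun j hj c hc => (h j hj).nF c hc d hd)
      fun hP j hj => (B hs hj).cf d hd hP
  · intro c hc s hs
    exact lc_rowP ε0 N0 last ha hb hab ht.2 hs (v0 hc) hc (fun j hj d hd => (h j hj).nL c hc d hd)
      fun hP j hj => (B hs hj).rl c hc hP
  · intro c hc s hs
    exact lr_rowP ε0 N0 last ha hb hab ht.2 hs (v0 hc) hc (fun j hj d hd => (h j hj).nF c hc d hd)
      fun hP j hj => (B hs hj).rf c hc hP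
  · intro c hc d hd hPc hPd s hs
    have hd2 : d ∈ ({a, b} : Finset V)ᶜ := by
      simp only [Finset.mem_compl, Finset.mem_insert, Finset.mem_singleton, not_or] at hd ⊢
      exact ⟨hd.1, hd.2.1⟩
    exact lc_ent ε0 N0 last ht.2 hs (add_nonneg (v0 hd2) (v0 hc)) fun hv j hj => (B hs hj).el c hc d hd2 hv.2.2.2.2.2 hPc hPd
  · intro c hc d hd hPc hPd s hs
    have hd2 : d ∈ ({a, b} : Finset V)ᶜ := by
      simp only [Finset.mem_compl, Finset.mem_insert, Finset.mem_singleton, not_or] at hd ⊢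
      exact ⟨hd.1, hd.2.1⟩
    exact lr_ent ε0 N0 last ht.2 hs (add_nonneg (v0 hd2) (v0 hc)) fun hv j hj => (B hs hj).ef c hc d hd2 hv.2.2.2.2.2 hPc hPd
  · intro c d hd hbd s hs
    exact ⟨lc_zero ε0 N0 last ht.2 hs fun hv j hj =>
        ((h j hj.1).pd c hv.2.2.2.1 d hv.2.2.2.2.1 hd hbd).1.le,
      lr_zero ε0 N0 last ht.2 hs fun hv j hj =>
        ((h j hj.1).pd c hv.2.2.2.1 d hv.2.2.2.2.1 hd hbd).2.le⟩

end

end Pool.Agent.RZ.RCO
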