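import Pool.Agent.RZ.RCM.Pend
import Pool.Agent.RZ.RCO.RTb

/-! Route P: the constants of a pair in a cell and a class with providers, their sums
(MP_73ccd0_lc). -/

namespace Pool.Agent.RZ.RCO

open Set Finset MeasureTheory Pool.Agent.RZ.RCRSHalf Pool.Agent.RZ.RCG Pool.Agent.RZ.RCG.Ct
open Pool.Agent.RZ.RCN Pool.Agent.RZ.RCN.K

set_option linter.unusedSectionVars false

variable {V : Type*} [Fintype V] [DecidableEq V]

/-! ### pendant vertices -/

open Classical in
/-- the constants, zero at the pendant vertices of `b` -/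
noncomputable def pz (x : V → V → ℝ) (P : V → Prop) (b : V) (L : V → V → ℝ) (c d : V) : ℝ :=
  if ¬P d ∧ x b d ≠ 0 then 0 else L c d

section pend

variable {Z : Hzd} {x : V → V → ℝ} {P : V → Prop} [DecidablePred P] {a b : V} {L Lf : V → V → ℝ}

theorem pz_nonneg {c d : V} (h : 0 ≤ L c d) : 0 ≤ pz x P b L c d := by
  unfold pz
  split_ifs
  · exact le_rfl
  · exact h

theorem pz_le {c d : V} (h : 0 ≤ L c d) : pz x P b L c d ≤ L c d := by
  unfold pz
  split_ifs
  · exact h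
  · exact le_rfl

theorem pz_zero {c d : V} (hd : ¬P d) (hbd : x b d ≠ 0) : pz x P b L c d = 0 := by
  unfold pz
  rw [if_pos ⟨hd, hbd⟩]

/-- the closures at a pendant vertex -/
theorem pend_clo2 (hx : RCG.Ct.Wt x P 1) {h : ℝ → V → V → ℝ} {H : V → V → ℝ → ℝ} {t : ℝ}
    (hw : Wh Z x P h H t) (ht : t ∈ Icc (0 : ℝ) 1) (hab : a ≠ b) {c d : V}
    (hc : c ∈ ({a, b} : Finset V)ᶜ) (hd' : d ∈ ({a, b} : Finset V)ᶜ) (hcd : c ≠ d)
    (hd : ¬P d) (hbd : x b d ≠ 0) {s : ℝ} (hs : s ∈ Icc 0 t) :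
    RCM.CloD h t s {a} {a, b} c d 1 ∧ RCM.CloDt h t s {a} {a, b} c d 1 := by
  simp only [Finset.mem_compl, Finset.mem_insert, Finset.mem_singleton, not_or] at hc hd'
  refine RCM.clo_pend hw.hh ht (fun r hr v hvb => ?_) hab hd'.2 hd'.1 (Ne.symm hcd) hc.2 hs
  have h0 : x d v = 0 := by
    by_contra h1
    exact hvb (hx.pend1 b d v hd hbd h1)
  have h2 := hw.le d v r hr
  rw [Hzd.hh_zero h0] at h2
  exact le_antisymm h2 (hw.hh.nonneg r d v)

/-- the pair of constants with zeros at the pendant vertices -/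
theorem Ck2.pz {N : ℕ} {sg : ℕ → ℕ → ℝ} {ε : ℝ} {i j : ℕ} (hi : i < N) (hab : a ≠ b)
    (hx : RCG.Ct.Wt x P 1) (h : Ck2 Z x P N sg ε i j a b L Lf) :
    Ck2 Z x P N sg ε i j a b (RCO.pz x P b L) (RCO.pz x P b Lf) where
  l := fun h' H t hw ht s hs hm hσ c hc d hd hcd => by
    unfold RCO.pz
    split_ifs with h1
    · rw [Real.exp_zero]
      exact (pend_clo2 hx hw (cell_sub hi ht) hab hc hd hcd h1.1 h1.2 hs).1
    · exact h.l h' H t hw ht s hs hm hσ c hc d hd hcd
  f := fun h' H t hw ht s hs hm hσ c hc d hd hcd => by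
    unfold RCO.pz
    split_ifs with h1
    · rw [Real.exp_zero]
      exact (pend_clo2 hx hw (cell_sub hi ht) hab hc hd hcd h1.1 h1.2 hs).2
    · exact h.f h' H t hw ht s hs hm hσ c hc d hd hcd
  l0 := fun c hc d hd hcd => pz_nonneg (h.l0 c hc d hd hcd)
  f0 := fun c hc d hd hcd => pz_nonneg (h.f0 c hc d hd hcd)

/-- the bounds of the class from the bounds of the constants, zeros at the pendant vertices -/
theorem RTc.of_pz {R : RT.Tab} {N : ℕ} {M : ℕ → ℕ} {sg : ℕ → ℕ → ℝ} {ε : ℝ} {m i j : ℕ}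
    (nL : ∀ c ∈ ({a, b} : Finset V)ᶜ, ∀ d ∈ ({a, b} : Finset V)ᶜ, 0 ≤ L c d)
    (nF : ∀ c ∈ ({a, b} : Finset V)ᶜ, ∀ d ∈ ({a, b} : Finset V)ᶜ, 0 ≤ Lf c d)
    (B : ∀ t ∈ Icc (0 : ℝ) 1, ci N t = i → ∀ s ∈ Icc 0 t, Act M sg ε i s j →
      RTj x P R a b m t s L Lf) :
    RTc x P R N M sg ε m i j a b (pz x P b L) (pz x P b Lf) where
  nL := fun c hc d hd => pz_nonneg (nL c hc d hd)
  nF := fun c hc d hd => pz_nonneg (nF c hc d hd)
  pd := fun _ _ _ _ hd hbd => ⟨pz_zero hd hbd, pz_zero hd hbd⟩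
  B := fun t ht hi s hs hj => by
    have h := B t ht hi s hs hj
    exact
      { cl := fun d hd hP => (Finset.sum_le_sum fun c hc =>
          pz_le (nL c (mem_reE hc).1 d hd)).trans (h.cl d hd hP)
        cf := fun d hd hP => (Finset.sum_le_sum fun c hc =>
          pz_le (nF c (mem_reE hc).1 d hd)).trans (h.cf d hd hP)
        rl := fun c hc hP => (Finset.sum_le_sum fun d hd =>
          pz_le (nL c hc d (mem_reE hd).1)).trans (h.rl c hc hP)
        rf := fun c hc hP => (Finset.sum_le_sum fun d hd =>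
          pz_le (nF c hc d (mem_reE hd).1)).trans (h.rf c hc hP)
        el := fun c hc d hd hcd hPc hPd =>
          (pz_le (nL c hc d hd)).trans (h.el c hc d hd hcd hPc hPd)
        ef := fun c hc d hd hcd hPc hPd =>
          (pz_le (nF c hc d hd)).trans (h.ef c hc d hd hcd hPc hPd) }

end pend

/-! ### the constants of a world -/

section sol

end sol

/-! ### sums by parts -/

section parts

end parts

/-! ### sums from the bundled data -/

section top

end top

end Pool.Agent.RZ.RCO
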