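import Pool.Agent.RZ.RCO.Gl5_1
import Pool.Agent.RZ.RCO.Hf3

/-! Functions of a vertex and a world bounded by functions of the point: neighbour sums and the pair
operator (MP_73ccd0_lc). -/

namespace Pool.Agent.RZ.RCO

open Set Finset Pool.Agent.RZ.RCM

set_option linter.unusedSectionVars false

variable {V : Type*} [Fintype V] [DecidableEq V]

/-! ### worlds -/

/-- a saturated point -/
def Sa (p : Pt) : Prop := ∃ y a b : ℝ, p.Sat y a b

variable {x : V → V → ℝ} {D F G : Finset V} {v i e : V} {P : V → Prop}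

/-- **the points of the worlds with an index are saturated** -/
theorem wd_sat (hP : RCG.Ct.Wt x P 1) (hx : Wt x) (hD : D.card ≤ 2) (o : Option V)
    (he : e ∈ Dᶜ) (hPe : P e) (F : Finset V) : Sa (pt x D (wd D o e F) e) :=
  sat_wd hP hx hD he hPe o F

/-! ### functions of the vertex and the world -/

/-- **the function `φ` of the vertex and the world is bounded by the function `Φ` of the point**, full
or without one neighbour, and by `c` times the mass at the pendant vertices -/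
structure FB (x : V → V → ℝ) (P : V → Prop) (D : Finset V) (φ : V → Finset V → ℝ) (Φ : Pt → ℝ)
    (c : ℝ) : Prop where
  c0 : 0 ≤ c
  nn : ∀ v ∈ Dᶜ, ∀ G ⊆ Dᶜ, v ∉ G → 0 ≤ φ v G
  fu : ∀ v ∈ Dᶜ, P v → ∀ G ⊆ Dᶜ, v ∉ G → φ v G ≤ Φ (fp x D v)
  ex : ∀ v ∈ Dᶜ, P v → ∀ G ⊆ Dᶜ, v ∉ G → ∀ i ∈ Dᶜ, i ∉ G → i ≠ v →
    φ v G ≤ Φ (pt x D (wo D i v) v)
  pe : ∀ v ∈ Dᶜ, ¬P v → ∀ G ⊆ Dᶜ, v ∉ G → φ v G ≤ c * fm x G v

variable {φ φ' : V → Finset V → ℝ} {Φ Φ' : Pt → ℝ} {c c' : ℝ}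

theorem FB.mono (h : FB x P D φ Φ c) (hl : ∀ p, Sa p → Φ p ≤ Φ' p) (hP : RCG.Ct.Wt x P 1)
    (hx : Wt x) (hD : D.card ≤ 2) (hc : c ≤ c') : FB x P D φ Φ' c' where
  c0 := h.c0.trans hc
  nn := h.nn
  fu := fun v hv hPv G hG hvG => (h.fu v hv hPv G hG hvG).trans
    (hl _ ⟨0, 0, 0, sat_fp hP hx hD hv hPv⟩)
  ex := fun v hv hPv G hG hvG i hi hiG hiv =>
    (h.ex v hv hPv G hG hvG i hi hiG hiv).trans (hl _ ⟨_, _, _, pt_sat hP hx hD hv hi hiv hPv⟩)
  pe := fun v hv hPv G hG hvG => (h.pe v hv hPv G hG hvG).trans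
    (mul_le_mul_of_nonneg_right hc (fm_nonneg hx.nn G v))

theorem FB.add (h : FB x P D φ Φ c) (h' : FB x P D φ' Φ' c') :
    FB x P D (fun v G => φ v G + φ' v G) (fun p => Φ p + Φ' p) (c + c') where
  c0 := add_nonneg h.c0 h'.c0
  nn := fun v hv G hG hvG => add_nonneg (h.nn v hv G hG hvG) (h'.nn v hv G hG hvG)
  fu := fun v hv hPv G hG hvG =>
    add_le_add (h.fu v hv hPv G hG hvG) (h'.fu v hv hPv G hG hvG)
  ex := fun v hv hPv G hG hvG i hi hiG hiv =>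
    add_le_add (h.ex v hv hPv G hG hvG i hi hiG hiv) (h'.ex v hv hPv G hG hvG i hi hiG hiv)
  pe := fun v hv hPv G hG hvG => by
    rw [add_mul]
    exact add_le_add (h.pe v hv hPv G hG hvG) (h'.pe v hv hPv G hG hvG)

theorem FB.smul (h : FB x P D φ Φ c) {a : ℝ} (a0 : 0 ≤ a) :
    FB x P D (fun v G => a * φ v G) (fun p => a * Φ p) (a * c) where
  c0 := mul_nonneg a0 h.c0
  nn := fun v hv G hG hvG => mul_nonneg a0 (h.nn v hv G hG hvG)
  fu := fun v hv hPv G hG hvG => mul_le_mul_of_nonneg_left (h.fu v hv hPv G hG hvG) a0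
  ex := fun v hv hPv G hG hvG i hi hiG hiv =>
    mul_le_mul_of_nonneg_left (h.ex v hv hPv G hG hvG i hi hiG hiv) a0
  pe := fun v hv hPv G hG hvG => by
    rw [mul_assoc]
    exact mul_le_mul_of_nonneg_left (h.pe v hv hPv G hG hvG) a0

theorem FB.zero (x : V → V → ℝ) (P : V → Prop) (D : Finset V) :
    FB x P D (fun _ _ => 0) (fun _ => 0) 0 where
  c0 := le_rfl
  nn := fun _ _ _ _ _ => le_rfl
  fu := fun _ _ _ _ _ _ => le_rfl
  ex := fun _ _ _ _ _ _ _ _ _ _ => le_rfl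
  pe := fun _ _ _ _ _ _ => by rw [zero_mul]

/-- the value in a world with an index -/
theorem FB.wd (h : FB x P D φ Φ c) (o : Option V) (he : e ∈ Dᶜ) (hPe : P e) (hF : F ⊆ Dᶜ)
    (heF : e ∉ F) : φ e F ≤ Φ (pt x D (wd D o e F) e) := by
  rcases o with _ | i
  · exact h.fu e he hPe F hF heF
  · show φ e F ≤ Φ (pt x D (if i ∈ F then Dᶜ.erase e else wo D i e) e)
    split_ifs with hi
    · exact h.fu e he hPe F hF heF
    · by_cases hiD : i ∈ Dᶜ
      · by_cases hie : i = e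
        · rw [hie, wo, Finset.erase_idem]
          exact h.fu e he hPe F hF heF
        · exact h.ex e he hPe F hF heF i hiD hi hie
      · rw [wo, Finset.erase_eq_of_notMem hiD]
        exact h.fu e he hPe F hF heF

/-- the bounding function is nonnegative at the full point -/
theorem FB.nf (h : FB x P D φ Φ c) (hv : v ∈ Dᶜ) (hPv : P v) : 0 ≤ Φ (fp x D v) :=
  (h.nn v hv ∅ (Finset.empty_subset _) (Finset.notMem_empty _)).trans
    (h.fu v hv hPv ∅ (Finset.empty_subset _) (Finset.notMem_empty _))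

/-- the bounding function is nonnegative without one neighbour -/
theorem FB.nw (h : FB x P D φ Φ c) (hv : v ∈ Dᶜ) (hPv : P v) (hi : i ∈ Dᶜ) (hiv : i ≠ v) :
    0 ≤ Φ (pt x D (wo D i v) v) :=
  (h.nn v hv ∅ (Finset.empty_subset _) (Finset.notMem_empty _)).trans
    (h.ex v hv hPv ∅ (Finset.empty_subset _) (Finset.notMem_empty _) i hi
      (Finset.notMem_empty _) hiv)

/-! ### edge lines with functions of the weight -/

/-- **an edge line** at a vertex with the killed mass `a` and the full average `b`, for functions of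
the weight and the point -/
structure EG (a b : ℝ) (G Gp : ℝ → Pt → ℝ) (c : Ec) : Prop where
  c6 : 0 ≤ c.c6
  c7 : 0 ≤ c.c7
  l : ∀ (q : Pt) (x : ℝ), q.Sat x a b → x * G x q ≤ ev c x q.k q.H
  p : ∀ (q : Pt) (x : ℝ), q.Pend x a b → x * Gp x q ≤ ev c x q.k q.H

theorem EL.g {a b : ℝ} {R : ℝ → ℝ} {Rp : ℝ} {G Gp : Pt → ℝ} {c : Ec}
    (h : EL a b R Rp G Gp c) : EG a b (fun x q => R x * G q) (fun _ q => Rp * Gp q) c :=
  ⟨h.c6, h.c7, fun q x hq => by
    have := h.l q x hq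
    linarith, fun q x hq => by
    have := h.p q x hq
    linarith⟩

/-- the line of a pendant vertex -/
def OLg (G : ℝ → Pt → ℝ) (c : ℝ) : Prop :=
  ∀ (p : Pt) (x : ℝ), p.Sat x 0 (x * p.k) → G x p ≤ c

theorem OLx.g {Rp : ℝ} {G : ℝ → Pt → ℝ} {c : ℝ} (h : OLx Rp G c) :
    OLg (fun x p => Rp * G x p) c := h

/-- **the edge sum at a real vertex** -/
theorem EG.sum (hP : RCG.Ct.Wt x P 1) (hx : Wt x) (hD : D.card ≤ 2) {Gf Gp : ℝ → Pt → ℝ}
    {c : Ec} (hE : EG (kk x D i) (hk x D i) Gf Gp c) (hFG : F ⊆ G) (hG : G ⊆ Dᶜ) (hi : i ∈ Dᶜ)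
    (hiG : i ∉ G) {t : V → ℝ}
    (tl : ∀ b ∈ F, P b → t b ≤ x i b * Gf (x i b) (pt x D (wo D i b) b))
    (tp : ∀ b ∈ F, ¬P b → t b ≤ x i b * Gp (x i b) (pt x D (wo D i b) b))
    (nl : ∀ b ∈ G, P b → 0 ≤ x i b * Gf (x i b) (pt x D (wo D i b) b))
    (np : ∀ b ∈ G, ¬P b → 0 ≤ x i b * Gp (x i b) (pt x D (wo D i b) b)) :
    ∑ b ∈ F, t b ≤ sv c (pt x D G i) := by
  classical
  let u : V → ℝ := fun b => if P b then x i b * Gf (x i b) (pt x D (wo D i b) b)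
    else x i b * Gp (x i b) (pt x D (wo D i b) b)
  have h1 : ∑ b ∈ F, t b ≤ ∑ b ∈ G, u b := by
    refine (Finset.sum_le_sum (g := u) fun b hb => ?_).trans
      (Finset.sum_le_sum_of_subset_of_nonneg hFG fun b hb _ => ?_)
    · by_cases hPb : P b
      · simp only [u, if_pos hPb]; exact tl b hb hPb
      · simp only [u, if_neg hPb]; exact tp b hb hPb
    · by_cases hPb : P b
      · simp only [u, if_pos hPb]; exact nl b hb hPb
      · simp only [u, if_neg hPb]; exact np b hb hPb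
  refine h1.trans (esum hx hD hG hi hiG hE.c6 hE.c7 fun b mb => ?_)
  have hbD := hG mb
  have hib : i ≠ b := fun h => hiG (h ▸ mb)
  by_cases hPb : P b
  · simp only [u, if_pos hPb]
    have h2 := hE.l _ _ (pt_sat hP hx hD hbD hi hib hPb)
    have e : (pt x D (wo D i b) b).H = hk x D b := hk_eq hx D b
    rw [e] at h2
    exact h2
  · simp only [u, if_neg hPb]
    by_cases h0 : x i b = 0
    · have h3 := mul_nonneg hE.c6 (kk_nonneg hx D b)
      have h4 := mul_nonneg hE.c7 (hk_nonneg hx D b)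
      unfold ev
      rw [h0, zero_mul, zero_mul]
      linarith
    · have h2 := hE.p _ _ (pt_pend (F := wo D i b) hP hx hi
        (fun h => Finset.notMem_erase i _ (Finset.mem_of_mem_erase h)) hPb h0 hib hbD)
      have e : (pt x D (wo D i b) b).H = hk x D b := hk_eq hx D b
      rw [e] at h2
      exact h2

/-- **the edge sum at a pendant vertex** -/
theorem OLg.sum (hP : RCG.Ct.Wt x P 1) (hx : Wt x) (hD : D.card ≤ 2) {Gf : ℝ → Pt → ℝ} {c : ℝ}
    (hE : OLg Gf c) (hF : F ⊆ Dᶜ) (hi : i ∈ Dᶜ) (hiF : i ∉ F) (hPi : ¬P i) {t : V → ℝ}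
    (t0 : ∀ b ∈ F, x i b = 0 → t b ≤ 0)
    (tl : ∀ b ∈ F, P b → x i b ≠ 0 → t b ≤ x i b * Gf (x i b) (pt x D (wo D i b) b)) :
    ∑ b ∈ F, t b ≤ c * fm x F i := by
  unfold fm
  rw [Finset.mul_sum]
  refine Finset.sum_le_sum fun b mb => ?_
  have hbD := hF mb
  have hib : i ≠ b := fun h => hiF (h ▸ mb)
  by_cases h0 : x i b = 0
  · rw [h0, mul_zero]
    exact t0 b mb h0
  · have hPb : P b := hP.pend b i hPi (by rwa [hx.symm b i])
    have h2 := hE _ _ (pt_satp hP hx hD hbD hi hib hPb hPi h0)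
    have h4 := mul_le_mul_of_nonneg_left h2 (hx.nn i b)
    rw [mul_comm c]
    exact (tl b mb hPb h0).trans h4

/-! ### the removal rates -/

/-- the bounds of the removal rates of a world at one time -/
structure TBd (x : V → V → ℝ) (P : V → Prop) (D : Finset V) (hb T : V → V → ℝ)
    (W : Pt → ℝ) (Wp : ℝ → ℝ) : Prop where
  W0 : ∀ v ∈ Dᶜ, 0 ≤ vo x P D W Wp v
  T0 : ∀ u w, 0 ≤ T u w
  Td : ∀ u, T u u = 0
  Ts : ∀ u w, T u w = T w u
  hT : ∀ u ∈ Dᶜ, ∀ w ∈ Dᶜ, T u w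
    ≤ hb u w * (vo x P D W Wp u * vo x P D W Wp w)

theorem WBd.tb {hb T A B : V → V → ℝ} {W : Pt → ℝ} {Wp : ℝ → ℝ} {Nr : Pt → ℝ} {Np : ℝ → ℝ}
    (h : WBd x P D hb T A B W Wp Nr Np) : TBd x P D hb T W Wp :=
  ⟨fun v hv => zero_le_one.trans (h.W1 v hv), h.T0, h.Td, h.Ts, h.hT⟩

section sums

variable {hb T : V → V → ℝ} {R : ℝ → ℝ} {Rp : ℝ} {W : Pt → ℝ} {Wp : ℝ → ℝ} {cE cD cH cW : Ec}

/-- the weights of the pairs without an edge vanish -/
theorem Krn.z {K : V → V → ℝ} {RK : ℝ → ℝ} {RKp : ℝ} (kr : Krn x P K RK RKp) {u w : V}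
    (h : x u w = 0) : K u w = 0 := by
  refine le_antisymm ?_ (kr.b0 u w)
  by_cases hP : P u ∧ P w
  · have := kr.l u w hP.1 hP.2
    rwa [h, zero_mul] at this
  · have := kr.p u w hP
    rwa [h, zero_mul] at this

theorem TBd.z (tb : TBd x P D hb T W Wp) (kr : Krn x P hb R Rp) {u w : V} (hu : u ∈ Dᶜ)
    (hw : w ∈ Dᶜ) (h : x u w = 0) : T u w = 0 := by
  refine le_antisymm ?_ (tb.T0 u w)
  have := tb.hT u hu w hw
  rwa [kr.z h, zero_mul] at this

/-- a product of a kernel with a factor, at a real pair -/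
theorem Krn.mul_l {K : V → V → ℝ} {RK : ℝ → ℝ} {RKp : ℝ} (kr : Krn x P K RK RKp) {u w : V}
    (hu : P u) (hw : P w) {g g' : ℝ} (hg : g ≤ g') (g0 : 0 ≤ g) :
    K u w * g ≤ x u w * (RK (x u w) * g') := by
  rw [← mul_assoc]
  exact mul_le_mul (kr.l u w hu hw) hg g0 ((kr.b0 u w).trans (kr.l u w hu hw))

theorem Krn.mul_p {K : V → V → ℝ} {RK : ℝ → ℝ} {RKp : ℝ} (kr : Krn x P K RK RKp) {u w : V}
    (h : ¬(P u ∧ P w)) {g g' : ℝ} (hg : g ≤ g') (g0 : 0 ≤ g) :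
    K u w * g ≤ x u w * (RKp * g') := by
  rw [← mul_assoc]
  exact mul_le_mul (kr.p u w h) hg g0 ((kr.b0 u w).trans (kr.p u w h))

/-- **the kernel sum over the neighbours at a real vertex** -/
theorem FB.ksum_l (hP : RCG.Ct.Wt x P 1) (hx : Wt x) (hD : D.card ≤ 2) {K : V → V → ℝ}
    {RK : ℝ → ℝ} {RKp : ℝ} (kr : Krn x P K RK RKp) {Gf Gp : Pt → ℝ}
    (hE : EL (kk x D i) (hk x D i) RK RKp Gf Gp cE) (hFG : F ⊆ G) (hG : G ⊆ Dᶜ) (hi : i ∈ Dᶜ)
    (hiG : i ∉ G) (hPi : P i) {g : V → ℝ} (g0 : ∀ b ∈ F, 0 ≤ g b)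
    (gl : ∀ b ∈ F, P b → g b ≤ Gf (pt x D (wo D i b) b))
    (gp : ∀ b ∈ F, ¬P b → x i b ≠ 0 → g b ≤ Gp (pt x D (wo D i b) b))
    (nl : ∀ b ∈ G, P b → 0 ≤ Gf (pt x D (wo D i b) b))
    (np : ∀ b ∈ G, ¬P b → x i b ≠ 0 → 0 ≤ Gp (pt x D (wo D i b) b)) :
    ∑ b ∈ F, K i b * g b ≤ sv cE (pt x D G i) := by
  refine hE.g.sum hP hx hD hFG hG hi hiG (fun b hb hPb => ?_) (fun b hb hPb => ?_)
    (fun b hb hPb => ?_) fun b hb hPb => ?_
  · exact kr.mul_l hPi hPb (gl b hb hPb) (g0 b hb)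
  · by_cases h0 : x i b = 0
    · rw [kr.z h0, h0, zero_mul, zero_mul]
    · exact kr.mul_p (fun h => hPb h.2) (gp b hb hPb h0) (g0 b hb)
  · rw [← mul_assoc]
    exact mul_nonneg ((kr.b0 i b).trans (kr.l i b hPi hPb)) (nl b hb hPb)
  · by_cases h0 : x i b = 0
    · rw [h0, zero_mul]
    · rw [← mul_assoc]
      exact mul_nonneg ((kr.b0 i b).trans (kr.p i b fun h => hPb h.2)) (np b hb hPb h0)

/-- **the kernel sum over the neighbours at a pendant vertex** -/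
theorem ksum_o (hP : RCG.Ct.Wt x P 1) (hx : Wt x) (hD : D.card ≤ 2) {K : V → V → ℝ}
    {RK : ℝ → ℝ} {RKp : ℝ} (kr : Krn x P K RK RKp) {Gf : ℝ → Pt → ℝ} {d : ℝ}
    (hE : OLx RKp Gf d) (hF : F ⊆ Dᶜ) (hi : i ∈ Dᶜ) (hiF : i ∉ F) (hPi : ¬P i) {g : V → ℝ}
    (g0 : ∀ b ∈ F, 0 ≤ g b)
    (gl : ∀ b ∈ F, P b → x i b ≠ 0 → g b ≤ Gf (x i b) (pt x D (wo D i b) b)) :
    ∑ b ∈ F, K i b * g b ≤ d * fm x F i :=
  hE.g.sum hP hx hD hF hi hiF hPi (fun b _ h0 => by rw [kr.z h0, zero_mul]) fun b hb hPb h0 =>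
    kr.mul_p (fun h => hPi h.1) (gl b hb hPb h0) (g0 b hb)

variable (hP : RCG.Ct.Wt x P 1) (hx : Wt x) (hD : D.card ≤ 2) (kr : Krn x P hb R Rp)
  (tb : TBd x P D hb T W Wp)

include hP hx hD kr tb

/-- **the removal sum over the neighbours at a real vertex** -/
theorem FB.tsum_l (hφ : FB x P D φ Φ c)
    (hE : EL (kk x D i) (hk x D i) R Rp (fun q => W (fp x D i) * W q.full * Φ q) (fun _ => 0) cE)
    (hFG : F ⊆ G) (hG : G ⊆ Dᶜ) (hi : i ∈ Dᶜ) (hiG : i ∉ G) (hPi : P i) :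
    ∑ b ∈ F, T i b * φ b (F.erase b) ≤ sv cE (pt x D G i) := by
  have hF := hFG.trans hG
  have hiF : i ∉ F := fun h => hiG (hFG h)
  have e1 : vo x P D W Wp i = W (fp x D i) := vo_l hPi
  have nn : ∀ b ∈ F, 0 ≤ φ b (F.erase b) := fun b hb =>
    hφ.nn b (hF hb) _ ((Finset.erase_subset _ _).trans hF) (Finset.notMem_erase _ _)
  have h1 : ∑ b ∈ F, T i b * φ b (F.erase b) ≤ ∑ b ∈ F, hb i b
      * (vo x P D W Wp i * vo x P D W Wp b
        * φ b (F.erase b)) := by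
    refine Finset.sum_le_sum fun b mb => ?_
    refine (mul_le_mul_of_nonneg_right (tb.hT i hi b (hF mb)) (nn b mb)).trans (le_of_eq ?_)
    ring
  refine h1.trans (FB.ksum_l hP hx hD kr hE hFG hG hi hiG hPi
    (fun b hb => mul_nonneg (mul_nonneg (tb.W0 i hi) (tb.W0 b (hF hb))) (nn b hb))
    (fun b hb hPb => ?_) (fun b hb hPb h0 => ?_) (fun b hb hPb => ?_) (fun b _ _ _ => le_rfl))
  · have hib : i ≠ b := fun h => hiF (h ▸ hb)
    have := hφ.ex b (hF hb) hPb (F.erase b) ((Finset.erase_subset _ _).trans hF)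
      (Finset.notMem_erase _ _) i hi (fun h => hiF (Finset.mem_of_mem_erase h)) hib
    have h3 := mul_le_mul_of_nonneg_left this (mul_nonneg (tb.W0 i hi) (tb.W0 b (hF hb)))
    have e2 : vo x P D W Wp b = W (pt x D (wo D i b) b).full := vo_l hPb
    rw [e1, e2] at h3
    simp only [e1, e2]
    exact h3
  · have h3 := hφ.pe b (hF hb) hPb (F.erase b) ((Finset.erase_subset _ _).trans hF)
      (Finset.notMem_erase _ _)
    rw [fm_pend0 hP hPb h0 (fun h => hiF (Finset.mem_of_mem_erase h)), mul_zero] at h3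
    exact mul_nonpos_of_nonneg_of_nonpos (mul_nonneg (tb.W0 i hi) (tb.W0 b (hF hb))) h3
  · have hib : i ≠ b := fun h => hiG (h ▸ hb)
    have h3 := mul_nonneg (tb.W0 i hi) (tb.W0 b (hG hb))
    have e2 : vo x P D W Wp b = W (pt x D (wo D i b) b).full := vo_l hPb
    rw [e1, e2] at h3
    exact mul_nonneg h3 (hφ.nw (hG hb) hPb hi hib)

/-- **the removal sum over the neighbours at a pendant vertex** -/
theorem FB.tsum_o (hφ : FB x P D φ Φ c) {d : ℝ}
    (hE : OLx Rp (fun x p => Wp x * W p.full * Φ p) d) (hF : F ⊆ Dᶜ) (hi : i ∈ Dᶜ) (hiF : i ∉ F)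
    (hPi : ¬P i) : ∑ b ∈ F, T i b * φ b (F.erase b) ≤ d * fm x F i := by
  have nn : ∀ b ∈ F, 0 ≤ φ b (F.erase b) := fun b hb =>
    hφ.nn b (hF hb) _ ((Finset.erase_subset _ _).trans hF) (Finset.notMem_erase _ _)
  have h1 : ∑ b ∈ F, T i b * φ b (F.erase b) ≤ ∑ b ∈ F, hb i b * (vo x P D W Wp i
      * vo x P D W Wp b * φ b (F.erase b)) := by
    refine Finset.sum_le_sum fun b mb => ?_
    refine (mul_le_mul_of_nonneg_right (tb.hT i hi b (hF mb)) (nn b mb)).trans (le_of_eq ?_)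
    ring
  refine h1.trans (ksum_o hP hx hD kr hE hF hi hiF hPi (fun b hb => mul_nonneg (mul_nonneg
    (tb.W0 i hi) (tb.W0 b (hF hb))) (nn b hb)) fun b hb hPb h0 => ?_)
  have hib : i ≠ b := fun h => hiF (h ▸ hb)
  have e1 : vo x P D W Wp i = Wp (x i b) := by
    rw [vo_p hPi, mas_pend hP (hF hb) hPi (by rwa [hx.symm b i]) (fun h => hib h.symm),
      hx.symm b i]
  have e2 : vo x P D W Wp b = W (pt x D (wo D i b) b).full := vo_l hPb
  have h3 := hφ.ex b (hF hb) hPb (F.erase b) ((Finset.erase_subset _ _).trans hF)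
    (Finset.notMem_erase _ _) i hi (fun h => hiF (Finset.mem_of_mem_erase h)) hib
  have h4 := mul_le_mul_of_nonneg_left h3 (mul_nonneg (tb.W0 i hi) (tb.W0 b (hF hb)))
  rw [e1, e2] at h4
  simp only [e1, e2]
  exact h4

/-- the pair operator as a sum over the neighbours of the position -/
theorem FB.kf_le (hφ : FB x P D φ Φ c) (hF : F ⊆ Dᶜ) (hv : v ∈ F) {g : V → ℝ}
    (g0 : ∀ y ∈ Dᶜ, 0 ≤ g y) {u : V → ℝ}
    (hu : ∀ y ∈ F.erase v, x v y ≠ 0 → φ v (F.erase v) + φ y ((F.erase v).erase y)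
      + (φ y (F.erase y) + φ v ((F.erase y).erase v)) ≤ 2 * u y)
    (u0 : ∀ y ∈ Dᶜ.erase v, x v y ≠ 0 → 0 ≤ u y) :
    ∑ j ∈ F.erase v, g j * T j v + KF T φ F v
      ≤ ∑ y ∈ Dᶜ.erase v, hb v y * (vo x P D W Wp v
        * vo x P D W Wp y * (g y + u y)) := by
  have hvD := hF hv
  have e0 : ∑ y ∈ F, T v y * (φ v (F.erase v) + φ y ((F.erase v).erase y)
      + (φ y (F.erase y) + φ v ((F.erase y).erase v)))
      = ∑ y ∈ F.erase v, T v y * (φ v (F.erase v) + φ y ((F.erase v).erase y)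
      + (φ y (F.erase y) + φ v ((F.erase y).erase v))) := by
    rw [← Finset.add_sum_erase _ _ hv, tb.Td v, zero_mul, zero_add]
  unfold KF
  rw [e0, Finset.mul_sum, ← Finset.sum_add_distrib]
  refine (Finset.sum_le_sum (g := fun y => hb v y * (vo x P D W Wp v
        * vo x P D W Wp y * (g y + u y))) fun y hy => ?_).trans
    (Finset.sum_le_sum_of_subset_of_nonneg (Finset.erase_subset_erase _ hF) fun y hy _ => ?_)
  · obtain ⟨hyv, hyF⟩ := Finset.mem_erase.1 hy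
    have hyD := hF hyF
    by_cases h0 : x v y = 0
    · rw [tb.Ts y v, tb.z kr hvD hyD h0, kr.z h0]
      simp
    · have h1 := hu y hy h0
      have h2 := mul_le_mul_of_nonneg_right (tb.hT v hvD y hyD) (add_nonneg (g0 y hyD)
        (u0 y (Finset.mem_erase.2 ⟨hyv, hyD⟩) h0))
      have h3 := mul_le_mul_of_nonneg_left h1 (tb.T0 v y)
      rw [tb.Ts y v]
      linarith
  · obtain ⟨hyv, hyD⟩ := Finset.mem_erase.1 hy
    by_cases h0 : x v y = 0
    · rw [kr.z h0, zero_mul]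
    · exact mul_nonneg (kr.b0 v y) (mul_nonneg (mul_nonneg (tb.W0 v hvD) (tb.W0 y hyD))
        (add_nonneg (g0 y hyD) (u0 y hy h0)))

end sums

end Pool.Agent.RZ.RCO
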