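import Pool.Agent.RZ.RCO.Fe3
import Pool.Agent.RZ.RCO.Gs1

/-! The bundles of level 1 from the data of a system over time (MP_73ccd0_lc). -/

namespace Pool.Agent.RZ.RCO

open Set Finset Pool.Agent.RZ.RCM

set_option linter.unusedSectionVars false

variable {V : Type*} [Fintype V] [DecidableEq V]

/-! ### end values -/

/-- the end values with the rows of the position weights -/
structure EndV {M : Type*} [Fintype M] (x : V → V → ℝ) (P : V → Prop) (D : Finset V)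
    (w1 : M → Pt → ℝ) (Fe Ge : Finset V → V → V → ℝ) (νf δf : M → V → Finset V → ℝ)
    (ν δ : M → Pt → ℝ) (Cν Cδ : M → ℝ) : Prop where
  hG : RowE Dᶜ (fun m _ j => w1 m (fp x D j)) νf Ge
  hF : RowE Dᶜ (fun m _ j => w1 m (fp x D j)) δf Fe
  fν : ∀ m, FB x P D (νf m) (ν m) (Cν m)
  fδ : ∀ m, FB x P D (δf m) (δ m) (Cδ m)

/-- the target sums with the weight one of an end value -/
theorem RowE.one {M : Type*} [Fintype M] {x : V → V → ℝ} {D : Finset V}
    {w1 : M → Pt → ℝ} {νf : M → V → Finset V → ℝ} {Ge : Finset V → V → V → ℝ}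
    (h : RowE Dᶜ (fun m _ j => w1 m (fp x D j)) νf Ge) {m0 : M} (hm0 : ∀ p, w1 m0 p = 1)
    (e : V) (he : e ∈ Dᶜ) (F : Finset V) (hF : F ⊆ Dᶜ) (heF : e ∉ F) :
    ∑ c ∈ F, Ge (F.erase c) c e ≤ νf m0 e F := by
  refine le_trans (le_of_eq (Finset.sum_congr rfl fun c _ => ?_)) (h.row m0 e he F hF heF)
  show _ = w1 m0 (fp x D c) * _
  rw [hm0, one_mul, h.gs]

/-! ### the bundle -/

section ok

open Pool.Agent.RZ.RCRSHalf Pool.Agent.RZ.RCG Pool.Agent.RZ.RCG.Ct Pool.Agent.RZ.RCN Pool.Agent.RZ.RCN.K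

end ok

end Pool.Agent.RZ.RCO
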