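import Pool.Agent.RZ.RCO.Gl3
import Pool.Agent.RZ.RCO.Hf3

/-! The row bounds of level 1/2 at one time from the checks (MP_73ccd0_lc). -/

namespace Pool.Agent.RZ.RCO

open Set Finset Pool.Agent.RZ.RCM

set_option linter.unusedSectionVars false

variable {V : Type*} [Fintype V] [DecidableEq V]
variable {x : V → V → ℝ} {D F E : Finset V} {v i : V} {P : V → Prop}
  {hb T A B : V → V → ℝ} {R : ℝ → ℝ} {Rp : ℝ} {W : Pt → ℝ} {Wp : ℝ → ℝ} {Nr : Pt → ℝ} {Np : ℝ → ℝ}
  {Λ : Type*} [Fintype Λ] {wv : Λ → Pt → ℝ} {Φ Φ' Ψ : Bool → Λ → Pt → ℝ}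
  {C C' Cψ : Bool → Λ → ℝ} {Gp Gm : Λ → Λ → ℝ}

/-- the values at a neighbour are nonnegative -/
theorem PsB.f0 {Ψ : Pt → ℝ} {c : ℝ} {ψ : V → Finset V → ℝ} (h : PsB x P D Ψ c ψ) {b : V}
    (hb : b ∈ Dᶜ) : 0 ≤ vf x P D Ψ c b (Dᶜ.erase b) :=
  (h.nn b hb ∅ (Finset.empty_subset _) (Finset.notMem_empty b)).trans
    (h.fu b hb ∅ (Finset.empty_subset _) (Finset.notMem_empty b))

theorem PsB.w0 {Ψ : Pt → ℝ} {c : ℝ} {ψ : V → Finset V → ℝ} (h : PsB x P D Ψ c ψ) {b : V}
    (hb : b ∈ Dᶜ) (hi : i ∈ Dᶜ) (hib : i ≠ b) : 0 ≤ vf x P D Ψ c b (wo D i b) :=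
  (h.nn b hb ∅ (Finset.empty_subset _) (Finset.notMem_empty b)).trans
    (h.ex b hb ∅ (Finset.empty_subset _) (Finset.notMem_empty b) i hi (Finset.notMem_empty i) hib)

/-- a sum over the neighbours of a pendant vertex -/
theorem pend_le (hP : RCG.Ct.Wt x P 1) (kr : Krn x P hb R Rp) (hPv : ¬P v) {g : V → ℝ}
    (g0 : ∀ y ∈ Dᶜ, y ≠ v → 0 ≤ g y) {Bd : ℝ} (B0 : 0 ≤ Bd)
    (h : ∀ y ∈ Dᶜ, y ≠ v → P y → x v y ≠ 0 → x v y * Rp * g y ≤ Bd) :
    ∑ y ∈ Dᶜ.erase v, hb v y * g y ≤ Bd := by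
  have hz : ∀ y, x v y = 0 → hb v y = 0 := fun y h0 => by
    have := kr.p v y fun h => hPv h.1
    rw [h0, zero_mul] at this
    exact le_antisymm this (kr.b0 v y)
  by_cases he : ∃ y ∈ Dᶜ.erase v, x v y ≠ 0
  · obtain ⟨y, hy, h0⟩ := he
    obtain ⟨hyv, hyD⟩ := Finset.mem_erase.1 hy
    have hPy : P y := hP.pend y v hPv (by rwa [hP.symm y v])
    have h1 : ∀ z ∈ Dᶜ.erase v, z ≠ y → hb v z * g z = 0 := fun z _ hzy => by
      rw [hz z, zero_mul]
      exact pend_eq hP (i := y) (b := v) hPv (by rwa [hP.symm y v]) hzy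
    rw [Finset.sum_eq_single_of_mem y hy h1]
    exact (mul_le_mul_of_nonneg_right (kr.p v y fun h => hPv h.1) (g0 y hyD hyv)).trans
      (h y hyD hyv hPy h0)
  · rw [Finset.sum_eq_zero]
    · exact B0
    · intro y hy
      rw [hz y, zero_mul]
      by_contra h0
      exact he ⟨y, hy, h0⟩

/-- **the pair operator at a position** -/
theorem kf_le2 {om : V → ℝ} {ψ : V → Finset V → ℝ} {f : V → ℝ} {g : V → V → ℝ}
    (nn : ∀ b ∈ Dᶜ, ∀ G ⊆ Dᶜ, b ∉ G → 0 ≤ ψ b G)
    (fu : ∀ b ∈ Dᶜ, ∀ G ⊆ Dᶜ, b ∉ G → ψ b G ≤ f b)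
    (hwo : ∀ b ∈ Dᶜ, ∀ G ⊆ Dᶜ, b ∉ G → ∀ i ∈ Dᶜ, i ∉ G → i ≠ b → ψ b G ≤ g i b)
    (o0 : ∀ y ∈ Dᶜ, 0 ≤ om y) (b0 : ∀ u w, 0 ≤ hb u w)
    (hT : ∀ u ∈ Dᶜ, ∀ w ∈ Dᶜ, T u w ≤ hb u w * (om u * om w)) (Td : ∀ u, T u u = 0)
    (hF : F ⊆ Dᶜ) (hv : v ∈ F) :
    KF T ψ F v ≤ ∑ y ∈ Dᶜ.erase v, hb v y * (om v * om y * (f v + (g v y + f y) / 2)) := by
  have hvD := hF hv
  have em : ∀ b : V, (∅ : Finset V) ⊆ Dᶜ ∧ b ∉ (∅ : Finset V) := fun b =>
    ⟨Finset.empty_subset _, Finset.notMem_empty b⟩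
  have f0 : ∀ b ∈ Dᶜ, 0 ≤ f b := fun b hb =>
    (nn b hb ∅ (em b).1 (em b).2).trans (fu b hb ∅ (em b).1 (em b).2)
  have g0 : ∀ b ∈ Dᶜ, b ≠ v → 0 ≤ g v b := fun b hb hbv =>
    (nn b hb ∅ (em b).1 (em b).2).trans (hwo b hb ∅ (em b).1 (em b).2 v hvD (em v).2
      fun h => hbv h.symm)
  have key : ∀ y ∈ F.erase v, T v y * (ψ v (F.erase v) + ψ y ((F.erase v).erase y)
      + (ψ y (F.erase y) + ψ v ((F.erase y).erase v)))
      ≤ 2 * (hb v y * (om v * om y * (f v + (g v y + f y) / 2))) := by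
    intro y hy
    obtain ⟨hyv, hyF⟩ := Finset.mem_erase.1 hy
    have hyD := hF hyF
    have s1 : F.erase v ⊆ Dᶜ := (Finset.erase_subset _ _).trans hF
    have s2 : (F.erase v).erase y ⊆ Dᶜ := (Finset.erase_subset _ _).trans s1
    have s3 : F.erase y ⊆ Dᶜ := (Finset.erase_subset _ _).trans hF
    have s4 : (F.erase y).erase v ⊆ Dᶜ := (Finset.erase_subset _ _).trans s3
    have e1 := fu v hvD _ s1 (Finset.notMem_erase _ _)
    have e2 := hwo y hyD _ s2 (Finset.notMem_erase _ _) v hvD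
      (fun h => Finset.notMem_erase v F (Finset.mem_of_mem_erase h)) (fun h => hyv h.symm)
    have e3 := fu y hyD _ s3 (Finset.notMem_erase _ _)
    have e4 := fu v hvD _ s4 (Finset.notMem_erase _ _)
    have n1 := nn v hvD _ s1 (Finset.notMem_erase _ _)
    have n2 := nn y hyD _ s2 (Finset.notMem_erase _ _)
    have n3 := nn y hyD _ s3 (Finset.notMem_erase _ _)
    have n4 := nn v hvD _ s4 (Finset.notMem_erase _ _)
    have t2 : 0 ≤ hb v y * (om v * om y) :=
      mul_nonneg (b0 v y) (mul_nonneg (o0 v hvD) (o0 y hyD))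
    refine (mul_le_mul_of_nonneg_right (hT v hvD y hyD) (by linarith)).trans ?_
    refine (mul_le_mul_of_nonneg_left (by linarith : _ ≤ 2 * f v + (g v y + f y)) t2).trans
      (le_of_eq ?_)
    ring
  have e0 : ∑ y ∈ F, T v y * (ψ v (F.erase v) + ψ y ((F.erase v).erase y)
      + (ψ y (F.erase y) + ψ v ((F.erase y).erase v)))
      = ∑ y ∈ F.erase v, T v y * (ψ v (F.erase v) + ψ y ((F.erase v).erase y)
      + (ψ y (F.erase y) + ψ v ((F.erase y).erase v))) := by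
    rw [← Finset.add_sum_erase _ _ hv, Td v, zero_mul, zero_add]
  unfold KF
  rw [e0]
  have h1 := Finset.sum_le_sum key
  have h2 : ∑ y ∈ F.erase v, 2 * (hb v y * (om v * om y * (f v + (g v y + f y) / 2)))
      ≤ ∑ y ∈ Dᶜ.erase v, 2 * (hb v y * (om v * om y * (f v + (g v y + f y) / 2))) := by
    refine Finset.sum_le_sum_of_subset_of_nonneg (Finset.erase_subset_erase _ hF)
      fun y hy _ => ?_
    obtain ⟨hyv, hyD⟩ := Finset.mem_erase.1 hy
    exact mul_nonneg (by norm_num) (mul_nonneg (b0 v y) (mul_nonneg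
      (mul_nonneg (o0 v hvD) (o0 y hyD)) (by linarith [f0 v hvD, f0 y hyD, g0 y hyD hyv])))
  have h3 := h1.trans h2
  rw [← Finset.mul_sum] at h3
  linarith

section main

variable (hP : RCG.Ct.Wt x P 1) (hx : Wt x) (hD : D.card ≤ 2) (kr : Krn x P hb R Rp)
  (wb : WBd x P D hb T A B W Wp Nr Np)
  (hc : C12 R Rp W Wp Nr Np wv Φ Φ' Ψ C C' Cψ Gp Gm)
  {ψ : Bool → Λ → V → Finset V → ℝ} (hψ : ∀ s l, PsB x P D (Ψ s l) (Cψ s l) (ψ s l))
  (w0 : ∀ l, ∀ v ∈ Dᶜ, 0 ≤ wv l (fp x D v))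

include hP hx hD kr wb hc hψ w0

/-- **the rows of the growing pairs**; `E` the world of the row function -/
theorem c12_sp (l : Λ) (hFE : F ⊆ E) (hE : E ⊆ Dᶜ) (hi : i ∈ Dᶜ) (hiE : i ∉ E)
    (hs : P i → ∃ y a b, (pt x D E i).Sat y a b) :
    ∑ j ∈ F, wv l (fp x D j) * A i j + ∑ b ∈ F, T i b * ψ false l b (F.erase b)
      + ∑ m, (Gp l m * vf x P D (Φ true m) (C true m) i E
        + Gm l m * vf x P D (Φ false m) (C false m) i E)
      ≤ -vf x P D (Φ' true l) (C' true l) i E := by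
  have o1 : ∀ v ∈ Dᶜ, 1 ≤ vo x P D W Wp v := wb.W1
  have o0 : ∀ v ∈ Dᶜ, 0 ≤ vo x P D W Wp v := fun v hv =>
    zero_le_one.trans (wb.W1 v hv)
  have hF := hFE.trans hE
  have hiF : i ∉ F := fun h => hiE (hFE h)
  -- the function summed over the neighbours
  have g0 : ∀ b ∈ E, 0 ≤ wv l (fp x D b) * (vo x P D W Wp i
      * vo x P D W Wp b - 1) + vo x P D W Wp i
      * vo x P D W Wp b * vf x P D (Ψ false l) (Cψ false l) b (wo D i b) := by
    intro b mb
    have hib : i ≠ b := fun h => hiE (h ▸ mb)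
    have b1 := o1 i hi
    have b2 := o1 b (hE mb)
    have b3 : 0 ≤ vo x P D W Wp i * vo x P D W Wp b - 1 := by
      nlinarith
    have b4 := mul_nonneg (w0 l b (hE mb)) b3
    have b5 := mul_nonneg (mul_nonneg (zero_le_one.trans b1) (zero_le_one.trans b2))
      ((hψ false l).w0 (hE mb) hi hib)
    linarith
  have h1 : ∑ j ∈ F, wv l (fp x D j) * A i j + ∑ b ∈ F, T i b * ψ false l b (F.erase b)
      ≤ ∑ b ∈ E, hb i b * (wv l (fp x D b) * (vo x P D W Wp i
      * vo x P D W Wp b - 1) + vo x P D W Wp i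
      * vo x P D W Wp b * vf x P D (Ψ false l) (Cψ false l) b (wo D i b)) := by
    refine le_trans ?_ (Finset.sum_le_sum_of_subset_of_nonneg hFE fun b mb _ =>
      mul_nonneg (kr.b0 i b) (g0 b mb))
    rw [← Finset.sum_add_distrib]
    refine Finset.sum_le_sum fun j mj => ?_
    have hij : i ≠ j := fun h => hiF (h ▸ mj)
    have n1 := (hψ false l).nn j (hF mj) (F.erase j) ((Finset.erase_subset _ _).trans hF)
      (Finset.notMem_erase _ _)
    have n2 := (hψ false l).ex j (hF mj) (F.erase j) ((Finset.erase_subset _ _).trans hF)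
      (Finset.notMem_erase _ _) i hi (fun h => hiF (Finset.mem_of_mem_erase h)) hij
    have a1 := mul_le_mul_of_nonneg_left (wb.hA i hi j (hF mj)) (w0 l j (hF mj))
    have a2 := mul_le_mul (wb.hT i hi j (hF mj)) n2 n1 (mul_nonneg (kr.b0 i j)
      (mul_nonneg (o0 i hi) (o0 j (hF mj))))
    refine (add_le_add a1 a2).trans (le_of_eq ?_)
    ring
  by_cases hPi : P i
  · obtain ⟨y, a, b, hsat⟩ := hs hPi
    obtain ⟨c, hc1, hc2⟩ := hc.vp l _ y a b hsat
    have eH : (pt x D E i).H = hk x D i := hk_eq hx D i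
    rw [show (pt x D E i).k = kk x D i from rfl, eH, pt_full] at hc1
    have h2 := hc1.sum hP hx hD kr hE hi hiE hPi g0
      (fun b mb hPb => by
        simp only [vo_l hPi, vo_l hPb, vf_l hPb]
        exact le_rfl)
      (fun b mb hPb h0 => by
        have e1 := fm_pend0 hP hPb h0 (F := wo D i b)
          (fun h => Finset.notMem_erase i _ (Finset.mem_of_mem_erase h))
        simp only [vo_l hPi, vo_p hPb, vf_p hPb, e1, mul_zero, add_zero]
        exact le_rfl)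
    simp only [vf_l hPi]
    exact (add_le_add (h1.trans h2) le_rfl).trans hc2
  · obtain ⟨d, hd1, hd2⟩ := hc.dp l
    have h2 := hd1.sum hP hx hD kr hE hi hiE hPi g0
      (fun b mb hPb h0 => by
        have hib : i ≠ b := fun h => hiE (h ▸ mb)
        have e1 : vo x P D W Wp i = Wp (x i b) := by
          rw [vo_p hPi, mas_pend hP (hE mb) hPi (by rwa [hx.symm b i]) (fun h => hib h.symm),
            hx.symm b i]
        have e2 : vo x P D W Wp b = W (pt x D (wo D i b) b).full := vo_l hPb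
        rw [e1, e2, vf_l hPb (wo D i b)]
        exact le_rfl)
    have h3 := mul_le_mul_of_nonneg_right hd2 (fm_nonneg hx.nn E i)
    have e : ∑ m, (Gp l m * vf x P D (Φ true m) (C true m) i E
        + Gm l m * vf x P D (Φ false m) (C false m) i E)
        = (∑ m, (Gp l m * C true m + Gm l m * C false m)) * fm x E i := by
      rw [Finset.sum_mul]
      exact Finset.sum_congr rfl fun m _ => by
        rw [vf_p hPi, vf_p hPi]
        ring
    rw [e, vf_p hPi]
    linarith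

/-- **the rows of the decreasing pairs** -/
theorem c12_sm (l : Λ) (hFE : F ⊆ E) (hE : E ⊆ Dᶜ) (hi : i ∈ Dᶜ) (hiE : i ∉ E)
    (hs : P i → ∃ y a b, (pt x D E i).Sat y a b) :
    ∑ j ∈ F, wv l (fp x D j) * B i j + ∑ b ∈ F, T i b * ψ true l b (F.erase b)
      + ∑ m, (Gp l m * vf x P D (Φ false m) (C false m) i E
        + Gm l m * vf x P D (Φ true m) (C true m) i E)
      ≤ -vf x P D (Φ' false l) (C' false l) i E := by
  have o0 : ∀ v ∈ Dᶜ, 0 ≤ vo x P D W Wp v := fun v hv =>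
    zero_le_one.trans (wb.W1 v hv)
  have hF := hFE.trans hE
  have hiF : i ∉ F := fun h => hiE (hFE h)
  have g0 : ∀ b ∈ E, 0 ≤ wv l (fp x D b) * bmx (vo x P D Nr Np i) (vo x P D Nr Np b)
      + vo x P D W Wp i * vo x P D W Wp b
        * vf x P D (Ψ true l) (Cψ true l) b (wo D i b) := by
    intro b mb
    have hib : i ≠ b := fun h => hiE (h ▸ mb)
    have b4 := mul_nonneg (w0 l b (hE mb)) (bmx_nonneg (vo x P D Nr Np i) (vo x P D Nr Np b))
    have b5 := mul_nonneg (mul_nonneg (o0 i hi) (o0 b (hE mb)))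
      ((hψ true l).w0 (hE mb) hi hib)
    linarith
  have h1 : ∑ j ∈ F, wv l (fp x D j) * B i j + ∑ b ∈ F, T i b * ψ true l b (F.erase b)
      ≤ ∑ b ∈ E, hb i b * (wv l (fp x D b) * bmx (vo x P D Nr Np i) (vo x P D Nr Np b)
      + vo x P D W Wp i * vo x P D W Wp b
        * vf x P D (Ψ true l) (Cψ true l) b (wo D i b)) := by
    refine le_trans ?_ (Finset.sum_le_sum_of_subset_of_nonneg hFE fun b mb _ =>
      mul_nonneg (kr.b0 i b) (g0 b mb))
    rw [← Finset.sum_add_distrib]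
    refine Finset.sum_le_sum fun j mj => ?_
    have hij : i ≠ j := fun h => hiF (h ▸ mj)
    have n1 := (hψ true l).nn j (hF mj) (F.erase j) ((Finset.erase_subset _ _).trans hF)
      (Finset.notMem_erase _ _)
    have n2 := (hψ true l).ex j (hF mj) (F.erase j) ((Finset.erase_subset _ _).trans hF)
      (Finset.notMem_erase _ _) i hi (fun h => hiF (Finset.mem_of_mem_erase h)) hij
    have a1 := mul_le_mul_of_nonneg_left (wb.hB i hi j (hF mj)) (w0 l j (hF mj))
    have a2 := mul_le_mul (wb.hT i hi j (hF mj)) n2 n1 (mul_nonneg (kr.b0 i j)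
      (mul_nonneg (o0 i hi) (o0 j (hF mj))))
    refine (add_le_add a1 a2).trans (le_of_eq ?_)
    ring
  by_cases hPi : P i
  · obtain ⟨y, a, b, hsat⟩ := hs hPi
    obtain ⟨c, hc1, hc2⟩ := hc.vm l _ y a b hsat
    have eH : (pt x D E i).H = hk x D i := hk_eq hx D i
    rw [show (pt x D E i).k = kk x D i from rfl, eH, pt_full] at hc1
    have h2 := hc1.sum hP hx hD kr hE hi hiE hPi g0
      (fun b mb hPb => by
        simp only [vo_l hPi, vo_l hPb, vf_l hPb]
        exact le_rfl)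
      (fun b mb hPb h0 => by
        have e1 := fm_pend0 hP hPb h0 (F := wo D i b)
          (fun h => Finset.notMem_erase i _ (Finset.mem_of_mem_erase h))
        simp only [vo_l hPi, vo_p hPb, vf_p hPb, e1, mul_zero, add_zero]
        exact le_rfl)
    simp only [vf_l hPi]
    exact (add_le_add (h1.trans h2) le_rfl).trans hc2
  · obtain ⟨d, hd1, hd2⟩ := hc.dm l
    have h2 := hd1.sum hP hx hD kr hE hi hiE hPi g0
      (fun b mb hPb h0 => by
        have hib : i ≠ b := fun h => hiE (h ▸ mb)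
        have em : mas x D i = x i b := by
          rw [mas_pend hP (hE mb) hPi (by rwa [hx.symm b i]) (fun h => hib h.symm),
            hx.symm b i]
        have e1 : vo x P D W Wp i = Wp (x i b) := by rw [vo_p hPi, em]
        have e2 : vo x P D W Wp b = W (pt x D (wo D i b) b).full := vo_l hPb
        have e4 : vo x P D Nr Np i = Np (x i b) := by rw [vo_p hPi, em]
        have e6 : vo x P D Nr Np b = Nr (pt x D (wo D i b) b).full := vo_l hPb
        rw [e1, e2, e4, e6, vf_l hPb (wo D i b)]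
        exact le_rfl)
    have h3 := mul_le_mul_of_nonneg_right hd2 (fm_nonneg hx.nn E i)
    have e : ∑ m, (Gp l m * vf x P D (Φ false m) (C false m) i E
        + Gm l m * vf x P D (Φ true m) (C true m) i E)
        = (∑ m, (Gp l m * C false m + Gm l m * C true m)) * fm x E i := by
      rw [Finset.sum_mul]
      exact Finset.sum_congr rfl fun m _ => by
        rw [vf_p hPi, vf_p hPi]
        ring
    rw [e, vf_p hPi]
    linarith

/-- the pair operator at a real position with a density -/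
theorem pos_l (s : Bool) (l : Λ) (hv : v ∈ Dᶜ) (hPv : P v) {g : Pt → ℝ}
    (g0 : ∀ y ∈ Dᶜ, 0 ≤ g (fp x D y)) {Bd : ℝ}
    (h : ∃ c : Ec, EL (kk x D v) (hk x D v) R Rp
      (fun q => W (fp x D v) * W q.full
        * (g q.full + (Ψ s l (fp x D v) + (Ψ s l q + Ψ s l q.full) / 2)))
      (fun q => W (fp x D v) * Wp q.M * (g q.full + (Ψ s l (fp x D v) + Cψ s l * q.M / 2))) c ∧
      sv c (fp x D v) ≤ Bd) :
    ∑ y ∈ Dᶜ.erase v, hb v y * (vo x P D W Wp v
      * vo x P D W Wp y * (g (fp x D y)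
        + (vf x P D (Ψ s l) (Cψ s l) v (Dᶜ.erase v)
        + (vf x P D (Ψ s l) (Cψ s l) y (wo D v y)
          + vf x P D (Ψ s l) (Cψ s l) y (Dᶜ.erase y)) / 2))) ≤ Bd := by
  have sub : Dᶜ.erase v ⊆ Dᶜ := Finset.erase_subset _ _
  have nv := Finset.notMem_erase v Dᶜ
  have o0 : ∀ v ∈ Dᶜ, 0 ≤ vo x P D W Wp v := fun v hv =>
    zero_le_one.trans (wb.W1 v hv)
  obtain ⟨c, hc1, hc2⟩ := h
  refine (hc1.sum hP hx hD kr sub hv nv hPv (fun b mb => ?_) (fun b mb hPb => ?_)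
    fun b mb hPb h0 => ?_).trans hc2
  · obtain ⟨hbv, hbD⟩ := Finset.mem_erase.1 mb
    have n1 := (hψ s l).f0 hv
    have n2 := (hψ s l).f0 hbD
    have n3 := (hψ s l).w0 hbD hv fun h => hbv h.symm
    exact mul_nonneg (mul_nonneg (o0 v hv) (o0 b hbD)) (by linarith [g0 b hbD])
  · simp only [vo_l hPv, vo_l hPb, vf_l hPv, vf_l hPb]
    exact le_rfl
  · have e1 := fm_pend0 hP hPb h0 (F := wo D v b)
      (fun h => Finset.notMem_erase v _ (Finset.mem_of_mem_erase h))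
    simp only [vo_l hPv, vo_p hPb, vf_l hPv, vf_p hPb, e1, mul_zero, zero_add]
    exact le_rfl

/-- the pair operator at a pendant position with a density -/
theorem pos_p (s : Bool) (l : Λ) (hv : v ∈ Dᶜ) (hPv : ¬P v) {g : V → ℝ}
    (g0 : ∀ y ∈ Dᶜ, 0 ≤ g y) {Bd : ℝ} (B0 : 0 ≤ Bd)
    (h : ∀ y ∈ Dᶜ, y ≠ v → P y → x v y ≠ 0 → x v y * Rp * (Wp (x v y) * W (fp x D y))
      * (g y + (Cψ s l * x v y + (Ψ s l (pt x D (wo D v y) y) + Ψ s l (fp x D y)) / 2)) ≤ Bd) :
    ∑ y ∈ Dᶜ.erase v, hb v y * (vo x P D W Wp v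
      * vo x P D W Wp y * (g y
        + (vf x P D (Ψ s l) (Cψ s l) v (Dᶜ.erase v)
        + (vf x P D (Ψ s l) (Cψ s l) y (wo D v y)
          + vf x P D (Ψ s l) (Cψ s l) y (Dᶜ.erase y)) / 2))) ≤ Bd := by
  have o0 : ∀ v ∈ Dᶜ, 0 ≤ vo x P D W Wp v := fun v hv =>
    zero_le_one.trans (wb.W1 v hv)
  refine pend_le (D := D) hP kr hPv (fun y hy hyv => ?_) B0 (fun y hy hyv hPy h0 => ?_)
  · have n1 := (hψ s l).f0 hv
    have n2 := (hψ s l).f0 hy
    have n3 := (hψ s l).w0 hy hv fun h => hyv h.symm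
    exact mul_nonneg (mul_nonneg (o0 v hv) (o0 y hy)) (by linarith [g0 y hy])
  · have h1 := h y hy hyv hPy h0
    have h0' : x y v ≠ 0 := by rwa [hx.symm y v]
    have em : fm x (Dᶜ.erase v) v = x v y := by
      rw [show fm x (Dᶜ.erase v) v = mas x D v from rfl, mas_pend hP hy hPv h0' hyv,
        hx.symm y v]
    have e1 : vo x P D W Wp v = Wp (x v y) := by
      rw [vo_p hPv, show mas x D v = fm x (Dᶜ.erase v) v from rfl, em]
    have e2 : vo x P D W Wp y = W (fp x D y) := vo_l hPy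
    simp only [e1, e2, vf_p hPv, vf_l hPy, em]
    refine (le_of_eq ?_).trans h1
    ring

/-- **the positions of the growing pairs** -/
theorem c12_gp (l : Λ) (hF : F ⊆ Dᶜ) (hv : v ∈ F) (Gp0 : ∀ m, 0 ≤ Gp l m) :
    KF T (ψ true l) F v ≤ ∑ m, Gp l m * wv m (fp x D v) := by
  have hvD := hF hv
  have o0 : ∀ v ∈ Dᶜ, 0 ≤ vo x P D W Wp v := fun v hv =>
    zero_le_one.trans (wb.W1 v hv)
  refine (kf_le2 (hψ true l).nn (hψ true l).fu (hψ true l).ex o0 kr.b0 wb.hT wb.Td hF hv).trans ?_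
  by_cases hPv : P v
  · obtain ⟨c, hc1, hc2⟩ := hc.pp l _ (sat_fp hP hx hD hvD hPv) rfl
    have eH : (fp x D v).H = hk x D v := hk_eq hx D v
    rw [show (fp x D v).k = kk x D v from rfl, eH] at hc1
    have h2 := pos_l hP hx hD kr wb hc hψ w0 true l hvD hPv (g := fun _ => 0)
      (fun _ _ => le_rfl) ⟨c, by simpa only [zero_add] using hc1, hc2⟩
    simpa only [zero_add] using h2
  · have h2 := pos_p hP hx hD kr wb hc hψ w0 true l hvD hPv (g := fun _ => 0)
      (fun _ _ => le_rfl) (Finset.sum_nonneg fun m _ => mul_nonneg (Gp0 m) (w0 m v hvD))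
      (fun y hy hyv hPy h0 => by
        have h0' : x y v ≠ 0 := by rwa [hx.symm y v]
        have e1 := hc.qp l _ _ (pt_satp hP hx hD hy hvD (fun h => hyv h.symm) hPy hPv h0)
        have e2 := fp_pend hP hx hy hPv h0' hyv hvD (wo D v y)
        rw [hx.symm y v] at e2
        rw [zero_add, e2]
        exact e1)
    simpa only [zero_add] using h2

/-- **the positions of the decreasing pairs** -/
theorem c12_gm (l : Λ) (hF : F ⊆ Dᶜ) (hv : v ∈ F) (Gm0 : ∀ m, 0 ≤ Gm l m) :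
    ∑ j ∈ F.erase v, wv l (fp x D j) * T j v + KF T (ψ false l) F v
      ≤ ∑ m, Gm l m * wv m (fp x D v) := by
  have hvD := hF hv
  have o0 : ∀ v ∈ Dᶜ, 0 ≤ vo x P D W Wp v := fun v hv =>
    zero_le_one.trans (wb.W1 v hv)
  have h1 := kf_le2 (hψ false l).nn (hψ false l).fu (hψ false l).ex o0 kr.b0 wb.hT wb.Td hF hv
  have h0 : ∑ j ∈ F.erase v, wv l (fp x D j) * T j v
      ≤ ∑ y ∈ Dᶜ.erase v, hb v y * (vo x P D W Wp v
          * vo x P D W Wp y * wv l (fp x D y)) := by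
    refine (Finset.sum_le_sum (g := fun y => hb v y * (vo x P D W Wp v
          * vo x P D W Wp y * wv l (fp x D y))) fun j mj => ?_).trans
      (Finset.sum_le_sum_of_subset_of_nonneg (Finset.erase_subset_erase _ hF) fun j mj _ =>
        mul_nonneg (kr.b0 v j) (mul_nonneg (mul_nonneg (o0 v hvD)
          (o0 j (Finset.mem_of_mem_erase mj))) (w0 l j (Finset.mem_of_mem_erase mj))))
    have hj := hF (Finset.mem_of_mem_erase mj)
    rw [wb.Ts j v]
    refine (mul_le_mul_of_nonneg_left (wb.hT v hvD j hj) (w0 l j hj)).trans (le_of_eq ?_)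
    ring
  refine (add_le_add h0 h1).trans ?_
  rw [← Finset.sum_add_distrib]
  have e0 : ∀ y, hb v y * (vo x P D W Wp v
          * vo x P D W Wp y * wv l (fp x D y))
      + hb v y * (vo x P D W Wp v * vo x P D W Wp y
        * (vf x P D (Ψ false l) (Cψ false l) v (Dᶜ.erase v)
          + (vf x P D (Ψ false l) (Cψ false l) y (wo D v y)
            + vf x P D (Ψ false l) (Cψ false l) y (Dᶜ.erase y)) / 2))
      = hb v y * (vo x P D W Wp v * vo x P D W Wp y
        * (wv l (fp x D y) + (vf x P D (Ψ false l) (Cψ false l) v (Dᶜ.erase v)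
          + (vf x P D (Ψ false l) (Cψ false l) y (wo D v y)
            + vf x P D (Ψ false l) (Cψ false l) y (Dᶜ.erase y)) / 2))) := fun y => by ring
  rw [Finset.sum_congr rfl fun y _ => e0 y]
  by_cases hPv : P v
  · obtain ⟨c, hc1, hc2⟩ := hc.pm l _ (sat_fp hP hx hD hvD hPv) rfl
    have eH : (fp x D v).H = hk x D v := hk_eq hx D v
    rw [show (fp x D v).k = kk x D v from rfl, eH] at hc1
    exact pos_l hP hx hD kr wb hc hψ w0 false l hvD hPv (g := wv l) (w0 l) ⟨c, hc1, hc2⟩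
  · exact pos_p hP hx hD kr wb hc hψ w0 false l hvD hPv (g := fun y => wv l (fp x D y))
      (w0 l) (Finset.sum_nonneg fun m _ => mul_nonneg (Gm0 m) (w0 m v hvD))
      (fun y hy hyv hPy h0 => by
        have h0' : x y v ≠ 0 := by rwa [hx.symm y v]
        have e1 := hc.qm l _ _ (pt_satp hP hx hD hy hvD (fun h => hyv h.symm) hPy hPv h0)
        have e2 := fp_pend hP hx hy hPv h0' hyv hvD (wo D v y)
        rw [hx.symm y v] at e2
        rw [e2]
        exact e1)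

end main

end Pool.Agent.RZ.RCO
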