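import Pool.Agent.RZ.RCO.Gl3

/-! The row bounds of level 1/2 over time from the checks (MP_73ccd0_lc). -/

namespace Pool.Agent.RZ.RCO

open Set Finset Pool.Agent.RZ.RCM

set_option linter.unusedSectionVars false

section

variable {V : Type*} [Fintype V] [DecidableEq V]
variable {x : V → V → ℝ} {D F : Finset V} {v i : V} {P : V → Prop}

/-- the world of a row: the full one, or the one without one vertex outside the set -/
def wd (D : Finset V) (o : Option V) (i : V) (F : Finset V) : Finset V :=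
  match o with
  | none => Dᶜ.erase i
  | some z => if z ∈ F then Dᶜ.erase i else wo D z i

theorem wd_none (D : Finset V) (i : V) (F : Finset V) : wd D none i F = Dᶜ.erase i := rfl

theorem wd_some {z : V} (h : z ∉ F) (D : Finset V) (i : V) : wd D (some z) i F = wo D z i :=
  if_neg h

theorem wd_cases (D : Finset V) (o : Option V) (i : V) (F : Finset V) :
    wd D o i F = Dᶜ.erase i ∨ ∃ z ∈ Dᶜ, z ≠ i ∧ z ∉ F ∧ wd D o i F = wo D z i := by
  cases o with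
  | none => exact Or.inl rfl
  | some z =>
    by_cases hz : z ∈ F
    · exact Or.inl (if_pos hz)
    · rw [wd_some hz]
      by_cases hzi : z = i
      · left
        rw [hzi]
        exact Finset.erase_idem
      · by_cases hzD : z ∈ Dᶜ
        · exact Or.inr ⟨z, hzD, hzi, hz, rfl⟩
        · left
          unfold wo
          rw [Finset.erase_eq_of_notMem hzD]

theorem wd_sub (D : Finset V) (o : Option V) (i : V) (F : Finset V) : wd D o i F ⊆ Dᶜ := by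
  rcases wd_cases D o i F with h | ⟨z, -, -, -, h⟩
  · rw [h]
    exact Finset.erase_subset _ _
  · rw [h]
    exact wo_sub D z i

theorem notMem_wd (D : Finset V) (o : Option V) (i : V) (F : Finset V) : i ∉ wd D o i F := by
  rcases wd_cases D o i F with h | ⟨z, -, -, -, h⟩
  · rw [h]
    exact Finset.notMem_erase _ _
  · rw [h]
    exact Finset.notMem_erase _ _

theorem sub_wd (hF : F ⊆ Dᶜ) (hi : i ∉ F) (o : Option V) : F ⊆ wd D o i F := by
  rcases wd_cases D o i F with h | ⟨z, -, -, hz, h⟩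
  · rw [h]
    exact fun y hy => Finset.mem_erase.2 ⟨fun e => hi (e ▸ hy), hF hy⟩
  · rw [h]
    exact fun y hy => Finset.mem_erase.2 ⟨fun e => hi (e ▸ hy),
      Finset.mem_erase.2 ⟨fun e => hz (e ▸ hy), hF hy⟩⟩

/-- the point of a real vertex in a world of a row -/
theorem sat_wd (hP : RCG.Ct.Wt x P 1) (hx : Wt x) (hD : D.card ≤ 2) (hi : i ∈ Dᶜ) (hPi : P i)
    (o : Option V) (F : Finset V) : ∃ y a b, (pt x D (wd D o i F) i).Sat y a b := by
  rcases wd_cases D o i F with h | ⟨z, hz, hzi, -, h⟩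
  · rw [h]
    exact ⟨0, 0, 0, sat_fp hP hx hD hi hPi⟩
  · rw [h]
    exact ⟨_, _, _, pt_sat hP hx hD hi hz hzi hPi⟩

end

/-- the data of level 1/2 over time -/
structure D12 (Λ : Type*) where
  R : ℝ → ℝ → ℝ
  Rp : ℝ → ℝ
  W : ℝ → Pt → ℝ
  Wp : ℝ → ℝ → ℝ
  Nr : ℝ → Pt → ℝ
  Np : ℝ → ℝ → ℝ
  wv : Λ → Pt → ℝ
  Φ : Bool → Λ → ℝ → Pt → ℝ
  Φ' : Bool → Λ → ℝ → Pt → ℝ
  Ψ : Bool → Λ → ℝ → Pt → ℝ
  C : Bool → Λ → ℝ → ℝ
  C' : Bool → Λ → ℝ → ℝ
  Cψ : Bool → Λ → ℝ → ℝ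
  Gp : Λ → Λ → ℝ → ℝ
  Gm : Λ → Λ → ℝ → ℝ

/-- **the checks of level 1/2 over time**; `S` the kinks -/
structure D12.Ok {Λ : Type*} [Fintype Λ] (d : D12 Λ) (τ : ℝ) (S : Finset ℝ) : Prop where
  c : ∀ r ∈ Icc 0 τ, r ∉ S → C12 (d.R r) (d.Rp r) (d.W r) (d.Wp r) (d.Nr r) (d.Np r) d.wv
    (fun s l => d.Φ s l r) (fun s l => d.Φ' s l r) (fun s l => d.Ψ s l r) (fun s l => d.C s l r)
    (fun s l => d.C' s l r) (fun s l => d.Cψ s l r) (fun l m => d.Gp l m r)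
    (fun l m => d.Gm l m r)
  Φc : ∀ s l, ∀ (p : Pt) (x a b : ℝ), p.Sat x a b →
    ContinuousOn (fun r => d.Φ s l r p) (Icc 0 τ)
  Φd : ∀ s l, ∀ (p : Pt) (x a b : ℝ), p.Sat x a b → ∀ r ∈ Icc 0 τ, r ∉ S →
    HasDerivAt (fun r => d.Φ s l r p) (d.Φ' s l r p) r
  Φ0 : ∀ s l, ∀ (p : Pt) (x a b : ℝ), p.Sat x a b → ∀ r ∈ Icc 0 τ, 0 ≤ d.Φ s l r p
  Cc : ∀ s l, ContinuousOn (d.C s l) (Icc 0 τ)
  Cd : ∀ s l, ∀ r ∈ Icc 0 τ, r ∉ S → HasDerivAt (d.C s l) (d.C' s l r) r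
  C0 : ∀ s l, ∀ r ∈ Icc 0 τ, 0 ≤ d.C s l r
  Gp0 : ∀ l m, ∀ r ∈ Icc 0 τ, 0 ≤ d.Gp l m r
  Gm0 : ∀ l m, ∀ r ∈ Icc 0 τ, 0 ≤ d.Gm l m r
  wv0 : ∀ l, ∀ p : Pt, p.Ok → p = p.full → 0 ≤ d.wv l p
  im : ∀ s l, ∀ r ∈ Icc 0 τ, r ∉ S → ∀ (p : Pt) (x a b : ℝ), p.Sat x a b →
    ∃ m, (∀ q : Pt, q.Ok → q = q.full → d.wv l q ≤ d.wv m q) ∧ d.Φ s m r p ≤ d.Ψ s l r p
  imp : ∀ s l, ∀ r ∈ Icc 0 τ, r ∉ S →
    ∃ m, (∀ q : Pt, q.Ok → q = q.full → d.wv l q ≤ d.wv m q) ∧ d.C s m r ≤ d.Cψ s l r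

section

variable {V : Type*} [Fintype V] [DecidableEq V]
variable {x : V → V → ℝ} {D F : Finset V} {v i : V} {P : V → Prop} {Λ : Type*}

/-- the functions used at the neighbours: the least over all worlds -/
noncomputable def psm (x : V → V → ℝ) (P : V → Prop) (D : Finset V) (Ψ : Pt → ℝ) (C : ℝ) (b : V)
    (G : Finset V) : ℝ :=
  (Finset.univ : Finset (Option V)).inf' ⟨none, Finset.mem_univ _⟩
    fun o => vf x P D Ψ C b (wd D o b G)

theorem psm_le {Ψ : Pt → ℝ} {C : ℝ} (o : Option V) (b : V) (G : Finset V) :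
    psm x P D Ψ C b G ≤ vf x P D Ψ C b (wd D o b G) :=
  Finset.inf'_le _ (Finset.mem_univ o)

theorem psm_ex (x : V → V → ℝ) (P : V → Prop) (D : Finset V) (Ψ : Pt → ℝ) (C : ℝ) (b : V)
    (G : Finset V) : ∃ o, psm x P D Ψ C b G = vf x P D Ψ C b (wd D o b G) := by
  obtain ⟨o, -, h⟩ := Finset.exists_mem_eq_inf' (s := (Finset.univ : Finset (Option V)))
    ⟨none, Finset.mem_univ _⟩ fun o => vf x P D Ψ C b (wd D o b G)
  exact ⟨o, h⟩

/-- the functions used at the neighbours are bounded as wanted -/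
theorem psb_psm {Ψ : Pt → ℝ} {C : ℝ} (h0 : ∀ b ∈ Dᶜ, ∀ o, ∀ G : Finset V,
    0 ≤ vf x P D Ψ C b (wd D o b G)) : PsB x P D Ψ C (psm x P D Ψ C) where
  nn := fun b hb G _ _ => by
    obtain ⟨o, h⟩ := psm_ex x P D Ψ C b G
    rw [h]
    exact h0 b hb o G
  fu := fun b _ G _ _ => psm_le none b G
  ex := fun b _ G _ _ i _ hiG _ => by
    have := psm_le (x := x) (P := P) (D := D) (Ψ := Ψ) (C := C) (some i) b G
    rwa [wd_some hiG] at this

theorem sum_opt [Fintype Λ] (f : Λ → ℝ) (g : Λ × Option V → ℝ) (o : Option V) :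
    ∑ m : Λ × Option V, (if m.2 = o then f m.1 else 0) * g m = ∑ m, f m * g (m, o) := by
  rw [Fintype.sum_prod_type]
  refine Finset.sum_congr rfl fun m _ => ?_
  rw [Finset.sum_eq_single o]
  · simp
  · intro o' _ ho
    simp [ho]
  · intro h
    exact absurd (Finset.mem_univ _) h

end

end Pool.Agent.RZ.RCO
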