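import Pool.Agent.RZ.RCO.Ex14
import Pool.Agent.RZ.RCO.Gl4
import Pool.Agent.RZ.RCO.Gl5_1

/-! The row bounds of level 1/2 over time from the checks (MP_73ccd0_lc). -/

namespace Pool.Agent.RZ.RCO

open Set Finset Pool.Agent.RZ.RCM

set_option linter.unusedSectionVars false

section

end

section

variable {V : Type*} [Fintype V] [DecidableEq V]
variable {x : V → V → ℝ} {D F : Finset V} {v i : V} {P : V → Prop} {Λ : Type*}

/-- **the data of the row bounds** -/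
noncomputable def D12.r12 (d : D12 Λ) (x : V → V → ℝ) (P : V → Prop) (D : Finset V)
    (A B : ℝ → V → V → ℝ) : R12 V (Λ × Option V) where
  π := ⟨fun l _ j _ => d.wv l.1 (fp x D j),
    fun s l b G r => psm x P D (d.Ψ s l.1 r) (d.Cψ s l.1 r) b G⟩
  w := fun l _ j _ => d.wv l.1 (fp x D j)
  w' := fun _ _ _ _ => 0
  φ := fun s l i F r => vf x P D (d.Φ s l.1 r) (d.C s l.1 r) i (wd D l.2 i F)
  φ' := fun s l i F r => vf x P D (d.Φ' s l.1 r) (d.C' s l.1 r) i (wd D l.2 i F)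
  Gp := fun l m _ _ r => if m.2 = l.2 then d.Gp l.1 m.1 r else 0
  Gm := fun l m _ _ r => if m.2 = l.2 then d.Gm l.1 m.1 r else 0
  α := fun l i F r => ∑ j ∈ F, d.wv l.1 (fp x D j) * A r i j
  β := fun l i F r => ∑ j ∈ F, d.wv l.1 (fp x D j) * B r i j

/-- **the conditions of the row bounds of level 1/2** -/
theorem D12.Ok.r12_ok [Fintype Λ] {d : D12 Λ} {τ : ℝ} {S : Finset ℝ} (hd : d.Ok τ S)
    (hP : RCG.Ct.Wt x P 1) (hD : D.card ≤ 2) {hb T A B : ℝ → V → V → ℝ}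
    (kr : ∀ r ∈ Icc 0 τ, Krn x P (hb r) (d.R r) (d.Rp r))
    (wb : ∀ r ∈ Icc 0 τ, WBd x P D (hb r) (T r) (A r) (B r) (d.W r) (d.Wp r) (d.Nr r) (d.Np r)) :
    (d.r12 x P D A B).Ok Dᶜ τ S T A B := by
  have hx : Wt x := ⟨hP.symm, hP.nonneg, hP.diag, hP.row⟩
  have ok : ∀ v ∈ Dᶜ, (fp x D v).Ok := fun v hv =>
    pt_ok hx hD (erase_sub D v) hv (Finset.notMem_erase v _)
  have w0 : ∀ l, ∀ v ∈ Dᶜ, 0 ≤ d.wv l (fp x D v) := fun l v hv => hd.wv0 l _ (ok v hv) rfl
  have sat : ∀ i ∈ Dᶜ, P i → ∀ (o : Option V) (F : Finset V),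
      ∃ y a b, (pt x D (wd D o i F) i).Sat y a b := fun i hi hPi o F =>
    sat_wd hP hx hD hi hPi o F
  have φ0 : ∀ s l, ∀ i ∈ Dᶜ, ∀ (o : Option V) (F : Finset V), ∀ r ∈ Icc 0 τ,
      0 ≤ vf x P D (d.Φ s l r) (d.C s l r) i (wd D o i F) := by
    intro s l i hi o F r hr
    by_cases hPi : P i
    · obtain ⟨y, a, b, h⟩ := sat i hi hPi o F
      rw [vf_l hPi]
      exact hd.Φ0 s l _ y a b h r hr
    · rw [vf_p hPi]
      exact mul_nonneg (hd.C0 s l r hr) (fm_nonneg hx.nn _ _)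
  have im : ∀ s l, ∀ r ∈ Icc 0 τ, r ∉ S → ∀ i ∈ Dᶜ, ∀ (o : Option V) (F : Finset V),
      ∃ m, (∀ q : Pt, q.Ok → q = q.full → d.wv l q ≤ d.wv m q) ∧
        vf x P D (d.Φ s m r) (d.C s m r) i (wd D o i F)
          ≤ vf x P D (d.Ψ s l r) (d.Cψ s l r) i (wd D o i F) := by
    intro s l r hr hrS i hi o F
    by_cases hPi : P i
    · obtain ⟨y, a, b, h⟩ := sat i hi hPi o F
      obtain ⟨m, h1, h2⟩ := hd.im s l r hr hrS _ y a b h
      refine ⟨m, h1, ?_⟩
      rw [vf_l hPi, vf_l hPi]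
      exact h2
    · obtain ⟨m, h1, h2⟩ := hd.imp s l r hr hrS
      refine ⟨m, h1, ?_⟩
      rw [vf_p hPi, vf_p hPi]
      exact mul_le_mul_of_nonneg_right h2 (fm_nonneg hx.nn _ _)
  have hψ : ∀ r ∈ Icc 0 τ, r ∉ S → ∀ s l, PsB x P D (d.Ψ s l r) (d.Cψ s l r)
      (psm x P D (d.Ψ s l r) (d.Cψ s l r)) := fun r hr hrS s l => psb_psm fun b hb o G => by
    obtain ⟨m, -, h⟩ := im s l r hr hrS b hb o G
    exact (φ0 s m b hb o G r hr).trans h
  exact {
    cw := fun _ _ _ _ _ => continuousOn_const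
    dw := fun _ _ _ _ _ r _ _ => hasDerivAt_const r _
    w0 := fun l _ _ j hj _ _ => w0 l.1 j hj
    w1 := fun _ _ _ _ _ _ _ _ => le_rfl
    wπ := fun _ _ _ _ _ _ _ _ _ _ _ _ _ => le_rfl
    hπ := fun s l b hb G _ _ r hr hrS => by
      obtain ⟨o, ho⟩ := psm_ex x P D (d.Ψ s l.1 r) (d.Cψ s l.1 r) b G
      obtain ⟨m, h1, h2⟩ := im s l.1 r hr hrS b hb o G
      refine ⟨(m, o), fun j hj => h1 _ (ok j (by rename_i hG _; exact hG hj)) rfl, ?_⟩
      exact h2.trans (le_of_eq ho.symm)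
    cφ := fun s l i hi F _ _ => by
      by_cases hPi : P i
      · obtain ⟨y, a, b, h⟩ := sat i hi hPi l.2 F
        exact (hd.Φc s l.1 _ y a b h).congr fun r _ => vf_l hPi _
      · exact ((hd.Cc s l.1).mul continuousOn_const).congr fun r _ => vf_p hPi _
    dφ := fun s l i hi F _ _ r hr hrS => by
      by_cases hPi : P i
      · obtain ⟨y, a, b, h⟩ := sat i hi hPi l.2 F
        have h1 := hd.Φd s l.1 _ y a b h r hr hrS
        have e1 : (fun r => vf x P D (d.Φ s l.1 r) (d.C s l.1 r) i (wd D l.2 i F))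
          = fun r => d.Φ s l.1 r (pt x D (wd D l.2 i F) i) := funext fun r => vf_l hPi _
        show HasDerivAt (fun r => vf x P D (d.Φ s l.1 r) (d.C s l.1 r) i (wd D l.2 i F))
          (vf x P D (d.Φ' s l.1 r) (d.C' s l.1 r) i (wd D l.2 i F)) r
        rw [e1, vf_l hPi]
        exact h1
      · have h1 := (hd.Cd s l.1 r hr hrS).mul_const (fm x (wd D l.2 i F) i)
        have e1 : (fun r => vf x P D (d.Φ s l.1 r) (d.C s l.1 r) i (wd D l.2 i F))
          = fun r => d.C s l.1 r * fm x (wd D l.2 i F) i := funext fun r => vf_p hPi _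
        show HasDerivAt (fun r => vf x P D (d.Φ s l.1 r) (d.C s l.1 r) i (wd D l.2 i F))
          (vf x P D (d.Φ' s l.1 r) (d.C' s l.1 r) i (wd D l.2 i F)) r
        rw [e1, vf_p hPi]
        exact h1
    φ0 := fun s l i hi F _ _ r hr => φ0 s l.1 i hi l.2 F r hr
    Gp0 := fun l m _ _ _ _ _ r hr => by
      show 0 ≤ if m.2 = l.2 then d.Gp l.1 m.1 r else 0
      split_ifs
      · exact hd.Gp0 _ _ r hr
      · exact le_rfl
    Gm0 := fun l m _ _ _ _ _ r hr => by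
      show 0 ≤ if m.2 = l.2 then d.Gm l.1 m.1 r else 0
      split_ifs
      · exact hd.Gm0 _ _ r hr
      · exact le_rfl
    hα := fun _ _ _ _ _ _ _ _ _ => le_rfl
    hβ := fun _ _ _ _ _ _ _ _ _ => le_rfl
    hGp := fun l i _ F hF _ v hv r hr hrS => by
      have h1 := c12_gp hP hx hD (kr r hr) (wb r hr) (hd.c r hr hrS) (hψ r hr hrS) w0 l.1 hF hv
        fun m => hd.Gp0 _ _ r hr
      refine h1.trans (le_of_eq ?_)
      exact (sum_opt (fun m => d.Gp l.1 m r) (fun m => d.wv m.1 (fp x D v)) l.2).symm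
    hGm := fun l i _ F hF _ v hv r hr hrS => by
      have h1 := c12_gm hP hx hD (kr r hr) (wb r hr) (hd.c r hr hrS) (hψ r hr hrS) w0 l.1 hF hv
        fun m => hd.Gm0 _ _ r hr
      refine h1.trans (le_of_eq ?_)
      exact (sum_opt (fun m => d.Gm l.1 m r) (fun m => d.wv m.1 (fp x D v)) l.2).symm
    sp := fun l i hi F hF hiF r hr hrS => by
      have h1 := c12_sp hP hx hD (kr r hr) (wb r hr) (hd.c r hr hrS) (hψ r hr hrS) w0 l.1
        (sub_wd hF hiF l.2) (wd_sub D l.2 i F) hi (notMem_wd D l.2 i F)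
        fun hPi => sat i hi hPi l.2 F
      refine le_trans (le_of_eq ?_) h1
      refine congrArg₂ _ rfl ?_
      have s1 := sum_opt (fun m => d.Gp l.1 m r)
        (fun m => vf x P D (d.Φ true m.1 r) (d.C true m.1 r) i (wd D m.2 i F)) l.2
      have s2 := sum_opt (fun m => d.Gm l.1 m r)
        (fun m => vf x P D (d.Φ false m.1 r) (d.C false m.1 r) i (wd D m.2 i F)) l.2
      rw [Finset.sum_add_distrib, Finset.sum_add_distrib]
      exact congrArg₂ _ s1 s2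
    sm := fun l i hi F hF hiF r hr hrS => by
      have h1 := c12_sm hP hx hD (kr r hr) (wb r hr) (hd.c r hr hrS) (hψ r hr hrS) w0 l.1
        (sub_wd hF hiF l.2) (wd_sub D l.2 i F) hi (notMem_wd D l.2 i F)
        fun hPi => sat i hi hPi l.2 F
      refine le_trans (le_of_eq ?_) h1
      refine congrArg₂ _ rfl ?_
      have s1 := sum_opt (fun m => d.Gp l.1 m r)
        (fun m => vf x P D (d.Φ false m.1 r) (d.C false m.1 r) i (wd D m.2 i F)) l.2
      have s2 := sum_opt (fun m => d.Gm l.1 m r)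
        (fun m => vf x P D (d.Φ true m.1 r) (d.C true m.1 r) i (wd D m.2 i F)) l.2
      rw [Finset.sum_add_distrib, Finset.sum_add_distrib]
      exact congrArg₂ _ s1 s2 }

end

end Pool.Agent.RZ.RCO
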