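import Pool.Agent.RZ.RCO.Gl4
import Pool.Agent.RZ.RCO.Gs1

/-! Positions, kernel sums and minima of families (MP_73ccd0_lc). -/

namespace Pool.Agent.RZ.RCO

open Set Finset Pool.Agent.RZ.RCM

set_option linter.unusedSectionVars false

variable {V : Type*} [Fintype V] [DecidableEq V]
variable {x : V → V → ℝ} {D F G : Finset V} {v i e : V} {P : V → Prop}
variable {φ φ' : V → Finset V → ℝ} {Φ Φ' : Pt → ℝ} {c c' : ℝ}

/-! ### the zero line -/

/-! ### minima of families -/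

section inf

variable {J : Type*} [Fintype J] [Nonempty J]

/-- the minimum of finitely many functions of the point -/
noncomputable def infP (Φ : J → Pt → ℝ) (p : Pt) : ℝ :=
  Finset.univ.inf' Finset.univ_nonempty fun j => Φ j p

/-- the minimum of finitely many numbers -/
noncomputable def infC (C : J → ℝ) : ℝ := Finset.univ.inf' Finset.univ_nonempty C

/-- **the minimum over the variants and the worlds with an index** -/
noncomputable def infF (x : V → V → ℝ) (P : V → Prop) (D : Finset V) (Φ : J → Pt → ℝ)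
    (C : J → ℝ) (v : V) (G : Finset V) : ℝ :=
  (Finset.univ : Finset (J × Option V)).inf' Finset.univ_nonempty fun l =>
    vf x P D (Φ l.1) (C l.1) v (wd D l.2 v G)

theorem infP_le (Φ : J → Pt → ℝ) (p : Pt) (j : J) : infP Φ p ≤ Φ j p :=
  Finset.inf'_le _ (Finset.mem_univ j)

theorem infC_le (C : J → ℝ) (j : J) : infC C ≤ C j := Finset.inf'_le _ (Finset.mem_univ j)

theorem infC_nonneg {C : J → ℝ} (h : ∀ j, 0 ≤ C j) : 0 ≤ infC C :=
  Finset.le_inf' _ _ fun j _ => h j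

theorem infF_le (Φ : J → Pt → ℝ) (C : J → ℝ) (v : V) (G : Finset V) (j : J) (o : Option V) :
    infF x P D Φ C v G ≤ vf x P D (Φ j) (C j) v (wd D o v G) :=
  Finset.inf'_le (fun l : J × Option V => vf x P D (Φ l.1) (C l.1) v (wd D l.2 v G))
    (Finset.mem_univ (j, o))

theorem infF_ex (x : V → V → ℝ) (P : V → Prop) (D : Finset V) (Φ : J → Pt → ℝ) (C : J → ℝ)
    (v : V) (G : Finset V) : ∃ l : J × Option V,
      infF x P D Φ C v G = vf x P D (Φ l.1) (C l.1) v (wd D l.2 v G) := by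
  obtain ⟨l, -, hl⟩ := Finset.exists_mem_eq_inf'
    (Finset.univ_nonempty (α := J × Option V)) fun l =>
      vf x P D (Φ l.1) (C l.1) v (wd D l.2 v G)
  exact ⟨l, hl⟩

theorem infP_ex (Φ : J → Pt → ℝ) (p : Pt) : ∃ j, infP Φ p = Φ j p := by
  obtain ⟨l, -, hl⟩ := Finset.exists_mem_eq_inf' (Finset.univ_nonempty (α := J)) fun j => Φ j p
  exact ⟨l, hl⟩

theorem infC_ex (C : J → ℝ) : ∃ j, infC C = C j := by
  obtain ⟨l, -, hl⟩ := Finset.exists_mem_eq_inf' (Finset.univ_nonempty (α := J)) C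
  exact ⟨l, hl⟩

/-- a bound of a sum by all members gives the bound by the minimum -/
theorem le_infF {Φ : J → Pt → ℝ} {C : J → ℝ} {v : V} {G : Finset V} {a : ℝ}
    (h : ∀ j o, a ≤ vf x P D (Φ j) (C j) v (wd D o v G)) : a ≤ infF x P D Φ C v G :=
  Finset.le_inf' _ _ fun l _ => h l.1 l.2

/-- the values of a family are nonnegative -/
theorem vf_wd_nonneg (hP : RCG.Ct.Wt x P 1) (hx : Wt x) (hD : D.card ≤ 2) {Φ : Pt → ℝ} {C : ℝ}
    (n0 : ∀ p, Sa p → 0 ≤ Φ p) (C0 : 0 ≤ C) (o : Option V) (hv : v ∈ Dᶜ) (G : Finset V) :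
    0 ≤ vf x P D Φ C v (wd D o v G) := by
  by_cases hPv : P v
  · rw [vf_l hPv]
    exact n0 _ (wd_sat hP hx hD o hv hPv G)
  · rw [vf_p hPv]
    exact mul_nonneg C0 (fm_nonneg hx.nn _ v)

/-- **the minimum of a family is bounded by the minimum of the functions of the point** -/
theorem fb_inf (hP : RCG.Ct.Wt x P 1) (hx : Wt x) (hD : D.card ≤ 2) {Φ : J → Pt → ℝ}
    {C : J → ℝ} (n0 : ∀ j p, Sa p → 0 ≤ Φ j p) (C0 : ∀ j, 0 ≤ C j) :
    FB x P D (infF x P D Φ C) (infP Φ) (infC C) where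
  c0 := infC_nonneg C0
  nn := fun v hv G _ _ => Finset.le_inf' _ _ fun l _ =>
    vf_wd_nonneg hP hx hD (n0 l.1) (C0 l.1) l.2 hv G
  fu := fun v hv hPv G hG hvG => by
    obtain ⟨j, hj⟩ := infP_ex Φ (fp x D v)
    rw [hj]
    have := infF_le (x := x) (P := P) (D := D) Φ C v G j none
    rw [vf_l hPv] at this
    exact this
  ex := fun v hv hPv G hG hvG i hi hiG hiv => by
    obtain ⟨j, hj⟩ := infP_ex Φ (pt x D (wo D i v) v)
    rw [hj]
    have h1 := infF_le (x := x) (P := P) (D := D) Φ C v G j (some i)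
    rw [vf_l hPv] at h1
    have e : wd D (some i) v G = wo D i v := if_neg hiG
    rw [e] at h1
    exact h1
  pe := fun v hv hPv G hG hvG => by
    obtain ⟨j, hj⟩ := infC_ex C
    rw [hj]
    by_cases h : ∃ a ∈ Dᶜ, x v a ≠ 0 ∧ a ∉ G
    · obtain ⟨a, ha, h0, haG⟩ := h
      have h1 := infF_le (x := x) (P := P) (D := D) Φ C v G j (some a)
      rw [vf_p hPv] at h1
      have e : wd D (some a) v G = wo D a v := if_neg haG
      rw [e, fm_pend0 hP hPv (by rwa [hx.symm v a] at h0)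
        (fun h => Finset.notMem_erase a _ (Finset.mem_of_mem_erase h)), mul_zero] at h1
      exact h1.trans (mul_nonneg (C0 j) (fm_nonneg hx.nn G v))
    · push Not at h
      have h1 := infF_le (x := x) (P := P) (D := D) Φ C v G j none
      rw [vf_p hPv] at h1
      refine h1.trans (mul_le_mul_of_nonneg_left ?_ (C0 j))
      show ∑ b ∈ Dᶜ.erase v, x v b ≤ ∑ b ∈ G, x v b
      rw [← Finset.sum_subset (s₁ := G) (s₂ := Dᶜ.erase v)
        (fun z hz => Finset.mem_erase.2 ⟨fun e1 => hvG (e1 ▸ hz), hG hz⟩) fun z hz hzG => by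
          by_contra h0
          exact hzG (h z (Finset.mem_of_mem_erase hz) h0)]

end inf

/-! ### kernel sums -/

section sums

variable {hb T : V → V → ℝ} {R : ℝ → ℝ} {Rp : ℝ} {W : Pt → ℝ} {Wp : ℝ → ℝ} {cE cD cH cW : Ec}

/-- a line at every vertex: sums over the neighbours are at most `Φ` -/
def KLn (RK : ℝ → ℝ) (RKp : ℝ) (Gf Gp : Pt → Pt → ℝ) (Φ : Pt → ℝ) : Prop :=
  ∀ p : Pt, Sa p → ∃ c : Ec, EL p.k p.H RK RKp (Gf p) (Gp p) c ∧ sv c p ≤ Φ p

theorem KLn.at {RK : ℝ → ℝ} {RKp : ℝ} {Gf Gp : Pt → Pt → ℝ} {Φ : Pt → ℝ} (hx : Wt x)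
    (h : KLn RK RKp Gf Gp Φ) (hs : Sa (pt x D G i)) : ∃ c : Ec,
      EL (kk x D i) (hk x D i) RK RKp (Gf (pt x D G i)) (Gp (pt x D G i)) c
      ∧ sv c (pt x D G i) ≤ Φ (pt x D G i) := by
  have h1 := h _ hs
  have e : (pt x D G i).H = hk x D i := hk_eq hx D i
  rw [e] at h1
  exact h1

/-- a world which is full or lacks one vertex -/
theorem sa_full (hP : RCG.Ct.Wt x P 1) (hx : Wt x) (hD : D.card ≤ 2) (hv : v ∈ Dᶜ)
    (hPv : P v) : Sa (fp x D v) := ⟨0, 0, 0, sat_fp hP hx hD hv hPv⟩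

theorem sa_wo (hP : RCG.Ct.Wt x P 1) (hx : Wt x) (hD : D.card ≤ 2) (hv : v ∈ Dᶜ)
    (hPv : P v) (hi : i ∈ Dᶜ) (hiv : i ≠ v) : Sa (pt x D (wo D i v) v) :=
  ⟨_, _, _, pt_sat hP hx hD hv hi hiv hPv⟩

/-- a bound in every larger saturated world -/
theorem FB.of_sat (hP : RCG.Ct.Wt x P 1) (hx : Wt x) (hD : D.card ≤ 2) {d : ℝ} (d0 : 0 ≤ d)
    (nn : ∀ v ∈ Dᶜ, ∀ G ⊆ Dᶜ, v ∉ G → 0 ≤ φ v G)
    (hl : ∀ v ∈ Dᶜ, P v → ∀ G E, G ⊆ E → E ⊆ Dᶜ → v ∉ E → Sa (pt x D E v) →
      φ v G ≤ Φ (pt x D E v))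
    (hp : ∀ v ∈ Dᶜ, ¬P v → ∀ G ⊆ Dᶜ, v ∉ G → φ v G ≤ d * fm x G v) : FB x P D φ Φ d where
  c0 := d0
  nn := nn
  fu := fun v hv hPv G hG hvG => hl v hv hPv G _
    (fun z hz => Finset.mem_erase.2 ⟨fun h => hvG (h ▸ hz), hG hz⟩) (Finset.erase_subset _ _)
    (Finset.notMem_erase _ _) (sa_full hP hx hD hv hPv)
  ex := fun v hv hPv G hG hvG i hi hiG hiv => hl v hv hPv G _
    (by
      have h1 := sub_wo hG hiG v
      rwa [Finset.erase_eq_of_notMem hvG] at h1) (wo_sub D i v) (Finset.notMem_erase _ _)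
    (sa_wo hP hx hD hv hPv hi hiv)
  pe := hp

/-- **sums of a kernel** are bounded by one line -/
theorem fb_krn (hP : RCG.Ct.Wt x P 1) (hx : Wt x) (hD : D.card ≤ 2) {K : V → V → ℝ}
    {RK : ℝ → ℝ} {RKp : ℝ} (kr : Krn x P K RK RKp) {w : Pt → ℝ}
    (w0 : ∀ v ∈ Dᶜ, 0 ≤ w (fp x D v)) {d : ℝ}
    (hE : KLn RK RKp (fun _ q => w q.full) (fun _ q => w q.full) Φ)
    (hO : OLx RKp (fun _ p => w p.full) d) (d0 : 0 ≤ d) :
    FB x P D (fun v G => ∑ b ∈ G, K v b * w (fp x D b)) Φ d :=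
  FB.of_sat hP hx hD d0
    (fun v _ G hG _ => Finset.sum_nonneg fun b hb => mul_nonneg (kr.b0 v b) (w0 b (hG hb)))
    (fun v hv hPv G E hGE hE' hvE hs => by
      obtain ⟨cc, h1, h2⟩ := hE.at hx hs
      exact (FB.ksum_l hP hx hD kr h1 hGE hE' hv hvE hPv (fun b hb => w0 b (hE' (hGE hb)))
        (fun b hb _ => le_rfl) (fun b hb _ _ => le_rfl) (fun b hb _ => w0 b (hE' hb))
        fun b hb _ _ => w0 b (hE' hb)).trans h2)
    fun v hv hPv G hG hvG => ksum_o hP hx hD kr hO hG hv hvG hPv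
      (fun b hb => w0 b (hG hb)) fun b hb _ _ => le_rfl

/-- **weighted sums of the removal rates** are bounded by one line -/
theorem fb_tp (hP : RCG.Ct.Wt x P 1) (hx : Wt x) (hD : D.card ≤ 2) (kr : Krn x P hb R Rp)
    (tb : TBd x P D hb T W Wp) {w : Pt → ℝ} (w0 : ∀ v ∈ Dᶜ, 0 ≤ w (fp x D v)) {d : ℝ}
    (hE : KLn R Rp (fun p q => W p.full * W q.full * w q.full) (fun p q => W p.full * Wp q.M * w q.full)
      Φ)
    (hO : OLx Rp (fun x p => Wp x * W p.full * w p.full) d) (d0 : 0 ≤ d) :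
    FB x P D (fun v G => ∑ b ∈ G, T v b * w (fp x D b)) Φ d := by
  have key : ∀ v ∈ Dᶜ, ∀ G ⊆ Dᶜ, ∑ b ∈ G, T v b * w (fp x D b) ≤ ∑ b ∈ G, hb v b
      * (vo x P D W Wp v * vo x P D W Wp b * w (fp x D b)) :=
    fun v hv G hG => Finset.sum_le_sum fun b hb => by
      refine (mul_le_mul_of_nonneg_right (tb.hT v hv b (hG hb)) (w0 b (hG hb))).trans
        (le_of_eq ?_)
      ring
  have pos : ∀ v ∈ Dᶜ, ∀ b ∈ Dᶜ, 0 ≤ vo x P D W Wp v
      * vo x P D W Wp b * w (fp x D b) := fun v hv b hb =>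
    mul_nonneg (mul_nonneg (tb.W0 v hv) (tb.W0 b hb)) (w0 b hb)
  refine FB.of_sat hP hx hD d0
    (fun v _ G hG _ => Finset.sum_nonneg fun b hb => mul_nonneg (tb.T0 v b) (w0 b (hG hb)))
    (fun v hv hPv G E hGE hE' hvE hs => ?_) fun v hv hPv G hG hvG => ?_
  · obtain ⟨cc, h1, h2⟩ := hE.at hx hs
    have e1 : vo x P D W Wp v = W (pt x D E v).full := vo_l hPv
    refine (key v hv G (hGE.trans hE')).trans ((FB.ksum_l hP hx hD kr h1 hGE hE' hv hvE hPv
      (fun b hb => pos v hv b (hE' (hGE hb))) (fun b hb hPb => ?_) (fun b hb hPb _ => ?_)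
      (fun b hb hPb => ?_) fun b hb hPb _ => ?_).trans h2)
    · simp only [e1, vo_l hPb]
      exact le_rfl
    · simp only [e1, vo_p hPb]
      exact le_rfl
    · have := pos v hv b (hE' hb)
      rw [e1, vo_l hPb] at this
      exact this
    · have := pos v hv b (hE' hb)
      rw [e1, vo_p hPb] at this
      exact this
  · refine (key v hv G hG).trans (ksum_o hP hx hD kr hO hG hv hvG hPv
      (fun b hb => pos v hv b (hG hb)) fun b hb hPb h0 => ?_)
    have hvb : v ≠ b := fun h => hvG (h ▸ hb)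
    have e1 : vo x P D W Wp v = Wp (x v b) := by
      rw [vo_p hPv, mas_pend hP (hG hb) hPv (by rwa [hx.symm b v]) (fun h => hvb h.symm),
        hx.symm b v]
    have e2 : vo x P D W Wp b = W (pt x D (wo D v b) b).full := vo_l hPb
    simp only [e1, e2]
    exact le_rfl

/-! ### positions -/

variable (hP : RCG.Ct.Wt x P 1) (hx : Wt x) (hD : D.card ≤ 2) (kr : Krn x P hb R Rp)
  (tb : TBd x P D hb T W Wp)

include hP hx hD kr tb

/-- **the removal sum and the pair operator at a real position** -/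
theorem FB.pos_l (hφ : FB x P D φ Φ c) (hF : F ⊆ Dᶜ) (hv : v ∈ F) (hPv : P v) {w : Pt → ℝ}
    (w0 : ∀ v ∈ Dᶜ, 0 ≤ w (fp x D v)) {Bd : Pt → ℝ}
    (hE : ∃ cE : Ec, EL (fp x D v).k (fp x D v).H R Rp
      (fun q => W (fp x D v).full * W q.full * (w q.full + (Φ (fp x D v) + (Φ q + Φ q.full) / 2)))
      (fun q => W (fp x D v).full * Wp q.M * (w q.full + (Φ (fp x D v) + c * q.M / 2))) cE
      ∧ sv cE (fp x D v) ≤ Bd (fp x D v)) :
    ∑ j ∈ F.erase v, w (fp x D j) * T j v + KF T φ F v ≤ Bd (fp x D v) := by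
  classical
  obtain ⟨cE, hE1, hE2⟩ := hE
  have hvD := hF hv
  have sub : Dᶜ.erase v ⊆ Dᶜ := Finset.erase_subset _ _
  have nv := Finset.notMem_erase v Dᶜ
  have e1 : vo x P D W Wp v = W (fp x D v).full := vo_l hPv
  have eH : (fp x D v).H = hk x D v := hk_eq hx D v
  rw [eH] at hE1
  let u : V → ℝ := fun y => if P y then (Φ (pt x D (wo D v y) y) + Φ (fp x D y)) / 2
    else c * fm x (Dᶜ.erase y) y / 2
  have u0 : ∀ y ∈ Dᶜ.erase v, 0 ≤ u y := fun y hy => by
    obtain ⟨hyv, hyD⟩ := Finset.mem_erase.1 hy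
    by_cases hPy : P y
    · simp only [u, if_pos hPy]
      have h1 := hφ.nw hyD hPy hvD (fun h => hyv h.symm)
      have h2 := hφ.nf hyD hPy
      linarith
    · simp only [u, if_neg hPy]
      have := mul_nonneg hφ.c0 (fm_nonneg hx.nn (Dᶜ.erase y) y)
      linarith
  have f0 := hφ.nf hvD hPv
  have h1 := hφ.kf_le hP hx hD kr tb hF hv (g := fun j => w (fp x D j)) w0
    (u := fun y => Φ (fp x D v) + u y) (fun y hy h0 => by
      obtain ⟨hyv, hyF⟩ := Finset.mem_erase.1 hy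
      have hyD := hF hyF
      have a1 := hφ.fu v hvD hPv (F.erase v) ((Finset.erase_subset _ _).trans hF)
        (Finset.notMem_erase _ _)
      have a2 := hφ.fu v hvD hPv ((F.erase y).erase v)
        ((Finset.erase_subset _ _).trans ((Finset.erase_subset _ _).trans hF))
        (Finset.notMem_erase _ _)
      have sy : (F.erase v).erase y ⊆ Dᶜ :=
        (Finset.erase_subset _ _).trans ((Finset.erase_subset _ _).trans hF)
      have vy : v ∉ (F.erase v).erase y := fun h =>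
        Finset.notMem_erase v _ (Finset.mem_of_mem_erase h)
      by_cases hPy : P y
      · simp only [u, if_pos hPy]
        have a3 := hφ.ex y hyD hPy _ sy (Finset.notMem_erase _ _) v hvD vy
          (fun h => hyv h.symm)
        have a4 := hφ.fu y hyD hPy (F.erase y) ((Finset.erase_subset _ _).trans hF)
          (Finset.notMem_erase _ _)
        linarith
      · simp only [u, if_neg hPy]
        have a3 := hφ.pe y hyD hPy _ sy (Finset.notMem_erase _ _)
        rw [fm_pend0 hP hPy h0 vy, mul_zero] at a3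
        have a4 := hφ.pe y hyD hPy (F.erase y) ((Finset.erase_subset _ _).trans hF)
          (Finset.notMem_erase _ _)
        have a5 := mul_le_mul_of_nonneg_left (fm_mono (x := x) hx.nn
          (Finset.erase_subset_erase y hF) y) hφ.c0
        linarith)
    (fun y hy _ => add_nonneg f0 (u0 y hy))
  refine (h1.trans (FB.ksum_l hP hx hD kr hE1 subset_rfl sub hvD nv hPv (fun b hb => ?_)
    (fun b hb hPb => ?_) (fun b hb hPb _ => ?_) (fun b hb hPb => ?_)
    fun b hb hPb _ => ?_)).trans hE2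
  · exact mul_nonneg (mul_nonneg (tb.W0 v hvD) (tb.W0 b (sub hb)))
      (add_nonneg (w0 b (sub hb)) (add_nonneg f0 (u0 b hb)))
  · simp only [u, e1, vo_l hPb, if_pos hPb]
    exact le_rfl
  · simp only [u, e1, vo_p hPb, if_neg hPb]
    exact le_rfl
  · have := mul_nonneg (mul_nonneg (tb.W0 v hvD) (tb.W0 b (sub hb)))
      (add_nonneg (w0 b (sub hb)) (add_nonneg f0 (u0 b hb)))
    simp only [u, e1, vo_l hPb, if_pos hPb] at this
    exact this
  · have := mul_nonneg (mul_nonneg (tb.W0 v hvD) (tb.W0 b (sub hb)))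
      (add_nonneg (w0 b (sub hb)) (add_nonneg f0 (u0 b hb)))
    simp only [u, e1, vo_p hPb, if_neg hPb] at this
    exact this

/-- **the removal sum and the pair operator at a pendant position** -/
theorem FB.pos_o (hφ : FB x P D φ Φ c) (hF : F ⊆ Dᶜ) (hv : v ∈ F) (hPv : ¬P v) {w : Pt → ℝ}
    (w0 : ∀ v ∈ Dᶜ, 0 ≤ w (fp x D v)) {Bd : Pt → ℝ} (B0 : 0 ≤ Bd (fp x D v))
    (h : ∀ (p : Pt) (x : ℝ), p.Sat x 0 (x * p.k) → x * Rp * (Wp x * W p.full)
      * (w p.full + (c * x + (Φ p + Φ p.full)) / 2) ≤ Bd (pnd x p)) :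
    ∑ j ∈ F.erase v, w (fp x D j) * T j v + KF T φ F v ≤ Bd (fp x D v) := by
  classical
  have hvD := hF hv
  let u : V → ℝ := fun y => if P y ∧ y ≠ v then
    (c * x v y + (Φ (pt x D (wo D v y) y) + Φ (fp x D y))) / 2 else 0
  have u0 : ∀ y ∈ Dᶜ, 0 ≤ u y := fun y hyD => by
    by_cases hPy : P y ∧ y ≠ v
    · simp only [u, if_pos hPy]
      have h1 := hφ.nw hyD hPy.1 hvD (fun h => hPy.2 h.symm)
      have h2 := hφ.nf hyD hPy.1
      have h3 := mul_nonneg hφ.c0 (hx.nn v y)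
      linarith
    · simp only [u, if_neg hPy]
      exact le_rfl
  have h1 := hφ.kf_le hP hx hD kr tb hF hv (g := fun j => w (fp x D j)) w0
    (u := u) (fun y hy h0 => by
      obtain ⟨hyv, hyF⟩ := Finset.mem_erase.1 hy
      have hyD := hF hyF
      have h0' : x y v ≠ 0 := by rwa [hx.symm y v]
      have hPy : P y := hP.pend y v hPv h0'
      have hPy2 : P y ∧ y ≠ v := ⟨hPy, hyv⟩
      simp only [u, if_pos hPy2]
      have sy : (F.erase v).erase y ⊆ Dᶜ :=
        (Finset.erase_subset _ _).trans ((Finset.erase_subset _ _).trans hF)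
      have vy : v ∉ (F.erase v).erase y := fun h =>
        Finset.notMem_erase v _ (Finset.mem_of_mem_erase h)
      have a1 := hφ.pe v hvD hPv (F.erase v) ((Finset.erase_subset _ _).trans hF)
        (Finset.notMem_erase _ _)
      have a2 := hφ.pe v hvD hPv ((F.erase y).erase v)
        ((Finset.erase_subset _ _).trans ((Finset.erase_subset _ _).trans hF))
        (Finset.notMem_erase _ _)
      rw [fm_pend0 (i := y) hP hPv h0' (fun h => Finset.notMem_erase y _
        (Finset.mem_of_mem_erase h)), mul_zero] at a2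
      have a3 := hφ.ex y hyD hPy _ sy (Finset.notMem_erase _ _) v hvD vy
        (fun h => hyv h.symm)
      have a4 := hφ.fu y hyD hPy (F.erase y) ((Finset.erase_subset _ _).trans hF)
        (Finset.notMem_erase _ _)
      have a5 : fm x (F.erase v) v ≤ x v y := by
        have e2 := mas_pend hP hyD hPv h0' hyv
        rw [hx.symm y v] at e2
        rw [← e2]
        exact fm_mono hx.nn (Finset.erase_subset_erase v hF) v
      have a6 := mul_le_mul_of_nonneg_left a5 hφ.c0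
      linarith)
    (fun y hy _ => u0 y (Finset.mem_of_mem_erase hy))
  refine h1.trans (pend_le (D := D) hP kr hPv (fun y hy _ => mul_nonneg (mul_nonneg (tb.W0 v hvD)
    (tb.W0 y hy)) (add_nonneg (w0 y hy) (u0 y hy))) B0 fun y hy hyv hPy h0 => ?_)
  have h0' : x y v ≠ 0 := by rwa [hx.symm y v]
  have e1 : vo x P D W Wp v = Wp (x v y) := by
    rw [vo_p hPv, mas_pend hP hy hPv h0' hyv, hx.symm y v]
  have e2 : vo x P D W Wp y = W (fp x D y) := vo_l hPy
  have hPy2 : P y ∧ y ≠ v := ⟨hPy, hyv⟩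
  have h2 := h _ _ (pt_satp hP hx hD hy hvD (fun h => hyv h.symm) hPy hPv h0)
  have e3 := fp_pend hP hx hy hPv h0' hyv hvD (wo D v y)
  rw [hx.symm y v] at e3
  rw [← e3] at h2
  simp only [e1, e2, u, if_pos hPy2]
  refine le_trans (le_of_eq ?_) h2
  show _ = x v y * Rp * (Wp (x v y) * W (fp x D y)) * (w (fp x D y)
    + (c * x v y + (Φ (pt x D (wo D v y) y) + Φ (fp x D y))) / 2)
  ring

end sums

end Pool.Agent.RZ.RCO
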