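import Pool.Agent.RZ.RCO.Gs1

/-! The conditions of the target sums from checks at single times (MP_73ccd0_lc). -/

namespace Pool.Agent.RZ.RCO

open Set Finset Pool.Agent.RZ.RCM

set_option linter.unusedSectionVars false

variable {V : Type*} [Fintype V] [DecidableEq V]

/-! ### the data over time -/

/-- the rates of a world over time: kernels and bounds of the removal rates -/
structure WEnv (x : V → V → ℝ) (P : V → Prop) (D : Finset V) (τ : ℝ) (S : Finset ℝ)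
    (hb T : ℝ → V → V → ℝ) (R : ℝ → ℝ → ℝ) (Rp : ℝ → ℝ) (W : ℝ → Pt → ℝ) (Wp : ℝ → ℝ → ℝ) : Prop where
  hP : RCG.Ct.Wt x P 1
  hx : Wt x
  hD : D.card ≤ 2
  kr : ∀ r ∈ Icc 0 τ, r ∉ S → Krn x P (hb r) (R r) (Rp r)
  tb : ∀ r ∈ Icc 0 τ, r ∉ S → TBd x P D (hb r) (T r) (W r) (Wp r)

/-- rows of level 1/2 with weights and bounds, over time -/
structure RwB (x : V → V → ℝ) (P : V → Prop) (D : Finset V) (τ : ℝ) (S : Finset ℝ)
    (gp gm : Finset V → V → V → ℝ → ℝ) {Λ : Type*} (wv : Λ → Pt → ℝ)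
    (bf : Bool → Λ → V → Finset V → ℝ → ℝ) (B : Bool → Λ → ℝ → Pt → ℝ)
    (CB : Bool → Λ → ℝ → ℝ) : Prop where
  w0 : ∀ m, ∀ v ∈ Dᶜ, 0 ≤ wv m (fp x D v)
  rp : ∀ m, ∀ e ∈ Dᶜ, ∀ F ⊆ Dᶜ, e ∉ F → ∀ r ∈ Icc 0 τ, r ∉ S →
    ∑ y ∈ F, wv m (fp x D y) * gp (F.erase y) e y r ≤ bf true m e F r
  rm : ∀ m, ∀ e ∈ Dᶜ, ∀ F ⊆ Dᶜ, e ∉ F → ∀ r ∈ Icc 0 τ, r ∉ S →
    ∑ y ∈ F, wv m (fp x D y) * gm (F.erase y) e y r ≤ bf false m e F r
  fb : ∀ s m, ∀ r ∈ Icc 0 τ, r ∉ S → FB x P D (fun v G => bf s m v G r) (B s m r) (CB s m r)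

/-- a family of functions of the point over time, two for every member, with the constants of the
pendant vertices -/
structure Fam (J : Type*) where
  Φ : Bool → J → ℝ → Pt → ℝ
  Φ' : Bool → J → ℝ → Pt → ℝ
  C : Bool → J → ℝ → ℝ
  C' : Bool → J → ℝ → ℝ

/-- the regularity of a family -/
structure Fam.Ok {J : Type*} (f : Fam J) (τ : ℝ) (S : Finset ℝ) : Prop where
  cΦ : ∀ s j p, ContinuousOn (fun r => f.Φ s j r p) (Icc 0 τ)
  dΦ : ∀ s j p, ∀ r ∈ Icc 0 τ, r ∉ S → HasDerivAt (fun r => f.Φ s j r p) (f.Φ' s j r p) r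
  cC : ∀ s j, ContinuousOn (f.C s j) (Icc 0 τ)
  dC : ∀ s j, ∀ r ∈ Icc 0 τ, r ∉ S → HasDerivAt (f.C s j) (f.C' s j r) r
  Φ0 : ∀ s j, ∀ r ∈ Icc 0 τ, ∀ p, Sa p → 0 ≤ f.Φ s j r p
  C0 : ∀ s j, ∀ r ∈ Icc 0 τ, 0 ≤ f.C s j r
  C1 : ∀ s j, ∀ r ∈ Icc 0 τ, r ∉ S → f.C' s j r ≤ 0

section fam

variable {J : Type*} [Fintype J] [Nonempty J]

/-- the members of a family with an index of the world -/
noncomputable def Fam.v (f : Fam J) (x : V → V → ℝ) (P : V → Prop) (D : Finset V) (s : Bool)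
    (l : J × Option V) (e : V) (F : Finset V) (r : ℝ) : ℝ :=
  vf x P D (f.Φ s l.1 r) (f.C s l.1 r) e (wd D l.2 e F)

/-- their derivatives -/
noncomputable def Fam.v' (f : Fam J) (x : V → V → ℝ) (P : V → Prop) (D : Finset V) (s : Bool)
    (l : J × Option V) (e : V) (F : Finset V) (r : ℝ) : ℝ :=
  vf x P D (f.Φ' s l.1 r) (f.C' s l.1 r) e (wd D l.2 e F)

variable {x : V → V → ℝ} {P : V → Prop} {D : Finset V} {τ : ℝ} {S : Finset ℝ} {f : Fam J}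

theorem Fam.Ok.cv (h : f.Ok τ S) (s : Bool) (l : J × Option V) (e : V) (F : Finset V) :
    ContinuousOn (f.v x P D s l e F) (Icc 0 τ) := by
  by_cases hPe : P e
  · have : f.v x P D s l e F = fun r => f.Φ s l.1 r (pt x D (wd D l.2 e F) e) := by
      funext r
      exact vf_l hPe _
    rw [this]
    exact h.cΦ s l.1 _
  · have : f.v x P D s l e F = fun r => f.C s l.1 r * fm x (wd D l.2 e F) e := by
      funext r
      exact vf_p hPe _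
    rw [this]
    exact (h.cC s l.1).mul continuousOn_const

theorem Fam.Ok.dv (h : f.Ok τ S) (s : Bool) (l : J × Option V) (e : V) (F : Finset V) {r : ℝ}
    (hr : r ∈ Icc 0 τ) (hrS : r ∉ S) :
    HasDerivAt (f.v x P D s l e F) (f.v' x P D s l e F r) r := by
  by_cases hPe : P e
  · have e1 : f.v x P D s l e F = fun r => f.Φ s l.1 r (pt x D (wd D l.2 e F) e) := by
      funext r
      exact vf_l hPe _
    have e2 : f.v' x P D s l e F r = f.Φ' s l.1 r (pt x D (wd D l.2 e F) e) := vf_l hPe _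
    rw [e1, e2]
    exact h.dΦ s l.1 _ r hr hrS
  · have e1 : f.v x P D s l e F = fun r => f.C s l.1 r * fm x (wd D l.2 e F) e := by
      funext r
      exact vf_p hPe _
    have e2 : f.v' x P D s l e F r = f.C' s l.1 r * fm x (wd D l.2 e F) e := vf_p hPe _
    rw [e1, e2]
    exact (h.dC s l.1 r hr hrS).mul_const _

end fam

/-! ### the checks -/

/-- **the checks of the target sums of level 1 at one time**: `Ψ n`, `Ψ e`, `Ψ d` bound `N + Q`,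
`E + c1 P` and `D + c4 P` at the neighbours; `B` the rows of level 1/2 with the weights `wv` -/
structure CT1 {J Λ : Type*} [Fintype Λ] (R : ℝ → ℝ) (Rp : ℝ) (W : Pt → ℝ) (Wp : ℝ → ℝ)
    (wv : Λ → Pt → ℝ) (B : Bool → Λ → Pt → ℝ) (CB : Bool → Λ → ℝ) (Ψn Ψe Ψd : Pt → ℝ)
    (Cn Cd : ℝ) (Φ' : Bool → J → Pt → ℝ) (C' : Bool → J → ℝ) (Gn Gd : J → Λ → ℝ) : Prop where
  vP : ∀ j p, Sa p → ∃ c : Ec,
    EL p.k p.H R Rp (fun q => W p.full * W q.full * Ψn q) (fun _ => 0) c ∧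
    sv c p + ∑ m, (Gn j m * B false m p + Gd j m * B true m p) ≤ -Φ' true j p
  vQ : ∀ j p, Sa p → ∃ c : Ec,
    EL p.k p.H R Rp (fun q => W p.full * W q.full * Ψe q) (fun _ => 0) c ∧
    sv c p + ∑ m, (Gn j m * B true m p + Gd j m * B false m p) ≤ -Φ' false j p
  pn : ∀ j, ∀ p : Pt, p.Sat 0 0 0 → p = p.full → ∃ c : Ec, EL p.k p.H R Rp
    (fun q => W p.full * W q.full * (Ψn p + (Ψn q + Ψn q.full) / 2))
    (fun q => W p.full * Wp q.M * (Ψn p + Cn * q.M / 2)) c ∧ sv c p ≤ ∑ m, Gn j m * wv m p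
  pd : ∀ j, ∀ p : Pt, p.Sat 0 0 0 → p = p.full → ∃ c : Ec, EL p.k p.H R Rp
    (fun q => W p.full * W q.full * (Ψd p + (Ψd q + Ψd q.full) / 2))
    (fun q => W p.full * Wp q.M * (Ψd p + Cd * q.M / 2)) c ∧ sv c p ≤ ∑ m, Gd j m * wv m p
  oP : ∀ j, ∃ d, OLx Rp (fun x p => Wp x * W p.full * Ψn p) d ∧
    d + ∑ m, (Gn j m * CB false m + Gd j m * CB true m) ≤ -C' true j
  oQ : ∀ j, ∃ d, OLx Rp (fun x p => Wp x * W p.full * Ψe p) d ∧
    d + ∑ m, (Gn j m * CB true m + Gd j m * CB false m) ≤ -C' false j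
  qn : ∀ j, ∀ (p : Pt) (x : ℝ), p.Sat x 0 (x * p.k) → x * Rp * (Wp x * W p.full)
    * ((Cn * x + (Ψn p + Ψn p.full)) / 2) ≤ ∑ m, Gn j m * wv m (pnd x p)
  qd : ∀ j, ∀ (p : Pt) (x : ℝ), p.Sat x 0 (x * p.k) → x * Rp * (Wp x * W p.full)
    * ((Cd * x + (Ψd p + Ψd p.full)) / 2) ≤ ∑ m, Gd j m * wv m (pnd x p)

/-! ### one vertex -/

section one

variable {x : V → V → ℝ} {D F : Finset V} {e v : V} {P : V → Prop} {hb T : V → V → ℝ}
  {R : ℝ → ℝ} {Rp : ℝ} {W : Pt → ℝ} {Wp : ℝ → ℝ} {Λ : Type*} [Fintype Λ] {B1 B2 : Λ → Pt → ℝ}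
  {C1 C2 : Λ → ℝ} {b1 b2 : Λ → V → Finset V → ℝ} {G1 G2 : Λ → ℝ} {ψ : V → Finset V → ℝ}
  {Ψ Φ' : Pt → ℝ} {c C' : ℝ} {wv : Λ → Pt → ℝ}

/-- **the row of a family**: the removal sum and the row terms -/
theorem row_fb (hP : RCG.Ct.Wt x P 1) (hx : Wt x) (hD : D.card ≤ 2) (kr : Krn x P hb R Rp)
    (tb : TBd x P D hb T W Wp) (hψ : FB x P D ψ Ψ c) (h1 : ∀ m, FB x P D (b1 m) (B1 m) (C1 m))
    (h2 : ∀ m, FB x P D (b2 m) (B2 m) (C2 m)) (g1 : ∀ m, 0 ≤ G1 m) (g2 : ∀ m, 0 ≤ G2 m)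
    (hv : ∀ p, Sa p → ∃ c : Ec, EL p.k p.H R Rp (fun q => W p.full * W q.full * Ψ q) (fun _ => 0) c ∧
      sv c p + ∑ m, (G1 m * B1 m p + G2 m * B2 m p) ≤ -Φ' p)
    (ho : ∃ d, OLx Rp (fun x p => Wp x * W p.full * Ψ p) d ∧
      d + ∑ m, (G1 m * C1 m + G2 m * C2 m) ≤ -C') (C'0 : C' ≤ 0) (o : Option V)
    (he : e ∈ Dᶜ) (hF : F ⊆ Dᶜ) (heF : e ∉ F) :
    ∑ b ∈ F, T e b * ψ b (F.erase b) + ∑ m, (G1 m * b1 m e F + G2 m * b2 m e F)
      ≤ -vf x P D Φ' C' e (wd D o e F) := by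
  by_cases hPe : P e
  · have hs := wd_sat hP hx hD o he hPe F
    obtain ⟨cc, l1, l2⟩ := hv _ hs
    have eH : (pt x D (wd D o e F) e).H = hk x D e := hk_eq hx D e
    rw [eH] at l1
    have t1 := hψ.tsum_l hP hx hD kr tb l1 (sub_wd hF heF o) (wd_sub D o e F) he
      (notMem_wd D o e F) hPe
    have t2 : ∑ m, (G1 m * b1 m e F + G2 m * b2 m e F)
        ≤ ∑ m, (G1 m * B1 m (pt x D (wd D o e F) e) + G2 m * B2 m (pt x D (wd D o e F) e)) :=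
      Finset.sum_le_sum fun m _ => add_le_add
        (mul_le_mul_of_nonneg_left ((h1 m).wd o he hPe hF heF) (g1 m))
        (mul_le_mul_of_nonneg_left ((h2 m).wd o he hPe hF heF) (g2 m))
    rw [vf_l hPe]
    linarith
  · obtain ⟨d, l1, l2⟩ := ho
    have t1 := hψ.tsum_o hP hx hD kr tb l1 hF he heF hPe
    have m0 := fm_nonneg hx.nn F e
    have t2 : ∑ m, (G1 m * b1 m e F + G2 m * b2 m e F)
        ≤ (∑ m, (G1 m * C1 m + G2 m * C2 m)) * fm x F e := by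
      rw [Finset.sum_mul]
      refine Finset.sum_le_sum fun m _ => ?_
      have a1 := mul_le_mul_of_nonneg_left ((h1 m).pe e he hPe F hF heF) (g1 m)
      have a2 := mul_le_mul_of_nonneg_left ((h2 m).pe e he hPe F hF heF) (g2 m)
      linarith
    have t3 := mul_le_mul_of_nonneg_right l2 m0
    have t4 := mul_le_mul_of_nonneg_left (fm_mono hx.nn (sub_wd hF heF o) e)
      (by linarith : 0 ≤ -C')
    rw [vf_p hPe]
    linarith

end one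

/-! ### the target sums -/

end Pool.Agent.RZ.RCO
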