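import Pool.Agent.RZ.RCO.Sx1

/-! Second order step tables: piecewise quadratic functions of the time, the shift, products of
functions below chords (MP_73ccd0_lc). -/

namespace Pool.Agent.RZ.RCO

open Set Finset

/-! ### The step coordinate -/

/-- the coordinate of the step `j` -/
noncomputable def stc (t : ℕ → ℝ) (j : ℕ) (r : ℝ) : ℝ := (r - t j) / (t (j + 1) - t j)

variable {t s w : ℕ → ℝ} {n : ℕ} {e : ℝ}

theorem Msh.pos (h : Msh t n) {j : ℕ} (hj : j < n) : 0 < t (j + 1) - t j :=
  sub_pos.2 (h.mono j hj)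

theorem stc_nonneg (h : Msh t n) {j : ℕ} (hj : j < n) {r : ℝ} (hr : r ∈ Icc (t j) (t (j + 1))) :
    0 ≤ stc t j r := div_nonneg (by linarith [hr.1]) (h.pos hj).le

theorem stc_le_one (h : Msh t n) {j : ℕ} (hj : j < n) {r : ℝ} (hr : r ∈ Icc (t j) (t (j + 1))) :
    stc t j r ≤ 1 := by
  unfold stc
  rw [div_le_one (h.pos hj)]
  linarith [hr.2]

theorem stc_lo (t : ℕ → ℝ) (j : ℕ) : stc t j (t j) = 0 := by
  unfold stc
  rw [sub_self, zero_div]

theorem stc_hi (h : Msh t n) {j : ℕ} (hj : j < n) : stc t j (t (j + 1)) = 1 :=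
  div_self (h.pos hj).ne'

/-- `pl` in the coordinate of the step -/
theorem pl_stc (h : Msh t n) {j : ℕ} (hj : j < n) {r : ℝ} (hr : r ∈ Icc (t j) (t (j + 1))) :
    pl t s n r = (1 - stc t j r) * s j + stc t j r * s (j + 1) := by
  rw [pl_on h hj hr, stc]
  ring

/-! ### (a) The quadratic table -/

/-- the function with the slopes `-pl t s n` and the value `e` at the end of the mesh -/
noncomputable def qt (t s : ℕ → ℝ) (n : ℕ) (e r : ℝ) : ℝ := e + ∫ u in r..t n, pl t s n u

theorem qt_end (t s : ℕ → ℝ) (n : ℕ) (e : ℝ) : qt t s n e (t n) = e := by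
  unfold qt
  rw [intervalIntegral.integral_same, add_zero]

theorem pl_int (t s : ℕ → ℝ) (n : ℕ) (a b : ℝ) :
    IntervalIntegrable (pl t s n) MeasureTheory.volume a b :=
  (pl_cont t s n).intervalIntegrable a b

theorem qt_deriv (t s : ℕ → ℝ) (n : ℕ) (e r : ℝ) :
    HasDerivAt (qt t s n e) (-pl t s n r) r := by
  have h1 := intervalIntegral.integral_hasDerivAt_left (pl_int t s n r (t n))
    ((pl_cont t s n).stronglyMeasurableAtFilter _ _) (pl_cont t s n).continuousAt
  exact h1.const_add e

theorem qt_cont (t s : ℕ → ℝ) (n : ℕ) (e : ℝ) : Continuous (qt t s n e) :=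
  continuous_iff_continuousAt.2 fun r => (qt_deriv t s n e r).continuousAt

/-- the increment of the table in a step -/
theorem qt_step (h : Msh t n) {j : ℕ} (hj : j < n) {r : ℝ} (hr : r ∈ Icc (t j) (t (j + 1))) :
    qt t s n e (t j) - qt t s n e r
      = (t (j + 1) - t j) * (s j * stc t j r + (s (j + 1) - s j) * stc t j r ^ 2 / 2) := by
  -- the auxiliary function
  have hd := h.pos hj
  set F : ℝ → ℝ := fun u => qt t s n e u
    + (t (j + 1) - t j) * (s j * stc t j u + (s (j + 1) - s j) * stc t j u ^ 2 / 2) with hF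
  have hst : ∀ u, HasDerivAt (stc t j) (1 / (t (j + 1) - t j)) u := fun u =>
    ((hasDerivAt_id u).sub_const (t j)).div_const (t (j + 1) - t j)
  have hder : ∀ u ∈ Icc (t j) (t (j + 1)), HasDerivAt F 0 u := by
    intro u hu
    have h1 := (qt_deriv t s n e u).add ((((hst u).const_mul (s j)).add
      ((((hst u).pow 2).const_mul (s (j + 1) - s j)).div_const 2)).const_mul (t (j + 1) - t j))
    refine h1.congr_deriv ?_
    rw [pl_stc h hj hu]
    field_simp
    simp
    ring
  have hconst : F r = F (t j) := by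
    rcases hr.1.eq_or_lt with h0 | h0
    · rw [h0]
    · have h1 : ∀ u ∈ Icc (t j) r, HasDerivWithinAt F 0 (Icc (t j) r) u := fun u hu =>
        (hder u ⟨hu.1, hu.2.trans hr.2⟩).hasDerivWithinAt
      have hdiff : DifferentiableOn ℝ F (Icc (t j) r) := fun u hu => (h1 u hu).differentiableWithinAt
      have hz : ∀ u ∈ Ico (t j) r, derivWithin F (Icc (t j) r) u = 0 := fun u hu =>
        (h1 u ⟨hu.1, hu.2.le⟩).derivWithin ((uniqueDiffOn_Icc h0) u ⟨hu.1, hu.2.le⟩)
      exact constant_of_derivWithin_zero hdiff hz r ⟨h0.le, le_rfl⟩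
  simp only [hF, stc_lo] at hconst
  linarith

theorem qt_node_sub (h : Msh t n) {j : ℕ} (hj : j < n) :
    qt t s n e (t j) = qt t s n e (t (j + 1)) + (t (j + 1) - t j) * (s j + s (j + 1)) / 2 := by
  have h1 := qt_step (s := s) (e := e) h hj ⟨(h.mono j hj).le, le_rfl⟩
  rw [stc_hi h hj] at h1
  linarith

/-- downward induction over the nodes -/
theorem node_ind {P : ℕ → Prop} (h0 : P n) (h1 : ∀ j < n, P (j + 1) → P j) : ∀ j ≤ n, P j := by
  have key : ∀ m ≤ n, P (n - m) := by
    intro m
    induction m with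
    | zero => intro _; simpa using h0
    | succ m ih =>
      intro hm
      refine h1 _ (by omega) ?_
      rw [show n - (m + 1) + 1 = n - m by omega]
      exact ih (by omega)
  intro j hj
  have := key (n - j) (by omega)
  rwa [show n - (n - j) = j by omega] at this

/-- upper node values -/
structure UpN (t s w : ℕ → ℝ) (n : ℕ) (e : ℝ) : Prop where
  last : e ≤ w n
  step : ∀ j < n, w (j + 1) + (t (j + 1) - t j) * (s j + s (j + 1)) / 2 ≤ w j

theorem UpN.le (h : Msh t n) (hw : UpN t s w n e) : ∀ j ≤ n, qt t s n e (t j) ≤ w j := by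
  refine node_ind ?_ ?_
  · rw [qt_end]; exact hw.last
  · intro j hj ih
    rw [qt_node_sub h hj]
    linarith [hw.step j hj]

/-- the table against its chord -/
theorem qt_chord (h : Msh t n) {j : ℕ} (hj : j < n) {r : ℝ} (hr : r ∈ Icc (t j) (t (j + 1))) :
    qt t s n e r = (1 - stc t j r) * qt t s n e (t j) + stc t j r * qt t s n e (t (j + 1))
      + (t (j + 1) - t j) * (s (j + 1) - s j) * (stc t j r * (1 - stc t j r)) / 2 := by
  have h1 := qt_step (s := s) (e := e) h hj hr
  have h2 := qt_node_sub (s := s) (e := e) h hj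
  linear_combination (-1 : ℝ) * h1 + stc t j r * h2

/-- upper line: chord of the upper node values, raised by `g / 8`, where `g` bounds the fall of
the slope over the step times its length -/
theorem qt_up (h : Msh t n) (hw : UpN t s w n e) {j : ℕ} (hj : j < n) {r : ℝ}
    (hr : r ∈ Icc (t j) (t (j + 1))) {g : ℝ} (g0 : 0 ≤ g)
    (hg : (t (j + 1) - t j) * (s (j + 1) - s j) ≤ 8 * g) :
    qt t s n e r ≤ (1 - stc t j r) * (w j + g) + stc t j r * (w (j + 1) + g) := by
  have c0 := stc_nonneg h hj hr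
  have c1 := stc_le_one h hj hr
  have h1 := hw.le h j hj.le
  have h2 := hw.le h (j + 1) hj
  rw [qt_chord h hj hr]
  have h3 : stc t j r * (1 - stc t j r) ≤ 1 / 4 := by nlinarith [sq_nonneg (2 * stc t j r - 1)]
  have h4 : 0 ≤ stc t j r * (1 - stc t j r) := mul_nonneg c0 (by linarith)
  have h5 : (t (j + 1) - t j) * (s (j + 1) - s j) * (stc t j r * (1 - stc t j r)) ≤ 2 * g :=
    (mul_le_mul_of_nonneg_right hg h4).trans (by nlinarith)
  have h6 := mul_le_mul_of_nonneg_left h1 (by linarith : 0 ≤ 1 - stc t j r)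
  have h7 := mul_le_mul_of_nonneg_left h2 c0
  nlinarith

theorem qt_nonneg (h : Msh t n) (hn : 0 < n) (e0 : 0 ≤ e) (hs : ∀ j ≤ n, 0 ≤ s j) {r : ℝ}
    (hr : r ∈ Icc (t 0) (t n)) : 0 ≤ qt t s n e r :=
  add_nonneg e0 (intervalIntegral.integral_nonneg hr.2 fun _ hu =>
    pl_nonneg h hn hs ⟨hr.1.trans hu.1, hu.2⟩)

theorem qt_anti (h : Msh t n) (hn : 0 < n) (hs : ∀ j ≤ n, 0 ≤ s j) :
    AntitoneOn (qt t s n e) (Icc (t 0) (t n)) := by
  intro a ha b hb hab
  have h1 : qt t s n e a = qt t s n e b + ∫ u in a..b, pl t s n u := by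
    have := intervalIntegral.integral_add_adjacent_intervals (pl_int t s n a b)
      (pl_int t s n b (t n))
    unfold qt
    linarith
  rw [h1]
  exact le_add_of_nonneg_right (intervalIntegral.integral_nonneg hab fun _ hu =>
    pl_nonneg h hn hs ⟨ha.1.trans hu.1, hu.2.trans hb.2⟩)

/-! ### (b) The shift -/

theorem qt_shift (t s : ℕ → ℝ) (n : ℕ) (e δ r : ℝ) :
    HasDerivAt (fun r => qt t s n e (r + δ)) (-pl t s n (r + δ)) r := by
  have h1 := (qt_deriv t s n e (r + δ)).comp r ((hasDerivAt_id r).add_const δ)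
  rw [mul_one] at h1
  exact h1

/-! ### (c) Products of functions below lines -/

section prod

end prod

/-! ### (c') Homogeneous forms in `(1 - v, v)`: products of any number of lines -/

section hom

end hom

/-! ### (d) Chords of the time dependent data -/

/-! ### Linear combinations of tables as supersolutions -/

section super

end super

end Pool.Agent.RZ.RCO
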