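import Mathlib

/-! Variants of the bounds at the neighbours: choices and convex combinations (MP_73ccd0_lc). -/

namespace Pool.Agent.RZ.RCO

open Set Finset

variable {V : Type*} [DecidableEq V]

/-- some member with a positive coefficient is at most the convex combination -/
theorem ex_le_cvx {ι : Type*} [Fintype ι] {c φ : ι → ℝ} (c0 : ∀ m, 0 ≤ c m) (c1 : ∑ m, c m = 1) :
    ∃ m, c m ≠ 0 ∧ φ m ≤ ∑ m, c m * φ m := by
  by_contra h
  push Not at h
  have hex : ∃ m, c m ≠ 0 := by
    by_contra h0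
    push Not at h0
    rw [Finset.sum_eq_zero fun m _ => h0 m] at c1
    exact zero_ne_one c1
  obtain ⟨m0, hm0⟩ := hex
  have h1 : ∑ m, c m * ∑ m, c m * φ m < ∑ m, c m * φ m := by
    refine Finset.sum_lt_sum (fun m _ => ?_) ⟨m0, Finset.mem_univ _, ?_⟩
    · by_cases hm : c m = 0
      · rw [hm]; simp
      · exact mul_le_mul_of_nonneg_left (h m hm).le (c0 m)
    · exact mul_lt_mul_of_pos_left (h m0 hm0) (lt_of_le_of_ne (c0 m0) (Ne.symm hm0))
  rw [← Finset.sum_mul, c1, one_mul] at h1
  exact lt_irrefl _ h1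

end Pool.Agent.RZ.RCO
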