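import Pool.Agent.RZ.RCO.Gf1
import Pool.Agent.RZ.RCO.Gl5_1
import Pool.Agent.RZ.RCO.Sx3
import Pool.Agent.RZ.RCO.Vr

/-! Level 1/2: linear forms with coefficient tables of time (MP_73ccd0_lc). -/

namespace Pool.Agent.RZ.RCO

open Set Finset

set_option linter.unusedSectionVars false

/-! ### linear forms of nonnegative features -/

/-- a linear form of `N` features which are nonnegative at the points -/
structure Lf (FF : (ℕ → ℝ) → Pt → ℝ) (N : ℕ) (ft : ℕ → Pt → ℝ) : Prop where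
  eq : ∀ f p, FF f p = ∑ i ∈ Finset.range N, f i * ft i p
  nn : ∀ p : Pt, p.Ok → ∀ i < N, 0 ≤ ft i p

/-- the features of `frm` -/
def ft12 (i : ℕ) (p : Pt) : ℝ :=
  match i with
  | 0 => p.m
  | 1 => p.k * p.m
  | 2 => p.h
  | 3 => p.g
  | 4 => p.q
  | 5 => p.e
  | 6 => p.m * p.H
  | 7 => p.m * p.Q
  | 8 => p.m * p.E
  | 9 => p.s
  | 10 => p.m * p.G
  | _ => p.m * p.S

theorem lf_frm : Lf frm 12 ft12 where
  eq := fun f p => by
    simp only [Finset.sum_range_succ, Finset.sum_range_zero, zero_add]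
    unfold frm ft12
    rfl
  nn := fun p h i _ => by
    have m0 := h.f.m0
    unfold ft12
    split
    · exact m0
    · exact mul_nonneg h.k0 m0
    · exact h.f.h0
    · exact h.f.g0
    · exact h.f.q0
    · exact h.f.e0
    · exact mul_nonneg m0 h.F.h0
    · exact mul_nonneg m0 h.F.q0
    · exact mul_nonneg m0 h.F.e0
    · exact h.f.s0
    · exact mul_nonneg m0 h.F.g0
    · exact mul_nonneg m0 h.F.s0

section

variable {FF : (ℕ → ℝ) → Pt → ℝ} {N : ℕ} {ft : ℕ → Pt → ℝ}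

theorem Lf.mono (h : Lf FF N ft) {f g : ℕ → ℝ} {p : Pt} (hp : p.Ok) (hfg : ∀ i < N, f i ≤ g i) :
    FF f p ≤ FF g p := by
  rw [h.eq, h.eq]
  exact Finset.sum_le_sum fun i hi => mul_le_mul_of_nonneg_right
    (hfg i (Finset.mem_range.1 hi)) (h.nn p hp i (Finset.mem_range.1 hi))

theorem Lf.sum {Λ : Type*} [Fintype Λ] (h : Lf FF N ft) (c : Λ → ℝ) (f : Λ → ℕ → ℝ) (p : Pt) :
    FF (fun i => ∑ m, c m * f m i) p = ∑ m, c m * FF (f m) p := by
  simp only [h.eq, Finset.mul_sum, Finset.sum_mul]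
  rw [Finset.sum_comm]
  exact Finset.sum_congr rfl fun m _ => Finset.sum_congr rfl fun i _ => by ring

theorem Lf.neg (h : Lf FF N ft) (f : ℕ → ℝ) (p : Pt) : FF (fun i => -f i) p = -FF f p := by
  rw [h.eq, h.eq, ← Finset.sum_neg_distrib]
  exact Finset.sum_congr rfl fun i _ => by ring

theorem Lf.deriv (h : Lf FF N ft) {f f' : ℝ → ℕ → ℝ} {r : ℝ} {p : Pt}
    (hf : ∀ i < N, HasDerivAt (fun r => f r i) (f' r i) r) :
    HasDerivAt (fun r => FF (f r) p) (FF (f' r) p) r := by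
  have e : (fun r => FF (f r) p) = fun r => ∑ i ∈ Finset.range N, f r i * ft i p :=
    funext fun r => h.eq _ _
  rw [e, h.eq]
  exact HasDerivAt.fun_sum fun i hi => (hf i (Finset.mem_range.1 hi)).mul_const _

end

/-! ### tables of one function of time -/

/-- a table: slopes (`-f'` is linear between the nodes), upper node values, used values -/
structure Tq where
  s : ℕ → ℝ
  w : ℕ → ℝ
  u : ℕ → ℝ

/-- the function of the table -/
noncomputable def Tq.f (t : ℕ → ℝ) (n : ℕ) (a : Tq) (r : ℝ) : ℝ := qt t a.s n (a.w n) r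

/-- the slope -/
noncomputable def Tq.sl (t : ℕ → ℝ) (n : ℕ) (a : Tq) (r : ℝ) : ℝ := pl t a.s n r

/-- the used function -/
noncomputable def Tq.up (t : ℕ → ℝ) (n : ℕ) (a : Tq) (r : ℝ) : ℝ := pl t a.u n r

/-- the checks of a table -/
structure Tq.Ok (t : ℕ → ℝ) (n : ℕ) (a : Tq) : Prop where
  w : ∀ j < n, a.w (j + 1) + (t (j + 1) - t j) * (a.s j + a.s (j + 1)) / 2 ≤ a.w j
  u0 : ∀ j < n, a.w j ≤ a.u j
  u1 : ∀ j < n, a.w (j + 1) ≤ a.u (j + 1)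
  g0 : ∀ j < n, (t (j + 1) - t j) * (a.s (j + 1) - a.s j) ≤ 8 * (a.u j - a.w j)
  g1 : ∀ j < n, (t (j + 1) - t j) * (a.s (j + 1) - a.s j) ≤ 8 * (a.u (j + 1) - a.w (j + 1))

section

variable {t : ℕ → ℝ} {n : ℕ} {a : Tq}

theorem Tq.deriv (t : ℕ → ℝ) (n : ℕ) (a : Tq) (r : ℝ) : HasDerivAt (a.f t n) (-a.sl t n r) r :=
  qt_deriv t a.s n (a.w n) r

theorem Tq.cont (t : ℕ → ℝ) (n : ℕ) (a : Tq) : Continuous (a.f t n) := qt_cont t a.s n (a.w n)

theorem Tq.end' (t : ℕ → ℝ) (n : ℕ) (a : Tq) : a.f t n (t n) = a.w n := qt_end t a.s n (a.w n)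

/-- **the function is at most the used one** -/
theorem Tq.Ok.le (h : a.Ok t n) (hm : Msh t n) (hn : 0 < n) {r : ℝ}
    (hr : r ∈ Icc (t 0) (t n)) : a.f t n r ≤ a.up t n r := by
  obtain ⟨j, hj, hj2⟩ := hm.stepc hn hr
  have c0 := stc_nonneg hm hj hj2
  have c1 := stc_le_one hm hj hj2
  have a0 := h.u0 j hj
  have a1 := h.u1 j hj
  have g0 : 0 ≤ min (a.u j - a.w j) (a.u (j + 1) - a.w (j + 1)) :=
    le_min (by linarith) (by linarith)
  have hw : UpN t a.s a.w n (a.w n) := ⟨le_rfl, h.w⟩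
  have h1 := qt_up hm hw hj hj2 g0 (by
    rcases min_choice (a.u j - a.w j) (a.u (j + 1) - a.w (j + 1)) with e | e
    · rw [e]
      exact h.g0 j hj
    · rw [e]
      exact h.g1 j hj)
  have m0 := min_le_left (a.u j - a.w j) (a.u (j + 1) - a.w (j + 1))
  have m1 := min_le_right (a.u j - a.w j) (a.u (j + 1) - a.w (j + 1))
  show qt t a.s n (a.w n) r ≤ pl t a.u n r
  rw [pl_stc hm hj hj2]
  refine h1.trans ?_
  exact add_le_add (mul_le_mul_of_nonneg_left (by linarith) (by linarith))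
    (mul_le_mul_of_nonneg_left (by linarith) c0)

/-- a sufficient condition for a function with a derivative of one sign -/
theorem nonneg_of_slope {f f' : ℝ → ℝ} {a b : ℝ} (hd : ∀ r, HasDerivAt f (-f' r) r)
    (h0 : ∀ r ∈ Icc a b, 0 ≤ f' r) (he : 0 ≤ f b) : ∀ r ∈ Icc a b, 0 ≤ f r := by
  intro r hr
  have anti : AntitoneOn f (Icc a b) := by
    refine antitoneOn_of_deriv_nonpos (convex_Icc a b)
      (fun r _ => (hd r).continuousAt.continuousWithinAt)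
      (fun r _ => (hd r).differentiableAt.differentiableWithinAt) fun r hr => ?_
    rw [(hd r).deriv]
    have := h0 r (interior_subset hr)
    linarith
  exact he.trans (anti hr ⟨hr.1.trans hr.2, le_rfl⟩ hr.2)

end

/-! ### the checks are antitone in the row functions -/

section

variable {Λ : Type*} [Fintype Λ] {R : ℝ → ℝ} {Rp : ℝ} {W : Pt → ℝ} {Wp : ℝ → ℝ} {Nr : Pt → ℝ}
  {Np : ℝ → ℝ} {wv : Λ → Pt → ℝ} {Φ Φu Φ' Ψ : Bool → Λ → Pt → ℝ}
  {C Cu C' Cψ : Bool → Λ → ℝ} {Gp Gm : Λ → Λ → ℝ}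

/-- smaller row functions -/
theorem C12.anti (h : C12 R Rp W Wp Nr Np wv Φu Φ' Ψ Cu C' Cψ Gp Gm)
    (hΦ : ∀ s l, ∀ (p : Pt) (x a b : ℝ), p.Sat x a b → Φ s l p ≤ Φu s l p)
    (hC : ∀ s l, C s l ≤ Cu s l) (Gp0 : ∀ l m, 0 ≤ Gp l m) (Gm0 : ∀ l m, 0 ≤ Gm l m) :
    C12 R Rp W Wp Nr Np wv Φ Φ' Ψ C C' Cψ Gp Gm where
  vp := fun l p x a b hp => by
    obtain ⟨c, h1, h2⟩ := h.vp l p x a b hp
    refine ⟨c, h1, le_trans (add_le_add le_rfl (Finset.sum_le_sum fun m _ => ?_)) h2⟩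
    exact add_le_add (mul_le_mul_of_nonneg_left (hΦ _ _ p x a b hp) (Gp0 l m))
      (mul_le_mul_of_nonneg_left (hΦ _ _ p x a b hp) (Gm0 l m))
  vm := fun l p x a b hp => by
    obtain ⟨c, h1, h2⟩ := h.vm l p x a b hp
    refine ⟨c, h1, le_trans (add_le_add le_rfl (Finset.sum_le_sum fun m _ => ?_)) h2⟩
    exact add_le_add (mul_le_mul_of_nonneg_left (hΦ _ _ p x a b hp) (Gp0 l m))
      (mul_le_mul_of_nonneg_left (hΦ _ _ p x a b hp) (Gm0 l m))
  pp := h.pp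
  pm := h.pm
  dp := fun l => by
    obtain ⟨d, h1, h2⟩ := h.dp l
    refine ⟨d, h1, le_trans (add_le_add le_rfl (Finset.sum_le_sum fun m _ => ?_)) h2⟩
    exact add_le_add (mul_le_mul_of_nonneg_left (hC _ _) (Gp0 l m))
      (mul_le_mul_of_nonneg_left (hC _ _) (Gm0 l m))
  dm := fun l => by
    obtain ⟨d, h1, h2⟩ := h.dm l
    refine ⟨d, h1, le_trans (add_le_add le_rfl (Finset.sum_le_sum fun m _ => ?_)) h2⟩
    exact add_le_add (mul_le_mul_of_nonneg_left (hC _ _) (Gp0 l m))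
      (mul_le_mul_of_nonneg_left (hC _ _) (Gm0 l m))
  qp := h.qp
  qm := h.qm

end

/-! ### the data over time -/

/-- the tables of level 1/2; all functions of the table time -/
structure T12 (Λ : Type*) where
  R : ℝ → ℝ → ℝ
  Rp : ℝ → ℝ
  W : ℝ → Pt → ℝ
  Wp : ℝ → ℝ → ℝ
  Nr : ℝ → Pt → ℝ
  Np : ℝ → ℝ → ℝ
  wv : Λ → Pt → ℝ
  /-- the tables of the coefficients of the row functions -/
  a : Bool → Λ → ℕ → Tq
  Ψ : Bool → Λ → ℝ → Pt → ℝ
  /-- the tables of the pendant vertices -/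
  c : Bool → Λ → Tq
  Cψ : Bool → Λ → ℝ → ℝ
  Gp : Λ → Λ → ℝ → ℝ
  Gm : Λ → Λ → ℝ → ℝ

/-- the checks of the tables; `[ρ0, t n]` the times which are used -/
structure T12.Ok {Λ : Type*} [Fintype Λ] (FF : (ℕ → ℝ) → Pt → ℝ) (N : ℕ) (t : ℕ → ℝ) (n : ℕ)
    (d : T12 Λ) : Prop where
  a : ∀ s l, ∀ i < N, (d.a s l i).Ok t n
  c : ∀ s l, (d.c s l).Ok t n
  /-- the checks of level 1/2 with the used values -/
  C : ∀ ρ ∈ Icc (t 0) (t n), C12 (d.R ρ) (d.Rp ρ) (d.W ρ) (d.Wp ρ) (d.Nr ρ) (d.Np ρ) d.wv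
    (fun s l => FF fun i => (d.a s l i).up t n ρ)
    (fun s l p => -FF (fun i => (d.a s l i).sl t n ρ) p) (fun s l => d.Ψ s l ρ)
    (fun s l => (d.c s l).up t n ρ) (fun s l => -(d.c s l).sl t n ρ) (fun s l => d.Cψ s l ρ)
    (fun l m => d.Gp l m ρ) (fun l m => d.Gm l m ρ)
  /-- signs -/
  s0 : ∀ s l, ∀ ρ ∈ Icc (t 0) (t n), ∀ (p : Pt) (x a b : ℝ), p.Sat x a b →
    0 ≤ FF (fun i => (d.a s l i).sl t n ρ) p
  e0 : ∀ s l, ∀ (p : Pt) (x a b : ℝ), p.Sat x a b → 0 ≤ FF (fun i => (d.a s l i).w n) p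
  cs0 : ∀ s l, ∀ j ≤ n, 0 ≤ (d.c s l).s j
  ce0 : ∀ s l, 0 ≤ (d.c s l).w n
  Gp0 : ∀ l m, ∀ ρ ∈ Icc (t 0) (t n), 0 ≤ d.Gp l m ρ
  Gm0 : ∀ l m, ∀ ρ ∈ Icc (t 0) (t n), 0 ≤ d.Gm l m ρ
  wv0 : ∀ l, ∀ p : Pt, p.Ok → p = p.full → 0 ≤ d.wv l p
  /-- the functions used at the neighbours: convex combinations of the variants -/
  im : ∀ s l, ∀ ρ ∈ Icc (t 0) (t n), ∃ lam : Λ → ℝ, (∀ m, 0 ≤ lam m) ∧ ∑ m, lam m = 1 ∧
    (∀ m, lam m ≠ 0 → ∀ q : Pt, q.Ok → q = q.full → d.wv l q ≤ d.wv m q) ∧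
    ∀ (p : Pt) (x a b : ℝ), p.Sat x a b →
      ∑ m, lam m * FF (fun i => (d.a s m i).up t n ρ) p ≤ d.Ψ s l ρ p
  imp : ∀ s l, ∀ ρ ∈ Icc (t 0) (t n), ∃ lam : Λ → ℝ, (∀ m, 0 ≤ lam m) ∧ ∑ m, lam m = 1 ∧
    (∀ m, lam m ≠ 0 → ∀ q : Pt, q.Ok → q = q.full → d.wv l q ≤ d.wv m q) ∧
      ∑ m, lam m * (d.c s m).up t n ρ ≤ d.Cψ s l ρ

/-- the data of level 1/2 of the tables, shifted by `δ` -/
noncomputable def T12.dat {Λ : Type*} (FF : (ℕ → ℝ) → Pt → ℝ) (t : ℕ → ℝ) (n : ℕ) (d : T12 Λ)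
    (δ : ℝ) : D12 Λ where
  R := fun r => d.R (r + δ)
  Rp := fun r => d.Rp (r + δ)
  W := fun r => d.W (r + δ)
  Wp := fun r => d.Wp (r + δ)
  Nr := fun r => d.Nr (r + δ)
  Np := fun r => d.Np (r + δ)
  wv := d.wv
  Φ := fun s l r => FF fun i => (d.a s l i).f t n (r + δ)
  Φ' := fun s l r p => -FF (fun i => (d.a s l i).sl t n (r + δ)) p
  Ψ := fun s l r => d.Ψ s l (r + δ)
  C := fun s l r => (d.c s l).f t n (r + δ)
  C' := fun s l r => -(d.c s l).sl t n (r + δ)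
  Cψ := fun s l r => d.Cψ s l (r + δ)
  Gp := fun l m r => d.Gp l m (r + δ)
  Gm := fun l m r => d.Gm l m (r + δ)

/-- **the conditions of level 1/2 from the tables** -/
theorem T12.Ok.d12 {Λ : Type*} [Fintype Λ] {FF : (ℕ → ℝ) → Pt → ℝ} {N : ℕ} {ft : ℕ → Pt → ℝ}
    {t : ℕ → ℝ} {n : ℕ} {d : T12 Λ} (hF : Lf FF N ft) (h : d.Ok FF N t n) (hm : Msh t n)
    (hn : 0 < n) {δ τ : ℝ} (h0 : t 0 ≤ δ) (h1 : τ + δ ≤ t n) (S : Finset ℝ) :
    (d.dat FF t n δ).Ok τ S := by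
  have mem : ∀ r ∈ Icc 0 τ, r + δ ∈ Icc (t 0) (t n) := fun r hr =>
    ⟨by linarith [hr.1], by linarith [hr.2]⟩
  have ok : ∀ (p : Pt) (x a b : ℝ), p.Sat x a b → p.Ok := fun p x a b hp => hp.toOk
  have le : ∀ s l, ∀ ρ ∈ Icc (t 0) (t n), ∀ (p : Pt) (x a b : ℝ), p.Sat x a b →
      FF (fun i => (d.a s l i).f t n ρ) p ≤ FF (fun i => (d.a s l i).up t n ρ) p :=
    fun s l ρ hρ p x a b hp => hF.mono (ok p x a b hp) fun i hi => (h.a s l i hi).le hm hn hρ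
  have lec : ∀ s l, ∀ ρ ∈ Icc (t 0) (t n), (d.c s l).f t n ρ ≤ (d.c s l).up t n ρ :=
    fun s l ρ hρ => (h.c s l).le hm hn hρ
  have dΦ : ∀ s l (p : Pt) (r : ℝ), HasDerivAt (fun r => FF (fun i => (d.a s l i).f t n r) p)
      (-FF (fun i => (d.a s l i).sl t n r) p) r := fun s l p r => by
    rw [← hF.neg]
    exact hF.deriv (f' := fun r i => -(d.a s l i).sl t n r) fun i _ => Tq.deriv t n _ r
  have sh : ∀ {f : ℝ → ℝ} {f' : ℝ} {r : ℝ}, HasDerivAt f f' (r + δ) →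
      HasDerivAt (fun r => f (r + δ)) f' r := fun {f f' r} hf => by
    have := hf.comp r ((hasDerivAt_id r).add_const δ)
    rwa [mul_one] at this
  exact {
    c := fun r hr _ => (h.C (r + δ) (mem r hr)).anti
      (fun s l p x a b hp => le s l _ (mem r hr) p x a b hp) (fun s l => lec s l _ (mem r hr))
      (fun l m => h.Gp0 l m _ (mem r hr)) fun l m => h.Gm0 l m _ (mem r hr)
    Φc := fun s l p _ _ _ _ r _ => (sh (dΦ s l p (r + δ))).continuousAt.continuousWithinAt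
    Φd := fun s l p _ _ _ _ r _ _ => sh (dΦ s l p (r + δ))
    Φ0 := fun s l p x a b hp r hr => by
      refine nonneg_of_slope (f := fun r => FF (fun i => (d.a s l i).f t n r) p)
        (f' := fun r => FF (fun i => (d.a s l i).sl t n r) p) (a := t 0) (b := t n)
        (fun r => dΦ s l p r) (fun r hr => h.s0 s l r hr p x a b hp) ?_ _ (mem r hr)
      have e : (fun i => (d.a s l i).f t n (t n)) = fun i => (d.a s l i).w n :=
        funext fun i => Tq.end' t n _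
      show 0 ≤ FF (fun i => (d.a s l i).f t n (t n)) p
      rw [e]
      exact h.e0 s l p x a b hp
    Cc := fun s l => ((d.c s l).cont t n |>.comp (continuous_id.add continuous_const)).continuousOn
    Cd := fun s l r _ _ => sh (Tq.deriv t n (d.c s l) (r + δ))
    C0 := fun s l r hr => qt_nonneg hm hn (h.ce0 s l) (h.cs0 s l) (mem r hr)
    Gp0 := fun l m r hr => h.Gp0 l m _ (mem r hr)
    Gm0 := fun l m r hr => h.Gm0 l m _ (mem r hr)
    wv0 := h.wv0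
    im := fun s l r hr _ p x a b hp => by
      obtain ⟨lam, l0, l1, l2, l3⟩ := h.im s l _ (mem r hr)
      obtain ⟨m, hm1, hm2⟩ := ex_le_cvx (φ := fun m => FF (fun i => (d.a s m i).up t n (r + δ)) p)
        l0 l1
      exact ⟨m, l2 m hm1, (le s m _ (mem r hr) p x a b hp).trans
        (hm2.trans (l3 p x a b hp))⟩
    imp := fun s l r hr _ => by
      obtain ⟨lam, l0, l1, l2, l3⟩ := h.imp s l _ (mem r hr)
      obtain ⟨m, hm1, hm2⟩ := ex_le_cvx (φ := fun m => (d.c s m).up t n (r + δ)) l0 l1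
      exact ⟨m, l2 m hm1, (lec s m _ (mem r hr)).trans (hm2.trans l3)⟩ }

end Pool.Agent.RZ.RCO
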