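import Pool.Agent.RZ.RCO.Fe3
import Pool.Agent.RZ.RCO.Gl5_2
import Pool.Agent.RZ.RCO.Gs2
import Pool.Agent.RZ.RCO.Gs3_1
import Pool.Agent.RZ.RCO.Gt1

/-! Families of tables and the rows of level 1/2 at table times (MP_73ccd0_lc). -/

namespace Pool.Agent.RZ.RCO

open Set Finset Pool.Agent.RZ.RCM

set_option linter.unusedSectionVars false

variable {V : Type*} [Fintype V] [DecidableEq V]

/-! ### families of tables -/

/-- tables of a family: `a` the coefficients of the forms, `c` the constants of the pendant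
vertices -/
structure TFam (J : Type*) where
  a : Bool → J → ℕ → Tq
  c : Bool → J → Tq

section tf

variable {J : Type*} {FF : (ℕ → ℝ) → Pt → ℝ} {N : ℕ} {ft : ℕ → Pt → ℝ} {t : ℕ → ℝ} {n : ℕ}

/-- the used functions -/
noncomputable def TFam.U (d : TFam J) (FF : (ℕ → ℝ) → Pt → ℝ) (t : ℕ → ℝ) (n : ℕ) (s : Bool)
    (j : J) (ρ : ℝ) (p : Pt) : ℝ := FF (fun i => (d.a s j i).up t n ρ) p

/-- the used constants -/
noncomputable def TFam.K (d : TFam J) (t : ℕ → ℝ) (n : ℕ) (s : Bool) (j : J) (ρ : ℝ) : ℝ :=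
  (d.c s j).up t n ρ

/-- the slopes -/
noncomputable def TFam.Sl (d : TFam J) (FF : (ℕ → ℝ) → Pt → ℝ) (t : ℕ → ℝ) (n : ℕ) (s : Bool)
    (j : J) (ρ : ℝ) (p : Pt) : ℝ := FF (fun i => (d.a s j i).sl t n ρ) p

/-- the slopes of the constants -/
noncomputable def TFam.Ks (d : TFam J) (t : ℕ → ℝ) (n : ℕ) (s : Bool) (j : J) (ρ : ℝ) : ℝ :=
  (d.c s j).sl t n ρ

/-- the family over time, shifted by `δ` -/
noncomputable def TFam.fam (d : TFam J) (FF : (ℕ → ℝ) → Pt → ℝ) (t : ℕ → ℝ) (n : ℕ) (δ : ℝ) :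
    Fam J where
  Φ := fun s j r => FF fun i => (d.a s j i).f t n (r + δ)
  Φ' := fun s j r p => -d.Sl FF t n s j (r + δ) p
  C := fun s j r => (d.c s j).f t n (r + δ)
  C' := fun s j r => -d.Ks t n s j (r + δ)

/-- the checks of the tables of a family -/
structure TFam.Ok (FF : (ℕ → ℝ) → Pt → ℝ) (N : ℕ) (t : ℕ → ℝ) (n : ℕ) (d : TFam J) : Prop where
  a : ∀ s j, ∀ i < N, (d.a s j i).Ok t n
  c : ∀ s j, (d.c s j).Ok t n
  s0 : ∀ s j, ∀ ρ ∈ Icc (t 0) (t n), ∀ p, Sa p → 0 ≤ d.Sl FF t n s j ρ p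
  e0 : ∀ s j p, Sa p → 0 ≤ FF (fun i => (d.a s j i).w n) p
  cs0 : ∀ s j, ∀ i ≤ n, 0 ≤ (d.c s j).s i
  ce0 : ∀ s j, 0 ≤ (d.c s j).w n

theorem Sa.ok {p : Pt} (h : Sa p) : p.Ok := by
  obtain ⟨y, a, b, hp⟩ := h
  exact hp.toOk

variable {d : TFam J}

theorem TFam.deriv (hF : Lf FF N ft) (s : Bool) (j : J) (p : Pt) (r : ℝ) :
    HasDerivAt (fun r => FF (fun i => (d.a s j i).f t n r) p) (-d.Sl FF t n s j r p) r := by
  have e : -d.Sl FF t n s j r p = FF (fun i => -(d.a s j i).sl t n r) p := (hF.neg _ _).symm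
  rw [e]
  exact hF.deriv (f' := fun r i => -(d.a s j i).sl t n r) fun i _ => Tq.deriv t n _ r

theorem shift_deriv {f : ℝ → ℝ} {f' r δ : ℝ} (hf : HasDerivAt f f' (r + δ)) :
    HasDerivAt (fun r => f (r + δ)) f' r := by
  have := hf.comp r ((hasDerivAt_id r).add_const δ)
  rwa [mul_one] at this

variable (h : d.Ok FF N t n) (hF : Lf FF N ft) (hm : Msh t n) (hn : 0 < n)

include h hm hn in
theorem TFam.Ok.kle (s : Bool) (j : J) {ρ : ℝ} (hρ : ρ ∈ Icc (t 0) (t n)) :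
    (d.c s j).f t n ρ ≤ d.K t n s j ρ := (h.c s j).le hm hn hρ

include h hm hn in
theorem TFam.Ok.k0 (s : Bool) (j : J) {ρ : ℝ} (hρ : ρ ∈ Icc (t 0) (t n)) :
    0 ≤ (d.c s j).f t n ρ := qt_nonneg hm hn (h.ce0 s j) (h.cs0 s j) hρ

include h hm hn in
theorem TFam.Ok.ks0 (s : Bool) (j : J) {ρ : ℝ} (hρ : ρ ∈ Icc (t 0) (t n)) :
    0 ≤ d.Ks t n s j ρ := pl_nonneg hm hn (h.cs0 s j) hρ

include h hm hn in
theorem TFam.Ok.kanti (s : Bool) (j : J) {ρ u : ℝ} (h0 : t 0 ≤ u) (hu : u ≤ ρ)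
    (h1 : ρ ≤ t n) : (d.c s j).f t n ρ ≤ (d.c s j).f t n u :=
  qt_anti hm hn (h.cs0 s j) ⟨h0, hu.trans h1⟩ ⟨h0.trans hu, h1⟩ hu

include h hF hm hn

theorem TFam.Ok.le (s : Bool) (j : J) {ρ : ℝ} (hρ : ρ ∈ Icc (t 0) (t n)) {p : Pt} (hp : Sa p) :
    FF (fun i => (d.a s j i).f t n ρ) p ≤ d.U FF t n s j ρ p :=
  hF.mono hp.ok fun i hi => (h.a s j i hi).le hm hn hρ

omit hm hn in
/-- the forms decrease in time -/
theorem TFam.Ok.anti (s : Bool) (j : J) {p : Pt} (hp : Sa p) {ρ u : ℝ} (h0 : t 0 ≤ u)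
    (hu : u ≤ ρ) (h1 : ρ ≤ t n) : FF (fun i => (d.a s j i).f t n ρ) p
      ≤ FF (fun i => (d.a s j i).f t n u) p := by
  have anti : AntitoneOn (fun r => FF (fun i => (d.a s j i).f t n r) p) (Icc (t 0) (t n)) := by
    refine antitoneOn_of_deriv_nonpos (convex_Icc _ _)
      (fun r _ => (TFam.deriv hF s j p r).continuousAt.continuousWithinAt)
      (fun r _ => (TFam.deriv hF s j p r).differentiableAt.differentiableWithinAt) fun r hr => ?_
    rw [(TFam.deriv hF s j p r).deriv]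
    have := h.s0 s j r (interior_subset hr) p hp
    linarith
  exact anti ⟨h0, hu.trans h1⟩ ⟨h0.trans hu, h1⟩ hu

theorem TFam.Ok.f0 (s : Bool) (j : J) {ρ : ℝ} (hρ : ρ ∈ Icc (t 0) (t n)) {p : Pt} (hp : Sa p) :
    0 ≤ FF (fun i => (d.a s j i).f t n ρ) p := by
  refine le_trans ?_ (h.anti hF s j hp hρ.1 hρ.2 le_rfl)
  have e : (fun i => (d.a s j i).f t n (t n)) = fun i => (d.a s j i).w n :=
    funext fun i => Tq.end' t n _
  rw [e]
  exact h.e0 s j p hp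

/-- **the regularity of a family of tables** -/
theorem TFam.Ok.fam {δ σ : ℝ} (h0 : t 0 ≤ δ) (h1 : σ + δ ≤ t n) (S : Finset ℝ) :
    (d.fam FF t n δ).Ok σ S := by
  have mem : ∀ r ∈ Icc 0 σ, r + δ ∈ Icc (t 0) (t n) := fun r hr =>
    ⟨by linarith [hr.1], by linarith [hr.2]⟩
  exact {
    cΦ := fun s j p r _ => (shift_deriv (TFam.deriv hF s j p (r + δ))).continuousAt
      |>.continuousWithinAt
    dΦ := fun s j p r _ _ => shift_deriv (TFam.deriv hF s j p (r + δ))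
    cC := fun s j =>
      ((d.c s j).cont t n |>.comp (continuous_id.add continuous_const)).continuousOn
    dC := fun s j r _ _ => shift_deriv (Tq.deriv t n (d.c s j) (r + δ))
    Φ0 := fun s j r hr p hp => h.f0 hF hm hn s j (mem r hr) hp
    C0 := fun s j r hr => h.k0 hm hn s j (mem r hr)
    C1 := fun s j r hr _ => by
      have := h.ks0 hm hn s j (mem r hr)
      show -d.Ks t n s j (r + δ) ≤ 0
      linarith }

end tf

/-! ### the rows of level 1/2 -/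

section rows

variable {Λ M : Type*} [Fintype Λ] {FF : (ℕ → ℝ) → Pt → ℝ} {N : ℕ} {ft : ℕ → Pt → ℝ}
  {t : ℕ → ℝ} {n : ℕ} {d : T12 Λ}

/-- the tables of the rows -/
def T12.tf (d : T12 Λ) : TFam Λ := ⟨d.a, d.c⟩

theorem T12.Ok.tf (h : d.Ok FF N t n) : d.tf.Ok FF N t n where
  a := h.a
  c := h.c
  s0 := fun s l ρ hρ p ⟨y, a, b, hp⟩ => h.s0 s l ρ hρ p y a b hp
  e0 := fun s l p ⟨y, a, b, hp⟩ => h.e0 s l p y a b hp
  cs0 := h.cs0
  ce0 := h.ce0

/-- **the bounds `B` of the rows with the weights `w1` at the table time `u`**: nonnegative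
combinations of the used functions -/
structure RwT (FF : (ℕ → ℝ) → Pt → ℝ) (t : ℕ → ℝ) (n : ℕ) (d : T12 Λ) (w1 : M → Pt → ℝ)
    (B : Bool → M → Pt → ℝ) (CB : Bool → M → ℝ) (u : ℝ) : Prop where
  im : ∀ s m, ∃ a : Λ → ℝ, (∀ l, 0 ≤ a l) ∧
    (∀ q : Pt, q.Ok → q = q.full → w1 m q ≤ ∑ l, a l * d.wv l q) ∧
    ∀ p, Sa p → ∑ l, a l * d.tf.U FF t n s l u p ≤ B s m p
  imp : ∀ s m, ∃ a : Λ → ℝ, (∀ l, 0 ≤ a l) ∧
    (∀ q : Pt, q.Ok → q = q.full → w1 m q ≤ ∑ l, a l * d.wv l q) ∧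
    ∑ l, a l * d.tf.K t n s l u ≤ CB s m

/-- the bound of a row: the least over the worlds -/
noncomputable def bfu (x : V → V → ℝ) (P : V → Prop) (D : Finset V) (B : Pt → ℝ) (C : ℝ) (v : V)
    (G : Finset V) : ℝ := infF x P D (fun _ : Unit => B) (fun _ => C) v G

theorem infP_unit (B : Pt → ℝ) (p : Pt) : infP (fun _ : Unit => B) p = B p :=
  le_antisymm (infP_le _ p ()) (Finset.le_inf' _ _ fun _ _ => le_rfl)

theorem infC_unit (C : ℝ) : infC (fun _ : Unit => C) = C :=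
  le_antisymm (infC_le _ ()) (Finset.le_inf' _ _ fun _ _ => le_rfl)

theorem fb_bfu {x : V → V → ℝ} {P : V → Prop} {D : Finset V} (hP : RCG.Ct.Wt x P 1) (hx : Wt x)
    (hD : D.card ≤ 2) {B : Pt → ℝ} {C : ℝ} (n0 : ∀ p, Sa p → 0 ≤ B p) (C0 : 0 ≤ C) :
    FB x P D (bfu x P D B C) B C := by
  have h := fb_inf (J := Unit) hP hx hD (Φ := fun _ => B) (C := fun _ => C) (fun _ => n0)
    fun _ => C0
  rw [infC_unit] at h
  exact h.mono (fun p _ => (infP_unit B p).le) hP hx hD le_rfl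

variable (h : d.Ok FF N t n) (hF : Lf FF N ft) (hm : Msh t n) (hn : 0 < n)

include h hF hm hn

theorem RwT.nonneg {w1 : M → Pt → ℝ} {B : Bool → M → Pt → ℝ} {CB : Bool → M → ℝ} {u : ℝ}
    (hw : RwT FF t n d w1 B CB u) (hu : u ∈ Icc (t 0) (t n)) (s : Bool) (m : M) :
    (∀ p, Sa p → 0 ≤ B s m p) ∧ 0 ≤ CB s m := by
  constructor
  · intro p hp
    obtain ⟨a, a0, -, h2⟩ := hw.im s m
    refine le_trans (Finset.sum_nonneg fun l _ => mul_nonneg (a0 l) ?_) (h2 p hp)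
    exact (h.tf.f0 hF hm hn s l hu hp).trans (h.tf.le hF hm hn s l hu hp)
  · obtain ⟨a, a0, -, h2⟩ := hw.imp s m
    refine le_trans (Finset.sum_nonneg fun l _ => mul_nonneg (a0 l) ?_) h2
    exact (h.tf.k0 hm hn s l hu).trans (h.tf.kle hm hn s l hu)

variable {x : V → V → ℝ} {P : V → Prop} {D : Finset V} {τ δ : ℝ} {A B' : ℝ → V → V → ℝ}
  {gp gm : Finset V → V → V → ℝ → ℝ}

/-- **rows with new weights**, at the table time `u ≤ r + δ` -/
theorem RwT.row {w1 : M → Pt → ℝ} {B : Bool → M → Pt → ℝ} {CB : Bool → M → ℝ} {u : ℝ}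
    (hw : RwT FF t n d w1 B CB u) (hP : RCG.Ct.Wt x P 1) (hx : Wt x) (hD : D.card ≤ 2)
    {s : Bool} {g : Finset V → V → V → ℝ} {r : ℝ} (g0 : ∀ F i j, 0 ≤ g F i j)
    (hg : ∀ l : Λ × Option V, ∀ i ∈ Dᶜ, ∀ F ⊆ Dᶜ, i ∉ F →
      ∑ j ∈ F, d.wv l.1 (fp x D j) * g (F.erase j) i j
        ≤ vf x P D (FF fun k => (d.a s l.1 k).f t n (r + δ)) ((d.c s l.1).f t n (r + δ)) i
          (wd D l.2 i F))
    (h0 : t 0 ≤ u) (hu : u ≤ r + δ) (h1 : r + δ ≤ t n) (m : M) {i : V} (hi : i ∈ Dᶜ)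
    {F : Finset V} (hFD : F ⊆ Dᶜ) (hiF : i ∉ F) :
    ∑ j ∈ F, w1 m (fp x D j) * g (F.erase j) i j ≤ bfu x P D (B s m) (CB s m) i F := by
  have ok : ∀ v ∈ Dᶜ, (fp x D v).Ok := fun v hv =>
    pt_ok hx hD (erase_sub D v) hv (Finset.notMem_erase v _)
  have mu : u ∈ Icc (t 0) (t n) := ⟨h0, hu.trans h1⟩
  have key : ∀ (a : Λ → ℝ), (∀ l, 0 ≤ a l) →
      (∀ q : Pt, q.Ok → q = q.full → w1 m q ≤ ∑ l, a l * d.wv l q) → ∀ o : Option V,
      ∑ j ∈ F, w1 m (fp x D j) * g (F.erase j) i j ≤ ∑ l, a l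
        * vf x P D (FF fun k => (d.a s l k).f t n (r + δ)) ((d.c s l).f t n (r + δ)) i
          (wd D o i F) := fun a a0 hw o => by
    have e1 : ∑ l, a l * ∑ j ∈ F, d.wv l (fp x D j) * g (F.erase j) i j
        = ∑ j ∈ F, (∑ l, a l * d.wv l (fp x D j)) * g (F.erase j) i j := by
      simp only [Finset.mul_sum, Finset.sum_mul]
      rw [Finset.sum_comm]
      exact Finset.sum_congr rfl fun j _ => Finset.sum_congr rfl fun l _ => by ring
    refine le_trans ?_ (Finset.sum_le_sum fun l _ =>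
      mul_le_mul_of_nonneg_left (hg (l, o) i hi F hFD hiF) (a0 l))
    rw [e1]
    exact Finset.sum_le_sum fun j hj =>
      mul_le_mul_of_nonneg_right (hw _ (ok j (hFD hj)) rfl) (g0 _ _ _)
  refine le_infF fun _ o => ?_
  by_cases hPi : P i
  · have hs := wd_sat hP hx hD o hi hPi F
    obtain ⟨a, a0, a1, a2⟩ := hw.im s m
    refine (key a a0 a1 o).trans ?_
    rw [vf_l hPi]
    refine le_trans (Finset.sum_le_sum fun l _ => ?_) (a2 _ hs)
    rw [vf_l hPi]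
    exact mul_le_mul_of_nonneg_left ((h.tf.anti hF s l hs h0 hu h1).trans
      (h.tf.le hF hm hn s l mu hs)) (a0 l)
  · obtain ⟨a, a0, a1, a2⟩ := hw.imp s m
    refine (key a a0 a1 o).trans ?_
    rw [vf_p hPi]
    refine le_trans (Finset.sum_le_sum (g := fun l => a l * d.tf.K t n s l u
      * fm x (wd D o i F) i) fun l _ => ?_) ?_
    · rw [vf_p hPi, mul_assoc]
      exact mul_le_mul_of_nonneg_left (mul_le_mul_of_nonneg_right
        ((h.tf.kanti hm hn s l h0 hu h1).trans (h.tf.kle hm hn s l mu))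
        (fm_nonneg hx.nn _ i)) (a0 l)
    · rw [← Finset.sum_mul]
      exact mul_le_mul_of_nonneg_right a2 (fm_nonneg hx.nn _ i)

/-- the rows of level 1/2 in the form used above -/
theorem row_of_rows (hr : ((d.dat FF t n δ).r12 x P D A B').Rows Dᶜ τ gp gm) {r : ℝ}
    (hrτ : r ∈ Icc 0 τ) (l : Λ × Option V) {i : V} (hi : i ∈ Dᶜ) {F : Finset V} (hFD : F ⊆ Dᶜ)
    (hiF : i ∉ F) :
    ∑ j ∈ F, d.wv l.1 (fp x D j) * gp (F.erase j) i j r
        ≤ vf x P D (FF fun k => (d.a true l.1 k).f t n (r + δ)) ((d.c true l.1).f t n (r + δ)) i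
          (wd D l.2 i F) ∧
    ∑ j ∈ F, d.wv l.1 (fp x D j) * gm (F.erase j) i j r
        ≤ vf x P D (FF fun k => (d.a false l.1 k).f t n (r + δ)) ((d.c false l.1).f t n (r + δ)) i
          (wd D l.2 i F) :=
  ⟨hr.p l i hi F hFD hiF r hrτ, hr.m l i hi F hFD hiF r hrτ⟩

/-- **the rows with the weights `w1`** on `[0, σ]`, at the table times `r + δ'`, `δ' ≤ δ` -/
theorem RwT.rwB {T A B' : ℝ → V → V → ℝ} {gp' gm' : Finset V → V → V → ℝ → ℝ} {δ' σ : ℝ}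
    {w1 : M → Pt → ℝ} {B : Bool → M → ℝ → Pt → ℝ} {CB : Bool → M → ℝ → ℝ}
    (hP : RCG.Ct.Wt x P 1) (hx : Wt x) (hD : D.card ≤ 2)
    (hg : G12X Dᶜ τ T A B' gp gp' gm gm')
    (hr : ((d.dat FF t n δ).r12 x P D A B').Rows Dᶜ τ gp gm)
    (w10 : ∀ m, ∀ q : Pt, q.Ok → q = q.full → 0 ≤ w1 m q) (στ : σ ≤ τ) (h1 : τ + δ ≤ t n)
    (h0 : t 0 ≤ δ') (hδ : δ' ≤ δ)
    (hw : ∀ ρ ∈ Icc δ' (σ + δ'), RwT FF t n d w1 (fun s m => B s m ρ) (fun s m => CB s m ρ) ρ)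
    (S : Finset ℝ) :
    RwB x P D σ S gp gm w1
      (fun s m e F r => bfu x P D (B s m (r + δ')) (CB s m (r + δ')) e F)
      (fun s m r => B s m (r + δ')) (fun s m r => CB s m (r + δ')) := by
  have ok : ∀ v ∈ Dᶜ, (fp x D v).Ok := fun v hv =>
    pt_ok hx hD (erase_sub D v) hv (Finset.notMem_erase v _)
  have m1 : ∀ r ∈ Icc 0 σ, r ∈ Icc 0 τ := fun r hr => ⟨hr.1, hr.2.trans στ⟩
  have m2 : ∀ r ∈ Icc 0 σ, r + δ' ∈ Icc δ' (σ + δ') := fun r hr =>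
    ⟨by linarith [hr.1], by linarith [hr.2]⟩
  have m3 : ∀ r ∈ Icc 0 σ, r + δ ≤ t n := fun r hr => by linarith [(m1 r hr).2]
  exact {
    w0 := fun m v hv => w10 m _ (ok v hv) rfl
    rp := fun m e he F hFD heF r hrσ _ =>
      (hw _ (m2 r hrσ)).row h hF hm hn hP hx hD (s := true) (g := fun F i j => gp F i j r)
        (δ := δ) (fun F i j => hg.s.gp0 F i j r (m1 r hrσ))
        (fun l i hi F hFD hiF => (row_of_rows h hF hm hn hr (m1 r hrσ) l hi hFD hiF).1)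
        (by linarith [hrσ.1]) (by linarith) (m3 r hrσ) m he hFD heF
    rm := fun m e he F hFD heF r hrσ _ =>
      (hw _ (m2 r hrσ)).row h hF hm hn hP hx hD (s := false) (g := fun F i j => gm F i j r)
        (δ := δ) (fun F i j => hg.s.gm0 F i j r (m1 r hrσ))
        (fun l i hi F hFD hiF => (row_of_rows h hF hm hn hr (m1 r hrσ) l hi hFD hiF).2)
        (by linarith [hrσ.1]) (by linarith) (m3 r hrσ) m he hFD heF
    fb := fun s m r hrσ _ => by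
      have h3 : r + δ' ∈ Icc (t 0) (t n) :=
        ⟨by linarith [hrσ.1], by linarith [m3 r hrσ]⟩
      obtain ⟨n0, c0⟩ := (hw _ (m2 r hrσ)).nonneg h hF hm hn h3 s m
      exact fb_bfu hP hx hD n0 c0 }

/-- **the rows of the end values** at the time `ρ0`, bounds at the table time `u ≤ ρ0 + δ` -/
theorem RwT.rowE {T A B' : ℝ → V → V → ℝ} {gp' gm' : Finset V → V → V → ℝ → ℝ} {ρ0 u : ℝ}
    {w1 : M → Pt → ℝ} {B : Bool → M → Pt → ℝ} {CB : Bool → M → ℝ}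
    (hw : RwT FF t n d w1 B CB u)
    (hP : RCG.Ct.Wt x P 1) (hx : Wt x) (hD : D.card ≤ 2)
    (hg : G12X Dᶜ τ T A B' gp gp' gm gm')
    (hr : ((d.dat FF t n δ).r12 x P D A B').Rows Dᶜ τ gp gm) (hρ : ρ0 ∈ Icc 0 τ)
    (h1 : τ + δ ≤ t n) (h0 : t 0 ≤ u) (hu : u ≤ ρ0 + δ) :
    RowE Dᶜ (fun m _ j => w1 m (fp x D j)) (fun m => bfu x P D (B true m) (CB true m))
      (fun F i j => gp F i j ρ0) ∧
    RowE Dᶜ (fun m _ j => w1 m (fp x D j)) (fun m => bfu x P D (B false m) (CB false m))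
      (fun F i j => gm F i j ρ0) ∧
    ∀ s m, FB x P D (bfu x P D (B s m) (CB s m)) (B s m) (CB s m) := by
  have h3 : ρ0 + δ ≤ t n := by linarith [hρ.2]
  refine ⟨?_, ?_, fun s m => ?_⟩
  · exact {
      g0 := fun F i j => hg.s.gp0 F i j ρ0 hρ
      gs := fun F i j => hg.sp F i j ρ0 hρ
      mg := fun i F G e hG hv => hg.s.mp F G hG i e hv ρ0 hρ
      row := fun m i hi F hFD hiF => hw.row h hF hm hn hP hx hD (s := true)
        (g := fun F i j => gp F i j ρ0) (δ := δ) (fun F i j => hg.s.gp0 F i j ρ0 hρ)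
        (fun l i hi F hFD hiF => (row_of_rows h hF hm hn hr hρ l hi hFD hiF).1)
        h0 hu h3 m hi hFD hiF }
  · exact {
      g0 := fun F i j => hg.s.gm0 F i j ρ0 hρ
      gs := fun F i j => hg.sm F i j ρ0 hρ
      mg := fun i F G e hG hv => hg.s.mm F G hG i e hv ρ0 hρ
      row := fun m i hi F hFD hiF => hw.row h hF hm hn hP hx hD (s := false)
        (g := fun F i j => gm F i j ρ0) (δ := δ) (fun F i j => hg.s.gm0 F i j ρ0 hρ)
        (fun l i hi F hFD hiF => (row_of_rows h hF hm hn hr hρ l hi hFD hiF).2)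
        h0 hu h3 m hi hFD hiF }
  · obtain ⟨n0, c0⟩ := hw.nonneg h hF hm hn ⟨h0, hu.trans h3⟩ s m
    exact fb_bfu hP hx hD n0 c0

end rows

end Pool.Agent.RZ.RCO
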