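import Pool.Agent.RZ.RCO.Gs2

/-! The conditions of the position sums from checks at single times (MP_73ccd0_lc). -/

namespace Pool.Agent.RZ.RCO

open Set Finset Pool.Agent.RZ.RCM

set_option linter.unusedSectionVars false

variable {V : Type*} [Fintype V] [DecidableEq V]

/-! ### the checks -/

/-- **the checks of the position sums of level 1 at one time**: `w1` the weights, `B` the rows of
level 1/2 with these weights, `Θ m` bounds the removal sums of `w1 m`, `ν, δ` the rows of the end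
values of the lower and the upper function, `RD, RE` the kernels of the pairs and of the single
terms -/
structure CP1 {M : Type*} [Fintype M] (R : ℝ → ℝ) (Rp : ℝ) (W : Pt → ℝ) (Wp : ℝ → ℝ)
    (RD : ℝ → ℝ) (RDp : ℝ) (RE : ℝ → ℝ) (REp : ℝ) (w1 : M → Pt → ℝ) (B : Bool → M → Pt → ℝ)
    (CB : Bool → M → ℝ) (Θ : M → Pt → ℝ) (CΘ : M → ℝ) (ν δ : M → Pt → ℝ) (Cν Cδ : M → ℝ)
    (κD κE c1 c4 : ℝ) (Φ Φ' : Bool → M → Pt → ℝ) (C C' : Bool → M → ℝ)
    (Kn Kp Ke Km : M → M → ℝ) : Prop where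
  kn : ∀ m, ∀ p : Pt, p.Sat 0 0 0 → p = p.full → ∃ c : Ec, EL p.k p.H R Rp
    (fun q => W p.full * W q.full
      * (w1 m q.full + (B false m p + (B false m q + B false m q.full) / 2)))
    (fun q => W p.full * Wp q.M * (w1 m q.full + (B false m p + CB false m * q.M / 2))) c ∧
    sv c p ≤ ∑ m', Kn m m' * w1 m' p
  kp : ∀ m, ∀ p : Pt, p.Sat 0 0 0 → p = p.full → ∃ c : Ec, EL p.k p.H R Rp
    (fun q => W p.full * W q.full * (B true m p + (B true m q + B true m q.full) / 2))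
    (fun q => W p.full * Wp q.M * (B true m p + CB true m * q.M / 2)) c ∧
    sv c p ≤ ∑ m', Kp m m' * w1 m' p
  ke : ∀ m, ∀ p : Pt, p.Sat 0 0 0 → p = p.full → ∃ c : Ec, EL p.k p.H R Rp
    (fun q => W p.full * W q.full * w1 m q.full) (fun q => W p.full * Wp q.M * w1 m q.full) c ∧
    sv c p ≤ ∑ m', Ke m m' * w1 m' p
  km : ∀ m, ∀ p : Pt, p.Sat 0 0 0 → p = p.full → ∃ c : Ec, EL p.k p.H R Rp
    (fun q => W p.full * W q.full * (B false m p + (B false m q + B false m q.full) / 2))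
    (fun q => W p.full * Wp q.M * (B false m p + CB false m * q.M / 2)) c ∧
    sv c p ≤ ∑ m', Km m m' * w1 m' p
  qn : ∀ m, ∀ (p : Pt) (x : ℝ), p.Sat x 0 (x * p.k) → x * Rp * (Wp x * W p.full)
    * (w1 m p.full + (CB false m * x + (B false m p + B false m p.full)) / 2)
      ≤ ∑ m', Kn m m' * w1 m' (pnd x p)
  qp : ∀ m, ∀ (p : Pt) (x : ℝ), p.Sat x 0 (x * p.k) → x * Rp * (Wp x * W p.full)
    * ((CB true m * x + (B true m p + B true m p.full)) / 2) ≤ ∑ m', Kp m m' * w1 m' (pnd x p)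
  qe : ∀ m, ∀ (p : Pt) (x : ℝ), p.Sat x 0 (x * p.k) → x * Rp * (Wp x * W p.full)
    * w1 m p.full ≤ ∑ m', Ke m m' * w1 m' (pnd x p)
  qm : ∀ m, ∀ (p : Pt) (x : ℝ), p.Sat x 0 (x * p.k) → x * Rp * (Wp x * W p.full)
    * ((CB false m * x + (B false m p + B false m p.full)) / 2)
      ≤ ∑ m', Km m m' * w1 m' (pnd x p)
  tΘ : ∀ m, KLn R Rp (fun p q => W p.full * W q.full * w1 m q.full)
    (fun p q => W p.full * Wp q.M * w1 m q.full) (Θ m)
  oΘ : ∀ m, OLx Rp (fun x p => Wp x * W p.full * w1 m p.full) (CΘ m)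
  CΘ0 : ∀ m, 0 ≤ CΘ m
  vP : ∀ m p, Sa p → ∃ c : Ec, EL p.k p.H RD RDp (fun q => ∑ m', Kp m m' * w1 m' q.full)
    (fun q => ∑ m', Kp m m' * w1 m' q.full) c ∧
    sv c p + ∑ m', (Kn m m' * (ν m' p + Φ false m' p)
      + Kp m m' * (κD * δ m' p + c4 * Φ true m' p)) ≤ -Φ' true m p
  vQ : ∀ m p, Sa p → ∃ c : Ec, EG p.k p.H
    (fun x q => RE x * Θ m q + RD x * ∑ m', Km m m' * w1 m' q.full)
    (fun _ q => RDp * ∑ m', Km m m' * w1 m' q.full) c ∧
    sv c p + ∑ m', (Ke m m' * (κE * δ m' p + c1 * Φ true m' p)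
      + (Kp m m' * (ν m' p + Φ false m' p) + Km m m' * (κD * δ m' p + c4 * Φ true m' p)))
      ≤ -Φ' false m p
  oP : ∀ m, ∃ d, 0 ≤ d ∧ OLx RDp (fun _ p => ∑ m', Kp m m' * w1 m' p.full) d ∧
    d + ∑ m', (Kn m m' * (Cν m' + C false m') + Kp m m' * (κD * Cδ m' + c4 * C true m'))
      ≤ -C' true m
  oQ : ∀ m, ∃ d, 0 ≤ d ∧ OLg (fun _ p => REp * Θ m p + RDp * ∑ m', Km m m' * w1 m' p.full) d ∧
    d + ∑ m', (Ke m m' * (κE * Cδ m' + c1 * C true m')
      + (Kp m m' * (Cν m' + C false m') + Km m m' * (κD * Cδ m' + c4 * C true m')))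
      ≤ -C' false m

/-! ### one vertex -/

section one

variable {x : V → V → ℝ} {D F : Finset V} {c v e : V} {P : V → Prop} {hb T : V → V → ℝ}
  {R : ℝ → ℝ} {Rp : ℝ} {W : Pt → ℝ} {Wp : ℝ → ℝ} {M : Type*} [Fintype M]

/-- **the removal sum and the position of a family**, general weights -/
theorem posw_fb (hP : RCG.Ct.Wt x P 1) (hx : Wt x) (hD : D.card ≤ 2) (kr : Krn x P hb R Rp)
    (tb : TBd x P D hb T W Wp) {ψ : V → Finset V → ℝ} {Ψ : Pt → ℝ} {cc : ℝ}
    (hψ : FB x P D ψ Ψ cc) {w : Pt → ℝ} {w1 : M → Pt → ℝ} {G1 : M → ℝ}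
    (hw : ∀ v ∈ Dᶜ, 0 ≤ w (fp x D v)) (w0 : ∀ m, ∀ v ∈ Dᶜ, 0 ≤ w1 m (fp x D v))
    (g1 : ∀ m, 0 ≤ G1 m)
    (hp : ∀ p : Pt, p.Sat 0 0 0 → p = p.full → ∃ cE : Ec, EL p.k p.H R Rp
      (fun q => W p.full * W q.full * (w q.full + (Ψ p + (Ψ q + Ψ q.full) / 2)))
      (fun q => W p.full * Wp q.M * (w q.full + (Ψ p + cc * q.M / 2))) cE ∧
      sv cE p ≤ ∑ m, G1 m * w1 m p)
    (hq : ∀ (p : Pt) (x : ℝ), p.Sat x 0 (x * p.k) → x * Rp * (Wp x * W p.full)
      * (w p.full + (cc * x + (Ψ p + Ψ p.full)) / 2) ≤ ∑ m, G1 m * w1 m (pnd x p))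
    (hF : F ⊆ Dᶜ) (hv : v ∈ F) :
    ∑ j ∈ F.erase v, w (fp x D j) * T j v + KF T ψ F v ≤ ∑ m, G1 m * w1 m (fp x D v) := by
  by_cases hPv : P v
  · obtain ⟨cE, h1, h2⟩ := hp _ (sat_fp hP hx hD (hF hv) hPv) rfl
    exact hψ.pos_l hP hx hD kr tb hF hv hPv hw (Bd := fun p => ∑ m, G1 m * w1 m p)
      ⟨cE, h1, h2⟩
  · exact hψ.pos_o hP hx hD kr tb hF hv hPv hw (Bd := fun p => ∑ m, G1 m * w1 m p)
      (Finset.sum_nonneg fun m _ => mul_nonneg (g1 m) (w0 m v (hF hv))) hq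

theorem KF_zero (T : V → V → ℝ) (F : Finset V) (v : V) : KF T (fun _ _ => 0) F v = 0 := by
  unfold KF
  simp

/-- **the removal sum at a position** -/
theorem pos0_fb (hP : RCG.Ct.Wt x P 1) (hx : Wt x) (hD : D.card ≤ 2) (kr : Krn x P hb R Rp)
    (tb : TBd x P D hb T W Wp) {w : Pt → ℝ} {w1 : M → Pt → ℝ} {G1 : M → ℝ}
    (hw : ∀ v ∈ Dᶜ, 0 ≤ w (fp x D v)) (w0 : ∀ m, ∀ v ∈ Dᶜ, 0 ≤ w1 m (fp x D v))
    (g1 : ∀ m, 0 ≤ G1 m)
    (hp : ∀ p : Pt, p.Sat 0 0 0 → p = p.full → ∃ cE : Ec, EL p.k p.H R Rp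
      (fun q => W p.full * W q.full * w q.full) (fun q => W p.full * Wp q.M * w q.full) cE ∧
      sv cE p ≤ ∑ m, G1 m * w1 m p)
    (hq : ∀ (p : Pt) (x : ℝ), p.Sat x 0 (x * p.k) → x * Rp * (Wp x * W p.full)
      * w p.full ≤ ∑ m, G1 m * w1 m (pnd x p))
    (hF : F ⊆ Dᶜ) (hv : v ∈ F) :
    ∑ j ∈ F.erase v, w (fp x D j) * T j v ≤ ∑ m, G1 m * w1 m (fp x D v) := by
  have h := posw_fb hP hx hD kr tb (FB.zero x P D) hw w0 g1
    (fun p h1 h2 => by
      obtain ⟨cc, a, b⟩ := hp p h1 h2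
      refine ⟨cc, ?_, b⟩
      have e1 : (fun q : Pt => W p.full * W q.full
          * (w q.full + ((0 : ℝ) + ((0 : ℝ) + (0 : ℝ)) / 2)))
          = fun q => W p.full * W q.full * w q.full := by
        funext q; ring
      have e2 : (fun q : Pt => W p.full * Wp q.M
          * (w q.full + ((0 : ℝ) + (0 : ℝ) * q.M / 2)))
          = fun q => W p.full * Wp q.M * w q.full := by
        funext q; ring
      rw [e1, e2]
      exact a)
    (fun p y h1 => by
      refine le_trans (le_of_eq ?_) (hq p y h1)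
      ring) hF hv
  rw [KF_zero, add_zero] at h
  exact h

/-- the double sum over pairs of positions -/
theorem pos2_swap (w : V → ℝ) (T E : V → V → ℝ) (F : Finset V) (c : V) :
    ∑ e ∈ F, w e * ∑ b ∈ F.erase e, T e b * E c b
      = ∑ b ∈ F, E c b * ∑ e ∈ F.erase b, w e * T e b := by
  have h1 : ∀ e ∈ F, w e * ∑ b ∈ F.erase e, T e b * E c b
      = ∑ b ∈ F, if b ≠ e then w e * (T e b * E c b) else 0 := fun e _ => by
    rw [← Finset.sum_filter, Finset.mul_sum]
    refine Finset.sum_congr ?_ fun _ _ => rfl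
    ext b
    rw [Finset.mem_erase, Finset.mem_filter, and_comm]
  have h2 : ∀ b ∈ F, E c b * ∑ e ∈ F.erase b, w e * T e b
      = ∑ e ∈ F, if b ≠ e then w e * (T e b * E c b) else 0 := fun b _ => by
    rw [← Finset.sum_filter, Finset.mul_sum]
    refine Finset.sum_congr ?_ fun e _ => by ring
    ext e
    rw [Finset.mem_erase, Finset.mem_filter, and_comm, ne_comm]
  rw [Finset.sum_congr rfl h1, Finset.sum_congr rfl h2, Finset.sum_comm]

variable {RD RE : ℝ → ℝ} {RDp REp : ℝ} {w1 : M → Pt → ℝ} {B : Bool → M → Pt → ℝ}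
  {CB : Bool → M → ℝ} {Θ : M → Pt → ℝ} {CΘ : M → ℝ} {ν δ : M → Pt → ℝ} {Cν Cδ : M → ℝ}
  {κD κE c1 c4 : ℝ} {Φ Φ' : Bool → M → Pt → ℝ} {C C' : Bool → M → ℝ}
  {Kn Kp Ke Km : M → M → ℝ} {Dk Ek : V → V → ℝ} {νf δf : M → V → Finset V → ℝ}

variable (hP : RCG.Ct.Wt x P 1) (hx : Wt x) (hD : D.card ≤ 2)
  (krD : Krn x P Dk RD RDp) (krE : Krn x P Ek RE REp)
  (w0 : ∀ m, ∀ v ∈ Dᶜ, 0 ≤ w1 m (fp x D v))
  (fν : ∀ m, FB x P D (νf m) (ν m) (Cν m)) (fδ : ∀ m, FB x P D (δf m) (δ m) (Cδ m))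
  (Kn0 : ∀ m m', 0 ≤ Kn m m') (Kp0 : ∀ m m', 0 ≤ Kp m m') (Ke0 : ∀ m m', 0 ≤ Ke m m')
  (Km0 : ∀ m m', 0 ≤ Km m m') (κD0 : 0 ≤ κD) (κE0 : 0 ≤ κE)
  (ck : CP1 R Rp W Wp RD RDp RE REp w1 B CB Θ CΘ ν δ Cν Cδ κD κE c1 c4 Φ Φ' C C' Kn Kp Ke Km)

include hP hx hD krD w0 fν fδ Kn0 Kp0 κD0 ck

/-- **the upper position sums** -/
theorem cp1_sP (m : M) (o : Option V) (hc : c ∈ Dᶜ) (hF : F ⊆ Dᶜ) (hcF : c ∉ F) :
    ∑ m', (Kn m m' * (νf m' c F + vf x P D (Φ false m') (C false m') c (wd D o c F))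
      + Kp m m' * ((∑ e ∈ F, Dk c e * w1 m' (fp x D e) + κD * δf m' c F)
        + c4 * vf x P D (Φ true m') (C true m') c (wd D o c F)))
      ≤ -vf x P D (Φ' true m) (C' true m) c (wd D o c F) := by
  have hs : ∑ m', (Kn m m' * (νf m' c F + vf x P D (Φ false m') (C false m') c (wd D o c F))
      + Kp m m' * ((∑ e ∈ F, Dk c e * w1 m' (fp x D e) + κD * δf m' c F)
        + c4 * vf x P D (Φ true m') (C true m') c (wd D o c F)))
      = ∑ e ∈ F, Dk c e * (∑ m', Kp m m' * w1 m' (fp x D e))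
        + ∑ m', (Kn m m' * (νf m' c F + vf x P D (Φ false m') (C false m') c (wd D o c F))
      + Kp m m' * (κD * δf m' c F
        + c4 * vf x P D (Φ true m') (C true m') c (wd D o c F))) := by
    have e1 : ∑ e ∈ F, Dk c e * (∑ m', Kp m m' * w1 m' (fp x D e))
        = ∑ m', Kp m m' * ∑ e ∈ F, Dk c e * w1 m' (fp x D e) := by
      simp only [Finset.mul_sum]
      rw [Finset.sum_comm]
      exact Finset.sum_congr rfl fun m' _ => Finset.sum_congr rfl fun e _ => by ring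
    rw [e1, ← Finset.sum_add_distrib]
    exact Finset.sum_congr rfl fun m' _ => by ring
  rw [hs]
  have a0 : ∀ b ∈ Dᶜ, 0 ≤ ∑ m', Kp m m' * w1 m' (fp x D b) := fun b hb =>
    Finset.sum_nonneg fun m' _ => mul_nonneg (Kp0 m m') (w0 m' b hb)
  by_cases hPc : P c
  · have hsa := wd_sat hP hx hD o hc hPc F
    obtain ⟨cc, l1, l2⟩ := ck.vP m _ hsa
    have eH : (pt x D (wd D o c F) c).H = hk x D c := hk_eq hx D c
    rw [eH] at l1
    have t1 := FB.ksum_l hP hx hD krD l1 (sub_wd hF hcF o) (wd_sub D o c F) hc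
      (notMem_wd D o c F) hPc (g := fun e => ∑ m', Kp m m' * w1 m' (fp x D e))
      (fun b hb => a0 b (hF hb)) (fun b hb _ => le_rfl) (fun b hb _ _ => le_rfl)
      (fun b hb _ => a0 b (wd_sub D o c F hb)) fun b hb _ _ => a0 b (wd_sub D o c F hb)
    have t2 : ∑ m', (Kn m m' * (νf m' c F + vf x P D (Φ false m') (C false m') c (wd D o c F))
      + Kp m m' * (κD * δf m' c F
        + c4 * vf x P D (Φ true m') (C true m') c (wd D o c F)))
        ≤ ∑ m', (Kn m m' * (ν m' (pt x D (wd D o c F) c) + Φ false m' (pt x D (wd D o c F) c))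
      + Kp m m' * (κD * δ m' (pt x D (wd D o c F) c)
        + c4 * Φ true m' (pt x D (wd D o c F) c))) := by
      refine Finset.sum_le_sum fun m' _ => ?_
      rw [vf_l hPc, vf_l hPc]
      have b1 := (fν m').wd o hc hPc hF hcF
      have b2 := mul_le_mul_of_nonneg_left ((fδ m').wd o hc hPc hF hcF) κD0
      exact add_le_add (mul_le_mul_of_nonneg_left (by linarith) (Kn0 m m'))
        (mul_le_mul_of_nonneg_left (by linarith) (Kp0 m m'))
    rw [vf_l hPc]
    linarith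
  · obtain ⟨d, d0, l1, l2⟩ := ck.oP m
    have t1 := ksum_o hP hx hD krD l1 hF hc hcF hPc
      (g := fun e => ∑ m', Kp m m' * w1 m' (fp x D e)) (fun b hb => a0 b (hF hb))
      fun b hb _ _ => le_rfl
    have m1 := fm_mono (x := x) hx.nn (sub_wd hF hcF o) c
    have m0 := fm_nonneg hx.nn (wd D o c F) c
    have t2 := mul_le_mul_of_nonneg_left m1 d0
    have t3 : ∑ m', (Kn m m' * (νf m' c F + vf x P D (Φ false m') (C false m') c (wd D o c F))
      + Kp m m' * (κD * δf m' c F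
        + c4 * vf x P D (Φ true m') (C true m') c (wd D o c F)))
        ≤ (∑ m', (Kn m m' * (Cν m' + C false m')
          + Kp m m' * (κD * Cδ m' + c4 * C true m'))) * fm x (wd D o c F) c := by
      rw [Finset.sum_mul]
      refine Finset.sum_le_sum fun m' _ => ?_
      rw [vf_p hPc, vf_p hPc]
      have b1 := ((fν m').pe c hc hPc F hF hcF).trans (mul_le_mul_of_nonneg_left m1 (fν m').c0)
      have b2 := mul_le_mul_of_nonneg_left (((fδ m').pe c hc hPc F hF hcF).trans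
        (mul_le_mul_of_nonneg_left m1 (fδ m').c0)) κD0
      have g1 := mul_le_mul_of_nonneg_left b1 (Kn0 m m')
      have g2 := mul_le_mul_of_nonneg_left b2 (Kp0 m m')
      linarith
    have t4 := mul_le_mul_of_nonneg_right l2 m0
    rw [vf_p hPc]
    linarith

include Ke0 Km0 κE0 krE

/-- **the lower position sums** -/
theorem cp1_sQ {θf : M → V → Finset V → ℝ} (fθ : ∀ m, FB x P D (θf m) (Θ m) (CΘ m))
    (m : M) (o : Option V) (hc : c ∈ Dᶜ) (hF : F ⊆ Dᶜ) (hcF : c ∉ F) :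
    (∑ b ∈ F, Ek c b * θf m b (F.erase b) + κE * ∑ m', Ke m m' * δf m' c F)
      + ∑ m', (Ke m m' * (c1 * vf x P D (Φ true m') (C true m') c (wd D o c F))
      + (Kp m m' * (νf m' c F + vf x P D (Φ false m') (C false m') c (wd D o c F))
      + Km m m' * ((∑ e ∈ F, Dk c e * w1 m' (fp x D e) + κD * δf m' c F)
        + c4 * vf x P D (Φ true m') (C true m') c (wd D o c F))))
      ≤ -vf x P D (Φ' false m) (C' false m) c (wd D o c F) := by
  have hs : (∑ b ∈ F, Ek c b * θf m b (F.erase b) + κE * ∑ m', Ke m m' * δf m' c F)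
      + ∑ m', (Ke m m' * (c1 * vf x P D (Φ true m') (C true m') c (wd D o c F))
      + (Kp m m' * (νf m' c F + vf x P D (Φ false m') (C false m') c (wd D o c F))
      + Km m m' * ((∑ e ∈ F, Dk c e * w1 m' (fp x D e) + κD * δf m' c F)
        + c4 * vf x P D (Φ true m') (C true m') c (wd D o c F))))
      = ∑ b ∈ F, (Ek c b * θf m b (F.erase b)
          + Dk c b * (∑ m', Km m m' * w1 m' (fp x D b)))
        + ∑ m', (Ke m m' * (κE * δf m' c F
            + c1 * vf x P D (Φ true m') (C true m') c (wd D o c F))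
      + (Kp m m' * (νf m' c F + vf x P D (Φ false m') (C false m') c (wd D o c F))
      + Km m m' * (κD * δf m' c F
        + c4 * vf x P D (Φ true m') (C true m') c (wd D o c F)))) := by
    have e1 : ∑ e ∈ F, Dk c e * (∑ m', Km m m' * w1 m' (fp x D e))
        = ∑ m', Km m m' * ∑ e ∈ F, Dk c e * w1 m' (fp x D e) := by
      simp only [Finset.mul_sum]
      rw [Finset.sum_comm]
      exact Finset.sum_congr rfl fun m' _ => Finset.sum_congr rfl fun e _ => by ring
    rw [Finset.sum_add_distrib (f := fun b => Ek c b * θf m b (F.erase b)), e1, Finset.mul_sum,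
      add_assoc, add_assoc, ← Finset.sum_add_distrib, ← Finset.sum_add_distrib]
    exact congrArg₂ _ rfl (Finset.sum_congr rfl fun m' _ => by ring)
  rw [hs]
  have a0 : ∀ b ∈ Dᶜ, 0 ≤ ∑ m', Km m m' * w1 m' (fp x D b) := fun b hb =>
    Finset.sum_nonneg fun m' _ => mul_nonneg (Km0 m m') (w0 m' b hb)
  have θ0 : ∀ b ∈ F, 0 ≤ θf m b (F.erase b) := fun b hb => (fθ m).nn b (hF hb) _
    ((Finset.erase_subset _ _).trans hF) (Finset.notMem_erase _ _)
  by_cases hPc : P c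
  · have hsa := wd_sat hP hx hD o hc hPc F
    obtain ⟨cc, l1, l2⟩ := ck.vQ m _ hsa
    have eH : (pt x D (wd D o c F) c).H = hk x D c := hk_eq hx D c
    rw [eH] at l1
    have t1 : ∑ b ∈ F, (Ek c b * θf m b (F.erase b)
          + Dk c b * (∑ m', Km m m' * w1 m' (fp x D b))) ≤ sv cc (pt x D (wd D o c F) c) := by
      refine l1.sum hP hx hD (sub_wd hF hcF o) (wd_sub D o c F) hc (notMem_wd D o c F)
        (fun b hb hPb => ?_) (fun b hb hPb => ?_) (fun b hb hPb => ?_) fun b hb hPb => ?_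
      · have hcb : c ≠ b := fun h => hcF (h ▸ hb)
        have h1 := krE.mul_l hPc hPb ((fθ m).ex b (hF hb) hPb (F.erase b)
          ((Finset.erase_subset _ _).trans hF) (Finset.notMem_erase _ _) c hc
          (fun h => hcF (Finset.mem_of_mem_erase h)) hcb) (θ0 b hb)
        have h2 := krD.mul_l hPc hPb (le_refl (∑ m', Km m m' * w1 m' (fp x D b))) (a0 b (hF hb))
        refine (add_le_add h1 h2).trans (le_of_eq ?_)
        show _ = x c b * (RE (x c b) * Θ m (pt x D (wo D c b) b)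
          + RD (x c b) * ∑ m', Km m m' * w1 m' (fp x D b))
        ring
      · by_cases h0 : x c b = 0
        · rw [krE.z h0, krD.z h0, h0]
          simp
        · have h1 := (fθ m).pe b (hF hb) hPb (F.erase b) ((Finset.erase_subset _ _).trans hF)
            (Finset.notMem_erase _ _)
          rw [fm_pend0 hP hPb h0 (fun h => hcF (Finset.mem_of_mem_erase h)), mul_zero] at h1
          have h2 := krD.mul_p (u := c) (fun h => hPb h.2) (le_refl (∑ m', Km m m' * w1 m' (fp x D b)))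
            (a0 b (hF hb))
          have h3 : Ek c b * θf m b (F.erase b) ≤ 0 :=
            mul_nonpos_of_nonneg_of_nonpos (krE.b0 c b) h1
          refine (add_le_add h3 h2).trans (le_of_eq (zero_add _))
      · have hbD := wd_sub D o c F hb
        have hcb : c ≠ b := fun h => notMem_wd D o c F (h ▸ hb)
        have h1 := mul_nonneg ((krE.b0 c b).trans (krE.l c b hPc hPb))
          ((fθ m).nw hbD hPb hc hcb)
        have h2 := mul_nonneg ((krD.b0 c b).trans (krD.l c b hPc hPb)) (a0 b hbD)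
        refine (add_nonneg h1 h2).trans (le_of_eq ?_)
        show _ = x c b * (RE (x c b) * Θ m (pt x D (wo D c b) b)
          + RD (x c b) * ∑ m', Km m m' * w1 m' (fp x D b))
        ring
      · have hbD := wd_sub D o c F hb
        refine (mul_nonneg ((krD.b0 c b).trans (krD.p c b fun h => hPb h.2)) (a0 b hbD)).trans
          (le_of_eq ?_)
        show _ = x c b * (RDp * ∑ m', Km m m' * w1 m' (fp x D b))
        ring
    have t2 : ∑ m', (Ke m m' * (κE * δf m' c F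
            + c1 * vf x P D (Φ true m') (C true m') c (wd D o c F))
      + (Kp m m' * (νf m' c F + vf x P D (Φ false m') (C false m') c (wd D o c F))
      + Km m m' * (κD * δf m' c F
        + c4 * vf x P D (Φ true m') (C true m') c (wd D o c F))))
        ≤ ∑ m', (Ke m m' * (κE * δ m' (pt x D (wd D o c F) c)
            + c1 * Φ true m' (pt x D (wd D o c F) c))
      + (Kp m m' * (ν m' (pt x D (wd D o c F) c) + Φ false m' (pt x D (wd D o c F) c))
      + Km m m' * (κD * δ m' (pt x D (wd D o c F) c)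
        + c4 * Φ true m' (pt x D (wd D o c F) c)))) := by
      refine Finset.sum_le_sum fun m' _ => ?_
      rw [vf_l hPc, vf_l hPc]
      have b1 := (fν m').wd o hc hPc hF hcF
      have b2 := mul_le_mul_of_nonneg_left ((fδ m').wd o hc hPc hF hcF) κD0
      have b3 := mul_le_mul_of_nonneg_left ((fδ m').wd o hc hPc hF hcF) κE0
      exact add_le_add (mul_le_mul_of_nonneg_left (by linarith) (Ke0 m m'))
        (add_le_add (mul_le_mul_of_nonneg_left (by linarith) (Kp0 m m'))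
        (mul_le_mul_of_nonneg_left (by linarith) (Km0 m m')))
    rw [vf_l hPc]
    linarith
  · obtain ⟨d, d0, l1, l2⟩ := ck.oQ m
    have t1 : ∑ b ∈ F, (Ek c b * θf m b (F.erase b)
          + Dk c b * (∑ m', Km m m' * w1 m' (fp x D b))) ≤ d * fm x F c := by
      refine l1.sum hP hx hD hF hc hcF hPc (fun b hb h0 => ?_) fun b hb hPb h0 => ?_
      · rw [krE.z h0, krD.z h0]
        simp
      · have hcb : c ≠ b := fun h => hcF (h ▸ hb)
        have h1 := krE.mul_p (u := c) (w := b) (fun h => hPc h.1) ((fθ m).ex b (hF hb) hPb (F.erase b)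
          ((Finset.erase_subset _ _).trans hF) (Finset.notMem_erase _ _) c hc
          (fun h => hcF (Finset.mem_of_mem_erase h)) hcb) (θ0 b hb)
        have h2 := krD.mul_p (u := c) (w := b) (fun h => hPc h.1) (le_refl (∑ m', Km m m' * w1 m' (fp x D b)))
          (a0 b (hF hb))
        refine (add_le_add h1 h2).trans (le_of_eq ?_)
        show _ = x c b * (REp * Θ m (pt x D (wo D c b) b)
          + RDp * ∑ m', Km m m' * w1 m' (fp x D b))
        ring
    have m1 := fm_mono (x := x) hx.nn (sub_wd hF hcF o) c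
    have m0 := fm_nonneg hx.nn (wd D o c F) c
    have t2 := mul_le_mul_of_nonneg_left m1 d0
    have t3 : ∑ m', (Ke m m' * (κE * δf m' c F
            + c1 * vf x P D (Φ true m') (C true m') c (wd D o c F))
      + (Kp m m' * (νf m' c F + vf x P D (Φ false m') (C false m') c (wd D o c F))
      + Km m m' * (κD * δf m' c F
        + c4 * vf x P D (Φ true m') (C true m') c (wd D o c F))))
        ≤ (∑ m', (Ke m m' * (κE * Cδ m' + c1 * C true m')
          + (Kp m m' * (Cν m' + C false m') + Km m m' * (κD * Cδ m' + c4 * C true m'))))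
          * fm x (wd D o c F) c := by
      rw [Finset.sum_mul]
      refine Finset.sum_le_sum fun m' _ => ?_
      rw [vf_p hPc, vf_p hPc]
      have b1 := ((fν m').pe c hc hPc F hF hcF).trans (mul_le_mul_of_nonneg_left m1 (fν m').c0)
      have b2 := ((fδ m').pe c hc hPc F hF hcF).trans
        (mul_le_mul_of_nonneg_left m1 (fδ m').c0)
      have g1 := mul_le_mul_of_nonneg_left b1 (Kp0 m m')
      have g2 := mul_le_mul_of_nonneg_left (mul_le_mul_of_nonneg_left b2 κE0) (Ke0 m m')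
      have g3 := mul_le_mul_of_nonneg_left (mul_le_mul_of_nonneg_left b2 κD0) (Km0 m m')
      linarith
    have t4 := mul_le_mul_of_nonneg_right l2 m0
    rw [vf_p hPc]
    linarith

end one

/-! ### the position sums -/

/-- entries `a` between members with the same index of the world -/
def opK {M : Type*} (a : M → M → ℝ → ℝ) : M × Option V → M × Option V → V → Finset V → ℝ → ℝ :=
  fun l l' _ _ r => if l'.2 = l.2 then a l.1 l'.1 r else 0

theorem opK_nonneg {M : Type*} {a : M → M → ℝ → ℝ} {r : ℝ} (h : ∀ m m', 0 ≤ a m m' r)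
    (l l' : M × Option V) (c : V) (F : Finset V) : 0 ≤ opK a l l' c F r := by
  unfold opK
  split_ifs
  · exact h _ _
  · exact le_rfl

theorem opK_sum {M : Type*} [Fintype M] (a : M → M → ℝ → ℝ) (l : M × Option V) (c : V)
    (F : Finset V) (r : ℝ) (g : M × Option V → ℝ) :
    ∑ l', opK a l l' c F r * g l' = ∑ m, a l.1 m r * g (m, l.2) :=
  sum_opt (fun m => a l.1 m r) g l.2

section pf

variable {x : V → V → ℝ} {P : V → Prop} {D : Finset V} {τ : ℝ} {S : Finset ℝ} {hb T Dk Ek : ℝ → V → V → ℝ} {R RD RE : ℝ → ℝ → ℝ} {Rp RDp REp : ℝ → ℝ} {W : ℝ → Pt → ℝ} {Wp : ℝ → ℝ → ℝ} {gp gm N Dd Ee : Finset V → V → V → ℝ → ℝ} {c1 c4 κD κE : ℝ → ℝ} {M : Type*} [Fintype M] [Nonempty M] {w1 : M → Pt → ℝ} {bf : Bool → M → V → Finset V → ℝ → ℝ} {B : Bool → M → ℝ → Pt → ℝ} {CB : Bool → M → ℝ → ℝ} {Fe Ge : Finset V → V → V → ℝ} {νf δf : M → V → Finset V → ℝ} {ν δ : M → Pt → ℝ} {Cν Cδ : M → ℝ} {Θ : M → ℝ → Pt → ℝ} {CΘ : M → ℝ → ℝ} {Kn Kp Ke Km : M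 → M → ℝ → ℝ}

/-- the removal sums of a weight -/
def thf (x : V → V → ℝ) (D : Finset V) (T : ℝ → V → V → ℝ) (w1 : M → Pt → ℝ) (m : M) (b : V)
    (G : Finset V) (r : ℝ) : ℝ := ∑ e ∈ G, T r b e * w1 m (fp x D e)

end pf

end Pool.Agent.RZ.RCO
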