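import Pool.Agent.RZ.RCO.Gs3_2
import Pool.Agent.RZ.RCO.Gs4_1

/-! The bundles of level 1 from the checks of tables (MP_73ccd0_lc). -/

namespace Pool.Agent.RZ.RCO

open Set Finset Pool.Agent.RZ.RCM

set_option linter.unusedSectionVars false

variable {V : Type*} [Fintype V] [DecidableEq V]

/-! ### smaller functions -/

/-- the checks of the position sums are antitone in the functions -/
theorem CP1.anti {M : Type*} [Fintype M] {R : ℝ → ℝ} {Rp : ℝ} {W : Pt → ℝ} {Wp : ℝ → ℝ}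
    {RD : ℝ → ℝ} {RDp : ℝ} {RE : ℝ → ℝ} {REp : ℝ} {w1 : M → Pt → ℝ} {B : Bool → M → Pt → ℝ}
    {CB : Bool → M → ℝ} {Θ : M → Pt → ℝ} {CΘ : M → ℝ} {ν δ : M → Pt → ℝ} {Cν Cδ : M → ℝ}
    {κD κE c1 c4 : ℝ} {Φ Φu Φ' : Bool → M → Pt → ℝ} {C Cu C' : Bool → M → ℝ}
    {Kn Kp Ke Km : M → M → ℝ}
    (h : CP1 R Rp W Wp RD RDp RE REp w1 B CB Θ CΘ ν δ Cν Cδ κD κE c1 c4 Φu Φ' Cu C' Kn Kp Ke Km)
    (hΦ : ∀ s m p, Sa p → Φ s m p ≤ Φu s m p) (hC : ∀ s m, C s m ≤ Cu s m)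
    (Kn0 : ∀ m m', 0 ≤ Kn m m') (Kp0 : ∀ m m', 0 ≤ Kp m m') (Ke0 : ∀ m m', 0 ≤ Ke m m')
    (Km0 : ∀ m m', 0 ≤ Km m m') (c10 : 0 ≤ c1) (c40 : 0 ≤ c4) :
    CP1 R Rp W Wp RD RDp RE REp w1 B CB Θ CΘ ν δ Cν Cδ κD κE c1 c4 Φ Φ' C C' Kn Kp Ke Km where
  kn := h.kn
  kp := h.kp
  ke := h.ke
  km := h.km
  qn := h.qn
  qp := h.qp
  qe := h.qe
  qm := h.qm
  tΘ := h.tΘ
  oΘ := h.oΘ
  CΘ0 := h.CΘ0
  vP := fun m p hp => by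
    obtain ⟨c, h1, h2⟩ := h.vP m p hp
    refine ⟨c, h1, le_trans (add_le_add le_rfl (Finset.sum_le_sum fun m' _ => ?_)) h2⟩
    exact add_le_add (mul_le_mul_of_nonneg_left (add_le_add le_rfl (hΦ _ _ p hp)) (Kn0 m m'))
      (mul_le_mul_of_nonneg_left (add_le_add le_rfl
        (mul_le_mul_of_nonneg_left (hΦ _ _ p hp) c40)) (Kp0 m m'))
  vQ := fun m p hp => by
    obtain ⟨c, h1, h2⟩ := h.vQ m p hp
    refine ⟨c, h1, le_trans (add_le_add le_rfl (Finset.sum_le_sum fun m' _ => ?_)) h2⟩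
    exact add_le_add (mul_le_mul_of_nonneg_left (add_le_add le_rfl
        (mul_le_mul_of_nonneg_left (hΦ _ _ p hp) c10)) (Ke0 m m'))
      (add_le_add (mul_le_mul_of_nonneg_left (add_le_add le_rfl (hΦ _ _ p hp)) (Kp0 m m'))
      (mul_le_mul_of_nonneg_left (add_le_add le_rfl
        (mul_le_mul_of_nonneg_left (hΦ _ _ p hp) c40)) (Km0 m m')))
  oP := fun m => by
    obtain ⟨d, h0, h1, h2⟩ := h.oP m
    refine ⟨d, h0, h1, le_trans (add_le_add le_rfl (Finset.sum_le_sum fun m' _ => ?_)) h2⟩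
    exact add_le_add (mul_le_mul_of_nonneg_left (add_le_add le_rfl (hC _ _)) (Kn0 m m'))
      (mul_le_mul_of_nonneg_left (add_le_add le_rfl
        (mul_le_mul_of_nonneg_left (hC _ _) c40)) (Kp0 m m'))
  oQ := fun m => by
    obtain ⟨d, h0, h1, h2⟩ := h.oQ m
    refine ⟨d, h0, h1, le_trans (add_le_add le_rfl (Finset.sum_le_sum fun m' _ => ?_)) h2⟩
    exact add_le_add (mul_le_mul_of_nonneg_left (add_le_add le_rfl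
        (mul_le_mul_of_nonneg_left (hC _ _) c10)) (Ke0 m m'))
      (add_le_add (mul_le_mul_of_nonneg_left (add_le_add le_rfl (hC _ _)) (Kp0 m m'))
      (mul_le_mul_of_nonneg_left (add_le_add le_rfl
        (mul_le_mul_of_nonneg_left (hC _ _) c40)) (Km0 m m')))

/-- the minimum is at most a convex combination -/
theorem infP_le_cvx {J : Type*} [Fintype J] [Nonempty J] {Φ Φu : J → Pt → ℝ} {p : Pt}
    (h : ∀ j, Φ j p ≤ Φu j p) {lam : J → ℝ} (l0 : ∀ j, 0 ≤ lam j) (l1 : ∑ j, lam j = 1) :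
    infP Φ p ≤ ∑ j, lam j * Φu j p := by
  calc infP Φ p = ∑ j, lam j * infP Φ p := by rw [← Finset.sum_mul, l1, one_mul]
    _ ≤ _ := Finset.sum_le_sum fun j _ =>
      mul_le_mul_of_nonneg_left ((infP_le Φ p j).trans (h j)) (l0 j)

theorem infC_le_cvx {J : Type*} [Fintype J] [Nonempty J] {C Cu : J → ℝ} (h : ∀ j, C j ≤ Cu j)
    {lam : J → ℝ} (l0 : ∀ j, 0 ≤ lam j) (l1 : ∑ j, lam j = 1) :
    infC C ≤ ∑ j, lam j * Cu j := by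
  calc infC C = ∑ j, lam j * infC C := by rw [← Finset.sum_mul, l1, one_mul]
    _ ≤ _ := Finset.sum_le_sum fun j _ =>
      mul_le_mul_of_nonneg_left ((infC_le C j).trans (h j)) (l0 j)

/-! ### the kernels of the pair function and of the single terms -/

/-- the kernels over time; `Fe` the end values of the upper functions -/
structure KrE (x : V → V → ℝ) (P : V → Prop) (D : Finset V) (σ : ℝ) (S : Finset ℝ)
    (Fe : Finset V → V → V → ℝ) (Dd Ee : Finset V → V → V → ℝ → ℝ) (Dk Ek : ℝ → V → V → ℝ)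
    (RD RE : ℝ → ℝ → ℝ) (RDp REp κD κE : ℝ → ℝ) : Prop where
  krD : ∀ r ∈ Icc 0 σ, r ∉ S → Krn x P (Dk r) (RD r) (RDp r)
  krE : ∀ r ∈ Icc 0 σ, r ∉ S → Krn x P (Ek r) (RE r) (REp r)
  sD : ∀ r u v, Dk r u v = Dk r v u
  sE : ∀ r u v, Ek r u v = Ek r v u
  hD : ∀ r ∈ Icc 0 σ, r ∉ S → ∀ F c e, VP Dᶜ F c e → Dd F c e r ≤ Dk r c e + κD r * Fe F c e
  hE : ∀ r ∈ Icc 0 σ, r ∉ S → ∀ F c e, VP Dᶜ F c e → Ee F c e r ≤ Ek r c e + κE r * Fe F c e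
  κD0 : ∀ r ∈ Icc 0 σ, 0 ≤ κD r
  κE0 : ∀ r ∈ Icc 0 σ, 0 ≤ κE r

/-! ### the target sums with kernels -/

/-- the bound of the weighted sums of a kernel and of an end value -/
def kbf {A : Type*} (fw : A → V → ℝ) (K : ℝ → V → V → ℝ) (κ : ℝ → ℝ)
    (δf : A → V → Finset V → ℝ) (a : A) (e : V) (F : Finset V) (r : ℝ) : ℝ :=
  ∑ c ∈ F, K r e c * fw a c + κ r * δf a e F

section tg

variable {x : V → V → ℝ} {P : V → Prop} {D : Finset V} {σ : ℝ} {S : Finset ℝ}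
  {Fe Ge : Finset V → V → V → ℝ} {N Dd Ee : Finset V → V → V → ℝ → ℝ} {Dk Ek : ℝ → V → V → ℝ}
  {RD RE : ℝ → ℝ → ℝ} {RDp REp κD κE : ℝ → ℝ} {A : Type*} {fw : A → V → ℝ}
  {νf δf : A → V → Finset V → ℝ}

theorem kbf_le {K : ℝ → V → V → ℝ} {κ : ℝ → ℝ} {X : Finset V → V → V → ℝ → ℝ} {r : ℝ} {a : A}
    (κ0 : 0 ≤ κ r) (fw0 : ∀ c ∈ Dᶜ, 0 ≤ fw a c) (sK : ∀ u v, K r u v = K r v u)
    (hX : ∀ F c e, VP Dᶜ F c e → X F c e r ≤ K r c e + κ r * Fe F c e)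
    (hF1 : ∀ e ∈ Dᶜ, ∀ F ⊆ Dᶜ, e ∉ F → ∑ c ∈ F, fw a c * Fe (F.erase c) c e ≤ δf a e F)
    {e : V} (he : e ∈ Dᶜ) {F : Finset V} (hF : F ⊆ Dᶜ) (heF : e ∉ F) :
    ∑ c ∈ F, fw a c * X (F.erase c) c e r ≤ kbf fw K κ δf a e F r := by
  have h1 := mul_le_mul_of_nonneg_left (hF1 e he F hF heF) κ0
  refine le_trans ?_ (add_le_add le_rfl h1)
  rw [Finset.mul_sum, ← Finset.sum_add_distrib]
  refine Finset.sum_le_sum fun c hc => ?_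
  have h2 := mul_le_mul_of_nonneg_left (hX (F.erase c) c e
    ⟨(Finset.erase_subset _ _).trans hF, hF hc, he, Finset.notMem_erase _ _,
      fun h => heF (Finset.mem_of_mem_erase h), fun h => heF (h ▸ hc)⟩) (fw0 c (hF hc))
  refine h2.trans (le_of_eq ?_)
  rw [sK e c]
  ring

end tg

/-! ### one group of targets -/

/-- the conditions of one group of targets, `fw` the weights of the targets -/
structure GrpOk {J Λ : Type*} [Fintype J] [Nonempty J] [Fintype Λ] (x : V → V → ℝ)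
    (P : V → Prop) (D : Finset V) (σ : ℝ) (S : Finset ℝ) (R : ℝ → ℝ → ℝ) (Rp : ℝ → ℝ)
    (W : ℝ → Pt → ℝ) (Wp : ℝ → ℝ → ℝ) (N Dd Ee : Finset V → V → V → ℝ → ℝ) (c1 c4 : ℝ → ℝ)
    (wv : Λ → Pt → ℝ) (B : Bool → Λ → ℝ → Pt → ℝ) (CB : Bool → Λ → ℝ → ℝ) (fw : V → ℝ)
    (f : Fam J) (NB DB EB : V → Finset V → ℝ → ℝ) (Ψn Ψe Ψd : ℝ → Pt → ℝ) (Cn Ce Cd : ℝ → ℝ)
    (Gn Gd : J → Λ → ℝ → ℝ) : Prop where
  hf : f.Ok σ S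
  fw0 : ∀ c ∈ Dᶜ, 0 ≤ fw c
  hN : ∀ e ∈ Dᶜ, ∀ F ⊆ Dᶜ, e ∉ F → ∀ r ∈ Icc 0 σ, r ∉ S →
    ∑ c ∈ F, fw c * N (F.erase c) c e r ≤ NB e F r
  hD : ∀ e ∈ Dᶜ, ∀ F ⊆ Dᶜ, e ∉ F → ∀ r ∈ Icc 0 σ, r ∉ S →
    ∑ c ∈ F, fw c * Dd (F.erase c) c e r ≤ DB e F r
  hE : ∀ e ∈ Dᶜ, ∀ F ⊆ Dᶜ, e ∉ F → ∀ r ∈ Icc 0 σ, r ∉ S →
    ∑ c ∈ F, fw c * Ee (F.erase c) c e r ≤ EB e F r
  fn : ∀ r ∈ Icc 0 σ, r ∉ S → FB x P D
    (fun v G => NB v G r + f.n x P D false v G r) (Ψn r) (Cn r)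
  fe : ∀ r ∈ Icc 0 σ, r ∉ S → FB x P D
    (fun v G => EB v G r + c1 r * f.n x P D true v G r) (Ψe r) (Ce r)
  fd : ∀ r ∈ Icc 0 σ, r ∉ S → FB x P D
    (fun v G => DB v G r + c4 r * f.n x P D true v G r) (Ψd r) (Cd r)
  Gn0 : ∀ j m, ∀ r ∈ Icc 0 σ, 0 ≤ Gn j m r
  Gd0 : ∀ j m, ∀ r ∈ Icc 0 σ, 0 ≤ Gd j m r
  ck : ∀ r ∈ Icc 0 σ, r ∉ S → CT1 (R r) (Rp r) (W r) (Wp r) wv
    (fun s m => B s m r) (fun s m => CB s m r) (Ψn r) (Ψe r) (Ψd r) (Cn r) (Cd r)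
    (fun s j => f.Φ' s j r) (fun s j => f.C' s j r) (fun j m => Gn j m r)
    fun j m => Gd j m r

/-- **the conditions of the target sums from its groups** -/
theorem sctf_grp {x : V → V → ℝ} {P : V → Prop} {D : Finset V} {τ : ℝ} {S : Finset ℝ}
    {hb T : ℝ → V → V → ℝ} {R : ℝ → ℝ → ℝ} {Rp : ℝ → ℝ} {W : ℝ → Pt → ℝ} {Wp : ℝ → ℝ → ℝ}
    {gp gm N Dd Ee : Finset V → V → V → ℝ → ℝ} {c1 c4 : ℝ → ℝ} {Λ : Type*} [Fintype Λ]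
    {wv : Λ → Pt → ℝ} {bf : Bool → Λ → V → Finset V → ℝ → ℝ} {B : Bool → Λ → ℝ → Pt → ℝ}
    {CB : Bool → Λ → ℝ → ℝ} {A J : Type*} [Fintype J] [Nonempty J] {fw : A → V → ℝ}
    {f : A → Fam J} {NB DB EB : A → V → Finset V → ℝ → ℝ} {Ψn Ψe Ψd : A → ℝ → Pt → ℝ}
    {Cn Ce Cd : A → ℝ → ℝ} {Gn Gd : A → J → Λ → ℝ → ℝ}
    (env : WEnv x P D τ S hb T R Rp W Wp) (rw : RwB x P D τ S gp gm wv bf B CB)
    (h : ∀ a, GrpOk x P D τ S R Rp W Wp N Dd Ee c1 c4 wv B CB (fw a) (f a) (NB a) (DB a) (EB a)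
      (Ψn a) (Ψe a) (Ψd a) (Cn a) (Ce a) (Cd a) (Gn a) (Gd a)) :
    ScTF Dᶜ τ S T gp gm N Dd Ee c1 c4 (fun m _ y _ => wv m (fp x D y)) (bf true) (bf false)
      (tgπ x P D fw f NB DB EB) (fun l _ c _ => fw l.1 c) (fun _ _ _ _ => 0) (fun l => NB l.1)
      (fun l => DB l.1) (fun l => EB l.1) (fun l => (f l.1).v x P D true l.2)
      (fun l => (f l.1).v' x P D true l.2) (fun l => (f l.1).v x P D false l.2)
      (fun l => (f l.1).v' x P D false l.2)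
      (fun l m _ _ r => Gn l.1 l.2.1 m r) (fun l m _ _ r => Gd l.1 l.2.1 m r) :=
  sctf_of env rw (fun a => (h a).hf) (fun a => (h a).fw0) (fun a => (h a).hN)
    (fun a => (h a).hD) (fun a => (h a).hE) (fun a => (h a).fn) (fun a => (h a).fe)
    (fun a => (h a).fd) (fun a => (h a).Gn0) (fun a => (h a).Gd0) fun a => (h a).ck

/-! ### the data of a system over time -/

/-- the rates, the removal weights, the kernels and the scalars over time -/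
structure TEnv where
  R : ℝ → ℝ → ℝ
  Rp : ℝ → ℝ
  W : ℝ → Pt → ℝ
  Wp : ℝ → ℝ → ℝ
  RD : ℝ → ℝ → ℝ
  RDp : ℝ → ℝ
  RE : ℝ → ℝ → ℝ
  REp : ℝ → ℝ
  κD : ℝ → ℝ
  κE : ℝ → ℝ
  c1 : ℝ → ℝ
  c4 : ℝ → ℝ

/-- shifted by `δ` -/
def TEnv.shift (E : TEnv) (δ : ℝ) : TEnv where
  R := fun r => E.R (r + δ)
  Rp := fun r => E.Rp (r + δ)
  W := fun r => E.W (r + δ)
  Wp := fun r => E.Wp (r + δ)
  RD := fun r => E.RD (r + δ)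
  RDp := fun r => E.RDp (r + δ)
  RE := fun r => E.RE (r + δ)
  REp := fun r => E.REp (r + δ)
  κD := fun r => E.κD (r + δ)
  κE := fun r => E.κE (r + δ)
  c1 := fun r => E.c1 (r + δ)
  c4 := fun r => E.c4 (r + δ)

/-- the data of the target sums with the weight one; functions of the time -/
structure DT1 (J Λ : Type*) where
  f : Fam J
  /-- bounds of the sums of the kernels -/
  ΦD : ℝ → Pt → ℝ
  ΦE : ℝ → Pt → ℝ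
  CD : ℝ → ℝ
  CE : ℝ → ℝ
  /-- the functions used at the neighbours -/
  Ψn : ℝ → Pt → ℝ
  Ψe : ℝ → Pt → ℝ
  Ψd : ℝ → Pt → ℝ
  Cn : ℝ → ℝ
  Ce : ℝ → ℝ
  Cd : ℝ → ℝ
  Gn : J → Λ → ℝ → ℝ
  Gd : J → Λ → ℝ → ℝ

/-- **the conditions of the target sums with the weight one on `[0, σ]`** -/
structure DT1.Ok {J Λ : Type*} [Fintype J] [Nonempty J] [Fintype Λ] (σ : ℝ) (S : Finset ℝ)
    (E : TEnv) (wv : Λ → Pt → ℝ) (B : Bool → Λ → ℝ → Pt → ℝ) (CB : Bool → Λ → ℝ → ℝ)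
    (ν1 δ1 : Pt → ℝ) (Cν1 Cδ1 : ℝ) (d : DT1 J Λ) : Prop where
  f : d.f.Ok σ S
  kD : ∀ r ∈ Icc 0 σ, r ∉ S → KLn (E.RD r) (E.RDp r) (fun _ _ => 1) (fun _ _ => 1) (d.ΦD r)
  kE : ∀ r ∈ Icc 0 σ, r ∉ S → KLn (E.RE r) (E.REp r) (fun _ _ => 1) (fun _ _ => 1) (d.ΦE r)
  oD : ∀ r ∈ Icc 0 σ, r ∉ S → OLx (E.RDp r) (fun _ _ => 1) (d.CD r) ∧ 0 ≤ d.CD r
  oE : ∀ r ∈ Icc 0 σ, r ∉ S → OLx (E.REp r) (fun _ _ => 1) (d.CE r) ∧ 0 ≤ d.CE r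
  c10 : ∀ r ∈ Icc 0 σ, 0 ≤ E.c1 r
  c40 : ∀ r ∈ Icc 0 σ, 0 ≤ E.c4 r
  sn : ∀ r ∈ Icc 0 σ, r ∉ S → (∀ p, Sa p → ν1 p + d.f.p false r p ≤ d.Ψn r p) ∧
    Cν1 + d.f.c false r ≤ d.Cn r
  se : ∀ r ∈ Icc 0 σ, r ∉ S →
    (∀ p, Sa p → d.ΦE r p + E.κE r * δ1 p + E.c1 r * d.f.p true r p ≤ d.Ψe r p) ∧
    d.CE r + E.κE r * Cδ1 + E.c1 r * d.f.c true r ≤ d.Ce r
  sd : ∀ r ∈ Icc 0 σ, r ∉ S →
    (∀ p, Sa p → d.ΦD r p + E.κD r * δ1 p + E.c4 r * d.f.p true r p ≤ d.Ψd r p) ∧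
    d.CD r + E.κD r * Cδ1 + E.c4 r * d.f.c true r ≤ d.Cd r
  Gn0 : ∀ j m, ∀ r ∈ Icc 0 σ, 0 ≤ d.Gn j m r
  Gd0 : ∀ j m, ∀ r ∈ Icc 0 σ, 0 ≤ d.Gd j m r
  C : ∀ r ∈ Icc 0 σ, r ∉ S → CT1 (E.R r) (E.Rp r) (E.W r) (E.Wp r) wv (fun s m => B s m r)
    (fun s m => CB s m r) (d.Ψn r) (d.Ψe r) (d.Ψd r) (d.Cn r) (d.Cd r)
    (fun s j => d.f.Φ' s j r) (fun s j => d.f.C' s j r)
    (fun j m => d.Gn j m r) fun j m => d.Gd j m r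

/-- the data of the position sums; functions of the time -/
structure DP1 (M : Type*) where
  g : Fam M
  Θ : M → ℝ → Pt → ℝ
  CΘ : M → ℝ → ℝ
  Kn : M → M → ℝ → ℝ
  Kp : M → M → ℝ → ℝ
  Ke : M → M → ℝ → ℝ
  Km : M → M → ℝ → ℝ

/-- **the conditions of the position sums on `[0, σ]`** -/
structure DP1.Ok {M : Type*} [Fintype M] (σ : ℝ) (S : Finset ℝ) (E : TEnv) (w1 : M → Pt → ℝ)
    (B : Bool → M → ℝ → Pt → ℝ) (CB : Bool → M → ℝ → ℝ) (ν δ : M → Pt → ℝ) (Cν Cδ : M → ℝ)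
    (d : DP1 M) : Prop where
  g : d.g.Ok σ S
  Kn0 : ∀ m m', ∀ r ∈ Icc 0 σ, 0 ≤ d.Kn m m' r
  Kp0 : ∀ m m', ∀ r ∈ Icc 0 σ, 0 ≤ d.Kp m m' r
  Ke0 : ∀ m m', ∀ r ∈ Icc 0 σ, 0 ≤ d.Ke m m' r
  Km0 : ∀ m m', ∀ r ∈ Icc 0 σ, 0 ≤ d.Km m m' r
  C : ∀ r ∈ Icc 0 σ, r ∉ S → CP1 (E.R r) (E.Rp r) (E.W r) (E.Wp r) (E.RD r) (E.RDp r) (E.RE r)
    (E.REp r) w1 (fun s m => B s m r) (fun s m => CB s m r) (fun m => d.Θ m r)
    (fun m => d.CΘ m r) ν δ Cν Cδ (E.κD r) (E.κE r) (E.c1 r) (E.c4 r)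
    (fun s m => d.g.Φ s m r) (fun s m => d.g.Φ' s m r)
    (fun s m => d.g.C s m r) (fun s m => d.g.C' s m r) (fun m m' => d.Kn m m' r)
    (fun m m' => d.Kp m m' r) (fun m m' => d.Ke m m' r) fun m m' => d.Km m m' r

section

variable {J Λ : Type*} [Fintype J] [Nonempty J] [Fintype Λ] {E : TEnv} {wv : Λ → Pt → ℝ}
  {B : Bool → Λ → ℝ → Pt → ℝ} {CB : Bool → Λ → ℝ → ℝ} {ν1 δ1 : Pt → ℝ} {Cν1 Cδ1 : ℝ}
  {d : DT1 J Λ} {x : V → V → ℝ} {P : V → Prop} {D : Finset V} {σ : ℝ} {S : Finset ℝ}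
  {N Dd Ee : Finset V → V → V → ℝ → ℝ} {Dk Ek : ℝ → V → V → ℝ} {Fe Ge : Finset V → V → V → ℝ}
  {νf δf : V → Finset V → ℝ}

/-- **the group with the weight one** -/
theorem DT1.Ok.grp (h : d.Ok σ S E wv B CB ν1 δ1 Cν1 Cδ1)
    (hP : RCG.Ct.Wt x P 1) (hx : Wt x) (hD : D.card ≤ 2)
    (hK : KrE x P D σ S Fe Dd Ee Dk Ek E.RD E.RE E.RDp E.REp E.κD E.κE)
    (hN : ∀ r ∈ Icc 0 σ, r ∉ S → ∀ F c e, VP Dᶜ F c e → N F c e r ≤ Ge F c e)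
    (hG1 : ∀ e ∈ Dᶜ, ∀ F ⊆ Dᶜ, e ∉ F → ∑ c ∈ F, Ge (F.erase c) c e ≤ νf e F)
    (hF1 : ∀ e ∈ Dᶜ, ∀ F ⊆ Dᶜ, e ∉ F → ∑ c ∈ F, Fe (F.erase c) c e ≤ δf e F)
    (fν : FB x P D νf ν1 Cν1) (fδ : FB x P D δf δ1 Cδ1) :
    GrpOk x P D σ S E.R E.Rp E.W E.Wp N Dd Ee E.c1 E.c4 wv B CB (fun _ => 1)
      d.f (fun e F _ => νf e F)
      (kbf (fun (_ : Unit) _ => 1) Dk E.κD (fun _ => δf) ())
      (kbf (fun (_ : Unit) _ => 1) Ek E.κE (fun _ => δf) ())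
      d.Ψn d.Ψe d.Ψd d.Cn d.Ce d.Cd d.Gn d.Gd := by
  have hF1' : ∀ e ∈ Dᶜ, ∀ F ⊆ Dᶜ, e ∉ F → ∑ c ∈ F, (1 : ℝ) * Fe (F.erase c) c e ≤ δf e F := by
    simpa only [one_mul] using hF1
  have one0 : ∀ v ∈ Dᶜ, (0 : ℝ) ≤ (fun _ : Pt => (1 : ℝ)) (fp x D v) := fun _ _ => zero_le_one
  exact {
    hf := h.f
    fw0 := fun _ _ => zero_le_one
    hN := fun e he F hFD heF r hr hrS => by
      refine le_trans (Finset.sum_le_sum fun c hc => ?_) (hG1 e he F hFD heF)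
      rw [one_mul]
      exact hN r hr hrS (F.erase c) c e ⟨(Finset.erase_subset _ _).trans hFD, hFD hc, he,
        Finset.notMem_erase _ _, fun h => heF (Finset.mem_of_mem_erase h),
        fun h => heF (h ▸ hc)⟩
    hD := fun e he F hFD heF r hr hrS => kbf_le (fw := fun (_ : Unit) _ => (1 : ℝ))
      (δf := fun _ => δf) (a := ()) (K := Dk) (X := Dd) (κ := E.κD) (r := r)
      (hK.κD0 r hr) (fun _ _ => zero_le_one) (hK.sD r) (hK.hD r hr hrS)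
      hF1' he hFD heF
    hE := fun e he F hFD heF r hr hrS => kbf_le (fw := fun (_ : Unit) _ => (1 : ℝ))
      (δf := fun _ => δf) (a := ()) (K := Ek) (X := Ee) (κ := E.κE) (r := r)
      (hK.κE0 r hr) (fun _ _ => zero_le_one) (hK.sE r) (hK.hE r hr hrS)
      hF1' he hFD heF
    fn := fun r hr hrS => by
      obtain ⟨s1, s2⟩ := h.sn r hr hrS
      exact (fν.add (h.f.fb hP hx hD false hr)).mono s1 hP hx hD s2
    fe := fun r hr hrS => by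
      obtain ⟨s1, s2⟩ := h.se r hr hrS
      obtain ⟨o1, o2⟩ := h.oE r hr hrS
      have k1 := fb_krn hP hx hD (hK.krE r hr hrS) (w := fun _ => 1) one0 (h.kE r hr hrS) o1 o2
      exact ((k1.add (fδ.smul (hK.κE0 r hr))).add
        ((h.f.fb hP hx hD true hr).smul (h.c10 r hr))).mono s1 hP hx hD s2
    fd := fun r hr hrS => by
      obtain ⟨s1, s2⟩ := h.sd r hr hrS
      obtain ⟨o1, o2⟩ := h.oD r hr hrS
      have k1 := fb_krn hP hx hD (hK.krD r hr hrS) (w := fun _ => 1) one0 (h.kD r hr hrS) o1 o2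
      exact ((k1.add (fδ.smul (hK.κD0 r hr))).add
        ((h.f.fb hP hx hD true hr).smul (h.c40 r hr))).mono s1 hP hx hD s2
    Gn0 := h.Gn0
    Gd0 := h.Gd0
    ck := h.C }

end

section

end

/-! ### tables -/

section

end

/-! ### the bundles -/

end Pool.Agent.RZ.RCO
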