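import Pool.Agent.RZ.RCO.Gs10_1
import Pool.Agent.RZ.RCO.Gs11_1
import Pool.Agent.RZ.RCO.Gs7
import Pool.Agent.RZ.RCO.Gs9_1

/-! Existence of all solutions of a world, systems given by functions of the actual time
(MP_73ccd0_lc). -/

namespace Pool.Agent.RZ.RCO

open Set Finset MeasureTheory Pool.Agent.RZ.RCRSHalf Pool.Agent.RZ.RCG Pool.Agent.RZ.RCG.Ct
open Pool.Agent.RZ.RCN Pool.Agent.RZ.RCN.K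

set_option linter.unusedSectionVars false

variable {V : Type*} [Fintype V] [DecidableEq V]

/-! ### one system over the actual time -/

/-- the functions of one system of level 1 -/
structure SysD (J M Λ : Type*) where
  E : TEnv
  wv : Λ → Pt → ℝ
  B : Bool → Λ → ℝ → Pt → ℝ
  CB : Bool → Λ → ℝ → ℝ
  w1 : M → Pt → ℝ
  B1 : Bool → M → ℝ → Pt → ℝ
  CB1 : Bool → M → ℝ → ℝ
  ν : M → Pt → ℝ
  δ : M → Pt → ℝ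
  Cν : M → ℝ
  Cδ : M → ℝ
  dt : DT1 J Λ
  dp : DP1 M
  m0 : M
  j0 : J
  S1f : ℝ → ℝ
  S2f : ℝ → ℝ
  κ : ℝ → ℝ
  Mt : ℝ → ℝ

/-- the conditions of a system on `[0, σ]` with the end values `Fe`, `Ge` which do not depend on
the kernels of the killing -/
structure SysD.In0 {J M Λ : Type*} [Fintype J] [Nonempty J] [Fintype M] [Nonempty M] [Fintype Λ]
    (q : SysD J M Λ) (lq : Bool) (x : V → V → ℝ) (P : V → Prop) (D : Finset V)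
    (hb T : ℝ → V → V → ℝ) (σ : ℝ) (S : Finset ℝ) (gp gm : Finset V → V → V → ℝ → ℝ)
    (Fe Ge : Finset V → V → V → ℝ) : Prop where
  env : WEnv x P D σ S hb T q.E.R q.E.Rp q.E.W q.E.Wp
  rw : RwB x P D σ S gp gm q.wv (fun s m e F r => bfu x P D (q.B s m r) (q.CB s m r) e F)
    q.B q.CB
  rw1 : RwB x P D σ S gp gm q.w1 (fun s m e F r => bfu x P D (q.B1 s m r) (q.CB1 s m r) e F)
    q.B1 q.CB1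
  he : EndV x P D q.w1 Fe Ge (fun m => bfu x P D (q.ν m) (q.Cν m))
    (fun m => bfu x P D (q.δ m) (q.Cδ m)) q.ν q.δ q.Cν q.Cδ
  hm0 : ∀ p, q.w1 q.m0 p = 1
  ht : q.dt.Ok σ S q.E q.wv q.B q.CB (q.ν q.m0) (q.δ q.m0) (q.Cν q.m0) (q.Cδ q.m0)
  hp : q.dp.Ok σ S q.E q.w1 q.B1 q.CB1 q.ν q.δ q.Cν q.Cδ
  hP1 : ∀ r ∈ Icc 0 σ, VLe q.dt.f q.j0 r (q.S1f r)
  hP2 : ∀ r ∈ Icc 0 σ, VLe q.dp.g q.m0 r (q.S2f r)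

section

end

/-! ### existence -/

section ex

variable {Z : Hzd} {x : V → V → ℝ} {P : V → Prop} [DecidablePred P] {sl : ℝ → ℝ → ℝ}
variable {A D : Finset V} {α τ σ ρ : ℝ} {S : Finset ℝ} {ζ : V → V → ℝ → ℝ}
  {Y Y' N N' : V → ℝ → ℝ} {Λ0 : Type*} [Fintype Λ0]

/-- **existence of all solutions of a world** from the rates themselves -/
theorem ful_exG {L1 Λ1 Λ1' : Type*} [Fintype Λ1] [Fintype Λ1']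
    {L2 Λ2 Λ2' : Type*} [Fintype Λ2] [Fintype Λ2'] {L3 Λ3 Λ3' : Type*} [Fintype Λ3] [Fintype Λ3']
    (hZ : Z.Ok sl) (hx : RCG.Ct.Wt x P 1) (σ0 : 0 ≤ σ) (στ : σ ≤ τ) (τ1 : τ ≤ 1)
    (ρ0 : 0 ≤ ρ) (ρτ : ρ ≤ τ) (b0 : ∀ u v, ∀ r ∈ Icc 0 τ, 0 ≤ Z.hh x P r u v)
    (hD : GDat Dᶜ τ (Tc0 (Z.hh x P) D ζ Y) (Ac0 (Z.hh x P) D ζ Y) (Bc0 (Z.hh x P) D N))
    (hW : W0cq Z x P A D α τ σ (Tc0 (Z.hh x P) D ζ Y) (Ac0 (Z.hh x P) D ζ Y)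
      (Bc0 (Z.hh x P) D N))
    {d : R12 V Λ0} (hd : d.Ok Dᶜ τ S (Tc0 (Z.hh x P) D ζ Y) (Ac0 (Z.hh x P) D ζ Y)
      (Bc0 (Z.hh x P) D N))
    (l0 : Λ0) {wm : ℝ} (hwm : 0 < wm)
    (hw : ∀ i ∈ Dᶜ, ∀ j ∈ Dᶜ, i ≠ j → ∀ r ∈ Icc 0 τ, wm ≤ d.w l0 i j r)
    {s1 : (Finset V → V → V → ℝ → ℝ) → (Finset V → V → V → ℝ → ℝ) → S1 V L1 Λ1 Λ1'}
    {s2 : (Finset V → V → V → ℝ → ℝ) → (Finset V → V → V → ℝ → ℝ) → S1 V L2 Λ2 Λ2'}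
    {s3 : (Finset V → V → V → ℝ → ℝ) → (Finset V → V → V → ℝ → ℝ) → S1 V L3 Λ3 Λ3'}
    (hs : ∀ gp gp' gm gm', G12X Dᶜ τ (Tc0 (Z.hh x P) D ζ Y) (Ac0 (Z.hh x P) D ζ Y)
        (Bc0 (Z.hh x P) D N) gp gp' gm gm' → d.Rows Dᶜ τ gp gm →
      (s1 gp gm).Ok Dᶜ τ S (Tc0 (Z.hh x P) D ζ Y) gp gm (HFF (Z.hh x P) τ ZF) (NGF ZF) ∧
      (s2 gp gm).Ok Dᶜ σ S (Tc0 (Z.hh x P) D ζ Y) gp gm (HFF (Z.hh x P) σ ZF) (NGF ZF) ∧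
      (s3 gp gm).Ok Dᶜ σ S (Tc0 (Z.hh x P) D ζ Y) gp gm
        (HFF (Z.hh x P) σ fun X d e => gm X d e ρ) (NGF fun X d e => gp X d e ρ)) :
    ∃ gp gp' gm gm' g1 g2 g3, FulF Z x P A D α τ σ ρ S ζ Y N d (s1 gp gm) (s2 gp gm) (s3 gp gm)
      gp gp' gm gm' g1 g2 g3 := by
  have τ0 : 0 ≤ τ := σ0.trans στ
  have bc : ∀ u v, ContinuousOn (fun r => Z.hh x P r u v) (Icc 0 τ) := fun u v =>
    (hZ.hh_cont hx u v).mono (Icc_subset_Icc_right τ1)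
  obtain ⟨gp, gp', gm, gm', hg, hr⟩ := g12_ex τ0 hD hd l0 hwm hw
  obtain ⟨o1, o2, o3⟩ := hs gp gp' gm gm' hg hr
  have T0 : ∀ u v, ∀ r ∈ Icc 0 τ, 0 ≤ Tc0 (Z.hh x P) D ζ Y r u v := fun u v r hr => hD.T0 r hr u v
  have z0 : ∀ F d e, 0 ≤ (ZF F d e : ℝ) := fun (_ : Finset V) (_ _ : V) => le_rfl
  have sg : ∀ {σ}, 0 ≤ σ → σ ≤ τ → ∀ {Fe Ge : Finset V → V → V → ℝ},
      (∀ F d e, 0 ≤ Fe F d e) → (∀ F d e, 0 ≤ Ge F d e) →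
      (∀ d, MF Dᶜ d fun F e => Fe F d e) → (∀ d, MF Dᶜ d fun F e => Ge F d e) →
      SgF Dᶜ σ (Tc0 (Z.hh x P) D ζ Y) gp gm (HFF (Z.hh x P) σ Fe) (NGF Ge) :=
    fun h1 h2 _ _ f0 g0 mf mg => sgF_of h1 h2 bc b0 T0 hD.cT hg f0 g0 mf mg
  obtain ⟨r1, r2, r3, r4⟩ := rel_ok hg (ρ := ρ) ⟨ρ0, ρτ⟩
  obtain ⟨g1, k1⟩ := sol1_ex τ0 (sg τ0 le_rfl z0 z0 mf_zero mf_zero) o1
  obtain ⟨g2, k2⟩ := sol1_ex σ0 (sg σ0 στ z0 z0 mf_zero mf_zero) o2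
  obtain ⟨g3, k3⟩ := sol1_ex σ0 (sg σ0 στ r1 r2 r3 r4) o3
  exact ⟨gp, gp', gm, gm', g1, g2, g3, hx, ρ0, ρτ, hD,
    ⟨τ1, σ0, στ, b0, bc, T0, hD.cT, fun u _ v _ r hr => hD.A0 r hr u v,
      fun u _ v _ r hr => hD.B0 r hr u v, hW, hg, k1.x, k2.x, k3.x⟩, hr, k1, k2, k3⟩

variable {J1 M1 Λ1 : Type*} [Fintype J1] [Nonempty J1] [Fintype M1] [Nonempty M1] [Fintype Λ1]
  {J2 M2 Λ2 : Type*} [Fintype J2] [Nonempty J2] [Fintype M2] [Nonempty M2] [Fintype Λ2]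
  {J3 M3 Λ3 : Type*} [Fintype J3] [Nonempty J3] [Fintype M3] [Nonempty M3] [Fintype Λ3]

/-- the rates from the data of level 0 -/
theorem Dt0.in (hZ : Z.Ok sl) (hx : RCG.Ct.Wt x P 1) (τ1 : τ ≤ 1)
    (h0 : Dt0 Z x P A D α τ σ ζ Y Y' N N') :
    (∀ u v, ∀ r ∈ Icc 0 τ, 0 ≤ Z.hh x P r u v) ∧
      GDat Dᶜ τ (Tc0 (Z.hh x P) D ζ Y) (Ac0 (Z.hh x P) D ζ Y) (Bc0 (Z.hh x P) D N) ∧
      W0cq Z x P A D α τ σ (Tc0 (Z.hh x P) D ζ Y) (Ac0 (Z.hh x P) D ζ Y)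
        (Bc0 (Z.hh x P) D N) := ⟨h0.L.b0, h0.dat hZ hx τ1, h0.w⟩

end ex

end Pool.Agent.RZ.RCO
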