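import Pool.Agent.RZ.RCO.Gs11_2
import Pool.Agent.RZ.RCO.Gs12_1

/-! Existence of all solutions of a world, systems given by functions of the actual time
(MP_73ccd0_lc). -/

namespace Pool.Agent.RZ.RCO

open Set Finset MeasureTheory Pool.Agent.RZ.RCRSHalf Pool.Agent.RZ.RCG Pool.Agent.RZ.RCG.Ct
open Pool.Agent.RZ.RCN Pool.Agent.RZ.RCN.K

set_option linter.unusedSectionVars false

variable {V : Type*} [Fintype V] [DecidableEq V]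

/-! ### one system over the actual time -/

/-- **the bundle of a system**; `lq` the kind of the pair function -/
noncomputable abbrev SysD.s {J M Λ : Type*} [Fintype J] [Nonempty J] [Fintype M] [Nonempty M]
    (q : SysD J M Λ) (lq : Bool) (x : V → V → ℝ) (P : V → Prop) (D : Finset V)
    (hb T : ℝ → V → V → ℝ) (σ : ℝ) (Fe : Finset V → V → V → ℝ) :
    S1 V (Unit × J × Option V) (M × Option V) Λ :=
  dS1 x P D T (DB lq hb σ Fe q.E.κD q.κ) (EBf hb σ Fe q.E.κE) (dkB lq hb σ q.κ) (ekB hb σ)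
    q.E q.wv
    (fun s m e F r => bfu x P D (q.B s m r) (q.CB s m r) e F) q.w1
    (fun s m e F r => bfu x P D (q.B1 s m r) (q.CB1 s m r) e F)
    (fun m => bfu x P D (q.ν m) (q.Cν m)) (fun m => bfu x P D (q.δ m) (q.Cδ m)) q.m0 q.dt q.dp

/-- **the conditions of a system** on `[0, σ]` with the end values `Fe`, `Ge` -/
structure SysD.In {J M Λ : Type*} [Fintype J] [Nonempty J] [Fintype M] [Nonempty M] [Fintype Λ]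
    (q : SysD J M Λ) (lq : Bool) (x : V → V → ℝ) (P : V → Prop) (D : Finset V)
    (hb T : ℝ → V → V → ℝ) (σ : ℝ) (S : Finset ℝ) (gp gm : Finset V → V → V → ℝ → ℝ)
    (Fe Ge : Finset V → V → V → ℝ) : Prop extends
    SysD.In0 q lq x P D hb T σ S gp gm Fe Ge where
  hK : KrE x P D σ S Fe (DB lq hb σ Fe q.E.κD q.κ) (EBf hb σ Fe q.E.κE) (dkB lq hb σ q.κ)
    (ekB hb σ) q.E.RD q.E.RE q.E.RDp q.E.REp q.E.κD q.E.κE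
  hX : KEx lq hb σ Dᶜ Fe q.E.c1 q.E.c4 q.E.κD q.E.κE q.S1f q.S2f q.κ

section

variable {Z : Hzd} {x : V → V → ℝ} {P : V → Prop} [DecidablePred P] {D : Finset V}
  {ζ : V → V → ℝ → ℝ} {Y : V → ℝ → ℝ} {τ σ : ℝ} {S : Finset ℝ} {A' B' : ℝ → V → V → ℝ}
  {gp gp' gm gm' : Finset V → V → V → ℝ → ℝ} {Fe Ge : Finset V → V → V → ℝ}
  {J M Λ : Type*} [Fintype J] [Nonempty J] [Fintype M] [Nonempty M] [Fintype Λ]
  {q : SysD J M Λ} {lq : Bool}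

/-- **a system is correct** -/
theorem SysD.In.ok (hx : RCG.Ct.Wt x P 1) (hD2 : D.card ≤ 2) (στ : σ ≤ τ)
    (hg : G12X Dᶜ τ (Tc0 (Z.hh x P) D ζ Y) A' B' gp gp' gm gm')
    (h : q.In lq x P D (Z.hh x P) (Tc0 (Z.hh x P) D ζ Y) σ S gp gm Fe Ge) :
    (q.s lq x P D (Z.hh x P) (Tc0 (Z.hh x P) D ζ Y) σ Fe).Ok Dᶜ σ S
      (Tc0 (Z.hh x P) D ζ Y) gp gm (HFF (Z.hh x P) σ Fe) (NGF Ge) :=
  dS1_ok hx hD2 στ hg h.env h.rw h.rw1 h.hK h.he h.hm0 h.ht h.hp h.hP1 h.hP2 h.hX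

end

/-! ### existence -/

section ex

variable {Z : Hzd} {x : V → V → ℝ} {P : V → Prop} [DecidablePred P] {sl : ℝ → ℝ → ℝ}
variable {A D : Finset V} {α τ σ ρ : ℝ} {S : Finset ℝ} {ζ : V → V → ℝ → ℝ}
  {Y Y' N N' : V → ℝ → ℝ} {Λ0 : Type*} [Fintype Λ0]

variable {J1 M1 Λ1 : Type*} [Fintype J1] [Nonempty J1] [Fintype M1] [Nonempty M1] [Fintype Λ1]
  {J2 M2 Λ2 : Type*} [Fintype J2] [Nonempty J2] [Fintype M2] [Nonempty M2] [Fintype Λ2]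
  {J3 M3 Λ3 : Type*} [Fintype J3] [Nonempty J3] [Fintype M3] [Nonempty M3] [Fintype Λ3]

/-- **existence of all solutions of a world** with the conditions of its three systems -/
theorem ful_sys (hZ : Z.Ok sl) (hx : RCG.Ct.Wt x P 1) (hD2 : D.card ≤ 2) (σ0 : 0 ≤ σ)
    (στ : σ ≤ τ) (τ1 : τ ≤ 1) (ρ0 : 0 ≤ ρ) (ρτ : ρ ≤ τ)
    (b0 : ∀ u v, ∀ r ∈ Icc 0 τ, 0 ≤ Z.hh x P r u v)
    (hD : GDat Dᶜ τ (Tc0 (Z.hh x P) D ζ Y) (Ac0 (Z.hh x P) D ζ Y) (Bc0 (Z.hh x P) D N))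
    (hW : W0cq Z x P A D α τ σ (Tc0 (Z.hh x P) D ζ Y) (Ac0 (Z.hh x P) D ζ Y)
      (Bc0 (Z.hh x P) D N))
    {d : R12 V Λ0} (hd : d.Ok Dᶜ τ S (Tc0 (Z.hh x P) D ζ Y) (Ac0 (Z.hh x P) D ζ Y)
      (Bc0 (Z.hh x P) D N))
    (l0 : Λ0) {wm : ℝ} (hwm : 0 < wm)
    (hw : ∀ i ∈ Dᶜ, ∀ j ∈ Dᶜ, i ≠ j → ∀ r ∈ Icc 0 τ, wm ≤ d.w l0 i j r)
    {q1 : SysD J1 M1 Λ1} {q2 : SysD J2 M2 Λ2} {q3 : SysD J3 M3 Λ3} {lq1 lq2 lq3 : Bool}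
    (hs : ∀ gp gp' gm gm', G12X Dᶜ τ (Tc0 (Z.hh x P) D ζ Y) (Ac0 (Z.hh x P) D ζ Y)
        (Bc0 (Z.hh x P) D N) gp gp' gm gm' → d.Rows Dᶜ τ gp gm →
      q1.In lq1 x P D (Z.hh x P) (Tc0 (Z.hh x P) D ζ Y) τ S gp gm ZF ZF ∧
      q2.In lq2 x P D (Z.hh x P) (Tc0 (Z.hh x P) D ζ Y) σ S gp gm ZF ZF ∧
      q3.In lq3 x P D (Z.hh x P) (Tc0 (Z.hh x P) D ζ Y) σ S gp gm (fun X d e => gm X d e ρ)
        (fun X d e => gp X d e ρ)) :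
    ∃ gp gp' gm gm' g1 g2 g3, FulF Z x P A D α τ σ ρ S ζ Y N d
        (q1.s lq1 x P D (Z.hh x P) (Tc0 (Z.hh x P) D ζ Y) τ ZF)
        (q2.s lq2 x P D (Z.hh x P) (Tc0 (Z.hh x P) D ζ Y) σ ZF)
        (q3.s lq3 x P D (Z.hh x P) (Tc0 (Z.hh x P) D ζ Y) σ fun X d e => gm X d e ρ)
        gp gp' gm gm' g1 g2 g3 ∧
      q1.In lq1 x P D (Z.hh x P) (Tc0 (Z.hh x P) D ζ Y) τ S gp gm ZF ZF ∧
      q2.In lq2 x P D (Z.hh x P) (Tc0 (Z.hh x P) D ζ Y) σ S gp gm ZF ZF ∧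
      q3.In lq3 x P D (Z.hh x P) (Tc0 (Z.hh x P) D ζ Y) σ S gp gm (fun X d e => gm X d e ρ)
        (fun X d e => gp X d e ρ) := by
  obtain ⟨gp, gp', gm, gm', g1, g2, g3, h⟩ := ful_exG (S := S)
    (s1 := fun gp gm => q1.s lq1 x P D (Z.hh x P) (Tc0 (Z.hh x P) D ζ Y) τ ZF)
    (s2 := fun gp gm => q2.s lq2 x P D (Z.hh x P) (Tc0 (Z.hh x P) D ζ Y) σ ZF)
    (s3 := fun gp gm => q3.s lq3 x P D (Z.hh x P) (Tc0 (Z.hh x P) D ζ Y) σ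
      fun X d e => gm X d e ρ)
    hZ hx σ0 στ τ1 ρ0 ρτ b0 hD hW hd l0 hwm hw fun gp gp' gm gm' hg hr => by
      obtain ⟨i1, i2, i3⟩ := hs gp gp' gm gm' hg hr
      exact ⟨i1.ok hx hD2 le_rfl hg, i2.ok hx hD2 στ hg, i3.ok hx hD2 στ hg⟩
  obtain ⟨i1, i2, i3⟩ := hs gp gp' gm gm' h.sol.g h.rows
  exact ⟨gp, gp', gm, gm', g1, g2, g3, h, i1, i2, i3⟩

end ex

end Pool.Agent.RZ.RCO
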