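import Pool.Agent.RZ.RCO.Eg1
import Pool.Agent.RZ.RCO.Ex16
import Pool.Agent.RZ.RCO.ExQ2
import Pool.Agent.RZ.RCO.Gs12_2

/-! Route P: the constants of a pair in a cell and a class, with the bounds of the table
(MP_73ccd0_lc). -/

namespace Pool.Agent.RZ.RCO

open Set Finset MeasureTheory Pool.Agent.RZ.RCRSHalf Pool.Agent.RZ.RCG Pool.Agent.RZ.RCG.Ct
open Pool.Agent.RZ.RCN Pool.Agent.RZ.RCN.K

set_option linter.unusedSectionVars false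

variable {V : Type*} [Fintype V] [DecidableEq V]

/-- the degree of a vertex towards the pair -/
theorem fp_k {x : V → V → ℝ} {a b : V} (hab : a ≠ b) (d : V) :
    (fp x {a, b} d).k = x a d + x b d := by
  show kk x {a, b} d = _
  unfold kk
  rw [Finset.sum_pair hab]

section fin

variable {Z : Hzd} {x : V → V → ℝ} {P : V → Prop} [DecidablePred P]
variable {A D : Finset V} {α τ σ ρ : ℝ} {S : Finset ℝ} {ζ : V → V → ℝ → ℝ} {Y N : V → ℝ → ℝ}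
variable {Λ0 : Type*} [Fintype Λ0] {d0 : R12 V Λ0}
  {gp gp' gm gm' : Finset V → V → V → ℝ → ℝ} {g1 g2 g3 : IxF V → ℝ → ℝ}
  {J1 M1 Λ1 : Type*} [Fintype J1] [Nonempty J1] [Fintype M1] [Nonempty M1] [Fintype Λ1]
  {J2 M2 Λ2 : Type*} [Fintype J2] [Nonempty J2] [Fintype M2] [Nonempty M2] [Fintype Λ2]
  {J3 M3 Λ3 : Type*} [Fintype J3] [Nonempty J3] [Fintype M3] [Nonempty M3] [Fintype Λ3]

/-- all solutions of a world with the conditions of the three systems -/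
structure FulD (Z : Hzd) (x : V → V → ℝ) (P : V → Prop) [DecidablePred P] (A D : Finset V)
    (α τ σ ρ : ℝ) (S : Finset ℝ) (ζ : V → V → ℝ → ℝ) (Y N : V → ℝ → ℝ) (d0 : R12 V Λ0)
    (q1 : SysD J1 M1 Λ1) (q2 : SysD J2 M2 Λ2) (q3 : SysD J3 M3 Λ3) (lq1 lq2 lq3 : Bool)
    (gp gp' gm gm' : Finset V → V → V → ℝ → ℝ) (g1 g2 g3 : IxF V → ℝ → ℝ) : Prop where
  ful : FulF Z x P A D α τ σ ρ S ζ Y N d0
    (q1.s lq1 x P D (Z.hh x P) (Tc0 (Z.hh x P) D ζ Y) τ ZF)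
    (q2.s lq2 x P D (Z.hh x P) (Tc0 (Z.hh x P) D ζ Y) σ ZF)
    (q3.s lq3 x P D (Z.hh x P) (Tc0 (Z.hh x P) D ζ Y) σ fun X d e => gm X d e ρ)
    gp gp' gm gm' g1 g2 g3
  i1 : q1.In lq1 x P D (Z.hh x P) (Tc0 (Z.hh x P) D ζ Y) τ S gp gm ZF ZF
  i2 : q2.In lq2 x P D (Z.hh x P) (Tc0 (Z.hh x P) D ζ Y) σ S gp gm ZF ZF
  i3 : q3.In lq3 x P D (Z.hh x P) (Tc0 (Z.hh x P) D ζ Y) σ S gp gm (fun X d e => gm X d e ρ)
    (fun X d e => gp X d e ρ)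

/-- the bounds of a world: the inputs of columns and rows and the values -/
structure FulB (Z : Hzd) (x : V → V → ℝ) (P : V → Prop) [DecidablePred P] (D : Finset V)
    (τ σ ρ : ℝ) (S : Finset ℝ) (ζ : V → V → ℝ → ℝ) (Y : V → ℝ → ℝ)
    (q1 : SysD J1 M1 Λ1) (q2 : SysD J2 M2 Λ2) (q3 : SysD J3 M3 Λ3) (lq1 lq2 lq3 : Bool)
    (gp gm : Finset V → V → V → ℝ → ℝ) (g1 g2 g3 : IxF V → ℝ → ℝ) (b : EgB) : Prop where
  e0 : EgI0 Z x P D τ ρ gp gm b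
  ec : EgIc Z x P D σ ρ S (Tc0 (Z.hh x P) D ζ Y)
    (q1.s lq1 x P D (Z.hh x P) (Tc0 (Z.hh x P) D ζ Y) τ ZF)
    (q2.s lq2 x P D (Z.hh x P) (Tc0 (Z.hh x P) D ζ Y) σ ZF)
    (q3.s lq3 x P D (Z.hh x P) (Tc0 (Z.hh x P) D ζ Y) σ fun X d e => gm X d e ρ)
    gp g1 g2 g3 b
  er : EgIr Z x P D σ ρ S (Tc0 (Z.hh x P) D ζ Y)
    (q1.s lq1 x P D (Z.hh x P) (Tc0 (Z.hh x P) D ζ Y) τ ZF)
    (q2.s lq2 x P D (Z.hh x P) (Tc0 (Z.hh x P) D ζ Y) σ ZF)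
    (q3.s lq3 x P D (Z.hh x P) (Tc0 (Z.hh x P) D ζ Y) σ fun X d e => gm X d e ρ)
    gp g1 g2 g3 b
  vc : EgVc ρ q1.dt q2.dp q2.m0 q3.dp q3.m0 b
  vr : EgVr ρ q1.dp q1.m0 q2.dt q3.dt b

variable {q1 : SysD J1 M1 Λ1} {q2 : SysD J2 M2 Λ2} {q3 : SysD J3 M3 Λ3} {lq1 lq2 lq3 : Bool}
  {b : EgB}

/-- the four sums at a real vertex -/
theorem FulB.sums (hD : D.card ≤ 2)
    (h : FulD Z x P A D α τ σ ρ S ζ Y N d0 q1 q2 q3 lq1 lq2 lq3 gp gp' gm gm' g1 g2 g3)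
    (hb : FulB Z x P D τ σ ρ S ζ Y q1 q2 q3 lq1 lq2 lq3 gp gm g1 g2 g3 b)
    {d : V} (hd : d ∈ Dᶜ) (hPd : P d) :
    ∑ c ∈ Dᶜ.erase d, ind P c * LdF (Z.hh x P) Dᶜ τ σ (Tc0 (Z.hh x P) D ζ Y) gm g1 g2 c d
      ≤ b.cl (fp x D d) ∧
    ∑ c ∈ Dᶜ.erase d, ind P c * LfF (Z.hh x P) Dᶜ τ σ ρ (Tc0 (Z.hh x P) D ζ Y) gp gm g1 g3 c d
      ≤ b.cf (fp x D d) ∧
    ∑ e ∈ Dᶜ.erase d, ind P e * LdF (Z.hh x P) Dᶜ τ σ (Tc0 (Z.hh x P) D ζ Y) gm g1 g2 d e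
      ≤ b.rl (fp x D d) ∧
    ∑ e ∈ Dᶜ.erase d, ind P e * LfF (Z.hh x P) Dᶜ τ σ ρ (Tc0 (Z.hh x P) D ζ Y) gp gm g1 g3 d e
      ≤ b.rf (fp x D d) := by
  obtain ⟨h1, h2⟩ := h.ful.egc hD h.i2.hm0 h.i3.hm0 hb.e0 hb.ec hb.vc hd hPd
  obtain ⟨h3, h4⟩ := h.ful.egr hD h.i1.hm0 hb.e0 hb.er hb.vr hd hPd
  exact ⟨h1, h2, h3, h4⟩

end fin

/-- the table is above the four sums at the times of a class, at all real points -/
structure RvB (R : RT.Tab) (m : ℕ) (t s : ℝ) (b : EgB) : Prop where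
  cl : ∀ p, Fu p → b.cl p ≤ R.val RT.kCL m t s p.k
  cf : ∀ p, Fu p → b.cf p ≤ R.val RT.kCF m t s p.k
  rl : ∀ p, Fu p → b.rl p ≤ R.val RT.kRL m t s p.k
  rf : ∀ p, Fu p → b.rf p ≤ R.val RT.kRF m t s p.k

/-- the entries are below the rows: the tables of the entries -/
structure REnt (R : RT.Tab) : Prop where
  l : ∀ m t s k, 0 ≤ k → k ≤ 1 → R.val RT.kRL m t s k ≤ R.val RT.kEC m t s k
  f : ∀ m t s k, 0 ≤ k → k ≤ 1 → R.val RT.kRF m t s k ≤ R.val RT.kEG m t s k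

/-- the tables of the entries are those of the rows -/
theorem REnt.of {R : RT.Tab} (h1 : ∀ m j, R.r RT.kEC m j = R.r RT.kRL m j)
    (h2 : ∀ m j, R.r RT.kEG m j = R.r RT.kRF m j) : REnt R where
  l := fun m t s k _ _ => by
    unfold RT.Tab.val
    simp only [h1]
    exact le_of_eq rfl
  f := fun m t s k _ _ => by
    unfold RT.Tab.val
    simp only [h2]
    exact le_of_eq rfl

section cls

variable {Z : Hzd} {x : V → V → ℝ} {P : V → Prop} [DecidablePred P]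
variable {a b : V} {S : Finset ℝ} {ζ : V → V → ℝ → ℝ} {Y N : V → ℝ → ℝ}
variable {Λ0 : Type*} [Fintype Λ0] {d0 : R12 V Λ0}
  {gp gp' gm gm' : Finset V → V → V → ℝ → ℝ} {g1 g2 g3 : IxF V → ℝ → ℝ}
  {J1 M1 Λ1 : Type*} [Fintype J1] [Nonempty J1] [Fintype M1] [Nonempty M1] [Fintype Λ1]
  {J2 M2 Λ2 : Type*} [Fintype J2] [Nonempty J2] [Fintype M2] [Nonempty M2] [Fintype Λ2]
  {J3 M3 Λ3 : Type*} [Fintype J3] [Nonempty J3] [Fintype M3] [Nonempty M3] [Fintype Λ3]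
  {q1 : SysD J1 M1 Λ1} {q2 : SysD J2 M2 Λ2} {q3 : SysD J3 M3 Λ3} {lq1 lq2 lq3 : Bool}
  {B : EgB}

/-- **the constants of a pair in a cell and a class with the bounds of the table** -/
theorem FulD.cls {R : RT.Tab} {m Nn i j : ℕ} {M : ℕ → ℕ} {sg : ℕ → ℕ → ℝ} {ε : ℝ} (hi : i < Nn)
    (hab : a ≠ b) (hsm : sgm sg ε i j ≤ sg i j)
    (h : FulD Z x P {a} {a, b} (ca Nn i) (cb Nn i) (sg i j) (max 0 (sgm sg ε i j)) S ζ Y N d0
      q1 q2 q3 lq1 lq2 lq3 gp gp' gm gm' g1 g2 g3)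
    (hb : FulB Z x P {a, b} (cb Nn i) (sg i j) (max 0 (sgm sg ε i j)) S ζ Y q1 q2 q3
      lq1 lq2 lq3 gp gm g1 g2 g3 B)
    (hv : ∀ t ∈ Icc (0 : ℝ) 1, ci Nn t = i → ∀ s ∈ Icc 0 t, Act M sg ε i s j → RvB R m t s B)
    (he : REnt R) :
    ∃ L Lf : V → V → ℝ, Ck2 Z x P Nn sg ε i j a b L Lf ∧
      RTc x P R Nn M sg ε m i j a b L Lf := by
  have hx := h.ful.wt
  have hD : ({a, b} : Finset V).card ≤ 2 := Finset.card_le_two
  refine ⟨_, _, (h.ful.ck2 hsm).pz hi hab hx, RTc.of_pz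
    (fun c hc d hd => h.ful.ld_nonneg hc hd) (fun c hc d hd => h.ful.lf_nonneg hc hd)
    fun t ht hti s hs hact => ?_⟩
  have k := hv t ht hti s hs hact
  have hs4 := fun d (hd : d ∈ ({a, b} : Finset V)ᶜ) (hP : P d) => hb.sums hD h hd hP
  have hf := fun d (hd : d ∈ ({a, b} : Finset V)ᶜ) (hP : P d) => fu_fp hx hD hd hP
  have k0 : ∀ d ∈ ({a, b} : Finset V)ᶜ, 0 ≤ x a d + x b d ∧ x a d + x b d ≤ 1 := fun d _ => by
    refine ⟨add_nonneg (hx.nonneg a d) (hx.nonneg b d), ?_⟩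
    have h1 := hx.row d
    rw [← Finset.sum_add_sum_compl ({a, b} : Finset V), Finset.sum_pair hab] at h1
    have h2 : 0 ≤ ∑ e ∈ ({a, b} : Finset V)ᶜ, x d e := Finset.sum_nonneg fun e _ => hx.nonneg d e
    rw [hx.symm a d, hx.symm b d]
    linarith
  exact
    { cl := fun d hd hP => by
        rw [reE_eq, ← fp_k hab d]
        exact (hs4 d hd hP).1.trans (k.cl _ (hf d hd hP))
      cf := fun d hd hP => by
        rw [reE_eq, ← fp_k hab d]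
        exact (hs4 d hd hP).2.1.trans (k.cf _ (hf d hd hP))
      rl := fun d hd hP => by
        rw [reE_eq, ← fp_k hab d]
        exact (hs4 d hd hP).2.2.1.trans (k.rl _ (hf d hd hP))
      rf := fun d hd hP => by
        rw [reE_eq, ← fp_k hab d]
        exact (hs4 d hd hP).2.2.2.trans (k.rf _ (hf d hd hP))
      el := fun c hc d hd hcd hPc hPd => by
        have h1 : ∑ e ∈ reE P a b c, LdF (Z.hh x P) ({a, b} : Finset V)ᶜ (cb Nn i) (sg i j)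
            (Tc0 (Z.hh x P) {a, b} ζ Y) gm g1 g2 c e ≤ R.val RT.kRL m t s (x a c + x b c) := by
          rw [reE_eq, ← fp_k hab c]
          exact (hs4 c hc hPc).2.2.1.trans (k.rl _ (hf c hc hPc))
        have h2 : LdF (Z.hh x P) ({a, b} : Finset V)ᶜ (cb Nn i) (sg i j)
            (Tc0 (Z.hh x P) {a, b} ζ Y) gm g1 g2 c d
            ≤ ∑ e ∈ reE P a b c, LdF (Z.hh x P) ({a, b} : Finset V)ᶜ (cb Nn i) (sg i j)
            (Tc0 (Z.hh x P) {a, b} ζ Y) gm g1 g2 c e :=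
          Finset.single_le_sum (f := fun e => LdF (Z.hh x P) ({a, b} : Finset V)ᶜ (cb Nn i)
              (sg i j) (Tc0 (Z.hh x P) {a, b} ζ Y) gm g1 g2 c e)
            (fun e he => h.ful.ld_nonneg hc (mem_reE he).1)
            (Finset.mem_filter.2 ⟨Finset.mem_erase.2 ⟨Ne.symm hcd, hd⟩, hPd⟩)
        have h3 := he.l m t s _ (k0 c hc).1 (k0 c hc).2
        have h4 := RT.Tab.val_nonneg (R := R) RT.kEL m t s (k0 d hd).1 (k0 d hd).2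
        linarith
      ef := fun c hc d hd hcd hPc hPd => by
        have h1 : ∑ e ∈ reE P a b c, LfF (Z.hh x P) ({a, b} : Finset V)ᶜ (cb Nn i) (sg i j)
            (max 0 (sgm sg ε i j)) (Tc0 (Z.hh x P) {a, b} ζ Y) gp gm g1 g3 c e
            ≤ R.val RT.kRF m t s (x a c + x b c) := by
          rw [reE_eq, ← fp_k hab c]
          exact (hs4 c hc hPc).2.2.2.trans (k.rf _ (hf c hc hPc))
        have h2 : LfF (Z.hh x P) ({a, b} : Finset V)ᶜ (cb Nn i) (sg i j)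
            (max 0 (sgm sg ε i j)) (Tc0 (Z.hh x P) {a, b} ζ Y) gp gm g1 g3 c d
            ≤ ∑ e ∈ reE P a b c, LfF (Z.hh x P) ({a, b} : Finset V)ᶜ (cb Nn i) (sg i j)
            (max 0 (sgm sg ε i j)) (Tc0 (Z.hh x P) {a, b} ζ Y) gp gm g1 g3 c e :=
          Finset.single_le_sum (f := fun e => LfF (Z.hh x P) ({a, b} : Finset V)ᶜ (cb Nn i)
              (sg i j) (max 0 (sgm sg ε i j)) (Tc0 (Z.hh x P) {a, b} ζ Y) gp gm g1 g3 c e)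
            (fun e he => h.ful.lf_nonneg hc (mem_reE he).1)
            (Finset.mem_filter.2 ⟨Finset.mem_erase.2 ⟨Ne.symm hcd, hd⟩, hPd⟩)
        have h3 := he.f m t s _ (k0 c hc).1 (k0 c hc).2
        have h4 := RT.Tab.val_nonneg (R := R) RT.kEF m t s (k0 d hd).1 (k0 d hd).2
        linarith }

end cls

end Pool.Agent.RZ.RCO
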