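import Pool.Agent.RZ.RCE.DnI
import Pool.Agent.RZ.RCE.DnM2
import Pool.Agent.RZ.RCE.TDt5
import Pool.Agent.RZ.RCM9.DatL
import Pool.Agent.RZ.RCN.Ins
import Pool.Agent.RZ.RCN.Top

/-! The density bound of the certified processes with a rate after the time `s` which depends on
`s` (MP_73ccd0_lc, route P). -/

set_option autoImplicit false
set_option linter.unusedSectionVars false

namespace Pool.Agent.RZ.RCO

open Set Finset MeasureTheory Pool.Agent.RZ.RCRSHalf Pool.Agent.RZ.RCG Pool.Agent.RZ.RCG.Ct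
open Pool.Agent.RZ.RCN.Ker Pool.Agent.RZ.RCRS
open Pool.Agent.RZ.RCN Pool.Agent.RZ.RCN.K Pool.Agent.RZ.RCE Pool.Agent.RZ.RCM Pool.Agent.RZ.RCM9
open Pool.Agent.RZ.RCM9.Bern Pool.Agent.RZ.RCM9.Pk

section core

variable {V : Type*} [Fintype V] [DecidableEq V]
variable {x : V → V → ℝ} {P : V → Prop} [DecidablePred P] {sl : ℝ → ℝ → ℝ}
variable {h : ℝ → V → V → ℝ} {H : V → V → ℝ → ℝ} {w : V → V → ℝ → ℝ}
variable {Z : Hzd} {t : ℝ}
variable {T : Dt} {b0 b1 : ℝ → ℝ} {Pe : ℝ → ℝ → ℝ} {Pt : ℝ → ℝ → ℝ → ℝ}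
variable {IZ NI Bp : ℝ → ℝ} {dl : ℝ} {q : TDt5}

/-- **the density bound** -/
theorem dn_core5 (hT : T.Ok) (hk : T.KOk b0 b1 Pe Pt) (hx : Wt x P 1)
    (hw : Wr T.ek.kd x P w)
    (hψ : Cor x P (psi T.cf x P (pfOf T.ek.kd x P w)) (psi' T.cf x P (pfOf T.ek.kd x P w)))
    (hL : (T.ld IZ NI Bp dl).Ok) (qP : q.Pos) (qB : q.Bd)
    (hbq : BqOk b0 b1 1 (pv q.bq))
    (hmb : ∀ y ∈ Icc (0 : ℝ) 1, ∀ s ∈ Icc (0 : ℝ) 1, Z.rr y s ≤ pv q.mb s)
    (hm1 : ∀ s ∈ Icc (0 : ℝ) 1, 1 ≤ pv q.mb s)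
    (hK : Kn x P (RCN.dn x P (psi' T.cf x P (pfOf T.ek.kd x P w))) T.cf.ab h H t)
    (hle : ∀ u v, ∀ r ∈ Icc 0 t, h r u v ≤ Z.hh x P r u v)
    {a b d : V} (ha : P a) (hb : P b) (hab : a ≠ b)
    (hd : d ∈ ({a, b} : Finset V)ᶜ) (hxbd : x b d ≠ 0)
    (hlate : ∀ r ∈ Icc 0 t, r ≤ (q.t2 : ℝ) →
      RtT h x a b d r (q.kw (x a b + x a d) * pv q.q1 r) (pv q.q2 r) ∧
      ∀ s ∈ Icc 0 r, RtS h x a b d r s
        (q.kw (x a b + x a d) * (pv q.q3 r + s ^ 2 * pv q.q4 r)))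
    {s : ℝ} (hs : s ∈ Icc 0 t) :
    RCM.Dens h t s a b d ((1 + (x a b + x a d) * t) * (1 + dl * t)
      * Real.exp (q.kw (x a b + x a d) * q.X t s + q.e s)) := by
  simp only [Finset.mem_compl, Finset.mem_insert, Finset.mem_singleton, not_or] at hd
  have had : a ≠ d := Ne.symm hd.1
  have hbd : b ≠ d := Ne.symm hd.2
  have ht := hK.ht
  have hm1' : ∀ r ∈ Icc 0 t, r ∈ Icc (0 : ℝ) 1 := fun r hr => ⟨hr.1, hr.2.trans ht.2⟩
  have hin1 : ∀ r ∈ Icc 0 s, r ∈ Icc 0 t := fun r hr => ⟨hr.1, hr.2.trans hs.2⟩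
  have hin2 : ∀ r ∈ Icc s t, r ∈ Icc 0 t := fun r hr => ⟨hs.1.trans hr.1, hr.2⟩
  have hdx : P d ∨ x a d = 0 := by
    by_cases hPd : P d
    · exact Or.inl hPd
    · right
      by_contra hc
      have := hx.pend1 a d b hPd hc (by rwa [hx.symm d b])
      exact hab this.symm
  obtain ⟨Em, Em', e1, e2, e3⟩ := hK.lam hx hψ hL (Dt.psB hT hx hw IZ NI Bp dl) ha hb hab had hbd
    hdx (fun _ _ => le_rfl)
  have w0 : 0 ≤ x a b + x a d := add_nonneg (hx.nonneg a b) (hx.nonneg a d)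
  have w1 : x a b + x a d ≤ 1 := by
    have h3 := hx.row a
    rw [← Finset.sum_add_sum_compl ({b, d} : Finset V), Finset.sum_pair hbd] at h3
    have : 0 ≤ ∑ e ∈ ({b, d} : Finset V)ᶜ, x a e := Finset.sum_nonneg fun e _ => hx.nonneg a e
    linarith
  have hw2 : 0 ≤ q.kw (x a b + x a d) := TDt5.kw_nn qB ⟨w0, w1⟩
  have hw3 := TDt5.le_kw qB w0
  have hbq' : ∀ r ∈ Icc 0 t, ∀ e, dE h a e r ≤ x a e * pv q.bq r := by
    intro r hr e
    have hr0 : 0 < 1 + r := by linarith [hr.1]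
    refine (hK.dE_le hx a e hr).trans ?_
    by_cases he : x a e = 0
    · rw [he]; simp
    refine mul_le_mul_of_nonneg_left ?_ (hx.nonneg a e)
    by_cases hPe : P e
    · have h1 := Dt.phi_le hT hk hx hw ha hPe he (hm1' r hr)
      have h2 := mul_le_mul_of_nonneg_left h1 hr0.le
      refine h2.trans ?_
      have h3 := hbq.le (RCN.K.xmem1 (P := P) hx a e) (hm1' r hr)
      have h4 : (1 + r) * (T.kf b0 b1 Pe Pt).fh (xr x P a e) r
          = (1 + (1 - xr x P a e) * (b0 r - 1) + eta (xr x P a e) * b1 r) / (1 + r) := by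
        show (1 + r) * ((1 + (1 - xr x P a e) * (b0 r - 1) + eta (xr x P a e) * b1 r)
          * ((1 + r) ^ 2)⁻¹) = _
        field_simp
      rw [h4, div_le_iff₀ hr0]
      linarith
    · have h1 : RCN.dn x P (psi' T.cf x P (pfOf T.ek.kd x P w)) a e r = ((1 + r) ^ 2)⁻¹ := by
        unfold RCN.dn
        rw [if_neg fun hh => hPe hh.1.2]
      rw [h1]
      have h3 := hbq.one r (hm1' r hr)
      have h4 : (1 + r) * ((1 + r) ^ 2)⁻¹ = 1 / (1 + r) := by
        field_simp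
      rw [h4, div_le_iff₀ hr0]
      linarith
  have hmb' : ∀ r ∈ Icc 0 t, ∀ u v, h r u v ≤ x u v * pv q.mb r := fun r hr u v =>
    (hle u v r hr).trans (Hzd.hh_le hx hmb hm1 (hm1' r hr) u v)
  have triv : ∀ r ∈ Icc 0 t, RtD h x a b d r (q.kw (x a b + x a d)) 2 := fun r hr =>
    (RtD.triv hx hab had hbd hK.hh (hm1' r hr)).mono (by linarith) le_rfl
  have key := Kn.dens_rt2 hK hx hab had hbd hs
    (ε1 := fun r => q.kw (x a b + x a d) * q.A1 r)
    (ε1' := fun r => q.kw (x a b + x a d) * q.A1' r)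
    (ε2 := q.e) (ε2' := q.e')
    (ε3 := fun r => q.kw (x a b + x a d) * (q.A r + s ^ 2 * q.B r))
    (ε3' := fun r => q.kw (x a b + x a d) * (q.A' r + s ^ 2 * pv q.bp r))
    (q1 := fun r => if r ≤ (q.t2 : ℝ) then q.kw (x a b + x a d) * pv q.q1 r
      else q.kw (x a b + x a d))
    (q2 := fun r => if r ≤ (q.t2 : ℝ) then pv q.q2 r else 2)
    (q3 := fun r => if r ≤ (q.t2 : ℝ)
      then q.kw (x a b + x a d) * (pv q.q3 r + s ^ 2 * pv q.q4 r)
      else q.kw (x a b + x a d))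
    hmb' e1 e2 e3 hbq' (fun r hr => TDt5.bq_nn qP (hm1' r hr))
    (fun r hr => zero_le_one.trans (hm1 r (hm1' r hr)))
    (fun r hr => ?_) (fun r hr => ?_)
    (fun r _ => (TDt5.A1_deriv qB r).const_mul _) (fun r _ => TDt5.e_deriv qB r)
    (fun r _ => ((TDt5.A_deriv qB r).add ((TDt5.B_deriv r).const_mul _)).const_mul _)
    (fun r hr => ?_) (fun r hr => ?_) (fun r hr => ?_)
  · have z1 : q.A1 0 = 0 := TDt5.A1_zero qB
    have z2 : q.e 0 = 0 := TDt5.e_zero qB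
    intro R hR hR1
    refine (key R hR hR1).trans ?_
    have e : q.kw (x a b + x a d) * q.A1 s - q.kw (x a b + x a d) * q.A1 0
        + (q.kw (x a b + x a d) * (q.A t + s ^ 2 * q.B t)
          - q.kw (x a b + x a d) * (q.A s + s ^ 2 * q.B s)) + (q.e s - q.e 0)
        = q.kw (x a b + x a d) * q.X t s + q.e s := by
      rw [z1, z2]
      unfold TDt5.X
      ring
    rw [e]
    exact le_rfl
  · by_cases hc : r ≤ (q.t2 : ℝ)
    · simp only [if_pos hc]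
      exact (hlate r (hin1 r hr) hc).1
    · simp only [if_neg hc]
      exact (triv r (hin1 r hr)).toT
  · by_cases hc : r ≤ (q.t2 : ℝ)
    · simp only [if_pos hc]
      exact (hlate r (hin2 r hr) hc).2 s ⟨hs.1, hr.1⟩
    · simp only [if_neg hc]
      exact (triv r (hin2 r hr)).toS ⟨hs.1, hr.1⟩
  · by_cases hc : r ≤ (q.t2 : ℝ)
    · simp only [if_pos hc]
      have h1 := TDt5.late1 qP qB (r := r) ⟨hr.1, hc⟩
      have h3 := mul_le_mul_of_nonneg_left h1 hw2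
      refine le_trans (le_of_eq ?_) h3
      ring
    · simp only [if_neg hc]
      have h1 := TDt5.triv1 qP qB (r := r) (not_le.1 hc) (hm1' r (hin1 r hr)).2
      have h3 := mul_le_mul_of_nonneg_left h1 hw2
      refine le_trans (le_of_eq ?_) h3
      ring
  · by_cases hc : r ≤ (q.t2 : ℝ)
    · simp only [if_pos hc]
      exact TDt5.late2 qP qB (r := r) ⟨hr.1, hc⟩
    · simp only [if_neg hc]
      exact TDt5.triv2 qP qB (r := r) (not_le.1 hc) (hm1' r (hin1 r hr)).2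
  · have r0 : 0 ≤ r := hs.1.trans hr.1
    by_cases hc : r ≤ (q.t2 : ℝ)
    · simp only [if_pos hc]
      have h1 := TDt5.late3 qP qB (r := r) ⟨r0, hc⟩
      have h2 := mul_le_mul_of_nonneg_left
        (TDt5.late4 qP (qB.τ0'.trans qB.τt') (r := r) ⟨r0, hc⟩) (sq_nonneg s)
      have h3 := mul_le_mul_of_nonneg_left (add_le_add h1 h2) hw2
      refine le_trans (le_of_eq ?_) h3
      ring
    · simp only [if_neg hc]
      have h1 := TDt5.triv3 qP qB (r := r) (not_le.1 hc) (hm1' r (hin2 r hr)).2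
      have h2 := mul_nonneg (sq_nonneg s) (TDt5.b_nn qP (hm1' r (hin2 r hr)))
      have h3 := mul_le_mul_of_nonneg_left (show pv q.bq r ≤ q.A' r + s ^ 2 * pv q.bp r by linarith)
        hw2
      refine le_trans (le_of_eq ?_) h3
      ring

end core

/-- the density factor without the cap -/
noncomputable def kdX (p : Ps) (q : TDt5) (w t s : ℝ) : ℝ :=
  p.d.rPe w t * Real.exp (q.kw w * q.X t s + q.e s)

/-- the cap of the density factor -/
noncomputable def capN (p : Ps) (t : ℝ) : ℝ := (1 + t) * (1 + (p.d.ee : ℝ) * t)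

/-- **the density factor** -/
noncomputable def kdN (p : Ps) (q : TDt5) (w t s : ℝ) : ℝ := min (kdX p q w t s) (capN p t)

/-- bounds of the pointwise rates up to the time `q.t2`, for all processes with the hazard
bounds -/
def LateN {V : Type*} [Fintype V] [DecidableEq V] (p : Ps) (q : TDt5) (x : V → V → ℝ)
    (P : V → Prop) [DecidablePred P] : Prop :=
  ∀ (h : ℝ → V → V → ℝ) (H : V → V → ℝ → ℝ) (t : ℝ), Haz h H → t ∈ Icc (0 : ℝ) 1 →
    (∀ u v, ∀ r ∈ Icc 0 t, h r u v ≤ p.z.hz.hh x P r u v) →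
    (∀ u v, ∀ σ ∈ Icc 0 t, ∀ r ∈ Icc 0 σ, H u v σ - H u v r ≤ p.z.hz.Hh x P σ u v r) →
    (∀ u v, Bp P u v → ∀ r ∈ Icc 0 t, x u v * p.z.hz.hl (xr x P u v) r ≤ h r u v) →
    ∀ a b c, P a → P b → a ≠ b → a ≠ c → b ≠ c → t ≤ (q.t2 : ℝ) →
      RtT h x a b c t (q.kw (x a b + x a c) * pv q.q1 t) (pv q.q2 t) ∧
      ∀ s ∈ Icc 0 t, RtS h x a b c t s
        (q.kw (x a b + x a c) * (pv q.q3 t + s ^ 2 * pv q.q4 t))

/-- the bound of the density rates -/
structure BP5 (b0 b1 bq : List ℚ) : Prop where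
  one : N4 ((1 + wT) * pe bq wT - 1)
  v0 : N4 ((1 + wT) * pe bq wT - pe b0 wT)
  v1 : N4 ((1 + wT) * pe bq wT - 1 - (pe b0 wT - 1) * E.num 1 2 - pe b1 wT * E.num 1 2)
  v2 : N4 ((1 + wT) * pe bq wT - 1 - pe b1 wT * E.num 1 2)

theorem BP5.ok {b0 b1 bq : List ℚ} (h : BP5 b0 b1 bq) : BqOk (pv b0) (pv b1) 1 (pv bq) := by
  refine ⟨fun r hr => ?_, fun r hr => ?_, fun r hr => ?_, fun r hr => ?_⟩
  · have h1 := h.one.t hr
    simp only [val_sub, val_mul, val_add, val_pe, val_wT, val_one] at h1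
    linarith
  · have h1 := h.v0.t hr
    simp only [val_sub, val_mul, val_add, val_pe, val_wT, val_one] at h1
    linarith
  · have h1 := h.v1.t hr
    simp only [val_sub, val_mul, val_add, val_pe, val_wT, val_one, val_num] at h1
    push_cast at h1
    linarith
  · have h1 := h.v2.t hr
    simp only [val_sub, val_mul, val_add, val_pe, val_wT, val_one, val_num] at h1
    push_cast at h1
    linarith

/-- what the density bound needs from the generated numbers -/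
structure DnN (p : Ps) (q : TDt5) : Prop where
  M : p.d.PosL
  qP : q.Pos
  qB : q.Bd
  bq : BP5 p.d.be0 p.d.be1 q.bq
  mb : q.mb = p.z.mb

variable {p : Ps} {q : TDt5}

theorem kdN_le_kdX (w t s : ℝ) : kdN p q w t s ≤ kdX p q w t s := min_le_left _ _

theorem rPe_le_capN (ee0 : 0 ≤ p.d.ee) {w t : ℝ} (hw : w ≤ 1) (ht : 0 ≤ t) :
    p.d.rPe w t ≤ capN p t := by
  unfold Dat.rPe capN
  have e0 : (0 : ℝ) ≤ (p.d.ee : ℝ) := by exact_mod_cast ee0
  have e1 := mul_nonneg e0 ht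
  refine mul_le_mul_of_nonneg_right ?_ (by linarith)
  have := mul_le_mul_of_nonneg_right hw ht
  linarith

/-- (K1) the density factor is at least the exponent factor -/
theorem kdN_ge (hp : p.Ok) (qP : q.Pos) (qB : q.Bd) : ∀ w ∈ Icc (0 : ℝ) 1, ∀ t s, 0 ≤ s → s ≤ t →
    t ≤ 1 → p.d.rPe w t ≤ kdN p q w t s := by
  intro w hw t s h0 h1 h2
  have ht : t ∈ Icc (0 : ℝ) 1 := ⟨h0.trans h1, h2⟩
  have hs : s ∈ Icc (0 : ℝ) 1 := ⟨h0, h1.trans h2⟩
  refine le_min ?_ (rPe_le_capN hp.k.ee0 hw.2 (h0.trans h1))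
  unfold kdX
  have r1 := rPe_one hp hw ht
  refine le_mul_of_one_le_right (zero_le_one.trans r1) (Real.one_le_exp ?_)
  exact add_nonneg (mul_nonneg (TDt5.kw_nn qB hw) (TDt5.X_nn qP qB ht ⟨h0, h1⟩))
    (TDt5.e_nn qP qB hs)

/-- (K2) the density factor is at most a product -/
theorem kdN_le (hp : p.Ok) (qP : q.Pos) (qB : q.Bd) : ∀ w ∈ Icc (0 : ℝ) 1, ∀ t s, 0 ≤ s → s ≤ t →
    t ≤ 1 → kdN p q w t s ≤ p.d.rPe w t * (Real.exp (q.kw w * q.A t)
      * (pv q.kq s * (1 + (q.ρ0 : ℝ) * (s ^ 2 * q.B t)))) := by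
  intro w hw t s h0 h1 h2
  have ht : t ∈ Icc (0 : ℝ) 1 := ⟨h0.trans h1, h2⟩
  refine (kdN_le_kdX w t s).trans ?_
  unfold kdX
  exact mul_le_mul_of_nonneg_left (TDt5.exp_X qP qB ht ⟨h0, h1⟩ hw)
    (zero_le_one.trans (rPe_one hp hw ht))

theorem X_cont : Continuous fun z : ℝ × ℝ => q.X z.1 z.2 := by
  unfold TDt5.X
  have a1 := (TDt5.A1_cont (g := q)).comp (continuous_snd (X := ℝ) (Y := ℝ))
  have a2 := (TDt5.A_cont (g := q)).comp (continuous_fst (X := ℝ) (Y := ℝ))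
  have a3 := (TDt5.A_cont (g := q)).comp (continuous_snd (X := ℝ) (Y := ℝ))
  have b2 := (TDt5.B_cont (g := q)).comp (continuous_fst (X := ℝ) (Y := ℝ))
  have b3 := (TDt5.B_cont (g := q)).comp (continuous_snd (X := ℝ) (Y := ℝ))
  exact (a1.add (a2.sub a3)).add ((continuous_snd.pow 2).mul (b2.sub b3))

theorem kdX_cont (w : ℝ) : Continuous fun z : ℝ × ℝ => kdX p q w z.1 z.2 := by
  unfold kdX Dat.rPe
  have a2 := (TDt5.e_cont (g := q)).comp (continuous_snd (X := ℝ) (Y := ℝ))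
  have a3 : Continuous fun z : ℝ × ℝ => (1 + w * z.1) * (1 + (p.d.ee : ℝ) * z.1) := by
    fun_prop
  exact a3.mul (Real.continuous_exp.comp ((continuous_const.mul X_cont).add a2))

theorem kdN_cont (w : ℝ) : Continuous fun z : ℝ × ℝ => kdN p q w z.1 z.2 := by
  unfold kdN capN
  exact (kdX_cont w).min (by fun_prop)

/-- (K3) continuity -/
theorem kdN_cn (N : ℕ) (w : ℝ) : CN N (kdN p q w) := CN.of_cont (kdN_cont w).continuousOn

variable {V : Type} [Fintype V] [DecidableEq V]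
variable {Gr : SimpleGraph V} [Fintype Gr.edgeSet] [DecidableEq Gr.edgeSet]

/-- **the density bound of the certified processes** -/
theorem dn_allN (hp : p.Ok) (h : DnN p q) {x : Gr.edgeSet → ℝ} [Pool.Agent.RZ.RCG.CX x]
    (hx : IsFractionalMatching Gr x) (hl : LateN p q (xe x) (P0 V)) (C : Cx (V ⊕ V))
    (hw : Wr (p.da (kdN p q) C).T.ek.kd (xe x) (P0 V) ((p.da (kdN p q) C).w x)) :
    Dn (p.da (kdN p q) C) x := by
  intro h' H t hCp hle hHle a b ha hb hab hab0 d hd hbd s hs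
  have hwt := wt_xe hx zero_le_one le_rfl fun e => (hx.1 e).2
  have hT : p.d.dt.Ok := Dat.ok hp.d hp.b
  have hK := hCp.1
  have ht := hK.ht
  have hd' := hd
  simp only [Finset.mem_compl, Finset.mem_insert, Finset.mem_singleton, not_or] at hd'
  have key := dn_core5 (T := p.d.dt) (b0 := pv p.d.be0) (b1 := pv p.d.be1) (Pe := p.d.rPe)
    (Pt := p.d.rP) (Z := p.z.hz) (q := q)
    (h := h') (H := H) (t := t) (w := (p.da (kdN p q) C).w x)
    hT (Dat.kok hp.k) hwt hw (Dt.cor hx hT hw)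
    (Dat.ldok hT hp.k.ee0 h.M) h.qP h.qB h.bq.ok
    (by rw [h.mb]; exact fun y hy t ht => hp.z.rr_mb hy ht)
    (by rw [h.mb]; exact fun z hz => hp.z.mb_one hz) hK hle
    ha hb hab hd hbd (fun r hr hlt => ?_) hs
  · have h3 : RCM.Dens h' t s a b d (capN p t) := by
      have e0 : (0 : ℝ) ≤ (p.d.ee : ℝ) := by exact_mod_cast hp.k.ee0
      refine K.Kn.dens_cap hK a b d hs ?_
      unfold capN
      have := mul_nonneg e0 ht.1
      nlinarith [ht.1]
    exact K.dens_min key h3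
  · exact hl h' H r hK.hh ⟨hr.1, hr.2.trans hK.ht.2⟩
      (fun u v z hz => hle u v z ⟨hz.1, hz.2.trans hr.2⟩)
      (fun u v σ hσ z hz => hHle u v σ ⟨hσ.1, hσ.2.trans hr.2⟩ z hz)
      (fun u v huv z hz => haz_geB (Dt.cf_ok hT) (Dt.cg_ok hT) hwt (Dt.wk hx hT hw) hK
        (fun y hy r hr => lo_nn hp hy hr) (fun y hy r hr => lo_le hp hy hr)
        (fun y _ r hr => lo_lep hp y hr) huv
        ⟨hz.1, hz.2.trans hr.2⟩) a b d ha hb hab
      (Ne.symm hd'.1) (Ne.symm hd'.2) hlt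

end Pool.Agent.RZ.RCO
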