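import Pool.Agent.RZ.RCO.RTb

/-! Route P: the star constants, which do not depend on the removed vertex
(MP_73ccd0_lc). -/

namespace Pool.Agent.RZ.RCO

open Set Finset MeasureTheory Pool.Agent.RZ.RCRSHalf Pool.Agent.RZ.RCG Pool.Agent.RZ.RCG.Ct
open Pool.Agent.RZ.RCN Pool.Agent.RZ.RCN.K

set_option linter.unusedSectionVars false

variable {V : Type*} [Fintype V] [DecidableEq V]

/-! ### the interpolation of the classes -/

/-- monotonicity in the active classes -/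
theorem bl_mono2 {ε : ℝ} (hε : 0 < ε) {σ f g : ℕ → ℝ} {s : ℝ} (n j : ℕ)
    (h : ∀ i, j ≤ i → i ≤ j + n → (i < j + n → s ≤ σ i) → (∀ k, j ≤ k → k < i → σ k - ε < s) →
      f i ≤ g i) : bl ε σ f s n j ≤ bl ε σ g s n j := by
  have e := bl_sum (ε := ε) (σ := σ) (s := s) (Finset.univ : Finset Bool)
    (fun b => if b then (1 : ℝ) else -1) (fun b => if b then f else g) n j
  have k : bl ε σ (fun i => ∑ q : Bool, (if q then (1 : ℝ) else -1)
      * (if q then f else g) i) s n j ≤ 0 := by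
    refine bl_le hε n j fun i h1 h2 h3 h4 => ?_
    rw [Fintype.sum_bool]
    have := h i h1 h2 h3 h4
    simp only [if_true, Bool.false_eq_true, if_false]
    linarith
  rw [← e, Fintype.sum_bool] at k
  simp only [if_true, Bool.false_eq_true, if_false] at k
  linarith

/-- the star exponent of the constants of the classes -/
noncomputable def stE (N : ℕ) (M : ℕ → ℕ) (sg : ℕ → ℕ → ℝ) (ε : ℝ)
    (Ls : ℕ → ℕ → V → V → V → ℝ) (a d e : V) (t s : ℝ) : ℝ :=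
  bl ε (sg (ci N t)) (fun j => max 0 (Ls (ci N t) j a d e)) s (M (ci N t)) 0

section

variable {P : V → Prop} [DecidablePred P]
variable {N : ℕ} {M : ℕ → ℕ} {sg : ℕ → ℕ → ℝ} {ε : ℝ} {L Lf Lg : ℕ → ℕ → V → V → V → V → ℝ}
  {Ls : ℕ → ℕ → V → V → V → ℝ} {a b d e : V} {t s B : ℝ}

theorem stE_nonneg : 0 ≤ stE N M sg ε Ls a d e t s := bl_nonneg _ _ fun _ _ _ => le_max_left _ _

/-- the deleted exponent below the star exponent -/
theorem lc_le_stE (ε0 : 0 < ε) (N0 : 0 < N) (last : ∀ i < N, sg i (M i) = cb N i)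
    (ht1 : t ≤ 1) (hs : s ∈ Icc 0 t)
    (h : Vq P b a d e → ∀ j, Act M sg ε (ci N t) s j → L (ci N t) j b a d e
      ≤ Ls (ci N t) j a d e) :
    Lc P (mkC N M sg ε L Lf Lg) b a d e t s ≤ stE N M sg ε Ls a d e t s := by
  by_cases hv : Vq P b a d e
  · have ht0 : 0 ≤ t := hs.1.trans hs.2
    have hi := ci_lt N0 ht1
    have hm := ci_mem N0 ht0 ht1
    unfold Lc stE
    rw [if_pos hv]
    refine bl_mono2 ε0 _ 0 fun j _ hj h1 h2 => ?_
    change j ≤ 0 + M (ci N t) at hj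
    change j < 0 + M (ci N t) → s ≤ sg (ci N t) j at h1
    change ∀ k, 0 ≤ k → k < j → sg (ci N t) k - ε < s at h2
    rw [zero_add] at hj h1
    have hmin : min s (sg (ci N t) j) = s := by
      rcases lt_or_eq_of_le hj with h3 | h3
      · exact min_eq_left (h1 h3)
      · rw [h3, last _ hi]
        exact min_eq_left (hs.2.trans hm.2)
    have hsj : sgm sg ε (ci N t) j + ε ≤ s := by
      cases j with
      | zero => show -ε + ε ≤ s; linarith [hs.1]
      | succ j =>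
        show sg (ci N t) j - 2 * ε + ε ≤ s
        have := h2 j (Nat.zero_le _) (Nat.lt_succ_self j)
        linarith
    show max 0 (rmp ε (sgm sg ε (ci N t) j) (L (ci N t) j b a d e) (lgs L (ci N t) j b a d e)
      (min s (sg (ci N t) j))) ≤ _
    rw [hmin, rmp_eq ε0 hsj]
    exact max_le_max le_rfl (h hv j ⟨hj, h1, fun k hk => h2 k (Nat.zero_le _) hk⟩)
  · refine le_trans (le_of_eq ?_) stE_nonneg
    unfold Lc
    rw [if_neg hv]

/-- the released exponent below the star exponent -/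
theorem lr_le_stE (ε0 : 0 < ε) (N0 : 0 < N) (last : ∀ i < N, sg i (M i) = cb N i)
    (ht1 : t ≤ 1) (hs : s ∈ Icc 0 t)
    (h : Vq P b a d e → ∀ j, Act M sg ε (ci N t) s j → Lf (ci N t) j b a d e
      ≤ Ls (ci N t) j a d e) :
    RCN.K.Lr P (mkC N M sg ε L Lf (lgs Lf)) b a d e t s ≤ stE N M sg ε Ls a d e t s := by
  by_cases hv : Vq P b a d e
  · have ht0 : 0 ≤ t := hs.1.trans hs.2
    have hi := ci_lt N0 ht1
    have hm := ci_mem N0 ht0 ht1
    unfold RCN.K.Lr stE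
    rw [if_pos hv]
    refine bl_mono2 ε0 _ 0 fun j _ hj h1 h2 => ?_
    change j ≤ 0 + M (ci N t) at hj
    change j < 0 + M (ci N t) → s ≤ sg (ci N t) j at h1
    change ∀ k, 0 ≤ k → k < j → sg (ci N t) k - ε < s at h2
    rw [zero_add] at hj h1
    have hmin : min s (sg (ci N t) j) = s := by
      rcases lt_or_eq_of_le hj with h3 | h3
      · exact min_eq_left (h1 h3)
      · rw [h3, last _ hi]
        exact min_eq_left (hs.2.trans hm.2)
    have hsj : sgm sg ε (ci N t) j + ε ≤ s := by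
      cases j with
      | zero => show -ε + ε ≤ s; linarith [hs.1]
      | succ j =>
        show sg (ci N t) j - 2 * ε + ε ≤ s
        have := h2 j (Nat.zero_le _) (Nat.lt_succ_self j)
        linarith
    show max 0 (rmp ε (sgm sg ε (ci N t) j) (Lf (ci N t) j b a d e) (lgs Lf (ci N t) j b a d e)
      (min s (sg (ci N t) j))) ≤ _
    rw [hmin, rmp_eq ε0 hsj]
    exact max_le_max le_rfl (h hv j ⟨hj, h1, fun k hk => h2 k (Nat.zero_le _) hk⟩)
  · refine le_trans (le_of_eq ?_) stE_nonneg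
    unfold RCN.K.Lr
    rw [if_neg hv]

/-- sums of the star exponents -/
theorem stE_sum (ε0 : 0 < ε) (S : Finset V)
    (h : ∀ j, Act M sg ε (ci N t) s j → ∑ d ∈ S, max 0 (Ls (ci N t) j a d e) ≤ B) :
    ∑ d ∈ S, stE N M sg ε Ls a d e t s ≤ B := by
  have e1 : ∑ d ∈ S, stE N M sg ε Ls a d e t s
      = ∑ d ∈ S, 1 * bl ε (sg (ci N t)) (fun j => max 0 (Ls (ci N t) j a d e)) s
        (M (ci N t)) 0 := Finset.sum_congr rfl fun d _ => (one_mul _).symm
  rw [e1, bl_sum S (fun _ => 1) (fun d j => max 0 (Ls (ci N t) j a d e))]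
  refine bl_le ε0 _ 0 fun j _ hj h1 h2 => ?_
  rw [zero_add] at hj h1
  simp only [one_mul]
  exact h j ⟨hj, h1, fun k hk => h2 k (Nat.zero_le _) hk⟩

end

/-! ### the constants of a class -/

/-- the minimum of two pairs of constants -/
theorem Ck2.min {Z : Hzd} {x : V → V → ℝ} {P : V → Prop} [DecidablePred P] {N : ℕ}
    {sg : ℕ → ℕ → ℝ} {ε : ℝ} {i j : ℕ} {a b : V} {L Lf L' Lf' : V → V → ℝ}
    (h : Ck2 Z x P N sg ε i j a b L Lf) (h' : Ck2 Z x P N sg ε i j a b L' Lf') :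
    Ck2 Z x P N sg ε i j a b (fun c d => Min.min (L c d) (L' c d))
      (fun c d => Min.min (Lf c d) (Lf' c d)) where
  l := fun h1 H t hw ht s hs hm hσ c hc d hd hcd => by
    rcases min_choice (L c d) (L' c d) with e | e
    · show RCM.CloD h1 t s {a} {a, b} c d (Real.exp (Min.min (L c d) (L' c d)))
      rw [e]
      exact h.l h1 H t hw ht s hs hm hσ c hc d hd hcd
    · show RCM.CloD h1 t s {a} {a, b} c d (Real.exp (Min.min (L c d) (L' c d)))
      rw [e]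
      exact h'.l h1 H t hw ht s hs hm hσ c hc d hd hcd
  f := fun h1 H t hw ht s hs hm hσ c hc d hd hcd => by
    rcases min_choice (Lf c d) (Lf' c d) with e | e
    · show RCM.CloDt h1 t s {a} {a, b} c d (Real.exp (Min.min (Lf c d) (Lf' c d)))
      rw [e]
      exact h.f h1 H t hw ht s hs hm hσ c hc d hd hcd
    · show RCM.CloDt h1 t s {a} {a, b} c d (Real.exp (Min.min (Lf c d) (Lf' c d)))
      rw [e]
      exact h'.f h1 H t hw ht s hs hm hσ c hc d hd hcd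
  l0 := fun c hc d hd hcd => le_min (h.l0 c hc d hd hcd) (h'.l0 c hc d hd hcd)
  f0 := fun c hc d hd hcd => le_min (h.f0 c hc d hd hcd) (h'.f0 c hc d hd hcd)

/-- the bounds of the sums for smaller constants -/
theorem RTj.mono {x : V → V → ℝ} {P : V → Prop} [DecidablePred P] {R : RT.Tab} {a b : V} {m : ℕ}
    {t s : ℝ} {L Lf L' Lf' : V → V → ℝ} (h : RTj x P R a b m t s L Lf)
    (hl : ∀ c ∈ ({a, b} : Finset V)ᶜ, ∀ d ∈ ({a, b} : Finset V)ᶜ, c ≠ d → P c → P d →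
      L' c d ≤ L c d)
    (hf : ∀ c ∈ ({a, b} : Finset V)ᶜ, ∀ d ∈ ({a, b} : Finset V)ᶜ, c ≠ d → P c → P d →
      Lf' c d ≤ Lf c d) : RTj x P R a b m t s L' Lf' where
  cl := fun d hd hP => (Finset.sum_le_sum fun c hc =>
    hl c (mem_reE hc).1 d hd (mem_reE hc).2.1 (mem_reE hc).2.2 hP).trans (h.cl d hd hP)
  cf := fun d hd hP => (Finset.sum_le_sum fun c hc =>
    hf c (mem_reE hc).1 d hd (mem_reE hc).2.1 (mem_reE hc).2.2 hP).trans (h.cf d hd hP)
  rl := fun c hc hP => (Finset.sum_le_sum fun d hd =>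
    hl c hc d (mem_reE hd).1 (Ne.symm (mem_reE hd).2.1) hP (mem_reE hd).2.2).trans
      (h.rl c hc hP)
  rf := fun c hc hP => (Finset.sum_le_sum fun d hd =>
    hf c hc d (mem_reE hd).1 (Ne.symm (mem_reE hd).2.1) hP (mem_reE hd).2.2).trans
      (h.rf c hc hP)
  el := fun c hc d hd hcd hPc hPd => (hl c hc d hd hcd hPc hPd).trans (h.el c hc d hd hcd hPc hPd)
  ef := fun c hc d hd hcd hPc hPd => (hf c hc d hd hcd hPc hPd).trans (h.ef c hc d hd hcd hPc hPd)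

/-! ### the bounds of the star exponents -/

/-- the bounds of the columns of the star exponents for the centre `a` at the time `t` by the
table in the big cell `m` -/
structure RTS (x : V → V → ℝ) (P : V → Prop) [DecidablePred P] (R : RT.Tab)
    (Ls Lsf : V → V → V → ℝ → ℝ → ℝ) (a : V) (m : ℕ) (t : ℝ) : Prop where
  l : ∀ e, P e → e ≠ a → ∀ s ∈ Icc 0 t, ∑ d ∈ (({a} : Finset V)ᶜ.erase e).filter P,
    Ls a d e t s ≤ R.val RT.kSL m t s (x a e)
  f : ∀ e, P e → e ≠ a → ∀ s ∈ Icc 0 t, ∑ d ∈ (({a} : Finset V)ᶜ.erase e).filter P,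
    Lsf a d e t s ≤ R.val RT.kSF m t s (x a e)

/-- **the bounds of the sums of the exponents at all times, with star exponents** -/
structure RTb2 (x : V → V → ℝ) (P : V → Prop) [DecidablePred P] (R : RT.Tab)
    (L Lt : V → V → V → V → ℝ → ℝ → ℝ) (Ls Lsf : V → V → V → ℝ → ℝ → ℝ) : Prop where
  s0 : ∀ a d e (t s : ℝ), 0 ≤ Ls a d e t s
  f0 : ∀ a d e (t s : ℝ), 0 ≤ Lsf a d e t s
  sl : ∀ a b, P a → P b → a ≠ b → ∀ d ∈ ({b, a} : Finset V)ᶜ, ∀ e ∈ ({b, a} : Finset V)ᶜ,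
    P d → P e → d ≠ e → ∀ t : ℝ, t ≤ 1 → ∀ s ∈ Icc 0 t, L b a d e t s ≤ Ls a d e t s
  sf : ∀ a b, P a → P b → a ≠ b → ∀ d ∈ ({b, a} : Finset V)ᶜ, ∀ e ∈ ({b, a} : Finset V)ᶜ,
    P d → P e → d ≠ e → ∀ t : ℝ, t ≤ 1 → ∀ s ∈ Icc 0 t, Lt b a d e t s ≤ Lsf a d e t s
  B : ∀ t ∈ Icc (0 : ℝ) 1, ∃ m < R.M, R.tn m ≤ t ∧ t ≤ R.tn (m + 1) ∧
    (∀ a b, P a → P b → a ≠ b → RTt x P R L Lt a b m t) ∧
    ∀ a, P a → RTS x P R Ls Lsf a m t

theorem RTb2.rtb {x : V → V → ℝ} {P : V → Prop} [DecidablePred P] {R : RT.Tab}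
    {L Lt : V → V → V → V → ℝ → ℝ → ℝ} {Ls Lsf : V → V → V → ℝ → ℝ → ℝ}
    (h : RTb2 x P R L Lt Ls Lsf) : RTb x P R L Lt := fun t ht => by
  obtain ⟨m, h1, h2, h3, h4, _⟩ := h.B t ht
  exact ⟨m, h1, h2, h3, h4⟩

/-- the star constants of the classes: above the constants of all pairs, with the bounds of the
table -/
structure RTcs (x : V → V → ℝ) (P : V → Prop) [DecidablePred P] (R : RT.Tab)
    (M : ℕ → ℕ) (sg : ℕ → ℕ → ℝ) (ε : ℝ) (mi : ℕ → ℕ)
    (Ls Lsf : ℕ → ℕ → V → V → V → ℝ) : Prop where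
  l : ∀ i < R.N, ∀ t ∈ Icc (0 : ℝ) 1, ci R.N t = i → ∀ s ∈ Icc 0 t, ∀ j, Act M sg ε i s j →
    ∀ a, P a → ∀ e, P e → e ≠ a → ∑ d ∈ (({a} : Finset V)ᶜ.erase e).filter P,
      max 0 (Ls i j a d e) ≤ R.val RT.kSL (mi i) t s (x a e)
  f : ∀ i < R.N, ∀ t ∈ Icc (0 : ℝ) 1, ci R.N t = i → ∀ s ∈ Icc 0 t, ∀ j, Act M sg ε i s j →
    ∀ a, P a → ∀ e, P e → e ≠ a → ∑ d ∈ (({a} : Finset V)ᶜ.erase e).filter P,
      max 0 (Lsf i j a d e) ≤ R.val RT.kSF (mi i) t s (x a e)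

/-- the constants of the pair `a`, `b` below the star constants of `b` -/
def Gst (P : V → Prop) (Ls Lsf : ℕ → ℕ → V → V → V → ℝ) (i j : ℕ) (a b : V)
    (L Lf : V → V → ℝ) : Prop :=
  ∀ c ∈ ({a, b} : Finset V)ᶜ, ∀ d ∈ ({a, b} : Finset V)ᶜ, c ≠ d → P c → P d →
    L c d ≤ Ls i j b c d ∧ Lf c d ≤ Lsf i j b c d

/-- **the bounds at all times from the bounds of the classes, with star exponents** -/
theorem rtb2_of {x : V → V → ℝ} {P : V → Prop} [DecidablePred P] {R : RT.Tab}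
    {M : ℕ → ℕ} {sg : ℕ → ℕ → ℝ} {ε : ℝ} {L Lf : ℕ → ℕ → V → V → V → V → ℝ}
    {mi : ℕ → ℕ} {Ls Lsf : ℕ → ℕ → V → V → V → ℝ} (hm : Mp R mi) (hx : RCG.Ct.Wt x P 1)
    (ε0 : 0 < ε) (N0 : 0 < R.N) (last : ∀ i < R.N, sg i (M i) = cb R.N i)
    (h : ∀ i < R.N, ∀ j ≤ M i, ∀ a b, P a → P b → a ≠ b →
      RTc x P R R.N M sg ε (mi i) i j a b (L i j a b) (Lf i j a b))
    (hG : ∀ i < R.N, ∀ j ≤ M i, ∀ a b, P a → P b → a ≠ b →
      Gst P Ls Lsf i j a b (L i j a b) (Lf i j a b))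
    (hS : RTcs x P R M sg ε mi Ls Lsf) :
    RTb2 x P R (Lc P (mkC R.N M sg ε L Lf (lgs Lf)))
      (RCN.K.Lr P (mkC R.N M sg ε L Lf (lgs Lf))) (stE R.N M sg ε Ls) (stE R.N M sg ε Lsf) where
  s0 := fun _ _ _ _ _ => stE_nonneg
  f0 := fun _ _ _ _ _ => stE_nonneg
  sl := fun a b ha hb hab d hd e he hPd hPe hde t ht s hs =>
    lc_le_stE ε0 N0 last ht hs fun _ j hj =>
      (hG _ (ci_lt N0 ht) j hj.1 b a hb ha hab.symm d hd e he hde hPd hPe).1
  sf := fun a b ha hb hab d hd e he hPd hPe hde t ht s hs =>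
    lr_le_stE ε0 N0 last ht hs fun _ j hj =>
      (hG _ (ci_lt N0 ht) j hj.1 b a hb ha hab.symm d hd e he hde hPd hPe).2
  B := fun t ht => by
    have hi := ci_lt N0 ht.2
    have h1 := ci_mem N0 ht.1 ht.2
    exact ⟨mi (ci R.N t), hm.lt _ hi, (hm.lo _ hi).trans h1.1, h1.2.trans (hm.hi _ hi),
      fun a b ha hb hab => rtt_of hx ε0 N0 last ht ha hb hab fun j hj =>
        h _ hi j hj a b ha hb hab,
      fun a ha =>
        { l := fun e he hea s hs => stE_sum ε0 _ fun j hj =>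
            hS.l _ hi t ht rfl s hs j hj a ha e he hea
          f := fun e he hea s hs => stE_sum ε0 _ fun j hj =>
            hS.f _ hi t ht rfl s hs j hj a ha e he hea }⟩

end Pool.Agent.RZ.RCO
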