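import Pool.Agent.RZ.RCO.Cl6
import Pool.Agent.RZ.RCO.DnN
import Pool.Agent.RZ.RCO.RTs

/-! Route P: the final input of one graph from the constants of the classes (MP_73ccd0_lc). -/

set_option autoImplicit false

namespace Pool.Agent.RZ.RCO

open Set Finset MeasureTheory Pool.Agent.RZ.RCRSHalf Pool.Agent.RZ.RCG Pool.Agent.RZ.RCG.Ct
open Pool.Agent.RZ.RCN.Ker Pool.Agent.RZ.RCRS Pool.Agent.RZ.RCM9 Pool.Agent.RZ.RCM9.Bern Pool.Agent.RZ.RCM9.Pk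
open Pool.Agent.RZ.RCN Pool.Agent.RZ.RCN.K Pool.Agent.RZ.RCE

set_option linter.unusedSectionVars false

/-- **the input of one graph with star exponents** -/
theorem c2_star {V : Type} [Fintype V] [DecidableEq V] {Gr : SimpleGraph V} [Fintype Gr.edgeSet]
    [DecidableEq Gr.edgeSet] {x : Gr.edgeSet → ℝ} [Pool.Agent.RZ.RCG.CX x] (hx : IsFractionalMatching Gr x)
    {p : Ps} {q : TDt5} {R : RT.Tab} {mi : ℕ → ℕ} {ε : ℝ} (hm : Mp R mi)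
    (ε0 : 0 < ε) (N0 : 0 < R.N)
    {G : ℕ → ℕ → V ⊕ V → V ⊕ V → (V ⊕ V → V ⊕ V → ℝ) → (V ⊕ V → V ⊕ V → ℝ) → Prop}
    {Ls Lsf : ℕ → ℕ → V ⊕ V → V ⊕ V → V ⊕ V → ℝ}
    (hS : RTcs (xe x) (P0 V) R MN (sgN R.N) ε mi Ls Lsf)
    (h : ∀ i < R.N, ∀ j ≤ i, ∀ a b, P0 V a → P0 V b → a ≠ b →
      ∃ L Lf : V ⊕ V → V ⊕ V → ℝ,
        Ck2 p.z.hz (xe x) (P0 V) R.N (sgN R.N) ε i j a b L Lf ∧
        RTc (xe x) (P0 V) R R.N MN (sgN R.N) ε (mi i) i j a b L Lf ∧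
        Gst (P0 V) Ls Lsf i j a b L Lf ∧ G i j a b L Lf)
    (hl : LateN p q (xe x) (P0 V))
    (hT : ∀ L Lf : ℕ → ℕ → V ⊕ V → V ⊕ V → V ⊕ V → V ⊕ V → ℝ,
      (∀ i < R.N, ∀ j ≤ i, ∀ a b, P0 V a → P0 V b → a ≠ b →
        G i j a b (L i j a b) (Lf i j a b)) →
      Cls p.z.hz (xe x) (P0 V) (mkC R.N MN (sgN R.N) ε L Lf (lgs Lf)) →
      RTb2 (xe x) (P0 V) R (Lc (P0 V) (mkC R.N MN (sgN R.N) ε L Lf (lgs Lf)))
        (RCN.K.Lr (P0 V) (mkC R.N MN (sgN R.N) ε L Lf (lgs Lf)))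
        (stE R.N MN (sgN R.N) ε Ls) (stE R.N MN (sgN R.N) ε Lsf) →
      TT (p.da (kdN p q) (mkC R.N MN (sgN R.N) ε L Lf (lgs Lf))) x)
    (hP : ∀ L Lf : ℕ → ℕ → V ⊕ V → V ⊕ V → V ⊕ V → V ⊕ V → ℝ,
      (∀ i < R.N, ∀ j ≤ i, ∀ a b, P0 V a → P0 V b → a ≠ b →
        G i j a b (L i j a b) (Lf i j a b)) →
      Cls p.z.hz (xe x) (P0 V) (mkC R.N MN (sgN R.N) ε L Lf (lgs Lf)) →
      RTb2 (xe x) (P0 V) R (Lc (P0 V) (mkC R.N MN (sgN R.N) ε L Lf (lgs Lf)))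
        (RCN.K.Lr (P0 V) (mkC R.N MN (sgN R.N) ε L Lf (lgs Lf)))
        (stE R.N MN (sgN R.N) ε Ls) (stE R.N MN (sgN R.N) ε Lsf) →
      PP (p.da (kdN p q) (mkC R.N MN (sgN R.N) ε L Lf (lgs Lf))) x) :
    ∃ C : Cx (V ⊕ V), Cls p.z.hz (xe x) (P0 V) C ∧ LateN p q (xe x) (P0 V) ∧
      TT (p.da (kdN p q) C) x ∧ PP (p.da (kdN p q) C) x := by
  have hw := wt_xe hx zero_le_one le_rfl fun e => (hx.1 e).2
  obtain ⟨L, Lf, hC, hG⟩ := cls_ex (N := R.N) (M := MN) (sg := sgN R.N) (ε := ε)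
    (G := fun i j a b L Lf =>
      RTc (xe x) (P0 V) R R.N MN (sgN R.N) ε (mi i) i j a b L Lf ∧
        Gst (P0 V) Ls Lsf i j a b L Lf ∧ G i j a b L Lf)
    N0 ε0 (fun i _ j _ => sgN_nonneg i j) (fun i _ => sgN_last i) h
  have hG' : ∀ i < R.N, ∀ j ≤ i, ∀ a b, P0 V a → P0 V b → a ≠ b →
      G i j a b (L i j a b) (Lf i j a b) := fun i hi j hj a b ha hb hab =>
    (hG i hi j hj a b ha hb hab).2.2
  have hB := rtb2_of hm hw ε0 N0 (fun i _ => sgN_last i)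
    (fun i hi j hj a b ha hb hab => (hG i hi j hj a b ha hb hab).1)
    (fun i hi j hj a b ha hb hab => (hG i hi j hj a b ha hb hab).2.1) hS
  exact ⟨_, hC, hl, hT L Lf hG' hC hB, hP L Lf hG' hC hB⟩

end Pool.Agent.RZ.RCO
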