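import Pool.Agent.RZ.RCO.Eg4
import Pool.Agent.RZ.RCO.Eg5
import Pool.Agent.RZ.RCO.TopR

/-! Route P: the worlds of a graph and the input of one graph (MP_73ccd0_lc). -/

set_option autoImplicit false

namespace Pool.Agent.RZ.RCO

open Set Finset MeasureTheory Pool.Agent.RZ.RCRSHalf Pool.Agent.RZ.RCG Pool.Agent.RZ.RCG.Ct
open Pool.Agent.RZ.RCN.Ker Pool.Agent.RZ.RCRS Pool.Agent.RZ.RCM9 Pool.Agent.RZ.RCM9.Bern Pool.Agent.RZ.RCM9.Pk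
open Pool.Agent.RZ.RCN Pool.Agent.RZ.RCN.K Pool.Agent.RZ.RCE

set_option linter.unusedSectionVars false

section world

variable {V : Type*} [Fintype V] [DecidableEq V]

/-- **all solutions of one world in the cell `i` and the class `j`**, with the four sums below the
table at all times of the class -/
def Wex (Z : Hzd) (x : V → V → ℝ) (P : V → Prop) [DecidablePred P] (R : RT.Tab) (mi : ℕ → ℕ)
    (ε : ℝ) (A D : Finset V) (i j : ℕ) (Λ0 J1 M1 Λ1 J2 M2 Λ2 J3 M3 Λ3 : Type) [Fintype Λ0]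
    [Fintype J1] [Nonempty J1] [Fintype M1] [Nonempty M1] [Fintype Λ1]
    [Fintype J2] [Nonempty J2] [Fintype M2] [Nonempty M2] [Fintype Λ2]
    [Fintype J3] [Nonempty J3] [Fintype M3] [Nonempty M3] [Fintype Λ3] : Prop :=
  ∃ (S : Finset ℝ) (ζ : V → V → ℝ → ℝ) (Y N : V → ℝ → ℝ) (d0 : R12 V Λ0)
    (q1 : SysD J1 M1 Λ1) (q2 : SysD J2 M2 Λ2) (q3 : SysD J3 M3 Λ3) (lq1 lq2 lq3 : Bool)
    (gp gp' gm gm' : Finset V → V → V → ℝ → ℝ) (g1 g2 g3 : IxF V → ℝ → ℝ) (B : EgB),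
    FulD Z x P A D (ca R.N i) (cb R.N i) (sgN R.N i j) (max 0 (sgm (sgN R.N) ε i j)) S ζ Y N d0
      q1 q2 q3 lq1 lq2 lq3 gp gp' gm gm' g1 g2 g3 ∧
    FulB Z x P D (cb R.N i) (sgN R.N i j) (max 0 (sgm (sgN R.N) ε i j)) S ζ Y q1 q2 q3
      lq1 lq2 lq3 gp gm g1 g2 g3 B ∧
    ∀ t ∈ Icc (0 : ℝ) 1, ci R.N t = i → ∀ s ∈ Icc 0 t, Act MN (sgN R.N) ε i s j →
      RvB R (mi i) t s B

variable {Z : Hzd} {x : V → V → ℝ} {P : V → Prop} [DecidablePred P] {R : RT.Tab} {mi : ℕ → ℕ}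
  {ε : ℝ} {i j : ℕ} {Λ0 J1 M1 Λ1 J2 M2 Λ2 J3 M3 Λ3 : Type} [Fintype Λ0]
    [Fintype J1] [Nonempty J1] [Fintype M1] [Nonempty M1] [Fintype Λ1]
    [Fintype J2] [Nonempty J2] [Fintype M2] [Nonempty M2] [Fintype Λ2]
    [Fintype J3] [Nonempty J3] [Fintype M3] [Nonempty M3] [Fintype Λ3]

theorem sgN_sgm_le (ε0 : 0 < ε) {N : ℕ} (N0 : 0 < N) (i j : ℕ) : sgm (sgN N) ε i j ≤ sgN N i j := by
  cases j with
  | zero =>
    show -ε ≤ cb N 0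
    have := cb_pos N0 0
    linarith
  | succ j =>
    show cb N j - 2 * ε ≤ cb N (j + 1)
    have := cb_mono (N := N) (Nat.le_succ j)
    linarith

/-- the constants of a pair from its world -/
theorem Wex.cls (ε0 : 0 < ε) (N0 : 0 < R.N) (he : REnt R) {a b : V} (hab : a ≠ b) (hi : i < R.N)
    (h : Wex Z x P R mi ε {a} {a, b} i j Λ0 J1 M1 Λ1 J2 M2 Λ2 J3 M3 Λ3) :
    ∃ L Lf : V → V → ℝ, Ck2 Z x P R.N (sgN R.N) ε i j a b L Lf ∧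
      RTc x P R R.N MN (sgN R.N) ε (mi i) i j a b L Lf := by
  obtain ⟨S, ζ, Y, N, d0, q1, q2, q3, lq1, lq2, lq3, gp, gp', gm, gm', g1, g2, g3, B, h1, h2,
    h3⟩ := h
  exact h1.cls hi hab (sgN_sgm_le ε0 N0 i j) h2 h3 he

/-- **all solutions of one world in a cell and a class**, the index types are free -/
inductive WexT (Z : Hzd) (x : V → V → ℝ) (P : V → Prop) [DecidablePred P] (R : RT.Tab)
    (mi : ℕ → ℕ) (ε : ℝ) (A D : Finset V) (i j : ℕ) : Prop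
  | mk {Λ0 J1 M1 Λ1 J2 M2 Λ2 J3 M3 Λ3 : Type} [Fintype Λ0]
    [Fintype J1] [Nonempty J1] [Fintype M1] [Nonempty M1] [Fintype Λ1]
    [Fintype J2] [Nonempty J2] [Fintype M2] [Nonempty M2] [Fintype Λ2]
    [Fintype J3] [Nonempty J3] [Fintype M3] [Nonempty M3] [Fintype Λ3]
    (h : Wex Z x P R mi ε A D i j Λ0 J1 M1 Λ1 J2 M2 Λ2 J3 M3 Λ3) : WexT Z x P R mi ε A D i j

/-- the constants of a pair from its world -/
theorem WexT.cls (ε0 : 0 < ε) (N0 : 0 < R.N) (he : REnt R) {a b : V} (hab : a ≠ b) (hi : i < R.N)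
    (h : WexT Z x P R mi ε {a} {a, b} i j) :
    ∃ L Lf : V → V → ℝ, Ck2 Z x P R.N (sgN R.N) ε i j a b L Lf ∧
      RTc x P R R.N MN (sgN R.N) ε (mi i) i j a b L Lf := by
  cases h with
  | mk h => exact h.cls ε0 N0 he hab hi

/-- the minimum with further nonnegative constants -/
theorem RTc.min {N : ℕ} {M : ℕ → ℕ} {sg : ℕ → ℕ → ℝ} {m : ℕ} {a b : V}
    {L Lf L' Lf' : V → V → ℝ} (h : RTc x P R N M sg ε m i j a b L Lf)
    (l0 : ∀ c ∈ ({a, b} : Finset V)ᶜ, ∀ d ∈ ({a, b} : Finset V)ᶜ, 0 ≤ L' c d)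
    (f0 : ∀ c ∈ ({a, b} : Finset V)ᶜ, ∀ d ∈ ({a, b} : Finset V)ᶜ, 0 ≤ Lf' c d) :
    RTc x P R N M sg ε m i j a b (fun c d => Min.min (L c d) (L' c d))
      (fun c d => Min.min (Lf c d) (Lf' c d)) where
  nL := fun c hc d hd => le_min (h.nL c hc d hd) (l0 c hc d hd)
  nF := fun c hc d hd => le_min (h.nF c hc d hd) (f0 c hc d hd)
  pd := fun c hc d hd hP hb => by
    obtain ⟨e1, e2⟩ := h.pd c hc d hd hP hb
    constructor
    · show Min.min (L c d) (L' c d) = 0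
      rw [e1]
      exact min_eq_left (l0 c hc d hd)
    · show Min.min (Lf c d) (Lf' c d) = 0
      rw [e2]
      exact min_eq_left (f0 c hc d hd)
  B := fun t ht hi s hs hj => (h.B t ht hi s hs hj).mono
    (fun _ _ _ _ _ _ _ => min_le_left _ _) (fun _ _ _ _ _ _ _ => min_le_left _ _)

/-- **the star constants of a graph** -/
structure StOk (Z : Hzd) (x : V → V → ℝ) (P : V → Prop) [DecidablePred P] (R : RT.Tab)
    (mi : ℕ → ℕ) (ε : ℝ) (Ls Lsf : ℕ → ℕ → V → V → V → ℝ) : Prop where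
  S : RTcs x P R MN (sgN R.N) ε mi Ls Lsf
  l0 : ∀ i j a d e, 0 ≤ Ls i j a d e
  f0 : ∀ i j a d e, 0 ≤ Lsf i j a d e
  k : ∀ i < R.N, ∀ j ≤ i, ∀ a b, P a → P b → a ≠ b →
    Ck2 Z x P R.N (sgN R.N) ε i j a b (Ls i j b) (Lsf i j b)

end world

/-- **the input of one graph from the worlds, the star, the densities and the inequalities** -/
theorem c2_world {V : Type} [Fintype V] [DecidableEq V] {Gr : SimpleGraph V} [Fintype Gr.edgeSet]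
    [DecidableEq Gr.edgeSet] {x : Gr.edgeSet → ℝ} [Pool.Agent.RZ.RCG.CX x] (hx : IsFractionalMatching Gr x)
    {p : Ps} {q : TDt5} {R : RT.Tab} {mi : ℕ → ℕ} {ε : ℝ} (hm : Mp R mi)
    (ε0 : 0 < ε) (N0 : 0 < R.N) (he : REnt R)
    {Ls Lsf : ℕ → ℕ → V ⊕ V → V ⊕ V → V ⊕ V → ℝ}
    (hW : ∀ A D : Finset (V ⊕ V), A ⊆ D → D.card ≤ 2 → ∀ i < R.N, ∀ j ≤ i,
      WexT p.z.hz (xe x) (P0 V) R mi ε A D i j)
    (hS : StOk p.z.hz (xe x) (P0 V) R mi ε Ls Lsf)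
    (hl : LateN p q (xe x) (P0 V))
    (hT : ∀ L Lf : ℕ → ℕ → V ⊕ V → V ⊕ V → V ⊕ V → V ⊕ V → ℝ,
      Cls p.z.hz (xe x) (P0 V) (mkC R.N MN (sgN R.N) ε L Lf (lgs Lf)) →
      RTb2 (xe x) (P0 V) R (Lc (P0 V) (mkC R.N MN (sgN R.N) ε L Lf (lgs Lf)))
        (RCN.K.Lr (P0 V) (mkC R.N MN (sgN R.N) ε L Lf (lgs Lf)))
        (stE R.N MN (sgN R.N) ε Ls) (stE R.N MN (sgN R.N) ε Lsf) →
      TT (p.da (kdN p q) (mkC R.N MN (sgN R.N) ε L Lf (lgs Lf))) x)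
    (hP : ∀ L Lf : ℕ → ℕ → V ⊕ V → V ⊕ V → V ⊕ V → V ⊕ V → ℝ,
      Cls p.z.hz (xe x) (P0 V) (mkC R.N MN (sgN R.N) ε L Lf (lgs Lf)) →
      RTb2 (xe x) (P0 V) R (Lc (P0 V) (mkC R.N MN (sgN R.N) ε L Lf (lgs Lf)))
        (RCN.K.Lr (P0 V) (mkC R.N MN (sgN R.N) ε L Lf (lgs Lf)))
        (stE R.N MN (sgN R.N) ε Ls) (stE R.N MN (sgN R.N) ε Lsf) →
      PP (p.da (kdN p q) (mkC R.N MN (sgN R.N) ε L Lf (lgs Lf))) x) :
    ∃ C : Cx (V ⊕ V), Cls p.z.hz (xe x) (P0 V) C ∧ LateN p q (xe x) (P0 V) ∧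
      TT (p.da (kdN p q) C) x ∧ PP (p.da (kdN p q) C) x := by
  refine c2_star hx hm ε0 N0 (G := fun _ _ _ _ _ _ => True) hS.S
    (fun i hi j hj a b ha hb hab => ?_) hl (fun L Lf _ hC hB => hT L Lf hC hB)
    (fun L Lf _ hC hB => hP L Lf hC hB)
  obtain ⟨L, Lf, h1, h2⟩ := (hW {a} {a, b} (by simp) Finset.card_le_two i hi j hj).cls
    ε0 N0 he hab hi
  exact ⟨_, _, h1.min (hS.k i hi j hj a b ha hb hab),
    h2.min (fun c _ d _ => hS.l0 i j b c d) (fun c _ d _ => hS.f0 i j b c d),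
    fun c _ d _ _ _ _ => ⟨min_le_right _ _, min_le_right _ _⟩, trivial⟩

end Pool.Agent.RZ.RCO
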