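import Pool.Agent.RZ.RCO.DnX
import Pool.Agent.RZ.RCO.Sk1

/-! The late rates from the worlds of the skeleton (MP_73ccd0_lc, class of the bounded
weights). -/

set_option autoImplicit false
set_option linter.unusedSectionVars false

namespace Pool.Agent.RZ.RCO

open Set Finset MeasureTheory Pool.Agent.RZ.RCRSHalf Pool.Agent.RZ.RCG Pool.Agent.RZ.RCG.Ct
open Pool.Agent.RZ.RCN Pool.Agent.RZ.RCN.K Pool.Agent.RZ.RCM9 Pool.Agent.RZ.RCE

variable {V : Type*} [Fintype V] [DecidableEq V]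

/-- the constants of a world, zero at its removed vertices -/
noncomputable def mD (D : Finset V) (L : V → V → ℝ) (c d : V) : ℝ :=
  open Classical in if c ∈ Dᶜ ∧ d ∈ Dᶜ then L c d else 0

theorem mD_eq {D : Finset V} {L : V → V → ℝ} {c d : V} (hc : c ∈ Dᶜ) (hd : d ∈ Dᶜ) :
    mD D L c d = L c d := by
  unfold mD
  rw [if_pos ⟨hc, hd⟩]

/-- what the densities need of one world: constants `L` with the closures, `B` bounds the columns
at the real vertices, no columns at the others -/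
structure WdX (Z : Hzd) (x : V → V → ℝ) (P : V → Prop) [DecidablePred P] (A D : Finset V)
    (α τ σ : ℝ) (B : Pt → ℝ) (L : V → V → ℝ) : Prop where
  nn : ∀ c d, 0 ≤ L c d
  cl : ClK Z x P A D α τ σ L
  col : ∀ c ∉ D, P c → ∑ d ∈ (insert c (A ∪ D))ᶜ, L d c ≤ B (fp x D c)
  col0 : ∀ c ∉ D, ¬P c → ∑ d ∈ (insert c (A ∪ D))ᶜ, L d c = 0

theorem kk_mem (x : V → V → ℝ) {P : V → Prop} (hx : RCG.Ct.Wt x P 1) (D : Finset V) (v : V) :
    (fp x D v).k ∈ Icc (0 : ℝ) 1 := by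
  show kk x D v ∈ _
  unfold kk
  refine ⟨Finset.sum_nonneg fun w _ => hx.nonneg w v, ?_⟩
  have h1 : ∑ w ∈ D, x w v = ∑ w ∈ D, x v w := Finset.sum_congr rfl fun w _ => hx.symm w v
  rw [h1]
  exact (Finset.sum_le_sum_of_subset_of_nonneg (Finset.subset_univ _)
    fun w _ _ => hx.nonneg v w).trans (hx.row v)

section fin

variable {Z : Hzd} {x : V → V → ℝ} {P : V → Prop} [DecidablePred P]
variable {A D : Finset V} {α τ σ ρ : ℝ} {S : Finset ℝ} {ζ : V → V → ℝ → ℝ} {Y N : V → ℝ → ℝ}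
variable {Λ0 : Type*} [Fintype Λ0] {d0 : R12 V Λ0}
  {gp gp' gm gm' : Finset V → V → V → ℝ → ℝ} {g1 g2 g3 : IxF V → ℝ → ℝ}
  {J1 M1 Λ1 : Type*} [Fintype J1] [Nonempty J1] [Fintype M1] [Nonempty M1] [Fintype Λ1]
  {J2 M2 Λ2 : Type*} [Fintype J2] [Nonempty J2] [Fintype M2] [Nonempty M2] [Fintype Λ2]
  {J3 M3 Λ3 : Type*} [Fintype J3] [Nonempty J3] [Fintype M3] [Nonempty M3] [Fintype Λ3]
  {q1 : SysD J1 M1 Λ1} {q2 : SysD J2 M2 Λ2} {q3 : SysD J3 M3 Λ3} {lq1 lq2 lq3 : Bool}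
  {b : EgB}

/-- **the killed constants of a world** -/
theorem FulD.wdX (hD : D.card ≤ 2) (hAD : A ⊆ D) (α0 : 0 ≤ α)
    (h : FulD Z x P A D α τ σ ρ S ζ Y N d0 q1 q2 q3 lq1 lq2 lq3 gp gp' gm gm' g1 g2 g3)
    (hb : FulB Z x P D τ σ ρ S ζ Y q1 q2 q3 lq1 lq2 lq3 gp gm g1 g2 g3 b) :
    WdX Z x P A D α τ σ b.cl
      (mD D (LdF (Z.hh x P) Dᶜ τ σ (Tc0 (Z.hh x P) D ζ Y) gm g1 g2)) := by
  have hx := h.ful.wt
  have eU : ∀ c, (insert c (A ∪ D))ᶜ = Dᶜ.erase c := fun c => by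
    rw [Finset.union_eq_right.2 hAD]
    ext e
    simp only [Finset.mem_compl, Finset.mem_insert, Finset.mem_erase, not_or]
  have dead : ∀ {c d : V}, c ∈ Dᶜ → d ∈ Dᶜ → ¬P c ∨ ¬P d →
      LdF (Z.hh x P) Dᶜ τ σ (Tc0 (Z.hh x P) D ζ Y) gm g1 g2 c d = 0 := by
    intro c d hc hd hP
    rcases hP with hP | hP
    · exact (h.ful.sol.dead1 h.ful.dat hx ⟨h.ful.ρ0, h.ful.ρτ⟩ hd
        fun e _ => hx.pz c e fun hh => hP hh.1).1
    · exact (h.ful.sol.dead2 h.ful.dat hx ⟨h.ful.ρ0, h.ful.ρτ⟩ hc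
        fun e _ => hx.pz d e fun hh => hP hh.1).1
  refine ⟨fun c d => ?_, h.ful.clK.mono α0 h.ful.sol.τ1 fun c hc d hd _ => (mD_eq hc hd).ge,
    fun c hc hPc => ?_, fun c hc hPc => ?_⟩
  · unfold mD
    split_ifs with h1
    · exact h.ful.ld_nonneg h1.1 h1.2
    · exact le_rfl
  · have hcD : c ∈ Dᶜ := Finset.mem_compl.2 hc
    rw [eU]
    refine le_trans (le_of_eq ?_) (hb.sums hD h hcD hPc).1
    refine Finset.sum_congr rfl fun d hd => ?_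
    have hdD := Finset.mem_of_mem_erase hd
    rw [mD_eq hdD hcD]
    unfold ind
    split_ifs with h1
    · rw [one_mul]
    · rw [zero_mul]
      exact dead hdD hcD (Or.inl h1)
  · have hcD : c ∈ Dᶜ := Finset.mem_compl.2 hc
    rw [eU]
    refine Finset.sum_eq_zero fun d hd => ?_
    rw [mD_eq (Finset.mem_of_mem_erase hd) hcD]
    exact dead (Finset.mem_of_mem_erase hd) hcD (Or.inr hPc)

end fin

variable {Z : Hzd} {x : V → V → ℝ} {P : V → Prop} [DecidablePred P]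
variable {A D : Finset V} {α τ σ : ℝ}

theorem WdX.tyX {B : Pt → ℝ} {L : V → V → ℝ} (hx : RCG.Ct.Wt x P 1) (hD : D.card ≤ 2)
    (h : WdX Z x P A D α τ σ B L) {v : ℝ → ℝ} (hv : ∀ p, Fu p → B p ≤ v p.k) (v0 : 0 ≤ v 0) :
    Dx.TyX Z x P A D α τ σ v L where
  nn := h.nn
  cl := h.cl
  col c hc := by
    by_cases hP : P c
    · exact ⟨_, kk_mem x hx D c, (h.col c hc hP).trans
        (hv _ (fu_fp hx hD (Finset.mem_compl.2 hc) hP))⟩
    · exact ⟨0, ⟨le_rfl, zero_le_one⟩, (h.col0 c hc hP).le.trans v0⟩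

theorem ci_mono {N : ℕ} {s t : ℝ} (h : s ≤ t) : ci N s ≤ ci N t := by
  unfold ci
  exact Nat.sub_le_sub_right (Nat.ceil_mono (mul_le_mul_of_nonneg_right h (Nat.cast_nonneg N))) 1

theorem cb_le_ca {N i j : ℕ} (h : i < j) : cb N i ≤ ca N j := by
  unfold cb ca
  have h1 : (i : ℝ) + 1 ≤ j := by exact_mod_cast h
  exact div_le_div_of_nonneg_right h1 (Nat.cast_nonneg N)

/-- the class of the cell of a time is active -/
theorem act_ci {N : ℕ} (N0 : 0 < N) {ε : ℝ} (ε0 : 0 < ε) {i : ℕ} {s : ℝ} (hs0 : 0 ≤ s)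
    (hs1 : s ≤ 1) (hi : ci N s ≤ i) : Act MN (sgN N) ε i s (ci N s) := by
  have h := ci_mem N0 hs0 hs1
  refine ⟨hi, fun _ => h.2, fun k hk => ?_⟩
  have h1 : sgN N i k ≤ ca N (ci N s) := cb_le_ca hk
  linarith [h.1]

/-- **the world side of the densities from the worlds of the skeleton** -/
theorem denX_of (hx : RCG.Ct.Wt x P 1) {R : RT.Tab} {mi : ℕ → ℕ} (hm : Mp R mi) {ε : ℝ}
    (ε0 : 0 < ε) (N0 : 0 < R.N)
    (H : ∀ A D : Finset V, A ⊆ D → D.card ≤ 2 → ∀ i < R.N, ∀ j ≤ i,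
      ∃ (B : Pt → ℝ) (L : V → V → ℝ), WdX Z x P A D (ca R.N i) (cb R.N i) (cb R.N j) B L ∧
        ∀ t ∈ Icc (0 : ℝ) 1, ci R.N t = i → ∀ s ∈ Icc 0 t, Act MN (sgN R.N) ε i s j →
          ∀ p, Fu p → B p ≤ R.val RT.kCL (mi i) t s p.k) :
    Dx.DenX Z x P R RT.kCL := by
  intro t ht
  have hi := ci_lt N0 ht.2
  have hmt := ci_mem N0 ht.1 ht.2
  have key : ∀ A D : Finset V, A ⊆ D → D.card ≤ 2 → ∀ s ∈ Icc 0 t,
      ∃ L, Dx.TyX Z x P A D (ca R.N (ci R.N t)) (cb R.N (ci R.N t)) (cb R.N (ci R.N s))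
        (fun k => R.val RT.kCL (mi (ci R.N t)) t s k) L := by
    intro A D hAD hD s hs
    have hji : ci R.N s ≤ ci R.N t := ci_mono hs.2
    obtain ⟨B, L, hL, hB⟩ := H A D hAD hD _ hi _ hji
    exact ⟨L, hL.tyX hx hD (hB t ht rfl s hs
      (act_ci N0 ε0 hs.1 (hs.2.trans ht.2) hji)) (RT.Tab.val_nonneg _ _ _ _ le_rfl zero_le_one)⟩
  have tt : t ∈ Icc 0 t := ⟨ht.1, le_rfl⟩
  refine ⟨mi (ci R.N t), hm.lt _ hi, (hm.lo _ hi).trans hmt.1, hmt.2.trans (hm.hi _ hi),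
    fun a _ => key {a} {a} (Finset.Subset.refl _) (by simp) t tt,
    fun a b _ _ => key {a, b} {a, b} (Finset.Subset.refl _) Finset.card_le_two t tt,
    fun s hs => ⟨fun a _ => key {a} {a} (Finset.Subset.refl _) (by simp) s hs,
      fun a b _ _ => key {a} {a, b} (by simp) Finset.card_le_two s hs⟩⟩

/-- the killed constants of a world of the skeleton -/
theorem Wex.wdX {R : RT.Tab} {mi : ℕ → ℕ} {ε : ℝ} {i j : ℕ}
    {Λ0 J1 M1 Λ1 J2 M2 Λ2 J3 M3 Λ3 : Type} [Fintype Λ0]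
    [Fintype J1] [Nonempty J1] [Fintype M1] [Nonempty M1] [Fintype Λ1]
    [Fintype J2] [Nonempty J2] [Fintype M2] [Nonempty M2] [Fintype Λ2]
    [Fintype J3] [Nonempty J3] [Fintype M3] [Nonempty M3] [Fintype Λ3]
    (hAD : A ⊆ D) (hD : D.card ≤ 2)
    (h : Wex Z x P R mi ε A D i j Λ0 J1 M1 Λ1 J2 M2 Λ2 J3 M3 Λ3) :
    ∃ (B : Pt → ℝ) (L : V → V → ℝ), WdX Z x P A D (ca R.N i) (cb R.N i) (cb R.N j) B L ∧
      ∀ t ∈ Icc (0 : ℝ) 1, ci R.N t = i → ∀ s ∈ Icc 0 t, Act MN (sgN R.N) ε i s j →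
        ∀ p, Fu p → B p ≤ R.val RT.kCL (mi i) t s p.k := by
  obtain ⟨S, ζ, Y, N, d0, q1, q2, q3, lq1, lq2, lq3, gp, gp', gm, gm', g1, g2, g3, B, h1, h2,
    h3⟩ := h
  exact ⟨B.cl, _, h1.wdX hD hAD (ca_nonneg _ _) h2, fun t ht hti s hs hact =>
    (h3 t ht hti s hs hact).cl⟩

/-- the killed constants of a world of the skeleton, the index types are free -/
theorem WexT.wdX {R : RT.Tab} {mi : ℕ → ℕ} {ε : ℝ} {i j : ℕ} (hAD : A ⊆ D) (hD : D.card ≤ 2)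
    (h : WexT Z x P R mi ε A D i j) :
    ∃ (B : Pt → ℝ) (L : V → V → ℝ), WdX Z x P A D (ca R.N i) (cb R.N i) (cb R.N j) B L ∧
      ∀ t ∈ Icc (0 : ℝ) 1, ci R.N t = i → ∀ s ∈ Icc 0 t, Act MN (sgN R.N) ε i s j →
        ∀ p, Fu p → B p ≤ R.val RT.kCL (mi i) t s p.k := by
  cases h with
  | mk h => exact h.wdX hAD hD

/-- **the late rates from the worlds of the skeleton** -/
theorem lateN_of_wex {p : Ps} {q : TDt5} {SA SC SD SE EA EC ED : List ℚ}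
    (hx : RCG.Ct.Wt x P 1) (qB : q.Bd) (qth : q.th = 0) (t20 : (0 : ℝ) ≤ q.t2)
    (hL : LtN q SA SC SD SE EA EC ED) {R : RT.Tab} (hR : R.Cov) {d : ℕ → Dx.XRow}
    (chk : ∀ m < R.M, Dx.xChk (1 / (xN : ℚ)) R RT.kCL SA SC SD SE d m = true)
    {mi : ℕ → ℕ} (hm : Mp R mi) {ε : ℝ} (ε0 : 0 < ε)
    (hW : ∀ A D : Finset V, A ⊆ D → D.card ≤ 2 → ∀ i < R.N, ∀ j ≤ i,
      WexT p.z.hz x P R mi ε A D i j) : LateN p q x P :=
  Dx.lateN_of_DenX hx (X := 1 / (xN : ℚ)) (fun u w => by rw [← XM_cast]; exact hx.leX u w)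
    (by positivity) qB qth t20 hL hR (by decide) chk
    (denX_of hx hm ε0 hR.N0 fun A D hAD hD i hi j hj => (hW A D hAD hD i hi j hj).wdX hAD hD)

end Pool.Agent.RZ.RCO
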