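import Pool.Agent.RZ.RCO.DatX
import Pool.Agent.RZ.RCO.DnY
import Pool.Agent.RZ.RCO.RTab

/-! Generated: the numbers of the densities in the big cells, with the check of the table
(MP_73ccd0_lc). -/

set_option autoImplicit false

namespace Pool.Agent.RZ.RCO.DatX

open Pool.Agent.RZ.RCO Pool.Agent.RZ.RCO.RT Pool.Agent.RZ.RCO.Dx Pool.Agent.RZ.RCO.RTab Pool.Agent.RZ.RCG

/-- the numbers of the big cells -/
def xrL : List XRow := [
  ⟨27321/125000, 109283/1000000, 150137/1000000, 7311/100000⟩,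
  ⟨2185761/10000000, 109289/1000000, 150137/1000000, 998983/10000000⟩,
  ⟨1093251/5000000, 1093261/10000000, 150137/1000000, 501431/5000000⟩,
  ⟨438407/2000000, 1096029/10000000, 150137/1000000, 1019769/10000000⟩,
  ⟨2216941/10000000, 277121/2500000, 150137/1000000, 534677/5000000⟩,
  ⟨456433/2000000, 1141099/10000000, 1501377/10000000, 1163989/10000000⟩,
  ⟨2399509/10000000, 599887/5000000, 300293/2000000, 649811/5000000⟩,
  ⟨2573053/10000000, 1286547/10000000, 751/5000, 1469373/10000000⟩,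
  ⟨139859/500000, 1398609/10000000, 60161/400000, 1662689/10000000⟩,
  ⟨382209/1250000, 382213/2500000, 754707/5000000, 58349/312500⟩,
  ⟨3364743/10000000, 1682383/10000000, 1521827/10000000, 522929/2500000⟩,
  ⟨1856283/5000000, 1856289/10000000, 309287/2000000, 58331/250000⟩,
  ⟨404723/1000000, 2023617/10000000, 395797/2500000, 2558373/10000000⟩,
  ⟨4388821/10000000, 2194409/10000000, 65443/400000, 696167/2500000⟩,
  ⟨590497/1250000, 472397/2000000, 340929/2000000, 3005861/10000000⟩,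
  ⟨629727/1250000, 1259453/5000000, 223101/1250000, 803471/2500000⟩,
  ⟨5343669/10000000, 534367/2000000, 469579/2500000, 427317/1250000⟩,
  ⟨1126607/2000000, 1408261/5000000, 30953/156250, 722919/2000000⟩,
  ⟨5914077/10000000, 369631/1250000, 1046983/5000000, 475967/1250000⟩,
  ⟨6162853/10000000, 3081443/10000000, 2204783/10000000, 3981193/10000000⟩]

def xr (m : ℕ) : XRow := xrL.getD m ⟨0, 0, 0, 0⟩

theorem xChk_congr {X : ℚ} {R R' : Tab} {kC : ℕ} {SA SC SD SE : List ℚ} {d : ℕ → XRow} {m : ℕ}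
    (hT : R.T = R'.T) (hr : R.r = R'.r) :
    xChk X R kC SA SC SD SE d m = xChk X R' kC SA SC SD SE d m := by
  unfold xChk
  rw [hT, hr]

theorem xchk0 : ∀ m < (tabq 1).M, xChk (1 / (xN : ℚ)) (tabq 1) kCL SA SC SD SE xr m = true := by
  decide +kernel

/-- **the rows of the table are below the rates of the densities** -/
theorem xchk (k : ℕ) : ∀ m < (tabq k).M, xChk (1 / (xN : ℚ)) (tabq k) kCL SA SC SD SE xr m = true :=
  fun m hm => (xChk_congr (R' := tabq 1) rfl rfl).trans (xchk0 m hm)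

open Pool.Agent.RZ.RCRSHalf Pool.Agent.RZ.RCG.Ct Pool.Agent.RZ.RCN Pool.Agent.RZ.RCN.K Pool.Agent.RZ.RCE
open Pool.Agent.RZ.RCM9.CertP

theorem qth : q.th = 0 := rfl

theorem qt2 : (0 : ℝ) ≤ (q.t2 : ℝ) := by
  have : q.t2 = 1 := rfl
  rw [this]
  norm_num

section late

variable {V : Type*} [Fintype V] [DecidableEq V] {x : V → V → ℝ} {P : V → Prop} [DecidablePred P]

/-- **the late rates of a graph of the class from the worlds of the skeleton**: the input `hl` of
`c2_world` for the data of this file -/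
theorem lateN (hx : RCG.Ct.Wt x P 1) {k : ℕ} (hk : 0 < k) {mi : ℕ → ℕ} (hm : Mp (tabq k) mi)
    {ε : ℝ} (ε0 : 0 < ε)
    (hW : ∀ A D : Finset V, A ⊆ D → D.card ≤ 2 → ∀ i < (tabq k).N, ∀ j ≤ i,
      WexT p.z.hz x P (tabq k) mi ε A D i j) : LateN p q x P :=
  lateN_of_wex hx bd qth qt2 ltn (cov hk) (xchk k) hm ε0 hW

end late

end Pool.Agent.RZ.RCO.DatX
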