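import Pool.Agent.RZ.RCO.DnT

/-! The weighted sums of the exponents from typed entries and rows, or from sums with the weights
(MP_73ccd0_lc, route P). -/

set_option autoImplicit false
set_option linter.unusedSectionVars false

namespace Pool.Agent.RZ.RCO

open Set Finset MeasureTheory Pool.Agent.RZ.RCRSHalf Pool.Agent.RZ.RCG Pool.Agent.RZ.RCG.Ct
open Pool.Agent.RZ.RCN Pool.Agent.RZ.RCN.K Pool.Agent.RZ.RCE Pool.Agent.RZ.RCM9

section sums

variable {V : Type*} [Fintype V] [DecidableEq V] {x : V → V → ℝ} {P : V → Prop}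
  [DecidablePred P] {Z : Hzd} {kw : ℝ → ℝ} {α τ σ : ℝ}

theorem w_le_one (hx : Wt x P 1) {a b c : V} (hbc : b ≠ c) : x a b + x a c ≤ 1 := by
  have h3 := hx.row a
  rw [← Finset.sum_add_sum_compl ({b, c} : Finset V), Finset.sum_pair hbc] at h3
  have : 0 ≤ ∑ e ∈ ({b, c} : Finset V)ᶜ, x a e := Finset.sum_nonneg fun e _ => hx.nonneg a e
  linarith

variable {S1 l1 S3 l3 : ℝ}

/-- a world with bounds of the weighted sums -/
structure DsW (Z : Hzd) (x : V → V → ℝ) (P : V → Prop) [DecidablePred P] (A B : Finset V)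
    (α τ σ : ℝ) (k : V → ℝ) (D : ℝ) (L : V → V → ℝ) : Prop where
  nn : ∀ c d, 0 ≤ L c d
  cl : ClK Z x P A B α τ σ L
  sum : ∀ c ∉ B, ∑ d ∈ (insert c (A ∪ B))ᶜ, k d * L d c ≤ D

variable {D1 D3 D2 : ℝ}

/-- equal times, sums with the weights (no gain from the weights of the missing pairs:
`kw = 1`) -/
theorem sumT_of_D (hx : Wt x P 1) (hkw : ∀ w ∈ Icc (0 : ℝ) 1, 1 ≤ kw w) (p1 : 0 ≤ D1)
    (p3 : 0 ≤ D3) (p2 : 0 ≤ D2)
    (h1 : ∀ a, P a → ∃ L, DsW Z x P {a} {a} α τ τ (x a) D1 L)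
    (h3 : ∀ a b, P a → a ≠ b → ∃ L, DsW Z x P {a, b} {a, b} α τ τ (x a) D3 L)
    (h2 : ∀ a b, P a → a ≠ b →
      ∃ L, DsW Z x P {a, b} {a, b} α τ τ (fun d => x a d + x b d) (2 * D2) L) :
    SumT Z x P kw α τ (D3 + D1) D2 := by
  have nn := add_nonneg p3 p1
  refine ⟨nn, p2, fun a b ha hb hab => ?_, fun a b ha hab => ?_⟩
  · obtain ⟨L1, k1⟩ := h1 a ha
    obtain ⟨L3, k3⟩ := h3 a b ha hab
    refine ⟨L1, L3, k1.nn, k3.nn, k1.cl, k3.cl, fun c hac hbc => ?_⟩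
    have w0 : 0 ≤ x a b + x a c := add_nonneg (hx.nonneg _ _) (hx.nonneg _ _)
    have w1 := w_le_one hx (a := a) hbc
    have s3 : ∑ d ∈ ({a, b, c} : Finset V)ᶜ, x a d * L3 d c ≤ D3 := by
      refine le_trans (le_of_eq (Finset.sum_congr ?_ fun _ _ => rfl))
        (k3.sum c (by simp [hac.symm, hbc.symm]))
      ext e
      simp only [Finset.mem_compl, Finset.mem_insert, Finset.mem_union, Finset.mem_singleton]
      tauto
    have s1 : ∑ d ∈ ({a, b, c} : Finset V)ᶜ, x a d * L1 d b ≤ D1 := by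
      refine le_trans (Finset.sum_le_sum_of_subset_of_nonneg ?_ fun d _ _ =>
        mul_nonneg (hx.nonneg a d) (k1.nn d b)) (k1.sum b (by simp [hab.symm]))
      refine Finset.compl_subset_compl.2 ?_
      intro e
      simp only [Finset.mem_insert, Finset.mem_union, Finset.mem_singleton]
      tauto
    have e : ∑ d ∈ ({a, b, c} : Finset V)ᶜ, x a d * (L3 d c + L1 d b)
        = ∑ d ∈ ({a, b, c} : Finset V)ᶜ, x a d * L3 d c
          + ∑ d ∈ ({a, b, c} : Finset V)ᶜ, x a d * L1 d b := by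
      rw [← Finset.sum_add_distrib]
      exact Finset.sum_congr rfl fun _ _ => by ring
    rw [e]
    have s4 := mul_le_mul_of_nonneg_right (hkw _ ⟨w0, w1⟩) nn
    linarith
  · obtain ⟨L3, k3⟩ := h2 a b ha hab
    refine ⟨L3, k3.nn, k3.cl, fun c hac hbc => ?_⟩
    refine le_trans (le_of_eq (Finset.sum_congr ?_ fun _ _ => rfl))
      (k3.sum c (by simp [hac.symm, hbc.symm]))
    ext e
    simp only [Finset.mem_compl, Finset.mem_insert, Finset.mem_union, Finset.mem_singleton]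
    tauto

/-- different times, sums with the weights -/
theorem sumS_of_D (hx : Wt x P 1) (hkw : ∀ w ∈ Icc (0 : ℝ) 1, 1 ≤ kw w) (p1 : 0 ≤ D1)
    (p3 : 0 ≤ D3) (h1 : ∀ a, P a → ∃ L, DsW Z x P {a} {a} α τ σ (x a) D1 L)
    (h3 : ∀ a b, P a → a ≠ b → ∃ L, DsW Z x P {a} {a, b} α τ σ (x a) D3 L) :
    SumS Z x P kw α τ σ (D1 + D3) := by
  have nn := add_nonneg p1 p3
  refine ⟨nn, fun a b ha hb hab => ?_⟩
  obtain ⟨L1, k1⟩ := h1 a ha
  obtain ⟨L3, k3⟩ := h3 a b ha hab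
  refine ⟨L1, L3, k1.nn, k3.nn, k1.cl, k3.cl, fun c hac hbc => ?_⟩
  have w0 : 0 ≤ x a b + x a c := add_nonneg (hx.nonneg _ _) (hx.nonneg _ _)
  have w1 := w_le_one hx (a := a) hbc
  have s3 : ∑ d ∈ ({a, b, c} : Finset V)ᶜ, x a d * L3 d c ≤ D3 := by
    refine le_trans (le_of_eq (Finset.sum_congr ?_ fun _ _ => rfl))
      (k3.sum c (by simp [hac.symm, hbc.symm]))
    ext e
    simp only [Finset.mem_compl, Finset.mem_insert, Finset.mem_union, Finset.mem_singleton]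
    tauto
  have s1 : ∑ d ∈ ({a, b, c} : Finset V)ᶜ, x a d * L1 d b ≤ D1 := by
    refine le_trans (Finset.sum_le_sum_of_subset_of_nonneg ?_ fun d _ _ =>
      mul_nonneg (hx.nonneg a d) (k1.nn d b)) (k1.sum b (by simp [hab.symm]))
    refine Finset.compl_subset_compl.2 ?_
    intro e
    simp only [Finset.mem_insert, Finset.mem_union, Finset.mem_singleton]
    tauto
  have e : ∑ d ∈ ({a, b, c} : Finset V)ᶜ, x a d * (L1 d b + L3 d c)
      = ∑ d ∈ ({a, b, c} : Finset V)ᶜ, x a d * L1 d b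
        + ∑ d ∈ ({a, b, c} : Finset V)ᶜ, x a d * L3 d c := by
    rw [← Finset.sum_add_distrib]
    exact Finset.sum_congr rfl fun _ _ => by ring
  rw [e]
  have s4 := mul_le_mul_of_nonneg_right (hkw _ ⟨w0, w1⟩) nn
  linarith

end sums

end Pool.Agent.RZ.RCO
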