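import Pool.Agent.RZ.RCM9.PVal

/-! The rates of the density errors from sums of the cells which are bounded by multiples of the
square of the time on big cells (MP_73ccd0_lc, route P). -/

set_option autoImplicit false
set_option linter.unusedSectionVars false

namespace Pool.Agent.RZ.RCO

open Set Finset MeasureTheory

open Pool.Agent.RZ.RCM9

open Pool.Agent.RZ.RCM9.Bern

/-- polynomials with nonnegative coefficients are nondecreasing -/
theorem pv_mono_of {l : List ℚ} (hl : ∀ z ∈ l, 0 ≤ z) {s t : ℝ} (hs : 0 ≤ s) (hst : s ≤ t) :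
    0 ≤ pv l s ∧ pv l s ≤ pv l t := by
  induction l with
  | nil => simp [pv]
  | cons c l ih =>
    obtain ⟨h1, h2⟩ := ih fun z hz => hl z (List.mem_cons_of_mem _ hz)
    have hc : (0 : ℝ) ≤ (c : ℝ) := by exact_mod_cast hl c List.mem_cons_self
    simp only [pv]
    refine ⟨add_nonneg hc (mul_nonneg hs h1), ?_⟩
    have h3 := mul_le_mul hst h2 h1 (hs.trans hst)
    linarith

end Pool.Agent.RZ.RCO
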