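import Pool.Agent.RZ.RCO.DnN
import Pool.Agent.RZ.RCO.DnP
import Pool.Agent.RZ.RCO.DnR
import Pool.Agent.RZ.RCO.RT

/-! The rates of the density errors from the columns in the table of the rows, weights at most `X`
(MP_73ccd0_lc, class of the bounded weights). -/

set_option autoImplicit false
set_option linter.unusedSectionVars false

namespace Pool.Agent.RZ.RCO.Dx

open Set Finset MeasureTheory Pool.Agent.RZ.RCRSHalf Pool.Agent.RZ.RCG Pool.Agent.RZ.RCG.Ct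
open Pool.Agent.RZ.RCN Pool.Agent.RZ.RCN.K Pool.Agent.RZ.RCE Pool.Agent.RZ.RCM9
open Pool.Agent.RZ.RCM9.Bern Pool.Agent.RZ.RCM9.Pk Pool.Agent.RZ.RCO.RT

/-! ### piecewise linear functions below polynomials -/

/-- a piecewise linear function below a parabola -/
theorem plx_le_sq {v : ℕ → ℝ} {α β : ℝ} (hβ : 0 ≤ β)
    (h : ∀ j ≤ 10, v j + β / 400 ≤ α + β * ((j : ℝ) / 10) ^ 2) {x : ℝ} (h0 : 0 ≤ x)
    (h1 : x ≤ 1) : plx 10 v x ≤ α + β * x ^ 2 := by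
  obtain ⟨l, hl, c, c0, c1, hc⟩ := cell_ex (n := 10) (by norm_num) h0 h1
  rw [plx_cell hl v c0 c1 hc]
  have a1 := mul_le_mul_of_nonneg_left (h l hl.le) (sub_nonneg.2 c1)
  have a2 := mul_le_mul_of_nonneg_left (h (l + 1) hl) c0
  have hx : x = (l + c) / 10 := by
    rw [eq_div_iff (by norm_num)]
    push_cast at hc
    linarith
  rw [hx]
  push_cast at a1 a2
  have a3 : 0 ≤ β * ((1 / 2 - c) ^ 2) := by positivity
  nlinarith

/-- `(t + e)² r` is below the polynomial for `T ≤ t` (coefficients) -/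
def tsOk (r w T e : ℚ) : List ℚ → Bool
  | c0 :: c1 :: a => decide (e ^ 2 * w ≤ c0) && decide (2 * e * w ≤ c1)
      && decide (r ≤ evq a T) && a.all fun z => decide (0 ≤ z)
  | _ => false

theorem tsOk.le {r w T e : ℚ} {l : List ℚ} (h : tsOk r w T e l = true)
    (T0 : 0 ≤ T) {t : ℝ} (ht : (T : ℝ) ≤ t) :
    (r : ℝ) * t ^ 2 + (w : ℝ) * (2 * (e : ℝ) * t + (e : ℝ) ^ 2) ≤ pv l t := by
  match l with
  | [] => simp [tsOk] at h
  | [_] => simp [tsOk] at h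
  | c0 :: c1 :: a =>
    simp only [tsOk, Bool.and_eq_true, decide_eq_true_eq, List.all_eq_true] at h
    obtain ⟨⟨⟨h0, h1⟩, h2⟩, h3⟩ := h
    have T0' : (0 : ℝ) ≤ (T : ℝ) := by exact_mod_cast T0
    have t0 : 0 ≤ t := T0'.trans ht
    have m := (pv_mono_of h3 T0' ht).2
    have e1 : pv a (T : ℝ) = (evq a T : ℝ) := pv_evq a T
    have h2' : (r : ℝ) ≤ pv a t := by
      have : (r : ℝ) ≤ (evq a T : ℝ) := by exact_mod_cast h2
      rw [← e1] at this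
      exact this.trans m
    have h0' : (e : ℝ) ^ 2 * (w : ℝ) ≤ (c0 : ℝ) := by exact_mod_cast h0
    have h1' : 2 * (e : ℝ) * (w : ℝ) ≤ (c1 : ℝ) := by exact_mod_cast h1
    have h4 := mul_le_mul_of_nonneg_left h1' t0
    have h5 := mul_le_mul_of_nonneg_left h2' (sq_nonneg t)
    simp only [pv]
    nlinarith

theorem tn_cast (R : Tab) (m : ℕ) : (((R.T m : ℚ) / 1000 : ℚ) : ℝ) = R.tn m := by
  unfold Tab.tn
  push_cast
  ring

/-- the shift of the time in the first big cell -/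
def de (m : ℕ) : ℚ := if m = 0 then 1 / 50 else 0

theorem dl_eq (R : Tab) (m : ℕ) : R.dl m = (de m : ℝ) := by
  unfold Tab.dl de
  split_ifs <;> norm_num

/-- a piecewise linear table below a polynomial at equal times -/
theorem nodes_eq_le {R : Tab} {m : ℕ} {S : List ℚ} {v : ℕ → ℝ} {r : ℚ} (h : tsOk r r ((R.T m : ℚ) / 1000) (de m) S = true)
    (h10 : v 10 ≤ (r : ℝ)) (h0 : v 0 ≤ (r : ℝ)) {t : ℝ} (ht : R.tn m ≤ t) :
    (t + R.dl m) ^ 2 * plx 10 v (t / t) ≤ pv S t := by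
  have T0 : (0 : ℚ) ≤ (R.T m : ℚ) / 1000 := by positivity
  have key := tsOk.le h T0 (t := t) (by rw [tn_cast]; exact ht)
  have t0 : 0 ≤ t := le_trans (by unfold Tab.tn; positivity) ht
  have h1 : plx 10 v (t / t) ≤ (r : ℝ) := by
    rcases t0.eq_or_lt with h2 | h2
    · rw [← h2, div_zero, plx_cell (n := 10) (l := 0) (by norm_num) _ (c := 0) le_rfl
        zero_le_one (by norm_num)]
      linarith
    · rw [div_self h2.ne', plx_cell (n := 10) (l := 9) (by norm_num) _ (c := 1) zero_le_one le_rfl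
        (by norm_num)]
      linarith
  have h2 := mul_le_mul_of_nonneg_left h1 (sq_nonneg (t + R.dl m))
  refine h2.trans ?_
  rw [dl_eq]
  nlinarith

/-- a piecewise linear table below a polynomial at different times -/
theorem nodes_dd_le {R : Tab} {m : ℕ} {SD SE : List ℚ} {v : ℕ → ℝ} {al be : ℚ} (al0 : 0 ≤ al) (be0 : 0 ≤ be)
    (h : tsOk al (al + be) ((R.T m : ℚ) / 1000) (de m) SD = true)
    (hE : be ≤ evq SE ((R.T m : ℚ) / 1000)) (hE0 : ∀ z ∈ SE, 0 ≤ z)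
    (hj : ∀ j ≤ 10, v j + (be : ℝ) / 400 ≤ (al : ℝ) + (be : ℝ) * ((j : ℝ) / 10) ^ 2) {t s : ℝ}
    (ht : R.tn m ≤ t) (hs : s ∈ Icc 0 t) :
    (t + R.dl m) ^ 2 * plx 10 v (s / t) ≤ pv SD t + s ^ 2 * pv SE t := by
  have T0 : (0 : ℚ) ≤ (R.T m : ℚ) / 1000 := by positivity
  have ht' : (((R.T m : ℚ) / 1000 : ℚ) : ℝ) ≤ t := by rw [tn_cast]; exact ht
  have key := tsOk.le h T0 (t := t) ht'
  have t0 : 0 ≤ t := le_trans (by unfold Tab.tn; positivity) ht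
  have hx0 : 0 ≤ s / t := div_nonneg hs.1 t0
  have hx1 : s / t ≤ 1 := div_le_one_of_le₀ hs.2 t0
  have be0' : (0 : ℝ) ≤ (be : ℝ) := by exact_mod_cast be0
  have al0' : (0 : ℝ) ≤ (al : ℝ) := by exact_mod_cast al0
  have h1 : plx 10 v (s / t) ≤ (al : ℝ) + (be : ℝ) * (s / t) ^ 2 := plx_le_sq be0' hj hx0 hx1
  have cE : (be : ℝ) ≤ pv SE t := by
    have h2 : (be : ℝ) ≤ (evq SE ((R.T m : ℚ) / 1000) : ℝ) := Rat.cast_le.2 hE
    rw [← pv_evq] at h2
    exact h2.trans (pv_mono_of hE0 (by exact_mod_cast T0) ht').2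
  have h3 := mul_le_mul_of_nonneg_left h1 (sq_nonneg (t + R.dl m))
  have d0 : 0 ≤ R.dl m := Tab.dl_nonneg m
  have h4 : (t + R.dl m) ^ 2 * (s / t) ^ 2 ≤ s ^ 2 + 2 * R.dl m * t + R.dl m ^ 2 := by
    have e1 : t * (s / t) ≤ s := by
      rcases t0.eq_or_lt with h | h
      · rw [← h, zero_mul]
        exact hs.1
      · rw [mul_div_cancel₀ _ h.ne']
    have e2 : (t + R.dl m) * (s / t) ≤ s + R.dl m * (s / t) := by
      rw [add_mul]
      linarith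
    have e3 : 0 ≤ (t + R.dl m) * (s / t) := mul_nonneg (add_nonneg t0 d0) hx0
    have e4 := pow_le_pow_left₀ e3 e2 2
    have e5 : R.dl m * (s / t) ≤ R.dl m := by
      have := mul_le_mul_of_nonneg_left hx1 d0
      linarith
    have e6 : 0 ≤ R.dl m * (s / t) := mul_nonneg d0 hx0
    rw [← mul_pow]
    refine e4.trans ?_
    have e7 : s * (R.dl m * (s / t)) ≤ t * R.dl m := mul_le_mul hs.2 e5 e6 t0
    have e8 : (R.dl m * (s / t)) ^ 2 ≤ R.dl m ^ 2 := pow_le_pow_left₀ e6 e5 2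
    nlinarith
  have h5 := mul_le_mul_of_nonneg_left h4 be0'
  have h6 := mul_le_mul_of_nonneg_right cE (sq_nonneg s)
  refine h3.trans ?_
  rw [dl_eq] at h5 ⊢
  push_cast at key h5 ⊢
  have e9 : (t + (de m : ℝ)) ^ 2 * ((al : ℝ) + (be : ℝ) * (s / t) ^ 2)
      = (al : ℝ) * (t ^ 2 + (2 * (de m : ℝ) * t + (de m : ℝ) ^ 2))
        + (be : ℝ) * ((t + (de m : ℝ)) ^ 2 * (s / t) ^ 2) := by
    ring
  rw [e9]
  nlinarith

/-! ### the values of the table -/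

/-- the largest coefficient -/
def cmx (c : Cub) : ℚ :=
  ((max (max c.1 c.2.1) (max c.2.2.1 c.2.2.2) : ℕ) : ℚ) / RD

theorem ev_le_cmx (c : Cub) {k : ℝ} (hk : k ∈ Icc (0 : ℝ) 1) : c.ev k ≤ (cmx c : ℝ) := by
  set M : ℕ := max (max c.1 c.2.1) (max c.2.2.1 c.2.2.2) with hM
  have e : (cmx c : ℝ) = (M : ℝ) / RD := by
    unfold cmx
    push_cast [hM]
    rfl
  have hR := RD_pos.le
  have h1 : c.1 ≤ M := (le_max_left _ _).trans (le_max_left _ _)
  have h2 : c.2.1 ≤ M := (le_max_right _ _).trans (le_max_left _ _)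
  have h3 : c.2.2.1 ≤ M := (le_max_left _ _).trans (le_max_right _ _)
  have h4 : c.2.2.2 ≤ M := (le_max_right _ _).trans (le_max_right _ _)
  have q : ∀ {n : ℕ}, n ≤ M → (n : ℝ) / RD ≤ (M : ℝ) / RD := fun h =>
    div_le_div_of_nonneg_right (by exact_mod_cast h) hR
  unfold Cub.ev
  refine (cubR_mono (q h1) (q h2) (q h3) (q h4) hk.1 hk.2).trans (le_of_eq ?_)
  rw [e]
  unfold cubR
  ring

theorem val_le_cmx {R : Tab} {K m : ℕ} (hK : Tab.ex K = 2) (t s : ℝ) {k : ℝ}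
    (hk : k ∈ Icc (0 : ℝ) 1) :
    R.val K m t s k ≤ (t + R.dl m) ^ 2 * plx 10 (fun j => (cmx (R.r K m j) : ℝ)) (s / t) := by
  rw [Tab.val_two hK]
  exact mul_le_mul_of_nonneg_left (plx_mono (fun j _ => ev_le_cmx _ hk) _) (sq_nonneg _)

/-! ### worlds -/

variable {V : Type*} [Fintype V] [DecidableEq V]

/-- a world with bounds `v` of the columns (the first index is summed) -/
structure TyX (Z : Hzd) (x : V → V → ℝ) (P : V → Prop) [DecidablePred P] (A B : Finset V)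
    (α τ σ : ℝ) (v : ℝ → ℝ) (L : V → V → ℝ) : Prop where
  nn : ∀ c d, 0 ≤ L c d
  cl : ClK Z x P A B α τ σ L
  col : ∀ c ∉ B, ∃ k ∈ Icc (0 : ℝ) 1, ∑ d ∈ (insert c (A ∪ B))ᶜ, L d c ≤ v k

variable {x : V → V → ℝ} {P : V → Prop} [DecidablePred P] {Z : Hzd} {kw : ℝ → ℝ} {α τ σ : ℝ}

theorem TyX.ds {A B : Finset V} {v : ℝ → ℝ} {l X : ℝ} {L : V → V → ℝ}
    (hL : TyX Z x P A B α τ σ v L) (X0 : 0 ≤ X) (hv : ∀ k ∈ Icc (0 : ℝ) 1, v k ≤ l) {f : V → ℝ}
    (fX : ∀ d, f d ≤ X) : DsW Z x P A B α τ σ f (X * l) L where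
  nn := hL.nn
  cl := hL.cl
  sum c hc := by
    obtain ⟨k, hk, h⟩ := hL.col c hc
    have h1 : ∑ d ∈ (insert c (A ∪ B))ᶜ, f d * L d c
        ≤ ∑ d ∈ (insert c (A ∪ B))ᶜ, X * L d c := Finset.sum_le_sum fun d _ =>
      mul_le_mul_of_nonneg_right (fX d) (hL.nn d c)
    rw [← Finset.mul_sum] at h1
    exact h1.trans (mul_le_mul_of_nonneg_left (h.trans (hv k hk)) X0)

section

variable {v : ℝ → ℝ} {l X : ℝ}

/-- equal times -/
theorem sumT_of_x (hx : Wt x P 1) (hX : ∀ u w, x u w ≤ X) (X0 : 0 ≤ X)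
    (hkw : ∀ w ∈ Icc (0 : ℝ) 1, 1 ≤ kw w) (l0 : 0 ≤ l)
    (hv : ∀ k ∈ Icc (0 : ℝ) 1, v k ≤ l)
    (h1 : ∀ a, P a → ∃ L, TyX Z x P {a} {a} α τ τ v L)
    (h3 : ∀ a b, P a → a ≠ b → ∃ L, TyX Z x P {a, b} {a, b} α τ τ v L) :
    SumT Z x P kw α τ (X * l + X * l) (X * l) := by
  have n := mul_nonneg X0 l0
  refine sumT_of_D hx hkw n n n (fun a ha => ?_) (fun a b ha hab => ?_) (fun a b ha hab => ?_)
  · obtain ⟨L, hL⟩ := h1 a ha
    exact ⟨L, hL.ds X0 hv (hX a)⟩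
  · obtain ⟨L, hL⟩ := h3 a b ha hab
    exact ⟨L, hL.ds X0 hv (hX a)⟩
  · obtain ⟨L, hL⟩ := h3 a b ha hab
    have := hL.ds (f := fun d => x a d + x b d) (X := 2 * X) (by positivity) hv
      (fun d => by linarith [hX a d, hX b d])
    rw [mul_assoc] at this
    exact ⟨L, this⟩

/-- different times -/
theorem sumS_of_x (hx : Wt x P 1) (hX : ∀ u w, x u w ≤ X) (X0 : 0 ≤ X)
    (hkw : ∀ w ∈ Icc (0 : ℝ) 1, 1 ≤ kw w) (l0 : 0 ≤ l)
    (hv : ∀ k ∈ Icc (0 : ℝ) 1, v k ≤ l)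
    (h1 : ∀ a, P a → ∃ L, TyX Z x P {a} {a} α τ σ v L)
    (h3 : ∀ a b, P a → a ≠ b → ∃ L, TyX Z x P {a} {a, b} α τ σ v L) :
    SumS Z x P kw α τ σ (X * l + X * l) := by
  have n := mul_nonneg X0 l0
  refine sumS_of_D hx hkw n n (fun a ha => ?_) (fun a b ha hab => ?_)
  · obtain ⟨L, hL⟩ := h1 a ha
    exact ⟨L, hL.ds X0 hv (hX a)⟩
  · obtain ⟨L, hL⟩ := h3 a b ha hab
    exact ⟨L, hL.ds X0 hv (hX a)⟩

end

/-! ### the check -/

/-- the numbers of the densities in one big cell: the bounds at equal times, the parabola at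
different times -/
structure XRow where
  rA : ℚ
  rC : ℚ
  al : ℚ
  be : ℚ

/-- the check of one big cell -/
def xChk (X : ℚ) (R : Tab) (kC : ℕ) (SA SC SD SE : List ℚ) (d : ℕ → XRow) (m : ℕ) : Bool :=
  let T : ℚ := (R.T m : ℚ) / 1000
  let C : ℕ → ℚ := fun j => cmx (R.r kC m j)
  tsOk (d m).rA (d m).rA T (de m) SA && tsOk (d m).rC (d m).rC T (de m) SC
    && tsOk (d m).al ((d m).al + (d m).be) T (de m) SD
    && decide ((d m).be ≤ evq SE T) && (SE.all fun z => decide (0 ≤ z))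
    && decide (0 ≤ (d m).al) && decide (0 ≤ (d m).be)
    && decide (2 * (X * C 10) ≤ (d m).rA) && decide (2 * (X * C 0) ≤ (d m).rA)
    && decide (X * C 10 ≤ (d m).rC) && decide (X * C 0 ≤ (d m).rC)
    && (List.range 11).all fun j => decide (2 * (X * C j) + (d m).be / 400
        ≤ (d m).al + (d m).be * ((j : ℚ) / 10) ^ 2)

/-- the world side of the densities: columns (kind `kC`) of the worlds `{a}`, `{a, b}` -/
def DenX (Z : Hzd) (x : V → V → ℝ) (P : V → Prop) [DecidablePred P] (R : Tab) (kC : ℕ) : Prop :=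
  ∀ t ∈ Icc (0 : ℝ) 1, ∃ m < R.M, R.tn m ≤ t ∧ t ≤ R.tn (m + 1) ∧
    (∀ a, P a → ∃ L, TyX Z x P {a} {a} (ca R.N (ci R.N t)) (cb R.N (ci R.N t))
      (cb R.N (ci R.N t)) (fun k => R.val kC m t t k) L) ∧
    (∀ a b, P a → a ≠ b → ∃ L, TyX Z x P {a, b} {a, b} (ca R.N (ci R.N t)) (cb R.N (ci R.N t))
      (cb R.N (ci R.N t)) (fun k => R.val kC m t t k) L) ∧
    ∀ s ∈ Icc 0 t, (∀ a, P a → ∃ L, TyX Z x P {a} {a} (ca R.N (ci R.N t)) (cb R.N (ci R.N t))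
        (cb R.N (ci R.N s)) (fun k => R.val kC m t s k) L) ∧
      ∀ a b, P a → a ≠ b → ∃ L, TyX Z x P {a} {a, b} (ca R.N (ci R.N t)) (cb R.N (ci R.N t))
        (cb R.N (ci R.N s)) (fun k => R.val kC m t s k) L

variable {p : Ps} {q : TDt5} {SA SC SD SE EA EC ED : List ℚ}

/-- **the late rates from the columns of the table**, weights at most `X` -/
theorem lateN_of_DenX (hx : Wt x P 1) {X : ℚ} (hX : ∀ u w, x u w ≤ (X : ℝ)) (X0 : 0 ≤ X)
    (qB : q.Bd) (qth : q.th = 0) (t20 : (0 : ℝ) ≤ q.t2)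
    (hL : LtN q SA SC SD SE EA EC ED) {R : Tab} (hR : R.Cov) {kC : ℕ} (hK : Tab.ex kC = 2)
    {d : ℕ → XRow} (chk : ∀ m < R.M, xChk X R kC SA SC SD SE d m = true)
    (hW : DenX p.z.hz x P R kC) : LateN p q x P := by
  intro h H t hh ht hle hHle hlo a b c ha hb hab hac hbc ht2
  have hkw : ∀ w ∈ Icc (0 : ℝ) 1, 1 ≤ q.kw w := fun w _ => by
    unfold TDt5.kw
    rw [qth]
    simp
  have hw : Wh p.z.hz x P h H t := ⟨hh, hle, hHle, hlo⟩
  have X0' : (0 : ℝ) ≤ (X : ℝ) := by exact_mod_cast X0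
  obtain ⟨m, hm, h1, h2, g1, g3, gs⟩ := hW t ht
  have hc := chk m hm
  simp only [xChk, Bool.and_eq_true, decide_eq_true_eq] at hc
  obtain ⟨⟨⟨⟨⟨⟨⟨⟨⟨⟨⟨cA, cC⟩, cD⟩, cE⟩, cS⟩, al0⟩, be0⟩, nA⟩, nA0⟩, nC⟩, nC0⟩, cj⟩ := hc
  have hi := ci_lt hR.N0 ht.2
  have hmt := ci_mem hR.N0 ht.1 ht.2
  obtain ⟨r1, r2, r3⟩ := hL.ok t20 ⟨ht.1, ht2⟩
  have w1 : x a b + x a c ≤ 1 := w_le_one hx hbc
  have hk0 : 0 ≤ q.kw (x a b + x a c) :=
    TDt5.kw_nn qB ⟨add_nonneg (hx.nonneg _ _) (hx.nonneg _ _), w1⟩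
  have hα : 0 ≤ ca R.N (ci R.N t) := ca_nonneg _ _
  set C : ℕ → ℝ := fun j => (cmx (R.r kC m j) : ℝ) with hC
  have C0 : ∀ j, 0 ≤ C j := fun j => by
    have : (0 : ℚ) ≤ cmx (R.r kC m j) := by unfold cmx; positivity
    simp only [hC]
    exact_mod_cast this
  have vn : ∀ s, 0 ≤ (t + R.dl m) ^ 2 * plx 10 C (s / t) := fun s =>
    mul_nonneg (sq_nonneg _) (plx_nonneg (fun j _ => C0 j) _)
  have vl : ∀ s, ∀ k ∈ Icc (0 : ℝ) 1, R.val kC m t s k ≤ (t + R.dl m) ^ 2 * plx 10 C (s / t) :=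
    fun s k hk => val_le_cmx hK t s hk
  have sT := sumT_of_x hx hX X0' hkw (vn t) (vl t) g1 g3
  have sm : ∀ (c : ℝ) (s : ℝ), c * ((t + R.dl m) ^ 2 * plx 10 C (s / t))
      = (t + R.dl m) ^ 2 * plx 10 (fun j => c * C j) (s / t) := fun c s => by
    rw [plx_smul]
    ring
  -- equal times
  have bA : (X : ℝ) * ((t + R.dl m) ^ 2 * plx 10 C (t / t))
      + (X : ℝ) * ((t + R.dl m) ^ 2 * plx 10 C (t / t)) ≤ pv SA t := by
    have e := nodes_eq_le (v := fun j => (2 * (X : ℝ)) * C j) cA ?_ ?_ h1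
    · rw [← sm] at e
      linarith
    · simp only [hC]
      have := (Rat.cast_le (K := ℝ)).2 nA
      push_cast at this ⊢
      linarith
    · simp only [hC]
      have := (Rat.cast_le (K := ℝ)).2 nA0
      push_cast at this ⊢
      linarith
  have bC : (X : ℝ) * ((t + R.dl m) ^ 2 * plx 10 C (t / t)) ≤ pv SC t := by
    have e := nodes_eq_le (v := fun j => (X : ℝ) * C j) cC ?_ ?_ h1
    · rw [← sm] at e
      exact e
    · simp only [hC]
      have := (Rat.cast_le (K := ℝ)).2 nC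
      push_cast at this ⊢
      linarith
    · simp only [hC]
      have := (Rat.cast_le (K := ℝ)).2 nC0
      push_cast at this ⊢
      linarith
  refine ⟨(SumT.rt (fun w hw => TDt5.le_kw qB hw.1) hx hα (cb_le_one hi) hw hmt ha hb hab hac hbc
    sT).mono ?_ ?_, fun s hs => ?_⟩
  · refine mul_le_mul_of_nonneg_left ?_ hk0
    have := Real.exp_le_exp.2 (neg_le_neg bA)
    linarith
  · have := Real.exp_le_exp.2 (neg_le_neg bC)
    linarith
  · have s1 : s ≤ 1 := hs.2.trans ht.2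
    have hms := ci_mem hR.N0 hs.1 s1
    obtain ⟨k1, k3⟩ := gs s hs
    have sS := sumS_of_x hx hX X0' hkw (vn s) (vl s) k1 k3
    have bD : (X : ℝ) * ((t + R.dl m) ^ 2 * plx 10 C (s / t))
        + (X : ℝ) * ((t + R.dl m) ^ 2 * plx 10 C (s / t)) ≤ pv SD t + s ^ 2 * pv SE t := by
      have e := nodes_dd_le (v := fun j => (2 * (X : ℝ)) * C j) al0 be0 cD cE
        (fun z hz => ?_) (fun j hj => ?_) h1 hs
      · rw [← sm] at e
        linarith
      · have := List.all_eq_true.1 cS z hz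
        simpa using this
      · have h3 := List.all_eq_true.1 cj j (List.mem_range.2 (by omega))
        have h5 := (Rat.cast_le (K := ℝ)).2 (of_decide_eq_true h3)
        simp only [hC]
        push_cast at h5 ⊢
        linarith
    refine (SumS.rt (fun w hw => TDt5.le_kw qB hw.1) hx hα (cb_le_one hi) hw hmt ha hb hab hac hbc
      sS hs hms.2).mono ?_
    refine mul_le_mul_of_nonneg_left ?_ hk0
    have := Real.exp_le_exp.2 (neg_le_neg bD)
    exact le_trans (by linarith) (r3 s)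

end Pool.Agent.RZ.RCO.Dx
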