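import Pool.Agent.RZ.RCO.Ex6

/-! Route P: the direct parts of the constants: survival functions of the vertices and the sums
(MP_73ccd0_lc). -/

namespace Pool.Agent.RZ.RCO

open Set Finset MeasureTheory Pool.Agent.RZ.RCRSHalf Pool.Agent.RZ.RCG

set_option linter.unusedSectionVars false

variable {V : Type*} [Fintype V] [DecidableEq V]

/-- a lower bound `E` of `exp (-(N + rows of v up to r))` -/
structure Srv (U : Finset V) (σ : ℝ) (S : Finset ℝ) (T : ℝ → V → V → ℝ) (v : V) (N : ℝ)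
    (E E' : ℝ → ℝ) : Prop where
  cE : ContinuousOn E (Icc 0 σ)
  dE : ∀ r ∈ Icc 0 σ, r ∉ S → HasDerivAt E (E' r) r
  E0 : ∀ r ∈ Icc 0 σ, 0 ≤ E r
  i : E 0 ≤ Real.exp (-N)
  le : ∀ r ∈ Icc 0 σ, r ∉ S → E' r ≤ -((∑ b ∈ U.erase v, T r v b) * E r)

/-- derivatives of primitives inside -/
theorem prim_deriv {R : ℝ → ℝ} {τ : ℝ} (cR : ContinuousOn R (Icc 0 τ)) {r : ℝ}
    (hr : r ∈ Ioo 0 τ) : HasDerivAt (fun r => ∫ ρ in (0 : ℝ)..r, R ρ) (R r) r := by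
  have h1 : IntervalIntegrable R volume 0 r :=
    (cR.mono (by rw [uIcc_of_le hr.1.le]; exact Icc_subset_Icc_right hr.2.le)).intervalIntegrable
  have h2 : ContinuousAt R r := cR.continuousAt (Icc_mem_nhds hr.1 hr.2)
  exact intervalIntegral.integral_hasDerivAt_right h1
    (ContinuousOn.stronglyMeasurableAtFilter isOpen_Ioo (cR.mono Ioo_subset_Icc_self) r hr) h2

/-- an integral below the increment of a function -/
theorem int_le_inc {g J J' : ℝ → ℝ} {σ : ℝ} {S : Finset ℝ} (σ0 : 0 ≤ σ)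
    (cg : ContinuousOn g (Icc 0 σ)) (cJ : ContinuousOn J (Icc 0 σ))
    (dJ : ∀ r ∈ Icc 0 σ, r ∉ S → HasDerivAt J (J' r) r)
    (h : ∀ r ∈ Icc 0 σ, r ∉ S → g r ≤ J' r) : ∫ r in (0 : ℝ)..σ, g r ≤ J σ - J 0 := by
  have key := back_le_fin S (a := 0) (b := σ) (f := fun r => J r - ∫ ρ in (0 : ℝ)..r, g ρ)
    (g := fun _ => J σ - ∫ ρ in (0 : ℝ)..σ, g ρ) (f' := fun r => J' r - g r) (g' := fun _ => 0)
    (cJ.sub (prim_cont σ0 cg)) continuousOn_const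
    (fun r hr hS => (dJ r (Ioo_subset_Icc_self hr) hS).sub (prim_deriv cg hr))
    (fun r _ _ => hasDerivAt_const r _)
    (fun r hr hS => sub_nonneg.2 (h r (Ioo_subset_Icc_self hr) hS)) le_rfl 0 ⟨le_rfl, σ0⟩
  simp only [intervalIntegral.integral_same, sub_zero] at key
  linarith

section dir

variable {hb T : ℝ → V → V → ℝ} {U : Finset V} {σ : ℝ} {S : Finset ℝ}

/-- the survival function is below the exponential of the direct part -/
theorem Srv.le_exp {v : V} {N N1 : ℝ} {E E' : ℝ → ℝ} (h : Srv U σ S T v N E E') (σ0 : 0 ≤ σ)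
    (Tc : ∀ u v, ContinuousOn (fun r => T r u v) (Icc 0 σ)) {g : ℝ → ℝ}
    (cg : ContinuousOn g (Icc 0 σ)) {F : Finset V}
    (hF : ∀ r ∈ Icc 0 σ, g r + ∑ b ∈ F, T r v b ≤ ∑ b ∈ U.erase v, T r v b) (hN : N1 ≤ N)
    {r : ℝ} (hr : r ∈ Icc 0 σ) :
    E r ≤ Real.exp (-(N1 + (∫ ρ in (0 : ℝ)..r, g ρ) + ∫ ρ in (0 : ℝ)..r, ∑ b ∈ F, T ρ v b)) := by
  have cR : ContinuousOn (fun r => ∑ b ∈ F, T r v b) (Icc 0 σ) :=
    continuousOn_finsetSum _ fun b _ => Tc v b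
  set Φ : ℝ → ℝ := fun r => N1 + (∫ ρ in (0 : ℝ)..r, g ρ) + ∫ ρ in (0 : ℝ)..r, ∑ b ∈ F, T ρ v b
    with hΦ
  have cΦ : ContinuousOn Φ (Icc 0 σ) :=
    (continuousOn_const.add (prim_cont σ0 cg)).add (prim_cont σ0 cR)
  have dΦ : ∀ r ∈ Ioo 0 σ, HasDerivAt Φ (g r + ∑ b ∈ F, T r v b) r := fun r hr =>
    ((prim_deriv cg hr).const_add N1).add (prim_deriv cR hr)
  have sub : Icc 0 r ⊆ Icc 0 σ := Icc_subset_Icc_right hr.2
  have key := back_le_fin S (a := 0) (b := r) (f := fun _ => E r * Real.exp (Φ r))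
    (g := fun r => E r * Real.exp (Φ r)) (f' := fun _ => 0)
    (g' := fun r => E' r * Real.exp (Φ r)
      + E r * (Real.exp (Φ r) * (g r + ∑ b ∈ F, T r v b)))
    continuousOn_const
    ((h.cE.mono sub).mul (Real.continuous_exp.comp_continuousOn (cΦ.mono sub)))
    (fun z _ _ => hasDerivAt_const z _)
    (fun z hz hS => by
      have hz' : z ∈ Ioo 0 σ := ⟨hz.1, hz.2.trans_le hr.2⟩
      exact (h.dE z (Ioo_subset_Icc_self hz') hS).mul ((dΦ z hz').exp))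
    (fun z hz hS => by
      have hz' : z ∈ Icc 0 σ := ⟨hz.1.le, hz.2.le.trans hr.2⟩
      have h1 := h.le z hz' hS
      have h2 := mul_le_mul_of_nonneg_left (hF z hz') (h.E0 z hz')
      have h3 := Real.exp_pos (Φ z)
      have h4 : E' z + E z * (g z + ∑ b ∈ F, T z v b) ≤ 0 := by linarith
      have h5 := mul_le_mul_of_nonneg_right h4 h3.le
      simp only [zero_mul] at h5
      refine le_trans (le_of_eq ?_) h5
      ring)
    le_rfl 0 ⟨le_rfl, hr.1⟩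
  have e0 : Φ 0 = N1 := by
    simp only [hΦ, intervalIntegral.integral_same, add_zero]
  simp only [e0] at key
  have h1 : E 0 * Real.exp N1 ≤ 1 := by
    have h2 := mul_le_mul_of_nonneg_right h.i (Real.exp_pos N1).le
    refine h2.trans ?_
    rw [← Real.exp_add]
    exact Real.exp_le_one_iff.2 (by linarith)
  have h2 := key.trans h1
  have h3 : E r * Real.exp (Φ r) * Real.exp (-Φ r) = E r := by
    rw [mul_assoc, ← Real.exp_add, add_neg_cancel, Real.exp_zero, mul_one]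
  calc E r = E r * Real.exp (Φ r) * Real.exp (-Φ r) := h3.symm
    _ ≤ 1 * Real.exp (-Φ r) := mul_le_mul_of_nonneg_right h2 (Real.exp_pos _).le
    _ = Real.exp (-Φ r) := one_mul _

/-- **the direct part of one pair** -/
theorem dir_le {c d : V} {Nc Nd N1 N2 : ℝ} {Ec Ec' Ed Ed' : ℝ → ℝ} (σ0 : 0 ≤ σ)
    (hc : c ∈ U) (hd : d ∈ U) (hcd : c ≠ d)
    (Sd : Srv U σ S T d Nd Ed Ed') (Sc : Srv U σ S T c Nc Ec Ec')
    (b0 : ∀ r ∈ Icc 0 σ, 0 ≤ hb r c d)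
    (bs : ∀ r, hb r c d = hb r d c)
    (bc : ContinuousOn (fun r => hb r c d) (Icc 0 σ))
    (Tc : ∀ u v, ContinuousOn (fun r => T r u v) (Icc 0 σ))
    (bT : ∀ u ∈ U, ∀ v ∈ U, ∀ r ∈ Icc 0 σ, hb r u v ≤ T r u v)
    (h1 : N1 ≤ Nd) (h2 : N2 ≤ Nc) :
    dirI hb T (F0 U c d) c d σ N1 N2
      ≤ ∫ r in (0 : ℝ)..σ, hb r c d * max 0 (1 - Ed r - Ec r) := by
  have ed : ∀ r ∈ Icc 0 σ, hb r c d + ∑ b ∈ F0 U c d, T r d b ≤ ∑ b ∈ U.erase d, T r d b :=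
    fun r hr => by
      have hcU : c ∈ U.erase d := Finset.mem_erase.2 ⟨hcd, hc⟩
      rw [← Finset.add_sum_erase _ _ hcU, F0, Finset.erase_right_comm]
      exact add_le_add ((bs r).le.trans (bT d hd c hc r hr)) le_rfl
  have ec : ∀ r ∈ Icc 0 σ, hb r c d + ∑ b ∈ F0 U c d, T r c b ≤ ∑ b ∈ U.erase c, T r c b :=
    fun r hr => by
      have hdU : d ∈ U.erase c := Finset.mem_erase.2 ⟨fun e => hcd e.symm, hd⟩
      rw [← Finset.add_sum_erase _ _ hdU, F0]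
      exact add_le_add (bT c hc d hd r hr) le_rfl
  unfold dirI
  refine intervalIntegral.integral_mono_on σ0 ?_ ?_ fun r hr => ?_
  · refine ContinuousOn.intervalIntegrable ?_
    rw [uIcc_of_le σ0]
    exact dirI_cont σ0 bc Tc N1 N2
  · refine ContinuousOn.intervalIntegrable ?_
    rw [uIcc_of_le σ0]
    exact bc.mul (continuousOn_const.sup ((continuousOn_const.sub Sd.cE).sub Sc.cE))
  · have x1 := Sd.le_exp σ0 Tc bc ed h1 hr
    have x2 := Sc.le_exp σ0 Tc bc ec h2 hr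
    exact mul_le_mul_of_nonneg_left (max_le_max le_rfl (by linarith)) (b0 r hr)

/-- **the sum of the direct parts over a family of pairs** -/
theorem dir_sum {ι : Type*} {C : Finset ι} {f : ι → ℝ} {qc qd : ι → V} {N1 N2 Nc Nd : ι → ℝ}
    {E1 E1' E2 E2' : ι → ℝ → ℝ} {J J' : ℝ → ℝ} (σ0 : 0 ≤ σ) (f0 : ∀ z ∈ C, 0 ≤ f z)
    (hq : ∀ z ∈ C, qc z ∈ U ∧ qd z ∈ U ∧ qc z ≠ qd z)
    (S1 : ∀ z ∈ C, Srv U σ S T (qd z) (Nd z) (E1 z) (E1' z))
    (S2 : ∀ z ∈ C, Srv U σ S T (qc z) (Nc z) (E2 z) (E2' z))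
    (b0 : ∀ u v, ∀ r ∈ Icc 0 σ, 0 ≤ hb r u v)
    (bs : ∀ u v, ∀ r, hb r u v = hb r v u)
    (bc : ∀ u v, ContinuousOn (fun r => hb r u v) (Icc 0 σ))
    (Tc : ∀ u v, ContinuousOn (fun r => T r u v) (Icc 0 σ))
    (bT : ∀ u ∈ U, ∀ v ∈ U, ∀ r ∈ Icc 0 σ, hb r u v ≤ T r u v)
    (h1 : ∀ z ∈ C, N1 z ≤ Nd z) (h2 : ∀ z ∈ C, N2 z ≤ Nc z)
    (cJ : ContinuousOn J (Icc 0 σ)) (dJ : ∀ r ∈ Icc 0 σ, r ∉ S → HasDerivAt J (J' r) r)
    (hJ : ∀ r ∈ Icc 0 σ, r ∉ S → ∑ z ∈ C, f z * (hb r (qc z) (qd z)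
      * max 0 (1 - E1 z r - E2 z r)) ≤ J' r) :
    ∑ z ∈ C, f z * dirI hb T (F0 U (qc z) (qd z)) (qc z) (qd z) σ (N1 z) (N2 z)
      ≤ J σ - J 0 := by
  have cg : ∀ z ∈ C, ContinuousOn
      (fun r => f z * (hb r (qc z) (qd z) * max 0 (1 - E1 z r - E2 z r))) (Icc 0 σ) :=
    fun z hz => continuousOn_const.mul ((bc _ _).mul (continuousOn_const.sup
      ((continuousOn_const.sub (S1 z hz).cE).sub (S2 z hz).cE)))
  have e1 : ∑ z ∈ C, f z * dirI hb T (F0 U (qc z) (qd z)) (qc z) (qd z) σ (N1 z) (N2 z)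
      ≤ ∑ z ∈ C, ∫ r in (0 : ℝ)..σ,
        f z * (hb r (qc z) (qd z) * max 0 (1 - E1 z r - E2 z r)) := by
    refine Finset.sum_le_sum fun z hz => ?_
    obtain ⟨q1, q2, q3⟩ := hq z hz
    rw [intervalIntegral.integral_const_mul]
    exact mul_le_mul_of_nonneg_left (dir_le σ0 q1 q2 q3 (S1 z hz) (S2 z hz) (b0 _ _) (bs _ _)
      (bc _ _) Tc bT (h1 z hz) (h2 z hz)) (f0 z hz)
  refine e1.trans ?_
  rw [← intervalIntegral.integral_finsetSum fun z hz => ContinuousOn.intervalIntegrable (by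
    rw [uIcc_of_le σ0]; exact cg z hz)]
  exact int_le_inc σ0 (continuousOn_finsetSum _ cg) cJ dJ hJ

end dir

end Pool.Agent.RZ.RCO
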