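import Pool.Agent.RZ.RCO.Gk8

/-! The tables of level 1/2 satisfy the conditions over time: from the sheet of all rows
(MP_73ccd0_lc). -/

set_option autoImplicit false

namespace Pool.Agent.RZ.RCO

open Sg Set Sp12

/-! ### the functions of a table over time -/

/-- the coordinate in the step, the row of the step -/
noncomputable def cD (t : ℕ → ℝ) (n : ℕ) (r : ℝ) : ℝ := stc t (ixD t n r) r
noncomputable def eD (D R : ℕ) (t : ℕ → ℝ) (n : ℕ) (r : ℝ) : ℕ → ℕ := rwd D R (ixD t n r)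

/-- the mesh of a table from its lines -/
theorem msh_of {D R iH n : ℕ} (h : ∀ j < n, 0 < un D R iH j) : Msh (tmD D R iH) n :=
  ⟨fun j hj => by
    have h1 := tmD_succ D R iH j
    have h2 := h j hj
    linarith⟩

/-- the value of a signed entry is nonnegative -/
theorem sn_ble {D R i n : ℕ} (h : Nat.ble 2147483648 (g D (R * n + i)) = true) :
    0 ≤ sn D R i n := by
  have h1 := Nat.le_of_ble_eq_true h
  have h2 : ((2147483648 : ℕ) : ℝ) ≤ (g D (R * n + i) : ℝ) := Nat.cast_le.2 h1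
  unfold sn Sg.sv
  push_cast at h2
  exact div_nonneg (by linarith) (by positivity)

theorem oTq_w {D R n : ℕ} {o : Option Cf} (h : (match o with
      | none => true
      | some a => Nat.ble 2147483648 (g D (R * n + a.w))) = true) : 0 ≤ (oTq D R o).w n := by
  cases o with
  | none => exact le_rfl
  | some a => exact sn_ble h

/-- slopes of a table which is nonnegative by a line -/
theorem oTq_s {D R n : ℕ} {o : Option Cf} (hn : 0 < n) (h : ∀ j < n, ∀ ρ : ℕ → ℝ,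
    (∀ p, 0 ≤ ρ p) → (∀ p, ρ p ≤ 1) → kz.val ρ (rwd D R j) ≤ (cre Cf.s R o).val ρ (rwd D R j)) :
    ∀ j ≤ n, 0 ≤ (oTq D R o).s j := by
  intro j hj
  cases o with
  | none => exact le_rfl
  | some a =>
    rcases hj.lt_or_eq with h1 | h1
    · have h2 := h j h1 (fun _ => 0) (fun _ => le_rfl) fun _ => zero_le_one
      rw [kz_val] at h2
      have h3 : (ls' R a.s).val (fun _ => (0 : ℝ)) (rwd D R j) = sl 0 D R a.s j :=
        ls_val (fun _ => (0 : ℝ)) D R j a.s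
      have h4 : 0 ≤ (ls' R a.s).val (fun _ => (0 : ℝ)) (rwd D R j) := h2
      rw [h3] at h4
      unfold Sg.sl at h4
      show 0 ≤ sn D R a.s j
      linarith
    · obtain ⟨m, rfl⟩ : ∃ m, n = m + 1 := ⟨n - 1, by omega⟩
      subst h1
      have h2 := h m (Nat.lt_succ_self m) (fun _ => 1) (fun _ => zero_le_one) fun _ => le_rfl
      rw [kz_val] at h2
      have h3 : (ls' R a.s).val (fun _ => (1 : ℝ)) (rwd D R m) = sl 1 D R a.s m :=
        ls_val (fun _ => (1 : ℝ)) D R m a.s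
      have h4 : 0 ≤ (ls' R a.s).val (fun _ => (1 : ℝ)) (rwd D R m) := h2
      rw [h3] at h4
      unfold Sg.sl at h4
      show 0 ≤ sn D R a.s (m + 1)
      linarith

/-! ### weights -/

theorem zip_eq : ∀ {v w : List ℕ}, v.length = w.length →
    (List.zipWith Nat.beq v w).all id = true → v = w
  | [], [], _, _ => rfl
  | [], b :: w, h, _ => by simp at h
  | a :: v, [], h, _ => by simp at h
  | a :: v, b :: w, h, h' => by
    simp only [List.zipWith_cons_cons, List.all_cons, Bool.and_eq_true, id] at h'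
    rw [Nat.eq_of_beq_eq_true h'.1, zip_eq (Nat.succ.inj h) h'.2]

theorem weq_fn {v w : Wf} (h : Tp12.weq v w = true) (p : Pt) : v.fn p = w.fn p := by
  unfold Tp12.weq at h
  simp only [Bool.and_eq_true] at h
  obtain ⟨h1, h2, h3, h4⟩ := h
  have hk : v.k = w.k := zip_eq (Nat.eq_of_beq_eq_true h2) h3
  have hs : v.s = w.s := Nat.eq_of_beq_eq_true h4
  unfold Wf.fn Wf.kv
  rw [hk, hs]
  congr 1
  exact frm_congr (fun i hi => by
    rw [Nat.eq_of_beq_eq_true (allL_of h1 i (List.mem_range.2 hi))]) p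

theorem Wf.fn_ok (w : Wf) {p : Pt} (h : p.Ok) : 0 ≤ w.fn p := by
  unfold Wf.fn
  refine add_nonneg ?_ (w.kv_nonneg h.k0)
  rw [lf_frm.eq]
  exact Finset.sum_nonneg fun i hi => mul_nonneg (Nat.cast_nonneg _)
    (lf_frm.nn p h i (Finset.mem_range.1 hi))

namespace Tp12

variable {x : Tp12} {D n : ℕ}

/-- the tables of level 1/2 -/
noncomputable def t12 (x : Tp12) (D n : ℕ) (Nr : ℝ → Pt → ℝ) (Np : ℝ → ℝ → ℝ) :
    T12 (Fin x.b.N) where
  R := fun ρ => hT x.b.RR (cD (tmD D x.R x.iH) n ρ) (eD D x.R (tmD D x.R x.iH) n ρ)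
  Rp := fun ρ => x.b.Rp.tv (cD (tmD D x.R x.iH) n ρ) (eD D x.R (tmD D x.R x.iH) n ρ)
  W := fun ρ => x.b.fW (cD (tmD D x.R x.iH) n ρ) (eD D x.R (tmD D x.R x.iH) n ρ)
  Wp := fun ρ => hT x.b.Wp (cD (tmD D x.R x.iH) n ρ) (eD D x.R (tmD D x.R x.iH) n ρ)
  Nr := Nr
  Np := Np
  wv := fun l => (x.b.wv l).fn
  a := fun s l i => oTq D x.R (x.a s l i)
  Ψ := fun s l ρ => cf (x.b.ps s l) (cD (tmD D x.R x.iH) n ρ) (eD D x.R (tmD D x.R x.iH) n ρ)
  c := fun s l => oTq D x.R (x.cp s l)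
  Cψ := fun s l ρ => (x.b.psp s l).tv (cD (tmD D x.R x.iH) n ρ)
    (eD D x.R (tmD D x.R x.iH) n ρ)
  Gp := fun l m ρ => (x.b.Gp l m).tv (cD (tmD D x.R x.iH) n ρ) (eD D x.R (tmD D x.R x.iH) n ρ)
  Gm := fun l m ρ => (x.b.Gm l m).tv (cD (tmD D x.R x.iH) n ρ) (eD D x.R (tmD D x.R x.iH) n ρ)

/-- the time lines are in the sheet -/
theorem mT {l : ℕ} (hl : l < x.b.N) (s : Bool) {a : Re × Re} (h : a ∈ x.sN s l) :
    a ∈ x.sheetT.s := by
  refine List.mem_append_right _ (List.mem_flatMap.2 ⟨l, List.mem_range.2 hl, ?_⟩)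
  cases s with
  | true => exact List.mem_append_left _ h
  | false => exact List.mem_append_right _ h

/-- the lines of time -/
structure TAt (x : Tp12) (D j : ℕ) (s : Bool) (l : ℕ) : Prop where
  a : ∀ i < 26, ∀ a ∈ oChk x.R x.iH (x.a s l i), ∀ ρ : ℕ → ℝ, (∀ p, 0 ≤ ρ p) → (∀ p, ρ p ≤ 1) →
    a.1.val ρ (rwd D x.R j) ≤ a.2.val ρ (rwd D x.R j)
  c : ∀ a ∈ oChk x.R x.iH (x.cp s l), ∀ ρ : ℕ → ℝ, (∀ p, 0 ≤ ρ p) → (∀ p, ρ p ≤ 1) →
    a.1.val ρ (rwd D x.R j) ≤ a.2.val ρ (rwd D x.R j)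
  cs : ∀ ρ : ℕ → ℝ, (∀ p, 0 ≤ ρ p) → (∀ p, ρ p ≤ 1) →
    kz.val ρ (rwd D x.R j) ≤ (cre Cf.s x.R (x.cp s l)).val ρ (rwd D x.R j)
  l1 : ∀ ρ : ℕ → ℝ, (∀ p, 0 ≤ ρ p) → (∀ p, ρ p ≤ 1) →
    ∑ m : Fin x.b.N, (x.lam s l m).val ρ (rwd D x.R j) = 1
  lc : ∀ ρ : ℕ → ℝ, (∀ p, 0 ≤ ρ p) → (∀ p, ρ p ≤ 1) →
    ∑ m : Fin x.b.N, (x.lam s l m).val ρ (rwd D x.R j)
      * (cre Cf.u x.R (x.cp s m)).val ρ (rwd D x.R j) ≤ (x.b.psp s l).val ρ (rwd D x.R j)
  la : ∀ i < 13, ∀ ρ : ℕ → ℝ, (∀ p, 0 ≤ ρ p) → (∀ p, ρ p ≤ 1) →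
    ∑ m : Fin x.b.N, (x.lam s l m).val ρ (rwd D x.R j)
      * (cre2 Cf.u x.R (x.a s m) i).val ρ (rwd D x.R j) ≤ (x.b.ps s l i).val ρ (rwd D x.R j)

theorem tAt {j : ℕ} (h : x.sheet.At D x.R j) (s : Bool) {l : ℕ} (hl : l < x.b.N) :
    TAt x D j s l := by
  have hT := Sheet.At.right h
  have key : ∀ a ∈ x.sN s l, ∀ ρ : ℕ → ℝ, (∀ p, 0 ≤ ρ p) → (∀ p, ρ p ≤ 1) →
      a.1.val ρ (rwd D x.R j) ≤ a.2.val ρ (rwd D x.R j) := fun a ha => hT.s a (mT hl s ha)
  refine ⟨fun i hi a ha => key a ?_, fun a ha => key a ?_, fun ρ r0 r1 => ?_, fun ρ r0 r1 => ?_,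
    fun ρ r0 r1 => ?_, fun i hi ρ r0 r1 => ?_⟩
  · exact List.mem_append_left _ (List.mem_flatMap.2 ⟨i, List.mem_range.2 hi, ha⟩)
  · exact List.mem_append_right _ (List.mem_append_left _ ha)
  · exact key (kz, cre Cf.s x.R (x.cp s l)) (List.mem_append_right _ (List.mem_append_right _
      (List.mem_append_left _ (by simp)))) ρ r0 r1
  · have h1 := key (rfs (x.lam s l) x.b.N, kc 1) (List.mem_append_right _
      (List.mem_append_right _ (List.mem_append_left _ (by simp)))) ρ r0 r1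
    have h2 := key (kc 1, rfs (x.lam s l) x.b.N) (List.mem_append_right _
      (List.mem_append_right _ (List.mem_append_left _ (by simp)))) ρ r0 r1
    simp only [rfs_val, kc_val, Nat.cast_one, Finset.sum_range] at h1 h2
    exact le_antisymm h1 h2
  · have h1 := key (rfs (fun m => x.lam s l m * cre Cf.u x.R (x.cp s m)) x.b.N, x.b.psp s l)
      (List.mem_append_right _ (List.mem_append_right _ (List.mem_append_left _ (by simp)))) ρ r0 r1
    simp only [rfs_val, re_mul, Finset.sum_range] at h1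
    exact h1
  · have h1 := key (rfs (fun m => x.lam s l m * cre2 Cf.u x.R (x.a s m) i) x.b.N, x.b.ps s l i)
      (List.mem_append_right _ (List.mem_append_right _ (List.mem_append_right _
        (List.mem_map.2 ⟨i, List.mem_range.2 hi, rfl⟩)))) ρ r0 r1
    simp only [rfs_val, re_mul, Finset.sum_range] at h1
    exact h1

/-- the format -/
structure OkT (x : Tp12) : Prop where
  sp : Sp12.Ok' x.sp
  lT : ∀ s, ∀ l < x.b.N, ∀ m < x.b.N, isT (x.lam s l m) = true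
  lP : ∀ s, ∀ l < x.b.N, ∀ m < x.b.N, isP (x.lam s l m) = true
  w : ∀ s, ∀ l < x.b.N, ∀ m < x.b.N, (x.lam s l m).E.isz = true ∨ weq (x.b.wv l) (x.b.wv m) = true

theorem okT_of (h : x.okT = true) : OkT x := by
  unfold okT at h
  simp only [Bool.and_eq_true] at h
  have key : ∀ l < x.b.N, ∀ m < x.b.N, _ := fun l hl m hm =>
    allL_of (allL_of h.2 l (List.mem_range.2 hl)) m (List.mem_range.2 hm)
  simp only [Bool.and_eq_true, Bool.or_eq_true] at key
  refine ⟨ok_of h.1, fun s l hl m hm => ?_, fun s l hl m hm => ?_, fun s l hl m hm => ?_⟩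
  · have k := key l hl m hm
    cases s with
    | true => exact k.1.1.1.1
    | false => exact k.1.1.2
  · have k := key l hl m hm
    cases s with
    | true => exact k.1.1.1.2
    | false => exact k.1.2
  · have k := (key l hl m hm).2
    rcases k with k | k
    · left
      cases s with
      | true => exact k.1
      | false => exact k.2
    · exact Or.inr k

theorem okE_of (h : x.okE D n = true) (s : Bool) {l : ℕ} (hl : l < x.b.N) :
    (∀ i < 26, 0 ≤ (oTq D x.R (x.a s l i)).w n) ∧ 0 ≤ (oTq D x.R (x.cp s l)).w n := by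
  unfold okE at h
  have k := allL_of h l (List.mem_range.2 hl)
  simp only [Bool.and_eq_true] at k
  obtain ⟨⟨k1, k2⟩, k3⟩ := k
  refine ⟨fun i hi => ?_, ?_⟩
  · have k4 := allL_of k1 i (List.mem_range.2 hi)
    simp only [Bool.and_eq_true] at k4
    cases s with
    | true => exact oTq_w k4.1
    | false => exact oTq_w k4.2
  · cases s with
    | true => exact oTq_w k2
    | false => exact oTq_w k3

theorem cf_sum {Λ : Type*} [Fintype Λ] (lam : Λ → ℝ) (F : Λ → ℕ → Re) (c : ℝ) (e : ℕ → ℕ)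
    (p : Pt) : ∑ m, lam m * cf (F m) c e p
      = frm (fun i => ∑ m, lam m * (F m i).kv c e p.k) p + ∑ m, lam m * (F m 12).kv c e p.k := by
  unfold Sp12.cf
  rw [lf_frm.sum lam (fun m i => (F m i).kv c e p.k) p, ← Finset.sum_add_distrib]
  exact Finset.sum_congr rfl fun m _ => by ring

/-- the mesh -/
theorem msh (hS : ∀ j < n, x.sheet.At D x.R j) : Msh (tmD D x.R x.iH) n :=
  msh_of fun j hj => by
    have h1 := (Sheet.At.right (hS j hj)).s (kd 1 24, kr x.iH)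
      (List.mem_append_left _ (by simp)) (fun _ => 0) (fun _ => le_rfl) fun _ => zero_le_one
    simp only [kd_val, rwd_kr] at h1
    have h2 : (0 : ℝ) < ((1 : ℕ) : ℝ) / 2 ^ 24 := by positivity
    linarith

/-- **the conditions of the tables of level 1/2** -/
theorem t12_ok (hO : x.okT = true) (hE : x.okE D n = true) (hn : 0 < n)
    (hS : ∀ j < n, x.sheet.At D x.R j) {Nr : ℝ → Pt → ℝ} {Np : ℝ → ℝ → ℝ}
    (hN : ∀ ρ ∈ Icc 0 (tmD D x.R x.iH n), ∀ (p : Pt) (y a b : ℝ), p.Sat y a b →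
      Nr ρ p.full ≤ cf x.b.nf (cD (tmD D x.R x.iH) n ρ) (eD D x.R (tmD D x.R x.iH) n ρ) p.full)
    (hN1 : ∀ ρ ∈ Icc 0 (tmD D x.R x.iH n), ∀ (p : Pt) (y a b : ℝ), p.Sat y a b →
      Nr ρ p.full ≤ 1)
    (hNp : ∀ ρ ∈ Icc 0 (tmD D x.R x.iH n), ∀ y : ℝ, 0 ≤ y → y ≤ 1 →
      Np ρ y ≤ hT x.b.np (cD (tmD D x.R x.iH) n ρ) (eD D x.R (tmD D x.R x.iH) n ρ) y)
    (hNp1 : ∀ ρ ∈ Icc 0 (tmD D x.R x.iH n), ∀ y : ℝ, 0 ≤ y → y ≤ 1 → Np ρ y ≤ 1) :
    (x.t12 D n Nr Np).Ok FF26 26 (tmD D x.R x.iH) n := by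
  have hm := msh hS
  have ho := okT_of hO
  have z0 : tmD D x.R x.iH 0 = 0 := tmD_zero _ _ _
  have st : ∀ ρ ∈ Icc (tmD D x.R x.iH 0) (tmD D x.R x.iH n),
      Stp (tmD D x.R x.iH) n (ixD (tmD D x.R x.iH) n ρ) ρ := fun ρ hρ => ixD_spec hm hn hρ
  have sat : ∀ {p : Pt} {y a b : ℝ}, p.Sat y a b → p.k ≤ 1 := fun {p y a b} hp => hp.k1
  refine
    { a := fun s l i hi => oTq_ok fun j hj => (tAt (hS j hj) s l.2).a i hi
      c := fun s l => oTq_ok fun j hj => (tAt (hS j hj) s l.2).c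
      C := fun ρ hρ => ?_
      s0 := fun s l ρ hρ p y a b hp => ?_
      e0 := fun s l p y a b hp => ?_
      cs0 := fun s l => oTq_s hn fun j hj => (tAt (hS j hj) s l.2).cs
      ce0 := fun s l => (okE_of hE s l.2).2
      Gp0 := fun l m ρ hρ => ?_
      Gm0 := fun l m ρ hρ => ?_
      wv0 := fun l p hp _ => (x.b.wv l).fn_ok hp
      im := fun s l ρ hρ => ?_
      imp := fun s l ρ hρ => ?_ }
  · have hs := st ρ hρ
    have h0 : ρ ∈ Icc 0 (tmD D x.R x.iH n) := by rwa [z0] at hρ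
    have h1 := (Sp12.l12 (sp := x.sp) ho.sp (Sheet.At.left (hS _ hs.lt)) hs.c0 hs.c1 rfl
      (hN ρ h0) (hN1 ρ h0) (hNp ρ h0) (hNp1 ρ h0)).c12
    have e1 : (fun (s : Bool) (l : Fin x.b.N) => (fun (p : Pt) =>
        FF26 (fun i => (oTq D x.R (x.a s l i)).up (tmD D x.R x.iH) n ρ) p))
        = fun (s : Bool) (l : Fin x.sp.N) => cf (x.sp.us s l)
          (stc (tmD D x.R x.iH) (ixD (tmD D x.R x.iH) n ρ) ρ)
          (rwd D x.R (ixD (tmD D x.R x.iH) n ρ)) := by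
      funext s l p
      exact (cf_up hs (x.a s l) p).symm
    have e2 : (fun (s : Bool) (l : Fin x.b.N) => (fun (p : Pt) =>
        -FF26 (fun i => (oTq D x.R (x.a s l i)).sl (tmD D x.R x.iH) n ρ) p))
        = fun (s : Bool) (l : Fin x.sp.N) (p : Pt) => -cf (x.sp.sl s l)
          (stc (tmD D x.R x.iH) (ixD (tmD D x.R x.iH) n ρ) ρ)
          (rwd D x.R (ixD (tmD D x.R x.iH) n ρ)) p := by
      funext s l p
      exact congrArg Neg.neg (cf_sl hs (x.a s l) p).symm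
    have e3 : (fun (s : Bool) (l : Fin x.b.N) => (oTq D x.R (x.cp s l)).up (tmD D x.R x.iH) n ρ)
        = fun (s : Bool) (l : Fin x.sp.N) => (x.sp.usp s l).tv
          (stc (tmD D x.R x.iH) (ixD (tmD D x.R x.iH) n ρ) ρ)
          (rwd D x.R (ixD (tmD D x.R x.iH) n ρ)) := by
      funext s l
      exact (cre_up hs 0 (x.cp s l)).symm
    have e4 : (fun (s : Bool) (l : Fin x.b.N) =>
        -(oTq D x.R (x.cp s l)).sl (tmD D x.R x.iH) n ρ)
        = fun (s : Bool) (l : Fin x.sp.N) => -(x.sp.slp s l).tv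
          (stc (tmD D x.R x.iH) (ixD (tmD D x.R x.iH) n ρ) ρ)
          (rwd D x.R (ixD (tmD D x.R x.iH) n ρ)) := by
      funext s l
      exact congrArg Neg.neg (cre_sl hs 0 (x.cp s l)).symm
    show C12 _ _ _ _ _ _ _ (fun (s : Bool) (l : Fin x.b.N) => (fun (p : Pt) =>
        FF26 (fun i => (oTq D x.R (x.a s l i)).up (tmD D x.R x.iH) n ρ) p))
      (fun (s : Bool) (l : Fin x.b.N) => (fun (p : Pt) =>
        -FF26 (fun i => (oTq D x.R (x.a s l i)).sl (tmD D x.R x.iH) n ρ) p)) _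
      (fun (s : Bool) (l : Fin x.b.N) => (oTq D x.R (x.cp s l)).up (tmD D x.R x.iH) n ρ)
      (fun (s : Bool) (l : Fin x.b.N) =>
        -(oTq D x.R (x.cp s l)).sl (tmD D x.R x.iH) n ρ) _ _ _
    rw [e1, e2, e3, e4]
    exact h1
  · have hs := st ρ hρ
    show 0 ≤ FF26 (fun i => (oTq D x.R (x.a s l i)).sl (tmD D x.R x.iH) n ρ) p
    rw [← cf_sl hs (x.a s l) p]
    have hA := Sheet.At.left (hS _ hs.lt)
    have hk := (ho.sp.n l l.2).sl s
    cases s with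
    | true =>
      exact lineE (sp := x.sp) (a := x.sp.gP l) hA hs.c0 hs.c1
        (mE (sp := x.sp) l.2 (by simp)) EB.nil.ub
        (cE hk).lb ⟨p, y, a, b, hp⟩
    | false =>
      exact lineE (sp := x.sp) (a := x.sp.gM l) hA hs.c0 hs.c1
        (mE (sp := x.sp) l.2 (by simp)) EB.nil.ub
        (cE hk).lb ⟨p, y, a, b, hp⟩
  · show 0 ≤ FF26 (fun i => (oTq D x.R (x.a s l i)).w n) p
    rw [lf_26.eq]
    exact Finset.sum_nonneg fun i hi => mul_nonneg
      ((okE_of hE s l.2).1 i (Finset.mem_range.1 hi)) (lf_26.nn p hp.toOk i (Finset.mem_range.1 hi))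
  · have hs := st ρ hρ
    exact tv_nonneg ((ho.sp.n l l.2).G m m.2).2.2.1 hs.c0 hs.c1 _
  · have hs := st ρ hρ
    exact tv_nonneg ((ho.sp.n l l.2).G m m.2).2.2.2 hs.c0 hs.c1 _
  · have hs := st ρ hρ
    have hA := tAt (hS _ hs.lt) s l.2
    refine ⟨fun m => (x.lam s l m).tv (stc (tmD D x.R x.iH) (ixD (tmD D x.R x.iH) n ρ) ρ)
      (rwd D x.R (ixD (tmD D x.R x.iH) n ρ)), fun m => tv_nonneg (ho.lP s l l.2 m m.2) hs.c0 hs.c1
      _, hA.l1 (rho3 0 0 _) (rho3_nonneg le_rfl le_rfl hs.c0)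
      (rho3_le kS_pos.le zero_le_one hs.c1), fun m hm q _ _ => ?_, fun p y a b hp => ?_⟩
    · rcases ho.w s l l.2 m m.2 with h1 | h1
      · exact absurd (isz_rval h1 _ _) hm
      · exact (weq_fn h1 q).le
    · show ∑ m : Fin x.b.N, _ * FF26 (fun i => (oTq D x.R (x.a s m i)).up (tmD D x.R x.iH) n ρ) p
        ≤ cf (x.b.ps s l) (stc (tmD D x.R x.iH) (ixD (tmD D x.R x.iH) n ρ) ρ)
          (rwd D x.R (ixD (tmD D x.R x.iH) n ρ)) p
      simp only [← cf_up hs]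
      rw [cf_sum]
      have k0 := hp.k0
      have key : ∀ i < 13, ∑ m : Fin x.b.N, (x.lam s l m).tv
          (stc (tmD D x.R x.iH) (ixD (tmD D x.R x.iH) n ρ) ρ)
          (rwd D x.R (ixD (tmD D x.R x.iH) n ρ)) * (cre2 Cf.u x.R (x.a s m) i).kv
          (stc (tmD D x.R x.iH) (ixD (tmD D x.R x.iH) n ρ) ρ)
          (rwd D x.R (ixD (tmD D x.R x.iH) n ρ)) p.k ≤ (x.b.ps s l i).kv
          (stc (tmD D x.R x.iH) (ixD (tmD D x.R x.iH) n ρ) ρ)
          (rwd D x.R (ixD (tmD D x.R x.iH) n ρ)) p.k := by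
        intro i hi
        refine le_trans (le_of_eq (Finset.sum_congr rfl fun m _ => ?_)) (hA.la i hi
          (rho3 p.k 0 (stc (tmD D x.R x.iH) (ixD (tmD D x.R x.iH) n ρ) ρ))
          (rho3_nonneg k0 le_rfl hs.c0) (rho3_le hp.toLive.kS zero_le_one hs.c1))
        rw [tv_val (ho.lT s l l.2 m m.2)
          (ρ := rho3 p.k 0 (stc (tmD D x.R x.iH) (ixD (tmD D x.R x.iH) n ρ) ρ)) rfl]
        rfl
      unfold Sp12.cf
      exact add_le_add (lf_frm.mono hp.toOk fun i hi => key i (by omega)) (key 12 (by norm_num))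
  · have hs := st ρ hρ
    have hA := tAt (hS _ hs.lt) s l.2
    refine ⟨fun m => (x.lam s l m).tv (stc (tmD D x.R x.iH) (ixD (tmD D x.R x.iH) n ρ) ρ)
      (rwd D x.R (ixD (tmD D x.R x.iH) n ρ)), fun m => tv_nonneg (ho.lP s l l.2 m m.2) hs.c0 hs.c1
      _, hA.l1 (rho3 0 0 _) (rho3_nonneg le_rfl le_rfl hs.c0)
      (rho3_le kS_pos.le zero_le_one hs.c1), fun m hm q _ _ => ?_, ?_⟩
    · rcases ho.w s l l.2 m m.2 with h1 | h1
      · exact absurd (isz_rval h1 _ _) hm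
      · exact (weq_fn h1 q).le
    · have h1 := hA.lc (rho3 0 0 (stc (tmD D x.R x.iH) (ixD (tmD D x.R x.iH) n ρ) ρ))
        (rho3_nonneg le_rfl le_rfl hs.c0) (rho3_le kS_pos.le zero_le_one hs.c1)
      refine le_trans (le_of_eq (Finset.sum_congr rfl fun m _ => ?_)) h1
      exact congrArg₂ (· * ·) rfl (cre_up hs 0 (x.cp s m)).symm

end Tp12

end Pool.Agent.RZ.RCO
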