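import Pool.Agent.RZ.RCO.EdB
import Pool.Agent.RZ.RCO.Gt2

/-! Route P: the meshes of the forms of a cell (MP_73ccd0_lc). -/

set_option autoImplicit false
set_option linter.unusedSectionVars false

namespace Pool.Agent.RZ.RCO

open Set Finset

/-- the steps of a mesh are positive -/
noncomputable def mB (D R iH n : ℕ) : Bool :=
  (List.range n).all fun j => Nat.ble 1 (Sg.g D (R * j + iH))

theorem mB_msh {D R iH n : ℕ} (h : mB D R iH n = true) : Msh (tmD D R iH) n := by
  unfold mB at h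
  rw [List.all_eq_true] at h
  refine msh_of fun j hj => ?_
  have h1 := h j (List.mem_range.2 hj)
  have h2 : 1 ≤ Sg.g D (R * j + iH) := Nat.le_of_ble_eq_true h1
  show (0 : ℝ) < (Sg.g D (R * j + iH) : ℝ) / 2 ^ 24
  have : (0 : ℝ) < (Sg.g D (R * j + iH) : ℝ) := by exact_mod_cast h2
  positivity

/-- the mesh of a form -/
noncomputable def Fm.mB (x : Fm) : Bool := RCO.mB x.D x.R x.iH x.n

theorem Fm.mB_of {x : Fm} (h : x.mB = true) : Msh x.t x.n := mB_msh h

namespace Ehk

/-- **the meshes of all forms** -/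
noncomputable def msB (h : Ehk) (n : ℕ) : Bool := (h.fms n).all Fm.mB

theorem msB_of {h : Ehk} {n : ℕ} (hm : h.msB n = true) : ∀ y ∈ h.fms n, Msh y.t y.n :=
  fun y hy => Fm.mB_of (List.all_eq_true.1 hm y hy)

end Ehk

/-! ### the relation of the integers to the table -/

namespace Ec0

/-- the relation to the table on integers -/
def relB (q : Ec0) (T : ℕ → ℕ) (m : ℕ) : Bool :=
  decide ((2 ^ 24 : ℤ) * T (m + 1) ≤ 1000 * q.T) &&
  decide (1000 * q.T - (2 ^ 24 : ℤ) * T m ≤ 1000 * q.W) && Nat.blt (T m) (T (m + 1)) &&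
  (bif Nat.beq m 0 then decide (50 * q.s ≤ 2 ^ 24) else decide (q.s ≤ 0)) &&
  (decide (1000 * q.T - (2 ^ 24 : ℤ) * T m < 1000 * q.A 1) || Nat.beq q.n 1)

theorem relB_of {q : Ec0} {R : RT.Tab} {m : ℕ} (h : q.relB R.T m = true) : q.Rel R m := by
  unfold relB at h
  simp only [Bool.and_eq_true, Bool.or_eq_true, decide_eq_true_eq] at h
  obtain ⟨⟨⟨⟨h1, h2⟩, h3⟩, h4⟩, h5⟩ := h
  have g1 : (2 ^ 24 : ℝ) * (R.T (m + 1) : ℝ) ≤ 1000 * q.T := by exact_mod_cast h1
  have g2 : 1000 * (q.T : ℝ) - 2 ^ 24 * (R.T m : ℝ) ≤ 1000 * q.W := by exact_mod_cast h2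
  have g3 : R.T m < R.T (m + 1) := by
    have := Nat.le_of_ble_eq_true (show Nat.ble (R.T m + 1) (R.T (m + 1)) = true from h3)
    omega
  refine ⟨?_, ?_, ?_, ?_, ?_, ?_⟩
  · unfold RT.Tab.tn
    rw [div_le_div_iff₀ (by norm_num) (by positivity)]
    linarith
  · unfold RT.Tab.tn
    rw [sub_le_iff_le_add, div_le_iff₀ (by positivity)]
    have e : ((q.W : ℝ) / 2 ^ 24 + (R.T m : ℝ) / 1000) * 2 ^ 24
        = q.W + 2 ^ 24 * (R.T m : ℝ) / 1000 := by ring
    rw [e]
    linarith
  · unfold RT.Tab.tn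
    exact div_lt_div_of_pos_right (by exact_mod_cast g3) (by norm_num)
  · unfold RT.Tab.tn
    positivity
  · unfold RT.Tab.dl
    rcases Nat.eq_zero_or_pos m with h0 | h0
    · subst h0
      rw [show Nat.beq 0 0 = true from rfl, cond_true, decide_eq_true_eq] at h4
      rw [if_pos rfl, div_le_div_iff₀ (by positivity) (by norm_num)]
      have : (50 : ℝ) * q.s ≤ 2 ^ 24 := by exact_mod_cast h4
      linarith
    · have e : Nat.beq m 0 = false := by
        cases m with
        | zero => omega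
        | succ m => rfl
      rw [e, cond_false, decide_eq_true_eq] at h4
      rw [if_neg (by omega)]
      exact div_nonpos_of_nonpos_of_nonneg (by exact_mod_cast h4) (by positivity)
  · rcases h5 with h6 | h6
    · left
      have g6 : 1000 * (q.T : ℝ) - 2 ^ 24 * (R.T m : ℝ) < 1000 * q.A 1 := by exact_mod_cast h6
      unfold RT.Tab.tn
      rw [sub_lt_iff_lt_add, div_lt_iff₀ (by positivity)]
      have e : ((q.A 1 : ℝ) / 2 ^ 24 + (R.T m : ℝ) / 1000) * 2 ^ 24
          = q.A 1 + 2 ^ 24 * (R.T m : ℝ) / 1000 := by ring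
      rw [e]
      linarith
    · right
      exact Nat.eq_of_beq_eq_true h6

end Ec0

end Pool.Agent.RZ.RCO
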