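import Mathlib

/-! Generated: upper dyadic coefficients of the hazard polynomial (MP_73ccd0_lc). -/

set_option autoImplicit false

namespace Pool.Agent.RZ.RCO

/-- the coefficients in units of `2 ^ (-24)`, positive and negative part -/
def gz : List (List (ℕ × ℕ)) :=
  [[(0, 32347428), (144886159, 0), (0, 134868214), (126637514, 0), (0, 851980415),
    (1936980188, 0), (0, 1646722203), (418469938, 0), (55711363, 0)],
   [(29321272, 0), (0, 282616766), (778835411, 0), (0, 603508940), (0, 476005185),
    (433686202, 0), (1004822900, 0), (0, 1258909943), (385470983, 0)],
   [(0, 11589767), (205253669, 0), (0, 816767756), (232368737, 0), (5662650307, 0),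
    (0, 15425267266), (18165091934, 0), (0, 10269434308), (2262492672, 0)],
   [(0, 107323), (0, 58222308), (348335136, 0), (0, 47390534), (0, 4324554251),
    (13898599801, 0), (0, 19566930469), (13306455210, 0), (0, 3541514823)]]

end Pool.Agent.RZ.RCO
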