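import Pool.Agent.RZ.RCM9.CertH
import Pool.Agent.RZ.RCO.Gt2
import Pool.Agent.RZ.RCO.Hz0

/-! The hazard of the certificate below the rates of a table (MP_73ccd0_lc). -/

set_option autoImplicit false

namespace Pool.Agent.RZ.RCO

open Sg Set Pool.Agent.RZ.RCM9 Pool.Agent.RZ.RCM9.Bern Pool.Agent.RZ.RCM9.Pk Pool.Agent.RZ.RCN.K

/-! ### the polynomial bound of the hazard -/

/-- the bound of the hazard, a polynomial of the weight and of the time -/
noncomputable def hzG (y t : ℝ) : ℝ := 1 + y * pv2 CertH.z.Rlo y t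

/-- the hazard is below the polynomial -/
theorem rr_le_hzG {y t : ℝ} (hy : y ∈ Icc (0 : ℝ) (1 / 2)) (ht : t ∈ Icc (0 : ℝ) 1) :
    CertH.z.hz.rr y t ≤ hzG y t := by
  have hy1 : y ∈ Icc (0 : ℝ) 1 := ⟨hy.1, hy.2.trans (by norm_num)⟩
  have h1 := CertH.posH.R_le hy1 ht
  have h2 := CertH.posH.den hy1 ht
  have e : CertH.z.rR y t = hzG y t := by
    unfold HDat.rR hzG
    rw [if_pos hy.2]
  show CertH.z.rE y t / (1 - y * CertH.z.rSh y t) ≤ _
  rw [div_le_iff₀ h2, ← e]
  exact h1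

theorem hasDerivAt_pv2t (l : List (List ℚ)) (y t : ℝ) :
    HasDerivAt (pv2 l y) (pv2 (l.map pd) y t) t := by
  induction l with
  | nil => exact hasDerivAt_const t (0 : ℝ)
  | cons a l ih => exact (hasDerivAt_pv a t).add (ih.const_mul y)

/-- the derivative in time, weights up to `1 / 8` -/
def eHzD : E := pe2 (CertH.z.Rlo.map pd) (qc (1 / 8) * vX) vT

theorem n_HzD : NN eHzD :=
  NN.of (K := 300) (D := ⟨4, 1, 1, 8⟩) (Box.of 20036484974811 (by decide +kernel)) (by decide +kernel)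

/-- the polynomial increases in time -/
theorem hzG_mono {y s t : ℝ} (hy : y ∈ Icc (0 : ℝ) (1 / 8)) (hs : 0 ≤ s) (hst : s ≤ t)
    (ht : t ≤ 1) : hzG y s ≤ hzG y t := by
  have key : MonotoneOn (pv2 CertH.z.Rlo y) (Icc 0 1) := by
    refine monotoneOn_of_deriv_nonneg (convex_Icc _ _)
      (fun r _ => (hasDerivAt_pv2t _ y r).continuousAt.continuousWithinAt)
      (fun r _ => (hasDerivAt_pv2t _ y r).differentiableAt.differentiableWithinAt) fun r hr => ?_
    rw [(hasDerivAt_pv2t _ y r).deriv]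
    have h1 := n_HzD (8 * y) 0 0 r ⟨by linarith [hy.1], by linarith [hy.2]⟩ ⟨le_rfl, zero_le_one⟩
      ⟨le_rfl, zero_le_one⟩ (interior_subset hr)
    rw [eHzD, val_pe2, val_mul, val_qc, val_vX, val_vT] at h1
    rw [show ((1 / 8 : ℚ) : ℝ) * (8 * y) = y by push_cast; ring] at h1
    exact h1
  have h2 := key ⟨hs, hst.trans ht⟩ ⟨hs.trans hst, ht⟩ hst
  unfold hzG
  have := mul_le_mul_of_nonneg_left h2 hy.1
  linarith

/-! ### dyadic coefficients -/

/-- coefficientwise bound -/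
def qle : List ℚ → List (ℕ × ℕ) → Bool
  | [], [] => true
  | q :: l, a :: m => decide (q * 2 ^ 24 ≤ (a.1 : ℚ) - a.2) && qle l m
  | _, _ => false

def qle2 : List (List ℚ) → List (List (ℕ × ℕ)) → Bool
  | [], [] => true
  | q :: l, a :: m => qle q a && qle2 l m
  | _, _ => false

/-- the real coefficient -/
noncomputable def gr (a : ℕ × ℕ) : ℝ := (a.1 : ℝ) / 2 ^ 24 - (a.2 : ℝ) / 2 ^ 24

theorem qle_le : ∀ {l : List ℚ} {m : List (ℕ × ℕ)}, qle l m = true → ∀ {t : ℝ}, 0 ≤ t →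
    pv l t ≤ horR t (m.map gr)
  | [], [], _, t, _ => le_rfl
  | [], a :: m, h, _, _ => by simp [qle] at h
  | q :: l, [], h, _, _ => by simp [qle] at h
  | q :: l, a :: m, h, t, t0 => by
    simp only [qle, Bool.and_eq_true, decide_eq_true_eq] at h
    have h1 := mul_le_mul_of_nonneg_left (qle_le h.2 t0) t0
    have h2 : (q : ℝ) * 2 ^ 24 ≤ (a.1 : ℝ) - a.2 := by exact_mod_cast h.1
    have h3 : (q : ℝ) ≤ gr a := by
      unfold gr
      rw [← sub_div, le_div_iff₀ (by positivity)]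
      exact h2
    simp only [pv, List.map_cons, horR]
    linarith

theorem qle2_le : ∀ {l : List (List ℚ)} {m : List (List (ℕ × ℕ))}, qle2 l m = true →
    ∀ {y t : ℝ}, 0 ≤ y → 0 ≤ t → pv2 l y t ≤ horR y (m.map fun a => horR t (a.map gr))
  | [], [], _, _, _, _, _ => le_rfl
  | [], a :: m, h, _, _, _, _ => by simp [qle2] at h
  | q :: l, [], h, _, _, _, _ => by simp [qle2] at h
  | q :: l, a :: m, h, y, t, y0, t0 => by
    simp only [qle2, Bool.and_eq_true] at h
    have h1 := mul_le_mul_of_nonneg_left (qle2_le h.2 y0 t0) y0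
    have h3 := qle_le h.1 t0
    simp only [pv2, List.map_cons, horR]
    linarith

theorem gz_ok : qle2 CertH.z.Rlo gz = true := by decide +kernel

/-! ### the record -/

/-- **the layout of the rates** -/
structure Hz1 where
  /-- length of a row, entry of the step length, entry of the absolute time -/
  R : ℕ
  iH : ℕ
  iT : ℕ
  /-- the range of the weights is `[0, yn / 2 ^ yk]` -/
  yn : ℕ
  yk : ℕ
  /-- the rates -/
  RR : List Re

namespace Hz1

variable (x : Hz1)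

def Y : Re := kd x.yn x.yk * kv 1
def T : Re := kr x.iT + kv 2 * kr x.iH
def G : Re := hor x.Y (gz.map fun l => hor x.T (l.map fun a => kd a.1 24 - kd a.2 24))

/-- all lines -/
def sheet : Sheet where
  e := []
  p := []
  f := []
  o := []
  s := [(kr (x.R + x.iT), kr x.iT + kr x.iH), (kr x.iT + kr x.iH, kr (x.R + x.iT)),
    (kc 1 + x.Y * x.G, hor x.Y x.RR)]

/-- the format -/
def okT : Bool := allL isT x.RR && Nat.ble (2 ^ x.yk) (RCG.xN * x.yn)

/-- the ends of the time -/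
noncomputable def okE (D n : ℕ) : Bool :=
  Nat.beq (g D x.iT) 0 && Nat.ble (g D (x.R * n + x.iT)) 16777216

variable {x} {D n : ℕ}

/-- the absolute times -/
theorem time (hE : x.okE D n = true) (hS : ∀ j < n, x.sheet.At D x.R j) :
    ∀ j ≤ n, un D x.R x.iT j = tmD D x.R x.iH j := by
  intro j
  induction j with
  | zero =>
    intro _
    unfold okE at hE
    simp only [Bool.and_eq_true] at hE
    have h1 := Nat.eq_of_beq_eq_true hE.1
    rw [tmD_zero]
    unfold un Sg.nv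
    rw [Nat.mul_zero, Nat.zero_add, h1]
    simp
  | succ j ih =>
    intro hj
    have h0 := ih (by omega)
    have hA := hS j (by omega)
    have h1 := hA.s (kr (x.R + x.iT), kr x.iT + kr x.iH) (by simp [sheet]) (fun _ => 0)
      (fun _ => le_rfl) fun _ => zero_le_one
    have h2 := hA.s (kr x.iT + kr x.iH, kr (x.R + x.iT)) (by simp [sheet]) (fun _ => 0)
      (fun _ => le_rfl) fun _ => zero_le_one
    rw [re_add, rwd_kr1, rwd_kr, rwd_kr] at h1 h2
    have h3 := tmD_succ D x.R x.iH j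
    linarith

/-- the end of the time -/
theorem tm_le (hE : x.okE D n = true) (hS : ∀ j < n, x.sheet.At D x.R j) :
    tmD D x.R x.iH n ≤ 1 := by
  rw [← time hE hS n le_rfl]
  unfold okE at hE
  simp only [Bool.and_eq_true] at hE
  have h1 := Nat.le_of_ble_eq_true hE.2
  have h2 : ((g D (x.R * n + x.iT) : ℕ) : ℝ) ≤ ((16777216 : ℕ) : ℝ) := Nat.cast_le.2 h1
  unfold un Sg.nv
  rw [div_le_one (by positivity)]
  refine h2.trans ?_
  norm_num

/-- the range contains the weights of the class -/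
theorem ym_ge (h : x.okT = true) : RCG.XM ≤ (x.yn : ℝ) / 2 ^ x.yk := by
  unfold okT at h
  simp only [Bool.and_eq_true] at h
  have h1 := Nat.le_of_ble_eq_true h.2
  have h2 : ((2 ^ x.yk : ℕ) : ℝ) ≤ ((RCG.xN * x.yn : ℕ) : ℝ) := Nat.cast_le.2 h1
  push_cast at h2
  have h3 : (0 : ℝ) < (RCG.xN : ℝ) := by norm_num [RCG.xN]
  unfold RCG.XM
  rw [div_le_div_iff₀ h3 (by positivity)]
  linarith

/-- the coordinate of a time in its step -/
theorem stc_mul {t : ℕ → ℝ} {j : ℕ} {r : ℝ} (hm : Msh t n) (h : Stp t n j r) :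
    t j + stc t j r * (t (j + 1) - t j) = r := by
  have h1 : t j < t (j + 1) := hm.1 j h.lt
  have h2 : t (j + 1) - t j ≠ 0 := by linarith
  unfold stc
  field_simp
  ring

/-- **the line at a time** -/
theorem line (hO : x.okT = true) (hE : x.okE D n = true) (hn : 0 < n)
    (hm : Msh (tmD D x.R x.iH) n) (hS : ∀ j < n, x.sheet.At D x.R j) {ρ y : ℝ}
    (hρ : ρ ∈ Icc 0 (tmD D x.R x.iH n)) (hy : y ∈ Icc 0 ((x.yn : ℝ) / 2 ^ x.yk)) :
    hzG y ρ ≤ hT x.RR (cD (tmD D x.R x.iH) n ρ) (eD D x.R (tmD D x.R x.iH) n ρ) y := by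
  have hρ' : ρ ∈ Icc (tmD D x.R x.iH 0) (tmD D x.R x.iH n) := hρ
  have st : Stp (tmD D x.R x.iH) n (ixD (tmD D x.R x.iH) n ρ) ρ := ixD_spec hm hn hρ'
  have hO1 : allL isT x.RR = true := by
    unfold okT at hO
    simp only [Bool.and_eq_true] at hO
    exact hO.1
  obtain ⟨y0, y1⟩ := hy
  have ym0 : 0 ≤ (x.yn : ℝ) / 2 ^ x.yk := by positivity
  obtain ⟨u, u0, u1, hu⟩ : ∃ u, 0 ≤ u ∧ u ≤ 1 ∧ (x.yn : ℝ) / 2 ^ x.yk * u = y := by
    rcases eq_or_lt_of_le ym0 with h | h
    · exact ⟨0, le_rfl, zero_le_one, by rw [mul_zero]; linarith⟩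
    · exact ⟨y / ((x.yn : ℝ) / 2 ^ x.yk), div_nonneg y0 h.le, (div_le_one h).2 y1,
        mul_div_cancel₀ _ h.ne'⟩
  have hA := hS _ st.lt
  have h1 := hA.s (kc 1 + x.Y * x.G, hor x.Y x.RR) (by simp [sheet])
    (rho3 0 u (cD (tmD D x.R x.iH) n ρ)) (rho3_nonneg le_rfl u0 st.c0)
    (rho3_le kS_pos.le u1 st.c1)
  have hY : x.Y.val (rho3 0 u (cD (tmD D x.R x.iH) n ρ))
      (rwd D x.R (ixD (tmD D x.R x.iH) n ρ)) = y := by
    unfold Y
    rw [re_mul, kd_val, kv_val]
    exact hu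
  have hTt : x.T.val (rho3 0 u (cD (tmD D x.R x.iH) n ρ))
      (rwd D x.R (ixD (tmD D x.R x.iH) n ρ)) = ρ := by
    unfold T
    rw [re_add, re_mul, rwd_kr, rwd_kr, kv_val, time hE hS _ st.lt.le, ← tmD_succ]
    exact stc_mul hm st
  have hG : x.G.val (rho3 0 u (cD (tmD D x.R x.iH) n ρ))
      (rwd D x.R (ixD (tmD D x.R x.iH) n ρ))
      = horR y (gz.map fun l => horR ρ (l.map gr)) := by
    unfold G
    refine hor_val hY ?_
    rw [List.forall₂_map_left_iff, List.forall₂_map_right_iff]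
    refine List.forall₂_same.2 fun l _ => hor_val hTt ?_
    rw [List.forall₂_map_left_iff, List.forall₂_map_right_iff]
    exact List.forall₂_same.2 fun a _ => by
      rw [re_sub, kd_val, kd_val]
      rfl
  rw [re_add, re_mul, hY, hG, kc_val, Nat.cast_one, hor_hT hO1 hY rfl] at h1
  refine le_trans ?_ h1
  unfold hzG
  have h2 := mul_le_mul_of_nonneg_left (qle2_le gz_ok y0 hρ.1) y0
  linarith

theorem XM_8 : RCG.XM ≤ 1 / 8 := by
  unfold RCG.XM
  norm_num [RCG.xN]

/-- **the hazard is below the rates of the table**, the world starts at the table time `δ` -/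
theorem rr_le (hO : x.okT = true) (hE : x.okE D n = true) (hn : 0 < n)
    (hm : Msh (tmD D x.R x.iH) n) (hS : ∀ j < n, x.sheet.At D x.R j)
    {δ r y : ℝ} (hδ : 0 ≤ δ)
    (hr : 0 ≤ r) (h1 : r + δ ≤ tmD D x.R x.iH n) (hy : y ∈ Icc 0 RCG.XM) :
    CertH.z.hz.rr y r ≤ hT x.RR (cD (tmD D x.R x.iH) n (r + δ))
      (eD D x.R (tmD D x.R x.iH) n (r + δ)) y := by
  have h2 := tm_le hE hS
  have hX := XM_8
  refine (rr_le_hzG ⟨hy.1, hy.2.trans (hX.trans (by norm_num))⟩ ⟨hr, by linarith⟩).trans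
    ((hzG_mono ⟨hy.1, hy.2.trans hX⟩ hr (by linarith : r ≤ r + δ) (by linarith)).trans
    (line hO hE hn hm hS ⟨by linarith, h1⟩ ⟨hy.1, hy.2.trans (ym_ge hO)⟩))

end Hz1

end Pool.Agent.RZ.RCO
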