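import Pool.Agent.RZ.RCO.Gz9
import Pool.Agent.RZ.RCO.Hz1

/-! Generated: the layout of the tables of level 0 and 1/2 of the pairs (MP_73ccd0_lc). -/

set_option autoImplicit false
set_option maxRecDepth 100000

namespace Pool.Agent.RZ.RCO.SA

open Sg

def RR : List Re := [lr 744 2, lr 744 3, lr 744 4]

/-- level 0 -/
def x0 : Tp0 where
  R := 744
  iH := 0
  RR := RR
  iZ := 14
  nZ := 3
  W := ⟨11, 8, 5⟩
  nW := 3
  fy := fun i => match i with | 0 => some ⟨17, 17, 17⟩ | 1 => some ⟨18, 18, 18⟩ | 2 => some ⟨19, 19, 19⟩ | 4 => some ⟨20, 20, 20⟩ | 9 => some ⟨21, 21, 21⟩ | 15 => some ⟨22, 22, 22⟩ | _ => none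
  fn := fun i => match i with | 0 => some ⟨23, 29, 35⟩ | 1 => some ⟨24, 30, 36⟩ | 2 => some ⟨25, 31, 37⟩ | 4 => some ⟨26, 32, 38⟩ | 9 => some ⟨27, 33, 39⟩ | 15 => some ⟨28, 34, 40⟩ | _ => none
  c1 := ⟨ls' 744 127, ls' 744 128, kz, ls' 744 129, ls' 744 130, kz, kz, kz⟩
  c2 := ⟨ls' 744 131, ls' 744 132, kz, ls' 744 133, ls' 744 134, kz, kz, kz⟩
  fe := fun k => match k with | 1 => [((lr 744 195 * kw 0 + lr 744 196 * kv 0) * (eX * hor eX RR), .f false .xhm), ((lr 744 197 * kw 0 + lr 744 198 * kv 0) * (eX * hor eX RR), .f false .xqm), ((lr 744 199 * kw 0 + lr 744 200 * kv 0) * (eX * hor eX RR), .f false .xsh), ((lr 744 201 * kw 0 + lr 744 202 * kv 0) * (eX * hor eX RR), .f false .xsq), ((lr 744 203 * kw 0 + lr 744 204 * kv 0) * (eX * hor eX RR), .f false .xsl), ((lr 744 205 * kw 0 + lr 744 206 * kv 0) * (eX * hor eX RR), .f true .xhm), ((lr 744 207 * kw 0 + lr 744 208 * kv 0) * (eX * hor eX RR), .f true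 .xqm), ((lr 744 209 * kw 0 + lr 744 210 * kv 0) * (eX * hor eX RR), .f true .xsh), ((lr 744 211 * kw 0 + lr 744 212 * kv 0) * (eX * hor eX RR), .f true .xsq), ((lr 744 213 * kw 0 + lr 744 214 * kv 0) * (eX * hor eX RR), .f true .xsl), ((lr 744 215 * kw 0 + lr 744 216 * kv 0) * (eX * hor eX RR), .xa)] | _ => []
  ff := fun k => match k with | 0 => [(lr 744 217 * kw 0 + lr 744 218 * kv 0, .xhm), (lr 744 219 * kw 0 + lr 744 220 * kv 0, .xqm), (lr 744 221 * kw 0 + lr 744 222 * kv 0, .xsh), (lr 744 223 * kw 0 + lr 744 224 * kv 0, .xsq), (lr 744 225 * kw 0 + lr 744 226 * kv 0, .xsl)] | 1 => [(lr 744 227 * kw 0 + lr 744 228 * kv 0, .xhm), (lr 744 229 * kw 0 + lr 744 230 * kv 0, .xqm), (lr 744 231 * kw 0 + lr 744 232 * kv 0, .xsh), (lr 744 233 * kw 0 + lr 744 234 * kv 0, .xsq), (lr 744 235 * kw 0 + lr 744 236 * kv 0, .xsl)] | 2 => [(lr 744 237 * kw 0 + lr 744 238 * kv 0, .xhm), (lr 744 239 * kw 0 + lr 744 240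 * kv 0, .xqm), (lr 744 241 * kw 0 + lr 744 242 * kv 0, .xsh), (lr 744 243 * kw 0 + lr 744 244 * kv 0, .xsq), (lr 744 245 * kw 0 + lr 744 246 * kv 0, .xsl)] | 3 => [(lr 744 247 * kw 0 + lr 744 248 * kv 0, .xhm), (lr 744 249 * kw 0 + lr 744 250 * kv 0, .xqm), (lr 744 251 * kw 0 + lr 744 252 * kv 0, .xsh), (lr 744 253 * kw 0 + lr 744 254 * kv 0, .xsq), (lr 744 255 * kw 0 + lr 744 256 * kv 0, .xsl)] | 4 => [(lr 744 257 * kw 0 + lr 744 258 * kv 0, .xhm), (lr 744 259 * kw 0 + lr 744 260 * kv 0, .xqm), (lr 744 261 * kw 0 + lr 744 262 * kv 0, .xsh), (lr 744 263 * kw 0 + lr 744 264 * kv 0, .xsq), (lr 744 265 * kw 0 + lr 744 266 * kv 0, .xsl)] | 5 => [(lr 744 267 * kw 0 + lr 744 268 * kv 0, .xhm), (lr 744 269 * kw 0 + lr 744 270 * kv 0, .xqm), (lr 744 271 * kw 0 + lr 744 272 * kv 0, .xsh), (lr 744 273 * kw 0 + lr 744 274 * kv 0, .xsq), (lr 744 275 * kw 0 + lr 744 276 * kv 0, .xsl)] | _ => []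

/-- the coefficients of the forms -/
def ta : Bool → ℕ → ℕ → Option Cf := fun s l => match s with | true => (match l with | 0 => (fun i => match i with | 0 => some ⟨67, 61, 55⟩ | 1 => some ⟨68, 62, 56⟩ | 2 => some ⟨69, 63, 57⟩ | 4 => some ⟨70, 64, 58⟩ | 9 => some ⟨71, 65, 59⟩ | 15 => some ⟨72, 66, 60⟩ | _ => none) | 1 => (fun i => match i with | 0 => some ⟨85, 79, 73⟩ | 1 => some ⟨86, 80, 74⟩ | 2 => some ⟨87, 81, 75⟩ | 4 => some ⟨88, 82, 76⟩ | 9 => some ⟨89, 83, 77⟩ | 15 => some ⟨90, 84, 78⟩ | _ => none) | _ => fun _ => none) | false => (match l with | 0 => (fun i => match i with | 0 => some ⟨103, 97, 91⟩ | 1 => some ⟨104, 98, 92⟩ | 2 => some ⟨105, 99, 93⟩ | 4 => some ⟨106, 100, 94⟩ | 9 => some ⟨107, 101, 95⟩ | 15 => some ⟨108, 102, 96⟩ | _ => none) | 1 => (fun i => match i with | 0 => some ⟨121, 115, 109⟩ | 1 => some ⟨122, 116, 110⟩ | 2 => some ⟨123, 117, 111⟩ | 4 => some ⟨124, 118, 112⟩ | 9 => some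 ⟨125, 119, 113⟩ | 15 => some ⟨126, 120, 114⟩ | _ => none) | _ => fun _ => none)

/-- level 1/2 -/
def b : Sp12 where
  N := 2
  RR := RR
  Rp := kz
  W := x0.Wu
  Wp := [kc 1]
  nf := x0.fU
  ni := plr 744 0 41 3
  np := [kc 1]
  Dk := plr 744 0 44 3
  wv := fun l => match l with | 0 => ⟨fun i => if i = 0 then 1 else 0, [], 0⟩ | _ => ⟨fun _ => 0, [1], 0⟩
  md := fun _ => true
  sl := fun _ _ _ => kz
  us := fun _ _ _ => kz
  ps := fun s l => cre2 Cf.u 744 (ta s l)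
  slp := fun _ _ => kz
  usp := fun _ _ => kz
  psp := fun _ _ => kz
  Gp := fun l m => lr 744 (47 + 2 * l + m)
  Gm := fun l m => lr 744 (51 + 2 * l + m)
  cA := fun l => match l with | 0 => ⟨ls' 744 139, ls' 744 140, kz, ls' 744 141, ls' 744 142, kz, kz, kz⟩ | 1 => ⟨ls' 744 167, ls' 744 168, kz, ls' 744 169, ls' 744 170, kz, kz, kz⟩ | _ => ⟨kz, kz, kz, kz, kz, kz, kz, kz⟩
  cB := fun l => match l with | 0 => ⟨ls' 744 143, ls' 744 144, kz, ls' 744 145, ls' 744 146, kz, kz, kz⟩ | 1 => ⟨ls' 744 171, ls' 744 172, kz, ls' 744 173, ls' 744 174, kz, kz, kz⟩ | _ => ⟨kz, kz, kz, kz, kz, kz, kz, kz⟩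
  cM := fun l => match l with | 0 => ⟨ls' 744 147, ls' 744 148, kz, ls' 744 149, ls' 744 150, kz, kz, kz⟩ | 1 => ⟨ls' 744 175, ls' 744 176, kz, ls' 744 177, ls' 744 178, kz, kz, kz⟩ | _ => ⟨kz, kz, kz, kz, kz, kz, kz, kz⟩
  c1 := fun l => match l with | 0 => ⟨ls' 744 151, ls' 744 152, kz, ls' 744 153, ls' 744 154, kz, kz, kz⟩ | 1 => ⟨ls' 744 179, ls' 744 180, kz, ls' 744 181, ls' 744 182, kz, kz, kz⟩ | _ => ⟨kz, kz, kz, kz, kz, kz, kz, kz⟩
  cT := fun l => match l with | 0 => ⟨ls' 744 155, ls' 744 156, kz, ls' 744 157, ls' 744 158, kz, kz, kz⟩ | 1 => ⟨ls' 744 183, ls' 744 184, kz, ls' 744 185, ls' 744 186, kz, kz, kz⟩ | _ => ⟨kz, kz, kz, kz, kz, kz, kz, kz⟩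
  cP := fun l => match l with | 0 => ⟨ls' 744 159, ls' 744 160, kz, ls' 744 161, ls' 744 162, kz, kz, kz⟩ | 1 => ⟨ls' 744 187, ls' 744 188, kz, ls' 744 189, ls' 744 190, kz, kz, kz⟩ | _ => ⟨kz, kz, kz, kz, kz, kz, kz, kz⟩
  cN := fun l => match l with | 0 => ⟨ls' 744 163, ls' 744 164, kz, ls' 744 165, ls' 744 166, kz, kz, kz⟩ | 1 => ⟨ls' 744 191, ls' 744 192, kz, ls' 744 193, ls' 744 194, kz, kz, kz⟩ | _ => ⟨kz, kz, kz, kz, kz, kz, kz, kz⟩
  cD := ⟨ls' 744 135, ls' 744 136, kz, ls' 744 137, ls' 744 138, kz, kz, kz⟩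
  dp := fun _ => kz
  dm := fun _ => kz
  fe := fun k l => match k, l with | 0, 0 => [((lr 744 277 * kw 0 + lr 744 278 * kv 0) * (eX * hor eX RR), .f false .xhm), ((lr 744 279 * kw 0 + lr 744 280 * kv 0) * (eX * hor eX RR), .f false .xqm), ((lr 744 281 * kw 0 + lr 744 282 * kv 0) * (eX * hor eX RR), .f false .xsh), ((lr 744 283 * kw 0 + lr 744 284 * kv 0) * (eX * hor eX RR), .f false .xsq), ((lr 744 285 * kw 0 + lr 744 286 * kv 0) * (eX * hor eX RR), .f false .xsl), ((lr 744 287 * kw 0 + lr 744 288 * kv 0) * (eX * hor eX RR), .f true .xhm), ((lr 744 289 * kw 0 + lr 744 290 * kv 0) * (eX * hor eX RR), .f true .xqm), ((lr 744 291 * kw 0 + lr 744 292 * kv 0) * (eX * hor eX RR), .f true .xsh), ((lr 744 293 * kw 0 + lr 744 294 * kv 0) * (eX * hor eX RR), .f true .xsq), ((lr 744 295 * kw 0 + lr 744 296 * kv 0) * (eX * hor eX RR), .f true .xsl), ((lr 744 297 * kw 0 + lr 744 298 * kv 0) * (eX * hor eX RR), .xa)]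 | 1, 0 => [((lr 744 299 * kw 0 + lr 744 300 * kv 0) * (eX * hor eX RR), .f false .xhm), ((lr 744 301 * kw 0 + lr 744 302 * kv 0) * (eX * hor eX RR), .f false .xqm), ((lr 744 303 * kw 0 + lr 744 304 * kv 0) * (eX * hor eX RR), .f false .xsh), ((lr 744 305 * kw 0 + lr 744 306 * kv 0) * (eX * hor eX RR), .f false .xsq), ((lr 744 307 * kw 0 + lr 744 308 * kv 0) * (eX * hor eX RR), .f false .xsl), ((lr 744 309 * kw 0 + lr 744 310 * kv 0) * (eX * hor eX RR), .f true .xhm), ((lr 744 311 * kw 0 + lr 744 312 * kv 0) * (eX * hor eX RR), .f true .xqm), ((lr 744 313 * kw 0 + lr 744 314 * kv 0) * (eX * hor eX RR), .f true .xsh), ((lr 744 315 * kw 0 + lr 744 316 * kv 0) * (eX * hor eX RR), .f true .xsq), ((lr 744 317 * kw 0 + lr 744 318 * kv 0) * (eX * hor eX RR), .f true .xsl), ((lr 744 319 * kw 0 + lr 744 320 * kv 0) * (eX * hor eX RR), .xa)] | 2, 0 => [((lr 744 321 * kw 0 + lr 744 322 * kv 0) * (eX * hor eX RR),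 .f false .xhm), ((lr 744 323 * kw 0 + lr 744 324 * kv 0) * (eX * hor eX RR), .f false .xqm), ((lr 744 325 * kw 0 + lr 744 326 * kv 0) * (eX * hor eX RR), .f false .xsh), ((lr 744 327 * kw 0 + lr 744 328 * kv 0) * (eX * hor eX RR), .f false .xsq), ((lr 744 329 * kw 0 + lr 744 330 * kv 0) * (eX * hor eX RR), .f false .xsl), ((lr 744 331 * kw 0 + lr 744 332 * kv 0) * (eX * hor eX RR), .f true .xhm), ((lr 744 333 * kw 0 + lr 744 334 * kv 0) * (eX * hor eX RR), .f true .xqm), ((lr 744 335 * kw 0 + lr 744 336 * kv 0) * (eX * hor eX RR), .f true .xsh), ((lr 744 337 * kw 0 + lr 744 338 * kv 0) * (eX * hor eX RR), .f true .xsq), ((lr 744 339 * kw 0 + lr 744 340 * kv 0) * (eX * hor eX RR), .f true .xsl), ((lr 744 341 * kw 0 + lr 744 342 * kv 0) * (eX * hor eX RR), .xa)] | 4, 0 => [((lr 744 343 * kw 0 + lr 744 344 * kv 0) * (eX * hor eX RR), .f false .xhm), ((lr 744 345 * kw 0 + lr 744 346 * kv 0) * (eX * hor eX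 RR), .f false .xqm), ((lr 744 347 * kw 0 + lr 744 348 * kv 0) * (eX * hor eX RR), .f false .xsh), ((lr 744 349 * kw 0 + lr 744 350 * kv 0) * (eX * hor eX RR), .f false .xsq), ((lr 744 351 * kw 0 + lr 744 352 * kv 0) * (eX * hor eX RR), .f false .xsl), ((lr 744 353 * kw 0 + lr 744 354 * kv 0) * (eX * hor eX RR), .f true .xhm), ((lr 744 355 * kw 0 + lr 744 356 * kv 0) * (eX * hor eX RR), .f true .xqm), ((lr 744 357 * kw 0 + lr 744 358 * kv 0) * (eX * hor eX RR), .f true .xsh), ((lr 744 359 * kw 0 + lr 744 360 * kv 0) * (eX * hor eX RR), .f true .xsq), ((lr 744 361 * kw 0 + lr 744 362 * kv 0) * (eX * hor eX RR), .f true .xsl), ((lr 744 363 * kw 0 + lr 744 364 * kv 0) * (eX * hor eX RR), .xa)] | 5, 0 => [((lr 744 365 * kw 0 + lr 744 366 * kv 0) * (eX * hor eX RR), .f false .xhm), ((lr 744 367 * kw 0 + lr 744 368 * kv 0) * (eX * hor eX RR), .f false .xqm), ((lr 744 369 * kw 0 + lr 744 370 * kv 0) * (eX * hor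 eX RR), .f false .xsh), ((lr 744 371 * kw 0 + lr 744 372 * kv 0) * (eX * hor eX RR), .f false .xsq), ((lr 744 373 * kw 0 + lr 744 374 * kv 0) * (eX * hor eX RR), .f false .xsl), ((lr 744 375 * kw 0 + lr 744 376 * kv 0) * (eX * hor eX RR), .f true .xhm), ((lr 744 377 * kw 0 + lr 744 378 * kv 0) * (eX * hor eX RR), .f true .xqm), ((lr 744 379 * kw 0 + lr 744 380 * kv 0) * (eX * hor eX RR), .f true .xsh), ((lr 744 381 * kw 0 + lr 744 382 * kv 0) * (eX * hor eX RR), .f true .xsq), ((lr 744 383 * kw 0 + lr 744 384 * kv 0) * (eX * hor eX RR), .f true .xsl), ((lr 744 385 * kw 0 + lr 744 386 * kv 0) * (eX * hor eX RR), .xa)] | 6, 0 => [((lr 744 387 * kw 0 + lr 744 388 * kv 0) * (eX * hor eX RR), .f false .xhm), ((lr 744 389 * kw 0 + lr 744 390 * kv 0) * (eX * hor eX RR), .f false .xqm), ((lr 744 391 * kw 0 + lr 744 392 * kv 0) * (eX * hor eX RR), .f false .xsh), ((lr 744 393 * kw 0 + lr 744 394 * kv 0) * (eX *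 hor eX RR), .f false .xsq), ((lr 744 395 * kw 0 + lr 744 396 * kv 0) * (eX * hor eX RR), .f false .xsl), ((lr 744 397 * kw 0 + lr 744 398 * kv 0) * (eX * hor eX RR), .f true .xhm), ((lr 744 399 * kw 0 + lr 744 400 * kv 0) * (eX * hor eX RR), .f true .xqm), ((lr 744 401 * kw 0 + lr 744 402 * kv 0) * (eX * hor eX RR), .f true .xsh), ((lr 744 403 * kw 0 + lr 744 404 * kv 0) * (eX * hor eX RR), .f true .xsq), ((lr 744 405 * kw 0 + lr 744 406 * kv 0) * (eX * hor eX RR), .f true .xsl), ((lr 744 407 * kw 0 + lr 744 408 * kv 0) * (eX * hor eX RR), .xa)] | 8, 0 => [(lr 744 409 * kw 0 + lr 744 410 * kv 0, .f false .xhm), (lr 744 411 * kw 0 + lr 744 412 * kv 0, .f false .xqm), (lr 744 413 * kw 0 + lr 744 414 * kv 0, .f false .xsh), (lr 744 415 * kw 0 + lr 744 416 * kv 0, .f false .xsq), (lr 744 417 * kw 0 + lr 744 418 * kv 0, .f false .xsl), (lr 744 419 * kw 0 + lr 744 420 * kv 0, .f true .xhm), (lr 744 421 * kw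 0 + lr 744 422 * kv 0, .f true .xqm), (lr 744 423 * kw 0 + lr 744 424 * kv 0, .f true .xsh), (lr 744 425 * kw 0 + lr 744 426 * kv 0, .f true .xsq), (lr 744 427 * kw 0 + lr 744 428 * kv 0, .f true .xsl), (lr 744 429 * kw 0 + lr 744 430 * kv 0, .xa)] | 9, 0 => [(lr 744 431 * kw 0 + lr 744 432 * kv 0, .f false .xhm), (lr 744 433 * kw 0 + lr 744 434 * kv 0, .f false .xqm), (lr 744 435 * kw 0 + lr 744 436 * kv 0, .f false .xsh), (lr 744 437 * kw 0 + lr 744 438 * kv 0, .f false .xsq), (lr 744 439 * kw 0 + lr 744 440 * kv 0, .f false .xsl), (lr 744 441 * kw 0 + lr 744 442 * kv 0, .f true .xhm), (lr 744 443 * kw 0 + lr 744 444 * kv 0, .f true .xqm), (lr 744 445 * kw 0 + lr 744 446 * kv 0, .f true .xsh), (lr 744 447 * kw 0 + lr 744 448 * kv 0, .f true .xsq), (lr 744 449 * kw 0 + lr 744 450 * kv 0, .f true .xsl), (lr 744 451 * kw 0 + lr 744 452 * kv 0, .xa)] | 10, 0 => [(lr 744 453, .f false .xhm), (lr 744 454,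 .f false .xqm), (lr 744 455, .f false .xsh), (lr 744 456, .f false .xsq), (lr 744 457, .f false .xsl)] | 11, 0 => [(lr 744 458, .f false .xhm), (lr 744 459, .f false .xqm), (lr 744 460, .f false .xsh), (lr 744 461, .f false .xsq), (lr 744 462, .f false .xsl)] | 12, 0 => [(lr 744 463, .f false .xhm), (lr 744 464, .f false .xqm), (lr 744 465, .f false .xsh), (lr 744 466, .f false .xsq), (lr 744 467, .f false .xsl)] | 13, 0 => [(lr 744 468, .f false .xhm), (lr 744 469, .f false .xqm), (lr 744 470, .f false .xsh), (lr 744 471, .f false .xsq), (lr 744 472, .f false .xsl)] | 0, 1 => [((lr 744 473 * kw 0 + lr 744 474 * kv 0) * (eX * hor eX RR), .f false .xhm), ((lr 744 475 * kw 0 + lr 744 476 * kv 0) * (eX * hor eX RR), .f false .xqm), ((lr 744 477 * kw 0 + lr 744 478 * kv 0) * (eX * hor eX RR), .f false .xsh), ((lr 744 479 * kw 0 + lr 744 480 * kv 0) * (eX * hor eX RR), .f false .xsq), ((lr 744 481 * kw 0 +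 lr 744 482 * kv 0) * (eX * hor eX RR), .f false .xsl), ((lr 744 483 * kw 0 + lr 744 484 * kv 0) * (eX * hor eX RR), .f true .xhm), ((lr 744 485 * kw 0 + lr 744 486 * kv 0) * (eX * hor eX RR), .f true .xqm), ((lr 744 487 * kw 0 + lr 744 488 * kv 0) * (eX * hor eX RR), .f true .xsh), ((lr 744 489 * kw 0 + lr 744 490 * kv 0) * (eX * hor eX RR), .f true .xsq), ((lr 744 491 * kw 0 + lr 744 492 * kv 0) * (eX * hor eX RR), .f true .xsl), ((lr 744 493 * kw 0 + lr 744 494 * kv 0) * (eX * hor eX RR), .xa)] | 1, 1 => [((lr 744 495 * kw 0 + lr 744 496 * kv 0) * (eX * hor eX RR), .f false .xhm), ((lr 744 497 * kw 0 + lr 744 498 * kv 0) * (eX * hor eX RR), .f false .xqm), ((lr 744 499 * kw 0 + lr 744 500 * kv 0) * (eX * hor eX RR), .f false .xsh), ((lr 744 501 * kw 0 + lr 744 502 * kv 0) * (eX * hor eX RR), .f false .xsq), ((lr 744 503 * kw 0 + lr 744 504 * kv 0) * (eX * hor eX RR), .f false .xsl), ((lr 744 505 * kw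 0 + lr 744 506 * kv 0) * (eX * hor eX RR), .f true .xhm), ((lr 744 507 * kw 0 + lr 744 508 * kv 0) * (eX * hor eX RR), .f true .xqm), ((lr 744 509 * kw 0 + lr 744 510 * kv 0) * (eX * hor eX RR), .f true .xsh), ((lr 744 511 * kw 0 + lr 744 512 * kv 0) * (eX * hor eX RR), .f true .xsq), ((lr 744 513 * kw 0 + lr 744 514 * kv 0) * (eX * hor eX RR), .f true .xsl), ((lr 744 515 * kw 0 + lr 744 516 * kv 0) * (eX * hor eX RR), .xa)] | 2, 1 => [((lr 744 517 * kw 0 + lr 744 518 * kv 0) * (eX * hor eX RR), .f false .xhm), ((lr 744 519 * kw 0 + lr 744 520 * kv 0) * (eX * hor eX RR), .f false .xqm), ((lr 744 521 * kw 0 + lr 744 522 * kv 0) * (eX * hor eX RR), .f false .xsh), ((lr 744 523 * kw 0 + lr 744 524 * kv 0) * (eX * hor eX RR), .f false .xsq), ((lr 744 525 * kw 0 + lr 744 526 * kv 0) * (eX * hor eX RR), .f false .xsl), ((lr 744 527 * kw 0 + lr 744 528 * kv 0) * (eX * hor eX RR), .f true .xhm), ((lr 744 529 *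 kw 0 + lr 744 530 * kv 0) * (eX * hor eX RR), .f true .xqm), ((lr 744 531 * kw 0 + lr 744 532 * kv 0) * (eX * hor eX RR), .f true .xsh), ((lr 744 533 * kw 0 + lr 744 534 * kv 0) * (eX * hor eX RR), .f true .xsq), ((lr 744 535 * kw 0 + lr 744 536 * kv 0) * (eX * hor eX RR), .f true .xsl), ((lr 744 537 * kw 0 + lr 744 538 * kv 0) * (eX * hor eX RR), .xa)] | 4, 1 => [((lr 744 539 * kw 0 + lr 744 540 * kv 0) * (eX * hor eX RR), .f false .xhm), ((lr 744 541 * kw 0 + lr 744 542 * kv 0) * (eX * hor eX RR), .f false .xqm), ((lr 744 543 * kw 0 + lr 744 544 * kv 0) * (eX * hor eX RR), .f false .xsh), ((lr 744 545 * kw 0 + lr 744 546 * kv 0) * (eX * hor eX RR), .f false .xsq), ((lr 744 547 * kw 0 + lr 744 548 * kv 0) * (eX * hor eX RR), .f false .xsl), ((lr 744 549 * kw 0 + lr 744 550 * kv 0) * (eX * hor eX RR), .f true .xhm), ((lr 744 551 * kw 0 + lr 744 552 * kv 0) * (eX * hor eX RR), .f true .xqm), ((lr 744 553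 * kw 0 + lr 744 554 * kv 0) * (eX * hor eX RR), .f true .xsh), ((lr 744 555 * kw 0 + lr 744 556 * kv 0) * (eX * hor eX RR), .f true .xsq), ((lr 744 557 * kw 0 + lr 744 558 * kv 0) * (eX * hor eX RR), .f true .xsl), ((lr 744 559 * kw 0 + lr 744 560 * kv 0) * (eX * hor eX RR), .xa)] | 5, 1 => [((lr 744 561 * kw 0 + lr 744 562 * kv 0) * (eX * hor eX RR), .f false .xhm), ((lr 744 563 * kw 0 + lr 744 564 * kv 0) * (eX * hor eX RR), .f false .xqm), ((lr 744 565 * kw 0 + lr 744 566 * kv 0) * (eX * hor eX RR), .f false .xsh), ((lr 744 567 * kw 0 + lr 744 568 * kv 0) * (eX * hor eX RR), .f false .xsq), ((lr 744 569 * kw 0 + lr 744 570 * kv 0) * (eX * hor eX RR), .f false .xsl), ((lr 744 571 * kw 0 + lr 744 572 * kv 0) * (eX * hor eX RR), .f true .xhm), ((lr 744 573 * kw 0 + lr 744 574 * kv 0) * (eX * hor eX RR), .f true .xqm), ((lr 744 575 * kw 0 + lr 744 576 * kv 0) * (eX * hor eX RR), .f true .xsh), ((lr 744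 577 * kw 0 + lr 744 578 * kv 0) * (eX * hor eX RR), .f true .xsq), ((lr 744 579 * kw 0 + lr 744 580 * kv 0) * (eX * hor eX RR), .f true .xsl), ((lr 744 581 * kw 0 + lr 744 582 * kv 0) * (eX * hor eX RR), .xa)] | 6, 1 => [((lr 744 583 * kw 0 + lr 744 584 * kv 0) * (eX * hor eX RR), .f false .xhm), ((lr 744 585 * kw 0 + lr 744 586 * kv 0) * (eX * hor eX RR), .f false .xqm), ((lr 744 587 * kw 0 + lr 744 588 * kv 0) * (eX * hor eX RR), .f false .xsh), ((lr 744 589 * kw 0 + lr 744 590 * kv 0) * (eX * hor eX RR), .f false .xsq), ((lr 744 591 * kw 0 + lr 744 592 * kv 0) * (eX * hor eX RR), .f false .xsl), ((lr 744 593 * kw 0 + lr 744 594 * kv 0) * (eX * hor eX RR), .f true .xhm), ((lr 744 595 * kw 0 + lr 744 596 * kv 0) * (eX * hor eX RR), .f true .xqm), ((lr 744 597 * kw 0 + lr 744 598 * kv 0) * (eX * hor eX RR), .f true .xsh), ((lr 744 599 * kw 0 + lr 744 600 * kv 0) * (eX * hor eX RR), .f true .xsq), ((lr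 744 601 * kw 0 + lr 744 602 * kv 0) * (eX * hor eX RR), .f true .xsl), ((lr 744 603 * kw 0 + lr 744 604 * kv 0) * (eX * hor eX RR), .xa)] | 8, 1 => [(lr 744 605 * kw 0 + lr 744 606 * kv 0, .f false .xhm), (lr 744 607 * kw 0 + lr 744 608 * kv 0, .f false .xqm), (lr 744 609 * kw 0 + lr 744 610 * kv 0, .f false .xsh), (lr 744 611 * kw 0 + lr 744 612 * kv 0, .f false .xsq), (lr 744 613 * kw 0 + lr 744 614 * kv 0, .f false .xsl), (lr 744 615 * kw 0 + lr 744 616 * kv 0, .f true .xhm), (lr 744 617 * kw 0 + lr 744 618 * kv 0, .f true .xqm), (lr 744 619 * kw 0 + lr 744 620 * kv 0, .f true .xsh), (lr 744 621 * kw 0 + lr 744 622 * kv 0, .f true .xsq), (lr 744 623 * kw 0 + lr 744 624 * kv 0, .f true .xsl), (lr 744 625 * kw 0 + lr 744 626 * kv 0, .xa)] | 9, 1 => [(lr 744 627 * kw 0 + lr 744 628 * kv 0, .f false .xhm), (lr 744 629 * kw 0 + lr 744 630 * kv 0, .f false .xqm), (lr 744 631 * kw 0 + lr 744 632 * kv 0, .f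 false .xsh), (lr 744 633 * kw 0 + lr 744 634 * kv 0, .f false .xsq), (lr 744 635 * kw 0 + lr 744 636 * kv 0, .f false .xsl), (lr 744 637 * kw 0 + lr 744 638 * kv 0, .f true .xhm), (lr 744 639 * kw 0 + lr 744 640 * kv 0, .f true .xqm), (lr 744 641 * kw 0 + lr 744 642 * kv 0, .f true .xsh), (lr 744 643 * kw 0 + lr 744 644 * kv 0, .f true .xsq), (lr 744 645 * kw 0 + lr 744 646 * kv 0, .f true .xsl), (lr 744 647 * kw 0 + lr 744 648 * kv 0, .xa)] | 10, 1 => [(lr 744 649, .f false .xhm), (lr 744 650, .f false .xqm), (lr 744 651, .f false .xsh), (lr 744 652, .f false .xsq), (lr 744 653, .f false .xsl)] | 11, 1 => [(lr 744 654, .f false .xhm), (lr 744 655, .f false .xqm), (lr 744 656, .f false .xsh), (lr 744 657, .f false .xsq), (lr 744 658, .f false .xsl)] | 12, 1 => [(lr 744 659, .f false .xhm), (lr 744 660, .f false .xqm), (lr 744 661, .f false .xsh), (lr 744 662, .f false .xsq), (lr 744 663, .f false .xsl)]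 | 13, 1 => [(lr 744 664, .f false .xhm), (lr 744 665, .f false .xqm), (lr 744 666, .f false .xsh), (lr 744 667, .f false .xsq), (lr 744 668, .f false .xsl)] | _, _ => []
  fp := fun _ _ => []
  ff := fun k l => match k, l with | 0, 0 => [(lr 744 669 * kw 0 + lr 744 670 * kv 0, .xhm), (lr 744 671 * kw 0 + lr 744 672 * kv 0, .xqm), (lr 744 673 * kw 0 + lr 744 674 * kv 0, .xsh), (lr 744 675 * kw 0 + lr 744 676 * kv 0, .xsq), (lr 744 677 * kw 0 + lr 744 678 * kv 0, .xsl)] | 4, 0 => [(lr 744 679 * kw 0 + lr 744 680 * kv 0, .xhm), (lr 744 681 * kw 0 + lr 744 682 * kv 0, .xqm), (lr 744 683 * kw 0 + lr 744 684 * kv 0, .xsh), (lr 744 685 * kw 0 + lr 744 686 * kv 0, .xsq), (lr 744 687 * kw 0 + lr 744 688 * kv 0, .xsl)] | 1, 0 => [(lr 744 689 * kw 0 + lr 744 690 * kv 0, .xhm), (lr 744 691 * kw 0 + lr 744 692 * kv 0, .xqm), (lr 744 693 * kw 0 + lr 744 694 * kv 0, .xsh), (lr 744 695 * kw 0 + lr 744 696 * kv 0, .xsq),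 (lr 744 697 * kw 0 + lr 744 698 * kv 0, .xsl)] | 2, 0 => [(lr 744 699 * kw 0 + lr 744 700 * kv 0, .xhm), (lr 744 701 * kw 0 + lr 744 702 * kv 0, .xqm), (lr 744 703 * kw 0 + lr 744 704 * kv 0, .xsh), (lr 744 705 * kw 0 + lr 744 706 * kv 0, .xsq), (lr 744 707 * kw 0 + lr 744 708 * kv 0, .xsl)] | 3, 0 => [(lr 744 709 * kw 0 + lr 744 710 * kv 0, .xhm), (lr 744 711 * kw 0 + lr 744 712 * kv 0, .xqm), (lr 744 713 * kw 0 + lr 744 714 * kv 0, .xsh), (lr 744 715 * kw 0 + lr 744 716 * kv 0, .xsq), (lr 744 717 * kw 0 + lr 744 718 * kv 0, .xsl)] | 2, 1 => [(lr 744 719 * kw 0 + lr 744 720 * kv 0, .xhm), (lr 744 721 * kw 0 + lr 744 722 * kv 0, .xqm), (lr 744 723 * kw 0 + lr 744 724 * kv 0, .xsh), (lr 744 725 * kw 0 + lr 744 726 * kv 0, .xsq), (lr 744 727 * kw 0 + lr 744 728 * kv 0, .xsl)] | 3, 1 => [(lr 744 729 * kw 0 + lr 744 730 * kv 0, .xhm), (lr 744 731 * kw 0 + lr 744 732 * kv 0, .xqm), (lr 744 733 * kw 0 + lr 744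 734 * kv 0, .xsh), (lr 744 735 * kw 0 + lr 744 736 * kv 0, .xsq), (lr 744 737 * kw 0 + lr 744 738 * kv 0, .xsl)] | _, _ => []
  fo := fun _ _ => []

def x : Tp12 where
  b := b
  R := 744
  iH := 0
  a := ta
  cp := fun _ _ => none
  lam := fun _ l m => bif Nat.beq l m then kc 1 else kz

/-- the hazard line -/
def xh : Hz1 := ⟨744, 0, 1, 5462, 16, RR⟩

/-- all lines -/
def sheet : Sheet := x0.sheet.app (x.sheet.app xh.sheet)

theorem ok0 : x0.ok = true := by decide +kernel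
theorem okx : x.okT = true := by decide +kernel
theorem okh : xh.okT = true := by decide +kernel

theorem fit : Fit x0 x := ⟨rfl, rfl, rfl, rfl, rfl, rfl⟩
end Pool.Agent.RZ.RCO.SA
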