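import Pool.Agent.RZ.RCO.St7

/-! Route P: the star world from the arrays (MP_73ccd0_lc). -/

set_option autoImplicit false

namespace Pool.Agent.RZ.RCO

open Sg Set Sp12

/-! ### the losses of a row -/

/-- the conditions of a row -/
structure NOk (D R j : ℕ) (fn : ℕ → Option Cf) (a b : ℕ) : Prop where
  b0 : 2147483648 ≤ b
  ba : b ≤ a
  a1 : a ≤ 2164260864
  z12 : pPos D R j (fn 12) = 0
  z25 : pPos D R j (fn 25) = 0
  l : lOk (nA0 D R j fn) (nA1 D R j fn) a b = true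

theorem NOk.of {D R j : ℕ} {fn : ℕ → Option Cf} {a b : ℕ} (h : nOk D R j fn a b = true) :
    NOk D R j fn a b := by
  unfold nOk at h
  simp only [Bool.and_eq_true] at h
  obtain ⟨⟨⟨⟨⟨a1, a2⟩, a3⟩, a4⟩, a5⟩, a6⟩ := h
  exact ⟨Nat.le_of_ble_eq_true a1, Nat.le_of_ble_eq_true a2, Nat.le_of_ble_eq_true a3,
    Nat.eq_of_beq_eq_true a4, Nat.eq_of_beq_eq_true a5, a6⟩

theorem nA0_eq (D R j : ℕ) (fn : ℕ → Option Cf) :
    nA0 D R j fn = ∑ i ∈ Finset.range 12, wts i * pPos D R j (fn i) := rfl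

theorem nA1_eq (D R j : ℕ) (fn : ℕ → Option Cf) :
    nA1 D R j fn = ∑ i ∈ Finset.range 12, wts i * pPos D R j (fn (i + 13))
      + (RCG.xN ^ 2 * pPos D R j (fn 1) + 2 * RCG.xN * pPos D R j (fn 14)) := rfl

/-- a used value is at most its positive part -/
theorem oTq_pos (D R j : ℕ) (o : Option Cf) :
    (oTq D R o).u j ≤ (pPos D R j o : ℝ) / 2 ^ 24 := by
  cases o with
  | none =>
    show (0 : ℝ) ≤ ((0 : ℕ) : ℝ) / 2 ^ 24
    simp
  | some a =>
    show ((g D (R * j + a.u) : ℝ) - 2147483648) / 2 ^ 24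
      ≤ ((g D (R * j + a.u) - 2147483648 : ℕ) : ℝ) / 2 ^ 24
    refine div_le_div_of_nonneg_right ?_ (by positivity)
    have h : g D (R * j + a.u) ≤ (g D (R * j + a.u) - 2147483648) + 2147483648 := by omega
    have h2 := (Nat.cast_le (α := ℝ)).2 h
    push_cast at h2
    linarith

/-- **the losses of the pairs** are at most the mass times a linear function of the killed mass -/
theorem loss_le {D R j : ℕ} {fn : ℕ → Option Cf} (z12 : pPos D R j (fn 12) = 0)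
    (z25 : pPos D R j (fn 25) = 0) {p : Pt} (hp : p.Ful) :
    (RCG.xN : ℝ) ^ 2 * FF26 (fun i => (oTq D R (fn i)).u j) p
      ≤ ((nA0 D R j fn : ℝ) + (nA1 D R j fn : ℝ) * p.k) / 2 ^ 24 * p.m := by
  have N0 := RCG.xN_pos
  have N2 : (0 : ℝ) < (RCG.xN : ℝ) ^ 2 := by positivity
  have k0 := hp.1.k0
  have m0 := hp.1.f.m0
  have km0 : 0 ≤ p.k * p.m := mul_nonneg k0 m0
  have bk := bk_le hp
  have c : ∀ i, (oTq D R (fn i)).u j ≤ (pPos D R j (fn i) : ℝ) / 2 ^ 24 := fun i =>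
    oTq_pos D R j (fn i)
  rw [nA0_eq, nA1_eq]
  unfold FF26
  rw [lf_frm.eq]
  have t12 : (oTq D R (fn 12)).u j ≤ 0 := by
    have := c 12
    rw [z12] at this
    simpa using this
  have t25 : (oTq D R (fn 25)).u j ≤ 0 := by
    have := c 25
    rw [z25] at this
    simpa using this
  have t3 : p.k * (oTq D R (fn 25)).u j ≤ 0 := mul_nonpos_of_nonneg_of_nonpos k0 t25
  have t4 : (RCG.xN : ℝ) ^ 2 * ((oTq D R (fn 12)).u j + p.k * (oTq D R (fn 25)).u j) ≤ 0 :=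
    mul_nonpos_of_nonneg_of_nonpos N2.le (by linarith)
  -- one feature
  have one : ∀ i ∈ Finset.range 12,
      (RCG.xN : ℝ) ^ 2 * (((oTq D R (fn i)).u j + p.k * (oTq D R (fn (i + 13))).u j) * ft12 i p)
      ≤ ((wts i : ℝ) * pPos D R j (fn i)) / 2 ^ 24 * p.m
        + ((wts i : ℝ) * pPos D R j (fn (i + 13))) / 2 ^ 24 * (p.k * p.m)
        + if i = 1 then ((RCG.xN : ℝ) ^ 2 * pPos D R j (fn 1)
          + 2 * RCG.xN * pPos D R j (fn 14)) / 2 ^ 24 * (p.k * p.m) else 0 := fun i hi => by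
    have hi' := Finset.mem_range.1 hi
    have f0 : 0 ≤ ft12 i p := lf_frm.nn p hp.1.toOk i hi'
    have p1 : (0 : ℝ) ≤ (pPos D R j (fn i) : ℝ) / 2 ^ 24 := by positivity
    have p2 : (0 : ℝ) ≤ (pPos D R j (fn (i + 13)) : ℝ) / 2 ^ 24 := by positivity
    have c1 : (oTq D R (fn i)).u j * ft12 i p
        ≤ (pPos D R j (fn i) : ℝ) / 2 ^ 24 * ft12 i p := mul_le_mul_of_nonneg_right (c i) f0
    have c2 : (oTq D R (fn (i + 13))).u j * (p.k * ft12 i p)
        ≤ (pPos D R j (fn (i + 13)) : ℝ) / 2 ^ 24 * (p.k * ft12 i p) :=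
      mul_le_mul_of_nonneg_right (c _) (mul_nonneg k0 f0)
    have key : (RCG.xN : ℝ) ^ 2
          * (((oTq D R (fn i)).u j + p.k * (oTq D R (fn (i + 13))).u j) * ft12 i p)
        ≤ (pPos D R j (fn i) : ℝ) / 2 ^ 24 * ((RCG.xN : ℝ) ^ 2 * ft12 i p)
          + (pPos D R j (fn (i + 13)) : ℝ) / 2 ^ 24 * (p.k * ((RCG.xN : ℝ) ^ 2 * ft12 i p)) :=
      calc _ = (RCG.xN : ℝ) ^ 2 * ((oTq D R (fn i)).u j * ft12 i p)
            + (RCG.xN : ℝ) ^ 2 * ((oTq D R (fn (i + 13))).u j * (p.k * ft12 i p)) := by ring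
        _ ≤ (RCG.xN : ℝ) ^ 2 * ((pPos D R j (fn i) : ℝ) / 2 ^ 24 * ft12 i p)
            + (RCG.xN : ℝ) ^ 2 * ((pPos D R j (fn (i + 13)) : ℝ) / 2 ^ 24 * (p.k * ft12 i p)) :=
          add_le_add (mul_le_mul_of_nonneg_left c1 N2.le) (mul_le_mul_of_nonneg_left c2 N2.le)
        _ = _ := by ring
    by_cases h1 : i = 1
    · subst h1
      rw [if_pos rfl]
      have e1 : ft12 1 p = p.k * p.m := rfl
      rw [e1] at key ⊢
      refine key.trans ?_
      have a1 : (RCG.xN : ℝ) * p.k * (RCG.xN * (p.k * p.m)) ≤ 2 * (RCG.xN * (p.k * p.m)) :=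
        mul_le_mul_of_nonneg_right bk (mul_nonneg N0.le km0)
      have a2 : (pPos D R j (fn (1 + 13)) : ℝ) / 2 ^ 24
            * (p.k * ((RCG.xN : ℝ) ^ 2 * (p.k * p.m)))
          ≤ (pPos D R j (fn 14) : ℝ) / 2 ^ 24 * (2 * (RCG.xN * (p.k * p.m))) :=
        mul_le_mul_of_nonneg_left (le_trans (le_of_eq (by ring)) a1) p2
      have a3 : (0 : ℝ) ≤ ((wts 1 : ℝ) * pPos D R j (fn 1)) / 2 ^ 24 * p.m := by positivity
      have a4 : (0 : ℝ) ≤ ((wts 1 : ℝ) * pPos D R j (fn (1 + 13))) / 2 ^ 24 * (p.k * p.m) := by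
        positivity
      calc _ ≤ (pPos D R j (fn 1) : ℝ) / 2 ^ 24 * ((RCG.xN : ℝ) ^ 2 * (p.k * p.m))
            + (pPos D R j (fn 14) : ℝ) / 2 ^ 24 * (2 * (RCG.xN * (p.k * p.m))) :=
          add_le_add le_rfl a2
        _ = ((RCG.xN : ℝ) ^ 2 * pPos D R j (fn 1)
          + 2 * RCG.xN * pPos D R j (fn 14)) / 2 ^ 24 * (p.k * p.m) := by ring
        _ ≤ _ := by linarith
    · rw [if_neg h1, add_zero]
      have b1 := ft12_le hp hi' h1
      refine key.trans ?_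
      calc _ ≤ (pPos D R j (fn i) : ℝ) / 2 ^ 24 * ((wts i : ℝ) * p.m)
            + (pPos D R j (fn (i + 13)) : ℝ) / 2 ^ 24 * (p.k * ((wts i : ℝ) * p.m)) :=
          add_le_add (mul_le_mul_of_nonneg_left b1 p1)
            (mul_le_mul_of_nonneg_left (mul_le_mul_of_nonneg_left b1 k0) p2)
        _ = _ := by ring
  have sum := Finset.sum_le_sum one
  rw [← Finset.mul_sum, Finset.sum_add_distrib, Finset.sum_add_distrib, ← Finset.sum_mul,
    ← Finset.sum_mul, ← Finset.sum_div, ← Finset.sum_div,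
    Finset.sum_ite_eq' (Finset.range 12) 1, if_pos (Finset.mem_range.2 (by norm_num))] at sum
  rw [mul_add]
  refine (add_le_add sum t4).trans (le_of_eq ?_)
  push_cast
  ring

/-- **the losses of the pairs are below those of the star** -/
theorem NOk.le {D R j : ℕ} {fn : ℕ → Option Cf} {a b : ℕ} (h : NOk D R j fn a b) {p q : Pt}
    (hp : p.Ful) (hq : q.Ful) (hX : q.k ≤ RCG.XM) (h1 : q.k ≤ p.k) (h2 : p.k ≤ q.k + RCG.XM) :
    FF26 (fun i => (oTq D R (fn i)).u j) p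
      ≤ (((a : ℝ) - 2147483648) / 2 ^ 24 + ((b : ℝ) - 2147483648) / 2 ^ 24 * q.k) * q.m := by
  have N0 := RCG.xN_pos
  have N2 : (0 : ℝ) < (RCG.xN : ℝ) ^ 2 := by positivity
  have hl := loss_le (D := D) (R := R) (j := j) h.z12 h.z25 hp
  obtain ⟨A0, hA0⟩ : ∃ A0, A0 = nA0 D R j fn := ⟨_, rfl⟩
  obtain ⟨A1, hA1⟩ : ∃ A1, A1 = nA1 D R j fn := ⟨_, rfl⟩
  have hL := h.l
  rw [← hA0, ← hA1] at hL hl
  have pm : p.m = 1 - p.k := by linarith [hp.1.mx]
  have qm : q.m = 1 - q.k := by linarith [hq.1.mx]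
  have p0 := hp.1.k0
  have q0 := hq.1.k0
  have pm0 := hp.1.f.m0
  have qm0 := hq.1.f.m0
  have mm : p.m ≤ q.m := by linarith
  have A0' : (0 : ℝ) ≤ A0 := Nat.cast_nonneg _
  have A1' : (0 : ℝ) ≤ A1 := Nat.cast_nonneg _
  have qX : (RCG.xN : ℝ) * q.k ≤ 1 := by
    have := mul_le_mul_of_nonneg_left hX N0.le
    rwa [RCG.xN_mul] at this
  -- it suffices to compare with the linear function
  have suf : (RCG.xN : ℝ) ^ 2 * FF26 (fun i => (oTq D R (fn i)).u j) p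
      ≤ (RCG.xN : ℝ) ^ 2 * ((((a : ℝ) - 2147483648) / 2 ^ 24
        + ((b : ℝ) - 2147483648) / 2 ^ 24 * q.k) * q.m) := by
    refine hl.trans ?_
    have key : ((A0 : ℝ) + A1 * p.k) * p.m
        ≤ (RCG.xN : ℝ) ^ 2 * (((a : ℝ) - 2147483648) + ((b : ℝ) - 2147483648) * q.k) * q.m := by
      unfold lOk at hL
      simp only [Bool.or_eq_true, Bool.and_eq_true] at hL
      rcases hL with ⟨⟨c1, c2⟩, c3⟩ | ⟨c2, c3⟩
      · have d1 := (Nat.cast_le (α := ℝ)).2 (Nat.le_of_ble_eq_true c1)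
        have d2 := (Nat.cast_le (α := ℝ)).2 (Nat.le_of_ble_eq_true c2)
        have d3 := (Nat.cast_le (α := ℝ)).2 (Nat.le_of_ble_eq_true c3)
        push_cast at d2 d3
        -- the loss decreases in the killed mass
        have e1 : ((A0 : ℝ) + A1 * p.k) * p.m ≤ ((A0 : ℝ) + A1 * q.k) * q.m := by
          rw [pm, qm]
          have : 0 ≤ (p.k - q.k) * ((A0 - A1) + A1 * (p.k + q.k)) :=
            mul_nonneg (by linarith) (add_nonneg (by linarith) (mul_nonneg A1' (by linarith)))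
          linarith
        refine e1.trans (mul_le_mul_of_nonneg_right ?_ qm0)
        -- linear in the killed mass
        have e2 : 0 ≤ (1 - (RCG.xN : ℝ) * q.k)
            * ((RCG.xN : ℝ) ^ 2 * a - A0 - (RCG.xN : ℝ) ^ 2 * 2147483648) :=
          mul_nonneg (by linarith) (by linarith)
        have e3 : 0 ≤ q.k * ((RCG.xN : ℝ) ^ 2 * (RCG.xN * a + b)
            - (RCG.xN * A0 + A1 + (RCG.xN : ℝ) ^ 2 * (RCG.xN + 1) * 2147483648)) :=
          mul_nonneg q0 (by linarith)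
        linarith
      · have d2 := (Nat.cast_le (α := ℝ)).2 (Nat.le_of_ble_eq_true c2)
        have d3 := (Nat.cast_le (α := ℝ)).2 (Nat.le_of_ble_eq_true c3)
        push_cast at d2 d3
        have e1 : ((A0 : ℝ) + A1 * p.k) * p.m ≤ ((A0 : ℝ) + A1 * (q.k + RCG.XM)) * q.m :=
          mul_le_mul (by nlinarith) mm pm0
            (add_nonneg A0' (mul_nonneg A1' (add_nonneg q0 RCG.XM_pos.le)))
        refine e1.trans (mul_le_mul_of_nonneg_right ?_ qm0)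
        have e2 : 0 ≤ (1 - (RCG.xN : ℝ) * q.k)
            * ((RCG.xN : ℝ) ^ 3 * a - (RCG.xN * A0 + A1 + (RCG.xN : ℝ) ^ 3 * 2147483648)) :=
          mul_nonneg (by linarith) (by linarith)
        have e3 : 0 ≤ (RCG.xN : ℝ) * q.k * ((RCG.xN : ℝ) ^ 2 * (RCG.xN * a + b)
            - (RCG.xN * A0 + 2 * A1 + (RCG.xN : ℝ) ^ 2 * (RCG.xN + 1) * 2147483648)) :=
          mul_nonneg (mul_nonneg N0.le q0) (by linarith)
        have e4 : (RCG.xN : ℝ) * ((A0 : ℝ) + A1 * (q.k + RCG.XM))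
            ≤ (RCG.xN : ℝ) * ((RCG.xN : ℝ) ^ 2
              * (((a : ℝ) - 2147483648) + ((b : ℝ) - 2147483648) * q.k)) := by
          have e5 : (RCG.xN : ℝ) * ((A0 : ℝ) + A1 * (q.k + RCG.XM))
              = RCG.xN * A0 + A1 * (RCG.xN * q.k + RCG.xN * RCG.XM) := by ring
          rw [e5, RCG.xN_mul]
          linarith
        exact le_of_mul_le_mul_left e4 N0
    calc ((A0 : ℝ) + A1 * p.k) / 2 ^ 24 * p.m = ((A0 : ℝ) + A1 * p.k) * p.m / 2 ^ 24 := by ring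
      _ ≤ ((RCG.xN : ℝ) ^ 2 * (((a : ℝ) - 2147483648) + ((b : ℝ) - 2147483648) * q.k) * q.m)
          / 2 ^ 24 := div_le_div_of_nonneg_right key (by positivity)
      _ = _ := by ring
  exact le_of_mul_le_mul_left suf N2

/-! ### the check -/

/-- the conditions of the check -/
structure SOk (x : Tp0) (D : ℕ) (s : Ts0) (D' n : ℕ) : Prop where
  nW : x.nW = 3
  sW : s.nW = 2 ∨ s.nW = 3
  m : ∀ j < n, g D (x.R * j + x.iH) = g D' (s.R * j + s.iH)
  w : ∀ j ≤ n, WOk (g D (x.R * j + x.W.u)) (g D (x.R * j + (x.W.u + 1)))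
    (g D (x.R * j + (x.W.u + 2))) (g D' (s.R * j + s.iW))
    (w3b s.nW (g D' (s.R * j + s.iW)) (g D' (s.R * j + (s.iW + 1))))
    (w3c s.nW (g D' (s.R * j + (s.iW + 1))) (g D' (s.R * j + (s.iW + 2))))
  l : ∀ j ≤ n, NOk D x.R j x.fn (g D' (s.R * j + s.ia)) (g D' (s.R * j + s.ib))

theorem SOk.of {x : Tp0} {D : ℕ} {s : Ts0} {D' n : ℕ} (h : sOk x D s D' n = true) :
    SOk x D s D' n := by
  unfold sOk at h
  simp only [Bool.and_eq_true, Bool.or_eq_true] at h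
  obtain ⟨⟨⟨a1, b1⟩, a2⟩, a3⟩ := h
  have a4 : ∀ j ≤ n, _ := fun j (hj : j ≤ n) =>
    allL_of a3 j (List.mem_range.2 (Nat.lt_succ_of_le hj))
  simp only [Bool.and_eq_true] at a4
  exact ⟨Nat.eq_of_beq_eq_true a1, b1.imp Nat.eq_of_beq_eq_true Nat.eq_of_beq_eq_true,
    fun j hj => Nat.eq_of_beq_eq_true (allL_of a2 j (List.mem_range.2 hj)),
    fun j hj => WOk.of (a4 j hj).1, fun j hj => NOk.of (a4 j hj).2⟩

namespace Ts0

variable {x : Tp0} {D n : ℕ} {s : Ts0} {D' : ℕ}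

/-- the loss of the star -/
theorem loss (s : Ts0) (D' j : ℕ) (p : Pt) : FF26 (fun i => (s.t0s D').fn i j) p
    = (((g D' (s.R * j + s.ia) : ℝ) - 2147483648) / 2 ^ 24
      + ((g D' (s.R * j + s.ib) : ℝ) - 2147483648) / 2 ^ 24 * p.k) * p.m := by
  rw [lf_26.eq, Finset.sum_range_succ' _ 25, Finset.sum_range_succ' _ 24,
    Finset.sum_eq_zero (fun i _ => ?_), zero_add]
  · show ((g D' (s.R * j + s.ib) : ℝ) - 2147483648) / 2 ^ 24 * (p.k * p.m)
      + ((g D' (s.R * j + s.ia) : ℝ) - 2147483648) / 2 ^ 24 * p.m = _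
    ring
  · show (0 : ℝ) * _ = 0
    rw [zero_mul]

/-- the boosts of the star at the nodes -/
theorem wv (hW : s.nW = 2 ∨ s.nW = 3) (D' j : ℕ) (k : ℝ) :
    kp (bφ s.nW) s.nW (fun i => un D' s.R (s.iW + i) j) k
      = b3 (g D' (s.R * j + s.iW) : ℝ)
          (w3b s.nW (g D' (s.R * j + s.iW)) (g D' (s.R * j + (s.iW + 1))) : ℕ)
          (w3c s.nW (g D' (s.R * j + (s.iW + 1))) (g D' (s.R * j + (s.iW + 2))) : ℕ) (k / kS)
        / 2 ^ 24 := by
  rw [← b3_div]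
  rcases hW with h | h
  · rw [h, kp2]
    show b3 ((g D' (s.R * j + s.iW) : ℝ) / 2 ^ 24)
        ((g D' (s.R * j + s.iW) : ℝ) / 2 ^ 24 + (g D' (s.R * j + (s.iW + 1)) : ℝ) / 2 ^ 24)
        ((g D' (s.R * j + (s.iW + 1)) : ℝ) / 2 ^ 24) (k / kS)
      = b3 _ (((g D' (s.R * j + s.iW) + g D' (s.R * j + (s.iW + 1)) : ℕ) : ℝ) / 2 ^ 24)
        (((g D' (s.R * j + (s.iW + 1)) : ℕ) : ℝ) / 2 ^ 24) (k / kS)
    push_cast
    rw [add_div]
  · rw [h, kp3]
    rfl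

/-- **the conditions at the nodes** -/
theorem nd (h : SOk x D s D' n) : (s.t0s D').Nd FF26 n (x.t0 D n) where
  w := fun j hj k hk k' hk' => by
    have hw := (h.w j hj).le hk hk'
    show kp (bφ x.nW) x.nW (fun i => un D x.R (x.W.u + i) j) k'
      ≤ kp (bφ s.nW) s.nW (fun i => un D' s.R (s.iW + i) j) k
    rw [h.nW, kp3, wv h.sW]
    show b3 ((g D (x.R * j + x.W.u) : ℝ) / 2 ^ 24) ((g D (x.R * j + (x.W.u + 1)) : ℝ) / 2 ^ 24)
        ((g D (x.R * j + (x.W.u + 2)) : ℝ) / 2 ^ 24) (k' / kS) ≤ _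
    rw [b3_div]
    exact div_le_div_of_nonneg_right hw (by positivity)
  nl := fun j hj p q hp hq hX hk hk2 => by
    rw [loss]
    exact (h.l j hj).le hp hq hX hk hk2
  w1 := fun j hj k hk => by
    have hw := (h.w j hj).one (kS_mem hk).1 (kS_mem hk).2
    show 1 ≤ kp (bφ s.nW) s.nW (fun i => un D' s.R (s.iW + i) j) k
    rw [wv h.sW, le_div_iff₀ (by positivity)]
    linarith
  n1 := fun j hj p hp => by
    rw [loss]
    have hl := h.l j hj
    have b0 : (2147483648 : ℝ) ≤ (g D' (s.R * j + s.ib) : ℝ) := by exact_mod_cast hl.b0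
    have ba : (g D' (s.R * j + s.ib) : ℝ) ≤ (g D' (s.R * j + s.ia) : ℝ) := by
      exact_mod_cast hl.ba
    have a1 : (g D' (s.R * j + s.ia) : ℝ) ≤ 2164260864 := by exact_mod_cast hl.a1
    have m1 : p.m = 1 - p.k := by linarith [hp.1.mx]
    have k0 := hp.1.k0
    have m0 := hp.1.f.m0
    obtain ⟨A, hA⟩ : ∃ A, A = ((g D' (s.R * j + s.ia) : ℝ) - 2147483648) / 2 ^ 24 := ⟨_, rfl⟩
    obtain ⟨B, hB⟩ : ∃ B, B = ((g D' (s.R * j + s.ib) : ℝ) - 2147483648) / 2 ^ 24 := ⟨_, rfl⟩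
    have A1 : A ≤ 1 := by
      rw [hA, div_le_one (by positivity)]
      linarith
    have BA : B ≤ A := by
      rw [hA, hB]
      exact div_le_div_of_nonneg_right (by linarith) (by positivity)
    have B0 : 0 ≤ B := by
      rw [hB]
      exact div_nonneg (by linarith) (by positivity)
    rw [← hA, ← hB]
    have e1 : (A + B * p.k) * p.m ≤ (A + A * p.k) * p.m :=
      mul_le_mul_of_nonneg_right (by nlinarith) m0
    have e2 : (A + A * p.k) * p.m = A * (1 - p.k ^ 2) := by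
      rw [m1]
      ring
    nlinarith [sq_nonneg p.k]

end Ts0

/-- the conditions on another mesh with the same nodes -/
theorem T0S.Ok.congr {FF : (ℕ → ℝ) → Pt → ℝ} {t t1 : ℕ → ℝ} {n : ℕ} {t' t1' : ℕ → ℝ} {n' : ℕ}
    {d : T0Z} {s : T0S} (h : s.Ok FF t n t' n' d) (e : ∀ j ≤ n, t j = t1 j)
    (e' : ∀ j ≤ n', t' j = t1' j) : s.Ok FF t1 n t1' n' d where
  w1 := h.w1
  n1 := h.n1
  C := fun ρ hρ => by
    rw [← e 0 (Nat.zero_le _), ← e n le_rfl] at hρ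
    have k := h.C ρ hρ
    unfold T0S.W T0S.N T0Z.wu at k ⊢
    unfold Tq.up at k ⊢
    simp only [pl_congr e, pl_congr e'] at k
    exact k

end Pool.Agent.RZ.RCO
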