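import Pool.Agent.RZ.RCO.Gz9
import Pool.Agent.RZ.RCO.St8

/-! Route P: the star world from the layouts, the sheets and the check (MP_73ccd0_lc). -/

set_option autoImplicit false

namespace Pool.Agent.RZ.RCO

open Sg Set Sp12

namespace Ts0

/-- the bound of the loss -/
noncomputable def Nr (s : Ts0) (D' n : ℕ) (ρ : ℝ) : Pt → ℝ :=
  (s.t0s D').N FF26 (tmD D' s.R s.iH) n ρ

/-- **the layout of level 1/2 of the star uses the rates of the star** -/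
structure Fit (s : Ts0) (x : Tp12) : Prop where
  R : x.R = s.R
  iH : x.iH = s.iH
  W : x.b.W = s.W
  Wp : x.b.Wp = [Sg.kc 1]
  nf : x.b.nf = s.nf

theorem Nr_cf {s : Ts0} {D' n : ℕ} {ρ : ℝ}
    (h : Stp (tmD D' s.R s.iH) n (ixD (tmD D' s.R s.iH) n ρ) ρ) (p : Pt) :
    s.Nr D' n ρ p = cf s.nf (cD (tmD D' s.R s.iH) n ρ) (eD D' s.R (tmD D' s.R s.iH) n ρ) p :=
  (cf_up h s.fn p).symm

/-- **the tables of a star from the sheets and the check**; `x0`, `D` the level 0 of the pairs -/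
theorem ws12_of {x0 : Tp0} {D n : ℕ} {s : Ts0} {x : Tp12} {D' : ℕ} (hO0 : x0.ok = true)
    (hE0 : x0.okE D n = true) (hS0 : ∀ j < n, x0.sheet.At D x0.R j)
    (hs : sOk x0 D s D' n = true) (hf : Fit s x) (hO : x.okT = true) (hE : x.okE D' n = true)
    (hn : 0 < n) (hS : ∀ j < n, x.sheet.At D' x.R j) (l1 : Fin x.b.N)
    (h1 : Tp12.weq (x.b.wv l1) w1F = true) :
    WS12 FF26 26 ft26 (tmD D' s.R s.iH) n (tmD D x0.R x0.iH) n (x0.t0 D n) (s.t0s D')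
      (x.t12 D' n (s.Nr D' n) fun _ _ => 0) l1 := by
  have hk := SOk.of hs
  have hz := Tp0.t0_ok hO0 hE0 hn hS0
  have hm0 := Tp0.msh hS0
  have et : ∀ j ≤ n, tmD D x0.R x0.iH j = tmD D' s.R s.iH j := tmD_congr hk.m
  have hm : Msh (tmD D' s.R s.iH) n := by
    have h := Tp12.msh hS
    rwa [hf.R, hf.iH] at h
  have z0 : tmD D' s.R s.iH 0 = 0 := tmD_zero _ _ _
  have st : ∀ ρ ∈ Icc (tmD D' s.R s.iH 0) (tmD D' s.R s.iH n),
      Stp (tmD D' s.R s.iH) n (ixD (tmD D' s.R s.iH) n ρ) ρ := fun ρ hρ => ixD_spec hm hn hρ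
  have ho := Tp12.okT_of hO
  have hst : (s.t0s D').Ok FF26 (tmD D' s.R s.iH) n (tmD D x0.R x0.iH) n (x0.t0 D n) :=
    (T0S.Nd.ok lf_26 (nd hk) hm0 hn).congr et fun j _ => rfl
  have N1 : ∀ ρ ∈ Icc (tmD D' s.R s.iH 0) (tmD D' s.R s.iH n), ∀ p : Pt, p.Ful →
      s.Nr D' n ρ p ≤ 1 := fun ρ hρ p hp => by
    obtain ⟨j, hj, hj2⟩ := hm.stepc hn hρ
    show FF26 (fun i => pl (tmD D' s.R s.iH) ((s.t0s D').fn i) n ρ) p ≤ 1
    rw [ff_pl lf_26 hm hj hj2]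
    have := mix_le (stc_nonneg hm hj hj2) (stc_le_one hm hj hj2)
      ((nd hk).n1 j hj.le p hp) ((nd hk).n1 (j + 1) hj p hp)
    linarith
  have hr : (x.t12 D' n (s.Nr D' n) fun _ _ => 0).Ok FF26 26 (tmD D' x.R x.iH) n := by
    refine Tp12.t12_ok hO hE hn hS (fun ρ hρ p y a b hp => ?_) (fun ρ hρ p y a b hp => ?_)
      (fun ρ hρ y y0 y1 => ?_) fun ρ hρ y y0 y1 => zero_le_one
    · rw [hf.R, hf.iH] at hρ ⊢
      rw [hf.nf, Nr_cf (st ρ (by rwa [z0]))]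
    · rw [hf.R, hf.iH] at hρ
      exact N1 ρ (by rwa [z0]) _ hp.ful
    · rw [hf.R, hf.iH] at hρ ⊢
      have k := st ρ (by rwa [z0])
      exact hT_nonneg ho.sp.npp k.c0 k.c1 y0 _
  rw [hf.R, hf.iH] at hr
  exact {
    hF := lf_26
    hm := hm
    hn := hn
    hm' := hm0
    hn' := hn
    z := hz
    st := hst
    r := hr
    W := fun ρ hρ p hp => by
      show (s.t0s D').W (tmD D' s.R s.iH) n ρ p.k
        ≤ x.b.W.kv (cD (tmD D' x.R x.iH) n ρ) (eD D' x.R (tmD D' x.R x.iH) n ρ) p.k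
      rw [hf.R, hf.iH, hf.W]
      exact (plr_kp (ρ := rho3 p.k 0 (cD (tmD D' s.R s.iH) n ρ)) (st ρ hρ) rfl rfl s.iW s.nW).ge
    Nr := fun ρ hρ p hp => ⟨le_rfl, N1 ρ hρ p hp⟩
    Wp := fun ρ hρ y hy => by
      show 1 ≤ hT x.b.Wp (cD (tmD D' x.R x.iH) n ρ) (eD D' x.R (tmD D' x.R x.iH) n ρ) y
      rw [hf.Wp]
      show 1 ≤ (Sg.kc 1).val _ _ + y * 0
      rw [kc_val]
      simp
    Np := fun ρ hρ y hy => ⟨le_rfl, zero_le_one⟩
    w1 := fun p => (weq_fn h1 p).trans (w1F_fn p) }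

end Ts0

end Pool.Agent.RZ.RCO
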