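import Pool.Agent.RZ.RCO.Hz1
import Pool.Agent.RZ.RCO.St9

/-! Generated: the layout of the tables of level 0 and 1/2 of the stars (MP_73ccd0_lc). -/

set_option autoImplicit false
set_option maxRecDepth 100000

namespace Pool.Agent.RZ.RCO.SAs

open Sg

def RR : List Re := [lr 624 2, lr 624 3, lr 624 4]

/-- level 0 of the stars -/
def s0 : Ts0 := ⟨624, 0, 5, 3, 8, 9⟩

/-- the coefficients of the forms -/
def ta : Bool → ℕ → ℕ → Option Cf := fun s l => match s with | true => (match l with | 0 => (fun i => match i with | 0 => some ⟨36, 30, 24⟩ | 1 => some ⟨37, 31, 25⟩ | 2 => some ⟨38, 32, 26⟩ | 4 => some ⟨39, 33, 27⟩ | 9 => some ⟨40, 34, 28⟩ | 15 => some ⟨41, 35, 29⟩ | _ => none) | 1 => (fun i => match i with | 0 => some ⟨54, 48, 42⟩ | 1 => some ⟨55, 49, 43⟩ | 2 => some ⟨56, 50, 44⟩ | 4 => some ⟨57, 51, 45⟩ | 9 => some ⟨58, 52, 46⟩ | 15 => some ⟨59, 53, 47⟩ | _ => none) | _ => fun _ => none) | false => (match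 l with | 0 => (fun i => match i with | 0 => some ⟨72, 66, 60⟩ | 1 => some ⟨73, 67, 61⟩ | 2 => some ⟨74, 68, 62⟩ | 4 => some ⟨75, 69, 63⟩ | 9 => some ⟨76, 70, 64⟩ | 15 => some ⟨77, 71, 65⟩ | _ => none) | 1 => (fun i => match i with | 0 => some ⟨90, 84, 78⟩ | 1 => some ⟨91, 85, 79⟩ | 2 => some ⟨92, 86, 80⟩ | 4 => some ⟨93, 87, 81⟩ | 9 => some ⟨94, 88, 82⟩ | 15 => some ⟨95, 89, 83⟩ | _ => none) | _ => fun _ => none)

/-- level 1/2 -/
def b : Sp12 where
  N := 2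
  RR := RR
  Rp := kz
  W := s0.W
  Wp := [kc 1]
  nf := s0.nf
  ni := plr 624 0 10 3
  np := [kc 1]
  Dk := plr 624 0 13 3
  wv := fun l => match l with | 0 => ⟨fun i => if i = 0 then 1 else 0, [], 0⟩ | _ => ⟨fun _ => 0, [1], 0⟩
  md := fun _ => true
  sl := fun _ _ _ => kz
  us := fun _ _ _ => kz
  ps := fun s l => cre2 Cf.u 624 (ta s l)
  slp := fun _ _ => kz
  usp := fun _ _ => kz
  psp := fun _ _ => kz
  Gp := fun l m => lr 624 (16 + 2 * l + m)
  Gm := fun l m => lr 624 (20 + 2 * l + m)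
  cA := fun l => match l with | 0 => ⟨ls' 624 100, ls' 624 101, kz, ls' 624 102, ls' 624 103, kz, kz, kz⟩ | 1 => ⟨ls' 624 128, ls' 624 129, kz, ls' 624 130, ls' 624 131, kz, kz, kz⟩ | _ => ⟨kz, kz, kz, kz, kz, kz, kz, kz⟩
  cB := fun l => match l with | 0 => ⟨ls' 624 104, ls' 624 105, kz, ls' 624 106, ls' 624 107, kz, kz, kz⟩ | 1 => ⟨ls' 624 132, ls' 624 133, kz, ls' 624 134, ls' 624 135, kz, kz, kz⟩ | _ => ⟨kz, kz, kz, kz, kz, kz, kz, kz⟩
  cM := fun l => match l with | 0 => ⟨ls' 624 108, ls' 624 109, kz, ls' 624 110, ls' 624 111, kz, kz, kz⟩ | 1 => ⟨ls' 624 136, ls' 624 137, kz, ls' 624 138, ls' 624 139, kz, kz, kz⟩ | _ => ⟨kz, kz, kz, kz, kz, kz, kz, kz⟩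
  c1 := fun l => match l with | 0 => ⟨ls' 624 112, ls' 624 113, kz, ls' 624 114, ls' 624 115, kz, kz, kz⟩ | 1 => ⟨ls' 624 140, ls' 624 141, kz, ls' 624 142, ls' 624 143, kz, kz, kz⟩ | _ => ⟨kz, kz, kz, kz, kz, kz, kz, kz⟩
  cT := fun l => match l with | 0 => ⟨ls' 624 116, ls' 624 117, kz, ls' 624 118, ls' 624 119, kz, kz, kz⟩ | 1 => ⟨ls' 624 144, ls' 624 145, kz, ls' 624 146, ls' 624 147, kz, kz, kz⟩ | _ => ⟨kz, kz, kz, kz, kz, kz, kz, kz⟩
  cP := fun l => match l with | 0 => ⟨ls' 624 120, ls' 624 121, kz, ls' 624 122, ls' 624 123, kz, kz, kz⟩ | 1 => ⟨ls' 624 148, ls' 624 149, kz, ls' 624 150, ls' 624 151, kz, kz, kz⟩ | _ => ⟨kz, kz, kz, kz, kz, kz, kz, kz⟩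
  cN := fun l => match l with | 0 => ⟨ls' 624 124, ls' 624 125, kz, ls' 624 126, ls' 624 127, kz, kz, kz⟩ | 1 => ⟨ls' 624 152, ls' 624 153, kz, ls' 624 154, ls' 624 155, kz, kz, kz⟩ | _ => ⟨kz, kz, kz, kz, kz, kz, kz, kz⟩
  cD := ⟨ls' 624 96, ls' 624 97, kz, ls' 624 98, ls' 624 99, kz, kz, kz⟩
  dp := fun _ => kz
  dm := fun _ => kz
  fe := fun k l => match k, l with | 0, 0 => [((lr 624 156 * kw 0 + lr 624 157 * kv 0) * (eX * hor eX RR), .f false .xhm), ((lr 624 158 * kw 0 + lr 624 159 * kv 0) * (eX * hor eX RR), .f false .xqm), ((lr 624 160 * kw 0 + lr 624 161 * kv 0) * (eX * hor eX RR), .f false .xsh), ((lr 624 162 * kw 0 + lr 624 163 * kv 0) * (eX * hor eX RR), .f false .xsq), ((lr 624 164 * kw 0 + lr 624 165 * kv 0) * (eX * hor eX RR), .f false .xsl), ((lr 624 166 * kw 0 + lr 624 167 * kv 0) * (eX * hor eX RR), .f true .xhm), ((lr 624 168 * kw 0 + lr 624 169 * kv 0) * (eX * hor eX RR), .f true .xqm), ((lr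 624 170 * kw 0 + lr 624 171 * kv 0) * (eX * hor eX RR), .f true .xsh), ((lr 624 172 * kw 0 + lr 624 173 * kv 0) * (eX * hor eX RR), .f true .xsq), ((lr 624 174 * kw 0 + lr 624 175 * kv 0) * (eX * hor eX RR), .f true .xsl), ((lr 624 176 * kw 0 + lr 624 177 * kv 0) * (eX * hor eX RR), .xa)] | 1, 0 => [((lr 624 178 * kw 0 + lr 624 179 * kv 0) * (eX * hor eX RR), .f false .xhm), ((lr 624 180 * kw 0 + lr 624 181 * kv 0) * (eX * hor eX RR), .f false .xqm), ((lr 624 182 * kw 0 + lr 624 183 * kv 0) * (eX * hor eX RR), .f false .xsh), ((lr 624 184 * kw 0 + lr 624 185 * kv 0) * (eX * hor eX RR), .f false .xsq), ((lr 624 186 * kw 0 + lr 624 187 * kv 0) * (eX * hor eX RR), .f false .xsl), ((lr 624 188 * kw 0 + lr 624 189 * kv 0) * (eX * hor eX RR), .f true .xhm), ((lr 624 190 * kw 0 + lr 624 191 * kv 0) * (eX * hor eX RR), .f true .xqm), ((lr 624 192 * kw 0 + lr 624 193 * kv 0) * (eX * hor eX RR), .f true .xsh), ((lr 624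 194 * kw 0 + lr 624 195 * kv 0) * (eX * hor eX RR), .f true .xsq), ((lr 624 196 * kw 0 + lr 624 197 * kv 0) * (eX * hor eX RR), .f true .xsl), ((lr 624 198 * kw 0 + lr 624 199 * kv 0) * (eX * hor eX RR), .xa)] | 2, 0 => [((lr 624 200 * kw 0 + lr 624 201 * kv 0) * (eX * hor eX RR), .f false .xhm), ((lr 624 202 * kw 0 + lr 624 203 * kv 0) * (eX * hor eX RR), .f false .xqm), ((lr 624 204 * kw 0 + lr 624 205 * kv 0) * (eX * hor eX RR), .f false .xsh), ((lr 624 206 * kw 0 + lr 624 207 * kv 0) * (eX * hor eX RR), .f false .xsq), ((lr 624 208 * kw 0 + lr 624 209 * kv 0) * (eX * hor eX RR), .f false .xsl), ((lr 624 210 * kw 0 + lr 624 211 * kv 0) * (eX * hor eX RR), .f true .xhm), ((lr 624 212 * kw 0 + lr 624 213 * kv 0) * (eX * hor eX RR), .f true .xqm), ((lr 624 214 * kw 0 + lr 624 215 * kv 0) * (eX * hor eX RR), .f true .xsh), ((lr 624 216 * kw 0 + lr 624 217 * kv 0) * (eX * hor eX RR), .f true .xsq), ((lr 624 218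 * kw 0 + lr 624 219 * kv 0) * (eX * hor eX RR), .f true .xsl), ((lr 624 220 * kw 0 + lr 624 221 * kv 0) * (eX * hor eX RR), .xa)] | 4, 0 => [((lr 624 222 * kw 0 + lr 624 223 * kv 0) * (eX * hor eX RR), .f false .xhm), ((lr 624 224 * kw 0 + lr 624 225 * kv 0) * (eX * hor eX RR), .f false .xqm), ((lr 624 226 * kw 0 + lr 624 227 * kv 0) * (eX * hor eX RR), .f false .xsh), ((lr 624 228 * kw 0 + lr 624 229 * kv 0) * (eX * hor eX RR), .f false .xsq), ((lr 624 230 * kw 0 + lr 624 231 * kv 0) * (eX * hor eX RR), .f false .xsl), ((lr 624 232 * kw 0 + lr 624 233 * kv 0) * (eX * hor eX RR), .f true .xhm), ((lr 624 234 * kw 0 + lr 624 235 * kv 0) * (eX * hor eX RR), .f true .xqm), ((lr 624 236 * kw 0 + lr 624 237 * kv 0) * (eX * hor eX RR), .f true .xsh), ((lr 624 238 * kw 0 + lr 624 239 * kv 0) * (eX * hor eX RR), .f true .xsq), ((lr 624 240 * kw 0 + lr 624 241 * kv 0) * (eX * hor eX RR), .f true .xsl), ((lr 624 242 *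 kw 0 + lr 624 243 * kv 0) * (eX * hor eX RR), .xa)] | 5, 0 => [((lr 624 244 * kw 0 + lr 624 245 * kv 0) * (eX * hor eX RR), .f false .xhm), ((lr 624 246 * kw 0 + lr 624 247 * kv 0) * (eX * hor eX RR), .f false .xqm), ((lr 624 248 * kw 0 + lr 624 249 * kv 0) * (eX * hor eX RR), .f false .xsh), ((lr 624 250 * kw 0 + lr 624 251 * kv 0) * (eX * hor eX RR), .f false .xsq), ((lr 624 252 * kw 0 + lr 624 253 * kv 0) * (eX * hor eX RR), .f false .xsl), ((lr 624 254 * kw 0 + lr 624 255 * kv 0) * (eX * hor eX RR), .f true .xhm), ((lr 624 256 * kw 0 + lr 624 257 * kv 0) * (eX * hor eX RR), .f true .xqm), ((lr 624 258 * kw 0 + lr 624 259 * kv 0) * (eX * hor eX RR), .f true .xsh), ((lr 624 260 * kw 0 + lr 624 261 * kv 0) * (eX * hor eX RR), .f true .xsq), ((lr 624 262 * kw 0 + lr 624 263 * kv 0) * (eX * hor eX RR), .f true .xsl), ((lr 624 264 * kw 0 + lr 624 265 * kv 0) * (eX * hor eX RR), .xa)] | 6, 0 => [((lr 624 266 *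 kw 0 + lr 624 267 * kv 0) * (eX * hor eX RR), .f false .xhm), ((lr 624 268 * kw 0 + lr 624 269 * kv 0) * (eX * hor eX RR), .f false .xqm), ((lr 624 270 * kw 0 + lr 624 271 * kv 0) * (eX * hor eX RR), .f false .xsh), ((lr 624 272 * kw 0 + lr 624 273 * kv 0) * (eX * hor eX RR), .f false .xsq), ((lr 624 274 * kw 0 + lr 624 275 * kv 0) * (eX * hor eX RR), .f false .xsl), ((lr 624 276 * kw 0 + lr 624 277 * kv 0) * (eX * hor eX RR), .f true .xhm), ((lr 624 278 * kw 0 + lr 624 279 * kv 0) * (eX * hor eX RR), .f true .xqm), ((lr 624 280 * kw 0 + lr 624 281 * kv 0) * (eX * hor eX RR), .f true .xsh), ((lr 624 282 * kw 0 + lr 624 283 * kv 0) * (eX * hor eX RR), .f true .xsq), ((lr 624 284 * kw 0 + lr 624 285 * kv 0) * (eX * hor eX RR), .f true .xsl), ((lr 624 286 * kw 0 + lr 624 287 * kv 0) * (eX * hor eX RR), .xa)] | 8, 0 => [(lr 624 288 * kw 0 + lr 624 289 * kv 0, .f false .xhm), (lr 624 290 * kw 0 + lr 624 291 * kv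 0, .f false .xqm), (lr 624 292 * kw 0 + lr 624 293 * kv 0, .f false .xsh), (lr 624 294 * kw 0 + lr 624 295 * kv 0, .f false .xsq), (lr 624 296 * kw 0 + lr 624 297 * kv 0, .f false .xsl), (lr 624 298 * kw 0 + lr 624 299 * kv 0, .f true .xhm), (lr 624 300 * kw 0 + lr 624 301 * kv 0, .f true .xqm), (lr 624 302 * kw 0 + lr 624 303 * kv 0, .f true .xsh), (lr 624 304 * kw 0 + lr 624 305 * kv 0, .f true .xsq), (lr 624 306 * kw 0 + lr 624 307 * kv 0, .f true .xsl), (lr 624 308 * kw 0 + lr 624 309 * kv 0, .xa)] | 9, 0 => [(lr 624 310 * kw 0 + lr 624 311 * kv 0, .f false .xhm), (lr 624 312 * kw 0 + lr 624 313 * kv 0, .f false .xqm), (lr 624 314 * kw 0 + lr 624 315 * kv 0, .f false .xsh), (lr 624 316 * kw 0 + lr 624 317 * kv 0, .f false .xsq), (lr 624 318 * kw 0 + lr 624 319 * kv 0, .f false .xsl), (lr 624 320 * kw 0 + lr 624 321 * kv 0, .f true .xhm), (lr 624 322 * kw 0 + lr 624 323 * kv 0, .f true .xqm), (lr 624 324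 * kw 0 + lr 624 325 * kv 0, .f true .xsh), (lr 624 326 * kw 0 + lr 624 327 * kv 0, .f true .xsq), (lr 624 328 * kw 0 + lr 624 329 * kv 0, .f true .xsl), (lr 624 330 * kw 0 + lr 624 331 * kv 0, .xa)] | 10, 0 => [(lr 624 332, .f false .xhm), (lr 624 333, .f false .xqm), (lr 624 334, .f false .xsh), (lr 624 335, .f false .xsq), (lr 624 336, .f false .xsl)] | 11, 0 => [(lr 624 337, .f false .xhm), (lr 624 338, .f false .xqm), (lr 624 339, .f false .xsh), (lr 624 340, .f false .xsq), (lr 624 341, .f false .xsl)] | 12, 0 => [(lr 624 342, .f false .xhm), (lr 624 343, .f false .xqm), (lr 624 344, .f false .xsh), (lr 624 345, .f false .xsq), (lr 624 346, .f false .xsl)] | 13, 0 => [(lr 624 347, .f false .xhm), (lr 624 348, .f false .xqm), (lr 624 349, .f false .xsh), (lr 624 350, .f false .xsq), (lr 624 351, .f false .xsl)] | 0, 1 => [((lr 624 352 * kw 0 + lr 624 353 * kv 0) * (eX * hor eX RR), .f false .xhm), ((lr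 624 354 * kw 0 + lr 624 355 * kv 0) * (eX * hor eX RR), .f false .xqm), ((lr 624 356 * kw 0 + lr 624 357 * kv 0) * (eX * hor eX RR), .f false .xsh), ((lr 624 358 * kw 0 + lr 624 359 * kv 0) * (eX * hor eX RR), .f false .xsq), ((lr 624 360 * kw 0 + lr 624 361 * kv 0) * (eX * hor eX RR), .f false .xsl), ((lr 624 362 * kw 0 + lr 624 363 * kv 0) * (eX * hor eX RR), .f true .xhm), ((lr 624 364 * kw 0 + lr 624 365 * kv 0) * (eX * hor eX RR), .f true .xqm), ((lr 624 366 * kw 0 + lr 624 367 * kv 0) * (eX * hor eX RR), .f true .xsh), ((lr 624 368 * kw 0 + lr 624 369 * kv 0) * (eX * hor eX RR), .f true .xsq), ((lr 624 370 * kw 0 + lr 624 371 * kv 0) * (eX * hor eX RR), .f true .xsl), ((lr 624 372 * kw 0 + lr 624 373 * kv 0) * (eX * hor eX RR), .xa)] | 1, 1 => [((lr 624 374 * kw 0 + lr 624 375 * kv 0) * (eX * hor eX RR), .f false .xhm), ((lr 624 376 * kw 0 + lr 624 377 * kv 0) * (eX * hor eX RR), .f false .xqm), ((lr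 624 378 * kw 0 + lr 624 379 * kv 0) * (eX * hor eX RR), .f false .xsh), ((lr 624 380 * kw 0 + lr 624 381 * kv 0) * (eX * hor eX RR), .f false .xsq), ((lr 624 382 * kw 0 + lr 624 383 * kv 0) * (eX * hor eX RR), .f false .xsl), ((lr 624 384 * kw 0 + lr 624 385 * kv 0) * (eX * hor eX RR), .f true .xhm), ((lr 624 386 * kw 0 + lr 624 387 * kv 0) * (eX * hor eX RR), .f true .xqm), ((lr 624 388 * kw 0 + lr 624 389 * kv 0) * (eX * hor eX RR), .f true .xsh), ((lr 624 390 * kw 0 + lr 624 391 * kv 0) * (eX * hor eX RR), .f true .xsq), ((lr 624 392 * kw 0 + lr 624 393 * kv 0) * (eX * hor eX RR), .f true .xsl), ((lr 624 394 * kw 0 + lr 624 395 * kv 0) * (eX * hor eX RR), .xa)] | 2, 1 => [((lr 624 396 * kw 0 + lr 624 397 * kv 0) * (eX * hor eX RR), .f false .xhm), ((lr 624 398 * kw 0 + lr 624 399 * kv 0) * (eX * hor eX RR), .f false .xqm), ((lr 624 400 * kw 0 + lr 624 401 * kv 0) * (eX * hor eX RR), .f false .xsh), ((lr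 624 402 * kw 0 + lr 624 403 * kv 0) * (eX * hor eX RR), .f false .xsq), ((lr 624 404 * kw 0 + lr 624 405 * kv 0) * (eX * hor eX RR), .f false .xsl), ((lr 624 406 * kw 0 + lr 624 407 * kv 0) * (eX * hor eX RR), .f true .xhm), ((lr 624 408 * kw 0 + lr 624 409 * kv 0) * (eX * hor eX RR), .f true .xqm), ((lr 624 410 * kw 0 + lr 624 411 * kv 0) * (eX * hor eX RR), .f true .xsh), ((lr 624 412 * kw 0 + lr 624 413 * kv 0) * (eX * hor eX RR), .f true .xsq), ((lr 624 414 * kw 0 + lr 624 415 * kv 0) * (eX * hor eX RR), .f true .xsl), ((lr 624 416 * kw 0 + lr 624 417 * kv 0) * (eX * hor eX RR), .xa)] | 4, 1 => [((lr 624 418 * kw 0 + lr 624 419 * kv 0) * (eX * hor eX RR), .f false .xhm), ((lr 624 420 * kw 0 + lr 624 421 * kv 0) * (eX * hor eX RR), .f false .xqm), ((lr 624 422 * kw 0 + lr 624 423 * kv 0) * (eX * hor eX RR), .f false .xsh), ((lr 624 424 * kw 0 + lr 624 425 * kv 0) * (eX * hor eX RR), .f false .xsq), ((lr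 624 426 * kw 0 + lr 624 427 * kv 0) * (eX * hor eX RR), .f false .xsl), ((lr 624 428 * kw 0 + lr 624 429 * kv 0) * (eX * hor eX RR), .f true .xhm), ((lr 624 430 * kw 0 + lr 624 431 * kv 0) * (eX * hor eX RR), .f true .xqm), ((lr 624 432 * kw 0 + lr 624 433 * kv 0) * (eX * hor eX RR), .f true .xsh), ((lr 624 434 * kw 0 + lr 624 435 * kv 0) * (eX * hor eX RR), .f true .xsq), ((lr 624 436 * kw 0 + lr 624 437 * kv 0) * (eX * hor eX RR), .f true .xsl), ((lr 624 438 * kw 0 + lr 624 439 * kv 0) * (eX * hor eX RR), .xa)] | 5, 1 => [((lr 624 440 * kw 0 + lr 624 441 * kv 0) * (eX * hor eX RR), .f false .xhm), ((lr 624 442 * kw 0 + lr 624 443 * kv 0) * (eX * hor eX RR), .f false .xqm), ((lr 624 444 * kw 0 + lr 624 445 * kv 0) * (eX * hor eX RR), .f false .xsh), ((lr 624 446 * kw 0 + lr 624 447 * kv 0) * (eX * hor eX RR), .f false .xsq), ((lr 624 448 * kw 0 + lr 624 449 * kv 0) * (eX * hor eX RR), .f false .xsl), ((lr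 624 450 * kw 0 + lr 624 451 * kv 0) * (eX * hor eX RR), .f true .xhm), ((lr 624 452 * kw 0 + lr 624 453 * kv 0) * (eX * hor eX RR), .f true .xqm), ((lr 624 454 * kw 0 + lr 624 455 * kv 0) * (eX * hor eX RR), .f true .xsh), ((lr 624 456 * kw 0 + lr 624 457 * kv 0) * (eX * hor eX RR), .f true .xsq), ((lr 624 458 * kw 0 + lr 624 459 * kv 0) * (eX * hor eX RR), .f true .xsl), ((lr 624 460 * kw 0 + lr 624 461 * kv 0) * (eX * hor eX RR), .xa)] | 6, 1 => [((lr 624 462 * kw 0 + lr 624 463 * kv 0) * (eX * hor eX RR), .f false .xhm), ((lr 624 464 * kw 0 + lr 624 465 * kv 0) * (eX * hor eX RR), .f false .xqm), ((lr 624 466 * kw 0 + lr 624 467 * kv 0) * (eX * hor eX RR), .f false .xsh), ((lr 624 468 * kw 0 + lr 624 469 * kv 0) * (eX * hor eX RR), .f false .xsq), ((lr 624 470 * kw 0 + lr 624 471 * kv 0) * (eX * hor eX RR), .f false .xsl), ((lr 624 472 * kw 0 + lr 624 473 * kv 0) * (eX * hor eX RR), .f true .xhm), ((lr 624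 474 * kw 0 + lr 624 475 * kv 0) * (eX * hor eX RR), .f true .xqm), ((lr 624 476 * kw 0 + lr 624 477 * kv 0) * (eX * hor eX RR), .f true .xsh), ((lr 624 478 * kw 0 + lr 624 479 * kv 0) * (eX * hor eX RR), .f true .xsq), ((lr 624 480 * kw 0 + lr 624 481 * kv 0) * (eX * hor eX RR), .f true .xsl), ((lr 624 482 * kw 0 + lr 624 483 * kv 0) * (eX * hor eX RR), .xa)] | 8, 1 => [(lr 624 484 * kw 0 + lr 624 485 * kv 0, .f false .xhm), (lr 624 486 * kw 0 + lr 624 487 * kv 0, .f false .xqm), (lr 624 488 * kw 0 + lr 624 489 * kv 0, .f false .xsh), (lr 624 490 * kw 0 + lr 624 491 * kv 0, .f false .xsq), (lr 624 492 * kw 0 + lr 624 493 * kv 0, .f false .xsl), (lr 624 494 * kw 0 + lr 624 495 * kv 0, .f true .xhm), (lr 624 496 * kw 0 + lr 624 497 * kv 0, .f true .xqm), (lr 624 498 * kw 0 + lr 624 499 * kv 0, .f true .xsh), (lr 624 500 * kw 0 + lr 624 501 * kv 0, .f true .xsq), (lr 624 502 * kw 0 + lr 624 503 * kv 0, .f true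 .xsl), (lr 624 504 * kw 0 + lr 624 505 * kv 0, .xa)] | 9, 1 => [(lr 624 506 * kw 0 + lr 624 507 * kv 0, .f false .xhm), (lr 624 508 * kw 0 + lr 624 509 * kv 0, .f false .xqm), (lr 624 510 * kw 0 + lr 624 511 * kv 0, .f false .xsh), (lr 624 512 * kw 0 + lr 624 513 * kv 0, .f false .xsq), (lr 624 514 * kw 0 + lr 624 515 * kv 0, .f false .xsl), (lr 624 516 * kw 0 + lr 624 517 * kv 0, .f true .xhm), (lr 624 518 * kw 0 + lr 624 519 * kv 0, .f true .xqm), (lr 624 520 * kw 0 + lr 624 521 * kv 0, .f true .xsh), (lr 624 522 * kw 0 + lr 624 523 * kv 0, .f true .xsq), (lr 624 524 * kw 0 + lr 624 525 * kv 0, .f true .xsl), (lr 624 526 * kw 0 + lr 624 527 * kv 0, .xa)] | 10, 1 => [(lr 624 528, .f false .xhm), (lr 624 529, .f false .xqm), (lr 624 530, .f false .xsh), (lr 624 531, .f false .xsq), (lr 624 532, .f false .xsl)] | 11, 1 => [(lr 624 533, .f false .xhm), (lr 624 534, .f false .xqm), (lr 624 535, .f false .xsh),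 (lr 624 536, .f false .xsq), (lr 624 537, .f false .xsl)] | 12, 1 => [(lr 624 538, .f false .xhm), (lr 624 539, .f false .xqm), (lr 624 540, .f false .xsh), (lr 624 541, .f false .xsq), (lr 624 542, .f false .xsl)] | 13, 1 => [(lr 624 543, .f false .xhm), (lr 624 544, .f false .xqm), (lr 624 545, .f false .xsh), (lr 624 546, .f false .xsq), (lr 624 547, .f false .xsl)] | _, _ => []
  fp := fun _ _ => []
  ff := fun k l => match k, l with | 0, 0 => [(lr 624 548 * kw 0 + lr 624 549 * kv 0, .xhm), (lr 624 550 * kw 0 + lr 624 551 * kv 0, .xqm), (lr 624 552 * kw 0 + lr 624 553 * kv 0, .xsh), (lr 624 554 * kw 0 + lr 624 555 * kv 0, .xsq), (lr 624 556 * kw 0 + lr 624 557 * kv 0, .xsl)] | 4, 0 => [(lr 624 558 * kw 0 + lr 624 559 * kv 0, .xhm), (lr 624 560 * kw 0 + lr 624 561 * kv 0, .xqm), (lr 624 562 * kw 0 + lr 624 563 * kv 0, .xsh), (lr 624 564 * kw 0 + lr 624 565 * kv 0, .xsq), (lr 624 566 * kw 0 + lr 624 567 *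 kv 0, .xsl)] | 1, 0 => [(lr 624 568 * kw 0 + lr 624 569 * kv 0, .xhm), (lr 624 570 * kw 0 + lr 624 571 * kv 0, .xqm), (lr 624 572 * kw 0 + lr 624 573 * kv 0, .xsh), (lr 624 574 * kw 0 + lr 624 575 * kv 0, .xsq), (lr 624 576 * kw 0 + lr 624 577 * kv 0, .xsl)] | 2, 0 => [(lr 624 578 * kw 0 + lr 624 579 * kv 0, .xhm), (lr 624 580 * kw 0 + lr 624 581 * kv 0, .xqm), (lr 624 582 * kw 0 + lr 624 583 * kv 0, .xsh), (lr 624 584 * kw 0 + lr 624 585 * kv 0, .xsq), (lr 624 586 * kw 0 + lr 624 587 * kv 0, .xsl)] | 3, 0 => [(lr 624 588 * kw 0 + lr 624 589 * kv 0, .xhm), (lr 624 590 * kw 0 + lr 624 591 * kv 0, .xqm), (lr 624 592 * kw 0 + lr 624 593 * kv 0, .xsh), (lr 624 594 * kw 0 + lr 624 595 * kv 0, .xsq), (lr 624 596 * kw 0 + lr 624 597 * kv 0, .xsl)] | 2, 1 => [(lr 624 598 * kw 0 + lr 624 599 * kv 0, .xhm), (lr 624 600 * kw 0 + lr 624 601 * kv 0, .xqm), (lr 624 602 * kw 0 + lr 624 603 * kv 0, .xsh), (lr 624 604 * kw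 0 + lr 624 605 * kv 0, .xsq), (lr 624 606 * kw 0 + lr 624 607 * kv 0, .xsl)] | 3, 1 => [(lr 624 608 * kw 0 + lr 624 609 * kv 0, .xhm), (lr 624 610 * kw 0 + lr 624 611 * kv 0, .xqm), (lr 624 612 * kw 0 + lr 624 613 * kv 0, .xsh), (lr 624 614 * kw 0 + lr 624 615 * kv 0, .xsq), (lr 624 616 * kw 0 + lr 624 617 * kv 0, .xsl)] | _, _ => []
  fo := fun _ _ => []

def x : Tp12 where
  b := b
  R := 624
  iH := 0
  a := ta
  cp := fun _ _ => none
  lam := fun _ l m => bif Nat.beq l m then kc 1 else kz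

/-- the hazard line -/
def xh : Hz1 := ⟨624, 0, 1, 5462, 16, RR⟩

/-- all lines -/
def sheet : Sheet := x.sheet.app xh.sheet

theorem okx : x.okT = true := by decide +kernel
theorem okh : xh.okT = true := by decide +kernel

theorem fit : Ts0.Fit s0 x := ⟨rfl, rfl, rfl, rfl, rfl⟩
end Pool.Agent.RZ.RCO.SAs
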