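import Pool.Agent.RZ.RCO.Gs19

/-! Generated: the layout of the tables of level 1, killed (MP_73ccd0_lc). -/

set_option autoImplicit false
set_option maxRecDepth 100000

namespace Pool.Agent.RZ.RCO.SBk

open Sg

def wv : ℕ → Wf := fun l => match l with | 0 => ⟨fun i => if i = 0 then 1 else 0, [], 0⟩ | _ => ⟨fun _ => 0, [1], 0⟩

def ttb : SpT where
  N := 2
  J := 1
  RR := [lr 600 1, lr 600 2, lr 600 3]
  Rp := kz
  W := plr 600 0 4 3
  Wp := [kc 1]
  Dk := plr 600 0 7 3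
  wv := wv
  B := fun s m => match s with | true => (match m with | 0 => (fun i => match i with | 0 => ls' 600 10 | 1 => ls' 600 11 | 2 => ls' 600 12 + eK * ls' 600 15 | 4 => ls' 600 13 | 9 => ls' 600 14 | _ => kz) | 1 => (fun i => match i with | 0 => ls' 600 22 | 1 => ls' 600 23 | 2 => ls' 600 24 + eK * ls' 600 27 | 4 => ls' 600 25 | 9 => ls' 600 26 | _ => kz) | _ => fun _ => kz) | false => (match m with | 0 => (fun i => match i with | 0 => ls' 600 16 | 1 => ls' 600 17 | 2 => ls' 600 18 + eK * ls' 600 21 | 4 => ls' 600 19 | 9 => ls' 600 20 | _ => kz) | 1 => (fun i => match i with | 0 => ls' 600 28 | 1 => ls' 600 29 | 2 => ls' 600 30 + eK * ls' 600 33 | 4 => ls' 600 31 | 9 => ls' 600 32 | _ => kz) | _ => fun _ => kz)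
  CB := fun _ _ => kz
  Pn := (fun i => match i with | 0 => ls' 600 73 | 1 => ls' 600 74 | 2 => ls' 600 75 + eK * ls' 600 78 | 4 => ls' 600 76 | 9 => ls' 600 77 | _ => kz)
  Pe := (fun i => match i with | 0 => ls' 600 79 | 1 => ls' 600 80 | 2 => ls' 600 81 + eK * ls' 600 84 | 4 => ls' 600 82 | 9 => ls' 600 83 | _ => kz)
  Pd := (fun i => match i with | 0 => ls' 600 85 | 1 => ls' 600 86 | 2 => ls' 600 87 + eK * ls' 600 90 | 4 => ls' 600 88 | 9 => ls' 600 89 | _ => kz)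
  nu := (fun _ => kz)
  du := (fun _ => kz)
  Cn := kz
  Ce := kz
  Cd := kz
  dn := kz
  de := kz
  CD := kz
  CE := kz
  Cnu := kz
  Cdu := kz
  RDp := kz
  REp := kz
  sl := fun _ _ _ => kz
  us := fun _ _ _ => kz
  slp := fun _ _ => kz
  usp := fun _ _ => kz
  Gn := fun k m => match k, m with | 0, 0 => lr 600 91 | 0, 1 => lr 600 92 | _, _ => kz
  Gd := fun k m => match k, m with | 0, 0 => lr 600 93 | 0, 1 => lr 600 94 | _, _ => kz
  cD := ⟨ls' 600 34, ls' 600 35, kz, ls' 600 36, ls' 600 37, kz, kz, kz⟩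
  cn := ⟨ls' 600 95, ls' 600 96, kz, ls' 600 97, ls' 600 98, kz, kz, kz⟩
  ce := ⟨ls' 600 99, ls' 600 100, kz, ls' 600 101, ls' 600 102, kz, kz, kz⟩
  bn := ⟨ls' 600 103, ls' 600 104, kz, ls' 600 105, ls' 600 106, kz, kz, kz⟩
  bd := ⟨ls' 600 107, ls' 600 108, kz, ls' 600 109, ls' 600 110, kz, kz, kz⟩
  vD := ⟨ls' 600 111, ls' 600 112, kz, ls' 600 113, ls' 600 114, kz, kz, kz⟩
  vE := ⟨ls' 600 115, ls' 600 116, kz, ls' 600 117, ls' 600 118, kz, kz, kz⟩
  RD := [lr 600 56, lr 600 57, lr 600 58]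
  RF := [lr 600 59, lr 600 60, lr 600 61]
  κD := lr 600 62
  κE := lr 600 63
  c1 := lr 600 64
  c4 := lr 600 65
  lam := fun _ _ => kc 1
  fe := fun k m => match k, m with | 1, 0 => [(lr 600 155 * (eX * hor eX [lr 600 1, lr 600 2, lr 600 3]), .f false .xhm), (lr 600 156 * (eX * hor eX [lr 600 1, lr 600 2, lr 600 3]), .f false .xqm), (lr 600 157 * (eX * hor eX [lr 600 1, lr 600 2, lr 600 3]), .f false .xsh), (lr 600 158 * (eX * hor eX [lr 600 1, lr 600 2, lr 600 3]), .f false .xsq), (lr 600 159 * (eX * hor eX [lr 600 1, lr 600 2, lr 600 3]), .f false .xsl)] | 2, 0 => [(lr 600 160 * (eX * hor eX [lr 600 1, lr 600 2, lr 600 3]), .f false .xhm), (lr 600 161 * (eX * hor eX [lr 600 1, lr 600 2, lr 600 3]), .f false .xqm), (lr 600 162 * (eX * hor eX [lr 600 1, lr 600 2, lr 600 3]), .f false .xsh), (lr 600 163 * (eX * hor eX [lr 600 1, lr 600 2, lr 600 3]), .f false .xsq), (lr 600 164 * (eX * hor eX [lr 600 1, lr 600 2, lr 600 3]), .f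 false .xsl)] | 3, 0 => [(lr 600 165 * (eX * hor eX [lr 600 1, lr 600 2, lr 600 3]), .f false .xhm), (lr 600 166 * (eX * hor eX [lr 600 1, lr 600 2, lr 600 3]), .f false .xqm), (lr 600 167 * (eX * hor eX [lr 600 1, lr 600 2, lr 600 3]), .f false .xsh), (lr 600 168 * (eX * hor eX [lr 600 1, lr 600 2, lr 600 3]), .f false .xsq), (lr 600 169 * (eX * hor eX [lr 600 1, lr 600 2, lr 600 3]), .f false .xsl), (lr 600 170 * (eX * hor eX [lr 600 1, lr 600 2, lr 600 3]), .f true .xhm), (lr 600 171 * (eX * hor eX [lr 600 1, lr 600 2, lr 600 3]), .f true .xqm), (lr 600 172 * (eX * hor eX [lr 600 1, lr 600 2, lr 600 3]), .f true .xsh), (lr 600 173 * (eX * hor eX [lr 600 1, lr 600 2, lr 600 3]), .f true .xsq), (lr 600 174 * (eX * hor eX [lr 600 1, lr 600 2, lr 600 3]), .f true .xsl), (lr 600 175 * (eX * hor eX [lr 600 1, lr 600 2, lr 600 3]), .xa)] | 4, 0 => [(lr 600 176 * (eX * hor eX [lr 600 1, lr 600 2, lr 600 3]), .f false .xhm), (lr 600 177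 * (eX * hor eX [lr 600 1, lr 600 2, lr 600 3]), .f false .xqm), (lr 600 178 * (eX * hor eX [lr 600 1, lr 600 2, lr 600 3]), .f false .xsh), (lr 600 179 * (eX * hor eX [lr 600 1, lr 600 2, lr 600 3]), .f false .xsq), (lr 600 180 * (eX * hor eX [lr 600 1, lr 600 2, lr 600 3]), .f false .xsl), (lr 600 181 * (eX * hor eX [lr 600 1, lr 600 2, lr 600 3]), .f true .xhm), (lr 600 182 * (eX * hor eX [lr 600 1, lr 600 2, lr 600 3]), .f true .xqm), (lr 600 183 * (eX * hor eX [lr 600 1, lr 600 2, lr 600 3]), .f true .xsh), (lr 600 184 * (eX * hor eX [lr 600 1, lr 600 2, lr 600 3]), .f true .xsq), (lr 600 185 * (eX * hor eX [lr 600 1, lr 600 2, lr 600 3]), .f true .xsl), (lr 600 186 * (eX * hor eX [lr 600 1, lr 600 2, lr 600 3]), .xa)] | 7, 0 => [(lr 600 187, .f false .xhm), (lr 600 188, .f false .xqm), (lr 600 189, .f false .xsh), (lr 600 190, .f false .xsq), (lr 600 191, .f false .xsl)] | 8, 0 => [(lr 600 192, .f false .xhm), (lr 600 193,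 .f false .xqm), (lr 600 194, .f false .xsh), (lr 600 195, .f false .xsq), (lr 600 196, .f false .xsl)] | 9, 0 => [(lr 600 197, .f false .xhm), (lr 600 198, .f false .xqm), (lr 600 199, .f false .xsh), (lr 600 200, .f false .xsq), (lr 600 201, .f false .xsl)] | 10, 0 => [(lr 600 202, .f false .xhm), (lr 600 203, .f false .xqm), (lr 600 204, .f false .xsh), (lr 600 205, .f false .xsq), (lr 600 206, .f false .xsl)] | 11, 0 => [(lr 600 207, .f false .xhm), (lr 600 208, .f false .xqm), (lr 600 209, .f false .xsh), (lr 600 210, .f false .xsq), (lr 600 211, .f false .xsl)] | 12, 0 => [(lr 600 212, .f false .xhm), (lr 600 213, .f false .xqm), (lr 600 214, .f false .xsh), (lr 600 215, .f false .xsq), (lr 600 216, .f false .xsl)] | 13, 0 => [(lr 600 217, .f false .xhm), (lr 600 218, .f false .xqm), (lr 600 219, .f false .xsh), (lr 600 220, .f false .xsq), (lr 600 221, .f false .xsl)] | _, _ => []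
  fp := fun _ _ => []
  ff := fun k m => match k, m with | 0, 0 => [(lr 600 222, .xhm), (lr 600 223, .xqm), (lr 600 224, .xsh), (lr 600 225, .xsq), (lr 600 226, .xsl)] | 1, 0 => [(lr 600 227, .xhm), (lr 600 228, .xqm), (lr 600 229, .xsh), (lr 600 230, .xsq), (lr 600 231, .xsl)] | 2, 0 => [(lr 600 232, .xhm), (lr 600 233, .xqm), (lr 600 234, .xsh), (lr 600 235, .xsq), (lr 600 236, .xsl)] | 3, 0 => [(lr 600 237, .xhm), (lr 600 238, .xqm), (lr 600 239, .xsh), (lr 600 240, .xsq), (lr 600 241, .xsl)] | 4, 0 => [(lr 600 242, .xhm), (lr 600 243, .xqm), (lr 600 244, .xsh), (lr 600 245, .xsq), (lr 600 246, .xsl)] | _, _ => []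
  fo := fun _ _ => []
def tt : Tt1 where
  b := ttb
  R := 600
  iH := 0
  a := fun s m => match s with | true => (match m with | 0 => (fun i => match i with | 0 => some ⟨119, 120, 121⟩ | 1 => some ⟨122, 123, 124⟩ | 2 => some ⟨125, 126, 127⟩ | 4 => some ⟨128, 129, 130⟩ | 9 => some ⟨131, 132, 133⟩ | 15 => some ⟨134, 135, 136⟩ | _ => none) | _ => fun _ => none) | false => (match m with | 0 => (fun i => match i with | 0 => some ⟨137, 138, 139⟩ | 1 => some ⟨140, 141, 142⟩ | 2 => some ⟨143, 144, 145⟩ | 4 => some ⟨146, 147, 148⟩ | 9 => some ⟨149, 150, 151⟩ | 15 => some ⟨152, 153, 154⟩ | _ => none) | _ => fun _ => none)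
  cp := fun _ _ => none

def tpb : SpP where
  N := 2
  RR := [lr 600 1, lr 600 2, lr 600 3]
  Rp := kz
  W := plr 600 0 4 3
  Wp := [kc 1]
  Dk := plr 600 0 7 3
  w1 := wv
  B := fun s m => match s with | true => (match m with | 0 => (fun i => match i with | 0 => ls' 600 10 | 1 => ls' 600 11 | 2 => ls' 600 12 + eK * ls' 600 15 | 4 => ls' 600 13 | 9 => ls' 600 14 | _ => kz) | 1 => (fun i => match i with | 0 => ls' 600 22 | 1 => ls' 600 23 | 2 => ls' 600 24 + eK * ls' 600 27 | 4 => ls' 600 25 | 9 => ls' 600 26 | _ => kz) | _ => fun _ => kz) | false => (match m with | 0 => (fun i => match i with | 0 => ls' 600 16 | 1 => ls' 600 17 | 2 => ls' 600 18 + eK * ls' 600 21 | 4 => ls' 600 19 | 9 => ls' 600 20 | _ => kz) | 1 => (fun i => match i with | 0 => ls' 600 28 | 1 => ls' 600 29 | 2 => ls' 600 30 + eK * ls' 600 33 | 4 => ls' 600 31 | 9 => ls' 600 32 | _ => kz) | _ => fun _ => kz)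
  Th := fun m => match m with | 0 => (fun i => match i with | 0 => ls' 600 247 | 1 => ls' 600 248 | 2 => ls' 600 249 + eK * ls' 600 252 | 4 => ls' 600 250 | 9 => ls' 600 251 | _ => kz) | 1 => (fun i => match i with | 0 => ls' 600 253 | 1 => ls' 600 254 | 2 => ls' 600 255 + eK * ls' 600 258 | 4 => ls' 600 256 | 9 => ls' 600 257 | _ => kz) | _ => fun _ => kz
  Kn := fun k m => match k, m with | 0, 0 => lr 600 259 | 0, 1 => lr 600 260 | 1, 0 => lr 600 261 | 1, 1 => lr 600 262 | _, _ => kz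
  Kp := fun k m => match k, m with | 0, 0 => lr 600 263 | 0, 1 => lr 600 264 | 1, 0 => lr 600 265 | 1, 1 => lr 600 266 | _, _ => kz
  Ke := fun k m => match k, m with | 0, 0 => lr 600 267 | 0, 1 => lr 600 268 | 1, 0 => lr 600 269 | 1, 1 => lr 600 270 | _, _ => kz
  Km := fun k m => match k, m with | 0, 0 => lr 600 271 | 0, 1 => lr 600 272 | 1, 0 => lr 600 273 | 1, 1 => lr 600 274 | _, _ => kz
  cD := ⟨ls' 600 34, ls' 600 35, kz, ls' 600 36, ls' 600 37, kz, kz, kz⟩
  cN := fun m => match m with | 0 => ⟨ls' 600 275, ls' 600 276, kz, ls' 600 277, ls' 600 278, kz, kz, kz⟩ | 1 => ⟨ls' 600 279, ls' 600 280, kz, ls' 600 281, ls' 600 282, kz, kz, kz⟩ | _ => ⟨kz, kz, kz, kz, kz, kz, kz, kz⟩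
  cP := fun m => match m with | 0 => ⟨ls' 600 283, ls' 600 284, kz, ls' 600 285, ls' 600 286, kz, kz, kz⟩ | 1 => ⟨ls' 600 287, ls' 600 288, kz, ls' 600 289, ls' 600 290, kz, kz, kz⟩ | _ => ⟨kz, kz, kz, kz, kz, kz, kz, kz⟩
  cH := fun m => match m with | 0 => ⟨ls' 600 291, ls' 600 292, kz, ls' 600 293, ls' 600 294, kz, kz, kz⟩ | 1 => ⟨ls' 600 295, ls' 600 296, kz, ls' 600 297, ls' 600 298, kz, kz, kz⟩ | _ => ⟨kz, kz, kz, kz, kz, kz, kz, kz⟩
  cW := fun m => match m with | 0 => ⟨ls' 600 299, ls' 600 300, kz, ls' 600 301, ls' 600 302, kz, kz, kz⟩ | 1 => ⟨ls' 600 303, ls' 600 304, kz, ls' 600 305, ls' 600 306, kz, kz, kz⟩ | _ => ⟨kz, kz, kz, kz, kz, kz, kz, kz⟩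
  cX := fun m => match m with | 0 => ⟨ls' 600 307, ls' 600 308, kz, ls' 600 309, ls' 600 310, kz, kz, kz⟩ | 1 => ⟨ls' 600 311, ls' 600 312, kz, ls' 600 313, ls' 600 314, kz, kz, kz⟩ | _ => ⟨kz, kz, kz, kz, kz, kz, kz, kz⟩
  cY := fun m => match m with | 0 => ⟨ls' 600 315, ls' 600 316, kz, ls' 600 317, ls' 600 318, kz, kz, kz⟩ | 1 => ⟨ls' 600 319, ls' 600 320, kz, ls' 600 321, ls' 600 322, kz, kz, kz⟩ | _ => ⟨kz, kz, kz, kz, kz, kz, kz, kz⟩
  RD := [lr 600 56, lr 600 57, lr 600 58]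
  RDp := kz
  RF := [lr 600 59, lr 600 60, lr 600 61]
  REp := kz
  κD := lr 600 62
  κE := lr 600 63
  c1 := lr 600 64
  c4 := lr 600 65
  nu := fun m => match m with | 0 => (fun _ => kz) | 1 => (fun _ => kz) | _ => fun _ => kz
  du := fun m => match m with | 0 => (fun _ => kz) | 1 => (fun _ => kz) | _ => fun _ => kz
  sl := fun _ _ _ => kz
  us := fun _ _ _ => kz
  slp := fun _ _ => kz
  usp := fun _ _ => kz
  fe := fun k m => match k, m with | 1, 0 => [(lr 600 395 * (eX * hor eX [lr 600 1, lr 600 2, lr 600 3]), .f false .xhm), (lr 600 396 * (eX * hor eX [lr 600 1, lr 600 2, lr 600 3]), .f false .xqm), (lr 600 397 * (eX * hor eX [lr 600 1, lr 600 2, lr 600 3]), .f false .xsh), (lr 600 398 * (eX * hor eX [lr 600 1, lr 600 2, lr 600 3]), .f false .xsq), (lr 600 399 * (eX * hor eX [lr 600 1, lr 600 2, lr 600 3]), .f false .xsl), (lr 600 400 * (eX * hor eX [lr 600 1, lr 600 2, lr 600 3]), .f true .xhm), (lr 600 401 * (eX * hor eX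 [lr 600 1, lr 600 2, lr 600 3]), .f true .xqm), (lr 600 402 * (eX * hor eX [lr 600 1, lr 600 2, lr 600 3]), .f true .xsh), (lr 600 403 * (eX * hor eX [lr 600 1, lr 600 2, lr 600 3]), .f true .xsq), (lr 600 404 * (eX * hor eX [lr 600 1, lr 600 2, lr 600 3]), .f true .xsl), (lr 600 405 * (eX * hor eX [lr 600 1, lr 600 2, lr 600 3]), .xa)] | 1, 1 => [(lr 600 406 * (eX * hor eX [lr 600 1, lr 600 2, lr 600 3]), .f false .xhm), (lr 600 407 * (eX * hor eX [lr 600 1, lr 600 2, lr 600 3]), .f false .xqm), (lr 600 408 * (eX * hor eX [lr 600 1, lr 600 2, lr 600 3]), .f false .xsh), (lr 600 409 * (eX * hor eX [lr 600 1, lr 600 2, lr 600 3]), .f false .xsq), (lr 600 410 * (eX * hor eX [lr 600 1, lr 600 2, lr 600 3]), .f false .xsl), (lr 600 411 * (eX * hor eX [lr 600 1, lr 600 2, lr 600 3]), .f true .xhm), (lr 600 412 * (eX * hor eX [lr 600 1, lr 600 2, lr 600 3]), .f true .xqm), (lr 600 413 * (eX * hor eX [lr 600 1, lr 600 2, lr 600 3]), .f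 true .xsh), (lr 600 414 * (eX * hor eX [lr 600 1, lr 600 2, lr 600 3]), .f true .xsq), (lr 600 415 * (eX * hor eX [lr 600 1, lr 600 2, lr 600 3]), .f true .xsl), (lr 600 416 * (eX * hor eX [lr 600 1, lr 600 2, lr 600 3]), .xa)] | 2, 0 => [(lr 600 417 * (eX * hor eX [lr 600 1, lr 600 2, lr 600 3]), .f false .xhm), (lr 600 418 * (eX * hor eX [lr 600 1, lr 600 2, lr 600 3]), .f false .xqm), (lr 600 419 * (eX * hor eX [lr 600 1, lr 600 2, lr 600 3]), .f false .xsh), (lr 600 420 * (eX * hor eX [lr 600 1, lr 600 2, lr 600 3]), .f false .xsq), (lr 600 421 * (eX * hor eX [lr 600 1, lr 600 2, lr 600 3]), .f false .xsl), (lr 600 422 * (eX * hor eX [lr 600 1, lr 600 2, lr 600 3]), .f true .xhm), (lr 600 423 * (eX * hor eX [lr 600 1, lr 600 2, lr 600 3]), .f true .xqm), (lr 600 424 * (eX * hor eX [lr 600 1, lr 600 2, lr 600 3]), .f true .xsh), (lr 600 425 * (eX * hor eX [lr 600 1, lr 600 2, lr 600 3]), .f true .xsq), (lr 600 426 * (eX * hor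 eX [lr 600 1, lr 600 2, lr 600 3]), .f true .xsl), (lr 600 427 * (eX * hor eX [lr 600 1, lr 600 2, lr 600 3]), .xa)] | 2, 1 => [(lr 600 428 * (eX * hor eX [lr 600 1, lr 600 2, lr 600 3]), .f false .xhm), (lr 600 429 * (eX * hor eX [lr 600 1, lr 600 2, lr 600 3]), .f false .xqm), (lr 600 430 * (eX * hor eX [lr 600 1, lr 600 2, lr 600 3]), .f false .xsh), (lr 600 431 * (eX * hor eX [lr 600 1, lr 600 2, lr 600 3]), .f false .xsq), (lr 600 432 * (eX * hor eX [lr 600 1, lr 600 2, lr 600 3]), .f false .xsl), (lr 600 433 * (eX * hor eX [lr 600 1, lr 600 2, lr 600 3]), .f true .xhm), (lr 600 434 * (eX * hor eX [lr 600 1, lr 600 2, lr 600 3]), .f true .xqm), (lr 600 435 * (eX * hor eX [lr 600 1, lr 600 2, lr 600 3]), .f true .xsh), (lr 600 436 * (eX * hor eX [lr 600 1, lr 600 2, lr 600 3]), .f true .xsq), (lr 600 437 * (eX * hor eX [lr 600 1, lr 600 2, lr 600 3]), .f true .xsl), (lr 600 438 * (eX * hor eX [lr 600 1, lr 600 2, lr 600 3]),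 .xa)] | 3, 0 => [(lr 600 439 * (eX * hor eX [lr 600 1, lr 600 2, lr 600 3]), .f false .xhm), (lr 600 440 * (eX * hor eX [lr 600 1, lr 600 2, lr 600 3]), .f false .xqm), (lr 600 441 * (eX * hor eX [lr 600 1, lr 600 2, lr 600 3]), .f false .xsh), (lr 600 442 * (eX * hor eX [lr 600 1, lr 600 2, lr 600 3]), .f false .xsq), (lr 600 443 * (eX * hor eX [lr 600 1, lr 600 2, lr 600 3]), .f false .xsl), (lr 600 444 * (eX * hor eX [lr 600 1, lr 600 2, lr 600 3]), .f true .xhm), (lr 600 445 * (eX * hor eX [lr 600 1, lr 600 2, lr 600 3]), .f true .xqm), (lr 600 446 * (eX * hor eX [lr 600 1, lr 600 2, lr 600 3]), .f true .xsh), (lr 600 447 * (eX * hor eX [lr 600 1, lr 600 2, lr 600 3]), .f true .xsq), (lr 600 448 * (eX * hor eX [lr 600 1, lr 600 2, lr 600 3]), .f true .xsl), (lr 600 449 * (eX * hor eX [lr 600 1, lr 600 2, lr 600 3]), .xa)] | 3, 1 => [(lr 600 450 * (eX * hor eX [lr 600 1, lr 600 2, lr 600 3]), .f false .xhm), (lr 600 451 * (eX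 * hor eX [lr 600 1, lr 600 2, lr 600 3]), .f false .xqm), (lr 600 452 * (eX * hor eX [lr 600 1, lr 600 2, lr 600 3]), .f false .xsh), (lr 600 453 * (eX * hor eX [lr 600 1, lr 600 2, lr 600 3]), .f false .xsq), (lr 600 454 * (eX * hor eX [lr 600 1, lr 600 2, lr 600 3]), .f false .xsl), (lr 600 455 * (eX * hor eX [lr 600 1, lr 600 2, lr 600 3]), .f true .xhm), (lr 600 456 * (eX * hor eX [lr 600 1, lr 600 2, lr 600 3]), .f true .xqm), (lr 600 457 * (eX * hor eX [lr 600 1, lr 600 2, lr 600 3]), .f true .xsh), (lr 600 458 * (eX * hor eX [lr 600 1, lr 600 2, lr 600 3]), .f true .xsq), (lr 600 459 * (eX * hor eX [lr 600 1, lr 600 2, lr 600 3]), .f true .xsl), (lr 600 460 * (eX * hor eX [lr 600 1, lr 600 2, lr 600 3]), .xa)] | 6, 0 => [(lr 600 461 * eX, .f false .xhm), (lr 600 462 * eX, .f false .xqm), (lr 600 463 * eX, .f false .xsh), (lr 600 464 * eX, .f false .xsq), (lr 600 465 * eX, .f false .xsl)] | 6, 1 => [(lr 600 466 * eX, .f false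 .xhm), (lr 600 467 * eX, .f false .xqm), (lr 600 468 * eX, .f false .xsh), (lr 600 469 * eX, .f false .xsq), (lr 600 470 * eX, .f false .xsl)] | 7, 0 => [(lr 600 471, .f false .xhm), (lr 600 472, .f false .xqm), (lr 600 473, .f false .xsh), (lr 600 474, .f false .xsq), (lr 600 475, .f false .xsl)] | 7, 1 => [(lr 600 476, .f false .xhm), (lr 600 477, .f false .xqm), (lr 600 478, .f false .xsh), (lr 600 479, .f false .xsq), (lr 600 480, .f false .xsl)] | 8, 0 => [(lr 600 481, .f false .xhm), (lr 600 482, .f false .xqm), (lr 600 483, .f false .xsh), (lr 600 484, .f false .xsq), (lr 600 485, .f false .xsl)] | 8, 1 => [(lr 600 486, .f false .xhm), (lr 600 487, .f false .xqm), (lr 600 488, .f false .xsh), (lr 600 489, .f false .xsq), (lr 600 490, .f false .xsl)] | 9, 0 => [(lr 600 491, .f false .xhm), (lr 600 492, .f false .xqm), (lr 600 493, .f false .xsh), (lr 600 494, .f false .xsq), (lr 600 495, .f false .xsl)] | 9, 1 => [(lr 600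 496, .f false .xhm), (lr 600 497, .f false .xqm), (lr 600 498, .f false .xsh), (lr 600 499, .f false .xsq), (lr 600 500, .f false .xsl)] | 10, 0 => [(lr 600 501, .f false .xhm), (lr 600 502, .f false .xqm), (lr 600 503, .f false .xsh), (lr 600 504, .f false .xsq), (lr 600 505, .f false .xsl)] | 10, 1 => [(lr 600 506, .f false .xhm), (lr 600 507, .f false .xqm), (lr 600 508, .f false .xsh), (lr 600 509, .f false .xsq), (lr 600 510, .f false .xsl)] | 11, 0 => [(lr 600 511, .f false .xhm), (lr 600 512, .f false .xqm), (lr 600 513, .f false .xsh), (lr 600 514, .f false .xsq), (lr 600 515, .f false .xsl)] | 11, 1 => [(lr 600 516, .f false .xhm), (lr 600 517, .f false .xqm), (lr 600 518, .f false .xsh), (lr 600 519, .f false .xsq), (lr 600 520, .f false .xsl)] | _, _ => []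
  ff := fun k m => match k, m with | 0, 0 => [(lr 600 521, .xhm), (lr 600 522, .xqm), (lr 600 523, .xsh), (lr 600 524, .xsq), (lr 600 525, .xsl)] | 1, 0 => [(lr 600 526, .xhm), (lr 600 527, .xqm), (lr 600 528, .xsh), (lr 600 529, .xsq), (lr 600 530, .xsl)] | 1, 1 => [(lr 600 531, .xhm), (lr 600 532, .xqm), (lr 600 533, .xsh), (lr 600 534, .xsq), (lr 600 535, .xsl)] | 2, 0 => [(lr 600 536, .xhm), (lr 600 537, .xqm), (lr 600 538, .xsh), (lr 600 539, .xsq), (lr 600 540, .xsl)] | 2, 1 => [(lr 600 541, .xhm), (lr 600 542, .xqm), (lr 600 543, .xsh), (lr 600 544, .xsq), (lr 600 545, .xsl)] | 3, 0 => [(lr 600 546, .xhm), (lr 600 547, .xqm), (lr 600 548, .xsh), (lr 600 549, .xsq), (lr 600 550, .xsl)] | 3, 1 => [(lr 600 551, .xhm), (lr 600 552, .xqm), (lr 600 553, .xsh), (lr 600 554, .xsq), (lr 600 555, .xsl)] | 4, 0 => [(lr 600 556, .xhm), (lr 600 557, .xqm), (lr 600 558, .xsh), (lr 600 559, .xsq), (lr 600 560, .xsl)] | 4, 1 => [(lr 600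 561, .xhm), (lr 600 562, .xqm), (lr 600 563, .xsh), (lr 600 564, .xsq), (lr 600 565, .xsl)] | 5, 0 => [(lr 600 566, .xhm), (lr 600 567, .xqm), (lr 600 568, .xsh), (lr 600 569, .xsq), (lr 600 570, .xsl)] | 5, 1 => [(lr 600 571, .xhm), (lr 600 572, .xqm), (lr 600 573, .xsh), (lr 600 574, .xsq), (lr 600 575, .xsl)] | 6, 0 => [(lr 600 576, .xhm), (lr 600 577, .xqm), (lr 600 578, .xsh), (lr 600 579, .xsq), (lr 600 580, .xsl)] | 6, 1 => [(lr 600 581, .xhm), (lr 600 582, .xqm), (lr 600 583, .xsh), (lr 600 584, .xsq), (lr 600 585, .xsl)] | _, _ => []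
def tp : Tp1 where
  b := tpb
  R := 600
  iH := 0
  a := fun s m => match s with | true => (match m with | 0 => (fun i => match i with | 0 => some ⟨323, 324, 325⟩ | 1 => some ⟨326, 327, 328⟩ | 2 => some ⟨329, 330, 331⟩ | 4 => some ⟨332, 333, 334⟩ | 9 => some ⟨335, 336, 337⟩ | 15 => some ⟨338, 339, 340⟩ | _ => none) | 1 => (fun i => match i with | 0 => some ⟨341, 342, 343⟩ | 1 => some ⟨344, 345, 346⟩ | 2 => some ⟨347, 348, 349⟩ | 4 => some ⟨350, 351, 352⟩ | 9 => some ⟨353, 354, 355⟩ | 15 => some ⟨356, 357, 358⟩ | _ => none) | _ => fun _ => none) | false => (match m with | 0 => (fun i => match i with | 0 => some ⟨359, 360, 361⟩ | 1 => some ⟨362, 363, 364⟩ | 2 => some ⟨365, 366, 367⟩ | 4 => some ⟨368, 369, 370⟩ | 9 => some ⟨371, 372, 373⟩ | 15 => some ⟨374, 375, 376⟩ | _ => none) | 1 => (fun i => match i with | 0 => some ⟨377, 378, 379⟩ | 1 => some ⟨380, 381, 382⟩ | 2 => some ⟨383, 384, 385⟩ | 4 => some ⟨386, 387, 388⟩ | 9 => some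 ⟨389, 390, 391⟩ | 15 => some ⟨392, 393, 394⟩ | _ => none) | _ => fun _ => none)
  cp := fun _ _ => none

def kp : Kp1 where
  R := 600
  iH := 0
  yn := 5462
  yk := 16
  RR := [lr 600 1, lr 600 2, lr 600 3]
  N := 3
  H := fun i => match i with | 0 => some ⟨38, 39, 40⟩ | 1 => some ⟨41, 42, 43⟩ | 2 => some ⟨44, 45, 46⟩ | _ => none
  E := fun i => match i with | 0 => some ⟨47, 48, 49⟩ | 1 => some ⟨50, 51, 52⟩ | 2 => some ⟨53, 54, 55⟩ | _ => none
  RD := [lr 600 56, lr 600 57, lr 600 58]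
  RF := [lr 600 59, lr 600 60, lr 600 61]
  κD := lr 600 62
  κE := lr 600 63
  c1 := lr 600 64
  c4 := lr 600 65
  S1 := lr 600 66
  S2 := lr 600 67
  κ := lr 600 68
  Mt := lr 600 69
  m := lr 600 70
  me := lr 600 71
  qd := true
  rl := false
  iP := 72

def v1 : Vl1 where
  R := 600
  iH := 0
  a := tt.a true 0
  cp := none
  S := lr 600 66
  fe := [(lr 600 586, .f false .xhm), (lr 600 587, .f false .xqm), (lr 600 588, .f false .xsh), (lr 600 589, .f false .xsq), (lr 600 590, .f false .xsl)]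

def v2 : Vl1 where
  R := 600
  iH := 0
  a := tp.a true 1
  cp := none
  S := lr 600 67
  fe := [(lr 600 591, .f false .xhm), (lr 600 592, .f false .xqm), (lr 600 593, .f false .xsh), (lr 600 594, .f false .xsq), (lr 600 595, .f false .xsl)]

def nu : ℕ → ℕ → Option ℕ := fun _ _ => none

def du : ℕ → ℕ → Option ℕ := fun _ _ => none

def v3 : Vl1 where
  R := 600
  iH := 0
  a := cfu (du 1)
  cp := none
  S := kr 72
  fe := []

/-- **the record** -/
def X : Sb1 where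
  tt := tt
  tp := tp
  kp := kp
  v1 := v1
  v2 := v2
  v3 := v3
  nu := nu
  du := du
  iS1 := 66
  iS2 := 67
  iκ := 68
  im := 70

/-- all lines -/
def sh : Sheet := X.sheet

theorem w1 (p : Pt) : (X.tp.b.w1 1).fn p = 1 := by
  have h : (X.tp.b.w1 1).fn p = frm (fun _ => ((0 : ℕ) : ℝ)) p + hv (min (p.k / kS) 1) (cz [1]) / 2 ^ 0 := rfl
  rw [h]
  simp [frm, hv, cz]

theorem fit : X.Fit (0 : Fin 1) (1 : Fin 2) where
  R1 := rfl
  H1 := rfl
  R2 := rfl
  H2 := rfl
  Ra := rfl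
  Ha := rfl
  Rb := rfl
  Hb := rfl
  Rc := rfl
  Hc := rfl
  pRR := rfl
  pW := rfl
  pWp := rfl
  pRD := rfl
  pRF := rfl
  pκD := rfl
  pκE := rfl
  pc1 := rfl
  pc4 := rfl
  kRR := rfl
  kRD := rfl
  kRF := rfl
  kκD := rfl
  kκE := rfl
  kc1 := rfl
  kc4 := rfl
  a1 := rfl
  p1 := rfl
  s1 := rfl
  a2 := rfl
  p2 := rfl
  s2 := rfl
  a3 := rfl
  p3 := rfl
  s3 := rfl
  eS1 := rfl
  eS2 := rfl
  eκ := rfl
  em := rfl
  w1 := w1

end Pool.Agent.RZ.RCO.SBk
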