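import Pool.Agent.RZ.RCO.Gs19

/-! Generated: the layout of the tables of level 1, released (MP_73ccd0_lc). -/

set_option autoImplicit false
set_option maxRecDepth 100000

namespace Pool.Agent.RZ.RCO.SBr

open Sg

def wv : ℕ → Wf := fun l => match l with | 0 => ⟨fun i => if i = 0 then 1 else 0, [], 0⟩ | _ => ⟨fun _ => 0, [1], 0⟩

def ttb : SpT where
  N := 2
  J := 1
  RR := [lr 632 1, lr 632 2, lr 632 3]
  Rp := kz
  W := plr 632 0 4 3
  Wp := [kc 1]
  Dk := plr 632 0 7 3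
  wv := wv
  B := fun s m => match s with | true => (match m with | 0 => (fun i => match i with | 0 => ls' 632 10 | 1 => ls' 632 11 | 2 => ls' 632 12 + eK * ls' 632 15 | 4 => ls' 632 13 | 9 => ls' 632 14 | _ => kz) | 1 => (fun i => match i with | 0 => ls' 632 22 | 1 => ls' 632 23 | 2 => ls' 632 24 + eK * ls' 632 27 | 4 => ls' 632 25 | 9 => ls' 632 26 | _ => kz) | _ => fun _ => kz) | false => (match m with | 0 => (fun i => match i with | 0 => ls' 632 16 | 1 => ls' 632 17 | 2 => ls' 632 18 + eK * ls' 632 21 | 4 => ls' 632 19 | 9 => ls' 632 20 | _ => kz) | 1 => (fun i => match i with | 0 => ls' 632 28 | 1 => ls' 632 29 | 2 => ls' 632 30 + eK * ls' 632 33 | 4 => ls' 632 31 | 9 => ls' 632 32 | _ => kz) | _ => fun _ => kz)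
  CB := fun _ _ => kz
  Pn := (fun i => match i with | 0 => ls' 632 97 | 1 => ls' 632 98 | 2 => ls' 632 99 + eK * ls' 632 102 | 4 => ls' 632 100 | 9 => ls' 632 101 | _ => kz)
  Pe := (fun i => match i with | 0 => ls' 632 103 | 1 => ls' 632 104 | 2 => ls' 632 105 + eK * ls' 632 108 | 4 => ls' 632 106 | 9 => ls' 632 107 | _ => kz)
  Pd := (fun i => match i with | 0 => ls' 632 109 | 1 => ls' 632 110 | 2 => ls' 632 111 + eK * ls' 632 114 | 4 => ls' 632 112 | 9 => ls' 632 113 | _ => kz)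
  nu := (fun i => match i with | 0 => ls' 632 79 | 1 => ls' 632 80 | 2 => ls' 632 81 + eK * ls' 632 84 | 4 => ls' 632 82 | 9 => ls' 632 83 | _ => kz)
  du := (fun i => match i with | 0 => ls' 632 91 | 1 => ls' 632 92 | 2 => ls' 632 93 + eK * ls' 632 96 | 4 => ls' 632 94 | 9 => ls' 632 95 | _ => kz)
  Cn := kz
  Ce := kz
  Cd := kz
  dn := kz
  de := kz
  CD := kz
  CE := kz
  Cnu := kz
  Cdu := kz
  RDp := kz
  REp := kz
  sl := fun _ _ _ => kz
  us := fun _ _ _ => kz
  slp := fun _ _ => kz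
  usp := fun _ _ => kz
  Gn := fun k m => match k, m with | 0, 0 => lr 632 115 | 0, 1 => lr 632 116 | _, _ => kz
  Gd := fun k m => match k, m with | 0, 0 => lr 632 117 | 0, 1 => lr 632 118 | _, _ => kz
  cD := ⟨ls' 632 34, ls' 632 35, kz, ls' 632 36, ls' 632 37, kz, kz, kz⟩
  cn := ⟨ls' 632 119, ls' 632 120, kz, ls' 632 121, ls' 632 122, kz, kz, kz⟩
  ce := ⟨ls' 632 123, ls' 632 124, kz, ls' 632 125, ls' 632 126, kz, kz, kz⟩
  bn := ⟨ls' 632 127, ls' 632 128, kz, ls' 632 129, ls' 632 130, kz, kz, kz⟩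
  bd := ⟨ls' 632 131, ls' 632 132, kz, ls' 632 133, ls' 632 134, kz, kz, kz⟩
  vD := ⟨ls' 632 135, ls' 632 136, kz, ls' 632 137, ls' 632 138, kz, kz, kz⟩
  vE := ⟨ls' 632 139, ls' 632 140, kz, ls' 632 141, ls' 632 142, kz, kz, kz⟩
  RD := [lr 632 56, lr 632 57, lr 632 58]
  RF := [lr 632 59, lr 632 60, lr 632 61]
  κD := lr 632 62
  κE := lr 632 63
  c1 := lr 632 64
  c4 := lr 632 65
  lam := fun _ _ => kc 1
  fe := fun k m => match k, m with | 1, 0 => [(lr 632 179 * (eX * hor eX [lr 632 1, lr 632 2, lr 632 3]), .f false .xhm), (lr 632 180 * (eX * hor eX [lr 632 1, lr 632 2, lr 632 3]), .f false .xqm), (lr 632 181 * (eX * hor eX [lr 632 1, lr 632 2, lr 632 3]), .f false .xsh), (lr 632 182 * (eX * hor eX [lr 632 1, lr 632 2, lr 632 3]), .f false .xsq), (lr 632 183 * (eX * hor eX [lr 632 1, lr 632 2, lr 632 3]), .f false .xsl)] | 2, 0 => [(lr 632 184 * (eX * hor eX [lr 632 1, lr 632 2, lr 632 3]), .f false .xhm), (lr 632 185 * (eX * hor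 eX [lr 632 1, lr 632 2, lr 632 3]), .f false .xqm), (lr 632 186 * (eX * hor eX [lr 632 1, lr 632 2, lr 632 3]), .f false .xsh), (lr 632 187 * (eX * hor eX [lr 632 1, lr 632 2, lr 632 3]), .f false .xsq), (lr 632 188 * (eX * hor eX [lr 632 1, lr 632 2, lr 632 3]), .f false .xsl)] | 3, 0 => [(lr 632 189 * (eX * hor eX [lr 632 1, lr 632 2, lr 632 3]), .f false .xhm), (lr 632 190 * (eX * hor eX [lr 632 1, lr 632 2, lr 632 3]), .f false .xqm), (lr 632 191 * (eX * hor eX [lr 632 1, lr 632 2, lr 632 3]), .f false .xsh), (lr 632 192 * (eX * hor eX [lr 632 1, lr 632 2, lr 632 3]), .f false .xsq), (lr 632 193 * (eX * hor eX [lr 632 1, lr 632 2, lr 632 3]), .f false .xsl), (lr 632 194 * (eX * hor eX [lr 632 1, lr 632 2, lr 632 3]), .f true .xhm), (lr 632 195 * (eX * hor eX [lr 632 1, lr 632 2, lr 632 3]), .f true .xqm), (lr 632 196 * (eX * hor eX [lr 632 1, lr 632 2, lr 632 3]), .f true .xsh), (lr 632 197 * (eX * hor eX [lr 632 1, lr 632 2, lr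 632 3]), .f true .xsq), (lr 632 198 * (eX * hor eX [lr 632 1, lr 632 2, lr 632 3]), .f true .xsl), (lr 632 199 * (eX * hor eX [lr 632 1, lr 632 2, lr 632 3]), .xa)] | 4, 0 => [(lr 632 200 * (eX * hor eX [lr 632 1, lr 632 2, lr 632 3]), .f false .xhm), (lr 632 201 * (eX * hor eX [lr 632 1, lr 632 2, lr 632 3]), .f false .xqm), (lr 632 202 * (eX * hor eX [lr 632 1, lr 632 2, lr 632 3]), .f false .xsh), (lr 632 203 * (eX * hor eX [lr 632 1, lr 632 2, lr 632 3]), .f false .xsq), (lr 632 204 * (eX * hor eX [lr 632 1, lr 632 2, lr 632 3]), .f false .xsl), (lr 632 205 * (eX * hor eX [lr 632 1, lr 632 2, lr 632 3]), .f true .xhm), (lr 632 206 * (eX * hor eX [lr 632 1, lr 632 2, lr 632 3]), .f true .xqm), (lr 632 207 * (eX * hor eX [lr 632 1, lr 632 2, lr 632 3]), .f true .xsh), (lr 632 208 * (eX * hor eX [lr 632 1, lr 632 2, lr 632 3]), .f true .xsq), (lr 632 209 * (eX * hor eX [lr 632 1, lr 632 2, lr 632 3]), .f true .xsl), (lr 632 210 * (eX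 * hor eX [lr 632 1, lr 632 2, lr 632 3]), .xa)] | 7, 0 => [(lr 632 211, .f false .xhm), (lr 632 212, .f false .xqm), (lr 632 213, .f false .xsh), (lr 632 214, .f false .xsq), (lr 632 215, .f false .xsl)] | 8, 0 => [(lr 632 216, .f false .xhm), (lr 632 217, .f false .xqm), (lr 632 218, .f false .xsh), (lr 632 219, .f false .xsq), (lr 632 220, .f false .xsl)] | 9, 0 => [(lr 632 221, .f false .xhm), (lr 632 222, .f false .xqm), (lr 632 223, .f false .xsh), (lr 632 224, .f false .xsq), (lr 632 225, .f false .xsl)] | 10, 0 => [(lr 632 226, .f false .xhm), (lr 632 227, .f false .xqm), (lr 632 228, .f false .xsh), (lr 632 229, .f false .xsq), (lr 632 230, .f false .xsl)] | 11, 0 => [(lr 632 231, .f false .xhm), (lr 632 232, .f false .xqm), (lr 632 233, .f false .xsh), (lr 632 234, .f false .xsq), (lr 632 235, .f false .xsl)] | 12, 0 => [(lr 632 236, .f false .xhm), (lr 632 237, .f false .xqm), (lr 632 238, .f false .xsh), (lr 632 239, .f false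 .xsq), (lr 632 240, .f false .xsl)] | 13, 0 => [(lr 632 241, .f false .xhm), (lr 632 242, .f false .xqm), (lr 632 243, .f false .xsh), (lr 632 244, .f false .xsq), (lr 632 245, .f false .xsl)] | _, _ => []
  fp := fun _ _ => []
  ff := fun k m => match k, m with | 0, 0 => [(lr 632 246, .xhm), (lr 632 247, .xqm), (lr 632 248, .xsh), (lr 632 249, .xsq), (lr 632 250, .xsl)] | 1, 0 => [(lr 632 251, .xhm), (lr 632 252, .xqm), (lr 632 253, .xsh), (lr 632 254, .xsq), (lr 632 255, .xsl)] | 2, 0 => [(lr 632 256, .xhm), (lr 632 257, .xqm), (lr 632 258, .xsh), (lr 632 259, .xsq), (lr 632 260, .xsl)] | 3, 0 => [(lr 632 261, .xhm), (lr 632 262, .xqm), (lr 632 263, .xsh), (lr 632 264, .xsq), (lr 632 265, .xsl)] | 4, 0 => [(lr 632 266, .xhm), (lr 632 267, .xqm), (lr 632 268, .xsh), (lr 632 269, .xsq), (lr 632 270, .xsl)] | _, _ => []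
  fo := fun _ _ => []
def tt : Tt1 where
  b := ttb
  R := 632
  iH := 0
  a := fun s m => match s with | true => (match m with | 0 => (fun i => match i with | 0 => some ⟨143, 144, 145⟩ | 1 => some ⟨146, 147, 148⟩ | 2 => some ⟨149, 150, 151⟩ | 4 => some ⟨152, 153, 154⟩ | 9 => some ⟨155, 156, 157⟩ | 15 => some ⟨158, 159, 160⟩ | _ => none) | _ => fun _ => none) | false => (match m with | 0 => (fun i => match i with | 0 => some ⟨161, 162, 163⟩ | 1 => some ⟨164, 165, 166⟩ | 2 => some ⟨167, 168, 169⟩ | 4 => some ⟨170, 171, 172⟩ | 9 => some ⟨173, 174, 175⟩ | 15 => some ⟨176, 177, 178⟩ | _ => none) | _ => fun _ => none)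
  cp := fun _ _ => none

def tpb : SpP where
  N := 2
  RR := [lr 632 1, lr 632 2, lr 632 3]
  Rp := kz
  W := plr 632 0 4 3
  Wp := [kc 1]
  Dk := plr 632 0 7 3
  w1 := wv
  B := fun s m => match s with | true => (match m with | 0 => (fun i => match i with | 0 => ls' 632 10 | 1 => ls' 632 11 | 2 => ls' 632 12 + eK * ls' 632 15 | 4 => ls' 632 13 | 9 => ls' 632 14 | _ => kz) | 1 => (fun i => match i with | 0 => ls' 632 22 | 1 => ls' 632 23 | 2 => ls' 632 24 + eK * ls' 632 27 | 4 => ls' 632 25 | 9 => ls' 632 26 | _ => kz) | _ => fun _ => kz) | false => (match m with | 0 => (fun i => match i with | 0 => ls' 632 16 | 1 => ls' 632 17 | 2 => ls' 632 18 + eK * ls' 632 21 | 4 => ls' 632 19 | 9 => ls' 632 20 | _ => kz) | 1 => (fun i => match i with | 0 => ls' 632 28 | 1 => ls' 632 29 | 2 => ls' 632 30 + eK * ls' 632 33 | 4 => ls' 632 31 | 9 => ls' 632 32 | _ => kz) | _ => fun _ => kz)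
  Th := fun m => match m with | 0 => (fun i => match i with | 0 => ls' 632 271 | 1 => ls' 632 272 | 2 => ls' 632 273 + eK * ls' 632 276 | 4 => ls' 632 274 | 9 => ls' 632 275 | _ => kz) | 1 => (fun i => match i with | 0 => ls' 632 277 | 1 => ls' 632 278 | 2 => ls' 632 279 + eK * ls' 632 282 | 4 => ls' 632 280 | 9 => ls' 632 281 | _ => kz) | _ => fun _ => kz
  Kn := fun k m => match k, m with | 0, 0 => lr 632 283 | 0, 1 => lr 632 284 | 1, 0 => lr 632 285 | 1, 1 => lr 632 286 | _, _ => kz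
  Kp := fun k m => match k, m with | 0, 0 => lr 632 287 | 0, 1 => lr 632 288 | 1, 0 => lr 632 289 | 1, 1 => lr 632 290 | _, _ => kz
  Ke := fun k m => match k, m with | 0, 0 => lr 632 291 | 0, 1 => lr 632 292 | 1, 0 => lr 632 293 | 1, 1 => lr 632 294 | _, _ => kz
  Km := fun k m => match k, m with | 0, 0 => lr 632 295 | 0, 1 => lr 632 296 | 1, 0 => lr 632 297 | 1, 1 => lr 632 298 | _, _ => kz
  cD := ⟨ls' 632 34, ls' 632 35, kz, ls' 632 36, ls' 632 37, kz, kz, kz⟩
  cN := fun m => match m with | 0 => ⟨ls' 632 299, ls' 632 300, kz, ls' 632 301, ls' 632 302, kz, kz, kz⟩ | 1 => ⟨ls' 632 303, ls' 632 304, kz, ls' 632 305, ls' 632 306, kz, kz, kz⟩ | _ => ⟨kz, kz, kz, kz, kz, kz, kz, kz⟩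
  cP := fun m => match m with | 0 => ⟨ls' 632 307, ls' 632 308, kz, ls' 632 309, ls' 632 310, kz, kz, kz⟩ | 1 => ⟨ls' 632 311, ls' 632 312, kz, ls' 632 313, ls' 632 314, kz, kz, kz⟩ | _ => ⟨kz, kz, kz, kz, kz, kz, kz, kz⟩
  cH := fun m => match m with | 0 => ⟨ls' 632 315, ls' 632 316, kz, ls' 632 317, ls' 632 318, kz, kz, kz⟩ | 1 => ⟨ls' 632 319, ls' 632 320, kz, ls' 632 321, ls' 632 322, kz, kz, kz⟩ | _ => ⟨kz, kz, kz, kz, kz, kz, kz, kz⟩
  cW := fun m => match m with | 0 => ⟨ls' 632 323, ls' 632 324, kz, ls' 632 325, ls' 632 326, kz, kz, kz⟩ | 1 => ⟨ls' 632 327, ls' 632 328, kz, ls' 632 329, ls' 632 330, kz, kz, kz⟩ | _ => ⟨kz, kz, kz, kz, kz, kz, kz, kz⟩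
  cX := fun m => match m with | 0 => ⟨ls' 632 331, ls' 632 332, kz, ls' 632 333, ls' 632 334, kz, kz, kz⟩ | 1 => ⟨ls' 632 335, ls' 632 336, kz, ls' 632 337, ls' 632 338, kz, kz, kz⟩ | _ => ⟨kz, kz, kz, kz, kz, kz, kz, kz⟩
  cY := fun m => match m with | 0 => ⟨ls' 632 339, ls' 632 340, kz, ls' 632 341, ls' 632 342, kz, kz, kz⟩ | 1 => ⟨ls' 632 343, ls' 632 344, kz, ls' 632 345, ls' 632 346, kz, kz, kz⟩ | _ => ⟨kz, kz, kz, kz, kz, kz, kz, kz⟩
  RD := [lr 632 56, lr 632 57, lr 632 58]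
  RDp := kz
  RF := [lr 632 59, lr 632 60, lr 632 61]
  REp := kz
  κD := lr 632 62
  κE := lr 632 63
  c1 := lr 632 64
  c4 := lr 632 65
  nu := fun m => match m with | 0 => (fun i => match i with | 0 => ls' 632 73 | 1 => ls' 632 74 | 2 => ls' 632 75 + eK * ls' 632 78 | 4 => ls' 632 76 | 9 => ls' 632 77 | _ => kz) | 1 => (fun i => match i with | 0 => ls' 632 79 | 1 => ls' 632 80 | 2 => ls' 632 81 + eK * ls' 632 84 | 4 => ls' 632 82 | 9 => ls' 632 83 | _ => kz) | _ => fun _ => kz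
  du := fun m => match m with | 0 => (fun i => match i with | 0 => ls' 632 85 | 1 => ls' 632 86 | 2 => ls' 632 87 + eK * ls' 632 90 | 4 => ls' 632 88 | 9 => ls' 632 89 | _ => kz) | 1 => (fun i => match i with | 0 => ls' 632 91 | 1 => ls' 632 92 | 2 => ls' 632 93 + eK * ls' 632 96 | 4 => ls' 632 94 | 9 => ls' 632 95 | _ => kz) | _ => fun _ => kz
  sl := fun _ _ _ => kz
  us := fun _ _ _ => kz
  slp := fun _ _ => kz
  usp := fun _ _ => kz
  fe := fun k m => match k, m with | 1, 0 => [(lr 632 419 * (eX * hor eX [lr 632 1, lr 632 2, lr 632 3]), .f false .xhm), (lr 632 420 * (eX * hor eX [lr 632 1, lr 632 2, lr 632 3]), .f false .xqm), (lr 632 421 * (eX * hor eX [lr 632 1, lr 632 2, lr 632 3]), .f false .xsh), (lr 632 422 * (eX * hor eX [lr 632 1, lr 632 2, lr 632 3]), .f false .xsq), (lr 632 423 * (eX * hor eX [lr 632 1, lr 632 2, lr 632 3]), .f false .xsl), (lr 632 424 * (eX * hor eX [lr 632 1, lr 632 2, lr 632 3]), .f true .xhm), (lr 632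 425 * (eX * hor eX [lr 632 1, lr 632 2, lr 632 3]), .f true .xqm), (lr 632 426 * (eX * hor eX [lr 632 1, lr 632 2, lr 632 3]), .f true .xsh), (lr 632 427 * (eX * hor eX [lr 632 1, lr 632 2, lr 632 3]), .f true .xsq), (lr 632 428 * (eX * hor eX [lr 632 1, lr 632 2, lr 632 3]), .f true .xsl), (lr 632 429 * (eX * hor eX [lr 632 1, lr 632 2, lr 632 3]), .xa)] | 1, 1 => [(lr 632 430 * (eX * hor eX [lr 632 1, lr 632 2, lr 632 3]), .f false .xhm), (lr 632 431 * (eX * hor eX [lr 632 1, lr 632 2, lr 632 3]), .f false .xqm), (lr 632 432 * (eX * hor eX [lr 632 1, lr 632 2, lr 632 3]), .f false .xsh), (lr 632 433 * (eX * hor eX [lr 632 1, lr 632 2, lr 632 3]), .f false .xsq), (lr 632 434 * (eX * hor eX [lr 632 1, lr 632 2, lr 632 3]), .f false .xsl), (lr 632 435 * (eX * hor eX [lr 632 1, lr 632 2, lr 632 3]), .f true .xhm), (lr 632 436 * (eX * hor eX [lr 632 1, lr 632 2, lr 632 3]), .f true .xqm), (lr 632 437 * (eX * hor eX [lr 632 1, lr 632 2,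 lr 632 3]), .f true .xsh), (lr 632 438 * (eX * hor eX [lr 632 1, lr 632 2, lr 632 3]), .f true .xsq), (lr 632 439 * (eX * hor eX [lr 632 1, lr 632 2, lr 632 3]), .f true .xsl), (lr 632 440 * (eX * hor eX [lr 632 1, lr 632 2, lr 632 3]), .xa)] | 2, 0 => [(lr 632 441 * (eX * hor eX [lr 632 1, lr 632 2, lr 632 3]), .f false .xhm), (lr 632 442 * (eX * hor eX [lr 632 1, lr 632 2, lr 632 3]), .f false .xqm), (lr 632 443 * (eX * hor eX [lr 632 1, lr 632 2, lr 632 3]), .f false .xsh), (lr 632 444 * (eX * hor eX [lr 632 1, lr 632 2, lr 632 3]), .f false .xsq), (lr 632 445 * (eX * hor eX [lr 632 1, lr 632 2, lr 632 3]), .f false .xsl), (lr 632 446 * (eX * hor eX [lr 632 1, lr 632 2, lr 632 3]), .f true .xhm), (lr 632 447 * (eX * hor eX [lr 632 1, lr 632 2, lr 632 3]), .f true .xqm), (lr 632 448 * (eX * hor eX [lr 632 1, lr 632 2, lr 632 3]), .f true .xsh), (lr 632 449 * (eX * hor eX [lr 632 1, lr 632 2, lr 632 3]), .f true .xsq), (lr 632 450 *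 (eX * hor eX [lr 632 1, lr 632 2, lr 632 3]), .f true .xsl), (lr 632 451 * (eX * hor eX [lr 632 1, lr 632 2, lr 632 3]), .xa)] | 2, 1 => [(lr 632 452 * (eX * hor eX [lr 632 1, lr 632 2, lr 632 3]), .f false .xhm), (lr 632 453 * (eX * hor eX [lr 632 1, lr 632 2, lr 632 3]), .f false .xqm), (lr 632 454 * (eX * hor eX [lr 632 1, lr 632 2, lr 632 3]), .f false .xsh), (lr 632 455 * (eX * hor eX [lr 632 1, lr 632 2, lr 632 3]), .f false .xsq), (lr 632 456 * (eX * hor eX [lr 632 1, lr 632 2, lr 632 3]), .f false .xsl), (lr 632 457 * (eX * hor eX [lr 632 1, lr 632 2, lr 632 3]), .f true .xhm), (lr 632 458 * (eX * hor eX [lr 632 1, lr 632 2, lr 632 3]), .f true .xqm), (lr 632 459 * (eX * hor eX [lr 632 1, lr 632 2, lr 632 3]), .f true .xsh), (lr 632 460 * (eX * hor eX [lr 632 1, lr 632 2, lr 632 3]), .f true .xsq), (lr 632 461 * (eX * hor eX [lr 632 1, lr 632 2, lr 632 3]), .f true .xsl), (lr 632 462 * (eX * hor eX [lr 632 1, lr 632 2, lr 632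 3]), .xa)] | 3, 0 => [(lr 632 463 * (eX * hor eX [lr 632 1, lr 632 2, lr 632 3]), .f false .xhm), (lr 632 464 * (eX * hor eX [lr 632 1, lr 632 2, lr 632 3]), .f false .xqm), (lr 632 465 * (eX * hor eX [lr 632 1, lr 632 2, lr 632 3]), .f false .xsh), (lr 632 466 * (eX * hor eX [lr 632 1, lr 632 2, lr 632 3]), .f false .xsq), (lr 632 467 * (eX * hor eX [lr 632 1, lr 632 2, lr 632 3]), .f false .xsl), (lr 632 468 * (eX * hor eX [lr 632 1, lr 632 2, lr 632 3]), .f true .xhm), (lr 632 469 * (eX * hor eX [lr 632 1, lr 632 2, lr 632 3]), .f true .xqm), (lr 632 470 * (eX * hor eX [lr 632 1, lr 632 2, lr 632 3]), .f true .xsh), (lr 632 471 * (eX * hor eX [lr 632 1, lr 632 2, lr 632 3]), .f true .xsq), (lr 632 472 * (eX * hor eX [lr 632 1, lr 632 2, lr 632 3]), .f true .xsl), (lr 632 473 * (eX * hor eX [lr 632 1, lr 632 2, lr 632 3]), .xa)] | 3, 1 => [(lr 632 474 * (eX * hor eX [lr 632 1, lr 632 2, lr 632 3]), .f false .xhm), (lr 632 475 * (eX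 * hor eX [lr 632 1, lr 632 2, lr 632 3]), .f false .xqm), (lr 632 476 * (eX * hor eX [lr 632 1, lr 632 2, lr 632 3]), .f false .xsh), (lr 632 477 * (eX * hor eX [lr 632 1, lr 632 2, lr 632 3]), .f false .xsq), (lr 632 478 * (eX * hor eX [lr 632 1, lr 632 2, lr 632 3]), .f false .xsl), (lr 632 479 * (eX * hor eX [lr 632 1, lr 632 2, lr 632 3]), .f true .xhm), (lr 632 480 * (eX * hor eX [lr 632 1, lr 632 2, lr 632 3]), .f true .xqm), (lr 632 481 * (eX * hor eX [lr 632 1, lr 632 2, lr 632 3]), .f true .xsh), (lr 632 482 * (eX * hor eX [lr 632 1, lr 632 2, lr 632 3]), .f true .xsq), (lr 632 483 * (eX * hor eX [lr 632 1, lr 632 2, lr 632 3]), .f true .xsl), (lr 632 484 * (eX * hor eX [lr 632 1, lr 632 2, lr 632 3]), .xa)] | 6, 0 => [(lr 632 485 * eX, .f false .xhm), (lr 632 486 * eX, .f false .xqm), (lr 632 487 * eX, .f false .xsh), (lr 632 488 * eX, .f false .xsq), (lr 632 489 * eX, .f false .xsl)] | 6, 1 => [(lr 632 490 * eX, .f false .xhm),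 (lr 632 491 * eX, .f false .xqm), (lr 632 492 * eX, .f false .xsh), (lr 632 493 * eX, .f false .xsq), (lr 632 494 * eX, .f false .xsl)] | 7, 0 => [(lr 632 495, .f false .xhm), (lr 632 496, .f false .xqm), (lr 632 497, .f false .xsh), (lr 632 498, .f false .xsq), (lr 632 499, .f false .xsl)] | 7, 1 => [(lr 632 500, .f false .xhm), (lr 632 501, .f false .xqm), (lr 632 502, .f false .xsh), (lr 632 503, .f false .xsq), (lr 632 504, .f false .xsl)] | 8, 0 => [(lr 632 505, .f false .xhm), (lr 632 506, .f false .xqm), (lr 632 507, .f false .xsh), (lr 632 508, .f false .xsq), (lr 632 509, .f false .xsl)] | 8, 1 => [(lr 632 510, .f false .xhm), (lr 632 511, .f false .xqm), (lr 632 512, .f false .xsh), (lr 632 513, .f false .xsq), (lr 632 514, .f false .xsl)] | 9, 0 => [(lr 632 515, .f false .xhm), (lr 632 516, .f false .xqm), (lr 632 517, .f false .xsh), (lr 632 518, .f false .xsq), (lr 632 519, .f false .xsl)] | 9, 1 => [(lr 632 520, .f false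 .xhm), (lr 632 521, .f false .xqm), (lr 632 522, .f false .xsh), (lr 632 523, .f false .xsq), (lr 632 524, .f false .xsl)] | 10, 0 => [(lr 632 525, .f false .xhm), (lr 632 526, .f false .xqm), (lr 632 527, .f false .xsh), (lr 632 528, .f false .xsq), (lr 632 529, .f false .xsl)] | 10, 1 => [(lr 632 530, .f false .xhm), (lr 632 531, .f false .xqm), (lr 632 532, .f false .xsh), (lr 632 533, .f false .xsq), (lr 632 534, .f false .xsl)] | 11, 0 => [(lr 632 535, .f false .xhm), (lr 632 536, .f false .xqm), (lr 632 537, .f false .xsh), (lr 632 538, .f false .xsq), (lr 632 539, .f false .xsl)] | 11, 1 => [(lr 632 540, .f false .xhm), (lr 632 541, .f false .xqm), (lr 632 542, .f false .xsh), (lr 632 543, .f false .xsq), (lr 632 544, .f false .xsl)] | _, _ => []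
  ff := fun k m => match k, m with | 0, 0 => [(lr 632 545, .xhm), (lr 632 546, .xqm), (lr 632 547, .xsh), (lr 632 548, .xsq), (lr 632 549, .xsl)] | 1, 0 => [(lr 632 550, .xhm), (lr 632 551, .xqm), (lr 632 552, .xsh), (lr 632 553, .xsq), (lr 632 554, .xsl)] | 1, 1 => [(lr 632 555, .xhm), (lr 632 556, .xqm), (lr 632 557, .xsh), (lr 632 558, .xsq), (lr 632 559, .xsl)] | 2, 0 => [(lr 632 560, .xhm), (lr 632 561, .xqm), (lr 632 562, .xsh), (lr 632 563, .xsq), (lr 632 564, .xsl)] | 2, 1 => [(lr 632 565, .xhm), (lr 632 566, .xqm), (lr 632 567, .xsh), (lr 632 568, .xsq), (lr 632 569, .xsl)] | 3, 0 => [(lr 632 570, .xhm), (lr 632 571, .xqm), (lr 632 572, .xsh), (lr 632 573, .xsq), (lr 632 574, .xsl)] | 3, 1 => [(lr 632 575, .xhm), (lr 632 576, .xqm), (lr 632 577, .xsh), (lr 632 578, .xsq), (lr 632 579, .xsl)] | 4, 0 => [(lr 632 580, .xhm), (lr 632 581, .xqm), (lr 632 582, .xsh), (lr 632 583, .xsq), (lr 632 584, .xsl)] | 4, 1 => [(lr 632 585,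 .xhm), (lr 632 586, .xqm), (lr 632 587, .xsh), (lr 632 588, .xsq), (lr 632 589, .xsl)] | 5, 0 => [(lr 632 590, .xhm), (lr 632 591, .xqm), (lr 632 592, .xsh), (lr 632 593, .xsq), (lr 632 594, .xsl)] | 5, 1 => [(lr 632 595, .xhm), (lr 632 596, .xqm), (lr 632 597, .xsh), (lr 632 598, .xsq), (lr 632 599, .xsl)] | 6, 0 => [(lr 632 600, .xhm), (lr 632 601, .xqm), (lr 632 602, .xsh), (lr 632 603, .xsq), (lr 632 604, .xsl)] | 6, 1 => [(lr 632 605, .xhm), (lr 632 606, .xqm), (lr 632 607, .xsh), (lr 632 608, .xsq), (lr 632 609, .xsl)] | _, _ => []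
def tp : Tp1 where
  b := tpb
  R := 632
  iH := 0
  a := fun s m => match s with | true => (match m with | 0 => (fun i => match i with | 0 => some ⟨347, 348, 349⟩ | 1 => some ⟨350, 351, 352⟩ | 2 => some ⟨353, 354, 355⟩ | 4 => some ⟨356, 357, 358⟩ | 9 => some ⟨359, 360, 361⟩ | 15 => some ⟨362, 363, 364⟩ | _ => none) | 1 => (fun i => match i with | 0 => some ⟨365, 366, 367⟩ | 1 => some ⟨368, 369, 370⟩ | 2 => some ⟨371, 372, 373⟩ | 4 => some ⟨374, 375, 376⟩ | 9 => some ⟨377, 378, 379⟩ | 15 => some ⟨380, 381, 382⟩ | _ => none) | _ => fun _ => none) | false => (match m with | 0 => (fun i => match i with | 0 => some ⟨383, 384, 385⟩ | 1 => some ⟨386, 387, 388⟩ | 2 => some ⟨389, 390, 391⟩ | 4 => some ⟨392, 393, 394⟩ | 9 => some ⟨395, 396, 397⟩ | 15 => some ⟨398, 399, 400⟩ | _ => none) | 1 => (fun i => match i with | 0 => some ⟨401, 402, 403⟩ | 1 => some ⟨404, 405, 406⟩ | 2 => some ⟨407, 408, 409⟩ | 4 => some ⟨410, 411, 412⟩ | 9 => some ⟨413,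 414, 415⟩ | 15 => some ⟨416, 417, 418⟩ | _ => none) | _ => fun _ => none)
  cp := fun _ _ => none

def kp : Kp1 where
  R := 632
  iH := 0
  yn := 5462
  yk := 16
  RR := [lr 632 1, lr 632 2, lr 632 3]
  N := 3
  H := fun i => match i with | 0 => some ⟨38, 39, 40⟩ | 1 => some ⟨41, 42, 43⟩ | 2 => some ⟨44, 45, 46⟩ | _ => none
  E := fun i => match i with | 0 => some ⟨47, 48, 49⟩ | 1 => some ⟨50, 51, 52⟩ | 2 => some ⟨53, 54, 55⟩ | _ => none
  RD := [lr 632 56, lr 632 57, lr 632 58]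
  RF := [lr 632 59, lr 632 60, lr 632 61]
  κD := lr 632 62
  κE := lr 632 63
  c1 := lr 632 64
  c4 := lr 632 65
  S1 := lr 632 66
  S2 := lr 632 67
  κ := lr 632 68
  Mt := lr 632 69
  m := lr 632 70
  me := lr 632 71
  qd := true
  rl := true
  iP := 72

def v1 : Vl1 where
  R := 632
  iH := 0
  a := tt.a true 0
  cp := none
  S := lr 632 66
  fe := [(lr 632 610, .f false .xhm), (lr 632 611, .f false .xqm), (lr 632 612, .f false .xsh), (lr 632 613, .f false .xsq), (lr 632 614, .f false .xsl)]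

def v2 : Vl1 where
  R := 632
  iH := 0
  a := tp.a true 1
  cp := none
  S := lr 632 67
  fe := [(lr 632 615, .f false .xhm), (lr 632 616, .f false .xqm), (lr 632 617, .f false .xsh), (lr 632 618, .f false .xsq), (lr 632 619, .f false .xsl)]

def nu : ℕ → ℕ → Option ℕ := fun m => match m with | 0 => (fun i => match i with | 0 => some 73 | 1 => some 74 | 2 => some 75 | 4 => some 76 | 9 => some 77 | 15 => some 78 | _ => none) | 1 => (fun i => match i with | 0 => some 79 | 1 => some 80 | 2 => some 81 | 4 => some 82 | 9 => some 83 | 15 => some 84 | _ => none) | _ => fun _ => none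

def du : ℕ → ℕ → Option ℕ := fun m => match m with | 0 => (fun i => match i with | 0 => some 85 | 1 => some 86 | 2 => some 87 | 4 => some 88 | 9 => some 89 | 15 => some 90 | _ => none) | 1 => (fun i => match i with | 0 => some 91 | 1 => some 92 | 2 => some 93 | 4 => some 94 | 9 => some 95 | 15 => some 96 | _ => none) | _ => fun _ => none

def v3 : Vl1 where
  R := 632
  iH := 0
  a := cfu (du 1)
  cp := none
  S := kr 72
  fe := [(lr 632 620, .f false .xhm), (lr 632 621, .f false .xqm), (lr 632 622, .f false .xsh), (lr 632 623, .f false .xsq), (lr 632 624, .f false .xsl)]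

/-- **the record** -/
def X : Sb1 where
  tt := tt
  tp := tp
  kp := kp
  v1 := v1
  v2 := v2
  v3 := v3
  nu := nu
  du := du
  iS1 := 66
  iS2 := 67
  iκ := 68
  im := 70

/-- all lines -/
def sh : Sheet := X.sheet

theorem w1 (p : Pt) : (X.tp.b.w1 1).fn p = 1 := by
  have h : (X.tp.b.w1 1).fn p = frm (fun _ => ((0 : ℕ) : ℝ)) p + hv (min (p.k / kS) 1) (cz [1]) / 2 ^ 0 := rfl
  rw [h]
  simp [frm, hv, cz]

theorem fit : X.Fit (0 : Fin 1) (1 : Fin 2) where
  R1 := rfl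
  H1 := rfl
  R2 := rfl
  H2 := rfl
  Ra := rfl
  Ha := rfl
  Rb := rfl
  Hb := rfl
  Rc := rfl
  Hc := rfl
  pRR := rfl
  pW := rfl
  pWp := rfl
  pRD := rfl
  pRF := rfl
  pκD := rfl
  pκE := rfl
  pc1 := rfl
  pc4 := rfl
  kRR := rfl
  kRD := rfl
  kRF := rfl
  kκD := rfl
  kκE := rfl
  kc1 := rfl
  kc4 := rfl
  a1 := rfl
  p1 := rfl
  s1 := rfl
  a2 := rfl
  p2 := rfl
  s2 := rfl
  a3 := rfl
  p3 := rfl
  s3 := rfl
  eS1 := rfl
  eS2 := rfl
  eκ := rfl
  em := rfl
  w1 := w1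

end Pool.Agent.RZ.RCO.SBr
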