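import Pool.Agent.RZ.RCO.Gg7
import Pool.Agent.RZ.RCO.SA
import Pool.Agent.RZ.RCO.SAs
import Pool.Agent.RZ.RCO.SBk
import Pool.Agent.RZ.RCO.SBr

/-! The records of the systems of the cells (MP_73ccd0_lc). -/

set_option autoImplicit false
set_option maxRecDepth 100000

namespace Pool.Agent.RZ.RCO.SC

open Sg

/-- the pairs -/
def F : Cr where
  x := SA.x
  l1 := (1 : Fin 2)
  X := SBk.X
  j0 := (0 : Fin 1)
  m0 := (1 : Fin 2)
  il := fun l => l
  im := fun l => l
  LX := [(0, 0), (1, 2), (2, 3), (3, 4), (4, 5), (5, 6), (6, 7), (10, 55), (11, 56), (12, 57), (13, 58), (14, 59), (15, 60), (16, 91), (17, 92), (18, 93), (19, 94), (20, 95), (21, 96), (22, 73), (23, 74), (24, 75), (25, 76), (26, 77), (27, 78), (28, 109), (29, 110), (30, 111), (31, 112), (32, 113), (33, 114)]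
  LA := [(0, 0), (1, 1), (2, 2), (3, 3), (4, 4), (5, 5), (6, 6), (10, 10), (11, 11), (12, 12), (13, 13), (14, 14), (15, 15), (16, 16), (17, 17), (18, 18), (19, 19), (20, 20), (21, 21), (22, 22), (23, 23), (24, 24), (25, 25), (26, 26), (27, 27), (28, 28), (29, 29), (30, 30), (31, 31), (32, 32), (33, 33), (62, 62), (63, 63), (64, 64), (65, 65), (247, 247), (248, 248), (249, 249), (250, 250), (251, 251), (252, 252), (253, 253), (254, 254), (255, 255), (256, 256), (257, 257), (258, 258), (259, 259), (260, 260), (261, 261), (262, 262), (263, 263), (264, 264), (265, 265), (266, 266), (267, 267), (268, 268), (269, 269), (270, 270), (271, 271), (272, 272), (273, 273), (274, 274)]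
  Y := SBr.X
  j1 := (0 : Fin 1)
  m1 := (1 : Fin 2)
  il' := fun l => l
  im' := fun l => l
  LY := [(0, 0), (1, 2), (2, 3), (3, 4), (4, 5), (5, 6), (6, 7), (10, 55), (11, 56), (12, 57), (13, 58), (14, 59), (15, 60), (16, 91), (17, 92), (18, 93), (19, 94), (20, 95), (21, 96), (22, 73), (23, 74), (24, 75), (25, 76), (26, 77), (27, 78), (28, 109), (29, 110), (30, 111), (31, 112), (32, 113), (33, 114)]

/-- the stars -/
def Fs : Cr where
  x := SAs.x
  l1 := (1 : Fin 2)
  X := SBk.X
  j0 := (0 : Fin 1)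
  m0 := (1 : Fin 2)
  il := fun l => l
  im := fun l => l
  LX := [(0, 0), (1, 2), (2, 3), (3, 4), (4, 5), (5, 6), (6, 7), (10, 24), (11, 25), (12, 26), (13, 27), (14, 28), (15, 29), (16, 60), (17, 61), (18, 62), (19, 63), (20, 64), (21, 65), (22, 42), (23, 43), (24, 44), (25, 45), (26, 46), (27, 47), (28, 78), (29, 79), (30, 80), (31, 81), (32, 82), (33, 83)]
  LA := [(0, 0), (1, 1), (2, 2), (3, 3), (4, 4), (5, 5), (6, 6), (10, 10), (11, 11), (12, 12), (13, 13), (14, 14), (15, 15), (16, 16), (17, 17), (18, 18), (19, 19), (20, 20), (21, 21), (22, 22), (23, 23), (24, 24), (25, 25), (26, 26), (27, 27), (28, 28), (29, 29), (30, 30), (31, 31), (32, 32), (33, 33), (62, 62), (63, 63), (64, 64), (65, 65), (247, 247), (248, 248), (249, 249), (250, 250), (251, 251), (252, 252), (253, 253), (254, 254), (255, 255), (256, 256), (257, 257), (258, 258), (259, 259), (260, 260), (261, 261), (262, 262), (263, 263), (264, 264), (265, 265), (266, 266), (267, 267), (268, 268), (269, 269), (270, 270),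 (271, 271), (272, 272), (273, 273), (274, 274)]
  Y := SBr.X
  j1 := (0 : Fin 1)
  m1 := (1 : Fin 2)
  il' := fun l => l
  im' := fun l => l
  LY := [(0, 0), (1, 2), (2, 3), (3, 4), (4, 5), (5, 6), (6, 7), (10, 24), (11, 25), (12, 26), (13, 27), (14, 28), (15, 29), (16, 60), (17, 61), (18, 62), (19, 63), (20, 64), (21, 65), (22, 42), (23, 43), (24, 44), (25, 45), (26, 46), (27, 47), (28, 78), (29, 79), (30, 80), (31, 81), (32, 82), (33, 83)]

theorem F_X : F.okX = true := by decide +kernel
theorem F_Y : F.okY = true := by decide +kernel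
theorem F_ok : F.Ok := Cr.ok_of SBk.fit SBr.fit F_X F_Y

theorem Fs_X : Fs.okX = true := by decide +kernel
theorem Fs_Y : Fs.okY = true := by decide +kernel
theorem Fs_ok : Fs.Ok := Cr.ok_of SBk.fit SBr.fit Fs_X Fs_Y

end Pool.Agent.RZ.RCO.SC
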