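import Pool.Agent.RZ.RCO.Gg9
import Pool.Agent.RZ.RCO.SAdA
import Pool.Agent.RZ.RCO.SB0K
import Pool.Agent.RZ.RCO.SB0R
import Pool.Agent.RZ.RCO.SCr

/-! The tables of a cell (MP_73ccd0_lc). -/

set_option autoImplicit false
set_option maxRecDepth 100000

namespace Pool.Agent.RZ.RCO.SC0

open Sg

def a : ℕ → ℕ := fun l => match l with | 0 => 0 | _ => 1
def K : ℕ → ℕ := fun l => match l with | 0 => 0 | _ => SB0K1.D
def R : ℕ → ℕ := fun l => match l with | 0 => 0 | _ => SB0R1.D

/-- the data of the cell -/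
def c : Cdc := ⟨SA0.D, 1, 1, a, K, R⟩

theorem bK1 : SC.F.bK SB0K1.D 1 SA0.D = true := by decide +kernel
theorem bR0 : SC.F.bR SB0R1.D 1 SA0.D 0 = true := by decide +kernel
theorem mo : SC.F.X.moD SB0K1.D 1 = true := by decide +kernel

theorem sx : ∀ j < 1, SC.F.x.sheet.At SA0.D SC.F.x.R j := fun j hj => Sheet.At.left (Sheet.At.right (SA0.rowsSAL j hj))

/-- **the checks of the data** -/
theorem dat : SC.F.Dat c where
  hm := Tp12.msh sx
  nc := by decide
  a0 := rfl
  an := rfl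
  lt := lowS low0 (by decide)
  sK := allS all0 SB0K1.rows
  bK := allS all0 bK1
  bN := nbr0
  mo := mo
  sR := allS all0 SB0R1.rows
  bR := lowS low0 bR0

end Pool.Agent.RZ.RCO.SC0
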