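import Pool.Agent.RZ.RCO.RecKc
import Pool.Agent.RZ.RCO.SCr

/-! The records of the sums of level 2 of the cells (MP_73ccd0_lc). -/

set_option autoImplicit false
set_option maxRecDepth 100000

namespace Pool.Agent.RZ.RCO.SC

/-- the pairs -/
def r : Crk := RecK.rk

/-- the stars -/
def rs : Crk := RecK.rk

theorem r_okC : Crk.OkC F r := RecK.okC rfl rfl
theorem r_okR : Crk.OkR F r := RecK.okR rfl rfl
theorem rs_okC : Crk.OkC Fs rs := RecK.okC rfl rfl

end Pool.Agent.RZ.RCO.SC
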