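import Pool.Agent.RZ.RCO.KD0
import Pool.Agent.RZ.RCO.SC0
import Pool.Agent.RZ.RCO.SCk

/-! The sums of level 2 of a cell (MP_73ccd0_lc). -/

set_option autoImplicit false
set_option maxRecDepth 100000

namespace Pool.Agent.RZ.RCO.SK0

open Sg

def d12 : ℕ → ℕ := fun l => match l with | 0 => 0 | _ => K12_0_1.D
def d13 : ℕ → ℕ := fun l => match l with | 0 => 0 | _ => K13_0_1.D
def d21 : ℕ → ℕ := fun l => match l with | 0 => 0 | _ => K21_0_1.D
def d31 : ℕ → ℕ := fun l => match l with | 0 => 0 | _ => K31_0_1.D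

/-- the data of the sums of level 2 -/
def e : Cdk := ⟨d12, d13, d21, d31⟩

theorem b12_1 : SC.r.r12.bZ SC.F.X SC.F.X K12_0_1.D 1 SB0K1.D SB0K1.D = true := by decide +kernel
theorem b13_1 : SC.r.r13.bE SC.F.X SC.F.Y K13_0_1.D 1 SB0K1.D SB0R1.D = true := by decide +kernel
theorem b21_1 : SC.r.r21.bZ SC.F.X SC.F.X K21_0_1.D 1 SB0K1.D SB0K1.D = true := by decide +kernel
theorem b31_1 : SC.r.r31.bE SC.F.Y SC.F.X K31_0_1.D 1 SB0R1.D SB0K1.D = true := by decide +kernel

/-- **the checks of the data**, columns -/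
theorem datC : Crk.DatC SC.F SC0.c SC.r e where
  s12 := allS all0 K12_0_1.rows
  b12 := allS all0 b12_1
  g12 := nbr0
  s13 := allS all0 K13_0_1.rows
  b13 := allS all0 b13_1

/-- **the checks of the data**, rows -/
theorem datR : Crk.DatR SC.F SC0.c SC.r e where
  s21 := allS all0 K21_0_1.rows
  b21 := allS all0 b21_1
  s31 := allS all0 K31_0_1.rows
  b31 := allS all0 b31_1

end Pool.Agent.RZ.RCO.SK0
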