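import Pool.Agent.RZ.RCO.EdG
import Pool.Agent.RZ.RCO.EdM
import Pool.Agent.RZ.RCO.SK0

/-! Generated: the end of the big cell 0, pairs (MP_73ccd0_lc). -/

set_option autoImplicit false
set_option maxRecDepth 100000

open Pool.Agent.RZ.RCO

namespace Pool.Agent.RZ.RCO.EC0

def qA : ℕ → ℤ := fun l => match l with
  | 0 => 0
  | 1 => 838864
  | _ => 0

def q : Ec0 := ⟨1, 838864, 838864, qA, 335544⟩

def djH : ℕ → ℕ := fun l => match l with
  | 0 => 838864
  | _ => 0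

def djR : ℕ → ℕ := fun l => match l with
  | 0 => 16777216
  | _ => 0

def djW : ℕ → ℕ := fun l => match l with
  | 0 => 16917738
  | _ => 0

def djK : ℕ → ℕ := fun l => match l with
  | 0 => 0
  | 1 => 1
  | _ => 0

def dj : Dj := ⟨1, djH, djR, djW, 1, djK, 838864⟩

def kK : ℕ → ℕ := fun l => match l with
  | 0 => 0
  | 1 => 1
  | _ => 0

def tT : ℕ → ℤ := fun l => match l with
  | 0 => 0
  | 1 => 838864
  | _ => 0

theorem qo : q.ok = true := by decide +kernel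
theorem djo : dj.ok = true := by decide +kernel
theorem djt : dj.tie 2048 SC0.c.D 744 0 2 3 4 5 3 = true := by decide +kernel
theorem djr : dj.rel q = true := by decide +kernel
theorem rel : q.Rel (RTab.tabq 1) 0 := Ec0.relB_of (by decide +kernel)

def clo : ℕ → (ℕ → ℤ) := fun l => match l with
  | 0 => v6 2150 21314 19277 (-2075) (-450) 982
  | _ => fun _ => 0

def chi : ℕ → (ℕ → ℤ) := fun l => match l with
  | 0 => v6 0 0 0 0 0 0
  | _ => fun _ => 0

def clo1 : ℕ → ℤ := v6 0 0 0 0 0 0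

def cJ0 : ℕ → ℤ := fun l => match l with
  | 0 => 0
  | 1 => 0
  | _ => 0

def cJ1 : ℕ → ℤ := fun l => match l with
  | 0 => 0
  | 1 => 0
  | _ => 0

def cF0 : ℕ → ℤ := fun l => match l with
  | 0 => 0
  | 1 => 0
  | _ => 0

def cF1 : ℕ → ℤ := fun l => match l with
  | 0 => 0
  | 1 => 0
  | _ => 0

def cHm0 : ℕ → ℤ := fun l => match l with
  | 0 => 838864
  | _ => 0

def cHm1 : ℕ → ℤ := fun l => match l with
  | 0 => 0
  | _ => 0

def cHp : ℕ → ℤ := fun l => match l with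
  | 0 => 0
  | _ => 0

def ctg : ℕ → ℕ → ℤ := fun l => match l with
  | 0 => fun i => match i with | 0 => 0 | 1 => 0 | 2 => 0 | 3 => 0 | 4 => 0 | 5 => 0 | 6 => 0 | 7 => 0 | _ => 0
  | _ => fun _ => 0

def cML : ℕ → E4 := fun l => match l with
  | 0 => ⟨2122200, 0, 2143775, 0⟩
  | _ => ⟨0, 0, 0, 0⟩

def cPL : ℕ → E4 := fun l => match l with
  | 0 => ⟨4264050, 0, 4285634, 0⟩
  | _ => ⟨0, 0, 0, 0⟩

def cMF : ℕ → E4 := fun l => match l with
  | 0 => ⟨46315750, 0, 46516500, 0⟩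
  | _ => ⟨0, 0, 0, 0⟩

def cPF : ℕ → E4 := fun l => match l with
  | 0 => ⟨4265050, 0, 4288184, 0⟩
  | _ => ⟨0, 0, 0, 0⟩

def cu : EhN := ⟨kK, tT, clo, chi, clo1, cJ0, cJ1, cF0, cF1, cHm0, cHm1, cHp, ctg, cML, cPL, cMF, cPF⟩

def ctn : ℕ → ℤ := fun l => match l with
  | 0 => 0
  | 1 => 0
  | 2 => 0
  | 3 => 0
  | 4 => 0
  | 5 => 0
  | _ => 0

noncomputable def ch : Ehk := SC.F.xc SC0.c RecK.rk SK0.e cu

theorem ccd : ch.cd.ck q = true := by decide +kernel
theorem cLS : (ch.L false (RTab.rr RT.kCL 0)).ckS q = true := by decide +kernel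
theorem cLT : (ch.L false (RTab.rr RT.kCL 0)).ckT q = true := by decide +kernel
theorem cFS : (ch.F false (RTab.rr RT.kCF 0)).ckS q = true := by decide +kernel
theorem cFT : (ch.F false (RTab.rr RT.kCF 0)).ckT q = true := by decide +kernel
theorem cj : ch.ckJ q.n dj 84899 92033 = true := by decide +kernel
theorem cms : ch.msB q.n = true := by decide +kernel
theorem cnl : ch.nck false q 84899 92033 7105 ctn = true := by decide +kernel
theorem cz : ch.ckZk q false (RTab.rr RT.kCL 0) (RTab.rr RT.kCF 0) = true := by decide +kernel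

/-- **the checks of the numbers** -/
theorem cH : HCel ch q false dj 84899 92033 (RTab.rr RT.kCL 0) (RTab.rr RT.kCF 0) 0 :=
  ⟨⟨qo, ccd, rfl, rfl, rfl, cLS, cLT, cFS, cFT⟩, Ehk.msB_of cms, cj, fun _ => cz⟩

def rlo : ℕ → (ℕ → ℤ) := fun l => match l with
  | 0 => v6 2193 21102 19085 (-2050) (-230) 1077
  | _ => fun _ => 0

def rhi : ℕ → (ℕ → ℤ) := fun l => match l with
  | 0 => v6 0 0 0 0 0 0
  | _ => fun _ => 0

def rlo1 : ℕ → ℤ := v6 0 0 0 0 0 0

def rJ0 : ℕ → ℤ := fun l => match l with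
  | 0 => 0
  | 1 => 0
  | _ => 0

def rJ1 : ℕ → ℤ := fun l => match l with
  | 0 => 0
  | 1 => 0
  | _ => 0

def rF0 : ℕ → ℤ := fun l => match l with
  | 0 => 0
  | 1 => 0
  | _ => 0

def rF1 : ℕ → ℤ := fun l => match l with
  | 0 => 0
  | 1 => 0
  | _ => 0

def rHm0 : ℕ → ℤ := fun l => match l with
  | 0 => 838864
  | _ => 0

def rHm1 : ℕ → ℤ := fun l => match l with
  | 0 => 0
  | _ => 0

def rHp : ℕ → ℤ := fun l => match l with
  | 0 => 0
  | _ => 0

def rtg : ℕ → ℕ → ℤ := fun l => match l with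
  | 0 => fun i => match i with | 0 => 0 | 1 => 0 | 2 => 0 | 3 => 0 | 4 => 0 | 5 => 0 | 6 => 0 | 7 => 0 | _ => 0
  | _ => fun _ => 0

def rML : ℕ → E4 := fun l => match l with
  | 0 => ⟨2136200, 0, 2140084, 0⟩
  | _ => ⟨0, 0, 0, 0⟩

def rPL : ℕ → E4 := fun l => match l with
  | 0 => ⟨4264050, 0, 4285634, 0⟩
  | _ => ⟨0, 0, 0, 0⟩

def rMF : ℕ → E4 := fun l => match l with
  | 0 => ⟨46317800, 0, 46515242, 0⟩
  | _ => ⟨0, 0, 0, 0⟩

def rPF : ℕ → E4 := fun l => match l with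
  | 0 => ⟨4264950, 0, 4286542, 0⟩
  | _ => ⟨0, 0, 0, 0⟩

def ru : EhN := ⟨kK, tT, rlo, rhi, rlo1, rJ0, rJ1, rF0, rF1, rHm0, rHm1, rHp, rtg, rML, rPL, rMF, rPF⟩

def rtn : ℕ → ℤ := fun l => match l with
  | 0 => 0
  | 1 => 0
  | 2 => 0
  | 3 => 0
  | 4 => 0
  | 5 => 0
  | _ => 0

noncomputable def rh : Ehk := SC.F.xr SC0.c RecK.rk SK0.e ru

theorem rcd : rh.cd.ck q = true := by decide +kernel
theorem rLS : (rh.L false (RTab.rr RT.kRL 0)).ckS q = true := by decide +kernel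
theorem rLT : (rh.L false (RTab.rr RT.kRL 0)).ckT q = true := by decide +kernel
theorem rFS : (rh.F false (RTab.rr RT.kRF 0)).ckS q = true := by decide +kernel
theorem rFT : (rh.F false (RTab.rr RT.kRF 0)).ckT q = true := by decide +kernel
theorem rj : rh.ckJ q.n dj 84899 92033 = true := by decide +kernel
theorem rms : rh.msB q.n = true := by decide +kernel
theorem rnl : rh.nck false q 84899 92033 7105 rtn = true := by decide +kernel
theorem rz : rh.ckZk q false (RTab.rr RT.kRL 0) (RTab.rr RT.kRF 0) = true := by decide +kernel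

/-- **the checks of the numbers** -/
theorem rH : HCel rh q false dj 84899 92033 (RTab.rr RT.kRL 0) (RTab.rr RT.kRF 0) 0 :=
  ⟨⟨qo, rcd, rfl, rfl, rfl, rLS, rLT, rFS, rFT⟩, Ehk.msB_of rms, rj, fun _ => rz⟩

/-- **the pairs** -/
theorem pc : PCel ch rh q dj 84899 92033 RTab.rr 0 := ⟨cH, rH, rfl, rfl⟩

end Pool.Agent.RZ.RCO.EC0
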