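import Pool.Agent.RZ.RCO.EdG
import Pool.Agent.RZ.RCO.EdM
import Pool.Agent.RZ.RCO.SK1

/-! Generated: the end of the big cell 1, pairs (MP_73ccd0_lc). -/

set_option autoImplicit false
set_option maxRecDepth 100000

open Pool.Agent.RZ.RCO

namespace Pool.Agent.RZ.RCO.EC1

def qA : ℕ → ℤ := fun l => match l with
  | 0 => 0
  | 1 => 939552
  | 2 => 1185600
  | 3 => 1431664
  | 4 => 1677728
  | _ => 0

def q : Ec0 := ⟨4, 1677728, 939552, qA, 0⟩

def djH : ℕ → ℕ := fun l => match l with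
  | 0 => 939552
  | 1 => 61512
  | 2 => 61512
  | 3 => 61512
  | 4 => 61512
  | 5 => 61516
  | 6 => 61516
  | 7 => 61516
  | 8 => 61516
  | 9 => 61516
  | 10 => 61516
  | 11 => 61516
  | 12 => 61516
  | _ => 0

def djR : ℕ → ℕ := fun l => match l with
  | 0 => 16777216
  | 1 => 16777216
  | 2 => 16777216
  | 3 => 16777216
  | 4 => 16777216
  | 5 => 16777216
  | 6 => 16777216
  | 7 => 16777216
  | 8 => 16777216
  | 9 => 16777216
  | 10 => 16777216
  | 11 => 16777216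
  | 12 => 16777216
  | _ => 0

def djW : ℕ → ℕ := fun l => match l with
  | 0 => 17059730
  | 1 => 16900774
  | 2 => 16890439
  | 3 => 16880111
  | 4 => 16869790
  | 5 => 16859478
  | 6 => 16849171
  | 7 => 16838871
  | 8 => 16828578
  | 9 => 16818292
  | 10 => 16808013
  | 11 => 16797741
  | 12 => 16787475
  | _ => 0

def djK : ℕ → ℕ := fun l => match l with
  | 0 => 0
  | 1 => 1
  | 2 => 5
  | 3 => 9
  | 4 => 13
  | _ => 0

def dj : Dj := ⟨13, djH, djR, djW, 4, djK, 939552⟩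

def kK : ℕ → ℕ := fun l => match l with
  | 0 => 0
  | 1 => 1
  | 2 => 5
  | 3 => 9
  | 4 => 13
  | _ => 0

def tT : ℕ → ℤ := fun l => match l with
  | 0 => 0
  | 1 => 939552
  | 2 => 1001064
  | 3 => 1062576
  | 4 => 1124088
  | 5 => 1185600
  | 6 => 1247116
  | 7 => 1308632
  | 8 => 1370148
  | 9 => 1431664
  | 10 => 1493180
  | 11 => 1554696
  | 12 => 1616212
  | 13 => 1677728
  | _ => 0

theorem qo : q.ok = true := by decide +kernel
theorem djo : dj.ok = true := by decide +kernel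
theorem djt : dj.tie 2048 SC1.c.D 744 0 2 3 4 5 3 = true := by decide +kernel
theorem djr : dj.rel q = true := by decide +kernel
theorem rel : q.Rel (RTab.tabq 1) 1 := Ec0.relB_of (by decide +kernel)

def clo : ℕ → (ℕ → ℤ) := fun l => match l with
  | 0 => v6 3327 85388 82635 (-2533) (-769) 5921
  | 1 => v6 322 16354 16484 359 292 639
  | 2 => v6 150 7302 7228 6 69 207
  | 3 => v6 92 1858 1847 77 85 93
  | _ => fun _ => 0

def chi : ℕ → (ℕ → ℤ) := fun l => match l with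
  | 0 => v6 309 16354 16484 359 292 639
  | 1 => v6 163 7302 7228 (-4) 68 207
  | 2 => v6 66 1858 1847 56 57 69
  | 3 => v6 26 0 0 31 29 24
  | _ => fun _ => 0

def clo1 : ℕ → ℤ := v6 309 16354 16484 359 292 639

def cJ0 : ℕ → ℤ := fun l => match l with
  | 0 => 0
  | 1 => 0
  | 2 => 0
  | 3 => 0
  | 4 => 0
  | _ => 0

def cJ1 : ℕ → ℤ := fun l => match l with
  | 0 => 0
  | 1 => 0
  | 2 => 0
  | 3 => 0
  | 4 => 0
  | _ => 0

def cF0 : ℕ → ℤ := fun l => match l with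
  | 0 => 0
  | 1 => 0
  | 2 => 0
  | 3 => 0
  | 4 => 0
  | _ => 0

def cF1 : ℕ → ℤ := fun l => match l with
  | 0 => 0
  | 1 => 0
  | 2 => 0
  | 3 => 0
  | 4 => 0
  | _ => 0

def cHm0 : ℕ → ℤ := fun l => match l with
  | 0 => 1677728
  | 1 => 738176
  | 2 => 492128
  | 3 => 246064
  | _ => 0

def cHm1 : ℕ → ℤ := fun l => match l with
  | 0 => 738176
  | 1 => 738176
  | 2 => 492128
  | 3 => 246064
  | _ => 0

def cHp : ℕ → ℤ := fun l => match l with
  | 0 => 738176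
  | 1 => 492128
  | 2 => 246064
  | 3 => 0
  | _ => 0

def ctg : ℕ → ℕ → ℤ := fun l => match l with
  | 0 => fun i => match i with | 0 => 0 | 1 => 0 | 2 => 0 | 3 => 0 | 4 => 0 | 5 => 5 | 6 => 0 | 7 => 5 | _ => 0
  | 1 => fun i => match i with | 0 => 0 | 1 => 0 | 2 => 0 | 3 => 0 | 4 => 0 | 5 => 2 | 6 => 0 | 7 => 3 | _ => 0
  | 2 => fun i => match i with | 0 => 0 | 1 => 0 | 2 => 0 | 3 => 0 | 4 => 0 | 5 => 0 | 6 => 0 | 7 => 0 | _ => 0
  | 3 => fun i => match i with | 0 => 0 | 1 => 0 | 2 => 0 | 3 => 0 | 4 => 0 | 5 => 0 | 6 => 0 | 7 => 0 | _ => 0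
  | _ => fun _ => 0

def cML : ℕ → E4 := fun l => match l with
  | 0 => ⟨4308300, 828300, 4382484, 834375⟩
  | 1 => ⟨7051400, 828300, 7125592, 834375⟩
  | 2 => ⟨6473150, 925200, 6547425, 931609⟩
  | 3 => ⟨7455400, 1198200, 7529742, 1204675⟩
  | _ => ⟨0, 0, 0, 0⟩

def cPL : ℕ → E4 := fun l => match l with
  | 0 => ⟨7051400, 828300, 7125592, 834375⟩
  | 1 => ⟨6473150, 925200, 6547425, 931609⟩
  | 2 => ⟨7455400, 1198200, 7529742, 1204675⟩
  | 3 => ⟨8621000, 1652450, 8695334, 1658925⟩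
  | _ => ⟨0, 0, 0, 0⟩

def cMF : ℕ → E4 := fun l => match l with
  | 0 => ⟨91112894, 37808986, 91910541, 37952487⟩
  | 1 => ⟨43399307, 37951397, 43611616, 38095460⟩
  | 2 => ⟨32069750, 25812200, 32205775, 25879642⟩
  | 3 => ⟨20929050, 13960400, 21019142, 13982442⟩
  | _ => ⟨0, 0, 0, 0⟩

def cPF : ℕ → E4 := fun l => match l with
  | 0 => ⟨43984352, 37808986, 44206712, 37952487⟩
  | 1 => ⟨31089280, 25563322, 31226188, 25631353⟩
  | 2 => ⟨19762350, 13504800, 19853009, 13526875⟩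
  | 3 => ⟨8622550, 1653900, 8697159, 1660459⟩
  | _ => ⟨0, 0, 0, 0⟩

def cu : EhN := ⟨kK, tT, clo, chi, clo1, cJ0, cJ1, cF0, cF1, cHm0, cHm1, cHp, ctg, cML, cPL, cMF, cPF⟩

def ctn : ℕ → ℤ := fun l => match l with
  | 0 => 0
  | 1 => 0
  | 2 => 0
  | 3 => 0
  | 4 => 0
  | 5 => 0
  | _ => 0

noncomputable def ch : Ehk := SC.F.xc SC1.c RecK.rk SK1.e cu

theorem ccd : ch.cd.ck q = true := by decide +kernel
theorem cLS : (ch.L false (RTab.rr RT.kCL 1)).ckS q = true := by decide +kernel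
theorem cLT : (ch.L false (RTab.rr RT.kCL 1)).ckT q = true := by decide +kernel
theorem cFS : (ch.F false (RTab.rr RT.kCF 1)).ckS q = true := by decide +kernel
theorem cFT : (ch.F false (RTab.rr RT.kCF 1)).ckT q = true := by decide +kernel
theorem cj : ch.ckJ q.n dj 170590 199196 = true := by decide +kernel
theorem cms : ch.msB q.n = true := by decide +kernel
theorem cnl : ch.nck false q 170590 199196 28600 ctn = true := by decide +kernel

/-- **the checks of the numbers** -/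
theorem cH : HCel ch q false dj 170590 199196 (RTab.rr RT.kCL 1) (RTab.rr RT.kCF 1) 1 :=
  ⟨⟨qo, ccd, rfl, rfl, rfl, cLS, cLT, cFS, cFT⟩, Ehk.msB_of cms, cj, fun h => absurd h (by decide)⟩

def rlo : ℕ → (ℕ → ℤ) := fun l => match l with
  | 0 => v6 3497 84595 82471 (-2097) (-177) 6246
  | 1 => v6 324 16370 16579 315 179 569
  | 2 => v6 149 7300 7225 9 77 213
  | 3 => v6 90 1858 1847 78 87 95
  | _ => fun _ => 0

def rhi : ℕ → (ℕ → ℤ) := fun l => match l with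
  | 0 => v6 312 16370 16579 315 179 569
  | 1 => v6 161 7300 7225 (-1) 76 213
  | 2 => v6 65 1858 1847 57 59 71
  | 3 => v6 25 0 0 31 29 24
  | _ => fun _ => 0

def rlo1 : ℕ → ℤ := v6 312 16370 16579 315 179 569

def rJ0 : ℕ → ℤ := fun l => match l with
  | 0 => 0
  | 1 => 0
  | 2 => 0
  | 3 => 0
  | 4 => 0
  | _ => 0

def rJ1 : ℕ → ℤ := fun l => match l with
  | 0 => 0
  | 1 => 0
  | 2 => 0
  | 3 => 0
  | 4 => 0
  | _ => 0

def rF0 : ℕ → ℤ := fun l => match l with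
  | 0 => 0
  | 1 => 0
  | 2 => 0
  | 3 => 0
  | 4 => 0
  | _ => 0

def rF1 : ℕ → ℤ := fun l => match l with
  | 0 => 0
  | 1 => 0
  | 2 => 0
  | 3 => 0
  | 4 => 0
  | _ => 0

def rHm0 : ℕ → ℤ := fun l => match l with
  | 0 => 1677728
  | 1 => 738176
  | 2 => 492128
  | 3 => 246064
  | _ => 0

def rHm1 : ℕ → ℤ := fun l => match l with
  | 0 => 738176
  | 1 => 738176
  | 2 => 492128
  | 3 => 246064
  | _ => 0

def rHp : ℕ → ℤ := fun l => match l with
  | 0 => 738176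
  | 1 => 492128
  | 2 => 246064
  | 3 => 0
  | _ => 0

def rtg : ℕ → ℕ → ℤ := fun l => match l with
  | 0 => fun i => match i with | 0 => 0 | 1 => 0 | 2 => 0 | 3 => 0 | 4 => 0 | 5 => 5 | 6 => 0 | 7 => 5 | _ => 0
  | 1 => fun i => match i with | 0 => 0 | 1 => 0 | 2 => 0 | 3 => 0 | 4 => 0 | 5 => 3 | 6 => 0 | 7 => 3 | _ => 0
  | 2 => fun i => match i with | 0 => 0 | 1 => 0 | 2 => 0 | 3 => 0 | 4 => 0 | 5 => 0 | 6 => 0 | 7 => 0 | _ => 0
  | 3 => fun i => match i with | 0 => 0 | 1 => 0 | 2 => 0 | 3 => 0 | 4 => 0 | 5 => 0 | 6 => 0 | 7 => 0 | _ => 0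
  | _ => fun _ => 0

def rML : ℕ → E4 := fun l => match l with
  | 0 => ⟨4348300, 831250, 4370867, 833642⟩
  | 1 => ⟨7050700, 831250, 7118117, 833642⟩
  | 2 => ⟨6486550, 927650, 6540517, 930692⟩
  | 3 => ⟨7461500, 1199300, 7525400, 1203825⟩
  | _ => ⟨0, 0, 0, 0⟩

def rPL : ℕ → E4 := fun l => match l with
  | 0 => ⟨7050700, 831250, 7118117, 833642⟩
  | 1 => ⟨6486550, 927650, 6540517, 930692⟩
  | 2 => ⟨7461500, 1199300, 7525400, 1203825⟩
  | 3 => ⟨8621000, 1652450, 8695334, 1658925⟩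
  | _ => ⟨0, 0, 0, 0⟩

def rMF : ℕ → E4 := fun l => match l with
  | 0 => ⟨91128471, 37813264, 91901217, 37952918⟩
  | 1 => ⟨43413972, 37954226, 43604430, 38095046⟩
  | 2 => ⟨32076150, 25813450, 32200917, 25878825⟩
  | 3 => ⟨20928900, 13960250, 21018734, 13982217⟩
  | _ => ⟨0, 0, 0, 0⟩

def rPF : ℕ → E4 := fun l => match l with
  | 0 => ⟨43991587, 37813264, 44195787, 37952918⟩
  | 1 => ⟨31103424, 25565564, 31218298, 25630306⟩
  | 2 => ⟨19768750, 13506050, 19848167, 13526075⟩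
  | 3 => ⟨8622450, 1653800, 8696800, 1660284⟩
  | _ => ⟨0, 0, 0, 0⟩

def ru : EhN := ⟨kK, tT, rlo, rhi, rlo1, rJ0, rJ1, rF0, rF1, rHm0, rHm1, rHp, rtg, rML, rPL, rMF, rPF⟩

def rtn : ℕ → ℤ := fun l => match l with
  | 0 => 0
  | 1 => 0
  | 2 => 0
  | 3 => 0
  | 4 => 0
  | 5 => 0
  | _ => 0

noncomputable def rh : Ehk := SC.F.xr SC1.c RecK.rk SK1.e ru

theorem rcd : rh.cd.ck q = true := by decide +kernel
theorem rLS : (rh.L false (RTab.rr RT.kRL 1)).ckS q = true := by decide +kernel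
theorem rLT : (rh.L false (RTab.rr RT.kRL 1)).ckT q = true := by decide +kernel
theorem rFS : (rh.F false (RTab.rr RT.kRF 1)).ckS q = true := by decide +kernel
theorem rFT : (rh.F false (RTab.rr RT.kRF 1)).ckT q = true := by decide +kernel
theorem rj : rh.ckJ q.n dj 170590 199196 = true := by decide +kernel
theorem rms : rh.msB q.n = true := by decide +kernel
theorem rnl : rh.nck false q 170590 199196 28600 rtn = true := by decide +kernel

/-- **the checks of the numbers** -/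
theorem rH : HCel rh q false dj 170590 199196 (RTab.rr RT.kRL 1) (RTab.rr RT.kRF 1) 1 :=
  ⟨⟨qo, rcd, rfl, rfl, rfl, rLS, rLT, rFS, rFT⟩, Ehk.msB_of rms, rj, fun h => absurd h (by decide)⟩

/-- **the pairs** -/
theorem pc : PCel ch rh q dj 170590 199196 RTab.rr 1 := ⟨cH, rH, rfl, rfl⟩

end Pool.Agent.RZ.RCO.EC1
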