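import Pool.Agent.RZ.RCO.SALL
import Pool.Agent.RZ.RCO.SAdC_1

/-! Tables (MP_73ccd0_lc). -/

set_option autoImplicit false
set_option maxRecDepth 100000

open Pool.Agent.RZ.RCO Pool.Agent.RZ.RCO.Sg

namespace Pool.Agent.RZ.RCO.SA9

theorem dSAL_0 : stepc SAL.f0 744 1488 D 0 23 = true := by decide +kernel
theorem dSAL_1 : stepc SAL.f1 744 1488 D 0 23 = true := by decide +kernel
theorem dSAL_2 : stepc SAL.f2 744 1488 D 0 23 = true := by decide +kernel

theorem rowsSAL : ∀ j < 23, (SA.sheet).At D 744 j := SAL.lay.at fun a ha => by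
  simp only [SAL.L, List.mem_cons, List.not_mem_nil, or_false] at ha
  rcases ha with rfl | rfl | rfl
  exacts [dSAL_0, dSAL_1, dSAL_2]

theorem ok0 : SA.x0.okE D 23 = true := by decide +kernel
theorem okE : SA.x.okE D 23 = true := by decide +kernel
theorem okH : SA.xh.okE D 23 = true := by decide +kernel

end Pool.Agent.RZ.RCO.SA9

namespace Pool.Agent.RZ.RCO.SA10

theorem dSAL_0 : stepc SAL.f0 744 1488 D 0 23 = true := by decide +kernel
theorem dSAL_1 : stepc SAL.f1 744 1488 D 0 23 = true := by decide +kernel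
theorem dSAL_2 : stepc SAL.f2 744 1488 D 0 23 = true := by decide +kernel

theorem rowsSAL : ∀ j < 23, (SA.sheet).At D 744 j := SAL.lay.at fun a ha => by
  simp only [SAL.L, List.mem_cons, List.not_mem_nil, or_false] at ha
  rcases ha with rfl | rfl | rfl
  exacts [dSAL_0, dSAL_1, dSAL_2]

theorem ok0 : SA.x0.okE D 23 = true := by decide +kernel
theorem okE : SA.x.okE D 23 = true := by decide +kernel
theorem okH : SA.xh.okE D 23 = true := by decide +kernel

end Pool.Agent.RZ.RCO.SA10

namespace Pool.Agent.RZ.RCO.SA11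

theorem dSAL_0 : stepc SAL.f0 744 1488 D 0 24 = true := by decide +kernel
theorem dSAL_1 : stepc SAL.f1 744 1488 D 0 24 = true := by decide +kernel
theorem dSAL_2 : stepc SAL.f2 744 1488 D 0 24 = true := by decide +kernel

theorem rowsSAL : ∀ j < 24, (SA.sheet).At D 744 j := SAL.lay.at fun a ha => by
  simp only [SAL.L, List.mem_cons, List.not_mem_nil, or_false] at ha
  rcases ha with rfl | rfl | rfl
  exacts [dSAL_0, dSAL_1, dSAL_2]

theorem ok0 : SA.x0.okE D 24 = true := by decide +kernel
theorem okE : SA.x.okE D 24 = true := by decide +kernel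
theorem okH : SA.xh.okE D 24 = true := by decide +kernel

end Pool.Agent.RZ.RCO.SA11

namespace Pool.Agent.RZ.RCO.SA12

theorem dSAL_0 : stepc SAL.f0 744 1488 D 0 24 = true := by decide +kernel
theorem dSAL_1 : stepc SAL.f1 744 1488 D 0 24 = true := by decide +kernel
theorem dSAL_2 : stepc SAL.f2 744 1488 D 0 24 = true := by decide +kernel

theorem rowsSAL : ∀ j < 24, (SA.sheet).At D 744 j := SAL.lay.at fun a ha => by
  simp only [SAL.L, List.mem_cons, List.not_mem_nil, or_false] at ha
  rcases ha with rfl | rfl | rfl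
  exacts [dSAL_0, dSAL_1, dSAL_2]

theorem ok0 : SA.x0.okE D 24 = true := by decide +kernel
theorem okE : SA.x.okE D 24 = true := by decide +kernel
theorem okH : SA.xh.okE D 24 = true := by decide +kernel

end Pool.Agent.RZ.RCO.SA12
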