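import Pool.Agent.RZ.RCO.Gk13
import Pool.Agent.RZ.RCO.SBk

/-! Types of a sheet, piece 1 (MP_73ccd0_lc). -/

set_option autoImplicit false
set_option maxRecDepth 100000
set_option linter.all false

namespace Pool.Agent.RZ.RCO.SBkL

open Sg

noncomputable def t1 : List Ty :=
 [⟨(.sub (.mul (.add (.mul (.mul (.c 1024) (.s 2 87 600 2)) (.w 0 1)) (.mul (.mul (.c 171) (.v 0)) (.s 2 90 600 2))) (.c 1)) (.mul (.mul (.c 1024) (.add (.mul (.r 2 232 600 2) (.sub (.c 0) (.mul (.c 12) (.c 1)))) (.add (.mul (.r 2 234 600 2) (.c 1)) (.mul (.r 2 236 600 2) (.sub (.c 0) (.mul (.c 12) (.c 1))))))) (.w 0 1))), 49, 2, 1, 2, 1⟩,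
  ⟨(.sub (.mul (.s 2 88 600 2) (.c 1)) (.add (.mul (.r 2 233 600 2) (.sub (.c 0) (.mul (.c 12) (.c 1)))) (.add (.mul (.r 2 235 600 2) (.mul (.c 2) (.c 1))) (.mul (.r 2 236 600 2) (.sub (.c 0) (.mul (.c 24) (.c 1))))))), 39, 1, 1, 2, 1⟩,
  ⟨(.sub (.mul (.s 2 89 600 2) (.c 1)) (.add (.mul (.r 2 234 600 2) (.sub (.c 0) (.mul (.c 12) (.c 1)))) (.add (.mul (.r 2 235 600 2) (.sub (.c 0) (.mul (.c 12) (.c 1)))) (.mul (.r 2 236 600 2) (.mul (.c 144) (.c 1)))))), 41, 1, 1, 2, 1⟩,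
  ⟨(.sub (.sub (.mul (.mul (.mul (.c 288230376151711744) (.add (.mul (.r 2 91 600 2) (.mul (.c 1) (.add (.mul (.c 853) (.w 0 1)) (.mul (.c 171) (.q 0))))) (.mul (.mul (.c 1024) (.mul (.r 2 92 600 2) (.u 0 [1]))) (.w 0 1)))) (.w 0 5)) (.w 2 2)) (.mul (.add (.mul (.q 2) (.r 0 4 1 3)) (.mul (.v 2) (.r 0 604 1 3))) (.add (.mul (.add (.mul (.q 2) (.r 0 7 1 3)) (.mul (.v 2) (.r 0 607 1 3))) (.add (.mul (.mul (.c 1024) (.mul (.s 2 73 600 2) (.add (.mul (.c 853) (.w 0 1)) (.mul (.c 171) (.q 0))))) (.w 0 1)) (.mul (.s 2 74 600 2) (.mul (.mul (.c 171) (.v 0)) (.add (.mul (.c 853) (.w 0 1)) (.mul (.c 171) (.q 0))))))) (.mul (.mul (.mul (.c 17179869184) (.mul (.s 2 103 600 2) (.add (.mul (.c 853) (.w 0 1)) (.mul (.c 171) (.q 0))))) (.w 0 3)) (.w 2 1))))) (.mul (.mul (.mul (.c 288230376151711744) (.add (.mul (.r 2 237 600 2) (.mul (.c 2) (.add (.mul (.c 853) (.w 0 1)) (.mul (.c 171) (.q 0))))) (.add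 (.mul (.r 2 238 600 2) (.add (.mul (.c 853) (.w 0 1)) (.mul (.c 171) (.q 0)))) (.mul (.r 2 241 600 2) (.mul (.c 2) (.add (.mul (.c 853) (.w 0 1)) (.mul (.c 171) (.q 0)))))))) (.w 0 5)) (.w 2 2))), 125, 7, 1, 4, 1⟩,
  ⟨(.sub (.sub (.mul (.mul (.c 0) (.w 0 5)) (.w 2 3)) (.mul (.add (.mul (.q 2) (.r 0 4 1 3)) (.mul (.v 2) (.r 0 604 1 3))) (.add (.mul (.add (.mul (.q 2) (.r 0 7 1 3)) (.mul (.v 2) (.r 0 607 1 3))) (.mul (.add (.mul (.mul (.c 1024) (.s 2 75 600 2)) (.w 0 1)) (.mul (.mul (.c 171) (.v 0)) (.s 2 78 600 2))) (.c 1))) (.mul (.mul (.mul (.c 17179869184) (.mul (.s 2 104 600 2) (.c 1))) (.w 0 3)) (.w 2 1))))) (.mul (.mul (.mul (.c 288230376151711744) (.add (.mul (.r 2 237 600 2) (.sub (.c 0) (.mul (.c 12) (.c 1)))) (.add (.mul (.r 2 239 600 2) (.c 1)) (.mul (.r 2 241 600 2) (.sub (.c 0) (.mul (.c 12) (.c 1))))))) (.w 0 5)) (.w 2 2))), 114, 6, 1, 4, 1⟩,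
  ⟨(.sub (.sub (.mul (.mul (.c 0) (.w 0 4)) (.w 2 3)) (.mul (.add (.mul (.q 2) (.r 0 4 1 3)) (.mul (.v 2) (.r 0 604 1 3))) (.add (.mul (.add (.mul (.q 2) (.r 0 7 1 3)) (.mul (.v 2) (.r 0 607 1 3))) (.mul (.s 2 76 600 2) (.c 1))) (.mul (.mul (.mul (.c 16777216) (.mul (.s 2 105 600 2) (.c 1))) (.w 0 2)) (.w 2 1))))) (.mul (.mul (.mul (.c 281474976710656) (.add (.mul (.r 2 238 600 2) (.sub (.c 0) (.mul (.c 12) (.c 1)))) (.add (.mul (.r 2 240 600 2) (.mul (.c 2) (.c 1))) (.mul (.r 2 241 600 2) (.sub (.c 0) (.mul (.c 24) (.c 1))))))) (.w 0 4)) (.w 2 2))), 103, 5, 1, 4, 1⟩,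
  ⟨(.sub (.sub (.mul (.mul (.c 0) (.w 0 4)) (.w 2 3)) (.mul (.add (.mul (.q 2) (.r 0 4 1 3)) (.mul (.v 2) (.r 0 604 1 3))) (.add (.mul (.add (.mul (.q 2) (.r 0 7 1 3)) (.mul (.v 2) (.r 0 607 1 3))) (.mul (.s 2 77 600 2) (.c 1))) (.mul (.mul (.mul (.c 16777216) (.mul (.s 2 106 600 2) (.c 1))) (.w 0 2)) (.w 2 1))))) (.mul (.mul (.mul (.c 281474976710656) (.add (.mul (.r 2 239 600 2) (.sub (.c 0) (.mul (.c 12) (.c 1)))) (.add (.mul (.r 2 240 600 2) (.sub (.c 0) (.mul (.c 12) (.c 1)))) (.mul (.r 2 241 600 2) (.mul (.c 144) (.c 1)))))) (.w 0 4)) (.w 2 2))), 103, 5, 1, 4, 1⟩,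
  ⟨(.sub (.sub (.mul (.mul (.mul (.c 288230376151711744) (.add (.mul (.r 2 93 600 2) (.mul (.c 1) (.add (.mul (.c 853) (.w 0 1)) (.mul (.c 171) (.q 0))))) (.mul (.mul (.c 1024) (.mul (.r 2 94 600 2) (.u 0 [1]))) (.w 0 1)))) (.w 0 5)) (.w 2 2)) (.mul (.add (.mul (.q 2) (.r 0 4 1 3)) (.mul (.v 2) (.r 0 604 1 3))) (.add (.mul (.add (.mul (.q 2) (.r 0 7 1 3)) (.mul (.v 2) (.r 0 607 1 3))) (.add (.mul (.mul (.c 1024) (.mul (.s 2 85 600 2) (.add (.mul (.c 853) (.w 0 1)) (.mul (.c 171) (.q 0))))) (.w 0 1)) (.mul (.s 2 86 600 2) (.mul (.mul (.c 171) (.v 0)) (.add (.mul (.c 853) (.w 0 1)) (.mul (.c 171) (.q 0))))))) (.mul (.mul (.mul (.c 17179869184) (.mul (.s 2 107 600 2) (.add (.mul (.c 853) (.w 0 1)) (.mul (.c 171) (.q 0))))) (.w 0 3)) (.w 2 1))))) (.mul (.mul (.mul (.c 288230376151711744) (.add (.mul (.r 2 242 600 2) (.mul (.c 2) (.add (.mul (.c 853) (.w 0 1)) (.mul (.c 171) (.q 0))))) (.add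 (.mul (.r 2 243 600 2) (.add (.mul (.c 853) (.w 0 1)) (.mul (.c 171) (.q 0)))) (.mul (.r 2 246 600 2) (.mul (.c 2) (.add (.mul (.c 853) (.w 0 1)) (.mul (.c 171) (.q 0)))))))) (.w 0 5)) (.w 2 2))), 125, 7, 1, 4, 1⟩,
  ⟨(.sub (.sub (.mul (.mul (.c 0) (.w 0 5)) (.w 2 3)) (.mul (.add (.mul (.q 2) (.r 0 4 1 3)) (.mul (.v 2) (.r 0 604 1 3))) (.add (.mul (.add (.mul (.q 2) (.r 0 7 1 3)) (.mul (.v 2) (.r 0 607 1 3))) (.mul (.add (.mul (.mul (.c 1024) (.s 2 87 600 2)) (.w 0 1)) (.mul (.mul (.c 171) (.v 0)) (.s 2 90 600 2))) (.c 1))) (.mul (.mul (.mul (.c 17179869184) (.mul (.s 2 108 600 2) (.c 1))) (.w 0 3)) (.w 2 1))))) (.mul (.mul (.mul (.c 288230376151711744) (.add (.mul (.r 2 242 600 2) (.sub (.c 0) (.mul (.c 12) (.c 1)))) (.add (.mul (.r 2 244 600 2) (.c 1)) (.mul (.r 2 246 600 2) (.sub (.c 0) (.mul (.c 12) (.c 1))))))) (.w 0 5)) (.w 2 2))), 114, 6, 1, 4, 1⟩,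
  ⟨(.sub (.sub (.mul (.mul (.c 0) (.w 0 4)) (.w 2 3)) (.mul (.add (.mul (.q 2) (.r 0 4 1 3)) (.mul (.v 2) (.r 0 604 1 3))) (.add (.mul (.add (.mul (.q 2) (.r 0 7 1 3)) (.mul (.v 2) (.r 0 607 1 3))) (.mul (.s 2 88 600 2) (.c 1))) (.mul (.mul (.mul (.c 16777216) (.mul (.s 2 109 600 2) (.c 1))) (.w 0 2)) (.w 2 1))))) (.mul (.mul (.mul (.c 281474976710656) (.add (.mul (.r 2 243 600 2) (.sub (.c 0) (.mul (.c 12) (.c 1)))) (.add (.mul (.r 2 245 600 2) (.mul (.c 2) (.c 1))) (.mul (.r 2 246 600 2) (.sub (.c 0) (.mul (.c 24) (.c 1))))))) (.w 0 4)) (.w 2 2))), 103, 5, 1, 4, 1⟩,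
  ⟨(.sub (.sub (.mul (.mul (.c 0) (.w 0 4)) (.w 2 3)) (.mul (.add (.mul (.q 2) (.r 0 4 1 3)) (.mul (.v 2) (.r 0 604 1 3))) (.add (.mul (.add (.mul (.q 2) (.r 0 7 1 3)) (.mul (.v 2) (.r 0 607 1 3))) (.mul (.s 2 89 600 2) (.c 1))) (.mul (.mul (.mul (.c 16777216) (.mul (.s 2 110 600 2) (.c 1))) (.w 0 2)) (.w 2 1))))) (.mul (.mul (.mul (.c 281474976710656) (.add (.mul (.r 2 244 600 2) (.sub (.c 0) (.mul (.c 12) (.c 1)))) (.add (.mul (.r 2 245 600 2) (.sub (.c 0) (.mul (.c 12) (.c 1)))) (.mul (.r 2 246 600 2) (.mul (.c 144) (.c 1)))))) (.w 0 4)) (.w 2 2))), 103, 5, 1, 4, 1⟩,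
  ⟨(.sub (.sub (.mul (.c 1024) (.add (.mul (.q 2) (.r 0 7 1 3)) (.mul (.v 2) (.r 0 607 1 3)))) (.mul (.mul (.s 2 34 600 2) (.add (.mul (.c 853) (.w 0 1)) (.mul (.c 171) (.q 0)))) (.w 0 1))) (.mul (.add (.mul (.r 2 521 600 2) (.mul (.c 2) (.add (.mul (.c 853) (.w 0 1)) (.mul (.c 171) (.q 0))))) (.add (.mul (.r 2 522 600 2) (.add (.mul (.c 853) (.w 0 1)) (.mul (.c 171) (.q 0)))) (.mul (.r 2 525 600 2) (.mul (.c 2) (.add (.mul (.c 853) (.w 0 1)) (.mul (.c 171) (.q 0))))))) (.w 0 1))), 48, 3, 1, 2, 1⟩,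
  ⟨(.sub (.sub (.mul (.c 0) (.w 2 1)) (.mul (.s 2 35 600 2) (.c 1))) (.add (.mul (.r 2 521 600 2) (.sub (.c 0) (.mul (.c 12) (.c 1)))) (.add (.mul (.r 2 523 600 2) (.c 1)) (.mul (.r 2 525 600 2) (.sub (.c 0) (.mul (.c 12) (.c 1))))))), 38, 1, 1, 2, 1⟩,
  ⟨(.sub (.sub (.mul (.c 0) (.w 2 1)) (.mul (.s 2 36 600 2) (.c 1))) (.add (.mul (.r 2 522 600 2) (.sub (.c 0) (.mul (.c 12) (.c 1)))) (.add (.mul (.r 2 524 600 2) (.mul (.c 2) (.c 1))) (.mul (.r 2 525 600 2) (.sub (.c 0) (.mul (.c 24) (.c 1))))))), 39, 1, 1, 2, 1⟩,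
  ⟨(.sub (.sub (.mul (.c 0) (.w 2 1)) (.mul (.s 2 37 600 2) (.c 1))) (.add (.mul (.r 2 523 600 2) (.sub (.c 0) (.mul (.c 12) (.c 1)))) (.add (.mul (.r 2 524 600 2) (.sub (.c 0) (.mul (.c 12) (.c 1)))) (.mul (.r 2 525 600 2) (.mul (.c 144) (.c 1)))))), 41, 1, 1, 2, 1⟩,
  ⟨(.sub (.add (.mul (.mul (.c 1024) (.mul (.s 2 10 600 2) (.add (.mul (.c 853) (.w 0 1)) (.mul (.c 171) (.q 0))))) (.w 0 1)) (.mul (.s 2 11 600 2) (.mul (.mul (.c 171) (.v 0)) (.add (.mul (.c 853) (.w 0 1)) (.mul (.c 171) (.q 0)))))) (.mul (.mul (.c 1024) (.add (.mul (.r 2 526 600 2) (.mul (.c 2) (.add (.mul (.c 853) (.w 0 1)) (.mul (.c 171) (.q 0))))) (.add (.mul (.r 2 527 600 2) (.add (.mul (.c 853) (.w 0 1)) (.mul (.c 171) (.q 0)))) (.mul (.r 2 530 600 2) (.mul (.c 2) (.add (.mul (.c 853) (.w 0 1)) (.mul (.c 171) (.q 0)))))))) (.w 0 1))), 58, 3, 1, 2, 1⟩,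
  ⟨(.sub (.mul (.add (.mul (.mul (.c 1024) (.s 2 12 600 2)) (.w 0 1)) (.mul (.mul (.c 171) (.v 0)) (.s 2 15 600 2))) (.c 1)) (.mul (.mul (.c 1024) (.add (.mul (.r 2 526 600 2) (.sub (.c 0) (.mul (.c 12) (.c 1)))) (.add (.mul (.r 2 528 600 2) (.c 1)) (.mul (.r 2 530 600 2) (.sub (.c 0) (.mul (.c 12) (.c 1))))))) (.w 0 1))), 49, 2, 1, 2, 1⟩,
  ⟨(.sub (.mul (.s 2 13 600 2) (.c 1)) (.add (.mul (.r 2 527 600 2) (.sub (.c 0) (.mul (.c 12) (.c 1)))) (.add (.mul (.r 2 529 600 2) (.mul (.c 2) (.c 1))) (.mul (.r 2 530 600 2) (.sub (.c 0) (.mul (.c 24) (.c 1))))))), 39, 1, 1, 2, 1⟩,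
  ⟨(.sub (.mul (.s 2 14 600 2) (.c 1)) (.add (.mul (.r 2 528 600 2) (.sub (.c 0) (.mul (.c 12) (.c 1)))) (.add (.mul (.r 2 529 600 2) (.sub (.c 0) (.mul (.c 12) (.c 1)))) (.mul (.r 2 530 600 2) (.mul (.c 144) (.c 1)))))), 41, 1, 1, 2, 1⟩,
  ⟨(.sub (.add (.mul (.mul (.c 1024) (.mul (.s 2 16 600 2) (.add (.mul (.c 853) (.w 0 1)) (.mul (.c 171) (.q 0))))) (.w 0 1)) (.mul (.s 2 17 600 2) (.mul (.mul (.c 171) (.v 0)) (.add (.mul (.c 853) (.w 0 1)) (.mul (.c 171) (.q 0)))))) (.mul (.mul (.c 1024) (.add (.mul (.r 2 536 600 2) (.mul (.c 2) (.add (.mul (.c 853) (.w 0 1)) (.mul (.c 171) (.q 0))))) (.add (.mul (.r 2 537 600 2) (.add (.mul (.c 853) (.w 0 1)) (.mul (.c 171) (.q 0)))) (.mul (.r 2 540 600 2) (.mul (.c 2) (.add (.mul (.c 853) (.w 0 1)) (.mul (.c 171) (.q 0)))))))) (.w 0 1))), 58, 3, 1, 2, 1⟩,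
  ⟨(.sub (.mul (.add (.mul (.mul (.c 1024) (.s 2 18 600 2)) (.w 0 1)) (.mul (.mul (.c 171) (.v 0)) (.s 2 21 600 2))) (.c 1)) (.mul (.mul (.c 1024) (.add (.mul (.r 2 536 600 2) (.sub (.c 0) (.mul (.c 12) (.c 1)))) (.add (.mul (.r 2 538 600 2) (.c 1)) (.mul (.r 2 540 600 2) (.sub (.c 0) (.mul (.c 12) (.c 1))))))) (.w 0 1))), 49, 2, 1, 2, 1⟩,
  ⟨(.sub (.mul (.s 2 19 600 2) (.c 1)) (.add (.mul (.r 2 537 600 2) (.sub (.c 0) (.mul (.c 12) (.c 1)))) (.add (.mul (.r 2 539 600 2) (.mul (.c 2) (.c 1))) (.mul (.r 2 540 600 2) (.sub (.c 0) (.mul (.c 24) (.c 1))))))), 39, 1, 1, 2, 1⟩,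
  ⟨(.sub (.mul (.s 2 20 600 2) (.c 1)) (.add (.mul (.r 2 538 600 2) (.sub (.c 0) (.mul (.c 12) (.c 1)))) (.add (.mul (.r 2 539 600 2) (.sub (.c 0) (.mul (.c 12) (.c 1)))) (.mul (.r 2 540 600 2) (.mul (.c 144) (.c 1)))))), 41, 1, 1, 2, 1⟩,
  ⟨(.sub (.sub (.mul (.mul (.mul (.c 288230376151711744) (.add (.mul (.r 2 259 600 2) (.mul (.c 1) (.add (.mul (.c 853) (.w 0 1)) (.mul (.c 171) (.q 0))))) (.mul (.mul (.c 1024) (.mul (.r 2 260 600 2) (.u 0 [1]))) (.w 0 1)))) (.w 0 5)) (.w 2 2)) (.mul (.add (.mul (.q 2) (.r 0 4 1 3)) (.mul (.v 2) (.r 0 604 1 3))) (.add (.mul (.add (.mul (.q 2) (.r 0 7 1 3)) (.mul (.v 2) (.r 0 607 1 3))) (.add (.mul (.mul (.c 1024) (.mul (.s 2 16 600 2) (.add (.mul (.c 853) (.w 0 1)) (.mul (.c 171) (.q 0))))) (.w 0 1)) (.mul (.s 2 17 600 2) (.mul (.mul (.c 171) (.v 0)) (.add (.mul (.c 853) (.w 0 1)) (.mul (.c 171) (.q 0))))))) (.mul (.mul (.mul (.c 17179869184) (.mul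 (.s 2 275 600 2) (.add (.mul (.c 853) (.w 0 1)) (.mul (.c 171) (.q 0))))) (.w 0 3)) (.w 2 1))))) (.mul (.mul (.mul (.c 288230376151711744) (.add (.mul (.r 2 546 600 2) (.mul (.c 2) (.add (.mul (.c 853) (.w 0 1)) (.mul (.c 171) (.q 0))))) (.add (.mul (.r 2 547 600 2) (.add (.mul (.c 853) (.w 0 1)) (.mul (.c 171) (.q 0)))) (.mul (.r 2 550 600 2) (.mul (.c 2) (.add (.mul (.c 853) (.w 0 1)) (.mul (.c 171) (.q 0)))))))) (.w 0 5)) (.w 2 2))), 125, 7, 1, 4, 1⟩,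
  ⟨(.sub (.sub (.mul (.mul (.c 0) (.w 0 5)) (.w 2 3)) (.mul (.add (.mul (.q 2) (.r 0 4 1 3)) (.mul (.v 2) (.r 0 604 1 3))) (.add (.mul (.add (.mul (.q 2) (.r 0 7 1 3)) (.mul (.v 2) (.r 0 607 1 3))) (.mul (.add (.mul (.mul (.c 1024) (.s 2 18 600 2)) (.w 0 1)) (.mul (.mul (.c 171) (.v 0)) (.s 2 21 600 2))) (.c 1))) (.mul (.mul (.mul (.c 17179869184) (.mul (.s 2 276 600 2) (.c 1))) (.w 0 3)) (.w 2 1))))) (.mul (.mul (.mul (.c 288230376151711744) (.add (.mul (.r 2 546 600 2) (.sub (.c 0) (.mul (.c 12) (.c 1)))) (.add (.mul (.r 2 548 600 2) (.c 1)) (.mul (.r 2 550 600 2) (.sub (.c 0) (.mul (.c 12) (.c 1))))))) (.w 0 5)) (.w 2 2))), 114, 6, 1, 4, 1⟩,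
  ⟨(.sub (.sub (.mul (.mul (.c 0) (.w 0 4)) (.w 2 3)) (.mul (.add (.mul (.q 2) (.r 0 4 1 3)) (.mul (.v 2) (.r 0 604 1 3))) (.add (.mul (.add (.mul (.q 2) (.r 0 7 1 3)) (.mul (.v 2) (.r 0 607 1 3))) (.mul (.s 2 19 600 2) (.c 1))) (.mul (.mul (.mul (.c 16777216) (.mul (.s 2 277 600 2) (.c 1))) (.w 0 2)) (.w 2 1))))) (.mul (.mul (.mul (.c 281474976710656) (.add (.mul (.r 2 547 600 2) (.sub (.c 0) (.mul (.c 12) (.c 1)))) (.add (.mul (.r 2 549 600 2) (.mul (.c 2) (.c 1))) (.mul (.r 2 550 600 2) (.sub (.c 0) (.mul (.c 24) (.c 1))))))) (.w 0 4)) (.w 2 2))), 103, 5, 1, 4, 1⟩,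
  ⟨(.sub (.sub (.mul (.mul (.c 0) (.w 0 4)) (.w 2 3)) (.mul (.add (.mul (.q 2) (.r 0 4 1 3)) (.mul (.v 2) (.r 0 604 1 3))) (.add (.mul (.add (.mul (.q 2) (.r 0 7 1 3)) (.mul (.v 2) (.r 0 607 1 3))) (.mul (.s 2 20 600 2) (.c 1))) (.mul (.mul (.mul (.c 16777216) (.mul (.s 2 278 600 2) (.c 1))) (.w 0 2)) (.w 2 1))))) (.mul (.mul (.mul (.c 281474976710656) (.add (.mul (.r 2 548 600 2) (.sub (.c 0) (.mul (.c 12) (.c 1)))) (.add (.mul (.r 2 549 600 2) (.sub (.c 0) (.mul (.c 12) (.c 1)))) (.mul (.r 2 550 600 2) (.mul (.c 144) (.c 1)))))) (.w 0 4)) (.w 2 2))), 103, 5, 1, 4, 1⟩,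
  ⟨(.sub (.sub (.mul (.mul (.mul (.c 288230376151711744) (.add (.mul (.r 2 263 600 2) (.mul (.c 1) (.add (.mul (.c 853) (.w 0 1)) (.mul (.c 171) (.q 0))))) (.mul (.mul (.c 1024) (.mul (.r 2 264 600 2) (.u 0 [1]))) (.w 0 1)))) (.w 0 5)) (.w 2 2)) (.mul (.add (.mul (.q 2) (.r 0 4 1 3)) (.mul (.v 2) (.r 0 604 1 3))) (.add (.mul (.add (.mul (.q 2) (.r 0 7 1 3)) (.mul (.v 2) (.r 0 607 1 3))) (.add (.mul (.mul (.c 1024) (.mul (.s 2 10 600 2) (.add (.mul (.c 853) (.w 0 1)) (.mul (.c 171) (.q 0))))) (.w 0 1)) (.mul (.s 2 11 600 2) (.mul (.mul (.c 171) (.v 0)) (.add (.mul (.c 853) (.w 0 1)) (.mul (.c 171) (.q 0))))))) (.mul (.mul (.mul (.c 17179869184) (.mul (.s 2 283 600 2) (.add (.mul (.c 853) (.w 0 1)) (.mul (.c 171) (.q 0))))) (.w 0 3)) (.w 2 1))))) (.mul (.mul (.mul (.c 288230376151711744) (.add (.mul (.r 2 556 600 2) (.mul (.c 2) (.add (.mul (.c 853) (.w 0 1)) (.mul (.c 171) (.q 0)))))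 (.add (.mul (.r 2 557 600 2) (.add (.mul (.c 853) (.w 0 1)) (.mul (.c 171) (.q 0)))) (.mul (.r 2 560 600 2) (.mul (.c 2) (.add (.mul (.c 853) (.w 0 1)) (.mul (.c 171) (.q 0)))))))) (.w 0 5)) (.w 2 2))), 125, 7, 1, 4, 1⟩,
  ⟨(.sub (.sub (.mul (.mul (.c 0) (.w 0 5)) (.w 2 3)) (.mul (.add (.mul (.q 2) (.r 0 4 1 3)) (.mul (.v 2) (.r 0 604 1 3))) (.add (.mul (.add (.mul (.q 2) (.r 0 7 1 3)) (.mul (.v 2) (.r 0 607 1 3))) (.mul (.add (.mul (.mul (.c 1024) (.s 2 12 600 2)) (.w 0 1)) (.mul (.mul (.c 171) (.v 0)) (.s 2 15 600 2))) (.c 1))) (.mul (.mul (.mul (.c 17179869184) (.mul (.s 2 284 600 2) (.c 1))) (.w 0 3)) (.w 2 1))))) (.mul (.mul (.mul (.c 288230376151711744) (.add (.mul (.r 2 556 600 2) (.sub (.c 0) (.mul (.c 12) (.c 1)))) (.add (.mul (.r 2 558 600 2) (.c 1)) (.mul (.r 2 560 600 2) (.sub (.c 0) (.mul (.c 12) (.c 1))))))) (.w 0 5)) (.w 2 2))), 114, 6, 1, 4, 1⟩,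
  ⟨(.sub (.sub (.mul (.mul (.c 0) (.w 0 4)) (.w 2 3)) (.mul (.add (.mul (.q 2) (.r 0 4 1 3)) (.mul (.v 2) (.r 0 604 1 3))) (.add (.mul (.add (.mul (.q 2) (.r 0 7 1 3)) (.mul (.v 2) (.r 0 607 1 3))) (.mul (.s 2 13 600 2) (.c 1))) (.mul (.mul (.mul (.c 16777216) (.mul (.s 2 285 600 2) (.c 1))) (.w 0 2)) (.w 2 1))))) (.mul (.mul (.mul (.c 281474976710656) (.add (.mul (.r 2 557 600 2) (.sub (.c 0) (.mul (.c 12) (.c 1)))) (.add (.mul (.r 2 559 600 2) (.mul (.c 2) (.c 1))) (.mul (.r 2 560 600 2) (.sub (.c 0) (.mul (.c 24) (.c 1))))))) (.w 0 4)) (.w 2 2))), 103, 5, 1, 4, 1⟩,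
  ⟨(.sub (.sub (.mul (.mul (.c 0) (.w 0 4)) (.w 2 3)) (.mul (.add (.mul (.q 2) (.r 0 4 1 3)) (.mul (.v 2) (.r 0 604 1 3))) (.add (.mul (.add (.mul (.q 2) (.r 0 7 1 3)) (.mul (.v 2) (.r 0 607 1 3))) (.mul (.s 2 14 600 2) (.c 1))) (.mul (.mul (.mul (.c 16777216) (.mul (.s 2 286 600 2) (.c 1))) (.w 0 2)) (.w 2 1))))) (.mul (.mul (.mul (.c 281474976710656) (.add (.mul (.r 2 558 600 2) (.sub (.c 0) (.mul (.c 12) (.c 1)))) (.add (.mul (.r 2 559 600 2) (.sub (.c 0) (.mul (.c 12) (.c 1)))) (.mul (.r 2 560 600 2) (.mul (.c 144) (.c 1)))))) (.w 0 4)) (.w 2 2))), 103, 5, 1, 4, 1⟩,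
  ⟨(.sub (.sub (.mul (.mul (.mul (.c 16777216) (.add (.mul (.r 2 267 600 2) (.mul (.c 1) (.add (.mul (.c 853) (.w 0 1)) (.mul (.c 171) (.q 0))))) (.mul (.mul (.c 1024) (.mul (.r 2 268 600 2) (.u 0 [1]))) (.w 0 1)))) (.w 0 2)) (.w 2 1)) (.mul (.add (.mul (.q 2) (.r 0 4 1 3)) (.mul (.v 2) (.r 0 604 1 3))) (.mul (.s 2 299 600 2) (.add (.mul (.c 853) (.w 0 1)) (.mul (.c 171) (.q 0)))))) (.mul (.mul (.mul (.c 16777216) (.add (.mul (.r 2 566 600 2) (.mul (.c 2) (.add (.mul (.c 853) (.w 0 1)) (.mul (.c 171) (.q 0))))) (.add (.mul (.r 2 567 600 2) (.add (.mul (.c 853) (.w 0 1)) (.mul (.c 171) (.q 0)))) (.mul (.r 2 570 600 2) (.mul (.c 2) (.add (.mul (.c 853) (.w 0 1)) (.mul (.c 171) (.q 0)))))))) (.w 0 2)) (.w 2 1))), 79, 4, 1, 3, 1⟩,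
  ⟨(.sub (.sub (.mul (.mul (.c 0) (.w 0 2)) (.w 2 2)) (.mul (.add (.mul (.q 2) (.r 0 4 1 3)) (.mul (.v 2) (.r 0 604 1 3))) (.mul (.s 2 300 600 2) (.c 1)))) (.mul (.mul (.mul (.c 16777216) (.add (.mul (.r 2 566 600 2) (.sub (.c 0) (.mul (.c 12) (.c 1)))) (.add (.mul (.r 2 568 600 2) (.c 1)) (.mul (.r 2 570 600 2) (.sub (.c 0) (.mul (.c 12) (.c 1))))))) (.w 0 2)) (.w 2 1))), 68, 3, 1, 3, 1⟩,
  ⟨(.sub (.sub (.mul (.mul (.c 0) (.w 0 2)) (.w 2 2)) (.mul (.add (.mul (.q 2) (.r 0 4 1 3)) (.mul (.v 2) (.r 0 604 1 3))) (.mul (.s 2 301 600 2) (.c 1)))) (.mul (.mul (.mul (.c 16777216) (.add (.mul (.r 2 567 600 2) (.sub (.c 0) (.mul (.c 12) (.c 1)))) (.add (.mul (.r 2 569 600 2) (.mul (.c 2) (.c 1))) (.mul (.r 2 570 600 2) (.sub (.c 0) (.mul (.c 24) (.c 1))))))) (.w 0 2)) (.w 2 1))), 68, 3, 1, 3, 1⟩,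
  ⟨(.sub (.sub (.mul (.mul (.c 0) (.w 0 2)) (.w 2 2)) (.mul (.add (.mul (.q 2) (.r 0 4 1 3)) (.mul (.v 2) (.r 0 604 1 3))) (.mul (.s 2 302 600 2) (.c 1)))) (.mul (.mul (.mul (.c 16777216) (.add (.mul (.r 2 568 600 2) (.sub (.c 0) (.mul (.c 12) (.c 1)))) (.add (.mul (.r 2 569 600 2) (.sub (.c 0) (.mul (.c 12) (.c 1)))) (.mul (.r 2 570 600 2) (.mul (.c 144) (.c 1)))))) (.w 0 2)) (.w 2 1))), 69, 3, 1, 3, 1⟩,
  ⟨(.sub (.sub (.mul (.mul (.mul (.c 288230376151711744) (.add (.mul (.r 2 271 600 2) (.mul (.c 1) (.add (.mul (.c 853) (.w 0 1)) (.mul (.c 171) (.q 0))))) (.mul (.mul (.c 1024) (.mul (.r 2 272 600 2) (.u 0 [1]))) (.w 0 1)))) (.w 0 5)) (.w 2 2)) (.mul (.add (.mul (.q 2) (.r 0 4 1 3)) (.mul (.v 2) (.r 0 604 1 3))) (.add (.mul (.add (.mul (.q 2) (.r 0 7 1 3)) (.mul (.v 2) (.r 0 607 1 3))) (.add (.mul (.mul (.c 1024) (.mul (.s 2 16 600 2) (.add (.mul (.c 853) (.w 0 1)) (.mul (.c 171) (.q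 0))))) (.w 0 1)) (.mul (.s 2 17 600 2) (.mul (.mul (.c 171) (.v 0)) (.add (.mul (.c 853) (.w 0 1)) (.mul (.c 171) (.q 0))))))) (.mul (.mul (.mul (.c 17179869184) (.mul (.s 2 291 600 2) (.add (.mul (.c 853) (.w 0 1)) (.mul (.c 171) (.q 0))))) (.w 0 3)) (.w 2 1))))) (.mul (.mul (.mul (.c 288230376151711744) (.add (.mul (.r 2 576 600 2) (.mul (.c 2) (.add (.mul (.c 853) (.w 0 1)) (.mul (.c 171) (.q 0))))) (.add (.mul (.r 2 577 600 2) (.add (.mul (.c 853) (.w 0 1)) (.mul (.c 171) (.q 0)))) (.mul (.r 2 580 600 2) (.mul (.c 2) (.add (.mul (.c 853) (.w 0 1)) (.mul (.c 171) (.q 0)))))))) (.w 0 5)) (.w 2 2))), 125, 7, 1, 4, 1⟩,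
  ⟨(.sub (.sub (.mul (.mul (.c 0) (.w 0 5)) (.w 2 3)) (.mul (.add (.mul (.q 2) (.r 0 4 1 3)) (.mul (.v 2) (.r 0 604 1 3))) (.add (.mul (.add (.mul (.q 2) (.r 0 7 1 3)) (.mul (.v 2) (.r 0 607 1 3))) (.mul (.add (.mul (.mul (.c 1024) (.s 2 18 600 2)) (.w 0 1)) (.mul (.mul (.c 171) (.v 0)) (.s 2 21 600 2))) (.c 1))) (.mul (.mul (.mul (.c 17179869184) (.mul (.s 2 292 600 2) (.c 1))) (.w 0 3)) (.w 2 1))))) (.mul (.mul (.mul (.c 288230376151711744) (.add (.mul (.r 2 576 600 2) (.sub (.c 0) (.mul (.c 12) (.c 1)))) (.add (.mul (.r 2 578 600 2) (.c 1)) (.mul (.r 2 580 600 2) (.sub (.c 0) (.mul (.c 12) (.c 1))))))) (.w 0 5)) (.w 2 2))), 114, 6, 1, 4, 1⟩,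
  ⟨(.sub (.sub (.mul (.mul (.c 0) (.w 0 4)) (.w 2 3)) (.mul (.add (.mul (.q 2) (.r 0 4 1 3)) (.mul (.v 2) (.r 0 604 1 3))) (.add (.mul (.add (.mul (.q 2) (.r 0 7 1 3)) (.mul (.v 2) (.r 0 607 1 3))) (.mul (.s 2 19 600 2) (.c 1))) (.mul (.mul (.mul (.c 16777216) (.mul (.s 2 293 600 2) (.c 1))) (.w 0 2)) (.w 2 1))))) (.mul (.mul (.mul (.c 281474976710656) (.add (.mul (.r 2 577 600 2) (.sub (.c 0) (.mul (.c 12) (.c 1)))) (.add (.mul (.r 2 579 600 2) (.mul (.c 2) (.c 1))) (.mul (.r 2 580 600 2) (.sub (.c 0) (.mul (.c 24) (.c 1))))))) (.w 0 4)) (.w 2 2))), 103, 5, 1, 4, 1⟩,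
  ⟨(.sub (.sub (.mul (.mul (.c 0) (.w 0 4)) (.w 2 3)) (.mul (.add (.mul (.q 2) (.r 0 4 1 3)) (.mul (.v 2) (.r 0 604 1 3))) (.add (.mul (.add (.mul (.q 2) (.r 0 7 1 3)) (.mul (.v 2) (.r 0 607 1 3))) (.mul (.s 2 20 600 2) (.c 1))) (.mul (.mul (.mul (.c 16777216) (.mul (.s 2 294 600 2) (.c 1))) (.w 0 2)) (.w 2 1))))) (.mul (.mul (.mul (.c 281474976710656) (.add (.mul (.r 2 578 600 2) (.sub (.c 0) (.mul (.c 12) (.c 1)))) (.add (.mul (.r 2 579 600 2) (.sub (.c 0) (.mul (.c 12) (.c 1)))) (.mul (.r 2 580 600 2) (.mul (.c 144) (.c 1)))))) (.w 0 4)) (.w 2 2))), 103, 5, 1, 4, 1⟩,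
  ⟨(.sub (.add (.mul (.mul (.c 1024) (.mul (.s 2 22 600 2) (.add (.mul (.c 853) (.w 0 1)) (.mul (.c 171) (.q 0))))) (.w 0 1)) (.mul (.s 2 23 600 2) (.mul (.mul (.c 171) (.v 0)) (.add (.mul (.c 853) (.w 0 1)) (.mul (.c 171) (.q 0)))))) (.mul (.mul (.c 1024) (.add (.mul (.r 2 531 600 2) (.mul (.c 2) (.add (.mul (.c 853) (.w 0 1)) (.mul (.c 171) (.q 0))))) (.add (.mul (.r 2 532 600 2) (.add (.mul (.c 853) (.w 0 1)) (.mul (.c 171) (.q 0)))) (.mul (.r 2 535 600 2) (.mul (.c 2) (.add (.mul (.c 853) (.w 0 1)) (.mul (.c 171) (.q 0)))))))) (.w 0 1))), 58, 3, 1, 2, 1⟩,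
  ⟨(.sub (.mul (.add (.mul (.mul (.c 1024) (.s 2 24 600 2)) (.w 0 1)) (.mul (.mul (.c 171) (.v 0)) (.s 2 27 600 2))) (.c 1)) (.mul (.mul (.c 1024) (.add (.mul (.r 2 531 600 2) (.sub (.c 0) (.mul (.c 12) (.c 1)))) (.add (.mul (.r 2 533 600 2) (.c 1)) (.mul (.r 2 535 600 2) (.sub (.c 0) (.mul (.c 12) (.c 1))))))) (.w 0 1))), 49, 2, 1, 2, 1⟩,
  ⟨(.sub (.mul (.s 2 25 600 2) (.c 1)) (.add (.mul (.r 2 532 600 2) (.sub (.c 0) (.mul (.c 12) (.c 1)))) (.add (.mul (.r 2 534 600 2) (.mul (.c 2) (.c 1))) (.mul (.r 2 535 600 2) (.sub (.c 0) (.mul (.c 24) (.c 1))))))), 39, 1, 1, 2, 1⟩,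
  ⟨(.sub (.mul (.s 2 26 600 2) (.c 1)) (.add (.mul (.r 2 533 600 2) (.sub (.c 0) (.mul (.c 12) (.c 1)))) (.add (.mul (.r 2 534 600 2) (.sub (.c 0) (.mul (.c 12) (.c 1)))) (.mul (.r 2 535 600 2) (.mul (.c 144) (.c 1)))))), 41, 1, 1, 2, 1⟩,
  ⟨(.sub (.add (.mul (.mul (.c 1024) (.mul (.s 2 28 600 2) (.add (.mul (.c 853) (.w 0 1)) (.mul (.c 171) (.q 0))))) (.w 0 1)) (.mul (.s 2 29 600 2) (.mul (.mul (.c 171) (.v 0)) (.add (.mul (.c 853) (.w 0 1)) (.mul (.c 171) (.q 0)))))) (.mul (.mul (.c 1024) (.add (.mul (.r 2 541 600 2) (.mul (.c 2) (.add (.mul (.c 853) (.w 0 1)) (.mul (.c 171) (.q 0))))) (.add (.mul (.r 2 542 600 2) (.add (.mul (.c 853) (.w 0 1)) (.mul (.c 171) (.q 0)))) (.mul (.r 2 545 600 2) (.mul (.c 2) (.add (.mul (.c 853) (.w 0 1)) (.mul (.c 171) (.q 0)))))))) (.w 0 1))), 58, 3, 1, 2, 1⟩,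
  ⟨(.sub (.mul (.add (.mul (.mul (.c 1024) (.s 2 30 600 2)) (.w 0 1)) (.mul (.mul (.c 171) (.v 0)) (.s 2 33 600 2))) (.c 1)) (.mul (.mul (.c 1024) (.add (.mul (.r 2 541 600 2) (.sub (.c 0) (.mul (.c 12) (.c 1)))) (.add (.mul (.r 2 543 600 2) (.c 1)) (.mul (.r 2 545 600 2) (.sub (.c 0) (.mul (.c 12) (.c 1))))))) (.w 0 1))), 49, 2, 1, 2, 1⟩,
  ⟨(.sub (.mul (.s 2 31 600 2) (.c 1)) (.add (.mul (.r 2 542 600 2) (.sub (.c 0) (.mul (.c 12) (.c 1)))) (.add (.mul (.r 2 544 600 2) (.mul (.c 2) (.c 1))) (.mul (.r 2 545 600 2) (.sub (.c 0) (.mul (.c 24) (.c 1))))))), 39, 1, 1, 2, 1⟩,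
  ⟨(.sub (.mul (.s 2 32 600 2) (.c 1)) (.add (.mul (.r 2 543 600 2) (.sub (.c 0) (.mul (.c 12) (.c 1)))) (.add (.mul (.r 2 544 600 2) (.sub (.c 0) (.mul (.c 12) (.c 1)))) (.mul (.r 2 545 600 2) (.mul (.c 144) (.c 1)))))), 41, 1, 1, 2, 1⟩,
  ⟨(.sub (.sub (.mul (.mul (.mul (.c 288230376151711744) (.add (.mul (.r 2 261 600 2) (.mul (.c 1) (.add (.mul (.c 853) (.w 0 1)) (.mul (.c 171) (.q 0))))) (.mul (.mul (.c 1024) (.mul (.r 2 262 600 2) (.u 0 [1]))) (.w 0 1)))) (.w 0 5)) (.w 2 2)) (.mul (.add (.mul (.q 2) (.r 0 4 1 3)) (.mul (.v 2) (.r 0 604 1 3))) (.add (.mul (.add (.mul (.q 2) (.r 0 7 1 3)) (.mul (.v 2) (.r 0 607 1 3))) (.add (.mul (.mul (.c 1024) (.mul (.s 2 28 600 2) (.add (.mul (.c 853) (.w 0 1)) (.mul (.c 171) (.q 0))))) (.w 0 1)) (.mul (.s 2 29 600 2) (.mul (.mul (.c 171) (.v 0)) (.add (.mul (.c 853) (.w 0 1)) (.mul (.c 171) (.q 0))))))) (.mul (.mul (.mul (.c 17179869184) (.mul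 (.s 2 279 600 2) (.add (.mul (.c 853) (.w 0 1)) (.mul (.c 171) (.q 0))))) (.w 0 3)) (.w 2 1))))) (.mul (.mul (.mul (.c 288230376151711744) (.add (.mul (.r 2 551 600 2) (.mul (.c 2) (.add (.mul (.c 853) (.w 0 1)) (.mul (.c 171) (.q 0))))) (.add (.mul (.r 2 552 600 2) (.add (.mul (.c 853) (.w 0 1)) (.mul (.c 171) (.q 0)))) (.mul (.r 2 555 600 2) (.mul (.c 2) (.add (.mul (.c 853) (.w 0 1)) (.mul (.c 171) (.q 0)))))))) (.w 0 5)) (.w 2 2))), 125, 7, 1, 4, 1⟩,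
  ⟨(.sub (.sub (.mul (.mul (.c 0) (.w 0 5)) (.w 2 3)) (.mul (.add (.mul (.q 2) (.r 0 4 1 3)) (.mul (.v 2) (.r 0 604 1 3))) (.add (.mul (.add (.mul (.q 2) (.r 0 7 1 3)) (.mul (.v 2) (.r 0 607 1 3))) (.mul (.add (.mul (.mul (.c 1024) (.s 2 30 600 2)) (.w 0 1)) (.mul (.mul (.c 171) (.v 0)) (.s 2 33 600 2))) (.c 1))) (.mul (.mul (.mul (.c 17179869184) (.mul (.s 2 280 600 2) (.c 1))) (.w 0 3)) (.w 2 1))))) (.mul (.mul (.mul (.c 288230376151711744) (.add (.mul (.r 2 551 600 2) (.sub (.c 0) (.mul (.c 12) (.c 1)))) (.add (.mul (.r 2 553 600 2) (.c 1)) (.mul (.r 2 555 600 2) (.sub (.c 0) (.mul (.c 12) (.c 1))))))) (.w 0 5)) (.w 2 2))), 114, 6, 1, 4, 1⟩,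
  ⟨(.sub (.sub (.mul (.mul (.c 0) (.w 0 4)) (.w 2 3)) (.mul (.add (.mul (.q 2) (.r 0 4 1 3)) (.mul (.v 2) (.r 0 604 1 3))) (.add (.mul (.add (.mul (.q 2) (.r 0 7 1 3)) (.mul (.v 2) (.r 0 607 1 3))) (.mul (.s 2 31 600 2) (.c 1))) (.mul (.mul (.mul (.c 16777216) (.mul (.s 2 281 600 2) (.c 1))) (.w 0 2)) (.w 2 1))))) (.mul (.mul (.mul (.c 281474976710656) (.add (.mul (.r 2 552 600 2) (.sub (.c 0) (.mul (.c 12) (.c 1)))) (.add (.mul (.r 2 554 600 2) (.mul (.c 2) (.c 1))) (.mul (.r 2 555 600 2) (.sub (.c 0) (.mul (.c 24) (.c 1))))))) (.w 0 4)) (.w 2 2))), 103, 5, 1, 4, 1⟩,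
  ⟨(.sub (.sub (.mul (.mul (.c 0) (.w 0 4)) (.w 2 3)) (.mul (.add (.mul (.q 2) (.r 0 4 1 3)) (.mul (.v 2) (.r 0 604 1 3))) (.add (.mul (.add (.mul (.q 2) (.r 0 7 1 3)) (.mul (.v 2) (.r 0 607 1 3))) (.mul (.s 2 32 600 2) (.c 1))) (.mul (.mul (.mul (.c 16777216) (.mul (.s 2 282 600 2) (.c 1))) (.w 0 2)) (.w 2 1))))) (.mul (.mul (.mul (.c 281474976710656) (.add (.mul (.r 2 553 600 2) (.sub (.c 0) (.mul (.c 12) (.c 1)))) (.add (.mul (.r 2 554 600 2) (.sub (.c 0) (.mul (.c 12) (.c 1)))) (.mul (.r 2 555 600 2) (.mul (.c 144) (.c 1)))))) (.w 0 4)) (.w 2 2))), 103, 5, 1, 4, 1⟩,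
  ⟨(.sub (.sub (.mul (.mul (.mul (.c 288230376151711744) (.add (.mul (.r 2 265 600 2) (.mul (.c 1) (.add (.mul (.c 853) (.w 0 1)) (.mul (.c 171) (.q 0))))) (.mul (.mul (.c 1024) (.mul (.r 2 266 600 2) (.u 0 [1]))) (.w 0 1)))) (.w 0 5)) (.w 2 2)) (.mul (.add (.mul (.q 2) (.r 0 4 1 3)) (.mul (.v 2) (.r 0 604 1 3))) (.add (.mul (.add (.mul (.q 2) (.r 0 7 1 3)) (.mul (.v 2) (.r 0 607 1 3))) (.add (.mul (.mul (.c 1024) (.mul (.s 2 22 600 2) (.add (.mul (.c 853) (.w 0 1)) (.mul (.c 171) (.q 0))))) (.w 0 1)) (.mul (.s 2 23 600 2) (.mul (.mul (.c 171) (.v 0)) (.add (.mul (.c 853) (.w 0 1)) (.mul (.c 171) (.q 0))))))) (.mul (.mul (.mul (.c 17179869184) (.mul (.s 2 287 600 2) (.add (.mul (.c 853) (.w 0 1)) (.mul (.c 171) (.q 0))))) (.w 0 3)) (.w 2 1))))) (.mul (.mul (.mul (.c 288230376151711744) (.add (.mul (.r 2 561 600 2) (.mul (.c 2) (.add (.mul (.c 853) (.w 0 1)) (.mul (.c 171) (.q 0)))))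 (.add (.mul (.r 2 562 600 2) (.add (.mul (.c 853) (.w 0 1)) (.mul (.c 171) (.q 0)))) (.mul (.r 2 565 600 2) (.mul (.c 2) (.add (.mul (.c 853) (.w 0 1)) (.mul (.c 171) (.q 0)))))))) (.w 0 5)) (.w 2 2))), 125, 7, 1, 4, 1⟩,
  ⟨(.sub (.sub (.mul (.mul (.c 0) (.w 0 5)) (.w 2 3)) (.mul (.add (.mul (.q 2) (.r 0 4 1 3)) (.mul (.v 2) (.r 0 604 1 3))) (.add (.mul (.add (.mul (.q 2) (.r 0 7 1 3)) (.mul (.v 2) (.r 0 607 1 3))) (.mul (.add (.mul (.mul (.c 1024) (.s 2 24 600 2)) (.w 0 1)) (.mul (.mul (.c 171) (.v 0)) (.s 2 27 600 2))) (.c 1))) (.mul (.mul (.mul (.c 17179869184) (.mul (.s 2 288 600 2) (.c 1))) (.w 0 3)) (.w 2 1))))) (.mul (.mul (.mul (.c 288230376151711744) (.add (.mul (.r 2 561 600 2) (.sub (.c 0) (.mul (.c 12) (.c 1)))) (.add (.mul (.r 2 563 600 2) (.c 1)) (.mul (.r 2 565 600 2) (.sub (.c 0) (.mul (.c 12) (.c 1))))))) (.w 0 5)) (.w 2 2))), 114, 6, 1, 4, 1⟩,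
  ⟨(.sub (.sub (.mul (.mul (.c 0) (.w 0 4)) (.w 2 3)) (.mul (.add (.mul (.q 2) (.r 0 4 1 3)) (.mul (.v 2) (.r 0 604 1 3))) (.add (.mul (.add (.mul (.q 2) (.r 0 7 1 3)) (.mul (.v 2) (.r 0 607 1 3))) (.mul (.s 2 25 600 2) (.c 1))) (.mul (.mul (.mul (.c 16777216) (.mul (.s 2 289 600 2) (.c 1))) (.w 0 2)) (.w 2 1))))) (.mul (.mul (.mul (.c 281474976710656) (.add (.mul (.r 2 562 600 2) (.sub (.c 0) (.mul (.c 12) (.c 1)))) (.add (.mul (.r 2 564 600 2) (.mul (.c 2) (.c 1))) (.mul (.r 2 565 600 2) (.sub (.c 0) (.mul (.c 24) (.c 1))))))) (.w 0 4)) (.w 2 2))), 103, 5, 1, 4, 1⟩,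
  ⟨(.sub (.sub (.mul (.mul (.c 0) (.w 0 4)) (.w 2 3)) (.mul (.add (.mul (.q 2) (.r 0 4 1 3)) (.mul (.v 2) (.r 0 604 1 3))) (.add (.mul (.add (.mul (.q 2) (.r 0 7 1 3)) (.mul (.v 2) (.r 0 607 1 3))) (.mul (.s 2 26 600 2) (.c 1))) (.mul (.mul (.mul (.c 16777216) (.mul (.s 2 290 600 2) (.c 1))) (.w 0 2)) (.w 2 1))))) (.mul (.mul (.mul (.c 281474976710656) (.add (.mul (.r 2 563 600 2) (.sub (.c 0) (.mul (.c 12) (.c 1)))) (.add (.mul (.r 2 564 600 2) (.sub (.c 0) (.mul (.c 12) (.c 1)))) (.mul (.r 2 565 600 2) (.mul (.c 144) (.c 1)))))) (.w 0 4)) (.w 2 2))), 103, 5, 1, 4, 1⟩,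
  ⟨(.sub (.sub (.mul (.mul (.mul (.c 16777216) (.add (.mul (.r 2 269 600 2) (.mul (.c 1) (.add (.mul (.c 853) (.w 0 1)) (.mul (.c 171) (.q 0))))) (.mul (.mul (.c 1024) (.mul (.r 2 270 600 2) (.u 0 [1]))) (.w 0 1)))) (.w 0 2)) (.w 2 1)) (.mul (.add (.mul (.q 2) (.r 0 4 1 3)) (.mul (.v 2) (.r 0 604 1 3))) (.mul (.s 2 303 600 2) (.add (.mul (.c 853) (.w 0 1)) (.mul (.c 171) (.q 0)))))) (.mul (.mul (.mul (.c 16777216) (.add (.mul (.r 2 571 600 2) (.mul (.c 2) (.add (.mul (.c 853) (.w 0 1)) (.mul (.c 171) (.q 0))))) (.add (.mul (.r 2 572 600 2) (.add (.mul (.c 853) (.w 0 1)) (.mul (.c 171) (.q 0)))) (.mul (.r 2 575 600 2) (.mul (.c 2) (.add (.mul (.c 853) (.w 0 1)) (.mul (.c 171) (.q 0)))))))) (.w 0 2)) (.w 2 1))), 79, 4, 1, 3, 1⟩,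
  ⟨(.sub (.sub (.mul (.mul (.c 0) (.w 0 2)) (.w 2 2)) (.mul (.add (.mul (.q 2) (.r 0 4 1 3)) (.mul (.v 2) (.r 0 604 1 3))) (.mul (.s 2 304 600 2) (.c 1)))) (.mul (.mul (.mul (.c 16777216) (.add (.mul (.r 2 571 600 2) (.sub (.c 0) (.mul (.c 12) (.c 1)))) (.add (.mul (.r 2 573 600 2) (.c 1)) (.mul (.r 2 575 600 2) (.sub (.c 0) (.mul (.c 12) (.c 1))))))) (.w 0 2)) (.w 2 1))), 68, 3, 1, 3, 1⟩,
  ⟨(.sub (.sub (.mul (.mul (.c 0) (.w 0 2)) (.w 2 2)) (.mul (.add (.mul (.q 2) (.r 0 4 1 3)) (.mul (.v 2) (.r 0 604 1 3))) (.mul (.s 2 305 600 2) (.c 1)))) (.mul (.mul (.mul (.c 16777216) (.add (.mul (.r 2 572 600 2) (.sub (.c 0) (.mul (.c 12) (.c 1)))) (.add (.mul (.r 2 574 600 2) (.mul (.c 2) (.c 1))) (.mul (.r 2 575 600 2) (.sub (.c 0) (.mul (.c 24) (.c 1))))))) (.w 0 2)) (.w 2 1))), 68, 3, 1, 3, 1⟩,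
  ⟨(.sub (.sub (.mul (.mul (.c 0) (.w 0 2)) (.w 2 2)) (.mul (.add (.mul (.q 2) (.r 0 4 1 3)) (.mul (.v 2) (.r 0 604 1 3))) (.mul (.s 2 306 600 2) (.c 1)))) (.mul (.mul (.mul (.c 16777216) (.add (.mul (.r 2 573 600 2) (.sub (.c 0) (.mul (.c 12) (.c 1)))) (.add (.mul (.r 2 574 600 2) (.sub (.c 0) (.mul (.c 12) (.c 1)))) (.mul (.r 2 575 600 2) (.mul (.c 144) (.c 1)))))) (.w 0 2)) (.w 2 1))), 69, 3, 1, 3, 1⟩,
  ⟨(.sub (.sub (.mul (.mul (.mul (.c 288230376151711744) (.add (.mul (.r 2 273 600 2) (.mul (.c 1) (.add (.mul (.c 853) (.w 0 1)) (.mul (.c 171) (.q 0))))) (.mul (.mul (.c 1024) (.mul (.r 2 274 600 2) (.u 0 [1]))) (.w 0 1)))) (.w 0 5)) (.w 2 2)) (.mul (.add (.mul (.q 2) (.r 0 4 1 3)) (.mul (.v 2) (.r 0 604 1 3))) (.add (.mul (.add (.mul (.q 2) (.r 0 7 1 3)) (.mul (.v 2) (.r 0 607 1 3))) (.add (.mul (.mul (.c 1024) (.mul (.s 2 28 600 2) (.add (.mul (.c 853) (.w 0 1)) (.mul (.c 171) (.q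 0))))) (.w 0 1)) (.mul (.s 2 29 600 2) (.mul (.mul (.c 171) (.v 0)) (.add (.mul (.c 853) (.w 0 1)) (.mul (.c 171) (.q 0))))))) (.mul (.mul (.mul (.c 17179869184) (.mul (.s 2 295 600 2) (.add (.mul (.c 853) (.w 0 1)) (.mul (.c 171) (.q 0))))) (.w 0 3)) (.w 2 1))))) (.mul (.mul (.mul (.c 288230376151711744) (.add (.mul (.r 2 581 600 2) (.mul (.c 2) (.add (.mul (.c 853) (.w 0 1)) (.mul (.c 171) (.q 0))))) (.add (.mul (.r 2 582 600 2) (.add (.mul (.c 853) (.w 0 1)) (.mul (.c 171) (.q 0)))) (.mul (.r 2 585 600 2) (.mul (.c 2) (.add (.mul (.c 853) (.w 0 1)) (.mul (.c 171) (.q 0)))))))) (.w 0 5)) (.w 2 2))), 125, 7, 1, 4, 1⟩,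
  ⟨(.sub (.sub (.mul (.mul (.c 0) (.w 0 5)) (.w 2 3)) (.mul (.add (.mul (.q 2) (.r 0 4 1 3)) (.mul (.v 2) (.r 0 604 1 3))) (.add (.mul (.add (.mul (.q 2) (.r 0 7 1 3)) (.mul (.v 2) (.r 0 607 1 3))) (.mul (.add (.mul (.mul (.c 1024) (.s 2 30 600 2)) (.w 0 1)) (.mul (.mul (.c 171) (.v 0)) (.s 2 33 600 2))) (.c 1))) (.mul (.mul (.mul (.c 17179869184) (.mul (.s 2 296 600 2) (.c 1))) (.w 0 3)) (.w 2 1))))) (.mul (.mul (.mul (.c 288230376151711744) (.add (.mul (.r 2 581 600 2) (.sub (.c 0) (.mul (.c 12) (.c 1)))) (.add (.mul (.r 2 583 600 2) (.c 1)) (.mul (.r 2 585 600 2) (.sub (.c 0) (.mul (.c 12) (.c 1))))))) (.w 0 5)) (.w 2 2))), 114, 6, 1, 4, 1⟩,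
  ⟨(.sub (.sub (.mul (.mul (.c 0) (.w 0 4)) (.w 2 3)) (.mul (.add (.mul (.q 2) (.r 0 4 1 3)) (.mul (.v 2) (.r 0 604 1 3))) (.add (.mul (.add (.mul (.q 2) (.r 0 7 1 3)) (.mul (.v 2) (.r 0 607 1 3))) (.mul (.s 2 31 600 2) (.c 1))) (.mul (.mul (.mul (.c 16777216) (.mul (.s 2 297 600 2) (.c 1))) (.w 0 2)) (.w 2 1))))) (.mul (.mul (.mul (.c 281474976710656) (.add (.mul (.r 2 582 600 2) (.sub (.c 0) (.mul (.c 12) (.c 1)))) (.add (.mul (.r 2 584 600 2) (.mul (.c 2) (.c 1))) (.mul (.r 2 585 600 2) (.sub (.c 0) (.mul (.c 24) (.c 1))))))) (.w 0 4)) (.w 2 2))), 103, 5, 1, 4, 1⟩,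
  ⟨(.sub (.sub (.mul (.mul (.c 0) (.w 0 4)) (.w 2 3)) (.mul (.add (.mul (.q 2) (.r 0 4 1 3)) (.mul (.v 2) (.r 0 604 1 3))) (.add (.mul (.add (.mul (.q 2) (.r 0 7 1 3)) (.mul (.v 2) (.r 0 607 1 3))) (.mul (.s 2 32 600 2) (.c 1))) (.mul (.mul (.mul (.c 16777216) (.mul (.s 2 298 600 2) (.c 1))) (.w 0 2)) (.w 2 1))))) (.mul (.mul (.mul (.c 281474976710656) (.add (.mul (.r 2 583 600 2) (.sub (.c 0) (.mul (.c 12) (.c 1)))) (.add (.mul (.r 2 584 600 2) (.sub (.c 0) (.mul (.c 12) (.c 1)))) (.mul (.r 2 585 600 2) (.mul (.c 144) (.c 1)))))) (.w 0 4)) (.w 2 2))), 103, 5, 1, 4, 1⟩,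
  ⟨(.sub (.add (.mul (.q 2) (.r 0 4 1 3)) (.mul (.v 2) (.r 0 604 1 3))) (.mul (.mul (.mul (.c 16777216) (.c 1)) (.w 0 2)) (.w 2 1))), 35, 3, 1, 2, 1⟩,
  ⟨(.sub (.c 1) (.c 1)), 2, 1, 1, 1, 1⟩,
  ⟨(.sub (.c 1) (.c 1)), 2, 1, 1, 1, 1⟩,
  ⟨(.sub (.c 1) (.c 1)), 2, 1, 1, 1, 1⟩,
  ⟨(.sub (.c 1) (.c 1)), 2, 1, 1, 1, 1⟩,
  ⟨(.sub (.c 1) (.c 1)), 2, 1, 1, 1, 1⟩,
  ⟨(.sub (.c 1) (.c 1)), 2, 1, 1, 1, 1⟩,
  ⟨(.sub (.r 0 0 1 1) (.c 1)), 33, 1, 1, 1, 1⟩,
  ⟨(.sub (.mul (.c 33554432) (.s 0 120 1 1)) (.add (.mul (.c 33554432) (.s 0 720 1 1)) (.mul (.c 1) (.mul (.r 0 0 1 1) (.add (.s 0 119 1 1) (.s 0 719 1 1)))))), 66, 1, 1, 1, 1⟩,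
  ⟨(.sub (.s 0 121 1 1) (.s 0 120 1 1)), 34, 1, 1, 1, 1⟩,
  ⟨(.sub (.s 0 721 1 1) (.s 0 720 1 1)), 34, 1, 1, 1, 1⟩,
  ⟨(.sub (.mul (.c 16777216) (.mul (.c 8) (.sub (.s 0 121 1 1) (.s 0 120 1 1)))) (.mul (.r 0 0 1 1) (.sub (.s 0 719 1 1) (.s 0 119 1 1)))), 66, 1, 1, 1, 1⟩,
  ⟨(.sub (.mul (.c 16777216) (.mul (.c 8) (.sub (.s 0 721 1 1) (.s 0 720 1 1)))) (.mul (.r 0 0 1 1) (.sub (.s 0 719 1 1) (.s 0 119 1 1)))), 66, 1, 1, 1, 1⟩,
  ⟨(.sub (.mul (.c 33554432) (.s 0 123 1 1)) (.add (.mul (.c 33554432) (.s 0 723 1 1)) (.mul (.c 1) (.mul (.r 0 0 1 1) (.add (.s 0 122 1 1) (.s 0 722 1 1)))))), 66, 1, 1, 1, 1⟩,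
  ⟨(.sub (.s 0 124 1 1) (.s 0 123 1 1)), 34, 1, 1, 1, 1⟩,
  ⟨(.sub (.s 0 724 1 1) (.s 0 723 1 1)), 34, 1, 1, 1, 1⟩,
  ⟨(.sub (.mul (.c 16777216) (.mul (.c 8) (.sub (.s 0 124 1 1) (.s 0 123 1 1)))) (.mul (.r 0 0 1 1) (.sub (.s 0 722 1 1) (.s 0 122 1 1)))), 66, 1, 1, 1, 1⟩,
  ⟨(.sub (.mul (.c 16777216) (.mul (.c 8) (.sub (.s 0 724 1 1) (.s 0 723 1 1)))) (.mul (.r 0 0 1 1) (.sub (.s 0 722 1 1) (.s 0 122 1 1)))), 66, 1, 1, 1, 1⟩,
  ⟨(.sub (.mul (.c 33554432) (.s 0 126 1 1)) (.add (.mul (.c 33554432) (.s 0 726 1 1)) (.mul (.c 1) (.mul (.r 0 0 1 1) (.add (.s 0 125 1 1) (.s 0 725 1 1)))))), 66, 1, 1, 1, 1⟩,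
  ⟨(.sub (.s 0 127 1 1) (.s 0 126 1 1)), 34, 1, 1, 1, 1⟩,
  ⟨(.sub (.s 0 727 1 1) (.s 0 726 1 1)), 34, 1, 1, 1, 1⟩,
  ⟨(.sub (.mul (.c 16777216) (.mul (.c 8) (.sub (.s 0 127 1 1) (.s 0 126 1 1)))) (.mul (.r 0 0 1 1) (.sub (.s 0 725 1 1) (.s 0 125 1 1)))), 66, 1, 1, 1, 1⟩,
  ⟨(.sub (.mul (.c 16777216) (.mul (.c 8) (.sub (.s 0 727 1 1) (.s 0 726 1 1)))) (.mul (.r 0 0 1 1) (.sub (.s 0 725 1 1) (.s 0 125 1 1)))), 66, 1, 1, 1, 1⟩,
  ⟨(.sub (.mul (.c 33554432) (.s 0 129 1 1)) (.add (.mul (.c 33554432) (.s 0 729 1 1)) (.mul (.c 1) (.mul (.r 0 0 1 1) (.add (.s 0 128 1 1) (.s 0 728 1 1)))))), 66, 1, 1, 1, 1⟩,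
  ⟨(.sub (.s 0 130 1 1) (.s 0 129 1 1)), 34, 1, 1, 1, 1⟩,
  ⟨(.sub (.s 0 730 1 1) (.s 0 729 1 1)), 34, 1, 1, 1, 1⟩,
  ⟨(.sub (.mul (.c 16777216) (.mul (.c 8) (.sub (.s 0 130 1 1) (.s 0 129 1 1)))) (.mul (.r 0 0 1 1) (.sub (.s 0 728 1 1) (.s 0 128 1 1)))), 66, 1, 1, 1, 1⟩,
  ⟨(.sub (.mul (.c 16777216) (.mul (.c 8) (.sub (.s 0 730 1 1) (.s 0 729 1 1)))) (.mul (.r 0 0 1 1) (.sub (.s 0 728 1 1) (.s 0 128 1 1)))), 66, 1, 1, 1, 1⟩,
  ⟨(.sub (.mul (.c 33554432) (.s 0 132 1 1)) (.add (.mul (.c 33554432) (.s 0 732 1 1)) (.mul (.c 1) (.mul (.r 0 0 1 1) (.add (.s 0 131 1 1) (.s 0 731 1 1)))))), 66, 1, 1, 1, 1⟩,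
  ⟨(.sub (.s 0 133 1 1) (.s 0 132 1 1)), 34, 1, 1, 1, 1⟩,
  ⟨(.sub (.s 0 733 1 1) (.s 0 732 1 1)), 34, 1, 1, 1, 1⟩,
  ⟨(.sub (.mul (.c 16777216) (.mul (.c 8) (.sub (.s 0 133 1 1) (.s 0 132 1 1)))) (.mul (.r 0 0 1 1) (.sub (.s 0 731 1 1) (.s 0 131 1 1)))), 66, 1, 1, 1, 1⟩,
  ⟨(.sub (.mul (.c 16777216) (.mul (.c 8) (.sub (.s 0 733 1 1) (.s 0 732 1 1)))) (.mul (.r 0 0 1 1) (.sub (.s 0 731 1 1) (.s 0 131 1 1)))), 66, 1, 1, 1, 1⟩,
  ⟨(.sub (.mul (.c 33554432) (.s 0 135 1 1)) (.add (.mul (.c 33554432) (.s 0 735 1 1)) (.mul (.c 1) (.mul (.r 0 0 1 1) (.add (.s 0 134 1 1) (.s 0 734 1 1)))))), 66, 1, 1, 1, 1⟩,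
  ⟨(.sub (.s 0 136 1 1) (.s 0 135 1 1)), 34, 1, 1, 1, 1⟩,
  ⟨(.sub (.s 0 736 1 1) (.s 0 735 1 1)), 34, 1, 1, 1, 1⟩,
  ⟨(.sub (.mul (.c 16777216) (.mul (.c 8) (.sub (.s 0 136 1 1) (.s 0 135 1 1)))) (.mul (.r 0 0 1 1) (.sub (.s 0 734 1 1) (.s 0 134 1 1)))), 66, 1, 1, 1, 1⟩,
  ⟨(.sub (.mul (.c 16777216) (.mul (.c 8) (.sub (.s 0 736 1 1) (.s 0 735 1 1)))) (.mul (.r 0 0 1 1) (.sub (.s 0 734 1 1) (.s 0 134 1 1)))), 66, 1, 1, 1, 1⟩,
  ⟨(.sub (.mul (.c 33554432) (.s 0 138 1 1)) (.add (.mul (.c 33554432) (.s 0 738 1 1)) (.mul (.c 1) (.mul (.r 0 0 1 1) (.add (.s 0 137 1 1) (.s 0 737 1 1)))))), 66, 1, 1, 1, 1⟩,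
  ⟨(.sub (.s 0 139 1 1) (.s 0 138 1 1)), 34, 1, 1, 1, 1⟩,
  ⟨(.sub (.s 0 739 1 1) (.s 0 738 1 1)), 34, 1, 1, 1, 1⟩,
  ⟨(.sub (.mul (.c 16777216) (.mul (.c 8) (.sub (.s 0 139 1 1) (.s 0 138 1 1)))) (.mul (.r 0 0 1 1) (.sub (.s 0 737 1 1) (.s 0 137 1 1)))), 66, 1, 1, 1, 1⟩,
  ⟨(.sub (.mul (.c 16777216) (.mul (.c 8) (.sub (.s 0 739 1 1) (.s 0 738 1 1)))) (.mul (.r 0 0 1 1) (.sub (.s 0 737 1 1) (.s 0 137 1 1)))), 66, 1, 1, 1, 1⟩,
  ⟨(.sub (.mul (.c 33554432) (.s 0 141 1 1)) (.add (.mul (.c 33554432) (.s 0 741 1 1)) (.mul (.c 1) (.mul (.r 0 0 1 1) (.add (.s 0 140 1 1) (.s 0 740 1 1)))))), 66, 1, 1, 1, 1⟩,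
  ⟨(.sub (.s 0 142 1 1) (.s 0 141 1 1)), 34, 1, 1, 1, 1⟩,
  ⟨(.sub (.s 0 742 1 1) (.s 0 741 1 1)), 34, 1, 1, 1, 1⟩,
  ⟨(.sub (.mul (.c 16777216) (.mul (.c 8) (.sub (.s 0 142 1 1) (.s 0 141 1 1)))) (.mul (.r 0 0 1 1) (.sub (.s 0 740 1 1) (.s 0 140 1 1)))), 66, 1, 1, 1, 1⟩,
  ⟨(.sub (.mul (.c 16777216) (.mul (.c 8) (.sub (.s 0 742 1 1) (.s 0 741 1 1)))) (.mul (.r 0 0 1 1) (.sub (.s 0 740 1 1) (.s 0 140 1 1)))), 66, 1, 1, 1, 1⟩,
  ⟨(.sub (.mul (.c 33554432) (.s 0 144 1 1)) (.add (.mul (.c 33554432) (.s 0 744 1 1)) (.mul (.c 1) (.mul (.r 0 0 1 1) (.add (.s 0 143 1 1) (.s 0 743 1 1)))))), 66, 1, 1, 1, 1⟩,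
  ⟨(.sub (.s 0 145 1 1) (.s 0 144 1 1)), 34, 1, 1, 1, 1⟩,
  ⟨(.sub (.s 0 745 1 1) (.s 0 744 1 1)), 34, 1, 1, 1, 1⟩,
  ⟨(.sub (.mul (.c 16777216) (.mul (.c 8) (.sub (.s 0 145 1 1) (.s 0 144 1 1)))) (.mul (.r 0 0 1 1) (.sub (.s 0 743 1 1) (.s 0 143 1 1)))), 66, 1, 1, 1, 1⟩,
  ⟨(.sub (.mul (.c 16777216) (.mul (.c 8) (.sub (.s 0 745 1 1) (.s 0 744 1 1)))) (.mul (.r 0 0 1 1) (.sub (.s 0 743 1 1) (.s 0 143 1 1)))), 66, 1, 1, 1, 1⟩,
  ⟨(.sub (.mul (.c 33554432) (.s 0 147 1 1)) (.add (.mul (.c 33554432) (.s 0 747 1 1)) (.mul (.c 1) (.mul (.r 0 0 1 1) (.add (.s 0 146 1 1) (.s 0 746 1 1)))))), 66, 1, 1, 1, 1⟩,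
  ⟨(.sub (.s 0 148 1 1) (.s 0 147 1 1)), 34, 1, 1, 1, 1⟩,
  ⟨(.sub (.s 0 748 1 1) (.s 0 747 1 1)), 34, 1, 1, 1, 1⟩,
  ⟨(.sub (.mul (.c 16777216) (.mul (.c 8) (.sub (.s 0 148 1 1) (.s 0 147 1 1)))) (.mul (.r 0 0 1 1) (.sub (.s 0 746 1 1) (.s 0 146 1 1)))), 66, 1, 1, 1, 1⟩,
  ⟨(.sub (.mul (.c 16777216) (.mul (.c 8) (.sub (.s 0 748 1 1) (.s 0 747 1 1)))) (.mul (.r 0 0 1 1) (.sub (.s 0 746 1 1) (.s 0 146 1 1)))), 66, 1, 1, 1, 1⟩,
  ⟨(.sub (.mul (.c 33554432) (.s 0 150 1 1)) (.add (.mul (.c 33554432) (.s 0 750 1 1)) (.mul (.c 1) (.mul (.r 0 0 1 1) (.add (.s 0 149 1 1) (.s 0 749 1 1)))))), 66, 1, 1, 1, 1⟩,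
  ⟨(.sub (.s 0 151 1 1) (.s 0 150 1 1)), 34, 1, 1, 1, 1⟩,
  ⟨(.sub (.s 0 751 1 1) (.s 0 750 1 1)), 34, 1, 1, 1, 1⟩,
  ⟨(.sub (.mul (.c 16777216) (.mul (.c 8) (.sub (.s 0 151 1 1) (.s 0 150 1 1)))) (.mul (.r 0 0 1 1) (.sub (.s 0 749 1 1) (.s 0 149 1 1)))), 66, 1, 1, 1, 1⟩,
  ⟨(.sub (.mul (.c 16777216) (.mul (.c 8) (.sub (.s 0 751 1 1) (.s 0 750 1 1)))) (.mul (.r 0 0 1 1) (.sub (.s 0 749 1 1) (.s 0 149 1 1)))), 66, 1, 1, 1, 1⟩,
  ⟨(.sub (.mul (.c 33554432) (.s 0 153 1 1)) (.add (.mul (.c 33554432) (.s 0 753 1 1)) (.mul (.c 1) (.mul (.r 0 0 1 1) (.add (.s 0 152 1 1) (.s 0 752 1 1)))))), 66, 1, 1, 1, 1⟩,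
  ⟨(.sub (.s 0 154 1 1) (.s 0 153 1 1)), 34, 1, 1, 1, 1⟩,
  ⟨(.sub (.s 0 754 1 1) (.s 0 753 1 1)), 34, 1, 1, 1, 1⟩,
  ⟨(.sub (.mul (.c 16777216) (.mul (.c 8) (.sub (.s 0 154 1 1) (.s 0 153 1 1)))) (.mul (.r 0 0 1 1) (.sub (.s 0 752 1 1) (.s 0 152 1 1)))), 66, 1, 1, 1, 1⟩,
  ⟨(.sub (.mul (.c 16777216) (.mul (.c 8) (.sub (.s 0 754 1 1) (.s 0 753 1 1)))) (.mul (.r 0 0 1 1) (.sub (.s 0 752 1 1) (.s 0 152 1 1)))), 66, 1, 1, 1, 1⟩,
  ⟨(.sub (.add (.mul (.q 2) (.r 0 4 1 3)) (.mul (.v 2) (.r 0 604 1 3))) (.mul (.mul (.mul (.c 16777216) (.c 1)) (.w 0 2)) (.w 2 1))), 35, 3, 1, 2, 1⟩,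
  ⟨(.sub (.r 0 0 1 1) (.c 1)), 33, 1, 1, 1, 1⟩,
  ⟨(.sub (.mul (.c 33554432) (.s 0 324 1 1)) (.add (.mul (.c 33554432) (.s 0 924 1 1)) (.mul (.c 1) (.mul (.r 0 0 1 1) (.add (.s 0 323 1 1) (.s 0 923 1 1)))))), 66, 1, 1, 1, 1⟩,
  ⟨(.sub (.s 0 325 1 1) (.s 0 324 1 1)), 34, 1, 1, 1, 1⟩,
  ⟨(.sub (.s 0 925 1 1) (.s 0 924 1 1)), 34, 1, 1, 1, 1⟩,
  ⟨(.sub (.mul (.c 16777216) (.mul (.c 8) (.sub (.s 0 325 1 1) (.s 0 324 1 1)))) (.mul (.r 0 0 1 1) (.sub (.s 0 923 1 1) (.s 0 323 1 1)))), 66, 1, 1, 1, 1⟩,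
  ⟨(.sub (.mul (.c 16777216) (.mul (.c 8) (.sub (.s 0 925 1 1) (.s 0 924 1 1)))) (.mul (.r 0 0 1 1) (.sub (.s 0 923 1 1) (.s 0 323 1 1)))), 66, 1, 1, 1, 1⟩,
  ⟨(.sub (.mul (.c 33554432) (.s 0 327 1 1)) (.add (.mul (.c 33554432) (.s 0 927 1 1)) (.mul (.c 1) (.mul (.r 0 0 1 1) (.add (.s 0 326 1 1) (.s 0 926 1 1)))))), 66, 1, 1, 1, 1⟩,
  ⟨(.sub (.s 0 328 1 1) (.s 0 327 1 1)), 34, 1, 1, 1, 1⟩,
  ⟨(.sub (.s 0 928 1 1) (.s 0 927 1 1)), 34, 1, 1, 1, 1⟩,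
  ⟨(.sub (.mul (.c 16777216) (.mul (.c 8) (.sub (.s 0 328 1 1) (.s 0 327 1 1)))) (.mul (.r 0 0 1 1) (.sub (.s 0 926 1 1) (.s 0 326 1 1)))), 66, 1, 1, 1, 1⟩,
  ⟨(.sub (.mul (.c 16777216) (.mul (.c 8) (.sub (.s 0 928 1 1) (.s 0 927 1 1)))) (.mul (.r 0 0 1 1) (.sub (.s 0 926 1 1) (.s 0 326 1 1)))), 66, 1, 1, 1, 1⟩,
  ⟨(.sub (.mul (.c 33554432) (.s 0 330 1 1)) (.add (.mul (.c 33554432) (.s 0 930 1 1)) (.mul (.c 1) (.mul (.r 0 0 1 1) (.add (.s 0 329 1 1) (.s 0 929 1 1)))))), 66, 1, 1, 1, 1⟩,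
  ⟨(.sub (.s 0 331 1 1) (.s 0 330 1 1)), 34, 1, 1, 1, 1⟩,
  ⟨(.sub (.s 0 931 1 1) (.s 0 930 1 1)), 34, 1, 1, 1, 1⟩,
  ⟨(.sub (.mul (.c 16777216) (.mul (.c 8) (.sub (.s 0 331 1 1) (.s 0 330 1 1)))) (.mul (.r 0 0 1 1) (.sub (.s 0 929 1 1) (.s 0 329 1 1)))), 66, 1, 1, 1, 1⟩,
  ⟨(.sub (.mul (.c 16777216) (.mul (.c 8) (.sub (.s 0 931 1 1) (.s 0 930 1 1)))) (.mul (.r 0 0 1 1) (.sub (.s 0 929 1 1) (.s 0 329 1 1)))), 66, 1, 1, 1, 1⟩,
  ⟨(.sub (.mul (.c 33554432) (.s 0 333 1 1)) (.add (.mul (.c 33554432) (.s 0 933 1 1)) (.mul (.c 1) (.mul (.r 0 0 1 1) (.add (.s 0 332 1 1) (.s 0 932 1 1)))))), 66, 1, 1, 1, 1⟩,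
  ⟨(.sub (.s 0 334 1 1) (.s 0 333 1 1)), 34, 1, 1, 1, 1⟩]

noncomputable def f1 : List Tc :=
 [⟨fun A S X L P R M N m a b c d e f g h D => (A (L (X (A (L (X (L (X 1024 (A (A (L (R D 2784) 4294967295) (X c (L (R D 21984) 4294967295))) (S M (L (X 2147483648 (A 1 (X c 1))) N)))) N) e) N) (L (X (L (X 171 a) N) (A (A (L (R D 2880) 4294967295) (X c (L (R D 22080) 4294967295))) (S M (L (X 2147483648 (A 1 (X c 1))) N)))) N)) 1) N) (S M (L (L (X (L (X 1024 (A (L (X (A (L (R D 7424) 4294967295) (X c (L (R D 26624) 4294967295))) (A 0 (S M (L (L (X 12 1) N) N)))) N) (A (L (X (A (L (R D 7488) 4294967295) (X c (L (R D 26688) 4294967295))) 1) N) (L (X (A (L (R D 7552) 4294967295) (X c (L (R D 26752) 4294967295))) (A 0 (S M (L (L (X 12 1) N) N)))) N)))) N) e) N) N))), 49, 2, 1, 2, 1⟩,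
  ⟨fun A S X L P R M N m a b c d e f g h D => (A (L (X (A (A (L (R D 2816) 4294967295) (X c (L (R D 22016) 4294967295))) (S M (L (X 2147483648 (A 1 (X c 1))) N))) 1) N) (S M (L (A (L (X (A (L (R D 7456) 4294967295) (X c (L (R D 26656) 4294967295))) (A 0 (S M (L (L (X 12 1) N) N)))) N) (A (L (X (A (L (R D 7520) 4294967295) (X c (L (R D 26720) 4294967295))) (L (X 2 1) N)) N) (L (X (A (L (R D 7552) 4294967295) (X c (L (R D 26752) 4294967295))) (A 0 (S M (L (L (X 24 1) N) N)))) N))) N))), 39, 1, 1, 2, 1⟩,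
  ⟨fun A S X L P R M N m a b c d e f g h D => (A (L (X (A (A (L (R D 2848) 4294967295) (X c (L (R D 22048) 4294967295))) (S M (L (X 2147483648 (A 1 (X c 1))) N))) 1) N) (S M (L (A (L (X (A (L (R D 7488) 4294967295) (X c (L (R D 26688) 4294967295))) (A 0 (S M (L (L (X 12 1) N) N)))) N) (A (L (X (A (L (R D 7520) 4294967295) (X c (L (R D 26720) 4294967295))) (A 0 (S M (L (L (X 12 1) N) N)))) N) (L (X (A (L (R D 7552) 4294967295) (X c (L (R D 26752) 4294967295))) (L (X 144 1) N)) N))) N))), 41, 1, 1, 2, 1⟩,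
  ⟨fun A S X L P R M N m a b c d e f g h D => (A (A (L (X (L (X (L (X 288230376151711744 (A (L (X (A (L (R D 2912) 4294967295) (X c (L (R D 22112) 4294967295))) (L (X 1 (A (L (X 853 e) N) (L (X 171 1) N))) N)) N) (L (X (L (X 1024 (L (X (A (L (R D 2944) 4294967295) (X c (L (R D 22144) 4294967295))) 1) N)) N) e) N))) N) (P e 5)) N) (P g 2)) N) (S M (L (L (X (A (L (X 1 (A (L (R D 128) 4294967295) (X a (A (L (R D 160) 4294967295) (X a (L (R D 192) 4294967295)))))) N) (L (X c (A (L (R D 19328) 4294967295) (X a (A (L (R D 19360) 4294967295) (X a (L (R D 19392) 4294967295)))))) N)) (A (L (X (A (L (X 1 (A (L (R D 224) 4294967295) (X a (A (L (R D 256) 4294967295) (X a (L (R D 288) 4294967295)))))) N) (L (X c (A (L (R D 19424) 4294967295) (X a (A (L (R D 19456) 4294967295) (X a (L (R D 19488) 4294967295)))))) N)) (A (L (X (L (X 1024 (L (X (A (A (L (R D 2336) 4294967295) (X c (L (R D 21536) 4294967295)))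 (S M (L (X 2147483648 (A 1 (X c 1))) N))) (A (L (X 853 e) N) (L (X 171 1) N))) N)) N) e) N) (L (X (A (A (L (R D 2368) 4294967295) (X c (L (R D 21568) 4294967295))) (S M (L (X 2147483648 (A 1 (X c 1))) N))) (L (X (L (X 171 a) N) (A (L (X 853 e) N) (L (X 171 1) N))) N)) N))) N) (L (X (L (X (L (X 17179869184 (L (X (A (A (L (R D 3296) 4294967295) (X c (L (R D 22496) 4294967295))) (S M (L (X 2147483648 (A 1 (X c 1))) N))) (A (L (X 853 e) N) (L (X 171 1) N))) N)) N) (P e 3)) N) g) N))) N) N))) (S M (L (L (X (L (X (L (X 288230376151711744 (A (L (X (A (L (R D 7584) 4294967295) (X c (L (R D 26784) 4294967295))) (L (X 2 (A (L (X 853 e) N) (L (X 171 1) N))) N)) N) (A (L (X (A (L (R D 7616) 4294967295) (X c (L (R D 26816) 4294967295))) (A (L (X 853 e) N) (L (X 171 1) N))) N) (L (X (A (L (R D 7712) 4294967295) (X c (L (R D 26912) 4294967295))) (L (X 2 (A (L (X 853 e) N) (L (X 171 1) N))) N)) N))))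 N) (P e 5)) N) (P g 2)) N) N))), 125, 7, 1, 4, 1⟩,
  ⟨fun A S X L P R M N m a b c d e f g h D => (A (A (L (X (L (X 0 (P e 5)) N) (P g 3)) N) (S M (L (L (X (A (L (X 1 (A (L (R D 128) 4294967295) (X a (A (L (R D 160) 4294967295) (X a (L (R D 192) 4294967295)))))) N) (L (X c (A (L (R D 19328) 4294967295) (X a (A (L (R D 19360) 4294967295) (X a (L (R D 19392) 4294967295)))))) N)) (A (L (X (A (L (X 1 (A (L (R D 224) 4294967295) (X a (A (L (R D 256) 4294967295) (X a (L (R D 288) 4294967295)))))) N) (L (X c (A (L (R D 19424) 4294967295) (X a (A (L (R D 19456) 4294967295) (X a (L (R D 19488) 4294967295)))))) N)) (L (X (A (L (X (L (X 1024 (A (A (L (R D 2400) 4294967295) (X c (L (R D 21600) 4294967295))) (S M (L (X 2147483648 (A 1 (X c 1))) N)))) N) e) N) (L (X (L (X 171 a) N) (A (A (L (R D 2496) 4294967295) (X c (L (R D 21696) 4294967295))) (S M (L (X 2147483648 (A 1 (X c 1))) N)))) N)) 1) N))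 N) (L (X (L (X (L (X 17179869184 (L (X (A (A (L (R D 3328) 4294967295) (X c (L (R D 22528) 4294967295))) (S M (L (X 2147483648 (A 1 (X c 1))) N))) 1) N)) N) (P e 3)) N) g) N))) N) N))) (S M (L (L (X (L (X (L (X 288230376151711744 (A (L (X (A (L (R D 7584) 4294967295) (X c (L (R D 26784) 4294967295))) (A 0 (S M (L (L (X 12 1) N) N)))) N) (A (L (X (A (L (R D 7648) 4294967295) (X c (L (R D 26848) 4294967295))) 1) N) (L (X (A (L (R D 7712) 4294967295) (X c (L (R D 26912) 4294967295))) (A 0 (S M (L (L (X 12 1) N) N)))) N)))) N) (P e 5)) N) (P g 2)) N) N))), 114, 6, 1, 4, 1⟩,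
  ⟨fun A S X L P R M N m a b c d e f g h D => (A (A (L (X (L (X 0 (P e 4)) N) (P g 3)) N) (S M (L (L (X (A (L (X 1 (A (L (R D 128) 4294967295) (X a (A (L (R D 160) 4294967295) (X a (L (R D 192) 4294967295)))))) N) (L (X c (A (L (R D 19328) 4294967295) (X a (A (L (R D 19360) 4294967295) (X a (L (R D 19392) 4294967295)))))) N)) (A (L (X (A (L (X 1 (A (L (R D 224) 4294967295) (X a (A (L (R D 256) 4294967295) (X a (L (R D 288) 4294967295)))))) N) (L (X c (A (L (R D 19424) 4294967295) (X a (A (L (R D 19456) 4294967295) (X a (L (R D 19488) 4294967295)))))) N)) (L (X (A (A (L (R D 2432) 4294967295) (X c (L (R D 21632) 4294967295))) (S M (L (X 2147483648 (A 1 (X c 1))) N))) 1) N)) N) (L (X (L (X (L (X 16777216 (L (X (A (A (L (R D 3360) 4294967295) (X c (L (R D 22560) 4294967295))) (S M (L (X 2147483648 (A 1 (X c 1))) N))) 1) N)) N) (P e 2)) N) g) N))) N) N))) (S M (L (L (X (L (X (L (X 281474976710656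 (A (L (X (A (L (R D 7616) 4294967295) (X c (L (R D 26816) 4294967295))) (A 0 (S M (L (L (X 12 1) N) N)))) N) (A (L (X (A (L (R D 7680) 4294967295) (X c (L (R D 26880) 4294967295))) (L (X 2 1) N)) N) (L (X (A (L (R D 7712) 4294967295) (X c (L (R D 26912) 4294967295))) (A 0 (S M (L (L (X 24 1) N) N)))) N)))) N) (P e 4)) N) (P g 2)) N) N))), 103, 5, 1, 4, 1⟩,
  ⟨fun A S X L P R M N m a b c d e f g h D => (A (A (L (X (L (X 0 (P e 4)) N) (P g 3)) N) (S M (L (L (X (A (L (X 1 (A (L (R D 128) 4294967295) (X a (A (L (R D 160) 4294967295) (X a (L (R D 192) 4294967295)))))) N) (L (X c (A (L (R D 19328) 4294967295) (X a (A (L (R D 19360) 4294967295) (X a (L (R D 19392) 4294967295)))))) N)) (A (L (X (A (L (X 1 (A (L (R D 224) 4294967295) (X a (A (L (R D 256) 4294967295) (X a (L (R D 288) 4294967295)))))) N) (L (X c (A (L (R D 19424) 4294967295) (X a (A (L (R D 19456) 4294967295) (X a (L (R D 19488)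 4294967295)))))) N)) (L (X (A (A (L (R D 2464) 4294967295) (X c (L (R D 21664) 4294967295))) (S M (L (X 2147483648 (A 1 (X c 1))) N))) 1) N)) N) (L (X (L (X (L (X 16777216 (L (X (A (A (L (R D 3392) 4294967295) (X c (L (R D 22592) 4294967295))) (S M (L (X 2147483648 (A 1 (X c 1))) N))) 1) N)) N) (P e 2)) N) g) N))) N) N))) (S M (L (L (X (L (X (L (X 281474976710656 (A (L (X (A (L (R D 7648) 4294967295) (X c (L (R D 26848) 4294967295))) (A 0 (S M (L (L (X 12 1) N) N)))) N) (A (L (X (A (L (R D 7680) 4294967295) (X c (L (R D 26880) 4294967295))) (A 0 (S M (L (L (X 12 1) N) N)))) N) (L (X (A (L (R D 7712) 4294967295) (X c (L (R D 26912) 4294967295))) (L (X 144 1) N)) N)))) N) (P e 4)) N) (P g 2)) N) N))), 103, 5, 1, 4, 1⟩,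
  ⟨fun A S X L P R M N m a b c d e f g h D => (A (A (L (X (L (X (L (X 288230376151711744 (A (L (X (A (L (R D 2976) 4294967295) (X c (L (R D 22176) 4294967295))) (L (X 1 (A (L (X 853 e) N) (L (X 171 1) N))) N)) N) (L (X (L (X 1024 (L (X (A (L (R D 3008) 4294967295) (X c (L (R D 22208) 4294967295))) 1) N)) N) e) N))) N) (P e 5)) N) (P g 2)) N) (S M (L (L (X (A (L (X 1 (A (L (R D 128) 4294967295) (X a (A (L (R D 160) 4294967295) (X a (L (R D 192) 4294967295)))))) N) (L (X c (A (L (R D 19328) 4294967295) (X a (A (L (R D 19360) 4294967295) (X a (L (R D 19392) 4294967295)))))) N)) (A (L (X (A (L (X 1 (A (L (R D 224) 4294967295) (X a (A (L (R D 256) 4294967295) (X a (L (R D 288) 4294967295)))))) N) (L (X c (A (L (R D 19424) 4294967295) (X a (A (L (R D 19456) 4294967295) (X a (L (R D 19488) 4294967295)))))) N)) (A (L (X (L (X 1024 (L (X (A (A (L (R D 2720) 4294967295) (X c (L (R D 21920) 4294967295)))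 (S M (L (X 2147483648 (A 1 (X c 1))) N))) (A (L (X 853 e) N) (L (X 171 1) N))) N)) N) e) N) (L (X (A (A (L (R D 2752) 4294967295) (X c (L (R D 21952) 4294967295))) (S M (L (X 2147483648 (A 1 (X c 1))) N))) (L (X (L (X 171 a) N) (A (L (X 853 e) N) (L (X 171 1) N))) N)) N))) N) (L (X (L (X (L (X 17179869184 (L (X (A (A (L (R D 3424) 4294967295) (X c (L (R D 22624) 4294967295))) (S M (L (X 2147483648 (A 1 (X c 1))) N))) (A (L (X 853 e) N) (L (X 171 1) N))) N)) N) (P e 3)) N) g) N))) N) N))) (S M (L (L (X (L (X (L (X 288230376151711744 (A (L (X (A (L (R D 7744) 4294967295) (X c (L (R D 26944) 4294967295))) (L (X 2 (A (L (X 853 e) N) (L (X 171 1) N))) N)) N) (A (L (X (A (L (R D 7776) 4294967295) (X c (L (R D 26976) 4294967295))) (A (L (X 853 e) N) (L (X 171 1) N))) N) (L (X (A (L (R D 7872) 4294967295) (X c (L (R D 27072) 4294967295))) (L (X 2 (A (L (X 853 e) N) (L (X 171 1) N))) N)) N))))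 N) (P e 5)) N) (P g 2)) N) N))), 125, 7, 1, 4, 1⟩,
  ⟨fun A S X L P R M N m a b c d e f g h D => (A (A (L (X (L (X 0 (P e 5)) N) (P g 3)) N) (S M (L (L (X (A (L (X 1 (A (L (R D 128) 4294967295) (X a (A (L (R D 160) 4294967295) (X a (L (R D 192) 4294967295)))))) N) (L (X c (A (L (R D 19328) 4294967295) (X a (A (L (R D 19360) 4294967295) (X a (L (R D 19392) 4294967295)))))) N)) (A (L (X (A (L (X 1 (A (L (R D 224) 4294967295) (X a (A (L (R D 256) 4294967295) (X a (L (R D 288) 4294967295)))))) N) (L (X c (A (L (R D 19424) 4294967295) (X a (A (L (R D 19456) 4294967295) (X a (L (R D 19488) 4294967295)))))) N)) (L (X (A (L (X (L (X 1024 (A (A (L (R D 2784) 4294967295) (X c (L (R D 21984) 4294967295))) (S M (L (X 2147483648 (A 1 (X c 1))) N)))) N) e) N) (L (X (L (X 171 a) N) (A (A (L (R D 2880) 4294967295) (X c (L (R D 22080) 4294967295))) (S M (L (X 2147483648 (A 1 (X c 1))) N)))) N)) 1) N))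 N) (L (X (L (X (L (X 17179869184 (L (X (A (A (L (R D 3456) 4294967295) (X c (L (R D 22656) 4294967295))) (S M (L (X 2147483648 (A 1 (X c 1))) N))) 1) N)) N) (P e 3)) N) g) N))) N) N))) (S M (L (L (X (L (X (L (X 288230376151711744 (A (L (X (A (L (R D 7744) 4294967295) (X c (L (R D 26944) 4294967295))) (A 0 (S M (L (L (X 12 1) N) N)))) N) (A (L (X (A (L (R D 7808) 4294967295) (X c (L (R D 27008) 4294967295))) 1) N) (L (X (A (L (R D 7872) 4294967295) (X c (L (R D 27072) 4294967295))) (A 0 (S M (L (L (X 12 1) N) N)))) N)))) N) (P e 5)) N) (P g 2)) N) N))), 114, 6, 1, 4, 1⟩,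
  ⟨fun A S X L P R M N m a b c d e f g h D => (A (A (L (X (L (X 0 (P e 4)) N) (P g 3)) N) (S M (L (L (X (A (L (X 1 (A (L (R D 128) 4294967295) (X a (A (L (R D 160) 4294967295) (X a (L (R D 192) 4294967295)))))) N) (L (X c (A (L (R D 19328) 4294967295) (X a (A (L (R D 19360) 4294967295) (X a (L (R D 19392) 4294967295)))))) N)) (A (L (X (A (L (X 1 (A (L (R D 224) 4294967295) (X a (A (L (R D 256) 4294967295) (X a (L (R D 288) 4294967295)))))) N) (L (X c (A (L (R D 19424) 4294967295) (X a (A (L (R D 19456) 4294967295) (X a (L (R D 19488) 4294967295)))))) N)) (L (X (A (A (L (R D 2816) 4294967295) (X c (L (R D 22016) 4294967295))) (S M (L (X 2147483648 (A 1 (X c 1))) N))) 1) N)) N) (L (X (L (X (L (X 16777216 (L (X (A (A (L (R D 3488) 4294967295) (X c (L (R D 22688) 4294967295))) (S M (L (X 2147483648 (A 1 (X c 1))) N))) 1) N)) N) (P e 2)) N) g) N))) N) N))) (S M (L (L (X (L (X (L (X 281474976710656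 (A (L (X (A (L (R D 7776) 4294967295) (X c (L (R D 26976) 4294967295))) (A 0 (S M (L (L (X 12 1) N) N)))) N) (A (L (X (A (L (R D 7840) 4294967295) (X c (L (R D 27040) 4294967295))) (L (X 2 1) N)) N) (L (X (A (L (R D 7872) 4294967295) (X c (L (R D 27072) 4294967295))) (A 0 (S M (L (L (X 24 1) N) N)))) N)))) N) (P e 4)) N) (P g 2)) N) N))), 103, 5, 1, 4, 1⟩,
  ⟨fun A S X L P R M N m a b c d e f g h D => (A (A (L (X (L (X 0 (P e 4)) N) (P g 3)) N) (S M (L (L (X (A (L (X 1 (A (L (R D 128) 4294967295) (X a (A (L (R D 160) 4294967295) (X a (L (R D 192) 4294967295)))))) N) (L (X c (A (L (R D 19328) 4294967295) (X a (A (L (R D 19360) 4294967295) (X a (L (R D 19392) 4294967295)))))) N)) (A (L (X (A (L (X 1 (A (L (R D 224) 4294967295) (X a (A (L (R D 256) 4294967295) (X a (L (R D 288) 4294967295)))))) N) (L (X c (A (L (R D 19424) 4294967295) (X a (A (L (R D 19456) 4294967295) (X a (L (R D 19488)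 4294967295)))))) N)) (L (X (A (A (L (R D 2848) 4294967295) (X c (L (R D 22048) 4294967295))) (S M (L (X 2147483648 (A 1 (X c 1))) N))) 1) N)) N) (L (X (L (X (L (X 16777216 (L (X (A (A (L (R D 3520) 4294967295) (X c (L (R D 22720) 4294967295))) (S M (L (X 2147483648 (A 1 (X c 1))) N))) 1) N)) N) (P e 2)) N) g) N))) N) N))) (S M (L (L (X (L (X (L (X 281474976710656 (A (L (X (A (L (R D 7808) 4294967295) (X c (L (R D 27008) 4294967295))) (A 0 (S M (L (L (X 12 1) N) N)))) N) (A (L (X (A (L (R D 7840) 4294967295) (X c (L (R D 27040) 4294967295))) (A 0 (S M (L (L (X 12 1) N) N)))) N) (L (X (A (L (R D 7872) 4294967295) (X c (L (R D 27072) 4294967295))) (L (X 144 1) N)) N)))) N) (P e 4)) N) (P g 2)) N) N))), 103, 5, 1, 4, 1⟩,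
  ⟨fun A S X L P R M N m a b c d e f g h D => (A (A (L (X 1024 (A (L (X 1 (A (L (R D 224) 4294967295) (X a (A (L (R D 256) 4294967295) (X a (L (R D 288) 4294967295)))))) N) (L (X c (A (L (R D 19424) 4294967295) (X a (A (L (R D 19456) 4294967295) (X a (L (R D 19488) 4294967295)))))) N))) N) (S M (L (L (X (L (X (A (A (L (R D 1088) 4294967295) (X c (L (R D 20288) 4294967295))) (S M (L (X 2147483648 (A 1 (X c 1))) N))) (A (L (X 853 e) N) (L (X 171 1) N))) N) e) N) N))) (S M (L (L (X (A (L (X (A (L (R D 16672) 4294967295) (X c (L (R D 35872) 4294967295))) (L (X 2 (A (L (X 853 e) N) (L (X 171 1) N))) N)) N) (A (L (X (A (L (R D 16704) 4294967295) (X c (L (R D 35904) 4294967295))) (A (L (X 853 e) N) (L (X 171 1) N))) N) (L (X (A (L (R D 16800) 4294967295) (X c (L (R D 36000) 4294967295))) (L (X 2 (A (L (X 853 e) N) (L (X 171 1) N))) N)) N))) e) N) N))), 48, 3, 1, 2, 1⟩,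
  ⟨fun A S X L P R M N m a b c d e f g h D => (A (A (L (X 0 g) N) (S M (L (L (X (A (A (L (R D 1120) 4294967295) (X c (L (R D 20320) 4294967295))) (S M (L (X 2147483648 (A 1 (X c 1))) N))) 1) N) N))) (S M (L (A (L (X (A (L (R D 16672) 4294967295) (X c (L (R D 35872) 4294967295))) (A 0 (S M (L (L (X 12 1) N) N)))) N) (A (L (X (A (L (R D 16736) 4294967295) (X c (L (R D 35936) 4294967295))) 1) N) (L (X (A (L (R D 16800) 4294967295) (X c (L (R D 36000) 4294967295))) (A 0 (S M (L (L (X 12 1) N) N)))) N))) N))), 38, 1, 1, 2, 1⟩,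
  ⟨fun A S X L P R M N m a b c d e f g h D => (A (A (L (X 0 g) N) (S M (L (L (X (A (A (L (R D 1152) 4294967295) (X c (L (R D 20352) 4294967295))) (S M (L (X 2147483648 (A 1 (X c 1))) N))) 1) N) N))) (S M (L (A (L (X (A (L (R D 16704) 4294967295) (X c (L (R D 35904) 4294967295))) (A 0 (S M (L (L (X 12 1) N) N)))) N) (A (L (X (A (L (R D 16768) 4294967295) (X c (L (R D 35968) 4294967295))) (L (X 2 1) N)) N) (L (X (A (L (R D 16800) 4294967295) (X c (L (R D 36000) 4294967295))) (A 0 (S M (L (L (X 24 1) N) N)))) N))) N))), 39, 1, 1, 2, 1⟩,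
  ⟨fun A S X L P R M N m a b c d e f g h D => (A (A (L (X 0 g) N) (S M (L (L (X (A (A (L (R D 1184) 4294967295) (X c (L (R D 20384) 4294967295))) (S M (L (X 2147483648 (A 1 (X c 1))) N))) 1) N) N))) (S M (L (A (L (X (A (L (R D 16736) 4294967295) (X c (L (R D 35936) 4294967295))) (A 0 (S M (L (L (X 12 1) N) N)))) N) (A (L (X (A (L (R D 16768) 4294967295) (X c (L (R D 35968) 4294967295))) (A 0 (S M (L (L (X 12 1) N) N)))) N) (L (X (A (L (R D 16800) 4294967295) (X c (L (R D 36000) 4294967295))) (L (X 144 1) N)) N))) N))), 41, 1, 1, 2, 1⟩,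
  ⟨fun A S X L P R M N m a b c d e f g h D => (A (A (L (X (L (X 1024 (L (X (A (A (L (R D 320) 4294967295) (X c (L (R D 19520) 4294967295))) (S M (L (X 2147483648 (A 1 (X c 1))) N))) (A (L (X 853 e) N) (L (X 171 1) N))) N)) N) e) N) (L (X (A (A (L (R D 352) 4294967295) (X c (L (R D 19552) 4294967295))) (S M (L (X 2147483648 (A 1 (X c 1))) N))) (L (X (L (X 171 a) N) (A (L (X 853 e) N) (L (X 171 1) N))) N)) N)) (S M (L (L (X (L (X 1024 (A (L (X (A (L (R D 16832) 4294967295) (X c (L (R D 36032) 4294967295))) (L (X 2 (A (L (X 853 e) N) (L (X 171 1) N))) N)) N) (A (L (X (A (L (R D 16864) 4294967295) (X c (L (R D 36064) 4294967295))) (A (L (X 853 e) N) (L (X 171 1) N))) N) (L (X (A (L (R D 16960) 4294967295) (X c (L (R D 36160) 4294967295))) (L (X 2 (A (L (X 853 e) N) (L (X 171 1) N))) N)) N)))) N) e) N) N))), 58, 3, 1, 2, 1⟩,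
  ⟨fun A S X L P R M N m a b c d e f g h D => (A (L (X (A (L (X (L (X 1024 (A (A (L (R D 384) 4294967295) (X c (L (R D 19584) 4294967295))) (S M (L (X 2147483648 (A 1 (X c 1))) N)))) N) e) N) (L (X (L (X 171 a) N) (A (A (L (R D 480) 4294967295) (X c (L (R D 19680) 4294967295))) (S M (L (X 2147483648 (A 1 (X c 1))) N)))) N)) 1) N) (S M (L (L (X (L (X 1024 (A (L (X (A (L (R D 16832) 4294967295) (X c (L (R D 36032) 4294967295))) (A 0 (S M (L (L (X 12 1) N) N)))) N) (A (L (X (A (L (R D 16896) 4294967295) (X c (L (R D 36096) 4294967295))) 1) N) (L (X (A (L (R D 16960) 4294967295) (X c (L (R D 36160) 4294967295))) (A 0 (S M (L (L (X 12 1) N) N)))) N)))) N) e) N) N))), 49, 2, 1, 2, 1⟩,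
  ⟨fun A S X L P R M N m a b c d e f g h D => (A (L (X (A (A (L (R D 416) 4294967295) (X c (L (R D 19616) 4294967295))) (S M (L (X 2147483648 (A 1 (X c 1))) N))) 1) N) (S M (L (A (L (X (A (L (R D 16864) 4294967295) (X c (L (R D 36064) 4294967295))) (A 0 (S M (L (L (X 12 1) N) N)))) N) (A (L (X (A (L (R D 16928) 4294967295) (X c (L (R D 36128) 4294967295))) (L (X 2 1) N)) N) (L (X (A (L (R D 16960) 4294967295) (X c (L (R D 36160) 4294967295))) (A 0 (S M (L (L (X 24 1) N) N)))) N))) N))), 39, 1, 1, 2, 1⟩,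
  ⟨fun A S X L P R M N m a b c d e f g h D => (A (L (X (A (A (L (R D 448) 4294967295) (X c (L (R D 19648) 4294967295))) (S M (L (X 2147483648 (A 1 (X c 1))) N))) 1) N) (S M (L (A (L (X (A (L (R D 16896) 4294967295) (X c (L (R D 36096) 4294967295))) (A 0 (S M (L (L (X 12 1) N) N)))) N) (A (L (X (A (L (R D 16928) 4294967295) (X c (L (R D 36128) 4294967295))) (A 0 (S M (L (L (X 12 1) N) N)))) N) (L (X (A (L (R D 16960) 4294967295) (X c (L (R D 36160) 4294967295))) (L (X 144 1) N)) N))) N))), 41, 1, 1, 2, 1⟩,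
  ⟨fun A S X L P R M N m a b c d e f g h D => (A (A (L (X (L (X 1024 (L (X (A (A (L (R D 512) 4294967295) (X c (L (R D 19712) 4294967295))) (S M (L (X 2147483648 (A 1 (X c 1))) N))) (A (L (X 853 e) N) (L (X 171 1) N))) N)) N) e) N) (L (X (A (A (L (R D 544) 4294967295) (X c (L (R D 19744) 4294967295))) (S M (L (X 2147483648 (A 1 (X c 1))) N))) (L (X (L (X 171 a) N) (A (L (X 853 e) N) (L (X 171 1) N))) N)) N)) (S M (L (L (X (L (X 1024 (A (L (X (A (L (R D 17152) 4294967295) (X c (L (R D 36352) 4294967295))) (L (X 2 (A (L (X 853 e) N) (L (X 171 1) N))) N)) N) (A (L (X (A (L (R D 17184) 4294967295) (X c (L (R D 36384) 4294967295))) (A (L (X 853 e) N) (L (X 171 1) N))) N) (L (X (A (L (R D 17280) 4294967295) (X c (L (R D 36480) 4294967295))) (L (X 2 (A (L (X 853 e) N) (L (X 171 1) N))) N)) N)))) N) e) N) N))), 58, 3, 1, 2, 1⟩,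
  ⟨fun A S X L P R M N m a b c d e f g h D => (A (L (X (A (L (X (L (X 1024 (A (A (L (R D 576) 4294967295) (X c (L (R D 19776) 4294967295))) (S M (L (X 2147483648 (A 1 (X c 1))) N)))) N) e) N) (L (X (L (X 171 a) N) (A (A (L (R D 672) 4294967295) (X c (L (R D 19872) 4294967295))) (S M (L (X 2147483648 (A 1 (X c 1))) N)))) N)) 1) N) (S M (L (L (X (L (X 1024 (A (L (X (A (L (R D 17152) 4294967295) (X c (L (R D 36352) 4294967295))) (A 0 (S M (L (L (X 12 1) N) N)))) N) (A (L (X (A (L (R D 17216) 4294967295) (X c (L (R D 36416) 4294967295))) 1) N) (L (X (A (L (R D 17280) 4294967295) (X c (L (R D 36480) 4294967295))) (A 0 (S M (L (L (X 12 1) N) N)))) N)))) N) e) N) N))), 49, 2, 1, 2, 1⟩,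
  ⟨fun A S X L P R M N m a b c d e f g h D => (A (L (X (A (A (L (R D 608) 4294967295) (X c (L (R D 19808) 4294967295))) (S M (L (X 2147483648 (A 1 (X c 1))) N))) 1) N) (S M (L (A (L (X (A (L (R D 17184) 4294967295) (X c (L (R D 36384) 4294967295))) (A 0 (S M (L (L (X 12 1) N) N)))) N) (A (L (X (A (L (R D 17248) 4294967295) (X c (L (R D 36448) 4294967295))) (L (X 2 1) N)) N) (L (X (A (L (R D 17280) 4294967295) (X c (L (R D 36480) 4294967295))) (A 0 (S M (L (L (X 24 1) N) N)))) N))) N))), 39, 1, 1, 2, 1⟩,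
  ⟨fun A S X L P R M N m a b c d e f g h D => (A (L (X (A (A (L (R D 640) 4294967295) (X c (L (R D 19840) 4294967295))) (S M (L (X 2147483648 (A 1 (X c 1))) N))) 1) N) (S M (L (A (L (X (A (L (R D 17216) 4294967295) (X c (L (R D 36416) 4294967295))) (A 0 (S M (L (L (X 12 1) N) N)))) N) (A (L (X (A (L (R D 17248) 4294967295) (X c (L (R D 36448) 4294967295))) (A 0 (S M (L (L (X 12 1) N) N)))) N) (L (X (A (L (R D 17280) 4294967295) (X c (L (R D 36480) 4294967295))) (L (X 144 1) N)) N))) N))), 41, 1, 1, 2, 1⟩,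
  ⟨fun A S X L P R M N m a b c d e f g h D => (A (A (L (X (L (X (L (X 288230376151711744 (A (L (X (A (L (R D 8288) 4294967295) (X c (L (R D 27488) 4294967295))) (L (X 1 (A (L (X 853 e) N) (L (X 171 1) N))) N)) N) (L (X (L (X 1024 (L (X (A (L (R D 8320) 4294967295) (X c (L (R D 27520) 4294967295))) 1) N)) N) e) N))) N) (P e 5)) N) (P g 2)) N) (S M (L (L (X (A (L (X 1 (A (L (R D 128) 4294967295) (X a (A (L (R D 160) 4294967295) (X a (L (R D 192) 4294967295)))))) N) (L (X c (A (L (R D 19328) 4294967295) (X a (A (L (R D 19360) 4294967295) (X a (L (R D 19392) 4294967295)))))) N)) (A (L (X (A (L (X 1 (A (L (R D 224) 4294967295) (X a (A (L (R D 256) 4294967295) (X a (L (R D 288) 4294967295)))))) N) (L (X c (A (L (R D 19424) 4294967295) (X a (A (L (R D 19456) 4294967295) (X a (L (R D 19488) 4294967295)))))) N)) (A (L (X (L (X 1024 (L (X (A (A (L (R D 512) 4294967295) (X c (L (R D 19712) 4294967295)))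 (S M (L (X 2147483648 (A 1 (X c 1))) N))) (A (L (X 853 e) N) (L (X 171 1) N))) N)) N) e) N) (L (X (A (A (L (R D 544) 4294967295) (X c (L (R D 19744) 4294967295))) (S M (L (X 2147483648 (A 1 (X c 1))) N))) (L (X (L (X 171 a) N) (A (L (X 853 e) N) (L (X 171 1) N))) N)) N))) N) (L (X (L (X (L (X 17179869184 (L (X (A (A (L (R D 8800) 4294967295) (X c (L (R D 28000) 4294967295))) (S M (L (X 2147483648 (A 1 (X c 1))) N))) (A (L (X 853 e) N) (L (X 171 1) N))) N)) N) (P e 3)) N) g) N))) N) N))) (S M (L (L (X (L (X (L (X 288230376151711744 (A (L (X (A (L (R D 17472) 4294967295) (X c (L (R D 36672) 4294967295))) (L (X 2 (A (L (X 853 e) N) (L (X 171 1) N))) N)) N) (A (L (X (A (L (R D 17504) 4294967295) (X c (L (R D 36704) 4294967295))) (A (L (X 853 e) N) (L (X 171 1) N))) N) (L (X (A (L (R D 17600) 4294967295) (X c (L (R D 36800) 4294967295))) (L (X 2 (A (L (X 853 e) N) (L (X 171 1) N))) N)) N))))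 N) (P e 5)) N) (P g 2)) N) N))), 125, 7, 1, 4, 1⟩,
  ⟨fun A S X L P R M N m a b c d e f g h D => (A (A (L (X (L (X 0 (P e 5)) N) (P g 3)) N) (S M (L (L (X (A (L (X 1 (A (L (R D 128) 4294967295) (X a (A (L (R D 160) 4294967295) (X a (L (R D 192) 4294967295)))))) N) (L (X c (A (L (R D 19328) 4294967295) (X a (A (L (R D 19360) 4294967295) (X a (L (R D 19392) 4294967295)))))) N)) (A (L (X (A (L (X 1 (A (L (R D 224) 4294967295) (X a (A (L (R D 256) 4294967295) (X a (L (R D 288) 4294967295)))))) N) (L (X c (A (L (R D 19424) 4294967295) (X a (A (L (R D 19456) 4294967295) (X a (L (R D 19488) 4294967295)))))) N)) (L (X (A (L (X (L (X 1024 (A (A (L (R D 576) 4294967295) (X c (L (R D 19776) 4294967295))) (S M (L (X 2147483648 (A 1 (X c 1))) N)))) N) e) N) (L (X (L (X 171 a) N) (A (A (L (R D 672) 4294967295) (X c (L (R D 19872) 4294967295))) (S M (L (X 2147483648 (A 1 (X c 1))) N)))) N)) 1) N))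 N) (L (X (L (X (L (X 17179869184 (L (X (A (A (L (R D 8832) 4294967295) (X c (L (R D 28032) 4294967295))) (S M (L (X 2147483648 (A 1 (X c 1))) N))) 1) N)) N) (P e 3)) N) g) N))) N) N))) (S M (L (L (X (L (X (L (X 288230376151711744 (A (L (X (A (L (R D 17472) 4294967295) (X c (L (R D 36672) 4294967295))) (A 0 (S M (L (L (X 12 1) N) N)))) N) (A (L (X (A (L (R D 17536) 4294967295) (X c (L (R D 36736) 4294967295))) 1) N) (L (X (A (L (R D 17600) 4294967295) (X c (L (R D 36800) 4294967295))) (A 0 (S M (L (L (X 12 1) N) N)))) N)))) N) (P e 5)) N) (P g 2)) N) N))), 114, 6, 1, 4, 1⟩,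
  ⟨fun A S X L P R M N m a b c d e f g h D => (A (A (L (X (L (X 0 (P e 4)) N) (P g 3)) N) (S M (L (L (X (A (L (X 1 (A (L (R D 128) 4294967295) (X a (A (L (R D 160) 4294967295) (X a (L (R D 192) 4294967295)))))) N) (L (X c (A (L (R D 19328) 4294967295) (X a (A (L (R D 19360) 4294967295) (X a (L (R D 19392) 4294967295)))))) N)) (A (L (X (A (L (X 1 (A (L (R D 224) 4294967295) (X a (A (L (R D 256) 4294967295) (X a (L (R D 288) 4294967295)))))) N) (L (X c (A (L (R D 19424) 4294967295) (X a (A (L (R D 19456) 4294967295) (X a (L (R D 19488) 4294967295)))))) N)) (L (X (A (A (L (R D 608) 4294967295) (X c (L (R D 19808) 4294967295))) (S M (L (X 2147483648 (A 1 (X c 1))) N))) 1) N)) N) (L (X (L (X (L (X 16777216 (L (X (A (A (L (R D 8864) 4294967295) (X c (L (R D 28064) 4294967295))) (S M (L (X 2147483648 (A 1 (X c 1))) N))) 1) N)) N) (P e 2)) N) g) N))) N) N))) (S M (L (L (X (L (X (L (X 281474976710656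 (A (L (X (A (L (R D 17504) 4294967295) (X c (L (R D 36704) 4294967295))) (A 0 (S M (L (L (X 12 1) N) N)))) N) (A (L (X (A (L (R D 17568) 4294967295) (X c (L (R D 36768) 4294967295))) (L (X 2 1) N)) N) (L (X (A (L (R D 17600) 4294967295) (X c (L (R D 36800) 4294967295))) (A 0 (S M (L (L (X 24 1) N) N)))) N)))) N) (P e 4)) N) (P g 2)) N) N))), 103, 5, 1, 4, 1⟩,
  ⟨fun A S X L P R M N m a b c d e f g h D => (A (A (L (X (L (X 0 (P e 4)) N) (P g 3)) N) (S M (L (L (X (A (L (X 1 (A (L (R D 128) 4294967295) (X a (A (L (R D 160) 4294967295) (X a (L (R D 192) 4294967295)))))) N) (L (X c (A (L (R D 19328) 4294967295) (X a (A (L (R D 19360) 4294967295) (X a (L (R D 19392) 4294967295)))))) N)) (A (L (X (A (L (X 1 (A (L (R D 224) 4294967295) (X a (A (L (R D 256) 4294967295) (X a (L (R D 288) 4294967295)))))) N) (L (X c (A (L (R D 19424) 4294967295) (X a (A (L (R D 19456) 4294967295) (X a (L (R D 19488)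 4294967295)))))) N)) (L (X (A (A (L (R D 640) 4294967295) (X c (L (R D 19840) 4294967295))) (S M (L (X 2147483648 (A 1 (X c 1))) N))) 1) N)) N) (L (X (L (X (L (X 16777216 (L (X (A (A (L (R D 8896) 4294967295) (X c (L (R D 28096) 4294967295))) (S M (L (X 2147483648 (A 1 (X c 1))) N))) 1) N)) N) (P e 2)) N) g) N))) N) N))) (S M (L (L (X (L (X (L (X 281474976710656 (A (L (X (A (L (R D 17536) 4294967295) (X c (L (R D 36736) 4294967295))) (A 0 (S M (L (L (X 12 1) N) N)))) N) (A (L (X (A (L (R D 17568) 4294967295) (X c (L (R D 36768) 4294967295))) (A 0 (S M (L (L (X 12 1) N) N)))) N) (L (X (A (L (R D 17600) 4294967295) (X c (L (R D 36800) 4294967295))) (L (X 144 1) N)) N)))) N) (P e 4)) N) (P g 2)) N) N))), 103, 5, 1, 4, 1⟩,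
  ⟨fun A S X L P R M N m a b c d e f g h D => (A (A (L (X (L (X (L (X 288230376151711744 (A (L (X (A (L (R D 8416) 4294967295) (X c (L (R D 27616) 4294967295))) (L (X 1 (A (L (X 853 e) N) (L (X 171 1) N))) N)) N) (L (X (L (X 1024 (L (X (A (L (R D 8448) 4294967295) (X c (L (R D 27648) 4294967295))) 1) N)) N) e) N))) N) (P e 5)) N) (P g 2)) N) (S M (L (L (X (A (L (X 1 (A (L (R D 128) 4294967295) (X a (A (L (R D 160) 4294967295) (X a (L (R D 192) 4294967295)))))) N) (L (X c (A (L (R D 19328) 4294967295) (X a (A (L (R D 19360) 4294967295) (X a (L (R D 19392) 4294967295)))))) N)) (A (L (X (A (L (X 1 (A (L (R D 224) 4294967295) (X a (A (L (R D 256) 4294967295) (X a (L (R D 288) 4294967295)))))) N) (L (X c (A (L (R D 19424) 4294967295) (X a (A (L (R D 19456) 4294967295) (X a (L (R D 19488) 4294967295)))))) N)) (A (L (X (L (X 1024 (L (X (A (A (L (R D 320) 4294967295) (X c (L (R D 19520) 4294967295)))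 (S M (L (X 2147483648 (A 1 (X c 1))) N))) (A (L (X 853 e) N) (L (X 171 1) N))) N)) N) e) N) (L (X (A (A (L (R D 352) 4294967295) (X c (L (R D 19552) 4294967295))) (S M (L (X 2147483648 (A 1 (X c 1))) N))) (L (X (L (X 171 a) N) (A (L (X 853 e) N) (L (X 171 1) N))) N)) N))) N) (L (X (L (X (L (X 17179869184 (L (X (A (A (L (R D 9056) 4294967295) (X c (L (R D 28256) 4294967295))) (S M (L (X 2147483648 (A 1 (X c 1))) N))) (A (L (X 853 e) N) (L (X 171 1) N))) N)) N) (P e 3)) N) g) N))) N) N))) (S M (L (L (X (L (X (L (X 288230376151711744 (A (L (X (A (L (R D 17792) 4294967295) (X c (L (R D 36992) 4294967295))) (L (X 2 (A (L (X 853 e) N) (L (X 171 1) N))) N)) N) (A (L (X (A (L (R D 17824) 4294967295) (X c (L (R D 37024) 4294967295))) (A (L (X 853 e) N) (L (X 171 1) N))) N) (L (X (A (L (R D 17920) 4294967295) (X c (L (R D 37120) 4294967295))) (L (X 2 (A (L (X 853 e) N) (L (X 171 1) N))) N)) N))))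 N) (P e 5)) N) (P g 2)) N) N))), 125, 7, 1, 4, 1⟩,
  ⟨fun A S X L P R M N m a b c d e f g h D => (A (A (L (X (L (X 0 (P e 5)) N) (P g 3)) N) (S M (L (L (X (A (L (X 1 (A (L (R D 128) 4294967295) (X a (A (L (R D 160) 4294967295) (X a (L (R D 192) 4294967295)))))) N) (L (X c (A (L (R D 19328) 4294967295) (X a (A (L (R D 19360) 4294967295) (X a (L (R D 19392) 4294967295)))))) N)) (A (L (X (A (L (X 1 (A (L (R D 224) 4294967295) (X a (A (L (R D 256) 4294967295) (X a (L (R D 288) 4294967295)))))) N) (L (X c (A (L (R D 19424) 4294967295) (X a (A (L (R D 19456) 4294967295) (X a (L (R D 19488) 4294967295)))))) N)) (L (X (A (L (X (L (X 1024 (A (A (L (R D 384) 4294967295) (X c (L (R D 19584) 4294967295))) (S M (L (X 2147483648 (A 1 (X c 1))) N)))) N) e) N) (L (X (L (X 171 a) N) (A (A (L (R D 480) 4294967295) (X c (L (R D 19680) 4294967295))) (S M (L (X 2147483648 (A 1 (X c 1))) N)))) N)) 1) N))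 N) (L (X (L (X (L (X 17179869184 (L (X (A (A (L (R D 9088) 4294967295) (X c (L (R D 28288) 4294967295))) (S M (L (X 2147483648 (A 1 (X c 1))) N))) 1) N)) N) (P e 3)) N) g) N))) N) N))) (S M (L (L (X (L (X (L (X 288230376151711744 (A (L (X (A (L (R D 17792) 4294967295) (X c (L (R D 36992) 4294967295))) (A 0 (S M (L (L (X 12 1) N) N)))) N) (A (L (X (A (L (R D 17856) 4294967295) (X c (L (R D 37056) 4294967295))) 1) N) (L (X (A (L (R D 17920) 4294967295) (X c (L (R D 37120) 4294967295))) (A 0 (S M (L (L (X 12 1) N) N)))) N)))) N) (P e 5)) N) (P g 2)) N) N))), 114, 6, 1, 4, 1⟩,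
  ⟨fun A S X L P R M N m a b c d e f g h D => (A (A (L (X (L (X 0 (P e 4)) N) (P g 3)) N) (S M (L (L (X (A (L (X 1 (A (L (R D 128) 4294967295) (X a (A (L (R D 160) 4294967295) (X a (L (R D 192) 4294967295)))))) N) (L (X c (A (L (R D 19328) 4294967295) (X a (A (L (R D 19360) 4294967295) (X a (L (R D 19392) 4294967295)))))) N)) (A (L (X (A (L (X 1 (A (L (R D 224) 4294967295) (X a (A (L (R D 256) 4294967295) (X a (L (R D 288) 4294967295)))))) N) (L (X c (A (L (R D 19424) 4294967295) (X a (A (L (R D 19456) 4294967295) (X a (L (R D 19488) 4294967295)))))) N)) (L (X (A (A (L (R D 416) 4294967295) (X c (L (R D 19616) 4294967295))) (S M (L (X 2147483648 (A 1 (X c 1))) N))) 1) N)) N) (L (X (L (X (L (X 16777216 (L (X (A (A (L (R D 9120) 4294967295) (X c (L (R D 28320) 4294967295))) (S M (L (X 2147483648 (A 1 (X c 1))) N))) 1) N)) N) (P e 2)) N) g) N))) N) N))) (S M (L (L (X (L (X (L (X 281474976710656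 (A (L (X (A (L (R D 17824) 4294967295) (X c (L (R D 37024) 4294967295))) (A 0 (S M (L (L (X 12 1) N) N)))) N) (A (L (X (A (L (R D 17888) 4294967295) (X c (L (R D 37088) 4294967295))) (L (X 2 1) N)) N) (L (X (A (L (R D 17920) 4294967295) (X c (L (R D 37120) 4294967295))) (A 0 (S M (L (L (X 24 1) N) N)))) N)))) N) (P e 4)) N) (P g 2)) N) N))), 103, 5, 1, 4, 1⟩,
  ⟨fun A S X L P R M N m a b c d e f g h D => (A (A (L (X (L (X 0 (P e 4)) N) (P g 3)) N) (S M (L (L (X (A (L (X 1 (A (L (R D 128) 4294967295) (X a (A (L (R D 160) 4294967295) (X a (L (R D 192) 4294967295)))))) N) (L (X c (A (L (R D 19328) 4294967295) (X a (A (L (R D 19360) 4294967295) (X a (L (R D 19392) 4294967295)))))) N)) (A (L (X (A (L (X 1 (A (L (R D 224) 4294967295) (X a (A (L (R D 256) 4294967295) (X a (L (R D 288) 4294967295)))))) N) (L (X c (A (L (R D 19424) 4294967295) (X a (A (L (R D 19456) 4294967295) (X a (L (R D 19488)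 4294967295)))))) N)) (L (X (A (A (L (R D 448) 4294967295) (X c (L (R D 19648) 4294967295))) (S M (L (X 2147483648 (A 1 (X c 1))) N))) 1) N)) N) (L (X (L (X (L (X 16777216 (L (X (A (A (L (R D 9152) 4294967295) (X c (L (R D 28352) 4294967295))) (S M (L (X 2147483648 (A 1 (X c 1))) N))) 1) N)) N) (P e 2)) N) g) N))) N) N))) (S M (L (L (X (L (X (L (X 281474976710656 (A (L (X (A (L (R D 17856) 4294967295) (X c (L (R D 37056) 4294967295))) (A 0 (S M (L (L (X 12 1) N) N)))) N) (A (L (X (A (L (R D 17888) 4294967295) (X c (L (R D 37088) 4294967295))) (A 0 (S M (L (L (X 12 1) N) N)))) N) (L (X (A (L (R D 17920) 4294967295) (X c (L (R D 37120) 4294967295))) (L (X 144 1) N)) N)))) N) (P e 4)) N) (P g 2)) N) N))), 103, 5, 1, 4, 1⟩,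
  ⟨fun A S X L P R M N m a b c d e f g h D => (A (A (L (X (L (X (L (X 16777216 (A (L (X (A (L (R D 8544) 4294967295) (X c (L (R D 27744) 4294967295))) (L (X 1 (A (L (X 853 e) N) (L (X 171 1) N))) N)) N) (L (X (L (X 1024 (L (X (A (L (R D 8576) 4294967295) (X c (L (R D 27776) 4294967295))) 1) N)) N) e) N))) N) (P e 2)) N) g) N) (S M (L (L (X (A (L (X 1 (A (L (R D 128) 4294967295) (X a (A (L (R D 160) 4294967295) (X a (L (R D 192) 4294967295)))))) N) (L (X c (A (L (R D 19328) 4294967295) (X a (A (L (R D 19360) 4294967295) (X a (L (R D 19392) 4294967295)))))) N)) (L (X (A (A (L (R D 9568) 4294967295) (X c (L (R D 28768) 4294967295))) (S M (L (X 2147483648 (A 1 (X c 1))) N))) (A (L (X 853 e) N) (L (X 171 1) N))) N)) N) N))) (S M (L (L (X (L (X (L (X 16777216 (A (L (X (A (L (R D 18112) 4294967295) (X c (L (R D 37312) 4294967295))) (L (X 2 (A (L (X 853 e) N) (L (X 171 1) N))) N)) N) (A (L (X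 (A (L (R D 18144) 4294967295) (X c (L (R D 37344) 4294967295))) (A (L (X 853 e) N) (L (X 171 1) N))) N) (L (X (A (L (R D 18240) 4294967295) (X c (L (R D 37440) 4294967295))) (L (X 2 (A (L (X 853 e) N) (L (X 171 1) N))) N)) N)))) N) (P e 2)) N) g) N) N))), 79, 4, 1, 3, 1⟩,
  ⟨fun A S X L P R M N m a b c d e f g h D => (A (A (L (X (L (X 0 (P e 2)) N) (P g 2)) N) (S M (L (L (X (A (L (X 1 (A (L (R D 128) 4294967295) (X a (A (L (R D 160) 4294967295) (X a (L (R D 192) 4294967295)))))) N) (L (X c (A (L (R D 19328) 4294967295) (X a (A (L (R D 19360) 4294967295) (X a (L (R D 19392) 4294967295)))))) N)) (L (X (A (A (L (R D 9600) 4294967295) (X c (L (R D 28800) 4294967295))) (S M (L (X 2147483648 (A 1 (X c 1))) N))) 1) N)) N) N))) (S M (L (L (X (L (X (L (X 16777216 (A (L (X (A (L (R D 18112) 4294967295) (X c (L (R D 37312) 4294967295))) (A 0 (S M (L (L (X 12 1) N) N)))) N) (A (L (X (A (L (R D 18176)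 4294967295) (X c (L (R D 37376) 4294967295))) 1) N) (L (X (A (L (R D 18240) 4294967295) (X c (L (R D 37440) 4294967295))) (A 0 (S M (L (L (X 12 1) N) N)))) N)))) N) (P e 2)) N) g) N) N))), 68, 3, 1, 3, 1⟩,
  ⟨fun A S X L P R M N m a b c d e f g h D => (A (A (L (X (L (X 0 (P e 2)) N) (P g 2)) N) (S M (L (L (X (A (L (X 1 (A (L (R D 128) 4294967295) (X a (A (L (R D 160) 4294967295) (X a (L (R D 192) 4294967295)))))) N) (L (X c (A (L (R D 19328) 4294967295) (X a (A (L (R D 19360) 4294967295) (X a (L (R D 19392) 4294967295)))))) N)) (L (X (A (A (L (R D 9632) 4294967295) (X c (L (R D 28832) 4294967295))) (S M (L (X 2147483648 (A 1 (X c 1))) N))) 1) N)) N) N))) (S M (L (L (X (L (X (L (X 16777216 (A (L (X (A (L (R D 18144) 4294967295) (X c (L (R D 37344) 4294967295))) (A 0 (S M (L (L (X 12 1) N) N)))) N) (A (L (X (A (L (R D 18208) 4294967295) (X c (L (R D 37408) 4294967295))) (L (X 2 1) N))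 N) (L (X (A (L (R D 18240) 4294967295) (X c (L (R D 37440) 4294967295))) (A 0 (S M (L (L (X 24 1) N) N)))) N)))) N) (P e 2)) N) g) N) N))), 68, 3, 1, 3, 1⟩,
  ⟨fun A S X L P R M N m a b c d e f g h D => (A (A (L (X (L (X 0 (P e 2)) N) (P g 2)) N) (S M (L (L (X (A (L (X 1 (A (L (R D 128) 4294967295) (X a (A (L (R D 160) 4294967295) (X a (L (R D 192) 4294967295)))))) N) (L (X c (A (L (R D 19328) 4294967295) (X a (A (L (R D 19360) 4294967295) (X a (L (R D 19392) 4294967295)))))) N)) (L (X (A (A (L (R D 9664) 4294967295) (X c (L (R D 28864) 4294967295))) (S M (L (X 2147483648 (A 1 (X c 1))) N))) 1) N)) N) N))) (S M (L (L (X (L (X (L (X 16777216 (A (L (X (A (L (R D 18176) 4294967295) (X c (L (R D 37376) 4294967295))) (A 0 (S M (L (L (X 12 1) N) N)))) N) (A (L (X (A (L (R D 18208) 4294967295) (X c (L (R D 37408) 4294967295))) (A 0 (S M (L (L (X 12 1) N) N)))) N) (L (X (A (L (R D 18240) 4294967295)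 (X c (L (R D 37440) 4294967295))) (L (X 144 1) N)) N)))) N) (P e 2)) N) g) N) N))), 69, 3, 1, 3, 1⟩,
  ⟨fun A S X L P R M N m a b c d e f g h D => (A (A (L (X (L (X (L (X 288230376151711744 (A (L (X (A (L (R D 8672) 4294967295) (X c (L (R D 27872) 4294967295))) (L (X 1 (A (L (X 853 e) N) (L (X 171 1) N))) N)) N) (L (X (L (X 1024 (L (X (A (L (R D 8704) 4294967295) (X c (L (R D 27904) 4294967295))) 1) N)) N) e) N))) N) (P e 5)) N) (P g 2)) N) (S M (L (L (X (A (L (X 1 (A (L (R D 128) 4294967295) (X a (A (L (R D 160) 4294967295) (X a (L (R D 192) 4294967295)))))) N) (L (X c (A (L (R D 19328) 4294967295) (X a (A (L (R D 19360) 4294967295) (X a (L (R D 19392) 4294967295)))))) N)) (A (L (X (A (L (X 1 (A (L (R D 224) 4294967295) (X a (A (L (R D 256) 4294967295) (X a (L (R D 288) 4294967295)))))) N) (L (X c (A (L (R D 19424) 4294967295) (X a (A (L (R D 19456) 4294967295) (X a (L (R D 19488) 4294967295))))))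 N)) (A (L (X (L (X 1024 (L (X (A (A (L (R D 512) 4294967295) (X c (L (R D 19712) 4294967295))) (S M (L (X 2147483648 (A 1 (X c 1))) N))) (A (L (X 853 e) N) (L (X 171 1) N))) N)) N) e) N) (L (X (A (A (L (R D 544) 4294967295) (X c (L (R D 19744) 4294967295))) (S M (L (X 2147483648 (A 1 (X c 1))) N))) (L (X (L (X 171 a) N) (A (L (X 853 e) N) (L (X 171 1) N))) N)) N))) N) (L (X (L (X (L (X 17179869184 (L (X (A (A (L (R D 9312) 4294967295) (X c (L (R D 28512) 4294967295))) (S M (L (X 2147483648 (A 1 (X c 1))) N))) (A (L (X 853 e) N) (L (X 171 1) N))) N)) N) (P e 3)) N) g) N))) N) N))) (S M (L (L (X (L (X (L (X 288230376151711744 (A (L (X (A (L (R D 18432) 4294967295) (X c (L (R D 37632) 4294967295))) (L (X 2 (A (L (X 853 e) N) (L (X 171 1) N))) N)) N) (A (L (X (A (L (R D 18464) 4294967295) (X c (L (R D 37664) 4294967295))) (A (L (X 853 e) N) (L (X 171 1) N))) N) (L (X (A (L (R D 18560) 4294967295)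 (X c (L (R D 37760) 4294967295))) (L (X 2 (A (L (X 853 e) N) (L (X 171 1) N))) N)) N)))) N) (P e 5)) N) (P g 2)) N) N))), 125, 7, 1, 4, 1⟩,
  ⟨fun A S X L P R M N m a b c d e f g h D => (A (A (L (X (L (X 0 (P e 5)) N) (P g 3)) N) (S M (L (L (X (A (L (X 1 (A (L (R D 128) 4294967295) (X a (A (L (R D 160) 4294967295) (X a (L (R D 192) 4294967295)))))) N) (L (X c (A (L (R D 19328) 4294967295) (X a (A (L (R D 19360) 4294967295) (X a (L (R D 19392) 4294967295)))))) N)) (A (L (X (A (L (X 1 (A (L (R D 224) 4294967295) (X a (A (L (R D 256) 4294967295) (X a (L (R D 288) 4294967295)))))) N) (L (X c (A (L (R D 19424) 4294967295) (X a (A (L (R D 19456) 4294967295) (X a (L (R D 19488) 4294967295)))))) N)) (L (X (A (L (X (L (X 1024 (A (A (L (R D 576) 4294967295) (X c (L (R D 19776) 4294967295))) (S M (L (X 2147483648 (A 1 (X c 1))) N)))) N) e) N) (L (X (L (X 171 a) N) (A (A (L (R D 672) 4294967295)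 (X c (L (R D 19872) 4294967295))) (S M (L (X 2147483648 (A 1 (X c 1))) N)))) N)) 1) N)) N) (L (X (L (X (L (X 17179869184 (L (X (A (A (L (R D 9344) 4294967295) (X c (L (R D 28544) 4294967295))) (S M (L (X 2147483648 (A 1 (X c 1))) N))) 1) N)) N) (P e 3)) N) g) N))) N) N))) (S M (L (L (X (L (X (L (X 288230376151711744 (A (L (X (A (L (R D 18432) 4294967295) (X c (L (R D 37632) 4294967295))) (A 0 (S M (L (L (X 12 1) N) N)))) N) (A (L (X (A (L (R D 18496) 4294967295) (X c (L (R D 37696) 4294967295))) 1) N) (L (X (A (L (R D 18560) 4294967295) (X c (L (R D 37760) 4294967295))) (A 0 (S M (L (L (X 12 1) N) N)))) N)))) N) (P e 5)) N) (P g 2)) N) N))), 114, 6, 1, 4, 1⟩,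
  ⟨fun A S X L P R M N m a b c d e f g h D => (A (A (L (X (L (X 0 (P e 4)) N) (P g 3)) N) (S M (L (L (X (A (L (X 1 (A (L (R D 128) 4294967295) (X a (A (L (R D 160) 4294967295) (X a (L (R D 192) 4294967295)))))) N) (L (X c (A (L (R D 19328) 4294967295) (X a (A (L (R D 19360) 4294967295) (X a (L (R D 19392) 4294967295)))))) N)) (A (L (X (A (L (X 1 (A (L (R D 224) 4294967295) (X a (A (L (R D 256) 4294967295) (X a (L (R D 288) 4294967295)))))) N) (L (X c (A (L (R D 19424) 4294967295) (X a (A (L (R D 19456) 4294967295) (X a (L (R D 19488) 4294967295)))))) N)) (L (X (A (A (L (R D 608) 4294967295) (X c (L (R D 19808) 4294967295))) (S M (L (X 2147483648 (A 1 (X c 1))) N))) 1) N)) N) (L (X (L (X (L (X 16777216 (L (X (A (A (L (R D 9376) 4294967295) (X c (L (R D 28576) 4294967295))) (S M (L (X 2147483648 (A 1 (X c 1))) N))) 1) N)) N) (P e 2)) N) g) N))) N) N))) (S M (L (L (X (L (X (L (X 281474976710656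 (A (L (X (A (L (R D 18464) 4294967295) (X c (L (R D 37664) 4294967295))) (A 0 (S M (L (L (X 12 1) N) N)))) N) (A (L (X (A (L (R D 18528) 4294967295) (X c (L (R D 37728) 4294967295))) (L (X 2 1) N)) N) (L (X (A (L (R D 18560) 4294967295) (X c (L (R D 37760) 4294967295))) (A 0 (S M (L (L (X 24 1) N) N)))) N)))) N) (P e 4)) N) (P g 2)) N) N))), 103, 5, 1, 4, 1⟩,
  ⟨fun A S X L P R M N m a b c d e f g h D => (A (A (L (X (L (X 0 (P e 4)) N) (P g 3)) N) (S M (L (L (X (A (L (X 1 (A (L (R D 128) 4294967295) (X a (A (L (R D 160) 4294967295) (X a (L (R D 192) 4294967295)))))) N) (L (X c (A (L (R D 19328) 4294967295) (X a (A (L (R D 19360) 4294967295) (X a (L (R D 19392) 4294967295)))))) N)) (A (L (X (A (L (X 1 (A (L (R D 224) 4294967295) (X a (A (L (R D 256) 4294967295) (X a (L (R D 288) 4294967295)))))) N) (L (X c (A (L (R D 19424) 4294967295) (X a (A (L (R D 19456) 4294967295) (X a (L (R D 19488)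 4294967295)))))) N)) (L (X (A (A (L (R D 640) 4294967295) (X c (L (R D 19840) 4294967295))) (S M (L (X 2147483648 (A 1 (X c 1))) N))) 1) N)) N) (L (X (L (X (L (X 16777216 (L (X (A (A (L (R D 9408) 4294967295) (X c (L (R D 28608) 4294967295))) (S M (L (X 2147483648 (A 1 (X c 1))) N))) 1) N)) N) (P e 2)) N) g) N))) N) N))) (S M (L (L (X (L (X (L (X 281474976710656 (A (L (X (A (L (R D 18496) 4294967295) (X c (L (R D 37696) 4294967295))) (A 0 (S M (L (L (X 12 1) N) N)))) N) (A (L (X (A (L (R D 18528) 4294967295) (X c (L (R D 37728) 4294967295))) (A 0 (S M (L (L (X 12 1) N) N)))) N) (L (X (A (L (R D 18560) 4294967295) (X c (L (R D 37760) 4294967295))) (L (X 144 1) N)) N)))) N) (P e 4)) N) (P g 2)) N) N))), 103, 5, 1, 4, 1⟩,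
  ⟨fun A S X L P R M N m a b c d e f g h D => (A (A (L (X (L (X 1024 (L (X (A (A (L (R D 704) 4294967295) (X c (L (R D 19904) 4294967295))) (S M (L (X 2147483648 (A 1 (X c 1))) N))) (A (L (X 853 e) N) (L (X 171 1) N))) N)) N) e) N) (L (X (A (A (L (R D 736) 4294967295) (X c (L (R D 19936) 4294967295))) (S M (L (X 2147483648 (A 1 (X c 1))) N))) (L (X (L (X 171 a) N) (A (L (X 853 e) N) (L (X 171 1) N))) N)) N)) (S M (L (L (X (L (X 1024 (A (L (X (A (L (R D 16992) 4294967295) (X c (L (R D 36192) 4294967295))) (L (X 2 (A (L (X 853 e) N) (L (X 171 1) N))) N)) N) (A (L (X (A (L (R D 17024) 4294967295) (X c (L (R D 36224) 4294967295))) (A (L (X 853 e) N) (L (X 171 1) N))) N) (L (X (A (L (R D 17120) 4294967295) (X c (L (R D 36320) 4294967295))) (L (X 2 (A (L (X 853 e) N) (L (X 171 1) N))) N)) N)))) N) e) N) N))), 58, 3, 1, 2, 1⟩,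
  ⟨fun A S X L P R M N m a b c d e f g h D => (A (L (X (A (L (X (L (X 1024 (A (A (L (R D 768) 4294967295) (X c (L (R D 19968) 4294967295))) (S M (L (X 2147483648 (A 1 (X c 1))) N)))) N) e) N) (L (X (L (X 171 a) N) (A (A (L (R D 864) 4294967295) (X c (L (R D 20064) 4294967295))) (S M (L (X 2147483648 (A 1 (X c 1))) N)))) N)) 1) N) (S M (L (L (X (L (X 1024 (A (L (X (A (L (R D 16992) 4294967295) (X c (L (R D 36192) 4294967295))) (A 0 (S M (L (L (X 12 1) N) N)))) N) (A (L (X (A (L (R D 17056) 4294967295) (X c (L (R D 36256) 4294967295))) 1) N) (L (X (A (L (R D 17120) 4294967295) (X c (L (R D 36320) 4294967295))) (A 0 (S M (L (L (X 12 1) N) N)))) N)))) N) e) N) N))), 49, 2, 1, 2, 1⟩,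
  ⟨fun A S X L P R M N m a b c d e f g h D => (A (L (X (A (A (L (R D 800) 4294967295) (X c (L (R D 20000) 4294967295))) (S M (L (X 2147483648 (A 1 (X c 1))) N))) 1) N) (S M (L (A (L (X (A (L (R D 17024) 4294967295) (X c (L (R D 36224) 4294967295))) (A 0 (S M (L (L (X 12 1) N) N)))) N) (A (L (X (A (L (R D 17088) 4294967295) (X c (L (R D 36288) 4294967295))) (L (X 2 1) N)) N) (L (X (A (L (R D 17120) 4294967295) (X c (L (R D 36320) 4294967295))) (A 0 (S M (L (L (X 24 1) N) N)))) N))) N))), 39, 1, 1, 2, 1⟩,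
  ⟨fun A S X L P R M N m a b c d e f g h D => (A (L (X (A (A (L (R D 832) 4294967295) (X c (L (R D 20032) 4294967295))) (S M (L (X 2147483648 (A 1 (X c 1))) N))) 1) N) (S M (L (A (L (X (A (L (R D 17056) 4294967295) (X c (L (R D 36256) 4294967295))) (A 0 (S M (L (L (X 12 1) N) N)))) N) (A (L (X (A (L (R D 17088) 4294967295) (X c (L (R D 36288) 4294967295))) (A 0 (S M (L (L (X 12 1) N) N)))) N) (L (X (A (L (R D 17120) 4294967295) (X c (L (R D 36320) 4294967295))) (L (X 144 1) N)) N))) N))), 41, 1, 1, 2, 1⟩,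
  ⟨fun A S X L P R M N m a b c d e f g h D => (A (A (L (X (L (X 1024 (L (X (A (A (L (R D 896) 4294967295) (X c (L (R D 20096) 4294967295))) (S M (L (X 2147483648 (A 1 (X c 1))) N))) (A (L (X 853 e) N) (L (X 171 1) N))) N)) N) e) N) (L (X (A (A (L (R D 928) 4294967295) (X c (L (R D 20128) 4294967295))) (S M (L (X 2147483648 (A 1 (X c 1))) N))) (L (X (L (X 171 a) N) (A (L (X 853 e) N) (L (X 171 1) N))) N)) N)) (S M (L (L (X (L (X 1024 (A (L (X (A (L (R D 17312) 4294967295) (X c (L (R D 36512) 4294967295))) (L (X 2 (A (L (X 853 e) N) (L (X 171 1) N))) N)) N) (A (L (X (A (L (R D 17344) 4294967295) (X c (L (R D 36544) 4294967295))) (A (L (X 853 e) N) (L (X 171 1) N))) N) (L (X (A (L (R D 17440) 4294967295) (X c (L (R D 36640) 4294967295))) (L (X 2 (A (L (X 853 e) N) (L (X 171 1) N))) N)) N)))) N) e) N) N))), 58, 3, 1, 2, 1⟩,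
  ⟨fun A S X L P R M N m a b c d e f g h D => (A (L (X (A (L (X (L (X 1024 (A (A (L (R D 960) 4294967295) (X c (L (R D 20160) 4294967295))) (S M (L (X 2147483648 (A 1 (X c 1))) N)))) N) e) N) (L (X (L (X 171 a) N) (A (A (L (R D 1056) 4294967295) (X c (L (R D 20256) 4294967295))) (S M (L (X 2147483648 (A 1 (X c 1))) N)))) N)) 1) N) (S M (L (L (X (L (X 1024 (A (L (X (A (L (R D 17312) 4294967295) (X c (L (R D 36512) 4294967295))) (A 0 (S M (L (L (X 12 1) N) N)))) N) (A (L (X (A (L (R D 17376) 4294967295) (X c (L (R D 36576) 4294967295))) 1) N) (L (X (A (L (R D 17440) 4294967295) (X c (L (R D 36640) 4294967295))) (A 0 (S M (L (L (X 12 1) N) N)))) N)))) N) e) N) N))), 49, 2, 1, 2, 1⟩,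
  ⟨fun A S X L P R M N m a b c d e f g h D => (A (L (X (A (A (L (R D 992) 4294967295) (X c (L (R D 20192) 4294967295))) (S M (L (X 2147483648 (A 1 (X c 1))) N))) 1) N) (S M (L (A (L (X (A (L (R D 17344) 4294967295) (X c (L (R D 36544) 4294967295))) (A 0 (S M (L (L (X 12 1) N) N)))) N) (A (L (X (A (L (R D 17408) 4294967295) (X c (L (R D 36608) 4294967295))) (L (X 2 1) N)) N) (L (X (A (L (R D 17440) 4294967295) (X c (L (R D 36640) 4294967295))) (A 0 (S M (L (L (X 24 1) N) N)))) N))) N))), 39, 1, 1, 2, 1⟩,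
  ⟨fun A S X L P R M N m a b c d e f g h D => (A (L (X (A (A (L (R D 1024) 4294967295) (X c (L (R D 20224) 4294967295))) (S M (L (X 2147483648 (A 1 (X c 1))) N))) 1) N) (S M (L (A (L (X (A (L (R D 17376) 4294967295) (X c (L (R D 36576) 4294967295))) (A 0 (S M (L (L (X 12 1) N) N)))) N) (A (L (X (A (L (R D 17408) 4294967295) (X c (L (R D 36608) 4294967295))) (A 0 (S M (L (L (X 12 1) N) N)))) N) (L (X (A (L (R D 17440) 4294967295) (X c (L (R D 36640) 4294967295))) (L (X 144 1) N)) N))) N))), 41, 1, 1, 2, 1⟩,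
  ⟨fun A S X L P R M N m a b c d e f g h D => (A (A (L (X (L (X (L (X 288230376151711744 (A (L (X (A (L (R D 8352) 4294967295) (X c (L (R D 27552) 4294967295))) (L (X 1 (A (L (X 853 e) N) (L (X 171 1) N))) N)) N) (L (X (L (X 1024 (L (X (A (L (R D 8384) 4294967295) (X c (L (R D 27584) 4294967295))) 1) N)) N) e) N))) N) (P e 5)) N) (P g 2)) N) (S M (L (L (X (A (L (X 1 (A (L (R D 128) 4294967295) (X a (A (L (R D 160) 4294967295) (X a (L (R D 192) 4294967295)))))) N) (L (X c (A (L (R D 19328) 4294967295) (X a (A (L (R D 19360) 4294967295) (X a (L (R D 19392) 4294967295)))))) N)) (A (L (X (A (L (X 1 (A (L (R D 224) 4294967295) (X a (A (L (R D 256) 4294967295) (X a (L (R D 288) 4294967295)))))) N) (L (X c (A (L (R D 19424) 4294967295) (X a (A (L (R D 19456) 4294967295) (X a (L (R D 19488) 4294967295)))))) N)) (A (L (X (L (X 1024 (L (X (A (A (L (R D 896) 4294967295) (X c (L (R D 20096) 4294967295)))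 (S M (L (X 2147483648 (A 1 (X c 1))) N))) (A (L (X 853 e) N) (L (X 171 1) N))) N)) N) e) N) (L (X (A (A (L (R D 928) 4294967295) (X c (L (R D 20128) 4294967295))) (S M (L (X 2147483648 (A 1 (X c 1))) N))) (L (X (L (X 171 a) N) (A (L (X 853 e) N) (L (X 171 1) N))) N)) N))) N) (L (X (L (X (L (X 17179869184 (L (X (A (A (L (R D 8928) 4294967295) (X c (L (R D 28128) 4294967295))) (S M (L (X 2147483648 (A 1 (X c 1))) N))) (A (L (X 853 e) N) (L (X 171 1) N))) N)) N) (P e 3)) N) g) N))) N) N))) (S M (L (L (X (L (X (L (X 288230376151711744 (A (L (X (A (L (R D 17632) 4294967295) (X c (L (R D 36832) 4294967295))) (L (X 2 (A (L (X 853 e) N) (L (X 171 1) N))) N)) N) (A (L (X (A (L (R D 17664) 4294967295) (X c (L (R D 36864) 4294967295))) (A (L (X 853 e) N) (L (X 171 1) N))) N) (L (X (A (L (R D 17760) 4294967295) (X c (L (R D 36960) 4294967295))) (L (X 2 (A (L (X 853 e) N) (L (X 171 1) N))) N)) N))))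 N) (P e 5)) N) (P g 2)) N) N))), 125, 7, 1, 4, 1⟩,
  ⟨fun A S X L P R M N m a b c d e f g h D => (A (A (L (X (L (X 0 (P e 5)) N) (P g 3)) N) (S M (L (L (X (A (L (X 1 (A (L (R D 128) 4294967295) (X a (A (L (R D 160) 4294967295) (X a (L (R D 192) 4294967295)))))) N) (L (X c (A (L (R D 19328) 4294967295) (X a (A (L (R D 19360) 4294967295) (X a (L (R D 19392) 4294967295)))))) N)) (A (L (X (A (L (X 1 (A (L (R D 224) 4294967295) (X a (A (L (R D 256) 4294967295) (X a (L (R D 288) 4294967295)))))) N) (L (X c (A (L (R D 19424) 4294967295) (X a (A (L (R D 19456) 4294967295) (X a (L (R D 19488) 4294967295)))))) N)) (L (X (A (L (X (L (X 1024 (A (A (L (R D 960) 4294967295) (X c (L (R D 20160) 4294967295))) (S M (L (X 2147483648 (A 1 (X c 1))) N)))) N) e) N) (L (X (L (X 171 a) N) (A (A (L (R D 1056) 4294967295) (X c (L (R D 20256) 4294967295))) (S M (L (X 2147483648 (A 1 (X c 1))) N)))) N)) 1) N))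 N) (L (X (L (X (L (X 17179869184 (L (X (A (A (L (R D 8960) 4294967295) (X c (L (R D 28160) 4294967295))) (S M (L (X 2147483648 (A 1 (X c 1))) N))) 1) N)) N) (P e 3)) N) g) N))) N) N))) (S M (L (L (X (L (X (L (X 288230376151711744 (A (L (X (A (L (R D 17632) 4294967295) (X c (L (R D 36832) 4294967295))) (A 0 (S M (L (L (X 12 1) N) N)))) N) (A (L (X (A (L (R D 17696) 4294967295) (X c (L (R D 36896) 4294967295))) 1) N) (L (X (A (L (R D 17760) 4294967295) (X c (L (R D 36960) 4294967295))) (A 0 (S M (L (L (X 12 1) N) N)))) N)))) N) (P e 5)) N) (P g 2)) N) N))), 114, 6, 1, 4, 1⟩,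
  ⟨fun A S X L P R M N m a b c d e f g h D => (A (A (L (X (L (X 0 (P e 4)) N) (P g 3)) N) (S M (L (L (X (A (L (X 1 (A (L (R D 128) 4294967295) (X a (A (L (R D 160) 4294967295) (X a (L (R D 192) 4294967295)))))) N) (L (X c (A (L (R D 19328) 4294967295) (X a (A (L (R D 19360) 4294967295) (X a (L (R D 19392) 4294967295)))))) N)) (A (L (X (A (L (X 1 (A (L (R D 224) 4294967295) (X a (A (L (R D 256) 4294967295) (X a (L (R D 288) 4294967295)))))) N) (L (X c (A (L (R D 19424) 4294967295) (X a (A (L (R D 19456) 4294967295) (X a (L (R D 19488) 4294967295)))))) N)) (L (X (A (A (L (R D 992) 4294967295) (X c (L (R D 20192) 4294967295))) (S M (L (X 2147483648 (A 1 (X c 1))) N))) 1) N)) N) (L (X (L (X (L (X 16777216 (L (X (A (A (L (R D 8992) 4294967295) (X c (L (R D 28192) 4294967295))) (S M (L (X 2147483648 (A 1 (X c 1))) N))) 1) N)) N) (P e 2)) N) g) N))) N) N))) (S M (L (L (X (L (X (L (X 281474976710656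 (A (L (X (A (L (R D 17664) 4294967295) (X c (L (R D 36864) 4294967295))) (A 0 (S M (L (L (X 12 1) N) N)))) N) (A (L (X (A (L (R D 17728) 4294967295) (X c (L (R D 36928) 4294967295))) (L (X 2 1) N)) N) (L (X (A (L (R D 17760) 4294967295) (X c (L (R D 36960) 4294967295))) (A 0 (S M (L (L (X 24 1) N) N)))) N)))) N) (P e 4)) N) (P g 2)) N) N))), 103, 5, 1, 4, 1⟩,
  ⟨fun A S X L P R M N m a b c d e f g h D => (A (A (L (X (L (X 0 (P e 4)) N) (P g 3)) N) (S M (L (L (X (A (L (X 1 (A (L (R D 128) 4294967295) (X a (A (L (R D 160) 4294967295) (X a (L (R D 192) 4294967295)))))) N) (L (X c (A (L (R D 19328) 4294967295) (X a (A (L (R D 19360) 4294967295) (X a (L (R D 19392) 4294967295)))))) N)) (A (L (X (A (L (X 1 (A (L (R D 224) 4294967295) (X a (A (L (R D 256) 4294967295) (X a (L (R D 288) 4294967295)))))) N) (L (X c (A (L (R D 19424) 4294967295) (X a (A (L (R D 19456) 4294967295) (X a (L (R D 19488)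 4294967295)))))) N)) (L (X (A (A (L (R D 1024) 4294967295) (X c (L (R D 20224) 4294967295))) (S M (L (X 2147483648 (A 1 (X c 1))) N))) 1) N)) N) (L (X (L (X (L (X 16777216 (L (X (A (A (L (R D 9024) 4294967295) (X c (L (R D 28224) 4294967295))) (S M (L (X 2147483648 (A 1 (X c 1))) N))) 1) N)) N) (P e 2)) N) g) N))) N) N))) (S M (L (L (X (L (X (L (X 281474976710656 (A (L (X (A (L (R D 17696) 4294967295) (X c (L (R D 36896) 4294967295))) (A 0 (S M (L (L (X 12 1) N) N)))) N) (A (L (X (A (L (R D 17728) 4294967295) (X c (L (R D 36928) 4294967295))) (A 0 (S M (L (L (X 12 1) N) N)))) N) (L (X (A (L (R D 17760) 4294967295) (X c (L (R D 36960) 4294967295))) (L (X 144 1) N)) N)))) N) (P e 4)) N) (P g 2)) N) N))), 103, 5, 1, 4, 1⟩,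
  ⟨fun A S X L P R M N m a b c d e f g h D => (A (A (L (X (L (X (L (X 288230376151711744 (A (L (X (A (L (R D 8480) 4294967295) (X c (L (R D 27680) 4294967295))) (L (X 1 (A (L (X 853 e) N) (L (X 171 1) N))) N)) N) (L (X (L (X 1024 (L (X (A (L (R D 8512) 4294967295) (X c (L (R D 27712) 4294967295))) 1) N)) N) e) N))) N) (P e 5)) N) (P g 2)) N) (S M (L (L (X (A (L (X 1 (A (L (R D 128) 4294967295) (X a (A (L (R D 160) 4294967295) (X a (L (R D 192) 4294967295)))))) N) (L (X c (A (L (R D 19328) 4294967295) (X a (A (L (R D 19360) 4294967295) (X a (L (R D 19392) 4294967295)))))) N)) (A (L (X (A (L (X 1 (A (L (R D 224) 4294967295) (X a (A (L (R D 256) 4294967295) (X a (L (R D 288) 4294967295)))))) N) (L (X c (A (L (R D 19424) 4294967295) (X a (A (L (R D 19456) 4294967295) (X a (L (R D 19488) 4294967295)))))) N)) (A (L (X (L (X 1024 (L (X (A (A (L (R D 704) 4294967295) (X c (L (R D 19904) 4294967295)))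 (S M (L (X 2147483648 (A 1 (X c 1))) N))) (A (L (X 853 e) N) (L (X 171 1) N))) N)) N) e) N) (L (X (A (A (L (R D 736) 4294967295) (X c (L (R D 19936) 4294967295))) (S M (L (X 2147483648 (A 1 (X c 1))) N))) (L (X (L (X 171 a) N) (A (L (X 853 e) N) (L (X 171 1) N))) N)) N))) N) (L (X (L (X (L (X 17179869184 (L (X (A (A (L (R D 9184) 4294967295) (X c (L (R D 28384) 4294967295))) (S M (L (X 2147483648 (A 1 (X c 1))) N))) (A (L (X 853 e) N) (L (X 171 1) N))) N)) N) (P e 3)) N) g) N))) N) N))) (S M (L (L (X (L (X (L (X 288230376151711744 (A (L (X (A (L (R D 17952) 4294967295) (X c (L (R D 37152) 4294967295))) (L (X 2 (A (L (X 853 e) N) (L (X 171 1) N))) N)) N) (A (L (X (A (L (R D 17984) 4294967295) (X c (L (R D 37184) 4294967295))) (A (L (X 853 e) N) (L (X 171 1) N))) N) (L (X (A (L (R D 18080) 4294967295) (X c (L (R D 37280) 4294967295))) (L (X 2 (A (L (X 853 e) N) (L (X 171 1) N))) N)) N))))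 N) (P e 5)) N) (P g 2)) N) N))), 125, 7, 1, 4, 1⟩,
  ⟨fun A S X L P R M N m a b c d e f g h D => (A (A (L (X (L (X 0 (P e 5)) N) (P g 3)) N) (S M (L (L (X (A (L (X 1 (A (L (R D 128) 4294967295) (X a (A (L (R D 160) 4294967295) (X a (L (R D 192) 4294967295)))))) N) (L (X c (A (L (R D 19328) 4294967295) (X a (A (L (R D 19360) 4294967295) (X a (L (R D 19392) 4294967295)))))) N)) (A (L (X (A (L (X 1 (A (L (R D 224) 4294967295) (X a (A (L (R D 256) 4294967295) (X a (L (R D 288) 4294967295)))))) N) (L (X c (A (L (R D 19424) 4294967295) (X a (A (L (R D 19456) 4294967295) (X a (L (R D 19488) 4294967295)))))) N)) (L (X (A (L (X (L (X 1024 (A (A (L (R D 768) 4294967295) (X c (L (R D 19968) 4294967295))) (S M (L (X 2147483648 (A 1 (X c 1))) N)))) N) e) N) (L (X (L (X 171 a) N) (A (A (L (R D 864) 4294967295) (X c (L (R D 20064) 4294967295))) (S M (L (X 2147483648 (A 1 (X c 1))) N)))) N)) 1) N))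 N) (L (X (L (X (L (X 17179869184 (L (X (A (A (L (R D 9216) 4294967295) (X c (L (R D 28416) 4294967295))) (S M (L (X 2147483648 (A 1 (X c 1))) N))) 1) N)) N) (P e 3)) N) g) N))) N) N))) (S M (L (L (X (L (X (L (X 288230376151711744 (A (L (X (A (L (R D 17952) 4294967295) (X c (L (R D 37152) 4294967295))) (A 0 (S M (L (L (X 12 1) N) N)))) N) (A (L (X (A (L (R D 18016) 4294967295) (X c (L (R D 37216) 4294967295))) 1) N) (L (X (A (L (R D 18080) 4294967295) (X c (L (R D 37280) 4294967295))) (A 0 (S M (L (L (X 12 1) N) N)))) N)))) N) (P e 5)) N) (P g 2)) N) N))), 114, 6, 1, 4, 1⟩,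
  ⟨fun A S X L P R M N m a b c d e f g h D => (A (A (L (X (L (X 0 (P e 4)) N) (P g 3)) N) (S M (L (L (X (A (L (X 1 (A (L (R D 128) 4294967295) (X a (A (L (R D 160) 4294967295) (X a (L (R D 192) 4294967295)))))) N) (L (X c (A (L (R D 19328) 4294967295) (X a (A (L (R D 19360) 4294967295) (X a (L (R D 19392) 4294967295)))))) N)) (A (L (X (A (L (X 1 (A (L (R D 224) 4294967295) (X a (A (L (R D 256) 4294967295) (X a (L (R D 288) 4294967295)))))) N) (L (X c (A (L (R D 19424) 4294967295) (X a (A (L (R D 19456) 4294967295) (X a (L (R D 19488) 4294967295)))))) N)) (L (X (A (A (L (R D 800) 4294967295) (X c (L (R D 20000) 4294967295))) (S M (L (X 2147483648 (A 1 (X c 1))) N))) 1) N)) N) (L (X (L (X (L (X 16777216 (L (X (A (A (L (R D 9248) 4294967295) (X c (L (R D 28448) 4294967295))) (S M (L (X 2147483648 (A 1 (X c 1))) N))) 1) N)) N) (P e 2)) N) g) N))) N) N))) (S M (L (L (X (L (X (L (X 281474976710656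 (A (L (X (A (L (R D 17984) 4294967295) (X c (L (R D 37184) 4294967295))) (A 0 (S M (L (L (X 12 1) N) N)))) N) (A (L (X (A (L (R D 18048) 4294967295) (X c (L (R D 37248) 4294967295))) (L (X 2 1) N)) N) (L (X (A (L (R D 18080) 4294967295) (X c (L (R D 37280) 4294967295))) (A 0 (S M (L (L (X 24 1) N) N)))) N)))) N) (P e 4)) N) (P g 2)) N) N))), 103, 5, 1, 4, 1⟩,
  ⟨fun A S X L P R M N m a b c d e f g h D => (A (A (L (X (L (X 0 (P e 4)) N) (P g 3)) N) (S M (L (L (X (A (L (X 1 (A (L (R D 128) 4294967295) (X a (A (L (R D 160) 4294967295) (X a (L (R D 192) 4294967295)))))) N) (L (X c (A (L (R D 19328) 4294967295) (X a (A (L (R D 19360) 4294967295) (X a (L (R D 19392) 4294967295)))))) N)) (A (L (X (A (L (X 1 (A (L (R D 224) 4294967295) (X a (A (L (R D 256) 4294967295) (X a (L (R D 288) 4294967295)))))) N) (L (X c (A (L (R D 19424) 4294967295) (X a (A (L (R D 19456) 4294967295) (X a (L (R D 19488)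 4294967295)))))) N)) (L (X (A (A (L (R D 832) 4294967295) (X c (L (R D 20032) 4294967295))) (S M (L (X 2147483648 (A 1 (X c 1))) N))) 1) N)) N) (L (X (L (X (L (X 16777216 (L (X (A (A (L (R D 9280) 4294967295) (X c (L (R D 28480) 4294967295))) (S M (L (X 2147483648 (A 1 (X c 1))) N))) 1) N)) N) (P e 2)) N) g) N))) N) N))) (S M (L (L (X (L (X (L (X 281474976710656 (A (L (X (A (L (R D 18016) 4294967295) (X c (L (R D 37216) 4294967295))) (A 0 (S M (L (L (X 12 1) N) N)))) N) (A (L (X (A (L (R D 18048) 4294967295) (X c (L (R D 37248) 4294967295))) (A 0 (S M (L (L (X 12 1) N) N)))) N) (L (X (A (L (R D 18080) 4294967295) (X c (L (R D 37280) 4294967295))) (L (X 144 1) N)) N)))) N) (P e 4)) N) (P g 2)) N) N))), 103, 5, 1, 4, 1⟩,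
  ⟨fun A S X L P R M N m a b c d e f g h D => (A (A (L (X (L (X (L (X 16777216 (A (L (X (A (L (R D 8608) 4294967295) (X c (L (R D 27808) 4294967295))) (L (X 1 (A (L (X 853 e) N) (L (X 171 1) N))) N)) N) (L (X (L (X 1024 (L (X (A (L (R D 8640) 4294967295) (X c (L (R D 27840) 4294967295))) 1) N)) N) e) N))) N) (P e 2)) N) g) N) (S M (L (L (X (A (L (X 1 (A (L (R D 128) 4294967295) (X a (A (L (R D 160) 4294967295) (X a (L (R D 192) 4294967295)))))) N) (L (X c (A (L (R D 19328) 4294967295) (X a (A (L (R D 19360) 4294967295) (X a (L (R D 19392) 4294967295)))))) N)) (L (X (A (A (L (R D 9696) 4294967295) (X c (L (R D 28896) 4294967295))) (S M (L (X 2147483648 (A 1 (X c 1))) N))) (A (L (X 853 e) N) (L (X 171 1) N))) N)) N) N))) (S M (L (L (X (L (X (L (X 16777216 (A (L (X (A (L (R D 18272) 4294967295) (X c (L (R D 37472) 4294967295))) (L (X 2 (A (L (X 853 e) N) (L (X 171 1) N))) N)) N) (A (L (X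 (A (L (R D 18304) 4294967295) (X c (L (R D 37504) 4294967295))) (A (L (X 853 e) N) (L (X 171 1) N))) N) (L (X (A (L (R D 18400) 4294967295) (X c (L (R D 37600) 4294967295))) (L (X 2 (A (L (X 853 e) N) (L (X 171 1) N))) N)) N)))) N) (P e 2)) N) g) N) N))), 79, 4, 1, 3, 1⟩,
  ⟨fun A S X L P R M N m a b c d e f g h D => (A (A (L (X (L (X 0 (P e 2)) N) (P g 2)) N) (S M (L (L (X (A (L (X 1 (A (L (R D 128) 4294967295) (X a (A (L (R D 160) 4294967295) (X a (L (R D 192) 4294967295)))))) N) (L (X c (A (L (R D 19328) 4294967295) (X a (A (L (R D 19360) 4294967295) (X a (L (R D 19392) 4294967295)))))) N)) (L (X (A (A (L (R D 9728) 4294967295) (X c (L (R D 28928) 4294967295))) (S M (L (X 2147483648 (A 1 (X c 1))) N))) 1) N)) N) N))) (S M (L (L (X (L (X (L (X 16777216 (A (L (X (A (L (R D 18272) 4294967295) (X c (L (R D 37472) 4294967295))) (A 0 (S M (L (L (X 12 1) N) N)))) N) (A (L (X (A (L (R D 18336)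 4294967295) (X c (L (R D 37536) 4294967295))) 1) N) (L (X (A (L (R D 18400) 4294967295) (X c (L (R D 37600) 4294967295))) (A 0 (S M (L (L (X 12 1) N) N)))) N)))) N) (P e 2)) N) g) N) N))), 68, 3, 1, 3, 1⟩,
  ⟨fun A S X L P R M N m a b c d e f g h D => (A (A (L (X (L (X 0 (P e 2)) N) (P g 2)) N) (S M (L (L (X (A (L (X 1 (A (L (R D 128) 4294967295) (X a (A (L (R D 160) 4294967295) (X a (L (R D 192) 4294967295)))))) N) (L (X c (A (L (R D 19328) 4294967295) (X a (A (L (R D 19360) 4294967295) (X a (L (R D 19392) 4294967295)))))) N)) (L (X (A (A (L (R D 9760) 4294967295) (X c (L (R D 28960) 4294967295))) (S M (L (X 2147483648 (A 1 (X c 1))) N))) 1) N)) N) N))) (S M (L (L (X (L (X (L (X 16777216 (A (L (X (A (L (R D 18304) 4294967295) (X c (L (R D 37504) 4294967295))) (A 0 (S M (L (L (X 12 1) N) N)))) N) (A (L (X (A (L (R D 18368) 4294967295) (X c (L (R D 37568) 4294967295))) (L (X 2 1) N))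 N) (L (X (A (L (R D 18400) 4294967295) (X c (L (R D 37600) 4294967295))) (A 0 (S M (L (L (X 24 1) N) N)))) N)))) N) (P e 2)) N) g) N) N))), 68, 3, 1, 3, 1⟩,
  ⟨fun A S X L P R M N m a b c d e f g h D => (A (A (L (X (L (X 0 (P e 2)) N) (P g 2)) N) (S M (L (L (X (A (L (X 1 (A (L (R D 128) 4294967295) (X a (A (L (R D 160) 4294967295) (X a (L (R D 192) 4294967295)))))) N) (L (X c (A (L (R D 19328) 4294967295) (X a (A (L (R D 19360) 4294967295) (X a (L (R D 19392) 4294967295)))))) N)) (L (X (A (A (L (R D 9792) 4294967295) (X c (L (R D 28992) 4294967295))) (S M (L (X 2147483648 (A 1 (X c 1))) N))) 1) N)) N) N))) (S M (L (L (X (L (X (L (X 16777216 (A (L (X (A (L (R D 18336) 4294967295) (X c (L (R D 37536) 4294967295))) (A 0 (S M (L (L (X 12 1) N) N)))) N) (A (L (X (A (L (R D 18368) 4294967295) (X c (L (R D 37568) 4294967295))) (A 0 (S M (L (L (X 12 1) N) N)))) N) (L (X (A (L (R D 18400) 4294967295)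 (X c (L (R D 37600) 4294967295))) (L (X 144 1) N)) N)))) N) (P e 2)) N) g) N) N))), 69, 3, 1, 3, 1⟩,
  ⟨fun A S X L P R M N m a b c d e f g h D => (A (A (L (X (L (X (L (X 288230376151711744 (A (L (X (A (L (R D 8736) 4294967295) (X c (L (R D 27936) 4294967295))) (L (X 1 (A (L (X 853 e) N) (L (X 171 1) N))) N)) N) (L (X (L (X 1024 (L (X (A (L (R D 8768) 4294967295) (X c (L (R D 27968) 4294967295))) 1) N)) N) e) N))) N) (P e 5)) N) (P g 2)) N) (S M (L (L (X (A (L (X 1 (A (L (R D 128) 4294967295) (X a (A (L (R D 160) 4294967295) (X a (L (R D 192) 4294967295)))))) N) (L (X c (A (L (R D 19328) 4294967295) (X a (A (L (R D 19360) 4294967295) (X a (L (R D 19392) 4294967295)))))) N)) (A (L (X (A (L (X 1 (A (L (R D 224) 4294967295) (X a (A (L (R D 256) 4294967295) (X a (L (R D 288) 4294967295)))))) N) (L (X c (A (L (R D 19424) 4294967295) (X a (A (L (R D 19456) 4294967295) (X a (L (R D 19488) 4294967295))))))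 N)) (A (L (X (L (X 1024 (L (X (A (A (L (R D 896) 4294967295) (X c (L (R D 20096) 4294967295))) (S M (L (X 2147483648 (A 1 (X c 1))) N))) (A (L (X 853 e) N) (L (X 171 1) N))) N)) N) e) N) (L (X (A (A (L (R D 928) 4294967295) (X c (L (R D 20128) 4294967295))) (S M (L (X 2147483648 (A 1 (X c 1))) N))) (L (X (L (X 171 a) N) (A (L (X 853 e) N) (L (X 171 1) N))) N)) N))) N) (L (X (L (X (L (X 17179869184 (L (X (A (A (L (R D 9440) 4294967295) (X c (L (R D 28640) 4294967295))) (S M (L (X 2147483648 (A 1 (X c 1))) N))) (A (L (X 853 e) N) (L (X 171 1) N))) N)) N) (P e 3)) N) g) N))) N) N))) (S M (L (L (X (L (X (L (X 288230376151711744 (A (L (X (A (L (R D 18592) 4294967295) (X c (L (R D 37792) 4294967295))) (L (X 2 (A (L (X 853 e) N) (L (X 171 1) N))) N)) N) (A (L (X (A (L (R D 18624) 4294967295) (X c (L (R D 37824) 4294967295))) (A (L (X 853 e) N) (L (X 171 1) N))) N) (L (X (A (L (R D 18720) 4294967295)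 (X c (L (R D 37920) 4294967295))) (L (X 2 (A (L (X 853 e) N) (L (X 171 1) N))) N)) N)))) N) (P e 5)) N) (P g 2)) N) N))), 125, 7, 1, 4, 1⟩,
  ⟨fun A S X L P R M N m a b c d e f g h D => (A (A (L (X (L (X 0 (P e 5)) N) (P g 3)) N) (S M (L (L (X (A (L (X 1 (A (L (R D 128) 4294967295) (X a (A (L (R D 160) 4294967295) (X a (L (R D 192) 4294967295)))))) N) (L (X c (A (L (R D 19328) 4294967295) (X a (A (L (R D 19360) 4294967295) (X a (L (R D 19392) 4294967295)))))) N)) (A (L (X (A (L (X 1 (A (L (R D 224) 4294967295) (X a (A (L (R D 256) 4294967295) (X a (L (R D 288) 4294967295)))))) N) (L (X c (A (L (R D 19424) 4294967295) (X a (A (L (R D 19456) 4294967295) (X a (L (R D 19488) 4294967295)))))) N)) (L (X (A (L (X (L (X 1024 (A (A (L (R D 960) 4294967295) (X c (L (R D 20160) 4294967295))) (S M (L (X 2147483648 (A 1 (X c 1))) N)))) N) e) N) (L (X (L (X 171 a) N) (A (A (L (R D 1056) 4294967295)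 (X c (L (R D 20256) 4294967295))) (S M (L (X 2147483648 (A 1 (X c 1))) N)))) N)) 1) N)) N) (L (X (L (X (L (X 17179869184 (L (X (A (A (L (R D 9472) 4294967295) (X c (L (R D 28672) 4294967295))) (S M (L (X 2147483648 (A 1 (X c 1))) N))) 1) N)) N) (P e 3)) N) g) N))) N) N))) (S M (L (L (X (L (X (L (X 288230376151711744 (A (L (X (A (L (R D 18592) 4294967295) (X c (L (R D 37792) 4294967295))) (A 0 (S M (L (L (X 12 1) N) N)))) N) (A (L (X (A (L (R D 18656) 4294967295) (X c (L (R D 37856) 4294967295))) 1) N) (L (X (A (L (R D 18720) 4294967295) (X c (L (R D 37920) 4294967295))) (A 0 (S M (L (L (X 12 1) N) N)))) N)))) N) (P e 5)) N) (P g 2)) N) N))), 114, 6, 1, 4, 1⟩,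
  ⟨fun A S X L P R M N m a b c d e f g h D => (A (A (L (X (L (X 0 (P e 4)) N) (P g 3)) N) (S M (L (L (X (A (L (X 1 (A (L (R D 128) 4294967295) (X a (A (L (R D 160) 4294967295) (X a (L (R D 192) 4294967295)))))) N) (L (X c (A (L (R D 19328) 4294967295) (X a (A (L (R D 19360) 4294967295) (X a (L (R D 19392) 4294967295)))))) N)) (A (L (X (A (L (X 1 (A (L (R D 224) 4294967295) (X a (A (L (R D 256) 4294967295) (X a (L (R D 288) 4294967295)))))) N) (L (X c (A (L (R D 19424) 4294967295) (X a (A (L (R D 19456) 4294967295) (X a (L (R D 19488) 4294967295)))))) N)) (L (X (A (A (L (R D 992) 4294967295) (X c (L (R D 20192) 4294967295))) (S M (L (X 2147483648 (A 1 (X c 1))) N))) 1) N)) N) (L (X (L (X (L (X 16777216 (L (X (A (A (L (R D 9504) 4294967295) (X c (L (R D 28704) 4294967295))) (S M (L (X 2147483648 (A 1 (X c 1))) N))) 1) N)) N) (P e 2)) N) g) N))) N) N))) (S M (L (L (X (L (X (L (X 281474976710656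 (A (L (X (A (L (R D 18624) 4294967295) (X c (L (R D 37824) 4294967295))) (A 0 (S M (L (L (X 12 1) N) N)))) N) (A (L (X (A (L (R D 18688) 4294967295) (X c (L (R D 37888) 4294967295))) (L (X 2 1) N)) N) (L (X (A (L (R D 18720) 4294967295) (X c (L (R D 37920) 4294967295))) (A 0 (S M (L (L (X 24 1) N) N)))) N)))) N) (P e 4)) N) (P g 2)) N) N))), 103, 5, 1, 4, 1⟩,
  ⟨fun A S X L P R M N m a b c d e f g h D => (A (A (L (X (L (X 0 (P e 4)) N) (P g 3)) N) (S M (L (L (X (A (L (X 1 (A (L (R D 128) 4294967295) (X a (A (L (R D 160) 4294967295) (X a (L (R D 192) 4294967295)))))) N) (L (X c (A (L (R D 19328) 4294967295) (X a (A (L (R D 19360) 4294967295) (X a (L (R D 19392) 4294967295)))))) N)) (A (L (X (A (L (X 1 (A (L (R D 224) 4294967295) (X a (A (L (R D 256) 4294967295) (X a (L (R D 288) 4294967295)))))) N) (L (X c (A (L (R D 19424) 4294967295) (X a (A (L (R D 19456) 4294967295) (X a (L (R D 19488)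 4294967295)))))) N)) (L (X (A (A (L (R D 1024) 4294967295) (X c (L (R D 20224) 4294967295))) (S M (L (X 2147483648 (A 1 (X c 1))) N))) 1) N)) N) (L (X (L (X (L (X 16777216 (L (X (A (A (L (R D 9536) 4294967295) (X c (L (R D 28736) 4294967295))) (S M (L (X 2147483648 (A 1 (X c 1))) N))) 1) N)) N) (P e 2)) N) g) N))) N) N))) (S M (L (L (X (L (X (L (X 281474976710656 (A (L (X (A (L (R D 18656) 4294967295) (X c (L (R D 37856) 4294967295))) (A 0 (S M (L (L (X 12 1) N) N)))) N) (A (L (X (A (L (R D 18688) 4294967295) (X c (L (R D 37888) 4294967295))) (A 0 (S M (L (L (X 12 1) N) N)))) N) (L (X (A (L (R D 18720) 4294967295) (X c (L (R D 37920) 4294967295))) (L (X 144 1) N)) N)))) N) (P e 4)) N) (P g 2)) N) N))), 103, 5, 1, 4, 1⟩,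
  ⟨fun A S X L P R M N m a b c d e f g h D => (A (A (L (X 1 (A (L (R D 128) 4294967295) (X a (A (L (R D 160) 4294967295) (X a (L (R D 192) 4294967295)))))) N) (L (X c (A (L (R D 19328) 4294967295) (X a (A (L (R D 19360) 4294967295) (X a (L (R D 19392) 4294967295)))))) N)) (S M (L (L (X (L (X (L (X 16777216 1) N) (P e 2)) N) g) N) N))), 35, 3, 1, 2, 1⟩,
  ⟨fun A S X L P R M N m a b c d e f g h D => (A 1 (S M (L 1 N))), 2, 1, 1, 1, 1⟩,
  ⟨fun A S X L P R M N m a b c d e f g h D => (A 1 (S M (L 1 N))), 2, 1, 1, 1, 1⟩,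
  ⟨fun A S X L P R M N m a b c d e f g h D => (A 1 (S M (L 1 N))), 2, 1, 1, 1, 1⟩,
  ⟨fun A S X L P R M N m a b c d e f g h D => (A 1 (S M (L 1 N))), 2, 1, 1, 1, 1⟩,
  ⟨fun A S X L P R M N m a b c d e f g h D => (A 1 (S M (L 1 N))), 2, 1, 1, 1, 1⟩,
  ⟨fun A S X L P R M N m a b c d e f g h D => (A 1 (S M (L 1 N))), 2, 1, 1, 1, 1⟩,
  ⟨fun A S X L P R M N m a b c d e f g h D => (A (L (R D 0) 4294967295) (S M (L 1 N))), 33, 1, 1, 1, 1⟩,
  ⟨fun A S X L P R M N m a b c d e f g h D => (A (L (X 33554432 (A (L (R D 3840) 4294967295) m)) N) (S M (L (A (L (X 33554432 (A (L (R D 23040) 4294967295) m)) N) (L (X 1 (L (X (L (R D 0) 4294967295) (A (A (L (R D 3808) 4294967295) m) (A (L (R D 23008) 4294967295) m))) N)) N)) N))), 66, 1, 1, 1, 1⟩,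
  ⟨fun A S X L P R M N m a b c d e f g h D => (A (A (L (R D 3872) 4294967295) m) (S M (L (A (L (R D 3840) 4294967295) m) N))), 34, 1, 1, 1, 1⟩,
  ⟨fun A S X L P R M N m a b c d e f g h D => (A (A (L (R D 23072) 4294967295) m) (S M (L (A (L (R D 23040) 4294967295) m) N))), 34, 1, 1, 1, 1⟩,
  ⟨fun A S X L P R M N m a b c d e f g h D => (A (L (X 16777216 (L (X 8 (A (A (L (R D 3872) 4294967295) m) (S M (L (A (L (R D 3840) 4294967295) m) N)))) N)) N) (S M (L (L (X (L (R D 0) 4294967295) (A (A (L (R D 23008) 4294967295) m) (S M (L (A (L (R D 3808) 4294967295) m) N)))) N) N))), 66, 1, 1, 1, 1⟩,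
  ⟨fun A S X L P R M N m a b c d e f g h D => (A (L (X 16777216 (L (X 8 (A (A (L (R D 23072) 4294967295) m) (S M (L (A (L (R D 23040) 4294967295) m) N)))) N)) N) (S M (L (L (X (L (R D 0) 4294967295) (A (A (L (R D 23008) 4294967295) m) (S M (L (A (L (R D 3808) 4294967295) m) N)))) N) N))), 66, 1, 1, 1, 1⟩,
  ⟨fun A S X L P R M N m a b c d e f g h D => (A (L (X 33554432 (A (L (R D 3936) 4294967295) m)) N) (S M (L (A (L (X 33554432 (A (L (R D 23136) 4294967295) m)) N) (L (X 1 (L (X (L (R D 0) 4294967295) (A (A (L (R D 3904) 4294967295) m) (A (L (R D 23104) 4294967295) m))) N)) N)) N))), 66, 1, 1, 1, 1⟩,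
  ⟨fun A S X L P R M N m a b c d e f g h D => (A (A (L (R D 3968) 4294967295) m) (S M (L (A (L (R D 3936) 4294967295) m) N))), 34, 1, 1, 1, 1⟩,
  ⟨fun A S X L P R M N m a b c d e f g h D => (A (A (L (R D 23168) 4294967295) m) (S M (L (A (L (R D 23136) 4294967295) m) N))), 34, 1, 1, 1, 1⟩,
  ⟨fun A S X L P R M N m a b c d e f g h D => (A (L (X 16777216 (L (X 8 (A (A (L (R D 3968) 4294967295) m) (S M (L (A (L (R D 3936) 4294967295) m) N)))) N)) N) (S M (L (L (X (L (R D 0) 4294967295) (A (A (L (R D 23104) 4294967295) m) (S M (L (A (L (R D 3904) 4294967295) m) N)))) N) N))), 66, 1, 1, 1, 1⟩,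
  ⟨fun A S X L P R M N m a b c d e f g h D => (A (L (X 16777216 (L (X 8 (A (A (L (R D 23168) 4294967295) m) (S M (L (A (L (R D 23136) 4294967295) m) N)))) N)) N) (S M (L (L (X (L (R D 0) 4294967295) (A (A (L (R D 23104) 4294967295) m) (S M (L (A (L (R D 3904) 4294967295) m) N)))) N) N))), 66, 1, 1, 1, 1⟩,
  ⟨fun A S X L P R M N m a b c d e f g h D => (A (L (X 33554432 (A (L (R D 4032) 4294967295) m)) N) (S M (L (A (L (X 33554432 (A (L (R D 23232) 4294967295) m)) N) (L (X 1 (L (X (L (R D 0) 4294967295) (A (A (L (R D 4000) 4294967295) m) (A (L (R D 23200) 4294967295) m))) N)) N)) N))), 66, 1, 1, 1, 1⟩,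
  ⟨fun A S X L P R M N m a b c d e f g h D => (A (A (L (R D 4064) 4294967295) m) (S M (L (A (L (R D 4032) 4294967295) m) N))), 34, 1, 1, 1, 1⟩,
  ⟨fun A S X L P R M N m a b c d e f g h D => (A (A (L (R D 23264) 4294967295) m) (S M (L (A (L (R D 23232) 4294967295) m) N))), 34, 1, 1, 1, 1⟩,
  ⟨fun A S X L P R M N m a b c d e f g h D => (A (L (X 16777216 (L (X 8 (A (A (L (R D 4064) 4294967295) m) (S M (L (A (L (R D 4032) 4294967295) m) N)))) N)) N) (S M (L (L (X (L (R D 0) 4294967295) (A (A (L (R D 23200) 4294967295) m) (S M (L (A (L (R D 4000) 4294967295) m) N)))) N) N))), 66, 1, 1, 1, 1⟩,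
  ⟨fun A S X L P R M N m a b c d e f g h D => (A (L (X 16777216 (L (X 8 (A (A (L (R D 23264) 4294967295) m) (S M (L (A (L (R D 23232) 4294967295) m) N)))) N)) N) (S M (L (L (X (L (R D 0) 4294967295) (A (A (L (R D 23200) 4294967295) m) (S M (L (A (L (R D 4000) 4294967295) m) N)))) N) N))), 66, 1, 1, 1, 1⟩,
  ⟨fun A S X L P R M N m a b c d e f g h D => (A (L (X 33554432 (A (L (R D 4128) 4294967295) m)) N) (S M (L (A (L (X 33554432 (A (L (R D 23328) 4294967295) m)) N) (L (X 1 (L (X (L (R D 0) 4294967295) (A (A (L (R D 4096) 4294967295) m) (A (L (R D 23296) 4294967295) m))) N)) N)) N))), 66, 1, 1, 1, 1⟩,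
  ⟨fun A S X L P R M N m a b c d e f g h D => (A (A (L (R D 4160) 4294967295) m) (S M (L (A (L (R D 4128) 4294967295) m) N))), 34, 1, 1, 1, 1⟩,
  ⟨fun A S X L P R M N m a b c d e f g h D => (A (A (L (R D 23360) 4294967295) m) (S M (L (A (L (R D 23328) 4294967295) m) N))), 34, 1, 1, 1, 1⟩,
  ⟨fun A S X L P R M N m a b c d e f g h D => (A (L (X 16777216 (L (X 8 (A (A (L (R D 4160) 4294967295) m) (S M (L (A (L (R D 4128) 4294967295) m) N)))) N)) N) (S M (L (L (X (L (R D 0) 4294967295) (A (A (L (R D 23296) 4294967295) m) (S M (L (A (L (R D 4096) 4294967295) m) N)))) N) N))), 66, 1, 1, 1, 1⟩,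
  ⟨fun A S X L P R M N m a b c d e f g h D => (A (L (X 16777216 (L (X 8 (A (A (L (R D 23360) 4294967295) m) (S M (L (A (L (R D 23328) 4294967295) m) N)))) N)) N) (S M (L (L (X (L (R D 0) 4294967295) (A (A (L (R D 23296) 4294967295) m) (S M (L (A (L (R D 4096) 4294967295) m) N)))) N) N))), 66, 1, 1, 1, 1⟩,
  ⟨fun A S X L P R M N m a b c d e f g h D => (A (L (X 33554432 (A (L (R D 4224) 4294967295) m)) N) (S M (L (A (L (X 33554432 (A (L (R D 23424) 4294967295) m)) N) (L (X 1 (L (X (L (R D 0) 4294967295) (A (A (L (R D 4192) 4294967295) m) (A (L (R D 23392) 4294967295) m))) N)) N)) N))), 66, 1, 1, 1, 1⟩,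
  ⟨fun A S X L P R M N m a b c d e f g h D => (A (A (L (R D 4256) 4294967295) m) (S M (L (A (L (R D 4224) 4294967295) m) N))), 34, 1, 1, 1, 1⟩,
  ⟨fun A S X L P R M N m a b c d e f g h D => (A (A (L (R D 23456) 4294967295) m) (S M (L (A (L (R D 23424) 4294967295) m) N))), 34, 1, 1, 1, 1⟩,
  ⟨fun A S X L P R M N m a b c d e f g h D => (A (L (X 16777216 (L (X 8 (A (A (L (R D 4256) 4294967295) m) (S M (L (A (L (R D 4224) 4294967295) m) N)))) N)) N) (S M (L (L (X (L (R D 0) 4294967295) (A (A (L (R D 23392) 4294967295) m) (S M (L (A (L (R D 4192) 4294967295) m) N)))) N) N))), 66, 1, 1, 1, 1⟩,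
  ⟨fun A S X L P R M N m a b c d e f g h D => (A (L (X 16777216 (L (X 8 (A (A (L (R D 23456) 4294967295) m) (S M (L (A (L (R D 23424) 4294967295) m) N)))) N)) N) (S M (L (L (X (L (R D 0) 4294967295) (A (A (L (R D 23392) 4294967295) m) (S M (L (A (L (R D 4192) 4294967295) m) N)))) N) N))), 66, 1, 1, 1, 1⟩,
  ⟨fun A S X L P R M N m a b c d e f g h D => (A (L (X 33554432 (A (L (R D 4320) 4294967295) m)) N) (S M (L (A (L (X 33554432 (A (L (R D 23520) 4294967295) m)) N) (L (X 1 (L (X (L (R D 0) 4294967295) (A (A (L (R D 4288) 4294967295) m) (A (L (R D 23488) 4294967295) m))) N)) N)) N))), 66, 1, 1, 1, 1⟩,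
  ⟨fun A S X L P R M N m a b c d e f g h D => (A (A (L (R D 4352) 4294967295) m) (S M (L (A (L (R D 4320) 4294967295) m) N))), 34, 1, 1, 1, 1⟩,
  ⟨fun A S X L P R M N m a b c d e f g h D => (A (A (L (R D 23552) 4294967295) m) (S M (L (A (L (R D 23520) 4294967295) m) N))), 34, 1, 1, 1, 1⟩,
  ⟨fun A S X L P R M N m a b c d e f g h D => (A (L (X 16777216 (L (X 8 (A (A (L (R D 4352) 4294967295) m) (S M (L (A (L (R D 4320) 4294967295) m) N)))) N)) N) (S M (L (L (X (L (R D 0) 4294967295) (A (A (L (R D 23488) 4294967295) m) (S M (L (A (L (R D 4288) 4294967295) m) N)))) N) N))), 66, 1, 1, 1, 1⟩,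
  ⟨fun A S X L P R M N m a b c d e f g h D => (A (L (X 16777216 (L (X 8 (A (A (L (R D 23552) 4294967295) m) (S M (L (A (L (R D 23520) 4294967295) m) N)))) N)) N) (S M (L (L (X (L (R D 0) 4294967295) (A (A (L (R D 23488) 4294967295) m) (S M (L (A (L (R D 4288) 4294967295) m) N)))) N) N))), 66, 1, 1, 1, 1⟩,
  ⟨fun A S X L P R M N m a b c d e f g h D => (A (L (X 33554432 (A (L (R D 4416) 4294967295) m)) N) (S M (L (A (L (X 33554432 (A (L (R D 23616) 4294967295) m)) N) (L (X 1 (L (X (L (R D 0) 4294967295) (A (A (L (R D 4384) 4294967295) m) (A (L (R D 23584) 4294967295) m))) N)) N)) N))), 66, 1, 1, 1, 1⟩,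
  ⟨fun A S X L P R M N m a b c d e f g h D => (A (A (L (R D 4448) 4294967295) m) (S M (L (A (L (R D 4416) 4294967295) m) N))), 34, 1, 1, 1, 1⟩,
  ⟨fun A S X L P R M N m a b c d e f g h D => (A (A (L (R D 23648) 4294967295) m) (S M (L (A (L (R D 23616) 4294967295) m) N))), 34, 1, 1, 1, 1⟩,
  ⟨fun A S X L P R M N m a b c d e f g h D => (A (L (X 16777216 (L (X 8 (A (A (L (R D 4448) 4294967295) m) (S M (L (A (L (R D 4416) 4294967295) m) N)))) N)) N) (S M (L (L (X (L (R D 0) 4294967295) (A (A (L (R D 23584) 4294967295) m) (S M (L (A (L (R D 4384) 4294967295) m) N)))) N) N))), 66, 1, 1, 1, 1⟩,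
  ⟨fun A S X L P R M N m a b c d e f g h D => (A (L (X 16777216 (L (X 8 (A (A (L (R D 23648) 4294967295) m) (S M (L (A (L (R D 23616) 4294967295) m) N)))) N)) N) (S M (L (L (X (L (R D 0) 4294967295) (A (A (L (R D 23584) 4294967295) m) (S M (L (A (L (R D 4384) 4294967295) m) N)))) N) N))), 66, 1, 1, 1, 1⟩,
  ⟨fun A S X L P R M N m a b c d e f g h D => (A (L (X 33554432 (A (L (R D 4512) 4294967295) m)) N) (S M (L (A (L (X 33554432 (A (L (R D 23712) 4294967295) m)) N) (L (X 1 (L (X (L (R D 0) 4294967295) (A (A (L (R D 4480) 4294967295) m) (A (L (R D 23680) 4294967295) m))) N)) N)) N))), 66, 1, 1, 1, 1⟩,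
  ⟨fun A S X L P R M N m a b c d e f g h D => (A (A (L (R D 4544) 4294967295) m) (S M (L (A (L (R D 4512) 4294967295) m) N))), 34, 1, 1, 1, 1⟩,
  ⟨fun A S X L P R M N m a b c d e f g h D => (A (A (L (R D 23744) 4294967295) m) (S M (L (A (L (R D 23712) 4294967295) m) N))), 34, 1, 1, 1, 1⟩,
  ⟨fun A S X L P R M N m a b c d e f g h D => (A (L (X 16777216 (L (X 8 (A (A (L (R D 4544) 4294967295) m) (S M (L (A (L (R D 4512) 4294967295) m) N)))) N)) N) (S M (L (L (X (L (R D 0) 4294967295) (A (A (L (R D 23680) 4294967295) m) (S M (L (A (L (R D 4480) 4294967295) m) N)))) N) N))), 66, 1, 1, 1, 1⟩,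
  ⟨fun A S X L P R M N m a b c d e f g h D => (A (L (X 16777216 (L (X 8 (A (A (L (R D 23744) 4294967295) m) (S M (L (A (L (R D 23712) 4294967295) m) N)))) N)) N) (S M (L (L (X (L (R D 0) 4294967295) (A (A (L (R D 23680) 4294967295) m) (S M (L (A (L (R D 4480) 4294967295) m) N)))) N) N))), 66, 1, 1, 1, 1⟩,
  ⟨fun A S X L P R M N m a b c d e f g h D => (A (L (X 33554432 (A (L (R D 4608) 4294967295) m)) N) (S M (L (A (L (X 33554432 (A (L (R D 23808) 4294967295) m)) N) (L (X 1 (L (X (L (R D 0) 4294967295) (A (A (L (R D 4576) 4294967295) m) (A (L (R D 23776) 4294967295) m))) N)) N)) N))), 66, 1, 1, 1, 1⟩,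
  ⟨fun A S X L P R M N m a b c d e f g h D => (A (A (L (R D 4640) 4294967295) m) (S M (L (A (L (R D 4608) 4294967295) m) N))), 34, 1, 1, 1, 1⟩,
  ⟨fun A S X L P R M N m a b c d e f g h D => (A (A (L (R D 23840) 4294967295) m) (S M (L (A (L (R D 23808) 4294967295) m) N))), 34, 1, 1, 1, 1⟩,
  ⟨fun A S X L P R M N m a b c d e f g h D => (A (L (X 16777216 (L (X 8 (A (A (L (R D 4640) 4294967295) m) (S M (L (A (L (R D 4608) 4294967295) m) N)))) N)) N) (S M (L (L (X (L (R D 0) 4294967295) (A (A (L (R D 23776) 4294967295) m) (S M (L (A (L (R D 4576) 4294967295) m) N)))) N) N))), 66, 1, 1, 1, 1⟩,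
  ⟨fun A S X L P R M N m a b c d e f g h D => (A (L (X 16777216 (L (X 8 (A (A (L (R D 23840) 4294967295) m) (S M (L (A (L (R D 23808) 4294967295) m) N)))) N)) N) (S M (L (L (X (L (R D 0) 4294967295) (A (A (L (R D 23776) 4294967295) m) (S M (L (A (L (R D 4576) 4294967295) m) N)))) N) N))), 66, 1, 1, 1, 1⟩,
  ⟨fun A S X L P R M N m a b c d e f g h D => (A (L (X 33554432 (A (L (R D 4704) 4294967295) m)) N) (S M (L (A (L (X 33554432 (A (L (R D 23904) 4294967295) m)) N) (L (X 1 (L (X (L (R D 0) 4294967295) (A (A (L (R D 4672) 4294967295) m) (A (L (R D 23872) 4294967295) m))) N)) N)) N))), 66, 1, 1, 1, 1⟩,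
  ⟨fun A S X L P R M N m a b c d e f g h D => (A (A (L (R D 4736) 4294967295) m) (S M (L (A (L (R D 4704) 4294967295) m) N))), 34, 1, 1, 1, 1⟩,
  ⟨fun A S X L P R M N m a b c d e f g h D => (A (A (L (R D 23936) 4294967295) m) (S M (L (A (L (R D 23904) 4294967295) m) N))), 34, 1, 1, 1, 1⟩,
  ⟨fun A S X L P R M N m a b c d e f g h D => (A (L (X 16777216 (L (X 8 (A (A (L (R D 4736) 4294967295) m) (S M (L (A (L (R D 4704) 4294967295) m) N)))) N)) N) (S M (L (L (X (L (R D 0) 4294967295) (A (A (L (R D 23872) 4294967295) m) (S M (L (A (L (R D 4672) 4294967295) m) N)))) N) N))), 66, 1, 1, 1, 1⟩,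
  ⟨fun A S X L P R M N m a b c d e f g h D => (A (L (X 16777216 (L (X 8 (A (A (L (R D 23936) 4294967295) m) (S M (L (A (L (R D 23904) 4294967295) m) N)))) N)) N) (S M (L (L (X (L (R D 0) 4294967295) (A (A (L (R D 23872) 4294967295) m) (S M (L (A (L (R D 4672) 4294967295) m) N)))) N) N))), 66, 1, 1, 1, 1⟩,
  ⟨fun A S X L P R M N m a b c d e f g h D => (A (L (X 33554432 (A (L (R D 4800) 4294967295) m)) N) (S M (L (A (L (X 33554432 (A (L (R D 24000) 4294967295) m)) N) (L (X 1 (L (X (L (R D 0) 4294967295) (A (A (L (R D 4768) 4294967295) m) (A (L (R D 23968) 4294967295) m))) N)) N)) N))), 66, 1, 1, 1, 1⟩,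
  ⟨fun A S X L P R M N m a b c d e f g h D => (A (A (L (R D 4832) 4294967295) m) (S M (L (A (L (R D 4800) 4294967295) m) N))), 34, 1, 1, 1, 1⟩,
  ⟨fun A S X L P R M N m a b c d e f g h D => (A (A (L (R D 24032) 4294967295) m) (S M (L (A (L (R D 24000) 4294967295) m) N))), 34, 1, 1, 1, 1⟩,
  ⟨fun A S X L P R M N m a b c d e f g h D => (A (L (X 16777216 (L (X 8 (A (A (L (R D 4832) 4294967295) m) (S M (L (A (L (R D 4800) 4294967295) m) N)))) N)) N) (S M (L (L (X (L (R D 0) 4294967295) (A (A (L (R D 23968) 4294967295) m) (S M (L (A (L (R D 4768) 4294967295) m) N)))) N) N))), 66, 1, 1, 1, 1⟩,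
  ⟨fun A S X L P R M N m a b c d e f g h D => (A (L (X 16777216 (L (X 8 (A (A (L (R D 24032) 4294967295) m) (S M (L (A (L (R D 24000) 4294967295) m) N)))) N)) N) (S M (L (L (X (L (R D 0) 4294967295) (A (A (L (R D 23968) 4294967295) m) (S M (L (A (L (R D 4768) 4294967295) m) N)))) N) N))), 66, 1, 1, 1, 1⟩,
  ⟨fun A S X L P R M N m a b c d e f g h D => (A (L (X 33554432 (A (L (R D 4896) 4294967295) m)) N) (S M (L (A (L (X 33554432 (A (L (R D 24096) 4294967295) m)) N) (L (X 1 (L (X (L (R D 0) 4294967295) (A (A (L (R D 4864) 4294967295) m) (A (L (R D 24064) 4294967295) m))) N)) N)) N))), 66, 1, 1, 1, 1⟩,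
  ⟨fun A S X L P R M N m a b c d e f g h D => (A (A (L (R D 4928) 4294967295) m) (S M (L (A (L (R D 4896) 4294967295) m) N))), 34, 1, 1, 1, 1⟩,
  ⟨fun A S X L P R M N m a b c d e f g h D => (A (A (L (R D 24128) 4294967295) m) (S M (L (A (L (R D 24096) 4294967295) m) N))), 34, 1, 1, 1, 1⟩,
  ⟨fun A S X L P R M N m a b c d e f g h D => (A (L (X 16777216 (L (X 8 (A (A (L (R D 4928) 4294967295) m) (S M (L (A (L (R D 4896) 4294967295) m) N)))) N)) N) (S M (L (L (X (L (R D 0) 4294967295) (A (A (L (R D 24064) 4294967295) m) (S M (L (A (L (R D 4864) 4294967295) m) N)))) N) N))), 66, 1, 1, 1, 1⟩,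
  ⟨fun A S X L P R M N m a b c d e f g h D => (A (L (X 16777216 (L (X 8 (A (A (L (R D 24128) 4294967295) m) (S M (L (A (L (R D 24096) 4294967295) m) N)))) N)) N) (S M (L (L (X (L (R D 0) 4294967295) (A (A (L (R D 24064) 4294967295) m) (S M (L (A (L (R D 4864) 4294967295) m) N)))) N) N))), 66, 1, 1, 1, 1⟩,
  ⟨fun A S X L P R M N m a b c d e f g h D => (A (A (L (X 1 (A (L (R D 128) 4294967295) (X a (A (L (R D 160) 4294967295) (X a (L (R D 192) 4294967295)))))) N) (L (X c (A (L (R D 19328) 4294967295) (X a (A (L (R D 19360) 4294967295) (X a (L (R D 19392) 4294967295)))))) N)) (S M (L (L (X (L (X (L (X 16777216 1) N) (P e 2)) N) g) N) N))), 35, 3, 1, 2, 1⟩,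
  ⟨fun A S X L P R M N m a b c d e f g h D => (A (L (R D 0) 4294967295) (S M (L 1 N))), 33, 1, 1, 1, 1⟩,
  ⟨fun A S X L P R M N m a b c d e f g h D => (A (L (X 33554432 (A (L (R D 10368) 4294967295) m)) N) (S M (L (A (L (X 33554432 (A (L (R D 29568) 4294967295) m)) N) (L (X 1 (L (X (L (R D 0) 4294967295) (A (A (L (R D 10336) 4294967295) m) (A (L (R D 29536) 4294967295) m))) N)) N)) N))), 66, 1, 1, 1, 1⟩,
  ⟨fun A S X L P R M N m a b c d e f g h D => (A (A (L (R D 10400) 4294967295) m) (S M (L (A (L (R D 10368) 4294967295) m) N))), 34, 1, 1, 1, 1⟩,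
  ⟨fun A S X L P R M N m a b c d e f g h D => (A (A (L (R D 29600) 4294967295) m) (S M (L (A (L (R D 29568) 4294967295) m) N))), 34, 1, 1, 1, 1⟩,
  ⟨fun A S X L P R M N m a b c d e f g h D => (A (L (X 16777216 (L (X 8 (A (A (L (R D 10400) 4294967295) m) (S M (L (A (L (R D 10368) 4294967295) m) N)))) N)) N) (S M (L (L (X (L (R D 0) 4294967295) (A (A (L (R D 29536) 4294967295) m) (S M (L (A (L (R D 10336) 4294967295) m) N)))) N) N))), 66, 1, 1, 1, 1⟩,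
  ⟨fun A S X L P R M N m a b c d e f g h D => (A (L (X 16777216 (L (X 8 (A (A (L (R D 29600) 4294967295) m) (S M (L (A (L (R D 29568) 4294967295) m) N)))) N)) N) (S M (L (L (X (L (R D 0) 4294967295) (A (A (L (R D 29536) 4294967295) m) (S M (L (A (L (R D 10336) 4294967295) m) N)))) N) N))), 66, 1, 1, 1, 1⟩,
  ⟨fun A S X L P R M N m a b c d e f g h D => (A (L (X 33554432 (A (L (R D 10464) 4294967295) m)) N) (S M (L (A (L (X 33554432 (A (L (R D 29664) 4294967295) m)) N) (L (X 1 (L (X (L (R D 0) 4294967295) (A (A (L (R D 10432) 4294967295) m) (A (L (R D 29632) 4294967295) m))) N)) N)) N))), 66, 1, 1, 1, 1⟩,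
  ⟨fun A S X L P R M N m a b c d e f g h D => (A (A (L (R D 10496) 4294967295) m) (S M (L (A (L (R D 10464) 4294967295) m) N))), 34, 1, 1, 1, 1⟩,
  ⟨fun A S X L P R M N m a b c d e f g h D => (A (A (L (R D 29696) 4294967295) m) (S M (L (A (L (R D 29664) 4294967295) m) N))), 34, 1, 1, 1, 1⟩,
  ⟨fun A S X L P R M N m a b c d e f g h D => (A (L (X 16777216 (L (X 8 (A (A (L (R D 10496) 4294967295) m) (S M (L (A (L (R D 10464) 4294967295) m) N)))) N)) N) (S M (L (L (X (L (R D 0) 4294967295) (A (A (L (R D 29632) 4294967295) m) (S M (L (A (L (R D 10432) 4294967295) m) N)))) N) N))), 66, 1, 1, 1, 1⟩,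
  ⟨fun A S X L P R M N m a b c d e f g h D => (A (L (X 16777216 (L (X 8 (A (A (L (R D 29696) 4294967295) m) (S M (L (A (L (R D 29664) 4294967295) m) N)))) N)) N) (S M (L (L (X (L (R D 0) 4294967295) (A (A (L (R D 29632) 4294967295) m) (S M (L (A (L (R D 10432) 4294967295) m) N)))) N) N))), 66, 1, 1, 1, 1⟩,
  ⟨fun A S X L P R M N m a b c d e f g h D => (A (L (X 33554432 (A (L (R D 10560) 4294967295) m)) N) (S M (L (A (L (X 33554432 (A (L (R D 29760) 4294967295) m)) N) (L (X 1 (L (X (L (R D 0) 4294967295) (A (A (L (R D 10528) 4294967295) m) (A (L (R D 29728) 4294967295) m))) N)) N)) N))), 66, 1, 1, 1, 1⟩,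
  ⟨fun A S X L P R M N m a b c d e f g h D => (A (A (L (R D 10592) 4294967295) m) (S M (L (A (L (R D 10560) 4294967295) m) N))), 34, 1, 1, 1, 1⟩,
  ⟨fun A S X L P R M N m a b c d e f g h D => (A (A (L (R D 29792) 4294967295) m) (S M (L (A (L (R D 29760) 4294967295) m) N))), 34, 1, 1, 1, 1⟩,
  ⟨fun A S X L P R M N m a b c d e f g h D => (A (L (X 16777216 (L (X 8 (A (A (L (R D 10592) 4294967295) m) (S M (L (A (L (R D 10560) 4294967295) m) N)))) N)) N) (S M (L (L (X (L (R D 0) 4294967295) (A (A (L (R D 29728) 4294967295) m) (S M (L (A (L (R D 10528) 4294967295) m) N)))) N) N))), 66, 1, 1, 1, 1⟩,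
  ⟨fun A S X L P R M N m a b c d e f g h D => (A (L (X 16777216 (L (X 8 (A (A (L (R D 29792) 4294967295) m) (S M (L (A (L (R D 29760) 4294967295) m) N)))) N)) N) (S M (L (L (X (L (R D 0) 4294967295) (A (A (L (R D 29728) 4294967295) m) (S M (L (A (L (R D 10528) 4294967295) m) N)))) N) N))), 66, 1, 1, 1, 1⟩,
  ⟨fun A S X L P R M N m a b c d e f g h D => (A (L (X 33554432 (A (L (R D 10656) 4294967295) m)) N) (S M (L (A (L (X 33554432 (A (L (R D 29856) 4294967295) m)) N) (L (X 1 (L (X (L (R D 0) 4294967295) (A (A (L (R D 10624) 4294967295) m) (A (L (R D 29824) 4294967295) m))) N)) N)) N))), 66, 1, 1, 1, 1⟩,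
  ⟨fun A S X L P R M N m a b c d e f g h D => (A (A (L (R D 10688) 4294967295) m) (S M (L (A (L (R D 10656) 4294967295) m) N))), 34, 1, 1, 1, 1⟩]

theorem p1 : Pce Pool.Agent.RZ.RCO.SBk.sh 1200 150 1 (t1, f1) :=
  ⟨by decide +kernel, rfl, by decide +kernel⟩

end Pool.Agent.RZ.RCO.SBkL
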