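import Pool.Agent.RZ.RCO.Gk13
import Pool.Agent.RZ.RCO.SBk

/-! Types of a sheet, piece 2 (MP_73ccd0_lc). -/

set_option autoImplicit false
set_option maxRecDepth 100000
set_option linter.all false

namespace Pool.Agent.RZ.RCO.SBkL

open Sg

noncomputable def t2 : List Ty :=
 [⟨(.sub (.s 0 934 1 1) (.s 0 933 1 1)), 34, 1, 1, 1, 1⟩,
  ⟨(.sub (.mul (.c 16777216) (.mul (.c 8) (.sub (.s 0 334 1 1) (.s 0 333 1 1)))) (.mul (.r 0 0 1 1) (.sub (.s 0 932 1 1) (.s 0 332 1 1)))), 66, 1, 1, 1, 1⟩,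
  ⟨(.sub (.mul (.c 16777216) (.mul (.c 8) (.sub (.s 0 934 1 1) (.s 0 933 1 1)))) (.mul (.r 0 0 1 1) (.sub (.s 0 932 1 1) (.s 0 332 1 1)))), 66, 1, 1, 1, 1⟩,
  ⟨(.sub (.mul (.c 33554432) (.s 0 336 1 1)) (.add (.mul (.c 33554432) (.s 0 936 1 1)) (.mul (.c 1) (.mul (.r 0 0 1 1) (.add (.s 0 335 1 1) (.s 0 935 1 1)))))), 66, 1, 1, 1, 1⟩,
  ⟨(.sub (.s 0 337 1 1) (.s 0 336 1 1)), 34, 1, 1, 1, 1⟩,
  ⟨(.sub (.s 0 937 1 1) (.s 0 936 1 1)), 34, 1, 1, 1, 1⟩,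
  ⟨(.sub (.mul (.c 16777216) (.mul (.c 8) (.sub (.s 0 337 1 1) (.s 0 336 1 1)))) (.mul (.r 0 0 1 1) (.sub (.s 0 935 1 1) (.s 0 335 1 1)))), 66, 1, 1, 1, 1⟩,
  ⟨(.sub (.mul (.c 16777216) (.mul (.c 8) (.sub (.s 0 937 1 1) (.s 0 936 1 1)))) (.mul (.r 0 0 1 1) (.sub (.s 0 935 1 1) (.s 0 335 1 1)))), 66, 1, 1, 1, 1⟩,
  ⟨(.sub (.mul (.c 33554432) (.s 0 339 1 1)) (.add (.mul (.c 33554432) (.s 0 939 1 1)) (.mul (.c 1) (.mul (.r 0 0 1 1) (.add (.s 0 338 1 1) (.s 0 938 1 1)))))), 66, 1, 1, 1, 1⟩,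
  ⟨(.sub (.s 0 340 1 1) (.s 0 339 1 1)), 34, 1, 1, 1, 1⟩,
  ⟨(.sub (.s 0 940 1 1) (.s 0 939 1 1)), 34, 1, 1, 1, 1⟩,
  ⟨(.sub (.mul (.c 16777216) (.mul (.c 8) (.sub (.s 0 340 1 1) (.s 0 339 1 1)))) (.mul (.r 0 0 1 1) (.sub (.s 0 938 1 1) (.s 0 338 1 1)))), 66, 1, 1, 1, 1⟩,
  ⟨(.sub (.mul (.c 16777216) (.mul (.c 8) (.sub (.s 0 940 1 1) (.s 0 939 1 1)))) (.mul (.r 0 0 1 1) (.sub (.s 0 938 1 1) (.s 0 338 1 1)))), 66, 1, 1, 1, 1⟩,
  ⟨(.sub (.mul (.c 33554432) (.s 0 360 1 1)) (.add (.mul (.c 33554432) (.s 0 960 1 1)) (.mul (.c 1) (.mul (.r 0 0 1 1) (.add (.s 0 359 1 1) (.s 0 959 1 1)))))), 66, 1, 1, 1, 1⟩,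
  ⟨(.sub (.s 0 361 1 1) (.s 0 360 1 1)), 34, 1, 1, 1, 1⟩,
  ⟨(.sub (.s 0 961 1 1) (.s 0 960 1 1)), 34, 1, 1, 1, 1⟩,
  ⟨(.sub (.mul (.c 16777216) (.mul (.c 8) (.sub (.s 0 361 1 1) (.s 0 360 1 1)))) (.mul (.r 0 0 1 1) (.sub (.s 0 959 1 1) (.s 0 359 1 1)))), 66, 1, 1, 1, 1⟩,
  ⟨(.sub (.mul (.c 16777216) (.mul (.c 8) (.sub (.s 0 961 1 1) (.s 0 960 1 1)))) (.mul (.r 0 0 1 1) (.sub (.s 0 959 1 1) (.s 0 359 1 1)))), 66, 1, 1, 1, 1⟩,
  ⟨(.sub (.mul (.c 33554432) (.s 0 363 1 1)) (.add (.mul (.c 33554432) (.s 0 963 1 1)) (.mul (.c 1) (.mul (.r 0 0 1 1) (.add (.s 0 362 1 1) (.s 0 962 1 1)))))), 66, 1, 1, 1, 1⟩,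
  ⟨(.sub (.s 0 364 1 1) (.s 0 363 1 1)), 34, 1, 1, 1, 1⟩,
  ⟨(.sub (.s 0 964 1 1) (.s 0 963 1 1)), 34, 1, 1, 1, 1⟩,
  ⟨(.sub (.mul (.c 16777216) (.mul (.c 8) (.sub (.s 0 364 1 1) (.s 0 363 1 1)))) (.mul (.r 0 0 1 1) (.sub (.s 0 962 1 1) (.s 0 362 1 1)))), 66, 1, 1, 1, 1⟩,
  ⟨(.sub (.mul (.c 16777216) (.mul (.c 8) (.sub (.s 0 964 1 1) (.s 0 963 1 1)))) (.mul (.r 0 0 1 1) (.sub (.s 0 962 1 1) (.s 0 362 1 1)))), 66, 1, 1, 1, 1⟩,
  ⟨(.sub (.mul (.c 33554432) (.s 0 366 1 1)) (.add (.mul (.c 33554432) (.s 0 966 1 1)) (.mul (.c 1) (.mul (.r 0 0 1 1) (.add (.s 0 365 1 1) (.s 0 965 1 1)))))), 66, 1, 1, 1, 1⟩,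
  ⟨(.sub (.s 0 367 1 1) (.s 0 366 1 1)), 34, 1, 1, 1, 1⟩,
  ⟨(.sub (.s 0 967 1 1) (.s 0 966 1 1)), 34, 1, 1, 1, 1⟩,
  ⟨(.sub (.mul (.c 16777216) (.mul (.c 8) (.sub (.s 0 367 1 1) (.s 0 366 1 1)))) (.mul (.r 0 0 1 1) (.sub (.s 0 965 1 1) (.s 0 365 1 1)))), 66, 1, 1, 1, 1⟩,
  ⟨(.sub (.mul (.c 16777216) (.mul (.c 8) (.sub (.s 0 967 1 1) (.s 0 966 1 1)))) (.mul (.r 0 0 1 1) (.sub (.s 0 965 1 1) (.s 0 365 1 1)))), 66, 1, 1, 1, 1⟩,
  ⟨(.sub (.mul (.c 33554432) (.s 0 369 1 1)) (.add (.mul (.c 33554432) (.s 0 969 1 1)) (.mul (.c 1) (.mul (.r 0 0 1 1) (.add (.s 0 368 1 1) (.s 0 968 1 1)))))), 66, 1, 1, 1, 1⟩,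
  ⟨(.sub (.s 0 370 1 1) (.s 0 369 1 1)), 34, 1, 1, 1, 1⟩,
  ⟨(.sub (.s 0 970 1 1) (.s 0 969 1 1)), 34, 1, 1, 1, 1⟩,
  ⟨(.sub (.mul (.c 16777216) (.mul (.c 8) (.sub (.s 0 370 1 1) (.s 0 369 1 1)))) (.mul (.r 0 0 1 1) (.sub (.s 0 968 1 1) (.s 0 368 1 1)))), 66, 1, 1, 1, 1⟩,
  ⟨(.sub (.mul (.c 16777216) (.mul (.c 8) (.sub (.s 0 970 1 1) (.s 0 969 1 1)))) (.mul (.r 0 0 1 1) (.sub (.s 0 968 1 1) (.s 0 368 1 1)))), 66, 1, 1, 1, 1⟩,
  ⟨(.sub (.mul (.c 33554432) (.s 0 372 1 1)) (.add (.mul (.c 33554432) (.s 0 972 1 1)) (.mul (.c 1) (.mul (.r 0 0 1 1) (.add (.s 0 371 1 1) (.s 0 971 1 1)))))), 66, 1, 1, 1, 1⟩,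
  ⟨(.sub (.s 0 373 1 1) (.s 0 372 1 1)), 34, 1, 1, 1, 1⟩,
  ⟨(.sub (.s 0 973 1 1) (.s 0 972 1 1)), 34, 1, 1, 1, 1⟩,
  ⟨(.sub (.mul (.c 16777216) (.mul (.c 8) (.sub (.s 0 373 1 1) (.s 0 372 1 1)))) (.mul (.r 0 0 1 1) (.sub (.s 0 971 1 1) (.s 0 371 1 1)))), 66, 1, 1, 1, 1⟩,
  ⟨(.sub (.mul (.c 16777216) (.mul (.c 8) (.sub (.s 0 973 1 1) (.s 0 972 1 1)))) (.mul (.r 0 0 1 1) (.sub (.s 0 971 1 1) (.s 0 371 1 1)))), 66, 1, 1, 1, 1⟩,
  ⟨(.sub (.mul (.c 33554432) (.s 0 375 1 1)) (.add (.mul (.c 33554432) (.s 0 975 1 1)) (.mul (.c 1) (.mul (.r 0 0 1 1) (.add (.s 0 374 1 1) (.s 0 974 1 1)))))), 66, 1, 1, 1, 1⟩,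
  ⟨(.sub (.s 0 376 1 1) (.s 0 375 1 1)), 34, 1, 1, 1, 1⟩,
  ⟨(.sub (.s 0 976 1 1) (.s 0 975 1 1)), 34, 1, 1, 1, 1⟩,
  ⟨(.sub (.mul (.c 16777216) (.mul (.c 8) (.sub (.s 0 376 1 1) (.s 0 375 1 1)))) (.mul (.r 0 0 1 1) (.sub (.s 0 974 1 1) (.s 0 374 1 1)))), 66, 1, 1, 1, 1⟩,
  ⟨(.sub (.mul (.c 16777216) (.mul (.c 8) (.sub (.s 0 976 1 1) (.s 0 975 1 1)))) (.mul (.r 0 0 1 1) (.sub (.s 0 974 1 1) (.s 0 374 1 1)))), 66, 1, 1, 1, 1⟩,
  ⟨(.sub (.mul (.c 33554432) (.s 0 342 1 1)) (.add (.mul (.c 33554432) (.s 0 942 1 1)) (.mul (.c 1) (.mul (.r 0 0 1 1) (.add (.s 0 341 1 1) (.s 0 941 1 1)))))), 66, 1, 1, 1, 1⟩,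
  ⟨(.sub (.s 0 343 1 1) (.s 0 342 1 1)), 34, 1, 1, 1, 1⟩,
  ⟨(.sub (.s 0 943 1 1) (.s 0 942 1 1)), 34, 1, 1, 1, 1⟩,
  ⟨(.sub (.mul (.c 16777216) (.mul (.c 8) (.sub (.s 0 343 1 1) (.s 0 342 1 1)))) (.mul (.r 0 0 1 1) (.sub (.s 0 941 1 1) (.s 0 341 1 1)))), 66, 1, 1, 1, 1⟩,
  ⟨(.sub (.mul (.c 16777216) (.mul (.c 8) (.sub (.s 0 943 1 1) (.s 0 942 1 1)))) (.mul (.r 0 0 1 1) (.sub (.s 0 941 1 1) (.s 0 341 1 1)))), 66, 1, 1, 1, 1⟩,
  ⟨(.sub (.mul (.c 33554432) (.s 0 345 1 1)) (.add (.mul (.c 33554432) (.s 0 945 1 1)) (.mul (.c 1) (.mul (.r 0 0 1 1) (.add (.s 0 344 1 1) (.s 0 944 1 1)))))), 66, 1, 1, 1, 1⟩,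
  ⟨(.sub (.s 0 346 1 1) (.s 0 345 1 1)), 34, 1, 1, 1, 1⟩,
  ⟨(.sub (.s 0 946 1 1) (.s 0 945 1 1)), 34, 1, 1, 1, 1⟩,
  ⟨(.sub (.mul (.c 16777216) (.mul (.c 8) (.sub (.s 0 346 1 1) (.s 0 345 1 1)))) (.mul (.r 0 0 1 1) (.sub (.s 0 944 1 1) (.s 0 344 1 1)))), 66, 1, 1, 1, 1⟩,
  ⟨(.sub (.mul (.c 16777216) (.mul (.c 8) (.sub (.s 0 946 1 1) (.s 0 945 1 1)))) (.mul (.r 0 0 1 1) (.sub (.s 0 944 1 1) (.s 0 344 1 1)))), 66, 1, 1, 1, 1⟩,
  ⟨(.sub (.mul (.c 33554432) (.s 0 348 1 1)) (.add (.mul (.c 33554432) (.s 0 948 1 1)) (.mul (.c 1) (.mul (.r 0 0 1 1) (.add (.s 0 347 1 1) (.s 0 947 1 1)))))), 66, 1, 1, 1, 1⟩,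
  ⟨(.sub (.s 0 349 1 1) (.s 0 348 1 1)), 34, 1, 1, 1, 1⟩,
  ⟨(.sub (.s 0 949 1 1) (.s 0 948 1 1)), 34, 1, 1, 1, 1⟩,
  ⟨(.sub (.mul (.c 16777216) (.mul (.c 8) (.sub (.s 0 349 1 1) (.s 0 348 1 1)))) (.mul (.r 0 0 1 1) (.sub (.s 0 947 1 1) (.s 0 347 1 1)))), 66, 1, 1, 1, 1⟩,
  ⟨(.sub (.mul (.c 16777216) (.mul (.c 8) (.sub (.s 0 949 1 1) (.s 0 948 1 1)))) (.mul (.r 0 0 1 1) (.sub (.s 0 947 1 1) (.s 0 347 1 1)))), 66, 1, 1, 1, 1⟩,
  ⟨(.sub (.mul (.c 33554432) (.s 0 351 1 1)) (.add (.mul (.c 33554432) (.s 0 951 1 1)) (.mul (.c 1) (.mul (.r 0 0 1 1) (.add (.s 0 350 1 1) (.s 0 950 1 1)))))), 66, 1, 1, 1, 1⟩,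
  ⟨(.sub (.s 0 352 1 1) (.s 0 351 1 1)), 34, 1, 1, 1, 1⟩,
  ⟨(.sub (.s 0 952 1 1) (.s 0 951 1 1)), 34, 1, 1, 1, 1⟩,
  ⟨(.sub (.mul (.c 16777216) (.mul (.c 8) (.sub (.s 0 352 1 1) (.s 0 351 1 1)))) (.mul (.r 0 0 1 1) (.sub (.s 0 950 1 1) (.s 0 350 1 1)))), 66, 1, 1, 1, 1⟩,
  ⟨(.sub (.mul (.c 16777216) (.mul (.c 8) (.sub (.s 0 952 1 1) (.s 0 951 1 1)))) (.mul (.r 0 0 1 1) (.sub (.s 0 950 1 1) (.s 0 350 1 1)))), 66, 1, 1, 1, 1⟩,
  ⟨(.sub (.mul (.c 33554432) (.s 0 354 1 1)) (.add (.mul (.c 33554432) (.s 0 954 1 1)) (.mul (.c 1) (.mul (.r 0 0 1 1) (.add (.s 0 353 1 1) (.s 0 953 1 1)))))), 66, 1, 1, 1, 1⟩,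
  ⟨(.sub (.s 0 355 1 1) (.s 0 354 1 1)), 34, 1, 1, 1, 1⟩,
  ⟨(.sub (.s 0 955 1 1) (.s 0 954 1 1)), 34, 1, 1, 1, 1⟩,
  ⟨(.sub (.mul (.c 16777216) (.mul (.c 8) (.sub (.s 0 355 1 1) (.s 0 354 1 1)))) (.mul (.r 0 0 1 1) (.sub (.s 0 953 1 1) (.s 0 353 1 1)))), 66, 1, 1, 1, 1⟩,
  ⟨(.sub (.mul (.c 16777216) (.mul (.c 8) (.sub (.s 0 955 1 1) (.s 0 954 1 1)))) (.mul (.r 0 0 1 1) (.sub (.s 0 953 1 1) (.s 0 353 1 1)))), 66, 1, 1, 1, 1⟩,
  ⟨(.sub (.mul (.c 33554432) (.s 0 357 1 1)) (.add (.mul (.c 33554432) (.s 0 957 1 1)) (.mul (.c 1) (.mul (.r 0 0 1 1) (.add (.s 0 356 1 1) (.s 0 956 1 1)))))), 66, 1, 1, 1, 1⟩,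
  ⟨(.sub (.s 0 358 1 1) (.s 0 357 1 1)), 34, 1, 1, 1, 1⟩,
  ⟨(.sub (.s 0 958 1 1) (.s 0 957 1 1)), 34, 1, 1, 1, 1⟩,
  ⟨(.sub (.mul (.c 16777216) (.mul (.c 8) (.sub (.s 0 358 1 1) (.s 0 357 1 1)))) (.mul (.r 0 0 1 1) (.sub (.s 0 956 1 1) (.s 0 356 1 1)))), 66, 1, 1, 1, 1⟩,
  ⟨(.sub (.mul (.c 16777216) (.mul (.c 8) (.sub (.s 0 958 1 1) (.s 0 957 1 1)))) (.mul (.r 0 0 1 1) (.sub (.s 0 956 1 1) (.s 0 356 1 1)))), 66, 1, 1, 1, 1⟩,
  ⟨(.sub (.mul (.c 33554432) (.s 0 378 1 1)) (.add (.mul (.c 33554432) (.s 0 978 1 1)) (.mul (.c 1) (.mul (.r 0 0 1 1) (.add (.s 0 377 1 1) (.s 0 977 1 1)))))), 66, 1, 1, 1, 1⟩,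
  ⟨(.sub (.s 0 379 1 1) (.s 0 378 1 1)), 34, 1, 1, 1, 1⟩,
  ⟨(.sub (.s 0 979 1 1) (.s 0 978 1 1)), 34, 1, 1, 1, 1⟩,
  ⟨(.sub (.mul (.c 16777216) (.mul (.c 8) (.sub (.s 0 379 1 1) (.s 0 378 1 1)))) (.mul (.r 0 0 1 1) (.sub (.s 0 977 1 1) (.s 0 377 1 1)))), 66, 1, 1, 1, 1⟩,
  ⟨(.sub (.mul (.c 16777216) (.mul (.c 8) (.sub (.s 0 979 1 1) (.s 0 978 1 1)))) (.mul (.r 0 0 1 1) (.sub (.s 0 977 1 1) (.s 0 377 1 1)))), 66, 1, 1, 1, 1⟩,
  ⟨(.sub (.mul (.c 33554432) (.s 0 381 1 1)) (.add (.mul (.c 33554432) (.s 0 981 1 1)) (.mul (.c 1) (.mul (.r 0 0 1 1) (.add (.s 0 380 1 1) (.s 0 980 1 1)))))), 66, 1, 1, 1, 1⟩,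
  ⟨(.sub (.s 0 382 1 1) (.s 0 381 1 1)), 34, 1, 1, 1, 1⟩,
  ⟨(.sub (.s 0 982 1 1) (.s 0 981 1 1)), 34, 1, 1, 1, 1⟩,
  ⟨(.sub (.mul (.c 16777216) (.mul (.c 8) (.sub (.s 0 382 1 1) (.s 0 381 1 1)))) (.mul (.r 0 0 1 1) (.sub (.s 0 980 1 1) (.s 0 380 1 1)))), 66, 1, 1, 1, 1⟩,
  ⟨(.sub (.mul (.c 16777216) (.mul (.c 8) (.sub (.s 0 982 1 1) (.s 0 981 1 1)))) (.mul (.r 0 0 1 1) (.sub (.s 0 980 1 1) (.s 0 380 1 1)))), 66, 1, 1, 1, 1⟩,
  ⟨(.sub (.mul (.c 33554432) (.s 0 384 1 1)) (.add (.mul (.c 33554432) (.s 0 984 1 1)) (.mul (.c 1) (.mul (.r 0 0 1 1) (.add (.s 0 383 1 1) (.s 0 983 1 1)))))), 66, 1, 1, 1, 1⟩,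
  ⟨(.sub (.s 0 385 1 1) (.s 0 384 1 1)), 34, 1, 1, 1, 1⟩,
  ⟨(.sub (.s 0 985 1 1) (.s 0 984 1 1)), 34, 1, 1, 1, 1⟩,
  ⟨(.sub (.mul (.c 16777216) (.mul (.c 8) (.sub (.s 0 385 1 1) (.s 0 384 1 1)))) (.mul (.r 0 0 1 1) (.sub (.s 0 983 1 1) (.s 0 383 1 1)))), 66, 1, 1, 1, 1⟩,
  ⟨(.sub (.mul (.c 16777216) (.mul (.c 8) (.sub (.s 0 985 1 1) (.s 0 984 1 1)))) (.mul (.r 0 0 1 1) (.sub (.s 0 983 1 1) (.s 0 383 1 1)))), 66, 1, 1, 1, 1⟩,
  ⟨(.sub (.mul (.c 33554432) (.s 0 387 1 1)) (.add (.mul (.c 33554432) (.s 0 987 1 1)) (.mul (.c 1) (.mul (.r 0 0 1 1) (.add (.s 0 386 1 1) (.s 0 986 1 1)))))), 66, 1, 1, 1, 1⟩,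
  ⟨(.sub (.s 0 388 1 1) (.s 0 387 1 1)), 34, 1, 1, 1, 1⟩,
  ⟨(.sub (.s 0 988 1 1) (.s 0 987 1 1)), 34, 1, 1, 1, 1⟩,
  ⟨(.sub (.mul (.c 16777216) (.mul (.c 8) (.sub (.s 0 388 1 1) (.s 0 387 1 1)))) (.mul (.r 0 0 1 1) (.sub (.s 0 986 1 1) (.s 0 386 1 1)))), 66, 1, 1, 1, 1⟩,
  ⟨(.sub (.mul (.c 16777216) (.mul (.c 8) (.sub (.s 0 988 1 1) (.s 0 987 1 1)))) (.mul (.r 0 0 1 1) (.sub (.s 0 986 1 1) (.s 0 386 1 1)))), 66, 1, 1, 1, 1⟩,
  ⟨(.sub (.mul (.c 33554432) (.s 0 390 1 1)) (.add (.mul (.c 33554432) (.s 0 990 1 1)) (.mul (.c 1) (.mul (.r 0 0 1 1) (.add (.s 0 389 1 1) (.s 0 989 1 1)))))), 66, 1, 1, 1, 1⟩,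
  ⟨(.sub (.s 0 391 1 1) (.s 0 390 1 1)), 34, 1, 1, 1, 1⟩,
  ⟨(.sub (.s 0 991 1 1) (.s 0 990 1 1)), 34, 1, 1, 1, 1⟩,
  ⟨(.sub (.mul (.c 16777216) (.mul (.c 8) (.sub (.s 0 391 1 1) (.s 0 390 1 1)))) (.mul (.r 0 0 1 1) (.sub (.s 0 989 1 1) (.s 0 389 1 1)))), 66, 1, 1, 1, 1⟩,
  ⟨(.sub (.mul (.c 16777216) (.mul (.c 8) (.sub (.s 0 991 1 1) (.s 0 990 1 1)))) (.mul (.r 0 0 1 1) (.sub (.s 0 989 1 1) (.s 0 389 1 1)))), 66, 1, 1, 1, 1⟩,
  ⟨(.sub (.mul (.c 33554432) (.s 0 393 1 1)) (.add (.mul (.c 33554432) (.s 0 993 1 1)) (.mul (.c 1) (.mul (.r 0 0 1 1) (.add (.s 0 392 1 1) (.s 0 992 1 1)))))), 66, 1, 1, 1, 1⟩,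
  ⟨(.sub (.s 0 394 1 1) (.s 0 393 1 1)), 34, 1, 1, 1, 1⟩,
  ⟨(.sub (.s 0 994 1 1) (.s 0 993 1 1)), 34, 1, 1, 1, 1⟩,
  ⟨(.sub (.mul (.c 16777216) (.mul (.c 8) (.sub (.s 0 394 1 1) (.s 0 393 1 1)))) (.mul (.r 0 0 1 1) (.sub (.s 0 992 1 1) (.s 0 392 1 1)))), 66, 1, 1, 1, 1⟩,
  ⟨(.sub (.mul (.c 16777216) (.mul (.c 8) (.sub (.s 0 994 1 1) (.s 0 993 1 1)))) (.mul (.r 0 0 1 1) (.sub (.s 0 992 1 1) (.s 0 392 1 1)))), 66, 1, 1, 1, 1⟩,
  ⟨(.sub (.r 0 0 1 1) (.c 1)), 33, 1, 1, 1, 1⟩,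
  ⟨(.sub (.mul (.c 33554432) (.s 0 39 1 1)) (.add (.mul (.c 33554432) (.s 0 639 1 1)) (.mul (.c 1) (.mul (.r 0 0 1 1) (.add (.s 0 38 1 1) (.s 0 638 1 1)))))), 66, 1, 1, 1, 1⟩,
  ⟨(.sub (.s 0 40 1 1) (.s 0 39 1 1)), 34, 1, 1, 1, 1⟩,
  ⟨(.sub (.s 0 640 1 1) (.s 0 639 1 1)), 34, 1, 1, 1, 1⟩,
  ⟨(.sub (.mul (.c 16777216) (.mul (.c 8) (.sub (.s 0 40 1 1) (.s 0 39 1 1)))) (.mul (.r 0 0 1 1) (.sub (.s 0 638 1 1) (.s 0 38 1 1)))), 66, 1, 1, 1, 1⟩,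
  ⟨(.sub (.mul (.c 16777216) (.mul (.c 8) (.sub (.s 0 640 1 1) (.s 0 639 1 1)))) (.mul (.r 0 0 1 1) (.sub (.s 0 638 1 1) (.s 0 38 1 1)))), 66, 1, 1, 1, 1⟩,
  ⟨(.sub (.mul (.c 33554432) (.s 0 48 1 1)) (.add (.mul (.c 33554432) (.s 0 648 1 1)) (.mul (.c 1) (.mul (.r 0 0 1 1) (.add (.s 0 47 1 1) (.s 0 647 1 1)))))), 66, 1, 1, 1, 1⟩,
  ⟨(.sub (.s 0 49 1 1) (.s 0 48 1 1)), 34, 1, 1, 1, 1⟩,
  ⟨(.sub (.s 0 649 1 1) (.s 0 648 1 1)), 34, 1, 1, 1, 1⟩,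
  ⟨(.sub (.mul (.c 16777216) (.mul (.c 8) (.sub (.s 0 49 1 1) (.s 0 48 1 1)))) (.mul (.r 0 0 1 1) (.sub (.s 0 647 1 1) (.s 0 47 1 1)))), 66, 1, 1, 1, 1⟩,
  ⟨(.sub (.mul (.c 16777216) (.mul (.c 8) (.sub (.s 0 649 1 1) (.s 0 648 1 1)))) (.mul (.r 0 0 1 1) (.sub (.s 0 647 1 1) (.s 0 47 1 1)))), 66, 1, 1, 1, 1⟩,
  ⟨(.sub (.mul (.c 33554432) (.s 0 42 1 1)) (.add (.mul (.c 33554432) (.s 0 642 1 1)) (.mul (.c 1) (.mul (.r 0 0 1 1) (.add (.s 0 41 1 1) (.s 0 641 1 1)))))), 66, 1, 1, 1, 1⟩,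
  ⟨(.sub (.s 0 43 1 1) (.s 0 42 1 1)), 34, 1, 1, 1, 1⟩,
  ⟨(.sub (.s 0 643 1 1) (.s 0 642 1 1)), 34, 1, 1, 1, 1⟩,
  ⟨(.sub (.mul (.c 16777216) (.mul (.c 8) (.sub (.s 0 43 1 1) (.s 0 42 1 1)))) (.mul (.r 0 0 1 1) (.sub (.s 0 641 1 1) (.s 0 41 1 1)))), 66, 1, 1, 1, 1⟩,
  ⟨(.sub (.mul (.c 16777216) (.mul (.c 8) (.sub (.s 0 643 1 1) (.s 0 642 1 1)))) (.mul (.r 0 0 1 1) (.sub (.s 0 641 1 1) (.s 0 41 1 1)))), 66, 1, 1, 1, 1⟩,
  ⟨(.sub (.mul (.c 33554432) (.s 0 51 1 1)) (.add (.mul (.c 33554432) (.s 0 651 1 1)) (.mul (.c 1) (.mul (.r 0 0 1 1) (.add (.s 0 50 1 1) (.s 0 650 1 1)))))), 66, 1, 1, 1, 1⟩,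
  ⟨(.sub (.s 0 52 1 1) (.s 0 51 1 1)), 34, 1, 1, 1, 1⟩,
  ⟨(.sub (.s 0 652 1 1) (.s 0 651 1 1)), 34, 1, 1, 1, 1⟩,
  ⟨(.sub (.mul (.c 16777216) (.mul (.c 8) (.sub (.s 0 52 1 1) (.s 0 51 1 1)))) (.mul (.r 0 0 1 1) (.sub (.s 0 650 1 1) (.s 0 50 1 1)))), 66, 1, 1, 1, 1⟩,
  ⟨(.sub (.mul (.c 16777216) (.mul (.c 8) (.sub (.s 0 652 1 1) (.s 0 651 1 1)))) (.mul (.r 0 0 1 1) (.sub (.s 0 650 1 1) (.s 0 50 1 1)))), 66, 1, 1, 1, 1⟩,
  ⟨(.sub (.mul (.c 33554432) (.s 0 45 1 1)) (.add (.mul (.c 33554432) (.s 0 645 1 1)) (.mul (.c 1) (.mul (.r 0 0 1 1) (.add (.s 0 44 1 1) (.s 0 644 1 1)))))), 66, 1, 1, 1, 1⟩,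
  ⟨(.sub (.s 0 46 1 1) (.s 0 45 1 1)), 34, 1, 1, 1, 1⟩,
  ⟨(.sub (.s 0 646 1 1) (.s 0 645 1 1)), 34, 1, 1, 1, 1⟩,
  ⟨(.sub (.mul (.c 16777216) (.mul (.c 8) (.sub (.s 0 46 1 1) (.s 0 45 1 1)))) (.mul (.r 0 0 1 1) (.sub (.s 0 644 1 1) (.s 0 44 1 1)))), 66, 1, 1, 1, 1⟩,
  ⟨(.sub (.mul (.c 16777216) (.mul (.c 8) (.sub (.s 0 646 1 1) (.s 0 645 1 1)))) (.mul (.r 0 0 1 1) (.sub (.s 0 644 1 1) (.s 0 44 1 1)))), 66, 1, 1, 1, 1⟩,
  ⟨(.sub (.mul (.c 33554432) (.s 0 54 1 1)) (.add (.mul (.c 33554432) (.s 0 654 1 1)) (.mul (.c 1) (.mul (.r 0 0 1 1) (.add (.s 0 53 1 1) (.s 0 653 1 1)))))), 66, 1, 1, 1, 1⟩,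
  ⟨(.sub (.s 0 55 1 1) (.s 0 54 1 1)), 34, 1, 1, 1, 1⟩,
  ⟨(.sub (.s 0 655 1 1) (.s 0 654 1 1)), 34, 1, 1, 1, 1⟩,
  ⟨(.sub (.mul (.c 16777216) (.mul (.c 8) (.sub (.s 0 55 1 1) (.s 0 54 1 1)))) (.mul (.r 0 0 1 1) (.sub (.s 0 653 1 1) (.s 0 53 1 1)))), 66, 1, 1, 1, 1⟩,
  ⟨(.sub (.mul (.c 16777216) (.mul (.c 8) (.sub (.s 0 655 1 1) (.s 0 654 1 1)))) (.mul (.r 0 0 1 1) (.sub (.s 0 653 1 1) (.s 0 53 1 1)))), 66, 1, 1, 1, 1⟩,
  ⟨(.sub (.add (.mul (.mul (.c 4294967296) (.s 2 38 600 2)) (.w 1 2)) (.mul (.mul (.c 5462) (.v 1)) (.add (.mul (.mul (.c 65536) (.s 2 41 600 2)) (.w 1 1)) (.mul (.mul (.c 5462) (.v 1)) (.s 2 44 600 2))))) (.add (.mul (.mul (.c 4294967296) (.r 2 1 600 2)) (.w 1 2)) (.mul (.mul (.c 5462) (.v 1)) (.add (.mul (.mul (.c 65536) (.r 2 2 600 2)) (.w 1 1)) (.mul (.mul (.c 5462) (.v 1)) (.r 2 3 600 2)))))), 69, 1, 3, 2, 1⟩,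
  ⟨(.sub (.mul (.mul (.mul (.c 4722366482869645213696) (.add (.mul (.mul (.c 4294967296) (.s 2 47 600 2)) (.w 1 2)) (.mul (.mul (.c 5462) (.v 1)) (.add (.mul (.mul (.c 65536) (.s 2 50 600 2)) (.w 1 1)) (.mul (.mul (.c 5462) (.v 1)) (.s 2 53 600 2)))))) (.w 1 3)) (.w 2 1)) (.mul (.add (.mul (.mul (.c 4294967296) (.r 2 1 600 2)) (.w 1 2)) (.mul (.mul (.c 5462) (.v 1)) (.add (.mul (.mul (.c 65536) (.r 2 2 600 2)) (.w 1 1)) (.mul (.mul (.c 5462) (.v 1)) (.r 2 3 600 2))))) (.add (.mul (.mul (.mul (.c 4722366482869645213696) (.c 1)) (.w 1 3)) (.w 2 1)) (.mul (.mul (.c 5462) (.v 1)) (.add (.mul (.mul (.c 4294967296) (.s 2 49 600 2)) (.w 1 2)) (.mul (.mul (.c 5462) (.v 1)) (.add (.mul (.mul (.c 65536) (.s 2 52 600 2)) (.w 1 1)) (.mul (.mul (.c 5462) (.v 1)) (.s 2 55 600 2))))))))), 147, 1, 6, 3, 1⟩,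
  ⟨(.add (.mul (.mul (.c 4294967296) (.s 2 49 600 2)) (.w 1 2)) (.mul (.mul (.c 5462) (.v 1)) (.add (.mul (.mul (.c 65536) (.s 2 52 600 2)) (.w 1 1)) (.mul (.mul (.c 5462) (.v 1)) (.s 2 55 600 2))))), 68, 1, 3, 2, 1⟩,
  ⟨(.sub (.mul (.mul (.c 281474976710656) (.r 2 70 600 2)) (.w 1 3)) (.mul (.mul (.c 5462) (.v 1)) (.add (.mul (.mul (.c 4294967296) (.s 2 40 600 2)) (.w 1 2)) (.mul (.mul (.c 5462) (.v 1)) (.add (.mul (.mul (.c 65536) (.s 2 43 600 2)) (.w 1 1)) (.mul (.mul (.c 5462) (.v 1)) (.s 2 46 600 2))))))), 85, 1, 4, 2, 1⟩,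
  ⟨(.sub (.mul (.mul (.mul (.c 79228162514264337593543950336) (.add (.mul (.mul (.c 4294967296) (.r 2 56 600 2)) (.w 1 2)) (.mul (.mul (.c 5462) (.v 1)) (.add (.mul (.mul (.c 65536) (.r 2 57 600 2)) (.w 1 1)) (.mul (.mul (.c 5462) (.v 1)) (.r 2 58 600 2)))))) (.w 1 3)) (.w 2 2)) (.add (.mul (.mul (.mul (.c 79228162514264337593543950336) (.add (.mul (.mul (.c 4294967296) (.s 2 40 600 2)) (.w 1 2)) (.mul (.mul (.c 5462) (.v 1)) (.add (.mul (.mul (.c 65536) (.s 2 43 600 2)) (.w 1 1)) (.mul (.mul (.c 5462) (.v 1)) (.s 2 46 600 2)))))) (.w 1 3)) (.w 2 2)) (.mul (.r 2 68 600 2) (.mul (.mul (.c 5462) (.v 1)) (.mul (.add (.mul (.mul (.c 4294967296) (.s 2 40 600 2)) (.w 1 2)) (.mul (.mul (.c 5462) (.v 1)) (.add (.mul (.mul (.c 65536) (.s 2 43 600 2)) (.w 1 1)) (.mul (.mul (.c 5462) (.v 1)) (.s 2 46 600 2))))) (.add (.mul (.mul (.c 4294967296) (.s 2 40 600 2)) (.w 1 2))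 (.mul (.mul (.c 5462) (.v 1)) (.add (.mul (.mul (.c 65536) (.s 2 43 600 2)) (.w 1 1)) (.mul (.mul (.c 5462) (.v 1)) (.s 2 46 600 2)))))))))), 180, 1, 6, 4, 1⟩,
  ⟨(.sub (.add (.mul (.mul (.c 4294967296) (.r 2 59 600 2)) (.w 1 2)) (.mul (.mul (.c 5462) (.v 1)) (.add (.mul (.mul (.c 65536) (.r 2 60 600 2)) (.w 1 1)) (.mul (.mul (.c 5462) (.v 1)) (.r 2 61 600 2))))) (.add (.mul (.mul (.c 4294967296) (.s 2 49 600 2)) (.w 1 2)) (.mul (.mul (.c 5462) (.v 1)) (.add (.mul (.mul (.c 65536) (.s 2 52 600 2)) (.w 1 1)) (.mul (.mul (.c 5462) (.v 1)) (.s 2 55 600 2)))))), 69, 1, 3, 2, 1⟩,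
  ⟨(.sub (.r 2 64 600 2) (.mul (.mul (.c 16777216) (.c 1)) (.w 2 1))), 34, 1, 1, 2, 1⟩,
  ⟨(.sub (.r 2 65 600 2) (.mul (.mul (.c 16777216) (.c 1)) (.w 2 1))), 34, 1, 1, 2, 1⟩,
  ⟨(.r 2 66 600 2), 34, 1, 1, 2, 1⟩,
  ⟨(.r 2 67 600 2), 34, 1, 1, 2, 1⟩,
  ⟨(.r 2 68 600 2), 34, 1, 1, 2, 1⟩,
  ⟨(.r 2 70 600 2), 34, 1, 1, 2, 1⟩,
  ⟨(.r 2 62 600 2), 34, 1, 1, 2, 1⟩,
  ⟨(.r 2 63 600 2), 34, 1, 1, 2, 1⟩,
  ⟨(.sub (.r 2 69 600 2) (.mul (.c 2) (.r 2 70 600 2))), 35, 1, 1, 2, 1⟩,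
  ⟨(.sub (.mul (.mul (.c 16777216) (.c 4)) (.w 2 1)) (.r 2 70 600 2)), 34, 1, 1, 2, 1⟩]

noncomputable def f2 : List Tc :=
 [⟨fun A S X L P R M N m a b c d e f g h D => (A (A (L (R D 29888) 4294967295) m) (S M (L (A (L (R D 29856) 4294967295) m) N))), 34, 1, 1, 1, 1⟩,
  ⟨fun A S X L P R M N m a b c d e f g h D => (A (L (X 16777216 (L (X 8 (A (A (L (R D 10688) 4294967295) m) (S M (L (A (L (R D 10656) 4294967295) m) N)))) N)) N) (S M (L (L (X (L (R D 0) 4294967295) (A (A (L (R D 29824) 4294967295) m) (S M (L (A (L (R D 10624) 4294967295) m) N)))) N) N))), 66, 1, 1, 1, 1⟩,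
  ⟨fun A S X L P R M N m a b c d e f g h D => (A (L (X 16777216 (L (X 8 (A (A (L (R D 29888) 4294967295) m) (S M (L (A (L (R D 29856) 4294967295) m) N)))) N)) N) (S M (L (L (X (L (R D 0) 4294967295) (A (A (L (R D 29824) 4294967295) m) (S M (L (A (L (R D 10624) 4294967295) m) N)))) N) N))), 66, 1, 1, 1, 1⟩,
  ⟨fun A S X L P R M N m a b c d e f g h D => (A (L (X 33554432 (A (L (R D 10752) 4294967295) m)) N) (S M (L (A (L (X 33554432 (A (L (R D 29952) 4294967295) m)) N) (L (X 1 (L (X (L (R D 0) 4294967295) (A (A (L (R D 10720) 4294967295) m) (A (L (R D 29920) 4294967295) m))) N)) N)) N))), 66, 1, 1, 1, 1⟩,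
  ⟨fun A S X L P R M N m a b c d e f g h D => (A (A (L (R D 10784) 4294967295) m) (S M (L (A (L (R D 10752) 4294967295) m) N))), 34, 1, 1, 1, 1⟩,
  ⟨fun A S X L P R M N m a b c d e f g h D => (A (A (L (R D 29984) 4294967295) m) (S M (L (A (L (R D 29952) 4294967295) m) N))), 34, 1, 1, 1, 1⟩,
  ⟨fun A S X L P R M N m a b c d e f g h D => (A (L (X 16777216 (L (X 8 (A (A (L (R D 10784) 4294967295) m) (S M (L (A (L (R D 10752) 4294967295) m) N)))) N)) N) (S M (L (L (X (L (R D 0) 4294967295) (A (A (L (R D 29920) 4294967295) m) (S M (L (A (L (R D 10720) 4294967295) m) N)))) N) N))), 66, 1, 1, 1, 1⟩,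
  ⟨fun A S X L P R M N m a b c d e f g h D => (A (L (X 16777216 (L (X 8 (A (A (L (R D 29984) 4294967295) m) (S M (L (A (L (R D 29952) 4294967295) m) N)))) N)) N) (S M (L (L (X (L (R D 0) 4294967295) (A (A (L (R D 29920) 4294967295) m) (S M (L (A (L (R D 10720) 4294967295) m) N)))) N) N))), 66, 1, 1, 1, 1⟩,
  ⟨fun A S X L P R M N m a b c d e f g h D => (A (L (X 33554432 (A (L (R D 10848) 4294967295) m)) N) (S M (L (A (L (X 33554432 (A (L (R D 30048) 4294967295) m)) N) (L (X 1 (L (X (L (R D 0) 4294967295) (A (A (L (R D 10816) 4294967295) m) (A (L (R D 30016) 4294967295) m))) N)) N)) N))), 66, 1, 1, 1, 1⟩,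
  ⟨fun A S X L P R M N m a b c d e f g h D => (A (A (L (R D 10880) 4294967295) m) (S M (L (A (L (R D 10848) 4294967295) m) N))), 34, 1, 1, 1, 1⟩,
  ⟨fun A S X L P R M N m a b c d e f g h D => (A (A (L (R D 30080) 4294967295) m) (S M (L (A (L (R D 30048) 4294967295) m) N))), 34, 1, 1, 1, 1⟩,
  ⟨fun A S X L P R M N m a b c d e f g h D => (A (L (X 16777216 (L (X 8 (A (A (L (R D 10880) 4294967295) m) (S M (L (A (L (R D 10848) 4294967295) m) N)))) N)) N) (S M (L (L (X (L (R D 0) 4294967295) (A (A (L (R D 30016) 4294967295) m) (S M (L (A (L (R D 10816) 4294967295) m) N)))) N) N))), 66, 1, 1, 1, 1⟩,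
  ⟨fun A S X L P R M N m a b c d e f g h D => (A (L (X 16777216 (L (X 8 (A (A (L (R D 30080) 4294967295) m) (S M (L (A (L (R D 30048) 4294967295) m) N)))) N)) N) (S M (L (L (X (L (R D 0) 4294967295) (A (A (L (R D 30016) 4294967295) m) (S M (L (A (L (R D 10816) 4294967295) m) N)))) N) N))), 66, 1, 1, 1, 1⟩,
  ⟨fun A S X L P R M N m a b c d e f g h D => (A (L (X 33554432 (A (L (R D 11520) 4294967295) m)) N) (S M (L (A (L (X 33554432 (A (L (R D 30720) 4294967295) m)) N) (L (X 1 (L (X (L (R D 0) 4294967295) (A (A (L (R D 11488) 4294967295) m) (A (L (R D 30688) 4294967295) m))) N)) N)) N))), 66, 1, 1, 1, 1⟩,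
  ⟨fun A S X L P R M N m a b c d e f g h D => (A (A (L (R D 11552) 4294967295) m) (S M (L (A (L (R D 11520) 4294967295) m) N))), 34, 1, 1, 1, 1⟩,
  ⟨fun A S X L P R M N m a b c d e f g h D => (A (A (L (R D 30752) 4294967295) m) (S M (L (A (L (R D 30720) 4294967295) m) N))), 34, 1, 1, 1, 1⟩,
  ⟨fun A S X L P R M N m a b c d e f g h D => (A (L (X 16777216 (L (X 8 (A (A (L (R D 11552) 4294967295) m) (S M (L (A (L (R D 11520) 4294967295) m) N)))) N)) N) (S M (L (L (X (L (R D 0) 4294967295) (A (A (L (R D 30688) 4294967295) m) (S M (L (A (L (R D 11488) 4294967295) m) N)))) N) N))), 66, 1, 1, 1, 1⟩,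
  ⟨fun A S X L P R M N m a b c d e f g h D => (A (L (X 16777216 (L (X 8 (A (A (L (R D 30752) 4294967295) m) (S M (L (A (L (R D 30720) 4294967295) m) N)))) N)) N) (S M (L (L (X (L (R D 0) 4294967295) (A (A (L (R D 30688) 4294967295) m) (S M (L (A (L (R D 11488) 4294967295) m) N)))) N) N))), 66, 1, 1, 1, 1⟩,
  ⟨fun A S X L P R M N m a b c d e f g h D => (A (L (X 33554432 (A (L (R D 11616) 4294967295) m)) N) (S M (L (A (L (X 33554432 (A (L (R D 30816) 4294967295) m)) N) (L (X 1 (L (X (L (R D 0) 4294967295) (A (A (L (R D 11584) 4294967295) m) (A (L (R D 30784) 4294967295) m))) N)) N)) N))), 66, 1, 1, 1, 1⟩,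
  ⟨fun A S X L P R M N m a b c d e f g h D => (A (A (L (R D 11648) 4294967295) m) (S M (L (A (L (R D 11616) 4294967295) m) N))), 34, 1, 1, 1, 1⟩,
  ⟨fun A S X L P R M N m a b c d e f g h D => (A (A (L (R D 30848) 4294967295) m) (S M (L (A (L (R D 30816) 4294967295) m) N))), 34, 1, 1, 1, 1⟩,
  ⟨fun A S X L P R M N m a b c d e f g h D => (A (L (X 16777216 (L (X 8 (A (A (L (R D 11648) 4294967295) m) (S M (L (A (L (R D 11616) 4294967295) m) N)))) N)) N) (S M (L (L (X (L (R D 0) 4294967295) (A (A (L (R D 30784) 4294967295) m) (S M (L (A (L (R D 11584) 4294967295) m) N)))) N) N))), 66, 1, 1, 1, 1⟩,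
  ⟨fun A S X L P R M N m a b c d e f g h D => (A (L (X 16777216 (L (X 8 (A (A (L (R D 30848) 4294967295) m) (S M (L (A (L (R D 30816) 4294967295) m) N)))) N)) N) (S M (L (L (X (L (R D 0) 4294967295) (A (A (L (R D 30784) 4294967295) m) (S M (L (A (L (R D 11584) 4294967295) m) N)))) N) N))), 66, 1, 1, 1, 1⟩,
  ⟨fun A S X L P R M N m a b c d e f g h D => (A (L (X 33554432 (A (L (R D 11712) 4294967295) m)) N) (S M (L (A (L (X 33554432 (A (L (R D 30912) 4294967295) m)) N) (L (X 1 (L (X (L (R D 0) 4294967295) (A (A (L (R D 11680) 4294967295) m) (A (L (R D 30880) 4294967295) m))) N)) N)) N))), 66, 1, 1, 1, 1⟩,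
  ⟨fun A S X L P R M N m a b c d e f g h D => (A (A (L (R D 11744) 4294967295) m) (S M (L (A (L (R D 11712) 4294967295) m) N))), 34, 1, 1, 1, 1⟩,
  ⟨fun A S X L P R M N m a b c d e f g h D => (A (A (L (R D 30944) 4294967295) m) (S M (L (A (L (R D 30912) 4294967295) m) N))), 34, 1, 1, 1, 1⟩,
  ⟨fun A S X L P R M N m a b c d e f g h D => (A (L (X 16777216 (L (X 8 (A (A (L (R D 11744) 4294967295) m) (S M (L (A (L (R D 11712) 4294967295) m) N)))) N)) N) (S M (L (L (X (L (R D 0) 4294967295) (A (A (L (R D 30880) 4294967295) m) (S M (L (A (L (R D 11680) 4294967295) m) N)))) N) N))), 66, 1, 1, 1, 1⟩,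
  ⟨fun A S X L P R M N m a b c d e f g h D => (A (L (X 16777216 (L (X 8 (A (A (L (R D 30944) 4294967295) m) (S M (L (A (L (R D 30912) 4294967295) m) N)))) N)) N) (S M (L (L (X (L (R D 0) 4294967295) (A (A (L (R D 30880) 4294967295) m) (S M (L (A (L (R D 11680) 4294967295) m) N)))) N) N))), 66, 1, 1, 1, 1⟩,
  ⟨fun A S X L P R M N m a b c d e f g h D => (A (L (X 33554432 (A (L (R D 11808) 4294967295) m)) N) (S M (L (A (L (X 33554432 (A (L (R D 31008) 4294967295) m)) N) (L (X 1 (L (X (L (R D 0) 4294967295) (A (A (L (R D 11776) 4294967295) m) (A (L (R D 30976) 4294967295) m))) N)) N)) N))), 66, 1, 1, 1, 1⟩,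
  ⟨fun A S X L P R M N m a b c d e f g h D => (A (A (L (R D 11840) 4294967295) m) (S M (L (A (L (R D 11808) 4294967295) m) N))), 34, 1, 1, 1, 1⟩,
  ⟨fun A S X L P R M N m a b c d e f g h D => (A (A (L (R D 31040) 4294967295) m) (S M (L (A (L (R D 31008) 4294967295) m) N))), 34, 1, 1, 1, 1⟩,
  ⟨fun A S X L P R M N m a b c d e f g h D => (A (L (X 16777216 (L (X 8 (A (A (L (R D 11840) 4294967295) m) (S M (L (A (L (R D 11808) 4294967295) m) N)))) N)) N) (S M (L (L (X (L (R D 0) 4294967295) (A (A (L (R D 30976) 4294967295) m) (S M (L (A (L (R D 11776) 4294967295) m) N)))) N) N))), 66, 1, 1, 1, 1⟩,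
  ⟨fun A S X L P R M N m a b c d e f g h D => (A (L (X 16777216 (L (X 8 (A (A (L (R D 31040) 4294967295) m) (S M (L (A (L (R D 31008) 4294967295) m) N)))) N)) N) (S M (L (L (X (L (R D 0) 4294967295) (A (A (L (R D 30976) 4294967295) m) (S M (L (A (L (R D 11776) 4294967295) m) N)))) N) N))), 66, 1, 1, 1, 1⟩,
  ⟨fun A S X L P R M N m a b c d e f g h D => (A (L (X 33554432 (A (L (R D 11904) 4294967295) m)) N) (S M (L (A (L (X 33554432 (A (L (R D 31104) 4294967295) m)) N) (L (X 1 (L (X (L (R D 0) 4294967295) (A (A (L (R D 11872) 4294967295) m) (A (L (R D 31072) 4294967295) m))) N)) N)) N))), 66, 1, 1, 1, 1⟩,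
  ⟨fun A S X L P R M N m a b c d e f g h D => (A (A (L (R D 11936) 4294967295) m) (S M (L (A (L (R D 11904) 4294967295) m) N))), 34, 1, 1, 1, 1⟩,
  ⟨fun A S X L P R M N m a b c d e f g h D => (A (A (L (R D 31136) 4294967295) m) (S M (L (A (L (R D 31104) 4294967295) m) N))), 34, 1, 1, 1, 1⟩,
  ⟨fun A S X L P R M N m a b c d e f g h D => (A (L (X 16777216 (L (X 8 (A (A (L (R D 11936) 4294967295) m) (S M (L (A (L (R D 11904) 4294967295) m) N)))) N)) N) (S M (L (L (X (L (R D 0) 4294967295) (A (A (L (R D 31072) 4294967295) m) (S M (L (A (L (R D 11872) 4294967295) m) N)))) N) N))), 66, 1, 1, 1, 1⟩,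
  ⟨fun A S X L P R M N m a b c d e f g h D => (A (L (X 16777216 (L (X 8 (A (A (L (R D 31136) 4294967295) m) (S M (L (A (L (R D 31104) 4294967295) m) N)))) N)) N) (S M (L (L (X (L (R D 0) 4294967295) (A (A (L (R D 31072) 4294967295) m) (S M (L (A (L (R D 11872) 4294967295) m) N)))) N) N))), 66, 1, 1, 1, 1⟩,
  ⟨fun A S X L P R M N m a b c d e f g h D => (A (L (X 33554432 (A (L (R D 12000) 4294967295) m)) N) (S M (L (A (L (X 33554432 (A (L (R D 31200) 4294967295) m)) N) (L (X 1 (L (X (L (R D 0) 4294967295) (A (A (L (R D 11968) 4294967295) m) (A (L (R D 31168) 4294967295) m))) N)) N)) N))), 66, 1, 1, 1, 1⟩,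
  ⟨fun A S X L P R M N m a b c d e f g h D => (A (A (L (R D 12032) 4294967295) m) (S M (L (A (L (R D 12000) 4294967295) m) N))), 34, 1, 1, 1, 1⟩,
  ⟨fun A S X L P R M N m a b c d e f g h D => (A (A (L (R D 31232) 4294967295) m) (S M (L (A (L (R D 31200) 4294967295) m) N))), 34, 1, 1, 1, 1⟩,
  ⟨fun A S X L P R M N m a b c d e f g h D => (A (L (X 16777216 (L (X 8 (A (A (L (R D 12032) 4294967295) m) (S M (L (A (L (R D 12000) 4294967295) m) N)))) N)) N) (S M (L (L (X (L (R D 0) 4294967295) (A (A (L (R D 31168) 4294967295) m) (S M (L (A (L (R D 11968) 4294967295) m) N)))) N) N))), 66, 1, 1, 1, 1⟩,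
  ⟨fun A S X L P R M N m a b c d e f g h D => (A (L (X 16777216 (L (X 8 (A (A (L (R D 31232) 4294967295) m) (S M (L (A (L (R D 31200) 4294967295) m) N)))) N)) N) (S M (L (L (X (L (R D 0) 4294967295) (A (A (L (R D 31168) 4294967295) m) (S M (L (A (L (R D 11968) 4294967295) m) N)))) N) N))), 66, 1, 1, 1, 1⟩,
  ⟨fun A S X L P R M N m a b c d e f g h D => (A (L (X 33554432 (A (L (R D 10944) 4294967295) m)) N) (S M (L (A (L (X 33554432 (A (L (R D 30144) 4294967295) m)) N) (L (X 1 (L (X (L (R D 0) 4294967295) (A (A (L (R D 10912) 4294967295) m) (A (L (R D 30112) 4294967295) m))) N)) N)) N))), 66, 1, 1, 1, 1⟩,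
  ⟨fun A S X L P R M N m a b c d e f g h D => (A (A (L (R D 10976) 4294967295) m) (S M (L (A (L (R D 10944) 4294967295) m) N))), 34, 1, 1, 1, 1⟩,
  ⟨fun A S X L P R M N m a b c d e f g h D => (A (A (L (R D 30176) 4294967295) m) (S M (L (A (L (R D 30144) 4294967295) m) N))), 34, 1, 1, 1, 1⟩,
  ⟨fun A S X L P R M N m a b c d e f g h D => (A (L (X 16777216 (L (X 8 (A (A (L (R D 10976) 4294967295) m) (S M (L (A (L (R D 10944) 4294967295) m) N)))) N)) N) (S M (L (L (X (L (R D 0) 4294967295) (A (A (L (R D 30112) 4294967295) m) (S M (L (A (L (R D 10912) 4294967295) m) N)))) N) N))), 66, 1, 1, 1, 1⟩,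
  ⟨fun A S X L P R M N m a b c d e f g h D => (A (L (X 16777216 (L (X 8 (A (A (L (R D 30176) 4294967295) m) (S M (L (A (L (R D 30144) 4294967295) m) N)))) N)) N) (S M (L (L (X (L (R D 0) 4294967295) (A (A (L (R D 30112) 4294967295) m) (S M (L (A (L (R D 10912) 4294967295) m) N)))) N) N))), 66, 1, 1, 1, 1⟩,
  ⟨fun A S X L P R M N m a b c d e f g h D => (A (L (X 33554432 (A (L (R D 11040) 4294967295) m)) N) (S M (L (A (L (X 33554432 (A (L (R D 30240) 4294967295) m)) N) (L (X 1 (L (X (L (R D 0) 4294967295) (A (A (L (R D 11008) 4294967295) m) (A (L (R D 30208) 4294967295) m))) N)) N)) N))), 66, 1, 1, 1, 1⟩,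
  ⟨fun A S X L P R M N m a b c d e f g h D => (A (A (L (R D 11072) 4294967295) m) (S M (L (A (L (R D 11040) 4294967295) m) N))), 34, 1, 1, 1, 1⟩,
  ⟨fun A S X L P R M N m a b c d e f g h D => (A (A (L (R D 30272) 4294967295) m) (S M (L (A (L (R D 30240) 4294967295) m) N))), 34, 1, 1, 1, 1⟩,
  ⟨fun A S X L P R M N m a b c d e f g h D => (A (L (X 16777216 (L (X 8 (A (A (L (R D 11072) 4294967295) m) (S M (L (A (L (R D 11040) 4294967295) m) N)))) N)) N) (S M (L (L (X (L (R D 0) 4294967295) (A (A (L (R D 30208) 4294967295) m) (S M (L (A (L (R D 11008) 4294967295) m) N)))) N) N))), 66, 1, 1, 1, 1⟩,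
  ⟨fun A S X L P R M N m a b c d e f g h D => (A (L (X 16777216 (L (X 8 (A (A (L (R D 30272) 4294967295) m) (S M (L (A (L (R D 30240) 4294967295) m) N)))) N)) N) (S M (L (L (X (L (R D 0) 4294967295) (A (A (L (R D 30208) 4294967295) m) (S M (L (A (L (R D 11008) 4294967295) m) N)))) N) N))), 66, 1, 1, 1, 1⟩,
  ⟨fun A S X L P R M N m a b c d e f g h D => (A (L (X 33554432 (A (L (R D 11136) 4294967295) m)) N) (S M (L (A (L (X 33554432 (A (L (R D 30336) 4294967295) m)) N) (L (X 1 (L (X (L (R D 0) 4294967295) (A (A (L (R D 11104) 4294967295) m) (A (L (R D 30304) 4294967295) m))) N)) N)) N))), 66, 1, 1, 1, 1⟩,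
  ⟨fun A S X L P R M N m a b c d e f g h D => (A (A (L (R D 11168) 4294967295) m) (S M (L (A (L (R D 11136) 4294967295) m) N))), 34, 1, 1, 1, 1⟩,
  ⟨fun A S X L P R M N m a b c d e f g h D => (A (A (L (R D 30368) 4294967295) m) (S M (L (A (L (R D 30336) 4294967295) m) N))), 34, 1, 1, 1, 1⟩,
  ⟨fun A S X L P R M N m a b c d e f g h D => (A (L (X 16777216 (L (X 8 (A (A (L (R D 11168) 4294967295) m) (S M (L (A (L (R D 11136) 4294967295) m) N)))) N)) N) (S M (L (L (X (L (R D 0) 4294967295) (A (A (L (R D 30304) 4294967295) m) (S M (L (A (L (R D 11104) 4294967295) m) N)))) N) N))), 66, 1, 1, 1, 1⟩,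
  ⟨fun A S X L P R M N m a b c d e f g h D => (A (L (X 16777216 (L (X 8 (A (A (L (R D 30368) 4294967295) m) (S M (L (A (L (R D 30336) 4294967295) m) N)))) N)) N) (S M (L (L (X (L (R D 0) 4294967295) (A (A (L (R D 30304) 4294967295) m) (S M (L (A (L (R D 11104) 4294967295) m) N)))) N) N))), 66, 1, 1, 1, 1⟩,
  ⟨fun A S X L P R M N m a b c d e f g h D => (A (L (X 33554432 (A (L (R D 11232) 4294967295) m)) N) (S M (L (A (L (X 33554432 (A (L (R D 30432) 4294967295) m)) N) (L (X 1 (L (X (L (R D 0) 4294967295) (A (A (L (R D 11200) 4294967295) m) (A (L (R D 30400) 4294967295) m))) N)) N)) N))), 66, 1, 1, 1, 1⟩,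
  ⟨fun A S X L P R M N m a b c d e f g h D => (A (A (L (R D 11264) 4294967295) m) (S M (L (A (L (R D 11232) 4294967295) m) N))), 34, 1, 1, 1, 1⟩,
  ⟨fun A S X L P R M N m a b c d e f g h D => (A (A (L (R D 30464) 4294967295) m) (S M (L (A (L (R D 30432) 4294967295) m) N))), 34, 1, 1, 1, 1⟩,
  ⟨fun A S X L P R M N m a b c d e f g h D => (A (L (X 16777216 (L (X 8 (A (A (L (R D 11264) 4294967295) m) (S M (L (A (L (R D 11232) 4294967295) m) N)))) N)) N) (S M (L (L (X (L (R D 0) 4294967295) (A (A (L (R D 30400) 4294967295) m) (S M (L (A (L (R D 11200) 4294967295) m) N)))) N) N))), 66, 1, 1, 1, 1⟩,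
  ⟨fun A S X L P R M N m a b c d e f g h D => (A (L (X 16777216 (L (X 8 (A (A (L (R D 30464) 4294967295) m) (S M (L (A (L (R D 30432) 4294967295) m) N)))) N)) N) (S M (L (L (X (L (R D 0) 4294967295) (A (A (L (R D 30400) 4294967295) m) (S M (L (A (L (R D 11200) 4294967295) m) N)))) N) N))), 66, 1, 1, 1, 1⟩,
  ⟨fun A S X L P R M N m a b c d e f g h D => (A (L (X 33554432 (A (L (R D 11328) 4294967295) m)) N) (S M (L (A (L (X 33554432 (A (L (R D 30528) 4294967295) m)) N) (L (X 1 (L (X (L (R D 0) 4294967295) (A (A (L (R D 11296) 4294967295) m) (A (L (R D 30496) 4294967295) m))) N)) N)) N))), 66, 1, 1, 1, 1⟩,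
  ⟨fun A S X L P R M N m a b c d e f g h D => (A (A (L (R D 11360) 4294967295) m) (S M (L (A (L (R D 11328) 4294967295) m) N))), 34, 1, 1, 1, 1⟩,
  ⟨fun A S X L P R M N m a b c d e f g h D => (A (A (L (R D 30560) 4294967295) m) (S M (L (A (L (R D 30528) 4294967295) m) N))), 34, 1, 1, 1, 1⟩,
  ⟨fun A S X L P R M N m a b c d e f g h D => (A (L (X 16777216 (L (X 8 (A (A (L (R D 11360) 4294967295) m) (S M (L (A (L (R D 11328) 4294967295) m) N)))) N)) N) (S M (L (L (X (L (R D 0) 4294967295) (A (A (L (R D 30496) 4294967295) m) (S M (L (A (L (R D 11296) 4294967295) m) N)))) N) N))), 66, 1, 1, 1, 1⟩,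
  ⟨fun A S X L P R M N m a b c d e f g h D => (A (L (X 16777216 (L (X 8 (A (A (L (R D 30560) 4294967295) m) (S M (L (A (L (R D 30528) 4294967295) m) N)))) N)) N) (S M (L (L (X (L (R D 0) 4294967295) (A (A (L (R D 30496) 4294967295) m) (S M (L (A (L (R D 11296) 4294967295) m) N)))) N) N))), 66, 1, 1, 1, 1⟩,
  ⟨fun A S X L P R M N m a b c d e f g h D => (A (L (X 33554432 (A (L (R D 11424) 4294967295) m)) N) (S M (L (A (L (X 33554432 (A (L (R D 30624) 4294967295) m)) N) (L (X 1 (L (X (L (R D 0) 4294967295) (A (A (L (R D 11392) 4294967295) m) (A (L (R D 30592) 4294967295) m))) N)) N)) N))), 66, 1, 1, 1, 1⟩,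
  ⟨fun A S X L P R M N m a b c d e f g h D => (A (A (L (R D 11456) 4294967295) m) (S M (L (A (L (R D 11424) 4294967295) m) N))), 34, 1, 1, 1, 1⟩,
  ⟨fun A S X L P R M N m a b c d e f g h D => (A (A (L (R D 30656) 4294967295) m) (S M (L (A (L (R D 30624) 4294967295) m) N))), 34, 1, 1, 1, 1⟩,
  ⟨fun A S X L P R M N m a b c d e f g h D => (A (L (X 16777216 (L (X 8 (A (A (L (R D 11456) 4294967295) m) (S M (L (A (L (R D 11424) 4294967295) m) N)))) N)) N) (S M (L (L (X (L (R D 0) 4294967295) (A (A (L (R D 30592) 4294967295) m) (S M (L (A (L (R D 11392) 4294967295) m) N)))) N) N))), 66, 1, 1, 1, 1⟩,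
  ⟨fun A S X L P R M N m a b c d e f g h D => (A (L (X 16777216 (L (X 8 (A (A (L (R D 30656) 4294967295) m) (S M (L (A (L (R D 30624) 4294967295) m) N)))) N)) N) (S M (L (L (X (L (R D 0) 4294967295) (A (A (L (R D 30592) 4294967295) m) (S M (L (A (L (R D 11392) 4294967295) m) N)))) N) N))), 66, 1, 1, 1, 1⟩,
  ⟨fun A S X L P R M N m a b c d e f g h D => (A (L (X 33554432 (A (L (R D 12096) 4294967295) m)) N) (S M (L (A (L (X 33554432 (A (L (R D 31296) 4294967295) m)) N) (L (X 1 (L (X (L (R D 0) 4294967295) (A (A (L (R D 12064) 4294967295) m) (A (L (R D 31264) 4294967295) m))) N)) N)) N))), 66, 1, 1, 1, 1⟩,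
  ⟨fun A S X L P R M N m a b c d e f g h D => (A (A (L (R D 12128) 4294967295) m) (S M (L (A (L (R D 12096) 4294967295) m) N))), 34, 1, 1, 1, 1⟩,
  ⟨fun A S X L P R M N m a b c d e f g h D => (A (A (L (R D 31328) 4294967295) m) (S M (L (A (L (R D 31296) 4294967295) m) N))), 34, 1, 1, 1, 1⟩,
  ⟨fun A S X L P R M N m a b c d e f g h D => (A (L (X 16777216 (L (X 8 (A (A (L (R D 12128) 4294967295) m) (S M (L (A (L (R D 12096) 4294967295) m) N)))) N)) N) (S M (L (L (X (L (R D 0) 4294967295) (A (A (L (R D 31264) 4294967295) m) (S M (L (A (L (R D 12064) 4294967295) m) N)))) N) N))), 66, 1, 1, 1, 1⟩,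
  ⟨fun A S X L P R M N m a b c d e f g h D => (A (L (X 16777216 (L (X 8 (A (A (L (R D 31328) 4294967295) m) (S M (L (A (L (R D 31296) 4294967295) m) N)))) N)) N) (S M (L (L (X (L (R D 0) 4294967295) (A (A (L (R D 31264) 4294967295) m) (S M (L (A (L (R D 12064) 4294967295) m) N)))) N) N))), 66, 1, 1, 1, 1⟩,
  ⟨fun A S X L P R M N m a b c d e f g h D => (A (L (X 33554432 (A (L (R D 12192) 4294967295) m)) N) (S M (L (A (L (X 33554432 (A (L (R D 31392) 4294967295) m)) N) (L (X 1 (L (X (L (R D 0) 4294967295) (A (A (L (R D 12160) 4294967295) m) (A (L (R D 31360) 4294967295) m))) N)) N)) N))), 66, 1, 1, 1, 1⟩,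
  ⟨fun A S X L P R M N m a b c d e f g h D => (A (A (L (R D 12224) 4294967295) m) (S M (L (A (L (R D 12192) 4294967295) m) N))), 34, 1, 1, 1, 1⟩,
  ⟨fun A S X L P R M N m a b c d e f g h D => (A (A (L (R D 31424) 4294967295) m) (S M (L (A (L (R D 31392) 4294967295) m) N))), 34, 1, 1, 1, 1⟩,
  ⟨fun A S X L P R M N m a b c d e f g h D => (A (L (X 16777216 (L (X 8 (A (A (L (R D 12224) 4294967295) m) (S M (L (A (L (R D 12192) 4294967295) m) N)))) N)) N) (S M (L (L (X (L (R D 0) 4294967295) (A (A (L (R D 31360) 4294967295) m) (S M (L (A (L (R D 12160) 4294967295) m) N)))) N) N))), 66, 1, 1, 1, 1⟩,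
  ⟨fun A S X L P R M N m a b c d e f g h D => (A (L (X 16777216 (L (X 8 (A (A (L (R D 31424) 4294967295) m) (S M (L (A (L (R D 31392) 4294967295) m) N)))) N)) N) (S M (L (L (X (L (R D 0) 4294967295) (A (A (L (R D 31360) 4294967295) m) (S M (L (A (L (R D 12160) 4294967295) m) N)))) N) N))), 66, 1, 1, 1, 1⟩,
  ⟨fun A S X L P R M N m a b c d e f g h D => (A (L (X 33554432 (A (L (R D 12288) 4294967295) m)) N) (S M (L (A (L (X 33554432 (A (L (R D 31488) 4294967295) m)) N) (L (X 1 (L (X (L (R D 0) 4294967295) (A (A (L (R D 12256) 4294967295) m) (A (L (R D 31456) 4294967295) m))) N)) N)) N))), 66, 1, 1, 1, 1⟩,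
  ⟨fun A S X L P R M N m a b c d e f g h D => (A (A (L (R D 12320) 4294967295) m) (S M (L (A (L (R D 12288) 4294967295) m) N))), 34, 1, 1, 1, 1⟩,
  ⟨fun A S X L P R M N m a b c d e f g h D => (A (A (L (R D 31520) 4294967295) m) (S M (L (A (L (R D 31488) 4294967295) m) N))), 34, 1, 1, 1, 1⟩,
  ⟨fun A S X L P R M N m a b c d e f g h D => (A (L (X 16777216 (L (X 8 (A (A (L (R D 12320) 4294967295) m) (S M (L (A (L (R D 12288) 4294967295) m) N)))) N)) N) (S M (L (L (X (L (R D 0) 4294967295) (A (A (L (R D 31456) 4294967295) m) (S M (L (A (L (R D 12256) 4294967295) m) N)))) N) N))), 66, 1, 1, 1, 1⟩,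
  ⟨fun A S X L P R M N m a b c d e f g h D => (A (L (X 16777216 (L (X 8 (A (A (L (R D 31520) 4294967295) m) (S M (L (A (L (R D 31488) 4294967295) m) N)))) N)) N) (S M (L (L (X (L (R D 0) 4294967295) (A (A (L (R D 31456) 4294967295) m) (S M (L (A (L (R D 12256) 4294967295) m) N)))) N) N))), 66, 1, 1, 1, 1⟩,
  ⟨fun A S X L P R M N m a b c d e f g h D => (A (L (X 33554432 (A (L (R D 12384) 4294967295) m)) N) (S M (L (A (L (X 33554432 (A (L (R D 31584) 4294967295) m)) N) (L (X 1 (L (X (L (R D 0) 4294967295) (A (A (L (R D 12352) 4294967295) m) (A (L (R D 31552) 4294967295) m))) N)) N)) N))), 66, 1, 1, 1, 1⟩,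
  ⟨fun A S X L P R M N m a b c d e f g h D => (A (A (L (R D 12416) 4294967295) m) (S M (L (A (L (R D 12384) 4294967295) m) N))), 34, 1, 1, 1, 1⟩,
  ⟨fun A S X L P R M N m a b c d e f g h D => (A (A (L (R D 31616) 4294967295) m) (S M (L (A (L (R D 31584) 4294967295) m) N))), 34, 1, 1, 1, 1⟩,
  ⟨fun A S X L P R M N m a b c d e f g h D => (A (L (X 16777216 (L (X 8 (A (A (L (R D 12416) 4294967295) m) (S M (L (A (L (R D 12384) 4294967295) m) N)))) N)) N) (S M (L (L (X (L (R D 0) 4294967295) (A (A (L (R D 31552) 4294967295) m) (S M (L (A (L (R D 12352) 4294967295) m) N)))) N) N))), 66, 1, 1, 1, 1⟩,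
  ⟨fun A S X L P R M N m a b c d e f g h D => (A (L (X 16777216 (L (X 8 (A (A (L (R D 31616) 4294967295) m) (S M (L (A (L (R D 31584) 4294967295) m) N)))) N)) N) (S M (L (L (X (L (R D 0) 4294967295) (A (A (L (R D 31552) 4294967295) m) (S M (L (A (L (R D 12352) 4294967295) m) N)))) N) N))), 66, 1, 1, 1, 1⟩,
  ⟨fun A S X L P R M N m a b c d e f g h D => (A (L (X 33554432 (A (L (R D 12480) 4294967295) m)) N) (S M (L (A (L (X 33554432 (A (L (R D 31680) 4294967295) m)) N) (L (X 1 (L (X (L (R D 0) 4294967295) (A (A (L (R D 12448) 4294967295) m) (A (L (R D 31648) 4294967295) m))) N)) N)) N))), 66, 1, 1, 1, 1⟩,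
  ⟨fun A S X L P R M N m a b c d e f g h D => (A (A (L (R D 12512) 4294967295) m) (S M (L (A (L (R D 12480) 4294967295) m) N))), 34, 1, 1, 1, 1⟩,
  ⟨fun A S X L P R M N m a b c d e f g h D => (A (A (L (R D 31712) 4294967295) m) (S M (L (A (L (R D 31680) 4294967295) m) N))), 34, 1, 1, 1, 1⟩,
  ⟨fun A S X L P R M N m a b c d e f g h D => (A (L (X 16777216 (L (X 8 (A (A (L (R D 12512) 4294967295) m) (S M (L (A (L (R D 12480) 4294967295) m) N)))) N)) N) (S M (L (L (X (L (R D 0) 4294967295) (A (A (L (R D 31648) 4294967295) m) (S M (L (A (L (R D 12448) 4294967295) m) N)))) N) N))), 66, 1, 1, 1, 1⟩,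
  ⟨fun A S X L P R M N m a b c d e f g h D => (A (L (X 16777216 (L (X 8 (A (A (L (R D 31712) 4294967295) m) (S M (L (A (L (R D 31680) 4294967295) m) N)))) N)) N) (S M (L (L (X (L (R D 0) 4294967295) (A (A (L (R D 31648) 4294967295) m) (S M (L (A (L (R D 12448) 4294967295) m) N)))) N) N))), 66, 1, 1, 1, 1⟩,
  ⟨fun A S X L P R M N m a b c d e f g h D => (A (L (X 33554432 (A (L (R D 12576) 4294967295) m)) N) (S M (L (A (L (X 33554432 (A (L (R D 31776) 4294967295) m)) N) (L (X 1 (L (X (L (R D 0) 4294967295) (A (A (L (R D 12544) 4294967295) m) (A (L (R D 31744) 4294967295) m))) N)) N)) N))), 66, 1, 1, 1, 1⟩,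
  ⟨fun A S X L P R M N m a b c d e f g h D => (A (A (L (R D 12608) 4294967295) m) (S M (L (A (L (R D 12576) 4294967295) m) N))), 34, 1, 1, 1, 1⟩,
  ⟨fun A S X L P R M N m a b c d e f g h D => (A (A (L (R D 31808) 4294967295) m) (S M (L (A (L (R D 31776) 4294967295) m) N))), 34, 1, 1, 1, 1⟩,
  ⟨fun A S X L P R M N m a b c d e f g h D => (A (L (X 16777216 (L (X 8 (A (A (L (R D 12608) 4294967295) m) (S M (L (A (L (R D 12576) 4294967295) m) N)))) N)) N) (S M (L (L (X (L (R D 0) 4294967295) (A (A (L (R D 31744) 4294967295) m) (S M (L (A (L (R D 12544) 4294967295) m) N)))) N) N))), 66, 1, 1, 1, 1⟩,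
  ⟨fun A S X L P R M N m a b c d e f g h D => (A (L (X 16777216 (L (X 8 (A (A (L (R D 31808) 4294967295) m) (S M (L (A (L (R D 31776) 4294967295) m) N)))) N)) N) (S M (L (L (X (L (R D 0) 4294967295) (A (A (L (R D 31744) 4294967295) m) (S M (L (A (L (R D 12544) 4294967295) m) N)))) N) N))), 66, 1, 1, 1, 1⟩,
  ⟨fun A S X L P R M N m a b c d e f g h D => (A (L (R D 0) 4294967295) (S M (L 1 N))), 33, 1, 1, 1, 1⟩,
  ⟨fun A S X L P R M N m a b c d e f g h D => (A (L (X 33554432 (A (L (R D 1248) 4294967295) m)) N) (S M (L (A (L (X 33554432 (A (L (R D 20448) 4294967295) m)) N) (L (X 1 (L (X (L (R D 0) 4294967295) (A (A (L (R D 1216) 4294967295) m) (A (L (R D 20416) 4294967295) m))) N)) N)) N))), 66, 1, 1, 1, 1⟩,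
  ⟨fun A S X L P R M N m a b c d e f g h D => (A (A (L (R D 1280) 4294967295) m) (S M (L (A (L (R D 1248) 4294967295) m) N))), 34, 1, 1, 1, 1⟩,
  ⟨fun A S X L P R M N m a b c d e f g h D => (A (A (L (R D 20480) 4294967295) m) (S M (L (A (L (R D 20448) 4294967295) m) N))), 34, 1, 1, 1, 1⟩,
  ⟨fun A S X L P R M N m a b c d e f g h D => (A (L (X 16777216 (L (X 8 (A (A (L (R D 1280) 4294967295) m) (S M (L (A (L (R D 1248) 4294967295) m) N)))) N)) N) (S M (L (L (X (L (R D 0) 4294967295) (A (A (L (R D 20416) 4294967295) m) (S M (L (A (L (R D 1216) 4294967295) m) N)))) N) N))), 66, 1, 1, 1, 1⟩,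
  ⟨fun A S X L P R M N m a b c d e f g h D => (A (L (X 16777216 (L (X 8 (A (A (L (R D 20480) 4294967295) m) (S M (L (A (L (R D 20448) 4294967295) m) N)))) N)) N) (S M (L (L (X (L (R D 0) 4294967295) (A (A (L (R D 20416) 4294967295) m) (S M (L (A (L (R D 1216) 4294967295) m) N)))) N) N))), 66, 1, 1, 1, 1⟩,
  ⟨fun A S X L P R M N m a b c d e f g h D => (A (L (X 33554432 (A (L (R D 1536) 4294967295) m)) N) (S M (L (A (L (X 33554432 (A (L (R D 20736) 4294967295) m)) N) (L (X 1 (L (X (L (R D 0) 4294967295) (A (A (L (R D 1504) 4294967295) m) (A (L (R D 20704) 4294967295) m))) N)) N)) N))), 66, 1, 1, 1, 1⟩,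
  ⟨fun A S X L P R M N m a b c d e f g h D => (A (A (L (R D 1568) 4294967295) m) (S M (L (A (L (R D 1536) 4294967295) m) N))), 34, 1, 1, 1, 1⟩,
  ⟨fun A S X L P R M N m a b c d e f g h D => (A (A (L (R D 20768) 4294967295) m) (S M (L (A (L (R D 20736) 4294967295) m) N))), 34, 1, 1, 1, 1⟩,
  ⟨fun A S X L P R M N m a b c d e f g h D => (A (L (X 16777216 (L (X 8 (A (A (L (R D 1568) 4294967295) m) (S M (L (A (L (R D 1536) 4294967295) m) N)))) N)) N) (S M (L (L (X (L (R D 0) 4294967295) (A (A (L (R D 20704) 4294967295) m) (S M (L (A (L (R D 1504) 4294967295) m) N)))) N) N))), 66, 1, 1, 1, 1⟩,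
  ⟨fun A S X L P R M N m a b c d e f g h D => (A (L (X 16777216 (L (X 8 (A (A (L (R D 20768) 4294967295) m) (S M (L (A (L (R D 20736) 4294967295) m) N)))) N)) N) (S M (L (L (X (L (R D 0) 4294967295) (A (A (L (R D 20704) 4294967295) m) (S M (L (A (L (R D 1504) 4294967295) m) N)))) N) N))), 66, 1, 1, 1, 1⟩,
  ⟨fun A S X L P R M N m a b c d e f g h D => (A (L (X 33554432 (A (L (R D 1344) 4294967295) m)) N) (S M (L (A (L (X 33554432 (A (L (R D 20544) 4294967295) m)) N) (L (X 1 (L (X (L (R D 0) 4294967295) (A (A (L (R D 1312) 4294967295) m) (A (L (R D 20512) 4294967295) m))) N)) N)) N))), 66, 1, 1, 1, 1⟩,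
  ⟨fun A S X L P R M N m a b c d e f g h D => (A (A (L (R D 1376) 4294967295) m) (S M (L (A (L (R D 1344) 4294967295) m) N))), 34, 1, 1, 1, 1⟩,
  ⟨fun A S X L P R M N m a b c d e f g h D => (A (A (L (R D 20576) 4294967295) m) (S M (L (A (L (R D 20544) 4294967295) m) N))), 34, 1, 1, 1, 1⟩,
  ⟨fun A S X L P R M N m a b c d e f g h D => (A (L (X 16777216 (L (X 8 (A (A (L (R D 1376) 4294967295) m) (S M (L (A (L (R D 1344) 4294967295) m) N)))) N)) N) (S M (L (L (X (L (R D 0) 4294967295) (A (A (L (R D 20512) 4294967295) m) (S M (L (A (L (R D 1312) 4294967295) m) N)))) N) N))), 66, 1, 1, 1, 1⟩,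
  ⟨fun A S X L P R M N m a b c d e f g h D => (A (L (X 16777216 (L (X 8 (A (A (L (R D 20576) 4294967295) m) (S M (L (A (L (R D 20544) 4294967295) m) N)))) N)) N) (S M (L (L (X (L (R D 0) 4294967295) (A (A (L (R D 20512) 4294967295) m) (S M (L (A (L (R D 1312) 4294967295) m) N)))) N) N))), 66, 1, 1, 1, 1⟩,
  ⟨fun A S X L P R M N m a b c d e f g h D => (A (L (X 33554432 (A (L (R D 1632) 4294967295) m)) N) (S M (L (A (L (X 33554432 (A (L (R D 20832) 4294967295) m)) N) (L (X 1 (L (X (L (R D 0) 4294967295) (A (A (L (R D 1600) 4294967295) m) (A (L (R D 20800) 4294967295) m))) N)) N)) N))), 66, 1, 1, 1, 1⟩,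
  ⟨fun A S X L P R M N m a b c d e f g h D => (A (A (L (R D 1664) 4294967295) m) (S M (L (A (L (R D 1632) 4294967295) m) N))), 34, 1, 1, 1, 1⟩,
  ⟨fun A S X L P R M N m a b c d e f g h D => (A (A (L (R D 20864) 4294967295) m) (S M (L (A (L (R D 20832) 4294967295) m) N))), 34, 1, 1, 1, 1⟩,
  ⟨fun A S X L P R M N m a b c d e f g h D => (A (L (X 16777216 (L (X 8 (A (A (L (R D 1664) 4294967295) m) (S M (L (A (L (R D 1632) 4294967295) m) N)))) N)) N) (S M (L (L (X (L (R D 0) 4294967295) (A (A (L (R D 20800) 4294967295) m) (S M (L (A (L (R D 1600) 4294967295) m) N)))) N) N))), 66, 1, 1, 1, 1⟩,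
  ⟨fun A S X L P R M N m a b c d e f g h D => (A (L (X 16777216 (L (X 8 (A (A (L (R D 20864) 4294967295) m) (S M (L (A (L (R D 20832) 4294967295) m) N)))) N)) N) (S M (L (L (X (L (R D 0) 4294967295) (A (A (L (R D 20800) 4294967295) m) (S M (L (A (L (R D 1600) 4294967295) m) N)))) N) N))), 66, 1, 1, 1, 1⟩,
  ⟨fun A S X L P R M N m a b c d e f g h D => (A (L (X 33554432 (A (L (R D 1440) 4294967295) m)) N) (S M (L (A (L (X 33554432 (A (L (R D 20640) 4294967295) m)) N) (L (X 1 (L (X (L (R D 0) 4294967295) (A (A (L (R D 1408) 4294967295) m) (A (L (R D 20608) 4294967295) m))) N)) N)) N))), 66, 1, 1, 1, 1⟩,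
  ⟨fun A S X L P R M N m a b c d e f g h D => (A (A (L (R D 1472) 4294967295) m) (S M (L (A (L (R D 1440) 4294967295) m) N))), 34, 1, 1, 1, 1⟩,
  ⟨fun A S X L P R M N m a b c d e f g h D => (A (A (L (R D 20672) 4294967295) m) (S M (L (A (L (R D 20640) 4294967295) m) N))), 34, 1, 1, 1, 1⟩,
  ⟨fun A S X L P R M N m a b c d e f g h D => (A (L (X 16777216 (L (X 8 (A (A (L (R D 1472) 4294967295) m) (S M (L (A (L (R D 1440) 4294967295) m) N)))) N)) N) (S M (L (L (X (L (R D 0) 4294967295) (A (A (L (R D 20608) 4294967295) m) (S M (L (A (L (R D 1408) 4294967295) m) N)))) N) N))), 66, 1, 1, 1, 1⟩,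
  ⟨fun A S X L P R M N m a b c d e f g h D => (A (L (X 16777216 (L (X 8 (A (A (L (R D 20672) 4294967295) m) (S M (L (A (L (R D 20640) 4294967295) m) N)))) N)) N) (S M (L (L (X (L (R D 0) 4294967295) (A (A (L (R D 20608) 4294967295) m) (S M (L (A (L (R D 1408) 4294967295) m) N)))) N) N))), 66, 1, 1, 1, 1⟩,
  ⟨fun A S X L P R M N m a b c d e f g h D => (A (L (X 33554432 (A (L (R D 1728) 4294967295) m)) N) (S M (L (A (L (X 33554432 (A (L (R D 20928) 4294967295) m)) N) (L (X 1 (L (X (L (R D 0) 4294967295) (A (A (L (R D 1696) 4294967295) m) (A (L (R D 20896) 4294967295) m))) N)) N)) N))), 66, 1, 1, 1, 1⟩,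
  ⟨fun A S X L P R M N m a b c d e f g h D => (A (A (L (R D 1760) 4294967295) m) (S M (L (A (L (R D 1728) 4294967295) m) N))), 34, 1, 1, 1, 1⟩,
  ⟨fun A S X L P R M N m a b c d e f g h D => (A (A (L (R D 20960) 4294967295) m) (S M (L (A (L (R D 20928) 4294967295) m) N))), 34, 1, 1, 1, 1⟩,
  ⟨fun A S X L P R M N m a b c d e f g h D => (A (L (X 16777216 (L (X 8 (A (A (L (R D 1760) 4294967295) m) (S M (L (A (L (R D 1728) 4294967295) m) N)))) N)) N) (S M (L (L (X (L (R D 0) 4294967295) (A (A (L (R D 20896) 4294967295) m) (S M (L (A (L (R D 1696) 4294967295) m) N)))) N) N))), 66, 1, 1, 1, 1⟩,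
  ⟨fun A S X L P R M N m a b c d e f g h D => (A (L (X 16777216 (L (X 8 (A (A (L (R D 20960) 4294967295) m) (S M (L (A (L (R D 20928) 4294967295) m) N)))) N)) N) (S M (L (L (X (L (R D 0) 4294967295) (A (A (L (R D 20896) 4294967295) m) (S M (L (A (L (R D 1696) 4294967295) m) N)))) N) N))), 66, 1, 1, 1, 1⟩,
  ⟨fun A S X L P R M N m a b c d e f g h D => (A (A (L (X (L (X 4294967296 (A (A (L (R D 1216) 4294967295) (X c (L (R D 20416) 4294967295))) (S M (L (X 2147483648 (A 1 (X c 1))) N)))) N) (P f 2)) N) (L (X (L (X 5462 b) N) (A (L (X (L (X 65536 (A (A (L (R D 1312) 4294967295) (X c (L (R D 20512) 4294967295))) (S M (L (X 2147483648 (A 1 (X c 1))) N)))) N) f) N) (L (X (L (X 5462 b) N) (A (A (L (R D 1408) 4294967295) (X c (L (R D 20608) 4294967295))) (S M (L (X 2147483648 (A 1 (X c 1))) N)))) N))) N)) (S M (L (A (L (X (L (X 4294967296 (A (L (R D 32) 4294967295) (X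 c (L (R D 19232) 4294967295)))) N) (P f 2)) N) (L (X (L (X 5462 b) N) (A (L (X (L (X 65536 (A (L (R D 64) 4294967295) (X c (L (R D 19264) 4294967295)))) N) f) N) (L (X (L (X 5462 b) N) (A (L (R D 96) 4294967295) (X c (L (R D 19296) 4294967295)))) N))) N)) N))), 69, 1, 3, 2, 1⟩,
  ⟨fun A S X L P R M N m a b c d e f g h D => (A (L (X (L (X (L (X 4722366482869645213696 (A (L (X (L (X 4294967296 (A (A (L (R D 1504) 4294967295) (X c (L (R D 20704) 4294967295))) (S M (L (X 2147483648 (A 1 (X c 1))) N)))) N) (P f 2)) N) (L (X (L (X 5462 b) N) (A (L (X (L (X 65536 (A (A (L (R D 1600) 4294967295) (X c (L (R D 20800) 4294967295))) (S M (L (X 2147483648 (A 1 (X c 1))) N)))) N) f) N) (L (X (L (X 5462 b) N) (A (A (L (R D 1696) 4294967295) (X c (L (R D 20896) 4294967295))) (S M (L (X 2147483648 (A 1 (X c 1))) N)))) N))) N))) N) (P f 3)) N) g) N) (S M (L (L (X (A (L (X (L (X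 4294967296 (A (L (R D 32) 4294967295) (X c (L (R D 19232) 4294967295)))) N) (P f 2)) N) (L (X (L (X 5462 b) N) (A (L (X (L (X 65536 (A (L (R D 64) 4294967295) (X c (L (R D 19264) 4294967295)))) N) f) N) (L (X (L (X 5462 b) N) (A (L (R D 96) 4294967295) (X c (L (R D 19296) 4294967295)))) N))) N)) (A (L (X (L (X (L (X 4722366482869645213696 1) N) (P f 3)) N) g) N) (L (X (L (X 5462 b) N) (A (L (X (L (X 4294967296 (A (A (L (R D 1568) 4294967295) (X c (L (R D 20768) 4294967295))) (S M (L (X 2147483648 (A 1 (X c 1))) N)))) N) (P f 2)) N) (L (X (L (X 5462 b) N) (A (L (X (L (X 65536 (A (A (L (R D 1664) 4294967295) (X c (L (R D 20864) 4294967295))) (S M (L (X 2147483648 (A 1 (X c 1))) N)))) N) f) N) (L (X (L (X 5462 b) N) (A (A (L (R D 1760) 4294967295) (X c (L (R D 20960) 4294967295))) (S M (L (X 2147483648 (A 1 (X c 1))) N)))) N))) N))) N))) N) N))), 147, 1, 6, 3, 1⟩,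
  ⟨fun A S X L P R M N m a b c d e f g h D => (A (L (X (L (X 4294967296 (A (A (L (R D 1568) 4294967295) (X c (L (R D 20768) 4294967295))) (S M (L (X 2147483648 (A 1 (X c 1))) N)))) N) (P f 2)) N) (L (X (L (X 5462 b) N) (A (L (X (L (X 65536 (A (A (L (R D 1664) 4294967295) (X c (L (R D 20864) 4294967295))) (S M (L (X 2147483648 (A 1 (X c 1))) N)))) N) f) N) (L (X (L (X 5462 b) N) (A (A (L (R D 1760) 4294967295) (X c (L (R D 20960) 4294967295))) (S M (L (X 2147483648 (A 1 (X c 1))) N)))) N))) N)), 68, 1, 3, 2, 1⟩,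
  ⟨fun A S X L P R M N m a b c d e f g h D => (A (L (X (L (X 281474976710656 (A (L (R D 2240) 4294967295) (X c (L (R D 21440) 4294967295)))) N) (P f 3)) N) (S M (L (L (X (L (X 5462 b) N) (A (L (X (L (X 4294967296 (A (A (L (R D 1280) 4294967295) (X c (L (R D 20480) 4294967295))) (S M (L (X 2147483648 (A 1 (X c 1))) N)))) N) (P f 2)) N) (L (X (L (X 5462 b) N) (A (L (X (L (X 65536 (A (A (L (R D 1376) 4294967295) (X c (L (R D 20576) 4294967295))) (S M (L (X 2147483648 (A 1 (X c 1))) N)))) N) f) N) (L (X (L (X 5462 b) N) (A (A (L (R D 1472) 4294967295) (X c (L (R D 20672) 4294967295))) (S M (L (X 2147483648 (A 1 (X c 1))) N)))) N))) N))) N) N))), 85, 1, 4, 2, 1⟩,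
  ⟨fun A S X L P R M N m a b c d e f g h D => (A (L (X (L (X (L (X 79228162514264337593543950336 (A (L (X (L (X 4294967296 (A (L (R D 1792) 4294967295) (X c (L (R D 20992) 4294967295)))) N) (P f 2)) N) (L (X (L (X 5462 b) N) (A (L (X (L (X 65536 (A (L (R D 1824) 4294967295) (X c (L (R D 21024) 4294967295)))) N) f) N) (L (X (L (X 5462 b) N) (A (L (R D 1856) 4294967295) (X c (L (R D 21056) 4294967295)))) N))) N))) N) (P f 3)) N) (P g 2)) N) (S M (L (A (L (X (L (X (L (X 79228162514264337593543950336 (A (L (X (L (X 4294967296 (A (A (L (R D 1280) 4294967295) (X c (L (R D 20480) 4294967295))) (S M (L (X 2147483648 (A 1 (X c 1))) N)))) N) (P f 2)) N) (L (X (L (X 5462 b) N) (A (L (X (L (X 65536 (A (A (L (R D 1376) 4294967295) (X c (L (R D 20576) 4294967295))) (S M (L (X 2147483648 (A 1 (X c 1))) N)))) N) f) N) (L (X (L (X 5462 b) N) (A (A (L (R D 1472) 4294967295) (X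 c (L (R D 20672) 4294967295))) (S M (L (X 2147483648 (A 1 (X c 1))) N)))) N))) N))) N) (P f 3)) N) (P g 2)) N) (L (X (A (L (R D 2176) 4294967295) (X c (L (R D 21376) 4294967295))) (L (X (L (X 5462 b) N) (L (X (A (L (X (L (X 4294967296 (A (A (L (R D 1280) 4294967295) (X c (L (R D 20480) 4294967295))) (S M (L (X 2147483648 (A 1 (X c 1))) N)))) N) (P f 2)) N) (L (X (L (X 5462 b) N) (A (L (X (L (X 65536 (A (A (L (R D 1376) 4294967295) (X c (L (R D 20576) 4294967295))) (S M (L (X 2147483648 (A 1 (X c 1))) N)))) N) f) N) (L (X (L (X 5462 b) N) (A (A (L (R D 1472) 4294967295) (X c (L (R D 20672) 4294967295))) (S M (L (X 2147483648 (A 1 (X c 1))) N)))) N))) N)) (A (L (X (L (X 4294967296 (A (A (L (R D 1280) 4294967295) (X c (L (R D 20480) 4294967295))) (S M (L (X 2147483648 (A 1 (X c 1))) N)))) N) (P f 2)) N) (L (X (L (X 5462 b) N) (A (L (X (L (X 65536 (A (A (L (R D 1376)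 4294967295) (X c (L (R D 20576) 4294967295))) (S M (L (X 2147483648 (A 1 (X c 1))) N)))) N) f) N) (L (X (L (X 5462 b) N) (A (A (L (R D 1472) 4294967295) (X c (L (R D 20672) 4294967295))) (S M (L (X 2147483648 (A 1 (X c 1))) N)))) N))) N))) N)) N)) N)) N))), 180, 1, 6, 4, 1⟩,
  ⟨fun A S X L P R M N m a b c d e f g h D => (A (A (L (X (L (X 4294967296 (A (L (R D 1888) 4294967295) (X c (L (R D 21088) 4294967295)))) N) (P f 2)) N) (L (X (L (X 5462 b) N) (A (L (X (L (X 65536 (A (L (R D 1920) 4294967295) (X c (L (R D 21120) 4294967295)))) N) f) N) (L (X (L (X 5462 b) N) (A (L (R D 1952) 4294967295) (X c (L (R D 21152) 4294967295)))) N))) N)) (S M (L (A (L (X (L (X 4294967296 (A (A (L (R D 1568) 4294967295) (X c (L (R D 20768) 4294967295))) (S M (L (X 2147483648 (A 1 (X c 1))) N)))) N) (P f 2)) N) (L (X (L (X 5462 b) N) (A (L (X (L (X 65536 (A (A (L (R D 1664) 4294967295)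 (X c (L (R D 20864) 4294967295))) (S M (L (X 2147483648 (A 1 (X c 1))) N)))) N) f) N) (L (X (L (X 5462 b) N) (A (A (L (R D 1760) 4294967295) (X c (L (R D 20960) 4294967295))) (S M (L (X 2147483648 (A 1 (X c 1))) N)))) N))) N)) N))), 69, 1, 3, 2, 1⟩,
  ⟨fun A S X L P R M N m a b c d e f g h D => (A (A (L (R D 2048) 4294967295) (X c (L (R D 21248) 4294967295))) (S M (L (L (X (L (X 16777216 1) N) g) N) N))), 34, 1, 1, 2, 1⟩,
  ⟨fun A S X L P R M N m a b c d e f g h D => (A (A (L (R D 2080) 4294967295) (X c (L (R D 21280) 4294967295))) (S M (L (L (X (L (X 16777216 1) N) g) N) N))), 34, 1, 1, 2, 1⟩,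
  ⟨fun A S X L P R M N m a b c d e f g h D => (A (L (R D 2112) 4294967295) (X c (L (R D 21312) 4294967295))), 34, 1, 1, 2, 1⟩,
  ⟨fun A S X L P R M N m a b c d e f g h D => (A (L (R D 2144) 4294967295) (X c (L (R D 21344) 4294967295))), 34, 1, 1, 2, 1⟩,
  ⟨fun A S X L P R M N m a b c d e f g h D => (A (L (R D 2176) 4294967295) (X c (L (R D 21376) 4294967295))), 34, 1, 1, 2, 1⟩,
  ⟨fun A S X L P R M N m a b c d e f g h D => (A (L (R D 2240) 4294967295) (X c (L (R D 21440) 4294967295))), 34, 1, 1, 2, 1⟩,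
  ⟨fun A S X L P R M N m a b c d e f g h D => (A (L (R D 1984) 4294967295) (X c (L (R D 21184) 4294967295))), 34, 1, 1, 2, 1⟩,
  ⟨fun A S X L P R M N m a b c d e f g h D => (A (L (R D 2016) 4294967295) (X c (L (R D 21216) 4294967295))), 34, 1, 1, 2, 1⟩,
  ⟨fun A S X L P R M N m a b c d e f g h D => (A (A (L (R D 2208) 4294967295) (X c (L (R D 21408) 4294967295))) (S M (L (L (X 2 (A (L (R D 2240) 4294967295) (X c (L (R D 21440) 4294967295)))) N) N))), 35, 1, 1, 2, 1⟩,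
  ⟨fun A S X L P R M N m a b c d e f g h D => (A (L (X (L (X 16777216 4) N) g) N) (S M (L (A (L (R D 2240) 4294967295) (X c (L (R D 21440) 4294967295))) N))), 34, 1, 1, 2, 1⟩]

theorem p2 : Pce Pool.Agent.RZ.RCO.SBk.sh 1200 150 2 (t2, f2) :=
  ⟨by decide +kernel, rfl, by decide +kernel⟩

end Pool.Agent.RZ.RCO.SBkL
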