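import Pool.Agent.RZ.RCO.SBkLt0_2
import Pool.Agent.RZ.RCO.SBkLt1
import Pool.Agent.RZ.RCO.SBkLt2
import Pool.Agent.RZ.RCO.SBkLt3

/-! The types of a sheet (MP_73ccd0_lc). -/

set_option autoImplicit false
set_option maxRecDepth 100000

namespace Pool.Agent.RZ.RCO.SBkL

open Sg

/-- the pieces -/
noncomputable def L : List (List Ty × List Tc) := [(t0, f0), (t1, f1), (t2, f2), (t3, f3)]

theorem mp : (Pool.Agent.RZ.RCO.SBk.sh).mp = true := by decide +kernel

theorem lay : Lay Pool.Agent.RZ.RCO.SBk.sh 1200 L :=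
  lay_of (w := 150) mp (fun k hk => match k, hk with
    | 0, _ => p0
    | 1, _ => p1
    | 2, _ => p2
    | 3, _ => p3
    | k + 4, hk => absurd (show k + 4 < 4 from hk) (by omega)) (by decide +kernel)

end Pool.Agent.RZ.RCO.SBkL
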