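import Pool.Agent.RZ.RCO.Gk13
import Pool.Agent.RZ.RCO.SBr

/-! Types of a sheet, piece 1 (MP_73ccd0_lc). -/

set_option autoImplicit false
set_option maxRecDepth 100000
set_option linter.all false

namespace Pool.Agent.RZ.RCO.SBrL

open Sg

noncomputable def t1 : List Ty :=
 [⟨(.sub (.mul (.s 2 100 632 2) (.c 1)) (.add (.mul (.r 2 252 632 2) (.sub (.c 0) (.mul (.c 12) (.c 1)))) (.add (.mul (.r 2 254 632 2) (.mul (.c 2) (.c 1))) (.mul (.r 2 255 632 2) (.sub (.c 0) (.mul (.c 24) (.c 1))))))), 39, 1, 1, 2, 1⟩,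
  ⟨(.sub (.mul (.s 2 101 632 2) (.c 1)) (.add (.mul (.r 2 253 632 2) (.sub (.c 0) (.mul (.c 12) (.c 1)))) (.add (.mul (.r 2 254 632 2) (.sub (.c 0) (.mul (.c 12) (.c 1)))) (.mul (.r 2 255 632 2) (.mul (.c 144) (.c 1)))))), 41, 1, 1, 2, 1⟩,
  ⟨(.sub (.add (.mul (.mul (.c 1024) (.mul (.s 2 109 632 2) (.add (.mul (.c 853) (.w 0 1)) (.mul (.c 171) (.q 0))))) (.w 0 1)) (.mul (.s 2 110 632 2) (.mul (.mul (.c 171) (.v 0)) (.add (.mul (.c 853) (.w 0 1)) (.mul (.c 171) (.q 0)))))) (.mul (.mul (.c 1024) (.add (.mul (.r 2 256 632 2) (.mul (.c 2) (.add (.mul (.c 853) (.w 0 1)) (.mul (.c 171) (.q 0))))) (.add (.mul (.r 2 257 632 2) (.add (.mul (.c 853) (.w 0 1)) (.mul (.c 171) (.q 0)))) (.mul (.r 2 260 632 2) (.mul (.c 2) (.add (.mul (.c 853) (.w 0 1)) (.mul (.c 171) (.q 0)))))))) (.w 0 1))), 58, 3, 1, 2, 1⟩,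
  ⟨(.sub (.mul (.add (.mul (.mul (.c 1024) (.s 2 111 632 2)) (.w 0 1)) (.mul (.mul (.c 171) (.v 0)) (.s 2 114 632 2))) (.c 1)) (.mul (.mul (.c 1024) (.add (.mul (.r 2 256 632 2) (.sub (.c 0) (.mul (.c 12) (.c 1)))) (.add (.mul (.r 2 258 632 2) (.c 1)) (.mul (.r 2 260 632 2) (.sub (.c 0) (.mul (.c 12) (.c 1))))))) (.w 0 1))), 49, 2, 1, 2, 1⟩,
  ⟨(.sub (.mul (.s 2 112 632 2) (.c 1)) (.add (.mul (.r 2 257 632 2) (.sub (.c 0) (.mul (.c 12) (.c 1)))) (.add (.mul (.r 2 259 632 2) (.mul (.c 2) (.c 1))) (.mul (.r 2 260 632 2) (.sub (.c 0) (.mul (.c 24) (.c 1))))))), 39, 1, 1, 2, 1⟩,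
  ⟨(.sub (.mul (.s 2 113 632 2) (.c 1)) (.add (.mul (.r 2 258 632 2) (.sub (.c 0) (.mul (.c 12) (.c 1)))) (.add (.mul (.r 2 259 632 2) (.sub (.c 0) (.mul (.c 12) (.c 1)))) (.mul (.r 2 260 632 2) (.mul (.c 144) (.c 1)))))), 41, 1, 1, 2, 1⟩,
  ⟨(.sub (.sub (.mul (.mul (.mul (.c 288230376151711744) (.add (.mul (.r 2 115 632 2) (.mul (.c 1) (.add (.mul (.c 853) (.w 0 1)) (.mul (.c 171) (.q 0))))) (.mul (.mul (.c 1024) (.mul (.r 2 116 632 2) (.u 0 [1]))) (.w 0 1)))) (.w 0 5)) (.w 2 2)) (.mul (.add (.mul (.q 2) (.r 0 4 1 3)) (.mul (.v 2) (.r 0 636 1 3))) (.add (.mul (.add (.mul (.q 2) (.r 0 7 1 3)) (.mul (.v 2) (.r 0 639 1 3))) (.add (.mul (.mul (.c 1024) (.mul (.s 2 97 632 2) (.add (.mul (.c 853) (.w 0 1)) (.mul (.c 171) (.q 0))))) (.w 0 1)) (.mul (.s 2 98 632 2) (.mul (.mul (.c 171) (.v 0)) (.add (.mul (.c 853) (.w 0 1)) (.mul (.c 171) (.q 0))))))) (.mul (.mul (.mul (.c 17179869184) (.mul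 (.s 2 127 632 2) (.add (.mul (.c 853) (.w 0 1)) (.mul (.c 171) (.q 0))))) (.w 0 3)) (.w 2 1))))) (.mul (.mul (.mul (.c 288230376151711744) (.add (.mul (.r 2 261 632 2) (.mul (.c 2) (.add (.mul (.c 853) (.w 0 1)) (.mul (.c 171) (.q 0))))) (.add (.mul (.r 2 262 632 2) (.add (.mul (.c 853) (.w 0 1)) (.mul (.c 171) (.q 0)))) (.mul (.r 2 265 632 2) (.mul (.c 2) (.add (.mul (.c 853) (.w 0 1)) (.mul (.c 171) (.q 0)))))))) (.w 0 5)) (.w 2 2))), 125, 7, 1, 4, 1⟩,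
  ⟨(.sub (.sub (.mul (.mul (.c 0) (.w 0 5)) (.w 2 3)) (.mul (.add (.mul (.q 2) (.r 0 4 1 3)) (.mul (.v 2) (.r 0 636 1 3))) (.add (.mul (.add (.mul (.q 2) (.r 0 7 1 3)) (.mul (.v 2) (.r 0 639 1 3))) (.mul (.add (.mul (.mul (.c 1024) (.s 2 99 632 2)) (.w 0 1)) (.mul (.mul (.c 171) (.v 0)) (.s 2 102 632 2))) (.c 1))) (.mul (.mul (.mul (.c 17179869184) (.mul (.s 2 128 632 2) (.c 1))) (.w 0 3)) (.w 2 1))))) (.mul (.mul (.mul (.c 288230376151711744) (.add (.mul (.r 2 261 632 2) (.sub (.c 0) (.mul (.c 12) (.c 1)))) (.add (.mul (.r 2 263 632 2) (.c 1)) (.mul (.r 2 265 632 2) (.sub (.c 0) (.mul (.c 12) (.c 1))))))) (.w 0 5)) (.w 2 2))), 114, 6, 1, 4, 1⟩,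
  ⟨(.sub (.sub (.mul (.mul (.c 0) (.w 0 4)) (.w 2 3)) (.mul (.add (.mul (.q 2) (.r 0 4 1 3)) (.mul (.v 2) (.r 0 636 1 3))) (.add (.mul (.add (.mul (.q 2) (.r 0 7 1 3)) (.mul (.v 2) (.r 0 639 1 3))) (.mul (.s 2 100 632 2) (.c 1))) (.mul (.mul (.mul (.c 16777216) (.mul (.s 2 129 632 2) (.c 1))) (.w 0 2)) (.w 2 1))))) (.mul (.mul (.mul (.c 281474976710656) (.add (.mul (.r 2 262 632 2) (.sub (.c 0) (.mul (.c 12) (.c 1)))) (.add (.mul (.r 2 264 632 2) (.mul (.c 2) (.c 1))) (.mul (.r 2 265 632 2) (.sub (.c 0) (.mul (.c 24) (.c 1))))))) (.w 0 4)) (.w 2 2))), 103, 5, 1, 4, 1⟩,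
  ⟨(.sub (.sub (.mul (.mul (.c 0) (.w 0 4)) (.w 2 3)) (.mul (.add (.mul (.q 2) (.r 0 4 1 3)) (.mul (.v 2) (.r 0 636 1 3))) (.add (.mul (.add (.mul (.q 2) (.r 0 7 1 3)) (.mul (.v 2) (.r 0 639 1 3))) (.mul (.s 2 101 632 2) (.c 1))) (.mul (.mul (.mul (.c 16777216) (.mul (.s 2 130 632 2) (.c 1))) (.w 0 2)) (.w 2 1))))) (.mul (.mul (.mul (.c 281474976710656) (.add (.mul (.r 2 263 632 2) (.sub (.c 0) (.mul (.c 12) (.c 1)))) (.add (.mul (.r 2 264 632 2) (.sub (.c 0) (.mul (.c 12) (.c 1)))) (.mul (.r 2 265 632 2) (.mul (.c 144) (.c 1)))))) (.w 0 4)) (.w 2 2))), 103, 5, 1, 4, 1⟩,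
  ⟨(.sub (.sub (.mul (.mul (.mul (.c 288230376151711744) (.add (.mul (.r 2 117 632 2) (.mul (.c 1) (.add (.mul (.c 853) (.w 0 1)) (.mul (.c 171) (.q 0))))) (.mul (.mul (.c 1024) (.mul (.r 2 118 632 2) (.u 0 [1]))) (.w 0 1)))) (.w 0 5)) (.w 2 2)) (.mul (.add (.mul (.q 2) (.r 0 4 1 3)) (.mul (.v 2) (.r 0 636 1 3))) (.add (.mul (.add (.mul (.q 2) (.r 0 7 1 3)) (.mul (.v 2) (.r 0 639 1 3))) (.add (.mul (.mul (.c 1024) (.mul (.s 2 109 632 2) (.add (.mul (.c 853) (.w 0 1)) (.mul (.c 171) (.q 0))))) (.w 0 1)) (.mul (.s 2 110 632 2) (.mul (.mul (.c 171) (.v 0)) (.add (.mul (.c 853) (.w 0 1)) (.mul (.c 171) (.q 0))))))) (.mul (.mul (.mul (.c 17179869184) (.mul (.s 2 131 632 2) (.add (.mul (.c 853) (.w 0 1)) (.mul (.c 171) (.q 0))))) (.w 0 3)) (.w 2 1))))) (.mul (.mul (.mul (.c 288230376151711744) (.add (.mul (.r 2 266 632 2) (.mul (.c 2) (.add (.mul (.c 853) (.w 0 1)) (.mul (.c 171) (.q 0)))))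 (.add (.mul (.r 2 267 632 2) (.add (.mul (.c 853) (.w 0 1)) (.mul (.c 171) (.q 0)))) (.mul (.r 2 270 632 2) (.mul (.c 2) (.add (.mul (.c 853) (.w 0 1)) (.mul (.c 171) (.q 0)))))))) (.w 0 5)) (.w 2 2))), 125, 7, 1, 4, 1⟩,
  ⟨(.sub (.sub (.mul (.mul (.c 0) (.w 0 5)) (.w 2 3)) (.mul (.add (.mul (.q 2) (.r 0 4 1 3)) (.mul (.v 2) (.r 0 636 1 3))) (.add (.mul (.add (.mul (.q 2) (.r 0 7 1 3)) (.mul (.v 2) (.r 0 639 1 3))) (.mul (.add (.mul (.mul (.c 1024) (.s 2 111 632 2)) (.w 0 1)) (.mul (.mul (.c 171) (.v 0)) (.s 2 114 632 2))) (.c 1))) (.mul (.mul (.mul (.c 17179869184) (.mul (.s 2 132 632 2) (.c 1))) (.w 0 3)) (.w 2 1))))) (.mul (.mul (.mul (.c 288230376151711744) (.add (.mul (.r 2 266 632 2) (.sub (.c 0) (.mul (.c 12) (.c 1)))) (.add (.mul (.r 2 268 632 2) (.c 1)) (.mul (.r 2 270 632 2) (.sub (.c 0) (.mul (.c 12) (.c 1))))))) (.w 0 5)) (.w 2 2))), 114, 6, 1, 4, 1⟩,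
  ⟨(.sub (.sub (.mul (.mul (.c 0) (.w 0 4)) (.w 2 3)) (.mul (.add (.mul (.q 2) (.r 0 4 1 3)) (.mul (.v 2) (.r 0 636 1 3))) (.add (.mul (.add (.mul (.q 2) (.r 0 7 1 3)) (.mul (.v 2) (.r 0 639 1 3))) (.mul (.s 2 112 632 2) (.c 1))) (.mul (.mul (.mul (.c 16777216) (.mul (.s 2 133 632 2) (.c 1))) (.w 0 2)) (.w 2 1))))) (.mul (.mul (.mul (.c 281474976710656) (.add (.mul (.r 2 267 632 2) (.sub (.c 0) (.mul (.c 12) (.c 1)))) (.add (.mul (.r 2 269 632 2) (.mul (.c 2) (.c 1))) (.mul (.r 2 270 632 2) (.sub (.c 0) (.mul (.c 24) (.c 1))))))) (.w 0 4)) (.w 2 2))), 103, 5, 1, 4, 1⟩,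
  ⟨(.sub (.sub (.mul (.mul (.c 0) (.w 0 4)) (.w 2 3)) (.mul (.add (.mul (.q 2) (.r 0 4 1 3)) (.mul (.v 2) (.r 0 636 1 3))) (.add (.mul (.add (.mul (.q 2) (.r 0 7 1 3)) (.mul (.v 2) (.r 0 639 1 3))) (.mul (.s 2 113 632 2) (.c 1))) (.mul (.mul (.mul (.c 16777216) (.mul (.s 2 134 632 2) (.c 1))) (.w 0 2)) (.w 2 1))))) (.mul (.mul (.mul (.c 281474976710656) (.add (.mul (.r 2 268 632 2) (.sub (.c 0) (.mul (.c 12) (.c 1)))) (.add (.mul (.r 2 269 632 2) (.sub (.c 0) (.mul (.c 12) (.c 1)))) (.mul (.r 2 270 632 2) (.mul (.c 144) (.c 1)))))) (.w 0 4)) (.w 2 2))), 103, 5, 1, 4, 1⟩,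
  ⟨(.sub (.sub (.mul (.c 1024) (.add (.mul (.q 2) (.r 0 7 1 3)) (.mul (.v 2) (.r 0 639 1 3)))) (.mul (.mul (.s 2 34 632 2) (.add (.mul (.c 853) (.w 0 1)) (.mul (.c 171) (.q 0)))) (.w 0 1))) (.mul (.add (.mul (.r 2 545 632 2) (.mul (.c 2) (.add (.mul (.c 853) (.w 0 1)) (.mul (.c 171) (.q 0))))) (.add (.mul (.r 2 546 632 2) (.add (.mul (.c 853) (.w 0 1)) (.mul (.c 171) (.q 0)))) (.mul (.r 2 549 632 2) (.mul (.c 2) (.add (.mul (.c 853) (.w 0 1)) (.mul (.c 171) (.q 0))))))) (.w 0 1))), 48, 3, 1, 2, 1⟩,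
  ⟨(.sub (.sub (.mul (.c 0) (.w 2 1)) (.mul (.s 2 35 632 2) (.c 1))) (.add (.mul (.r 2 545 632 2) (.sub (.c 0) (.mul (.c 12) (.c 1)))) (.add (.mul (.r 2 547 632 2) (.c 1)) (.mul (.r 2 549 632 2) (.sub (.c 0) (.mul (.c 12) (.c 1))))))), 38, 1, 1, 2, 1⟩,
  ⟨(.sub (.sub (.mul (.c 0) (.w 2 1)) (.mul (.s 2 36 632 2) (.c 1))) (.add (.mul (.r 2 546 632 2) (.sub (.c 0) (.mul (.c 12) (.c 1)))) (.add (.mul (.r 2 548 632 2) (.mul (.c 2) (.c 1))) (.mul (.r 2 549 632 2) (.sub (.c 0) (.mul (.c 24) (.c 1))))))), 39, 1, 1, 2, 1⟩,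
  ⟨(.sub (.sub (.mul (.c 0) (.w 2 1)) (.mul (.s 2 37 632 2) (.c 1))) (.add (.mul (.r 2 547 632 2) (.sub (.c 0) (.mul (.c 12) (.c 1)))) (.add (.mul (.r 2 548 632 2) (.sub (.c 0) (.mul (.c 12) (.c 1)))) (.mul (.r 2 549 632 2) (.mul (.c 144) (.c 1)))))), 41, 1, 1, 2, 1⟩,
  ⟨(.sub (.add (.mul (.mul (.c 1024) (.mul (.s 2 10 632 2) (.add (.mul (.c 853) (.w 0 1)) (.mul (.c 171) (.q 0))))) (.w 0 1)) (.mul (.s 2 11 632 2) (.mul (.mul (.c 171) (.v 0)) (.add (.mul (.c 853) (.w 0 1)) (.mul (.c 171) (.q 0)))))) (.mul (.mul (.c 1024) (.add (.mul (.r 2 550 632 2) (.mul (.c 2) (.add (.mul (.c 853) (.w 0 1)) (.mul (.c 171) (.q 0))))) (.add (.mul (.r 2 551 632 2) (.add (.mul (.c 853) (.w 0 1)) (.mul (.c 171) (.q 0)))) (.mul (.r 2 554 632 2) (.mul (.c 2) (.add (.mul (.c 853) (.w 0 1)) (.mul (.c 171) (.q 0)))))))) (.w 0 1))), 58, 3, 1, 2, 1⟩,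
  ⟨(.sub (.mul (.add (.mul (.mul (.c 1024) (.s 2 12 632 2)) (.w 0 1)) (.mul (.mul (.c 171) (.v 0)) (.s 2 15 632 2))) (.c 1)) (.mul (.mul (.c 1024) (.add (.mul (.r 2 550 632 2) (.sub (.c 0) (.mul (.c 12) (.c 1)))) (.add (.mul (.r 2 552 632 2) (.c 1)) (.mul (.r 2 554 632 2) (.sub (.c 0) (.mul (.c 12) (.c 1))))))) (.w 0 1))), 49, 2, 1, 2, 1⟩,
  ⟨(.sub (.mul (.s 2 13 632 2) (.c 1)) (.add (.mul (.r 2 551 632 2) (.sub (.c 0) (.mul (.c 12) (.c 1)))) (.add (.mul (.r 2 553 632 2) (.mul (.c 2) (.c 1))) (.mul (.r 2 554 632 2) (.sub (.c 0) (.mul (.c 24) (.c 1))))))), 39, 1, 1, 2, 1⟩,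
  ⟨(.sub (.mul (.s 2 14 632 2) (.c 1)) (.add (.mul (.r 2 552 632 2) (.sub (.c 0) (.mul (.c 12) (.c 1)))) (.add (.mul (.r 2 553 632 2) (.sub (.c 0) (.mul (.c 12) (.c 1)))) (.mul (.r 2 554 632 2) (.mul (.c 144) (.c 1)))))), 41, 1, 1, 2, 1⟩,
  ⟨(.sub (.add (.mul (.mul (.c 1024) (.mul (.s 2 16 632 2) (.add (.mul (.c 853) (.w 0 1)) (.mul (.c 171) (.q 0))))) (.w 0 1)) (.mul (.s 2 17 632 2) (.mul (.mul (.c 171) (.v 0)) (.add (.mul (.c 853) (.w 0 1)) (.mul (.c 171) (.q 0)))))) (.mul (.mul (.c 1024) (.add (.mul (.r 2 560 632 2) (.mul (.c 2) (.add (.mul (.c 853) (.w 0 1)) (.mul (.c 171) (.q 0))))) (.add (.mul (.r 2 561 632 2) (.add (.mul (.c 853) (.w 0 1)) (.mul (.c 171) (.q 0)))) (.mul (.r 2 564 632 2) (.mul (.c 2) (.add (.mul (.c 853) (.w 0 1)) (.mul (.c 171) (.q 0)))))))) (.w 0 1))), 58, 3, 1, 2, 1⟩,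
  ⟨(.sub (.mul (.add (.mul (.mul (.c 1024) (.s 2 18 632 2)) (.w 0 1)) (.mul (.mul (.c 171) (.v 0)) (.s 2 21 632 2))) (.c 1)) (.mul (.mul (.c 1024) (.add (.mul (.r 2 560 632 2) (.sub (.c 0) (.mul (.c 12) (.c 1)))) (.add (.mul (.r 2 562 632 2) (.c 1)) (.mul (.r 2 564 632 2) (.sub (.c 0) (.mul (.c 12) (.c 1))))))) (.w 0 1))), 49, 2, 1, 2, 1⟩,
  ⟨(.sub (.mul (.s 2 19 632 2) (.c 1)) (.add (.mul (.r 2 561 632 2) (.sub (.c 0) (.mul (.c 12) (.c 1)))) (.add (.mul (.r 2 563 632 2) (.mul (.c 2) (.c 1))) (.mul (.r 2 564 632 2) (.sub (.c 0) (.mul (.c 24) (.c 1))))))), 39, 1, 1, 2, 1⟩,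
  ⟨(.sub (.mul (.s 2 20 632 2) (.c 1)) (.add (.mul (.r 2 562 632 2) (.sub (.c 0) (.mul (.c 12) (.c 1)))) (.add (.mul (.r 2 563 632 2) (.sub (.c 0) (.mul (.c 12) (.c 1)))) (.mul (.r 2 564 632 2) (.mul (.c 144) (.c 1)))))), 41, 1, 1, 2, 1⟩,
  ⟨(.sub (.sub (.mul (.mul (.mul (.c 288230376151711744) (.add (.mul (.r 2 283 632 2) (.mul (.c 1) (.add (.mul (.c 853) (.w 0 1)) (.mul (.c 171) (.q 0))))) (.mul (.mul (.c 1024) (.mul (.r 2 284 632 2) (.u 0 [1]))) (.w 0 1)))) (.w 0 5)) (.w 2 2)) (.mul (.add (.mul (.q 2) (.r 0 4 1 3)) (.mul (.v 2) (.r 0 636 1 3))) (.add (.mul (.add (.mul (.q 2) (.r 0 7 1 3)) (.mul (.v 2) (.r 0 639 1 3))) (.add (.mul (.mul (.c 1024) (.mul (.s 2 16 632 2) (.add (.mul (.c 853) (.w 0 1)) (.mul (.c 171) (.q 0))))) (.w 0 1)) (.mul (.s 2 17 632 2) (.mul (.mul (.c 171) (.v 0)) (.add (.mul (.c 853) (.w 0 1)) (.mul (.c 171) (.q 0))))))) (.mul (.mul (.mul (.c 17179869184) (.mul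 (.s 2 299 632 2) (.add (.mul (.c 853) (.w 0 1)) (.mul (.c 171) (.q 0))))) (.w 0 3)) (.w 2 1))))) (.mul (.mul (.mul (.c 288230376151711744) (.add (.mul (.r 2 570 632 2) (.mul (.c 2) (.add (.mul (.c 853) (.w 0 1)) (.mul (.c 171) (.q 0))))) (.add (.mul (.r 2 571 632 2) (.add (.mul (.c 853) (.w 0 1)) (.mul (.c 171) (.q 0)))) (.mul (.r 2 574 632 2) (.mul (.c 2) (.add (.mul (.c 853) (.w 0 1)) (.mul (.c 171) (.q 0)))))))) (.w 0 5)) (.w 2 2))), 125, 7, 1, 4, 1⟩,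
  ⟨(.sub (.sub (.mul (.mul (.c 0) (.w 0 5)) (.w 2 3)) (.mul (.add (.mul (.q 2) (.r 0 4 1 3)) (.mul (.v 2) (.r 0 636 1 3))) (.add (.mul (.add (.mul (.q 2) (.r 0 7 1 3)) (.mul (.v 2) (.r 0 639 1 3))) (.mul (.add (.mul (.mul (.c 1024) (.s 2 18 632 2)) (.w 0 1)) (.mul (.mul (.c 171) (.v 0)) (.s 2 21 632 2))) (.c 1))) (.mul (.mul (.mul (.c 17179869184) (.mul (.s 2 300 632 2) (.c 1))) (.w 0 3)) (.w 2 1))))) (.mul (.mul (.mul (.c 288230376151711744) (.add (.mul (.r 2 570 632 2) (.sub (.c 0) (.mul (.c 12) (.c 1)))) (.add (.mul (.r 2 572 632 2) (.c 1)) (.mul (.r 2 574 632 2) (.sub (.c 0) (.mul (.c 12) (.c 1))))))) (.w 0 5)) (.w 2 2))), 114, 6, 1, 4, 1⟩,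
  ⟨(.sub (.sub (.mul (.mul (.c 0) (.w 0 4)) (.w 2 3)) (.mul (.add (.mul (.q 2) (.r 0 4 1 3)) (.mul (.v 2) (.r 0 636 1 3))) (.add (.mul (.add (.mul (.q 2) (.r 0 7 1 3)) (.mul (.v 2) (.r 0 639 1 3))) (.mul (.s 2 19 632 2) (.c 1))) (.mul (.mul (.mul (.c 16777216) (.mul (.s 2 301 632 2) (.c 1))) (.w 0 2)) (.w 2 1))))) (.mul (.mul (.mul (.c 281474976710656) (.add (.mul (.r 2 571 632 2) (.sub (.c 0) (.mul (.c 12) (.c 1)))) (.add (.mul (.r 2 573 632 2) (.mul (.c 2) (.c 1))) (.mul (.r 2 574 632 2) (.sub (.c 0) (.mul (.c 24) (.c 1))))))) (.w 0 4)) (.w 2 2))), 103, 5, 1, 4, 1⟩,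
  ⟨(.sub (.sub (.mul (.mul (.c 0) (.w 0 4)) (.w 2 3)) (.mul (.add (.mul (.q 2) (.r 0 4 1 3)) (.mul (.v 2) (.r 0 636 1 3))) (.add (.mul (.add (.mul (.q 2) (.r 0 7 1 3)) (.mul (.v 2) (.r 0 639 1 3))) (.mul (.s 2 20 632 2) (.c 1))) (.mul (.mul (.mul (.c 16777216) (.mul (.s 2 302 632 2) (.c 1))) (.w 0 2)) (.w 2 1))))) (.mul (.mul (.mul (.c 281474976710656) (.add (.mul (.r 2 572 632 2) (.sub (.c 0) (.mul (.c 12) (.c 1)))) (.add (.mul (.r 2 573 632 2) (.sub (.c 0) (.mul (.c 12) (.c 1)))) (.mul (.r 2 574 632 2) (.mul (.c 144) (.c 1)))))) (.w 0 4)) (.w 2 2))), 103, 5, 1, 4, 1⟩,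
  ⟨(.sub (.sub (.mul (.mul (.mul (.c 288230376151711744) (.add (.mul (.r 2 287 632 2) (.mul (.c 1) (.add (.mul (.c 853) (.w 0 1)) (.mul (.c 171) (.q 0))))) (.mul (.mul (.c 1024) (.mul (.r 2 288 632 2) (.u 0 [1]))) (.w 0 1)))) (.w 0 5)) (.w 2 2)) (.mul (.add (.mul (.q 2) (.r 0 4 1 3)) (.mul (.v 2) (.r 0 636 1 3))) (.add (.mul (.add (.mul (.q 2) (.r 0 7 1 3)) (.mul (.v 2) (.r 0 639 1 3))) (.add (.mul (.mul (.c 1024) (.mul (.s 2 10 632 2) (.add (.mul (.c 853) (.w 0 1)) (.mul (.c 171) (.q 0))))) (.w 0 1)) (.mul (.s 2 11 632 2) (.mul (.mul (.c 171) (.v 0)) (.add (.mul (.c 853) (.w 0 1)) (.mul (.c 171) (.q 0))))))) (.mul (.mul (.mul (.c 17179869184) (.mul (.s 2 307 632 2) (.add (.mul (.c 853) (.w 0 1)) (.mul (.c 171) (.q 0))))) (.w 0 3)) (.w 2 1))))) (.mul (.mul (.mul (.c 288230376151711744) (.add (.mul (.r 2 580 632 2) (.mul (.c 2) (.add (.mul (.c 853) (.w 0 1)) (.mul (.c 171) (.q 0)))))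 (.add (.mul (.r 2 581 632 2) (.add (.mul (.c 853) (.w 0 1)) (.mul (.c 171) (.q 0)))) (.mul (.r 2 584 632 2) (.mul (.c 2) (.add (.mul (.c 853) (.w 0 1)) (.mul (.c 171) (.q 0)))))))) (.w 0 5)) (.w 2 2))), 125, 7, 1, 4, 1⟩,
  ⟨(.sub (.sub (.mul (.mul (.c 0) (.w 0 5)) (.w 2 3)) (.mul (.add (.mul (.q 2) (.r 0 4 1 3)) (.mul (.v 2) (.r 0 636 1 3))) (.add (.mul (.add (.mul (.q 2) (.r 0 7 1 3)) (.mul (.v 2) (.r 0 639 1 3))) (.mul (.add (.mul (.mul (.c 1024) (.s 2 12 632 2)) (.w 0 1)) (.mul (.mul (.c 171) (.v 0)) (.s 2 15 632 2))) (.c 1))) (.mul (.mul (.mul (.c 17179869184) (.mul (.s 2 308 632 2) (.c 1))) (.w 0 3)) (.w 2 1))))) (.mul (.mul (.mul (.c 288230376151711744) (.add (.mul (.r 2 580 632 2) (.sub (.c 0) (.mul (.c 12) (.c 1)))) (.add (.mul (.r 2 582 632 2) (.c 1)) (.mul (.r 2 584 632 2) (.sub (.c 0) (.mul (.c 12) (.c 1))))))) (.w 0 5)) (.w 2 2))), 114, 6, 1, 4, 1⟩,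
  ⟨(.sub (.sub (.mul (.mul (.c 0) (.w 0 4)) (.w 2 3)) (.mul (.add (.mul (.q 2) (.r 0 4 1 3)) (.mul (.v 2) (.r 0 636 1 3))) (.add (.mul (.add (.mul (.q 2) (.r 0 7 1 3)) (.mul (.v 2) (.r 0 639 1 3))) (.mul (.s 2 13 632 2) (.c 1))) (.mul (.mul (.mul (.c 16777216) (.mul (.s 2 309 632 2) (.c 1))) (.w 0 2)) (.w 2 1))))) (.mul (.mul (.mul (.c 281474976710656) (.add (.mul (.r 2 581 632 2) (.sub (.c 0) (.mul (.c 12) (.c 1)))) (.add (.mul (.r 2 583 632 2) (.mul (.c 2) (.c 1))) (.mul (.r 2 584 632 2) (.sub (.c 0) (.mul (.c 24) (.c 1))))))) (.w 0 4)) (.w 2 2))), 103, 5, 1, 4, 1⟩,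
  ⟨(.sub (.sub (.mul (.mul (.c 0) (.w 0 4)) (.w 2 3)) (.mul (.add (.mul (.q 2) (.r 0 4 1 3)) (.mul (.v 2) (.r 0 636 1 3))) (.add (.mul (.add (.mul (.q 2) (.r 0 7 1 3)) (.mul (.v 2) (.r 0 639 1 3))) (.mul (.s 2 14 632 2) (.c 1))) (.mul (.mul (.mul (.c 16777216) (.mul (.s 2 310 632 2) (.c 1))) (.w 0 2)) (.w 2 1))))) (.mul (.mul (.mul (.c 281474976710656) (.add (.mul (.r 2 582 632 2) (.sub (.c 0) (.mul (.c 12) (.c 1)))) (.add (.mul (.r 2 583 632 2) (.sub (.c 0) (.mul (.c 12) (.c 1)))) (.mul (.r 2 584 632 2) (.mul (.c 144) (.c 1)))))) (.w 0 4)) (.w 2 2))), 103, 5, 1, 4, 1⟩,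
  ⟨(.sub (.sub (.mul (.mul (.mul (.c 16777216) (.add (.mul (.r 2 291 632 2) (.mul (.c 1) (.add (.mul (.c 853) (.w 0 1)) (.mul (.c 171) (.q 0))))) (.mul (.mul (.c 1024) (.mul (.r 2 292 632 2) (.u 0 [1]))) (.w 0 1)))) (.w 0 2)) (.w 2 1)) (.mul (.add (.mul (.q 2) (.r 0 4 1 3)) (.mul (.v 2) (.r 0 636 1 3))) (.mul (.s 2 323 632 2) (.add (.mul (.c 853) (.w 0 1)) (.mul (.c 171) (.q 0)))))) (.mul (.mul (.mul (.c 16777216) (.add (.mul (.r 2 590 632 2) (.mul (.c 2) (.add (.mul (.c 853) (.w 0 1)) (.mul (.c 171) (.q 0))))) (.add (.mul (.r 2 591 632 2) (.add (.mul (.c 853) (.w 0 1)) (.mul (.c 171) (.q 0)))) (.mul (.r 2 594 632 2) (.mul (.c 2) (.add (.mul (.c 853) (.w 0 1)) (.mul (.c 171) (.q 0)))))))) (.w 0 2)) (.w 2 1))), 79, 4, 1, 3, 1⟩,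
  ⟨(.sub (.sub (.mul (.mul (.c 0) (.w 0 2)) (.w 2 2)) (.mul (.add (.mul (.q 2) (.r 0 4 1 3)) (.mul (.v 2) (.r 0 636 1 3))) (.mul (.s 2 324 632 2) (.c 1)))) (.mul (.mul (.mul (.c 16777216) (.add (.mul (.r 2 590 632 2) (.sub (.c 0) (.mul (.c 12) (.c 1)))) (.add (.mul (.r 2 592 632 2) (.c 1)) (.mul (.r 2 594 632 2) (.sub (.c 0) (.mul (.c 12) (.c 1))))))) (.w 0 2)) (.w 2 1))), 68, 3, 1, 3, 1⟩,
  ⟨(.sub (.sub (.mul (.mul (.c 0) (.w 0 2)) (.w 2 2)) (.mul (.add (.mul (.q 2) (.r 0 4 1 3)) (.mul (.v 2) (.r 0 636 1 3))) (.mul (.s 2 325 632 2) (.c 1)))) (.mul (.mul (.mul (.c 16777216) (.add (.mul (.r 2 591 632 2) (.sub (.c 0) (.mul (.c 12) (.c 1)))) (.add (.mul (.r 2 593 632 2) (.mul (.c 2) (.c 1))) (.mul (.r 2 594 632 2) (.sub (.c 0) (.mul (.c 24) (.c 1))))))) (.w 0 2)) (.w 2 1))), 68, 3, 1, 3, 1⟩,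
  ⟨(.sub (.sub (.mul (.mul (.c 0) (.w 0 2)) (.w 2 2)) (.mul (.add (.mul (.q 2) (.r 0 4 1 3)) (.mul (.v 2) (.r 0 636 1 3))) (.mul (.s 2 326 632 2) (.c 1)))) (.mul (.mul (.mul (.c 16777216) (.add (.mul (.r 2 592 632 2) (.sub (.c 0) (.mul (.c 12) (.c 1)))) (.add (.mul (.r 2 593 632 2) (.sub (.c 0) (.mul (.c 12) (.c 1)))) (.mul (.r 2 594 632 2) (.mul (.c 144) (.c 1)))))) (.w 0 2)) (.w 2 1))), 69, 3, 1, 3, 1⟩,
  ⟨(.sub (.sub (.mul (.mul (.mul (.c 288230376151711744) (.add (.mul (.r 2 295 632 2) (.mul (.c 1) (.add (.mul (.c 853) (.w 0 1)) (.mul (.c 171) (.q 0))))) (.mul (.mul (.c 1024) (.mul (.r 2 296 632 2) (.u 0 [1]))) (.w 0 1)))) (.w 0 5)) (.w 2 2)) (.mul (.add (.mul (.q 2) (.r 0 4 1 3)) (.mul (.v 2) (.r 0 636 1 3))) (.add (.mul (.add (.mul (.q 2) (.r 0 7 1 3)) (.mul (.v 2) (.r 0 639 1 3))) (.add (.mul (.mul (.c 1024) (.mul (.s 2 16 632 2) (.add (.mul (.c 853) (.w 0 1)) (.mul (.c 171) (.q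 0))))) (.w 0 1)) (.mul (.s 2 17 632 2) (.mul (.mul (.c 171) (.v 0)) (.add (.mul (.c 853) (.w 0 1)) (.mul (.c 171) (.q 0))))))) (.mul (.mul (.mul (.c 17179869184) (.mul (.s 2 315 632 2) (.add (.mul (.c 853) (.w 0 1)) (.mul (.c 171) (.q 0))))) (.w 0 3)) (.w 2 1))))) (.mul (.mul (.mul (.c 288230376151711744) (.add (.mul (.r 2 600 632 2) (.mul (.c 2) (.add (.mul (.c 853) (.w 0 1)) (.mul (.c 171) (.q 0))))) (.add (.mul (.r 2 601 632 2) (.add (.mul (.c 853) (.w 0 1)) (.mul (.c 171) (.q 0)))) (.mul (.r 2 604 632 2) (.mul (.c 2) (.add (.mul (.c 853) (.w 0 1)) (.mul (.c 171) (.q 0)))))))) (.w 0 5)) (.w 2 2))), 125, 7, 1, 4, 1⟩,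
  ⟨(.sub (.sub (.mul (.mul (.c 0) (.w 0 5)) (.w 2 3)) (.mul (.add (.mul (.q 2) (.r 0 4 1 3)) (.mul (.v 2) (.r 0 636 1 3))) (.add (.mul (.add (.mul (.q 2) (.r 0 7 1 3)) (.mul (.v 2) (.r 0 639 1 3))) (.mul (.add (.mul (.mul (.c 1024) (.s 2 18 632 2)) (.w 0 1)) (.mul (.mul (.c 171) (.v 0)) (.s 2 21 632 2))) (.c 1))) (.mul (.mul (.mul (.c 17179869184) (.mul (.s 2 316 632 2) (.c 1))) (.w 0 3)) (.w 2 1))))) (.mul (.mul (.mul (.c 288230376151711744) (.add (.mul (.r 2 600 632 2) (.sub (.c 0) (.mul (.c 12) (.c 1)))) (.add (.mul (.r 2 602 632 2) (.c 1)) (.mul (.r 2 604 632 2) (.sub (.c 0) (.mul (.c 12) (.c 1))))))) (.w 0 5)) (.w 2 2))), 114, 6, 1, 4, 1⟩,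
  ⟨(.sub (.sub (.mul (.mul (.c 0) (.w 0 4)) (.w 2 3)) (.mul (.add (.mul (.q 2) (.r 0 4 1 3)) (.mul (.v 2) (.r 0 636 1 3))) (.add (.mul (.add (.mul (.q 2) (.r 0 7 1 3)) (.mul (.v 2) (.r 0 639 1 3))) (.mul (.s 2 19 632 2) (.c 1))) (.mul (.mul (.mul (.c 16777216) (.mul (.s 2 317 632 2) (.c 1))) (.w 0 2)) (.w 2 1))))) (.mul (.mul (.mul (.c 281474976710656) (.add (.mul (.r 2 601 632 2) (.sub (.c 0) (.mul (.c 12) (.c 1)))) (.add (.mul (.r 2 603 632 2) (.mul (.c 2) (.c 1))) (.mul (.r 2 604 632 2) (.sub (.c 0) (.mul (.c 24) (.c 1))))))) (.w 0 4)) (.w 2 2))), 103, 5, 1, 4, 1⟩,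
  ⟨(.sub (.sub (.mul (.mul (.c 0) (.w 0 4)) (.w 2 3)) (.mul (.add (.mul (.q 2) (.r 0 4 1 3)) (.mul (.v 2) (.r 0 636 1 3))) (.add (.mul (.add (.mul (.q 2) (.r 0 7 1 3)) (.mul (.v 2) (.r 0 639 1 3))) (.mul (.s 2 20 632 2) (.c 1))) (.mul (.mul (.mul (.c 16777216) (.mul (.s 2 318 632 2) (.c 1))) (.w 0 2)) (.w 2 1))))) (.mul (.mul (.mul (.c 281474976710656) (.add (.mul (.r 2 602 632 2) (.sub (.c 0) (.mul (.c 12) (.c 1)))) (.add (.mul (.r 2 603 632 2) (.sub (.c 0) (.mul (.c 12) (.c 1)))) (.mul (.r 2 604 632 2) (.mul (.c 144) (.c 1)))))) (.w 0 4)) (.w 2 2))), 103, 5, 1, 4, 1⟩,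
  ⟨(.sub (.add (.mul (.mul (.c 1024) (.mul (.s 2 22 632 2) (.add (.mul (.c 853) (.w 0 1)) (.mul (.c 171) (.q 0))))) (.w 0 1)) (.mul (.s 2 23 632 2) (.mul (.mul (.c 171) (.v 0)) (.add (.mul (.c 853) (.w 0 1)) (.mul (.c 171) (.q 0)))))) (.mul (.mul (.c 1024) (.add (.mul (.r 2 555 632 2) (.mul (.c 2) (.add (.mul (.c 853) (.w 0 1)) (.mul (.c 171) (.q 0))))) (.add (.mul (.r 2 556 632 2) (.add (.mul (.c 853) (.w 0 1)) (.mul (.c 171) (.q 0)))) (.mul (.r 2 559 632 2) (.mul (.c 2) (.add (.mul (.c 853) (.w 0 1)) (.mul (.c 171) (.q 0)))))))) (.w 0 1))), 58, 3, 1, 2, 1⟩,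
  ⟨(.sub (.mul (.add (.mul (.mul (.c 1024) (.s 2 24 632 2)) (.w 0 1)) (.mul (.mul (.c 171) (.v 0)) (.s 2 27 632 2))) (.c 1)) (.mul (.mul (.c 1024) (.add (.mul (.r 2 555 632 2) (.sub (.c 0) (.mul (.c 12) (.c 1)))) (.add (.mul (.r 2 557 632 2) (.c 1)) (.mul (.r 2 559 632 2) (.sub (.c 0) (.mul (.c 12) (.c 1))))))) (.w 0 1))), 49, 2, 1, 2, 1⟩,
  ⟨(.sub (.mul (.s 2 25 632 2) (.c 1)) (.add (.mul (.r 2 556 632 2) (.sub (.c 0) (.mul (.c 12) (.c 1)))) (.add (.mul (.r 2 558 632 2) (.mul (.c 2) (.c 1))) (.mul (.r 2 559 632 2) (.sub (.c 0) (.mul (.c 24) (.c 1))))))), 39, 1, 1, 2, 1⟩,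
  ⟨(.sub (.mul (.s 2 26 632 2) (.c 1)) (.add (.mul (.r 2 557 632 2) (.sub (.c 0) (.mul (.c 12) (.c 1)))) (.add (.mul (.r 2 558 632 2) (.sub (.c 0) (.mul (.c 12) (.c 1)))) (.mul (.r 2 559 632 2) (.mul (.c 144) (.c 1)))))), 41, 1, 1, 2, 1⟩,
  ⟨(.sub (.add (.mul (.mul (.c 1024) (.mul (.s 2 28 632 2) (.add (.mul (.c 853) (.w 0 1)) (.mul (.c 171) (.q 0))))) (.w 0 1)) (.mul (.s 2 29 632 2) (.mul (.mul (.c 171) (.v 0)) (.add (.mul (.c 853) (.w 0 1)) (.mul (.c 171) (.q 0)))))) (.mul (.mul (.c 1024) (.add (.mul (.r 2 565 632 2) (.mul (.c 2) (.add (.mul (.c 853) (.w 0 1)) (.mul (.c 171) (.q 0))))) (.add (.mul (.r 2 566 632 2) (.add (.mul (.c 853) (.w 0 1)) (.mul (.c 171) (.q 0)))) (.mul (.r 2 569 632 2) (.mul (.c 2) (.add (.mul (.c 853) (.w 0 1)) (.mul (.c 171) (.q 0)))))))) (.w 0 1))), 58, 3, 1, 2, 1⟩,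
  ⟨(.sub (.mul (.add (.mul (.mul (.c 1024) (.s 2 30 632 2)) (.w 0 1)) (.mul (.mul (.c 171) (.v 0)) (.s 2 33 632 2))) (.c 1)) (.mul (.mul (.c 1024) (.add (.mul (.r 2 565 632 2) (.sub (.c 0) (.mul (.c 12) (.c 1)))) (.add (.mul (.r 2 567 632 2) (.c 1)) (.mul (.r 2 569 632 2) (.sub (.c 0) (.mul (.c 12) (.c 1))))))) (.w 0 1))), 49, 2, 1, 2, 1⟩,
  ⟨(.sub (.mul (.s 2 31 632 2) (.c 1)) (.add (.mul (.r 2 566 632 2) (.sub (.c 0) (.mul (.c 12) (.c 1)))) (.add (.mul (.r 2 568 632 2) (.mul (.c 2) (.c 1))) (.mul (.r 2 569 632 2) (.sub (.c 0) (.mul (.c 24) (.c 1))))))), 39, 1, 1, 2, 1⟩,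
  ⟨(.sub (.mul (.s 2 32 632 2) (.c 1)) (.add (.mul (.r 2 567 632 2) (.sub (.c 0) (.mul (.c 12) (.c 1)))) (.add (.mul (.r 2 568 632 2) (.sub (.c 0) (.mul (.c 12) (.c 1)))) (.mul (.r 2 569 632 2) (.mul (.c 144) (.c 1)))))), 41, 1, 1, 2, 1⟩,
  ⟨(.sub (.sub (.mul (.mul (.mul (.c 288230376151711744) (.add (.mul (.r 2 285 632 2) (.mul (.c 1) (.add (.mul (.c 853) (.w 0 1)) (.mul (.c 171) (.q 0))))) (.mul (.mul (.c 1024) (.mul (.r 2 286 632 2) (.u 0 [1]))) (.w 0 1)))) (.w 0 5)) (.w 2 2)) (.mul (.add (.mul (.q 2) (.r 0 4 1 3)) (.mul (.v 2) (.r 0 636 1 3))) (.add (.mul (.add (.mul (.q 2) (.r 0 7 1 3)) (.mul (.v 2) (.r 0 639 1 3))) (.add (.mul (.mul (.c 1024) (.mul (.s 2 28 632 2) (.add (.mul (.c 853) (.w 0 1)) (.mul (.c 171) (.q 0))))) (.w 0 1)) (.mul (.s 2 29 632 2) (.mul (.mul (.c 171) (.v 0)) (.add (.mul (.c 853) (.w 0 1)) (.mul (.c 171) (.q 0))))))) (.mul (.mul (.mul (.c 17179869184) (.mul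 (.s 2 303 632 2) (.add (.mul (.c 853) (.w 0 1)) (.mul (.c 171) (.q 0))))) (.w 0 3)) (.w 2 1))))) (.mul (.mul (.mul (.c 288230376151711744) (.add (.mul (.r 2 575 632 2) (.mul (.c 2) (.add (.mul (.c 853) (.w 0 1)) (.mul (.c 171) (.q 0))))) (.add (.mul (.r 2 576 632 2) (.add (.mul (.c 853) (.w 0 1)) (.mul (.c 171) (.q 0)))) (.mul (.r 2 579 632 2) (.mul (.c 2) (.add (.mul (.c 853) (.w 0 1)) (.mul (.c 171) (.q 0)))))))) (.w 0 5)) (.w 2 2))), 125, 7, 1, 4, 1⟩,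
  ⟨(.sub (.sub (.mul (.mul (.c 0) (.w 0 5)) (.w 2 3)) (.mul (.add (.mul (.q 2) (.r 0 4 1 3)) (.mul (.v 2) (.r 0 636 1 3))) (.add (.mul (.add (.mul (.q 2) (.r 0 7 1 3)) (.mul (.v 2) (.r 0 639 1 3))) (.mul (.add (.mul (.mul (.c 1024) (.s 2 30 632 2)) (.w 0 1)) (.mul (.mul (.c 171) (.v 0)) (.s 2 33 632 2))) (.c 1))) (.mul (.mul (.mul (.c 17179869184) (.mul (.s 2 304 632 2) (.c 1))) (.w 0 3)) (.w 2 1))))) (.mul (.mul (.mul (.c 288230376151711744) (.add (.mul (.r 2 575 632 2) (.sub (.c 0) (.mul (.c 12) (.c 1)))) (.add (.mul (.r 2 577 632 2) (.c 1)) (.mul (.r 2 579 632 2) (.sub (.c 0) (.mul (.c 12) (.c 1))))))) (.w 0 5)) (.w 2 2))), 114, 6, 1, 4, 1⟩,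
  ⟨(.sub (.sub (.mul (.mul (.c 0) (.w 0 4)) (.w 2 3)) (.mul (.add (.mul (.q 2) (.r 0 4 1 3)) (.mul (.v 2) (.r 0 636 1 3))) (.add (.mul (.add (.mul (.q 2) (.r 0 7 1 3)) (.mul (.v 2) (.r 0 639 1 3))) (.mul (.s 2 31 632 2) (.c 1))) (.mul (.mul (.mul (.c 16777216) (.mul (.s 2 305 632 2) (.c 1))) (.w 0 2)) (.w 2 1))))) (.mul (.mul (.mul (.c 281474976710656) (.add (.mul (.r 2 576 632 2) (.sub (.c 0) (.mul (.c 12) (.c 1)))) (.add (.mul (.r 2 578 632 2) (.mul (.c 2) (.c 1))) (.mul (.r 2 579 632 2) (.sub (.c 0) (.mul (.c 24) (.c 1))))))) (.w 0 4)) (.w 2 2))), 103, 5, 1, 4, 1⟩,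
  ⟨(.sub (.sub (.mul (.mul (.c 0) (.w 0 4)) (.w 2 3)) (.mul (.add (.mul (.q 2) (.r 0 4 1 3)) (.mul (.v 2) (.r 0 636 1 3))) (.add (.mul (.add (.mul (.q 2) (.r 0 7 1 3)) (.mul (.v 2) (.r 0 639 1 3))) (.mul (.s 2 32 632 2) (.c 1))) (.mul (.mul (.mul (.c 16777216) (.mul (.s 2 306 632 2) (.c 1))) (.w 0 2)) (.w 2 1))))) (.mul (.mul (.mul (.c 281474976710656) (.add (.mul (.r 2 577 632 2) (.sub (.c 0) (.mul (.c 12) (.c 1)))) (.add (.mul (.r 2 578 632 2) (.sub (.c 0) (.mul (.c 12) (.c 1)))) (.mul (.r 2 579 632 2) (.mul (.c 144) (.c 1)))))) (.w 0 4)) (.w 2 2))), 103, 5, 1, 4, 1⟩,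
  ⟨(.sub (.sub (.mul (.mul (.mul (.c 288230376151711744) (.add (.mul (.r 2 289 632 2) (.mul (.c 1) (.add (.mul (.c 853) (.w 0 1)) (.mul (.c 171) (.q 0))))) (.mul (.mul (.c 1024) (.mul (.r 2 290 632 2) (.u 0 [1]))) (.w 0 1)))) (.w 0 5)) (.w 2 2)) (.mul (.add (.mul (.q 2) (.r 0 4 1 3)) (.mul (.v 2) (.r 0 636 1 3))) (.add (.mul (.add (.mul (.q 2) (.r 0 7 1 3)) (.mul (.v 2) (.r 0 639 1 3))) (.add (.mul (.mul (.c 1024) (.mul (.s 2 22 632 2) (.add (.mul (.c 853) (.w 0 1)) (.mul (.c 171) (.q 0))))) (.w 0 1)) (.mul (.s 2 23 632 2) (.mul (.mul (.c 171) (.v 0)) (.add (.mul (.c 853) (.w 0 1)) (.mul (.c 171) (.q 0))))))) (.mul (.mul (.mul (.c 17179869184) (.mul (.s 2 311 632 2) (.add (.mul (.c 853) (.w 0 1)) (.mul (.c 171) (.q 0))))) (.w 0 3)) (.w 2 1))))) (.mul (.mul (.mul (.c 288230376151711744) (.add (.mul (.r 2 585 632 2) (.mul (.c 2) (.add (.mul (.c 853) (.w 0 1)) (.mul (.c 171) (.q 0)))))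 (.add (.mul (.r 2 586 632 2) (.add (.mul (.c 853) (.w 0 1)) (.mul (.c 171) (.q 0)))) (.mul (.r 2 589 632 2) (.mul (.c 2) (.add (.mul (.c 853) (.w 0 1)) (.mul (.c 171) (.q 0)))))))) (.w 0 5)) (.w 2 2))), 125, 7, 1, 4, 1⟩,
  ⟨(.sub (.sub (.mul (.mul (.c 0) (.w 0 5)) (.w 2 3)) (.mul (.add (.mul (.q 2) (.r 0 4 1 3)) (.mul (.v 2) (.r 0 636 1 3))) (.add (.mul (.add (.mul (.q 2) (.r 0 7 1 3)) (.mul (.v 2) (.r 0 639 1 3))) (.mul (.add (.mul (.mul (.c 1024) (.s 2 24 632 2)) (.w 0 1)) (.mul (.mul (.c 171) (.v 0)) (.s 2 27 632 2))) (.c 1))) (.mul (.mul (.mul (.c 17179869184) (.mul (.s 2 312 632 2) (.c 1))) (.w 0 3)) (.w 2 1))))) (.mul (.mul (.mul (.c 288230376151711744) (.add (.mul (.r 2 585 632 2) (.sub (.c 0) (.mul (.c 12) (.c 1)))) (.add (.mul (.r 2 587 632 2) (.c 1)) (.mul (.r 2 589 632 2) (.sub (.c 0) (.mul (.c 12) (.c 1))))))) (.w 0 5)) (.w 2 2))), 114, 6, 1, 4, 1⟩,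
  ⟨(.sub (.sub (.mul (.mul (.c 0) (.w 0 4)) (.w 2 3)) (.mul (.add (.mul (.q 2) (.r 0 4 1 3)) (.mul (.v 2) (.r 0 636 1 3))) (.add (.mul (.add (.mul (.q 2) (.r 0 7 1 3)) (.mul (.v 2) (.r 0 639 1 3))) (.mul (.s 2 25 632 2) (.c 1))) (.mul (.mul (.mul (.c 16777216) (.mul (.s 2 313 632 2) (.c 1))) (.w 0 2)) (.w 2 1))))) (.mul (.mul (.mul (.c 281474976710656) (.add (.mul (.r 2 586 632 2) (.sub (.c 0) (.mul (.c 12) (.c 1)))) (.add (.mul (.r 2 588 632 2) (.mul (.c 2) (.c 1))) (.mul (.r 2 589 632 2) (.sub (.c 0) (.mul (.c 24) (.c 1))))))) (.w 0 4)) (.w 2 2))), 103, 5, 1, 4, 1⟩,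
  ⟨(.sub (.sub (.mul (.mul (.c 0) (.w 0 4)) (.w 2 3)) (.mul (.add (.mul (.q 2) (.r 0 4 1 3)) (.mul (.v 2) (.r 0 636 1 3))) (.add (.mul (.add (.mul (.q 2) (.r 0 7 1 3)) (.mul (.v 2) (.r 0 639 1 3))) (.mul (.s 2 26 632 2) (.c 1))) (.mul (.mul (.mul (.c 16777216) (.mul (.s 2 314 632 2) (.c 1))) (.w 0 2)) (.w 2 1))))) (.mul (.mul (.mul (.c 281474976710656) (.add (.mul (.r 2 587 632 2) (.sub (.c 0) (.mul (.c 12) (.c 1)))) (.add (.mul (.r 2 588 632 2) (.sub (.c 0) (.mul (.c 12) (.c 1)))) (.mul (.r 2 589 632 2) (.mul (.c 144) (.c 1)))))) (.w 0 4)) (.w 2 2))), 103, 5, 1, 4, 1⟩,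
  ⟨(.sub (.sub (.mul (.mul (.mul (.c 16777216) (.add (.mul (.r 2 293 632 2) (.mul (.c 1) (.add (.mul (.c 853) (.w 0 1)) (.mul (.c 171) (.q 0))))) (.mul (.mul (.c 1024) (.mul (.r 2 294 632 2) (.u 0 [1]))) (.w 0 1)))) (.w 0 2)) (.w 2 1)) (.mul (.add (.mul (.q 2) (.r 0 4 1 3)) (.mul (.v 2) (.r 0 636 1 3))) (.mul (.s 2 327 632 2) (.add (.mul (.c 853) (.w 0 1)) (.mul (.c 171) (.q 0)))))) (.mul (.mul (.mul (.c 16777216) (.add (.mul (.r 2 595 632 2) (.mul (.c 2) (.add (.mul (.c 853) (.w 0 1)) (.mul (.c 171) (.q 0))))) (.add (.mul (.r 2 596 632 2) (.add (.mul (.c 853) (.w 0 1)) (.mul (.c 171) (.q 0)))) (.mul (.r 2 599 632 2) (.mul (.c 2) (.add (.mul (.c 853) (.w 0 1)) (.mul (.c 171) (.q 0)))))))) (.w 0 2)) (.w 2 1))), 79, 4, 1, 3, 1⟩,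
  ⟨(.sub (.sub (.mul (.mul (.c 0) (.w 0 2)) (.w 2 2)) (.mul (.add (.mul (.q 2) (.r 0 4 1 3)) (.mul (.v 2) (.r 0 636 1 3))) (.mul (.s 2 328 632 2) (.c 1)))) (.mul (.mul (.mul (.c 16777216) (.add (.mul (.r 2 595 632 2) (.sub (.c 0) (.mul (.c 12) (.c 1)))) (.add (.mul (.r 2 597 632 2) (.c 1)) (.mul (.r 2 599 632 2) (.sub (.c 0) (.mul (.c 12) (.c 1))))))) (.w 0 2)) (.w 2 1))), 68, 3, 1, 3, 1⟩,
  ⟨(.sub (.sub (.mul (.mul (.c 0) (.w 0 2)) (.w 2 2)) (.mul (.add (.mul (.q 2) (.r 0 4 1 3)) (.mul (.v 2) (.r 0 636 1 3))) (.mul (.s 2 329 632 2) (.c 1)))) (.mul (.mul (.mul (.c 16777216) (.add (.mul (.r 2 596 632 2) (.sub (.c 0) (.mul (.c 12) (.c 1)))) (.add (.mul (.r 2 598 632 2) (.mul (.c 2) (.c 1))) (.mul (.r 2 599 632 2) (.sub (.c 0) (.mul (.c 24) (.c 1))))))) (.w 0 2)) (.w 2 1))), 68, 3, 1, 3, 1⟩,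
  ⟨(.sub (.sub (.mul (.mul (.c 0) (.w 0 2)) (.w 2 2)) (.mul (.add (.mul (.q 2) (.r 0 4 1 3)) (.mul (.v 2) (.r 0 636 1 3))) (.mul (.s 2 330 632 2) (.c 1)))) (.mul (.mul (.mul (.c 16777216) (.add (.mul (.r 2 597 632 2) (.sub (.c 0) (.mul (.c 12) (.c 1)))) (.add (.mul (.r 2 598 632 2) (.sub (.c 0) (.mul (.c 12) (.c 1)))) (.mul (.r 2 599 632 2) (.mul (.c 144) (.c 1)))))) (.w 0 2)) (.w 2 1))), 69, 3, 1, 3, 1⟩,
  ⟨(.sub (.sub (.mul (.mul (.mul (.c 288230376151711744) (.add (.mul (.r 2 297 632 2) (.mul (.c 1) (.add (.mul (.c 853) (.w 0 1)) (.mul (.c 171) (.q 0))))) (.mul (.mul (.c 1024) (.mul (.r 2 298 632 2) (.u 0 [1]))) (.w 0 1)))) (.w 0 5)) (.w 2 2)) (.mul (.add (.mul (.q 2) (.r 0 4 1 3)) (.mul (.v 2) (.r 0 636 1 3))) (.add (.mul (.add (.mul (.q 2) (.r 0 7 1 3)) (.mul (.v 2) (.r 0 639 1 3))) (.add (.mul (.mul (.c 1024) (.mul (.s 2 28 632 2) (.add (.mul (.c 853) (.w 0 1)) (.mul (.c 171) (.q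 0))))) (.w 0 1)) (.mul (.s 2 29 632 2) (.mul (.mul (.c 171) (.v 0)) (.add (.mul (.c 853) (.w 0 1)) (.mul (.c 171) (.q 0))))))) (.mul (.mul (.mul (.c 17179869184) (.mul (.s 2 319 632 2) (.add (.mul (.c 853) (.w 0 1)) (.mul (.c 171) (.q 0))))) (.w 0 3)) (.w 2 1))))) (.mul (.mul (.mul (.c 288230376151711744) (.add (.mul (.r 2 605 632 2) (.mul (.c 2) (.add (.mul (.c 853) (.w 0 1)) (.mul (.c 171) (.q 0))))) (.add (.mul (.r 2 606 632 2) (.add (.mul (.c 853) (.w 0 1)) (.mul (.c 171) (.q 0)))) (.mul (.r 2 609 632 2) (.mul (.c 2) (.add (.mul (.c 853) (.w 0 1)) (.mul (.c 171) (.q 0)))))))) (.w 0 5)) (.w 2 2))), 125, 7, 1, 4, 1⟩,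
  ⟨(.sub (.sub (.mul (.mul (.c 0) (.w 0 5)) (.w 2 3)) (.mul (.add (.mul (.q 2) (.r 0 4 1 3)) (.mul (.v 2) (.r 0 636 1 3))) (.add (.mul (.add (.mul (.q 2) (.r 0 7 1 3)) (.mul (.v 2) (.r 0 639 1 3))) (.mul (.add (.mul (.mul (.c 1024) (.s 2 30 632 2)) (.w 0 1)) (.mul (.mul (.c 171) (.v 0)) (.s 2 33 632 2))) (.c 1))) (.mul (.mul (.mul (.c 17179869184) (.mul (.s 2 320 632 2) (.c 1))) (.w 0 3)) (.w 2 1))))) (.mul (.mul (.mul (.c 288230376151711744) (.add (.mul (.r 2 605 632 2) (.sub (.c 0) (.mul (.c 12) (.c 1)))) (.add (.mul (.r 2 607 632 2) (.c 1)) (.mul (.r 2 609 632 2) (.sub (.c 0) (.mul (.c 12) (.c 1))))))) (.w 0 5)) (.w 2 2))), 114, 6, 1, 4, 1⟩,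
  ⟨(.sub (.sub (.mul (.mul (.c 0) (.w 0 4)) (.w 2 3)) (.mul (.add (.mul (.q 2) (.r 0 4 1 3)) (.mul (.v 2) (.r 0 636 1 3))) (.add (.mul (.add (.mul (.q 2) (.r 0 7 1 3)) (.mul (.v 2) (.r 0 639 1 3))) (.mul (.s 2 31 632 2) (.c 1))) (.mul (.mul (.mul (.c 16777216) (.mul (.s 2 321 632 2) (.c 1))) (.w 0 2)) (.w 2 1))))) (.mul (.mul (.mul (.c 281474976710656) (.add (.mul (.r 2 606 632 2) (.sub (.c 0) (.mul (.c 12) (.c 1)))) (.add (.mul (.r 2 608 632 2) (.mul (.c 2) (.c 1))) (.mul (.r 2 609 632 2) (.sub (.c 0) (.mul (.c 24) (.c 1))))))) (.w 0 4)) (.w 2 2))), 103, 5, 1, 4, 1⟩,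
  ⟨(.sub (.sub (.mul (.mul (.c 0) (.w 0 4)) (.w 2 3)) (.mul (.add (.mul (.q 2) (.r 0 4 1 3)) (.mul (.v 2) (.r 0 636 1 3))) (.add (.mul (.add (.mul (.q 2) (.r 0 7 1 3)) (.mul (.v 2) (.r 0 639 1 3))) (.mul (.s 2 32 632 2) (.c 1))) (.mul (.mul (.mul (.c 16777216) (.mul (.s 2 322 632 2) (.c 1))) (.w 0 2)) (.w 2 1))))) (.mul (.mul (.mul (.c 281474976710656) (.add (.mul (.r 2 607 632 2) (.sub (.c 0) (.mul (.c 12) (.c 1)))) (.add (.mul (.r 2 608 632 2) (.sub (.c 0) (.mul (.c 12) (.c 1)))) (.mul (.r 2 609 632 2) (.mul (.c 144) (.c 1)))))) (.w 0 4)) (.w 2 2))), 103, 5, 1, 4, 1⟩,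
  ⟨(.sub (.add (.mul (.q 2) (.r 0 4 1 3)) (.mul (.v 2) (.r 0 636 1 3))) (.mul (.mul (.mul (.c 16777216) (.c 1)) (.w 0 2)) (.w 2 1))), 35, 3, 1, 2, 1⟩,
  ⟨(.sub (.c 1) (.c 1)), 2, 1, 1, 1, 1⟩,
  ⟨(.sub (.c 1) (.c 1)), 2, 1, 1, 1, 1⟩,
  ⟨(.sub (.c 1) (.c 1)), 2, 1, 1, 1, 1⟩,
  ⟨(.sub (.c 1) (.c 1)), 2, 1, 1, 1, 1⟩,
  ⟨(.sub (.c 1) (.c 1)), 2, 1, 1, 1, 1⟩,
  ⟨(.sub (.c 1) (.c 1)), 2, 1, 1, 1, 1⟩,
  ⟨(.sub (.r 0 0 1 1) (.c 1)), 33, 1, 1, 1, 1⟩,
  ⟨(.sub (.mul (.c 33554432) (.s 0 144 1 1)) (.add (.mul (.c 33554432) (.s 0 776 1 1)) (.mul (.c 1) (.mul (.r 0 0 1 1) (.add (.s 0 143 1 1) (.s 0 775 1 1)))))), 66, 1, 1, 1, 1⟩,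
  ⟨(.sub (.s 0 145 1 1) (.s 0 144 1 1)), 34, 1, 1, 1, 1⟩,
  ⟨(.sub (.s 0 777 1 1) (.s 0 776 1 1)), 34, 1, 1, 1, 1⟩,
  ⟨(.sub (.mul (.c 16777216) (.mul (.c 8) (.sub (.s 0 145 1 1) (.s 0 144 1 1)))) (.mul (.r 0 0 1 1) (.sub (.s 0 775 1 1) (.s 0 143 1 1)))), 66, 1, 1, 1, 1⟩,
  ⟨(.sub (.mul (.c 16777216) (.mul (.c 8) (.sub (.s 0 777 1 1) (.s 0 776 1 1)))) (.mul (.r 0 0 1 1) (.sub (.s 0 775 1 1) (.s 0 143 1 1)))), 66, 1, 1, 1, 1⟩,
  ⟨(.sub (.mul (.c 33554432) (.s 0 147 1 1)) (.add (.mul (.c 33554432) (.s 0 779 1 1)) (.mul (.c 1) (.mul (.r 0 0 1 1) (.add (.s 0 146 1 1) (.s 0 778 1 1)))))), 66, 1, 1, 1, 1⟩,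
  ⟨(.sub (.s 0 148 1 1) (.s 0 147 1 1)), 34, 1, 1, 1, 1⟩,
  ⟨(.sub (.s 0 780 1 1) (.s 0 779 1 1)), 34, 1, 1, 1, 1⟩,
  ⟨(.sub (.mul (.c 16777216) (.mul (.c 8) (.sub (.s 0 148 1 1) (.s 0 147 1 1)))) (.mul (.r 0 0 1 1) (.sub (.s 0 778 1 1) (.s 0 146 1 1)))), 66, 1, 1, 1, 1⟩,
  ⟨(.sub (.mul (.c 16777216) (.mul (.c 8) (.sub (.s 0 780 1 1) (.s 0 779 1 1)))) (.mul (.r 0 0 1 1) (.sub (.s 0 778 1 1) (.s 0 146 1 1)))), 66, 1, 1, 1, 1⟩,
  ⟨(.sub (.mul (.c 33554432) (.s 0 150 1 1)) (.add (.mul (.c 33554432) (.s 0 782 1 1)) (.mul (.c 1) (.mul (.r 0 0 1 1) (.add (.s 0 149 1 1) (.s 0 781 1 1)))))), 66, 1, 1, 1, 1⟩,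
  ⟨(.sub (.s 0 151 1 1) (.s 0 150 1 1)), 34, 1, 1, 1, 1⟩,
  ⟨(.sub (.s 0 783 1 1) (.s 0 782 1 1)), 34, 1, 1, 1, 1⟩,
  ⟨(.sub (.mul (.c 16777216) (.mul (.c 8) (.sub (.s 0 151 1 1) (.s 0 150 1 1)))) (.mul (.r 0 0 1 1) (.sub (.s 0 781 1 1) (.s 0 149 1 1)))), 66, 1, 1, 1, 1⟩,
  ⟨(.sub (.mul (.c 16777216) (.mul (.c 8) (.sub (.s 0 783 1 1) (.s 0 782 1 1)))) (.mul (.r 0 0 1 1) (.sub (.s 0 781 1 1) (.s 0 149 1 1)))), 66, 1, 1, 1, 1⟩,
  ⟨(.sub (.mul (.c 33554432) (.s 0 153 1 1)) (.add (.mul (.c 33554432) (.s 0 785 1 1)) (.mul (.c 1) (.mul (.r 0 0 1 1) (.add (.s 0 152 1 1) (.s 0 784 1 1)))))), 66, 1, 1, 1, 1⟩,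
  ⟨(.sub (.s 0 154 1 1) (.s 0 153 1 1)), 34, 1, 1, 1, 1⟩,
  ⟨(.sub (.s 0 786 1 1) (.s 0 785 1 1)), 34, 1, 1, 1, 1⟩,
  ⟨(.sub (.mul (.c 16777216) (.mul (.c 8) (.sub (.s 0 154 1 1) (.s 0 153 1 1)))) (.mul (.r 0 0 1 1) (.sub (.s 0 784 1 1) (.s 0 152 1 1)))), 66, 1, 1, 1, 1⟩,
  ⟨(.sub (.mul (.c 16777216) (.mul (.c 8) (.sub (.s 0 786 1 1) (.s 0 785 1 1)))) (.mul (.r 0 0 1 1) (.sub (.s 0 784 1 1) (.s 0 152 1 1)))), 66, 1, 1, 1, 1⟩,
  ⟨(.sub (.mul (.c 33554432) (.s 0 156 1 1)) (.add (.mul (.c 33554432) (.s 0 788 1 1)) (.mul (.c 1) (.mul (.r 0 0 1 1) (.add (.s 0 155 1 1) (.s 0 787 1 1)))))), 66, 1, 1, 1, 1⟩,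
  ⟨(.sub (.s 0 157 1 1) (.s 0 156 1 1)), 34, 1, 1, 1, 1⟩,
  ⟨(.sub (.s 0 789 1 1) (.s 0 788 1 1)), 34, 1, 1, 1, 1⟩,
  ⟨(.sub (.mul (.c 16777216) (.mul (.c 8) (.sub (.s 0 157 1 1) (.s 0 156 1 1)))) (.mul (.r 0 0 1 1) (.sub (.s 0 787 1 1) (.s 0 155 1 1)))), 66, 1, 1, 1, 1⟩,
  ⟨(.sub (.mul (.c 16777216) (.mul (.c 8) (.sub (.s 0 789 1 1) (.s 0 788 1 1)))) (.mul (.r 0 0 1 1) (.sub (.s 0 787 1 1) (.s 0 155 1 1)))), 66, 1, 1, 1, 1⟩,
  ⟨(.sub (.mul (.c 33554432) (.s 0 159 1 1)) (.add (.mul (.c 33554432) (.s 0 791 1 1)) (.mul (.c 1) (.mul (.r 0 0 1 1) (.add (.s 0 158 1 1) (.s 0 790 1 1)))))), 66, 1, 1, 1, 1⟩,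
  ⟨(.sub (.s 0 160 1 1) (.s 0 159 1 1)), 34, 1, 1, 1, 1⟩,
  ⟨(.sub (.s 0 792 1 1) (.s 0 791 1 1)), 34, 1, 1, 1, 1⟩,
  ⟨(.sub (.mul (.c 16777216) (.mul (.c 8) (.sub (.s 0 160 1 1) (.s 0 159 1 1)))) (.mul (.r 0 0 1 1) (.sub (.s 0 790 1 1) (.s 0 158 1 1)))), 66, 1, 1, 1, 1⟩,
  ⟨(.sub (.mul (.c 16777216) (.mul (.c 8) (.sub (.s 0 792 1 1) (.s 0 791 1 1)))) (.mul (.r 0 0 1 1) (.sub (.s 0 790 1 1) (.s 0 158 1 1)))), 66, 1, 1, 1, 1⟩,
  ⟨(.sub (.mul (.c 33554432) (.s 0 162 1 1)) (.add (.mul (.c 33554432) (.s 0 794 1 1)) (.mul (.c 1) (.mul (.r 0 0 1 1) (.add (.s 0 161 1 1) (.s 0 793 1 1)))))), 66, 1, 1, 1, 1⟩,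
  ⟨(.sub (.s 0 163 1 1) (.s 0 162 1 1)), 34, 1, 1, 1, 1⟩,
  ⟨(.sub (.s 0 795 1 1) (.s 0 794 1 1)), 34, 1, 1, 1, 1⟩,
  ⟨(.sub (.mul (.c 16777216) (.mul (.c 8) (.sub (.s 0 163 1 1) (.s 0 162 1 1)))) (.mul (.r 0 0 1 1) (.sub (.s 0 793 1 1) (.s 0 161 1 1)))), 66, 1, 1, 1, 1⟩,
  ⟨(.sub (.mul (.c 16777216) (.mul (.c 8) (.sub (.s 0 795 1 1) (.s 0 794 1 1)))) (.mul (.r 0 0 1 1) (.sub (.s 0 793 1 1) (.s 0 161 1 1)))), 66, 1, 1, 1, 1⟩,
  ⟨(.sub (.mul (.c 33554432) (.s 0 165 1 1)) (.add (.mul (.c 33554432) (.s 0 797 1 1)) (.mul (.c 1) (.mul (.r 0 0 1 1) (.add (.s 0 164 1 1) (.s 0 796 1 1)))))), 66, 1, 1, 1, 1⟩,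
  ⟨(.sub (.s 0 166 1 1) (.s 0 165 1 1)), 34, 1, 1, 1, 1⟩,
  ⟨(.sub (.s 0 798 1 1) (.s 0 797 1 1)), 34, 1, 1, 1, 1⟩,
  ⟨(.sub (.mul (.c 16777216) (.mul (.c 8) (.sub (.s 0 166 1 1) (.s 0 165 1 1)))) (.mul (.r 0 0 1 1) (.sub (.s 0 796 1 1) (.s 0 164 1 1)))), 66, 1, 1, 1, 1⟩,
  ⟨(.sub (.mul (.c 16777216) (.mul (.c 8) (.sub (.s 0 798 1 1) (.s 0 797 1 1)))) (.mul (.r 0 0 1 1) (.sub (.s 0 796 1 1) (.s 0 164 1 1)))), 66, 1, 1, 1, 1⟩,
  ⟨(.sub (.mul (.c 33554432) (.s 0 168 1 1)) (.add (.mul (.c 33554432) (.s 0 800 1 1)) (.mul (.c 1) (.mul (.r 0 0 1 1) (.add (.s 0 167 1 1) (.s 0 799 1 1)))))), 66, 1, 1, 1, 1⟩,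
  ⟨(.sub (.s 0 169 1 1) (.s 0 168 1 1)), 34, 1, 1, 1, 1⟩,
  ⟨(.sub (.s 0 801 1 1) (.s 0 800 1 1)), 34, 1, 1, 1, 1⟩,
  ⟨(.sub (.mul (.c 16777216) (.mul (.c 8) (.sub (.s 0 169 1 1) (.s 0 168 1 1)))) (.mul (.r 0 0 1 1) (.sub (.s 0 799 1 1) (.s 0 167 1 1)))), 66, 1, 1, 1, 1⟩,
  ⟨(.sub (.mul (.c 16777216) (.mul (.c 8) (.sub (.s 0 801 1 1) (.s 0 800 1 1)))) (.mul (.r 0 0 1 1) (.sub (.s 0 799 1 1) (.s 0 167 1 1)))), 66, 1, 1, 1, 1⟩,
  ⟨(.sub (.mul (.c 33554432) (.s 0 171 1 1)) (.add (.mul (.c 33554432) (.s 0 803 1 1)) (.mul (.c 1) (.mul (.r 0 0 1 1) (.add (.s 0 170 1 1) (.s 0 802 1 1)))))), 66, 1, 1, 1, 1⟩,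
  ⟨(.sub (.s 0 172 1 1) (.s 0 171 1 1)), 34, 1, 1, 1, 1⟩,
  ⟨(.sub (.s 0 804 1 1) (.s 0 803 1 1)), 34, 1, 1, 1, 1⟩,
  ⟨(.sub (.mul (.c 16777216) (.mul (.c 8) (.sub (.s 0 172 1 1) (.s 0 171 1 1)))) (.mul (.r 0 0 1 1) (.sub (.s 0 802 1 1) (.s 0 170 1 1)))), 66, 1, 1, 1, 1⟩,
  ⟨(.sub (.mul (.c 16777216) (.mul (.c 8) (.sub (.s 0 804 1 1) (.s 0 803 1 1)))) (.mul (.r 0 0 1 1) (.sub (.s 0 802 1 1) (.s 0 170 1 1)))), 66, 1, 1, 1, 1⟩,
  ⟨(.sub (.mul (.c 33554432) (.s 0 174 1 1)) (.add (.mul (.c 33554432) (.s 0 806 1 1)) (.mul (.c 1) (.mul (.r 0 0 1 1) (.add (.s 0 173 1 1) (.s 0 805 1 1)))))), 66, 1, 1, 1, 1⟩,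
  ⟨(.sub (.s 0 175 1 1) (.s 0 174 1 1)), 34, 1, 1, 1, 1⟩,
  ⟨(.sub (.s 0 807 1 1) (.s 0 806 1 1)), 34, 1, 1, 1, 1⟩,
  ⟨(.sub (.mul (.c 16777216) (.mul (.c 8) (.sub (.s 0 175 1 1) (.s 0 174 1 1)))) (.mul (.r 0 0 1 1) (.sub (.s 0 805 1 1) (.s 0 173 1 1)))), 66, 1, 1, 1, 1⟩,
  ⟨(.sub (.mul (.c 16777216) (.mul (.c 8) (.sub (.s 0 807 1 1) (.s 0 806 1 1)))) (.mul (.r 0 0 1 1) (.sub (.s 0 805 1 1) (.s 0 173 1 1)))), 66, 1, 1, 1, 1⟩,
  ⟨(.sub (.mul (.c 33554432) (.s 0 177 1 1)) (.add (.mul (.c 33554432) (.s 0 809 1 1)) (.mul (.c 1) (.mul (.r 0 0 1 1) (.add (.s 0 176 1 1) (.s 0 808 1 1)))))), 66, 1, 1, 1, 1⟩,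
  ⟨(.sub (.s 0 178 1 1) (.s 0 177 1 1)), 34, 1, 1, 1, 1⟩,
  ⟨(.sub (.s 0 810 1 1) (.s 0 809 1 1)), 34, 1, 1, 1, 1⟩,
  ⟨(.sub (.mul (.c 16777216) (.mul (.c 8) (.sub (.s 0 178 1 1) (.s 0 177 1 1)))) (.mul (.r 0 0 1 1) (.sub (.s 0 808 1 1) (.s 0 176 1 1)))), 66, 1, 1, 1, 1⟩,
  ⟨(.sub (.mul (.c 16777216) (.mul (.c 8) (.sub (.s 0 810 1 1) (.s 0 809 1 1)))) (.mul (.r 0 0 1 1) (.sub (.s 0 808 1 1) (.s 0 176 1 1)))), 66, 1, 1, 1, 1⟩,
  ⟨(.sub (.add (.mul (.q 2) (.r 0 4 1 3)) (.mul (.v 2) (.r 0 636 1 3))) (.mul (.mul (.mul (.c 16777216) (.c 1)) (.w 0 2)) (.w 2 1))), 35, 3, 1, 2, 1⟩,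
  ⟨(.sub (.r 0 0 1 1) (.c 1)), 33, 1, 1, 1, 1⟩,
  ⟨(.sub (.mul (.c 33554432) (.s 0 348 1 1)) (.add (.mul (.c 33554432) (.s 0 980 1 1)) (.mul (.c 1) (.mul (.r 0 0 1 1) (.add (.s 0 347 1 1) (.s 0 979 1 1)))))), 66, 1, 1, 1, 1⟩,
  ⟨(.sub (.s 0 349 1 1) (.s 0 348 1 1)), 34, 1, 1, 1, 1⟩,
  ⟨(.sub (.s 0 981 1 1) (.s 0 980 1 1)), 34, 1, 1, 1, 1⟩,
  ⟨(.sub (.mul (.c 16777216) (.mul (.c 8) (.sub (.s 0 349 1 1) (.s 0 348 1 1)))) (.mul (.r 0 0 1 1) (.sub (.s 0 979 1 1) (.s 0 347 1 1)))), 66, 1, 1, 1, 1⟩,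
  ⟨(.sub (.mul (.c 16777216) (.mul (.c 8) (.sub (.s 0 981 1 1) (.s 0 980 1 1)))) (.mul (.r 0 0 1 1) (.sub (.s 0 979 1 1) (.s 0 347 1 1)))), 66, 1, 1, 1, 1⟩,
  ⟨(.sub (.mul (.c 33554432) (.s 0 351 1 1)) (.add (.mul (.c 33554432) (.s 0 983 1 1)) (.mul (.c 1) (.mul (.r 0 0 1 1) (.add (.s 0 350 1 1) (.s 0 982 1 1)))))), 66, 1, 1, 1, 1⟩,
  ⟨(.sub (.s 0 352 1 1) (.s 0 351 1 1)), 34, 1, 1, 1, 1⟩,
  ⟨(.sub (.s 0 984 1 1) (.s 0 983 1 1)), 34, 1, 1, 1, 1⟩,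
  ⟨(.sub (.mul (.c 16777216) (.mul (.c 8) (.sub (.s 0 352 1 1) (.s 0 351 1 1)))) (.mul (.r 0 0 1 1) (.sub (.s 0 982 1 1) (.s 0 350 1 1)))), 66, 1, 1, 1, 1⟩,
  ⟨(.sub (.mul (.c 16777216) (.mul (.c 8) (.sub (.s 0 984 1 1) (.s 0 983 1 1)))) (.mul (.r 0 0 1 1) (.sub (.s 0 982 1 1) (.s 0 350 1 1)))), 66, 1, 1, 1, 1⟩,
  ⟨(.sub (.mul (.c 33554432) (.s 0 354 1 1)) (.add (.mul (.c 33554432) (.s 0 986 1 1)) (.mul (.c 1) (.mul (.r 0 0 1 1) (.add (.s 0 353 1 1) (.s 0 985 1 1)))))), 66, 1, 1, 1, 1⟩,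
  ⟨(.sub (.s 0 355 1 1) (.s 0 354 1 1)), 34, 1, 1, 1, 1⟩,
  ⟨(.sub (.s 0 987 1 1) (.s 0 986 1 1)), 34, 1, 1, 1, 1⟩,
  ⟨(.sub (.mul (.c 16777216) (.mul (.c 8) (.sub (.s 0 355 1 1) (.s 0 354 1 1)))) (.mul (.r 0 0 1 1) (.sub (.s 0 985 1 1) (.s 0 353 1 1)))), 66, 1, 1, 1, 1⟩]

noncomputable def f1 : List Tc :=
 [⟨fun A S X L P R M N m a b c d e f g h D => (A (L (X (A (A (L (R D 3200) 4294967295) (X c (L (R D 23424) 4294967295))) (S M (L (X 2147483648 (A 1 (X c 1))) N))) 1) N) (S M (L (A (L (X (A (L (R D 8064) 4294967295) (X c (L (R D 28288) 4294967295))) (A 0 (S M (L (L (X 12 1) N) N)))) N) (A (L (X (A (L (R D 8128) 4294967295) (X c (L (R D 28352) 4294967295))) (L (X 2 1) N)) N) (L (X (A (L (R D 8160) 4294967295) (X c (L (R D 28384) 4294967295))) (A 0 (S M (L (L (X 24 1) N) N)))) N))) N))), 39, 1, 1, 2, 1⟩,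
  ⟨fun A S X L P R M N m a b c d e f g h D => (A (L (X (A (A (L (R D 3232) 4294967295) (X c (L (R D 23456) 4294967295))) (S M (L (X 2147483648 (A 1 (X c 1))) N))) 1) N) (S M (L (A (L (X (A (L (R D 8096) 4294967295) (X c (L (R D 28320) 4294967295))) (A 0 (S M (L (L (X 12 1) N) N)))) N) (A (L (X (A (L (R D 8128) 4294967295) (X c (L (R D 28352) 4294967295))) (A 0 (S M (L (L (X 12 1) N) N)))) N) (L (X (A (L (R D 8160) 4294967295) (X c (L (R D 28384) 4294967295))) (L (X 144 1) N)) N))) N))), 41, 1, 1, 2, 1⟩,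
  ⟨fun A S X L P R M N m a b c d e f g h D => (A (A (L (X (L (X 1024 (L (X (A (A (L (R D 3488) 4294967295) (X c (L (R D 23712) 4294967295))) (S M (L (X 2147483648 (A 1 (X c 1))) N))) (A (L (X 853 e) N) (L (X 171 1) N))) N)) N) e) N) (L (X (A (A (L (R D 3520) 4294967295) (X c (L (R D 23744) 4294967295))) (S M (L (X 2147483648 (A 1 (X c 1))) N))) (L (X (L (X 171 a) N) (A (L (X 853 e) N) (L (X 171 1) N))) N)) N)) (S M (L (L (X (L (X 1024 (A (L (X (A (L (R D 8192) 4294967295) (X c (L (R D 28416) 4294967295))) (L (X 2 (A (L (X 853 e) N) (L (X 171 1) N))) N)) N) (A (L (X (A (L (R D 8224) 4294967295) (X c (L (R D 28448) 4294967295))) (A (L (X 853 e) N) (L (X 171 1) N))) N) (L (X (A (L (R D 8320) 4294967295) (X c (L (R D 28544) 4294967295))) (L (X 2 (A (L (X 853 e) N) (L (X 171 1) N))) N)) N)))) N) e) N) N))), 58, 3, 1, 2, 1⟩,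
  ⟨fun A S X L P R M N m a b c d e f g h D => (A (L (X (A (L (X (L (X 1024 (A (A (L (R D 3552) 4294967295) (X c (L (R D 23776) 4294967295))) (S M (L (X 2147483648 (A 1 (X c 1))) N)))) N) e) N) (L (X (L (X 171 a) N) (A (A (L (R D 3648) 4294967295) (X c (L (R D 23872) 4294967295))) (S M (L (X 2147483648 (A 1 (X c 1))) N)))) N)) 1) N) (S M (L (L (X (L (X 1024 (A (L (X (A (L (R D 8192) 4294967295) (X c (L (R D 28416) 4294967295))) (A 0 (S M (L (L (X 12 1) N) N)))) N) (A (L (X (A (L (R D 8256) 4294967295) (X c (L (R D 28480) 4294967295))) 1) N) (L (X (A (L (R D 8320) 4294967295) (X c (L (R D 28544) 4294967295))) (A 0 (S M (L (L (X 12 1) N) N)))) N)))) N) e) N) N))), 49, 2, 1, 2, 1⟩,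
  ⟨fun A S X L P R M N m a b c d e f g h D => (A (L (X (A (A (L (R D 3584) 4294967295) (X c (L (R D 23808) 4294967295))) (S M (L (X 2147483648 (A 1 (X c 1))) N))) 1) N) (S M (L (A (L (X (A (L (R D 8224) 4294967295) (X c (L (R D 28448) 4294967295))) (A 0 (S M (L (L (X 12 1) N) N)))) N) (A (L (X (A (L (R D 8288) 4294967295) (X c (L (R D 28512) 4294967295))) (L (X 2 1) N)) N) (L (X (A (L (R D 8320) 4294967295) (X c (L (R D 28544) 4294967295))) (A 0 (S M (L (L (X 24 1) N) N)))) N))) N))), 39, 1, 1, 2, 1⟩,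
  ⟨fun A S X L P R M N m a b c d e f g h D => (A (L (X (A (A (L (R D 3616) 4294967295) (X c (L (R D 23840) 4294967295))) (S M (L (X 2147483648 (A 1 (X c 1))) N))) 1) N) (S M (L (A (L (X (A (L (R D 8256) 4294967295) (X c (L (R D 28480) 4294967295))) (A 0 (S M (L (L (X 12 1) N) N)))) N) (A (L (X (A (L (R D 8288) 4294967295) (X c (L (R D 28512) 4294967295))) (A 0 (S M (L (L (X 12 1) N) N)))) N) (L (X (A (L (R D 8320) 4294967295) (X c (L (R D 28544) 4294967295))) (L (X 144 1) N)) N))) N))), 41, 1, 1, 2, 1⟩,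
  ⟨fun A S X L P R M N m a b c d e f g h D => (A (A (L (X (L (X (L (X 288230376151711744 (A (L (X (A (L (R D 3680) 4294967295) (X c (L (R D 23904) 4294967295))) (L (X 1 (A (L (X 853 e) N) (L (X 171 1) N))) N)) N) (L (X (L (X 1024 (L (X (A (L (R D 3712) 4294967295) (X c (L (R D 23936) 4294967295))) 1) N)) N) e) N))) N) (P e 5)) N) (P g 2)) N) (S M (L (L (X (A (L (X 1 (A (L (R D 128) 4294967295) (X a (A (L (R D 160) 4294967295) (X a (L (R D 192) 4294967295)))))) N) (L (X c (A (L (R D 20352) 4294967295) (X a (A (L (R D 20384) 4294967295) (X a (L (R D 20416) 4294967295)))))) N)) (A (L (X (A (L (X 1 (A (L (R D 224) 4294967295) (X a (A (L (R D 256) 4294967295) (X a (L (R D 288) 4294967295)))))) N) (L (X c (A (L (R D 20448) 4294967295) (X a (A (L (R D 20480) 4294967295) (X a (L (R D 20512) 4294967295)))))) N)) (A (L (X (L (X 1024 (L (X (A (A (L (R D 3104) 4294967295) (X c (L (R D 23328) 4294967295)))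 (S M (L (X 2147483648 (A 1 (X c 1))) N))) (A (L (X 853 e) N) (L (X 171 1) N))) N)) N) e) N) (L (X (A (A (L (R D 3136) 4294967295) (X c (L (R D 23360) 4294967295))) (S M (L (X 2147483648 (A 1 (X c 1))) N))) (L (X (L (X 171 a) N) (A (L (X 853 e) N) (L (X 171 1) N))) N)) N))) N) (L (X (L (X (L (X 17179869184 (L (X (A (A (L (R D 4064) 4294967295) (X c (L (R D 24288) 4294967295))) (S M (L (X 2147483648 (A 1 (X c 1))) N))) (A (L (X 853 e) N) (L (X 171 1) N))) N)) N) (P e 3)) N) g) N))) N) N))) (S M (L (L (X (L (X (L (X 288230376151711744 (A (L (X (A (L (R D 8352) 4294967295) (X c (L (R D 28576) 4294967295))) (L (X 2 (A (L (X 853 e) N) (L (X 171 1) N))) N)) N) (A (L (X (A (L (R D 8384) 4294967295) (X c (L (R D 28608) 4294967295))) (A (L (X 853 e) N) (L (X 171 1) N))) N) (L (X (A (L (R D 8480) 4294967295) (X c (L (R D 28704) 4294967295))) (L (X 2 (A (L (X 853 e) N) (L (X 171 1) N))) N)) N))))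 N) (P e 5)) N) (P g 2)) N) N))), 125, 7, 1, 4, 1⟩,
  ⟨fun A S X L P R M N m a b c d e f g h D => (A (A (L (X (L (X 0 (P e 5)) N) (P g 3)) N) (S M (L (L (X (A (L (X 1 (A (L (R D 128) 4294967295) (X a (A (L (R D 160) 4294967295) (X a (L (R D 192) 4294967295)))))) N) (L (X c (A (L (R D 20352) 4294967295) (X a (A (L (R D 20384) 4294967295) (X a (L (R D 20416) 4294967295)))))) N)) (A (L (X (A (L (X 1 (A (L (R D 224) 4294967295) (X a (A (L (R D 256) 4294967295) (X a (L (R D 288) 4294967295)))))) N) (L (X c (A (L (R D 20448) 4294967295) (X a (A (L (R D 20480) 4294967295) (X a (L (R D 20512) 4294967295)))))) N)) (L (X (A (L (X (L (X 1024 (A (A (L (R D 3168) 4294967295) (X c (L (R D 23392) 4294967295))) (S M (L (X 2147483648 (A 1 (X c 1))) N)))) N) e) N) (L (X (L (X 171 a) N) (A (A (L (R D 3264) 4294967295) (X c (L (R D 23488) 4294967295))) (S M (L (X 2147483648 (A 1 (X c 1))) N)))) N)) 1) N))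 N) (L (X (L (X (L (X 17179869184 (L (X (A (A (L (R D 4096) 4294967295) (X c (L (R D 24320) 4294967295))) (S M (L (X 2147483648 (A 1 (X c 1))) N))) 1) N)) N) (P e 3)) N) g) N))) N) N))) (S M (L (L (X (L (X (L (X 288230376151711744 (A (L (X (A (L (R D 8352) 4294967295) (X c (L (R D 28576) 4294967295))) (A 0 (S M (L (L (X 12 1) N) N)))) N) (A (L (X (A (L (R D 8416) 4294967295) (X c (L (R D 28640) 4294967295))) 1) N) (L (X (A (L (R D 8480) 4294967295) (X c (L (R D 28704) 4294967295))) (A 0 (S M (L (L (X 12 1) N) N)))) N)))) N) (P e 5)) N) (P g 2)) N) N))), 114, 6, 1, 4, 1⟩,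
  ⟨fun A S X L P R M N m a b c d e f g h D => (A (A (L (X (L (X 0 (P e 4)) N) (P g 3)) N) (S M (L (L (X (A (L (X 1 (A (L (R D 128) 4294967295) (X a (A (L (R D 160) 4294967295) (X a (L (R D 192) 4294967295)))))) N) (L (X c (A (L (R D 20352) 4294967295) (X a (A (L (R D 20384) 4294967295) (X a (L (R D 20416) 4294967295)))))) N)) (A (L (X (A (L (X 1 (A (L (R D 224) 4294967295) (X a (A (L (R D 256) 4294967295) (X a (L (R D 288) 4294967295)))))) N) (L (X c (A (L (R D 20448) 4294967295) (X a (A (L (R D 20480) 4294967295) (X a (L (R D 20512) 4294967295)))))) N)) (L (X (A (A (L (R D 3200) 4294967295) (X c (L (R D 23424) 4294967295))) (S M (L (X 2147483648 (A 1 (X c 1))) N))) 1) N)) N) (L (X (L (X (L (X 16777216 (L (X (A (A (L (R D 4128) 4294967295) (X c (L (R D 24352) 4294967295))) (S M (L (X 2147483648 (A 1 (X c 1))) N))) 1) N)) N) (P e 2)) N) g) N))) N) N))) (S M (L (L (X (L (X (L (X 281474976710656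 (A (L (X (A (L (R D 8384) 4294967295) (X c (L (R D 28608) 4294967295))) (A 0 (S M (L (L (X 12 1) N) N)))) N) (A (L (X (A (L (R D 8448) 4294967295) (X c (L (R D 28672) 4294967295))) (L (X 2 1) N)) N) (L (X (A (L (R D 8480) 4294967295) (X c (L (R D 28704) 4294967295))) (A 0 (S M (L (L (X 24 1) N) N)))) N)))) N) (P e 4)) N) (P g 2)) N) N))), 103, 5, 1, 4, 1⟩,
  ⟨fun A S X L P R M N m a b c d e f g h D => (A (A (L (X (L (X 0 (P e 4)) N) (P g 3)) N) (S M (L (L (X (A (L (X 1 (A (L (R D 128) 4294967295) (X a (A (L (R D 160) 4294967295) (X a (L (R D 192) 4294967295)))))) N) (L (X c (A (L (R D 20352) 4294967295) (X a (A (L (R D 20384) 4294967295) (X a (L (R D 20416) 4294967295)))))) N)) (A (L (X (A (L (X 1 (A (L (R D 224) 4294967295) (X a (A (L (R D 256) 4294967295) (X a (L (R D 288) 4294967295)))))) N) (L (X c (A (L (R D 20448) 4294967295) (X a (A (L (R D 20480) 4294967295) (X a (L (R D 20512)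 4294967295)))))) N)) (L (X (A (A (L (R D 3232) 4294967295) (X c (L (R D 23456) 4294967295))) (S M (L (X 2147483648 (A 1 (X c 1))) N))) 1) N)) N) (L (X (L (X (L (X 16777216 (L (X (A (A (L (R D 4160) 4294967295) (X c (L (R D 24384) 4294967295))) (S M (L (X 2147483648 (A 1 (X c 1))) N))) 1) N)) N) (P e 2)) N) g) N))) N) N))) (S M (L (L (X (L (X (L (X 281474976710656 (A (L (X (A (L (R D 8416) 4294967295) (X c (L (R D 28640) 4294967295))) (A 0 (S M (L (L (X 12 1) N) N)))) N) (A (L (X (A (L (R D 8448) 4294967295) (X c (L (R D 28672) 4294967295))) (A 0 (S M (L (L (X 12 1) N) N)))) N) (L (X (A (L (R D 8480) 4294967295) (X c (L (R D 28704) 4294967295))) (L (X 144 1) N)) N)))) N) (P e 4)) N) (P g 2)) N) N))), 103, 5, 1, 4, 1⟩,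
  ⟨fun A S X L P R M N m a b c d e f g h D => (A (A (L (X (L (X (L (X 288230376151711744 (A (L (X (A (L (R D 3744) 4294967295) (X c (L (R D 23968) 4294967295))) (L (X 1 (A (L (X 853 e) N) (L (X 171 1) N))) N)) N) (L (X (L (X 1024 (L (X (A (L (R D 3776) 4294967295) (X c (L (R D 24000) 4294967295))) 1) N)) N) e) N))) N) (P e 5)) N) (P g 2)) N) (S M (L (L (X (A (L (X 1 (A (L (R D 128) 4294967295) (X a (A (L (R D 160) 4294967295) (X a (L (R D 192) 4294967295)))))) N) (L (X c (A (L (R D 20352) 4294967295) (X a (A (L (R D 20384) 4294967295) (X a (L (R D 20416) 4294967295)))))) N)) (A (L (X (A (L (X 1 (A (L (R D 224) 4294967295) (X a (A (L (R D 256) 4294967295) (X a (L (R D 288) 4294967295)))))) N) (L (X c (A (L (R D 20448) 4294967295) (X a (A (L (R D 20480) 4294967295) (X a (L (R D 20512) 4294967295)))))) N)) (A (L (X (L (X 1024 (L (X (A (A (L (R D 3488) 4294967295) (X c (L (R D 23712) 4294967295)))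 (S M (L (X 2147483648 (A 1 (X c 1))) N))) (A (L (X 853 e) N) (L (X 171 1) N))) N)) N) e) N) (L (X (A (A (L (R D 3520) 4294967295) (X c (L (R D 23744) 4294967295))) (S M (L (X 2147483648 (A 1 (X c 1))) N))) (L (X (L (X 171 a) N) (A (L (X 853 e) N) (L (X 171 1) N))) N)) N))) N) (L (X (L (X (L (X 17179869184 (L (X (A (A (L (R D 4192) 4294967295) (X c (L (R D 24416) 4294967295))) (S M (L (X 2147483648 (A 1 (X c 1))) N))) (A (L (X 853 e) N) (L (X 171 1) N))) N)) N) (P e 3)) N) g) N))) N) N))) (S M (L (L (X (L (X (L (X 288230376151711744 (A (L (X (A (L (R D 8512) 4294967295) (X c (L (R D 28736) 4294967295))) (L (X 2 (A (L (X 853 e) N) (L (X 171 1) N))) N)) N) (A (L (X (A (L (R D 8544) 4294967295) (X c (L (R D 28768) 4294967295))) (A (L (X 853 e) N) (L (X 171 1) N))) N) (L (X (A (L (R D 8640) 4294967295) (X c (L (R D 28864) 4294967295))) (L (X 2 (A (L (X 853 e) N) (L (X 171 1) N))) N)) N))))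 N) (P e 5)) N) (P g 2)) N) N))), 125, 7, 1, 4, 1⟩,
  ⟨fun A S X L P R M N m a b c d e f g h D => (A (A (L (X (L (X 0 (P e 5)) N) (P g 3)) N) (S M (L (L (X (A (L (X 1 (A (L (R D 128) 4294967295) (X a (A (L (R D 160) 4294967295) (X a (L (R D 192) 4294967295)))))) N) (L (X c (A (L (R D 20352) 4294967295) (X a (A (L (R D 20384) 4294967295) (X a (L (R D 20416) 4294967295)))))) N)) (A (L (X (A (L (X 1 (A (L (R D 224) 4294967295) (X a (A (L (R D 256) 4294967295) (X a (L (R D 288) 4294967295)))))) N) (L (X c (A (L (R D 20448) 4294967295) (X a (A (L (R D 20480) 4294967295) (X a (L (R D 20512) 4294967295)))))) N)) (L (X (A (L (X (L (X 1024 (A (A (L (R D 3552) 4294967295) (X c (L (R D 23776) 4294967295))) (S M (L (X 2147483648 (A 1 (X c 1))) N)))) N) e) N) (L (X (L (X 171 a) N) (A (A (L (R D 3648) 4294967295) (X c (L (R D 23872) 4294967295))) (S M (L (X 2147483648 (A 1 (X c 1))) N)))) N)) 1) N))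 N) (L (X (L (X (L (X 17179869184 (L (X (A (A (L (R D 4224) 4294967295) (X c (L (R D 24448) 4294967295))) (S M (L (X 2147483648 (A 1 (X c 1))) N))) 1) N)) N) (P e 3)) N) g) N))) N) N))) (S M (L (L (X (L (X (L (X 288230376151711744 (A (L (X (A (L (R D 8512) 4294967295) (X c (L (R D 28736) 4294967295))) (A 0 (S M (L (L (X 12 1) N) N)))) N) (A (L (X (A (L (R D 8576) 4294967295) (X c (L (R D 28800) 4294967295))) 1) N) (L (X (A (L (R D 8640) 4294967295) (X c (L (R D 28864) 4294967295))) (A 0 (S M (L (L (X 12 1) N) N)))) N)))) N) (P e 5)) N) (P g 2)) N) N))), 114, 6, 1, 4, 1⟩,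
  ⟨fun A S X L P R M N m a b c d e f g h D => (A (A (L (X (L (X 0 (P e 4)) N) (P g 3)) N) (S M (L (L (X (A (L (X 1 (A (L (R D 128) 4294967295) (X a (A (L (R D 160) 4294967295) (X a (L (R D 192) 4294967295)))))) N) (L (X c (A (L (R D 20352) 4294967295) (X a (A (L (R D 20384) 4294967295) (X a (L (R D 20416) 4294967295)))))) N)) (A (L (X (A (L (X 1 (A (L (R D 224) 4294967295) (X a (A (L (R D 256) 4294967295) (X a (L (R D 288) 4294967295)))))) N) (L (X c (A (L (R D 20448) 4294967295) (X a (A (L (R D 20480) 4294967295) (X a (L (R D 20512) 4294967295)))))) N)) (L (X (A (A (L (R D 3584) 4294967295) (X c (L (R D 23808) 4294967295))) (S M (L (X 2147483648 (A 1 (X c 1))) N))) 1) N)) N) (L (X (L (X (L (X 16777216 (L (X (A (A (L (R D 4256) 4294967295) (X c (L (R D 24480) 4294967295))) (S M (L (X 2147483648 (A 1 (X c 1))) N))) 1) N)) N) (P e 2)) N) g) N))) N) N))) (S M (L (L (X (L (X (L (X 281474976710656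 (A (L (X (A (L (R D 8544) 4294967295) (X c (L (R D 28768) 4294967295))) (A 0 (S M (L (L (X 12 1) N) N)))) N) (A (L (X (A (L (R D 8608) 4294967295) (X c (L (R D 28832) 4294967295))) (L (X 2 1) N)) N) (L (X (A (L (R D 8640) 4294967295) (X c (L (R D 28864) 4294967295))) (A 0 (S M (L (L (X 24 1) N) N)))) N)))) N) (P e 4)) N) (P g 2)) N) N))), 103, 5, 1, 4, 1⟩,
  ⟨fun A S X L P R M N m a b c d e f g h D => (A (A (L (X (L (X 0 (P e 4)) N) (P g 3)) N) (S M (L (L (X (A (L (X 1 (A (L (R D 128) 4294967295) (X a (A (L (R D 160) 4294967295) (X a (L (R D 192) 4294967295)))))) N) (L (X c (A (L (R D 20352) 4294967295) (X a (A (L (R D 20384) 4294967295) (X a (L (R D 20416) 4294967295)))))) N)) (A (L (X (A (L (X 1 (A (L (R D 224) 4294967295) (X a (A (L (R D 256) 4294967295) (X a (L (R D 288) 4294967295)))))) N) (L (X c (A (L (R D 20448) 4294967295) (X a (A (L (R D 20480) 4294967295) (X a (L (R D 20512)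 4294967295)))))) N)) (L (X (A (A (L (R D 3616) 4294967295) (X c (L (R D 23840) 4294967295))) (S M (L (X 2147483648 (A 1 (X c 1))) N))) 1) N)) N) (L (X (L (X (L (X 16777216 (L (X (A (A (L (R D 4288) 4294967295) (X c (L (R D 24512) 4294967295))) (S M (L (X 2147483648 (A 1 (X c 1))) N))) 1) N)) N) (P e 2)) N) g) N))) N) N))) (S M (L (L (X (L (X (L (X 281474976710656 (A (L (X (A (L (R D 8576) 4294967295) (X c (L (R D 28800) 4294967295))) (A 0 (S M (L (L (X 12 1) N) N)))) N) (A (L (X (A (L (R D 8608) 4294967295) (X c (L (R D 28832) 4294967295))) (A 0 (S M (L (L (X 12 1) N) N)))) N) (L (X (A (L (R D 8640) 4294967295) (X c (L (R D 28864) 4294967295))) (L (X 144 1) N)) N)))) N) (P e 4)) N) (P g 2)) N) N))), 103, 5, 1, 4, 1⟩,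
  ⟨fun A S X L P R M N m a b c d e f g h D => (A (A (L (X 1024 (A (L (X 1 (A (L (R D 224) 4294967295) (X a (A (L (R D 256) 4294967295) (X a (L (R D 288) 4294967295)))))) N) (L (X c (A (L (R D 20448) 4294967295) (X a (A (L (R D 20480) 4294967295) (X a (L (R D 20512) 4294967295)))))) N))) N) (S M (L (L (X (L (X (A (A (L (R D 1088) 4294967295) (X c (L (R D 21312) 4294967295))) (S M (L (X 2147483648 (A 1 (X c 1))) N))) (A (L (X 853 e) N) (L (X 171 1) N))) N) e) N) N))) (S M (L (L (X (A (L (X (A (L (R D 17440) 4294967295) (X c (L (R D 37664) 4294967295))) (L (X 2 (A (L (X 853 e) N) (L (X 171 1) N))) N)) N) (A (L (X (A (L (R D 17472) 4294967295) (X c (L (R D 37696) 4294967295))) (A (L (X 853 e) N) (L (X 171 1) N))) N) (L (X (A (L (R D 17568) 4294967295) (X c (L (R D 37792) 4294967295))) (L (X 2 (A (L (X 853 e) N) (L (X 171 1) N))) N)) N))) e) N) N))), 48, 3, 1, 2, 1⟩,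
  ⟨fun A S X L P R M N m a b c d e f g h D => (A (A (L (X 0 g) N) (S M (L (L (X (A (A (L (R D 1120) 4294967295) (X c (L (R D 21344) 4294967295))) (S M (L (X 2147483648 (A 1 (X c 1))) N))) 1) N) N))) (S M (L (A (L (X (A (L (R D 17440) 4294967295) (X c (L (R D 37664) 4294967295))) (A 0 (S M (L (L (X 12 1) N) N)))) N) (A (L (X (A (L (R D 17504) 4294967295) (X c (L (R D 37728) 4294967295))) 1) N) (L (X (A (L (R D 17568) 4294967295) (X c (L (R D 37792) 4294967295))) (A 0 (S M (L (L (X 12 1) N) N)))) N))) N))), 38, 1, 1, 2, 1⟩,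
  ⟨fun A S X L P R M N m a b c d e f g h D => (A (A (L (X 0 g) N) (S M (L (L (X (A (A (L (R D 1152) 4294967295) (X c (L (R D 21376) 4294967295))) (S M (L (X 2147483648 (A 1 (X c 1))) N))) 1) N) N))) (S M (L (A (L (X (A (L (R D 17472) 4294967295) (X c (L (R D 37696) 4294967295))) (A 0 (S M (L (L (X 12 1) N) N)))) N) (A (L (X (A (L (R D 17536) 4294967295) (X c (L (R D 37760) 4294967295))) (L (X 2 1) N)) N) (L (X (A (L (R D 17568) 4294967295) (X c (L (R D 37792) 4294967295))) (A 0 (S M (L (L (X 24 1) N) N)))) N))) N))), 39, 1, 1, 2, 1⟩,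
  ⟨fun A S X L P R M N m a b c d e f g h D => (A (A (L (X 0 g) N) (S M (L (L (X (A (A (L (R D 1184) 4294967295) (X c (L (R D 21408) 4294967295))) (S M (L (X 2147483648 (A 1 (X c 1))) N))) 1) N) N))) (S M (L (A (L (X (A (L (R D 17504) 4294967295) (X c (L (R D 37728) 4294967295))) (A 0 (S M (L (L (X 12 1) N) N)))) N) (A (L (X (A (L (R D 17536) 4294967295) (X c (L (R D 37760) 4294967295))) (A 0 (S M (L (L (X 12 1) N) N)))) N) (L (X (A (L (R D 17568) 4294967295) (X c (L (R D 37792) 4294967295))) (L (X 144 1) N)) N))) N))), 41, 1, 1, 2, 1⟩,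
  ⟨fun A S X L P R M N m a b c d e f g h D => (A (A (L (X (L (X 1024 (L (X (A (A (L (R D 320) 4294967295) (X c (L (R D 20544) 4294967295))) (S M (L (X 2147483648 (A 1 (X c 1))) N))) (A (L (X 853 e) N) (L (X 171 1) N))) N)) N) e) N) (L (X (A (A (L (R D 352) 4294967295) (X c (L (R D 20576) 4294967295))) (S M (L (X 2147483648 (A 1 (X c 1))) N))) (L (X (L (X 171 a) N) (A (L (X 853 e) N) (L (X 171 1) N))) N)) N)) (S M (L (L (X (L (X 1024 (A (L (X (A (L (R D 17600) 4294967295) (X c (L (R D 37824) 4294967295))) (L (X 2 (A (L (X 853 e) N) (L (X 171 1) N))) N)) N) (A (L (X (A (L (R D 17632) 4294967295) (X c (L (R D 37856) 4294967295))) (A (L (X 853 e) N) (L (X 171 1) N))) N) (L (X (A (L (R D 17728) 4294967295) (X c (L (R D 37952) 4294967295))) (L (X 2 (A (L (X 853 e) N) (L (X 171 1) N))) N)) N)))) N) e) N) N))), 58, 3, 1, 2, 1⟩,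
  ⟨fun A S X L P R M N m a b c d e f g h D => (A (L (X (A (L (X (L (X 1024 (A (A (L (R D 384) 4294967295) (X c (L (R D 20608) 4294967295))) (S M (L (X 2147483648 (A 1 (X c 1))) N)))) N) e) N) (L (X (L (X 171 a) N) (A (A (L (R D 480) 4294967295) (X c (L (R D 20704) 4294967295))) (S M (L (X 2147483648 (A 1 (X c 1))) N)))) N)) 1) N) (S M (L (L (X (L (X 1024 (A (L (X (A (L (R D 17600) 4294967295) (X c (L (R D 37824) 4294967295))) (A 0 (S M (L (L (X 12 1) N) N)))) N) (A (L (X (A (L (R D 17664) 4294967295) (X c (L (R D 37888) 4294967295))) 1) N) (L (X (A (L (R D 17728) 4294967295) (X c (L (R D 37952) 4294967295))) (A 0 (S M (L (L (X 12 1) N) N)))) N)))) N) e) N) N))), 49, 2, 1, 2, 1⟩,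
  ⟨fun A S X L P R M N m a b c d e f g h D => (A (L (X (A (A (L (R D 416) 4294967295) (X c (L (R D 20640) 4294967295))) (S M (L (X 2147483648 (A 1 (X c 1))) N))) 1) N) (S M (L (A (L (X (A (L (R D 17632) 4294967295) (X c (L (R D 37856) 4294967295))) (A 0 (S M (L (L (X 12 1) N) N)))) N) (A (L (X (A (L (R D 17696) 4294967295) (X c (L (R D 37920) 4294967295))) (L (X 2 1) N)) N) (L (X (A (L (R D 17728) 4294967295) (X c (L (R D 37952) 4294967295))) (A 0 (S M (L (L (X 24 1) N) N)))) N))) N))), 39, 1, 1, 2, 1⟩,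
  ⟨fun A S X L P R M N m a b c d e f g h D => (A (L (X (A (A (L (R D 448) 4294967295) (X c (L (R D 20672) 4294967295))) (S M (L (X 2147483648 (A 1 (X c 1))) N))) 1) N) (S M (L (A (L (X (A (L (R D 17664) 4294967295) (X c (L (R D 37888) 4294967295))) (A 0 (S M (L (L (X 12 1) N) N)))) N) (A (L (X (A (L (R D 17696) 4294967295) (X c (L (R D 37920) 4294967295))) (A 0 (S M (L (L (X 12 1) N) N)))) N) (L (X (A (L (R D 17728) 4294967295) (X c (L (R D 37952) 4294967295))) (L (X 144 1) N)) N))) N))), 41, 1, 1, 2, 1⟩,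
  ⟨fun A S X L P R M N m a b c d e f g h D => (A (A (L (X (L (X 1024 (L (X (A (A (L (R D 512) 4294967295) (X c (L (R D 20736) 4294967295))) (S M (L (X 2147483648 (A 1 (X c 1))) N))) (A (L (X 853 e) N) (L (X 171 1) N))) N)) N) e) N) (L (X (A (A (L (R D 544) 4294967295) (X c (L (R D 20768) 4294967295))) (S M (L (X 2147483648 (A 1 (X c 1))) N))) (L (X (L (X 171 a) N) (A (L (X 853 e) N) (L (X 171 1) N))) N)) N)) (S M (L (L (X (L (X 1024 (A (L (X (A (L (R D 17920) 4294967295) (X c (L (R D 38144) 4294967295))) (L (X 2 (A (L (X 853 e) N) (L (X 171 1) N))) N)) N) (A (L (X (A (L (R D 17952) 4294967295) (X c (L (R D 38176) 4294967295))) (A (L (X 853 e) N) (L (X 171 1) N))) N) (L (X (A (L (R D 18048) 4294967295) (X c (L (R D 38272) 4294967295))) (L (X 2 (A (L (X 853 e) N) (L (X 171 1) N))) N)) N)))) N) e) N) N))), 58, 3, 1, 2, 1⟩,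
  ⟨fun A S X L P R M N m a b c d e f g h D => (A (L (X (A (L (X (L (X 1024 (A (A (L (R D 576) 4294967295) (X c (L (R D 20800) 4294967295))) (S M (L (X 2147483648 (A 1 (X c 1))) N)))) N) e) N) (L (X (L (X 171 a) N) (A (A (L (R D 672) 4294967295) (X c (L (R D 20896) 4294967295))) (S M (L (X 2147483648 (A 1 (X c 1))) N)))) N)) 1) N) (S M (L (L (X (L (X 1024 (A (L (X (A (L (R D 17920) 4294967295) (X c (L (R D 38144) 4294967295))) (A 0 (S M (L (L (X 12 1) N) N)))) N) (A (L (X (A (L (R D 17984) 4294967295) (X c (L (R D 38208) 4294967295))) 1) N) (L (X (A (L (R D 18048) 4294967295) (X c (L (R D 38272) 4294967295))) (A 0 (S M (L (L (X 12 1) N) N)))) N)))) N) e) N) N))), 49, 2, 1, 2, 1⟩,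
  ⟨fun A S X L P R M N m a b c d e f g h D => (A (L (X (A (A (L (R D 608) 4294967295) (X c (L (R D 20832) 4294967295))) (S M (L (X 2147483648 (A 1 (X c 1))) N))) 1) N) (S M (L (A (L (X (A (L (R D 17952) 4294967295) (X c (L (R D 38176) 4294967295))) (A 0 (S M (L (L (X 12 1) N) N)))) N) (A (L (X (A (L (R D 18016) 4294967295) (X c (L (R D 38240) 4294967295))) (L (X 2 1) N)) N) (L (X (A (L (R D 18048) 4294967295) (X c (L (R D 38272) 4294967295))) (A 0 (S M (L (L (X 24 1) N) N)))) N))) N))), 39, 1, 1, 2, 1⟩,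
  ⟨fun A S X L P R M N m a b c d e f g h D => (A (L (X (A (A (L (R D 640) 4294967295) (X c (L (R D 20864) 4294967295))) (S M (L (X 2147483648 (A 1 (X c 1))) N))) 1) N) (S M (L (A (L (X (A (L (R D 17984) 4294967295) (X c (L (R D 38208) 4294967295))) (A 0 (S M (L (L (X 12 1) N) N)))) N) (A (L (X (A (L (R D 18016) 4294967295) (X c (L (R D 38240) 4294967295))) (A 0 (S M (L (L (X 12 1) N) N)))) N) (L (X (A (L (R D 18048) 4294967295) (X c (L (R D 38272) 4294967295))) (L (X 144 1) N)) N))) N))), 41, 1, 1, 2, 1⟩,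
  ⟨fun A S X L P R M N m a b c d e f g h D => (A (A (L (X (L (X (L (X 288230376151711744 (A (L (X (A (L (R D 9056) 4294967295) (X c (L (R D 29280) 4294967295))) (L (X 1 (A (L (X 853 e) N) (L (X 171 1) N))) N)) N) (L (X (L (X 1024 (L (X (A (L (R D 9088) 4294967295) (X c (L (R D 29312) 4294967295))) 1) N)) N) e) N))) N) (P e 5)) N) (P g 2)) N) (S M (L (L (X (A (L (X 1 (A (L (R D 128) 4294967295) (X a (A (L (R D 160) 4294967295) (X a (L (R D 192) 4294967295)))))) N) (L (X c (A (L (R D 20352) 4294967295) (X a (A (L (R D 20384) 4294967295) (X a (L (R D 20416) 4294967295)))))) N)) (A (L (X (A (L (X 1 (A (L (R D 224) 4294967295) (X a (A (L (R D 256) 4294967295) (X a (L (R D 288) 4294967295)))))) N) (L (X c (A (L (R D 20448) 4294967295) (X a (A (L (R D 20480) 4294967295) (X a (L (R D 20512) 4294967295)))))) N)) (A (L (X (L (X 1024 (L (X (A (A (L (R D 512) 4294967295) (X c (L (R D 20736) 4294967295)))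 (S M (L (X 2147483648 (A 1 (X c 1))) N))) (A (L (X 853 e) N) (L (X 171 1) N))) N)) N) e) N) (L (X (A (A (L (R D 544) 4294967295) (X c (L (R D 20768) 4294967295))) (S M (L (X 2147483648 (A 1 (X c 1))) N))) (L (X (L (X 171 a) N) (A (L (X 853 e) N) (L (X 171 1) N))) N)) N))) N) (L (X (L (X (L (X 17179869184 (L (X (A (A (L (R D 9568) 4294967295) (X c (L (R D 29792) 4294967295))) (S M (L (X 2147483648 (A 1 (X c 1))) N))) (A (L (X 853 e) N) (L (X 171 1) N))) N)) N) (P e 3)) N) g) N))) N) N))) (S M (L (L (X (L (X (L (X 288230376151711744 (A (L (X (A (L (R D 18240) 4294967295) (X c (L (R D 38464) 4294967295))) (L (X 2 (A (L (X 853 e) N) (L (X 171 1) N))) N)) N) (A (L (X (A (L (R D 18272) 4294967295) (X c (L (R D 38496) 4294967295))) (A (L (X 853 e) N) (L (X 171 1) N))) N) (L (X (A (L (R D 18368) 4294967295) (X c (L (R D 38592) 4294967295))) (L (X 2 (A (L (X 853 e) N) (L (X 171 1) N))) N)) N))))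 N) (P e 5)) N) (P g 2)) N) N))), 125, 7, 1, 4, 1⟩,
  ⟨fun A S X L P R M N m a b c d e f g h D => (A (A (L (X (L (X 0 (P e 5)) N) (P g 3)) N) (S M (L (L (X (A (L (X 1 (A (L (R D 128) 4294967295) (X a (A (L (R D 160) 4294967295) (X a (L (R D 192) 4294967295)))))) N) (L (X c (A (L (R D 20352) 4294967295) (X a (A (L (R D 20384) 4294967295) (X a (L (R D 20416) 4294967295)))))) N)) (A (L (X (A (L (X 1 (A (L (R D 224) 4294967295) (X a (A (L (R D 256) 4294967295) (X a (L (R D 288) 4294967295)))))) N) (L (X c (A (L (R D 20448) 4294967295) (X a (A (L (R D 20480) 4294967295) (X a (L (R D 20512) 4294967295)))))) N)) (L (X (A (L (X (L (X 1024 (A (A (L (R D 576) 4294967295) (X c (L (R D 20800) 4294967295))) (S M (L (X 2147483648 (A 1 (X c 1))) N)))) N) e) N) (L (X (L (X 171 a) N) (A (A (L (R D 672) 4294967295) (X c (L (R D 20896) 4294967295))) (S M (L (X 2147483648 (A 1 (X c 1))) N)))) N)) 1) N))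 N) (L (X (L (X (L (X 17179869184 (L (X (A (A (L (R D 9600) 4294967295) (X c (L (R D 29824) 4294967295))) (S M (L (X 2147483648 (A 1 (X c 1))) N))) 1) N)) N) (P e 3)) N) g) N))) N) N))) (S M (L (L (X (L (X (L (X 288230376151711744 (A (L (X (A (L (R D 18240) 4294967295) (X c (L (R D 38464) 4294967295))) (A 0 (S M (L (L (X 12 1) N) N)))) N) (A (L (X (A (L (R D 18304) 4294967295) (X c (L (R D 38528) 4294967295))) 1) N) (L (X (A (L (R D 18368) 4294967295) (X c (L (R D 38592) 4294967295))) (A 0 (S M (L (L (X 12 1) N) N)))) N)))) N) (P e 5)) N) (P g 2)) N) N))), 114, 6, 1, 4, 1⟩,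
  ⟨fun A S X L P R M N m a b c d e f g h D => (A (A (L (X (L (X 0 (P e 4)) N) (P g 3)) N) (S M (L (L (X (A (L (X 1 (A (L (R D 128) 4294967295) (X a (A (L (R D 160) 4294967295) (X a (L (R D 192) 4294967295)))))) N) (L (X c (A (L (R D 20352) 4294967295) (X a (A (L (R D 20384) 4294967295) (X a (L (R D 20416) 4294967295)))))) N)) (A (L (X (A (L (X 1 (A (L (R D 224) 4294967295) (X a (A (L (R D 256) 4294967295) (X a (L (R D 288) 4294967295)))))) N) (L (X c (A (L (R D 20448) 4294967295) (X a (A (L (R D 20480) 4294967295) (X a (L (R D 20512) 4294967295)))))) N)) (L (X (A (A (L (R D 608) 4294967295) (X c (L (R D 20832) 4294967295))) (S M (L (X 2147483648 (A 1 (X c 1))) N))) 1) N)) N) (L (X (L (X (L (X 16777216 (L (X (A (A (L (R D 9632) 4294967295) (X c (L (R D 29856) 4294967295))) (S M (L (X 2147483648 (A 1 (X c 1))) N))) 1) N)) N) (P e 2)) N) g) N))) N) N))) (S M (L (L (X (L (X (L (X 281474976710656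 (A (L (X (A (L (R D 18272) 4294967295) (X c (L (R D 38496) 4294967295))) (A 0 (S M (L (L (X 12 1) N) N)))) N) (A (L (X (A (L (R D 18336) 4294967295) (X c (L (R D 38560) 4294967295))) (L (X 2 1) N)) N) (L (X (A (L (R D 18368) 4294967295) (X c (L (R D 38592) 4294967295))) (A 0 (S M (L (L (X 24 1) N) N)))) N)))) N) (P e 4)) N) (P g 2)) N) N))), 103, 5, 1, 4, 1⟩,
  ⟨fun A S X L P R M N m a b c d e f g h D => (A (A (L (X (L (X 0 (P e 4)) N) (P g 3)) N) (S M (L (L (X (A (L (X 1 (A (L (R D 128) 4294967295) (X a (A (L (R D 160) 4294967295) (X a (L (R D 192) 4294967295)))))) N) (L (X c (A (L (R D 20352) 4294967295) (X a (A (L (R D 20384) 4294967295) (X a (L (R D 20416) 4294967295)))))) N)) (A (L (X (A (L (X 1 (A (L (R D 224) 4294967295) (X a (A (L (R D 256) 4294967295) (X a (L (R D 288) 4294967295)))))) N) (L (X c (A (L (R D 20448) 4294967295) (X a (A (L (R D 20480) 4294967295) (X a (L (R D 20512)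 4294967295)))))) N)) (L (X (A (A (L (R D 640) 4294967295) (X c (L (R D 20864) 4294967295))) (S M (L (X 2147483648 (A 1 (X c 1))) N))) 1) N)) N) (L (X (L (X (L (X 16777216 (L (X (A (A (L (R D 9664) 4294967295) (X c (L (R D 29888) 4294967295))) (S M (L (X 2147483648 (A 1 (X c 1))) N))) 1) N)) N) (P e 2)) N) g) N))) N) N))) (S M (L (L (X (L (X (L (X 281474976710656 (A (L (X (A (L (R D 18304) 4294967295) (X c (L (R D 38528) 4294967295))) (A 0 (S M (L (L (X 12 1) N) N)))) N) (A (L (X (A (L (R D 18336) 4294967295) (X c (L (R D 38560) 4294967295))) (A 0 (S M (L (L (X 12 1) N) N)))) N) (L (X (A (L (R D 18368) 4294967295) (X c (L (R D 38592) 4294967295))) (L (X 144 1) N)) N)))) N) (P e 4)) N) (P g 2)) N) N))), 103, 5, 1, 4, 1⟩,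
  ⟨fun A S X L P R M N m a b c d e f g h D => (A (A (L (X (L (X (L (X 288230376151711744 (A (L (X (A (L (R D 9184) 4294967295) (X c (L (R D 29408) 4294967295))) (L (X 1 (A (L (X 853 e) N) (L (X 171 1) N))) N)) N) (L (X (L (X 1024 (L (X (A (L (R D 9216) 4294967295) (X c (L (R D 29440) 4294967295))) 1) N)) N) e) N))) N) (P e 5)) N) (P g 2)) N) (S M (L (L (X (A (L (X 1 (A (L (R D 128) 4294967295) (X a (A (L (R D 160) 4294967295) (X a (L (R D 192) 4294967295)))))) N) (L (X c (A (L (R D 20352) 4294967295) (X a (A (L (R D 20384) 4294967295) (X a (L (R D 20416) 4294967295)))))) N)) (A (L (X (A (L (X 1 (A (L (R D 224) 4294967295) (X a (A (L (R D 256) 4294967295) (X a (L (R D 288) 4294967295)))))) N) (L (X c (A (L (R D 20448) 4294967295) (X a (A (L (R D 20480) 4294967295) (X a (L (R D 20512) 4294967295)))))) N)) (A (L (X (L (X 1024 (L (X (A (A (L (R D 320) 4294967295) (X c (L (R D 20544) 4294967295)))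 (S M (L (X 2147483648 (A 1 (X c 1))) N))) (A (L (X 853 e) N) (L (X 171 1) N))) N)) N) e) N) (L (X (A (A (L (R D 352) 4294967295) (X c (L (R D 20576) 4294967295))) (S M (L (X 2147483648 (A 1 (X c 1))) N))) (L (X (L (X 171 a) N) (A (L (X 853 e) N) (L (X 171 1) N))) N)) N))) N) (L (X (L (X (L (X 17179869184 (L (X (A (A (L (R D 9824) 4294967295) (X c (L (R D 30048) 4294967295))) (S M (L (X 2147483648 (A 1 (X c 1))) N))) (A (L (X 853 e) N) (L (X 171 1) N))) N)) N) (P e 3)) N) g) N))) N) N))) (S M (L (L (X (L (X (L (X 288230376151711744 (A (L (X (A (L (R D 18560) 4294967295) (X c (L (R D 38784) 4294967295))) (L (X 2 (A (L (X 853 e) N) (L (X 171 1) N))) N)) N) (A (L (X (A (L (R D 18592) 4294967295) (X c (L (R D 38816) 4294967295))) (A (L (X 853 e) N) (L (X 171 1) N))) N) (L (X (A (L (R D 18688) 4294967295) (X c (L (R D 38912) 4294967295))) (L (X 2 (A (L (X 853 e) N) (L (X 171 1) N))) N)) N))))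 N) (P e 5)) N) (P g 2)) N) N))), 125, 7, 1, 4, 1⟩,
  ⟨fun A S X L P R M N m a b c d e f g h D => (A (A (L (X (L (X 0 (P e 5)) N) (P g 3)) N) (S M (L (L (X (A (L (X 1 (A (L (R D 128) 4294967295) (X a (A (L (R D 160) 4294967295) (X a (L (R D 192) 4294967295)))))) N) (L (X c (A (L (R D 20352) 4294967295) (X a (A (L (R D 20384) 4294967295) (X a (L (R D 20416) 4294967295)))))) N)) (A (L (X (A (L (X 1 (A (L (R D 224) 4294967295) (X a (A (L (R D 256) 4294967295) (X a (L (R D 288) 4294967295)))))) N) (L (X c (A (L (R D 20448) 4294967295) (X a (A (L (R D 20480) 4294967295) (X a (L (R D 20512) 4294967295)))))) N)) (L (X (A (L (X (L (X 1024 (A (A (L (R D 384) 4294967295) (X c (L (R D 20608) 4294967295))) (S M (L (X 2147483648 (A 1 (X c 1))) N)))) N) e) N) (L (X (L (X 171 a) N) (A (A (L (R D 480) 4294967295) (X c (L (R D 20704) 4294967295))) (S M (L (X 2147483648 (A 1 (X c 1))) N)))) N)) 1) N))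 N) (L (X (L (X (L (X 17179869184 (L (X (A (A (L (R D 9856) 4294967295) (X c (L (R D 30080) 4294967295))) (S M (L (X 2147483648 (A 1 (X c 1))) N))) 1) N)) N) (P e 3)) N) g) N))) N) N))) (S M (L (L (X (L (X (L (X 288230376151711744 (A (L (X (A (L (R D 18560) 4294967295) (X c (L (R D 38784) 4294967295))) (A 0 (S M (L (L (X 12 1) N) N)))) N) (A (L (X (A (L (R D 18624) 4294967295) (X c (L (R D 38848) 4294967295))) 1) N) (L (X (A (L (R D 18688) 4294967295) (X c (L (R D 38912) 4294967295))) (A 0 (S M (L (L (X 12 1) N) N)))) N)))) N) (P e 5)) N) (P g 2)) N) N))), 114, 6, 1, 4, 1⟩,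
  ⟨fun A S X L P R M N m a b c d e f g h D => (A (A (L (X (L (X 0 (P e 4)) N) (P g 3)) N) (S M (L (L (X (A (L (X 1 (A (L (R D 128) 4294967295) (X a (A (L (R D 160) 4294967295) (X a (L (R D 192) 4294967295)))))) N) (L (X c (A (L (R D 20352) 4294967295) (X a (A (L (R D 20384) 4294967295) (X a (L (R D 20416) 4294967295)))))) N)) (A (L (X (A (L (X 1 (A (L (R D 224) 4294967295) (X a (A (L (R D 256) 4294967295) (X a (L (R D 288) 4294967295)))))) N) (L (X c (A (L (R D 20448) 4294967295) (X a (A (L (R D 20480) 4294967295) (X a (L (R D 20512) 4294967295)))))) N)) (L (X (A (A (L (R D 416) 4294967295) (X c (L (R D 20640) 4294967295))) (S M (L (X 2147483648 (A 1 (X c 1))) N))) 1) N)) N) (L (X (L (X (L (X 16777216 (L (X (A (A (L (R D 9888) 4294967295) (X c (L (R D 30112) 4294967295))) (S M (L (X 2147483648 (A 1 (X c 1))) N))) 1) N)) N) (P e 2)) N) g) N))) N) N))) (S M (L (L (X (L (X (L (X 281474976710656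 (A (L (X (A (L (R D 18592) 4294967295) (X c (L (R D 38816) 4294967295))) (A 0 (S M (L (L (X 12 1) N) N)))) N) (A (L (X (A (L (R D 18656) 4294967295) (X c (L (R D 38880) 4294967295))) (L (X 2 1) N)) N) (L (X (A (L (R D 18688) 4294967295) (X c (L (R D 38912) 4294967295))) (A 0 (S M (L (L (X 24 1) N) N)))) N)))) N) (P e 4)) N) (P g 2)) N) N))), 103, 5, 1, 4, 1⟩,
  ⟨fun A S X L P R M N m a b c d e f g h D => (A (A (L (X (L (X 0 (P e 4)) N) (P g 3)) N) (S M (L (L (X (A (L (X 1 (A (L (R D 128) 4294967295) (X a (A (L (R D 160) 4294967295) (X a (L (R D 192) 4294967295)))))) N) (L (X c (A (L (R D 20352) 4294967295) (X a (A (L (R D 20384) 4294967295) (X a (L (R D 20416) 4294967295)))))) N)) (A (L (X (A (L (X 1 (A (L (R D 224) 4294967295) (X a (A (L (R D 256) 4294967295) (X a (L (R D 288) 4294967295)))))) N) (L (X c (A (L (R D 20448) 4294967295) (X a (A (L (R D 20480) 4294967295) (X a (L (R D 20512)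 4294967295)))))) N)) (L (X (A (A (L (R D 448) 4294967295) (X c (L (R D 20672) 4294967295))) (S M (L (X 2147483648 (A 1 (X c 1))) N))) 1) N)) N) (L (X (L (X (L (X 16777216 (L (X (A (A (L (R D 9920) 4294967295) (X c (L (R D 30144) 4294967295))) (S M (L (X 2147483648 (A 1 (X c 1))) N))) 1) N)) N) (P e 2)) N) g) N))) N) N))) (S M (L (L (X (L (X (L (X 281474976710656 (A (L (X (A (L (R D 18624) 4294967295) (X c (L (R D 38848) 4294967295))) (A 0 (S M (L (L (X 12 1) N) N)))) N) (A (L (X (A (L (R D 18656) 4294967295) (X c (L (R D 38880) 4294967295))) (A 0 (S M (L (L (X 12 1) N) N)))) N) (L (X (A (L (R D 18688) 4294967295) (X c (L (R D 38912) 4294967295))) (L (X 144 1) N)) N)))) N) (P e 4)) N) (P g 2)) N) N))), 103, 5, 1, 4, 1⟩,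
  ⟨fun A S X L P R M N m a b c d e f g h D => (A (A (L (X (L (X (L (X 16777216 (A (L (X (A (L (R D 9312) 4294967295) (X c (L (R D 29536) 4294967295))) (L (X 1 (A (L (X 853 e) N) (L (X 171 1) N))) N)) N) (L (X (L (X 1024 (L (X (A (L (R D 9344) 4294967295) (X c (L (R D 29568) 4294967295))) 1) N)) N) e) N))) N) (P e 2)) N) g) N) (S M (L (L (X (A (L (X 1 (A (L (R D 128) 4294967295) (X a (A (L (R D 160) 4294967295) (X a (L (R D 192) 4294967295)))))) N) (L (X c (A (L (R D 20352) 4294967295) (X a (A (L (R D 20384) 4294967295) (X a (L (R D 20416) 4294967295)))))) N)) (L (X (A (A (L (R D 10336) 4294967295) (X c (L (R D 30560) 4294967295))) (S M (L (X 2147483648 (A 1 (X c 1))) N))) (A (L (X 853 e) N) (L (X 171 1) N))) N)) N) N))) (S M (L (L (X (L (X (L (X 16777216 (A (L (X (A (L (R D 18880) 4294967295) (X c (L (R D 39104) 4294967295))) (L (X 2 (A (L (X 853 e) N) (L (X 171 1) N))) N)) N) (A (L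 (X (A (L (R D 18912) 4294967295) (X c (L (R D 39136) 4294967295))) (A (L (X 853 e) N) (L (X 171 1) N))) N) (L (X (A (L (R D 19008) 4294967295) (X c (L (R D 39232) 4294967295))) (L (X 2 (A (L (X 853 e) N) (L (X 171 1) N))) N)) N)))) N) (P e 2)) N) g) N) N))), 79, 4, 1, 3, 1⟩,
  ⟨fun A S X L P R M N m a b c d e f g h D => (A (A (L (X (L (X 0 (P e 2)) N) (P g 2)) N) (S M (L (L (X (A (L (X 1 (A (L (R D 128) 4294967295) (X a (A (L (R D 160) 4294967295) (X a (L (R D 192) 4294967295)))))) N) (L (X c (A (L (R D 20352) 4294967295) (X a (A (L (R D 20384) 4294967295) (X a (L (R D 20416) 4294967295)))))) N)) (L (X (A (A (L (R D 10368) 4294967295) (X c (L (R D 30592) 4294967295))) (S M (L (X 2147483648 (A 1 (X c 1))) N))) 1) N)) N) N))) (S M (L (L (X (L (X (L (X 16777216 (A (L (X (A (L (R D 18880) 4294967295) (X c (L (R D 39104) 4294967295))) (A 0 (S M (L (L (X 12 1) N) N)))) N) (A (L (X (A (L (R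 D 18944) 4294967295) (X c (L (R D 39168) 4294967295))) 1) N) (L (X (A (L (R D 19008) 4294967295) (X c (L (R D 39232) 4294967295))) (A 0 (S M (L (L (X 12 1) N) N)))) N)))) N) (P e 2)) N) g) N) N))), 68, 3, 1, 3, 1⟩,
  ⟨fun A S X L P R M N m a b c d e f g h D => (A (A (L (X (L (X 0 (P e 2)) N) (P g 2)) N) (S M (L (L (X (A (L (X 1 (A (L (R D 128) 4294967295) (X a (A (L (R D 160) 4294967295) (X a (L (R D 192) 4294967295)))))) N) (L (X c (A (L (R D 20352) 4294967295) (X a (A (L (R D 20384) 4294967295) (X a (L (R D 20416) 4294967295)))))) N)) (L (X (A (A (L (R D 10400) 4294967295) (X c (L (R D 30624) 4294967295))) (S M (L (X 2147483648 (A 1 (X c 1))) N))) 1) N)) N) N))) (S M (L (L (X (L (X (L (X 16777216 (A (L (X (A (L (R D 18912) 4294967295) (X c (L (R D 39136) 4294967295))) (A 0 (S M (L (L (X 12 1) N) N)))) N) (A (L (X (A (L (R D 18976) 4294967295) (X c (L (R D 39200) 4294967295))) (L (X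 2 1) N)) N) (L (X (A (L (R D 19008) 4294967295) (X c (L (R D 39232) 4294967295))) (A 0 (S M (L (L (X 24 1) N) N)))) N)))) N) (P e 2)) N) g) N) N))), 68, 3, 1, 3, 1⟩,
  ⟨fun A S X L P R M N m a b c d e f g h D => (A (A (L (X (L (X 0 (P e 2)) N) (P g 2)) N) (S M (L (L (X (A (L (X 1 (A (L (R D 128) 4294967295) (X a (A (L (R D 160) 4294967295) (X a (L (R D 192) 4294967295)))))) N) (L (X c (A (L (R D 20352) 4294967295) (X a (A (L (R D 20384) 4294967295) (X a (L (R D 20416) 4294967295)))))) N)) (L (X (A (A (L (R D 10432) 4294967295) (X c (L (R D 30656) 4294967295))) (S M (L (X 2147483648 (A 1 (X c 1))) N))) 1) N)) N) N))) (S M (L (L (X (L (X (L (X 16777216 (A (L (X (A (L (R D 18944) 4294967295) (X c (L (R D 39168) 4294967295))) (A 0 (S M (L (L (X 12 1) N) N)))) N) (A (L (X (A (L (R D 18976) 4294967295) (X c (L (R D 39200) 4294967295))) (A 0 (S M (L (L (X 12 1) N) N)))) N) (L (X (A (L (R D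 19008) 4294967295) (X c (L (R D 39232) 4294967295))) (L (X 144 1) N)) N)))) N) (P e 2)) N) g) N) N))), 69, 3, 1, 3, 1⟩,
  ⟨fun A S X L P R M N m a b c d e f g h D => (A (A (L (X (L (X (L (X 288230376151711744 (A (L (X (A (L (R D 9440) 4294967295) (X c (L (R D 29664) 4294967295))) (L (X 1 (A (L (X 853 e) N) (L (X 171 1) N))) N)) N) (L (X (L (X 1024 (L (X (A (L (R D 9472) 4294967295) (X c (L (R D 29696) 4294967295))) 1) N)) N) e) N))) N) (P e 5)) N) (P g 2)) N) (S M (L (L (X (A (L (X 1 (A (L (R D 128) 4294967295) (X a (A (L (R D 160) 4294967295) (X a (L (R D 192) 4294967295)))))) N) (L (X c (A (L (R D 20352) 4294967295) (X a (A (L (R D 20384) 4294967295) (X a (L (R D 20416) 4294967295)))))) N)) (A (L (X (A (L (X 1 (A (L (R D 224) 4294967295) (X a (A (L (R D 256) 4294967295) (X a (L (R D 288) 4294967295)))))) N) (L (X c (A (L (R D 20448) 4294967295) (X a (A (L (R D 20480) 4294967295) (X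 a (L (R D 20512) 4294967295)))))) N)) (A (L (X (L (X 1024 (L (X (A (A (L (R D 512) 4294967295) (X c (L (R D 20736) 4294967295))) (S M (L (X 2147483648 (A 1 (X c 1))) N))) (A (L (X 853 e) N) (L (X 171 1) N))) N)) N) e) N) (L (X (A (A (L (R D 544) 4294967295) (X c (L (R D 20768) 4294967295))) (S M (L (X 2147483648 (A 1 (X c 1))) N))) (L (X (L (X 171 a) N) (A (L (X 853 e) N) (L (X 171 1) N))) N)) N))) N) (L (X (L (X (L (X 17179869184 (L (X (A (A (L (R D 10080) 4294967295) (X c (L (R D 30304) 4294967295))) (S M (L (X 2147483648 (A 1 (X c 1))) N))) (A (L (X 853 e) N) (L (X 171 1) N))) N)) N) (P e 3)) N) g) N))) N) N))) (S M (L (L (X (L (X (L (X 288230376151711744 (A (L (X (A (L (R D 19200) 4294967295) (X c (L (R D 39424) 4294967295))) (L (X 2 (A (L (X 853 e) N) (L (X 171 1) N))) N)) N) (A (L (X (A (L (R D 19232) 4294967295) (X c (L (R D 39456) 4294967295))) (A (L (X 853 e) N) (L (X 171 1)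 N))) N) (L (X (A (L (R D 19328) 4294967295) (X c (L (R D 39552) 4294967295))) (L (X 2 (A (L (X 853 e) N) (L (X 171 1) N))) N)) N)))) N) (P e 5)) N) (P g 2)) N) N))), 125, 7, 1, 4, 1⟩,
  ⟨fun A S X L P R M N m a b c d e f g h D => (A (A (L (X (L (X 0 (P e 5)) N) (P g 3)) N) (S M (L (L (X (A (L (X 1 (A (L (R D 128) 4294967295) (X a (A (L (R D 160) 4294967295) (X a (L (R D 192) 4294967295)))))) N) (L (X c (A (L (R D 20352) 4294967295) (X a (A (L (R D 20384) 4294967295) (X a (L (R D 20416) 4294967295)))))) N)) (A (L (X (A (L (X 1 (A (L (R D 224) 4294967295) (X a (A (L (R D 256) 4294967295) (X a (L (R D 288) 4294967295)))))) N) (L (X c (A (L (R D 20448) 4294967295) (X a (A (L (R D 20480) 4294967295) (X a (L (R D 20512) 4294967295)))))) N)) (L (X (A (L (X (L (X 1024 (A (A (L (R D 576) 4294967295) (X c (L (R D 20800) 4294967295))) (S M (L (X 2147483648 (A 1 (X c 1))) N)))) N) e) N) (L (X (L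 (X 171 a) N) (A (A (L (R D 672) 4294967295) (X c (L (R D 20896) 4294967295))) (S M (L (X 2147483648 (A 1 (X c 1))) N)))) N)) 1) N)) N) (L (X (L (X (L (X 17179869184 (L (X (A (A (L (R D 10112) 4294967295) (X c (L (R D 30336) 4294967295))) (S M (L (X 2147483648 (A 1 (X c 1))) N))) 1) N)) N) (P e 3)) N) g) N))) N) N))) (S M (L (L (X (L (X (L (X 288230376151711744 (A (L (X (A (L (R D 19200) 4294967295) (X c (L (R D 39424) 4294967295))) (A 0 (S M (L (L (X 12 1) N) N)))) N) (A (L (X (A (L (R D 19264) 4294967295) (X c (L (R D 39488) 4294967295))) 1) N) (L (X (A (L (R D 19328) 4294967295) (X c (L (R D 39552) 4294967295))) (A 0 (S M (L (L (X 12 1) N) N)))) N)))) N) (P e 5)) N) (P g 2)) N) N))), 114, 6, 1, 4, 1⟩,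
  ⟨fun A S X L P R M N m a b c d e f g h D => (A (A (L (X (L (X 0 (P e 4)) N) (P g 3)) N) (S M (L (L (X (A (L (X 1 (A (L (R D 128) 4294967295) (X a (A (L (R D 160) 4294967295) (X a (L (R D 192) 4294967295)))))) N) (L (X c (A (L (R D 20352) 4294967295) (X a (A (L (R D 20384) 4294967295) (X a (L (R D 20416) 4294967295)))))) N)) (A (L (X (A (L (X 1 (A (L (R D 224) 4294967295) (X a (A (L (R D 256) 4294967295) (X a (L (R D 288) 4294967295)))))) N) (L (X c (A (L (R D 20448) 4294967295) (X a (A (L (R D 20480) 4294967295) (X a (L (R D 20512) 4294967295)))))) N)) (L (X (A (A (L (R D 608) 4294967295) (X c (L (R D 20832) 4294967295))) (S M (L (X 2147483648 (A 1 (X c 1))) N))) 1) N)) N) (L (X (L (X (L (X 16777216 (L (X (A (A (L (R D 10144) 4294967295) (X c (L (R D 30368) 4294967295))) (S M (L (X 2147483648 (A 1 (X c 1))) N))) 1) N)) N) (P e 2)) N) g) N))) N) N))) (S M (L (L (X (L (X (L (X 281474976710656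 (A (L (X (A (L (R D 19232) 4294967295) (X c (L (R D 39456) 4294967295))) (A 0 (S M (L (L (X 12 1) N) N)))) N) (A (L (X (A (L (R D 19296) 4294967295) (X c (L (R D 39520) 4294967295))) (L (X 2 1) N)) N) (L (X (A (L (R D 19328) 4294967295) (X c (L (R D 39552) 4294967295))) (A 0 (S M (L (L (X 24 1) N) N)))) N)))) N) (P e 4)) N) (P g 2)) N) N))), 103, 5, 1, 4, 1⟩,
  ⟨fun A S X L P R M N m a b c d e f g h D => (A (A (L (X (L (X 0 (P e 4)) N) (P g 3)) N) (S M (L (L (X (A (L (X 1 (A (L (R D 128) 4294967295) (X a (A (L (R D 160) 4294967295) (X a (L (R D 192) 4294967295)))))) N) (L (X c (A (L (R D 20352) 4294967295) (X a (A (L (R D 20384) 4294967295) (X a (L (R D 20416) 4294967295)))))) N)) (A (L (X (A (L (X 1 (A (L (R D 224) 4294967295) (X a (A (L (R D 256) 4294967295) (X a (L (R D 288) 4294967295)))))) N) (L (X c (A (L (R D 20448) 4294967295) (X a (A (L (R D 20480) 4294967295) (X a (L (R D 20512)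 4294967295)))))) N)) (L (X (A (A (L (R D 640) 4294967295) (X c (L (R D 20864) 4294967295))) (S M (L (X 2147483648 (A 1 (X c 1))) N))) 1) N)) N) (L (X (L (X (L (X 16777216 (L (X (A (A (L (R D 10176) 4294967295) (X c (L (R D 30400) 4294967295))) (S M (L (X 2147483648 (A 1 (X c 1))) N))) 1) N)) N) (P e 2)) N) g) N))) N) N))) (S M (L (L (X (L (X (L (X 281474976710656 (A (L (X (A (L (R D 19264) 4294967295) (X c (L (R D 39488) 4294967295))) (A 0 (S M (L (L (X 12 1) N) N)))) N) (A (L (X (A (L (R D 19296) 4294967295) (X c (L (R D 39520) 4294967295))) (A 0 (S M (L (L (X 12 1) N) N)))) N) (L (X (A (L (R D 19328) 4294967295) (X c (L (R D 39552) 4294967295))) (L (X 144 1) N)) N)))) N) (P e 4)) N) (P g 2)) N) N))), 103, 5, 1, 4, 1⟩,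
  ⟨fun A S X L P R M N m a b c d e f g h D => (A (A (L (X (L (X 1024 (L (X (A (A (L (R D 704) 4294967295) (X c (L (R D 20928) 4294967295))) (S M (L (X 2147483648 (A 1 (X c 1))) N))) (A (L (X 853 e) N) (L (X 171 1) N))) N)) N) e) N) (L (X (A (A (L (R D 736) 4294967295) (X c (L (R D 20960) 4294967295))) (S M (L (X 2147483648 (A 1 (X c 1))) N))) (L (X (L (X 171 a) N) (A (L (X 853 e) N) (L (X 171 1) N))) N)) N)) (S M (L (L (X (L (X 1024 (A (L (X (A (L (R D 17760) 4294967295) (X c (L (R D 37984) 4294967295))) (L (X 2 (A (L (X 853 e) N) (L (X 171 1) N))) N)) N) (A (L (X (A (L (R D 17792) 4294967295) (X c (L (R D 38016) 4294967295))) (A (L (X 853 e) N) (L (X 171 1) N))) N) (L (X (A (L (R D 17888) 4294967295) (X c (L (R D 38112) 4294967295))) (L (X 2 (A (L (X 853 e) N) (L (X 171 1) N))) N)) N)))) N) e) N) N))), 58, 3, 1, 2, 1⟩,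
  ⟨fun A S X L P R M N m a b c d e f g h D => (A (L (X (A (L (X (L (X 1024 (A (A (L (R D 768) 4294967295) (X c (L (R D 20992) 4294967295))) (S M (L (X 2147483648 (A 1 (X c 1))) N)))) N) e) N) (L (X (L (X 171 a) N) (A (A (L (R D 864) 4294967295) (X c (L (R D 21088) 4294967295))) (S M (L (X 2147483648 (A 1 (X c 1))) N)))) N)) 1) N) (S M (L (L (X (L (X 1024 (A (L (X (A (L (R D 17760) 4294967295) (X c (L (R D 37984) 4294967295))) (A 0 (S M (L (L (X 12 1) N) N)))) N) (A (L (X (A (L (R D 17824) 4294967295) (X c (L (R D 38048) 4294967295))) 1) N) (L (X (A (L (R D 17888) 4294967295) (X c (L (R D 38112) 4294967295))) (A 0 (S M (L (L (X 12 1) N) N)))) N)))) N) e) N) N))), 49, 2, 1, 2, 1⟩,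
  ⟨fun A S X L P R M N m a b c d e f g h D => (A (L (X (A (A (L (R D 800) 4294967295) (X c (L (R D 21024) 4294967295))) (S M (L (X 2147483648 (A 1 (X c 1))) N))) 1) N) (S M (L (A (L (X (A (L (R D 17792) 4294967295) (X c (L (R D 38016) 4294967295))) (A 0 (S M (L (L (X 12 1) N) N)))) N) (A (L (X (A (L (R D 17856) 4294967295) (X c (L (R D 38080) 4294967295))) (L (X 2 1) N)) N) (L (X (A (L (R D 17888) 4294967295) (X c (L (R D 38112) 4294967295))) (A 0 (S M (L (L (X 24 1) N) N)))) N))) N))), 39, 1, 1, 2, 1⟩,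
  ⟨fun A S X L P R M N m a b c d e f g h D => (A (L (X (A (A (L (R D 832) 4294967295) (X c (L (R D 21056) 4294967295))) (S M (L (X 2147483648 (A 1 (X c 1))) N))) 1) N) (S M (L (A (L (X (A (L (R D 17824) 4294967295) (X c (L (R D 38048) 4294967295))) (A 0 (S M (L (L (X 12 1) N) N)))) N) (A (L (X (A (L (R D 17856) 4294967295) (X c (L (R D 38080) 4294967295))) (A 0 (S M (L (L (X 12 1) N) N)))) N) (L (X (A (L (R D 17888) 4294967295) (X c (L (R D 38112) 4294967295))) (L (X 144 1) N)) N))) N))), 41, 1, 1, 2, 1⟩,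
  ⟨fun A S X L P R M N m a b c d e f g h D => (A (A (L (X (L (X 1024 (L (X (A (A (L (R D 896) 4294967295) (X c (L (R D 21120) 4294967295))) (S M (L (X 2147483648 (A 1 (X c 1))) N))) (A (L (X 853 e) N) (L (X 171 1) N))) N)) N) e) N) (L (X (A (A (L (R D 928) 4294967295) (X c (L (R D 21152) 4294967295))) (S M (L (X 2147483648 (A 1 (X c 1))) N))) (L (X (L (X 171 a) N) (A (L (X 853 e) N) (L (X 171 1) N))) N)) N)) (S M (L (L (X (L (X 1024 (A (L (X (A (L (R D 18080) 4294967295) (X c (L (R D 38304) 4294967295))) (L (X 2 (A (L (X 853 e) N) (L (X 171 1) N))) N)) N) (A (L (X (A (L (R D 18112) 4294967295) (X c (L (R D 38336) 4294967295))) (A (L (X 853 e) N) (L (X 171 1) N))) N) (L (X (A (L (R D 18208) 4294967295) (X c (L (R D 38432) 4294967295))) (L (X 2 (A (L (X 853 e) N) (L (X 171 1) N))) N)) N)))) N) e) N) N))), 58, 3, 1, 2, 1⟩,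
  ⟨fun A S X L P R M N m a b c d e f g h D => (A (L (X (A (L (X (L (X 1024 (A (A (L (R D 960) 4294967295) (X c (L (R D 21184) 4294967295))) (S M (L (X 2147483648 (A 1 (X c 1))) N)))) N) e) N) (L (X (L (X 171 a) N) (A (A (L (R D 1056) 4294967295) (X c (L (R D 21280) 4294967295))) (S M (L (X 2147483648 (A 1 (X c 1))) N)))) N)) 1) N) (S M (L (L (X (L (X 1024 (A (L (X (A (L (R D 18080) 4294967295) (X c (L (R D 38304) 4294967295))) (A 0 (S M (L (L (X 12 1) N) N)))) N) (A (L (X (A (L (R D 18144) 4294967295) (X c (L (R D 38368) 4294967295))) 1) N) (L (X (A (L (R D 18208) 4294967295) (X c (L (R D 38432) 4294967295))) (A 0 (S M (L (L (X 12 1) N) N)))) N)))) N) e) N) N))), 49, 2, 1, 2, 1⟩,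
  ⟨fun A S X L P R M N m a b c d e f g h D => (A (L (X (A (A (L (R D 992) 4294967295) (X c (L (R D 21216) 4294967295))) (S M (L (X 2147483648 (A 1 (X c 1))) N))) 1) N) (S M (L (A (L (X (A (L (R D 18112) 4294967295) (X c (L (R D 38336) 4294967295))) (A 0 (S M (L (L (X 12 1) N) N)))) N) (A (L (X (A (L (R D 18176) 4294967295) (X c (L (R D 38400) 4294967295))) (L (X 2 1) N)) N) (L (X (A (L (R D 18208) 4294967295) (X c (L (R D 38432) 4294967295))) (A 0 (S M (L (L (X 24 1) N) N)))) N))) N))), 39, 1, 1, 2, 1⟩,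
  ⟨fun A S X L P R M N m a b c d e f g h D => (A (L (X (A (A (L (R D 1024) 4294967295) (X c (L (R D 21248) 4294967295))) (S M (L (X 2147483648 (A 1 (X c 1))) N))) 1) N) (S M (L (A (L (X (A (L (R D 18144) 4294967295) (X c (L (R D 38368) 4294967295))) (A 0 (S M (L (L (X 12 1) N) N)))) N) (A (L (X (A (L (R D 18176) 4294967295) (X c (L (R D 38400) 4294967295))) (A 0 (S M (L (L (X 12 1) N) N)))) N) (L (X (A (L (R D 18208) 4294967295) (X c (L (R D 38432) 4294967295))) (L (X 144 1) N)) N))) N))), 41, 1, 1, 2, 1⟩,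
  ⟨fun A S X L P R M N m a b c d e f g h D => (A (A (L (X (L (X (L (X 288230376151711744 (A (L (X (A (L (R D 9120) 4294967295) (X c (L (R D 29344) 4294967295))) (L (X 1 (A (L (X 853 e) N) (L (X 171 1) N))) N)) N) (L (X (L (X 1024 (L (X (A (L (R D 9152) 4294967295) (X c (L (R D 29376) 4294967295))) 1) N)) N) e) N))) N) (P e 5)) N) (P g 2)) N) (S M (L (L (X (A (L (X 1 (A (L (R D 128) 4294967295) (X a (A (L (R D 160) 4294967295) (X a (L (R D 192) 4294967295)))))) N) (L (X c (A (L (R D 20352) 4294967295) (X a (A (L (R D 20384) 4294967295) (X a (L (R D 20416) 4294967295)))))) N)) (A (L (X (A (L (X 1 (A (L (R D 224) 4294967295) (X a (A (L (R D 256) 4294967295) (X a (L (R D 288) 4294967295)))))) N) (L (X c (A (L (R D 20448) 4294967295) (X a (A (L (R D 20480) 4294967295) (X a (L (R D 20512) 4294967295)))))) N)) (A (L (X (L (X 1024 (L (X (A (A (L (R D 896) 4294967295) (X c (L (R D 21120) 4294967295)))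 (S M (L (X 2147483648 (A 1 (X c 1))) N))) (A (L (X 853 e) N) (L (X 171 1) N))) N)) N) e) N) (L (X (A (A (L (R D 928) 4294967295) (X c (L (R D 21152) 4294967295))) (S M (L (X 2147483648 (A 1 (X c 1))) N))) (L (X (L (X 171 a) N) (A (L (X 853 e) N) (L (X 171 1) N))) N)) N))) N) (L (X (L (X (L (X 17179869184 (L (X (A (A (L (R D 9696) 4294967295) (X c (L (R D 29920) 4294967295))) (S M (L (X 2147483648 (A 1 (X c 1))) N))) (A (L (X 853 e) N) (L (X 171 1) N))) N)) N) (P e 3)) N) g) N))) N) N))) (S M (L (L (X (L (X (L (X 288230376151711744 (A (L (X (A (L (R D 18400) 4294967295) (X c (L (R D 38624) 4294967295))) (L (X 2 (A (L (X 853 e) N) (L (X 171 1) N))) N)) N) (A (L (X (A (L (R D 18432) 4294967295) (X c (L (R D 38656) 4294967295))) (A (L (X 853 e) N) (L (X 171 1) N))) N) (L (X (A (L (R D 18528) 4294967295) (X c (L (R D 38752) 4294967295))) (L (X 2 (A (L (X 853 e) N) (L (X 171 1) N))) N)) N))))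 N) (P e 5)) N) (P g 2)) N) N))), 125, 7, 1, 4, 1⟩,
  ⟨fun A S X L P R M N m a b c d e f g h D => (A (A (L (X (L (X 0 (P e 5)) N) (P g 3)) N) (S M (L (L (X (A (L (X 1 (A (L (R D 128) 4294967295) (X a (A (L (R D 160) 4294967295) (X a (L (R D 192) 4294967295)))))) N) (L (X c (A (L (R D 20352) 4294967295) (X a (A (L (R D 20384) 4294967295) (X a (L (R D 20416) 4294967295)))))) N)) (A (L (X (A (L (X 1 (A (L (R D 224) 4294967295) (X a (A (L (R D 256) 4294967295) (X a (L (R D 288) 4294967295)))))) N) (L (X c (A (L (R D 20448) 4294967295) (X a (A (L (R D 20480) 4294967295) (X a (L (R D 20512) 4294967295)))))) N)) (L (X (A (L (X (L (X 1024 (A (A (L (R D 960) 4294967295) (X c (L (R D 21184) 4294967295))) (S M (L (X 2147483648 (A 1 (X c 1))) N)))) N) e) N) (L (X (L (X 171 a) N) (A (A (L (R D 1056) 4294967295) (X c (L (R D 21280) 4294967295))) (S M (L (X 2147483648 (A 1 (X c 1))) N)))) N)) 1) N))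 N) (L (X (L (X (L (X 17179869184 (L (X (A (A (L (R D 9728) 4294967295) (X c (L (R D 29952) 4294967295))) (S M (L (X 2147483648 (A 1 (X c 1))) N))) 1) N)) N) (P e 3)) N) g) N))) N) N))) (S M (L (L (X (L (X (L (X 288230376151711744 (A (L (X (A (L (R D 18400) 4294967295) (X c (L (R D 38624) 4294967295))) (A 0 (S M (L (L (X 12 1) N) N)))) N) (A (L (X (A (L (R D 18464) 4294967295) (X c (L (R D 38688) 4294967295))) 1) N) (L (X (A (L (R D 18528) 4294967295) (X c (L (R D 38752) 4294967295))) (A 0 (S M (L (L (X 12 1) N) N)))) N)))) N) (P e 5)) N) (P g 2)) N) N))), 114, 6, 1, 4, 1⟩,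
  ⟨fun A S X L P R M N m a b c d e f g h D => (A (A (L (X (L (X 0 (P e 4)) N) (P g 3)) N) (S M (L (L (X (A (L (X 1 (A (L (R D 128) 4294967295) (X a (A (L (R D 160) 4294967295) (X a (L (R D 192) 4294967295)))))) N) (L (X c (A (L (R D 20352) 4294967295) (X a (A (L (R D 20384) 4294967295) (X a (L (R D 20416) 4294967295)))))) N)) (A (L (X (A (L (X 1 (A (L (R D 224) 4294967295) (X a (A (L (R D 256) 4294967295) (X a (L (R D 288) 4294967295)))))) N) (L (X c (A (L (R D 20448) 4294967295) (X a (A (L (R D 20480) 4294967295) (X a (L (R D 20512) 4294967295)))))) N)) (L (X (A (A (L (R D 992) 4294967295) (X c (L (R D 21216) 4294967295))) (S M (L (X 2147483648 (A 1 (X c 1))) N))) 1) N)) N) (L (X (L (X (L (X 16777216 (L (X (A (A (L (R D 9760) 4294967295) (X c (L (R D 29984) 4294967295))) (S M (L (X 2147483648 (A 1 (X c 1))) N))) 1) N)) N) (P e 2)) N) g) N))) N) N))) (S M (L (L (X (L (X (L (X 281474976710656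 (A (L (X (A (L (R D 18432) 4294967295) (X c (L (R D 38656) 4294967295))) (A 0 (S M (L (L (X 12 1) N) N)))) N) (A (L (X (A (L (R D 18496) 4294967295) (X c (L (R D 38720) 4294967295))) (L (X 2 1) N)) N) (L (X (A (L (R D 18528) 4294967295) (X c (L (R D 38752) 4294967295))) (A 0 (S M (L (L (X 24 1) N) N)))) N)))) N) (P e 4)) N) (P g 2)) N) N))), 103, 5, 1, 4, 1⟩,
  ⟨fun A S X L P R M N m a b c d e f g h D => (A (A (L (X (L (X 0 (P e 4)) N) (P g 3)) N) (S M (L (L (X (A (L (X 1 (A (L (R D 128) 4294967295) (X a (A (L (R D 160) 4294967295) (X a (L (R D 192) 4294967295)))))) N) (L (X c (A (L (R D 20352) 4294967295) (X a (A (L (R D 20384) 4294967295) (X a (L (R D 20416) 4294967295)))))) N)) (A (L (X (A (L (X 1 (A (L (R D 224) 4294967295) (X a (A (L (R D 256) 4294967295) (X a (L (R D 288) 4294967295)))))) N) (L (X c (A (L (R D 20448) 4294967295) (X a (A (L (R D 20480) 4294967295) (X a (L (R D 20512)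 4294967295)))))) N)) (L (X (A (A (L (R D 1024) 4294967295) (X c (L (R D 21248) 4294967295))) (S M (L (X 2147483648 (A 1 (X c 1))) N))) 1) N)) N) (L (X (L (X (L (X 16777216 (L (X (A (A (L (R D 9792) 4294967295) (X c (L (R D 30016) 4294967295))) (S M (L (X 2147483648 (A 1 (X c 1))) N))) 1) N)) N) (P e 2)) N) g) N))) N) N))) (S M (L (L (X (L (X (L (X 281474976710656 (A (L (X (A (L (R D 18464) 4294967295) (X c (L (R D 38688) 4294967295))) (A 0 (S M (L (L (X 12 1) N) N)))) N) (A (L (X (A (L (R D 18496) 4294967295) (X c (L (R D 38720) 4294967295))) (A 0 (S M (L (L (X 12 1) N) N)))) N) (L (X (A (L (R D 18528) 4294967295) (X c (L (R D 38752) 4294967295))) (L (X 144 1) N)) N)))) N) (P e 4)) N) (P g 2)) N) N))), 103, 5, 1, 4, 1⟩,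
  ⟨fun A S X L P R M N m a b c d e f g h D => (A (A (L (X (L (X (L (X 288230376151711744 (A (L (X (A (L (R D 9248) 4294967295) (X c (L (R D 29472) 4294967295))) (L (X 1 (A (L (X 853 e) N) (L (X 171 1) N))) N)) N) (L (X (L (X 1024 (L (X (A (L (R D 9280) 4294967295) (X c (L (R D 29504) 4294967295))) 1) N)) N) e) N))) N) (P e 5)) N) (P g 2)) N) (S M (L (L (X (A (L (X 1 (A (L (R D 128) 4294967295) (X a (A (L (R D 160) 4294967295) (X a (L (R D 192) 4294967295)))))) N) (L (X c (A (L (R D 20352) 4294967295) (X a (A (L (R D 20384) 4294967295) (X a (L (R D 20416) 4294967295)))))) N)) (A (L (X (A (L (X 1 (A (L (R D 224) 4294967295) (X a (A (L (R D 256) 4294967295) (X a (L (R D 288) 4294967295)))))) N) (L (X c (A (L (R D 20448) 4294967295) (X a (A (L (R D 20480) 4294967295) (X a (L (R D 20512) 4294967295)))))) N)) (A (L (X (L (X 1024 (L (X (A (A (L (R D 704) 4294967295) (X c (L (R D 20928) 4294967295)))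 (S M (L (X 2147483648 (A 1 (X c 1))) N))) (A (L (X 853 e) N) (L (X 171 1) N))) N)) N) e) N) (L (X (A (A (L (R D 736) 4294967295) (X c (L (R D 20960) 4294967295))) (S M (L (X 2147483648 (A 1 (X c 1))) N))) (L (X (L (X 171 a) N) (A (L (X 853 e) N) (L (X 171 1) N))) N)) N))) N) (L (X (L (X (L (X 17179869184 (L (X (A (A (L (R D 9952) 4294967295) (X c (L (R D 30176) 4294967295))) (S M (L (X 2147483648 (A 1 (X c 1))) N))) (A (L (X 853 e) N) (L (X 171 1) N))) N)) N) (P e 3)) N) g) N))) N) N))) (S M (L (L (X (L (X (L (X 288230376151711744 (A (L (X (A (L (R D 18720) 4294967295) (X c (L (R D 38944) 4294967295))) (L (X 2 (A (L (X 853 e) N) (L (X 171 1) N))) N)) N) (A (L (X (A (L (R D 18752) 4294967295) (X c (L (R D 38976) 4294967295))) (A (L (X 853 e) N) (L (X 171 1) N))) N) (L (X (A (L (R D 18848) 4294967295) (X c (L (R D 39072) 4294967295))) (L (X 2 (A (L (X 853 e) N) (L (X 171 1) N))) N)) N))))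 N) (P e 5)) N) (P g 2)) N) N))), 125, 7, 1, 4, 1⟩,
  ⟨fun A S X L P R M N m a b c d e f g h D => (A (A (L (X (L (X 0 (P e 5)) N) (P g 3)) N) (S M (L (L (X (A (L (X 1 (A (L (R D 128) 4294967295) (X a (A (L (R D 160) 4294967295) (X a (L (R D 192) 4294967295)))))) N) (L (X c (A (L (R D 20352) 4294967295) (X a (A (L (R D 20384) 4294967295) (X a (L (R D 20416) 4294967295)))))) N)) (A (L (X (A (L (X 1 (A (L (R D 224) 4294967295) (X a (A (L (R D 256) 4294967295) (X a (L (R D 288) 4294967295)))))) N) (L (X c (A (L (R D 20448) 4294967295) (X a (A (L (R D 20480) 4294967295) (X a (L (R D 20512) 4294967295)))))) N)) (L (X (A (L (X (L (X 1024 (A (A (L (R D 768) 4294967295) (X c (L (R D 20992) 4294967295))) (S M (L (X 2147483648 (A 1 (X c 1))) N)))) N) e) N) (L (X (L (X 171 a) N) (A (A (L (R D 864) 4294967295) (X c (L (R D 21088) 4294967295))) (S M (L (X 2147483648 (A 1 (X c 1))) N)))) N)) 1) N))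 N) (L (X (L (X (L (X 17179869184 (L (X (A (A (L (R D 9984) 4294967295) (X c (L (R D 30208) 4294967295))) (S M (L (X 2147483648 (A 1 (X c 1))) N))) 1) N)) N) (P e 3)) N) g) N))) N) N))) (S M (L (L (X (L (X (L (X 288230376151711744 (A (L (X (A (L (R D 18720) 4294967295) (X c (L (R D 38944) 4294967295))) (A 0 (S M (L (L (X 12 1) N) N)))) N) (A (L (X (A (L (R D 18784) 4294967295) (X c (L (R D 39008) 4294967295))) 1) N) (L (X (A (L (R D 18848) 4294967295) (X c (L (R D 39072) 4294967295))) (A 0 (S M (L (L (X 12 1) N) N)))) N)))) N) (P e 5)) N) (P g 2)) N) N))), 114, 6, 1, 4, 1⟩,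
  ⟨fun A S X L P R M N m a b c d e f g h D => (A (A (L (X (L (X 0 (P e 4)) N) (P g 3)) N) (S M (L (L (X (A (L (X 1 (A (L (R D 128) 4294967295) (X a (A (L (R D 160) 4294967295) (X a (L (R D 192) 4294967295)))))) N) (L (X c (A (L (R D 20352) 4294967295) (X a (A (L (R D 20384) 4294967295) (X a (L (R D 20416) 4294967295)))))) N)) (A (L (X (A (L (X 1 (A (L (R D 224) 4294967295) (X a (A (L (R D 256) 4294967295) (X a (L (R D 288) 4294967295)))))) N) (L (X c (A (L (R D 20448) 4294967295) (X a (A (L (R D 20480) 4294967295) (X a (L (R D 20512) 4294967295)))))) N)) (L (X (A (A (L (R D 800) 4294967295) (X c (L (R D 21024) 4294967295))) (S M (L (X 2147483648 (A 1 (X c 1))) N))) 1) N)) N) (L (X (L (X (L (X 16777216 (L (X (A (A (L (R D 10016) 4294967295) (X c (L (R D 30240) 4294967295))) (S M (L (X 2147483648 (A 1 (X c 1))) N))) 1) N)) N) (P e 2)) N) g) N))) N) N))) (S M (L (L (X (L (X (L (X 281474976710656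 (A (L (X (A (L (R D 18752) 4294967295) (X c (L (R D 38976) 4294967295))) (A 0 (S M (L (L (X 12 1) N) N)))) N) (A (L (X (A (L (R D 18816) 4294967295) (X c (L (R D 39040) 4294967295))) (L (X 2 1) N)) N) (L (X (A (L (R D 18848) 4294967295) (X c (L (R D 39072) 4294967295))) (A 0 (S M (L (L (X 24 1) N) N)))) N)))) N) (P e 4)) N) (P g 2)) N) N))), 103, 5, 1, 4, 1⟩,
  ⟨fun A S X L P R M N m a b c d e f g h D => (A (A (L (X (L (X 0 (P e 4)) N) (P g 3)) N) (S M (L (L (X (A (L (X 1 (A (L (R D 128) 4294967295) (X a (A (L (R D 160) 4294967295) (X a (L (R D 192) 4294967295)))))) N) (L (X c (A (L (R D 20352) 4294967295) (X a (A (L (R D 20384) 4294967295) (X a (L (R D 20416) 4294967295)))))) N)) (A (L (X (A (L (X 1 (A (L (R D 224) 4294967295) (X a (A (L (R D 256) 4294967295) (X a (L (R D 288) 4294967295)))))) N) (L (X c (A (L (R D 20448) 4294967295) (X a (A (L (R D 20480) 4294967295) (X a (L (R D 20512)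 4294967295)))))) N)) (L (X (A (A (L (R D 832) 4294967295) (X c (L (R D 21056) 4294967295))) (S M (L (X 2147483648 (A 1 (X c 1))) N))) 1) N)) N) (L (X (L (X (L (X 16777216 (L (X (A (A (L (R D 10048) 4294967295) (X c (L (R D 30272) 4294967295))) (S M (L (X 2147483648 (A 1 (X c 1))) N))) 1) N)) N) (P e 2)) N) g) N))) N) N))) (S M (L (L (X (L (X (L (X 281474976710656 (A (L (X (A (L (R D 18784) 4294967295) (X c (L (R D 39008) 4294967295))) (A 0 (S M (L (L (X 12 1) N) N)))) N) (A (L (X (A (L (R D 18816) 4294967295) (X c (L (R D 39040) 4294967295))) (A 0 (S M (L (L (X 12 1) N) N)))) N) (L (X (A (L (R D 18848) 4294967295) (X c (L (R D 39072) 4294967295))) (L (X 144 1) N)) N)))) N) (P e 4)) N) (P g 2)) N) N))), 103, 5, 1, 4, 1⟩,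
  ⟨fun A S X L P R M N m a b c d e f g h D => (A (A (L (X (L (X (L (X 16777216 (A (L (X (A (L (R D 9376) 4294967295) (X c (L (R D 29600) 4294967295))) (L (X 1 (A (L (X 853 e) N) (L (X 171 1) N))) N)) N) (L (X (L (X 1024 (L (X (A (L (R D 9408) 4294967295) (X c (L (R D 29632) 4294967295))) 1) N)) N) e) N))) N) (P e 2)) N) g) N) (S M (L (L (X (A (L (X 1 (A (L (R D 128) 4294967295) (X a (A (L (R D 160) 4294967295) (X a (L (R D 192) 4294967295)))))) N) (L (X c (A (L (R D 20352) 4294967295) (X a (A (L (R D 20384) 4294967295) (X a (L (R D 20416) 4294967295)))))) N)) (L (X (A (A (L (R D 10464) 4294967295) (X c (L (R D 30688) 4294967295))) (S M (L (X 2147483648 (A 1 (X c 1))) N))) (A (L (X 853 e) N) (L (X 171 1) N))) N)) N) N))) (S M (L (L (X (L (X (L (X 16777216 (A (L (X (A (L (R D 19040) 4294967295) (X c (L (R D 39264) 4294967295))) (L (X 2 (A (L (X 853 e) N) (L (X 171 1) N))) N)) N) (A (L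 (X (A (L (R D 19072) 4294967295) (X c (L (R D 39296) 4294967295))) (A (L (X 853 e) N) (L (X 171 1) N))) N) (L (X (A (L (R D 19168) 4294967295) (X c (L (R D 39392) 4294967295))) (L (X 2 (A (L (X 853 e) N) (L (X 171 1) N))) N)) N)))) N) (P e 2)) N) g) N) N))), 79, 4, 1, 3, 1⟩,
  ⟨fun A S X L P R M N m a b c d e f g h D => (A (A (L (X (L (X 0 (P e 2)) N) (P g 2)) N) (S M (L (L (X (A (L (X 1 (A (L (R D 128) 4294967295) (X a (A (L (R D 160) 4294967295) (X a (L (R D 192) 4294967295)))))) N) (L (X c (A (L (R D 20352) 4294967295) (X a (A (L (R D 20384) 4294967295) (X a (L (R D 20416) 4294967295)))))) N)) (L (X (A (A (L (R D 10496) 4294967295) (X c (L (R D 30720) 4294967295))) (S M (L (X 2147483648 (A 1 (X c 1))) N))) 1) N)) N) N))) (S M (L (L (X (L (X (L (X 16777216 (A (L (X (A (L (R D 19040) 4294967295) (X c (L (R D 39264) 4294967295))) (A 0 (S M (L (L (X 12 1) N) N)))) N) (A (L (X (A (L (R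 D 19104) 4294967295) (X c (L (R D 39328) 4294967295))) 1) N) (L (X (A (L (R D 19168) 4294967295) (X c (L (R D 39392) 4294967295))) (A 0 (S M (L (L (X 12 1) N) N)))) N)))) N) (P e 2)) N) g) N) N))), 68, 3, 1, 3, 1⟩,
  ⟨fun A S X L P R M N m a b c d e f g h D => (A (A (L (X (L (X 0 (P e 2)) N) (P g 2)) N) (S M (L (L (X (A (L (X 1 (A (L (R D 128) 4294967295) (X a (A (L (R D 160) 4294967295) (X a (L (R D 192) 4294967295)))))) N) (L (X c (A (L (R D 20352) 4294967295) (X a (A (L (R D 20384) 4294967295) (X a (L (R D 20416) 4294967295)))))) N)) (L (X (A (A (L (R D 10528) 4294967295) (X c (L (R D 30752) 4294967295))) (S M (L (X 2147483648 (A 1 (X c 1))) N))) 1) N)) N) N))) (S M (L (L (X (L (X (L (X 16777216 (A (L (X (A (L (R D 19072) 4294967295) (X c (L (R D 39296) 4294967295))) (A 0 (S M (L (L (X 12 1) N) N)))) N) (A (L (X (A (L (R D 19136) 4294967295) (X c (L (R D 39360) 4294967295))) (L (X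 2 1) N)) N) (L (X (A (L (R D 19168) 4294967295) (X c (L (R D 39392) 4294967295))) (A 0 (S M (L (L (X 24 1) N) N)))) N)))) N) (P e 2)) N) g) N) N))), 68, 3, 1, 3, 1⟩,
  ⟨fun A S X L P R M N m a b c d e f g h D => (A (A (L (X (L (X 0 (P e 2)) N) (P g 2)) N) (S M (L (L (X (A (L (X 1 (A (L (R D 128) 4294967295) (X a (A (L (R D 160) 4294967295) (X a (L (R D 192) 4294967295)))))) N) (L (X c (A (L (R D 20352) 4294967295) (X a (A (L (R D 20384) 4294967295) (X a (L (R D 20416) 4294967295)))))) N)) (L (X (A (A (L (R D 10560) 4294967295) (X c (L (R D 30784) 4294967295))) (S M (L (X 2147483648 (A 1 (X c 1))) N))) 1) N)) N) N))) (S M (L (L (X (L (X (L (X 16777216 (A (L (X (A (L (R D 19104) 4294967295) (X c (L (R D 39328) 4294967295))) (A 0 (S M (L (L (X 12 1) N) N)))) N) (A (L (X (A (L (R D 19136) 4294967295) (X c (L (R D 39360) 4294967295))) (A 0 (S M (L (L (X 12 1) N) N)))) N) (L (X (A (L (R D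 19168) 4294967295) (X c (L (R D 39392) 4294967295))) (L (X 144 1) N)) N)))) N) (P e 2)) N) g) N) N))), 69, 3, 1, 3, 1⟩,
  ⟨fun A S X L P R M N m a b c d e f g h D => (A (A (L (X (L (X (L (X 288230376151711744 (A (L (X (A (L (R D 9504) 4294967295) (X c (L (R D 29728) 4294967295))) (L (X 1 (A (L (X 853 e) N) (L (X 171 1) N))) N)) N) (L (X (L (X 1024 (L (X (A (L (R D 9536) 4294967295) (X c (L (R D 29760) 4294967295))) 1) N)) N) e) N))) N) (P e 5)) N) (P g 2)) N) (S M (L (L (X (A (L (X 1 (A (L (R D 128) 4294967295) (X a (A (L (R D 160) 4294967295) (X a (L (R D 192) 4294967295)))))) N) (L (X c (A (L (R D 20352) 4294967295) (X a (A (L (R D 20384) 4294967295) (X a (L (R D 20416) 4294967295)))))) N)) (A (L (X (A (L (X 1 (A (L (R D 224) 4294967295) (X a (A (L (R D 256) 4294967295) (X a (L (R D 288) 4294967295)))))) N) (L (X c (A (L (R D 20448) 4294967295) (X a (A (L (R D 20480) 4294967295) (X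 a (L (R D 20512) 4294967295)))))) N)) (A (L (X (L (X 1024 (L (X (A (A (L (R D 896) 4294967295) (X c (L (R D 21120) 4294967295))) (S M (L (X 2147483648 (A 1 (X c 1))) N))) (A (L (X 853 e) N) (L (X 171 1) N))) N)) N) e) N) (L (X (A (A (L (R D 928) 4294967295) (X c (L (R D 21152) 4294967295))) (S M (L (X 2147483648 (A 1 (X c 1))) N))) (L (X (L (X 171 a) N) (A (L (X 853 e) N) (L (X 171 1) N))) N)) N))) N) (L (X (L (X (L (X 17179869184 (L (X (A (A (L (R D 10208) 4294967295) (X c (L (R D 30432) 4294967295))) (S M (L (X 2147483648 (A 1 (X c 1))) N))) (A (L (X 853 e) N) (L (X 171 1) N))) N)) N) (P e 3)) N) g) N))) N) N))) (S M (L (L (X (L (X (L (X 288230376151711744 (A (L (X (A (L (R D 19360) 4294967295) (X c (L (R D 39584) 4294967295))) (L (X 2 (A (L (X 853 e) N) (L (X 171 1) N))) N)) N) (A (L (X (A (L (R D 19392) 4294967295) (X c (L (R D 39616) 4294967295))) (A (L (X 853 e) N) (L (X 171 1)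 N))) N) (L (X (A (L (R D 19488) 4294967295) (X c (L (R D 39712) 4294967295))) (L (X 2 (A (L (X 853 e) N) (L (X 171 1) N))) N)) N)))) N) (P e 5)) N) (P g 2)) N) N))), 125, 7, 1, 4, 1⟩,
  ⟨fun A S X L P R M N m a b c d e f g h D => (A (A (L (X (L (X 0 (P e 5)) N) (P g 3)) N) (S M (L (L (X (A (L (X 1 (A (L (R D 128) 4294967295) (X a (A (L (R D 160) 4294967295) (X a (L (R D 192) 4294967295)))))) N) (L (X c (A (L (R D 20352) 4294967295) (X a (A (L (R D 20384) 4294967295) (X a (L (R D 20416) 4294967295)))))) N)) (A (L (X (A (L (X 1 (A (L (R D 224) 4294967295) (X a (A (L (R D 256) 4294967295) (X a (L (R D 288) 4294967295)))))) N) (L (X c (A (L (R D 20448) 4294967295) (X a (A (L (R D 20480) 4294967295) (X a (L (R D 20512) 4294967295)))))) N)) (L (X (A (L (X (L (X 1024 (A (A (L (R D 960) 4294967295) (X c (L (R D 21184) 4294967295))) (S M (L (X 2147483648 (A 1 (X c 1))) N)))) N) e) N) (L (X (L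 (X 171 a) N) (A (A (L (R D 1056) 4294967295) (X c (L (R D 21280) 4294967295))) (S M (L (X 2147483648 (A 1 (X c 1))) N)))) N)) 1) N)) N) (L (X (L (X (L (X 17179869184 (L (X (A (A (L (R D 10240) 4294967295) (X c (L (R D 30464) 4294967295))) (S M (L (X 2147483648 (A 1 (X c 1))) N))) 1) N)) N) (P e 3)) N) g) N))) N) N))) (S M (L (L (X (L (X (L (X 288230376151711744 (A (L (X (A (L (R D 19360) 4294967295) (X c (L (R D 39584) 4294967295))) (A 0 (S M (L (L (X 12 1) N) N)))) N) (A (L (X (A (L (R D 19424) 4294967295) (X c (L (R D 39648) 4294967295))) 1) N) (L (X (A (L (R D 19488) 4294967295) (X c (L (R D 39712) 4294967295))) (A 0 (S M (L (L (X 12 1) N) N)))) N)))) N) (P e 5)) N) (P g 2)) N) N))), 114, 6, 1, 4, 1⟩,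
  ⟨fun A S X L P R M N m a b c d e f g h D => (A (A (L (X (L (X 0 (P e 4)) N) (P g 3)) N) (S M (L (L (X (A (L (X 1 (A (L (R D 128) 4294967295) (X a (A (L (R D 160) 4294967295) (X a (L (R D 192) 4294967295)))))) N) (L (X c (A (L (R D 20352) 4294967295) (X a (A (L (R D 20384) 4294967295) (X a (L (R D 20416) 4294967295)))))) N)) (A (L (X (A (L (X 1 (A (L (R D 224) 4294967295) (X a (A (L (R D 256) 4294967295) (X a (L (R D 288) 4294967295)))))) N) (L (X c (A (L (R D 20448) 4294967295) (X a (A (L (R D 20480) 4294967295) (X a (L (R D 20512) 4294967295)))))) N)) (L (X (A (A (L (R D 992) 4294967295) (X c (L (R D 21216) 4294967295))) (S M (L (X 2147483648 (A 1 (X c 1))) N))) 1) N)) N) (L (X (L (X (L (X 16777216 (L (X (A (A (L (R D 10272) 4294967295) (X c (L (R D 30496) 4294967295))) (S M (L (X 2147483648 (A 1 (X c 1))) N))) 1) N)) N) (P e 2)) N) g) N))) N) N))) (S M (L (L (X (L (X (L (X 281474976710656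 (A (L (X (A (L (R D 19392) 4294967295) (X c (L (R D 39616) 4294967295))) (A 0 (S M (L (L (X 12 1) N) N)))) N) (A (L (X (A (L (R D 19456) 4294967295) (X c (L (R D 39680) 4294967295))) (L (X 2 1) N)) N) (L (X (A (L (R D 19488) 4294967295) (X c (L (R D 39712) 4294967295))) (A 0 (S M (L (L (X 24 1) N) N)))) N)))) N) (P e 4)) N) (P g 2)) N) N))), 103, 5, 1, 4, 1⟩,
  ⟨fun A S X L P R M N m a b c d e f g h D => (A (A (L (X (L (X 0 (P e 4)) N) (P g 3)) N) (S M (L (L (X (A (L (X 1 (A (L (R D 128) 4294967295) (X a (A (L (R D 160) 4294967295) (X a (L (R D 192) 4294967295)))))) N) (L (X c (A (L (R D 20352) 4294967295) (X a (A (L (R D 20384) 4294967295) (X a (L (R D 20416) 4294967295)))))) N)) (A (L (X (A (L (X 1 (A (L (R D 224) 4294967295) (X a (A (L (R D 256) 4294967295) (X a (L (R D 288) 4294967295)))))) N) (L (X c (A (L (R D 20448) 4294967295) (X a (A (L (R D 20480) 4294967295) (X a (L (R D 20512)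 4294967295)))))) N)) (L (X (A (A (L (R D 1024) 4294967295) (X c (L (R D 21248) 4294967295))) (S M (L (X 2147483648 (A 1 (X c 1))) N))) 1) N)) N) (L (X (L (X (L (X 16777216 (L (X (A (A (L (R D 10304) 4294967295) (X c (L (R D 30528) 4294967295))) (S M (L (X 2147483648 (A 1 (X c 1))) N))) 1) N)) N) (P e 2)) N) g) N))) N) N))) (S M (L (L (X (L (X (L (X 281474976710656 (A (L (X (A (L (R D 19424) 4294967295) (X c (L (R D 39648) 4294967295))) (A 0 (S M (L (L (X 12 1) N) N)))) N) (A (L (X (A (L (R D 19456) 4294967295) (X c (L (R D 39680) 4294967295))) (A 0 (S M (L (L (X 12 1) N) N)))) N) (L (X (A (L (R D 19488) 4294967295) (X c (L (R D 39712) 4294967295))) (L (X 144 1) N)) N)))) N) (P e 4)) N) (P g 2)) N) N))), 103, 5, 1, 4, 1⟩,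
  ⟨fun A S X L P R M N m a b c d e f g h D => (A (A (L (X 1 (A (L (R D 128) 4294967295) (X a (A (L (R D 160) 4294967295) (X a (L (R D 192) 4294967295)))))) N) (L (X c (A (L (R D 20352) 4294967295) (X a (A (L (R D 20384) 4294967295) (X a (L (R D 20416) 4294967295)))))) N)) (S M (L (L (X (L (X (L (X 16777216 1) N) (P e 2)) N) g) N) N))), 35, 3, 1, 2, 1⟩,
  ⟨fun A S X L P R M N m a b c d e f g h D => (A 1 (S M (L 1 N))), 2, 1, 1, 1, 1⟩,
  ⟨fun A S X L P R M N m a b c d e f g h D => (A 1 (S M (L 1 N))), 2, 1, 1, 1, 1⟩,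
  ⟨fun A S X L P R M N m a b c d e f g h D => (A 1 (S M (L 1 N))), 2, 1, 1, 1, 1⟩,
  ⟨fun A S X L P R M N m a b c d e f g h D => (A 1 (S M (L 1 N))), 2, 1, 1, 1, 1⟩,
  ⟨fun A S X L P R M N m a b c d e f g h D => (A 1 (S M (L 1 N))), 2, 1, 1, 1, 1⟩,
  ⟨fun A S X L P R M N m a b c d e f g h D => (A 1 (S M (L 1 N))), 2, 1, 1, 1, 1⟩,
  ⟨fun A S X L P R M N m a b c d e f g h D => (A (L (R D 0) 4294967295) (S M (L 1 N))), 33, 1, 1, 1, 1⟩,
  ⟨fun A S X L P R M N m a b c d e f g h D => (A (L (X 33554432 (A (L (R D 4608) 4294967295) m)) N) (S M (L (A (L (X 33554432 (A (L (R D 24832) 4294967295) m)) N) (L (X 1 (L (X (L (R D 0) 4294967295) (A (A (L (R D 4576) 4294967295) m) (A (L (R D 24800) 4294967295) m))) N)) N)) N))), 66, 1, 1, 1, 1⟩,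
  ⟨fun A S X L P R M N m a b c d e f g h D => (A (A (L (R D 4640) 4294967295) m) (S M (L (A (L (R D 4608) 4294967295) m) N))), 34, 1, 1, 1, 1⟩,
  ⟨fun A S X L P R M N m a b c d e f g h D => (A (A (L (R D 24864) 4294967295) m) (S M (L (A (L (R D 24832) 4294967295) m) N))), 34, 1, 1, 1, 1⟩,
  ⟨fun A S X L P R M N m a b c d e f g h D => (A (L (X 16777216 (L (X 8 (A (A (L (R D 4640) 4294967295) m) (S M (L (A (L (R D 4608) 4294967295) m) N)))) N)) N) (S M (L (L (X (L (R D 0) 4294967295) (A (A (L (R D 24800) 4294967295) m) (S M (L (A (L (R D 4576) 4294967295) m) N)))) N) N))), 66, 1, 1, 1, 1⟩,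
  ⟨fun A S X L P R M N m a b c d e f g h D => (A (L (X 16777216 (L (X 8 (A (A (L (R D 24864) 4294967295) m) (S M (L (A (L (R D 24832) 4294967295) m) N)))) N)) N) (S M (L (L (X (L (R D 0) 4294967295) (A (A (L (R D 24800) 4294967295) m) (S M (L (A (L (R D 4576) 4294967295) m) N)))) N) N))), 66, 1, 1, 1, 1⟩,
  ⟨fun A S X L P R M N m a b c d e f g h D => (A (L (X 33554432 (A (L (R D 4704) 4294967295) m)) N) (S M (L (A (L (X 33554432 (A (L (R D 24928) 4294967295) m)) N) (L (X 1 (L (X (L (R D 0) 4294967295) (A (A (L (R D 4672) 4294967295) m) (A (L (R D 24896) 4294967295) m))) N)) N)) N))), 66, 1, 1, 1, 1⟩,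
  ⟨fun A S X L P R M N m a b c d e f g h D => (A (A (L (R D 4736) 4294967295) m) (S M (L (A (L (R D 4704) 4294967295) m) N))), 34, 1, 1, 1, 1⟩,
  ⟨fun A S X L P R M N m a b c d e f g h D => (A (A (L (R D 24960) 4294967295) m) (S M (L (A (L (R D 24928) 4294967295) m) N))), 34, 1, 1, 1, 1⟩,
  ⟨fun A S X L P R M N m a b c d e f g h D => (A (L (X 16777216 (L (X 8 (A (A (L (R D 4736) 4294967295) m) (S M (L (A (L (R D 4704) 4294967295) m) N)))) N)) N) (S M (L (L (X (L (R D 0) 4294967295) (A (A (L (R D 24896) 4294967295) m) (S M (L (A (L (R D 4672) 4294967295) m) N)))) N) N))), 66, 1, 1, 1, 1⟩,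
  ⟨fun A S X L P R M N m a b c d e f g h D => (A (L (X 16777216 (L (X 8 (A (A (L (R D 24960) 4294967295) m) (S M (L (A (L (R D 24928) 4294967295) m) N)))) N)) N) (S M (L (L (X (L (R D 0) 4294967295) (A (A (L (R D 24896) 4294967295) m) (S M (L (A (L (R D 4672) 4294967295) m) N)))) N) N))), 66, 1, 1, 1, 1⟩,
  ⟨fun A S X L P R M N m a b c d e f g h D => (A (L (X 33554432 (A (L (R D 4800) 4294967295) m)) N) (S M (L (A (L (X 33554432 (A (L (R D 25024) 4294967295) m)) N) (L (X 1 (L (X (L (R D 0) 4294967295) (A (A (L (R D 4768) 4294967295) m) (A (L (R D 24992) 4294967295) m))) N)) N)) N))), 66, 1, 1, 1, 1⟩,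
  ⟨fun A S X L P R M N m a b c d e f g h D => (A (A (L (R D 4832) 4294967295) m) (S M (L (A (L (R D 4800) 4294967295) m) N))), 34, 1, 1, 1, 1⟩,
  ⟨fun A S X L P R M N m a b c d e f g h D => (A (A (L (R D 25056) 4294967295) m) (S M (L (A (L (R D 25024) 4294967295) m) N))), 34, 1, 1, 1, 1⟩,
  ⟨fun A S X L P R M N m a b c d e f g h D => (A (L (X 16777216 (L (X 8 (A (A (L (R D 4832) 4294967295) m) (S M (L (A (L (R D 4800) 4294967295) m) N)))) N)) N) (S M (L (L (X (L (R D 0) 4294967295) (A (A (L (R D 24992) 4294967295) m) (S M (L (A (L (R D 4768) 4294967295) m) N)))) N) N))), 66, 1, 1, 1, 1⟩,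
  ⟨fun A S X L P R M N m a b c d e f g h D => (A (L (X 16777216 (L (X 8 (A (A (L (R D 25056) 4294967295) m) (S M (L (A (L (R D 25024) 4294967295) m) N)))) N)) N) (S M (L (L (X (L (R D 0) 4294967295) (A (A (L (R D 24992) 4294967295) m) (S M (L (A (L (R D 4768) 4294967295) m) N)))) N) N))), 66, 1, 1, 1, 1⟩,
  ⟨fun A S X L P R M N m a b c d e f g h D => (A (L (X 33554432 (A (L (R D 4896) 4294967295) m)) N) (S M (L (A (L (X 33554432 (A (L (R D 25120) 4294967295) m)) N) (L (X 1 (L (X (L (R D 0) 4294967295) (A (A (L (R D 4864) 4294967295) m) (A (L (R D 25088) 4294967295) m))) N)) N)) N))), 66, 1, 1, 1, 1⟩,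
  ⟨fun A S X L P R M N m a b c d e f g h D => (A (A (L (R D 4928) 4294967295) m) (S M (L (A (L (R D 4896) 4294967295) m) N))), 34, 1, 1, 1, 1⟩,
  ⟨fun A S X L P R M N m a b c d e f g h D => (A (A (L (R D 25152) 4294967295) m) (S M (L (A (L (R D 25120) 4294967295) m) N))), 34, 1, 1, 1, 1⟩,
  ⟨fun A S X L P R M N m a b c d e f g h D => (A (L (X 16777216 (L (X 8 (A (A (L (R D 4928) 4294967295) m) (S M (L (A (L (R D 4896) 4294967295) m) N)))) N)) N) (S M (L (L (X (L (R D 0) 4294967295) (A (A (L (R D 25088) 4294967295) m) (S M (L (A (L (R D 4864) 4294967295) m) N)))) N) N))), 66, 1, 1, 1, 1⟩,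
  ⟨fun A S X L P R M N m a b c d e f g h D => (A (L (X 16777216 (L (X 8 (A (A (L (R D 25152) 4294967295) m) (S M (L (A (L (R D 25120) 4294967295) m) N)))) N)) N) (S M (L (L (X (L (R D 0) 4294967295) (A (A (L (R D 25088) 4294967295) m) (S M (L (A (L (R D 4864) 4294967295) m) N)))) N) N))), 66, 1, 1, 1, 1⟩,
  ⟨fun A S X L P R M N m a b c d e f g h D => (A (L (X 33554432 (A (L (R D 4992) 4294967295) m)) N) (S M (L (A (L (X 33554432 (A (L (R D 25216) 4294967295) m)) N) (L (X 1 (L (X (L (R D 0) 4294967295) (A (A (L (R D 4960) 4294967295) m) (A (L (R D 25184) 4294967295) m))) N)) N)) N))), 66, 1, 1, 1, 1⟩,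
  ⟨fun A S X L P R M N m a b c d e f g h D => (A (A (L (R D 5024) 4294967295) m) (S M (L (A (L (R D 4992) 4294967295) m) N))), 34, 1, 1, 1, 1⟩,
  ⟨fun A S X L P R M N m a b c d e f g h D => (A (A (L (R D 25248) 4294967295) m) (S M (L (A (L (R D 25216) 4294967295) m) N))), 34, 1, 1, 1, 1⟩,
  ⟨fun A S X L P R M N m a b c d e f g h D => (A (L (X 16777216 (L (X 8 (A (A (L (R D 5024) 4294967295) m) (S M (L (A (L (R D 4992) 4294967295) m) N)))) N)) N) (S M (L (L (X (L (R D 0) 4294967295) (A (A (L (R D 25184) 4294967295) m) (S M (L (A (L (R D 4960) 4294967295) m) N)))) N) N))), 66, 1, 1, 1, 1⟩,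
  ⟨fun A S X L P R M N m a b c d e f g h D => (A (L (X 16777216 (L (X 8 (A (A (L (R D 25248) 4294967295) m) (S M (L (A (L (R D 25216) 4294967295) m) N)))) N)) N) (S M (L (L (X (L (R D 0) 4294967295) (A (A (L (R D 25184) 4294967295) m) (S M (L (A (L (R D 4960) 4294967295) m) N)))) N) N))), 66, 1, 1, 1, 1⟩,
  ⟨fun A S X L P R M N m a b c d e f g h D => (A (L (X 33554432 (A (L (R D 5088) 4294967295) m)) N) (S M (L (A (L (X 33554432 (A (L (R D 25312) 4294967295) m)) N) (L (X 1 (L (X (L (R D 0) 4294967295) (A (A (L (R D 5056) 4294967295) m) (A (L (R D 25280) 4294967295) m))) N)) N)) N))), 66, 1, 1, 1, 1⟩,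
  ⟨fun A S X L P R M N m a b c d e f g h D => (A (A (L (R D 5120) 4294967295) m) (S M (L (A (L (R D 5088) 4294967295) m) N))), 34, 1, 1, 1, 1⟩,
  ⟨fun A S X L P R M N m a b c d e f g h D => (A (A (L (R D 25344) 4294967295) m) (S M (L (A (L (R D 25312) 4294967295) m) N))), 34, 1, 1, 1, 1⟩,
  ⟨fun A S X L P R M N m a b c d e f g h D => (A (L (X 16777216 (L (X 8 (A (A (L (R D 5120) 4294967295) m) (S M (L (A (L (R D 5088) 4294967295) m) N)))) N)) N) (S M (L (L (X (L (R D 0) 4294967295) (A (A (L (R D 25280) 4294967295) m) (S M (L (A (L (R D 5056) 4294967295) m) N)))) N) N))), 66, 1, 1, 1, 1⟩,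
  ⟨fun A S X L P R M N m a b c d e f g h D => (A (L (X 16777216 (L (X 8 (A (A (L (R D 25344) 4294967295) m) (S M (L (A (L (R D 25312) 4294967295) m) N)))) N)) N) (S M (L (L (X (L (R D 0) 4294967295) (A (A (L (R D 25280) 4294967295) m) (S M (L (A (L (R D 5056) 4294967295) m) N)))) N) N))), 66, 1, 1, 1, 1⟩,
  ⟨fun A S X L P R M N m a b c d e f g h D => (A (L (X 33554432 (A (L (R D 5184) 4294967295) m)) N) (S M (L (A (L (X 33554432 (A (L (R D 25408) 4294967295) m)) N) (L (X 1 (L (X (L (R D 0) 4294967295) (A (A (L (R D 5152) 4294967295) m) (A (L (R D 25376) 4294967295) m))) N)) N)) N))), 66, 1, 1, 1, 1⟩,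
  ⟨fun A S X L P R M N m a b c d e f g h D => (A (A (L (R D 5216) 4294967295) m) (S M (L (A (L (R D 5184) 4294967295) m) N))), 34, 1, 1, 1, 1⟩,
  ⟨fun A S X L P R M N m a b c d e f g h D => (A (A (L (R D 25440) 4294967295) m) (S M (L (A (L (R D 25408) 4294967295) m) N))), 34, 1, 1, 1, 1⟩,
  ⟨fun A S X L P R M N m a b c d e f g h D => (A (L (X 16777216 (L (X 8 (A (A (L (R D 5216) 4294967295) m) (S M (L (A (L (R D 5184) 4294967295) m) N)))) N)) N) (S M (L (L (X (L (R D 0) 4294967295) (A (A (L (R D 25376) 4294967295) m) (S M (L (A (L (R D 5152) 4294967295) m) N)))) N) N))), 66, 1, 1, 1, 1⟩,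
  ⟨fun A S X L P R M N m a b c d e f g h D => (A (L (X 16777216 (L (X 8 (A (A (L (R D 25440) 4294967295) m) (S M (L (A (L (R D 25408) 4294967295) m) N)))) N)) N) (S M (L (L (X (L (R D 0) 4294967295) (A (A (L (R D 25376) 4294967295) m) (S M (L (A (L (R D 5152) 4294967295) m) N)))) N) N))), 66, 1, 1, 1, 1⟩,
  ⟨fun A S X L P R M N m a b c d e f g h D => (A (L (X 33554432 (A (L (R D 5280) 4294967295) m)) N) (S M (L (A (L (X 33554432 (A (L (R D 25504) 4294967295) m)) N) (L (X 1 (L (X (L (R D 0) 4294967295) (A (A (L (R D 5248) 4294967295) m) (A (L (R D 25472) 4294967295) m))) N)) N)) N))), 66, 1, 1, 1, 1⟩,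
  ⟨fun A S X L P R M N m a b c d e f g h D => (A (A (L (R D 5312) 4294967295) m) (S M (L (A (L (R D 5280) 4294967295) m) N))), 34, 1, 1, 1, 1⟩,
  ⟨fun A S X L P R M N m a b c d e f g h D => (A (A (L (R D 25536) 4294967295) m) (S M (L (A (L (R D 25504) 4294967295) m) N))), 34, 1, 1, 1, 1⟩,
  ⟨fun A S X L P R M N m a b c d e f g h D => (A (L (X 16777216 (L (X 8 (A (A (L (R D 5312) 4294967295) m) (S M (L (A (L (R D 5280) 4294967295) m) N)))) N)) N) (S M (L (L (X (L (R D 0) 4294967295) (A (A (L (R D 25472) 4294967295) m) (S M (L (A (L (R D 5248) 4294967295) m) N)))) N) N))), 66, 1, 1, 1, 1⟩,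
  ⟨fun A S X L P R M N m a b c d e f g h D => (A (L (X 16777216 (L (X 8 (A (A (L (R D 25536) 4294967295) m) (S M (L (A (L (R D 25504) 4294967295) m) N)))) N)) N) (S M (L (L (X (L (R D 0) 4294967295) (A (A (L (R D 25472) 4294967295) m) (S M (L (A (L (R D 5248) 4294967295) m) N)))) N) N))), 66, 1, 1, 1, 1⟩,
  ⟨fun A S X L P R M N m a b c d e f g h D => (A (L (X 33554432 (A (L (R D 5376) 4294967295) m)) N) (S M (L (A (L (X 33554432 (A (L (R D 25600) 4294967295) m)) N) (L (X 1 (L (X (L (R D 0) 4294967295) (A (A (L (R D 5344) 4294967295) m) (A (L (R D 25568) 4294967295) m))) N)) N)) N))), 66, 1, 1, 1, 1⟩,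
  ⟨fun A S X L P R M N m a b c d e f g h D => (A (A (L (R D 5408) 4294967295) m) (S M (L (A (L (R D 5376) 4294967295) m) N))), 34, 1, 1, 1, 1⟩,
  ⟨fun A S X L P R M N m a b c d e f g h D => (A (A (L (R D 25632) 4294967295) m) (S M (L (A (L (R D 25600) 4294967295) m) N))), 34, 1, 1, 1, 1⟩,
  ⟨fun A S X L P R M N m a b c d e f g h D => (A (L (X 16777216 (L (X 8 (A (A (L (R D 5408) 4294967295) m) (S M (L (A (L (R D 5376) 4294967295) m) N)))) N)) N) (S M (L (L (X (L (R D 0) 4294967295) (A (A (L (R D 25568) 4294967295) m) (S M (L (A (L (R D 5344) 4294967295) m) N)))) N) N))), 66, 1, 1, 1, 1⟩,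
  ⟨fun A S X L P R M N m a b c d e f g h D => (A (L (X 16777216 (L (X 8 (A (A (L (R D 25632) 4294967295) m) (S M (L (A (L (R D 25600) 4294967295) m) N)))) N)) N) (S M (L (L (X (L (R D 0) 4294967295) (A (A (L (R D 25568) 4294967295) m) (S M (L (A (L (R D 5344) 4294967295) m) N)))) N) N))), 66, 1, 1, 1, 1⟩,
  ⟨fun A S X L P R M N m a b c d e f g h D => (A (L (X 33554432 (A (L (R D 5472) 4294967295) m)) N) (S M (L (A (L (X 33554432 (A (L (R D 25696) 4294967295) m)) N) (L (X 1 (L (X (L (R D 0) 4294967295) (A (A (L (R D 5440) 4294967295) m) (A (L (R D 25664) 4294967295) m))) N)) N)) N))), 66, 1, 1, 1, 1⟩,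
  ⟨fun A S X L P R M N m a b c d e f g h D => (A (A (L (R D 5504) 4294967295) m) (S M (L (A (L (R D 5472) 4294967295) m) N))), 34, 1, 1, 1, 1⟩,
  ⟨fun A S X L P R M N m a b c d e f g h D => (A (A (L (R D 25728) 4294967295) m) (S M (L (A (L (R D 25696) 4294967295) m) N))), 34, 1, 1, 1, 1⟩,
  ⟨fun A S X L P R M N m a b c d e f g h D => (A (L (X 16777216 (L (X 8 (A (A (L (R D 5504) 4294967295) m) (S M (L (A (L (R D 5472) 4294967295) m) N)))) N)) N) (S M (L (L (X (L (R D 0) 4294967295) (A (A (L (R D 25664) 4294967295) m) (S M (L (A (L (R D 5440) 4294967295) m) N)))) N) N))), 66, 1, 1, 1, 1⟩,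
  ⟨fun A S X L P R M N m a b c d e f g h D => (A (L (X 16777216 (L (X 8 (A (A (L (R D 25728) 4294967295) m) (S M (L (A (L (R D 25696) 4294967295) m) N)))) N)) N) (S M (L (L (X (L (R D 0) 4294967295) (A (A (L (R D 25664) 4294967295) m) (S M (L (A (L (R D 5440) 4294967295) m) N)))) N) N))), 66, 1, 1, 1, 1⟩,
  ⟨fun A S X L P R M N m a b c d e f g h D => (A (L (X 33554432 (A (L (R D 5568) 4294967295) m)) N) (S M (L (A (L (X 33554432 (A (L (R D 25792) 4294967295) m)) N) (L (X 1 (L (X (L (R D 0) 4294967295) (A (A (L (R D 5536) 4294967295) m) (A (L (R D 25760) 4294967295) m))) N)) N)) N))), 66, 1, 1, 1, 1⟩,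
  ⟨fun A S X L P R M N m a b c d e f g h D => (A (A (L (R D 5600) 4294967295) m) (S M (L (A (L (R D 5568) 4294967295) m) N))), 34, 1, 1, 1, 1⟩,
  ⟨fun A S X L P R M N m a b c d e f g h D => (A (A (L (R D 25824) 4294967295) m) (S M (L (A (L (R D 25792) 4294967295) m) N))), 34, 1, 1, 1, 1⟩,
  ⟨fun A S X L P R M N m a b c d e f g h D => (A (L (X 16777216 (L (X 8 (A (A (L (R D 5600) 4294967295) m) (S M (L (A (L (R D 5568) 4294967295) m) N)))) N)) N) (S M (L (L (X (L (R D 0) 4294967295) (A (A (L (R D 25760) 4294967295) m) (S M (L (A (L (R D 5536) 4294967295) m) N)))) N) N))), 66, 1, 1, 1, 1⟩,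
  ⟨fun A S X L P R M N m a b c d e f g h D => (A (L (X 16777216 (L (X 8 (A (A (L (R D 25824) 4294967295) m) (S M (L (A (L (R D 25792) 4294967295) m) N)))) N)) N) (S M (L (L (X (L (R D 0) 4294967295) (A (A (L (R D 25760) 4294967295) m) (S M (L (A (L (R D 5536) 4294967295) m) N)))) N) N))), 66, 1, 1, 1, 1⟩,
  ⟨fun A S X L P R M N m a b c d e f g h D => (A (L (X 33554432 (A (L (R D 5664) 4294967295) m)) N) (S M (L (A (L (X 33554432 (A (L (R D 25888) 4294967295) m)) N) (L (X 1 (L (X (L (R D 0) 4294967295) (A (A (L (R D 5632) 4294967295) m) (A (L (R D 25856) 4294967295) m))) N)) N)) N))), 66, 1, 1, 1, 1⟩,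
  ⟨fun A S X L P R M N m a b c d e f g h D => (A (A (L (R D 5696) 4294967295) m) (S M (L (A (L (R D 5664) 4294967295) m) N))), 34, 1, 1, 1, 1⟩,
  ⟨fun A S X L P R M N m a b c d e f g h D => (A (A (L (R D 25920) 4294967295) m) (S M (L (A (L (R D 25888) 4294967295) m) N))), 34, 1, 1, 1, 1⟩,
  ⟨fun A S X L P R M N m a b c d e f g h D => (A (L (X 16777216 (L (X 8 (A (A (L (R D 5696) 4294967295) m) (S M (L (A (L (R D 5664) 4294967295) m) N)))) N)) N) (S M (L (L (X (L (R D 0) 4294967295) (A (A (L (R D 25856) 4294967295) m) (S M (L (A (L (R D 5632) 4294967295) m) N)))) N) N))), 66, 1, 1, 1, 1⟩,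
  ⟨fun A S X L P R M N m a b c d e f g h D => (A (L (X 16777216 (L (X 8 (A (A (L (R D 25920) 4294967295) m) (S M (L (A (L (R D 25888) 4294967295) m) N)))) N)) N) (S M (L (L (X (L (R D 0) 4294967295) (A (A (L (R D 25856) 4294967295) m) (S M (L (A (L (R D 5632) 4294967295) m) N)))) N) N))), 66, 1, 1, 1, 1⟩,
  ⟨fun A S X L P R M N m a b c d e f g h D => (A (A (L (X 1 (A (L (R D 128) 4294967295) (X a (A (L (R D 160) 4294967295) (X a (L (R D 192) 4294967295)))))) N) (L (X c (A (L (R D 20352) 4294967295) (X a (A (L (R D 20384) 4294967295) (X a (L (R D 20416) 4294967295)))))) N)) (S M (L (L (X (L (X (L (X 16777216 1) N) (P e 2)) N) g) N) N))), 35, 3, 1, 2, 1⟩,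
  ⟨fun A S X L P R M N m a b c d e f g h D => (A (L (R D 0) 4294967295) (S M (L 1 N))), 33, 1, 1, 1, 1⟩,
  ⟨fun A S X L P R M N m a b c d e f g h D => (A (L (X 33554432 (A (L (R D 11136) 4294967295) m)) N) (S M (L (A (L (X 33554432 (A (L (R D 31360) 4294967295) m)) N) (L (X 1 (L (X (L (R D 0) 4294967295) (A (A (L (R D 11104) 4294967295) m) (A (L (R D 31328) 4294967295) m))) N)) N)) N))), 66, 1, 1, 1, 1⟩,
  ⟨fun A S X L P R M N m a b c d e f g h D => (A (A (L (R D 11168) 4294967295) m) (S M (L (A (L (R D 11136) 4294967295) m) N))), 34, 1, 1, 1, 1⟩,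
  ⟨fun A S X L P R M N m a b c d e f g h D => (A (A (L (R D 31392) 4294967295) m) (S M (L (A (L (R D 31360) 4294967295) m) N))), 34, 1, 1, 1, 1⟩,
  ⟨fun A S X L P R M N m a b c d e f g h D => (A (L (X 16777216 (L (X 8 (A (A (L (R D 11168) 4294967295) m) (S M (L (A (L (R D 11136) 4294967295) m) N)))) N)) N) (S M (L (L (X (L (R D 0) 4294967295) (A (A (L (R D 31328) 4294967295) m) (S M (L (A (L (R D 11104) 4294967295) m) N)))) N) N))), 66, 1, 1, 1, 1⟩,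
  ⟨fun A S X L P R M N m a b c d e f g h D => (A (L (X 16777216 (L (X 8 (A (A (L (R D 31392) 4294967295) m) (S M (L (A (L (R D 31360) 4294967295) m) N)))) N)) N) (S M (L (L (X (L (R D 0) 4294967295) (A (A (L (R D 31328) 4294967295) m) (S M (L (A (L (R D 11104) 4294967295) m) N)))) N) N))), 66, 1, 1, 1, 1⟩,
  ⟨fun A S X L P R M N m a b c d e f g h D => (A (L (X 33554432 (A (L (R D 11232) 4294967295) m)) N) (S M (L (A (L (X 33554432 (A (L (R D 31456) 4294967295) m)) N) (L (X 1 (L (X (L (R D 0) 4294967295) (A (A (L (R D 11200) 4294967295) m) (A (L (R D 31424) 4294967295) m))) N)) N)) N))), 66, 1, 1, 1, 1⟩,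
  ⟨fun A S X L P R M N m a b c d e f g h D => (A (A (L (R D 11264) 4294967295) m) (S M (L (A (L (R D 11232) 4294967295) m) N))), 34, 1, 1, 1, 1⟩,
  ⟨fun A S X L P R M N m a b c d e f g h D => (A (A (L (R D 31488) 4294967295) m) (S M (L (A (L (R D 31456) 4294967295) m) N))), 34, 1, 1, 1, 1⟩,
  ⟨fun A S X L P R M N m a b c d e f g h D => (A (L (X 16777216 (L (X 8 (A (A (L (R D 11264) 4294967295) m) (S M (L (A (L (R D 11232) 4294967295) m) N)))) N)) N) (S M (L (L (X (L (R D 0) 4294967295) (A (A (L (R D 31424) 4294967295) m) (S M (L (A (L (R D 11200) 4294967295) m) N)))) N) N))), 66, 1, 1, 1, 1⟩,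
  ⟨fun A S X L P R M N m a b c d e f g h D => (A (L (X 16777216 (L (X 8 (A (A (L (R D 31488) 4294967295) m) (S M (L (A (L (R D 31456) 4294967295) m) N)))) N)) N) (S M (L (L (X (L (R D 0) 4294967295) (A (A (L (R D 31424) 4294967295) m) (S M (L (A (L (R D 11200) 4294967295) m) N)))) N) N))), 66, 1, 1, 1, 1⟩,
  ⟨fun A S X L P R M N m a b c d e f g h D => (A (L (X 33554432 (A (L (R D 11328) 4294967295) m)) N) (S M (L (A (L (X 33554432 (A (L (R D 31552) 4294967295) m)) N) (L (X 1 (L (X (L (R D 0) 4294967295) (A (A (L (R D 11296) 4294967295) m) (A (L (R D 31520) 4294967295) m))) N)) N)) N))), 66, 1, 1, 1, 1⟩,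
  ⟨fun A S X L P R M N m a b c d e f g h D => (A (A (L (R D 11360) 4294967295) m) (S M (L (A (L (R D 11328) 4294967295) m) N))), 34, 1, 1, 1, 1⟩,
  ⟨fun A S X L P R M N m a b c d e f g h D => (A (A (L (R D 31584) 4294967295) m) (S M (L (A (L (R D 31552) 4294967295) m) N))), 34, 1, 1, 1, 1⟩,
  ⟨fun A S X L P R M N m a b c d e f g h D => (A (L (X 16777216 (L (X 8 (A (A (L (R D 11360) 4294967295) m) (S M (L (A (L (R D 11328) 4294967295) m) N)))) N)) N) (S M (L (L (X (L (R D 0) 4294967295) (A (A (L (R D 31520) 4294967295) m) (S M (L (A (L (R D 11296) 4294967295) m) N)))) N) N))), 66, 1, 1, 1, 1⟩]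

theorem p1 : Pce Pool.Agent.RZ.RCO.SBr.sh 1264 150 1 (t1, f1) :=
  ⟨by decide +kernel, rfl, by decide +kernel⟩

end Pool.Agent.RZ.RCO.SBrL
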