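import Pool.Agent.RZ.RCO.Gk13
import Pool.Agent.RZ.RCO.SBr

/-! Types of a sheet, piece 2 (MP_73ccd0_lc). -/

set_option autoImplicit false
set_option maxRecDepth 100000
set_option linter.all false

namespace Pool.Agent.RZ.RCO.SBrL

open Sg

noncomputable def t2 : List Ty :=
 [⟨(.sub (.mul (.c 16777216) (.mul (.c 8) (.sub (.s 0 987 1 1) (.s 0 986 1 1)))) (.mul (.r 0 0 1 1) (.sub (.s 0 985 1 1) (.s 0 353 1 1)))), 66, 1, 1, 1, 1⟩,
  ⟨(.sub (.mul (.c 33554432) (.s 0 357 1 1)) (.add (.mul (.c 33554432) (.s 0 989 1 1)) (.mul (.c 1) (.mul (.r 0 0 1 1) (.add (.s 0 356 1 1) (.s 0 988 1 1)))))), 66, 1, 1, 1, 1⟩,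
  ⟨(.sub (.s 0 358 1 1) (.s 0 357 1 1)), 34, 1, 1, 1, 1⟩,
  ⟨(.sub (.s 0 990 1 1) (.s 0 989 1 1)), 34, 1, 1, 1, 1⟩,
  ⟨(.sub (.mul (.c 16777216) (.mul (.c 8) (.sub (.s 0 358 1 1) (.s 0 357 1 1)))) (.mul (.r 0 0 1 1) (.sub (.s 0 988 1 1) (.s 0 356 1 1)))), 66, 1, 1, 1, 1⟩,
  ⟨(.sub (.mul (.c 16777216) (.mul (.c 8) (.sub (.s 0 990 1 1) (.s 0 989 1 1)))) (.mul (.r 0 0 1 1) (.sub (.s 0 988 1 1) (.s 0 356 1 1)))), 66, 1, 1, 1, 1⟩,
  ⟨(.sub (.mul (.c 33554432) (.s 0 360 1 1)) (.add (.mul (.c 33554432) (.s 0 992 1 1)) (.mul (.c 1) (.mul (.r 0 0 1 1) (.add (.s 0 359 1 1) (.s 0 991 1 1)))))), 66, 1, 1, 1, 1⟩,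
  ⟨(.sub (.s 0 361 1 1) (.s 0 360 1 1)), 34, 1, 1, 1, 1⟩,
  ⟨(.sub (.s 0 993 1 1) (.s 0 992 1 1)), 34, 1, 1, 1, 1⟩,
  ⟨(.sub (.mul (.c 16777216) (.mul (.c 8) (.sub (.s 0 361 1 1) (.s 0 360 1 1)))) (.mul (.r 0 0 1 1) (.sub (.s 0 991 1 1) (.s 0 359 1 1)))), 66, 1, 1, 1, 1⟩,
  ⟨(.sub (.mul (.c 16777216) (.mul (.c 8) (.sub (.s 0 993 1 1) (.s 0 992 1 1)))) (.mul (.r 0 0 1 1) (.sub (.s 0 991 1 1) (.s 0 359 1 1)))), 66, 1, 1, 1, 1⟩,
  ⟨(.sub (.mul (.c 33554432) (.s 0 363 1 1)) (.add (.mul (.c 33554432) (.s 0 995 1 1)) (.mul (.c 1) (.mul (.r 0 0 1 1) (.add (.s 0 362 1 1) (.s 0 994 1 1)))))), 66, 1, 1, 1, 1⟩,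
  ⟨(.sub (.s 0 364 1 1) (.s 0 363 1 1)), 34, 1, 1, 1, 1⟩,
  ⟨(.sub (.s 0 996 1 1) (.s 0 995 1 1)), 34, 1, 1, 1, 1⟩,
  ⟨(.sub (.mul (.c 16777216) (.mul (.c 8) (.sub (.s 0 364 1 1) (.s 0 363 1 1)))) (.mul (.r 0 0 1 1) (.sub (.s 0 994 1 1) (.s 0 362 1 1)))), 66, 1, 1, 1, 1⟩,
  ⟨(.sub (.mul (.c 16777216) (.mul (.c 8) (.sub (.s 0 996 1 1) (.s 0 995 1 1)))) (.mul (.r 0 0 1 1) (.sub (.s 0 994 1 1) (.s 0 362 1 1)))), 66, 1, 1, 1, 1⟩,
  ⟨(.sub (.mul (.c 33554432) (.s 0 384 1 1)) (.add (.mul (.c 33554432) (.s 0 1016 1 1)) (.mul (.c 1) (.mul (.r 0 0 1 1) (.add (.s 0 383 1 1) (.s 0 1015 1 1)))))), 66, 1, 1, 1, 1⟩,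
  ⟨(.sub (.s 0 385 1 1) (.s 0 384 1 1)), 34, 1, 1, 1, 1⟩,
  ⟨(.sub (.s 0 1017 1 1) (.s 0 1016 1 1)), 34, 1, 1, 1, 1⟩,
  ⟨(.sub (.mul (.c 16777216) (.mul (.c 8) (.sub (.s 0 385 1 1) (.s 0 384 1 1)))) (.mul (.r 0 0 1 1) (.sub (.s 0 1015 1 1) (.s 0 383 1 1)))), 66, 1, 1, 1, 1⟩,
  ⟨(.sub (.mul (.c 16777216) (.mul (.c 8) (.sub (.s 0 1017 1 1) (.s 0 1016 1 1)))) (.mul (.r 0 0 1 1) (.sub (.s 0 1015 1 1) (.s 0 383 1 1)))), 66, 1, 1, 1, 1⟩,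
  ⟨(.sub (.mul (.c 33554432) (.s 0 387 1 1)) (.add (.mul (.c 33554432) (.s 0 1019 1 1)) (.mul (.c 1) (.mul (.r 0 0 1 1) (.add (.s 0 386 1 1) (.s 0 1018 1 1)))))), 66, 1, 1, 1, 1⟩,
  ⟨(.sub (.s 0 388 1 1) (.s 0 387 1 1)), 34, 1, 1, 1, 1⟩,
  ⟨(.sub (.s 0 1020 1 1) (.s 0 1019 1 1)), 34, 1, 1, 1, 1⟩,
  ⟨(.sub (.mul (.c 16777216) (.mul (.c 8) (.sub (.s 0 388 1 1) (.s 0 387 1 1)))) (.mul (.r 0 0 1 1) (.sub (.s 0 1018 1 1) (.s 0 386 1 1)))), 66, 1, 1, 1, 1⟩,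
  ⟨(.sub (.mul (.c 16777216) (.mul (.c 8) (.sub (.s 0 1020 1 1) (.s 0 1019 1 1)))) (.mul (.r 0 0 1 1) (.sub (.s 0 1018 1 1) (.s 0 386 1 1)))), 66, 1, 1, 1, 1⟩,
  ⟨(.sub (.mul (.c 33554432) (.s 0 390 1 1)) (.add (.mul (.c 33554432) (.s 0 1022 1 1)) (.mul (.c 1) (.mul (.r 0 0 1 1) (.add (.s 0 389 1 1) (.s 0 1021 1 1)))))), 66, 1, 1, 1, 1⟩,
  ⟨(.sub (.s 0 391 1 1) (.s 0 390 1 1)), 34, 1, 1, 1, 1⟩,
  ⟨(.sub (.s 0 1023 1 1) (.s 0 1022 1 1)), 34, 1, 1, 1, 1⟩,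
  ⟨(.sub (.mul (.c 16777216) (.mul (.c 8) (.sub (.s 0 391 1 1) (.s 0 390 1 1)))) (.mul (.r 0 0 1 1) (.sub (.s 0 1021 1 1) (.s 0 389 1 1)))), 66, 1, 1, 1, 1⟩,
  ⟨(.sub (.mul (.c 16777216) (.mul (.c 8) (.sub (.s 0 1023 1 1) (.s 0 1022 1 1)))) (.mul (.r 0 0 1 1) (.sub (.s 0 1021 1 1) (.s 0 389 1 1)))), 66, 1, 1, 1, 1⟩,
  ⟨(.sub (.mul (.c 33554432) (.s 0 393 1 1)) (.add (.mul (.c 33554432) (.s 0 1025 1 1)) (.mul (.c 1) (.mul (.r 0 0 1 1) (.add (.s 0 392 1 1) (.s 0 1024 1 1)))))), 66, 1, 1, 1, 1⟩,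
  ⟨(.sub (.s 0 394 1 1) (.s 0 393 1 1)), 34, 1, 1, 1, 1⟩,
  ⟨(.sub (.s 0 1026 1 1) (.s 0 1025 1 1)), 34, 1, 1, 1, 1⟩,
  ⟨(.sub (.mul (.c 16777216) (.mul (.c 8) (.sub (.s 0 394 1 1) (.s 0 393 1 1)))) (.mul (.r 0 0 1 1) (.sub (.s 0 1024 1 1) (.s 0 392 1 1)))), 66, 1, 1, 1, 1⟩,
  ⟨(.sub (.mul (.c 16777216) (.mul (.c 8) (.sub (.s 0 1026 1 1) (.s 0 1025 1 1)))) (.mul (.r 0 0 1 1) (.sub (.s 0 1024 1 1) (.s 0 392 1 1)))), 66, 1, 1, 1, 1⟩,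
  ⟨(.sub (.mul (.c 33554432) (.s 0 396 1 1)) (.add (.mul (.c 33554432) (.s 0 1028 1 1)) (.mul (.c 1) (.mul (.r 0 0 1 1) (.add (.s 0 395 1 1) (.s 0 1027 1 1)))))), 66, 1, 1, 1, 1⟩,
  ⟨(.sub (.s 0 397 1 1) (.s 0 396 1 1)), 34, 1, 1, 1, 1⟩,
  ⟨(.sub (.s 0 1029 1 1) (.s 0 1028 1 1)), 34, 1, 1, 1, 1⟩,
  ⟨(.sub (.mul (.c 16777216) (.mul (.c 8) (.sub (.s 0 397 1 1) (.s 0 396 1 1)))) (.mul (.r 0 0 1 1) (.sub (.s 0 1027 1 1) (.s 0 395 1 1)))), 66, 1, 1, 1, 1⟩,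
  ⟨(.sub (.mul (.c 16777216) (.mul (.c 8) (.sub (.s 0 1029 1 1) (.s 0 1028 1 1)))) (.mul (.r 0 0 1 1) (.sub (.s 0 1027 1 1) (.s 0 395 1 1)))), 66, 1, 1, 1, 1⟩,
  ⟨(.sub (.mul (.c 33554432) (.s 0 399 1 1)) (.add (.mul (.c 33554432) (.s 0 1031 1 1)) (.mul (.c 1) (.mul (.r 0 0 1 1) (.add (.s 0 398 1 1) (.s 0 1030 1 1)))))), 66, 1, 1, 1, 1⟩,
  ⟨(.sub (.s 0 400 1 1) (.s 0 399 1 1)), 34, 1, 1, 1, 1⟩,
  ⟨(.sub (.s 0 1032 1 1) (.s 0 1031 1 1)), 34, 1, 1, 1, 1⟩,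
  ⟨(.sub (.mul (.c 16777216) (.mul (.c 8) (.sub (.s 0 400 1 1) (.s 0 399 1 1)))) (.mul (.r 0 0 1 1) (.sub (.s 0 1030 1 1) (.s 0 398 1 1)))), 66, 1, 1, 1, 1⟩,
  ⟨(.sub (.mul (.c 16777216) (.mul (.c 8) (.sub (.s 0 1032 1 1) (.s 0 1031 1 1)))) (.mul (.r 0 0 1 1) (.sub (.s 0 1030 1 1) (.s 0 398 1 1)))), 66, 1, 1, 1, 1⟩,
  ⟨(.sub (.mul (.c 33554432) (.s 0 366 1 1)) (.add (.mul (.c 33554432) (.s 0 998 1 1)) (.mul (.c 1) (.mul (.r 0 0 1 1) (.add (.s 0 365 1 1) (.s 0 997 1 1)))))), 66, 1, 1, 1, 1⟩,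
  ⟨(.sub (.s 0 367 1 1) (.s 0 366 1 1)), 34, 1, 1, 1, 1⟩,
  ⟨(.sub (.s 0 999 1 1) (.s 0 998 1 1)), 34, 1, 1, 1, 1⟩,
  ⟨(.sub (.mul (.c 16777216) (.mul (.c 8) (.sub (.s 0 367 1 1) (.s 0 366 1 1)))) (.mul (.r 0 0 1 1) (.sub (.s 0 997 1 1) (.s 0 365 1 1)))), 66, 1, 1, 1, 1⟩,
  ⟨(.sub (.mul (.c 16777216) (.mul (.c 8) (.sub (.s 0 999 1 1) (.s 0 998 1 1)))) (.mul (.r 0 0 1 1) (.sub (.s 0 997 1 1) (.s 0 365 1 1)))), 66, 1, 1, 1, 1⟩,
  ⟨(.sub (.mul (.c 33554432) (.s 0 369 1 1)) (.add (.mul (.c 33554432) (.s 0 1001 1 1)) (.mul (.c 1) (.mul (.r 0 0 1 1) (.add (.s 0 368 1 1) (.s 0 1000 1 1)))))), 66, 1, 1, 1, 1⟩,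
  ⟨(.sub (.s 0 370 1 1) (.s 0 369 1 1)), 34, 1, 1, 1, 1⟩,
  ⟨(.sub (.s 0 1002 1 1) (.s 0 1001 1 1)), 34, 1, 1, 1, 1⟩,
  ⟨(.sub (.mul (.c 16777216) (.mul (.c 8) (.sub (.s 0 370 1 1) (.s 0 369 1 1)))) (.mul (.r 0 0 1 1) (.sub (.s 0 1000 1 1) (.s 0 368 1 1)))), 66, 1, 1, 1, 1⟩,
  ⟨(.sub (.mul (.c 16777216) (.mul (.c 8) (.sub (.s 0 1002 1 1) (.s 0 1001 1 1)))) (.mul (.r 0 0 1 1) (.sub (.s 0 1000 1 1) (.s 0 368 1 1)))), 66, 1, 1, 1, 1⟩,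
  ⟨(.sub (.mul (.c 33554432) (.s 0 372 1 1)) (.add (.mul (.c 33554432) (.s 0 1004 1 1)) (.mul (.c 1) (.mul (.r 0 0 1 1) (.add (.s 0 371 1 1) (.s 0 1003 1 1)))))), 66, 1, 1, 1, 1⟩,
  ⟨(.sub (.s 0 373 1 1) (.s 0 372 1 1)), 34, 1, 1, 1, 1⟩,
  ⟨(.sub (.s 0 1005 1 1) (.s 0 1004 1 1)), 34, 1, 1, 1, 1⟩,
  ⟨(.sub (.mul (.c 16777216) (.mul (.c 8) (.sub (.s 0 373 1 1) (.s 0 372 1 1)))) (.mul (.r 0 0 1 1) (.sub (.s 0 1003 1 1) (.s 0 371 1 1)))), 66, 1, 1, 1, 1⟩,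
  ⟨(.sub (.mul (.c 16777216) (.mul (.c 8) (.sub (.s 0 1005 1 1) (.s 0 1004 1 1)))) (.mul (.r 0 0 1 1) (.sub (.s 0 1003 1 1) (.s 0 371 1 1)))), 66, 1, 1, 1, 1⟩,
  ⟨(.sub (.mul (.c 33554432) (.s 0 375 1 1)) (.add (.mul (.c 33554432) (.s 0 1007 1 1)) (.mul (.c 1) (.mul (.r 0 0 1 1) (.add (.s 0 374 1 1) (.s 0 1006 1 1)))))), 66, 1, 1, 1, 1⟩,
  ⟨(.sub (.s 0 376 1 1) (.s 0 375 1 1)), 34, 1, 1, 1, 1⟩,
  ⟨(.sub (.s 0 1008 1 1) (.s 0 1007 1 1)), 34, 1, 1, 1, 1⟩,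
  ⟨(.sub (.mul (.c 16777216) (.mul (.c 8) (.sub (.s 0 376 1 1) (.s 0 375 1 1)))) (.mul (.r 0 0 1 1) (.sub (.s 0 1006 1 1) (.s 0 374 1 1)))), 66, 1, 1, 1, 1⟩,
  ⟨(.sub (.mul (.c 16777216) (.mul (.c 8) (.sub (.s 0 1008 1 1) (.s 0 1007 1 1)))) (.mul (.r 0 0 1 1) (.sub (.s 0 1006 1 1) (.s 0 374 1 1)))), 66, 1, 1, 1, 1⟩,
  ⟨(.sub (.mul (.c 33554432) (.s 0 378 1 1)) (.add (.mul (.c 33554432) (.s 0 1010 1 1)) (.mul (.c 1) (.mul (.r 0 0 1 1) (.add (.s 0 377 1 1) (.s 0 1009 1 1)))))), 66, 1, 1, 1, 1⟩,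
  ⟨(.sub (.s 0 379 1 1) (.s 0 378 1 1)), 34, 1, 1, 1, 1⟩,
  ⟨(.sub (.s 0 1011 1 1) (.s 0 1010 1 1)), 34, 1, 1, 1, 1⟩,
  ⟨(.sub (.mul (.c 16777216) (.mul (.c 8) (.sub (.s 0 379 1 1) (.s 0 378 1 1)))) (.mul (.r 0 0 1 1) (.sub (.s 0 1009 1 1) (.s 0 377 1 1)))), 66, 1, 1, 1, 1⟩,
  ⟨(.sub (.mul (.c 16777216) (.mul (.c 8) (.sub (.s 0 1011 1 1) (.s 0 1010 1 1)))) (.mul (.r 0 0 1 1) (.sub (.s 0 1009 1 1) (.s 0 377 1 1)))), 66, 1, 1, 1, 1⟩,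
  ⟨(.sub (.mul (.c 33554432) (.s 0 381 1 1)) (.add (.mul (.c 33554432) (.s 0 1013 1 1)) (.mul (.c 1) (.mul (.r 0 0 1 1) (.add (.s 0 380 1 1) (.s 0 1012 1 1)))))), 66, 1, 1, 1, 1⟩,
  ⟨(.sub (.s 0 382 1 1) (.s 0 381 1 1)), 34, 1, 1, 1, 1⟩,
  ⟨(.sub (.s 0 1014 1 1) (.s 0 1013 1 1)), 34, 1, 1, 1, 1⟩,
  ⟨(.sub (.mul (.c 16777216) (.mul (.c 8) (.sub (.s 0 382 1 1) (.s 0 381 1 1)))) (.mul (.r 0 0 1 1) (.sub (.s 0 1012 1 1) (.s 0 380 1 1)))), 66, 1, 1, 1, 1⟩,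
  ⟨(.sub (.mul (.c 16777216) (.mul (.c 8) (.sub (.s 0 1014 1 1) (.s 0 1013 1 1)))) (.mul (.r 0 0 1 1) (.sub (.s 0 1012 1 1) (.s 0 380 1 1)))), 66, 1, 1, 1, 1⟩,
  ⟨(.sub (.mul (.c 33554432) (.s 0 402 1 1)) (.add (.mul (.c 33554432) (.s 0 1034 1 1)) (.mul (.c 1) (.mul (.r 0 0 1 1) (.add (.s 0 401 1 1) (.s 0 1033 1 1)))))), 66, 1, 1, 1, 1⟩,
  ⟨(.sub (.s 0 403 1 1) (.s 0 402 1 1)), 34, 1, 1, 1, 1⟩,
  ⟨(.sub (.s 0 1035 1 1) (.s 0 1034 1 1)), 34, 1, 1, 1, 1⟩,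
  ⟨(.sub (.mul (.c 16777216) (.mul (.c 8) (.sub (.s 0 403 1 1) (.s 0 402 1 1)))) (.mul (.r 0 0 1 1) (.sub (.s 0 1033 1 1) (.s 0 401 1 1)))), 66, 1, 1, 1, 1⟩,
  ⟨(.sub (.mul (.c 16777216) (.mul (.c 8) (.sub (.s 0 1035 1 1) (.s 0 1034 1 1)))) (.mul (.r 0 0 1 1) (.sub (.s 0 1033 1 1) (.s 0 401 1 1)))), 66, 1, 1, 1, 1⟩,
  ⟨(.sub (.mul (.c 33554432) (.s 0 405 1 1)) (.add (.mul (.c 33554432) (.s 0 1037 1 1)) (.mul (.c 1) (.mul (.r 0 0 1 1) (.add (.s 0 404 1 1) (.s 0 1036 1 1)))))), 66, 1, 1, 1, 1⟩,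
  ⟨(.sub (.s 0 406 1 1) (.s 0 405 1 1)), 34, 1, 1, 1, 1⟩,
  ⟨(.sub (.s 0 1038 1 1) (.s 0 1037 1 1)), 34, 1, 1, 1, 1⟩,
  ⟨(.sub (.mul (.c 16777216) (.mul (.c 8) (.sub (.s 0 406 1 1) (.s 0 405 1 1)))) (.mul (.r 0 0 1 1) (.sub (.s 0 1036 1 1) (.s 0 404 1 1)))), 66, 1, 1, 1, 1⟩,
  ⟨(.sub (.mul (.c 16777216) (.mul (.c 8) (.sub (.s 0 1038 1 1) (.s 0 1037 1 1)))) (.mul (.r 0 0 1 1) (.sub (.s 0 1036 1 1) (.s 0 404 1 1)))), 66, 1, 1, 1, 1⟩,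
  ⟨(.sub (.mul (.c 33554432) (.s 0 408 1 1)) (.add (.mul (.c 33554432) (.s 0 1040 1 1)) (.mul (.c 1) (.mul (.r 0 0 1 1) (.add (.s 0 407 1 1) (.s 0 1039 1 1)))))), 66, 1, 1, 1, 1⟩,
  ⟨(.sub (.s 0 409 1 1) (.s 0 408 1 1)), 34, 1, 1, 1, 1⟩,
  ⟨(.sub (.s 0 1041 1 1) (.s 0 1040 1 1)), 34, 1, 1, 1, 1⟩,
  ⟨(.sub (.mul (.c 16777216) (.mul (.c 8) (.sub (.s 0 409 1 1) (.s 0 408 1 1)))) (.mul (.r 0 0 1 1) (.sub (.s 0 1039 1 1) (.s 0 407 1 1)))), 66, 1, 1, 1, 1⟩,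
  ⟨(.sub (.mul (.c 16777216) (.mul (.c 8) (.sub (.s 0 1041 1 1) (.s 0 1040 1 1)))) (.mul (.r 0 0 1 1) (.sub (.s 0 1039 1 1) (.s 0 407 1 1)))), 66, 1, 1, 1, 1⟩,
  ⟨(.sub (.mul (.c 33554432) (.s 0 411 1 1)) (.add (.mul (.c 33554432) (.s 0 1043 1 1)) (.mul (.c 1) (.mul (.r 0 0 1 1) (.add (.s 0 410 1 1) (.s 0 1042 1 1)))))), 66, 1, 1, 1, 1⟩,
  ⟨(.sub (.s 0 412 1 1) (.s 0 411 1 1)), 34, 1, 1, 1, 1⟩,
  ⟨(.sub (.s 0 1044 1 1) (.s 0 1043 1 1)), 34, 1, 1, 1, 1⟩,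
  ⟨(.sub (.mul (.c 16777216) (.mul (.c 8) (.sub (.s 0 412 1 1) (.s 0 411 1 1)))) (.mul (.r 0 0 1 1) (.sub (.s 0 1042 1 1) (.s 0 410 1 1)))), 66, 1, 1, 1, 1⟩,
  ⟨(.sub (.mul (.c 16777216) (.mul (.c 8) (.sub (.s 0 1044 1 1) (.s 0 1043 1 1)))) (.mul (.r 0 0 1 1) (.sub (.s 0 1042 1 1) (.s 0 410 1 1)))), 66, 1, 1, 1, 1⟩,
  ⟨(.sub (.mul (.c 33554432) (.s 0 414 1 1)) (.add (.mul (.c 33554432) (.s 0 1046 1 1)) (.mul (.c 1) (.mul (.r 0 0 1 1) (.add (.s 0 413 1 1) (.s 0 1045 1 1)))))), 66, 1, 1, 1, 1⟩,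
  ⟨(.sub (.s 0 415 1 1) (.s 0 414 1 1)), 34, 1, 1, 1, 1⟩,
  ⟨(.sub (.s 0 1047 1 1) (.s 0 1046 1 1)), 34, 1, 1, 1, 1⟩,
  ⟨(.sub (.mul (.c 16777216) (.mul (.c 8) (.sub (.s 0 415 1 1) (.s 0 414 1 1)))) (.mul (.r 0 0 1 1) (.sub (.s 0 1045 1 1) (.s 0 413 1 1)))), 66, 1, 1, 1, 1⟩,
  ⟨(.sub (.mul (.c 16777216) (.mul (.c 8) (.sub (.s 0 1047 1 1) (.s 0 1046 1 1)))) (.mul (.r 0 0 1 1) (.sub (.s 0 1045 1 1) (.s 0 413 1 1)))), 66, 1, 1, 1, 1⟩,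
  ⟨(.sub (.mul (.c 33554432) (.s 0 417 1 1)) (.add (.mul (.c 33554432) (.s 0 1049 1 1)) (.mul (.c 1) (.mul (.r 0 0 1 1) (.add (.s 0 416 1 1) (.s 0 1048 1 1)))))), 66, 1, 1, 1, 1⟩,
  ⟨(.sub (.s 0 418 1 1) (.s 0 417 1 1)), 34, 1, 1, 1, 1⟩,
  ⟨(.sub (.s 0 1050 1 1) (.s 0 1049 1 1)), 34, 1, 1, 1, 1⟩,
  ⟨(.sub (.mul (.c 16777216) (.mul (.c 8) (.sub (.s 0 418 1 1) (.s 0 417 1 1)))) (.mul (.r 0 0 1 1) (.sub (.s 0 1048 1 1) (.s 0 416 1 1)))), 66, 1, 1, 1, 1⟩,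
  ⟨(.sub (.mul (.c 16777216) (.mul (.c 8) (.sub (.s 0 1050 1 1) (.s 0 1049 1 1)))) (.mul (.r 0 0 1 1) (.sub (.s 0 1048 1 1) (.s 0 416 1 1)))), 66, 1, 1, 1, 1⟩,
  ⟨(.sub (.r 0 0 1 1) (.c 1)), 33, 1, 1, 1, 1⟩,
  ⟨(.sub (.mul (.c 33554432) (.s 0 39 1 1)) (.add (.mul (.c 33554432) (.s 0 671 1 1)) (.mul (.c 1) (.mul (.r 0 0 1 1) (.add (.s 0 38 1 1) (.s 0 670 1 1)))))), 66, 1, 1, 1, 1⟩,
  ⟨(.sub (.s 0 40 1 1) (.s 0 39 1 1)), 34, 1, 1, 1, 1⟩,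
  ⟨(.sub (.s 0 672 1 1) (.s 0 671 1 1)), 34, 1, 1, 1, 1⟩,
  ⟨(.sub (.mul (.c 16777216) (.mul (.c 8) (.sub (.s 0 40 1 1) (.s 0 39 1 1)))) (.mul (.r 0 0 1 1) (.sub (.s 0 670 1 1) (.s 0 38 1 1)))), 66, 1, 1, 1, 1⟩,
  ⟨(.sub (.mul (.c 16777216) (.mul (.c 8) (.sub (.s 0 672 1 1) (.s 0 671 1 1)))) (.mul (.r 0 0 1 1) (.sub (.s 0 670 1 1) (.s 0 38 1 1)))), 66, 1, 1, 1, 1⟩,
  ⟨(.sub (.mul (.c 33554432) (.s 0 48 1 1)) (.add (.mul (.c 33554432) (.s 0 680 1 1)) (.mul (.c 1) (.mul (.r 0 0 1 1) (.add (.s 0 47 1 1) (.s 0 679 1 1)))))), 66, 1, 1, 1, 1⟩,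
  ⟨(.sub (.s 0 49 1 1) (.s 0 48 1 1)), 34, 1, 1, 1, 1⟩,
  ⟨(.sub (.s 0 681 1 1) (.s 0 680 1 1)), 34, 1, 1, 1, 1⟩,
  ⟨(.sub (.mul (.c 16777216) (.mul (.c 8) (.sub (.s 0 49 1 1) (.s 0 48 1 1)))) (.mul (.r 0 0 1 1) (.sub (.s 0 679 1 1) (.s 0 47 1 1)))), 66, 1, 1, 1, 1⟩,
  ⟨(.sub (.mul (.c 16777216) (.mul (.c 8) (.sub (.s 0 681 1 1) (.s 0 680 1 1)))) (.mul (.r 0 0 1 1) (.sub (.s 0 679 1 1) (.s 0 47 1 1)))), 66, 1, 1, 1, 1⟩,
  ⟨(.sub (.mul (.c 33554432) (.s 0 42 1 1)) (.add (.mul (.c 33554432) (.s 0 674 1 1)) (.mul (.c 1) (.mul (.r 0 0 1 1) (.add (.s 0 41 1 1) (.s 0 673 1 1)))))), 66, 1, 1, 1, 1⟩,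
  ⟨(.sub (.s 0 43 1 1) (.s 0 42 1 1)), 34, 1, 1, 1, 1⟩,
  ⟨(.sub (.s 0 675 1 1) (.s 0 674 1 1)), 34, 1, 1, 1, 1⟩,
  ⟨(.sub (.mul (.c 16777216) (.mul (.c 8) (.sub (.s 0 43 1 1) (.s 0 42 1 1)))) (.mul (.r 0 0 1 1) (.sub (.s 0 673 1 1) (.s 0 41 1 1)))), 66, 1, 1, 1, 1⟩,
  ⟨(.sub (.mul (.c 16777216) (.mul (.c 8) (.sub (.s 0 675 1 1) (.s 0 674 1 1)))) (.mul (.r 0 0 1 1) (.sub (.s 0 673 1 1) (.s 0 41 1 1)))), 66, 1, 1, 1, 1⟩,
  ⟨(.sub (.mul (.c 33554432) (.s 0 51 1 1)) (.add (.mul (.c 33554432) (.s 0 683 1 1)) (.mul (.c 1) (.mul (.r 0 0 1 1) (.add (.s 0 50 1 1) (.s 0 682 1 1)))))), 66, 1, 1, 1, 1⟩,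
  ⟨(.sub (.s 0 52 1 1) (.s 0 51 1 1)), 34, 1, 1, 1, 1⟩,
  ⟨(.sub (.s 0 684 1 1) (.s 0 683 1 1)), 34, 1, 1, 1, 1⟩,
  ⟨(.sub (.mul (.c 16777216) (.mul (.c 8) (.sub (.s 0 52 1 1) (.s 0 51 1 1)))) (.mul (.r 0 0 1 1) (.sub (.s 0 682 1 1) (.s 0 50 1 1)))), 66, 1, 1, 1, 1⟩,
  ⟨(.sub (.mul (.c 16777216) (.mul (.c 8) (.sub (.s 0 684 1 1) (.s 0 683 1 1)))) (.mul (.r 0 0 1 1) (.sub (.s 0 682 1 1) (.s 0 50 1 1)))), 66, 1, 1, 1, 1⟩,
  ⟨(.sub (.mul (.c 33554432) (.s 0 45 1 1)) (.add (.mul (.c 33554432) (.s 0 677 1 1)) (.mul (.c 1) (.mul (.r 0 0 1 1) (.add (.s 0 44 1 1) (.s 0 676 1 1)))))), 66, 1, 1, 1, 1⟩,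
  ⟨(.sub (.s 0 46 1 1) (.s 0 45 1 1)), 34, 1, 1, 1, 1⟩,
  ⟨(.sub (.s 0 678 1 1) (.s 0 677 1 1)), 34, 1, 1, 1, 1⟩,
  ⟨(.sub (.mul (.c 16777216) (.mul (.c 8) (.sub (.s 0 46 1 1) (.s 0 45 1 1)))) (.mul (.r 0 0 1 1) (.sub (.s 0 676 1 1) (.s 0 44 1 1)))), 66, 1, 1, 1, 1⟩,
  ⟨(.sub (.mul (.c 16777216) (.mul (.c 8) (.sub (.s 0 678 1 1) (.s 0 677 1 1)))) (.mul (.r 0 0 1 1) (.sub (.s 0 676 1 1) (.s 0 44 1 1)))), 66, 1, 1, 1, 1⟩,
  ⟨(.sub (.mul (.c 33554432) (.s 0 54 1 1)) (.add (.mul (.c 33554432) (.s 0 686 1 1)) (.mul (.c 1) (.mul (.r 0 0 1 1) (.add (.s 0 53 1 1) (.s 0 685 1 1)))))), 66, 1, 1, 1, 1⟩,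
  ⟨(.sub (.s 0 55 1 1) (.s 0 54 1 1)), 34, 1, 1, 1, 1⟩,
  ⟨(.sub (.s 0 687 1 1) (.s 0 686 1 1)), 34, 1, 1, 1, 1⟩,
  ⟨(.sub (.mul (.c 16777216) (.mul (.c 8) (.sub (.s 0 55 1 1) (.s 0 54 1 1)))) (.mul (.r 0 0 1 1) (.sub (.s 0 685 1 1) (.s 0 53 1 1)))), 66, 1, 1, 1, 1⟩,
  ⟨(.sub (.mul (.c 16777216) (.mul (.c 8) (.sub (.s 0 687 1 1) (.s 0 686 1 1)))) (.mul (.r 0 0 1 1) (.sub (.s 0 685 1 1) (.s 0 53 1 1)))), 66, 1, 1, 1, 1⟩,
  ⟨(.sub (.add (.mul (.mul (.c 4294967296) (.s 2 38 632 2)) (.w 1 2)) (.mul (.mul (.c 5462) (.v 1)) (.add (.mul (.mul (.c 65536) (.s 2 41 632 2)) (.w 1 1)) (.mul (.mul (.c 5462) (.v 1)) (.s 2 44 632 2))))) (.add (.mul (.mul (.c 4294967296) (.r 2 1 632 2)) (.w 1 2)) (.mul (.mul (.c 5462) (.v 1)) (.add (.mul (.mul (.c 65536) (.r 2 2 632 2)) (.w 1 1)) (.mul (.mul (.c 5462) (.v 1)) (.r 2 3 632 2)))))), 69, 1, 3, 2, 1⟩,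
  ⟨(.sub (.mul (.mul (.mul (.c 4722366482869645213696) (.add (.mul (.mul (.c 4294967296) (.s 2 47 632 2)) (.w 1 2)) (.mul (.mul (.c 5462) (.v 1)) (.add (.mul (.mul (.c 65536) (.s 2 50 632 2)) (.w 1 1)) (.mul (.mul (.c 5462) (.v 1)) (.s 2 53 632 2)))))) (.w 1 3)) (.w 2 1)) (.mul (.add (.mul (.mul (.c 4294967296) (.r 2 1 632 2)) (.w 1 2)) (.mul (.mul (.c 5462) (.v 1)) (.add (.mul (.mul (.c 65536) (.r 2 2 632 2)) (.w 1 1)) (.mul (.mul (.c 5462) (.v 1)) (.r 2 3 632 2))))) (.add (.mul (.mul (.mul (.c 4722366482869645213696) (.c 1)) (.w 1 3)) (.w 2 1)) (.mul (.mul (.c 5462) (.v 1)) (.add (.mul (.mul (.c 4294967296) (.s 2 49 632 2)) (.w 1 2)) (.mul (.mul (.c 5462) (.v 1)) (.add (.mul (.mul (.c 65536) (.s 2 52 632 2)) (.w 1 1)) (.mul (.mul (.c 5462) (.v 1)) (.s 2 55 632 2))))))))), 147, 1, 6, 3, 1⟩,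
  ⟨(.add (.mul (.mul (.c 4294967296) (.s 2 49 632 2)) (.w 1 2)) (.mul (.mul (.c 5462) (.v 1)) (.add (.mul (.mul (.c 65536) (.s 2 52 632 2)) (.w 1 1)) (.mul (.mul (.c 5462) (.v 1)) (.s 2 55 632 2))))), 68, 1, 3, 2, 1⟩,
  ⟨(.sub (.mul (.mul (.c 281474976710656) (.r 2 70 632 2)) (.w 1 3)) (.mul (.mul (.c 5462) (.v 1)) (.add (.mul (.mul (.c 4294967296) (.s 2 40 632 2)) (.w 1 2)) (.mul (.mul (.c 5462) (.v 1)) (.add (.mul (.mul (.c 65536) (.s 2 43 632 2)) (.w 1 1)) (.mul (.mul (.c 5462) (.v 1)) (.s 2 46 632 2))))))), 85, 1, 4, 2, 1⟩,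
  ⟨(.sub (.mul (.mul (.mul (.c 79228162514264337593543950336) (.add (.mul (.mul (.c 4294967296) (.r 2 56 632 2)) (.w 1 2)) (.mul (.mul (.c 5462) (.v 1)) (.add (.mul (.mul (.c 65536) (.r 2 57 632 2)) (.w 1 1)) (.mul (.mul (.c 5462) (.v 1)) (.r 2 58 632 2)))))) (.w 1 3)) (.w 2 2)) (.add (.mul (.mul (.mul (.c 79228162514264337593543950336) (.add (.mul (.mul (.c 4294967296) (.s 2 40 632 2)) (.w 1 2)) (.mul (.mul (.c 5462) (.v 1)) (.add (.mul (.mul (.c 65536) (.s 2 43 632 2)) (.w 1 1)) (.mul (.mul (.c 5462) (.v 1)) (.s 2 46 632 2)))))) (.w 1 3)) (.w 2 2)) (.mul (.r 2 68 632 2) (.mul (.mul (.c 5462) (.v 1)) (.mul (.add (.mul (.mul (.c 4294967296) (.s 2 40 632 2)) (.w 1 2)) (.mul (.mul (.c 5462) (.v 1)) (.add (.mul (.mul (.c 65536) (.s 2 43 632 2)) (.w 1 1)) (.mul (.mul (.c 5462) (.v 1)) (.s 2 46 632 2))))) (.add (.mul (.mul (.c 4294967296) (.s 2 40 632 2)) (.w 1 2))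 (.mul (.mul (.c 5462) (.v 1)) (.add (.mul (.mul (.c 65536) (.s 2 43 632 2)) (.w 1 1)) (.mul (.mul (.c 5462) (.v 1)) (.s 2 46 632 2)))))))))), 180, 1, 6, 4, 1⟩,
  ⟨(.sub (.add (.mul (.mul (.c 4294967296) (.r 2 59 632 2)) (.w 1 2)) (.mul (.mul (.c 5462) (.v 1)) (.add (.mul (.mul (.c 65536) (.r 2 60 632 2)) (.w 1 1)) (.mul (.mul (.c 5462) (.v 1)) (.r 2 61 632 2))))) (.add (.mul (.mul (.c 4294967296) (.s 2 49 632 2)) (.w 1 2)) (.mul (.mul (.c 5462) (.v 1)) (.add (.mul (.mul (.c 65536) (.s 2 52 632 2)) (.w 1 1)) (.mul (.mul (.c 5462) (.v 1)) (.s 2 55 632 2)))))), 69, 1, 3, 2, 1⟩,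
  ⟨(.sub (.r 2 64 632 2) (.mul (.mul (.c 16777216) (.c 1)) (.w 2 1))), 34, 1, 1, 2, 1⟩,
  ⟨(.sub (.r 2 65 632 2) (.mul (.mul (.c 16777216) (.c 1)) (.w 2 1))), 34, 1, 1, 2, 1⟩,
  ⟨(.r 2 66 632 2), 34, 1, 1, 2, 1⟩,
  ⟨(.r 2 67 632 2), 34, 1, 1, 2, 1⟩,
  ⟨(.r 2 68 632 2), 34, 1, 1, 2, 1⟩,
  ⟨(.r 2 70 632 2), 34, 1, 1, 2, 1⟩,
  ⟨(.r 2 62 632 2), 34, 1, 1, 2, 1⟩]

noncomputable def f2 : List Tc :=
 [⟨fun A S X L P R M N m a b c d e f g h D => (A (L (X 16777216 (L (X 8 (A (A (L (R D 31584) 4294967295) m) (S M (L (A (L (R D 31552) 4294967295) m) N)))) N)) N) (S M (L (L (X (L (R D 0) 4294967295) (A (A (L (R D 31520) 4294967295) m) (S M (L (A (L (R D 11296) 4294967295) m) N)))) N) N))), 66, 1, 1, 1, 1⟩,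
  ⟨fun A S X L P R M N m a b c d e f g h D => (A (L (X 33554432 (A (L (R D 11424) 4294967295) m)) N) (S M (L (A (L (X 33554432 (A (L (R D 31648) 4294967295) m)) N) (L (X 1 (L (X (L (R D 0) 4294967295) (A (A (L (R D 11392) 4294967295) m) (A (L (R D 31616) 4294967295) m))) N)) N)) N))), 66, 1, 1, 1, 1⟩,
  ⟨fun A S X L P R M N m a b c d e f g h D => (A (A (L (R D 11456) 4294967295) m) (S M (L (A (L (R D 11424) 4294967295) m) N))), 34, 1, 1, 1, 1⟩,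
  ⟨fun A S X L P R M N m a b c d e f g h D => (A (A (L (R D 31680) 4294967295) m) (S M (L (A (L (R D 31648) 4294967295) m) N))), 34, 1, 1, 1, 1⟩,
  ⟨fun A S X L P R M N m a b c d e f g h D => (A (L (X 16777216 (L (X 8 (A (A (L (R D 11456) 4294967295) m) (S M (L (A (L (R D 11424) 4294967295) m) N)))) N)) N) (S M (L (L (X (L (R D 0) 4294967295) (A (A (L (R D 31616) 4294967295) m) (S M (L (A (L (R D 11392) 4294967295) m) N)))) N) N))), 66, 1, 1, 1, 1⟩,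
  ⟨fun A S X L P R M N m a b c d e f g h D => (A (L (X 16777216 (L (X 8 (A (A (L (R D 31680) 4294967295) m) (S M (L (A (L (R D 31648) 4294967295) m) N)))) N)) N) (S M (L (L (X (L (R D 0) 4294967295) (A (A (L (R D 31616) 4294967295) m) (S M (L (A (L (R D 11392) 4294967295) m) N)))) N) N))), 66, 1, 1, 1, 1⟩,
  ⟨fun A S X L P R M N m a b c d e f g h D => (A (L (X 33554432 (A (L (R D 11520) 4294967295) m)) N) (S M (L (A (L (X 33554432 (A (L (R D 31744) 4294967295) m)) N) (L (X 1 (L (X (L (R D 0) 4294967295) (A (A (L (R D 11488) 4294967295) m) (A (L (R D 31712) 4294967295) m))) N)) N)) N))), 66, 1, 1, 1, 1⟩,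
  ⟨fun A S X L P R M N m a b c d e f g h D => (A (A (L (R D 11552) 4294967295) m) (S M (L (A (L (R D 11520) 4294967295) m) N))), 34, 1, 1, 1, 1⟩,
  ⟨fun A S X L P R M N m a b c d e f g h D => (A (A (L (R D 31776) 4294967295) m) (S M (L (A (L (R D 31744) 4294967295) m) N))), 34, 1, 1, 1, 1⟩,
  ⟨fun A S X L P R M N m a b c d e f g h D => (A (L (X 16777216 (L (X 8 (A (A (L (R D 11552) 4294967295) m) (S M (L (A (L (R D 11520) 4294967295) m) N)))) N)) N) (S M (L (L (X (L (R D 0) 4294967295) (A (A (L (R D 31712) 4294967295) m) (S M (L (A (L (R D 11488) 4294967295) m) N)))) N) N))), 66, 1, 1, 1, 1⟩,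
  ⟨fun A S X L P R M N m a b c d e f g h D => (A (L (X 16777216 (L (X 8 (A (A (L (R D 31776) 4294967295) m) (S M (L (A (L (R D 31744) 4294967295) m) N)))) N)) N) (S M (L (L (X (L (R D 0) 4294967295) (A (A (L (R D 31712) 4294967295) m) (S M (L (A (L (R D 11488) 4294967295) m) N)))) N) N))), 66, 1, 1, 1, 1⟩,
  ⟨fun A S X L P R M N m a b c d e f g h D => (A (L (X 33554432 (A (L (R D 11616) 4294967295) m)) N) (S M (L (A (L (X 33554432 (A (L (R D 31840) 4294967295) m)) N) (L (X 1 (L (X (L (R D 0) 4294967295) (A (A (L (R D 11584) 4294967295) m) (A (L (R D 31808) 4294967295) m))) N)) N)) N))), 66, 1, 1, 1, 1⟩,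
  ⟨fun A S X L P R M N m a b c d e f g h D => (A (A (L (R D 11648) 4294967295) m) (S M (L (A (L (R D 11616) 4294967295) m) N))), 34, 1, 1, 1, 1⟩,
  ⟨fun A S X L P R M N m a b c d e f g h D => (A (A (L (R D 31872) 4294967295) m) (S M (L (A (L (R D 31840) 4294967295) m) N))), 34, 1, 1, 1, 1⟩,
  ⟨fun A S X L P R M N m a b c d e f g h D => (A (L (X 16777216 (L (X 8 (A (A (L (R D 11648) 4294967295) m) (S M (L (A (L (R D 11616) 4294967295) m) N)))) N)) N) (S M (L (L (X (L (R D 0) 4294967295) (A (A (L (R D 31808) 4294967295) m) (S M (L (A (L (R D 11584) 4294967295) m) N)))) N) N))), 66, 1, 1, 1, 1⟩,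
  ⟨fun A S X L P R M N m a b c d e f g h D => (A (L (X 16777216 (L (X 8 (A (A (L (R D 31872) 4294967295) m) (S M (L (A (L (R D 31840) 4294967295) m) N)))) N)) N) (S M (L (L (X (L (R D 0) 4294967295) (A (A (L (R D 31808) 4294967295) m) (S M (L (A (L (R D 11584) 4294967295) m) N)))) N) N))), 66, 1, 1, 1, 1⟩,
  ⟨fun A S X L P R M N m a b c d e f g h D => (A (L (X 33554432 (A (L (R D 12288) 4294967295) m)) N) (S M (L (A (L (X 33554432 (A (L (R D 32512) 4294967295) m)) N) (L (X 1 (L (X (L (R D 0) 4294967295) (A (A (L (R D 12256) 4294967295) m) (A (L (R D 32480) 4294967295) m))) N)) N)) N))), 66, 1, 1, 1, 1⟩,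
  ⟨fun A S X L P R M N m a b c d e f g h D => (A (A (L (R D 12320) 4294967295) m) (S M (L (A (L (R D 12288) 4294967295) m) N))), 34, 1, 1, 1, 1⟩,
  ⟨fun A S X L P R M N m a b c d e f g h D => (A (A (L (R D 32544) 4294967295) m) (S M (L (A (L (R D 32512) 4294967295) m) N))), 34, 1, 1, 1, 1⟩,
  ⟨fun A S X L P R M N m a b c d e f g h D => (A (L (X 16777216 (L (X 8 (A (A (L (R D 12320) 4294967295) m) (S M (L (A (L (R D 12288) 4294967295) m) N)))) N)) N) (S M (L (L (X (L (R D 0) 4294967295) (A (A (L (R D 32480) 4294967295) m) (S M (L (A (L (R D 12256) 4294967295) m) N)))) N) N))), 66, 1, 1, 1, 1⟩,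
  ⟨fun A S X L P R M N m a b c d e f g h D => (A (L (X 16777216 (L (X 8 (A (A (L (R D 32544) 4294967295) m) (S M (L (A (L (R D 32512) 4294967295) m) N)))) N)) N) (S M (L (L (X (L (R D 0) 4294967295) (A (A (L (R D 32480) 4294967295) m) (S M (L (A (L (R D 12256) 4294967295) m) N)))) N) N))), 66, 1, 1, 1, 1⟩,
  ⟨fun A S X L P R M N m a b c d e f g h D => (A (L (X 33554432 (A (L (R D 12384) 4294967295) m)) N) (S M (L (A (L (X 33554432 (A (L (R D 32608) 4294967295) m)) N) (L (X 1 (L (X (L (R D 0) 4294967295) (A (A (L (R D 12352) 4294967295) m) (A (L (R D 32576) 4294967295) m))) N)) N)) N))), 66, 1, 1, 1, 1⟩,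
  ⟨fun A S X L P R M N m a b c d e f g h D => (A (A (L (R D 12416) 4294967295) m) (S M (L (A (L (R D 12384) 4294967295) m) N))), 34, 1, 1, 1, 1⟩,
  ⟨fun A S X L P R M N m a b c d e f g h D => (A (A (L (R D 32640) 4294967295) m) (S M (L (A (L (R D 32608) 4294967295) m) N))), 34, 1, 1, 1, 1⟩,
  ⟨fun A S X L P R M N m a b c d e f g h D => (A (L (X 16777216 (L (X 8 (A (A (L (R D 12416) 4294967295) m) (S M (L (A (L (R D 12384) 4294967295) m) N)))) N)) N) (S M (L (L (X (L (R D 0) 4294967295) (A (A (L (R D 32576) 4294967295) m) (S M (L (A (L (R D 12352) 4294967295) m) N)))) N) N))), 66, 1, 1, 1, 1⟩,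
  ⟨fun A S X L P R M N m a b c d e f g h D => (A (L (X 16777216 (L (X 8 (A (A (L (R D 32640) 4294967295) m) (S M (L (A (L (R D 32608) 4294967295) m) N)))) N)) N) (S M (L (L (X (L (R D 0) 4294967295) (A (A (L (R D 32576) 4294967295) m) (S M (L (A (L (R D 12352) 4294967295) m) N)))) N) N))), 66, 1, 1, 1, 1⟩,
  ⟨fun A S X L P R M N m a b c d e f g h D => (A (L (X 33554432 (A (L (R D 12480) 4294967295) m)) N) (S M (L (A (L (X 33554432 (A (L (R D 32704) 4294967295) m)) N) (L (X 1 (L (X (L (R D 0) 4294967295) (A (A (L (R D 12448) 4294967295) m) (A (L (R D 32672) 4294967295) m))) N)) N)) N))), 66, 1, 1, 1, 1⟩,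
  ⟨fun A S X L P R M N m a b c d e f g h D => (A (A (L (R D 12512) 4294967295) m) (S M (L (A (L (R D 12480) 4294967295) m) N))), 34, 1, 1, 1, 1⟩,
  ⟨fun A S X L P R M N m a b c d e f g h D => (A (A (L (R D 32736) 4294967295) m) (S M (L (A (L (R D 32704) 4294967295) m) N))), 34, 1, 1, 1, 1⟩,
  ⟨fun A S X L P R M N m a b c d e f g h D => (A (L (X 16777216 (L (X 8 (A (A (L (R D 12512) 4294967295) m) (S M (L (A (L (R D 12480) 4294967295) m) N)))) N)) N) (S M (L (L (X (L (R D 0) 4294967295) (A (A (L (R D 32672) 4294967295) m) (S M (L (A (L (R D 12448) 4294967295) m) N)))) N) N))), 66, 1, 1, 1, 1⟩,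
  ⟨fun A S X L P R M N m a b c d e f g h D => (A (L (X 16777216 (L (X 8 (A (A (L (R D 32736) 4294967295) m) (S M (L (A (L (R D 32704) 4294967295) m) N)))) N)) N) (S M (L (L (X (L (R D 0) 4294967295) (A (A (L (R D 32672) 4294967295) m) (S M (L (A (L (R D 12448) 4294967295) m) N)))) N) N))), 66, 1, 1, 1, 1⟩,
  ⟨fun A S X L P R M N m a b c d e f g h D => (A (L (X 33554432 (A (L (R D 12576) 4294967295) m)) N) (S M (L (A (L (X 33554432 (A (L (R D 32800) 4294967295) m)) N) (L (X 1 (L (X (L (R D 0) 4294967295) (A (A (L (R D 12544) 4294967295) m) (A (L (R D 32768) 4294967295) m))) N)) N)) N))), 66, 1, 1, 1, 1⟩,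
  ⟨fun A S X L P R M N m a b c d e f g h D => (A (A (L (R D 12608) 4294967295) m) (S M (L (A (L (R D 12576) 4294967295) m) N))), 34, 1, 1, 1, 1⟩,
  ⟨fun A S X L P R M N m a b c d e f g h D => (A (A (L (R D 32832) 4294967295) m) (S M (L (A (L (R D 32800) 4294967295) m) N))), 34, 1, 1, 1, 1⟩,
  ⟨fun A S X L P R M N m a b c d e f g h D => (A (L (X 16777216 (L (X 8 (A (A (L (R D 12608) 4294967295) m) (S M (L (A (L (R D 12576) 4294967295) m) N)))) N)) N) (S M (L (L (X (L (R D 0) 4294967295) (A (A (L (R D 32768) 4294967295) m) (S M (L (A (L (R D 12544) 4294967295) m) N)))) N) N))), 66, 1, 1, 1, 1⟩,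
  ⟨fun A S X L P R M N m a b c d e f g h D => (A (L (X 16777216 (L (X 8 (A (A (L (R D 32832) 4294967295) m) (S M (L (A (L (R D 32800) 4294967295) m) N)))) N)) N) (S M (L (L (X (L (R D 0) 4294967295) (A (A (L (R D 32768) 4294967295) m) (S M (L (A (L (R D 12544) 4294967295) m) N)))) N) N))), 66, 1, 1, 1, 1⟩,
  ⟨fun A S X L P R M N m a b c d e f g h D => (A (L (X 33554432 (A (L (R D 12672) 4294967295) m)) N) (S M (L (A (L (X 33554432 (A (L (R D 32896) 4294967295) m)) N) (L (X 1 (L (X (L (R D 0) 4294967295) (A (A (L (R D 12640) 4294967295) m) (A (L (R D 32864) 4294967295) m))) N)) N)) N))), 66, 1, 1, 1, 1⟩,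
  ⟨fun A S X L P R M N m a b c d e f g h D => (A (A (L (R D 12704) 4294967295) m) (S M (L (A (L (R D 12672) 4294967295) m) N))), 34, 1, 1, 1, 1⟩,
  ⟨fun A S X L P R M N m a b c d e f g h D => (A (A (L (R D 32928) 4294967295) m) (S M (L (A (L (R D 32896) 4294967295) m) N))), 34, 1, 1, 1, 1⟩,
  ⟨fun A S X L P R M N m a b c d e f g h D => (A (L (X 16777216 (L (X 8 (A (A (L (R D 12704) 4294967295) m) (S M (L (A (L (R D 12672) 4294967295) m) N)))) N)) N) (S M (L (L (X (L (R D 0) 4294967295) (A (A (L (R D 32864) 4294967295) m) (S M (L (A (L (R D 12640) 4294967295) m) N)))) N) N))), 66, 1, 1, 1, 1⟩,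
  ⟨fun A S X L P R M N m a b c d e f g h D => (A (L (X 16777216 (L (X 8 (A (A (L (R D 32928) 4294967295) m) (S M (L (A (L (R D 32896) 4294967295) m) N)))) N)) N) (S M (L (L (X (L (R D 0) 4294967295) (A (A (L (R D 32864) 4294967295) m) (S M (L (A (L (R D 12640) 4294967295) m) N)))) N) N))), 66, 1, 1, 1, 1⟩,
  ⟨fun A S X L P R M N m a b c d e f g h D => (A (L (X 33554432 (A (L (R D 12768) 4294967295) m)) N) (S M (L (A (L (X 33554432 (A (L (R D 32992) 4294967295) m)) N) (L (X 1 (L (X (L (R D 0) 4294967295) (A (A (L (R D 12736) 4294967295) m) (A (L (R D 32960) 4294967295) m))) N)) N)) N))), 66, 1, 1, 1, 1⟩,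
  ⟨fun A S X L P R M N m a b c d e f g h D => (A (A (L (R D 12800) 4294967295) m) (S M (L (A (L (R D 12768) 4294967295) m) N))), 34, 1, 1, 1, 1⟩,
  ⟨fun A S X L P R M N m a b c d e f g h D => (A (A (L (R D 33024) 4294967295) m) (S M (L (A (L (R D 32992) 4294967295) m) N))), 34, 1, 1, 1, 1⟩,
  ⟨fun A S X L P R M N m a b c d e f g h D => (A (L (X 16777216 (L (X 8 (A (A (L (R D 12800) 4294967295) m) (S M (L (A (L (R D 12768) 4294967295) m) N)))) N)) N) (S M (L (L (X (L (R D 0) 4294967295) (A (A (L (R D 32960) 4294967295) m) (S M (L (A (L (R D 12736) 4294967295) m) N)))) N) N))), 66, 1, 1, 1, 1⟩,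
  ⟨fun A S X L P R M N m a b c d e f g h D => (A (L (X 16777216 (L (X 8 (A (A (L (R D 33024) 4294967295) m) (S M (L (A (L (R D 32992) 4294967295) m) N)))) N)) N) (S M (L (L (X (L (R D 0) 4294967295) (A (A (L (R D 32960) 4294967295) m) (S M (L (A (L (R D 12736) 4294967295) m) N)))) N) N))), 66, 1, 1, 1, 1⟩,
  ⟨fun A S X L P R M N m a b c d e f g h D => (A (L (X 33554432 (A (L (R D 11712) 4294967295) m)) N) (S M (L (A (L (X 33554432 (A (L (R D 31936) 4294967295) m)) N) (L (X 1 (L (X (L (R D 0) 4294967295) (A (A (L (R D 11680) 4294967295) m) (A (L (R D 31904) 4294967295) m))) N)) N)) N))), 66, 1, 1, 1, 1⟩,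
  ⟨fun A S X L P R M N m a b c d e f g h D => (A (A (L (R D 11744) 4294967295) m) (S M (L (A (L (R D 11712) 4294967295) m) N))), 34, 1, 1, 1, 1⟩,
  ⟨fun A S X L P R M N m a b c d e f g h D => (A (A (L (R D 31968) 4294967295) m) (S M (L (A (L (R D 31936) 4294967295) m) N))), 34, 1, 1, 1, 1⟩,
  ⟨fun A S X L P R M N m a b c d e f g h D => (A (L (X 16777216 (L (X 8 (A (A (L (R D 11744) 4294967295) m) (S M (L (A (L (R D 11712) 4294967295) m) N)))) N)) N) (S M (L (L (X (L (R D 0) 4294967295) (A (A (L (R D 31904) 4294967295) m) (S M (L (A (L (R D 11680) 4294967295) m) N)))) N) N))), 66, 1, 1, 1, 1⟩,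
  ⟨fun A S X L P R M N m a b c d e f g h D => (A (L (X 16777216 (L (X 8 (A (A (L (R D 31968) 4294967295) m) (S M (L (A (L (R D 31936) 4294967295) m) N)))) N)) N) (S M (L (L (X (L (R D 0) 4294967295) (A (A (L (R D 31904) 4294967295) m) (S M (L (A (L (R D 11680) 4294967295) m) N)))) N) N))), 66, 1, 1, 1, 1⟩,
  ⟨fun A S X L P R M N m a b c d e f g h D => (A (L (X 33554432 (A (L (R D 11808) 4294967295) m)) N) (S M (L (A (L (X 33554432 (A (L (R D 32032) 4294967295) m)) N) (L (X 1 (L (X (L (R D 0) 4294967295) (A (A (L (R D 11776) 4294967295) m) (A (L (R D 32000) 4294967295) m))) N)) N)) N))), 66, 1, 1, 1, 1⟩,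
  ⟨fun A S X L P R M N m a b c d e f g h D => (A (A (L (R D 11840) 4294967295) m) (S M (L (A (L (R D 11808) 4294967295) m) N))), 34, 1, 1, 1, 1⟩,
  ⟨fun A S X L P R M N m a b c d e f g h D => (A (A (L (R D 32064) 4294967295) m) (S M (L (A (L (R D 32032) 4294967295) m) N))), 34, 1, 1, 1, 1⟩,
  ⟨fun A S X L P R M N m a b c d e f g h D => (A (L (X 16777216 (L (X 8 (A (A (L (R D 11840) 4294967295) m) (S M (L (A (L (R D 11808) 4294967295) m) N)))) N)) N) (S M (L (L (X (L (R D 0) 4294967295) (A (A (L (R D 32000) 4294967295) m) (S M (L (A (L (R D 11776) 4294967295) m) N)))) N) N))), 66, 1, 1, 1, 1⟩,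
  ⟨fun A S X L P R M N m a b c d e f g h D => (A (L (X 16777216 (L (X 8 (A (A (L (R D 32064) 4294967295) m) (S M (L (A (L (R D 32032) 4294967295) m) N)))) N)) N) (S M (L (L (X (L (R D 0) 4294967295) (A (A (L (R D 32000) 4294967295) m) (S M (L (A (L (R D 11776) 4294967295) m) N)))) N) N))), 66, 1, 1, 1, 1⟩,
  ⟨fun A S X L P R M N m a b c d e f g h D => (A (L (X 33554432 (A (L (R D 11904) 4294967295) m)) N) (S M (L (A (L (X 33554432 (A (L (R D 32128) 4294967295) m)) N) (L (X 1 (L (X (L (R D 0) 4294967295) (A (A (L (R D 11872) 4294967295) m) (A (L (R D 32096) 4294967295) m))) N)) N)) N))), 66, 1, 1, 1, 1⟩,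
  ⟨fun A S X L P R M N m a b c d e f g h D => (A (A (L (R D 11936) 4294967295) m) (S M (L (A (L (R D 11904) 4294967295) m) N))), 34, 1, 1, 1, 1⟩,
  ⟨fun A S X L P R M N m a b c d e f g h D => (A (A (L (R D 32160) 4294967295) m) (S M (L (A (L (R D 32128) 4294967295) m) N))), 34, 1, 1, 1, 1⟩,
  ⟨fun A S X L P R M N m a b c d e f g h D => (A (L (X 16777216 (L (X 8 (A (A (L (R D 11936) 4294967295) m) (S M (L (A (L (R D 11904) 4294967295) m) N)))) N)) N) (S M (L (L (X (L (R D 0) 4294967295) (A (A (L (R D 32096) 4294967295) m) (S M (L (A (L (R D 11872) 4294967295) m) N)))) N) N))), 66, 1, 1, 1, 1⟩,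
  ⟨fun A S X L P R M N m a b c d e f g h D => (A (L (X 16777216 (L (X 8 (A (A (L (R D 32160) 4294967295) m) (S M (L (A (L (R D 32128) 4294967295) m) N)))) N)) N) (S M (L (L (X (L (R D 0) 4294967295) (A (A (L (R D 32096) 4294967295) m) (S M (L (A (L (R D 11872) 4294967295) m) N)))) N) N))), 66, 1, 1, 1, 1⟩,
  ⟨fun A S X L P R M N m a b c d e f g h D => (A (L (X 33554432 (A (L (R D 12000) 4294967295) m)) N) (S M (L (A (L (X 33554432 (A (L (R D 32224) 4294967295) m)) N) (L (X 1 (L (X (L (R D 0) 4294967295) (A (A (L (R D 11968) 4294967295) m) (A (L (R D 32192) 4294967295) m))) N)) N)) N))), 66, 1, 1, 1, 1⟩,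
  ⟨fun A S X L P R M N m a b c d e f g h D => (A (A (L (R D 12032) 4294967295) m) (S M (L (A (L (R D 12000) 4294967295) m) N))), 34, 1, 1, 1, 1⟩,
  ⟨fun A S X L P R M N m a b c d e f g h D => (A (A (L (R D 32256) 4294967295) m) (S M (L (A (L (R D 32224) 4294967295) m) N))), 34, 1, 1, 1, 1⟩,
  ⟨fun A S X L P R M N m a b c d e f g h D => (A (L (X 16777216 (L (X 8 (A (A (L (R D 12032) 4294967295) m) (S M (L (A (L (R D 12000) 4294967295) m) N)))) N)) N) (S M (L (L (X (L (R D 0) 4294967295) (A (A (L (R D 32192) 4294967295) m) (S M (L (A (L (R D 11968) 4294967295) m) N)))) N) N))), 66, 1, 1, 1, 1⟩,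
  ⟨fun A S X L P R M N m a b c d e f g h D => (A (L (X 16777216 (L (X 8 (A (A (L (R D 32256) 4294967295) m) (S M (L (A (L (R D 32224) 4294967295) m) N)))) N)) N) (S M (L (L (X (L (R D 0) 4294967295) (A (A (L (R D 32192) 4294967295) m) (S M (L (A (L (R D 11968) 4294967295) m) N)))) N) N))), 66, 1, 1, 1, 1⟩,
  ⟨fun A S X L P R M N m a b c d e f g h D => (A (L (X 33554432 (A (L (R D 12096) 4294967295) m)) N) (S M (L (A (L (X 33554432 (A (L (R D 32320) 4294967295) m)) N) (L (X 1 (L (X (L (R D 0) 4294967295) (A (A (L (R D 12064) 4294967295) m) (A (L (R D 32288) 4294967295) m))) N)) N)) N))), 66, 1, 1, 1, 1⟩,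
  ⟨fun A S X L P R M N m a b c d e f g h D => (A (A (L (R D 12128) 4294967295) m) (S M (L (A (L (R D 12096) 4294967295) m) N))), 34, 1, 1, 1, 1⟩,
  ⟨fun A S X L P R M N m a b c d e f g h D => (A (A (L (R D 32352) 4294967295) m) (S M (L (A (L (R D 32320) 4294967295) m) N))), 34, 1, 1, 1, 1⟩,
  ⟨fun A S X L P R M N m a b c d e f g h D => (A (L (X 16777216 (L (X 8 (A (A (L (R D 12128) 4294967295) m) (S M (L (A (L (R D 12096) 4294967295) m) N)))) N)) N) (S M (L (L (X (L (R D 0) 4294967295) (A (A (L (R D 32288) 4294967295) m) (S M (L (A (L (R D 12064) 4294967295) m) N)))) N) N))), 66, 1, 1, 1, 1⟩,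
  ⟨fun A S X L P R M N m a b c d e f g h D => (A (L (X 16777216 (L (X 8 (A (A (L (R D 32352) 4294967295) m) (S M (L (A (L (R D 32320) 4294967295) m) N)))) N)) N) (S M (L (L (X (L (R D 0) 4294967295) (A (A (L (R D 32288) 4294967295) m) (S M (L (A (L (R D 12064) 4294967295) m) N)))) N) N))), 66, 1, 1, 1, 1⟩,
  ⟨fun A S X L P R M N m a b c d e f g h D => (A (L (X 33554432 (A (L (R D 12192) 4294967295) m)) N) (S M (L (A (L (X 33554432 (A (L (R D 32416) 4294967295) m)) N) (L (X 1 (L (X (L (R D 0) 4294967295) (A (A (L (R D 12160) 4294967295) m) (A (L (R D 32384) 4294967295) m))) N)) N)) N))), 66, 1, 1, 1, 1⟩,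
  ⟨fun A S X L P R M N m a b c d e f g h D => (A (A (L (R D 12224) 4294967295) m) (S M (L (A (L (R D 12192) 4294967295) m) N))), 34, 1, 1, 1, 1⟩,
  ⟨fun A S X L P R M N m a b c d e f g h D => (A (A (L (R D 32448) 4294967295) m) (S M (L (A (L (R D 32416) 4294967295) m) N))), 34, 1, 1, 1, 1⟩,
  ⟨fun A S X L P R M N m a b c d e f g h D => (A (L (X 16777216 (L (X 8 (A (A (L (R D 12224) 4294967295) m) (S M (L (A (L (R D 12192) 4294967295) m) N)))) N)) N) (S M (L (L (X (L (R D 0) 4294967295) (A (A (L (R D 32384) 4294967295) m) (S M (L (A (L (R D 12160) 4294967295) m) N)))) N) N))), 66, 1, 1, 1, 1⟩,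
  ⟨fun A S X L P R M N m a b c d e f g h D => (A (L (X 16777216 (L (X 8 (A (A (L (R D 32448) 4294967295) m) (S M (L (A (L (R D 32416) 4294967295) m) N)))) N)) N) (S M (L (L (X (L (R D 0) 4294967295) (A (A (L (R D 32384) 4294967295) m) (S M (L (A (L (R D 12160) 4294967295) m) N)))) N) N))), 66, 1, 1, 1, 1⟩,
  ⟨fun A S X L P R M N m a b c d e f g h D => (A (L (X 33554432 (A (L (R D 12864) 4294967295) m)) N) (S M (L (A (L (X 33554432 (A (L (R D 33088) 4294967295) m)) N) (L (X 1 (L (X (L (R D 0) 4294967295) (A (A (L (R D 12832) 4294967295) m) (A (L (R D 33056) 4294967295) m))) N)) N)) N))), 66, 1, 1, 1, 1⟩,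
  ⟨fun A S X L P R M N m a b c d e f g h D => (A (A (L (R D 12896) 4294967295) m) (S M (L (A (L (R D 12864) 4294967295) m) N))), 34, 1, 1, 1, 1⟩,
  ⟨fun A S X L P R M N m a b c d e f g h D => (A (A (L (R D 33120) 4294967295) m) (S M (L (A (L (R D 33088) 4294967295) m) N))), 34, 1, 1, 1, 1⟩,
  ⟨fun A S X L P R M N m a b c d e f g h D => (A (L (X 16777216 (L (X 8 (A (A (L (R D 12896) 4294967295) m) (S M (L (A (L (R D 12864) 4294967295) m) N)))) N)) N) (S M (L (L (X (L (R D 0) 4294967295) (A (A (L (R D 33056) 4294967295) m) (S M (L (A (L (R D 12832) 4294967295) m) N)))) N) N))), 66, 1, 1, 1, 1⟩,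
  ⟨fun A S X L P R M N m a b c d e f g h D => (A (L (X 16777216 (L (X 8 (A (A (L (R D 33120) 4294967295) m) (S M (L (A (L (R D 33088) 4294967295) m) N)))) N)) N) (S M (L (L (X (L (R D 0) 4294967295) (A (A (L (R D 33056) 4294967295) m) (S M (L (A (L (R D 12832) 4294967295) m) N)))) N) N))), 66, 1, 1, 1, 1⟩,
  ⟨fun A S X L P R M N m a b c d e f g h D => (A (L (X 33554432 (A (L (R D 12960) 4294967295) m)) N) (S M (L (A (L (X 33554432 (A (L (R D 33184) 4294967295) m)) N) (L (X 1 (L (X (L (R D 0) 4294967295) (A (A (L (R D 12928) 4294967295) m) (A (L (R D 33152) 4294967295) m))) N)) N)) N))), 66, 1, 1, 1, 1⟩,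
  ⟨fun A S X L P R M N m a b c d e f g h D => (A (A (L (R D 12992) 4294967295) m) (S M (L (A (L (R D 12960) 4294967295) m) N))), 34, 1, 1, 1, 1⟩,
  ⟨fun A S X L P R M N m a b c d e f g h D => (A (A (L (R D 33216) 4294967295) m) (S M (L (A (L (R D 33184) 4294967295) m) N))), 34, 1, 1, 1, 1⟩,
  ⟨fun A S X L P R M N m a b c d e f g h D => (A (L (X 16777216 (L (X 8 (A (A (L (R D 12992) 4294967295) m) (S M (L (A (L (R D 12960) 4294967295) m) N)))) N)) N) (S M (L (L (X (L (R D 0) 4294967295) (A (A (L (R D 33152) 4294967295) m) (S M (L (A (L (R D 12928) 4294967295) m) N)))) N) N))), 66, 1, 1, 1, 1⟩,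
  ⟨fun A S X L P R M N m a b c d e f g h D => (A (L (X 16777216 (L (X 8 (A (A (L (R D 33216) 4294967295) m) (S M (L (A (L (R D 33184) 4294967295) m) N)))) N)) N) (S M (L (L (X (L (R D 0) 4294967295) (A (A (L (R D 33152) 4294967295) m) (S M (L (A (L (R D 12928) 4294967295) m) N)))) N) N))), 66, 1, 1, 1, 1⟩,
  ⟨fun A S X L P R M N m a b c d e f g h D => (A (L (X 33554432 (A (L (R D 13056) 4294967295) m)) N) (S M (L (A (L (X 33554432 (A (L (R D 33280) 4294967295) m)) N) (L (X 1 (L (X (L (R D 0) 4294967295) (A (A (L (R D 13024) 4294967295) m) (A (L (R D 33248) 4294967295) m))) N)) N)) N))), 66, 1, 1, 1, 1⟩,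
  ⟨fun A S X L P R M N m a b c d e f g h D => (A (A (L (R D 13088) 4294967295) m) (S M (L (A (L (R D 13056) 4294967295) m) N))), 34, 1, 1, 1, 1⟩,
  ⟨fun A S X L P R M N m a b c d e f g h D => (A (A (L (R D 33312) 4294967295) m) (S M (L (A (L (R D 33280) 4294967295) m) N))), 34, 1, 1, 1, 1⟩,
  ⟨fun A S X L P R M N m a b c d e f g h D => (A (L (X 16777216 (L (X 8 (A (A (L (R D 13088) 4294967295) m) (S M (L (A (L (R D 13056) 4294967295) m) N)))) N)) N) (S M (L (L (X (L (R D 0) 4294967295) (A (A (L (R D 33248) 4294967295) m) (S M (L (A (L (R D 13024) 4294967295) m) N)))) N) N))), 66, 1, 1, 1, 1⟩,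
  ⟨fun A S X L P R M N m a b c d e f g h D => (A (L (X 16777216 (L (X 8 (A (A (L (R D 33312) 4294967295) m) (S M (L (A (L (R D 33280) 4294967295) m) N)))) N)) N) (S M (L (L (X (L (R D 0) 4294967295) (A (A (L (R D 33248) 4294967295) m) (S M (L (A (L (R D 13024) 4294967295) m) N)))) N) N))), 66, 1, 1, 1, 1⟩,
  ⟨fun A S X L P R M N m a b c d e f g h D => (A (L (X 33554432 (A (L (R D 13152) 4294967295) m)) N) (S M (L (A (L (X 33554432 (A (L (R D 33376) 4294967295) m)) N) (L (X 1 (L (X (L (R D 0) 4294967295) (A (A (L (R D 13120) 4294967295) m) (A (L (R D 33344) 4294967295) m))) N)) N)) N))), 66, 1, 1, 1, 1⟩,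
  ⟨fun A S X L P R M N m a b c d e f g h D => (A (A (L (R D 13184) 4294967295) m) (S M (L (A (L (R D 13152) 4294967295) m) N))), 34, 1, 1, 1, 1⟩,
  ⟨fun A S X L P R M N m a b c d e f g h D => (A (A (L (R D 33408) 4294967295) m) (S M (L (A (L (R D 33376) 4294967295) m) N))), 34, 1, 1, 1, 1⟩,
  ⟨fun A S X L P R M N m a b c d e f g h D => (A (L (X 16777216 (L (X 8 (A (A (L (R D 13184) 4294967295) m) (S M (L (A (L (R D 13152) 4294967295) m) N)))) N)) N) (S M (L (L (X (L (R D 0) 4294967295) (A (A (L (R D 33344) 4294967295) m) (S M (L (A (L (R D 13120) 4294967295) m) N)))) N) N))), 66, 1, 1, 1, 1⟩,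
  ⟨fun A S X L P R M N m a b c d e f g h D => (A (L (X 16777216 (L (X 8 (A (A (L (R D 33408) 4294967295) m) (S M (L (A (L (R D 33376) 4294967295) m) N)))) N)) N) (S M (L (L (X (L (R D 0) 4294967295) (A (A (L (R D 33344) 4294967295) m) (S M (L (A (L (R D 13120) 4294967295) m) N)))) N) N))), 66, 1, 1, 1, 1⟩,
  ⟨fun A S X L P R M N m a b c d e f g h D => (A (L (X 33554432 (A (L (R D 13248) 4294967295) m)) N) (S M (L (A (L (X 33554432 (A (L (R D 33472) 4294967295) m)) N) (L (X 1 (L (X (L (R D 0) 4294967295) (A (A (L (R D 13216) 4294967295) m) (A (L (R D 33440) 4294967295) m))) N)) N)) N))), 66, 1, 1, 1, 1⟩,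
  ⟨fun A S X L P R M N m a b c d e f g h D => (A (A (L (R D 13280) 4294967295) m) (S M (L (A (L (R D 13248) 4294967295) m) N))), 34, 1, 1, 1, 1⟩,
  ⟨fun A S X L P R M N m a b c d e f g h D => (A (A (L (R D 33504) 4294967295) m) (S M (L (A (L (R D 33472) 4294967295) m) N))), 34, 1, 1, 1, 1⟩,
  ⟨fun A S X L P R M N m a b c d e f g h D => (A (L (X 16777216 (L (X 8 (A (A (L (R D 13280) 4294967295) m) (S M (L (A (L (R D 13248) 4294967295) m) N)))) N)) N) (S M (L (L (X (L (R D 0) 4294967295) (A (A (L (R D 33440) 4294967295) m) (S M (L (A (L (R D 13216) 4294967295) m) N)))) N) N))), 66, 1, 1, 1, 1⟩,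
  ⟨fun A S X L P R M N m a b c d e f g h D => (A (L (X 16777216 (L (X 8 (A (A (L (R D 33504) 4294967295) m) (S M (L (A (L (R D 33472) 4294967295) m) N)))) N)) N) (S M (L (L (X (L (R D 0) 4294967295) (A (A (L (R D 33440) 4294967295) m) (S M (L (A (L (R D 13216) 4294967295) m) N)))) N) N))), 66, 1, 1, 1, 1⟩,
  ⟨fun A S X L P R M N m a b c d e f g h D => (A (L (X 33554432 (A (L (R D 13344) 4294967295) m)) N) (S M (L (A (L (X 33554432 (A (L (R D 33568) 4294967295) m)) N) (L (X 1 (L (X (L (R D 0) 4294967295) (A (A (L (R D 13312) 4294967295) m) (A (L (R D 33536) 4294967295) m))) N)) N)) N))), 66, 1, 1, 1, 1⟩,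
  ⟨fun A S X L P R M N m a b c d e f g h D => (A (A (L (R D 13376) 4294967295) m) (S M (L (A (L (R D 13344) 4294967295) m) N))), 34, 1, 1, 1, 1⟩,
  ⟨fun A S X L P R M N m a b c d e f g h D => (A (A (L (R D 33600) 4294967295) m) (S M (L (A (L (R D 33568) 4294967295) m) N))), 34, 1, 1, 1, 1⟩,
  ⟨fun A S X L P R M N m a b c d e f g h D => (A (L (X 16777216 (L (X 8 (A (A (L (R D 13376) 4294967295) m) (S M (L (A (L (R D 13344) 4294967295) m) N)))) N)) N) (S M (L (L (X (L (R D 0) 4294967295) (A (A (L (R D 33536) 4294967295) m) (S M (L (A (L (R D 13312) 4294967295) m) N)))) N) N))), 66, 1, 1, 1, 1⟩,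
  ⟨fun A S X L P R M N m a b c d e f g h D => (A (L (X 16777216 (L (X 8 (A (A (L (R D 33600) 4294967295) m) (S M (L (A (L (R D 33568) 4294967295) m) N)))) N)) N) (S M (L (L (X (L (R D 0) 4294967295) (A (A (L (R D 33536) 4294967295) m) (S M (L (A (L (R D 13312) 4294967295) m) N)))) N) N))), 66, 1, 1, 1, 1⟩,
  ⟨fun A S X L P R M N m a b c d e f g h D => (A (L (R D 0) 4294967295) (S M (L 1 N))), 33, 1, 1, 1, 1⟩,
  ⟨fun A S X L P R M N m a b c d e f g h D => (A (L (X 33554432 (A (L (R D 1248) 4294967295) m)) N) (S M (L (A (L (X 33554432 (A (L (R D 21472) 4294967295) m)) N) (L (X 1 (L (X (L (R D 0) 4294967295) (A (A (L (R D 1216) 4294967295) m) (A (L (R D 21440) 4294967295) m))) N)) N)) N))), 66, 1, 1, 1, 1⟩,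
  ⟨fun A S X L P R M N m a b c d e f g h D => (A (A (L (R D 1280) 4294967295) m) (S M (L (A (L (R D 1248) 4294967295) m) N))), 34, 1, 1, 1, 1⟩,
  ⟨fun A S X L P R M N m a b c d e f g h D => (A (A (L (R D 21504) 4294967295) m) (S M (L (A (L (R D 21472) 4294967295) m) N))), 34, 1, 1, 1, 1⟩,
  ⟨fun A S X L P R M N m a b c d e f g h D => (A (L (X 16777216 (L (X 8 (A (A (L (R D 1280) 4294967295) m) (S M (L (A (L (R D 1248) 4294967295) m) N)))) N)) N) (S M (L (L (X (L (R D 0) 4294967295) (A (A (L (R D 21440) 4294967295) m) (S M (L (A (L (R D 1216) 4294967295) m) N)))) N) N))), 66, 1, 1, 1, 1⟩,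
  ⟨fun A S X L P R M N m a b c d e f g h D => (A (L (X 16777216 (L (X 8 (A (A (L (R D 21504) 4294967295) m) (S M (L (A (L (R D 21472) 4294967295) m) N)))) N)) N) (S M (L (L (X (L (R D 0) 4294967295) (A (A (L (R D 21440) 4294967295) m) (S M (L (A (L (R D 1216) 4294967295) m) N)))) N) N))), 66, 1, 1, 1, 1⟩,
  ⟨fun A S X L P R M N m a b c d e f g h D => (A (L (X 33554432 (A (L (R D 1536) 4294967295) m)) N) (S M (L (A (L (X 33554432 (A (L (R D 21760) 4294967295) m)) N) (L (X 1 (L (X (L (R D 0) 4294967295) (A (A (L (R D 1504) 4294967295) m) (A (L (R D 21728) 4294967295) m))) N)) N)) N))), 66, 1, 1, 1, 1⟩,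
  ⟨fun A S X L P R M N m a b c d e f g h D => (A (A (L (R D 1568) 4294967295) m) (S M (L (A (L (R D 1536) 4294967295) m) N))), 34, 1, 1, 1, 1⟩,
  ⟨fun A S X L P R M N m a b c d e f g h D => (A (A (L (R D 21792) 4294967295) m) (S M (L (A (L (R D 21760) 4294967295) m) N))), 34, 1, 1, 1, 1⟩,
  ⟨fun A S X L P R M N m a b c d e f g h D => (A (L (X 16777216 (L (X 8 (A (A (L (R D 1568) 4294967295) m) (S M (L (A (L (R D 1536) 4294967295) m) N)))) N)) N) (S M (L (L (X (L (R D 0) 4294967295) (A (A (L (R D 21728) 4294967295) m) (S M (L (A (L (R D 1504) 4294967295) m) N)))) N) N))), 66, 1, 1, 1, 1⟩,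
  ⟨fun A S X L P R M N m a b c d e f g h D => (A (L (X 16777216 (L (X 8 (A (A (L (R D 21792) 4294967295) m) (S M (L (A (L (R D 21760) 4294967295) m) N)))) N)) N) (S M (L (L (X (L (R D 0) 4294967295) (A (A (L (R D 21728) 4294967295) m) (S M (L (A (L (R D 1504) 4294967295) m) N)))) N) N))), 66, 1, 1, 1, 1⟩,
  ⟨fun A S X L P R M N m a b c d e f g h D => (A (L (X 33554432 (A (L (R D 1344) 4294967295) m)) N) (S M (L (A (L (X 33554432 (A (L (R D 21568) 4294967295) m)) N) (L (X 1 (L (X (L (R D 0) 4294967295) (A (A (L (R D 1312) 4294967295) m) (A (L (R D 21536) 4294967295) m))) N)) N)) N))), 66, 1, 1, 1, 1⟩,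
  ⟨fun A S X L P R M N m a b c d e f g h D => (A (A (L (R D 1376) 4294967295) m) (S M (L (A (L (R D 1344) 4294967295) m) N))), 34, 1, 1, 1, 1⟩,
  ⟨fun A S X L P R M N m a b c d e f g h D => (A (A (L (R D 21600) 4294967295) m) (S M (L (A (L (R D 21568) 4294967295) m) N))), 34, 1, 1, 1, 1⟩,
  ⟨fun A S X L P R M N m a b c d e f g h D => (A (L (X 16777216 (L (X 8 (A (A (L (R D 1376) 4294967295) m) (S M (L (A (L (R D 1344) 4294967295) m) N)))) N)) N) (S M (L (L (X (L (R D 0) 4294967295) (A (A (L (R D 21536) 4294967295) m) (S M (L (A (L (R D 1312) 4294967295) m) N)))) N) N))), 66, 1, 1, 1, 1⟩,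
  ⟨fun A S X L P R M N m a b c d e f g h D => (A (L (X 16777216 (L (X 8 (A (A (L (R D 21600) 4294967295) m) (S M (L (A (L (R D 21568) 4294967295) m) N)))) N)) N) (S M (L (L (X (L (R D 0) 4294967295) (A (A (L (R D 21536) 4294967295) m) (S M (L (A (L (R D 1312) 4294967295) m) N)))) N) N))), 66, 1, 1, 1, 1⟩,
  ⟨fun A S X L P R M N m a b c d e f g h D => (A (L (X 33554432 (A (L (R D 1632) 4294967295) m)) N) (S M (L (A (L (X 33554432 (A (L (R D 21856) 4294967295) m)) N) (L (X 1 (L (X (L (R D 0) 4294967295) (A (A (L (R D 1600) 4294967295) m) (A (L (R D 21824) 4294967295) m))) N)) N)) N))), 66, 1, 1, 1, 1⟩,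
  ⟨fun A S X L P R M N m a b c d e f g h D => (A (A (L (R D 1664) 4294967295) m) (S M (L (A (L (R D 1632) 4294967295) m) N))), 34, 1, 1, 1, 1⟩,
  ⟨fun A S X L P R M N m a b c d e f g h D => (A (A (L (R D 21888) 4294967295) m) (S M (L (A (L (R D 21856) 4294967295) m) N))), 34, 1, 1, 1, 1⟩,
  ⟨fun A S X L P R M N m a b c d e f g h D => (A (L (X 16777216 (L (X 8 (A (A (L (R D 1664) 4294967295) m) (S M (L (A (L (R D 1632) 4294967295) m) N)))) N)) N) (S M (L (L (X (L (R D 0) 4294967295) (A (A (L (R D 21824) 4294967295) m) (S M (L (A (L (R D 1600) 4294967295) m) N)))) N) N))), 66, 1, 1, 1, 1⟩,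
  ⟨fun A S X L P R M N m a b c d e f g h D => (A (L (X 16777216 (L (X 8 (A (A (L (R D 21888) 4294967295) m) (S M (L (A (L (R D 21856) 4294967295) m) N)))) N)) N) (S M (L (L (X (L (R D 0) 4294967295) (A (A (L (R D 21824) 4294967295) m) (S M (L (A (L (R D 1600) 4294967295) m) N)))) N) N))), 66, 1, 1, 1, 1⟩,
  ⟨fun A S X L P R M N m a b c d e f g h D => (A (L (X 33554432 (A (L (R D 1440) 4294967295) m)) N) (S M (L (A (L (X 33554432 (A (L (R D 21664) 4294967295) m)) N) (L (X 1 (L (X (L (R D 0) 4294967295) (A (A (L (R D 1408) 4294967295) m) (A (L (R D 21632) 4294967295) m))) N)) N)) N))), 66, 1, 1, 1, 1⟩,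
  ⟨fun A S X L P R M N m a b c d e f g h D => (A (A (L (R D 1472) 4294967295) m) (S M (L (A (L (R D 1440) 4294967295) m) N))), 34, 1, 1, 1, 1⟩,
  ⟨fun A S X L P R M N m a b c d e f g h D => (A (A (L (R D 21696) 4294967295) m) (S M (L (A (L (R D 21664) 4294967295) m) N))), 34, 1, 1, 1, 1⟩,
  ⟨fun A S X L P R M N m a b c d e f g h D => (A (L (X 16777216 (L (X 8 (A (A (L (R D 1472) 4294967295) m) (S M (L (A (L (R D 1440) 4294967295) m) N)))) N)) N) (S M (L (L (X (L (R D 0) 4294967295) (A (A (L (R D 21632) 4294967295) m) (S M (L (A (L (R D 1408) 4294967295) m) N)))) N) N))), 66, 1, 1, 1, 1⟩,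
  ⟨fun A S X L P R M N m a b c d e f g h D => (A (L (X 16777216 (L (X 8 (A (A (L (R D 21696) 4294967295) m) (S M (L (A (L (R D 21664) 4294967295) m) N)))) N)) N) (S M (L (L (X (L (R D 0) 4294967295) (A (A (L (R D 21632) 4294967295) m) (S M (L (A (L (R D 1408) 4294967295) m) N)))) N) N))), 66, 1, 1, 1, 1⟩,
  ⟨fun A S X L P R M N m a b c d e f g h D => (A (L (X 33554432 (A (L (R D 1728) 4294967295) m)) N) (S M (L (A (L (X 33554432 (A (L (R D 21952) 4294967295) m)) N) (L (X 1 (L (X (L (R D 0) 4294967295) (A (A (L (R D 1696) 4294967295) m) (A (L (R D 21920) 4294967295) m))) N)) N)) N))), 66, 1, 1, 1, 1⟩,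
  ⟨fun A S X L P R M N m a b c d e f g h D => (A (A (L (R D 1760) 4294967295) m) (S M (L (A (L (R D 1728) 4294967295) m) N))), 34, 1, 1, 1, 1⟩,
  ⟨fun A S X L P R M N m a b c d e f g h D => (A (A (L (R D 21984) 4294967295) m) (S M (L (A (L (R D 21952) 4294967295) m) N))), 34, 1, 1, 1, 1⟩,
  ⟨fun A S X L P R M N m a b c d e f g h D => (A (L (X 16777216 (L (X 8 (A (A (L (R D 1760) 4294967295) m) (S M (L (A (L (R D 1728) 4294967295) m) N)))) N)) N) (S M (L (L (X (L (R D 0) 4294967295) (A (A (L (R D 21920) 4294967295) m) (S M (L (A (L (R D 1696) 4294967295) m) N)))) N) N))), 66, 1, 1, 1, 1⟩,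
  ⟨fun A S X L P R M N m a b c d e f g h D => (A (L (X 16777216 (L (X 8 (A (A (L (R D 21984) 4294967295) m) (S M (L (A (L (R D 21952) 4294967295) m) N)))) N)) N) (S M (L (L (X (L (R D 0) 4294967295) (A (A (L (R D 21920) 4294967295) m) (S M (L (A (L (R D 1696) 4294967295) m) N)))) N) N))), 66, 1, 1, 1, 1⟩,
  ⟨fun A S X L P R M N m a b c d e f g h D => (A (A (L (X (L (X 4294967296 (A (A (L (R D 1216) 4294967295) (X c (L (R D 21440) 4294967295))) (S M (L (X 2147483648 (A 1 (X c 1))) N)))) N) (P f 2)) N) (L (X (L (X 5462 b) N) (A (L (X (L (X 65536 (A (A (L (R D 1312) 4294967295) (X c (L (R D 21536) 4294967295))) (S M (L (X 2147483648 (A 1 (X c 1))) N)))) N) f) N) (L (X (L (X 5462 b) N) (A (A (L (R D 1408) 4294967295) (X c (L (R D 21632) 4294967295))) (S M (L (X 2147483648 (A 1 (X c 1))) N)))) N))) N)) (S M (L (A (L (X (L (X 4294967296 (A (L (R D 32) 4294967295) (X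 c (L (R D 20256) 4294967295)))) N) (P f 2)) N) (L (X (L (X 5462 b) N) (A (L (X (L (X 65536 (A (L (R D 64) 4294967295) (X c (L (R D 20288) 4294967295)))) N) f) N) (L (X (L (X 5462 b) N) (A (L (R D 96) 4294967295) (X c (L (R D 20320) 4294967295)))) N))) N)) N))), 69, 1, 3, 2, 1⟩,
  ⟨fun A S X L P R M N m a b c d e f g h D => (A (L (X (L (X (L (X 4722366482869645213696 (A (L (X (L (X 4294967296 (A (A (L (R D 1504) 4294967295) (X c (L (R D 21728) 4294967295))) (S M (L (X 2147483648 (A 1 (X c 1))) N)))) N) (P f 2)) N) (L (X (L (X 5462 b) N) (A (L (X (L (X 65536 (A (A (L (R D 1600) 4294967295) (X c (L (R D 21824) 4294967295))) (S M (L (X 2147483648 (A 1 (X c 1))) N)))) N) f) N) (L (X (L (X 5462 b) N) (A (A (L (R D 1696) 4294967295) (X c (L (R D 21920) 4294967295))) (S M (L (X 2147483648 (A 1 (X c 1))) N)))) N))) N))) N) (P f 3)) N) g) N) (S M (L (L (X (A (L (X (L (X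 4294967296 (A (L (R D 32) 4294967295) (X c (L (R D 20256) 4294967295)))) N) (P f 2)) N) (L (X (L (X 5462 b) N) (A (L (X (L (X 65536 (A (L (R D 64) 4294967295) (X c (L (R D 20288) 4294967295)))) N) f) N) (L (X (L (X 5462 b) N) (A (L (R D 96) 4294967295) (X c (L (R D 20320) 4294967295)))) N))) N)) (A (L (X (L (X (L (X 4722366482869645213696 1) N) (P f 3)) N) g) N) (L (X (L (X 5462 b) N) (A (L (X (L (X 4294967296 (A (A (L (R D 1568) 4294967295) (X c (L (R D 21792) 4294967295))) (S M (L (X 2147483648 (A 1 (X c 1))) N)))) N) (P f 2)) N) (L (X (L (X 5462 b) N) (A (L (X (L (X 65536 (A (A (L (R D 1664) 4294967295) (X c (L (R D 21888) 4294967295))) (S M (L (X 2147483648 (A 1 (X c 1))) N)))) N) f) N) (L (X (L (X 5462 b) N) (A (A (L (R D 1760) 4294967295) (X c (L (R D 21984) 4294967295))) (S M (L (X 2147483648 (A 1 (X c 1))) N)))) N))) N))) N))) N) N))), 147, 1, 6, 3, 1⟩,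
  ⟨fun A S X L P R M N m a b c d e f g h D => (A (L (X (L (X 4294967296 (A (A (L (R D 1568) 4294967295) (X c (L (R D 21792) 4294967295))) (S M (L (X 2147483648 (A 1 (X c 1))) N)))) N) (P f 2)) N) (L (X (L (X 5462 b) N) (A (L (X (L (X 65536 (A (A (L (R D 1664) 4294967295) (X c (L (R D 21888) 4294967295))) (S M (L (X 2147483648 (A 1 (X c 1))) N)))) N) f) N) (L (X (L (X 5462 b) N) (A (A (L (R D 1760) 4294967295) (X c (L (R D 21984) 4294967295))) (S M (L (X 2147483648 (A 1 (X c 1))) N)))) N))) N)), 68, 1, 3, 2, 1⟩,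
  ⟨fun A S X L P R M N m a b c d e f g h D => (A (L (X (L (X 281474976710656 (A (L (R D 2240) 4294967295) (X c (L (R D 22464) 4294967295)))) N) (P f 3)) N) (S M (L (L (X (L (X 5462 b) N) (A (L (X (L (X 4294967296 (A (A (L (R D 1280) 4294967295) (X c (L (R D 21504) 4294967295))) (S M (L (X 2147483648 (A 1 (X c 1))) N)))) N) (P f 2)) N) (L (X (L (X 5462 b) N) (A (L (X (L (X 65536 (A (A (L (R D 1376) 4294967295) (X c (L (R D 21600) 4294967295))) (S M (L (X 2147483648 (A 1 (X c 1))) N)))) N) f) N) (L (X (L (X 5462 b) N) (A (A (L (R D 1472) 4294967295) (X c (L (R D 21696) 4294967295))) (S M (L (X 2147483648 (A 1 (X c 1))) N)))) N))) N))) N) N))), 85, 1, 4, 2, 1⟩,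
  ⟨fun A S X L P R M N m a b c d e f g h D => (A (L (X (L (X (L (X 79228162514264337593543950336 (A (L (X (L (X 4294967296 (A (L (R D 1792) 4294967295) (X c (L (R D 22016) 4294967295)))) N) (P f 2)) N) (L (X (L (X 5462 b) N) (A (L (X (L (X 65536 (A (L (R D 1824) 4294967295) (X c (L (R D 22048) 4294967295)))) N) f) N) (L (X (L (X 5462 b) N) (A (L (R D 1856) 4294967295) (X c (L (R D 22080) 4294967295)))) N))) N))) N) (P f 3)) N) (P g 2)) N) (S M (L (A (L (X (L (X (L (X 79228162514264337593543950336 (A (L (X (L (X 4294967296 (A (A (L (R D 1280) 4294967295) (X c (L (R D 21504) 4294967295))) (S M (L (X 2147483648 (A 1 (X c 1))) N)))) N) (P f 2)) N) (L (X (L (X 5462 b) N) (A (L (X (L (X 65536 (A (A (L (R D 1376) 4294967295) (X c (L (R D 21600) 4294967295))) (S M (L (X 2147483648 (A 1 (X c 1))) N)))) N) f) N) (L (X (L (X 5462 b) N) (A (A (L (R D 1472) 4294967295) (X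 c (L (R D 21696) 4294967295))) (S M (L (X 2147483648 (A 1 (X c 1))) N)))) N))) N))) N) (P f 3)) N) (P g 2)) N) (L (X (A (L (R D 2176) 4294967295) (X c (L (R D 22400) 4294967295))) (L (X (L (X 5462 b) N) (L (X (A (L (X (L (X 4294967296 (A (A (L (R D 1280) 4294967295) (X c (L (R D 21504) 4294967295))) (S M (L (X 2147483648 (A 1 (X c 1))) N)))) N) (P f 2)) N) (L (X (L (X 5462 b) N) (A (L (X (L (X 65536 (A (A (L (R D 1376) 4294967295) (X c (L (R D 21600) 4294967295))) (S M (L (X 2147483648 (A 1 (X c 1))) N)))) N) f) N) (L (X (L (X 5462 b) N) (A (A (L (R D 1472) 4294967295) (X c (L (R D 21696) 4294967295))) (S M (L (X 2147483648 (A 1 (X c 1))) N)))) N))) N)) (A (L (X (L (X 4294967296 (A (A (L (R D 1280) 4294967295) (X c (L (R D 21504) 4294967295))) (S M (L (X 2147483648 (A 1 (X c 1))) N)))) N) (P f 2)) N) (L (X (L (X 5462 b) N) (A (L (X (L (X 65536 (A (A (L (R D 1376)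 4294967295) (X c (L (R D 21600) 4294967295))) (S M (L (X 2147483648 (A 1 (X c 1))) N)))) N) f) N) (L (X (L (X 5462 b) N) (A (A (L (R D 1472) 4294967295) (X c (L (R D 21696) 4294967295))) (S M (L (X 2147483648 (A 1 (X c 1))) N)))) N))) N))) N)) N)) N)) N))), 180, 1, 6, 4, 1⟩,
  ⟨fun A S X L P R M N m a b c d e f g h D => (A (A (L (X (L (X 4294967296 (A (L (R D 1888) 4294967295) (X c (L (R D 22112) 4294967295)))) N) (P f 2)) N) (L (X (L (X 5462 b) N) (A (L (X (L (X 65536 (A (L (R D 1920) 4294967295) (X c (L (R D 22144) 4294967295)))) N) f) N) (L (X (L (X 5462 b) N) (A (L (R D 1952) 4294967295) (X c (L (R D 22176) 4294967295)))) N))) N)) (S M (L (A (L (X (L (X 4294967296 (A (A (L (R D 1568) 4294967295) (X c (L (R D 21792) 4294967295))) (S M (L (X 2147483648 (A 1 (X c 1))) N)))) N) (P f 2)) N) (L (X (L (X 5462 b) N) (A (L (X (L (X 65536 (A (A (L (R D 1664) 4294967295)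 (X c (L (R D 21888) 4294967295))) (S M (L (X 2147483648 (A 1 (X c 1))) N)))) N) f) N) (L (X (L (X 5462 b) N) (A (A (L (R D 1760) 4294967295) (X c (L (R D 21984) 4294967295))) (S M (L (X 2147483648 (A 1 (X c 1))) N)))) N))) N)) N))), 69, 1, 3, 2, 1⟩,
  ⟨fun A S X L P R M N m a b c d e f g h D => (A (A (L (R D 2048) 4294967295) (X c (L (R D 22272) 4294967295))) (S M (L (L (X (L (X 16777216 1) N) g) N) N))), 34, 1, 1, 2, 1⟩,
  ⟨fun A S X L P R M N m a b c d e f g h D => (A (A (L (R D 2080) 4294967295) (X c (L (R D 22304) 4294967295))) (S M (L (L (X (L (X 16777216 1) N) g) N) N))), 34, 1, 1, 2, 1⟩,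
  ⟨fun A S X L P R M N m a b c d e f g h D => (A (L (R D 2112) 4294967295) (X c (L (R D 22336) 4294967295))), 34, 1, 1, 2, 1⟩,
  ⟨fun A S X L P R M N m a b c d e f g h D => (A (L (R D 2144) 4294967295) (X c (L (R D 22368) 4294967295))), 34, 1, 1, 2, 1⟩,
  ⟨fun A S X L P R M N m a b c d e f g h D => (A (L (R D 2176) 4294967295) (X c (L (R D 22400) 4294967295))), 34, 1, 1, 2, 1⟩,
  ⟨fun A S X L P R M N m a b c d e f g h D => (A (L (R D 2240) 4294967295) (X c (L (R D 22464) 4294967295))), 34, 1, 1, 2, 1⟩,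
  ⟨fun A S X L P R M N m a b c d e f g h D => (A (L (R D 1984) 4294967295) (X c (L (R D 22208) 4294967295))), 34, 1, 1, 2, 1⟩]

theorem p2 : Pce Pool.Agent.RZ.RCO.SBr.sh 1264 150 2 (t2, f2) :=
  ⟨by decide +kernel, rfl, by decide +kernel⟩

end Pool.Agent.RZ.RCO.SBrL
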