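import Pool.Agent.RZ.RCO.EdG
import Pool.Agent.RZ.RCO.EdM
import Pool.Agent.RZ.RCO.SK10

/-! Generated: the end of the big cell 10, pairs (MP_73ccd0_lc). -/

set_option autoImplicit false
set_option maxRecDepth 100000

open Pool.Agent.RZ.RCO

namespace Pool.Agent.RZ.RCO.EC10

def qA : ℕ → ℤ := fun l => match l with
  | 0 => 0
  | 1 => 3292528
  | 2 => 6585056
  | 3 => 9877600
  | 4 => 13170128
  | _ => 0

def q : Ec0 := ⟨4, 13170128, 838896, qA, 0⟩

def djH : ℕ → ℕ := fun l => match l with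
  | 0 => 838896
  | 1 => 613408
  | 2 => 613408
  | 3 => 613408
  | 4 => 613408
  | 5 => 548755
  | 6 => 548754
  | 7 => 548755
  | 8 => 548755
  | 9 => 548754
  | 10 => 548755
  | 11 => 548757
  | 12 => 548758
  | 13 => 548757
  | 14 => 548757
  | 15 => 548758
  | 16 => 548757
  | 17 => 548755
  | 18 => 548754
  | 19 => 548755
  | 20 => 548755
  | 21 => 548754
  | 22 => 548755
  | _ => 0

def djR : ℕ → ℕ := fun l => match l with
  | 0 => 16777216
  | 1 => 16777216
  | 2 => 16777216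
  | 3 => 16777216
  | 4 => 16777216
  | 5 => 16777216
  | 6 => 16777216
  | 7 => 16777216
  | 8 => 16840356
  | 9 => 16980869
  | 10 => 17100430
  | 11 => 17202065
  | 12 => 17288618
  | 13 => 17363128
  | 14 => 17428577
  | 15 => 17487740
  | 16 => 17543031
  | 17 => 17598007
  | 18 => 17654215
  | 19 => 17710802
  | 20 => 17768091
  | 21 => 17826218
  | 22 => 17883796
  | _ => 0

def djW : ℕ → ℕ := fun l => match l with
  | 0 => 19432364
  | 1 => 19226025
  | 2 => 19080326
  | 3 => 18938671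
  | 4 => 18800808
  | 5 => 18666501
  | 6 => 18549181
  | 7 => 18434368
  | 8 => 18321910
  | 9 => 18211457
  | 10 => 18102424
  | 11 => 17994528
  | 12 => 17887791
  | 13 => 17782213
  | 14 => 17677774
  | 15 => 17574431
  | 16 => 17472123
  | 17 => 17370776
  | 18 => 17270297
  | 19 => 17170579
  | 20 => 17071513
  | 21 => 16972998
  | 22 => 16874928
  | _ => 0

def djK : ℕ → ℕ := fun l => match l with
  | 0 => 0
  | 1 => 5
  | 2 => 11
  | 3 => 17
  | 4 => 23
  | _ => 0

def dj : Dj := ⟨23, djH, djR, djW, 4, djK, 838896⟩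

def kK : ℕ → ℕ := fun l => match l with
  | 0 => 0
  | 1 => 5
  | 2 => 11
  | 3 => 17
  | 4 => 23
  | _ => 0

def tT : ℕ → ℤ := fun l => match l with
  | 0 => 0
  | 1 => 838896
  | 2 => 1452304
  | 3 => 2065712
  | 4 => 2679120
  | 5 => 3292528
  | 6 => 3841283
  | 7 => 4390037
  | 8 => 4938792
  | 9 => 5487547
  | 10 => 6036301
  | 11 => 6585056
  | 12 => 7133813
  | 13 => 7682571
  | 14 => 8231328
  | 15 => 8780085
  | 16 => 9328843
  | 17 => 9877600
  | 18 => 10426355
  | 19 => 10975109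
  | 20 => 11523864
  | 21 => 12072619
  | 22 => 12621373
  | 23 => 13170128
  | _ => 0

theorem qo : q.ok = true := by decide +kernel
theorem djo : dj.ok = true := by decide +kernel
theorem djt : dj.tie 2048 SC10.c.D 744 0 2 3 4 5 3 = true := by decide +kernel
theorem djr : dj.rel q = true := by decide +kernel
theorem rel : q.Rel (RTab.tabq 1) 10 := Ec0.relB_of (by decide +kernel)

def clo : ℕ → (ℕ → ℤ) := fun l => match l with
  | 0 => v6 2533626 10219559 8898446 (-1376947) (-1132850) 4138894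
  | 1 => v6 871970 4420796 3749686 (-479033) 141222 1394547
  | 2 => v6 227518 1667070 1427210 (-86574) 361553 389461
  | 3 => v6 27481 378317 335354 (-5724) 177704 49663
  | _ => fun _ => 0

def chi : ℕ → (ℕ → ℤ) := fun l => match l with
  | 0 => v6 871970 4420796 3749686 (-457361) 257949 1394547
  | 1 => v6 227518 1667070 1427210 (-54202) 405807 389461
  | 2 => v6 27481 378317 335354 11928 215401 49663
  | 3 => v6 0 0 0 3646 0 0
  | _ => fun _ => 0

def clo1 : ℕ → ℤ := v6 2110257 8742105 7586605 (-1142647) (-778491) 3439668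

def cJ0 : ℕ → ℤ := fun l => match l with
  | 0 => 0
  | 1 => 11130
  | 2 => 74225
  | 3 => 197930
  | 4 => 793613
  | _ => 0

def cJ1 : ℕ → ℤ := fun l => match l with
  | 0 => 0
  | 1 => 3423
  | 2 => 52237
  | 3 => 150854
  | 4 => 554175
  | _ => 0

def cF0 : ℕ → ℤ := fun l => match l with
  | 0 => 0
  | 1 => 48094
  | 2 => 144925
  | 3 => 296210
  | 4 => 914458
  | _ => 0

def cF1 : ℕ → ℤ := fun l => match l with
  | 0 => 0
  | 1 => 32914
  | 2 => 117728
  | 3 => 245774
  | 4 => 673175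
  | _ => 0

def cHm0 : ℕ → ℤ := fun l => match l with
  | 0 => 13497791
  | 1 => 10249396
  | 2 => 6924348
  | 3 => 3509695
  | _ => 0

def cHm1 : ℕ → ℤ := fun l => match l with
  | 0 => 12658895
  | 1 => 10249396
  | 2 => 6924348
  | 3 => 3509695
  | _ => 0

def cHp : ℕ → ℤ := fun l => match l with
  | 0 => 10205263
  | 1 => 6893437
  | 2 => 3481512
  | 3 => 0
  | _ => 0

def ctg : ℕ → ℕ → ℤ := fun l => match l with
  | 0 => fun i => match i with | 0 => 22 | 1 => 23 | 2 => 22 | 3 => 17 | 4 => 81 | 5 => 81 | 6 => 81 | 7 => 81 | _ => 0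
  | 1 => fun i => match i with | 0 => 22 | 1 => 17 | 2 => 0 | 3 => 6 | 4 => 63 | 5 => 72 | 6 => 45 | 7 => 48 | _ => 0
  | 2 => fun i => match i with | 0 => 0 | 1 => 6 | 2 => 0 | 3 => 0 | 4 => 17 | 5 => 16 | 6 => 0 | 7 => 8 | _ => 0
  | 3 => fun i => match i with | 0 => 0 | 1 => 0 | 2 => 0 | 3 => 0 | 4 => 0 | 5 => 0 | 6 => 0 | 7 => 0 | _ => 0
  | _ => fun _ => 0

def cML : ℕ → E4 := fun l => match l with
  | 0 => ⟨375115297, 316134725, 432789584, 360218223⟩
  | 1 => ⟨413273497, 335375481, 470414540, 379404265⟩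
  | 2 => ⟨524866751, 419331996, 581796772, 463264334⟩
  | 3 => ⟨715869000, 574451500, 772786250, 618373259⟩
  | _ => ⟨0, 0, 0, 0⟩

def cPL : ℕ → E4 := fun l => match l with
  | 0 => ⟨413273497, 335375481, 470414540, 379404265⟩
  | 1 => ⟨524866751, 419331996, 581796772, 463264334⟩
  | 2 => ⟨715869000, 574451500, 772786250, 618373259⟩
  | 3 => ⟨1013193750, 818517000, 1070111459, 862439167⟩
  | _ => ⟨0, 0, 0, 0⟩

def cMF : ℕ → E4 := fun l => match l with
  | 0 => ⟨1335978498, 1159632249, 1522556122, 1307191516⟩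
  | 1 => ⟨1132650046, 1016210380, 1262623685, 1125083732⟩
  | 2 => ⟨1082703627, 940456077, 1171737184, 1012899706⟩
  | 3 => ⟨1167410350, 981798100, 1233068425, 1033431784⟩
  | _ => ⟨0, 0, 0, 0⟩

def cPF : ℕ → E4 := fun l => match l with
  | 0 => ⟨1052552734, 948273563, 1186563483, 1056659352⟩
  | 1 => ⟨925476109, 808893462, 1029740120, 891063013⟩
  | 2 => ⟨906988609, 763762125, 985048805, 825370885⟩
  | 3 => ⟨1021463950, 826309350, 1083969384, 874790392⟩
  | _ => ⟨0, 0, 0, 0⟩

def cu : EhN := ⟨kK, tT, clo, chi, clo1, cJ0, cJ1, cF0, cF1, cHm0, cHm1, cHp, ctg, cML, cPL, cMF, cPF⟩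

def ctn : ℕ → ℤ := fun l => match l with
  | 0 => 0
  | 1 => 0
  | 2 => 0
  | 3 => 0
  | 4 => 0
  | 5 => 76
  | _ => 0

noncomputable def ch : Ehk := SC.F.xc SC10.c RecK.rk SK10.e cu

theorem ccd : ch.cd.ck q = true := by decide +kernel
theorem cLS : (ch.L false (RTab.rr RT.kCL 10)).ckS q = true := by decide +kernel
theorem cLT : (ch.L false (RTab.rr RT.kCL 10)).ckT q = true := by decide +kernel
theorem cFS : (ch.F false (RTab.rr RT.kCF 10)).ckS q = true := by decide +kernel
theorem cFT : (ch.F false (RTab.rr RT.kCF 10)).ckT q = true := by decide +kernel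
theorem cj : ch.ckJ q.n dj 14396534 17432469 = true := by decide +kernel
theorem cms : ch.msB q.n = true := by decide +kernel
theorem cnl : ch.nck false q 14396534 17432469 2973681 ctn = true := by decide +kernel

/-- **the checks of the numbers** -/
theorem cH : HCel ch q false dj 14396534 17432469 (RTab.rr RT.kCL 10) (RTab.rr RT.kCF 10) 10 :=
  ⟨⟨qo, ccd, rfl, rfl, rfl, cLS, cLT, cFS, cFT⟩, Ehk.msB_of cms, cj, fun h => absurd h (by decide)⟩

def rlo : ℕ → (ℕ → ℤ) := fun l => match l with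
  | 0 => v6 3508540 6565247 5495187 175995 (-1823391) 3673215
  | 1 => v6 1116468 3399134 2880759 (-36202) (-159851) 1417906
  | 2 => v6 275434 1474334 1267798 (-28405) 314823 413074
  | 3 => v6 31279 366246 325490 (-4007) 175500 52226
  | _ => fun _ => 0

def rhi : ℕ → (ℕ → ℤ) := fun l => match l with
  | 0 => v6 1116468 3399134 2880759 (-36202) (-37388) 1417906
  | 1 => v6 275434 1474334 1267798 (-30168) 365959 413074
  | 2 => v6 31279 366246 325490 (-4192) 228023 52226
  | 3 => v6 0 0 0 1948 0 0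
  | _ => fun _ => 0

def rlo1 : ℕ → ℤ := v6 2899070 5758561 4829063 121930 (-1368339) 3098590

def rJ0 : ℕ → ℤ := fun l => match l with
  | 0 => 0
  | 1 => 11130
  | 2 => 74225
  | 3 => 197930
  | 4 => 793613
  | _ => 0

def rJ1 : ℕ → ℤ := fun l => match l with
  | 0 => 0
  | 1 => 3423
  | 2 => 52237
  | 3 => 150854
  | 4 => 554175
  | _ => 0

def rF0 : ℕ → ℤ := fun l => match l with
  | 0 => 0
  | 1 => 48094
  | 2 => 144925
  | 3 => 296210
  | 4 => 914458
  | _ => 0

def rF1 : ℕ → ℤ := fun l => match l with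
  | 0 => 0
  | 1 => 32914
  | 2 => 117728
  | 3 => 245774
  | 4 => 673175
  | _ => 0

def rHm0 : ℕ → ℤ := fun l => match l with
  | 0 => 13497791
  | 1 => 10249396
  | 2 => 6924348
  | 3 => 3509695
  | _ => 0

def rHm1 : ℕ → ℤ := fun l => match l with
  | 0 => 12658895
  | 1 => 10249396
  | 2 => 6924348
  | 3 => 3509695
  | _ => 0

def rHp : ℕ → ℤ := fun l => match l with
  | 0 => 10205263
  | 1 => 6893437
  | 2 => 3481512
  | 3 => 0
  | _ => 0

def rtg : ℕ → ℕ → ℤ := fun l => match l with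
  | 0 => fun i => match i with | 0 => 0 | 1 => 0 | 2 => 0 | 3 => 0 | 4 => 81 | 5 => 81 | 6 => 54 | 7 => 56 | _ => 0
  | 1 => fun i => match i with | 0 => 0 | 1 => 0 | 2 => 0 | 3 => 0 | 4 => 33 | 5 => 40 | 6 => 10 | 7 => 8 | _ => 0
  | 2 => fun i => match i with | 0 => 0 | 1 => 0 | 2 => 0 | 3 => 0 | 4 => 0 | 5 => 0 | 6 => 0 | 7 => 0 | _ => 0
  | 3 => fun i => match i with | 0 => 0 | 1 => 0 | 2 => 0 | 3 => 0 | 4 => 0 | 5 => 0 | 6 => 0 | 7 => 0 | _ => 0
  | _ => fun _ => 0

def rML : ℕ → E4 := fun l => match l with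
  | 0 => ⟨417795300, 346193350, 435084550, 359545525⟩
  | 1 => ⟨452295650, 363870950, 472540150, 378744992⟩
  | 2 => ⟨553896150, 440809950, 582016684, 461565592⟩
  | 3 => ⟨731233900, 585719400, 771800809, 616406517⟩
  | _ => ⟨0, 0, 0, 0⟩

def rPL : ℕ → E4 := fun l => match l with
  | 0 => ⟨452295650, 363870950, 472540150, 378744992⟩
  | 1 => ⟨553896150, 440809950, 582016684, 461565592⟩
  | 2 => ⟨731233900, 585719400, 771800809, 616406517⟩
  | 3 => ⟨1013193750, 818517000, 1070111459, 862439167⟩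
  | _ => ⟨0, 0, 0, 0⟩

def rMF : ℕ → E4 := fun l => match l with
  | 0 => ⟨1417480136, 1221505053, 1507604000, 1295629053⟩
  | 1 => ⟨1192997571, 1064479481, 1254417702, 1118199271⟩
  | 2 => ⟨1119349600, 969076150, 1174140150, 1013559667⟩
  | 3 => ⟨1170614700, 984207150, 1230929259, 1031436625⟩
  | _ => ⟨0, 0, 0, 0⟩

def rPF : ℕ → E4 := fun l => match l with
  | 0 => ⟨1116828488, 997157046, 1176089358, 1048561288⟩
  | 1 => ⟨984058908, 855543229, 1028984117, 891990097⟩
  | 2 => ⟨942564300, 791128900, 988120784, 826378350⟩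
  | 3 => ⟨1024478400, 828528500, 1081740909, 872705925⟩
  | _ => ⟨0, 0, 0, 0⟩

def ru : EhN := ⟨kK, tT, rlo, rhi, rlo1, rJ0, rJ1, rF0, rF1, rHm0, rHm1, rHp, rtg, rML, rPL, rMF, rPF⟩

def rtn : ℕ → ℤ := fun l => match l with
  | 0 => 0
  | 1 => 0
  | 2 => 0
  | 3 => 0
  | 4 => 0
  | 5 => 76
  | _ => 0

noncomputable def rh : Ehk := SC.F.xr SC10.c RecK.rk SK10.e ru

theorem rcd : rh.cd.ck q = true := by decide +kernel
theorem rLS : (rh.L false (RTab.rr RT.kRL 10)).ckS q = true := by decide +kernel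
theorem rLT : (rh.L false (RTab.rr RT.kRL 10)).ckT q = true := by decide +kernel
theorem rFS : (rh.F false (RTab.rr RT.kRF 10)).ckS q = true := by decide +kernel
theorem rFT : (rh.F false (RTab.rr RT.kRF 10)).ckT q = true := by decide +kernel
theorem rj : rh.ckJ q.n dj 14396534 17432469 = true := by decide +kernel
theorem rms : rh.msB q.n = true := by decide +kernel
theorem rnl : rh.nck false q 14396534 17432469 2973681 rtn = true := by decide +kernel

/-- **the checks of the numbers** -/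
theorem rH : HCel rh q false dj 14396534 17432469 (RTab.rr RT.kRL 10) (RTab.rr RT.kRF 10) 10 :=
  ⟨⟨qo, rcd, rfl, rfl, rfl, rLS, rLT, rFS, rFT⟩, Ehk.msB_of rms, rj, fun h => absurd h (by decide)⟩

/-- **the pairs** -/
theorem pc : PCel ch rh q dj 14396534 17432469 RTab.rr 10 := ⟨cH, rH, rfl, rfl⟩

end Pool.Agent.RZ.RCO.EC10
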