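import Pool.Agent.RZ.RCO.EdG
import Pool.Agent.RZ.RCO.EdM
import Pool.Agent.RZ.RCO.SK11

/-! Generated: the end of the big cell 11, pairs (MP_73ccd0_lc). -/

set_option autoImplicit false
set_option maxRecDepth 100000

open Pool.Agent.RZ.RCO

namespace Pool.Agent.RZ.RCO.EC11

def qA : ℕ → ℤ := fun l => match l with
  | 0 => 0
  | 1 => 3460304
  | 2 => 6920608
  | 3 => 10380912
  | 4 => 13841216
  | _ => 0

def q : Ec0 := ⟨4, 13841216, 671120, qA, 0⟩

def djH : ℕ → ℕ := fun l => match l with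
  | 0 => 671120
  | 1 => 557837
  | 2 => 557837
  | 3 => 557836
  | 4 => 557837
  | 5 => 557837
  | 6 => 576717
  | 7 => 576718
  | 8 => 576717
  | 9 => 576717
  | 10 => 576718
  | 11 => 576717
  | 12 => 576717
  | 13 => 576718
  | 14 => 576717
  | 15 => 576717
  | 16 => 576718
  | 17 => 576717
  | 18 => 576717
  | 19 => 576718
  | 20 => 576717
  | 21 => 576717
  | 22 => 576718
  | 23 => 576717
  | _ => 0

def djR : ℕ → ℕ := fun l => match l with
  | 0 => 16777216
  | 1 => 16777216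
  | 2 => 16777216
  | 3 => 16777216
  | 4 => 16777216
  | 5 => 16777216
  | 6 => 16777216
  | 7 => 16777216
  | 8 => 16777216
  | 9 => 16914966
  | 10 => 17050686
  | 11 => 17164852
  | 12 => 17261152
  | 13 => 17343010
  | 14 => 17413937
  | 15 => 17477237
  | 16 => 17535814
  | 17 => 17593375
  | 18 => 17652436
  | 19 => 17711890
  | 20 => 17772127
  | 21 => 17833344
  | 22 => 17893811
  | 23 => 17952354
  | _ => 0

def djW : ℕ → ℕ := fun l => match l with
  | 0 => 19615374
  | 1 => 19443649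
  | 2 => 19305241
  | 3 => 19170520
  | 4 => 19039280
  | 5 => 18911327
  | 6 => 18786473
  | 7 => 18660463
  | 8 => 18537388
  | 9 => 18417065
  | 10 => 18298841
  | 11 => 18182105
  | 12 => 18066819
  | 13 => 17952992
  | 14 => 17840605
  | 15 => 17729615
  | 16 => 17619953
  | 17 => 17511529
  | 18 => 17404236
  | 19 => 17297947
  | 20 => 17192535
  | 21 => 17087875
  | 22 => 16983843
  | 23 => 16880322
  | _ => 0

def djK : ℕ → ℕ := fun l => match l with
  | 0 => 0
  | 1 => 6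
  | 2 => 12
  | 3 => 18
  | 4 => 24
  | _ => 0

def dj : Dj := ⟨24, djH, djR, djW, 4, djK, 671120⟩

def kK : ℕ → ℕ := fun l => match l with
  | 0 => 0
  | 1 => 6
  | 2 => 12
  | 3 => 18
  | 4 => 24
  | _ => 0

def tT : ℕ → ℤ := fun l => match l with
  | 0 => 0
  | 1 => 671120
  | 2 => 1228957
  | 3 => 1786794
  | 4 => 2344630
  | 5 => 2902467
  | 6 => 3460304
  | 7 => 4037021
  | 8 => 4613739
  | 9 => 5190456
  | 10 => 5767173
  | 11 => 6343891
  | 12 => 6920608
  | 13 => 7497325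
  | 14 => 8074043
  | 15 => 8650760
  | 16 => 9227477
  | 17 => 9804195
  | 18 => 10380912
  | 19 => 10957629
  | 20 => 11534347
  | 21 => 12111064
  | 22 => 12687781
  | 23 => 13264499
  | 24 => 13841216
  | _ => 0

theorem qo : q.ok = true := by decide +kernel
theorem djo : dj.ok = true := by decide +kernel
theorem djt : dj.tie 2048 SC11.c.D 744 0 2 3 4 5 3 = true := by decide +kernel
theorem djr : dj.rel q = true := by decide +kernel
theorem rel : q.Rel (RTab.tabq 1) 11 := Ec0.relB_of (by decide +kernel)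

def clo : ℕ → (ℕ → ℤ) := fun l => match l with
  | 0 => v6 3135800 12212166 10743143 (-1599663) (-1425846) 5226774
  | 1 => v6 1046933 5104613 4322721 (-534384) 127774 1682458
  | 2 => v6 269030 1886018 1603873 (-92892) 419120 462064
  | 3 => v6 32198 422762 372307 (-5858) 208796 58283
  | _ => fun _ => 0

def chi : ℕ → (ℕ → ℤ) := fun l => match l with
  | 0 => v6 1046933 5104613 4322721 (-508993) 281144 1682458
  | 1 => v6 269030 1886018 1603873 (-48041) 465834 462064
  | 2 => v6 32198 422762 372307 13497 255871 58283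
  | 3 => v6 0 0 0 3838 0 0
  | _ => fun _ => 0

def clo1 : ℕ → ℤ := v6 2730668 10833669 9497914 (-1388129) (-1094778) 4539361

def cJ0 : ℕ → ℤ := fun l => match l with
  | 0 => 0
  | 1 => 40365
  | 2 => 138315
  | 3 => 338766
  | 4 => 1141337
  | _ => 0

def cJ1 : ℕ → ℤ := fun l => match l with
  | 0 => 0
  | 1 => 27118
  | 2 => 114532
  | 3 => 260555
  | 4 => 906235
  | _ => 0

def cF0 : ℕ → ℤ := fun l => match l with
  | 0 => 0
  | 1 => 93075
  | 2 => 231983
  | 3 => 465466
  | 4 => 1294731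
  | _ => 0

def cF1 : ℕ → ℤ := fun l => match l with
  | 0 => 0
  | 1 => 82397
  | 2 => 213007
  | 3 => 393869
  | 4 => 1067703
  | _ => 0

def cHm0 : ℕ → ℤ := fun l => match l with
  | 0 => 14216343
  | 1 => 10808528
  | 2 => 7300440
  | 3 => 3702677
  | _ => 0

def cHm1 : ℕ → ℤ := fun l => match l with
  | 0 => 13545223
  | 1 => 10808528
  | 2 => 7300440
  | 3 => 3702677
  | _ => 0

def cHp : ℕ → ℤ := fun l => match l with
  | 0 => 10756039
  | 1 => 7268274
  | 2 => 3671803
  | 3 => 0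
  | _ => 0

def ctg : ℕ → ℕ → ℤ := fun l => match l with
  | 0 => fun i => match i with | 0 => 40 | 1 => 32 | 2 => 40 | 3 => 24 | 4 => 81 | 5 => 81 | 6 => 81 | 7 => 81 | _ => 0
  | 1 => fun i => match i with | 0 => 40 | 1 => 24 | 2 => 9 | 3 => 16 | 4 => 81 | 5 => 81 | 6 => 63 | 7 => 62 | _ => 0
  | 2 => fun i => match i with | 0 => 9 | 1 => 16 | 2 => 0 | 3 => 0 | 4 => 30 | 5 => 24 | 6 => 21 | 7 => 16 | _ => 0
  | 3 => fun i => match i with | 0 => 0 | 1 => 0 | 2 => 0 | 3 => 0 | 4 => 0 | 5 => 0 | 6 => 0 | 7 => 0 | _ => 0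
  | _ => fun _ => 0

def cML : ℕ → E4 := fun l => match l with
  | 0 => ⟨435103362, 379793892, 507886094, 437793184⟩
  | 1 => ⟨481816818, 407626726, 554492943, 465512386⟩
  | 2 => ⟨617337735, 516166985, 688141430, 573843561⟩
  | 3 => ⟨850730600, 712040000, 921422575, 769619992⟩
  | _ => ⟨0, 0, 0, 0⟩

def cPL : ℕ → E4 := fun l => match l with
  | 0 => ⟨481816818, 407626726, 554492943, 465512386⟩
  | 1 => ⟨617337735, 516166985, 688141430, 573843561⟩
  | 2 => ⟨850730600, 712040000, 921422575, 769619992⟩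
  | 3 => ⟨1216821600, 1025542400, 1287514134, 1083122884⟩
  | _ => ⟨0, 0, 0, 0⟩

def cMF : ℕ → E4 := fun l => match l with
  | 0 => ⟨1518069822, 1350407992, 1750772351, 1543515925⟩
  | 1 => ⟨1287938480, 1172815916, 1450305298, 1313214983⟩
  | 2 => ⟨1241857524, 1103879672, 1355200774, 1197574655⟩
  | 3 => ⟨1372817800, 1189264750, 1454482300, 1256676992⟩
  | _ => ⟨0, 0, 0, 0⟩

def cPF : ℕ → E4 := fun l => match l with
  | 0 => ⟨1197476598, 1092361941, 1365510587, 1233343680⟩
  | 1 => ⟨1061180793, 945816304, 1193468537, 1055792977⟩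
  | 2 => ⟨1058142512, 917856188, 1156432582, 999178056⟩
  | 3 => ⟨1227537300, 1036212700, 1305678784, 1100101925⟩
  | _ => ⟨0, 0, 0, 0⟩

def cu : EhN := ⟨kK, tT, clo, chi, clo1, cJ0, cJ1, cF0, cF1, cHm0, cHm1, cHp, ctg, cML, cPL, cMF, cPF⟩

def ctn : ℕ → ℤ := fun l => match l with
  | 0 => 0
  | 1 => 0
  | 2 => 0
  | 3 => 0
  | 4 => 0
  | 5 => 76
  | _ => 0

noncomputable def ch : Ehk := SC.F.xc SC11.c RecK.rk SK11.e cu

theorem ccd : ch.cd.ck q = true := by decide +kernel
theorem cLS : (ch.L false (RTab.rr RT.kCL 11)).ckS q = true := by decide +kernel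
theorem cLT : (ch.L false (RTab.rr RT.kCL 11)).ckT q = true := by decide +kernel
theorem cFS : (ch.F false (RTab.rr RT.kCF 11)).ckS q = true := by decide +kernel
theorem cFT : (ch.F false (RTab.rr RT.kCF 11)).ckT q = true := by decide +kernel
theorem cj : ch.ckJ q.n dj 16658828 20249920 = true := by decide +kernel
theorem cms : ch.msB q.n = true := by decide +kernel
theorem cnl : ch.nck false q 16658828 20249920 3508358 ctn = true := by decide +kernel

/-- **the checks of the numbers** -/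
theorem cH : HCel ch q false dj 16658828 20249920 (RTab.rr RT.kCL 11) (RTab.rr RT.kCF 11) 11 :=
  ⟨⟨qo, ccd, rfl, rfl, rfl, cLS, cLT, cFS, cFT⟩, Ehk.msB_of cms, cj, fun h => absurd h (by decide)⟩

def rlo : ℕ → (ℕ → ℤ) := fun l => match l with
  | 0 => v6 4427898 7512816 6259265 484250 (-2334303) 4437042
  | 1 => v6 1360168 3820374 3215066 30516 (-216988) 1682526
  | 2 => v6 329247 1646171 1404022 (-19815) 369496 488441
  | 3 => v6 36918 407809 360002 (-3726) 206307 61358
  | _ => fun _ => 0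

def rhi : ℕ → (ℕ → ℤ) := fun l => match l with
  | 0 => v6 1360168 3820374 3215066 30516 (-42292) 1682526
  | 1 => v6 329247 1646171 1404022 (-19868) 435458 488441
  | 2 => v6 36918 407809 360002 (-5363) 269498 61358
  | 3 => v6 0 0 0 1690 0 0
  | _ => fun _ => 0

def rlo1 : ℕ → ℤ := v6 3832918 6796674 5668848 396250 (-1889771) 3902809

def rJ0 : ℕ → ℤ := fun l => match l with
  | 0 => 0
  | 1 => 40365
  | 2 => 138315
  | 3 => 338766
  | 4 => 1141337
  | _ => 0

def rJ1 : ℕ → ℤ := fun l => match l with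
  | 0 => 0
  | 1 => 27118
  | 2 => 114532
  | 3 => 260555
  | 4 => 906235
  | _ => 0

def rF0 : ℕ → ℤ := fun l => match l with
  | 0 => 0
  | 1 => 93075
  | 2 => 231983
  | 3 => 465466
  | 4 => 1294731
  | _ => 0

def rF1 : ℕ → ℤ := fun l => match l with
  | 0 => 0
  | 1 => 82397
  | 2 => 213007
  | 3 => 393869
  | 4 => 1067703
  | _ => 0

def rHm0 : ℕ → ℤ := fun l => match l with
  | 0 => 14216343
  | 1 => 10808528
  | 2 => 7300440
  | 3 => 3702677
  | _ => 0

def rHm1 : ℕ → ℤ := fun l => match l with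
  | 0 => 13545223
  | 1 => 10808528
  | 2 => 7300440
  | 3 => 3702677
  | _ => 0

def rHp : ℕ → ℤ := fun l => match l with
  | 0 => 10756039
  | 1 => 7268274
  | 2 => 3671803
  | 3 => 0
  | _ => 0

def rtg : ℕ → ℕ → ℤ := fun l => match l with
  | 0 => fun i => match i with | 0 => 0 | 1 => 0 | 2 => 0 | 3 => 0 | 4 => 81 | 5 => 81 | 6 => 72 | 7 => 72 | _ => 0
  | 1 => fun i => match i with | 0 => 0 | 1 => 0 | 2 => 0 | 3 => 0 | 4 => 41 | 5 => 43 | 6 => 21 | 7 => 17 | _ => 0
  | 2 => fun i => match i with | 0 => 0 | 1 => 0 | 2 => 0 | 3 => 0 | 4 => 0 | 5 => 0 | 6 => 0 | 7 => 0 | _ => 0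
  | 3 => fun i => match i with | 0 => 0 | 1 => 0 | 2 => 0 | 3 => 0 | 4 => 0 | 5 => 0 | 6 => 0 | 7 => 0 | _ => 0
  | _ => fun _ => 0

def rML : ℕ → E4 := fun l => match l with
  | 0 => ⟨488892150, 420324300, 510364092, 437827117⟩
  | 1 => ⟨531425450, 446161700, 556469475, 465824042⟩
  | 2 => ⟨655248000, 545920150, 690011350, 573324575⟩
  | 3 => ⟨871755750, 728546800, 921955809, 768844642⟩
  | _ => ⟨0, 0, 0, 0⟩

def rPL : ℕ → E4 := fun l => match l with
  | 0 => ⟨531425450, 446161700, 556469475, 465824042⟩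
  | 1 => ⟨655248000, 545920150, 690011350, 573324575⟩
  | 2 => ⟨871755750, 728546800, 921955809, 768844642⟩
  | 3 => ⟨1216821600, 1025542400, 1287514134, 1083122884⟩
  | _ => ⟨0, 0, 0, 0⟩

def rMF : ℕ → E4 := fun l => match l with
  | 0 => ⟨1625856470, 1437265737, 1733382714, 1529208899⟩
  | 1 => ⟨1359955478, 1233697547, 1438151633, 1302626140⟩
  | 2 => ⟨1289825000, 1143019000, 1356483609, 1199280642⟩
  | 3 => ⟨1377416300, 1192959600, 1452010300, 1254337459⟩
  | _ => ⟨0, 0, 0, 0⟩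

def rPF : ℕ → E4 := fun l => match l with
  | 0 => ⟨1278802230, 1157965452, 1351447435, 1221722051⟩
  | 1 => ⟨1134055827, 1007861970, 1189031193, 1054183320⟩
  | 2 => ⟨1105450850, 956013800, 1161789775, 1001955759⟩
  | 3 => ⟨1231899800, 1039671550, 1303095392, 1097651000⟩
  | _ => ⟨0, 0, 0, 0⟩

def ru : EhN := ⟨kK, tT, rlo, rhi, rlo1, rJ0, rJ1, rF0, rF1, rHm0, rHm1, rHp, rtg, rML, rPL, rMF, rPF⟩

def rtn : ℕ → ℤ := fun l => match l with
  | 0 => 0
  | 1 => 0
  | 2 => 0
  | 3 => 0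
  | 4 => 0
  | 5 => 76
  | _ => 0

noncomputable def rh : Ehk := SC.F.xr SC11.c RecK.rk SK11.e ru

theorem rcd : rh.cd.ck q = true := by decide +kernel
theorem rLS : (rh.L false (RTab.rr RT.kRL 11)).ckS q = true := by decide +kernel
theorem rLT : (rh.L false (RTab.rr RT.kRL 11)).ckT q = true := by decide +kernel
theorem rFS : (rh.F false (RTab.rr RT.kRF 11)).ckS q = true := by decide +kernel
theorem rFT : (rh.F false (RTab.rr RT.kRF 11)).ckT q = true := by decide +kernel
theorem rj : rh.ckJ q.n dj 16658828 20249920 = true := by decide +kernel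
theorem rms : rh.msB q.n = true := by decide +kernel
theorem rnl : rh.nck false q 16658828 20249920 3508358 rtn = true := by decide +kernel

/-- **the checks of the numbers** -/
theorem rH : HCel rh q false dj 16658828 20249920 (RTab.rr RT.kRL 11) (RTab.rr RT.kRF 11) 11 :=
  ⟨⟨qo, rcd, rfl, rfl, rfl, rLS, rLT, rFS, rFT⟩, Ehk.msB_of rms, rj, fun h => absurd h (by decide)⟩

/-- **the pairs** -/
theorem pc : PCel ch rh q dj 16658828 20249920 RTab.rr 11 := ⟨cH, rH, rfl, rfl⟩

end Pool.Agent.RZ.RCO.EC11
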