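import Pool.Agent.RZ.RCO.SB12R_1
import Pool.Agent.RZ.RCO.SBrLL

/-! Tables (MP_73ccd0_lc). -/

set_option autoImplicit false
set_option maxRecDepth 100000

open Pool.Agent.RZ.RCO Pool.Agent.RZ.RCO.Sg

namespace Pool.Agent.RZ.RCO.SB12R1

theorem dSBrL_0 : stepc SBrL.f0 632 1264 D 0 6 = true := by decide +kernel
theorem dSBrL_1 : stepc SBrL.f1 632 1264 D 0 6 = true := by decide +kernel
theorem dSBrL_2 : stepc SBrL.f2 632 1264 D 0 6 = true := by decide +kernel
theorem dSBrL_3 : stepc SBrL.f3 632 1264 D 0 6 = true := by decide +kernel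

theorem rowsSBrL : ∀ j < 6, (Pool.Agent.RZ.RCO.SBr.sh).At D 632 j := SBrL.lay.at fun a ha => by
  simp only [SBrL.L, List.mem_cons, List.not_mem_nil, or_false] at ha
  rcases ha with rfl | rfl | rfl | rfl
  exacts [dSBrL_0, dSBrL_1, dSBrL_2, dSBrL_3]

theorem rows : ∀ j < 6, (Pool.Agent.RZ.RCO.SBr.sh).At D 632 j := rowsSBrL

end Pool.Agent.RZ.RCO.SB12R1

namespace Pool.Agent.RZ.RCO.SB12R2

theorem dSBrL_0 : stepc SBrL.f0 632 1264 D 0 12 = true := by decide +kernel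
theorem dSBrL_1 : stepc SBrL.f1 632 1264 D 0 12 = true := by decide +kernel
theorem dSBrL_2 : stepc SBrL.f2 632 1264 D 0 12 = true := by decide +kernel
theorem dSBrL_3 : stepc SBrL.f3 632 1264 D 0 12 = true := by decide +kernel

theorem rowsSBrL : ∀ j < 12, (Pool.Agent.RZ.RCO.SBr.sh).At D 632 j := SBrL.lay.at fun a ha => by
  simp only [SBrL.L, List.mem_cons, List.not_mem_nil, or_false] at ha
  rcases ha with rfl | rfl | rfl | rfl
  exacts [dSBrL_0, dSBrL_1, dSBrL_2, dSBrL_3]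

theorem rows : ∀ j < 12, (Pool.Agent.RZ.RCO.SBr.sh).At D 632 j := rowsSBrL

end Pool.Agent.RZ.RCO.SB12R2

namespace Pool.Agent.RZ.RCO.SB12R3

theorem dSBrL_0 : stepc SBrL.f0 632 1264 D 0 18 = true := by decide +kernel
theorem dSBrL_1 : stepc SBrL.f1 632 1264 D 0 18 = true := by decide +kernel
theorem dSBrL_2 : stepc SBrL.f2 632 1264 D 0 18 = true := by decide +kernel
theorem dSBrL_3 : stepc SBrL.f3 632 1264 D 0 18 = true := by decide +kernel

theorem rowsSBrL : ∀ j < 18, (Pool.Agent.RZ.RCO.SBr.sh).At D 632 j := SBrL.lay.at fun a ha => by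
  simp only [SBrL.L, List.mem_cons, List.not_mem_nil, or_false] at ha
  rcases ha with rfl | rfl | rfl | rfl
  exacts [dSBrL_0, dSBrL_1, dSBrL_2, dSBrL_3]

theorem rows : ∀ j < 18, (Pool.Agent.RZ.RCO.SBr.sh).At D 632 j := rowsSBrL

end Pool.Agent.RZ.RCO.SB12R3

namespace Pool.Agent.RZ.RCO.SB12R4

theorem dSBrL_0 : stepc SBrL.f0 632 1264 D 0 24 = true := by decide +kernel
theorem dSBrL_1 : stepc SBrL.f1 632 1264 D 0 24 = true := by decide +kernel
theorem dSBrL_2 : stepc SBrL.f2 632 1264 D 0 24 = true := by decide +kernel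
theorem dSBrL_3 : stepc SBrL.f3 632 1264 D 0 24 = true := by decide +kernel

theorem rowsSBrL : ∀ j < 24, (Pool.Agent.RZ.RCO.SBr.sh).At D 632 j := SBrL.lay.at fun a ha => by
  simp only [SBrL.L, List.mem_cons, List.not_mem_nil, or_false] at ha
  rcases ha with rfl | rfl | rfl | rfl
  exacts [dSBrL_0, dSBrL_1, dSBrL_2, dSBrL_3]

theorem rows : ∀ j < 24, (Pool.Agent.RZ.RCO.SBr.sh).At D 632 j := rowsSBrL

end Pool.Agent.RZ.RCO.SB12R4
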