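import Pool.Agent.RZ.RCO.EdG
import Pool.Agent.RZ.RCO.EdM
import Pool.Agent.RZ.RCO.SK12

/-! Generated: the end of the big cell 12, pairs (MP_73ccd0_lc). -/

set_option autoImplicit false
set_option maxRecDepth 100000

open Pool.Agent.RZ.RCO

namespace Pool.Agent.RZ.RCO.EC12

def qA : ℕ → ℤ := fun l => match l with
  | 0 => 0
  | 1 => 3607104
  | 2 => 7214208
  | 3 => 10821312
  | 4 => 14428416
  | _ => 0

def q : Ec0 := ⟨4, 14428416, 601184, qA, 0⟩

def djH : ℕ → ℕ := fun l => match l with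
  | 0 => 601184
  | 1 => 601184
  | 2 => 601184
  | 3 => 601184
  | 4 => 601184
  | 5 => 601184
  | 6 => 601184
  | 7 => 601184
  | 8 => 601184
  | 9 => 601184
  | 10 => 601184
  | 11 => 601184
  | 12 => 601184
  | 13 => 601184
  | 14 => 601184
  | 15 => 601184
  | 16 => 601184
  | 17 => 601184
  | 18 => 601184
  | 19 => 601184
  | 20 => 601184
  | 21 => 601184
  | 22 => 601184
  | 23 => 601184
  | _ => 0

def djR : ℕ → ℕ := fun l => match l with
  | 0 => 16777216
  | 1 => 16777216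
  | 2 => 16777216
  | 3 => 16777216
  | 4 => 16777216
  | 5 => 16777216
  | 6 => 16777216
  | 7 => 16777216
  | 8 => 16819818
  | 9 => 16975911
  | 10 => 17106712
  | 11 => 17216166
  | 12 => 17308050
  | 13 => 17386367
  | 14 => 17454984
  | 15 => 17517393
  | 16 => 17577058
  | 17 => 17638650
  | 18 => 17700297
  | 19 => 17762956
  | 20 => 17826700
  | 21 => 17889833
  | 22 => 17951843
  | 23 => 18011098
  | _ => 0

def djW : ℕ → ℕ := fun l => match l with
  | 0 => 19781970
  | 1 => 19622783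
  | 2 => 19468463
  | 3 => 19318725
  | 4 => 19173300
  | 5 => 19031928
  | 6 => 18894368
  | 7 => 18760386
  | 8 => 18629762
  | 9 => 18502117
  | 10 => 18376683
  | 11 => 18252979
  | 12 => 18131037
  | 13 => 18010847
  | 14 => 17892370
  | 15 => 17775534
  | 16 => 17660244
  | 17 => 17546382
  | 18 => 17433803
  | 19 => 17322358
  | 20 => 17211904
  | 21 => 17102294
  | 22 => 16993393
  | 23 => 16885068
  | _ => 0

def djK : ℕ → ℕ := fun l => match l with
  | 0 => 0
  | 1 => 6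
  | 2 => 12
  | 3 => 18
  | 4 => 24
  | _ => 0

def dj : Dj := ⟨24, djH, djR, djW, 4, djK, 601184⟩

def kK : ℕ → ℕ := fun l => match l with
  | 0 => 0
  | 1 => 6
  | 2 => 12
  | 3 => 18
  | 4 => 24
  | _ => 0

def tT : ℕ → ℤ := fun l => match l with
  | 0 => 0
  | 1 => 601184
  | 2 => 1202368
  | 3 => 1803552
  | 4 => 2404736
  | 5 => 3005920
  | 6 => 3607104
  | 7 => 4208288
  | 8 => 4809472
  | 9 => 5410656
  | 10 => 6011840
  | 11 => 6613024
  | 12 => 7214208
  | 13 => 7815392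
  | 14 => 8416576
  | 15 => 9017760
  | 16 => 9618944
  | 17 => 10220128
  | 18 => 10821312
  | 19 => 11422496
  | 20 => 12023680
  | 21 => 12624864
  | 22 => 13226048
  | 23 => 13827232
  | 24 => 14428416
  | _ => 0

theorem qo : q.ok = true := by decide +kernel
theorem djo : dj.ok = true := by decide +kernel
theorem djt : dj.tie 2048 SC12.c.D 744 0 2 3 4 5 3 = true := by decide +kernel
theorem djr : dj.rel q = true := by decide +kernel
theorem rel : q.Rel (RTab.tabq 1) 12 := Ec0.relB_of (by decide +kernel)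

def clo : ℕ → (ℕ → ℤ) := fun l => match l with
  | 0 => v6 3785267 14320622 12740367 (-1811258) (-1725764) 6445787
  | 1 => v6 1223435 5779374 4892108 (-582222) 105881 1979761
  | 2 => v6 309852 2094233 1771338 (-97746) 473463 533166
  | 3 => v6 36774 464199 406491 (-5823) 239149 66666
  | _ => fun _ => 0

def chi : ℕ → (ℕ → ℤ) := fun l => match l with
  | 0 => v6 1223435 5779374 4892108 (-551493) 301522 1979761
  | 1 => v6 309852 2094233 1771338 (-40868) 520891 533166
  | 2 => v6 36774 464199 406491 15194 295453 66666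
  | 3 => v6 0 0 0 3944 0 0
  | _ => fun _ => 0

def clo1 : ℕ → ℤ := v6 3358295 12897081 11432324 (-1601297) (-1387883) 5701450

def cJ0 : ℕ → ℤ := fun l => match l with
  | 0 => 0
  | 1 => 79540
  | 2 => 213565
  | 3 => 511593
  | 4 => 1508493
  | _ => 0

def cJ1 : ℕ → ℤ := fun l => match l with
  | 0 => 0
  | 1 => 68528
  | 2 => 194105
  | 3 => 415461
  | 4 => 1270759
  | _ => 0

def cF0 : ℕ → ℤ := fun l => match l with
  | 0 => 0
  | 1 => 142816
  | 2 => 325384
  | 3 => 662076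
  | 4 => 1689882
  | _ => 0

def cF1 : ℕ → ℤ := fun l => match l with
  | 0 => 0
  | 1 => 134956
  | 2 => 311494
  | 3 => 573440
  | 4 => 1461184
  | _ => 0

def cHm0 : ℕ → ℤ := fun l => match l with
  | 0 => 14847967
  | 1 => 11299056
  | 2 => 7631597
  | 3 => 3872389
  | _ => 0

def cHm1 : ℕ → ℤ := fun l => match l with
  | 0 => 14246783
  | 1 => 11299056
  | 2 => 7631597
  | 3 => 3872389
  | _ => 0

def cHp : ℕ → ℤ := fun l => match l with
  | 0 => 11240863
  | 1 => 7597577
  | 2 => 3839284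
  | 3 => 0
  | _ => 0

def ctg : ℕ → ℕ → ℤ := fun l => match l with
  | 0 => fun i => match i with | 0 => 43 | 1 => 43 | 2 => 32 | 3 => 40 | 4 => 81 | 5 => 81 | 6 => 81 | 7 => 81 | _ => 0
  | 1 => fun i => match i with | 0 => 32 | 1 => 40 | 2 => 22 | 3 => 22 | 4 => 81 | 5 => 81 | 6 => 81 | 7 => 78 | _ => 0
  | 2 => fun i => match i with | 0 => 22 | 1 => 22 | 2 => 7 | 3 => 1 | 4 => 35 | 5 => 40 | 6 => 33 | 7 => 25 | _ => 0
  | 3 => fun i => match i with | 0 => 7 | 1 => 1 | 2 => 0 | 3 => 0 | 4 => 0 | 5 => 0 | 6 => 0 | 7 => 0 | _ => 0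
  | _ => fun _ => 0

def cML : ℕ → E4 := fun l => match l with
  | 0 => ⟨498484233, 439384016, 587634012, 511360352⟩
  | 1 => ⟨554130404, 476778197, 643152168, 548631275⟩
  | 2 => ⟨714483782, 608250642, 802808316, 679713386⟩
  | 3 => ⟨994144998, 845753679, 1079768458, 916984790⟩
  | _ => ⟨0, 0, 0, 0⟩

def cPL : ℕ → E4 := fun l => match l with
  | 0 => ⟨554130404, 476778197, 643152168, 548631275⟩
  | 1 => ⟨714483782, 608250642, 802808316, 679713386⟩
  | 2 => ⟨994144998, 845753679, 1079768458, 916984790⟩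
  | 3 => ⟨1433462600, 1227794200, 1519075892, 1299016509⟩
  | _ => ⟨0, 0, 0, 0⟩

def cMF : ℕ → E4 := fun l => match l with
  | 0 => ⟨1711858686, 1534575795, 1996240675, 1774854228⟩
  | 1 => ⟨1450732161, 1325849105, 1647769706, 1498030579⟩
  | 2 => ⟨1408919560, 1261802039, 1547525978, 1377393279⟩
  | 3 => ⟨1590627700, 1391848200, 1689712475, 1475174450⟩
  | _ => ⟨0, 0, 0, 0⟩

def cPF : ℕ → E4 := fun l => match l with
  | 0 => ⟨1351790220, 1235315871, 1558192535, 1410611239⟩
  | 1 => ⟨1205788407, 1080586349, 1369673542, 1219639266⟩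
  | 2 => ⟨1218228363, 1067788450, 1342022798, 1169411940⟩
  | 3 => ⟨1446559850, 1240777250, 1541776300, 1320235175⟩
  | _ => ⟨0, 0, 0, 0⟩

def cu : EhN := ⟨kK, tT, clo, chi, clo1, cJ0, cJ1, cF0, cF1, cHm0, cHm1, cHp, ctg, cML, cPL, cMF, cPF⟩

def ctn : ℕ → ℤ := fun l => match l with
  | 0 => 0
  | 1 => 0
  | 2 => 0
  | 3 => 0
  | 4 => 0
  | 5 => 76
  | _ => 0

noncomputable def ch : Ehk := SC.F.xc SC12.c RecK.rk SK12.e cu

theorem ccd : ch.cd.ck q = true := by decide +kernel
theorem cLS : (ch.L false (RTab.rr RT.kCL 12)).ckS q = true := by decide +kernel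
theorem cLT : (ch.L false (RTab.rr RT.kCL 12)).ckT q = true := by decide +kernel
theorem cFS : (ch.F false (RTab.rr RT.kCF 12)).ckS q = true := by decide +kernel
theorem cFT : (ch.F false (RTab.rr RT.kCF 12)).ckT q = true := by decide +kernel
theorem cj : ch.ckJ q.n dj 18980261 23152100 = true := by decide +kernel
theorem cms : ch.msB q.n = true := by decide +kernel
theorem cnl : ch.nck false q 18980261 23152100 4065422 ctn = true := by decide +kernel

/-- **the checks of the numbers** -/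
theorem cH : HCel ch q false dj 18980261 23152100 (RTab.rr RT.kCL 12) (RTab.rr RT.kCF 12) 12 :=
  ⟨⟨qo, ccd, rfl, rfl, rfl, cLS, cLT, cFS, cFT⟩, Ehk.msB_of cms, cj, fun h => absurd h (by decide)⟩

def rlo : ℕ → (ℕ → ℤ) := fun l => match l with
  | 0 => v6 5440613 8462461 7024860 878422 (-2847509) 5234321
  | 1 => v6 1610290 4220421 3530325 111789 (-269263) 1947091
  | 2 => v6 382767 1806031 1529648 (-6867) 423271 561681
  | 3 => v6 42443 446305 391658 (-3269) 236430 70242
  | _ => fun _ => 0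

def rhi : ℕ → (ℕ → ℤ) := fun l => match l with
  | 0 => v6 1610290 4220421 3530325 111789 (-24873) 1947091
  | 1 => v6 382767 1806031 1529648 (-6867) 503819 561681
  | 2 => v6 42443 446305 391658 (-4602) 309450 70242
  | 3 => v6 0 0 0 1333 0 0
  | _ => fun _ => 0

def rlo1 : ℕ → ℤ := v6 4802226 7755455 6442438 750650 (-2377069) 4686450

def rJ0 : ℕ → ℤ := fun l => match l with
  | 0 => 0
  | 1 => 79540
  | 2 => 213565
  | 3 => 511593
  | 4 => 1508493
  | _ => 0

def rJ1 : ℕ → ℤ := fun l => match l with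
  | 0 => 0
  | 1 => 68528
  | 2 => 194105
  | 3 => 415461
  | 4 => 1270759
  | _ => 0

def rF0 : ℕ → ℤ := fun l => match l with
  | 0 => 0
  | 1 => 142816
  | 2 => 325384
  | 3 => 662076
  | 4 => 1689882
  | _ => 0

def rF1 : ℕ → ℤ := fun l => match l with
  | 0 => 0
  | 1 => 134956
  | 2 => 311494
  | 3 => 573440
  | 4 => 1461184
  | _ => 0

def rHm0 : ℕ → ℤ := fun l => match l with
  | 0 => 14847967
  | 1 => 11299056
  | 2 => 7631597
  | 3 => 3872389
  | _ => 0

def rHm1 : ℕ → ℤ := fun l => match l with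
  | 0 => 14246783
  | 1 => 11299056
  | 2 => 7631597
  | 3 => 3872389
  | _ => 0

def rHp : ℕ → ℤ := fun l => match l with
  | 0 => 11240863
  | 1 => 7597577
  | 2 => 3839284
  | 3 => 0
  | _ => 0

def rtg : ℕ → ℕ → ℤ := fun l => match l with
  | 0 => fun i => match i with | 0 => 7 | 1 => 7 | 2 => 7 | 3 => 0 | 4 => 81 | 5 => 81 | 6 => 81 | 7 => 81 | _ => 0
  | 1 => fun i => match i with | 0 => 7 | 1 => 0 | 2 => 0 | 3 => 0 | 4 => 57 | 5 => 57 | 6 => 24 | 7 => 32 | _ => 0
  | 2 => fun i => match i with | 0 => 0 | 1 => 0 | 2 => 0 | 3 => 0 | 4 => 6 | 5 => 0 | 6 => 0 | 7 => 0 | _ => 0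
  | 3 => fun i => match i with | 0 => 0 | 1 => 0 | 2 => 0 | 3 => 0 | 4 => 0 | 5 => 0 | 6 => 0 | 7 => 0 | _ => 0
  | _ => fun _ => 0

def rML : ℕ → E4 := fun l => match l with
  | 0 => ⟨562937470, 490587723, 588954362, 512244832⟩
  | 1 => ⟨614881336, 524983016, 645155154, 549404851⟩
  | 2 => ⟨762308100, 646559700, 804241900, 680501309⟩
  | 3 => ⟨1021767700, 867934050, 1082366859, 917734542⟩
  | _ => ⟨0, 0, 0, 0⟩

def rPL : ℕ → E4 := fun l => match l with
  | 0 => ⟨614881336, 524983016, 645155154, 549404851⟩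
  | 1 => ⟨762308100, 646559700, 804241900, 680501309⟩
  | 2 => ⟨1021767700, 867934050, 1082366859, 917734542⟩
  | 3 => ⟨1433462600, 1227794200, 1519075892, 1299016509⟩
  | _ => ⟨0, 0, 0, 0⟩

def rMF : ℕ → E4 := fun l => match l with
  | 0 => ⟨1850319207, 1648761100, 1976733050, 1758347912⟩
  | 1 => ⟨1536870580, 1400394392, 1629805299, 1482098048⟩
  | 2 => ⟨1468070962, 1310502401, 1547421525, 1378453013⟩
  | 3 => ⟨1596980200, 1397027050, 1687015809, 1472536734⟩
  | _ => ⟨0, 0, 0, 0⟩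

def rPF : ℕ → E4 := fun l => match l with
  | 0 => ⟨1455234195, 1320322693, 1541760192, 1396738888⟩
  | 1 => ⟨1292040058, 1155982515, 1360919167, 1212261305⟩
  | 2 => ⟨1278185500, 1116891400, 1346196192, 1173503317⟩
  | 3 => ⟨1452628900, 1245672650, 1538945300, 1317463125⟩
  | _ => ⟨0, 0, 0, 0⟩

def ru : EhN := ⟨kK, tT, rlo, rhi, rlo1, rJ0, rJ1, rF0, rF1, rHm0, rHm1, rHp, rtg, rML, rPL, rMF, rPF⟩

def rtn : ℕ → ℤ := fun l => match l with
  | 0 => 0
  | 1 => 0
  | 2 => 0
  | 3 => 0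
  | 4 => 0
  | 5 => 76
  | _ => 0

noncomputable def rh : Ehk := SC.F.xr SC12.c RecK.rk SK12.e ru

theorem rcd : rh.cd.ck q = true := by decide +kernel
theorem rLS : (rh.L false (RTab.rr RT.kRL 12)).ckS q = true := by decide +kernel
theorem rLT : (rh.L false (RTab.rr RT.kRL 12)).ckT q = true := by decide +kernel
theorem rFS : (rh.F false (RTab.rr RT.kRF 12)).ckS q = true := by decide +kernel
theorem rFT : (rh.F false (RTab.rr RT.kRF 12)).ckT q = true := by decide +kernel
theorem rj : rh.ckJ q.n dj 18980261 23152100 = true := by decide +kernel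
theorem rms : rh.msB q.n = true := by decide +kernel
theorem rnl : rh.nck false q 18980261 23152100 4065422 rtn = true := by decide +kernel

/-- **the checks of the numbers** -/
theorem rH : HCel rh q false dj 18980261 23152100 (RTab.rr RT.kRL 12) (RTab.rr RT.kRF 12) 12 :=
  ⟨⟨qo, rcd, rfl, rfl, rfl, rLS, rLT, rFS, rFT⟩, Ehk.msB_of rms, rj, fun h => absurd h (by decide)⟩

/-- **the pairs** -/
theorem pc : PCel ch rh q dj 18980261 23152100 RTab.rr 12 := ⟨cH, rH, rfl, rfl⟩

end Pool.Agent.RZ.RCO.EC12
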