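import Pool.Agent.RZ.RCO.SB13K_1
import Pool.Agent.RZ.RCO.SBkLL

/-! Tables (MP_73ccd0_lc). -/

set_option autoImplicit false
set_option maxRecDepth 100000

open Pool.Agent.RZ.RCO Pool.Agent.RZ.RCO.Sg

namespace Pool.Agent.RZ.RCO.SB13K1

theorem dSBkL_0 : stepc SBkL.f0 600 1200 D 0 6 = true := by decide +kernel
theorem dSBkL_1 : stepc SBkL.f1 600 1200 D 0 6 = true := by decide +kernel
theorem dSBkL_2 : stepc SBkL.f2 600 1200 D 0 6 = true := by decide +kernel
theorem dSBkL_3 : stepc SBkL.f3 600 1200 D 0 6 = true := by decide +kernel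

theorem rowsSBkL : ∀ j < 6, (Pool.Agent.RZ.RCO.SBk.sh).At D 600 j := SBkL.lay.at fun a ha => by
  simp only [SBkL.L, List.mem_cons, List.not_mem_nil, or_false] at ha
  rcases ha with rfl | rfl | rfl | rfl
  exacts [dSBkL_0, dSBkL_1, dSBkL_2, dSBkL_3]

theorem rows : ∀ j < 6, (Pool.Agent.RZ.RCO.SBk.sh).At D 600 j := rowsSBkL

end Pool.Agent.RZ.RCO.SB13K1

namespace Pool.Agent.RZ.RCO.SB13K2

theorem dSBkL_0 : stepc SBkL.f0 600 1200 D 0 12 = true := by decide +kernel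
theorem dSBkL_1 : stepc SBkL.f1 600 1200 D 0 12 = true := by decide +kernel
theorem dSBkL_2 : stepc SBkL.f2 600 1200 D 0 12 = true := by decide +kernel
theorem dSBkL_3 : stepc SBkL.f3 600 1200 D 0 12 = true := by decide +kernel

theorem rowsSBkL : ∀ j < 12, (Pool.Agent.RZ.RCO.SBk.sh).At D 600 j := SBkL.lay.at fun a ha => by
  simp only [SBkL.L, List.mem_cons, List.not_mem_nil, or_false] at ha
  rcases ha with rfl | rfl | rfl | rfl
  exacts [dSBkL_0, dSBkL_1, dSBkL_2, dSBkL_3]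

theorem rows : ∀ j < 12, (Pool.Agent.RZ.RCO.SBk.sh).At D 600 j := rowsSBkL

end Pool.Agent.RZ.RCO.SB13K2

namespace Pool.Agent.RZ.RCO.SB13K3

theorem dSBkL_0 : stepc SBkL.f0 600 1200 D 0 18 = true := by decide +kernel
theorem dSBkL_1 : stepc SBkL.f1 600 1200 D 0 18 = true := by decide +kernel
theorem dSBkL_2 : stepc SBkL.f2 600 1200 D 0 18 = true := by decide +kernel
theorem dSBkL_3 : stepc SBkL.f3 600 1200 D 0 18 = true := by decide +kernel

theorem rowsSBkL : ∀ j < 18, (Pool.Agent.RZ.RCO.SBk.sh).At D 600 j := SBkL.lay.at fun a ha => by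
  simp only [SBkL.L, List.mem_cons, List.not_mem_nil, or_false] at ha
  rcases ha with rfl | rfl | rfl | rfl
  exacts [dSBkL_0, dSBkL_1, dSBkL_2, dSBkL_3]

theorem rows : ∀ j < 18, (Pool.Agent.RZ.RCO.SBk.sh).At D 600 j := rowsSBkL

end Pool.Agent.RZ.RCO.SB13K3

namespace Pool.Agent.RZ.RCO.SB13K4

theorem dSBkL_0 : stepc SBkL.f0 600 1200 D 0 24 = true := by decide +kernel
theorem dSBkL_1 : stepc SBkL.f1 600 1200 D 0 24 = true := by decide +kernel
theorem dSBkL_2 : stepc SBkL.f2 600 1200 D 0 24 = true := by decide +kernel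
theorem dSBkL_3 : stepc SBkL.f3 600 1200 D 0 24 = true := by decide +kernel

theorem rowsSBkL : ∀ j < 24, (Pool.Agent.RZ.RCO.SBk.sh).At D 600 j := SBkL.lay.at fun a ha => by
  simp only [SBkL.L, List.mem_cons, List.not_mem_nil, or_false] at ha
  rcases ha with rfl | rfl | rfl | rfl
  exacts [dSBkL_0, dSBkL_1, dSBkL_2, dSBkL_3]

theorem rows : ∀ j < 24, (Pool.Agent.RZ.RCO.SBk.sh).At D 600 j := rowsSBkL

end Pool.Agent.RZ.RCO.SB13K4
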