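import Pool.Agent.RZ.RCO.Gg9
import Pool.Agent.RZ.RCO.SAdD_2
import Pool.Agent.RZ.RCO.SB13K_2
import Pool.Agent.RZ.RCO.SB13R_2
import Pool.Agent.RZ.RCO.SCr

/-! The tables of a cell (MP_73ccd0_lc). -/

set_option autoImplicit false
set_option maxRecDepth 100000

namespace Pool.Agent.RZ.RCO.SC13

open Sg

def a : ℕ → ℕ := fun l => match l with | 0 => 0 | 1 => 6 | 2 => 12 | 3 => 18 | _ => 24
def K : ℕ → ℕ := fun l => match l with | 0 => 0 | 1 => SB13K1.D | 2 => SB13K2.D | 3 => SB13K3.D | _ => SB13K4.D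
def R : ℕ → ℕ := fun l => match l with | 0 => 0 | 1 => SB13R1.D | 2 => SB13R2.D | 3 => SB13R3.D | _ => SB13R4.D

/-- the data of the cell -/
def c : Cdc := ⟨SA13.D, 24, 4, a, K, R⟩

theorem bK1 : SC.F.bK SB13K1.D 6 SA13.D = true := by decide +kernel
theorem bK2 : SC.F.bK SB13K2.D 12 SA13.D = true := by decide +kernel
theorem bK3 : SC.F.bK SB13K3.D 18 SA13.D = true := by decide +kernel
theorem bK4 : SC.F.bK SB13K4.D 24 SA13.D = true := by decide +kernel
theorem bN1 : SC.F.bN SB13K1.D 6 SB13K2.D 12 = true := by decide +kernel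
theorem bN2 : SC.F.bN SB13K2.D 12 SB13K3.D 18 = true := by decide +kernel
theorem bN3 : SC.F.bN SB13K3.D 18 SB13K4.D 24 = true := by decide +kernel
theorem bR0 : SC.F.bR SB13R1.D 6 SA13.D 0 = true := by decide +kernel
theorem bR1 : SC.F.bR SB13R2.D 12 SA13.D 6 = true := by decide +kernel
theorem bR2 : SC.F.bR SB13R3.D 18 SA13.D 12 = true := by decide +kernel
theorem bR3 : SC.F.bR SB13R4.D 24 SA13.D 18 = true := by decide +kernel
theorem mo : SC.F.X.moD SB13K1.D 6 = true := by decide +kernel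

theorem sx : ∀ j < 24, SC.F.x.sheet.At SA13.D SC.F.x.R j := fun j hj => Sheet.At.left (Sheet.At.right (SA13.rowsSAL j hj))

/-- **the checks of the data** -/
theorem dat : SC.F.Dat c where
  hm := Tp12.msh sx
  nc := by decide
  a0 := rfl
  an := rfl
  lt := lowS (lowS (lowS (lowS low0 (by decide)) (by decide)) (by decide)) (by decide)
  sK := allS (allS (allS (allS all0 SB13K1.rows) SB13K2.rows) SB13K3.rows) SB13K4.rows
  bK := allS (allS (allS (allS all0 bK1) bK2) bK3) bK4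
  bN := nbrS (nbrS (nbrS nbr0 bN1) bN2) bN3
  mo := mo
  sR := allS (allS (allS (allS all0 SB13R1.rows) SB13R2.rows) SB13R3.rows) SB13R4.rows
  bR := lowS (lowS (lowS (lowS low0 bR0) bR1) bR2) bR3

end Pool.Agent.RZ.RCO.SC13
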