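import Pool.Agent.RZ.RCO.EdG
import Pool.Agent.RZ.RCO.EdM
import Pool.Agent.RZ.RCO.SK13

/-! Generated: the end of the big cell 13, pairs (MP_73ccd0_lc). -/

set_option autoImplicit false
set_option maxRecDepth 100000

open Pool.Agent.RZ.RCO

namespace Pool.Agent.RZ.RCO.EC13

def qA : ℕ → ℤ := fun l => match l with
  | 0 => 0
  | 1 => 3732928
  | 2 => 7465856
  | 3 => 11198800
  | 4 => 14931728
  | _ => 0

def q : Ec0 := ⟨4, 14931728, 622155, qA, 0⟩

def djH : ℕ → ℕ := fun l => match l with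
  | 0 => 622155
  | 1 => 622154
  | 2 => 622155
  | 3 => 622155
  | 4 => 622154
  | 5 => 622155
  | 6 => 622155
  | 7 => 622154
  | 8 => 622155
  | 9 => 622155
  | 10 => 622154
  | 11 => 622155
  | 12 => 622157
  | 13 => 622158
  | 14 => 622157
  | 15 => 622157
  | 16 => 622158
  | 17 => 622157
  | 18 => 622155
  | 19 => 622154
  | 20 => 622155
  | 21 => 622155
  | 22 => 622154
  | 23 => 622155
  | _ => 0

def djR : ℕ → ℕ := fun l => match l with
  | 0 => 16777216
  | 1 => 16777216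
  | 2 => 16777216
  | 3 => 16777216
  | 4 => 16777216
  | 5 => 16777216
  | 6 => 16777216
  | 7 => 16777216
  | 8 => 16871940
  | 9 => 17024548
  | 10 => 17151304
  | 11 => 17256742
  | 12 => 17345153
  | 13 => 17420952
  | 14 => 17488262
  | 15 => 17550646
  | 16 => 17613390
  | 17 => 17677201
  | 18 => 17741735
  | 19 => 17807361
  | 20 => 17873030
  | 21 => 17937539
  | 22 => 17999267
  | 23 => 18057890
  | _ => 0

def djW : ℕ → ℕ := fun l => match l with
  | 0 => 19929705
  | 1 => 19760243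
  | 2 => 19596278
  | 3 => 19437479
  | 4 => 19283532
  | 5 => 19134142
  | 6 => 18989026
  | 7 => 18847919
  | 8 => 18710567
  | 9 => 18576348
  | 10 => 18444459
  | 11 => 18314608
  | 12 => 18186811
  | 13 => 18061042
  | 14 => 17937237
  | 15 => 17815300
  | 16 => 17695110
  | 17 => 17576511
  | 18 => 17459337
  | 19 => 17343420
  | 20 => 17228597
  | 21 => 17114706
  | 22 => 17001600
  | 23 => 16889142
  | _ => 0

def djK : ℕ → ℕ := fun l => match l with
  | 0 => 0
  | 1 => 6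
  | 2 => 12
  | 3 => 18
  | 4 => 24
  | _ => 0

def dj : Dj := ⟨24, djH, djR, djW, 4, djK, 622155⟩

def kK : ℕ → ℕ := fun l => match l with
  | 0 => 0
  | 1 => 6
  | 2 => 12
  | 3 => 18
  | 4 => 24
  | _ => 0

def tT : ℕ → ℤ := fun l => match l with
  | 0 => 0
  | 1 => 622155
  | 2 => 1244309
  | 3 => 1866464
  | 4 => 2488619
  | 5 => 3110773
  | 6 => 3732928
  | 7 => 4355083
  | 8 => 4977237
  | 9 => 5599392
  | 10 => 6221547
  | 11 => 6843701
  | 12 => 7465856
  | 13 => 8088013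
  | 14 => 8710171
  | 15 => 9332328
  | 16 => 9954485
  | 17 => 10576643
  | 18 => 11198800
  | 19 => 11820955
  | 20 => 12443109
  | 21 => 13065264
  | 22 => 13687419
  | 23 => 14309573
  | 24 => 14931728
  | _ => 0

theorem qo : q.ok = true := by decide +kernel
theorem djo : dj.ok = true := by decide +kernel
theorem djt : dj.tie 2048 SC13.c.D 744 0 2 3 4 5 3 = true := by decide +kernel
theorem djr : dj.rel q = true := by decide +kernel
theorem rel : q.Rel (RTab.tabq 1) 13 := Ec0.relB_of (by decide +kernel)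

def clo : ℕ → (ℕ → ℤ) := fun l => match l with
  | 0 => v6 4460406 16471719 14816386 (-2014388) (-2011180) 7748378
  | 1 => v6 1394752 6421419 5438545 (-624724) 86764 2272334
  | 2 => v6 348464 2285976 1925094 (-101929) 526358 600000
  | 3 => v6 41046 501631 437170 (-5689) 267287 74507
  | _ => fun _ => 0

def chi : ℕ → (ℕ → ℤ) := fun l => match l with
  | 0 => v6 1394752 6421419 5438545 (-587856) 321378 2272334
  | 1 => v6 348464 2285976 1925094 (-32966) 575920 600000
  | 2 => v6 41046 501631 437170 16948 331298 74507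
  | 3 => v6 0 0 0 3991 0 0
  | _ => fun _ => 0

def clo1 : ℕ → ℤ := v6 3949464 14796669 13253412 (-1776632) (-1622420) 6835704

def cJ0 : ℕ → ℤ := fun l => match l with
  | 0 => 0
  | 1 => 120140
  | 2 => 290035
  | 3 => 694147
  | 4 => 1866762
  | _ => 0

def cJ1 : ℕ → ℤ := fun l => match l with
  | 0 => 0
  | 1 => 110148
  | 2 => 272462
  | 3 => 574233
  | 4 => 1599764
  | _ => 0

def cF0 : ℕ → ℤ := fun l => match l with
  | 0 => 0
  | 1 => 194222
  | 2 => 420328
  | 3 => 868721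
  | 4 => 2076400
  | _ => 0

def cF1 : ℕ → ℤ := fun l => match l with
  | 0 => 0
  | 1 => 188107
  | 2 => 409573
  | 3 => 757941
  | 4 => 1820372
  | _ => 0

def cHm0 : ℕ → ℤ := fun l => match l with
  | 0 => 15390876
  | 1 => 11720304
  | 2 => 7916564
  | 3 => 4017878
  | _ => 0

def cHm1 : ℕ → ℤ := fun l => match l with
  | 0 => 14768721
  | 1 => 11720304
  | 2 => 7916564
  | 3 => 4017878
  | _ => 0

def cHp : ℕ → ℤ := fun l => match l with
  | 0 => 11657948
  | 1 => 7880681
  | 2 => 3983372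
  | 3 => 0
  | _ => 0

def ctg : ℕ → ℕ → ℤ := fun l => match l with
  | 0 => fun i => match i with | 0 => 48 | 1 => 48 | 2 => 43 | 3 => 43 | 4 => 81 | 5 => 81 | 6 => 81 | 7 => 81 | _ => 0
  | 1 => fun i => match i with | 0 => 43 | 1 => 43 | 2 => 28 | 3 => 32 | 4 => 81 | 5 => 81 | 6 => 81 | 7 => 81 | _ => 0
  | 2 => fun i => match i with | 0 => 28 | 1 => 32 | 2 => 18 | 3 => 8 | 4 => 48 | 5 => 48 | 6 => 41 | 7 => 40 | _ => 0
  | 3 => fun i => match i with | 0 => 18 | 1 => 8 | 2 => 0 | 3 => 0 | 4 => 0 | 5 => 0 | 6 => 0 | 7 => 0 | _ => 0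
  | _ => fun _ => 0

def cML : ℕ → E4 := fun l => match l with
  | 0 => ⟨564005368, 489382453, 670203245, 573825278⟩
  | 1 => ⟨630130539, 533960180, 736165557, 618246074⟩
  | 2 => ⟨813800919, 687550442, 919420037, 771491913⟩
  | 3 => ⟨1141454500, 962606781, 1242738292, 1046123348⟩
  | _ => ⟨0, 0, 0, 0⟩

def cPL : ℕ → E4 := fun l => match l with
  | 0 => ⟨630130539, 533960180, 736165557, 618246074⟩
  | 1 => ⟨813800919, 687550442, 919420037, 771491913⟩
  | 2 => ⟨1141454500, 962606781, 1242738292, 1046123348⟩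
  | 3 => ⟨1655409750, 1406060050, 1756525900, 1489485792⟩
  | _ => ⟨0, 0, 0, 0⟩

def cMF : ℕ → E4 := fun l => match l with
  | 0 => ⟨1912229846, 1698589452, 2252253946, 1983259004⟩
  | 1 => ⟨1615289089, 1462678888, 1848829871, 1664784746⟩
  | 2 => ⟨1581216336, 1399863979, 1746435961, 1535730917⟩
  | 3 => ⟨1813607150, 1571276700, 1930883884, 1669040834⟩
  | _ => ⟨0, 0, 0, 0⟩

def cPF : ℕ → E4 := fun l => match l with
  | 0 => ⟨1511407381, 1365883499, 1759391861, 1573853368⟩
  | 1 => ⟨1355818196, 1202975996, 1552321501, 1368044375⟩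
  | 2 => ⟨1383402806, 1201372120, 1532592628, 1321981540⟩
  | 3 => ⟨1671044900, 1421452050, 1784141375, 1515035925⟩
  | _ => ⟨0, 0, 0, 0⟩

def cu : EhN := ⟨kK, tT, clo, chi, clo1, cJ0, cJ1, cF0, cF1, cHm0, cHm1, cHp, ctg, cML, cPL, cMF, cPF⟩

def ctn : ℕ → ℤ := fun l => match l with
  | 0 => 0
  | 1 => 0
  | 2 => 0
  | 3 => 0
  | 4 => 0
  | 5 => 76
  | _ => 0

noncomputable def ch : Ehk := SC.F.xc SC13.c RecK.rk SK13.e cu

theorem ccd : ch.cd.ck q = true := by decide +kernel
theorem cLS : (ch.L false (RTab.rr RT.kCL 13)).ckS q = true := by decide +kernel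
theorem cLT : (ch.L false (RTab.rr RT.kCL 13)).ckT q = true := by decide +kernel
theorem cFS : (ch.F false (RTab.rr RT.kCF 13)).ckS q = true := by decide +kernel
theorem cFT : (ch.F false (RTab.rr RT.kCF 13)).ckT q = true := by decide +kernel
theorem cj : ch.ckJ q.n dj 21292534 26050039 = true := by decide +kernel
theorem cms : ch.msB q.n = true := by decide +kernel
theorem cnl : ch.nck false q 21292534 26050039 4624916 ctn = true := by decide +kernel

/-- **the checks of the numbers** -/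
theorem cH : HCel ch q false dj 21292534 26050039 (RTab.rr RT.kCL 13) (RTab.rr RT.kCF 13) 13 :=
  ⟨⟨qo, ccd, rfl, rfl, rfl, cLS, cLT, cFS, cFT⟩, Ehk.msB_of cms, cj, fun h => absurd h (by decide)⟩

def rlo : ℕ → (ℕ → ℤ) := fun l => match l with
  | 0 => v6 6508324 9385416 7768831 1333135 (-3346675) 6031975
  | 1 => v6 1856753 4588595 3818795 199898 (-309569) 2199212
  | 2 => v6 433897 1950400 1642153 6851 477079 630046
  | 3 => v6 47642 480873 419853 (-2736) 264674 78554
  | _ => fun _ => 0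

def rhi : ℕ → (ℕ → ℤ) := fun l => match l with
  | 0 => v6 1856753 4588595 3818795 199898 9624 2199212
  | 1 => v6 433897 1950400 1642153 6851 573282 630046
  | 2 => v6 47642 480873 419853 (-3665) 345973 78554
  | 3 => v6 0 0 0 929 0 0
  | _ => fun _ => 0

def rlo1 : ℕ → ℤ := v6 5733062 8585946 7110492 1144263 (-2787291) 5393181

def rJ0 : ℕ → ℤ := fun l => match l with
  | 0 => 0
  | 1 => 120140
  | 2 => 290035
  | 3 => 694147
  | 4 => 1866762
  | _ => 0

def rJ1 : ℕ → ℤ := fun l => match l with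
  | 0 => 0
  | 1 => 110148
  | 2 => 272462
  | 3 => 574233
  | 4 => 1599764
  | _ => 0

def rF0 : ℕ → ℤ := fun l => match l with
  | 0 => 0
  | 1 => 194222
  | 2 => 420328
  | 3 => 868721
  | 4 => 2076400
  | _ => 0

def rF1 : ℕ → ℤ := fun l => match l with
  | 0 => 0
  | 1 => 188107
  | 2 => 409573
  | 3 => 757941
  | 4 => 1820372
  | _ => 0

def rHm0 : ℕ → ℤ := fun l => match l with
  | 0 => 15390876
  | 1 => 11720304
  | 2 => 7916564
  | 3 => 4017878
  | _ => 0

def rHm1 : ℕ → ℤ := fun l => match l with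
  | 0 => 14768721
  | 1 => 11720304
  | 2 => 7916564
  | 3 => 4017878
  | _ => 0

def rHp : ℕ → ℤ := fun l => match l with
  | 0 => 11657948
  | 1 => 7880681
  | 2 => 3983372
  | 3 => 0
  | _ => 0

def rtg : ℕ → ℕ → ℤ := fun l => match l with
  | 0 => fun i => match i with | 0 => 21 | 1 => 12 | 2 => 17 | 3 => 9 | 4 => 81 | 5 => 0 | 6 => 81 | 7 => 0 | _ => 0
  | 1 => fun i => match i with | 0 => 17 | 1 => 9 | 2 => 6 | 3 => 0 | 4 => 73 | 5 => 73 | 6 => 41 | 7 => 40 | _ => 0
  | 2 => fun i => match i with | 0 => 6 | 1 => 0 | 2 => 0 | 3 => 0 | 4 => 15 | 5 => 7 | 6 => 0 | 7 => 0 | _ => 0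
  | 3 => fun i => match i with | 0 => 0 | 1 => 0 | 2 => 0 | 3 => 0 | 4 => 0 | 5 => 0 | 6 => 0 | 7 => 0 | _ => 0
  | _ => fun _ => 0

def rML : ℕ → E4 := fun l => match l with
  | 0 => ⟨638006778, 551581039, 668763120, 576998886⟩
  | 1 => ⟨699588341, 592522444, 735325819, 621124115⟩
  | 2 => ⟨871292028, 732888318, 920646361, 772528459⟩
  | 3 => ⟨1175652050, 989684400, 1247017825, 1047861175⟩
  | _ => ⟨0, 0, 0, 0⟩

def rPL : ℕ → E4 := fun l => match l with
  | 0 => ⟨699588341, 592522444, 735325819, 621124115⟩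
  | 1 => ⟨871292028, 732888318, 920646361, 772528459⟩
  | 2 => ⟨1175652050, 989684400, 1247017825, 1047861175⟩
  | 3 => ⟨1655409750, 1406060050, 1756525900, 1489485792⟩
  | _ => ⟨0, 0, 0, 0⟩

def rMF : ℕ → E4 := fun l => match l with
  | 0 => ⟨2084676804, 1839614675, 2231148456, 1965499057⟩
  | 1 => ⟨1718785872, 1550375960, 1826747924, 1645284548⟩
  | 2 => ⟨1649056643, 1458199953, 1741574125, 1536647125⟩
  | 3 => ⟨1822053300, 1578061650, 1928118059, 1666245059⟩
  | _ => ⟨0, 0, 0, 0⟩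

def rPF : ℕ → E4 := fun l => match l with
  | 0 => ⟨1639848920, 1470237556, 1740813775, 1558199607⟩
  | 1 => ⟨1454696305, 1289016268, 1536507205, 1354527381⟩
  | 2 => ⟨1454816900, 1259039950, 1534939817, 1325180459⟩
  | 3 => ⟨1679161250, 1427907200, 1781218734, 1512083334⟩
  | _ => ⟨0, 0, 0, 0⟩

def ru : EhN := ⟨kK, tT, rlo, rhi, rlo1, rJ0, rJ1, rF0, rF1, rHm0, rHm1, rHp, rtg, rML, rPL, rMF, rPF⟩

def rtn : ℕ → ℤ := fun l => match l with
  | 0 => 0
  | 1 => 0
  | 2 => 0
  | 3 => 0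
  | 4 => 0
  | 5 => 76
  | _ => 0

noncomputable def rh : Ehk := SC.F.xr SC13.c RecK.rk SK13.e ru

theorem rcd : rh.cd.ck q = true := by decide +kernel
theorem rLS : (rh.L false (RTab.rr RT.kRL 13)).ckS q = true := by decide +kernel
theorem rLT : (rh.L false (RTab.rr RT.kRL 13)).ckT q = true := by decide +kernel
theorem rFS : (rh.F false (RTab.rr RT.kRF 13)).ckS q = true := by decide +kernel
theorem rFT : (rh.F false (RTab.rr RT.kRF 13)).ckT q = true := by decide +kernel
theorem rj : rh.ckJ q.n dj 21292534 26050039 = true := by decide +kernel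
theorem rms : rh.msB q.n = true := by decide +kernel
theorem rnl : rh.nck false q 21292534 26050039 4624916 rtn = true := by decide +kernel

/-- **the checks of the numbers** -/
theorem rH : HCel rh q false dj 21292534 26050039 (RTab.rr RT.kRL 13) (RTab.rr RT.kRF 13) 13 :=
  ⟨⟨qo, rcd, rfl, rfl, rfl, rLS, rLT, rFS, rFT⟩, Ehk.msB_of rms, rj, fun h => absurd h (by decide)⟩

/-- **the pairs** -/
theorem pc : PCel ch rh q dj 21292534 26050039 RTab.rr 13 := ⟨cH, rH, rfl, rfl⟩

end Pool.Agent.RZ.RCO.EC13
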