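import Pool.Agent.RZ.RCO.EdG
import Pool.Agent.RZ.RCO.EdM
import Pool.Agent.RZ.RCO.SK14

/-! Generated: the end of the big cell 14, pairs (MP_73ccd0_lc). -/

set_option autoImplicit false
set_option maxRecDepth 100000

open Pool.Agent.RZ.RCO

namespace Pool.Agent.RZ.RCO.EC14

def qA : ℕ → ℤ := fun l => match l with
  | 0 => 0
  | 1 => 3837792
  | 2 => 7675584
  | 3 => 11513376
  | 4 => 15351168
  | _ => 0

def q : Ec0 := ⟨4, 15351168, 639632, qA, 0⟩

def djH : ℕ → ℕ := fun l => match l with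
  | 0 => 639632
  | 1 => 639632
  | 2 => 639632
  | 3 => 639632
  | 4 => 639632
  | 5 => 639632
  | 6 => 639632
  | 7 => 639632
  | 8 => 639632
  | 9 => 639632
  | 10 => 639632
  | 11 => 639632
  | 12 => 639632
  | 13 => 639632
  | 14 => 639632
  | 15 => 639632
  | 16 => 639632
  | 17 => 639632
  | 18 => 639632
  | 19 => 639632
  | 20 => 639632
  | 21 => 639632
  | 22 => 639632
  | 23 => 639632
  | _ => 0

def djR : ℕ → ℕ := fun l => match l with
  | 0 => 16777216
  | 1 => 16777216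
  | 2 => 16777216
  | 3 => 16777216
  | 4 => 16777216
  | 5 => 16777216
  | 6 => 16777216
  | 7 => 16777216
  | 8 => 16913331
  | 9 => 17062845
  | 10 => 17186179
  | 11 => 17288384
  | 12 => 17374175
  | 13 => 17448284
  | 14 => 17514995
  | 15 => 17578482
  | 16 => 17643992
  | 17 => 17709714
  | 18 => 17776542
  | 19 => 17844620
  | 20 => 17911432
  | 21 => 17976432
  | 22 => 18038331
  | 23 => 18097224
  | _ => 0

def djW : ℕ → ℕ := fun l => match l with
  | 0 => 20056412
  | 1 => 19877934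
  | 2 => 19705527
  | 3 => 19538817
  | 4 => 19377452
  | 5 => 19221098
  | 6 => 19069440
  | 7 => 18922179
  | 8 => 18779028
  | 9 => 18639156
  | 10 => 18501733
  | 11 => 18366628
  | 12 => 18233843
  | 13 => 18103332
  | 14 => 17975010
  | 15 => 17848756
  | 16 => 17724420
  | 17 => 17601821
  | 18 => 17480769
  | 19 => 17361084
  | 20 => 17242585
  | 21 => 17125100
  | 22 => 17008473
  | 23 => 16892554
  | _ => 0

def djK : ℕ → ℕ := fun l => match l with
  | 0 => 0
  | 1 => 6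
  | 2 => 12
  | 3 => 18
  | 4 => 24
  | _ => 0

def dj : Dj := ⟨24, djH, djR, djW, 4, djK, 639632⟩

def kK : ℕ → ℕ := fun l => match l with
  | 0 => 0
  | 1 => 6
  | 2 => 12
  | 3 => 18
  | 4 => 24
  | _ => 0

def tT : ℕ → ℤ := fun l => match l with
  | 0 => 0
  | 1 => 639632
  | 2 => 1279264
  | 3 => 1918896
  | 4 => 2558528
  | 5 => 3198160
  | 6 => 3837792
  | 7 => 4477424
  | 8 => 5117056
  | 9 => 5756688
  | 10 => 6396320
  | 11 => 7035952
  | 12 => 7675584
  | 13 => 8315216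
  | 14 => 8954848
  | 15 => 9594480
  | 16 => 10234112
  | 17 => 10873744
  | 18 => 11513376
  | 19 => 12153008
  | 20 => 12792640
  | 21 => 13432272
  | 22 => 14071904
  | 23 => 14711536
  | 24 => 15351168
  | _ => 0

theorem qo : q.ok = true := by decide +kernel
theorem djo : dj.ok = true := by decide +kernel
theorem djt : dj.tie 2048 SC14.c.D 744 0 2 3 4 5 3 = true := by decide +kernel
theorem djr : dj.rel q = true := by decide +kernel
theorem rel : q.Rel (RTab.tabq 1) 14 := Ec0.relB_of (by decide +kernel)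

def clo : ℕ → (ℕ → ℤ) := fun l => match l with
  | 0 => v6 5131560 18571421 16871273 (-2196993) (-2283857) 9067651
  | 1 => v6 1553319 7006210 5940484 (-658937) 66137 2546422
  | 2 => v6 383396 2455723 2060940 (-104351) 571866 660589
  | 3 => v6 44869 534239 463747 (-5479) 292411 81532
  | _ => fun _ => 0

def chi : ℕ → (ℕ → ℤ) := fun l => match l with
  | 0 => v6 1553319 7006210 5940484 (-612406) 337616 2546422
  | 1 => v6 383396 2455723 2060940 (-24060) 622639 660589
  | 2 => v6 44869 534239 463747 18483 364898 81532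
  | 3 => v6 0 0 0 3974 0 0
  | _ => fun _ => 0

def clo1 : ℕ → ℤ := v6 4535187 16643886 15049475 (-1932895) (-1846944) 7980780

def cJ0 : ℕ → ℤ := fun l => match l with
  | 0 => 0
  | 1 => 160071
  | 2 => 364084
  | 3 => 869084
  | 4 => 2194676
  | _ => 0

def cJ1 : ℕ → ℤ := fun l => match l with
  | 0 => 0
  | 1 => 151367
  | 2 => 348838
  | 3 => 731994
  | 4 => 1906206
  | _ => 0

def cF0 : ℕ → ℤ := fun l => match l with
  | 0 => 0
  | 1 => 244699
  | 2 => 512320
  | 3 => 1066964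
  | 4 => 2431558
  | _ => 0

def cF1 : ℕ → ℤ := fun l => match l with
  | 0 => 0
  | 1 => 240606
  | 2 => 505151
  | 3 => 940654
  | 4 => 2155995
  | _ => 0

def cHm0 : ℕ → ℤ := fun l => match l with
  | 0 => 15844106
  | 1 => 12072085
  | 2 => 8155056
  | 3 => 4139745
  | _ => 0

def cHm1 : ℕ → ℤ := fun l => match l with
  | 0 => 15204474
  | 1 => 12072085
  | 2 => 8155056
  | 3 => 4139745
  | _ => 0

def cHp : ℕ → ℤ := fun l => match l with
  | 0 => 12006314
  | 1 => 8117363
  | 2 => 4103954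
  | 3 => 0
  | _ => 0

def ctg : ℕ → ℕ → ℤ := fun l => match l with
  | 0 => fun i => match i with | 0 => 62 | 1 => 56 | 2 => 60 | 3 => 49 | 4 => 81 | 5 => 81 | 6 => 81 | 7 => 81 | _ => 0
  | 1 => fun i => match i with | 0 => 60 | 1 => 49 | 2 => 39 | 3 => 40 | 4 => 81 | 5 => 81 | 6 => 81 | 7 => 81 | _ => 0
  | 2 => fun i => match i with | 0 => 39 | 1 => 40 | 2 => 22 | 3 => 20 | 4 => 63 | 5 => 59 | 6 => 45 | 7 => 48 | _ => 0
  | 3 => fun i => match i with | 0 => 22 | 1 => 20 | 2 => 0 | 3 => 0 | 4 => 0 | 5 => 0 | 6 => 0 | 7 => 0 | _ => 0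
  | _ => fun _ => 0

def cML : ℕ → E4 := fun l => match l with
  | 0 => ⟨625738156, 538906813, 749253989, 636154768⟩
  | 1 => ⟨702314378, 590213244, 825599896, 686916891⟩
  | 2 => ⟨911216761, 763936391, 1033990505, 860130790⟩
  | 3 => ⟨1286197574, 1075588272, 1403058705, 1171143858⟩
  | _ => ⟨0, 0, 0, 0⟩

def cPL : ℕ → E4 := fun l => match l with
  | 0 => ⟨702314378, 590213244, 825599896, 686916891⟩
  | 1 => ⟨911216761, 763936391, 1033990505, 860130790⟩
  | 2 => ⟨1286197574, 1075588272, 1403058705, 1171143858⟩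
  | 3 => ⟨1872924150, 1577460650, 1989382017, 1672757150⟩
  | _ => ⟨0, 0, 0, 0⟩

def cMF : ℕ → E4 := fun l => match l with
  | 0 => ⟨2111926088, 1858910285, 2509112186, 2188444990⟩
  | 1 => ⟨1775100804, 1592925120, 2045234760, 1824485713⟩
  | 2 => ⟨1748991942, 1533923032, 1941235356, 1690109286⟩
  | 3 => ⟨2032144500, 1743725300, 2167517717, 1855597092⟩
  | _ => ⟨0, 0, 0, 0⟩

def cPF : ℕ → E4 := fun l => match l with
  | 0 => ⟨1670670672, 1493031919, 1961663831, 1734072507⟩
  | 1 => ⟨1502944033, 1320614549, 1732264883, 1511362037⟩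
  | 2 => ⟨1549807588, 1327634867, 1724273664, 1466815612⟩
  | 3 => ⟨1891143500, 1595261650, 2022064725, 1702681450⟩
  | _ => ⟨0, 0, 0, 0⟩

def cu : EhN := ⟨kK, tT, clo, chi, clo1, cJ0, cJ1, cF0, cF1, cHm0, cHm1, cHp, ctg, cML, cPL, cMF, cPF⟩

def ctn : ℕ → ℤ := fun l => match l with
  | 0 => 0
  | 1 => 0
  | 2 => 0
  | 3 => 0
  | 4 => 0
  | 5 => 76
  | _ => 0

noncomputable def ch : Ehk := SC.F.xc SC14.c RecK.rk SK14.e cu

theorem ccd : ch.cd.ck q = true := by decide +kernel
theorem cLS : (ch.L false (RTab.rr RT.kCL 14)).ckS q = true := by decide +kernel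
theorem cLT : (ch.L false (RTab.rr RT.kCL 14)).ckT q = true := by decide +kernel
theorem cFS : (ch.F false (RTab.rr RT.kCF 14)).ckS q = true := by decide +kernel
theorem cFT : (ch.F false (RTab.rr RT.kCF 14)).ckT q = true := by decide +kernel
theorem cj : ch.ckJ q.n dj 23507653 28830127 = true := by decide +kernel
theorem cms : ch.msB q.n = true := by decide +kernel
theorem cnl : ch.nck false q 23507653 28830127 5162477 ctn = true := by decide +kernel

/-- **the checks of the numbers** -/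
theorem cH : HCel ch q false dj 23507653 28830127 (RTab.rr RT.kCL 14) (RTab.rr RT.kCF 14) 14 :=
  ⟨⟨qo, ccd, rfl, rfl, rfl, cLS, cLT, cFS, cFT⟩, Ehk.msB_of cms, cj, fun h => absurd h (by decide)⟩

def rlo : ℕ → (ℕ → ℤ) := fun l => match l with
  | 0 => v6 7577345 10247744 8461780 1827686 (-3808520) 6794403
  | 1 => v6 2087564 4914402 4072867 292284 (-341239) 2428935
  | 2 => v6 480554 2076046 1739278 21471 527778 691635
  | 3 => v6 52331 510829 444093 (-2172) 290625 86004
  | _ => fun _ => 0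

def rhi : ℕ → (ℕ → ℤ) := fun l => match l with
  | 0 => v6 2087564 4914402 4072867 292284 57056 2428935
  | 1 => v6 480554 2076046 1739278 21471 637672 691635
  | 2 => v6 52331 510829 444093 (-2722) 379512 86004
  | 3 => v6 0 0 0 550 0 0
  | _ => fun _ => 0

def rlo1 : ℕ → ℤ := v6 6662382 9358854 7730295 1571786 (-3164257) 6066825

def rJ0 : ℕ → ℤ := fun l => match l with
  | 0 => 0
  | 1 => 160071
  | 2 => 364084
  | 3 => 869084
  | 4 => 2194676
  | _ => 0

def rJ1 : ℕ → ℤ := fun l => match l with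
  | 0 => 0
  | 1 => 151367
  | 2 => 348838
  | 3 => 731994
  | 4 => 1906206
  | _ => 0

def rF0 : ℕ → ℤ := fun l => match l with
  | 0 => 0
  | 1 => 244699
  | 2 => 512320
  | 3 => 1066964
  | 4 => 2431558
  | _ => 0

def rF1 : ℕ → ℤ := fun l => match l with
  | 0 => 0
  | 1 => 240606
  | 2 => 505151
  | 3 => 940654
  | 4 => 2155995
  | _ => 0

def rHm0 : ℕ → ℤ := fun l => match l with
  | 0 => 15844106
  | 1 => 12072085
  | 2 => 8155056
  | 3 => 4139745
  | _ => 0

def rHm1 : ℕ → ℤ := fun l => match l with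
  | 0 => 15204474
  | 1 => 12072085
  | 2 => 8155056
  | 3 => 4139745
  | _ => 0

def rHp : ℕ → ℤ := fun l => match l with
  | 0 => 12006314
  | 1 => 8117363
  | 2 => 4103954
  | 3 => 0
  | _ => 0

def rtg : ℕ → ℕ → ℤ := fun l => match l with
  | 0 => fun i => match i with | 0 => 21 | 1 => 16 | 2 => 22 | 3 => 19 | 4 => 81 | 5 => 0 | 6 => 81 | 7 => 0 | _ => 0
  | 1 => fun i => match i with | 0 => 22 | 1 => 19 | 2 => 15 | 3 => 8 | 4 => 81 | 5 => 81 | 6 => 58 | 7 => 46 | _ => 0
  | 2 => fun i => match i with | 0 => 15 | 1 => 8 | 2 => 0 | 3 => 0 | 4 => 22 | 5 => 18 | 6 => 8 | 7 => 0 | _ => 0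
  | 3 => fun i => match i with | 0 => 0 | 1 => 0 | 2 => 0 | 3 => 0 | 4 => 0 | 5 => 0 | 6 => 0 | 7 => 0 | _ => 0
  | _ => fun _ => 0

def rML : ℕ → E4 := fun l => match l with
  | 0 => ⟨709983252, 608927679, 749084803, 637946074⟩
  | 1 => ⟨781723987, 656828210, 824728890, 689487879⟩
  | 2 => ⟨977906984, 815773366, 1034600546, 860968112⟩
  | 3 => ⟨1326390050, 1106901750, 1408368884, 1173201734⟩
  | _ => ⟨0, 0, 0, 0⟩

def rPL : ℕ → E4 := fun l => match l with
  | 0 => ⟨781723987, 656828210, 824728890, 689487879⟩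
  | 1 => ⟨977906984, 815773366, 1034600546, 860968112⟩
  | 2 => ⟨1326390050, 1106901750, 1408368884, 1173201734⟩
  | 3 => ⟨1872924150, 1577460650, 1989382017, 1672757150⟩
  | _ => ⟨0, 0, 0, 0⟩

def rMF : ℕ → E4 := fun l => match l with
  | 0 => ⟨2319827270, 2027542942, 2486365671, 2169497877⟩
  | 1 => ⟨1898088741, 1696150690, 2020485859, 1802757797⟩
  | 2 => ⟨1825394554, 1599365135, 1932366091, 1687971428⟩
  | 3 => ⟨2042765100, 1752220300, 2164675809, 1852720150⟩
  | _ => ⟨0, 0, 0, 0⟩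

def rPF : ℕ → E4 := fun l => match l with
  | 0 => ⟨1825389292, 1617345771, 1941178155, 1717009422⟩
  | 1 => ⟨1615326382, 1417933463, 1710828147, 1493141000⟩
  | 2 => ⟨1627627011, 1395743401, 1719729704, 1471163156⟩
  | 3 => ⟨1901391000, 1603383550, 2019044800, 1699626492⟩
  | _ => ⟨0, 0, 0, 0⟩

def ru : EhN := ⟨kK, tT, rlo, rhi, rlo1, rJ0, rJ1, rF0, rF1, rHm0, rHm1, rHp, rtg, rML, rPL, rMF, rPF⟩

def rtn : ℕ → ℤ := fun l => match l with
  | 0 => 0
  | 1 => 0
  | 2 => 0
  | 3 => 0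
  | 4 => 0
  | 5 => 76
  | _ => 0

noncomputable def rh : Ehk := SC.F.xr SC14.c RecK.rk SK14.e ru

theorem rcd : rh.cd.ck q = true := by decide +kernel
theorem rLS : (rh.L false (RTab.rr RT.kRL 14)).ckS q = true := by decide +kernel
theorem rLT : (rh.L false (RTab.rr RT.kRL 14)).ckT q = true := by decide +kernel
theorem rFS : (rh.F false (RTab.rr RT.kRF 14)).ckS q = true := by decide +kernel
theorem rFT : (rh.F false (RTab.rr RT.kRF 14)).ckT q = true := by decide +kernel
theorem rj : rh.ckJ q.n dj 23507653 28830127 = true := by decide +kernel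
theorem rms : rh.msB q.n = true := by decide +kernel
theorem rnl : rh.nck false q 23507653 28830127 5162477 rtn = true := by decide +kernel

/-- **the checks of the numbers** -/
theorem rH : HCel rh q false dj 23507653 28830127 (RTab.rr RT.kRL 14) (RTab.rr RT.kRF 14) 14 :=
  ⟨⟨qo, rcd, rfl, rfl, rfl, rLS, rLT, rFS, rFT⟩, Ehk.msB_of rms, rj, fun h => absurd h (by decide)⟩

/-- **the pairs** -/
theorem pc : PCel ch rh q dj 23507653 28830127 RTab.rr 14 := ⟨cH, rH, rfl, rfl⟩

end Pool.Agent.RZ.RCO.EC14
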