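import Pool.Agent.RZ.RCO.EdG
import Pool.Agent.RZ.RCO.EdM
import Pool.Agent.RZ.RCO.SK15

/-! Generated: the end of the big cell 15, pairs (MP_73ccd0_lc). -/

set_option autoImplicit false
set_option maxRecDepth 100000

open Pool.Agent.RZ.RCO

namespace Pool.Agent.RZ.RCO.EC15

def qA : ℕ → ℤ := fun l => match l with
  | 0 => 0
  | 1 => 3930064
  | 2 => 7860128
  | 3 => 11790192
  | 4 => 15720256
  | _ => 0

def q : Ec0 := ⟨4, 15720256, 655011, qA, 0⟩

def djH : ℕ → ℕ := fun l => match l with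
  | 0 => 655011
  | 1 => 655010
  | 2 => 655011
  | 3 => 655011
  | 4 => 655010
  | 5 => 655011
  | 6 => 655011
  | 7 => 655010
  | 8 => 655011
  | 9 => 655011
  | 10 => 655010
  | 11 => 655011
  | 12 => 655011
  | 13 => 655010
  | 14 => 655011
  | 15 => 655011
  | 16 => 655010
  | 17 => 655011
  | 18 => 655011
  | 19 => 655010
  | 20 => 655011
  | 21 => 655011
  | 22 => 655010
  | 23 => 655011
  | _ => 0

def djR : ℕ → ℕ := fun l => match l with
  | 0 => 16777216
  | 1 => 16777216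
  | 2 => 16777216
  | 3 => 16777216
  | 4 => 16777216
  | 5 => 16777216
  | 6 => 16777216
  | 7 => 16777366
  | 8 => 16948306
  | 9 => 17094922
  | 10 => 17215254
  | 11 => 17314735
  | 12 => 17398463
  | 13 => 17471415
  | 14 => 17537970
  | 15 => 17603506
  | 16 => 17670653
  | 17 => 17738522
  | 18 => 17807641
  | 19 => 17876775
  | 20 => 17944518
  | 21 => 18009092
  | 22 => 18070379
  | 23 => 18132612
  | _ => 0

def djW : ℕ → ℕ := fun l => match l with
  | 0 => 20170701
  | 1 => 19983928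
  | 2 => 19803773
  | 3 => 19629819
  | 4 => 19461676
  | 5 => 19298975
  | 6 => 19141366
  | 7 => 18988520
  | 8 => 18840118
  | 9 => 18695137
  | 10 => 18552725
  | 11 => 18412896
  | 12 => 18275636
  | 13 => 18140880
  | 14 => 18008520
  | 15 => 17878413
  | 16 => 17750380
  | 17 => 17624217
  | 18 => 17499719
  | 19 => 17376687
  | 20 => 17254928
  | 21 => 17134264
  | 22 => 17014529
  | 23 => 16895563
  | _ => 0

def djK : ℕ → ℕ := fun l => match l with
  | 0 => 0
  | 1 => 6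
  | 2 => 12
  | 3 => 18
  | 4 => 24
  | _ => 0

def dj : Dj := ⟨24, djH, djR, djW, 4, djK, 655011⟩

def kK : ℕ → ℕ := fun l => match l with
  | 0 => 0
  | 1 => 6
  | 2 => 12
  | 3 => 18
  | 4 => 24
  | _ => 0

def tT : ℕ → ℤ := fun l => match l with
  | 0 => 0
  | 1 => 655011
  | 2 => 1310021
  | 3 => 1965032
  | 4 => 2620043
  | 5 => 3275053
  | 6 => 3930064
  | 7 => 4585075
  | 8 => 5240085
  | 9 => 5895096
  | 10 => 6550107
  | 11 => 7205117
  | 12 => 7860128
  | 13 => 8515139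
  | 14 => 9170149
  | 15 => 9825160
  | 16 => 10480171
  | 17 => 11135181
  | 18 => 11790192
  | 19 => 12445203
  | 20 => 13100213
  | 21 => 13755224
  | 22 => 14410235
  | 23 => 15065245
  | 24 => 15720256
  | _ => 0

theorem qo : q.ok = true := by decide +kernel
theorem djo : dj.ok = true := by decide +kernel
theorem djt : dj.tie 2048 SC15.c.D 744 0 2 3 4 5 3 = true := by decide +kernel
theorem djr : dj.rel q = true := by decide +kernel
theorem rel : q.Rel (RTab.tabq 1) 15 := Ec0.relB_of (by decide +kernel)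

def clo : ℕ → (ℕ → ℤ) := fun l => match l with
  | 0 => v6 5822335 20705953 18988649 (-2375781) (-2538000) 10453737
  | 1 => v6 1705982 7562089 6421125 (-691152) 48466 2812633
  | 2 => v6 416323 2612979 2186548 (-106432) 615913 717617
  | 3 => v6 48436 563978 487873 (-5224) 315792 88092
  | _ => fun _ => 0

def chi : ℕ → (ℕ → ℤ) := fun l => match l with
  | 0 => v6 1705982 7562089 6421125 (-631918) 356808 2812633
  | 1 => v6 416323 2612979 2186548 (-15351) 668030 717617
  | 2 => v6 48436 563978 487873 20106 395729 88092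
  | 3 => v6 0 0 0 3917 0 0
  | _ => fun _ => 0

def clo1 : ℕ → ℤ := v6 5136276 18515308 16894061 (-2085137) (-2055531) 9180220

def cJ0 : ℕ → ℤ := fun l => match l with
  | 0 => 0
  | 1 => 200865
  | 2 => 438764
  | 3 => 1051038
  | 4 => 2516300
  | _ => 0

def cJ1 : ℕ → ℤ := fun l => match l with
  | 0 => 0
  | 1 => 193719
  | 2 => 426291
  | 3 => 895751
  | 4 => 2206103
  | _ => 0

def cF0 : ℕ → ℤ := fun l => match l with
  | 0 => 0
  | 1 => 296181
  | 2 => 605108
  | 3 => 1272363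
  | 4 => 2780519
  | _ => 0

def cF1 : ℕ → ℤ := fun l => match l with
  | 0 => 0
  | 1 => 294413
  | 2 => 602022
  | 3 => 1129565
  | 4 => 2485233
  | _ => 0

def cHm0 : ℕ → ℤ := fun l => match l with
  | 0 => 16243394
  | 1 => 12382067
  | 2 => 8365545
  | 3 => 4247566
  | _ => 0

def cHm1 : ℕ → ℤ := fun l => match l with
  | 0 => 15588383
  | 1 => 12382067
  | 2 => 8365545
  | 3 => 4247566
  | _ => 0

def cHp : ℕ → ℤ := fun l => match l with
  | 0 => 12313330
  | 1 => 8326089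
  | 2 => 4210295
  | 3 => 0
  | _ => 0

def ctg : ℕ → ℕ → ℤ := fun l => match l with
  | 0 => fun i => match i with | 0 => 62 | 1 => 63 | 2 => 62 | 3 => 60 | 4 => 81 | 5 => 81 | 6 => 81 | 7 => 81 | _ => 0
  | 1 => fun i => match i with | 0 => 62 | 1 => 60 | 2 => 44 | 3 => 43 | 4 => 81 | 5 => 81 | 6 => 81 | 7 => 81 | _ => 0
  | 2 => fun i => match i with | 0 => 44 | 1 => 43 | 2 => 26 | 3 => 24 | 4 => 73 | 5 => 64 | 6 => 63 | 7 => 57 | _ => 0
  | 3 => fun i => match i with | 0 => 26 | 1 => 24 | 2 => 0 | 3 => 0 | 4 => 1 | 5 => 0 | 6 => 0 | 7 => 0 | _ => 0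
  | _ => fun _ => 0

def cML : ℕ → E4 := fun l => match l with
  | 0 => ⟨689517646, 585841854, 830771958, 699406367⟩
  | 1 => ⟨775589511, 646523891, 916831399, 756233730⟩
  | 2 => ⟨1013938133, 838055524, 1154242701, 946471355⟩
  | 3 => ⟨1433546449, 1188299364, 1572882648, 1295974628⟩
  | _ => ⟨0, 0, 0, 0⟩

def cPL : ℕ → E4 := fun l => match l with
  | 0 => ⟨775589511, 646523891, 916831399, 756233730⟩
  | 1 => ⟨1013938133, 838055524, 1154242701, 946471355⟩
  | 2 => ⟨1433546449, 1188299364, 1572882648, 1295974628⟩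
  | 3 => ⟨2095859950, 1749524700, 2228089292, 1856819092⟩
  | _ => ⟨0, 0, 0, 0⟩

def cMF : ℕ → E4 := fun l => match l with
  | 0 => ⟨2320234938, 2022959150, 2778483896, 2399643684⟩
  | 1 => ⟨1937361277, 1722574285, 2245600066, 1984251992⟩
  | 2 => ⟨1922888880, 1664252987, 2142934489, 1847165284⟩
  | 3 => ⟨2256211770, 1916846134, 2410285176, 2043038684⟩
  | _ => ⟨0, 0, 0, 0⟩

def cPF : ℕ → E4 := fun l => match l with
  | 0 => ⟨1837246229, 1622848363, 2174514526, 1898715688⟩
  | 1 => ⟨1653475355, 1438622462, 1917269338, 1655855364⟩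
  | 2 => ⟨1718543228, 1458059451, 1919929248, 1617029775⟩
  | 3 => ⟨2116815000, 1769825600, 2266188142, 1891317950⟩
  | _ => ⟨0, 0, 0, 0⟩

def cu : EhN := ⟨kK, tT, clo, chi, clo1, cJ0, cJ1, cF0, cF1, cHm0, cHm1, cHp, ctg, cML, cPL, cMF, cPF⟩

def ctn : ℕ → ℤ := fun l => match l with
  | 0 => 0
  | 1 => 0
  | 2 => 0
  | 3 => 0
  | 4 => 0
  | 5 => 76
  | _ => 0

noncomputable def ch : Ehk := SC.F.xc SC15.c RecK.rk SK15.e cu

theorem ccd : ch.cd.ck q = true := by decide +kernel
theorem cLS : (ch.L false (RTab.rr RT.kCL 15)).ckS q = true := by decide +kernel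
theorem cLT : (ch.L false (RTab.rr RT.kCL 15)).ckT q = true := by decide +kernel
theorem cFS : (ch.F false (RTab.rr RT.kCF 15)).ckS q = true := by decide +kernel
theorem cFT : (ch.F false (RTab.rr RT.kCF 15)).ckT q = true := by decide +kernel
theorem cj : ch.ckJ q.n dj 25728798 31618724 = true := by decide +kernel
theorem cms : ch.msB q.n = true := by decide +kernel
theorem cnl : ch.nck false q 25728798 31618724 5700271 ctn = true := by decide +kernel

/-- **the checks of the numbers** -/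
theorem cH : HCel ch q false dj 25728798 31618724 (RTab.rr RT.kCL 15) (RTab.rr RT.kCF 15) 15 :=
  ⟨⟨qo, ccd, rfl, rfl, rfl, cLS, cLT, cFS, cFT⟩, Ehk.msB_of cms, cj, fun h => absurd h (by decide)⟩

def rlo : ℕ → (ℕ → ℤ) := fun l => match l with
  | 0 => v6 8687633 11091265 9138069 2366916 (-4267575) 7552392
  | 1 => v6 2312048 5216697 4307897 386583 (-368619) 2646117
  | 2 => v6 524867 2190728 1827432 36026 575892 749273
  | 3 => v6 56730 538025 465982 (-1461) 314590 92960
  | _ => fun _ => 0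

def rhi : ℕ → (ℕ → ℤ) := fun l => match l with
  | 0 => v6 2312048 5216697 4307897 386583 119556 2646117
  | 1 => v6 524867 2190728 1827432 36026 699641 749273
  | 2 => v6 56730 538025 465982 (-1691) 410325 92960
  | 3 => v6 0 0 0 230 0 0
  | _ => fun _ => 0

def rlo1 : ℕ → ℤ := v6 7625035 10112170 8333040 2036861 (-3536386) 6734680

def rJ0 : ℕ → ℤ := fun l => match l with
  | 0 => 0
  | 1 => 200865
  | 2 => 438764
  | 3 => 1051038
  | 4 => 2516300
  | _ => 0

def rJ1 : ℕ → ℤ := fun l => match l with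
  | 0 => 0
  | 1 => 193719
  | 2 => 426291
  | 3 => 895751
  | 4 => 2206103
  | _ => 0

def rF0 : ℕ → ℤ := fun l => match l with
  | 0 => 0
  | 1 => 296181
  | 2 => 605108
  | 3 => 1272363
  | 4 => 2780519
  | _ => 0

def rF1 : ℕ → ℤ := fun l => match l with
  | 0 => 0
  | 1 => 294413
  | 2 => 602022
  | 3 => 1129565
  | 4 => 2485233
  | _ => 0

def rHm0 : ℕ → ℤ := fun l => match l with
  | 0 => 16243394
  | 1 => 12382067
  | 2 => 8365545
  | 3 => 4247566
  | _ => 0

def rHm1 : ℕ → ℤ := fun l => match l with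
  | 0 => 15588383
  | 1 => 12382067
  | 2 => 8365545
  | 3 => 4247566
  | _ => 0

def rHp : ℕ → ℤ := fun l => match l with
  | 0 => 12313330
  | 1 => 8326089
  | 2 => 4210295
  | 3 => 0
  | _ => 0

def rtg : ℕ → ℕ → ℤ := fun l => match l with
  | 0 => fun i => match i with | 0 => 33 | 1 => 0 | 2 => 29 | 3 => 12 | 4 => 81 | 5 => 0 | 6 => 81 | 7 => 0 | _ => 0
  | 1 => fun i => match i with | 0 => 29 | 1 => 12 | 2 => 22 | 3 => 17 | 4 => 81 | 5 => 0 | 6 => 63 | 7 => 0 | _ => 0
  | 2 => fun i => match i with | 0 => 22 | 1 => 17 | 2 => 5 | 3 => 0 | 4 => 27 | 5 => 9 | 6 => 18 | 7 => 9 | _ => 0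
  | 3 => fun i => match i with | 0 => 5 | 1 => 0 | 2 => 0 | 3 => 0 | 4 => 0 | 5 => 0 | 6 => 0 | 7 => 0 | _ => 0
  | _ => fun _ => 0

def rML : ℕ → E4 := fun l => match l with
  | 0 => ⟨783950904, 666511763, 828775774, 699236880⟩
  | 1 => ⟨864955045, 720692330, 916254100, 757435863⟩
  | 2 => ⟨1086614534, 898702663, 1152310687, 949510011⟩
  | 3 => ⟨1480856581, 1224638935, 1573709416, 1299126251⟩
  | _ => ⟨0, 0, 0, 0⟩

def rPL : ℕ → E4 := fun l => match l with
  | 0 => ⟨864955045, 720692330, 916254100, 757435863⟩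
  | 1 => ⟨1086614534, 898702663, 1152310687, 949510011⟩
  | 2 => ⟨1480856581, 1224638935, 1573709416, 1299126251⟩
  | 3 => ⟨2095859950, 1749524700, 2228089292, 1856819092⟩
  | _ => ⟨0, 0, 0, 0⟩

def rMF : ℕ → E4 := fun l => match l with
  | 0 => ⟨2566526831, 2220991630, 2754016277, 2379460332⟩
  | 1 => ⟨2081420923, 1842299039, 2218514212, 1960529196⟩
  | 2 => ⟨2004134751, 1739355088, 2129789603, 1838091704⟩
  | 3 => ⟨2269127850, 1927101450, 2407315475, 2040036009⟩
  | _ => ⟨0, 0, 0, 0⟩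

def rPF : ℕ → E4 := fun l => match l with
  | 0 => ⟨2020589372, 1768423565, 2152035309, 1880189344⟩
  | 1 => ⟨1784593412, 1546240496, 1893080256, 1634938060⟩
  | 2 => ⟨1804987332, 1533423212, 1909508172, 1618273335⟩
  | 3 => ⟨2129320850, 1779670050, 2263024934, 1888121067⟩
  | _ => ⟨0, 0, 0, 0⟩

def ru : EhN := ⟨kK, tT, rlo, rhi, rlo1, rJ0, rJ1, rF0, rF1, rHm0, rHm1, rHp, rtg, rML, rPL, rMF, rPF⟩

def rtn : ℕ → ℤ := fun l => match l with
  | 0 => 0
  | 1 => 0
  | 2 => 0
  | 3 => 0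
  | 4 => 0
  | 5 => 76
  | _ => 0

noncomputable def rh : Ehk := SC.F.xr SC15.c RecK.rk SK15.e ru

theorem rcd : rh.cd.ck q = true := by decide +kernel
theorem rLS : (rh.L false (RTab.rr RT.kRL 15)).ckS q = true := by decide +kernel
theorem rLT : (rh.L false (RTab.rr RT.kRL 15)).ckT q = true := by decide +kernel
theorem rFS : (rh.F false (RTab.rr RT.kRF 15)).ckS q = true := by decide +kernel
theorem rFT : (rh.F false (RTab.rr RT.kRF 15)).ckT q = true := by decide +kernel
theorem rj : rh.ckJ q.n dj 25728798 31618724 = true := by decide +kernel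
theorem rms : rh.msB q.n = true := by decide +kernel
theorem rnl : rh.nck false q 25728798 31618724 5700271 rtn = true := by decide +kernel

/-- **the checks of the numbers** -/
theorem rH : HCel rh q false dj 25728798 31618724 (RTab.rr RT.kRL 15) (RTab.rr RT.kRF 15) 15 :=
  ⟨⟨qo, rcd, rfl, rfl, rfl, rLS, rLT, rFS, rFT⟩, Ehk.msB_of rms, rj, fun h => absurd h (by decide)⟩

/-- **the pairs** -/
theorem pc : PCel ch rh q dj 25728798 31618724 RTab.rr 15 := ⟨cH, rH, rfl, rfl⟩

end Pool.Agent.RZ.RCO.EC15
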