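import Pool.Agent.RZ.RCO.EdG
import Pool.Agent.RZ.RCO.EdM
import Pool.Agent.RZ.RCO.SK16

/-! Generated: the end of the big cell 16, pairs (MP_73ccd0_lc). -/

set_option autoImplicit false
set_option maxRecDepth 100000

open Pool.Agent.RZ.RCO

namespace Pool.Agent.RZ.RCO.EC16

def qA : ℕ → ℤ := fun l => match l with
  | 0 => 0
  | 1 => 4009760
  | 2 => 8019520
  | 3 => 12029264
  | 4 => 16039024
  | _ => 0

def q : Ec0 := ⟨4, 16039024, 668293, qA, 0⟩

def djH : ℕ → ℕ := fun l => match l with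
  | 0 => 668293
  | 1 => 668294
  | 2 => 668293
  | 3 => 668293
  | 4 => 668294
  | 5 => 668293
  | 6 => 668293
  | 7 => 668294
  | 8 => 668293
  | 9 => 668293
  | 10 => 668294
  | 11 => 668293
  | 12 => 668291
  | 13 => 668290
  | 14 => 668291
  | 15 => 668291
  | 16 => 668290
  | 17 => 668291
  | 18 => 668293
  | 19 => 668294
  | 20 => 668293
  | 21 => 668293
  | 22 => 668294
  | 23 => 668293
  | _ => 0

def djR : ℕ → ℕ := fun l => match l with
  | 0 => 16777216
  | 1 => 16777216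
  | 2 => 16777216
  | 3 => 16777216
  | 4 => 16777216
  | 5 => 16777216
  | 6 => 16777216
  | 7 => 16802821
  | 8 => 16977744
  | 9 => 17121409
  | 10 => 17239228
  | 11 => 17336464
  | 12 => 17418610
  | 13 => 17490819
  | 14 => 17557511
  | 15 => 17625271
  | 16 => 17693934
  | 17 => 17763542
  | 18 => 17834637
  | 19 => 17904619
  | 20 => 17972782
  | 21 => 18037549
  | 22 => 18099070
  | 23 => 18164940
  | _ => 0

def djW : ℕ → ℕ := fun l => match l with
  | 0 => 20271915
  | 1 => 20077683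
  | 2 => 19890574
  | 3 => 19710134
  | 4 => 19535933
  | 5 => 19367570
  | 6 => 19204664
  | 7 => 19046859
  | 8 => 18893689
  | 9 => 18744076
  | 10 => 18597261
  | 11 => 18453272
  | 12 => 18312079
  | 13 => 18173600
  | 14 => 18037705
  | 15 => 17904228
  | 16 => 17772964
  | 17 => 17643690
  | 18 => 17516186
  | 19 => 17390240
  | 20 => 17265648
  | 21 => 17142225
  | 22 => 17019791
  | 23 => 16898180
  | _ => 0

def djK : ℕ → ℕ := fun l => match l with
  | 0 => 0
  | 1 => 6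
  | 2 => 12
  | 3 => 18
  | 4 => 24
  | _ => 0

def dj : Dj := ⟨24, djH, djR, djW, 4, djK, 668293⟩

def kK : ℕ → ℕ := fun l => match l with
  | 0 => 0
  | 1 => 6
  | 2 => 12
  | 3 => 18
  | 4 => 24
  | _ => 0

def tT : ℕ → ℤ := fun l => match l with
  | 0 => 0
  | 1 => 668293
  | 2 => 1336587
  | 3 => 2004880
  | 4 => 2673173
  | 5 => 3341467
  | 6 => 4009760
  | 7 => 4678053
  | 8 => 5346347
  | 9 => 6014640
  | 10 => 6682933
  | 11 => 7351227
  | 12 => 8019520
  | 13 => 8687811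
  | 14 => 9356101
  | 15 => 10024392
  | 16 => 10692683
  | 17 => 11360973
  | 18 => 12029264
  | 19 => 12697557
  | 20 => 13365851
  | 21 => 14034144
  | 22 => 14702437
  | 23 => 15370731
  | 24 => 16039024
  | _ => 0

theorem qo : q.ok = true := by decide +kernel
theorem djo : dj.ok = true := by decide +kernel
theorem djt : dj.tie 2048 SC16.c.D 744 0 2 3 4 5 3 = true := by decide +kernel
theorem djr : dj.rel q = true := by decide +kernel
theorem rel : q.Rel (RTab.tabq 1) 16 := Ec0.relB_of (by decide +kernel)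

def clo : ℕ → (ℕ → ℤ) := fun l => match l with
  | 0 => v6 6513315 22820124 21109152 (-2538726) (-2773152) 11870818
  | 1 => v6 1848707 8077877 6869471 (-717860) 32206 3065350
  | 2 => v6 446527 2755160 2299983 (-107747) 656051 769956
  | 3 => v6 51680 590532 509316 (-4930) 337047 94063
  | _ => fun _ => 0

def chi : ℕ → (ℕ → ℤ) := fun l => match l with
  | 0 => v6 1848707 8077877 6869471 (-641744) 377174 3065350
  | 1 => v6 446527 2755160 2299983 (-8162) 708162 769956
  | 2 => v6 51680 590532 509316 21646 423801 94063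
  | 3 => v6 0 0 0 3820 0 0
  | _ => fun _ => 0

def clo1 : ℕ → ℤ := v6 5735881 20363085 18735874 (-2222562) (-2248097) 10403241

def cJ0 : ℕ → ℤ := fun l => match l with
  | 0 => 0
  | 1 => 241393
  | 2 => 512212
  | 3 => 1222227
  | 4 => 2812540
  | _ => 0

def cJ1 : ℕ → ℤ := fun l => match l with
  | 0 => 0
  | 1 => 235999
  | 2 => 502827
  | 3 => 1054869
  | 4 => 2487449
  | _ => 0

def cF0 : ℕ → ℤ := fun l => match l with
  | 0 => 0
  | 1 => 349124
  | 2 => 699819
  | 3 => 1469989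
  | 4 => 3106949
  | _ => 0

def cF1 : ℕ → ℤ := fun l => match l with
  | 0 => 0
  | 1 => 349995
  | 2 => 701389
  | 3 => 1317084
  | 4 => 2799024
  | _ => 0

def cHm0 : ℕ → ℤ := fun l => match l with
  | 0 => 16589851
  | 1 => 12650354
  | 2 => 8548024
  | 3 => 4341427
  | _ => 0

def cHm1 : ℕ → ℤ := fun l => match l with
  | 0 => 15921558
  | 1 => 12650354
  | 2 => 8548024
  | 3 => 4341427
  | _ => 0

def cHp : ℕ → ℤ := fun l => match l with
  | 0 => 12580091
  | 1 => 8506933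
  | 2 => 4302548
  | 3 => 0
  | _ => 0

def ctg : ℕ → ℕ → ℤ := fun l => match l with
  | 0 => fun i => match i with | 0 => 68 | 1 => 72 | 2 => 65 | 3 => 64 | 4 => 81 | 5 => 81 | 6 => 81 | 7 => 81 | _ => 0
  | 1 => fun i => match i with | 0 => 65 | 1 => 64 | 2 => 55 | 3 => 48 | 4 => 81 | 5 => 81 | 6 => 81 | 7 => 81 | _ => 0
  | 2 => fun i => match i with | 0 => 55 | 1 => 48 | 2 => 35 | 3 => 32 | 4 => 81 | 5 => 80 | 6 => 70 | 7 => 64 | _ => 0
  | 3 => fun i => match i with | 0 => 35 | 1 => 32 | 2 => 0 | 3 => 0 | 4 => 12 | 5 => 0 | 6 => 7 | 7 => 0 | _ => 0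
  | _ => fun _ => 0

def cML : ℕ → E4 := fun l => match l with
  | 0 => ⟨751896552, 633437811, 911292000, 760698367⟩
  | 1 => ⟨849897858, 698318961, 1008920405, 825058411⟩
  | 2 => ⟨1114464889, 911960009, 1272648120, 1032733040⟩
  | 3 => ⟨1582260630, 1300014078, 1739417899, 1419790111⟩
  | _ => ⟨0, 0, 0, 0⟩

def cPL : ℕ → E4 := fun l => match l with
  | 0 => ⟨849897858, 698318961, 1008920405, 825058411⟩
  | 1 => ⟨1114464889, 911960009, 1272648120, 1032733040⟩
  | 2 => ⟨1582260630, 1300014078, 1739417899, 1419790111⟩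
  | 3 => ⟨2321947725, 1917518300, 2469938800, 2036594225⟩
  | _ => ⟨0, 0, 0, 0⟩

def cMF : ℕ → E4 := fun l => match l with
  | 0 => ⟨2532808998, 2187114924, 3054537682, 2611984005⟩
  | 1 => ⟨2098354871, 1848655109, 2445165851, 2140248595⟩
  | 2 => ⟨2095694489, 1796042143, 2344414169, 2000930344⟩
  | 3 => ⟨2484756896, 2086680225, 2658094228, 2227054516⟩
  | _ => ⟨0, 0, 0, 0⟩

def cPF : ℕ → E4 := fun l => match l with
  | 0 => ⟨2007948584, 1752684092, 2393686104, 2064227183⟩
  | 1 => ⟨1803948157, 1554283346, 2102906383, 1798024077⟩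
  | 2 => ⟨1889812548, 1582384895, 2118203142, 1766941508⟩
  | 3 => ⟨2346528163, 1940732351, 2514611956, 2076146589⟩
  | _ => ⟨0, 0, 0, 0⟩

def cu : EhN := ⟨kK, tT, clo, chi, clo1, cJ0, cJ1, cF0, cF1, cHm0, cHm1, cHp, ctg, cML, cPL, cMF, cPF⟩

def ctn : ℕ → ℤ := fun l => match l with
  | 0 => 0
  | 1 => 0
  | 2 => 0
  | 3 => 0
  | 4 => 0
  | 5 => 76
  | _ => 0

noncomputable def ch : Ehk := SC.F.xc SC16.c RecK.rk SK16.e cu

theorem ccd : ch.cd.ck q = true := by decide +kernel
theorem cLS : (ch.L false (RTab.rr RT.kCL 16)).ckS q = true := by decide +kernel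
theorem cLT : (ch.L false (RTab.rr RT.kCL 16)).ckT q = true := by decide +kernel
theorem cFS : (ch.F false (RTab.rr RT.kCF 16)).ckS q = true := by decide +kernel
theorem cFT : (ch.F false (RTab.rr RT.kCF 16)).ckT q = true := by decide +kernel
theorem cj : ch.ckJ q.n dj 27906194 34351436 = true := by decide +kernel
theorem cms : ch.msB q.n = true := by decide +kernel
theorem cnl : ch.nck false q 27906194 34351436 6224404 ctn = true := by decide +kernel

/-- **the checks of the numbers** -/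
theorem cH : HCel ch q false dj 27906194 34351436 (RTab.rr RT.kCL 16) (RTab.rr RT.kCF 16) 16 :=
  ⟨⟨qo, ccd, rfl, rfl, rfl, cLS, cLT, cFS, cFT⟩, Ehk.msB_of cms, cj, fun h => absurd h (by decide)⟩

def rlo : ℕ → (ℕ → ℤ) := fun l => match l with
  | 0 => v6 9807102 11897990 9780947 2941258 (-4690785) 8288759
  | 1 => v6 2523965 5491333 4519879 481832 (-385430) 2847660
  | 2 => v6 565773 2293046 1905588 50639 622496 801891
  | 3 => v6 60750 562207 485323 (-610) 336725 99292
  | _ => fun _ => 0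

def rhi : ℕ → (ℕ → ℤ) := fun l => match l with
  | 0 => v6 2523965 5491333 4519879 481832 200250 2847660
  | 1 => v6 565773 2293046 1905588 50639 758965 801891
  | 2 => v6 60750 562207 485323 (-624) 438467 99292
  | 3 => v6 0 0 0 14 0 0
  | _ => fun _ => 0

def rlo1 : ℕ → ℤ := v6 8593247 10830215 8904103 2531354 (-3875612) 7381910

def rJ0 : ℕ → ℤ := fun l => match l with
  | 0 => 0
  | 1 => 241393
  | 2 => 512212
  | 3 => 1222227
  | 4 => 2812540
  | _ => 0

def rJ1 : ℕ → ℤ := fun l => match l with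
  | 0 => 0
  | 1 => 235999
  | 2 => 502827
  | 3 => 1054869
  | 4 => 2487449
  | _ => 0

def rF0 : ℕ → ℤ := fun l => match l with
  | 0 => 0
  | 1 => 349124
  | 2 => 699819
  | 3 => 1469989
  | 4 => 3106949
  | _ => 0

def rF1 : ℕ → ℤ := fun l => match l with
  | 0 => 0
  | 1 => 349995
  | 2 => 701389
  | 3 => 1317084
  | 4 => 2799024
  | _ => 0

def rHm0 : ℕ → ℤ := fun l => match l with
  | 0 => 16589851
  | 1 => 12650354
  | 2 => 8548024
  | 3 => 4341427
  | _ => 0

def rHm1 : ℕ → ℤ := fun l => match l with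
  | 0 => 15921558
  | 1 => 12650354
  | 2 => 8548024
  | 3 => 4341427
  | _ => 0

def rHp : ℕ → ℤ := fun l => match l with
  | 0 => 12580091
  | 1 => 8506933
  | 2 => 4302548
  | 3 => 0
  | _ => 0

def rtg : ℕ → ℕ → ℤ := fun l => match l with
  | 0 => fun i => match i with | 0 => 42 | 1 => 0 | 2 => 39 | 3 => 0 | 4 => 81 | 5 => 0 | 6 => 81 | 7 => 0 | _ => 0
  | 1 => fun i => match i with | 0 => 39 | 1 => 0 | 2 => 25 | 3 => 5 | 4 => 81 | 5 => 0 | 6 => 68 | 7 => 0 | _ => 0
  | 2 => fun i => match i with | 0 => 25 | 1 => 5 | 2 => 15 | 3 => 1 | 4 => 36 | 5 => 20 | 6 => 22 | 7 => 0 | _ => 0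
  | 3 => fun i => match i with | 0 => 15 | 1 => 1 | 2 => 0 | 3 => 0 | 4 => 0 | 5 => 0 | 6 => 0 | 7 => 0 | _ => 0
  | _ => fun _ => 0

def rML : ℕ → E4 := fun l => match l with
  | 0 => ⟨859177753, 722888022, 909482443, 759260976⟩
  | 1 => ⟨949493164, 783219586, 1007102221, 824022520⟩
  | 2 => ⟨1194159531, 978899534, 1271850645, 1035146327⟩
  | 3 => ⟨1635297128, 1340175437, 1739046552, 1422736684⟩
  | _ => ⟨0, 0, 0, 0⟩

def rPL : ℕ → E4 := fun l => match l with
  | 0 => ⟨949493164, 783219586, 1007102221, 824022520⟩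
  | 1 => ⟨1194159531, 978899534, 1271850645, 1035146327⟩
  | 2 => ⟨1635297128, 1340175437, 1739046552, 1422736684⟩
  | 3 => ⟨2321947725, 1917518300, 2469938800, 2036594225⟩
  | _ => ⟨0, 0, 0, 0⟩

def rMF : ℕ → E4 := fun l => match l with
  | 0 => ⟨2819555086, 2415597171, 3028382045, 2590614808⟩
  | 1 => ⟨2264198989, 1985091746, 2415904458, 2114774362⟩
  | 2 => ⟨2186984400, 1876862250, 2326859791, 1985615662⟩
  | 3 => ⟨2499735342, 2098250450, 2654190309, 2223393167⟩
  | _ => ⟨0, 0, 0, 0⟩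

def rPF : ℕ → E4 := fun l => match l with
  | 0 => ⟨2221664387, 1920307757, 2369239421, 2044282111⟩
  | 1 => ⟨1954672186, 1675467800, 2076256090, 1775119691⟩
  | 2 => ⟨1984847201, 1667629874, 2105710326, 1761704265⟩
  | 3 => ⟨2361477092, 1952238600, 2511247000, 2072696259⟩
  | _ => ⟨0, 0, 0, 0⟩

def ru : EhN := ⟨kK, tT, rlo, rhi, rlo1, rJ0, rJ1, rF0, rF1, rHm0, rHm1, rHp, rtg, rML, rPL, rMF, rPF⟩

def rtn : ℕ → ℤ := fun l => match l with
  | 0 => 0
  | 1 => 0
  | 2 => 0
  | 3 => 0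
  | 4 => 0
  | 5 => 76
  | _ => 0

noncomputable def rh : Ehk := SC.F.xr SC16.c RecK.rk SK16.e ru

theorem rcd : rh.cd.ck q = true := by decide +kernel
theorem rLS : (rh.L false (RTab.rr RT.kRL 16)).ckS q = true := by decide +kernel
theorem rLT : (rh.L false (RTab.rr RT.kRL 16)).ckT q = true := by decide +kernel
theorem rFS : (rh.F false (RTab.rr RT.kRF 16)).ckS q = true := by decide +kernel
theorem rFT : (rh.F false (RTab.rr RT.kRF 16)).ckT q = true := by decide +kernel
theorem rj : rh.ckJ q.n dj 27906194 34351436 = true := by decide +kernel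
theorem rms : rh.msB q.n = true := by decide +kernel
theorem rnl : rh.nck false q 27906194 34351436 6224404 rtn = true := by decide +kernel

/-- **the checks of the numbers** -/
theorem rH : HCel rh q false dj 27906194 34351436 (RTab.rr RT.kRL 16) (RTab.rr RT.kRF 16) 16 :=
  ⟨⟨qo, rcd, rfl, rfl, rfl, rLS, rLT, rFS, rFT⟩, Ehk.msB_of rms, rj, fun h => absurd h (by decide)⟩

/-- **the pairs** -/
theorem pc : PCel ch rh q dj 27906194 34351436 RTab.rr 16 := ⟨cH, rH, rfl, rfl⟩

end Pool.Agent.RZ.RCO.EC16
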