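import Pool.Agent.RZ.RCO.EdG
import Pool.Agent.RZ.RCO.EdM
import Pool.Agent.RZ.RCO.SK17

/-! Generated: the end of the big cell 17, pairs (MP_73ccd0_lc). -/

set_option autoImplicit false
set_option maxRecDepth 100000

open Pool.Agent.RZ.RCO

namespace Pool.Agent.RZ.RCO.EC17

def qA : ℕ → ℤ := fun l => match l with
  | 0 => 0
  | 1 => 4081056
  | 2 => 8162112
  | 3 => 12243184
  | 4 => 16324240
  | _ => 0

def q : Ec0 := ⟨4, 16324240, 680176, qA, 0⟩

def djH : ℕ → ℕ := fun l => match l with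
  | 0 => 680176
  | 1 => 680176
  | 2 => 680176
  | 3 => 680176
  | 4 => 680176
  | 5 => 680176
  | 6 => 680176
  | 7 => 680176
  | 8 => 680176
  | 9 => 680176
  | 10 => 680176
  | 11 => 680176
  | 12 => 680179
  | 13 => 680178
  | 14 => 680179
  | 15 => 680179
  | 16 => 680178
  | 17 => 680179
  | 18 => 680176
  | 19 => 680176
  | 20 => 680176
  | 21 => 680176
  | 22 => 680176
  | 23 => 680176
  | _ => 0

def djR : ℕ → ℕ := fun l => match l with
  | 0 => 16777216
  | 1 => 16777216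
  | 2 => 16777216
  | 3 => 16777216
  | 4 => 16777216
  | 5 => 16777216
  | 6 => 16777216
  | 7 => 16829904
  | 8 => 17002906
  | 9 => 17144271
  | 10 => 17259817
  | 11 => 17355159
  | 12 => 17436057
  | 13 => 17507808
  | 14 => 17575301
  | 15 => 17644969
  | 16 => 17714865
  | 17 => 17786115
  | 18 => 17858400
  | 19 => 17929111
  | 20 => 17996910
  | 21 => 18061647
  | 22 => 18125180
  | 23 => 18196448
  | _ => 0

def djW : ℕ → ℕ := fun l => match l with
  | 0 => 20364343
  | 1 => 20163199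
  | 2 => 19969660
  | 3 => 19783230
  | 4 => 19603446
  | 5 => 19429874
  | 6 => 19262104
  | 7 => 19099750
  | 8 => 18942195
  | 9 => 18788329
  | 10 => 18637500
  | 11 => 18489725
  | 12 => 18344960
  | 13 => 18203102
  | 14 => 18064002
  | 15 => 17927473
  | 16 => 17793284
  | 17 => 17661197
  | 18 => 17530982
  | 19 => 17402411
  | 20 => 17275272
  | 21 => 17149371
  | 22 => 17024523
  | 23 => 16900539
  | _ => 0

def djK : ℕ → ℕ := fun l => match l with
  | 0 => 0
  | 1 => 6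
  | 2 => 12
  | 3 => 18
  | 4 => 24
  | _ => 0

def dj : Dj := ⟨24, djH, djR, djW, 4, djK, 680176⟩

def kK : ℕ → ℕ := fun l => match l with
  | 0 => 0
  | 1 => 6
  | 2 => 12
  | 3 => 18
  | 4 => 24
  | _ => 0

def tT : ℕ → ℤ := fun l => match l with
  | 0 => 0
  | 1 => 680176
  | 2 => 1360352
  | 3 => 2040528
  | 4 => 2720704
  | 5 => 3400880
  | 6 => 4081056
  | 7 => 4761232
  | 8 => 5441408
  | 9 => 6121584
  | 10 => 6801760
  | 11 => 7481936
  | 12 => 8162112
  | 13 => 8842291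
  | 14 => 9522469
  | 15 => 10202648
  | 16 => 10882827
  | 17 => 11563005
  | 18 => 12243184
  | 19 => 12923360
  | 20 => 13603536
  | 21 => 14283712
  | 22 => 14963888
  | 23 => 15644064
  | 24 => 16324240
  | _ => 0

theorem qo : q.ok = true := by decide +kernel
theorem djo : dj.ok = true := by decide +kernel
theorem djt : dj.tie 2048 SC17.c.D 744 0 2 3 4 5 3 = true := by decide +kernel
theorem djr : dj.rel q = true := by decide +kernel
theorem rel : q.Rel (RTab.tabq 1) 17 := Ec0.relB_of (by decide +kernel)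

def clo : ℕ → (ℕ → ℤ) := fun l => match l with
  | 0 => v6 7220915 24968360 23287564 (-2692565) (-3005266) 13350593
  | 1 => v6 1985756 8568827 7299128 (-740831) 11770 3311001
  | 2 => v6 474996 2887526 2405515 (-108347) 693701 819360
  | 3 => v6 54713 614944 528967 (-4630) 356908 99645
  | _ => fun _ => 0

def chi : ℕ → (ℕ → ℤ) := fun l => match l with
  | 0 => v6 1985756 8568827 7299128 (-645692) 391523 3311001
  | 1 => v6 474996 2887526 2405515 (-1198) 746774 819360
  | 2 => v6 54713 614944 528967 23022 450451 99645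
  | 3 => v6 0 0 0 3720 0 0
  | _ => fun _ => 0

def clo1 : ℕ → ℤ := v6 6348389 22235105 20622825 (-2351419) (-2439134) 11677328

def cJ0 : ℕ → ℤ := fun l => match l with
  | 0 => 0
  | 1 => 282695
  | 2 => 586377
  | 3 => 1395771
  | 4 => 3101476
  | _ => 0

def cJ1 : ℕ → ℤ := fun l => match l with
  | 0 => 0
  | 1 => 279267
  | 2 => 580430
  | 3 => 1212840
  | 4 => 2758490
  | _ => 0

def cF0 : ℕ → ℤ := fun l => match l with
  | 0 => 0
  | 1 => 408490
  | 2 => 816980
  | 3 => 1691964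
  | 4 => 3448255
  | _ => 0

def cF1 : ℕ → ℤ := fun l => match l with
  | 0 => 0
  | 1 => 412576
  | 2 => 825151
  | 3 => 1531236
  | 4 => 3130493
  | _ => 0

def cHm0 : ℕ → ℤ := fun l => match l with
  | 0 => 16900427
  | 1 => 12890793
  | 2 => 8711785
  | 3 => 4426285
  | _ => 0

def cHm1 : ℕ → ℤ := fun l => match l with
  | 0 => 16220251
  | 1 => 12890793
  | 2 => 8711785
  | 3 => 4426285
  | _ => 0

def cHp : ℕ → ℤ := fun l => match l with
  | 0 => 12819371
  | 1 => 8669152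
  | 2 => 4385297
  | 3 => 0
  | _ => 0

def ctg : ℕ → ℕ → ℤ := fun l => match l with
  | 0 => fun i => match i with | 0 => 81 | 1 => 78 | 2 => 72 | 3 => 72 | 4 => 81 | 5 => 81 | 6 => 81 | 7 => 81 | _ => 0
  | 1 => fun i => match i with | 0 => 72 | 1 => 72 | 2 => 63 | 3 => 56 | 4 => 81 | 5 => 81 | 6 => 81 | 7 => 81 | _ => 0
  | 2 => fun i => match i with | 0 => 63 | 1 => 56 | 2 => 44 | 3 => 41 | 4 => 81 | 5 => 81 | 6 => 81 | 7 => 78 | _ => 0
  | 3 => fun i => match i with | 0 => 44 | 1 => 41 | 2 => 0 | 3 => 0 | 4 => 22 | 5 => 0 | 6 => 18 | 7 => 0 | _ => 0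
  | _ => fun _ => 0

def cML : ℕ → E4 := fun l => match l with
  | 0 => ⟨815648067, 681376412, 993800409, 822388853⟩
  | 1 => ⟨924584611, 752942510, 1102315280, 893461184⟩
  | 2 => ⟨1217013721, 987191125, 1393790899, 1120368001⟩
  | 3 => ⟨1735987794, 1412995399, 1911505136, 1545071230⟩
  | _ => ⟨0, 0, 0, 0⟩

def cPL : ℕ → E4 := fun l => match l with
  | 0 => ⟨924584611, 752942510, 1102315280, 893461184⟩
  | 1 => ⟨1217013721, 987191125, 1393790899, 1120368001⟩
  | 2 => ⟨1735987794, 1412995399, 1911505136, 1545071230⟩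
  | 3 => ⟨2557291959, 2088667167, 2721426142, 2219594717⟩
  | _ => ⟨0, 0, 0, 0⟩

def cMF : ℕ → E4 := fun l => match l with
  | 0 => ⟨2756117227, 2356104688, 3345530327, 2831444686⟩
  | 1 => ⟨2262781067, 1974861508, 2649598958, 2296886300⟩
  | 2 => ⟨2275234841, 1930769083, 2552389888, 2156855600⟩
  | 3 => ⟨2724702774, 2262421613, 2918439994, 2417216633⟩
  | _ => ⟨0, 0, 0, 0⟩

def cPF : ℕ → E4 := fun l => match l with
  | 0 => ⟨2188353453, 1886576563, 2626178918, 2235593526⟩
  | 1 => ⟨1959388369, 1671673060, 2295077808, 1942569399⟩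
  | 2 => ⟨2066502830, 1713589328, 2323525490, 1919547266⟩
  | 3 => ⟨2587680250, 2117676985, 2775113831, 2267278234⟩
  | _ => ⟨0, 0, 0, 0⟩

def cu : EhN := ⟨kK, tT, clo, chi, clo1, cJ0, cJ1, cF0, cF1, cHm0, cHm1, cHp, ctg, cML, cPL, cMF, cPF⟩

def ctn : ℕ → ℤ := fun l => match l with
  | 0 => 0
  | 1 => 0
  | 2 => 20
  | 3 => 0
  | 4 => 0
  | 5 => 76
  | _ => 0

noncomputable def ch : Ehk := SC.F.xc SC17.c RecK.rk SK17.e cu

theorem ccd : ch.cd.ck q = true := by decide +kernel
theorem cLS : (ch.L false (RTab.rr RT.kCL 17)).ckS q = true := by decide +kernel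
theorem cLT : (ch.L false (RTab.rr RT.kCL 17)).ckT q = true := by decide +kernel
theorem cFS : (ch.F false (RTab.rr RT.kCF 17)).ckS q = true := by decide +kernel
theorem cFT : (ch.F false (RTab.rr RT.kCF 17)).ckT q = true := by decide +kernel
theorem cj : ch.ckJ q.n dj 30103564 37136517 = true := by decide +kernel
theorem cms : ch.msB q.n = true := by decide +kernel
theorem cnl : ch.nck false q 30103564 37136517 6748616 ctn = true := by decide +kernel

/-- **the checks of the numbers** -/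
theorem cH : HCel ch q false dj 30103564 37136517 (RTab.rr RT.kCL 17) (RTab.rr RT.kCF 17) 17 :=
  ⟨⟨qo, ccd, rfl, rfl, rfl, cLS, cLT, cFS, cFT⟩, Ehk.msB_of cms, cj, fun h => absurd h (by decide)⟩

def rlo : ℕ → (ℕ → ℤ) := fun l => match l with
  | 0 => v6 10963489 12691180 10410762 3561100 (-5129409) 9021916
  | 1 => v6 2729277 5747827 4717394 579814 (-406157) 3039436
  | 2 => v6 604538 2387170 1977261 65754 664684 851324
  | 3 => v6 64520 584357 502983 477 357054 105214
  | _ => fun _ => 0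

def rhi : ℕ → (ℕ → ℤ) := fun l => match l with
  | 0 => v6 2729277 5747827 4717394 579814 289087 3039436
  | 1 => v6 604538 2387170 1977261 65754 813477 851324
  | 2 => v6 64520 584357 502983 477 464717 105214
  | 3 => v6 0 0 0 0 0 0
  | _ => fun _ => 0

def rlo1 : ℕ → ℤ := v6 9591121 11533955 9461868 3064219 (-4226326) 8024836

def rJ0 : ℕ → ℤ := fun l => match l with
  | 0 => 0
  | 1 => 282695
  | 2 => 586377
  | 3 => 1395771
  | 4 => 3101476
  | _ => 0

def rJ1 : ℕ → ℤ := fun l => match l with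
  | 0 => 0
  | 1 => 279267
  | 2 => 580430
  | 3 => 1212840
  | 4 => 2758490
  | _ => 0

def rF0 : ℕ → ℤ := fun l => match l with
  | 0 => 0
  | 1 => 408490
  | 2 => 816980
  | 3 => 1691964
  | 4 => 3448255
  | _ => 0

def rF1 : ℕ → ℤ := fun l => match l with
  | 0 => 0
  | 1 => 412576
  | 2 => 825151
  | 3 => 1531236
  | 4 => 3130493
  | _ => 0

def rHm0 : ℕ → ℤ := fun l => match l with
  | 0 => 16900427
  | 1 => 12890793
  | 2 => 8711785
  | 3 => 4426285
  | _ => 0

def rHm1 : ℕ → ℤ := fun l => match l with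
  | 0 => 16220251
  | 1 => 12890793
  | 2 => 8711785
  | 3 => 4426285
  | _ => 0

def rHp : ℕ → ℤ := fun l => match l with
  | 0 => 12819371
  | 1 => 8669152
  | 2 => 4385297
  | 3 => 0
  | _ => 0

def rtg : ℕ → ℕ → ℤ := fun l => match l with
  | 0 => fun i => match i with | 0 => 50 | 1 => 0 | 2 => 47 | 3 => 0 | 4 => 81 | 5 => 0 | 6 => 81 | 7 => 0 | _ => 0
  | 1 => fun i => match i with | 0 => 47 | 1 => 0 | 2 => 33 | 3 => 0 | 4 => 81 | 5 => 0 | 6 => 75 | 7 => 0 | _ => 0
  | 2 => fun i => match i with | 0 => 33 | 1 => 0 | 2 => 22 | 3 => 0 | 4 => 43 | 5 => 0 | 6 => 24 | 7 => 0 | _ => 0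
  | 3 => fun i => match i with | 0 => 22 | 1 => 0 | 2 => 0 | 3 => 0 | 4 => 6 | 5 => 0 | 6 => 1 | 7 => 0 | _ => 0
  | _ => fun _ => 0

def rML : ℕ → E4 := fun l => match l with
  | 0 => ⟨935887194, 780309900, 991788827, 820353580⟩
  | 1 => ⟨1036835760, 847003957, 1100912370, 891886514⟩
  | 2 => ⟨1307929174, 1059919411, 1394443123, 1121704289⟩
  | 3 => ⟨1798369959, 1456149414, 1914842791, 1546832161⟩
  | _ => ⟨0, 0, 0, 0⟩

def rPL : ℕ → E4 := fun l => match l with
  | 0 => ⟨1036835760, 847003957, 1100912370, 891886514⟩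
  | 1 => ⟨1307929174, 1059919411, 1394443123, 1121704289⟩
  | 2 => ⟨1798369959, 1456149414, 1914842791, 1546832161⟩
  | 3 => ⟨2557291959, 2088667167, 2721426142, 2219594717⟩
  | _ => ⟨0, 0, 0, 0⟩

def rMF : ℕ → E4 := fun l => match l with
  | 0 => ⟨3086560884, 2616870937, 3317716890, 2808923908⟩
  | 1 => ⟨2451623136, 2128550948, 2618222169, 2269714531⟩
  | 2 => ⟨2376389108, 2018520248, 2531379315, 2138162702⟩
  | 3 => ⟨2740812619, 2274816432, 2911943666, 2412249440⟩
  | _ => ⟨0, 0, 0, 0⟩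

def rPF : ℕ → E4 := fun l => match l with
  | 0 => ⟨2435108367, 2077602183, 2599755059, 2214230723⟩
  | 1 => ⟨2130869452, 1807954775, 2266057928, 1917757515⟩
  | 2 => ⟨2171638838, 1806127003, 2310230490, 1909455064⟩
  | 3 => ⟨2603896462, 2130078207, 2770139021, 2262625689⟩
  | _ => ⟨0, 0, 0, 0⟩

def ru : EhN := ⟨kK, tT, rlo, rhi, rlo1, rJ0, rJ1, rF0, rF1, rHm0, rHm1, rHp, rtg, rML, rPL, rMF, rPF⟩

def rtn : ℕ → ℤ := fun l => match l with
  | 0 => 0
  | 1 => 0
  | 2 => 0
  | 3 => 0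
  | 4 => 0
  | 5 => 76
  | _ => 0

noncomputable def rh : Ehk := SC.F.xr SC17.c RecK.rk SK17.e ru

theorem rcd : rh.cd.ck q = true := by decide +kernel
theorem rLS : (rh.L false (RTab.rr RT.kRL 17)).ckS q = true := by decide +kernel
theorem rLT : (rh.L false (RTab.rr RT.kRL 17)).ckT q = true := by decide +kernel
theorem rFS : (rh.F false (RTab.rr RT.kRF 17)).ckS q = true := by decide +kernel
theorem rFT : (rh.F false (RTab.rr RT.kRF 17)).ckT q = true := by decide +kernel
theorem rj : rh.ckJ q.n dj 30103564 37136517 = true := by decide +kernel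
theorem rms : rh.msB q.n = true := by decide +kernel
theorem rnl : rh.nck false q 30103564 37136517 6748616 rtn = true := by decide +kernel

/-- **the checks of the numbers** -/
theorem rH : HCel rh q false dj 30103564 37136517 (RTab.rr RT.kRL 17) (RTab.rr RT.kRF 17) 17 :=
  ⟨⟨qo, rcd, rfl, rfl, rfl, rLS, rLT, rFS, rFT⟩, Ehk.msB_of rms, rj, fun h => absurd h (by decide)⟩

/-- **the pairs** -/
theorem pc : PCel ch rh q dj 30103564 37136517 RTab.rr 17 := ⟨cH, rH, rfl, rfl⟩

end Pool.Agent.RZ.RCO.EC17
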