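import Pool.Agent.RZ.RCO.EdG
import Pool.Agent.RZ.RCO.EdM
import Pool.Agent.RZ.RCO.SK18

/-! Generated: the end of the big cell 18, pairs (MP_73ccd0_lc). -/

set_option autoImplicit false
set_option maxRecDepth 100000

open Pool.Agent.RZ.RCO

namespace Pool.Agent.RZ.RCO.EC18

def qA : ℕ → ℤ := fun l => match l with
  | 0 => 0
  | 1 => 4139776
  | 2 => 8279552
  | 3 => 12419344
  | 4 => 16559120
  | _ => 0

def q : Ec0 := ⟨4, 16559120, 689963, qA, 0⟩

def djH : ℕ → ℕ := fun l => match l with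
  | 0 => 689963
  | 1 => 689962
  | 2 => 689963
  | 3 => 689963
  | 4 => 689962
  | 5 => 689963
  | 6 => 689963
  | 7 => 689962
  | 8 => 689963
  | 9 => 689963
  | 10 => 689962
  | 11 => 689963
  | 12 => 689965
  | 13 => 689966
  | 14 => 689965
  | 15 => 689965
  | 16 => 689966
  | 17 => 689965
  | 18 => 689963
  | 19 => 689962
  | 20 => 689963
  | 21 => 689963
  | 22 => 689962
  | 23 => 689963
  | _ => 0

def djR : ℕ → ℕ := fun l => match l with
  | 0 => 16777216
  | 1 => 16777216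
  | 2 => 16777216
  | 3 => 16777216
  | 4 => 16777216
  | 5 => 16777216
  | 6 => 16777216
  | 7 => 16851687
  | 8 => 17023043
  | 9 => 17162494
  | 10 => 17276201
  | 11 => 17370067
  | 12 => 17450062
  | 13 => 17521581
  | 14 => 17590153
  | 15 => 17660829
  | 16 => 17732177
  | 17 => 17804942
  | 18 => 17877833
  | 19 => 17949043
  | 20 => 18016686
  | 21 => 18081060
  | 22 => 18147427
  | 23 => 18225192
  | _ => 0

def djW : ℕ → ℕ := fun l => match l with
  | 0 => 20441837
  | 1 => 20234821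
  | 2 => 20035825
  | 3 => 19844322
  | 4 => 19659817
  | 5 => 19481848
  | 6 => 19309978
  | 7 => 19143797
  | 8 => 18982558
  | 9 => 18825124
  | 10 => 18670932
  | 11 => 18519993
  | 12 => 18372245
  | 13 => 18227571
  | 14 => 18085803
  | 15 => 17946733
  | 16 => 17810115
  | 17 => 17675694
  | 18 => 17543228
  | 19 => 17412482
  | 20 => 17283236
  | 21 => 17155288
  | 22 => 17028446
  | 23 => 16902500
  | _ => 0

def djK : ℕ → ℕ := fun l => match l with
  | 0 => 0
  | 1 => 6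
  | 2 => 12
  | 3 => 18
  | 4 => 24
  | _ => 0

def dj : Dj := ⟨24, djH, djR, djW, 4, djK, 689963⟩

def kK : ℕ → ℕ := fun l => match l with
  | 0 => 0
  | 1 => 6
  | 2 => 12
  | 3 => 18
  | 4 => 24
  | _ => 0

def tT : ℕ → ℤ := fun l => match l with
  | 0 => 0
  | 1 => 689963
  | 2 => 1379925
  | 3 => 2069888
  | 4 => 2759851
  | 5 => 3449813
  | 6 => 4139776
  | 7 => 4829739
  | 8 => 5519701
  | 9 => 6209664
  | 10 => 6899627
  | 11 => 7589589
  | 12 => 8279552
  | 13 => 8969517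
  | 14 => 9659483
  | 15 => 10349448
  | 16 => 11039413
  | 17 => 11729379
  | 18 => 12419344
  | 19 => 13109307
  | 20 => 13799269
  | 21 => 14489232
  | 22 => 15179195
  | 23 => 15869157
  | 24 => 16559120
  | _ => 0

theorem qo : q.ok = true := by decide +kernel
theorem djo : dj.ok = true := by decide +kernel
theorem djt : dj.tie 2048 SC18.c.D 744 0 2 3 4 5 3 = true := by decide +kernel
theorem djr : dj.rel q = true := by decide +kernel
theorem rel : q.Rel (RTab.tabq 1) 18 := Ec0.relB_of (by decide +kernel)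

def clo : ℕ → (ℕ → ℤ) := fun l => match l with
  | 0 => v6 7881985 26958927 25322290 (-2831702) (-3201244) 14748672
  | 1 => v6 2105847 8995544 7674462 (-760770) (-2288) 3527640
  | 2 => v6 499522 3000426 2495447 (-108775) 726539 861770
  | 3 => v6 57308 635559 545505 (-4341) 373943 104426
  | _ => fun _ => 0

def chi : ℕ → (ℕ → ℤ) := fun l => match l with
  | 0 => v6 2105847 8995544 7674462 (-646859) 405368 3527640
  | 1 => v6 499522 3000426 2495447 4755 783527 861770
  | 2 => v6 57308 635559 545505 24287 472833 104426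
  | 3 => v6 0 0 0 3622 0 0
  | _ => fun _ => 0

def clo1 : ℕ → ℤ := v6 6919295 23965029 22380984 (-2467561) (-2600141) 12878500

def cJ0 : ℕ → ℤ := fun l => match l with
  | 0 => 0
  | 1 => 321587
  | 2 => 655636
  | 3 => 1553388
  | 4 => 3357087
  | _ => 0

def cJ1 : ℕ → ℤ := fun l => match l with
  | 0 => 0
  | 1 => 320159
  | 2 => 653164
  | 3 => 1362352
  | 4 => 3004260
  | _ => 0

def cF0 : ℕ → ℤ := fun l => match l with
  | 0 => 0
  | 1 => 463376
  | 2 => 926751
  | 3 => 1894493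
  | 4 => 3751928
  | _ => 0

def cF1 : ℕ → ℤ := fun l => match l with
  | 0 => 0
  | 1 => 470604
  | 2 => 941207
  | 3 => 1732014
  | 4 => 3430939
  | _ => 0

def cHm0 : ℕ → ℤ := fun l => match l with
  | 0 => 17156577
  | 1 => 13089168
  | 2 => 8847107
  | 3 => 4497064
  | _ => 0

def cHm1 : ℕ → ℤ := fun l => match l with
  | 0 => 16466614
  | 1 => 13089168
  | 2 => 8847107
  | 3 => 4497064
  | _ => 0

def cHp : ℕ → ℤ := fun l => match l with
  | 0 => 13016801
  | 1 => 8803106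
  | 2 => 4453722
  | 3 => 0
  | _ => 0

def ctg : ℕ → ℕ → ℤ := fun l => match l with
  | 0 => fun i => match i with | 0 => 81 | 1 => 81 | 2 => 81 | 3 => 78 | 4 => 81 | 5 => 81 | 6 => 81 | 7 => 81 | _ => 0
  | 1 => fun i => match i with | 0 => 81 | 1 => 78 | 2 => 63 | 3 => 62 | 4 => 81 | 5 => 81 | 6 => 81 | 7 => 81 | _ => 0
  | 2 => fun i => match i with | 0 => 63 | 1 => 62 | 2 => 44 | 3 => 41 | 4 => 81 | 5 => 81 | 6 => 81 | 7 => 81 | _ => 0
  | 3 => fun i => match i with | 0 => 44 | 1 => 41 | 2 => 8 | 3 => 0 | 4 => 22 | 5 => 0 | 6 => 22 | 7 => 0 | _ => 0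
  | _ => fun _ => 0

def cML : ℕ → E4 := fun l => match l with
  | 0 => ⟨875233978, 725404414, 1070500863, 878676926⟩
  | 1 => ⟨994441204, 803100459, 1189759574, 956366082⟩
  | 2 => ⟨1314346976, 1053845102, 1508315230, 1201721735⟩
  | 3 => ⟨1885606746, 1512424563, 2077856108, 1655362862⟩
  | _ => ⟨0, 0, 0, 0⟩

def cPL : ℕ → E4 := fun l => match l with
  | 0 => ⟨994441204, 803100459, 1189759574, 956366082⟩
  | 1 => ⟨1314346976, 1053845102, 1508315230, 1201721735⟩
  | 2 => ⟨1885606746, 1512424563, 2077856108, 1655362862⟩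
  | 3 => ⟨2778579260, 2248220330, 2957798458, 2390028615⟩
  | _ => ⟨0, 0, 0, 0⟩

def cMF : ℕ → E4 := fun l => match l with
  | 0 => ⟨2970421832, 2515018671, 3625507694, 3038449969⟩
  | 1 => ⟨2415792428, 2089906098, 2840338131, 2440070124⟩
  | 2 => ⟨2442601704, 2053784788, 2746437340, 2299361852⟩
  | 3 => ⟨2948546594, 2424398565, 3169495865, 2592321952⟩
  | _ => ⟨0, 0, 0, 0⟩

def cPF : ℕ → E4 := fun l => match l with
  | 0 => ⟨2362307869, 2012479943, 2851068196, 2397306636⟩
  | 1 => ⟨2104909130, 1779384200, 2475456354, 2075549747⟩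
  | 2 => ⟨2233336602, 1835672937, 2516379066, 2060456829⟩
  | 3 => ⟨2813750184, 2281676655, 3024580046, 2444305442⟩
  | _ => ⟨0, 0, 0, 0⟩

def cu : EhN := ⟨kK, tT, clo, chi, clo1, cJ0, cJ1, cF0, cF1, cHm0, cHm1, cHp, ctg, cML, cPL, cMF, cPF⟩

def ctn : ℕ → ℤ := fun l => match l with
  | 0 => 20
  | 1 => 0
  | 2 => 20
  | 3 => 0
  | 4 => 0
  | 5 => 76
  | _ => 0

noncomputable def ch : Ehk := SC.F.xc SC18.c RecK.rk SK18.e cu

theorem ccd : ch.cd.ck q = true := by decide +kernel
theorem cLS : (ch.L false (RTab.rr RT.kCL 18)).ckS q = true := by decide +kernel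
theorem cLT : (ch.L false (RTab.rr RT.kCL 18)).ckT q = true := by decide +kernel
theorem cFS : (ch.F false (RTab.rr RT.kCF 18)).ckS q = true := by decide +kernel
theorem cFT : (ch.F false (RTab.rr RT.kCF 18)).ckT q = true := by decide +kernel
theorem cj : ch.ckJ q.n dj 32162013 39674659 = true := by decide +kernel
theorem cms : ch.msB q.n = true := by decide +kernel
theorem cnl : ch.nck false q 32162013 39674659 7226165 ctn = true := by decide +kernel

/-- **the checks of the numbers** -/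
theorem cH : HCel ch q false dj 32162013 39674659 (RTab.rr RT.kCL 18) (RTab.rr RT.kCF 18) 18 :=
  ⟨⟨qo, ccd, rfl, rfl, rfl, cLS, cLT, cFS, cFT⟩, Ehk.msB_of cms, cj, fun h => absurd h (by decide)⟩

def rlo : ℕ → (ℕ → ℤ) := fun l => match l with
  | 0 => v6 12049268 13403663 10973635 4159919 (-5521160) 9686184
  | 1 => v6 2910399 5967245 4885867 668753 (-418262) 3205367
  | 2 => v6 638103 2466635 2037514 79261 702154 893569
  | 3 => v6 67760 603000 517782 1494 374590 110285
  | _ => fun _ => 0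

def rhi : ℕ → (ℕ → ℤ) := fun l => match l with
  | 0 => v6 2910399 5967245 4885867 668753 388384 3205367
  | 1 => v6 638103 2466635 2037514 79261 862413 893569
  | 2 => v6 67760 603000 517782 1494 486666 110285
  | 3 => v6 0 0 0 0 0 0
  | _ => fun _ => 0

def rlo1 : ℕ → ℤ := v6 10526123 12164260 9959007 3578058 (-4536235) 8606048

def rJ0 : ℕ → ℤ := fun l => match l with
  | 0 => 0
  | 1 => 321587
  | 2 => 655636
  | 3 => 1553388
  | 4 => 3357087
  | _ => 0

def rJ1 : ℕ → ℤ := fun l => match l with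
  | 0 => 0
  | 1 => 320159
  | 2 => 653164
  | 3 => 1362352
  | 4 => 3004260
  | _ => 0

def rF0 : ℕ → ℤ := fun l => match l with
  | 0 => 0
  | 1 => 463376
  | 2 => 926751
  | 3 => 1894493
  | 4 => 3751928
  | _ => 0

def rF1 : ℕ → ℤ := fun l => match l with
  | 0 => 0
  | 1 => 470604
  | 2 => 941207
  | 3 => 1732014
  | 4 => 3430939
  | _ => 0

def rHm0 : ℕ → ℤ := fun l => match l with
  | 0 => 17156577
  | 1 => 13089168
  | 2 => 8847107
  | 3 => 4497064
  | _ => 0

def rHm1 : ℕ → ℤ := fun l => match l with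
  | 0 => 16466614
  | 1 => 13089168
  | 2 => 8847107
  | 3 => 4497064
  | _ => 0

def rHp : ℕ → ℤ := fun l => match l with
  | 0 => 13016801
  | 1 => 8803106
  | 2 => 4453722
  | 3 => 0
  | _ => 0

def rtg : ℕ → ℕ → ℤ := fun l => match l with
  | 0 => fun i => match i with | 0 => 57 | 1 => 0 | 2 => 54 | 3 => 0 | 4 => 81 | 5 => 0 | 6 => 81 | 7 => 0 | _ => 0
  | 1 => fun i => match i with | 0 => 54 | 1 => 0 | 2 => 40 | 3 => 0 | 4 => 81 | 5 => 0 | 6 => 81 | 7 => 0 | _ => 0
  | 2 => fun i => match i with | 0 => 40 | 1 => 0 | 2 => 22 | 3 => 0 | 4 => 49 | 5 => 0 | 6 => 31 | 7 => 0 | _ => 0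
  | 3 => fun i => match i with | 0 => 22 | 1 => 0 | 2 => 8 | 3 => 0 | 4 => 13 | 5 => 0 | 6 => 9 | 7 => 0 | _ => 0
  | _ => fun _ => 0

def rML : ℕ → E4 := fun l => match l with
  | 0 => ⟨1007113920, 832622421, 1068210221, 876125570⟩
  | 1 => ⟨1118235199, 905699707, 1188252778, 954392671⟩
  | 2 => ⟨1414820756, 1135642851, 1509428562, 1202501126⟩
  | 3 => ⟨1950621577, 1563869071, 2082912720, 1661894169⟩
  | _ => ⟨0, 0, 0, 0⟩

def rPL : ℕ → E4 := fun l => match l with
  | 0 => ⟨1118235199, 905699707, 1188252778, 954392671⟩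
  | 1 => ⟨1414820756, 1135642851, 1509428562, 1202501126⟩
  | 2 => ⟨1950621577, 1563869071, 2082912720, 1661894169⟩
  | 3 => ⟨2778579260, 2248220330, 2957798458, 2390028615⟩
  | _ => ⟨0, 0, 0, 0⟩

def rMF : ℕ → E4 := fun l => match l with
  | 0 => ⟨3343534356, 2806703825, 3595966986, 3014724654⟩
  | 1 => ⟨2626633468, 2259725278, 2807038590, 2411361464⟩
  | 2 => ⟨2553551985, 2148908178, 2722522148, 2278198715⟩
  | 3 => ⟨2967934588, 2439164519, 3155095192, 2587891109⟩
  | _ => ⟨0, 0, 0, 0⟩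

def rPF : ℕ → E4 := fun l => match l with
  | 0 => ⟨2641586249, 2225969959, 2822677830, 2374539915⟩
  | 1 => ⟨2296578891, 1930032100, 2444521299, 2049205573⟩
  | 2 => ⟨2347499941, 1935052020, 2499136777, 2046939816⟩
  | 3 => ⟨2832056002, 2295443383, 3013715365, 2439102978⟩
  | _ => ⟨0, 0, 0, 0⟩

def ru : EhN := ⟨kK, tT, rlo, rhi, rlo1, rJ0, rJ1, rF0, rF1, rHm0, rHm1, rHp, rtg, rML, rPL, rMF, rPF⟩

def rtn : ℕ → ℤ := fun l => match l with
  | 0 => 20
  | 1 => 0
  | 2 => 20
  | 3 => 0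
  | 4 => 0
  | 5 => 76
  | _ => 0

noncomputable def rh : Ehk := SC.F.xr SC18.c RecK.rk SK18.e ru

theorem rcd : rh.cd.ck q = true := by decide +kernel
theorem rLS : (rh.L false (RTab.rr RT.kRL 18)).ckS q = true := by decide +kernel
theorem rLT : (rh.L false (RTab.rr RT.kRL 18)).ckT q = true := by decide +kernel
theorem rFS : (rh.F false (RTab.rr RT.kRF 18)).ckS q = true := by decide +kernel
theorem rFT : (rh.F false (RTab.rr RT.kRF 18)).ckT q = true := by decide +kernel
theorem rj : rh.ckJ q.n dj 32162013 39674659 = true := by decide +kernel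
theorem rms : rh.msB q.n = true := by decide +kernel
theorem rnl : rh.nck false q 32162013 39674659 7226165 rtn = true := by decide +kernel

/-- **the checks of the numbers** -/
theorem rH : HCel rh q false dj 32162013 39674659 (RTab.rr RT.kRL 18) (RTab.rr RT.kRF 18) 18 :=
  ⟨⟨qo, rcd, rfl, rfl, rfl, rLS, rLT, rFS, rFT⟩, Ehk.msB_of rms, rj, fun h => absurd h (by decide)⟩

/-- **the pairs** -/
theorem pc : PCel ch rh q dj 32162013 39674659 RTab.rr 18 := ⟨cH, rH, rfl, rfl⟩

end Pool.Agent.RZ.RCO.EC18
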