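import Pool.Agent.RZ.RCO.EdG
import Pool.Agent.RZ.RCO.EdM
import Pool.Agent.RZ.RCO.SK19

/-! Generated: the end of the big cell 19, pairs (MP_73ccd0_lc). -/

set_option autoImplicit false
set_option maxRecDepth 100000

open Pool.Agent.RZ.RCO

namespace Pool.Agent.RZ.RCO.EC19

def qA : ℕ → ℤ := fun l => match l with
  | 0 => 0
  | 1 => 4194304
  | 2 => 8388608
  | 3 => 12582912
  | 4 => 16777216
  | _ => 0

def q : Ec0 := ⟨4, 16777216, 699051, qA, 0⟩

def djH : ℕ → ℕ := fun l => match l with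
  | 0 => 699051
  | 1 => 699050
  | 2 => 699051
  | 3 => 699051
  | 4 => 699050
  | 5 => 699051
  | 6 => 699051
  | 7 => 699050
  | 8 => 699051
  | 9 => 699051
  | 10 => 699050
  | 11 => 699051
  | 12 => 699051
  | 13 => 699050
  | 14 => 699051
  | 15 => 699051
  | 16 => 699050
  | 17 => 699051
  | 18 => 699051
  | 19 => 699050
  | 20 => 699051
  | 21 => 699051
  | 22 => 699050
  | 23 => 699051
  | _ => 0

def djR : ℕ → ℕ := fun l => match l with
  | 0 => 16777216
  | 1 => 16777216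
  | 2 => 16777216
  | 3 => 16777216
  | 4 => 16777216
  | 5 => 16777216
  | 6 => 16777216
  | 7 => 16871495
  | 8 => 17041279
  | 9 => 17178943
  | 10 => 17290974
  | 11 => 17383542
  | 12 => 17462802
  | 13 => 17534225
  | 14 => 17604078
  | 15 => 17675761
  | 16 => 17748311
  | 17 => 17822467
  | 18 => 17895930
  | 19 => 17967441
  | 20 => 18035290
  | 21 => 18099862
  | 22 => 18169091
  | 23 => 18255000
  | _ => 0

def djW : ℕ → ℕ := fun l => match l with
  | 0 => 20514950
  | 1 => 20302334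
  | 2 => 20098143
  | 3 => 19901815
  | 4 => 19712827
  | 5 => 19530686
  | 6 => 19354932
  | 7 => 19185130
  | 8 => 19020407
  | 9 => 18859603
  | 10 => 18702243
  | 11 => 18548324
  | 12 => 18397773
  | 13 => 18250455
  | 14 => 18106185
  | 15 => 17964734
  | 16 => 17825839
  | 17 => 17689236
  | 18 => 17554667
  | 19 => 17421889
  | 20 => 17290677
  | 21 => 17160821
  | 22 => 17032118
  | 23 => 16904341
  | _ => 0

def djK : ℕ → ℕ := fun l => match l with
  | 0 => 0
  | 1 => 6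
  | 2 => 12
  | 3 => 18
  | 4 => 24
  | _ => 0

def dj : Dj := ⟨24, djH, djR, djW, 4, djK, 699051⟩

def kK : ℕ → ℕ := fun l => match l with
  | 0 => 0
  | 1 => 6
  | 2 => 12
  | 3 => 18
  | 4 => 24
  | _ => 0

def tT : ℕ → ℤ := fun l => match l with
  | 0 => 0
  | 1 => 699051
  | 2 => 1398101
  | 3 => 2097152
  | 4 => 2796203
  | 5 => 3495253
  | 6 => 4194304
  | 7 => 4893355
  | 8 => 5592405
  | 9 => 6291456
  | 10 => 6990507
  | 11 => 7689557
  | 12 => 8388608
  | 13 => 9087659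
  | 14 => 9786709
  | 15 => 10485760
  | 16 => 11184811
  | 17 => 11883861
  | 18 => 12582912
  | 19 => 13281963
  | 20 => 13981013
  | 21 => 14680064
  | 22 => 15379115
  | 23 => 16078165
  | 24 => 16777216
  | _ => 0

theorem qo : q.ok = true := by decide +kernel
theorem djo : dj.ok = true := by decide +kernel
theorem djt : dj.tie 2048 SC19.c.D 744 0 2 3 4 5 3 = true := by decide +kernel
theorem djr : dj.rel q = true := by decide +kernel
theorem rel : q.Rel (RTab.tabq 1) 19 := Ec0.relB_of (by decide +kernel)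

def clo : ℕ → (ℕ → ℤ) := fun l => match l with
  | 0 => v6 8569707 29019715 27446599 (-2967836) (-3390206) 16232469
  | 1 => v6 2223662 9410912 8041705 (-779310) (-14130) 3742081
  | 2 => v6 523217 3108547 2581547 (-108911) 758792 902752
  | 3 => v6 59803 655147 561162 (-4020) 390529 109019
  | _ => fun _ => 0

def chi : ℕ → (ℕ → ℤ) := fun l => match l with
  | 0 => v6 2223662 9410912 8041705 (-644896) 419174 3742081
  | 1 => v6 523217 3108547 2581547 10600 821111 902752
  | 2 => v6 59803 655147 561162 25532 494571 109019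
  | 3 => v6 0 0 0 3519 0 0
  | _ => fun _ => 0

def clo1 : ℕ → ℤ := v6 7512033 25751580 24212449 (-2580679) (-2755309) 14150737

def cJ0 : ℕ → ℤ := fun l => match l with
  | 0 => 0
  | 1 => 363261
  | 2 => 729060
  | 3 => 1711784
  | 4 => 3608755
  | _ => 0

def cJ1 : ℕ → ℤ := fun l => match l with
  | 0 => 0
  | 1 => 364117
  | 2 => 730544
  | 3 => 1513888
  | 4 => 3247592
  | _ => 0

def cF0 : ℕ → ℤ := fun l => match l with
  | 0 => 0
  | 1 => 521189
  | 2 => 1042378
  | 3 => 2100166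
  | 4 => 4054528
  | _ => 0

def cF1 : ℕ → ℤ := fun l => match l with
  | 0 => 0
  | 1 => 531884
  | 2 => 1063767
  | 3 => 1938680
  | 4 => 3733352
  | _ => 0

def cHm0 : ℕ → ℤ := fun l => match l with
  | 0 => 17394876
  | 1 => 13273814
  | 2 => 8973226
  | 3 => 4563750
  | _ => 0

def cHm1 : ℕ → ℤ := fun l => match l with
  | 0 => 16695825
  | 1 => 13273814
  | 2 => 8973226
  | 3 => 4563750
  | _ => 0

def cHp : ℕ → ℤ := fun l => match l with
  | 0 => 13200572
  | 1 => 8927928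
  | 2 => 4517609
  | 3 => 0
  | _ => 0

def ctg : ℕ → ℕ → ℤ := fun l => match l with
  | 0 => fun i => match i with | 0 => 81 | 1 => 81 | 2 => 81 | 3 => 81 | 4 => 81 | 5 => 81 | 6 => 81 | 7 => 81 | _ => 0
  | 1 => fun i => match i with | 0 => 81 | 1 => 81 | 2 => 68 | 3 => 64 | 4 => 81 | 5 => 81 | 6 => 81 | 7 => 81 | _ => 0
  | 2 => fun i => match i with | 0 => 68 | 1 => 64 | 2 => 51 | 3 => 48 | 4 => 81 | 5 => 81 | 6 => 81 | 7 => 81 | _ => 0
  | 3 => fun i => match i with | 0 => 51 | 1 => 48 | 2 => 15 | 3 => 0 | 4 => 28 | 5 => 0 | 6 => 24 | 7 => 0 | _ => 0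
  | _ => fun _ => 0

def cML : ℕ → E4 := fun l => match l with
  | 0 => ⟨936924175, 770098129, 1149833533, 935737089⟩
  | 1 => ⟨1067632869, 854793727, 1280849628, 1020642125⟩
  | 2 => ⟨1416679111, 1120837743, 1628516317, 1285428526⟩
  | 3 => ⟨2038445923, 1617934299, 2248624993, 1772377612⟩
  | _ => ⟨0, 0, 0, 0⟩

def cPL : ℕ → E4 := fun l => match l with
  | 0 => ⟨1067632869, 854793727, 1280849628, 1020642125⟩
  | 1 => ⟨1416679111, 1120837743, 1628516317, 1285428526⟩
  | 2 => ⟨2038445923, 1617934299, 2248624993, 1772377612⟩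
  | 3 => ⟨3011513242, 2412147376, 3206877271, 2565119380⟩
  | _ => ⟨0, 0, 0, 0⟩

def cMF : ℕ → E4 := fun l => match l with
  | 0 => ⟨3200570657, 2682104223, 3926834153, 3256665229⟩
  | 1 => ⟨2575168403, 2207231131, 3039433453, 2586418237⟩
  | 2 => ⟨2617100704, 2179333307, 2948946469, 2444956485⟩
  | 3 => ⟨3185665349, 2591996010, 3429557343, 2773529447⟩
  | _ => ⟨0, 0, 0, 0⟩

def cPF : ℕ → E4 := fun l => match l with
  | 0 => ⟨2550197745, 2145004803, 3094596348, 2568011741⟩
  | 1 => ⟨2257271323, 1889868752, 2664724341, 2212243825⟩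
  | 2 => ⟨2407577733, 1960666586, 2717842151, 2204708417⟩
  | 3 => ⟨3050900391, 2449588427, 3288381896, 2625562811⟩
  | _ => ⟨0, 0, 0, 0⟩

def cu : EhN := ⟨kK, tT, clo, chi, clo1, cJ0, cJ1, cF0, cF1, cHm0, cHm1, cHp, ctg, cML, cPL, cMF, cPF⟩

def ctn : ℕ → ℤ := fun l => match l with
  | 0 => 0
  | 1 => 20
  | 2 => 20
  | 3 => 20
  | 4 => 0
  | 5 => 76
  | _ => 0

noncomputable def ch : Ehk := SC.F.xc SC19.c RecK.rk SK19.e cu

theorem ccd : ch.cd.ck q = true := by decide +kernel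
theorem cLS : (ch.L false (RTab.rr RT.kCL 19)).ckS q = true := by decide +kernel
theorem cLT : (ch.L false (RTab.rr RT.kCL 19)).ckT q = true := by decide +kernel
theorem cFS : (ch.F false (RTab.rr RT.kCF 19)).ckS q = true := by decide +kernel
theorem cFT : (ch.F false (RTab.rr RT.kCF 19)).ckT q = true := by decide +kernel
theorem cj : ch.ckJ q.n dj 34256112 42323944 = true := by decide +kernel
theorem cms : ch.msB q.n = true := by decide +kernel
theorem cnl : ch.nck false q 34256112 42323944 7712638 ctn = true := by decide +kernel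

/-- **the checks of the numbers** -/
theorem cH : HCel ch q false dj 34256112 42323944 (RTab.rr RT.kCL 19) (RTab.rr RT.kCF 19) 19 :=
  ⟨⟨qo, ccd, rfl, rfl, rfl, cLS, cLT, cFS, cFT⟩, Ehk.msB_of cms, cj, fun h => absurd h (by decide)⟩

def rlo : ℕ → (ℕ → ℤ) := fun l => match l with
  | 0 => v6 13187511 14120311 11536271 4806419 (-5899895) 10360550
  | 1 => v6 3089075 6177848 5047066 759978 (-424168) 3366872
  | 2 => v6 670658 2542080 2094454 93087 739819 934155
  | 3 => v6 70880 620667 531746 2564 391674 115159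
  | _ => fun _ => 0

def rhi : ℕ → (ℕ → ℤ) := fun l => match l with
  | 0 => v6 3089075 6177848 5047066 759978 515835 3366872
  | 1 => v6 670658 2542080 2094454 93087 911216 934155
  | 2 => v6 70880 620667 531746 2564 507679 115159
  | 3 => v6 0 0 0 0 0 0
  | _ => fun _ => 0

def rlo1 : ℕ → ℤ := v6 11504438 12796567 10454737 4132012 (-4830606) 9194937

def rJ0 : ℕ → ℤ := fun l => match l with
  | 0 => 0
  | 1 => 363261
  | 2 => 729060
  | 3 => 1711784
  | 4 => 3608755
  | _ => 0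

def rJ1 : ℕ → ℤ := fun l => match l with
  | 0 => 0
  | 1 => 364117
  | 2 => 730544
  | 3 => 1513888
  | 4 => 3247592
  | _ => 0

def rF0 : ℕ → ℤ := fun l => match l with
  | 0 => 0
  | 1 => 521189
  | 2 => 1042378
  | 3 => 2100166
  | 4 => 4054528
  | _ => 0

def rF1 : ℕ → ℤ := fun l => match l with
  | 0 => 0
  | 1 => 531884
  | 2 => 1063767
  | 3 => 1938680
  | 4 => 3733352
  | _ => 0

def rHm0 : ℕ → ℤ := fun l => match l with
  | 0 => 17394876
  | 1 => 13273814
  | 2 => 8973226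
  | 3 => 4563750
  | _ => 0

def rHm1 : ℕ → ℤ := fun l => match l with
  | 0 => 16695825
  | 1 => 13273814
  | 2 => 8973226
  | 3 => 4563750
  | _ => 0

def rHp : ℕ → ℤ := fun l => match l with
  | 0 => 13200572
  | 1 => 8927928
  | 2 => 4517609
  | 3 => 0
  | _ => 0

def rtg : ℕ → ℕ → ℤ := fun l => match l with
  | 0 => fun i => match i with | 0 => 62 | 1 => 0 | 2 => 61 | 3 => 0 | 4 => 81 | 5 => 0 | 6 => 81 | 7 => 0 | _ => 0
  | 1 => fun i => match i with | 0 => 61 | 1 => 0 | 2 => 45 | 3 => 0 | 4 => 81 | 5 => 0 | 6 => 81 | 7 => 0 | _ => 0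
  | 2 => fun i => match i with | 0 => 45 | 1 => 0 | 2 => 25 | 3 => 0 | 4 => 55 | 5 => 0 | 6 => 37 | 7 => 0 | _ => 0
  | 3 => fun i => match i with | 0 => 25 | 1 => 0 | 2 => 15 | 3 => 0 | 4 => 21 | 5 => 0 | 6 => 17 | 7 => 0 | _ => 0
  | _ => fun _ => 0

def rML : ℕ → E4 := fun l => match l with
  | 0 => ⟨1081277165, 885540615, 1147706943, 933199715⟩
  | 1 => ⟨1203058340, 965740279, 1279238812, 1018443435⟩
  | 2 => ⟨1527243567, 1213631258, 1630199830, 1285636890⟩
  | 3 => ⟨2110736978, 1675712211, 2257574004, 1781268930⟩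
  | _ => ⟨0, 0, 0, 0⟩

def rPL : ℕ → E4 := fun l => match l with
  | 0 => ⟨1203058340, 965740279, 1279238812, 1018443435⟩
  | 1 => ⟨1527243567, 1213631258, 1630199830, 1285636890⟩
  | 2 => ⟨2110736978, 1675712211, 2257574004, 1781268930⟩
  | 3 => ⟨3011513242, 2412147376, 3206877271, 2565119380⟩
  | _ => ⟨0, 0, 0, 0⟩

def rMF : ℕ → E4 := fun l => match l with
  | 0 => ⟨3620431409, 3007079721, 3895536137, 3231833835⟩
  | 1 => ⟨2809574076, 2393989538, 3004274091, 2556298815⟩
  | 2 => ⟨2739045044, 2282540417, 2922320887, 2421571962⟩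
  | 3 => ⟨3207654737, 2608657000, 3411067628, 2768998682⟩
  | _ => ⟨0, 0, 0, 0⟩

def rPF : ℕ → E4 := fun l => match l with
  | 0 => ⟨2865360858, 2382732287, 3064163518, 2543901344⟩
  | 1 => ⟨2470959522, 2055909684, 2631899141, 2184458565⟩
  | 2 => ⟨2531816261, 2067240331, 2697225364, 2187875417⟩
  | 3 => ⟨3072712088, 2465888964, 3270518035, 2620982475⟩
  | _ => ⟨0, 0, 0, 0⟩

def ru : EhN := ⟨kK, tT, rlo, rhi, rlo1, rJ0, rJ1, rF0, rF1, rHm0, rHm1, rHp, rtg, rML, rPL, rMF, rPF⟩

def rtn : ℕ → ℤ := fun l => match l with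
  | 0 => 0
  | 1 => 20
  | 2 => 20
  | 3 => 0
  | 4 => 0
  | 5 => 76
  | _ => 0

noncomputable def rh : Ehk := SC.F.xr SC19.c RecK.rk SK19.e ru

theorem rcd : rh.cd.ck q = true := by decide +kernel
theorem rLS : (rh.L false (RTab.rr RT.kRL 19)).ckS q = true := by decide +kernel
theorem rLT : (rh.L false (RTab.rr RT.kRL 19)).ckT q = true := by decide +kernel
theorem rFS : (rh.F false (RTab.rr RT.kRF 19)).ckS q = true := by decide +kernel
theorem rFT : (rh.F false (RTab.rr RT.kRF 19)).ckT q = true := by decide +kernel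
theorem rj : rh.ckJ q.n dj 34256112 42323944 = true := by decide +kernel
theorem rms : rh.msB q.n = true := by decide +kernel
theorem rnl : rh.nck false q 34256112 42323944 7712638 rtn = true := by decide +kernel

/-- **the checks of the numbers** -/
theorem rH : HCel rh q false dj 34256112 42323944 (RTab.rr RT.kRL 19) (RTab.rr RT.kRF 19) 19 :=
  ⟨⟨qo, rcd, rfl, rfl, rfl, rLS, rLT, rFS, rFT⟩, Ehk.msB_of rms, rj, fun h => absurd h (by decide)⟩

/-- **the pairs** -/
theorem pc : PCel ch rh q dj 34256112 42323944 RTab.rr 19 := ⟨cH, rH, rfl, rfl⟩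

end Pool.Agent.RZ.RCO.EC19
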