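import Pool.Agent.RZ.RCO.EdG
import Pool.Agent.RZ.RCO.EdM
import Pool.Agent.RZ.RCO.SK2

/-! Generated: the end of the big cell 2, pairs (MP_73ccd0_lc). -/

set_option autoImplicit false
set_option maxRecDepth 100000

open Pool.Agent.RZ.RCO

namespace Pool.Agent.RZ.RCO.EC2

def qA : ℕ → ℤ := fun l => match l with
  | 0 => 0
  | 1 => 1503248
  | 2 => 2008800
  | 3 => 2514352
  | 4 => 3019904
  | _ => 0

def q : Ec0 := ⟨4, 3019904, 1503248, qA, 0⟩

def djH : ℕ → ℕ := fun l => match l with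
  | 0 => 1503248
  | 1 => 126388
  | 2 => 126388
  | 3 => 126388
  | 4 => 126388
  | 5 => 126388
  | 6 => 126388
  | 7 => 126388
  | 8 => 126388
  | 9 => 126388
  | 10 => 126388
  | 11 => 126388
  | 12 => 126388
  | _ => 0

def djR : ℕ → ℕ := fun l => match l with
  | 0 => 16777216
  | 1 => 16777216
  | 2 => 16777216
  | 3 => 16777216
  | 4 => 16777216
  | 5 => 16777216
  | 6 => 16777216
  | 7 => 16777216
  | 8 => 16777216
  | 9 => 16777216
  | 10 => 16777216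
  | 11 => 16777216
  | 12 => 16777216
  | _ => 0

def djW : ℕ → ℕ := fun l => match l with
  | 0 => 17290994
  | 1 => 17032261
  | 2 => 17010818
  | 3 => 16989412
  | 4 => 16968043
  | 5 => 16946710
  | 6 => 16925412
  | 7 => 16904148
  | 8 => 16882917
  | 9 => 16861717
  | 10 => 16840549
  | 11 => 16819410
  | 12 => 16798299
  | _ => 0

def djK : ℕ → ℕ := fun l => match l with
  | 0 => 0
  | 1 => 1
  | 2 => 5
  | 3 => 9
  | 4 => 13
  | _ => 0

def dj : Dj := ⟨13, djH, djR, djW, 4, djK, 1503248⟩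

def kK : ℕ → ℕ := fun l => match l with
  | 0 => 0
  | 1 => 1
  | 2 => 5
  | 3 => 9
  | 4 => 13
  | _ => 0

def tT : ℕ → ℤ := fun l => match l with
  | 0 => 0
  | 1 => 1503248
  | 2 => 1629636
  | 3 => 1756024
  | 4 => 1882412
  | 5 => 2008800
  | 6 => 2135188
  | 7 => 2261576
  | 8 => 2387964
  | 9 => 2514352
  | 10 => 2640740
  | 11 => 2767128
  | 12 => 2893516
  | 13 => 3019904
  | _ => 0

theorem qo : q.ok = true := by decide +kernel
theorem djo : dj.ok = true := by decide +kernel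
theorem djt : dj.tie 2048 SC2.c.D 744 0 2 3 4 5 3 = true := by decide +kernel
theorem djr : dj.rel q = true := by decide +kernel
theorem rel : q.Rel (RTab.tabq 1) 2 := Ec0.relB_of (by decide +kernel)

def clo : ℕ → (ℕ → ℤ) := fun l => match l with
  | 0 => v6 19384 284182 267491 (-15188) (-8467) 33887
  | 1 => v6 2284 69435 68203 435 1478 4591
  | 2 => v6 747 30740 30100 (-479) (-11) 1290
  | 3 => v6 166 7691 7601 16 86 209
  | _ => fun _ => 0

def chi : ℕ → (ℕ → ℤ) := fun l => match l with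
  | 0 => v6 2284 69435 68203 435 1478 4591
  | 1 => v6 747 30740 30100 (-567) (-38) 1290
  | 2 => v6 155 7691 7601 55 82 209
  | 3 => v6 11 0 0 49 31 0
  | _ => fun _ => 0

def clo1 : ℕ → ℤ := v6 2284 69435 68203 435 1478 4591

def cJ0 : ℕ → ℤ := fun l => match l with
  | 0 => 0
  | 1 => 0
  | 2 => 0
  | 3 => 0
  | 4 => 0
  | _ => 0

def cJ1 : ℕ → ℤ := fun l => match l with
  | 0 => 0
  | 1 => 0
  | 2 => 0
  | 3 => 0
  | 4 => 0
  | _ => 0

def cF0 : ℕ → ℤ := fun l => match l with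
  | 0 => 0
  | 1 => 0
  | 2 => 0
  | 3 => 0
  | 4 => 0
  | _ => 0

def cF1 : ℕ → ℤ := fun l => match l with
  | 0 => 0
  | 1 => 0
  | 2 => 0
  | 3 => 0
  | 4 => 0
  | _ => 0

def cHm0 : ℕ → ℤ := fun l => match l with
  | 0 => 3019904
  | 1 => 1516656
  | 2 => 1011104
  | 3 => 505552
  | _ => 0

def cHm1 : ℕ → ℤ := fun l => match l with
  | 0 => 1516656
  | 1 => 1516656
  | 2 => 1011104
  | 3 => 505552
  | _ => 0

def cHp : ℕ → ℤ := fun l => match l with
  | 0 => 1516656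
  | 1 => 1011104
  | 2 => 505552
  | 3 => 0
  | _ => 0

def ctg : ℕ → ℕ → ℤ := fun l => match l with
  | 0 => fun i => match i with | 0 => 0 | 1 => 0 | 2 => 0 | 3 => 0 | 4 => 0 | 5 => 9 | 6 => 0 | 7 => 9 | _ => 0
  | 1 => fun i => match i with | 0 => 0 | 1 => 0 | 2 => 0 | 3 => 0 | 4 => 0 | 5 => 8 | 6 => 0 | 7 => 0 | _ => 0
  | 2 => fun i => match i with | 0 => 0 | 1 => 0 | 2 => 0 | 3 => 0 | 4 => 0 | 5 => 0 | 6 => 0 | 7 => 0 | _ => 0
  | 3 => fun i => match i with | 0 => 0 | 1 => 0 | 2 => 0 | 3 => 0 | 4 => 0 | 5 => 0 | 6 => 0 | 7 => 0 | _ => 0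
  | _ => fun _ => 0

def cML : ℕ → E4 := fun l => match l with
  | 0 => ⟨14242900, 3524650, 14675884, 3575025⟩
  | 1 => ⟨21725900, 3524650, 22158892, 3575025⟩
  | 2 => ⟨20740600, 3938500, 21173709, 3989234⟩
  | 3 => ⟨24356050, 5104600, 24789217, 5155384⟩
  | _ => ⟨0, 0, 0, 0⟩

def cPL : ℕ → E4 := fun l => match l with
  | 0 => ⟨21725900, 3524650, 22158892, 3575025⟩
  | 1 => ⟨20740600, 3938500, 21173709, 3989234⟩
  | 2 => ⟨24356050, 5104600, 24789217, 5155384⟩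
  | 3 => ⟨28772250, 7044100, 29205434, 7094900⟩
  | _ => ⟨0, 0, 0, 0⟩

def cMF : ℕ → E4 := fun l => match l with
  | 0 => ⟨173774749, 79589349, 176690092, 80224190⟩
  | 1 => ⟨96712000, 80094447, 97748657, 80732724⟩
  | 2 => ⟨74953550, 55698750, 75654992, 56008025⟩
  | 3 => ⟨54059400, 32330550, 54560034, 32446300⟩
  | _ => ⟨0, 0, 0, 0⟩

def cPF : ℕ → E4 := fun l => match l with
  | 0 => ⟨97756625, 79589349, 98882337, 80224190⟩
  | 1 => ⟨71344400, 54533400, 72057284, 54843409⟩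
  | 2 => ⟨49646350, 30391550, 50155717, 30508750⟩
  | 3 => ⟨28774050, 7045200, 29210592, 7096859⟩
  | _ => ⟨0, 0, 0, 0⟩

def cu : EhN := ⟨kK, tT, clo, chi, clo1, cJ0, cJ1, cF0, cF1, cHm0, cHm1, cHp, ctg, cML, cPL, cMF, cPF⟩

def ctn : ℕ → ℤ := fun l => match l with
  | 0 => 0
  | 1 => 0
  | 2 => 0
  | 3 => 0
  | 4 => 60
  | 5 => 60
  | _ => 0

noncomputable def ch : Ehk := SC.F.xc SC2.c RecK.rk SK2.e cu

theorem ccd : ch.cd.ck q = true := by decide +kernel
theorem cLS : (ch.L false (RTab.rr RT.kCL 2)).ckS q = true := by decide +kernel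
theorem cLT : (ch.L false (RTab.rr RT.kCL 2)).ckT q = true := by decide +kernel
theorem cFS : (ch.F false (RTab.rr RT.kCF 2)).ckS q = true := by decide +kernel
theorem cFT : (ch.F false (RTab.rr RT.kCF 2)).ckT q = true := by decide +kernel
theorem cj : ch.ckJ q.n dj 560722 655392 = true := by decide +kernel
theorem cms : ch.msB q.n = true := by decide +kernel
theorem cnl : ch.nck false q 560722 655392 94628 ctn = true := by decide +kernel

/-- **the checks of the numbers** -/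
theorem cH : HCel ch q false dj 560722 655392 (RTab.rr RT.kCL 2) (RTab.rr RT.kCF 2) 2 :=
  ⟨⟨qo, ccd, rfl, rfl, rfl, cLS, cLT, cFS, cFT⟩, Ehk.msB_of cms, cj, fun h => absurd h (by decide)⟩

def rlo : ℕ → (ℕ → ℤ) := fun l => match l with
  | 0 => v6 21166 276052 263357 (-13155) (-2850) 35825
  | 1 => v6 2375 69043 69079 193 639 4300
  | 2 => v6 765 30658 30037 (-466) 47 1322
  | 3 => v6 166 7687 7600 22 93 214
  | _ => fun _ => 0

def rhi : ℕ → (ℕ → ℤ) := fun l => match l with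
  | 0 => v6 2375 69043 69079 193 639 4300
  | 1 => v6 765 30658 30037 (-554) 32 1322
  | 2 => v6 156 7687 7600 61 78 214
  | 3 => v6 10 0 0 49 30 0
  | _ => fun _ => 0

def rlo1 : ℕ → ℤ := v6 2375 69043 69079 193 639 4300

def rJ0 : ℕ → ℤ := fun l => match l with
  | 0 => 0
  | 1 => 0
  | 2 => 0
  | 3 => 0
  | 4 => 0
  | _ => 0

def rJ1 : ℕ → ℤ := fun l => match l with
  | 0 => 0
  | 1 => 0
  | 2 => 0
  | 3 => 0
  | 4 => 0
  | _ => 0

def rF0 : ℕ → ℤ := fun l => match l with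
  | 0 => 0
  | 1 => 0
  | 2 => 0
  | 3 => 0
  | 4 => 0
  | _ => 0

def rF1 : ℕ → ℤ := fun l => match l with
  | 0 => 0
  | 1 => 0
  | 2 => 0
  | 3 => 0
  | 4 => 0
  | _ => 0

def rHm0 : ℕ → ℤ := fun l => match l with
  | 0 => 3019904
  | 1 => 1516656
  | 2 => 1011104
  | 3 => 505552
  | _ => 0

def rHm1 : ℕ → ℤ := fun l => match l with
  | 0 => 1516656
  | 1 => 1516656
  | 2 => 1011104
  | 3 => 505552
  | _ => 0

def rHp : ℕ → ℤ := fun l => match l with
  | 0 => 1516656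
  | 1 => 1011104
  | 2 => 505552
  | 3 => 0
  | _ => 0

def rtg : ℕ → ℕ → ℤ := fun l => match l with
  | 0 => fun i => match i with | 0 => 0 | 1 => 0 | 2 => 0 | 3 => 0 | 4 => 0 | 5 => 9 | 6 => 0 | 7 => 9 | _ => 0
  | 1 => fun i => match i with | 0 => 0 | 1 => 0 | 2 => 0 | 3 => 0 | 4 => 0 | 5 => 8 | 6 => 0 | 7 => 0 | _ => 0
  | 2 => fun i => match i with | 0 => 0 | 1 => 0 | 2 => 0 | 3 => 0 | 4 => 0 | 5 => 0 | 6 => 0 | 7 => 0 | _ => 0
  | 3 => fun i => match i with | 0 => 0 | 1 => 0 | 2 => 0 | 3 => 0 | 4 => 0 | 5 => 0 | 6 => 0 | 7 => 0 | _ => 0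
  | _ => fun _ => 0

def rML : ℕ → E4 := fun l => match l with
  | 0 => ⟨14487250, 3551500, 14618817, 3567159⟩
  | 1 => ⟨21761600, 3551500, 22106125, 3567159⟩
  | 2 => ⟨20838200, 3960300, 21133617, 3981459⟩
  | 3 => ⟨24402300, 5115650, 24764359, 5149667⟩
  | _ => ⟨0, 0, 0, 0⟩

def rPL : ℕ → E4 := fun l => match l with
  | 0 => ⟨21761600, 3551500, 22106125, 3567159⟩
  | 1 => ⟨20838200, 3960300, 21133617, 3981459⟩
  | 2 => ⟨24402300, 5115650, 24764359, 5149667⟩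
  | 3 => ⟨28772250, 7044100, 29205434, 7094900⟩
  | _ => ⟨0, 0, 0, 0⟩

def rMF : ℕ → E4 := fun l => match l with
  | 0 => ⟨174001053, 79629668, 176651618, 80226939⟩
  | 1 => ⟨96829090, 80128546, 97701571, 80733512⟩
  | 2 => ⟨75004900, 55713100, 75622584, 56002650⟩
  | 3 => ⟨54059200, 32330550, 54556467, 32445425⟩
  | _ => ⟨0, 0, 0, 0⟩

def rPF : ℕ → E4 := fun l => match l with
  | 0 => ⟨97898484, 79629668, 98823913, 80226939⟩
  | 1 => ⟨71458100, 54560600, 72009417, 54837300⟩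
  | 2 => ⟨49696850, 30405050, 50123109, 30503175⟩
  | 3 => ⟨28773800, 7045150, 29207009, 7095967⟩
  | _ => ⟨0, 0, 0, 0⟩

def ru : EhN := ⟨kK, tT, rlo, rhi, rlo1, rJ0, rJ1, rF0, rF1, rHm0, rHm1, rHp, rtg, rML, rPL, rMF, rPF⟩

def rtn : ℕ → ℤ := fun l => match l with
  | 0 => 0
  | 1 => 0
  | 2 => 0
  | 3 => 0
  | 4 => 60
  | 5 => 60
  | _ => 0

noncomputable def rh : Ehk := SC.F.xr SC2.c RecK.rk SK2.e ru

theorem rcd : rh.cd.ck q = true := by decide +kernel
theorem rLS : (rh.L false (RTab.rr RT.kRL 2)).ckS q = true := by decide +kernel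
theorem rLT : (rh.L false (RTab.rr RT.kRL 2)).ckT q = true := by decide +kernel
theorem rFS : (rh.F false (RTab.rr RT.kRF 2)).ckS q = true := by decide +kernel
theorem rFT : (rh.F false (RTab.rr RT.kRF 2)).ckT q = true := by decide +kernel
theorem rj : rh.ckJ q.n dj 560722 655392 = true := by decide +kernel
theorem rms : rh.msB q.n = true := by decide +kernel
theorem rnl : rh.nck false q 560722 655392 94628 rtn = true := by decide +kernel

/-- **the checks of the numbers** -/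
theorem rH : HCel rh q false dj 560722 655392 (RTab.rr RT.kRL 2) (RTab.rr RT.kRF 2) 2 :=
  ⟨⟨qo, rcd, rfl, rfl, rfl, rLS, rLT, rFS, rFT⟩, Ehk.msB_of rms, rj, fun h => absurd h (by decide)⟩

/-- **the pairs** -/
theorem pc : PCel ch rh q dj 560722 655392 RTab.rr 2 := ⟨cH, rH, rfl, rfl⟩

end Pool.Agent.RZ.RCO.EC2
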