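import Pool.Agent.RZ.RCO.EdG
import Pool.Agent.RZ.RCO.EdM
import Pool.Agent.RZ.RCO.SK3

/-! Generated: the end of the big cell 3, pairs (MP_73ccd0_lc). -/

set_option autoImplicit false
set_option maxRecDepth 100000

open Pool.Agent.RZ.RCO

namespace Pool.Agent.RZ.RCO.EC3

def qA : ℕ → ℤ := fun l => match l with
  | 0 => 0
  | 1 => 1879072
  | 2 => 2818592
  | 3 => 3758112
  | 4 => 4697632
  | _ => 0

def q : Ec0 := ⟨4, 4697632, 1879072, qA, 0⟩

def djH : ℕ → ℕ := fun l => match l with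
  | 0 => 1879072
  | 1 => 234880
  | 2 => 234880
  | 3 => 234880
  | 4 => 234880
  | 5 => 234880
  | 6 => 234880
  | 7 => 234880
  | 8 => 234880
  | 9 => 234880
  | 10 => 234880
  | 11 => 234880
  | 12 => 234880
  | _ => 0

def djR : ℕ → ℕ := fun l => match l with
  | 0 => 16777216
  | 1 => 16777216
  | 2 => 16777216
  | 3 => 16777216
  | 4 => 16777216
  | 5 => 16777216
  | 6 => 16777216
  | 7 => 16777216
  | 8 => 16777216
  | 9 => 16777216
  | 10 => 16777216
  | 11 => 16777216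
  | 12 => 16777216
  | _ => 0

def djW : ℕ → ℕ := fun l => match l with
  | 0 => 17588745
  | 1 => 17255635
  | 2 => 17214970
  | 3 => 17174474
  | 4 => 17134140
  | 5 => 17093961
  | 6 => 17053928
  | 7 => 17014034
  | 8 => 16974274
  | 9 => 16934639
  | 10 => 16895123
  | 11 => 16855718
  | 12 => 16816418
  | _ => 0

def djK : ℕ → ℕ := fun l => match l with
  | 0 => 0
  | 1 => 1
  | 2 => 5
  | 3 => 9
  | 4 => 13
  | _ => 0

def dj : Dj := ⟨13, djH, djR, djW, 4, djK, 1879072⟩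

def kK : ℕ → ℕ := fun l => match l with
  | 0 => 0
  | 1 => 1
  | 2 => 5
  | 3 => 9
  | 4 => 13
  | _ => 0

def tT : ℕ → ℤ := fun l => match l with
  | 0 => 0
  | 1 => 1879072
  | 2 => 2113952
  | 3 => 2348832
  | 4 => 2583712
  | 5 => 2818592
  | 6 => 3053472
  | 7 => 3288352
  | 8 => 3523232
  | 9 => 3758112
  | 10 => 3992992
  | 11 => 4227872
  | 12 => 4462752
  | 13 => 4697632
  | _ => 0

theorem qo : q.ok = true := by decide +kernel
theorem djo : dj.ok = true := by decide +kernel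
theorem djt : dj.tie 2048 SC3.c.D 744 0 2 3 4 5 3 = true := by decide +kernel
theorem djr : dj.rel q = true := by decide +kernel
theorem rel : q.Rel (RTab.tabq 1) 3 := Ec0.relB_of (by decide +kernel)

def clo : ℕ → (ℕ → ℤ) := fun l => match l with
  | 0 => v6 74502 721040 656768 (-59646) (-48336) 125399
  | 1 => v6 14812 244852 231177 (-7455) 1106 27148
  | 2 => v6 4442 107117 102971 (-3518) (-1007) 7844
  | 3 => v6 691 26528 25941 (-319) 41 1063
  | _ => fun _ => 0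

def chi : ℕ → (ℕ → ℤ) := fun l => match l with
  | 0 => v6 14812 244852 231177 (-7455) 1106 27148
  | 1 => v6 4442 107117 102971 (-4090) (-1310) 7844
  | 2 => v6 691 26528 25941 52 286 1063
  | 3 => v6 0 0 0 201 58 0
  | _ => fun _ => 0

def clo1 : ℕ → ℤ := v6 14812 244852 231177 (-7455) 1106 27148

def cJ0 : ℕ → ℤ := fun l => match l with
  | 0 => 0
  | 1 => 0
  | 2 => 0
  | 3 => 0
  | 4 => 0
  | _ => 0

def cJ1 : ℕ → ℤ := fun l => match l with
  | 0 => 0
  | 1 => 0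
  | 2 => 0
  | 3 => 0
  | 4 => 0
  | _ => 0

def cF0 : ℕ → ℤ := fun l => match l with
  | 0 => 0
  | 1 => 0
  | 2 => 0
  | 3 => 0
  | 4 => 0
  | _ => 0

def cF1 : ℕ → ℤ := fun l => match l with
  | 0 => 0
  | 1 => 0
  | 2 => 0
  | 3 => 0
  | 4 => 0
  | _ => 0

def cHm0 : ℕ → ℤ := fun l => match l with
  | 0 => 4697632
  | 1 => 2818560
  | 2 => 1879040
  | 3 => 939520
  | _ => 0

def cHm1 : ℕ → ℤ := fun l => match l with
  | 0 => 2818560
  | 1 => 2818560
  | 2 => 1879040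
  | 3 => 939520
  | _ => 0

def cHp : ℕ → ℤ := fun l => match l with
  | 0 => 2818560
  | 1 => 1879040
  | 2 => 939520
  | 3 => 0
  | _ => 0

def ctg : ℕ → ℕ → ℤ := fun l => match l with
  | 0 => fun i => match i with | 0 => 0 | 1 => 0 | 2 => 0 | 3 => 0 | 4 => 6 | 5 => 16 | 6 => 7 | 7 => 16 | _ => 0
  | 1 => fun i => match i with | 0 => 0 | 1 => 0 | 2 => 0 | 3 => 0 | 4 => 5 | 5 => 16 | 6 => 0 | 7 => 0 | _ => 0
  | 2 => fun i => match i with | 0 => 0 | 1 => 0 | 2 => 0 | 3 => 0 | 4 => 0 | 5 => 0 | 6 => 0 | 7 => 0 | _ => 0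
  | 3 => fun i => match i with | 0 => 0 | 1 => 0 | 2 => 0 | 3 => 0 | 4 => 0 | 5 => 0 | 6 => 0 | 7 => 0 | _ => 0
  | _ => fun _ => 0

def cML : ℕ → E4 := fun l => match l with
  | 0 => ⟨35428400, 12392500, 37078692, 12721142⟩
  | 1 => ⟨48364100, 12392500, 50014400, 12721142⟩
  | 2 => ⟨49203350, 13869100, 50853775, 14198100⟩
  | 3 => ⟨59628650, 18026300, 61279159, 18355367⟩
  | _ => ⟨0, 0, 0, 0⟩

def cPL : ℕ → E4 := fun l => match l with
  | 0 => ⟨48364100, 12392500, 50014400, 12721142⟩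
  | 1 => ⟨49203350, 13869100, 50853775, 14198100⟩
  | 2 => ⟨59628650, 18026300, 61279159, 18355367⟩
  | 3 => ⟨73010350, 24935400, 74660909, 25264517⟩
  | _ => ⟨0, 0, 0, 0⟩

def cMF : ℕ → E4 := fun l => match l with
  | 0 => ⟨287452595, 154151268, 295672187, 156541961⟩
  | 1 => ⟨191099237, 155673980, 194996199, 158106922⟩
  | 2 => ⟨153846300, 112218250, 156493700, 113471992⟩
  | 3 => ⟨120030650, 71950400, 121931859, 72510684⟩
  | _ => ⟨0, 0, 0, 0⟩

def cPF : ℕ → E4 := fun l => match l with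
  | 0 => ⟨190507142, 154151268, 194757764, 156541961⟩
  | 1 => ⟨143477450, 108071250, 146213892, 109334600⟩
  | 2 => ⟨106682750, 65054700, 108658575, 65636867⟩
  | 3 => ⟨73020100, 24939850, 74700242, 25279067⟩
  | _ => ⟨0, 0, 0, 0⟩

def cu : EhN := ⟨kK, tT, clo, chi, clo1, cJ0, cJ1, cF0, cF1, cHm0, cHm1, cHp, ctg, cML, cPL, cMF, cPF⟩

def ctn : ℕ → ℤ := fun l => match l with
  | 0 => 0
  | 1 => 0
  | 2 => 0
  | 3 => 0
  | 4 => 76
  | 5 => 76
  | _ => 0

noncomputable def ch : Ehk := SC.F.xc SC3.c RecK.rk SK3.e cu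

theorem ccd : ch.cd.ck q = true := by decide +kernel
theorem cLS : (ch.L false (RTab.rr RT.kCL 3)).ckS q = true := by decide +kernel
theorem cLT : (ch.L false (RTab.rr RT.kCL 3)).ckT q = true := by decide +kernel
theorem cFS : (ch.F false (RTab.rr RT.kCF 3)).ckS q = true := by decide +kernel
theorem cFT : (ch.F false (RTab.rr RT.kCF 3)).ckT q = true := by decide +kernel
theorem cj : ch.ckJ q.n dj 1385928 1623445 = true := by decide +kernel
theorem cms : ch.msB q.n = true := by decide +kernel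
theorem cnl : ch.nck false q 1385928 1623445 237178 ctn = true := by decide +kernel

/-- **the checks of the numbers** -/
theorem cH : HCel ch q false dj 1385928 1623445 (RTab.rr RT.kCL 3) (RTab.rr RT.kCF 3) 3 :=
  ⟨⟨qo, ccd, rfl, rfl, rfl, cLS, cLT, cFS, cFT⟩, Ehk.msB_of cms, cj, fun h => absurd h (by decide)⟩

def rlo : ℕ → (ℕ → ℤ) := fun l => match l with
  | 0 => v6 84737 675487 626102 (-53680) (-19867) 133396
  | 1 => v6 15943 239680 232041 (-8059) 109 27400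
  | 2 => v6 4664 106088 102177 (-3439) (-424) 8143
  | 3 => v6 706 26461 25914 (-290) 80 1085
  | _ => fun _ => 0

def rhi : ℕ → (ℕ → ℤ) := fun l => match l with
  | 0 => v6 15943 239680 232041 (-8059) 109 27400
  | 1 => v6 4664 106088 102177 (-4002) (-578) 8143
  | 2 => v6 706 26461 25914 72 195 1085
  | 3 => v6 0 0 0 201 39 0
  | _ => fun _ => 0

def rlo1 : ℕ → ℤ := v6 15943 239680 232041 (-8059) 109 27400

def rJ0 : ℕ → ℤ := fun l => match l with
  | 0 => 0
  | 1 => 0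
  | 2 => 0
  | 3 => 0
  | 4 => 0
  | _ => 0

def rJ1 : ℕ → ℤ := fun l => match l with
  | 0 => 0
  | 1 => 0
  | 2 => 0
  | 3 => 0
  | 4 => 0
  | _ => 0

def rF0 : ℕ → ℤ := fun l => match l with
  | 0 => 0
  | 1 => 0
  | 2 => 0
  | 3 => 0
  | 4 => 0
  | _ => 0

def rF1 : ℕ → ℤ := fun l => match l with
  | 0 => 0
  | 1 => 0
  | 2 => 0
  | 3 => 0
  | 4 => 0
  | _ => 0

def rHm0 : ℕ → ℤ := fun l => match l with
  | 0 => 4697632
  | 1 => 2818560
  | 2 => 1879040
  | 3 => 939520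
  | _ => 0

def rHm1 : ℕ → ℤ := fun l => match l with
  | 0 => 2818560
  | 1 => 2818560
  | 2 => 1879040
  | 3 => 939520
  | _ => 0

def rHp : ℕ → ℤ := fun l => match l with
  | 0 => 2818560
  | 1 => 1879040
  | 2 => 939520
  | 3 => 0
  | _ => 0

def rtg : ℕ → ℕ → ℤ := fun l => match l with
  | 0 => fun i => match i with | 0 => 0 | 1 => 0 | 2 => 0 | 3 => 0 | 4 => 7 | 5 => 16 | 6 => 7 | 7 => 17 | _ => 0
  | 1 => fun i => match i with | 0 => 0 | 1 => 0 | 2 => 0 | 3 => 0 | 4 => 5 | 5 => 17 | 6 => 0 | 7 => 0 | _ => 0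
  | 2 => fun i => match i with | 0 => 0 | 1 => 0 | 2 => 0 | 3 => 0 | 4 => 0 | 5 => 0 | 6 => 0 | 7 => 0 | _ => 0
  | 3 => fun i => match i with | 0 => 0 | 1 => 0 | 2 => 0 | 3 => 0 | 4 => 0 | 5 => 0 | 6 => 0 | 7 => 0 | _ => 0
  | _ => fun _ => 0

def rML : ℕ → E4 := fun l => match l with
  | 0 => ⟨36418300, 12574900, 36921609, 12674700⟩
  | 1 => ⟨48767950, 12574900, 49811792, 12674700⟩
  | 2 => ⟨49697300, 14017000, 50712709, 14152409⟩
  | 3 => ⟨59869000, 18101750, 61185925, 18320900⟩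
  | _ => ⟨0, 0, 0, 0⟩

def rPL : ℕ → E4 := fun l => match l with
  | 0 => ⟨48767950, 12574900, 49811792, 12674700⟩
  | 1 => ⟨49697300, 14017000, 50712709, 14152409⟩
  | 2 => ⟨59869000, 18101750, 61185925, 18320900⟩
  | 3 => ⟨73010350, 24935400, 74660909, 25264517⟩
  | _ => ⟨0, 0, 0, 0⟩

def rMF : ℕ → E4 := fun l => match l with
  | 0 => ⟨288985563, 154404045, 295703777, 156543566⟩
  | 1 => ⟨191857618, 155895575, 194891645, 158076483⟩
  | 2 => ⟨154152000, 112336100, 156355300, 113440042⟩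
  | 3 => ⟨120030300, 71951900, 121901550, 72501592⟩
  | _ => ⟨0, 0, 0, 0⟩

def rPF : ℕ → E4 := fun l => match l with
  | 0 => ⟨191601240, 154404045, 194688628, 156543566⟩
  | 1 => ⟨144178650, 108285800, 146085509, 109306700⟩
  | 2 => ⟨106978100, 65162200, 108517842, 65602584⟩
  | 3 => ⟨73019000, 24940600, 74669742, 25269784⟩
  | _ => ⟨0, 0, 0, 0⟩

def ru : EhN := ⟨kK, tT, rlo, rhi, rlo1, rJ0, rJ1, rF0, rF1, rHm0, rHm1, rHp, rtg, rML, rPL, rMF, rPF⟩

def rtn : ℕ → ℤ := fun l => match l with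
  | 0 => 0
  | 1 => 0
  | 2 => 0
  | 3 => 0
  | 4 => 76
  | 5 => 76
  | _ => 0

noncomputable def rh : Ehk := SC.F.xr SC3.c RecK.rk SK3.e ru

theorem rcd : rh.cd.ck q = true := by decide +kernel
theorem rLS : (rh.L false (RTab.rr RT.kRL 3)).ckS q = true := by decide +kernel
theorem rLT : (rh.L false (RTab.rr RT.kRL 3)).ckT q = true := by decide +kernel
theorem rFS : (rh.F false (RTab.rr RT.kRF 3)).ckS q = true := by decide +kernel
theorem rFT : (rh.F false (RTab.rr RT.kRF 3)).ckT q = true := by decide +kernel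
theorem rj : rh.ckJ q.n dj 1385928 1623445 = true := by decide +kernel
theorem rms : rh.msB q.n = true := by decide +kernel
theorem rnl : rh.nck false q 1385928 1623445 237178 rtn = true := by decide +kernel

/-- **the checks of the numbers** -/
theorem rH : HCel rh q false dj 1385928 1623445 (RTab.rr RT.kRL 3) (RTab.rr RT.kRF 3) 3 :=
  ⟨⟨qo, rcd, rfl, rfl, rfl, rLS, rLT, rFS, rFT⟩, Ehk.msB_of rms, rj, fun h => absurd h (by decide)⟩

/-- **the pairs** -/
theorem pc : PCel ch rh q dj 1385928 1623445 RTab.rr 3 := ⟨cH, rH, rfl, rfl⟩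

end Pool.Agent.RZ.RCO.EC3
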