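import Pool.Agent.RZ.RCO.EdG
import Pool.Agent.RZ.RCO.EdM
import Pool.Agent.RZ.RCO.SK4

/-! Generated: the end of the big cell 4, pairs (MP_73ccd0_lc). -/

set_option autoImplicit false
set_option maxRecDepth 100000

open Pool.Agent.RZ.RCO

namespace Pool.Agent.RZ.RCO.EC4

def qA : ℕ → ℤ := fun l => match l with
  | 0 => 0
  | 1 => 1879056
  | 2 => 3377824
  | 3 => 4876576
  | 4 => 6375344
  | _ => 0

def q : Ec0 := ⟨4, 6375344, 1879056, qA, 0⟩

def djH : ℕ → ℕ := fun l => match l with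
  | 0 => 1879056
  | 1 => 374692
  | 2 => 374692
  | 3 => 374692
  | 4 => 374692
  | 5 => 374688
  | 6 => 374688
  | 7 => 374688
  | 8 => 374688
  | 9 => 374692
  | 10 => 374692
  | 11 => 374692
  | 12 => 374692
  | _ => 0

def djR : ℕ → ℕ := fun l => match l with
  | 0 => 16777216
  | 1 => 16777216
  | 2 => 16777216
  | 3 => 16777216
  | 4 => 16777216
  | 5 => 16777216
  | 6 => 16777216
  | 7 => 16777216
  | 8 => 16777216
  | 9 => 16777216
  | 10 => 16875493
  | 11 => 16970141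
  | 12 => 17053862
  | _ => 0

def djW : ℕ → ℕ := fun l => match l with
  | 0 => 17900658
  | 1 => 17553745
  | 2 => 17486669
  | 3 => 17420157
  | 4 => 17354174
  | 5 => 17288689
  | 6 => 17223670
  | 7 => 17159086
  | 8 => 17094907
  | 9 => 17031102
  | 10 => 16967608
  | 11 => 16904191
  | 12 => 16840718
  | _ => 0

def djK : ℕ → ℕ := fun l => match l with
  | 0 => 0
  | 1 => 1
  | 2 => 5
  | 3 => 9
  | 4 => 13
  | _ => 0

def dj : Dj := ⟨13, djH, djR, djW, 4, djK, 1879056⟩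

def kK : ℕ → ℕ := fun l => match l with
  | 0 => 0
  | 1 => 1
  | 2 => 5
  | 3 => 9
  | 4 => 13
  | _ => 0

def tT : ℕ → ℤ := fun l => match l with
  | 0 => 0
  | 1 => 1879056
  | 2 => 2253748
  | 3 => 2628440
  | 4 => 3003132
  | 5 => 3377824
  | 6 => 3752512
  | 7 => 4127200
  | 8 => 4501888
  | 9 => 4876576
  | 10 => 5251268
  | 11 => 5625960
  | 12 => 6000652
  | 13 => 6375344
  | _ => 0

theorem qo : q.ok = true := by decide +kernel
theorem djo : dj.ok = true := by decide +kernel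
theorem djt : dj.tie 2048 SC4.c.D 744 0 2 3 4 5 3 = true := by decide +kernel
theorem djr : dj.rel q = true := by decide +kernel
theorem rel : q.Rel (RTab.tabq 1) 4 := Ec0.relB_of (by decide +kernel)

def clo : ℕ → (ℕ → ℤ) := fun l => match l with
  | 0 => v6 193855 1417935 1258434 (-158480) (-135251) 314512
  | 1 => v6 63353 654037 597438 (-48572) (-9704) 107273
  | 2 => v6 18598 280205 262707 (-15039) 4841 31624
  | 3 => v6 2654 68830 66104 (-1478) 5037 4021
  | _ => fun _ => 0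

def chi : ℕ → (ℕ → ℤ) := fun l => match l with
  | 0 => v6 63353 654037 597438 (-49220) (-9704) 107273
  | 1 => v6 18598 280205 262707 (-16784) 2929 31624
  | 2 => v6 2654 68830 66104 93 6910 4021
  | 3 => v6 0 0 0 822 39 0
  | _ => fun _ => 0

def clo1 : ℕ → ℤ := v6 63353 654037 597438 (-49220) (-9704) 107273

def cJ0 : ℕ → ℤ := fun l => match l with
  | 0 => 0
  | 1 => 0
  | 2 => 0
  | 3 => 0
  | 4 => 0
  | _ => 0

def cJ1 : ℕ → ℤ := fun l => match l with
  | 0 => 0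
  | 1 => 0
  | 2 => 0
  | 3 => 0
  | 4 => 0
  | _ => 0

def cF0 : ℕ → ℤ := fun l => match l with
  | 0 => 0
  | 1 => 0
  | 2 => 0
  | 3 => 0
  | 4 => 0
  | _ => 0

def cF1 : ℕ → ℤ := fun l => match l with
  | 0 => 0
  | 1 => 0
  | 2 => 0
  | 3 => 0
  | 4 => 0
  | _ => 0

def cHm0 : ℕ → ℤ := fun l => match l with
  | 0 => 6388026
  | 1 => 4508970
  | 2 => 3010202
  | 3 => 1523482
  | _ => 0

def cHm1 : ℕ → ℤ := fun l => match l with
  | 0 => 4508970
  | 1 => 4508970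
  | 2 => 3010202
  | 3 => 1523482
  | _ => 0

def cHp : ℕ → ℤ := fun l => match l with
  | 0 => 4508970
  | 1 => 3010202
  | 2 => 1511450
  | 3 => 0
  | _ => 0

def ctg : ℕ → ℕ → ℤ := fun l => match l with
  | 0 => fun i => match i with | 0 => 0 | 1 => 0 | 2 => 0 | 3 => 0 | 4 => 33 | 5 => 26 | 6 => 18 | 7 => 21 | _ => 0
  | 1 => fun i => match i with | 0 => 0 | 1 => 0 | 2 => 0 | 3 => 0 | 4 => 17 | 5 => 18 | 6 => 0 | 7 => 0 | _ => 0
  | 2 => fun i => match i with | 0 => 0 | 1 => 0 | 2 => 0 | 3 => 0 | 4 => 0 | 5 => 0 | 6 => 0 | 7 => 0 | _ => 0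
  | 3 => fun i => match i with | 0 => 0 | 1 => 0 | 2 => 0 | 3 => 0 | 4 => 0 | 5 => 0 | 6 => 0 | 7 => 0 | _ => 0
  | _ => fun _ => 0

def cML : ℕ → E4 := fun l => match l with
  | 0 => ⟨67496600, 32506400, 71762709, 33900459⟩
  | 1 => ⟨81932950, 32506400, 86199067, 33900459⟩
  | 2 => ⟨89148250, 36504100, 93414542, 37898542⟩
  | 3 => ⟨111887800, 47753400, 116154192, 49147934⟩
  | _ => ⟨0, 0, 0, 0⟩

def cPL : ℕ → E4 := fun l => match l with
  | 0 => ⟨81932950, 32506400, 86199067, 33900459⟩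
  | 1 => ⟨89148250, 36504100, 93414542, 37898542⟩
  | 2 => ⟨111887800, 47753400, 116154192, 49147934⟩
  | 3 => ⟨142905350, 66473150, 147171825, 67867750⟩
  | _ => ⟨0, 0, 0, 0⟩

def cMF : ℕ → E4 := fun l => match l with
  | 0 => ⟨412749267, 261391040, 430328562, 268262256⟩
  | 1 => ⟨318616064, 265469150, 329252070, 272667174⟩
  | 2 => ⟨263567500, 199317900, 270679325, 203268667⟩
  | 3 => ⟨219264050, 142808950, 224254525, 144848450⟩
  | _ => ⟨0, 0, 0, 0⟩

def cPF : ℕ → E4 := fun l => match l with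
  | 0 => ⟨311956480, 261391040, 323138470, 268262256⟩
  | 1 => ⟨241121600, 188145950, 248610509, 192163975⟩
  | 2 => ⟨187832700, 123583100, 193183067, 125772409⟩
  | 3 => ⟨142957250, 66502150, 147374142, 67968067⟩
  | _ => ⟨0, 0, 0, 0⟩

def cu : EhN := ⟨kK, tT, clo, chi, clo1, cJ0, cJ1, cF0, cF1, cHm0, cHm1, cHp, ctg, cML, cPL, cMF, cPF⟩

def ctn : ℕ → ℤ := fun l => match l with
  | 0 => 0
  | 1 => 0
  | 2 => 0
  | 3 => 0
  | 4 => 0
  | 5 => 76
  | _ => 0

noncomputable def ch : Ehk := SC.F.xc SC4.c RecK.rk SK4.e cu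

theorem ccd : ch.cd.ck q = true := by decide +kernel
theorem cLS : (ch.L false (RTab.rr RT.kCL 4)).ckS q = true := by decide +kernel
theorem cLT : (ch.L false (RTab.rr RT.kCL 4)).ckT q = true := by decide +kernel
theorem cFS : (ch.F false (RTab.rr RT.kCF 4)).ckS q = true := by decide +kernel
theorem cFT : (ch.F false (RTab.rr RT.kCF 4)).ckT q = true := by decide +kernel
theorem cj : ch.ckJ q.n dj 2624530 3084833 = true := by decide +kernel
theorem cms : ch.msB q.n = true := by decide +kernel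
theorem cnl : ch.nck false q 2624530 3084833 458553 ctn = true := by decide +kernel

/-- **the checks of the numbers** -/
theorem cH : HCel ch q false dj 2624530 3084833 (RTab.rr RT.kCL 4) (RTab.rr RT.kCF 4) 4 :=
  ⟨⟨qo, ccd, rfl, rfl, rfl, cLS, cLT, cFS, cFT⟩, Ehk.msB_of cms, cj, fun h => absurd h (by decide)⟩

def rlo : ℕ → (ℕ → ℤ) := fun l => match l with
  | 0 => v6 228269 1266249 1140728 (-135273) (-69237) 335136
  | 1 => v6 70839 619214 576281 (-44110) (-5563) 113494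
  | 2 => v6 20015 273376 257503 (-13158) 4866 33344
  | 3 => v6 2751 68403 65880 (-1255) 4913 4154
  | _ => fun _ => 0

def rhi : ℕ → (ℕ → ℤ) := fun l => match l with
  | 0 => v6 70839 619214 576281 (-44984) (-5563) 113494
  | 1 => v6 20015 273376 257503 (-14462) 3562 33344
  | 2 => v6 2751 68403 65880 227 6049 4154
  | 3 => v6 0 0 0 696 168 0
  | _ => fun _ => 0

def rlo1 : ℕ → ℤ := v6 70839 619214 576281 (-44984) (-5563) 113494

def rJ0 : ℕ → ℤ := fun l => match l with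
  | 0 => 0
  | 1 => 0
  | 2 => 0
  | 3 => 0
  | 4 => 0
  | _ => 0

def rJ1 : ℕ → ℤ := fun l => match l with
  | 0 => 0
  | 1 => 0
  | 2 => 0
  | 3 => 0
  | 4 => 0
  | _ => 0

def rF0 : ℕ → ℤ := fun l => match l with
  | 0 => 0
  | 1 => 0
  | 2 => 0
  | 3 => 0
  | 4 => 0
  | _ => 0

def rF1 : ℕ → ℤ := fun l => match l with
  | 0 => 0
  | 1 => 0
  | 2 => 0
  | 3 => 0
  | 4 => 0
  | _ => 0

def rHm0 : ℕ → ℤ := fun l => match l with
  | 0 => 6388026
  | 1 => 4508970
  | 2 => 3010202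
  | 3 => 1523482
  | _ => 0

def rHm1 : ℕ → ℤ := fun l => match l with
  | 0 => 4508970
  | 1 => 4508970
  | 2 => 3010202
  | 3 => 1523482
  | _ => 0

def rHp : ℕ → ℤ := fun l => match l with
  | 0 => 4508970
  | 1 => 3010202
  | 2 => 1511450
  | 3 => 0
  | _ => 0

def rtg : ℕ → ℕ → ℤ := fun l => match l with
  | 0 => fun i => match i with | 0 => 0 | 1 => 0 | 2 => 0 | 3 => 0 | 4 => 17 | 5 => 19 | 6 => 18 | 7 => 19 | _ => 0
  | 1 => fun i => match i with | 0 => 0 | 1 => 0 | 2 => 0 | 3 => 0 | 4 => 15 | 5 => 13 | 6 => 0 | 7 => 0 | _ => 0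
  | 2 => fun i => match i with | 0 => 0 | 1 => 0 | 2 => 0 | 3 => 0 | 4 => 0 | 5 => 0 | 6 => 0 | 7 => 0 | _ => 0
  | 3 => fun i => match i with | 0 => 0 | 1 => 0 | 2 => 0 | 3 => 0 | 4 => 0 | 5 => 0 | 6 => 0 | 7 => 0 | _ => 0
  | _ => fun _ => 0

def rML : ℕ → E4 := fun l => match l with
  | 0 => ⟨70074950, 33218500, 71376792, 33642725⟩
  | 1 => ⟨83621850, 33218500, 85690934, 33642725⟩
  | 2 => ⟨90653400, 37065300, 92989117, 37638075⟩
  | 3 => ⟨112556950, 47992600, 115781909, 48916809⟩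
  | _ => ⟨0, 0, 0, 0⟩

def rPL : ℕ → E4 := fun l => match l with
  | 0 => ⟨83621850, 33218500, 85690934, 33642725⟩
  | 1 => ⟨90653400, 37065300, 92989117, 37638075⟩
  | 2 => ⟨112556950, 47992600, 115781909, 48916809⟩
  | 3 => ⟨142905350, 66473150, 147171825, 67867750⟩
  | _ => ⟨0, 0, 0, 0⟩

def rMF : ℕ → E4 := fun l => match l with
  | 0 => ⟨417557298, 262364923, 430331888, 268128963⟩
  | 1 => ⟨321407238, 266708986, 328974455, 272624186⟩
  | 2 => ⟨264680750, 199854300, 270203609, 203064875⟩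
  | 3 => ⟨219274900, 142820950, 224113084, 144786300⟩
  | _ => ⟨0, 0, 0, 0⟩

def rPF : ℕ → E4 := fun l => match l with
  | 0 => ⟨315716093, 262364923, 323097034, 268128963⟩
  | 1 => ⟨243762550, 189159750, 248431275, 192026392⟩
  | 2 => ⟨188879950, 124053500, 192694700, 125555967⟩
  | 3 => ⟨142963250, 66509300, 147231409, 67904625⟩
  | _ => ⟨0, 0, 0, 0⟩

def ru : EhN := ⟨kK, tT, rlo, rhi, rlo1, rJ0, rJ1, rF0, rF1, rHm0, rHm1, rHp, rtg, rML, rPL, rMF, rPF⟩

def rtn : ℕ → ℤ := fun l => match l with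
  | 0 => 0
  | 1 => 0
  | 2 => 0
  | 3 => 0
  | 4 => 0
  | 5 => 76
  | _ => 0

noncomputable def rh : Ehk := SC.F.xr SC4.c RecK.rk SK4.e ru

theorem rcd : rh.cd.ck q = true := by decide +kernel
theorem rLS : (rh.L false (RTab.rr RT.kRL 4)).ckS q = true := by decide +kernel
theorem rLT : (rh.L false (RTab.rr RT.kRL 4)).ckT q = true := by decide +kernel
theorem rFS : (rh.F false (RTab.rr RT.kRF 4)).ckS q = true := by decide +kernel
theorem rFT : (rh.F false (RTab.rr RT.kRF 4)).ckT q = true := by decide +kernel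
theorem rj : rh.ckJ q.n dj 2624530 3084833 = true := by decide +kernel
theorem rms : rh.msB q.n = true := by decide +kernel
theorem rnl : rh.nck false q 2624530 3084833 458553 rtn = true := by decide +kernel

/-- **the checks of the numbers** -/
theorem rH : HCel rh q false dj 2624530 3084833 (RTab.rr RT.kRL 4) (RTab.rr RT.kRF 4) 4 :=
  ⟨⟨qo, rcd, rfl, rfl, rfl, rLS, rLT, rFS, rFT⟩, Ehk.msB_of rms, rj, fun h => absurd h (by decide)⟩

/-- **the pairs** -/
theorem pc : PCel ch rh q dj 2624530 3084833 RTab.rr 4 := ⟨cH, rH, rfl, rfl⟩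

end Pool.Agent.RZ.RCO.EC4
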