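import Pool.Agent.RZ.RCO.Gg9
import Pool.Agent.RZ.RCO.SAdB_2
import Pool.Agent.RZ.RCO.SB5K
import Pool.Agent.RZ.RCO.SB5R
import Pool.Agent.RZ.RCO.SCr

/-! The tables of a cell (MP_73ccd0_lc). -/

set_option autoImplicit false
set_option maxRecDepth 100000

namespace Pool.Agent.RZ.RCO.SC5

open Sg

def a : ℕ → ℕ := fun l => match l with | 0 => 0 | 1 => 2 | 2 => 7 | 3 => 12 | _ => 17
def K : ℕ → ℕ := fun l => match l with | 0 => 0 | 1 => SB5K1.D | 2 => SB5K2.D | 3 => SB5K3.D | _ => SB5K4.D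
def R : ℕ → ℕ := fun l => match l with | 0 => 0 | 1 => SB5R1.D | 2 => SB5R2.D | 3 => SB5R3.D | _ => SB5R4.D

/-- the data of the cell -/
def c : Cdc := ⟨SA5.D, 17, 4, a, K, R⟩

theorem bK1 : SC.F.bK SB5K1.D 2 SA5.D = true := by decide +kernel
theorem bK2 : SC.F.bK SB5K2.D 7 SA5.D = true := by decide +kernel
theorem bK3 : SC.F.bK SB5K3.D 12 SA5.D = true := by decide +kernel
theorem bK4 : SC.F.bK SB5K4.D 17 SA5.D = true := by decide +kernel
theorem bN1 : SC.F.bN SB5K1.D 2 SB5K2.D 7 = true := by decide +kernel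
theorem bN2 : SC.F.bN SB5K2.D 7 SB5K3.D 12 = true := by decide +kernel
theorem bN3 : SC.F.bN SB5K3.D 12 SB5K4.D 17 = true := by decide +kernel
theorem bR0 : SC.F.bR SB5R1.D 2 SA5.D 0 = true := by decide +kernel
theorem bR1 : SC.F.bR SB5R2.D 7 SA5.D 2 = true := by decide +kernel
theorem bR2 : SC.F.bR SB5R3.D 12 SA5.D 7 = true := by decide +kernel
theorem bR3 : SC.F.bR SB5R4.D 17 SA5.D 12 = true := by decide +kernel
theorem mo : SC.F.X.moD SB5K1.D 2 = true := by decide +kernel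

theorem sx : ∀ j < 17, SC.F.x.sheet.At SA5.D SC.F.x.R j := fun j hj => Sheet.At.left (Sheet.At.right (SA5.rowsSAL j hj))

/-- **the checks of the data** -/
theorem dat : SC.F.Dat c where
  hm := Tp12.msh sx
  nc := by decide
  a0 := rfl
  an := rfl
  lt := lowS (lowS (lowS (lowS low0 (by decide)) (by decide)) (by decide)) (by decide)
  sK := allS (allS (allS (allS all0 SB5K1.rows) SB5K2.rows) SB5K3.rows) SB5K4.rows
  bK := allS (allS (allS (allS all0 bK1) bK2) bK3) bK4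
  bN := nbrS (nbrS (nbrS nbr0 bN1) bN2) bN3
  mo := mo
  sR := allS (allS (allS (allS all0 SB5R1.rows) SB5R2.rows) SB5R3.rows) SB5R4.rows
  bR := lowS (lowS (lowS (lowS low0 bR0) bR1) bR2) bR3

end Pool.Agent.RZ.RCO.SC5
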