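import Pool.Agent.RZ.RCO.EdG
import Pool.Agent.RZ.RCO.EdM
import Pool.Agent.RZ.RCO.SK5

/-! Generated: the end of the big cell 5, pairs (MP_73ccd0_lc). -/

set_option autoImplicit false
set_option maxRecDepth 100000

open Pool.Agent.RZ.RCO

namespace Pool.Agent.RZ.RCO.EC5

def qA : ℕ → ℤ := fun l => match l with
  | 0 => 0
  | 1 => 1971328
  | 2 => 3942656
  | 3 => 5913968
  | 4 => 7885296
  | _ => 0

def q : Ec0 := ⟨4, 7885296, 1509984, qA, 0⟩

def djH : ℕ → ℕ := fun l => match l with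
  | 0 => 1509984
  | 1 => 461344
  | 2 => 394266
  | 3 => 394265
  | 4 => 394266
  | 5 => 394265
  | 6 => 394266
  | 7 => 394262
  | 8 => 394263
  | 9 => 394262
  | 10 => 394263
  | 11 => 394262
  | 12 => 394266
  | 13 => 394265
  | 14 => 394266
  | 15 => 394265
  | 16 => 394266
  | _ => 0

def djR : ℕ → ℕ := fun l => match l with
  | 0 => 16777216
  | 1 => 16777216
  | 2 => 16777216
  | 3 => 16777216
  | 4 => 16777216
  | 5 => 16777216
  | 6 => 16777216
  | 7 => 16777216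
  | 8 => 16777216
  | 9 => 16777216
  | 10 => 16847051
  | 11 => 16949383
  | 12 => 17040640
  | 13 => 17121943
  | 14 => 17194276
  | 15 => 17258724
  | 16 => 17315768
  | _ => 0

def djW : ℕ → ℕ := fun l => match l with
  | 0 => 18199866
  | 1 => 17906885
  | 2 => 17820165
  | 3 => 17746945
  | 4 => 17674498
  | 5 => 17602783
  | 6 => 17531758
  | 7 => 17461382
  | 8 => 17391619
  | 9 => 17322429
  | 10 => 17253775
  | 11 => 17185477
  | 12 => 17117295
  | 13 => 17049154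
  | 14 => 16981070
  | 15 => 16913051
  | 16 => 16845099
  | _ => 0

def djK : ℕ → ℕ := fun l => match l with
  | 0 => 0
  | 1 => 2
  | 2 => 7
  | 3 => 12
  | 4 => 17
  | _ => 0

def dj : Dj := ⟨17, djH, djR, djW, 4, djK, 1509984⟩

def kK : ℕ → ℕ := fun l => match l with
  | 0 => 0
  | 1 => 2
  | 2 => 7
  | 3 => 12
  | 4 => 17
  | _ => 0

def tT : ℕ → ℤ := fun l => match l with
  | 0 => 0
  | 1 => 1509984
  | 2 => 1971328
  | 3 => 2365594
  | 4 => 2759859
  | 5 => 3154125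
  | 6 => 3548390
  | 7 => 3942656
  | 8 => 4336918
  | 9 => 4731181
  | 10 => 5125443
  | 11 => 5519706
  | 12 => 5913968
  | 13 => 6308234
  | 14 => 6702499
  | 15 => 7096765
  | 16 => 7491030
  | 17 => 7885296
  | _ => 0

theorem qo : q.ok = true := by decide +kernel
theorem djo : dj.ok = true := by decide +kernel
theorem djt : dj.tie 2048 SC5.c.D 744 0 2 3 4 5 3 = true := by decide +kernel
theorem djr : dj.rel q = true := by decide +kernel
theorem rel : q.Rel (RTab.tabq 1) 5 := Ec0.relB_of (by decide +kernel)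

def clo : ℕ → (ℕ → ℤ) := fun l => match l with
  | 0 => v6 386305 2347184 2044504 (-293671) (-197489) 611837
  | 1 => v6 151611 1204739 1073677 (-122977) (-8518) 247968
  | 2 => v6 43231 504911 463109 (-32541) 42476 72860
  | 3 => v6 5730 123526 115960 (-2490) 24188 9756
  | _ => fun _ => 0

def chi : ℕ → (ℕ → ℤ) := fun l => match l with
  | 0 => v6 151611 1204739 1073677 (-116623) 9908 247968
  | 1 => v6 43231 504911 463109 (-29208) 51005 72860
  | 2 => v6 5730 123526 115960 1586 29059 9756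
  | 3 => v6 0 0 0 1553 0 0
  | _ => fun _ => 0

def clo1 : ℕ → ℤ := v6 206536 1472102 1300877 (-158057) (-38628) 333124

def cJ0 : ℕ → ℤ := fun l => match l with
  | 0 => 0
  | 1 => 0
  | 2 => 0
  | 3 => 0
  | 4 => 0
  | _ => 0

def cJ1 : ℕ → ℤ := fun l => match l with
  | 0 => 0
  | 1 => 0
  | 2 => 0
  | 3 => 0
  | 4 => 0
  | _ => 0

def cF0 : ℕ → ℤ := fun l => match l with
  | 0 => 0
  | 1 => 0
  | 2 => 0
  | 3 => 0
  | 4 => 0
  | _ => 0

def cF1 : ℕ → ℤ := fun l => match l with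
  | 0 => 0
  | 1 => 0
  | 2 => 0
  | 3 => 0
  | 4 => 0
  | _ => 0

def cHm0 : ℕ → ℤ := fun l => match l with
  | 0 => 7939048
  | 1 => 5967720
  | 2 => 4010934
  | 3 => 2034609
  | _ => 0

def cHm1 : ℕ → ℤ := fun l => match l with
  | 0 => 6429064
  | 1 => 5967720
  | 2 => 4010934
  | 3 => 2034609
  | _ => 0

def cHp : ℕ → ℤ := fun l => match l with
  | 0 => 5967720
  | 1 => 3996392
  | 2 => 2019392
  | 3 => 0
  | _ => 0

def ctg : ℕ → ℕ → ℤ := fun l => match l with
  | 0 => fun i => match i with | 0 => 0 | 1 => 0 | 2 => 0 | 3 => 0 | 4 => 55 | 5 => 43 | 6 => 24 | 7 => 24 | _ => 0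
  | 1 => fun i => match i with | 0 => 0 | 1 => 0 | 2 => 0 | 3 => 0 | 4 => 18 | 5 => 17 | 6 => 0 | 7 => 0 | _ => 0
  | 2 => fun i => match i with | 0 => 0 | 1 => 0 | 2 => 0 | 3 => 0 | 4 => 0 | 5 => 0 | 6 => 0 | 7 => 0 | _ => 0
  | 3 => fun i => match i with | 0 => 0 | 1 => 0 | 2 => 0 | 3 => 0 | 4 => 0 | 5 => 0 | 6 => 0 | 7 => 0 | _ => 0
  | _ => fun _ => 0

def cML : ℕ → E4 := fun l => match l with
  | 0 => ⟨107357550, 68079350, 115874342, 72331592⟩
  | 1 => ⟨115913650, 68830500, 124430542, 73083059⟩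
  | 2 => ⟨139467350, 79275400, 147984392, 83528092⟩
  | 3 => ⟨178740750, 104012200, 187257934, 108265017⟩
  | _ => ⟨0, 0, 0, 0⟩

def cPL : ℕ → E4 := fun l => match l with
  | 0 => ⟨115913650, 68830500, 124430542, 73083059⟩
  | 1 => ⟨139467350, 79275400, 147984392, 83528092⟩
  | 2 => ⟨178740750, 104012200, 187257934, 108265017⟩
  | 3 => ⟨234090950, 143183600, 242608284, 147436542⟩
  | _ => ⟨0, 0, 0, 0⟩

def cMF : ℕ → E4 := fun l => match l with
  | 0 => ⟨537237972, 402700051, 568564376, 419871004⟩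
  | 1 => ⟨447537146, 386405383, 468576369, 402037967⟩
  | 2 => ⟨382184950, 307201200, 396359425, 316515934⟩
  | 3 => ⟨336265400, 245307700, 346253417, 250864242⟩
  | _ => ⟨0, 0, 0, 0⟩

def cPF : ℕ → E4 := fun l => match l with
  | 0 => ⟨424728725, 375707984, 445834643, 390621386⟩
  | 1 => ⟨343089600, 282144750, 358250709, 291824384⟩
  | 2 => ⟨280732800, 205749050, 291729067, 211885575⟩
  | 3 => ⟨234248450, 143290750, 243207084, 147817909⟩
  | _ => ⟨0, 0, 0, 0⟩

def cu : EhN := ⟨kK, tT, clo, chi, clo1, cJ0, cJ1, cF0, cF1, cHm0, cHm1, cHp, ctg, cML, cPL, cMF, cPF⟩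

def ctn : ℕ → ℤ := fun l => match l with
  | 0 => 0
  | 1 => 0
  | 2 => 0
  | 3 => 0
  | 4 => 0
  | 5 => 76
  | _ => 0

noncomputable def ch : Ehk := SC.F.xc SC5.c RecK.rk SK5.e cu

theorem ccd : ch.cd.ck q = true := by decide +kernel
theorem cLS : (ch.L false (RTab.rr RT.kCL 5)).ckS q = true := by decide +kernel
theorem cLT : (ch.L false (RTab.rr RT.kCL 5)).ckT q = true := by decide +kernel
theorem cFS : (ch.F false (RTab.rr RT.kCF 5)).ckS q = true := by decide +kernel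
theorem cFT : (ch.F false (RTab.rr RT.kCF 5)).ckT q = true := by decide +kernel
theorem cj : ch.ckJ q.n dj 4147746 4898630 = true := by decide +kernel
theorem cms : ch.msB q.n = true := by decide +kernel
theorem cnl : ch.nck false q 4147746 4898630 745737 ctn = true := by decide +kernel

/-- **the checks of the numbers** -/
theorem cH : HCel ch q false dj 4147746 4898630 (RTab.rr RT.kCL 5) (RTab.rr RT.kCF 5) 5 :=
  ⟨⟨qo, ccd, rfl, rfl, rfl, cLS, cLT, cFS, cFT⟩, Ehk.msB_of cms, cj, fun h => absurd h (by decide)⟩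

def rlo : ℕ → (ℕ → ℤ) := fun l => match l with
  | 0 => v6 468132 1987169 1750240 (-207917) (-157697) 648277
  | 1 => v6 174770 1096250 986498 (-88316) (-18386) 265837
  | 2 => v6 47600 483753 446945 (-23344) 32629 77553
  | 3 => v6 6101 122168 115020 (-2134) 23547 10136
  | _ => fun _ => 0

def rhi : ℕ → (ℕ → ℤ) := fun l => match l with
  | 0 => v6 174770 1096250 986498 (-86141) (-8892) 265837
  | 1 => v6 47600 483753 446945 (-20827) 36886 77553
  | 2 => v6 6101 122168 115020 625 28768 10136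
  | 3 => v6 0 0 0 1232 0 0
  | _ => fun _ => 0

def rlo1 : ℕ → ℤ := v6 243425 1304750 1165235 (-114639) (-43716) 355339

def rJ0 : ℕ → ℤ := fun l => match l with
  | 0 => 0
  | 1 => 0
  | 2 => 0
  | 3 => 0
  | 4 => 0
  | _ => 0

def rJ1 : ℕ → ℤ := fun l => match l with
  | 0 => 0
  | 1 => 0
  | 2 => 0
  | 3 => 0
  | 4 => 0
  | _ => 0

def rF0 : ℕ → ℤ := fun l => match l with
  | 0 => 0
  | 1 => 0
  | 2 => 0
  | 3 => 0
  | 4 => 0
  | _ => 0

def rF1 : ℕ → ℤ := fun l => match l with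
  | 0 => 0
  | 1 => 0
  | 2 => 0
  | 3 => 0
  | 4 => 0
  | _ => 0

def rHm0 : ℕ → ℤ := fun l => match l with
  | 0 => 7939048
  | 1 => 5967720
  | 2 => 4010934
  | 3 => 2034609
  | _ => 0

def rHm1 : ℕ → ℤ := fun l => match l with
  | 0 => 6429064
  | 1 => 5967720
  | 2 => 4010934
  | 3 => 2034609
  | _ => 0

def rHp : ℕ → ℤ := fun l => match l with
  | 0 => 5967720
  | 1 => 3996392
  | 2 => 2019392
  | 3 => 0
  | _ => 0

def rtg : ℕ → ℕ → ℤ := fun l => match l with
  | 0 => fun i => match i with | 0 => 0 | 1 => 0 | 2 => 0 | 3 => 0 | 4 => 38 | 5 => 32 | 6 => 18 | 7 => 17 | _ => 0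
  | 1 => fun i => match i with | 0 => 0 | 1 => 0 | 2 => 0 | 3 => 0 | 4 => 13 | 5 => 9 | 6 => 0 | 7 => 0 | _ => 0
  | 2 => fun i => match i with | 0 => 0 | 1 => 0 | 2 => 0 | 3 => 0 | 4 => 0 | 5 => 0 | 6 => 0 | 7 => 0 | _ => 0
  | 3 => fun i => match i with | 0 => 0 | 1 => 0 | 2 => 0 | 3 => 0 | 4 => 0 | 5 => 0 | 6 => 0 | 7 => 0 | _ => 0
  | _ => fun _ => 0

def rML : ℕ → E4 := fun l => match l with
  | 0 => ⟨112311250, 70118500, 114905334, 71414184⟩
  | 1 => ⟨120257200, 70820600, 123374775, 72160584⟩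
  | 2 => ⟨142424800, 80722400, 146806650, 82568542⟩
  | 3 => ⟨179855950, 104480850, 186094059, 107363275⟩
  | _ => ⟨0, 0, 0, 0⟩

def rPL : ℕ → E4 := fun l => match l with
  | 0 => ⟨120257200, 70820600, 123374775, 72160584⟩
  | 1 => ⟨142424800, 80722400, 146806650, 82568542⟩
  | 2 => ⟨179855950, 104480850, 186094059, 107363275⟩
  | 3 => ⟨234090950, 143183600, 242608284, 147436542⟩
  | _ => ⟨0, 0, 0, 0⟩

def rMF : ℕ → E4 := fun l => match l with
  | 0 => ⟨547346763, 406315055, 567422598, 418689744⟩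
  | 1 => ⟨454353359, 390398397, 468082347, 401478880⟩
  | 2 => ⟨384735950, 308753050, 395082534, 315711025⟩
  | 3 => ⟨336364950, 245368200, 345910034, 250643667⟩
  | _ => ⟨0, 0, 0, 0⟩

def rPF : ℕ → E4 := fun l => match l with
  | 0 => ⟨433081782, 379239494, 445622579, 390201448⟩
  | 1 => ⟨349292750, 285395500, 357904025, 291364042⟩
  | 2 => ⟨283083900, 207101000, 290417275, 211045767⟩
  | 3 => ⟨234329450, 143332700, 242856467, 147590100⟩
  | _ => ⟨0, 0, 0, 0⟩

def ru : EhN := ⟨kK, tT, rlo, rhi, rlo1, rJ0, rJ1, rF0, rF1, rHm0, rHm1, rHp, rtg, rML, rPL, rMF, rPF⟩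

def rtn : ℕ → ℤ := fun l => match l with
  | 0 => 0
  | 1 => 0
  | 2 => 0
  | 3 => 0
  | 4 => 0
  | 5 => 76
  | _ => 0

noncomputable def rh : Ehk := SC.F.xr SC5.c RecK.rk SK5.e ru

theorem rcd : rh.cd.ck q = true := by decide +kernel
theorem rLS : (rh.L false (RTab.rr RT.kRL 5)).ckS q = true := by decide +kernel
theorem rLT : (rh.L false (RTab.rr RT.kRL 5)).ckT q = true := by decide +kernel
theorem rFS : (rh.F false (RTab.rr RT.kRF 5)).ckS q = true := by decide +kernel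
theorem rFT : (rh.F false (RTab.rr RT.kRF 5)).ckT q = true := by decide +kernel
theorem rj : rh.ckJ q.n dj 4147746 4898630 = true := by decide +kernel
theorem rms : rh.msB q.n = true := by decide +kernel
theorem rnl : rh.nck false q 4147746 4898630 745737 rtn = true := by decide +kernel

/-- **the checks of the numbers** -/
theorem rH : HCel rh q false dj 4147746 4898630 (RTab.rr RT.kRL 5) (RTab.rr RT.kRF 5) 5 :=
  ⟨⟨qo, rcd, rfl, rfl, rfl, rLS, rLT, rFS, rFT⟩, Ehk.msB_of rms, rj, fun h => absurd h (by decide)⟩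

/-- **the pairs** -/
theorem pc : PCel ch rh q dj 4147746 4898630 RTab.rr 5 := ⟨cH, rH, rfl, rfl⟩

end Pool.Agent.RZ.RCO.EC5
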