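import Pool.Agent.RZ.RCO.KD6
import Pool.Agent.RZ.RCO.SC6
import Pool.Agent.RZ.RCO.SCk

/-! The sums of level 2 of a cell (MP_73ccd0_lc). -/

set_option autoImplicit false
set_option maxRecDepth 100000

namespace Pool.Agent.RZ.RCO.SK6

open Sg

def d12 : ℕ → ℕ := fun l => match l with | 0 => 0 | 1 => K12_6_1.D | 2 => K12_6_2.D | 3 => K12_6_3.D | _ => K12_6_4.D
def d13 : ℕ → ℕ := fun l => match l with | 0 => 0 | 1 => K13_6_1.D | 2 => K13_6_2.D | 3 => K13_6_3.D | _ => K13_6_4.D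
def d21 : ℕ → ℕ := fun l => match l with | 0 => 0 | 1 => K21_6_1.D | 2 => K21_6_2.D | 3 => K21_6_3.D | _ => K21_6_4.D
def d31 : ℕ → ℕ := fun l => match l with | 0 => 0 | 1 => K31_6_1.D | 2 => K31_6_2.D | 3 => K31_6_3.D | _ => K31_6_4.D

/-- the data of the sums of level 2 -/
def e : Cdk := ⟨d12, d13, d21, d31⟩

theorem b12_1 : SC.r.r12.bZ SC.F.X SC.F.X K12_6_1.D 3 SB6K4.D SB6K1.D = true := by decide +kernel
theorem b12_2 : SC.r.r12.bZ SC.F.X SC.F.X K12_6_2.D 8 SB6K4.D SB6K2.D = true := by decide +kernel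
theorem b12_3 : SC.r.r12.bZ SC.F.X SC.F.X K12_6_3.D 13 SB6K4.D SB6K3.D = true := by decide +kernel
theorem b12_4 : SC.r.r12.bZ SC.F.X SC.F.X K12_6_4.D 18 SB6K4.D SB6K4.D = true := by decide +kernel
theorem b13_1 : SC.r.r13.bE SC.F.X SC.F.Y K13_6_1.D 3 SB6K4.D SB6R1.D = true := by decide +kernel
theorem b13_2 : SC.r.r13.bE SC.F.X SC.F.Y K13_6_2.D 8 SB6K4.D SB6R2.D = true := by decide +kernel
theorem b13_3 : SC.r.r13.bE SC.F.X SC.F.Y K13_6_3.D 13 SB6K4.D SB6R3.D = true := by decide +kernel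
theorem b13_4 : SC.r.r13.bE SC.F.X SC.F.Y K13_6_4.D 18 SB6K4.D SB6R4.D = true := by decide +kernel
theorem b21_1 : SC.r.r21.bZ SC.F.X SC.F.X K21_6_1.D 3 SB6K1.D SB6K4.D = true := by decide +kernel
theorem b21_2 : SC.r.r21.bZ SC.F.X SC.F.X K21_6_2.D 8 SB6K2.D SB6K4.D = true := by decide +kernel
theorem b21_3 : SC.r.r21.bZ SC.F.X SC.F.X K21_6_3.D 13 SB6K3.D SB6K4.D = true := by decide +kernel
theorem b21_4 : SC.r.r21.bZ SC.F.X SC.F.X K21_6_4.D 18 SB6K4.D SB6K4.D = true := by decide +kernel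
theorem b31_1 : SC.r.r31.bE SC.F.Y SC.F.X K31_6_1.D 3 SB6R1.D SB6K4.D = true := by decide +kernel
theorem b31_2 : SC.r.r31.bE SC.F.Y SC.F.X K31_6_2.D 8 SB6R2.D SB6K4.D = true := by decide +kernel
theorem b31_3 : SC.r.r31.bE SC.F.Y SC.F.X K31_6_3.D 13 SB6R3.D SB6K4.D = true := by decide +kernel
theorem b31_4 : SC.r.r31.bE SC.F.Y SC.F.X K31_6_4.D 18 SB6R4.D SB6K4.D = true := by decide +kernel
theorem g12_1 : lnkB K12_6_1.D SC.r.r12.k.R K12_6_2.D SC.r.r12.k.R 3 SC.r.r12.LG = true := by decide +kernel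
theorem g12_2 : lnkB K12_6_2.D SC.r.r12.k.R K12_6_3.D SC.r.r12.k.R 8 SC.r.r12.LG = true := by decide +kernel
theorem g12_3 : lnkB K12_6_3.D SC.r.r12.k.R K12_6_4.D SC.r.r12.k.R 13 SC.r.r12.LG = true := by decide +kernel

/-- **the checks of the data**, columns -/
theorem datC : Crk.DatC SC.F SC6.c SC.r e where
  s12 := allS (allS (allS (allS all0 K12_6_1.rows) K12_6_2.rows) K12_6_3.rows) K12_6_4.rows
  b12 := allS (allS (allS (allS all0 b12_1) b12_2) b12_3) b12_4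
  g12 := nbrS (nbrS (nbrS nbr0 g12_1) g12_2) g12_3
  s13 := allS (allS (allS (allS all0 K13_6_1.rows) K13_6_2.rows) K13_6_3.rows) K13_6_4.rows
  b13 := allS (allS (allS (allS all0 b13_1) b13_2) b13_3) b13_4

/-- **the checks of the data**, rows -/
theorem datR : Crk.DatR SC.F SC6.c SC.r e where
  s21 := allS (allS (allS (allS all0 K21_6_1.rows) K21_6_2.rows) K21_6_3.rows) K21_6_4.rows
  b21 := allS (allS (allS (allS all0 b21_1) b21_2) b21_3) b21_4
  s31 := allS (allS (allS (allS all0 K31_6_1.rows) K31_6_2.rows) K31_6_3.rows) K31_6_4.rows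
  b31 := allS (allS (allS (allS all0 b31_1) b31_2) b31_3) b31_4

end Pool.Agent.RZ.RCO.SK6
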