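import Pool.Agent.RZ.RCO.EdG
import Pool.Agent.RZ.RCO.EdM
import Pool.Agent.RZ.RCO.SK6

/-! Generated: the end of the big cell 6, pairs (MP_73ccd0_lc). -/

set_option autoImplicit false
set_option maxRecDepth 100000

open Pool.Agent.RZ.RCO

namespace Pool.Agent.RZ.RCO.EC6

def qA : ℕ → ℤ := fun l => match l with
  | 0 => 0
  | 1 => 2306864
  | 2 => 4613728
  | 3 => 6920608
  | 4 => 9227472
  | _ => 0

def q : Ec0 := ⟨4, 9227472, 1342208, qA, 0⟩

def djH : ℕ → ℕ := fun l => match l with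
  | 0 => 1342208
  | 1 => 482328
  | 2 => 482328
  | 3 => 461373
  | 4 => 461373
  | 5 => 461372
  | 6 => 461373
  | 7 => 461373
  | 8 => 461376
  | 9 => 461376
  | 10 => 461376
  | 11 => 461376
  | 12 => 461376
  | 13 => 461373
  | 14 => 461373
  | 15 => 461372
  | 16 => 461373
  | 17 => 461373
  | _ => 0

def djR : ℕ → ℕ := fun l => match l with
  | 0 => 16777216
  | 1 => 16777216
  | 2 => 16777216
  | 3 => 16777216
  | 4 => 16777216
  | 5 => 16777216
  | 6 => 16777216
  | 7 => 16777216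
  | 8 => 16777216
  | 9 => 16852476
  | 10 => 16970505
  | 11 => 17073616
  | 12 => 17163611
  | 13 => 17242131
  | 14 => 17310958
  | 15 => 17371891
  | 16 => 17426682
  | 17 => 17476702
  | _ => 0

def djW : ℕ → ℕ := fun l => match l with
  | 0 => 18483412
  | 1 => 18209596
  | 2 => 18114416
  | 3 => 18020731
  | 4 => 17932436
  | 5 => 17845354
  | 6 => 17759415
  | 7 => 17674549
  | 8 => 17590689
  | 9 => 17507767
  | 10 => 17425536
  | 11 => 17343652
  | 12 => 17261997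
  | 13 => 17180588
  | 14 => 17099435
  | 15 => 17018537
  | 16 => 16937882
  | 17 => 16857449
  | _ => 0

def djK : ℕ → ℕ := fun l => match l with
  | 0 => 0
  | 1 => 3
  | 2 => 8
  | 3 => 13
  | 4 => 18
  | _ => 0

def dj : Dj := ⟨18, djH, djR, djW, 4, djK, 1342208⟩

def kK : ℕ → ℕ := fun l => match l with
  | 0 => 0
  | 1 => 3
  | 2 => 8
  | 3 => 13
  | 4 => 18
  | _ => 0

def tT : ℕ → ℤ := fun l => match l with
  | 0 => 0
  | 1 => 1342208
  | 2 => 1824536
  | 3 => 2306864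
  | 4 => 2768237
  | 5 => 3229610
  | 6 => 3690982
  | 7 => 4152355
  | 8 => 4613728
  | 9 => 5075104
  | 10 => 5536480
  | 11 => 5997856
  | 12 => 6459232
  | 13 => 6920608
  | 14 => 7381981
  | 15 => 7843354
  | 16 => 8304726
  | 17 => 8766099
  | 18 => 9227472
  | _ => 0

theorem qo : q.ok = true := by decide +kernel
theorem djo : dj.ok = true := by decide +kernel
theorem djt : dj.tie 2048 SC6.c.D 744 0 2 3 4 5 3 = true := by decide +kernel
theorem djr : dj.rel q = true := by decide +kernel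
theorem rel : q.Rel (RTab.tabq 1) 6 := Ec0.relB_of (by decide +kernel)

def clo : ℕ → (ℕ → ℤ) := fun l => match l with
  | 0 => v6 662497 3513625 3023859 (-466668) (-277603) 1036675
  | 1 => v6 255086 1748445 1531976 (-190311) 41691 410746
  | 2 => v6 71565 719163 647195 (-46117) 102297 118938
  | 3 => v6 9348 173894 160261 (-3363) 51429 16120
  | _ => fun _ => 0

def chi : ℕ → (ℕ → ℤ) := fun l => match l with
  | 0 => v6 255086 1748445 1531976 (-179047) 76276 410746
  | 1 => v6 71565 719163 647195 (-41720) 120108 118938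
  | 2 => v6 9348 173894 160261 4552 57877 16120
  | 3 => v6 0 0 0 2045 0 0
  | _ => fun _ => 0

def clo1 : ℕ → ℤ := v6 425453 2486587 2155834 (-299320) (-71704) 672490

def cJ0 : ℕ → ℤ := fun l => match l with
  | 0 => 0
  | 1 => 0
  | 2 => 0
  | 3 => 0
  | 4 => 11224
  | _ => 0

def cJ1 : ℕ → ℤ := fun l => match l with
  | 0 => 0
  | 1 => 0
  | 2 => 0
  | 3 => 0
  | 4 => 961
  | _ => 0

def cF0 : ℕ → ℤ := fun l => match l with
  | 0 => 0
  | 1 => 0
  | 2 => 0
  | 3 => 443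
  | 4 => 19178
  | _ => 0

def cF1 : ℕ → ℤ := fun l => match l with
  | 0 => 0
  | 1 => 0
  | 2 => 0
  | 3 => 0
  | 4 => 4223
  | _ => 0

def cHm0 : ℕ → ℤ := fun l => match l with
  | 0 => 9334547
  | 1 => 7027683
  | 2 => 4747787
  | 3 => 2403044
  | _ => 0

def cHm1 : ℕ → ℤ := fun l => match l with
  | 0 => 7992339
  | 1 => 7027683
  | 2 => 4747787
  | 3 => 2403044
  | _ => 0

def cHp : ℕ → ℤ := fun l => match l with
  | 0 => 7027683
  | 1 => 4720819
  | 2 => 2387777
  | 3 => 0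
  | _ => 0

def ctg : ℕ → ℕ → ℤ := fun l => match l with
  | 0 => fun i => match i with | 0 => 0 | 1 => 0 | 2 => 0 | 3 => 0 | 4 => 51 | 5 => 55 | 6 => 27 | 7 => 32 | _ => 0
  | 1 => fun i => match i with | 0 => 0 | 1 => 0 | 2 => 0 | 3 => 0 | 4 => 15 | 5 => 23 | 6 => 0 | 7 => 0 | _ => 0
  | 2 => fun i => match i with | 0 => 0 | 1 => 0 | 2 => 0 | 3 => 0 | 4 => 0 | 5 => 0 | 6 => 0 | 7 => 0 | _ => 0
  | 3 => fun i => match i with | 0 => 0 | 1 => 0 | 2 => 0 | 3 => 0 | 4 => 0 | 5 => 0 | 6 => 0 | 7 => 0 | _ => 0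
  | _ => fun _ => 0

def cML : ℕ → E4 := fun l => match l with
  | 0 => ⟨153459050, 108530400, 168095167, 117158909⟩
  | 1 => ⟨166187750, 110860200, 180824009, 119489059⟩
  | 2 => ⟨202023800, 130729700, 216660234, 139358717⟩
  | 3 => ⟨261710300, 172122650, 276346917, 180751825⟩
  | _ => ⟨0, 0, 0, 0⟩

def cPL : ℕ → E4 := fun l => match l with
  | 0 => ⟨166187750, 110860200, 180824009, 119489059⟩
  | 1 => ⟨202023800, 130729700, 216660234, 139358717⟩
  | 2 => ⟨261710300, 172122650, 276346917, 180751825⟩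
  | 3 => ⟨346921300, 235807800, 361558109, 244437142⟩
  | _ => ⟨0, 0, 0, 0⟩

def cMF : ℕ → E4 := fun l => match l with
  | 0 => ⟨678992792, 537609426, 729701283, 569204834⟩
  | 1 => ⟨570875136, 497881594, 605191608, 524327785⟩
  | 2 => ⟨504251200, 414218350, 527866417, 430825809⟩
  | 3 => ⟨467334300, 356622700, 484336967, 367333117⟩
  | _ => ⟨0, 0, 0, 0⟩

def cPF : ℕ → E4 := fun l => match l with
  | 0 => ⟨536914526, 478041851, 571428218, 503396981⟩
  | 1 => ⟨445262500, 372618100, 470892284, 390219734⟩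
  | 2 => ⟨383162000, 293107000, 402233309, 305170550⟩
  | 3 => ⟨347651450, 236214250, 363205000, 245475550⟩
  | _ => ⟨0, 0, 0, 0⟩

def cu : EhN := ⟨kK, tT, clo, chi, clo1, cJ0, cJ1, cF0, cF1, cHm0, cHm1, cHp, ctg, cML, cPL, cMF, cPF⟩

def ctn : ℕ → ℤ := fun l => match l with
  | 0 => 0
  | 1 => 0
  | 2 => 0
  | 3 => 0
  | 4 => 0
  | 5 => 76
  | _ => 0

noncomputable def ch : Ehk := SC.F.xc SC6.c RecK.rk SK6.e cu

theorem ccd : ch.cd.ck q = true := by decide +kernel
theorem cLS : (ch.L false (RTab.rr RT.kCL 6)).ckS q = true := by decide +kernel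
theorem cLT : (ch.L false (RTab.rr RT.kCL 6)).ckT q = true := by decide +kernel
theorem cFS : (ch.F false (RTab.rr RT.kCF 6)).ckS q = true := by decide +kernel
theorem cFT : (ch.F false (RTab.rr RT.kCF 6)).ckT q = true := by decide +kernel
theorem cj : ch.ckJ q.n dj 5904381 7010533 = true := by decide +kernel
theorem cms : ch.msB q.n = true := by decide +kernel
theorem cnl : ch.nck false q 5904381 7010533 1095601 ctn = true := by decide +kernel

/-- **the checks of the numbers** -/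
theorem cH : HCel ch q false dj 5904381 7010533 (RTab.rr RT.kCL 6) (RTab.rr RT.kCF 6) 6 :=
  ⟨⟨qo, ccd, rfl, rfl, rfl, cLS, cLT, cFS, cFT⟩, Ehk.msB_of cms, cj, fun h => absurd h (by decide)⟩

def rlo : ℕ → (ℕ → ℤ) := fun l => match l with
  | 0 => v6 827150 2805323 2430658 (-252717) (-307674) 1075866
  | 1 => v6 301224 1536145 1360335 (-107384) (-14559) 438381
  | 2 => v6 80603 677816 615104 (-29388) 83032 127062
  | 3 => v6 10160 171208 158292 (-2909) 50803 16813
  | _ => fun _ => 0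

def rhi : ℕ → (ℕ → ℤ) := fun l => match l with
  | 0 => v6 301224 1536145 1360335 (-106149) 6946 438381
  | 1 => v6 80603 677816 615104 (-26190) 91655 127062
  | 2 => v6 10160 171208 158292 114 62253 16813
  | 3 => v6 0 0 0 1601 0 0
  | _ => fun _ => 0

def rlo1 : ℕ → ℤ := v6 521150 2066875 1807910 (-167439) (-124617) 704957

def rJ0 : ℕ → ℤ := fun l => match l with
  | 0 => 0
  | 1 => 0
  | 2 => 0
  | 3 => 0
  | 4 => 11224
  | _ => 0

def rJ1 : ℕ → ℤ := fun l => match l with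
  | 0 => 0
  | 1 => 0
  | 2 => 0
  | 3 => 0
  | 4 => 961
  | _ => 0

def rF0 : ℕ → ℤ := fun l => match l with
  | 0 => 0
  | 1 => 0
  | 2 => 0
  | 3 => 443
  | 4 => 19178
  | _ => 0

def rF1 : ℕ → ℤ := fun l => match l with
  | 0 => 0
  | 1 => 0
  | 2 => 0
  | 3 => 0
  | 4 => 4223
  | _ => 0

def rHm0 : ℕ → ℤ := fun l => match l with
  | 0 => 9334547
  | 1 => 7027683
  | 2 => 4747787
  | 3 => 2403044
  | _ => 0

def rHm1 : ℕ → ℤ := fun l => match l with
  | 0 => 7992339
  | 1 => 7027683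
  | 2 => 4747787
  | 3 => 2403044
  | _ => 0

def rHp : ℕ → ℤ := fun l => match l with
  | 0 => 7027683
  | 1 => 4720819
  | 2 => 2387777
  | 3 => 0
  | _ => 0

def rtg : ℕ → ℕ → ℤ := fun l => match l with
  | 0 => fun i => match i with | 0 => 0 | 1 => 0 | 2 => 0 | 3 => 0 | 4 => 41 | 5 => 41 | 6 => 16 | 7 => 20 | _ => 0
  | 1 => fun i => match i with | 0 => 0 | 1 => 0 | 2 => 0 | 3 => 0 | 4 => 15 | 5 => 9 | 6 => 0 | 7 => 0 | _ => 0
  | 2 => fun i => match i with | 0 => 0 | 1 => 0 | 2 => 0 | 3 => 0 | 4 => 0 | 5 => 0 | 6 => 0 | 7 => 0 | _ => 0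
  | 3 => fun i => match i with | 0 => 0 | 1 => 0 | 2 => 0 | 3 => 0 | 4 => 0 | 5 => 0 | 6 => 0 | 7 => 0 | _ => 0
  | _ => fun _ => 0

def rML : ℕ → E4 := fun l => match l with
  | 0 => ⟨162242900, 112908050, 166694700, 115536517⟩
  | 1 => ⟨173916900, 115058550, 179218009, 117836925⟩
  | 2 => ⟨207220050, 133652700, 214665017, 137549084⟩
  | 3 => ⟨263796600, 173201600, 274436992, 179145400⟩
  | _ => ⟨0, 0, 0, 0⟩

def rPL : ℕ → E4 := fun l => match l with
  | 0 => ⟨173916900, 115058550, 179218009, 117836925⟩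
  | 1 => ⟨207220050, 133652700, 214665017, 137549084⟩
  | 2 => ⟨263796600, 173201600, 274436992, 179145400⟩
  | 3 => ⟨346921300, 235807800, 361558109, 244437142⟩
  | _ => ⟨0, 0, 0, 0⟩

def rMF : ℕ → E4 := fun l => match l with
  | 0 => ⟨696339278, 546766826, 726863772, 567803125⟩
  | 1 => ⟨583756150, 506325226, 604510129, 523316796⟩
  | 2 => ⟨509492450, 417736550, 525977709, 429454517⟩
  | 3 => ⟨467641450, 356838700, 483734259, 366911834⟩
  | _ => ⟨0, 0, 0, 0⟩

def rPF : ℕ → E4 := fun l => match l with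
  | 0 => ⟨552495543, 486102948, 571280779, 502663431⟩
  | 1 => ⟨457168200, 379810500, 470748067, 389626567⟩
  | 2 => ⟨387991950, 296213900, 400255475, 303710134⟩
  | 3 => ⟨347918000, 236389650, 362584075, 245036050⟩
  | _ => ⟨0, 0, 0, 0⟩

def ru : EhN := ⟨kK, tT, rlo, rhi, rlo1, rJ0, rJ1, rF0, rF1, rHm0, rHm1, rHp, rtg, rML, rPL, rMF, rPF⟩

def rtn : ℕ → ℤ := fun l => match l with
  | 0 => 0
  | 1 => 0
  | 2 => 0
  | 3 => 0
  | 4 => 0
  | 5 => 76
  | _ => 0

noncomputable def rh : Ehk := SC.F.xr SC6.c RecK.rk SK6.e ru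

theorem rcd : rh.cd.ck q = true := by decide +kernel
theorem rLS : (rh.L false (RTab.rr RT.kRL 6)).ckS q = true := by decide +kernel
theorem rLT : (rh.L false (RTab.rr RT.kRL 6)).ckT q = true := by decide +kernel
theorem rFS : (rh.F false (RTab.rr RT.kRF 6)).ckS q = true := by decide +kernel
theorem rFT : (rh.F false (RTab.rr RT.kRF 6)).ckT q = true := by decide +kernel
theorem rj : rh.ckJ q.n dj 5904381 7010533 = true := by decide +kernel
theorem rms : rh.msB q.n = true := by decide +kernel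
theorem rnl : rh.nck false q 5904381 7010533 1095601 rtn = true := by decide +kernel

/-- **the checks of the numbers** -/
theorem rH : HCel rh q false dj 5904381 7010533 (RTab.rr RT.kRL 6) (RTab.rr RT.kRF 6) 6 :=
  ⟨⟨qo, rcd, rfl, rfl, rfl, rLS, rLT, rFS, rFT⟩, Ehk.msB_of rms, rj, fun h => absurd h (by decide)⟩

/-- **the pairs** -/
theorem pc : PCel ch rh q dj 5904381 7010533 RTab.rr 6 := ⟨cH, rH, rfl, rfl⟩

end Pool.Agent.RZ.RCO.EC6
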