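import Pool.Agent.RZ.RCO.EdG
import Pool.Agent.RZ.RCO.EdM
import Pool.Agent.RZ.RCO.SK7

/-! Generated: the end of the big cell 7, pairs (MP_73ccd0_lc). -/

set_option autoImplicit false
set_option maxRecDepth 100000

open Pool.Agent.RZ.RCO

namespace Pool.Agent.RZ.RCO.EC7

def qA : ℕ → ℤ := fun l => match l with
  | 0 => 0
  | 1 => 2600480
  | 2 => 5200944
  | 3 => 7801408
  | 4 => 10401888
  | _ => 0

def q : Ec0 := ⟨4, 10401888, 1174448, qA, 0⟩

def djH : ℕ → ℕ := fun l => match l with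
  | 0 => 1174448
  | 1 => 475344
  | 2 => 475344
  | 3 => 475344
  | 4 => 433411
  | 5 => 433410
  | 6 => 433411
  | 7 => 433411
  | 8 => 433410
  | 9 => 433411
  | 10 => 433411
  | 11 => 433410
  | 12 => 433411
  | 13 => 433411
  | 14 => 433410
  | 15 => 433411
  | 16 => 433413
  | 17 => 433414
  | 18 => 433413
  | 19 => 433413
  | 20 => 433414
  | 21 => 433413
  | _ => 0

def djR : ℕ → ℕ := fun l => match l with
  | 0 => 16777216
  | 1 => 16777216
  | 2 => 16777216
  | 3 => 16777216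
  | 4 => 16777216
  | 5 => 16777216
  | 6 => 16777216
  | 7 => 16777216
  | 8 => 16777216
  | 9 => 16777216
  | 10 => 16878408
  | 11 => 16986692
  | 12 => 17082010
  | 13 => 17165885
  | 14 => 17239681
  | 15 => 17304876
  | 16 => 17362958
  | 17 => 17415389
  | 18 => 17463547
  | 19 => 17508682
  | 20 => 17551874
  | 21 => 17595476
  | _ => 0

def djW : ℕ → ℕ := fun l => match l with
  | 0 => 18746037
  | 1 => 18494204
  | 2 => 18395597
  | 3 => 18298709
  | 4 => 18203448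
  | 5 => 18117936
  | 6 => 18033636
  | 7 => 17950484
  | 8 => 17868421
  | 9 => 17787386
  | 10 => 17707319
  | 11 => 17627925
  | 12 => 17548903
  | 13 => 17470222
  | 14 => 17391896
  | 15 => 17313934
  | 16 => 17236329
  | 17 => 17159074
  | 18 => 17082151
  | 19 => 17005537
  | 20 => 16929200
  | 21 => 16853105
  | _ => 0

def djK : ℕ → ℕ := fun l => match l with
  | 0 => 0
  | 1 => 4
  | 2 => 10
  | 3 => 16
  | 4 => 22
  | _ => 0

def dj : Dj := ⟨22, djH, djR, djW, 4, djK, 1174448⟩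

def kK : ℕ → ℕ := fun l => match l with
  | 0 => 0
  | 1 => 4
  | 2 => 10
  | 3 => 16
  | 4 => 22
  | _ => 0

def tT : ℕ → ℤ := fun l => match l with
  | 0 => 0
  | 1 => 1174448
  | 2 => 1649792
  | 3 => 2125136
  | 4 => 2600480
  | 5 => 3033891
  | 6 => 3467301
  | 7 => 3900712
  | 8 => 4334123
  | 9 => 4767533
  | 10 => 5200944
  | 11 => 5634355
  | 12 => 6067765
  | 13 => 6501176
  | 14 => 6934587
  | 15 => 7367997
  | 16 => 7801408
  | 17 => 8234821
  | 18 => 8668235
  | 19 => 9101648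
  | 20 => 9535061
  | 21 => 9968475
  | 22 => 10401888
  | _ => 0

theorem qo : q.ok = true := by decide +kernel
theorem djo : dj.ok = true := by decide +kernel
theorem djt : dj.tie 2048 SC7.c.D 744 0 2 3 4 5 3 = true := by decide +kernel
theorem djr : dj.rel q = true := by decide +kernel
theorem rel : q.Rel (RTab.tabq 1) 7 := Ec0.relB_of (by decide +kernel)

def clo : ℕ → (ℕ → ℤ) := fun l => match l with
  | 0 => v6 1013458 4884021 4183909 (-677345) (-417351) 1584168
  | 1 => v6 380441 2350942 2034306 (-266110) 87932 608810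
  | 2 => v6 104383 947579 839366 (-58306) 166973 173837
  | 3 => v6 13048 225391 205420 (-4113) 81376 23432
  | _ => fun _ => 0

def chi : ℕ → (ℕ → ℤ) := fun l => match l with
  | 0 => v6 380441 2350942 2034306 (-251651) 136759 608810
  | 1 => v6 104383 947579 839366 (-50677) 194923 173837
  | 2 => v6 13048 225391 205420 7381 92438 23432
  | 3 => v6 0 0 0 2483 0 0
  | _ => fun _ => 0

def clo1 : ℕ → ℤ := v6 727571 3740014 3213090 (-485089) (-167099) 1143670

def cJ0 : ℕ → ℤ := fun l => match l with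
  | 0 => 0
  | 1 => 0
  | 2 => 0
  | 3 => 9857
  | 4 => 58048
  | _ => 0

def cJ1 : ℕ → ℤ := fun l => match l with
  | 0 => 0
  | 1 => 0
  | 2 => 0
  | 3 => 1035
  | 4 => 27572
  | _ => 0

def cF0 : ℕ → ℤ := fun l => match l with
  | 0 => 0
  | 1 => 0
  | 2 => 11
  | 3 => 21100
  | 4 => 80055
  | _ => 0

def cF1 : ℕ → ℤ := fun l => match l with
  | 0 => 0
  | 1 => 0
  | 2 => 0
  | 3 => 6605
  | 4 => 44847
  | _ => 0

def cHm0 : ℕ → ℤ := fun l => match l with
  | 0 => 10562802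
  | 1 => 7962322
  | 2 => 5392128
  | 3 => 2727311
  | _ => 0

def cHm1 : ℕ → ℤ := fun l => match l with
  | 0 => 9388354
  | 1 => 7962322
  | 2 => 5392128
  | 3 => 2727311
  | _ => 0

def cHp : ℕ → ℤ := fun l => match l with
  | 0 => 7962322
  | 1 => 5361858
  | 2 => 2709876
  | 3 => 0
  | _ => 0

def ctg : ℕ → ℕ → ℤ := fun l => match l with
  | 0 => fun i => match i with | 0 => 0 | 1 => 0 | 2 => 0 | 3 => 0 | 4 => 76 | 5 => 67 | 6 => 61 | 7 => 41 | _ => 0
  | 1 => fun i => match i with | 0 => 0 | 1 => 0 | 2 => 0 | 3 => 0 | 4 => 22 | 5 => 32 | 6 => 0 | 7 => 8 | _ => 0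
  | 2 => fun i => match i with | 0 => 0 | 1 => 0 | 2 => 0 | 3 => 0 | 4 => 0 | 5 => 0 | 6 => 0 | 7 => 0 | _ => 0
  | 3 => fun i => match i with | 0 => 0 | 1 => 0 | 2 => 0 | 3 => 0 | 4 => 0 | 5 => 0 | 6 => 0 | 7 => 0 | _ => 0
  | _ => fun _ => 0

def cML : ℕ → E4 := fun l => match l with
  | 0 => ⟨203404650, 154760000, 225908342, 169594325⟩
  | 1 => ⟨221053600, 159832300, 243557459, 174667009⟩
  | 2 => ⟨271439350, 191724900, 293943467, 206559834⟩
  | 3 => ⟨356170650, 254160800, 378674984, 268995925⟩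
  | _ => ⟨0, 0, 0, 0⟩

def cPL : ℕ → E4 := fun l => match l with
  | 0 => ⟨221053600, 159832300, 243557459, 174667009⟩
  | 1 => ⟨271439350, 191724900, 293943467, 206559834⟩
  | 2 => ⟨356170650, 254160800, 378674984, 268995925⟩
  | 3 => ⟨478744050, 349844550, 501248675, 364679925⟩
  | _ => ⟨0, 0, 0, 0⟩

def cMF : ℕ → E4 := fun l => match l with
  | 0 => ⟨826143431, 679450735, 901777119, 731969139⟩
  | 1 => ⟨698165793, 615627819, 749380632, 656594761⟩
  | 2 => ⟨633385350, 531142000, 669079834, 557692734⟩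
  | 3 => ⟨614517500, 486279150, 640530625, 504198875⟩
  | _ => ⟨0, 0, 0, 0⟩

def cPF : ℕ → E4 := fun l => match l with
  | 0 => ⟨652263480, 585053935, 704627015, 624454883⟩
  | 1 => ⟨551743259, 469873997, 591003708, 498517080⟩
  | 2 => ⟨495760450, 392792900, 525436700, 413325400⟩
  | 3 => ⟨480447300, 351173300, 504582167, 367214767⟩
  | _ => ⟨0, 0, 0, 0⟩

def cu : EhN := ⟨kK, tT, clo, chi, clo1, cJ0, cJ1, cF0, cF1, cHm0, cHm1, cHp, ctg, cML, cPL, cMF, cPF⟩

def ctn : ℕ → ℤ := fun l => match l with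
  | 0 => 0
  | 1 => 0
  | 2 => 0
  | 3 => 0
  | 4 => 0
  | 5 => 76
  | _ => 0

noncomputable def ch : Ehk := SC.F.xc SC7.c RecK.rk SK7.e cu

theorem ccd : ch.cd.ck q = true := by decide +kernel
theorem cLS : (ch.L false (RTab.rr RT.kCL 7)).ckS q = true := by decide +kernel
theorem cLT : (ch.L false (RTab.rr RT.kCL 7)).ckT q = true := by decide +kernel
theorem cFS : (ch.F false (RTab.rr RT.kCF 7)).ckS q = true := by decide +kernel
theorem cFT : (ch.F false (RTab.rr RT.kCF 7)).ckT q = true := by decide +kernel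
theorem cj : ch.ckJ q.n dj 7811896 9323878 = true := by decide +kernel
theorem cms : ch.msB q.n = true := by decide +kernel
theorem cnl : ch.nck false q 7811896 9323878 1493454 ctn = true := by decide +kernel

/-- **the checks of the numbers** -/
theorem cH : HCel ch q false dj 7811896 9323878 (RTab.rr RT.kCL 7) (RTab.rr RT.kCF 7) 7 :=
  ⟨⟨qo, ccd, rfl, rfl, rfl, cLS, cLT, cFS, cFT⟩, Ehk.msB_of cms, cj, fun h => absurd h (by decide)⟩

def rlo : ℕ → (ℕ → ℤ) := fun l => match l with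
  | 0 => v6 1302013 3680168 3150535 (-265378) (-560777) 1598666
  | 1 => v6 459718 1994783 1743197 (-117692) (-29344) 644946
  | 2 => v6 120259 878638 784505 (-33797) 139118 185908
  | 3 => v6 14406 220999 201934 (-3461) 80458 24500
  | _ => fun _ => 0

def rhi : ℕ → (ℕ → ℤ) := fun l => match l with
  | 0 => v6 459718 1994783 1743197 (-121261) 6213 644946
  | 1 => v6 120259 878638 784505 (-30741) 155019 185908
  | 2 => v6 14406 220999 201934 (-259) 100778 24500
  | 3 => v6 0 0 0 1890 0 0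
  | _ => fun _ => 0

def rlo1 : ℕ → ℤ := v6 921610 2919002 2514943 (-200290) (-304708) 1167940

def rJ0 : ℕ → ℤ := fun l => match l with
  | 0 => 0
  | 1 => 0
  | 2 => 0
  | 3 => 9857
  | 4 => 58048
  | _ => 0

def rJ1 : ℕ → ℤ := fun l => match l with
  | 0 => 0
  | 1 => 0
  | 2 => 0
  | 3 => 1035
  | 4 => 27572
  | _ => 0

def rF0 : ℕ → ℤ := fun l => match l with
  | 0 => 0
  | 1 => 0
  | 2 => 11
  | 3 => 21100
  | 4 => 80055
  | _ => 0

def rF1 : ℕ → ℤ := fun l => match l with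
  | 0 => 0
  | 1 => 0
  | 2 => 0
  | 3 => 6605
  | 4 => 44847
  | _ => 0

def rHm0 : ℕ → ℤ := fun l => match l with
  | 0 => 10562802
  | 1 => 7962322
  | 2 => 5392128
  | 3 => 2727311
  | _ => 0

def rHm1 : ℕ → ℤ := fun l => match l with
  | 0 => 9388354
  | 1 => 7962322
  | 2 => 5392128
  | 3 => 2727311
  | _ => 0

def rHp : ℕ → ℤ := fun l => match l with
  | 0 => 7962322
  | 1 => 5361858
  | 2 => 2709876
  | 3 => 0
  | _ => 0

def rtg : ℕ → ℕ → ℤ := fun l => match l with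
  | 0 => fun i => match i with | 0 => 0 | 1 => 0 | 2 => 0 | 3 => 0 | 4 => 52 | 5 => 48 | 6 => 24 | 7 => 24 | _ => 0
  | 1 => fun i => match i with | 0 => 0 | 1 => 0 | 2 => 0 | 3 => 0 | 4 => 10 | 5 => 16 | 6 => 0 | 7 => 0 | _ => 0
  | 2 => fun i => match i with | 0 => 0 | 1 => 0 | 2 => 0 | 3 => 0 | 4 => 0 | 5 => 0 | 6 => 0 | 7 => 0 | _ => 0
  | 3 => fun i => match i with | 0 => 0 | 1 => 0 | 2 => 0 | 3 => 0 | 4 => 0 | 5 => 0 | 6 => 0 | 7 => 0 | _ => 0
  | _ => fun _ => 0

def rML : ℕ → E4 := fun l => match l with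
  | 0 => ⟨217752100, 163024100, 224590000, 167539150⟩
  | 1 => ⟨233773400, 167653350, 241861809, 172519067⟩
  | 2 => ⟨280053300, 197139500, 291383650, 203982125⟩
  | 3 => ⟨359974650, 256462100, 376231867, 266765600⟩
  | _ => ⟨0, 0, 0, 0⟩

def rPL : ℕ → E4 := fun l => match l with
  | 0 => ⟨233773400, 167653350, 241861809, 172519067⟩
  | 1 => ⟨280053300, 197139500, 291383650, 203982125⟩
  | 2 => ⟨359974650, 256462100, 376231867, 266765600⟩
  | 3 => ⟨478744050, 349844550, 501248675, 364679925⟩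
  | _ => ⟨0, 0, 0, 0⟩

def rMF : ℕ → E4 := fun l => match l with
  | 0 => ⟨853541466, 697120868, 896765602, 729099196⟩
  | 1 => ⟨719655051, 630842421, 748644770, 654984314⟩
  | 2 => ⟨643121900, 538104800, 667112284, 556013692⟩
  | 3 => ⟨615146000, 486759550, 639555867, 503479117⟩
  | _ => ⟨0, 0, 0, 0⟩

def rPF : ℕ → E4 := fun l => match l with
  | 0 => ⟨677626233, 600031488, 703739067, 623369047⟩
  | 1 => ⟨572168850, 483488900, 591808300, 498277250⟩
  | 2 => ⟨504771100, 399029800, 523281159, 411458367⟩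
  | 3 => ⟨481007900, 351585800, 503576109, 366463709⟩
  | _ => ⟨0, 0, 0, 0⟩

def ru : EhN := ⟨kK, tT, rlo, rhi, rlo1, rJ0, rJ1, rF0, rF1, rHm0, rHm1, rHp, rtg, rML, rPL, rMF, rPF⟩

def rtn : ℕ → ℤ := fun l => match l with
  | 0 => 0
  | 1 => 0
  | 2 => 0
  | 3 => 0
  | 4 => 0
  | 5 => 76
  | _ => 0

noncomputable def rh : Ehk := SC.F.xr SC7.c RecK.rk SK7.e ru

theorem rcd : rh.cd.ck q = true := by decide +kernel
theorem rLS : (rh.L false (RTab.rr RT.kRL 7)).ckS q = true := by decide +kernel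
theorem rLT : (rh.L false (RTab.rr RT.kRL 7)).ckT q = true := by decide +kernel
theorem rFS : (rh.F false (RTab.rr RT.kRF 7)).ckS q = true := by decide +kernel
theorem rFT : (rh.F false (RTab.rr RT.kRF 7)).ckT q = true := by decide +kernel
theorem rj : rh.ckJ q.n dj 7811896 9323878 = true := by decide +kernel
theorem rms : rh.msB q.n = true := by decide +kernel
theorem rnl : rh.nck false q 7811896 9323878 1493454 rtn = true := by decide +kernel

/-- **the checks of the numbers** -/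
theorem rH : HCel rh q false dj 7811896 9323878 (RTab.rr RT.kRL 7) (RTab.rr RT.kRF 7) 7 :=
  ⟨⟨qo, rcd, rfl, rfl, rfl, rLS, rLT, rFS, rFT⟩, Ehk.msB_of rms, rj, fun h => absurd h (by decide)⟩

/-- **the pairs** -/
theorem pc : PCel ch rh q dj 7811896 9323878 RTab.rr 7 := ⟨cH, rH, rfl, rfl⟩

end Pool.Agent.RZ.RCO.EC7
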