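import Pool.Agent.RZ.RCO.EdG
import Pool.Agent.RZ.RCO.EdM
import Pool.Agent.RZ.RCO.SK8

/-! Generated: the end of the big cell 8, pairs (MP_73ccd0_lc). -/

set_option autoImplicit false
set_option maxRecDepth 100000

open Pool.Agent.RZ.RCO

namespace Pool.Agent.RZ.RCO.EC8

def qA : ℕ → ℤ := fun l => match l with
  | 0 => 0
  | 1 => 2852128
  | 2 => 5704256
  | 3 => 8556384
  | 4 => 11408512
  | _ => 0

def q : Ec0 := ⟨4, 11408512, 1006656, qA, 0⟩

def djH : ℕ → ℕ := fun l => match l with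
  | 0 => 1006656
  | 1 => 461368
  | 2 => 461368
  | 3 => 461368
  | 4 => 461368
  | 5 => 475355
  | 6 => 475354
  | 7 => 475355
  | 8 => 475355
  | 9 => 475354
  | 10 => 475355
  | 11 => 475355
  | 12 => 475354
  | 13 => 475355
  | 14 => 475355
  | 15 => 475354
  | 16 => 475355
  | 17 => 475355
  | 18 => 475354
  | 19 => 475355
  | 20 => 475355
  | 21 => 475354
  | 22 => 475355
  | _ => 0

def djR : ℕ → ℕ := fun l => match l with
  | 0 => 16777216
  | 1 => 16777216
  | 2 => 16777216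
  | 3 => 16777216
  | 4 => 16777216
  | 5 => 16777216
  | 6 => 16777216
  | 7 => 16777216
  | 8 => 16777216
  | 9 => 16777216
  | 10 => 16897295
  | 11 => 17012985
  | 12 => 17113456
  | 13 => 17200745
  | 14 => 17276704
  | 15 => 17343300
  | 16 => 17402487
  | 17 => 17456124
  | 18 => 17505902
  | 19 => 17553273
  | 20 => 17601224
  | 21 => 17649909
  | 22 => 17698850
  | _ => 0

def djW : ℕ → ℕ := fun l => match l with
  | 0 => 18983709
  | 1 => 18757371
  | 2 => 18656880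
  | 3 => 18558252
  | 4 => 18461395
  | 5 => 18366220
  | 6 => 18269827
  | 7 => 18175037
  | 8 => 18081763
  | 9 => 17989918
  | 10 => 17899418
  | 11 => 17809866
  | 12 => 17720887
  | 13 => 17632477
  | 14 => 17544649
  | 15 => 17457405
  | 16 => 17370735
  | 17 => 17284620
  | 18 => 17199027
  | 19 => 17113918
  | 20 => 17029242
  | 21 => 16944942
  | 22 => 16860953
  | _ => 0

def djK : ℕ → ℕ := fun l => match l with
  | 0 => 0
  | 1 => 5
  | 2 => 11
  | 3 => 17
  | 4 => 23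
  | _ => 0

def dj : Dj := ⟨23, djH, djR, djW, 4, djK, 1006656⟩

def kK : ℕ → ℕ := fun l => match l with
  | 0 => 0
  | 1 => 5
  | 2 => 11
  | 3 => 17
  | 4 => 23
  | _ => 0

def tT : ℕ → ℤ := fun l => match l with
  | 0 => 0
  | 1 => 1006656
  | 2 => 1468024
  | 3 => 1929392
  | 4 => 2390760
  | 5 => 2852128
  | 6 => 3327483
  | 7 => 3802837
  | 8 => 4278192
  | 9 => 4753547
  | 10 => 5228901
  | 11 => 5704256
  | 12 => 6179611
  | 13 => 6654965
  | 14 => 7130320
  | 15 => 7605675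
  | 16 => 8081029
  | 17 => 8556384
  | 18 => 9031739
  | 19 => 9507093
  | 20 => 9982448
  | 21 => 10457803
  | 22 => 10933157
  | 23 => 11408512
  | _ => 0

theorem qo : q.ok = true := by decide +kernel
theorem djo : dj.ok = true := by decide +kernel
theorem djt : dj.tie 2048 SC8.c.D 744 0 2 3 4 5 3 = true := by decide +kernel
theorem djr : dj.rel q = true := by decide +kernel
theorem rel : q.Rel (RTab.tabq 1) 8 := Ec0.relB_of (by decide +kernel)

def clo : ℕ → (ℕ → ℤ) := fun l => match l with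
  | 0 => v6 1428908 6409265 5496811 (-894945) (-605789) 2253946
  | 1 => v6 523080 2983926 2558108 (-338573) 122619 834448
  | 2 => v6 141214 1178033 1029369 (-68435) 230502 237080
  | 3 => v6 17441 275639 248606 (-4814) 111466 31403
  | _ => fun _ => 0

def chi : ℕ → (ℕ → ℤ) := fun l => match l with
  | 0 => v6 523080 2983926 2558108 (-323360) 181104 834448
  | 1 => v6 141214 1178033 1029369 (-55556) 266126 237080
  | 2 => v6 17441 275639 248606 8747 130473 31403
  | 3 => v6 0 0 0 2918 0 0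
  | _ => fun _ => 0

def clo1 : ℕ → ℤ := v6 1109197 5200295 4459599 (-693204) (-328055) 1752936

def cJ0 : ℕ → ℤ := fun l => match l with
  | 0 => 0
  | 1 => 0
  | 2 => 3657
  | 3 => 42781
  | 4 => 204397
  | _ => 0

def cJ1 : ℕ → ℤ := fun l => match l with
  | 0 => 0
  | 1 => 0
  | 2 => 0
  | 3 => 23384
  | 4 => 94869
  | _ => 0

def cF0 : ℕ → ℤ := fun l => match l with
  | 0 => 0
  | 1 => 0
  | 2 => 15795
  | 3 => 71786
  | 4 => 247671
  | _ => 0

def cF1 : ℕ → ℤ := fun l => match l with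
  | 0 => 0
  | 1 => 0
  | 2 => 4958
  | 3 => 46505
  | 4 => 133355
  | _ => 0

def cHm0 : ℕ → ℤ := fun l => match l with
  | 0 => 11624085
  | 1 => 8788969
  | 2 => 5946610
  | 3 => 3008806
  | _ => 0

def cHm1 : ℕ → ℤ := fun l => match l with
  | 0 => 10617429
  | 1 => 8788969
  | 2 => 5946610
  | 3 => 3008806
  | _ => 0

def cHp : ℕ → ℤ := fun l => match l with
  | 0 => 8771957
  | 1 => 5916427
  | 2 => 2988185
  | 3 => 0
  | _ => 0

def ctg : ℕ → ℕ → ℤ := fun l => match l with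
  | 0 => fun i => match i with | 0 => 0 | 1 => 0 | 2 => 0 | 3 => 0 | 4 => 81 | 5 => 81 | 6 => 64 | 7 => 58 | _ => 0
  | 1 => fun i => match i with | 0 => 0 | 1 => 0 | 2 => 0 | 3 => 0 | 4 => 49 | 5 => 40 | 6 => 38 | 7 => 16 | _ => 0
  | 2 => fun i => match i with | 0 => 0 | 1 => 0 | 2 => 0 | 3 => 0 | 4 => 0 | 5 => 0 | 6 => 0 | 7 => 0 | _ => 0
  | 3 => fun i => match i with | 0 => 0 | 1 => 0 | 2 => 0 | 3 => 0 | 4 => 0 | 5 => 0 | 6 => 0 | 7 => 0 | _ => 0
  | _ => fun _ => 0

def cML : ℕ → E4 := fun l => match l with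
  | 0 => ⟨255300500, 205104400, 287146750, 227923825⟩
  | 1 => ⟨278491100, 214156800, 310337567, 236976650⟩
  | 2 => ⟨345734400, 260828500, 377581159, 283648609⟩
  | 3 => ⟨459936650, 349495350, 491783684, 372315709⟩
  | _ => ⟨0, 0, 0, 0⟩

def cPL : ℕ → E4 := fun l => match l with
  | 0 => ⟨278491100, 214156800, 310337567, 236976650⟩
  | 1 => ⟨345734400, 260828500, 377581159, 283648609⟩
  | 2 => ⟨459936650, 349495350, 491783684, 372315709⟩
  | 3 => ⟨628930000, 484062000, 660777367, 506882650⟩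
  | _ => ⟨0, 0, 0, 0⟩

def cMF : ℕ → E4 := fun l => match l with
  | 0 => ⟨978175084, 829647206, 1083747951, 908254935⟩
  | 1 => ⟨828755891, 739774883, 900146434, 798976860⟩
  | 2 => ⟨767674650, 656753900, 817726725, 695826484⟩
  | 3 => ⟨774591300, 633743050, 811324384, 660882000⟩
  | _ => ⟨0, 0, 0, 0⟩

def cPF : ℕ → E4 := fun l => match l with
  | 0 => ⟨770774009, 696569406, 844635164, 753703095⟩
  | 1 => ⟨662211901, 573628023, 718363292, 616527925⟩
  | 2 => ⟨616364300, 504721350, 658896425, 536273984⟩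
  | 3 => ⟨632073200, 486773200, 666509292, 511615159⟩
  | _ => ⟨0, 0, 0, 0⟩

def cu : EhN := ⟨kK, tT, clo, chi, clo1, cJ0, cJ1, cF0, cF1, cHm0, cHm1, cHp, ctg, cML, cPL, cMF, cPF⟩

def ctn : ℕ → ℤ := fun l => match l with
  | 0 => 0
  | 1 => 0
  | 2 => 0
  | 3 => 0
  | 4 => 0
  | 5 => 76
  | _ => 0

noncomputable def ch : Ehk := SC.F.xc SC8.c RecK.rk SK8.e cu

theorem ccd : ch.cd.ck q = true := by decide +kernel
theorem cLS : (ch.L false (RTab.rr RT.kCL 8)).ckS q = true := by decide +kernel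
theorem cLT : (ch.L false (RTab.rr RT.kCL 8)).ckT q = true := by decide +kernel
theorem cFS : (ch.F false (RTab.rr RT.kCF 8)).ckS q = true := by decide +kernel
theorem cFT : (ch.F false (RTab.rr RT.kCF 8)).ckT q = true := by decide +kernel
theorem cj : ch.ckJ q.n dj 9805188 11760311 = true := by decide +kernel
theorem cms : ch.msB q.n = true := by decide +kernel
theorem cnl : ch.nck false q 9805188 11760311 1925955 ctn = true := by decide +kernel

/-- **the checks of the numbers** -/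
theorem cH : HCel ch q false dj 9805188 11760311 (RTab.rr RT.kCL 8) (RTab.rr RT.kCF 8) 8 :=
  ⟨⟨qo, ccd, rfl, rfl, rfl, cLS, cLT, cFS, cFT⟩, Ehk.msB_of cms, cj, fun h => absurd h (by decide)⟩

def rlo : ℕ → (ℕ → ℤ) := fun l => match l with
  | 0 => v6 1884055 4573924 3879191 (-208131) (-897452) 2191646
  | 1 => v6 645193 2448929 2115568 (-110838) (-58706) 874222
  | 2 => v6 165834 1075081 946058 (-35339) 195829 253053
  | 3 => v6 19478 269118 243376 (-3895) 110218 32910
  | _ => fun _ => 0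

def rhi : ℕ → (ℕ → ℤ) := fun l => match l with
  | 0 => v6 645193 2448929 2115568 (-116574) (-9418) 874222
  | 1 => v6 165834 1075081 946058 (-34316) 221113 253053
  | 2 => v6 19478 269118 243376 (-1250) 140376 32910
  | 3 => v6 0 0 0 2068 0 0
  | _ => fun _ => 0

def rlo1 : ℕ → ℤ := v6 1446800 3823909 3256722 (-175816) (-584021) 1726663

def rJ0 : ℕ → ℤ := fun l => match l with
  | 0 => 0
  | 1 => 0
  | 2 => 3657
  | 3 => 42781
  | 4 => 204397
  | _ => 0

def rJ1 : ℕ → ℤ := fun l => match l with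
  | 0 => 0
  | 1 => 0
  | 2 => 0
  | 3 => 23384
  | 4 => 94869
  | _ => 0

def rF0 : ℕ → ℤ := fun l => match l with
  | 0 => 0
  | 1 => 0
  | 2 => 15795
  | 3 => 71786
  | 4 => 247671
  | _ => 0

def rF1 : ℕ → ℤ := fun l => match l with
  | 0 => 0
  | 1 => 0
  | 2 => 4958
  | 3 => 46505
  | 4 => 133355
  | _ => 0

def rHm0 : ℕ → ℤ := fun l => match l with
  | 0 => 11624085
  | 1 => 8788969
  | 2 => 5946610
  | 3 => 3008806
  | _ => 0

def rHm1 : ℕ → ℤ := fun l => match l with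
  | 0 => 10617429
  | 1 => 8788969
  | 2 => 5946610
  | 3 => 3008806
  | _ => 0

def rHp : ℕ → ℤ := fun l => match l with
  | 0 => 8771957
  | 1 => 5916427
  | 2 => 2988185
  | 3 => 0
  | _ => 0

def rtg : ℕ → ℕ → ℤ := fun l => match l with
  | 0 => fun i => match i with | 0 => 0 | 1 => 0 | 2 => 0 | 3 => 0 | 4 => 61 | 5 => 63 | 6 => 30 | 7 => 32 | _ => 0
  | 1 => fun i => match i with | 0 => 0 | 1 => 0 | 2 => 0 | 3 => 0 | 4 => 18 | 5 => 18 | 6 => 0 | 7 => 0 | _ => 0
  | 2 => fun i => match i with | 0 => 0 | 1 => 0 | 2 => 0 | 3 => 0 | 4 => 0 | 5 => 0 | 6 => 0 | 7 => 0 | _ => 0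
  | 3 => fun i => match i with | 0 => 0 | 1 => 0 | 2 => 0 | 3 => 0 | 4 => 0 | 5 => 0 | 6 => 0 | 7 => 0 | _ => 0
  | _ => fun _ => 0

def rML : ℕ → E4 := fun l => match l with
  | 0 => ⟨277026900, 219081800, 286698900, 226020675⟩
  | 1 => ⟨297926650, 227271450, 309309500, 234868267⟩
  | 2 => ⟨359132550, 269989000, 375046800, 280669542⟩
  | 3 => ⟨466319900, 353765600, 489211825, 369695467⟩
  | _ => ⟨0, 0, 0, 0⟩

def rPL : ℕ → E4 := fun l => match l with
  | 0 => ⟨297926650, 227271450, 309309500, 234868267⟩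
  | 1 => ⟨359132550, 269989000, 375046800, 280669542⟩
  | 2 => ⟨466319900, 353765600, 489211825, 369695467⟩
  | 3 => ⟨628930000, 484062000, 660777367, 506882650⟩
  | _ => ⟨0, 0, 0, 0⟩

def rMF : ℕ → E4 := fun l => match l with
  | 0 => ⟨1018444914, 858239649, 1075048019, 902320248⟩
  | 1 => ⟨860920839, 763855926, 899072940, 796912639⟩
  | 2 => ⟨783936000, 668933500, 816530775, 694366809⟩
  | 3 => ⟨775697500, 634595650, 809904859, 659742484⟩
  | _ => ⟨0, 0, 0, 0⟩

def rPF : ℕ → E4 := fun l => match l with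
  | 0 => ⟨807229062, 720738251, 841571801, 751860039⟩
  | 1 => ⟨693251200, 595834800, 719868134, 616683142⟩
  | 2 => ⟨631496500, 515771800, 657374917, 534488750⟩
  | 3 => ⟨633077550, 487523950, 665042259, 510428134⟩
  | _ => ⟨0, 0, 0, 0⟩

def ru : EhN := ⟨kK, tT, rlo, rhi, rlo1, rJ0, rJ1, rF0, rF1, rHm0, rHm1, rHp, rtg, rML, rPL, rMF, rPF⟩

def rtn : ℕ → ℤ := fun l => match l with
  | 0 => 0
  | 1 => 0
  | 2 => 0
  | 3 => 0
  | 4 => 0
  | 5 => 76
  | _ => 0

noncomputable def rh : Ehk := SC.F.xr SC8.c RecK.rk SK8.e ru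

theorem rcd : rh.cd.ck q = true := by decide +kernel
theorem rLS : (rh.L false (RTab.rr RT.kRL 8)).ckS q = true := by decide +kernel
theorem rLT : (rh.L false (RTab.rr RT.kRL 8)).ckT q = true := by decide +kernel
theorem rFS : (rh.F false (RTab.rr RT.kRF 8)).ckS q = true := by decide +kernel
theorem rFT : (rh.F false (RTab.rr RT.kRF 8)).ckT q = true := by decide +kernel
theorem rj : rh.ckJ q.n dj 9805188 11760311 = true := by decide +kernel
theorem rms : rh.msB q.n = true := by decide +kernel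
theorem rnl : rh.nck false q 9805188 11760311 1925955 rtn = true := by decide +kernel

/-- **the checks of the numbers** -/
theorem rH : HCel rh q false dj 9805188 11760311 (RTab.rr RT.kRL 8) (RTab.rr RT.kRF 8) 8 :=
  ⟨⟨qo, rcd, rfl, rfl, rfl, rLS, rLT, rFS, rFT⟩, Ehk.msB_of rms, rj, fun h => absurd h (by decide)⟩

/-- **the pairs** -/
theorem pc : PCel ch rh q dj 9805188 11760311 RTab.rr 8 := ⟨cH, rH, rfl, rfl⟩

end Pool.Agent.RZ.RCO.EC8
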