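import Pool.Agent.RZ.RCO.EdG
import Pool.Agent.RZ.RCO.EdM
import Pool.Agent.RZ.RCO.SK9

/-! Generated: the end of the big cell 9, pairs (MP_73ccd0_lc). -/

set_option autoImplicit false
set_option maxRecDepth 100000

open Pool.Agent.RZ.RCO

namespace Pool.Agent.RZ.RCO.EC9

def qA : ℕ → ℤ := fun l => match l with
  | 0 => 0
  | 1 => 3082816
  | 2 => 6165632
  | 3 => 9248448
  | 4 => 12331264
  | _ => 0

def q : Ec0 := ⟨4, 12331264, 922784, qA, 0⟩

def djH : ℕ → ℕ := fun l => match l with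
  | 0 => 922784
  | 1 => 540008
  | 2 => 540008
  | 3 => 540008
  | 4 => 540008
  | 5 => 513803
  | 6 => 513802
  | 7 => 513803
  | 8 => 513803
  | 9 => 513802
  | 10 => 513803
  | 11 => 513803
  | 12 => 513802
  | 13 => 513803
  | 14 => 513803
  | 15 => 513802
  | 16 => 513803
  | 17 => 513803
  | 18 => 513802
  | 19 => 513803
  | 20 => 513803
  | 21 => 513802
  | 22 => 513803
  | _ => 0

def djR : ℕ → ℕ := fun l => match l with
  | 0 => 16777216
  | 1 => 16777216
  | 2 => 16777216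
  | 3 => 16777216
  | 4 => 16777216
  | 5 => 16777216
  | 6 => 16777216
  | 7 => 16777216
  | 8 => 16777216
  | 9 => 16884113
  | 10 => 17010324
  | 11 => 17118690
  | 12 => 17211765
  | 13 => 17291904
  | 14 => 17361599
  | 15 => 17423297
  | 16 => 17479287
  | 17 => 17531589
  | 18 => 17582722
  | 19 => 17635357
  | 20 => 17688013
  | 21 => 17741370
  | 22 => 17795284
  | _ => 0

def djW : ℕ → ℕ := fun l => match l with
  | 0 => 19213176
  | 1 => 18996030
  | 2 => 18873147
  | 3 => 18753107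
  | 4 => 18635753
  | 5 => 18520931
  | 6 => 18413900
  | 7 => 18308907
  | 8 => 18205834
  | 9 => 18104567
  | 10 => 18004682
  | 11 => 17905715
  | 12 => 17807583
  | 13 => 17710304
  | 14 => 17613876
  | 15 => 17518282
  | 16 => 17423492
  | 17 => 17329458
  | 18 => 17236123
  | 19 => 17143417
  | 20 => 17051256
  | 21 => 16959556
  | 22 => 16868235
  | _ => 0

def djK : ℕ → ℕ := fun l => match l with
  | 0 => 0
  | 1 => 5
  | 2 => 11
  | 3 => 17
  | 4 => 23
  | _ => 0

def dj : Dj := ⟨23, djH, djR, djW, 4, djK, 922784⟩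

def kK : ℕ → ℕ := fun l => match l with
  | 0 => 0
  | 1 => 5
  | 2 => 11
  | 3 => 17
  | 4 => 23
  | _ => 0

def tT : ℕ → ℤ := fun l => match l with
  | 0 => 0
  | 1 => 922784
  | 2 => 1462792
  | 3 => 2002800
  | 4 => 2542808
  | 5 => 3082816
  | 6 => 3596619
  | 7 => 4110421
  | 8 => 4624224
  | 9 => 5138027
  | 10 => 5651829
  | 11 => 6165632
  | 12 => 6679435
  | 13 => 7193237
  | 14 => 7707040
  | 15 => 8220843
  | 16 => 8734645
  | 17 => 9248448
  | 18 => 9762251
  | 19 => 10276053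
  | 20 => 10789856
  | 21 => 11303659
  | 22 => 11817461
  | 23 => 12331264
  | _ => 0

theorem qo : q.ok = true := by decide +kernel
theorem djo : dj.ok = true := by decide +kernel
theorem djt : dj.tie 2048 SC9.c.D 744 0 2 3 4 5 3 = true := by decide +kernel
theorem djr : dj.rel q = true := by decide +kernel
theorem rel : q.Rel (RTab.tabq 1) 9 := Ec0.relB_of (by decide +kernel)

def clo : ℕ → (ℕ → ℤ) := fun l => match l with
  | 0 => v6 1935021 8187306 7062676 (-1125484) (-844879) 3100971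
  | 1 => v6 687979 3677640 3132072 (-409462) 140178 1097608
  | 2 => v6 182616 1419559 1226582 (-77909) 295208 310859
  | 3 => v6 22296 326975 292224 (-5371) 143667 40228
  | _ => fun _ => 0

def chi : ℕ → (ℕ → ℤ) := fun l => match l with
  | 0 => v6 687979 3677640 3132072 (-391712) 219992 1097608
  | 1 => v6 182616 1419559 1226582 (-56951) 336138 310859
  | 2 => v6 22296 326975 292224 10169 171687 40228
  | 3 => v6 0 0 0 3325 0 0
  | _ => fun _ => 0

def clo1 : ℕ → ℤ := v6 1561743 6837421 5886123 (-905842) (-526129) 2501302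

def cJ0 : ℕ → ℤ := fun l => match l with
  | 0 => 0
  | 1 => 0
  | 2 => 26920
  | 3 => 100285
  | 4 => 456855
  | _ => 0

def cJ1 : ℕ → ℤ := fun l => match l with
  | 0 => 0
  | 1 => 0
  | 2 => 12915
  | 3 => 72447
  | 4 => 270337
  | _ => 0

def cF0 : ℕ → ℤ := fun l => match l with
  | 0 => 0
  | 1 => 8444
  | 2 => 61751
  | 3 => 157035
  | 4 => 531823
  | _ => 0

def cF1 : ℕ → ℤ := fun l => match l with
  | 0 => 0
  | 1 => 1563
  | 2 => 40122
  | 3 => 123155
  | 4 => 340577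
  | _ => 0

def cHm0 : ℕ → ℤ := fun l => match l with
  | 0 => 12603040
  | 1 => 9552645
  | 2 => 6457289
  | 3 => 3269887
  | _ => 0

def cHm1 : ℕ → ℤ := fun l => match l with
  | 0 => 11680256
  | 1 => 9552645
  | 2 => 6457289
  | 3 => 3269887
  | _ => 0

def cHp : ℕ → ℤ := fun l => match l with
  | 0 => 9520224
  | 1 => 6426995
  | 2 => 3245467
  | 3 => 0
  | _ => 0

def ctg : ℕ → ℕ → ℤ := fun l => match l with
  | 0 => fun i => match i with | 0 => 20 | 1 => 8 | 2 => 1 | 3 => 7 | 4 => 81 | 5 => 81 | 6 => 78 | 7 => 73 | _ => 0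
  | 1 => fun i => match i with | 0 => 1 | 1 => 7 | 2 => 0 | 3 => 0 | 4 => 50 | 5 => 56 | 6 => 46 | 7 => 32 | _ => 0
  | 2 => fun i => match i with | 0 => 0 | 1 => 0 | 2 => 0 | 3 => 0 | 4 => 0 | 5 => 6 | 6 => 0 | 7 => 0 | _ => 0
  | 3 => fun i => match i with | 0 => 0 | 1 => 0 | 2 => 0 | 3 => 0 | 4 => 0 | 5 => 0 | 6 => 0 | 7 => 0 | _ => 0
  | _ => fun _ => 0

def cML : ℕ → E4 := fun l => match l with
  | 0 => ⟨312446411, 257743227, 355833721, 290093803⟩
  | 1 => ⟨342260827, 271224774, 385568513, 303553023⟩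
  | 2 => ⟨430139950, 334752500, 473434342, 367070067⟩
  | 3 => ⟨579506700, 453924200, 622801442, 486242075⟩
  | _ => ⟨0, 0, 0, 0⟩

def cPL : ℕ → E4 := fun l => match l with
  | 0 => ⟨342260827, 271224774, 385568513, 303553023⟩
  | 1 => ⟨430139950, 334752500, 473434342, 367070067⟩
  | 2 => ⟨579506700, 453924200, 622801442, 486242075⟩
  | 3 => ⟨807173400, 637218650, 850468525, 669536859⟩
  | _ => ⟨0, 0, 0, 0⟩

def cMF : ℕ → E4 := fun l => match l with
  | 0 => ⟨1147788621, 985935077, 1289909716, 1095290164⟩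
  | 1 => ⟨972199858, 870573081, 1070570688, 951905048⟩
  | 2 => ⟨916911683, 790378659, 984611083, 844455103⟩
  | 3 => ⟨958300950, 795701500, 1008210800, 833857067⟩
  | _ => ⟨0, 0, 0, 0⟩

def cPF : ℕ → E4 := fun l => match l with
  | 0 => ⟨903168818, 814369598, 1004188660, 894879562⟩
  | 1 => ⟨785504991, 684477485, 863221394, 744863104⟩
  | 2 => ⟨752941700, 625817850, 811523525, 670778892⟩
  | 3 => ⟨812431200, 641963450, 859616259, 677394225⟩
  | _ => ⟨0, 0, 0, 0⟩

def cu : EhN := ⟨kK, tT, clo, chi, clo1, cJ0, cJ1, cF0, cF1, cHm0, cHm1, cHp, ctg, cML, cPL, cMF, cPF⟩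

def ctn : ℕ → ℤ := fun l => match l with
  | 0 => 0
  | 1 => 0
  | 2 => 0
  | 3 => 0
  | 4 => 0
  | 5 => 76
  | _ => 0

noncomputable def ch : Ehk := SC.F.xc SC9.c RecK.rk SK9.e cu

theorem ccd : ch.cd.ck q = true := by decide +kernel
theorem cLS : (ch.L false (RTab.rr RT.kCL 9)).ckS q = true := by decide +kernel
theorem cLT : (ch.L false (RTab.rr RT.kCL 9)).ckT q = true := by decide +kernel
theorem cFS : (ch.F false (RTab.rr RT.kCF 9)).ckS q = true := by decide +kernel
theorem cFT : (ch.F false (RTab.rr RT.kCF 9)).ckT q = true := by decide +kernel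
theorem cj : ch.ckJ q.n dj 12002402 14465947 = true := by decide +kernel
theorem cms : ch.msB q.n = true := by decide +kernel
theorem cnl : ch.nck false q 12002402 14465947 2420000 ctn = true := by decide +kernel

/-- **the checks of the numbers** -/
theorem cH : HCel ch q false dj 12002402 14465947 (RTab.rr RT.kCL 9) (RTab.rr RT.kCF 9) 9 :=
  ⟨⟨qo, ccd, rfl, rfl, rfl, cLS, cLT, cFS, cFT⟩, Ehk.msB_of cms, cj, fun h => absurd h (by decide)⟩

def rlo : ℕ → (ℕ → ℤ) := fun l => match l with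
  | 0 => v6 2616437 5538165 4663042 (-61964) (-1321860) 2885580
  | 1 => v6 865188 2919928 2497115 (-85927) (-104542) 1134102
  | 2 => v6 217992 1275076 1108233 (-33595) 253689 330736
  | 3 => v6 25153 317876 284853 (-4089) 141938 42237
  | _ => fun _ => 0

def rhi : ℕ → (ℕ → ℤ) := fun l => match l with
  | 0 => v6 865188 2919928 2497115 (-86612) (-29238) 1134102
  | 1 => v6 217992 1275076 1108233 (-36498) 290571 330736
  | 2 => v6 25153 317876 284853 (-2595) 182981 42237
  | 3 => v6 0 0 0 2094 0 0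
  | _ => fun _ => 0

def rlo1 : ℕ → ℤ := v6 2092233 4754445 4014712 (-69341) (-934937) 2361308

def rJ0 : ℕ → ℤ := fun l => match l with
  | 0 => 0
  | 1 => 0
  | 2 => 26920
  | 3 => 100285
  | 4 => 456855
  | _ => 0

def rJ1 : ℕ → ℤ := fun l => match l with
  | 0 => 0
  | 1 => 0
  | 2 => 12915
  | 3 => 72447
  | 4 => 270337
  | _ => 0

def rF0 : ℕ → ℤ := fun l => match l with
  | 0 => 0
  | 1 => 8444
  | 2 => 61751
  | 3 => 157035
  | 4 => 531823
  | _ => 0

def rF1 : ℕ → ℤ := fun l => match l with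
  | 0 => 0
  | 1 => 1563
  | 2 => 40122
  | 3 => 123155
  | 4 => 340577
  | _ => 0

def rHm0 : ℕ → ℤ := fun l => match l with
  | 0 => 12603040
  | 1 => 9552645
  | 2 => 6457289
  | 3 => 3269887
  | _ => 0

def rHm1 : ℕ → ℤ := fun l => match l with
  | 0 => 11680256
  | 1 => 9552645
  | 2 => 6457289
  | 3 => 3269887
  | _ => 0

def rHp : ℕ → ℤ := fun l => match l with
  | 0 => 9520224
  | 1 => 6426995
  | 2 => 3245467
  | 3 => 0
  | _ => 0

def rtg : ℕ → ℕ → ℤ := fun l => match l with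
  | 0 => fun i => match i with | 0 => 0 | 1 => 0 | 2 => 0 | 3 => 0 | 4 => 81 | 5 => 75 | 6 => 42 | 7 => 41 | _ => 0
  | 1 => fun i => match i with | 0 => 0 | 1 => 0 | 2 => 0 | 3 => 0 | 4 => 25 | 5 => 24 | 6 => 0 | 7 => 0 | _ => 0
  | 2 => fun i => match i with | 0 => 0 | 1 => 0 | 2 => 0 | 3 => 0 | 4 => 0 | 5 => 0 | 6 => 0 | 7 => 0 | _ => 0
  | 3 => fun i => match i with | 0 => 0 | 1 => 0 | 2 => 0 | 3 => 0 | 4 => 0 | 5 => 0 | 6 => 0 | 7 => 0 | _ => 0
  | _ => fun _ => 0

def rML : ℕ → E4 := fun l => match l with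
  | 0 => ⟨343725400, 278932950, 356874175, 288756392⟩
  | 1 => ⟨370648650, 291246850, 386082525, 302106484⟩
  | 2 => ⟨450305300, 349126700, 471809792, 364336084⟩
  | 3 => ⟨589708450, 461072200, 620693275, 483648909⟩
  | _ => ⟨0, 0, 0, 0⟩

def rPL : ℕ → E4 := fun l => match l with
  | 0 => ⟨370648650, 291246850, 386082525, 302106484⟩
  | 1 => ⟨450305300, 349126700, 471809792, 364336084⟩
  | 2 => ⟨589708450, 461072200, 620693275, 483648909⟩
  | 3 => ⟨807173400, 637218650, 850468525, 669536859⟩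
  | _ => ⟨0, 0, 0, 0⟩

def rMF : ℕ → E4 := fun l => match l with
  | 0 => ⟨1205344235, 1028086679, 1277736718, 1086346764⟩
  | 1 => ⟨1017750018, 905427968, 1066644099, 948737564⟩
  | 2 => ⟨942335450, 809859400, 985186434, 844001567⟩
  | 3 => ⟨960220900, 797100800, 1006371784, 832214934⟩
  | _ => ⟨0, 0, 0, 0⟩

def rPF : ℕ → E4 := fun l => match l with
  | 0 => ⟨952491702, 850243240, 998121418, 890589043⟩
  | 1 => ⟨830026000, 717296850, 865038275, 745222809⟩
  | 2 => ⟨776866600, 643778000, 811740917, 669943500⟩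
  | 3 => ⟨814208300, 643219900, 857710217, 675685067⟩
  | _ => ⟨0, 0, 0, 0⟩

def ru : EhN := ⟨kK, tT, rlo, rhi, rlo1, rJ0, rJ1, rF0, rF1, rHm0, rHm1, rHp, rtg, rML, rPL, rMF, rPF⟩

def rtn : ℕ → ℤ := fun l => match l with
  | 0 => 0
  | 1 => 0
  | 2 => 0
  | 3 => 0
  | 4 => 0
  | 5 => 76
  | _ => 0

noncomputable def rh : Ehk := SC.F.xr SC9.c RecK.rk SK9.e ru

theorem rcd : rh.cd.ck q = true := by decide +kernel
theorem rLS : (rh.L false (RTab.rr RT.kRL 9)).ckS q = true := by decide +kernel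
theorem rLT : (rh.L false (RTab.rr RT.kRL 9)).ckT q = true := by decide +kernel
theorem rFS : (rh.F false (RTab.rr RT.kRF 9)).ckS q = true := by decide +kernel
theorem rFT : (rh.F false (RTab.rr RT.kRF 9)).ckT q = true := by decide +kernel
theorem rj : rh.ckJ q.n dj 12002402 14465947 = true := by decide +kernel
theorem rms : rh.msB q.n = true := by decide +kernel
theorem rnl : rh.nck false q 12002402 14465947 2420000 rtn = true := by decide +kernel

/-- **the checks of the numbers** -/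
theorem rH : HCel rh q false dj 12002402 14465947 (RTab.rr RT.kRL 9) (RTab.rr RT.kRF 9) 9 :=
  ⟨⟨qo, rcd, rfl, rfl, rfl, rLS, rLT, rFS, rFT⟩, Ehk.msB_of rms, rj, fun h => absurd h (by decide)⟩

/-- **the pairs** -/
theorem pc : PCel ch rh q dj 12002402 14465947 RTab.rr 9 := ⟨cH, rH, rfl, rfl⟩

end Pool.Agent.RZ.RCO.EC9
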