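import Pool.Agent.RZ.RCO.Gg9
import Pool.Agent.RZ.RCO.SAsdA
import Pool.Agent.RZ.RCO.SBs0K
import Pool.Agent.RZ.RCO.SBs0R
import Pool.Agent.RZ.RCO.SCr

/-! The tables of a cell (MP_73ccd0_lc). -/

set_option autoImplicit false
set_option maxRecDepth 100000

namespace Pool.Agent.RZ.RCO.SCs0

open Sg

def a : ℕ → ℕ := fun l => match l with | 0 => 0 | _ => 1
def K : ℕ → ℕ := fun l => match l with | 0 => 0 | _ => SBs0K1.D
def R : ℕ → ℕ := fun l => match l with | 0 => 0 | _ => SBs0R1.D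

/-- the data of the cell -/
def c : Cdc := ⟨SAs0.D, 1, 1, a, K, R⟩

theorem bK1 : SC.Fs.bK SBs0K1.D 1 SAs0.D = true := by decide +kernel
theorem bR0 : SC.Fs.bR SBs0R1.D 1 SAs0.D 0 = true := by decide +kernel
theorem mo : SC.Fs.X.moD SBs0K1.D 1 = true := by decide +kernel

theorem sx : ∀ j < 1, SC.Fs.x.sheet.At SAs0.D SC.Fs.x.R j := fun j hj => Sheet.At.left (SAs0.rowsSASL j hj)

/-- **the checks of the data** -/
theorem dat : SC.Fs.Dat c where
  hm := Tp12.msh sx
  nc := by decide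
  a0 := rfl
  an := rfl
  lt := lowS low0 (by decide)
  sK := allS all0 SBs0K1.rows
  bK := allS all0 bK1
  bN := nbr0
  mo := mo
  sR := allS all0 SBs0R1.rows
  bR := lowS low0 bR0

end Pool.Agent.RZ.RCO.SCs0
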