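import Pool.Agent.RZ.RCO.KsD0
import Pool.Agent.RZ.RCO.SCk
import Pool.Agent.RZ.RCO.SCs0

/-! The sums of level 2 of a cell (MP_73ccd0_lc). -/

set_option autoImplicit false
set_option maxRecDepth 100000

namespace Pool.Agent.RZ.RCO.SKs0

open Sg

def d12 : ℕ → ℕ := fun l => match l with | 0 => 0 | _ => Ks12_0_1.D
def d13 : ℕ → ℕ := fun l => match l with | 0 => 0 | _ => Ks13_0_1.D

/-- the data of the sums of level 2 -/
def e : Cdk := ⟨d12, d13, d12, d12⟩

theorem b12_1 : SC.rs.r12.bZ SC.Fs.X SC.Fs.X Ks12_0_1.D 1 SBs0K1.D SBs0K1.D = true := by decide +kernel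
theorem b13_1 : SC.rs.r13.bE SC.Fs.X SC.Fs.Y Ks13_0_1.D 1 SBs0K1.D SBs0R1.D = true := by decide +kernel

/-- **the checks of the data**, columns -/
theorem datC : Crk.DatC SC.Fs SCs0.c SC.rs e where
  s12 := allS all0 Ks12_0_1.rows
  b12 := allS all0 b12_1
  g12 := nbr0
  s13 := allS all0 Ks13_0_1.rows
  b13 := allS all0 b13_1

end Pool.Agent.RZ.RCO.SKs0
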