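import Pool.Agent.RZ.RCO.EdG
import Pool.Agent.RZ.RCO.EdM
import Pool.Agent.RZ.RCO.SKs0

/-! Generated: the end of the big cell 0, star (MP_73ccd0_lc). -/

set_option autoImplicit false
set_option maxRecDepth 100000

open Pool.Agent.RZ.RCO

namespace Pool.Agent.RZ.RCO.ECs0

def qA : ℕ → ℤ := fun l => match l with
  | 0 => 0
  | 1 => 838864
  | _ => 0

def q : Ec0 := ⟨1, 838864, 838864, qA, 335544⟩

def djH : ℕ → ℕ := fun l => match l with
  | 0 => 838864
  | _ => 0

def djR : ℕ → ℕ := fun l => match l with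
  | 0 => 16777216
  | _ => 0

def djW : ℕ → ℕ := fun l => match l with
  | 0 => 16917739
  | _ => 0

def djK : ℕ → ℕ := fun l => match l with
  | 0 => 0
  | 1 => 1
  | _ => 0

def dj : Dj := ⟨1, djH, djR, djW, 1, djK, 838864⟩

def kK : ℕ → ℕ := fun l => match l with
  | 0 => 0
  | 1 => 1
  | _ => 0

def tT : ℕ → ℤ := fun l => match l with
  | 0 => 0
  | 1 => 838864
  | _ => 0

theorem qo : q.ok = true := by decide +kernel
theorem djo : dj.ok = true := by decide +kernel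
theorem djt : dj.tie 1024 SCs0.c.D 624 0 2 3 4 5 3 = true := by decide +kernel
theorem djr : dj.rel q = true := by decide +kernel
theorem rel : q.Rel (RTab.tabq 1) 0 := Ec0.relB_of (by decide +kernel)

def slo : ℕ → (ℕ → ℤ) := fun l => match l with
  | 0 => v6 5724 21450 19351 (-2110) (-461) 984
  | _ => fun _ => 0

def shi : ℕ → (ℕ → ℤ) := fun l => match l with
  | 0 => v6 0 0 0 0 0 0
  | _ => fun _ => 0

def slo1 : ℕ → ℤ := v6 0 0 0 0 0 0

def sJ0 : ℕ → ℤ := fun l => match l with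
  | 0 => 0
  | 1 => 0
  | _ => 0

def sJ1 : ℕ → ℤ := fun l => match l with
  | 0 => 0
  | 1 => 0
  | _ => 0

def sF0 : ℕ → ℤ := fun l => match l with
  | 0 => 0
  | 1 => 0
  | _ => 0

def sF1 : ℕ → ℤ := fun l => match l with
  | 0 => 0
  | 1 => 0
  | _ => 0

def sHm0 : ℕ → ℤ := fun l => match l with
  | 0 => 838864
  | _ => 0

def sHm1 : ℕ → ℤ := fun l => match l with
  | 0 => 0
  | _ => 0

def sHp : ℕ → ℤ := fun l => match l with
  | 0 => 0
  | _ => 0

def stg : ℕ → ℕ → ℤ := fun l => match l with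
  | 0 => fun i => match i with | 0 => 0 | 1 => 0 | 2 => 0 | 3 => 0 | 4 => 0 | 5 => 0 | 6 => 0 | 7 => 0 | _ => 0
  | _ => fun _ => 0

def sML : ℕ → E4 := fun l => match l with
  | 0 => ⟨2149050, 0, 2159950, 0⟩
  | _ => ⟨0, 0, 0, 0⟩

def sPL : ℕ → E4 := fun l => match l with
  | 0 => ⟨4309150, 0, 4320055, 0⟩
  | _ => ⟨0, 0, 0, 0⟩

def sMF : ℕ → E4 := fun l => match l with
  | 0 => ⟨46541350, 0, 46642417, 0⟩
  | _ => ⟨0, 0, 0, 0⟩

def sPF : ℕ → E4 := fun l => match l with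
  | 0 => ⟨4311950, 0, 4323642, 0⟩
  | _ => ⟨0, 0, 0, 0⟩

def su : EhN := ⟨kK, tT, slo, shi, slo1, sJ0, sJ1, sF0, sF1, sHm0, sHm1, sHp, stg, sML, sPL, sMF, sPF⟩

def stn : ℕ → ℤ := fun l => match l with
  | 0 => 0
  | 1 => 0
  | 2 => 0
  | 3 => 0
  | 4 => 0
  | 5 => 0
  | _ => 0

noncomputable def sh : Ehk := SC.Fs.xc SCs0.c RecK.rk SKs0.e su

theorem scd : sh.cd.ck q = true := by decide +kernel
theorem sLS : (sh.L true (RTab.rr RT.kSL 0)).ckS q = true := by decide +kernel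
theorem sLT : (sh.L true (RTab.rr RT.kSL 0)).ckT q = true := by decide +kernel
theorem sFS : (sh.F true (RTab.rr RT.kSF 0)).ckS q = true := by decide +kernel
theorem sFT : (sh.F true (RTab.rr RT.kSF 0)).ckT q = true := by decide +kernel
theorem sj : sh.ckJ q.n dj 85438 92585 = true := by decide +kernel
theorem sms : sh.msB q.n = true := by decide +kernel
theorem snl : sh.nck true q 85438 92585 7107 stn = true := by decide +kernel
theorem sz : sh.ckZk q true (RTab.rr RT.kSL 0) (RTab.rr RT.kSF 0) = true := by decide +kernel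

/-- **the checks of the numbers** -/
theorem sH : HCel sh q true dj 85438 92585 (RTab.rr RT.kSL 0) (RTab.rr RT.kSF 0) 0 :=
  ⟨⟨qo, scd, rfl, rfl, rfl, sLS, sLT, sFS, sFT⟩, Ehk.msB_of sms, sj, fun _ => sz⟩

end Pool.Agent.RZ.RCO.ECs0
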