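import Pool.Agent.RZ.RCO.EdG
import Pool.Agent.RZ.RCO.EdM
import Pool.Agent.RZ.RCO.SKs1

/-! Generated: the end of the big cell 1, star (MP_73ccd0_lc). -/

set_option autoImplicit false
set_option maxRecDepth 100000

open Pool.Agent.RZ.RCO

namespace Pool.Agent.RZ.RCO.ECs1

def qA : ℕ → ℤ := fun l => match l with
  | 0 => 0
  | 1 => 939552
  | 2 => 1185600
  | 3 => 1431664
  | 4 => 1677728
  | _ => 0

def q : Ec0 := ⟨4, 1677728, 939552, qA, 0⟩

def djH : ℕ → ℕ := fun l => match l with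
  | 0 => 939552
  | 1 => 61512
  | 2 => 61512
  | 3 => 61512
  | 4 => 61512
  | 5 => 61516
  | 6 => 61516
  | 7 => 61516
  | 8 => 61516
  | 9 => 61516
  | 10 => 61516
  | 11 => 61516
  | 12 => 61516
  | _ => 0

def djR : ℕ → ℕ := fun l => match l with
  | 0 => 16777216
  | 1 => 16777216
  | 2 => 16777216
  | 3 => 16777216
  | 4 => 16777216
  | 5 => 16777216
  | 6 => 16777216
  | 7 => 16777216
  | 8 => 16777216
  | 9 => 16777216
  | 10 => 16777216
  | 11 => 16777216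
  | 12 => 16777216
  | _ => 0

def djW : ℕ → ℕ := fun l => match l with
  | 0 => 17059731
  | 1 => 16900775
  | 2 => 16890439
  | 3 => 16880112
  | 4 => 16869791
  | 5 => 16859478
  | 6 => 16849171
  | 7 => 16838871
  | 8 => 16828578
  | 9 => 16818292
  | 10 => 16808013
  | 11 => 16797741
  | 12 => 16787475
  | _ => 0

def djK : ℕ → ℕ := fun l => match l with
  | 0 => 0
  | 1 => 1
  | 2 => 5
  | 3 => 9
  | 4 => 13
  | _ => 0

def dj : Dj := ⟨13, djH, djR, djW, 4, djK, 939552⟩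

def kK : ℕ → ℕ := fun l => match l with
  | 0 => 0
  | 1 => 1
  | 2 => 5
  | 3 => 9
  | 4 => 13
  | _ => 0

def tT : ℕ → ℤ := fun l => match l with
  | 0 => 0
  | 1 => 939552
  | 2 => 1001064
  | 3 => 1062576
  | 4 => 1124088
  | 5 => 1185600
  | 6 => 1247116
  | 7 => 1308632
  | 8 => 1370148
  | 9 => 1431664
  | 10 => 1493180
  | 11 => 1554696
  | 12 => 1616212
  | 13 => 1677728
  | _ => 0

theorem qo : q.ok = true := by decide +kernel
theorem djo : dj.ok = true := by decide +kernel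
theorem djt : dj.tie 1024 SCs1.c.D 624 0 2 3 4 5 3 = true := by decide +kernel
theorem djr : dj.rel q = true := by decide +kernel
theorem rel : q.Rel (RTab.tabq 1) 1 := Ec0.relB_of (by decide +kernel)

def slo : ℕ → (ℕ → ℤ) := fun l => match l with
  | 0 => v6 17630 86186 83219 (-2591) (-804) 5953
  | 1 => v6 3024 16412 16568 372 303 644
  | 2 => v6 1352 7318 7243 5 69 209
  | 3 => v6 364 1859 1848 76 85 93
  | _ => fun _ => 0

def shi : ℕ → (ℕ → ℤ) := fun l => match l with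
  | 0 => v6 3024 16412 16568 372 303 644
  | 1 => v6 1352 7318 7243 (-5) 68 209
  | 2 => v6 364 1859 1848 55 57 69
  | 3 => v6 0 0 0 31 29 24
  | _ => fun _ => 0

def slo1 : ℕ → ℤ := v6 3024 16412 16568 372 303 644

def sJ0 : ℕ → ℤ := fun l => match l with
  | 0 => 0
  | 1 => 0
  | 2 => 0
  | 3 => 0
  | 4 => 0
  | _ => 0

def sJ1 : ℕ → ℤ := fun l => match l with
  | 0 => 0
  | 1 => 0
  | 2 => 0
  | 3 => 0
  | 4 => 0
  | _ => 0

def sF0 : ℕ → ℤ := fun l => match l with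
  | 0 => 0
  | 1 => 0
  | 2 => 0
  | 3 => 0
  | 4 => 0
  | _ => 0

def sF1 : ℕ → ℤ := fun l => match l with
  | 0 => 0
  | 1 => 0
  | 2 => 0
  | 3 => 0
  | 4 => 0
  | _ => 0

def sHm0 : ℕ → ℤ := fun l => match l with
  | 0 => 1677728
  | 1 => 738176
  | 2 => 492128
  | 3 => 246064
  | _ => 0

def sHm1 : ℕ → ℤ := fun l => match l with
  | 0 => 738176
  | 1 => 738176
  | 2 => 492128
  | 3 => 246064
  | _ => 0

def sHp : ℕ → ℤ := fun l => match l with
  | 0 => 738176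
  | 1 => 492128
  | 2 => 246064
  | 3 => 0
  | _ => 0

def stg : ℕ → ℕ → ℤ := fun l => match l with
  | 0 => fun i => match i with | 0 => 0 | 1 => 0 | 2 => 0 | 3 => 0 | 4 => 0 | 5 => 5 | 6 => 0 | 7 => 5 | _ => 0
  | 1 => fun i => match i with | 0 => 0 | 1 => 0 | 2 => 0 | 3 => 0 | 4 => 0 | 5 => 2 | 6 => 0 | 7 => 3 | _ => 0
  | 2 => fun i => match i with | 0 => 0 | 1 => 0 | 2 => 0 | 3 => 0 | 4 => 0 | 5 => 0 | 6 => 0 | 7 => 0 | _ => 0
  | 3 => fun i => match i with | 0 => 0 | 1 => 0 | 2 => 0 | 3 => 0 | 4 => 0 | 5 => 0 | 6 => 0 | 7 => 0 | _ => 0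
  | _ => fun _ => 0

def sML : ℕ → E4 := fun l => match l with
  | 0 => ⟨4413650, 836300, 4451525, 839355⟩
  | 1 => ⟨7204600, 836300, 7242480, 839355⟩
  | 2 => ⟨6611300, 933850, 6649225, 937080⟩
  | 3 => ⟨7603850, 1208300, 7641792, 1211542⟩
  | _ => ⟨0, 0, 0, 0⟩

def sPL : ℕ → E4 := fun l => match l with
  | 0 => ⟨7204600, 836300, 7242480, 839355⟩
  | 1 => ⟨6611300, 933850, 6649225, 937080⟩
  | 2 => ⟨7603850, 1208300, 7641792, 1211542⟩
  | 3 => ⟨8780250, 1664500, 8818221, 1667771⟩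
  | _ => ⟨0, 0, 0, 0⟩

def sMF : ℕ → E4 := fun l => match l with
  | 0 => ⟨91995121, 37922751, 92398192, 37994465⟩
  | 1 => ⟨43674411, 38045242, 43781598, 38117229⟩
  | 2 => ⟨32279200, 25882550, 32348071, 25916355⟩
  | 3 => ⟨21102050, 13986000, 21147884, 13997042⟩
  | _ => ⟨0, 0, 0, 0⟩

def sPF : ℕ → E4 := fun l => match l with
  | 0 => ⟨44287179, 37922751, 44399524, 37994465⟩
  | 1 => ⟨31288738, 25619882, 31358034, 25653825⟩
  | 2 => ⟨19926600, 13529950, 19972725, 13541009⟩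
  | 3 => ⟨8780650, 1664600, 8818738, 1667896⟩
  | _ => ⟨0, 0, 0, 0⟩

def su : EhN := ⟨kK, tT, slo, shi, slo1, sJ0, sJ1, sF0, sF1, sHm0, sHm1, sHp, stg, sML, sPL, sMF, sPF⟩

def stn : ℕ → ℤ := fun l => match l with
  | 0 => 0
  | 1 => 0
  | 2 => 0
  | 3 => 0
  | 4 => 0
  | 5 => 0
  | _ => 0

noncomputable def sh : Ehk := SC.Fs.xc SCs1.c RecK.rk SKs1.e su

theorem scd : sh.cd.ck q = true := by decide +kernel
theorem sLS : (sh.L true (RTab.rr RT.kSL 1)).ckS q = true := by decide +kernel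
theorem sLT : (sh.L true (RTab.rr RT.kSL 1)).ckT q = true := by decide +kernel
theorem sFS : (sh.F true (RTab.rr RT.kSF 1)).ckS q = true := by decide +kernel
theorem sFT : (sh.F true (RTab.rr RT.kSF 1)).ckT q = true := by decide +kernel
theorem sj : sh.ckJ q.n dj 172168 200805 = true := by decide +kernel
theorem sms : sh.msB q.n = true := by decide +kernel
theorem snl : sh.nck true q 172168 200805 28631 stn = true := by decide +kernel

/-- **the checks of the numbers** -/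
theorem sH : HCel sh q true dj 172168 200805 (RTab.rr RT.kSL 1) (RTab.rr RT.kSF 1) 1 :=
  ⟨⟨qo, scd, rfl, rfl, rfl, sLS, sLT, sFS, sFT⟩, Ehk.msB_of sms, sj, fun h => absurd h (by decide)⟩

end Pool.Agent.RZ.RCO.ECs1
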