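import Pool.Agent.RZ.RCO.Gk13
import Pool.Agent.RZ.RCO.SAs

/-! Types of a sheet, piece 1 (MP_73ccd0_lc). -/

set_option autoImplicit false
set_option maxRecDepth 100000
set_option linter.all false

namespace Pool.Agent.RZ.RCO.SASL

open Sg

noncomputable def t1 : List Ty :=
 [⟨(.sub (.mul (.c 33554432) (.s 0 31 1 1)) (.add (.mul (.c 33554432) (.s 0 655 1 1)) (.mul (.c 1) (.mul (.r 0 0 1 1) (.add (.s 0 37 1 1) (.s 0 661 1 1)))))), 66, 1, 1, 1, 1⟩,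
  ⟨(.sub (.s 0 25 1 1) (.s 0 31 1 1)), 34, 1, 1, 1, 1⟩,
  ⟨(.sub (.s 0 649 1 1) (.s 0 655 1 1)), 34, 1, 1, 1, 1⟩,
  ⟨(.sub (.mul (.c 16777216) (.mul (.c 8) (.sub (.s 0 25 1 1) (.s 0 31 1 1)))) (.mul (.r 0 0 1 1) (.sub (.s 0 661 1 1) (.s 0 37 1 1)))), 66, 1, 1, 1, 1⟩,
  ⟨(.sub (.mul (.c 16777216) (.mul (.c 8) (.sub (.s 0 649 1 1) (.s 0 655 1 1)))) (.mul (.r 0 0 1 1) (.sub (.s 0 661 1 1) (.s 0 37 1 1)))), 66, 1, 1, 1, 1⟩,
  ⟨(.sub (.mul (.c 33554432) (.s 0 32 1 1)) (.add (.mul (.c 33554432) (.s 0 656 1 1)) (.mul (.c 1) (.mul (.r 0 0 1 1) (.add (.s 0 38 1 1) (.s 0 662 1 1)))))), 66, 1, 1, 1, 1⟩,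
  ⟨(.sub (.s 0 26 1 1) (.s 0 32 1 1)), 34, 1, 1, 1, 1⟩,
  ⟨(.sub (.s 0 650 1 1) (.s 0 656 1 1)), 34, 1, 1, 1, 1⟩,
  ⟨(.sub (.mul (.c 16777216) (.mul (.c 8) (.sub (.s 0 26 1 1) (.s 0 32 1 1)))) (.mul (.r 0 0 1 1) (.sub (.s 0 662 1 1) (.s 0 38 1 1)))), 66, 1, 1, 1, 1⟩,
  ⟨(.sub (.mul (.c 16777216) (.mul (.c 8) (.sub (.s 0 650 1 1) (.s 0 656 1 1)))) (.mul (.r 0 0 1 1) (.sub (.s 0 662 1 1) (.s 0 38 1 1)))), 66, 1, 1, 1, 1⟩,
  ⟨(.sub (.mul (.c 33554432) (.s 0 33 1 1)) (.add (.mul (.c 33554432) (.s 0 657 1 1)) (.mul (.c 1) (.mul (.r 0 0 1 1) (.add (.s 0 39 1 1) (.s 0 663 1 1)))))), 66, 1, 1, 1, 1⟩,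
  ⟨(.sub (.s 0 27 1 1) (.s 0 33 1 1)), 34, 1, 1, 1, 1⟩,
  ⟨(.sub (.s 0 651 1 1) (.s 0 657 1 1)), 34, 1, 1, 1, 1⟩,
  ⟨(.sub (.mul (.c 16777216) (.mul (.c 8) (.sub (.s 0 27 1 1) (.s 0 33 1 1)))) (.mul (.r 0 0 1 1) (.sub (.s 0 663 1 1) (.s 0 39 1 1)))), 66, 1, 1, 1, 1⟩,
  ⟨(.sub (.mul (.c 16777216) (.mul (.c 8) (.sub (.s 0 651 1 1) (.s 0 657 1 1)))) (.mul (.r 0 0 1 1) (.sub (.s 0 663 1 1) (.s 0 39 1 1)))), 66, 1, 1, 1, 1⟩,
  ⟨(.sub (.mul (.c 33554432) (.s 0 34 1 1)) (.add (.mul (.c 33554432) (.s 0 658 1 1)) (.mul (.c 1) (.mul (.r 0 0 1 1) (.add (.s 0 40 1 1) (.s 0 664 1 1)))))), 66, 1, 1, 1, 1⟩,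
  ⟨(.sub (.s 0 28 1 1) (.s 0 34 1 1)), 34, 1, 1, 1, 1⟩,
  ⟨(.sub (.s 0 652 1 1) (.s 0 658 1 1)), 34, 1, 1, 1, 1⟩,
  ⟨(.sub (.mul (.c 16777216) (.mul (.c 8) (.sub (.s 0 28 1 1) (.s 0 34 1 1)))) (.mul (.r 0 0 1 1) (.sub (.s 0 664 1 1) (.s 0 40 1 1)))), 66, 1, 1, 1, 1⟩,
  ⟨(.sub (.mul (.c 16777216) (.mul (.c 8) (.sub (.s 0 652 1 1) (.s 0 658 1 1)))) (.mul (.r 0 0 1 1) (.sub (.s 0 664 1 1) (.s 0 40 1 1)))), 66, 1, 1, 1, 1⟩,
  ⟨(.sub (.mul (.c 33554432) (.s 0 35 1 1)) (.add (.mul (.c 33554432) (.s 0 659 1 1)) (.mul (.c 1) (.mul (.r 0 0 1 1) (.add (.s 0 41 1 1) (.s 0 665 1 1)))))), 66, 1, 1, 1, 1⟩,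
  ⟨(.sub (.s 0 29 1 1) (.s 0 35 1 1)), 34, 1, 1, 1, 1⟩,
  ⟨(.sub (.s 0 653 1 1) (.s 0 659 1 1)), 34, 1, 1, 1, 1⟩,
  ⟨(.sub (.mul (.c 16777216) (.mul (.c 8) (.sub (.s 0 29 1 1) (.s 0 35 1 1)))) (.mul (.r 0 0 1 1) (.sub (.s 0 665 1 1) (.s 0 41 1 1)))), 66, 1, 1, 1, 1⟩,
  ⟨(.sub (.mul (.c 16777216) (.mul (.c 8) (.sub (.s 0 653 1 1) (.s 0 659 1 1)))) (.mul (.r 0 0 1 1) (.sub (.s 0 665 1 1) (.s 0 41 1 1)))), 66, 1, 1, 1, 1⟩,
  ⟨(.sub (.c 1) (.c 1)), 2, 1, 1, 1, 1⟩,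
  ⟨(.sub (.c 1) (.c 1)), 2, 1, 1, 1, 1⟩,
  ⟨(.sub (.s 2 24 624 2) (.mul (.c 1) (.s 2 24 624 2))), 35, 1, 1, 2, 1⟩,
  ⟨(.sub (.s 2 25 624 2) (.mul (.c 1) (.s 2 25 624 2))), 35, 1, 1, 2, 1⟩,
  ⟨(.sub (.add (.mul (.mul (.c 1024) (.s 2 26 624 2)) (.w 0 1)) (.mul (.mul (.c 171) (.v 0)) (.s 2 29 624 2))) (.mul (.c 1) (.add (.mul (.mul (.c 1024) (.s 2 26 624 2)) (.w 0 1)) (.mul (.mul (.c 171) (.v 0)) (.s 2 29 624 2))))), 46, 2, 1, 2, 1⟩,
  ⟨(.sub (.s 2 27 624 2) (.mul (.c 1) (.s 2 27 624 2))), 35, 1, 1, 2, 1⟩,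
  ⟨(.sub (.s 2 28 624 2) (.mul (.c 1) (.s 2 28 624 2))), 35, 1, 1, 2, 1⟩,
  ⟨(.sub (.mul (.c 33554432) (.s 0 66 1 1)) (.add (.mul (.c 33554432) (.s 0 690 1 1)) (.mul (.c 1) (.mul (.r 0 0 1 1) (.add (.s 0 72 1 1) (.s 0 696 1 1)))))), 66, 1, 1, 1, 1⟩,
  ⟨(.sub (.s 0 60 1 1) (.s 0 66 1 1)), 34, 1, 1, 1, 1⟩,
  ⟨(.sub (.s 0 684 1 1) (.s 0 690 1 1)), 34, 1, 1, 1, 1⟩,
  ⟨(.sub (.mul (.c 16777216) (.mul (.c 8) (.sub (.s 0 60 1 1) (.s 0 66 1 1)))) (.mul (.r 0 0 1 1) (.sub (.s 0 696 1 1) (.s 0 72 1 1)))), 66, 1, 1, 1, 1⟩,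
  ⟨(.sub (.mul (.c 16777216) (.mul (.c 8) (.sub (.s 0 684 1 1) (.s 0 690 1 1)))) (.mul (.r 0 0 1 1) (.sub (.s 0 696 1 1) (.s 0 72 1 1)))), 66, 1, 1, 1, 1⟩,
  ⟨(.sub (.mul (.c 33554432) (.s 0 67 1 1)) (.add (.mul (.c 33554432) (.s 0 691 1 1)) (.mul (.c 1) (.mul (.r 0 0 1 1) (.add (.s 0 73 1 1) (.s 0 697 1 1)))))), 66, 1, 1, 1, 1⟩,
  ⟨(.sub (.s 0 61 1 1) (.s 0 67 1 1)), 34, 1, 1, 1, 1⟩,
  ⟨(.sub (.s 0 685 1 1) (.s 0 691 1 1)), 34, 1, 1, 1, 1⟩,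
  ⟨(.sub (.mul (.c 16777216) (.mul (.c 8) (.sub (.s 0 61 1 1) (.s 0 67 1 1)))) (.mul (.r 0 0 1 1) (.sub (.s 0 697 1 1) (.s 0 73 1 1)))), 66, 1, 1, 1, 1⟩,
  ⟨(.sub (.mul (.c 16777216) (.mul (.c 8) (.sub (.s 0 685 1 1) (.s 0 691 1 1)))) (.mul (.r 0 0 1 1) (.sub (.s 0 697 1 1) (.s 0 73 1 1)))), 66, 1, 1, 1, 1⟩,
  ⟨(.sub (.mul (.c 33554432) (.s 0 68 1 1)) (.add (.mul (.c 33554432) (.s 0 692 1 1)) (.mul (.c 1) (.mul (.r 0 0 1 1) (.add (.s 0 74 1 1) (.s 0 698 1 1)))))), 66, 1, 1, 1, 1⟩,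
  ⟨(.sub (.s 0 62 1 1) (.s 0 68 1 1)), 34, 1, 1, 1, 1⟩,
  ⟨(.sub (.s 0 686 1 1) (.s 0 692 1 1)), 34, 1, 1, 1, 1⟩,
  ⟨(.sub (.mul (.c 16777216) (.mul (.c 8) (.sub (.s 0 62 1 1) (.s 0 68 1 1)))) (.mul (.r 0 0 1 1) (.sub (.s 0 698 1 1) (.s 0 74 1 1)))), 66, 1, 1, 1, 1⟩,
  ⟨(.sub (.mul (.c 16777216) (.mul (.c 8) (.sub (.s 0 686 1 1) (.s 0 692 1 1)))) (.mul (.r 0 0 1 1) (.sub (.s 0 698 1 1) (.s 0 74 1 1)))), 66, 1, 1, 1, 1⟩,
  ⟨(.sub (.mul (.c 33554432) (.s 0 69 1 1)) (.add (.mul (.c 33554432) (.s 0 693 1 1)) (.mul (.c 1) (.mul (.r 0 0 1 1) (.add (.s 0 75 1 1) (.s 0 699 1 1)))))), 66, 1, 1, 1, 1⟩,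
  ⟨(.sub (.s 0 63 1 1) (.s 0 69 1 1)), 34, 1, 1, 1, 1⟩,
  ⟨(.sub (.s 0 687 1 1) (.s 0 693 1 1)), 34, 1, 1, 1, 1⟩,
  ⟨(.sub (.mul (.c 16777216) (.mul (.c 8) (.sub (.s 0 63 1 1) (.s 0 69 1 1)))) (.mul (.r 0 0 1 1) (.sub (.s 0 699 1 1) (.s 0 75 1 1)))), 66, 1, 1, 1, 1⟩,
  ⟨(.sub (.mul (.c 16777216) (.mul (.c 8) (.sub (.s 0 687 1 1) (.s 0 693 1 1)))) (.mul (.r 0 0 1 1) (.sub (.s 0 699 1 1) (.s 0 75 1 1)))), 66, 1, 1, 1, 1⟩,
  ⟨(.sub (.mul (.c 33554432) (.s 0 70 1 1)) (.add (.mul (.c 33554432) (.s 0 694 1 1)) (.mul (.c 1) (.mul (.r 0 0 1 1) (.add (.s 0 76 1 1) (.s 0 700 1 1)))))), 66, 1, 1, 1, 1⟩,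
  ⟨(.sub (.s 0 64 1 1) (.s 0 70 1 1)), 34, 1, 1, 1, 1⟩,
  ⟨(.sub (.s 0 688 1 1) (.s 0 694 1 1)), 34, 1, 1, 1, 1⟩,
  ⟨(.sub (.mul (.c 16777216) (.mul (.c 8) (.sub (.s 0 64 1 1) (.s 0 70 1 1)))) (.mul (.r 0 0 1 1) (.sub (.s 0 700 1 1) (.s 0 76 1 1)))), 66, 1, 1, 1, 1⟩,
  ⟨(.sub (.mul (.c 16777216) (.mul (.c 8) (.sub (.s 0 688 1 1) (.s 0 694 1 1)))) (.mul (.r 0 0 1 1) (.sub (.s 0 700 1 1) (.s 0 76 1 1)))), 66, 1, 1, 1, 1⟩,
  ⟨(.sub (.mul (.c 33554432) (.s 0 71 1 1)) (.add (.mul (.c 33554432) (.s 0 695 1 1)) (.mul (.c 1) (.mul (.r 0 0 1 1) (.add (.s 0 77 1 1) (.s 0 701 1 1)))))), 66, 1, 1, 1, 1⟩,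
  ⟨(.sub (.s 0 65 1 1) (.s 0 71 1 1)), 34, 1, 1, 1, 1⟩,
  ⟨(.sub (.s 0 689 1 1) (.s 0 695 1 1)), 34, 1, 1, 1, 1⟩,
  ⟨(.sub (.mul (.c 16777216) (.mul (.c 8) (.sub (.s 0 65 1 1) (.s 0 71 1 1)))) (.mul (.r 0 0 1 1) (.sub (.s 0 701 1 1) (.s 0 77 1 1)))), 66, 1, 1, 1, 1⟩,
  ⟨(.sub (.mul (.c 16777216) (.mul (.c 8) (.sub (.s 0 689 1 1) (.s 0 695 1 1)))) (.mul (.r 0 0 1 1) (.sub (.s 0 701 1 1) (.s 0 77 1 1)))), 66, 1, 1, 1, 1⟩,
  ⟨(.sub (.c 1) (.c 1)), 2, 1, 1, 1, 1⟩,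
  ⟨(.sub (.c 1) (.c 1)), 2, 1, 1, 1, 1⟩,
  ⟨(.sub (.s 2 60 624 2) (.mul (.c 1) (.s 2 60 624 2))), 35, 1, 1, 2, 1⟩,
  ⟨(.sub (.s 2 61 624 2) (.mul (.c 1) (.s 2 61 624 2))), 35, 1, 1, 2, 1⟩,
  ⟨(.sub (.add (.mul (.mul (.c 1024) (.s 2 62 624 2)) (.w 0 1)) (.mul (.mul (.c 171) (.v 0)) (.s 2 65 624 2))) (.mul (.c 1) (.add (.mul (.mul (.c 1024) (.s 2 62 624 2)) (.w 0 1)) (.mul (.mul (.c 171) (.v 0)) (.s 2 65 624 2))))), 46, 2, 1, 2, 1⟩,
  ⟨(.sub (.s 2 63 624 2) (.mul (.c 1) (.s 2 63 624 2))), 35, 1, 1, 2, 1⟩,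
  ⟨(.sub (.s 2 64 624 2) (.mul (.c 1) (.s 2 64 624 2))), 35, 1, 1, 2, 1⟩,
  ⟨(.sub (.mul (.c 33554432) (.s 0 48 1 1)) (.add (.mul (.c 33554432) (.s 0 672 1 1)) (.mul (.c 1) (.mul (.r 0 0 1 1) (.add (.s 0 54 1 1) (.s 0 678 1 1)))))), 66, 1, 1, 1, 1⟩,
  ⟨(.sub (.s 0 42 1 1) (.s 0 48 1 1)), 34, 1, 1, 1, 1⟩,
  ⟨(.sub (.s 0 666 1 1) (.s 0 672 1 1)), 34, 1, 1, 1, 1⟩,
  ⟨(.sub (.mul (.c 16777216) (.mul (.c 8) (.sub (.s 0 42 1 1) (.s 0 48 1 1)))) (.mul (.r 0 0 1 1) (.sub (.s 0 678 1 1) (.s 0 54 1 1)))), 66, 1, 1, 1, 1⟩,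
  ⟨(.sub (.mul (.c 16777216) (.mul (.c 8) (.sub (.s 0 666 1 1) (.s 0 672 1 1)))) (.mul (.r 0 0 1 1) (.sub (.s 0 678 1 1) (.s 0 54 1 1)))), 66, 1, 1, 1, 1⟩,
  ⟨(.sub (.mul (.c 33554432) (.s 0 49 1 1)) (.add (.mul (.c 33554432) (.s 0 673 1 1)) (.mul (.c 1) (.mul (.r 0 0 1 1) (.add (.s 0 55 1 1) (.s 0 679 1 1)))))), 66, 1, 1, 1, 1⟩,
  ⟨(.sub (.s 0 43 1 1) (.s 0 49 1 1)), 34, 1, 1, 1, 1⟩,
  ⟨(.sub (.s 0 667 1 1) (.s 0 673 1 1)), 34, 1, 1, 1, 1⟩,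
  ⟨(.sub (.mul (.c 16777216) (.mul (.c 8) (.sub (.s 0 43 1 1) (.s 0 49 1 1)))) (.mul (.r 0 0 1 1) (.sub (.s 0 679 1 1) (.s 0 55 1 1)))), 66, 1, 1, 1, 1⟩,
  ⟨(.sub (.mul (.c 16777216) (.mul (.c 8) (.sub (.s 0 667 1 1) (.s 0 673 1 1)))) (.mul (.r 0 0 1 1) (.sub (.s 0 679 1 1) (.s 0 55 1 1)))), 66, 1, 1, 1, 1⟩,
  ⟨(.sub (.mul (.c 33554432) (.s 0 50 1 1)) (.add (.mul (.c 33554432) (.s 0 674 1 1)) (.mul (.c 1) (.mul (.r 0 0 1 1) (.add (.s 0 56 1 1) (.s 0 680 1 1)))))), 66, 1, 1, 1, 1⟩,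
  ⟨(.sub (.s 0 44 1 1) (.s 0 50 1 1)), 34, 1, 1, 1, 1⟩,
  ⟨(.sub (.s 0 668 1 1) (.s 0 674 1 1)), 34, 1, 1, 1, 1⟩,
  ⟨(.sub (.mul (.c 16777216) (.mul (.c 8) (.sub (.s 0 44 1 1) (.s 0 50 1 1)))) (.mul (.r 0 0 1 1) (.sub (.s 0 680 1 1) (.s 0 56 1 1)))), 66, 1, 1, 1, 1⟩,
  ⟨(.sub (.mul (.c 16777216) (.mul (.c 8) (.sub (.s 0 668 1 1) (.s 0 674 1 1)))) (.mul (.r 0 0 1 1) (.sub (.s 0 680 1 1) (.s 0 56 1 1)))), 66, 1, 1, 1, 1⟩,
  ⟨(.sub (.mul (.c 33554432) (.s 0 51 1 1)) (.add (.mul (.c 33554432) (.s 0 675 1 1)) (.mul (.c 1) (.mul (.r 0 0 1 1) (.add (.s 0 57 1 1) (.s 0 681 1 1)))))), 66, 1, 1, 1, 1⟩,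
  ⟨(.sub (.s 0 45 1 1) (.s 0 51 1 1)), 34, 1, 1, 1, 1⟩,
  ⟨(.sub (.s 0 669 1 1) (.s 0 675 1 1)), 34, 1, 1, 1, 1⟩,
  ⟨(.sub (.mul (.c 16777216) (.mul (.c 8) (.sub (.s 0 45 1 1) (.s 0 51 1 1)))) (.mul (.r 0 0 1 1) (.sub (.s 0 681 1 1) (.s 0 57 1 1)))), 66, 1, 1, 1, 1⟩,
  ⟨(.sub (.mul (.c 16777216) (.mul (.c 8) (.sub (.s 0 669 1 1) (.s 0 675 1 1)))) (.mul (.r 0 0 1 1) (.sub (.s 0 681 1 1) (.s 0 57 1 1)))), 66, 1, 1, 1, 1⟩,
  ⟨(.sub (.mul (.c 33554432) (.s 0 52 1 1)) (.add (.mul (.c 33554432) (.s 0 676 1 1)) (.mul (.c 1) (.mul (.r 0 0 1 1) (.add (.s 0 58 1 1) (.s 0 682 1 1)))))), 66, 1, 1, 1, 1⟩,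
  ⟨(.sub (.s 0 46 1 1) (.s 0 52 1 1)), 34, 1, 1, 1, 1⟩,
  ⟨(.sub (.s 0 670 1 1) (.s 0 676 1 1)), 34, 1, 1, 1, 1⟩,
  ⟨(.sub (.mul (.c 16777216) (.mul (.c 8) (.sub (.s 0 46 1 1) (.s 0 52 1 1)))) (.mul (.r 0 0 1 1) (.sub (.s 0 682 1 1) (.s 0 58 1 1)))), 66, 1, 1, 1, 1⟩,
  ⟨(.sub (.mul (.c 16777216) (.mul (.c 8) (.sub (.s 0 670 1 1) (.s 0 676 1 1)))) (.mul (.r 0 0 1 1) (.sub (.s 0 682 1 1) (.s 0 58 1 1)))), 66, 1, 1, 1, 1⟩,
  ⟨(.sub (.mul (.c 33554432) (.s 0 53 1 1)) (.add (.mul (.c 33554432) (.s 0 677 1 1)) (.mul (.c 1) (.mul (.r 0 0 1 1) (.add (.s 0 59 1 1) (.s 0 683 1 1)))))), 66, 1, 1, 1, 1⟩,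
  ⟨(.sub (.s 0 47 1 1) (.s 0 53 1 1)), 34, 1, 1, 1, 1⟩,
  ⟨(.sub (.s 0 671 1 1) (.s 0 677 1 1)), 34, 1, 1, 1, 1⟩,
  ⟨(.sub (.mul (.c 16777216) (.mul (.c 8) (.sub (.s 0 47 1 1) (.s 0 53 1 1)))) (.mul (.r 0 0 1 1) (.sub (.s 0 683 1 1) (.s 0 59 1 1)))), 66, 1, 1, 1, 1⟩,
  ⟨(.sub (.mul (.c 16777216) (.mul (.c 8) (.sub (.s 0 671 1 1) (.s 0 677 1 1)))) (.mul (.r 0 0 1 1) (.sub (.s 0 683 1 1) (.s 0 59 1 1)))), 66, 1, 1, 1, 1⟩,
  ⟨(.sub (.c 1) (.c 1)), 2, 1, 1, 1, 1⟩,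
  ⟨(.sub (.c 1) (.c 1)), 2, 1, 1, 1, 1⟩,
  ⟨(.sub (.s 2 42 624 2) (.mul (.c 1) (.s 2 42 624 2))), 35, 1, 1, 2, 1⟩,
  ⟨(.sub (.s 2 43 624 2) (.mul (.c 1) (.s 2 43 624 2))), 35, 1, 1, 2, 1⟩,
  ⟨(.sub (.add (.mul (.mul (.c 1024) (.s 2 44 624 2)) (.w 0 1)) (.mul (.mul (.c 171) (.v 0)) (.s 2 47 624 2))) (.mul (.c 1) (.add (.mul (.mul (.c 1024) (.s 2 44 624 2)) (.w 0 1)) (.mul (.mul (.c 171) (.v 0)) (.s 2 47 624 2))))), 46, 2, 1, 2, 1⟩,
  ⟨(.sub (.s 2 45 624 2) (.mul (.c 1) (.s 2 45 624 2))), 35, 1, 1, 2, 1⟩,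
  ⟨(.sub (.s 2 46 624 2) (.mul (.c 1) (.s 2 46 624 2))), 35, 1, 1, 2, 1⟩,
  ⟨(.sub (.mul (.c 33554432) (.s 0 84 1 1)) (.add (.mul (.c 33554432) (.s 0 708 1 1)) (.mul (.c 1) (.mul (.r 0 0 1 1) (.add (.s 0 90 1 1) (.s 0 714 1 1)))))), 66, 1, 1, 1, 1⟩,
  ⟨(.sub (.s 0 78 1 1) (.s 0 84 1 1)), 34, 1, 1, 1, 1⟩,
  ⟨(.sub (.s 0 702 1 1) (.s 0 708 1 1)), 34, 1, 1, 1, 1⟩,
  ⟨(.sub (.mul (.c 16777216) (.mul (.c 8) (.sub (.s 0 78 1 1) (.s 0 84 1 1)))) (.mul (.r 0 0 1 1) (.sub (.s 0 714 1 1) (.s 0 90 1 1)))), 66, 1, 1, 1, 1⟩,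
  ⟨(.sub (.mul (.c 16777216) (.mul (.c 8) (.sub (.s 0 702 1 1) (.s 0 708 1 1)))) (.mul (.r 0 0 1 1) (.sub (.s 0 714 1 1) (.s 0 90 1 1)))), 66, 1, 1, 1, 1⟩,
  ⟨(.sub (.mul (.c 33554432) (.s 0 85 1 1)) (.add (.mul (.c 33554432) (.s 0 709 1 1)) (.mul (.c 1) (.mul (.r 0 0 1 1) (.add (.s 0 91 1 1) (.s 0 715 1 1)))))), 66, 1, 1, 1, 1⟩,
  ⟨(.sub (.s 0 79 1 1) (.s 0 85 1 1)), 34, 1, 1, 1, 1⟩,
  ⟨(.sub (.s 0 703 1 1) (.s 0 709 1 1)), 34, 1, 1, 1, 1⟩,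
  ⟨(.sub (.mul (.c 16777216) (.mul (.c 8) (.sub (.s 0 79 1 1) (.s 0 85 1 1)))) (.mul (.r 0 0 1 1) (.sub (.s 0 715 1 1) (.s 0 91 1 1)))), 66, 1, 1, 1, 1⟩,
  ⟨(.sub (.mul (.c 16777216) (.mul (.c 8) (.sub (.s 0 703 1 1) (.s 0 709 1 1)))) (.mul (.r 0 0 1 1) (.sub (.s 0 715 1 1) (.s 0 91 1 1)))), 66, 1, 1, 1, 1⟩,
  ⟨(.sub (.mul (.c 33554432) (.s 0 86 1 1)) (.add (.mul (.c 33554432) (.s 0 710 1 1)) (.mul (.c 1) (.mul (.r 0 0 1 1) (.add (.s 0 92 1 1) (.s 0 716 1 1)))))), 66, 1, 1, 1, 1⟩,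
  ⟨(.sub (.s 0 80 1 1) (.s 0 86 1 1)), 34, 1, 1, 1, 1⟩,
  ⟨(.sub (.s 0 704 1 1) (.s 0 710 1 1)), 34, 1, 1, 1, 1⟩,
  ⟨(.sub (.mul (.c 16777216) (.mul (.c 8) (.sub (.s 0 80 1 1) (.s 0 86 1 1)))) (.mul (.r 0 0 1 1) (.sub (.s 0 716 1 1) (.s 0 92 1 1)))), 66, 1, 1, 1, 1⟩,
  ⟨(.sub (.mul (.c 16777216) (.mul (.c 8) (.sub (.s 0 704 1 1) (.s 0 710 1 1)))) (.mul (.r 0 0 1 1) (.sub (.s 0 716 1 1) (.s 0 92 1 1)))), 66, 1, 1, 1, 1⟩,
  ⟨(.sub (.mul (.c 33554432) (.s 0 87 1 1)) (.add (.mul (.c 33554432) (.s 0 711 1 1)) (.mul (.c 1) (.mul (.r 0 0 1 1) (.add (.s 0 93 1 1) (.s 0 717 1 1)))))), 66, 1, 1, 1, 1⟩,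
  ⟨(.sub (.s 0 81 1 1) (.s 0 87 1 1)), 34, 1, 1, 1, 1⟩,
  ⟨(.sub (.s 0 705 1 1) (.s 0 711 1 1)), 34, 1, 1, 1, 1⟩,
  ⟨(.sub (.mul (.c 16777216) (.mul (.c 8) (.sub (.s 0 81 1 1) (.s 0 87 1 1)))) (.mul (.r 0 0 1 1) (.sub (.s 0 717 1 1) (.s 0 93 1 1)))), 66, 1, 1, 1, 1⟩,
  ⟨(.sub (.mul (.c 16777216) (.mul (.c 8) (.sub (.s 0 705 1 1) (.s 0 711 1 1)))) (.mul (.r 0 0 1 1) (.sub (.s 0 717 1 1) (.s 0 93 1 1)))), 66, 1, 1, 1, 1⟩,
  ⟨(.sub (.mul (.c 33554432) (.s 0 88 1 1)) (.add (.mul (.c 33554432) (.s 0 712 1 1)) (.mul (.c 1) (.mul (.r 0 0 1 1) (.add (.s 0 94 1 1) (.s 0 718 1 1)))))), 66, 1, 1, 1, 1⟩,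
  ⟨(.sub (.s 0 82 1 1) (.s 0 88 1 1)), 34, 1, 1, 1, 1⟩,
  ⟨(.sub (.s 0 706 1 1) (.s 0 712 1 1)), 34, 1, 1, 1, 1⟩,
  ⟨(.sub (.mul (.c 16777216) (.mul (.c 8) (.sub (.s 0 82 1 1) (.s 0 88 1 1)))) (.mul (.r 0 0 1 1) (.sub (.s 0 718 1 1) (.s 0 94 1 1)))), 66, 1, 1, 1, 1⟩,
  ⟨(.sub (.mul (.c 16777216) (.mul (.c 8) (.sub (.s 0 706 1 1) (.s 0 712 1 1)))) (.mul (.r 0 0 1 1) (.sub (.s 0 718 1 1) (.s 0 94 1 1)))), 66, 1, 1, 1, 1⟩,
  ⟨(.sub (.mul (.c 33554432) (.s 0 89 1 1)) (.add (.mul (.c 33554432) (.s 0 713 1 1)) (.mul (.c 1) (.mul (.r 0 0 1 1) (.add (.s 0 95 1 1) (.s 0 719 1 1)))))), 66, 1, 1, 1, 1⟩,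
  ⟨(.sub (.s 0 83 1 1) (.s 0 89 1 1)), 34, 1, 1, 1, 1⟩,
  ⟨(.sub (.s 0 707 1 1) (.s 0 713 1 1)), 34, 1, 1, 1, 1⟩,
  ⟨(.sub (.mul (.c 16777216) (.mul (.c 8) (.sub (.s 0 83 1 1) (.s 0 89 1 1)))) (.mul (.r 0 0 1 1) (.sub (.s 0 719 1 1) (.s 0 95 1 1)))), 66, 1, 1, 1, 1⟩,
  ⟨(.sub (.mul (.c 16777216) (.mul (.c 8) (.sub (.s 0 707 1 1) (.s 0 713 1 1)))) (.mul (.r 0 0 1 1) (.sub (.s 0 719 1 1) (.s 0 95 1 1)))), 66, 1, 1, 1, 1⟩,
  ⟨(.sub (.c 1) (.c 1)), 2, 1, 1, 1, 1⟩,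
  ⟨(.sub (.c 1) (.c 1)), 2, 1, 1, 1, 1⟩,
  ⟨(.sub (.s 2 78 624 2) (.mul (.c 1) (.s 2 78 624 2))), 35, 1, 1, 2, 1⟩,
  ⟨(.sub (.s 2 79 624 2) (.mul (.c 1) (.s 2 79 624 2))), 35, 1, 1, 2, 1⟩,
  ⟨(.sub (.add (.mul (.mul (.c 1024) (.s 2 80 624 2)) (.w 0 1)) (.mul (.mul (.c 171) (.v 0)) (.s 2 83 624 2))) (.mul (.c 1) (.add (.mul (.mul (.c 1024) (.s 2 80 624 2)) (.w 0 1)) (.mul (.mul (.c 171) (.v 0)) (.s 2 83 624 2))))), 46, 2, 1, 2, 1⟩,
  ⟨(.sub (.s 2 81 624 2) (.mul (.c 1) (.s 2 81 624 2))), 35, 1, 1, 2, 1⟩,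
  ⟨(.sub (.s 2 82 624 2) (.mul (.c 1) (.s 2 82 624 2))), 35, 1, 1, 2, 1⟩,
  ⟨(.sub (.add (.r 0 1 1 1) (.r 0 0 1 1)) (.r 0 625 1 1)), 34, 1, 1, 1, 1⟩,
  ⟨(.sub (.r 0 625 1 1) (.add (.r 0 1 1 1) (.r 0 0 1 1))), 34, 1, 1, 1, 1⟩,
  ⟨(.sub (.mul (.mul (.mul (.c 26959946667150639794667015087019630673637144422540572481103610249216) (.add (.mul (.mul (.c 4294967296) (.r 2 2 624 2)) (.w 1 2)) (.mul (.mul (.c 5462) (.v 1)) (.add (.mul (.mul (.c 65536) (.r 2 3 624 2)) (.w 1 1)) (.mul (.mul (.c 5462) (.v 1)) (.r 2 4 624 2)))))) (.w 1 2)) (.w 2 7)) (.add (.mul (.mul (.mul (.c 1942668892225729070919461906823518906642406839052139521251812409738904285205208498176) (.c 1)) (.w 1 4)) (.w 2 8)) (.mul (.mul (.c 5462) (.v 1)) (.add (.mul (.mul (.c 281474976710656) (.add (.mul (.mul (.c 6277101735386680763835789423207666416102355444464034512896) (.sub (.c 0) (.c 32347428))) (.w 2 8)) (.mul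 (.add (.mul (.r 0 1 1 1) (.w 2 1)) (.mul (.v 2) (.r 0 0 1 1))) (.add (.mul (.mul (.c 374144419156711147060143317175368453031918731001856) (.c 144886159)) (.w 2 7)) (.mul (.add (.mul (.r 0 1 1 1) (.w 2 1)) (.mul (.v 2) (.r 0 0 1 1))) (.add (.mul (.mul (.c 22300745198530623141535718272648361505980416) (.sub (.c 0) (.c 134868214))) (.w 2 6)) (.mul (.add (.mul (.r 0 1 1 1) (.w 2 1)) (.mul (.v 2) (.r 0 0 1 1))) (.add (.mul (.mul (.c 1329227995784915872903807060280344576) (.c 126637514)) (.w 2 5)) (.mul (.add (.mul (.r 0 1 1 1) (.w 2 1)) (.mul (.v 2) (.r 0 0 1 1))) (.add (.mul (.mul (.c 79228162514264337593543950336) (.sub (.c 0) (.c 851980415))) (.w 2 4)) (.mul (.add (.mul (.r 0 1 1 1) (.w 2 1)) (.mul (.v 2) (.r 0 0 1 1))) (.add (.mul (.mul (.c 4722366482869645213696) (.c 1936980188)) (.w 2 3)) (.mul (.add (.mul (.r 0 1 1 1) (.w 2 1)) (.mul (.v 2) (.r 0 0 1 1))) (.add (.mul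 (.mul (.c 281474976710656) (.sub (.c 0) (.c 1646722203))) (.w 2 2)) (.mul (.add (.mul (.r 0 1 1 1) (.w 2 1)) (.mul (.v 2) (.r 0 0 1 1))) (.add (.mul (.mul (.c 16777216) (.c 418469938)) (.w 2 1)) (.mul (.add (.mul (.r 0 1 1 1) (.w 2 1)) (.mul (.v 2) (.r 0 0 1 1))) (.c 55711363)))))))))))))))))) (.w 1 3)) (.mul (.mul (.c 5462) (.v 1)) (.add (.mul (.mul (.c 4294967296) (.add (.mul (.mul (.c 6277101735386680763835789423207666416102355444464034512896) (.c 29321272)) (.w 2 8)) (.mul (.add (.mul (.r 0 1 1 1) (.w 2 1)) (.mul (.v 2) (.r 0 0 1 1))) (.add (.mul (.mul (.c 374144419156711147060143317175368453031918731001856) (.sub (.c 0) (.c 282616766))) (.w 2 7)) (.mul (.add (.mul (.r 0 1 1 1) (.w 2 1)) (.mul (.v 2) (.r 0 0 1 1))) (.add (.mul (.mul (.c 22300745198530623141535718272648361505980416) (.c 778835411)) (.w 2 6)) (.mul (.add (.mul (.r 0 1 1 1) (.w 2 1)) (.mul (.v 2) (.r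 0 0 1 1))) (.add (.mul (.mul (.c 1329227995784915872903807060280344576) (.sub (.c 0) (.c 603508940))) (.w 2 5)) (.mul (.add (.mul (.r 0 1 1 1) (.w 2 1)) (.mul (.v 2) (.r 0 0 1 1))) (.add (.mul (.mul (.c 79228162514264337593543950336) (.sub (.c 0) (.c 476005185))) (.w 2 4)) (.mul (.add (.mul (.r 0 1 1 1) (.w 2 1)) (.mul (.v 2) (.r 0 0 1 1))) (.add (.mul (.mul (.c 4722366482869645213696) (.c 433686202)) (.w 2 3)) (.mul (.add (.mul (.r 0 1 1 1) (.w 2 1)) (.mul (.v 2) (.r 0 0 1 1))) (.add (.mul (.mul (.c 281474976710656) (.c 1004822900)) (.w 2 2)) (.mul (.add (.mul (.r 0 1 1 1) (.w 2 1)) (.mul (.v 2) (.r 0 0 1 1))) (.add (.mul (.mul (.c 16777216) (.sub (.c 0) (.c 1258909943))) (.w 2 1)) (.mul (.add (.mul (.r 0 1 1 1) (.w 2 1)) (.mul (.v 2) (.r 0 0 1 1))) (.c 385470983)))))))))))))))))) (.w 1 2)) (.mul (.mul (.c 5462) (.v 1)) (.add (.mul (.mul (.c 65536) (.add (.mul (.mul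 (.c 6277101735386680763835789423207666416102355444464034512896) (.sub (.c 0) (.c 11589767))) (.w 2 8)) (.mul (.add (.mul (.r 0 1 1 1) (.w 2 1)) (.mul (.v 2) (.r 0 0 1 1))) (.add (.mul (.mul (.c 374144419156711147060143317175368453031918731001856) (.c 205253669)) (.w 2 7)) (.mul (.add (.mul (.r 0 1 1 1) (.w 2 1)) (.mul (.v 2) (.r 0 0 1 1))) (.add (.mul (.mul (.c 22300745198530623141535718272648361505980416) (.sub (.c 0) (.c 816767756))) (.w 2 6)) (.mul (.add (.mul (.r 0 1 1 1) (.w 2 1)) (.mul (.v 2) (.r 0 0 1 1))) (.add (.mul (.mul (.c 1329227995784915872903807060280344576) (.c 232368737)) (.w 2 5)) (.mul (.add (.mul (.r 0 1 1 1) (.w 2 1)) (.mul (.v 2) (.r 0 0 1 1))) (.add (.mul (.mul (.c 79228162514264337593543950336) (.c 5662650307)) (.w 2 4)) (.mul (.add (.mul (.r 0 1 1 1) (.w 2 1)) (.mul (.v 2) (.r 0 0 1 1))) (.add (.mul (.mul (.c 4722366482869645213696) (.sub (.c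 0) (.c 15425267266))) (.w 2 3)) (.mul (.add (.mul (.r 0 1 1 1) (.w 2 1)) (.mul (.v 2) (.r 0 0 1 1))) (.add (.mul (.mul (.c 281474976710656) (.c 18165091934)) (.w 2 2)) (.mul (.add (.mul (.r 0 1 1 1) (.w 2 1)) (.mul (.v 2) (.r 0 0 1 1))) (.add (.mul (.mul (.c 16777216) (.sub (.c 0) (.c 10269434308))) (.w 2 1)) (.mul (.add (.mul (.r 0 1 1 1) (.w 2 1)) (.mul (.v 2) (.r 0 0 1 1))) (.c 2262492672)))))))))))))))))) (.w 1 1)) (.mul (.mul (.c 5462) (.v 1)) (.add (.mul (.mul (.c 6277101735386680763835789423207666416102355444464034512896) (.sub (.c 0) (.c 107323))) (.w 2 8)) (.mul (.add (.mul (.r 0 1 1 1) (.w 2 1)) (.mul (.v 2) (.r 0 0 1 1))) (.add (.mul (.mul (.c 374144419156711147060143317175368453031918731001856) (.sub (.c 0) (.c 58222308))) (.w 2 7)) (.mul (.add (.mul (.r 0 1 1 1) (.w 2 1)) (.mul (.v 2) (.r 0 0 1 1))) (.add (.mul (.mul (.c 22300745198530623141535718272648361505980416)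 (.c 348335136)) (.w 2 6)) (.mul (.add (.mul (.r 0 1 1 1) (.w 2 1)) (.mul (.v 2) (.r 0 0 1 1))) (.add (.mul (.mul (.c 1329227995784915872903807060280344576) (.sub (.c 0) (.c 47390534))) (.w 2 5)) (.mul (.add (.mul (.r 0 1 1 1) (.w 2 1)) (.mul (.v 2) (.r 0 0 1 1))) (.add (.mul (.mul (.c 79228162514264337593543950336) (.sub (.c 0) (.c 4324554251))) (.w 2 4)) (.mul (.add (.mul (.r 0 1 1 1) (.w 2 1)) (.mul (.v 2) (.r 0 0 1 1))) (.add (.mul (.mul (.c 4722366482869645213696) (.c 13898599801)) (.w 2 3)) (.mul (.add (.mul (.r 0 1 1 1) (.w 2 1)) (.mul (.v 2) (.r 0 0 1 1))) (.add (.mul (.mul (.c 281474976710656) (.sub (.c 0) (.c 19566930469))) (.w 2 2)) (.mul (.add (.mul (.r 0 1 1 1) (.w 2 1)) (.mul (.v 2) (.r 0 0 1 1))) (.add (.mul (.mul (.c 16777216) (.c 13306455210)) (.w 2 1)) (.mul (.add (.mul (.r 0 1 1 1) (.w 2 1)) (.mul (.v 2) (.r 0 0 1 1))) (.sub (.c 0) (.c 3541514823))))))))))))))))))))))))))),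 359, 1, 5, 9, 1⟩]

noncomputable def f1 : List Tc :=
 [⟨fun A S X L P R M N m a b c d e f g h D => (A (L (X 33554432 (A (L (R D 992) 4294967295) m)) N) (S M (L (A (L (X 33554432 (A (L (R D 20960) 4294967295) m)) N) (L (X 1 (L (X (L (R D 0) 4294967295) (A (A (L (R D 1184) 4294967295) m) (A (L (R D 21152) 4294967295) m))) N)) N)) N))), 66, 1, 1, 1, 1⟩,
  ⟨fun A S X L P R M N m a b c d e f g h D => (A (A (L (R D 800) 4294967295) m) (S M (L (A (L (R D 992) 4294967295) m) N))), 34, 1, 1, 1, 1⟩,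
  ⟨fun A S X L P R M N m a b c d e f g h D => (A (A (L (R D 20768) 4294967295) m) (S M (L (A (L (R D 20960) 4294967295) m) N))), 34, 1, 1, 1, 1⟩,
  ⟨fun A S X L P R M N m a b c d e f g h D => (A (L (X 16777216 (L (X 8 (A (A (L (R D 800) 4294967295) m) (S M (L (A (L (R D 992) 4294967295) m) N)))) N)) N) (S M (L (L (X (L (R D 0) 4294967295) (A (A (L (R D 21152) 4294967295) m) (S M (L (A (L (R D 1184) 4294967295) m) N)))) N) N))), 66, 1, 1, 1, 1⟩,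
  ⟨fun A S X L P R M N m a b c d e f g h D => (A (L (X 16777216 (L (X 8 (A (A (L (R D 20768) 4294967295) m) (S M (L (A (L (R D 20960) 4294967295) m) N)))) N)) N) (S M (L (L (X (L (R D 0) 4294967295) (A (A (L (R D 21152) 4294967295) m) (S M (L (A (L (R D 1184) 4294967295) m) N)))) N) N))), 66, 1, 1, 1, 1⟩,
  ⟨fun A S X L P R M N m a b c d e f g h D => (A (L (X 33554432 (A (L (R D 1024) 4294967295) m)) N) (S M (L (A (L (X 33554432 (A (L (R D 20992) 4294967295) m)) N) (L (X 1 (L (X (L (R D 0) 4294967295) (A (A (L (R D 1216) 4294967295) m) (A (L (R D 21184) 4294967295) m))) N)) N)) N))), 66, 1, 1, 1, 1⟩,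
  ⟨fun A S X L P R M N m a b c d e f g h D => (A (A (L (R D 832) 4294967295) m) (S M (L (A (L (R D 1024) 4294967295) m) N))), 34, 1, 1, 1, 1⟩,
  ⟨fun A S X L P R M N m a b c d e f g h D => (A (A (L (R D 20800) 4294967295) m) (S M (L (A (L (R D 20992) 4294967295) m) N))), 34, 1, 1, 1, 1⟩,
  ⟨fun A S X L P R M N m a b c d e f g h D => (A (L (X 16777216 (L (X 8 (A (A (L (R D 832) 4294967295) m) (S M (L (A (L (R D 1024) 4294967295) m) N)))) N)) N) (S M (L (L (X (L (R D 0) 4294967295) (A (A (L (R D 21184) 4294967295) m) (S M (L (A (L (R D 1216) 4294967295) m) N)))) N) N))), 66, 1, 1, 1, 1⟩,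
  ⟨fun A S X L P R M N m a b c d e f g h D => (A (L (X 16777216 (L (X 8 (A (A (L (R D 20800) 4294967295) m) (S M (L (A (L (R D 20992) 4294967295) m) N)))) N)) N) (S M (L (L (X (L (R D 0) 4294967295) (A (A (L (R D 21184) 4294967295) m) (S M (L (A (L (R D 1216) 4294967295) m) N)))) N) N))), 66, 1, 1, 1, 1⟩,
  ⟨fun A S X L P R M N m a b c d e f g h D => (A (L (X 33554432 (A (L (R D 1056) 4294967295) m)) N) (S M (L (A (L (X 33554432 (A (L (R D 21024) 4294967295) m)) N) (L (X 1 (L (X (L (R D 0) 4294967295) (A (A (L (R D 1248) 4294967295) m) (A (L (R D 21216) 4294967295) m))) N)) N)) N))), 66, 1, 1, 1, 1⟩,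
  ⟨fun A S X L P R M N m a b c d e f g h D => (A (A (L (R D 864) 4294967295) m) (S M (L (A (L (R D 1056) 4294967295) m) N))), 34, 1, 1, 1, 1⟩,
  ⟨fun A S X L P R M N m a b c d e f g h D => (A (A (L (R D 20832) 4294967295) m) (S M (L (A (L (R D 21024) 4294967295) m) N))), 34, 1, 1, 1, 1⟩,
  ⟨fun A S X L P R M N m a b c d e f g h D => (A (L (X 16777216 (L (X 8 (A (A (L (R D 864) 4294967295) m) (S M (L (A (L (R D 1056) 4294967295) m) N)))) N)) N) (S M (L (L (X (L (R D 0) 4294967295) (A (A (L (R D 21216) 4294967295) m) (S M (L (A (L (R D 1248) 4294967295) m) N)))) N) N))), 66, 1, 1, 1, 1⟩,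
  ⟨fun A S X L P R M N m a b c d e f g h D => (A (L (X 16777216 (L (X 8 (A (A (L (R D 20832) 4294967295) m) (S M (L (A (L (R D 21024) 4294967295) m) N)))) N)) N) (S M (L (L (X (L (R D 0) 4294967295) (A (A (L (R D 21216) 4294967295) m) (S M (L (A (L (R D 1248) 4294967295) m) N)))) N) N))), 66, 1, 1, 1, 1⟩,
  ⟨fun A S X L P R M N m a b c d e f g h D => (A (L (X 33554432 (A (L (R D 1088) 4294967295) m)) N) (S M (L (A (L (X 33554432 (A (L (R D 21056) 4294967295) m)) N) (L (X 1 (L (X (L (R D 0) 4294967295) (A (A (L (R D 1280) 4294967295) m) (A (L (R D 21248) 4294967295) m))) N)) N)) N))), 66, 1, 1, 1, 1⟩,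
  ⟨fun A S X L P R M N m a b c d e f g h D => (A (A (L (R D 896) 4294967295) m) (S M (L (A (L (R D 1088) 4294967295) m) N))), 34, 1, 1, 1, 1⟩,
  ⟨fun A S X L P R M N m a b c d e f g h D => (A (A (L (R D 20864) 4294967295) m) (S M (L (A (L (R D 21056) 4294967295) m) N))), 34, 1, 1, 1, 1⟩,
  ⟨fun A S X L P R M N m a b c d e f g h D => (A (L (X 16777216 (L (X 8 (A (A (L (R D 896) 4294967295) m) (S M (L (A (L (R D 1088) 4294967295) m) N)))) N)) N) (S M (L (L (X (L (R D 0) 4294967295) (A (A (L (R D 21248) 4294967295) m) (S M (L (A (L (R D 1280) 4294967295) m) N)))) N) N))), 66, 1, 1, 1, 1⟩,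
  ⟨fun A S X L P R M N m a b c d e f g h D => (A (L (X 16777216 (L (X 8 (A (A (L (R D 20864) 4294967295) m) (S M (L (A (L (R D 21056) 4294967295) m) N)))) N)) N) (S M (L (L (X (L (R D 0) 4294967295) (A (A (L (R D 21248) 4294967295) m) (S M (L (A (L (R D 1280) 4294967295) m) N)))) N) N))), 66, 1, 1, 1, 1⟩,
  ⟨fun A S X L P R M N m a b c d e f g h D => (A (L (X 33554432 (A (L (R D 1120) 4294967295) m)) N) (S M (L (A (L (X 33554432 (A (L (R D 21088) 4294967295) m)) N) (L (X 1 (L (X (L (R D 0) 4294967295) (A (A (L (R D 1312) 4294967295) m) (A (L (R D 21280) 4294967295) m))) N)) N)) N))), 66, 1, 1, 1, 1⟩,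
  ⟨fun A S X L P R M N m a b c d e f g h D => (A (A (L (R D 928) 4294967295) m) (S M (L (A (L (R D 1120) 4294967295) m) N))), 34, 1, 1, 1, 1⟩,
  ⟨fun A S X L P R M N m a b c d e f g h D => (A (A (L (R D 20896) 4294967295) m) (S M (L (A (L (R D 21088) 4294967295) m) N))), 34, 1, 1, 1, 1⟩,
  ⟨fun A S X L P R M N m a b c d e f g h D => (A (L (X 16777216 (L (X 8 (A (A (L (R D 928) 4294967295) m) (S M (L (A (L (R D 1120) 4294967295) m) N)))) N)) N) (S M (L (L (X (L (R D 0) 4294967295) (A (A (L (R D 21280) 4294967295) m) (S M (L (A (L (R D 1312) 4294967295) m) N)))) N) N))), 66, 1, 1, 1, 1⟩,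
  ⟨fun A S X L P R M N m a b c d e f g h D => (A (L (X 16777216 (L (X 8 (A (A (L (R D 20896) 4294967295) m) (S M (L (A (L (R D 21088) 4294967295) m) N)))) N)) N) (S M (L (L (X (L (R D 0) 4294967295) (A (A (L (R D 21280) 4294967295) m) (S M (L (A (L (R D 1312) 4294967295) m) N)))) N) N))), 66, 1, 1, 1, 1⟩,
  ⟨fun A S X L P R M N m a b c d e f g h D => (A 1 (S M (L 1 N))), 2, 1, 1, 1, 1⟩,
  ⟨fun A S X L P R M N m a b c d e f g h D => (A 1 (S M (L 1 N))), 2, 1, 1, 1, 1⟩,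
  ⟨fun A S X L P R M N m a b c d e f g h D => (A (A (A (L (R D 768) 4294967295) (X c (L (R D 20736) 4294967295))) (S M (L (X 2147483648 (A 1 (X c 1))) N))) (S M (L (L (X 1 (A (A (L (R D 768) 4294967295) (X c (L (R D 20736) 4294967295))) (S M (L (X 2147483648 (A 1 (X c 1))) N)))) N) N))), 35, 1, 1, 2, 1⟩,
  ⟨fun A S X L P R M N m a b c d e f g h D => (A (A (A (L (R D 800) 4294967295) (X c (L (R D 20768) 4294967295))) (S M (L (X 2147483648 (A 1 (X c 1))) N))) (S M (L (L (X 1 (A (A (L (R D 800) 4294967295) (X c (L (R D 20768) 4294967295))) (S M (L (X 2147483648 (A 1 (X c 1))) N)))) N) N))), 35, 1, 1, 2, 1⟩,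
  ⟨fun A S X L P R M N m a b c d e f g h D => (A (A (L (X (L (X 1024 (A (A (L (R D 832) 4294967295) (X c (L (R D 20800) 4294967295))) (S M (L (X 2147483648 (A 1 (X c 1))) N)))) N) e) N) (L (X (L (X 171 a) N) (A (A (L (R D 928) 4294967295) (X c (L (R D 20896) 4294967295))) (S M (L (X 2147483648 (A 1 (X c 1))) N)))) N)) (S M (L (L (X 1 (A (L (X (L (X 1024 (A (A (L (R D 832) 4294967295) (X c (L (R D 20800) 4294967295))) (S M (L (X 2147483648 (A 1 (X c 1))) N)))) N) e) N) (L (X (L (X 171 a) N) (A (A (L (R D 928) 4294967295) (X c (L (R D 20896) 4294967295))) (S M (L (X 2147483648 (A 1 (X c 1))) N)))) N))) N) N))), 46, 2, 1, 2, 1⟩,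
  ⟨fun A S X L P R M N m a b c d e f g h D => (A (A (A (L (R D 864) 4294967295) (X c (L (R D 20832) 4294967295))) (S M (L (X 2147483648 (A 1 (X c 1))) N))) (S M (L (L (X 1 (A (A (L (R D 864) 4294967295) (X c (L (R D 20832) 4294967295))) (S M (L (X 2147483648 (A 1 (X c 1))) N)))) N) N))), 35, 1, 1, 2, 1⟩,
  ⟨fun A S X L P R M N m a b c d e f g h D => (A (A (A (L (R D 896) 4294967295) (X c (L (R D 20864) 4294967295))) (S M (L (X 2147483648 (A 1 (X c 1))) N))) (S M (L (L (X 1 (A (A (L (R D 896) 4294967295) (X c (L (R D 20864) 4294967295))) (S M (L (X 2147483648 (A 1 (X c 1))) N)))) N) N))), 35, 1, 1, 2, 1⟩,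
  ⟨fun A S X L P R M N m a b c d e f g h D => (A (L (X 33554432 (A (L (R D 2112) 4294967295) m)) N) (S M (L (A (L (X 33554432 (A (L (R D 22080) 4294967295) m)) N) (L (X 1 (L (X (L (R D 0) 4294967295) (A (A (L (R D 2304) 4294967295) m) (A (L (R D 22272) 4294967295) m))) N)) N)) N))), 66, 1, 1, 1, 1⟩,
  ⟨fun A S X L P R M N m a b c d e f g h D => (A (A (L (R D 1920) 4294967295) m) (S M (L (A (L (R D 2112) 4294967295) m) N))), 34, 1, 1, 1, 1⟩,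
  ⟨fun A S X L P R M N m a b c d e f g h D => (A (A (L (R D 21888) 4294967295) m) (S M (L (A (L (R D 22080) 4294967295) m) N))), 34, 1, 1, 1, 1⟩,
  ⟨fun A S X L P R M N m a b c d e f g h D => (A (L (X 16777216 (L (X 8 (A (A (L (R D 1920) 4294967295) m) (S M (L (A (L (R D 2112) 4294967295) m) N)))) N)) N) (S M (L (L (X (L (R D 0) 4294967295) (A (A (L (R D 22272) 4294967295) m) (S M (L (A (L (R D 2304) 4294967295) m) N)))) N) N))), 66, 1, 1, 1, 1⟩,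
  ⟨fun A S X L P R M N m a b c d e f g h D => (A (L (X 16777216 (L (X 8 (A (A (L (R D 21888) 4294967295) m) (S M (L (A (L (R D 22080) 4294967295) m) N)))) N)) N) (S M (L (L (X (L (R D 0) 4294967295) (A (A (L (R D 22272) 4294967295) m) (S M (L (A (L (R D 2304) 4294967295) m) N)))) N) N))), 66, 1, 1, 1, 1⟩,
  ⟨fun A S X L P R M N m a b c d e f g h D => (A (L (X 33554432 (A (L (R D 2144) 4294967295) m)) N) (S M (L (A (L (X 33554432 (A (L (R D 22112) 4294967295) m)) N) (L (X 1 (L (X (L (R D 0) 4294967295) (A (A (L (R D 2336) 4294967295) m) (A (L (R D 22304) 4294967295) m))) N)) N)) N))), 66, 1, 1, 1, 1⟩,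
  ⟨fun A S X L P R M N m a b c d e f g h D => (A (A (L (R D 1952) 4294967295) m) (S M (L (A (L (R D 2144) 4294967295) m) N))), 34, 1, 1, 1, 1⟩,
  ⟨fun A S X L P R M N m a b c d e f g h D => (A (A (L (R D 21920) 4294967295) m) (S M (L (A (L (R D 22112) 4294967295) m) N))), 34, 1, 1, 1, 1⟩,
  ⟨fun A S X L P R M N m a b c d e f g h D => (A (L (X 16777216 (L (X 8 (A (A (L (R D 1952) 4294967295) m) (S M (L (A (L (R D 2144) 4294967295) m) N)))) N)) N) (S M (L (L (X (L (R D 0) 4294967295) (A (A (L (R D 22304) 4294967295) m) (S M (L (A (L (R D 2336) 4294967295) m) N)))) N) N))), 66, 1, 1, 1, 1⟩,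
  ⟨fun A S X L P R M N m a b c d e f g h D => (A (L (X 16777216 (L (X 8 (A (A (L (R D 21920) 4294967295) m) (S M (L (A (L (R D 22112) 4294967295) m) N)))) N)) N) (S M (L (L (X (L (R D 0) 4294967295) (A (A (L (R D 22304) 4294967295) m) (S M (L (A (L (R D 2336) 4294967295) m) N)))) N) N))), 66, 1, 1, 1, 1⟩,
  ⟨fun A S X L P R M N m a b c d e f g h D => (A (L (X 33554432 (A (L (R D 2176) 4294967295) m)) N) (S M (L (A (L (X 33554432 (A (L (R D 22144) 4294967295) m)) N) (L (X 1 (L (X (L (R D 0) 4294967295) (A (A (L (R D 2368) 4294967295) m) (A (L (R D 22336) 4294967295) m))) N)) N)) N))), 66, 1, 1, 1, 1⟩,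
  ⟨fun A S X L P R M N m a b c d e f g h D => (A (A (L (R D 1984) 4294967295) m) (S M (L (A (L (R D 2176) 4294967295) m) N))), 34, 1, 1, 1, 1⟩,
  ⟨fun A S X L P R M N m a b c d e f g h D => (A (A (L (R D 21952) 4294967295) m) (S M (L (A (L (R D 22144) 4294967295) m) N))), 34, 1, 1, 1, 1⟩,
  ⟨fun A S X L P R M N m a b c d e f g h D => (A (L (X 16777216 (L (X 8 (A (A (L (R D 1984) 4294967295) m) (S M (L (A (L (R D 2176) 4294967295) m) N)))) N)) N) (S M (L (L (X (L (R D 0) 4294967295) (A (A (L (R D 22336) 4294967295) m) (S M (L (A (L (R D 2368) 4294967295) m) N)))) N) N))), 66, 1, 1, 1, 1⟩,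
  ⟨fun A S X L P R M N m a b c d e f g h D => (A (L (X 16777216 (L (X 8 (A (A (L (R D 21952) 4294967295) m) (S M (L (A (L (R D 22144) 4294967295) m) N)))) N)) N) (S M (L (L (X (L (R D 0) 4294967295) (A (A (L (R D 22336) 4294967295) m) (S M (L (A (L (R D 2368) 4294967295) m) N)))) N) N))), 66, 1, 1, 1, 1⟩,
  ⟨fun A S X L P R M N m a b c d e f g h D => (A (L (X 33554432 (A (L (R D 2208) 4294967295) m)) N) (S M (L (A (L (X 33554432 (A (L (R D 22176) 4294967295) m)) N) (L (X 1 (L (X (L (R D 0) 4294967295) (A (A (L (R D 2400) 4294967295) m) (A (L (R D 22368) 4294967295) m))) N)) N)) N))), 66, 1, 1, 1, 1⟩,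
  ⟨fun A S X L P R M N m a b c d e f g h D => (A (A (L (R D 2016) 4294967295) m) (S M (L (A (L (R D 2208) 4294967295) m) N))), 34, 1, 1, 1, 1⟩,
  ⟨fun A S X L P R M N m a b c d e f g h D => (A (A (L (R D 21984) 4294967295) m) (S M (L (A (L (R D 22176) 4294967295) m) N))), 34, 1, 1, 1, 1⟩,
  ⟨fun A S X L P R M N m a b c d e f g h D => (A (L (X 16777216 (L (X 8 (A (A (L (R D 2016) 4294967295) m) (S M (L (A (L (R D 2208) 4294967295) m) N)))) N)) N) (S M (L (L (X (L (R D 0) 4294967295) (A (A (L (R D 22368) 4294967295) m) (S M (L (A (L (R D 2400) 4294967295) m) N)))) N) N))), 66, 1, 1, 1, 1⟩,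
  ⟨fun A S X L P R M N m a b c d e f g h D => (A (L (X 16777216 (L (X 8 (A (A (L (R D 21984) 4294967295) m) (S M (L (A (L (R D 22176) 4294967295) m) N)))) N)) N) (S M (L (L (X (L (R D 0) 4294967295) (A (A (L (R D 22368) 4294967295) m) (S M (L (A (L (R D 2400) 4294967295) m) N)))) N) N))), 66, 1, 1, 1, 1⟩,
  ⟨fun A S X L P R M N m a b c d e f g h D => (A (L (X 33554432 (A (L (R D 2240) 4294967295) m)) N) (S M (L (A (L (X 33554432 (A (L (R D 22208) 4294967295) m)) N) (L (X 1 (L (X (L (R D 0) 4294967295) (A (A (L (R D 2432) 4294967295) m) (A (L (R D 22400) 4294967295) m))) N)) N)) N))), 66, 1, 1, 1, 1⟩,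
  ⟨fun A S X L P R M N m a b c d e f g h D => (A (A (L (R D 2048) 4294967295) m) (S M (L (A (L (R D 2240) 4294967295) m) N))), 34, 1, 1, 1, 1⟩,
  ⟨fun A S X L P R M N m a b c d e f g h D => (A (A (L (R D 22016) 4294967295) m) (S M (L (A (L (R D 22208) 4294967295) m) N))), 34, 1, 1, 1, 1⟩,
  ⟨fun A S X L P R M N m a b c d e f g h D => (A (L (X 16777216 (L (X 8 (A (A (L (R D 2048) 4294967295) m) (S M (L (A (L (R D 2240) 4294967295) m) N)))) N)) N) (S M (L (L (X (L (R D 0) 4294967295) (A (A (L (R D 22400) 4294967295) m) (S M (L (A (L (R D 2432) 4294967295) m) N)))) N) N))), 66, 1, 1, 1, 1⟩,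
  ⟨fun A S X L P R M N m a b c d e f g h D => (A (L (X 16777216 (L (X 8 (A (A (L (R D 22016) 4294967295) m) (S M (L (A (L (R D 22208) 4294967295) m) N)))) N)) N) (S M (L (L (X (L (R D 0) 4294967295) (A (A (L (R D 22400) 4294967295) m) (S M (L (A (L (R D 2432) 4294967295) m) N)))) N) N))), 66, 1, 1, 1, 1⟩,
  ⟨fun A S X L P R M N m a b c d e f g h D => (A (L (X 33554432 (A (L (R D 2272) 4294967295) m)) N) (S M (L (A (L (X 33554432 (A (L (R D 22240) 4294967295) m)) N) (L (X 1 (L (X (L (R D 0) 4294967295) (A (A (L (R D 2464) 4294967295) m) (A (L (R D 22432) 4294967295) m))) N)) N)) N))), 66, 1, 1, 1, 1⟩,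
  ⟨fun A S X L P R M N m a b c d e f g h D => (A (A (L (R D 2080) 4294967295) m) (S M (L (A (L (R D 2272) 4294967295) m) N))), 34, 1, 1, 1, 1⟩,
  ⟨fun A S X L P R M N m a b c d e f g h D => (A (A (L (R D 22048) 4294967295) m) (S M (L (A (L (R D 22240) 4294967295) m) N))), 34, 1, 1, 1, 1⟩,
  ⟨fun A S X L P R M N m a b c d e f g h D => (A (L (X 16777216 (L (X 8 (A (A (L (R D 2080) 4294967295) m) (S M (L (A (L (R D 2272) 4294967295) m) N)))) N)) N) (S M (L (L (X (L (R D 0) 4294967295) (A (A (L (R D 22432) 4294967295) m) (S M (L (A (L (R D 2464) 4294967295) m) N)))) N) N))), 66, 1, 1, 1, 1⟩,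
  ⟨fun A S X L P R M N m a b c d e f g h D => (A (L (X 16777216 (L (X 8 (A (A (L (R D 22048) 4294967295) m) (S M (L (A (L (R D 22240) 4294967295) m) N)))) N)) N) (S M (L (L (X (L (R D 0) 4294967295) (A (A (L (R D 22432) 4294967295) m) (S M (L (A (L (R D 2464) 4294967295) m) N)))) N) N))), 66, 1, 1, 1, 1⟩,
  ⟨fun A S X L P R M N m a b c d e f g h D => (A 1 (S M (L 1 N))), 2, 1, 1, 1, 1⟩,
  ⟨fun A S X L P R M N m a b c d e f g h D => (A 1 (S M (L 1 N))), 2, 1, 1, 1, 1⟩,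
  ⟨fun A S X L P R M N m a b c d e f g h D => (A (A (A (L (R D 1920) 4294967295) (X c (L (R D 21888) 4294967295))) (S M (L (X 2147483648 (A 1 (X c 1))) N))) (S M (L (L (X 1 (A (A (L (R D 1920) 4294967295) (X c (L (R D 21888) 4294967295))) (S M (L (X 2147483648 (A 1 (X c 1))) N)))) N) N))), 35, 1, 1, 2, 1⟩,
  ⟨fun A S X L P R M N m a b c d e f g h D => (A (A (A (L (R D 1952) 4294967295) (X c (L (R D 21920) 4294967295))) (S M (L (X 2147483648 (A 1 (X c 1))) N))) (S M (L (L (X 1 (A (A (L (R D 1952) 4294967295) (X c (L (R D 21920) 4294967295))) (S M (L (X 2147483648 (A 1 (X c 1))) N)))) N) N))), 35, 1, 1, 2, 1⟩,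
  ⟨fun A S X L P R M N m a b c d e f g h D => (A (A (L (X (L (X 1024 (A (A (L (R D 1984) 4294967295) (X c (L (R D 21952) 4294967295))) (S M (L (X 2147483648 (A 1 (X c 1))) N)))) N) e) N) (L (X (L (X 171 a) N) (A (A (L (R D 2080) 4294967295) (X c (L (R D 22048) 4294967295))) (S M (L (X 2147483648 (A 1 (X c 1))) N)))) N)) (S M (L (L (X 1 (A (L (X (L (X 1024 (A (A (L (R D 1984) 4294967295) (X c (L (R D 21952) 4294967295))) (S M (L (X 2147483648 (A 1 (X c 1))) N)))) N) e) N) (L (X (L (X 171 a) N) (A (A (L (R D 2080) 4294967295) (X c (L (R D 22048) 4294967295))) (S M (L (X 2147483648 (A 1 (X c 1))) N)))) N))) N) N))), 46, 2, 1, 2, 1⟩,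
  ⟨fun A S X L P R M N m a b c d e f g h D => (A (A (A (L (R D 2016) 4294967295) (X c (L (R D 21984) 4294967295))) (S M (L (X 2147483648 (A 1 (X c 1))) N))) (S M (L (L (X 1 (A (A (L (R D 2016) 4294967295) (X c (L (R D 21984) 4294967295))) (S M (L (X 2147483648 (A 1 (X c 1))) N)))) N) N))), 35, 1, 1, 2, 1⟩,
  ⟨fun A S X L P R M N m a b c d e f g h D => (A (A (A (L (R D 2048) 4294967295) (X c (L (R D 22016) 4294967295))) (S M (L (X 2147483648 (A 1 (X c 1))) N))) (S M (L (L (X 1 (A (A (L (R D 2048) 4294967295) (X c (L (R D 22016) 4294967295))) (S M (L (X 2147483648 (A 1 (X c 1))) N)))) N) N))), 35, 1, 1, 2, 1⟩,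
  ⟨fun A S X L P R M N m a b c d e f g h D => (A (L (X 33554432 (A (L (R D 1536) 4294967295) m)) N) (S M (L (A (L (X 33554432 (A (L (R D 21504) 4294967295) m)) N) (L (X 1 (L (X (L (R D 0) 4294967295) (A (A (L (R D 1728) 4294967295) m) (A (L (R D 21696) 4294967295) m))) N)) N)) N))), 66, 1, 1, 1, 1⟩,
  ⟨fun A S X L P R M N m a b c d e f g h D => (A (A (L (R D 1344) 4294967295) m) (S M (L (A (L (R D 1536) 4294967295) m) N))), 34, 1, 1, 1, 1⟩,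
  ⟨fun A S X L P R M N m a b c d e f g h D => (A (A (L (R D 21312) 4294967295) m) (S M (L (A (L (R D 21504) 4294967295) m) N))), 34, 1, 1, 1, 1⟩,
  ⟨fun A S X L P R M N m a b c d e f g h D => (A (L (X 16777216 (L (X 8 (A (A (L (R D 1344) 4294967295) m) (S M (L (A (L (R D 1536) 4294967295) m) N)))) N)) N) (S M (L (L (X (L (R D 0) 4294967295) (A (A (L (R D 21696) 4294967295) m) (S M (L (A (L (R D 1728) 4294967295) m) N)))) N) N))), 66, 1, 1, 1, 1⟩,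
  ⟨fun A S X L P R M N m a b c d e f g h D => (A (L (X 16777216 (L (X 8 (A (A (L (R D 21312) 4294967295) m) (S M (L (A (L (R D 21504) 4294967295) m) N)))) N)) N) (S M (L (L (X (L (R D 0) 4294967295) (A (A (L (R D 21696) 4294967295) m) (S M (L (A (L (R D 1728) 4294967295) m) N)))) N) N))), 66, 1, 1, 1, 1⟩,
  ⟨fun A S X L P R M N m a b c d e f g h D => (A (L (X 33554432 (A (L (R D 1568) 4294967295) m)) N) (S M (L (A (L (X 33554432 (A (L (R D 21536) 4294967295) m)) N) (L (X 1 (L (X (L (R D 0) 4294967295) (A (A (L (R D 1760) 4294967295) m) (A (L (R D 21728) 4294967295) m))) N)) N)) N))), 66, 1, 1, 1, 1⟩,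
  ⟨fun A S X L P R M N m a b c d e f g h D => (A (A (L (R D 1376) 4294967295) m) (S M (L (A (L (R D 1568) 4294967295) m) N))), 34, 1, 1, 1, 1⟩,
  ⟨fun A S X L P R M N m a b c d e f g h D => (A (A (L (R D 21344) 4294967295) m) (S M (L (A (L (R D 21536) 4294967295) m) N))), 34, 1, 1, 1, 1⟩,
  ⟨fun A S X L P R M N m a b c d e f g h D => (A (L (X 16777216 (L (X 8 (A (A (L (R D 1376) 4294967295) m) (S M (L (A (L (R D 1568) 4294967295) m) N)))) N)) N) (S M (L (L (X (L (R D 0) 4294967295) (A (A (L (R D 21728) 4294967295) m) (S M (L (A (L (R D 1760) 4294967295) m) N)))) N) N))), 66, 1, 1, 1, 1⟩,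
  ⟨fun A S X L P R M N m a b c d e f g h D => (A (L (X 16777216 (L (X 8 (A (A (L (R D 21344) 4294967295) m) (S M (L (A (L (R D 21536) 4294967295) m) N)))) N)) N) (S M (L (L (X (L (R D 0) 4294967295) (A (A (L (R D 21728) 4294967295) m) (S M (L (A (L (R D 1760) 4294967295) m) N)))) N) N))), 66, 1, 1, 1, 1⟩,
  ⟨fun A S X L P R M N m a b c d e f g h D => (A (L (X 33554432 (A (L (R D 1600) 4294967295) m)) N) (S M (L (A (L (X 33554432 (A (L (R D 21568) 4294967295) m)) N) (L (X 1 (L (X (L (R D 0) 4294967295) (A (A (L (R D 1792) 4294967295) m) (A (L (R D 21760) 4294967295) m))) N)) N)) N))), 66, 1, 1, 1, 1⟩,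
  ⟨fun A S X L P R M N m a b c d e f g h D => (A (A (L (R D 1408) 4294967295) m) (S M (L (A (L (R D 1600) 4294967295) m) N))), 34, 1, 1, 1, 1⟩,
  ⟨fun A S X L P R M N m a b c d e f g h D => (A (A (L (R D 21376) 4294967295) m) (S M (L (A (L (R D 21568) 4294967295) m) N))), 34, 1, 1, 1, 1⟩,
  ⟨fun A S X L P R M N m a b c d e f g h D => (A (L (X 16777216 (L (X 8 (A (A (L (R D 1408) 4294967295) m) (S M (L (A (L (R D 1600) 4294967295) m) N)))) N)) N) (S M (L (L (X (L (R D 0) 4294967295) (A (A (L (R D 21760) 4294967295) m) (S M (L (A (L (R D 1792) 4294967295) m) N)))) N) N))), 66, 1, 1, 1, 1⟩,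
  ⟨fun A S X L P R M N m a b c d e f g h D => (A (L (X 16777216 (L (X 8 (A (A (L (R D 21376) 4294967295) m) (S M (L (A (L (R D 21568) 4294967295) m) N)))) N)) N) (S M (L (L (X (L (R D 0) 4294967295) (A (A (L (R D 21760) 4294967295) m) (S M (L (A (L (R D 1792) 4294967295) m) N)))) N) N))), 66, 1, 1, 1, 1⟩,
  ⟨fun A S X L P R M N m a b c d e f g h D => (A (L (X 33554432 (A (L (R D 1632) 4294967295) m)) N) (S M (L (A (L (X 33554432 (A (L (R D 21600) 4294967295) m)) N) (L (X 1 (L (X (L (R D 0) 4294967295) (A (A (L (R D 1824) 4294967295) m) (A (L (R D 21792) 4294967295) m))) N)) N)) N))), 66, 1, 1, 1, 1⟩,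
  ⟨fun A S X L P R M N m a b c d e f g h D => (A (A (L (R D 1440) 4294967295) m) (S M (L (A (L (R D 1632) 4294967295) m) N))), 34, 1, 1, 1, 1⟩,
  ⟨fun A S X L P R M N m a b c d e f g h D => (A (A (L (R D 21408) 4294967295) m) (S M (L (A (L (R D 21600) 4294967295) m) N))), 34, 1, 1, 1, 1⟩,
  ⟨fun A S X L P R M N m a b c d e f g h D => (A (L (X 16777216 (L (X 8 (A (A (L (R D 1440) 4294967295) m) (S M (L (A (L (R D 1632) 4294967295) m) N)))) N)) N) (S M (L (L (X (L (R D 0) 4294967295) (A (A (L (R D 21792) 4294967295) m) (S M (L (A (L (R D 1824) 4294967295) m) N)))) N) N))), 66, 1, 1, 1, 1⟩,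
  ⟨fun A S X L P R M N m a b c d e f g h D => (A (L (X 16777216 (L (X 8 (A (A (L (R D 21408) 4294967295) m) (S M (L (A (L (R D 21600) 4294967295) m) N)))) N)) N) (S M (L (L (X (L (R D 0) 4294967295) (A (A (L (R D 21792) 4294967295) m) (S M (L (A (L (R D 1824) 4294967295) m) N)))) N) N))), 66, 1, 1, 1, 1⟩,
  ⟨fun A S X L P R M N m a b c d e f g h D => (A (L (X 33554432 (A (L (R D 1664) 4294967295) m)) N) (S M (L (A (L (X 33554432 (A (L (R D 21632) 4294967295) m)) N) (L (X 1 (L (X (L (R D 0) 4294967295) (A (A (L (R D 1856) 4294967295) m) (A (L (R D 21824) 4294967295) m))) N)) N)) N))), 66, 1, 1, 1, 1⟩,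
  ⟨fun A S X L P R M N m a b c d e f g h D => (A (A (L (R D 1472) 4294967295) m) (S M (L (A (L (R D 1664) 4294967295) m) N))), 34, 1, 1, 1, 1⟩,
  ⟨fun A S X L P R M N m a b c d e f g h D => (A (A (L (R D 21440) 4294967295) m) (S M (L (A (L (R D 21632) 4294967295) m) N))), 34, 1, 1, 1, 1⟩,
  ⟨fun A S X L P R M N m a b c d e f g h D => (A (L (X 16777216 (L (X 8 (A (A (L (R D 1472) 4294967295) m) (S M (L (A (L (R D 1664) 4294967295) m) N)))) N)) N) (S M (L (L (X (L (R D 0) 4294967295) (A (A (L (R D 21824) 4294967295) m) (S M (L (A (L (R D 1856) 4294967295) m) N)))) N) N))), 66, 1, 1, 1, 1⟩,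
  ⟨fun A S X L P R M N m a b c d e f g h D => (A (L (X 16777216 (L (X 8 (A (A (L (R D 21440) 4294967295) m) (S M (L (A (L (R D 21632) 4294967295) m) N)))) N)) N) (S M (L (L (X (L (R D 0) 4294967295) (A (A (L (R D 21824) 4294967295) m) (S M (L (A (L (R D 1856) 4294967295) m) N)))) N) N))), 66, 1, 1, 1, 1⟩,
  ⟨fun A S X L P R M N m a b c d e f g h D => (A (L (X 33554432 (A (L (R D 1696) 4294967295) m)) N) (S M (L (A (L (X 33554432 (A (L (R D 21664) 4294967295) m)) N) (L (X 1 (L (X (L (R D 0) 4294967295) (A (A (L (R D 1888) 4294967295) m) (A (L (R D 21856) 4294967295) m))) N)) N)) N))), 66, 1, 1, 1, 1⟩,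
  ⟨fun A S X L P R M N m a b c d e f g h D => (A (A (L (R D 1504) 4294967295) m) (S M (L (A (L (R D 1696) 4294967295) m) N))), 34, 1, 1, 1, 1⟩,
  ⟨fun A S X L P R M N m a b c d e f g h D => (A (A (L (R D 21472) 4294967295) m) (S M (L (A (L (R D 21664) 4294967295) m) N))), 34, 1, 1, 1, 1⟩,
  ⟨fun A S X L P R M N m a b c d e f g h D => (A (L (X 16777216 (L (X 8 (A (A (L (R D 1504) 4294967295) m) (S M (L (A (L (R D 1696) 4294967295) m) N)))) N)) N) (S M (L (L (X (L (R D 0) 4294967295) (A (A (L (R D 21856) 4294967295) m) (S M (L (A (L (R D 1888) 4294967295) m) N)))) N) N))), 66, 1, 1, 1, 1⟩,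
  ⟨fun A S X L P R M N m a b c d e f g h D => (A (L (X 16777216 (L (X 8 (A (A (L (R D 21472) 4294967295) m) (S M (L (A (L (R D 21664) 4294967295) m) N)))) N)) N) (S M (L (L (X (L (R D 0) 4294967295) (A (A (L (R D 21856) 4294967295) m) (S M (L (A (L (R D 1888) 4294967295) m) N)))) N) N))), 66, 1, 1, 1, 1⟩,
  ⟨fun A S X L P R M N m a b c d e f g h D => (A 1 (S M (L 1 N))), 2, 1, 1, 1, 1⟩,
  ⟨fun A S X L P R M N m a b c d e f g h D => (A 1 (S M (L 1 N))), 2, 1, 1, 1, 1⟩,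
  ⟨fun A S X L P R M N m a b c d e f g h D => (A (A (A (L (R D 1344) 4294967295) (X c (L (R D 21312) 4294967295))) (S M (L (X 2147483648 (A 1 (X c 1))) N))) (S M (L (L (X 1 (A (A (L (R D 1344) 4294967295) (X c (L (R D 21312) 4294967295))) (S M (L (X 2147483648 (A 1 (X c 1))) N)))) N) N))), 35, 1, 1, 2, 1⟩,
  ⟨fun A S X L P R M N m a b c d e f g h D => (A (A (A (L (R D 1376) 4294967295) (X c (L (R D 21344) 4294967295))) (S M (L (X 2147483648 (A 1 (X c 1))) N))) (S M (L (L (X 1 (A (A (L (R D 1376) 4294967295) (X c (L (R D 21344) 4294967295))) (S M (L (X 2147483648 (A 1 (X c 1))) N)))) N) N))), 35, 1, 1, 2, 1⟩,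
  ⟨fun A S X L P R M N m a b c d e f g h D => (A (A (L (X (L (X 1024 (A (A (L (R D 1408) 4294967295) (X c (L (R D 21376) 4294967295))) (S M (L (X 2147483648 (A 1 (X c 1))) N)))) N) e) N) (L (X (L (X 171 a) N) (A (A (L (R D 1504) 4294967295) (X c (L (R D 21472) 4294967295))) (S M (L (X 2147483648 (A 1 (X c 1))) N)))) N)) (S M (L (L (X 1 (A (L (X (L (X 1024 (A (A (L (R D 1408) 4294967295) (X c (L (R D 21376) 4294967295))) (S M (L (X 2147483648 (A 1 (X c 1))) N)))) N) e) N) (L (X (L (X 171 a) N) (A (A (L (R D 1504) 4294967295) (X c (L (R D 21472) 4294967295))) (S M (L (X 2147483648 (A 1 (X c 1))) N)))) N))) N) N))), 46, 2, 1, 2, 1⟩,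
  ⟨fun A S X L P R M N m a b c d e f g h D => (A (A (A (L (R D 1440) 4294967295) (X c (L (R D 21408) 4294967295))) (S M (L (X 2147483648 (A 1 (X c 1))) N))) (S M (L (L (X 1 (A (A (L (R D 1440) 4294967295) (X c (L (R D 21408) 4294967295))) (S M (L (X 2147483648 (A 1 (X c 1))) N)))) N) N))), 35, 1, 1, 2, 1⟩,
  ⟨fun A S X L P R M N m a b c d e f g h D => (A (A (A (L (R D 1472) 4294967295) (X c (L (R D 21440) 4294967295))) (S M (L (X 2147483648 (A 1 (X c 1))) N))) (S M (L (L (X 1 (A (A (L (R D 1472) 4294967295) (X c (L (R D 21440) 4294967295))) (S M (L (X 2147483648 (A 1 (X c 1))) N)))) N) N))), 35, 1, 1, 2, 1⟩,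
  ⟨fun A S X L P R M N m a b c d e f g h D => (A (L (X 33554432 (A (L (R D 2688) 4294967295) m)) N) (S M (L (A (L (X 33554432 (A (L (R D 22656) 4294967295) m)) N) (L (X 1 (L (X (L (R D 0) 4294967295) (A (A (L (R D 2880) 4294967295) m) (A (L (R D 22848) 4294967295) m))) N)) N)) N))), 66, 1, 1, 1, 1⟩,
  ⟨fun A S X L P R M N m a b c d e f g h D => (A (A (L (R D 2496) 4294967295) m) (S M (L (A (L (R D 2688) 4294967295) m) N))), 34, 1, 1, 1, 1⟩,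
  ⟨fun A S X L P R M N m a b c d e f g h D => (A (A (L (R D 22464) 4294967295) m) (S M (L (A (L (R D 22656) 4294967295) m) N))), 34, 1, 1, 1, 1⟩,
  ⟨fun A S X L P R M N m a b c d e f g h D => (A (L (X 16777216 (L (X 8 (A (A (L (R D 2496) 4294967295) m) (S M (L (A (L (R D 2688) 4294967295) m) N)))) N)) N) (S M (L (L (X (L (R D 0) 4294967295) (A (A (L (R D 22848) 4294967295) m) (S M (L (A (L (R D 2880) 4294967295) m) N)))) N) N))), 66, 1, 1, 1, 1⟩,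
  ⟨fun A S X L P R M N m a b c d e f g h D => (A (L (X 16777216 (L (X 8 (A (A (L (R D 22464) 4294967295) m) (S M (L (A (L (R D 22656) 4294967295) m) N)))) N)) N) (S M (L (L (X (L (R D 0) 4294967295) (A (A (L (R D 22848) 4294967295) m) (S M (L (A (L (R D 2880) 4294967295) m) N)))) N) N))), 66, 1, 1, 1, 1⟩,
  ⟨fun A S X L P R M N m a b c d e f g h D => (A (L (X 33554432 (A (L (R D 2720) 4294967295) m)) N) (S M (L (A (L (X 33554432 (A (L (R D 22688) 4294967295) m)) N) (L (X 1 (L (X (L (R D 0) 4294967295) (A (A (L (R D 2912) 4294967295) m) (A (L (R D 22880) 4294967295) m))) N)) N)) N))), 66, 1, 1, 1, 1⟩,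
  ⟨fun A S X L P R M N m a b c d e f g h D => (A (A (L (R D 2528) 4294967295) m) (S M (L (A (L (R D 2720) 4294967295) m) N))), 34, 1, 1, 1, 1⟩,
  ⟨fun A S X L P R M N m a b c d e f g h D => (A (A (L (R D 22496) 4294967295) m) (S M (L (A (L (R D 22688) 4294967295) m) N))), 34, 1, 1, 1, 1⟩,
  ⟨fun A S X L P R M N m a b c d e f g h D => (A (L (X 16777216 (L (X 8 (A (A (L (R D 2528) 4294967295) m) (S M (L (A (L (R D 2720) 4294967295) m) N)))) N)) N) (S M (L (L (X (L (R D 0) 4294967295) (A (A (L (R D 22880) 4294967295) m) (S M (L (A (L (R D 2912) 4294967295) m) N)))) N) N))), 66, 1, 1, 1, 1⟩,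
  ⟨fun A S X L P R M N m a b c d e f g h D => (A (L (X 16777216 (L (X 8 (A (A (L (R D 22496) 4294967295) m) (S M (L (A (L (R D 22688) 4294967295) m) N)))) N)) N) (S M (L (L (X (L (R D 0) 4294967295) (A (A (L (R D 22880) 4294967295) m) (S M (L (A (L (R D 2912) 4294967295) m) N)))) N) N))), 66, 1, 1, 1, 1⟩,
  ⟨fun A S X L P R M N m a b c d e f g h D => (A (L (X 33554432 (A (L (R D 2752) 4294967295) m)) N) (S M (L (A (L (X 33554432 (A (L (R D 22720) 4294967295) m)) N) (L (X 1 (L (X (L (R D 0) 4294967295) (A (A (L (R D 2944) 4294967295) m) (A (L (R D 22912) 4294967295) m))) N)) N)) N))), 66, 1, 1, 1, 1⟩,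
  ⟨fun A S X L P R M N m a b c d e f g h D => (A (A (L (R D 2560) 4294967295) m) (S M (L (A (L (R D 2752) 4294967295) m) N))), 34, 1, 1, 1, 1⟩,
  ⟨fun A S X L P R M N m a b c d e f g h D => (A (A (L (R D 22528) 4294967295) m) (S M (L (A (L (R D 22720) 4294967295) m) N))), 34, 1, 1, 1, 1⟩,
  ⟨fun A S X L P R M N m a b c d e f g h D => (A (L (X 16777216 (L (X 8 (A (A (L (R D 2560) 4294967295) m) (S M (L (A (L (R D 2752) 4294967295) m) N)))) N)) N) (S M (L (L (X (L (R D 0) 4294967295) (A (A (L (R D 22912) 4294967295) m) (S M (L (A (L (R D 2944) 4294967295) m) N)))) N) N))), 66, 1, 1, 1, 1⟩,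
  ⟨fun A S X L P R M N m a b c d e f g h D => (A (L (X 16777216 (L (X 8 (A (A (L (R D 22528) 4294967295) m) (S M (L (A (L (R D 22720) 4294967295) m) N)))) N)) N) (S M (L (L (X (L (R D 0) 4294967295) (A (A (L (R D 22912) 4294967295) m) (S M (L (A (L (R D 2944) 4294967295) m) N)))) N) N))), 66, 1, 1, 1, 1⟩,
  ⟨fun A S X L P R M N m a b c d e f g h D => (A (L (X 33554432 (A (L (R D 2784) 4294967295) m)) N) (S M (L (A (L (X 33554432 (A (L (R D 22752) 4294967295) m)) N) (L (X 1 (L (X (L (R D 0) 4294967295) (A (A (L (R D 2976) 4294967295) m) (A (L (R D 22944) 4294967295) m))) N)) N)) N))), 66, 1, 1, 1, 1⟩,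
  ⟨fun A S X L P R M N m a b c d e f g h D => (A (A (L (R D 2592) 4294967295) m) (S M (L (A (L (R D 2784) 4294967295) m) N))), 34, 1, 1, 1, 1⟩,
  ⟨fun A S X L P R M N m a b c d e f g h D => (A (A (L (R D 22560) 4294967295) m) (S M (L (A (L (R D 22752) 4294967295) m) N))), 34, 1, 1, 1, 1⟩,
  ⟨fun A S X L P R M N m a b c d e f g h D => (A (L (X 16777216 (L (X 8 (A (A (L (R D 2592) 4294967295) m) (S M (L (A (L (R D 2784) 4294967295) m) N)))) N)) N) (S M (L (L (X (L (R D 0) 4294967295) (A (A (L (R D 22944) 4294967295) m) (S M (L (A (L (R D 2976) 4294967295) m) N)))) N) N))), 66, 1, 1, 1, 1⟩,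
  ⟨fun A S X L P R M N m a b c d e f g h D => (A (L (X 16777216 (L (X 8 (A (A (L (R D 22560) 4294967295) m) (S M (L (A (L (R D 22752) 4294967295) m) N)))) N)) N) (S M (L (L (X (L (R D 0) 4294967295) (A (A (L (R D 22944) 4294967295) m) (S M (L (A (L (R D 2976) 4294967295) m) N)))) N) N))), 66, 1, 1, 1, 1⟩,
  ⟨fun A S X L P R M N m a b c d e f g h D => (A (L (X 33554432 (A (L (R D 2816) 4294967295) m)) N) (S M (L (A (L (X 33554432 (A (L (R D 22784) 4294967295) m)) N) (L (X 1 (L (X (L (R D 0) 4294967295) (A (A (L (R D 3008) 4294967295) m) (A (L (R D 22976) 4294967295) m))) N)) N)) N))), 66, 1, 1, 1, 1⟩,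
  ⟨fun A S X L P R M N m a b c d e f g h D => (A (A (L (R D 2624) 4294967295) m) (S M (L (A (L (R D 2816) 4294967295) m) N))), 34, 1, 1, 1, 1⟩,
  ⟨fun A S X L P R M N m a b c d e f g h D => (A (A (L (R D 22592) 4294967295) m) (S M (L (A (L (R D 22784) 4294967295) m) N))), 34, 1, 1, 1, 1⟩,
  ⟨fun A S X L P R M N m a b c d e f g h D => (A (L (X 16777216 (L (X 8 (A (A (L (R D 2624) 4294967295) m) (S M (L (A (L (R D 2816) 4294967295) m) N)))) N)) N) (S M (L (L (X (L (R D 0) 4294967295) (A (A (L (R D 22976) 4294967295) m) (S M (L (A (L (R D 3008) 4294967295) m) N)))) N) N))), 66, 1, 1, 1, 1⟩,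
  ⟨fun A S X L P R M N m a b c d e f g h D => (A (L (X 16777216 (L (X 8 (A (A (L (R D 22592) 4294967295) m) (S M (L (A (L (R D 22784) 4294967295) m) N)))) N)) N) (S M (L (L (X (L (R D 0) 4294967295) (A (A (L (R D 22976) 4294967295) m) (S M (L (A (L (R D 3008) 4294967295) m) N)))) N) N))), 66, 1, 1, 1, 1⟩,
  ⟨fun A S X L P R M N m a b c d e f g h D => (A (L (X 33554432 (A (L (R D 2848) 4294967295) m)) N) (S M (L (A (L (X 33554432 (A (L (R D 22816) 4294967295) m)) N) (L (X 1 (L (X (L (R D 0) 4294967295) (A (A (L (R D 3040) 4294967295) m) (A (L (R D 23008) 4294967295) m))) N)) N)) N))), 66, 1, 1, 1, 1⟩,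
  ⟨fun A S X L P R M N m a b c d e f g h D => (A (A (L (R D 2656) 4294967295) m) (S M (L (A (L (R D 2848) 4294967295) m) N))), 34, 1, 1, 1, 1⟩,
  ⟨fun A S X L P R M N m a b c d e f g h D => (A (A (L (R D 22624) 4294967295) m) (S M (L (A (L (R D 22816) 4294967295) m) N))), 34, 1, 1, 1, 1⟩,
  ⟨fun A S X L P R M N m a b c d e f g h D => (A (L (X 16777216 (L (X 8 (A (A (L (R D 2656) 4294967295) m) (S M (L (A (L (R D 2848) 4294967295) m) N)))) N)) N) (S M (L (L (X (L (R D 0) 4294967295) (A (A (L (R D 23008) 4294967295) m) (S M (L (A (L (R D 3040) 4294967295) m) N)))) N) N))), 66, 1, 1, 1, 1⟩,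
  ⟨fun A S X L P R M N m a b c d e f g h D => (A (L (X 16777216 (L (X 8 (A (A (L (R D 22624) 4294967295) m) (S M (L (A (L (R D 22816) 4294967295) m) N)))) N)) N) (S M (L (L (X (L (R D 0) 4294967295) (A (A (L (R D 23008) 4294967295) m) (S M (L (A (L (R D 3040) 4294967295) m) N)))) N) N))), 66, 1, 1, 1, 1⟩,
  ⟨fun A S X L P R M N m a b c d e f g h D => (A 1 (S M (L 1 N))), 2, 1, 1, 1, 1⟩,
  ⟨fun A S X L P R M N m a b c d e f g h D => (A 1 (S M (L 1 N))), 2, 1, 1, 1, 1⟩,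
  ⟨fun A S X L P R M N m a b c d e f g h D => (A (A (A (L (R D 2496) 4294967295) (X c (L (R D 22464) 4294967295))) (S M (L (X 2147483648 (A 1 (X c 1))) N))) (S M (L (L (X 1 (A (A (L (R D 2496) 4294967295) (X c (L (R D 22464) 4294967295))) (S M (L (X 2147483648 (A 1 (X c 1))) N)))) N) N))), 35, 1, 1, 2, 1⟩,
  ⟨fun A S X L P R M N m a b c d e f g h D => (A (A (A (L (R D 2528) 4294967295) (X c (L (R D 22496) 4294967295))) (S M (L (X 2147483648 (A 1 (X c 1))) N))) (S M (L (L (X 1 (A (A (L (R D 2528) 4294967295) (X c (L (R D 22496) 4294967295))) (S M (L (X 2147483648 (A 1 (X c 1))) N)))) N) N))), 35, 1, 1, 2, 1⟩,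
  ⟨fun A S X L P R M N m a b c d e f g h D => (A (A (L (X (L (X 1024 (A (A (L (R D 2560) 4294967295) (X c (L (R D 22528) 4294967295))) (S M (L (X 2147483648 (A 1 (X c 1))) N)))) N) e) N) (L (X (L (X 171 a) N) (A (A (L (R D 2656) 4294967295) (X c (L (R D 22624) 4294967295))) (S M (L (X 2147483648 (A 1 (X c 1))) N)))) N)) (S M (L (L (X 1 (A (L (X (L (X 1024 (A (A (L (R D 2560) 4294967295) (X c (L (R D 22528) 4294967295))) (S M (L (X 2147483648 (A 1 (X c 1))) N)))) N) e) N) (L (X (L (X 171 a) N) (A (A (L (R D 2656) 4294967295) (X c (L (R D 22624) 4294967295))) (S M (L (X 2147483648 (A 1 (X c 1))) N)))) N))) N) N))), 46, 2, 1, 2, 1⟩,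
  ⟨fun A S X L P R M N m a b c d e f g h D => (A (A (A (L (R D 2592) 4294967295) (X c (L (R D 22560) 4294967295))) (S M (L (X 2147483648 (A 1 (X c 1))) N))) (S M (L (L (X 1 (A (A (L (R D 2592) 4294967295) (X c (L (R D 22560) 4294967295))) (S M (L (X 2147483648 (A 1 (X c 1))) N)))) N) N))), 35, 1, 1, 2, 1⟩,
  ⟨fun A S X L P R M N m a b c d e f g h D => (A (A (A (L (R D 2624) 4294967295) (X c (L (R D 22592) 4294967295))) (S M (L (X 2147483648 (A 1 (X c 1))) N))) (S M (L (L (X 1 (A (A (L (R D 2624) 4294967295) (X c (L (R D 22592) 4294967295))) (S M (L (X 2147483648 (A 1 (X c 1))) N)))) N) N))), 35, 1, 1, 2, 1⟩,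
  ⟨fun A S X L P R M N m a b c d e f g h D => (A (A (L (R D 32) 4294967295) (L (R D 0) 4294967295)) (S M (L (L (R D 20000) 4294967295) N))), 34, 1, 1, 1, 1⟩,
  ⟨fun A S X L P R M N m a b c d e f g h D => (A (L (R D 20000) 4294967295) (S M (L (A (L (R D 32) 4294967295) (L (R D 0) 4294967295)) N))), 34, 1, 1, 1, 1⟩,
  ⟨fun A S X L P R M N m a b c d e f g h D => (A (L (X (L (X (L (X 26959946667150639794667015087019630673637144422540572481103610249216 (A (L (X (L (X 4294967296 (A (L (R D 64) 4294967295) (X c (L (R D 20032) 4294967295)))) N) (P f 2)) N) (L (X (L (X 5462 b) N) (A (L (X (L (X 65536 (A (L (R D 96) 4294967295) (X c (L (R D 20064) 4294967295)))) N) f) N) (L (X (L (X 5462 b) N) (A (L (R D 128) 4294967295) (X c (L (R D 20096) 4294967295)))) N))) N))) N) (P f 2)) N) (P g 7)) N) (S M (L (A (L (X (L (X (L (X 1942668892225729070919461906823518906642406839052139521251812409738904285205208498176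 1) N) (P f 4)) N) (P g 8)) N) (L (X (L (X 5462 b) N) (A (L (X (L (X 281474976710656 (A (L (X (L (X 6277101735386680763835789423207666416102355444464034512896 (A 0 (S M (L 32347428 N)))) N) (P g 8)) N) (L (X (A (L (X (L (R D 32) 4294967295) g) N) (L (X c (L (R D 0) 4294967295)) N)) (A (L (X (L (X 374144419156711147060143317175368453031918731001856 144886159) N) (P g 7)) N) (L (X (A (L (X (L (R D 32) 4294967295) g) N) (L (X c (L (R D 0) 4294967295)) N)) (A (L (X (L (X 22300745198530623141535718272648361505980416 (A 0 (S M (L 134868214 N)))) N) (P g 6)) N) (L (X (A (L (X (L (R D 32) 4294967295) g) N) (L (X c (L (R D 0) 4294967295)) N)) (A (L (X (L (X 1329227995784915872903807060280344576 126637514) N) (P g 5)) N) (L (X (A (L (X (L (R D 32) 4294967295) g) N) (L (X c (L (R D 0) 4294967295)) N)) (A (L (X (L (X 79228162514264337593543950336 (A 0 (S M (L 851980415 N)))) N) (P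 g 4)) N) (L (X (A (L (X (L (R D 32) 4294967295) g) N) (L (X c (L (R D 0) 4294967295)) N)) (A (L (X (L (X 4722366482869645213696 1936980188) N) (P g 3)) N) (L (X (A (L (X (L (R D 32) 4294967295) g) N) (L (X c (L (R D 0) 4294967295)) N)) (A (L (X (L (X 281474976710656 (A 0 (S M (L 1646722203 N)))) N) (P g 2)) N) (L (X (A (L (X (L (R D 32) 4294967295) g) N) (L (X c (L (R D 0) 4294967295)) N)) (A (L (X (L (X 16777216 418469938) N) g) N) (L (X (A (L (X (L (R D 32) 4294967295) g) N) (L (X c (L (R D 0) 4294967295)) N)) 55711363) N))) N))) N))) N))) N))) N))) N))) N))) N) (P f 3)) N) (L (X (L (X 5462 b) N) (A (L (X (L (X 4294967296 (A (L (X (L (X 6277101735386680763835789423207666416102355444464034512896 29321272) N) (P g 8)) N) (L (X (A (L (X (L (R D 32) 4294967295) g) N) (L (X c (L (R D 0) 4294967295)) N)) (A (L (X (L (X 374144419156711147060143317175368453031918731001856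 (A 0 (S M (L 282616766 N)))) N) (P g 7)) N) (L (X (A (L (X (L (R D 32) 4294967295) g) N) (L (X c (L (R D 0) 4294967295)) N)) (A (L (X (L (X 22300745198530623141535718272648361505980416 778835411) N) (P g 6)) N) (L (X (A (L (X (L (R D 32) 4294967295) g) N) (L (X c (L (R D 0) 4294967295)) N)) (A (L (X (L (X 1329227995784915872903807060280344576 (A 0 (S M (L 603508940 N)))) N) (P g 5)) N) (L (X (A (L (X (L (R D 32) 4294967295) g) N) (L (X c (L (R D 0) 4294967295)) N)) (A (L (X (L (X 79228162514264337593543950336 (A 0 (S M (L 476005185 N)))) N) (P g 4)) N) (L (X (A (L (X (L (R D 32) 4294967295) g) N) (L (X c (L (R D 0) 4294967295)) N)) (A (L (X (L (X 4722366482869645213696 433686202) N) (P g 3)) N) (L (X (A (L (X (L (R D 32) 4294967295) g) N) (L (X c (L (R D 0) 4294967295)) N)) (A (L (X (L (X 281474976710656 1004822900) N) (P g 2)) N) (L (X (A (L (X (L (R D 32) 4294967295)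 g) N) (L (X c (L (R D 0) 4294967295)) N)) (A (L (X (L (X 16777216 (A 0 (S M (L 1258909943 N)))) N) g) N) (L (X (A (L (X (L (R D 32) 4294967295) g) N) (L (X c (L (R D 0) 4294967295)) N)) 385470983) N))) N))) N))) N))) N))) N))) N))) N))) N) (P f 2)) N) (L (X (L (X 5462 b) N) (A (L (X (L (X 65536 (A (L (X (L (X 6277101735386680763835789423207666416102355444464034512896 (A 0 (S M (L 11589767 N)))) N) (P g 8)) N) (L (X (A (L (X (L (R D 32) 4294967295) g) N) (L (X c (L (R D 0) 4294967295)) N)) (A (L (X (L (X 374144419156711147060143317175368453031918731001856 205253669) N) (P g 7)) N) (L (X (A (L (X (L (R D 32) 4294967295) g) N) (L (X c (L (R D 0) 4294967295)) N)) (A (L (X (L (X 22300745198530623141535718272648361505980416 (A 0 (S M (L 816767756 N)))) N) (P g 6)) N) (L (X (A (L (X (L (R D 32) 4294967295) g) N) (L (X c (L (R D 0) 4294967295)) N)) (A (L (X (L (X 1329227995784915872903807060280344576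 232368737) N) (P g 5)) N) (L (X (A (L (X (L (R D 32) 4294967295) g) N) (L (X c (L (R D 0) 4294967295)) N)) (A (L (X (L (X 79228162514264337593543950336 5662650307) N) (P g 4)) N) (L (X (A (L (X (L (R D 32) 4294967295) g) N) (L (X c (L (R D 0) 4294967295)) N)) (A (L (X (L (X 4722366482869645213696 (A 0 (S M (L 15425267266 N)))) N) (P g 3)) N) (L (X (A (L (X (L (R D 32) 4294967295) g) N) (L (X c (L (R D 0) 4294967295)) N)) (A (L (X (L (X 281474976710656 18165091934) N) (P g 2)) N) (L (X (A (L (X (L (R D 32) 4294967295) g) N) (L (X c (L (R D 0) 4294967295)) N)) (A (L (X (L (X 16777216 (A 0 (S M (L 10269434308 N)))) N) g) N) (L (X (A (L (X (L (R D 32) 4294967295) g) N) (L (X c (L (R D 0) 4294967295)) N)) 2262492672) N))) N))) N))) N))) N))) N))) N))) N))) N) f) N) (L (X (L (X 5462 b) N) (A (L (X (L (X 6277101735386680763835789423207666416102355444464034512896 (A 0 (S M (L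 107323 N)))) N) (P g 8)) N) (L (X (A (L (X (L (R D 32) 4294967295) g) N) (L (X c (L (R D 0) 4294967295)) N)) (A (L (X (L (X 374144419156711147060143317175368453031918731001856 (A 0 (S M (L 58222308 N)))) N) (P g 7)) N) (L (X (A (L (X (L (R D 32) 4294967295) g) N) (L (X c (L (R D 0) 4294967295)) N)) (A (L (X (L (X 22300745198530623141535718272648361505980416 348335136) N) (P g 6)) N) (L (X (A (L (X (L (R D 32) 4294967295) g) N) (L (X c (L (R D 0) 4294967295)) N)) (A (L (X (L (X 1329227995784915872903807060280344576 (A 0 (S M (L 47390534 N)))) N) (P g 5)) N) (L (X (A (L (X (L (R D 32) 4294967295) g) N) (L (X c (L (R D 0) 4294967295)) N)) (A (L (X (L (X 79228162514264337593543950336 (A 0 (S M (L 4324554251 N)))) N) (P g 4)) N) (L (X (A (L (X (L (R D 32) 4294967295) g) N) (L (X c (L (R D 0) 4294967295)) N)) (A (L (X (L (X 4722366482869645213696 13898599801) N) (P g 3)) N)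 (L (X (A (L (X (L (R D 32) 4294967295) g) N) (L (X c (L (R D 0) 4294967295)) N)) (A (L (X (L (X 281474976710656 (A 0 (S M (L 19566930469 N)))) N) (P g 2)) N) (L (X (A (L (X (L (R D 32) 4294967295) g) N) (L (X c (L (R D 0) 4294967295)) N)) (A (L (X (L (X 16777216 13306455210) N) g) N) (L (X (A (L (X (L (R D 32) 4294967295) g) N) (L (X c (L (R D 0) 4294967295)) N)) (A 0 (S M (L 3541514823 N)))) N))) N))) N))) N))) N))) N))) N))) N))) N))) N))) N))) N)) N))), 359, 1, 5, 9, 1⟩]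

theorem p1 : Pce Pool.Agent.RZ.RCO.SAs.sheet 1248 150 1 (t1, f1) :=
  ⟨by decide +kernel, rfl, by decide +kernel⟩

end Pool.Agent.RZ.RCO.SASL
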