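import Pool.Agent.RZ.RCO.SASLt0_2
import Pool.Agent.RZ.RCO.SASLt1

/-! The types of a sheet (MP_73ccd0_lc). -/

set_option autoImplicit false
set_option maxRecDepth 100000

namespace Pool.Agent.RZ.RCO.SASL

open Sg

/-- the pieces -/
noncomputable def L : List (List Ty × List Tc) := [(t0, f0), (t1, f1)]

theorem mp : (Pool.Agent.RZ.RCO.SAs.sheet).mp = true := by decide +kernel

theorem lay : Lay Pool.Agent.RZ.RCO.SAs.sheet 1248 L :=
  lay_of (w := 150) mp (fun k hk => match k, hk with
    | 0, _ => p0
    | 1, _ => p1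
    | k + 2, hk => absurd (show k + 2 < 2 from hk) (by omega)) (by decide +kernel)

end Pool.Agent.RZ.RCO.SASL
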