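import Pool.Agent.RZ.RCO.SA
import Pool.Agent.RZ.RCO.SASLL
import Pool.Agent.RZ.RCO.SAdC_1
import Pool.Agent.RZ.RCO.SAsdC_1

/-! Tables (MP_73ccd0_lc). -/

set_option autoImplicit false
set_option maxRecDepth 100000

open Pool.Agent.RZ.RCO Pool.Agent.RZ.RCO.Sg

namespace Pool.Agent.RZ.RCO.SAs9

theorem dSASL_0 : stepc SASL.f0 624 1248 D 0 23 = true := by decide +kernel
theorem dSASL_1 : stepc SASL.f1 624 1248 D 0 23 = true := by decide +kernel

theorem rowsSASL : ∀ j < 23, (SAs.sheet).At D 624 j := SASL.lay.at fun a ha => by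
  simp only [SASL.L, List.mem_cons, List.not_mem_nil, or_false] at ha
  rcases ha with rfl | rfl
  exacts [dSASL_0, dSASL_1]

theorem okE : SAs.x.okE D 23 = true := by decide +kernel
theorem okH : SAs.xh.okE D 23 = true := by decide +kernel
theorem sok : sOk SA.x0 SA9.D SAs.s0 D 23 = true := by decide +kernel

end Pool.Agent.RZ.RCO.SAs9

namespace Pool.Agent.RZ.RCO.SAs10

theorem dSASL_0 : stepc SASL.f0 624 1248 D 0 23 = true := by decide +kernel
theorem dSASL_1 : stepc SASL.f1 624 1248 D 0 23 = true := by decide +kernel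

theorem rowsSASL : ∀ j < 23, (SAs.sheet).At D 624 j := SASL.lay.at fun a ha => by
  simp only [SASL.L, List.mem_cons, List.not_mem_nil, or_false] at ha
  rcases ha with rfl | rfl
  exacts [dSASL_0, dSASL_1]

theorem okE : SAs.x.okE D 23 = true := by decide +kernel
theorem okH : SAs.xh.okE D 23 = true := by decide +kernel
theorem sok : sOk SA.x0 SA10.D SAs.s0 D 23 = true := by decide +kernel

end Pool.Agent.RZ.RCO.SAs10

namespace Pool.Agent.RZ.RCO.SAs11

theorem dSASL_0 : stepc SASL.f0 624 1248 D 0 24 = true := by decide +kernel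
theorem dSASL_1 : stepc SASL.f1 624 1248 D 0 24 = true := by decide +kernel

theorem rowsSASL : ∀ j < 24, (SAs.sheet).At D 624 j := SASL.lay.at fun a ha => by
  simp only [SASL.L, List.mem_cons, List.not_mem_nil, or_false] at ha
  rcases ha with rfl | rfl
  exacts [dSASL_0, dSASL_1]

theorem okE : SAs.x.okE D 24 = true := by decide +kernel
theorem okH : SAs.xh.okE D 24 = true := by decide +kernel
theorem sok : sOk SA.x0 SA11.D SAs.s0 D 24 = true := by decide +kernel

end Pool.Agent.RZ.RCO.SAs11

namespace Pool.Agent.RZ.RCO.SAs12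

theorem dSASL_0 : stepc SASL.f0 624 1248 D 0 24 = true := by decide +kernel
theorem dSASL_1 : stepc SASL.f1 624 1248 D 0 24 = true := by decide +kernel

theorem rowsSASL : ∀ j < 24, (SAs.sheet).At D 624 j := SASL.lay.at fun a ha => by
  simp only [SASL.L, List.mem_cons, List.not_mem_nil, or_false] at ha
  rcases ha with rfl | rfl
  exacts [dSASL_0, dSASL_1]

theorem okE : SAs.x.okE D 24 = true := by decide +kernel
theorem okH : SAs.xh.okE D 24 = true := by decide +kernel
theorem sok : sOk SA.x0 SA12.D SAs.s0 D 24 = true := by decide +kernel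

end Pool.Agent.RZ.RCO.SAs12
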