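import Pool.Agent.RZ.RCO.EdG
import Pool.Agent.RZ.RCO.EdM
import Pool.Agent.RZ.RCO.SKs10

/-! Generated: the end of the big cell 10, star (MP_73ccd0_lc). -/

set_option autoImplicit false
set_option maxRecDepth 100000

open Pool.Agent.RZ.RCO

namespace Pool.Agent.RZ.RCO.ECs10

def qA : ℕ → ℤ := fun l => match l with
  | 0 => 0
  | 1 => 3292528
  | 2 => 6585056
  | 3 => 9877600
  | 4 => 13170128
  | _ => 0

def q : Ec0 := ⟨4, 13170128, 838896, qA, 0⟩

def djH : ℕ → ℕ := fun l => match l with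
  | 0 => 838896
  | 1 => 613408
  | 2 => 613408
  | 3 => 613408
  | 4 => 613408
  | 5 => 548755
  | 6 => 548754
  | 7 => 548755
  | 8 => 548755
  | 9 => 548754
  | 10 => 548755
  | 11 => 548757
  | 12 => 548758
  | 13 => 548757
  | 14 => 548757
  | 15 => 548758
  | 16 => 548757
  | 17 => 548755
  | 18 => 548754
  | 19 => 548755
  | 20 => 548755
  | 21 => 548754
  | 22 => 548755
  | _ => 0

def djR : ℕ → ℕ := fun l => match l with
  | 0 => 16777216
  | 1 => 16777216
  | 2 => 16777216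
  | 3 => 16777216
  | 4 => 16777216
  | 5 => 16777216
  | 6 => 16777216
  | 7 => 16777216
  | 8 => 16840356
  | 9 => 16980869
  | 10 => 17100430
  | 11 => 17202065
  | 12 => 17288618
  | 13 => 17363128
  | 14 => 17428577
  | 15 => 17487740
  | 16 => 17543031
  | 17 => 17598007
  | 18 => 17654215
  | 19 => 17710802
  | 20 => 17768091
  | 21 => 17826218
  | 22 => 17883796
  | _ => 0

def djW : ℕ → ℕ := fun l => match l with
  | 0 => 19432364
  | 1 => 19226025
  | 2 => 19080327
  | 3 => 18938671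
  | 4 => 18800808
  | 5 => 18666502
  | 6 => 18549182
  | 7 => 18434368
  | 8 => 18321911
  | 9 => 18211457
  | 10 => 18102425
  | 11 => 17994528
  | 12 => 17887791
  | 13 => 17782214
  | 14 => 17677774
  | 15 => 17574431
  | 16 => 17472124
  | 17 => 17370777
  | 18 => 17270298
  | 19 => 17170579
  | 20 => 17071514
  | 21 => 16972998
  | 22 => 16874929
  | _ => 0

def djK : ℕ → ℕ := fun l => match l with
  | 0 => 0
  | 1 => 5
  | 2 => 11
  | 3 => 17
  | 4 => 23
  | _ => 0

def dj : Dj := ⟨23, djH, djR, djW, 4, djK, 838896⟩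

def kK : ℕ → ℕ := fun l => match l with
  | 0 => 0
  | 1 => 5
  | 2 => 11
  | 3 => 17
  | 4 => 23
  | _ => 0

def tT : ℕ → ℤ := fun l => match l with
  | 0 => 0
  | 1 => 838896
  | 2 => 1452304
  | 3 => 2065712
  | 4 => 2679120
  | 5 => 3292528
  | 6 => 3841283
  | 7 => 4390037
  | 8 => 4938792
  | 9 => 5487547
  | 10 => 6036301
  | 11 => 6585056
  | 12 => 7133813
  | 13 => 7682571
  | 14 => 8231328
  | 15 => 8780085
  | 16 => 9328843
  | 17 => 9877600
  | 18 => 10426355
  | 19 => 10975109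
  | 20 => 11523864
  | 21 => 12072619
  | 22 => 12621373
  | 23 => 13170128
  | _ => 0

theorem qo : q.ok = true := by decide +kernel
theorem djo : dj.ok = true := by decide +kernel
theorem djt : dj.tie 1024 SCs10.c.D 624 0 2 3 4 5 3 = true := by decide +kernel
theorem djr : dj.rel q = true := by decide +kernel
theorem rel : q.Rel (RTab.tabq 1) 10 := Ec0.relB_of (by decide +kernel)

def slo : ℕ → (ℕ → ℤ) := fun l => match l with
  | 0 => v6 5262697 12362656 9723684 (-1285957) (-2331829) 4477166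
  | 1 => v6 1780738 4854890 3837891 (-324572) (-104936) 1436269
  | 2 => v6 521002 1745302 1444770 20526 331514 393968
  | 3 => v6 88681 385437 338808 27405 177092 50081
  | _ => fun _ => 0

def shi : ℕ → (ℕ → ℤ) := fun l => match l with
  | 0 => v6 1780738 4854890 3837891 (-283760) 138514 1436269
  | 1 => v6 521002 1745302 1444770 60725 413116 393968
  | 2 => v6 88681 385437 338808 48517 227010 50081
  | 3 => v6 0 0 0 0 0 0
  | _ => fun _ => 0

def slo1 : ℕ → ℤ := v6 4375537 10449769 8224056 (-1030609) (-1702415) 3702383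

def sJ0 : ℕ → ℤ := fun l => match l with
  | 0 => 0
  | 1 => 42452
  | 2 => 134816
  | 3 => 282449
  | 4 => 897710
  | _ => 0

def sJ1 : ℕ → ℤ := fun l => match l with
  | 0 => 0
  | 1 => 26894
  | 2 => 106941
  | 3 => 231091
  | 4 => 655303
  | _ => 0

def sF0 : ℕ → ℤ := fun l => match l with
  | 0 => 0
  | 1 => 93503
  | 2 => 226286
  | 3 => 406961
  | 4 => 1049256
  | _ => 0

def sF1 : ℕ → ℤ := fun l => match l with
  | 0 => 0
  | 1 => 81370
  | 2 => 204547
  | 3 => 363955
  | 4 => 817016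
  | _ => 0

def sHm0 : ℕ → ℤ := fun l => match l with
  | 0 => 13497791
  | 1 => 10249396
  | 2 => 6924348
  | 3 => 3509695
  | _ => 0

def sHm1 : ℕ → ℤ := fun l => match l with
  | 0 => 12658895
  | 1 => 10249396
  | 2 => 6924348
  | 3 => 3509695
  | _ => 0

def sHp : ℕ → ℤ := fun l => match l with
  | 0 => 10205263
  | 1 => 6893437
  | 2 => 3481512
  | 3 => 0
  | _ => 0

def stg : ℕ → ℕ → ℤ := fun l => match l with
  | 0 => fun i => match i with | 0 => 5 | 1 => 16 | 2 => 26 | 3 => 8 | 4 => 82 | 5 => 73 | 6 => 52 | 7 => 56 | _ => 0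
  | 1 => fun i => match i with | 0 => 26 | 1 => 8 | 2 => 14 | 3 => 0 | 4 => 35 | 5 => 40 | 6 => 18 | 7 => 30 | _ => 0
  | 2 => fun i => match i with | 0 => 14 | 1 => 0 | 2 => 0 | 3 => 0 | 4 => 1 | 5 => 7 | 6 => 1 | 7 => 0 | _ => 0
  | 3 => fun i => match i with | 0 => 0 | 1 => 0 | 2 => 0 | 3 => 0 | 4 => 0 | 5 => 0 | 6 => 0 | 7 => 0 | _ => 0
  | _ => fun _ => 0

def sML : ℕ → E4 := fun l => match l with
  | 0 => ⟨493098546, 400535820, 529772012, 427812012⟩
  | 1 => ⟨545087108, 426347554, 581955278, 453624033⟩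
  | 2 => ⟨690693461, 532306287, 727367369, 559582966⟩
  | 3 => ⟨933204800, 722198400, 969878975, 749475305⟩
  | _ => ⟨0, 0, 0, 0⟩

def sPL : ℕ → E4 := fun l => match l with
  | 0 => ⟨545087108, 426347554, 581955278, 453624033⟩
  | 1 => ⟨690693461, 532306287, 727367369, 559582966⟩
  | 2 => ⟨933204800, 722198400, 969878975, 749475305⟩
  | 3 => ⟨1299405000, 1013213400, 1336079467, 1040490550⟩
  | _ => ⟨0, 0, 0, 0⟩

def sMF : ℕ → E4 := fun l => match l with
  | 0 => ⟨1651077483, 1386116963, 1768842275, 1476132396⟩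
  | 1 => ⟨1388925915, 1207638816, 1468856617, 1271609957⟩
  | 2 => ⟨1343268070, 1125553423, 1399515966, 1169656789⟩
  | 3 => ⟨1465475900, 1186896550, 1507451488, 1218670988⟩
  | _ => ⟨0, 0, 0, 0⟩

def sPF : ℕ → E4 := fun l => match l with
  | 0 => ⟨1300554057, 1126639845, 1385980624, 1191691549⟩
  | 1 => ⟨1161197056, 979960292, 1227810698, 1030974817⟩
  | 2 => ⟨1158351413, 939601116, 1208933205, 978038379⟩
  | 3 => ⟨1317671850, 1029630800, 1358041450, 1059799250⟩
  | _ => ⟨0, 0, 0, 0⟩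

def su : EhN := ⟨kK, tT, slo, shi, slo1, sJ0, sJ1, sF0, sF1, sHm0, sHm1, sHp, stg, sML, sPL, sMF, sPF⟩

def stn : ℕ → ℤ := fun l => match l with
  | 0 => 0
  | 1 => 0
  | 2 => 0
  | 3 => 0
  | 4 => 0
  | 5 => 0
  | _ => 0

noncomputable def sh : Ehk := SC.Fs.xc SCs10.c RecK.rk SKs10.e su

theorem scd : sh.cd.ck q = true := by decide +kernel
theorem sLS : (sh.L true (RTab.rr RT.kSL 10)).ckS q = true := by decide +kernel
theorem sLT : (sh.L true (RTab.rr RT.kSL 10)).ckT q = true := by decide +kernel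
theorem sFS : (sh.F true (RTab.rr RT.kSF 10)).ckS q = true := by decide +kernel
theorem sFT : (sh.F true (RTab.rr RT.kSF 10)).ckT q = true := by decide +kernel
theorem sj : sh.ckJ q.n dj 17030488 20667732 = true := by decide +kernel
theorem sms : sh.msB q.n = true := by decide +kernel
theorem snl : sh.nck true q 17030488 20667732 3518196 stn = true := by decide +kernel

/-- **the checks of the numbers** -/
theorem sH : HCel sh q true dj 17030488 20667732 (RTab.rr RT.kSL 10) (RTab.rr RT.kSF 10) 10 :=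
  ⟨⟨qo, scd, rfl, rfl, rfl, sLS, sLT, sFS, sFT⟩, Ehk.msB_of sms, sj, fun h => absurd h (by decide)⟩

end Pool.Agent.RZ.RCO.ECs10
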