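import Pool.Agent.RZ.RCO.EdG
import Pool.Agent.RZ.RCO.EdM
import Pool.Agent.RZ.RCO.SKs11

/-! Generated: the end of the big cell 11, star (MP_73ccd0_lc). -/

set_option autoImplicit false
set_option maxRecDepth 100000

open Pool.Agent.RZ.RCO

namespace Pool.Agent.RZ.RCO.ECs11

def qA : ℕ → ℤ := fun l => match l with
  | 0 => 0
  | 1 => 3460304
  | 2 => 6920608
  | 3 => 10380912
  | 4 => 13841216
  | _ => 0

def q : Ec0 := ⟨4, 13841216, 671120, qA, 0⟩

def djH : ℕ → ℕ := fun l => match l with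
  | 0 => 671120
  | 1 => 557837
  | 2 => 557837
  | 3 => 557836
  | 4 => 557837
  | 5 => 557837
  | 6 => 576717
  | 7 => 576718
  | 8 => 576717
  | 9 => 576717
  | 10 => 576718
  | 11 => 576717
  | 12 => 576717
  | 13 => 576718
  | 14 => 576717
  | 15 => 576717
  | 16 => 576718
  | 17 => 576717
  | 18 => 576717
  | 19 => 576718
  | 20 => 576717
  | 21 => 576717
  | 22 => 576718
  | 23 => 576717
  | _ => 0

def djR : ℕ → ℕ := fun l => match l with
  | 0 => 16777216
  | 1 => 16777216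
  | 2 => 16777216
  | 3 => 16777216
  | 4 => 16777216
  | 5 => 16777216
  | 6 => 16777216
  | 7 => 16777216
  | 8 => 16777216
  | 9 => 16914966
  | 10 => 17050686
  | 11 => 17164852
  | 12 => 17261152
  | 13 => 17343010
  | 14 => 17413937
  | 15 => 17477237
  | 16 => 17535814
  | 17 => 17593375
  | 18 => 17652436
  | 19 => 17711890
  | 20 => 17772127
  | 21 => 17833344
  | 22 => 17893811
  | 23 => 17952354
  | _ => 0

def djW : ℕ → ℕ := fun l => match l with
  | 0 => 19615374
  | 1 => 19443650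
  | 2 => 19305242
  | 3 => 19170521
  | 4 => 19039280
  | 5 => 18911327
  | 6 => 18786473
  | 7 => 18660463
  | 8 => 18537388
  | 9 => 18417066
  | 10 => 18298842
  | 11 => 18182106
  | 12 => 18066820
  | 13 => 17952992
  | 14 => 17840605
  | 15 => 17729616
  | 16 => 17619953
  | 17 => 17511530
  | 18 => 17404237
  | 19 => 17297948
  | 20 => 17192535
  | 21 => 17087876
  | 22 => 16983843
  | 23 => 16880323
  | _ => 0

def djK : ℕ → ℕ := fun l => match l with
  | 0 => 0
  | 1 => 6
  | 2 => 12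
  | 3 => 18
  | 4 => 24
  | _ => 0

def dj : Dj := ⟨24, djH, djR, djW, 4, djK, 671120⟩

def kK : ℕ → ℕ := fun l => match l with
  | 0 => 0
  | 1 => 6
  | 2 => 12
  | 3 => 18
  | 4 => 24
  | _ => 0

def tT : ℕ → ℤ := fun l => match l with
  | 0 => 0
  | 1 => 671120
  | 2 => 1228957
  | 3 => 1786794
  | 4 => 2344630
  | 5 => 2902467
  | 6 => 3460304
  | 7 => 4037021
  | 8 => 4613739
  | 9 => 5190456
  | 10 => 5767173
  | 11 => 6343891
  | 12 => 6920608
  | 13 => 7497325
  | 14 => 8074043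
  | 15 => 8650760
  | 16 => 9227477
  | 17 => 9804195
  | 18 => 10380912
  | 19 => 10957629
  | 20 => 11534347
  | 21 => 12111064
  | 22 => 12687781
  | 23 => 13264499
  | 24 => 13841216
  | _ => 0

theorem qo : q.ok = true := by decide +kernel
theorem djo : dj.ok = true := by decide +kernel
theorem djt : dj.tie 1024 SCs11.c.D 624 0 2 3 4 5 3 = true := by decide +kernel
theorem djr : dj.rel q = true := by decide +kernel
theorem rel : q.Rel (RTab.tabq 1) 11 := Ec0.relB_of (by decide +kernel)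

def slo : ℕ → (ℕ → ℤ) := fun l => match l with
  | 0 => v6 6665206 15281841 12097319 (-1501474) (-3049061) 5789569
  | 1 => v6 2127565 5669988 4448583 (-346643) (-201212) 1740828
  | 2 => v6 603935 1983011 1624258 36007 379321 467643
  | 3 => v6 100544 431270 376244 33953 208148 58797
  | _ => fun _ => 0

def shi : ℕ → (ℕ → ℤ) := fun l => match l with
  | 0 => v6 2127565 5669988 4448583 (-295403) 133030 1740828
  | 1 => v6 603935 1983011 1624258 91856 474733 467643
  | 2 => v6 100544 431270 376244 56528 271461 58797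
  | 3 => v6 0 0 0 0 0 0
  | _ => fun _ => 0

def slo1 : ℕ → ℤ := v6 5785139 13417639 10613860 (-1267558) (-2431899) 5004323

def sJ0 : ℕ → ℤ := fun l => match l with
  | 0 => 0
  | 1 => 94694
  | 2 => 234858
  | 3 => 469356
  | 4 => 1299441
  | _ => 0

def sJ1 : ℕ → ℤ := fun l => match l with
  | 0 => 0
  | 1 => 84104
  | 2 => 216040
  | 3 => 397972
  | 4 => 1072670
  | _ => 0

def sF0 : ℕ → ℤ := fun l => match l with
  | 0 => 0
  | 1 => 160053
  | 2 => 351003
  | 3 => 626460
  | 4 => 1489645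
  | _ => 0

def sF1 : ℕ → ℤ := fun l => match l with
  | 0 => 0
  | 1 => 153037
  | 2 => 338536
  | 3 => 563667
  | 4 => 1273275
  | _ => 0

def sHm0 : ℕ → ℤ := fun l => match l with
  | 0 => 14216343
  | 1 => 10808528
  | 2 => 7300440
  | 3 => 3702677
  | _ => 0

def sHm1 : ℕ → ℤ := fun l => match l with
  | 0 => 13545223
  | 1 => 10808528
  | 2 => 7300440
  | 3 => 3702677
  | _ => 0

def sHp : ℕ → ℤ := fun l => match l with
  | 0 => 10756039
  | 1 => 7268274
  | 2 => 3671803
  | 3 => 0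
  | _ => 0

def stg : ℕ → ℕ → ℤ := fun l => match l with
  | 0 => fun i => match i with | 0 => 15 | 1 => 24 | 2 => 23 | 3 => 17 | 4 => 85 | 5 => 85 | 6 => 67 | 7 => 72 | _ => 0
  | 1 => fun i => match i with | 0 => 23 | 1 => 17 | 2 => 8 | 3 => 8 | 4 => 61 | 5 => 48 | 6 => 47 | 7 => 40 | _ => 0
  | 2 => fun i => match i with | 0 => 8 | 1 => 8 | 2 => 0 | 3 => 0 | 4 => 8 | 5 => 16 | 6 => 8 | 7 => 8 | _ => 0
  | 3 => fun i => match i with | 0 => 0 | 1 => 0 | 2 => 0 | 3 => 0 | 4 => 0 | 5 => 0 | 6 => 0 | 7 => 0 | _ => 0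
  | _ => fun _ => 0

def sML : ℕ → E4 := fun l => match l with
  | 0 => ⟨591433429, 497919333, 638778241, 535054992⟩
  | 1 => ⟨658162336, 537697606, 705736837, 574833606⟩
  | 2 => ⟨843304205, 680826692, 890581230, 717962934⟩
  | 3 => ⟨1152643150, 931222950, 1199920492, 968359463⟩
  | _ => ⟨0, 0, 0, 0⟩

def sPL : ℕ → E4 := fun l => match l with
  | 0 => ⟨658162336, 537697606, 705736837, 574833606⟩
  | 1 => ⟨843304205, 680826692, 890581230, 717962934⟩
  | 2 => ⟨1152643150, 931222950, 1199920492, 968359463⟩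
  | 3 => ⟨1620428450, 1318029950, 1667706125, 1355166750⟩
  | _ => ⟨0, 0, 0, 0⟩

def sMF : ℕ → E4 := fun l => match l with
  | 0 => ⟨1962362976, 1687103104, 2117056494, 1811161969⟩
  | 1 => ⟨1632943906, 1440065561, 1736419855, 1525236253⟩
  | 2 => ⟨1599054458, 1371039364, 1671698308, 1430264176⟩
  | 3 => ⟨1792121000, 1494951800, 1846352763, 1538068180⟩
  | _ => ⟨0, 0, 0, 0⟩

def sPF : ℕ → E4 := fun l => match l with
  | 0 => ⟨1545639877, 1352463884, 1658878194, 1443096639⟩
  | 1 => ⟨1382660651, 1191982100, 1470331825, 1261762842⟩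
  | 2 => ⟨1405461787, 1175006844, 1471640049, 1227766069⟩
  | 3 => ⟨1645119200, 1340271150, 1697554005, 1381590571⟩
  | _ => ⟨0, 0, 0, 0⟩

def su : EhN := ⟨kK, tT, slo, shi, slo1, sJ0, sJ1, sF0, sF1, sHm0, sHm1, sHp, stg, sML, sPL, sMF, sPF⟩

def stn : ℕ → ℤ := fun l => match l with
  | 0 => 0
  | 1 => 0
  | 2 => 0
  | 3 => 0
  | 4 => 0
  | 5 => 0
  | _ => 0

noncomputable def sh : Ehk := SC.Fs.xc SCs11.c RecK.rk SKs11.e su

theorem scd : sh.cd.ck q = true := by decide +kernel
theorem sLS : (sh.L true (RTab.rr RT.kSL 11)).ckS q = true := by decide +kernel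
theorem sLT : (sh.L true (RTab.rr RT.kSL 11)).ckT q = true := by decide +kernel
theorem sFS : (sh.F true (RTab.rr RT.kSF 11)).ckS q = true := by decide +kernel
theorem sFT : (sh.F true (RTab.rr RT.kSF 11)).ckT q = true := by decide +kernel
theorem sj : sh.ckJ q.n dj 20360173 24813044 = true := by decide +kernel
theorem sms : sh.msB q.n = true := by decide +kernel
theorem snl : sh.nck true q 20360173 24813044 4286065 stn = true := by decide +kernel

/-- **the checks of the numbers** -/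
theorem sH : HCel sh q true dj 20360173 24813044 (RTab.rr RT.kSL 11) (RTab.rr RT.kSF 11) 11 :=
  ⟨⟨qo, scd, rfl, rfl, rfl, sLS, sLT, sFS, sFT⟩, Ehk.msB_of sms, sj, fun h => absurd h (by decide)⟩

end Pool.Agent.RZ.RCO.ECs11
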