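import Pool.Agent.RZ.RCO.EdG
import Pool.Agent.RZ.RCO.EdM
import Pool.Agent.RZ.RCO.SKs12

/-! Generated: the end of the big cell 12, star (MP_73ccd0_lc). -/

set_option autoImplicit false
set_option maxRecDepth 100000

open Pool.Agent.RZ.RCO

namespace Pool.Agent.RZ.RCO.ECs12

def qA : ℕ → ℤ := fun l => match l with
  | 0 => 0
  | 1 => 3607104
  | 2 => 7214208
  | 3 => 10821312
  | 4 => 14428416
  | _ => 0

def q : Ec0 := ⟨4, 14428416, 601184, qA, 0⟩

def djH : ℕ → ℕ := fun l => match l with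
  | 0 => 601184
  | 1 => 601184
  | 2 => 601184
  | 3 => 601184
  | 4 => 601184
  | 5 => 601184
  | 6 => 601184
  | 7 => 601184
  | 8 => 601184
  | 9 => 601184
  | 10 => 601184
  | 11 => 601184
  | 12 => 601184
  | 13 => 601184
  | 14 => 601184
  | 15 => 601184
  | 16 => 601184
  | 17 => 601184
  | 18 => 601184
  | 19 => 601184
  | 20 => 601184
  | 21 => 601184
  | 22 => 601184
  | 23 => 601184
  | _ => 0

def djR : ℕ → ℕ := fun l => match l with
  | 0 => 16777216
  | 1 => 16777216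
  | 2 => 16777216
  | 3 => 16777216
  | 4 => 16777216
  | 5 => 16777216
  | 6 => 16777216
  | 7 => 16777216
  | 8 => 16819818
  | 9 => 16975911
  | 10 => 17106712
  | 11 => 17216166
  | 12 => 17308050
  | 13 => 17386367
  | 14 => 17454984
  | 15 => 17517393
  | 16 => 17577058
  | 17 => 17638650
  | 18 => 17700297
  | 19 => 17762956
  | 20 => 17826700
  | 21 => 17889833
  | 22 => 17951843
  | 23 => 18011098
  | _ => 0

def djW : ℕ → ℕ := fun l => match l with
  | 0 => 19781971
  | 1 => 19622783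
  | 2 => 19468464
  | 3 => 19318726
  | 4 => 19173301
  | 5 => 19031929
  | 6 => 18894369
  | 7 => 18760387
  | 8 => 18629762
  | 9 => 18502118
  | 10 => 18376684
  | 11 => 18252980
  | 12 => 18131038
  | 13 => 18010848
  | 14 => 17892371
  | 15 => 17775534
  | 16 => 17660245
  | 17 => 17546382
  | 18 => 17433803
  | 19 => 17322358
  | 20 => 17211904
  | 21 => 17102295
  | 22 => 16993393
  | 23 => 16885069
  | _ => 0

def djK : ℕ → ℕ := fun l => match l with
  | 0 => 0
  | 1 => 6
  | 2 => 12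
  | 3 => 18
  | 4 => 24
  | _ => 0

def dj : Dj := ⟨24, djH, djR, djW, 4, djK, 601184⟩

def kK : ℕ → ℕ := fun l => match l with
  | 0 => 0
  | 1 => 6
  | 2 => 12
  | 3 => 18
  | 4 => 24
  | _ => 0

def tT : ℕ → ℤ := fun l => match l with
  | 0 => 0
  | 1 => 601184
  | 2 => 1202368
  | 3 => 1803552
  | 4 => 2404736
  | 5 => 3005920
  | 6 => 3607104
  | 7 => 4208288
  | 8 => 4809472
  | 9 => 5410656
  | 10 => 6011840
  | 11 => 6613024
  | 12 => 7214208
  | 13 => 7815392
  | 14 => 8416576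
  | 15 => 9017760
  | 16 => 9618944
  | 17 => 10220128
  | 18 => 10821312
  | 19 => 11422496
  | 20 => 12023680
  | 21 => 12624864
  | 22 => 13226048
  | 23 => 13827232
  | 24 => 14428416
  | _ => 0

theorem qo : q.ok = true := by decide +kernel
theorem djo : dj.ok = true := by decide +kernel
theorem djt : dj.tie 1024 SCs12.c.D 624 0 2 3 4 5 3 = true := by decide +kernel
theorem djr : dj.rel q = true := by decide +kernel
theorem rel : q.Rel (RTab.tabq 1) 12 := Ec0.relB_of (by decide +kernel)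

def slo : ℕ → (ℕ → ℤ) := fun l => match l with
  | 0 => v6 8294362 18620260 14864394 (-1704882) (-3808969) 7343820
  | 1 => v6 2482016 6491185 5066075 (-358487) (-304840) 2058381
  | 2 => v6 684881 2210596 1794609 52790 425326 539940
  | 3 => v6 111780 474089 410870 40641 238223 67278
  | _ => fun _ => 0

def shi : ℕ → (ℕ → ℤ) := fun l => match l with
  | 0 => v6 2482016 6491185 5066075 (-289909) 148917 2058381
  | 1 => v6 684881 2210596 1794609 123740 535633 539940
  | 2 => v6 111780 474089 410870 64339 313034 67278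
  | 3 => v6 0 0 0 0 0 0
  | _ => fun _ => 0

def slo1 : ℕ → ℤ := v6 7325638 16598748 13231341 (-1469053) (-3149321) 6462914

def sJ0 : ℕ → ℤ := fun l => match l with
  | 0 => 0
  | 1 => 157037
  | 2 => 350515
  | 3 => 695897
  | 4 => 1730650
  | _ => 0

def sJ1 : ℕ → ℤ := fun l => match l with
  | 0 => 0
  | 1 => 149886
  | 2 => 337878
  | 3 => 608946
  | 4 => 1503983
  | _ => 0

def sF0 : ℕ → ℤ := fun l => match l with
  | 0 => 0
  | 1 => 238517
  | 2 => 494503
  | 3 => 889671
  | 4 => 1964222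
  | _ => 0

def sF1 : ℕ → ℤ := fun l => match l with
  | 0 => 0
  | 1 => 235425
  | 2 => 489038
  | 3 => 812374
  | 4 => 1749190
  | _ => 0

def sHm0 : ℕ → ℤ := fun l => match l with
  | 0 => 14847967
  | 1 => 11299056
  | 2 => 7631597
  | 3 => 3872389
  | _ => 0

def sHm1 : ℕ → ℤ := fun l => match l with
  | 0 => 14246783
  | 1 => 11299056
  | 2 => 7631597
  | 3 => 3872389
  | _ => 0

def sHp : ℕ → ℤ := fun l => match l with
  | 0 => 11240863
  | 1 => 7597577
  | 2 => 3839284
  | 3 => 0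
  | _ => 0

def stg : ℕ → ℕ → ℤ := fun l => match l with
  | 0 => fun i => match i with | 0 => 24 | 1 => 32 | 2 => 28 | 3 => 25 | 4 => 85 | 5 => 85 | 6 => 85 | 7 => 85 | _ => 0
  | 1 => fun i => match i with | 0 => 28 | 1 => 25 | 2 => 9 | 3 => 16 | 4 => 62 | 5 => 64 | 6 => 63 | 7 => 48 | _ => 0
  | 2 => fun i => match i with | 0 => 9 | 1 => 16 | 2 => 0 | 3 => 0 | 4 => 23 | 5 => 24 | 6 => 23 | 7 => 16 | _ => 0
  | 3 => fun i => match i with | 0 => 0 | 1 => 0 | 2 => 0 | 3 => 0 | 4 => 0 | 5 => 0 | 6 => 0 | 7 => 0 | _ => 0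
  | _ => fun _ => 0

def sML : ℕ → E4 := fun l => match l with
  | 0 => ⟨701038649, 596006540, 761643914, 643704748⟩
  | 1 => ⟨786200240, 650665318, 846804720, 698363927⟩
  | 2 => ⟨1017677450, 832765480, 1077360625, 880464380⟩
  | 3 => ⟨1406330300, 1149484200, 1466013842, 1197183413⟩
  | _ => ⟨0, 0, 0, 0⟩

def sPL : ℕ → E4 := fun l => match l with
  | 0 => ⟨786200240, 650665318, 846804720, 698363927⟩
  | 1 => ⟨1017677450, 832765480, 1077360625, 880464380⟩
  | 2 => ⟨1406330300, 1149484200, 1466013842, 1197183413⟩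
  | 3 => ⟨1992994150, 1638804150, 2052678138, 1686503746⟩
  | _ => ⟨0, 0, 0, 0⟩

def sMF : ℕ → E4 := fun l => match l with
  | 0 => ⟨2337880677, 2014732210, 2538917429, 2178088912⟩
  | 1 => ⟨1910642096, 1683949782, 2042195254, 1792680203⟩
  | 2 => ⟨1889983660, 1625271003, 1983025732, 1701037620⟩
  | 3 => ⟨2171254450, 1820405350, 2239926584, 1875799155⟩
  | _ => ⟨0, 0, 0, 0⟩

def sPF : ℕ → E4 := fun l => match l with
  | 0 => ⟨1845277574, 1606062648, 1993941292, 1725775152⟩
  | 1 => ⟨1641214285, 1413433550, 1754404419, 1504261134⟩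
  | 2 => ⟨1690240050, 1422020477, 1775372464, 1490551648⟩
  | 3 => ⟨2025773550, 1668037700, 2092470313, 1721456134⟩
  | _ => ⟨0, 0, 0, 0⟩

def su : EhN := ⟨kK, tT, slo, shi, slo1, sJ0, sJ1, sF0, sF1, sHm0, sHm1, sHp, stg, sML, sPL, sMF, sPF⟩

def stn : ℕ → ℤ := fun l => match l with
  | 0 => 0
  | 1 => 0
  | 2 => 0
  | 3 => 0
  | 4 => 0
  | 5 => 0
  | _ => 0

noncomputable def sh : Ehk := SC.Fs.xc SCs12.c RecK.rk SKs12.e su

theorem scd : sh.cd.ck q = true := by decide +kernel
theorem sLS : (sh.L true (RTab.rr RT.kSL 12)).ckS q = true := by decide +kernel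
theorem sLT : (sh.L true (RTab.rr RT.kSL 12)).ckT q = true := by decide +kernel
theorem sFS : (sh.F true (RTab.rr RT.kSF 12)).ckS q = true := by decide +kernel
theorem sFT : (sh.F true (RTab.rr RT.kSF 12)).ckT q = true := by decide +kernel
theorem sj : sh.ckJ q.n dj 24089734 29461749 = true := by decide +kernel
theorem sms : sh.msB q.n = true := by decide +kernel
theorem snl : sh.nck true q 24089734 29461749 5143712 stn = true := by decide +kernel

/-- **the checks of the numbers** -/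
theorem sH : HCel sh q true dj 24089734 29461749 (RTab.rr RT.kSL 12) (RTab.rr RT.kSF 12) 12 :=
  ⟨⟨qo, scd, rfl, rfl, rfl, sLS, sLT, sFS, sFT⟩, Ehk.msB_of sms, sj, fun h => absurd h (by decide)⟩

end Pool.Agent.RZ.RCO.ECs12
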