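import Pool.Agent.RZ.RCO.EdG
import Pool.Agent.RZ.RCO.EdM
import Pool.Agent.RZ.RCO.SKs13

/-! Generated: the end of the big cell 13, star (MP_73ccd0_lc). -/

set_option autoImplicit false
set_option maxRecDepth 100000

open Pool.Agent.RZ.RCO

namespace Pool.Agent.RZ.RCO.ECs13

def qA : ℕ → ℤ := fun l => match l with
  | 0 => 0
  | 1 => 3732928
  | 2 => 7465856
  | 3 => 11198800
  | 4 => 14931728
  | _ => 0

def q : Ec0 := ⟨4, 14931728, 622155, qA, 0⟩

def djH : ℕ → ℕ := fun l => match l with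
  | 0 => 622155
  | 1 => 622154
  | 2 => 622155
  | 3 => 622155
  | 4 => 622154
  | 5 => 622155
  | 6 => 622155
  | 7 => 622154
  | 8 => 622155
  | 9 => 622155
  | 10 => 622154
  | 11 => 622155
  | 12 => 622157
  | 13 => 622158
  | 14 => 622157
  | 15 => 622157
  | 16 => 622158
  | 17 => 622157
  | 18 => 622155
  | 19 => 622154
  | 20 => 622155
  | 21 => 622155
  | 22 => 622154
  | 23 => 622155
  | _ => 0

def djR : ℕ → ℕ := fun l => match l with
  | 0 => 16777216
  | 1 => 16777216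
  | 2 => 16777216
  | 3 => 16777216
  | 4 => 16777216
  | 5 => 16777216
  | 6 => 16777216
  | 7 => 16777216
  | 8 => 16871940
  | 9 => 17024548
  | 10 => 17151304
  | 11 => 17256742
  | 12 => 17345153
  | 13 => 17420952
  | 14 => 17488262
  | 15 => 17550646
  | 16 => 17613390
  | 17 => 17677201
  | 18 => 17741735
  | 19 => 17807361
  | 20 => 17873030
  | 21 => 17937539
  | 22 => 17999267
  | 23 => 18057890
  | _ => 0

def djW : ℕ → ℕ := fun l => match l with
  | 0 => 19929705
  | 1 => 19760244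
  | 2 => 19596279
  | 3 => 19437480
  | 4 => 19283533
  | 5 => 19134142
  | 6 => 18989027
  | 7 => 18847920
  | 8 => 18710567
  | 9 => 18576349
  | 10 => 18444459
  | 11 => 18314608
  | 12 => 18186811
  | 13 => 18061042
  | 14 => 17937237
  | 15 => 17815300
  | 16 => 17695110
  | 17 => 17576512
  | 18 => 17459337
  | 19 => 17343421
  | 20 => 17228597
  | 21 => 17114706
  | 22 => 17001601
  | 23 => 16889143
  | _ => 0

def djK : ℕ → ℕ := fun l => match l with
  | 0 => 0
  | 1 => 6
  | 2 => 12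
  | 3 => 18
  | 4 => 24
  | _ => 0

def dj : Dj := ⟨24, djH, djR, djW, 4, djK, 622155⟩

def kK : ℕ → ℕ := fun l => match l with
  | 0 => 0
  | 1 => 6
  | 2 => 12
  | 3 => 18
  | 4 => 24
  | _ => 0

def tT : ℕ → ℤ := fun l => match l with
  | 0 => 0
  | 1 => 622155
  | 2 => 1244309
  | 3 => 1866464
  | 4 => 2488619
  | 5 => 3110773
  | 6 => 3732928
  | 7 => 4355083
  | 8 => 4977237
  | 9 => 5599392
  | 10 => 6221547
  | 11 => 6843701
  | 12 => 7465856
  | 13 => 8088013
  | 14 => 8710171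
  | 15 => 9332328
  | 16 => 9954485
  | 17 => 10576643
  | 18 => 11198800
  | 19 => 11820955
  | 20 => 12443109
  | 21 => 13065264
  | 22 => 13687419
  | 23 => 14309573
  | 24 => 14931728
  | _ => 0

theorem qo : q.ok = true := by decide +kernel
theorem djo : dj.ok = true := by decide +kernel
theorem djt : dj.tie 1024 SCs13.c.D 624 0 2 3 4 5 3 = true := by decide +kernel
theorem djr : dj.rel q = true := by decide +kernel
theorem rel : q.Rel (RTab.tabq 1) 13 := Ec0.relB_of (by decide +kernel)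

def slo : ℕ → (ℕ → ℤ) := fun l => match l with
  | 0 => v6 10132523 22336313 17987625 (-1907206) (-4614210) 9117404
  | 1 => v6 2830828 7288874 5668363 (-364115) (-422713) 2372622
  | 2 => v6 761067 2421491 1951325 69942 465549 608533
  | 3 => v6 122080 512828 441926 47089 266137 75208
  | _ => fun _ => 0

def shi : ℕ → (ℕ → ℤ) := fun l => match l with
  | 0 => v6 2830828 7288874 5668363 (-271813) 159420 2372622
  | 1 => v6 761067 2421491 1951325 156670 588902 608533
  | 2 => v6 122080 512828 441926 71649 353799 75208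
  | 3 => v6 0 0 0 0 0 0
  | _ => fun _ => 0

def slo1 : ℕ → ℤ := v6 8915574 19828406 15934414 (-1634640) (-3818604) 7993274

def sJ0 : ℕ → ℤ := fun l => match l with
  | 0 => 0
  | 1 => 227578
  | 2 => 478994
  | 3 => 947324
  | 4 => 2170791
  | _ => 0

def sJ1 : ℕ → ℤ := fun l => match l with
  | 0 => 0
  | 1 => 223209
  | 2 => 471309
  | 3 => 840657
  | 4 => 1919702
  | _ => 0

def sF0 : ℕ → ℤ := fun l => match l with
  | 0 => 0
  | 1 => 328904
  | 2 => 658184
  | 3 => 1185851
  | 4 => 2456307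
  | _ => 0

def sF1 : ℕ → ℤ := fun l => match l with
  | 0 => 0
  | 1 => 329837
  | 2 => 659931
  | 3 => 1091722
  | 4 => 2220215
  | _ => 0

def sHm0 : ℕ → ℤ := fun l => match l with
  | 0 => 15390876
  | 1 => 11720304
  | 2 => 7916564
  | 3 => 4017878
  | _ => 0

def sHm1 : ℕ → ℤ := fun l => match l with
  | 0 => 14768721
  | 1 => 11720304
  | 2 => 7916564
  | 3 => 4017878
  | _ => 0

def sHp : ℕ → ℤ := fun l => match l with
  | 0 => 11657948
  | 1 => 7880681
  | 2 => 3983372
  | 3 => 0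
  | _ => 0

def stg : ℕ → ℕ → ℤ := fun l => match l with
  | 0 => fun i => match i with | 0 => 39 | 1 => 40 | 2 => 43 | 3 => 32 | 4 => 85 | 5 => 85 | 6 => 85 | 7 => 85 | _ => 0
  | 1 => fun i => match i with | 0 => 43 | 1 => 32 | 2 => 19 | 3 => 23 | 4 => 83 | 5 => 75 | 6 => 66 | 7 => 65 | _ => 0
  | 2 => fun i => match i with | 0 => 19 | 1 => 23 | 2 => 2 | 3 => 8 | 4 => 47 | 5 => 32 | 6 => 25 | 7 => 32 | _ => 0
  | 3 => fun i => match i with | 0 => 2 | 1 => 8 | 2 => 0 | 3 => 0 | 4 => 0 | 5 => 0 | 6 => 0 | 7 => 0 | _ => 0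
  | _ => fun _ => 0

def sML : ℕ → E4 := fun l => match l with
  | 0 => ⟨821173416, 686695597, 896310074, 744506284⟩
  | 1 => ⟨927523893, 754258778, 1002660991, 812069908⟩
  | 2 => ⟨1212406007, 973283082, 1286152873, 1031094557⟩
  | 3 => ⟨1692854991, 1355164870, 1766577225, 1412976733⟩
  | _ => ⟨0, 0, 0, 0⟩

def sPL : ℕ → E4 := fun l => match l with
  | 0 => ⟨927523893, 754258778, 1002660991, 812069908⟩
  | 1 => ⟨1212406007, 973283082, 1286152873, 1031094557⟩
  | 2 => ⟨1692854991, 1355164870, 1766577225, 1412976733⟩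
  | 3 => ⟨2415874050, 1944795900, 2489596821, 2002608200⟩
  | _ => ⟨0, 0, 0, 0⟩

def sMF : ℕ → E4 := fun l => match l with
  | 0 => ⟨2785930189, 2347842865, 3043958714, 2552968488⟩
  | 1 => ⟨2223602829, 1918472136, 2387664157, 2053236485⟩
  | 2 => ⟨2215980945, 1867016491, 2332164495, 1959121520⟩
  | 3 => ⟨2603463142, 2132668600, 2688618096, 2199987984⟩
  | _ => ⟨0, 0, 0, 0⟩

def sPF : ℕ → E4 := fun l => match l with
  | 0 => ⟨2207785499, 1868843149, 2400774423, 2019769107⟩
  | 1 => ⟨1933395215, 1629577768, 2076563249, 1741940427⟩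
  | 2 => ⟨2011056646, 1657902457, 2118973889, 1742054724⟩
  | 3 => ⟨2459791838, 1982095350, 2542810009, 2047277950⟩
  | _ => ⟨0, 0, 0, 0⟩

def su : EhN := ⟨kK, tT, slo, shi, slo1, sJ0, sJ1, sF0, sF1, sHm0, sHm1, sHp, stg, sML, sPL, sMF, sPF⟩

def stn : ℕ → ℤ := fun l => match l with
  | 0 => 0
  | 1 => 0
  | 2 => 0
  | 3 => 0
  | 4 => 0
  | 5 => 0
  | _ => 0

noncomputable def sh : Ehk := SC.Fs.xc SCs13.c RecK.rk SKs13.e su

theorem scd : sh.cd.ck q = true := by decide +kernel
theorem sLS : (sh.L true (RTab.rr RT.kSL 13)).ckS q = true := by decide +kernel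
theorem sLT : (sh.L true (RTab.rr RT.kSL 13)).ckT q = true := by decide +kernel
theorem sFS : (sh.F true (RTab.rr RT.kSF 13)).ckS q = true := by decide +kernel
theorem sFT : (sh.F true (RTab.rr RT.kSF 13)).ckT q = true := by decide +kernel
theorem sj : sh.ckJ q.n dj 28192142 34567492 = true := by decide +kernel
theorem sms : sh.msB q.n = true := by decide +kernel
theorem snl : sh.nck true q 28192142 34567492 6069908 stn = true := by decide +kernel

/-- **the checks of the numbers** -/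
theorem sH : HCel sh q true dj 28192142 34567492 (RTab.rr RT.kSL 13) (RTab.rr RT.kSF 13) 13 :=
  ⟨⟨qo, scd, rfl, rfl, rfl, sLS, sLT, sFS, sFT⟩, Ehk.msB_of sms, sj, fun h => absurd h (by decide)⟩

end Pool.Agent.RZ.RCO.ECs13
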