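import Pool.Agent.RZ.RCO.EdG
import Pool.Agent.RZ.RCO.EdM
import Pool.Agent.RZ.RCO.SKs14

/-! Generated: the end of the big cell 14, star (MP_73ccd0_lc). -/

set_option autoImplicit false
set_option maxRecDepth 100000

open Pool.Agent.RZ.RCO

namespace Pool.Agent.RZ.RCO.ECs14

def qA : ℕ → ℤ := fun l => match l with
  | 0 => 0
  | 1 => 3837792
  | 2 => 7675584
  | 3 => 11513376
  | 4 => 15351168
  | _ => 0

def q : Ec0 := ⟨4, 15351168, 639632, qA, 0⟩

def djH : ℕ → ℕ := fun l => match l with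
  | 0 => 639632
  | 1 => 639632
  | 2 => 639632
  | 3 => 639632
  | 4 => 639632
  | 5 => 639632
  | 6 => 639632
  | 7 => 639632
  | 8 => 639632
  | 9 => 639632
  | 10 => 639632
  | 11 => 639632
  | 12 => 639632
  | 13 => 639632
  | 14 => 639632
  | 15 => 639632
  | 16 => 639632
  | 17 => 639632
  | 18 => 639632
  | 19 => 639632
  | 20 => 639632
  | 21 => 639632
  | 22 => 639632
  | 23 => 639632
  | _ => 0

def djR : ℕ → ℕ := fun l => match l with
  | 0 => 16777216
  | 1 => 16777216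
  | 2 => 16777216
  | 3 => 16777216
  | 4 => 16777216
  | 5 => 16777216
  | 6 => 16777216
  | 7 => 16777216
  | 8 => 16913331
  | 9 => 17062845
  | 10 => 17186179
  | 11 => 17288384
  | 12 => 17374175
  | 13 => 17448284
  | 14 => 17514995
  | 15 => 17578482
  | 16 => 17643992
  | 17 => 17709714
  | 18 => 17776542
  | 19 => 17844620
  | 20 => 17911432
  | 21 => 17976432
  | 22 => 18038331
  | 23 => 18097224
  | _ => 0

def djW : ℕ → ℕ := fun l => match l with
  | 0 => 20056413
  | 1 => 19877934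
  | 2 => 19705527
  | 3 => 19538818
  | 4 => 19377452
  | 5 => 19221099
  | 6 => 19069440
  | 7 => 18922179
  | 8 => 18779028
  | 9 => 18639156
  | 10 => 18501733
  | 11 => 18366629
  | 12 => 18233844
  | 13 => 18103333
  | 14 => 17975010
  | 15 => 17848757
  | 16 => 17724421
  | 17 => 17601821
  | 18 => 17480770
  | 19 => 17361085
  | 20 => 17242585
  | 21 => 17125101
  | 22 => 17008473
  | 23 => 16892554
  | _ => 0

def djK : ℕ → ℕ := fun l => match l with
  | 0 => 0
  | 1 => 6
  | 2 => 12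
  | 3 => 18
  | 4 => 24
  | _ => 0

def dj : Dj := ⟨24, djH, djR, djW, 4, djK, 639632⟩

def kK : ℕ → ℕ := fun l => match l with
  | 0 => 0
  | 1 => 6
  | 2 => 12
  | 3 => 18
  | 4 => 24
  | _ => 0

def tT : ℕ → ℤ := fun l => match l with
  | 0 => 0
  | 1 => 639632
  | 2 => 1279264
  | 3 => 1918896
  | 4 => 2558528
  | 5 => 3198160
  | 6 => 3837792
  | 7 => 4477424
  | 8 => 5117056
  | 9 => 5756688
  | 10 => 6396320
  | 11 => 7035952
  | 12 => 7675584
  | 13 => 8315216
  | 14 => 8954848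
  | 15 => 9594480
  | 16 => 10234112
  | 17 => 10873744
  | 18 => 11513376
  | 19 => 12153008
  | 20 => 12792640
  | 21 => 13432272
  | 22 => 14071904
  | 23 => 14711536
  | 24 => 15351168
  | _ => 0

theorem qo : q.ok = true := by decide +kernel
theorem djo : dj.ok = true := by decide +kernel
theorem djt : dj.tie 1024 SCs14.c.D 624 0 2 3 4 5 3 = true := by decide +kernel
theorem djr : dj.rel q = true := by decide +kernel
theorem rel : q.Rel (RTab.tabq 1) 14 := Ec0.relB_of (by decide +kernel)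

def slo : ℕ → (ℕ → ℤ) := fun l => match l with
  | 0 => v6 12121230 26317438 21379013 (-2099146) (-5408516) 11062477
  | 1 => v6 3158291 8029404 6231953 (-366015) (-537608) 2670044
  | 2 => v6 829777 2609336 2090080 86491 500659 670676
  | 3 => v6 131161 546624 468816 53030 291111 82317
  | _ => fun _ => 0

def shi : ℕ → (ℕ → ℤ) := fun l => match l with
  | 0 => v6 3158291 8029404 6231953 (-242474) 181690 2670044
  | 1 => v6 829777 2609336 2090080 188116 637358 670676
  | 2 => v6 131161 546624 468816 78285 390933 82317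
  | 3 => v6 0 0 0 0 0 0
  | _ => fun _ => 0

def slo1 : ℕ → ℤ := v6 10627407 23269433 18854503 (-1789700) (-4476815) 9663739

def sJ0 : ℕ → ℤ := fun l => match l with
  | 0 => 0
  | 1 => 304295
  | 2 => 616708
  | 3 => 1206311
  | 4 => 2598372
  | _ => 0

def sJ1 : ℕ → ℤ := fun l => match l with
  | 0 => 0
  | 1 => 303449
  | 2 => 615227
  | 3 => 1087595
  | 4 => 2331898
  | _ => 0

def sF0 : ℕ → ℤ := fun l => match l with
  | 0 => 0
  | 1 => 436277
  | 2 => 872553
  | 3 => 1543743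
  | 4 => 2990233
  | _ => 0

def sF1 : ℕ → ℤ := fun l => match l with
  | 0 => 0
  | 1 => 442622
  | 2 => 885244
  | 3 => 1451998
  | 4 => 2753696
  | _ => 0

def sHm0 : ℕ → ℤ := fun l => match l with
  | 0 => 15844106
  | 1 => 12072085
  | 2 => 8155056
  | 3 => 4139745
  | _ => 0

def sHm1 : ℕ → ℤ := fun l => match l with
  | 0 => 15204474
  | 1 => 12072085
  | 2 => 8155056
  | 3 => 4139745
  | _ => 0

def sHp : ℕ → ℤ := fun l => match l with
  | 0 => 12006314
  | 1 => 8117363
  | 2 => 4103954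
  | 3 => 0
  | _ => 0

def stg : ℕ → ℕ → ℤ := fun l => match l with
  | 0 => fun i => match i with | 0 => 46 | 1 => 46 | 2 => 46 | 3 => 41 | 4 => 85 | 5 => 85 | 6 => 85 | 7 => 85 | _ => 0
  | 1 => fun i => match i with | 0 => 46 | 1 => 41 | 2 => 23 | 3 => 30 | 4 => 85 | 5 => 85 | 6 => 85 | 7 => 78 | _ => 0
  | 2 => fun i => match i with | 0 => 23 | 1 => 30 | 2 => 11 | 3 => 16 | 4 => 47 | 5 => 42 | 6 => 47 | 7 => 42 | _ => 0
  | 3 => fun i => match i with | 0 => 11 | 1 => 16 | 2 => 0 | 3 => 0 | 4 => 0 | 5 => 0 | 6 => 0 | 7 => 0 | _ => 0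
  | _ => fun _ => 0

def sML : ℕ → E4 := fun l => match l with
  | 0 => ⟨950077805, 777529780, 1041021617, 845849830⟩
  | 1 => ⟨1078659186, 859858978, 1169603497, 928179503⟩
  | 2 => ⟨1422837513, 1117840577, 1513597264, 1186161535⟩
  | 3 => ⟨2006359096, 1569091105, 2095311050, 1637412476⟩
  | _ => ⟨0, 0, 0, 0⟩

def sPL : ℕ → E4 := fun l => match l with
  | 0 => ⟨1078659186, 859858978, 1169603497, 928179503⟩
  | 1 => ⟨1422837513, 1117840577, 1513597264, 1186161535⟩
  | 2 => ⟨2006359096, 1569091105, 2095311050, 1637412476⟩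
  | 3 => ⟨2893247750, 2264730159, 2982200371, 2333052059⟩
  | _ => ⟨0, 0, 0, 0⟩

def sMF : ℕ → E4 := fun l => match l with
  | 0 => ⟨3312086809, 2719187092, 3638392857, 2972030676⟩
  | 1 => ⟨2565181077, 2164129831, 2765407683, 2324720552⟩
  | 2 => ⟨2575751888, 2115470267, 2717119766, 2224742000⟩
  | 3 => ⟨3094473055, 2464277938, 3197696213, 2544082159⟩
  | _ => ⟨0, 0, 0, 0⟩

def sPF : ℕ → E4 := fun l => match l with
  | 0 => ⟨2640428389, 2163424622, 2887620256, 2350339719⟩
  | 1 => ⟨2258548460, 1857783329, 2435497225, 1995096209⟩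
  | 2 => ⟨2365014436, 1906341908, 2497583389, 2007019008⟩
  | 3 => ⟨2953031296, 2315596580, 3053976855, 2393123200⟩
  | _ => ⟨0, 0, 0, 0⟩

def su : EhN := ⟨kK, tT, slo, shi, slo1, sJ0, sJ1, sF0, sF1, sHm0, sHm1, sHp, stg, sML, sPL, sMF, sPF⟩

def stn : ℕ → ℤ := fun l => match l with
  | 0 => 0
  | 1 => 0
  | 2 => 0
  | 3 => 0
  | 4 => 0
  | 5 => 0
  | _ => 0

noncomputable def sh : Ehk := SC.Fs.xc SCs14.c RecK.rk SKs14.e su

theorem scd : sh.cd.ck q = true := by decide +kernel
theorem sLS : (sh.L true (RTab.rr RT.kSL 14)).ckS q = true := by decide +kernel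
theorem sLT : (sh.L true (RTab.rr RT.kSL 14)).ckT q = true := by decide +kernel
theorem sFS : (sh.F true (RTab.rr RT.kSF 14)).ckS q = true := by decide +kernel
theorem sFT : (sh.F true (RTab.rr RT.kSF 14)).ckT q = true := by decide +kernel
theorem sj : sh.ckJ q.n dj 32578249 40005916 = true := by decide +kernel
theorem sms : sh.msB q.n = true := by decide +kernel
theorem snl : sh.nck true q 32578249 40005916 7028590 stn = true := by decide +kernel

/-- **the checks of the numbers** -/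
theorem sH : HCel sh q true dj 32578249 40005916 (RTab.rr RT.kSL 14) (RTab.rr RT.kSF 14) 14 :=
  ⟨⟨qo, scd, rfl, rfl, rfl, sLS, sLT, sFS, sFT⟩, Ehk.msB_of sms, sj, fun h => absurd h (by decide)⟩

end Pool.Agent.RZ.RCO.ECs14
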