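import Pool.Agent.RZ.RCO.EdG
import Pool.Agent.RZ.RCO.EdM
import Pool.Agent.RZ.RCO.SKs15

/-! Generated: the end of the big cell 15, star (MP_73ccd0_lc). -/

set_option autoImplicit false
set_option maxRecDepth 100000

open Pool.Agent.RZ.RCO

namespace Pool.Agent.RZ.RCO.ECs15

def qA : ℕ → ℤ := fun l => match l with
  | 0 => 0
  | 1 => 3930064
  | 2 => 7860128
  | 3 => 11790192
  | 4 => 15720256
  | _ => 0

def q : Ec0 := ⟨4, 15720256, 655011, qA, 0⟩

def djH : ℕ → ℕ := fun l => match l with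
  | 0 => 655011
  | 1 => 655010
  | 2 => 655011
  | 3 => 655011
  | 4 => 655010
  | 5 => 655011
  | 6 => 655011
  | 7 => 655010
  | 8 => 655011
  | 9 => 655011
  | 10 => 655010
  | 11 => 655011
  | 12 => 655011
  | 13 => 655010
  | 14 => 655011
  | 15 => 655011
  | 16 => 655010
  | 17 => 655011
  | 18 => 655011
  | 19 => 655010
  | 20 => 655011
  | 21 => 655011
  | 22 => 655010
  | 23 => 655011
  | _ => 0

def djR : ℕ → ℕ := fun l => match l with
  | 0 => 16777216
  | 1 => 16777216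
  | 2 => 16777216
  | 3 => 16777216
  | 4 => 16777216
  | 5 => 16777216
  | 6 => 16777216
  | 7 => 16777366
  | 8 => 16948306
  | 9 => 17094922
  | 10 => 17215254
  | 11 => 17314735
  | 12 => 17398463
  | 13 => 17471415
  | 14 => 17537970
  | 15 => 17603506
  | 16 => 17670653
  | 17 => 17738522
  | 18 => 17807641
  | 19 => 17876775
  | 20 => 17944518
  | 21 => 18009092
  | 22 => 18070379
  | 23 => 18132612
  | _ => 0

def djW : ℕ → ℕ := fun l => match l with
  | 0 => 20170702
  | 1 => 19983928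
  | 2 => 19803773
  | 3 => 19629820
  | 4 => 19461677
  | 5 => 19298975
  | 6 => 19141366
  | 7 => 18988521
  | 8 => 18840118
  | 9 => 18695137
  | 10 => 18552725
  | 11 => 18412897
  | 12 => 18275637
  | 13 => 18140881
  | 14 => 18008520
  | 15 => 17878413
  | 16 => 17750380
  | 17 => 17624217
  | 18 => 17499719
  | 19 => 17376688
  | 20 => 17254929
  | 21 => 17134265
  | 22 => 17014529
  | 23 => 16895564
  | _ => 0

def djK : ℕ → ℕ := fun l => match l with
  | 0 => 0
  | 1 => 6
  | 2 => 12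
  | 3 => 18
  | 4 => 24
  | _ => 0

def dj : Dj := ⟨24, djH, djR, djW, 4, djK, 655011⟩

def kK : ℕ → ℕ := fun l => match l with
  | 0 => 0
  | 1 => 6
  | 2 => 12
  | 3 => 18
  | 4 => 24
  | _ => 0

def tT : ℕ → ℤ := fun l => match l with
  | 0 => 0
  | 1 => 655011
  | 2 => 1310021
  | 3 => 1965032
  | 4 => 2620043
  | 5 => 3275053
  | 6 => 3930064
  | 7 => 4585075
  | 8 => 5240085
  | 9 => 5895096
  | 10 => 6550107
  | 11 => 7205117
  | 12 => 7860128
  | 13 => 8515139
  | 14 => 9170149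
  | 15 => 9825160
  | 16 => 10480171
  | 17 => 11135181
  | 18 => 11790192
  | 19 => 12445203
  | 20 => 13100213
  | 21 => 13755224
  | 22 => 14410235
  | 23 => 15065245
  | 24 => 15720256
  | _ => 0

theorem qo : q.ok = true := by decide +kernel
theorem djo : dj.ok = true := by decide +kernel
theorem djt : dj.tie 1024 SCs15.c.D 624 0 2 3 4 5 3 = true := by decide +kernel
theorem djr : dj.rel q = true := by decide +kernel
theorem rel : q.Rel (RTab.tabq 1) 15 := Ec0.relB_of (by decide +kernel)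

def slo : ℕ → (ℕ → ℤ) := fun l => match l with
  | 0 => v6 14379291 30812090 25252024 (-2288668) (-6220140) 13299026
  | 1 => v6 3477980 8745535 6779953 (-365066) (-654037) 2963314
  | 2 => v6 894425 2784211 2218625 102829 532973 729322
  | 3 => v6 139530 577475 493212 58680 314293 88950
  | _ => fun _ => 0

def shi : ℕ → (ℕ → ℤ) := fun l => match l with
  | 0 => v6 3477980 8745535 6779953 (-202788) 215453 2963314
  | 1 => v6 894425 2784211 2218625 218648 684582 729322
  | 2 => v6 139530 577475 493212 84483 426049 88950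
  | 3 => v6 0 0 0 0 0 0
  | _ => fun _ => 0

def slo1 : ℕ → ℤ := v6 12562405 27134329 22173344 (-1941021) (-5147540) 11576407

def sJ0 : ℕ → ℤ := fun l => match l with
  | 0 => 0
  | 1 => 401410
  | 2 => 802820
  | 3 => 1528912
  | 4 => 3080338
  | _ => 0

def sJ1 : ℕ → ℤ := fun l => match l with
  | 0 => 0
  | 1 => 405581
  | 2 => 811161
  | 3 => 1404729
  | 4 => 2806108
  | _ => 0

def sF0 : ℕ → ℤ := fun l => match l with
  | 0 => 0
  | 1 => 559803
  | 2 => 1119605
  | 3 => 1938338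
  | 4 => 3552287
  | _ => 0

def sF1 : ℕ → ℤ := fun l => match l with
  | 0 => 0
  | 1 => 572912
  | 2 => 1145823
  | 3 => 1856606
  | 4 => 3324037
  | _ => 0

def sHm0 : ℕ → ℤ := fun l => match l with
  | 0 => 16243394
  | 1 => 12382067
  | 2 => 8365545
  | 3 => 4247566
  | _ => 0

def sHm1 : ℕ → ℤ := fun l => match l with
  | 0 => 15588383
  | 1 => 12382067
  | 2 => 8365545
  | 3 => 4247566
  | _ => 0

def sHp : ℕ → ℤ := fun l => match l with
  | 0 => 12313330
  | 1 => 8326089
  | 2 => 4210295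
  | 3 => 0
  | _ => 0

def stg : ℕ → ℕ → ℤ := fun l => match l with
  | 0 => fun i => match i with | 0 => 46 | 1 => 48 | 2 => 47 | 3 => 46 | 4 => 85 | 5 => 85 | 6 => 85 | 7 => 85 | _ => 0
  | 1 => fun i => match i with | 0 => 47 | 1 => 46 | 2 => 25 | 3 => 40 | 4 => 85 | 5 => 85 | 6 => 85 | 7 => 85 | _ => 0
  | 2 => fun i => match i with | 0 => 25 | 1 => 40 | 2 => 24 | 3 => 21 | 4 => 61 | 5 => 56 | 6 => 48 | 7 => 48 | _ => 0
  | 3 => fun i => match i with | 0 => 24 | 1 => 21 | 2 => 0 | 3 => 0 | 4 => 0 | 5 => 0 | 6 => 0 | 7 => 0 | _ => 0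
  | _ => fun _ => 0

def sML : ℕ → E4 := fun l => match l with
  | 0 => ⟨1096673969, 871338057, 1205664612, 951033524⟩
  | 1 => ⟨1252424280, 971492725, 1361415538, 1051188725⟩
  | 2 => ⟨1666736503, 1276584171, 1775579283, 1356280675⟩
  | 3 => ⟨2372571274, 1804379067, 2481324633, 1884076055⟩
  | _ => ⟨0, 0, 0, 0⟩

def sPL : ℕ → E4 := fun l => match l with
  | 0 => ⟨1252424280, 971492725, 1361415538, 1051188725⟩
  | 1 => ⟨1666736503, 1276584171, 1775579283, 1356280675⟩
  | 2 => ⟨2372571274, 1804379067, 2481324633, 1884076055⟩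
  | 3 => ⟨3456103025, 2624951105, 3562399717, 2704648692⟩
  | _ => ⟨0, 0, 0, 0⟩

def sMF : ℕ → E4 := fun l => match l with
  | 0 => ⟨3980471482, 3160296402, 4394612770, 3470808440⟩
  | 1 => ⟨2958479661, 2430941764, 3201075135, 2620113516⟩
  | 2 => ⟨2988344827, 2386708549, 3158938628, 2514785682⟩
  | 3 => ⟨3672413896, 2834643980, 3796479663, 2928073205⟩
  | _ => ⟨0, 0, 0, 0⟩

def sPF : ℕ → E4 := fun l => match l with
  | 0 => ⟨3200851500, 2515933621, 3519460021, 2746835027⟩
  | 1 => ⟨2638384474, 2111502026, 2855365405, 2275059236⟩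
  | 2 => ⟨2779479830, 2172088041, 2940656546, 2290970441⟩
  | 3 => ⟨3533512046, 2688416230, 3655171667, 2779439309⟩
  | _ => ⟨0, 0, 0, 0⟩

def su : EhN := ⟨kK, tT, slo, shi, slo1, sJ0, sJ1, sF0, sF1, sHm0, sHm1, sHp, stg, sML, sPL, sMF, sPF⟩

def stn : ℕ → ℤ := fun l => match l with
  | 0 => 0
  | 1 => 0
  | 2 => 0
  | 3 => 0
  | 4 => 0
  | 5 => 0
  | _ => 0

noncomputable def sh : Ehk := SC.Fs.xc SCs15.c RecK.rk SKs15.e su

theorem scd : sh.cd.ck q = true := by decide +kernel
theorem sLS : (sh.L true (RTab.rr RT.kSL 15)).ckS q = true := by decide +kernel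
theorem sLT : (sh.L true (RTab.rr RT.kSL 15)).ckT q = true := by decide +kernel
theorem sFS : (sh.F true (RTab.rr RT.kSF 15)).ckS q = true := by decide +kernel
theorem sFT : (sh.F true (RTab.rr RT.kSF 15)).ckT q = true := by decide +kernel
theorem sj : sh.ckJ q.n dj 37560132 46145240 = true := by decide +kernel
theorem sms : sh.msB q.n = true := by decide +kernel
theorem snl : sh.nck true q 37560132 46145240 8064829 stn = true := by decide +kernel

/-- **the checks of the numbers** -/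
theorem sH : HCel sh q true dj 37560132 46145240 (RTab.rr RT.kSL 15) (RTab.rr RT.kSF 15) 15 :=
  ⟨⟨qo, scd, rfl, rfl, rfl, sLS, sLT, sFS, sFT⟩, Ehk.msB_of sms, sj, fun h => absurd h (by decide)⟩

end Pool.Agent.RZ.RCO.ECs15
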