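import Pool.Agent.RZ.RCO.SASLL
import Pool.Agent.RZ.RCO.SAsdE_1

/-! Tables (MP_73ccd0_lc). -/

set_option autoImplicit false
set_option maxRecDepth 100000

open Pool.Agent.RZ.RCO Pool.Agent.RZ.RCO.Sg

namespace Pool.Agent.RZ.RCO.SAs16

theorem dSASL_0 : stepc SASL.f0 624 1248 D 0 24 = true := by decide +kernel
theorem dSASL_1 : stepc SASL.f1 624 1248 D 0 24 = true := by decide +kernel

theorem rowsSASL : ∀ j < 24, (SAs.sheet).At D 624 j := SASL.lay.at fun a ha => by
  simp only [SASL.L, List.mem_cons, List.not_mem_nil, or_false] at ha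
  rcases ha with rfl | rfl
  exacts [dSASL_0, dSASL_1]

end Pool.Agent.RZ.RCO.SAs16

namespace Pool.Agent.RZ.RCO.SAs17

theorem dSASL_0 : stepc SASL.f0 624 1248 D 0 24 = true := by decide +kernel
theorem dSASL_1 : stepc SASL.f1 624 1248 D 0 24 = true := by decide +kernel

theorem rowsSASL : ∀ j < 24, (SAs.sheet).At D 624 j := SASL.lay.at fun a ha => by
  simp only [SASL.L, List.mem_cons, List.not_mem_nil, or_false] at ha
  rcases ha with rfl | rfl
  exacts [dSASL_0, dSASL_1]

end Pool.Agent.RZ.RCO.SAs17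

namespace Pool.Agent.RZ.RCO.SAs18

theorem dSASL_0 : stepc SASL.f0 624 1248 D 0 24 = true := by decide +kernel
theorem dSASL_1 : stepc SASL.f1 624 1248 D 0 24 = true := by decide +kernel

theorem rowsSASL : ∀ j < 24, (SAs.sheet).At D 624 j := SASL.lay.at fun a ha => by
  simp only [SASL.L, List.mem_cons, List.not_mem_nil, or_false] at ha
  rcases ha with rfl | rfl
  exacts [dSASL_0, dSASL_1]

end Pool.Agent.RZ.RCO.SAs18

namespace Pool.Agent.RZ.RCO.SAs19

theorem dSASL_0 : stepc SASL.f0 624 1248 D 0 24 = true := by decide +kernel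
theorem dSASL_1 : stepc SASL.f1 624 1248 D 0 24 = true := by decide +kernel

theorem rowsSASL : ∀ j < 24, (SAs.sheet).At D 624 j := SASL.lay.at fun a ha => by
  simp only [SASL.L, List.mem_cons, List.not_mem_nil, or_false] at ha
  rcases ha with rfl | rfl
  exacts [dSASL_0, dSASL_1]

end Pool.Agent.RZ.RCO.SAs19
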