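import Pool.Agent.RZ.RCO.EdG
import Pool.Agent.RZ.RCO.EdM
import Pool.Agent.RZ.RCO.SKs16

/-! Generated: the end of the big cell 16, star (MP_73ccd0_lc). -/

set_option autoImplicit false
set_option maxRecDepth 100000

open Pool.Agent.RZ.RCO

namespace Pool.Agent.RZ.RCO.ECs16

def qA : ℕ → ℤ := fun l => match l with
  | 0 => 0
  | 1 => 4009760
  | 2 => 8019520
  | 3 => 12029264
  | 4 => 16039024
  | _ => 0

def q : Ec0 := ⟨4, 16039024, 668293, qA, 0⟩

def djH : ℕ → ℕ := fun l => match l with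
  | 0 => 668293
  | 1 => 668294
  | 2 => 668293
  | 3 => 668293
  | 4 => 668294
  | 5 => 668293
  | 6 => 668293
  | 7 => 668294
  | 8 => 668293
  | 9 => 668293
  | 10 => 668294
  | 11 => 668293
  | 12 => 668291
  | 13 => 668290
  | 14 => 668291
  | 15 => 668291
  | 16 => 668290
  | 17 => 668291
  | 18 => 668293
  | 19 => 668294
  | 20 => 668293
  | 21 => 668293
  | 22 => 668294
  | 23 => 668293
  | _ => 0

def djR : ℕ → ℕ := fun l => match l with
  | 0 => 16777216
  | 1 => 16777216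
  | 2 => 16777216
  | 3 => 16777216
  | 4 => 16777216
  | 5 => 16777216
  | 6 => 16777216
  | 7 => 16802821
  | 8 => 16977744
  | 9 => 17121409
  | 10 => 17239228
  | 11 => 17336464
  | 12 => 17418610
  | 13 => 17490819
  | 14 => 17557511
  | 15 => 17625271
  | 16 => 17693934
  | 17 => 17763542
  | 18 => 17834637
  | 19 => 17904619
  | 20 => 17972782
  | 21 => 18037549
  | 22 => 18099070
  | 23 => 18164940
  | _ => 0

def djW : ℕ → ℕ := fun l => match l with
  | 0 => 20271916
  | 1 => 20077683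
  | 2 => 19890575
  | 3 => 19710135
  | 4 => 19535934
  | 5 => 19367570
  | 6 => 19204665
  | 7 => 19046860
  | 8 => 18893689
  | 9 => 18744077
  | 10 => 18597261
  | 11 => 18453273
  | 12 => 18312080
  | 13 => 18173601
  | 14 => 18037705
  | 15 => 17904228
  | 16 => 17772964
  | 17 => 17643690
  | 18 => 17516186
  | 19 => 17390240
  | 20 => 17265649
  | 21 => 17142225
  | 22 => 17019792
  | 23 => 16898180
  | _ => 0

def djK : ℕ → ℕ := fun l => match l with
  | 0 => 0
  | 1 => 6
  | 2 => 12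
  | 3 => 18
  | 4 => 24
  | _ => 0

def dj : Dj := ⟨24, djH, djR, djW, 4, djK, 668293⟩

def kK : ℕ → ℕ := fun l => match l with
  | 0 => 0
  | 1 => 6
  | 2 => 12
  | 3 => 18
  | 4 => 24
  | _ => 0

def tT : ℕ → ℤ := fun l => match l with
  | 0 => 0
  | 1 => 668293
  | 2 => 1336587
  | 3 => 2004880
  | 4 => 2673173
  | 5 => 3341467
  | 6 => 4009760
  | 7 => 4678053
  | 8 => 5346347
  | 9 => 6014640
  | 10 => 6682933
  | 11 => 7351227
  | 12 => 8019520
  | 13 => 8687811
  | 14 => 9356101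
  | 15 => 10024392
  | 16 => 10692683
  | 17 => 11360973
  | 18 => 12029264
  | 19 => 12697557
  | 20 => 13365851
  | 21 => 14034144
  | 22 => 14702437
  | 23 => 15370731
  | 24 => 16039024
  | _ => 0

theorem qo : q.ok = true := by decide +kernel
theorem djo : dj.ok = true := by decide +kernel
theorem djt : dj.tie 1024 SCs16.c.D 624 0 2 3 4 5 3 = true := by decide +kernel
theorem djr : dj.rel q = true := by decide +kernel
theorem rel : q.Rel (RTab.tabq 1) 16 := Ec0.relB_of (by decide +kernel)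

def slo : ℕ → (ℕ → ℤ) := fun l => match l with
  | 0 => v6 16915330 35849195 29631295 (-2473084) (-7020884) 15860820
  | 1 => v6 3781201 9421383 7299619 (-360428) (-767687) 3246986
  | 2 => v6 953655 2943060 2334905 118486 562265 783202
  | 3 => v6 147065 605047 514904 63940 335523 94990
  | _ => fun _ => 0

def shi : ℕ → (ℕ → ℤ) := fun l => match l with
  | 0 => v6 3781201 9421383 7299619 (-152121) 263701 3246986
  | 1 => v6 953655 2943060 2334905 245632 727313 783202
  | 2 => v6 147065 605047 514904 90169 458552 94990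
  | 3 => v6 0 0 0 0 0 0
  | _ => fun _ => 0

def slo1 : ℕ → ℤ := v6 14726310 31444562 25909351 (-2086257) (-5806787) 13758516

def sJ0 : ℕ → ℤ := fun l => match l with
  | 0 => 0
  | 1 => 515739
  | 2 => 1031478
  | 3 => 1895801
  | 4 => 3596933
  | _ => 0

def sJ1 : ℕ → ℤ := fun l => match l with
  | 0 => 0
  | 1 => 526300
  | 2 => 1052599
  | 3 => 1780766
  | 4 => 3330609
  | _ => 0

def sF0 : ℕ → ℤ := fun l => match l with
  | 0 => 0
  | 1 => 700966
  | 2 => 1401931
  | 3 => 2372052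
  | 4 => 4144524
  | _ => 0

def sF1 : ℕ → ℤ := fun l => match l with
  | 0 => 0
  | 1 => 722299
  | 2 => 1444597
  | 3 => 2307218
  | 4 => 3932550
  | _ => 0

def sHm0 : ℕ → ℤ := fun l => match l with
  | 0 => 16589851
  | 1 => 12650354
  | 2 => 8548024
  | 3 => 4341427
  | _ => 0

def sHm1 : ℕ → ℤ := fun l => match l with
  | 0 => 15921558
  | 1 => 12650354
  | 2 => 8548024
  | 3 => 4341427
  | _ => 0

def sHp : ℕ → ℤ := fun l => match l with
  | 0 => 12580091
  | 1 => 8506933
  | 2 => 4302548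
  | 3 => 0
  | _ => 0

def stg : ℕ → ℕ → ℤ := fun l => match l with
  | 0 => fun i => match i with | 0 => 51 | 1 => 56 | 2 => 55 | 3 => 48 | 4 => 85 | 5 => 85 | 6 => 85 | 7 => 85 | _ => 0
  | 1 => fun i => match i with | 0 => 55 | 1 => 48 | 2 => 46 | 3 => 46 | 4 => 85 | 5 => 85 | 6 => 85 | 7 => 85 | _ => 0
  | 2 => fun i => match i with | 0 => 46 | 1 => 46 | 2 => 39 | 3 => 32 | 4 => 79 | 5 => 72 | 6 => 67 | 7 => 62 | _ => 0
  | 3 => fun i => match i with | 0 => 39 | 1 => 32 | 2 => 0 | 3 => 0 | 4 => 0 | 5 => 0 | 6 => 0 | 7 => 0 | _ => 0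
  | _ => fun _ => 0

def sML : ℕ → E4 := fun l => match l with
  | 0 => ⟨1257195316, 971686024, 1386567544, 1063431120⟩
  | 1 => ⟨1448980881, 1087928780, 1578353867, 1179728104⟩
  | 2 => ⟨1947719664, 1446629703, 2077093461, 1538360411⟩
  | 3 => ⟨2801593518, 2059720388, 2930968152, 2151451676⟩
  | _ => ⟨0, 0, 0, 0⟩

def sPL : ℕ → E4 := fun l => match l with
  | 0 => ⟨1448980881, 1087928780, 1578353867, 1179728104⟩
  | 1 => ⟨1947719664, 1446629703, 2077093461, 1538360411⟩
  | 2 => ⟨2801593518, 2059720388, 2930968152, 2151451676⟩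
  | 3 => ⟨4120468559, 3015146259, 4246303709, 3106878234⟩
  | _ => ⟨0, 0, 0, 0⟩

def sMF : ℕ → E4 := fun l => match l with
  | 0 => ⟨4857280469, 3686120754, 5387510971, 4066255791⟩
  | 1 => ⟨3409572787, 2715496849, 3701479296, 2935647156⟩
  | 2 => ⟨3463835641, 2676378430, 3668057899, 2827524082⟩
  | 3 => ⟨4356575671, 3235512896, 4504516913, 3343492467⟩
  | _ => ⟨0, 0, 0, 0⟩

def sPF : ℕ → E4 := fun l => match l with
  | 0 => ⟨3954285532, 2940532908, 4370020347, 3225254861⟩
  | 1 => ⟨3078430679, 2385421391, 3342488695, 2577723205⟩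
  | 2 => ⟨3253291764, 2460663351, 3447533339, 2601734115⟩
  | 3 => ⟨4220508255, 3092088480, 4365928467, 3197547021⟩
  | _ => ⟨0, 0, 0, 0⟩

def su : EhN := ⟨kK, tT, slo, shi, slo1, sJ0, sJ1, sF0, sF1, sHm0, sHm1, sHp, stg, sML, sPL, sMF, sPF⟩

def stn : ℕ → ℤ := fun l => match l with
  | 0 => 0
  | 1 => 0
  | 2 => 0
  | 3 => 20
  | 4 => 0
  | 5 => 0
  | _ => 0

noncomputable def sh : Ehk := SC.Fs.xc SCs16.c RecK.rk SKs16.e su

theorem scd : sh.cd.ck q = true := by decide +kernel
theorem sLS : (sh.L true (RTab.rr RT.kSL 16)).ckS q = true := by decide +kernel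
theorem sLT : (sh.L true (RTab.rr RT.kSL 16)).ckT q = true := by decide +kernel
theorem sFS : (sh.F true (RTab.rr RT.kSF 16)).ckS q = true := by decide +kernel
theorem sFT : (sh.F true (RTab.rr RT.kSF 16)).ckT q = true := by decide +kernel
theorem sj : sh.ckJ q.n dj 43217972 53074956 = true := by decide +kernel
theorem sms : sh.msB q.n = true := by decide +kernel
theorem snl : sh.nck true q 43217972 53074956 9158517 stn = true := by decide +kernel

/-- **the checks of the numbers** -/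
theorem sH : HCel sh q true dj 43217972 53074956 (RTab.rr RT.kSL 16) (RTab.rr RT.kSF 16) 16 :=
  ⟨⟨qo, scd, rfl, rfl, rfl, sLS, sLT, sFS, sFT⟩, Ehk.msB_of sms, sj, fun h => absurd h (by decide)⟩

end Pool.Agent.RZ.RCO.ECs16
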