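import Pool.Agent.RZ.RCO.EdG
import Pool.Agent.RZ.RCO.EdM
import Pool.Agent.RZ.RCO.SKs17

/-! Generated: the end of the big cell 17, star (MP_73ccd0_lc). -/

set_option autoImplicit false
set_option maxRecDepth 100000

open Pool.Agent.RZ.RCO

namespace Pool.Agent.RZ.RCO.ECs17

def qA : ℕ → ℤ := fun l => match l with
  | 0 => 0
  | 1 => 4081056
  | 2 => 8162112
  | 3 => 12243184
  | 4 => 16324240
  | _ => 0

def q : Ec0 := ⟨4, 16324240, 680176, qA, 0⟩

def djH : ℕ → ℕ := fun l => match l with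
  | 0 => 680176
  | 1 => 680176
  | 2 => 680176
  | 3 => 680176
  | 4 => 680176
  | 5 => 680176
  | 6 => 680176
  | 7 => 680176
  | 8 => 680176
  | 9 => 680176
  | 10 => 680176
  | 11 => 680176
  | 12 => 680179
  | 13 => 680178
  | 14 => 680179
  | 15 => 680179
  | 16 => 680178
  | 17 => 680179
  | 18 => 680176
  | 19 => 680176
  | 20 => 680176
  | 21 => 680176
  | 22 => 680176
  | 23 => 680176
  | _ => 0

def djR : ℕ → ℕ := fun l => match l with
  | 0 => 16777216
  | 1 => 16777216
  | 2 => 16777216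
  | 3 => 16777216
  | 4 => 16777216
  | 5 => 16777216
  | 6 => 16777216
  | 7 => 16829904
  | 8 => 17002906
  | 9 => 17144271
  | 10 => 17259817
  | 11 => 17355159
  | 12 => 17436057
  | 13 => 17507808
  | 14 => 17575301
  | 15 => 17644969
  | 16 => 17714865
  | 17 => 17786115
  | 18 => 17858400
  | 19 => 17929111
  | 20 => 17996910
  | 21 => 18061647
  | 22 => 18125180
  | 23 => 18196448
  | _ => 0

def djW : ℕ → ℕ := fun l => match l with
  | 0 => 20364344
  | 1 => 20163200
  | 2 => 19969660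
  | 3 => 19783230
  | 4 => 19603447
  | 5 => 19429874
  | 6 => 19262104
  | 7 => 19099751
  | 8 => 18942196
  | 9 => 18788329
  | 10 => 18637500
  | 11 => 18489726
  | 12 => 18344960
  | 13 => 18203103
  | 14 => 18064002
  | 15 => 17927474
  | 16 => 17793285
  | 17 => 17661198
  | 18 => 17530983
  | 19 => 17402412
  | 20 => 17275273
  | 21 => 17149372
  | 22 => 17024524
  | 23 => 16900540
  | _ => 0

def djK : ℕ → ℕ := fun l => match l with
  | 0 => 0
  | 1 => 6
  | 2 => 12
  | 3 => 18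
  | 4 => 24
  | _ => 0

def dj : Dj := ⟨24, djH, djR, djW, 4, djK, 680176⟩

def kK : ℕ → ℕ := fun l => match l with
  | 0 => 0
  | 1 => 6
  | 2 => 12
  | 3 => 18
  | 4 => 24
  | _ => 0

def tT : ℕ → ℤ := fun l => match l with
  | 0 => 0
  | 1 => 680176
  | 2 => 1360352
  | 3 => 2040528
  | 4 => 2720704
  | 5 => 3400880
  | 6 => 4081056
  | 7 => 4761232
  | 8 => 5441408
  | 9 => 6121584
  | 10 => 6801760
  | 11 => 7481936
  | 12 => 8162112
  | 13 => 8842291
  | 14 => 9522469
  | 15 => 10202648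
  | 16 => 10882827
  | 17 => 11563005
  | 18 => 12243184
  | 19 => 12923360
  | 20 => 13603536
  | 21 => 14283712
  | 22 => 14963888
  | 23 => 15644064
  | 24 => 16324240
  | _ => 0

theorem qo : q.ok = true := by decide +kernel
theorem djo : dj.ok = true := by decide +kernel
theorem djt : dj.tie 1024 SCs17.c.D 624 0 2 3 4 5 3 = true := by decide +kernel
theorem djr : dj.rel q = true := by decide +kernel
theorem rel : q.Rel (RTab.tabq 1) 17 := Ec0.relB_of (by decide +kernel)

def slo : ℕ → (ℕ → ℤ) := fun l => match l with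
  | 0 => v6 19903845 41794382 34843834 (-2654032) (-7818751) 18916392
  | 1 => v6 4076318 10074791 7804545 (-353536) (-875494) 3525949
  | 2 => v6 1009471 3091589 2443253 133851 590144 833952
  | 3 => v6 154055 630416 534773 68896 355304 100631
  | _ => fun _ => 0

def shi : ℕ → (ℕ → ℤ) := fun l => match l with
  | 0 => v6 4076318 10074791 7804545 (-90776) 331591 3525949
  | 1 => v6 1009471 3091589 2443253 271515 767243 833952
  | 2 => v6 154055 630416 534773 95395 489007 100631
  | 3 => v6 0 0 0 0 0 0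
  | _ => fun _ => 0

def slo1 : ℕ → ℤ := v6 17265924 36507784 30337286 (-2226822) (-6460360) 16351319

def sJ0 : ℕ → ℤ := fun l => match l with
  | 0 => 0
  | 1 => 655638
  | 2 => 1311276
  | 3 => 2320972
  | 4 => 4170355
  | _ => 0

def sJ1 : ℕ → ℤ := fun l => match l with
  | 0 => 0
  | 1 => 674486
  | 2 => 1348972
  | 3 => 2223754
  | 4 => 3921664
  | _ => 0

def sF0 : ℕ → ℤ := fun l => match l with
  | 0 => 0
  | 1 => 870812
  | 2 => 1741624
  | 3 => 2873688
  | 4 => 4804119
  | _ => 0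

def sF1 : ℕ → ℤ := fun l => match l with
  | 0 => 0
  | 1 => 902513
  | 2 => 1805025
  | 3 => 2837377
  | 4 => 4621176
  | _ => 0

def sHm0 : ℕ → ℤ := fun l => match l with
  | 0 => 16900427
  | 1 => 12890793
  | 2 => 8711785
  | 3 => 4426285
  | _ => 0

def sHm1 : ℕ → ℤ := fun l => match l with
  | 0 => 16220251
  | 1 => 12890793
  | 2 => 8711785
  | 3 => 4426285
  | _ => 0

def sHp : ℕ → ℤ := fun l => match l with
  | 0 => 12819371
  | 1 => 8669152
  | 2 => 4385297
  | 3 => 0
  | _ => 0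

def stg : ℕ → ℕ → ℤ := fun l => match l with
  | 0 => fun i => match i with | 0 => 62 | 1 => 64 | 2 => 63 | 3 => 56 | 4 => 85 | 5 => 85 | 6 => 85 | 7 => 85 | _ => 0
  | 1 => fun i => match i with | 0 => 63 | 1 => 56 | 2 => 48 | 3 => 46 | 4 => 85 | 5 => 85 | 6 => 85 | 7 => 85 | _ => 0
  | 2 => fun i => match i with | 0 => 48 | 1 => 46 | 2 => 49 | 3 => 28 | 4 => 85 | 5 => 85 | 6 => 85 | 7 => 85 | _ => 0
  | 3 => fun i => match i with | 0 => 49 | 1 => 28 | 2 => 0 | 3 => 0 | 4 => 4 | 5 => 0 | 6 => 1 | 7 => 0 | _ => 0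
  | _ => fun _ => 0

def sML : ℕ → E4 := fun l => match l with
  | 0 => ⟨1446129381, 1080530049, 1599660947, 1185359470⟩
  | 1 => ⟨1681286116, 1217582480, 1834818620, 1322412571⟩
  | 2 => ⟨2298996963, 1629528943, 2452530636, 1734359722⟩
  | 3 => ⟨3345000667, 2341082044, 3498535305, 2445913456⟩
  | _ => ⟨0, 0, 0, 0⟩

def sPL : ℕ → E4 := fun l => match l with
  | 0 => ⟨1681286116, 1217582480, 1834818620, 1322412571⟩
  | 1 => ⟨2298996963, 1629528943, 2452530636, 1734359722⟩
  | 2 => ⟨3345000667, 2341082044, 3498535305, 2445913456⟩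
  | 3 => ⟨4961499800, 3452590130, 5110448134, 3557422309⟩
  | _ => ⟨0, 0, 0, 0⟩

def sMF : ℕ → E4 := fun l => match l with
  | 0 => ⟨6172984502, 4355231734, 6877520059, 4824646022⟩
  | 1 => ⟨3958075540, 3029939723, 4310540684, 3284699091⟩
  | 2 => ⟨4044015598, 3001160385, 4289016959, 3175249291⟩
  | 3 => ⟨5228013544, 3686118448, 5404866040, 3810112682⟩
  | _ => ⟨0, 0, 0, 0⟩

def sPF : ℕ → E4 := fun l => match l with
  | 0 => ⟨5121942254, 3488204999, 5688968945, 3843028563⟩
  | 1 => ⟨3618027749, 2691476931, 3940461497, 2916204903⟩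
  | 2 => ⟨3833376251, 2785535437, 4067868099, 2949114831⟩
  | 3 => ⟨5095161851, 3545953929, 5269387614, 3667321429⟩
  | _ => ⟨0, 0, 0, 0⟩

def su : EhN := ⟨kK, tT, slo, shi, slo1, sJ0, sJ1, sF0, sF1, sHm0, sHm1, sHp, stg, sML, sPL, sMF, sPF⟩

def stn : ℕ → ℤ := fun l => match l with
  | 0 => 20
  | 1 => 0
  | 2 => 20
  | 3 => 20
  | 4 => 0
  | 5 => 0
  | _ => 0

noncomputable def sh : Ehk := SC.Fs.xc SCs17.c RecK.rk SKs17.e su

theorem scd : sh.cd.ck q = true := by decide +kernel
theorem sLS : (sh.L true (RTab.rr RT.kSL 17)).ckS q = true := by decide +kernel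
theorem sLT : (sh.L true (RTab.rr RT.kSL 17)).ckT q = true := by decide +kernel
theorem sFS : (sh.F true (RTab.rr RT.kSF 17)).ckS q = true := by decide +kernel
theorem sFT : (sh.F true (RTab.rr RT.kSF 17)).ckT q = true := by decide +kernel
theorem sj : sh.ckJ q.n dj 50079281 61347600 = true := by decide +kernel
theorem sms : sh.msB q.n = true := by decide +kernel
theorem snl : sh.nck true q 50079281 61347600 10347723 stn = true := by decide +kernel

/-- **the checks of the numbers** -/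
theorem sH : HCel sh q true dj 50079281 61347600 (RTab.rr RT.kSL 17) (RTab.rr RT.kSF 17) 17 :=
  ⟨⟨qo, scd, rfl, rfl, rfl, sLS, sLT, sFS, sFT⟩, Ehk.msB_of sms, sj, fun h => absurd h (by decide)⟩

end Pool.Agent.RZ.RCO.ECs17
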