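import Pool.Agent.RZ.RCO.EdG
import Pool.Agent.RZ.RCO.EdM
import Pool.Agent.RZ.RCO.SKs2

/-! Generated: the end of the big cell 2, star (MP_73ccd0_lc). -/

set_option autoImplicit false
set_option maxRecDepth 100000

open Pool.Agent.RZ.RCO

namespace Pool.Agent.RZ.RCO.ECs2

def qA : ℕ → ℤ := fun l => match l with
  | 0 => 0
  | 1 => 1503248
  | 2 => 2008800
  | 3 => 2514352
  | 4 => 3019904
  | _ => 0

def q : Ec0 := ⟨4, 3019904, 1503248, qA, 0⟩

def djH : ℕ → ℕ := fun l => match l with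
  | 0 => 1503248
  | 1 => 126388
  | 2 => 126388
  | 3 => 126388
  | 4 => 126388
  | 5 => 126388
  | 6 => 126388
  | 7 => 126388
  | 8 => 126388
  | 9 => 126388
  | 10 => 126388
  | 11 => 126388
  | 12 => 126388
  | _ => 0

def djR : ℕ → ℕ := fun l => match l with
  | 0 => 16777216
  | 1 => 16777216
  | 2 => 16777216
  | 3 => 16777216
  | 4 => 16777216
  | 5 => 16777216
  | 6 => 16777216
  | 7 => 16777216
  | 8 => 16777216
  | 9 => 16777216
  | 10 => 16777216
  | 11 => 16777216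
  | 12 => 16777216
  | _ => 0

def djW : ℕ → ℕ := fun l => match l with
  | 0 => 17290995
  | 1 => 17032262
  | 2 => 17010818
  | 3 => 16989413
  | 4 => 16968044
  | 5 => 16946711
  | 6 => 16925413
  | 7 => 16904148
  | 8 => 16882917
  | 9 => 16861718
  | 10 => 16840549
  | 11 => 16819410
  | 12 => 16798300
  | _ => 0

def djK : ℕ → ℕ := fun l => match l with
  | 0 => 0
  | 1 => 1
  | 2 => 5
  | 3 => 9
  | 4 => 13
  | _ => 0

def dj : Dj := ⟨13, djH, djR, djW, 4, djK, 1503248⟩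

def kK : ℕ → ℕ := fun l => match l with
  | 0 => 0
  | 1 => 1
  | 2 => 5
  | 3 => 9
  | 4 => 13
  | _ => 0

def tT : ℕ → ℤ := fun l => match l with
  | 0 => 0
  | 1 => 1503248
  | 2 => 1629636
  | 3 => 1756024
  | 4 => 1882412
  | 5 => 2008800
  | 6 => 2135188
  | 7 => 2261576
  | 8 => 2387964
  | 9 => 2514352
  | 10 => 2640740
  | 11 => 2767128
  | 12 => 2893516
  | 13 => 3019904
  | _ => 0

theorem qo : q.ok = true := by decide +kernel
theorem djo : dj.ok = true := by decide +kernel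
theorem djt : dj.tie 1024 SCs2.c.D 624 0 2 3 4 5 3 = true := by decide +kernel
theorem djr : dj.rel q = true := by decide +kernel
theorem rel : q.Rel (RTab.tabq 1) 2 := Ec0.relB_of (by decide +kernel)

def slo : ℕ → (ℕ → ℤ) := fun l => match l with
  | 0 => v6 67661 289166 270213 (-15860) (-9077) 34159
  | 1 => v6 13885 69967 68877 508 1629 4636
  | 2 => v6 5865 30896 30230 (-486) (-12) 1294
  | 3 => v6 1426 7710 7618 16 86 209
  | _ => fun _ => 0

def shi : ℕ → (ℕ → ℤ) := fun l => match l with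
  | 0 => v6 13885 69967 68877 508 1629 4636
  | 1 => v6 5865 30896 30230 (-577) (-40) 1294
  | 2 => v6 1426 7710 7618 59 83 209
  | 3 => v6 0 0 0 48 31 0
  | _ => fun _ => 0

def slo1 : ℕ → ℤ := v6 13885 69967 68877 508 1629 4636

def sJ0 : ℕ → ℤ := fun l => match l with
  | 0 => 0
  | 1 => 0
  | 2 => 0
  | 3 => 0
  | 4 => 0
  | _ => 0

def sJ1 : ℕ → ℤ := fun l => match l with
  | 0 => 0
  | 1 => 0
  | 2 => 0
  | 3 => 0
  | 4 => 0
  | _ => 0

def sF0 : ℕ → ℤ := fun l => match l with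
  | 0 => 0
  | 1 => 0
  | 2 => 0
  | 3 => 0
  | 4 => 0
  | _ => 0

def sF1 : ℕ → ℤ := fun l => match l with
  | 0 => 0
  | 1 => 0
  | 2 => 0
  | 3 => 0
  | 4 => 0
  | _ => 0

def sHm0 : ℕ → ℤ := fun l => match l with
  | 0 => 3019904
  | 1 => 1516656
  | 2 => 1011104
  | 3 => 505552
  | _ => 0

def sHm1 : ℕ → ℤ := fun l => match l with
  | 0 => 1516656
  | 1 => 1516656
  | 2 => 1011104
  | 3 => 505552
  | _ => 0

def sHp : ℕ → ℤ := fun l => match l with
  | 0 => 1516656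
  | 1 => 1011104
  | 2 => 505552
  | 3 => 0
  | _ => 0

def stg : ℕ → ℕ → ℤ := fun l => match l with
  | 0 => fun i => match i with | 0 => 0 | 1 => 0 | 2 => 0 | 3 => 0 | 4 => 0 | 5 => 9 | 6 => 0 | 7 => 10 | _ => 0
  | 1 => fun i => match i with | 0 => 0 | 1 => 0 | 2 => 0 | 3 => 0 | 4 => 0 | 5 => 8 | 6 => 0 | 7 => 0 | _ => 0
  | 2 => fun i => match i with | 0 => 0 | 1 => 0 | 2 => 0 | 3 => 0 | 4 => 0 | 5 => 0 | 6 => 0 | 7 => 0 | _ => 0
  | 3 => fun i => match i with | 0 => 0 | 1 => 0 | 2 => 0 | 3 => 0 | 4 => 0 | 5 => 0 | 6 => 0 | 7 => 0 | _ => 0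
  | _ => fun _ => 0

def sML : ℕ → E4 := fun l => match l with
  | 0 => ⟨14869550, 3595750, 15094138, 3621334⟩
  | 1 => ⟨22607100, 3595750, 22831692, 3621334⟩
  | 2 => ⟨21552450, 4015300, 21777100, 4041063⟩
  | 3 => ⟨25242350, 5194500, 25467034, 5220292⟩
  | _ => ⟨0, 0, 0, 0⟩

def sPL : ℕ → E4 := fun l => match l with
  | 0 => ⟨22607100, 3595750, 22831692, 3621334⟩
  | 1 => ⟨21552450, 4015300, 21777100, 4041063⟩
  | 2 => ⟨25242350, 5194500, 25467034, 5220292⟩
  | 3 => ⟨29738250, 7151150, 29962946, 7176955⟩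
  | _ => ⟨0, 0, 0, 0⟩

def sMF : ℕ → E4 := fun l => match l with
  | 0 => ⟨177209763, 80160924, 178699471, 80479300⟩
  | 1 => ⟨98131464, 80639739, 98659989, 80959907⟩
  | 2 => ⟨76109400, 56047650, 76469117, 56203367⟩
  | 3 => ⟨55092050, 32501450, 55350596, 32559800⟩
  | _ => ⟨0, 0, 0, 0⟩

def sPF : ℕ → E4 := fun l => match l with
  | 0 => ⟨99362168, 80160924, 99938547, 80479300⟩
  | 1 => ⟨72439400, 54870100, 72805130, 55026196⟩
  | 2 => ⟨50609850, 30548100, 50872959, 30607209⟩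
  | 3 => ⟨29743150, 7152550, 29969571, 7178775⟩
  | _ => ⟨0, 0, 0, 0⟩

def su : EhN := ⟨kK, tT, slo, shi, slo1, sJ0, sJ1, sF0, sF1, sHm0, sHm1, sHp, stg, sML, sPL, sMF, sPF⟩

def stn : ℕ → ℤ := fun l => match l with
  | 0 => 0
  | 1 => 0
  | 2 => 0
  | 3 => 0
  | 4 => 60
  | 5 => 76
  | _ => 0

noncomputable def sh : Ehk := SC.Fs.xc SCs2.c RecK.rk SKs2.e su

theorem scd : sh.cd.ck q = true := by decide +kernel
theorem sLS : (sh.L true (RTab.rr RT.kSL 2)).ckS q = true := by decide +kernel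
theorem sLT : (sh.L true (RTab.rr RT.kSL 2)).ckT q = true := by decide +kernel
theorem sFS : (sh.F true (RTab.rr RT.kSF 2)).ckS q = true := by decide +kernel
theorem sFT : (sh.F true (RTab.rr RT.kSF 2)).ckT q = true := by decide +kernel
theorem sj : sh.ckJ q.n dj 570211 665381 = true := by decide +kernel
theorem sms : sh.msB q.n = true := by decide +kernel
theorem snl : sh.nck true q 570211 665381 95111 stn = true := by decide +kernel

/-- **the checks of the numbers** -/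
theorem sH : HCel sh q true dj 570211 665381 (RTab.rr RT.kSL 2) (RTab.rr RT.kSF 2) 2 :=
  ⟨⟨qo, scd, rfl, rfl, rfl, sLS, sLT, sFS, sFT⟩, Ehk.msB_of sms, sj, fun h => absurd h (by decide)⟩

end Pool.Agent.RZ.RCO.ECs2
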