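import Pool.Agent.RZ.RCO.EdG
import Pool.Agent.RZ.RCO.EdM
import Pool.Agent.RZ.RCO.SKs3

/-! Generated: the end of the big cell 3, star (MP_73ccd0_lc). -/

set_option autoImplicit false
set_option maxRecDepth 100000

open Pool.Agent.RZ.RCO

namespace Pool.Agent.RZ.RCO.ECs3

def qA : ℕ → ℤ := fun l => match l with
  | 0 => 0
  | 1 => 1879072
  | 2 => 2818592
  | 3 => 3758112
  | 4 => 4697632
  | _ => 0

def q : Ec0 := ⟨4, 4697632, 1879072, qA, 0⟩

def djH : ℕ → ℕ := fun l => match l with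
  | 0 => 1879072
  | 1 => 234880
  | 2 => 234880
  | 3 => 234880
  | 4 => 234880
  | 5 => 234880
  | 6 => 234880
  | 7 => 234880
  | 8 => 234880
  | 9 => 234880
  | 10 => 234880
  | 11 => 234880
  | 12 => 234880
  | _ => 0

def djR : ℕ → ℕ := fun l => match l with
  | 0 => 16777216
  | 1 => 16777216
  | 2 => 16777216
  | 3 => 16777216
  | 4 => 16777216
  | 5 => 16777216
  | 6 => 16777216
  | 7 => 16777216
  | 8 => 16777216
  | 9 => 16777216
  | 10 => 16777216
  | 11 => 16777216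
  | 12 => 16777216
  | _ => 0

def djW : ℕ → ℕ := fun l => match l with
  | 0 => 17588745
  | 1 => 17255635
  | 2 => 17214971
  | 3 => 17174475
  | 4 => 17134140
  | 5 => 17093961
  | 6 => 17053928
  | 7 => 17014035
  | 8 => 16974275
  | 9 => 16934640
  | 10 => 16895123
  | 11 => 16855719
  | 12 => 16816418
  | _ => 0

def djK : ℕ → ℕ := fun l => match l with
  | 0 => 0
  | 1 => 1
  | 2 => 5
  | 3 => 9
  | 4 => 13
  | _ => 0

def dj : Dj := ⟨13, djH, djR, djW, 4, djK, 1879072⟩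

def kK : ℕ → ℕ := fun l => match l with
  | 0 => 0
  | 1 => 1
  | 2 => 5
  | 3 => 9
  | 4 => 13
  | _ => 0

def tT : ℕ → ℤ := fun l => match l with
  | 0 => 0
  | 1 => 1879072
  | 2 => 2113952
  | 3 => 2348832
  | 4 => 2583712
  | 5 => 2818592
  | 6 => 3053472
  | 7 => 3288352
  | 8 => 3523232
  | 9 => 3758112
  | 10 => 3992992
  | 11 => 4227872
  | 12 => 4462752
  | 13 => 4697632
  | _ => 0

theorem qo : q.ok = true := by decide +kernel
theorem djo : dj.ok = true := by decide +kernel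
theorem djt : dj.tie 1024 SCs3.c.D 624 0 2 3 4 5 3 = true := by decide +kernel
theorem djr : dj.rel q = true := by decide +kernel
theorem rel : q.Rel (RTab.tabq 1) 3 := Ec0.relB_of (by decide +kernel)

def slo : ℕ → (ℕ → ℤ) := fun l => match l with
  | 0 => v6 200345 742298 663976 (-64137) (-53812) 126706
  | 1 => v6 56148 248511 233582 (-7608) 1836 27457
  | 2 => v6 22381 108154 103709 (-3632) (-1054) 7887
  | 3 => v6 5108 26658 26052 (-323) 40 1066
  | _ => fun _ => 0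

def shi : ℕ → (ℕ → ℤ) := fun l => match l with
  | 0 => v6 56148 248511 233582 (-7608) 1836 27457
  | 1 => v6 22381 108154 103709 (-4236) (-1373) 7887
  | 2 => v6 5108 26658 26052 76 300 1066
  | 3 => v6 0 0 0 205 59 0
  | _ => fun _ => 0

def slo1 : ℕ → ℤ := v6 56148 248511 233582 (-7608) 1836 27457

def sJ0 : ℕ → ℤ := fun l => match l with
  | 0 => 0
  | 1 => 0
  | 2 => 0
  | 3 => 0
  | 4 => 0
  | _ => 0

def sJ1 : ℕ → ℤ := fun l => match l with
  | 0 => 0
  | 1 => 0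
  | 2 => 0
  | 3 => 0
  | 4 => 0
  | _ => 0

def sF0 : ℕ → ℤ := fun l => match l with
  | 0 => 0
  | 1 => 0
  | 2 => 0
  | 3 => 0
  | 4 => 0
  | _ => 0

def sF1 : ℕ → ℤ := fun l => match l with
  | 0 => 0
  | 1 => 0
  | 2 => 0
  | 3 => 0
  | 4 => 0
  | _ => 0

def sHm0 : ℕ → ℤ := fun l => match l with
  | 0 => 4697632
  | 1 => 2818560
  | 2 => 1879040
  | 3 => 939520
  | _ => 0

def sHm1 : ℕ → ℤ := fun l => match l with
  | 0 => 2818560
  | 1 => 2818560
  | 2 => 1879040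
  | 3 => 939520
  | _ => 0

def sHp : ℕ → ℤ := fun l => match l with
  | 0 => 2818560
  | 1 => 1879040
  | 2 => 939520
  | 3 => 0
  | _ => 0

def stg : ℕ → ℕ → ℤ := fun l => match l with
  | 0 => fun i => match i with | 0 => 0 | 1 => 0 | 2 => 0 | 3 => 0 | 4 => 0 | 5 => 9 | 6 => 0 | 7 => 9 | _ => 0
  | 1 => fun i => match i with | 0 => 0 | 1 => 0 | 2 => 0 | 3 => 0 | 4 => 2 | 5 => 9 | 6 => 0 | 7 => 0 | _ => 0
  | 2 => fun i => match i with | 0 => 0 | 1 => 0 | 2 => 0 | 3 => 0 | 4 => 0 | 5 => 0 | 6 => 0 | 7 => 0 | _ => 0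
  | 3 => fun i => match i with | 0 => 0 | 1 => 0 | 2 => 0 | 3 => 0 | 4 => 0 | 5 => 0 | 6 => 0 | 7 => 0 | _ => 0
  | _ => fun _ => 0

def sML : ℕ → E4 := fun l => match l with
  | 0 => ⟨37872950, 12863750, 38746409, 13033059⟩
  | 1 => ⟨51582650, 12863750, 52456113, 13033059⟩
  | 2 => ⟨52307400, 14378850, 53180925, 14548338⟩
  | 3 => ⟨63114700, 18626450, 63988263, 18795967⟩
  | _ => ⟨0, 0, 0, 0⟩

def sPL : ℕ → E4 := fun l => match l with
  | 0 => ⟨51582650, 12863750, 52456113, 13033059⟩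
  | 1 => ⟨52307400, 14378850, 53180925, 14548338⟩
  | 2 => ⟨63114700, 18626450, 63988263, 18795967⟩
  | 3 => ⟨76923300, 25655000, 77796888, 25824538⟩
  | _ => ⟨0, 0, 0, 0⟩

def sMF : ℕ → E4 := fun l => match l with
  | 0 => ⟨297602084, 156609537, 301874946, 157814308⟩
  | 1 => ⟨196421289, 158204919, 198434639, 159436182⟩
  | 2 => ⟨158351600, 113753800, 159731467, 114390700⟩
  | 3 => ⟨124197500, 72902350, 125197821, 73188200⟩
  | _ => ⟨0, 0, 0, 0⟩

def sPF : ℕ → E4 := fun l => match l with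
  | 0 => ⟨196436014, 156609537, 198651430, 157814308⟩
  | 1 => ⟨147715250, 109530200, 149143780, 110172384⟩
  | 2 => ⟨110511950, 65914150, 111552250, 66211484⟩
  | 3 => ⟨76966100, 25670950, 77855346, 25845725⟩
  | _ => ⟨0, 0, 0, 0⟩

def su : EhN := ⟨kK, tT, slo, shi, slo1, sJ0, sJ1, sF0, sF1, sHm0, sHm1, sHp, stg, sML, sPL, sMF, sPF⟩

def stn : ℕ → ℤ := fun l => match l with
  | 0 => 0
  | 1 => 0
  | 2 => 0
  | 3 => 0
  | 4 => 76
  | 5 => 85
  | _ => 0

noncomputable def sh : Ehk := SC.Fs.xc SCs3.c RecK.rk SKs3.e su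

theorem scd : sh.cd.ck q = true := by decide +kernel
theorem sLS : (sh.L true (RTab.rr RT.kSL 3)).ckS q = true := by decide +kernel
theorem sLT : (sh.L true (RTab.rr RT.kSL 3)).ckT q = true := by decide +kernel
theorem sFS : (sh.F true (RTab.rr RT.kSF 3)).ckS q = true := by decide +kernel
theorem sFT : (sh.F true (RTab.rr RT.kSF 3)).ckT q = true := by decide +kernel
theorem sj : sh.ckJ q.n dj 1423944 1664655 = true := by decide +kernel
theorem sms : sh.msB q.n = true := by decide +kernel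
theorem snl : sh.nck true q 1423944 1664655 240206 stn = true := by decide +kernel

/-- **the checks of the numbers** -/
theorem sH : HCel sh q true dj 1423944 1664655 (RTab.rr RT.kSL 3) (RTab.rr RT.kSF 3) 3 :=
  ⟨⟨qo, scd, rfl, rfl, rfl, sLS, sLT, sFS, sFT⟩, Ehk.msB_of sms, sj, fun h => absurd h (by decide)⟩

end Pool.Agent.RZ.RCO.ECs3
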