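import Pool.Agent.RZ.RCO.EdG
import Pool.Agent.RZ.RCO.EdM
import Pool.Agent.RZ.RCO.SKs4

/-! Generated: the end of the big cell 4, star (MP_73ccd0_lc). -/

set_option autoImplicit false
set_option maxRecDepth 100000

open Pool.Agent.RZ.RCO

namespace Pool.Agent.RZ.RCO.ECs4

def qA : ℕ → ℤ := fun l => match l with
  | 0 => 0
  | 1 => 1879056
  | 2 => 3377824
  | 3 => 4876576
  | 4 => 6375344
  | _ => 0

def q : Ec0 := ⟨4, 6375344, 1879056, qA, 0⟩

def djH : ℕ → ℕ := fun l => match l with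
  | 0 => 1879056
  | 1 => 374692
  | 2 => 374692
  | 3 => 374692
  | 4 => 374692
  | 5 => 374688
  | 6 => 374688
  | 7 => 374688
  | 8 => 374688
  | 9 => 374692
  | 10 => 374692
  | 11 => 374692
  | 12 => 374692
  | _ => 0

def djR : ℕ → ℕ := fun l => match l with
  | 0 => 16777216
  | 1 => 16777216
  | 2 => 16777216
  | 3 => 16777216
  | 4 => 16777216
  | 5 => 16777216
  | 6 => 16777216
  | 7 => 16777216
  | 8 => 16777216
  | 9 => 16777216
  | 10 => 16875493
  | 11 => 16970141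
  | 12 => 17053862
  | _ => 0

def djW : ℕ → ℕ := fun l => match l with
  | 0 => 17900659
  | 1 => 17553746
  | 2 => 17486670
  | 3 => 17420157
  | 4 => 17354175
  | 5 => 17288689
  | 6 => 17223671
  | 7 => 17159086
  | 8 => 17094907
  | 9 => 17031103
  | 10 => 16967608
  | 11 => 16904191
  | 12 => 16840719
  | _ => 0

def djK : ℕ → ℕ := fun l => match l with
  | 0 => 0
  | 1 => 1
  | 2 => 5
  | 3 => 9
  | 4 => 13
  | _ => 0

def dj : Dj := ⟨13, djH, djR, djW, 4, djK, 1879056⟩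

def kK : ℕ → ℕ := fun l => match l with
  | 0 => 0
  | 1 => 1
  | 2 => 5
  | 3 => 9
  | 4 => 13
  | _ => 0

def tT : ℕ → ℤ := fun l => match l with
  | 0 => 0
  | 1 => 1879056
  | 2 => 2253748
  | 3 => 2628440
  | 4 => 3003132
  | 5 => 3377824
  | 6 => 3752512
  | 7 => 4127200
  | 8 => 4501888
  | 9 => 4876576
  | 10 => 5251268
  | 11 => 5625960
  | 12 => 6000652
  | 13 => 6375344
  | _ => 0

theorem qo : q.ok = true := by decide +kernel
theorem djo : dj.ok = true := by decide +kernel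
theorem djt : dj.tie 1024 SCs4.c.D 624 0 2 3 4 5 3 = true := by decide +kernel
theorem djr : dj.rel q = true := by decide +kernel
theorem rel : q.Rel (RTab.tabq 1) 4 := Ec0.relB_of (by decide +kernel)

def slo : ℕ → (ℕ → ℤ) := fun l => match l with
  | 0 => v6 451111 1479426 1271709 (-167494) (-158282) 317955
  | 1 => v6 176391 670243 603286 (-48060) (-9853) 108256
  | 2 => v6 66012 284237 264909 (-13710) 4649 31814
  | 3 => v6 14135 69214 66422 (-614) 5138 4083
  | _ => fun _ => 0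

def shi : ℕ → (ℕ → ℤ) := fun l => match l with
  | 0 => v6 176391 670243 603286 (-48640) (-9853) 108256
  | 1 => v6 66012 284237 264909 (-15703) 2590 31814
  | 2 => v6 14135 69214 66422 1190 7139 4083
  | 3 => v6 0 0 0 769 58 0
  | _ => fun _ => 0

def slo1 : ℕ → ℤ := v6 176391 670243 603286 (-48640) (-9853) 108256

def sJ0 : ℕ → ℤ := fun l => match l with
  | 0 => 0
  | 1 => 0
  | 2 => 0
  | 3 => 0
  | 4 => 0
  | _ => 0

def sJ1 : ℕ → ℤ := fun l => match l with
  | 0 => 0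
  | 1 => 0
  | 2 => 0
  | 3 => 0
  | 4 => 0
  | _ => 0

def sF0 : ℕ → ℤ := fun l => match l with
  | 0 => 0
  | 1 => 0
  | 2 => 0
  | 3 => 0
  | 4 => 0
  | _ => 0

def sF1 : ℕ → ℤ := fun l => match l with
  | 0 => 0
  | 1 => 0
  | 2 => 0
  | 3 => 0
  | 4 => 0
  | _ => 0

def sHm0 : ℕ → ℤ := fun l => match l with
  | 0 => 6388026
  | 1 => 4508970
  | 2 => 3010202
  | 3 => 1523482
  | _ => 0

def sHm1 : ℕ → ℤ := fun l => match l with
  | 0 => 4508970
  | 1 => 4508970
  | 2 => 3010202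
  | 3 => 1523482
  | _ => 0

def sHp : ℕ → ℤ := fun l => match l with
  | 0 => 4508970
  | 1 => 3010202
  | 2 => 1511450
  | 3 => 0
  | _ => 0

def stg : ℕ → ℕ → ℤ := fun l => match l with
  | 0 => fun i => match i with | 0 => 0 | 1 => 0 | 2 => 0 | 3 => 0 | 4 => 0 | 5 => 12 | 6 => 17 | 7 => 9 | _ => 0
  | 1 => fun i => match i with | 0 => 0 | 1 => 0 | 2 => 0 | 3 => 0 | 4 => 0 | 5 => 8 | 6 => 0 | 7 => 0 | _ => 0
  | 2 => fun i => match i with | 0 => 0 | 1 => 0 | 2 => 0 | 3 => 0 | 4 => 0 | 5 => 0 | 6 => 0 | 7 => 0 | _ => 0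
  | 3 => fun i => match i with | 0 => 0 | 1 => 0 | 2 => 0 | 3 => 0 | 4 => 0 | 5 => 0 | 6 => 0 | 7 => 0 | _ => 0
  | _ => fun _ => 0

def sML : ℕ → E4 := fun l => match l with
  | 0 => ⟨74003500, 34546850, 76307513, 35278092⟩
  | 1 => ⟨89762600, 34546850, 92066617, 35278092⟩
  | 2 => ⟨97199250, 38722650, 99503367, 39454084⟩
  | 3 => ⟨121250400, 50395950, 123554575, 51127434⟩
  | _ => ⟨0, 0, 0, 0⟩

def sPL : ℕ → E4 := fun l => match l with
  | 0 => ⟨89762600, 34546850, 92066617, 35278092⟩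
  | 1 => ⟨97199250, 38722650, 99503367, 39454084⟩
  | 2 => ⟨121250400, 50395950, 123554575, 51127434⟩
  | 3 => ⟨153822100, 69686350, 156126321, 70417875⟩
  | _ => ⟨0, 0, 0, 0⟩

def sMF : ℕ → E4 := fun l => match l with
  | 0 => ⟨434942573, 268868271, 444247527, 272392191⟩
  | 1 => ⟨333232191, 273598072, 338825753, 277280039⟩
  | 2 => ⟨275931300, 204603600, 279700059, 206637938⟩
  | 3 => ⟨230929550, 146678200, 233603521, 147735721⟩
  | _ => ⟨0, 0, 0, 0⟩

def sPF : ℕ → E4 := fun l => match l with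
  | 0 => ⟨327200747, 268868271, 333134105, 272392191⟩
  | 1 => ⟨252714250, 193115350, 256699455, 195188959⟩
  | 2 => ⟨198399850, 127072150, 201272680, 128210559⟩
  | 3 => ⟨154048700, 69797350, 156434280, 70566480⟩
  | _ => ⟨0, 0, 0, 0⟩

def su : EhN := ⟨kK, tT, slo, shi, slo1, sJ0, sJ1, sF0, sF1, sHm0, sHm1, sHp, stg, sML, sPL, sMF, sPF⟩

def stn : ℕ → ℤ := fun l => match l with
  | 0 => 0
  | 1 => 0
  | 2 => 0
  | 3 => 0
  | 4 => 0
  | 5 => 85
  | _ => 0

noncomputable def sh : Ehk := SC.Fs.xc SCs4.c RecK.rk SKs4.e su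

theorem scd : sh.cd.ck q = true := by decide +kernel
theorem sLS : (sh.L true (RTab.rr RT.kSL 4)).ckS q = true := by decide +kernel
theorem sLT : (sh.L true (RTab.rr RT.kSL 4)).ckT q = true := by decide +kernel
theorem sFS : (sh.F true (RTab.rr RT.kSF 4)).ckS q = true := by decide +kernel
theorem sFT : (sh.F true (RTab.rr RT.kSF 4)).ckT q = true := by decide +kernel
theorem sj : sh.ckJ q.n dj 2729478 3202214 = true := by decide +kernel
theorem sms : sh.msB q.n = true := by decide +kernel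
theorem snl : sh.nck true q 2729478 3202214 470036 stn = true := by decide +kernel

/-- **the checks of the numbers** -/
theorem sH : HCel sh q true dj 2729478 3202214 (RTab.rr RT.kSL 4) (RTab.rr RT.kSF 4) 4 :=
  ⟨⟨qo, scd, rfl, rfl, rfl, sLS, sLT, sFS, sFT⟩, Ehk.msB_of sms, sj, fun h => absurd h (by decide)⟩

end Pool.Agent.RZ.RCO.ECs4
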