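import Pool.Agent.RZ.RCO.EdG
import Pool.Agent.RZ.RCO.EdM
import Pool.Agent.RZ.RCO.SKs5

/-! Generated: the end of the big cell 5, star (MP_73ccd0_lc). -/

set_option autoImplicit false
set_option maxRecDepth 100000

open Pool.Agent.RZ.RCO

namespace Pool.Agent.RZ.RCO.ECs5

def qA : ℕ → ℤ := fun l => match l with
  | 0 => 0
  | 1 => 1971328
  | 2 => 3942656
  | 3 => 5913968
  | 4 => 7885296
  | _ => 0

def q : Ec0 := ⟨4, 7885296, 1509984, qA, 0⟩

def djH : ℕ → ℕ := fun l => match l with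
  | 0 => 1509984
  | 1 => 461344
  | 2 => 394266
  | 3 => 394265
  | 4 => 394266
  | 5 => 394265
  | 6 => 394266
  | 7 => 394262
  | 8 => 394263
  | 9 => 394262
  | 10 => 394263
  | 11 => 394262
  | 12 => 394266
  | 13 => 394265
  | 14 => 394266
  | 15 => 394265
  | 16 => 394266
  | _ => 0

def djR : ℕ → ℕ := fun l => match l with
  | 0 => 16777216
  | 1 => 16777216
  | 2 => 16777216
  | 3 => 16777216
  | 4 => 16777216
  | 5 => 16777216
  | 6 => 16777216
  | 7 => 16777216
  | 8 => 16777216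
  | 9 => 16777216
  | 10 => 16847051
  | 11 => 16949383
  | 12 => 17040640
  | 13 => 17121943
  | 14 => 17194276
  | 15 => 17258724
  | 16 => 17315768
  | _ => 0

def djW : ℕ → ℕ := fun l => match l with
  | 0 => 18199867
  | 1 => 17906885
  | 2 => 17820165
  | 3 => 17746945
  | 4 => 17674498
  | 5 => 17602783
  | 6 => 17531759
  | 7 => 17461383
  | 8 => 17391619
  | 9 => 17322430
  | 10 => 17253776
  | 11 => 17185477
  | 12 => 17117295
  | 13 => 17049155
  | 14 => 16981071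
  | 15 => 16913052
  | 16 => 16845099
  | _ => 0

def djK : ℕ → ℕ := fun l => match l with
  | 0 => 0
  | 1 => 2
  | 2 => 7
  | 3 => 12
  | 4 => 17
  | _ => 0

def dj : Dj := ⟨17, djH, djR, djW, 4, djK, 1509984⟩

def kK : ℕ → ℕ := fun l => match l with
  | 0 => 0
  | 1 => 2
  | 2 => 7
  | 3 => 12
  | 4 => 17
  | _ => 0

def tT : ℕ → ℤ := fun l => match l with
  | 0 => 0
  | 1 => 1509984
  | 2 => 1971328
  | 3 => 2365594
  | 4 => 2759859
  | 5 => 3154125
  | 6 => 3548390
  | 7 => 3942656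
  | 8 => 4336918
  | 9 => 4731181
  | 10 => 5125443
  | 11 => 5519706
  | 12 => 5913968
  | 13 => 6308234
  | 14 => 6702499
  | 15 => 7096765
  | 16 => 7491030
  | 17 => 7885296
  | _ => 0

theorem qo : q.ok = true := by decide +kernel
theorem djo : dj.ok = true := by decide +kernel
theorem djt : dj.tie 1024 SCs5.c.D 624 0 2 3 4 5 3 = true := by decide +kernel
theorem djr : dj.rel q = true := by decide +kernel
theorem rel : q.Rel (RTab.tabq 1) 5 := Ec0.relB_of (by decide +kernel)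

def slo : ℕ → (ℕ → ℤ) := fun l => match l with
  | 0 => v6 831787 2490728 2070326 (-291372) (-260519) 621443
  | 1 => v6 365762 1249817 1085013 (-111341) (-22577) 251117
  | 2 => v6 129285 515596 467735 (-22408) 41728 74079
  | 3 => v6 26090 124676 116736 1503 24333 9739
  | _ => fun _ => 0

def shi : ℕ → (ℕ → ℤ) := fun l => match l with
  | 0 => v6 365762 1249817 1085013 (-103095) 3568 251117
  | 1 => v6 129285 515596 467735 (-18342) 52333 74079
  | 2 => v6 26090 124676 116736 6407 30039 9739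
  | 3 => v6 0 0 0 947 0 0
  | _ => fun _ => 0

def slo1 : ℕ → ℤ := v6 474825 1540224 1315603 (-147156) (-58235) 337784

def sJ0 : ℕ → ℤ := fun l => match l with
  | 0 => 0
  | 1 => 0
  | 2 => 0
  | 3 => 0
  | 4 => 0
  | _ => 0

def sJ1 : ℕ → ℤ := fun l => match l with
  | 0 => 0
  | 1 => 0
  | 2 => 0
  | 3 => 0
  | 4 => 0
  | _ => 0

def sF0 : ℕ → ℤ := fun l => match l with
  | 0 => 0
  | 1 => 0
  | 2 => 0
  | 3 => 0
  | 4 => 0
  | _ => 0

def sF1 : ℕ → ℤ := fun l => match l with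
  | 0 => 0
  | 1 => 0
  | 2 => 0
  | 3 => 0
  | 4 => 0
  | _ => 0

def sHm0 : ℕ → ℤ := fun l => match l with
  | 0 => 7939048
  | 1 => 5967720
  | 2 => 4010934
  | 3 => 2034609
  | _ => 0

def sHm1 : ℕ → ℤ := fun l => match l with
  | 0 => 6429064
  | 1 => 5967720
  | 2 => 4010934
  | 3 => 2034609
  | _ => 0

def sHp : ℕ → ℤ := fun l => match l with
  | 0 => 5967720
  | 1 => 3996392
  | 2 => 2019392
  | 3 => 0
  | _ => 0

def stg : ℕ → ℕ → ℤ := fun l => match l with
  | 0 => fun i => match i with | 0 => 0 | 1 => 0 | 2 => 0 | 3 => 0 | 4 => 3 | 5 => 22 | 6 => 15 | 7 => 10 | _ => 0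
  | 1 => fun i => match i with | 0 => 0 | 1 => 0 | 2 => 0 | 3 => 0 | 4 => 0 | 5 => 7 | 6 => 0 | 7 => 0 | _ => 0
  | 2 => fun i => match i with | 0 => 0 | 1 => 0 | 2 => 0 | 3 => 0 | 4 => 0 | 5 => 0 | 6 => 0 | 7 => 0 | _ => 0
  | 3 => fun i => match i with | 0 => 0 | 1 => 0 | 2 => 0 | 3 => 0 | 4 => 0 | 5 => 0 | 6 => 0 | 7 => 0 | _ => 0
  | _ => fun _ => 0

def sML : ℕ → E4 := fun l => match l with
  | 0 => ⟨120784550, 74510700, 125490109, 76800071⟩
  | 1 => ⟨130262700, 75319900, 134968313, 77609430⟩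
  | 2 => ⟨155975600, 86485700, 160681288, 88775296⟩
  | 3 => ⟨198452800, 112704300, 203158567, 114993963⟩
  | _ => ⟨0, 0, 0, 0⟩

def sPL : ℕ → E4 := fun l => match l with
  | 0 => ⟨130262700, 75319900, 134968313, 77609430⟩
  | 1 => ⟨155975600, 86485700, 160681288, 88775296⟩
  | 2 => ⟨198452800, 112704300, 203158567, 114993963⟩
  | 3 => ⟨257768050, 153844600, 262473888, 156134325⟩
  | _ => ⟨0, 0, 0, 0⟩

def sMF : ℕ → E4 := fun l => match l with
  | 0 => ⟨575429351, 422082475, 592005628, 431076733⟩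
  | 1 => ⟨477825491, 405799010, 489156853, 413990827⟩
  | 2 => ⟨408081800, 321290350, 415757459, 326201571⟩
  | 3 => ⟨361485550, 257306350, 366955950, 260264242⟩
  | _ => ⟨0, 0, 0, 0⟩

def sPF : ℕ → E4 := fun l => match l with
  | 0 => ⟨453040185, 393260739, 464444189, 401062502⟩
  | 1 => ⟨367362300, 295365350, 375634409, 300497913⟩
  | 2 => ⟨303344950, 216553500, 309391775, 219835888⟩
  | 3 => ⟨258450600, 154271400, 263401517, 156709809⟩
  | _ => ⟨0, 0, 0, 0⟩

def su : EhN := ⟨kK, tT, slo, shi, slo1, sJ0, sJ1, sF0, sF1, sHm0, sHm1, sHp, stg, sML, sPL, sMF, sPF⟩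

def stn : ℕ → ℤ := fun l => match l with
  | 0 => 0
  | 1 => 0
  | 2 => 0
  | 3 => 0
  | 4 => 0
  | 5 => 0
  | _ => 0

noncomputable def sh : Ehk := SC.Fs.xc SCs5.c RecK.rk SKs5.e su

theorem scd : sh.cd.ck q = true := by decide +kernel
theorem sLS : (sh.L true (RTab.rr RT.kSL 5)).ckS q = true := by decide +kernel
theorem sLT : (sh.L true (RTab.rr RT.kSL 5)).ckT q = true := by decide +kernel
theorem sFS : (sh.F true (RTab.rr RT.kSF 5)).ckS q = true := by decide +kernel
theorem sFT : (sh.F true (RTab.rr RT.kSF 5)).ckT q = true := by decide +kernel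
theorem sj : sh.ckJ q.n dj 4373183 5158062 = true := by decide +kernel
theorem sms : sh.msB q.n = true := by decide +kernel
theorem snl : sh.nck true q 4373183 5158062 776751 stn = true := by decide +kernel

/-- **the checks of the numbers** -/
theorem sH : HCel sh q true dj 4373183 5158062 (RTab.rr RT.kSL 5) (RTab.rr RT.kSF 5) 5 :=
  ⟨⟨qo, scd, rfl, rfl, rfl, sLS, sLT, sFS, sFT⟩, Ehk.msB_of sms, sj, fun h => absurd h (by decide)⟩

end Pool.Agent.RZ.RCO.ECs5
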