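import Pool.Agent.RZ.RCO.Gg9
import Pool.Agent.RZ.RCO.SAsdB
import Pool.Agent.RZ.RCO.SBs6K
import Pool.Agent.RZ.RCO.SBs6R
import Pool.Agent.RZ.RCO.SCr

/-! The tables of a cell (MP_73ccd0_lc). -/

set_option autoImplicit false
set_option maxRecDepth 100000

namespace Pool.Agent.RZ.RCO.SCs6

open Sg

def a : ℕ → ℕ := fun l => match l with | 0 => 0 | 1 => 3 | 2 => 8 | 3 => 13 | _ => 18
def K : ℕ → ℕ := fun l => match l with | 0 => 0 | 1 => SBs6K1.D | 2 => SBs6K2.D | 3 => SBs6K3.D | _ => SBs6K4.D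
def R : ℕ → ℕ := fun l => match l with | 0 => 0 | 1 => SBs6R1.D | 2 => SBs6R2.D | 3 => SBs6R3.D | _ => SBs6R4.D

/-- the data of the cell -/
def c : Cdc := ⟨SAs6.D, 18, 4, a, K, R⟩

theorem bK1 : SC.Fs.bK SBs6K1.D 3 SAs6.D = true := by decide +kernel
theorem bK2 : SC.Fs.bK SBs6K2.D 8 SAs6.D = true := by decide +kernel
theorem bK3 : SC.Fs.bK SBs6K3.D 13 SAs6.D = true := by decide +kernel
theorem bK4 : SC.Fs.bK SBs6K4.D 18 SAs6.D = true := by decide +kernel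
theorem bN1 : SC.Fs.bN SBs6K1.D 3 SBs6K2.D 8 = true := by decide +kernel
theorem bN2 : SC.Fs.bN SBs6K2.D 8 SBs6K3.D 13 = true := by decide +kernel
theorem bN3 : SC.Fs.bN SBs6K3.D 13 SBs6K4.D 18 = true := by decide +kernel
theorem bR0 : SC.Fs.bR SBs6R1.D 3 SAs6.D 0 = true := by decide +kernel
theorem bR1 : SC.Fs.bR SBs6R2.D 8 SAs6.D 3 = true := by decide +kernel
theorem bR2 : SC.Fs.bR SBs6R3.D 13 SAs6.D 8 = true := by decide +kernel
theorem bR3 : SC.Fs.bR SBs6R4.D 18 SAs6.D 13 = true := by decide +kernel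
theorem mo : SC.Fs.X.moD SBs6K1.D 3 = true := by decide +kernel

theorem sx : ∀ j < 18, SC.Fs.x.sheet.At SAs6.D SC.Fs.x.R j := fun j hj => Sheet.At.left (SAs6.rowsSASL j hj)

/-- **the checks of the data** -/
theorem dat : SC.Fs.Dat c where
  hm := Tp12.msh sx
  nc := by decide
  a0 := rfl
  an := rfl
  lt := lowS (lowS (lowS (lowS low0 (by decide)) (by decide)) (by decide)) (by decide)
  sK := allS (allS (allS (allS all0 SBs6K1.rows) SBs6K2.rows) SBs6K3.rows) SBs6K4.rows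
  bK := allS (allS (allS (allS all0 bK1) bK2) bK3) bK4
  bN := nbrS (nbrS (nbrS nbr0 bN1) bN2) bN3
  mo := mo
  sR := allS (allS (allS (allS all0 SBs6R1.rows) SBs6R2.rows) SBs6R3.rows) SBs6R4.rows
  bR := lowS (lowS (lowS (lowS low0 bR0) bR1) bR2) bR3

end Pool.Agent.RZ.RCO.SCs6
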