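import Pool.Agent.RZ.RCO.EdG
import Pool.Agent.RZ.RCO.EdM
import Pool.Agent.RZ.RCO.SKs6

/-! Generated: the end of the big cell 6, star (MP_73ccd0_lc). -/

set_option autoImplicit false
set_option maxRecDepth 100000

open Pool.Agent.RZ.RCO

namespace Pool.Agent.RZ.RCO.ECs6

def qA : ℕ → ℤ := fun l => match l with
  | 0 => 0
  | 1 => 2306864
  | 2 => 4613728
  | 3 => 6920608
  | 4 => 9227472
  | _ => 0

def q : Ec0 := ⟨4, 9227472, 1342208, qA, 0⟩

def djH : ℕ → ℕ := fun l => match l with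
  | 0 => 1342208
  | 1 => 482328
  | 2 => 482328
  | 3 => 461373
  | 4 => 461373
  | 5 => 461372
  | 6 => 461373
  | 7 => 461373
  | 8 => 461376
  | 9 => 461376
  | 10 => 461376
  | 11 => 461376
  | 12 => 461376
  | 13 => 461373
  | 14 => 461373
  | 15 => 461372
  | 16 => 461373
  | 17 => 461373
  | _ => 0

def djR : ℕ → ℕ := fun l => match l with
  | 0 => 16777216
  | 1 => 16777216
  | 2 => 16777216
  | 3 => 16777216
  | 4 => 16777216
  | 5 => 16777216
  | 6 => 16777216
  | 7 => 16777216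
  | 8 => 16777216
  | 9 => 16852476
  | 10 => 16970505
  | 11 => 17073616
  | 12 => 17163611
  | 13 => 17242131
  | 14 => 17310958
  | 15 => 17371891
  | 16 => 17426682
  | 17 => 17476702
  | _ => 0

def djW : ℕ → ℕ := fun l => match l with
  | 0 => 18483413
  | 1 => 18209597
  | 2 => 18114416
  | 3 => 18020731
  | 4 => 17932436
  | 5 => 17845355
  | 6 => 17759416
  | 7 => 17674549
  | 8 => 17590690
  | 9 => 17507768
  | 10 => 17425537
  | 11 => 17343653
  | 12 => 17261997
  | 13 => 17180588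
  | 14 => 17099436
  | 15 => 17018537
  | 16 => 16937882
  | 17 => 16857449
  | _ => 0

def djK : ℕ → ℕ := fun l => match l with
  | 0 => 0
  | 1 => 3
  | 2 => 8
  | 3 => 13
  | 4 => 18
  | _ => 0

def dj : Dj := ⟨18, djH, djR, djW, 4, djK, 1342208⟩

def kK : ℕ → ℕ := fun l => match l with
  | 0 => 0
  | 1 => 3
  | 2 => 8
  | 3 => 13
  | 4 => 18
  | _ => 0

def tT : ℕ → ℤ := fun l => match l with
  | 0 => 0
  | 1 => 1342208
  | 2 => 1824536
  | 3 => 2306864
  | 4 => 2768237
  | 5 => 3229610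
  | 6 => 3690982
  | 7 => 4152355
  | 8 => 4613728
  | 9 => 5075104
  | 10 => 5536480
  | 11 => 5997856
  | 12 => 6459232
  | 13 => 6920608
  | 14 => 7381981
  | 15 => 7843354
  | 16 => 8304726
  | 17 => 8766099
  | 18 => 9227472
  | _ => 0

theorem qo : q.ok = true := by decide +kernel
theorem djo : dj.ok = true := by decide +kernel
theorem djt : dj.tie 1024 SCs6.c.D 624 0 2 3 4 5 3 = true := by decide +kernel
theorem djr : dj.rel q = true := by decide +kernel
theorem rel : q.Rel (RTab.tabq 1) 6 := Ec0.relB_of (by decide +kernel)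

def slo : ℕ → (ℕ → ℤ) := fun l => match l with
  | 0 => v6 1367776 3805391 3076606 (-446308) (-427073) 1059222
  | 1 => v6 574025 1833410 1549616 (-157970) 9173 417102
  | 2 => v6 194661 738211 654188 (-21564) 100323 121285
  | 3 => v6 37756 175997 161600 5145 51537 16218
  | _ => fun _ => 0

def shi : ℕ → (ℕ → ℤ) := fun l => match l with
  | 0 => v6 574025 1833410 1549616 (-142847) 62701 417102
  | 1 => v6 194661 738211 654188 (-15921) 123560 121285
  | 2 => v6 37756 175997 161600 14891 59477 16218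
  | 3 => v6 0 0 0 630 0 0
  | _ => fun _ => 0

def slo1 : ℕ → ℤ := v6 905947 2658029 2188154 (-269744) (-142106) 685616

def sJ0 : ℕ → ℤ := fun l => match l with
  | 0 => 0
  | 1 => 0
  | 2 => 0
  | 3 => 0
  | 4 => 14112
  | _ => 0

def sJ1 : ℕ → ℤ := fun l => match l with
  | 0 => 0
  | 1 => 0
  | 2 => 0
  | 3 => 0
  | 4 => 1992
  | _ => 0

def sF0 : ℕ → ℤ := fun l => match l with
  | 0 => 0
  | 1 => 0
  | 2 => 0
  | 3 => 1197
  | 4 => 23328
  | _ => 0

def sF1 : ℕ → ℤ := fun l => match l with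
  | 0 => 0
  | 1 => 0
  | 2 => 0
  | 3 => 0
  | 4 => 6400
  | _ => 0

def sHm0 : ℕ → ℤ := fun l => match l with
  | 0 => 9334547
  | 1 => 7027683
  | 2 => 4747787
  | 3 => 2403044
  | _ => 0

def sHm1 : ℕ → ℤ := fun l => match l with
  | 0 => 7992339
  | 1 => 7027683
  | 2 => 4747787
  | 3 => 2403044
  | _ => 0

def sHp : ℕ → ℤ := fun l => match l with
  | 0 => 7027683
  | 1 => 4720819
  | 2 => 2387777
  | 3 => 0
  | _ => 0

def stg : ℕ → ℕ → ℤ := fun l => match l with
  | 0 => fun i => match i with | 0 => 0 | 1 => 0 | 2 => 0 | 3 => 0 | 4 => 10 | 5 => 31 | 6 => 0 | 7 => 15 | _ => 0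
  | 1 => fun i => match i with | 0 => 0 | 1 => 0 | 2 => 0 | 3 => 0 | 4 => 18 | 5 => 8 | 6 => 0 | 7 => 0 | _ => 0
  | 2 => fun i => match i with | 0 => 0 | 1 => 0 | 2 => 0 | 3 => 0 | 4 => 0 | 5 => 0 | 6 => 0 | 7 => 0 | _ => 0
  | 3 => fun i => match i with | 0 => 0 | 1 => 0 | 2 => 0 | 3 => 0 | 4 => 0 | 5 => 0 | 6 => 0 | 7 => 0 | _ => 0
  | _ => fun _ => 0

def sML : ℕ → E4 := fun l => match l with
  | 0 => ⟨177539000, 122073350, 185837930, 126836242⟩
  | 1 => ⟨192018250, 124646700, 200317250, 129409767⟩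
  | 2 => ⟨232203050, 146400600, 240502146, 151163750⟩
  | 3 => ⟨298423000, 191258050, 306722205, 196021292⟩
  | _ => ⟨0, 0, 0, 0⟩

def sPL : ℕ → E4 := fun l => match l with
  | 0 => ⟨192018250, 124646700, 200317250, 129409767⟩
  | 1 => ⟨232203050, 146400600, 240502146, 151163750⟩
  | 2 => ⟨298423000, 191258050, 306722205, 196021292⟩
  | 3 => ⟨392044150, 259588100, 400343463, 264351434⟩
  | _ => ⟨0, 0, 0, 0⟩

def sMF : ℕ → E4 := fun l => match l with
  | 0 => ⟨742592439, 575637134, 769993604, 592611418⟩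
  | 1 => ⟨623701084, 533303097, 642664718, 547505261⟩
  | 2 => ⟨551167150, 442145550, 564289963, 451118200⟩
  | 3 => ⟨514895800, 382525900, 524452425, 388374455⟩
  | _ => ⟨0, 0, 0, 0⟩

def sPF : ℕ → E4 := fun l => match l with
  | 0 => ⟨586092612, 509847981, 605273633, 523386352⟩
  | 1 => ⟨489205750, 398871800, 503606055, 408471371⟩
  | 2 => ⟨425381250, 316299800, 436161505, 322929892⟩
  | 3 => ⟨393962350, 260805900, 402785655, 265921134⟩
  | _ => ⟨0, 0, 0, 0⟩

def su : EhN := ⟨kK, tT, slo, shi, slo1, sJ0, sJ1, sF0, sF1, sHm0, sHm1, sHp, stg, sML, sPL, sMF, sPF⟩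

def stn : ℕ → ℤ := fun l => match l with
  | 0 => 0
  | 1 => 0
  | 2 => 0
  | 3 => 0
  | 4 => 0
  | 5 => 0
  | _ => 0

noncomputable def sh : Ehk := SC.Fs.xc SCs6.c RecK.rk SKs6.e su

theorem scd : sh.cd.ck q = true := by decide +kernel
theorem sLS : (sh.L true (RTab.rr RT.kSL 6)).ckS q = true := by decide +kernel
theorem sLT : (sh.L true (RTab.rr RT.kSL 6)).ckT q = true := by decide +kernel
theorem sFS : (sh.F true (RTab.rr RT.kSF 6)).ckS q = true := by decide +kernel
theorem sFT : (sh.F true (RTab.rr RT.kSF 6)).ckT q = true := by decide +kernel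
theorem sj : sh.ckJ q.n dj 6329625 7510604 = true := by decide +kernel
theorem sms : sh.msB q.n = true := by decide +kernel
theorem snl : sh.nck true q 6329625 7510604 1163830 stn = true := by decide +kernel

/-- **the checks of the numbers** -/
theorem sH : HCel sh q true dj 6329625 7510604 (RTab.rr RT.kSL 6) (RTab.rr RT.kSF 6) 6 :=
  ⟨⟨qo, scd, rfl, rfl, rfl, sLS, sLT, sFS, sFT⟩, Ehk.msB_of sms, sj, fun h => absurd h (by decide)⟩

end Pool.Agent.RZ.RCO.ECs6
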