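import Pool.Agent.RZ.RCO.Gg9
import Pool.Agent.RZ.RCO.SAsdB
import Pool.Agent.RZ.RCO.SBs7K
import Pool.Agent.RZ.RCO.SBs7R
import Pool.Agent.RZ.RCO.SCr

/-! The tables of a cell (MP_73ccd0_lc). -/

set_option autoImplicit false
set_option maxRecDepth 100000

namespace Pool.Agent.RZ.RCO.SCs7

open Sg

def a : ℕ → ℕ := fun l => match l with | 0 => 0 | 1 => 4 | 2 => 10 | 3 => 16 | _ => 22
def K : ℕ → ℕ := fun l => match l with | 0 => 0 | 1 => SBs7K1.D | 2 => SBs7K2.D | 3 => SBs7K3.D | _ => SBs7K4.D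
def R : ℕ → ℕ := fun l => match l with | 0 => 0 | 1 => SBs7R1.D | 2 => SBs7R2.D | 3 => SBs7R3.D | _ => SBs7R4.D

/-- the data of the cell -/
def c : Cdc := ⟨SAs7.D, 22, 4, a, K, R⟩

theorem bK1 : SC.Fs.bK SBs7K1.D 4 SAs7.D = true := by decide +kernel
theorem bK2 : SC.Fs.bK SBs7K2.D 10 SAs7.D = true := by decide +kernel
theorem bK3 : SC.Fs.bK SBs7K3.D 16 SAs7.D = true := by decide +kernel
theorem bK4 : SC.Fs.bK SBs7K4.D 22 SAs7.D = true := by decide +kernel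
theorem bN1 : SC.Fs.bN SBs7K1.D 4 SBs7K2.D 10 = true := by decide +kernel
theorem bN2 : SC.Fs.bN SBs7K2.D 10 SBs7K3.D 16 = true := by decide +kernel
theorem bN3 : SC.Fs.bN SBs7K3.D 16 SBs7K4.D 22 = true := by decide +kernel
theorem bR0 : SC.Fs.bR SBs7R1.D 4 SAs7.D 0 = true := by decide +kernel
theorem bR1 : SC.Fs.bR SBs7R2.D 10 SAs7.D 4 = true := by decide +kernel
theorem bR2 : SC.Fs.bR SBs7R3.D 16 SAs7.D 10 = true := by decide +kernel
theorem bR3 : SC.Fs.bR SBs7R4.D 22 SAs7.D 16 = true := by decide +kernel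
theorem mo : SC.Fs.X.moD SBs7K1.D 4 = true := by decide +kernel

theorem sx : ∀ j < 22, SC.Fs.x.sheet.At SAs7.D SC.Fs.x.R j := fun j hj => Sheet.At.left (SAs7.rowsSASL j hj)

/-- **the checks of the data** -/
theorem dat : SC.Fs.Dat c where
  hm := Tp12.msh sx
  nc := by decide
  a0 := rfl
  an := rfl
  lt := lowS (lowS (lowS (lowS low0 (by decide)) (by decide)) (by decide)) (by decide)
  sK := allS (allS (allS (allS all0 SBs7K1.rows) SBs7K2.rows) SBs7K3.rows) SBs7K4.rows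
  bK := allS (allS (allS (allS all0 bK1) bK2) bK3) bK4
  bN := nbrS (nbrS (nbrS nbr0 bN1) bN2) bN3
  mo := mo
  sR := allS (allS (allS (allS all0 SBs7R1.rows) SBs7R2.rows) SBs7R3.rows) SBs7R4.rows
  bR := lowS (lowS (lowS (lowS low0 bR0) bR1) bR2) bR3

end Pool.Agent.RZ.RCO.SCs7
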