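import Pool.Agent.RZ.RCO.KsD7
import Pool.Agent.RZ.RCO.SCk
import Pool.Agent.RZ.RCO.SCs7

/-! The sums of level 2 of a cell (MP_73ccd0_lc). -/

set_option autoImplicit false
set_option maxRecDepth 100000

namespace Pool.Agent.RZ.RCO.SKs7

open Sg

def d12 : ℕ → ℕ := fun l => match l with | 0 => 0 | 1 => Ks12_7_1.D | 2 => Ks12_7_2.D | 3 => Ks12_7_3.D | _ => Ks12_7_4.D
def d13 : ℕ → ℕ := fun l => match l with | 0 => 0 | 1 => Ks13_7_1.D | 2 => Ks13_7_2.D | 3 => Ks13_7_3.D | _ => Ks13_7_4.D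

/-- the data of the sums of level 2 -/
def e : Cdk := ⟨d12, d13, d12, d12⟩

theorem b12_1 : SC.rs.r12.bZ SC.Fs.X SC.Fs.X Ks12_7_1.D 4 SBs7K4.D SBs7K1.D = true := by decide +kernel
theorem b12_2 : SC.rs.r12.bZ SC.Fs.X SC.Fs.X Ks12_7_2.D 10 SBs7K4.D SBs7K2.D = true := by decide +kernel
theorem b12_3 : SC.rs.r12.bZ SC.Fs.X SC.Fs.X Ks12_7_3.D 16 SBs7K4.D SBs7K3.D = true := by decide +kernel
theorem b12_4 : SC.rs.r12.bZ SC.Fs.X SC.Fs.X Ks12_7_4.D 22 SBs7K4.D SBs7K4.D = true := by decide +kernel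
theorem b13_1 : SC.rs.r13.bE SC.Fs.X SC.Fs.Y Ks13_7_1.D 4 SBs7K4.D SBs7R1.D = true := by decide +kernel
theorem b13_2 : SC.rs.r13.bE SC.Fs.X SC.Fs.Y Ks13_7_2.D 10 SBs7K4.D SBs7R2.D = true := by decide +kernel
theorem b13_3 : SC.rs.r13.bE SC.Fs.X SC.Fs.Y Ks13_7_3.D 16 SBs7K4.D SBs7R3.D = true := by decide +kernel
theorem b13_4 : SC.rs.r13.bE SC.Fs.X SC.Fs.Y Ks13_7_4.D 22 SBs7K4.D SBs7R4.D = true := by decide +kernel
theorem g12_1 : lnkB Ks12_7_1.D SC.rs.r12.k.R Ks12_7_2.D SC.rs.r12.k.R 4 SC.rs.r12.LG = true := by decide +kernel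
theorem g12_2 : lnkB Ks12_7_2.D SC.rs.r12.k.R Ks12_7_3.D SC.rs.r12.k.R 10 SC.rs.r12.LG = true := by decide +kernel
theorem g12_3 : lnkB Ks12_7_3.D SC.rs.r12.k.R Ks12_7_4.D SC.rs.r12.k.R 16 SC.rs.r12.LG = true := by decide +kernel

/-- **the checks of the data**, columns -/
theorem datC : Crk.DatC SC.Fs SCs7.c SC.rs e where
  s12 := allS (allS (allS (allS all0 Ks12_7_1.rows) Ks12_7_2.rows) Ks12_7_3.rows) Ks12_7_4.rows
  b12 := allS (allS (allS (allS all0 b12_1) b12_2) b12_3) b12_4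
  g12 := nbrS (nbrS (nbrS nbr0 g12_1) g12_2) g12_3
  s13 := allS (allS (allS (allS all0 Ks13_7_1.rows) Ks13_7_2.rows) Ks13_7_3.rows) Ks13_7_4.rows
  b13 := allS (allS (allS (allS all0 b13_1) b13_2) b13_3) b13_4

end Pool.Agent.RZ.RCO.SKs7
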