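import Pool.Agent.RZ.RCO.EdG
import Pool.Agent.RZ.RCO.EdM
import Pool.Agent.RZ.RCO.SKs7

/-! Generated: the end of the big cell 7, star (MP_73ccd0_lc). -/

set_option autoImplicit false
set_option maxRecDepth 100000

open Pool.Agent.RZ.RCO

namespace Pool.Agent.RZ.RCO.ECs7

def qA : ℕ → ℤ := fun l => match l with
  | 0 => 0
  | 1 => 2600480
  | 2 => 5200944
  | 3 => 7801408
  | 4 => 10401888
  | _ => 0

def q : Ec0 := ⟨4, 10401888, 1174448, qA, 0⟩

def djH : ℕ → ℕ := fun l => match l with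
  | 0 => 1174448
  | 1 => 475344
  | 2 => 475344
  | 3 => 475344
  | 4 => 433411
  | 5 => 433410
  | 6 => 433411
  | 7 => 433411
  | 8 => 433410
  | 9 => 433411
  | 10 => 433411
  | 11 => 433410
  | 12 => 433411
  | 13 => 433411
  | 14 => 433410
  | 15 => 433411
  | 16 => 433413
  | 17 => 433414
  | 18 => 433413
  | 19 => 433413
  | 20 => 433414
  | 21 => 433413
  | _ => 0

def djR : ℕ → ℕ := fun l => match l with
  | 0 => 16777216
  | 1 => 16777216
  | 2 => 16777216
  | 3 => 16777216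
  | 4 => 16777216
  | 5 => 16777216
  | 6 => 16777216
  | 7 => 16777216
  | 8 => 16777216
  | 9 => 16777216
  | 10 => 16878408
  | 11 => 16986692
  | 12 => 17082010
  | 13 => 17165885
  | 14 => 17239681
  | 15 => 17304876
  | 16 => 17362958
  | 17 => 17415389
  | 18 => 17463547
  | 19 => 17508682
  | 20 => 17551874
  | 21 => 17595476
  | _ => 0

def djW : ℕ → ℕ := fun l => match l with
  | 0 => 18746037
  | 1 => 18494204
  | 2 => 18395598
  | 3 => 18298710
  | 4 => 18203448
  | 5 => 18117936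
  | 6 => 18033636
  | 7 => 17950485
  | 8 => 17868421
  | 9 => 17787386
  | 10 => 17707319
  | 11 => 17627926
  | 12 => 17548903
  | 13 => 17470223
  | 14 => 17391897
  | 15 => 17313935
  | 16 => 17236329
  | 17 => 17159075
  | 18 => 17082152
  | 19 => 17005537
  | 20 => 16929200
  | 21 => 16853105
  | _ => 0

def djK : ℕ → ℕ := fun l => match l with
  | 0 => 0
  | 1 => 4
  | 2 => 10
  | 3 => 16
  | 4 => 22
  | _ => 0

def dj : Dj := ⟨22, djH, djR, djW, 4, djK, 1174448⟩

def kK : ℕ → ℕ := fun l => match l with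
  | 0 => 0
  | 1 => 4
  | 2 => 10
  | 3 => 16
  | 4 => 22
  | _ => 0

def tT : ℕ → ℤ := fun l => match l with
  | 0 => 0
  | 1 => 1174448
  | 2 => 1649792
  | 3 => 2125136
  | 4 => 2600480
  | 5 => 3033891
  | 6 => 3467301
  | 7 => 3900712
  | 8 => 4334123
  | 9 => 4767533
  | 10 => 5200944
  | 11 => 5634355
  | 12 => 6067765
  | 13 => 6501176
  | 14 => 6934587
  | 15 => 7367997
  | 16 => 7801408
  | 17 => 8234821
  | 18 => 8668235
  | 19 => 9101648
  | 20 => 9535061
  | 21 => 9968475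
  | 22 => 10401888
  | _ => 0

theorem qo : q.ok = true := by decide +kernel
theorem djo : dj.ok = true := by decide +kernel
theorem djt : dj.tie 1024 SCs7.c.D 624 0 2 3 4 5 3 = true := by decide +kernel
theorem djr : dj.rel q = true := by decide +kernel
theorem rel : q.Rel (RTab.tabq 1) 7 := Ec0.relB_of (by decide +kernel)

def slo : ℕ → (ℕ → ℤ) := fun l => match l with
  | 0 => v6 2056470 5411270 4295725 (-635889) (-715230) 1633353
  | 1 => v6 821295 2492019 2060780 (-207861) 22890 621446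
  | 2 => v6 267356 977236 848897 (-16158) 160305 179064
  | 3 => v6 49695 228563 207274 9605 81572 23593
  | _ => fun _ => 0

def shi : ℕ → (ℕ → ℤ) := fun l => match l with
  | 0 => v6 821295 2492019 2060780 (-187133) 106561 621446
  | 1 => v6 267356 977236 848897 (-6441) 198869 179064
  | 2 => v6 49695 228563 207274 23879 95288 23593
  | 3 => v6 0 0 0 177 0 0
  | _ => fun _ => 0

def slo1 : ℕ → ℤ := v6 1498632 4092857 3286363 (-433218) (-344086) 1176349

def sJ0 : ℕ → ℤ := fun l => match l with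
  | 0 => 0
  | 1 => 0
  | 2 => 0
  | 3 => 14690
  | 4 => 68037
  | _ => 0

def sJ1 : ℕ → ℤ := fun l => match l with
  | 0 => 0
  | 1 => 0
  | 2 => 0
  | 3 => 3090
  | 4 => 35234
  | _ => 0

def sF0 : ℕ → ℤ := fun l => match l with
  | 0 => 0
  | 1 => 0
  | 2 => 1577
  | 3 => 29807
  | 4 => 94925
  | _ => 0

def sF1 : ℕ → ℤ := fun l => match l with
  | 0 => 0
  | 1 => 0
  | 2 => 0
  | 3 => 12050
  | 4 => 56993
  | _ => 0

def sHm0 : ℕ → ℤ := fun l => match l with
  | 0 => 10562802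
  | 1 => 7962322
  | 2 => 5392128
  | 3 => 2727311
  | _ => 0

def sHm1 : ℕ → ℤ := fun l => match l with
  | 0 => 9388354
  | 1 => 7962322
  | 2 => 5392128
  | 3 => 2727311
  | _ => 0

def sHp : ℕ → ℤ := fun l => match l with
  | 0 => 7962322
  | 1 => 5361858
  | 2 => 2709876
  | 3 => 0
  | _ => 0

def stg : ℕ → ℕ → ℤ := fun l => match l with
  | 0 => fun i => match i with | 0 => 0 | 1 => 0 | 2 => 0 | 3 => 0 | 4 => 26 | 5 => 40 | 6 => 3 | 7 => 23 | _ => 0
  | 1 => fun i => match i with | 0 => 0 | 1 => 0 | 2 => 0 | 3 => 0 | 4 => 5 | 5 => 14 | 6 => 6 | 7 => 0 | _ => 0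
  | 2 => fun i => match i with | 0 => 0 | 1 => 0 | 2 => 0 | 3 => 0 | 4 => 0 | 5 => 0 | 6 => 0 | 7 => 0 | _ => 0
  | 3 => fun i => match i with | 0 => 0 | 1 => 0 | 2 => 0 | 3 => 0 | 4 => 0 | 5 => 0 | 6 => 0 | 7 => 0 | _ => 0
  | _ => fun _ => 0

def sML : ℕ → E4 := fun l => match l with
  | 0 => ⟨242263700, 179050650, 255378592, 187456230⟩
  | 1 => ⟨262936200, 184812000, 276051192, 193217780⟩
  | 2 => ⟨321124350, 220675950, 334239475, 229081842⟩
  | 3 => ⟨417996250, 290172100, 431111509, 298578109⟩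
  | _ => ⟨0, 0, 0, 0⟩

def sPL : ℕ → E4 := fun l => match l with
  | 0 => ⟨262936200, 184812000, 276051192, 193217780⟩
  | 1 => ⟨321124350, 220675950, 334239475, 229081842⟩
  | 2 => ⟨417996250, 290172100, 431111509, 298578109⟩
  | 3 => ⟨556177900, 395413300, 569293309, 403819438⟩
  | _ => ⟨0, 0, 0, 0⟩

def sMF : ℕ → E4 := fun l => match l with
  | 0 => ⟨924986745, 744862237, 967161978, 773184720⟩
  | 1 => ⟨782135858, 674326198, 811204637, 696738541⟩
  | 2 => ⟨710707050, 580481900, 731098550, 595209509⟩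
  | 3 => ⟨695799700, 535056100, 710828046, 545105305⟩
  | _ => ⟨0, 0, 0, 0⟩

def sPF : ℕ → E4 := fun l => match l with
  | 0 => ⟨730229679, 637583987, 759854321, 659236312⟩
  | 1 => ⟨623979818, 516227531, 646737001, 532325527⟩
  | 2 => ⟨567122900, 436088750, 584394930, 447696888⟩
  | 3 => ⟨560205300, 398452950, 574281300, 407549809⟩
  | _ => ⟨0, 0, 0, 0⟩

def su : EhN := ⟨kK, tT, slo, shi, slo1, sJ0, sJ1, sF0, sF1, sHm0, sHm1, sHp, stg, sML, sPL, sMF, sPF⟩

def stn : ℕ → ℤ := fun l => match l with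
  | 0 => 0
  | 1 => 0
  | 2 => 0
  | 3 => 0
  | 4 => 0
  | 5 => 0
  | _ => 0

noncomputable def sh : Ehk := SC.Fs.xc SCs7.c RecK.rk SKs7.e su

theorem scd : sh.cd.ck q = true := by decide +kernel
theorem sLS : (sh.L true (RTab.rr RT.kSL 7)).ckS q = true := by decide +kernel
theorem sLT : (sh.L true (RTab.rr RT.kSL 7)).ckT q = true := by decide +kernel
theorem sFS : (sh.F true (RTab.rr RT.kSF 7)).ckS q = true := by decide +kernel
theorem sFT : (sh.F true (RTab.rr RT.kSF 7)).ckT q = true := by decide +kernel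
theorem sj : sh.ckJ q.n dj 8536188 10189544 = true := by decide +kernel
theorem sms : sh.msB q.n = true := by decide +kernel
theorem snl : sh.nck true q 8536188 10189544 1622244 stn = true := by decide +kernel

/-- **the checks of the numbers** -/
theorem sH : HCel sh q true dj 8536188 10189544 (RTab.rr RT.kSL 7) (RTab.rr RT.kSF 7) 7 :=
  ⟨⟨qo, scd, rfl, rfl, rfl, sLS, sLT, sFS, sFT⟩, Ehk.msB_of sms, sj, fun h => absurd h (by decide)⟩

end Pool.Agent.RZ.RCO.ECs7
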