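import Pool.Agent.RZ.RCO.EdG
import Pool.Agent.RZ.RCO.EdM
import Pool.Agent.RZ.RCO.SKs8

/-! Generated: the end of the big cell 8, star (MP_73ccd0_lc). -/

set_option autoImplicit false
set_option maxRecDepth 100000

open Pool.Agent.RZ.RCO

namespace Pool.Agent.RZ.RCO.ECs8

def qA : ℕ → ℤ := fun l => match l with
  | 0 => 0
  | 1 => 2852128
  | 2 => 5704256
  | 3 => 8556384
  | 4 => 11408512
  | _ => 0

def q : Ec0 := ⟨4, 11408512, 1006656, qA, 0⟩

def djH : ℕ → ℕ := fun l => match l with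
  | 0 => 1006656
  | 1 => 461368
  | 2 => 461368
  | 3 => 461368
  | 4 => 461368
  | 5 => 475355
  | 6 => 475354
  | 7 => 475355
  | 8 => 475355
  | 9 => 475354
  | 10 => 475355
  | 11 => 475355
  | 12 => 475354
  | 13 => 475355
  | 14 => 475355
  | 15 => 475354
  | 16 => 475355
  | 17 => 475355
  | 18 => 475354
  | 19 => 475355
  | 20 => 475355
  | 21 => 475354
  | 22 => 475355
  | _ => 0

def djR : ℕ → ℕ := fun l => match l with
  | 0 => 16777216
  | 1 => 16777216
  | 2 => 16777216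
  | 3 => 16777216
  | 4 => 16777216
  | 5 => 16777216
  | 6 => 16777216
  | 7 => 16777216
  | 8 => 16777216
  | 9 => 16777216
  | 10 => 16897295
  | 11 => 17012985
  | 12 => 17113456
  | 13 => 17200745
  | 14 => 17276704
  | 15 => 17343300
  | 16 => 17402487
  | 17 => 17456124
  | 18 => 17505902
  | 19 => 17553273
  | 20 => 17601224
  | 21 => 17649909
  | 22 => 17698850
  | _ => 0

def djW : ℕ → ℕ := fun l => match l with
  | 0 => 18983709
  | 1 => 18757372
  | 2 => 18656880
  | 3 => 18558253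
  | 4 => 18461395
  | 5 => 18366220
  | 6 => 18269828
  | 7 => 18175037
  | 8 => 18081763
  | 9 => 17989918
  | 10 => 17899419
  | 11 => 17809866
  | 12 => 17720888
  | 13 => 17632478
  | 14 => 17544650
  | 15 => 17457405
  | 16 => 17370736
  | 17 => 17284620
  | 18 => 17199028
  | 19 => 17113918
  | 20 => 17029242
  | 21 => 16944943
  | 22 => 16860954
  | _ => 0

def djK : ℕ → ℕ := fun l => match l with
  | 0 => 0
  | 1 => 5
  | 2 => 11
  | 3 => 17
  | 4 => 23
  | _ => 0

def dj : Dj := ⟨23, djH, djR, djW, 4, djK, 1006656⟩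

def kK : ℕ → ℕ := fun l => match l with
  | 0 => 0
  | 1 => 5
  | 2 => 11
  | 3 => 17
  | 4 => 23
  | _ => 0

def tT : ℕ → ℤ := fun l => match l with
  | 0 => 0
  | 1 => 1006656
  | 2 => 1468024
  | 3 => 1929392
  | 4 => 2390760
  | 5 => 2852128
  | 6 => 3327483
  | 7 => 3802837
  | 8 => 4278192
  | 9 => 4753547
  | 10 => 5228901
  | 11 => 5704256
  | 12 => 6179611
  | 13 => 6654965
  | 14 => 7130320
  | 15 => 7605675
  | 16 => 8081029
  | 17 => 8556384
  | 18 => 9031739
  | 19 => 9507093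
  | 20 => 9982448
  | 21 => 10457803
  | 22 => 10933157
  | 23 => 11408512
  | _ => 0

theorem qo : q.ok = true := by decide +kernel
theorem djo : dj.ok = true := by decide +kernel
theorem djt : dj.tie 1024 SCs8.c.D 624 0 2 3 4 5 3 = true := by decide +kernel
theorem djr : dj.rel q = true := by decide +kernel
theorem rel : q.Rel (RTab.tabq 1) 8 := Ec0.relB_of (by decide +kernel)

def slo : ℕ → (ℕ → ℤ) := fun l => match l with
  | 0 => v6 2890795 7279460 5722950 (-836417) (-1120872) 2349622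
  | 1 => v6 1098929 3197893 2597253 (-252518) 13234 854376
  | 2 => v6 345084 1220718 1041309 (-6569) 217412 242684
  | 3 => v6 62152 279973 250977 14624 111482 31636
  | _ => fun _ => 0

def shi : ℕ → (ℕ → ℤ) := fun l => match l with
  | 0 => v6 1098929 3197893 2597253 (-228505) 123427 854376
  | 1 => v6 345084 1220718 1041309 9650 270963 242684
  | 2 => v6 62152 279973 250977 31558 135483 31636
  | 3 => v6 0 0 0 0 0 0
  | _ => fun _ => 0

def slo1 : ℕ → ℤ := v6 2258358 5838875 4619739 (-621855) (-681697) 1821877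

def sJ0 : ℕ → ℤ := fun l => match l with
  | 0 => 0
  | 1 => 0
  | 2 => 9727
  | 3 => 58707
  | 4 => 228659
  | _ => 0

def sJ1 : ℕ → ℤ := fun l => match l with
  | 0 => 0
  | 1 => 0
  | 2 => 1759
  | 3 => 35755
  | 4 => 116218
  | _ => 0

def sF0 : ℕ → ℤ := fun l => match l with
  | 0 => 0
  | 1 => 611
  | 2 => 29907
  | 3 => 97816
  | 4 => 283782
  | _ => 0

def sF1 : ℕ → ℤ := fun l => match l with
  | 0 => 0
  | 1 => 0
  | 2 => 14230
  | 3 => 68611
  | 4 => 166317
  | _ => 0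

def sHm0 : ℕ → ℤ := fun l => match l with
  | 0 => 11624085
  | 1 => 8788969
  | 2 => 5946610
  | 3 => 3008806
  | _ => 0

def sHm1 : ℕ → ℤ := fun l => match l with
  | 0 => 10617429
  | 1 => 8788969
  | 2 => 5946610
  | 3 => 3008806
  | _ => 0

def sHp : ℕ → ℤ := fun l => match l with
  | 0 => 8771957
  | 1 => 5916427
  | 2 => 2988185
  | 3 => 0
  | _ => 0

def stg : ℕ → ℕ → ℤ := fun l => match l with
  | 0 => fun i => match i with | 0 => 0 | 1 => 0 | 2 => 0 | 3 => 0 | 4 => 49 | 5 => 48 | 6 => 26 | 7 => 32 | _ => 0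
  | 1 => fun i => match i with | 0 => 0 | 1 => 0 | 2 => 0 | 3 => 0 | 4 => 36 | 5 => 17 | 6 => 8 | 7 => 8 | _ => 0
  | 2 => fun i => match i with | 0 => 0 | 1 => 0 | 2 => 0 | 3 => 0 | 4 => 0 | 5 => 0 | 6 => 0 | 7 => 0 | _ => 0
  | 3 => fun i => match i with | 0 => 0 | 1 => 0 | 2 => 0 | 3 => 0 | 4 => 0 | 5 => 0 | 6 => 0 | 7 => 0 | _ => 0
  | _ => fun _ => 0

def sML : ℕ → E4 := fun l => match l with
  | 0 => ⟨313341600, 244381200, 332444934, 257678405⟩
  | 1 => ⟨341364650, 254979600, 360468113, 268277030⟩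
  | 2 => ⟨421767150, 309115450, 440870775, 322413021⟩
  | 3 => ⟨556279950, 410860850, 575383742, 424158563⟩
  | _ => ⟨0, 0, 0, 0⟩

def sPL : ℕ → E4 := fun l => match l with
  | 0 => ⟨341364650, 254979600, 360468113, 268277030⟩
  | 1 => ⟨421767150, 309115450, 440870775, 322413021⟩
  | 2 => ⟨556279950, 410860850, 575383742, 424158563⟩
  | 3 => ⟨751681250, 562731800, 770785230, 576029671⟩
  | _ => ⟨0, 0, 0, 0⟩

def sMF : ℕ → E4 := fun l => match l with
  | 0 => ⟨1124027554, 931788552, 1184756267, 975255039⟩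
  | 1 => ⟨953296475, 830377914, 994925275, 863697062⟩
  | 2 => ⟨886602550, 737472650, 916052742, 759777317⟩
  | 3 => ⟨903123800, 717280450, 924969884, 732938388⟩
  | _ => ⟨0, 0, 0, 0⟩

def sPF : ℕ → E4 := fun l => match l with
  | 0 => ⟨885832820, 777837831, 929007667, 810300226⟩
  | 1 => ⟨772287143, 648813949, 805685388, 673681349⟩
  | 2 => ⟨727930150, 578123850, 753460571, 596508746⟩
  | 3 => ⟨758874200, 568617850, 779553730, 583109234⟩
  | _ => ⟨0, 0, 0, 0⟩

def su : EhN := ⟨kK, tT, slo, shi, slo1, sJ0, sJ1, sF0, sF1, sHm0, sHm1, sHp, stg, sML, sPL, sMF, sPF⟩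

def stn : ℕ → ℤ := fun l => match l with
  | 0 => 0
  | 1 => 0
  | 2 => 0
  | 3 => 0
  | 4 => 0
  | 5 => 0
  | _ => 0

noncomputable def sh : Ehk := SC.Fs.xc SCs8.c RecK.rk SKs8.e su

theorem scd : sh.cd.ck q = true := by decide +kernel
theorem sLS : (sh.L true (RTab.rr RT.kSL 8)).ckS q = true := by decide +kernel
theorem sLT : (sh.L true (RTab.rr RT.kSL 8)).ckT q = true := by decide +kernel
theorem sFS : (sh.F true (RTab.rr RT.kSF 8)).ckS q = true := by decide +kernel
theorem sFT : (sh.F true (RTab.rr RT.kSF 8)).ckT q = true := by decide +kernel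
theorem sj : sh.ckJ q.n dj 10947516 13141682 = true := by decide +kernel
theorem sms : sh.msB q.n = true := by decide +kernel
theorem snl : sh.nck true q 10947516 13141682 2143385 stn = true := by decide +kernel

/-- **the checks of the numbers** -/
theorem sH : HCel sh q true dj 10947516 13141682 (RTab.rr RT.kSL 8) (RTab.rr RT.kSF 8) 8 :=
  ⟨⟨qo, scd, rfl, rfl, rfl, sLS, sLT, sFS, sFT⟩, Ehk.msB_of sms, sj, fun h => absurd h (by decide)⟩

end Pool.Agent.RZ.RCO.ECs8
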