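import Pool.Agent.RZ.RCO.EdG
import Pool.Agent.RZ.RCO.EdM
import Pool.Agent.RZ.RCO.SKs9

/-! Generated: the end of the big cell 9, star (MP_73ccd0_lc). -/

set_option autoImplicit false
set_option maxRecDepth 100000

open Pool.Agent.RZ.RCO

namespace Pool.Agent.RZ.RCO.ECs9

def qA : ℕ → ℤ := fun l => match l with
  | 0 => 0
  | 1 => 3082816
  | 2 => 6165632
  | 3 => 9248448
  | 4 => 12331264
  | _ => 0

def q : Ec0 := ⟨4, 12331264, 922784, qA, 0⟩

def djH : ℕ → ℕ := fun l => match l with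
  | 0 => 922784
  | 1 => 540008
  | 2 => 540008
  | 3 => 540008
  | 4 => 540008
  | 5 => 513803
  | 6 => 513802
  | 7 => 513803
  | 8 => 513803
  | 9 => 513802
  | 10 => 513803
  | 11 => 513803
  | 12 => 513802
  | 13 => 513803
  | 14 => 513803
  | 15 => 513802
  | 16 => 513803
  | 17 => 513803
  | 18 => 513802
  | 19 => 513803
  | 20 => 513803
  | 21 => 513802
  | 22 => 513803
  | _ => 0

def djR : ℕ → ℕ := fun l => match l with
  | 0 => 16777216
  | 1 => 16777216
  | 2 => 16777216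
  | 3 => 16777216
  | 4 => 16777216
  | 5 => 16777216
  | 6 => 16777216
  | 7 => 16777216
  | 8 => 16777216
  | 9 => 16884113
  | 10 => 17010324
  | 11 => 17118690
  | 12 => 17211765
  | 13 => 17291904
  | 14 => 17361599
  | 15 => 17423297
  | 16 => 17479287
  | 17 => 17531589
  | 18 => 17582722
  | 19 => 17635357
  | 20 => 17688013
  | 21 => 17741370
  | 22 => 17795284
  | _ => 0

def djW : ℕ → ℕ := fun l => match l with
  | 0 => 19213177
  | 1 => 18996030
  | 2 => 18873147
  | 3 => 18753108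
  | 4 => 18635753
  | 5 => 18520932
  | 6 => 18413901
  | 7 => 18308908
  | 8 => 18205834
  | 9 => 18104567
  | 10 => 18004683
  | 11 => 17905715
  | 12 => 17807584
  | 13 => 17710305
  | 14 => 17613876
  | 15 => 17518282
  | 16 => 17423493
  | 17 => 17329458
  | 18 => 17236124
  | 19 => 17143418
  | 20 => 17051256
  | 21 => 16959556
  | 22 => 16868235
  | _ => 0

def djK : ℕ → ℕ := fun l => match l with
  | 0 => 0
  | 1 => 5
  | 2 => 11
  | 3 => 17
  | 4 => 23
  | _ => 0

def dj : Dj := ⟨23, djH, djR, djW, 4, djK, 922784⟩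

def kK : ℕ → ℕ := fun l => match l with
  | 0 => 0
  | 1 => 5
  | 2 => 11
  | 3 => 17
  | 4 => 23
  | _ => 0

def tT : ℕ → ℤ := fun l => match l with
  | 0 => 0
  | 1 => 922784
  | 2 => 1462792
  | 3 => 2002800
  | 4 => 2542808
  | 5 => 3082816
  | 6 => 3596619
  | 7 => 4110421
  | 8 => 4624224
  | 9 => 5138027
  | 10 => 5651829
  | 11 => 6165632
  | 12 => 6679435
  | 13 => 7193237
  | 14 => 7707040
  | 15 => 8220843
  | 16 => 8734645
  | 17 => 9248448
  | 18 => 9762251
  | 19 => 10276053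
  | 20 => 10789856
  | 21 => 11303659
  | 22 => 11817461
  | 23 => 12331264
  | _ => 0

theorem qo : q.ok = true := by decide +kernel
theorem djo : dj.ok = true := by decide +kernel
theorem djt : dj.tie 1024 SCs9.c.D 624 0 2 3 4 5 3 = true := by decide +kernel
theorem djr : dj.rel q = true := by decide +kernel
theorem rel : q.Rel (RTab.tabq 1) 9 := Ec0.relB_of (by decide +kernel)

def slo : ℕ → (ℕ → ℤ) := fun l => match l with
  | 0 => v6 3946959 9573823 7506360 (-1055065) (-1665235) 3284596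
  | 1 => v6 1419945 3988647 3190629 (-292910) (-31354) 1127297
  | 2 => v6 430264 1478807 1241190 5403 274680 314318
  | 3 => v6 75253 332629 295118 20608 143446 40547
  | _ => fun _ => 0

def shi : ℕ → (ℕ → ℤ) := fun l => match l with
  | 0 => v6 1419945 3988647 3190629 (-262767) 126096 1127297
  | 1 => v6 430264 1478807 1241190 31545 342023 314318
  | 2 => v6 75253 332629 295118 39866 179692 40547
  | 3 => v6 0 0 0 0 0 0
  | _ => fun _ => 0

def slo1 : ℕ → ℤ := v6 3190545 7902004 6214526 (-817905) (-1129033) 2638849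

def sJ0 : ℕ → ℤ := fun l => match l with
  | 0 => 0
  | 1 => 4256
  | 2 => 49960
  | 3 => 138929
  | 4 => 508468
  | _ => 0

def sJ1 : ℕ → ℤ := fun l => match l with
  | 0 => 0
  | 1 => 0
  | 2 => 30407
  | 3 => 106670
  | 4 => 318464
  | _ => 0

def sF0 : ℕ → ℤ := fun l => match l with
  | 0 => 0
  | 1 => 31665
  | 2 => 107893
  | 3 => 222217
  | 4 => 612829
  | _ => 0

def sF1 : ℕ → ℤ := fun l => match l with
  | 0 => 0
  | 1 => 16011
  | 2 => 79143
  | 3 => 182590
  | 4 => 416977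
  | _ => 0

def sHm0 : ℕ → ℤ := fun l => match l with
  | 0 => 12603040
  | 1 => 9552645
  | 2 => 6457289
  | 3 => 3269887
  | _ => 0

def sHm1 : ℕ → ℤ := fun l => match l with
  | 0 => 11680256
  | 1 => 9552645
  | 2 => 6457289
  | 3 => 3269887
  | _ => 0

def sHp : ℕ → ℤ := fun l => match l with
  | 0 => 9520224
  | 1 => 6426995
  | 2 => 3245467
  | 3 => 0
  | _ => 0

def stg : ℕ → ℕ → ℤ := fun l => match l with
  | 0 => fun i => match i with | 0 => 0 | 1 => 7 | 2 => 0 | 3 => 4 | 4 => 67 | 5 => 58 | 6 => 48 | 7 => 44 | _ => 0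
  | 1 => fun i => match i with | 0 => 0 | 1 => 4 | 2 => 0 | 3 => 0 | 4 => 49 | 5 => 25 | 6 => 26 | 7 => 16 | _ => 0
  | 2 => fun i => match i with | 0 => 0 | 1 => 0 | 2 => 0 | 3 => 0 | 4 => 0 | 5 => 0 | 6 => 0 | 7 => 0 | _ => 0
  | 3 => fun i => match i with | 0 => 0 | 1 => 0 | 2 => 0 | 3 => 0 | 4 => 0 | 5 => 0 | 6 => 0 | 7 => 0 | _ => 0
  | _ => fun _ => 0

def sML : ℕ → E4 := fun l => match l with
  | 0 => ⟨396283736, 316328677, 423134403, 335728631⟩
  | 1 => ⟨434162689, 332846532, 461013526, 352246744⟩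
  | 2 => ⟨543543100, 409632150, 570394117, 429032521⟩
  | 3 => ⟨725661300, 550472750, 752512534, 569873300⟩
  | _ => ⟨0, 0, 0, 0⟩

def sPL : ℕ → E4 := fun l => match l with
  | 0 => ⟨434162689, 332846532, 461013526, 352246744⟩
  | 1 => ⟨543543100, 409632150, 570394117, 429032521⟩
  | 2 => ⟨725661300, 550472750, 752512534, 569873300⟩
  | 3 => ⟨996536500, 762738600, 1023387955, 782139334⟩
  | _ => ⟨0, 0, 0, 0⟩

def sMF : ℕ → E4 := fun l => match l with
  | 0 => ⟨1361742370, 1137666004, 1447022380, 1200643095⟩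
  | 1 => ⟨1153377452, 1003506232, 1211900865, 1050135971⟩
  | 2 => ⟨1095413500, 914533100, 1136633400, 946361846⟩
  | 3 => ⟨1156485900, 928619400, 1187182338, 951305484⟩
  | _ => ⟨0, 0, 0, 0⟩

def sPF : ℕ → E4 := fun l => match l with
  | 0 => ⟨1071855890, 936279534, 1133115271, 982672334⟩
  | 1 => ⟨949193019, 799120606, 996939684, 835257856⟩
  | 2 => ⟨922788050, 741363800, 959232209, 768416805⟩
  | 3 => ⟨1008759500, 773081750, 1038069984, 794381880⟩
  | _ => ⟨0, 0, 0, 0⟩

def su : EhN := ⟨kK, tT, slo, shi, slo1, sJ0, sJ1, sF0, sF1, sHm0, sHm1, sHp, stg, sML, sPL, sMF, sPF⟩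

def stn : ℕ → ℤ := fun l => match l with
  | 0 => 0
  | 1 => 0
  | 2 => 0
  | 3 => 0
  | 4 => 0
  | 5 => 0
  | _ => 0

noncomputable def sh : Ehk := SC.Fs.xc SCs9.c RecK.rk SKs9.e su

theorem scd : sh.cd.ck q = true := by decide +kernel
theorem sLS : (sh.L true (RTab.rr RT.kSL 9)).ckS q = true := by decide +kernel
theorem sLT : (sh.L true (RTab.rr RT.kSL 9)).ckT q = true := by decide +kernel
theorem sFS : (sh.F true (RTab.rr RT.kSF 9)).ckS q = true := by decide +kernel
theorem sFT : (sh.F true (RTab.rr RT.kSF 9)).ckT q = true := by decide +kernel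
theorem sj : sh.ckJ q.n dj 13756148 16605775 = true := by decide +kernel
theorem sms : sh.msB q.n = true := by decide +kernel
theorem snl : sh.nck true q 13756148 16605775 2770512 stn = true := by decide +kernel

/-- **the checks of the numbers** -/
theorem sH : HCel sh q true dj 13756148 16605775 (RTab.rr RT.kSL 9) (RTab.rr RT.kSF 9) 9 :=
  ⟨⟨qo, scd, rfl, rfl, rfl, sLS, sLT, sFS, sFT⟩, Ehk.msB_of sms, sj, fun h => absurd h (by decide)⟩

end Pool.Agent.RZ.RCO.ECs9
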