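import Pool.Agent.RZ.RCO.Gk7
import Pool.Agent.RZ.RCO.Gt1

/-! The tables of level 1/2 over time from the checks of the sheet (MP_73ccd0_lc). -/

set_option autoImplicit false

namespace Pool.Agent.RZ.RCO

open Sg Set Sp12

/-! ### the mesh of a table -/

/-- the nodes: sums of the step lengths, which are the entries `iH` -/
noncomputable def tmD (D R iH : ℕ) (j : ℕ) : ℝ := ∑ i ∈ Finset.range j, un D R iH i

theorem tmD_zero (D R iH : ℕ) : tmD D R iH 0 = 0 := rfl

theorem tmD_succ (D R iH j : ℕ) : tmD D R iH (j + 1) - tmD D R iH j = un D R iH j := by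
  unfold tmD
  rw [Finset.sum_range_succ]
  ring

/-- the smallest step of a time -/
noncomputable def ixD (t : ℕ → ℝ) (n : ℕ) (r : ℝ) : ℕ :=
  open Classical in if h : ∃ j, Stp t n j r then Nat.find h else 0

theorem ixD_spec {t : ℕ → ℝ} {n : ℕ} (hm : Msh t n) (hn : 0 < n) {r : ℝ}
    (hr : r ∈ Icc (t 0) (t n)) : Stp t n (ixD t n r) r := by
  obtain ⟨j, hj, hj2⟩ := hm.stepc hn hr
  have h : ∃ j, Stp t n j r := ⟨j, hm, hj, hj2⟩
  classical
  unfold ixD
  rw [dif_pos h]
  exact Nat.find_spec h

/-! ### tables of functions -/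

/-- a table of one function: the entries of the slope, the node value, the used value -/
structure Cf where
  s : ℕ
  w : ℕ
  u : ℕ

noncomputable def Cf.tq (D R : ℕ) (a : Cf) : Tq :=
  ⟨fun j => sn D R a.s j, fun j => sn D R a.w j, fun j => sn D R a.u j⟩

/-- the table of a coefficient; `none` is zero -/
noncomputable def oTq (D R : ℕ) : Option Cf → Tq
  | none => ⟨fun _ => 0, fun _ => 0, fun _ => 0⟩
  | some a => a.tq D R

/-- the checks of a table in a step -/
def Cf.chk (R iH : ℕ) (a : Cf) : List (Re × Re) :=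
  [(ks (R + a.w) + kd 1 1 * (kr iH * (ks a.s + ks (R + a.s))), ks a.w),
    (ks a.w, ks a.u), (ks (R + a.w), ks (R + a.u)),
    (kr iH * (ks (R + a.s) - ks a.s), kc 8 * (ks a.u - ks a.w)),
    (kr iH * (ks (R + a.s) - ks a.s), kc 8 * (ks (R + a.u) - ks (R + a.w)))]

def oChk (R iH : ℕ) : Option Cf → List (Re × Re)
  | none => []
  | some a => a.chk R iH

theorem sn_succ (D R i j : ℕ) : sn D R (R + i) j = sn D R i (j + 1) := by
  unfold sn Sg.sv
  rw [show R * j + (R + i) = R * (j + 1) + i by ring]

theorem oTq_ok {D R iH n : ℕ} {o : Option Cf} (h : ∀ j < n, ∀ a ∈ oChk R iH o, ∀ ρ : ℕ → ℝ,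
    (∀ p, 0 ≤ ρ p) → (∀ p, ρ p ≤ 1) → a.1.val ρ (rwd D R j) ≤ a.2.val ρ (rwd D R j)) :
    (oTq D R o).Ok (tmD D R iH) n := by
  cases o with
  | none =>
    refine ⟨fun j _ => ?_, fun j _ => le_rfl, fun j _ => le_rfl, fun j _ => ?_, fun j _ => ?_⟩ <;>
    · simp [oTq]
  | some a =>
    have z0 : ∀ p : ℕ, (0 : ℝ) ≤ (fun _ : ℕ => (0 : ℝ)) p := fun _ => le_rfl
    have z1 : ∀ p : ℕ, (fun _ : ℕ => (0 : ℝ)) p ≤ 1 := fun _ => zero_le_one
    refine ⟨fun j hj => ?_, fun j hj => ?_, fun j hj => ?_, fun j hj => ?_, fun j hj => ?_⟩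
    · have h1 := h j hj (ks (R + a.w) + kd 1 1 * (kr iH * (ks a.s + ks (R + a.s))), ks a.w)
        (by simp [oChk, Cf.chk]) _ z0 z1
      simp only [re_add, re_mul, kd_val, rwd_kr, rwd_ks, sn_succ] at h1
      rw [tmD_succ]
      refine le_trans (le_of_eq ?_) h1
      simp only [oTq, Cf.tq]
      push_cast
      ring
    · have h1 := h j hj (ks a.w, ks a.u) (by simp [oChk, Cf.chk]) _ z0 z1
      simpa only [rwd_ks, oTq, Cf.tq] using h1
    · have h1 := h j hj (ks (R + a.w), ks (R + a.u)) (by simp [oChk, Cf.chk]) _ z0 z1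
      simpa only [rwd_ks1, oTq, Cf.tq] using h1
    · have h1 := h j hj (kr iH * (ks (R + a.s) - ks a.s), kc 8 * (ks a.u - ks a.w))
        (by simp [oChk, Cf.chk]) _ z0 z1
      simp only [re_sub, re_mul, kc_val, rwd_kr, rwd_ks, sn_succ] at h1
      rw [tmD_succ]
      simp only [oTq, Cf.tq]
      exact_mod_cast h1
    · have h1 := h j hj (kr iH * (ks (R + a.s) - ks a.s),
        kc 8 * (ks (R + a.u) - ks (R + a.w))) (by simp [oChk, Cf.chk]) _ z0 z1
      simp only [re_sub, re_mul, kc_val, rwd_kr, rwd_ks, sn_succ] at h1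
      rw [tmD_succ]
      simp only [oTq, Cf.tq]
      exact_mod_cast h1

/-- an expression for a coefficient -/
def cre (f : Cf → ℕ) (R : ℕ) : Option Cf → Re
  | none => kz
  | some a => ls' R (f a)

/-- coefficients which are linear in the killed mass -/
def cre2 (f : Cf → ℕ) (R : ℕ) (a : ℕ → Option Cf) (i : ℕ) : Re :=
  match a (i + 13) with
  | none => cre f R (a i)
  | some b => cre f R (a i) + eK * ls' R (f b)

/-- forms with coefficients linear in the killed mass and a constant term -/
def FF26 (f : ℕ → ℝ) (p : Pt) : ℝ :=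
  frm (fun i => f i + p.k * f (i + 13)) p + (f 12 + p.k * f 25)

def ft26 (i : ℕ) (p : Pt) : ℝ :=
  if i < 12 then ft12 i p else if i = 12 then 1 else if i < 25 then p.k * ft12 (i - 13) p
    else p.k

theorem lf_26 : Lf FF26 26 ft26 where
  eq := fun f p => by
    unfold FF26
    rw [lf_frm.eq]
    simp only [Finset.sum_range_succ, Finset.sum_range_zero, zero_add]
    unfold ft26
    norm_num
    ring
  nn := fun p h i hi => by
    unfold ft26
    split_ifs with h1 h2 h3
    · exact lf_frm.nn p h i h1
    · exact zero_le_one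
    · exact mul_nonneg h.k0 (lf_frm.nn p h _ (by omega))
    · exact h.k0

section vals

variable {D R iH n j : ℕ} {r : ℝ}

theorem cre_val (f : Cf → ℕ) {t : ℕ → ℝ} (h : Stp t n j r) (k : ℝ) (o : Option Cf) :
    (cre f R o).kv (stc t j r) (rwd D R j) k
      = match o with
        | none => 0
        | some a => sT D R t n (f a) r := by
  cases o with
  | none => exact kz_val _ _
  | some a => exact h.ls rfl _

theorem pl_zero (t : ℕ → ℝ) (n : ℕ) (r : ℝ) : pl t (fun _ => 0) n r = 0 := by
  simp [pl]

/-- slopes -/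
theorem cre_sl {t : ℕ → ℝ} (h : Stp t n j r) (k : ℝ) (o : Option Cf) :
    (cre Cf.s R o).kv (stc t j r) (rwd D R j) k = (oTq D R o).sl t n r := by
  rw [cre_val Cf.s h]
  cases o with
  | none => exact (pl_zero t n r).symm
  | some a => rfl

/-- used values -/
theorem cre_up {t : ℕ → ℝ} (h : Stp t n j r) (k : ℝ) (o : Option Cf) :
    (cre Cf.u R o).kv (stc t j r) (rwd D R j) k = (oTq D R o).up t n r := by
  rw [cre_val Cf.u h]
  cases o with
  | none => exact (pl_zero t n r).symm
  | some a => rfl

theorem cre2_sl {t : ℕ → ℝ} (h : Stp t n j r) (k : ℝ) (a : ℕ → Option Cf) (i : ℕ) :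
    (cre2 Cf.s R a i).kv (stc t j r) (rwd D R j) k
      = (oTq D R (a i)).sl t n r + k * (oTq D R (a (i + 13))).sl t n r := by
  unfold cre2
  cases ha : a (i + 13) with
  | none =>
    simp only
    rw [cre_sl h, show (oTq D R none).sl t n r = 0 from pl_zero t n r, mul_zero, add_zero]
  | some b =>
    simp only
    unfold Sg.Re.kv
    rw [re_add, re_mul, eK_v3]
    exact congrArg₂ (· + ·) (cre_sl h k _) (congrArg₂ (· * ·) rfl (cre_sl h k (some b)))

theorem cre2_up {t : ℕ → ℝ} (h : Stp t n j r) (k : ℝ) (a : ℕ → Option Cf) (i : ℕ) :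
    (cre2 Cf.u R a i).kv (stc t j r) (rwd D R j) k
      = (oTq D R (a i)).up t n r + k * (oTq D R (a (i + 13))).up t n r := by
  unfold cre2
  cases ha : a (i + 13) with
  | none =>
    simp only
    rw [cre_up h, show (oTq D R none).up t n r = 0 from pl_zero t n r, mul_zero, add_zero]
  | some b =>
    simp only
    unfold Sg.Re.kv
    rw [re_add, re_mul, eK_v3]
    exact congrArg₂ (· + ·) (cre_up h k _) (congrArg₂ (· * ·) rfl (cre_up h k (some b)))

/-- the forms of the sheet are the forms of the tables -/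
theorem cf_sl {t : ℕ → ℝ} (h : Stp t n j r) (a : ℕ → Option Cf) (p : Pt) :
    Sp12.cf (cre2 Cf.s R a) (stc t j r) (rwd D R j) p
      = FF26 (fun i => (oTq D R (a i)).sl t n r) p := by
  unfold Sp12.cf FF26
  simp only [cre2_sl h]

theorem cf_up {t : ℕ → ℝ} (h : Stp t n j r) (a : ℕ → Option Cf) (p : Pt) :
    Sp12.cf (cre2 Cf.u R a) (stc t j r) (rwd D R j) p
      = FF26 (fun i => (oTq D R (a i)).up t n r) p := by
  unfold Sp12.cf FF26
  simp only [cre2_up h]

end vals

/-! ### the record -/

/-- **the layout of the tables of level 1/2**; the fields `sl us slp usp` of `b` are not used -/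
structure Tp12 where
  b : Sp12
  /-- length of a row, entry of the step length -/
  R : ℕ
  iH : ℕ
  /-- the coefficients of the forms (`26`: features, constant, the same times the killed mass) -/
  a : Bool → ℕ → ℕ → Option Cf
  /-- the pendant vertices -/
  cp : Bool → ℕ → Option Cf
  /-- the convex combinations used at the neighbours -/
  lam : Bool → ℕ → ℕ → Re

namespace Tp12

variable (x : Tp12)

def sp : Sp12 :=
  { x.b with
    sl := fun s l => cre2 Cf.s x.R (x.a s l)
    us := fun s l => cre2 Cf.u x.R (x.a s l)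
    slp := fun s l => cre Cf.s x.R (x.cp s l)
    usp := fun s l => cre Cf.u x.R (x.cp s l) }

/-- equality of weights -/
def weq (v w : Wf) : Bool :=
  allL (fun i => Nat.beq (v.f i) (w.f i)) (List.range 12) && (v.k.length.beq w.k.length
    && ((List.zipWith Nat.beq v.k w.k).all id && Nat.beq v.s w.s))

def sN (s : Bool) (l : ℕ) : List (Re × Re) :=
  (List.range 26).flatMap (fun i => oChk x.R x.iH (x.a s l i)) ++ (oChk x.R x.iH (x.cp s l) ++
    ([(kz, cre Cf.s x.R (x.cp s l)), (rfs (x.lam s l) x.b.N, kc 1), (kc 1, rfs (x.lam s l) x.b.N),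
      (rfs (fun m => x.lam s l m * cre Cf.u x.R (x.cp s m)) x.b.N, x.b.psp s l)] ++
    (List.range 13).map fun i => (rfs (fun m => x.lam s l m * cre2 Cf.u x.R (x.a s m) i) x.b.N,
      x.b.ps s l i)))

/-- the lines of the time part -/
def sheetT : Sheet where
  e := []
  p := []
  f := []
  o := []
  s := [(kd 1 24, kr x.iH)] ++ (List.range x.b.N).flatMap fun l => x.sN true l ++ x.sN false l

/-- all lines -/
def sheet : Sheet := x.sp.sheet.app x.sheetT

/-- the format -/
def okT : Bool :=
  x.sp.ok && allL (fun l => allL (fun m => isT (x.lam true l m) && isP (x.lam true l m)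
    && isT (x.lam false l m) && isP (x.lam false l m)
    && (((x.lam true l m).E.isz && (x.lam false l m).E.isz) || weq (x.b.wv l) (x.b.wv m)))
    (List.range x.b.N)) (List.range x.b.N)

/-- the end values are nonnegative: entries of the row `n` -/
noncomputable def okE (D n : ℕ) : Bool :=
  allL (fun l => allL (fun i => (match x.a true l i with
      | none => true
      | some a => Nat.ble 2147483648 (g D (x.R * n + a.w))) && (match x.a false l i with
      | none => true
      | some a => Nat.ble 2147483648 (g D (x.R * n + a.w)))) (List.range 26)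
    && (match x.cp true l with
      | none => true
      | some a => Nat.ble 2147483648 (g D (x.R * n + a.w))) && (match x.cp false l with
      | none => true
      | some a => Nat.ble 2147483648 (g D (x.R * n + a.w)))) (List.range x.b.N)

end Tp12

end Pool.Agent.RZ.RCO
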