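import Pool.Agent.RZ.RCO.Eg1
import Pool.Agent.RZ.RCO.Gk8

/-! Route P: linear forms at the real vertices of a full world below the linear bounds of the table
(MP_73ccd0_lc). -/

set_option autoImplicit false

namespace Pool.Agent.RZ.RCO

open Set Finset

theorem ten_le_xN : 10 ≤ RCG.xN := by decide

theorem XM_ten : RCG.XM ≤ 1 / 10 := by
  have h : (10 : ℝ) ≤ (RCG.xN : ℝ) := by exact_mod_cast ten_le_xN
  unfold RCG.XM
  exact one_div_le_one_div_of_le (by norm_num) h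

/-- the facts of a real vertex of a full world -/
structure FuF (p : Pt) : Prop where
  m : p.m = 1 - p.k
  k0 : 0 ≤ p.k
  k5 : p.k ≤ 1 / 5
  h0 : 0 ≤ p.h
  h5 : p.h ≤ (1 - p.k) / 5
  q0 : 0 ≤ p.q
  q10 : p.q ≤ (1 - p.k) / 10
  s0 : 0 ≤ p.s
  s10 : p.s ≤ p.h / 10

theorem Fu.f {p : Pt} (h : Fu p) : FuF p := by
  obtain ⟨⟨y, a, b, hs⟩, hf⟩ := h
  have hm : p.m = p.M := by rw [hf]; rfl
  have e : p.m = 1 - p.k := by have := hs.row; linarith
  have h1 := hs.fX.hm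
  have h2 := hs.fX.qm
  have h3 := hs.fX.sh
  have h4 := hs.kX
  have X := XM_ten
  have m0 := hs.f.m0
  have g1 := mul_le_mul_of_nonneg_right X m0
  have g2 := mul_le_mul_of_nonneg_right X hs.f.h0
  rw [e] at h1 h2 g1
  exact ⟨e, hs.k0, by linarith, hs.f.h0, by linarith, hs.f.q0, by linarith, hs.f.s0, by linarith⟩

/-! ### pairs and stars -/

/-- the killed mass is at most `1 / kst`; `st`: the world of a star -/
def kst (st : Bool) : ℤ := bif st then (RCG.xN : ℤ) else ((RCG.xN / 2 : ℕ) : ℤ)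

/-- the number of deleted vertices -/
def ddt (st : Bool) : ℤ := bif st then 1 else 2

/-- the facts of a real vertex of a full world of a pair or of a star -/
structure Fps (st : Bool) (p : Pt) : Prop where
  fu : Fu p
  k : (kst st : ℝ) * p.k ≤ 1
  h : (kst st : ℝ) * p.h ≤ p.m
  q : (RCG.xN : ℝ) * p.q ≤ p.m
  s : (RCG.xN : ℝ) * p.s ≤ p.h
  sq : (kst st : ℝ) * p.s ≤ p.q
  tg : ∀ t : ℝ, 2 * t * p.h - t ^ 2 * (ddt st - p.k) ≤ p.s

theorem kst5 (st : Bool) : 5 ≤ kst st := by revert st; decide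

theorem ddt1 (st : Bool) : 1 ≤ ddt st := by revert st; decide

theorem kst5r (st : Bool) : (5 : ℝ) ≤ kst st := by exact_mod_cast kst5 st

theorem kst0 (st : Bool) : (0 : ℝ) < kst st := by linarith [kst5r st]

theorem kst_XM : (kst false : ℝ) * (2 * RCG.XM) ≤ 1 := by
  have h : (kst false : ℝ) * 2 ≤ (RCG.xN : ℝ) := by
    have : kst false * 2 ≤ (RCG.xN : ℤ) := by decide
    exact_mod_cast this
  have h1 := mul_le_mul_of_nonneg_right h RCG.XM_pos.le
  rw [RCG.xN_mul] at h1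
  linarith

theorem kst_le {st : Bool} {X a b : ℝ} (hX : (kst st : ℝ) * X ≤ 1) (b0 : 0 ≤ b)
    (h : a ≤ X * b) : (kst st : ℝ) * a ≤ b := by
  have h1 := mul_le_mul_of_nonneg_left h (kst0 st).le
  have h2 := mul_le_mul_of_nonneg_right hX b0
  linarith

theorem xN_le {a b : ℝ} (h : a ≤ RCG.XM * b) : (RCG.xN : ℝ) * a ≤ b := by
  have h1 := mul_le_mul_of_nonneg_left h RCG.xN_pos.le
  rwa [← mul_assoc, RCG.xN_mul, one_mul] at h1

/-- **the facts for a pair** -/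
theorem Fu.fp {p : Pt} (h : Fu p) : Fps false p := by
  obtain ⟨⟨y, a, b, hs⟩, hf⟩ := id h
  refine ⟨h, ?_, ?_, xN_le hs.fX.qm, xN_le hs.fX.sh, ?_, fun t => ?_⟩
  · have := mul_le_mul_of_nonneg_left hs.kX (kst0 false).le
    exact this.trans kst_XM
  · exact kst_le kst_XM hs.f.m0 hs.fX.hm
  · exact kst_le kst_XM hs.f.q0 hs.fX.sq
  · have := hs.f.st t
    have e : (ddt false : ℝ) = 2 := by norm_num [ddt]
    rw [e]
    exact this

/-! ### the forms -/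

/-- the coefficients which are used -/
def Fz (f : ℕ → ℝ) : Prop :=
  ∀ i < 26, i ∉ ([0, 1, 2, 4, 9, 15] : List ℕ) → f i = 0

theorem Fz.eq {f : ℕ → ℝ} (hf : Fz f) (p : Pt) :
    FF26 f p = f 0 * p.m + f 1 * (p.k * p.m) + f 2 * p.h + f 15 * (p.k * p.h) + f 4 * p.q
      + f 9 * p.s := by
  have z : ∀ i, i < 26 → i ∉ ([0, 1, 2, 4, 9, 15] : List ℕ) → f i = 0 := hf
  have z3 := z 3 (by decide) (by decide)
  have z5 := z 5 (by decide) (by decide)
  have z6 := z 6 (by decide) (by decide)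
  have z7 := z 7 (by decide) (by decide)
  have z8 := z 8 (by decide) (by decide)
  have z10 := z 10 (by decide) (by decide)
  have z11 := z 11 (by decide) (by decide)
  have z12 := z 12 (by decide) (by decide)
  have z13 := z 13 (by decide) (by decide)
  have z14 := z 14 (by decide) (by decide)
  have z16 := z 16 (by decide) (by decide)
  have z17 := z 17 (by decide) (by decide)
  have z18 := z 18 (by decide) (by decide)
  have z19 := z 19 (by decide) (by decide)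
  have z20 := z 20 (by decide) (by decide)
  have z21 := z 21 (by decide) (by decide)
  have z22 := z 22 (by decide) (by decide)
  have z23 := z 23 (by decide) (by decide)
  have z24 := z 24 (by decide) (by decide)
  have z25 := z 25 (by decide) (by decide)
  unfold FF26 frm
  simp only [Nat.reduceAdd, z3, z5, z6, z7, z8, z10, z11, z12, z13, z14, z16, z17, z18, z19, z20, z21, z22, z23, z24, z25]
  ring

/-- the bound of the table -/
noncomputable def qk (κ a b k : ℝ) : ℝ := (1 - k) * ((1 - κ * k) * a + κ * k * b)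

theorem qk_mono {κ a b a' b' k : ℝ} (k0 : 0 ≤ k) (k1 : k ≤ 1) (κ0 : 0 ≤ κ) (hk : κ * k ≤ 1)
    (ha : a ≤ a') (hb : b ≤ b') : qk κ a b k ≤ qk κ a' b' k := by
  unfold qk
  exact mul_le_mul_of_nonneg_left (add_le_add (mul_le_mul_of_nonneg_left ha (by linarith))
    (mul_le_mul_of_nonneg_left hb (mul_nonneg κ0 k0))) (by linarith)

/-- the eight coefficients of a form: `q = P4 - N4`, `s = P9 - N9` -/
structure F8 where
  f0 : ℝ
  f1 : ℝ
  f2 : ℝ
  f15 : ℝ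
  P4 : ℝ
  N4 : ℝ
  P9 : ℝ
  N9 : ℝ

/-- the number of deleted vertices against the mass, times `κ - 1`, at the end `e` -/
def dnE (st : Bool) (e : ℤ) : ℤ := (kst st - 1) * ddt st + e * (ddt st - 1)

namespace F8

/-- the value at `k = e / κ`, `e = 0, 1`, with the tangents `t9`, `t4` -/
noncomputable def va (st : Bool) (e : ℤ) (t9 t4 : ℝ) (f : F8) : ℝ :=
  f.f0 + e * f.f1 / kst st + f.P4 / RCG.xN
    + max 0 (f.f2 + e * f.f15 / kst st + f.P9 / RCG.xN - 2 * t9 * f.N9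
        - 2 * kst st * t4 * f.N4) / kst st
    + dnE st e / (kst st - 1) * (t9 ^ 2 * f.N9 + kst st * t4 ^ 2 * f.N4)

/-- the interpolation of two forms -/
def ipo (c : ℝ) (f g : F8) : F8 where
  f0 := (1 - c) * f.f0 + c * g.f0
  f1 := (1 - c) * f.f1 + c * g.f1
  f2 := (1 - c) * f.f2 + c * g.f2
  f15 := (1 - c) * f.f15 + c * g.f15
  P4 := (1 - c) * f.P4 + c * g.P4
  N4 := (1 - c) * f.N4 + c * g.N4
  P9 := (1 - c) * f.P9 + c * g.P9
  N9 := (1 - c) * f.N9 + c * g.N9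

theorem va_ipo {st : Bool} {e : ℤ} {t9 t4 c : ℝ} (c0 : 0 ≤ c) (c1 : c ≤ 1) (f g : F8) :
    va st e t9 t4 (ipo c f g) ≤ (1 - c) * va st e t9 t4 f + c * va st e t9 t4 g := by
  have c2 := sub_nonneg.2 c1
  have m1 : ∀ x y : ℝ, max 0 ((1 - c) * x + c * y) ≤ (1 - c) * max 0 x + c * max 0 y := fun x y =>
    max_le (add_nonneg (mul_nonneg c2 (le_max_left _ _)) (mul_nonneg c0 (le_max_left _ _)))
      (add_le_add (mul_le_mul_of_nonneg_left (le_max_right _ _) c2)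
        (mul_le_mul_of_nonneg_left (le_max_right _ _) c0))
  have h := m1 (f.f2 + e * f.f15 / kst st + f.P9 / RCG.xN - 2 * t9 * f.N9
      - 2 * kst st * t4 * f.N4) (g.f2 + e * g.f15 / kst st + g.P9 / RCG.xN - 2 * t9 * g.N9
      - 2 * kst st * t4 * g.N4)
  have e1 : (ipo c f g).f2 + e * (ipo c f g).f15 / kst st + (ipo c f g).P9 / RCG.xN
      - 2 * t9 * (ipo c f g).N9 - 2 * kst st * t4 * (ipo c f g).N4
      = (1 - c) * (f.f2 + e * f.f15 / kst st + f.P9 / RCG.xN - 2 * t9 * f.N9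
          - 2 * kst st * t4 * f.N4)
        + c * (g.f2 + e * g.f15 / kst st + g.P9 / RCG.xN - 2 * t9 * g.N9
          - 2 * kst st * t4 * g.N4) := by
    unfold ipo
    ring
  have h2 := div_le_div_of_nonneg_right h (kst0 st).le
  rw [← e1] at h2
  have e2 : va st e t9 t4 (ipo c f g)
      = (1 - c) * (f.f0 + e * f.f1 / kst st + f.P4 / RCG.xN
          + dnE st e / (kst st - 1) * (t9 ^ 2 * f.N9 + kst st * t4 ^ 2 * f.N4))
        + c * (g.f0 + e * g.f1 / kst st + g.P4 / RCG.xN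
          + dnE st e / (kst st - 1) * (t9 ^ 2 * g.N9 + kst st * t4 ^ 2 * g.N4))
        + max 0 ((ipo c f g).f2 + e * (ipo c f g).f15 / kst st + (ipo c f g).P9 / RCG.xN
      - 2 * t9 * (ipo c f g).N9 - 2 * kst st * t4 * (ipo c f g).N4) / kst st := by
    unfold va ipo
    ring
  rw [e2]
  refine (add_le_add le_rfl h2).trans (le_of_eq ?_)
  unfold va
  ring

end F8

/-- **a form at a real vertex** -/
theorem ff_le {st : Bool} {f : ℕ → ℝ} (hf : Fz f) {p : Pt} (hp : Fps st p) {g : F8} (t9 t4 : ℝ)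
    (e0 : f 0 = g.f0) (e1 : f 1 = g.f1) (e2 : f 2 = g.f2) (e15 : f 15 = g.f15)
    (e4 : f 4 = g.P4 - g.N4) (e9 : f 9 = g.P9 - g.N9) (P4 : 0 ≤ g.P4) (N4 : 0 ≤ g.N4)
    (P9 : 0 ≤ g.P9) (N9 : 0 ≤ g.N9) :
    FF26 f p ≤ qk (kst st) (g.va st 0 t9 t4) (g.va st 1 t9 t4) p.k := by
  have F := hp.fu.f
  have m0 : p.m = 1 - p.k := F.m
  set k := p.k with hkd
  set κ : ℝ := ((kst st : ℤ) : ℝ) with hκd
  have κ0 : 0 < κ := kst0 st
  have κ5 : 5 ≤ κ := kst5r st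
  have N0 := RCG.xN_pos
  have k0 : 0 ≤ k := F.k0
  have k1 : κ * k ≤ 1 := hp.k
  have k2 : 0 ≤ 1 - k := by have := F.k5; linarith
  -- the products
  have a4 : g.P4 * p.q ≤ g.P4 / RCG.xN * p.m := by
    rw [div_mul_eq_mul_div, le_div_iff₀ N0]
    have := mul_le_mul_of_nonneg_left hp.q P4
    linarith
  have a9 : g.P9 * p.s ≤ g.P9 / RCG.xN * p.h := by
    rw [div_mul_eq_mul_div, le_div_iff₀ N0]
    have := mul_le_mul_of_nonneg_left hp.s P9
    linarith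
  have b9 := mul_le_mul_of_nonneg_left (hp.tg t9) N9
  have b4 := mul_le_mul_of_nonneg_left ((mul_le_mul_of_nonneg_left (hp.tg t4) κ0.le).trans hp.sq) N4
  set D : ℝ := ddt st - k with hD
  -- the average of the killed masses
  set u := g.f2 + (0 : ℤ) * g.f15 / κ + g.P9 / RCG.xN - 2 * t9 * g.N9 - 2 * κ * t4 * g.N4 with hu
  set v := g.f2 + (1 : ℤ) * g.f15 / κ + g.P9 / RCG.xN - 2 * t9 * g.N9 - 2 * κ * t4 * g.N4 with hv
  have hκ : 0 ≤ κ * k := mul_nonneg κ0.le k0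
  have hκ' : 0 ≤ 1 - κ * k := by linarith
  have a3 : (g.f2 + k * g.f15 + g.P9 / RCG.xN - 2 * t9 * g.N9 - 2 * κ * t4 * g.N4) * p.h
      ≤ ((1 - κ * k) * (max 0 u / κ) + κ * k * (max 0 v / κ)) * p.m := by
    have e : g.f2 + k * g.f15 + g.P9 / RCG.xN - 2 * t9 * g.N9 - 2 * κ * t4 * g.N4
        = (1 - κ * k) * u + κ * k * v := by
      rw [hu, hv]
      push_cast
      field_simp
      ring
    rw [e]
    have h1 : (1 - κ * k) * u + κ * k * v ≤ (1 - κ * k) * max 0 u + κ * k * max 0 v :=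
      add_le_add (mul_le_mul_of_nonneg_left (le_max_right _ _) hκ')
        (mul_le_mul_of_nonneg_left (le_max_right _ _) hκ)
    have h2 : 0 ≤ (1 - κ * k) * max 0 u + κ * k * max 0 v :=
      add_nonneg (mul_nonneg hκ' (le_max_left _ _)) (mul_nonneg hκ (le_max_left _ _))
    have h3 : p.h ≤ p.m / κ := by
      rw [le_div_iff₀ κ0]
      linarith [hp.h]
    refine (mul_le_mul_of_nonneg_right h1 F.h0).trans
      ((mul_le_mul_of_nonneg_left h3 h2).trans (le_of_eq ?_))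
    field_simp
  -- the number of the deleted vertices
  have a5 : D * (κ - 1) ≤ p.m * ((1 - κ * k) * dnE st 0 + κ * k * dnE st 1) := by
    rw [m0, hD]
    have d0 : (dnE st 0 : ℝ) = (κ - 1) * ddt st := by
      unfold dnE
      push_cast
      ring
    have d1 : (dnE st 1 : ℝ) = (κ - 1) * ddt st + (ddt st - 1) := by
      unfold dnE
      push_cast
      ring
    rw [d0, d1]
    have hd : (0 : ℝ) ≤ ddt st - 1 := by
      have h1 : (1 : ℝ) ≤ ddt st := by exact_mod_cast ddt1 st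
      linarith
    have key : (1 - k) * ((1 - κ * k) * ((κ - 1) * (ddt st : ℝ))
        + κ * k * ((κ - 1) * (ddt st : ℝ) + ((ddt st : ℝ) - 1)))
        - ((ddt st : ℝ) - k) * (κ - 1) = ((ddt st : ℝ) - 1) * k * (1 - κ * k) := by ring
    have := mul_nonneg (mul_nonneg hd k0) hκ'
    linarith
  have κ1 : 0 < κ - 1 := by linarith
  have a6 : D * (t9 ^ 2 * g.N9 + κ * t4 ^ 2 * g.N4)
      ≤ p.m * ((1 - κ * k) * (dnE st 0 / (κ - 1) * (t9 ^ 2 * g.N9 + κ * t4 ^ 2 * g.N4))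
        + κ * k * (dnE st 1 / (κ - 1) * (t9 ^ 2 * g.N9 + κ * t4 ^ 2 * g.N4))) := by
    have n0 : 0 ≤ t9 ^ 2 * g.N9 + κ * t4 ^ 2 * g.N4 :=
      add_nonneg (mul_nonneg (sq_nonneg _) N9) (mul_nonneg (mul_nonneg κ0.le (sq_nonneg _)) N4)
    have h1 : D ≤ p.m * ((1 - κ * k) * dnE st 0 + κ * k * dnE st 1) / (κ - 1) := by
      rw [le_div_iff₀ κ1]
      exact a5
    refine (mul_le_mul_of_nonneg_right h1 n0).trans (le_of_eq ?_)
    field_simp
  rw [hf.eq, e0, e1, e2, e15, e4, e9]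
  have fin : qk κ (g.va st 0 t9 t4) (g.va st 1 t9 t4) k
      = g.f0 * p.m + g.f1 * (k * p.m) + g.P4 / RCG.xN * p.m
      + ((1 - κ * k) * (max 0 u / κ) + κ * k * (max 0 v / κ)) * p.m
      + p.m * ((1 - κ * k) * (dnE st 0 / (κ - 1) * (t9 ^ 2 * g.N9 + κ * t4 ^ 2 * g.N4))
        + κ * k * (dnE st 1 / (κ - 1) * (t9 ^ 2 * g.N9 + κ * t4 ^ 2 * g.N4))) := by
    unfold qk F8.va
    rw [← hκd, ← hu, ← hv, m0]
    push_cast
    field_simp
    ring
  rw [fin]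
  have b4' : g.N4 * (κ * (2 * t4 * p.h - t4 ^ 2 * D)) ≤ g.N4 * p.q := b4
  linarith

/-! ### the integers -/

/-- the value of an integer form at `k = e / κ`, over `cI st * 2 ^ 24`; tangents over `2 ^ 10` -/
def vI (st : Bool) (e u9 u4 F0 F1 F2 F4 F9 F15 : ℤ) : ℤ :=
  (kst st - 1) * (2 ^ 20 * (kst st * (kst st * (RCG.xN : ℤ) * F0 + e * (RCG.xN : ℤ) * F1
      + kst st * max 0 F4))
    + 2 ^ 10 * max 0 (2 ^ 10 * (kst st * (RCG.xN : ℤ) * F2 + e * (RCG.xN : ℤ) * F15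
        + kst st * max 0 F9)
      - 2 * (kst st * (RCG.xN : ℤ)) * (u9 * max 0 (-F9) + kst st * (u4 * max 0 (-F4)))))
    + kst st * kst st * (RCG.xN : ℤ) * dnE st e
      * (u9 * u9 * max 0 (-F9) + kst st * (u4 * u4 * max 0 (-F4)))

/-- the common denominator -/
def cI (st : Bool) : ℤ := kst st * kst st * (RCG.xN : ℤ) * 2 ^ 20 * (kst st - 1)

theorem max0_mul {c : ℝ} (c0 : 0 ≤ c) (x : ℝ) : max 0 (c * x) = c * max 0 x := by
  rw [mul_max_of_nonneg _ _ c0, mul_zero]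

/-- the eight coefficients of an integer form -/
noncomputable def f8 (F : ℕ → ℤ) : F8 where
  f0 := F 0 / 2 ^ 24
  f1 := F 1 / 2 ^ 24
  f2 := F 2 / 2 ^ 24
  f15 := F 15 / 2 ^ 24
  P4 := max 0 (F 4 : ℝ) / 2 ^ 24
  N4 := max 0 (-F 4 : ℝ) / 2 ^ 24
  P9 := max 0 (F 9 : ℝ) / 2 ^ 24
  N9 := max 0 (-F 9 : ℝ) / 2 ^ 24

theorem cI_pos (st : Bool) : (0 : ℝ) < cI st := by
  have : 0 < cI st := by revert st; decide
  exact_mod_cast this

theorem va_int (st : Bool) (e u9 u4 : ℤ) (F : ℕ → ℤ) :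
    (f8 F).va st e (u9 / 2 ^ 10) (u4 / 2 ^ 10)
      = (vI st e u9 u4 (F 0) (F 1) (F 2) (F 4) (F 9) (F 15) : ℤ) / (cI st * 2 ^ 24) := by
  have κ0 := kst0 st
  have κ1 : (0 : ℝ) < kst st - 1 := by linarith [kst5r st]
  have N0 := RCG.xN_pos
  unfold F8.va f8 vI cI
  push_cast
  set κ : ℝ := ((kst st : ℤ) : ℝ)
  set N : ℝ := ((RCG.xN : ℕ) : ℝ)
  set p4 : ℝ := max 0 (F 4 : ℝ)
  set n4 : ℝ := max 0 (-F 4 : ℝ)
  set p9 : ℝ := max 0 (F 9 : ℝ)
  set n9 : ℝ := max 0 (-F 9 : ℝ)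
  have e3 : (F 2 : ℝ) / 2 ^ 24 + e * (F 15 / 2 ^ 24) / κ + p9 / 2 ^ 24 / N
        - 2 * (u9 / 2 ^ 10) * (n9 / 2 ^ 24) - 2 * κ * (u4 / 2 ^ 10) * (n4 / 2 ^ 24)
      = (1 / (2 ^ 34 * (κ * N))) * (2 ^ 10 * (κ * N * F 2 + e * N * F 15 + κ * p9)
        - 2 * (κ * N) * (u9 * n9 + κ * (u4 * n4))) := by
    field_simp
    ring
  rw [e3, max0_mul (by positivity)]
  field_simp
  ring

/-- **a linear form which is interpolated between two integer forms** -/
theorem ff_int {st : Bool} {f : ℕ → ℝ} {F G : ℕ → ℤ} {c : ℝ} (c0 : 0 ≤ c) (c1 : c ≤ 1)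
    (u9 u4 : ℤ)
    (h : ∀ i, f i = (1 - c) * (F i / 2 ^ 24) + c * (G i / 2 ^ 24)) (hf : Fz f) {p : Pt}
    (hp : Fps st p) :
    FF26 f p ≤ qk (kst st)
      (((1 - c) * (vI st 0 u9 u4 (F 0) (F 1) (F 2) (F 4) (F 9) (F 15) : ℤ)
        + c * (vI st 0 u9 u4 (G 0) (G 1) (G 2) (G 4) (G 9) (G 15) : ℤ)) / (cI st * 2 ^ 24))
      (((1 - c) * (vI st 1 u9 u4 (F 0) (F 1) (F 2) (F 4) (F 9) (F 15) : ℤ)
        + c * (vI st 1 u9 u4 (G 0) (G 1) (G 2) (G 4) (G 9) (G 15) : ℤ)) / (cI st * 2 ^ 24))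
      p.k := by
  have c2 := sub_nonneg.2 c1
  have pn : ∀ n : ℤ, (n : ℝ) = max 0 (n : ℝ) - max 0 (-n : ℝ) := fun n => by
    rcases le_total 0 (n : ℝ) with h1 | h1
    · rw [max_eq_right h1, max_eq_left (by linarith)]
      ring
    · rw [max_eq_left h1, max_eq_right (by linarith)]
      ring
  have nn : ∀ x y : ℝ, 0 ≤ (1 - c) * (max 0 x / 2 ^ 24) + c * (max 0 y / 2 ^ 24) := fun x y =>
    add_nonneg (mul_nonneg c2 (div_nonneg (le_max_left _ _) (by positivity)))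
      (mul_nonneg c0 (div_nonneg (le_max_left _ _) (by positivity)))
  have key := ff_le hf hp (g := F8.ipo c (f8 F) (f8 G)) (u9 / 2 ^ 10) (u4 / 2 ^ 10)
    (h 0) (h 1) (h 2) (h 15)
    (by
      rw [h 4]
      show _ = ((1 - c) * (max 0 (F 4 : ℝ) / 2 ^ 24) + c * (max 0 (G 4 : ℝ) / 2 ^ 24))
        - ((1 - c) * (max 0 (-F 4 : ℝ) / 2 ^ 24) + c * (max 0 (-G 4 : ℝ) / 2 ^ 24))
      have h1 := pn (F 4)
      have h2 := pn (G 4)
      linear_combination (1 - c) / 2 ^ 24 * h1 + c / 2 ^ 24 * h2)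
    (by
      rw [h 9]
      show _ = ((1 - c) * (max 0 (F 9 : ℝ) / 2 ^ 24) + c * (max 0 (G 9 : ℝ) / 2 ^ 24))
        - ((1 - c) * (max 0 (-F 9 : ℝ) / 2 ^ 24) + c * (max 0 (-G 9 : ℝ) / 2 ^ 24))
      have h1 := pn (F 9)
      have h2 := pn (G 9)
      linear_combination (1 - c) / 2 ^ 24 * h1 + c / 2 ^ 24 * h2)
    (nn _ _) (nn _ _) (nn _ _) (nn _ _)
  refine key.trans (qk_mono hp.fu.f.k0 (hp.fu.f.k5.trans (by norm_num)) (kst0 st).le hp.k ?_ ?_)
  · refine (F8.va_ipo c0 c1 _ _).trans (le_of_eq ?_)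
    rw [va_int, va_int]
    ring
  · refine (F8.va_ipo c0 c1 _ _).trans (le_of_eq ?_)
    rw [va_int, va_int]
    ring

end Pool.Agent.RZ.RCO
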