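import Pool.Agent.RZ.RCO.Gs17

/-! The systems and the sums of level 2 of a class from the tables of the ends in a cell
(MP_73ccd0_lc). -/

set_option autoImplicit false

namespace Pool.Agent.RZ.RCO

open Set Pool.Agent.RZ.RCRSHalf Pool.Agent.RZ.RCG Pool.Agent.RZ.RCG.Ct
open Pool.Agent.RZ.RCN Pool.Agent.RZ.RCN.K

set_option linter.unusedSectionVars false

/-! ### the coarse nodes -/

/-- the coarse nodes `A` of the mesh `t`, `n` of a cell -/
structure Nds (t : ℕ → ℝ) (n : ℕ) (A : ℕ → ℝ) (nc : ℕ) : Prop where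
  n0 : 0 < nc
  t0 : t 0 = 0
  a0 : A 0 = 0
  an : A nc = t n
  lt : ∀ l < nc, A l < A (l + 1)

/-- the end time of the coarse node `l`, shifted by `z` -/
noncomputable def ag (A : ℕ → ℝ) (z : ℝ) (l : ℕ) : ℝ := max 0 (A l - z)

section nds

variable {t : ℕ → ℝ} {n : ℕ} {A : ℕ → ℝ} {nc : ℕ} {z τ σ : ℝ}

theorem Nds.ge (h : Nds t n A nc) : ∀ {l : ℕ}, 0 < l → l ≤ nc → A 1 ≤ A l := by
  intro l
  induction l with
  | zero => exact fun h => absurd h (lt_irrefl 0)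
  | succ l ih =>
    intro _ h2
    rcases Nat.eq_zero_or_pos l with h3 | h3
    · rw [h3]
    · exact (ih h3 (by omega)).trans (h.lt l (by omega)).le

theorem Nds.le_n (h : Nds t n A nc) : ∀ {l : ℕ}, l ≤ nc → A l ≤ A nc := by
  intro l hl
  obtain ⟨k, rfl⟩ := Nat.exists_eq_add_of_le hl
  clear hl
  have key : ∀ k, (∀ j < l + k, A j < A (j + 1)) → A l ≤ A (l + k) := by
    intro k
    induction k with
    | zero => exact fun _ => le_rfl
    | succ k ih => exact fun hj => (ih fun j h1 => hj j (by omega)).trans (hj (l + k) (by omega)).le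
  exact key k h.lt

theorem ag_zero (h : Nds t n A nc) (z0 : 0 ≤ z) : ag A z 0 = 0 := by
  unfold ag
  rw [h.a0]
  exact max_eq_left (by linarith)

theorem ag_pos (h : Nds t n A nc) (z1 : z < A 1) {l : ℕ} (hl : 0 < l) (hn : l ≤ nc) :
    ag A z l = A l - z := by
  unfold ag
  have := h.ge hl hn
  exact max_eq_right (by linarith)

theorem ag_lt (h : Nds t n A nc) (z0 : 0 ≤ z) (z1 : z < A 1) {l : ℕ} (hl : l < nc) :
    ag A z l < ag A z (l + 1) := by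
  rw [ag_pos h z1 (Nat.succ_pos l) hl]
  rcases Nat.eq_zero_or_pos l with h3 | h3
  · rw [h3, ag_zero h z0]
    linarith
  · rw [ag_pos h z1 h3 hl.le]
    linarith [h.lt l hl]

theorem ag_nonneg (A : ℕ → ℝ) (z : ℝ) (l : ℕ) : 0 ≤ ag A z l := le_max_left _ _

/-- **a class time lies in a coarse cell** -/
theorem ag_ex (h : Nds t n A nc) (z0 : 0 ≤ z) (z1 : z < A 1) (hσ : σ ∈ Icc 0 (A nc - z)) :
    ∃ l < nc, ag A z l ≤ σ ∧ σ ≤ ag A z (l + 1) := by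
  classical
  have n0 := h.n0
  have hex : ∃ l, σ ≤ ag A z (l + 1) := ⟨nc - 1, by
    rw [Nat.sub_add_cancel n0, ag_pos h z1 n0 le_rfl]
    exact hσ.2⟩
  set l := Nat.find hex with hl
  have e1 : σ ≤ ag A z (l + 1) := Nat.find_spec hex
  have e2 : l ≤ nc - 1 := Nat.find_min' hex (by
    rw [Nat.sub_add_cancel n0, ag_pos h z1 n0 le_rfl]
    exact hσ.2)
  refine ⟨l, by omega, ?_, e1⟩
  rcases Nat.eq_zero_or_pos l with h2 | h2
  · rw [h2, ag_zero h z0]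
    exact hσ.1
  · have := Nat.find_min hex (Nat.sub_lt h2 one_pos)
    rw [show l - 1 + 1 = l by omega] at this
    exact (not_le.1 this).le

end nds

/-! ### the ends of one kind -/

section ends

variable {J M Λ Λ' : Type*} [Fintype J] [Nonempty J] [Fintype M] [Nonempty M] [Fintype Λ]
  [Fintype Λ']

/-- **the table systems of the ends of one kind in a cell**: `q l` the end `A l` -/
structure Ends (FF : (ℕ → ℝ) → Pt → ℝ) (N : ℕ) (lq : Bool) (ym : ℝ) (d : T12 Λ') (t : ℕ → ℝ)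
    (n : ℕ) (il : Λ → Λ') (im : M → Λ') (A : ℕ → ℝ) (nc : ℕ) (q : ℕ → TSys J M Λ)
    (Ph : ℕ → ℝ) : Prop where
  ok : ∀ l, 0 < l → l ≤ nc → (q l).Ok FF N lq ym (Ph l)
  e : ∀ l, 0 < l → l ≤ nc → (q l).t (q l).n = A l
  lnk : ∀ l, 0 < l → l ≤ nc → TSys.Lnk FF (q l) d t n il im

/-- **the killed ends**: no end values, the order of two neighbours, the rates do not decrease;
`mm l` the node of the mesh of `q l` at the end before -/
structure EndK (N : ℕ) (ym : ℝ) (A : ℕ → ℝ) (nc : ℕ) (q : ℕ → TSys J M Λ) (mm : ℕ → ℕ)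
    (Ph : ℕ → ℝ) : Prop where
  z : ∀ l, 0 < l → l ≤ nc → (q l).End0 N
  nl : ∀ l, 0 < l → l ≤ nc → (q l).Nl
  adj : ∀ l, 0 < l → l < nc → TSys.Adj ym (q l) (q (l + 1)) (mm (l + 1))
  dec : ∀ l, 0 < l → l < nc → Ph (l + 1) ≤ Ph l
  mo : ∀ y ∈ Icc 0 ym, ∀ ρ ρ', 0 ≤ ρ → ρ ≤ ρ' → ρ' ≤ A 1 → (q 1).E.R ρ y ≤ (q 1).E.R ρ' y

/-- **the end values of the released systems**: above the rows near the end before -/
def Rels (FF : (ℕ → ℝ) → Pt → ℝ) (d : T12 Λ') (t : ℕ → ℝ) (n : ℕ) (im : M → Λ') (A : ℕ → ℝ)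
    (nc : ℕ) (q : ℕ → TSys J M Λ) (η : ℝ) : Prop :=
  ∀ l < nc, ∀ u ∈ Icc (t 0) (t n), A l - η ≤ u → u ≤ A l →
    TSys.Rel FF (q (l + 1)) d t n im u

/-- **the killed system of the end `σ`** in the coarse cell `l` -/
noncomputable def mxE (FF : (ℕ → ℝ) → Pt → ℝ) (q : ℕ → TSys J M Λ) (A : ℕ → ℝ) (l : ℕ)
    (θ z : ℝ) : SysD (J × J) M Λ :=
  if l = 0 then SysD.mix 0 (ag A z 1) θ (SysD.z0 ((q 1).dat FF z)) ((q 1).dat FF z)
  else SysD.mix (ag A z l) (ag A z (l + 1) - ag A z l) θ ((q l).dat FF z) ((q (l + 1)).dat FF z)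

/-- the end time -/
noncomputable def sgE (A : ℕ → ℝ) (l : ℕ) (θ z : ℝ) : ℝ :=
  ag A z l + θ * (ag A z (l + 1) - ag A z l)

/-- the kinks -/
noncomputable def skE (A : ℕ → ℝ) (l : ℕ) (θ z : ℝ) : Finset ℝ :=
  glS (ag A z l) (ag A z (l + 1) - ag A z l) θ {0}

variable {FF : (ℕ → ℝ) → Pt → ℝ} {N : ℕ} {ft : ℕ → Pt → ℝ} {lq : Bool} {ym : ℝ} {d : T12 Λ'}
  {t : ℕ → ℝ} {n : ℕ} {il : Λ → Λ'} {im : M → Λ'} {A : ℕ → ℝ} {nc : ℕ} {q : ℕ → TSys J M Λ}
  {mm : ℕ → ℕ} {Ph : ℕ → ℝ} {z θ : ℝ} {l : ℕ}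

theorem sg_nonneg (hN : Nds t n A nc) (z0 : 0 ≤ z) (z1 : z < A 1) (hl : l < nc) (h0 : 0 ≤ θ) :
    0 ≤ sgE A l θ z :=
  add_nonneg (ag_nonneg _ _ _) (mul_nonneg h0 (sub_nonneg.2 (ag_lt hN z0 z1 hl).le))

/-- the end lies in the table of the next node -/
theorem sg_le (hN : Nds t n A nc) (z0 : 0 ≤ z) (z1 : z < A 1) (hl : l < nc) (h1 : θ ≤ 1) :
    sgE A l θ z + z ≤ A (l + 1) := by
  have e1 := ag_pos hN z1 (Nat.succ_pos l) hl
  have e5 := sub_nonneg.2 (ag_lt hN z0 z1 hl).le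
  have e6 := mul_le_mul_of_nonneg_right h1 e5
  unfold sgE
  linarith

section world

variable {V : Type*} [Fintype V] [DecidableEq V] {Z : Hzd} {sl : ℝ → ℝ → ℝ} {x : V → V → ℝ}
  {P : V → Prop} [DecidablePred P] {A0 D : Finset V} {α τ σ' : ℝ} {S0 : Finset ℝ}
  {ζ : V → V → ℝ → ℝ} {Y Nw : V → ℝ → ℝ} {l1 : Λ'}
  {gp gp' gm gm' : Finset V → V → V → ℝ → ℝ}

/-- **a killed system in a world** -/
theorem Ends.zf (h : Ends FF N lq ym d t n il im A nc q Ph) (hk : EndK N ym A nc q mm Ph)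
    (hN : Nds t n A nc)
    (W : WRw FF N ft sl Z x P A0 D α τ σ' S0 ζ Y Nw d l1 t n z gp gp' gm gm') (xm : XM ≤ ym)
    (hl : l < nc) (z1 : z < A 1) (hτ : A nc ≤ τ + z) (h0 : 0 ≤ θ) (h1 : θ ≤ 1) {S : Finset ℝ}
    (hS : skE A l θ z ⊆ S) :
    (mxE FF q A l θ z).In lq x P D (Z.hh x P) (Tc0 (Z.hh x P) D ζ Y) (sgE A l θ z) S gp gm
      ZF ZF := by
  have z0 : 0 ≤ z := by rw [← hN.t0]; exact W.z0
  have al1 := ag_pos hN z1 (Nat.succ_pos l) hl
  have tot := hN.le_n (l := l + 1) hl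
  have w0 := ag_lt hN z0 z1 hl
  unfold mxE sgE skE at *
  rcases Nat.eq_zero_or_pos l with h3 | h3
  · subst h3
    have ez := ag_zero hN z0
    rw [if_pos rfl, ez]
    rw [ez, sub_zero] at hS
    rw [ez] at w0
    rw [sub_zero]
    refine TSys.fst_zf W (h.ok 1 one_pos hN.n0) (hk.nl 1 one_pos hN.n0) (h.lnk 1 one_pos hN.n0)
      ?_ xm w0 ?_ ?_ h0 h1 (Finset.mem_singleton_self 0) hS
    · intro y hy ρ ρ' h3 h4 h5
      exact hk.mo y hy ρ ρ' (z0.trans h3) h4 (by rw [← h.e 1 one_pos hN.n0]; exact h5)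
    · rw [h.e 1 one_pos hN.n0, al1]
      ring
    · rw [al1]
      linarith
  · have al0 := ag_pos hN z1 h3 hl.le
    have lp := Nat.succ_pos l
    rw [if_neg (by omega)]
    refine TSys.mix_zf W (h.ok l h3 hl.le) (h.ok (l + 1) lp hl) (hk.dec l h3 hl)
      (hk.z l h3 hl.le) (hk.nl l h3 hl.le) (hk.nl (l + 1) lp hl) (hk.adj l h3 hl)
      (h.lnk (l + 1) lp hl) xm (ag_nonneg A z l) (by linarith) ?_ ?_ ?_ h0 h1 hS
    · rw [h.e l h3 hl.le, al0]
      ring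
    · rw [h.e (l + 1) lp hl, al1]
      ring
    · rw [add_sub_cancel, al1]
      linarith

/-- **a released system in a world**: the table of the next node -/
theorem Ends.rel (h : Ends FF N lq ym d t n il im A nc q Ph)
    (hN : Nds t n A nc) {η : ℝ} (hη : 0 ≤ η) (hR : Rels FF d t n im A nc q η)
    (W : WRw FF N ft sl Z x P A0 D α τ σ' S0 ζ Y Nw d l1 t n z gp gp' gm gm') (xm : XM ≤ ym)
    (hl : l < nc) (z1 : z < A 1) (hτ : A nc ≤ τ + z) (h0 : 0 ≤ θ) (h1 : θ ≤ 1) {ρ : ℝ}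
    (hρ : ρ ∈ Icc 0 τ) (hρ2 : ag A z l - η ≤ ρ) (S : Finset ℝ) :
    ((q (l + 1)).dat FF z).In lq x P D (Z.hh x P) (Tc0 (Z.hh x P) D ζ Y) (sgE A l θ z) S gp gm
      (fun X d e => gm X d e ρ) fun X d e => gp X d e ρ := by
  have z0 : 0 ≤ z := by rw [← hN.t0]; exact W.z0
  have tot := hN.le_n (l := l + 1) hl
  have A0 : A l ≤ A nc := hN.le_n hl.le
  have lp := Nat.succ_pos l
  have s0 := sg_nonneg (l := l) (θ := θ) hN z0 z1 hl h0
  have s1 := sg_le hN z0 z1 hl h1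
  have e := h.e (l + 1) lp hl
  rcases Nat.eq_zero_or_pos l with h3 | h3
  · subst h3
    refine TSys.Ok.in_rel (u := t 0) W (h.lnk 1 lp hl) s0 (by linarith) (by rw [e]; exact s1) xm
      (h.ok 1 lp hl) hρ le_rfl ?_ (hR 0 hl (t 0) ?_ ?_ ?_) S
    · rw [hN.t0]
      linarith [hρ.1]
    · refine ⟨le_rfl, ?_⟩
      rw [hN.t0, ← hN.an, ← hN.a0]
      exact A0
    · rw [hN.a0, hN.t0]
      linarith
    · rw [hN.a0, hN.t0]
  · have al0 := ag_pos hN z1 h3 hl.le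
    have ge := hN.ge h3 hl.le
    have u1 : A l - η ≤ min (A l) (ρ + z) := le_min (by linarith) (by rw [al0] at hρ2; linarith)
    have u2 : min (A l) (ρ + z) ≤ A l := min_le_left _ _
    have u3 : t 0 ≤ min (A l) (ρ + z) := by
      rw [hN.t0]
      exact le_min (by linarith) (by linarith [hρ.1])
    have u4 : min (A l) (ρ + z) ≤ t n := by rw [← hN.an]; exact u2.trans A0
    exact TSys.Ok.in_rel (u := min (A l) (ρ + z)) W (h.lnk (l + 1) lp hl) s0 (by linarith)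
      (by rw [e]; exact s1) xm (h.ok (l + 1) lp hl) hρ u3 (min_le_right _ _)
      (hR l hl _ ⟨u3, u4⟩ u1 u2) S

end world

end ends

end Pool.Agent.RZ.RCO
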