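import Pool.Agent.RZ.RCO.Gl2

/-! The row bounds of level 1/2 from edge lines, vertex lines and position lines: the statements at
one time (MP_73ccd0_lc). -/

namespace Pool.Agent.RZ.RCO

open Set Finset Pool.Agent.RZ.RCM

set_option linter.unusedSectionVars false

/-- the full point of a pendant vertex with the weight `x`; `p` belongs to its neighbour -/
def pnd (x : ℝ) (p : Pt) : Pt where
  k := 0
  m := x
  h := x * p.k
  g := x * (p.k * (1 - p.k))
  q := x ^ 2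
  s := x ^ 2 * p.k
  e := x * p.H
  M := x
  H := x * p.k
  G := x * (p.k * (1 - p.k))
  Q := x ^ 2
  S := x ^ 2 * p.k
  E := x * p.H

/-- **an edge line at a vertex** with the killed mass `a` and the full average `b` -/
structure EL (a b : ℝ) (R : ℝ → ℝ) (Rp : ℝ) (G Gp : Pt → ℝ) (c : Ec) : Prop where
  c6 : 0 ≤ c.c6
  c7 : 0 ≤ c.c7
  l : ∀ (q : Pt) (x : ℝ), q.Sat x a b → x * R x * G q ≤ ev c x q.k q.H
  p : ∀ (q : Pt) (x : ℝ), q.Pend x a b → x * Rp * Gp q ≤ ev c x q.k q.H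

/-- the line of a pendant vertex with the weight `x`: its neighbour is real -/
def OLx (Rp : ℝ) (G : ℝ → Pt → ℝ) (c : ℝ) : Prop :=
  ∀ (p : Pt) (x : ℝ), p.Sat x 0 (x * p.k) → Rp * G x p ≤ c

/-- a coefficient vector times a number -/
def Ec.smul (t : ℝ) (c : Ec) : Ec :=
  ⟨t * c.c0, t * c.c1, t * c.c2, t * c.c3, t * c.c4, t * c.c5, t * c.c6, t * c.c7⟩

/-- the sum of two coefficient vectors -/
def Ec.add (c d : Ec) : Ec :=
  ⟨c.c0 + d.c0, c.c1 + d.c1, c.c2 + d.c2, c.c3 + d.c3, c.c4 + d.c4, c.c5 + d.c5, c.c6 + d.c6,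
    c.c7 + d.c7⟩

theorem ev_smul (t : ℝ) (c : Ec) (x k H : ℝ) : ev (c.smul t) x k H = t * ev c x k H := by
  unfold ev Ec.smul
  ring

theorem ev_add (c d : Ec) (x k H : ℝ) : ev (c.add d) x k H = ev c x k H + ev d x k H := by
  unfold ev Ec.add
  ring

theorem sv_smul (t : ℝ) (c : Ec) (p : Pt) : sv (c.smul t) p = t * sv c p := by
  unfold sv Ec.smul
  ring

theorem sv_add (c d : Ec) (p : Pt) : sv (c.add d) p = sv c p + sv d p := by
  unfold sv Ec.add
  ring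

section

variable {a b : ℝ} {R : ℝ → ℝ} {Rp : ℝ} {G G' Gp Gp' : Pt → ℝ} {c c' : Ec}

/-- an edge line for all vertices is one at every vertex -/
theorem ELn.at' (h : ELn R Rp G Gp c) (a b : ℝ) : EL a b R Rp G Gp c :=
  ⟨h.c6, h.c7, fun q x hq => h.l q x a b hq, fun q x hq => h.p q x a b hq⟩

theorem EL.smul {t : ℝ} (t0 : 0 ≤ t) (h : EL a b R Rp G Gp c) :
    EL a b R Rp (fun q => t * G q) (fun q => t * Gp q) (c.smul t) := by
  refine ⟨mul_nonneg t0 h.c6, mul_nonneg t0 h.c7, fun q x hq => ?_, fun q x hq => ?_⟩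
  · rw [ev_smul]
    exact (le_of_eq (by ring)).trans (mul_le_mul_of_nonneg_left (h.l q x hq) t0)
  · rw [ev_smul]
    exact (le_of_eq (by ring)).trans (mul_le_mul_of_nonneg_left (h.p q x hq) t0)

theorem EL.add (h : EL a b R Rp G Gp c) (h' : EL a b R Rp G' Gp' c') :
    EL a b R Rp (fun q => G q + G' q) (fun q => Gp q + Gp' q) (c.add c') := by
  refine ⟨add_nonneg h.c6 h'.c6, add_nonneg h.c7 h'.c7, fun q x hq => ?_, fun q x hq => ?_⟩
  · rw [ev_add, mul_add]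
    exact add_le_add (h.l q x hq) (h'.l q x hq)
  · rw [ev_add, mul_add]
    exact add_le_add (h.p q x hq) (h'.p q x hq)

/-- smaller functions -/
theorem EL.mono (h : EL a b R Rp G Gp c) (R0 : ∀ (q : Pt) (x : ℝ), q.Sat x a b → 0 ≤ R x)
    (Rp0 : 0 ≤ Rp) (hG : ∀ (q : Pt) (x : ℝ), q.Sat x a b → G' q ≤ G q)
    (hp : ∀ (q : Pt) (x : ℝ), q.Pend x a b → Gp' q ≤ Gp q) : EL a b R Rp G' Gp' c :=
  ⟨h.c6, h.c7,
    fun q x hq => (mul_le_mul_of_nonneg_left (hG q x hq) (mul_nonneg hq.x0 (R0 q x hq))).trans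
      (h.l q x hq),
    fun q x hq => (mul_le_mul_of_nonneg_left (hp q x hq) (mul_nonneg hq.x0 Rp0)).trans
      (h.p q x hq)⟩

end

section

variable {V : Type*} [Fintype V] [DecidableEq V]
variable {x : V → V → ℝ} {D F : Finset V} {v i : V} {P : V → Prop}

/-- the weight of a vertex in the full world -/
abbrev mas (x : V → V → ℝ) (D : Finset V) (v : V) : ℝ := fm x (Dᶜ.erase v) v

open Classical in
/-- a function of the vertex and the world: `Φ` of the point at the real vertices, `C` times the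
mass at the pendant ones -/
noncomputable def vf (x : V → V → ℝ) (P : V → Prop) (D : Finset V) (Φ : Pt → ℝ) (C : ℝ) (v : V)
    (F : Finset V) : ℝ := if P v then Φ (pt x D F v) else C * fm x F v

open Classical in
/-- a function of the vertex -/
noncomputable def vo (x : V → V → ℝ) (P : V → Prop) (D : Finset V) (W : Pt → ℝ) (Wp : ℝ → ℝ)
    (v : V) : ℝ := if P v then W (fp x D v) else Wp (mas x D v)

theorem vf_l {Φ : Pt → ℝ} {C : ℝ} (h : P v) (F : Finset V) :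
    vf x P D Φ C v F = Φ (pt x D F v) := if_pos h

theorem vf_p {Φ : Pt → ℝ} {C : ℝ} (h : ¬P v) (F : Finset V) :
    vf x P D Φ C v F = C * fm x F v := if_neg h

theorem vo_l {W : Pt → ℝ} {Wp : ℝ → ℝ} (h : P v) : vo x P D W Wp v = W (fp x D v) := if_pos h

theorem vo_p {W : Pt → ℝ} {Wp : ℝ → ℝ} (h : ¬P v) : vo x P D W Wp v = Wp (mas x D v) := if_neg h

/-- the mass of a pendant vertex -/
theorem mas_pend (hP : RCG.Ct.Wt x P 1) (hi : i ∈ Dᶜ) (hv : ¬P v) (h : x i v ≠ 0) (hiv : i ≠ v) :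
    mas x D v = x i v := by
  have := pend_sum hP hv h (Dᶜ.erase v) fun _ => 1
  simp only [mul_one, if_pos (Finset.mem_erase.2 ⟨hiv, hi⟩ : i ∈ Dᶜ.erase v)] at this
  exact this

theorem fm_pend0 (hP : RCG.Ct.Wt x P 1) (hv : ¬P v) (h : x i v ≠ 0) (hiF : i ∉ F) :
    fm x F v = 0 := by
  have := pend_sum hP hv h F fun _ => 1
  simp only [mul_one, if_neg hiF] at this
  exact this

/-- the full point of a pendant vertex -/
theorem fp_pend (hP : RCG.Ct.Wt x P 1) (hx : Wt x) (hi : i ∈ Dᶜ) (hv : ¬P v) (h : x i v ≠ 0)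
    (hiv : i ≠ v) (hvD : v ∈ Dᶜ) (F : Finset V) : fp x D v = pnd (x i v) (pt x D F i) := by
  have h1 := pt_pend (F := ∅) hP hx hi (Finset.notMem_empty i) hv h hiv hvD
  have e : (pt x D F i).H = hk x D i := hk_eq hx D i
  have c1 : fm x (Dᶜ.erase v) v = x i v := h1.M
  have c2 : fh x (kk x D) (Dᶜ.erase v) v = x i v * kk x D i := h1.H
  have c3 : ft x (kk x D) (Dᶜ.erase v) v = x i v * (kk x D i * (1 - kk x D i)) := h1.G
  have c4 : fQ x (Dᶜ.erase v) v = x i v ^ 2 := h1.Q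
  have c5 : fP x (kk x D) (Dᶜ.erase v) v = x i v ^ 2 * kk x D i := h1.S
  have c6 : fE x D (Dᶜ.erase v) v = x i v * hk x D i := h1.E
  have c7 : kk x D v = 0 := h1.k
  unfold fp pt pnd
  rw [c1, c2, c3, c4, c5, c6, c7]
  have e' : fh x (kk x D) (Dᶜ.erase i) i = hk x D i := hk_eq hx D i
  rw [e']

/-- the neighbour of a pendant vertex -/
theorem pt_satp (hP : RCG.Ct.Wt x P 1) (hx : Wt x) (hD : D.card ≤ 2)
    (hv : v ∈ Dᶜ) (hi : i ∈ Dᶜ) (hiv : i ≠ v) (hPv : P v) (hPi : ¬P i) (h : x i v ≠ 0) :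
    (pt x D (wo D i v) v).Sat (x i v) 0 (x i v * (pt x D (wo D i v) v).k) := by
  have h1 := pt_sat hP hx hD hv hi hiv hPv
  have h0 : x v i ≠ 0 := by rwa [hx.symm v i]
  have h2 := pt_pend (F := ∅) hP hx hv (Finset.notMem_empty v) hPi h0
    (fun e => hiv e.symm) hi
  have k0 : kk x D i = 0 := h2.k
  have hH : hk x D i = x i v * kk x D v := by
    rw [← hk_eq hx D i, hx.symm i v]
    exact h2.H
  rw [k0, hH] at h1
  exact h1

/-- the full world as the world without a vertex of the weight `0` -/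
theorem sat_fp (hP : RCG.Ct.Wt x P 1) (hx : Wt x) (hD : D.card ≤ 2) (hv : v ∈ Dᶜ) (hPv : P v) :
    (fp x D v).Sat 0 0 0 := by
  have h1 := pt_live hP hx hD (erase_sub D v) hv (Finset.notMem_erase v _) hPv
  have r1 := h1.row
  have k0 := h1.k0
  have f := h1.f
  have m0 : (fp x D v).M = (fp x D v).m := rfl
  exact { h1 with
    x0 := le_rfl
    a0 := le_rfl
    b0 := le_rfl
    ax := by norm_num
    ab := by norm_num
    xb := by rw [zero_mul]
    bx := by norm_num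
    mx := by linarith
    m := by rw [add_zero]; rfl
    h := by rw [zero_mul, add_zero]; rfl
    g := by rw [zero_mul, add_zero]; rfl
    q := by rw [zero_pow two_ne_zero, add_zero]; rfl
    s := by rw [zero_pow two_ne_zero, zero_mul, add_zero]; rfl
    e := by rw [zero_mul, add_zero]; rfl
    hkx := fun t => by
      have := f.hk t
      rwa [sub_zero]
    stx := fun t => by
      have := f.st t
      rwa [sub_zero]
    hQx := fun c c0 => by
      have := f.hQ c c0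
      rwa [sub_zero]
    eHx := fun c c0 => by
      have := f.eH c c0
      rwa [sub_zero]
    xX := RCG.XM_pos.le
    aX := by linarith [RCG.XM_pos]
    bX := by linarith [RCG.XM_pos] }

/-- **the edge sum at a real vertex** -/
theorem EL.sum (hP : RCG.Ct.Wt x P 1) (hx : Wt x) (hD : D.card ≤ 2) {hb : V → V → ℝ}
    {R : ℝ → ℝ} {Rp : ℝ} (kr : Krn x P hb R Rp) {G Gp : Pt → ℝ} {c : Ec}
    (hE : EL (kk x D i) (hk x D i) R Rp G Gp c) (hF : F ⊆ Dᶜ) (hi : i ∈ Dᶜ) (hiF : i ∉ F)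
    (hPi : P i) {g : V → ℝ}
    (g0 : ∀ b ∈ F, 0 ≤ g b) (gl : ∀ b ∈ F, P b → g b ≤ G (pt x D (wo D i b) b))
    (gp : ∀ b ∈ F, ¬P b → x i b ≠ 0 → g b ≤ Gp (pt x D (wo D i b) b)) :
    ∑ b ∈ F, hb i b * g b ≤ sv c (pt x D F i) := by
  refine esum hx hD hF hi hiF hE.c6 hE.c7 fun b mb => ?_
  have hbD := hF mb
  have hib : i ≠ b := fun h => hiF (h ▸ mb)
  by_cases h0 : x i b = 0
  · have h1 : hb i b ≤ 0 := by
      by_cases hPb : P b
      · have := kr.l i b hPi hPb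
        rw [h0, zero_mul] at this
        exact this
      · have := kr.p i b fun h => hPb h.2
        rw [h0, zero_mul] at this
        exact this
    have h2 : hb i b * g b ≤ 0 := mul_nonpos_of_nonpos_of_nonneg h1 (g0 b mb)
    have h3 := mul_nonneg hE.c6 (kk_nonneg hx D b)
    have h4 := mul_nonneg hE.c7 (hk_nonneg hx D b)
    unfold ev
    rw [h0, zero_mul]
    linarith
  · by_cases hPb : P b
    · have h1 := hE.l _ _ (pt_sat hP hx hD hbD hi hib hPb)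
      have h2 := mul_le_mul (kr.l i b hPi hPb) (gl b mb hPb) (g0 b mb)
        ((kr.b0 i b).trans (kr.l i b hPi hPb))
      have e : (pt x D (wo D i b) b).H = hk x D b := hk_eq hx D b
      rw [e] at h1
      exact h2.trans h1
    · have h1 := hE.p _ _ (pt_pend (F := wo D i b) hP hx hi
        (fun h => Finset.notMem_erase i _ (Finset.mem_of_mem_erase h)) hPb h0 hib hbD)
      have h2 := mul_le_mul (kr.p i b fun h => hPb h.2) (gp b mb hPb h0) (g0 b mb)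
        ((kr.b0 i b).trans (kr.p i b fun h => hPb h.2))
      have e : (pt x D (wo D i b) b).H = hk x D b := hk_eq hx D b
      rw [e] at h1
      exact h2.trans h1

/-- **the edge sum at a pendant vertex** with the weight -/
theorem OLx.sum (hP : RCG.Ct.Wt x P 1) (hx : Wt x) (hD : D.card ≤ 2) {hb : V → V → ℝ}
    {R : ℝ → ℝ} {Rp : ℝ} (kr : Krn x P hb R Rp) {G : ℝ → Pt → ℝ} {c : ℝ}
    (hE : OLx Rp G c) (hF : F ⊆ Dᶜ) (hi : i ∈ Dᶜ) (hiF : i ∉ F) (hPi : ¬P i) {g : V → ℝ}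
    (g0 : ∀ b ∈ F, 0 ≤ g b)
    (gl : ∀ b ∈ F, P b → x i b ≠ 0 → g b ≤ G (x i b) (pt x D (wo D i b) b)) :
    ∑ b ∈ F, hb i b * g b ≤ c * fm x F i := by
  unfold fm
  rw [Finset.mul_sum]
  refine Finset.sum_le_sum fun b mb => ?_
  have hbD := hF mb
  have hib : i ≠ b := fun h => hiF (h ▸ mb)
  have h1 := kr.p i b fun h => hPi h.1
  by_cases h0 : x i b = 0
  · rw [h0, zero_mul] at h1
    rw [h0, mul_zero]
    exact mul_nonpos_of_nonpos_of_nonneg h1 (g0 b mb)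
  · have hPb : P b := hP.pend b i hPi (by rwa [hx.symm b i])
    have h2 := hE _ _ (pt_satp hP hx hD hbD hi hib hPb hPi h0)
    have h3 := mul_le_mul h1 (gl b mb hPb h0) (g0 b mb) ((kr.b0 i b).trans h1)
    have h4 := mul_le_mul_of_nonneg_left h2 (hx.nn i b)
    calc hb i b * g b ≤ x i b * Rp * G (x i b) (pt x D (wo D i b) b) := h3
      _ = x i b * (Rp * G (x i b) (pt x D (wo D i b) b)) := by ring
      _ ≤ x i b * c := h4
      _ = c * x i b := mul_comm _ _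

/-- the factor of the decreasing sources -/
def bmx (a b : ℝ) : ℝ := max 0 (1 - (1 - a) * (1 - b))

theorem bmx_nonneg (a b : ℝ) : 0 ≤ bmx a b := le_max_left _ _

theorem bmx_mono {a b c d : ℝ} (h : a ≤ c) (h' : b ≤ d) (c1 : c ≤ 1) (d1 : d ≤ 1) :
    bmx a b ≤ bmx c d := by
  unfold bmx
  refine max_le_max le_rfl ?_
  have := mul_le_mul (by linarith : 1 - c ≤ 1 - a) (by linarith : 1 - d ≤ 1 - b)
    (by linarith) (by linarith : 0 ≤ 1 - a)
  linarith

/-- **the bounds of the rates of a world at one time**: `W`, `Wp` bound `exp y`; `Nr`, `Np` bound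
the signed losses -/
structure WBd (x : V → V → ℝ) (P : V → Prop) (D : Finset V) (hb T A B : V → V → ℝ)
    (W : Pt → ℝ) (Wp : ℝ → ℝ) (Nr : Pt → ℝ) (Np : ℝ → ℝ) : Prop where
  W1 : ∀ v ∈ Dᶜ, 1 ≤ vo x P D W Wp v
  T0 : ∀ u w, 0 ≤ T u w
  A0 : ∀ u w, 0 ≤ A u w
  B0 : ∀ u w, 0 ≤ B u w
  Td : ∀ u, T u u = 0
  Ts : ∀ u w, T u w = T w u
  hT : ∀ u ∈ Dᶜ, ∀ w ∈ Dᶜ, T u w
    ≤ hb u w * (vo x P D W Wp u * vo x P D W Wp w)
  hA : ∀ u ∈ Dᶜ, ∀ w ∈ Dᶜ, A u w
    ≤ hb u w * (vo x P D W Wp u * vo x P D W Wp w - 1)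
  hB : ∀ u ∈ Dᶜ, ∀ w ∈ Dᶜ, B u w ≤ hb u w * bmx (vo x P D Nr Np u) (vo x P D Nr Np w)

/-- the functions used at the neighbours: bounded by `Ψ` in the full world and in every world
without one vertex outside the set -/
structure PsB (x : V → V → ℝ) (P : V → Prop) (D : Finset V) (Ψ : Pt → ℝ) (C : ℝ)
    (ψ : V → Finset V → ℝ) : Prop where
  nn : ∀ b ∈ Dᶜ, ∀ G ⊆ Dᶜ, b ∉ G → 0 ≤ ψ b G
  fu : ∀ b ∈ Dᶜ, ∀ G ⊆ Dᶜ, b ∉ G → ψ b G ≤ vf x P D Ψ C b (Dᶜ.erase b)
  ex : ∀ b ∈ Dᶜ, ∀ G ⊆ Dᶜ, b ∉ G → ∀ i ∈ Dᶜ, i ∉ G → i ≠ b → ψ b G ≤ vf x P D Ψ C b (wo D i b)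

end

/-- **the checks of level 1/2 at one time** -/
structure C12 {Λ : Type*} [Fintype Λ] (R : ℝ → ℝ) (Rp : ℝ) (W : Pt → ℝ) (Wp : ℝ → ℝ) (Nr : Pt → ℝ)
    (Np : ℝ → ℝ) (wv : Λ → Pt → ℝ) (Φ Φ' Ψ : Bool → Λ → Pt → ℝ)
    (C C' Cψ : Bool → Λ → ℝ) (Gp Gm : Λ → Λ → ℝ) : Prop where
  vp : ∀ l, ∀ (p : Pt) (x a b : ℝ), p.Sat x a b → ∃ c : Ec, EL p.k p.H R Rp
    (fun q => wv l q.full * (W p.full * W q.full - 1) + W p.full * W q.full * Ψ false l q)
    (fun q => wv l q.full * (W p.full * Wp q.M - 1)) c ∧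
    sv c p + ∑ m, (Gp l m * Φ true m p + Gm l m * Φ false m p) ≤ -Φ' true l p
  vm : ∀ l, ∀ (p : Pt) (x a b : ℝ), p.Sat x a b → ∃ c : Ec, EL p.k p.H R Rp
    (fun q => wv l q.full * bmx (Nr p.full) (Nr q.full) + W p.full * W q.full * Ψ true l q)
    (fun q => wv l q.full * bmx (Nr p.full) (Np q.M)) c ∧
    sv c p + ∑ m, (Gp l m * Φ false m p + Gm l m * Φ true m p) ≤ -Φ' false l p
  pp : ∀ l, ∀ p : Pt, p.Sat 0 0 0 → p = p.full → ∃ c : Ec, EL p.k p.H R Rp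
    (fun q => W p * W q.full * (Ψ true l p + (Ψ true l q + Ψ true l q.full) / 2))
    (fun q => W p * Wp q.M * (Ψ true l p + Cψ true l * q.M / 2)) c ∧
    sv c p ≤ ∑ m, Gp l m * wv m p
  pm : ∀ l, ∀ p : Pt, p.Sat 0 0 0 → p = p.full → ∃ c : Ec, EL p.k p.H R Rp
    (fun q => W p * W q.full * (wv l q.full + (Ψ false l p + (Ψ false l q + Ψ false l q.full) / 2)))
    (fun q => W p * Wp q.M * (wv l q.full + (Ψ false l p + Cψ false l * q.M / 2))) c ∧
    sv c p ≤ ∑ m, Gm l m * wv m p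
  dp : ∀ l, ∃ d, OLx Rp (fun x p => wv l p.full * (Wp x * W p.full - 1)
    + Wp x * W p.full * Ψ false l p) d ∧
    d + ∑ m, (Gp l m * C true m + Gm l m * C false m) ≤ -C' true l
  dm : ∀ l, ∃ d, OLx Rp (fun x p => wv l p.full * bmx (Np x) (Nr p.full)
    + Wp x * W p.full * Ψ true l p) d ∧
    d + ∑ m, (Gp l m * C false m + Gm l m * C true m) ≤ -C' false l
  qp : ∀ l, ∀ (p : Pt) (x : ℝ), p.Sat x 0 (x * p.k) →
    x * Rp * (Wp x * W p.full) * (Cψ true l * x + (Ψ true l p + Ψ true l p.full) / 2)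
      ≤ ∑ m, Gp l m * wv m (pnd x p)
  qm : ∀ l, ∀ (p : Pt) (x : ℝ), p.Sat x 0 (x * p.k) →
    x * Rp * (Wp x * W p.full) * (wv l p.full
      + (Cψ false l * x + (Ψ false l p + Ψ false l p.full) / 2)) ≤ ∑ m, Gm l m * wv m (pnd x p)

end Pool.Agent.RZ.RCO
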