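import Pool.Agent.RZ.RCM.NuB
import Pool.Agent.RZ.RCO.Ex9
import Pool.Agent.RZ.RCO.Gl3

/-! The table of level 0 of a cell: inequalities at the vertices and the edges (MP_73ccd0_lc). -/

namespace Pool.Agent.RZ.RCO

open Set Finset Pool.Agent.RZ.RCRSHalf Pool.Agent.RZ.RCG Pool.Agent.RZ.RCG.Ct
open Pool.Agent.RZ.RCN Pool.Agent.RZ.RCN.K

set_option linter.unusedSectionVars false

/-- the functions of level 0 (first argument = time): `R r x` the rates, `Zt r k` the killing,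
`W r p` the boosts, `FY` the exponents, `FN` the losses -/
structure TabZ where
  R : ℝ → ℝ → ℝ
  Zt : ℝ → ℝ → ℝ
  W : ℝ → Pt → ℝ
  FY : ℝ → Pt → ℝ
  FY' : ℝ → Pt → ℝ
  FN : ℝ → Pt → ℝ
  FN' : ℝ → Pt → ℝ

/-- a full point of a real vertex -/
def Pt.Ful (p : Pt) : Prop := p.Sat 0 0 0 ∧ p = p.full

/-- the inequalities of the table at the time `r` -/
structure TabZ.Chk (T : TabZ) (r : ℝ) : Prop where
  V1 : ∀ p : Pt, p.Ful → ∃ c : Ec, EL p.k p.H (T.R r) 0 (fun q => T.W r q.full - 1)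
    (fun _ => 0) c ∧ sv c p ≤ -T.FN' r p
  V2 : ∀ p : Pt, p.Ful → ∃ c : Ec, EL p.k p.H (T.R r) 0 (fun q => T.FN r q.full)
    (fun _ => 0) c ∧ sv c p ≤ -T.FY' r p

/-- the signs and the exponentials of the table at the time `r` -/
structure TabZ.Sg (T : TabZ) (r : ℝ) : Prop where
  W1 : ∀ p : Pt, p.Ful → Real.exp (T.Zt r p.k + T.FY r p) ≤ T.W r p
  Y0 : ∀ p : Pt, p.Ful → 0 ≤ T.FY r p
  N0 : ∀ p : Pt, p.Ful → 0 ≤ T.FN r p
  N1 : ∀ p : Pt, p.Ful → T.FN r p ≤ 1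

/-- the conditions of the table; `S` the kinks in time -/
structure TabZ.Ok (T : TabZ) (τ : ℝ) (S : Finset ℝ) : Prop where
  chk : ∀ r ∈ Icc 0 τ, r ∉ S → T.Chk r
  sg : ∀ r ∈ Icc 0 τ, T.Sg r
  cY : ∀ p : Pt, p.Ful → ContinuousOn (fun r => T.FY r p) (Icc 0 τ)
  cN : ∀ p : Pt, p.Ful → ContinuousOn (fun r => T.FN r p) (Icc 0 τ)
  dY : ∀ p : Pt, p.Ful → ∀ r ∈ Icc 0 τ, r ∉ S → HasDerivAt (fun r => T.FY r p) (T.FY' r p) r
  dN : ∀ p : Pt, p.Ful → ∀ r ∈ Icc 0 τ, r ∉ S → HasDerivAt (fun r => T.FN r p) (T.FN' r p) r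

section

variable {V : Type*} [Fintype V] [DecidableEq V]

/-- the table majorises the data of the world -/
structure TabZ.At (T : TabZ) (Z : Hzd) (x : V → V → ℝ) (P : V → Prop) [DecidablePred P]
    (A D : Finset V) (τ σ : ℝ) : Prop where
  kr : ∀ r ∈ Icc 0 τ, Krn x P (Z.hh x P r) (T.R r) 0
  hζ : ∀ r ∈ Icc 0 τ, ∀ v ∈ Dᶜ, P v → ∑ w ∈ D, zst Z x P A τ σ w v r ≤ T.Zt r (kk x D v)

variable {Z : Hzd} {x : V → V → ℝ} {P : V → Prop} [DecidablePred P] {sl : ℝ → ℝ → ℝ}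
variable {A D : Finset V} {α τ σ : ℝ} {T : TabZ} {S : Finset ℝ}

/-- **the rates of the pairs**: only real pairs have a rate -/
theorem krn_hhX (hZ : Z.Ok sl) (hx : RCG.Ct.Wt x P 1) {r : ℝ} (hr : r ∈ Icc (0 : ℝ) 1)
    {R : ℝ → ℝ} {Rp : ℝ} (hR : ∀ u v, P u → P v → Z.rr (x u v) r ≤ R (x u v)) :
    Krn x P (Z.hh x P r) R Rp where
  b0 := fun u v => hZ.hh_nonneg hx hr u v
  l := fun u v hu hv => by
    unfold Hzd.hh
    rw [if_pos ⟨hu, hv⟩]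
    exact mul_le_mul_of_nonneg_left (hR u v hu hv) (hx.nonneg u v)
  p := fun u v h => by
    rw [hx.pz u v h, zero_mul]
    exact (Hzd.hh_zero (hx.pz u v h) _).le

/-- no rate at the pendant vertices -/
theorem hh_pz (hx : RCG.Ct.Wt x P 1) {u v : V} (h : ¬(P u ∧ P v)) (r : ℝ) :
    Z.hh x P r u v = 0 := Hzd.hh_zero (hx.pz u v h) r

/-- a full point of a world -/
theorem ful_fp (hx : RCG.Ct.Wt x P 1) (hD : D.card ≤ 2) {v : V} (hv : v ∈ Dᶜ) (hP : P v) :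
    (fp x D v).Ful := ⟨sat_fp hx (wt_of hx) hD hv hP, rfl⟩

/-- the exponent of a real vertex -/
theorem ey_live (hT : T.Ok τ S) (hA : T.At Z x P A D τ σ) (hx : RCG.Ct.Wt x P 1)
    (hD : D.card ≤ 2) {v : V} (hv : v ∈ Dᶜ) (hP : P v) {r : ℝ} (hr : r ∈ Icc 0 τ)
    {Y : V → ℝ → ℝ} (hY : Y v r ≤ vf x P D (T.FY r) 0 v (Dᶜ.erase v)) :
    Real.exp (yv D (zst Z x P A τ σ) Y v r) ≤ T.W r (fp x D v) := by
  refine le_trans (Real.exp_le_exp.2 ?_) ((hT.sg r hr).W1 _ (ful_fp hx hD hv hP))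
  rw [vf_l hP] at hY
  exact add_le_add (hA.hζ r hr v hv hP) hY

/-- the sums over the world, without the vertex itself -/
theorem sum_hh (hx : RCG.Ct.Wt x P 1) {e : V} (he : e ∈ Dᶜ) (r : ℝ) (g : V → ℝ) :
    ∑ f ∈ Dᶜ, Z.hh x P r e f * g f = ∑ f ∈ Dᶜ.erase e, Z.hh x P r e f * g f := by
  rw [← Finset.add_sum_erase _ _ he, Hzd.hh_zero (hx.diag e), zero_mul, zero_add]

/-- the sums at a pendant vertex vanish -/
theorem sum_hh_pz (hx : RCG.Ct.Wt x P 1) {e : V} (hP : ¬P e) (r : ℝ) (F : Finset V) (g : V → ℝ) :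
    ∑ f ∈ F, Z.hh x P r e f * g f = 0 :=
  Finset.sum_eq_zero fun f _ => by rw [hh_pz hx (fun h => hP h.1), zero_mul]

end

end Pool.Agent.RZ.RCO
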