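import Pool.Agent.RZ.RCO.Gt1
import Pool.Agent.RZ.RCO.Gz1

/-! Level 0: the table of a cell from coefficient tables of time (MP_73ccd0_lc). -/

set_option autoImplicit false

namespace Pool.Agent.RZ.RCO

open Set Finset Pool.Agent.RZ.RCG

set_option linter.unusedSectionVars false

/-! ### combinations of fixed functions -/

/-- a combination of the functions `φ` -/
def kp (φ : ℕ → ℝ → ℝ) (n : ℕ) (f : ℕ → ℝ) (k : ℝ) : ℝ := ∑ i ∈ Finset.range n, f i * φ i k

theorem kp_mono {φ : ℕ → ℝ → ℝ} {n : ℕ} {f g : ℕ → ℝ} {k : ℝ} (k0 : ∀ i < n, 0 ≤ φ i k)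
    (h : ∀ i < n, f i ≤ g i) : kp φ n f k ≤ kp φ n g k :=
  Finset.sum_le_sum fun i hi => mul_le_mul_of_nonneg_right (h i (Finset.mem_range.1 hi))
    (k0 i (Finset.mem_range.1 hi))

theorem kp_neg (φ : ℕ → ℝ → ℝ) (n : ℕ) (f : ℕ → ℝ) (k : ℝ) :
    kp φ n (fun i => -f i) k = -kp φ n f k := by
  unfold kp
  rw [← Finset.sum_neg_distrib]
  exact Finset.sum_congr rfl fun i _ => by ring

theorem kp_zero (φ : ℕ → ℝ → ℝ) (n : ℕ) (k : ℝ) : kp φ n (fun _ => 0) k = 0 := by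
  unfold kp
  simp

theorem kp_deriv {φ : ℕ → ℝ → ℝ} {n : ℕ} {f f' : ℝ → ℕ → ℝ} {k r : ℝ}
    (hf : ∀ i < n, HasDerivAt (fun r => f r i) (f' r i) r) :
    HasDerivAt (fun r => kp φ n (f r) k) (kp φ n (f' r) k) r := by
  unfold kp
  exact HasDerivAt.fun_sum fun i hi => (hf i (Finset.mem_range.1 hi)).mul_const _

/-- a function above an exponential: its slope is at least the product with the slope of the
exponent -/
theorem exp_le_of_slope {U U' W W' Wu : ℝ → ℝ} {a b : ℝ} (hU : ∀ r, HasDerivAt U (-U' r) r)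
    (hW : ∀ r, HasDerivAt W (-W' r) r) (hWu : ∀ r ∈ Icc a b, W r ≤ Wu r)
    (U0 : ∀ r ∈ Icc a b, 0 ≤ U' r) (h : ∀ r ∈ Icc a b, Wu r * U' r ≤ W' r) (Ub : U b = 0)
    (Wb : 1 ≤ W b) : ∀ r ∈ Icc a b, Real.exp (U r) ≤ W r := by
  have hd : ∀ r, HasDerivAt (fun r => W r * Real.exp (-U r))
      (-(W' r * Real.exp (-U r) - W r * (U' r * Real.exp (-U r)))) r := fun r => by
    have h1 := (hW r).mul (hU r).neg.exp
    refine h1.congr_deriv ?_
    simp only [Pi.neg_apply, neg_neg]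
    ring
  have anti : AntitoneOn (fun r => W r * Real.exp (-U r)) (Icc a b) := by
    refine antitoneOn_of_deriv_nonpos (convex_Icc a b)
      (fun r _ => (hd r).continuousAt.continuousWithinAt)
      (fun r _ => (hd r).differentiableAt.differentiableWithinAt) fun r hr => ?_
    rw [(hd r).deriv]
    have hr' := interior_subset hr
    have h1 := h r hr'
    have h2 := mul_le_mul_of_nonneg_right (hWu r hr') (U0 r hr')
    have h3 := (Real.exp_pos (-U r)).le
    have h4 := mul_le_mul_of_nonneg_right (h2.trans h1) h3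
    linarith
  intro r hr
  have h1 := anti hr ⟨hr.1.trans hr.2, le_rfl⟩ hr.2
  simp only [Ub, neg_zero, Real.exp_zero, mul_one] at h1
  have h2 := mul_le_mul_of_nonneg_right (Wb.trans h1) (Real.exp_pos (U r)).le
  rw [one_mul, mul_assoc, ← Real.exp_add, neg_add_cancel, Real.exp_zero, mul_one] at h2
  exact h2

/-! ### the tables -/

/-- the tables of level 0; the functions of the table time and the coefficient tables -/
structure T0Z where
  R : ℝ → ℝ → ℝ
  /-- slopes of the killing (a combination of functions of the killed mass, zero at the end) -/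
  φz : ℕ → ℝ → ℝ
  nZ : ℕ
  z : ℕ → ℕ → ℝ
  /-- boosts (a combination of functions of the killed mass) -/
  φw : ℕ → ℝ → ℝ
  nW : ℕ
  w : ℕ → Tq
  /-- slopes of the exponents, zero at the end -/
  fy : ℕ → ℕ → ℝ
  /-- the losses -/
  fn : ℕ → Tq
  c1 : ℝ → Ec
  c2 : ℝ → Ec

namespace T0Z

/-- slopes and values of the killing, used boosts and their slopes -/
noncomputable def zs (t : ℕ → ℝ) (n : ℕ) (d : T0Z) (ρ k : ℝ) : ℝ :=
  kp d.φz d.nZ (fun i => pl t (d.z i) n ρ) k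
noncomputable def zv (t : ℕ → ℝ) (n : ℕ) (d : T0Z) (ρ k : ℝ) : ℝ :=
  kp d.φz d.nZ (fun i => qt t (d.z i) n 0 ρ) k
noncomputable def wu (t : ℕ → ℝ) (n : ℕ) (d : T0Z) (ρ k : ℝ) : ℝ :=
  kp d.φw d.nW (fun i => (d.w i).up t n ρ) k
noncomputable def ws (t : ℕ → ℝ) (n : ℕ) (d : T0Z) (ρ k : ℝ) : ℝ :=
  kp d.φw d.nW (fun i => (d.w i).sl t n ρ) k

/-- the lines at one time; `Y'`, `N'`, `Nu` the forms of the slopes and of the used values -/
structure Lin (R : ℝ → ℝ) (Zs Wu Ws : ℝ → ℝ) (Y' N' Nu : Pt → ℝ) (c1 c2 : Ec) : Prop where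
  R0 : ∀ y ∈ Icc (0 : ℝ) XM, 0 ≤ R y
  zl : ∀ k ∈ Icc (0 : ℝ) (2 * XM), ∀ y ∈ Icc (0 : ℝ) XM, k * R y ≤ Zs k
  wl : ∀ p : Pt, p.Ful → Wu p.k * (Zs p.k + Y' p) ≤ Ws p.k
  y0 : ∀ p : Pt, p.Ful → 0 ≤ Y' p
  n0 : ∀ p : Pt, p.Ful → 0 ≤ N' p
  n1 : ∀ p : Pt, p.Ful → Nu p ≤ 1
  e1 : ELn R 0 (fun q => Wu q.k - 1) (fun _ => 0) c1
  e2 : ELn R 0 (fun q => Nu q.full) (fun _ => 0) c2
  v1 : ∀ p : Pt, p.Ful → sv c1 p ≤ N' p
  v2 : ∀ p : Pt, p.Ful → sv c2 p ≤ Y' p

/-- the checks of the tables -/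
structure Ok (FF : (ℕ → ℝ) → Pt → ℝ) (N : ℕ) (t : ℕ → ℝ) (n : ℕ) (d : T0Z) : Prop where
  φ0 : ∀ i < d.nW, ∀ k ∈ Icc (0 : ℝ) (2 * XM), 0 ≤ d.φw i k
  tw : ∀ i < d.nW, (d.w i).Ok t n
  tn : ∀ i < N, (d.fn i).Ok t n
  L : ∀ ρ ∈ Icc (t 0) (t n), Lin (d.R ρ) (d.zs t n ρ) (d.wu t n ρ) (d.ws t n ρ)
    (FF fun i => RCO.pl t (d.fy i) n ρ) (FF fun i => (d.fn i).sl t n ρ)
    (FF fun i => (d.fn i).up t n ρ) (d.c1 ρ) (d.c2 ρ)
  we : ∀ k ∈ Icc (0 : ℝ) (2 * XM), 1 ≤ kp d.φw d.nW (fun i => (d.w i).w n) k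
  ne : ∀ p : Pt, p.Ful → 0 ≤ FF (fun i => (d.fn i).w n) p

/-- the table of level 0 of the tables, shifted by `δ` -/
noncomputable def dat (FF : (ℕ → ℝ) → Pt → ℝ) (t : ℕ → ℝ) (n : ℕ) (d : T0Z) (δ : ℝ) : TabZ where
  R := fun r => d.R (r + δ)
  Zt := fun r k => d.zv t n (r + δ) k
  W := fun r p => d.wu t n (r + δ) p.k
  FY := fun r => FF fun i => qt t (d.fy i) n 0 (r + δ)
  FY' := fun r p => -FF (fun i => pl t (d.fy i) n (r + δ)) p
  FN := fun r => FF fun i => (d.fn i).f t n (r + δ)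
  FN' := fun r p => -FF (fun i => (d.fn i).sl t n (r + δ)) p

end T0Z

/-- the killed mass of a full point -/
theorem Pt.Ful.k_mem {p : Pt} (h : p.Ful) : p.k ∈ Icc (0 : ℝ) (2 * XM) := ⟨h.1.k0, h.1.kX⟩

/-- a full point of a vertex seen from its neighbour -/
theorem Pt.Sat.ful {q : Pt} {x a b : ℝ} (h : q.Sat x a b) : q.full.Ful := by
  have ok : q.full.Ok :=
    ⟨h.k0, h.MK, le_rfl, le_rfl, le_rfl, le_rfl, le_rfl, le_rfl, h.F, h.F⟩
  have r := h.row
  have X0 := XM_pos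
  exact ⟨{
    toOk := ok
    row := h.row
    kX := h.kX
    fX := h.FX
    FX := h.FX
    x0 := le_rfl
    a0 := le_rfl
    b0 := le_rfl
    ax := by norm_num
    ab := by norm_num
    xb := by simp
    bx := by simp
    mx := by
      show q.M = 1 - q.k - 0
      linarith
    m := add_zero _
    h := by
      rw [zero_mul]
      exact add_zero _
    g := by
      rw [zero_mul]
      exact add_zero _
    q := by
      rw [zero_pow two_ne_zero]
      exact add_zero _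
    s := by
      rw [zero_pow two_ne_zero, zero_mul]
      exact add_zero _
    e := by
      rw [zero_mul]
      exact add_zero _
    hkx := fun t => by
      have := h.F.hk t
      rw [sub_zero]
      exact this
    stx := fun t => by
      have := h.F.st t
      rw [sub_zero]
      exact this
    hQx := fun c hc => by
      have := h.F.hQ c hc
      rw [sub_zero]
      exact this
    eHx := fun c hc => by
      have := h.F.eH c hc
      rw [sub_zero]
      exact this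
    xX := X0.le
    aX := by linarith
    bX := by
      have : 0 ≤ 0 * q.full.k + 2 * XM * (1 - 0 - 0) := by linarith
      exact this }, rfl⟩

section

variable {FF : (ℕ → ℝ) → Pt → ℝ} {N : ℕ} {ft : ℕ → Pt → ℝ} {t : ℕ → ℝ} {n : ℕ} {d : T0Z}

/-- the derivative of the killing -/
theorem T0Z.zv_deriv (t : ℕ → ℝ) (n : ℕ) (d : T0Z) (k r : ℝ) :
    HasDerivAt (fun r => d.zv t n r k) (-d.zs t n r k) r := by
  have e : -d.zs t n r k = kp d.φz d.nZ (fun i => -pl t (d.z i) n r) k := (kp_neg _ _ _ _).symm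
  rw [e]
  exact kp_deriv (f := fun r i => qt t (d.z i) n 0 r) (f' := fun r i => -pl t (d.z i) n r)
    fun i _ => qt_deriv t (d.z i) n 0 r

theorem T0Z.zv_end (t : ℕ → ℝ) (n : ℕ) (d : T0Z) (k : ℝ) : d.zv t n (t n) k = 0 := by
  have e1 : (fun i => qt t (d.z i) n 0 (t n)) = fun _ => (0 : ℝ) :=
    funext fun i => qt_end t (d.z i) n 0
  show kp d.φz d.nZ (fun i => qt t (d.z i) n 0 (t n)) k = 0
  rw [e1, kp_zero]

theorem T0Z.Ok.zs_nonneg (h : d.Ok FF N t n) {k : ℝ} (hk : k ∈ Icc (0 : ℝ) (2 * XM)) {r : ℝ}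
    (hr : r ∈ Icc (t 0) (t n)) : 0 ≤ d.zs t n r k := by
  have hX := XM_pos
  exact (mul_nonneg hk.1 ((h.L r hr).R0 0 ⟨le_rfl, hX.le⟩)).trans
    ((h.L r hr).zl k hk 0 ⟨le_rfl, hX.le⟩)

/-- the boosts of the real vertices -/
theorem T0Z.Ok.w_exp (hF : Lf FF N ft) (h : d.Ok FF N t n) (hm : Msh t n) (hn : 0 < n)
    {p : Pt} (hp : p.Ful) : ∀ ρ ∈ Icc (t 0) (t n),
    Real.exp (d.zv t n ρ p.k + FF (fun i => qt t (d.fy i) n 0 ρ) p) ≤ d.wu t n ρ p.k := by
  have k0 := fun i hi => h.φ0 i hi _ hp.k_mem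
  have hle : ∀ r ∈ Icc (t 0) (t n), kp d.φw d.nW (fun i => (d.w i).f t n r) p.k ≤ d.wu t n r p.k :=
    fun r hr => kp_mono k0 fun i hi => (h.tw i hi).le hm hn hr
  intro ρ hρ
  refine (exp_le_of_slope (U := fun r => d.zv t n r p.k + FF (fun i => qt t (d.fy i) n 0 r) p)
    (U' := fun r => d.zs t n r p.k + FF (fun i => pl t (d.fy i) n r) p)
    (W := fun r => kp d.φw d.nW (fun i => (d.w i).f t n r) p.k)
    (W' := fun r => d.ws t n r p.k) (Wu := fun r => d.wu t n r p.k)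
    (fun r => ?_) (fun r => ?_) hle (fun r hr => ?_) (fun r hr => (h.L r hr).wl p hp) ?_ ?_ ρ
    hρ).trans (hle ρ hρ)
  · have h2 : HasDerivAt (fun r => FF (fun i => qt t (d.fy i) n 0 r) p)
        (-FF (fun i => pl t (d.fy i) n r) p) r := by
      rw [← hF.neg]
      exact hF.deriv (f := fun r i => qt t (d.fy i) n 0 r) (f' := fun r i => -pl t (d.fy i) n r)
        fun i _ => qt_deriv t (d.fy i) n 0 r
    exact ((T0Z.zv_deriv t n d p.k r).add h2).congr_deriv (by ring)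
  · have e : -d.ws t n r p.k = kp d.φw d.nW (fun i => -(d.w i).sl t n r) p.k := (kp_neg _ _ _ _).symm
    rw [e]
    exact kp_deriv (f := fun r i => (d.w i).f t n r) (f' := fun r i => -(d.w i).sl t n r)
      fun i _ => Tq.deriv t n (d.w i) r
  · exact add_nonneg (h.zs_nonneg hp.k_mem hr) ((h.L r hr).y0 p hp)
  · have e2 : (fun i => qt t (d.fy i) n 0 (t n)) = fun _ => (0 : ℝ) :=
      funext fun i => qt_end t (d.fy i) n 0
    show d.zv t n (t n) p.k + FF (fun i => qt t (d.fy i) n 0 (t n)) p = 0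
    rw [T0Z.zv_end, e2, hF.eq]
    simp
  · have e1 : (fun i => (d.w i).f t n (t n)) = fun i => (d.w i).w n :=
      funext fun i => Tq.end' t n (d.w i)
    show 1 ≤ kp d.φw d.nW (fun i => (d.w i).f t n (t n)) p.k
    rw [e1]
    exact h.we _ hp.k_mem

/-- **the table of level 0 from the coefficient tables** -/
theorem T0Z.Ok.tab (hF : Lf FF N ft) (h : d.Ok FF N t n) (hm : Msh t n) (hn : 0 < n)
    {δ τ : ℝ} (h0 : t 0 ≤ δ) (h1 : τ + δ ≤ t n) (S : Finset ℝ) :
    (d.dat FF t n δ).Ok τ S := by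
  have mem : ∀ {r}, r ∈ Icc 0 τ → r + δ ∈ Icc (t 0) (t n) := fun {r} hr =>
    ⟨by linarith [hr.1], by linarith [hr.2]⟩
  have sh : ∀ {f : ℝ → ℝ} {f' : ℝ} {r : ℝ}, HasDerivAt f f' (r + δ) →
      HasDerivAt (fun r => f (r + δ)) f' r := fun {f f' r} hf => by
    have := hf.comp r ((hasDerivAt_id r).add_const δ)
    rwa [mul_one] at this
  -- the derivatives
  have dY : ∀ (p : Pt) (r : ℝ), HasDerivAt (fun r => FF (fun i => qt t (d.fy i) n 0 r) p)
      (-FF (fun i => pl t (d.fy i) n r) p) r := fun p r => by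
    rw [← hF.neg]
    exact hF.deriv (f := fun r i => qt t (d.fy i) n 0 r) (f' := fun r i => -pl t (d.fy i) n r)
      fun i _ => qt_deriv t (d.fy i) n 0 r
  have dN : ∀ (p : Pt) (r : ℝ), HasDerivAt (fun r => FF (fun i => (d.fn i).f t n r) p)
      (-FF (fun i => (d.fn i).sl t n r) p) r := fun p r => by
    rw [← hF.neg]
    exact hF.deriv (f := fun r i => (d.fn i).f t n r) (f' := fun r i => -(d.fn i).sl t n r)
      fun i _ => Tq.deriv t n (d.fn i) r
  -- used values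
  have uN : ∀ {ρ}, ρ ∈ Icc (t 0) (t n) → ∀ p : Pt, p.Ok →
      FF (fun i => (d.fn i).f t n ρ) p ≤ FF (fun i => (d.fn i).up t n ρ) p := fun hρ p hp =>
    hF.mono hp fun i hi => (h.tn i hi).le hm hn hρ
  -- signs
  have Y0 : ∀ p : Pt, p.Ful → ∀ ρ ∈ Icc (t 0) (t n),
      0 ≤ FF (fun i => qt t (d.fy i) n 0 ρ) p := fun p hp =>
    nonneg_of_slope (fun r => dY p r) (fun r hr => (h.L r hr).y0 p hp) (by
      have e2 : (fun i => qt t (d.fy i) n 0 (t n)) = fun _ => (0 : ℝ) :=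
        funext fun i => qt_end t (d.fy i) n 0
      rw [e2, hF.eq]
      simp)
  have N0 : ∀ p : Pt, p.Ful → ∀ ρ ∈ Icc (t 0) (t n),
      0 ≤ FF (fun i => (d.fn i).f t n ρ) p := fun p hp =>
    nonneg_of_slope (fun r => dN p r) (fun r hr => (h.L r hr).n0 p hp) (by
      have e2 : (fun i => (d.fn i).f t n (t n)) = fun i => (d.fn i).w n :=
        funext fun i => Tq.end' t n (d.fn i)
      rw [e2]
      exact h.ne p hp)
  exact {
    chk := fun r hr _ => by
      have L := h.L (r + δ) (mem hr)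
      exact {
        V1 := fun p hp => ⟨d.c1 (r + δ), L.e1.at' p.k p.H, by
          show sv (d.c1 (r + δ)) p ≤ - -FF (fun i => (d.fn i).sl t n (r + δ)) p
          rw [neg_neg]
          exact L.v1 p hp⟩
        V2 := fun p hp => ⟨d.c2 (r + δ), by
          refine (L.e2.at' p.k p.H).mono (fun q x hq => L.R0 x ⟨hq.x0, hq.xX⟩) le_rfl
            (fun q x hq => uN (mem hr) _ hq.ful.1.toOk) fun q x hq => le_rfl, by
          show sv (d.c2 (r + δ)) p ≤ - -FF (fun i => pl t (d.fy i) n (r + δ)) p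
          rw [neg_neg]
          exact L.v2 p hp⟩ }
    sg := fun r hr => by
      have L := h.L (r + δ) (mem hr)
      exact {
        W1 := fun p hp => h.w_exp hF hm hn hp _ (mem hr)
        Y0 := fun p hp => Y0 p hp _ (mem hr)
        N0 := fun p hp => N0 p hp _ (mem hr)
        N1 := fun p hp => (uN (mem hr) p hp.1.toOk).trans (L.n1 p hp) }
    cY := fun p _ r _ => (sh (dY p (r + δ))).continuousAt.continuousWithinAt
    cN := fun p _ r _ => (sh (dN p (r + δ))).continuousAt.continuousWithinAt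
    dY := fun p _ r _ _ => sh (dY p (r + δ))
    dN := fun p _ r _ _ => sh (dN p (r + δ)) }

end

end Pool.Agent.RZ.RCO
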