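import Pool.Agent.RZ.RCO.Gz3
import Pool.Agent.RZ.RCO.Gz4

/-! Level 0 of a world from the coefficient tables (MP_73ccd0_lc). -/

set_option autoImplicit false

namespace Pool.Agent.RZ.RCO

open Set Finset Pool.Agent.RZ.RCRSHalf Pool.Agent.RZ.RCG Pool.Agent.RZ.RCG.Ct
open Pool.Agent.RZ.RCN Pool.Agent.RZ.RCN.K

set_option linter.unusedSectionVars false

variable {V : Type*} [Fintype V] [DecidableEq V]
variable {Z : Hzd} {x : V → V → ℝ} {P : V → Prop} [DecidablePred P] {sl : ℝ → ℝ → ℝ}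
variable {A D : Finset V} {α τ σ : ℝ}
variable {FF : (ℕ → ℝ) → Pt → ℝ} {m : ℕ} {ft : ℕ → Pt → ℝ} {t : ℕ → ℝ} {n : ℕ} {d : T0Z}

/-- **the tables majorise the data of a world** -/
theorem T0Z.Ok.at (h : d.Ok FF m t n) (hZ : Z.Ok sl) (hx : RCG.Ct.Wt x P 1) (hD : D.card ≤ 2)
    (σ0 : 0 ≤ σ) (στ : σ ≤ τ) (τ1 : τ ≤ 1)
    {δ : ℝ} (h0 : t 0 ≤ δ) (h1 : τ + δ ≤ t n)
    (hR : ∀ r ∈ Icc 0 τ, ∀ y ∈ Icc (0 : ℝ) XM, Z.rr y r ≤ d.R (r + δ) y) :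
    (d.dat FF t n δ).At Z x P A D τ σ where
  kr := fun r hr => krn_hhX hZ hx ⟨hr.1, hr.2.trans τ1⟩
    fun u v _ _ => hR r hr _ ⟨hx.nonneg u v, hx.leX u v⟩
  hζ := by
    have mem : ∀ {r}, r ∈ Icc 0 τ → r + δ ∈ Icc (t 0) (t n) := fun {r} hr =>
      ⟨by linarith [hr.1], by linarith [hr.2]⟩
    have τ0 : 0 ≤ τ := σ0.trans στ
    have dz : ∀ k r, HasDerivAt (fun r => d.zv t n (r + δ) k) (-d.zs t n (r + δ) k) r := by
      intro k r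
      have e : -d.zs t n (r + δ) k = kp d.φz d.nZ (fun i => -pl t (d.z i) n (r + δ)) k :=
        (kp_neg _ _ _ _).symm
      rw [e]
      exact kp_deriv (f := fun r i => qt t (d.z i) n 0 (r + δ))
        (f' := fun r i => -pl t (d.z i) n (r + δ)) fun i _ => qt_shift t (d.z i) n 0 δ r
    refine zt_of (S := ∅) hZ hx hD σ0 στ τ1 (Zt := fun r k => d.zv t n (r + δ) k)
      (Zt' := fun r k => -d.zs t n (r + δ) k)
      (fun k _ r _ => (dz k r).continuousAt.continuousWithinAt) (fun k _ r _ _ => dz k r)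
      (fun k hk => ?_) fun k hk r hr _ y hy => ?_
    · exact nonneg_of_slope (fun r => T0Z.zv_deriv t n d k r) (fun r hr => h.zs_nonneg hk hr)
        (T0Z.zv_end t n d k).ge _ (mem ⟨τ0, le_rfl⟩)
    · show k * Z.rr y r ≤ - -d.zs t n (r + δ) k
      rw [neg_neg]
      exact (mul_le_mul_of_nonneg_left (hR r hr y hy) hk.1).trans
        ((h.L _ (mem hr)).zl k hk y hy)

/-- **level 0 of a world from the tables**, with the used functions -/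
theorem T0Z.Ok.l0 (hF : Lf FF m ft) (h : d.Ok FF m t n) (hZ : Z.Ok sl)
    (hx : RCG.Ct.Wt x P 1) (hn : 0 < n) (hm : Msh t n) (hD : D.card ≤ 2) (hAD : A ⊆ D)
    (α0 : 0 ≤ α) (σ0 : 0 ≤ σ) (στ : σ ≤ τ) (τ1 : τ ≤ 1) {δ : ℝ}
    (h0 : t 0 ≤ δ) (h1 : τ + δ ≤ t n)
    (hR : ∀ r ∈ Icc 0 τ, ∀ y ∈ Icc (0 : ℝ) XM, Z.rr y r ≤ d.R (r + δ) y) :
    ∃ Y Y' N N' : V → ℝ → ℝ, Dt0 Z x P A D α τ σ (zst Z x P A τ σ) Y Y' N N' ∧
      ∀ r ∈ Icc 0 τ, L0b Z x P D (zst Z x P A τ σ) Y N r (fun p => d.wu t n (r + δ) p.k)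
        (fun _ => 1) (FF fun i => (d.fn i).up t n (r + δ)) (fun _ => 0) := by
  have hT := h.tab hF hm hn h0 h1 (∅ : Finset ℝ)
  have hA := h.at (A := A) (FF := FF) hZ hx hD σ0 στ τ1 h0 h1 hR
  obtain ⟨Y, Y', N, N', h2, h3⟩ := dt0_l0b hT hA hZ hx hD hAD α0 σ0 στ τ1
  refine ⟨Y, Y', N, N', h2, fun r hr => ?_⟩
  have hr' : r + δ ∈ Icc (t 0) (t n) := ⟨by linarith [hr.1], by linarith [hr.2]⟩
  have L := h.L (r + δ) hr'
  obtain ⟨a1, a2, a3, a4, a5, a6, a7⟩ := h3 r hr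
  exact ⟨a1, a2, fun v hv hP => (a3 v hv hP).trans (hF.mono (ful_fp hx hD hv hP).1.toOk
    fun i hi => (h.tn i hi).le hm hn hr'), a4, a5,
    fun v hv hP => L.n1 _ (ful_fp hx hD hv hP), a7⟩

end Pool.Agent.RZ.RCO
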