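import Pool.Agent.RZ.RCO.Gl5_2
import Pool.Agent.RZ.RCO.Gz4

/-! A world with its level 0 and its level 1/2 (MP_73ccd0_lc). -/

set_option autoImplicit false

namespace Pool.Agent.RZ.RCO

open Set Finset Pool.Agent.RZ.RCRSHalf Pool.Agent.RZ.RCG Pool.Agent.RZ.RCG.Ct
open Pool.Agent.RZ.RCN Pool.Agent.RZ.RCN.K

set_option linter.unusedSectionVars false

section

variable {V : Type*} [Fintype V] [DecidableEq V] {Λ : Type*} [Fintype Λ]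

/-- **a world with its level 0 and level 1/2**: rates, bounds of the rates and rows -/
structure Wrl (Z : Hzd) (x : V → V → ℝ) (P : V → Prop) [DecidablePred P] (A D : Finset V)
    (α τ σ : ℝ) (S : Finset ℝ) (ζ : V → V → ℝ → ℝ) (Y N : V → ℝ → ℝ) (d : D12 Λ) (l1 : Λ) :
    Prop where
  hP : RCG.Ct.Wt x P 1
  hD : D.card ≤ 2
  b0 : ∀ u v, ∀ r ∈ Icc 0 τ, 0 ≤ Z.hh x P r u v
  g : GDat Dᶜ τ (Tc0 (Z.hh x P) D ζ Y) (Ac0 (Z.hh x P) D ζ Y) (Bc0 (Z.hh x P) D N)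
  w : W0cq Z x P A D α τ σ (Tc0 (Z.hh x P) D ζ Y) (Ac0 (Z.hh x P) D ζ Y)
    (Bc0 (Z.hh x P) D N)
  kr : ∀ r ∈ Icc 0 τ, Krn x P (Z.hh x P r) (d.R r) (d.Rp r)
  wb : ∀ r ∈ Icc 0 τ, WBd x P D (Z.hh x P r) (Tc0 (Z.hh x P) D ζ Y r)
    (Ac0 (Z.hh x P) D ζ Y r) (Bc0 (Z.hh x P) D N r) (d.W r) (d.Wp r) (d.Nr r) (d.Np r)
  r : (d.r12 x P D (Ac0 (Z.hh x P) D ζ Y) (Bc0 (Z.hh x P) D N)).Ok Dᶜ τ S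
    (Tc0 (Z.hh x P) D ζ Y) (Ac0 (Z.hh x P) D ζ Y) (Bc0 (Z.hh x P) D N)
  w1 : ∀ p, d.wv l1 p = 1

variable {Z : Hzd} {x : V → V → ℝ} {P : V → Prop} [DecidablePred P] {sl : ℝ → ℝ → ℝ}
variable {A D : Finset V} {α τ σ : ℝ} {S : Finset ℝ} {ζ : V → V → ℝ → ℝ}
  {Y Y' N N' : V → ℝ → ℝ} {d : D12 Λ} {l1 : Λ}

/-- the weight one -/
theorem Wrl.wm (h : Wrl Z x P A D α τ σ S ζ Y N d l1) :
    ∀ i ∈ Dᶜ, ∀ j ∈ Dᶜ, i ≠ j → ∀ r ∈ Icc 0 τ, (1 : ℝ)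
      ≤ (d.r12 x P D (Ac0 (Z.hh x P) D ζ Y) (Bc0 (Z.hh x P) D N)).w (l1, none) i j r :=
  fun _ _ j _ _ _ _ => (h.w1 (fp x D j)).ge

/-- **the world from the data of level 0, the bounds of the rates and the checks of level 1/2** -/
theorem Wrl.of (hx : RCG.Ct.Wt x P 1) (hD : D.card ≤ 2) (hd : d.Ok τ S)
    (b0 : ∀ u v, ∀ r ∈ Icc 0 τ, 0 ≤ Z.hh x P r u v)
    (g : GDat Dᶜ τ (Tc0 (Z.hh x P) D ζ Y) (Ac0 (Z.hh x P) D ζ Y) (Bc0 (Z.hh x P) D N))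
    (w : W0cq Z x P A D α τ σ (Tc0 (Z.hh x P) D ζ Y) (Ac0 (Z.hh x P) D ζ Y)
      (Bc0 (Z.hh x P) D N))
    (kr : ∀ r ∈ Icc 0 τ, Krn x P (Z.hh x P r) (d.R r) (d.Rp r))
    (wb : ∀ r ∈ Icc 0 τ, WBd x P D (Z.hh x P r) (Tc0 (Z.hh x P) D ζ Y r)
      (Ac0 (Z.hh x P) D ζ Y r) (Bc0 (Z.hh x P) D N r) (d.W r) (d.Wp r) (d.Nr r) (d.Np r))
    (w1 : ∀ p, d.wv l1 p = 1) : Wrl Z x P A D α τ σ S ζ Y N d l1 :=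
  ⟨hx, hD, b0, g, w, kr, wb, hd.r12_ok hx hD kr wb, w1⟩

end

/-! ### tables -/

section

variable {Λ : Type*} [Fintype Λ]

/-- **the tables of level 0 and of level 1/2 of a world**; `l1` the weight one -/
structure W012 (FF : (ℕ → ℝ) → Pt → ℝ) (N : ℕ) (ft : ℕ → Pt → ℝ) (t : ℕ → ℝ) (n : ℕ) (d0 : T0Z)
    (d : T12 Λ) (l1 : Λ) : Prop where
  hF : Lf FF N ft
  hm : Msh t n
  hn : 0 < n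
  z : d0.Ok FF N t n
  r : d.Ok FF N t n
  R : ∀ ρ ∈ Icc (t 0) (t n), ∀ y ∈ Icc (0 : ℝ) XM, d0.R ρ y ≤ d.R ρ y
  W : ∀ ρ ∈ Icc (t 0) (t n), ∀ p : Pt, p.Ful → d0.wu t n ρ p.k ≤ d.W ρ p
  Nr : ∀ ρ ∈ Icc (t 0) (t n), ∀ p : Pt, p.Ful →
    FF (fun i => (d0.fn i).up t n ρ) p ≤ d.Nr ρ p ∧ d.Nr ρ p ≤ 1
  Wp : ∀ ρ ∈ Icc (t 0) (t n), ∀ y ∈ Icc (0 : ℝ) 1, 1 ≤ d.Wp ρ y
  Np : ∀ ρ ∈ Icc (t 0) (t n), ∀ y ∈ Icc (0 : ℝ) 1, 0 ≤ d.Np ρ y ∧ d.Np ρ y ≤ 1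
  w1 : ∀ p, d.wv l1 p = 1

end

end Pool.Agent.RZ.RCO
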