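import Pool.Agent.RZ.RCO.Gs12_2
import Pool.Agent.RZ.RCO.Gz5
import Pool.Agent.RZ.RCO.Gz8_1

/-! A world with its level 0 and its level 1/2 (MP_73ccd0_lc). -/

set_option autoImplicit false

namespace Pool.Agent.RZ.RCO

open Set Finset Pool.Agent.RZ.RCRSHalf Pool.Agent.RZ.RCG Pool.Agent.RZ.RCG.Ct
open Pool.Agent.RZ.RCN Pool.Agent.RZ.RCN.K

set_option linter.unusedSectionVars false

section

variable {V : Type*} [Fintype V] [DecidableEq V] {Λ : Type*} [Fintype Λ]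

variable {Z : Hzd} {x : V → V → ℝ} {P : V → Prop} [DecidablePred P] {sl : ℝ → ℝ → ℝ}
variable {A D : Finset V} {α τ σ : ℝ} {S : Finset ℝ} {ζ : V → V → ℝ → ℝ}
  {Y Y' N N' : V → ℝ → ℝ} {d : D12 Λ} {l1 : Λ}

/-- **all solutions of a world**, three systems -/
theorem Wrl.sys (h : Wrl Z x P A D α τ σ S ζ Y N d l1) (hZ : Z.Ok sl)
    (σ0 : 0 ≤ σ) (στ : σ ≤ τ) (τ1 : τ ≤ 1) {ρ : ℝ} (ρ0 : 0 ≤ ρ) (ρτ : ρ ≤ τ)
    {J1 M1 Λ1 : Type*} [Fintype J1] [Nonempty J1] [Fintype M1] [Nonempty M1] [Fintype Λ1]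
    {J2 M2 Λ2 : Type*} [Fintype J2] [Nonempty J2] [Fintype M2] [Nonempty M2] [Fintype Λ2]
    {J3 M3 Λ3 : Type*} [Fintype J3] [Nonempty J3] [Fintype M3] [Nonempty M3] [Fintype Λ3]
    {q1 : SysD J1 M1 Λ1} {q2 : SysD J2 M2 Λ2} {q3 : SysD J3 M3 Λ3} {lq1 lq2 lq3 : Bool}
    (hs : ∀ gp gp' gm gm', G12X Dᶜ τ (Tc0 (Z.hh x P) D ζ Y) (Ac0 (Z.hh x P) D ζ Y)
        (Bc0 (Z.hh x P) D N) gp gp' gm gm' →
      (d.r12 x P D (Ac0 (Z.hh x P) D ζ Y) (Bc0 (Z.hh x P) D N)).Rows Dᶜ τ gp gm →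
      q1.In lq1 x P D (Z.hh x P) (Tc0 (Z.hh x P) D ζ Y) τ S gp gm ZF ZF ∧
      q2.In lq2 x P D (Z.hh x P) (Tc0 (Z.hh x P) D ζ Y) σ S gp gm ZF ZF ∧
      q3.In lq3 x P D (Z.hh x P) (Tc0 (Z.hh x P) D ζ Y) σ S gp gm (fun X d e => gm X d e ρ)
        (fun X d e => gp X d e ρ)) :
    ∃ gp gp' gm gm' g1 g2 g3, FulF Z x P A D α τ σ ρ S ζ Y N
        (d.r12 x P D (Ac0 (Z.hh x P) D ζ Y) (Bc0 (Z.hh x P) D N))
        (q1.s lq1 x P D (Z.hh x P) (Tc0 (Z.hh x P) D ζ Y) τ ZF)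
        (q2.s lq2 x P D (Z.hh x P) (Tc0 (Z.hh x P) D ζ Y) σ ZF)
        (q3.s lq3 x P D (Z.hh x P) (Tc0 (Z.hh x P) D ζ Y) σ fun X d e => gm X d e ρ)
        gp gp' gm gm' g1 g2 g3 ∧
      q1.In lq1 x P D (Z.hh x P) (Tc0 (Z.hh x P) D ζ Y) τ S gp gm ZF ZF ∧
      q2.In lq2 x P D (Z.hh x P) (Tc0 (Z.hh x P) D ζ Y) σ S gp gm ZF ZF ∧
      q3.In lq3 x P D (Z.hh x P) (Tc0 (Z.hh x P) D ζ Y) σ S gp gm (fun X d e => gm X d e ρ)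
        (fun X d e => gp X d e ρ) :=
  ful_sys hZ h.hP h.hD σ0 στ τ1 ρ0 ρτ h.b0 h.g h.w h.r (l1, none) one_pos h.wm hs

end

/-! ### tables -/

section

variable {Λ : Type*} [Fintype Λ]

variable {FF : (ℕ → ℝ) → Pt → ℝ} {M : ℕ} {ft : ℕ → Pt → ℝ} {t : ℕ → ℝ} {n : ℕ} {d0 : T0Z}
  {d : T12 Λ} {l1 : Λ}

/-- the rows of level 1/2 with their own weights -/
theorem T12.Ok.rwT (h : d.Ok FF M t n) (ρ : ℝ) :
    RwT FF t n d d.wv (fun s m => d.tf.U FF t n s m ρ) (fun s m => d.tf.K t n s m ρ) ρ := by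
  classical
  have e : ∀ (m : Λ) (f : Λ → ℝ), ∑ l, (if l = m then (1 : ℝ) else 0) * f l = f m := fun m f => by
    rw [Finset.sum_eq_single m (fun l _ hl => by rw [if_neg hl, zero_mul])
      fun hm => absurd (Finset.mem_univ m) hm, if_pos rfl, one_mul]
  have p : ∀ (m l : Λ), (0 : ℝ) ≤ if l = m then (1 : ℝ) else 0 := fun m l => by
    split_ifs
    · exact zero_le_one
    · exact le_rfl
  exact ⟨fun s m => ⟨fun l => if l = m then 1 else 0, p m,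
      fun q _ _ => (e m fun l => d.wv l q).ge, fun q _ => (e m fun l => d.tf.U FF t n s l ρ q).le⟩,
    fun s m => ⟨fun l => if l = m then 1 else 0, p m,
      fun q _ _ => (e m fun l => d.wv l q).ge, (e m fun l => d.tf.K t n s l ρ).le⟩⟩

variable {V : Type*} [Fintype V] [DecidableEq V]
variable {Z : Hzd} {x : V → V → ℝ} {P : V → Prop} [DecidablePred P] {sl : ℝ → ℝ → ℝ}
variable {A D : Finset V} {α τ σ δ : ℝ}

/-- **the world from the tables** -/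
theorem W012.wrl (h : W012 FF M ft t n d0 d l1) (hZ : Z.Ok sl) (hx : RCG.Ct.Wt x P 1)
    (hD : D.card ≤ 2) (hAD : A ⊆ D) (α0 : 0 ≤ α) (σ0 : 0 ≤ σ) (στ : σ ≤ τ)
    (τ1 : τ ≤ 1) (h0 : t 0 ≤ δ) (h1 : τ + δ ≤ t n)
    (hR : ∀ r ∈ Icc 0 τ, ∀ y ∈ Icc (0 : ℝ) XM, Z.rr y r ≤ d0.R (r + δ) y) (S : Finset ℝ) :
    ∃ Y N : V → ℝ → ℝ, Wrl Z x P A D α τ σ S (zst Z x P A τ σ) Y N (d.dat FF t n δ) l1 ∧
      ∀ r ∈ Icc 0 τ, L0b Z x P D (zst Z x P A τ σ) Y N r (fun p => d0.wu t n (r + δ) p.k)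
        (fun _ => 1) (FF fun i => (d0.fn i).up t n (r + δ)) (fun _ => 0) := by
  obtain ⟨Y, Y', N, N', h2, h3⟩ := h.z.l0 h.hF hZ hx h.hn h.hm hD hAD α0 σ0 στ τ1 h0 h1 hR
  obtain ⟨b0, g, w⟩ := h2.in hZ hx τ1
  have mem : ∀ r ∈ Icc 0 τ, r + δ ∈ Icc (t 0) (t n) := fun r hr =>
    ⟨by linarith [hr.1], by linarith [hr.2]⟩
  have fl : ∀ v ∈ Dᶜ, P v → (fp x D v).Ful := fun v hv hP => ful_fp hx hD hv hP
  have xm : ∀ u v, x u v ∈ Icc (0 : ℝ) XM := fun u v => ⟨hx.nonneg u v, hx.leX u v⟩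
  refine ⟨Y, N, Wrl.of hx hD (h.r.d12 h.hF h.hm h.hn h0 h1 S) b0 g w (fun r hr => ?_)
    (fun r hr => ?_) h.w1, h3⟩
  · exact krn_hhX hZ hx ⟨hr.1, hr.2.trans τ1⟩ fun u v _ _ =>
      (hR r hr _ (xm u v)).trans (h.R _ (mem r hr) _ (xm u v))
  · obtain ⟨a1, a2, a3, a4, a5, a6, a7⟩ := h3 r hr
    have m := mem r hr
    have hL : L0b Z x P D (zst Z x P A τ σ) Y N r (d.W (r + δ)) (d.Wp (r + δ)) (d.Nr (r + δ))
        (d.Np (r + δ)) :=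
      ⟨fun v hv hP => (a1 v hv hP).trans (h.W _ m _ (fl v hv hP)),
        fun v hv f hf hPf h0 => absurd (hx.pz v f fun h => hPf h.2) h0,
        fun v hv hP => (a3 v hv hP).trans (h.Nr _ m _ (fl v hv hP)).1,
        fun v hv f hf hPf h0 => absurd (hx.pz v f fun h => hPf h.2) h0,
        fun y hy => h.Wp _ m y hy, fun v hv hP => (h.Nr _ m _ (fl v hv hP)).2,
        fun y hy => (h.Np _ m y hy).2⟩
    exact hL.wbd hZ hx h2 hr τ1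

end

end Pool.Agent.RZ.RCO
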