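import Pool.Agent.RZ.RCO.Eg5
import Pool.Agent.RZ.RCO.Gg3
import Pool.Agent.RZ.RCO.Gz8_2

/-! A class of a cell from the tables: all solutions of its world, the values below the functions
of the point (MP_73ccd0_lc). -/

set_option autoImplicit false

namespace Pool.Agent.RZ.RCO

open Set Pool.Agent.RZ.RCRSHalf Pool.Agent.RZ.RCG Pool.Agent.RZ.RCG.Ct
open Pool.Agent.RZ.RCN Pool.Agent.RZ.RCN.K

set_option linter.unusedSectionVars false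

/-- **the tables of a cell**: level 0 and 1/2 (`d`, mesh `t`, `n`), the killed systems `kd l` and
the released systems `rl l` of the ends `A l`, `0 < l ≤ nc` -/
structure CelD (J M Λ J' M' Λ' Λ0 : Type*) where
  t : ℕ → ℝ
  n : ℕ
  d : T12 Λ0
  l1 : Λ0
  A : ℕ → ℝ
  nc : ℕ
  ym : ℝ
  η : ℝ
  lq : Bool
  kd : ℕ → TSys J M Λ
  nk : ℕ → ℕ
  Pk : ℕ → ℝ
  il : Λ → Λ0
  im : M → Λ0
  lq' : Bool
  rl : ℕ → TSys J' M' Λ'
  Pr : ℕ → ℝ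
  il' : Λ' → Λ0
  im' : M' → Λ0

section cel

variable {J M Λ J' M' Λ' Λ0 : Type*} [Fintype J] [Nonempty J] [Fintype M] [Nonempty M]
  [Fintype Λ] [Fintype J'] [Nonempty J'] [Fintype M'] [Nonempty M'] [Fintype Λ'] [Fintype Λ0]

/-- **the checks of the tables of a cell** -/
structure CelD.Ok (FF : (ℕ → ℝ) → Pt → ℝ) (N : ℕ) (ft : ℕ → Pt → ℝ)
    (c : CelD J M Λ J' M' Λ' Λ0) : Prop where
  hF : Lf FF N ft
  hm : Msh c.t c.n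
  hn : 0 < c.n
  hd : c.d.Ok FF N c.t c.n
  w1 : ∀ p, c.d.wv c.l1 p = 1
  hN : Nds c.t c.n c.A c.nc
  xm : XM ≤ c.ym
  k : Ends FF N c.lq c.ym c.d c.t c.n c.il c.im c.A c.nc c.kd c.Pk
  kk : EndK N c.ym c.A c.nc c.kd c.nk c.Pk
  r : Ends FF N c.lq' c.ym c.d c.t c.n c.il' c.im' c.A c.nc c.rl c.Pr
  η0 : 0 < c.η
  R : Rels FF c.d c.t c.n c.im' c.A c.nc c.rl c.η

/-- the first system, the second system, the released system of a class -/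
noncomputable def CelD.q1 (FF : (ℕ → ℝ) → Pt → ℝ) (c : CelD J M Λ J' M' Λ' Λ0) (z : ℝ) :
    SysD J M Λ := (c.kd c.nc).dat FF z
noncomputable def CelD.q2 (FF : (ℕ → ℝ) → Pt → ℝ) (c : CelD J M Λ J' M' Λ' Λ0) (l : ℕ)
    (θ z : ℝ) : SysD (J × J) M Λ := mxE FF c.kd c.A l θ z
noncomputable def CelD.q3 (FF : (ℕ → ℝ) → Pt → ℝ) (c : CelD J M Λ J' M' Λ' Λ0) (l : ℕ)
    (z : ℝ) : SysD J' M' Λ' := (c.rl (l + 1)).dat FF z

variable {FF : (ℕ → ℝ) → Pt → ℝ} {N : ℕ} {ft : ℕ → Pt → ℝ} {c : CelD J M Λ J' M' Λ' Λ0}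
  {l : ℕ} {z θ ρ : ℝ}

/-- **the place of a class in a cell**: `z` the shift, `σ` in the coarse cell `l` -/
structure CelD.Pl (c : CelD J M Λ J' M' Λ' Λ0) (l : ℕ) (θ z τ ρ : ℝ) : Prop where
  z0 : 0 ≤ z
  z1 : z < c.A 1
  hτ : τ + z = c.t c.n
  τ1 : τ ≤ 1
  hl : l < c.nc
  h0 : 0 ≤ θ
  h1 : θ ≤ 1
  ρ0 : 0 ≤ ρ
  ρτ : ρ ≤ τ
  ρ2 : ag c.A z l - c.η ≤ ρ

section world

variable {V : Type*} [Fintype V] [DecidableEq V] {Z : Hzd} {sl : ℝ → ℝ → ℝ} {x : V → V → ℝ}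
  {P : V → Prop} [DecidablePred P] {A0 D : Finset V} {α τ : ℝ} {S : Finset ℝ}
  {ζ : V → V → ℝ → ℝ} {Y Nw : V → ℝ → ℝ}

theorem sgE_nonneg (h : c.Ok FF N ft) (p : c.Pl l θ z τ ρ) : 0 ≤ sgE c.A l θ z :=
  sg_nonneg h.hN p.z0 p.z1 p.hl p.h0

theorem sgE_le (h : c.Ok FF N ft) (p : c.Pl l θ z τ ρ) : sgE c.A l θ z ≤ τ := by
  have e1 := sg_le h.hN p.z0 p.z1 p.hl p.h1
  have e2 := h.hN.le_n (l := l + 1) p.hl
  have e3 := h.hN.an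
  have e4 := p.hτ
  linarith

/-- **all solutions of the world of a class** -/
theorem CelD.Ok.ful (h : c.Ok FF N ft) (p : c.Pl l θ z τ ρ)
    (W : Wrl Z x P A0 D α τ (sgE c.A l θ z) S ζ Y Nw (c.d.dat FF c.t c.n z) c.l1)
    (hZ : Z.Ok sl) (hS : skE c.A l θ z ⊆ S) :
    ∃ gp gp' gm gm' g1 g2 g3, FulD Z x P A0 D α τ (sgE c.A l θ z) ρ S ζ Y Nw
      ((c.d.dat FF c.t c.n z).r12 x P D (Ac0 (Z.hh x P) D ζ Y) (Bc0 (Z.hh x P) D Nw))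
      (c.q1 FF z) (c.q2 FF l θ z) (c.q3 FF l z) c.lq c.lq c.lq' gp gp' gm gm' g1 g2 g3 := by
  have σ0 := sgE_nonneg h p
  have στ := sgE_le h p
  have e3 := h.hN.an
  have e4 := p.hτ
  have k := Wrl.sys (q1 := c.q1 FF z) (q2 := c.q2 FF l θ z) (q3 := c.q3 FF l z) (lq1 := c.lq)
    (lq2 := c.lq) (lq3 := c.lq') W hZ σ0 στ p.τ1 p.ρ0 p.ρτ fun gp gp' gm gm' hg hr => by
      have w : WRw FF N ft sl Z x P A0 D α τ (sgE c.A l θ z) S ζ Y Nw c.d c.l1 c.t c.n z gp gp'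
          gm gm' := ⟨W, hZ, hg, hr, h.hF, h.hd, h.hm, h.hn, by rw [h.hN.t0]; exact p.z0,
            e4.le, p.τ1⟩
      refine ⟨?_, h.k.zf h.kk h.hN w h.xm p.hl p.z1 (by linarith) p.h0 p.h1 hS,
        h.r.rel h.hN h.η0.le h.R w h.xm p.hl p.z1 (by linarith) p.h0 p.h1 ⟨p.ρ0, p.ρτ⟩ p.ρ2 S⟩
      have n0 := h.hN.n0
      exact TSys.Ok.in_zf w (h.k.lnk _ n0 le_rfl) (σ0.trans στ) le_rfl
        (by rw [h.k.e _ n0 le_rfl, e3, e4]) h.xm (h.k.ok _ n0 le_rfl) S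
  obtain ⟨gp, gp', gm, gm', g1, g2, g3, k1, k2, k3, k4⟩ := k
  exact ⟨gp, gp', gm, gm', g1, g2, g3, k1, k2, k3, k4⟩

end world

/-! ### the values -/

/-- the used lower values of the targets and of the positions at the table time `z`; zero for the
node `0` -/
noncomputable def tuE {J M Λ : Type*} (FF : (ℕ → ℝ) → Pt → ℝ) (q : ℕ → TSys J M Λ) (l : ℕ)
    (j : J) (z : ℝ) (p : Pt) : ℝ :=
  if l = 0 then 0 else (q l).tt.f.U FF (q l).t (q l).n false j z p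
noncomputable def puE {J M Λ : Type*} (FF : (ℕ → ℝ) → Pt → ℝ) (q : ℕ → TSys J M Λ) (l : ℕ)
    (m : M) (z : ℝ) (p : Pt) : ℝ :=
  if l = 0 then 0 else (q l).tp.f.U FF (q l).t (q l).n false m z p

/-- **the record of bounds is above the used values**: rows of level 1/2 -/
structure CelD.B0 (FF : (ℕ → ℝ) → Pt → ℝ) (c : CelD J M Λ J' M' Λ' Λ0) (z ρ : ℝ) (B : EgB) :
    Prop where
  G0 : ∀ p, Fu p → c.d.tf.U FF c.t c.n false c.l1 z p ≤ B.G0 p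
  Gr : ∀ p, Fu p → c.d.tf.U FF c.t c.n true c.l1 (ρ + z) p ≤ B.Gr p

/-- the same for the columns -/
structure CelD.Bc (FF : (ℕ → ℝ) → Pt → ℝ) (c : CelD J M Λ J' M' Λ' Λ0) (l : ℕ) (θ z ρ : ℝ)
    (B : EgB) : Prop where
  P1 : ∀ p, Fu p → ∃ j, (c.kd c.nc).tt.f.U FF (c.kd c.nc).t (c.kd c.nc).n true j (ρ + z) p
    ≤ B.P1 p
  N1 : ∀ p, Fu p → ∃ j, (c.kd c.nc).tt.f.U FF (c.kd c.nc).t (c.kd c.nc).n false j z p ≤ B.N1 p
  Nc2 : ∀ p, Fu p → mx θ (puE FF c.kd l (c.kd (l + 1)).m0 z p)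
    (puE FF c.kd (l + 1) (c.kd (l + 1)).m0 z p) ≤ B.Nc2 p
  Nc3 : ∀ p, Fu p → puE FF c.rl (l + 1) (c.rl (l + 1)).m0 z p ≤ B.Nc3 p

/-- the same for the rows -/
structure CelD.Br (FF : (ℕ → ℝ) → Pt → ℝ) (c : CelD J M Λ J' M' Λ' Λ0) (l : ℕ) (θ z ρ : ℝ)
    (B : EgB) : Prop where
  Pc1 : ∀ p, Fu p → (c.kd c.nc).tp.f.U FF (c.kd c.nc).t (c.kd c.nc).n true (c.kd c.nc).m0
    (ρ + z) p ≤ B.Pc1 p
  Nc1 : ∀ p, Fu p → (c.kd c.nc).tp.f.U FF (c.kd c.nc).t (c.kd c.nc).n false (c.kd c.nc).m0 z p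
    ≤ B.Nc1 p
  N2 : ∀ p, Fu p → ∃ i j, mx θ (tuE FF c.kd l i z p) (tuE FF c.kd (l + 1) j z p) ≤ B.N2 p
  N3 : ∀ p, Fu p → ∃ j, tuE FF c.rl (l + 1) j z p ≤ B.N3 p

section vals

/-- the values of one table -/
theorem Ends.tv1 {J M Λ : Type*} [Fintype J] [Nonempty J] [Fintype M] [Nonempty M] [Fintype Λ]
    {lq : Bool} {ym : ℝ} {d : T12 Λ0} {t : ℕ → ℝ} {n : ℕ} {il : Λ → Λ0} {im : M → Λ0}
    {A : ℕ → ℝ} {nc : ℕ} {q : ℕ → TSys J M Λ} {Ph : ℕ → ℝ}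
    (h : Ends FF N lq ym d t n il im A nc q Ph) (hF : Lf FF N ft)
    (hN : Nds t n A nc) (z0 : 0 ≤ z) (z1 : z < A 1) {p : Pt} (hp : Fu p) (l : ℕ) (h3 : 0 < l)
    (h4 : l ≤ nc) :
    (∀ j, ((q l).dat FF z).dt.f.Φ false j 0 p ≤ tuE FF q l j z p) ∧
      ∀ m, ((q l).dat FF z).dp.g.Φ false m 0 p ≤ puE FF q l m z p := by
  have o := h.ok l h3 h4
  have ge := hN.ge h3 h4
  have me : (0 : ℝ) + z ∈ Icc ((q l).t 0) ((q l).t (q l).n) := by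
    rw [← (h.lnk l h3 h4).t0, hN.t0, h.e l h3 h4]
    exact ⟨by linarith, by linarith⟩
  unfold tuE puE
  simp only [if_neg (show ¬ l = 0 by omega)]
  refine ⟨fun j => ?_, fun m => ?_⟩
  · exact (o.tt.fam.le hF o.hm o.hn false j me hp.1).trans (le_of_eq (by rw [zero_add]))
  · exact (o.tp.fam.le hF o.hm o.hn false m me hp.1).trans (le_of_eq (by rw [zero_add]))

/-- the mixed values of a kind -/
theorem Ends.tv {J M Λ : Type*} [Fintype J] [Nonempty J] [Fintype M] [Nonempty M] [Fintype Λ]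
    {lq : Bool} {ym : ℝ} {d : T12 Λ0} {t : ℕ → ℝ} {n : ℕ} {il : Λ → Λ0} {im : M → Λ0}
    {A : ℕ → ℝ} {nc : ℕ} {q : ℕ → TSys J M Λ} {Ph : ℕ → ℝ}
    (h : Ends FF N lq ym d t n il im A nc q Ph) (hF : Lf FF N ft)
    (hN : Nds t n A nc) (z0 : 0 ≤ z) (z1 : z < A 1) (hl : l < nc) (h0 : 0 ≤ θ) (h1 : θ ≤ 1)
    {p : Pt} (hp : Fu p) :
    (∀ i j, (mxE FF q A l θ z).dt.f.Φ false (i, j) 0 p
      ≤ mx θ (tuE FF q l i z p) (tuE FF q (l + 1) j z p)) ∧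
    ∀ m, (mxE FF q A l θ z).dp.g.Φ false m 0 p
      ≤ mx θ (puE FF q l m z p) (puE FF q (l + 1) m z p) := by
  have le := h.tv1 hF hN z0 z1 hp
  rcases Nat.eq_zero_or_pos l with h3 | h3
  · subst h3
    obtain ⟨a1, a2⟩ := le 1 one_pos hN.n0
    unfold mxE
    rw [if_pos rfl]
    refine ⟨fun i j => ?_, fun m => ?_⟩
    · show RCO.glu 0 (ag A z 1) θ (fun _ => 0) (fun r => ((q 1).dat FF z).dt.f.Φ false j r p) 0 ≤ _
      rw [glu_lo le_rfl]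
      refine mx_le h0 h1 ?_ (a1 j)
      unfold tuE
      rw [if_pos rfl]
    · show RCO.glu 0 (ag A z 1) θ (fun _ => 0) (fun r => ((q 1).dat FF z).dp.g.Φ false m r p) 0 ≤ _
      rw [glu_lo le_rfl]
      refine mx_le h0 h1 ?_ (a2 m)
      unfold puE
      rw [if_pos rfl]
  · obtain ⟨a1, a2⟩ := le l h3 hl.le
    obtain ⟨b1, b2⟩ := le (l + 1) (Nat.succ_pos l) hl
    unfold mxE
    rw [if_neg (by omega)]
    refine ⟨fun i j => ?_, fun m => ?_⟩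
    · show RCO.glu (ag A z l) (ag A z (l + 1) - ag A z l) θ
        (fun r => ((q l).dat FF z).dt.f.Φ false i r p)
        (fun r => ((q (l + 1)).dat FF z).dt.f.Φ false j r p) 0 ≤ _
      rw [glu_lo (ag_nonneg A z l)]
      exact mx_le h0 h1 (a1 i) (b1 j)
    · show RCO.glu (ag A z l) (ag A z (l + 1) - ag A z l) θ
        (fun r => ((q l).dat FF z).dp.g.Φ false m r p)
        (fun r => ((q (l + 1)).dat FF z).dp.g.Φ false m r p) 0 ≤ _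
      rw [glu_lo (ag_nonneg A z l)]
      exact mx_le h0 h1 (a2 m) (b2 m)

theorem mxE_m0 {J M Λ : Type*} (q : ℕ → TSys J M Λ) (A : ℕ → ℝ) (l : ℕ) (θ z : ℝ) :
    (mxE FF q A l θ z).m0 = (q (l + 1)).m0 := by
  unfold mxE
  split_ifs with h
  · rw [h]
    rfl
  · rfl

variable {τ : ℝ} {B : EgB}

/-- the values of the first system -/
theorem CelD.Ok.v1 (h : c.Ok FF N ft) (p : c.Pl l θ z τ ρ) {y : Pt} (hy : Fu y) (b : Bool)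
    {r : ℝ} (hr : r ∈ Icc 0 τ) :
    (∀ j, (c.q1 FF z).dt.f.Φ b j r y
      ≤ (c.kd c.nc).tt.f.U FF (c.kd c.nc).t (c.kd c.nc).n b j (r + z) y) ∧
    ∀ m, (c.q1 FF z).dp.g.Φ b m r y
      ≤ (c.kd c.nc).tp.f.U FF (c.kd c.nc).t (c.kd c.nc).n b m (r + z) y := by
  have n0 := h.hN.n0
  have o := h.k.ok _ n0 le_rfl
  have z0 := p.z0
  have e4 := p.hτ
  have me : r + z ∈ Icc ((c.kd c.nc).t 0) ((c.kd c.nc).t (c.kd c.nc).n) := by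
    rw [← (h.k.lnk _ n0 le_rfl).t0, h.hN.t0, h.k.e _ n0 le_rfl, h.hN.an]
    exact ⟨by linarith [hr.1], by linarith [hr.2]⟩
  exact ⟨fun j => o.tt.fam.le h.hF o.hm o.hn b j me hy.1,
    fun m => o.tp.fam.le h.hF o.hm o.hn b m me hy.1⟩

/-- **the values of the columns** -/
theorem CelD.Ok.vc (h : c.Ok FF N ft) (p : c.Pl l θ z τ ρ) (hB : c.Bc FF l θ z ρ B) :
    EgVc ρ (c.q1 FF z).dt (c.q2 FF l θ z).dp (c.q2 FF l θ z).m0 (c.q3 FF l z).dp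
      (c.q3 FF l z).m0 B where
  P1 := fun y hy => by
    obtain ⟨j, hj⟩ := hB.P1 y hy
    exact (infP_le _ y j).trans (((h.v1 p hy true ⟨p.ρ0, p.ρτ⟩).1 j).trans hj)
  N1 := fun y hy => by
    obtain ⟨j, hj⟩ := hB.N1 y hy
    have k := (h.v1 p hy false ⟨le_rfl, p.ρ0.trans p.ρτ⟩).1 j
    exact (infP_le _ y j).trans (k.trans ((le_of_eq (by rw [zero_add])).trans hj))
  Nc2 := fun y hy => by
    refine le_trans ?_ (hB.Nc2 y hy)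
    rw [show (c.q2 FF l θ z).m0 = (c.kd (l + 1)).m0 from mxE_m0 _ _ _ _ _]
    exact (h.k.tv h.hF h.hN p.z0 p.z1 p.hl p.h0 p.h1 hy).2 _
  Nc3 := fun y hy => by
    refine le_trans ?_ (hB.Nc3 y hy)
    exact (h.r.tv1 h.hF h.hN p.z0 p.z1 hy (l + 1) (Nat.succ_pos l) p.hl).2 _

/-- **the values of the rows** -/
theorem CelD.Ok.vr (h : c.Ok FF N ft) (p : c.Pl l θ z τ ρ) (hB : c.Br FF l θ z ρ B) :
    EgVr ρ (c.q1 FF z).dp (c.q1 FF z).m0 (c.q2 FF l θ z).dt (c.q3 FF l z).dt B where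
  Pc1 := fun y hy => ((h.v1 p hy true ⟨p.ρ0, p.ρτ⟩).2 _).trans (hB.Pc1 y hy)
  Nc1 := fun y hy => by
    have k := (h.v1 p hy false ⟨le_rfl, p.ρ0.trans p.ρτ⟩).2 (c.q1 FF z).m0
    exact k.trans ((le_of_eq (by rw [zero_add]; rfl)).trans (hB.Nc1 y hy))
  N2 := fun y hy => by
    obtain ⟨i, j, hj⟩ := hB.N2 y hy
    exact (infP_le _ y (i, j)).trans
      (((h.k.tv h.hF h.hN p.z0 p.z1 p.hl p.h0 p.h1 hy).1 i j).trans hj)
  N3 := fun y hy => by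
    obtain ⟨j, hj⟩ := hB.N3 y hy
    exact (infP_le _ y j).trans
      (((h.r.tv1 h.hF h.hN p.z0 p.z1 hy (l + 1) (Nat.succ_pos l) p.hl).1 j).trans hj)

end vals

end cel

end Pool.Agent.RZ.RCO
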