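import Pool.Agent.RZ.RCO.Gg4
import Pool.Agent.RZ.RCO.Gg5

/-! A class of a cell from the tables: rows of level 1/2 and sums of level 2 below the functions
of the point (MP_73ccd0_lc). -/

set_option autoImplicit false

namespace Pool.Agent.RZ.RCO

open Set Pool.Agent.RZ.RCRSHalf Pool.Agent.RZ.RCG Pool.Agent.RZ.RCG.Ct
open Pool.Agent.RZ.RCN Pool.Agent.RZ.RCN.K

set_option linter.unusedSectionVars false

/-- **the tables of the sums of level 2 of a cell**: the pairs (targets, positions) `12`: last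
killed, killed `l`; `13`: last killed, released `l`; `21`: killed `l`, last killed; `31`:
released `l`, last killed -/
structure CelK (M M' : Type*) where
  x12 : ℕ → TKs M
  x13 : ℕ → TKs M'
  x21 : ℕ → TKs M
  x31 : ℕ → TKs M

section cel

variable {J M Λ J' M' Λ' Λ0 : Type*} [Fintype J] [Nonempty J] [Fintype M] [Nonempty M]
  [Fintype Λ] [Fintype J'] [Nonempty J'] [Fintype M'] [Nonempty M'] [Fintype Λ'] [Fintype Λ0]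

/-- **the checks of the sums of level 2**, columns -/
structure CelK.Okc (FF : (ℕ → ℝ) → Pt → ℝ) (N : ℕ) (c : CelD J M Λ J' M' Λ' Λ0)
    (k : CelK M M') : Prop where
  e12 : KEs c.A c.nc k.x12
  z12 : KEz N c.nc k.x12
  o12 : ∀ l, 0 < l → l ≤ c.nc → (k.x12 l).Ok FF N (c.kd c.nc) (c.kd l)
  g12 : KGe c.A c.nc k.x12
  e13 : KEs c.A c.nc k.x13
  o13 : ∀ l, 0 < l → l ≤ c.nc → (k.x13 l).Ok FF N (c.kd c.nc) (c.rl l)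

/-- **the checks of the sums of level 2**, rows -/
structure CelK.Okr (FF : (ℕ → ℝ) → Pt → ℝ) (N : ℕ) (c : CelD J M Λ J' M' Λ' Λ0)
    (k : CelK M M') : Prop where
  e21 : KEs c.A c.nc k.x21
  z21 : KEz N c.nc k.x21
  o21 : ∀ l, 0 < l → l ≤ c.nc → (k.x21 l).Ok FF N (c.kd l) (c.kd c.nc)
  e31 : KEs c.A c.nc k.x31
  o31 : ∀ l, 0 < l → l ≤ c.nc → (k.x31 l).Ok FF N (c.rl l) (c.kd c.nc)

/-- the record of bounds is above the used values of the sums of level 2: columns -/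
structure CelK.Bc (FF : (ℕ → ℝ) → Pt → ℝ) (k : CelK M M') (l : ℕ) (θ z : ℝ) (B : EgB) :
    Prop where
  K12 : ∀ p, Fu p → mx θ (kuE FF k.x12 l z p) (kuE FF k.x12 (l + 1) z p) ≤ B.K12 p
  K13 : ∀ p, Fu p → kuE FF k.x13 (l + 1) z p ≤ B.K13 p

/-- the same for the rows -/
structure CelK.Br (FF : (ℕ → ℝ) → Pt → ℝ) (k : CelK M M') (l : ℕ) (θ z : ℝ) (B : EgB) :
    Prop where
  K21 : ∀ p, Fu p → mx θ (kuE FF k.x21 l z p) (kuE FF k.x21 (l + 1) z p) ≤ B.K21 p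
  K31 : ∀ p, Fu p → kuE FF k.x31 (l + 1) z p ≤ B.K31 p

variable {FF : (ℕ → ℝ) → Pt → ℝ} {N : ℕ} {ft : ℕ → Pt → ℝ} {c : CelD J M Λ J' M' Λ' Λ0}
  {k : CelK M M'} {l : ℕ} {z θ ρ : ℝ}
variable {V : Type*} [Fintype V] [DecidableEq V] {Z : Hzd} {sl : ℝ → ℝ → ℝ} {x : V → V → ℝ}
  {P : V → Prop} [DecidablePred P] {A0 D : Finset V} {α τ : ℝ} {S : Finset ℝ}
  {ζ : V → V → ℝ → ℝ} {Y Nw : V → ℝ → ℝ} {gp gp' gm gm' : Finset V → V → V → ℝ → ℝ}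
  {g1 g2 g3 : IxF V → ℝ → ℝ} {B : EgB} {d0 : R12 V (Λ0 × Option V)}

/-- **the rows of level 1/2 of a class** -/
theorem CelD.Ok.g0 (h : c.Ok FF N ft) (p : c.Pl l θ z τ ρ) (hP : RCG.Ct.Wt x P 1)
    (hD : D.card ≤ 2)
    (F : FulD Z x P A0 D α τ (sgE c.A l θ z) ρ S ζ Y Nw
      ((c.d.dat FF c.t c.n z).r12 x P D (Ac0 (Z.hh x P) D ζ Y) (Bc0 (Z.hh x P) D Nw))
      (c.q1 FF z) (c.q2 FF l θ z) (c.q3 FF l z) c.lq c.lq c.lq' gp gp' gm gm' g1 g2 g3)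
    (hB : c.B0 FF z ρ B) :
    (∀ v ∈ Dᶜ, P v → ∑ e ∈ Dᶜ.erase v, ind P e * gm ((Dᶜ.erase v).erase e) v e 0
      ≤ B.G0 (fp x D v)) ∧
    ∀ v ∈ Dᶜ, P v → ∑ e ∈ Dᶜ.erase v, ind P e * gp ((Dᶜ.erase v).erase e) v e ρ
      ≤ B.Gr (fp x D v) := by
  have z0 := p.z0
  have τn : τ + z ≤ c.t c.n := p.hτ.le
  have : Nonempty Λ0 := ⟨c.l1⟩
  constructor
  · intro v hv hPv
    obtain ⟨-, r2, r3⟩ := RwT.rowE h.hd h.hF h.hm h.hn (T12.Ok.rwT h.hd z) hP (wt_of hP) hD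
      F.ful.sol.g F.ful.rows (ρ0 := 0) ⟨le_rfl, p.ρ0.trans p.ρτ⟩ τn (by rw [h.hN.t0]; exact z0)
      (by rw [zero_add])
    exact (rowE_full (m0 := c.l1) r2 (fun m => r3 false m) h.w1 hv hPv ind_le).trans
      (hB.G0 _ (fu_fp hP hD hv hPv))
  · intro v hv hPv
    obtain ⟨r1, -, r3⟩ := RwT.rowE h.hd h.hF h.hm h.hn (T12.Ok.rwT h.hd (ρ + z)) hP (wt_of hP) hD
      F.ful.sol.g F.ful.rows (ρ0 := ρ) ⟨p.ρ0, p.ρτ⟩ τn (by rw [h.hN.t0]; linarith [p.ρ0]) le_rfl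
    exact (rowE_full (m0 := c.l1) r1 (fun m => r3 true m) h.w1 hv hPv ind_le).trans
      (hB.Gr _ (fu_fp hP hD hv hPv))

/-- **the sums of level 2 of the columns** -/
theorem CelD.Ok.kc (h : c.Ok FF N ft) (p : c.Pl l θ z τ ρ) (hk : k.Okc FF N c)
    (F : FulD Z x P A0 D α τ (sgE c.A l θ z) ρ S ζ Y Nw d0
      (c.q1 FF z) (c.q2 FF l θ z) (c.q3 FF l z) c.lq c.lq c.lq' gp gp' gm gm' g1 g2 g3)
    (hS : skE c.A l θ z ⊆ S) (hB : k.Bc FF l θ z B) :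
    (∀ d ∈ Dᶜ, P d → ∃ (l' : VrT V Unit) (Gn Ge : M × Option V → ℝ → ℝ) (K K' : ℝ → ℝ),
      KcD Dᶜ (sgE c.A l θ z) S (Tc0 (Z.hh x P) D ζ Y)
        ((c.q1 FF z).s c.lq x P D (Z.hh x P) (Tc0 (Z.hh x P) D ζ Y) τ ZF) l'
        ((c.q2 FF l θ z).s c.lq x P D (Z.hh x P) (Tc0 (Z.hh x P) D ζ Y) (sgE c.A l θ z) ZF) d
        (ind P) Gn Ge K K' ∧ K 0 ≤ B.K12 (fp x D d)) ∧
    ∀ d ∈ Dᶜ, P d → ∃ (l' : VrT V Unit) (Gn Ge : M' × Option V → ℝ → ℝ) (K K' : ℝ → ℝ),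
      KcD Dᶜ (sgE c.A l θ z) S (Tc0 (Z.hh x P) D ζ Y)
        ((c.q1 FF z).s c.lq x P D (Z.hh x P) (Tc0 (Z.hh x P) D ζ Y) τ ZF) l'
        ((c.q3 FF l z).s c.lq' x P D (Z.hh x P) (Tc0 (Z.hh x P) D ζ Y) (sgE c.A l θ z)
          fun X d e => gm X d e ρ) d (ind P) Gn Ge K K' ∧ K 0 ≤ B.K13 (fp x D d) := by
  have στ := sgE_le h p
  constructor
  · intro d hd hPd
    exact (Ends.kcP h.hF h.hd h.k h.kk h.hN hk.e12 hk.z12 hk.o12 hk.g12 p.z0 p.z1 p.hl p.h0 p.h1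
      hS).kcd
      F.i1 F.i2 στ le_rfl (fun y hy => (mxK_le h.hF h.hN hk.e12 (q := fun _ => c.kd c.nc)
        (q' := c.kd) hk.o12 p.z0 p.z1 p.hl p.h0 p.h1 hy).trans (hB.K12 y hy)) hd hPd
  · intro d hd hPd
    exact (Ends.kcPr h.hF h.r h.hN hk.e13 hk.o13 p.z0 p.z1 p.hl p.h0 p.h1 S).kcd
      F.i1 F.i3 στ le_rfl (fun y hy => (K_le h.hF h.hN hk.e13 (q := fun _ => c.kd c.nc)
        (q' := c.rl) hk.o13 p.z0 p.z1 hy (l + 1) (Nat.succ_pos l) p.hl).trans (hB.K13 y hy)) hd hPd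

/-- **the sums of level 2 of the rows** -/
theorem CelD.Ok.kr (h : c.Ok FF N ft) (p : c.Pl l θ z τ ρ) (hk : k.Okr FF N c)
    (F : FulD Z x P A0 D α τ (sgE c.A l θ z) ρ S ζ Y Nw d0
      (c.q1 FF z) (c.q2 FF l θ z) (c.q3 FF l z) c.lq c.lq c.lq' gp gp' gm gm' g1 g2 g3)
    (hS : skE c.A l θ z ⊆ S) (hB : k.Br FF l θ z B) :
    (∀ d ∈ Dᶜ, P d → ∃ (l' : VrT V Unit) (Gn Ge : M × Option V → ℝ → ℝ) (K K' : ℝ → ℝ),
      KcD Dᶜ (sgE c.A l θ z) S (Tc0 (Z.hh x P) D ζ Y)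
        ((c.q2 FF l θ z).s c.lq x P D (Z.hh x P) (Tc0 (Z.hh x P) D ζ Y) (sgE c.A l θ z) ZF) l'
        ((c.q1 FF z).s c.lq x P D (Z.hh x P) (Tc0 (Z.hh x P) D ζ Y) τ ZF) d
        (ind P) Gn Ge K K' ∧ K 0 ≤ B.K21 (fp x D d)) ∧
    ∀ d ∈ Dᶜ, P d → ∃ (l' : VrT V Unit) (Gn Ge : M × Option V → ℝ → ℝ) (K K' : ℝ → ℝ),
      KcD Dᶜ (sgE c.A l θ z) S (Tc0 (Z.hh x P) D ζ Y)
        ((c.q3 FF l z).s c.lq' x P D (Z.hh x P) (Tc0 (Z.hh x P) D ζ Y) (sgE c.A l θ z)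
          fun X d e => gm X d e ρ) l'
        ((c.q1 FF z).s c.lq x P D (Z.hh x P) (Tc0 (Z.hh x P) D ζ Y) τ ZF) d (ind P) Gn Ge K K' ∧
        K 0 ≤ B.K31 (fp x D d) := by
  have στ := sgE_le h p
  constructor
  · intro d hd hPd
    exact (Ends.kcT h.hF h.k h.kk h.k h.hN hk.e21 hk.z21 hk.o21 p.z0 p.z1 p.hl p.h0 p.h1 hS).kcd
      F.i2 F.i1 le_rfl στ (fun y hy => (mxK_le h.hF h.hN hk.e21 (q := c.kd)
        (q' := fun _ => c.kd c.nc) hk.o21 p.z0 p.z1 p.hl p.h0 p.h1 hy).trans (hB.K21 y hy)) hd hPd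
  · intro d hd hPd
    exact (Ends.kcTr h.hF h.k h.hN hk.e31 hk.o31 p.z0 p.z1 p.hl p.h0 p.h1 S).kcd
      F.i3 F.i1 le_rfl στ (fun y hy => (K_le h.hF h.hN hk.e31 (q := c.rl)
        (q' := fun _ => c.kd c.nc) hk.o31 p.z0 p.z1 hy (l + 1) (Nat.succ_pos l) p.hl).trans
        (hB.K31 y hy)) hd hPd

end cel

end Pool.Agent.RZ.RCO
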