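import Pool.Agent.RZ.RCO.Ed4i
import Pool.Agent.RZ.RCO.Gg6
import Pool.Agent.RZ.RCO.Sk1

/-! Route P: all solutions and all bounds of a class from the tables of its big cell
(MP_73ccd0_lc). -/

set_option autoImplicit false
set_option linter.unusedSectionVars false

namespace Pool.Agent.RZ.RCO

open Set Finset MeasureTheory Pool.Agent.RZ.RCRSHalf Pool.Agent.RZ.RCG Pool.Agent.RZ.RCG.Ct
open Pool.Agent.RZ.RCN Pool.Agent.RZ.RCN.K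

/-- the direct parts and the rates are below the record of bounds: `nh`, `nf` the losses of the
deleted and of the released constants -/
structure DjB (q : Dj) (nh nf : ℕ) (cc : ℝ) (l : ℕ) (a b σ ρ : ℝ) (B : EgB) : Prop where
  dd : ∀ p, Fu p → (1 - p.k) * li a b (q.Jc nh cc l) (q.Jc nh cc (l + 1)) σ ≤ B.dd p
  df : ∀ p, Fu p → (1 - p.k) * li a b (q.Jc nf cc l) (q.Jc nf cc (l + 1)) σ ≤ B.df p
  Hr : ∀ p, Fu p → (1 - p.k) * (li a b (DjW.Hl q cc l) ((q.I (l + 1) : ℝ) / 2 ^ 24) σ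
    + (q.Lm : ℝ) / 2 ^ 24 * (σ - ρ)) ≤ B.Hr p

/-- the losses of the columns at the points `Q` -/
structure DjNc (nh nf : ℕ) (B : EgB) (Q : Pt → Prop) : Prop where
  d : ∀ p, Q p → B.N1 p + B.Nc2 p ≤ (1 - p.k) * ((nh : ℝ) / 2 ^ 24)
  f : ∀ p, Q p → B.N1 p + (B.Gr p + B.Nc3 p) ≤ (1 - p.k) * ((nf : ℝ) / 2 ^ 24)

/-- the losses of the rows at the points `Q` -/
structure DjNr (nh nf : ℕ) (B : EgB) (Q : Pt → Prop) : Prop where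
  d : ∀ p, Q p → B.Nc1 p + B.N2 p ≤ (1 - p.k) * ((nh : ℝ) / 2 ^ 24)
  f : ∀ p, Q p → B.Nc1 p + (B.Gr p + B.N3 p) ≤ (1 - p.k) * ((nf : ℝ) / 2 ^ 24)

section cel

variable {J M Λ J' M' Λ' Λ0 : Type*} [Fintype J] [Nonempty J] [Fintype M] [Nonempty M]
  [Fintype Λ] [Fintype J'] [Nonempty J'] [Fintype M'] [Nonempty M'] [Fintype Λ'] [Fintype Λ0]
variable {FF : (ℕ → ℝ) → Pt → ℝ} {N : ℕ} {ft : ℕ → Pt → ℝ} {c : CelD J M Λ J' M' Λ' Λ0}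
  {k : CelK M M'} {l : ℕ} {z θ ρ : ℝ}
variable {V : Type*} [Fintype V] [DecidableEq V] {Z : Hzd} {sl : ℝ → ℝ → ℝ} {x : V → V → ℝ}
  {P : V → Prop} [DecidablePred P] {A0 D : Finset V} {α τ : ℝ} {S : Finset ℝ}
  {ζ : V → V → ℝ → ℝ} {Y Nw : V → ℝ → ℝ} {gp gp' gm gm' : Finset V → V → V → ℝ → ℝ}
  {g1 g2 g3 : IxF V → ℝ → ℝ} {B : EgB} {q : Dj} {cc a b : ℝ} {nh nf : ℕ} {Q : Pt → Prop}

/-- **the columns of a class** -/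
theorem CelD.Ok.cols (h : c.Ok FF N ft) (p : c.Pl l θ z τ ρ) (hP : RCG.Ct.Wt x P 1)
    (hD : D.card ≤ 2)
    (F : FulD Z x P A0 D α τ (sgE c.A l θ z) ρ S ζ Y Nw
      ((c.d.dat FF c.t c.n z).r12 x P D (Ac0 (Z.hh x P) D ζ Y) (Bc0 (Z.hh x P) D Nw))
      (c.q1 FF z) (c.q2 FF l θ z) (c.q3 FF l z) c.lq c.lq c.lq' gp gp' gm gm' g1 g2 g3)
    (hk : k.Okc FF N c) (hS : skE c.A l θ z ⊆ S)
    (hw : DjW q x P D (Z.hh x P) (Tc0 (Z.hh x P) D ζ Y) τ (sgE c.A l θ z) z cc l a b)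
    (ρσ : ρ ≤ sgE c.A l θ z)
    (h0 : c.B0 FF z ρ B) (hc : c.Bc FF l θ z ρ B) (hkc : k.Bc FF l θ z B)
    (hd : DjB q nh nf cc l a b (sgE c.A l θ z) ρ B) (hn : DjNc nh nf B Q)
    (hQ : ∀ d ∈ Dᶜ, P d → Q (fp x D d)) :
    EgI0 Z x P D τ ρ gp gm B ∧
    EgIc Z x P D (sgE c.A l θ z) ρ S (Tc0 (Z.hh x P) D ζ Y)
      ((c.q1 FF z).s c.lq x P D (Z.hh x P) (Tc0 (Z.hh x P) D ζ Y) τ ZF)
      ((c.q2 FF l θ z).s c.lq x P D (Z.hh x P) (Tc0 (Z.hh x P) D ζ Y) (sgE c.A l θ z) ZF)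
      ((c.q3 FF l z).s c.lq' x P D (Z.hh x P) (Tc0 (Z.hh x P) D ζ Y) (sgE c.A l θ z)
        fun X d e => gm X d e ρ) gp g1 g2 g3 B ∧
    EgVc ρ (c.q1 FF z).dt (c.q2 FF l θ z).dp (c.q2 FF l θ z).m0 (c.q3 FF l z).dp
      (c.q3 FF l z).m0 B := by
  obtain ⟨b1, b2⟩ := h.g0 p hP hD F h0
  obtain ⟨b3, b4⟩ := h.kc p hk F hS hkc
  have hv := h.vc p hc
  obtain ⟨b5, b6⟩ := F.dirc (nh := nh) (nf := nf) hD hv hw
  have fu : ∀ v ∈ Dᶜ, P v → Fu (fp x D v) := fun v hv hPv => fu_fp hP hD hv hPv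
  refine ⟨⟨b1, b2, fun e he hPe => ?_⟩, ⟨b3, b4, fun d hdD hPd => ?_, fun d hdD hPd => ?_⟩, hv⟩
  · exact (hw.Hr p.ρ0 ρσ e).trans (hd.Hr _ (fu e he hPe))
  · exact (b5 (fun d h1 h2 => hn.d _ (hQ d h1 h2)) d hdD hPd).trans (hd.dd _ (fu d hdD hPd))
  · exact (b6 b2 (fun d h1 h2 => hn.f _ (hQ d h1 h2)) d hdD hPd).trans (hd.df _ (fu d hdD hPd))

/-- **the rows of a class** -/
theorem CelD.Ok.rowsB (h : c.Ok FF N ft) (p : c.Pl l θ z τ ρ) (hP : RCG.Ct.Wt x P 1)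
    (hD : D.card ≤ 2)
    (F : FulD Z x P A0 D α τ (sgE c.A l θ z) ρ S ζ Y Nw
      ((c.d.dat FF c.t c.n z).r12 x P D (Ac0 (Z.hh x P) D ζ Y) (Bc0 (Z.hh x P) D Nw))
      (c.q1 FF z) (c.q2 FF l θ z) (c.q3 FF l z) c.lq c.lq c.lq' gp gp' gm gm' g1 g2 g3)
    (hk : k.Okr FF N c) (hS : skE c.A l θ z ⊆ S)
    (hw : DjW q x P D (Z.hh x P) (Tc0 (Z.hh x P) D ζ Y) τ (sgE c.A l θ z) z cc l a b)
    (h0 : c.B0 FF z ρ B) (hr : c.Br FF l θ z ρ B) (hkr : k.Br FF l θ z B)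
    (hd : DjB q nh nf cc l a b (sgE c.A l θ z) ρ B) (hn : DjNr nh nf B Q)
    (hQ : ∀ d ∈ Dᶜ, P d → Q (fp x D d)) :
    EgIr Z x P D (sgE c.A l θ z) ρ S (Tc0 (Z.hh x P) D ζ Y)
      ((c.q1 FF z).s c.lq x P D (Z.hh x P) (Tc0 (Z.hh x P) D ζ Y) τ ZF)
      ((c.q2 FF l θ z).s c.lq x P D (Z.hh x P) (Tc0 (Z.hh x P) D ζ Y) (sgE c.A l θ z) ZF)
      ((c.q3 FF l z).s c.lq' x P D (Z.hh x P) (Tc0 (Z.hh x P) D ζ Y) (sgE c.A l θ z)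
        fun X d e => gm X d e ρ) gp g1 g2 g3 B ∧
    EgVr ρ (c.q1 FF z).dp (c.q1 FF z).m0 (c.q2 FF l θ z).dt (c.q3 FF l z).dt B := by
  obtain ⟨-, b2⟩ := h.g0 p hP hD F h0
  obtain ⟨b3, b4⟩ := h.kr p hk F hS hkr
  have hv := h.vr p hr
  obtain ⟨b5, b6⟩ := F.dirr (nh := nh) (nf := nf) hD hv hw
  have fu : ∀ v ∈ Dᶜ, P v → Fu (fp x D v) := fun v hv hPv => fu_fp hP hD hv hPv
  refine ⟨⟨b3, b4, fun d hdD hPd => ?_, fun d hdD hPd => ?_⟩, hv⟩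
  · exact (b5 (fun d h1 h2 => hn.d _ (hQ d h1 h2)) d hdD hPd).trans (hd.dd _ (fu d hdD hPd))
  · exact (b6 b2 (fun d h1 h2 => hn.f _ (hQ d h1 h2)) d hdD hPd).trans (hd.df _ (fu d hdD hPd))

/-- **all solutions of a world and the bounds of its class**: columns and rows -/
theorem CelD.Ok.fulB (h : c.Ok FF N ft) (p : c.Pl l θ z τ ρ)
    (W : Wrl Z x P A0 D α τ (sgE c.A l θ z) S ζ Y Nw (c.d.dat FF c.t c.n z) c.l1)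
    (hZ : Z.Ok sl) (hk : k.Okc FF N c) (hk' : k.Okr FF N c) (hS : skE c.A l θ z ⊆ S)
    (hw : DjW q x P D (Z.hh x P) (Tc0 (Z.hh x P) D ζ Y) τ (sgE c.A l θ z) z cc l a b)
    (ρσ : ρ ≤ sgE c.A l θ z)
    (h0 : c.B0 FF z ρ B) (hc : c.Bc FF l θ z ρ B) (hkc : k.Bc FF l θ z B)
    (hr : c.Br FF l θ z ρ B) (hkr : k.Br FF l θ z B)
    (hd : DjB q nh nf cc l a b (sgE c.A l θ z) ρ B) (hn : DjNc nh nf B Q) (hn' : DjNr nh nf B Q)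
    (hQ : ∀ d ∈ Dᶜ, P d → Q (fp x D d)) :
    ∃ gp gp' gm gm' g1 g2 g3, FulD Z x P A0 D α τ (sgE c.A l θ z) ρ S ζ Y Nw
      ((c.d.dat FF c.t c.n z).r12 x P D (Ac0 (Z.hh x P) D ζ Y) (Bc0 (Z.hh x P) D Nw))
      (c.q1 FF z) (c.q2 FF l θ z) (c.q3 FF l z) c.lq c.lq c.lq' gp gp' gm gm' g1 g2 g3 ∧
      FulB Z x P D τ (sgE c.A l θ z) ρ S ζ Y (c.q1 FF z) (c.q2 FF l θ z) (c.q3 FF l z)
        c.lq c.lq c.lq' gp gm g1 g2 g3 B := by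
  obtain ⟨gp, gp', gm, gm', g1, g2, g3, F⟩ := h.ful p W hZ hS
  obtain ⟨e0, e1, e2⟩ := h.cols p W.hP W.hD F hk hS hw ρσ h0 hc hkc hd hn hQ
  obtain ⟨e3, e4⟩ := h.rowsB p W.hP W.hD F hk' hS hw h0 hr hkr hd hn' hQ
  exact ⟨gp, gp', gm, gm', g1, g2, g3, F, ⟨e0, e1, e3, e2, e4⟩⟩

end cel

/-! ### the world of a class -/

section cls

variable {J M Λ J' M' Λ' Λ0 : Type} [Fintype J] [Nonempty J] [Fintype M] [Nonempty M]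
  [Fintype Λ] [Fintype J'] [Nonempty J'] [Fintype M'] [Nonempty M'] [Fintype Λ'] [Fintype Λ0]
variable {FF : (ℕ → ℝ) → Pt → ℝ} {N : ℕ} {ft : ℕ → Pt → ℝ} {c : CelD J M Λ J' M' Λ' Λ0}
  {k : CelK M M'} {l : ℕ} {z θ : ℝ}
variable {V : Type} [Fintype V] [DecidableEq V] {Z : Hzd} {sl : ℝ → ℝ → ℝ} {x : V → V → ℝ}
  {P : V → Prop} [DecidablePred P] {A0 D : Finset V}
  {ζ : V → V → ℝ → ℝ} {Y Nw : V → ℝ → ℝ} {B : EgB} {q : Dj} {cc a b : ℝ} {nh nf : ℕ} {Q : Pt → Prop}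
  {R : RT.Tab} {mi : ℕ → ℕ} {ε : ℝ} {i j : ℕ}

/-- **the world of a class with the bounds of the table**, pairs -/
theorem CelD.Ok.wexT (h : c.Ok FF N ft)
    (p : c.Pl l θ z (cb R.N i) (max 0 (sgm (sgN R.N) ε i j)))
    (hσ : sgE c.A l θ z = sgN R.N i j) (ε0 : 0 < ε) (N0 : 0 < R.N)
    (W : Wrl Z x P A0 D (ca R.N i) (cb R.N i) (sgE c.A l θ z) (skE c.A l θ z) ζ Y Nw
      (c.d.dat FF c.t c.n z) c.l1)
    (hZ : Z.Ok sl) (hk : k.Okc FF N c) (hk' : k.Okr FF N c)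
    (hw : DjW q x P D (Z.hh x P) (Tc0 (Z.hh x P) D ζ Y) (cb R.N i) (sgE c.A l θ z) z cc l a b)
    (h0 : c.B0 FF z (max 0 (sgm (sgN R.N) ε i j)) B)
    (hc : c.Bc FF l θ z (max 0 (sgm (sgN R.N) ε i j)) B) (hkc : k.Bc FF l θ z B)
    (hr : c.Br FF l θ z (max 0 (sgm (sgN R.N) ε i j)) B) (hkr : k.Br FF l θ z B)
    (hd : DjB q nh nf cc l a b (sgE c.A l θ z) (max 0 (sgm (sgN R.N) ε i j)) B)
    (hn : DjNc nh nf B Q) (hn' : DjNr nh nf B Q)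
    (hQ : ∀ d ∈ Dᶜ, P d → Q (fp x D d))
    (hv : ∀ t ∈ Icc (0 : ℝ) 1, ci R.N t = i → ∀ s ∈ Icc 0 t, Act MN (sgN R.N) ε i s j →
      RvB R (mi i) t s B) : WexT Z x P R mi ε A0 D i j := by
  have ρσ : max 0 (sgm (sgN R.N) ε i j) ≤ sgE c.A l θ z :=
    max_le (sgE_nonneg h p) (by rw [hσ]; exact sgN_sgm_le ε0 N0 i j)
  obtain ⟨gp, gp', gm, gm', g1, g2, g3, F, G⟩ := h.fulB p W hZ hk hk' (Finset.Subset.refl _) hw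
    ρσ h0 hc hkc hr hkr hd hn hn' hQ
  rw [hσ] at F G
  exact .mk ⟨_, ζ, Y, Nw, _, _, _, _, _, _, _, gp, gp', gm, gm', g1, g2, g3, B, F, G, hv⟩

end cls

end Pool.Agent.RZ.RCO
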