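import Pool.Agent.RZ.RCO.Ed4e
import Pool.Agent.RZ.RCO.St8

/-! Route P: the integers of the direct parts from the table of a world (MP_73ccd0_lc). -/

set_option autoImplicit false
set_option linter.unusedSectionVars false

namespace Pool.Agent.RZ.RCO

open Set Finset MeasureTheory Pool.Agent.RZ.RCRSHalf Pool.Agent.RZ.RCG Pool.Agent.RZ.RCG.Ct
open Pool.Agent.RZ.RCN Pool.Agent.RZ.RCN.K Sg

/-! ### the boosts -/

/-- the maximum of the boosts for the killed masses `k ≤ kk XM / 1024` -/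
def wmx (kk w0 w1 w2 : ℕ) : ℕ :=
  max w0 (max (cdiv (2 * w0 * (cB - kk) + w1 * kk) (2 * cB))
    (cdiv (w0 * (cB - kk) ^ 2 + w1 * (kk * (cB - kk)) + w2 * kk ^ 2) (cB ^ 2)))

theorem wmx_ge {kk w0 w1 w2 : ℕ} (k0 : 0 < kk) (k1 : kk ≤ cB) {s : ℝ} (s0 : 0 ≤ s)
    (s1 : s ≤ (kk : ℝ) / cB) : b3 w0 w1 w2 s ≤ wmx kk w0 w1 w2 := by
  obtain ⟨M, hM⟩ : ∃ M, M = wmx kk w0 w1 w2 := ⟨_, rfl⟩
  have a0 : w0 ≤ M := by rw [hM]; exact le_max_left _ _
  have a1 : cdiv (2 * w0 * (cB - kk) + w1 * kk) (2 * cB) ≤ M := by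
    rw [hM]
    exact (le_max_left _ _).trans (le_max_right _ _)
  have a2 : cdiv (w0 * (cB - kk) ^ 2 + w1 * (kk * (cB - kk)) + w2 * kk ^ 2) (cB ^ 2) ≤ M := by
    rw [hM]
    exact (le_max_right _ _).trans (le_max_right _ _)
  have cB0 : 0 < cB := lt_of_lt_of_le k0 k1
  have b1 := (cdiv_ge (a := 2 * w0 * (cB - kk) + w1 * kk) (b := 2 * cB) (by omega)).trans
    (Nat.mul_le_mul_right _ a1)
  have b2 := (cdiv_ge (a := w0 * (cB - kk) ^ 2 + w1 * (kk * (cB - kk)) + w2 * kk ^ 2)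
    (b := cB ^ 2) (by positivity)).trans (Nat.mul_le_mul_right _ a2)
  rw [← hM]
  obtain ⟨B, hB⟩ : ∃ B : ℝ, B = (cB : ℝ) := ⟨_, rfl⟩
  have B0 : 0 < B := by rw [hB]; exact_mod_cast cB0
  obtain ⟨q, hq⟩ : ∃ q : ℝ, q = (kk : ℝ) := ⟨_, rfl⟩
  have q0 : 0 < q := by rw [hq]; exact_mod_cast k0
  have e1 : ((cB - kk : ℕ) : ℝ) = B - q := by
    rw [Nat.cast_sub k1, hB, hq]
  have r0 : (w0 : ℝ) ≤ M := by exact_mod_cast a0
  have r1 := (Nat.cast_le (α := ℝ)).2 b1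
  have r2 := (Nat.cast_le (α := ℝ)).2 b2
  push_cast [e1, ← hB, ← hq] at r1 r2
  rw [← hB, ← hq] at s1
  obtain ⟨c, hc⟩ : ∃ c : ℝ, c = q / B := ⟨_, rfl⟩
  have c0 : 0 < c := by rw [hc]; positivity
  have hcB : c * B = q := by rw [hc]; field_simp
  rw [← hc] at s1
  have t1 : 2 * (w0 : ℝ) * (1 - c) + w1 * c ≤ 2 * M := by
    have h1 : (2 * (w0 : ℝ) * (1 - c) + w1 * c) * B ≤ 2 * M * B := by
      have : (2 * (w0 : ℝ) * (1 - c) + w1 * c) * B = 2 * w0 * (B - c * B) + w1 * (c * B) := by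
        ring
      rw [this, hcB]
      linarith
    exact le_of_mul_le_mul_right h1 B0
  have t2 : b3 w0 w1 w2 c ≤ M := by
    have h1 : b3 w0 w1 w2 c * B ^ 2 ≤ M * B ^ 2 := by
      have : b3 w0 w1 w2 c * B ^ 2 = w0 * (B - c * B) ^ 2 + w1 * (c * B * (B - c * B))
          + w2 * (c * B) ^ 2 := by
        unfold b3
        ring
      rw [this, hcB]
      linarith
    exact le_of_mul_le_mul_right h1 (by positivity)
  have u0 : 0 ≤ s / c := div_nonneg s0 c0.le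
  have u1 : 0 ≤ 1 - s / c := by
    have := (div_le_one c0).2 s1
    linarith
  have e2 : b3 w0 w1 w2 s = w0 * (1 - s / c) ^ 2
      + (2 * w0 * (1 - c) + w1 * c) * (s / c * (1 - s / c)) + b3 w0 w1 w2 c * (s / c) ^ 2 := by
    unfold b3
    field_simp
    ring
  rw [e2]
  calc _ ≤ (M : ℝ) * (1 - s / c) ^ 2 + 2 * M * (s / c * (1 - s / c)) + M * (s / c) ^ 2 :=
        add_le_add (add_le_add (mul_le_mul_of_nonneg_right r0 (sq_nonneg _))
          (mul_le_mul_of_nonneg_right t1 (mul_nonneg u0 u1)))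
          (mul_le_mul_of_nonneg_right t2 (sq_nonneg _))
    _ = M := by ring

/-! ### the tie of the integers to the table -/

/-- the bound of the rates in a row -/
noncomputable def rN (D R i0 i1 i2 j : ℕ) : ℕ :=
  cdiv (RCG.xN ^ 2 * Sg.g D (R * j + i0) + (RCG.xN * Sg.g D (R * j + i1) + Sg.g D (R * j + i2)))
    (RCG.xN ^ 2)

/-- the bound of the boosts in a row -/
noncomputable def wN (kk D R iW nW j : ℕ) : ℕ :=
  wmx kk (Sg.g D (R * j + iW)) (w3b nW (Sg.g D (R * j + iW)) (Sg.g D (R * j + (iW + 1))))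
    (w3c nW (Sg.g D (R * j + (iW + 1))) (Sg.g D (R * j + (iW + 2))))

/-- **the integers are those of the table**: rates at the entries `i0`, `i1`, `i2`, boosts at
`iW`, `nW = 2, 3` of them; `kk = 2048` pairs, `kk = 1024` stars -/
noncomputable def Dj.tie (q : Dj) (kk D R iH i0 i1 i2 iW nW : ℕ) : Bool :=
  (Nat.beq nW 2 || Nat.beq nW 3) && (Nat.beq kk 1024 || Nat.beq kk 2048)
    && allL (fun j => Nat.beq (q.h j) (Sg.g D (R * j + iH))
      && (Nat.ble (rN D R i0 i1 i2 j) (q.R j) && Nat.ble (rN D R i0 i1 i2 (j + 1)) (q.R j))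
      && (Nat.ble (wN kk D R iW nW j) (q.W j) && Nat.ble (wN kk D R iW nW (j + 1)) (q.W j)))
      (List.range q.n)

/-- the conditions of the tie -/
structure Dj.Tie (q : Dj) (kk D R iH i0 i1 i2 iW nW : ℕ) : Prop where
  hW : nW = 2 ∨ nW = 3
  hk : kk = 1024 ∨ kk = 2048
  h : ∀ j < q.n, q.h j = Sg.g D (R * j + iH)
  r0 : ∀ j < q.n, rN D R i0 i1 i2 j ≤ q.R j
  r1 : ∀ j < q.n, rN D R i0 i1 i2 (j + 1) ≤ q.R j
  w0 : ∀ j < q.n, wN kk D R iW nW j ≤ q.W j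
  w1 : ∀ j < q.n, wN kk D R iW nW (j + 1) ≤ q.W j

namespace Dj

variable {q : Dj} {kk D R iH i0 i1 i2 iW nW : ℕ}

theorem tie_of (h : q.tie kk D R iH i0 i1 i2 iW nW = true) : q.Tie kk D R iH i0 i1 i2 iW nW := by
  unfold tie at h
  simp only [Bool.and_eq_true, Bool.or_eq_true] at h
  obtain ⟨⟨a1, a2⟩, a3⟩ := h
  have a4 : ∀ j < q.n, _ := fun j (hj : j < q.n) => allL_of a3 j (List.mem_range.2 hj)
  simp only [Bool.and_eq_true] at a4
  exact ⟨a1.imp Nat.eq_of_beq_eq_true Nat.eq_of_beq_eq_true,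
    a2.imp Nat.eq_of_beq_eq_true Nat.eq_of_beq_eq_true,
    fun j hj => Nat.eq_of_beq_eq_true (a4 j hj).1.1,
    fun j hj => Nat.le_of_ble_eq_true (a4 j hj).1.2.1,
    fun j hj => Nat.le_of_ble_eq_true (a4 j hj).1.2.2,
    fun j hj => Nat.le_of_ble_eq_true (a4 j hj).2.1,
    fun j hj => Nat.le_of_ble_eq_true (a4 j hj).2.2⟩

/-- the mesh of the table -/
theorem Tie.tt (h : q.Tie kk D R iH i0 i1 i2 iW nW) : ∀ j ≤ q.n, q.t j = tmD D R iH j
  | 0, _ => by rw [t_zero, tmD_zero]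
  | j + 1, hj => by
    have h1 := Tie.tt h j (by omega)
    have h2 := q.t_sub j
    have h4 := tmD_succ D R iH j
    have h3 : un D R iH j = (q.h j : ℝ) / 2 ^ 24 := by
      rw [h.h j hj]
      rfl
    rw [h3, ← h2] at h4
    linarith

/-- the rates -/
theorem Tie.rR (h : q.Tie kk D R iH i0 i1 i2 iW nW) (hm : Msh (tmD D R iH) q.n) {j : ℕ}
    (hj : j < q.n) {u : ℝ} (hu : u ∈ Icc (tmD D R iH j) (tmD D R iH (j + 1))) {y : ℝ}
    (hy : y ∈ Icc (0 : ℝ) RCG.XM) :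
    hT [lr R i0, lr R i1, lr R i2] (cD (tmD D R iH) q.n u) (eD D R (tmD D R iH) q.n u) y
      ≤ q.Rr j := by
  have hn : 0 < q.n := by omega
  have mem : u ∈ Icc (tmD D R iH 0) (tmD D R iH q.n) :=
    ⟨(hm.le (Nat.zero_le j) hj.le).trans hu.1, hu.2.trans (hm.le hj le_rfl)⟩
  have st := ixD_spec hm hn mem
  have v : ∀ i, (lr R i).tv (cD (tmD D R iH) q.n u) (eD D R (tmD D R iH) q.n u)
      = uT D R (tmD D R iH) q.n i u := fun i =>
    st.lr (ρ := rho3 0 0 (cD (tmD D R iH) q.n u)) rfl i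
  have e : hT [lr R i0, lr R i1, lr R i2] (cD (tmD D R iH) q.n u) (eD D R (tmD D R iH) q.n u) y
      = uT D R (tmD D R iH) q.n i0 u + y * (uT D R (tmD D R iH) q.n i1 u
        + y * (uT D R (tmD D R iH) q.n i2 u + y * 0)) := by
    rw [← v i0, ← v i1, ← v i2]
    rfl
  rw [e]
  have s : Stp (tmD D R iH) q.n j u := ⟨hm, hj, hu⟩
  rw [← s.ul, ← s.ul, ← s.ul]
  have N0 := RCG.xN_pos
  have X0 := RCG.XM_pos
  have hX : RCG.XM = 1 / (RCG.xN : ℝ) := rfl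
  -- a row
  have row : ∀ i, rN D R i0 i1 i2 i ≤ q.R j →
      un D R i0 i + y * (un D R i1 i + y * (un D R i2 i + y * 0)) ≤ q.Rr j := fun i hi => by
    have a1 := un_nonneg D R i i1
    have a2 := un_nonneg D R i i2
    have hyy : y * y ≤ RCG.XM * RCG.XM := mul_le_mul hy.2 hy.2 hy.1 X0.le
    have b1 : un D R i0 i + y * (un D R i1 i + y * (un D R i2 i + y * 0))
        ≤ un D R i0 i + (RCG.XM * un D R i1 i + RCG.XM * RCG.XM * un D R i2 i) := by
      have c1 := mul_le_mul_of_nonneg_right hy.2 a1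
      have c2 := mul_le_mul_of_nonneg_right hyy a2
      linarith
    refine b1.trans ?_
    have c : ((RCG.xN ^ 2 * Sg.g D (R * i + i0) + (RCG.xN * Sg.g D (R * i + i1) + Sg.g D (R * i + i2)) : ℕ)
        : ℝ) / ((RCG.xN ^ 2 : ℕ) : ℝ) ≤ (rN D R i0 i1 i2 i : ℝ) :=
      cdiv_real (pow_pos (by have := RCG.two_le_xN; omega) 2)
    have c2 := (c.trans ((Nat.cast_le (α := ℝ)).2 hi))
    have c3 := div_le_div_of_nonneg_right c2 (by positivity : (0 : ℝ) ≤ 2 ^ 24)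
    refine le_trans (le_of_eq ?_) c3
    show (Sg.g D (R * i + i0) : ℝ) / 2 ^ 24 + (RCG.XM * ((Sg.g D (R * i + i1) : ℝ) / 2 ^ 24)
      + RCG.XM * RCG.XM * ((Sg.g D (R * i + i2) : ℝ) / 2 ^ 24)) = _
    push_cast
    rw [hX]
    field_simp
  have h1 := row j (h.r0 j hj)
  have h2 := row (j + 1) (h.r1 j hj)
  have h3 := mix_le s.c0 s.c1 h1 h2
  refine le_trans (le_of_eq ?_) (h3.trans (le_of_eq (by ring)))
  unfold ul
  ring

/-- the boosts -/
theorem Tie.wW (h : q.Tie kk D R iH i0 i1 i2 iW nW) (hm : Msh (tmD D R iH) q.n) {j : ℕ}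
    (hj : j < q.n) {u : ℝ} (hu : u ∈ Icc (tmD D R iH j) (tmD D R iH (j + 1))) {k : ℝ}
    (k0 : 0 ≤ k) (hk : k ≤ kk * (RCG.XM / 1024)) :
    (plr R 0 iW nW).kv (cD (tmD D R iH) q.n u) (eD D R (tmD D R iH) q.n u) k
      ≤ (q.W j : ℝ) / 2 ^ 24 := by
  have hn : 0 < q.n := by omega
  have mem : u ∈ Icc (tmD D R iH 0) (tmD D R iH q.n) :=
    ⟨(hm.le (Nat.zero_le j) hj.le).trans hu.1, hu.2.trans (hm.le hj le_rfl)⟩
  have st := ixD_spec hm hn mem
  have e : (plr R 0 iW nW).kv (cD (tmD D R iH) q.n u) (eD D R (tmD D R iH) q.n u) k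
      = kp (bφ nW) nW (fun l => uT D R (tmD D R iH) q.n (iW + l) u) k :=
    plr_kp (ρ := rho3 k 0 (cD (tmD D R iH) q.n u)) st rfl rfl iW nW
  rw [e]
  have s : Stp (tmD D R iH) q.n j u := ⟨hm, hj, hu⟩
  have e2 : kp (bφ nW) nW (fun l => uT D R (tmD D R iH) q.n (iW + l) u) k
      = (1 - stc (tmD D R iH) j u) * kp (bφ nW) nW (fun l => un D R (iW + l) j) k
        + stc (tmD D R iH) j u * kp (bφ nW) nW (fun l => un D R (iW + l) (j + 1)) k := by
    unfold kp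
    rw [Finset.mul_sum, Finset.mul_sum, ← Finset.sum_add_distrib]
    refine Finset.sum_congr rfl fun i _ => ?_
    have := s.ul D R (iW + i)
    unfold ul at this
    show uT D R (tmD D R iH) q.n (iW + i) u * bφ nW i k
      = (1 - stc (tmD D R iH) j u) * (un D R (iW + i) j * bφ nW i k)
        + stc (tmD D R iH) j u * (un D R (iW + i) (j + 1) * bφ nW i k)
    rw [← this]
    ring
  rw [e2]
  have hkk : 0 < kk := by rcases h.hk with h1 | h1 <;> omega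
  have hkB : kk ≤ cB := by
    have := cB_ge
    rcases h.hk with h1 | h1 <;> omega
  have s0 : 0 ≤ k / kS := div_nonneg k0 kS_pos.le
  have s1 : k / kS ≤ (kk : ℝ) / cB := by
    have h1 := div_le_div_of_nonneg_right hk kS_pos.le
    refine h1.trans (le_of_eq ?_)
    have := X_cB
    calc (kk : ℝ) * (RCG.XM / 1024) / kS = kk / 1024 * (RCG.XM / kS) := by ring
      _ = kk / 1024 * (1024 / (cB : ℝ)) := by rw [this]
      _ = _ := by ring
  have row : ∀ i, wN kk D R iW nW i ≤ q.W j →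
      kp (bφ nW) nW (fun l => un D R (iW + l) i) k ≤ (q.W j : ℝ) / 2 ^ 24 := fun i hi => by
    have h1 := wmx_ge (w0 := Sg.g D (R * i + iW))
      (w1 := w3b nW (Sg.g D (R * i + iW)) (Sg.g D (R * i + (iW + 1))))
      (w2 := w3c nW (Sg.g D (R * i + (iW + 1))) (Sg.g D (R * i + (iW + 2)))) hkk hkB s0 s1
    have h2 := Ts0.wv (s := ⟨R, iH, iW, nW, 0, 0⟩) h.hW D i k
    have h3 : kp (bφ nW) nW (fun l => un D R (iW + l) i) k
        = b3 (Sg.g D (R * i + iW) : ℝ) (w3b nW (Sg.g D (R * i + iW)) (Sg.g D (R * i + (iW + 1))) : ℕ)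
          (w3c nW (Sg.g D (R * i + (iW + 1))) (Sg.g D (R * i + (iW + 2))) : ℕ) (k / kS) / 2 ^ 24 := h2
    rw [h3]
    refine div_le_div_of_nonneg_right (h1.trans ?_) (by positivity)
    exact_mod_cast hi
  have h3 := mix_le s.c0 s.c1 (row j (h.w0 j hj)) (row (j + 1) (h.w1 j hj))
  exact h3.trans (le_of_eq (by ring))

end Dj

end Pool.Agent.RZ.RCO
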