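import Pool.Agent.RZ.RCO.Ed4b
import Pool.Agent.RZ.RCO.Ed4g

/-! Route P: the rates of a world on the integers of the direct parts (MP_73ccd0_lc). -/

set_option autoImplicit false
set_option linter.unusedSectionVars false

namespace Pool.Agent.RZ.RCO

open Set Finset MeasureTheory Pool.Agent.RZ.RCRSHalf Pool.Agent.RZ.RCG Pool.Agent.RZ.RCG.Ct
open Pool.Agent.RZ.RCN Pool.Agent.RZ.RCN.K Sg

variable {V : Type*} [Fintype V] [DecidableEq V] {Z : Hzd} {sl : ℝ → ℝ → ℝ} {x : V → V → ℝ}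
  {P : V → Prop} [DecidablePred P] {A D : Finset V} {α τ σ σ' z c : ℝ} {S : Finset ℝ}
  {ζ : V → V → ℝ → ℝ} {Y N : V → ℝ → ℝ}

/-- the killed mass of a point of a world -/
theorem fp_kc (hx : RCG.Ct.Wt x P 1) (d : V) : (fp x D d).k ≤ (D.card : ℝ) * RCG.XM := by
  show ∑ w ∈ D, x w d ≤ _
  refine (Finset.sum_le_sum fun w _ => hx.leX w d).trans (le_of_eq ?_)
  rw [Finset.sum_const, nsmul_eq_mul]

theorem fp_k0 (hx : RCG.Ct.Wt x P 1) (d : V) : 0 ≤ (fp x D d).k :=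
  Finset.sum_nonneg fun w _ => hx.nonneg w d

/-- **the rates of a world from step constants** -/
theorem Wrl.dirW {Λ : Type*} [Fintype Λ] {d : D12 Λ} {l1 : Λ}
    (h : Wrl Z x P A D α τ σ' S ζ Y N d l1) (hZ : Z.Ok sl) (τ1 : τ ≤ 1) {q : Dj} (hq : q.Ok)
    (c0 : 0 ≤ c) (c1 : c ≤ 1) (hz : z = c * ((q.w : ℝ) / 2 ^ 24)) (zn : τ + z ≤ q.t q.n)
    (hR : ∀ r ∈ Icc 0 τ, ∀ j < q.n, r + z ∈ Icc (q.t j) (q.t (j + 1)) → ∀ y ∈ Icc 0 RCG.XM,
      d.R r y ≤ q.Rr j)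
    (hW : ∀ r ∈ Icc 0 τ, ∀ j < q.n, r + z ∈ Icc (q.t j) (q.t (j + 1)) → ∀ v ∈ Dᶜ, P v →
      d.W r (fp x D v) ≤ (q.W j : ℝ) / 2 ^ 24) :
    DirW x P D (Z.hh x P) (Tc0 (Z.hh x P) D ζ Y) τ z q.t q.n q.Rr q.gr := by
  have hx := h.hP
  have w0 : (0 : ℝ) ≤ (q.w : ℝ) / 2 ^ 24 := by positivity
  have xm : ∀ u v, x u v ∈ Icc (0 : ℝ) RCG.XM := fun u v => ⟨hx.nonneg u v, hx.leX u v⟩
  have rr : ∀ r ∈ Icc 0 τ, ∀ j < q.n, r + z ∈ Icc (q.t j) (q.t (j + 1)) → ∀ u v,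
      Z.hh x P r u v ≤ x u v * q.Rr j := fun r hr j hj hj2 u v => by
    by_cases hp : P u ∧ P v
    · exact ((h.kr r hr).l u v hp.1 hp.2).trans
        (mul_le_mul_of_nonneg_left (hR r hr j hj hj2 _ (xm u v)) (hx.nonneg u v))
    · have h0 := hx.pz u v hp
      have := (h.kr r hr).p u v hp
      rw [h0, zero_mul] at this ⊢
      exact this
  exact {
    hP := hx
    b0 := h.b0
    bs := fun u v r => Z.hh_symm hx r u v
    bc := fun u v => (hZ.hh_cont hx u v).mono (Icc_subset_Icc_right τ1)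
    Tc := h.g.cT
    bT := fun u hu v hv r hr => by
      have h1 := h.g.A0 r hr u v
      unfold Ac0 cut at h1
      unfold Tc0 cut
      have e : ¬(u ∈ D ∨ v ∈ D) := by
        rw [not_or]
        exact ⟨Finset.mem_compl.1 hu, Finset.mem_compl.1 hv⟩
      rw [if_neg e] at h1 ⊢
      unfold RCM.Ab at h1
      unfold RCM.Tb
      linarith
    hm := hq.msh
    t0 := q.t_zero
    n0 := hq.n0
    z0 := by
      rw [hz]
      exact mul_nonneg c0 w0
    z1 := by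
      rw [hz, q.t_one]
      have h1 : (q.w : ℝ) / 2 ^ 24 ≤ (q.h 0 : ℝ) / 2 ^ 24 :=
        div_le_div_of_nonneg_right (by exact_mod_cast hq.wh) (by positivity)
      exact (mul_le_of_le_one_left w0 c1).trans h1
    zn := zn
    R0 := fun j _ => by unfold Dj.Rr; positivity
    g0 := fun j _ => by unfold Dj.gr; positivity
    hR := rr
    hT := fun r hr j hj hj2 v hv hPv => by
      have hb := h.wb r hr
      have hWv := hW r hr j hj hj2 v hv hPv
      have vo1 : ∀ u, P u → vo x P D (d.W r) (d.Wp r) u = d.W r (fp x D u) := fun u hu => by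
        unfold vo
        rw [if_pos hu]
      have R0 : 0 ≤ q.Rr j := by unfold Dj.Rr; positivity
      have W0 : (0 : ℝ) ≤ (q.W j : ℝ) / 2 ^ 24 := by positivity
      have one : ∀ b ∈ Dᶜ.erase v, Tc0 (Z.hh x P) D ζ Y r v b
          ≤ x v b * (q.Rr j * ((q.W j : ℝ) / 2 ^ 24) ^ 2) := fun b hb' => by
        obtain ⟨-, hb2⟩ := Finset.mem_erase.1 hb'
        refine (hb.hT v hv b hb2).trans ?_
        by_cases hPb : P b
        · rw [vo1 v hPv, vo1 b hPb]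
          have g1 := hb.W1 v hv
          have g2 := hb.W1 b hb2
          rw [vo1 v hPv] at g1
          rw [vo1 b hPb] at g2
          have e1 : d.W r (fp x D v) * d.W r (fp x D b) ≤ ((q.W j : ℝ) / 2 ^ 24) ^ 2 := by
            rw [sq]
            exact mul_le_mul hWv (hW r hr j hj hj2 b hb2 hPb) (zero_le_one.trans g2) W0
          have e2 := mul_le_mul (rr r hr j hj hj2 v b) e1
            (mul_nonneg (zero_le_one.trans g1) (zero_le_one.trans g2))
            (mul_nonneg (hx.nonneg v b) R0)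
          exact e2.trans (le_of_eq (by ring))
        · have h0 := hx.pz v b fun hp => hPb hp.2
          have h1 := rr r hr j hj hj2 v b
          rw [h0, zero_mul] at h1
          have h2 : Z.hh x P r v b = 0 := le_antisymm h1 (h.b0 v b r hr)
          rw [h2, zero_mul, h0, zero_mul]
      have key : (q.Rr j * ((q.W j : ℝ) / 2 ^ 24) ^ 2) ≤ q.gr j := by
        have h1 : ((q.R j * (q.W j * q.W j) : ℕ) : ℝ) / ((2 ^ 48 : ℕ) : ℝ) ≤ (q.g j : ℝ) :=
          cdiv_real (by norm_num)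
        have h2 := div_le_div_of_nonneg_right h1 (by positivity : (0 : ℝ) ≤ 2 ^ 24)
        refine le_trans (le_of_eq ?_) h2
        unfold Dj.Rr
        push_cast
        ring
      have row : ∑ b ∈ Dᶜ.erase v, x v b ≤ 1 := by
        refine le_trans ?_ (hx.row v)
        exact Finset.sum_le_sum_of_subset_of_nonneg (Finset.subset_univ _)
          fun b _ _ => hx.nonneg v b
      calc ∑ b ∈ Dᶜ.erase v, Tc0 (Z.hh x P) D ζ Y r v b
          ≤ ∑ b ∈ Dᶜ.erase v, x v b * (q.Rr j * ((q.W j : ℝ) / 2 ^ 24) ^ 2) :=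
            Finset.sum_le_sum one
        _ = (∑ b ∈ Dᶜ.erase v, x v b) * (q.Rr j * ((q.W j : ℝ) / 2 ^ 24) ^ 2) := by
            rw [Finset.sum_mul]
        _ ≤ 1 * (q.Rr j * ((q.W j : ℝ) / 2 ^ 24) ^ 2) :=
            mul_le_mul_of_nonneg_right row (mul_nonneg R0 (sq_nonneg _))
        _ ≤ q.gr j := by rw [one_mul]; exact key }

/-- **the rates of a world from the table**, `kk = 2048` pairs, `kk = 1024` stars -/
theorem Dj.Tie.dirW {y : Tp12} {E : ℕ} {Nr : ℝ → Pt → ℝ} {Np : ℝ → ℝ → ℝ} {l1 : Fin y.b.N}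
    {q : Dj} {kk i0 i1 i2 iW nW : ℕ} (ht : q.Tie kk E y.R y.iH i0 i1 i2 iW nW) (hq : q.Ok)
    (hRR : y.b.RR = [lr y.R i0, lr y.R i1, lr y.R i2]) (hWW : y.b.W = plr y.R 0 iW nW)
    (h : Wrl Z x P A D α τ σ' S ζ Y N
      ((y.t12 E q.n Nr Np).dat FF26 (tmD E y.R y.iH) q.n z) l1)
    (hk : kk = 2048 ∨ D.card ≤ 1) (hZ : Z.Ok sl) (τ1 : τ ≤ 1)
    (c0 : 0 ≤ c) (c1 : c ≤ 1) (hz : z = c * ((q.w : ℝ) / 2 ^ 24)) (zn : τ + z ≤ q.t q.n) :
    DirW x P D (Z.hh x P) (Tc0 (Z.hh x P) D ζ Y) τ z q.t q.n q.Rr q.gr := by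
  have hx := h.hP
  have hm : Msh (tmD E y.R y.iH) q.n :=
    ⟨fun j hj => by rw [← ht.tt j hj.le, ← ht.tt (j + 1) hj]; exact hq.msh.mono j hj⟩
  have kc : ∀ v, (fp x D v).k ≤ kk * (RCG.XM / 1024) := fun v => by
    have h1 := fp_kc (D := D) hx v
    have X0 := RCG.XM_pos
    rcases hk with hk | hk
    · rw [hk]
      have h2 : (D.card : ℝ) ≤ 2 := by exact_mod_cast h.hD
      have h3 := mul_le_mul_of_nonneg_right h2 X0.le
      push_cast
      linarith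
    · have h2 : (D.card : ℝ) ≤ 1 := by exact_mod_cast hk
      have h3 := mul_le_mul_of_nonneg_right h2 X0.le
      have h4 : (1024 : ℝ) ≤ kk := by
        rcases ht.hk with h5 | h5 <;> rw [h5] <;> norm_num
      have h5 : RCG.XM ≤ kk * (RCG.XM / 1024) := by
        have := mul_le_mul_of_nonneg_right h4 (by positivity : 0 ≤ RCG.XM / 1024)
        linarith
      linarith
  refine h.dirW hZ τ1 hq c0 c1 hz zn (fun r hr j hj hj2 a ha => ?_)
    (fun r hr j hj hj2 v hv hPv => ?_)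
  · rw [ht.tt j hj.le, ht.tt (j + 1) hj] at hj2
    show hT y.b.RR (cD (tmD E y.R y.iH) q.n (r + z)) (eD E y.R (tmD E y.R y.iH) q.n (r + z)) a
      ≤ q.Rr j
    rw [hRR]
    exact ht.rR hm hj hj2 ha
  · rw [ht.tt j hj.le, ht.tt (j + 1) hj] at hj2
    show y.b.W.kv (cD (tmD E y.R y.iH) q.n (r + z)) (eD E y.R (tmD E y.R y.iH) q.n (r + z))
      (fp x D v).k ≤ (q.W j : ℝ) / 2 ^ 24
    rw [hWW]
    exact ht.wW hm hj hj2 (fp_k0 hx v) (kc v)

end Pool.Agent.RZ.RCO
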