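import Pool.Agent.RZ.RCG.XM

/-! Route P: the direct parts and the rates on integers (MP_73ccd0_lc). -/

set_option autoImplicit false
set_option linter.unusedSectionVars false

namespace Pool.Agent.RZ.RCO

open Set Finset MeasureTheory Pool.Agent.RZ.RCG

/-! ### rounding -/

/-- the quotient rounded up -/
def cdiv (a b : ℕ) : ℕ := (a + (b - 1)) / b

theorem cdiv_ge {a b : ℕ} (hb : 0 < b) : a ≤ cdiv a b * b := by
  unfold cdiv
  have h := Nat.div_add_mod (a + (b - 1)) b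
  have h2 := Nat.mod_lt (a + (b - 1)) hb
  have h3 : b * ((a + (b - 1)) / b) = (a + (b - 1)) / b * b := Nat.mul_comm _ _
  omega

theorem cdiv_real {a b : ℕ} (hb : 0 < b) : (a : ℝ) / b ≤ (cdiv a b : ℝ) := by
  rw [div_le_iff₀ (by exact_mod_cast hb)]
  exact_mod_cast cdiv_ge hb

theorem fdiv_real {a b : ℕ} (hb : 0 < b) : ((a / b : ℕ) : ℝ) ≤ (a : ℝ) / b := by
  rw [le_div_iff₀ (by exact_mod_cast hb)]
  exact_mod_cast Nat.div_mul_le_self a b

/-- the running maximum -/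
def rmx (f : ℕ → ℕ) : ℕ → ℕ
  | 0 => f 0
  | j + 1 => max (rmx f j) (f (j + 1))

theorem rmx_ge (f : ℕ → ℕ) (j : ℕ) : f j ≤ rmx f j := by
  cases j with
  | zero => exact le_rfl
  | succ j => exact le_max_right _ _

theorem rmx_mono (f : ℕ → ℕ) (j : ℕ) : rmx f j ≤ rmx f (j + 1) := le_max_left _ _

/-- a sum -/
def nsum (f : ℕ → ℕ) : ℕ → ℕ
  | 0 => 0
  | j + 1 => nsum f j + f j

theorem nsum_eq (f : ℕ → ℕ) (j : ℕ) : nsum f j = ∑ i ∈ Finset.range j, f i := by
  induction j with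
  | zero => rfl
  | succ j ih => rw [nsum, ih, Finset.sum_range_succ]

/-! ### the record -/

/-- the integers of the direct parts of a big cell, in units `2 ^ -24`: steps `h`, bounds of the
rates `R` and of the boosts `W` in the steps, coarse nodes `K`, largest shift `w` -/
structure Dj where
  n : ℕ
  h : ℕ → ℕ
  R : ℕ → ℕ
  W : ℕ → ℕ
  nc : ℕ
  K : ℕ → ℕ
  w : ℕ

namespace Dj

variable (q : Dj)

/-- the rows of the boosted rates, rounded up -/
def g (j : ℕ) : ℕ := cdiv (q.R j * (q.W j * q.W j)) (2 ^ 48)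

/-- the exponent of a step, rounded up -/
def d (j : ℕ) : ℕ := cdiv (q.h j * q.g j) (2 ^ 24)

/-- the cubic of the exponential -/
def cub (d : ℕ) : ℕ := (6 * 2 ^ 72 + 3 * (d * d) * 2 ^ 24) - (6 * d * 2 ^ 48 + d * d * d)

/-- the survival function at the nodes, rounded down -/
def E : ℕ → ℕ
  | 0 => 2 ^ 24
  | j + 1 => E j * cub (q.d j) / (6 * 2 ^ 72)

/-- the same for the shift `w` -/
def E1 (j : ℕ) : ℕ := q.E j * (2 ^ 48 + q.g 0 * q.w) / 2 ^ 48

/-- the positive part in the line of the pairs, in units `1 / (xN 2 ^ 48)` -/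
def ps (E nh : ℕ) : ℕ :=
  if 2 * E ≤ 2 ^ 24 then RCG.xN * (2 ^ 24 - 2 * E) * 2 ^ 24 + E * nh
  else E * nh - (2 * E - 2 ^ 24) * 2 ^ 24

/-- the line of the pairs, rounded up -/
def gN (R E nh : ℕ) : ℕ := cdiv (R * ps E nh) (RCG.xN * 2 ^ 48)

/-- the slopes at the shifts `0` and `w`, monotone -/
def G0 (nh : ℕ) : ℕ → ℕ := rmx fun j => gN (q.R j) (q.E (j + 1)) nh
def G1 (nh : ℕ) : ℕ → ℕ := rmx fun j => gN (q.R j) (q.E1 (j + 1)) nh

/-- the direct parts up to the coarse node `l` at the shifts `0` and `w`, rounded up -/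
def J0 (nh l : ℕ) : ℕ := cdiv (nsum (fun i => q.h i * q.G0 nh i) (q.K l)) (2 ^ 24)
def J1 (nh l : ℕ) : ℕ := cdiv (nsum (fun i => q.h i * q.G1 nh i) (q.K l)) (2 ^ 24)

/-- the rates after the coarse node `l`, rounded up -/
def I (l : ℕ) : ℕ :=
  cdiv (nsum (fun i => if i < q.K l then 0 else q.h i * q.R i) q.n) (2 ^ 24)

/-- the largest rate in the coarse cell `l` -/
def Rs (l : ℕ) : ℕ := rmx (fun i => if i < q.K l then 0 else q.R i) (q.K (l + 1) - 1)

/-- the node `j` -/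
def A (j : ℕ) : ℕ := nsum q.h j

/-- the rates after the left end of the coarse cell `l` at the shifts `0` and `w` -/
def H0 (l : ℕ) : ℕ := q.I (l + 1) + cdiv ((q.A (q.K (l + 1)) - q.A (q.K l)) * q.Rs l) (2 ^ 24)
def H1 (l : ℕ) : ℕ :=
  if l = 0 then q.I 1 + cdiv ((q.A (q.K 1) - q.w) * q.Rs 0) (2 ^ 24) else q.H0 l

/-- the format -/
def ok : Bool :=
  Nat.blt 0 q.n && Nat.blt 0 q.nc && Nat.blt 0 q.w && Nat.ble q.w (q.h 0)
    && (List.range q.n).all (fun j => Nat.blt 0 (q.h j))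
    && Nat.beq (q.K 0) 0 && Nat.beq (q.K q.nc) q.n
    && (List.range q.nc).all (fun l => Nat.blt (q.K l) (q.K (l + 1)))

end Dj

end Pool.Agent.RZ.RCO
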