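import Pool.Agent.RZ.RCO.Ed4c
import Pool.Agent.RZ.RCO.Ed4d

/-! Route P: the direct parts and the rates on integers: soundness (MP_73ccd0_lc). -/

set_option autoImplicit false
set_option linter.unusedSectionVars false

namespace Pool.Agent.RZ.RCO

open Set Finset MeasureTheory Pool.Agent.RZ.RCRSHalf Pool.Agent.RZ.RCG Pool.Agent.RZ.RCG.Ct
open Pool.Agent.RZ.RCN Pool.Agent.RZ.RCN.K

namespace Dj

variable {q : Dj}

/-- the format -/
structure Ok (q : Dj) : Prop where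
  n0 : 0 < q.n
  nc0 : 0 < q.nc
  w0 : 0 < q.w
  wh : q.w ≤ q.h 0
  h0 : ∀ j < q.n, 0 < q.h j
  K0 : q.K 0 = 0
  Kn : q.K q.nc = q.n
  Kl : ∀ l < q.nc, q.K l < q.K (l + 1)

theorem ok_of (h : q.ok = true) : q.Ok := by
  unfold ok at h
  simp only [Bool.and_eq_true, List.all_eq_true, List.mem_range] at h
  obtain ⟨⟨⟨⟨⟨⟨⟨a1, a2⟩, a3⟩, a4⟩, a5⟩, a6⟩, a7⟩, a8⟩ := h
  exact ⟨by simpa using a1, by simpa using a2, by simpa using a3, Nat.le_of_ble_eq_true a4,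
    fun j hj => by simpa using a5 j hj, Nat.eq_of_beq_eq_true a6, Nat.eq_of_beq_eq_true a7,
    fun l hl => by simpa using a8 l hl⟩

theorem Ok.K_mono (h : q.Ok) {i l : ℕ} (hil : i ≤ l) (hl : l ≤ q.nc) : q.K i ≤ q.K l := by
  induction l with
  | zero =>
    have : i = 0 := by omega
    rw [this]
  | succ l ih =>
    rcases hil.lt_or_eq with h1 | h1
    · exact (ih (by omega) (by omega)).trans (h.Kl l (by omega)).le
    · rw [h1]

theorem Ok.K_le (h : q.Ok) {l : ℕ} (hl : l ≤ q.nc) : q.K l ≤ q.n := by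
  rw [← h.Kn]
  exact h.K_mono hl le_rfl

theorem Ok.K_pos (h : q.Ok) {l : ℕ} (l0 : l ≠ 0) (hl : l ≤ q.nc) : 0 < q.K l := by
  have h1 := h.Kl 0 h.nc0
  have h2 := h.K_mono (i := 1) (l := l) (by omega) hl
  rw [zero_add] at h1
  omega

/-- the mesh -/
noncomputable def t (q : Dj) (j : ℕ) : ℝ := (q.A j : ℝ) / 2 ^ 24

theorem t_zero (q : Dj) : q.t 0 = 0 := by
  unfold t A nsum
  simp

theorem t_sub (q : Dj) (j : ℕ) : q.t (j + 1) - q.t j = (q.h j : ℝ) / 2 ^ 24 := by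
  unfold t A
  rw [nsum]
  push_cast
  ring

theorem t_one (q : Dj) : q.t 1 = (q.h 0 : ℝ) / 2 ^ 24 := by
  have := q.t_sub 0
  rw [zero_add, t_zero] at this
  linarith

theorem Ok.msh (h : q.Ok) : Msh q.t q.n where
  mono := fun j hj => by
    have h1 := q.t_sub j
    have h2 : (0 : ℝ) < (q.h j : ℝ) / 2 ^ 24 :=
      div_pos (by exact_mod_cast h.h0 j hj) (by positivity)
    linarith

/-- the real constants of the steps -/
noncomputable def Rr (q : Dj) (j : ℕ) : ℝ := (q.R j : ℝ) / 2 ^ 24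
noncomputable def gr (q : Dj) (j : ℕ) : ℝ := (q.g j : ℝ) / 2 ^ 24

/-! ### the survival function -/

theorem cub_le (d : ℕ) : ((cub d : ℕ) : ℝ) / (6 * 2 ^ 72) ≤ Real.exp (-((d : ℝ) / 2 ^ 24)) := by
  unfold cub
  rcases Nat.le_total (6 * d * 2 ^ 48 + d * d * d) (6 * 2 ^ 72 + 3 * (d * d) * 2 ^ 24) with h | h
  · rw [Nat.cast_sub h]
    refine le_trans (le_of_eq ?_) (exp_neg_cub (x := (d : ℝ) / 2 ^ 24) (by positivity))
    push_cast
    field_simp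
    ring
  · rw [Nat.sub_eq_zero_of_le h]
    simp only [Nat.cast_zero, zero_div]
    exact (Real.exp_pos _).le

theorem E_le (q : Dj) : ∀ j, (q.E j : ℝ) / 2 ^ 24 ≤ Real.exp (-stp q.t q.gr j)
  | 0 => by
    rw [stp_zero, neg_zero, Real.exp_zero]
    show ((2 ^ 24 : ℕ) : ℝ) / 2 ^ 24 ≤ 1
    norm_num
  | j + 1 => by
    have ih := E_le q j
    have h1 : (q.E (j + 1) : ℝ) ≤ (q.E j * cub (q.d j) : ℕ) / ((6 * 2 ^ 72 : ℕ) : ℝ) :=
      fdiv_real (by norm_num)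
    have h2 := cub_le (q.d j)
    have h3 : q.gr j * (q.t (j + 1) - q.t j) ≤ (q.d j : ℝ) / 2 ^ 24 := by
      rw [t_sub]
      unfold gr
      have h4 : ((q.h j * q.g j : ℕ) : ℝ) / ((2 ^ 24 : ℕ) : ℝ) ≤ (q.d j : ℝ) :=
        cdiv_real (by norm_num)
      push_cast at h4
      have h5 := div_le_div_of_nonneg_right h4 (by positivity : (0 : ℝ) ≤ 2 ^ 24)
      refine le_trans (le_of_eq ?_) h5
      ring
    rw [stp_succ, neg_add, Real.exp_add]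
    have h4 : Real.exp (-((q.d j : ℝ) / 2 ^ 24))
        ≤ Real.exp (-(q.gr j * (q.t (j + 1) - q.t j))) := Real.exp_le_exp.2 (by linarith)
    have h5 : (q.E (j + 1) : ℝ) / 2 ^ 24
        ≤ (q.E j : ℝ) / 2 ^ 24 * (((cub (q.d j) : ℕ) : ℝ) / (6 * 2 ^ 72)) := by
      have := div_le_div_of_nonneg_right h1 (by positivity : (0 : ℝ) ≤ 2 ^ 24)
      refine this.trans (le_of_eq ?_)
      push_cast
      ring
    exact h5.trans (mul_le_mul ih (h2.trans h4) (by positivity) (Real.exp_pos _).le)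

/-- the survival function in the step `j` at the shift `c w` -/
noncomputable def Ec (q : Dj) (c : ℝ) (j : ℕ) : ℝ :=
  (1 - c) * ((q.E (j + 1) : ℝ) / 2 ^ 24) + c * ((q.E1 (j + 1) : ℝ) / 2 ^ 24)

theorem E1_le (q : Dj) (j : ℕ) : (q.E1 j : ℝ) / 2 ^ 24
    ≤ (q.E j : ℝ) / 2 ^ 24 * (1 + q.gr 0 * ((q.w : ℝ) / 2 ^ 24)) := by
  have h1 : (q.E1 j : ℝ) ≤ (q.E j * (2 ^ 48 + q.g 0 * q.w) : ℕ) / ((2 ^ 48 : ℕ) : ℝ) :=
    fdiv_real (by norm_num)
  have := div_le_div_of_nonneg_right h1 (by positivity : (0 : ℝ) ≤ 2 ^ 24)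
  refine this.trans (le_of_eq ?_)
  unfold gr
  push_cast
  ring

theorem Ec_nonneg (q : Dj) {c : ℝ} (c0 : 0 ≤ c) (c1 : c ≤ 1) (j : ℕ) : 0 ≤ q.Ec c j :=
  add_nonneg (mul_nonneg (sub_nonneg.2 c1) (by positivity)) (mul_nonneg c0 (by positivity))

theorem Ec_le (q : Dj) {c z : ℝ} (c0 : 0 ≤ c) (hz : z = c * ((q.w : ℝ) / 2 ^ 24)) (j : ℕ) :
    q.Ec c j ≤ Real.exp (-(stp q.t q.gr (j + 1) - q.gr 0 * z)) := by
  have h1 := E_le q (j + 1)
  have h2 := mul_le_mul_of_nonneg_left (E1_le q (j + 1)) c0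
  have e0 : (0 : ℝ) ≤ (q.E (j + 1) : ℝ) / 2 ^ 24 := by positivity
  have h3 : q.Ec c j ≤ (q.E (j + 1) : ℝ) / 2 ^ 24 * (1 + q.gr 0 * z) := by
    unfold Ec
    rw [hz]
    linarith
  have h4 : 1 + q.gr 0 * z ≤ Real.exp (q.gr 0 * z) := by
    have := Real.add_one_le_exp (q.gr 0 * z)
    linarith
  have e : Real.exp (-(stp q.t q.gr (j + 1) - q.gr 0 * z))
      = Real.exp (-stp q.t q.gr (j + 1)) * Real.exp (q.gr 0 * z) := by
    rw [← Real.exp_add]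
    ring_nf
  rw [e]
  exact h3.trans ((mul_le_mul_of_nonneg_left h4 e0).trans
    (mul_le_mul_of_nonneg_right h1 (Real.exp_pos _).le))

/-! ### the slopes -/

theorem ps_eq (E nh : ℕ) : max 0 (max (1 - 2 * ((E : ℝ) / 2 ^ 24)) (RCG.XM * (1 - 2 * ((E : ℝ) / 2 ^ 24)))
    + RCG.XM * ((E : ℝ) / 2 ^ 24) * ((nh : ℝ) / 2 ^ 24))
      ≤ (ps E nh : ℝ) / (RCG.xN * 2 ^ 48) := by
  have N0 := RCG.xN_pos
  have X0 := RCG.XM_pos
  have X1 := RCG.XM_le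
  have hX : RCG.XM = 1 / (RCG.xN : ℝ) := rfl
  refine max_le (by positivity) ?_
  unfold ps
  split_ifs with h
  · have h' : (2 * E : ℝ) ≤ 2 ^ 24 := by exact_mod_cast h
    have u0 : 0 ≤ 1 - 2 * ((E : ℝ) / 2 ^ 24) := by
      have : 2 * ((E : ℝ) / 2 ^ 24) ≤ 1 := by
        rw [← mul_div_assoc, div_le_one (by positivity)]
        exact h'
      linarith
    rw [max_eq_left (by nlinarith)]
    have s0 : ((2 ^ 24 - 2 * E : ℕ) : ℝ) = 2 ^ 24 - 2 * (E : ℝ) := by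
      rw [Nat.cast_sub h]
      norm_num
    have s1 : ((RCG.xN * (2 ^ 24 - 2 * E) * 2 ^ 24 + E * nh : ℕ) : ℝ)
        = RCG.xN * (2 ^ 24 - 2 * (E : ℝ)) * 2 ^ 24 + E * nh := by
      rw [Nat.cast_add, Nat.cast_mul, Nat.cast_mul, s0]
      push_cast
      ring
    rw [s1]
    refine le_of_eq ?_
    rw [hX]
    field_simp
  · have h2 : 2 ^ 24 ≤ 2 * E := by omega
    have h' : (2 ^ 24 : ℝ) ≤ 2 * E := by exact_mod_cast h2
    have u0 : 1 - 2 * ((E : ℝ) / 2 ^ 24) ≤ 0 := by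
      have : 1 ≤ 2 * ((E : ℝ) / 2 ^ 24) := by
        rw [← mul_div_assoc, le_div_iff₀ (by positivity)]
        linarith
      linarith
    rw [max_eq_right (by nlinarith)]
    have h3 : ((E * nh : ℕ) : ℝ) - (((2 * E - 2 ^ 24) * 2 ^ 24 : ℕ) : ℝ)
        ≤ ((E * nh - (2 * E - 2 ^ 24) * 2 ^ 24 : ℕ) : ℝ) := by
      have h4 : E * nh ≤ (E * nh - (2 * E - 2 ^ 24) * 2 ^ 24) + (2 * E - 2 ^ 24) * 2 ^ 24 := by
        omega
      have := (Nat.cast_le (α := ℝ)).2 h4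
      rw [Nat.cast_add] at this
      linarith
    have h5 := div_le_div_of_nonneg_right h3 (by positivity : (0 : ℝ) ≤ RCG.xN * 2 ^ 48)
    refine le_trans (le_of_eq ?_) h5
    have s0 : (((2 * E - 2 ^ 24) * 2 ^ 24 : ℕ) : ℝ) = (2 * (E : ℝ) - 2 ^ 24) * 2 ^ 24 := by
      rw [Nat.cast_mul, Nat.cast_sub h2]
      norm_num
    rw [s0, hX]
    push_cast
    field_simp
    ring

theorem gN_le (R E nh : ℕ) : gD RCG.XM ((R : ℝ) / 2 ^ 24) ((E : ℝ) / 2 ^ 24) ((nh : ℝ) / 2 ^ 24)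
    ≤ (gN R E nh : ℝ) / 2 ^ 24 := by
  have N0 := RCG.xN_pos
  unfold gD
  have h1 := mul_le_mul_of_nonneg_left (ps_eq E nh)
    (by positivity : (0 : ℝ) ≤ (R : ℝ) / 2 ^ 24)
  have h2 : ((R * ps E nh : ℕ) : ℝ) / ((RCG.xN * 2 ^ 48 : ℕ) : ℝ) ≤ (gN R E nh : ℝ) :=
    cdiv_real (Nat.mul_pos (by have := RCG.two_le_xN; omega) (by norm_num))
  have h3 := div_le_div_of_nonneg_right h2 (by positivity : (0 : ℝ) ≤ 2 ^ 24)
  refine h1.trans (le_trans (le_of_eq ?_) h3)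
  push_cast
  ring

/-- the slopes at the shift `c w` -/
noncomputable def Gc (q : Dj) (nh : ℕ) (c : ℝ) (j : ℕ) : ℝ :=
  ((1 - c) * (q.G0 nh j : ℝ) + c * (q.G1 nh j : ℝ)) / 2 ^ 24

theorem Gc_le (q : Dj) (nh : ℕ) {c : ℝ} (c0 : 0 ≤ c) (c1 : c ≤ 1) (j : ℕ) :
    gD RCG.XM (q.Rr j) (q.Ec c j) ((nh : ℝ) / 2 ^ 24) ≤ q.Gc nh c j := by
  have h1 := gD_convex (X := RCG.XM) (R := q.Rr j) (nh := (nh : ℝ) / 2 ^ 24)
    (E0 := (q.E (j + 1) : ℝ) / 2 ^ 24) (E1 := (q.E1 (j + 1) : ℝ) / 2 ^ 24)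
    (by unfold Rr; positivity) c0 c1
  have a0 := gN_le (q.R j) (q.E (j + 1)) nh
  have a1 := gN_le (q.R j) (q.E1 (j + 1)) nh
  have b0 : ((gN (q.R j) (q.E (j + 1)) nh : ℕ) : ℝ) ≤ (q.G0 nh j : ℝ) := by
    exact_mod_cast rmx_ge (fun j => gN (q.R j) (q.E (j + 1)) nh) j
  have b1 : ((gN (q.R j) (q.E1 (j + 1)) nh : ℕ) : ℝ) ≤ (q.G1 nh j : ℝ) := by
    exact_mod_cast rmx_ge (fun j => gN (q.R j) (q.E1 (j + 1)) nh) j
  have d0 := mul_le_mul_of_nonneg_left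
    (a0.trans (div_le_div_of_nonneg_right b0 (by positivity))) (sub_nonneg.2 c1)
  have d1 := mul_le_mul_of_nonneg_left
    (a1.trans (div_le_div_of_nonneg_right b1 (by positivity))) c0
  have e : q.Gc nh c j = (1 - c) * ((q.G0 nh j : ℝ) / 2 ^ 24) + c * ((q.G1 nh j : ℝ) / 2 ^ 24) := by
    unfold Gc
    ring
  rw [e]
  exact h1.trans (add_le_add d0 d1)

theorem Gc_nonneg (q : Dj) (nh : ℕ) {c : ℝ} (c0 : 0 ≤ c) (c1 : c ≤ 1) (j : ℕ) :
    0 ≤ q.Gc nh c j :=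
  div_nonneg (add_nonneg (mul_nonneg (sub_nonneg.2 c1) (Nat.cast_nonneg _))
    (mul_nonneg c0 (Nat.cast_nonneg _))) (by positivity)

theorem Gc_mono (q : Dj) (nh : ℕ) {c : ℝ} (c0 : 0 ≤ c) (c1 : c ≤ 1) (j : ℕ) :
    q.Gc nh c j ≤ q.Gc nh c (j + 1) := by
  have b0 : (q.G0 nh j : ℝ) ≤ (q.G0 nh (j + 1) : ℝ) := by
    exact_mod_cast rmx_mono (fun j => gN (q.R j) (q.E (j + 1)) nh) j
  have b1 : (q.G1 nh j : ℝ) ≤ (q.G1 nh (j + 1) : ℝ) := by
    exact_mod_cast rmx_mono (fun j => gN (q.R j) (q.E1 (j + 1)) nh) j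
  unfold Gc
  exact div_le_div_of_nonneg_right (add_le_add (mul_le_mul_of_nonneg_left b0 (sub_nonneg.2 c1))
    (mul_le_mul_of_nonneg_left b1 c0)) (by positivity)

/-- the direct parts up to the coarse node `l` at the shift `c w` -/
noncomputable def Jc (q : Dj) (nh : ℕ) (c : ℝ) (l : ℕ) : ℝ :=
  if l = 0 then 0 else ((1 - c) * (q.J0 nh l : ℝ) + c * (q.J1 nh l : ℝ)) / 2 ^ 24

theorem Jc_ge (q : Dj) (nh : ℕ) {c : ℝ} (c0 : 0 ≤ c) (c1 : c ≤ 1) {l : ℕ} (l0 : l ≠ 0) :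
    stp q.t (q.Gc nh c) (q.K l) ≤ q.Jc nh c l := by
  unfold Jc
  rw [if_neg l0]
  have a0 : ((nsum (fun i => q.h i * q.G0 nh i) (q.K l) : ℕ) : ℝ) / ((2 ^ 24 : ℕ) : ℝ)
      ≤ (q.J0 nh l : ℝ) := cdiv_real (by norm_num)
  have a1 : ((nsum (fun i => q.h i * q.G1 nh i) (q.K l) : ℕ) : ℝ) / ((2 ^ 24 : ℕ) : ℝ)
      ≤ (q.J1 nh l : ℝ) := cdiv_real (by norm_num)
  rw [nsum_eq] at a0 a1
  push_cast at a0 a1
  have e24 : (16777216 : ℝ) = 2 ^ 24 := by norm_num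
  try rw [e24] at a0 a1
  have e : stp q.t (q.Gc nh c) (q.K l)
      = ((1 - c) * ((∑ i ∈ Finset.range (q.K l), (q.h i : ℝ) * (q.G0 nh i : ℝ)) / 2 ^ 24)
        + c * ((∑ i ∈ Finset.range (q.K l), (q.h i : ℝ) * (q.G1 nh i : ℝ)) / 2 ^ 24)) / 2 ^ 24 := by
    unfold stp
    rw [Finset.sum_div, Finset.sum_div, Finset.mul_sum, Finset.mul_sum,
      ← Finset.sum_add_distrib, Finset.sum_div]
    refine Finset.sum_congr rfl fun i _ => ?_
    rw [t_sub]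
    unfold Gc
    ring
  rw [e]
  exact div_le_div_of_nonneg_right (add_le_add (mul_le_mul_of_nonneg_left a0 (sub_nonneg.2 c1))
    (mul_le_mul_of_nonneg_left a1 c0)) (by positivity)

/-! ### the rates -/

theorem I_ge (q : Dj) {l : ℕ} (hl : q.K l ≤ q.n) :
    stp q.t q.Rr q.n - stp q.t q.Rr (q.K l) ≤ (q.I l : ℝ) / 2 ^ 24 := by
  have a0 : ((nsum (fun i => if i < q.K l then 0 else q.h i * q.R i) q.n : ℕ) : ℝ)
      / ((2 ^ 24 : ℕ) : ℝ) ≤ (q.I l : ℝ) := cdiv_real (by norm_num)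
  rw [nsum_eq] at a0
  push_cast at a0
  have e24 : (16777216 : ℝ) = 2 ^ 24 := by norm_num
  try rw [e24] at a0
  have e : stp q.t q.Rr q.n - stp q.t q.Rr (q.K l)
      = (∑ i ∈ Finset.range q.n, (if i < q.K l then 0 else (q.h i : ℝ) * (q.R i : ℝ)))
        / 2 ^ 24 / 2 ^ 24 := by
    unfold stp
    rw [Finset.sum_div, Finset.sum_div]
    have e1 : ∑ i ∈ Finset.range (q.K l), q.Rr i * (q.t (i + 1) - q.t i)
        = ∑ i ∈ Finset.range q.n, if i < q.K l then q.Rr i * (q.t (i + 1) - q.t i) else 0 := by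
      rw [← Finset.sum_filter]
      refine Finset.sum_congr ?_ fun _ _ => rfl
      ext i
      simp only [Finset.mem_range, Finset.mem_filter]
      omega
    rw [e1, ← Finset.sum_sub_distrib]
    refine Finset.sum_congr rfl fun i _ => ?_
    rw [t_sub]
    unfold Rr
    split_ifs
    · simp
    · ring
  rw [e]
  exact div_le_div_of_nonneg_right a0 (by positivity)

theorem rmx_le (f : ℕ → ℕ) {i j : ℕ} (h : i ≤ j) : f i ≤ rmx f j := by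
  induction j with
  | zero =>
    have : i = 0 := by omega
    rw [this]
    exact le_rfl
  | succ j ih =>
    rcases h.lt_or_eq with h1 | h1
    · exact (ih (by omega)).trans (le_max_left _ _)
    · rw [h1]
      exact le_max_right _ _

theorem Rs_ge (q : Dj) {l j : ℕ} (h1 : q.K l ≤ j) (h2 : j < q.K (l + 1)) :
    q.Rr j ≤ (q.Rs l : ℝ) / 2 ^ 24 := by
  unfold Rr
  refine div_le_div_of_nonneg_right ?_ (by positivity)
  have h := rmx_le (fun i => if i < q.K l then 0 else q.R i) (i := j) (j := q.K (l + 1) - 1)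
    (by omega)
  simp only [if_neg (not_lt.2 h1)] at h
  exact_mod_cast h

/-- the largest rate -/
def Lm (q : Dj) : ℕ := rmx q.R q.n

theorem Lm_ge (q : Dj) {j : ℕ} (h : j < q.n) : q.Rr j ≤ (q.Lm : ℝ) / 2 ^ 24 := by
  unfold Rr
  refine div_le_div_of_nonneg_right ?_ (by positivity)
  exact_mod_cast rmx_le q.R h.le

theorem A_mono (q : Dj) {i j : ℕ} (h : i ≤ j) : q.A i ≤ q.A j := by
  unfold A
  rw [nsum_eq, nsum_eq]
  exact Finset.sum_le_sum_of_subset (Finset.range_mono h)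

/-- the left value of the rates at the shift `c w` -/
theorem H_ge (hq : q.Ok) {c z : ℝ} (c1 : c ≤ 1) (c0 : 0 ≤ c)
    (hz : z = c * ((q.w : ℝ) / 2 ^ 24)) {l : ℕ} (hl : l < q.nc) {a b σ : ℝ}
    (h : Crs q.t q.n q.K z l a b σ) :
    (q.I (l + 1) : ℝ) / 2 ^ 24 + (b - a) * ((q.Rs l : ℝ) / 2 ^ 24)
      ≤ ((1 - c) * (q.H0 l : ℝ) + c * (q.H1 l : ℝ)) / 2 ^ 24 := by
  have m : q.A (q.K l) ≤ q.A (q.K (l + 1)) := q.A_mono h.Kl
  have k0 : ((((q.A (q.K (l + 1)) - q.A (q.K l)) * q.Rs l : ℕ) : ℝ)) / ((2 ^ 24 : ℕ) : ℝ)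
      ≤ (cdiv ((q.A (q.K (l + 1)) - q.A (q.K l)) * q.Rs l) (2 ^ 24) : ℝ) :=
    cdiv_real (by norm_num)
  push_cast [Nat.cast_sub m] at k0
  by_cases l0 : l = 0
  · subst l0
    have K1 : 1 ≤ q.K 1 := by
      have := hq.K_pos (l := 1) (by omega) (by have := hq.nc0; omega)
      omega
    have wA : q.w ≤ q.A (q.K 1) := by
      have h1 : q.A 1 = q.h 0 := by
        unfold A
        simp [nsum]
      have h2 := q.A_mono K1
      have h3 := hq.wh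
      omega
    have k1 : ((((q.A (q.K 1) - q.w) * q.Rs 0 : ℕ) : ℝ)) / ((2 ^ 24 : ℕ) : ℝ)
        ≤ (cdiv ((q.A (q.K 1) - q.w) * q.Rs 0) (2 ^ 24) : ℝ) := cdiv_real (by norm_num)
    push_cast [Nat.cast_sub wA] at k1
    have A0 : q.A (q.K 0) = 0 := by
      rw [hq.K0]
      rfl
    rw [A0] at k0
    simp only [zero_add, Nat.cast_zero, sub_zero] at k0
    have e0 : (q.H0 0 : ℝ) = (q.I 1 : ℝ)
        + (cdiv ((q.A (q.K 1) - q.A (q.K 0)) * q.Rs 0) (2 ^ 24) : ℝ) := by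
      unfold H0
      push_cast
      rfl
    have e1 : (q.H1 0 : ℝ) = (q.I 1 : ℝ) + (cdiv ((q.A (q.K 1) - q.w) * q.Rs 0) (2 ^ 24) : ℝ) := by
      unfold H1
      rw [if_pos rfl]
      push_cast
      rfl
    have ab : b - a = (q.A (q.K 1) : ℝ) / 2 ^ 24 - c * ((q.w : ℝ) / 2 ^ 24) := by
      rw [h.a0 rfl, h.bl, hz]
      unfold t
      rw [zero_add, sub_zero]
    rw [e0, e1, ab]
    simp only [A0, Nat.sub_zero] at k0 ⊢
    have x0 := mul_le_mul_of_nonneg_left k0 (sub_nonneg.2 c1)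
    have x1 := mul_le_mul_of_nonneg_left k1 c0
    have x2 := add_le_add x0 x1
    have x3 := div_le_div_of_nonneg_right x2 (by positivity : (0 : ℝ) ≤ 2 ^ 24)
    have e2 : ((q.A (q.K 1) : ℝ) / 2 ^ 24 - c * ((q.w : ℝ) / 2 ^ 24)) * ((q.Rs 0 : ℝ) / 2 ^ 24)
        = ((1 - c) * ((q.A (q.K 1) : ℝ) * (q.Rs 0 : ℝ) / 2 ^ 24)
          + c * (((q.A (q.K 1) : ℝ) - q.w) * (q.Rs 0 : ℝ) / 2 ^ 24)) / 2 ^ 24 := by ring
    rw [e2]
    simp only [zero_add]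
    linarith
  · have e0 : (q.H0 l : ℝ) = (q.I (l + 1) : ℝ)
        + (cdiv ((q.A (q.K (l + 1)) - q.A (q.K l)) * q.Rs l) (2 ^ 24) : ℝ) := by
      unfold H0
      push_cast
      rfl
    have e1 : (q.H1 l : ℝ) = (q.H0 l : ℝ) := by
      unfold H1
      rw [if_neg l0]
    have ab : b - a = ((q.A (q.K (l + 1)) : ℝ) - (q.A (q.K l) : ℝ)) / 2 ^ 24 := by
      rw [h.al l0, h.bl]
      unfold t
      ring
    rw [e1, e0, ab]
    have x3 := div_le_div_of_nonneg_right k0 (by positivity : (0 : ℝ) ≤ 2 ^ 24)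
    have e2 : ((q.A (q.K (l + 1)) : ℝ) - (q.A (q.K l) : ℝ)) / 2 ^ 24 * ((q.Rs l : ℝ) / 2 ^ 24)
        = (((q.A (q.K (l + 1)) : ℝ) - (q.A (q.K l) : ℝ)) * (q.Rs l : ℝ) / 2 ^ 24) / 2 ^ 24 := by
      ring
    rw [e2]
    linarith

end Dj

end Pool.Agent.RZ.RCO
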