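import Pool.Agent.RZ.RCO.Ed4b
import Pool.Agent.RZ.RCO.Ed4e

/-! Route P: the direct parts and the rates of a class in a big cell: columns and rows
(MP_73ccd0_lc). -/

set_option autoImplicit false
set_option linter.unusedSectionVars false

namespace Pool.Agent.RZ.RCO

open Set Finset MeasureTheory Pool.Agent.RZ.RCRSHalf Pool.Agent.RZ.RCG Pool.Agent.RZ.RCG.Ct
open Pool.Agent.RZ.RCN Pool.Agent.RZ.RCN.K

variable {V : Type*} [Fintype V] [DecidableEq V]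

/-- **a world on the integers of the direct parts**, at the shift `z = c w` of the time, with the
end `σ` between the shifted coarse nodes `a` and `b` of the coarse cell `l` -/
structure DjW (q : Dj) (x : V → V → ℝ) (P : V → Prop) (D : Finset V) (hb T : ℝ → V → V → ℝ)
    (τ σ z c : ℝ) (l : ℕ) (a b : ℝ) : Prop where
  ok : q.Ok
  w : DirW x P D hb T τ z q.t q.n q.Rr q.gr
  c0 : 0 ≤ c
  c1 : c ≤ 1
  hz : z = c * ((q.w : ℝ) / 2 ^ 24)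
  hl : l < q.nc
  cr : Crs q.t q.n q.K z l a b σ
  στ : σ ≤ τ

namespace DjW

variable {q : Dj} {x : V → V → ℝ} {P : V → Prop} [DecidablePred P] {D : Finset V}
  {hb T : ℝ → V → V → ℝ} {τ σ ρ z c : ℝ} {l : ℕ} {a b : ℝ}

theorem K0 (h : DjW q x P D hb T τ σ z c l a b) : l ≠ 0 → 0 < q.K l := fun l0 =>
  h.ok.K_pos l0 h.hl.le

theorem σ0 (h : DjW q x P D hb T τ σ z c l a b) : 0 ≤ σ :=
  (h.cr.a_nonneg h.w.hm h.w.z1 h.K0).trans h.cr.h1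

/-- the increment of the slopes -/
theorem inc (h : DjW q x P D hb T τ σ z c l a b) (nh : ℕ) :
    pl q.t (stp q.t (q.Gc nh c)) q.n (σ + z) - pl q.t (stp q.t (q.Gc nh c)) q.n z
      ≤ li a b (q.Jc nh c l) (q.Jc nh c (l + 1)) σ :=
  h.cr.inc h.w.hm h.w.n0 h.w.t0 h.w.z0 h.w.z1 h.K0 (fun j _ => q.Gc_nonneg nh h.c0 h.c1 j)
    (fun j _ => q.Gc_mono nh h.c0 h.c1 j) (fun l0 => by unfold Dj.Jc; rw [if_pos l0])
    (fun l0 => q.Jc_ge nh h.c0 h.c1 l0) (q.Jc_ge nh h.c0 h.c1 (Nat.succ_ne_zero l))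

theorem col (h : DjW q x P D hb T τ σ z c l a b) {nh : ℕ} {d : V} (hd : d ∈ Dᶜ) (hPd : P d)
    {N1 N2 : V → ℝ} (hN : ∀ e ∈ Dᶜ.erase d, P e → 0 ≤ N1 e + N2 e)
    (hn : ∑ e ∈ Dᶜ.erase d, ind P e * (N1 e + N2 e)
      ≤ (1 - (fp x D d).k) * ((nh : ℝ) / 2 ^ 24)) :
    ∑ e ∈ Dᶜ.erase d, ind P e * dirI hb T (F0 Dᶜ e d) e d σ (N1 e) (N2 e)
      ≤ (1 - (fp x D d).k) * li a b (q.Jc nh c l) (q.Jc nh c (l + 1)) σ :=
  (h.w.col (E := q.Ec c) (G := q.Gc nh c) (nh := (nh : ℝ) / 2 ^ 24)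
    (fun j _ => q.Ec_nonneg h.c0 h.c1 j) (fun j _ => q.Ec_le h.c0 h.hz j)
    (fun j _ => q.Gc_le nh h.c0 h.c1 j) h.σ0 h.στ hd hPd hN hn).trans
    (mul_le_mul_of_nonneg_left (h.inc nh) (h.w.k1 d))

theorem row (h : DjW q x P D hb T τ σ z c l a b) {nh : ℕ} {e : V} (he : e ∈ Dᶜ) (hPe : P e)
    {N1 N2 : V → ℝ} (hN : ∀ d ∈ Dᶜ.erase e, P d → 0 ≤ N1 d + N2 d)
    (hn : ∑ d ∈ Dᶜ.erase e, ind P d * (N1 d + N2 d)
      ≤ (1 - (fp x D e).k) * ((nh : ℝ) / 2 ^ 24)) :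
    ∑ d ∈ Dᶜ.erase e, ind P d * dirI hb T (F0 Dᶜ e d) e d σ (N1 d) (N2 d)
      ≤ (1 - (fp x D e).k) * li a b (q.Jc nh c l) (q.Jc nh c (l + 1)) σ :=
  (h.w.rw' (E := q.Ec c) (G := q.Gc nh c) (nh := (nh : ℝ) / 2 ^ 24)
    (fun j _ => q.Ec_nonneg h.c0 h.c1 j) (fun j _ => q.Ec_le h.c0 h.hz j)
    (fun j _ => q.Gc_le nh h.c0 h.c1 j) h.σ0 h.στ he hPe hN hn).trans
    (mul_le_mul_of_nonneg_left (h.inc nh) (h.w.k1 e))

/-- sums of two families -/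
theorem sum2 {C : Finset V} {f g : V → ℝ} {m n : ℝ} (h1 : ∑ e ∈ C, ind P e * f e ≤ m)
    (h2 : ∑ e ∈ C, ind P e * g e ≤ n) : ∑ e ∈ C, ind P e * (f e + g e) ≤ m + n := by
  refine le_trans (le_of_eq ?_) (add_le_add h1 h2)
  rw [← Finset.sum_add_distrib]
  exact Finset.sum_congr rfl fun e _ => by ring

variable {gp gm : Finset V → V → V → ℝ → ℝ} {g1 g2 g3 : IxF V → ℝ → ℝ} {m1 m2 m3 : ℝ}

/-- **columns of the direct parts of the deleted constants** -/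
theorem dc (h : DjW q x P D hb T τ σ z c l a b) {nh : ℕ} {d : V} (hd : d ∈ Dᶜ) (hPd : P d)
    (n1 : ∀ i, 0 ≤ g1 i 0) (n2 : ∀ i, 0 ≤ g2 i 0)
    (h1 : ∑ e ∈ Dᶜ.erase d, ind P e * g1 (false, (Dᶜ.erase d).erase e, e, d) 0 ≤ m1)
    (h2 : ∑ e ∈ Dᶜ.erase d, ind P e * g2 (false, (Dᶜ.erase d).erase e, d, e) 0 ≤ m2)
    (hm : m1 + m2 ≤ (1 - (fp x D d).k) * ((nh : ℝ) / 2 ^ 24)) :
    ∑ e ∈ Dᶜ.erase d, ind P e * DdF hb Dᶜ σ T g1 g2 e d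
      ≤ (1 - (fp x D d).k) * li a b (q.Jc nh c l) (q.Jc nh c (l + 1)) σ := by
  refine h.col hd hPd (fun e _ _ => ?_) ((sum2 ?_ ?_).trans hm)
  · unfold nXF ZF
    have := n1 (false, F0 Dᶜ e d, e, d)
    have := n2 (false, F0 Dᶜ e d, d, e)
    linarith
  · refine le_trans (le_of_eq (Finset.sum_congr rfl fun e _ => ?_)) h1
    unfold nXF ZF
    rw [zero_add, F0_c]
  · refine le_trans (le_of_eq (Finset.sum_congr rfl fun e _ => ?_)) h2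
    unfold nXF ZF
    rw [zero_add, F0_c]

/-- **rows of the direct parts of the deleted constants** -/
theorem dr (h : DjW q x P D hb T τ σ z c l a b) {nh : ℕ} {e : V} (he : e ∈ Dᶜ) (hPe : P e)
    (n1 : ∀ i, 0 ≤ g1 i 0) (n2 : ∀ i, 0 ≤ g2 i 0)
    (h1 : ∑ d ∈ Dᶜ.erase e, ind P d * g1 (false, (Dᶜ.erase e).erase d, e, d) 0 ≤ m1)
    (h2 : ∑ d ∈ Dᶜ.erase e, ind P d * g2 (false, (Dᶜ.erase e).erase d, d, e) 0 ≤ m2)
    (hm : m1 + m2 ≤ (1 - (fp x D e).k) * ((nh : ℝ) / 2 ^ 24)) :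
    ∑ d ∈ Dᶜ.erase e, ind P d * DdF hb Dᶜ σ T g1 g2 e d
      ≤ (1 - (fp x D e).k) * li a b (q.Jc nh c l) (q.Jc nh c (l + 1)) σ := by
  refine h.row he hPe (fun d _ _ => ?_) ((sum2 ?_ ?_).trans hm)
  · unfold nXF ZF
    have := n1 (false, F0 Dᶜ e d, e, d)
    have := n2 (false, F0 Dᶜ e d, d, e)
    linarith
  · refine le_trans (le_of_eq (Finset.sum_congr rfl fun d _ => ?_)) h1
    unfold nXF ZF
    rw [zero_add, F0_d]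
  · refine le_trans (le_of_eq (Finset.sum_congr rfl fun d _ => ?_)) h2
    unfold nXF ZF
    rw [zero_add, F0_d]

/-- **columns of the direct parts of the released constants** -/
theorem fc (h : DjW q x P D hb T τ σ z c l a b) {nh : ℕ} {d : V} (hd : d ∈ Dᶜ) (hPd : P d)
    (n1 : ∀ i, 0 ≤ g1 i 0) (n2 : ∀ F i j, 0 ≤ gp F i j ρ) (n3 : ∀ i, 0 ≤ g3 i 0)
    (h1 : ∑ e ∈ Dᶜ.erase d, ind P e * g1 (false, (Dᶜ.erase d).erase e, e, d) 0 ≤ m1)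
    (h2 : ∑ e ∈ Dᶜ.erase d, ind P e * gp ((Dᶜ.erase d).erase e) d e ρ ≤ m2)
    (h3 : ∑ e ∈ Dᶜ.erase d, ind P e * g3 (false, (Dᶜ.erase d).erase e, d, e) 0 ≤ m3)
    (hm : m1 + (m2 + m3) ≤ (1 - (fp x D d).k) * ((nh : ℝ) / 2 ^ 24)) :
    ∑ e ∈ Dᶜ.erase d, ind P e * DfF hb Dᶜ σ ρ T gp g1 g3 e d
      ≤ (1 - (fp x D d).k) * li a b (q.Jc nh c l) (q.Jc nh c (l + 1)) σ := by
  refine h.col hd hPd (fun e _ _ => ?_) ((sum2 ?_ (m := m1) (n := m2 + m3) ?_).trans hm)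
  · unfold nXF ZF
    have := n1 (false, F0 Dᶜ e d, e, d)
    have := n2 (F0 Dᶜ e d) d e
    have := n3 (false, F0 Dᶜ e d, d, e)
    linarith
  · refine le_trans (le_of_eq (Finset.sum_congr rfl fun e _ => ?_)) h1
    unfold nXF ZF
    rw [zero_add, F0_c]
  · refine le_trans (le_of_eq (Finset.sum_congr rfl fun e _ => ?_)) (sum2 h2 h3)
    unfold nXF
    rw [F0_c]

/-- **rows of the direct parts of the released constants** -/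
theorem fr (h : DjW q x P D hb T τ σ z c l a b) {nh : ℕ} {e : V} (he : e ∈ Dᶜ) (hPe : P e)
    (n1 : ∀ i, 0 ≤ g1 i 0) (n2 : ∀ F i j, 0 ≤ gp F i j ρ) (n3 : ∀ i, 0 ≤ g3 i 0)
    (sp : ∀ F i j, gp F i j ρ = gp F j i ρ)
    (h1 : ∑ d ∈ Dᶜ.erase e, ind P d * g1 (false, (Dᶜ.erase e).erase d, e, d) 0 ≤ m1)
    (h2 : ∑ d ∈ Dᶜ.erase e, ind P d * gp ((Dᶜ.erase e).erase d) e d ρ ≤ m2)
    (h3 : ∑ d ∈ Dᶜ.erase e, ind P d * g3 (false, (Dᶜ.erase e).erase d, d, e) 0 ≤ m3)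
    (hm : m1 + (m2 + m3) ≤ (1 - (fp x D e).k) * ((nh : ℝ) / 2 ^ 24)) :
    ∑ d ∈ Dᶜ.erase e, ind P d * DfF hb Dᶜ σ ρ T gp g1 g3 e d
      ≤ (1 - (fp x D e).k) * li a b (q.Jc nh c l) (q.Jc nh c (l + 1)) σ := by
  refine h.row he hPe (fun d _ _ => ?_) ((sum2 ?_ (m := m1) (n := m2 + m3) ?_).trans hm)
  · unfold nXF ZF
    have := n1 (false, F0 Dᶜ e d, e, d)
    have := n2 (F0 Dᶜ e d) d e
    have := n3 (false, F0 Dᶜ e d, d, e)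
    linarith
  · refine le_trans (le_of_eq (Finset.sum_congr rfl fun d _ => ?_)) h1
    unfold nXF ZF
    rw [zero_add, F0_d]
  · refine le_trans (le_of_eq (Finset.sum_congr rfl fun d _ => ?_)) (sum2 h2 h3)
    show ind P d * (gp (F0 Dᶜ e d) d e ρ + g3 (false, F0 Dᶜ e d, d, e) 0) = _
    rw [sp _ d e, F0_d]

/-- the rates after the coarse nodes at the shift `c w` -/
noncomputable def Hl (q : Dj) (c : ℝ) (l : ℕ) : ℝ :=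
  ((1 - c) * (q.H0 l : ℝ) + c * (q.H1 l : ℝ)) / 2 ^ 24

/-- **the rates between the release time and the end** -/
theorem Hr (h : DjW q x P D hb T τ σ z c l a b) (ρ0 : 0 ≤ ρ) (ρσ : ρ ≤ σ) (e : V) :
    ∑ d ∈ Dᶜ.erase e, ind P d * RCM.bk (fun r => hb r e d) τ ρ
      ≤ (1 - (fp x D e).k) * (li a b (Hl q c l) ((q.I (l + 1) : ℝ) / 2 ^ 24) σ
        + (q.Lm : ℝ) / 2 ^ 24 * (σ - ρ)) := by
  refine (h.w.hr ⟨ρ0, ρσ.trans h.στ⟩ e).trans (mul_le_mul_of_nonneg_left ?_ (h.w.k1 e))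
  refine (h.cr.dec (I := (q.I (l + 1) : ℝ) / 2 ^ 24) (Rs := (q.Rs l : ℝ) / 2 ^ 24)
    (Lam := (q.Lm : ℝ) / 2 ^ 24) h.w.hm h.w.n0 h.w.t0 h.w.z0 h.w.z1 h.K0
    (fun j _ => by unfold Dj.Rr; positivity) h.w.zn h.στ ρ0 ρσ (q.I_ge h.cr.Kn)
    (fun j j1 j2 => q.Rs_ge j1 j2) (fun j hj => q.Lm_ge hj)).trans ?_
  have h1 := q.H_ge h.ok h.c1 h.c0 h.hz h.hl h.cr
  exact add_le_add (li_mono h.cr.ab h.cr.h1 h.cr.h2 h1 le_rfl) le_rfl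

end DjW

end Pool.Agent.RZ.RCO
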