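import Pool.Agent.RZ.RCO.Ed2
import Pool.Agent.RZ.RCO.Ed4f
import Pool.Agent.RZ.RCO.Eg5

/-! Route P: the direct parts of a class in a big cell from the bounds of a world
(MP_73ccd0_lc). -/

set_option autoImplicit false
set_option linter.unusedSectionVars false

namespace Pool.Agent.RZ.RCO

open Set Finset MeasureTheory Pool.Agent.RZ.RCRSHalf Pool.Agent.RZ.RCG Pool.Agent.RZ.RCG.Ct
open Pool.Agent.RZ.RCN Pool.Agent.RZ.RCN.K Sg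

/-! ### the big cell -/

/-- the integers belong to the big cell `e` -/
def Dj.rel (q : Dj) (e : Ec0) : Bool :=
  Nat.beq q.nc e.n && decide ((q.w : ℤ) = e.W)
    && (List.range (q.nc + 1)).all fun l => decide ((q.A (q.K l) : ℤ) = e.A l)

theorem Dj.rel_of {q : Dj} {e : Ec0} (h : q.rel e = true) :
    q.nc = e.n ∧ (q.w : ℝ) = e.W ∧ ∀ l ≤ q.nc, q.t (q.K l) = (e.A l : ℝ) / 2 ^ 24 := by
  unfold rel at h
  simp only [Bool.and_eq_true, List.all_eq_true, List.mem_range, decide_eq_true_eq] at h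
  obtain ⟨⟨h1, h2⟩, h3⟩ := h
  refine ⟨Nat.eq_of_beq_eq_true h1, by exact_mod_cast h2, fun l hl => ?_⟩
  have := h3 l (by omega)
  unfold t
  rw [← this]
  push_cast
  rfl

/-- the place of the end `σ` between the shifted coarse nodes of the big cell -/
theorem Dj.crs {q : Dj} {e : Ec0} (hq : q.Ok) (h : q.rel e = true) (hA : e.A 0 = 0) {l : ℕ}
    (hl : l < q.nc) {c z σ : ℝ} (hz : z = c * ((q.w : ℝ) / 2 ^ 24))
    (h1 : e.nd l c ≤ σ) (h2 : σ ≤ e.nd (l + 1) c) (h3 : e.nd l c < e.nd (l + 1) c) :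
    Crs q.t q.n q.K z l (e.nd l c) (e.nd (l + 1) c) σ := by
  obtain ⟨-, b2, b3⟩ := rel_of h
  have nz : ∀ m, m ≠ 0 → e.nd m c = (e.A m : ℝ) / 2 ^ 24 - z := fun m hm => by
    unfold Ec0.nd Ec0.a1 ip
    rw [if_neg hm, hz, b2]
    push_cast
    ring
  exact {
    Kl := (hq.Kl l hl).le
    Kn := hq.K_le hl
    K0 := fun l0 => by rw [l0, hq.K0]
    a0 := fun l0 => by
      rw [l0]
      unfold Ec0.nd Ec0.a1 ip
      rw [if_pos rfl, hA]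
      push_cast
      ring
    al := fun l0 => by rw [nz l l0, b3 l hl.le]
    bl := by rw [nz (l + 1) (Nat.succ_ne_zero l), b3 (l + 1) hl]
    ab := h3
    h1 := h1
    h2 := h2 }

/-! ### the direct parts of a world with its bounds -/

section full

variable {V : Type*} [Fintype V] [DecidableEq V]
variable {Z : Hzd} {x : V → V → ℝ} {P : V → Prop} [DecidablePred P]
variable {A D : Finset V} {α τ σ ρ : ℝ} {S : Finset ℝ} {ζ : V → V → ℝ → ℝ} {Y N : V → ℝ → ℝ}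
variable {Λ0 : Type*} [Fintype Λ0] {d0 : R12 V Λ0}
  {gp gp' gm gm' : Finset V → V → V → ℝ → ℝ} {g1 g2 g3 : IxF V → ℝ → ℝ}
  {J1 M1 Λ1 : Type*} [Fintype J1] [Nonempty J1] [Fintype M1] [Nonempty M1] [Fintype Λ1]
  {J2 M2 Λ2 : Type*} [Fintype J2] [Nonempty J2] [Fintype M2] [Nonempty M2] [Fintype Λ2]
  {J3 M3 Λ3 : Type*} [Fintype J3] [Nonempty J3] [Fintype M3] [Nonempty M3] [Fintype Λ3]
  {q1 : SysD J1 M1 Λ1} {q2 : SysD J2 M2 Λ2} {q3 : SysD J3 M3 Λ3} {lq1 lq2 lq3 : Bool}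
  {B : EgB} {q : Dj} {z c a b : ℝ} {l nh nf : ℕ}

/-- **the direct parts, columns**: from the losses `N1 + Nc2 ≤ (1 - k) nh` and
`N1 + Gr + Nc3 ≤ (1 - k) nf` -/
theorem FulD.dirc (hD : D.card ≤ 2)
    (h : FulD Z x P A D α τ σ ρ S ζ Y N d0 q1 q2 q3 lq1 lq2 lq3 gp gp' gm gm' g1 g2 g3)
    (hv : EgVc ρ q1.dt q2.dp q2.m0 q3.dp q3.m0 B)
    (hw : DjW q x P D (Z.hh x P) (Tc0 (Z.hh x P) D ζ Y) τ σ z c l a b) :
    ((∀ d ∈ Dᶜ, P d → B.N1 (fp x D d) + B.Nc2 (fp x D d)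
        ≤ (1 - (fp x D d).k) * ((nh : ℝ) / 2 ^ 24)) →
      ∀ d ∈ Dᶜ, P d → ∑ e ∈ Dᶜ.erase d, ind P e
          * DdF (Z.hh x P) Dᶜ σ (Tc0 (Z.hh x P) D ζ Y) g1 g2 e d
        ≤ (1 - (fp x D d).k) * li a b (q.Jc nh c l) (q.Jc nh c (l + 1)) σ) ∧
    ((∀ c ∈ Dᶜ, P c →
        ∑ e ∈ Dᶜ.erase c, ind P e * gp ((Dᶜ.erase c).erase e) c e ρ ≤ B.Gr (fp x D c)) →
      (∀ d ∈ Dᶜ, P d → B.N1 (fp x D d) + (B.Gr (fp x D d) + B.Nc3 (fp x D d))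
        ≤ (1 - (fp x D d).k) * ((nf : ℝ) / 2 ^ 24)) →
      ∀ d ∈ Dᶜ, P d → ∑ e ∈ Dᶜ.erase d, ind P e
          * DfF (Z.hh x P) Dᶜ σ ρ (Tc0 (Z.hh x P) D ζ Y) gp g1 g3 e d
        ≤ (1 - (fp x D d).k) * li a b (q.Jc nf c l) (q.Jc nf c (l + 1)) σ) := by
  have hf := h.ful
  have σ0 := hf.sol.σ0
  have στ := hf.sol.στ
  have τ0 := σ0.trans στ
  have z : (0 : ℝ) ∈ Icc 0 σ := ⟨le_rfl, σ0⟩
  have z' : (0 : ℝ) ∈ Icc 0 τ := ⟨le_rfl, τ0⟩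
  have zρ : ρ ∈ Icc 0 τ := ⟨hf.ρ0, hf.ρτ⟩
  refine ⟨fun hn d hd hPd => ?_, fun hG hn d hd hPd => ?_⟩
  · have hfu := fu_fp hf.wt hD hd hPd
    have n1 := (dS1_tn hf.l1 hd hPd (f := ind P) ind_le z').trans (hv.N1 _ hfu)
    have n2 := (dS1_pn hf.l2 h.i2.hm0 hd hPd (f := ind P) ind_le z).trans (hv.Nc2 _ hfu)
    exact hw.dc hd hPd (fun i => hf.sol.x1.g0 i z') (fun i => hf.sol.x2.g0 i z) n1 n2 (hn _ hd hPd)
  · have hfu := fu_fp hf.wt hD hd hPd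
    have n1 := (dS1_tn hf.l1 hd hPd (f := ind P) ind_le z').trans (hv.N1 _ hfu)
    have n3 := (dS1_pn hf.l3 h.i3.hm0 hd hPd (f := ind P) ind_le z).trans (hv.Nc3 _ hfu)
    exact hw.fc hd hPd (fun i => hf.sol.x1.g0 i z')
      (fun F i j => hf.sol.g.s.gp0 F i j ρ zρ) (fun i => hf.sol.x3.g0 i z) n1 (hG d hd hPd) n3
      (hn _ hd hPd)

/-- **the direct parts, rows**: from the losses `Nc1 + N2 ≤ (1 - k) nh` and
`Nc1 + Gr + N3 ≤ (1 - k) nf` -/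
theorem FulD.dirr (hD : D.card ≤ 2)
    (h : FulD Z x P A D α τ σ ρ S ζ Y N d0 q1 q2 q3 lq1 lq2 lq3 gp gp' gm gm' g1 g2 g3)
    (hv : EgVr ρ q1.dp q1.m0 q2.dt q3.dt B)
    (hw : DjW q x P D (Z.hh x P) (Tc0 (Z.hh x P) D ζ Y) τ σ z c l a b) :
    ((∀ e ∈ Dᶜ, P e → B.Nc1 (fp x D e) + B.N2 (fp x D e)
        ≤ (1 - (fp x D e).k) * ((nh : ℝ) / 2 ^ 24)) →
      ∀ e ∈ Dᶜ, P e → ∑ d ∈ Dᶜ.erase e, ind P d
          * DdF (Z.hh x P) Dᶜ σ (Tc0 (Z.hh x P) D ζ Y) g1 g2 e d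
        ≤ (1 - (fp x D e).k) * li a b (q.Jc nh c l) (q.Jc nh c (l + 1)) σ) ∧
    ((∀ c ∈ Dᶜ, P c →
        ∑ e ∈ Dᶜ.erase c, ind P e * gp ((Dᶜ.erase c).erase e) c e ρ ≤ B.Gr (fp x D c)) →
      (∀ e ∈ Dᶜ, P e → B.Nc1 (fp x D e) + (B.Gr (fp x D e) + B.N3 (fp x D e))
        ≤ (1 - (fp x D e).k) * ((nf : ℝ) / 2 ^ 24)) →
      ∀ e ∈ Dᶜ, P e → ∑ d ∈ Dᶜ.erase e, ind P d
          * DfF (Z.hh x P) Dᶜ σ ρ (Tc0 (Z.hh x P) D ζ Y) gp g1 g3 e d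
        ≤ (1 - (fp x D e).k) * li a b (q.Jc nf c l) (q.Jc nf c (l + 1)) σ) := by
  have hf := h.ful
  have σ0 := hf.sol.σ0
  have στ := hf.sol.στ
  have τ0 := σ0.trans στ
  have z : (0 : ℝ) ∈ Icc 0 σ := ⟨le_rfl, σ0⟩
  have z' : (0 : ℝ) ∈ Icc 0 τ := ⟨le_rfl, τ0⟩
  have zρ : ρ ∈ Icc 0 τ := ⟨hf.ρ0, hf.ρτ⟩
  refine ⟨fun hn e he hPe => ?_, fun hG hn e he hPe => ?_⟩
  · have hfu := fu_fp hf.wt hD he hPe
    have n1 := (dS1_pn hf.l1 h.i1.hm0 he hPe (f := ind P) ind_le z').trans (hv.Nc1 _ hfu)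
    have n2 := (dS1_tn hf.l2 he hPe (f := ind P) ind_le z).trans (hv.N2 _ hfu)
    exact hw.dr he hPe (fun i => hf.sol.x1.g0 i z') (fun i => hf.sol.x2.g0 i z) n1 n2 (hn _ he hPe)
  · have hfu := fu_fp hf.wt hD he hPe
    have n1 := (dS1_pn hf.l1 h.i1.hm0 he hPe (f := ind P) ind_le z').trans (hv.Nc1 _ hfu)
    have n3 := (dS1_tn hf.l3 he hPe (f := ind P) ind_le z).trans (hv.N3 _ hfu)
    exact hw.fr he hPe (fun i => hf.sol.x1.g0 i z')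
      (fun F i j => hf.sol.g.s.gp0 F i j ρ zρ) (fun i => hf.sol.x3.g0 i z)
      (fun F i j => hf.sol.g.sp F i j ρ zρ) n1 (hG e he hPe) n3 (hn _ he hPe)

end full

end Pool.Agent.RZ.RCO
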