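import Pool.Agent.RZ.RCO.Ed3
import Pool.Agent.RZ.RCO.Ed4h
import Pool.Agent.RZ.RCO.Ed4i
import Pool.Agent.RZ.RCO.Gg5
import Pool.Agent.RZ.RCO.Sk1

/-! Route P: the place of a class in its big cell (MP_73ccd0_lc). -/

set_option autoImplicit false
set_option linter.unusedSectionVars false

namespace Pool.Agent.RZ.RCO

open Set Finset Pool.Agent.RZ.RCRSHalf Pool.Agent.RZ.RCG Pool.Agent.RZ.RCG.Ct
open Pool.Agent.RZ.RCN Pool.Agent.RZ.RCN.K

/-- **the place of a class**: `z` the shift of the table, `cc` its coordinate in the cell, `a`,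
`b` the shifted coarse nodes -/
structure Plk {J M Λ J' M' Λ' Λ0 : Type*} (R : RT.Tab) (e : Ec0) (q : Dj)
    (c : CelD J M Λ J' M' Λ' Λ0) (ε : ℝ) (m i j l : ℕ) (θ z cc a b : ℝ) : Prop where
  hz : z = e.T / 2 ^ 24 - cb R.N i
  zc : z = (R.tn (m + 1) - cb R.N i) + e.dx R m
  hcc : cc = e.cz R m (R.tn (m + 1) - cb R.N i)
  c0 : 0 ≤ cc
  c1 : cc ≤ 1
  zW : z = cc * ((e.W : ℝ) / 2 ^ 24)
  zw : z = cc * ((q.w : ℝ) / 2 ^ 24)
  pl : c.Pl l θ z (cb R.N i) (max 0 (sgm (sgN R.N) ε i j))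
  sE : sgE c.A l θ z = sgN R.N i j
  sj : sgN R.N i j = cb R.N j
  ρσ : max 0 (sgm (sgN R.N) ε i j) ≤ sgN R.N i j
  ρN : sgN R.N i j ≤ max 0 (sgm (sgN R.N) ε i j) + 3 / R.N
  plc : Plc R m e.n (e.cn R m) ε i j l
  pa : ag c.A z l = a
  pb : ag c.A z (l + 1) = b
  a1 : a = e.nd l cc
  b1 : b = e.nd (l + 1) cc
  a2 : al (e.cn R m) (R.tn (m + 1)) (R.tn (m + 1) - cb R.N i) l = a
  b2 : al (e.cn R m) (R.tn (m + 1)) (R.tn (m + 1) - cb R.N i) (l + 1) = b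
  ab : a < b
  h1 : a ≤ sgN R.N i j
  h2 : sgN R.N i j ≤ b
  cr : Crs q.t q.n q.K z l a b (sgN R.N i j)

section place

variable {J M Λ J' M' Λ' Λ0 : Type*} [Fintype J] [Nonempty J] [Fintype M] [Nonempty M]
  [Fintype Λ] [Fintype J'] [Nonempty J'] [Fintype M'] [Nonempty M'] [Fintype Λ'] [Fintype Λ0]
variable {FF : (ℕ → ℝ) → Pt → ℝ} {N : ℕ} {ft : ℕ → Pt → ℝ} {c : CelD J M Λ J' M' Λ' Λ0}
  {R : RT.Tab} {m i j : ℕ} {e : Ec0} {q : Dj} {ε : ℝ}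

/-- **every class has a place** -/
theorem CelD.Ok.place (h : c.Ok FF N ft) (he : e.Ok) (hr : e.Rel R m) (hq : q.Ok)
    (hqr : q.rel e = true) (hcn : c.nc = e.n) (hcA : ∀ l ≤ c.nc, c.A l = (e.A l : ℝ) / 2 ^ 24)
    (hm : m < R.M) (hi : i < R.N) (hj : j ≤ i) (lo : R.tn m ≤ ca R.N i)
    (hi' : cb R.N i ≤ R.tn (m + 1)) (ε0 : 0 < ε) (hε : ε ≤ 1 / R.N) (hη : 3 / R.N ≤ c.η) :
    ∃ l < e.n, ∃ θ z cc a b, Plk R e q c ε m i j l θ z cc a b := by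
  have N0 : 0 < R.N := by omega
  have Nr : (0 : ℝ) < R.N := by exact_mod_cast N0
  have cab : ca R.N i < cb R.N i := by
    unfold ca cb
    exact div_lt_div_of_pos_right (by linarith) Nr
  have jc : cb R.N j ≤ cb R.N i := by
    unfold cb
    exact div_le_div_of_nonneg_right (by
      have : (j : ℝ) ≤ i := by exact_mod_cast hj
      linarith) Nr.le
  have j0 : 0 < cb R.N j := by
    unfold cb
    positivity
  have cT : c.t c.n = (e.T : ℝ) / 2 ^ 24 := by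
    rw [← h.hN.an, hcA _ le_rfl, hcn, he.An]
  have hz' : R.tn (m + 1) - cb R.N i ∈ Icc 0 (R.tn (m + 1) - R.tn m) :=
    ⟨by linarith, by linarith⟩
  have hz'' : R.tn (m + 1) - cb R.N i < R.tn (m + 1) := by linarith
  obtain ⟨z, hz⟩ : ∃ z, z = (e.T : ℝ) / 2 ^ 24 - cb R.N i := ⟨_, rfl⟩
  obtain ⟨cc, hcc⟩ : ∃ cc, cc = e.cz R m (R.tn (m + 1) - cb R.N i) := ⟨_, rfl⟩
  have zc : z = (R.tn (m + 1) - cb R.N i) + e.dx R m := by
    rw [hz]
    unfold Ec0.dx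
    ring
  have zW : z = cc * ((e.W : ℝ) / 2 ^ 24) := by
    rw [hcc, Ec0.czW he hr, zc]
  have zw : z = cc * ((q.w : ℝ) / 2 ^ 24) := by
    obtain ⟨-, b2, -⟩ := Dj.rel_of hqr
    rw [b2]
    exact zW
  have z0 : 0 ≤ z := by
    rw [zc]
    exact add_nonneg hz'.1 (Ec0.dx0 he hr)
  have z1 : z < c.A 1 := by
    rw [hcA 1 (by rw [hcn]; exact he.n0)]
    have h1 : (e.W : ℝ) / 2 ^ 24 ≤ e.A 1 / 2 ^ 24 :=
      div_le_div_of_nonneg_right (by exact_mod_cast he.WA) (by positivity)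
    have h2 := hr.hW
    linarith
  have hσ : cb R.N j ∈ Icc 0 (c.A c.nc - z) := by
    rw [h.hN.an, cT, hz]
    exact ⟨j0.le, by linarith⟩
  obtain ⟨l, hl, l1, l2⟩ := ag_ex h.hN z0 z1 hσ
  have hlt := ag_lt h.hN z0 z1 hl
  have hle : l < e.n := by rw [← hcn]; exact hl
  -- the nodes
  have nd : ∀ l' ≤ e.n, ag c.A z l' = e.nd l' cc := fun l' hl' => by
    rcases Nat.eq_zero_or_pos l' with h3 | h3
    · rw [h3, ag_zero h.hN z0]
      unfold Ec0.nd Ec0.a1 ip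
      rw [if_pos rfl, he.A0]
      norm_num
    · rw [ag_pos h.hN z1 h3 (by rw [hcn]; exact hl'), hcA l' (by rw [hcn]; exact hl'), hcc,
        Ec0.nd_cz he hr h3, zc]
      ring
  have na : ∀ l' ≤ e.n, al (e.cn R m) (R.tn (m + 1)) (R.tn (m + 1) - cb R.N i) l'
      = ag c.A z l' := fun l' hl' => by
    rw [nd l' hl', hcc]
    exact Ec0.al_cz he hr hz' hl'
  have ρσ : max 0 (sgm (sgN R.N) ε i j) ≤ cb R.N j :=
    max_le j0.le (sgN_sgm_le ε0 N0 i j)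
  have ρN : cb R.N j ≤ max 0 (sgm (sgN R.N) ε i j) + 3 / R.N := by
    have h3 : (3 : ℝ) / R.N = 1 / R.N + 2 * (1 / R.N) := by ring
    cases j with
    | zero =>
      have h4 : cb R.N 0 = 1 / R.N := by unfold cb; norm_num
      have h5 : (0 : ℝ) ≤ 1 / R.N := by positivity
      rw [h4, h3]
      have := le_max_left 0 (sgm (sgN R.N) ε i 0)
      linarith
    | succ j =>
      have h4 : cb R.N (j + 1) = cb R.N j + 1 / R.N := by
        unfold cb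
        push_cast
        ring
      have h5 := le_max_right 0 (sgm (sgN R.N) ε i (j + 1))
      have h6 : sgm (sgN R.N) ε i (j + 1) = cb R.N j - 2 * ε := rfl
      rw [h6] at h5
      rw [h4, h3]
      show cb R.N j + 1 / R.N ≤ max 0 (sgm (sgN R.N) ε i (j + 1)) + _
      rw [h6]
      linarith
  obtain ⟨θ, hθ⟩ : ∃ θ, θ = (cb R.N j - ag c.A z l) / (ag c.A z (l + 1) - ag c.A z l) :=
    ⟨_, rfl⟩
  have D0 : 0 < ag c.A z (l + 1) - ag c.A z l := sub_pos.2 hlt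
  have θ0 : 0 ≤ θ := by
    rw [hθ]
    exact div_nonneg (by linarith) D0.le
  have θ1 : θ ≤ 1 := by
    rw [hθ]
    exact (div_le_one D0).2 (by linarith)
  have hs : sgE c.A l θ z = sgN R.N i j := by
    unfold sgE
    rw [hθ, div_mul_cancel₀ _ D0.ne']
    show ag c.A z l + (cb R.N j - ag c.A z l) = cb R.N j
    ring
  have hpl : c.Pl l θ z (cb R.N i) (max 0 (sgm (sgN R.N) ε i j)) := {
    z0 := z0
    z1 := z1
    hτ := by rw [cT, hz]; ring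
    τ1 := cb_le_one hi
    hl := hl
    h0 := θ0
    h1 := θ1
    ρ0 := le_max_left _ _
    ρτ := ρσ.trans jc
    ρ2 := by linarith }
  have hab : e.nd l cc < e.nd (l + 1) cc := by
    rw [← nd l hle.le, ← nd (l + 1) hle]
    exact hlt
  refine ⟨l, hle, θ, z, cc, ag c.A z l, ag c.A z (l + 1), ⟨hz, zc, hcc, ?_, ?_, zW, zw, hpl, hs,
    rfl, ρσ, ρN, ?_, rfl, rfl, nd l hle.le, nd (l + 1) hle, na l hle.le, na (l + 1) hle, hlt,
    l1, l2, ?_⟩⟩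
  · rw [hcc]
    exact Ec0.cz0 he hr hz'
  · rw [hcc]
    exact Ec0.cz1 he hr hz'
  · exact {
      hc := Ec0.cn_ok he hr
      hm := hm
      hi := hi
      hj := hj
      lo := lo
      hi' := hi'
      hε := hε
      hl := hle
      h1 := by rw [na l hle.le]; exact l1
      h2 := by rw [na (l + 1) hle]; exact l2 }
  · have h3 := Dj.crs hq hqr he.A0 (l := l) (by rw [(Dj.rel_of hqr).1]; exact hle) (σ := cb R.N j)
      zw (by rw [← nd l hle.le]; exact l1) (by rw [← nd (l + 1) hle]; exact l2) hab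
    rw [← nd l hle.le, ← nd (l + 1) hle] at h3
    exact h3

end place

/-- **the direct parts at the place of a class** -/
theorem Plk.djW {J M Λ J' M' Λ' Λ0 : Type*} {R : RT.Tab} {e : Ec0} {q : Dj}
    {c : CelD J M Λ J' M' Λ' Λ0} {ε : ℝ} {m i j l : ℕ} {θ z cc a b : ℝ}
    (hp : Plk R e q c ε m i j l θ z cc a b) (he : e.Ok) (hq : q.Ok) (hqr : q.rel e = true)
    {V : Type*} [Fintype V] [DecidableEq V] {Z : Hzd} {sl : ℝ → ℝ → ℝ} {x : V → V → ℝ}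
    {P : V → Prop} [DecidablePred P] {A D : Finset V} {α σ' : ℝ} {S : Finset ℝ}
    {ζ : V → V → ℝ → ℝ} {Y N : V → ℝ → ℝ} {y : Tp12} {E : ℕ} {Nr : ℝ → Pt → ℝ}
    {Np : ℝ → ℝ → ℝ} {l1 : Fin y.b.N} {kk i0 i1 i2 iW nW : ℕ}
    (ht : q.Tie kk E y.R y.iH i0 i1 i2 iW nW)
    (hRR : y.b.RR = [Sg.lr y.R i0, Sg.lr y.R i1, Sg.lr y.R i2])
    (hWW : y.b.W = Sg.plr y.R 0 iW nW)
    (W : Wrl Z x P A D α (cb R.N i) σ' S ζ Y N
      ((y.t12 E q.n Nr Np).dat FF26 (tmD E y.R y.iH) q.n z) l1)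
    (hk : kk = 2048 ∨ D.card ≤ 1) (hZ : Z.Ok sl) :
    DjW q x P D (Z.hh x P) (Tc0 (Z.hh x P) D ζ Y) (cb R.N i) (sgE c.A l θ z) z cc l a b := by
  obtain ⟨r1, -, r3⟩ := Dj.rel_of hqr
  refine ⟨hq, ht.dirW hq hRR hWW W hk hZ (cb_le_one hp.plc.hi) hp.c0 hp.c1 hp.zw (le_of_eq ?_),
    hp.c0, hp.c1, hp.zw, by rw [r1]; exact hp.plc.hl, ?_, ?_⟩
  · have h1 := r3 q.nc le_rfl
    rw [hq.Kn, r1, he.An] at h1
    rw [h1, hp.hz]
    ring
  · rw [hp.sE]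
    exact hp.cr
  · rw [hp.sE, hp.sj]
    unfold cb
    exact div_le_div_of_nonneg_right (by
      have : (j : ℝ) ≤ i := by exact_mod_cast hp.plc.hj
      linarith) (Nat.cast_nonneg _)

end Pool.Agent.RZ.RCO
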