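import Pool.Agent.RZ.RCO.Gl1

/-! Route P: the facts of the real vertices of a full world with one deleted vertex
(MP_73ccd0_lc). -/

set_option autoImplicit false
set_option linter.unusedSectionVars false

namespace Pool.Agent.RZ.RCO

open Set Finset Pool.Agent.RZ.RCM

/-- the facts of a real vertex of a world with at most one deleted vertex -/
structure FpS (p : Pt) : Prop where
  k : (RCG.xN : ℝ) * p.k ≤ 1
  h : (RCG.xN : ℝ) * p.h ≤ p.m
  s : (RCG.xN : ℝ) * p.s ≤ p.q
  st : ∀ t : ℝ, 2 * t * p.h - t ^ 2 * (1 - p.k) ≤ p.s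

variable {V : Type*} [Fintype V] [DecidableEq V] {x : V → V → ℝ} {P : V → Prop}
  {D F : Finset V} {v : V}

/-- the killed mass of a vertex, one deleted vertex -/
theorem kk_S (hP : RCG.Ct.Wt x P 1) (hD : D.card ≤ 1) (v : V) : kk x D v ≤ RCG.XM := by
  have h1 : kk x D v ≤ ∑ w ∈ D, RCG.XM := Finset.sum_le_sum fun w _ => hP.leX w v
  rw [Finset.sum_const, nsmul_eq_mul] at h1
  have h2 : ((D.card : ℕ) : ℝ) ≤ 1 := by exact_mod_cast hD
  have := mul_le_mul_of_nonneg_right h2 RCG.XM_pos.le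
  linarith

theorem xN_mul_le {a b : ℝ} (h : a ≤ RCG.XM * b) : (RCG.xN : ℝ) * a ≤ b := by
  have h1 := mul_le_mul_of_nonneg_left h RCG.xN_pos.le
  rwa [← mul_assoc, RCG.xN_mul, one_mul] at h1

/-- **the facts of the vertices of a world with one deleted vertex** -/
theorem pt_star (hP : RCG.Ct.Wt x P 1) (hx : Wt x) (hD : D.card ≤ 1) (hF : F ⊆ Dᶜ)
    (hv : v ∈ Dᶜ) (hvF : v ∉ F) : FpS (pt x D F v) where
  k := xN_mul_le (by rw [mul_one]; exact kk_S hP hD v)
  h := xN_mul_le (by
    show fh x (kk x D) F v ≤ RCG.XM * fm x F v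
    unfold fh fm
    rw [Finset.mul_sum]
    refine Finset.sum_le_sum fun f _ => ?_
    have := mul_le_mul_of_nonneg_left (kk_S hP hD f) (hx.nn v f)
    linarith)
  s := xN_mul_le (by
    show fP x (kk x D) F v ≤ RCG.XM * fQ x F v
    unfold fP fQ
    rw [Finset.mul_sum]
    refine Finset.sum_le_sum fun f _ => ?_
    have := mul_le_mul_of_nonneg_left (kk_S hP hD f) (sq_nonneg (x v f))
    linarith)
  st := fun t => by
    show 2 * t * fh x (kk x D) F v - t ^ 2 * (1 - kk x D v) ≤ fP x (kk x D) F v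
    have k0 := kk_nonneg hx D
    have h1 : ∑ f ∈ F, (2 * t * (x v f * kk x D f) - t ^ 2 * kk x D f) ≤ fP x (kk x D) F v :=
      Finset.sum_le_sum fun f _ => by
        nlinarith [mul_nonneg (k0 f) (sq_nonneg (x v f - t))]
    rw [Finset.sum_sub_distrib, ← Finset.mul_sum, ← Finset.mul_sum] at h1
    have h2 : ∑ f ∈ F, kk x D f ≤ 1 - kk x D v := by
      have h3 := sum_kk_world hx hF hv hvF
      have h4 : ((D.card : ℕ) : ℝ) ≤ 1 := by exact_mod_cast hD
      linarith
    have h5 := mul_le_mul_of_nonneg_left h2 (sq_nonneg t)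
    unfold fh
    linarith

/-- **the facts at the full points of a star** -/
theorem fp_star (hP : RCG.Ct.Wt x P 1) {a : V} (hv : v ∈ ({a} : Finset V)ᶜ) :
    FpS (fp x {a} v) :=
  pt_star hP ⟨hP.symm, hP.nonneg, hP.diag, hP.row⟩ (by simp) (erase_sub {a} v) hv (Finset.notMem_erase v _)

end Pool.Agent.RZ.RCO
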