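import Pool.Agent.RZ.RCO.Ex10_2
import Pool.Agent.RZ.RCO.Ex14

/-! Route P: the constants of the pairs `(b, a)` for all `b` at once from the solutions of one
larger world with larger majorants (MP_73ccd0_lc). -/

namespace Pool.Agent.RZ.RCO

open Set Finset MeasureTheory Pool.Agent.RZ.RCRSHalf Pool.Agent.RZ.RCG Pool.Agent.RZ.RCG.Ct
open Pool.Agent.RZ.RCN Pool.Agent.RZ.RCN.K

set_option linter.unusedSectionVars false

variable {V : Type*} [Fintype V] [DecidableEq V]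

/-! ### smaller worlds -/

theorem VP.up {U U' : Finset V} (hU : U' ⊆ U) {F : Finset V} {i j : V} (h : VP U' F i j) :
    VP U F i j := ⟨h.1.trans hU, hU h.2.1, hU h.2.2.1, h.2.2.2.1, h.2.2.2.2.1, h.2.2.2.2.2⟩

theorem S12F.sub {U U' : Finset V} {t : ℝ} {T A B : ℝ → V → V → ℝ}
    {gp gp' gm gm' : Finset V → V → V → ℝ → ℝ} (h : S12F U t T A B gp gp' gm gm')
    (hU : U' ⊆ U) : S12F U' t T A B gp gp' gm gm' where
  dp := fun F i j v => h.dp F i j (v.up hU)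
  dm := fun F i j v => h.dm F i j (v.up hU)
  gp0 := h.gp0
  gm0 := h.gm0
  mp := fun F G hG i j v => h.mp F G hG i j (v.up hU)
  mm := fun F G hG i j v => h.mm F G hG i j (v.up hU)
  op := fun F i j v => h.op F i j (v.up hU)
  om := fun F i j v => h.om F i j (v.up hU)

theorem SVF.sub {X X' : Finset V} {t : ℝ} {κ : ℝ → V → ℝ} {T : ℝ → V → V → ℝ}
    {gp gm : Finset V → V → V → ℝ → ℝ} {p p' n n' : Finset V → V → ℝ → ℝ}
    (h : SVF X t κ T gp gm p p' n n') (hX : X' ⊆ X) : SVF X' t κ T gp gm p p' n n' where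
  dp := fun F hF e he => h.dp F (hF.trans hX) e (hX he)
  dn := fun F hF e he => h.dn F (hF.trans hX) e (hX he)
  p0 := h.p0
  n0 := h.n0
  mp := fun F hF e he => h.mp F (hF.trans hX) e (hX he)
  mn := fun F hF e he => h.mn F (hF.trans hX) e (hX he)
  op := fun F hF e he => h.op F (hF.trans hX) e (hX he)
  on := fun F hF e he => h.on F (hF.trans hX) e (hX he)

section env

variable {Z : Hzd} {x : V → V → ℝ} {P : V → Prop} [DecidablePred P] {sl : ℝ → ℝ → ℝ}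
variable {A A' D D' : Finset V} {α α' τ σ ρ : ℝ} {T Am Bm : ℝ → V → V → ℝ}
    {gp gp' gm gm' : Finset V → V → V → ℝ → ℝ}
    {p p' n n' q q' m m' : V → Finset V → V → ℝ → ℝ}
    {F G : Finset V → V → V → ℝ} {E : V → V → ℝ}

/-- the environment of a smaller world: only level 0 is new -/
theorem EnvF.sub (h : EnvF Z x P A D α τ σ T Am Bm gp gp' gm gm' p p' n n') (hD : D ⊆ D')
    (w : W0cq Z x P A' D' α' τ σ T Am Bm) :
    EnvF Z x P A' D' α' τ σ T Am Bm gp gp' gm gm' p p' n n' where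
  τ1 := h.τ1
  σ0 := h.σ0
  στ := h.στ
  b0 := h.b0
  bc := h.bc
  T0 := h.T0
  Tc := h.Tc
  A0 := fun u hu v hv => h.A0 u (Finset.compl_subset_compl.2 hD hu) v
    (Finset.compl_subset_compl.2 hD hv)
  B0 := fun u hu v hv => h.B0 u (Finset.compl_subset_compl.2 hD hu) v
    (Finset.compl_subset_compl.2 hD hv)
  w := w
  g := h.g.sub (Finset.compl_subset_compl.2 hD)
  c := fun c hc => (h.c c (Finset.compl_subset_compl.2 hD hc)).sub
    (Finset.erase_subset_erase _ (Finset.compl_subset_compl.2 hD))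

theorem SecF.sub (h : SecF Z x P D σ T gp gm F G q q' m m') (hD : D ⊆ D') :
    SecF Z x P D' σ T gp gm F G q q' m m' := by
  have hD' := Finset.compl_subset_compl.2 hD
  exact ⟨fun d hd => (h.s d (hD' hd)).sub (Finset.erase_subset_erase _ hD'),
    fun d hd X hX e he => h.eq d (hD' hd) X (hX.trans (Finset.erase_subset_erase _ hD')) e
      (Finset.erase_subset_erase _ hD' he),
    fun d hd X hX e he => h.em d (hD' hd) X (hX.trans (Finset.erase_subset_erase _ hD')) e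
      (Finset.erase_subset_erase _ hD' he)⟩

end env

/-! ### the constants grow with the world -/

theorem F0_mono {U U' : Finset V} (hU : U' ⊆ U) (c d : V) : F0 U' c d ⊆ F0 U c d :=
  Finset.erase_subset_erase _ (Finset.erase_subset_erase _ hU)

/-- the direct part grows with the set and the starting values -/
theorem dirI_monoX {hb T : ℝ → V → V → ℝ} {X X' : Finset V} {c d : V} {σ N1 N2 N1' N2' : ℝ}
    (σ0 : 0 ≤ σ) (hX : X' ⊆ X) (b0 : ∀ r ∈ Icc 0 σ, 0 ≤ hb r c d)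
    (bc : ContinuousOn (fun r => hb r c d) (Icc 0 σ))
    (T0 : ∀ u v, ∀ r ∈ Icc 0 σ, 0 ≤ T r u v)
    (Tc : ∀ u v, ContinuousOn (fun r => T r u v) (Icc 0 σ)) (h1 : N1' ≤ N1) (h2 : N2' ≤ N2) :
    dirI hb T X' c d σ N1' N2' ≤ dirI hb T X c d σ N1 N2 := by
  have key : ∀ u, ∀ r ∈ Icc 0 σ, ∫ ρ in (0 : ℝ)..r, ∑ b ∈ X', T ρ u b
      ≤ ∫ ρ in (0 : ℝ)..r, ∑ b ∈ X, T ρ u b := fun u r hr => by
    have hs : ∀ Y : Finset V, IntervalIntegrable (fun ρ => ∑ b ∈ Y, T ρ u b) volume 0 r :=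
      fun Y => ContinuousOn.intervalIntegrable (by
        rw [uIcc_of_le hr.1]
        exact (continuousOn_finsetSum _ fun b _ => Tc u b).mono (Icc_subset_Icc_right hr.2))
    exact intervalIntegral.integral_mono_on hr.1 (hs _) (hs _) fun ρ hρ =>
      Finset.sum_le_sum_of_subset_of_nonneg hX fun b _ _ => T0 u b ρ ⟨hρ.1, hρ.2.trans hr.2⟩
  unfold dirI
  refine intervalIntegral.integral_mono_on σ0 ?_ ?_ fun r hr => ?_
  · refine ContinuousOn.intervalIntegrable ?_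
    rw [uIcc_of_le σ0]
    exact dirI_cont σ0 bc Tc N1' N2'
  · refine ContinuousOn.intervalIntegrable ?_
    rw [uIcc_of_le σ0]
    exact dirI_cont σ0 bc Tc N1 N2
  · refine mul_le_mul_of_nonneg_left (max_le_max le_rfl ?_) (b0 r hr)
    have e1 := Real.exp_le_exp.2 (neg_le_neg (add_le_add (add_le_add_left h1
      (∫ ρ in (0 : ℝ)..r, hb ρ c d)) (key d r hr)))
    have e2 := Real.exp_le_exp.2 (neg_le_neg (add_le_add (add_le_add_left h2
      (∫ ρ in (0 : ℝ)..r, hb ρ c d)) (key c r hr)))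
    linarith

section mono

variable {Z : Hzd} {x : V → V → ℝ} {P : V → Prop} [DecidablePred P]
variable {A D D' : Finset V} {α τ σ : ℝ} {T Am Bm : ℝ → V → V → ℝ}
    {gp gp' gm gm' : Finset V → V → V → ℝ → ℝ}
    {p p' n n' q q' m m' : V → Finset V → V → ℝ → ℝ}
    {F G : Finset V → V → V → ℝ} {E E' : V → V → ℝ}

/-- **the constants of a smaller world are smaller** -/
theorem EnvF.lxi_mono (h : EnvF Z x P A D α τ σ T Am Bm gp gp' gm gm' p p' n n')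
    (hq : SecF Z x P D σ T gp gm F G q q' m m') (hD : D ⊆ D') {c d : V} (hc : c ∈ D'ᶜ)
    (hd : d ∈ D'ᶜ) (hcd : c ≠ d) (hE : E' c d ≤ E c d) :
    LxiF D'ᶜ σ (Z.hh x P) T gm p n q m E' c d ≤ LxiF Dᶜ σ (Z.hh x P) T gm p n q m E c d := by
  have hDc := Finset.compl_subset_compl.2 hD
  have hc' := hDc hc
  have hd' := hDc hd
  have hF := F0_mono hDc c d
  have στ : ∀ r ∈ Icc 0 σ, r ∈ Icc 0 τ := fun r hr => ⟨hr.1, hr.2.trans h.στ⟩
  have z : (0 : ℝ) ∈ Icc 0 σ := ⟨le_rfl, h.σ0⟩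
  have z' := στ 0 z
  have dF : d ∉ F0 Dᶜ c d := Finset.notMem_erase _ _
  have cF : c ∉ F0 Dᶜ c d := fun e => Finset.notMem_erase c Dᶜ (Finset.mem_of_mem_erase e)
  have hdc : d ∈ Dᶜ.erase c := Finset.mem_erase.2 ⟨fun e => hcd e.symm, hd'⟩
  have hcd' : c ∈ Dᶜ.erase d := Finset.mem_erase.2 ⟨hcd, hc'⟩
  have cFk : ∀ {D0 : Finset V}, D ⊆ D0 → ContinuousOn
      (FkF T (p c) (n c) (q d) (m d) (F0 D0ᶜ c d)) (Icc 0 σ) := fun {D0} hD0 => by
    have hD0' := Finset.compl_subset_compl.2 hD0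
    have s1 : F0 D0ᶜ c d ⊆ Dᶜ.erase c := (F0_mono hD0' c d).trans F0_sub_c
    have s2 : F0 D0ᶜ c d ⊆ Dᶜ.erase d := (F0_mono hD0' c d).trans F0_sub_d
    have r1 : Icc (0 : ℝ) σ ⊆ Icc 0 τ := fun r hr => στ r hr
    refine FkF_cont (X := F0 D0ᶜ c d) (fun u v => (h.Tc u v).mono r1)
      (fun F hF e he heF => ((svF_cont (h.c c hc') (hF.trans s1) (s1 he) heF).1).mono r1)
      (fun F hF e he heF => ((svF_cont (h.c c hc') (hF.trans s1) (s1 he) heF).2).mono r1)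
      (fun F hF e he heF => (svF_cont (hq.s d hd') (hF.trans s2) (s2 he) heF).1)
      (fun F hF e he heF => (svF_cont (hq.s d hd') (hF.trans s2) (s2 he) heF).2) subset_rfl
  have hk : RCM.bk (FkF T (p c) (n c) (q d) (m d) (F0 D'ᶜ c d)) σ 0
      ≤ RCM.bk (FkF T (p c) (n c) (q d) (m d) (F0 Dᶜ c d)) σ 0 := by
    refine RCM.bk_le z le_rfl (cFk hD) (cFk subset_rfl) (fun r hr => ?_) fun r hr => ?_
    · exact FkF_mono (X := F0 Dᶜ c d) (fun u v => h.T0 u v r (στ r hr))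
        (monF_p (h.c c hc') F0_sub_c (στ r hr)) (monF_n (h.c c hc') F0_sub_c (στ r hr))
        (monF_p (hq.s d hd') F0_sub_d hr) (monF_n (hq.s d hd') F0_sub_d hr) hF subset_rfl
    · exact FkF_nonneg (X := F0 Dᶜ c d) (fun u v => h.T0 u v r (στ r hr))
        (monF_n (h.c c hc') F0_sub_c (στ r hr)) (monF_p (hq.s d hd') F0_sub_d hr) _
  rw [LxiF_eq, LxiF_eq]
  have h2 := h.g.mm (F0 Dᶜ c d) (F0 D'ᶜ c d) hF c d
    ⟨F0_sub_c.trans (Finset.erase_subset _ _), hc', hd', cF, dF, hcd⟩ 0 z'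
  have h3 := (monF_n (h.c c hc') subset_rfl z').mo _ _ hF F0_sub_c d hdc dF
  have h4 := (monF_n (hq.s d hd') subset_rfl z).mo _ _ hF F0_sub_d c hcd' cF
  have h5 := dirI_monoX (T := T) (c := c) (d := d) h.σ0 hF
    (fun r hr => h.b0 c d r (στ r hr))
    ((h.bc c d).mono fun r hr => στ r hr) (fun u v r hr => h.T0 u v r (στ r hr))
    (fun u v => (h.Tc u v).mono fun r hr => στ r hr) h3 h4
  linarith

end mono

/-! ### existence without level 0 -/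

section ex

variable {Z : Hzd} {x : V → V → ℝ} {P : V → Prop} [DecidablePred P] {sl : ℝ → ℝ → ℝ}
variable {A D : Finset V} {α τ σ ρ : ℝ} {S : Finset ℝ} {ζ : V → V → ℝ → ℝ}
  {Y N : V → ℝ → ℝ}
variable {Λ0 : Type*} [Fintype Λ0] {L1 Λ1 Λ1' : Type*} [Fintype Λ1] [Fintype Λ1']
  {L2 Λ2 Λ2' : Type*} [Fintype Λ2] [Fintype Λ2'] {L3 Λ3 Λ3' : Type*} [Fintype Λ3] [Fintype Λ3']

/-- no times: level 0 is empty -/
theorem w0cq_triv {T Am Bm : ℝ → V → V → ℝ} (h : τ < α) : W0cq Z x P A D α τ σ T Am Bm :=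
  fun _ _ _ _ ht => absurd (ht.1.trans ht.2) (not_le.2 h)

end ex

/-! ### the constants of all pairs -/

section ck2

variable {Z : Hzd} {x : V → V → ℝ} {P : V → Prop} [DecidablePred P] {sl : ℝ → ℝ → ℝ}
variable {A D : Finset V} {α α' τ σ σm ρ : ℝ} {S : Finset ℝ} {ζ : V → V → ℝ → ℝ}
  {Y N : V → ℝ → ℝ}
variable {Λ0 : Type*} [Fintype Λ0] {L1 Λ1 Λ1' : Type*} [Fintype Λ1] [Fintype Λ1']
  {L2 Λ2 Λ2' : Type*} [Fintype Λ2] [Fintype Λ2'] {L3 Λ3 Λ3' : Type*} [Fintype Λ3] [Fintype Λ3']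
variable {q : R12 V Λ0} {s1 : S1 V L1 Λ1 Λ1'} {s2 : S1 V L2 Λ2 Λ2'} {s3 : S1 V L3 Λ3 Λ3'}
  {gp gp' gm gm' : Finset V → V → V → ℝ → ℝ} {g1 g2 g3 : IxF V → ℝ → ℝ}

theorem ClM.mono {L L' : V → V → ℝ} (h : ClM Z x P A D α τ σm σ L) (α0 : 0 ≤ α) (τ1 : τ ≤ 1)
    (hL : ∀ c ∈ Dᶜ, ∀ d ∈ Dᶜ, c ≠ d → L c d ≤ L' c d) : ClM Z x P A D α τ σm σ L' :=
  fun h' H t hw ht s hs hm hσ c hc d hd hcd => (h h' H t hw ht s hs hm hσ c hc d hd hcd).mono
    hw.hh ⟨α0.trans ht.1, ht.2.trans τ1⟩ hs (Real.exp_le_exp.2 (hL c hc d hd hcd))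

/-- larger constants -/
theorem Ck2.mono {M : ℕ} {sg : ℕ → ℕ → ℝ} {ε : ℝ} {i j : ℕ} {a b : V} {L Lf L' Lf' : V → V → ℝ}
    (h : Ck2 Z x P M sg ε i j a b L Lf) (α0 : 0 ≤ ca M i) (τ1 : cb M i ≤ 1)
    (hL : ∀ c ∈ ({a, b} : Finset V)ᶜ, ∀ d ∈ ({a, b} : Finset V)ᶜ, c ≠ d → L c d ≤ L' c d)
    (hF : ∀ c ∈ ({a, b} : Finset V)ᶜ, ∀ d ∈ ({a, b} : Finset V)ᶜ, c ≠ d → Lf c d ≤ Lf' c d) :
    Ck2 Z x P M sg ε i j a b L' Lf' where
  l := h.l.mono α0 τ1 hL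
  f := h.f.mono α0 τ1 hF
  l0 := fun c hc d hd hcd => (h.l0 c hc d hd hcd).trans (hL c hc d hd hcd)
  f0 := fun c hc d hd hcd => (h.f0 c hc d hd hcd).trans (hF c hc d hd hcd)

theorem pair_sub (b a : V) : ({a} : Finset V) ⊆ {b, a} := fun z hz => by
  rw [Finset.mem_singleton] at hz
  rw [hz]
  exact Finset.mem_insert_of_mem (Finset.mem_singleton_self a)

/-- **the constants of every pair `(b, a)` from the solutions of the world `a`**: only level 0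
depends on `b` -/
theorem FulF.star {M : ℕ} {sg : ℕ → ℕ → ℝ} {ε : ℝ} {i j : ℕ} {a b : V}
    (hm : sgm sg ε i j ≤ sg i j) (α0 : 0 ≤ ca M i)
    (h : FulF Z x P A {a} α (cb M i) (sg i j) (max 0 (sgm sg ε i j)) S ζ Y N
      q s1 s2 s3 gp gp' gm gm' g1 g2 g3)
    (w : W0cq Z x P {b} {b, a} (ca M i) (cb M i) (sg i j) (Tc0 (Z.hh x P) {a} ζ Y)
      (Ac0 (Z.hh x P) {a} ζ Y) (Bc0 (Z.hh x P) {a} N)) :
    Ck2 Z x P M sg ε i j b a
      (LdF (Z.hh x P) ({a} : Finset V)ᶜ (cb M i) (sg i j) (Tc0 (Z.hh x P) {a} ζ Y) gm g1 g2)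
      (LfF (Z.hh x P) ({a} : Finset V)ᶜ (cb M i) (sg i j) (max 0 (sgm sg ε i j))
        (Tc0 (Z.hh x P) {a} ζ Y) gp gm g1 g3) := by
  have hD := pair_sub b a
  have he := h.sol.env.sub hD w
  have hk := ck2_ofF hm he (h.sol.sec.sub hD) (h.sol.rel.sub hD)
  refine hk.mono α0 h.sol.τ1 (fun c hc d hd hcd => ?_) fun c hc d hd hcd => ?_
  · exact h.sol.env.lxi_mono h.sol.sec hD hc hd hcd le_rfl
  · refine h.sol.env.lxi_mono h.sol.rel hD hc hd hcd ?_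
    have hDc := Finset.compl_subset_compl.2 hD
    exact (monF_p (h.sol.env.c c (hDc hc)) subset_rfl ⟨h.ρ0, h.ρτ⟩).mo _ _ (F0_mono hDc c d)
      F0_sub_c d (Finset.mem_erase.2 ⟨fun e => hcd e.symm, hDc hd⟩) (Finset.notMem_erase _ _)

end ck2

end Pool.Agent.RZ.RCO
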