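import Pool.Agent.RZ.RCO.Eg5
import Pool.Agent.RZ.RCO.St1

/-! Route P: the star constants of a vertex from the solutions of its star world
(MP_73ccd0_lc). -/

namespace Pool.Agent.RZ.RCO

open Set Finset MeasureTheory Pool.Agent.RZ.RCRSHalf Pool.Agent.RZ.RCG Pool.Agent.RZ.RCG.Ct
open Pool.Agent.RZ.RCN Pool.Agent.RZ.RCN.K

set_option linter.unusedSectionVars false

variable {V : Type*} [Fintype V] [DecidableEq V]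

/-! ### the star constants of one vertex in one class -/

/-- constants of all pairs `(b, a)` in the class `j` of the cell `i` which do not depend on `b`,
with bounded columns -/
structure StG (Z : Hzd) (x : V → V → ℝ) (P : V → Prop) [DecidablePred P] (M : ℕ)
    (sg : ℕ → ℕ → ℝ) (ε : ℝ) (i j : ℕ) (a : V) (cl cf : Pt → ℝ) (ls lf : V → V → ℝ) : Prop where
  nl : ∀ d e, 0 ≤ ls d e
  nf : ∀ d e, 0 ≤ lf d e
  ck : ∀ b, P b → b ≠ a → Ck2 Z x P M sg ε i j b a ls lf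
  cl : ∀ e ∈ ({a} : Finset V)ᶜ, P e →
    ∑ d ∈ (({a} : Finset V)ᶜ.erase e).filter P, ls d e ≤ cl (fp x {a} e)
  cf : ∀ e ∈ ({a} : Finset V)ᶜ, P e →
    ∑ d ∈ (({a} : Finset V)ᶜ.erase e).filter P, lf d e ≤ cf (fp x {a} e)

section one

variable {Z : Hzd} {x : V → V → ℝ} {P : V → Prop} [DecidablePred P] {sl : ℝ → ℝ → ℝ}
variable {A D : Finset V} {α τ σ ρ : ℝ} {S : Finset ℝ} {ζ : V → V → ℝ → ℝ}
  {Y N : V → ℝ → ℝ}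

/-- sums over the real vertices of the positive parts -/
theorem sum_real_max {U : Finset V} {e : V} {f g : V → ℝ} (h : ∀ d ∈ U.erase e, 0 ≤ f d)
    (hg : ∀ d ∈ U.erase e, P d → g d = max 0 (f d)) :
    ∑ d ∈ (U.erase e).filter P, g d = ∑ d ∈ U.erase e, ind P d * f d := by
  rw [Finset.sum_filter]
  refine Finset.sum_congr rfl fun d hd => ?_
  unfold ind
  by_cases hP : P d
  · rw [if_pos hP, if_pos hP, one_mul, hg d hd hP, max_eq_right (h d hd)]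
  · rw [if_neg hP, if_neg hP, zero_mul]

variable {Λ0 : Type*} [Fintype Λ0] {q : R12 V Λ0}
  {gp gp' gm gm' : Finset V → V → V → ℝ → ℝ} {g1 g2 g3 : IxF V → ℝ → ℝ}
variable {J1 M1 Λ1 : Type*} [Fintype J1] [Nonempty J1] [Fintype M1] [Nonempty M1] [Fintype Λ1]
  {Dd1 Ee1 : Finset V → V → V → ℝ → ℝ} {Dk1 Ek1 : ℝ → V → V → ℝ} {E1 : TEnv}
  {wv1 : Λ1 → Pt → ℝ} {bf1 : Bool → Λ1 → V → Finset V → ℝ → ℝ} {u1 : M1 → Pt → ℝ}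
  {bu1 : Bool → M1 → V → Finset V → ℝ → ℝ} {νf1 δf1 : M1 → V → Finset V → ℝ} {m1 : M1}
  {dt1 : DT1 J1 Λ1} {dp1 : DP1 M1}
variable {J2 M2 Λ2 : Type*} [Fintype J2] [Nonempty J2] [Fintype M2] [Nonempty M2] [Fintype Λ2]
  {Dd2 Ee2 : Finset V → V → V → ℝ → ℝ} {Dk2 Ek2 : ℝ → V → V → ℝ} {E2 : TEnv}
  {wv2 : Λ2 → Pt → ℝ} {bf2 : Bool → Λ2 → V → Finset V → ℝ → ℝ} {u2 : M2 → Pt → ℝ}
  {bu2 : Bool → M2 → V → Finset V → ℝ → ℝ} {νf2 δf2 : M2 → V → Finset V → ℝ} {m2 : M2}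
  {dt2 : DT1 J2 Λ2} {dp2 : DP1 M2}
variable {J3 M3 Λ3 : Type*} [Fintype J3] [Nonempty J3] [Fintype M3] [Nonempty M3] [Fintype Λ3]
  {Dd3 Ee3 : Finset V → V → V → ℝ → ℝ} {Dk3 Ek3 : ℝ → V → V → ℝ} {E3 : TEnv}
  {wv3 : Λ3 → Pt → ℝ} {bf3 : Bool → Λ3 → V → Finset V → ℝ → ℝ} {u3 : M3 → Pt → ℝ}
  {bu3 : Bool → M3 → V → Finset V → ℝ → ℝ} {νf3 δf3 : M3 → V → Finset V → ℝ} {m3 : M3}
  {dt3 : DT1 J3 Λ3} {dp3 : DP1 M3}

/-- **the star constants from the solutions of the star world** -/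
theorem FulF.stg {M : ℕ} {sg : ℕ → ℕ → ℝ} {ε : ℝ} {i j : ℕ} {a : V}
    (h : FulF Z x P A {a} α (cb M i) (sg i j) (max 0 (sgm sg ε i j)) S ζ Y N q
      (dS1 x P {a} (Tc0 (Z.hh x P) {a} ζ Y) Dd1 Ee1 Dk1 Ek1 E1 wv1 bf1 u1 bu1 νf1 δf1 m1 dt1 dp1)
      (dS1 x P {a} (Tc0 (Z.hh x P) {a} ζ Y) Dd2 Ee2 Dk2 Ek2 E2 wv2 bf2 u2 bu2 νf2 δf2 m2 dt2 dp2)
      (dS1 x P {a} (Tc0 (Z.hh x P) {a} ζ Y) Dd3 Ee3 Dk3 Ek3 E3 wv3 bf3 u3 bu3 νf3 δf3 m3 dt3 dp3)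
      gp gp' gm gm' g1 g2 g3)
    (hm : sgm sg ε i j ≤ sg i j) (α0 : 0 ≤ ca M i)
    (w : ∀ b, P b → b ≠ a → W0cq Z x P {b} {b, a} (ca M i) (cb M i) (sg i j)
      (Tc0 (Z.hh x P) {a} ζ Y) (Ac0 (Z.hh x P) {a} ζ Y) (Bc0 (Z.hh x P) {a} N))
    (hD : ({a} : Finset V).card ≤ 2) (hu2 : ∀ p, u2 m2 p = 1) (hu3 : ∀ p, u3 m3 p = 1)
    {b : EgB} (h0 : EgI0 Z x P {a} (cb M i) (max 0 (sgm sg ε i j)) gp gm b)
    (hi : EgIc Z x P {a} (sg i j) (max 0 (sgm sg ε i j)) S (Tc0 (Z.hh x P) {a} ζ Y)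
      (dS1 x P {a} (Tc0 (Z.hh x P) {a} ζ Y) Dd1 Ee1 Dk1 Ek1 E1 wv1 bf1 u1 bu1 νf1 δf1 m1 dt1 dp1)
      (dS1 x P {a} (Tc0 (Z.hh x P) {a} ζ Y) Dd2 Ee2 Dk2 Ek2 E2 wv2 bf2 u2 bu2 νf2 δf2 m2 dt2 dp2)
      (dS1 x P {a} (Tc0 (Z.hh x P) {a} ζ Y) Dd3 Ee3 Dk3 Ek3 E3 wv3 bf3 u3 bu3 νf3 δf3 m3 dt3 dp3)
      gp g1 g2 g3 b)
    (hv : EgVc (max 0 (sgm sg ε i j)) dt1 dp2 m2 dp3 m3 b) :
    ∃ ls lf : V → V → ℝ, StG Z x P M sg ε i j a b.cl b.cf ls lf := by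
  set U := ({a} : Finset V)ᶜ with hU
  set Ld := LdF (Z.hh x P) U (cb M i) (sg i j) (Tc0 (Z.hh x P) {a} ζ Y) gm g1 g2 with hLd
  set Lf := LfF (Z.hh x P) U (cb M i) (sg i j) (max 0 (sgm sg ε i j))
    (Tc0 (Z.hh x P) {a} ζ Y) gp gm g1 g3 with hLf
  have n1 : ∀ c ∈ U, ∀ d ∈ U, c ≠ d → 0 ≤ Ld c d := fun c hc d hd _ =>
    h.sol.ld_nonneg hc hd
  have n2 : ∀ c ∈ U, ∀ d ∈ U, c ≠ d → 0 ≤ Lf c d := fun c hc d hd _ =>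
    h.sol.lf_nonneg ⟨h.ρ0, h.ρτ⟩ hc hd
  refine ⟨fun c d => max 0 (Ld c d), fun c d => max 0 (Lf c d),
    { nl := fun _ _ => le_max_left _ _
      nf := fun _ _ => le_max_left _ _
      ck := fun b' hb hba => (h.star hm α0 (w b' hb hba)).mono α0 h.sol.τ1
        (fun _ _ _ _ _ => le_max_right _ _) fun _ _ _ _ _ => le_max_right _ _
      cl := fun e he hPe => ?_
      cf := fun e he hPe => ?_ }⟩
  · have k := (h.egc hD hu2 hu3 h0 hi hv he hPe).1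
    rw [sum_real_max (f := fun d => Ld d e) (fun d hd => n1 d (Finset.mem_of_mem_erase hd) e he
      (Finset.ne_of_mem_erase hd)) fun d _ _ => rfl]
    exact k
  · have k := (h.egc hD hu2 hu3 h0 hi hv he hPe).2
    rw [sum_real_max (f := fun d => Lf d e) (fun d hd => n2 d (Finset.mem_of_mem_erase hd) e he
      (Finset.ne_of_mem_erase hd)) fun d _ _ => rfl]
    exact k

variable {d0 : R12 V Λ0} {q1 : SysD J1 M1 Λ1} {q2 : SysD J2 M2 Λ2} {q3 : SysD J3 M3 Λ3}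
  {lq1 lq2 lq3 : Bool}

/-- **the star constants from the solutions and the conditions of the star world** -/
theorem FulD.stg {M : ℕ} {sg : ℕ → ℕ → ℝ} {ε : ℝ} {i j : ℕ} {a : V}
    (h : FulD Z x P A {a} α (cb M i) (sg i j) (max 0 (sgm sg ε i j)) S ζ Y N d0
      q1 q2 q3 lq1 lq2 lq3 gp gp' gm gm' g1 g2 g3)
    (hm : sgm sg ε i j ≤ sg i j) (α0 : 0 ≤ ca M i)
    (w : ∀ b, P b → b ≠ a → W0cq Z x P {b} {b, a} (ca M i) (cb M i) (sg i j)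
      (Tc0 (Z.hh x P) {a} ζ Y) (Ac0 (Z.hh x P) {a} ζ Y) (Bc0 (Z.hh x P) {a} N))
    {b : EgB} (h0 : EgI0 Z x P {a} (cb M i) (max 0 (sgm sg ε i j)) gp gm b)
    (hi : EgIc Z x P {a} (sg i j) (max 0 (sgm sg ε i j)) S (Tc0 (Z.hh x P) {a} ζ Y)
      (q1.s lq1 x P {a} (Z.hh x P) (Tc0 (Z.hh x P) {a} ζ Y) (cb M i) ZF)
      (q2.s lq2 x P {a} (Z.hh x P) (Tc0 (Z.hh x P) {a} ζ Y) (sg i j) ZF)
      (q3.s lq3 x P {a} (Z.hh x P) (Tc0 (Z.hh x P) {a} ζ Y) (sg i j) fun X d e =>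
        gm X d e (max 0 (sgm sg ε i j))) gp g1 g2 g3 b)
    (hv : EgVc (max 0 (sgm sg ε i j)) q1.dt q2.dp q2.m0 q3.dp q3.m0 b) :
    ∃ ls lf : V → V → ℝ, StG Z x P M sg ε i j a b.cl b.cf ls lf :=
  h.ful.stg hm α0 w (by rw [Finset.card_singleton]; norm_num) h.i2.hm0 h.i3.hm0 h0 hi hv

end one

/-- the killed mass of a vertex of the star world -/
theorem kk_one (x : V → V → ℝ) (a e : V) : kk x {a} e = x a e := by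
  unfold kk
  rw [Finset.sum_singleton]

end Pool.Agent.RZ.RCO
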