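import Pool.Agent.RZ.RCO.Ed1
import Pool.Agent.RZ.RCO.EdS
import Pool.Agent.RZ.RCO.Sk1
import Pool.Agent.RZ.RCO.St3

/-! Route P: the star constants of a graph from the star worlds (MP_73ccd0_lc). -/

set_option autoImplicit false

namespace Pool.Agent.RZ.RCO

open Set Finset MeasureTheory Pool.Agent.RZ.RCRSHalf Pool.Agent.RZ.RCG Pool.Agent.RZ.RCG.Ct
open Pool.Agent.RZ.RCN Pool.Agent.RZ.RCN.K

set_option linter.unusedSectionVars false

/-- the facts of the points of a star -/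
theorem FpS.fps {p : Pt} (h : FpS p) (hu : Fu p) : Fps true p := by
  have e : (kst true : ℝ) = (RCG.xN : ℝ) := by
    unfold kst
    push_cast
    rfl
  have e1 : (ddt true : ℝ) = 1 := by
    unfold ddt
    norm_num
  refine ⟨hu, ?_, ?_, hu.fp.q, hu.fp.s, ?_, fun t => ?_⟩
  · rw [e]
    exact h.k
  · rw [e]
    exact h.h
  · rw [e]
    exact h.s
  · rw [e1]
    exact h.st t

/-- the table is above the two columns of the star at the times of a class, at all real points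
of a star world -/
structure RvS (R : RT.Tab) (m : ℕ) (t s : ℝ) (b : EgB) : Prop where
  cl : ∀ p, Fps true p → b.cl p ≤ R.val RT.kSL m t s p.k
  cf : ∀ p, Fps true p → b.cf p ≤ R.val RT.kSF m t s p.k

section world

variable {V : Type*} [Fintype V] [DecidableEq V]

/-- **all solutions of the star world of `a` in the cell `i` and the class `j`**, with the rates
of all pairs and the two columns below the table at all times of the class -/
def Wst (Z : Hzd) (x : V → V → ℝ) (P : V → Prop) [DecidablePred P] (R : RT.Tab) (mi : ℕ → ℕ)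
    (ε : ℝ) (a : V) (i j : ℕ) (Λ0 J1 M1 Λ1 J2 M2 Λ2 J3 M3 Λ3 : Type) [Fintype Λ0]
    [Fintype J1] [Nonempty J1] [Fintype M1] [Nonempty M1] [Fintype Λ1]
    [Fintype J2] [Nonempty J2] [Fintype M2] [Nonempty M2] [Fintype Λ2]
    [Fintype J3] [Nonempty J3] [Fintype M3] [Nonempty M3] [Fintype Λ3] : Prop :=
  ∃ (A : Finset V) (α : ℝ) (S : Finset ℝ) (ζ : V → V → ℝ → ℝ) (Y N : V → ℝ → ℝ)
    (d0 : R12 V Λ0) (q1 : SysD J1 M1 Λ1) (q2 : SysD J2 M2 Λ2) (q3 : SysD J3 M3 Λ3)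
    (lq1 lq2 lq3 : Bool) (gp gp' gm gm' : Finset V → V → V → ℝ → ℝ) (g1 g2 g3 : IxF V → ℝ → ℝ)
    (B : EgB),
    FulD Z x P A {a} α (cb R.N i) (sgN R.N i j) (max 0 (sgm (sgN R.N) ε i j)) S ζ Y N d0
      q1 q2 q3 lq1 lq2 lq3 gp gp' gm gm' g1 g2 g3 ∧
    (∀ b, P b → b ≠ a → W0cq Z x P {b} {b, a} (ca R.N i) (cb R.N i) (sgN R.N i j)
      (Tc0 (Z.hh x P) {a} ζ Y) (Ac0 (Z.hh x P) {a} ζ Y) (Bc0 (Z.hh x P) {a} N)) ∧
    EgI0 Z x P {a} (cb R.N i) (max 0 (sgm (sgN R.N) ε i j)) gp gm B ∧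
    EgIc Z x P {a} (sgN R.N i j) (max 0 (sgm (sgN R.N) ε i j)) S (Tc0 (Z.hh x P) {a} ζ Y)
      (q1.s lq1 x P {a} (Z.hh x P) (Tc0 (Z.hh x P) {a} ζ Y) (cb R.N i) ZF)
      (q2.s lq2 x P {a} (Z.hh x P) (Tc0 (Z.hh x P) {a} ζ Y) (sgN R.N i j) ZF)
      (q3.s lq3 x P {a} (Z.hh x P) (Tc0 (Z.hh x P) {a} ζ Y) (sgN R.N i j) fun X d e =>
        gm X d e (max 0 (sgm (sgN R.N) ε i j))) gp g1 g2 g3 B ∧
    EgVc (max 0 (sgm (sgN R.N) ε i j)) q1.dt q2.dp q2.m0 q3.dp q3.m0 B ∧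
    ∀ t ∈ Icc (0 : ℝ) 1, ci R.N t = i → ∀ s ∈ Icc 0 t, Act MN (sgN R.N) ε i s j →
      RvS R (mi i) t s B

variable {Z : Hzd} {x : V → V → ℝ} {P : V → Prop} [DecidablePred P] {R : RT.Tab} {mi : ℕ → ℕ}
  {ε : ℝ} {i j : ℕ} {Λ0 J1 M1 Λ1 J2 M2 Λ2 J3 M3 Λ3 : Type} [Fintype Λ0]
    [Fintype J1] [Nonempty J1] [Fintype M1] [Nonempty M1] [Fintype Λ1]
    [Fintype J2] [Nonempty J2] [Fintype M2] [Nonempty M2] [Fintype Λ2]
    [Fintype J3] [Nonempty J3] [Fintype M3] [Nonempty M3] [Fintype Λ3]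

/-- the star constants of a vertex in a cell and a class -/
theorem Wst.cls (hx : RCG.Ct.Wt x P 1) (ε0 : 0 < ε) (N0 : 0 < R.N) {a : V}
    (h : Wst Z x P R mi ε a i j Λ0 J1 M1 Λ1 J2 M2 Λ2 J3 M3 Λ3) :
    ∃ ls lf : V → V → ℝ, (∀ d e, 0 ≤ ls d e) ∧ (∀ d e, 0 ≤ lf d e) ∧
      (∀ b, P b → b ≠ a → Ck2 Z x P R.N (sgN R.N) ε i j b a ls lf) ∧
      ∀ t ∈ Icc (0 : ℝ) 1, ci R.N t = i → ∀ s ∈ Icc 0 t, Act MN (sgN R.N) ε i s j →
        ∀ e, P e → e ≠ a →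
        ∑ d ∈ (({a} : Finset V)ᶜ.erase e).filter P, max 0 (ls d e)
          ≤ R.val RT.kSL (mi i) t s (x a e) ∧
        ∑ d ∈ (({a} : Finset V)ᶜ.erase e).filter P, max 0 (lf d e)
          ≤ R.val RT.kSF (mi i) t s (x a e) := by
  obtain ⟨A, α, S, ζ, Y, N, d0, q1, q2, q3, lq1, lq2, lq3, gp, gp', gm, gm', g1, g2, g3, B,
    h1, h2, h3, h4, h5, h6⟩ := h
  obtain ⟨ls, lf, hS⟩ := h1.stg (sgN_sgm_le ε0 N0 i j) (ca_nonneg _ _) h2 h3 h4 h5
  refine ⟨ls, lf, hS.nl, hS.nf, hS.ck, fun t ht hti s hs hj e he hea => ?_⟩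
  have c1 : ({a} : Finset V).card ≤ 2 := by rw [Finset.card_singleton]; norm_num
  have heD : e ∈ ({a} : Finset V)ᶜ := Finset.mem_compl.2 (by
    rw [Finset.mem_singleton]; exact hea)
  have kp : (fp x {a} e).k = x a e := kk_one x a e
  have k := h6 t ht hti s hs hj
  have kX : Fps true (fp x {a} e) := (fp_star hx heD).fps (fu_fp hx c1 heD he)
  constructor
  · rw [← kp]
    refine le_trans (le_of_eq (Finset.sum_congr rfl fun d _ => ?_))
      ((hS.cl e heD he).trans (k.cl _ kX))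
    exact max_eq_right (hS.nl d e)
  · rw [← kp]
    refine le_trans (le_of_eq (Finset.sum_congr rfl fun d _ => ?_))
      ((hS.cf e heD he).trans (k.cf _ kX))
    exact max_eq_right (hS.nf d e)

end world

end Pool.Agent.RZ.RCO
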