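import Pool.Agent.RZ.RCO.Ed10
import Pool.Agent.RZ.RCO.St5

/-! Route P: the star worlds of a graph from the tables of the big cells (MP_73ccd0_lc). -/

set_option autoImplicit false
set_option linter.unusedSectionVars false

namespace Pool.Agent.RZ.RCO

open Set Finset MeasureTheory Pool.Agent.RZ.RCRSHalf Pool.Agent.RZ.RCG Pool.Agent.RZ.RCG.Ct
open Pool.Agent.RZ.RCN Pool.Agent.RZ.RCN.K

/-! ### the index types are free -/

section world

variable {V : Type*} [Fintype V] [DecidableEq V]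

/-- **all solutions of the star world of `a` in a cell and a class**, the index types are free -/
inductive WstT (Z : Hzd) (x : V → V → ℝ) (P : V → Prop) [DecidablePred P] (R : RT.Tab)
    (mi : ℕ → ℕ) (ε : ℝ) (a : V) (i j : ℕ) : Prop
  | mk {Λ0 J1 M1 Λ1 J2 M2 Λ2 J3 M3 Λ3 : Type} [Fintype Λ0]
    [Fintype J1] [Nonempty J1] [Fintype M1] [Nonempty M1] [Fintype Λ1]
    [Fintype J2] [Nonempty J2] [Fintype M2] [Nonempty M2] [Fintype Λ2]
    [Fintype J3] [Nonempty J3] [Fintype M3] [Nonempty M3] [Fintype Λ3]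
    (h : Wst Z x P R mi ε a i j Λ0 J1 M1 Λ1 J2 M2 Λ2 J3 M3 Λ3) : WstT Z x P R mi ε a i j

variable {Z : Hzd} {x : V → V → ℝ} {P : V → Prop} [DecidablePred P] {R : RT.Tab} {mi : ℕ → ℕ}
  {ε : ℝ} {i j : ℕ}

/-- the star constants of a vertex in a cell and a class -/
theorem WstT.cls (hx : RCG.Ct.Wt x P 1) (ε0 : 0 < ε) (N0 : 0 < R.N) {a : V}
    (h : WstT Z x P R mi ε a i j) :
    ∃ ls lf : V → V → ℝ, (∀ d e, 0 ≤ ls d e) ∧ (∀ d e, 0 ≤ lf d e) ∧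
      (∀ b, P b → b ≠ a → Ck2 Z x P R.N (sgN R.N) ε i j b a ls lf) ∧
      ∀ t ∈ Icc (0 : ℝ) 1, ci R.N t = i → ∀ s ∈ Icc 0 t, Act MN (sgN R.N) ε i s j →
        ∀ e, P e → e ≠ a →
        ∑ d ∈ (({a} : Finset V)ᶜ.erase e).filter P, max 0 (ls d e)
          ≤ R.val RT.kSL (mi i) t s (x a e) ∧
        ∑ d ∈ (({a} : Finset V)ᶜ.erase e).filter P, max 0 (lf d e)
          ≤ R.val RT.kSF (mi i) t s (x a e) := by
  cases h with
  | mk h => exact h.cls hx ε0 N0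

/-- **the star constants of a graph from the star worlds** -/
theorem star_okT (hx : RCG.Ct.Wt x P 1) (ε0 : 0 < ε) (N0 : 0 < R.N)
    (h : ∀ i < R.N, ∀ j ≤ i, ∀ a, P a → WstT Z x P R mi ε a i j) :
    ∃ Ls Lsf : ℕ → ℕ → V → V → V → ℝ, StOk Z x P R mi ε Ls Lsf := by
  have h' : ∀ i < R.N, ∀ j ≤ i, ∀ a, P a → _ := fun i hi j hj a ha =>
    (h i hi j hj a ha).cls hx ε0 N0
  choose! Ls Lsf nl nf ck B using h'
  refine ⟨fun i j a d e => max 0 (Ls i j a d e), fun i j a d e => max 0 (Lsf i j a d e),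
    ⟨?_, ?_⟩, fun _ _ _ _ _ => le_max_left _ _, fun _ _ _ _ _ => le_max_left _ _,
    fun i hi j hj a b ha hb hab => ?_⟩
  · intro i hi t ht hti s hs j hj a ha e he hea
    refine le_trans (le_of_eq (Finset.sum_congr rfl fun d _ => ?_))
      (B i hi j hj.1 a ha t ht hti s hs hj e he hea).1
    exact max_eq_right (le_max_left _ _)
  · intro i hi t ht hti s hs j hj a ha e he hea
    refine le_trans (le_of_eq (Finset.sum_congr rfl fun d _ => ?_))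
      (B i hi j hj.1 a ha t ht hti s hs hj e he hea).2
    exact max_eq_right (le_max_left _ _)
  · exact (ck i hi j hj b hb a ha hab).mono (ca_nonneg _ _) (cb_le_one hi)
      (fun _ _ _ _ _ => le_max_right _ _) fun _ _ _ _ _ => le_max_right _ _

end world

/-! ### the star world of a class from the tables of its big cell -/

section cls

variable {J M Λ J' M' Λ' Λ0 : Type} [Fintype J] [Nonempty J] [Fintype M] [Nonempty M]
  [Fintype Λ] [Fintype J'] [Nonempty J'] [Fintype M'] [Nonempty M'] [Fintype Λ'] [Fintype Λ0]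
variable {FF : (ℕ → ℝ) → Pt → ℝ} {N : ℕ} {ft : ℕ → Pt → ℝ} {c : CelD J M Λ J' M' Λ' Λ0}
  {k : CelK M M'} {l : ℕ} {z θ : ℝ}
variable {V : Type} [Fintype V] [DecidableEq V] {Z : Hzd} {sl : ℝ → ℝ → ℝ} {x : V → V → ℝ}
  {P : V → Prop} [DecidablePred P] {A0 : Finset V} {α : ℝ}
  {ζ : V → V → ℝ → ℝ} {Y Nw : V → ℝ → ℝ} {B : EgB} {q : Dj} {cc a' b' : ℝ} {nh nf : ℕ} {Q : Pt → Prop}
  {R : RT.Tab} {mi : ℕ → ℕ} {ε : ℝ} {i j : ℕ}

/-- **the star world of a class with the bounds of the table** -/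
theorem CelD.Ok.wstT (h : c.Ok FF N ft) {a : V}
    (p : c.Pl l θ z (cb R.N i) (max 0 (sgm (sgN R.N) ε i j)))
    (hσ : sgE c.A l θ z = sgN R.N i j) (ε0 : 0 < ε) (N0 : 0 < R.N)
    (W : Wrl Z x P A0 {a} α (cb R.N i) (sgE c.A l θ z) (skE c.A l θ z) ζ Y Nw
      (c.d.dat FF c.t c.n z) c.l1)
    (hW : ∀ b, P b → b ≠ a → W0cq Z x P {b} {b, a} (ca R.N i) (cb R.N i) (sgN R.N i j)
      (Tc0 (Z.hh x P) {a} ζ Y) (Ac0 (Z.hh x P) {a} ζ Y) (Bc0 (Z.hh x P) {a} Nw))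
    (hZ : Z.Ok sl) (hk : k.Okc FF N c)
    (hw : DjW q x P {a} (Z.hh x P) (Tc0 (Z.hh x P) {a} ζ Y) (cb R.N i) (sgE c.A l θ z) z cc l
      a' b')
    (h0 : c.B0 FF z (max 0 (sgm (sgN R.N) ε i j)) B)
    (hc : c.Bc FF l θ z (max 0 (sgm (sgN R.N) ε i j)) B) (hkc : k.Bc FF l θ z B)
    (hd : DjB q nh nf cc l a' b' (sgE c.A l θ z) (max 0 (sgm (sgN R.N) ε i j)) B)
    (hn : DjNc nh nf B Q)
    (hQ : ∀ d ∈ ({a} : Finset V)ᶜ, P d → Q (fp x {a} d))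
    (hv : ∀ t ∈ Icc (0 : ℝ) 1, ci R.N t = i → ∀ s ∈ Icc 0 t, Act MN (sgN R.N) ε i s j →
      RvS R (mi i) t s B) : WstT Z x P R mi ε a i j := by
  have ρσ : max 0 (sgm (sgN R.N) ε i j) ≤ sgE c.A l θ z :=
    max_le (sgE_nonneg h p) (by rw [hσ]; exact sgN_sgm_le ε0 N0 i j)
  obtain ⟨gp, gp', gm, gm', g1, g2, g3, F⟩ := h.ful p W hZ (Finset.Subset.refl _)
  obtain ⟨e0, e1, e2⟩ := h.cols p W.hP W.hD F hk (Finset.Subset.refl _) hw ρσ h0 hc hkc hd hn hQ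
  rw [hσ] at F e1
  exact .mk ⟨A0, α, _, ζ, Y, Nw, _, _, _, _, _, _, _, gp, gp', gm, gm', g1, g2, g3, B, F, hW, e0,
    e1, e2, hv⟩

end cls

end Pool.Agent.RZ.RCO
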