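import Pool.Agent.RZ.RCO.RTab
import Pool.Agent.RZ.RCO.St10

/-! Route P: the worlds and the star constants of a graph from the worlds of the big cells
(MP_73ccd0_lc). -/

set_option autoImplicit false
set_option linter.unusedSectionVars false

namespace Pool.Agent.RZ.RCO

open Set Finset MeasureTheory Pool.Agent.RZ.RCRSHalf Pool.Agent.RZ.RCG Pool.Agent.RZ.RCG.Ct
open Pool.Agent.RZ.RCN Pool.Agent.RZ.RCN.K

/-- **the pair worlds of a big cell**, all tables with many cells -/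
def PairN (Z : Hzd) (R0 : RT.Tab) (m N0 : ℕ) : Prop :=
  ∀ R : RT.Tab, R.r = R0.r → R.T = R0.T → R.M = R0.M → N0 ≤ R.N →
    ∀ (V : Type) [Fintype V] [DecidableEq V] (x : V → V → ℝ) (P : V → Prop) [DecidablePred P],
      RCG.Ct.Wt x P 1 → ∀ (mi : ℕ → ℕ) (ε : ℝ), 0 < ε → ε ≤ 1 / R.N →
      ∀ i < R.N, mi i = m → R.tn m ≤ ca R.N i → cb R.N i ≤ R.tn (m + 1) → ∀ j ≤ i,
      ∀ A D : Finset V, A ⊆ D → D.card ≤ 2 → WexT Z x P R mi ε A D i j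

/-- **the star worlds of a big cell**, all tables with many cells -/
def StarN (Z : Hzd) (R0 : RT.Tab) (m N0 : ℕ) : Prop :=
  ∀ R : RT.Tab, R.r = R0.r → R.T = R0.T → R.M = R0.M → N0 ≤ R.N →
    ∀ (V : Type) [Fintype V] [DecidableEq V] (x : V → V → ℝ) (P : V → Prop) [DecidablePred P],
      RCG.Ct.Wt x P 1 → ∀ (mi : ℕ → ℕ) (ε : ℝ), 0 < ε → ε ≤ 1 / R.N →
      ∀ i < R.N, mi i = m → R.tn m ≤ ca R.N i → cb R.N i ≤ R.tn (m + 1) → ∀ j ≤ i,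
      ∀ a, P a → WstT Z x P R mi ε a i j

/-- the same for all large numbers of cells -/
def PairW (Z : Hzd) (R0 : RT.Tab) (m : ℕ) : Prop := ∃ N0, PairN Z R0 m N0
def StarW (Z : Hzd) (R0 : RT.Tab) (m : ℕ) : Prop := ∃ N0, StarN Z R0 m N0

/-- one bound for finitely many cells -/
theorem bd_ex {p : ℕ → ℕ → Prop} (hp : ∀ m a b, a ≤ b → p m a → p m b) (M : ℕ)
    (h : ∀ m < M, ∃ n, p m n) : ∃ n, ∀ m < M, p m n := by
  induction M with
  | zero => exact ⟨0, fun m hm => absurd hm (Nat.not_lt_zero m)⟩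
  | succ M ih =>
    obtain ⟨a, ha⟩ := ih fun m hm => h m (by omega)
    obtain ⟨b, hb⟩ := h M (Nat.lt_succ_self M)
    refine ⟨max a b, fun m hm => ?_⟩
    rcases Nat.lt_succ_iff_lt_or_eq.1 hm with h1 | h1
    · exact hp m a _ (le_max_left a b) (ha m h1)
    · rw [h1]
      exact hp M b _ (le_max_right a b) hb

/-- **the worlds and the star constants of a graph** -/
theorem win_of {Z : Hzd} (hP : ∀ m < (RTab.tabq 1).M, PairW Z (RTab.tabq 1) m)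
    (hS : ∀ m < (RTab.tabq 1).M, StarW Z (RTab.tabq 1) m) {V : Type} [Fintype V] [DecidableEq V]
    {x : V → V → ℝ} {P : V → Prop} [DecidablePred P] (hx : RCG.Ct.Wt x P 1) :
    ∃ k > 0, ∃ (mi : ℕ → ℕ) (ε : ℝ) (Ls Lsf : ℕ → ℕ → V → V → V → ℝ),
      Mp (RTab.tabq k) mi ∧ 0 < ε ∧
      (∀ A D : Finset V, A ⊆ D → D.card ≤ 2 → ∀ i < (RTab.tabq k).N, ∀ j ≤ i,
        WexT Z x P (RTab.tabq k) mi ε A D i j) ∧
      StOk Z x P (RTab.tabq k) mi ε Ls Lsf := by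
  obtain ⟨a, ha⟩ := bd_ex (p := PairN Z (RTab.tabq 1)) (fun _ _ _ hab h R e1 e2 e3 e4 =>
    h R e1 e2 e3 (hab.trans e4)) _ hP
  obtain ⟨b, hb⟩ := bd_ex (p := StarN Z (RTab.tabq 1)) (fun _ _ _ hab h R e1 e2 e3 e4 =>
    h R e1 e2 e3 (hab.trans e4)) _ hS
  obtain ⟨k, hk⟩ : ∃ k, k = a + b + 1 := ⟨_, rfl⟩
  have k0 : 0 < k := by omega
  have hN : (RTab.tabq k).N = 1000 * k := rfl
  obtain ⟨mi, hm⟩ := mp_ex (RTab.cov k0) k0 hN
  have N0 : 0 < (RTab.tabq k).N := (RTab.cov k0).N0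
  have Nr : (0 : ℝ) < (RTab.tabq k).N := Nat.cast_pos.2 N0
  have ε0 : (0 : ℝ) < 1 / (RTab.tabq k).N := one_div_pos.2 Nr
  obtain ⟨Ls, Lsf, hs⟩ := star_okT (Z := Z) (R := RTab.tabq k) (mi := mi) hx ε0 N0
    fun i hi j hj c hc => hb (mi i) (hm.lt i hi) (RTab.tabq k) rfl rfl rfl (by omega) V x P hx mi
      _ ε0 le_rfl i hi rfl (hm.lo i hi) (hm.hi i hi) j hj c hc
  exact ⟨k, k0, mi, _, Ls, Lsf, hm, ε0, fun A D hAD hD i hi j hj =>
    ha (mi i) (hm.lt i hi) (RTab.tabq k) rfl rfl rfl (by omega) V x P hx mi _ ε0 le_rfl i hi rfl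
      (hm.lo i hi) (hm.hi i hi) j hj A D hAD hD, hs⟩

end Pool.Agent.RZ.RCO
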