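import Pool.Agent.RZ.RCO.EdD
import Pool.Agent.RZ.RCO.Eg5

/-! Route P: the table above the record of the bounds of a class, for all large numbers of cells
(MP_73ccd0_lc). -/

set_option autoImplicit false
set_option linter.unusedSectionVars false

namespace Pool.Agent.RZ.RCO

open Set Finset MeasureTheory Pool.Agent.RZ.RCRSHalf Pool.Agent.RZ.RCG Pool.Agent.RZ.RCG.Ct
open Pool.Agent.RZ.RCN Pool.Agent.RZ.RCN.K

namespace Ehk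

/-- the slopes at the first big cell -/
noncomputable def v0 (h : Ehk) (q : Ec0) : ℝ :=
  (∑ l ∈ Finset.range q.n, ((h.ML l).sz + (h.PL l).sz)) / (q.T / 2 ^ 24)
    + (∑ l ∈ Finset.range q.n, ((h.MF l).sz + (h.PF l).sz)) / (q.T / 2 ^ 24)

/-- the further checks of the first big cell -/
def ckZk (h : Ehk) (q : Ec0) (st : Bool) (rL rF : ℕ → RT.Cub) : Bool :=
  ckZ q true (kst st) h.ML h.PL rL && ckZ q false (kst st) h.MF h.PF rF && decide (q.W = q.T)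

variable {h : Ehk} {q : Ec0} {st : Bool} {rL rF : ℕ → RT.Cub}

theorem v0_parts (h : Ehk) (hq : q.Ok) :
    0 ≤ (∑ l ∈ Finset.range q.n, ((h.ML l).sz + (h.PL l).sz)) / (q.T / 2 ^ 24) ∧
    0 ≤ (∑ l ∈ Finset.range q.n, ((h.MF l).sz + (h.PF l).sz)) / (q.T / 2 ^ 24) := by
  have T0 : (0 : ℝ) ≤ q.T / 2 ^ 24 := div_nonneg (by exact_mod_cast hq.T0.le) (by positivity)
  exact ⟨div_nonneg (Finset.sum_nonneg fun l _ => add_nonneg (h.ML l).sz0 (h.PL l).sz0) T0,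
    div_nonneg (Finset.sum_nonneg fun l _ => add_nonneg (h.MF l).sz0 (h.PF l).sz0) T0⟩

theorem v0_nonneg (h : Ehk) (hq : q.Ok) : 0 ≤ h.v0 q :=
  add_nonneg (v0_parts h hq).1 (v0_parts h hq).2

theorem z0_of (hk : h.ckZk q st rL rF = true) (hq : q.Ok) {V0 : ℝ} (hV : h.v0 q ≤ V0) :
    h.Z0 q st rL rF V0 := by
  unfold ckZk at hk
  simp only [Bool.and_eq_true, decide_eq_true_eq] at hk
  obtain ⟨p1, p2⟩ := v0_parts h hq
  unfold v0 at hV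
  exact ⟨hk.1.1, hk.1.2, hk.2, by linarith, by linarith⟩

end Ehk

/-- **the data of the columns or rows of the big cell `m` with all checks** -/
structure HCel (h : Ehk) (q : Ec0) (st : Bool) (dj : Dj) (nh nf : ℕ) (rL rF : ℕ → RT.Cub)
    (m : ℕ) : Prop where
  ok : h.Ok q st rL rF
  ms : ∀ y ∈ h.fms q.n, Msh y.t y.n
  j : h.ckJ q.n dj nh nf = true
  z : m = 0 → h.ckZk q st rL rF = true

section cel

variable {xc xr : Ehk} {q : Ec0} {st : Bool} {dj : Dj} {nh nf m : ℕ} {rL rF : ℕ → RT.Cub}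

/-- **the two columns of a class are below the table** for all large numbers of cells -/
theorem HCel.cols (h : HCel xc q st dj nh nf rL rF m) {V0 κ : ℝ} (hV0 : xc.v0 q ≤ V0)
    (κ0 : 0 < κ) :
    ∃ N0 : ℕ, ∀ R : RT.Tab, N0 ≤ R.N → q.Rel R m → ∀ (xr : Ehk) (KL KF : ℕ), RT.Tab.ex KL = 2 →
      RT.Tab.ex KF = 1 → (∀ j ≤ 10, R.r KL m j = rL j) → (∀ j ≤ 10, R.r KF m j = rF j) →
      ∀ V α, Csz R KL V V0 α (1 / 2 ^ 32) κ → Csz R KF V V0 α (1 / 2 ^ 32) κ →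
      ∀ (ε : ℝ) (i j l : ℕ) (ρ : ℝ), Plc R m q.n (q.cn R m) ε i j l → 0 ≤ ρ → ρ ≤ cb R.N j →
      cb R.N j ≤ ρ + 3 / R.N → ∀ t ∈ Icc (0 : ℝ) 1, ci R.N t = i → ∀ s ∈ Icc 0 t,
      Act MN (sgN R.N) ε i s j → ∀ p, Fps st p →
      (Ehk.B xc xr q.W dj nh nf (q.cz R m (zs R m i)) l (q.nd l (q.cz R m (zs R m i)))
        (q.nd (l + 1) (q.cz R m (zs R m i))) (cb R.N j) ρ).cl p ≤ R.val KL m t s p.k ∧
      (Ehk.B xc xr q.W dj nh nf (q.cz R m (zs R m i)) l (q.nd l (q.cz R m (zs R m i)))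
        (q.nd (l + 1) (q.cz R m (zs R m i))) (cb R.N j) ρ).cf p ≤ R.val KF m t s p.k := by
  obtain ⟨Λ, Λ0, key⟩ := h.ok.cin h.ms (Ehk.ckJ_of h.j)
  obtain ⟨N0, hN0⟩ := exists_nat_gt (3 * Λ / κ)
  have hq := Ec0.ok_of h.ok.qo
  refine ⟨N0, fun R hN hr xr KL KF eL eF RL RF V α SL SF ε i j l ρ hp ρ0 ρσ ρN t ht hti s hs hact
    p hu => ?_⟩
  have Np : (0 : ℝ) < R.N := Nat.cast_pos.2 SL.N0
  have hz := zs_mem hp.lo hp.hi'
  obtain ⟨n1, n2, n3⟩ := hp.nd hq hr SL.N0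
  have hκ : Λ * (3 / R.N) ≤ κ := by
    have h1 : (N0 : ℝ) ≤ R.N := by exact_mod_cast hN
    have h2 : 3 * Λ / κ ≤ R.N := hN0.le.trans h1
    rw [div_le_iff₀ κ0] at h2
    rw [← mul_div_assoc, div_le_iff₀ Np]
    linarith
  have hB := key xr (q.cz R m (zs R m i)) (Ec0.cz0 hq hr hz) (Ec0.cz1 hq hr hz) l hp.hl
    (cb R.N j) ρ (3 / R.N) κ ρ0 ρσ ρN n1 n2 n3 hκ
  have hci := ci_mem SL.N0 ht.1 ht.2
  rw [hti] at hci
  exact CIn.le h.ok hr h.ms eL eF RL RF (fun hm => Ehk.z0_of (h.z hm) hq hV0) SL SF κ0.le hp hB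
    hci hs hact hu

/-- **the two rows of a class are below the table** for all large numbers of cells -/
theorem HCel.rows (h : HCel xr q st dj nh nf rL rF m) (eG0 : xc.x.G0 = xr.x.G0)
    (eG : xc.cd.G = xr.cd.G) {V0 κ : ℝ} (hV0 : xr.v0 q ≤ V0) (κ0 : 0 < κ) :
    ∃ N0 : ℕ, ∀ R : RT.Tab, N0 ≤ R.N → q.Rel R m → ∀ (KL KF : ℕ), RT.Tab.ex KL = 2 →
      RT.Tab.ex KF = 1 → (∀ j ≤ 10, R.r KL m j = rL j) → (∀ j ≤ 10, R.r KF m j = rF j) →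
      ∀ V α, Csz R KL V V0 α (1 / 2 ^ 32) κ → Csz R KF V V0 α (1 / 2 ^ 32) κ →
      ∀ (ε : ℝ) (i j l : ℕ) (ρ : ℝ), Plc R m q.n (q.cn R m) ε i j l → 0 ≤ ρ → ρ ≤ cb R.N j →
      cb R.N j ≤ ρ + 3 / R.N → ∀ t ∈ Icc (0 : ℝ) 1, ci R.N t = i → ∀ s ∈ Icc 0 t,
      Act MN (sgN R.N) ε i s j → ∀ p, Fps st p →
      (Ehk.B xc xr q.W dj nh nf (q.cz R m (zs R m i)) l (q.nd l (q.cz R m (zs R m i)))
        (q.nd (l + 1) (q.cz R m (zs R m i))) (cb R.N j) ρ).rl p ≤ R.val KL m t s p.k ∧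
      (Ehk.B xc xr q.W dj nh nf (q.cz R m (zs R m i)) l (q.nd l (q.cz R m (zs R m i)))
        (q.nd (l + 1) (q.cz R m (zs R m i))) (cb R.N j) ρ).rf p ≤ R.val KF m t s p.k := by
  obtain ⟨Λ, Λ0, key⟩ := h.ok.win (xc := xc) h.ms (Ehk.ckJ_of h.j) eG0 eG
  obtain ⟨N0, hN0⟩ := exists_nat_gt (3 * Λ / κ)
  have hq := Ec0.ok_of h.ok.qo
  refine ⟨N0, fun R hN hr KL KF eL eF RL RF V α SL SF ε i j l ρ hp ρ0 ρσ ρN t ht hti s hs hact
    p hu => ?_⟩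
  have Np : (0 : ℝ) < R.N := Nat.cast_pos.2 SL.N0
  have hz := zs_mem hp.lo hp.hi'
  obtain ⟨n1, n2, n3⟩ := hp.nd hq hr SL.N0
  have hκ : Λ * (3 / R.N) ≤ κ := by
    have h1 : (N0 : ℝ) ≤ R.N := by exact_mod_cast hN
    have h2 : 3 * Λ / κ ≤ R.N := hN0.le.trans h1
    rw [div_le_iff₀ κ0] at h2
    rw [← mul_div_assoc, div_le_iff₀ Np]
    linarith
  have hB := key (q.cz R m (zs R m i)) (Ec0.cz0 hq hr hz) (Ec0.cz1 hq hr hz) l hp.hl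
    (cb R.N j) ρ (3 / R.N) κ ρ0 ρσ ρN n1 n2 n3 hκ
  have hci := ci_mem SL.N0 ht.1 ht.2
  rw [hti] at hci
  exact WIn.le h.ok hr h.ms eL eF RL RF (fun hm => Ehk.z0_of (h.z hm) hq hV0) SL SF κ0.le hp hB
    hci hs hact hu

end cel

/-! ### pairs -/

/-- **the data of the pairs of the big cell `m`** -/
structure PCel (xc xr : Ehk) (q : Ec0) (dj : Dj) (nh nf : ℕ) (r : ℕ → ℕ → ℕ → RT.Cub)
    (m : ℕ) : Prop where
  c : HCel xc q false dj nh nf (r RT.kCL m) (r RT.kCF m) m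
  r : HCel xr q false dj nh nf (r RT.kRL m) (r RT.kRF m) m
  eG0 : xc.x.G0 = xr.x.G0
  eG : xc.cd.G = xr.cd.G

/-- **the table is above the four sums of the record of a class** for all large numbers of cells -/
theorem PCel.rvb {xc xr : Ehk} {q : Ec0} {dj : Dj} {nh nf m : ℕ} {r : ℕ → ℕ → ℕ → RT.Cub}
    (h : PCel xc xr q dj nh nf r m) {V0 κ : ℝ} (hV0 : xc.v0 q ≤ V0) (hV0' : xr.v0 q ≤ V0)
    (κ0 : 0 < κ) :
    ∃ N0 : ℕ, ∀ R : RT.Tab, R.r = r → N0 ≤ R.N → q.Rel R m →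
      ∀ V α, (∀ K < 18, Csz R K V V0 α (1 / 2 ^ 32) κ) →
      ∀ (ε : ℝ) (i j l : ℕ) (ρ : ℝ), Plc R m q.n (q.cn R m) ε i j l → 0 ≤ ρ → ρ ≤ cb R.N j →
      cb R.N j ≤ ρ + 3 / R.N → ∀ t ∈ Icc (0 : ℝ) 1, ci R.N t = i → ∀ s ∈ Icc 0 t,
      Act MN (sgN R.N) ε i s j → RvB R m t s
      (Ehk.B xc xr q.W dj nh nf (q.cz R m (zs R m i)) l (q.nd l (q.cz R m (zs R m i)))
        (q.nd (l + 1) (q.cz R m (zs R m i))) (cb R.N j) ρ) := by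
  obtain ⟨N1, k1⟩ := h.c.cols hV0 κ0
  obtain ⟨N2, k2⟩ := h.r.rows h.eG0 h.eG hV0' κ0
  refine ⟨max N1 N2, fun R hr hN hR V α hS ε i j l ρ hp ρ0 ρσ ρN t ht hti s hs hact => ?_⟩
  have e1 := fun p hp' => k1 R ((le_max_left _ _).trans hN) hR xr RT.kCL RT.kCF (by decide)
    (by decide) (fun _ _ => by rw [hr]) (fun _ _ => by rw [hr]) V α (hS _ (by decide))
    (hS _ (by decide)) ε i j l ρ hp ρ0 ρσ ρN t ht hti s hs hact p hp'
  have e2 := fun p hp' => k2 R ((le_max_right _ _).trans hN) hR RT.kRL RT.kRF (by decide)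
    (by decide) (fun _ _ => by rw [hr]) (fun _ _ => by rw [hr]) V α (hS _ (by decide))
    (hS _ (by decide)) ε i j l ρ hp ρ0 ρσ ρN t ht hti s hs hact p hp'
  exact ⟨fun p hu => (e1 p hu.fp).1, fun p hu => (e1 p hu.fp).2, fun p hu => (e2 p hu.fp).1,
    fun p hu => (e2 p hu.fp).2⟩

/-! ### stars -/

/-- **the table is above the two columns of the star** for all large numbers of cells -/
theorem HCel.rvs {xs : Ehk} {q : Ec0} {dj : Dj} {nh nf m : ℕ} {r : ℕ → ℕ → ℕ → RT.Cub}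
    (h : HCel xs q true dj nh nf (r RT.kSL m) (r RT.kSF m) m) {V0 κ : ℝ} (hV0 : xs.v0 q ≤ V0)
    (κ0 : 0 < κ) :
    ∃ N0 : ℕ, ∀ R : RT.Tab, R.r = r → N0 ≤ R.N → q.Rel R m →
      ∀ V α, (∀ K < 18, Csz R K V V0 α (1 / 2 ^ 32) κ) →
      ∀ (ε : ℝ) (i j l : ℕ) (ρ : ℝ), Plc R m q.n (q.cn R m) ε i j l → 0 ≤ ρ → ρ ≤ cb R.N j →
      cb R.N j ≤ ρ + 3 / R.N → ∀ t ∈ Icc (0 : ℝ) 1, ci R.N t = i → ∀ s ∈ Icc 0 t,
      Act MN (sgN R.N) ε i s j → ∀ (xr : Ehk), ∀ p, Fps true p →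
      (Ehk.B xs xr q.W dj nh nf (q.cz R m (zs R m i)) l (q.nd l (q.cz R m (zs R m i)))
        (q.nd (l + 1) (q.cz R m (zs R m i))) (cb R.N j) ρ).cl p ≤ R.val RT.kSL m t s p.k ∧
      (Ehk.B xs xr q.W dj nh nf (q.cz R m (zs R m i)) l (q.nd l (q.cz R m (zs R m i)))
        (q.nd (l + 1) (q.cz R m (zs R m i))) (cb R.N j) ρ).cf p ≤ R.val RT.kSF m t s p.k := by
  obtain ⟨N1, k1⟩ := h.cols hV0 κ0
  refine ⟨N1, fun R hr hN hR V α hS ε i j l ρ hp ρ0 ρσ ρN t ht hti s hs hact xr p hu => ?_⟩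
  exact k1 R hN hR xr RT.kSL RT.kSF (by decide) (by decide) (fun _ _ => by rw [hr])
    (fun _ _ => by rw [hr]) V α (hS _ (by decide)) (hS _ (by decide)) ε i j l ρ hp ρ0 ρσ ρN t ht
    hti s hs hact p hu

end Pool.Agent.RZ.RCO
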