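import Pool.Agent.RZ.RCO.EdB

/-! Route P: the losses of a class below the integers of the direct parts (MP_73ccd0_lc). -/

set_option autoImplicit false
set_option linter.unusedSectionVars false

namespace Pool.Agent.RZ.RCO

open Set Finset

/-- four equal entries -/
def E4.eq4 (n : ℤ) : E4 := ⟨50 * n, 50 * n, 50 * n, 50 * n⟩

theorem E4.eq4_q (n : ℤ) (κ c k : ℝ) : (E4.eq4 n).q κ c k = (1 - k) * (n / 2 ^ 24) := by
  unfold E4.q E4.eq4 qk ip
  push_cast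
  ring

namespace Fm

variable {x : Fm}

/-- the coefficients at a node -/
noncomputable def nd (x : Fm) (j i : ℕ) : ℝ := x.I i j / 2 ^ 24

/-- a form is below a bound of its values at the nodes -/
theorem fn_nodes (hm : Msh x.t x.n) (hn : 0 < x.n) {p : Pt} {B : ℝ}
    (h : ∀ j ≤ x.n, FF26 (x.nd j) p ≤ B) {r : ℝ} (hr : r ∈ Icc (x.t 0) (x.t x.n)) :
    x.fn r p ≤ B := by
  obtain ⟨j, hj, hr2⟩ := hm.stepc hn hr
  have d : 0 < x.t (j + 1) - x.t j := sub_pos.2 (hm.mono j hj)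
  set c := (r - x.t j) / (x.t (j + 1) - x.t j) with hc
  have c0 : 0 ≤ c := div_nonneg (sub_nonneg.2 hr2.1) d.le
  have c1 : c ≤ 1 := (div_le_one d).2 (by linarith [hr2.2])
  have e : x.cf r = fun i => (1 - c) * x.nd j i + c * x.nd (j + 1) i := by
    funext i
    unfold cf Tq.up nd
    rw [pl_on hm hj hr2, u_I, u_I, ← hc]
    ring
  have h1 := h j hj.le
  have h2 := h (j + 1) hj
  show FF26 (x.cf r) p ≤ B
  rw [e, ff_add, ff_smul, ff_smul]
  nlinarith [mul_le_mul_of_nonneg_left h1 (sub_nonneg.2 c1), mul_le_mul_of_nonneg_left h2 c0]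

/-- the check of all rows of a form against `g` -/
noncomputable def nck (x : Fm) (st : Bool) (u9 u4 g : ℤ) : Bool :=
  x.z && decide (0 < x.n) && (List.range (x.n + 1)).all fun j =>
    Sd.ckv st 0 u9 u4 (fun i => x.I i j) (50 * g) && Sd.ckv st 1 u9 u4 (fun i => x.I i j) (50 * g)

/-- **a form is below the multiple `g` of the mass at all times** -/
theorem nck_ok {st : Bool} {u9 u4 g : ℤ} (h : x.nck st u9 u4 g = true) (hm : Msh x.t x.n) {p : Pt}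
    (hp : Fps st p) {r : ℝ} (hr : r ∈ Icc (x.t 0) (x.t x.n)) :
    x.fn r p ≤ (1 - p.k) * (g / 2 ^ 24) := by
  unfold nck at h
  simp only [Bool.and_eq_true, decide_eq_true_eq, List.all_eq_true, List.mem_range] at h
  obtain ⟨⟨hz, hn⟩, h⟩ := h
  refine fn_nodes hm hn (fun j hj => ?_) hr
  obtain ⟨h0, h1⟩ := h j (by omega)
  have hf : Fz (x.nd j) := fun i hi hi' => by
    unfold nd I
    rw [z_I hz hi hi']
    norm_num
  refine (ff_int (F := fun i => x.I i j) (G := fun i => x.I i j) le_rfl zero_le_one u9 u4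
    (fun i => by unfold nd; ring) hf hp).trans ?_
  have k1 : p.k ≤ 1 := hp.fu.f.k5.trans (by norm_num)
  have g0 := Sd.ckv_ok h0
  have g1 := Sd.ckv_ok h1
  refine (qk_mono (a' := (g : ℝ) / 2 ^ 24) (b' := (g : ℝ) / 2 ^ 24) hp.fu.f.k0 k1 (kst0 st).le
    hp.k ?_ ?_).trans (le_of_eq ?_)
  · refine le_trans (le_of_eq ?_) (g0.trans (le_of_eq ?_))
    · ring
    · push_cast; ring
  · refine le_trans (le_of_eq ?_) (g1.trans (le_of_eq ?_))
    · ring
    · push_cast; ring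
  · unfold qk
    ring

end Fm

/-- the value of a side without further vector -/
theorem Sd.val0 (L : List Fm) (u9 u4 W : ℤ) (c : ℝ) (p : Pt) :
    (⟨L, fun _ => 0, fun _ => 0, u9, u4⟩ : Sd).val W c p
      = (L.map fun x => x.fn (c * (W / 2 ^ 24)) p).sum := by
  unfold Sd.val Sd.xf
  have e : (fun _ : ℕ => (1 - c) * (((0 : ℤ) : ℝ) / 2 ^ 24) + c * (((0 : ℤ) : ℝ) / 2 ^ 24))
      = fun _ => 0 := by
    funext i
    norm_num
  rw [e, ff_zero, add_zero]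

/-- two forms below a multiple of the mass at the table times `c W` -/
noncomputable def nc2 (st : Bool) (W u9 u4 : ℤ) (x y : Fm) (n : ℤ) : Bool :=
  (⟨[x, y], fun _ => 0, fun _ => 0, u9, u4⟩ : Sd).ck st W (E4.eq4 n)

theorem nc2_ok {st : Bool} {W u9 u4 n : ℤ} {x y : Fm} (h : nc2 st W u9 u4 x y n = true)
    (hx : Msh x.t x.n) (hy : Msh y.t y.n) {c : ℝ} (c0 : 0 ≤ c) (c1 : c ≤ 1) {p : Pt}
    (hp : Fps st p) : x.fn (c * (W / 2 ^ 24)) p + y.fn (c * (W / 2 ^ 24)) p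
      ≤ (1 - p.k) * (n / 2 ^ 24) := by
  have key := Sd.ck_ok h (by simp [hx, hy]) c0 c1 hp
  rw [E4.eq4_q, Sd.val0] at key
  simpa only [List.map_cons, List.map_nil, List.sum_cons, List.sum_nil, add_zero] using key

namespace Ehk

/-- **the check of the losses**: `nh` above `N1 + Nc2` (columns) or `Nc1 + N2` (rows), `nf` above
the same of the released kind and the rows at the release time, `g` above the latter;
`tn 0, 1` the tangents of the deleted kind, `tn 2, 3` of the released kind, `tn 4, 5` of the rows -/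
noncomputable def nck (h : Ehk) (st : Bool) (q : Ec0) (nh nf g : ℕ) (tn : ℕ → ℤ) : Bool :=
  h.cd.G.nck st (tn 4) (tn 5) g && (List.range q.n).all fun l =>
    nc2 st q.W (tn 0) (tn 1) h.x.N (h.x.N2m l) nh && nc2 st q.W (tn 0) (tn 1) h.x.N (h.x.N2p l) nh &&
    nc2 st q.W (tn 2) (tn 3) h.x.N (h.x.N3m l) ((nf : ℤ) - g) &&
    nc2 st q.W (tn 2) (tn 3) h.x.N (h.x.N3p l) ((nf : ℤ) - g)

variable {h : Ehk} {st : Bool} {q : Ec0} {nh nf g : ℕ} {tn : ℕ → ℤ} {l : ℕ}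
  {c a b σ κ : ℝ} {p : Pt}

/-- the deleted kind -/
theorem nck_h (hc : h.nck st q nh nf g tn = true) (hm : ∀ y ∈ h.fms q.n, Msh y.t y.n)
    (hl : l < q.n) (c0 : 0 ≤ c) (c1 : c ≤ 1) (hab : a < b) (ha : a ≤ σ) (hb : σ ≤ b)
    (hp : Fps st p) :
    h.x.N.fn (c * (q.W / 2 ^ 24)) p + li a b ((h.x.N2m l).fn (c * (q.W / 2 ^ 24)) p)
      ((h.x.N2p l).fn (c * (q.W / 2 ^ 24)) p) σ ≤ (1 - p.k) * (nh / 2 ^ 24) := by
  unfold nck at hc
  simp only [Bool.and_eq_true, List.all_eq_true, List.mem_range] at hc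
  obtain ⟨-, hc⟩ := hc
  obtain ⟨⟨⟨h1, h2⟩, -⟩, -⟩ := hc l hl
  have n0 : Msh h.x.N.t h.x.N.n := hm _ (by simp [fms])
  have k1 := nc2_ok h1 n0 (hm _ (mem_fms hl (by simp))) c0 c1 hp
  have k2 := nc2_ok h2 n0 (hm _ (mem_fms hl (by simp))) c0 c1 hp
  rw [Int.cast_natCast] at k1 k2
  have := li_le (u := (h.x.N2m l).fn (c * (q.W / 2 ^ 24)) p)
    (v := (h.x.N2p l).fn (c * (q.W / 2 ^ 24)) p)
    (B := (1 - p.k) * (nh / 2 ^ 24) - h.x.N.fn (c * (q.W / 2 ^ 24)) p) hab ha hb (by linarith)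
    (by linarith)
  linarith

/-- the released kind -/
theorem nck_f (hc : h.nck st q nh nf g tn = true) (hm : ∀ y ∈ h.fms q.n, Msh y.t y.n)
    (hl : l < q.n) (c0 : 0 ≤ c) (c1 : c ≤ 1) (hab : a < b) (ha : a ≤ σ) (hb : σ ≤ b)
    (hp : Fps st p) {r : ℝ} (hr : r ∈ Icc (h.cd.G.t 0) (h.cd.G.t h.cd.G.n)) :
    h.x.N.fn (c * (q.W / 2 ^ 24)) p + (h.cd.G.fn r p
      + li a b ((h.x.N3m l).fn (c * (q.W / 2 ^ 24)) p)
        ((h.x.N3p l).fn (c * (q.W / 2 ^ 24)) p) σ) ≤ (1 - p.k) * (nf / 2 ^ 24) := by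
  unfold nck at hc
  simp only [Bool.and_eq_true, List.all_eq_true, List.mem_range] at hc
  obtain ⟨hG, hc⟩ := hc
  obtain ⟨⟨-, h1⟩, h2⟩ := hc l hl
  have n0 : Msh h.x.N.t h.x.N.n := hm _ (by simp [fms])
  have g0 : Msh h.cd.G.t h.cd.G.n := hm _ (by simp [fms])
  have k1 := nc2_ok h1 n0 (hm _ (mem_fms hl (by simp))) c0 c1 hp
  have k2 := nc2_ok h2 n0 (hm _ (mem_fms hl (by simp))) c0 c1 hp
  have k3 := Fm.nck_ok hG g0 hp hr
  have := li_le (u := (h.x.N3m l).fn (c * (q.W / 2 ^ 24)) p)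
    (v := (h.x.N3p l).fn (c * (q.W / 2 ^ 24)) p)
    (B := (1 - p.k) * (((nf : ℤ) - g : ℤ) / 2 ^ 24) - h.x.N.fn (c * (q.W / 2 ^ 24)) p) hab ha hb
    (by linarith) (by linarith)
  push_cast at this k3
  have e : (1 - p.k) * ((nf : ℝ) / 2 ^ 24) = (1 - p.k) * (g / 2 ^ 24)
      + (1 - p.k) * (((nf : ℝ) - g) / 2 ^ 24) := by ring
  rw [e]
  linarith

/-- the table times of the form of the rows -/
theorem Ok.tG (ho : h.cd.ck q = true) {r : ℝ} (hr : r ∈ Set.Icc (0 : ℝ) ((q.T : ℝ) / 2 ^ 24))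
    (hq : q.A q.n = q.T) : r ∈ Icc (h.cd.G.t 0) (h.cd.G.t h.cd.G.n) := by
  have o := Cd.ok_of ho
  have e0 : h.cd.G.t 0 = 0 := tmD_zero _ _ _
  have e1 : h.cd.G.n = h.cd.P.n := o.KG.symm.trans o.KP
  rw [e0, e1, Cd.tG o le_rfl, ← o.KP, o.TK _ le_rfl, hq]
  exact hr

end Ehk

end Pool.Agent.RZ.RCO
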