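import Pool.Agent.RZ.RCO.Ed11
import Pool.Agent.RZ.RCO.Ed13
import Pool.Agent.RZ.RCO.EdE
import Pool.Agent.RZ.RCO.EdN

/-! Route P: the worlds of a big cell from its tables, its record of bounds and their checks
(MP_73ccd0_lc). -/

set_option autoImplicit false
set_option linter.unusedSectionVars false

namespace Pool.Agent.RZ.RCO

open Set Finset MeasureTheory Pool.Agent.RZ.RCRSHalf Pool.Agent.RZ.RCG Pool.Agent.RZ.RCG.Ct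
open Pool.Agent.RZ.RCN Pool.Agent.RZ.RCN.K

/-! ### the relation to the table -/

theorem Ec0.Rel.congr {e : Ec0} {R R' : RT.Tab} {m : ℕ} (h : e.Rel R m) (hT : R'.T = R.T) :
    e.Rel R' m := by
  have e1 : ∀ m, R'.tn m = R.tn m := fun m => by unfold RT.Tab.tn; rw [hT]
  exact ⟨by rw [e1]; exact h.hT, by rw [e1]; exact h.hW, by rw [e1, e1]; exact h.lt,
    by rw [e1]; exact h.t0, h.hs, by rw [e1]; exact h.wA⟩

/-! ### the losses of a class -/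

/-- the losses of the columns of the record -/
theorem Ehk.djnc {xc xr : Ehk} {e : Ec0} {st : Bool} {q : Dj} {nh nf g : ℕ} {tn : ℕ → ℤ}
    {rL rF : ℕ → RT.Cub} {m l : ℕ} {cc σ ρ : ℝ} (h : HCel xc e st q nh nf rL rF m)
    (hc : xc.nck st e nh nf g tn = true) (hl : l < e.n) (c0 : 0 ≤ cc) (c1 : cc ≤ 1)
    (hab : e.nd l cc < e.nd (l + 1) cc) (ha : e.nd l cc ≤ σ) (hb : σ ≤ e.nd (l + 1) cc)
    (hr : ρ + cc * (e.W / 2 ^ 24) ∈ Icc (0 : ℝ) ((e.T : ℝ) / 2 ^ 24)) :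
    DjNc nh nf (Ehk.B xc xr e.W q nh nf cc l (e.nd l cc) (e.nd (l + 1) cc) σ ρ) (Fps st) where
  d := fun _ hp => Ehk.nck_h hc h.ms hl c0 c1 hab ha hb hp
  f := fun _ hp => Ehk.nck_f hc h.ms hl c0 c1 hab ha hb hp
    (Ehk.Ok.tG h.ok.cd hr (Ec0.ok_of h.ok.qo).An)

/-- the losses of the rows of the record -/
theorem Ehk.djnr {xc xr : Ehk} {e : Ec0} {st : Bool} {q : Dj} {nh nf g : ℕ} {tn : ℕ → ℤ}
    {rL rF : ℕ → RT.Cub} {m l : ℕ} {cc σ ρ : ℝ} (h : HCel xr e st q nh nf rL rF m)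
    (eG : xc.cd.G = xr.cd.G)
    (hc : xr.nck st e nh nf g tn = true) (hl : l < e.n) (c0 : 0 ≤ cc) (c1 : cc ≤ 1)
    (hab : e.nd l cc < e.nd (l + 1) cc) (ha : e.nd l cc ≤ σ) (hb : σ ≤ e.nd (l + 1) cc)
    (hr : ρ + cc * (e.W / 2 ^ 24) ∈ Icc (0 : ℝ) ((e.T : ℝ) / 2 ^ 24)) :
    DjNr nh nf (Ehk.B xc xr e.W q nh nf cc l (e.nd l cc) (e.nd (l + 1) cc) σ ρ) (Fps st) where
  d := fun _ hp => Ehk.nck_h hc h.ms hl c0 c1 hab ha hb hp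
  f := fun _ hp => by
    have := Ehk.nck_f hc h.ms hl c0 c1 hab ha hb hp
      (Ehk.Ok.tG h.ok.cd hr (Ec0.ok_of h.ok.qo).An)
    rw [← eG] at this
    exact this

/-! ### the tables of a big cell -/

/-- **the tables of a big cell**: `y`, `E` the layout of level 1/2 -/
structure Cbd {J M Λ J' M' Λ' : Type} [Fintype J] [Nonempty J] [Fintype M] [Nonempty M]
    [Fintype Λ] [Fintype J'] [Nonempty J'] [Fintype M'] [Nonempty M'] [Fintype Λ']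
    (R0 : RT.Tab) (m : ℕ) (y : Tp12) (E : ℕ) (Nr : ℝ → Pt → ℝ) (Np : ℝ → ℝ → ℝ)
    (c : CelD J M Λ J' M' Λ' (Fin y.b.N)) (e : Ec0) (q : Dj) (kk i0 i1 i2 iW nW : ℕ) :
    Prop where
  hm : m < R0.M
  hT : ∀ m < R0.M, 0 < m → 0 < R0.T m
  ok : c.Ok FF26 26 ft26
  nc : c.nc = e.n
  cA : ∀ l ≤ c.nc, c.A l = (e.A l : ℝ) / 2 ^ 24
  eok : e.Ok
  rel : e.Rel R0 m
  qok : q.Ok
  qrel : q.rel e = true
  ct : c.t = tmD E y.R y.iH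
  cn : c.n = q.n
  cd : c.d = y.t12 E q.n Nr Np
  tie : q.Tie kk E y.R y.iH i0 i1 i2 iW nW
  hRR : y.b.RR = [Sg.lr y.R i0, Sg.lr y.R i1, Sg.lr y.R i2]
  hWW : y.b.W = Sg.plr y.R 0 iW nW

section pair

variable {J M Λ J' M' Λ' : Type} [Fintype J] [Nonempty J] [Fintype M] [Nonempty M]
  [Fintype Λ] [Fintype J'] [Nonempty J'] [Fintype M'] [Nonempty M'] [Fintype Λ']
variable {R0 : RT.Tab} {m : ℕ} {y : Tp12} {E : ℕ} {Nr : ℝ → Pt → ℝ} {Np : ℝ → ℝ → ℝ}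
  {c : CelD J M Λ J' M' Λ' (Fin y.b.N)} {k : CelK M M'} {e : Ec0} {q : Dj}
  {i0 i1 i2 iW nW : ℕ} {Z : Hzd} {sl : ℝ → ℝ → ℝ} {d0 : T0Z} {xc xr : Ehk} {nh nf g g' : ℕ}
  {tn tn' : ℕ → ℤ}

/-- **the record of the bounds is above the used values** at all classes of the cell, pairs -/
def MatP (R0 : RT.Tab) (m : ℕ) (c : CelD J M Λ J' M' Λ' (Fin y.b.N)) (k : CelK M M') (e : Ec0)
    (q : Dj) (xc xr : Ehk) (nh nf : ℕ) : Prop :=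
  ∀ (R : RT.Tab) (ε : ℝ) (i j l : ℕ) (θ z cc a b : ℝ), R.T = R0.T →
    Plk R e q c ε m i j l θ z cc a b → ∀ ρ, ρ = max 0 (sgm (sgN R.N) ε i j) → ∀ B : EgB,
    B = Ehk.B xc xr e.W q nh nf cc l a b (cb R.N j) ρ →
      c.B0 FF26 z ρ B ∧ c.Bc FF26 l θ z ρ B ∧ k.Bc FF26 l θ z B ∧ c.Br FF26 l θ z ρ B ∧
        k.Br FF26 l θ z B

/-- **the pair worlds of a big cell** -/
theorem Cbd.pairW (h : Cbd R0 m y E Nr Np c e q 2048 i0 i1 i2 iW nW) (hZ : Z.Ok sl)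
    (hk : k.Okc FF26 26 c) (hk' : k.Okr FF26 26 c) (hw : W012 FF26 26 ft26 c.t c.n d0 c.d c.l1)
    (hz : ∀ δ r v : ℝ, 0 ≤ δ → 0 ≤ r → r + δ ≤ c.t c.n → v ∈ Icc (0 : ℝ) XM →
      Z.rr v r ≤ d0.R (r + δ) v)
    (hP : PCel xc xr e q nh nf R0.r m) (hc : xc.nck false e nh nf g tn = true)
    (hr : xr.nck false e nh nf g' tn' = true) (hM : MatP R0 m c k e q xc xr nh nf) :
    PairW Z R0 m := by
  have he := h.eok
  obtain ⟨V0, v1, v2⟩ : ∃ V0 : ℝ, xc.v0 e ≤ V0 ∧ xr.v0 e ≤ V0 :=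
    ⟨_, le_max_left _ _, le_max_right _ _⟩
  have v3 : 0 ≤ V0 := (Ehk.v0_nonneg xc he).trans v1
  obtain ⟨VV, α, N1, hC⟩ := csz_ex (M := R0.M) (T := R0.T) (r := R0.r) (V0 := V0)
    (κ := 1 / 2 ^ 33) (η := 1 / 2 ^ 32) v3 (by norm_num) h.hT 18
  obtain ⟨N2, hR⟩ := hP.rvb (V0 := V0) (κ := 1 / 2 ^ 33) v1 v2 (by positivity)
  obtain ⟨N3, hN3⟩ := exists_nat_gt (3 / c.η)
  refine ⟨max N1 (max N2 N3), fun R er eT eM hN V _ _ x P _ hx mi ε ε0 hε i hi hmi lo hi' j hj A D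
    hAD hD => ?_⟩
  have n1 : N1 ≤ R.N := (le_max_left _ _).trans hN
  have n2 : N2 ≤ R.N := ((le_max_left _ _).trans (le_max_right _ _)).trans hN
  have n3 : (N3 : ℝ) ≤ R.N := by
    exact_mod_cast ((le_max_right _ _).trans (le_max_right _ _)).trans hN
  have N0 : 0 < R.N := by omega
  have Nr0 : (0 : ℝ) < R.N := by exact_mod_cast N0
  have hη : 3 / (R.N : ℝ) ≤ c.η := by
    have h1 := hN3.le.trans n3
    rw [div_le_iff₀ h.ok.η0] at h1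
    rw [div_le_iff₀ Nr0]
    linarith
  have hrel : e.Rel R m := h.rel.congr eT
  obtain ⟨l, hl, θ, z, cc, a, b, hp⟩ := h.ok.place he hrel h.qok h.qrel h.nc h.cA
    (by rw [eM]; exact h.hm) hi hj lo hi' ε0 hε hη
  have cs := hC R eM eT er n1
  have hlt : 0 ≤ sgE c.A l θ z := sgE_nonneg h.ok hp.pl
  obtain ⟨Y, Nw, W, -⟩ := hw.wrl (S := skE c.A l θ z) (α := ca R.N i) hZ hx hD hAD (ca_nonneg _ _)
    hlt (sgE_le h.ok hp.pl) hp.pl.τ1 (by rw [h.ok.hN.t0]; exact hp.pl.z0) hp.pl.hτ.le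
    (fun r hr v hv => hz z r v hp.pl.z0 hr.1 (by linarith [hp.pl.hτ, hr.2]) hv)
  have W' := W
  rw [h.ct, h.cn, h.cd] at W'
  have hw := hp.djW he h.qok h.qrel h.tie h.hRR h.hWW W' (Or.inl rfl) hZ
  obtain ⟨b0, bc, kbc, br, kbr⟩ := hM R ε i j l θ z cc a b eT hp _ rfl _ rfl
  have hpab : e.nd l cc < e.nd (l + 1) cc := by rw [← hp.a1, ← hp.b1]; exact hp.ab
  have hpa : e.nd l cc ≤ cb R.N j := by rw [← hp.a1, ← hp.sj]; exact hp.h1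
  have hpb : cb R.N j ≤ e.nd (l + 1) cc := by rw [← hp.b1, ← hp.sj]; exact hp.h2
  have tz : max 0 (sgm (sgN R.N) ε i j) + cc * (e.W / 2 ^ 24)
      ∈ Icc (0 : ℝ) ((e.T : ℝ) / 2 ^ 24) := by
    rw [← hp.zW]
    refine ⟨add_nonneg hp.pl.ρ0 hp.pl.z0, ?_⟩
    rw [hp.hz]
    linarith [hp.pl.ρτ]
  have hnc := Ehk.djnc (xr := xr) hP.c hc hl hp.c0 hp.c1 hpab hpa hpb tz
  have hnr := Ehk.djnr (xc := xc) hP.r hP.eG hr hl hp.c0 hp.c1 hpab hpa hpb tz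
  rw [← hp.a1, ← hp.b1] at hnc hnr
  have hs := hp.sE.trans hp.sj
  refine h.ok.wexT hp.pl hp.sE ε0 N0 W hZ hk hk' hw b0 bc kbc br kbr ?_ hnc hnr
    (fun d hd hPd => (fu_fp hx hD hd hPd).fp) fun t ht hti s hs' hact => ?_
  · rw [hs]
    exact ⟨fun p hp => le_rfl, fun p hp => le_rfl, fun p hp => le_rfl⟩
  · have key := hR R er n2 hrel VV α cs ε i j l (max 0 (sgm (sgN R.N) ε i j)) hp.plc
      hp.pl.ρ0 (by rw [← hp.sj]; exact hp.ρσ) (by rw [← hp.sj]; exact hp.ρN) t ht hti s hs' hact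
    have e1 : e.cz R m (zs R m i) = cc := hp.hcc.symm
    rw [e1, ← hp.a1, ← hp.b1] at key
    rw [hmi]
    exact key

end pair

section star

variable {J M Λ J' M' Λ' : Type} [Fintype J] [Nonempty J] [Fintype M] [Nonempty M]
  [Fintype Λ] [Fintype J'] [Nonempty J'] [Fintype M'] [Nonempty M'] [Fintype Λ']
variable {R0 : RT.Tab} {m : ℕ} {y : Tp12} {E : ℕ} {Nr : ℝ → Pt → ℝ} {Np : ℝ → ℝ → ℝ}
  {c : CelD J M Λ J' M' Λ' (Fin y.b.N)} {k : CelK M M'} {e : Ec0} {q : Dj}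
  {kk i0 i1 i2 iW nW : ℕ} {Z : Hzd} {sl : ℝ → ℝ → ℝ} {t' : ℕ → ℝ} {n' : ℕ} {d0 : T0Z} {s : T0S}
  {xs : Ehk} {nh nf g : ℕ} {tn : ℕ → ℤ}

/-- **the record of the bounds is above the used values** at all classes of the cell, star -/
def MatS (R0 : RT.Tab) (m : ℕ) (c : CelD J M Λ J' M' Λ' (Fin y.b.N)) (k : CelK M M') (e : Ec0)
    (q : Dj) (xs : Ehk) (nh nf : ℕ) : Prop :=
  ∀ (R : RT.Tab) (ε : ℝ) (i j l : ℕ) (θ z cc a b : ℝ), R.T = R0.T →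
    Plk R e q c ε m i j l θ z cc a b → ∀ ρ, ρ = max 0 (sgm (sgN R.N) ε i j) → ∀ B : EgB,
    B = Ehk.B xs xs e.W q nh nf cc l a b (cb R.N j) ρ →
      c.B0 FF26 z ρ B ∧ c.Bc FF26 l θ z ρ B ∧ k.Bc FF26 l θ z B

/-- **the star worlds of a big cell** -/
theorem Cbd.starW (h : Cbd R0 m y E Nr Np c e q kk i0 i1 i2 iW nW) (hZ : Z.Ok sl)
    (hk : k.Okc FF26 26 c) (hw : WS12 FF26 26 ft26 c.t c.n t' n' d0 s c.d c.l1)
    (ht0 : t' 0 ≤ 0) (ht : c.t c.n ≤ t' n')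
    (hz0 : ∀ δ r v : ℝ, 0 ≤ δ → 0 ≤ r → r + δ ≤ c.t c.n → v ∈ Icc (0 : ℝ) XM →
      Z.rr v r ≤ d0.R (r + δ) v)
    (hz : ∀ δ r v : ℝ, 0 ≤ δ → 0 ≤ r → r + δ ≤ c.t c.n → v ∈ Icc (0 : ℝ) XM →
      Z.rr v r ≤ c.d.R (r + δ) v)
    (hP : HCel xs e true q nh nf (R0.r RT.kSL m) (R0.r RT.kSF m) m)
    (hc : xs.nck true e nh nf g tn = true) (hM : MatS R0 m c k e q xs nh nf) :
    StarW Z R0 m := by
  have he := h.eok
  have v3 : 0 ≤ xs.v0 e := Ehk.v0_nonneg xs he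
  obtain ⟨VV, α, N1, hC⟩ := csz_ex (M := R0.M) (T := R0.T) (r := R0.r) (V0 := xs.v0 e)
    (κ := 1 / 2 ^ 33) (η := 1 / 2 ^ 32) v3 (by norm_num) h.hT 18
  obtain ⟨N2, hR⟩ := hP.rvs (κ := 1 / 2 ^ 33) le_rfl (by positivity)
  obtain ⟨N3, hN3⟩ := exists_nat_gt (3 / c.η)
  refine ⟨max N1 (max N2 N3), fun R er eT eM hN V _ _ x P _ hx mi ε ε0 hε i hi hmi lo hi' j hj a0
    ha0 => ?_⟩
  have n1 : N1 ≤ R.N := (le_max_left _ _).trans hN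
  have n2 : N2 ≤ R.N := ((le_max_left _ _).trans (le_max_right _ _)).trans hN
  have n3 : (N3 : ℝ) ≤ R.N := by
    exact_mod_cast ((le_max_right _ _).trans (le_max_right _ _)).trans hN
  have N0 : 0 < R.N := by omega
  have Nr0 : (0 : ℝ) < R.N := by exact_mod_cast N0
  have hη : 3 / (R.N : ℝ) ≤ c.η := by
    have h1 := hN3.le.trans n3
    rw [div_le_iff₀ h.ok.η0] at h1
    rw [div_le_iff₀ Nr0]
    linarith
  have hrel : e.Rel R m := h.rel.congr eT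
  obtain ⟨l, hl, θ, z, cc, a, b, hp⟩ := h.ok.place he hrel h.qok h.qrel h.nc h.cA
    (by rw [eM]; exact h.hm) hi hj lo hi' ε0 hε hη
  have cs := hC R eM eT er n1
  have hlt : 0 ≤ sgE c.A l θ z := sgE_nonneg h.ok hp.pl
  have D1 : ({a0} : Finset V).card ≤ 1 := by rw [Finset.card_singleton]
  have hD : ({a0} : Finset V).card ≤ 2 := D1.trans (by norm_num)
  have z0 := hp.pl.z0
  have hτ := hp.pl.hτ
  have hh0 : ∀ r ∈ Icc (0 : ℝ) (cb R.N i), ∀ v ∈ Icc (0 : ℝ) XM, Z.rr v r ≤ d0.R (r + z) v :=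
    fun r hr v hv => hz0 z r v z0 hr.1 (by linarith [hr.2]) hv
  have hh1 : ∀ r ∈ Icc (0 : ℝ) (cb R.N i), ∀ v ∈ Icc (0 : ℝ) XM, Z.rr v r ≤ c.d.R (r + z) v :=
    fun r hr v hv => hz z r v z0 hr.1 (by linarith [hr.2]) hv
  have W := hw.wrl (σ := sgE c.A l θ z) hZ hx a0 hp.pl.τ1 (by rw [h.ok.hN.t0]; exact z0) hτ.le hh1
    (skE c.A l θ z)
  have W0 : ∀ b, P b → b ≠ a0 → _ := fun b hb hba =>
    hw.w0 (α := ca R.N i) (σ := sgE c.A l θ z) hZ hx (ca_nonneg _ _) hlt (sgE_le h.ok hp.pl)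
      hp.pl.τ1 (by rw [h.ok.hN.t0]; exact z0) hτ.le (by linarith) (by linarith) hh0 hb hba
  rw [hp.sE] at W0
  have W' := W
  rw [h.ct, h.cn, h.cd] at W'
  have hw := hp.djW he h.qok h.qrel h.tie h.hRR h.hWW W' (Or.inr D1) hZ
  rw [← h.ct, ← h.cn] at hw
  obtain ⟨b0, bc, kbc⟩ := hM R ε i j l θ z cc a b eT hp _ rfl _ rfl
  have hpab : e.nd l cc < e.nd (l + 1) cc := by rw [← hp.a1, ← hp.b1]; exact hp.ab
  have hpa : e.nd l cc ≤ cb R.N j := by rw [← hp.a1, ← hp.sj]; exact hp.h1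
  have hpb : cb R.N j ≤ e.nd (l + 1) cc := by rw [← hp.b1, ← hp.sj]; exact hp.h2
  have tz : max 0 (sgm (sgN R.N) ε i j) + cc * (e.W / 2 ^ 24)
      ∈ Icc (0 : ℝ) ((e.T : ℝ) / 2 ^ 24) := by
    rw [← hp.zW]
    refine ⟨add_nonneg hp.pl.ρ0 hp.pl.z0, ?_⟩
    rw [hp.hz]
    linarith [hp.pl.ρτ]
  have hnc := Ehk.djnc (xr := xs) hP hc hl hp.c0 hp.c1 hpab hpa hpb tz
  rw [← hp.a1, ← hp.b1] at hnc
  have hs := hp.sE.trans hp.sj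
  refine h.ok.wstT hp.pl hp.sE ε0 N0 W W0 hZ hk hw b0 bc kbc ?_ hnc
    (fun d hd hPd => fps_star hx hd hPd) fun t ht hti s hs' hact => ?_
  · rw [hs]
    exact ⟨fun p hp => le_rfl, fun p hp => le_rfl, fun p hp => le_rfl⟩
  · have key := hR R er n2 hrel VV α cs ε i j l (max 0 (sgm (sgN R.N) ε i j)) hp.plc
      hp.pl.ρ0 (by rw [← hp.sj]; exact hp.ρσ) (by rw [← hp.sj]; exact hp.ρN) t ht hti s hs' hact
      xs
    have e1 : e.cz R m (zs R m i) = cc := hp.hcc.symm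
    rw [e1, ← hp.a1, ← hp.b1] at key
    rw [hmi]
    exact ⟨fun p hu => (key p hu).1, fun p hu => (key p hu).2⟩

end star

end Pool.Agent.RZ.RCO
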