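import Pool.Agent.RZ.RCO.Gg7

/-! The tables of a cell from its data: short forms (MP_73ccd0_lc). -/

set_option autoImplicit false

namespace Pool.Agent.RZ.RCO

open Sg Set

/-! ### finitely many ends -/

theorem all0 {P : ℕ → Prop} : ∀ l, 0 < l → l ≤ 0 → P l := fun l h h' => by omega

/-- one more end -/
theorem allS {P : ℕ → Prop} {n : ℕ} (h : ∀ l, 0 < l → l ≤ n → P l) (h1 : P (n + 1)) :
    ∀ l, 0 < l → l ≤ n + 1 → P l := fun l a b => by
  rcases (show l ≤ n ∨ l = n + 1 by omega) with e | e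
  · exact h l a e
  · rw [e]
    exact h1

theorem low0 {P : ℕ → Prop} : ∀ l < 0, P l := fun l h => by omega

theorem lowS {P : ℕ → Prop} {n : ℕ} (h : ∀ l < n, P l) (h1 : P n) : ∀ l < n + 1, P l :=
    fun l a => by
  rcases (show l < n ∨ l = n by omega) with e | e
  · exact h l e
  · rw [e]
    exact h1

theorem nbr0 {P : ℕ → Prop} : ∀ l, 0 < l → l < 1 → P l := fun l h h' => by omega

/-- one more pair of neighbours -/
theorem nbrS {P : ℕ → Prop} {n : ℕ} (h : ∀ l, 0 < l → l < n → P l) (h1 : P n) :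
    ∀ l, 0 < l → l < n + 1 → P l := fun l a b => by
  rcases (show l < n ∨ l = n by omega) with e | e
  · exact h l a e
  · rw [e]
    exact h1

namespace Cr

variable {F : Cr} {c : Cdc}

/-- **level 0 and level 1/2 of the pairs** -/
theorem w012 {x0 : Tp0} (hf : Fit x0 F.x) (hO0 : x0.ok = true) (hE0 : x0.okE c.D c.n = true)
    (hO : F.x.okT = true) (hE : F.x.okE c.D c.n = true) (hn : 0 < c.n)
    (hS0 : ∀ j < c.n, x0.sheet.At c.D x0.R j) (hS : ∀ j < c.n, F.x.sheet.At c.D F.x.R j)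
    (h1 : Tp12.weq (F.x.b.wv F.l1) w1F = true) :
    W012 FF26 26 ft26 (F.t c) c.n (x0.t0 c.D c.n) (F.d c (x0.Nr c.D c.n) fun _ _ => 0) F.l1 := by
  have h := w012_of hf hO0 hE0 hO hE hn hS0 hS F.l1 h1
  rw [← hf.R, ← hf.iH] at h
  exact h

end Cr

end Pool.Agent.RZ.RCO
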