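import Pool.Agent.RZ.RCO.EdG
import Pool.Agent.RZ.RCO.Gg9
import Pool.Agent.RZ.RCO.Hz1
import Pool.Agent.RZ.RCO.St9

/-! Route P: the worlds of a big cell from the records and the data of its tables
(MP_73ccd0_lc). -/

set_option autoImplicit false
set_option linter.unusedSectionVars false

namespace Pool.Agent.RZ.RCO

open Set Finset MeasureTheory Pool.Agent.RZ.RCRSHalf Pool.Agent.RZ.RCG Pool.Agent.RZ.RCG.Ct
open Pool.Agent.RZ.RCN Pool.Agent.RZ.RCN.K Pool.Agent.RZ.RCM9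

/-! ### level 0 and level 1/2 -/

/-- **the records of level 0, of level 1/2 and of the hazard line**, pairs -/
structure Ab0 (x0 : Tp0) (x : Tp12) (xh : Hz1) : Prop where
  fit : Fit x0 x
  ok0 : x0.ok = true
  okx : x.okT = true
  okh : xh.okT = true
  hR : xh.R = x0.R
  hH : xh.iH = x0.iH
  hRR : xh.RR = x0.RR

/-- **their data** -/
structure Ab1 (x0 : Tp0) (x : Tp12) (xh : Hz1) (D n : ℕ) : Prop where
  hS : ∀ j < n, (x0.sheet.app (x.sheet.app xh.sheet)).At D x0.R j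
  e0 : x0.okE D n = true
  ex : x.okE D n = true
  eh : xh.okE D n = true

section lev

variable {x0 : Tp0} {x : Tp12} {xh : Hz1} {D n : ℕ}

theorem Ab1.s0 (h : Ab1 x0 x xh D n) : ∀ j < n, x0.sheet.At D x0.R j := fun j hj =>
  (h.hS j hj).left

theorem Ab1.sx (h0 : Ab0 x0 x xh) (h : Ab1 x0 x xh D n) : ∀ j < n, x.sheet.At D x.R j :=
  fun j hj => by
    rw [h0.fit.R]
    exact (h.hS j hj).right.left

theorem Ab1.sh (h0 : Ab0 x0 x xh) (h : Ab1 x0 x xh D n) : ∀ j < n, xh.sheet.At D xh.R j :=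
  fun j hj => by
    rw [h0.hR]
    exact (h.hS j hj).right.right

/-- the hazard is below the rates of level 0 -/
theorem Ab1.hz (h0 : Ab0 x0 x xh) (h : Ab1 x0 x xh D n) (hn : 0 < n) (δ r v : ℝ) (hδ : 0 ≤ δ)
    (hr : 0 ≤ r) (h1 : r + δ ≤ tmD D x0.R x0.iH n) (hv : v ∈ Icc (0 : ℝ) XM) :
    CertH.z.hz.rr v r ≤ (x0.t0 D n).R (r + δ) v := by
  have hm : Msh (tmD D xh.R xh.iH) n := by
    rw [h0.hR, h0.hH]
    exact Tp0.msh h.s0
  have := Hz1.rr_le h0.okh h.eh hn hm (h.sh h0) hδ hr (by rw [h0.hR, h0.hH]; exact h1) hv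
  rw [h0.hR, h0.hH, h0.hRR] at this
  exact this

end lev

/-! ### pairs -/

section pair

variable {F : Cr} {c : Cdc} {r : Crk} {ek : Cdk} {x0 : Tp0} {xh : Hz1} {R0 : RT.Tab} {m : ℕ}
  {e : Ec0} {q : Dj} {u u' : EhN} {nh nf g g' : ℕ} {tn tn' : ℕ → ℤ} {i0 i1 i2 iW nW : ℕ}

/-- the times of the ends -/
theorem cA_of {E : ℕ} (hq : q.rel e = true) (ht : ∀ j ≤ q.n, q.t j = tmD E F.x.R F.x.iH j)
    (hK : ∀ l ≤ q.nc, q.K l ≤ q.n) (hE : c.D = E) (hnc : c.nc = e.n)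
    (ha : ∀ l ≤ c.nc, c.a l = q.K l) : ∀ l ≤ c.nc, F.A c l = (e.A l : ℝ) / 2 ^ 24 :=
  fun l hl => by
    obtain ⟨r1, -, r3⟩ := Dj.rel_of hq
    have hl' : l ≤ q.nc := by rw [r1, ← hnc]; exact hl
    have e1 : F.A c l = q.t (q.K l) := by
      rw [ht _ (hK l hl')]
      show tmD c.D F.x.R F.x.iH (c.a l) = _
      rw [ha l hl, hE]
    rw [e1, r3 l hl']

/-- **the pair worlds of a big cell from its records and data** -/
theorem pair_cell (hF : F.Ok) (hd : F.Dat c) (hrC : r.OkC F) (hrR : r.OkR F)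
    (hdC : Crk.DatC F c r ek) (hdR : Crk.DatR F c r ek) (h0 : Ab0 x0 F.x xh)
    (h1 : Ab1 x0 F.x xh c.D c.n) (hm : m < R0.M) (hT : ∀ m < R0.M, 0 < m → 0 < R0.T m)
    (hrel : e.Rel R0 m) (hqo : q.ok = true) (hqr : q.rel e = true)
    (hti : q.tie 2048 c.D F.x.R F.x.iH i0 i1 i2 iW nW = true)
    (hRR : F.x.b.RR = [Sg.lr F.x.R i0, Sg.lr F.x.R i1, Sg.lr F.x.R i2])
    (hWW : F.x.b.W = Sg.plr F.x.R 0 iW nW) (hnc : c.nc = e.n) (hn : c.n = q.n)
    (ha : ∀ l ≤ c.nc, c.a l = q.K l) (hP : PCel (F.xc c r ek u) (F.xr c r ek u') e q nh nf R0.r m)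
    (hc : (F.xc c r ek u).nck false e nh nf g tn = true)
    (hr : (F.xr c r ek u').nck false e nh nf g' tn' = true) : PairW CertH.z.hz R0 m := by
  have n0 := hd.a_pos
  have hw := Cr.w012 (F := F) (c := c) h0.fit h0.ok0 h1.e0 h0.okx h1.ex n0 h1.s0 (h1.sx h0) hF.w1
  obtain ⟨η, η0, hk⟩ := Cr.cel_ok hF hd hw.r
  have hq := Dj.ok_of hqo
  have tie := Dj.tie_of hti
  have eok : e.Ok := Ec0.ok_of hP.c.ok.qo
  have hb : Cbd R0 m F.x c.D (x0.Nr c.D c.n) (fun _ _ => 0)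
      (F.cel hF c (x0.Nr c.D c.n) (fun _ _ => 0) η) e q 2048 i0 i1 i2 iW nW := {
    hm := hm
    hT := hT
    ok := hk
    nc := hnc
    cA := cA_of hqr tie.tt (fun l hl => hq.K_le hl) rfl hnc ha
    eok := eok
    rel := hrel
    qok := hq
    qrel := hqr
    ct := rfl
    cn := hn
    cd := by rw [← hn]; rfl
    tie := tie
    hRR := hRR
    hWW := hWW }
  refine hb.pairW CertH.hzok (Crk.okc hF hd hrC hdC _ _ η) (Crk.okr hF hd hrR hdR _ _ η) hw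
    (fun δ r v hδ hr' h3 hv => h1.hz h0 n0 δ r v hδ hr' ?_ hv) hP hc hr
    (Cr.matP hF _ _ η R0 m e q nh nf u')
  have e1 : F.t c c.n = tmD c.D x0.R x0.iH c.n := by
    show tmD c.D F.x.R F.x.iH c.n = _
    rw [h0.fit.R, h0.fit.iH]
  exact h3.trans (le_of_eq e1)

end pair

/-! ### stars -/

/-- **the records of level 0, of level 1/2 and of the hazard line**, stars -/
structure As0 (s : Ts0) (x : Tp12) (xh : Hz1) : Prop where
  fit : Ts0.Fit s x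
  okx : x.okT = true
  okh : xh.okT = true
  hR : xh.R = s.R
  hH : xh.iH = s.iH
  hRR : xh.RR = x.b.RR

/-- **their data**; `x0`, `D` level 0 of the pairs -/
structure As1 (x0 : Tp0) (D : ℕ) (s : Ts0) (x : Tp12) (xh : Hz1) (D' n : ℕ) : Prop where
  hS : ∀ j < n, (x.sheet.app xh.sheet).At D' s.R j
  sk : sOk x0 D s D' n = true
  ex : x.okE D' n = true
  eh : xh.okE D' n = true

section star

variable {F : Cr} {c : Cdc} {r : Crk} {ek : Cdk} {x0 : Tp0} {x : Tp12} {xh : Hz1} {D : ℕ}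
  {s : Ts0} {xs : Hz1} {R0 : RT.Tab} {m : ℕ}
  {e : Ec0} {q : Dj} {u : EhN} {nh nf g : ℕ} {tn : ℕ → ℤ} {kk i0 i1 i2 iW nW : ℕ}

theorem As1.sx (h0 : As0 s F.x xs) (h : As1 x0 D s F.x xs c.D c.n) :
    ∀ j < c.n, F.x.sheet.At c.D F.x.R j := fun j hj => by
  rw [h0.fit.R]
  exact (h.hS j hj).left

theorem As1.sh (h0 : As0 s F.x xs) (h : As1 x0 D s F.x xs c.D c.n) :
    ∀ j < c.n, xs.sheet.At c.D xs.R j := fun j hj => by
  rw [h0.hR]
  exact (h.hS j hj).right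

/-- the hazard is below the rates of level 1/2 of the star -/
theorem As1.hz (h0 : As0 s F.x xs) (h : As1 x0 D s F.x xs c.D c.n) (hn : 0 < c.n) (δ r v : ℝ)
    (hδ : 0 ≤ δ) (hr : 0 ≤ r) (h1 : r + δ ≤ F.t c c.n) (hv : v ∈ Icc (0 : ℝ) XM)
    (Nr : ℝ → Pt → ℝ) (Np : ℝ → ℝ → ℝ) :
    CertH.z.hz.rr v r ≤ (F.d c Nr Np).R (r + δ) v := by
  have eR : xs.R = F.x.R := h0.hR.trans h0.fit.R.symm
  have eH : xs.iH = F.x.iH := h0.hH.trans h0.fit.iH.symm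
  have hm : Msh (tmD c.D xs.R xs.iH) c.n := by
    rw [eR, eH]
    exact Tp12.msh (h.sx h0)
  have := Hz1.rr_le h0.okh h.eh hn hm (h.sh h0) hδ hr (by rw [eR, eH]; exact h1) hv
  rw [eR, eH, h0.hRR] at this
  exact this

/-- **the star worlds of a big cell from its records and data** -/
theorem star_cell (hF : F.Ok) (hd : F.Dat c) (hrC : r.OkC F) (hdC : Crk.DatC F c r ek)
    (h0 : Ab0 x0 x xh) (h1 : Ab1 x0 x xh D c.n) (k0 : As0 s F.x xs)
    (k1 : As1 x0 D s F.x xs c.D c.n) (hm : m < R0.M) (hT : ∀ m < R0.M, 0 < m → 0 < R0.T m)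
    (hrel : e.Rel R0 m) (hqo : q.ok = true) (hqr : q.rel e = true)
    (hti : q.tie kk c.D F.x.R F.x.iH i0 i1 i2 iW nW = true)
    (hRR : F.x.b.RR = [Sg.lr F.x.R i0, Sg.lr F.x.R i1, Sg.lr F.x.R i2])
    (hWW : F.x.b.W = Sg.plr F.x.R 0 iW nW) (hnc : c.nc = e.n) (hn : c.n = q.n)
    (ha : ∀ l ≤ c.nc, c.a l = q.K l)
    (hP : HCel (F.xc c r ek u) e true q nh nf (R0.r RT.kSL m) (R0.r RT.kSF m) m)
    (hc : (F.xc c r ek u).nck true e nh nf g tn = true) : StarW CertH.z.hz R0 m := by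
  have n0 := hd.a_pos
  have hw := Ts0.ws12_of h0.ok0 h1.e0 h1.s0 k1.sk k0.fit k0.okx k1.ex n0 (k1.sx k0) F.l1 hF.w1
  have e1 : tmD c.D s.R s.iH = F.t c := by
    show _ = tmD c.D F.x.R F.x.iH
    rw [k0.fit.R, k0.fit.iH]
  have et : F.t c c.n = tmD D x0.R x0.iH c.n := by
    rw [← e1]
    exact (tmD_congr (SOk.of k1.sk).m _ le_rfl).symm
  rw [e1] at hw
  obtain ⟨η, η0, hk⟩ := Cr.cel_ok hF hd hw.r
  have hq := Dj.ok_of hqo
  have tie := Dj.tie_of hti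
  have eok : e.Ok := Ec0.ok_of hP.ok.qo
  have hb : Cbd R0 m F.x c.D (s.Nr c.D c.n) (fun _ _ => 0)
      (F.cel hF c (s.Nr c.D c.n) (fun _ _ => 0) η) e q kk i0 i1 i2 iW nW := {
    hm := hm
    hT := hT
    ok := hk
    nc := hnc
    cA := cA_of hqr tie.tt (fun l hl => hq.K_le hl) rfl hnc ha
    eok := eok
    rel := hrel
    qok := hq
    qrel := hqr
    ct := rfl
    cn := hn
    cd := by rw [← hn]; rfl
    tie := tie
    hRR := hRR
    hWW := hWW }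
  refine hb.starW CertH.hzok (Crk.okc hF hd hrC hdC _ _ η) hw (tmD_zero _ _ _).le (le_of_eq et)
    (fun δ r v hδ hr' h3 hv => h1.hz h0 n0 δ r v hδ hr' (h3.trans (le_of_eq et)) hv)
    (fun δ r v hδ hr' h3 hv => k1.hz k0 n0 δ r v hδ hr' h3 hv _ _) hP hc
    (Cr.matS hF _ _ η R0 m e q nh nf)

end star

end Pool.Agent.RZ.RCO
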