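import Pool.Agent.RZ.RCO.Eg3

/-! Route P: the comparison of the ends of the tables with the table of the rows, on integers
(MP_73ccd0_lc). -/

set_option autoImplicit false

namespace Pool.Agent.RZ.RCO

open Set Finset

/-- the interpolation on the unit interval -/
def ip (c a b : ℝ) : ℝ := (1 - c) * a + c * b

theorem ip_pos {c a b : ℝ} (c0 : 0 ≤ c) (c1 : c ≤ 1) (h0 : 0 < a) (h1 : 0 < b) :
    0 < ip c a b := by
  unfold ip
  rcases eq_or_lt_of_le c0 with h | h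
  · rw [← h]
    linarith
  · have := mul_pos h h1
    have := mul_nonneg (sub_nonneg.2 c1) h0.le
    linarith

theorem ip_neg {c a b : ℝ} (c0 : 0 ≤ c) (c1 : c ≤ 1) (h0 : a < 0) (h1 : b < 0) :
    ip c a b < 0 := by
  have h := ip_pos c0 c1 (neg_pos.2 h0) (neg_pos.2 h1)
  unfold ip at h ⊢
  linarith

/-! ### the polynomial checks -/

/-- quadratic against linear times linear -/
def ch1 (K L0 L1 L2 d0 d1 s0 s1 : ℤ) : Bool :=
  decide (2 ^ 20 * L0 ≤ K * (d0 * s0)) && (decide (2 ^ 20 * L1 ≤ K * (d0 * s1 + d1 * s0)) &&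
    decide (2 ^ 20 * L2 ≤ K * (d1 * s1)))

/-- quadratic against linear times quadratic -/
def ch2 (K S L0 L1 L2 d0 d1 s0 s1 : ℤ) : Bool :=
  decide (2 ^ 44 * (S * L0) ≤ K * (d0 * (s0 * s0))) && (decide (2 ^ 44 * (S * (L0 + L1))
    ≤ K * (2 * (d0 * (s0 * s1)) + d1 * (s0 * s0))) && (decide (2 ^ 44 * (S * (L1 + L2))
    ≤ K * (d0 * (s1 * s1) + 2 * (d1 * (s0 * s1)))) && decide (2 ^ 44 * (S * L2)
    ≤ K * (d1 * (s1 * s1)))))

theorem ch1_ok {K L0 L1 L2 d0 d1 s0 s1 : ℤ} (h : ch1 K L0 L1 L2 d0 d1 s0 s1 = true) {c : ℝ}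
    (c0 : 0 ≤ c) (c1 : c ≤ 1) :
    2 ^ 20 * ((L0 : ℝ) * (1 - c) ^ 2 + L1 * (c * (1 - c)) + L2 * c ^ 2)
      ≤ K * (ip c d0 d1 * ip c s0 s1) := by
  unfold ch1 at h
  simp only [Bool.and_eq_true, decide_eq_true_eq] at h
  obtain ⟨h0, h1, h2⟩ := h
  have h0' : (2 : ℝ) ^ 20 * L0 ≤ K * (d0 * s0) := by exact_mod_cast h0
  have h1' : (2 : ℝ) ^ 20 * L1 ≤ K * (d0 * s1 + d1 * s0) := by exact_mod_cast h1
  have h2' : (2 : ℝ) ^ 20 * L2 ≤ K * (d1 * s1) := by exact_mod_cast h2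
  have e : 0 ≤ 1 - c := sub_nonneg.2 c1
  have k0 := mul_le_mul_of_nonneg_left h0' (sq_nonneg (1 - c))
  have k1 := mul_le_mul_of_nonneg_left h1' (mul_nonneg c0 e)
  have k2 := mul_le_mul_of_nonneg_left h2' (sq_nonneg c)
  have := add_le_add (add_le_add k0 k1) k2
  unfold ip
  refine le_trans (le_of_eq ?_) (this.trans (le_of_eq ?_))
  · ring
  · ring

theorem ch2_ok {K S L0 L1 L2 d0 d1 s0 s1 : ℤ} (h : ch2 K S L0 L1 L2 d0 d1 s0 s1 = true) {c : ℝ}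
    (c0 : 0 ≤ c) (c1 : c ≤ 1) :
    2 ^ 44 * (S * ((L0 : ℝ) * (1 - c) ^ 2 + L1 * (c * (1 - c)) + L2 * c ^ 2))
      ≤ K * (ip c d0 d1 * ip c s0 s1 ^ 2) := by
  unfold ch2 at h
  simp only [Bool.and_eq_true, decide_eq_true_eq] at h
  obtain ⟨h0, h1, h2, h3⟩ := h
  have h0' : (2 : ℝ) ^ 44 * (S * L0) ≤ K * (d0 * (s0 * s0)) := by exact_mod_cast h0
  have h1' : (2 : ℝ) ^ 44 * (S * (L0 + L1)) ≤ K * (2 * (d0 * (s0 * s1)) + d1 * (s0 * s0)) := by
    exact_mod_cast h1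
  have h2' : (2 : ℝ) ^ 44 * (S * (L1 + L2))
      ≤ K * (d0 * (s1 * s1) + 2 * (d1 * (s0 * s1))) := by exact_mod_cast h2
  have h3' : (2 : ℝ) ^ 44 * (S * L2) ≤ K * (d1 * (s1 * s1)) := by exact_mod_cast h3
  have e : 0 ≤ 1 - c := sub_nonneg.2 c1
  have k0 := mul_le_mul_of_nonneg_left h0' (pow_nonneg e 3)
  have k1 := mul_le_mul_of_nonneg_left h1' (mul_nonneg c0 (sq_nonneg (1 - c)))
  have k2 := mul_le_mul_of_nonneg_left h2' (mul_nonneg (sq_nonneg c) e)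
  have k3 := mul_le_mul_of_nonneg_left h3' (pow_nonneg c0 3)
  have := add_le_add (add_le_add (add_le_add k0 k1) k2) k3
  unfold ip
  refine le_trans (le_of_eq ?_) (this.trans (le_of_eq ?_))
  · ring
  · ring

/-- one of the two; `true`: the power two; the data of both are multiplied by `S` -/
def chE (e : Bool) (K S L0 L1 L2 d0 d1 s0 s1 : ℤ) : Bool :=
  bif e then ch2 K S L0 L1 L2 d0 d1 s0 s1 else ch1 K L0 L1 L2 d0 d1 s0 s1

/-! ### pieces of the unit interval -/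

/-- eight times the value at `i / 8` -/
def z8 (i x0 x1 : ℤ) : ℤ := (8 - i) * x0 + i * x1

theorem z8_ip (i x0 x1 : ℤ) (c : ℝ) :
    ip (8 * c - i) (z8 i x0 x1 : ℤ) (z8 (i + 1) x0 x1 : ℤ) = 8 * ip c x0 x1 := by
  unfold ip z8
  push_cast
  ring

/-- every point is in a piece -/
theorem piece {c : ℝ} (c0 : 0 ≤ c) (c1 : c ≤ 1) :
    ∃ i : ℕ, i < 8 ∧ (0 : ℝ) ≤ 8 * c - i ∧ 8 * c - i ≤ 1 := by
  rcases lt_or_eq_of_le c1 with h | h
  · refine ⟨⌊8 * c⌋₊, ?_, ?_, ?_⟩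
    · exact (Nat.floor_lt (by linarith)).2 (by norm_num; linarith)
    · have := Nat.floor_le (by linarith : (0 : ℝ) ≤ 8 * c)
      linarith
    · have := Nat.lt_floor_add_one (8 * c)
      linarith
  · refine ⟨7, by norm_num, ?_, ?_⟩
    · rw [h]; norm_num
    · rw [h]; norm_num

/-- the exponent -/
def ex2 (e : Bool) : ℕ := bif e then 2 else 1

/-! ### the data of a big cell -/

/-- the integers of a big cell: end and width `T`, `W`, coarse nodes `A`, shift `s`, all over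
`2 ^ 24` -/
structure Ec0 where
  n : ℕ
  T : ℤ
  W : ℤ
  A : ℕ → ℤ
  s : ℤ

namespace Ec0

variable (q : Ec0)

/-- the coarse nodes shifted by the width -/
def a1 (l : ℕ) : ℤ := if l = 0 then 0 else q.A l - q.W

/-- the coarse node `l` with the shift `c W` -/
noncomputable def nd (l : ℕ) (c : ℝ) : ℝ := ip c (q.A l) (q.a1 l) / 2 ^ 24

/-- the end with the shift `c W` -/
noncomputable def tt (c : ℝ) : ℝ := ip c q.T ((q.T - q.W : ℤ) : ℝ) / 2 ^ 24

/-- the end with the shift `c W`, increased by `s` -/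
noncomputable def ts (c : ℝ) : ℝ := ip c ((q.T + q.s : ℤ) : ℝ) ((q.T - q.W + q.s : ℤ) : ℝ) / 2 ^ 24

/-- the format -/
def ok : Bool := decide (0 < q.n) && decide (0 < q.T) && decide (q.T ≤ 2 ^ 25)
  && decide (q.W ≤ q.T) && decide (0 < q.W) && decide (0 ≤ q.s) && decide (q.A 0 = 0)
  && decide (q.A q.n = q.T) && decide (q.W ≤ q.A 1)
  && (List.range q.n).all fun l => decide (q.A l < q.A (l + 1))

/-- the line at a node on a piece: all numbers are eight times the values at its ends -/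
def cAp (e : Bool) (D0 D1 t0 t1 m0 m1 p0 p1 v s0 s1 : ℤ) : Bool :=
  (decide (t0 < 0) && decide (t1 < 0)) || ((decide (10 * D0 < t0) && decide (10 * D1 < t1)) ||
    chE e 500 8 ((10 * D0 - t0) * (m0 + 8) + t0 * (p0 + 8))
      ((10 * D0 - t0) * (m1 + 8) + (10 * D1 - t1) * (m0 + 8) + t0 * (p1 + 8) + t1 * (p0 + 8))
      ((10 * D1 - t1) * (m1 + 8) + t1 * (p1 + 8)) (v * D0) (v * D1) s0 s1)

/-- the line at the node `j` in the coarse cell `l` -/
def cA (e : Bool) (m0 m1 p0 p1 v : ℤ) (l j : ℕ) : Bool :=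
  let D0 := q.A (l + 1) - q.A l
  let D1 := q.a1 (l + 1) - q.a1 l
  let t0 := j * q.T - 10 * q.A l
  let t1 := j * (q.T - q.W) - 10 * q.a1 l
  let s0 := q.T + q.s
  let s1 := q.T - q.W + q.s
  (List.range 8).all fun i : ℕ => cAp e (z8 i D0 D1) (z8 (i + 1) D0 D1) (z8 i t0 t1)
    (z8 (i + 1) t0 t1) (z8 i m0 m1) (z8 (i + 1) m0 m1) (z8 i p0 p1) (z8 (i + 1) p0 p1) v
    (z8 i s0 s1) (z8 (i + 1) s0 s1)

/-- the line at a coarse node on a piece -/
def cBp (e : Bool) (T0 T1 f0 f1 g0 g1 b0 b1 v v' s0 s1 : ℤ) : Bool :=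
  (decide (f0 < 0) && decide (f1 < 0)) || ((decide (g0 < 0) && decide (g1 < 0)) ||
    chE e 50 8 (T0 * (b0 + 8)) (T0 * (b1 + 8) + T1 * (b0 + 8)) (T1 * (b1 + 8))
      (g0 * v + f0 * v') (g1 * v + f1 * v') s0 s1)

/-- the line at the coarse node `l` between the nodes `j` and `j + 1` -/
def cB (e : Bool) (b0 b1 v v' : ℤ) (l j : ℕ) : Bool :=
  let f0 := 10 * q.A l - j * q.T
  let f1 := 10 * q.a1 l - j * (q.T - q.W)
  let g0 := (j + 1) * q.T - 10 * q.A l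
  let g1 := (j + 1) * (q.T - q.W) - 10 * q.a1 l
  let s0 := q.T + q.s
  let s1 := q.T - q.W + q.s
  (List.range 8).all fun i : ℕ => cBp e (z8 i q.T (q.T - q.W)) (z8 (i + 1) q.T (q.T - q.W))
    (z8 i f0 f1) (z8 (i + 1) f0 f1) (z8 i g0 g1) (z8 (i + 1) g0 g1) (z8 i b0 b1)
    (z8 (i + 1) b0 b1) v v' (z8 i s0 s1) (z8 (i + 1) s0 s1)

variable {q}

theorem ts_eq (c : ℝ) : q.ts c = q.tt c + q.s / 2 ^ 24 := by
  unfold ts tt ip
  push_cast
  ring

theorem cA_ok {e : Bool} {m0 m1 p0 p1 v : ℤ} {l j : ℕ} (h : q.cA e m0 m1 p0 p1 v l j = true)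
    {c : ℝ} (c0 : 0 ≤ c) (c1 : c ≤ 1) (hD : q.nd l c < q.nd (l + 1) c)
    (_ : q.nd (l + 1) c - q.nd l c ≤ 2)
    (h1 : q.nd l c ≤ xj j * q.tt c) (h2 : xj j * q.tt c ≤ q.nd (l + 1) c) :
    li (q.nd l c) (q.nd (l + 1) c) (ip c m0 m1 / (50 * 2 ^ 24)) (ip c p0 p1 / (50 * 2 ^ 24))
      (xj j * q.tt c) + 1 / 2 ^ 31 ≤ q.ts c ^ ex2 e * (v / 2 ^ 20) := by
  unfold cA at h
  set D0 : ℤ := q.A (l + 1) - q.A l with hD0
  set D1 : ℤ := q.a1 (l + 1) - q.a1 l with hD1'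
  set t0 : ℤ := j * q.T - 10 * q.A l with ht0
  set t1 : ℤ := j * (q.T - q.W) - 10 * q.a1 l with ht1
  set s0 : ℤ := q.T + q.s with hs0
  set s1 : ℤ := q.T - q.W + q.s with hs1
  simp only [List.all_eq_true, List.mem_range] at h
  obtain ⟨i, hi, g0, g1⟩ := piece c0 c1
  have key := h i hi
  clear h
  obtain ⟨d, hd⟩ : ∃ d : ℝ, d = 8 * c - i := ⟨_, rfl⟩
  rw [← hd] at g0 g1
  have zz : ∀ x0 x1 : ℤ, ip d (z8 i x0 x1 : ℤ) (z8 (i + 1) x0 x1 : ℤ) = 8 * ip c x0 x1 :=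
    fun x0 x1 => by
      rw [hd]
      have := z8_ip (i : ℤ) x0 x1 c
      push_cast at this ⊢
      exact this
  have eD : q.nd (l + 1) c - q.nd l c = ip c D0 D1 / 2 ^ 24 := by
    unfold nd ip
    rw [hD0, hD1']
    push_cast
    ring
  have eT : xj j * q.tt c - q.nd l c = ip c t0 t1 / (10 * 2 ^ 24) := by
    unfold nd tt ip xj
    rw [ht0, ht1]
    push_cast
    ring
  have eS : q.ts c = ip c s0 s1 / 2 ^ 24 := by
    unfold ts
    rw [hs0, hs1]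
  have zD := zz D0 D1
  have zt := zz t0 t1
  have zm := zz m0 m1
  have zp := zz p0 p1
  have zs := zz s0 s1
  unfold cAp at key
  simp only [Bool.or_eq_true, Bool.and_eq_true, decide_eq_true_eq] at key
  obtain ⟨X0, hX0⟩ : ∃ y, y = z8 i D0 D1 := ⟨_, rfl⟩
  obtain ⟨X1, hX1⟩ : ∃ y, y = z8 (i + 1) D0 D1 := ⟨_, rfl⟩
  obtain ⟨Y0, hY0⟩ : ∃ y, y = z8 i t0 t1 := ⟨_, rfl⟩
  obtain ⟨Y1, hY1⟩ : ∃ y, y = z8 (i + 1) t0 t1 := ⟨_, rfl⟩
  obtain ⟨M0, hM0⟩ : ∃ y, y = z8 i m0 m1 := ⟨_, rfl⟩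
  obtain ⟨M1, hM1⟩ : ∃ y, y = z8 (i + 1) m0 m1 := ⟨_, rfl⟩
  obtain ⟨P0, hP0⟩ : ∃ y, y = z8 i p0 p1 := ⟨_, rfl⟩
  obtain ⟨P1, hP1⟩ : ∃ y, y = z8 (i + 1) p0 p1 := ⟨_, rfl⟩
  obtain ⟨S0, hS0⟩ : ∃ y, y = z8 i s0 s1 := ⟨_, rfl⟩
  obtain ⟨S1, hS1⟩ : ∃ y, y = z8 (i + 1) s0 s1 := ⟨_, rfl⟩
  rw [← hX0, ← hX1] at key zD
  rw [← hY0, ← hY1] at key zt
  rw [← hM0, ← hM1] at key zm
  rw [← hP0, ← hP1] at key zp
  rw [← hS0, ← hS1] at key zs
  rcases key with h | h | h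
  · exfalso
    have h3 := ip_neg g0 g1 (a := (Y0 : ℝ)) (b := (Y1 : ℝ)) (by exact_mod_cast h.1)
      (by exact_mod_cast h.2)
    rw [zt] at h3
    have h4 : ip c t0 t1 / (10 * 2 ^ 24) < 0 := div_neg_of_neg_of_pos (by linarith) (by positivity)
    linarith
  · exfalso
    have h3 := ip_pos g0 g1 (a := (Y0 : ℝ) - 10 * X0) (b := (Y1 : ℝ) - 10 * X1)
      (by have : (10 * X0 : ℝ) < Y0 := by exact_mod_cast h.1
          linarith) (by
          have : (10 * X1 : ℝ) < Y1 := by exact_mod_cast h.2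
          linarith)
    have e9 : ip d ((Y0 : ℝ) - 10 * X0) ((Y1 : ℝ) - 10 * X1)
        = 8 * (ip c t0 t1 - 10 * ip c D0 D1) := by
      have : ip d ((Y0 : ℝ) - 10 * X0) ((Y1 : ℝ) - 10 * X1)
          = ip d Y0 Y1 - 10 * ip d X0 X1 := by unfold ip; ring
      rw [this, zt, zD]
      ring
    rw [e9] at h3
    have h4 : 0 < (ip c t0 t1 - 10 * ip c D0 D1) / (10 * 2 ^ 24) :=
      div_pos (by linarith) (by positivity)
    have h5 : (ip c t0 t1 - 10 * ip c D0 D1) / (10 * 2 ^ 24)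
        = (xj j * q.tt c - q.nd l c) - (q.nd (l + 1) c - q.nd l c) := by
      rw [eT, eD]
      ring
    linarith
  · -- the polynomial check
    have Dp : 0 < q.nd (l + 1) c - q.nd l c := sub_pos.2 hD
    set Dr := q.nd (l + 1) c - q.nd l c with hDr
    set θ := xj j * q.tt c - q.nd l c with hθ
    set mr := ip c m0 m1 / (50 * 2 ^ 24) with hmr
    set pr := ip c p0 p1 / (50 * 2 ^ 24) with hpr
    have key : (Dr - θ) * (mr + 1 / (50 * 2 ^ 24)) + θ * (pr + 1 / (50 * 2 ^ 24))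
        ≤ Dr * (q.ts c ^ ex2 e * (v / 2 ^ 20)) := by
      rw [eD, eT, hmr, hpr, eS]
      have eL : (((10 * X0 - Y0) * (M0 + 8) + Y0 * (P0 + 8) : ℤ) : ℝ) * (1 - d) ^ 2
          + (((10 * X0 - Y0) * (M1 + 8) + (10 * X1 - Y1) * (M0 + 8) + Y0 * (P1 + 8)
            + Y1 * (P0 + 8) : ℤ) : ℝ) * (d * (1 - d))
          + (((10 * X1 - Y1) * (M1 + 8) + Y1 * (P1 + 8) : ℤ) : ℝ) * d ^ 2
          = (10 * ip d X0 X1 - ip d Y0 Y1) * (ip d M0 M1 + 8) + ip d Y0 Y1 * (ip d P0 P1 + 8) := by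
        unfold ip
        push_cast
        ring
      have eR : ip d ((v * X0 : ℤ) : ℝ) ((v * X1 : ℤ) : ℝ) = v * ip d X0 X1 := by
        unfold ip
        push_cast
        ring
      cases e with
      | false =>
        have k := ch1_ok h g0 g1
        rw [eL, eR, zD, zt, zm, zp, zs] at k
        unfold ex2
        simp only [cond_false, pow_one]
        have k2 := div_le_div_of_nonneg_right k
          (by positivity : (0 : ℝ) ≤ 64 * 500 * 2 ^ 20 * 2 ^ 48)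
        refine le_trans (le_of_eq ?_) (k2.trans (le_of_eq ?_))
        · ring
        · push_cast
          ring
      | true =>
        have k := ch2_ok h g0 g1
        rw [eL, eR, zD, zt, zm, zp, zs] at k
        unfold ex2
        simp only [cond_true]
        have k2 := div_le_div_of_nonneg_right k (by positivity : (0 : ℝ) ≤ 512 * 500 * 2 ^ 92)
        refine le_trans (le_of_eq ?_) (k2.trans (le_of_eq ?_))
        · push_cast
          ring
        · push_cast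
          ring
    have e1 : li (q.nd l c) (q.nd (l + 1) c) mr pr (xj j * q.tt c)
        = ((Dr - θ) * mr + θ * pr) / Dr := by
      unfold li
      rw [← hDr, ← hθ]
      field_simp
      ring
    rw [e1]
    have e2 : ((Dr - θ) * mr + θ * pr) / Dr + 1 / 2 ^ 31
        = ((Dr - θ) * mr + θ * pr + Dr * (1 / 2 ^ 31)) / Dr := by
      field_simp
    rw [e2, div_le_iff₀ Dp]
    have h5 : Dr * (1 / 2 ^ 31) ≤ Dr * (1 / (50 * 2 ^ 24)) :=
      mul_le_mul_of_nonneg_left (by norm_num) Dp.le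
    rw [mul_comm _ Dr]
    linarith

theorem cB_ok {e : Bool} {b0 b1 v v' : ℤ} {l j : ℕ} (h : q.cB e b0 b1 v v' l j = true)
    {c : ℝ} (c0 : 0 ≤ c) (c1 : c ≤ 1) (ht : 0 < q.tt c) (_ : q.tt c ≤ 2)
    (h1 : xj j * q.tt c ≤ q.nd l c) (h2 : q.nd l c ≤ xj (j + 1) * q.tt c) :
    ip c b0 b1 / (50 * 2 ^ 24) + 1 / 2 ^ 31 ≤ li (xj j * q.tt c) (xj (j + 1) * q.tt c)
      (q.ts c ^ ex2 e * (v / 2 ^ 20)) (q.ts c ^ ex2 e * (v' / 2 ^ 20)) (q.nd l c) := by
  unfold cB at h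
  set f0 : ℤ := 10 * q.A l - j * q.T with hf0
  set f1 : ℤ := 10 * q.a1 l - j * (q.T - q.W) with hf1
  set g0 : ℤ := (j + 1) * q.T - 10 * q.A l with hg0
  set g1 : ℤ := (j + 1) * (q.T - q.W) - 10 * q.a1 l with hg1
  set s0 : ℤ := q.T + q.s with hs0
  set s1 : ℤ := q.T - q.W + q.s with hs1
  simp only [List.all_eq_true, List.mem_range] at h
  obtain ⟨i, hi, w0, w1⟩ := piece c0 c1
  have key := h i hi
  clear h
  obtain ⟨d, hd⟩ : ∃ d : ℝ, d = 8 * c - i := ⟨_, rfl⟩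
  rw [← hd] at w0 w1
  have zz : ∀ x0 x1 : ℤ, ip d (z8 i x0 x1 : ℤ) (z8 (i + 1) x0 x1 : ℤ) = 8 * ip c x0 x1 :=
    fun x0 x1 => by
      rw [hd]
      have := z8_ip (i : ℤ) x0 x1 c
      push_cast at this ⊢
      exact this
  have eF : q.nd l c - xj j * q.tt c = ip c f0 f1 / (10 * 2 ^ 24) := by
    unfold nd tt ip xj
    rw [hf0, hf1]
    push_cast
    ring
  have eG : xj (j + 1) * q.tt c - q.nd l c = ip c g0 g1 / (10 * 2 ^ 24) := by
    unfold nd tt ip xj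
    rw [hg0, hg1]
    push_cast
    ring
  have eS : q.ts c = ip c s0 s1 / 2 ^ 24 := by
    unfold ts
    rw [hs0, hs1]
  have eTt : q.tt c = ip c q.T ((q.T - q.W : ℤ) : ℝ) / 2 ^ 24 := rfl
  have zf := zz f0 f1
  have zg := zz g0 g1
  have zb := zz b0 b1
  have zs := zz s0 s1
  have zT := zz q.T (q.T - q.W)
  unfold cBp at key
  simp only [Bool.or_eq_true, Bool.and_eq_true, decide_eq_true_eq] at key
  obtain ⟨X0, hX0⟩ : ∃ y, y = z8 i f0 f1 := ⟨_, rfl⟩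
  obtain ⟨X1, hX1⟩ : ∃ y, y = z8 (i + 1) f0 f1 := ⟨_, rfl⟩
  obtain ⟨Y0, hY0⟩ : ∃ y, y = z8 i g0 g1 := ⟨_, rfl⟩
  obtain ⟨Y1, hY1⟩ : ∃ y, y = z8 (i + 1) g0 g1 := ⟨_, rfl⟩
  obtain ⟨B0, hB0⟩ : ∃ y, y = z8 i b0 b1 := ⟨_, rfl⟩
  obtain ⟨B1, hB1⟩ : ∃ y, y = z8 (i + 1) b0 b1 := ⟨_, rfl⟩
  obtain ⟨S0, hS0⟩ : ∃ y, y = z8 i s0 s1 := ⟨_, rfl⟩
  obtain ⟨S1, hS1⟩ : ∃ y, y = z8 (i + 1) s0 s1 := ⟨_, rfl⟩
  obtain ⟨T0, hT0⟩ : ∃ y, y = z8 i q.T (q.T - q.W) := ⟨_, rfl⟩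
  obtain ⟨T1, hT1⟩ : ∃ y, y = z8 (i + 1) q.T (q.T - q.W) := ⟨_, rfl⟩
  rw [← hX0, ← hX1] at key zf
  rw [← hY0, ← hY1] at key zg
  rw [← hB0, ← hB1] at key zb
  rw [← hS0, ← hS1] at key zs
  rw [← hT0, ← hT1] at key zT
  rcases key with h | h | h
  · exfalso
    have h3 := ip_neg w0 w1 (a := (X0 : ℝ)) (b := (X1 : ℝ)) (by exact_mod_cast h.1)
      (by exact_mod_cast h.2)
    rw [zf] at h3
    have h4 : ip c f0 f1 / (10 * 2 ^ 24) < 0 := div_neg_of_neg_of_pos (by linarith) (by positivity)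
    linarith
  · exfalso
    have h3 := ip_neg w0 w1 (a := (Y0 : ℝ)) (b := (Y1 : ℝ)) (by exact_mod_cast h.1)
      (by exact_mod_cast h.2)
    rw [zg] at h3
    have h4 : ip c g0 g1 / (10 * 2 ^ 24) < 0 := div_neg_of_neg_of_pos (by linarith) (by positivity)
    linarith
  · set F := q.nd l c - xj j * q.tt c with hF
    set G := xj (j + 1) * q.tt c - q.nd l c with hG
    set B := ip c b0 b1 / (50 * 2 ^ 24) with hB
    have key : q.tt c * (B + 1 / (50 * 2 ^ 24)) ≤ q.ts c ^ ex2 e * ((10 * G) * (v / 2 ^ 20)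
        + (10 * F) * (v' / 2 ^ 20)) := by
      rw [eF, eG, hB, eS, eTt]
      have eL : ((T0 * (B0 + 8) : ℤ) : ℝ) * (1 - d) ^ 2
          + ((T0 * (B1 + 8) + T1 * (B0 + 8) : ℤ) : ℝ) * (d * (1 - d))
          + ((T1 * (B1 + 8) : ℤ) : ℝ) * d ^ 2 = ip d T0 T1 * (ip d B0 B1 + 8) := by
        unfold ip
        push_cast
        ring
      have eR : ip d ((Y0 * v + X0 * v' : ℤ) : ℝ) ((Y1 * v + X1 * v' : ℤ) : ℝ)
          = ip d Y0 Y1 * v + ip d X0 X1 * v' := by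
        unfold ip
        push_cast
        ring
      cases e with
      | false =>
        have k := ch1_ok h w0 w1
        rw [eL, eR, zf, zg, zb, zs, zT] at k
        unfold ex2
        simp only [cond_false, pow_one]
        have k2 := div_le_div_of_nonneg_right k
          (by positivity : (0 : ℝ) ≤ 64 * 50 * 2 ^ 20 * 2 ^ 48)
        refine le_trans (le_of_eq ?_) (k2.trans (le_of_eq ?_))
        · ring
        · push_cast
          ring
      | true =>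
        have k := ch2_ok h w0 w1
        rw [eL, eR, zf, zg, zb, zs, zT] at k
        unfold ex2
        simp only [cond_true]
        have k2 := div_le_div_of_nonneg_right k (by positivity : (0 : ℝ) ≤ 512 * 50 * 2 ^ 92)
        refine le_trans (le_of_eq ?_) (k2.trans (le_of_eq ?_))
        · push_cast
          ring
        · push_cast
          ring
    have e0 : F + G = q.tt c / 10 := by
      rw [hF, hG]
      unfold xj
      push_cast
      ring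
    set sv := q.ts c ^ ex2 e * ((v : ℝ) / 2 ^ 20) with hsv
    set sv' := q.ts c ^ ex2 e * ((v' : ℝ) / 2 ^ 20) with hsv'
    have e1 : li (xj j * q.tt c) (xj (j + 1) * q.tt c) sv sv' (q.nd l c)
        = (10 * G * sv + 10 * F * sv') / q.tt c := by
      unfold li
      rw [← hF]
      have e3 : xj (j + 1) * q.tt c - xj j * q.tt c = q.tt c / 10 := by
        unfold xj
        push_cast
        ring
      rw [e3]
      have e4 : G = q.tt c / 10 - F := by linarith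
      rw [e4]
      field_simp
      ring
    rw [e1, le_div_iff₀ ht]
    have h5 : q.tt c * (1 / 2 ^ 31) ≤ q.tt c * (1 / (50 * 2 ^ 24)) :=
      mul_le_mul_of_nonneg_left (by norm_num) ht.le
    have e5 : q.ts c ^ ex2 e * ((10 * G) * (v / 2 ^ 20) + (10 * F) * (v' / 2 ^ 20))
        = 10 * G * sv + 10 * F * sv' := by
      rw [hsv, hsv']
      ring
    rw [e5] at key
    linarith

end Ec0

end Pool.Agent.RZ.RCO
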