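import Pool.Agent.RZ.RCO.Gl1
import Pool.Agent.RZ.RCO.RT

/-! Route P: the bounds of the classes from the lines of the ends of the tables
(MP_73ccd0_lc). -/

namespace Pool.Agent.RZ.RCO

open Set Finset MeasureTheory Pool.Agent.RZ.RCRSHalf Pool.Agent.RZ.RCG Pool.Agent.RZ.RCG.Ct
set_option linter.unusedSectionVars false

/-! ### two piecewise linear functions -/

/-- an affine function between two points -/
theorem aff_lh {f0 f1 lo hi x : ℝ} (h0 : f0 + f1 * lo ≤ 0) (h1 : f0 + f1 * hi ≤ 0) (hx : lo ≤ x)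
    (hx' : x ≤ hi) : f0 + f1 * x ≤ 0 := by
  rcases le_total 0 f1 with h | h
  · have := mul_le_mul_of_nonneg_left hx' h
    linarith
  · have := mul_le_mul_of_nonpos_left hx h
    linarith

/-- the value between `a` and `b` of the linear function with the values `u`, `v` there -/
noncomputable def li (a b u v x : ℝ) : ℝ := u + (x - a) / (b - a) * (v - u)

theorem li_a (a b u v : ℝ) : li a b u v a = u := by
  unfold li
  rw [sub_self, zero_div, zero_mul, add_zero]

theorem li_b {a b : ℝ} (h : a < b) (u v : ℝ) : li a b u v b = v := by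
  unfold li
  rw [div_self (by linarith)]
  ring

theorem li_aff (a b u v : ℝ) : ∃ f0 f1 : ℝ, ∀ x, li a b u v x = f0 + f1 * x := by
  refine ⟨u - a / (b - a) * (v - u), (v - u) / (b - a), fun x => ?_⟩
  unfold li
  ring

/-- the nodes of the table -/
noncomputable def xj (j : ℕ) : ℝ := (j : ℝ) / 10

/-- **comparison of a piecewise linear function with the nodes `a l`, the values `Bm l` and `Bp l`
at the ends of the cell `l`, with the piecewise linear function of the table** -/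
theorem pl_cmp {τ : ℝ} (τ0 : 0 < τ) {n : ℕ} {a Bm Bp : ℕ → ℝ} (ha : ∀ l < n, a l < a (l + 1))
    (a0 : a 0 ≤ 0) (an : τ ≤ a n) {v : ℕ → ℝ}
    (hA : ∀ l < n, ∀ j ≤ 10, a l ≤ xj j * τ → xj j * τ ≤ a (l + 1) →
      li (a l) (a (l + 1)) (Bm l) (Bp l) (xj j * τ) ≤ v j)
    (hB : ∀ l, 0 < l → l < n → ∀ j < 10, xj j * τ ≤ a l → a l ≤ xj (j + 1) * τ →
      Bm l ≤ li (xj j * τ) (xj (j + 1) * τ) (v j) (v (j + 1)) (a l) ∧
      Bp (l - 1) ≤ li (xj j * τ) (xj (j + 1) * τ) (v j) (v (j + 1)) (a l))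
    {σ : ℝ} (hσ : σ ∈ Set.Icc 0 τ) {l : ℕ} (hl : l < n) (h1 : a l ≤ σ) (h2 : σ ≤ a (l + 1)) :
    li (a l) (a (l + 1)) (Bm l) (Bp l) σ ≤ RT.plx 10 v (σ / τ) := by
  obtain ⟨j, hj, c, c0, c1, hc⟩ := RT.cell_ex (n := 10) (by norm_num)
    (div_nonneg hσ.1 τ0.le) ((div_le_one τ0).2 hσ.2)
  rw [RT.plx_cell hj v c0 c1 hc]
  have e1 : σ = (j + c) / 10 * τ := by
    push_cast at hc
    field_simp at hc
    linarith
  have lj : xj j * τ < xj (j + 1) * τ := by
    unfold xj
    push_cast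
    nlinarith
  have s1 : xj j * τ ≤ σ := by rw [e1]; unfold xj; nlinarith
  have s2 : σ ≤ xj (j + 1) * τ := by unfold xj; push_cast; rw [e1]; nlinarith
  have e2 : (1 - c) * v j + c * v (j + 1)
      = li (xj j * τ) (xj (j + 1) * τ) (v j) (v (j + 1)) σ := by
    unfold li
    have : (σ - xj j * τ) / (xj (j + 1) * τ - xj j * τ) = c := by
      rw [e1]
      unfold xj
      push_cast
      field_simp
      ring
    rw [this]
    ring
  rw [e2]
  obtain ⟨f0, f1, hf⟩ := li_aff (a l) (a (l + 1)) (Bm l) (Bp l)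
  obtain ⟨g0, g1, hg⟩ := li_aff (xj j * τ) (xj (j + 1) * τ) (v j) (v (j + 1))
  have key : ∀ x, f0 - g0 + (f1 - g1) * x = li (a l) (a (l + 1)) (Bm l) (Bp l) x
      - li (xj j * τ) (xj (j + 1) * τ) (v j) (v (j + 1)) x := fun x => by
    rw [hf, hg]
    ring
  have main : f0 - g0 + (f1 - g1) * σ ≤ 0 := by
    refine aff_lh (lo := max (a l) (xj j * τ)) (hi := min (a (l + 1)) (xj (j + 1) * τ))
      ?_ ?_ (max_le h1 s1) (le_min h2 s2)
    · rw [key]
      rcases le_or_gt (a l) (xj j * τ) with h | h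
      · rw [max_eq_right h, li_a]
        have := hA l hl j hj.le h (s1.trans h2)
        linarith
      · rw [max_eq_left h.le, li_a]
        have l0 : 0 < l := by
          rcases Nat.eq_zero_or_pos l with h3 | h3
          · rw [h3] at h
            have : 0 ≤ xj j * τ := by unfold xj; positivity
            linarith
          · exact h3
        have := (hB l l0 hl j hj h.le (h1.trans s2)).1
        linarith
    · rw [key]
      rcases le_or_gt (xj (j + 1) * τ) (a (l + 1)) with h | h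
      · rw [min_eq_right h, li_b lj]
        have := hA l hl (j + 1) hj (h1.trans s2) h
        linarith
      · rw [min_eq_left h.le, li_b (ha l hl)]
        have l1 : l + 1 < n := by
          rcases Nat.lt_or_ge (l + 1) n with h3 | h3
          · exact h3
          · have h4 : l + 1 = n := by omega
            rw [h4] at h
            have : xj (j + 1) * τ ≤ τ := by
              unfold xj
              have h5 : ((j + 1 : ℕ) : ℝ) ≤ 10 := by exact_mod_cast hj
              nlinarith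
            linarith
        have := (hB (l + 1) (Nat.succ_pos l) l1 j hj (s1.trans h2) h.le).2
        rw [Nat.add_sub_cancel] at this
        linarith
  rw [key] at main
  linarith

/-! ### the lines of the ends -/

/-- the coarse nodes of the end times of the second target in a big cell with the end `T` and the
width `w` -/
structure Cn (n : ℕ) (cn : ℕ → ℝ) : Prop where
  c0 : cn 0 = 0
  c1 : cn n = 1
  lt : ∀ l < n, cn l < cn (l + 1)

/-- the end time of the coarse node `l` with the shift `z` -/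
noncomputable def al (cn : ℕ → ℝ) (T z : ℝ) (l : ℕ) : ℝ := max 0 (cn l * T - z)

theorem al_zero {n : ℕ} {cn : ℕ → ℝ} (hc : Cn n cn) {T z : ℝ} (z0 : 0 ≤ z) : al cn T z 0 = 0 := by
  unfold al
  rw [hc.c0, zero_mul, max_eq_left (by linarith)]

theorem al_last {n : ℕ} {cn : ℕ → ℝ} (hc : Cn n cn) {T z : ℝ} (hz : z ≤ T) :
    al cn T z n = T - z := by
  unfold al
  rw [hc.c1, one_mul, max_eq_right (by linarith)]

/-- **the lines of the ends of the tables for the kind `K` in the big cell `m`**: `Bm l z p` and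
`Bp l z p` are the bounds at the two ends of the coarse cell `l` with the shift `z` -/
structure EndL (R : RT.Tab) (K m n : ℕ) (cn : ℕ → ℝ) (Bm Bp : ℕ → ℝ → Pt → ℝ)
    (η V0 : ℝ) (Q : Pt → Prop) : Prop where
  lt : ∀ z ∈ Icc 0 (R.tn (m + 1) - R.tn m), z < R.tn (m + 1) → ∀ l < n,
    al cn (R.tn (m + 1)) z l < al cn (R.tn (m + 1)) z (l + 1)
  a : ∀ z ∈ Icc 0 (R.tn (m + 1) - R.tn m), z < R.tn (m + 1) → ∀ p, Q p →
    ∀ l < n, ∀ j ≤ 10,
    al cn (R.tn (m + 1)) z l ≤ xj j * (R.tn (m + 1) - z) →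
    xj j * (R.tn (m + 1) - z) ≤ al cn (R.tn (m + 1)) z (l + 1) →
    li (al cn (R.tn (m + 1)) z l) (al cn (R.tn (m + 1)) z (l + 1)) (Bm l z p) (Bp l z p)
      (xj j * (R.tn (m + 1) - z)) + η
      ≤ (R.tn (m + 1) - z + R.dl m) ^ RT.Tab.ex K * (R.r K m j).ev p.k
  b : ∀ z ∈ Icc 0 (R.tn (m + 1) - R.tn m), z < R.tn (m + 1) → ∀ p, Q p →
    ∀ l, 0 < l → l < n → ∀ j < 10,
    xj j * (R.tn (m + 1) - z) ≤ al cn (R.tn (m + 1)) z l →
    al cn (R.tn (m + 1)) z l ≤ xj (j + 1) * (R.tn (m + 1) - z) →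
    max (Bm l z p) (Bp (l - 1) z p) + η ≤ li (xj j * (R.tn (m + 1) - z))
      (xj (j + 1) * (R.tn (m + 1) - z))
      ((R.tn (m + 1) - z + R.dl m) ^ RT.Tab.ex K * (R.r K m j).ev p.k)
      ((R.tn (m + 1) - z + R.dl m) ^ RT.Tab.ex K * (R.r K m (j + 1)).ev p.k)
      (al cn (R.tn (m + 1)) z l)
  z : m = 0 → ∀ z ∈ Icc 0 (R.tn (m + 1) - R.tn m), ∀ p, Q p → ∃ B0,
    (∀ l < n, Bm l z p ≤ (R.tn (m + 1) - z) * V0 + B0 ∧
      Bp l z p ≤ (R.tn (m + 1) - z) * V0 + B0) ∧
    ∀ j ≤ 10, B0 + η ≤ (1 / 50) ^ RT.Tab.ex K * (R.r K 0 j).ev p.k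

/-- the bounds at the end of a cell below the table, for every class -/
theorem EndL.le {R : RT.Tab} {K m n : ℕ} {cn : ℕ → ℝ} {Bm Bp : ℕ → ℝ → Pt → ℝ}
    {η V0 : ℝ} {Q : Pt → Prop} (h : EndL R K m n cn Bm Bp η V0 Q) (hc : Cn n cn) {τ : ℝ}
    (τ0 : 0 < τ) (hτ : R.tn m ≤ τ) (hτ' : τ ≤ R.tn (m + 1)) {p : Pt} (hp : Q p)
    {σ : ℝ} (hσ : σ ∈ Icc 0 τ) {l : ℕ} (hl : l < n)
    (h1 : al cn (R.tn (m + 1)) (R.tn (m + 1) - τ) l ≤ σ)
    (h2 : σ ≤ al cn (R.tn (m + 1)) (R.tn (m + 1) - τ) (l + 1)) :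
    li (al cn (R.tn (m + 1)) (R.tn (m + 1) - τ) l)
      (al cn (R.tn (m + 1)) (R.tn (m + 1) - τ) (l + 1))
      (Bm l (R.tn (m + 1) - τ) p) (Bp l (R.tn (m + 1) - τ) p) σ + η
      ≤ (τ + R.dl m) ^ RT.Tab.ex K * RT.plx 10 (fun j => (R.r K m j).ev p.k) (σ / τ) := by
  set T := R.tn (m + 1) with hT
  set z := T - τ with hz
  have T0 : 0 < T := lt_of_lt_of_le τ0 hτ'
  have ez : T - z = τ := by rw [hz]; ring
  have hz' : z ∈ Icc 0 (T - R.tn m) := ⟨by linarith, by linarith⟩
  have key := pl_cmp (n := n) (a := fun l => al cn T z l) (Bm := fun l => Bm l z p + η)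
    (Bp := fun l => Bp l z p + η)
    (v := fun j => (τ + R.dl m) ^ RT.Tab.ex K * (R.r K m j).ev p.k) τ0
    (fun l hl => h.lt z hz' (by linarith) l hl) (al_zero hc hz'.1).le
    (by rw [al_last hc (by linarith), ez])
    (fun l hl j hj h3 h4 => by
      have := h.a z hz' (by linarith) p hp l hl j hj (by rw [ez]; exact h3) (by rw [ez]; exact h4)
      rw [ez] at this
      refine le_trans (le_of_eq ?_) this
      unfold li
      ring)
    (fun l l0 hl j hj h3 h4 => by
      have := h.b z hz' (by linarith) p hp l l0 hl j hj (by rw [ez]; exact h3) (by rw [ez]; exact h4)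
      rw [ez] at this
      exact ⟨le_trans (add_le_add (le_max_left _ _) le_rfl) this,
        le_trans (add_le_add (le_max_right _ _) le_rfl) this⟩)
    hσ hl h1 h2
  rw [RT.plx_smul] at key
  refine le_trans (le_of_eq ?_) key
  unfold li
  ring

/-- a linear interpolation is below a common bound -/
theorem li_le {a b u v x B : ℝ} (hab : a < b) (ha : a ≤ x) (hb : x ≤ b) (hu : u ≤ B)
    (hv : v ≤ B) : li a b u v x ≤ B := by
  have c0 : 0 ≤ (x - a) / (b - a) := div_nonneg (by linarith) (by linarith)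
  have c1 : (x - a) / (b - a) ≤ 1 := (div_le_one (by linarith)).2 (by linarith)
  unfold li
  nlinarith

end Pool.Agent.RZ.RCO
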