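import Pool.Agent.RZ.RCO.Eg1
import Pool.Agent.RZ.RCO.Eg3

/-! Route P: the table above the four sums of a class from the lines of the ends
(MP_73ccd0_lc). -/

namespace Pool.Agent.RZ.RCO

open Set Finset MeasureTheory Pool.Agent.RZ.RCRSHalf Pool.Agent.RZ.RCG Pool.Agent.RZ.RCG.Ct
open Pool.Agent.RZ.RCN Pool.Agent.RZ.RCN.K

set_option linter.unusedSectionVars false

/-! ### linear interpolation of the bounds -/

theorem li_mono {a b u v u' v' x : ℝ} (hab : a < b) (ha : a ≤ x) (hb : x ≤ b) (hu : u ≤ u')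
    (hv : v ≤ v') : li a b u v x ≤ li a b u' v' x := by
  have c0 : 0 ≤ (x - a) / (b - a) := div_nonneg (by linarith) (by linarith)
  have c1 : (x - a) / (b - a) ≤ 1 := (div_le_one (by linarith)).2 (by linarith)
  have e1 : li a b u v x = (1 - (x - a) / (b - a)) * u + (x - a) / (b - a) * v := by
    unfold li; ring
  have e2 : li a b u' v' x = (1 - (x - a) / (b - a)) * u' + (x - a) / (b - a) * v' := by
    unfold li; ring
  rw [e1, e2]
  exact add_le_add (mul_le_mul_of_nonneg_left hu (sub_nonneg.2 c1))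
    (mul_le_mul_of_nonneg_left hv c0)

theorem Fu.k01 {p : Pt} (h : Fu p) : p.k ∈ Icc (0 : ℝ) 1 := by
  obtain ⟨⟨y, a, b, hs⟩, -⟩ := h
  exact ⟨hs.k0, by have h1 := hs.MK; have h2 := hs.F.m0; linarith⟩

/-- the place of a class in a big cell -/
structure Plc (R : RT.Tab) (m n : ℕ) (cn : ℕ → ℝ) (ε : ℝ) (i j l : ℕ) : Prop where
  hc : Cn n cn
  hm : m < R.M
  hi : i < R.N
  hj : j ≤ i
  lo : R.tn m ≤ ca R.N i
  hi' : cb R.N i ≤ R.tn (m + 1)
  hε : ε ≤ 1 / R.N
  hl : l < n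
  h1 : al cn (R.tn (m + 1)) (R.tn (m + 1) - cb R.N i) l ≤ cb R.N j
  h2 : cb R.N j ≤ al cn (R.tn (m + 1)) (R.tn (m + 1) - cb R.N i) (l + 1)

end Pool.Agent.RZ.RCO
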