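import Pool.Agent.RZ.RCO.Ed1
import Pool.Agent.RZ.RCO.Ed2
import Pool.Agent.RZ.RCO.Eg6

/-! Route P: the lines of the ends of the tables from the integers (MP_73ccd0_lc). -/

set_option autoImplicit false
set_option linter.unusedSectionVars false

namespace Pool.Agent.RZ.RCO

open Set Finset

namespace Ec0

variable {q : Ec0}

/-- the format -/
structure Ok (q : Ec0) : Prop where
  n0 : 0 < q.n
  T0 : 0 < q.T
  T25 : q.T ≤ 2 ^ 25
  WT : q.W ≤ q.T
  W0 : 0 < q.W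
  s0 : 0 ≤ q.s
  A0 : q.A 0 = 0
  An : q.A q.n = q.T
  WA : q.W ≤ q.A 1
  lt : ∀ l < q.n, q.A l < q.A (l + 1)

theorem ok_of (h : q.ok = true) : q.Ok := by
  unfold ok at h
  simp only [Bool.and_eq_true, decide_eq_true_eq, List.all_eq_true,
    List.mem_range] at h
  obtain ⟨⟨⟨⟨⟨⟨⟨⟨⟨a1, a2⟩, a3⟩, a4⟩, a5⟩, a6⟩, a7⟩, a8⟩, a9⟩, a11⟩ := h
  exact ⟨a1, a2, a3, a4, a5, a6, a7, a8, a9, a11⟩

theorem Ok.mono (h : q.Ok) {l : ℕ} (l0 : 0 < l) (hl : l ≤ q.n) : q.A 1 ≤ q.A l := by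
  induction l with
  | zero => omega
  | succ l ih =>
    rcases Nat.eq_zero_or_pos l with h0 | h0
    · rw [h0]
    · exact (ih h0 (by omega)).trans (h.lt l (by omega)).le

/-- the integers belong to the big cell `m` of the table -/
structure Rel (q : Ec0) (R : RT.Tab) (m : ℕ) : Prop where
  hT : R.tn (m + 1) ≤ q.T / 2 ^ 24
  hW : q.T / 2 ^ 24 - R.tn m ≤ q.W / 2 ^ 24
  lt : R.tn m < R.tn (m + 1)
  t0 : 0 ≤ R.tn m
  hs : (q.s : ℝ) / 2 ^ 24 ≤ R.dl m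
  wA : q.T / 2 ^ 24 - R.tn m < (q.A 1 : ℝ) / 2 ^ 24 ∨ q.n = 1

/-- the excess of the end -/
noncomputable def dx (q : Ec0) (R : RT.Tab) (m : ℕ) : ℝ := q.T / 2 ^ 24 - R.tn (m + 1)

/-- the coarse nodes relative to the end -/
noncomputable def cn (q : Ec0) (R : RT.Tab) (m l : ℕ) : ℝ :=
  if l = 0 then 0 else (q.A l / 2 ^ 24 - q.dx R m) / R.tn (m + 1)

/-- the coordinate of a shift -/
noncomputable def cz (q : Ec0) (R : RT.Tab) (m : ℕ) (z : ℝ) : ℝ :=
  (z + q.dx R m) / (q.W / 2 ^ 24)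

section rel

variable {R : RT.Tab} {m : ℕ} (hq : q.Ok) (hr : q.Rel R m)

include hq hr

theorem W0' : (0 : ℝ) < q.W / 2 ^ 24 := div_pos (by exact_mod_cast hq.W0) (by positivity)

theorem T0' : (0 : ℝ) < R.tn (m + 1) := lt_of_le_of_lt hr.t0 hr.lt

theorem dx0 : 0 ≤ q.dx R m := sub_nonneg.2 hr.hT

theorem dxW : q.dx R m < q.W / 2 ^ 24 := by
  unfold dx
  have := hr.hW
  have := hr.lt
  linarith

theorem cz0 {z : ℝ} (hz : z ∈ Icc 0 (R.tn (m + 1) - R.tn m)) : 0 ≤ q.cz R m z :=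
  div_nonneg (add_nonneg hz.1 (dx0 hq hr)) (W0' hq hr).le

theorem cz1 {z : ℝ} (hz : z ∈ Icc 0 (R.tn (m + 1) - R.tn m)) : q.cz R m z ≤ 1 := by
  refine (div_le_one (W0' hq hr)).2 ?_
  unfold dx
  have := hr.hW
  linarith [hz.2]

theorem czW (z : ℝ) : q.cz R m z * (q.W / 2 ^ 24) = z + q.dx R m := by
  unfold cz
  exact div_mul_cancel₀ _ (W0' hq hr).ne'

theorem tt_cz (z : ℝ) : q.tt (q.cz R m z) = R.tn (m + 1) - z := by
  have h1 := czW hq hr z
  have h2 : q.dx R m = q.T / 2 ^ 24 - R.tn (m + 1) := rfl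
  unfold tt ip
  push_cast
  linear_combination -h1 - h2

theorem nd_cz {l : ℕ} (l0 : 0 < l) (z : ℝ) :
    q.nd l (q.cz R m z) = q.A l / 2 ^ 24 - q.dx R m - z := by
  have h1 := czW hq hr z
  unfold nd ip a1
  rw [if_neg l0.ne']
  push_cast
  linear_combination -h1

theorem cn_ok : Cn q.n (q.cn R m) := by
  have T0 := T0' hq hr
  constructor
  · unfold cn
    rw [if_pos rfl]
  · unfold cn
    rw [if_neg hq.n0.ne', hq.An]
    unfold dx
    rw [sub_sub_cancel]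
    exact div_self T0.ne'
  · intro l hl
    unfold cn
    rw [if_neg (Nat.succ_ne_zero l)]
    split_ifs with h
    · rw [h]
      refine div_pos ?_ T0
      have h1 := dxW hq hr
      have h2 : (q.W : ℝ) / 2 ^ 24 ≤ q.A 1 / 2 ^ 24 :=
        div_le_div_of_nonneg_right (by exact_mod_cast hq.WA) (by positivity)
      linarith
    · refine div_lt_div_of_pos_right ?_ T0
      have h3 : (q.A l : ℝ) / 2 ^ 24 < q.A (l + 1) / 2 ^ 24 :=
        div_lt_div_of_pos_right (by exact_mod_cast hq.lt l hl) (by positivity)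
      linarith

/-- the end time of a coarse node -/
theorem al_cz {z : ℝ} (hz : z ∈ Icc 0 (R.tn (m + 1) - R.tn m)) {l : ℕ} (hl : l ≤ q.n) :
    al (q.cn R m) (R.tn (m + 1)) z l = q.nd l (q.cz R m z) := by
  have T0 := T0' hq hr
  rcases Nat.eq_zero_or_pos l with h | h
  · rw [h, al_zero (cn_ok hq hr) hz.1]
    unfold nd ip a1
    rw [if_pos rfl, hq.A0]
    norm_num
  · unfold al cn
    rw [if_neg h.ne', div_mul_cancel₀ _ T0.ne', nd_cz hq hr h]
    refine max_eq_right ?_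
    have h1 : (q.A 1 : ℝ) / 2 ^ 24 ≤ q.A l / 2 ^ 24 :=
      div_le_div_of_nonneg_right (by exact_mod_cast hq.mono h hl) (by positivity)
    have h2 : (q.W : ℝ) / 2 ^ 24 ≤ q.A 1 / 2 ^ 24 :=
      div_le_div_of_nonneg_right (by exact_mod_cast hq.WA) (by positivity)
    have h3 : z + q.dx R m ≤ q.W / 2 ^ 24 := by
      unfold dx
      have := hr.hW
      linarith [hz.2]
    linarith

theorem nd_lt {z : ℝ} (hz : z ∈ Icc 0 (R.tn (m + 1) - R.tn m)) (hz' : z < R.tn (m + 1)) {l : ℕ}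
    (hl : l < q.n) : q.nd l (q.cz R m z) < q.nd (l + 1) (q.cz R m z) := by
  rw [nd_cz hq hr (by omega : 0 < l + 1)]
  rcases Nat.eq_zero_or_pos l with h | h
  · have e : q.nd l (q.cz R m z) = 0 := by
      rw [h]
      unfold nd ip a1
      rw [if_pos rfl, hq.A0]
      norm_num
    rw [e, h, zero_add]
    rcases hr.wA with h1 | h1
    · unfold dx
      linarith [hz.2]
    · have h2 : q.A 1 = q.T := by rw [← h1]; exact hq.An
      rw [h2]
      unfold dx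
      linarith
  · rw [nd_cz hq hr h]
    have h3 : (q.A l : ℝ) / 2 ^ 24 < q.A (l + 1) / 2 ^ 24 :=
      div_lt_div_of_pos_right (by exact_mod_cast hq.lt l hl) (by positivity)
    linarith

theorem nd_two {z : ℝ} (hz : z ∈ Icc 0 (R.tn (m + 1) - R.tn m)) {l : ℕ} (hl : l < q.n) :
    q.nd (l + 1) (q.cz R m z) - q.nd l (q.cz R m z) ≤ 2 := by
  have h0 : 0 ≤ q.nd l (q.cz R m z) := by
    rw [← al_cz hq hr hz hl.le]
    exact le_max_left _ _
  have h1 : q.nd (l + 1) (q.cz R m z) ≤ 2 := by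
    rw [nd_cz hq hr (by omega : 0 < l + 1)]
    have h2 : ∀ l', l' ≤ q.n → l < l' → q.A (l + 1) ≤ q.A l' := fun l' => by
      induction l' with
      | zero => omega
      | succ k ih =>
        intro h3 h4
        rcases Nat.lt_or_ge l k with h5 | h5
        · exact (ih (by omega) h5).trans (hq.lt k (by omega)).le
        · have : k = l := by omega
          rw [this]
    have h3 := h2 q.n le_rfl hl
    rw [hq.An] at h3
    have h4 : (q.A (l + 1) : ℝ) ≤ 2 ^ 25 := by exact_mod_cast h3.trans hq.T25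
    have h5 := dx0 hq hr
    have h6 : (q.A (l + 1) : ℝ) / 2 ^ 24 ≤ 2 := by
      rw [div_le_iff₀ (by positivity)]
      linarith
    linarith [hz.1]
  linarith

end rel

end Ec0

/-! ### the lines of a kind -/

/-- the bound at an end: the values at `k = 0` (shift `0`, shift `1`) and at `k = 1 / κ` -/
structure E4 where
  a0 : ℤ
  a1 : ℤ
  b0 : ℤ
  b1 : ℤ

/-- the components -/
def cm (κ : ℤ) (i : ℕ) (a b : ℤ) : ℤ :=
  if i = 0 then a else if i = 1 then 2 * a + κ * (b - a) else a + κ * (b - a)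

/-- the components of a row of the table -/
def vr (i : ℕ) (r : RT.Cub) : ℤ :=
  if i = 0 then (r.1 : ℤ) else if i = 1 then 3 * (r.2.1 : ℤ) else 3 * (r.2.2.1 : ℤ)

/-- the bound as a function -/
noncomputable def E4.q (x : E4) (κ c k : ℝ) : ℝ :=
  qk κ (ip c x.a0 x.a1 / (50 * 2 ^ 24)) (ip c x.b0 x.b1 / (50 * 2 ^ 24)) k

theorem E4.q_eq (x : E4) (κ : ℤ) (c k : ℝ) : x.q κ c k
    = (1 - k) ^ 3 * (ip c (cm κ 0 x.a0 x.b0) (cm κ 0 x.a1 x.b1) / (50 * 2 ^ 24))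
      + k * (1 - k) ^ 2 * (ip c (cm κ 1 x.a0 x.b0) (cm κ 1 x.a1 x.b1) / (50 * 2 ^ 24))
      + k ^ 2 * (1 - k) * (ip c (cm κ 2 x.a0 x.b0) (cm κ 2 x.a1 x.b1) / (50 * 2 ^ 24)) := by
  unfold E4.q qk ip cm
  norm_num
  ring

theorem vr_le (r : RT.Cub) {k : ℝ} (k0 : 0 ≤ k) :
    (1 - k) ^ 3 * ((vr 0 r : ℤ) / 2 ^ 20) + k * (1 - k) ^ 2 * ((vr 1 r : ℤ) / 2 ^ 20)
      + k ^ 2 * (1 - k) * ((vr 2 r : ℤ) / 2 ^ 20) ≤ r.ev k := by
  have e : r.ev k = (1 - k) ^ 3 * ((vr 0 r : ℤ) / 2 ^ 20)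
      + k * (1 - k) ^ 2 * ((vr 1 r : ℤ) / 2 ^ 20)
      + k ^ 2 * (1 - k) * ((vr 2 r : ℤ) / 2 ^ 20) + (r.2.2.2 : ℝ) / 2 ^ 20 * k ^ 3 := by
    unfold RT.Cub.ev RT.cubR vr RT.RD
    norm_num
    ring
  rw [e]
  have : 0 ≤ (r.2.2.2 : ℝ) / 2 ^ 20 * k ^ 3 := by positivity
  linarith

/-- three components -/
theorem three {k L0 L1 L2 s0 s1 s2 : ℝ} (k0 : 0 ≤ k) (k5 : k ≤ 1 / 5)
    (h0 : L0 + 1 / 2 ^ 31 ≤ s0) (h1 : L1 + 1 / 2 ^ 31 ≤ s1) (h2 : L2 + 1 / 2 ^ 31 ≤ s2) :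
    (1 - k) ^ 3 * L0 + k * (1 - k) ^ 2 * L1 + k ^ 2 * (1 - k) * L2 + 1 / 2 ^ 32
      ≤ (1 - k) ^ 3 * s0 + k * (1 - k) ^ 2 * s1 + k ^ 2 * (1 - k) * s2 := by
  have k1 : 0 ≤ 1 - k := by linarith
  have a0 := mul_le_mul_of_nonneg_left h0 (pow_nonneg k1 3)
  have a1 := mul_le_mul_of_nonneg_left h1 (mul_nonneg k0 (sq_nonneg (1 - k)))
  have a2 := mul_le_mul_of_nonneg_left h2 (mul_nonneg (sq_nonneg k) k1)
  have a3 : (1 : ℝ) / 2 ≤ (1 - k) ^ 3 + k * (1 - k) ^ 2 + k ^ 2 * (1 - k) := by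
    have e : (1 - k) ^ 3 + k * (1 - k) ^ 2 + k ^ 2 * (1 - k) = (1 - k) * (1 - k + k ^ 2) := by ring
    rw [e]
    nlinarith [sq_nonneg k]
  linarith

section

variable (q : Ec0) (e : Bool) (κ : ℤ) (M P : ℕ → E4) (r : ℕ → RT.Cub)

/-- the lines at the nodes of the table -/
def ckA : Bool := (List.range q.n).all fun l => (List.range 11).all fun j =>
  (List.range 3).all fun i => q.cA e (cm κ i (M l).a0 (M l).b0) (cm κ i (M l).a1 (M l).b1)
    (cm κ i (P l).a0 (P l).b0) (cm κ i (P l).a1 (P l).b1) (vr i (r j)) l j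

/-- the lines at the coarse nodes -/
def ckB : Bool := (List.range (q.n - 1)).all fun l => (List.range 10).all fun j =>
  (List.range 3).all fun i =>
    q.cB e (cm κ i (M (l + 1)).a0 (M (l + 1)).b0) (cm κ i (M (l + 1)).a1 (M (l + 1)).b1)
      (vr i (r j)) (vr i (r (j + 1))) (l + 1) j &&
    q.cB e (cm κ i (P l).a0 (P l).b0) (cm κ i (P l).a1 (P l).b1)
      (vr i (r j)) (vr i (r (j + 1))) (l + 1) j

/-- the first big cell: the values at the shift `1` for all nodes -/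
def ckZ : Bool := (List.range q.n).all fun l => (List.range 11).all fun j =>
  (List.range 3).all fun i =>
    decide (2500 * 2 ^ 20 * cm κ i (M l).a1 (M l).b1 + 2500 * 2 ^ 13 * 50
      ≤ 50 * 2 ^ 24 * (if e then 1 else 50) * vr i (r j)) &&
    decide (2500 * 2 ^ 20 * cm κ i (P l).a1 (P l).b1 + 2500 * 2 ^ 13 * 50
      ≤ 50 * 2 ^ 24 * (if e then 1 else 50) * vr i (r j))

end

section lines

variable {q : Ec0} {e : Bool} {κ : ℤ} {M P : ℕ → E4} {r : ℕ → RT.Cub}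

theorem li_three (a b x w0 w1 w2 u0 u1 u2 v0 v1 v2 : ℝ) :
    li a b (w0 * u0 + w1 * u1 + w2 * u2) (w0 * v0 + w1 * v1 + w2 * v2) x
      = w0 * li a b u0 v0 x + w1 * li a b u1 v1 x + w2 * li a b u2 v2 x := by
  unfold li
  ring

theorem ckA_ok (h : ckA q e κ M P r = true) {l j : ℕ} (hl : l < q.n) (hj : j ≤ 10) {c : ℝ}
    (c0 : 0 ≤ c) (c1 : c ≤ 1) (hD : q.nd l c < q.nd (l + 1) c)
    (hD1 : q.nd (l + 1) c - q.nd l c ≤ 2) (h1 : q.nd l c ≤ xj j * q.tt c)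
    (h2 : xj j * q.tt c ≤ q.nd (l + 1) c) {k : ℝ} (k0 : 0 ≤ k) (k5 : k ≤ 1 / 5)
    (ht : 0 ≤ q.ts c) :
    li (q.nd l c) (q.nd (l + 1) c) ((M l).q κ c k) ((P l).q κ c k) (xj j * q.tt c) + 1 / 2 ^ 32
      ≤ q.ts c ^ ex2 e * (r j).ev k := by
  unfold ckA at h
  simp only [List.all_eq_true, List.mem_range] at h
  have key : ∀ i < 3, _ := fun i hi =>
    Ec0.cA_ok (h l hl j (by omega) i hi) c0 c1 hD hD1 h1 h2
  rw [E4.q_eq, E4.q_eq, li_three]
  refine (three k0 k5 (key 0 (by norm_num)) (key 1 (by norm_num)) (key 2 (by norm_num))).trans ?_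
  refine le_trans (le_of_eq ?_) (mul_le_mul_of_nonneg_left (vr_le (r j) k0) (pow_nonneg ht _))
  ring

theorem ckB_ok (h : ckB q e κ M P r = true) {l j : ℕ} (l0 : 0 < l) (hl : l < q.n) (hj : j < 10)
    {c : ℝ} (c0 : 0 ≤ c) (c1 : c ≤ 1) (ht : 0 < q.tt c) (ht2 : q.tt c ≤ 2)
    (h1 : xj j * q.tt c ≤ q.nd l c) (h2 : q.nd l c ≤ xj (j + 1) * q.tt c) {k : ℝ} (k0 : 0 ≤ k)
    (k5 : k ≤ 1 / 5) (hs : 0 ≤ q.ts c) :
    max ((M l).q κ c k) ((P (l - 1)).q κ c k) + 1 / 2 ^ 32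
      ≤ li (xj j * q.tt c) (xj (j + 1) * q.tt c) (q.ts c ^ ex2 e * (r j).ev k)
        (q.ts c ^ ex2 e * (r (j + 1)).ev k) (q.nd l c) := by
  unfold ckB at h
  simp only [List.all_eq_true, List.mem_range, Bool.and_eq_true] at h
  have lt : xj j * q.tt c < xj (j + 1) * q.tt c := by
    refine mul_lt_mul_of_pos_right ?_ ht
    unfold xj
    push_cast
    linarith
  have hv : ∀ j', (1 - k) ^ 3 * (q.ts c ^ ex2 e * ((vr 0 (r j') : ℤ) / 2 ^ 20))
      + k * (1 - k) ^ 2 * (q.ts c ^ ex2 e * ((vr 1 (r j') : ℤ) / 2 ^ 20))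
      + k ^ 2 * (1 - k) * (q.ts c ^ ex2 e * ((vr 2 (r j') : ℤ) / 2 ^ 20))
      ≤ q.ts c ^ ex2 e * (r j').ev k := fun j' => by
    refine le_trans (le_of_eq ?_) (mul_le_mul_of_nonneg_left (vr_le (r j') k0) (pow_nonneg hs _))
    ring
  have fin := li_mono lt h1 h2 (hv j) (hv (j + 1))
  rw [li_three] at fin
  refine le_trans ?_ fin
  have hl' : l - 1 + 1 = l := by omega
  have key := fun i (hi : i < 3) => h (l - 1) (by omega) j hj i hi
  simp only [hl'] at key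
  rw [← max_add_add_right, max_le_iff]
  constructor
  · rw [E4.q_eq]
    exact three k0 k5 (Ec0.cB_ok (key 0 (by norm_num)).1 c0 c1 ht ht2 h1 h2)
      (Ec0.cB_ok (key 1 (by norm_num)).1 c0 c1 ht ht2 h1 h2)
      (Ec0.cB_ok (key 2 (by norm_num)).1 c0 c1 ht ht2 h1 h2)
  · rw [E4.q_eq]
    exact three k0 k5 (Ec0.cB_ok (key 0 (by norm_num)).2 c0 c1 ht ht2 h1 h2)
      (Ec0.cB_ok (key 1 (by norm_num)).2 c0 c1 ht ht2 h1 h2)
      (Ec0.cB_ok (key 2 (by norm_num)).2 c0 c1 ht ht2 h1 h2)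

/-- the line of one component at the shift one -/
theorem ckz1 {e : Bool} {m v : ℤ} (h : 2500 * 2 ^ 20 * m + 2500 * 2 ^ 13 * 50
      ≤ 50 * 2 ^ 24 * (if e then 1 else 50) * v) :
    (m : ℝ) / (50 * 2 ^ 24) + 1 / 2 ^ 31 ≤ (1 / 50) ^ ex2 e * (v / 2 ^ 20) := by
  have h' : (2500 * 2 ^ 20 * m + 2500 * 2 ^ 13 * 50 : ℝ)
      ≤ 50 * 2 ^ 24 * (if e then 1 else 50) * v := by exact_mod_cast h
  have h2 := div_le_div_of_nonneg_right h' (by positivity : (0 : ℝ) ≤ 2500 * 50 * 2 ^ 44)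
  cases e with
  | false =>
    unfold ex2
    simp only [cond_false, pow_one] at h2 ⊢
    refine le_trans (le_of_eq ?_) (h2.trans (le_of_eq ?_))
    · ring
    · norm_num
      ring
  | true =>
    unfold ex2
    simp only [cond_true, if_true] at h2 ⊢
    refine le_trans (le_of_eq ?_) (h2.trans (le_of_eq ?_))
    · ring
    · ring

/-- the size -/
noncomputable def E4.sz (x : E4) : ℝ := |(x.a0 : ℝ)| + |(x.a1 : ℝ)| + |(x.b0 : ℝ)| + |(x.b1 : ℝ)|

theorem E4.sz0 (x : E4) : 0 ≤ x.sz := by unfold E4.sz; positivity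

theorem E4.q_lin (x : E4) (κ c k : ℝ) :
    x.q κ c k = (1 - c) * x.q κ 0 k + c * x.q κ 1 k := by
  unfold E4.q qk ip
  ring

theorem E4.q_abs (x : E4) {κ c k : ℝ} (hc : c = 0 ∨ c = 1) (k0 : 0 ≤ k) (k1 : k ≤ 1)
    (κ0 : 0 ≤ κ) (hk : κ * k ≤ 1) : |x.q κ c k| ≤ x.sz / 2 := by
  have g1 : 0 ≤ κ * k := mul_nonneg κ0 k0
  have main : ∀ a b : ℝ, |qk κ a b k| ≤ |a| + |b| := fun a b => by
    unfold qk
    rw [abs_mul, abs_of_nonneg (by linarith : (0 : ℝ) ≤ 1 - k)]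
    have h1 : |(1 - κ * k) * a + κ * k * b| ≤ |a| + |b| := by
      refine (abs_add_le _ _).trans (add_le_add ?_ ?_)
      · rw [abs_mul, abs_of_nonneg (by linarith : (0 : ℝ) ≤ 1 - κ * k)]
        exact mul_le_of_le_one_left (abs_nonneg a) (by linarith)
      · rw [abs_mul, abs_of_nonneg g1]
        exact mul_le_of_le_one_left (abs_nonneg b) hk
    exact (mul_le_of_le_one_left (abs_nonneg _) (by linarith)).trans h1
  have hd : ∀ y : ℝ, |y / (50 * 2 ^ 24)| ≤ |y| / 2 := fun y => by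
    rw [abs_div, abs_of_pos (by positivity : (0 : ℝ) < 50 * 2 ^ 24)]
    exact div_le_div_of_nonneg_left (abs_nonneg y) (by norm_num) (by norm_num)
  unfold E4.q
  refine (main _ _).trans ((add_le_add (hd _) (hd _)).trans ?_)
  unfold ip E4.sz
  have p0 := abs_nonneg (x.a0 : ℝ)
  have p1 := abs_nonneg (x.a1 : ℝ)
  have p2 := abs_nonneg (x.b0 : ℝ)
  have p3 := abs_nonneg (x.b1 : ℝ)
  rcases hc with h | h
  · rw [h]
    simp only [sub_zero, one_mul, zero_mul, add_zero]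
    linarith
  · rw [h]
    simp only [sub_self, zero_mul, one_mul, zero_add]
    linarith

/-- **the lines of the ends of the tables of one kind** -/
theorem endL {R : RT.Tab} {K m : ℕ} {Bm Bp : ℕ → ℝ → Pt → ℝ} {V0 : ℝ} {Q : Pt → Prop} (hq : q.Ok)
    (hr : q.Rel R m) (hA : ckA q e κ M P r = true) (hB : ckB q e κ M P r = true)
    (hex : RT.Tab.ex K = ex2 e) (hR : ∀ j ≤ 10, R.r K m j = r j) (κ0 : (0 : ℝ) < κ)
    (hk0 : ∀ p, Q p → 0 ≤ p.k) (hk5 : ∀ p, Q p → p.k ≤ 1 / 5) (hκ : ∀ p, Q p → κ * p.k ≤ 1)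
    (hM : ∀ z ∈ Icc 0 (R.tn (m + 1) - R.tn m), ∀ p, Q p → ∀ l < q.n,
      Bm l z p ≤ (M l).q κ (q.cz R m z) p.k)
    (hP : ∀ z ∈ Icc 0 (R.tn (m + 1) - R.tn m), ∀ p, Q p → ∀ l < q.n,
      Bp l z p ≤ (P l).q κ (q.cz R m z) p.k)
    (hZ : m = 0 → ckZ q e κ M P r = true ∧ q.W = q.T ∧
      ((∑ l ∈ Finset.range q.n, ((M l).sz + (P l).sz)) / (q.T / 2 ^ 24)) ≤ V0) :
    EndL R K m q.n (q.cn R m) Bm Bp (1 / 2 ^ 32) V0 Q := by
  have T0 := Ec0.T0' hq hr
  have T2 : (q.T : ℝ) / 2 ^ 24 ≤ 2 := by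
    rw [div_le_iff₀ (by positivity)]
    have : (q.T : ℝ) ≤ 2 ^ 25 := by exact_mod_cast hq.T25
    linarith
  have s0 : (0 : ℝ) ≤ q.s / 2 ^ 24 := div_nonneg (by exact_mod_cast hq.s0) (by positivity)
  have hmono : ∀ z, z ≤ R.tn (m + 1) →
      ∀ r' : RT.Cub, ∀ k ∈ Icc (0 : ℝ) 1, q.ts (q.cz R m z) ^ ex2 e * r'.ev k
        ≤ (R.tn (m + 1) - z + R.dl m) ^ RT.Tab.ex K * r'.ev k := fun z hz r' k hk => by
    rw [hex]
    refine mul_le_mul_of_nonneg_right ?_ (RT.Cub.ev_nonneg _ hk.1 hk.2)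
    rw [Ec0.ts_eq, Ec0.tt_cz hq hr]
    exact pow_le_pow_left₀ (by linarith) (by linarith [hr.hs]) _
  refine ⟨fun z hz hz' l hl => ?_, fun z hz hz' p hp l hl j hj h1 h2 => ?_,
    fun z hz hz' p hp l l0 hl j hj h1 h2 => ?_, fun hm z hz p hp => ?_⟩
  · rw [Ec0.al_cz hq hr hz hl.le, Ec0.al_cz hq hr hz hl]
    exact Ec0.nd_lt hq hr hz hz' hl
  · -- nodes of the table
    have c0 := Ec0.cz0 hq hr hz
    have c1 := Ec0.cz1 hq hr hz
    rw [hR j hj]
    rw [Ec0.al_cz hq hr hz hl.le] at h1 ⊢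
    rw [Ec0.al_cz hq hr hz hl] at h2 ⊢
    rw [← Ec0.tt_cz hq hr z] at h1 h2 ⊢
    have k5 := hk5 p hp
    have k0 := hk0 p hp
    have hD := Ec0.nd_lt hq hr hz hz' hl
    have ht : 0 ≤ q.ts (q.cz R m z) := by
      rw [Ec0.ts_eq, Ec0.tt_cz hq hr]
      linarith
    have key := ckA_ok hA hl hj c0 c1 hD (Ec0.nd_two hq hr hz hl) h1 h2 k0 k5 ht
    refine (add_le_add (li_mono hD h1 h2 (hM z hz p hp l hl) (hP z hz p hp l hl))
      le_rfl).trans (key.trans ?_)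
    have := hmono z hz'.le (r j) p.k ⟨k0, by linarith⟩
    rwa [← Ec0.tt_cz hq hr z] at this
  · -- coarse nodes
    have c0 := Ec0.cz0 hq hr hz
    have c1 := Ec0.cz1 hq hr hz
    rw [hR j hj.le, hR (j + 1) hj]
    rw [Ec0.al_cz hq hr hz hl.le] at h1 h2 ⊢
    rw [← Ec0.tt_cz hq hr z] at h1 h2 ⊢
    have k5 := hk5 p hp
    have k0 := hk0 p hp
    have t0 : 0 < q.tt (q.cz R m z) := by
      rw [Ec0.tt_cz hq hr]
      linarith
    have t2 : q.tt (q.cz R m z) ≤ 2 := by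
      rw [Ec0.tt_cz hq hr]
      linarith [hz.1, hr.hT]
    have ht : 0 ≤ q.ts (q.cz R m z) := by
      rw [Ec0.ts_eq]
      linarith
    have key := ckB_ok hB l0 hl hj c0 c1 t0 t2 h1 h2 k0 k5 ht
    have lt : xj j * q.tt (q.cz R m z) < xj (j + 1) * q.tt (q.cz R m z) := by
      refine mul_lt_mul_of_pos_right ?_ t0
      unfold xj
      push_cast
      linarith
    refine (add_le_add (max_le_max (hM z hz p hp l hl) (hP z hz p hp (l - 1) (by omega)))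
      le_rfl).trans (key.trans (li_mono lt h1 h2 ?_ ?_))
    · have := hmono z hz'.le (r j) p.k ⟨k0, by linarith⟩
      rwa [← Ec0.tt_cz hq hr z] at this
    · have := hmono z hz'.le (r (j + 1)) p.k ⟨k0, by linarith⟩
      rwa [← Ec0.tt_cz hq hr z] at this
  · -- the first big cell
    obtain ⟨hz1, hWT, hV⟩ := hZ hm
    have k5 := hk5 p hp
    have k0 := hk0 p hp
    have k1 : p.k ≤ 1 := by linarith
    have hkk : κ * p.k ≤ 1 := hκ p hp
    unfold ckZ at hz1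
    simp only [List.all_eq_true, List.mem_range, Bool.and_eq_true, decide_eq_true_eq] at hz1
    have Tp : (0 : ℝ) < q.T / 2 ^ 24 := div_pos (by exact_mod_cast hq.T0) (by positivity)
    set c := q.cz R m z with hc
    have c0 := Ec0.cz0 hq hr hz
    have c1 := Ec0.cz1 hq hr hz
    have ec : 1 - c = (R.tn (m + 1) - z) / (q.T / 2 ^ 24) := by
      have h1 := Ec0.czW hq hr z
      rw [hWT, ← hc] at h1
      rw [eq_div_iff Tp.ne']
      have h2 : q.dx R m = q.T / 2 ^ 24 - R.tn (m + 1) := rfl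
      linear_combination -h1 - h2
    -- the supremum at the shift one
    obtain ⟨B0, hB0, hB1⟩ : ∃ B0 : ℝ, (∀ l < q.n, (M l).q κ 1 p.k ≤ B0 ∧ (P l).q κ 1 p.k ≤ B0) ∧
        ∀ j ≤ 10, B0 + 1 / 2 ^ 32 ≤ (1 / 50) ^ RT.Tab.ex K * (R.r K 0 j).ev p.k := by
      have hne : (Finset.range q.n).Nonempty := ⟨0, Finset.mem_range.2 hq.n0⟩
      refine ⟨(Finset.range q.n).sup' hne fun l => max ((M l).q κ 1 p.k) ((P l).q κ 1 p.k),
        fun l hl => ?_, fun j hj => ?_⟩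
      · have := Finset.le_sup' (fun l => max ((M l).q κ 1 p.k) ((P l).q κ 1 p.k))
          (Finset.mem_range.2 hl)
        exact ⟨(le_max_left _ _).trans this, (le_max_right _ _).trans this⟩
      · obtain ⟨l, hl, el⟩ := Finset.exists_mem_eq_sup' hne
          fun l => max ((M l).q κ 1 p.k) ((P l).q κ 1 p.k)
        rw [el]
        have hl' := Finset.mem_range.1 hl
        have w0 := hz1 l hl' j (by omega) 0 (by norm_num)
        have w1 := hz1 l hl' j (by omega) 1 (by norm_num)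
        have w2 := hz1 l hl' j (by omega) 2 (by norm_num)
        have hRj := hR j hj
        rw [hm] at hRj
        rw [hRj, hex, ← max_add_add_right, max_le_iff]
        have e1 : ∀ y : ℝ, ip 1 y y = y := fun y => by unfold ip; ring
        have fin : (1 - p.k) ^ 3 * ((1 / 50) ^ ex2 e * ((vr 0 (r j) : ℤ) / 2 ^ 20))
            + p.k * (1 - p.k) ^ 2 * ((1 / 50) ^ ex2 e * ((vr 1 (r j) : ℤ) / 2 ^ 20))
            + p.k ^ 2 * (1 - p.k) * ((1 / 50) ^ ex2 e * ((vr 2 (r j) : ℤ) / 2 ^ 20))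
            ≤ (1 / 50) ^ ex2 e * (r j).ev p.k := by
          refine le_trans (le_of_eq ?_) (mul_le_mul_of_nonneg_left (vr_le (r j) k0)
            (pow_nonneg (by norm_num) _))
          ring
        have ip1 : ∀ x y : ℝ, ip 1 x y = y := fun x y => by unfold ip; ring
        constructor
        · rw [E4.q_eq]
          simp only [ip1]
          exact (three k0 k5 (ckz1 w0.1) (ckz1 w1.1) (ckz1 w2.1)).trans fin
        · rw [E4.q_eq]
          simp only [ip1]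
          exact (three k0 k5 (ckz1 w0.2) (ckz1 w1.2) (ckz1 w2.2)).trans fin
    refine ⟨B0, fun l hl => ?_, hB1⟩
    have lin : ∀ x : E4, x.sz ≤ ∑ l ∈ Finset.range q.n, ((M l).sz + (P l).sz) →
        x.q κ 1 p.k ≤ B0 → x.q κ c p.k ≤ (R.tn (m + 1) - z) * V0 + B0 := fun x hx hx1 => by
      rw [E4.q_lin]
      have a1 := (abs_le.1 (x.q_abs (Or.inl rfl) k0 k1 κ0.le hkk)).2
      have a2 := (abs_le.1 (x.q_abs (Or.inr rfl) k0 k1 κ0.le hkk)).1
      have a3 : x.q κ 0 p.k - x.q κ 1 p.k ≤ x.sz := by linarith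
      have a4 : (1 - c) * (x.q κ 0 p.k - x.q κ 1 p.k) ≤ (R.tn (m + 1) - z) * V0 := by
        refine (mul_le_mul_of_nonneg_left (a3.trans hx) (by linarith)).trans ?_
        rw [ec, div_mul_eq_mul_div, mul_div_assoc]
        exact mul_le_mul_of_nonneg_left hV (by linarith [hz.2, hr.t0])
      linarith
    have sl : ∀ l < q.n, (M l).sz + (P l).sz ≤ ∑ l ∈ Finset.range q.n, ((M l).sz + (P l).sz) :=
      fun l hl => Finset.single_le_sum (f := fun l => (M l).sz + (P l).sz)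
        (fun i _ => add_nonneg (M i).sz0 (P i).sz0) (Finset.mem_range.2 hl)
    constructor
    · exact (hM z hz p hp l hl).trans (lin _ (by have := sl l hl; have := (P l).sz0; linarith)
        (hB0 l hl).1)
    · exact (hP z hz p hp l hl).trans (lin _ (by have := sl l hl; have := (M l).sz0; linarith)
        (hB0 l hl).2)

end lines

end Pool.Agent.RZ.RCO
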