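import Pool.Agent.RZ.RCO.Eg3
import Pool.Agent.RZ.RCO.Hf3
import Pool.Agent.RZ.RCO.Sx3

/-! Route P: the direct parts from step constants: the line of a family of pairs, convex
piecewise linear functions (MP_73ccd0_lc). -/

set_option autoImplicit false

namespace Pool.Agent.RZ.RCO

open Set Finset

/-! ### the line of a family of pairs -/

theorem sup_add {u E a b : ℝ} (hu : u ≤ 0) (hE : 0 ≤ E) (ha : 0 ≤ a) (hb : 0 ≤ b) :
    max 0 (u + E * a) + max 0 (u + E * b) ≤ max 0 (u + E * (a + b)) := by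
  have ea := mul_nonneg hE ha
  have eb := mul_nonneg hE hb
  have e : E * (a + b) = E * a + E * b := by ring
  rcases le_total (u + E * a) 0 with h1 | h1
  · rw [max_eq_left h1, zero_add]
    exact max_le_max le_rfl (by linarith)
  · rcases le_total (u + E * b) 0 with h2 | h2
    · rw [max_eq_left h2, add_zero]
      exact max_le_max le_rfl (by linarith)
    · rw [max_eq_right h1, max_eq_right h2]
      exact le_trans (by linarith) (le_max_right _ _)

theorem sup_sum {ι : Type*} (C : Finset ι) {u E : ℝ} (hu : u ≤ 0) (hE : 0 ≤ E) {n : ι → ℝ}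
    (n0 : ∀ z ∈ C, 0 ≤ n z) :
    ∑ z ∈ C, max 0 (u + E * n z) ≤ max 0 (u + E * ∑ z ∈ C, n z) := by
  classical
  induction C using Finset.induction_on with
  | empty => simp
  | insert a C ha ih =>
    rw [Finset.sum_insert ha, Finset.sum_insert ha]
    have h1 := ih fun z hz => n0 z (Finset.mem_insert_of_mem hz)
    exact (add_le_add le_rfl h1).trans (sup_add hu hE (n0 a (Finset.mem_insert_self _ _))
      (Finset.sum_nonneg fun z hz => n0 z (Finset.mem_insert_of_mem hz)))

/-- the bound of the direct parts of a vertex at one time, per unit of mass: `X` the bound of the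
weights, `R` of the rates, `E` the survival function, `nh` the losses per unit of mass -/
noncomputable def gD (X R E nh : ℝ) : ℝ :=
  R * max 0 (max (1 - 2 * E) (X * (1 - 2 * E)) + X * E * nh)

/-- **the line of a family of pairs** -/
theorem pair_line {ι : Type*} {C : Finset ι} {h n : ι → ℝ} {X R E m nh : ℝ} (X0 : 0 ≤ X)
    (R0 : 0 ≤ R) (E0 : 0 ≤ E) (m0 : 0 ≤ m) (m1 : m ≤ 1)
    (hX : ∀ z ∈ C, h z ≤ X * R) (hs : ∑ z ∈ C, h z ≤ R * m)
    (n0 : ∀ z ∈ C, 0 ≤ n z) (hn : ∑ z ∈ C, n z ≤ m * nh) :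
    ∑ z ∈ C, h z * max 0 (1 - 2 * E + E * n z) ≤ m * gD X R E nh := by
  have XR : 0 ≤ X * R := mul_nonneg X0 R0
  obtain ⟨u, hu⟩ : ∃ u, u = 1 - 2 * E := ⟨_, rfl⟩
  unfold gD
  rw [← hu]
  rcases le_total 0 u with h1 | h1
  · have e1 : ∑ z ∈ C, h z * max 0 (u + E * n z) = u * ∑ z ∈ C, h z
        + E * ∑ z ∈ C, h z * n z := by
      rw [Finset.mul_sum, Finset.mul_sum, ← Finset.sum_add_distrib]
      refine Finset.sum_congr rfl fun z hz => ?_
      rw [max_eq_right (add_nonneg h1 (mul_nonneg E0 (n0 z hz)))]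
      ring
    have e2 : ∑ z ∈ C, h z * n z ≤ X * R * (m * nh) := by
      calc ∑ z ∈ C, h z * n z ≤ ∑ z ∈ C, X * R * n z :=
            Finset.sum_le_sum fun z hz => mul_le_mul_of_nonneg_right (hX z hz) (n0 z hz)
        _ = X * R * ∑ z ∈ C, n z := by rw [Finset.mul_sum]
        _ ≤ X * R * (m * nh) := mul_le_mul_of_nonneg_left hn XR
    rw [e1]
    have e3 := mul_le_mul_of_nonneg_left hs h1
    have e4 := mul_le_mul_of_nonneg_left e2 E0
    have e5 : u + X * E * nh ≤ max 0 (max u (X * u) + X * E * nh) :=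
      le_trans (add_le_add (le_max_left _ _) le_rfl) (le_max_right _ _)
    have e6 := mul_le_mul_of_nonneg_left e5 (mul_nonneg m0 R0)
    linarith
  · have e1 : ∑ z ∈ C, h z * max 0 (u + E * n z) ≤ X * R * max 0 (u + E * (m * nh)) := by
      calc ∑ z ∈ C, h z * max 0 (u + E * n z)
          ≤ ∑ z ∈ C, X * R * max 0 (u + E * n z) :=
            Finset.sum_le_sum fun z hz => mul_le_mul_of_nonneg_right (hX z hz) (le_max_left _ _)
        _ = X * R * ∑ z ∈ C, max 0 (u + E * n z) := by rw [Finset.mul_sum]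
        _ ≤ X * R * max 0 (u + E * ∑ z ∈ C, n z) :=
            mul_le_mul_of_nonneg_left (sup_sum C h1 E0 n0) XR
        _ ≤ _ := mul_le_mul_of_nonneg_left (max_le_max le_rfl
            (add_le_add le_rfl (mul_le_mul_of_nonneg_left hn E0))) XR
    have e2 : max 0 (u + E * (m * nh)) ≤ m * max 0 (u + E * nh) := by
      refine max_le (mul_nonneg m0 (le_max_left _ _)) ?_
      have h2 : u ≤ m * u := by nlinarith
      have h3 := mul_le_mul_of_nonneg_left (le_max_right 0 (u + E * nh)) m0
      linarith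
    have e3 : X * max 0 (u + E * nh) ≤ max 0 (max u (X * u) + X * E * nh) := by
      rw [mul_max_of_nonneg _ _ X0, mul_zero]
      refine max_le_max le_rfl ?_
      have := le_max_right u (X * u)
      linarith
    calc _ ≤ X * R * (m * max 0 (u + E * nh)) := e1.trans (mul_le_mul_of_nonneg_left e2 XR)
      _ = m * (R * (X * max 0 (u + E * nh))) := by ring
      _ ≤ _ := mul_le_mul_of_nonneg_left (mul_le_mul_of_nonneg_left e3 R0) m0

/-- the exponential with a loss -/
theorem exp_loss {N a E : ℝ} (E0 : 0 ≤ E) (hE : E ≤ Real.exp (-a)) :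
    E * (1 - N) ≤ Real.exp (-(N + a)) := by
  have e : Real.exp (-(N + a)) = Real.exp (-a) * Real.exp (-N) := by
    rw [← Real.exp_add]
    ring_nf
  rcases le_total (1 - N) 0 with h | h
  · exact (mul_nonpos_of_nonneg_of_nonpos E0 h).trans (Real.exp_pos _).le
  · rw [e]
    refine mul_le_mul hE ?_ h (Real.exp_pos _).le
    have := Real.add_one_le_exp (-N)
    linarith

/-! ### convex piecewise linear functions -/

/-- the values at the nodes of the function with the slopes `G` -/
noncomputable def stp (t G : ℕ → ℝ) (j : ℕ) : ℝ := ∑ i ∈ Finset.range j, G i * (t (i + 1) - t i)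

theorem stp_zero (t G : ℕ → ℝ) : stp t G 0 = 0 := by simp [stp]

theorem stp_succ (t G : ℕ → ℝ) (j : ℕ) : stp t G (j + 1) = stp t G j + G j * (t (j + 1) - t j) := by
  unfold stp
  rw [Finset.sum_range_succ]

section pl

variable {t : ℕ → ℝ} {n : ℕ} {G G' : ℕ → ℝ}

/-- the value in a step -/
theorem stp_on (hm : Msh t n) {j : ℕ} (hj : j < n) {r : ℝ} (hr : r ∈ Icc (t j) (t (j + 1))) :
    pl t (stp t G) n r = stp t G j + G j * (r - t j) := by
  rw [pl_on hm hj hr, stp_succ]
  have := hm.pos hj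
  field_simp
  ring

/-- the derivative in a step -/
theorem stp_deriv (hm : Msh t n) {j : ℕ} (hj : j < n) {r : ℝ} (hr : r ∈ Ioo (t j) (t (j + 1))) :
    HasDerivAt (pl t (stp t G) n) (G j) r := by
  have h := pl_deriv (v := stp t G) hm hj hr
  refine h.congr_deriv ?_
  rw [stp_succ]
  have := hm.pos hj
  field_simp
  ring

/-- a function with larger slopes grows more -/
theorem stp_inc (hm : Msh t n) (hn : 0 < n) {x y : ℝ} (hx : t 0 ≤ x) (hxy : x ≤ y)
    (hy : y ≤ t n) (h : ∀ j < n, x < t (j + 1) → t j < y → G j ≤ G' j) :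
    pl t (stp t G) n y - pl t (stp t G) n x ≤ pl t (stp t G') n y - pl t (stp t G') n x := by
  have key := back_le_fin (nds t n) (a := x) (b := y)
    (f := fun r => pl t (stp t G') n r - pl t (stp t G) n r)
    (g := fun _ => pl t (stp t G') n y - pl t (stp t G) n y)
    (f' := deriv fun r => pl t (stp t G') n r - pl t (stp t G) n r) (g' := fun _ => 0)
    (((pl_cont _ _ _).sub (pl_cont _ _ _)).continuousOn) continuousOn_const
    (fun r hr hS => by
      obtain ⟨j, hj, hj2⟩ := hm.step (r := r) ⟨hx.trans hr.1.le, hr.2.le.trans hy⟩ hS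
      exact ((stp_deriv hm hj hj2).sub (stp_deriv hm hj hj2)).differentiableAt.hasDerivAt)
    (fun r _ _ => hasDerivAt_const r _)
    (fun r hr hS => by
      obtain ⟨j, hj, hj2⟩ := hm.step (r := r) ⟨hx.trans hr.1.le, hr.2.le.trans hy⟩ hS
      have e : deriv (fun r => pl t (stp t G') n r - pl t (stp t G) n r) r = G' j - G j :=
        ((stp_deriv hm hj hj2).sub (stp_deriv hm hj hj2)).deriv
      rw [e]
      exact sub_nonneg.2 (h j hj (hr.1.trans hj2.2) (hj2.1.trans hr.2)))
    le_rfl x ⟨le_rfl, hxy⟩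
  linarith

theorem stp_const (t : ℕ → ℝ) (c : ℝ) (j : ℕ) : stp t (fun _ => c) j = c * (t j - t 0) := by
  induction j with
  | zero => rw [stp_zero, sub_self, mul_zero]
  | succ j ih =>
    rw [stp_succ, ih]
    ring

theorem stp_constv (hm : Msh t n) (hn : 0 < n) {r : ℝ} (hr : r ∈ Icc (t 0) (t n)) (c : ℝ) :
    pl t (stp t fun _ => c) n r = c * (r - t 0) := by
  obtain ⟨j, hj, hj2⟩ := hm.stepc hn hr
  rw [stp_on hm hj hj2, stp_const]
  ring

theorem stp_le (hm : Msh t n) (hn : 0 < n) {x y c : ℝ} (hx : t 0 ≤ x) (hxy : x ≤ y)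
    (hy : y ≤ t n) (h : ∀ j < n, x < t (j + 1) → t j < y → G j ≤ c) :
    pl t (stp t G) n y - pl t (stp t G) n x ≤ c * (y - x) := by
  have key := stp_inc (G' := fun _ => c) hm hn hx hxy hy h
  rw [stp_constv hm hn ⟨hx.trans hxy, hy⟩, stp_constv hm hn ⟨hx, hxy.trans hy⟩] at key
  linarith

theorem le_stp (hm : Msh t n) (hn : 0 < n) {x y c : ℝ} (hx : t 0 ≤ x) (hxy : x ≤ y)
    (hy : y ≤ t n) (h : ∀ j < n, x < t (j + 1) → t j < y → c ≤ G j) :
    c * (y - x) ≤ pl t (stp t G) n y - pl t (stp t G) n x := by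
  have key := stp_inc (G := fun _ => c) (G' := G) hm hn hx hxy hy h
  rw [stp_constv hm hn ⟨hx.trans hxy, hy⟩, stp_constv hm hn ⟨hx, hxy.trans hy⟩] at key
  linarith

/-- monotone slopes -/
theorem slope_mono (hG : ∀ j, j + 1 < n → G j ≤ G (j + 1)) {i j : ℕ} (hij : i ≤ j) (hj : j < n) :
    G i ≤ G j := by
  induction j with
  | zero =>
    have : i = 0 := by omega
    rw [this]
  | succ j ih =>
    rcases hij.lt_or_eq with h | h
    · exact (ih (by omega) (by omega)).trans (hG j hj)
    · rw [h]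

/-- **the chord of a convex function** -/
theorem stp_chord (hm : Msh t n) (hn : 0 < n) (hG : ∀ j, j + 1 < n → G j ≤ G (j + 1))
    {x u y : ℝ} (hx : t 0 ≤ x) (hxu : x ≤ u) (huy : u ≤ y) (hxy : x < y) (hy : y ≤ t n) :
    pl t (stp t G) n u ≤ li x y (pl t (stp t G) n x) (pl t (stp t G) n y) u := by
  obtain ⟨j, hj, hj2⟩ := hm.stepc hn (r := u) ⟨hx.trans hxu, huy.trans hy⟩
  have h1 := stp_le (G := G) hm hn hx hxu (huy.trans hy) (c := G j) fun i hi _ h => by
    refine slope_mono hG ?_ hj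
    by_contra h3
    have h4 := hm.le (i := j + 1) (j := i) (by omega) hi.le
    linarith [hj2.2]
  have h2 := le_stp (G := G) hm hn (hx.trans hxu) huy hy (c := G j) fun i hi h _ => by
    refine slope_mono hG ?_ hi
    by_contra h3
    have h4 := hm.le (i := i + 1) (j := j) (by omega) hj.le
    linarith [hj2.1]
  unfold li
  have d : 0 < y - x := by linarith
  have h3 := mul_le_mul_of_nonneg_right h1 (sub_nonneg.2 huy)
  have h4 := mul_le_mul_of_nonneg_right h2 (sub_nonneg.2 hxu)
  have h5 : (pl t (stp t G) n u - pl t (stp t G) n x) * (y - x)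
      ≤ (u - x) * (pl t (stp t G) n y - pl t (stp t G) n x) := by nlinarith
  have h6 : pl t (stp t G) n u - pl t (stp t G) n x
      ≤ (u - x) * (pl t (stp t G) n y - pl t (stp t G) n x) / (y - x) := (le_div_iff₀ d).2 h5
  have h7 : (u - x) * (pl t (stp t G) n y - pl t (stp t G) n x) / (y - x)
      = (u - x) / (y - x) * (pl t (stp t G) n y - pl t (stp t G) n x) := by ring
  linarith

end pl

end Pool.Agent.RZ.RCO
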