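import Pool.Agent.RZ.RCO.Ex14
import Pool.Agent.RZ.RCO.Kf3

/-! Route P: columns and rows of the constants of a world from the bundled data
(MP_73ccd0_lc). -/

namespace Pool.Agent.RZ.RCO

open Set Finset MeasureTheory Pool.Agent.RZ.RCRSHalf Pool.Agent.RZ.RCG Pool.Agent.RZ.RCG.Ct
open Pool.Agent.RZ.RCN Pool.Agent.RZ.RCN.K

set_option linter.unusedSectionVars false

variable {V : Type*} [Fintype V] [DecidableEq V]

/-- a sum with weights below a combination of the weights of known sums -/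
theorem combS_le {ι : Type*} {C : Finset V} {I : Finset ι} {f u : V → ℝ} {w : ι → V → ℝ}
    {κ φ : ι → ℝ} (u0 : ∀ c ∈ C, 0 ≤ u c) (κ0 : ∀ m ∈ I, 0 ≤ κ m)
    (hf : ∀ c ∈ C, f c ≤ ∑ m ∈ I, κ m * w m c) (h : ∀ m ∈ I, ∑ c ∈ C, w m c * u c ≤ φ m) :
    ∑ c ∈ C, f c * u c ≤ ∑ m ∈ I, κ m * φ m := by
  calc ∑ c ∈ C, f c * u c ≤ ∑ c ∈ C, (∑ m ∈ I, κ m * w m c) * u c :=
        Finset.sum_le_sum fun c hc => mul_le_mul_of_nonneg_right (hf c hc) (u0 c hc)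
    _ = ∑ m ∈ I, κ m * ∑ c ∈ C, w m c * u c := by
        rw [Finset.sum_congr rfl (g := fun c => ∑ m ∈ I, κ m * (w m c * u c)) fun c _ => by
          rw [Finset.sum_mul]
          exact Finset.sum_congr rfl fun m _ => by ring, Finset.sum_comm]
        exact Finset.sum_congr rfl fun m _ => by rw [Finset.mul_sum]
    _ ≤ _ := Finset.sum_le_sum fun m hm => mul_le_mul_of_nonneg_left (h m hm) (κ0 m hm)

/-- the data of the sum of level 2: target sums of `s` (bounds `l` at all vertices, implied by the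
families), position sums of `s'` at the vertex `d` -/
structure KcD (U : Finset V) (σ : ℝ) (S : Finset ℝ) (T : ℝ → V → V → ℝ) {L Λ Λ' L' Λ2 Λ2' : Type*}
    [Fintype Λ2] (s : S1 V L Λ Λ') (l : VrT V Unit) (s' : S1 V L' Λ2 Λ2') (d : V) (f : V → ℝ)
    (Gn Ge : Λ2 → ℝ → ℝ) (K K' : ℝ → ℝ) : Prop where
  fle : ∀ r ∈ Icc 0 σ, r ∉ S → ∀ x ∈ U.erase d, ∀ c ∈ (U.erase d).erase x, f c ≤ l.f () x c r
  iN : l.Im U σ S s.f s.NB l.N
  iD : l.Im U σ S s.f s.DB l.D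
  iP : l.Im U σ S s.f s.P l.P
  iQ : l.Im U σ S s.f s.Q l.Q
  Gn0 : ∀ m, ∀ r ∈ Icc 0 σ, 0 ≤ Gn m r
  Ge0 : ∀ m, ∀ r ∈ Icc 0 σ, 0 ≤ Ge m r
  kn : ∀ r ∈ Icc 0 σ, r ∉ S → ∀ x ∈ U.erase d,
    KF (T r) (fun x G => l.N () x G r + l.Q () x G r) (U.erase d) x ≤ ∑ m, Gn m r * s'.w m d x r
  ke : ∀ r ∈ Icc 0 σ, r ∉ S → ∀ x ∈ U.erase d,
    KF (T r) (fun x G => l.D () x G r + s.c4 r * l.P () x G r) (U.erase d) x
      ≤ ∑ m, Ge m r * s'.w m d x r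
  cK : ContinuousOn K (Icc 0 σ)
  dK : ∀ r ∈ Icc 0 σ, r ∉ S → HasDerivAt K (K' r) r
  K0 : 0 ≤ K σ
  hK : ∀ r ∈ Icc 0 σ, r ∉ S →
    ∑ m, (Gn m r * (s'.DBc m d (U.erase d) r + s'.c4 r * s'.Pc m d (U.erase d) r)
      + Ge m r * (s'.NBc m d (U.erase d) r + s'.Qc m d (U.erase d) r)) ≤ -K' r

section ksum

variable {L Λ Λ' L' Λ2 Λ2' : Type*} [Fintype Λ] [Fintype Λ'] [Fintype Λ2] [Fintype Λ2']
variable {hb : ℝ → V → V → ℝ} {U : Finset V} {τ σ : ℝ} {S : Finset ℝ} {T : ℝ → V → V → ℝ}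
  {gp gm : Finset V → V → V → ℝ → ℝ} {Fe Ge Fe' Ge' : Finset V → V → V → ℝ}
  {s : S1 V L Λ Λ'} {s' : S1 V L' Λ2 Λ2'} {g g' : IxF V → ℝ → ℝ}

/-- the continuity of the rate of level 2 -/
theorem kcont (στ : σ ≤ τ) (h : Sol1 hb U τ S T gp gm Fe Ge s g)
    (h' : Sol1 hb U σ S T gp gm Fe' Ge' s' g') (c d : V) : ContinuousOn
      (FkF T (pF (HFF hb τ Fe) g c) (nF (NGF Ge) g c) (pF (HFF hb σ Fe') g' d)
        (nF (NGF Ge') g' d) (F0 U c d)) (Icc 0 σ) := by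
  have sub : Icc 0 σ ⊆ Icc 0 τ := Icc_subset_Icc_right στ
  exact FkF_cont_ex (fun u v => (h'.x.s.cT u v)) (fun F e => (h.x.s.cH F c e).mono sub)
    (fun F e => (h.x.s.cN F c e).mono sub) (fun F e => h'.x.s.cH F d e)
    (fun F e => h'.x.s.cN F d e)
    (fun q r hr => (h.x.d q r (sub hr)).continuousAt.continuousWithinAt)
    (fun q r hr => (h'.x.d q r hr).continuousAt.continuousWithinAt)

/-- **the sum of level 2 over the first targets** -/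
theorem ksum_c (σ0 : 0 ≤ σ) (στ : σ ≤ τ) (h : Sol1 hb U τ S T gp gm Fe Ge s g)
    (h' : Sol1 hb U σ S T gp gm Fe' Ge' s' g') {l : VrT V Unit} {d : V} (hd : d ∈ U) {f : V → ℝ}
    (f0 : ∀ c ∈ U.erase d, 0 ≤ f c) {Gn G2 : Λ2 → ℝ → ℝ} {K K' : ℝ → ℝ}
    (hK : KcD U σ S T s l s' d f Gn G2 K K') :
    ∑ c ∈ U.erase d, f c * RCM.bk
      (FkF T (pF (HFF hb τ Fe) g c) (nF (NGF Ge) g c) (pF (HFF hb σ Fe') g' d)
        (nF (NGF Ge') g' d) (F0 U c d)) σ 0 ≤ K 0 := by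
  have m : ∀ {r : ℝ}, r ∈ Icc 0 σ → r ∈ Icc 0 τ := fun hr => ⟨hr.1, hr.2.trans στ⟩
  have sub : U.erase d ⊆ U := Finset.erase_subset _ _
  exact kF_sum_c_ex σ0 S (fun r hr => h.lb r (m hr)) (fun r hr => h'.lb r hr) hd f0
    hK.fle (fun x hx G hG hxG r hr hrS => hK.iN.sum_le hx hG hxG hr hrS
      (fun c => (h.lb r (m hr)).N0 _ _ _) fun l => h.ok.t.hN l x hx G hG hxG r (m hr) hrS)
    (fun x hx G hG hxG r hr hrS => hK.iD.sum_le hx hG hxG hr hrS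
      (fun c => (h.lb r (m hr)).D0 _ _ _) fun l => h.ok.t.hD l x hx G hG hxG r (m hr) hrS)
    (fun r hr hrS => fun x hx G hG hxG => ⟨hK.iP.sum_le hx hG hxG hr hrS
      (u := fun c => g (true, G.erase c, c, x) r) (fun c => (h.lb r (m hr)).u0 _)
      fun l => ((h.all r (m hr)).2.1 l x hx G hG hxG).1, hK.iQ.sum_le hx hG hxG hr hrS
      (u := fun c => g (false, G.erase c, c, x) r) (fun c => (h.lb r (m hr)).u0 _)
      fun l => ((h.all r (m hr)).2.1 l x hx G hG hxG).2⟩)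
    (fun l r hr hrS => h'.ok.p.hN l d hd (U.erase d) sub (Finset.notMem_erase _ _) r hr hrS)
    (fun l r hr hrS => h'.ok.p.hD l d hd (U.erase d) sub (Finset.notMem_erase _ _) r hr hrS)
    (fun l r hr _ => (h'.all r hr).2.2 l) hK.Gn0 hK.Ge0 hK.kn hK.ke
    (fun c _ => kcont στ h h' c d) hK.cK hK.dK hK.K0 hK.hK 0 ⟨le_rfl, σ0⟩

/-- **the sum of level 2 over the second targets** -/
theorem ksum_d (σ0 : 0 ≤ σ) (στ : σ ≤ τ) (h : Sol1 hb U τ S T gp gm Fe Ge s g)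
    (h' : Sol1 hb U σ S T gp gm Fe' Ge' s' g') {l : VrT V Unit} {c : V} (hc : c ∈ U) {f : V → ℝ}
    (f0 : ∀ d ∈ U.erase c, 0 ≤ f d) {Gn G2 : Λ → ℝ → ℝ} {K K' : ℝ → ℝ}
    (hK : KcD U σ S T s' l s c f Gn G2 K K') :
    ∑ d ∈ U.erase c, f d * RCM.bk
      (FkF T (pF (HFF hb τ Fe) g c) (nF (NGF Ge) g c) (pF (HFF hb σ Fe') g' d)
        (nF (NGF Ge') g' d) (F0 U c d)) σ 0 ≤ K 0 := by
  have m : ∀ {r : ℝ}, r ∈ Icc 0 σ → r ∈ Icc 0 τ := fun hr => ⟨hr.1, hr.2.trans στ⟩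
  have sub : U.erase c ⊆ U := Finset.erase_subset _ _
  exact kF_sum_d_ex σ0 S (fun r hr => h.lb r (m hr)) (fun r hr => h'.lb r hr) hc f0
    hK.fle (fun x hx G hG hxG r hr hrS => hK.iN.sum_le hx hG hxG hr hrS
      (fun c => (h'.lb r hr).N0 _ _ _) fun l => h'.ok.t.hN l x hx G hG hxG r hr hrS)
    (fun x hx G hG hxG r hr hrS => hK.iD.sum_le hx hG hxG hr hrS
      (fun c => (h'.lb r hr).D0 _ _ _) fun l => h'.ok.t.hD l x hx G hG hxG r hr hrS)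
    (fun r hr hrS => fun x hx G hG hxG => ⟨hK.iP.sum_le hx hG hxG hr hrS
      (u := fun c => g' (true, G.erase c, c, x) r) (fun c => (h'.lb r hr).u0 _)
      fun l => ((h'.all r hr).2.1 l x hx G hG hxG).1, hK.iQ.sum_le hx hG hxG hr hrS
      (u := fun c => g' (false, G.erase c, c, x) r) (fun c => (h'.lb r hr).u0 _)
      fun l => ((h'.all r hr).2.1 l x hx G hG hxG).2⟩)
    (fun l r hr hrS => h.ok.p.hN l c hc (U.erase c) sub (Finset.notMem_erase _ _) r (m hr) hrS)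
    (fun l r hr hrS => h.ok.p.hD l c hc (U.erase c) sub (Finset.notMem_erase _ _) r (m hr) hrS)
    (fun l r hr _ => (h.all r (m hr)).2.2 l) hK.Gn0 hK.Ge0 hK.kn hK.ke
    (fun d _ => kcont στ h h' c d) hK.cK hK.dK hK.K0 hK.hK 0 ⟨le_rfl, σ0⟩

end ksum

/-! ### columns and rows -/

section top

variable {Z : Hzd} {x : V → V → ℝ} {P : V → Prop} [DecidablePred P]
variable {A D : Finset V} {α τ σ ρ : ℝ} {S : Finset ℝ} {ζ : V → V → ℝ → ℝ} {Y N : V → ℝ → ℝ}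
variable {Λ0 : Type*} [Fintype Λ0] {L1 Λ1 Λ1' : Type*} [Fintype Λ1] [Fintype Λ1']
  {L2 Λ2 Λ2' : Type*} [Fintype Λ2] [Fintype Λ2'] {L3 Λ3 Λ3' : Type*} [Fintype Λ3] [Fintype Λ3']
variable {q : R12 V Λ0} {s1 : S1 V L1 Λ1 Λ1'} {s2 : S1 V L2 Λ2 Λ2'} {s3 : S1 V L3 Λ3 Λ3'}
  {gp gp' gm gm' : Finset V → V → V → ℝ → ℝ} {g1 g2 g3 : IxF V → ℝ → ℝ}

section one

variable {hb : ℝ → V → V → ℝ} {U : Finset V} {T : ℝ → V → V → ℝ}
  {Fe Ge : Finset V → V → V → ℝ} {g : IxF V → ℝ → ℝ} {s : S1 V L1 Λ1 Λ1'}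

/-- target sums at one time -/
theorem Sol1.tgt_n (h : Sol1 hb U σ S T gp gm Fe Ge s g) {e : V} (he : e ∈ U) {f : V → ℝ}
    {r : ℝ} (hr : r ∈ Icc 0 σ) {I : Finset L1} {κ : L1 → ℝ} (κ0 : ∀ l ∈ I, 0 ≤ κ l)
    (hf : ∀ c ∈ U.erase e, f c ≤ ∑ l ∈ I, κ l * s.f l e c r) :
    ∑ c ∈ U.erase e, f c * g (false, (U.erase e).erase c, c, e) r
      ≤ ∑ l ∈ I, κ l * s.Q l e (U.erase e) r :=
  combS_le (fun _ _ => h.x.g0 _ hr) κ0 hf fun l _ =>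
    ((h.all r hr).2.1 l e he (U.erase e) (Finset.erase_subset _ _) (Finset.notMem_erase _ _)).2

theorem Sol1.tgt_p (h : Sol1 hb U σ S T gp gm Fe Ge s g) {e : V} (he : e ∈ U) {f : V → ℝ}
    {r : ℝ} (hr : r ∈ Icc 0 σ) {I : Finset L1} {κ : L1 → ℝ} (κ0 : ∀ l ∈ I, 0 ≤ κ l)
    (hf : ∀ c ∈ U.erase e, f c ≤ ∑ l ∈ I, κ l * s.f l e c r) :
    ∑ c ∈ U.erase e, f c * g (true, (U.erase e).erase c, c, e) r
      ≤ ∑ l ∈ I, κ l * s.P l e (U.erase e) r :=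
  combS_le (fun _ _ => h.x.g0 _ hr) κ0 hf fun l _ =>
    ((h.all r hr).2.1 l e he (U.erase e) (Finset.erase_subset _ _) (Finset.notMem_erase _ _)).1

/-- position sums at one time -/
theorem Sol1.pos_n (h : Sol1 hb U σ S T gp gm Fe Ge s g) {c : V} (hc : c ∈ U) {f : V → ℝ}
    {r : ℝ} (hr : r ∈ Icc 0 σ) {κ : Λ1 → ℝ} (κ0 : ∀ l, 0 ≤ κ l)
    (hf : ∀ e ∈ U.erase c, f e ≤ ∑ l, κ l * s.w l c e r) :
    ∑ e ∈ U.erase c, f e * g (false, (U.erase c).erase e, c, e) r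
      ≤ ∑ l, κ l * s.Qc l c (U.erase c) r :=
  combS_le (fun _ _ => h.x.g0 _ hr) (fun l _ => κ0 l) hf fun l _ =>
    ((h.all r hr).2.2 l c hc (U.erase c) (Finset.erase_subset _ _) (Finset.notMem_erase _ _)).2

theorem Sol1.pos_p (h : Sol1 hb U σ S T gp gm Fe Ge s g) {c : V} (hc : c ∈ U) {f : V → ℝ}
    {r : ℝ} (hr : r ∈ Icc 0 σ) {κ : Λ1 → ℝ} (κ0 : ∀ l, 0 ≤ κ l)
    (hf : ∀ e ∈ U.erase c, f e ≤ ∑ l, κ l * s.w l c e r) :
    ∑ e ∈ U.erase c, f e * g (true, (U.erase c).erase e, c, e) r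
      ≤ ∑ l, κ l * s.Pc l c (U.erase c) r :=
  combS_le (fun _ _ => h.x.g0 _ hr) (fun l _ => κ0 l) hf fun l _ =>
    ((h.all r hr).2.2 l c hc (U.erase c) (Finset.erase_subset _ _) (Finset.notMem_erase _ _)).1

end one

end top

end Pool.Agent.RZ.RCO
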