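import Pool.Agent.RZ.RCO.Gs10_2
import Pool.Agent.RZ.RCO.Gs11_1

/-! The bundles of level 1 from the data of a system over time (MP_73ccd0_lc). -/

namespace Pool.Agent.RZ.RCO

open Set Finset Pool.Agent.RZ.RCM

set_option linter.unusedSectionVars false

variable {V : Type*} [Fintype V] [DecidableEq V]

/-! ### end values -/

/-! ### the bundle -/

/-- the bundle of the data `dt, dp` -/
noncomputable def dS1 {J M Λ : Type*} [Fintype J] [Nonempty J] [Fintype M] [Nonempty M]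
    (x : V → V → ℝ) (P : V → Prop) (D : Finset V) (T : ℝ → V → V → ℝ)
    (Dd Ee : Finset V → V → V → ℝ → ℝ) (Dk Ek : ℝ → V → V → ℝ) (E : TEnv) (wv : Λ → Pt → ℝ)
    (bf : Bool → Λ → V → Finset V → ℝ → ℝ) (w1 : M → Pt → ℝ)
    (bf1 : Bool → M → V → Finset V → ℝ → ℝ) (νf δf : M → V → Finset V → ℝ) (m0 : M)
    (dt : DT1 J Λ) (dp : DP1 M) : S1 V (Unit × J × Option V) (M × Option V) Λ :=
  mkS1 x P D T Dd Ee E.c1 E.c4 wv bf (fun _ _ => 1) (fun _ => dt.f)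
    (fun _ e F _ => νf m0 e F) (kbf (fun _ _ => 1) Dk E.κD fun _ => δf m0)
    (kbf (fun _ _ => 1) Ek E.κE fun _ => δf m0) (fun _ => dt.Gn) (fun _ => dt.Gd)
    w1 bf1 dp.g Dk Ek E.κD E.κE νf δf dp.Kn dp.Kp dp.Ke dp.Km

section ok

open Pool.Agent.RZ.RCRSHalf Pool.Agent.RZ.RCG Pool.Agent.RZ.RCG.Ct Pool.Agent.RZ.RCN Pool.Agent.RZ.RCN.K

variable {Z : Hzd} {x : V → V → ℝ} {P : V → Prop} [DecidablePred P] {D : Finset V}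
  {ζ : V → V → ℝ → ℝ} {Y : V → ℝ → ℝ} {τ σ : ℝ} {S : Finset ℝ} {A' B' : ℝ → V → V → ℝ}
  {gp gp' gm gm' : Finset V → V → V → ℝ → ℝ} {Fe Ge : Finset V → V → V → ℝ}
  {J M Λ : Type*} [Fintype J] [Nonempty J] [Fintype M] [Nonempty M] [Fintype Λ]
  {E : TEnv} {wv : Λ → Pt → ℝ} {bf : Bool → Λ → V → Finset V → ℝ → ℝ}
  {B : Bool → Λ → ℝ → Pt → ℝ} {CB : Bool → Λ → ℝ → ℝ} {w1 : M → Pt → ℝ}
  {bf1 : Bool → M → V → Finset V → ℝ → ℝ} {B1 : Bool → M → ℝ → Pt → ℝ}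
  {CB1 : Bool → M → ℝ → ℝ} {Dk Ek : ℝ → V → V → ℝ} {νf δf : M → V → Finset V → ℝ}
  {ν δν : M → Pt → ℝ} {Cν Cδ : M → ℝ} {dt : DT1 J Λ} {dp : DP1 M} {m0 : M} {j0 : J}
  {S1f S2f κ : ℝ → ℝ} {lq : Bool}

/-- **a bundle of level 1 is correct** -/
theorem dS1_ok (hx : RCG.Ct.Wt x P 1) (hD2 : D.card ≤ 2) (στ : σ ≤ τ)
    (hg : G12X Dᶜ τ (Tc0 (Z.hh x P) D ζ Y) A' B' gp gp' gm gm')
    (env : WEnv x P D σ S (Z.hh x P) (Tc0 (Z.hh x P) D ζ Y) E.R E.Rp E.W E.Wp)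
    (rw : RwB x P D σ S gp gm wv bf B CB) (rw1 : RwB x P D σ S gp gm w1 bf1 B1 CB1)
    (hK : KrE x P D σ S Fe (DB lq (Z.hh x P) σ Fe E.κD κ) (EBf (Z.hh x P) σ Fe E.κE) Dk Ek
      E.RD E.RE E.RDp E.REp E.κD E.κE)
    (he : EndV x P D w1 Fe Ge νf δf ν δν Cν Cδ) (hm0 : ∀ p, w1 m0 p = 1)
    (ht : dt.Ok σ S E wv B CB (ν m0) (δν m0) (Cν m0) (Cδ m0))
    (hp : dp.Ok σ S E w1 B1 CB1 ν δν Cν Cδ)
    (hP1 : ∀ r ∈ Icc 0 σ, VLe dt.f j0 r (S1f r)) (hP2 : ∀ r ∈ Icc 0 σ, VLe dp.g m0 r (S2f r))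
    (hX : KEx lq (Z.hh x P) σ Dᶜ Fe E.c1 E.c4 E.κD E.κE S1f S2f κ) :
    (dS1 x P D (Tc0 (Z.hh x P) D ζ Y) (DB lq (Z.hh x P) σ Fe E.κD κ) (EBf (Z.hh x P) σ Fe E.κE)
      Dk Ek E wv bf w1 bf1 νf δf m0 dt dp).Ok Dᶜ σ S
      (Tc0 (Z.hh x P) D ζ Y) gp gm (HFF (Z.hh x P) σ Fe) (NGF Ge) :=
  mkS1_ok hx hD2 στ hg env rw
    (fun _ => ht.grp env.hP env.hx env.hD hK (fun _ _ _ _ _ _ _ => le_rfl)
      (he.hG.one hm0) (he.hF.one hm0) (he.fν m0) (he.fδ m0))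
    (hp.pf env rw1 hK (fun _ _ _ _ _ _ _ => le_rfl) he.hG he.hF he.fν he.fδ) () (fun _ => rfl)
    j0 m0 hm0 hP1 hP2 ht.c10 ht.c40 hK.κD0 hK.κE0 he.hF.g0 he.hF.mg hX

end ok

end Pool.Agent.RZ.RCO
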