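import Pool.Agent.RZ.RCM.NuB
import Pool.Agent.RZ.RCO.Ex15
import Pool.Agent.RZ.RCO.Gs11_2

/-! Route P: columns and rows of the constants of a world at the real vertices, from the functions
of the point (MP_73ccd0_lc). -/

namespace Pool.Agent.RZ.RCO

open Set Finset MeasureTheory Pool.Agent.RZ.RCRSHalf Pool.Agent.RZ.RCG Pool.Agent.RZ.RCG.Ct
open Pool.Agent.RZ.RCN Pool.Agent.RZ.RCN.K

set_option linter.unusedSectionVars false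

variable {V : Type*} [Fintype V] [DecidableEq V]

/-! ### the sums of one system at the real vertices -/

section one

variable {x : V → V → ℝ} {P : V → Prop} {D : Finset V} {σ : ℝ} {S : Finset ℝ}
  {hb T : ℝ → V → V → ℝ} {gp gm : Finset V → V → V → ℝ → ℝ} {Fe Ge : Finset V → V → V → ℝ}
  {J M Λ : Type*} [Fintype J] [Nonempty J] [Fintype M] [Nonempty M] [Fintype Λ]
  {Dd Ee : Finset V → V → V → ℝ → ℝ} {Dk Ek : ℝ → V → V → ℝ} {E : TEnv} {wv : Λ → Pt → ℝ}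
  {bf : Bool → Λ → V → Finset V → ℝ → ℝ} {w1 : M → Pt → ℝ}
  {bf1 : Bool → M → V → Finset V → ℝ → ℝ} {νf δf : M → V → Finset V → ℝ} {m0 : M}
  {dt : DT1 J Λ} {dp : DP1 M} {g : IxF V → ℝ → ℝ}

/-- target sums at a real vertex: the lower parts -/
theorem dS1_tn
    (h : Sol1 hb Dᶜ σ S T gp gm Fe Ge (dS1 x P D T Dd Ee Dk Ek E wv bf w1 bf1 νf δf m0 dt dp) g)
    {e : V} (he : e ∈ Dᶜ) (hPe : P e) {f : V → ℝ} (hf : ∀ c, f c ≤ 1) {r : ℝ}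
    (hr : r ∈ Icc 0 σ) :
    ∑ c ∈ Dᶜ.erase e, f c * g (false, (Dᶜ.erase e).erase c, c, e) r
      ≤ dt.f.p false r (fp x D e) := by
  obtain ⟨j, hj⟩ := infP_ex (fun j => dt.f.Φ false j r) (fp x D e)
  have key := h.tgt_n he (f := f) hr (I := {((), j, none)}) (κ := fun _ => 1)
    (fun _ _ => zero_le_one) (fun c _ => by
      rw [Finset.sum_singleton]
      show f c ≤ 1 * 1
      rw [one_mul]
      exact hf c)
  rw [Finset.sum_singleton, one_mul] at key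
  refine key.trans (le_of_eq ?_)
  show vf x P D (dt.f.Φ false j r) (dt.f.C false j r) e (wd D none e (Dᶜ.erase e)) = _
  rw [wd_none, vf_l hPe]
  exact hj.symm

/-- target sums at a real vertex: the upper parts -/
theorem dS1_tp
    (h : Sol1 hb Dᶜ σ S T gp gm Fe Ge (dS1 x P D T Dd Ee Dk Ek E wv bf w1 bf1 νf δf m0 dt dp) g)
    {e : V} (he : e ∈ Dᶜ) (hPe : P e) {f : V → ℝ} (hf : ∀ c, f c ≤ 1) {r : ℝ}
    (hr : r ∈ Icc 0 σ) :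
    ∑ c ∈ Dᶜ.erase e, f c * g (true, (Dᶜ.erase e).erase c, c, e) r
      ≤ dt.f.p true r (fp x D e) := by
  obtain ⟨j, hj⟩ := infP_ex (fun j => dt.f.Φ true j r) (fp x D e)
  have key := h.tgt_p he (f := f) hr (I := {((), j, none)}) (κ := fun _ => 1)
    (fun _ _ => zero_le_one) (fun c _ => by
      rw [Finset.sum_singleton]
      show f c ≤ 1 * 1
      rw [one_mul]
      exact hf c)
  rw [Finset.sum_singleton, one_mul] at key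
  refine key.trans (le_of_eq ?_)
  show vf x P D (dt.f.Φ true j r) (dt.f.C true j r) e (wd D none e (Dᶜ.erase e)) = _
  rw [wd_none, vf_l hPe]
  exact hj.symm

open Classical in
/-- position sums at a real vertex: the lower parts -/
theorem dS1_pn
    (h : Sol1 hb Dᶜ σ S T gp gm Fe Ge (dS1 x P D T Dd Ee Dk Ek E wv bf w1 bf1 νf δf m0 dt dp) g)
    (hm0 : ∀ p, w1 m0 p = 1)
    {c : V} (hc : c ∈ Dᶜ) (hPc : P c) {f : V → ℝ} (hf : ∀ e, f e ≤ 1) {r : ℝ}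
    (hr : r ∈ Icc 0 σ) :
    ∑ e ∈ Dᶜ.erase c, f e * g (false, (Dᶜ.erase c).erase e, c, e) r
      ≤ dp.g.Φ false m0 r (fp x D c) := by
  have key := h.pos_n hc (f := f) hr (κ := fun l => if l = (m0, none) then 1 else 0)
    (fun l => by split_ifs <;> simp) (fun e _ => by
      simp only [ite_mul, zero_mul, one_mul, Finset.sum_ite_eq', Finset.mem_univ, if_true]
      show f e ≤ w1 m0 (fp x D e)
      rw [hm0]
      exact hf e)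
  simp only [ite_mul, zero_mul, one_mul, Finset.sum_ite_eq', Finset.mem_univ, if_true] at key
  refine key.trans (le_of_eq ?_)
  show vf x P D (dp.g.Φ false m0 r) (dp.g.C false m0 r) c (wd D none c (Dᶜ.erase c)) = _
  rw [wd_none, vf_l hPc]

open Classical in
/-- position sums at a real vertex: the upper parts -/
theorem dS1_pp
    (h : Sol1 hb Dᶜ σ S T gp gm Fe Ge (dS1 x P D T Dd Ee Dk Ek E wv bf w1 bf1 νf δf m0 dt dp) g)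
    (hm0 : ∀ p, w1 m0 p = 1)
    {c : V} (hc : c ∈ Dᶜ) (hPc : P c) {f : V → ℝ} (hf : ∀ e, f e ≤ 1) {r : ℝ}
    (hr : r ∈ Icc 0 σ) :
    ∑ e ∈ Dᶜ.erase c, f e * g (true, (Dᶜ.erase c).erase e, c, e) r
      ≤ dp.g.Φ true m0 r (fp x D c) := by
  have key := h.pos_p hc (f := f) hr (κ := fun l => if l = (m0, none) then 1 else 0)
    (fun l => by split_ifs <;> simp) (fun e _ => by
      simp only [ite_mul, zero_mul, one_mul, Finset.sum_ite_eq', Finset.mem_univ, if_true]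
      show f e ≤ w1 m0 (fp x D e)
      rw [hm0]
      exact hf e)
  simp only [ite_mul, zero_mul, one_mul, Finset.sum_ite_eq', Finset.mem_univ, if_true] at key
  refine key.trans (le_of_eq ?_)
  show vf x P D (dp.g.Φ true m0 r) (dp.g.C true m0 r) c (wd D none c (Dᶜ.erase c)) = _
  rw [wd_none, vf_l hPc]

/-- rows of level 1/2 at a real vertex from the rows with the position weights -/
theorem rowE_full {νf : M → V → Finset V → ℝ} {G : Finset V → V → V → ℝ} {ν : M → Pt → ℝ}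
    {Cν : M → ℝ} (hG : RowE Dᶜ (fun m _ j => w1 m (fp x D j)) νf G)
    (fν : ∀ m, FB x P D (νf m) (ν m) (Cν m)) (hm0 : ∀ p, w1 m0 p = 1)
    {c : V} (hc : c ∈ Dᶜ) (hPc : P c) {f : V → ℝ} (hf : ∀ e, f e ≤ 1) :
    ∑ e ∈ Dᶜ.erase c, f e * G ((Dᶜ.erase c).erase e) c e ≤ ν m0 (fp x D c) := by
  have h1 := hG.row m0 c hc (Dᶜ.erase c) (Finset.erase_subset _ _) (Finset.notMem_erase _ _)
  have h2 := (fν m0).fu c hc hPc (Dᶜ.erase c) (Finset.erase_subset _ _)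
    (Finset.notMem_erase _ _)
  refine le_trans (Finset.sum_le_sum fun e _ => ?_) (h1.trans h2)
  show f e * G _ c e ≤ w1 m0 (fp x D e) * G _ c e
  rw [hm0]
  exact mul_le_mul_of_nonneg_right (hf e) (hG.g0 _ _ _)

end one

/-! ### the bounds of a world -/

section full

variable {Z : Hzd} {x : V → V → ℝ} {P : V → Prop} [DecidablePred P]
variable {A D : Finset V} {α τ σ ρ : ℝ} {S : Finset ℝ} {ζ : V → V → ℝ → ℝ} {Y N : V → ℝ → ℝ}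
variable {Λ0 : Type*} [Fintype Λ0] {q : R12 V Λ0}
  {gp gp' gm gm' : Finset V → V → V → ℝ → ℝ} {g1 g2 g3 : IxF V → ℝ → ℝ}
-- the first system
variable {J1 M1 Λ1 : Type*} [Fintype J1] [Nonempty J1] [Fintype M1] [Nonempty M1] [Fintype Λ1]
  {Dd1 Ee1 : Finset V → V → V → ℝ → ℝ} {Dk1 Ek1 : ℝ → V → V → ℝ} {E1 : TEnv}
  {wv1 : Λ1 → Pt → ℝ} {bf1 : Bool → Λ1 → V → Finset V → ℝ → ℝ} {u1 : M1 → Pt → ℝ}
  {bu1 : Bool → M1 → V → Finset V → ℝ → ℝ} {νf1 δf1 : M1 → V → Finset V → ℝ} {m1 : M1}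
  {dt1 : DT1 J1 Λ1} {dp1 : DP1 M1}
-- the second system
variable {J2 M2 Λ2 : Type*} [Fintype J2] [Nonempty J2] [Fintype M2] [Nonempty M2] [Fintype Λ2]
  {Dd2 Ee2 : Finset V → V → V → ℝ → ℝ} {Dk2 Ek2 : ℝ → V → V → ℝ} {E2 : TEnv}
  {wv2 : Λ2 → Pt → ℝ} {bf2 : Bool → Λ2 → V → Finset V → ℝ → ℝ} {u2 : M2 → Pt → ℝ}
  {bu2 : Bool → M2 → V → Finset V → ℝ → ℝ} {νf2 δf2 : M2 → V → Finset V → ℝ} {m2 : M2}
  {dt2 : DT1 J2 Λ2} {dp2 : DP1 M2}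
-- the released system
variable {J3 M3 Λ3 : Type*} [Fintype J3] [Nonempty J3] [Fintype M3] [Nonempty M3] [Fintype Λ3]
  {Dd3 Ee3 : Finset V → V → V → ℝ → ℝ} {Dk3 Ek3 : ℝ → V → V → ℝ} {E3 : TEnv}
  {wv3 : Λ3 → Pt → ℝ} {bf3 : Bool → Λ3 → V → Finset V → ℝ → ℝ} {u3 : M3 → Pt → ℝ}
  {bu3 : Bool → M3 → V → Finset V → ℝ → ℝ} {νf3 δf3 : M3 → V → Finset V → ℝ} {m3 : M3}
  {dt3 : DT1 J3 Λ3} {dp3 : DP1 M3}

/-- the functions of the point which bound the columns and rows: `G0` the rows of level 1/2 at the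
time `0`, `Gr` the upper ones at the release time, `Hr` the rates between the release time and the
end, `K12` targets of the first and positions of the second system, and so on, `dr` the direct
parts -/
structure EgB where
  G0 : Pt → ℝ
  Gr : Pt → ℝ
  Hr : Pt → ℝ
  K12 : Pt → ℝ
  K21 : Pt → ℝ
  K13 : Pt → ℝ
  K31 : Pt → ℝ
  /-- targets of the first system, upper ones at the release time, lower ones at `0` -/
  P1 : Pt → ℝ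
  N1 : Pt → ℝ
  /-- positions of the first system -/
  Pc1 : Pt → ℝ
  Nc1 : Pt → ℝ
  N2 : Pt → ℝ
  Nc2 : Pt → ℝ
  N3 : Pt → ℝ
  Nc3 : Pt → ℝ
  dd : Pt → ℝ
  df : Pt → ℝ

namespace EgB

variable (b : EgB)

/-- the column of the deleted constants -/
def cl (p : Pt) : ℝ := b.K12 p + b.G0 p + b.N1 p + b.Nc2 p + b.dd p
/-- the row of the deleted constants -/
def rl (p : Pt) : ℝ := b.K21 p + b.G0 p + b.Nc1 p + b.N2 p + b.dd p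
/-- the column of the released constants -/
def cf (p : Pt) : ℝ := b.Hr p + b.P1 p + b.K13 p + b.G0 p + b.N1 p + b.Gr p + b.Nc3 p + b.df p
/-- the row of the released constants -/
def rf (p : Pt) : ℝ := b.Hr p + b.Pc1 p + b.K31 p + b.G0 p + b.Nc1 p + b.Gr p + b.N3 p + b.df p

end EgB

/-- the weights of the real vertices -/
noncomputable def ind (P : V → Prop) [DecidablePred P] (c : V) : ℝ := if P c then 1 else 0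

theorem ind_nonneg (c : V) : 0 ≤ ind P c := by unfold ind; split_ifs <;> simp

theorem ind_le (c : V) : ind P c ≤ 1 := by unfold ind; split_ifs <;> simp

/-- a real point of the full world -/
def Fu (p : Pt) : Prop := Sa p ∧ p = p.full

theorem fu_fp (hP : RCG.Ct.Wt x P 1) (hD : D.card ≤ 2) {v : V} (hv : v ∈ Dᶜ) (hPv : P v) :
    Fu (fp x D v) := ⟨sa_full hP (wt_of hP) hD hv hPv, rfl⟩

section inp

variable (Z : Hzd) (x : V → V → ℝ) (P : V → Prop) [DecidablePred P] (D : Finset V)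
    (τ σ ρ : ℝ) (S : Finset ℝ) (T : ℝ → V → V → ℝ)
    {L1 Λ1 Λ1' L2 Λ2 Λ2' L3 Λ3 Λ3' : Type*} [Fintype Λ1] [Fintype Λ2] [Fintype Λ3]
    (s1 : S1 V L1 Λ1 Λ1') (s2 : S1 V L2 Λ2 Λ2') (s3 : S1 V L3 Λ3 Λ3')
    (gp gm : Finset V → V → V → ℝ → ℝ) (g1 g2 g3 : IxF V → ℝ → ℝ) (b : EgB)

/-- the common inputs of columns and rows -/
structure EgI0 : Prop where
  G0 : ∀ c ∈ Dᶜ, P c →
    ∑ e ∈ Dᶜ.erase c, ind P e * gm ((Dᶜ.erase c).erase e) c e 0 ≤ b.G0 (fp x D c)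
  Gr : ∀ c ∈ Dᶜ, P c →
    ∑ e ∈ Dᶜ.erase c, ind P e * gp ((Dᶜ.erase c).erase e) c e ρ ≤ b.Gr (fp x D c)
  Hr : ∀ c ∈ Dᶜ, P c →
    ∑ e ∈ Dᶜ.erase c, ind P e * RCM.bk (fun r => Z.hh x P r c e) τ ρ ≤ b.Hr (fp x D c)

/-- **the inputs of the bounds of the columns** -/
structure EgIc : Prop where
  K12 : ∀ d ∈ Dᶜ, P d → ∃ (l : VrT V Unit) (Gn Ge : Λ2 → ℝ → ℝ) (K K' : ℝ → ℝ),
    KcD Dᶜ σ S T s1 l s2 d (ind P) Gn Ge K K' ∧ K 0 ≤ b.K12 (fp x D d)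
  K13 : ∀ d ∈ Dᶜ, P d → ∃ (l : VrT V Unit) (Gn Ge : Λ3 → ℝ → ℝ) (K K' : ℝ → ℝ),
    KcD Dᶜ σ S T s1 l s3 d (ind P) Gn Ge K K' ∧ K 0 ≤ b.K13 (fp x D d)
  dc : ∀ d ∈ Dᶜ, P d → ∑ c ∈ Dᶜ.erase d, ind P c * DdF (Z.hh x P) Dᶜ σ T g1 g2 c d
    ≤ b.dd (fp x D d)
  fc : ∀ d ∈ Dᶜ, P d → ∑ c ∈ Dᶜ.erase d, ind P c * DfF (Z.hh x P) Dᶜ σ ρ T gp g1 g3 c d
    ≤ b.df (fp x D d)

/-- **the inputs of the bounds of the rows** -/
structure EgIr : Prop where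
  K21 : ∀ c ∈ Dᶜ, P c → ∃ (l : VrT V Unit) (Gn Ge : Λ1 → ℝ → ℝ) (K K' : ℝ → ℝ),
    KcD Dᶜ σ S T s2 l s1 c (ind P) Gn Ge K K' ∧ K 0 ≤ b.K21 (fp x D c)
  K31 : ∀ c ∈ Dᶜ, P c → ∃ (l : VrT V Unit) (Gn Ge : Λ1 → ℝ → ℝ) (K K' : ℝ → ℝ),
    KcD Dᶜ σ S T s3 l s1 c (ind P) Gn Ge K K' ∧ K 0 ≤ b.K31 (fp x D c)
  dr : ∀ c ∈ Dᶜ, P c → ∑ d ∈ Dᶜ.erase c, ind P d * DdF (Z.hh x P) Dᶜ σ T g1 g2 c d
    ≤ b.dd (fp x D c)
  fr : ∀ c ∈ Dᶜ, P c → ∑ d ∈ Dᶜ.erase c, ind P d * DfF (Z.hh x P) Dᶜ σ ρ T gp g1 g3 c d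
    ≤ b.df (fp x D c)

end inp

/-- the values of the three systems below the functions of the point: columns -/
structure EgVc (ρ : ℝ) (dt1 : DT1 J1 Λ1) (dp2 : DP1 M2) (m2 : M2) (dp3 : DP1 M3) (m3 : M3)
    (b : EgB) : Prop where
  P1 : ∀ p, Fu p → dt1.f.p true ρ p ≤ b.P1 p
  N1 : ∀ p, Fu p → dt1.f.p false 0 p ≤ b.N1 p
  Nc2 : ∀ p, Fu p → dp2.g.Φ false m2 0 p ≤ b.Nc2 p
  Nc3 : ∀ p, Fu p → dp3.g.Φ false m3 0 p ≤ b.Nc3 p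

/-- the values of the three systems below the functions of the point: rows -/
structure EgVr (ρ : ℝ) (dp1 : DP1 M1) (m1 : M1) (dt2 : DT1 J2 Λ2) (dt3 : DT1 J3 Λ3)
    (b : EgB) : Prop where
  Pc1 : ∀ p, Fu p → dp1.g.Φ true m1 ρ p ≤ b.Pc1 p
  Nc1 : ∀ p, Fu p → dp1.g.Φ false m1 0 p ≤ b.Nc1 p
  N2 : ∀ p, Fu p → dt2.f.p false 0 p ≤ b.N2 p
  N3 : ∀ p, Fu p → dt3.f.p false 0 p ≤ b.N3 p

/-- **the columns of the constants at a real vertex** -/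
theorem FulF.egc (h : FulF Z x P A D α τ σ ρ S ζ Y N q
      (dS1 x P D (Tc0 (Z.hh x P) D ζ Y) Dd1 Ee1 Dk1 Ek1 E1 wv1 bf1 u1 bu1 νf1 δf1 m1 dt1 dp1)
      (dS1 x P D (Tc0 (Z.hh x P) D ζ Y) Dd2 Ee2 Dk2 Ek2 E2 wv2 bf2 u2 bu2 νf2 δf2 m2 dt2 dp2)
      (dS1 x P D (Tc0 (Z.hh x P) D ζ Y) Dd3 Ee3 Dk3 Ek3 E3 wv3 bf3 u3 bu3 νf3 δf3 m3 dt3 dp3)
      gp gp' gm gm' g1 g2 g3)
    (hD : D.card ≤ 2) (hu2 : ∀ p, u2 m2 p = 1) (hu3 : ∀ p, u3 m3 p = 1)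
    {b : EgB} (h0 : EgI0 Z x P D τ ρ gp gm b)
    (hi : EgIc Z x P D σ ρ S (Tc0 (Z.hh x P) D ζ Y)
      (dS1 x P D (Tc0 (Z.hh x P) D ζ Y) Dd1 Ee1 Dk1 Ek1 E1 wv1 bf1 u1 bu1 νf1 δf1 m1 dt1 dp1)
      (dS1 x P D (Tc0 (Z.hh x P) D ζ Y) Dd2 Ee2 Dk2 Ek2 E2 wv2 bf2 u2 bu2 νf2 δf2 m2 dt2 dp2)
      (dS1 x P D (Tc0 (Z.hh x P) D ζ Y) Dd3 Ee3 Dk3 Ek3 E3 wv3 bf3 u3 bu3 νf3 δf3 m3 dt3 dp3)
      gp g1 g2 g3 b)
    (hv : EgVc ρ dt1 dp2 m2 dp3 m3 b) {d : V} (hd : d ∈ Dᶜ) (hPd : P d) :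
    ∑ c ∈ Dᶜ.erase d, ind P c * LdF (Z.hh x P) Dᶜ τ σ (Tc0 (Z.hh x P) D ζ Y) gm g1 g2 c d
      ≤ b.cl (fp x D d) ∧
    ∑ c ∈ Dᶜ.erase d, ind P c * LfF (Z.hh x P) Dᶜ τ σ ρ (Tc0 (Z.hh x P) D ζ Y) gp gm g1 g3 c d
      ≤ b.cf (fp x D d) := by
  have σ0 := h.sol.σ0
  have στ := h.sol.στ
  have τ0 := σ0.trans στ
  have z : (0 : ℝ) ∈ Icc 0 σ := ⟨le_rfl, σ0⟩
  have z' : (0 : ℝ) ∈ Icc 0 τ := ⟨le_rfl, τ0⟩
  have zρ : ρ ∈ Icc 0 τ := ⟨h.ρ0, h.ρτ⟩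
  have hf := fu_fp h.wt hD hd hPd
  have i0 : ∀ c ∈ Dᶜ.erase d, 0 ≤ ind P c := fun c _ => ind_nonneg c
  have hs : ∀ u v, ∀ r, Z.hh x P r u v = Z.hh x P r v u := fun u v r => Z.hh_symm h.wt r u v
  obtain ⟨l12, Gn12, Ge12, K12, K12', k12, e12⟩ := hi.K12 d hd hPd
  obtain ⟨l13, Gn13, Ge13, K13, K13', k13, e13⟩ := hi.K13 d hd hPd
  have n1 := (dS1_tn h.l1 hd hPd (f := ind P) ind_le z').trans (hv.N1 _ hf)
  have p1 := (dS1_tp h.l1 hd hPd (f := ind P) ind_le zρ).trans (hv.P1 _ hf)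
  have nc2 := (dS1_pn h.l2 hu2 hd hPd (f := ind P) ind_le z).trans (hv.Nc2 _ hf)
  have nc3 := (dS1_pn h.l3 hu3 hd hPd (f := ind P) ind_le z).trans (hv.Nc3 _ hf)
  have hH : ∑ c ∈ Dᶜ.erase d, ind P c * RCM.bk (fun r => Z.hh x P r c d) τ ρ
      ≤ b.Hr (fp x D d) := by
    refine le_trans (le_of_eq (Finset.sum_congr rfl fun c _ => ?_)) (h0.Hr d hd hPd)
    have e : (fun r => Z.hh x P r c d) = fun r => Z.hh x P r d c := funext fun r => hs c d r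
    rw [e]
  refine ⟨?_, ?_⟩
  · refine (LdF_col (fun F i j => h.sol.g.sm F i j 0 z') (ksum_c σ0 στ h.l1 h.l2 hd i0 k12)
      (h0.G0 d hd hPd) n1 nc2 (hi.dc d hd hPd)).trans ?_
    unfold EgB.cl
    linarith
  · refine (LfF_col (fun F i j => h.sol.g.sm F i j 0 z') hH p1 (ksum_c σ0 στ h.l1 h.l3 hd i0 k13)
      (h0.G0 d hd hPd) n1 (h0.Gr d hd hPd) nc3 (hi.fc d hd hPd)).trans ?_
    unfold EgB.cf
    linarith

/-- **the rows of the constants at a real vertex** -/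
theorem FulF.egr (h : FulF Z x P A D α τ σ ρ S ζ Y N q
      (dS1 x P D (Tc0 (Z.hh x P) D ζ Y) Dd1 Ee1 Dk1 Ek1 E1 wv1 bf1 u1 bu1 νf1 δf1 m1 dt1 dp1)
      (dS1 x P D (Tc0 (Z.hh x P) D ζ Y) Dd2 Ee2 Dk2 Ek2 E2 wv2 bf2 u2 bu2 νf2 δf2 m2 dt2 dp2)
      (dS1 x P D (Tc0 (Z.hh x P) D ζ Y) Dd3 Ee3 Dk3 Ek3 E3 wv3 bf3 u3 bu3 νf3 δf3 m3 dt3 dp3)
      gp gp' gm gm' g1 g2 g3)
    (hD : D.card ≤ 2) (hu1 : ∀ p, u1 m1 p = 1)
    {b : EgB} (h0 : EgI0 Z x P D τ ρ gp gm b)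
    (hi : EgIr Z x P D σ ρ S (Tc0 (Z.hh x P) D ζ Y)
      (dS1 x P D (Tc0 (Z.hh x P) D ζ Y) Dd1 Ee1 Dk1 Ek1 E1 wv1 bf1 u1 bu1 νf1 δf1 m1 dt1 dp1)
      (dS1 x P D (Tc0 (Z.hh x P) D ζ Y) Dd2 Ee2 Dk2 Ek2 E2 wv2 bf2 u2 bu2 νf2 δf2 m2 dt2 dp2)
      (dS1 x P D (Tc0 (Z.hh x P) D ζ Y) Dd3 Ee3 Dk3 Ek3 E3 wv3 bf3 u3 bu3 νf3 δf3 m3 dt3 dp3)
      gp g1 g2 g3 b)
    (hv : EgVr ρ dp1 m1 dt2 dt3 b) {d : V} (hd : d ∈ Dᶜ) (hPd : P d) :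
    ∑ e ∈ Dᶜ.erase d, ind P e * LdF (Z.hh x P) Dᶜ τ σ (Tc0 (Z.hh x P) D ζ Y) gm g1 g2 d e
      ≤ b.rl (fp x D d) ∧
    ∑ e ∈ Dᶜ.erase d, ind P e * LfF (Z.hh x P) Dᶜ τ σ ρ (Tc0 (Z.hh x P) D ζ Y) gp gm g1 g3 d e
      ≤ b.rf (fp x D d) := by
  have σ0 := h.sol.σ0
  have στ := h.sol.στ
  have τ0 := σ0.trans στ
  have z : (0 : ℝ) ∈ Icc 0 σ := ⟨le_rfl, σ0⟩
  have z' : (0 : ℝ) ∈ Icc 0 τ := ⟨le_rfl, τ0⟩
  have zρ : ρ ∈ Icc 0 τ := ⟨h.ρ0, h.ρτ⟩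
  have hf := fu_fp h.wt hD hd hPd
  have i0 : ∀ c ∈ Dᶜ.erase d, 0 ≤ ind P c := fun c _ => ind_nonneg c
  obtain ⟨l21, Gn21, Ge21, K21, K21', k21, e21⟩ := hi.K21 d hd hPd
  obtain ⟨l31, Gn31, Ge31, K31, K31', k31, e31⟩ := hi.K31 d hd hPd
  have nc1 := (dS1_pn h.l1 hu1 hd hPd (f := ind P) ind_le z').trans (hv.Nc1 _ hf)
  have pc1 := (dS1_pp h.l1 hu1 hd hPd (f := ind P) ind_le zρ).trans (hv.Pc1 _ hf)
  have n2 := (dS1_tn h.l2 hd hPd (f := ind P) ind_le z).trans (hv.N2 _ hf)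
  have n3 := (dS1_tn h.l3 hd hPd (f := ind P) ind_le z).trans (hv.N3 _ hf)
  refine ⟨?_, ?_⟩
  · refine (LdF_row (ksum_d σ0 στ h.l1 h.l2 hd i0 k21) (h0.G0 d hd hPd) nc1 n2
      (hi.dr d hd hPd)).trans ?_
    unfold EgB.rl
    linarith
  · refine (LfF_row (h0.Hr d hd hPd) pc1 (ksum_d σ0 στ h.l1 h.l3 hd i0 k31) (h0.G0 d hd hPd) nc1
      ((Finset.sum_congr rfl fun e _ => by rw [h.sol.g.sp _ e d ρ zρ]).le.trans
        (h0.Gr d hd hPd)) n3 (hi.fr d hd hPd)).trans ?_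
    unfold EgB.rf
    linarith

end full

end Pool.Agent.RZ.RCO
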