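import Pool.Agent.RZ.RCO.Dr1
import Pool.Agent.RZ.RCO.Ed4a
import Pool.Agent.RZ.RCO.Eg1

/-! Route P: the direct parts and the rates at the real vertices of a world from step constants
(MP_73ccd0_lc). -/

set_option autoImplicit false
set_option linter.unusedSectionVars false

namespace Pool.Agent.RZ.RCO

open Set Finset MeasureTheory Pool.Agent.RZ.RCRSHalf Pool.Agent.RZ.RCG Pool.Agent.RZ.RCG.Ct
open Pool.Agent.RZ.RCN Pool.Agent.RZ.RCN.K

variable {V : Type*} [Fintype V] [DecidableEq V]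

/-- **the rates of a world with step constants**: `z` the shift of the time, `Rc j` the bound of the
rates and `g j` of the rows of the boosted rates in the step `j` -/
structure DirW (x : V → V → ℝ) (P : V → Prop) (D : Finset V) (hb T : ℝ → V → V → ℝ) (τ z : ℝ)
    (t : ℕ → ℝ) (n : ℕ) (Rc g : ℕ → ℝ) : Prop where
  hP : RCG.Ct.Wt x P 1
  b0 : ∀ u v, ∀ r ∈ Icc 0 τ, 0 ≤ hb r u v
  bs : ∀ u v, ∀ r, hb r u v = hb r v u
  bc : ∀ u v, ContinuousOn (fun r => hb r u v) (Icc 0 τ)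
  Tc : ∀ u v, ContinuousOn (fun r => T r u v) (Icc 0 τ)
  bT : ∀ u ∈ Dᶜ, ∀ v ∈ Dᶜ, ∀ r ∈ Icc 0 τ, hb r u v ≤ T r u v
  hm : Msh t n
  t0 : t 0 = 0
  n0 : 0 < n
  z0 : 0 ≤ z
  z1 : z ≤ t 1
  zn : τ + z ≤ t n
  R0 : ∀ j < n, 0 ≤ Rc j
  g0 : ∀ j < n, 0 ≤ g j
  hR : ∀ r ∈ Icc 0 τ, ∀ j < n, r + z ∈ Icc (t j) (t (j + 1)) → ∀ u v, hb r u v ≤ x u v * Rc j
  hT : ∀ r ∈ Icc 0 τ, ∀ j < n, r + z ∈ Icc (t j) (t (j + 1)) → ∀ v ∈ Dᶜ, P v →
    ∑ b ∈ Dᶜ.erase v, T r v b ≤ g j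

namespace DirW

variable {x : V → V → ℝ} {P : V → Prop} [DecidablePred P] {D : Finset V}
  {hb T : ℝ → V → V → ℝ} {τ z : ℝ} {t : ℕ → ℝ} {n : ℕ} {Rc g : ℕ → ℝ}

theorem mem (h : DirW x P D hb T τ z t n Rc g) {r : ℝ} (hr : r ∈ Icc 0 τ) :
    r + z ∈ Icc (t 0) (t n) := by
  rw [h.t0]
  exact ⟨add_nonneg hr.1 h.z0, (add_le_add hr.2 le_rfl).trans h.zn⟩

/-- the kinks -/
noncomputable def kn (t : ℕ → ℝ) (n : ℕ) (z : ℝ) : Finset ℝ := (nds t n).image fun s => s - z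

theorem kn_of {r : ℝ} (h : r ∉ kn t n z) : r + z ∉ nds t n := fun h2 => h (by
  unfold kn
  exact Finset.mem_image.2 ⟨r + z, h2, by ring⟩)

/-- the exponent of the survival functions -/
noncomputable def ea (t : ℕ → ℝ) (n : ℕ) (g : ℕ → ℝ) (z r : ℝ) : ℝ :=
  pl t (stp t g) n (r + z) - pl t (stp t g) n z

theorem ea_cont (t : ℕ → ℝ) (n : ℕ) (g : ℕ → ℝ) (z : ℝ) : Continuous (ea t n g z) := by
  unfold ea
  exact ((pl_cont _ _ _).comp (continuous_add_const z)).sub continuous_const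

theorem ea_deriv (hm : Msh t n) {j : ℕ} (hj : j < n) {r : ℝ}
    (hr : r + z ∈ Ioo (t j) (t (j + 1))) : HasDerivAt (ea t n g z) (g j) r := by
  have h := (stp_deriv (G := g) hm hj hr).comp_add_const r z
  exact h.sub_const _

theorem step (h : DirW x P D hb T τ z t n Rc g) {r : ℝ} (hr : r ∈ Icc 0 τ) (hS : r ∉ kn t n z) :
    ∃ j < n, r + z ∈ Ioo (t j) (t (j + 1)) := h.hm.step (h.mem hr) (kn_of hS)

/-- the survival function of a real vertex with the loss `N` -/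
theorem srv (h : DirW x P D hb T τ z t n Rc g) {σ : ℝ} (στ : σ ≤ τ) {v : V} (hv : v ∈ Dᶜ)
    (hPv : P v) (N : ℝ) :
    Srv Dᶜ σ (kn t n z) T v N (fun r => Real.exp (-(N + ea t n g z r)))
      (fun r => -deriv (ea t n g z) r * Real.exp (-(N + ea t n g z r))) where
  cE := (Real.continuous_exp.comp (continuous_const.add (ea_cont t n g z)).neg).continuousOn
  dE := fun r hr hS => by
    obtain ⟨j, hj, hj2⟩ := h.step ⟨hr.1, hr.2.trans στ⟩ hS
    have h0 : HasDerivAt (fun r => -(N + ea t n g z r)) (-deriv (ea t n g z) r) r := by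
      have h1 := ea_deriv (g := g) h.hm hj hj2
      rw [h1.deriv]
      exact (h1.const_add N).neg
    exact h0.exp.congr_deriv (mul_comm _ _)
  E0 := fun r _ => (Real.exp_pos _).le
  i := by
    have : ea t n g z 0 = 0 := by
      unfold ea
      rw [zero_add, sub_self]
    rw [this, add_zero]
  le := fun r hr hS => by
    have hr' : r ∈ Icc 0 τ := ⟨hr.1, hr.2.trans στ⟩
    obtain ⟨j, hj, hj2⟩ := h.step hr' hS
    rw [(ea_deriv (g := g) h.hm hj hj2).deriv]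
    have h1 := h.hT r hr' j hj (Ioo_subset_Icc_self hj2) v hv hPv
    have h2 := mul_le_mul_of_nonneg_right h1 (Real.exp_pos (-(N + ea t n g z r))).le
    linarith

/-- the exponent in a step -/
theorem ea_le (h : DirW x P D hb T τ z t n Rc g) {r : ℝ} {j : ℕ} (hj : j < n)
    (hr : r + z ∈ Icc (t j) (t (j + 1))) : ea t n g z r ≤ stp t g (j + 1) - g 0 * z := by
  unfold ea
  have e1 := stp_on (G := g) h.hm h.n0 (r := z) ⟨by rw [h.t0]; exact h.z0, by rw [zero_add]; exact h.z1⟩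
  rw [e1, stp_zero, h.t0, zero_add, sub_zero, stp_on h.hm hj hr, stp_succ]
  have := mul_le_mul_of_nonneg_left hr.2 (h.g0 j hj)
  linarith

/-- the sum of the weights at a vertex -/
theorem row (h : DirW x P D hb T τ z t n Rc g) {d : V} {C : Finset V} (hC : C ⊆ Dᶜ) :
    ∑ c ∈ C, x d c ≤ 1 - (fp x D d).k := by
  have h1 := fm_le (wt_of h.hP) hC d
  exact h1

theorem k1 (h : DirW x P D hb T τ z t n Rc g) (d : V) : 0 ≤ 1 - (fp x D d).k := by
  have := h.row (d := d) (Finset.empty_subset _)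
  simpa using this

theorem k0 (h : DirW x P D hb T τ z t n Rc g) (d : V) : 0 ≤ (fp x D d).k :=
  Finset.sum_nonneg fun w _ => h.hP.nonneg w d

/-- **the direct parts of a family of pairs at a real vertex** -/
theorem sum (h : DirW x P D hb T τ z t n Rc g) {E G : ℕ → ℝ} {nh : ℝ}
    (E0 : ∀ j < n, 0 ≤ E j) (hE : ∀ j < n, E j ≤ Real.exp (-(stp t g (j + 1) - g 0 * z)))
    (hG : ∀ j < n, gD XM (Rc j) (E j) nh ≤ G j) {σ : ℝ} (σ0 : 0 ≤ σ) (στ : σ ≤ τ) {d : V}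
    {C : Finset V} (hC : C ⊆ Dᶜ) {qc qd : V → V}
    (hq : ∀ c ∈ C, qc c ∈ Dᶜ ∧ qd c ∈ Dᶜ ∧ qc c ≠ qd c)
    (hqP : ∀ c ∈ C, P (qc c) ∧ P (qd c))
    (hb' : ∀ c ∈ C, ∀ r, hb r (qc c) (qd c) = hb r d c) {N1 N2 : V → ℝ}
    (hN : ∀ c ∈ C, 0 ≤ N1 c + N2 c) (hn : ∑ c ∈ C, (N1 c + N2 c) ≤ (1 - (fp x D d).k) * nh) :
    ∑ c ∈ C, 1 * dirI hb T (F0 Dᶜ (qc c) (qd c)) (qc c) (qd c) σ (N1 c) (N2 c)
      ≤ (1 - (fp x D d).k) * (pl t (stp t G) n (σ + z) - pl t (stp t G) n z) := by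
  have sub : Icc 0 σ ⊆ Icc 0 τ := Icc_subset_Icc_right στ
  have m0 := h.k1 d
  have m1 : 1 - (fp x D d).k ≤ 1 := by linarith [h.k0 d]
  have key := dir_sum (U := Dᶜ) (S := kn t n z) (C := C) (f := fun _ => 1) (qc := qc) (qd := qd)
    (N1 := N1) (N2 := N2) (Nc := N2) (Nd := N1)
    (E1 := fun c r => Real.exp (-(N1 c + ea t n g z r)))
    (E2 := fun c r => Real.exp (-(N2 c + ea t n g z r)))
    (J := fun r => (1 - (fp x D d).k) * pl t (stp t G) n (r + z))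
    (J' := fun r => (1 - (fp x D d).k) * deriv (ea t n G z) r) (hb := hb) (T := T) (σ := σ) σ0
    (fun _ _ => zero_le_one) hq
    (fun c hc => h.srv στ (hq c hc).2.1 (hqP c hc).2 _)
    (fun c hc => h.srv στ (hq c hc).1 (hqP c hc).1 _)
    (fun u v r hr => h.b0 u v r (sub hr)) h.bs (fun u v => (h.bc u v).mono sub)
    (fun u v => (h.Tc u v).mono sub) (fun u hu v hv r hr => h.bT u hu v hv r (sub hr))
    (fun _ _ => le_rfl) (fun _ _ => le_rfl)
    (continuousOn_const.mul ((pl_cont _ _ _).comp (continuous_add_const z)).continuousOn)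
    (fun r hr hS => by
      obtain ⟨j, hj, hj2⟩ := h.step (sub hr) hS
      rw [(ea_deriv (g := G) h.hm hj hj2).deriv]
      exact ((stp_deriv (G := G) h.hm hj hj2).comp_add_const r z).const_mul _)
    (fun r hr hS => by
      obtain ⟨j, hj, hj2⟩ := h.step (sub hr) hS
      rw [(ea_deriv (g := G) h.hm hj hj2).deriv]
      have hj3 := Ioo_subset_Icc_self hj2
      -- the survival functions
      have hEa : E j ≤ Real.exp (-ea t n g z r) := (hE j hj).trans (Real.exp_le_exp.2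
        (neg_le_neg (h.ea_le hj hj3)))
      have line : ∑ c ∈ C, hb r d c * max 0 (1 - 2 * E j + E j * (N1 c + N2 c))
          ≤ (1 - (fp x D d).k) * gD XM (Rc j) (E j) nh := by
        refine pair_line XM_pos.le (h.R0 j hj) (E0 j hj) m0 m1 (fun c _ => ?_) ?_ hN hn
        · exact (h.hR r (sub hr) j hj hj3 d c).trans
            (mul_le_mul_of_nonneg_right (h.hP.leX d c) (h.R0 j hj))
        · calc ∑ c ∈ C, hb r d c ≤ ∑ c ∈ C, x d c * Rc j :=
                Finset.sum_le_sum fun c _ => h.hR r (sub hr) j hj hj3 d c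
            _ = Rc j * ∑ c ∈ C, x d c := by rw [← Finset.sum_mul, mul_comm]
            _ ≤ Rc j * (1 - (fp x D d).k) := mul_le_mul_of_nonneg_left (h.row hC) (h.R0 j hj)
      refine le_trans (Finset.sum_le_sum fun c hc => ?_) (line.trans
        (mul_le_mul_of_nonneg_left (hG j hj) m0))
      rw [one_mul, hb' c hc r]
      refine mul_le_mul_of_nonneg_left (max_le_max le_rfl ?_) (h.b0 d c r (sub hr))
      have x1 := exp_loss (N := N1 c) (E0 j hj) hEa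
      have x2 := exp_loss (N := N2 c) (E0 j hj) hEa
      linarith)
  refine key.trans (le_of_eq ?_)
  rw [zero_add]
  ring

/-- the indicator as a filter -/
theorem ind_sum (d : V) (f : V → ℝ) : ∑ c ∈ Dᶜ.erase d, ind P c * f c
    = ∑ c ∈ (Dᶜ.erase d).filter P, 1 * f c := by
  rw [Finset.sum_filter]
  refine Finset.sum_congr rfl fun c _ => ?_
  unfold ind
  split_ifs <;> ring

/-- **columns of the direct parts** -/
theorem col (h : DirW x P D hb T τ z t n Rc g) {E G : ℕ → ℝ} {nh : ℝ}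
    (E0 : ∀ j < n, 0 ≤ E j) (hE : ∀ j < n, E j ≤ Real.exp (-(stp t g (j + 1) - g 0 * z)))
    (hG : ∀ j < n, gD XM (Rc j) (E j) nh ≤ G j) {σ : ℝ} (σ0 : 0 ≤ σ) (στ : σ ≤ τ) {d : V}
    (hd : d ∈ Dᶜ) (hPd : P d) {N1 N2 : V → ℝ}
    (hN : ∀ c ∈ Dᶜ.erase d, P c → 0 ≤ N1 c + N2 c)
    (hn : ∑ c ∈ Dᶜ.erase d, ind P c * (N1 c + N2 c) ≤ (1 - (fp x D d).k) * nh) :
    ∑ c ∈ Dᶜ.erase d, ind P c * dirI hb T (F0 Dᶜ c d) c d σ (N1 c) (N2 c)
      ≤ (1 - (fp x D d).k) * (pl t (stp t G) n (σ + z) - pl t (stp t G) n z) := by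
  rw [ind_sum] at hn ⊢
  simp only [one_mul] at hn
  have mem : ∀ c ∈ (Dᶜ.erase d).filter P, c ∈ Dᶜ.erase d ∧ c ∈ Dᶜ ∧ c ≠ d ∧ P c := fun c hc => by
    obtain ⟨m1, m2⟩ := Finset.mem_filter.1 hc
    exact ⟨m1, Finset.mem_of_mem_erase m1, Finset.ne_of_mem_erase m1, m2⟩
  exact h.sum (qc := fun c => c) (qd := fun _ => d) E0 hE hG σ0 στ
    (fun c hc => (mem c hc).2.1) (fun c hc => ⟨(mem c hc).2.1, hd, (mem c hc).2.2.1⟩)
    (fun c hc => ⟨(mem c hc).2.2.2, hPd⟩) (fun c _ r => h.bs c d r)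
    (fun c hc => hN c (mem c hc).1 (mem c hc).2.2.2) hn

/-- **rows of the direct parts** -/
theorem rw' (h : DirW x P D hb T τ z t n Rc g) {E G : ℕ → ℝ} {nh : ℝ}
    (E0 : ∀ j < n, 0 ≤ E j) (hE : ∀ j < n, E j ≤ Real.exp (-(stp t g (j + 1) - g 0 * z)))
    (hG : ∀ j < n, gD XM (Rc j) (E j) nh ≤ G j) {σ : ℝ} (σ0 : 0 ≤ σ) (στ : σ ≤ τ) {c : V}
    (hc : c ∈ Dᶜ) (hPc : P c) {N1 N2 : V → ℝ}
    (hN : ∀ d ∈ Dᶜ.erase c, P d → 0 ≤ N1 d + N2 d)
    (hn : ∑ d ∈ Dᶜ.erase c, ind P d * (N1 d + N2 d) ≤ (1 - (fp x D c).k) * nh) :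
    ∑ d ∈ Dᶜ.erase c, ind P d * dirI hb T (F0 Dᶜ c d) c d σ (N1 d) (N2 d)
      ≤ (1 - (fp x D c).k) * (pl t (stp t G) n (σ + z) - pl t (stp t G) n z) := by
  rw [ind_sum] at hn ⊢
  simp only [one_mul] at hn
  have mem : ∀ d ∈ (Dᶜ.erase c).filter P, d ∈ Dᶜ.erase c ∧ d ∈ Dᶜ ∧ d ≠ c ∧ P d := fun d hd => by
    obtain ⟨m1, m2⟩ := Finset.mem_filter.1 hd
    exact ⟨m1, Finset.mem_of_mem_erase m1, Finset.ne_of_mem_erase m1, m2⟩
  exact h.sum (qc := fun _ => c) (qd := fun d => d) E0 hE hG σ0 στ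
    (fun d hd => (mem d hd).2.1) (fun d hd => ⟨hc, (mem d hd).2.1, fun e => (mem d hd).2.2.1 e.symm⟩)
    (fun d hd => ⟨hPc, (mem d hd).2.2.2⟩) (fun _ _ _ => rfl)
    (fun d hd => hN d (mem d hd).1 (mem d hd).2.2.2) hn

/-- **the rates between two times** -/
theorem hr (h : DirW x P D hb T τ z t n Rc g) {ρ : ℝ} (hρ : ρ ∈ Icc 0 τ) (c : V) :
    ∑ e ∈ Dᶜ.erase c, ind P e * RCM.bk (fun r => hb r c e) τ ρ
      ≤ (1 - (fp x D c).k) * (pl t (stp t Rc) n (τ + z) - pl t (stp t Rc) n (ρ + z)) := by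
  have τ0 : 0 ≤ τ := hρ.1.trans hρ.2
  have cb : ∀ e, ContinuousOn (fun r => hb r c e) (Icc 0 τ) := fun e => h.bc c e
  have m0 := h.k1 c
  have key := back_le_fin (kn t n z) (a := 0) (b := τ)
    (f := fun ρ => ∑ e ∈ Dᶜ.erase c, ind P e * RCM.bk (fun r => hb r c e) τ ρ)
    (g := fun ρ => (1 - (fp x D c).k) * (pl t (stp t Rc) n (τ + z) - pl t (stp t Rc) n (ρ + z)))
    (f' := fun ρ => ∑ e ∈ Dᶜ.erase c, ind P e * (-hb ρ c e))
    (g' := fun ρ => -((1 - (fp x D c).k) * deriv (ea t n Rc z) ρ))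
    (fun r hr => (HasDerivAt.fun_sum fun e _ =>
      ((RCM.bk_deriv τ0 (cb e) hr).const_mul (ind P e))).continuousAt.continuousWithinAt)
    (continuousOn_const.mul (continuousOn_const.sub
      ((pl_cont _ _ _).comp (continuous_add_const z)).continuousOn))
    (fun r hr _ => HasDerivAt.fun_sum fun e _ =>
      ((RCM.bk_deriv τ0 (cb e) (Ioo_subset_Icc_self hr)).const_mul (ind P e)))
    (fun r hr hS => by
      obtain ⟨j, hj, hj2⟩ := h.step (Ioo_subset_Icc_self hr) hS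
      rw [(ea_deriv (g := Rc) h.hm hj hj2).deriv]
      have h1 := (((stp_deriv (G := Rc) h.hm hj hj2).comp_add_const r z).const_sub
        (pl t (stp t Rc) n (τ + z))).const_mul (1 - (fp x D c).k)
      exact h1.congr_deriv (by ring))
    (fun r hr hS => by
      have hr' := Ioo_subset_Icc_self hr
      obtain ⟨j, hj, hj2⟩ := h.step hr' hS
      rw [(ea_deriv (g := Rc) h.hm hj hj2).deriv]
      have h1 : ∑ e ∈ Dᶜ.erase c, ind P e * hb r c e ≤ (1 - (fp x D c).k) * Rc j := by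
        calc ∑ e ∈ Dᶜ.erase c, ind P e * hb r c e ≤ ∑ e ∈ Dᶜ.erase c, x c e * Rc j :=
              Finset.sum_le_sum fun e _ =>
                (mul_le_of_le_one_left (h.b0 c e r hr') (ind_le e)).trans
                  (h.hR r hr' j hj (Ioo_subset_Icc_self hj2) c e)
          _ = (∑ e ∈ Dᶜ.erase c, x c e) * Rc j := by rw [Finset.sum_mul]
          _ ≤ _ := mul_le_mul_of_nonneg_right (h.row (Finset.erase_subset _ _)) (h.R0 j hj)
      have e : ∑ e ∈ Dᶜ.erase c, ind P e * (-hb r c e)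
          = -∑ e ∈ Dᶜ.erase c, ind P e * hb r c e := by
        rw [← Finset.sum_neg_distrib]
        exact Finset.sum_congr rfl fun e _ => by ring
      rw [e]
      exact neg_le_neg h1)
    (by
      simp only [RCM.bk_self, mul_zero, Finset.sum_const_zero, sub_self]
      exact le_rfl) ρ hρ
  exact key

end DirW

end Pool.Agent.RZ.RCO
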