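import Pool.Agent.RZ.RCO.Ed4a
import Pool.Agent.RZ.RCO.Eg6

/-! Route P: the direct parts and the rates of a class between two coarse nodes (MP_73ccd0_lc). -/

set_option autoImplicit false
set_option linter.unusedSectionVars false

namespace Pool.Agent.RZ.RCO

open Set Finset MeasureTheory Pool.Agent.RZ.RCRSHalf Pool.Agent.RZ.RCG Pool.Agent.RZ.RCG.Ct
open Pool.Agent.RZ.RCN Pool.Agent.RZ.RCN.K

/-! ### numbers -/

theorem exp_neg_quad {x : ℝ} (hx : 0 ≤ x) : Real.exp (-x) ≤ 1 - x + x ^ 2 / 2 := by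
  have h1 := Real.quadratic_le_exp_of_nonneg hx
  have h2 : Real.exp (-x) * Real.exp x = 1 := by rw [← Real.exp_add]; simp
  have h3 : 0 < Real.exp (-x) := Real.exp_pos _
  have h4 : Real.exp (-x) * (1 + x + x ^ 2 / 2) ≤ 1 :=
    (mul_le_mul_of_nonneg_left h1 h3.le).trans h2.le
  have h5 : (1 : ℝ) ≤ (1 - x + x ^ 2 / 2) * (1 + x + x ^ 2 / 2) := by
    nlinarith [sq_nonneg (x ^ 2)]
  have h6 : 0 < 1 + x + x ^ 2 / 2 := by positivity
  exact le_of_mul_le_mul_right (h4.trans h5) h6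

theorem exp_neg_cub {x : ℝ} (hx : 0 ≤ x) : 1 - x + x ^ 2 / 2 - x ^ 3 / 6 ≤ Real.exp (-x) := by
  have hd : ∀ y : ℝ, HasDerivAt (fun y => Real.exp (-y) - (1 - y + y ^ 2 / 2 - y ^ 3 / 6))
      (-Real.exp (-y) - (-1 + y - y ^ 2 / 2)) y := fun y => by
    have h1 : HasDerivAt (fun y : ℝ => Real.exp (-y)) (Real.exp (-y) * -1) y :=
      (hasDerivAt_neg y).exp
    have h2 : HasDerivAt (fun y : ℝ => 1 - y + y ^ 2 / 2 - y ^ 3 / 6)
        (0 - 1 + (2 * y ^ 1 * 1) / 2 - (3 * y ^ 2 * 1) / 6) y :=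
      ((((hasDerivAt_const y (1 : ℝ)).sub (hasDerivAt_id y)).add
        (((hasDerivAt_id y).pow 2).div_const 2)).sub (((hasDerivAt_id y).pow 3).div_const 6))
    refine (h1.sub h2).congr_deriv ?_
    ring
  have mono : MonotoneOn (fun y => Real.exp (-y) - (1 - y + y ^ 2 / 2 - y ^ 3 / 6)) (Ici 0) := by
    refine monotoneOn_of_deriv_nonneg (convex_Ici 0)
      (fun y _ => (hd y).continuousAt.continuousWithinAt)
      (fun y _ => (hd y).differentiableAt.differentiableWithinAt) fun y hy => ?_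
    rw [interior_Ici] at hy
    rw [(hd y).deriv]
    have := exp_neg_quad (x := y) hy.le
    linarith
  have := mono (Set.mem_Ici.2 le_rfl) (Set.mem_Ici.2 hx) hx
  simp only [neg_zero, Real.exp_zero] at this
  linarith

/-! ### between two coarse nodes -/

theorem li_shift (a b u v x z : ℝ) : li (a + z) (b + z) u v (x + z) = li a b u v x := by
  unfold li
  rw [add_sub_add_right_eq_sub, add_sub_add_right_eq_sub]

theorem li_sub (a b u v w x : ℝ) : li a b u v x - w = li a b (u - w) (v - w) x := by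
  unfold li
  ring

/-- the place between two coarse nodes: `a` and `b` the shifted coarse nodes `l` and `l + 1` -/
structure Crs (t : ℕ → ℝ) (n : ℕ) (K : ℕ → ℕ) (z : ℝ) (l : ℕ) (a b σ : ℝ) : Prop where
  Kl : K l ≤ K (l + 1)
  Kn : K (l + 1) ≤ n
  K0 : l = 0 → K l = 0
  a0 : l = 0 → a = 0
  al : l ≠ 0 → a = t (K l) - z
  bl : b = t (K (l + 1)) - z
  ab : a < b
  h1 : a ≤ σ
  h2 : σ ≤ b

section crs

variable {t : ℕ → ℝ} {n : ℕ} {G : ℕ → ℝ} {K : ℕ → ℕ} {z : ℝ} {l : ℕ} {a b σ : ℝ}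

theorem Crs.a_nonneg (h : Crs t n K z l a b σ) (hm : Msh t n) (z1 : z ≤ t 1)
    (hK : l ≠ 0 → 0 < K l) : 0 ≤ a := by
  by_cases hl : l = 0
  · rw [h.a0 hl]
  · rw [h.al hl]
    have := hm.le (i := 1) (j := K l) (hK hl) (h.Kl.trans h.Kn)
    linarith

/-- **the increment up to a time between two coarse nodes** -/
theorem Crs.inc (h : Crs t n K z l a b σ) (hm : Msh t n) (hn : 0 < n) (t0 : t 0 = 0) (z0 : 0 ≤ z)
    (z1 : z ≤ t 1) (hK : l ≠ 0 → 0 < K l) (G0 : ∀ j < n, 0 ≤ G j)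
    (hG : ∀ j, j + 1 < n → G j ≤ G (j + 1)) {J J' : ℝ} (hJ : l = 0 → 0 ≤ J)
    (hJl : l ≠ 0 → stp t G (K l) ≤ J) (hJ' : stp t G (K (l + 1)) ≤ J') :
    pl t (stp t G) n (σ + z) - pl t (stp t G) n z ≤ li a b J J' σ := by
  have a0 := h.a_nonneg hm z1 hK
  have bz : b + z = t (K (l + 1)) := by rw [h.bl]; ring
  have bn : b + z ≤ t n := by
    rw [bz]
    exact hm.le h.Kn le_rfl
  have pz : 0 ≤ pl t (stp t G) n z := by
    rw [stp_on hm hn (r := z) ⟨by rw [t0]; exact z0, by rw [zero_add]; exact z1⟩, stp_zero, t0]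
    have := mul_nonneg (G0 0 hn) z0
    linarith
  have pb : pl t (stp t G) n (b + z) = stp t G (K (l + 1)) := by
    rw [bz, pl_node hm h.Kn hn]
  by_cases hl : l = 0
  · have ea := h.a0 hl
    have key := stp_chord (G := G) hm hn hG (x := z) (u := σ + z) (y := b + z)
      (by rw [t0]; exact z0) (by linarith [h.h1]) (by linarith [h.h2]) (by linarith [h.ab]) bn
    rw [pb] at key
    have e : li z (b + z) (pl t (stp t G) n z) (stp t G (K (l + 1))) (σ + z)
        = li a b (pl t (stp t G) n z) (stp t G (K (l + 1))) σ := by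
      have := li_shift a b (pl t (stp t G) n z) (stp t G (K (l + 1))) σ z
      rw [← this, ea, zero_add]
    rw [e] at key
    have k2 : pl t (stp t G) n (σ + z) - pl t (stp t G) n z
        ≤ li a b (pl t (stp t G) n z - pl t (stp t G) n z)
          (stp t G (K (l + 1)) - pl t (stp t G) n z) σ := by
      rw [← li_sub]
      linarith
    refine k2.trans (li_mono h.ab h.h1 h.h2 ?_ (by linarith))
    rw [sub_self]
    exact hJ hl
  · have ea : a + z = t (K l) := by rw [h.al hl]; ring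
    have pa : pl t (stp t G) n (a + z) = stp t G (K l) := by
      rw [ea, pl_node hm (h.Kl.trans h.Kn) hn]
    have key := stp_chord (G := G) hm hn hG (x := a + z) (u := σ + z) (y := b + z)
      (by rw [t0]; linarith) (by linarith [h.h1]) (by linarith [h.h2]) (by linarith [h.ab]) bn
    rw [pa, pb, li_shift] at key
    have k2 := li_mono h.ab h.h1 h.h2 (hJl hl) hJ'
    linarith

/-- **the decrement from a time near `σ`** -/
theorem Crs.dec (h : Crs t n K z l a b σ) (hm : Msh t n) (hn : 0 < n) (t0 : t 0 = 0)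
    (z0 : 0 ≤ z) (z1 : z ≤ t 1) (hK : l ≠ 0 → 0 < K l) (G0 : ∀ j < n, 0 ≤ G j) {τ ρ I Rs Lam : ℝ}
    (zn : τ + z ≤ t n) (στ : σ ≤ τ) (ρ0 : 0 ≤ ρ) (ρσ : ρ ≤ σ)
    (hI : stp t G n - stp t G (K (l + 1)) ≤ I)
    (hRs : ∀ j, K l ≤ j → j < K (l + 1) → G j ≤ Rs) (hLam : ∀ j < n, G j ≤ Lam) :
    pl t (stp t G) n (τ + z) - pl t (stp t G) n (ρ + z)
      ≤ li a b (I + (b - a) * Rs) I σ + Lam * (σ - ρ) := by
  have a0 := h.a_nonneg hm z1 hK
  have bz : b + z = t (K (l + 1)) := by rw [h.bl]; ring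
  have bn : b + z ≤ t n := by
    rw [bz]
    exact hm.le h.Kn le_rfl
  have pb : pl t (stp t G) n (b + z) = stp t G (K (l + 1)) := by
    rw [bz, pl_node hm h.Kn hn]
  have pn : pl t (stp t G) n (t n) = stp t G n := pl_node hm le_rfl hn
  have s1 : pl t (stp t G) n (τ + z) ≤ pl t (stp t G) n (t n) := by
    have := le_stp (G := G) hm hn (x := τ + z) (y := t n) (c := 0)
      (by rw [t0]; linarith) zn le_rfl fun j hj _ _ => G0 j hj
    linarith
  have s2 : pl t (stp t G) n (b + z) - pl t (stp t G) n (σ + z) ≤ Rs * (b + z - (σ + z)) := by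
    refine stp_le hm hn (by rw [t0]; linarith [h.h1]) (by linarith [h.h2]) bn
      fun j hj j1 j2 => hRs j ?_ ?_
    · by_cases hl : l = 0
      · rw [h.K0 hl]
        exact Nat.zero_le _
      · by_contra h3
        have h4 := hm.le (i := j + 1) (j := K l) (by omega) (h.Kl.trans h.Kn)
        have h5 := h.al hl
        linarith [h.h1]
    · by_contra h3
      have h4 := hm.le (i := K (l + 1)) (j := j) (by omega) hj.le
      linarith
  have s3 : pl t (stp t G) n (σ + z) - pl t (stp t G) n (ρ + z) ≤ Lam * (σ + z - (ρ + z)) :=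
    stp_le hm hn (by rw [t0]; linarith) (by linarith) (by linarith [h.h2])
      fun j hj _ _ => hLam j hj
  have e : li a b (I + (b - a) * Rs) I σ = I + Rs * (b - σ) := by
    unfold li
    have : b - a ≠ 0 := by linarith [h.ab]
    field_simp
    ring
  rw [e]
  linarith

end crs

/-! ### the bounds of the direct parts at the shifts between `0` and `w` -/

theorem gD_convex {X R nh c E0 E1 : ℝ} (R0 : 0 ≤ R) (c0 : 0 ≤ c) (c1 : c ≤ 1) :
    gD X R ((1 - c) * E0 + c * E1) nh ≤ (1 - c) * gD X R E0 nh + c * gD X R E1 nh := by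
  have c2 := sub_nonneg.2 c1
  unfold gD
  have key : max 0 (max (1 - 2 * ((1 - c) * E0 + c * E1))
        (X * (1 - 2 * ((1 - c) * E0 + c * E1))) + X * ((1 - c) * E0 + c * E1) * nh)
      ≤ (1 - c) * max 0 (max (1 - 2 * E0) (X * (1 - 2 * E0)) + X * E0 * nh)
        + c * max 0 (max (1 - 2 * E1) (X * (1 - 2 * E1)) + X * E1 * nh) := by
    refine max_le (add_nonneg (mul_nonneg c2 (le_max_left _ _))
      (mul_nonneg c0 (le_max_left _ _))) ?_
    have a1 := mul_le_mul_of_nonneg_left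
      (le_max_right 0 (max (1 - 2 * E0) (X * (1 - 2 * E0)) + X * E0 * nh)) c2
    have a2 := mul_le_mul_of_nonneg_left
      (le_max_right 0 (max (1 - 2 * E1) (X * (1 - 2 * E1)) + X * E1 * nh)) c0
    have b1 := mul_le_mul_of_nonneg_left (le_max_left (1 - 2 * E0) (X * (1 - 2 * E0))) c2
    have b2 := mul_le_mul_of_nonneg_left (le_max_left (1 - 2 * E1) (X * (1 - 2 * E1))) c0
    have b3 := mul_le_mul_of_nonneg_left (le_max_right (1 - 2 * E0) (X * (1 - 2 * E0))) c2
    have b4 := mul_le_mul_of_nonneg_left (le_max_right (1 - 2 * E1) (X * (1 - 2 * E1))) c0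
    have m : max (1 - 2 * ((1 - c) * E0 + c * E1)) (X * (1 - 2 * ((1 - c) * E0 + c * E1)))
        ≤ (1 - c) * max (1 - 2 * E0) (X * (1 - 2 * E0))
          + c * max (1 - 2 * E1) (X * (1 - 2 * E1)) := max_le (by linarith) (by linarith)
    linarith
  have := mul_le_mul_of_nonneg_left key R0
  linarith

end Pool.Agent.RZ.RCO
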