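import Pool.Agent.RZ.RCO.Ed3

/-! Route P: the used entries of the tables at the first two nodes and the integers of the ends
(MP_73ccd0_lc). -/

set_option autoImplicit false
set_option linter.unusedSectionVars false

namespace Pool.Agent.RZ.RCO

open Set Finset

/-! ### a form of a table -/

/-- a form of a table: data, length of a row, entry of the step, number of steps, layout -/
structure Fm where
  D : ℕ
  R : ℕ
  iH : ℕ
  n : ℕ
  a : ℕ → Option Cf

namespace Fm

variable (x : Fm)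

/-- the used entry of the coefficient `i` in the row `j` -/
noncomputable def I (i j : ℕ) : ℤ := match x.a i with
  | none => 0
  | some a => (Sg.g x.D (x.R * j + a.u) : ℤ) - 2147483648

/-- the mesh -/
noncomputable def t : ℕ → ℝ := tmD x.D x.R x.iH

/-- the coefficients at the table time `r` -/
noncomputable def cf (r : ℝ) (i : ℕ) : ℝ := (oTq x.D x.R (x.a i)).up x.t x.n r

/-- the function of the form -/
noncomputable def fn (r : ℝ) (p : Pt) : ℝ := FF26 (x.cf r) p

/-- only the coefficients `0, 1, 2, 4, 9, 15` -/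
def z : Bool := (List.range 26).all fun i =>
  (x.a i).isNone || decide (i ∈ ([0, 1, 2, 4, 9, 15] : List ℕ))

/-- the format: the first step is `W` -/
noncomputable def ok (W : ℤ) : Bool :=
  x.z && decide ((Sg.g x.D x.iH : ℤ) = W) && decide (0 < x.n)

variable {x}

theorem u_I (i j : ℕ) : (oTq x.D x.R (x.a i)).u j = (x.I i j : ℝ) / 2 ^ 24 := by
  unfold I
  cases x.a i with
  | none => simp [oTq]
  | some a =>
    show Sg.sn x.D x.R a.u j = _
    unfold Sg.sn Sg.sv
    push_cast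
    ring

theorem z_I (h : x.z = true) {i : ℕ} (hi : i < 26) (hi' : i ∉ ([0, 1, 2, 4, 9, 15] : List ℕ)) :
    x.a i = none := by
  unfold z at h
  simp only [List.all_eq_true, List.mem_range, Bool.or_eq_true, decide_eq_true_eq] at h
  rcases h i hi with h1 | h1
  · exact Option.isNone_iff_eq_none.1 h1
  · exact absurd h1 hi'

theorem cf_none {i : ℕ} (h : x.a i = none) (r : ℝ) : x.cf r i = 0 := by
  unfold cf
  rw [h]
  exact pl_zero _ _ _

theorem fz (h : x.z = true) (r : ℝ) : Fz (x.cf r) := fun _ hi hi' => cf_none (z_I h hi hi') r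

/-- the coefficients in the first step -/
theorem cf_fst {W : ℤ} (h : x.ok W = true) (hm : Msh x.t x.n) {c : ℝ} (c0 : 0 ≤ c) (c1 : c ≤ 1)
    (i : ℕ) : x.cf (c * (W / 2 ^ 24)) i
      = (1 - c) * ((x.I i 0 : ℝ) / 2 ^ 24) + c * ((x.I i 1 : ℝ) / 2 ^ 24) := by
  unfold ok at h
  simp only [Bool.and_eq_true, decide_eq_true_eq] at h
  obtain ⟨⟨-, hW⟩, hn⟩ := h
  have e0 : x.t 0 = 0 := tmD_zero _ _ _
  have e1 : x.t 1 = (W : ℝ) / 2 ^ 24 := by
    show tmD x.D x.R x.iH (0 + 1) = _
    have := tmD_succ x.D x.R x.iH 0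
    rw [tmD_zero, sub_zero] at this
    rw [this, ← hW]
    unfold Sg.un Sg.nv
    rw [mul_zero, zero_add]
    push_cast
    rfl
  have d : 0 < x.t 1 := by rw [← e0]; exact hm.mono 0 hn
  have mem : c * (W / 2 ^ 24) ∈ Icc (x.t 0) (x.t (0 + 1)) := by
    rw [e0, zero_add, ← e1]
    exact ⟨mul_nonneg c0 d.le, mul_le_of_le_one_left d.le c1⟩
  unfold cf Tq.up
  rw [pl_on hm hn mem, e0, zero_add, e1, u_I, u_I, sub_zero, sub_zero]
  rw [e1] at d
  have : c * ((W : ℝ) / 2 ^ 24) / ((W : ℝ) / 2 ^ 24) = c := by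
    rw [mul_div_assoc, div_self d.ne', mul_one]
  rw [this]
  ring

end Fm

/-! ### sums of forms -/

theorem ff_add (f g : ℕ → ℝ) (p : Pt) :
    FF26 (fun i => f i + g i) p = FF26 f p + FF26 g p := by
  rw [lf_26.eq, lf_26.eq, lf_26.eq, ← Finset.sum_add_distrib]
  exact Finset.sum_congr rfl fun i _ => by ring

theorem ff_smul (c : ℝ) (f : ℕ → ℝ) (p : Pt) : FF26 (fun i => c * f i) p = c * FF26 f p := by
  rw [lf_26.eq, lf_26.eq, Finset.mul_sum]
  exact Finset.sum_congr rfl fun i _ => by ring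

theorem ff_zero (p : Pt) : FF26 (fun _ => 0) p = 0 := by
  rw [lf_26.eq]
  simp

/-- the integers of a side: forms and a further vector at the shifts `0` and `1`; tangents of the
negative coefficients of `s` and `q`, over `2 ^ 10` -/
structure Sd where
  L : List Fm
  x0 : ℕ → ℤ
  x1 : ℕ → ℤ
  u9 : ℤ
  u4 : ℤ

/-- a vector with the six coefficients -/
def v6 (a b c d e f : ℤ) (i : ℕ) : ℤ :=
  match i with
  | 0 => a
  | 1 => b
  | 2 => c
  | 4 => d
  | 9 => e
  | 15 => f
  | _ => 0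

namespace Sd

variable (s : Sd)

/-- the sum of the entries in the row `j` -/
noncomputable def S (i j : ℕ) : ℤ := (s.L.map fun x => x.I i j).sum

noncomputable def F0 (i : ℕ) : ℤ := s.S i 0 + s.x0 i
noncomputable def F1 (i : ℕ) : ℤ := s.S i 1 + s.x1 i

/-- the further form -/
noncomputable def xf (c : ℝ) (i : ℕ) : ℝ := (1 - c) * (s.x0 i / 2 ^ 24) + c * (s.x1 i / 2 ^ 24)

/-- **the value of a side** at the table time `c W` -/
noncomputable def val (W : ℤ) (c : ℝ) (p : Pt) : ℝ :=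
  (s.L.map fun x => x.fn (c * (W / 2 ^ 24)) p).sum + FF26 (s.xf c) p

/-- the value at the end `e` of the killed mass against the entry `E` -/
def ckv (st : Bool) (e u9 u4 : ℤ) (F : ℕ → ℤ) (E : ℤ) : Bool :=
  decide (50 * vI st e u9 u4 (F 0) (F 1) (F 2) (F 4) (F 9) (F 15) ≤ cI st * E)

/-- **the check of a side** -/
noncomputable def ck (st : Bool) (W : ℤ) (E : E4) : Bool :=
  ckv st 0 s.u9 s.u4 s.F0 E.a0 && ckv st 0 s.u9 s.u4 s.F1 E.a1 &&
  ckv st 1 s.u9 s.u4 s.F0 E.b0 && ckv st 1 s.u9 s.u4 s.F1 E.b1 &&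
  (s.L.all fun x => x.ok W) && (List.range 26).all fun i =>
    (decide (s.x0 i = 0) && decide (s.x1 i = 0)) || decide (i ∈ ([0, 1, 2, 4, 9, 15] : List ℕ))

variable {s}

/-- sums of forms over a list -/
theorem sum_ff (L : List Fm) (r : ℝ) (p : Pt) :
    (L.map fun x => x.fn r p).sum = FF26 (fun i => (L.map fun x => x.cf r i).sum) p := by
  induction L with
  | nil => simp [ff_zero]
  | cons a L ih =>
    simp only [List.map_cons, List.sum_cons]
    rw [ih, ff_add]
    rfl

theorem sum_cf {L : List Fm} {W : ℤ} (h : ∀ x ∈ L, x.ok W = true) (hm : ∀ x ∈ L, Msh x.t x.n)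
    {c : ℝ} (c0 : 0 ≤ c) (c1 : c ≤ 1) (i : ℕ) :
    (L.map fun x => x.cf (c * (W / 2 ^ 24)) i).sum
      = (1 - c) * (((L.map fun x => x.I i 0).sum : ℤ) / 2 ^ 24)
        + c * (((L.map fun x => x.I i 1).sum : ℤ) / 2 ^ 24) := by
  induction L with
  | nil => simp
  | cons a L ih =>
    simp only [List.map_cons, List.sum_cons]
    rw [ih (fun x hx => h x (List.mem_cons_of_mem _ hx))
      (fun x hx => hm x (List.mem_cons_of_mem _ hx)),
      Fm.cf_fst (h a (by simp)) (hm a (by simp)) c0 c1]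
    push_cast
    ring

theorem ckv_ok {st : Bool} {e u9 u4 : ℤ} {F : ℕ → ℤ} {E : ℤ}
    (h : ckv st e u9 u4 F E = true) :
    ((vI st e u9 u4 (F 0) (F 1) (F 2) (F 4) (F 9) (F 15) : ℤ) : ℝ) / (cI st * 2 ^ 24)
      ≤ (E : ℝ) / (50 * 2 ^ 24) := by
  unfold ckv at h
  rw [decide_eq_true_eq] at h
  have h1 : (50 : ℝ) * (vI st e u9 u4 (F 0) (F 1) (F 2) (F 4) (F 9) (F 15) : ℤ) ≤ cI st * E := by
    exact_mod_cast h
  have c0 := cI_pos st
  rw [div_le_div_iff₀ (by positivity) (by positivity)]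
  linarith

/-- **the value of a side is below its integers** -/
theorem ck_ok {st : Bool} {W : ℤ} {E : E4} (h : s.ck st W E = true)
    (hm : ∀ x ∈ s.L, Msh x.t x.n) {c : ℝ} (c0 : 0 ≤ c) (c1 : c ≤ 1) {p : Pt} (hp : Fps st p) :
    s.val W c p ≤ E.q (kst st) c p.k := by
  unfold ck at h
  simp only [Bool.and_eq_true, decide_eq_true_eq, List.all_eq_true, List.mem_range,
    Bool.or_eq_true] at h
  obtain ⟨⟨⟨⟨⟨h0, h1⟩, h2⟩, h3⟩, h4⟩, h5⟩ := h
  have e : s.val W c p = FF26 (fun i => (s.L.map fun x => x.cf (c * (W / 2 ^ 24)) i).sum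
      + s.xf c i) p := by
    rw [ff_add]
    unfold val
    rw [sum_ff]
  have hz : Fz fun i => (s.L.map fun x => x.cf (c * (W / 2 ^ 24)) i).sum + s.xf c i := by
    intro i hi hi'
    have z1 : s.xf c i = 0 := by
      rcases h5 i hi with h6 | h6
      · unfold xf
        rw [h6.1, h6.2]
        norm_num
      · exact absurd h6 hi'
    have z2 : (s.L.map fun x => x.cf (c * (W / 2 ^ 24)) i).sum = 0 := by
      refine List.sum_eq_zero fun y hy => ?_
      obtain ⟨x, hx, rfl⟩ := List.mem_map.1 hy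
      have := h4 x hx
      unfold Fm.ok at this
      simp only [Bool.and_eq_true] at this
      exact Fm.fz this.1.1 _ i hi hi'
    show (s.L.map fun x => x.cf (c * (W / 2 ^ 24)) i).sum + s.xf c i = 0
    rw [z1, z2, add_zero]
  have hI : ∀ i, (s.L.map fun x => x.cf (c * (W / 2 ^ 24)) i).sum + s.xf c i
      = (1 - c) * (s.F0 i / 2 ^ 24) + c * (s.F1 i / 2 ^ 24) := fun i => by
    rw [sum_cf h4 hm c0 c1]
    unfold xf F0 F1 S
    push_cast
    ring
  rw [e]
  refine (ff_int c0 c1 s.u9 s.u4 hI hz hp).trans ?_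
  have k1 : p.k ≤ 1 := hp.fu.f.k5.trans (by norm_num)
  unfold E4.q ip
  have c2 : 0 ≤ 1 - c := by linarith
  refine qk_mono hp.fu.f.k0 k1 (kst0 st).le hp.k ?_ ?_
  · have g0 := mul_le_mul_of_nonneg_left (ckv_ok h0) c2
    have g1 := mul_le_mul_of_nonneg_left (ckv_ok h1) c0
    refine le_trans (le_of_eq ?_) ((add_le_add g0 g1).trans (le_of_eq ?_)) <;> ring
  · have g0 := mul_le_mul_of_nonneg_left (ckv_ok h2) c2
    have g1 := mul_le_mul_of_nonneg_left (ckv_ok h3) c0
    refine le_trans (le_of_eq ?_) ((add_le_add g0 g1).trans (le_of_eq ?_)) <;> ring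

end Sd

end Pool.Agent.RZ.RCO
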