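import Pool.Agent.RZ.RCO.Ed5

/-! Route P: the chords of the used entries of the tables over the coarse cells (MP_73ccd0_lc). -/

set_option autoImplicit false
set_option linter.unusedSectionVars false

namespace Pool.Agent.RZ.RCO

open Set Finset

/-! ### piecewise linear functions -/

theorem rmpS_le1 {a b : ℝ} (h : a ≤ b) : rmpS a ≤ rmpS b :=
  max_le_max le_rfl (min_le_min le_rfl h)

theorem rmpS_lip {a b : ℝ} (h : a ≤ b) : rmpS b ≤ rmpS a + (b - a) := by
  unfold rmpS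
  refine max_le ?_ ?_
  · have := le_max_left 0 (min 1 a)
    linarith
  · have h1 := le_max_right 0 (min 1 a)
    rcases le_total 1 a with h2 | h2
    · rw [min_eq_left h2] at h1 ⊢
      have := min_le_left 1 b
      linarith
    · rw [min_eq_right h2] at h1 ⊢
      have := min_le_right 1 b
      linarith

/-- a piecewise linear function is Lipschitz -/
theorem pl_lip {t : ℕ → ℝ} {n : ℕ} (h : Msh t n) (v : ℕ → ℝ) :
    ∃ Λ : ℝ, 0 ≤ Λ ∧ ∀ a b, a ≤ b → pl t v n a ≤ pl t v n b + Λ * (b - a) := by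
  refine ⟨∑ j ∈ Finset.range n, |v (j + 1) - v j| / (t (j + 1) - t j),
    Finset.sum_nonneg fun j hj => div_nonneg (abs_nonneg _)
      (sub_nonneg.2 (h.mono j (Finset.mem_range.1 hj)).le), fun a b hab => ?_⟩
  unfold pl
  rw [add_assoc, Finset.sum_mul, ← Finset.sum_add_distrib]
  refine add_le_add le_rfl (Finset.sum_le_sum fun j hj => ?_)
  have d : 0 < t (j + 1) - t j := sub_pos.2 (h.mono j (Finset.mem_range.1 hj))
  have h0 : (a - t j) / (t (j + 1) - t j) ≤ (b - t j) / (t (j + 1) - t j) :=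
    div_le_div_of_nonneg_right (by linarith) d.le
  have h1 := rmpS_le1 h0
  have h2 := rmpS_lip h0
  have e : (b - t j) / (t (j + 1) - t j) - (a - t j) / (t (j + 1) - t j)
      = (b - a) / (t (j + 1) - t j) := by
    rw [← sub_div]
    congr 1
    ring
  have h3 : (v (j + 1) - v j) * (rmpS ((a - t j) / (t (j + 1) - t j))
      - rmpS ((b - t j) / (t (j + 1) - t j)))
      ≤ |v (j + 1) - v j| * ((b - a) / (t (j + 1) - t j)) := by
    refine (le_abs_self _).trans ?_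
    rw [abs_mul]
    refine mul_le_mul_of_nonneg_left ?_ (abs_nonneg _)
    rw [abs_of_nonpos (by linarith)]
    linarith
  have h4 : |v (j + 1) - v j| / (t (j + 1) - t j) * (b - a)
      = |v (j + 1) - v j| * ((b - a) / (t (j + 1) - t j)) := by ring
  rw [h4]
  have h5 : (v (j + 1) - v j) * (rmpS ((a - t j) / (t (j + 1) - t j))
      - rmpS ((b - t j) / (t (j + 1) - t j)))
      = (v (j + 1) - v j) * rmpS ((a - t j) / (t (j + 1) - t j))
        - (v (j + 1) - v j) * rmpS ((b - t j) / (t (j + 1) - t j)) := by ring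
  linarith

/-- a step between two nodes -/
theorem Msh.stepAB {t : ℕ → ℝ} {n : ℕ} (h : Msh t n) {A B : ℕ} (hAB : A < B) (hB : B ≤ n) {r : ℝ}
    (hr : r ∈ Icc (t A) (t B)) : ∃ j, A ≤ j ∧ j < B ∧ r ∈ Icc (t j) (t (j + 1)) := by
  have h1 : Msh (fun i => t (A + i)) (B - A) := ⟨fun j hj => h.mono (A + j) (by omega)⟩
  have e : A + (B - A) = B := by omega
  obtain ⟨j, hj, hj2⟩ := h1.stepc (by omega) (r := r) (by
    simp only [add_zero, e]
    exact hr)
  exact ⟨A + j, by omega, by omega, hj2⟩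

/-! ### the used coefficients -/

/-- the coefficients of a form which are used -/
def c6 : List ℕ := [0, 1, 2, 4, 9, 15]

theorem ff_mono6 {f g : ℕ → ℝ} (hf : Fz f) (hg : Fz g) {p : Pt} (hp : Fu p) {δ : ℝ} (δ0 : 0 ≤ δ)
    (h : ∀ i ∈ c6, f i ≤ g i + δ) : FF26 f p ≤ FF26 g p + 6 * δ := by
  have F := hp.f
  have k1 : 0 ≤ 1 - p.k := by have := F.k5; linarith
  have hm : 0 ≤ p.m := by rw [F.m]; exact k1
  have hm1 : p.m ≤ 1 := by rw [F.m]; have := F.k0; linarith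
  have hk1 : p.k ≤ 1 := F.k5.trans (by norm_num)
  have hh1 : p.h ≤ 1 := by have := F.h5; have := F.k0; linarith
  have hq1 : p.q ≤ 1 := by have := F.q10; have := F.k0; linarith
  have hs1 : p.s ≤ 1 := by have := F.s10; linarith
  have key : ∀ (i : ℕ) (e : ℝ), i ∈ c6 → 0 ≤ e → e ≤ 1 → f i * e ≤ g i * e + δ := by
    intro i e hi e0 e1
    have h1 := mul_le_mul_of_nonneg_right (h i hi) e0
    have h2 : δ * e ≤ δ := mul_le_of_le_one_right δ0 e1
    linarith
  have km0 : 0 ≤ p.k * p.m := mul_nonneg F.k0 hm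
  have km1 : p.k * p.m ≤ 1 := mul_le_one₀ hk1 hm hm1
  have kh0 : 0 ≤ p.k * p.h := mul_nonneg F.k0 F.h0
  have kh1 : p.k * p.h ≤ 1 := mul_le_one₀ hk1 F.h0 hh1
  have a0 := key 0 p.m (by simp [c6]) hm hm1
  have a1 := key 1 (p.k * p.m) (by simp [c6]) km0 km1
  have a2 := key 2 p.h (by simp [c6]) F.h0 hh1
  have a3 := key 15 (p.k * p.h) (by simp [c6]) kh0 kh1
  have a4 := key 4 p.q (by simp [c6]) F.q0 hq1
  have a5 := key 9 p.s (by simp [c6]) F.s0 hs1
  rw [hf.eq, hg.eq]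
  linarith

theorem ff_mono0 {f g : ℕ → ℝ} (hf : Fz f) (hg : Fz g) {p : Pt} (hp : Fu p)
    (h : ∀ i ∈ c6, f i ≤ g i) : FF26 f p ≤ FF26 g p := by
  have := ff_mono6 hf hg hp le_rfl (fun i hi => by rw [add_zero]; exact h i hi)
  linarith

/-- **the function of a form is Lipschitz in the time** -/
theorem Fm.fn_lip {x : Fm} (hz : x.z = true) (hm : Msh x.t x.n) :
    ∃ Λ : ℝ, 0 ≤ Λ ∧ ∀ a b, a ≤ b → ∀ p, Fu p → x.fn a p ≤ x.fn b p + Λ * (b - a) := by
  have h := fun i => pl_lip hm (oTq x.D x.R (x.a i)).u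
  choose Λ h0 h1 using h
  have hs0 : 0 ≤ Λ 0 + Λ 1 + Λ 2 + Λ 4 + Λ 9 + Λ 15 := by
    have := h0 0; have := h0 1; have := h0 2; have := h0 4; have := h0 9; have := h0 15
    linarith
  refine ⟨6 * (Λ 0 + Λ 1 + Λ 2 + Λ 4 + Λ 9 + Λ 15), by linarith, fun a b hab p hp => ?_⟩
  have hd : 0 ≤ b - a := sub_nonneg.2 hab
  have := ff_mono6 (Fm.fz hz a) (Fm.fz hz b) hp (mul_nonneg hs0 hd) (fun i hi => by
    refine (h1 i a b hab).trans (add_le_add le_rfl (mul_le_mul_of_nonneg_right ?_ hd))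
    have g0 := h0 0; have g1 := h0 1; have g2 := h0 2; have g4 := h0 4; have g9 := h0 9
    have g15 := h0 15
    simp only [c6, List.mem_cons, List.not_mem_nil, or_false] at hi
    rcases hi with rfl | rfl | rfl | rfl | rfl | rfl <;> linarith)
  refine this.trans (le_of_eq ?_)
  show FF26 (x.cf b) p + _ = FF26 (x.cf b) p + _
  ring

/-! ### the chords -/

/-- the chords of the sum of two forms: `K` the nodes of the mesh at the coarse nodes, `T` the node
times, `lo`, `hi` the values of the chord of a coarse cell at its ends, `lo1` the left values of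
the first coarse cell at the shift `1` -/
structure Cd where
  P : Fm
  G : Fm
  K : ℕ → ℕ
  T : ℕ → ℤ
  lo : ℕ → ℕ → ℤ
  hi : ℕ → ℕ → ℤ
  lo1 : ℕ → ℤ

namespace Cd

variable (x : Cd)

/-- the left coefficients -/
noncomputable def lof (c : ℝ) (l i : ℕ) : ℝ :=
  if l = 0 then (1 - c) * (x.lo 0 i / 2 ^ 24) + c * (x.lo1 i / 2 ^ 24) else x.lo l i / 2 ^ 24

/-- the right coefficients -/
noncomputable def hif (l i : ℕ) : ℝ := x.hi l i / 2 ^ 24

/-- **the check of the chords** -/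
noncomputable def ck (q : Ec0) : Bool :=
  decide (x.K 0 = 0) && decide (x.K q.n = x.P.n) && decide (x.K q.n = x.G.n) &&
  decide (x.T 0 = 0) && x.P.ok q.W && x.G.ok q.W &&
  ((List.range q.n).all fun l => decide (x.K l < x.K (l + 1))) &&
  ((List.range x.P.n).all fun j =>
    decide (x.T (j + 1) = x.T j + (Sg.g x.P.D (x.P.R * j + x.P.iH) : ℤ)) &&
    decide (x.T (j + 1) = x.T j + (Sg.g x.G.D (x.G.R * j + x.G.iH) : ℤ))) &&
  ((List.range (q.n + 1)).all fun l => decide (x.T (x.K l) = q.A l)) &&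
  ((List.range q.n).all fun l => (List.range (x.K (l + 1) - x.K l + 1)).all fun j =>
    c6.all fun i => decide ((q.A (l + 1) - q.A l) * (x.P.I i (x.K l + j) + x.G.I i (x.K l + j))
      ≤ (q.A (l + 1) - x.T (x.K l + j)) * x.lo l i + (x.T (x.K l + j) - q.A l) * x.hi l i)) &&
  (c6.all fun i => decide ((q.A 1 - q.W) * x.lo 0 i + q.W * x.hi 0 i ≤ q.A 1 * x.lo1 i)) &&
  (List.range 26).all fun i => decide (i ∈ c6) ||
    ((List.range q.n).all fun l => decide (x.lo l i = 0) && decide (x.hi l i = 0)) &&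
      decide (x.lo1 i = 0)

variable {x} {q : Ec0}

/-- what the check gives -/
structure Ok (x : Cd) (q : Ec0) : Prop where
  K0 : x.K 0 = 0
  KP : x.K q.n = x.P.n
  KG : x.K q.n = x.G.n
  T0 : x.T 0 = 0
  P : x.P.ok q.W = true
  G : x.G.ok q.W = true
  Kl : ∀ l < q.n, x.K l < x.K (l + 1)
  TP : ∀ j < x.P.n, x.T (j + 1) = x.T j + (Sg.g x.P.D (x.P.R * j + x.P.iH) : ℤ)
  TG : ∀ j < x.P.n, x.T (j + 1) = x.T j + (Sg.g x.G.D (x.G.R * j + x.G.iH) : ℤ)
  TK : ∀ l ≤ q.n, x.T (x.K l) = q.A l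
  L : ∀ l < q.n, ∀ j, x.K l ≤ j → j ≤ x.K (l + 1) → ∀ i ∈ c6,
    (q.A (l + 1) - q.A l) * (x.P.I i j + x.G.I i j)
      ≤ (q.A (l + 1) - x.T j) * x.lo l i + (x.T j - q.A l) * x.hi l i
  L1 : ∀ i ∈ c6, (q.A 1 - q.W) * x.lo 0 i + q.W * x.hi 0 i ≤ q.A 1 * x.lo1 i
  z : ∀ i < 26, i ∉ c6 → (∀ l < q.n, x.lo l i = 0 ∧ x.hi l i = 0) ∧ x.lo1 i = 0

theorem ok_of (h : x.ck q = true) : x.Ok q := by
  unfold ck at h
  simp only [Bool.and_eq_true, Bool.or_eq_true, decide_eq_true_eq, List.all_eq_true,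
    List.mem_range] at h
  obtain ⟨⟨⟨⟨⟨⟨⟨⟨⟨⟨⟨a1, a2⟩, a3⟩, a4⟩, a5⟩, a6⟩, a7⟩, a8⟩, a9⟩, a10⟩, a11⟩, a12⟩ := h
  refine ⟨a1, a2, a3, a4, a5, a6, a7, fun j hj => (a8 j hj).1, fun j hj => (a8 j hj).2,
    fun l hl => a9 l (by omega), fun l hl j h1 h2 i hi => ?_, a11, fun i hi hi' => ?_⟩
  · have := a10 l hl (j - x.K l) (by omega) i hi
    rwa [show x.K l + (j - x.K l) = j by omega] at this
  · rcases a12 i hi with h1 | h1
    · exact absurd h1 hi'
    · exact h1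

theorem tP (h : x.Ok q) {j : ℕ} (hj : j ≤ x.P.n) : x.P.t j = (x.T j : ℝ) / 2 ^ 24 := by
  induction j with
  | zero =>
    rw [h.T0]
    show tmD _ _ _ 0 = _
    rw [tmD_zero]
    norm_num
  | succ j ih =>
    have h1 := tmD_succ x.P.D x.P.R x.P.iH j
    have h2 : Sg.un x.P.D x.P.R x.P.iH j = (Sg.g x.P.D (x.P.R * j + x.P.iH) : ℝ) / 2 ^ 24 := rfl
    have h3 := ih (by omega)
    show tmD x.P.D x.P.R x.P.iH (j + 1) = _
    have h4 : x.P.t j = tmD x.P.D x.P.R x.P.iH j := rfl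
    rw [h2, ← h4, h3] at h1
    rw [h.TP j (by omega)]
    push_cast
    linarith

theorem tG (h : x.Ok q) {j : ℕ} (hj : j ≤ x.P.n) : x.G.t j = (x.T j : ℝ) / 2 ^ 24 := by
  induction j with
  | zero =>
    rw [h.T0]
    show tmD _ _ _ 0 = _
    rw [tmD_zero]
    norm_num
  | succ j ih =>
    have h1 := tmD_succ x.G.D x.G.R x.G.iH j
    have h2 : Sg.un x.G.D x.G.R x.G.iH j = (Sg.g x.G.D (x.G.R * j + x.G.iH) : ℝ) / 2 ^ 24 := rfl
    have h3 := ih (by omega)
    show tmD x.G.D x.G.R x.G.iH (j + 1) = _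
    have h4 : x.G.t j = tmD x.G.D x.G.R x.G.iH j := rfl
    rw [h2, ← h4, h3] at h1
    rw [h.TG j (by omega)]
    push_cast
    linarith

theorem K_le (h : x.Ok q) {l : ℕ} (hl : l ≤ q.n) : x.K l ≤ x.P.n := by
  have key : ∀ m, l ≤ m → m ≤ q.n → x.K l ≤ x.K m := fun m => by
    induction m with
    | zero =>
      intro h1 _
      have : l = 0 := by omega
      rw [this]
    | succ m ih =>
      intro h1 h2
      rcases Nat.lt_or_ge m l with h3 | h3
      · have : l = m + 1 := by omega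
        rw [this]
      · exact (ih h3 (by omega)).trans (h.Kl m (by omega)).le
  rw [← h.KP]
  exact key q.n hl le_rfl

theorem li_conv (a b u v x y z : ℝ) :
    li a b u v ((1 - z) * x + z * y) = (1 - z) * li a b u v x + z * li a b u v y := by
  unfold li
  ring

/-- the chord in a coarse cell -/
theorem chord (h : x.Ok q) (hq : q.Ok) (hP : Msh x.P.t x.P.n) (hG : Msh x.G.t x.G.n) {l : ℕ}
    (hl : l < q.n) {u : ℝ} (hu : u ∈ Set.Icc ((q.A l : ℝ) / 2 ^ 24) ((q.A (l + 1) : ℝ) / 2 ^ 24)) {i : ℕ}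
    (hi : i ∈ c6) : x.P.cf u i + x.G.cf u i
      ≤ li (q.A l / 2 ^ 24) (q.A (l + 1) / 2 ^ 24) (x.lo l i / 2 ^ 24) (x.hi l i / 2 ^ 24) u := by
  have hA : (q.A l : ℝ) < q.A (l + 1) := by exact_mod_cast hq.lt l hl
  have nPG : x.G.n = x.P.n := by rw [← h.KG, h.KP]
  have hKn : x.K (l + 1) ≤ x.P.n := K_le h (by omega)
  -- the values at the nodes
  have node : ∀ j, x.K l ≤ j → j ≤ x.K (l + 1) →
      ((x.P.I i j : ℝ) / 2 ^ 24 + (x.G.I i j : ℝ) / 2 ^ 24)
        ≤ li (q.A l / 2 ^ 24) (q.A (l + 1) / 2 ^ 24) (x.lo l i / 2 ^ 24) (x.hi l i / 2 ^ 24)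
          ((x.T j : ℝ) / 2 ^ 24) := by
    intro j h1 h2
    have h3 := h.L l hl j h1 h2 i hi
    have h3' : ((q.A (l + 1) : ℝ) - q.A l) * (x.P.I i j + x.G.I i j)
      ≤ (q.A (l + 1) - x.T j) * x.lo l i + (x.T j - q.A l) * x.hi l i := by exact_mod_cast h3
    have hd : (0 : ℝ) < q.A (l + 1) - q.A l := by linarith
    have e : li ((q.A l : ℝ) / 2 ^ 24) (q.A (l + 1) / 2 ^ 24) (x.lo l i / 2 ^ 24)
        (x.hi l i / 2 ^ 24) ((x.T j : ℝ) / 2 ^ 24)
        = ((q.A (l + 1) - x.T j) * x.lo l i + (x.T j - q.A l) * x.hi l i)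
          / (q.A (l + 1) - q.A l) / 2 ^ 24 := by
      unfold li
      field_simp
      ring
    rw [e, ← add_div]
    refine div_le_div_of_nonneg_right ?_ (by positivity)
    rw [le_div_iff₀ hd]
    linarith
  obtain ⟨j, hj1, hj2, hj3⟩ := hP.stepAB (h.Kl l hl) hKn (r := u) (by
    rw [tP h (K_le h hl.le), tP h hKn, h.TK l hl.le, h.TK (l + 1) (by omega)]
    exact hu)
  have tj := tP h (j := j) (by omega)
  have tj1 := tP h (j := j + 1) (by omega)
  have sj := tG h (j := j) (by omega)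
  have sj1 := tG h (j := j + 1) (by omega)
  have hj4 : u ∈ Icc (x.G.t j) (x.G.t (j + 1)) := by
    rw [sj, sj1, ← tj, ← tj1]
    exact hj3
  have d : 0 < x.P.t (j + 1) - x.P.t j := sub_pos.2 (hP.mono j (by omega))
  set y := (u - x.P.t j) / (x.P.t (j + 1) - x.P.t j) with hy
  have y0 : 0 ≤ y := div_nonneg (by linarith [hj3.1]) d.le
  have y1 : y ≤ 1 := (div_le_one d).2 (by linarith [hj3.2])
  have eu : u = (1 - y) * ((x.T j : ℝ) / 2 ^ 24) + y * ((x.T (j + 1) : ℝ) / 2 ^ 24) := by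
    rw [← tj, ← tj1, hy]
    field_simp
    ring
  have e1 : x.P.cf u i = (1 - y) * ((x.P.I i j : ℝ) / 2 ^ 24)
      + y * ((x.P.I i (j + 1) : ℝ) / 2 ^ 24) := by
    unfold Fm.cf Tq.up
    rw [pl_on hP (by omega) hj3, Fm.u_I, Fm.u_I, ← hy]
    ring
  have e2 : x.G.cf u i = (1 - y) * ((x.G.I i j : ℝ) / 2 ^ 24)
      + y * ((x.G.I i (j + 1) : ℝ) / 2 ^ 24) := by
    unfold Fm.cf Tq.up
    have : (u - x.G.t j) / (x.G.t (j + 1) - x.G.t j) = y := by
      rw [hy, sj, sj1, tj, tj1]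
    rw [pl_on hG (by omega) hj4, Fm.u_I, Fm.u_I, this]
    ring
  have n1 := mul_le_mul_of_nonneg_left (node j hj1 hj2.le) (sub_nonneg.2 y1)
  have n2 := mul_le_mul_of_nonneg_left (node (j + 1) (by omega) (by omega)) y0
  rw [e1, e2, eu, li_conv]
  linarith

/-- linear interpolation of forms -/
theorem ff_li (a b : ℝ) (f g : ℕ → ℝ) (s : ℝ) (p : Pt) :
    FF26 (fun i => li a b (f i) (g i) s) p = li a b (FF26 f p) (FF26 g p) s := by
  have e : (fun i => li a b (f i) (g i) s)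
      = fun i => (1 - (s - a) / (b - a)) * f i + (s - a) / (b - a) * g i := by
    funext i
    unfold li
    ring
  rw [e, ff_add, ff_smul, ff_smul]
  unfold li
  ring

/-- **the chords are above the sum of the two functions** -/
theorem ck_ok (h : x.ck q = true) (hq : q.Ok) (hP : Msh x.P.t x.P.n) (hG : Msh x.G.t x.G.n) :
    ∃ Λ : ℝ, 0 ≤ Λ ∧ ∀ c : ℝ, 0 ≤ c → c ≤ 1 → ∀ l < q.n, ∀ σ ρ δ : ℝ, 0 ≤ ρ → ρ ≤ σ →
      σ ≤ ρ + δ → q.nd l c ≤ σ → σ ≤ q.nd (l + 1) c → q.nd l c < q.nd (l + 1) c →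
      ∀ p, Fu p → x.P.fn (ρ + c * (q.W / 2 ^ 24)) p + x.G.fn (ρ + c * (q.W / 2 ^ 24)) p
        ≤ li (q.nd l c) (q.nd (l + 1) c) (FF26 (x.lof c l) p) (FF26 (x.hif l) p) σ + Λ * δ := by
  have ho := ok_of h
  have hPz : x.P.z = true := by
    have := ho.P
    unfold Fm.ok at this
    simp only [Bool.and_eq_true] at this
    exact this.1.1
  have hGz : x.G.z = true := by
    have := ho.G
    unfold Fm.ok at this
    simp only [Bool.and_eq_true] at this
    exact this.1.1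
  obtain ⟨Λ1, h10, h11⟩ := Fm.fn_lip hPz hP
  obtain ⟨Λ2, h20, h21⟩ := Fm.fn_lip hGz hG
  refine ⟨Λ1 + Λ2, add_nonneg h10 h20, fun c c0 c1 l hl σ ρ δ _ hρ hδ hσ1 hσ2 hnd p hp => ?_⟩
  set w : ℝ := q.W / 2 ^ 24 with hw
  have w0 : 0 < w := div_pos (by exact_mod_cast hq.W0) (by positivity)
  have s1 := h11 (ρ + c * w) (σ + c * w) (by linarith) p hp
  have s2 := h21 (ρ + c * w) (σ + c * w) (by linarith) p hp
  have s3 : (Λ1 + Λ2) * (σ - ρ) ≤ (Λ1 + Λ2) * δ :=
    mul_le_mul_of_nonneg_left (by linarith) (add_nonneg h10 h20)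
  have key : x.P.fn (σ + c * w) p + x.G.fn (σ + c * w) p
      ≤ li (q.nd l c) (q.nd (l + 1) c) (FF26 (x.lof c l) p) (FF26 (x.hif l) p) σ := by
    have z1 : Fz fun i => x.P.cf (σ + c * w) i + x.G.cf (σ + c * w) i := fun i hi hi' => by
      show x.P.cf (σ + c * w) i + x.G.cf (σ + c * w) i = 0
      rw [Fm.fz hPz _ i hi hi', Fm.fz hGz _ i hi hi', add_zero]
    have z2 : Fz fun i => li (q.nd l c) (q.nd (l + 1) c) (x.lof c l i) (x.hif l i) σ :=
      fun i hi hi' => by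
        obtain ⟨g1, g2⟩ := ho.z i hi hi'
        have a1 : x.lof c l i = 0 := by
          unfold lof
          split_ifs with h0
          · rw [h0] at hl
            rw [(g1 0 hl).1, g2]
            norm_num
          · rw [(g1 l hl).1]
            norm_num
        have a2 : x.hif l i = 0 := by
          unfold hif
          rw [(g1 l hl).2]
          norm_num
        show li _ _ (x.lof c l i) (x.hif l i) σ = 0
        rw [a1, a2]
        unfold li
        ring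
    rw [← ff_li]
    have e : x.P.fn (σ + c * w) p + x.G.fn (σ + c * w) p
        = FF26 (fun i => x.P.cf (σ + c * w) i + x.G.cf (σ + c * w) i) p := by
      rw [ff_add]
      rfl
    rw [e]
    refine ff_mono0 z1 z2 hp fun i hi => ?_
    have e1 : q.nd (l + 1) c = q.A (l + 1) / 2 ^ 24 - c * w := by
      unfold Ec0.nd Ec0.a1 ip
      rw [if_neg (Nat.succ_ne_zero l), hw]
      push_cast
      ring
    rcases Nat.eq_zero_or_pos l with h0 | h0
    · subst h0
      have e0 : q.nd 0 c = 0 := by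
        unfold Ec0.nd Ec0.a1 ip
        rw [if_pos rfl, hq.A0]
        norm_num
      rw [e0] at hσ1 hnd ⊢
      rw [e1, zero_add] at hσ2 hnd
      rw [e1, zero_add]
      have hcw : 0 ≤ c * w := mul_nonneg c0 w0.le
      have m : σ + c * w ∈ Set.Icc ((q.A 0 : ℝ) / 2 ^ 24) ((q.A (0 + 1) : ℝ) / 2 ^ 24) := by
        rw [hq.A0, zero_add]
        constructor
        · norm_num
          linarith
        · linarith
      refine (chord ho hq hP hG hl m hi).trans ?_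
      rw [hq.A0, zero_add]
      have hA1 : (0 : ℝ) < (q.A 1 : ℝ) / 2 ^ 24 := by linarith
      have hl1 : li ((0 : ℤ) / 2 ^ 24 : ℝ) ((q.A 1 : ℝ) / 2 ^ 24) (x.lo 0 i / 2 ^ 24)
          (x.hi 0 i / 2 ^ 24) w ≤ x.lo1 i / 2 ^ 24 := by
        have h3 := ho.L1 i hi
        have h3' : ((q.A 1 : ℝ) - q.W) * x.lo 0 i + q.W * x.hi 0 i ≤ q.A 1 * x.lo1 i := by
          exact_mod_cast h3
        have hA : (0 : ℝ) < q.A 1 := by
          have : (q.A 1 : ℝ) = (q.A 1 : ℝ) / 2 ^ 24 * 2 ^ 24 := by ring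
          rw [this]
          positivity
        have e2 : li ((0 : ℤ) / 2 ^ 24 : ℝ) ((q.A 1 : ℝ) / 2 ^ 24) (x.lo 0 i / 2 ^ 24)
            (x.hi 0 i / 2 ^ 24) w
            = (((q.A 1 : ℝ) - q.W) * x.lo 0 i + q.W * x.hi 0 i) / q.A 1 / 2 ^ 24 := by
          have hA' : (q.A 1 : ℝ) ≠ 0 := hA.ne'
          unfold li
          rw [hw]
          push_cast
          rw [zero_div, sub_zero, sub_zero]
          field_simp
          ring
        rw [e2]
        refine div_le_div_of_nonneg_right ?_ (by positivity)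
        rw [div_le_iff₀ hA]
        linarith
      have e3 : li ((0 : ℤ) / 2 ^ 24 : ℝ) ((q.A 1 : ℝ) / 2 ^ 24) (x.lo 0 i / 2 ^ 24)
          (x.hi 0 i / 2 ^ 24) (σ + c * w)
          = li 0 ((q.A 1 : ℝ) / 2 ^ 24 - c * w)
            (li ((0 : ℤ) / 2 ^ 24 : ℝ) ((q.A 1 : ℝ) / 2 ^ 24) (x.lo 0 i / 2 ^ 24)
              (x.hi 0 i / 2 ^ 24) (c * w)) (x.hi 0 i / 2 ^ 24) σ := by
        unfold li
        have n1 : (q.A 1 : ℝ) / 2 ^ 24 - (0 : ℤ) / 2 ^ 24 ≠ 0 := by
          push_cast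
          rw [zero_div, sub_zero]
          exact hA1.ne'
        have n2 : (q.A 1 : ℝ) / 2 ^ 24 - c * w - 0 ≠ 0 := by
          rw [sub_zero]
          exact (by linarith : (0 : ℝ) < (q.A 1 : ℝ) / 2 ^ 24 - c * w).ne'
        push_cast at n1 ⊢
        rw [zero_div, sub_zero] at n1 ⊢
        rw [sub_zero] at n2 ⊢
        set a := (q.A 1 : ℝ) / 2 ^ 24 with ha
        field_simp
        ring
      rw [e3]
      refine li_mono hnd hσ1 hσ2 ?_ le_rfl
      have e4 : c * w = (1 - c) * 0 + c * w := by ring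
      rw [e4, li_conv]
      have e5 : li ((0 : ℤ) / 2 ^ 24 : ℝ) ((q.A 1 : ℝ) / 2 ^ 24) (x.lo 0 i / 2 ^ 24)
          (x.hi 0 i / 2 ^ 24) 0 = x.lo 0 i / 2 ^ 24 := by
        have : ((0 : ℤ) / 2 ^ 24 : ℝ) = 0 := by norm_num
        rw [this]
        exact li_a _ _ _ _
      rw [e5]
      unfold lof
      rw [if_pos rfl]
      exact add_le_add le_rfl (mul_le_mul_of_nonneg_left hl1 c0)
    · have e0 : q.nd l c = q.A l / 2 ^ 24 - c * w := by
        unfold Ec0.nd Ec0.a1 ip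
        rw [if_neg h0.ne', hw]
        push_cast
        ring
      rw [e0] at hσ1 ⊢
      rw [e1] at hσ2 ⊢
      have m : σ + c * w ∈ Set.Icc ((q.A l : ℝ) / 2 ^ 24) ((q.A (l + 1) : ℝ) / 2 ^ 24) :=
        ⟨by linarith, by linarith⟩
      refine (chord ho hq hP hG hl m hi).trans (le_of_eq ?_)
      unfold lof hif
      rw [if_neg h0.ne']
      unfold li
      have a1 : (q.A (l + 1) : ℝ) / 2 ^ 24 - c * w - (q.A l / 2 ^ 24 - c * w)
          = q.A (l + 1) / 2 ^ 24 - q.A l / 2 ^ 24 := by ring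
      have a2 : σ - ((q.A l : ℝ) / 2 ^ 24 - c * w) = σ + c * w - q.A l / 2 ^ 24 := by ring
      rw [a1, a2]
  have e : Λ1 * (σ + c * w - (ρ + c * w)) + Λ2 * (σ + c * w - (ρ + c * w))
      = (Λ1 + Λ2) * (σ - ρ) := by ring
  linarith

end Cd

end Pool.Agent.RZ.RCO
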