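import Pool.Agent.RZ.RCO.RT

/-! Route P: comparison of two piecewise linear functions; the table at the times of a cell from
the table at its end (MP_73ccd0_lc). -/

namespace Pool.Agent.RZ.RCO

open Set Finset MeasureTheory

set_option linter.unusedSectionVars false

namespace RT

/-! ### the slope of a piecewise linear function -/

/-- the clamped coordinate of the cell `j` -/
noncomputable def clp (n j : ℕ) (x : ℝ) : ℝ := max 0 (min 1 (n * x - j))

theorem clp_mono (n j : ℕ) {x y : ℝ} (h : x ≤ y) : clp n j x ≤ clp n j y := by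
  unfold clp
  exact max_le_max le_rfl (min_le_min le_rfl (by
    have := mul_le_mul_of_nonneg_left h (Nat.cast_nonneg (α := ℝ) n)
    linarith))

theorem clp_cell {n l : ℕ} (hl : l < n) (d : ℕ → ℝ) {x c : ℝ} (c0 : 0 ≤ c) (c1 : c ≤ 1)
    (hx : n * x = l + c) :
    ∑ j ∈ Finset.range n, d j * clp n j x = ∑ j ∈ Finset.range l, d j + c * d l := by
  rw [← Finset.sum_subset (s₁ := Finset.range (l + 1)) (Finset.range_subset_range.2 hl)]
  · rw [Finset.sum_range_succ]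
    congr 1
    · refine Finset.sum_congr rfl fun j hj => ?_
      have h1 : (j : ℝ) + 1 ≤ l := by
        have := Finset.mem_range.1 hj
        exact_mod_cast this
      unfold clp
      rw [hx, min_eq_left (by linarith), max_eq_right zero_le_one, mul_one]
    · unfold clp
      rw [hx, show (l : ℝ) + c - l = c by ring, min_eq_right c1, max_eq_right c0, mul_comm]
  · intro j _ hj
    rw [Finset.mem_range, not_lt] at hj
    have h1 : (l : ℝ) + 1 ≤ j := by exact_mod_cast hj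
    unfold clp
    rw [hx, min_eq_right (by linarith), max_eq_left (by linarith), mul_zero]

theorem plx_eq {n : ℕ} (n0 : 0 < n) (v : ℕ → ℝ) {x : ℝ} (x0 : 0 ≤ x) (x1 : x ≤ 1) :
    plx n v x = v 0 + ∑ j ∈ Finset.range n, (v (j + 1) - v j) * clp n j x := by
  obtain ⟨l, hl, c, c0, c1, hc⟩ := cell_ex n0 x0 x1
  rw [plx_cell hl v c0 c1 hc, clp_cell hl _ c0 c1 hc, Finset.sum_range_sub]
  ring

theorem clp_sum {n : ℕ} (n0 : 0 < n) {x : ℝ} (x0 : 0 ≤ x) (x1 : x ≤ 1) :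
    ∑ j ∈ Finset.range n, clp n j x = n * x := by
  obtain ⟨l, hl, c, c0, c1, hc⟩ := cell_ex n0 x0 x1
  have h := clp_cell hl (fun _ => 1) c0 c1 hc
  simp only [one_mul, Finset.sum_const, Finset.card_range, nsmul_eq_mul, mul_one] at h
  rw [h, hc]

/-- the slope is at most `n W` -/
theorem plx_lip {n : ℕ} (n0 : 0 < n) {v : ℕ → ℝ} {W : ℝ}
    (hW : ∀ j < n, |v (j + 1) - v j| ≤ W) {x y : ℝ} (x0 : 0 ≤ x) (hxy : x ≤ y) (y1 : y ≤ 1) :
    |plx n v y - plx n v x| ≤ n * W * (y - x) := by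
  rw [plx_eq n0 v (x0.trans hxy) y1, plx_eq n0 v x0 (hxy.trans y1)]
  have e : v 0 + ∑ j ∈ Finset.range n, (v (j + 1) - v j) * clp n j y
      - (v 0 + ∑ j ∈ Finset.range n, (v (j + 1) - v j) * clp n j x)
      = ∑ j ∈ Finset.range n, (v (j + 1) - v j) * (clp n j y - clp n j x) := by
    rw [add_sub_add_left_eq_sub, ← Finset.sum_sub_distrib]
    exact Finset.sum_congr rfl fun j _ => by ring
  rw [e]
  refine (Finset.abs_sum_le_sum_abs _ _).trans ?_
  have h1 : ∀ j ∈ Finset.range n, |(v (j + 1) - v j) * (clp n j y - clp n j x)|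
      ≤ W * (clp n j y - clp n j x) := fun j hj => by
    have h2 := sub_nonneg.2 (clp_mono n j hxy)
    rw [abs_mul, abs_of_nonneg h2]
    exact mul_le_mul_of_nonneg_right (hW j (Finset.mem_range.1 hj)) h2
  refine (Finset.sum_le_sum h1).trans (le_of_eq ?_)
  rw [← Finset.mul_sum, Finset.sum_sub_distrib, clp_sum n0 (x0.trans hxy) y1,
    clp_sum n0 x0 (hxy.trans y1)]
  ring

/-- values in an interval: the slope is at most `n (V - v₀)` -/
theorem plx_lip' {n : ℕ} (n0 : 0 < n) {v : ℕ → ℝ} {V : ℝ} (h0 : ∀ j ≤ n, 0 ≤ v j)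
    (hV : ∀ j ≤ n, v j ≤ V) {x y : ℝ} (x0 : 0 ≤ x) (x1 : x ≤ 1) (y0 : 0 ≤ y) (y1 : y ≤ 1) :
    plx n v x - n * V * |y - x| ≤ plx n v y := by
  have hW : ∀ j < n, |v (j + 1) - v j| ≤ V := fun j hj => by
    rw [abs_le]
    have a1 := h0 j hj.le
    have a2 := h0 (j + 1) hj
    have a3 := hV j hj.le
    have a4 := hV (j + 1) hj
    constructor <;> linarith
  rcases le_total x y with h | h
  · have := plx_lip n0 hW x0 h y1
    rw [abs_of_nonneg (sub_nonneg.2 h)]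
    have := (abs_le.1 this).1
    linarith
  · have := plx_lip n0 hW y0 h x1
    rw [abs_of_nonpos (sub_nonpos.2 h)]
    have := (abs_le.1 this).2
    linarith

theorem plx_ge {n : ℕ} (n0 : 0 < n) {v : ℕ → ℝ} {B : ℝ} (h : ∀ j ≤ n, B ≤ v j) {x : ℝ}
    (h0 : 0 ≤ x) (h1 : x ≤ 1) : B ≤ plx n v x := by
  obtain ⟨l, hl, c, c0, c1, hc⟩ := cell_ex n0 h0 h1
  rw [plx_cell hl v c0 c1 hc]
  have a1 := mul_le_mul_of_nonneg_left (h l hl.le) (sub_nonneg.2 c1)
  have a2 := mul_le_mul_of_nonneg_left (h (l + 1) hl) c0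
  linarith

/-! ### the times of a cell -/

/-- the quotients of the times -/
theorem quo {τ σ t s c : ℝ} (τ0 : 0 < τ) (t0 : 0 < t) (hσ : σ ∈ Set.Icc 0 τ)
    (ht : τ - c ≤ t) (ht' : t ≤ τ) (hs : σ - 2 * c ≤ s) (hs' : s ≤ σ) (c0 : 0 ≤ c) :
    |s / t - σ / τ| ≤ 2 * c / t := by
  have e1 : s / t ≤ σ / τ + c / t := by
    have h1 : s / t ≤ σ / t := div_le_div_of_nonneg_right hs' t0.le
    have h2 : σ / t = σ / τ + (σ / τ) * (τ - t) / t := by
      field_simp
      ring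
    have h3 : σ / τ ≤ 1 := (div_le_one τ0).2 hσ.2
    have h4 : 0 ≤ σ / τ := div_nonneg hσ.1 τ0.le
    have h5 : (σ / τ) * (τ - t) / t ≤ c / t := by
      refine div_le_div_of_nonneg_right ?_ t0.le
      nlinarith
    linarith
  have e2 : σ / τ - 2 * c / t ≤ s / t := by
    have h1 : σ / τ ≤ σ / t := div_le_div_of_nonneg_left hσ.1 t0 ht'
    have h2 : (σ - 2 * c) / t ≤ s / t := div_le_div_of_nonneg_right hs t0.le
    have h3 : (σ - 2 * c) / t = σ / t - 2 * c / t := by ring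
    linarith
  have e3 : c / t ≤ 2 * c / t := div_le_div_of_nonneg_right (by linarith) t0.le
  rw [abs_le]
  constructor <;> linarith

/-- **the values at the times of a cell away from zero**, with a shift `δ` -/
theorem slk1 {v : ℕ → ℝ} {V : ℝ} (h0 : ∀ j ≤ 10, 0 ≤ v j) (hV : ∀ j ≤ 10, v j ≤ V)
    {τ σ t s c α δ : ℝ} (α0 : 0 < α) (τ1 : τ ≤ 1) (hσ : σ ∈ Set.Icc 0 τ) (ht : τ - c ≤ t)
    (ht' : t ≤ τ) (hα : α ≤ t) (hs0 : s ∈ Set.Icc 0 t) (hs : σ - 2 * c ≤ s) (hs' : s ≤ σ)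
    (c0 : 0 ≤ c) (δ0 : 0 ≤ δ) (δ1 : δ ≤ 1) {e : ℕ} (he : e = 1 ∨ e = 2) :
    (τ + δ) ^ e * plx 10 v (σ / τ) - (4 * V + 80 * V / α) * c
      ≤ (t + δ) ^ e * plx 10 v (s / t) := by
  have t0 : 0 < t := lt_of_lt_of_le α0 hα
  have τ0 : 0 < τ := lt_of_lt_of_le t0 ht'
  have V0 : 0 ≤ V := (h0 0 (by norm_num)).trans (hV 0 (by norm_num))
  have q := quo τ0 t0 hσ ht ht' hs hs' c0
  have x0 : 0 ≤ s / t := div_nonneg hs0.1 t0.le
  have x1 : s / t ≤ 1 := (div_le_one t0).2 hs0.2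
  have y0 : 0 ≤ σ / τ := div_nonneg hσ.1 τ0.le
  have y1 : σ / τ ≤ 1 := (div_le_one τ0).2 hσ.2
  have l := plx_lip' (n := 10) (by norm_num) h0 hV y0 y1 x0 x1
  have p1 : plx 10 v (σ / τ) ≤ V := plx_le (by norm_num) hV y0 y1
  have p0 : 0 ≤ plx 10 v (s / t) := plx_nonneg h0 _
  have p2 : 0 ≤ plx 10 v (σ / τ) := plx_nonneg h0 _
  have e1 : 2 * c / t ≤ 2 * c / α := div_le_div_of_nonneg_left (by linarith) α0 hα
  have k1 : plx 10 v (σ / τ) - 20 * V / α * c ≤ plx 10 v (s / t) := by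
    have e2 : (10 : ℕ) * V * |s / t - σ / τ| ≤ 10 * V * (2 * c / α) := by
      push_cast
      exact mul_le_mul_of_nonneg_left (q.trans e1) (by positivity)
    have e3 : 10 * V * (2 * c / α) = 20 * V / α * c := by ring
    linarith
  have t1 : t ≤ 1 := ht'.trans τ1
  have W0 : 0 ≤ 20 * V / α * c := by positivity
  have e4 : (4 * V + 80 * V / α) * c = 4 * (V * c) + 4 * (20 * V / α * c) := by ring
  have Vc : 0 ≤ V * c := mul_nonneg V0 c0
  have u0 : 0 ≤ t + δ := by linarith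
  have u2 : t + δ ≤ 2 := by linarith
  rw [e4]
  rcases he with he | he
  · rw [he, pow_one, pow_one]
    have a1 : (t + δ) * (plx 10 v (σ / τ) - 20 * V / α * c) ≤ (t + δ) * plx 10 v (s / t) :=
      mul_le_mul_of_nonneg_left k1 u0
    have a2 : (t + δ) * (20 * V / α * c) ≤ 4 * (20 * V / α * c) := by nlinarith
    have a3 : (τ - t) * plx 10 v (σ / τ) ≤ c * V :=
      mul_le_mul (by linarith) p1 p2 c0
    nlinarith
  · rw [he]
    have a1 : (t + δ) ^ 2 * (plx 10 v (σ / τ) - 20 * V / α * c)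
        ≤ (t + δ) ^ 2 * plx 10 v (s / t) := mul_le_mul_of_nonneg_left k1 (by positivity)
    have a2 : (t + δ) ^ 2 * (20 * V / α * c) ≤ 4 * (20 * V / α * c) := by
      have : (t + δ) ^ 2 ≤ 4 := by nlinarith
      exact mul_le_mul_of_nonneg_right this W0
    have a3 : ((τ + δ) ^ 2 - (t + δ) ^ 2) * plx 10 v (σ / τ) ≤ 4 * c * V := by
      have h1 : (τ + δ) ^ 2 - (t + δ) ^ 2 ≤ 4 * c := by
        have h2 : (τ + δ) ^ 2 - (t + δ) ^ 2 = (τ - t) * (τ + t + 2 * δ) := by ring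
        have h3 : τ + t + 2 * δ ≤ 4 := by linarith
        rw [h2]
        nlinarith
      exact mul_le_mul h1 p1 p2 (by linarith)
    nlinarith

end RT

end Pool.Agent.RZ.RCO
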