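import Pool.Agent.RZ.RCO.Cl3
import Pool.Agent.RZ.RCO.Cl6
import Pool.Agent.RZ.RCO.Eg2
import Pool.Agent.RZ.RCO.Eg3

/-! Route P: the bounds of the classes by the table at the times of the class
(MP_73ccd0_lc). -/

namespace Pool.Agent.RZ.RCO

open Set Finset MeasureTheory Pool.Agent.RZ.RCRSHalf Pool.Agent.RZ.RCG Pool.Agent.RZ.RCG.Ct
open Pool.Agent.RZ.RCN Pool.Agent.RZ.RCN.K

set_option linter.unusedSectionVars false

/-- the sizes of the values of the table for the kind `K` and the number of cells: `V` above all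
values, `V0` the slope at zero, `η` the room, `κ` a further error -/
structure Csz (R : RT.Tab) (K : ℕ) (V V0 α η κ : ℝ) : Prop where
  hV : ∀ m < R.M, ∀ j ≤ 10, ∀ k ∈ Icc (0 : ℝ) 1, (R.r K m j).ev k ≤ V
  N0 : 0 < R.N
  hV0 : 0 ≤ V0
  α0 : 0 < α
  hα : ∀ m, 0 < m → m < R.M → α ≤ R.tn m
  hα0 : 2 * α * V0 + κ ≤ η
  hN : 1 / R.N ≤ α
  hη : (4 * V + 80 * V / α) * (1 / R.N) + κ ≤ η

theorem RT.Tab.ex_or (K : ℕ) : RT.Tab.ex K = 1 ∨ RT.Tab.ex K = 2 := by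
  unfold RT.Tab.ex
  split_ifs
  · exact Or.inl rfl
  · exact Or.inr rfl

theorem cb_sub (N i : ℕ) : cb N i - 1 / N = ca N i := by
  unfold cb ca
  ring

theorem cb_pos {N : ℕ} (N0 : 0 < N) (i : ℕ) : 0 < cb N i := by
  have : (0 : ℝ) < N := Nat.cast_pos.2 N0
  unfold cb
  positivity

/-- the times of a class -/
theorem act_mem {N : ℕ} (N0 : 0 < N) {ε : ℝ} (hε : ε ≤ 1 / N) {i j : ℕ} {t s : ℝ} (ht : t ≤ cb N i)
    (hs : s ∈ Icc 0 t) (h : Act MN (sgN N) ε i s j) :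
    s ≤ cb N j ∧ cb N j - 2 * (1 / N) ≤ s := by
  obtain ⟨hj, h1, h2⟩ := h
  constructor
  · rcases lt_or_eq_of_le hj with h3 | h3
    · exact h1 h3
    · rw [h3]
      exact hs.2.trans ht
  · have hN : (0 : ℝ) < N := Nat.cast_pos.2 N0
    cases j with
    | zero =>
      have : cb N 0 = 1 / N := by unfold cb; simp
      have h4 : 0 ≤ 1 / (N : ℝ) := by positivity
      rw [this]
      linarith [hs.1]
    | succ j =>
      have h3 := h2 j (Nat.lt_succ_self j)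
      have h4 : sgN N i j = cb N (j + 1) - 1 / N := by
        show cb N j = _
        unfold cb
        push_cast
        ring
      rw [h4] at h3
      linarith

/-- **the value of the table at the times of a class** -/
theorem EndL.rv {R : RT.Tab} {K m n : ℕ} {cn : ℕ → ℝ} {Bm Bp : ℕ → ℝ → Pt → ℝ}
    {V V0 α η κ : ℝ} {Q : Pt → Prop} (hS : Csz R K V V0 α η κ)
    (h : EndL R K m n cn Bm Bp η V0 Q) (hc : Cn n cn)
    (hm : m < R.M) {i j : ℕ} (hi : i < R.N) (hj : j ≤ i) (hlo : R.tn m ≤ ca R.N i)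
    (hhi : cb R.N i ≤ R.tn (m + 1)) {p : Pt} (hp : Q p) (hk : p.k ∈ Icc (0 : ℝ) 1)
    {ε : ℝ} (hε : ε ≤ 1 / R.N) {t s : ℝ} (ht : t ∈ Icc (ca R.N i) (cb R.N i)) (hs : s ∈ Icc 0 t)
    (hact : Act MN (sgN R.N) ε i s j) {l : ℕ} (hl : l < n)
    (h1 : al cn (R.tn (m + 1)) (R.tn (m + 1) - cb R.N i) l ≤ cb R.N j)
    (h2 : cb R.N j ≤ al cn (R.tn (m + 1)) (R.tn (m + 1) - cb R.N i) (l + 1)) :
    li (al cn (R.tn (m + 1)) (R.tn (m + 1) - cb R.N i) l)
      (al cn (R.tn (m + 1)) (R.tn (m + 1) - cb R.N i) (l + 1))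
      (Bm l (R.tn (m + 1) - cb R.N i) p) (Bp l (R.tn (m + 1) - cb R.N i) p) (cb R.N j) + κ
      ≤ R.val K m t s p.k := by
  have hN : (0 : ℝ) < R.N := Nat.cast_pos.2 hS.N0
  have τ0 := cb_pos hS.N0 i
  have τ1 : cb R.N i ≤ 1 := cb_le_one hi
  have hσ : cb R.N j ∈ Icc 0 (cb R.N i) := ⟨(cb_pos hS.N0 j).le, cb_mono hj⟩
  have hlo' := hlo.trans (ca_le_cb R.N i)
  have key := h.le hc τ0 hlo' hhi hp hσ hl h1 h2
  have hk1 : p.k ≤ 1 := hk.2
  obtain ⟨a1, a2⟩ := act_mem hS.N0 hε ht.2 hs hact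
  have ht1 : cb R.N i - 1 / R.N ≤ t := by rw [cb_sub]; exact ht.1
  have t0 : 0 ≤ t := hs.1.trans hs.2
  have c0 : 0 < 1 / (R.N : ℝ) := by positivity
  have v0 : ∀ j ≤ 10, 0 ≤ (R.r K m j).ev p.k := fun j _ => RT.Cub.ev_nonneg _ hk.1 hk1
  have vV : ∀ j ≤ 10, (R.r K m j).ev p.k ≤ V := fun j hj => hS.hV m hm j hj _ hk
  have d0 : 0 ≤ R.dl m := RT.Tab.dl_nonneg m
  have d1 : R.dl m ≤ 1 := by
    unfold RT.Tab.dl
    split_ifs <;> norm_num
  rw [RT.Tab.val_eq t0]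
  by_cases hα : α ≤ t
  · have := RT.slk1 v0 vV hS.α0 τ1 hσ ht1 ht.2 hα hs a2 a1 c0.le d0 d1 (RT.Tab.ex_or K)
    have := hS.hη
    linarith
  · have m0 : m = 0 := by
      rcases Nat.eq_zero_or_pos m with h0 | h0
      · exact h0
      · exact absurd ((hS.hα m h0 hm).trans (hlo.trans ht.1)) hα
    subst m0
    have τa : cb R.N i ≤ 2 * α := by
      have := hS.hN
      linarith [not_le.1 hα]
    set z := R.tn (0 + 1) - cb R.N i with hz
    have hz' : z ∈ Icc 0 (R.tn (0 + 1) - R.tn 0) := ⟨by linarith, by linarith⟩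
    obtain ⟨B0, b12, b0⟩ := h.z rfl z hz' p hp
    obtain ⟨b1, b2⟩ := b12 l hl
    have ez : R.tn (0 + 1) - z = cb R.N i := by rw [hz]; ring
    rw [ez] at b1 b2
    have b3 := li_le (h.lt z hz' (by linarith) l hl) h1 h2 b1 b2
    have b4 : cb R.N i * V0 + κ ≤ η := by
      have b5 := mul_le_mul_of_nonneg_right τa hS.hV0
      have b6 := hS.hα0
      linarith
    refine (add_le_add b3 le_rfl).trans ?_
    have e : R.dl 0 = 1 / 50 := by unfold RT.Tab.dl; rw [if_pos rfl]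
    have x0 : 0 ≤ s / t := div_nonneg hs.1 t0
    have x1 : s / t ≤ 1 := div_le_one_of_le₀ hs.2 t0
    have g1 : B0 + η ≤ RT.plx 10 (fun j => (1 / 50) ^ RT.Tab.ex K * (R.r K 0 j).ev p.k) (s / t) :=
      RT.plx_ge (by norm_num) b0 x0 x1
    rw [RT.plx_smul] at g1
    have g2 : (1 / 50 : ℝ) ^ RT.Tab.ex K ≤ (t + R.dl 0) ^ RT.Tab.ex K := by
      rw [e]
      exact pow_le_pow_left₀ (by norm_num) (by linarith) _
    have g3 := mul_le_mul_of_nonneg_right g2 (RT.plx_nonneg v0 (s / t))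
    linarith

end Pool.Agent.RZ.RCO
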