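import Pool.Agent.RZ.RCO.Ed5
import Pool.Agent.RZ.RCO.Eg4

/-! Route P: the data of one kind in one big cell; the sizes for a large number of cells
(MP_73ccd0_lc). -/

set_option autoImplicit false
set_option linter.unusedSectionVars false

namespace Pool.Agent.RZ.RCO

open Set Finset

/-- **the data of one kind in one big cell**: exponent, pair or star, integers of the ends, the
sides of the ends, the rows of the table -/
structure Ekd where
  e : Bool
  st : Bool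
  M : ℕ → E4
  P : ℕ → E4
  Sm : ℕ → Sd
  Sp : ℕ → Sd
  r : ℕ → RT.Cub

namespace Ekd

variable (x : Ekd) (q : Ec0)

/-- the sides -/
noncomputable def ckS : Bool := (List.range q.n).all fun l =>
  (x.Sm l).ck x.st q.W (x.M l) && (x.Sp l).ck x.st q.W (x.P l)

/-- the lines of the table -/
def ckT : Bool := ckA q x.e (kst x.st) x.M x.P x.r && ckB q x.e (kst x.st) x.M x.P x.r

variable {x q} {R : RT.Tab} {K m : ℕ} {V0 : ℝ}

/-- **the lines of the ends from the checks of the data** -/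
theorem endL (hq : q.Ok) (hr : q.Rel R m) (hS : x.ckS q = true) (hT : x.ckT q = true)
    (hms : ∀ l < q.n, (∀ y ∈ (x.Sm l).L, Msh y.t y.n) ∧ ∀ y ∈ (x.Sp l).L, Msh y.t y.n)
    (hex : RT.Tab.ex K = ex2 x.e) (hR : ∀ j ≤ 10, R.r K m j = x.r j)
    (hZ : m = 0 → ckZ q x.e (kst x.st) x.M x.P x.r = true ∧ q.W = q.T ∧
      ((∑ l ∈ Finset.range q.n, ((x.M l).sz + (x.P l).sz)) / (q.T / 2 ^ 24)) ≤ V0) :
    EndL R K m q.n (q.cn R m) (fun l z p => (x.Sm l).val q.W (q.cz R m z) p)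
      (fun l z p => (x.Sp l).val q.W (q.cz R m z) p) (1 / 2 ^ 32) V0 (Fps x.st) := by
  unfold ckS at hS
  unfold ckT at hT
  simp only [Bool.and_eq_true, List.all_eq_true, List.mem_range] at hS hT
  exact RCO.endL hq hr hT.1 hT.2 hex hR (kst0 x.st) (fun p hp => hp.fu.f.k0)
    (fun p hp => hp.fu.f.k5) (fun p hp => hp.k)
    (fun z hz p hp l hl => Sd.ck_ok (hS l hl).1 (hms l hl).1 (Ec0.cz0 hq hr hz)
      (Ec0.cz1 hq hr hz) hp)
    (fun z hz p hp l hl => Sd.ck_ok (hS l hl).2 (hms l hl).2 (Ec0.cz0 hq hr hz)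
      (Ec0.cz1 hq hr hz) hp) hZ

end Ekd

/-! ### the sizes -/

/-- the sum of the Bernstein coefficients -/
noncomputable def csz (r : RT.Cub) : ℝ := (r.1 + r.2.1 + r.2.2.1 + r.2.2.2 : ℝ)

theorem csz_nonneg (r : RT.Cub) : 0 ≤ csz r := by unfold csz; positivity

theorem ev_le_csz (r : RT.Cub) {k : ℝ} (k0 : 0 ≤ k) (k1 : k ≤ 1) : r.ev k ≤ csz r := by
  have h := sub_nonneg.2 k1
  have e1 : (1 - k) ^ 3 ≤ 1 := pow_le_one₀ h (by linarith)
  have e2 : 3 * (k * (1 - k) ^ 2) ≤ 3 := by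
    have : k * (1 - k) ^ 2 ≤ 1 := mul_le_one₀ k1 (sq_nonneg _) (pow_le_one₀ h (by linarith))
    linarith
  have e3 : 3 * (k ^ 2 * (1 - k)) ≤ 3 := by
    have : k ^ 2 * (1 - k) ≤ 1 := mul_le_one₀ (pow_le_one₀ k0 k1) h (by linarith)
    linarith
  have e4 : k ^ 3 ≤ 1 := pow_le_one₀ k0 k1
  have D : (3 : ℝ) ≤ RT.RD := by unfold RT.RD; norm_num
  have D0 : (0 : ℝ) < RT.RD := by linarith
  have a : ∀ (n : ℕ) (y : ℝ), y ≤ 3 → (n : ℝ) / RT.RD * y ≤ n := fun n y hy => by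
    rw [div_mul_eq_mul_div, div_le_iff₀ D0]
    exact mul_le_mul_of_nonneg_left (hy.trans D) (Nat.cast_nonneg n)
  have b1 := a r.1 _ (e1.trans (by norm_num : (1 : ℝ) ≤ 3))
  have b2 := a r.2.1 _ e2
  have b3 := a r.2.2.1 _ e3
  have b4 := a r.2.2.2 _ (e4.trans (by norm_num : (1 : ℝ) ≤ 3))
  unfold RT.Cub.ev RT.cubR csz
  linarith

/-- **the sizes for all large numbers of cells** -/
theorem csz_ex {M : ℕ} {T : ℕ → ℕ} {r : ℕ → ℕ → ℕ → RT.Cub} {V0 κ η : ℝ} (hV0 : 0 ≤ V0)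
    (hκ : κ < η) (hT : ∀ m < M, 0 < m → 0 < T m) (Kn : ℕ) :
    ∃ V α : ℝ, ∃ N0 : ℕ, ∀ R : RT.Tab, R.M = M → R.T = T → R.r = r → N0 ≤ R.N →
      ∀ K < Kn, Csz R K V V0 α η κ := by
  classical
  set V : ℝ := ∑ K ∈ Finset.range Kn, ∑ m ∈ Finset.range M, ∑ j ∈ Finset.range 11,
    csz (r K m j) with hV
  have V00 : 0 ≤ V := Finset.sum_nonneg fun _ _ => Finset.sum_nonneg fun _ _ =>
    Finset.sum_nonneg fun _ _ => csz_nonneg _
  have δ0 : 0 < η - κ := sub_pos.2 hκ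
  set α : ℝ := min (1 / 1000) ((η - κ) / (2 * V0 + 1)) with hα
  have α0 : 0 < α := lt_min (by norm_num) (by positivity)
  set C : ℝ := 4 * V + 80 * V / α with hC
  have C0 : 0 ≤ C := by positivity
  obtain ⟨N0, hN0⟩ := exists_nat_gt (max (1 / α) (max 1 (C / (η - κ))))
  refine ⟨V, α, N0, fun R hM hT' hr hN K hK => ?_⟩
  have Nr : (N0 : ℝ) ≤ R.N := by exact_mod_cast hN
  have n1 : 1 / α < R.N := (le_max_left _ _).trans_lt (hN0.trans_le Nr)
  have n2 : (1 : ℝ) < R.N := ((le_max_left _ _).trans (le_max_right _ _)).trans_lt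
    (hN0.trans_le Nr)
  have n3 : C / (η - κ) < R.N := ((le_max_right _ _).trans (le_max_right _ _)).trans_lt
    (hN0.trans_le Nr)
  have N1 : (0 : ℝ) < R.N := by linarith
  refine ⟨fun m hm j hj k hk => ?_, by exact_mod_cast N1, hV0, α0, fun m m0 hm => ?_, ?_, ?_,
    ?_⟩
  · refine (ev_le_csz _ hk.1 hk.2).trans ?_
    rw [hr]
    rw [hM] at hm
    have a1 : csz (r K m j) ≤ ∑ j ∈ Finset.range 11, csz (r K m j) :=
      Finset.single_le_sum (f := fun j => csz (r K m j)) (fun _ _ => csz_nonneg _)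
        (Finset.mem_range.2 (by omega))
    have a2 : ∑ j ∈ Finset.range 11, csz (r K m j)
        ≤ ∑ m ∈ Finset.range M, ∑ j ∈ Finset.range 11, csz (r K m j) :=
      Finset.single_le_sum (f := fun m => ∑ j ∈ Finset.range 11, csz (r K m j))
        (fun _ _ => Finset.sum_nonneg fun _ _ => csz_nonneg _) (Finset.mem_range.2 hm)
    have a3 : ∑ m ∈ Finset.range M, ∑ j ∈ Finset.range 11, csz (r K m j) ≤ V :=
      Finset.single_le_sum (f := fun K => ∑ m ∈ Finset.range M, ∑ j ∈ Finset.range 11,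
        csz (r K m j)) (fun _ _ => Finset.sum_nonneg fun _ _ =>
          Finset.sum_nonneg fun _ _ => csz_nonneg _) (Finset.mem_range.2 hK)
    exact a1.trans (a2.trans a3)
  · refine (min_le_left _ _).trans ?_
    unfold RT.Tab.tn
    rw [hT']
    have h1 : 1 ≤ T m := hT m (hM ▸ hm) m0
    have h2 : (1 : ℝ) ≤ T m := by exact_mod_cast h1
    exact div_le_div_of_nonneg_right h2 (by norm_num)
  · have h1 : α * (2 * V0 + 1) ≤ η - κ := by
      have := mul_le_mul_of_nonneg_right (min_le_right (1 / 1000) ((η - κ) / (2 * V0 + 1)))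
        (by positivity : 0 ≤ 2 * V0 + 1)
      rwa [div_mul_cancel₀ _ (by positivity : 2 * V0 + 1 ≠ 0)] at this
    linarith
  · rw [div_le_iff₀ N1]
    rw [div_lt_iff₀ α0] at n1
    linarith
  · rw [div_lt_iff₀ δ0] at n3
    have : C * (1 / R.N) ≤ η - κ := by
      rw [mul_one_div, div_le_iff₀ N1]
      linarith
    linarith

end Pool.Agent.RZ.RCO
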