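import Pool.Agent.RZ.RCO.Ed5

/-! Route P: the sides of the columns or rows of one big cell (MP_73ccd0_lc). -/

set_option autoImplicit false
set_option linter.unusedSectionVars false

namespace Pool.Agent.RZ.RCO

open Set Finset

/-- **the data of the columns or of the rows of one big cell**: rows of level 1/2 `G0`, the lower
sums `N` of the first system, for the left (`m`) and right (`p`) end of the coarse cell `l` the sums
of level 2 and the lower sums of the second system, killed `K`, `N2` and released `KF`, `N3`; the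
chords `lo`, `hi` of the upper parts at the release time, the direct parts `J` at the coarse nodes,
the rates `H`, the tangents `tg l 0, .., tg l 7` of the four sides -/
structure Ehf where
  G0 : Fm
  N : Fm
  Km : ℕ → Fm
  Kp : ℕ → Fm
  N2m : ℕ → Fm
  N2p : ℕ → Fm
  KFm : ℕ → Fm
  KFp : ℕ → Fm
  N3m : ℕ → Fm
  N3p : ℕ → Fm
  lo : ℕ → ℕ → ℤ
  hi : ℕ → ℕ → ℤ
  lo1 : ℕ → ℤ
  J0 : ℕ → ℤ
  J1 : ℕ → ℤ
  F0 : ℕ → ℤ
  F1 : ℕ → ℤ
  Hm0 : ℕ → ℤ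
  Hm1 : ℕ → ℤ
  Hp : ℕ → ℤ
  tg : ℕ → ℕ → ℤ

namespace Ehf

variable (x : Ehf)

/-- the sides of the deleted kind -/
def Lm (l : ℕ) : Sd := ⟨[x.Km l, x.G0, x.N, x.N2m l], v6 (x.J0 l) 0 0 0 0 0,
  v6 (x.J1 l) 0 0 0 0 0, x.tg l 0, x.tg l 1⟩
def Lp (l : ℕ) : Sd := ⟨[x.Kp l, x.G0, x.N, x.N2p l], v6 (x.J0 (l + 1)) 0 0 0 0 0,
  v6 (x.J1 (l + 1)) 0 0 0 0 0, x.tg l 2, x.tg l 3⟩

/-- the sides of the released kind -/
def Rm (l : ℕ) : Sd := ⟨[x.KFm l, x.G0, x.N, x.N3m l],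
  fun i => x.lo l i + v6 (x.F0 l + x.Hm0 l) 0 0 0 0 0 i,
  fun i => (if l = 0 then x.lo1 i else x.lo l i) + v6 (x.F1 l + x.Hm1 l) 0 0 0 0 0 i,
  x.tg l 4, x.tg l 5⟩
def Rp (l : ℕ) : Sd := ⟨[x.KFp l, x.G0, x.N, x.N3p l],
  fun i => x.hi l i + v6 (x.F0 (l + 1) + x.Hp l) 0 0 0 0 0 i,
  fun i => x.hi l i + v6 (x.F1 (l + 1) + x.Hp l) 0 0 0 0 0 i,
  x.tg l 6, x.tg l 7⟩

variable {x}

/-- a multiple of the mass -/
theorem ff_m {p : Pt} (hp : Fu p) (J : ℤ) :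
    FF26 (fun i => (v6 J 0 0 0 0 0 i : ℝ) / 2 ^ 24) p = (1 - p.k) * (J / 2 ^ 24) := by
  have hz : Fz fun i => (v6 J 0 0 0 0 0 i : ℝ) / 2 ^ 24 := fun i _ hi => by
    simp only [List.mem_cons, List.not_mem_nil, or_false, not_or] at hi
    obtain ⟨h0, h1, h2, h4, h9, h15⟩ := hi
    have : v6 J 0 0 0 0 0 i = 0 := by
      unfold v6
      split <;> first | rfl | (exfalso; omega)
    show (v6 J 0 0 0 0 0 i : ℝ) / 2 ^ 24 = 0
    rw [this]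
    norm_num
  rw [hz.eq, hp.f.m]
  unfold v6
  norm_num
  ring

theorem xf_m {p : Pt} (hp : Fu p) {L : List Fm} {u w : ℤ} (J0 J1 : ℤ) (c : ℝ) :
    FF26 (Sd.xf ⟨L, v6 J0 0 0 0 0 0, v6 J1 0 0 0 0 0, u, w⟩ c) p
      = (1 - p.k) * (((1 - c) * J0 + c * J1) / 2 ^ 24) := by
  have e : Sd.xf ⟨L, v6 J0 0 0 0 0 0, v6 J1 0 0 0 0 0, u, w⟩ c = fun i =>
      (1 - c) * ((v6 J0 0 0 0 0 0 i : ℝ) / 2 ^ 24) + c * ((v6 J1 0 0 0 0 0 i : ℝ) / 2 ^ 24) := rfl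
  rw [e, ff_add, ff_smul, ff_smul, ff_m hp, ff_m hp]
  ring

/-- the sides of the deleted kind at the coarse cell `l`, interpolated -/
theorem L_li {W : ℤ} {c : ℝ} {p : Pt} (hp : Fu p) {l : ℕ} {a b σ : ℝ} :
    li a b ((x.Km l).fn (c * (W / 2 ^ 24)) p) ((x.Kp l).fn (c * (W / 2 ^ 24)) p) σ
      + x.G0.fn (c * (W / 2 ^ 24)) p + x.N.fn (c * (W / 2 ^ 24)) p
      + li a b ((x.N2m l).fn (c * (W / 2 ^ 24)) p)
        ((x.N2p l).fn (c * (W / 2 ^ 24)) p) σ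
      + (1 - p.k) * li a b (((1 - c) * x.J0 l + c * x.J1 l) / 2 ^ 24)
        (((1 - c) * x.J0 (l + 1) + c * x.J1 (l + 1)) / 2 ^ 24) σ
      = li a b ((x.Lm l).val W c p) ((x.Lp l).val W c p) σ := by
  unfold Lm Lp Sd.val
  rw [xf_m hp, xf_m hp]
  simp only [List.map_cons, List.map_nil, List.sum_cons, List.sum_nil]
  unfold li
  ring

theorem xf_mm {p : Pt} (hp : Fu p) {L : List Fm} {y w : ℤ} (u v : ℕ → ℤ) (J0 J1 : ℤ) (c : ℝ) :
    FF26 (Sd.xf ⟨L, fun i => u i + v6 J0 0 0 0 0 0 i, fun i => v i + v6 J1 0 0 0 0 0 i, y, w⟩ c) p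
      = FF26 (fun i => (1 - c) * ((u i : ℝ) / 2 ^ 24) + c * ((v i : ℝ) / 2 ^ 24)) p
        + (1 - p.k) * (((1 - c) * J0 + c * J1) / 2 ^ 24) := by
  have e : Sd.xf ⟨L, fun i => u i + v6 J0 0 0 0 0 0 i, fun i => v i + v6 J1 0 0 0 0 0 i, y, w⟩ c
      = fun i => ((1 - c) * ((u i : ℝ) / 2 ^ 24) + c * ((v i : ℝ) / 2 ^ 24))
        + ((1 - c) * ((v6 J0 0 0 0 0 0 i : ℝ) / 2 ^ 24)
          + c * ((v6 J1 0 0 0 0 0 i : ℝ) / 2 ^ 24)) := by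
    funext i
    unfold Sd.xf
    push_cast
    ring
  rw [e, ff_add, ff_add (fun i => (1 - c) * ((v6 J0 0 0 0 0 0 i : ℝ) / 2 ^ 24)), ff_smul,
    ff_smul, ff_m hp, ff_m hp]
  ring

/-- the left values of the chord -/
noncomputable def lof (x : Ehf) (c : ℝ) (l i : ℕ) : ℝ :=
  if l = 0 then (1 - c) * (x.lo 0 i / 2 ^ 24) + c * (x.lo1 i / 2 ^ 24) else x.lo l i / 2 ^ 24

/-- the right values of the chord -/
noncomputable def hif (x : Ehf) (l i : ℕ) : ℝ := x.hi l i / 2 ^ 24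

/-- the sides of the released kind at the coarse cell `l`, interpolated -/
theorem R_li {W : ℤ} {c : ℝ} {p : Pt} (hp : Fu p) {l : ℕ} {a b σ : ℝ} :
    (1 - p.k) * li a b (((1 - c) * x.Hm0 l + c * x.Hm1 l) / 2 ^ 24) (x.Hp l / 2 ^ 24) σ
      + li a b (FF26 (x.lof c l) p) (FF26 (x.hif l) p) σ
      + li a b ((x.KFm l).fn (c * (W / 2 ^ 24)) p)
        ((x.KFp l).fn (c * (W / 2 ^ 24)) p) σ
      + x.G0.fn (c * (W / 2 ^ 24)) p + x.N.fn (c * (W / 2 ^ 24)) p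
      + li a b ((x.N3m l).fn (c * (W / 2 ^ 24)) p)
        ((x.N3p l).fn (c * (W / 2 ^ 24)) p) σ
      + (1 - p.k) * li a b (((1 - c) * x.F0 l + c * x.F1 l) / 2 ^ 24)
        (((1 - c) * x.F0 (l + 1) + c * x.F1 (l + 1)) / 2 ^ 24) σ
      = li a b ((x.Rm l).val W c p) ((x.Rp l).val W c p) σ := by
  have e1 : FF26 (fun i => (1 - c) * ((x.lo l i : ℝ) / 2 ^ 24)
      + c * (((if l = 0 then x.lo1 i else x.lo l i : ℤ) : ℝ) / 2 ^ 24)) p
      = FF26 (x.lof c l) p := by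
    congr 1
    funext i
    unfold lof
    split_ifs with h
    · rw [h]
    · ring
  have e2 : FF26 (fun i => (1 - c) * ((x.hi l i : ℝ) / 2 ^ 24) + c * ((x.hi l i : ℝ) / 2 ^ 24)) p
      = FF26 (x.hif l) p := by
    congr 1
    funext i
    unfold hif
    ring
  unfold Rm Rp Sd.val
  rw [xf_mm hp, xf_mm hp, e1, e2]
  simp only [List.map_cons, List.map_nil, List.sum_cons, List.sum_nil]
  push_cast
  unfold li
  ring

end Ehf

end Pool.Agent.RZ.RCO
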