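import Pool.Agent.RZ.RCO.Ed5
import Pool.Agent.RZ.RCO.Eg4

/-! Route P: the place of a class and the table at its times (MP_73ccd0_lc). -/

set_option autoImplicit false
set_option linter.unusedSectionVars false

namespace Pool.Agent.RZ.RCO

open Set Finset MeasureTheory Pool.Agent.RZ.RCRSHalf Pool.Agent.RZ.RCG Pool.Agent.RZ.RCG.Ct
open Pool.Agent.RZ.RCN Pool.Agent.RZ.RCN.K

section place

variable {R : RT.Tab} {m : ℕ} {q : Ec0} {mi : ℕ → ℕ} {ε : ℝ} {i j l : ℕ}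

/-- the shift of the cell `i` -/
noncomputable def zs (R : RT.Tab) (m i : ℕ) : ℝ := R.tn (m + 1) - cb R.N i

theorem zs_mem (hlo : R.tn m ≤ ca R.N i) (hhi : cb R.N i ≤ R.tn (m + 1)) :
    zs R m i ∈ Icc 0 (R.tn (m + 1) - R.tn m) := by
  have := hlo.trans (ca_le_cb R.N i)
  exact ⟨by unfold zs; linarith, by unfold zs; linarith⟩

/-- the place in the coordinates of the integers -/
theorem Plc.nd (h : Plc R m q.n (q.cn R m) ε i j l) (hq : q.Ok) (hr : q.Rel R m) (N0 : 0 < R.N) :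
    q.nd l (q.cz R m (zs R m i)) ≤ cb R.N j ∧ cb R.N j ≤ q.nd (l + 1) (q.cz R m (zs R m i)) ∧
      q.nd l (q.cz R m (zs R m i)) < q.nd (l + 1) (q.cz R m (zs R m i)) := by
  have hz := zs_mem h.lo h.hi'
  have h1 := h.h1
  have h2 := h.h2
  rw [show R.tn (m + 1) - cb R.N i = zs R m i from rfl, Ec0.al_cz hq hr hz h.hl.le] at h1
  rw [show R.tn (m + 1) - cb R.N i = zs R m i from rfl, Ec0.al_cz hq hr hz h.hl] at h2
  refine ⟨h1, h2, Ec0.nd_lt hq hr hz ?_ h.hl⟩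
  unfold zs
  have := cb_pos N0 i
  linarith

/-- **the table is above a function with the bounds of the sides** -/
theorem kind_le {K : ℕ} {V V0 α κ : ℝ} {Q : Pt → Prop} {Sm Sp : ℕ → Sd} (hq : q.Ok) (hr : q.Rel R m)
    (hS : Csz R K V V0 α (1 / 2 ^ 32) κ)
    (hE : EndL R K m q.n (q.cn R m) (fun l z p => (Sm l).val q.W (q.cz R m z) p)
      (fun l z p => (Sp l).val q.W (q.cz R m z) p) (1 / 2 ^ 32) V0 Q)
    (hp : Plc R m q.n (q.cn R m) ε i j l) {t s : ℝ} (ht : t ∈ Icc (ca R.N i) (cb R.N i))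
    (hs : s ∈ Icc 0 t) (hact : Act MN (sgN R.N) ε i s j) {f : Pt → ℝ} {p : Pt} (hu : Fu p)
    (hQ : Q p)
    (hf : f p ≤ li (q.nd l (q.cz R m (zs R m i))) (q.nd (l + 1) (q.cz R m (zs R m i)))
      ((Sm l).val q.W (q.cz R m (zs R m i)) p) ((Sp l).val q.W (q.cz R m (zs R m i)) p)
      (cb R.N j) + κ) : f p ≤ R.val K m t s p.k := by
  have key := hE.rv hS hp.hc hp.hm hp.hi hp.hj hp.lo hp.hi' hQ hu.k01 hp.hε ht hs hact
    hp.hl hp.h1 hp.h2
  have hz := zs_mem hp.lo hp.hi'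
  rw [show R.tn (m + 1) - cb R.N i = zs R m i from rfl, Ec0.al_cz hq hr hz hp.hl.le,
    Ec0.al_cz hq hr hz hp.hl] at key
  exact hf.trans key

end place

end Pool.Agent.RZ.RCO
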