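import Pool.Agent.RZ.RCO.Ed8

/-! Route P: the four sums of a class below the interpolated sides (MP_73ccd0_lc). -/

set_option autoImplicit false
set_option linter.unusedSectionVars false

namespace Pool.Agent.RZ.RCO

open Set Finset

/-- the bounds of the parts of the deleted sum at the point `p` -/
structure LIn (x : Ehf) (W : ℤ) (c : ℝ) (l : ℕ) (a b σ : ℝ) (K G0 N N2 dd : Pt → ℝ) : Prop where
  K : ∀ p, Fu p → K p ≤ li a b ((x.Km l).fn (c * (W / 2 ^ 24)) p)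
    ((x.Kp l).fn (c * (W / 2 ^ 24)) p) σ
  G0 : ∀ p, Fu p → G0 p ≤ x.G0.fn (c * (W / 2 ^ 24)) p
  N : ∀ p, Fu p → N p ≤ x.N.fn (c * (W / 2 ^ 24)) p
  N2 : ∀ p, Fu p → N2 p ≤ li a b ((x.N2m l).fn (c * (W / 2 ^ 24)) p)
    ((x.N2p l).fn (c * (W / 2 ^ 24)) p) σ
  dd : ∀ p, Fu p → dd p ≤ (1 - p.k) * li a b (((1 - c) * x.J0 l + c * x.J1 l) / 2 ^ 24)
    (((1 - c) * x.J0 (l + 1) + c * x.J1 (l + 1)) / 2 ^ 24) σ

theorem LIn.le {x : Ehf} {W : ℤ} {c : ℝ} {l : ℕ} {a b σ : ℝ} {K G0 N N2 dd : Pt → ℝ}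
    (h : LIn x W c l a b σ K G0 N N2 dd) {p : Pt} (hp : Fu p) :
    K p + G0 p + N p + N2 p + dd p ≤ li a b ((x.Lm l).val W c p) ((x.Lp l).val W c p) σ := by
  rw [← Ehf.L_li hp]
  have h1 := h.K p hp
  have h2 := h.G0 p hp
  have h3 := h.N p hp
  have h4 := h.N2 p hp
  have h5 := h.dd p hp
  linarith

/-- the bounds of the parts of the released sum at the point `p`, up to the error `κ` -/
structure RIn (x : Ehf) (W : ℤ) (c : ℝ) (l : ℕ) (a b σ κ : ℝ) (H P K G0 N Gr N3 df : Pt → ℝ) :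
    Prop where
  K : ∀ p, Fu p → K p ≤ li a b ((x.KFm l).fn (c * (W / 2 ^ 24)) p)
    ((x.KFp l).fn (c * (W / 2 ^ 24)) p) σ
  G0 : ∀ p, Fu p → G0 p ≤ x.G0.fn (c * (W / 2 ^ 24)) p
  N : ∀ p, Fu p → N p ≤ x.N.fn (c * (W / 2 ^ 24)) p
  N3 : ∀ p, Fu p → N3 p ≤ li a b ((x.N3m l).fn (c * (W / 2 ^ 24)) p)
    ((x.N3p l).fn (c * (W / 2 ^ 24)) p) σ
  df : ∀ p, Fu p → df p ≤ (1 - p.k) * li a b (((1 - c) * x.F0 l + c * x.F1 l) / 2 ^ 24)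
    (((1 - c) * x.F0 (l + 1) + c * x.F1 (l + 1)) / 2 ^ 24) σ
  PG : ∀ p, Fu p → P p + Gr p ≤ li a b (FF26 (x.lof c l) p) (FF26 (x.hif l) p) σ + κ / 2
  H : ∀ p, Fu p → H p ≤ (1 - p.k) * li a b (((1 - c) * x.Hm0 l + c * x.Hm1 l) / 2 ^ 24)
    (x.Hp l / 2 ^ 24) σ + κ / 2

theorem RIn.le {x : Ehf} {W : ℤ} {c : ℝ} {l : ℕ} {a b σ κ : ℝ} {H P K G0 N Gr N3 df : Pt → ℝ}
    (h : RIn x W c l a b σ κ H P K G0 N Gr N3 df) {p : Pt} (hp : Fu p) :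
    H p + P p + K p + G0 p + N p + Gr p + N3 p + df p
      ≤ li a b ((x.Rm l).val W c p) ((x.Rp l).val W c p) σ + κ := by
  rw [← Ehf.R_li hp]
  have h1 := h.K p hp
  have h2 := h.G0 p hp
  have h3 := h.N p hp
  have h4 := h.N3 p hp
  have h5 := h.df p hp
  have h6 := h.PG p hp
  have h7 := h.H p hp
  linarith

end Pool.Agent.RZ.RCO
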