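import Pool.Agent.RZ.RCO.Ed6
import Pool.Agent.RZ.RCO.Ed7
import Pool.Agent.RZ.RCO.Ed8

/-! Route P: the columns or rows of one big cell with all checks (MP_73ccd0_lc). -/

set_option autoImplicit false
set_option linter.unusedSectionVars false

namespace Pool.Agent.RZ.RCO

open Set Finset

/-- **the columns or the rows of one big cell**: the forms and integers, the chords, the integers of
the deleted and of the released kind -/
structure Ehk where
  x : Ehf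
  cd : Cd
  ML : ℕ → E4
  PL : ℕ → E4
  MF : ℕ → E4
  PF : ℕ → E4

namespace Ehk

variable (h : Ehk)

/-- the deleted kind -/
def L (st : Bool) (r : ℕ → RT.Cub) : Ekd := ⟨true, st, h.ML, h.PL, h.x.Lm, h.x.Lp, r⟩

/-- the released kind -/
def F (st : Bool) (r : ℕ → RT.Cub) : Ekd := ⟨false, st, h.MF, h.PF, h.x.Rm, h.x.Rp, r⟩

/-- all forms -/
def fms (n : ℕ) : List Fm :=
  h.x.G0 :: h.x.N :: h.cd.P :: h.cd.G :: (List.range n).flatMap fun l =>
    [h.x.Km l, h.x.Kp l, h.x.N2m l, h.x.N2p l, h.x.KFm l, h.x.KFp l, h.x.N3m l, h.x.N3p l]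

/-- **the checks** -/
structure Ok (h : Ehk) (q : Ec0) (st : Bool) (rL rF : ℕ → RT.Cub) : Prop where
  qo : q.ok = true
  cd : h.cd.ck q = true
  lo : h.x.lo = h.cd.lo
  hi : h.x.hi = h.cd.hi
  lo1 : h.x.lo1 = h.cd.lo1
  LS : (h.L st rL).ckS q = true
  LT : (h.L st rL).ckT q = true
  FS : (h.F st rF).ckS q = true
  FT : (h.F st rF).ckT q = true

variable {h} {q : Ec0} {st : Bool} {rL rF : ℕ → RT.Cub} {R : RT.Tab} {m : ℕ}

/-- the forms of the sides are forms of the record -/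
theorem mem_fms {n l : ℕ} (hl : l < n) {y : Fm} (hy : y ∈ [h.x.Km l, h.x.Kp l, h.x.N2m l, h.x.N2p l,
    h.x.KFm l, h.x.KFp l, h.x.N3m l, h.x.N3p l]) : y ∈ h.fms n := by
  unfold fms
  refine List.mem_cons_of_mem _ (List.mem_cons_of_mem _ (List.mem_cons_of_mem _
    (List.mem_cons_of_mem _ ?_)))
  exact List.mem_flatMap.2 ⟨l, List.mem_range.2 hl, hy⟩

theorem msh_L (hm : ∀ y ∈ h.fms q.n, Msh y.t y.n) {l : ℕ} (hl : l < q.n) :
    (∀ y ∈ (h.x.Lm l).L, Msh y.t y.n) ∧ ∀ y ∈ (h.x.Lp l).L, Msh y.t y.n := by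
  have g0 : Msh h.x.G0.t h.x.G0.n := hm _ (by simp [fms])
  have n0 : Msh h.x.N.t h.x.N.n := hm _ (by simp [fms])
  constructor
  · intro y hy
    unfold Ehf.Lm at hy
    simp only [List.mem_cons, List.not_mem_nil, or_false] at hy
    rcases hy with rfl | rfl | rfl | rfl
    · exact hm _ (mem_fms hl (by simp))
    · exact g0
    · exact n0
    · exact hm _ (mem_fms hl (by simp))
  · intro y hy
    unfold Ehf.Lp at hy
    simp only [List.mem_cons, List.not_mem_nil, or_false] at hy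
    rcases hy with rfl | rfl | rfl | rfl
    · exact hm _ (mem_fms hl (by simp))
    · exact g0
    · exact n0
    · exact hm _ (mem_fms hl (by simp))

theorem msh_F (hm : ∀ y ∈ h.fms q.n, Msh y.t y.n) {l : ℕ} (hl : l < q.n) :
    (∀ y ∈ (h.x.Rm l).L, Msh y.t y.n) ∧ ∀ y ∈ (h.x.Rp l).L, Msh y.t y.n := by
  have g0 : Msh h.x.G0.t h.x.G0.n := hm _ (by simp [fms])
  have n0 : Msh h.x.N.t h.x.N.n := hm _ (by simp [fms])
  constructor
  · intro y hy
    unfold Ehf.Rm at hy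
    simp only [List.mem_cons, List.not_mem_nil, or_false] at hy
    rcases hy with rfl | rfl | rfl | rfl
    · exact hm _ (mem_fms hl (by simp))
    · exact g0
    · exact n0
    · exact hm _ (mem_fms hl (by simp))
  · intro y hy
    unfold Ehf.Rp at hy
    simp only [List.mem_cons, List.not_mem_nil, or_false] at hy
    rcases hy with rfl | rfl | rfl | rfl
    · exact hm _ (mem_fms hl (by simp))
    · exact g0
    · exact n0
    · exact hm _ (mem_fms hl (by simp))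

/-- the first big cell: further checks -/
structure Z0 (h : Ehk) (q : Ec0) (st : Bool) (rL rF : ℕ → RT.Cub) (V0 : ℝ) : Prop where
  L : ckZ q true (kst st) h.ML h.PL rL = true
  F : ckZ q false (kst st) h.MF h.PF rF = true
  W : q.W = q.T
  VL : (∑ l ∈ Finset.range q.n, ((h.ML l).sz + (h.PL l).sz)) / (q.T / 2 ^ 24) ≤ V0
  VF : (∑ l ∈ Finset.range q.n, ((h.MF l).sz + (h.PF l).sz)) / (q.T / 2 ^ 24) ≤ V0

/-- **the lines of the deleted kind** -/
theorem Ok.endL (ho : h.Ok q st rL rF) (hr : q.Rel R m) (hm : ∀ y ∈ h.fms q.n, Msh y.t y.n)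
    {K : ℕ} {V0 : ℝ} (hex : RT.Tab.ex K = 2) (hR : ∀ j ≤ 10, R.r K m j = rL j)
    (hZ : m = 0 → h.Z0 q st rL rF V0) :
    EndL R K m q.n (q.cn R m) (fun l z p => (h.x.Lm l).val q.W (q.cz R m z) p)
      (fun l z p => (h.x.Lp l).val q.W (q.cz R m z) p) (1 / 2 ^ 32) V0 (Fps st) :=
  Ekd.endL (x := h.L st rL) (Ec0.ok_of ho.qo) hr ho.LS ho.LT (fun _ hl => msh_L hm hl)
    hex hR fun h0 => ⟨(hZ h0).L, (hZ h0).W, (hZ h0).VL⟩

/-- **the lines of the released kind** -/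
theorem Ok.endF (ho : h.Ok q st rL rF) (hr : q.Rel R m) (hm : ∀ y ∈ h.fms q.n, Msh y.t y.n)
    {K : ℕ} {V0 : ℝ} (hex : RT.Tab.ex K = 1) (hR : ∀ j ≤ 10, R.r K m j = rF j)
    (hZ : m = 0 → h.Z0 q st rL rF V0) :
    EndL R K m q.n (q.cn R m) (fun l z p => (h.x.Rm l).val q.W (q.cz R m z) p)
      (fun l z p => (h.x.Rp l).val q.W (q.cz R m z) p) (1 / 2 ^ 32) V0 (Fps st) :=
  Ekd.endL (x := h.F st rF) (Ec0.ok_of ho.qo) hr ho.FS ho.FT (fun _ hl => msh_F hm hl)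
    hex hR fun h0 => ⟨(hZ h0).F, (hZ h0).W, (hZ h0).VF⟩

/-- **the chords of the upper parts at the release time** -/
theorem Ok.chord (ho : h.Ok q st rL rF) (hm : ∀ y ∈ h.fms q.n, Msh y.t y.n) :
    ∃ Λ : ℝ, 0 ≤ Λ ∧ ∀ c, 0 ≤ c → c ≤ 1 → ∀ l < q.n, ∀ σ ρ δ : ℝ, 0 ≤ ρ → ρ ≤ σ → σ ≤ ρ + δ →
      q.nd l c ≤ σ → σ ≤ q.nd (l + 1) c → q.nd l c < q.nd (l + 1) c → ∀ p, Fu p →
      h.cd.P.fn (ρ + c * (q.W / 2 ^ 24)) p + h.cd.G.fn (ρ + c * (q.W / 2 ^ 24)) p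
        ≤ li (q.nd l c) (q.nd (l + 1) c) (FF26 (h.x.lof c l) p) (FF26 (h.x.hif l) p) σ
          + Λ * δ := by
  obtain ⟨Λ, Λ0, key⟩ := Cd.ck_ok ho.cd (Ec0.ok_of ho.qo) (hm _ (by simp [fms]))
    (hm _ (by simp [fms]))
  refine ⟨Λ, Λ0, fun c c0 c1 l hl σ ρ δ h1 h2 h3 h4 h5 h6 p hp => ?_⟩
  have := key c c0 c1 l hl σ ρ δ h1 h2 h3 h4 h5 h6 p hp
  have e1 : h.x.lof c l = h.cd.lof c l := by
    funext i
    unfold Ehf.lof Cd.lof
    rw [ho.lo, ho.lo1]
  have e2 : h.x.hif l = h.cd.hif l := by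
    funext i
    unfold Ehf.hif Cd.hif
    rw [ho.hi]
  rw [e1, e2]
  exact this

end Ehk

end Pool.Agent.RZ.RCO
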