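import Pool.Agent.RZ.RCO.Ed9
import Pool.Agent.RZ.RCO.EdA
import Pool.Agent.RZ.RCO.EdB

/-! Route P: the table is above the four sums of a class (MP_73ccd0_lc). -/

set_option autoImplicit false
set_option linter.unusedSectionVars false

namespace Pool.Agent.RZ.RCO

open Set Finset MeasureTheory Pool.Agent.RZ.RCRSHalf Pool.Agent.RZ.RCG Pool.Agent.RZ.RCG.Ct
open Pool.Agent.RZ.RCN Pool.Agent.RZ.RCN.K

/-- the parts of the columns -/
structure CIn (h : Ehk) (W : ℤ) (c : ℝ) (l : ℕ) (a b σ κ : ℝ) (B : EgB) : Prop where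
  L : LIn h.x W c l a b σ B.K12 B.G0 B.N1 B.Nc2 B.dd
  F : RIn h.x W c l a b σ κ B.Hr B.P1 B.K13 B.G0 B.N1 B.Gr B.Nc3 B.df

/-- the parts of the rows -/
structure WIn (h : Ehk) (W : ℤ) (c : ℝ) (l : ℕ) (a b σ κ : ℝ) (B : EgB) : Prop where
  L : LIn h.x W c l a b σ B.K21 B.G0 B.Nc1 B.N2 B.dd
  F : RIn h.x W c l a b σ κ B.Hr B.Pc1 B.K31 B.G0 B.Nc1 B.Gr B.N3 B.df

section cls

variable {R : RT.Tab} {m : ℕ} {q : Ec0} {ε : ℝ} {i j l : ℕ} {st : Bool}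
  {rL rF : ℕ → RT.Cub} {h : Ehk} {V V0 α κe : ℝ} {B : EgB} {t s : ℝ} {KL KF : ℕ}

/-- **the columns of a class below the table** -/
theorem CIn.le (ho : h.Ok q st rL rF) (hr : q.Rel R m) (hm : ∀ y ∈ h.fms q.n, Msh y.t y.n)
    (eL : RT.Tab.ex KL = 2) (eF : RT.Tab.ex KF = 1) (RL : ∀ j ≤ 10, R.r KL m j = rL j)
    (RF : ∀ j ≤ 10, R.r KF m j = rF j) (hZ : m = 0 → h.Z0 q st rL rF V0)
    (SL : Csz R KL V V0 α (1 / 2 ^ 32) κe) (SF : Csz R KF V V0 α (1 / 2 ^ 32) κe)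
    (κe0 : 0 ≤ κe) (hp : Plc R m q.n (q.cn R m) ε i j l)
    (hB : CIn h q.W (q.cz R m (zs R m i)) l (q.nd l (q.cz R m (zs R m i)))
      (q.nd (l + 1) (q.cz R m (zs R m i))) (cb R.N j) κe B)
    (ht : t ∈ Icc (ca R.N i) (cb R.N i)) (hs : s ∈ Icc 0 t) (hact : Act MN (sgN R.N) ε i s j)
    {p : Pt} (hu : Fps st p) :
    B.cl p ≤ R.val KL m t s p.k ∧ B.cf p ≤ R.val KF m t s p.k := by
  have hq := Ec0.ok_of ho.qo
  constructor
  · refine kind_le hq hr SL (ho.endL hr hm eL RL hZ) hp ht hs hact hu.fu hu ?_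
    have := hB.L.le hu.fu
    unfold EgB.cl
    linarith
  · refine kind_le hq hr SF (ho.endF hr hm eF RF hZ) hp ht hs hact hu.fu hu ?_
    have := hB.F.le hu.fu
    unfold EgB.cf
    linarith

/-- **the rows of a class below the table** -/
theorem WIn.le (ho : h.Ok q st rL rF) (hr : q.Rel R m) (hm : ∀ y ∈ h.fms q.n, Msh y.t y.n)
    (eL : RT.Tab.ex KL = 2) (eF : RT.Tab.ex KF = 1) (RL : ∀ j ≤ 10, R.r KL m j = rL j)
    (RF : ∀ j ≤ 10, R.r KF m j = rF j) (hZ : m = 0 → h.Z0 q st rL rF V0)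
    (SL : Csz R KL V V0 α (1 / 2 ^ 32) κe) (SF : Csz R KF V V0 α (1 / 2 ^ 32) κe)
    (κe0 : 0 ≤ κe) (hp : Plc R m q.n (q.cn R m) ε i j l)
    (hB : WIn h q.W (q.cz R m (zs R m i)) l (q.nd l (q.cz R m (zs R m i)))
      (q.nd (l + 1) (q.cz R m (zs R m i))) (cb R.N j) κe B)
    (ht : t ∈ Icc (ca R.N i) (cb R.N i)) (hs : s ∈ Icc 0 t) (hact : Act MN (sgN R.N) ε i s j)
    {p : Pt} (hu : Fps st p) :
    B.rl p ≤ R.val KL m t s p.k ∧ B.rf p ≤ R.val KF m t s p.k := by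
  have hq := Ec0.ok_of ho.qo
  constructor
  · refine kind_le hq hr SL (ho.endL hr hm eL RL hZ) hp ht hs hact hu.fu hu ?_
    have := hB.L.le hu.fu
    unfold EgB.rl
    linarith
  · refine kind_le hq hr SF (ho.endF hr hm eF RF hZ) hp ht hs hact hu.fu hu ?_
    have := hB.F.le hu.fu
    unfold EgB.rf
    linarith

end cls

end Pool.Agent.RZ.RCO
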