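import Pool.Agent.RZ.RCO.Ed4f
import Pool.Agent.RZ.RCO.EdC
import Pool.Agent.RZ.RCO.EdS

/-! Route P: the record of the bounds of a class in a big cell (MP_73ccd0_lc). -/

set_option autoImplicit false
set_option linter.unusedSectionVars false

namespace Pool.Agent.RZ.RCO

open Set Finset

/-! ### the stars -/

/-- **the facts for a star** -/
theorem fps_star {V : Type*} [Fintype V] [DecidableEq V] {x : V → V → ℝ} {P : V → Prop}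
    [DecidablePred P] (hP : RCG.Ct.Wt x P 1) {a v : V} (hv : v ∈ ({a} : Finset V)ᶜ) (hPv : P v) :
    Fps true (fp x {a} v) := by
  have hu : Fu (fp x {a} v) := fu_fp hP (by rw [Finset.card_singleton]; omega) hv hPv
  have h := fp_star hP hv
  have e : ((kst true : ℤ) : ℝ) = (RCG.xN : ℝ) := by
    unfold kst
    simp
  have e1 : ((ddt true : ℤ) : ℝ) = 1 := by norm_num [ddt]
  obtain ⟨⟨y, a', b', hs⟩, hf⟩ := id hu
  exact ⟨hu, by rw [e]; exact h.k, by rw [e]; exact h.h, xN_le hs.fX.qm, xN_le hs.fX.sh,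
    by rw [e]; exact h.s, fun t => by rw [e1]; exact h.st t⟩

/-! ### the record of a class -/

namespace Ehk

/-- **the bounds of a class**: columns `xc`, rows `xr`, direct parts `dj` with the losses `nh`,
`nf`; `a`, `b` the ends of the coarse cell `l` at the shift `c` -/
noncomputable def B (xc xr : Ehk) (W : ℤ) (dj : Dj) (nh nf : ℕ) (c : ℝ) (l : ℕ) (a b σ ρ : ℝ) :
    EgB where
  G0 := xc.x.G0.fn (c * (W / 2 ^ 24))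
  Gr := xc.cd.G.fn (ρ + c * (W / 2 ^ 24))
  Hr := fun p => (1 - p.k) * (li a b (DjW.Hl dj c l) ((dj.I (l + 1) : ℝ) / 2 ^ 24) σ
    + (dj.Lm : ℝ) / 2 ^ 24 * (σ - ρ))
  K12 := fun p => li a b ((xc.x.Km l).fn (c * (W / 2 ^ 24)) p)
    ((xc.x.Kp l).fn (c * (W / 2 ^ 24)) p) σ
  K21 := fun p => li a b ((xr.x.Km l).fn (c * (W / 2 ^ 24)) p)
    ((xr.x.Kp l).fn (c * (W / 2 ^ 24)) p) σ
  K13 := fun p => li a b ((xc.x.KFm l).fn (c * (W / 2 ^ 24)) p)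
    ((xc.x.KFp l).fn (c * (W / 2 ^ 24)) p) σ
  K31 := fun p => li a b ((xr.x.KFm l).fn (c * (W / 2 ^ 24)) p)
    ((xr.x.KFp l).fn (c * (W / 2 ^ 24)) p) σ
  P1 := xc.cd.P.fn (ρ + c * (W / 2 ^ 24))
  N1 := xc.x.N.fn (c * (W / 2 ^ 24))
  Pc1 := xr.cd.P.fn (ρ + c * (W / 2 ^ 24))
  Nc1 := xr.x.N.fn (c * (W / 2 ^ 24))
  N2 := fun p => li a b ((xr.x.N2m l).fn (c * (W / 2 ^ 24)) p)
    ((xr.x.N2p l).fn (c * (W / 2 ^ 24)) p) σ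
  Nc2 := fun p => li a b ((xc.x.N2m l).fn (c * (W / 2 ^ 24)) p)
    ((xc.x.N2p l).fn (c * (W / 2 ^ 24)) p) σ
  N3 := fun p => li a b ((xr.x.N3m l).fn (c * (W / 2 ^ 24)) p)
    ((xr.x.N3p l).fn (c * (W / 2 ^ 24)) p) σ
  Nc3 := fun p => li a b ((xc.x.N3m l).fn (c * (W / 2 ^ 24)) p)
    ((xc.x.N3p l).fn (c * (W / 2 ^ 24)) p) σ
  dd := fun p => (1 - p.k) * li a b (dj.Jc nh c l) (dj.Jc nh c (l + 1)) σ
  df := fun p => (1 - p.k) * li a b (dj.Jc nf c l) (dj.Jc nf c (l + 1)) σ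

/-- **the check of the direct parts** -/
def ckJ (h : Ehk) (n : ℕ) (dj : Dj) (nh nf : ℕ) : Bool :=
  ((List.range (n + 1)).all fun l => bif Nat.beq l 0 then
      decide (0 ≤ h.x.J0 0) && decide (0 ≤ h.x.J1 0) && decide (0 ≤ h.x.F0 0) &&
        decide (0 ≤ h.x.F1 0)
    else decide ((dj.J0 nh l : ℤ) ≤ h.x.J0 l) && decide ((dj.J1 nh l : ℤ) ≤ h.x.J1 l) &&
      decide ((dj.J0 nf l : ℤ) ≤ h.x.F0 l) && decide ((dj.J1 nf l : ℤ) ≤ h.x.F1 l)) &&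
  (List.range n).all fun l => decide ((dj.H0 l : ℤ) ≤ h.x.Hm0 l) &&
    decide ((dj.H1 l : ℤ) ≤ h.x.Hm1 l) && decide ((dj.I (l + 1) : ℤ) ≤ h.x.Hp l)

/-- what the check gives -/
structure CkJ (h : Ehk) (n : ℕ) (dj : Dj) (nh nf : ℕ) : Prop where
  z : 0 ≤ h.x.J0 0 ∧ 0 ≤ h.x.J1 0 ∧ 0 ≤ h.x.F0 0 ∧ 0 ≤ h.x.F1 0
  j : ∀ l ≤ n, l ≠ 0 → (dj.J0 nh l : ℤ) ≤ h.x.J0 l ∧ (dj.J1 nh l : ℤ) ≤ h.x.J1 l ∧
    (dj.J0 nf l : ℤ) ≤ h.x.F0 l ∧ (dj.J1 nf l : ℤ) ≤ h.x.F1 l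
  h : ∀ l < n, (dj.H0 l : ℤ) ≤ h.x.Hm0 l ∧ (dj.H1 l : ℤ) ≤ h.x.Hm1 l ∧
    (dj.I (l + 1) : ℤ) ≤ h.x.Hp l

theorem ckJ_of {h : Ehk} {n : ℕ} {dj : Dj} {nh nf : ℕ} (hc : h.ckJ n dj nh nf = true) :
    h.CkJ n dj nh nf := by
  unfold ckJ at hc
  simp only [Bool.and_eq_true, List.all_eq_true, List.mem_range, decide_eq_true_eq] at hc
  obtain ⟨h1, h2⟩ := hc
  refine ⟨?_, fun l hl l0 => ?_, fun l hl => ?_⟩
  · have := h1 0 (Nat.succ_pos n)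
    rw [show Nat.beq 0 0 = true from rfl, cond_true] at this
    simp only [Bool.and_eq_true, decide_eq_true_eq] at this
    exact ⟨this.1.1.1, this.1.1.2, this.1.2, this.2⟩
  · have := h1 l (by omega)
    have e : Nat.beq l 0 = false := by
      rcases Nat.eq_zero_or_pos l with h3 | h3
      · exact absurd h3 l0
      · cases l with
        | zero => omega
        | succ l => rfl
    rw [e, cond_false] at this
    simp only [Bool.and_eq_true, decide_eq_true_eq] at this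
    exact ⟨this.1.1.1, this.1.1.2, this.1.2, this.2⟩
  · have := h2 l hl
    exact ⟨this.1.1, this.1.2, this.2⟩

theorem jc_le {dj : Dj} {nh : ℕ} {c : ℝ} (c0 : 0 ≤ c) (c1 : c ≤ 1) {J0 J1 : ℕ → ℤ} {l : ℕ}
    (h0 : 0 ≤ J0 0 ∧ 0 ≤ J1 0) (h : l ≠ 0 → (dj.J0 nh l : ℤ) ≤ J0 l ∧ (dj.J1 nh l : ℤ) ≤ J1 l) :
    dj.Jc nh c l ≤ ((1 - c) * J0 l + c * J1 l) / 2 ^ 24 := by
  unfold Dj.Jc
  have c2 : 0 ≤ 1 - c := sub_nonneg.2 c1
  split_ifs with h1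
  · rw [h1]
    have a0 : (0 : ℝ) ≤ J0 0 := by exact_mod_cast h0.1
    have a1 : (0 : ℝ) ≤ J1 0 := by exact_mod_cast h0.2
    exact div_nonneg (add_nonneg (mul_nonneg c2 a0) (mul_nonneg c0 a1)) (by positivity)
  · obtain ⟨h2, h3⟩ := h h1
    have a0 : (dj.J0 nh l : ℝ) ≤ J0 l := by exact_mod_cast h2
    have a1 : (dj.J1 nh l : ℝ) ≤ J1 l := by exact_mod_cast h3
    exact div_le_div_of_nonneg_right (add_le_add (mul_le_mul_of_nonneg_left a0 c2)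
      (mul_le_mul_of_nonneg_left a1 c0)) (by positivity)

section ins

variable {xc xr : Ehk} {q : Ec0} {st : Bool} {rL rF : ℕ → RT.Cub} {dj : Dj} {nh nf : ℕ}

/-- the deleted sum, common part -/
theorem dd_le (hJ : xc.CkJ q.n dj nh nf) {c : ℝ} (c0 : 0 ≤ c) (c1 : c ≤ 1) {l : ℕ} (hl : l < q.n)
    {a b σ : ℝ} (ha : a ≤ σ) (hb : σ ≤ b) (hab : a < b) {p : Pt} (hp : Fu p) :
    (1 - p.k) * li a b (dj.Jc nh c l) (dj.Jc nh c (l + 1)) σ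
      ≤ (1 - p.k) * li a b (((1 - c) * xc.x.J0 l + c * xc.x.J1 l) / 2 ^ 24)
        (((1 - c) * xc.x.J0 (l + 1) + c * xc.x.J1 (l + 1)) / 2 ^ 24) σ ∧
    (1 - p.k) * li a b (dj.Jc nf c l) (dj.Jc nf c (l + 1)) σ
      ≤ (1 - p.k) * li a b (((1 - c) * xc.x.F0 l + c * xc.x.F1 l) / 2 ^ 24)
        (((1 - c) * xc.x.F0 (l + 1) + c * xc.x.F1 (l + 1)) / 2 ^ 24) σ := by
  have k1 : 0 ≤ 1 - p.k := sub_nonneg.2 hp.k01.2
  obtain ⟨z0, z1, z2, z3⟩ := hJ.z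
  constructor
  · refine mul_le_mul_of_nonneg_left (li_mono hab ha hb ?_ ?_) k1
    · exact jc_le c0 c1 ⟨z0, z1⟩ fun l0 => ⟨(hJ.j l hl.le l0).1, (hJ.j l hl.le l0).2.1⟩
    · exact jc_le c0 c1 ⟨z0, z1⟩ fun l0 => ⟨(hJ.j (l + 1) hl l0).1, (hJ.j (l + 1) hl l0).2.1⟩
  · refine mul_le_mul_of_nonneg_left (li_mono hab ha hb ?_ ?_) k1
    · exact jc_le c0 c1 ⟨z2, z3⟩ fun l0 => (hJ.j l hl.le l0).2.2
    · exact jc_le c0 c1 ⟨z2, z3⟩ fun l0 => (hJ.j (l + 1) hl l0).2.2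

/-- the rates -/
theorem hr_le (hJ : xc.CkJ q.n dj nh nf) {c : ℝ} (c0 : 0 ≤ c) (c1 : c ≤ 1) {l : ℕ} (hl : l < q.n)
    {a b σ ρ δ κ : ℝ} (ha : a ≤ σ) (hb : σ ≤ b) (hab : a < b) (ρσ : ρ ≤ σ) (hδ : σ ≤ ρ + δ)
    (hκ : 2 * ((dj.Lm : ℝ) / 2 ^ 24 * δ) ≤ κ) {p : Pt} (hp : Fu p) :
    (1 - p.k) * (li a b (DjW.Hl dj c l) ((dj.I (l + 1) : ℝ) / 2 ^ 24) σ
        + (dj.Lm : ℝ) / 2 ^ 24 * (σ - ρ))
      ≤ (1 - p.k) * li a b (((1 - c) * xc.x.Hm0 l + c * xc.x.Hm1 l) / 2 ^ 24)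
        (xc.x.Hp l / 2 ^ 24) σ + κ / 2 := by
  have k1 : 0 ≤ 1 - p.k := sub_nonneg.2 hp.k01.2
  have k2 : 1 - p.k ≤ 1 := by linarith [hp.k01.1]
  have c2 : 0 ≤ 1 - c := sub_nonneg.2 c1
  obtain ⟨h1, h2, h3⟩ := hJ.h l hl
  have a1 : (dj.H0 l : ℝ) ≤ xc.x.Hm0 l := by exact_mod_cast h1
  have a2 : (dj.H1 l : ℝ) ≤ xc.x.Hm1 l := by exact_mod_cast h2
  have a3 : (dj.I (l + 1) : ℝ) ≤ xc.x.Hp l := by exact_mod_cast h3
  have L0 : (0 : ℝ) ≤ (dj.Lm : ℝ) / 2 ^ 24 := by positivity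
  have g1 : li a b (DjW.Hl dj c l) ((dj.I (l + 1) : ℝ) / 2 ^ 24) σ
      ≤ li a b (((1 - c) * xc.x.Hm0 l + c * xc.x.Hm1 l) / 2 ^ 24) (xc.x.Hp l / 2 ^ 24) σ := by
    refine li_mono hab ha hb ?_ (div_le_div_of_nonneg_right a3 (by positivity))
    unfold DjW.Hl
    exact div_le_div_of_nonneg_right (add_le_add (mul_le_mul_of_nonneg_left a1 c2)
      (mul_le_mul_of_nonneg_left a2 c0)) (by positivity)
  have g2 : (dj.Lm : ℝ) / 2 ^ 24 * (σ - ρ) ≤ κ / 2 := by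
    have := mul_le_mul_of_nonneg_left (by linarith : σ - ρ ≤ δ) L0
    linarith
  have g3 : 0 ≤ (dj.Lm : ℝ) / 2 ^ 24 * (σ - ρ) := mul_nonneg L0 (by linarith)
  have g4 : (1 - p.k) * ((dj.Lm : ℝ) / 2 ^ 24 * (σ - ρ)) ≤ (dj.Lm : ℝ) / 2 ^ 24 * (σ - ρ) :=
    mul_le_of_le_one_left g3 k2
  have g5 := mul_le_mul_of_nonneg_left g1 k1
  rw [mul_add]
  linarith

/-- **the columns of the record of a class** -/
theorem Ok.cin (ho : xc.Ok q st rL rF) (hm : ∀ y ∈ xc.fms q.n, Msh y.t y.n)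
    (hJ : xc.CkJ q.n dj nh nf) :
    ∃ Λ : ℝ, 0 ≤ Λ ∧ ∀ xr : Ehk, ∀ c, 0 ≤ c → c ≤ 1 → ∀ l < q.n, ∀ σ ρ δ κ : ℝ, 0 ≤ ρ → ρ ≤ σ →
      σ ≤ ρ + δ → q.nd l c ≤ σ → σ ≤ q.nd (l + 1) c → q.nd l c < q.nd (l + 1) c →
      Λ * δ ≤ κ →
      CIn xc q.W c l (q.nd l c) (q.nd (l + 1) c) σ κ
        (B xc xr q.W dj nh nf c l (q.nd l c) (q.nd (l + 1) c) σ ρ) := by
  obtain ⟨Λ, Λ0, key⟩ := ho.chord hm
  have L0 : (0 : ℝ) ≤ (dj.Lm : ℝ) / 2 ^ 24 := by positivity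
  refine ⟨2 * (Λ + (dj.Lm : ℝ) / 2 ^ 24), by linarith, fun xr c c0 c1 l hl σ ρ δ κ ρ0 ρσ hδ h1 h2
    h3 hκ => ?_⟩
  have δ0 : 0 ≤ δ := by linarith
  have m1 := mul_nonneg Λ0 δ0
  have m2 := mul_nonneg L0 δ0
  have kL : 2 * (Λ * δ) ≤ κ := by linarith
  have kH : 2 * ((dj.Lm : ℝ) / 2 ^ 24 * δ) ≤ κ := by linarith
  exact {
    L := {
      K := fun p hp => le_rfl
      G0 := fun p hp => le_rfl
      N := fun p hp => le_rfl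
      N2 := fun p hp => le_rfl
      dd := fun p hp => (dd_le hJ c0 c1 hl h1 h2 h3 hp).1 }
    F := {
      K := fun p hp => le_rfl
      G0 := fun p hp => le_rfl
      N := fun p hp => le_rfl
      N3 := fun p hp => le_rfl
      df := fun p hp => (dd_le hJ c0 c1 hl h1 h2 h3 hp).2
      PG := fun p hp => (key c c0 c1 l hl σ ρ δ ρ0 ρσ hδ h1 h2 h3 p hp).trans
        (add_le_add le_rfl (by linarith))
      H := fun p hp => hr_le hJ c0 c1 hl h1 h2 h3 ρσ hδ kH hp } }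

/-- **the rows of the record of a class** -/
theorem Ok.win (ho : xr.Ok q st rL rF) (hm : ∀ y ∈ xr.fms q.n, Msh y.t y.n)
    (hJ : xr.CkJ q.n dj nh nf) (eG0 : xc.x.G0 = xr.x.G0) (eG : xc.cd.G = xr.cd.G) :
    ∃ Λ : ℝ, 0 ≤ Λ ∧ ∀ c, 0 ≤ c → c ≤ 1 → ∀ l < q.n, ∀ σ ρ δ κ : ℝ, 0 ≤ ρ → ρ ≤ σ →
      σ ≤ ρ + δ → q.nd l c ≤ σ → σ ≤ q.nd (l + 1) c → q.nd l c < q.nd (l + 1) c →
      Λ * δ ≤ κ →
      WIn xr q.W c l (q.nd l c) (q.nd (l + 1) c) σ κ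
        (B xc xr q.W dj nh nf c l (q.nd l c) (q.nd (l + 1) c) σ ρ) := by
  obtain ⟨Λ, Λ0, key⟩ := ho.chord hm
  have L0 : (0 : ℝ) ≤ (dj.Lm : ℝ) / 2 ^ 24 := by positivity
  refine ⟨2 * (Λ + (dj.Lm : ℝ) / 2 ^ 24), by linarith, fun c c0 c1 l hl σ ρ δ κ ρ0 ρσ hδ h1 h2
    h3 hκ => ?_⟩
  have δ0 : 0 ≤ δ := by linarith
  have m1 := mul_nonneg Λ0 δ0
  have m2 := mul_nonneg L0 δ0
  have kL : 2 * (Λ * δ) ≤ κ := by linarith
  have kH : 2 * ((dj.Lm : ℝ) / 2 ^ 24 * δ) ≤ κ := by linarith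
  exact {
    L := {
      K := fun p hp => le_rfl
      G0 := fun p hp => by rw [← eG0]; exact le_rfl
      N := fun p hp => le_rfl
      N2 := fun p hp => le_rfl
      dd := fun p hp => (dd_le hJ c0 c1 hl h1 h2 h3 hp).1 }
    F := {
      K := fun p hp => le_rfl
      G0 := fun p hp => by rw [← eG0]; exact le_rfl
      N := fun p hp => le_rfl
      N3 := fun p hp => le_rfl
      df := fun p hp => (dd_le hJ c0 c1 hl h1 h2 h3 hp).2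
      PG := fun p hp => by
        have := (key c c0 c1 l hl σ ρ δ ρ0 ρσ hδ h1 h2 h3 p hp).trans
          (add_le_add le_rfl (by linarith : Λ * δ ≤ κ / 2))
        rw [← eG] at this
        exact this
      H := fun p hp => hr_le hJ c0 c1 hl h1 h2 h3 ρσ hδ kH hp } }

end ins

end Ehk

end Pool.Agent.RZ.RCO
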