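import Pool.Agent.RZ.RCO.Gs4_2
import Pool.Agent.RZ.RCO.Gs7
import Pool.Agent.RZ.RCO.Gs9_1

/-! The bundles of level 1 from the checks of tables (MP_73ccd0_lc). -/

namespace Pool.Agent.RZ.RCO

open Set Finset Pool.Agent.RZ.RCM

set_option linter.unusedSectionVars false

variable {V : Type*} [Fintype V] [DecidableEq V]

/-! ### smaller functions -/

/-! ### the kernels of the pair function and of the single terms -/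

/-! ### the target sums with kernels -/

section tg

end tg

/-! ### one group of targets -/

/-! ### the data of a system over time -/

section

end

section

variable {M : Type*} [Fintype M] [Nonempty M] {E : TEnv} {w1 : M → Pt → ℝ}
  {B : Bool → M → ℝ → Pt → ℝ} {CB : Bool → M → ℝ → ℝ} {ν δν : M → Pt → ℝ} {Cν Cδ : M → ℝ}
  {d : DP1 M} {x : V → V → ℝ} {P : V → Prop} {D : Finset V} {σ : ℝ} {S : Finset ℝ}
  {hb T : ℝ → V → V → ℝ} {gp gm : Finset V → V → V → ℝ → ℝ}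
  {bf : Bool → M → V → Finset V → ℝ → ℝ}
  {N Dd Ee : Finset V → V → V → ℝ → ℝ} {Dk Ek : ℝ → V → V → ℝ} {Fe Ge : Finset V → V → V → ℝ}
  {νf δf : M → V → Finset V → ℝ}

/-- **the conditions of the position sums** -/
theorem DP1.Ok.pf (h : d.Ok σ S E w1 B CB ν δν Cν Cδ)
    (env : WEnv x P D σ S hb T E.R E.Rp E.W E.Wp)
    (rw1 : RwB x P D σ S gp gm w1 bf B CB)
    (hK : KrE x P D σ S Fe Dd Ee Dk Ek E.RD E.RE E.RDp E.REp E.κD E.κE)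
    (hN : ∀ r ∈ Icc 0 σ, r ∉ S → ∀ F c e, VP Dᶜ F c e → N F c e r ≤ Ge F c e)
    (hG : RowE Dᶜ (fun m _ j => w1 m (fp x D j)) νf Ge)
    (hFe : RowE Dᶜ (fun m _ j => w1 m (fp x D j)) δf Fe)
    (fν : ∀ m, FB x P D (νf m) (ν m) (Cν m)) (fδ : ∀ m, FB x P D (δf m) (δν m) (Cδ m)) :
    ScPF Dᶜ σ S T gp gm N Dd Ee E.c1 E.c4
      (fun (l : M × Option V) _ e _ => w1 l.1 (fp x D e))
      (fun _ _ _ _ => 0) (fun l _ e _ => w1 l.1 (fp x D e)) (fun l => bf true l.1)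
      (fun l => bf false l.1) (opK d.Kn) (opK d.Kp) (opK d.Ke) (opK d.Km)
      (fun l c F _ => νf l.1 c F)
      (fun l c F r => ∑ e ∈ F, Dk r c e * w1 l.1 (fp x D e) + E.κD r * δf l.1 c F)
      (fun l c F r => ∑ b ∈ F, Ek r c b * thf x D T w1 l.1 b (F.erase b) r
        + E.κE r * ∑ m', d.Ke l.1 m' r * δf m' c F)
      (d.g.v x P D true) (d.g.v' x P D true) (d.g.v x P D false) (d.g.v' x P D false) :=
  scpf_of env rw1 h.g hK.krD hK.krE hG hFe fν fδ hN hK.hD hK.hE hK.κD0 hK.κE0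
    h.Kn0 h.Kp0 h.Ke0 h.Km0 h.C

end

/-! ### tables -/

/-- the tables of the targets with the weight one; all functions of the table time -/
structure TT1 (J Λ : Type*) where
  f : TFam J
  ΦD : ℝ → Pt → ℝ
  ΦE : ℝ → Pt → ℝ
  CD : ℝ → ℝ
  CE : ℝ → ℝ
  Ψn : ℝ → Pt → ℝ
  Ψe : ℝ → Pt → ℝ
  Ψd : ℝ → Pt → ℝ
  Cn : ℝ → ℝ
  Ce : ℝ → ℝ
  Cd : ℝ → ℝ
  Gn : J → Λ → ℝ → ℝ
  Gd : J → Λ → ℝ → ℝ

/-- the data over time, shifted by `δ` -/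
noncomputable def TT1.dat {J Λ : Type*} (FF : (ℕ → ℝ) → Pt → ℝ) (t : ℕ → ℝ) (n : ℕ)
    (d : TT1 J Λ) (δ : ℝ) : DT1 J Λ where
  f := d.f.fam FF t n δ
  ΦD := fun r => d.ΦD (r + δ)
  ΦE := fun r => d.ΦE (r + δ)
  CD := fun r => d.CD (r + δ)
  CE := fun r => d.CE (r + δ)
  Ψn := fun r => d.Ψn (r + δ)
  Ψe := fun r => d.Ψe (r + δ)
  Ψd := fun r => d.Ψd (r + δ)
  Cn := fun r => d.Cn (r + δ)
  Ce := fun r => d.Ce (r + δ)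
  Cd := fun r => d.Cd (r + δ)
  Gn := fun j m r => d.Gn j m (r + δ)
  Gd := fun j m r => d.Gd j m (r + δ)

/-- **the checks of the targets with the weight one at every table time**; `lam` convex
combinations of the variants -/
structure TT1.Ok {J Λ : Type*} [Fintype J] [Fintype Λ] (FF : (ℕ → ℝ) → Pt → ℝ) (N : ℕ)
    (t : ℕ → ℝ) (n : ℕ) (E : TEnv) (wv : Λ → Pt → ℝ) (B : Bool → Λ → ℝ → Pt → ℝ)
    (CB : Bool → Λ → ℝ → ℝ) (ν1 δ1 : Pt → ℝ) (Cν1 Cδ1 : ℝ) (d : TT1 J Λ) : Prop where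
  fam : d.f.Ok FF N t n
  kD : ∀ ρ ∈ Icc (t 0) (t n), KLn (E.RD ρ) (E.RDp ρ) (fun _ _ => 1) (fun _ _ => 1) (d.ΦD ρ)
  kE : ∀ ρ ∈ Icc (t 0) (t n), KLn (E.RE ρ) (E.REp ρ) (fun _ _ => 1) (fun _ _ => 1) (d.ΦE ρ)
  oD : ∀ ρ ∈ Icc (t 0) (t n), OLx (E.RDp ρ) (fun _ _ => 1) (d.CD ρ) ∧ 0 ≤ d.CD ρ
  oE : ∀ ρ ∈ Icc (t 0) (t n), OLx (E.REp ρ) (fun _ _ => 1) (d.CE ρ) ∧ 0 ≤ d.CE ρ
  c10 : ∀ ρ ∈ Icc (t 0) (t n), 0 ≤ E.c1 ρ
  c40 : ∀ ρ ∈ Icc (t 0) (t n), 0 ≤ E.c4 ρ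
  sn : ∀ ρ ∈ Icc (t 0) (t n), ∃ lam lac : J → ℝ, (∀ j, 0 ≤ lam j) ∧ ∑ j, lam j = 1 ∧
    (∀ j, 0 ≤ lac j) ∧ ∑ j, lac j = 1 ∧
    (∀ p, Sa p → ν1 p + ∑ j, lam j * d.f.U FF t n false j ρ p ≤ d.Ψn ρ p) ∧
    Cν1 + ∑ j, lac j * d.f.K t n false j ρ ≤ d.Cn ρ
  se : ∀ ρ ∈ Icc (t 0) (t n), ∃ lam lac : J → ℝ, (∀ j, 0 ≤ lam j) ∧ ∑ j, lam j = 1 ∧
    (∀ j, 0 ≤ lac j) ∧ ∑ j, lac j = 1 ∧
    (∀ p, Sa p → d.ΦE ρ p + E.κE ρ * δ1 p + E.c1 ρ * ∑ j, lam j * d.f.U FF t n true j ρ p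
      ≤ d.Ψe ρ p) ∧
    d.CE ρ + E.κE ρ * Cδ1 + E.c1 ρ * ∑ j, lac j * d.f.K t n true j ρ ≤ d.Ce ρ
  sd : ∀ ρ ∈ Icc (t 0) (t n), ∃ lam lac : J → ℝ, (∀ j, 0 ≤ lam j) ∧ ∑ j, lam j = 1 ∧
    (∀ j, 0 ≤ lac j) ∧ ∑ j, lac j = 1 ∧
    (∀ p, Sa p → d.ΦD ρ p + E.κD ρ * δ1 p + E.c4 ρ * ∑ j, lam j * d.f.U FF t n true j ρ p
      ≤ d.Ψd ρ p) ∧
    d.CD ρ + E.κD ρ * Cδ1 + E.c4 ρ * ∑ j, lac j * d.f.K t n true j ρ ≤ d.Cd ρ
  Gn0 : ∀ j m, ∀ ρ ∈ Icc (t 0) (t n), 0 ≤ d.Gn j m ρ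
  Gd0 : ∀ j m, ∀ ρ ∈ Icc (t 0) (t n), 0 ≤ d.Gd j m ρ
  C : ∀ ρ ∈ Icc (t 0) (t n), CT1 (E.R ρ) (E.Rp ρ) (E.W ρ) (E.Wp ρ) wv (fun s m => B s m ρ)
    (fun s m => CB s m ρ) (d.Ψn ρ) (d.Ψe ρ) (d.Ψd ρ) (d.Cn ρ) (d.Cd ρ)
    (fun s j p => -d.f.Sl FF t n s j ρ p) (fun s j => -d.f.Ks t n s j ρ)
    (fun j m => d.Gn j m ρ) fun j m => d.Gd j m ρ

/-- the tables of the position sums; all functions of the table time -/
structure TP1 (M : Type*) where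
  f : TFam M
  Θ : M → ℝ → Pt → ℝ
  CΘ : M → ℝ → ℝ
  Kn : M → M → ℝ → ℝ
  Kp : M → M → ℝ → ℝ
  Ke : M → M → ℝ → ℝ
  Km : M → M → ℝ → ℝ

/-- the data over time, shifted by `δ` -/
noncomputable def TP1.dat {M : Type*} (FF : (ℕ → ℝ) → Pt → ℝ) (t : ℕ → ℝ) (n : ℕ)
    (d : TP1 M) (δ : ℝ) : DP1 M where
  g := d.f.fam FF t n δ
  Θ := fun m r => d.Θ m (r + δ)
  CΘ := fun m r => d.CΘ m (r + δ)
  Kn := fun m m' r => d.Kn m m' (r + δ)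
  Kp := fun m m' r => d.Kp m m' (r + δ)
  Ke := fun m m' r => d.Ke m m' (r + δ)
  Km := fun m m' r => d.Km m m' (r + δ)

/-- **the checks of the position sums at every table time** -/
structure TP1.Ok {M : Type*} [Fintype M] (FF : (ℕ → ℝ) → Pt → ℝ) (N : ℕ) (t : ℕ → ℝ) (n : ℕ)
    (E : TEnv) (w1 : M → Pt → ℝ) (B : Bool → M → ℝ → Pt → ℝ) (CB : Bool → M → ℝ → ℝ)
    (ν δ : M → Pt → ℝ) (Cν Cδ : M → ℝ) (d : TP1 M) : Prop where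
  fam : d.f.Ok FF N t n
  c10 : ∀ ρ ∈ Icc (t 0) (t n), 0 ≤ E.c1 ρ
  c40 : ∀ ρ ∈ Icc (t 0) (t n), 0 ≤ E.c4 ρ
  Kn0 : ∀ m m', ∀ ρ ∈ Icc (t 0) (t n), 0 ≤ d.Kn m m' ρ
  Kp0 : ∀ m m', ∀ ρ ∈ Icc (t 0) (t n), 0 ≤ d.Kp m m' ρ
  Ke0 : ∀ m m', ∀ ρ ∈ Icc (t 0) (t n), 0 ≤ d.Ke m m' ρ
  Km0 : ∀ m m', ∀ ρ ∈ Icc (t 0) (t n), 0 ≤ d.Km m m' ρ
  C : ∀ ρ ∈ Icc (t 0) (t n), CP1 (E.R ρ) (E.Rp ρ) (E.W ρ) (E.Wp ρ) (E.RD ρ) (E.RDp ρ) (E.RE ρ)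
    (E.REp ρ) w1 (fun s m => B s m ρ) (fun s m => CB s m ρ) (fun m => d.Θ m ρ)
    (fun m => d.CΘ m ρ) ν δ Cν Cδ (E.κD ρ) (E.κE ρ) (E.c1 ρ) (E.c4 ρ)
    (fun s m => d.f.U FF t n s m ρ) (fun s m p => -d.f.Sl FF t n s m ρ p)
    (fun s m => d.f.K t n s m ρ) (fun s m => -d.f.Ks t n s m ρ) (fun m m' => d.Kn m m' ρ)
    (fun m m' => d.Kp m m' ρ) (fun m m' => d.Ke m m' ρ) fun m m' => d.Km m m' ρ

section

variable {FF : (ℕ → ℝ) → Pt → ℝ} {N0 : ℕ} {ft : ℕ → Pt → ℝ} {t : ℕ → ℝ} {n : ℕ} {E : TEnv}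

/-- **the conditions of the targets with the weight one from the tables** -/
theorem TT1.Ok.dt1 {J Λ : Type*} [Fintype J] [Nonempty J] [Fintype Λ] {wv : Λ → Pt → ℝ}
    {B : Bool → Λ → ℝ → Pt → ℝ} {CB : Bool → Λ → ℝ → ℝ} {ν1 δ1 : Pt → ℝ} {Cν1 Cδ1 : ℝ}
    {d : TT1 J Λ} (h : d.Ok FF N0 t n E wv B CB ν1 δ1 Cν1 Cδ1) (hF : Lf FF N0 ft)
    (hm : Msh t n) (hn : 0 < n) {σ δ : ℝ} (h0 : t 0 ≤ δ) (h1 : σ + δ ≤ t n) (S : Finset ℝ) :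
    (d.dat FF t n δ).Ok σ S (E.shift δ) wv (fun s m r => B s m (r + δ))
      (fun s m r => CB s m (r + δ)) ν1 δ1 Cν1 Cδ1 := by
  have mem : ∀ r ∈ Icc 0 σ, r + δ ∈ Icc (t 0) (t n) := fun r hr =>
    ⟨by linarith [hr.1], by linarith [hr.2]⟩
  have pm : ∀ s, ∀ r ∈ Icc 0 σ, ∀ lam : J → ℝ, (∀ j, 0 ≤ lam j) → ∑ j, lam j = 1 →
      ∀ p, Sa p → (d.f.fam FF t n δ).p s r p ≤ ∑ j, lam j * d.f.U FF t n s j (r + δ) p :=
    fun s r hr lam l0 l1 p hp => infP_le_cvx (Φu := fun j p => d.f.U FF t n s j (r + δ) p)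
        (fun j => h.fam.le hF hm hn s j (mem r hr) hp) l0 l1
  have pc : ∀ s, ∀ r ∈ Icc 0 σ, ∀ lam : J → ℝ, (∀ j, 0 ≤ lam j) → ∑ j, lam j = 1 →
      (d.f.fam FF t n δ).c s r ≤ ∑ j, lam j * d.f.K t n s j (r + δ) :=
    fun s r hr lam l0 l1 => infC_le_cvx (Cu := fun j => d.f.K t n s j (r + δ))
        (fun j => h.fam.kle hm hn s j (mem r hr)) l0 l1
  exact {
    f := h.fam.fam hF hm hn h0 h1 S
    kD := fun r hr _ => h.kD _ (mem r hr)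
    kE := fun r hr _ => h.kE _ (mem r hr)
    oD := fun r hr _ => h.oD _ (mem r hr)
    oE := fun r hr _ => h.oE _ (mem r hr)
    c10 := fun r hr => h.c10 _ (mem r hr)
    c40 := fun r hr => h.c40 _ (mem r hr)
    sn := fun r hr _ => by
      obtain ⟨lam, lac, l0, l1, l2, l3, s1, s2⟩ := h.sn _ (mem r hr)
      exact ⟨fun p hp => (add_le_add le_rfl (pm false r hr lam l0 l1 p hp)).trans (s1 p hp),
        (add_le_add le_rfl (pc false r hr lac l2 l3)).trans s2⟩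
    se := fun r hr _ => by
      obtain ⟨lam, lac, l0, l1, l2, l3, s1, s2⟩ := h.se _ (mem r hr)
      have c0 := h.c10 _ (mem r hr)
      exact ⟨fun p hp => (add_le_add le_rfl (mul_le_mul_of_nonneg_left
        (pm true r hr lam l0 l1 p hp) c0)).trans (s1 p hp),
        (add_le_add le_rfl (mul_le_mul_of_nonneg_left (pc true r hr lac l2 l3) c0)).trans s2⟩
    sd := fun r hr _ => by
      obtain ⟨lam, lac, l0, l1, l2, l3, s1, s2⟩ := h.sd _ (mem r hr)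
      have c0 := h.c40 _ (mem r hr)
      exact ⟨fun p hp => (add_le_add le_rfl (mul_le_mul_of_nonneg_left
        (pm true r hr lam l0 l1 p hp) c0)).trans (s1 p hp),
        (add_le_add le_rfl (mul_le_mul_of_nonneg_left (pc true r hr lac l2 l3) c0)).trans s2⟩
    Gn0 := fun j m r hr => h.Gn0 j m _ (mem r hr)
    Gd0 := fun j m r hr => h.Gd0 j m _ (mem r hr)
    C := fun r hr _ => h.C _ (mem r hr) }

/-- **the conditions of the position sums from the tables** -/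
theorem TP1.Ok.dp1 {M : Type*} [Fintype M] {w1 : M → Pt → ℝ}
    {B : Bool → M → ℝ → Pt → ℝ} {CB : Bool → M → ℝ → ℝ} {ν δν : M → Pt → ℝ} {Cν Cδ : M → ℝ}
    {d : TP1 M} (h : d.Ok FF N0 t n E w1 B CB ν δν Cν Cδ) (hF : Lf FF N0 ft)
    (hm : Msh t n) (hn : 0 < n) {σ δ : ℝ} (h0 : t 0 ≤ δ) (h1 : σ + δ ≤ t n) (S : Finset ℝ) :
    (d.dat FF t n δ).Ok σ S (E.shift δ) w1 (fun s m r => B s m (r + δ))
      (fun s m r => CB s m (r + δ)) ν δν Cν Cδ := by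
  have mem : ∀ r ∈ Icc 0 σ, r + δ ∈ Icc (t 0) (t n) := fun r hr =>
    ⟨by linarith [hr.1], by linarith [hr.2]⟩
  exact {
    g := h.fam.fam hF hm hn h0 h1 S
    Kn0 := fun m m' r hr => h.Kn0 m m' _ (mem r hr)
    Kp0 := fun m m' r hr => h.Kp0 m m' _ (mem r hr)
    Ke0 := fun m m' r hr => h.Ke0 m m' _ (mem r hr)
    Km0 := fun m m' r hr => h.Km0 m m' _ (mem r hr)
    C := fun r hr _ => (h.C _ (mem r hr)).anti
      (fun s m p hp => h.fam.le hF hm hn s m (mem r hr) hp)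
      (fun s m => h.fam.kle hm hn s m (mem r hr))
      (fun m m' => h.Kn0 m m' _ (mem r hr)) (fun m m' => h.Kp0 m m' _ (mem r hr))
      (fun m m' => h.Ke0 m m' _ (mem r hr)) (fun m m' => h.Km0 m m' _ (mem r hr))
      (h.c10 _ (mem r hr)) (h.c40 _ (mem r hr)) }

end

/-! ### the bundles -/

/-- **the bundle of level 1** -/
noncomputable def mkS1 {A J M Λ : Type*} [Fintype J] [Nonempty J] [Fintype M] [Nonempty M]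
    (x : V → V → ℝ) (P : V → Prop) (D : Finset V) (T : ℝ → V → V → ℝ)
    (Dd Ee : Finset V → V → V → ℝ → ℝ) (c1 c4 : ℝ → ℝ) (wv : Λ → Pt → ℝ)
    (bf : Bool → Λ → V → Finset V → ℝ → ℝ) (fw : A → V → ℝ) (f : A → Fam J)
    (NB DB EB : A → V → Finset V → ℝ → ℝ) (Gn Gd : A → J → Λ → ℝ → ℝ)
    (w1 : M → Pt → ℝ) (bf1 : Bool → M → V → Finset V → ℝ → ℝ) (g : Fam M)
    (Dk Ek : ℝ → V → V → ℝ) (κD κE : ℝ → ℝ) (νf δf : M → V → Finset V → ℝ)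
    (Kn Kp Ke Km : M → M → ℝ → ℝ) : S1 V (A × J × Option V) (M × Option V) Λ where
  D := Dd
  E := Ee
  c1 := c1
  c4 := c4
  w0 := fun m _ y _ => wv m (fp x D y)
  bp := bf true
  bm := bf false
  π := tgπ x P D fw f NB DB EB
  f := fun l _ c _ => fw l.1 c
  f' := fun _ _ _ _ => 0
  NB := fun l => NB l.1
  DB := fun l => DB l.1
  EB := fun l => EB l.1
  P := fun l => (f l.1).v x P D true l.2
  P' := fun l => (f l.1).v' x P D true l.2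
  Q := fun l => (f l.1).v x P D false l.2
  Q' := fun l => (f l.1).v' x P D false l.2
  Gn := fun l m _ _ r => Gn l.1 l.2.1 m r
  Gd := fun l m _ _ r => Gd l.1 l.2.1 m r
  w := fun l _ e _ => w1 l.1 (fp x D e)
  w' := fun _ _ _ _ => 0
  v := fun l _ e _ => w1 l.1 (fp x D e)
  φp := fun l => bf1 true l.1
  φm := fun l => bf1 false l.1
  Kn := opK Kn
  Kp := opK Kp
  Ke := opK Ke
  Km := opK Km
  NBc := fun l c F _ => νf l.1 c F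
  DBc := fun l c F r => ∑ e ∈ F, Dk r c e * w1 l.1 (fp x D e) + κD r * δf l.1 c F
  EBc := fun l c F r => ∑ b ∈ F, Ek r c b * thf x D T w1 l.1 b (F.erase b) r
        + κE r * ∑ m', Ke l.1 m' r * δf m' c F
  Pc := g.v x P D true
  Pc' := g.v' x P D true
  Qc := g.v x P D false
  Qc' := g.v' x P D false

end Pool.Agent.RZ.RCO
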