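import Pool.Agent.RZ.RCO.Gs3_1
import Pool.Agent.RZ.RCO.Gs4_1

/-! The checks of level 1 at one time from lines which do not depend on the vertex
(MP_73ccd0_lc). -/

set_option autoImplicit false

namespace Pool.Agent.RZ.RCO

open Set Finset

/-- **the lines of the target sums at one time**, with the coefficient vectors `cn, ce` (removal
sums of the used functions `Ψn, Ψe`), `bn, bd` (half forms of `Ψn, Ψd`), `cD` (removal sum) -/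
structure LT1 {J Λ : Type*} [Fintype Λ] (R : ℝ → ℝ) (Rp : ℝ) (W : Pt → ℝ) (Wp : ℝ → ℝ)
    (wv : Λ → Pt → ℝ) (B : Bool → Λ → Pt → ℝ) (CB : Bool → Λ → ℝ) (Ψn Ψe Ψd : Pt → ℝ)
    (Cn Cd : ℝ) (Φ' : Bool → J → Pt → ℝ) (C' : Bool → J → ℝ) (Gn Gd : J → Λ → ℝ)
    (Dk : ℝ → ℝ) (cD cn ce bn bd : Ec) (dn de : ℝ) : Prop where
  W1 : ∀ (p : Pt) (x a b : ℝ), p.Sat x a b → 1 ≤ W p.full
  Ψn0 : ∀ p : Pt, p.Sat 0 0 0 → p = p.full → 0 ≤ Ψn p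
  Ψd0 : ∀ p : Pt, p.Sat 0 0 0 → p = p.full → 0 ≤ Ψd p
  eD : ELn R Rp (fun q => W q.full) (fun q => Wp q.M) cD
  en : ELn R Rp (fun q => W q.full * Ψn q) (fun _ => 0) cn
  ee : ELn R Rp (fun q => W q.full * Ψe q) (fun _ => 0) ce
  hn : ELn R Rp (fun q => W q.full * ((Ψn q + Ψn q.full) / 2)) (fun q => Wp q.M * (Cn * q.M / 2))
    bn
  hd : ELn R Rp (fun q => W q.full * ((Ψd q + Ψd q.full) / 2)) (fun q => Wp q.M * (Cd * q.M / 2))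
    bd
  D : ∀ p : Pt, p.Sat 0 0 0 → p = p.full → sv cD p ≤ Dk p.k
  vP : ∀ j, ∀ (p : Pt) (x a b : ℝ), p.Sat x a b →
    W p.full * sv cn p + ∑ m, (Gn j m * B false m p + Gd j m * B true m p) ≤ -Φ' true j p
  vQ : ∀ j, ∀ (p : Pt) (x a b : ℝ), p.Sat x a b →
    W p.full * sv ce p + ∑ m, (Gn j m * B true m p + Gd j m * B false m p) ≤ -Φ' false j p
  pn : ∀ j, ∀ p : Pt, p.Sat 0 0 0 → p = p.full →
    W p * (Ψn p * Dk p.k + sv bn p) ≤ ∑ m, Gn j m * wv m p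
  pd : ∀ j, ∀ p : Pt, p.Sat 0 0 0 → p = p.full →
    W p * (Ψd p * Dk p.k + sv bd p) ≤ ∑ m, Gd j m * wv m p
  on : OLx Rp (fun x p => Wp x * W p.full * Ψn p) dn
  oe : OLx Rp (fun x p => Wp x * W p.full * Ψe p) de
  gP : ∀ j, dn + ∑ m, (Gn j m * CB false m + Gd j m * CB true m) ≤ -C' true j
  gQ : ∀ j, de + ∑ m, (Gn j m * CB true m + Gd j m * CB false m) ≤ -C' false j
  qn : ∀ j, ∀ (p : Pt) (x : ℝ), p.Sat x 0 (x * p.k) → x * Rp * (Wp x * W p.full)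
    * ((Cn * x + (Ψn p + Ψn p.full)) / 2) ≤ ∑ m, Gn j m * wv m (pnd x p)
  qd : ∀ j, ∀ (p : Pt) (x : ℝ), p.Sat x 0 (x * p.k) → x * Rp * (Wp x * W p.full)
    * ((Cd * x + (Ψd p + Ψd p.full)) / 2) ≤ ∑ m, Gd j m * wv m (pnd x p)

/-- the same coefficient vector, other functions -/
theorem EL.cg {a b : ℝ} {R : ℝ → ℝ} {Rp : ℝ} {G G' Gp Gp' : Pt → ℝ} {c : Ec}
    (h : EL a b R Rp G Gp c) (hG : ∀ q, G' q = G q) (hp : ∀ q, Gp' q = Gp q) :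
    EL a b R Rp G' Gp' c := by
  have e1 : G' = G := funext hG
  have e2 : Gp' = Gp := funext hp
  rw [e1, e2]
  exact h

/-- a position from a half form and the removal sum -/
theorem pos_el {R : ℝ → ℝ} {Rp : ℝ} {W : Pt → ℝ} {Wp : ℝ → ℝ} {w Ψ : Pt → ℝ} {C Dk Bd : ℝ}
    {cD h : Ec} {p : Pt} (w1 : 0 ≤ W p.full) (Ψ0 : 0 ≤ Ψ p) (hf : p = p.full)
    (eD : ELn R Rp (fun q => W q.full) (fun q => Wp q.M) cD)
    (eh : ELn R Rp (fun q => W q.full * (w q + (Ψ q + Ψ q.full) / 2))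
      (fun q => Wp q.M * (w q + C * q.M / 2)) h)
    (D : sv cD p ≤ Dk) (hB : W p * (Ψ p * Dk + sv h p) ≤ Bd) :
    ∃ c : Ec, EL p.k p.H R Rp
      (fun q => W p.full * W q.full * (w q + (Ψ p + (Ψ q + Ψ q.full) / 2)))
      (fun q => W p.full * Wp q.M * (w q + (Ψ p + C * q.M / 2))) c ∧ sv c p ≤ Bd := by
  refine ⟨((cD.smul (Ψ p)).add h).smul (W p.full), ?_, ?_⟩
  · refine ((((eD.at' p.k p.H).smul Ψ0).add (eh.at' p.k p.H)).smul w1).cg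
      (fun q => ?_) fun q => ?_
    · ring
    · ring
  · rw [sv_smul, sv_add, sv_smul]
    have d1 := mul_le_mul_of_nonneg_left D Ψ0
    have d2 := mul_le_mul_of_nonneg_left (add_le_add_left d1 (sv h p)) w1
    refine le_trans d2 ?_
    rw [← hf]
    exact hB

theorem LT1.ct1 {J Λ : Type*} [Fintype Λ] {R : ℝ → ℝ} {Rp : ℝ} {W : Pt → ℝ} {Wp : ℝ → ℝ}
    {wv : Λ → Pt → ℝ} {B : Bool → Λ → Pt → ℝ} {CB : Bool → Λ → ℝ} {Ψn Ψe Ψd : Pt → ℝ}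
    {Cn Cd : ℝ} {Φ' : Bool → J → Pt → ℝ} {C' : Bool → J → ℝ} {Gn Gd : J → Λ → ℝ}
    {Dk : ℝ → ℝ} {cD cn ce bn bd : Ec} {dn de : ℝ}
    (h : LT1 R Rp W Wp wv B CB Ψn Ψe Ψd Cn Cd Φ' C' Gn Gd Dk cD cn ce bn bd dn de) :
    CT1 R Rp W Wp wv B CB Ψn Ψe Ψd Cn Cd Φ' C' Gn Gd where
  vP := fun j p ⟨x, a, b, hp⟩ => by
    have w1 := h.W1 p x a b hp
    refine ⟨cn.smul (W p.full), ?_, ?_⟩
    · refine ((h.en.at' p.k p.H).smul (by linarith : 0 ≤ W p.full)).cg (fun q => ?_)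
        fun q => ?_
      · ring
      · ring
    · rw [sv_smul]
      exact h.vP j p x a b hp
  vQ := fun j p ⟨x, a, b, hp⟩ => by
    have w1 := h.W1 p x a b hp
    refine ⟨ce.smul (W p.full), ?_, ?_⟩
    · refine ((h.ee.at' p.k p.H).smul (by linarith : 0 ≤ W p.full)).cg (fun q => ?_)
        fun q => ?_
      · ring
      · ring
    · rw [sv_smul]
      exact h.vQ j p x a b hp
  pn := fun j p hp hf => by
    have w1 := h.W1 p _ _ _ hp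
    obtain ⟨c, h1, h2⟩ := pos_el (w := fun _ => 0) (by linarith : 0 ≤ W p.full)
      (h.Ψn0 p hp hf) hf h.eD (by simpa only [zero_add] using h.hn) (h.D p hp hf)
      (h.pn j p hp hf)
    exact ⟨c, by simpa only [zero_add] using h1, h2⟩
  pd := fun j p hp hf => by
    have w1 := h.W1 p _ _ _ hp
    obtain ⟨c, h1, h2⟩ := pos_el (w := fun _ => 0) (by linarith : 0 ≤ W p.full)
      (h.Ψd0 p hp hf) hf h.eD (by simpa only [zero_add] using h.hd) (h.D p hp hf)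
      (h.pd j p hp hf)
    exact ⟨c, by simpa only [zero_add] using h1, h2⟩
  oP := fun j => ⟨dn, h.on, h.gP j⟩
  oQ := fun j => ⟨de, h.oe, h.gQ j⟩
  qn := h.qn
  qd := h.qd

/-- **the lines of the position sums at one time**; `eN, eP, eH` half forms, `eW` the removal sum
of the weight, `eX, eY` the kernel sums -/
structure LP1 {M : Type*} [Fintype M] (R : ℝ → ℝ) (Rp : ℝ) (W : Pt → ℝ) (Wp : ℝ → ℝ)
    (RD : ℝ → ℝ) (RDp : ℝ) (RE : ℝ → ℝ) (REp : ℝ) (w1 : M → Pt → ℝ) (B : Bool → M → Pt → ℝ)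
    (CB : Bool → M → ℝ) (Θ : M → Pt → ℝ) (CΘ : M → ℝ) (ν δ : M → Pt → ℝ) (Cν Cδ : M → ℝ)
    (κD κE c1 c4 : ℝ) (Φ Φ' : Bool → M → Pt → ℝ) (C C' : Bool → M → ℝ)
    (Kn Kp Ke Km : M → M → ℝ) (Dk : ℝ → ℝ) (cD : Ec) (cN cP cH cW cX cY : M → Ec)
    (dX dY : M → ℝ) : Prop where
  W1 : ∀ (p : Pt) (x a b : ℝ), p.Sat x a b → 1 ≤ W p.full
  B0 : ∀ s m, ∀ p : Pt, p.Sat 0 0 0 → p = p.full → 0 ≤ B s m p
  eD : ELn R Rp (fun q => W q.full) (fun q => Wp q.M) cD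
  eN : ∀ m, ELn R Rp (fun q => W q.full * (w1 m q.full + (B false m q + B false m q.full) / 2))
    (fun q => Wp q.M * (w1 m q.full + CB false m * q.M / 2)) (cN m)
  eP : ∀ m, ELn R Rp (fun q => W q.full * ((B true m q + B true m q.full) / 2))
    (fun q => Wp q.M * (CB true m * q.M / 2)) (cP m)
  eH : ∀ m, ELn R Rp (fun q => W q.full * ((B false m q + B false m q.full) / 2))
    (fun q => Wp q.M * (CB false m * q.M / 2)) (cH m)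
  eW : ∀ m, ELn R Rp (fun q => W q.full * w1 m q.full) (fun q => Wp q.M * w1 m q.full) (cW m)
  eX : ∀ m, ELn RD RDp (fun q => ∑ m', Kp m m' * w1 m' q.full)
    (fun q => ∑ m', Kp m m' * w1 m' q.full) (cX m)
  eY : ∀ m, 0 ≤ (cY m).c6 ∧ 0 ≤ (cY m).c7 ∧
    (∀ (p : Pt) (x a b : ℝ), p.Sat x a b →
      x * (RE x * Θ m p + RD x * ∑ m', Km m m' * w1 m' p.full) ≤ ev (cY m) x p.k p.H) ∧
    ∀ (p : Pt) (x a b : ℝ), p.Pend x a b →
      x * (RDp * ∑ m', Km m m' * w1 m' p.full) ≤ ev (cY m) x p.k p.H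
  D : ∀ p : Pt, p.Sat 0 0 0 → p = p.full → sv cD p ≤ Dk p.k
  pn : ∀ m, ∀ p : Pt, p.Sat 0 0 0 → p = p.full →
    W p * (B false m p * Dk p.k + sv (cN m) p) ≤ ∑ m', Kn m m' * w1 m' p
  pp : ∀ m, ∀ p : Pt, p.Sat 0 0 0 → p = p.full →
    W p * (B true m p * Dk p.k + sv (cP m) p) ≤ ∑ m', Kp m m' * w1 m' p
  pe : ∀ m, ∀ p : Pt, p.Sat 0 0 0 → p = p.full → W p * sv (cW m) p ≤ ∑ m', Ke m m' * w1 m' p
  pm : ∀ m, ∀ p : Pt, p.Sat 0 0 0 → p = p.full →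
    W p * (B false m p * Dk p.k + sv (cH m) p) ≤ ∑ m', Km m m' * w1 m' p
  vt : ∀ m, ∀ (p : Pt) (x a b : ℝ), p.Sat x a b → W p.full * sv (cW m) p ≤ Θ m p
  vP : ∀ m, ∀ (p : Pt) (x a b : ℝ), p.Sat x a b → sv (cX m) p
    + ∑ m', (Kn m m' * (ν m' p + Φ false m' p)
      + Kp m m' * (κD * δ m' p + c4 * Φ true m' p)) ≤ -Φ' true m p
  vQ : ∀ m, ∀ (p : Pt) (x a b : ℝ), p.Sat x a b → sv (cY m) p
    + ∑ m', (Ke m m' * (κE * δ m' p + c1 * Φ true m' p)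
      + (Kp m m' * (ν m' p + Φ false m' p) + Km m m' * (κD * δ m' p + c4 * Φ true m' p)))
      ≤ -Φ' false m p
  oΘ : ∀ m, OLx Rp (fun x p => Wp x * W p.full * w1 m p.full) (CΘ m)
  CΘ0 : ∀ m, 0 ≤ CΘ m
  oX : ∀ m, OLx RDp (fun _ p => ∑ m', Kp m m' * w1 m' p.full) (dX m)
  dX0 : ∀ m, 0 ≤ dX m
  oY : ∀ m, OLg (fun _ p => REp * Θ m p + RDp * ∑ m', Km m m' * w1 m' p.full) (dY m)
  dY0 : ∀ m, 0 ≤ dY m
  gP : ∀ m, dX m + ∑ m', (Kn m m' * (Cν m' + C false m')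
    + Kp m m' * (κD * Cδ m' + c4 * C true m')) ≤ -C' true m
  gQ : ∀ m, dY m + ∑ m', (Ke m m' * (κE * Cδ m' + c1 * C true m')
      + (Kp m m' * (Cν m' + C false m') + Km m m' * (κD * Cδ m' + c4 * C true m')))
      ≤ -C' false m
  qn : ∀ m, ∀ (p : Pt) (x : ℝ), p.Sat x 0 (x * p.k) → x * Rp * (Wp x * W p.full)
    * (w1 m p.full + (CB false m * x + (B false m p + B false m p.full)) / 2)
      ≤ ∑ m', Kn m m' * w1 m' (pnd x p)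
  qp : ∀ m, ∀ (p : Pt) (x : ℝ), p.Sat x 0 (x * p.k) → x * Rp * (Wp x * W p.full)
    * ((CB true m * x + (B true m p + B true m p.full)) / 2) ≤ ∑ m', Kp m m' * w1 m' (pnd x p)
  qe : ∀ m, ∀ (p : Pt) (x : ℝ), p.Sat x 0 (x * p.k) → x * Rp * (Wp x * W p.full)
    * w1 m p.full ≤ ∑ m', Ke m m' * w1 m' (pnd x p)
  qm : ∀ m, ∀ (p : Pt) (x : ℝ), p.Sat x 0 (x * p.k) → x * Rp * (Wp x * W p.full)
    * ((CB false m * x + (B false m p + B false m p.full)) / 2)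
      ≤ ∑ m', Km m m' * w1 m' (pnd x p)

theorem LP1.cp1 {M : Type*} [Fintype M] {R : ℝ → ℝ} {Rp : ℝ} {W : Pt → ℝ} {Wp : ℝ → ℝ}
    {RD : ℝ → ℝ} {RDp : ℝ} {RE : ℝ → ℝ} {REp : ℝ} {w1 : M → Pt → ℝ} {B : Bool → M → Pt → ℝ}
    {CB : Bool → M → ℝ} {Θ : M → Pt → ℝ} {CΘ : M → ℝ} {ν δ : M → Pt → ℝ} {Cν Cδ : M → ℝ}
    {κD κE c1 c4 : ℝ} {Φ Φ' : Bool → M → Pt → ℝ} {C C' : Bool → M → ℝ}
    {Kn Kp Ke Km : M → M → ℝ} {Dk : ℝ → ℝ} {cD : Ec} {cN cP cH cW cX cY : M → Ec}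
    {dX dY : M → ℝ}
    (h : LP1 R Rp W Wp RD RDp RE REp w1 B CB Θ CΘ ν δ Cν Cδ κD κE c1 c4 Φ Φ' C C' Kn Kp Ke Km
      Dk cD cN cP cH cW cX cY dX dY) :
    CP1 R Rp W Wp RD RDp RE REp w1 B CB Θ CΘ ν δ Cν Cδ κD κE c1 c4 Φ Φ' C C' Kn Kp Ke Km where
  kn := fun m p hp hf => by
    have w1 := h.W1 p _ _ _ hp
    exact pos_el (w := fun q => _) (by linarith : 0 ≤ W p.full) (h.B0 false m p hp hf) hf h.eD
      (h.eN m) (h.D p hp hf) (h.pn m p hp hf)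
  kp := fun m p hp hf => by
    have w1 := h.W1 p _ _ _ hp
    obtain ⟨c, h1, h2⟩ := pos_el (w := fun _ => 0) (by linarith : 0 ≤ W p.full)
      (h.B0 true m p hp hf) hf h.eD (by simpa only [zero_add] using h.eP m) (h.D p hp hf)
      (h.pp m p hp hf)
    exact ⟨c, by simpa only [zero_add] using h1, h2⟩
  ke := fun m p hp hf => by
    have w1 := h.W1 p _ _ _ hp
    refine ⟨(cW m).smul (W p.full), ?_, ?_⟩
    · refine (((h.eW m).at' p.k p.H).smul (by linarith : 0 ≤ W p.full)).cg (fun q => ?_)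
        fun q => ?_
      · ring
      · ring
    · rw [sv_smul]
      have := h.pe m p hp hf
      rw [hf] at this ⊢
      exact this
  km := fun m p hp hf => by
    have w1 := h.W1 p _ _ _ hp
    obtain ⟨c, h1, h2⟩ := pos_el (w := fun _ => 0) (by linarith : 0 ≤ W p.full)
      (h.B0 false m p hp hf) hf h.eD (by simpa only [zero_add] using h.eH m) (h.D p hp hf)
      (h.pm m p hp hf)
    exact ⟨c, by simpa only [zero_add] using h1, h2⟩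
  qn := h.qn
  qp := h.qp
  qe := h.qe
  qm := h.qm
  tΘ := fun m p ⟨x, a, b, hp⟩ => by
    have w1 := h.W1 p x a b hp
    refine ⟨(cW m).smul (W p.full), ?_, ?_⟩
    · refine (((h.eW m).at' p.k p.H).smul (by linarith : 0 ≤ W p.full)).cg (fun q => ?_)
        fun q => ?_
      · ring
      · ring
    · rw [sv_smul]
      exact h.vt m p x a b hp
  oΘ := h.oΘ
  CΘ0 := h.CΘ0
  vP := fun m p ⟨x, a, b, hp⟩ => ⟨cX m, (h.eX m).at' p.k p.H, h.vP m p x a b hp⟩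
  vQ := fun m p ⟨x, a, b, hp⟩ => by
    obtain ⟨c6, c7, h1, h2⟩ := h.eY m
    exact ⟨cY m, ⟨c6, c7, fun q y hq => h1 q y _ _ hq, fun q y hq => h2 q y _ _ hq⟩,
      h.vQ m p x a b hp⟩
  oP := fun m => ⟨dX m, h.dX0 m, h.oX m, h.gP m⟩
  oQ := fun m => ⟨dY m, h.dY0 m, h.oY m, h.gQ m⟩

/-- a kernel sum from one line -/
theorem kln_of {R : ℝ → ℝ} {Rp : ℝ} {G Gp : Pt → ℝ} {c : Ec} {Φ : Pt → ℝ}
    (h : ELn R Rp G Gp c)
    (hΦ : ∀ (p : Pt) (x a b : ℝ), p.Sat x a b → sv c p ≤ Φ p) :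
    KLn R Rp (fun _ => G) (fun _ => Gp) Φ :=
  fun p ⟨x, a, b, hp⟩ => ⟨c, h.at' p.k p.H, hΦ p x a b hp⟩

end Pool.Agent.RZ.RCO
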