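import Pool.Agent.RZ.RCO.Ex15
import Pool.Agent.RZ.RCO.Gs9_2
import Pool.Agent.RZ.RCO.GsL

/-! The sum of level 2 from checks at single times (MP_73ccd0_lc). -/

namespace Pool.Agent.RZ.RCO

open Set Finset Pool.Agent.RZ.RCM

set_option linter.unusedSectionVars false

variable {V : Type*} [Fintype V] [DecidableEq V]

/-! ### the checks -/

/-- **the checks of the sum of level 2 at one time**: `Ψn, Ψd` bound `N + Q` and `D + c4 P` of the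
targets at the neighbours, `w1` the weights of the positions of the other system, `RD` its kernel of
the pairs, `ν, δ` the rows of its end values, `Φ` its position sums, `-K'` the slope of the sum;
the last line only at full points -/
structure CK1 {M : Type*} [Fintype M] (R : ℝ → ℝ) (Rp : ℝ) (W : Pt → ℝ) (Wp : ℝ → ℝ)
    (w1 : M → Pt → ℝ) (Ψn Ψd : Pt → ℝ) (Cn Cd : ℝ) (RD : ℝ → ℝ) (RDp : ℝ) (ν δ : M → Pt → ℝ)
    (κD c4 : ℝ) (Φ : Bool → M → Pt → ℝ) (K' : Pt → ℝ) (Gn Ge : M → ℝ) : Prop where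
  pn : ∀ p : Pt, p.Sat 0 0 0 → p = p.full → ∃ c : Ec, EL p.k p.H R Rp
    (fun q => W p.full * W q.full * (Ψn p + (Ψn q + Ψn q.full) / 2))
    (fun q => W p.full * Wp q.M * (Ψn p + Cn * q.M / 2)) c ∧ sv c p ≤ ∑ m, Gn m * w1 m p
  pd : ∀ p : Pt, p.Sat 0 0 0 → p = p.full → ∃ c : Ec, EL p.k p.H R Rp
    (fun q => W p.full * W q.full * (Ψd p + (Ψd q + Ψd q.full) / 2))
    (fun q => W p.full * Wp q.M * (Ψd p + Cd * q.M / 2)) c ∧ sv c p ≤ ∑ m, Ge m * w1 m p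
  qn : ∀ (p : Pt) (x : ℝ), p.Sat x 0 (x * p.k) → x * Rp * (Wp x * W p.full)
    * ((Cn * x + (Ψn p + Ψn p.full)) / 2) ≤ ∑ m, Gn m * w1 m (pnd x p)
  qd : ∀ (p : Pt) (x : ℝ), p.Sat x 0 (x * p.k) → x * Rp * (Wp x * W p.full)
    * ((Cd * x + (Ψd p + Ψd p.full)) / 2) ≤ ∑ m, Ge m * w1 m (pnd x p)
  vK : ∀ p : Pt, p.Sat 0 0 0 → p = p.full → ∃ c : Ec, EL p.k p.H RD RDp
    (fun q => ∑ m, Gn m * w1 m q.full) (fun q => ∑ m, Gn m * w1 m q.full) c ∧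
    sv c p + ∑ m, (Gn m * (κD * δ m p + c4 * Φ true m p) + Ge m * (ν m p + Φ false m p))
      ≤ -K' p

section chk

variable {M : Type*} [Fintype M] {R : ℝ → ℝ} {Rp : ℝ} {W : Pt → ℝ} {Wp : ℝ → ℝ}
    {w1 : M → Pt → ℝ} {Ψn Ψd : Pt → ℝ} {Cn Cd : ℝ} {RD : ℝ → ℝ} {RDp : ℝ} {ν δ : M → Pt → ℝ}
    {κD c4 : ℝ} {Φ : Bool → M → Pt → ℝ} {K' : Pt → ℝ} {Gn Ge : M → ℝ}

/-- the checks are antitone in the position sums -/
theorem CK1.anti (h : CK1 R Rp W Wp w1 Ψn Ψd Cn Cd RD RDp ν δ κD c4 Φ K' Gn Ge)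
    {Φ0 : Bool → M → Pt → ℝ} (hΦ : ∀ s m p, Sa p → Φ0 s m p ≤ Φ s m p) (Gn0 : ∀ m, 0 ≤ Gn m)
    (Ge0 : ∀ m, 0 ≤ Ge m) (c40 : 0 ≤ c4) :
    CK1 R Rp W Wp w1 Ψn Ψd Cn Cd RD RDp ν δ κD c4 Φ0 K' Gn Ge where
  pn := h.pn
  pd := h.pd
  qn := h.qn
  qd := h.qd
  vK := fun p hp hf => by
    have hs : Sa p := ⟨0, 0, 0, hp⟩
    obtain ⟨c, h1, h2⟩ := h.vK p hp hf
    refine ⟨c, h1, le_trans (add_le_add le_rfl (Finset.sum_le_sum fun m _ => ?_)) h2⟩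
    exact add_le_add (mul_le_mul_of_nonneg_left (add_le_add le_rfl
      (mul_le_mul_of_nonneg_left (hΦ _ _ p hs) c40)) (Gn0 m))
      (mul_le_mul_of_nonneg_left (add_le_add le_rfl (hΦ _ _ p hs)) (Ge0 m))

end chk

/-- **the lines of the sum of level 2 at one time**: `cD` the removal sum, `bn, bd` the half forms of
`Ψn, Ψd` (the vectors of the target sums), `cX` the kernel sum -/
structure LK1 {M : Type*} [Fintype M] (R : ℝ → ℝ) (Rp : ℝ) (W : Pt → ℝ) (Wp : ℝ → ℝ)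
    (w1 : M → Pt → ℝ) (Ψn Ψd : Pt → ℝ) (Cn Cd : ℝ) (RD : ℝ → ℝ) (RDp : ℝ) (ν δ : M → Pt → ℝ)
    (κD c4 : ℝ) (Φ : Bool → M → Pt → ℝ) (K' : Pt → ℝ) (Gn Ge : M → ℝ) (Dk : ℝ → ℝ)
    (cD bn bd cX : Ec) : Prop where
  W1 : ∀ (p : Pt) (x a b : ℝ), p.Sat x a b → 1 ≤ W p.full
  Ψn0 : ∀ p : Pt, p.Sat 0 0 0 → p = p.full → 0 ≤ Ψn p
  Ψd0 : ∀ p : Pt, p.Sat 0 0 0 → p = p.full → 0 ≤ Ψd p
  eD : ELn R Rp (fun q => W q.full) (fun q => Wp q.M) cD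
  hn : ELn R Rp (fun q => W q.full * ((Ψn q + Ψn q.full) / 2)) (fun q => Wp q.M * (Cn * q.M / 2))
    bn
  hd : ELn R Rp (fun q => W q.full * ((Ψd q + Ψd q.full) / 2)) (fun q => Wp q.M * (Cd * q.M / 2))
    bd
  D : ∀ p : Pt, p.Sat 0 0 0 → p = p.full → sv cD p ≤ Dk p.k
  eX : ELn RD RDp (fun q => ∑ m, Gn m * w1 m q.full) (fun q => ∑ m, Gn m * w1 m q.full) cX
  pn : ∀ p : Pt, p.Sat 0 0 0 → p = p.full →
    W p * (Ψn p * Dk p.k + sv bn p) ≤ ∑ m, Gn m * w1 m p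
  pd : ∀ p : Pt, p.Sat 0 0 0 → p = p.full →
    W p * (Ψd p * Dk p.k + sv bd p) ≤ ∑ m, Ge m * w1 m p
  qn : ∀ (p : Pt) (x : ℝ), p.Sat x 0 (x * p.k) → x * Rp * (Wp x * W p.full)
    * ((Cn * x + (Ψn p + Ψn p.full)) / 2) ≤ ∑ m, Gn m * w1 m (pnd x p)
  qd : ∀ (p : Pt) (x : ℝ), p.Sat x 0 (x * p.k) → x * Rp * (Wp x * W p.full)
    * ((Cd * x + (Ψd p + Ψd p.full)) / 2) ≤ ∑ m, Ge m * w1 m (pnd x p)
  vK : ∀ p : Pt, p.Sat 0 0 0 → p = p.full → sv cX p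
    + ∑ m, (Gn m * (κD * δ m p + c4 * Φ true m p) + Ge m * (ν m p + Φ false m p)) ≤ -K' p

theorem LK1.ck1 {M : Type*} [Fintype M] {R : ℝ → ℝ} {Rp : ℝ} {W : Pt → ℝ} {Wp : ℝ → ℝ}
    {w1 : M → Pt → ℝ} {Ψn Ψd : Pt → ℝ} {Cn Cd : ℝ} {RD : ℝ → ℝ} {RDp : ℝ} {ν δ : M → Pt → ℝ}
    {κD c4 : ℝ} {Φ : Bool → M → Pt → ℝ} {K' : Pt → ℝ} {Gn Ge : M → ℝ} {Dk : ℝ → ℝ}
    {cD bn bd cX : Ec}
    (h : LK1 R Rp W Wp w1 Ψn Ψd Cn Cd RD RDp ν δ κD c4 Φ K' Gn Ge Dk cD bn bd cX) :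
    CK1 R Rp W Wp w1 Ψn Ψd Cn Cd RD RDp ν δ κD c4 Φ K' Gn Ge where
  pn := fun p hp hf => by
    have w1 := h.W1 p _ _ _ hp
    obtain ⟨c, h1, h2⟩ := pos_el (w := fun _ => 0) (by linarith : 0 ≤ W p.full)
      (h.Ψn0 p hp hf) hf h.eD (by simpa only [zero_add] using h.hn) (h.D p hp hf)
      (h.pn p hp hf)
    exact ⟨c, by simpa only [zero_add] using h1, h2⟩
  pd := fun p hp hf => by
    have w1 := h.W1 p _ _ _ hp
    obtain ⟨c, h1, h2⟩ := pos_el (w := fun _ => 0) (by linarith : 0 ≤ W p.full)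
      (h.Ψd0 p hp hf) hf h.eD (by simpa only [zero_add] using h.hd) (h.D p hp hf)
      (h.pd p hp hf)
    exact ⟨c, by simpa only [zero_add] using h1, h2⟩
  qn := h.qn
  qd := h.qd
  vK := fun p hp hf => ⟨cX, h.eX.at' p.k p.H, h.vK p hp hf⟩

/-! ### the data over time -/

/-- **the checks of the sum of level 2 over time**; `K r p` the bound at the point of the vertex -/
structure KcOk {M : Type*} [Fintype M] (σ : ℝ) (S : Finset ℝ) (R : ℝ → ℝ → ℝ) (Rp : ℝ → ℝ)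
    (W : ℝ → Pt → ℝ) (Wp : ℝ → ℝ → ℝ) (w1 : M → Pt → ℝ) (Ψn Ψd : ℝ → Pt → ℝ) (Cn Cd : ℝ → ℝ)
    (RD : ℝ → ℝ → ℝ) (RDp : ℝ → ℝ) (ν δ : M → Pt → ℝ) (κD c4 : ℝ → ℝ)
    (Φ : Bool → M → ℝ → Pt → ℝ) (K K' : ℝ → Pt → ℝ) (Gn Ge : M → ℝ → ℝ) : Prop where
  cK : ∀ p, ContinuousOn (fun r => K r p) (Icc 0 σ)
  dK : ∀ p, ∀ r ∈ Icc 0 σ, r ∉ S → HasDerivAt (fun r => K r p) (K' r p) r
  K0 : ∀ p : Pt, p.Sat 0 0 0 → p = p.full → 0 ≤ K σ p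
  Gn0 : ∀ m, ∀ r ∈ Icc 0 σ, 0 ≤ Gn m r
  Ge0 : ∀ m, ∀ r ∈ Icc 0 σ, 0 ≤ Ge m r
  ck : ∀ r ∈ Icc 0 σ, r ∉ S → CK1 (R r) (Rp r) (W r) (Wp r) w1 (Ψn r) (Ψd r) (Cn r) (Cd r)
    (RD r) (RDp r) ν δ (κD r) (c4 r) (fun s m => Φ s m r) (K' r) (fun m => Gn m r)
    fun m => Ge m r

/-- the bounds of one group of targets, the same at all vertices -/
noncomputable def kcl {J : Type*} [Fintype J] [Nonempty J] (x : V → V → ℝ) (P : V → Prop)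
    (D : Finset V) (fw : V → ℝ) (f : Fam J) (NB DB EB : V → Finset V → ℝ → ℝ) :
    VrT V Unit where
  f := fun _ _ c _ => fw c
  N := fun _ => NB
  D := fun _ => DB
  E := fun _ => EB
  P := fun _ => f.n x P D true
  Q := fun _ => f.n x P D false

/-- entries at the full world -/
def fuK {M : Type*} (a : M → ℝ → ℝ) : M × Option V → ℝ → ℝ :=
  fun m r => if m.2 = none then a m.1 r else 0

theorem fuK_nonneg {M : Type*} {a : M → ℝ → ℝ} {r : ℝ} (h : ∀ m, 0 ≤ a m r)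
    (m : M × Option V) : 0 ≤ fuK a m r := by
  unfold fuK
  split_ifs
  · exact h _
  · exact le_rfl

theorem fuK_sum {M : Type*} [Fintype M] (a : M → ℝ → ℝ) (r : ℝ) (g : M × Option V → ℝ) :
    ∑ m, fuK a m r * g m = ∑ m, a m r * g (m, none) :=
  sum_opt (fun m => a m r) g none

/-! ### the condition of the sum of level 2 -/

section kcd

variable {x : V → V → ℝ} {P : V → Prop} {D : Finset V} {σ : ℝ} {S : Finset ℝ}
  {hb T : ℝ → V → V → ℝ} {R : ℝ → ℝ → ℝ} {Rp : ℝ → ℝ} {W : ℝ → Pt → ℝ} {Wp : ℝ → ℝ → ℝ}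
-- the system of the targets
variable {A J M Λ : Type*} [Fintype J] [Nonempty J] [Fintype M] [Nonempty M]
  {Dd Ee : Finset V → V → V → ℝ → ℝ} {c1 c4 : ℝ → ℝ} {wv : Λ → Pt → ℝ}
  {bf : Bool → Λ → V → Finset V → ℝ → ℝ} {fw : A → V → ℝ} {f : A → Fam J}
  {NB DB EB : A → V → Finset V → ℝ → ℝ} {Gn Gd : A → J → Λ → ℝ → ℝ}
  {w1 : M → Pt → ℝ} {bf1 : Bool → M → V → Finset V → ℝ → ℝ} {g : Fam M}
  {Dk Ek : ℝ → V → V → ℝ} {κD κE : ℝ → ℝ} {νf δf : M → V → Finset V → ℝ}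
  {Kn Kp Ke Km : M → M → ℝ → ℝ}
-- the system of the positions
variable {A' J' M' Λ' : Type*} [Fintype J'] [Nonempty J'] [Fintype M'] [Nonempty M']
  {Dd' Ee' : Finset V → V → V → ℝ → ℝ} {c1' c4' : ℝ → ℝ} {wv' : Λ' → Pt → ℝ}
  {bf' : Bool → Λ' → V → Finset V → ℝ → ℝ} {fw' : A' → V → ℝ} {f' : A' → Fam J'}
  {NB' DB' EB' : A' → V → Finset V → ℝ → ℝ} {Gn' Gd' : A' → J' → Λ' → ℝ → ℝ}
  {w1' : M' → Pt → ℝ} {bf1' : Bool → M' → V → Finset V → ℝ → ℝ} {g' : Fam M'}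
  {Dk' Ek' : ℝ → V → V → ℝ} {κD' κE' : ℝ → ℝ} {νf' δf' : M' → V → Finset V → ℝ}
  {Kn' Kp' Ke' Km' : M' → M' → ℝ → ℝ}
-- the checks
variable {Ψn Ψd : ℝ → Pt → ℝ} {Cn Cd : ℝ → ℝ} {RD : ℝ → ℝ → ℝ} {RDp : ℝ → ℝ}
  {ν δ : M' → Pt → ℝ} {Cν Cδ : M' → ℝ} {K K' : ℝ → Pt → ℝ} {Gk Gl : M' → ℝ → ℝ}

/-- **the condition of the sum of level 2 from the checks** -/
theorem KcOk.kcd (env : WEnv x P D σ S hb T R Rp W Wp)
    (h : KcOk σ S R Rp W Wp w1' Ψn Ψd Cn Cd RD RDp ν δ κD' c4' g'.Φ K K' Gk Gl) (a : A)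
    (fn : ∀ r ∈ Icc 0 σ, r ∉ S → FB x P D
      (fun v G => NB a v G r + (f a).n x P D false v G r) (Ψn r) (Cn r))
    (fd : ∀ r ∈ Icc 0 σ, r ∉ S → FB x P D
      (fun v G => DB a v G r + c4 r * (f a).n x P D true v G r) (Ψd r) (Cd r))
    (krD : ∀ r ∈ Icc 0 σ, r ∉ S → Krn x P (Dk' r) (RD r) (RDp r))
    (κD0 : ∀ r ∈ Icc 0 σ, 0 ≤ κD' r) (w10 : ∀ m, ∀ v ∈ Dᶜ, 0 ≤ w1' m (fp x D v))
    (fν : ∀ m, FB x P D (νf' m) (ν m) (Cν m)) (fδ : ∀ m, FB x P D (δf' m) (δ m) (Cδ m))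
    {d : V} (hd : d ∈ Dᶜ) (hPd : P d) {f0 : V → ℝ} (hf0 : ∀ c ∈ Dᶜ, f0 c ≤ fw a c) :
    KcD Dᶜ σ S T
      (mkS1 x P D T Dd Ee c1 c4 wv bf fw f NB DB EB Gn Gd w1 bf1 g Dk Ek κD κE νf δf
        Kn Kp Ke Km)
      (kcl x P D (fw a) (f a) (NB a) (DB a) (EB a))
      (mkS1 x P D T Dd' Ee' c1' c4' wv' bf' fw' f' NB' DB' EB' Gn' Gd' w1' bf1' g' Dk' Ek'
        κD' κE' νf' δf' Kn' Kp' Ke' Km')
      d f0 (fuK Gk) (fuK Gl) (fun r => K r (fp x D d)) fun r => K' r (fp x D d) where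
  fle := fun _ _ _ _ _ c hc => hf0 c (Finset.mem_of_mem_erase (Finset.mem_of_mem_erase hc))
  iN := fun _ _ _ _ _ _ _ _ _ => ⟨(a, Classical.arbitrary J, none), fun _ _ => le_rfl, le_rfl⟩
  iD := fun _ _ _ _ _ _ _ _ _ => ⟨(a, Classical.arbitrary J, none), fun _ _ => le_rfl, le_rfl⟩
  iP := fun _ v _ G _ _ r _ _ => by
    obtain ⟨l, hl⟩ := (f a).ex x P D true v G r
    exact ⟨(a, l), fun _ _ => le_rfl, hl⟩
  iQ := fun _ v _ G _ _ r _ _ => by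
    obtain ⟨l, hl⟩ := (f a).ex x P D false v G r
    exact ⟨(a, l), fun _ _ => le_rfl, hl⟩
  Gn0 := fun m r hr => fuK_nonneg (fun m => h.Gn0 m r hr) m
  Ge0 := fun m r hr => fuK_nonneg (fun m => h.Ge0 m r hr) m
  kn := fun r hr hrS v hv => by
    have ck := h.ck r hr hrS
    rw [fuK_sum]
    exact pos_fb env.hP env.hx env.hD (env.kr r hr hrS) (env.tb r hr hrS) (fn r hr hrS) w10
      (fun m => h.Gn0 m r hr) ck.pn ck.qn (Finset.erase_subset _ _) hv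
  ke := fun r hr hrS v hv => by
    have ck := h.ck r hr hrS
    rw [fuK_sum]
    exact pos_fb env.hP env.hx env.hD (env.kr r hr hrS) (env.tb r hr hrS) (fd r hr hrS) w10
      (fun m => h.Ge0 m r hr) ck.pd ck.qd (Finset.erase_subset _ _) hv
  cK := h.cK _
  dK := h.dK _
  K0 := h.K0 _ (sat_fp env.hP env.hx env.hD hd hPd) rfl
  hK := fun r hr hrS => by
    have hP := env.hP
    have hx := env.hx
    have hD := env.hD
    obtain ⟨cc, l1, l2⟩ := (h.ck r hr hrS).vK _ (sat_fp hP hx hD hd hPd) rfl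
    have eH : (fp x D d).H = hk x D d := hk_eq hx D d
    rw [eH] at l1
    have sub : Dᶜ.erase d ⊆ Dᶜ := Finset.erase_subset _ _
    have nd := Finset.notMem_erase d Dᶜ
    rw [Finset.sum_add_distrib, fuK_sum, fuK_sum, ← Finset.sum_add_distrib]
    have a0 : ∀ b ∈ Dᶜ, 0 ≤ ∑ m, Gk m r * w1' m (fp x D b) := fun b hb =>
      Finset.sum_nonneg fun m _ => mul_nonneg (h.Gn0 m r hr) (w10 m b hb)
    have t1 := FB.ksum_l hP hx hD (krD r hr hrS) l1 subset_rfl sub hd nd hPd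
      (g := fun e => ∑ m, Gk m r * w1' m (fp x D e))
      (fun b hb => a0 b (sub hb)) (fun b hb _ => le_rfl) (fun b hb _ _ => le_rfl)
      (fun b hb _ => a0 b (sub hb)) fun b hb _ _ => a0 b (sub hb)
    have e1 : ∑ e ∈ Dᶜ.erase d, Dk' r d e * (∑ m, Gk m r * w1' m (fp x D e))
        = ∑ m, Gk m r * ∑ e ∈ Dᶜ.erase d, Dk' r d e * w1' m (fp x D e) := by
      simp only [Finset.mul_sum]
      rw [Finset.sum_comm]
      exact Finset.sum_congr rfl fun m' _ => Finset.sum_congr rfl fun e _ => by ring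
    have t2 : ∑ m, (Gk m r * (κD' r * δf' m d (Dᶜ.erase d) + c4' r * g'.Φ true m r (fp x D d))
          + Gl m r * (νf' m d (Dᶜ.erase d) + g'.Φ false m r (fp x D d)))
        ≤ ∑ m, (Gk m r * (κD' r * δ m (fp x D d) + c4' r * g'.Φ true m r (fp x D d))
          + Gl m r * (ν m (fp x D d) + g'.Φ false m r (fp x D d))) := by
      refine Finset.sum_le_sum fun m _ => ?_
      have b1 := (fν m).fu d hd hPd (Dᶜ.erase d) sub nd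
      have b2 := mul_le_mul_of_nonneg_left ((fδ m).fu d hd hPd (Dᶜ.erase d) sub nd) (κD0 r hr)
      exact add_le_add (mul_le_mul_of_nonneg_left (by linarith) (h.Gn0 m r hr))
        (mul_le_mul_of_nonneg_left (by linarith) (h.Ge0 m r hr))
    have e2 : ∀ s m, g'.v x P D s (m, none) d (Dᶜ.erase d) r = g'.Φ s m r (fp x D d) :=
      fun s m => vf_l hPd _
    have e3 : ∑ m, (Gk m r * ((∑ e ∈ Dᶜ.erase d, Dk' r d e * w1' m (fp x D e)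
            + κD' r * δf' m d (Dᶜ.erase d)) + c4' r * g'.v x P D true (m, none) d (Dᶜ.erase d) r)
          + Gl m r * (νf' m d (Dᶜ.erase d) + g'.v x P D false (m, none) d (Dᶜ.erase d) r))
        = ∑ e ∈ Dᶜ.erase d, Dk' r d e * (∑ m, Gk m r * w1' m (fp x D e))
          + ∑ m, (Gk m r * (κD' r * δf' m d (Dᶜ.erase d) + c4' r * g'.Φ true m r (fp x D d))
          + Gl m r * (νf' m d (Dᶜ.erase d) + g'.Φ false m r (fp x D d))) := by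
      rw [e1, ← Finset.sum_add_distrib]
      exact Finset.sum_congr rfl fun m _ => by rw [e2, e2]; ring
    refine (le_of_eq e3).trans ?_
    linarith

/-- **the condition of the sum of level 2 from the checks**, the targets from a group on `[0, τ1]`,
the kernels of the positions on `[0, τ2]` -/
theorem KcOk.kcd_grp {Λw : Type*} [Fintype Λw] {wv0 : Λw → Pt → ℝ}
    {N0 Dd0 Ee0 : Finset V → V → V → ℝ → ℝ} {B0 : Bool → Λw → ℝ → Pt → ℝ}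
    {CB0 : Bool → Λw → ℝ → ℝ} {Gn0 Gd0 : J → Λw → ℝ → ℝ} {Ψe : ℝ → Pt → ℝ} {Ce : ℝ → ℝ}
    {Fe' : Finset V → V → V → ℝ} {RE : ℝ → ℝ → ℝ} {REp : ℝ → ℝ} {τ1 τ2 : ℝ}
    (env : WEnv x P D σ S hb T R Rp W Wp)
    (h : KcOk σ S R Rp W Wp w1' Ψn Ψd Cn Cd RD RDp ν δ κD' c4' g'.Φ K K' Gk Gl) (a : A)
    (hg : GrpOk x P D τ1 S R Rp W Wp N0 Dd0 Ee0 c1 c4 wv0 B0 CB0 (fw a) (f a) (NB a) (DB a)
      (EB a) Ψn Ψe Ψd Cn Ce Cd Gn0 Gd0) (h1 : σ ≤ τ1)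
    (hK : KrE x P D τ2 S Fe' Dd' Ee' Dk' Ek' RD RE RDp REp κD' κE') (h2 : σ ≤ τ2)
    (w10 : ∀ m, ∀ v ∈ Dᶜ, 0 ≤ w1' m (fp x D v))
    (fν : ∀ m, FB x P D (νf' m) (ν m) (Cν m)) (fδ : ∀ m, FB x P D (δf' m) (δ m) (Cδ m))
    {d : V} (hd : d ∈ Dᶜ) (hPd : P d) {f0 : V → ℝ} (hf0 : ∀ c ∈ Dᶜ, f0 c ≤ fw a c) :
    KcD Dᶜ σ S T
      (mkS1 x P D T Dd Ee c1 c4 wv bf fw f NB DB EB Gn Gd w1 bf1 g Dk Ek κD κE νf δf
        Kn Kp Ke Km)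
      (kcl x P D (fw a) (f a) (NB a) (DB a) (EB a))
      (mkS1 x P D T Dd' Ee' c1' c4' wv' bf' fw' f' NB' DB' EB' Gn' Gd' w1' bf1' g' Dk' Ek'
        κD' κE' νf' δf' Kn' Kp' Ke' Km')
      d f0 (fuK Gk) (fuK Gl) (fun r => K r (fp x D d)) fun r => K' r (fp x D d) :=
  h.kcd env a (fun r hr hrS => hg.fn r ⟨hr.1, hr.2.trans h1⟩ hrS)
    (fun r hr hrS => hg.fd r ⟨hr.1, hr.2.trans h1⟩ hrS)
    (fun r hr hrS => hK.krD r ⟨hr.1, hr.2.trans h2⟩ hrS)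
    (fun r hr => hK.κD0 r ⟨hr.1, hr.2.trans h2⟩) w10 fν fδ hd hPd hf0

end kcd

/-! ### the tables -/

/-- the tables of the sum of level 2; all functions of the table time -/
structure TK1 (M : Type*) where
  k : ℕ → Tq
  Gn : M → ℝ → ℝ
  Ge : M → ℝ → ℝ

/-- **the checks of the tables of the sum of level 2**: `E` the rates and the kernels of the system
of the positions, `Φu` its used position sums, `Ψ, C` the used functions of the targets -/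
structure TK1.Ok {M : Type*} [Fintype M] (FF : (ℕ → ℝ) → Pt → ℝ) (N : ℕ) (t : ℕ → ℝ) (n : ℕ)
    (E : TEnv) (w1 : M → Pt → ℝ) (Ψn Ψd : ℝ → Pt → ℝ) (Cn Cd : ℝ → ℝ) (ν δ : M → Pt → ℝ)
    (Φu : Bool → M → ℝ → Pt → ℝ) (d : TK1 M) : Prop where
  k : ∀ i < N, (d.k i).Ok t n
  e0 : ∀ p : Pt, p.Sat 0 0 0 → p = p.full → 0 ≤ FF (fun i => (d.k i).w n) p
  Gn0 : ∀ m, ∀ ρ ∈ Icc (t 0) (t n), 0 ≤ d.Gn m ρ
  Ge0 : ∀ m, ∀ ρ ∈ Icc (t 0) (t n), 0 ≤ d.Ge m ρ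
  C : ∀ ρ ∈ Icc (t 0) (t n), CK1 (E.R ρ) (E.Rp ρ) (E.W ρ) (E.Wp ρ) w1 (Ψn ρ) (Ψd ρ) (Cn ρ) (Cd ρ)
    (E.RD ρ) (E.RDp ρ) ν δ (E.κD ρ) (E.c4 ρ) (fun s m => Φu s m ρ)
    (fun p => -FF (fun i => (d.k i).sl t n ρ) p) (fun m => d.Gn m ρ) fun m => d.Ge m ρ

section tab

variable {M : Type*} [Fintype M] {FF : (ℕ → ℝ) → Pt → ℝ} {N : ℕ} {ft : ℕ → Pt → ℝ}
  {t : ℕ → ℝ} {n : ℕ} {E : TEnv} {w1 : M → Pt → ℝ} {Ψn Ψd : ℝ → Pt → ℝ} {Cn Cd : ℝ → ℝ}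
  {ν δν : M → Pt → ℝ} {Φu : Bool → M → ℝ → Pt → ℝ} {d : TK1 M} {σ δ : ℝ}

/-- the function of the tables, shifted -/
noncomputable def TK1.K (FF : (ℕ → ℝ) → Pt → ℝ) (t : ℕ → ℝ) (n : ℕ) (d : TK1 M) (δ r : ℝ)
    (p : Pt) : ℝ := FF (fun i => (d.k i).f t n (r + δ)) p

/-- **the function is at most the used one** -/
theorem TK1.Ok.le (h : d.Ok FF N t n E w1 Ψn Ψd Cn Cd ν δν Φu) (hF : Lf FF N ft)
    (hm : Msh t n) (hn : 0 < n) {r : ℝ} (hr : r + δ ∈ Icc (t 0) (t n)) {p : Pt} (hp : p.Ok) :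
    d.K FF t n δ r p ≤ FF (fun i => (d.k i).up t n (r + δ)) p :=
  hF.mono hp fun i hi => (h.k i hi).le hm hn hr

/-- **the conditions over time from the tables** -/
theorem TK1.Ok.kc (h : d.Ok FF N t n E w1 Ψn Ψd Cn Cd ν δν Φu) (hF : Lf FF N ft)
    (h0 : t 0 ≤ δ) (h1 : σ + δ ≤ t n)
    (hs : σ + δ = t n ∨ ∀ ρ ∈ Icc (t 0) (t n), ∀ p : Pt, p.Sat 0 0 0 → p = p.full →
      0 ≤ FF (fun i => (d.k i).sl t n ρ) p)
    (σ0 : 0 ≤ σ) (c40 : ∀ ρ ∈ Icc (t 0) (t n), 0 ≤ E.c4 ρ) (S : Finset ℝ)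
    {Φ : Bool → M → ℝ → Pt → ℝ}
    (hΦ : ∀ s m, ∀ r ∈ Icc 0 σ, ∀ p, Sa p → Φ s m r p ≤ Φu s m (r + δ) p) :
    KcOk σ S (fun r => E.R (r + δ)) (fun r => E.Rp (r + δ)) (fun r => E.W (r + δ))
      (fun r => E.Wp (r + δ)) w1 (fun r => Ψn (r + δ)) (fun r => Ψd (r + δ))
      (fun r => Cn (r + δ)) (fun r => Cd (r + δ)) (fun r => E.RD (r + δ))
      (fun r => E.RDp (r + δ)) ν δν (fun r => E.κD (r + δ)) (fun r => E.c4 (r + δ)) Φ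
      (d.K FF t n δ) (fun r p => -FF (fun i => (d.k i).sl t n (r + δ)) p)
      (fun m r => d.Gn m (r + δ)) fun m r => d.Ge m (r + δ) := by
  have mem : ∀ r ∈ Icc 0 σ, r + δ ∈ Icc (t 0) (t n) := fun r hr =>
    ⟨by linarith [hr.1], by linarith [hr.2]⟩
  have dΦ : ∀ (p : Pt) (r : ℝ), HasDerivAt (fun r => FF (fun i => (d.k i).f t n r) p)
      (-FF (fun i => (d.k i).sl t n r) p) r := fun p r => by
    rw [← hF.neg]
    exact hF.deriv (f' := fun r i => -(d.k i).sl t n r) fun i _ => Tq.deriv t n _ r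
  have sh : ∀ {f : ℝ → ℝ} {f' : ℝ} {r : ℝ}, HasDerivAt f f' (r + δ) →
      HasDerivAt (fun r => f (r + δ)) f' r := fun {f f' r} hf => by
    have := hf.comp r ((hasDerivAt_id r).add_const δ)
    rwa [mul_one] at this
  exact {
    cK := fun p r _ => (sh (dΦ p (r + δ))).continuousAt.continuousWithinAt
    dK := fun p r _ _ => sh (dΦ p (r + δ))
    K0 := fun p hp hf => by
      have he : 0 ≤ FF (fun i => (d.k i).f t n (t n)) p := by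
        have e : (fun i => (d.k i).f t n (t n)) = fun i => (d.k i).w n :=
          funext fun i => Tq.end' t n _
        rw [e]
        exact h.e0 p hp hf
      rcases hs with e | hs
      · show 0 ≤ FF (fun i => (d.k i).f t n (σ + δ)) p
        rw [e]
        exact he
      · exact nonneg_of_slope (f := fun r => FF (fun i => (d.k i).f t n r) p)
          (f' := fun r => FF (fun i => (d.k i).sl t n r) p) (a := t 0) (b := t n)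
          (fun r => dΦ p r) (fun r hr => hs r hr p hp hf) he _ (mem σ ⟨σ0, le_rfl⟩)
    Gn0 := fun m r hr => h.Gn0 m _ (mem r hr)
    Ge0 := fun m r hr => h.Ge0 m _ (mem r hr)
    ck := fun r hr _ => (h.C _ (mem r hr)).anti (fun s m p hp => hΦ s m r hr p hp)
      (fun m => h.Gn0 m _ (mem r hr)) (fun m => h.Ge0 m _ (mem r hr)) (c40 _ (mem r hr)) }

end tab

end Pool.Agent.RZ.RCO
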