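import Pool.Agent.RZ.RCO.Gk10
import Pool.Agent.RZ.RCO.Gs5
import Pool.Agent.RZ.RCO.Gt2

/-! The symbolic data of the sum of level 2, its lines from the checks of the sheet
(MP_73ccd0_lc). -/

set_option autoImplicit false

namespace Pool.Agent.RZ.RCO

open Sg Set Sp12

/-- **the symbolic data of the sum of level 2**: the used functions `Pn, Pd` of the targets of the
first system, the kernel, the end values and the used position sums of the second one -/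
structure SpK where
  /-- number of the weights of the positions -/
  N : ℕ
  RR : List Re
  Rp : Re
  W : Re
  Wp : List Re
  Dk : Re
  w1 : ℕ → Wf
  Pn : ℕ → Re
  Pd : ℕ → Re
  Cn : Re
  Cd : Re
  RD : List Re
  RDp : Re
  nu : ℕ → ℕ → Re
  du : ℕ → ℕ → Re
  κD : Re
  c4 : Re
  /-- the used position sums -/
  Fu : Bool → ℕ → ℕ → Re
  Gn : ℕ → Re
  Ge : ℕ → Re
  cD : EcR
  bn : EcR
  bd : EcR
  cX : EcR
  /-- the slope -/
  sl : ℕ → Re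
  fe : ℕ → List (Re × FE)
  ff : ℕ → List (Re × Fa)

namespace SpK

variable (sp : SpK)

def okN (m : ℕ) : Bool :=
  all13 isK (sp.nu m) && all13 isK (sp.du m) && all13 isK (sp.Fu true m)
    && all13 isK (sp.Fu false m) && isT (sp.Gn m) && isP (sp.Gn m) && isT (sp.Ge m)
    && isP (sp.Ge m)

def ok : Bool :=
  allL isT sp.RR && isZ sp.Rp && isK sp.W && allL isT sp.Wp && isK sp.Dk && all13 isK sp.Pn
    && all13 isK sp.Pd && isZ sp.Cn && isZ sp.Cd && allL isT sp.RD && isZ sp.RDp && isT sp.κD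
    && isT sp.c4 && isP sp.c4 && isP sp.κD && sp.cD.okT && sp.bn.okT && sp.bd.okT && sp.cX.okT
    && all13 isK sp.sl && allL sp.okN (List.range sp.N)

/-! ### the lines -/

def wF (l : ℕ) : Vx := (sp.w1 l).vec (sp.w1 l).kR eK fF
def wE (l : ℕ) : Vx := (sp.w1 l).vec (sp.w1 l).kR eK eF

def eD : LnE := ⟨vsm (kEL sp.RR) [sp.W], evV sp.cD eX eK eF.h, sp.fe 0⟩
/-- half form -/
def eH (F : ℕ → Re) (C : EcR) (f : List (Re × FE)) : LnE :=
  ⟨vsm (kEL sp.RR) (vsm sp.W (vsm hf (vadd (fmV F eK eQ eF) (fmV F eK eF eF)))),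
    evV C eX eK eF.h, f⟩
def eX' : LnE := ⟨vsm (kEL sp.RD) (vfs (fun m => vsm (sp.Gn m) (sp.wE m)) sp.N),
  evV sp.cX eX eK eF.h, sp.fe 3⟩

def fD : LnF := ⟨svF sp.cD, [sp.Dk], sp.ff 0⟩
def fn0 : LnF := ⟨[], fmV sp.Pn eK fF fF, sp.ff 1⟩
def fd0 : LnF := ⟨[], fmV sp.Pd eK fF fF, sp.ff 2⟩
def fP (F : ℕ → Re) (C : EcR) (G : ℕ → Re) (f : List (Re × Fa)) : LnF :=
  ⟨vsm sp.W (vadd (vsm sp.Dk (fmV F eK fF fF)) (svF C)),
    vfs (fun m => vsm (G m) (sp.wF m)) sp.N, f⟩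
def fK : LnF := ⟨vadd (svF sp.cX) (vfs (fun m => vadd (vsm (sp.Gn m) (vadd
    (vsm sp.κD (fmV (sp.du m) eK fF fF)) (vsm sp.c4 (fmV (sp.Fu true m) eK fF fF))))
    (vsm (sp.Ge m) (vadd (fmV (sp.nu m) eK fF fF) (fmV (sp.Fu false m) eK fF fF)))) sp.N),
  fmV sp.sl eK fF fF, sp.ff 5⟩
/-- the slopes are nonnegative -/
def fS : LnF := ⟨[], fmV sp.sl eK fF fF, sp.ff 6⟩

/-- **all lines** -/
def sheet : Sheet where
  e := [sp.eD, sp.eH sp.Pn sp.bn (sp.fe 1), sp.eH sp.Pd sp.bd (sp.fe 2), sp.eX']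
  p := []
  f := [sp.fD, sp.fn0, sp.fd0, sp.fP sp.Pn sp.bn sp.Gn (sp.ff 3), sp.fP sp.Pd sp.bd sp.Ge (sp.ff 4),
    sp.fK, sp.fS]
  o := []
  s := [(kc 1, sp.W)]

/-- the format -/
structure OkN (sp : SpK) (m : ℕ) : Prop where
  nu : all13 isK (sp.nu m) = true
  du : all13 isK (sp.du m) = true
  Fu : ∀ s, all13 isK (sp.Fu s m) = true
  Gn : isT (sp.Gn m) = true
  Gnp : isP (sp.Gn m) = true
  Ge : isT (sp.Ge m) = true
  Gep : isP (sp.Ge m) = true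

structure Ok' (sp : SpK) : Prop where
  RR : allL isT sp.RR = true
  Rp : isZ sp.Rp = true
  W : isK sp.W = true
  Wp : allL isT sp.Wp = true
  Dk : isK sp.Dk = true
  Pn : all13 isK sp.Pn = true
  Pd : all13 isK sp.Pd = true
  Cn : isZ sp.Cn = true
  Cd : isZ sp.Cd = true
  RD : allL isT sp.RD = true
  RDp : isZ sp.RDp = true
  κD : isT sp.κD = true
  c4 : isT sp.c4 = true
  c4p : isP sp.c4 = true
  κDp : isP sp.κD = true
  cD : sp.cD.okT = true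
  bn : sp.bn.okT = true
  bd : sp.bd.okT = true
  cX : sp.cX.okT = true
  sl : all13 isK sp.sl = true
  n : ∀ m < sp.N, OkN sp m

variable {sp : SpK} {D R j : ℕ} {c : ℝ}

theorem okN_of {m : ℕ} (h : sp.okN m = true) : OkN sp m := by
  unfold okN at h
  simp only [Bool.and_eq_true] at h
  obtain ⟨⟨⟨⟨⟨⟨⟨a1, a2⟩, a3⟩, a4⟩, a5⟩, a6⟩, a7⟩, a8⟩ := h
  exact ⟨a1, a2, fun s => by cases s <;> assumption, a5, a6, a7, a8⟩

theorem ok_of (h : sp.ok = true) : Ok' sp := by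
  unfold ok at h
  simp only [Bool.and_eq_true] at h
  obtain ⟨⟨⟨⟨⟨⟨⟨⟨⟨⟨⟨⟨⟨⟨⟨⟨⟨⟨⟨⟨a1, a2⟩, a3⟩, a4⟩, a5⟩, a6⟩, a7⟩, a8⟩, a9⟩, b1⟩, b2⟩, b3⟩, b4⟩, b5⟩,
    b6⟩, b7⟩, b8⟩, b9⟩, c1⟩, c2⟩, c3⟩ := h
  exact ⟨a1, a2, a3, a4, a5, a6, a7, a8, a9, b1, b2, b3, b4, b5, b6, b7, b8, b9, c1, c2,
    fun m hm => okN_of (allL_of c3 m (List.mem_range.2 hm))⟩

/-- the factor of a vertex -/
noncomputable def fW (sp : SpK) (c : ℝ) (e : ℕ → ℕ) (p : Pt) : ℝ := sp.W.kv c e p.k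

/-- **the lines of the sum of level 2** -/
theorem lk1 (ho : Ok' sp) (hS : sp.sheet.At D R j) (c0 : 0 ≤ c) (c1 : c ≤ 1) {e : ℕ → ℕ}
    (he : e = rwd D R j) {ν δ : Fin sp.N → Pt → ℝ} {Φ : Bool → Fin sp.N → Pt → ℝ}
    (hν : ∀ m p, Sa p → ν m p ≤ Sp12.cf (sp.nu m) c e p)
    (hδ : ∀ m p, Sa p → δ m p ≤ Sp12.cf (sp.du m) c e p)
    (hΦ : ∀ s m p, Sa p → Φ s m p ≤ Sp12.cf (sp.Fu s m) c e p) :
    LK1 (M := Fin sp.N) (hT sp.RR c e) (sp.Rp.tv c e) (sp.fW c e) (hT sp.Wp c e)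
      (fun m => (sp.w1 m).fn) (Sp12.cf sp.Pn c e) (Sp12.cf sp.Pd c e) (sp.Cn.tv c e) (sp.Cd.tv c e)
      (hT sp.RD c e) (sp.RDp.tv c e) ν δ (sp.κD.tv c e) (sp.c4.tv c e) Φ
      (fun p => -Sp12.cf sp.sl c e p) (fun m => (sp.Gn m).tv c e) (fun m => (sp.Ge m).tv c e)
      (fun k => sp.Dk.kv c e k) (sp.cD.tv c e) (sp.bn.tv c e) (sp.bd.tv c e) (sp.cX.tv c e) := by
  have W_v : RCO.RE (rE c) e (fun z => sp.fW c e z.p.full) sp.W := kE' ho.W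
  have W_f : RCO.RE (rF c) e (fun z => sp.fW c e z.p.full) sp.W := kF' ho.W
  have zR : sp.Rp.tv c e = 0 := isZ_val ho.Rp _ _
  have Gn0 : ∀ m : Fin sp.N, 0 ≤ (sp.Gn m).tv c e := fun m => tv_nonneg (ho.n m m.2).Gnp c0 c1 _
  have Ge0 : ∀ m : Fin sp.N, 0 ≤ (sp.Ge m).tv c e := fun m => tv_nonneg (ho.n m m.2).Gep c0 c1 _
  constructor
  case W1 =>
    intro p x a b hp
    subst he
    have h1 := hS.s (kc 1, sp.W) (by simp [sheet]) (rhoE p x c) (rhoE0 hp c0) (rhoE1 hp c1)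
    rw [show (kc 1, sp.W).1.val (rhoE p x c) (rwd D R j) = 1 by
      show (kc 1).val _ _ = 1
      rw [kc_val, Nat.cast_one]] at h1
    exact h1.trans (kv_val' ho.W rfl rfl _).le
  case Ψn0 =>
    intro p hp hf
    subst he
    have := hS.lF (a := sp.fn0) c0 c1 (by simp [sheet]) EB.nil.ub (cF ho.Pn).lb ⟨p, hp.toLive⟩
    simp only [← hf] at this
    exact this
  case Ψd0 =>
    intro p hp hf
    subst he
    have := hS.lF (a := sp.fd0) c0 c1 (by simp [sheet]) EB.nil.ub (cF ho.Pd).lb ⟨p, hp.toLive⟩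
    simp only [← hf] at this
    exact this
  case eD =>
    refine hS.el c0 c1 he (l := sp.eD) (by simp [sheet]) ho.cD rfl ?_
    exact (kEL_v ho.RR).sm' (EB.oneE W_v)
  case hn =>
    refine hS.el c0 c1 he (l := sp.eH sp.Pn sp.bn (sp.fe 1)) (by simp [sheet]) ho.bn rfl ?_
    exact ((kEL_v ho.RR).sm' (W_v.sm' (half_v.sm' ((cE ho.Pn).add (cEF ho.Pn))))).congr
      fun z => by ring
  case hd =>
    refine hS.el c0 c1 he (l := sp.eH sp.Pd sp.bd (sp.fe 2)) (by simp [sheet]) ho.bd rfl ?_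
    exact ((kEL_v ho.RR).sm' (W_v.sm' (half_v.sm' ((cE ho.Pd).add (cEF ho.Pd))))).congr
      fun z => by ring
  case D =>
    intro p hp hf
    subst he
    have := hS.lF (a := sp.fD) c0 c1 (by simp [sheet]) (sF ho.cD).ub
      (EB.oneF (kF' ho.Dk)).lb ⟨p, hp.toLive⟩
    rw [← hf] at this
    exact this
  case eX =>
    refine hS.el c0 c1 he (l := sp.eX') (by simp [sheet]) ho.cX rfl ?_
    exact (kEL_v ho.RD).sm' (EB.fsum fun m => (tE (ho.n m m.2).Gn).sm' (wE_v _))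
  case pn =>
    intro p hp hf
    subst he
    have := hS.lF (a := sp.fP sp.Pn sp.bn sp.Gn (sp.ff 3)) c0 c1 (by simp [sheet])
      (W_f.sm' (((kF' ho.Dk).sm' (cF ho.Pn)).add (sF ho.bn))).ub
      (EB.fsum fun m => (tF (ho.n m m.2).Gn).sm' (wF_v _)).lb ⟨p, hp.toLive⟩
    simp only [← hf] at this
    refine le_trans (le_of_eq ?_) this
    ring
  case pd =>
    intro p hp hf
    subst he
    have := hS.lF (a := sp.fP sp.Pd sp.bd sp.Ge (sp.ff 4)) c0 c1 (by simp [sheet])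
      (W_f.sm' (((kF' ho.Dk).sm' (cF ho.Pd)).add (sF ho.bd))).ub
      (EB.fsum fun m => (tF (ho.n m m.2).Ge).sm' (wF_v _)).lb ⟨p, hp.toLive⟩
    simp only [← hf] at this
    refine le_trans (le_of_eq ?_) this
    ring
  case qn =>
    intro p x hp
    rw [zR, mul_zero, zero_mul, zero_mul]
    exact Finset.sum_nonneg fun m _ => mul_nonneg (Gn0 m)
      ((sp.w1 m).fn_nonneg_pnd hp.x0 hp.toLive)
  case qd =>
    intro p x hp
    rw [zR, mul_zero, zero_mul, zero_mul]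
    exact Finset.sum_nonneg fun m _ => mul_nonneg (Ge0 m)
      ((sp.w1 m).fn_nonneg_pnd hp.x0 hp.toLive)
  case vK =>
    intro p hp hf
    have hs : Sa p := ⟨0, 0, 0, hp⟩
    have κ0 : 0 ≤ sp.κD.tv c e := tv_nonneg ho.κDp c0 c1 _
    have c40 : 0 ≤ sp.c4.tv c e := tv_nonneg ho.c4p c0 c1 _
    subst he
    rw [neg_neg]
    have := hS.lF (a := sp.fK) c0 c1 (by simp [sheet])
      ((sF ho.cX).add (EB.fsum fun m => ((tF (ho.n m m.2).Gn).sm' (((tF ho.κD).sm'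
        (cF (ho.n m m.2).du)).add ((tF ho.c4).sm' (cF ((ho.n m m.2).Fu true))))).add
        ((tF (ho.n m m.2).Ge).sm' ((cF (ho.n m m.2).nu).add (cF ((ho.n m m.2).Fu false)))))).ub
      (cF ho.sl).lb ⟨p, hp.toLive⟩
    simp only [← hf] at this
    refine le_trans (add_le_add le_rfl (Finset.sum_le_sum fun m _ => ?_)) this
    exact add_le_add (mul_le_mul_of_nonneg_left (add_le_add
      (mul_le_mul_of_nonneg_left (hδ m p hs) κ0)
      (mul_le_mul_of_nonneg_left (hΦ true m p hs) c40)) (Gn0 m))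
      (mul_le_mul_of_nonneg_left (add_le_add (hν m p hs) (hΦ false m p hs)) (Ge0 m))

end SpK

/-! ### over time -/

/-- **the layout of the tables of the sum of level 2**; the field `sl` of `b` is not used -/
structure Tk1 where
  b : SpK
  /-- length of a row, entry of the step length -/
  R : ℕ
  iH : ℕ
  /-- the coefficients of the form (`26`: features, constant, the same times the killed mass) -/
  a : ℕ → Option Cf

namespace Tk1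

variable (x : Tk1)

def sp : SpK := { x.b with sl := cre2 Cf.s x.R x.a }

/-- the lines of the time part -/
def sheetT : Sheet where
  e := []
  p := []
  f := []
  o := []
  s := [(kd 1 24, kr x.iH)] ++ (List.range 26).flatMap fun i => oChk x.R x.iH (x.a i)

/-- all lines -/
def sheet : Sheet := x.sp.sheet.app x.sheetT

/-- the format -/
def okT : Bool := x.sp.ok

noncomputable def oE (D n : ℕ) : Option Cf → Bool
  | none => true
  | some a => Nat.ble 2147483648 (g D (x.R * n + a.w))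

/-- the end values are nonnegative: entries of the row `n` -/
noncomputable def okE (D n : ℕ) : Bool := allL (fun i => x.oE D n (x.a i)) (List.range 26)

variable {x : Tk1} {D n : ℕ}

/-- the mesh, the coordinate in the step, the row -/
noncomputable def tm (x : Tk1) (D : ℕ) : ℕ → ℝ := tmD D x.R x.iH
noncomputable def tc (x : Tk1) (D n : ℕ) (ρ : ℝ) : ℝ := cD (tmD D x.R x.iH) n ρ
noncomputable def te (x : Tk1) (D n : ℕ) (ρ : ℝ) : ℕ → ℕ := eD D x.R (tmD D x.R x.iH) n ρ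

/-- the tables -/
noncomputable def tk1 (x : Tk1) (D n : ℕ) : TK1 (Fin x.b.N) where
  k := fun i => oTq D x.R (x.a i)
  Gn := fun m ρ => (x.b.Gn m).tv (x.tc D n ρ) (x.te D n ρ)
  Ge := fun m ρ => (x.b.Ge m).tv (x.tc D n ρ) (x.te D n ρ)

theorem oE_w {o : Option Cf} (h : x.oE D n o = true) : 0 ≤ (oTq D x.R o).w n := by
  cases o with
  | none => exact le_rfl
  | some a => exact sn_ble h

theorem okE_of (h : x.okE D n = true) {i : ℕ} (hi : i < 26) : 0 ≤ (oTq D x.R (x.a i)).w n :=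
  oE_w (allL_of h i (List.mem_range.2 hi))

noncomputable def oZ (x : Tk1) (D n : ℕ) : Option Cf → Bool
  | none => true
  | some a => Nat.beq (g D (x.R * n + a.w)) 2147483648

/-- the end values are zero -/
noncomputable def okZ (x : Tk1) (D n : ℕ) : Bool :=
  allL (fun i => x.oZ D n (x.a i)) (List.range 26)

theorem okZ_of (h : x.okZ D n = true) : ∀ i < 26, ((x.tk1 D n).k i).w n = 0 := fun i hi => by
  have h1 := allL_of h i (List.mem_range.2 hi)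
  show (oTq D x.R (x.a i)).w n = 0
  cases ha : x.a i with
  | none => rfl
  | some a =>
    rw [ha] at h1
    have h2 : g D (x.R * n + a.w) = 2147483648 := Nat.eq_of_beq_eq_true h1
    show sn D x.R a.w n = 0
    unfold sn Sg.sv
    rw [h2]
    norm_num

/-- the mesh -/
theorem msh (hS : ∀ j < n, x.sheet.At D x.R j) : Msh (tmD D x.R x.iH) n :=
  msh_of fun j hj => by
    have h1 := (Sheet.At.right (hS j hj)).s (kd 1 24, kr x.iH)
      (List.mem_append_left _ (by simp)) (fun _ => 0) (fun _ => le_rfl) fun _ => zero_le_one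
    simp only [kd_val, rwd_kr] at h1
    have h2 : (0 : ℝ) < ((1 : ℕ) : ℝ) / 2 ^ 24 := by positivity
    linarith

/-- **the slopes are nonnegative at the full points** -/
theorem sn (hO : x.okT = true) (hn : 0 < n) (hS : ∀ j < n, x.sheet.At D x.R j) :
    ∀ ρ ∈ Icc (x.tm D 0) (x.tm D n), ∀ p : Pt, p.Sat 0 0 0 → p = p.full →
      0 ≤ FF26 (fun i => ((x.tk1 D n).k i).sl (x.tm D) n ρ) p := by
  intro ρ hρ p hp hf
  have ho : SpK.Ok' x.sp := SpK.ok_of hO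
  have hs : Stp (tmD D x.R x.iH) n (ixD (tmD D x.R x.iH) n ρ) ρ := ixD_spec (msh hS) hn hρ
  have h1 := Sheet.At.lF (a := x.sp.fS) (Sheet.At.left (hS _ hs.lt)) hs.c0 hs.c1
    (by simp [SpK.sheet]) EB.nil.ub (Sp12.cF ho.sl).lb ⟨p, hp.toLive⟩
  simp only [← hf] at h1
  exact h1.trans (cf_sl hs x.a p).le

/-- the environment of the tables of the positions agrees with the layout -/
structure EnvK (x : Tk1) (D n : ℕ) (E : TEnv) (Ψn Ψd : ℝ → Pt → ℝ) (Cn Cd : ℝ → ℝ) : Prop where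
  R : ∀ ρ ∈ Icc (x.tm D 0) (x.tm D n), E.R ρ = hT x.b.RR (x.tc D n ρ) (x.te D n ρ)
  Rp : ∀ ρ ∈ Icc (x.tm D 0) (x.tm D n), E.Rp ρ = 0
  W : ∀ ρ ∈ Icc (x.tm D 0) (x.tm D n), E.W ρ = x.b.fW (x.tc D n ρ) (x.te D n ρ)
  Wp : ∀ ρ ∈ Icc (x.tm D 0) (x.tm D n), E.Wp ρ = hT x.b.Wp (x.tc D n ρ) (x.te D n ρ)
  RD : ∀ ρ ∈ Icc (x.tm D 0) (x.tm D n), E.RD ρ = hT x.b.RD (x.tc D n ρ) (x.te D n ρ)
  RDp : ∀ ρ ∈ Icc (x.tm D 0) (x.tm D n), E.RDp ρ = 0
  κD : ∀ ρ ∈ Icc (x.tm D 0) (x.tm D n), E.κD ρ = x.b.κD.tv (x.tc D n ρ) (x.te D n ρ)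
  c4 : ∀ ρ ∈ Icc (x.tm D 0) (x.tm D n), E.c4 ρ = x.b.c4.tv (x.tc D n ρ) (x.te D n ρ)
  Ψn : ∀ ρ ∈ Icc (x.tm D 0) (x.tm D n), Ψn ρ = Sp12.cf x.b.Pn (x.tc D n ρ) (x.te D n ρ)
  Ψd : ∀ ρ ∈ Icc (x.tm D 0) (x.tm D n), Ψd ρ = Sp12.cf x.b.Pd (x.tc D n ρ) (x.te D n ρ)
  Cn : ∀ ρ ∈ Icc (x.tm D 0) (x.tm D n), Cn ρ = 0
  Cd : ∀ ρ ∈ Icc (x.tm D 0) (x.tm D n), Cd ρ = 0

/-- **the conditions of the tables of the sum of level 2** -/
theorem tk1_ok (hO : x.okT = true) (hE : x.okE D n = true) (hn : 0 < n)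
    (hS : ∀ j < n, x.sheet.At D x.R j) {E : TEnv} {Ψn Ψd : ℝ → Pt → ℝ} {Cn Cd : ℝ → ℝ}
    (hV : EnvK x D n E Ψn Ψd Cn Cd) {ν δ : Fin x.b.N → Pt → ℝ}
    {Φu : Bool → Fin x.b.N → ℝ → Pt → ℝ}
    (hν : ∀ ρ ∈ Icc (x.tm D 0) (x.tm D n), ∀ m p, Sa p →
      ν m p ≤ Sp12.cf (x.b.nu m) (x.tc D n ρ) (x.te D n ρ) p)
    (hδ : ∀ ρ ∈ Icc (x.tm D 0) (x.tm D n), ∀ m p, Sa p →
      δ m p ≤ Sp12.cf (x.b.du m) (x.tc D n ρ) (x.te D n ρ) p)
    (hΦ : ∀ ρ ∈ Icc (x.tm D 0) (x.tm D n), ∀ s m p, Sa p →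
      Φu s m ρ p ≤ Sp12.cf (x.b.Fu s m) (x.tc D n ρ) (x.te D n ρ) p) :
    (x.tk1 D n).Ok FF26 26 (x.tm D) n E (fun m : Fin x.b.N => (x.b.w1 m).fn) Ψn Ψd Cn Cd ν δ
      Φu := by
  have hm := msh hS
  have ho : SpK.Ok' x.sp := SpK.ok_of hO
  have st : ∀ ρ ∈ Icc (x.tm D 0) (x.tm D n),
      Stp (tmD D x.R x.iH) n (ixD (tmD D x.R x.iH) n ρ) ρ := fun ρ hρ => ixD_spec hm hn hρ
  refine ⟨fun i hi => oTq_ok fun j hj a ha => ?_, fun p hp _ => ?_, fun m ρ hρ => ?_,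
    fun m ρ hρ => ?_, fun ρ hρ => ?_⟩
  · exact (Sheet.At.right (hS j hj)).s a (List.mem_append_right _ (List.mem_flatMap.2
      ⟨i, List.mem_range.2 hi, ha⟩))
  · rw [lf_26.eq]
    exact Finset.sum_nonneg fun i hi => mul_nonneg (okE_of hE (Finset.mem_range.1 hi))
      (lf_26.nn p hp.toOk i (Finset.mem_range.1 hi))
  · exact tv_nonneg (ho.n m m.2).Gnp (st ρ hρ).c0 (st ρ hρ).c1 _
  · exact tv_nonneg (ho.n m m.2).Gep (st ρ hρ).c0 (st ρ hρ).c1 _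
  · have hs := st ρ hρ
    have h1 := (SpK.lk1 (sp := x.sp) ho (Sheet.At.left (hS _ hs.lt)) hs.c0 hs.c1 rfl
      (hν ρ hρ) (hδ ρ hρ) (hΦ ρ hρ)).ck1
    have z1 : x.b.Rp.tv (x.tc D n ρ) (x.te D n ρ) = 0 := isZ_val ho.Rp _ _
    have z2 : x.b.RDp.tv (x.tc D n ρ) (x.te D n ρ) = 0 := isZ_val ho.RDp _ _
    have z3 : x.b.Cn.tv (x.tc D n ρ) (x.te D n ρ) = 0 := isZ_val ho.Cn _ _
    have z4 : x.b.Cd.tv (x.tc D n ρ) (x.te D n ρ) = 0 := isZ_val ho.Cd _ _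
    have e1 : (fun p : Pt => -FF26 (fun i => ((x.tk1 D n).k i).sl (x.tm D) n ρ) p)
        = fun p => -Sp12.cf x.sp.sl (stc (tmD D x.R x.iH) (ixD (tmD D x.R x.iH) n ρ) ρ)
          (rwd D x.R (ixD (tmD D x.R x.iH) n ρ)) p := by
      funext p
      exact congrArg Neg.neg (cf_sl hs x.a p).symm
    rw [e1, hV.R ρ hρ, hV.W ρ hρ, hV.Wp ρ hρ, hV.RD ρ hρ, hV.κD ρ hρ, hV.c4 ρ hρ, hV.Ψn ρ hρ,
      hV.Ψd ρ hρ, hV.Rp ρ hρ, hV.RDp ρ hρ, hV.Cn ρ hρ, hV.Cd ρ hρ]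
    have h2 : CK1 (hT x.b.RR (x.tc D n ρ) (x.te D n ρ)) (x.b.Rp.tv (x.tc D n ρ) (x.te D n ρ))
      (x.b.fW (x.tc D n ρ) (x.te D n ρ)) (hT x.b.Wp (x.tc D n ρ) (x.te D n ρ))
      (fun m : Fin x.b.N => (x.b.w1 m).fn) (Sp12.cf x.b.Pn (x.tc D n ρ) (x.te D n ρ))
      (Sp12.cf x.b.Pd (x.tc D n ρ) (x.te D n ρ)) (x.b.Cn.tv (x.tc D n ρ) (x.te D n ρ))
      (x.b.Cd.tv (x.tc D n ρ) (x.te D n ρ)) (hT x.b.RD (x.tc D n ρ) (x.te D n ρ))
      (x.b.RDp.tv (x.tc D n ρ) (x.te D n ρ)) ν δ (x.b.κD.tv (x.tc D n ρ) (x.te D n ρ))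
      (x.b.c4.tv (x.tc D n ρ) (x.te D n ρ)) (fun s m => Φu s m ρ)
      (fun p => -Sp12.cf x.sp.sl (stc (tmD D x.R x.iH) (ixD (tmD D x.R x.iH) n ρ) ρ)
          (rwd D x.R (ixD (tmD D x.R x.iH) n ρ)) p)
      (fun m => (x.b.Gn m).tv (x.tc D n ρ) (x.te D n ρ))
      (fun m => (x.b.Ge m).tv (x.tc D n ρ) (x.te D n ρ)) := h1
    rw [z1, z2, z3, z4] at h2
    exact h2

end Tk1

end Pool.Agent.RZ.RCO
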