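import Pool.Agent.RZ.RCO.Gk11
import Pool.Agent.RZ.RCO.Gs9_2
import Pool.Agent.RZ.RCO.Gt2

/-! The tables of the targets with the weight one satisfy the conditions over time: from the sheet
of all rows (MP_73ccd0_lc). -/

set_option autoImplicit false

namespace Pool.Agent.RZ.RCO

open Sg Set

/-- **the layout of the tables of the targets with the weight one**; the fields `sl us slp usp` of
`b` are not used -/
structure Tt1 where
  b : SpT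
  /-- length of a row, entry of the step length -/
  R : ℕ
  iH : ℕ
  /-- the coefficients of the forms (`26`: features, constant, the same times the killed mass) -/
  a : Bool → ℕ → ℕ → Option Cf
  /-- the pendant vertices -/
  cp : Bool → ℕ → Option Cf

namespace Tt1

variable (x : Tt1)

def sp : SpT :=
  { x.b with
    sl := fun s l => cre2 Cf.s x.R (x.a s l)
    us := fun s l => cre2 Cf.u x.R (x.a s l)
    slp := fun s l => cre Cf.s x.R (x.cp s l)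
    usp := fun s l => cre Cf.u x.R (x.cp s l) }

def sN (s : Bool) (l : ℕ) : List (Re × Re) :=
  (List.range 26).flatMap (fun i => oChk x.R x.iH (x.a s l i)) ++ (oChk x.R x.iH (x.cp s l) ++
    [(kz, cre Cf.s x.R (x.cp s l))])

/-- the lines of the time part -/
def sheetT : Sheet where
  e := []
  p := []
  f := []
  o := []
  s := [(kd 1 24, kr x.iH)] ++ (List.range x.b.J).flatMap fun l => x.sN true l ++ x.sN false l

/-- all lines -/
def sheet : Sheet := x.sp.sheet.app x.sheetT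

/-- the format -/
def okT : Bool := x.sp.ok

noncomputable def oE (D n : ℕ) : Option Cf → Bool
  | none => true
  | some a => Nat.ble 2147483648 (g D (x.R * n + a.w))

/-- the end values are nonnegative: entries of the row `n` -/
noncomputable def okE (D n : ℕ) : Bool :=
  allL (fun l => allL (fun i => x.oE D n (x.a true l i) && x.oE D n (x.a false l i))
    (List.range 26) && x.oE D n (x.cp true l) && x.oE D n (x.cp false l)) (List.range x.b.J)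

variable {x : Tt1} {D n : ℕ}

/-- the mesh, the coordinate in the step, the row -/
noncomputable def tm (x : Tt1) (D : ℕ) : ℕ → ℝ := tmD D x.R x.iH
noncomputable def tc (x : Tt1) (D n : ℕ) (ρ : ℝ) : ℝ := cD (tmD D x.R x.iH) n ρ
noncomputable def te (x : Tt1) (D n : ℕ) (ρ : ℝ) : ℕ → ℕ := eD D x.R (tmD D x.R x.iH) n ρ

/-- the environment of the tables -/
noncomputable def env (x : Tt1) (D n : ℕ) : TEnv where
  R := fun ρ => hT x.b.RR (x.tc D n ρ) (x.te D n ρ)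
  Rp := fun ρ => x.b.Rp.tv (x.tc D n ρ) (x.te D n ρ)
  W := fun ρ => x.b.fW (x.tc D n ρ) (x.te D n ρ)
  Wp := fun ρ => hT x.b.Wp (x.tc D n ρ) (x.te D n ρ)
  RD := fun ρ => hT x.b.RD (x.tc D n ρ) (x.te D n ρ)
  RDp := fun ρ => x.b.RDp.tv (x.tc D n ρ) (x.te D n ρ)
  RE := fun ρ => hT x.b.RF (x.tc D n ρ) (x.te D n ρ)
  REp := fun ρ => x.b.REp.tv (x.tc D n ρ) (x.te D n ρ)
  κD := fun ρ => x.b.κD.tv (x.tc D n ρ) (x.te D n ρ)
  κE := fun ρ => x.b.κE.tv (x.tc D n ρ) (x.te D n ρ)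
  c1 := fun ρ => x.b.c1.tv (x.tc D n ρ) (x.te D n ρ)
  c4 := fun ρ => x.b.c4.tv (x.tc D n ρ) (x.te D n ρ)

/-- the tables -/
noncomputable def tt1 (x : Tt1) (D n : ℕ) : TT1 (Fin x.b.J) (Fin x.b.N) where
  f := ⟨fun s j i => oTq D x.R (x.a s j i), fun s j => oTq D x.R (x.cp s j)⟩
  ΦD := fun ρ p => RCO.sv (x.b.vD.tv (x.tc D n ρ) (x.te D n ρ)) p
  ΦE := fun ρ p => RCO.sv (x.b.vE.tv (x.tc D n ρ) (x.te D n ρ)) p
  CD := fun ρ => x.b.CD.tv (x.tc D n ρ) (x.te D n ρ)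
  CE := fun ρ => x.b.CE.tv (x.tc D n ρ) (x.te D n ρ)
  Ψn := fun ρ => Sp12.cf x.b.Pn (x.tc D n ρ) (x.te D n ρ)
  Ψe := fun ρ => Sp12.cf x.b.Pe (x.tc D n ρ) (x.te D n ρ)
  Ψd := fun ρ => Sp12.cf x.b.Pd (x.tc D n ρ) (x.te D n ρ)
  Cn := fun ρ => x.b.Cn.tv (x.tc D n ρ) (x.te D n ρ)
  Ce := fun ρ => x.b.Ce.tv (x.tc D n ρ) (x.te D n ρ)
  Cd := fun ρ => x.b.Cd.tv (x.tc D n ρ) (x.te D n ρ)
  Gn := fun j m ρ => (x.b.Gn j m).tv (x.tc D n ρ) (x.te D n ρ)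
  Gd := fun j m ρ => (x.b.Gd j m).tv (x.tc D n ρ) (x.te D n ρ)

/-- the time lines are in the sheet -/
theorem mT {l : ℕ} (hl : l < x.b.J) (s : Bool) {a : Re × Re} (h : a ∈ x.sN s l) :
    a ∈ x.sheetT.s := by
  refine List.mem_append_right _ (List.mem_flatMap.2 ⟨l, List.mem_range.2 hl, ?_⟩)
  cases s with
  | true => exact List.mem_append_left _ h
  | false => exact List.mem_append_right _ h

/-- the lines of time -/
structure TAt (x : Tt1) (D j : ℕ) (s : Bool) (l : ℕ) : Prop where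
  a : ∀ i < 26, ∀ a ∈ oChk x.R x.iH (x.a s l i), ∀ ρ : ℕ → ℝ, (∀ p, 0 ≤ ρ p) → (∀ p, ρ p ≤ 1) →
    a.1.val ρ (rwd D x.R j) ≤ a.2.val ρ (rwd D x.R j)
  c : ∀ a ∈ oChk x.R x.iH (x.cp s l), ∀ ρ : ℕ → ℝ, (∀ p, 0 ≤ ρ p) → (∀ p, ρ p ≤ 1) →
    a.1.val ρ (rwd D x.R j) ≤ a.2.val ρ (rwd D x.R j)
  cs : ∀ ρ : ℕ → ℝ, (∀ p, 0 ≤ ρ p) → (∀ p, ρ p ≤ 1) →
    kz.val ρ (rwd D x.R j) ≤ (cre Cf.s x.R (x.cp s l)).val ρ (rwd D x.R j)

theorem tAt {j : ℕ} (h : x.sheet.At D x.R j) (s : Bool) {l : ℕ} (hl : l < x.b.J) :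
    TAt x D j s l := by
  have hT := Sheet.At.right h
  have key : ∀ a ∈ x.sN s l, ∀ ρ : ℕ → ℝ, (∀ p, 0 ≤ ρ p) → (∀ p, ρ p ≤ 1) →
      a.1.val ρ (rwd D x.R j) ≤ a.2.val ρ (rwd D x.R j) := fun a ha => hT.s a (mT hl s ha)
  refine ⟨fun i hi a ha => key a ?_, fun a ha => key a ?_, fun ρ r0 r1 => ?_⟩
  · exact List.mem_append_left _ (List.mem_flatMap.2 ⟨i, List.mem_range.2 hi, ha⟩)
  · exact List.mem_append_right _ (List.mem_append_left _ ha)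
  · exact key (kz, cre Cf.s x.R (x.cp s l)) (List.mem_append_right _ (List.mem_append_right _
      (by simp))) ρ r0 r1

theorem oE_w {o : Option Cf} (h : x.oE D n o = true) : 0 ≤ (oTq D x.R o).w n := by
  cases o with
  | none => exact le_rfl
  | some a => exact sn_ble h

theorem okE_of (h : x.okE D n = true) (s : Bool) {l : ℕ} (hl : l < x.b.J) :
    (∀ i < 26, 0 ≤ (oTq D x.R (x.a s l i)).w n) ∧ 0 ≤ (oTq D x.R (x.cp s l)).w n := by
  unfold okE at h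
  have k := allL_of h l (List.mem_range.2 hl)
  simp only [Bool.and_eq_true] at k
  obtain ⟨⟨k1, k2⟩, k3⟩ := k
  refine ⟨fun i hi => ?_, ?_⟩
  · have k4 := allL_of k1 i (List.mem_range.2 hi)
    simp only [Bool.and_eq_true] at k4
    cases s with
    | true => exact oE_w k4.1
    | false => exact oE_w k4.2
  · cases s with
    | true => exact oE_w k2
    | false => exact oE_w k3

/-- the mesh -/
theorem msh (hS : ∀ j < n, x.sheet.At D x.R j) : Msh (tmD D x.R x.iH) n :=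
  msh_of fun j hj => by
    have h1 := (Sheet.At.right (hS j hj)).s (kd 1 24, kr x.iH)
      (List.mem_append_left _ (by simp)) (fun _ => 0) (fun _ => le_rfl) fun _ => zero_le_one
    simp only [kd_val, rwd_kr] at h1
    have h2 : (0 : ℝ) < ((1 : ℕ) : ℝ) / 2 ^ 24 := by positivity
    linarith

/-- **the conditions of the tables of the targets with the weight one** -/
theorem tt1_ok (hO : x.okT = true) (hE : x.okE D n = true) (hn : 0 < n)
    (hS : ∀ j < n, x.sheet.At D x.R j) {B : Bool → Fin x.b.N → ℝ → Pt → ℝ}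
    {CB : Bool → Fin x.b.N → ℝ → ℝ} {ν1 δ1 : Pt → ℝ} {Cν1 Cδ1 : ℝ}
    (hB : ∀ ρ ∈ Icc (x.tm D 0) (x.tm D n), ∀ s m p, Sa p →
      B s m ρ p ≤ Sp12.cf (x.b.B s m) (x.tc D n ρ) (x.te D n ρ) p)
    (hCB : ∀ ρ ∈ Icc (x.tm D 0) (x.tm D n), ∀ s m,
      CB s m ρ ≤ (x.b.CB s m).tv (x.tc D n ρ) (x.te D n ρ))
    (hν : ∀ ρ ∈ Icc (x.tm D 0) (x.tm D n), ∀ p, Sa p →
      ν1 p ≤ Sp12.cf x.b.nu (x.tc D n ρ) (x.te D n ρ) p)
    (hδ : ∀ ρ ∈ Icc (x.tm D 0) (x.tm D n), ∀ p, Sa p →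
      δ1 p ≤ Sp12.cf x.b.du (x.tc D n ρ) (x.te D n ρ) p)
    (hCν : ∀ ρ ∈ Icc (x.tm D 0) (x.tm D n), Cν1 ≤ x.b.Cnu.tv (x.tc D n ρ) (x.te D n ρ))
    (hCδ : ∀ ρ ∈ Icc (x.tm D 0) (x.tm D n), Cδ1 ≤ x.b.Cdu.tv (x.tc D n ρ) (x.te D n ρ)) :
    (x.tt1 D n).Ok FF26 26 (x.tm D) n (x.env D n) (fun m : Fin x.b.N => (x.b.wv m).fn) B CB ν1 δ1 Cν1
      Cδ1 := by
  have hm := msh hS
  have ho : SpT.Ok' x.sp := SpT.ok_of hO
  have st : ∀ ρ ∈ Icc (x.tm D 0) (x.tm D n),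
      Stp (tmD D x.R x.iH) n (ixD (tmD D x.R x.iH) n ρ) ρ := fun ρ hρ => ixD_spec hm hn hρ
  have gr : ∀ ρ ∈ Icc (x.tm D 0) (x.tm D n), SpT.Gr x.sp (x.tc D n ρ) (x.te D n ρ) :=
    fun ρ hρ => SpT.gr ho (Sheet.At.left (hS _ (st ρ hρ).lt)) (st ρ hρ).c0 (st ρ hρ).c1
  have eU : ∀ (s : Bool) (j : Fin x.b.J) (ρ : ℝ), ρ ∈ Icc (x.tm D 0) (x.tm D n) → ∀ p,
      (x.tt1 D n).f.U FF26 (x.tm D) n s j ρ p
        = Sp12.cf (x.sp.us s j) (x.tc D n ρ) (x.te D n ρ) p :=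
    fun s j ρ hρ p => (cf_up (st ρ hρ) (x.a s j) p).symm
  have eS : ∀ (s : Bool) (j : Fin x.b.J) (ρ : ℝ), ρ ∈ Icc (x.tm D 0) (x.tm D n) → ∀ p,
      (x.tt1 D n).f.Sl FF26 (x.tm D) n s j ρ p
        = Sp12.cf (x.sp.sl s j) (x.tc D n ρ) (x.te D n ρ) p :=
    fun s j ρ hρ p => (cf_sl (st ρ hρ) (x.a s j) p).symm
  have eK : ∀ (s : Bool) (j : Fin x.b.J) (ρ : ℝ), ρ ∈ Icc (x.tm D 0) (x.tm D n) →
      (x.tt1 D n).f.K (x.tm D) n s j ρ = (x.sp.usp s j).tv (x.tc D n ρ) (x.te D n ρ) :=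
    fun s j ρ hρ => (cre_up (st ρ hρ) 0 (x.cp s j)).symm
  have eKs : ∀ (s : Bool) (j : Fin x.b.J) (ρ : ℝ), ρ ∈ Icc (x.tm D 0) (x.tm D n) →
      (x.tt1 D n).f.Ks (x.tm D) n s j ρ = (x.sp.slp s j).tv (x.tc D n ρ) (x.te D n ρ) :=
    fun s j ρ hρ => (cre_sl (st ρ hρ) 0 (x.cp s j)).symm
  refine
    { fam := ⟨fun s l i hi => oTq_ok fun j hj => (tAt (hS j hj) s l.2).a i hi,
        fun s l => oTq_ok fun j hj => (tAt (hS j hj) s l.2).c,
        fun s l ρ hρ p hp => ?_, fun s l p hp => ?_,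
        fun s l => oTq_s hn fun j hj => (tAt (hS j hj) s l.2).cs,
        fun s l => (okE_of hE s l.2).2⟩
      kD := fun ρ hρ => kln_of (gr ρ hρ).kD fun p x a b hp => le_rfl
      kE := fun ρ hρ => kln_of (gr ρ hρ).kE fun p x a b hp => le_rfl
      oD := fun ρ hρ => ⟨fun p y hp => ?_, (gr ρ hρ).CD0⟩
      oE := fun ρ hρ => ⟨fun p y hp => ?_, (gr ρ hρ).CE0⟩
      c10 := fun ρ hρ => (gr ρ hρ).c10
      c40 := fun ρ hρ => (gr ρ hρ).c40
      sn := fun ρ hρ => ⟨fun l => (x.b.lam 0 l).tv (x.tc D n ρ) (x.te D n ρ),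
        fun l => (x.b.lam 0 l).tv (x.tc D n ρ) (x.te D n ρ), (gr ρ hρ).l0 0 (by norm_num),
        (gr ρ hρ).l1 0 (by norm_num), (gr ρ hρ).l0 0 (by norm_num), (gr ρ hρ).l1 0 (by norm_num),
        fun p hp => ?_, ?_⟩
      se := fun ρ hρ => ⟨fun l => (x.b.lam 1 l).tv (x.tc D n ρ) (x.te D n ρ),
        fun l => (x.b.lam 1 l).tv (x.tc D n ρ) (x.te D n ρ), (gr ρ hρ).l0 1 (by norm_num),
        (gr ρ hρ).l1 1 (by norm_num), (gr ρ hρ).l0 1 (by norm_num), (gr ρ hρ).l1 1 (by norm_num),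
        fun p hp => ?_, ?_⟩
      sd := fun ρ hρ => ⟨fun l => (x.b.lam 2 l).tv (x.tc D n ρ) (x.te D n ρ),
        fun l => (x.b.lam 2 l).tv (x.tc D n ρ) (x.te D n ρ), (gr ρ hρ).l0 2 (by norm_num),
        (gr ρ hρ).l1 2 (by norm_num), (gr ρ hρ).l0 2 (by norm_num), (gr ρ hρ).l1 2 (by norm_num),
        fun p hp => ?_, ?_⟩
      Gn0 := fun l m ρ hρ => (gr ρ hρ).Gn0 l m
      Gd0 := fun l m ρ hρ => (gr ρ hρ).Gd0 l m
      C := fun ρ hρ => ?_ }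
  · rw [eS s l ρ hρ p]
    exact (gr ρ hρ).sl0 s l p hp
  · rw [lf_26.eq]
    exact Finset.sum_nonneg fun i hi => mul_nonneg
      ((okE_of hE s l.2).1 i (Finset.mem_range.1 hi)) (lf_26.nn p hp.ok i (Finset.mem_range.1 hi))
  · simp only [mul_one]
    exact (gr ρ hρ).oD
  · simp only [mul_one]
    exact (gr ρ hρ).oE
  · simp only [eU false _ ρ hρ]
    exact (add_le_add (hν ρ hρ p hp) le_rfl).trans ((gr ρ hρ).sn p hp)
  · simp only [eK false _ ρ hρ]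
    exact (add_le_add (hCν ρ hρ) le_rfl).trans (gr ρ hρ).tn
  · simp only [eU true _ ρ hρ]
    exact (add_le_add (add_le_add le_rfl (mul_le_mul_of_nonneg_left (hδ ρ hρ p hp)
      (gr ρ hρ).κE0)) le_rfl).trans ((gr ρ hρ).se p hp)
  · simp only [eK true _ ρ hρ]
    exact (add_le_add (add_le_add le_rfl (mul_le_mul_of_nonneg_left (hCδ ρ hρ)
      (gr ρ hρ).κE0)) le_rfl).trans (gr ρ hρ).te
  · simp only [eU true _ ρ hρ]
    exact (add_le_add (add_le_add le_rfl (mul_le_mul_of_nonneg_left (hδ ρ hρ p hp)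
      (gr ρ hρ).κD0)) le_rfl).trans ((gr ρ hρ).sd p hp)
  · simp only [eK true _ ρ hρ]
    exact (add_le_add (add_le_add le_rfl (mul_le_mul_of_nonneg_left (hCδ ρ hρ)
      (gr ρ hρ).κD0)) le_rfl).trans (gr ρ hρ).td
  · have hs := st ρ hρ
    have h1 := (SpT.lt1 (sp := x.sp) ho (Sheet.At.left (hS _ hs.lt)) hs.c0 hs.c1 rfl
      (hB ρ hρ) (hCB ρ hρ)).ct1
    have e1 : (fun (s : Bool) (l : Fin x.b.J) (p : Pt) =>
        -(x.tt1 D n).f.Sl FF26 (x.tm D) n s l ρ p)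
        = fun (s : Bool) (l : Fin x.sp.J) (p : Pt) => -Sp12.cf (x.sp.sl s l)
          (stc (tmD D x.R x.iH) (ixD (tmD D x.R x.iH) n ρ) ρ)
          (rwd D x.R (ixD (tmD D x.R x.iH) n ρ)) p := by
      funext s l p
      exact congrArg Neg.neg (eS s l ρ hρ p)
    have e2 : (fun (s : Bool) (l : Fin x.b.J) => -(x.tt1 D n).f.Ks (x.tm D) n s l ρ)
        = fun (s : Bool) (l : Fin x.sp.J) => -(x.sp.slp s l).tv
          (stc (tmD D x.R x.iH) (ixD (tmD D x.R x.iH) n ρ) ρ)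
          (rwd D x.R (ixD (tmD D x.R x.iH) n ρ)) := by
      funext s l
      exact congrArg Neg.neg (eKs s l ρ hρ)
    rw [e1, e2]
    exact h1

end Tt1

end Pool.Agent.RZ.RCO
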