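import Pool.Agent.RZ.RCO.Gp2
import Pool.Agent.RZ.RCO.Gs9_2
import Pool.Agent.RZ.RCO.Gt2

/-! The tables of the position sums satisfy the conditions over time: from the sheet of all rows
(MP_73ccd0_lc). -/

set_option autoImplicit false

namespace Pool.Agent.RZ.RCO

open Sg Set

/-- **the layout of the tables of the position sums**; the fields `sl us slp usp` of `b` are not
used -/
structure Tp1 where
  b : SpP
  /-- length of a row, entry of the step length -/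
  R : ℕ
  iH : ℕ
  /-- the coefficients of the forms (`26`: features, constant, the same times the killed mass) -/
  a : Bool → ℕ → ℕ → Option Cf
  /-- the pendant vertices -/
  cp : Bool → ℕ → Option Cf

namespace Tp1

variable (x : Tp1)

def sp : SpP :=
  { x.b with
    sl := fun s m => cre2 Cf.s x.R (x.a s m)
    us := fun s m => cre2 Cf.u x.R (x.a s m)
    slp := fun s m => cre Cf.s x.R (x.cp s m)
    usp := fun s m => cre Cf.u x.R (x.cp s m) }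

def sN (s : Bool) (m : ℕ) : List (Re × Re) :=
  (List.range 26).flatMap (fun i => oChk x.R x.iH (x.a s m i)) ++ (oChk x.R x.iH (x.cp s m) ++
    [(kz, cre Cf.s x.R (x.cp s m))])

/-- the lines of the time part -/
def sheetT : Sheet where
  e := []
  p := []
  f := []
  o := []
  s := [(kd 1 24, kr x.iH)] ++ (List.range x.b.N).flatMap fun m => x.sN true m ++ x.sN false m

/-- all lines -/
def sheet : Sheet := x.sp.sheet.app x.sheetT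

/-- the format -/
def okT : Bool := x.sp.ok

noncomputable def oE (D n : ℕ) : Option Cf → Bool
  | none => true
  | some a => Nat.ble 2147483648 (g D (x.R * n + a.w))

/-- the end values are nonnegative: entries of the row `n` -/
noncomputable def okE (D n : ℕ) : Bool :=
  allL (fun m => allL (fun i => x.oE D n (x.a true m i) && x.oE D n (x.a false m i))
    (List.range 26) && x.oE D n (x.cp true m) && x.oE D n (x.cp false m)) (List.range x.b.N)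

variable {x : Tp1} {D n : ℕ}

/-- the mesh, the coordinate in the step, the row -/
noncomputable def tm (x : Tp1) (D : ℕ) : ℕ → ℝ := tmD D x.R x.iH
noncomputable def tc (x : Tp1) (D n : ℕ) (ρ : ℝ) : ℝ := cD (tmD D x.R x.iH) n ρ
noncomputable def te (x : Tp1) (D n : ℕ) (ρ : ℝ) : ℕ → ℕ := eD D x.R (tmD D x.R x.iH) n ρ

/-- the environment `E` agrees with the layout -/
structure EnvP (x : Tp1) (D n : ℕ) (E : TEnv) : Prop where
  R : ∀ ρ ∈ Icc (x.tm D 0) (x.tm D n), E.R ρ = hT x.b.RR (x.tc D n ρ) (x.te D n ρ)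
  Rp : ∀ ρ ∈ Icc (x.tm D 0) (x.tm D n), E.Rp ρ = 0
  W : ∀ ρ ∈ Icc (x.tm D 0) (x.tm D n), E.W ρ = x.b.fW (x.tc D n ρ) (x.te D n ρ)
  Wp : ∀ ρ ∈ Icc (x.tm D 0) (x.tm D n), E.Wp ρ = hT x.b.Wp (x.tc D n ρ) (x.te D n ρ)
  RD : ∀ ρ ∈ Icc (x.tm D 0) (x.tm D n), E.RD ρ = hT x.b.RD (x.tc D n ρ) (x.te D n ρ)
  RDp : ∀ ρ ∈ Icc (x.tm D 0) (x.tm D n), E.RDp ρ = 0
  RE : ∀ ρ ∈ Icc (x.tm D 0) (x.tm D n), E.RE ρ = hT x.b.RF (x.tc D n ρ) (x.te D n ρ)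
  REp : ∀ ρ ∈ Icc (x.tm D 0) (x.tm D n), E.REp ρ = 0
  κD : ∀ ρ ∈ Icc (x.tm D 0) (x.tm D n), E.κD ρ = x.b.κD.tv (x.tc D n ρ) (x.te D n ρ)
  κE : ∀ ρ ∈ Icc (x.tm D 0) (x.tm D n), E.κE ρ = x.b.κE.tv (x.tc D n ρ) (x.te D n ρ)
  c1 : ∀ ρ ∈ Icc (x.tm D 0) (x.tm D n), E.c1 ρ = x.b.c1.tv (x.tc D n ρ) (x.te D n ρ)
  c4 : ∀ ρ ∈ Icc (x.tm D 0) (x.tm D n), E.c4 ρ = x.b.c4.tv (x.tc D n ρ) (x.te D n ρ)

/-- the tables -/
noncomputable def tp1 (x : Tp1) (D n : ℕ) : TP1 (Fin x.b.N) where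
  f := ⟨fun s m i => oTq D x.R (x.a s m i), fun s m => oTq D x.R (x.cp s m)⟩
  Θ := fun m ρ => Sp12.cf (x.b.Th m) (x.tc D n ρ) (x.te D n ρ)
  CΘ := fun _ _ => 0
  Kn := fun m m' ρ => (x.b.Kn m m').tv (x.tc D n ρ) (x.te D n ρ)
  Kp := fun m m' ρ => (x.b.Kp m m').tv (x.tc D n ρ) (x.te D n ρ)
  Ke := fun m m' ρ => (x.b.Ke m m').tv (x.tc D n ρ) (x.te D n ρ)
  Km := fun m m' ρ => (x.b.Km m m').tv (x.tc D n ρ) (x.te D n ρ)

/-- the time lines are in the sheet -/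
theorem mT {m : ℕ} (hm : m < x.b.N) (s : Bool) {a : Re × Re} (h : a ∈ x.sN s m) :
    a ∈ x.sheetT.s := by
  refine List.mem_append_right _ (List.mem_flatMap.2 ⟨m, List.mem_range.2 hm, ?_⟩)
  cases s with
  | true => exact List.mem_append_left _ h
  | false => exact List.mem_append_right _ h

/-- the lines of time -/
structure TAt (x : Tp1) (D j : ℕ) (s : Bool) (m : ℕ) : Prop where
  a : ∀ i < 26, ∀ a ∈ oChk x.R x.iH (x.a s m i), ∀ ρ : ℕ → ℝ, (∀ p, 0 ≤ ρ p) → (∀ p, ρ p ≤ 1) →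
    a.1.val ρ (rwd D x.R j) ≤ a.2.val ρ (rwd D x.R j)
  c : ∀ a ∈ oChk x.R x.iH (x.cp s m), ∀ ρ : ℕ → ℝ, (∀ p, 0 ≤ ρ p) → (∀ p, ρ p ≤ 1) →
    a.1.val ρ (rwd D x.R j) ≤ a.2.val ρ (rwd D x.R j)
  cs : ∀ ρ : ℕ → ℝ, (∀ p, 0 ≤ ρ p) → (∀ p, ρ p ≤ 1) →
    kz.val ρ (rwd D x.R j) ≤ (cre Cf.s x.R (x.cp s m)).val ρ (rwd D x.R j)

theorem tAt {j : ℕ} (h : x.sheet.At D x.R j) (s : Bool) {m : ℕ} (hm : m < x.b.N) :
    TAt x D j s m := by
  have hT := Sheet.At.right h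
  have key : ∀ a ∈ x.sN s m, ∀ ρ : ℕ → ℝ, (∀ p, 0 ≤ ρ p) → (∀ p, ρ p ≤ 1) →
      a.1.val ρ (rwd D x.R j) ≤ a.2.val ρ (rwd D x.R j) := fun a ha => hT.s a (mT hm s ha)
  refine ⟨fun i hi a ha => key a ?_, fun a ha => key a ?_, fun ρ r0 r1 => ?_⟩
  · exact List.mem_append_left _ (List.mem_flatMap.2 ⟨i, List.mem_range.2 hi, ha⟩)
  · exact List.mem_append_right _ (List.mem_append_left _ ha)
  · exact key (kz, cre Cf.s x.R (x.cp s m)) (List.mem_append_right _ (List.mem_append_right _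
      (by simp))) ρ r0 r1

theorem oE_w {o : Option Cf} (h : x.oE D n o = true) : 0 ≤ (oTq D x.R o).w n := by
  cases o with
  | none => exact le_rfl
  | some a => exact sn_ble h

theorem okE_of (h : x.okE D n = true) (s : Bool) {m : ℕ} (hm : m < x.b.N) :
    (∀ i < 26, 0 ≤ (oTq D x.R (x.a s m i)).w n) ∧ 0 ≤ (oTq D x.R (x.cp s m)).w n := by
  unfold okE at h
  have k := allL_of h m (List.mem_range.2 hm)
  simp only [Bool.and_eq_true] at k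
  obtain ⟨⟨k1, k2⟩, k3⟩ := k
  refine ⟨fun i hi => ?_, ?_⟩
  · have k4 := allL_of k1 i (List.mem_range.2 hi)
    simp only [Bool.and_eq_true] at k4
    cases s with
    | true => exact oE_w k4.1
    | false => exact oE_w k4.2
  · cases s with
    | true => exact oE_w k2
    | false => exact oE_w k3

/-- the mesh -/
theorem msh (hS : ∀ j < n, x.sheet.At D x.R j) : Msh (tmD D x.R x.iH) n :=
  msh_of fun j hj => by
    have h1 := (Sheet.At.right (hS j hj)).s (kd 1 24, kr x.iH)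
      (List.mem_append_left _ (by simp)) (fun _ => 0) (fun _ => le_rfl) fun _ => zero_le_one
    simp only [kd_val, rwd_kr] at h1
    have h2 : (0 : ℝ) < ((1 : ℕ) : ℝ) / 2 ^ 24 := by positivity
    linarith

section fam

variable (hO : x.okT = true) (hn : 0 < n) (hS : ∀ j < n, x.sheet.At D x.R j)
include hn hS

/-- the used functions of the family -/
theorem eU (s : Bool) (m : Fin x.b.N) {ρ : ℝ} (hρ : ρ ∈ Icc (x.tm D 0) (x.tm D n)) (p : Pt) :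
    (x.tp1 D n).f.U FF26 (x.tm D) n s m ρ p
      = Sp12.cf (x.sp.us s m) (x.tc D n ρ) (x.te D n ρ) p :=
  (cf_up (ixD_spec (msh hS) hn hρ) (x.a s m) p).symm

theorem eS (s : Bool) (m : Fin x.b.N) {ρ : ℝ} (hρ : ρ ∈ Icc (x.tm D 0) (x.tm D n)) (p : Pt) :
    (x.tp1 D n).f.Sl FF26 (x.tm D) n s m ρ p
      = Sp12.cf (x.sp.sl s m) (x.tc D n ρ) (x.te D n ρ) p :=
  (cf_sl (ixD_spec (msh hS) hn hρ) (x.a s m) p).symm

theorem eK (s : Bool) (m : Fin x.b.N) {ρ : ℝ} (hρ : ρ ∈ Icc (x.tm D 0) (x.tm D n)) :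
    (x.tp1 D n).f.K (x.tm D) n s m ρ = (x.sp.usp s m).tv (x.tc D n ρ) (x.te D n ρ) :=
  (cre_up (ixD_spec (msh hS) hn hρ) 0 (x.cp s m)).symm

theorem eKs (s : Bool) (m : Fin x.b.N) {ρ : ℝ} (hρ : ρ ∈ Icc (x.tm D 0) (x.tm D n)) :
    (x.tp1 D n).f.Ks (x.tm D) n s m ρ = (x.sp.slp s m).tv (x.tc D n ρ) (x.te D n ρ) :=
  (cre_sl (ixD_spec (msh hS) hn hρ) 0 (x.cp s m)).symm

include hO

/-- the slopes of the forms are nonnegative -/
theorem slp0 (s : Bool) (m : Fin x.b.N) {ρ : ℝ} (hρ : ρ ∈ Icc (x.tm D 0) (x.tm D n)) {p : Pt}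
    (hp : Sa p) : 0 ≤ (x.tp1 D n).f.Sl FF26 (x.tm D) n s m ρ p := by
  have hs := ixD_spec (msh hS) hn hρ
  rw [eS hn hS s m hρ p]
  exact SpP.sl0 (SpP.ok_of hO) (Sheet.At.left (hS _ hs.lt)) hs.c0 hs.c1 s m.2 hp

/-- the family of tables -/
theorem fam_ok (hE : x.okE D n = true) : (x.tp1 D n).f.Ok FF26 26 (x.tm D) n :=
  ⟨fun s l i hi => oTq_ok fun j hj => (tAt (hS j hj) s l.2).a i hi,
    fun s l => oTq_ok fun j hj => (tAt (hS j hj) s l.2).c,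
    fun s l ρ hρ p hp => slp0 hO hn hS s l hρ hp, fun s l p hp => by
      rw [lf_26.eq]
      exact Finset.sum_nonneg fun i hi => mul_nonneg
        ((okE_of hE s l.2).1 i (Finset.mem_range.1 hi))
        (lf_26.nn p hp.ok i (Finset.mem_range.1 hi)),
    fun s l => oTq_s hn fun j hj => (tAt (hS j hj) s l.2).cs,
    fun s l => (okE_of hE s l.2).2⟩

end fam

/-- **the conditions of the tables of the position sums** -/
theorem tp1_ok (hO : x.okT = true) (hE : x.okE D n = true) (hn : 0 < n)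
    (hS : ∀ j < n, x.sheet.At D x.R j) {E : TEnv} (hV : EnvP x D n E)
    {B : Bool → Fin x.b.N → ℝ → Pt → ℝ} {CB : Bool → Fin x.b.N → ℝ → ℝ}
    {ν δ : Fin x.b.N → Pt → ℝ} {Cν Cδ : Fin x.b.N → ℝ}
    (hB : ∀ ρ ∈ Icc (x.tm D 0) (x.tm D n), ∀ s m p,
      B s m ρ p = Sp12.cf (x.b.B s m) (x.tc D n ρ) (x.te D n ρ) p)
    (hν : ∀ ρ ∈ Icc (x.tm D 0) (x.tm D n), ∀ m p, Sa p →
      ν m p ≤ Sp12.cf (x.b.nu m) (x.tc D n ρ) (x.te D n ρ) p)
    (hδ : ∀ ρ ∈ Icc (x.tm D 0) (x.tm D n), ∀ m p, Sa p →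
      δ m p ≤ Sp12.cf (x.b.du m) (x.tc D n ρ) (x.te D n ρ) p)
    (hCν : ∀ m, Cν m ≤ 0) (hCδ : ∀ m, Cδ m ≤ 0) :
    (x.tp1 D n).Ok FF26 26 (x.tm D) n E (fun m : Fin x.b.N => (x.b.w1 m).fn) B CB ν δ Cν Cδ := by
  have hm := msh hS
  have ho : SpP.Ok' x.sp := SpP.ok_of hO
  have st : ∀ ρ ∈ Icc (x.tm D 0) (x.tm D n),
      Stp (tmD D x.R x.iH) n (ixD (tmD D x.R x.iH) n ρ) ρ := fun ρ hρ => ixD_spec hm hn hρ
  refine
    { fam := fam_ok hO hn hS hE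
      c10 := fun ρ hρ => ?_
      c40 := fun ρ hρ => ?_
      Kn0 := fun m m' ρ hρ => tv_nonneg ((ho.m m m.2).Knp m' m'.2) (st ρ hρ).c0 (st ρ hρ).c1 _
      Kp0 := fun m m' ρ hρ => tv_nonneg ((ho.m m m.2).Kpp m' m'.2) (st ρ hρ).c0 (st ρ hρ).c1 _
      Ke0 := fun m m' ρ hρ => tv_nonneg ((ho.m m m.2).Kep m' m'.2) (st ρ hρ).c0 (st ρ hρ).c1 _
      Km0 := fun m m' ρ hρ => tv_nonneg ((ho.m m m.2).Kmp m' m'.2) (st ρ hρ).c0 (st ρ hρ).c1 _
      C := fun ρ hρ => ?_ }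
  · rw [hV.c1 ρ hρ]
    exact tv_nonneg ho.c1p (st ρ hρ).c0 (st ρ hρ).c1 _
  · rw [hV.c4 ρ hρ]
    exact tv_nonneg ho.c4p (st ρ hρ).c0 (st ρ hρ).c1 _
  · have hs := st ρ hρ
    have h1 := (SpP.lp1 (sp := x.sp) ho (Sheet.At.left (hS _ hs.lt)) hs.c0 hs.c1 rfl
      (CB := fun s m => CB s m ρ) (hν ρ hρ) (hδ ρ hρ) hCν hCδ).cp1
    have z1 : x.b.Rp.tv (x.tc D n ρ) (x.te D n ρ) = 0 := isZ_val ho.Rp _ _
    have z2 : x.b.RDp.tv (x.tc D n ρ) (x.te D n ρ) = 0 := isZ_val ho.RDp _ _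
    have z3 : x.b.REp.tv (x.tc D n ρ) (x.te D n ρ) = 0 := isZ_val ho.REp _ _
    have e1 : (fun (s : Bool) (m : Fin x.b.N) => (x.tp1 D n).f.U FF26 (x.tm D) n s m ρ)
        = fun (s : Bool) (m : Fin x.b.N) => Sp12.cf (x.sp.us s m) (x.tc D n ρ) (x.te D n ρ) := by
      funext s m p
      exact eU hn hS s m hρ p
    have e2 : (fun (s : Bool) (m : Fin x.b.N) (p : Pt) =>
        -(x.tp1 D n).f.Sl FF26 (x.tm D) n s m ρ p) = fun (s : Bool) (m : Fin x.b.N) (p : Pt) =>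
        -Sp12.cf (x.sp.sl s m) (x.tc D n ρ) (x.te D n ρ) p := by
      funext s m p
      exact congrArg Neg.neg (eS hn hS s m hρ p)
    have e3 : (fun (s : Bool) (m : Fin x.b.N) => (x.tp1 D n).f.K (x.tm D) n s m ρ)
        = fun (s : Bool) (m : Fin x.b.N) => (x.sp.usp s m).tv (x.tc D n ρ) (x.te D n ρ) := by
      funext s m
      exact eK hn hS s m hρ
    have e4 : (fun (s : Bool) (m : Fin x.b.N) => -(x.tp1 D n).f.Ks (x.tm D) n s m ρ)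
        = fun (s : Bool) (m : Fin x.b.N) => -(x.sp.slp s m).tv (x.tc D n ρ) (x.te D n ρ) := by
      funext s m
      exact congrArg Neg.neg (eKs hn hS s m hρ)
    have e5 : (fun (s : Bool) (m : Fin x.b.N) => B s m ρ)
        = fun (s : Bool) (m : Fin x.b.N) => Sp12.cf (x.b.B s m) (x.tc D n ρ) (x.te D n ρ) := by
      funext s m p
      exact hB ρ hρ s m p
    rw [e1, e2, e3, e4, e5, hV.R ρ hρ, hV.W ρ hρ, hV.Wp ρ hρ, hV.RD ρ hρ, hV.RE ρ hρ,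
      hV.κD ρ hρ, hV.κE ρ hρ, hV.c1 ρ hρ, hV.c4 ρ hρ, hV.Rp ρ hρ, hV.RDp ρ hρ, hV.REp ρ hρ]
    have h2 : CP1 (M := Fin x.b.N) (hT x.b.RR (x.tc D n ρ) (x.te D n ρ))
      (x.b.Rp.tv (x.tc D n ρ) (x.te D n ρ)) (x.b.fW (x.tc D n ρ) (x.te D n ρ))
      (hT x.b.Wp (x.tc D n ρ) (x.te D n ρ)) (hT x.b.RD (x.tc D n ρ) (x.te D n ρ))
      (x.b.RDp.tv (x.tc D n ρ) (x.te D n ρ)) (hT x.b.RF (x.tc D n ρ) (x.te D n ρ))
      (x.b.REp.tv (x.tc D n ρ) (x.te D n ρ)) (fun m => (x.b.w1 m).fn)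
      (fun s m => Sp12.cf (x.b.B s m) (x.tc D n ρ) (x.te D n ρ)) (fun s m => CB s m ρ)
      (fun m => Sp12.cf (x.b.Th m) (x.tc D n ρ) (x.te D n ρ)) (fun _ => 0) ν δ Cν Cδ
      (x.b.κD.tv (x.tc D n ρ) (x.te D n ρ)) (x.b.κE.tv (x.tc D n ρ) (x.te D n ρ))
      (x.b.c1.tv (x.tc D n ρ) (x.te D n ρ)) (x.b.c4.tv (x.tc D n ρ) (x.te D n ρ))
      (fun s m => Sp12.cf (x.sp.us s m) (x.tc D n ρ) (x.te D n ρ))
      (fun s m p => -Sp12.cf (x.sp.sl s m) (x.tc D n ρ) (x.te D n ρ) p)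
      (fun s m => (x.sp.usp s m).tv (x.tc D n ρ) (x.te D n ρ))
      (fun s m => -(x.sp.slp s m).tv (x.tc D n ρ) (x.te D n ρ))
      (fun m m' => (x.b.Kn m m').tv (x.tc D n ρ) (x.te D n ρ))
      (fun m m' => (x.b.Kp m m').tv (x.tc D n ρ) (x.te D n ρ))
      (fun m m' => (x.b.Ke m m').tv (x.tc D n ρ) (x.te D n ρ))
      (fun m m' => (x.b.Km m m').tv (x.tc D n ρ) (x.te D n ρ)) := h1
    rw [z1, z2, z3] at h2
    exact h2

end Tp1

end Pool.Agent.RZ.RCO
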