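import Pool.Agent.RZ.RCO.Gi5
import Pool.Agent.RZ.RCO.Gs9_2

/-! The systems of level 1 from tables: table ends and mixed ends (MP_73ccd0_lc). -/

set_option autoImplicit false

namespace Pool.Agent.RZ.RCO

open Set Pool.Agent.RZ.RCRSHalf Pool.Agent.RZ.RCG Pool.Agent.RZ.RCG.Ct
open Pool.Agent.RZ.RCN Pool.Agent.RZ.RCN.K

set_option linter.unusedSectionVars false

/-! ### the tables of a system -/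

/-- **the tables of one system of level 1**; all functions of the table time -/
structure TSys (J M Λ : Type*) where
  t : ℕ → ℝ
  n : ℕ
  E : TEnv
  wv : Λ → Pt → ℝ
  B : Bool → Λ → ℝ → Pt → ℝ
  CB : Bool → Λ → ℝ → ℝ
  w1 : M → Pt → ℝ
  B1 : Bool → M → ℝ → Pt → ℝ
  CB1 : Bool → M → ℝ → ℝ
  /-- the bounds of the end values -/
  ν : M → Pt → ℝ
  δ : M → Pt → ℝ
  Cν : M → ℝ
  Cδ : M → ℝ
  tt : TT1 J Λ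
  tp : TP1 M
  k : KTq
  m0 : M
  j0 : J
  S1 : ℝ → ℝ
  S2 : ℝ → ℝ
  κ : ℝ → ℝ
  m : ℝ → ℝ
  Mt : ℝ → ℝ

section defs

variable {J J' M Λ : Type*}

/-- the system over the actual time: shifted by `z` -/
noncomputable def TSys.dat (FF : (ℕ → ℝ) → Pt → ℝ) (q : TSys J M Λ) (z : ℝ) : SysD J M Λ where
  E := q.E.shift z
  wv := q.wv
  B := fun s l r => q.B s l (r + z)
  CB := fun s l r => q.CB s l (r + z)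
  w1 := q.w1
  B1 := fun s m r => q.B1 s m (r + z)
  CB1 := fun s m r => q.CB1 s m (r + z)
  ν := q.ν
  δ := q.δ
  Cν := q.Cν
  Cδ := q.Cδ
  dt := q.tt.dat FF q.t q.n z
  dp := q.tp.dat FF q.t q.n z
  m0 := q.m0
  j0 := q.j0
  S1f := fun r => q.S1 (r + z)
  S2f := fun r => q.S2 (r + z)
  κ := fun r => q.κ (r + z)
  Mt := fun r => q.Mt (r + z)

/-- the used bounds of the killing -/
noncomputable def TSys.uH (q : TSys J M Λ) (ρ : ℝ) : ℝ → ℝ :=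
  px q.k.N fun i => (q.k.H i).up q.t q.n ρ
noncomputable def TSys.uE (q : TSys J M Λ) (ρ : ℝ) : ℝ → ℝ :=
  px q.k.N fun i => (q.k.E i).up q.t q.n ρ

/-- **the checks of the tables of a system**; `lq` quadratic pair function; `ym` the range of the
weights, `Ph` the end values -/
structure TSys.Ok [Fintype J] [Nonempty J] [Fintype M] [Nonempty M] [Fintype Λ]
    (FF : (ℕ → ℝ) → Pt → ℝ) (N : ℕ) (lq : Bool) (ym Ph : ℝ) (q : TSys J M Λ) : Prop where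
  hm : Msh q.t q.n
  hn : 0 < q.n
  w1 : ∀ p, q.w1 q.m0 p = 1
  tt : q.tt.Ok FF N q.t q.n q.E q.wv q.B q.CB (q.ν q.m0) (q.δ q.m0) (q.Cν q.m0) (q.Cδ q.m0)
  tp : q.tp.Ok FF N q.t q.n q.E q.w1 q.B1 q.CB1 q.ν q.δ q.Cν q.Cδ
  v1 : ∀ z r, r + z ∈ Icc (q.t 0) (q.t q.n) →
    VLe (q.tt.f.fam FF q.t q.n z) q.j0 r (q.S1 (r + z))
  v2 : ∀ z r, r + z ∈ Icc (q.t 0) (q.t q.n) →
    VLe (q.tp.f.fam FF q.t q.n z) q.m0 r (q.S2 (r + z))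
  k : q.k.Ok q.t q.n ym q.E.R q.E.Rp
  s : ∀ ρ ∈ Icc (q.t 0) (q.t q.n), KPt lq ym Ph (q.E.c1 ρ) (q.E.c4 ρ) (q.E.κD ρ)
    (q.E.κE ρ) (q.S1 ρ) (q.S2 ρ) (q.κ ρ) (q.m ρ) (q.Mt ρ) (q.uH ρ) (q.uE ρ) (q.E.RD ρ) (q.E.RE ρ)
  Ph0 : 0 ≤ Ph
  /-- the end values -/
  ν0 : ∀ m p, Sa p → 0 ≤ q.ν m p
  δ0 : ∀ m p, Sa p → 0 ≤ q.δ m p
  Cν0 : ∀ m, 0 ≤ q.Cν m
  Cδ0 : ∀ m, 0 ≤ q.Cδ m
  δS : ∀ p, Sa p → q.δ q.m0 p ≤ Ph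
  CδS : q.Cδ q.m0 ≤ Ph

/-- a table which is linear from the node `m` on, end value zero -/
structure Tq.Lin (m n : ℕ) (a : Tq) : Prop where
  w : a.w n = 0
  s : ∀ j, m ≤ j → j ≤ n → a.s j = a.s n

/-- the family of tables is linear from the node `m` on -/
structure TFam.Lin (N m n : ℕ) (d : TFam J) : Prop where
  a : ∀ b j, ∀ i < N, (d.a b j i).Lin m n
  c : ∀ b j, (d.c b j).Lin m n

/-- the end values of a family of tables are zero -/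
structure TFam.End0 (N n : ℕ) (d : TFam J) : Prop where
  a : ∀ b j, ∀ i < N, (d.a b j i).w n = 0
  c : ∀ b j, (d.c b j).w n = 0

/-- **the functions of the families vanish at the end** -/
structure TSys.End0 (N : ℕ) (q : TSys J M Λ) : Prop where
  tt : q.tt.f.End0 N q.n
  tp : q.tp.f.End0 N q.n

/-- **no end values** -/
structure TSys.Nl (q : TSys J M Λ) : Prop where
  ν : ∀ m p, Sa p → q.ν m p = 0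
  δ : ∀ m p, Sa p → q.δ m p = 0
  Cν : ∀ m, q.Cν m = 0
  Cδ : ∀ m, q.Cδ m = 0

/-- **the tables of two neighbouring ends**: the common part, the order, the rates do not decrease
between the two ends; `mm` the node of the second mesh at the end of the first -/
structure TSys.Adj (ym : ℝ) (q : TSys J M Λ) (q' : TSys J' M Λ) (mm : ℕ) : Prop where
  mn : mm ≤ q'.n
  t0 : q.t 0 = q'.t 0
  tm : q.t q.n = q'.t mm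
  R : ∀ ρ ∈ Icc (q.t 0) (q.t q.n), q.E.R ρ = q'.E.R ρ
  Rp : ∀ ρ ∈ Icc (q.t 0) (q.t q.n), q.E.Rp ρ = q'.E.Rp ρ
  W : ∀ ρ ∈ Icc (q.t 0) (q.t q.n), q.E.W ρ = q'.E.W ρ
  Wp : ∀ ρ ∈ Icc (q.t 0) (q.t q.n), q.E.Wp ρ = q'.E.Wp ρ
  κD : ∀ ρ ∈ Icc (q.t 0) (q.t q.n), q.E.κD ρ = q'.E.κD ρ
  κE : ∀ ρ ∈ Icc (q.t 0) (q.t q.n), q.E.κE ρ = q'.E.κE ρ
  c1 : ∀ ρ ∈ Icc (q.t 0) (q.t q.n), q.E.c1 ρ = q'.E.c1 ρ
  c4 : ∀ ρ ∈ Icc (q.t 0) (q.t q.n), q.E.c4 ρ = q'.E.c4 ρ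
  wv : q.wv = q'.wv
  B : ∀ s l, ∀ ρ ∈ Icc (q.t 0) (q.t q.n), q.B s l ρ = q'.B s l ρ
  CB : ∀ s l, ∀ ρ ∈ Icc (q.t 0) (q.t q.n), q.CB s l ρ = q'.CB s l ρ
  w1 : q.w1 = q'.w1
  B1 : ∀ s m, ∀ ρ ∈ Icc (q.t 0) (q.t q.n), q.B1 s m ρ = q'.B1 s m ρ
  CB1 : ∀ s m, ∀ ρ ∈ Icc (q.t 0) (q.t q.n), q.CB1 s m ρ = q'.CB1 s m ρ
  m0 : q.m0 = q'.m0
  Θ : ∀ m, ∀ ρ ∈ Icc (q.t 0) (q.t q.n), q.tp.Θ m ρ = q'.tp.Θ m ρ
  CΘ : ∀ m, ∀ ρ ∈ Icc (q.t 0) (q.t q.n), q.tp.CΘ m ρ = q'.tp.CΘ m ρ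
  Kn : ∀ m m', ∀ ρ ∈ Icc (q.t 0) (q.t q.n), q.tp.Kn m m' ρ = q'.tp.Kn m m' ρ
  Kp : ∀ m m', ∀ ρ ∈ Icc (q.t 0) (q.t q.n), q.tp.Kp m m' ρ = q'.tp.Kp m m' ρ
  Ke : ∀ m m', ∀ ρ ∈ Icc (q.t 0) (q.t q.n), q.tp.Ke m m' ρ = q'.tp.Ke m m' ρ
  Km : ∀ m m', ∀ ρ ∈ Icc (q.t 0) (q.t q.n), q.tp.Km m m' ρ = q'.tp.Km m m' ρ
  mo : ∀ y ∈ Icc 0 ym, ∀ ρ ρ', q.t q.n ≤ ρ → ρ ≤ ρ' → ρ' ≤ q'.t q'.n →
    q'.E.R ρ y ≤ q'.E.R ρ' y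
  o : ∀ ρ ∈ Icc (q.t 0) (q.t q.n), KOr ym (q.S1 ρ) (q.S2 ρ) (q.κ ρ) (q.m ρ) (q'.S1 ρ) (q'.S2 ρ)
    (q'.κ ρ) (q'.m ρ) (q.uH ρ) (q.uE ρ) (q'.uH ρ) (q'.uE ρ)

/-- **the tables of a system belong to the tables `d` of level 1/2** (mesh `t`, `n`); `il`, `im`
the variants of the rows -/
structure TSys.Lnk {Λ' : Type*} [Fintype Λ'] (FF : (ℕ → ℝ) → Pt → ℝ) (q : TSys J M Λ)
    (d : T12 Λ') (t : ℕ → ℝ) (n : ℕ) (il : Λ → Λ') (im : M → Λ') : Prop where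
  t0 : t 0 = q.t 0
  R : ∀ ρ ∈ Icc (q.t 0) (q.t q.n), q.E.R ρ = d.R ρ
  Rp : ∀ ρ ∈ Icc (q.t 0) (q.t q.n), q.E.Rp ρ = d.Rp ρ
  W : ∀ ρ ∈ Icc (q.t 0) (q.t q.n), q.E.W ρ = d.W ρ
  Wp : ∀ ρ ∈ Icc (q.t 0) (q.t q.n), q.E.Wp ρ = d.Wp ρ
  wv : ∀ l, q.wv l = d.wv (il l)
  B : ∀ s l, ∀ ρ ∈ Icc (q.t 0) (q.t q.n), q.B s l ρ = d.tf.U FF t n s (il l) ρ
  CB : ∀ s l, ∀ ρ ∈ Icc (q.t 0) (q.t q.n), q.CB s l ρ = d.tf.K t n s (il l) ρ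
  w1 : ∀ m, q.w1 m = d.wv (im m)
  B1 : ∀ s m, ∀ ρ ∈ Icc (q.t 0) (q.t q.n), q.B1 s m ρ = d.tf.U FF t n s (im m) ρ
  CB1 : ∀ s m, ∀ ρ ∈ Icc (q.t 0) (q.t q.n), q.CB1 s m ρ = d.tf.K t n s (im m) ρ

/-- **the end values of a released system are above the rows of level 1/2 at the table time `u`** -/
structure TSys.Rel {Λ' : Type*} (FF : (ℕ → ℝ) → Pt → ℝ) (q : TSys J M Λ)
    (d : T12 Λ') (t : ℕ → ℝ) (n : ℕ) (im : M → Λ') (u : ℝ) : Prop where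
  ν : ∀ m p, Sa p → d.tf.U FF t n true (im m) u p ≤ q.ν m p
  δ : ∀ m p, Sa p → d.tf.U FF t n false (im m) u p ≤ q.δ m p
  Cν : ∀ m, d.tf.K t n true (im m) u ≤ q.Cν m
  Cδ : ∀ m, d.tf.K t n false (im m) u ≤ q.Cδ m

end defs

end Pool.Agent.RZ.RCO
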