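import Pool.Agent.RZ.RCO.Gs6
import Pool.Agent.RZ.RCO.Gs9_1
import Pool.Agent.RZ.RCO.Gt2

/-! The tables of the killing kernels and of the scalars from the checks of a sheet
(MP_73ccd0_lc). -/

set_option autoImplicit false

namespace Pool.Agent.RZ.RCO

open Sg Set

/-! ### the exponential below polynomials on `[0, 4]` -/

/-- the coefficients of `(e^z - 1) / z` and of `2 (e^z - 1 - z) / z ^ 2`, times `10886400` -/
def eP1 : List ℕ := [10886400, 5443200, 1814400, 453600, 90720, 15120, 2160, 270, 30, 5]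
def eP2 : List ℕ := [10886400, 3628800, 907200, 181440, 30240, 4320, 540, 60, 10]

/-- the polynomial with the coefficients `l` -/
noncomputable def hN (l : List ℕ) (z : ℝ) : ℝ := horR z (List.map (fun a : ℕ => (a : ℝ)) l)

theorem hN_val (l : List ℕ) {X : Re} {ρ : ℕ → ℝ} {e : ℕ → ℕ} :
    (hor X (l.map kc)).val ρ e = hN l (X.val ρ e) := by
  refine hor_val rfl ?_
  induction l with
  | nil => exact List.Forall₂.nil
  | cons a l ih => exact List.Forall₂.cons (kc_val _ _ _) ih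

theorem exp_P1 {z : ℝ} (z0 : 0 ≤ z) (z4 : z ≤ 4) :
    10886400 * Real.exp z ≤ 10886400 + z * hN eP1 z := by
  let a : ℕ → ℝ := fun k => match k with
    | 0 => 10886400 | 1 => 10886400 | 2 => 5443200 | 3 => 1814400 | 4 => 453600 | 5 => 90720
    | 6 => 15120 | 7 => 2160 | 8 => 270 | 9 => 30 | 10 => 5 | _ => 0
  let p : ℝ → ℝ := fun z => ∑ k ∈ Finset.range 11, a k * z ^ k
  let p' : ℝ → ℝ := fun z => ∑ k ∈ Finset.range 11, a k * (k * z ^ (k - 1))
  have hd : ∀ z, HasDerivAt p (p' z) z := fun z =>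
    HasDerivAt.fun_sum fun k _ => (hasDerivAt_pow k z).const_mul (a k)
  have e1 : ∀ z, p z = 10886400 + z * hN eP1 z := fun z => by
    simp only [p, Finset.sum_range_succ, Finset.sum_range_zero, hN, eP1, List.map, horR, a]
    push_cast
    ring
  have e2 : ∀ z, p' z - p z = z ^ 9 * (20 - 5 * z) := fun z => by
    simp only [p, p', Finset.sum_range_succ, Finset.sum_range_zero, a]
    push_cast
    ring
  have mono : MonotoneOn (fun z => p z * Real.exp (-z)) (Icc 0 4) := by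
    refine monotoneOn_of_deriv_nonneg (convex_Icc 0 4) ?_ ?_ fun z hz => ?_
    · exact fun z _ => ((hd z).continuousAt.mul
        (Real.continuous_exp.comp continuous_neg).continuousAt).continuousWithinAt
    · exact fun z _ => ((hd z).differentiableAt.mul
        (Real.differentiable_exp.comp differentiable_neg).differentiableAt).differentiableWithinAt
    · rw [interior_Icc] at hz
      have h1 := (hd z).mul ((hasDerivAt_neg z).exp)
      have h2 : deriv (fun z => p z * Real.exp (-z)) z = p' z * Real.exp (-z)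
          + p z * (Real.exp (-z) * -1) := h1.deriv
      rw [h2]
      have h3 : p' z * Real.exp (-z) + p z * (Real.exp (-z) * -1)
          = (z ^ 9 * (20 - 5 * z)) * Real.exp (-z) := by
        rw [← e2]
        ring
      rw [h3]
      exact mul_nonneg (mul_nonneg (pow_nonneg hz.1.le 9) (by linarith [hz.2]))
        (Real.exp_pos _).le
  have h1 := mono ⟨le_rfl, by norm_num⟩ ⟨z0, z4⟩ z0
  have h2 : p 0 = 10886400 := by rw [e1]; ring
  simp only [h2, neg_zero, Real.exp_zero, mul_one, e1] at h1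
  have h3 := mul_le_mul_of_nonneg_right h1 (Real.exp_pos z).le
  rw [mul_assoc, ← Real.exp_add, neg_add_cancel, Real.exp_zero, mul_one] at h3
  exact h3

theorem exp_P2 {z : ℝ} (z0 : 0 ≤ z) (z4 : z ≤ 4) :
    10886400 * (2 * (Real.exp z - 1 - z)) ≤ hN eP2 z * z ^ 2 := by
  have h1 := exp_P1 z0 z4
  have h2 : hN eP2 z * z ^ 2 = 2 * (z * hN eP1 z) - 2 * (10886400 * z) := by
    simp only [hN, eP1, eP2, List.map, horR]
    push_cast
    ring
  rw [h2]
  linarith

/-- the first order bound from a line -/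
theorem exp_c1 {z c : ℝ} (z0 : 0 ≤ z) (z4 : z ≤ 4) (h : hN eP1 z ≤ 10886400 * c) :
    Real.exp z - 1 ≤ c * z := by
  have h1 := exp_P1 z0 z4
  have h2 := mul_le_mul_of_nonneg_left h z0
  nlinarith

/-- the second order bound from a line -/
theorem exp_c2 {z κ : ℝ} (z0 : 0 ≤ z) (z4 : z ≤ 4) (h : hN eP2 z ≤ 10886400 * κ) :
    2 * (Real.exp z - 1 - z) ≤ κ * z ^ 2 := by
  have h1 := exp_P2 z0 z4
  have h2 := mul_le_mul_of_nonneg_right h (sq_nonneg z)
  nlinarith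

/-! ### the class: pairs with a pendant vertex have no weight -/

section

variable {V : Type*} [Fintype V] [DecidableEq V] {x : V → V → ℝ} {P : V → Prop}

/-- larger rates of the real pairs, any rates of the others -/
theorem Krn.monoN {hb : V → V → ℝ} {R R' : ℝ → ℝ} {Rp : ℝ} (h : Krn x P hb R Rp)
    (hP : RCG.Ct.Wt x P 1) {ym : ℝ} (xm : ∀ u v, x u v ≤ ym)
    (hR : ∀ y ∈ Icc (0 : ℝ) ym, R y ≤ R' y) (Rp' : ℝ) : Krn x P hb R' Rp' where
  b0 := h.b0
  l := fun u v hu hv => (h.l u v hu hv).trans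
    (mul_le_mul_of_nonneg_left (hR _ ⟨hP.nonneg u v, xm u v⟩) (hP.nonneg u v))
  p := fun u v hu => (h.p u v hu).trans (le_of_eq (by rw [hP.pz u v hu, zero_mul, zero_mul]))

/-- larger bounds of the kernels -/
theorem KrE.monoN {D : Finset V} {σ : ℝ} {S : Finset ℝ}
    {Fe : Finset V → V → V → ℝ} {Dd Ee : Finset V → V → V → ℝ → ℝ} {Dk Ek : ℝ → V → V → ℝ}
    {RD RE RD' RE' : ℝ → ℝ → ℝ} {RDp REp κD κE : ℝ → ℝ}
    (h : KrE x P D σ S Fe Dd Ee Dk Ek RD RE RDp REp κD κE) (hP : RCG.Ct.Wt x P 1)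
    {ym : ℝ} (xm : ∀ u v, x u v ≤ ym)
    (hD : ∀ r ∈ Icc 0 σ, ∀ y ∈ Icc (0 : ℝ) ym, RD r y ≤ RD' r y)
    (hE : ∀ r ∈ Icc 0 σ, ∀ y ∈ Icc (0 : ℝ) ym, RE r y ≤ RE' r y) (RDp' REp' : ℝ → ℝ) :
    KrE x P D σ S Fe Dd Ee Dk Ek RD' RE' RDp' REp' κD κE where
  krD := fun r hr hrS => (h.krD r hr hrS).monoN hP xm (hD r hr) (RDp' r)
  krE := fun r hr hrS => (h.krE r hr hrS).monoN hP xm (hE r hr) (REp' r)
  sD := h.sD
  sE := h.sE
  hD := h.hD
  hE := h.hE
  κD0 := h.κD0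
  κE0 := h.κE0

end

/-! ### polynomials in the weight with table coefficients -/

theorem horR_px (f : ℕ → ℝ) (y : ℝ) (n : ℕ) :
    horR y ((List.range n).map f) = px n f y := by
  induction n generalizing f with
  | zero => rfl
  | succ n ih =>
    rw [List.range_succ_eq_map, List.map_cons, List.map_map, horR, ih]
    unfold px
    rw [Finset.sum_range_succ', Finset.mul_sum, add_comm]
    simp only [Function.comp, pow_succ, pow_zero, one_mul]
    refine congrArg₂ _ (Finset.sum_congr rfl fun i _ => by ring) rfl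

theorem forall2_range {ρ : ℕ → ℝ} {e : ℕ → ℕ} {A : ℕ → Re} {a : ℕ → ℝ}
    (h : ∀ i, (A i).val ρ e = a i) : ∀ l : List ℕ,
    List.Forall₂ (fun A a => Re.val A ρ e = a) (l.map A) (l.map a)
  | [] => List.Forall₂.nil
  | i :: l => List.Forall₂.cons (h i) (forall2_range h l)

section

variable {D R n j : ℕ} {r : ℝ} {t : ℕ → ℝ} {ρ : ℕ → ℝ}

theorem cre_slρ (h : Stp t n j r) (h2 : ρ 2 = stc t j r) (o : Option Cf) :
    (cre Cf.s R o).val ρ (rwd D R j) = (oTq D R o).sl t n r := by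
  cases o with
  | none => exact (kz_val _ _).trans (pl_zero t n r).symm
  | some a => exact h.ls h2 _

theorem cre_upρ (h : Stp t n j r) (h2 : ρ 2 = stc t j r) (o : Option Cf) :
    (cre Cf.u R o).val ρ (rwd D R j) = (oTq D R o).up t n r := by
  cases o with
  | none => exact (kz_val _ _).trans (pl_zero t n r).symm
  | some a => exact h.ls h2 _

end

/-! ### the record -/

/-- **the layout of the tables of the kernels and of the scalars** -/
structure Kp1 where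
  /-- length of a row, entry of the step length -/
  R : ℕ
  iH : ℕ
  /-- the range of the weights is `[0, yn / 2 ^ yk]` -/
  yn : ℕ
  yk : ℕ
  /-- the rates of the real pairs -/
  RR : List Re
  /-- number of coefficients; killing, exponential of the killing -/
  N : ℕ
  H : ℕ → Option Cf
  E : ℕ → Option Cf
  /-- the bounds of the kernels -/
  RD : List Re
  RF : List Re
  κD : Re
  κE : Re
  c1 : Re
  c4 : Re
  /-- the scalars: values of the target sums and of the position sums, second order, sum of two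
  exponents, one exponent -/
  S1 : Re
  S2 : Re
  κ : Re
  Mt : Re
  m : Re
  /-- above the exponential of `m` -/
  me : Re
  /-- quadratic pair function, released end values -/
  qd : Bool
  rl : Bool
  /-- entry (the same in all rows): the rows of the end values -/
  iP : ℕ

namespace Kp1

variable (x : Kp1)

def Y : Re := kd x.yn x.yk * kv 1
def Hs : Re := hor x.Y ((List.range x.N).map fun i => cre Cf.s x.R (x.H i))
def Hu : Re := hor x.Y ((List.range x.N).map fun i => cre Cf.u x.R (x.H i))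
def Es : Re := hor x.Y ((List.range x.N).map fun i => cre Cf.s x.R (x.E i))
def Eu : Re := hor x.Y ((List.range x.N).map fun i => cre Cf.u x.R (x.E i))
def Rv : Re := hor x.Y x.RR
def RDv : Re := hor x.Y x.RD
def RFv : Re := hor x.Y x.RF

/-- the bound of the kernel of the pair function -/
def DL : Re := bif x.qd then x.Hu + x.κ * (x.Y * (x.Hu * x.Hu)) else x.κ * x.Hu

/-- `10886400 (e^A - 1)`, an upper bound -/
def Px (A : Re) : Re := A * hor A (eP1.map kc)

/-- the lines of the kernels -/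
def sK : List (Re × Re) :=
  [(x.Rv, x.Hs), (x.Rv * (kc 1 + x.Y * x.Eu), x.Es), (kz, x.Eu), (x.Y * x.Hu, x.m),
    (x.DL, x.RDv), (x.Eu, x.RFv)]

/-- the lines of the scalars -/
def sS : List (Re × Re) :=
  [(kc 1, x.c1), (kc 1, x.c4), (kz, x.S1), (kz, x.S2), (kz, x.κ), (kz, x.m), (kz, x.κD),
    (kz, x.κE), (kc 2 * x.m, x.Mt), (x.m, kc 4), (kc 10886400 + Px x.m, kc 10886400 * x.me),
    (x.S1, kc 4), (x.S2, kc 4), (x.me * hor x.S1 (eP1.map kc), kc 10886400 * x.c1),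
    (x.me * x.me * hor x.S2 (eP1.map kc), kc 10886400 * x.c4)]

/-- the lines of the pair function -/
def sQ : List (Re × Re) := bif x.qd then
    [(x.Mt, kc 4), (hor x.Mt (eP2.map kc), kc 10886400 * x.κ), (kd 1 24, x.Mt)]
  else [(kc 1, x.κ), (x.Mt, kc 4), (hor x.Mt (eP1.map kc), kc 10886400 * x.κ)]

/-- the lines of the end values -/
def sR : List (Re × Re) := bif x.rl then
    [(kr x.iP + x.S1, kc 4), (kr x.iP + x.S2, kc 4),
      (x.me * hor (kr x.iP) (eP1.map kc), kc 10886400 * x.κE),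
      (x.me * x.me * hor (kr x.iP) (eP1.map kc), kc 10886400 * x.κD),
      (x.me * Px (kr x.iP + x.S1), kc 10886400 * (x.κE * kr x.iP + x.c1 * x.S1)),
      (x.me * x.me * Px (kr x.iP + x.S2), kc 10886400 * (x.κD * kr x.iP + x.c4 * x.S2))]
  else []

/-- **the sheet** -/
def sheet : Sheet where
  e := []
  p := []
  f := []
  o := []
  s := [(kd 1 24, kr x.iH)] ++ (((List.range x.N).flatMap fun i =>
    oChk x.R x.iH (x.H i) ++ oChk x.R x.iH (x.E i)) ++ (x.sK ++ (x.sS ++ (x.sQ ++ x.sR))))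

/-- the format -/
def okT : Bool :=
  allL isT x.RR && allL isP x.RR && allL isT x.RD && allL isT x.RF && isT x.κD && isT x.κE
    && isT x.c1 && isT x.c4 && isT x.S1 && isT x.S2 && isT x.κ && isT x.Mt && isT x.m
    && isT x.me

/-- the end values are nonnegative: entries of the row `n`; the rows of the released end values
are constant -/
noncomputable def okE (D n : ℕ) : Bool :=
  allL (fun i => (match x.H i with
      | none => true
      | some a => Nat.ble 2147483648 (g D (x.R * n + a.w))) && (match x.E i with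
      | none => true
      | some a => Nat.ble 2147483648 (g D (x.R * n + a.w)))) (List.range x.N)
    && allL (fun j => Nat.beq (g D (x.R * j + x.iP)) (g D x.iP)) (List.range (n + 1))

/-- the rows of the end values -/
noncomputable def Phv (x : Kp1) (D : ℕ) : ℝ := un D x.R x.iP 0

/-- the format, as propositions -/
structure Fmt : Prop where
  RR : allL isT x.RR = true
  RP : allL isP x.RR = true
  RD : allL isT x.RD = true
  RF : allL isT x.RF = true
  κD : isT x.κD = true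
  κE : isT x.κE = true
  c1 : isT x.c1 = true
  c4 : isT x.c4 = true
  S1 : isT x.S1 = true
  S2 : isT x.S2 = true
  κ : isT x.κ = true
  Mt : isT x.Mt = true
  m : isT x.m = true
  me : isT x.me = true

variable {x} {D n : ℕ}

theorem Phv0 : 0 ≤ x.Phv D := un_nonneg _ _ _ _

/-- the constant entry -/
theorem okE_c (h : x.okE D n = true) {j : ℕ} (hj : j ≤ n) :
    un D x.R x.iP j = un D x.R x.iP 0 := by
  unfold okE at h
  rw [Bool.and_eq_true] at h
  have k := allL_of h.2 j (List.mem_range.2 (by omega))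
  unfold un Sg.nv
  rw [Nat.eq_of_beq_eq_true k, mul_zero, zero_add]

theorem okT_of (h : x.okT = true) : x.Fmt := by
  unfold okT at h
  simp only [Bool.and_eq_true] at h
  obtain ⟨⟨⟨⟨⟨⟨⟨⟨⟨⟨⟨⟨⟨h1, h2⟩, h3⟩, h4⟩, h5⟩, h6⟩, h7⟩, h8⟩, h9⟩, h10⟩, h11⟩, h12⟩, h13⟩, h14⟩ := h
  exact ⟨h1, h2, h3, h4, h5, h6, h7, h8, h9, h10, h11, h12, h13, h14⟩

/-- the upper end of the range of the weights -/
noncomputable def ym (x : Kp1) : ℝ := (x.yn : ℝ) / 2 ^ x.yk

theorem ym0 (x : Kp1) : 0 ≤ x.ym := div_nonneg (Nat.cast_nonneg _) (by positivity)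

/-- the range contains the weights of the class -/
def okY (x : Kp1) : Bool := Nat.ble (2 ^ x.yk) (RCG.xN * x.yn)

theorem ym_ge (h : x.okY = true) : RCG.XM ≤ x.ym := by
  have h1 := Nat.le_of_ble_eq_true h
  have h2 : ((2 ^ x.yk : ℕ) : ℝ) ≤ ((RCG.xN * x.yn : ℕ) : ℝ) := Nat.cast_le.2 h1
  push_cast at h2
  have h3 : (0 : ℝ) < (RCG.xN : ℝ) := by norm_num [RCG.xN]
  unfold ym RCG.XM
  rw [div_le_div_iff₀ h3 (by positivity)]
  linarith

/-- the mesh, the coordinate in the step, the row -/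
noncomputable def tm (x : Kp1) (D : ℕ) : ℕ → ℝ := tmD D x.R x.iH
noncomputable def tc (x : Kp1) (D n : ℕ) (ρ : ℝ) : ℝ := cD (tmD D x.R x.iH) n ρ
noncomputable def te (x : Kp1) (D n : ℕ) (ρ : ℝ) : ℕ → ℕ := eD D x.R (tmD D x.R x.iH) n ρ

/-- a scalar as a function of time -/
noncomputable def sc (x : Kp1) (D n : ℕ) (A : Re) (ρ : ℝ) : ℝ := A.tv (x.tc D n ρ) (x.te D n ρ)

/-- the tables -/
noncomputable def kt (x : Kp1) (D : ℕ) : KTq where
  N := x.N
  H := fun i => oTq D x.R (x.H i)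
  E := fun i => oTq D x.R (x.E i)
  Hp := oTq D x.R none
  Ep := oTq D x.R none

/-- the used values -/
noncomputable def uH (x : Kp1) (D n : ℕ) (ρ y : ℝ) : ℝ :=
  px x.N (fun i => (oTq D x.R (x.H i)).up (x.tm D) n ρ) y
noncomputable def uE (x : Kp1) (D n : ℕ) (ρ y : ℝ) : ℝ :=
  px x.N (fun i => (oTq D x.R (x.E i)).up (x.tm D) n ρ) y

theorem mem_T {a : Re × Re} {i : ℕ} (hi : i < x.N)
    (h : a ∈ oChk x.R x.iH (x.H i) ∨ a ∈ oChk x.R x.iH (x.E i)) : a ∈ x.sheet.s :=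
  List.mem_append_right _ (List.mem_append_left _ (List.mem_flatMap.2
    ⟨i, List.mem_range.2 hi, List.mem_append.2 h⟩))

theorem mem_K {a : Re × Re} (h : a ∈ x.sK) : a ∈ x.sheet.s :=
  List.mem_append_right _ (List.mem_append_right _ (List.mem_append_left _ h))

theorem mem_S {a : Re × Re} (h : a ∈ x.sS) : a ∈ x.sheet.s :=
  List.mem_append_right _ (List.mem_append_right _ (List.mem_append_right _
    (List.mem_append_left _ h)))

theorem mem_Q {a : Re × Re} (h : a ∈ x.sQ) : a ∈ x.sheet.s :=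
  List.mem_append_right _ (List.mem_append_right _ (List.mem_append_right _
    (List.mem_append_right _ (List.mem_append_left _ h))))

theorem mem_R {a : Re × Re} (h : a ∈ x.sR) : a ∈ x.sheet.s :=
  List.mem_append_right _ (List.mem_append_right _ (List.mem_append_right _
    (List.mem_append_right _ (List.mem_append_right _ h))))

/-- the mesh -/
theorem msh (hS : ∀ j < n, x.sheet.At D x.R j) : Msh (tmD D x.R x.iH) n :=
  msh_of fun j hj => by
    have h1 := (hS j hj).s (kd 1 24, kr x.iH) (List.mem_append_left _ (by simp)) (fun _ => 0)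
      (fun _ => le_rfl) fun _ => zero_le_one
    simp only [kd_val, rwd_kr] at h1
    have h2 : (0 : ℝ) < ((1 : ℕ) : ℝ) / 2 ^ 24 := by positivity
    linarith

/-- **the values of the expressions at a time and a weight** -/
structure Vals (x : Kp1) (D n : ℕ) (ρ y : ℝ) (v : Re → ℝ) : Prop where
  T : ∀ A : Re, isT A = true → v A = x.sc D n A ρ
  add : ∀ A B, v (A + B) = v A + v B
  sub : ∀ A B, v (A - B) = v A - v B
  mul : ∀ A B, v (A * B) = v A * v B
  kc : ∀ k, v (kc k) = k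
  kd : ∀ k l, v (kd k l) = (k : ℝ) / 2 ^ l
  kz : v kz = 0
  kr : ∀ i, (∀ j ≤ n, un D x.R i j = un D x.R i 0) → v (kr i) = un D x.R i 0
  Y : v x.Y = y
  Rv : v x.Rv = hT x.RR (x.tc D n ρ) (x.te D n ρ) y
  RDv : v x.RDv = hT x.RD (x.tc D n ρ) (x.te D n ρ) y
  RFv : v x.RFv = hT x.RF (x.tc D n ρ) (x.te D n ρ) y
  Hs : v x.Hs = px x.N (fun i => (oTq D x.R (x.H i)).sl (x.tm D) n ρ) y
  Hu : v x.Hu = x.uH D n ρ y
  Es : v x.Es = px x.N (fun i => (oTq D x.R (x.E i)).sl (x.tm D) n ρ) y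
  Eu : v x.Eu = x.uE D n ρ y
  hN : ∀ (l : List ℕ) (A : Re), v (hor A (l.map Sg.kc)) = RCO.hN l (v A)
  le : ∀ a ∈ x.sheet.s, v a.1 ≤ v a.2

theorem vals (hO : x.Fmt) (hn : 0 < n) (hS : ∀ j < n, x.sheet.At D x.R j) {ρ y : ℝ}
    (hρ : ρ ∈ Icc (x.tm D 0) (x.tm D n)) (hy : y ∈ Icc 0 x.ym) :
    ∃ v, x.Vals D n ρ y v := by
  have hm := msh hS
  have st : Stp (tmD D x.R x.iH) n (ixD (tmD D x.R x.iH) n ρ) ρ := ixD_spec hm hn hρ
  obtain ⟨y0, y1⟩ := hy
  -- the ratio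
  obtain ⟨u, u0, u1, hu⟩ : ∃ u, 0 ≤ u ∧ u ≤ 1 ∧ x.ym * u = y := by
    rcases eq_or_lt_of_le x.ym0 with h | h
    · exact ⟨0, le_rfl, zero_le_one, by rw [mul_zero]; linarith⟩
    · exact ⟨y / x.ym, div_nonneg y0 h.le, (div_le_one h).2 y1, by field_simp⟩
  have hY : x.Y.val (rho3 0 u (x.tc D n ρ)) (x.te D n ρ) = y := by
    unfold Y
    rw [re_mul, kd_val, kv_val]
    exact hu
  have hv : ∀ A : Re, isT A = true →
      A.val (rho3 0 u (x.tc D n ρ)) (x.te D n ρ) = x.sc D n A ρ := fun A hA => tv_val hA rfl _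
  refine ⟨fun A => A.val (rho3 0 u (x.tc D n ρ)) (x.te D n ρ), ?_⟩
  exact {
    T := hv
    add := fun A B => re_add _ _ _ _
    sub := fun A B => re_sub _ _ _ _
    mul := fun A B => re_mul _ _ _ _
    kc := fun k => kc_val _ _ _
    kd := fun k l => kd_val _ _ _ _
    kz := kz_val _ _
    kr := fun i hi => (rwd_kr i).trans (hi _ st.lt.le)
    Y := hY
    Rv := hor_hT hO.RR hY rfl
    RDv := hor_hT hO.RD hY rfl
    RFv := hor_hT hO.RF hY rfl
    Hs := (hor_val hY (forall2_range (fun i => cre_slρ st rfl (x.H i)) _)).trans (horR_px _ _ _)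
    Hu := (hor_val hY (forall2_range (fun i => cre_upρ st rfl (x.H i)) _)).trans (horR_px _ _ _)
    Es := (hor_val hY (forall2_range (fun i => cre_slρ st rfl (x.E i)) _)).trans (horR_px _ _ _)
    Eu := (hor_val hY (forall2_range (fun i => cre_upρ st rfl (x.E i)) _)).trans (horR_px _ _ _)
    hN := fun l A => hN_val l
    le := fun a ha => (hS _ st.lt).s a ha _ (rho3_nonneg le_rfl u0 st.c0)
      (rho3_le kS_pos.le u1 st.c1) }

/-- the exponential at the end from a line -/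
theorem px_le {a A z c : ℝ} (hA : a ≤ A) (A0 : 0 ≤ A) (z0 : 0 ≤ z) (z4 : z ≤ 4)
    (h : A * (z * RCO.hN eP1 z) ≤ 10886400 * c) : a * (Real.exp z - 1) ≤ c := by
  have h1 := exp_P1 z0 z4
  have e0 : 0 ≤ Real.exp z - 1 := sub_nonneg.2 (Real.one_le_exp z0)
  have h2 := mul_le_mul_of_nonneg_right hA e0
  have h3 := mul_le_mul_of_nonneg_left h1 A0
  nlinarith

/-- **the facts of the sheet at a time** -/
structure Ln (x : Kp1) (D n : ℕ) (ρ : ℝ) : Prop where
  h1 : 1 ≤ x.sc D n x.c1 ρ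
  h4 : 1 ≤ x.sc D n x.c4 ρ
  S1 : 0 ≤ x.sc D n x.S1 ρ
  S2 : 0 ≤ x.sc D n x.S2 ρ
  κ : 0 ≤ x.sc D n x.κ ρ
  m : 0 ≤ x.sc D n x.m ρ
  D0 : 0 ≤ x.sc D n x.κD ρ
  E0 : 0 ≤ x.sc D n x.κE ρ
  M : 2 * x.sc D n x.m ρ ≤ x.sc D n x.Mt ρ
  q : x.qd = true → 0 < x.sc D n x.Mt ρ ∧
    2 * (Real.exp (x.sc D n x.Mt ρ) - 1 - x.sc D n x.Mt ρ)
      ≤ x.sc D n x.κ ρ * x.sc D n x.Mt ρ ^ 2
  l : x.qd = false → 1 ≤ x.sc D n x.κ ρ ∧
    Real.exp (x.sc D n x.Mt ρ) - 1 ≤ x.sc D n x.κ ρ * x.sc D n x.Mt ρ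
  e1 : Real.exp (x.sc D n x.m ρ) * (Real.exp (x.sc D n x.S1 ρ) - 1)
    ≤ x.sc D n x.c1 ρ * x.sc D n x.S1 ρ
  e2 : Real.exp (2 * x.sc D n x.m ρ) * (Real.exp (x.sc D n x.S2 ρ) - 1)
    ≤ x.sc D n x.c4 ρ * x.sc D n x.S2 ρ
  r1 : x.rl = true → Real.exp (x.sc D n x.m ρ) * (Real.exp (x.Phv D) - 1)
      ≤ x.sc D n x.κE ρ * x.Phv D ∧
    Real.exp (x.sc D n x.m ρ) * (Real.exp (x.Phv D + x.sc D n x.S1 ρ) - 1)
      ≤ x.sc D n x.κE ρ * x.Phv D + x.sc D n x.c1 ρ * x.sc D n x.S1 ρ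
  r2 : x.rl = true → Real.exp (2 * x.sc D n x.m ρ) * (Real.exp (x.Phv D) - 1)
      ≤ x.sc D n x.κD ρ * x.Phv D ∧
    Real.exp (2 * x.sc D n x.m ρ) * (Real.exp (x.Phv D + x.sc D n x.S2 ρ) - 1)
      ≤ x.sc D n x.κD ρ * x.Phv D + x.sc D n x.c4 ρ * x.sc D n x.S2 ρ
  rH : ∀ y ∈ Icc 0 x.ym, hT x.RR (x.tc D n ρ) (x.te D n ρ) y
    ≤ px x.N (fun i => (oTq D x.R (x.H i)).sl (x.tm D) n ρ) y
  rF : ∀ y ∈ Icc 0 x.ym, hT x.RR (x.tc D n ρ) (x.te D n ρ) y * (1 + y * x.uE D n ρ y)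
    ≤ px x.N (fun i => (oTq D x.R (x.E i)).sl (x.tm D) n ρ) y
  e0 : ∀ y ∈ Icc 0 x.ym, 0 ≤ x.uE D n ρ y
  yH : ∀ y ∈ Icc 0 x.ym, y * x.uH D n ρ y ≤ x.sc D n x.m ρ
  dl : ∀ y ∈ Icc 0 x.ym, (bif x.qd then x.uH D n ρ y + x.sc D n x.κ ρ * (y * x.uH D n ρ y ^ 2)
    else x.sc D n x.κ ρ * x.uH D n ρ y) ≤ hT x.RD (x.tc D n ρ) (x.te D n ρ) y
  ef : ∀ y ∈ Icc 0 x.ym, x.uE D n ρ y ≤ hT x.RF (x.tc D n ρ) (x.te D n ρ) y

theorem ln (hO : x.Fmt) (hE : x.okE D n = true) (hn : 0 < n)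
    (hS : ∀ j < n, x.sheet.At D x.R j) {ρ : ℝ}
    (hρ : ρ ∈ Icc (x.tm D 0) (x.tm D n)) : x.Ln D n ρ := by
  -- the constant entry
  have eP : ∀ j ≤ n, un D x.R x.iP j = un D x.R x.iP 0 := fun j hj => okE_c hE hj
  -- the scalar lines
  obtain ⟨v, hv⟩ := vals hO hn hS hρ ⟨le_rfl, x.ym0⟩
  have vP : v (kr x.iP) = x.Phv D := hv.kr _ eP
  have l1 := hv.le _ (mem_S (a := (kc 1, x.c1)) (by simp [sS]))
  have l2 := hv.le _ (mem_S (a := (kc 1, x.c4)) (by simp [sS]))
  have l3 := hv.le _ (mem_S (a := (kz, x.S1)) (by simp [sS]))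
  have l4 := hv.le _ (mem_S (a := (kz, x.S2)) (by simp [sS]))
  have l5 := hv.le _ (mem_S (a := (kz, x.κ)) (by simp [sS]))
  have l6 := hv.le _ (mem_S (a := (kz, x.m)) (by simp [sS]))
  have l7 := hv.le _ (mem_S (a := (kz, x.κD)) (by simp [sS]))
  have l8 := hv.le _ (mem_S (a := (kz, x.κE)) (by simp [sS]))
  have l9 := hv.le _ (mem_S (a := (kc 2 * x.m, x.Mt)) (by simp [sS]))
  have l10 := hv.le _ (mem_S (a := (x.m, kc 4)) (by simp [sS]))
  have l11 := hv.le _ (mem_S (a := (kc 10886400 + Px x.m, kc 10886400 * x.me)) (by simp [sS]))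
  have l12 := hv.le _ (mem_S (a := (x.S1, kc 4)) (by simp [sS]))
  have l13 := hv.le _ (mem_S (a := (x.S2, kc 4)) (by simp [sS]))
  have l14 := hv.le _ (mem_S (a := (x.me * hor x.S1 (eP1.map kc), kc 10886400 * x.c1))
    (by simp [sS]))
  have l15 := hv.le _ (mem_S (a := (x.me * x.me * hor x.S2 (eP1.map kc),
    kc 10886400 * x.c4)) (by simp [sS]))
  simp only [Px, hv.kc, hv.kz, hv.mul, hv.add, hv.hN, hv.T _ hO.c1, hv.T _ hO.c4,
    hv.T _ hO.S1, hv.T _ hO.S2, hv.T _ hO.κ, hv.T _ hO.m, hv.T _ hO.Mt, hv.T _ hO.me,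
    hv.T _ hO.κD, hv.T _ hO.κE, Nat.cast_one,
    Nat.cast_ofNat] at l1 l2 l3 l4 l5 l6 l7 l8 l9 l10 l11 l12 l13 l14 l15
  have Ph0 : (0 : ℝ) ≤ x.Phv D := Phv0
  have M0 : 0 ≤ x.sc D n x.Mt ρ := by linarith
  have eM : Real.exp (x.sc D n x.m ρ) ≤ x.sc D n x.me ρ := by
    have := exp_P1 l6 l10
    linarith
  have m0 : 0 ≤ x.sc D n x.me ρ := (Real.exp_pos _).le.trans eM
  have eM2 : Real.exp (2 * x.sc D n x.m ρ) ≤ x.sc D n x.me ρ * x.sc D n x.me ρ := by
    rw [two_mul, Real.exp_add]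
    exact mul_le_mul eM eM (Real.exp_pos _).le m0
  refine
    { h1 := l1
      h4 := l2
      S1 := l3
      S2 := l4
      κ := l5
      m := l6
      D0 := l7
      E0 := l8
      M := l9
      q := fun hq => ?_
      l := fun hq => ?_
      e1 := px_le eM m0 l3 l12 ?_
      e2 := px_le eM2 (mul_nonneg m0 m0) l4 l13 ?_
      r1 := fun hr => ?_
      r2 := fun hr => ?_
      rH := fun y hy => ?_
      rF := fun y hy => ?_
      e0 := fun y hy => ?_
      yH := fun y hy => ?_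
      dl := fun y hy => ?_
      ef := fun y hy => ?_ }
  · have k3 := hv.le _ (mem_Q (a := (x.Mt, kc 4)) (by simp [sQ, hq]))
    have k4 := hv.le _ (mem_Q (a := (hor x.Mt (eP2.map kc), kc 10886400 * x.κ))
      (by simp [sQ, hq]))
    have k5 := hv.le _ (mem_Q (a := (kd 1 24, x.Mt)) (by simp [sQ, hq]))
    simp only [hv.kc, hv.kd, hv.mul, hv.hN, hv.T _ hO.κ,
      hv.T _ hO.Mt, Nat.cast_one, Nat.cast_ofNat] at k3 k4 k5
    have k6 : (0 : ℝ) < 1 / 2 ^ 24 := by positivity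
    exact ⟨by linarith, exp_c2 M0 k3 k4⟩
  · have k0 := hv.le _ (mem_Q (a := (kc 1, x.κ)) (by simp [sQ, hq]))
    have k1 := hv.le _ (mem_Q (a := (x.Mt, kc 4)) (by simp [sQ, hq]))
    have k2 := hv.le _ (mem_Q (a := (hor x.Mt (eP1.map kc), kc 10886400 * x.κ))
      (by simp [sQ, hq]))
    simp only [hv.kc, hv.mul, hv.hN, hv.T _ hO.κ, hv.T _ hO.Mt, Nat.cast_one,
      Nat.cast_ofNat] at k0 k1 k2
    exact ⟨k0, exp_c1 M0 k1 k2⟩
  · have := mul_le_mul_of_nonneg_left l14 l3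
    linarith
  · have := mul_le_mul_of_nonneg_left l15 l4
    linarith
  · have k1 := hv.le _ (mem_R (a := (kr x.iP + x.S1, kc 4)) (by simp [sR, hr]))
    have k2 := hv.le _ (mem_R (a := (x.me * hor (kr x.iP) (eP1.map kc), kc 10886400 * x.κE))
      (by simp [sR, hr]))
    have k3 := hv.le _ (mem_R (a := (x.me * Px (kr x.iP + x.S1),
      kc 10886400 * (x.κE * kr x.iP + x.c1 * x.S1))) (by simp [sR, hr]))
    simp only [Px, hv.kc, vP, hv.mul, hv.add, hv.hN, hv.T _ hO.c1, hv.T _ hO.S1, hv.T _ hO.me,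
      hv.T _ hO.κE, Nat.cast_ofNat] at k1 k2 k3
    refine ⟨px_le eM m0 Ph0 (by linarith) ?_, px_le eM m0 (by linarith) k1 k3⟩
    have := mul_le_mul_of_nonneg_left k2 Ph0
    linarith
  · have k1 := hv.le _ (mem_R (a := (kr x.iP + x.S2, kc 4)) (by simp [sR, hr]))
    have k2 := hv.le _ (mem_R (a := (x.me * x.me * hor (kr x.iP) (eP1.map kc),
      kc 10886400 * x.κD)) (by simp [sR, hr]))
    have k3 := hv.le _ (mem_R (a := (x.me * x.me * Px (kr x.iP + x.S2),
      kc 10886400 * (x.κD * kr x.iP + x.c4 * x.S2))) (by simp [sR, hr]))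
    simp only [Px, hv.kc, vP, hv.mul, hv.add, hv.hN, hv.T _ hO.c4, hv.T _ hO.S2, hv.T _ hO.me,
      hv.T _ hO.κD, Nat.cast_ofNat] at k1 k2 k3
    have n0 := mul_nonneg m0 m0
    refine ⟨px_le eM2 n0 Ph0 (by linarith) ?_, px_le eM2 n0 (by linarith) k1 k3⟩
    have := mul_le_mul_of_nonneg_left k2 Ph0
    linarith
  all_goals obtain ⟨w, hw⟩ := vals hO hn hS hρ hy
  · have k1 := hw.le _ (mem_K (a := (x.Rv, x.Hs)) (by simp [sK]))
    rwa [hw.Rv, hw.Hs] at k1
  · have k1 := hw.le _ (mem_K (a := (x.Rv * (kc 1 + x.Y * x.Eu), x.Es)) (by simp [sK]))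
    simp only [hw.mul, hw.add, hw.kc, hw.Y, hw.Rv, hw.Eu, hw.Es, Nat.cast_one] at k1
    exact k1
  · have k1 := hw.le _ (mem_K (a := (kz, x.Eu)) (by simp [sK]))
    rwa [hw.kz, hw.Eu] at k1
  · have k1 := hw.le _ (mem_K (a := (x.Y * x.Hu, x.m)) (by simp [sK]))
    rwa [hw.mul, hw.Y, hw.Hu, hw.T _ hO.m] at k1
  · have k1 := hw.le _ (mem_K (a := (x.DL, x.RDv)) (by simp [sK]))
    rw [hw.RDv] at k1
    unfold DL at k1
    cases hq : x.qd
    · rw [hq] at k1
      simp only [cond_false, hw.mul, hw.T _ hO.κ, hw.Hu] at k1 ⊢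
      exact k1
    · rw [hq] at k1
      simp only [cond_true, hw.mul, hw.add, hw.T _ hO.κ, hw.Hu, hw.Y] at k1 ⊢
      rw [sq]
      exact k1
  · have k1 := hw.le _ (mem_K (a := (x.Eu, x.RFv)) (by simp [sK]))
    rwa [hw.Eu, hw.RFv] at k1

/-- the end values -/
theorem okE_of (h : x.okE D n = true) {i : ℕ} (hi : i < x.N) :
    0 ≤ (oTq D x.R (x.H i)).w n ∧ 0 ≤ (oTq D x.R (x.E i)).w n := by
  unfold okE at h
  rw [Bool.and_eq_true] at h
  have k := allL_of h.1 i (List.mem_range.2 hi)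
  simp only [Bool.and_eq_true] at k
  exact ⟨oTq_w k.1, oTq_w k.2⟩

/-- **the tables of the killing** -/
theorem kt_ok (hO : x.Fmt) (hE : x.okE D n = true) (hn : 0 < n)
    (hS : ∀ j < n, x.sheet.At D x.R j) :
    (x.kt D).Ok (x.tm D) n x.ym (fun ρ => hT x.RR (x.tc D n ρ) (x.te D n ρ)) fun _ => 0 := by
  have hm := msh hS
  have st : ∀ ρ ∈ Icc (x.tm D 0) (x.tm D n),
      Stp (tmD D x.R x.iH) n (ixD (tmD D x.R x.iH) n ρ) ρ := fun ρ hρ => ixD_spec hm hn hρ
  have z : (oTq D x.R none).Ok (x.tm D) n := oTq_ok (iH := x.iH) (o := none) fun j _ a ha => by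
    simp [oChk] at ha
  have up0 : ∀ ρ, (oTq D x.R none).up (x.tm D) n ρ = 0 := fun ρ => pl_zero _ _ _
  have sl0 : ∀ ρ, (oTq D x.R none).sl (x.tm D) n ρ = 0 := fun ρ => pl_zero _ _ _
  refine
    { H := fun i hi => oTq_ok (iH := x.iH) fun j hj a ha ρ r0 r1 =>
        (hS j hj).s a (mem_T hi (Or.inl ha)) ρ r0 r1
      E := fun i hi => oTq_ok (iH := x.iH) fun j hj a ha ρ r0 r1 =>
        (hS j hj).s a (mem_T hi (Or.inr ha)) ρ r0 r1
      Hp := z
      Ep := z
      R0 := fun ρ hρ y hy => hT_nonneg hO.RP (st ρ hρ).c0 (st ρ hρ).c1 hy.1 _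
      Rp0 := fun _ _ => le_rfl
      h := fun ρ hρ y hy => (ln hO hE hn hS hρ).rH y hy
      e := fun ρ hρ y hy => (ln hO hE hn hS hρ).rF y hy
      hp := fun ρ _ => (sl0 ρ).ge
      ep := fun ρ _ => ?_
      he := fun y hy => ?_
      ee := fun y hy => ?_
      e0 := fun ρ hρ y hy => (ln hO hE hn hS hρ).e0 y hy
      hpe := le_rfl
      epe := le_rfl
      ep0 := fun ρ _ => (up0 ρ).ge }
  · show 0 * _ ≤ _
    rw [zero_mul]
    exact (sl0 ρ).ge
  · exact Finset.sum_nonneg fun i hi => mul_nonneg (pow_nonneg hy.1 i)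
      (okE_of hE (Finset.mem_range.1 hi)).1
  · exact Finset.sum_nonneg fun i hi => mul_nonneg (pow_nonneg hy.1 i)
      (okE_of hE (Finset.mem_range.1 hi)).2

end Kp1

end Pool.Agent.RZ.RCO
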