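import Pool.Agent.RZ.RCO.Gs3_1

/-! The conditions of the bundles of level 1 (MP_73ccd0_lc). -/

namespace Pool.Agent.RZ.RCO

open Set Finset Pool.Agent.RZ.RCM

set_option linter.unusedSectionVars false

variable {V : Type*} [Fintype V] [DecidableEq V]

/-! ### the kernels of the killing -/

section kre

end kre

/-! ### the conditions of a bundle -/

/-- the values of a family are bounded by a number -/
structure VLe {J : Type*} (f : Fam J) (j : J) (r s : ℝ) : Prop where
  s0 : 0 ≤ s
  v : ∀ p, Sa p → f.Φ true j r p ≤ s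
  c : f.C true j r ≤ s

section ok

open Pool.Agent.RZ.RCRSHalf Pool.Agent.RZ.RCG Pool.Agent.RZ.RCG.Ct

end ok

end Pool.Agent.RZ.RCO
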