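import Pool.Agent.RZ.RCO.Gk10
import Pool.Agent.RZ.RCO.Gs10_1
import Pool.Agent.RZ.RCO.Gs7
import Pool.Agent.RZ.RCO.Gt2

/-! The values of a family of tables below a scalar over time (MP_73ccd0_lc). -/

set_option autoImplicit false

namespace Pool.Agent.RZ.RCO

open Sg Set Sp12

/-- **the layout of one value**: the family `(a, cp)` is below the scalar `S` -/
structure Vl1 where
  /-- length of a row, entry of the step length -/
  R : ℕ
  iH : ℕ
  /-- the coefficients of the form, the pendant vertices -/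
  a : ℕ → Option Cf
  cp : Option Cf
  /-- the scalar -/
  S : Re
  /-- the facts -/
  fe : List (Re × FE)

namespace Vl1

variable (x : Vl1)

def ln : LnE := ⟨fmV (cre2 Cf.u x.R x.a) eK eQ eF, [x.S], x.fe⟩

/-- all lines -/
def sheet : Sheet where
  e := [x.ln]
  p := []
  f := []
  o := []
  s := [(cre Cf.u x.R x.cp, x.S), (kz, x.S)]

/-- the format -/
def okT : Bool := all13 isK (cre2 Cf.u x.R x.a) && isT x.S

variable {x} {D n : ℕ}

/-- the line at a time -/
theorem at_le (hO : x.okT = true) {j : ℕ} (hS : x.sheet.At D x.R j) {c : ℝ} (c0 : 0 ≤ c)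
    (c1 : c ≤ 1) {p : Pt} (hp : Sa p) :
    Sp12.cf (cre2 Cf.u x.R x.a) c (rwd D x.R j) p ≤ x.S.tv c (rwd D x.R j) := by
  unfold okT at hO
  simp only [Bool.and_eq_true] at hO
  obtain ⟨y, a, b, hp⟩ := hp
  exact hS.lE (a := x.ln) c0 c1 (by simp [sheet]) (cE hO.1).ub (EB.oneE (tE hO.2)).lb
    ⟨p, y, a, b, hp⟩

/-- **the values of a family below a scalar**, at the time `r + δ` -/
theorem vle {J : Type*} {d : TFam J} {j : J} {t : ℕ → ℝ} (ht : t = tmD D x.R x.iH)
    (hO : x.okT = true) (hn : 0 < n) (hm : Msh t n) (hS : ∀ j < n, x.sheet.At D x.R j)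
    (hd : d.Ok FF26 26 t n) (ha : ∀ i, d.a true j i = oTq D x.R (x.a i))
    (hc : d.c true j = oTq D x.R x.cp) {r δ : ℝ} (hr : r + δ ∈ Icc (t 0) (t n)) :
    VLe (d.fam FF26 t n δ) j r (x.S.tv (cD t n (r + δ)) (eD D x.R t n (r + δ))) := by
  subst ht
  have st := ixD_spec hm hn hr
  have hO2 : isT x.S = true := by
    unfold okT at hO
    simp only [Bool.and_eq_true] at hO
    exact hO.2
  have hA := hS _ st.lt
  refine ⟨?_, fun p hp => ?_, ?_⟩
  · have h1 := hA.lS st.c0 st.c1 (a := (kz, x.S)) (by simp [sheet])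
    rw [kz_val] at h1
    exact h1
  · refine (hd.le lf_26 hm hn true j hr hp).trans ?_
    unfold TFam.U
    simp only [ha]
    rw [← cf_up st]
    exact at_le hO hA st.c0 st.c1 hp
  · refine (hd.kle hm hn true j hr).trans ?_
    unfold TFam.K
    rw [hc, ← cre_up st 0]
    exact hA.lS st.c0 st.c1 (a := (cre Cf.u x.R x.cp, x.S)) (by simp [sheet])

end Vl1

end Pool.Agent.RZ.RCO
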