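import Pool.Agent.RZ.RCO.Gj1
import Pool.Agent.RZ.RCO.Gk12
import Pool.Agent.RZ.RCO.Gp3
import Pool.Agent.RZ.RCO.Gs13
import Pool.Agent.RZ.RCO.Gt3
import Pool.Agent.RZ.RCO.Gt5

/-! The union record of the tables of a system of level 1: the tables and their conditions
(MP_73ccd0_lc). -/

set_option autoImplicit false

namespace Pool.Agent.RZ.RCO

open Sg Set

set_option linter.unusedSectionVars false

/-! ### constant columns -/

/-- constant columns as coefficients of which only the used entry counts -/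
def cfu (f : ℕ → Option ℕ) (i : ℕ) : Option Cf := (f i).map fun u => ⟨u, u, u⟩

/-- the entries of `f` are the same in the rows `0, ..., n` -/
noncomputable def cstB (D R n : ℕ) (f : ℕ → Option ℕ) : Bool :=
  allL (fun i => match f i with
    | none => true
    | some u => allL (fun j => Nat.beq (g D (R * j + u)) (g D u)) (List.range (n + 1)))
    (List.range 26)

/-- the values of the constant columns -/
noncomputable def cstV (D R : ℕ) (f : ℕ → Option ℕ) (i : ℕ) : ℝ := (oTq D R (cfu f i)).u 0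

/-- the form of the constant columns -/
noncomputable def cstF (D R : ℕ) (f : ℕ → Option ℕ) (p : Pt) : ℝ := FF26 (cstV D R f) p

theorem cfu_none {f : ℕ → Option ℕ} {i : ℕ} (h : f i = none) : cfu f i = none := by
  unfold cfu
  rw [h]
  rfl

theorem cfu_some {f : ℕ → Option ℕ} {i u : ℕ} (h : f i = some u) :
    cfu f i = some ⟨u, u, u⟩ := by
  unfold cfu
  rw [h]
  rfl

theorem cst_u {D R n : ℕ} {f : ℕ → Option ℕ} (h : cstB D R n f = true) {i : ℕ} (hi : i < 26)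
    {j : ℕ} (hj : j ≤ n) : (oTq D R (cfu f i)).u j = cstV D R f i := by
  have k := allL_of h i (List.mem_range.2 hi)
  unfold cstV
  cases hf : f i with
  | none => rw [cfu_none hf]; rfl
  | some u =>
    rw [cfu_some hf]
    simp only [hf] at k
    have k2 := Nat.eq_of_beq_eq_true (allL_of k j (List.mem_range.2 (by omega)))
    show sn D R u j = sn D R u 0
    unfold sn Sg.sv
    rw [k2, mul_zero, zero_add]

theorem cst_up {D R n : ℕ} {f : ℕ → Option ℕ} (h : cstB D R n f = true) {i : ℕ} (hi : i < 26)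
    {t : ℕ → ℝ} (hm : Msh t n) (hn : 0 < n) {ρ : ℝ} (hρ : ρ ∈ Icc (t 0) (t n)) :
    (oTq D R (cfu f i)).up t n ρ = cstV D R f i := by
  obtain ⟨j, hj, hj2⟩ := hm.stepc hn hρ
  show pl t (oTq D R (cfu f i)).u n ρ = _
  rw [pl_on hm hj hj2, cst_u h hi hj.le, cst_u h hi (Nat.succ_le_of_lt hj), sub_self, zero_mul,
    add_zero]

/-- **a form of constant columns over time** -/
theorem cst_cf {D R n iH : ℕ} {f : ℕ → Option ℕ} (h : cstB D R n f = true)
    (hm : Msh (tmD D R iH) n) (hn : 0 < n) {ρ : ℝ}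
    (hρ : ρ ∈ Icc (tmD D R iH 0) (tmD D R iH n)) {F : ℕ → Re}
    (hF : reqF Nat.beq F (cre2 Cf.u R (cfu f)) = true) (p : Pt) :
    Sp12.cf F (cD (tmD D R iH) n ρ) (eD D R (tmD D R iH) n ρ) p = cstF D R f p := by
  have st := ixD_spec hm hn hρ
  have e1 : ∀ a b, Nat.beq a b = true → eD D R (tmD D R iH) n ρ a = eD D R (tmD D R iH) n ρ b :=
    fun a b h => by rw [Nat.eq_of_beq_eq_true h]
  rw [reqF_cf e1 hF]
  refine (cf_up st (cfu f) p).trans ?_
  unfold cstF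
  rw [lf_26.eq, lf_26.eq]
  exact Finset.sum_congr rfl fun i hi => by
    rw [cst_up h (Finset.mem_range.1 hi) hm hn hρ]

/-- no columns: zero -/
theorem cstF_none {D R : ℕ} {f : ℕ → Option ℕ} (h : ∀ i < 26, f i = none) (p : Pt) :
    cstF D R f p = 0 := by
  unfold cstF
  rw [lf_26.eq]
  refine Finset.sum_eq_zero fun i hi => ?_
  unfold cstV
  rw [cfu_none (h i (Finset.mem_range.1 hi))]
  exact zero_mul _

/-! ### the record -/

/-- **the union record of the tables of a system of level 1**: targets, positions, kernels, values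
of the targets, of the positions and of the end values; `nu du` the entries of the end values,
`iS1 iS2 iκ im` the entries of the scalars -/
structure Sb1 where
  tt : Tt1
  tp : Tp1
  kp : Kp1
  v1 : Vl1
  v2 : Vl1
  v3 : Vl1
  nu : ℕ → ℕ → Option ℕ
  du : ℕ → ℕ → Option ℕ
  iS1 : ℕ
  iS2 : ℕ
  iκ : ℕ
  im : ℕ

namespace Sb1

variable (X : Sb1)

/-- all lines -/
def sheet : Sheet := X.tt.sheet.app (X.tp.sheet.app (X.kp.sheet.app (X.v1.sheet.app
  (X.v2.sheet.app X.v3.sheet))))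

/-- the parts belong together -/
structure Fit (j0 : Fin X.tt.b.J) (m0 : Fin X.tp.b.N) : Prop where
  R1 : X.tp.R = X.tt.R
  H1 : X.tp.iH = X.tt.iH
  R2 : X.kp.R = X.tt.R
  H2 : X.kp.iH = X.tt.iH
  Ra : X.v1.R = X.tt.R
  Ha : X.v1.iH = X.tt.iH
  Rb : X.v2.R = X.tt.R
  Hb : X.v2.iH = X.tt.iH
  Rc : X.v3.R = X.tt.R
  Hc : X.v3.iH = X.tt.iH
  pRR : X.tp.b.RR = X.tt.b.RR
  pW : X.tp.b.W = X.tt.b.W
  pWp : X.tp.b.Wp = X.tt.b.Wp
  pRD : X.tp.b.RD = X.tt.b.RD
  pRF : X.tp.b.RF = X.tt.b.RF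
  pκD : X.tp.b.κD = X.tt.b.κD
  pκE : X.tp.b.κE = X.tt.b.κE
  pc1 : X.tp.b.c1 = X.tt.b.c1
  pc4 : X.tp.b.c4 = X.tt.b.c4
  kRR : X.kp.RR = X.tt.b.RR
  kRD : X.kp.RD = X.tt.b.RD
  kRF : X.kp.RF = X.tt.b.RF
  kκD : X.kp.κD = X.tt.b.κD
  kκE : X.kp.κE = X.tt.b.κE
  kc1 : X.kp.c1 = X.tt.b.c1
  kc4 : X.kp.c4 = X.tt.b.c4
  a1 : X.v1.a = X.tt.a true j0
  p1 : X.v1.cp = X.tt.cp true j0
  s1 : X.v1.S = X.kp.S1
  a2 : X.v2.a = X.tp.a true m0
  p2 : X.v2.cp = X.tp.cp true m0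
  s2 : X.v2.S = X.kp.S2
  a3 : X.v3.a = cfu (X.du m0)
  p3 : X.v3.cp = none
  s3 : X.v3.S = kr X.kp.iP
  eS1 : X.kp.S1 = lr X.tt.R X.iS1
  eS2 : X.kp.S2 = lr X.tt.R X.iS2
  eκ : X.kp.κ = lr X.tt.R X.iκ
  em : X.kp.m = lr X.tt.R X.im
  w1 : ∀ p, (X.tp.b.w1 m0).fn p = 1

/-- **the format**, a check of the record; `m0` the weight one -/
def okT (m0 : ℕ) : Bool :=
  X.tt.okT && (X.tp.okT && (X.kp.okT && (X.v1.okT && (X.v2.okT && (X.v3.okT
    && (allL (fun m => reqF Nat.beq (X.tp.b.nu m) (cre2 Cf.u X.tt.R (cfu (X.nu m)))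
      && reqF Nat.beq (X.tp.b.du m) (cre2 Cf.u X.tt.R (cfu (X.du m)))) (List.range X.tp.b.N)
    && (reqF Nat.beq X.tt.b.nu (cre2 Cf.u X.tt.R (cfu (X.nu m0)))
    && (reqF Nat.beq X.tt.b.du (cre2 Cf.u X.tt.R (cfu (X.du m0)))
    && (isZ X.tt.b.Cnu && (isZ X.tt.b.Cdu && (isZ X.tt.b.Rp && (isZ X.tt.b.RDp
    && isZ X.tt.b.REp))))))))))))

/-- **the format of the data** -/
noncomputable def okD (D n : ℕ) : Bool :=
  X.tt.okE D n && (X.tp.okE D n && (X.kp.okE D n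
    && allL (fun m => cstB D X.tt.R n (X.nu m) && cstB D X.tt.R n (X.du m))
      (List.range X.tp.b.N)))

/-- no end values -/
def nil : Bool := allL (fun m => allL (fun i => (X.nu m i).isNone && (X.du m i).isNone)
  (List.range 26)) (List.range X.tp.b.N)

/-- **the tables of the system** -/
noncomputable def sys (D n : ℕ) (j0 : Fin X.tt.b.J) (m0 : Fin X.tp.b.N) :
    TSys (Fin X.tt.b.J) (Fin X.tp.b.N) (Fin X.tt.b.N) where
  t := X.tt.tm D
  n := n
  E := X.tt.env D n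
  wv := fun l => (X.tt.b.wv l).fn
  B := fun s l ρ => Sp12.cf (X.tt.b.B s l) (X.tt.tc D n ρ) (X.tt.te D n ρ)
  CB := fun s l ρ => (X.tt.b.CB s l).tv (X.tt.tc D n ρ) (X.tt.te D n ρ)
  w1 := fun m => (X.tp.b.w1 m).fn
  B1 := fun s m ρ => Sp12.cf (X.tp.b.B s m) (X.tp.tc D n ρ) (X.tp.te D n ρ)
  CB1 := fun _ _ _ => 0
  ν := fun m => cstF D X.tt.R (X.nu m)
  δ := fun m => cstF D X.tt.R (X.du m)
  Cν := fun _ => 0
  Cδ := fun _ => 0
  tt := X.tt.tt1 D n
  tp := X.tp.tp1 D n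
  k := X.kp.kt D
  m0 := m0
  j0 := j0
  S1 := X.kp.sc D n X.kp.S1
  S2 := X.kp.sc D n X.kp.S2
  κ := X.kp.sc D n X.kp.κ
  m := X.kp.sc D n X.kp.m
  Mt := X.kp.sc D n X.kp.Mt

variable {X} {D n : ℕ} {j0 : Fin X.tt.b.J} {m0 : Fin X.tp.b.N}

/-- the sheets of the parts -/
structure Shs (X : Sb1) (D n : ℕ) : Prop where
  tt : ∀ j < n, X.tt.sheet.At D X.tt.R j
  tp : ∀ j < n, X.tp.sheet.At D X.tt.R j
  kp : ∀ j < n, X.kp.sheet.At D X.tt.R j
  v1 : ∀ j < n, X.v1.sheet.At D X.tt.R j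
  v2 : ∀ j < n, X.v2.sheet.At D X.tt.R j
  v3 : ∀ j < n, X.v3.sheet.At D X.tt.R j

theorem shs (hS : ∀ j < n, X.sheet.At D X.tt.R j) : X.Shs D n where
  tt := fun j hj => Sheet.At.left (hS j hj)
  tp := fun j hj => Sheet.At.left (Sheet.At.right (hS j hj))
  kp := fun j hj => Sheet.At.left (Sheet.At.right (Sheet.At.right (hS j hj)))
  v1 := fun j hj => Sheet.At.left (Sheet.At.right (Sheet.At.right (Sheet.At.right (hS j hj))))
  v2 := fun j hj => Sheet.At.left (Sheet.At.right (Sheet.At.right (Sheet.At.right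
    (Sheet.At.right (hS j hj)))))
  v3 := fun j hj => Sheet.At.right (Sheet.At.right (Sheet.At.right (Sheet.At.right
    (Sheet.At.right (hS j hj)))))

/-- the checks of the record as propositions -/
structure Fm (X : Sb1) (m0 : ℕ) : Prop where
  tt : X.tt.okT = true
  tp : X.tp.okT = true
  kp : X.kp.Fmt
  v1 : X.v1.okT = true
  v2 : X.v2.okT = true
  v3 : X.v3.okT = true
  nu : ∀ m < X.tp.b.N, reqF Nat.beq (X.tp.b.nu m) (cre2 Cf.u X.tt.R (cfu (X.nu m))) = true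
  du : ∀ m < X.tp.b.N, reqF Nat.beq (X.tp.b.du m) (cre2 Cf.u X.tt.R (cfu (X.du m))) = true
  nt : reqF Nat.beq X.tt.b.nu (cre2 Cf.u X.tt.R (cfu (X.nu m0))) = true
  dt : reqF Nat.beq X.tt.b.du (cre2 Cf.u X.tt.R (cfu (X.du m0))) = true
  Cnu : isZ X.tt.b.Cnu = true
  Cdu : isZ X.tt.b.Cdu = true
  Rp : isZ X.tt.b.Rp = true
  RDp : isZ X.tt.b.RDp = true
  REp : isZ X.tt.b.REp = true

theorem fm {m0 : ℕ} (h : X.okT m0 = true) : X.Fm m0 := by
  unfold okT at h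
  simp only [Bool.and_eq_true] at h
  obtain ⟨h1, h2, h3, h4, h5, h6, h7, h8, h9, h10, h11, h12, h13, h14⟩ := h
  have k : ∀ m < X.tp.b.N, _ := fun m hm => allL_of h7 m (List.mem_range.2 hm)
  simp only [Bool.and_eq_true] at k
  exact ⟨h1, h2, Kp1.okT_of h3, h4, h5, h6, fun m hm => (k m hm).1, fun m hm => (k m hm).2, h8,
    h9, h10, h11, h12, h13, h14⟩

/-- the checks of the data as propositions -/
structure Dm (X : Sb1) (D n : ℕ) : Prop where
  tt : X.tt.okE D n = true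
  tp : X.tp.okE D n = true
  kp : X.kp.okE D n = true
  nu : ∀ m < X.tp.b.N, cstB D X.tt.R n (X.nu m) = true
  du : ∀ m < X.tp.b.N, cstB D X.tt.R n (X.du m) = true

theorem dm (h : X.okD D n = true) : X.Dm D n := by
  unfold okD at h
  simp only [Bool.and_eq_true] at h
  obtain ⟨h1, h2, h3, h4⟩ := h
  have k : ∀ m < X.tp.b.N, _ := fun m hm => allL_of h4 m (List.mem_range.2 hm)
  simp only [Bool.and_eq_true] at k
  exact ⟨h1, h2, h3, fun m hm => (k m hm).1, fun m hm => (k m hm).2⟩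

theorem nil_of (h : X.nil = true) {m : ℕ} (hm : m < X.tp.b.N) :
    (∀ i < 26, X.nu m i = none) ∧ ∀ i < 26, X.du m i = none := by
  have k := allL_of h m (List.mem_range.2 hm)
  have k2 : ∀ i < 26, _ := fun i hi => allL_of k i (List.mem_range.2 hi)
  simp only [Bool.and_eq_true, Option.isNone_iff_eq_none] at k2
  exact ⟨fun i hi => (k2 i hi).1, fun i hi => (k2 i hi).2⟩

end Sb1

end Pool.Agent.RZ.RCO
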