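import Pool.Agent.RZ.RCO.EdD
import Pool.Agent.RZ.RCO.Gg6
import Pool.Agent.RZ.RCO.Gk14
import Pool.Agent.RZ.RCO.Gs19

/-! Route P: the forms of a big cell are the used values of its tables, the record of the bounds of
a class is above them (MP_73ccd0_lc). -/

set_option autoImplicit false
set_option linter.unusedSectionVars false

namespace Pool.Agent.RZ.RCO

open Set Finset

/-! ### the place -/

/-- the interpolation between the ends is the mixture -/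
theorem li_sg {A : ℕ → ℝ} {l : ℕ} {θ z a b σ u v : ℝ} (ha : ag A z l = a)
    (hb : ag A z (l + 1) = b) (hs : sgE A l θ z = σ) (hab : a < b) :
    li a b u v σ = mx θ u v := by
  have h1 : b - a ≠ 0 := by linarith
  have e : σ = a + θ * (b - a) := by
    rw [← hs, ← ha, ← hb]
    rfl
  rw [e]
  unfold li mx
  field_simp
  ring

theorem li_same {a b σ u : ℝ} (hab : a < b) : li a b u u σ = u := by
  have h1 : b - a ≠ 0 := by linarith
  unfold li
  field_simp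
  ring

/-! ### the forms are the used values -/

section fm

variable {J M Λ J' M' Λ' Λ0 : Type*}

/-- **the forms of the columns**: `jP`, `jN` the variants of the targets of the last end -/
structure FmC (c : CelD J M Λ J' M' Λ' Λ0) (k : CelK M M') (h : Ehk) (jP jN : J) : Prop where
  G0 : ∀ r p, c.d.tf.U FF26 c.t c.n false c.l1 r p = h.x.G0.fn r p
  G : ∀ r p, c.d.tf.U FF26 c.t c.n true c.l1 r p = h.cd.G.fn r p
  P : ∀ r p, (c.kd c.nc).tt.f.U FF26 (c.kd c.nc).t (c.kd c.nc).n true jP r p = h.cd.P.fn r p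
  N : ∀ r p, (c.kd c.nc).tt.f.U FF26 (c.kd c.nc).t (c.kd c.nc).n false jN r p = h.x.N.fn r p
  N2m : ∀ l < c.nc, ∀ r p, puE FF26 c.kd l (c.kd (l + 1)).m0 r p = (h.x.N2m l).fn r p
  N2p : ∀ l < c.nc, ∀ r p, puE FF26 c.kd (l + 1) (c.kd (l + 1)).m0 r p = (h.x.N2p l).fn r p
  N3m : ∀ l < c.nc, ∀ r p, puE FF26 c.rl (l + 1) (c.rl (l + 1)).m0 r p = (h.x.N3m l).fn r p
  N3p : ∀ l < c.nc, ∀ r p, puE FF26 c.rl (l + 1) (c.rl (l + 1)).m0 r p = (h.x.N3p l).fn r p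
  Km : ∀ l < c.nc, ∀ r p, kuE FF26 k.x12 l r p = (h.x.Km l).fn r p
  Kp : ∀ l < c.nc, ∀ r p, kuE FF26 k.x12 (l + 1) r p = (h.x.Kp l).fn r p
  KFm : ∀ l < c.nc, ∀ r p, kuE FF26 k.x13 (l + 1) r p = (h.x.KFm l).fn r p
  KFp : ∀ l < c.nc, ∀ r p, kuE FF26 k.x13 (l + 1) r p = (h.x.KFp l).fn r p

/-- **the forms of the rows**: `j2`, `j3` the variants of the targets -/
structure FmR (c : CelD J M Λ J' M' Λ' Λ0) (k : CelK M M') (h : Ehk) (j2 : J) (j3 : J') :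
    Prop where
  P : ∀ r p, (c.kd c.nc).tp.f.U FF26 (c.kd c.nc).t (c.kd c.nc).n true (c.kd c.nc).m0 r p
    = h.cd.P.fn r p
  N : ∀ r p, (c.kd c.nc).tp.f.U FF26 (c.kd c.nc).t (c.kd c.nc).n false (c.kd c.nc).m0 r p
    = h.x.N.fn r p
  N2m : ∀ l < c.nc, ∀ r p, tuE FF26 c.kd l j2 r p = (h.x.N2m l).fn r p
  N2p : ∀ l < c.nc, ∀ r p, tuE FF26 c.kd (l + 1) j2 r p = (h.x.N2p l).fn r p
  N3m : ∀ l < c.nc, ∀ r p, tuE FF26 c.rl (l + 1) j3 r p = (h.x.N3m l).fn r p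
  N3p : ∀ l < c.nc, ∀ r p, tuE FF26 c.rl (l + 1) j3 r p = (h.x.N3p l).fn r p
  Km : ∀ l < c.nc, ∀ r p, kuE FF26 k.x21 l r p = (h.x.Km l).fn r p
  Kp : ∀ l < c.nc, ∀ r p, kuE FF26 k.x21 (l + 1) r p = (h.x.Kp l).fn r p
  KFm : ∀ l < c.nc, ∀ r p, kuE FF26 k.x31 (l + 1) r p = (h.x.KFm l).fn r p
  KFp : ∀ l < c.nc, ∀ r p, kuE FF26 k.x31 (l + 1) r p = (h.x.KFp l).fn r p

variable {c : CelD J M Λ J' M' Λ' Λ0} {k : CelK M M'} {xc xr : Ehk} {jP jN j2 : J} {j3 : J'}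
  {W : ℤ} {dj : Dj} {nh nf l : ℕ} {cc z θ a b σ ρ : ℝ}

/-- **the rows of level 1/2 of a class** -/
theorem FmC.b0 (h : FmC c k xc jP jN) (hz : z = cc * ((W : ℝ) / 2 ^ 24)) :
    c.B0 FF26 z ρ (Ehk.B xc xr W dj nh nf cc l a b σ ρ) where
  G0 := fun p _ => by
    rw [h.G0, hz]
    exact le_rfl
  Gr := fun p _ => by
    rw [h.G, hz]
    exact le_rfl

variable (hl : l < c.nc) (hz : z = cc * ((W : ℝ) / 2 ^ 24)) (ha : ag c.A z l = a)
  (hb : ag c.A z (l + 1) = b) (hs : sgE c.A l θ z = σ) (hab : a < b)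

include hl hz ha hb hs hab

/-- **the values of the columns of a class** -/
theorem FmC.bc (h : FmC c k xc jP jN) :
    c.Bc FF26 l θ z ρ (Ehk.B xc xr W dj nh nf cc l a b σ ρ) where
  P1 := fun p _ => ⟨jP, by
    rw [h.P, hz]
    exact le_rfl⟩
  N1 := fun p _ => ⟨jN, by
    rw [h.N, hz]
    exact le_rfl⟩
  Nc2 := fun p _ => by
    rw [← li_sg ha hb hs hab, h.N2m l hl, h.N2p l hl, hz]
    exact le_rfl
  Nc3 := fun p _ => by
    rw [← li_same (σ := σ) (u := puE FF26 c.rl (l + 1) (c.rl (l + 1)).m0 z p) hab]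
    nth_rewrite 1 [h.N3m l hl]
    rw [h.N3p l hl, hz]
    exact le_rfl

/-- **the sums of level 2 of the columns of a class** -/
theorem FmC.kbc (h : FmC c k xc jP jN) :
    k.Bc FF26 l θ z (Ehk.B xc xr W dj nh nf cc l a b σ ρ) where
  K12 := fun p _ => by
    rw [← li_sg ha hb hs hab, h.Km l hl, h.Kp l hl, hz]
    exact le_rfl
  K13 := fun p _ => by
    rw [← li_same (σ := σ) (u := kuE FF26 k.x13 (l + 1) z p) hab]
    nth_rewrite 1 [h.KFm l hl]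
    rw [h.KFp l hl, hz]
    exact le_rfl

/-- **the values of the rows of a class** -/
theorem FmR.br (h : FmR c k xr j2 j3) :
    c.Br FF26 l θ z ρ (Ehk.B xc xr W dj nh nf cc l a b σ ρ) where
  Pc1 := fun p _ => by
    rw [h.P, hz]
    exact le_rfl
  Nc1 := fun p _ => by
    rw [h.N, hz]
    exact le_rfl
  N2 := fun p _ => ⟨j2, j2, by
    rw [← li_sg ha hb hs hab, h.N2m l hl, h.N2p l hl, hz]
    exact le_rfl⟩
  N3 := fun p _ => ⟨j3, by
    rw [← li_same (σ := σ) (u := tuE FF26 c.rl (l + 1) j3 z p) hab]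
    nth_rewrite 1 [h.N3m l hl]
    rw [h.N3p l hl, hz]
    exact le_rfl⟩

/-- **the sums of level 2 of the rows of a class** -/
theorem FmR.kbr (h : FmR c k xr j2 j3) :
    k.Br FF26 l θ z (Ehk.B xc xr W dj nh nf cc l a b σ ρ) where
  K21 := fun p _ => by
    rw [← li_sg ha hb hs hab, h.Km l hl, h.Kp l hl, hz]
    exact le_rfl
  K31 := fun p _ => by
    rw [← li_same (σ := σ) (u := kuE FF26 k.x31 (l + 1) z p) hab]
    nth_rewrite 1 [h.KFm l hl]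
    rw [h.KFp l hl, hz]
    exact le_rfl

end fm

/-! ### the record of the forms and of the numbers -/

/-- the form zero with the data of `x` -/
def Fm.zz (x : Fm) : Fm := { x with a := fun _ => none }

theorem Fm.zz_fn (x : Fm) (r : ℝ) (p : Pt) : x.zz.fn r p = 0 := by
  have e : x.zz.cf r = fun _ => 0 := funext fun i => Fm.cf_none (x := x.zz) rfl r
  unfold Fm.fn
  rw [e]
  exact ff_zero p

/-- the forms of the left ends: zero in the first coarse cell -/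
def fmL (f : ℕ → Fm) : ℕ → Fm
  | 0 => (f 1).zz
  | l + 1 => f (l + 1)

/-- **the numbers of the columns or of the rows of one big cell** -/
structure EhN where
  K : ℕ → ℕ
  T : ℕ → ℤ
  lo : ℕ → ℕ → ℤ
  hi : ℕ → ℕ → ℤ
  lo1 : ℕ → ℤ
  J0 : ℕ → ℤ
  J1 : ℕ → ℤ
  F0 : ℕ → ℤ
  F1 : ℕ → ℤ
  Hm0 : ℕ → ℤ
  Hm1 : ℕ → ℤ
  Hp : ℕ → ℤ
  tg : ℕ → ℕ → ℤ
  ML : ℕ → E4
  PL : ℕ → E4
  MF : ℕ → E4
  PF : ℕ → E4

/-- **the record of the columns or rows of one big cell** from its forms: rows of level 1/2 `G0`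
(lower), `G` (upper), the first system `P` (upper), `N` (lower), for the end `l` (`0 < l`) the sums
of level 2 and the lower sums of the second system, killed `fK`, `fN`, released `gK`, `gN` -/
def Ehk.of (G0 G P N : Fm) (fK fN gK gN : ℕ → Fm) (u : EhN) : Ehk where
  x := {
    G0 := G0
    N := N
    Km := fmL fK
    Kp := fun l => fK (l + 1)
    N2m := fmL fN
    N2p := fun l => fN (l + 1)
    KFm := fun l => gK (l + 1)
    KFp := fun l => gK (l + 1)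
    N3m := fun l => gN (l + 1)
    N3p := fun l => gN (l + 1)
    lo := u.lo
    hi := u.hi
    lo1 := u.lo1
    J0 := u.J0
    J1 := u.J1
    F0 := u.F0
    F1 := u.F1
    Hm0 := u.Hm0
    Hm1 := u.Hm1
    Hp := u.Hp
    tg := u.tg }
  cd := ⟨P, G, u.K, u.T, u.lo, u.hi, u.lo1⟩
  ML := u.ML
  PL := u.PL
  MF := u.MF
  PF := u.PF

section of

variable {J M Λ J' M' Λ' Λ0 : Type*}
variable {c : CelD J M Λ J' M' Λ' Λ0} {k : CelK M M'} {jP jN j2 : J} {j3 : J'}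
  {G0 G P N : Fm} {fK fN gK gN : ℕ → Fm} {u : EhN}

theorem pu_fm {q : ℕ → TSys J M Λ} {l : ℕ} {m : M} {x : Fm}
    (h : ∀ r p, (q (l + 1)).tp.f.U FF26 (q (l + 1)).t (q (l + 1)).n false m r p = x.fn r p)
    (r : ℝ) (p : Pt) : puE FF26 q (l + 1) m r p = x.fn r p := by
  unfold puE
  rw [if_neg (Nat.succ_ne_zero l)]
  exact h r p

theorem tu_fm {q : ℕ → TSys J M Λ} {l : ℕ} {j : J} {x : Fm}
    (h : ∀ r p, (q (l + 1)).tt.f.U FF26 (q (l + 1)).t (q (l + 1)).n false j r p = x.fn r p)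
    (r : ℝ) (p : Pt) : tuE FF26 q (l + 1) j r p = x.fn r p := by
  unfold tuE
  rw [if_neg (Nat.succ_ne_zero l)]
  exact h r p

theorem ku_fm {q : ℕ → TKs M} {l : ℕ} {x : Fm}
    (h : ∀ r p, FF26 (fun i => ((q (l + 1)).k.k i).up (q (l + 1)).t (q (l + 1)).n r) p = x.fn r p)
    (r : ℝ) (p : Pt) : kuE FF26 q (l + 1) r p = x.fn r p := by
  unfold kuE
  rw [if_neg (Nat.succ_ne_zero l)]
  exact h r p

/-- **the forms of the columns from the forms of the tables** -/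
theorem FmC.of
    (hG0 : ∀ r p, c.d.tf.U FF26 c.t c.n false c.l1 r p = G0.fn r p)
    (hG : ∀ r p, c.d.tf.U FF26 c.t c.n true c.l1 r p = G.fn r p)
    (hP : ∀ r p, (c.kd c.nc).tt.f.U FF26 (c.kd c.nc).t (c.kd c.nc).n true jP r p = P.fn r p)
    (hN : ∀ r p, (c.kd c.nc).tt.f.U FF26 (c.kd c.nc).t (c.kd c.nc).n false jN r p = N.fn r p)
    (hm : ∀ l, 0 < l → l < c.nc → (c.kd (l + 1)).m0 = (c.kd l).m0)
    (hfN : ∀ l, 0 < l → l ≤ c.nc → ∀ r p,
      (c.kd l).tp.f.U FF26 (c.kd l).t (c.kd l).n false (c.kd l).m0 r p = (fN l).fn r p)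
    (hgN : ∀ l, 0 < l → l ≤ c.nc → ∀ r p,
      (c.rl l).tp.f.U FF26 (c.rl l).t (c.rl l).n false (c.rl l).m0 r p = (gN l).fn r p)
    (hfK : ∀ l, 0 < l → l ≤ c.nc → ∀ r p,
      FF26 (fun i => ((k.x12 l).k.k i).up (k.x12 l).t (k.x12 l).n r) p = (fK l).fn r p)
    (hgK : ∀ l, 0 < l → l ≤ c.nc → ∀ r p,
      FF26 (fun i => ((k.x13 l).k.k i).up (k.x13 l).t (k.x13 l).n r) p = (gK l).fn r p) :
    FmC c k (Ehk.of G0 G P N fK fN gK gN u) jP jN where
  G0 := hG0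
  G := hG
  P := hP
  N := hN
  N2m := fun l hl r p => by
    cases l with
    | zero =>
      show (0 : ℝ) = (fN 1).zz.fn r p
      rw [Fm.zz_fn]
    | succ l =>
      rw [hm (l + 1) (Nat.succ_pos l) hl]
      exact pu_fm (hfN (l + 1) (Nat.succ_pos l) hl.le) r p
  N2p := fun l hl => pu_fm (hfN (l + 1) (Nat.succ_pos l) hl)
  N3m := fun l hl => pu_fm (hgN (l + 1) (Nat.succ_pos l) hl)
  N3p := fun l hl => pu_fm (hgN (l + 1) (Nat.succ_pos l) hl)
  Km := fun l hl r p => by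
    cases l with
    | zero =>
      show (0 : ℝ) = (fK 1).zz.fn r p
      rw [Fm.zz_fn]
    | succ l => exact ku_fm (hfK (l + 1) (Nat.succ_pos l) hl.le) r p
  Kp := fun l hl => ku_fm (hfK (l + 1) (Nat.succ_pos l) hl)
  KFm := fun l hl => ku_fm (hgK (l + 1) (Nat.succ_pos l) hl)
  KFp := fun l hl => ku_fm (hgK (l + 1) (Nat.succ_pos l) hl)

/-- **the forms of the rows from the forms of the tables** -/
theorem FmR.of
    (hP : ∀ r p, (c.kd c.nc).tp.f.U FF26 (c.kd c.nc).t (c.kd c.nc).n true (c.kd c.nc).m0 r p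
      = P.fn r p)
    (hN : ∀ r p, (c.kd c.nc).tp.f.U FF26 (c.kd c.nc).t (c.kd c.nc).n false (c.kd c.nc).m0 r p
      = N.fn r p)
    (hfN : ∀ l, 0 < l → l ≤ c.nc → ∀ r p,
      (c.kd l).tt.f.U FF26 (c.kd l).t (c.kd l).n false j2 r p = (fN l).fn r p)
    (hgN : ∀ l, 0 < l → l ≤ c.nc → ∀ r p,
      (c.rl l).tt.f.U FF26 (c.rl l).t (c.rl l).n false j3 r p = (gN l).fn r p)
    (hfK : ∀ l, 0 < l → l ≤ c.nc → ∀ r p,
      FF26 (fun i => ((k.x21 l).k.k i).up (k.x21 l).t (k.x21 l).n r) p = (fK l).fn r p)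
    (hgK : ∀ l, 0 < l → l ≤ c.nc → ∀ r p,
      FF26 (fun i => ((k.x31 l).k.k i).up (k.x31 l).t (k.x31 l).n r) p = (gK l).fn r p) :
    FmR c k (Ehk.of G0 G P N fK fN gK gN u) j2 j3 where
  P := hP
  N := hN
  N2m := fun l hl r p => by
    cases l with
    | zero =>
      show (0 : ℝ) = (fN 1).zz.fn r p
      rw [Fm.zz_fn]
    | succ l => exact tu_fm (hfN (l + 1) (Nat.succ_pos l) hl.le) r p
  N2p := fun l hl => tu_fm (hfN (l + 1) (Nat.succ_pos l) hl)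
  N3m := fun l hl => tu_fm (hgN (l + 1) (Nat.succ_pos l) hl)
  N3p := fun l hl => tu_fm (hgN (l + 1) (Nat.succ_pos l) hl)
  Km := fun l hl r p => by
    cases l with
    | zero =>
      show (0 : ℝ) = (fK 1).zz.fn r p
      rw [Fm.zz_fn]
    | succ l => exact ku_fm (hfK (l + 1) (Nat.succ_pos l) hl.le) r p
  Kp := fun l hl => ku_fm (hfK (l + 1) (Nat.succ_pos l) hl)
  KFm := fun l hl => ku_fm (hgK (l + 1) (Nat.succ_pos l) hl)
  KFp := fun l hl => ku_fm (hgK (l + 1) (Nat.succ_pos l) hl)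

end of

/-! ### the forms of the data records -/

/-- the form of a row of level 1/2 -/
def fmY (y : Tp12) (D n : ℕ) (s : Bool) (m : ℕ) : Fm := ⟨D, y.R, y.iH, n, y.a s m⟩

/-- the form of a target -/
def fmT (X : Sb1) (D n : ℕ) (s : Bool) (j : ℕ) : Fm := ⟨D, X.tt.R, X.tt.iH, n, X.tt.a s j⟩

/-- the form of a position -/
def fmP (X : Sb1) (D n : ℕ) (s : Bool) (m : ℕ) : Fm := ⟨D, X.tt.R, X.tt.iH, n, X.tp.a s m⟩

/-- the form of a sum of level 2 -/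
def fmK (k : Tk1) (D n : ℕ) : Fm := ⟨D, k.R, k.iH, n, k.a⟩

theorem fmY_U (y : Tp12) (D n : ℕ) (Nr : ℝ → Pt → ℝ) (Np : ℝ → ℝ → ℝ) (s : Bool)
    (m : Fin y.b.N) (r : ℝ) (p : Pt) :
    (y.t12 D n Nr Np).tf.U FF26 (tmD D y.R y.iH) n s m r p = (fmY y D n s m).fn r p := rfl

theorem fmT_U (X : Sb1) (D n : ℕ) (j0 : Fin X.tt.b.J) (m0 : Fin X.tp.b.N) (s : Bool)
    (j : Fin X.tt.b.J) (r : ℝ) (p : Pt) :
    (X.sys D n j0 m0).tt.f.U FF26 (X.sys D n j0 m0).t (X.sys D n j0 m0).n s j r p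
      = (fmT X D n s j).fn r p := rfl

theorem fmP_U {X : Sb1} (D n : ℕ) {j0 : Fin X.tt.b.J} {m0 : Fin X.tp.b.N}
    (hR : X.tp.R = X.tt.R) (s : Bool) (m : Fin X.tp.b.N) (r : ℝ) (p : Pt) :
    (X.sys D n j0 m0).tp.f.U FF26 (X.sys D n j0 m0).t (X.sys D n j0 m0).n s m r p
      = (fmP X D n s m).fn r p := by
  show FF26 (fun i => (oTq D X.tp.R (X.tp.a s m i)).up (X.tt.tm D) n r) p
    = FF26 (fun i => (oTq D X.tt.R (X.tp.a s m i)).up (tmD D X.tt.R X.tt.iH) n r) p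
  rw [hR]
  rfl

end Pool.Agent.RZ.RCO
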