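import Pool.Agent.RZ.RCO.Gi6

/-! The conditions of the kernels and of the scalars at one time from the checks of a sheet
(MP_73ccd0_lc). -/

set_option autoImplicit false

namespace Pool.Agent.RZ.RCO

open Sg Set

namespace Kp1

variable {x : Kp1} {D n : ℕ}

/-- the used values of the killing are nonnegative -/
theorem uH0 (hO : x.Fmt) (hE : x.okE D n = true) (hn : 0 < n)
    (hS : ∀ j < n, x.sheet.At D x.R j) {ρ : ℝ} (hρ : ρ ∈ Icc (x.tm D 0) (x.tm D n))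
    {y : ℝ} (hy : y ∈ Icc 0 x.ym) : 0 ≤ x.uH D n ρ y :=
  (kt_ok hO hE hn hS).up0 (msh hS) hn ρ hρ y hy

theorem ratio {f P : ℝ} (hf : f ∈ Icc 0 P) : ∃ s, 0 ≤ s ∧ s ≤ 1 ∧ f = s * P := by
  rcases eq_or_lt_of_le (hf.1.trans hf.2) with h | h
  · refine ⟨0, le_rfl, zero_le_one, ?_⟩
    rw [← h] at hf
    rw [zero_mul]
    exact le_antisymm hf.2 hf.1
  · exact ⟨f / P, div_nonneg hf.1 h.le, (div_le_one h).2 hf.2, by field_simp⟩

/-- **the exponential of two parts from its values at the corners** -/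
theorem crn {A κ c P S : ℝ} (A0 : 0 ≤ A)
    (h1 : A * (Real.exp P - 1) ≤ κ * P) (h2 : A * (Real.exp S - 1) ≤ c * S)
    (h3 : A * (Real.exp (P + S) - 1) ≤ κ * P + c * S) {f u : ℝ} (hf : f ∈ Icc 0 P)
    (hu : u ∈ Icc 0 S) : A * (Real.exp (f + u) - 1) ≤ κ * f + c * u := by
  obtain ⟨s, s0, s1, rfl⟩ := ratio hf
  obtain ⟨t, t0, t1, rfl⟩ := ratio hu
  have a1 := exp_mx s0 s1 0 P
  have a2 := exp_mx t0 t1 0 S
  unfold mx at a1 a2
  rw [Real.exp_zero, mul_zero, zero_add] at a1 a2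
  have e : Real.exp (s * P + t * S)
      ≤ ((1 - s) * 1 + s * Real.exp P) * ((1 - t) * 1 + t * Real.exp S) := by
    rw [Real.exp_add]
    exact mul_le_mul a1 a2 (Real.exp_pos _).le ((Real.exp_pos _).le.trans a1)
  rw [Real.exp_add] at h3
  have k := mul_le_mul_of_nonneg_left e A0
  have k1 := mul_le_mul_of_nonneg_left h1 (mul_nonneg s0 (sub_nonneg.2 t1))
  have k2 := mul_le_mul_of_nonneg_left h2 (mul_nonneg t0 (sub_nonneg.2 s1))
  have k3 := mul_le_mul_of_nonneg_left h3 (mul_nonneg s0 t0)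
  nlinarith

/-- **the conditions of the kernels and of the scalars at a time** -/
theorem kptG (hO : x.Fmt) (hE : x.okE D n = true) (hn : 0 < n)
    (hS : ∀ j < n, x.sheet.At D x.R j) {ρ Ph : ℝ} (hρ : ρ ∈ Icc (x.tm D 0) (x.tm D n))
    (hP : (Ph = 0) ∨ (x.rl = true ∧ Ph = x.Phv D)) :
    KPt x.qd x.ym Ph
      (x.sc D n x.c1 ρ) (x.sc D n x.c4 ρ) (x.sc D n x.κD ρ) (x.sc D n x.κE ρ)
      (x.sc D n x.S1 ρ) (x.sc D n x.S2 ρ) (x.sc D n x.κ ρ) (x.sc D n x.m ρ)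
      (x.sc D n x.Mt ρ) (x.uH D n ρ) (x.uE D n ρ)
      (hT x.RD (x.tc D n ρ) (x.te D n ρ)) (hT x.RF (x.tc D n ρ) (x.te D n ρ)) := by
  have l := ln hO hE hn hS hρ
  exact {
    h1 := l.h1
    h4 := l.h4
    s1 := l.S1
    s2 := l.S2
    k0 := l.κ
    m0 := l.m
    M := l.M
    q := l.q
    l := l.l
    e1 := fun f hf u hu => by
      rcases hP with h | ⟨hr, h⟩
      · subst h
        exact crn (Real.exp_pos _).le (by simp) l.e1 (by simpa using l.e1) hf hu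
      · rw [h] at hf
        exact crn (Real.exp_pos _).le (l.r1 hr).1 l.e1 (l.r1 hr).2 hf hu
    e2 := fun f hf u hu => by
      rcases hP with h | ⟨hr, h⟩
      · subst h
        exact crn (Real.exp_pos _).le (by simp) l.e2 (by simpa using l.e2) hf hu
      · rw [h] at hf
        exact crn (Real.exp_pos _).le (l.r2 hr).1 l.e2 (l.r2 hr).2 hf hu
    D0 := l.D0
    E0 := l.E0
    hn := fun y hy => uH0 hO hE hn hS hρ hy
    en := l.e0
    yH := l.yH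
    dl := l.dl
    ef := l.ef }

/-- **the conditions at a time**, released end values -/
theorem kpt (hO : x.Fmt) (hE : x.okE D n = true) (hn : 0 < n)
    (hS : ∀ j < n, x.sheet.At D x.R j) (hr : x.rl = true) {ρ : ℝ}
    (hρ : ρ ∈ Icc (x.tm D 0) (x.tm D n)) :
    KPt x.qd x.ym (x.Phv D)
      (x.sc D n x.c1 ρ) (x.sc D n x.c4 ρ) (x.sc D n x.κD ρ) (x.sc D n x.κE ρ)
      (x.sc D n x.S1 ρ) (x.sc D n x.S2 ρ) (x.sc D n x.κ ρ) (x.sc D n x.m ρ)
      (x.sc D n x.Mt ρ) (x.uH D n ρ) (x.uE D n ρ)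
      (hT x.RD (x.tc D n ρ) (x.te D n ρ)) (hT x.RF (x.tc D n ρ) (x.te D n ρ)) :=
  kptG hO hE hn hS hρ (Or.inr ⟨hr, rfl⟩)

/-- **the conditions at a time**, no end values -/
theorem kptF (hO : x.Fmt) (hE : x.okE D n = true) (hn : 0 < n)
    (hS : ∀ j < n, x.sheet.At D x.R j) {ρ : ℝ} (hρ : ρ ∈ Icc (x.tm D 0) (x.tm D n)) :
    KPt x.qd x.ym 0
      (x.sc D n x.c1 ρ) (x.sc D n x.c4 ρ) (x.sc D n x.κD ρ) (x.sc D n x.κE ρ)
      (x.sc D n x.S1 ρ) (x.sc D n x.S2 ρ) (x.sc D n x.κ ρ) (x.sc D n x.m ρ)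
      (x.sc D n x.Mt ρ) (x.uH D n ρ) (x.uE D n ρ)
      (hT x.RD (x.tc D n ρ) (x.te D n ρ)) (hT x.RF (x.tc D n ρ) (x.te D n ρ)) :=
  kptG hO hE hn hS hρ (Or.inl rfl)

end Kp1

end Pool.Agent.RZ.RCO
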