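import Pool.Agent.RZ.RCO.Gs19
import Pool.Agent.RZ.RCO.Gt6

/-! The conditions of the tables of a system of level 1 from the union record and the sheet of all
rows (MP_73ccd0_lc). -/

set_option autoImplicit false

namespace Pool.Agent.RZ.RCO

open Sg Set

set_option linter.unusedSectionVars false

namespace Sb1

variable {X : Sb1} {D n : ℕ} {j0 : Fin X.tt.b.J} {m0 : Fin X.tp.b.N}

section tm

variable (hf : X.Fit j0 m0)

include hf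

theorem Fit.ptm (D : ℕ) : X.tp.tm D = X.tt.tm D := by
  unfold Tp1.tm Tt1.tm
  rw [hf.R1, hf.H1]
theorem Fit.ptc (D n : ℕ) : X.tp.tc D n = X.tt.tc D n := by
  unfold Tp1.tc Tt1.tc
  rw [hf.R1, hf.H1]
theorem Fit.pte (D n : ℕ) : X.tp.te D n = X.tt.te D n := by
  unfold Tp1.te Tt1.te
  rw [hf.R1, hf.H1]
theorem Fit.ktm (D : ℕ) : X.kp.tm D = X.tt.tm D := by
  unfold Kp1.tm Tt1.tm
  rw [hf.R2, hf.H2]
theorem Fit.ktc (D n : ℕ) : X.kp.tc D n = X.tt.tc D n := by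
  unfold Kp1.tc Tt1.tc
  rw [hf.R2, hf.H2]
theorem Fit.kte (D n : ℕ) : X.kp.te D n = X.tt.te D n := by
  unfold Kp1.te Tt1.te
  rw [hf.R2, hf.H2]

end tm

variable (hf : X.Fit j0 m0) (ho : X.Fm m0) (hd : X.Dm D n) (hn : 0 < n) (hS : X.Shs D n)

include hf ho hd hn hS

/-- the environment of the positions -/
theorem env_tp : Tp1.EnvP X.tp D n (X.tt.env D n) where
  R := fun ρ _ => by
    rw [hf.ptc, hf.pte, hf.pRR]
    rfl
  Rp := fun _ _ => isZ_val ho.Rp _ _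
  W := fun ρ _ => by
    show X.tt.b.fW _ _ = X.tp.b.fW _ _
    rw [hf.ptc, hf.pte]
    funext p
    show X.tt.b.W.kv _ _ _ = X.tp.b.W.kv _ _ _
    rw [hf.pW]
  Wp := fun ρ _ => by
    rw [hf.ptc, hf.pte, hf.pWp]
    rfl
  RD := fun ρ _ => by
    rw [hf.ptc, hf.pte, hf.pRD]
    rfl
  RDp := fun _ _ => isZ_val ho.RDp _ _
  RE := fun ρ _ => by
    rw [hf.ptc, hf.pte, hf.pRF]
    rfl
  REp := fun _ _ => isZ_val ho.REp _ _
  κD := fun ρ _ => by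
    rw [hf.ptc, hf.pte, hf.pκD]
    rfl
  κE := fun ρ _ => by
    rw [hf.ptc, hf.pte, hf.pκE]
    rfl
  c1 := fun ρ _ => by
    rw [hf.ptc, hf.pte, hf.pc1]
    rfl
  c4 := fun ρ _ => by
    rw [hf.ptc, hf.pte, hf.pc4]
    rfl

/-- the tables of the targets -/
theorem tt_ok : (X.tt.tt1 D n).Ok FF26 26 (X.tt.tm D) n (X.tt.env D n)
    (fun m : Fin X.tt.b.N => (X.tt.b.wv m).fn)
    (fun s l ρ => Sp12.cf (X.tt.b.B s l) (X.tt.tc D n ρ) (X.tt.te D n ρ))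
    (fun s l ρ => (X.tt.b.CB s l).tv (X.tt.tc D n ρ) (X.tt.te D n ρ))
    (cstF D X.tt.R (X.nu m0)) (cstF D X.tt.R (X.du m0)) 0 0 := by
  have m := Tt1.msh hS.tt
  exact Tt1.tt1_ok ho.tt hd.tt hn hS.tt (fun _ _ _ _ _ _ => le_rfl) (fun _ _ _ _ => le_rfl)
    (fun ρ hρ p _ => (cst_cf (hd.nu m0 m0.2) m hn hρ ho.nt p).ge)
    (fun ρ hρ p _ => (cst_cf (hd.du m0 m0.2) m hn hρ ho.dt p).ge)
    (fun ρ _ => (isZ_val ho.Cnu _ _).ge) fun ρ _ => (isZ_val ho.Cdu _ _).ge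

/-- the tables of the positions -/
theorem tp_ok : (X.tp.tp1 D n).Ok FF26 26 (X.tt.tm D) n (X.tt.env D n)
    (fun m : Fin X.tp.b.N => (X.tp.b.w1 m).fn)
    (fun s m ρ => Sp12.cf (X.tp.b.B s m) (X.tp.tc D n ρ) (X.tp.te D n ρ)) (fun _ _ _ => 0)
    (fun m => cstF D X.tt.R (X.nu m)) (fun m => cstF D X.tt.R (X.du m)) (fun _ => 0)
    fun _ => 0 := by
  have m := Tt1.msh hS.tt
  have e0 : ∀ ρ, ρ ∈ Icc (X.tp.tm D 0) (X.tp.tm D n) → ρ ∈ Icc (tmD D X.tt.R X.tt.iH 0)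
      (tmD D X.tt.R X.tt.iH n) := fun ρ hρ => by
    rw [hf.ptm] at hρ
    exact hρ
  have hp : ∀ j < n, X.tp.sheet.At D X.tp.R j := by
    rw [hf.R1]
    exact hS.tp
  have h := Tp1.tp1_ok (CB := fun _ _ _ => 0) (ν := fun m => cstF D X.tt.R (X.nu m))
    (δ := fun m => cstF D X.tt.R (X.du m)) (Cν := fun _ => 0) (Cδ := fun _ => 0) ho.tp hd.tp hn hp
    (env_tp hf ho hd hn hS) (B := fun s m ρ => Sp12.cf (X.tp.b.B s m) (X.tp.tc D n ρ)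
      (X.tp.te D n ρ)) (fun _ _ _ _ _ => rfl)
    (fun ρ hρ k p _ => by
      rw [hf.ptc, hf.pte]
      exact (cst_cf (hd.nu k k.2) m hn (e0 ρ hρ) (ho.nu k k.2) p).ge)
    (fun ρ hρ k p _ => by
      rw [hf.ptc, hf.pte]
      exact (cst_cf (hd.du k k.2) m hn (e0 ρ hρ) (ho.du k k.2) p).ge) (fun _ => le_rfl)
    fun _ => le_rfl
  rw [hf.ptm] at h
  exact h

/-- the tables of the killing -/
theorem k_ok : (X.kp.kt D).Ok (X.tt.tm D) n X.kp.ym (X.tt.env D n).R (X.tt.env D n).Rp := by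
  have h := Kp1.kt_ok ho.kp hd.kp hn (by rw [hf.R2]; exact hS.kp)
  rw [hf.ktm, hf.ktc, hf.kte, hf.kRR] at h
  have e : (X.tt.env D n).Rp = fun _ => 0 := funext fun ρ => isZ_val ho.Rp _ _
  rw [e]
  exact h

/-- the values of the targets -/
theorem v1_ok (z r : ℝ) (hr : r + z ∈ Icc (X.tt.tm D 0) (X.tt.tm D n)) :
    VLe ((X.tt.tt1 D n).f.fam FF26 (X.tt.tm D) n z) j0 r (X.kp.sc D n X.kp.S1 (r + z)) := by
  have m := Tt1.msh hS.tt
  have e : X.tt.tm D = tmD D X.v1.R X.v1.iH := by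
    unfold Tt1.tm
    rw [hf.Ra, hf.Ha]
  have h := Vl1.vle (x := X.v1) (d := (X.tt.tt1 D n).f) (j := j0) e ho.v1 hn m
    (by rw [hf.Ra]; exact hS.v1) (tt_ok hf ho hd hn hS).fam
    (fun i => by rw [hf.a1, hf.Ra]; rfl) (by rw [hf.p1, hf.Ra]; rfl) (r := r) (δ := z) hr
  rw [hf.s1, hf.Ra] at h
  show VLe _ _ _ (X.kp.S1.tv (X.kp.tc D n (r + z)) (X.kp.te D n (r + z)))
  rw [hf.ktc, hf.kte]
  exact h

/-- the values of the positions -/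
theorem v2_ok (z r : ℝ) (hr : r + z ∈ Icc (X.tt.tm D 0) (X.tt.tm D n)) :
    VLe ((X.tp.tp1 D n).f.fam FF26 (X.tt.tm D) n z) m0 r (X.kp.sc D n X.kp.S2 (r + z)) := by
  have m := Tt1.msh hS.tt
  have e : X.tt.tm D = tmD D X.v2.R X.v2.iH := by
    unfold Tt1.tm
    rw [hf.Rb, hf.Hb]
  have h := Vl1.vle (x := X.v2) (d := (X.tp.tp1 D n).f) (j := m0) e ho.v2 hn m
    (by rw [hf.Rb]; exact hS.v2) (tp_ok hf ho hd hn hS).fam
    (fun i => by rw [hf.a2, hf.Rb, ← hf.R1]; rfl) (by rw [hf.p2, hf.Rb, ← hf.R1]; rfl)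
    (r := r) (δ := z) hr
  rw [hf.s2, hf.Rb] at h
  show VLe _ _ _ (X.kp.S2.tv (X.kp.tc D n (r + z)) (X.kp.te D n (r + z)))
  rw [hf.ktc, hf.kte]
  exact h

/-- the end values of the weight one are below `Ph` -/
theorem du_le {p : Pt} (hp : Sa p) : cstF D X.tt.R (X.du m0) p ≤ X.kp.Phv D := by
  have m := Tt1.msh hS.tt
  have h := Vl1.at_le (x := X.v3) (D := D) (j := 0) ho.v3 (by rw [hf.Rc]; exact hS.v3 0 hn)
    le_rfl zero_le_one hp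
  rw [hf.a3, hf.s3, hf.Rc] at h
  have e1 : Sp12.cf (cre2 Cf.u X.tt.R (cfu (X.du m0))) 0 (rwd D X.tt.R 0) p
      = cstF D X.tt.R (X.du m0) p := by
    have st : Stp (X.tt.tm D) n 0 (X.tt.tm D 0) := ⟨m, hn, le_rfl, (m.mono 0 hn).le⟩
    have e2 : stc (X.tt.tm D) 0 (X.tt.tm D 0) = 0 := by
      unfold stc
      rw [sub_self, zero_div]
    have e3 := cf_up (D := D) (R := X.tt.R) st (cfu (X.du m0)) p
    rw [e2] at e3
    rw [e3]
    unfold cstF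
    rw [lf_26.eq, lf_26.eq]
    exact Finset.sum_congr rfl fun i hi => congrArg (· * _)
      (cst_up (hd.du m0 m0.2) (Finset.mem_range.1 hi) m hn ⟨le_rfl, m.le (Nat.zero_le _) le_rfl⟩)
  rw [e1] at h
  refine h.trans (le_of_eq ?_)
  show (kr X.kp.iP).val _ _ = un D X.kp.R X.kp.iP 0
  rw [hf.R2]
  exact rwd_kr _

omit ho hd hn hS in
theorem sc_eq (A : Re) (ρ : ℝ) :
    X.kp.sc D n A ρ = A.tv (X.tt.tc D n ρ) (X.tt.te D n ρ) := by
  unfold Kp1.sc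
  rw [hf.ktc, hf.kte]

omit ho hd hn hS in
theorem uH_eq (ρ : ℝ) : X.kp.uH D n ρ = (X.sys D n j0 m0).uH ρ := by
  funext y
  show px X.kp.N (fun i => (oTq D X.kp.R (X.kp.H i)).up (X.kp.tm D) n ρ) y = _
  rw [hf.ktm]
  rfl

omit ho hd hn hS in
theorem uE_eq (ρ : ℝ) : X.kp.uE D n ρ = (X.sys D n j0 m0).uE ρ := by
  funext y
  show px X.kp.N (fun i => (oTq D X.kp.R (X.kp.E i)).up (X.kp.tm D) n ρ) y = _
  rw [hf.ktm]
  rfl

omit ho hd hn hS in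
/-- the scalars at one time in terms of the system -/
theorem kpt_sys {lq : Bool} {Ph ρ : ℝ}
    (h : KPt lq X.kp.ym Ph
      (X.kp.sc D n X.kp.c1 ρ) (X.kp.sc D n X.kp.c4 ρ) (X.kp.sc D n X.kp.κD ρ)
      (X.kp.sc D n X.kp.κE ρ)
      (X.kp.sc D n X.kp.S1 ρ) (X.kp.sc D n X.kp.S2 ρ) (X.kp.sc D n X.kp.κ ρ)
      (X.kp.sc D n X.kp.m ρ)
      (X.kp.sc D n X.kp.Mt ρ) (X.kp.uH D n ρ) (X.kp.uE D n ρ)
      (hT X.kp.RD (X.kp.tc D n ρ) (X.kp.te D n ρ)) (hT X.kp.RF (X.kp.tc D n ρ) (X.kp.te D n ρ))) :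
    KPt lq X.kp.ym Ph ((X.sys D n j0 m0).E.c1 ρ) ((X.sys D n j0 m0).E.c4 ρ)
      ((X.sys D n j0 m0).E.κD ρ) ((X.sys D n j0 m0).E.κE ρ) ((X.sys D n j0 m0).S1 ρ)
      ((X.sys D n j0 m0).S2 ρ) ((X.sys D n j0 m0).κ ρ) ((X.sys D n j0 m0).m ρ)
      ((X.sys D n j0 m0).Mt ρ) ((X.sys D n j0 m0).uH ρ) ((X.sys D n j0 m0).uE ρ)
      ((X.sys D n j0 m0).E.RD ρ) ((X.sys D n j0 m0).E.RE ρ) := by
  rw [sc_eq hf X.kp.c1 ρ, sc_eq hf X.kp.c4 ρ, sc_eq hf X.kp.κD ρ, sc_eq hf X.kp.κE ρ,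
    uH_eq hf ρ, uE_eq hf ρ, hf.kc1, hf.kc4, hf.kκD, hf.kκE, hf.ktc, hf.kte, hf.kRD, hf.kRF] at h
  exact h

/-- **the conditions of a system with released end values**; the end values are nonnegative -/
theorem sys_rel [Nonempty (Fin X.tt.b.J)] [Nonempty (Fin X.tp.b.N)] (hr : X.kp.rl = true)
    (ν0 : ∀ m : Fin X.tp.b.N, ∀ p, Sa p → 0 ≤ cstF D X.tt.R (X.nu m) p)
    (δ0 : ∀ m : Fin X.tp.b.N, ∀ p, Sa p → 0 ≤ cstF D X.tt.R (X.du m) p) :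
    (X.sys D n j0 m0).Ok FF26 26 X.kp.qd X.kp.ym (X.kp.Phv D) := by
  have hk : ∀ j < n, X.kp.sheet.At D X.kp.R j := by
    rw [hf.R2]
    exact hS.kp
  have m := Tt1.msh hS.tt
  exact {
    hm := m
    hn := hn
    w1 := hf.w1
    tt := tt_ok hf ho hd hn hS
    tp := tp_ok hf ho hd hn hS
    v1 := v1_ok hf ho hd hn hS
    v2 := v2_ok hf ho hd hn hS
    k := k_ok hf ho hd hn hS
    s := fun ρ hρ => kpt_sys hf (Kp1.kpt ho.kp hd.kp hn hk hr (ρ := ρ)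
      (by rw [hf.ktm]; exact hρ))
    Ph0 := Kp1.Phv0
    ν0 := ν0
    δ0 := δ0
    Cν0 := fun _ => le_rfl
    Cδ0 := fun _ => le_rfl
    δS := fun p hp => du_le hf ho hd hn hS hp
    CδS := Kp1.Phv0 }

/-- **the conditions of a system without end values** -/
theorem sys_zf [Nonempty (Fin X.tt.b.J)] [Nonempty (Fin X.tp.b.N)] (hz : X.nil = true) :
    (X.sys D n j0 m0).Ok FF26 26 X.kp.qd X.kp.ym 0 := by
  have hk : ∀ j < n, X.kp.sheet.At D X.kp.R j := by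
    rw [hf.R2]
    exact hS.kp
  have m := Tt1.msh hS.tt
  have z := fun m : Fin X.tp.b.N => nil_of hz m.2
  exact {
    hm := m
    hn := hn
    w1 := hf.w1
    tt := tt_ok hf ho hd hn hS
    tp := tp_ok hf ho hd hn hS
    v1 := v1_ok hf ho hd hn hS
    v2 := v2_ok hf ho hd hn hS
    k := k_ok hf ho hd hn hS
    s := fun ρ hρ => kpt_sys hf (Kp1.kptF ho.kp hd.kp hn hk (ρ := ρ)
      (by rw [hf.ktm]; exact hρ))
    Ph0 := le_rfl
    ν0 := fun m p _ => (cstF_none (z m).1 p).ge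
    δ0 := fun m p _ => (cstF_none (z m).2 p).ge
    Cν0 := fun _ => le_rfl
    Cδ0 := fun _ => le_rfl
    δS := fun p _ => (cstF_none (z m0).2 p).le
    CδS := le_rfl }

omit ho hd hn hS hf in
/-- no end values -/
theorem sys_nl (hz : X.nil = true) : (X.sys D n j0 m0).Nl where
  ν := fun m p _ => cstF_none (nil_of hz m.2).1 p
  δ := fun m p _ => cstF_none (nil_of hz m.2).2 p
  Cν := fun _ => rfl
  Cδ := fun _ => rfl

end Sb1

end Pool.Agent.RZ.RCO
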