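import Pool.Agent.RZ.RCO.Gp4
import Pool.Agent.RZ.RCO.Gs20

/-! The links of the union records: zero ends, neighbouring ends, rates which do not decrease
(MP_73ccd0_lc). -/

set_option autoImplicit false

namespace Pool.Agent.RZ.RCO

open Sg Set

set_option linter.unusedSectionVars false

/-! ### rates which do not decrease -/

theorem rmpS_mono : Monotone rmpS := fun _ _ h => max_le_max le_rfl (min_le_min le_rfl h)

/-- a piecewise linear function whose values do not decrease from the node `m` on -/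
theorem pl_mono_from {t v : ℕ → ℝ} {n m : ℕ} (hm : Msh t n) (mn : m ≤ n)
    (hv : ∀ j, m ≤ j → j < n → v j ≤ v (j + 1)) {ρ ρ' : ℝ} (h1 : t m ≤ ρ) (h2 : ρ ≤ ρ') :
    pl t v n ρ ≤ pl t v n ρ' := by
  unfold pl
  refine add_le_add le_rfl (Finset.sum_le_sum fun j hj => ?_)
  have hj := Finset.mem_range.1 hj
  have hd : 0 < t (j + 1) - t j := sub_pos.2 (hm.mono j hj)
  rcases le_or_gt m j with h | h
  · exact mul_le_mul_of_nonneg_left (rmpS_mono (div_le_div_of_nonneg_right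
      (sub_le_sub_right h2 _) hd.le)) (sub_nonneg.2 (hv j h hj))
  · have e : ∀ z, t m ≤ z → rmpS ((z - t j) / (t (j + 1) - t j)) = 1 := fun z hz =>
      rmpS_hi (by
        rw [le_div_iff₀ hd]
        have := hm.le (Nat.succ_le_of_lt h) mn
        linarith)
    rw [e ρ h1, e ρ' (h1.trans h2)]

/-- the entry of a column -/
def lrI (A : Re) : ℕ := match A.E with
  | .r _ i _ _ => i
  | _ => 0

/-- the expressions are columns which do not decrease in the rows `m, ..., n` -/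
noncomputable def moB (D R m n : ℕ) (L : List Re) : Bool :=
  reqL Nat.beq L (L.map fun A => lr R (lrI A)) && allL (fun A => allL (fun j => Nat.ble
    (g D (R * (m + j) + lrI A)) (g D (R * (m + j + 1) + lrI A))) (List.range (n - m))) L

theorem moB_of {D R iH m n : ℕ} {L : List Re} (h : moB D R m n L = true)
    (hm : Msh (tmD D R iH) n) (hn : 0 < n) (mn : m ≤ n) {y : ℝ} (y0 : 0 ≤ y) {ρ ρ' : ℝ}
    (h1 : tmD D R iH m ≤ ρ) (h2 : ρ ≤ ρ') (h3 : ρ' ≤ tmD D R iH n) :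
    hT L (cD (tmD D R iH) n ρ) (eD D R (tmD D R iH) n ρ) y
      ≤ hT L (cD (tmD D R iH) n ρ') (eD D R (tmD D R iH) n ρ') y := by
  unfold moB at h
  simp only [Bool.and_eq_true] at h
  obtain ⟨k1, k2⟩ := h
  have m0 : tmD D R iH 0 ≤ ρ := (hm.le (Nat.zero_le _) mn).trans h1
  have e : ∀ z, hT L (cD (tmD D R iH) n z) (eD D R (tmD D R iH) n z) y
      = hT (L.map fun A => lr R (lrI A)) (cD (tmD D R iH) n z) (eD D R (tmD D R iH) n z) y :=
    fun z => reqL_hT (fun a b h => by rw [Nat.eq_of_beq_eq_true h]) _ y k1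
  have key : ∀ l : List Re, (∀ A ∈ l, ∀ j, m ≤ j → j < n →
      un D R (lrI A) j ≤ un D R (lrI A) (j + 1)) →
      hT (l.map fun A => lr R (lrI A)) (cD (tmD D R iH) n ρ) (eD D R (tmD D R iH) n ρ) y
      ≤ hT (l.map fun A => lr R (lrI A)) (cD (tmD D R iH) n ρ') (eD D R (tmD D R iH) n ρ') y := by
    intro l
    induction l with
    | nil => exact fun _ => le_rfl
    | cons A l ih =>
      intro hl
      show (lr R (lrI A)).tv _ _ + y * hT (l.map fun A => lr R (lrI A)) _ _ y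
        ≤ (lr R (lrI A)).tv _ _ + y * hT (l.map fun A => lr R (lrI A)) _ _ y
      rw [lr_tv hm hn ⟨m0, h2.trans h3⟩, lr_tv hm hn ⟨m0.trans h2, h3⟩]
      exact add_le_add (pl_mono_from hm mn (hl A (by simp)) h1 h2)
        (mul_le_mul_of_nonneg_left (ih fun B hB => hl B (by simp [hB])) y0)
  rw [e ρ, e ρ']
  refine key L fun A hA j hj hjn => ?_
  have k3 := Nat.le_of_ble_eq_true (allL_of (allL_of k2 A hA) (j - m)
    (List.mem_range.2 (by omega)))
  rw [show m + (j - m) = j by omega] at k3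
  unfold un Sg.nv
  gcongr

namespace Sb1

variable {X : Sb1} {D n : ℕ} {j0 : Fin X.tt.b.J} {m0 : Fin X.tp.b.N}

/-! ### zero ends -/

/-- the end values of the families are zero -/
noncomputable def endD (X : Sb1) (D n : ℕ) : Bool :=
  famB D X.tt.R n n X.tt.b.J X.tt.a X.tt.cp && famB D X.tp.R n n X.tp.b.N X.tp.a X.tp.cp

theorem sys_end0 (h : X.endD D n = true) : (X.sys D n j0 m0).End0 26 := by
  unfold endD at h
  simp only [Bool.and_eq_true] at h
  exact {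
    tt := ⟨fun b j i hi => ((fam_lin h.1).a b j i hi).w, fun b j => ((fam_lin h.1).c b j).w⟩
    tp := ⟨fun b j i hi => ((fam_lin h.2).a b j i hi).w, fun b j => ((fam_lin h.2).c b j).w⟩ }

/-! ### the rates of the first coarse cell -/

/-- the rates do not decrease -/
noncomputable def moD (X : Sb1) (D n : ℕ) : Bool := moB D X.tt.R 0 n X.tt.b.RR

theorem sys_mo (h : X.moD D n = true) (hn : 0 < n) (hS : X.Shs D n) {z : ℝ}
    (z0 : (X.sys D n j0 m0).t 0 ≤ z) : ∀ y ∈ Icc 0 X.kp.ym, ∀ ρ ρ', z ≤ ρ → ρ ≤ ρ' →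
      ρ' ≤ (X.sys D n j0 m0).t (X.sys D n j0 m0).n →
      (X.sys D n j0 m0).E.R ρ y ≤ (X.sys D n j0 m0).E.R ρ' y :=
  fun _ hy _ _ h1 h2 h3 => moB_of h (Tt1.msh hS.tt) hn (Nat.zero_le _) hy.1 (z0.trans h1) h2 h3

/-! ### neighbouring ends -/

/-- the shared expressions only use the columns of `L` (pairs of equal numbers) -/
def lkA (X : Sb1) (L : List (ℕ × ℕ)) : Bool :=
  let f := fun a b => prB X.tt.R X.tt.R a b L
  reqL f X.tt.b.RR X.tt.b.RR && (req f X.tt.b.W X.tt.b.W && (reqL f X.tt.b.Wp X.tt.b.Wp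
    && (req f X.tt.b.κD X.tt.b.κD && (req f X.tt.b.κE X.tt.b.κE && (req f X.tt.b.c1 X.tt.b.c1
    && (req f X.tt.b.c4 X.tt.b.c4
    && (allL (fun l => reqF f (X.tt.b.B true l) (X.tt.b.B true l)
      && (reqF f (X.tt.b.B false l) (X.tt.b.B false l)
      && (req f (X.tt.b.CB true l) (X.tt.b.CB true l)
      && req f (X.tt.b.CB false l) (X.tt.b.CB false l)))) (List.range X.tt.b.N)
    && (allL (fun m => reqF f (X.tp.b.B true m) (X.tp.b.B true m)
      && reqF f (X.tp.b.B false m) (X.tp.b.B false m)) (List.range X.tp.b.N)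
    && X.tp.lkA X.tp X.tp.b.N f))))))))

/-- the column of a used value -/
def ou : Option Cf → List (ℕ × ℕ)
  | none => []
  | some a => [(a.u, a.u)]

/-- the ordered columns -/
def ordL (X : Sb1) : List (ℕ × ℕ) :=
  [(X.iS1, X.iS1), (X.iS2, X.iS2), (X.iκ, X.iκ), (X.im, X.im)]
    ++ (List.range X.kp.N).flatMap fun i => ou (X.kp.H i) ++ ou (X.kp.E i)

/-- **the checks of two neighbouring ends**, on the data -/
noncomputable def adjD (X : Sb1) (D n D' n' : ℕ) (L : List (ℕ × ℕ)) : Bool :=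
  Nat.ble n n' && (lnkB D X.tt.R D' X.tt.R n L && (ordB D X.tt.R D' X.tt.R n X.ordL
    && moB D' X.tt.R n n' X.tt.b.RR))

/-- ordered tables of a coefficient -/
theorem up_ord {D' n' R iH : ℕ} {M : List (ℕ × ℕ)} (hn : 0 < n) (hnn : n ≤ n')
    (hm : Msh (tmD D R iH) n) (hm' : Msh (tmD D' R iH) n')
    (ht : ∀ j ≤ n, tmD D R iH j = tmD D' R iH j) (ho : ordB D R D' R n M = true)
    {o : Option Cf} (hM : ∀ x ∈ ou o, x ∈ M) {ρ : ℝ}
    (hρ : ρ ∈ Icc (tmD D R iH 0) (tmD D R iH n)) :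
    (oTq D R o).up (tmD D R iH) n ρ ≤ (oTq D' R o).up (tmD D' R iH) n' ρ := by
  cases o with
  | none => exact ((pl_zero _ _ _).trans (pl_zero _ _ _).symm).le
  | some a =>
    exact pl_le_of hn hm hm' hnn ht (fun j hj => ordB_sn ho (hM (a.u, a.u) (by simp [ou])) hj) hρ

/-- **two neighbouring ends** -/
theorem sys_adj {D' n' : ℕ} {L : List (ℕ × ℕ)} (hf : X.Fit j0 m0) (hn : 0 < n)
    (hS : X.Shs D n) (hS' : X.Shs D' n') (hZ : isZ X.tt.b.Rp = true)
    (hL : X.lkA L = true) (hx : (X.tt.iH, X.tt.iH) ∈ L) (hA : X.adjD D n D' n' L = true) :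
    TSys.Adj X.kp.ym (X.sys D n j0 m0) (X.sys D' n' j0 m0) n := by
  have hm : Msh (tmD D X.tt.R X.tt.iH) n := Tt1.msh hS.tt
  have hm' : Msh (tmD D' X.tt.R X.tt.iH) n' := Tt1.msh hS'.tt
  unfold adjD at hA
  simp only [Bool.and_eq_true] at hA
  obtain ⟨h1, h2, h3, h4⟩ := hA
  have hnn := Nat.le_of_ble_eq_true h1
  unfold lkA at hL
  simp only [Bool.and_eq_true] at hL
  obtain ⟨a1, a2, a3, a4, a5, a6, a7, a8, a9, b1⟩ := hL
  have k8 : ∀ l < X.tt.b.N, _ := fun l hl => allL_of a8 l (List.mem_range.2 hl)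
  have k9 : ∀ m < X.tp.b.N, _ := fun l hl => allL_of a9 l (List.mem_range.2 hl)
  simp only [Bool.and_eq_true] at k8 k9
  have ht : ∀ j ≤ n, tmD D X.tt.R X.tt.iH j = tmD D' X.tt.R X.tt.iH j := fun j hj =>
    lnkB_tm h2 hx hj
  have r : ∀ ρ ∈ Icc (X.tt.tm D 0) (X.tt.tm D n), X.tt.tc D n ρ = X.tt.tc D' n' ρ ∧
      ∀ a b, prB X.tt.R X.tt.R a b L = true → X.tt.te D n ρ a = X.tt.te D' n' ρ b :=
    fun ρ hρ => lnk_row h2 hx hn hnn hm hm' hρ
  have P : ∀ ρ ∈ Icc (X.tt.tm D 0) (X.tt.tm D n), Tp1.AdjP X.tp X.tp X.tp.b.N D n D' n' ρ :=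
    fun ρ hρ => Tp1.adj_of b1 (by
      rw [hf.ptc, hf.ptc, hf.pte, hf.pte]
      exact r ρ hρ)
  have ord : ∀ ρ ∈ Icc (X.tt.tm D 0) (X.tt.tm D n), ∀ (A : Re) (i : ℕ), A = lr X.tt.R i →
      (i, i) ∈ X.ordL → X.kp.sc D n A ρ ≤ X.kp.sc D' n' A ρ := fun ρ hρ A i hA hi => by
    rw [sc_eq hf, sc_eq hf, hA]
    exact lr_ord h2 hx h3 hi hn hnn hm hm' hρ
  have mem : ∀ i < X.kp.N, ∀ x, x ∈ ou (X.kp.H i) ∨ x ∈ ou (X.kp.E i) → x ∈ X.ordL :=
    fun i hi x hx => List.mem_append_right _ (List.mem_flatMap.2 ⟨i, List.mem_range.2 hi,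
      List.mem_append.2 hx⟩)
  exact {
    mn := hnn
    t0 := ht 0 (Nat.zero_le _)
    tm := ht n le_rfl
    R := fun ρ hρ => by
      obtain ⟨e, g⟩ := r ρ hρ
      funext y
      show hT X.tt.b.RR (X.tt.tc D n ρ) (X.tt.te D n ρ) y = _
      rw [e]
      exact reqL_hT g _ y a1
    Rp := fun ρ hρ => (isZ_val hZ _ _).trans (isZ_val hZ _ _).symm
    W := fun ρ hρ => by
      obtain ⟨e, g⟩ := r ρ hρ
      funext p
      show X.tt.b.W.kv (X.tt.tc D n ρ) (X.tt.te D n ρ) p.k = _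
      rw [e]
      exact req_kv g a2 _ _
    Wp := fun ρ hρ => by
      obtain ⟨e, g⟩ := r ρ hρ
      funext y
      show hT X.tt.b.Wp (X.tt.tc D n ρ) (X.tt.te D n ρ) y = _
      rw [e]
      exact reqL_hT g _ y a3
    κD := fun ρ hρ => by
      obtain ⟨e, g⟩ := r ρ hρ
      show X.tt.b.κD.tv (X.tt.tc D n ρ) (X.tt.te D n ρ) = _
      rw [e]
      exact req_tv g a4 _
    κE := fun ρ hρ => by
      obtain ⟨e, g⟩ := r ρ hρ
      show X.tt.b.κE.tv (X.tt.tc D n ρ) (X.tt.te D n ρ) = _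
      rw [e]
      exact req_tv g a5 _
    c1 := fun ρ hρ => by
      obtain ⟨e, g⟩ := r ρ hρ
      show X.tt.b.c1.tv (X.tt.tc D n ρ) (X.tt.te D n ρ) = _
      rw [e]
      exact req_tv g a6 _
    c4 := fun ρ hρ => by
      obtain ⟨e, g⟩ := r ρ hρ
      show X.tt.b.c4.tv (X.tt.tc D n ρ) (X.tt.te D n ρ) = _
      rw [e]
      exact req_tv g a7 _
    wv := rfl
    B := fun s l ρ hρ => by
      obtain ⟨e, g⟩ := r ρ hρ
      funext p
      show Sp12.cf (X.tt.b.B s l) (X.tt.tc D n ρ) (X.tt.te D n ρ) p = _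
      rw [e]
      cases s with
      | true => exact reqF_cf g (k8 l l.2).1 _ p
      | false => exact reqF_cf g (k8 l l.2).2.1 _ p
    CB := fun s l ρ hρ => by
      obtain ⟨e, g⟩ := r ρ hρ
      show (X.tt.b.CB s l).tv (X.tt.tc D n ρ) (X.tt.te D n ρ) = _
      rw [e]
      cases s with
      | true => exact req_tv g (k8 l l.2).2.2.1 _
      | false => exact req_tv g (k8 l l.2).2.2.2 _
    w1 := rfl
    B1 := fun s m ρ hρ => by
      obtain ⟨e, g⟩ := r ρ hρ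
      funext p
      show Sp12.cf (X.tp.b.B s m) (X.tp.tc D n ρ) (X.tp.te D n ρ) p
        = Sp12.cf (X.tp.b.B s m) (X.tp.tc D' n' ρ) (X.tp.te D' n' ρ) p
      rw [hf.ptc, hf.pte, hf.ptc, hf.pte, e]
      cases s with
      | true => exact reqF_cf g (k9 m m.2).1 _ p
      | false => exact reqF_cf g (k9 m m.2).2 _ p
    CB1 := fun _ _ _ _ => rfl
    m0 := rfl
    Θ := fun m ρ hρ => (P ρ hρ).Θ m
    CΘ := fun _ _ _ => rfl
    Kn := fun m m' ρ hρ => (P ρ hρ).Kn m m'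
    Kp := fun m m' ρ hρ => (P ρ hρ).Kp m m'
    Ke := fun m m' ρ hρ => (P ρ hρ).Ke m m'
    Km := fun m m' ρ hρ => (P ρ hρ).Km m m'
    mo := fun y hy ρ ρ' q1 q2 q3 => by
      have q0 : tmD D' X.tt.R X.tt.iH n ≤ ρ := by
        rw [← ht n le_rfl]
        exact q1
      exact moB_of h4 hm' (by omega) hnn hy.1 q0 q2 q3
    o := fun ρ hρ => {
      s1 := ord ρ hρ _ _ hf.eS1 (by simp [ordL])
      s2 := ord ρ hρ _ _ hf.eS2 (by simp [ordL])
      k := ord ρ hρ _ _ hf.eκ (by simp [ordL])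
      m := ord ρ hρ _ _ hf.em (by simp [ordL])
      H := fun y hy => px_mono hy.1 fun i hi => by
        show (oTq D X.kp.R (X.kp.H i)).up (X.tt.tm D) n ρ
          ≤ (oTq D' X.kp.R (X.kp.H i)).up (X.tt.tm D') n' ρ
        rw [hf.R2]
        exact up_ord hn hnn hm hm' ht h3 (fun x hx => mem i hi x (Or.inl hx)) hρ
      E := fun y hy => px_mono hy.1 fun i hi => by
        show (oTq D X.kp.R (X.kp.E i)).up (X.tt.tm D) n ρ
          ≤ (oTq D' X.kp.R (X.kp.E i)).up (X.tt.tm D') n' ρ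
        rw [hf.R2]
        exact up_ord hn hnn hm hm' ht h3 (fun x hx => mem i hi x (Or.inr hx)) hρ } }

end Sb1

end Pool.Agent.RZ.RCO
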