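import Pool.Agent.RZ.RCO.Gs13

/-! The end values of a released system near a node (MP_73ccd0_lc). -/

set_option autoImplicit false

namespace Pool.Agent.RZ.RCO

open Set Filter Topology

set_option linter.unusedSectionVars false

/-- a table below a number near the node `k`: strictly at the node, or at all nodes -/
theorem up_near {t : ℕ → ℝ} {n k : ℕ} {a : Tq} {b : ℝ} (hm : Msh t n) (hn : 0 < n) (hk : k ≤ n)
    (h : a.u k < b ∨ ∀ j ≤ n, a.u j ≤ b) :
    ∀ᶠ u in 𝓝[Icc (t 0) (t n)] (t k), a.up t n u ≤ b := by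
  rcases h with h | h
  · have c : ContinuousAt (fun u => a.up t n u) (t k) := (pl_cont t a.u n).continuousAt
    have e : a.up t n (t k) < b := by
      show pl t a.u n (t k) < b
      rw [pl_node hm hk hn]
      exact h
    exact ((c.eventually_lt_const e).filter_mono nhdsWithin_le_nhds).mono fun u hu => hu.le
  · refine eventually_nhdsWithin_of_forall fun u hu => ?_
    obtain ⟨j, hj, hj2⟩ := hm.stepc hn hu
    have h0 : 0 ≤ pl t (fun i => -a.u i + b) n u :=
      pl_nonneg hm hn (fun i hi => by linarith [h i hi]) hu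
    rw [pl_on hm hj hj2] at h0
    show pl t a.u n u ≤ b
    rw [pl_on hm hj hj2]
    have e : -a.u (j + 1) + b - (-a.u j + b) = -(a.u (j + 1) - a.u j) := by ring
    rw [e] at h0
    linarith

/-- **the end values of a released system with slack are above the rows of level 1/2 at all table
times near the node `k`** -/
theorem TSys.rel_near {J M Λ Λ' : Type*} [Fintype M] [Fintype Λ'] {FF : (ℕ → ℝ) → Pt → ℝ} {N : ℕ}
    {ft : ℕ → Pt → ℝ} {q : TSys J M Λ} {d : T12 Λ'} {t : ℕ → ℝ} {n k : ℕ} {im : M → Λ'}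
    (hF : Lf FF N ft) (hm : Msh t n) (hn : 0 < n) (hk : k ≤ n) {c : Bool → M → ℕ → ℝ}
    {e : Bool → M → ℝ}
    (hν : ∀ m p, Sa p → FF (c true m) p ≤ q.ν m p) (hδ : ∀ m p, Sa p → FF (c false m) p ≤ q.δ m p)
    (hCν : ∀ m, e true m ≤ q.Cν m) (hCδ : ∀ m, e false m ≤ q.Cδ m)
    (ha : ∀ s m, ∀ i < N, (d.a s (im m) i).u k < c s m i
      ∨ ∀ j ≤ n, (d.a s (im m) i).u j ≤ c s m i)
    (hc : ∀ s m, (d.c s (im m)).u k < e s m ∨ ∀ j ≤ n, (d.c s (im m)).u j ≤ e s m) :
    ∃ η > 0, ∀ u ∈ Icc (t 0) (t n), |u - t k| ≤ η → TSys.Rel FF q d t n im u := by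
  have h1 : ∀ᶠ u in 𝓝[Icc (t 0) (t n)] (t k), ∀ s : Bool, ∀ m : M, ∀ i : Fin N,
      (d.a s (im m) i).up t n u ≤ c s m i := by
    refine eventually_all.2 fun s => eventually_all.2 fun m => eventually_all.2 fun i => ?_
    exact up_near hm hn hk (ha s m i i.2)
  have h2 : ∀ᶠ u in 𝓝[Icc (t 0) (t n)] (t k), ∀ s : Bool, ∀ m : M,
      (d.c s (im m)).up t n u ≤ e s m :=
    eventually_all.2 fun s => eventually_all.2 fun m => up_near hm hn hk (hc s m)
  have h3 : ∀ᶠ u in 𝓝[Icc (t 0) (t n)] (t k), TSys.Rel FF q d t n im u := by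
    filter_upwards [h1, h2] with u hu hu2
    exact {
      ν := fun m p hp => le_trans (hF.mono hp.ok fun i hi => hu true m ⟨i, hi⟩) (hν m p hp)
      δ := fun m p hp => le_trans (hF.mono hp.ok fun i hi => hu false m ⟨i, hi⟩) (hδ m p hp)
      Cν := fun m => (hu2 true m).trans (hCν m)
      Cδ := fun m => (hu2 false m).trans (hCδ m) }
  obtain ⟨η, η0, hη⟩ := Metric.eventually_nhds_iff.1 (eventually_nhdsWithin_iff.1 h3)
  refine ⟨η / 2, by linarith, fun u hu h4 => hη ?_ hu⟩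
  rw [Real.dist_eq]
  linarith

/-- the end values of a released system are above the rows of level 1/2 at the node `k` -/
theorem TSys.rel_at {J M Λ Λ' : Type*} [Fintype Λ'] {FF : (ℕ → ℝ) → Pt → ℝ} {N : ℕ}
    {ft : ℕ → Pt → ℝ} {q : TSys J M Λ} {d : T12 Λ'} {t : ℕ → ℝ} {n k : ℕ} {im : M → Λ'}
    (hF : Lf FF N ft) (hm : Msh t n) (hn : 0 < n) (hk : k ≤ n) {c : Bool → M → ℕ → ℝ}
    {e : Bool → M → ℝ}
    (hν : ∀ m p, Sa p → FF (c true m) p ≤ q.ν m p) (hδ : ∀ m p, Sa p → FF (c false m) p ≤ q.δ m p)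
    (hCν : ∀ m, e true m ≤ q.Cν m) (hCδ : ∀ m, e false m ≤ q.Cδ m)
    (ha : ∀ s m, ∀ i < N, (d.a s (im m) i).u k ≤ c s m i)
    (hc : ∀ s m, (d.c s (im m)).u k ≤ e s m) : TSys.Rel FF q d t n im (t k) := by
  have h1 : ∀ a : Tq, a.up t n (t k) = a.u k := fun a => pl_node hm hk hn
  exact {
    ν := fun m p hp => le_trans (hF.mono hp.ok fun i hi => (h1 _).trans_le (ha true m i hi))
      (hν m p hp)
    δ := fun m p hp => le_trans (hF.mono hp.ok fun i hi => (h1 _).trans_le (ha false m i hi))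
      (hδ m p hp)
    Cν := fun m => ((h1 _).trans_le (hc true m)).trans (hCν m)
    Cδ := fun m => ((h1 _).trans_le (hc false m)).trans (hCδ m) }

end Pool.Agent.RZ.RCO
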