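import Pool.Agent.RZ.RCO.Gk15
import Pool.Agent.RZ.RCO.Gs18
import Pool.Agent.RZ.RCO.Gs20

/-! The union records and the tables of level 1/2: rows and end values (MP_73ccd0_lc). -/

set_option autoImplicit false

namespace Pool.Agent.RZ.RCO

open Sg Set

set_option linter.unusedSectionVars false

namespace Sb1

variable {X : Sb1} {D n : ℕ} {j0 : Fin X.tt.b.J} {m0 : Fin X.tp.b.N}

/-! ### the rows -/

/-- the rates and the rows of the record are those of the layout `y` of level 1/2, columns `L`;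
`il im` the numbers of the rows -/
def lkY (X : Sb1) (y : Tp12) (il im : ℕ → ℕ) (L : List (ℕ × ℕ)) : Bool :=
  let f := fun a b => prB X.tt.R y.R a b L
  reqL f X.tt.b.RR y.b.RR && (isZ y.b.Rp && (req f X.tt.b.W y.b.W && (reqL f X.tt.b.Wp y.b.Wp
    && (allL (fun l => Tp12.weq (X.tt.b.wv l) (y.b.wv (il l))
      && (reqF f (X.tt.b.B true l) (cre2 Cf.u y.R (y.a true (il l)))
      && (reqF f (X.tt.b.B false l) (cre2 Cf.u y.R (y.a false (il l)))
      && (isZ (X.tt.b.CB true l) && (isZ (X.tt.b.CB false l)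
      && ((y.cp true (il l)).isNone && (y.cp false (il l)).isNone)))))) (List.range X.tt.b.N)
    && allL (fun m => Tp12.weq (X.tp.b.w1 m) (y.b.wv (im m))
      && (reqF f (X.tp.b.B true m) (cre2 Cf.u y.R (y.a true (im m)))
      && (reqF f (X.tp.b.B false m) (cre2 Cf.u y.R (y.a false (im m)))
      && ((y.cp true (im m)).isNone && (y.cp false (im m)).isNone)))) (List.range X.tp.b.N)))))

/-- **the record belongs to the tables of level 1/2** -/
theorem sys_lnk {y : Tp12} {D2 n2 : ℕ} {L : List (ℕ × ℕ)} {il im : ℕ → ℕ}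
    (hil : ∀ l < X.tt.b.N, il l < y.b.N) (him : ∀ m < X.tp.b.N, im m < y.b.N)
    (hf : X.Fit j0 m0) (hn : 0 < n) (hm : Msh (X.tt.tm D) n) (hm2 : Msh (tmD D2 y.R y.iH) n2)
    (hZ : isZ X.tt.b.Rp = true) (hnn : n ≤ n2) (hL : X.lkY y il im L = true)
    (hx : (X.tt.iH, y.iH) ∈ L) (hB : lnkB D X.tt.R D2 y.R n L = true) (Nr : ℝ → Pt → ℝ)
    (Np : ℝ → ℝ → ℝ) :
    TSys.Lnk FF26 (X.sys D n j0 m0) (y.t12 D2 n2 Nr Np) (tmD D2 y.R y.iH) n2
      (fun l => ⟨il l, hil l l.2⟩) fun m => ⟨im m, him m m.2⟩ := by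
  unfold lkY at hL
  simp only [Bool.and_eq_true] at hL
  obtain ⟨a1, a2, a3, a4, a5, a6⟩ := hL
  have k5 : ∀ l < X.tt.b.N, _ := fun l hl => allL_of a5 l (List.mem_range.2 hl)
  have k6 : ∀ m < X.tp.b.N, _ := fun l hl => allL_of a6 l (List.mem_range.2 hl)
  simp only [Bool.and_eq_true, Option.isNone_iff_eq_none] at k5 k6
  have ht : ∀ j ≤ n, tmD D X.tt.R X.tt.iH j = tmD D2 y.R y.iH j := fun j hj => lnkB_tm hB hx hj
  have r : ∀ ρ ∈ Icc (X.tt.tm D 0) (X.tt.tm D n), X.tt.tc D n ρ = cD (tmD D2 y.R y.iH) n2 ρ ∧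
      ∀ a b, prB X.tt.R y.R a b L = true → X.tt.te D n ρ a = eD D2 y.R (tmD D2 y.R y.iH) n2 ρ b :=
    fun ρ hρ => lnk_row hB hx hn hnn hm hm2 hρ
  have i2 : ∀ ρ ∈ Icc (X.tt.tm D 0) (X.tt.tm D n), ρ ∈ Icc (tmD D2 y.R y.iH 0)
      (tmD D2 y.R y.iH n2) := fun ρ hρ => ⟨(ht 0 (Nat.zero_le _)).ge.trans hρ.1,
      hρ.2.trans ((ht n le_rfl).le.trans (hm2.le hnn le_rfl))⟩
  have st : ∀ ρ ∈ Icc (X.tt.tm D 0) (X.tt.tm D n),
      Stp (tmD D2 y.R y.iH) n2 (ixD (tmD D2 y.R y.iH) n2 ρ) ρ := fun ρ hρ =>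
    ixD_spec hm2 (by omega) (i2 ρ hρ)
  have up0 : ∀ ρ, (oTq D2 y.R none).up (tmD D2 y.R y.iH) n2 ρ = 0 := fun ρ => pl_zero _ _ _
  exact {
    t0 := (ht 0 (Nat.zero_le _)).symm
    R := fun ρ hρ => by
      obtain ⟨e, g⟩ := r ρ hρ
      funext z
      show hT X.tt.b.RR (X.tt.tc D n ρ) (X.tt.te D n ρ) z = _
      rw [e]
      exact reqL_hT g _ z a1
    Rp := fun ρ hρ => (isZ_val hZ _ _).trans (isZ_val a2 _ _).symm
    W := fun ρ hρ => by
      obtain ⟨e, g⟩ := r ρ hρ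
      funext p
      show X.tt.b.W.kv (X.tt.tc D n ρ) (X.tt.te D n ρ) p.k = _
      rw [e]
      exact req_kv g a3 _ _
    Wp := fun ρ hρ => by
      obtain ⟨e, g⟩ := r ρ hρ
      funext z
      show hT X.tt.b.Wp (X.tt.tc D n ρ) (X.tt.te D n ρ) z = _
      rw [e]
      exact reqL_hT g _ z a4
    wv := fun l => funext fun p => weq_fn (k5 l l.2).1 p
    B := fun s l ρ hρ => by
      obtain ⟨e, g⟩ := r ρ hρ
      funext p
      show Sp12.cf (X.tt.b.B s l) (X.tt.tc D n ρ) (X.tt.te D n ρ) p = _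
      rw [e]
      cases s with
      | true =>
        rw [reqF_cf g (k5 l l.2).2.1 _ p]
        exact cf_up (st ρ hρ) (y.a true (il l)) p
      | false =>
        rw [reqF_cf g (k5 l l.2).2.2.1 _ p]
        exact cf_up (st ρ hρ) (y.a false (il l)) p
    CB := fun s l ρ hρ => by
      show (X.tt.b.CB s l).tv (X.tt.tc D n ρ) (X.tt.te D n ρ)
        = (oTq D2 y.R (y.cp s (il l))).up (tmD D2 y.R y.iH) n2 ρ
      cases s with
      | true =>
        rw [(k5 l l.2).2.2.2.2.2.1, up0]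
        exact isZ_val (k5 l l.2).2.2.2.1 _ _
      | false =>
        rw [(k5 l l.2).2.2.2.2.2.2, up0]
        exact isZ_val (k5 l l.2).2.2.2.2.1 _ _
    w1 := fun m => funext fun p => weq_fn (k6 m m.2).1 p
    B1 := fun s m ρ hρ => by
      obtain ⟨e, g⟩ := r ρ hρ
      funext p
      show Sp12.cf (X.tp.b.B s m) (X.tp.tc D n ρ) (X.tp.te D n ρ) p = _
      rw [hf.ptc, hf.pte, e]
      cases s with
      | true =>
        rw [reqF_cf g (k6 m m.2).2.1 _ p]
        exact cf_up (st ρ hρ) (y.a true (im m)) p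
      | false =>
        rw [reqF_cf g (k6 m m.2).2.2.1 _ p]
        exact cf_up (st ρ hρ) (y.a false (im m)) p
    CB1 := fun s m ρ hρ => by
      show (0 : ℝ) = (oTq D2 y.R (y.cp s (im m))).up (tmD D2 y.R y.iH) n2 ρ
      cases s with
      | true => rw [(k6 m m.2).2.2.2.1, up0]
      | false => rw [(k6 m m.2).2.2.2.2, up0] }

/-! ### the end values -/

/-- the entry `f` of `D` is above the used entry of `o` in the row `k` of `D2` -/
noncomputable def relE (st : Bool) (D2 R2 k D : ℕ) : Option Cf → Option ℕ → Bool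
  | none, none => true
  | none, some u => Nat.ble 2147483648 (g D u)
  | some _, none => false
  | some a, some u => Nat.ble (g D2 (R2 * k + a.u) + (bif st then 1 else 0)) (g D u)

/-- **the end values are above the rows of level 1/2 at the node `k`**; `st` with slack -/
noncomputable def relB (X : Sb1) (st : Bool) (D : ℕ) (y : Tp12) (D2 k : ℕ) (im : ℕ → ℕ) : Bool :=
  allL (fun m => allL (fun i => relE st D2 y.R k D (y.a true (im m) i) (X.nu m i)
      && relE st D2 y.R k D (y.a false (im m) i) (X.du m i)) (List.range 26)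
    && ((y.cp true (im m)).isNone && (y.cp false (im m)).isNone)) (List.range X.tp.b.N)

theorem relE_le {st : Bool} {D2 R2 k D R : ℕ} {f : ℕ → Option ℕ} {o : Option Cf} {i : ℕ}
    (h : relE st D2 R2 k D o (f i) = true) : (oTq D2 R2 o).u k ≤ cstV D R f i := by
  unfold cstV
  cases ho : o with
  | none =>
    cases hf : f i with
    | none => rw [cfu_none hf]; exact le_rfl
    | some u =>
      rw [cfu_some hf]
      rw [ho, hf] at h
      have h1 := Nat.le_of_ble_eq_true h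
      have h2 : ((2147483648 : ℕ) : ℝ) ≤ (g D u : ℝ) := Nat.cast_le.2 h1
      show (0 : ℝ) ≤ sn D R u 0
      unfold sn Sg.sv
      rw [mul_zero, zero_add]
      push_cast at h2
      exact div_nonneg (by linarith) (by positivity)
  | some a =>
    cases hf : f i with
    | none =>
      rw [ho, hf] at h
      exact absurd h Bool.false_ne_true
    | some u =>
      rw [cfu_some hf]
      rw [ho, hf] at h
      have h1 := (Nat.le_add_right _ _).trans (Nat.le_of_ble_eq_true h)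
      show sn D2 R2 a.u k ≤ sn D R u 0
      unfold sn Sg.sv
      rw [mul_zero, zero_add]
      gcongr

theorem relE_lt {D2 R2 k D R : ℕ} {f : ℕ → Option ℕ} {o : Option Cf} {i : ℕ}
    (h : relE true D2 R2 k D o (f i) = true) :
    (oTq D2 R2 o).u k < cstV D R f i ∨ ∀ j, (oTq D2 R2 o).u j ≤ cstV D R f i := by
  cases ho : o with
  | none =>
    right
    intro j
    rw [ho] at h
    exact relE_le (o := none) (k := j) (st := true) (R2 := R2) (D2 := D2) (by
      cases hf : f i <;> rw [hf] at h <;> exact h)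
  | some a =>
    left
    unfold cstV
    cases hf : f i with
    | none =>
      rw [ho, hf] at h
      exact absurd h Bool.false_ne_true
    | some u =>
      rw [cfu_some hf]
      rw [ho, hf] at h
      have h1 : g D2 (R2 * k + a.u) + 1 ≤ g D u := Nat.le_of_ble_eq_true h
      have h2 : ((g D2 (R2 * k + a.u) + 1 : ℕ) : ℝ) ≤ (g D u : ℝ) := Nat.cast_le.2 h1
      push_cast at h2
      show sn D2 R2 a.u k < sn D R u 0
      unfold sn Sg.sv
      rw [mul_zero, zero_add]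
      exact div_lt_div_of_pos_right (by linarith) (by positivity)

section rel

variable {y : Tp12} {D2 n2 k : ℕ} {im : ℕ → ℕ} (him : ∀ m < X.tp.b.N, im m < y.b.N)
  (hm2 : Msh (tmD D2 y.R y.iH) n2) (hn2 : 0 < n2) (hk : k ≤ n2) (Nr : ℝ → Pt → ℝ)
  (Np : ℝ → ℝ → ℝ)

include hm2 hn2 hk

/-- **the end values near the node `k`** -/
theorem sys_near (h : X.relB true D y D2 k im = true) :
    ∃ η > 0, ∀ u ∈ Icc (tmD D2 y.R y.iH 0) (tmD D2 y.R y.iH n2), |u - tmD D2 y.R y.iH k| ≤ η →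
      TSys.Rel FF26 (X.sys D n j0 m0) (y.t12 D2 n2 Nr Np) (tmD D2 y.R y.iH) n2
        (fun m => ⟨im m, him m m.2⟩) u := by
  unfold relB at h
  have k1 : ∀ m < X.tp.b.N, _ := fun m hm => allL_of h m (List.mem_range.2 hm)
  simp only [Bool.and_eq_true, Option.isNone_iff_eq_none] at k1
  have k2 : ∀ m < X.tp.b.N, ∀ i < 26, _ := fun m hm i hi =>
    allL_of (k1 m hm).1 i (List.mem_range.2 hi)
  simp only [Bool.and_eq_true] at k2
  refine TSys.rel_near (q := X.sys D n j0 m0) (d := y.t12 D2 n2 Nr Np) lf_26 hm2 hn2 hk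
    (im := fun m => ⟨im m, him m m.2⟩)
    (c := fun s m => cstV D X.tt.R (bif s then X.nu m else X.du m)) (e := fun _ _ => 0)
    (fun m p _ => le_rfl) (fun m p _ => le_rfl) (fun _ => le_rfl) (fun _ => le_rfl)
    (fun s m i hi => ?_) fun s m => Or.inr fun j _ => ?_
  · cases s with
    | true => exact (relE_lt (k2 m m.2 i hi).1).imp id fun h j _ => h j
    | false => exact (relE_lt (k2 m m.2 i hi).2).imp id fun h j _ => h j
  · show (oTq D2 y.R (y.cp s (im m))).u j ≤ 0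
    cases s with
    | true => rw [(k1 m m.2).2.1]; exact le_rfl
    | false => rw [(k1 m m.2).2.2]; exact le_rfl

/-- **the end values at the node `k`** -/
theorem sys_at {st : Bool} (h : X.relB st D y D2 k im = true) :
    TSys.Rel FF26 (X.sys D n j0 m0) (y.t12 D2 n2 Nr Np) (tmD D2 y.R y.iH) n2
      (fun m => ⟨im m, him m m.2⟩) (tmD D2 y.R y.iH k) := by
  unfold relB at h
  have k1 : ∀ m < X.tp.b.N, _ := fun m hm => allL_of h m (List.mem_range.2 hm)
  simp only [Bool.and_eq_true, Option.isNone_iff_eq_none] at k1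
  have k2 : ∀ m < X.tp.b.N, ∀ i < 26, _ := fun m hm i hi =>
    allL_of (k1 m hm).1 i (List.mem_range.2 hi)
  simp only [Bool.and_eq_true] at k2
  refine TSys.rel_at (q := X.sys D n j0 m0) (d := y.t12 D2 n2 Nr Np) lf_26 hm2 hn2 hk
    (im := fun m => ⟨im m, him m m.2⟩)
    (c := fun s m => cstV D X.tt.R (bif s then X.nu m else X.du m)) (e := fun _ _ => 0)
    (fun m p _ => le_rfl) (fun m p _ => le_rfl) (fun _ => le_rfl) (fun _ => le_rfl)
    (fun s m i hi => ?_) fun s m => ?_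
  · cases s with
    | true => exact relE_le (k2 m m.2 i hi).1
    | false => exact relE_le (k2 m m.2 i hi).2
  · show (oTq D2 y.R (y.cp s (im m))).u k ≤ 0
    cases s with
    | true => rw [(k1 m m.2).2.1]; exact le_rfl
    | false => rw [(k1 m m.2).2.2]; exact le_rfl

end rel

end Sb1

/-- the end values of a released system are nonnegative -/
theorem TSys.Rel.nn {J M Λ Λ' : Type*} [Fintype Λ'] {FF : (ℕ → ℝ) → Pt → ℝ} {N : ℕ}
    {ft : ℕ → Pt → ℝ} {q : TSys J M Λ} {d : T12 Λ'} {t : ℕ → ℝ} {n : ℕ} {im : M → Λ'} {u : ℝ}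
    (h : TSys.Rel FF q d t n im u) (hd : d.Ok FF N t n) (hF : Lf FF N ft) (hm : Msh t n)
    (hn : 0 < n) (hu : u ∈ Icc (t 0) (t n)) :
    (∀ m p, Sa p → 0 ≤ q.ν m p) ∧ ∀ m p, Sa p → 0 ≤ q.δ m p :=
  ⟨fun m p hp => ((hd.tf.f0 hF hm hn true (im m) hu hp).trans
      (hd.tf.le hF hm hn true (im m) hu hp)).trans (h.ν m p hp),
    fun m p hp => ((hd.tf.f0 hF hm hn false (im m) hu hp).trans
      (hd.tf.le hF hm hn false (im m) hu hp)).trans (h.δ m p hp)⟩

namespace Sb1

variable {X : Sb1} {D n : ℕ} {j0 : Fin X.tt.b.J} {m0 : Fin X.tp.b.N}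

/-! ### the positions as data -/

/-- the positions of the record as data -/
def psd (X : Sb1) (D n : ℕ) : Psd where
  D := D
  R := X.tp.R
  iH := X.tp.iH
  n := n
  RD := X.tp.b.RD
  κD := X.tp.b.κD
  c4 := X.tp.b.c4
  nu := X.tp.b.nu
  du := X.tp.b.du
  a := X.tp.a

/-- the used position sums -/
theorem psd_U (hf : X.Fit j0 m0) (s : Bool) (m : Fin X.tp.b.N) (ρ : ℝ) (p : Pt) :
    (X.psd D n).U s m ρ p
      = (X.sys D n j0 m0).tp.f.U FF26 (X.sys D n j0 m0).t (X.sys D n j0 m0).n s m ρ p := by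
  show FF26 (fun i => (oTq D X.tp.R (X.tp.a s m i)).up (X.tp.tm D) n ρ) p
    = FF26 (fun i => (oTq D X.tp.R (X.tp.a s m i)).up (X.tt.tm D) n ρ) p
  rw [hf.ptm]

/-- the end values are those of the data -/
theorem psd_ν (hf : X.Fit j0 m0) (ho : X.Fm m0) (hd : X.Dm D n) (hn : 0 < n)
    (hm : Msh (X.tt.tm D) n) : ∀ ρ ∈ Icc ((X.psd D n).tm 0) ((X.psd D n).tm (X.psd D n).n),
      ∀ (m : Fin X.tp.b.N) (p : Pt), Sa p → (X.sys D n j0 m0).ν m p
        ≤ Sp12.cf ((X.psd D n).nu m) ((X.psd D n).tc ρ) ((X.psd D n).te ρ) p := by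
  intro ρ hρ m p _
  have e : (X.psd D n).tm = X.tt.tm D := hf.ptm D
  rw [e] at hρ
  have e1 : (X.psd D n).tc = X.tt.tc D n := hf.ptc D n
  have e2 : (X.psd D n).te = X.tt.te D n := hf.pte D n
  rw [e1, e2]
  exact (cst_cf (hd.nu m m.2) hm hn hρ (ho.nu m m.2) p).ge

theorem psd_δ (hf : X.Fit j0 m0) (ho : X.Fm m0) (hd : X.Dm D n) (hn : 0 < n)
    (hm : Msh (X.tt.tm D) n) : ∀ ρ ∈ Icc ((X.psd D n).tm 0) ((X.psd D n).tm (X.psd D n).n),
      ∀ (m : Fin X.tp.b.N) (p : Pt), Sa p → (X.sys D n j0 m0).δ m p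
        ≤ Sp12.cf ((X.psd D n).du m) ((X.psd D n).tc ρ) ((X.psd D n).te ρ) p := by
  intro ρ hρ m p _
  have e : (X.psd D n).tm = X.tt.tm D := hf.ptm D
  rw [e] at hρ
  have e1 : (X.psd D n).tc = X.tt.tc D n := hf.ptc D n
  have e2 : (X.psd D n).te = X.tt.te D n := hf.pte D n
  rw [e1, e2]
  exact (cst_cf (hd.du m m.2) hm hn hρ (ho.du m m.2) p).ge

end Sb1

end Pool.Agent.RZ.RCO
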