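import Pool.Agent.RZ.RCO.Gz7
import Pool.Agent.RZ.RCO.Gz8_1

/-! The tables of level 0 and of level 1/2 of a world, from the two layouts and their sheets
(MP_73ccd0_lc). -/

set_option autoImplicit false

namespace Pool.Agent.RZ.RCO

open Sg Set Sp12

/-- the weight one -/
def w1F : Wf := ⟨fun _ => 0, [1], 0⟩

theorem w1F_fn (p : Pt) : w1F.fn p = 1 := by
  unfold Wf.fn Wf.kv w1F
  rw [lf_frm.eq]
  simp [cz, hv]

/-- **the layouts of level 0 and of level 1/2 use the same rates** -/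
structure Fit (x0 : Tp0) (x : Tp12) : Prop where
  R : x.R = x0.R
  iH : x.iH = x0.iH
  RR : x.b.RR = x0.RR
  W : x.b.W = x0.Wu
  Wp : x.b.Wp = [Sg.kc 1]
  nf : x.b.nf = x0.fU

/-- the bound of the loss of level 0 -/
noncomputable def Tp0.Nr (x0 : Tp0) (D n : ℕ) (ρ : ℝ) : Pt → ℝ :=
  FF26 fun i => ((x0.t0 D n).fn i).up (tmD D x0.R x0.iH) n ρ

theorem Tp0.Nr_cf {x0 : Tp0} {D n : ℕ} {ρ : ℝ}
    (h : Stp (tmD D x0.R x0.iH) n (ixD (tmD D x0.R x0.iH) n ρ) ρ) (p : Pt) :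
    x0.Nr D n ρ p = cf x0.fU (cD (tmD D x0.R x0.iH) n ρ) (eD D x0.R (tmD D x0.R x0.iH) n ρ) p :=
  (cf_up h x0.fn p).symm

/-- **the tables of level 0 and of level 1/2 of a world from the sheets** -/
theorem w012_of {x0 : Tp0} {x : Tp12} {D n : ℕ} (hf : Fit x0 x) (hO0 : x0.ok = true)
    (hE0 : x0.okE D n = true) (hO : x.okT = true) (hE : x.okE D n = true) (hn : 0 < n)
    (hS0 : ∀ j < n, x0.sheet.At D x0.R j) (hS : ∀ j < n, x.sheet.At D x.R j) (l1 : Fin x.b.N)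
    (h1 : Tp12.weq (x.b.wv l1) w1F = true) :
    W012 FF26 26 ft26 (tmD D x0.R x0.iH) n (x0.t0 D n) (x.t12 D n (x0.Nr D n) fun _ _ => 0) l1 := by
  have hz := Tp0.t0_ok hO0 hE0 hn hS0
  have hm := Tp0.msh hS0
  have z0 : tmD D x0.R x0.iH 0 = 0 := tmD_zero _ _ _
  have st : ∀ ρ ∈ Icc (tmD D x0.R x0.iH 0) (tmD D x0.R x0.iH n),
      Stp (tmD D x0.R x0.iH) n (ixD (tmD D x0.R x0.iH) n ρ) ρ := fun ρ hρ => ixD_spec hm hn hρ
  have ho := Tp12.okT_of hO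
  have N1 : ∀ ρ ∈ Icc (tmD D x0.R x0.iH 0) (tmD D x0.R x0.iH n), ∀ p : Pt, p.Ful →
      x0.Nr D n ρ p ≤ 1 := fun ρ hρ p hp => (hz.L ρ hρ).n1 p hp
  have hr : (x.t12 D n (x0.Nr D n) fun _ _ => 0).Ok FF26 26 (tmD D x.R x.iH) n := by
    refine Tp12.t12_ok hO hE hn hS (fun ρ hρ p y a b hp => ?_) (fun ρ hρ p y a b hp => ?_)
      (fun ρ hρ y y0 y1 => ?_) fun ρ hρ y y0 y1 => zero_le_one
    · rw [hf.R, hf.iH] at hρ ⊢
      rw [hf.nf, Tp0.Nr_cf (st ρ (by rwa [z0]))]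
    · rw [hf.R, hf.iH] at hρ
      exact N1 ρ (by rwa [z0]) _ hp.ful
    · rw [hf.R, hf.iH] at hρ ⊢
      have s := st ρ (by rwa [z0])
      exact hT_nonneg ho.sp.npp s.c0 s.c1 y0 _
  rw [hf.R, hf.iH] at hr
  exact {
    hF := lf_26
    hm := hm
    hn := hn
    z := hz
    r := hr
    R := fun ρ hρ y hy => by
      show hT x0.RR (cD (tmD D x0.R x0.iH) n ρ) (eD D x0.R (tmD D x0.R x0.iH) n ρ) y
        ≤ hT x.b.RR (cD (tmD D x.R x.iH) n ρ) (eD D x.R (tmD D x.R x.iH) n ρ) y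
      rw [hf.R, hf.iH, hf.RR]
    W := fun ρ hρ p hp => by
      show (x0.t0 D n).wu (tmD D x0.R x0.iH) n ρ p.k
        ≤ x.b.W.kv (cD (tmD D x.R x.iH) n ρ) (eD D x.R (tmD D x.R x.iH) n ρ) p.k
      rw [hf.R, hf.iH, hf.W]
      exact (plr_kp (ρ := rho3 p.k 0 (cD (tmD D x0.R x0.iH) n ρ)) (st ρ hρ) rfl rfl x0.W.u
        x0.nW).ge
    Nr := fun ρ hρ p hp => ⟨le_rfl, N1 ρ hρ p hp⟩
    Wp := fun ρ hρ y hy => by
      show 1 ≤ hT x.b.Wp (cD (tmD D x.R x.iH) n ρ) (eD D x.R (tmD D x.R x.iH) n ρ) y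
      rw [hf.Wp]
      show 1 ≤ (Sg.kc 1).val _ _ + y * 0
      rw [kc_val]
      simp
    Np := fun ρ hρ y hy => ⟨le_rfl, zero_le_one⟩
    w1 := fun p => (weq_fn h1 p).trans (w1F_fn p) }

end Pool.Agent.RZ.RCO
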