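import Pool.Agent.RZ.RCO.Gg5
import Pool.Agent.RZ.RCO.Gs21
import Pool.Agent.RZ.RCO.Gs22
import Pool.Agent.RZ.RCO.Gz9

/-! The records of the systems of a family and the data of a cell: conditions of all ends
(MP_73ccd0_lc). -/

set_option autoImplicit false

namespace Pool.Agent.RZ.RCO

open Sg Set

set_option linter.unusedSectionVars false

/-- **the records of the systems of a family of cells**: level 1/2 `x`, the killed systems `X`,
the released systems `Y`; `il`, `im` the numbers of the rows, `LX`, `LY` the columns shared with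
level 1/2, `LA` the columns shared by two neighbouring killed ends -/
structure Cr where
  x : Tp12
  l1 : Fin x.b.N
  X : Sb1
  j0 : Fin X.tt.b.J
  m0 : Fin X.tp.b.N
  il : ℕ → ℕ
  im : ℕ → ℕ
  LX : List (ℕ × ℕ)
  LA : List (ℕ × ℕ)
  Y : Sb1
  j1 : Fin Y.tt.b.J
  m1 : Fin Y.tp.b.N
  il' : ℕ → ℕ
  im' : ℕ → ℕ
  LY : List (ℕ × ℕ)

instance (F : Cr) : Nonempty (Fin F.X.tt.b.J) := ⟨F.j0⟩
instance (F : Cr) : Nonempty (Fin F.X.tp.b.N) := ⟨F.m0⟩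
instance (F : Cr) : Nonempty (Fin F.Y.tt.b.J) := ⟨F.j1⟩
instance (F : Cr) : Nonempty (Fin F.Y.tp.b.N) := ⟨F.m1⟩

/-- the pair occurs in the list -/
def inB (a b : ℕ) (L : List (ℕ × ℕ)) : Bool := L.any fun x => Nat.beq x.1 a && Nat.beq x.2 b

theorem inB_of {a b : ℕ} {L : List (ℕ × ℕ)} (h : inB a b L = true) : (a, b) ∈ L := by
  unfold inB at h
  obtain ⟨x, hx, h1⟩ := List.any_eq_true.1 h
  simp only [Bool.and_eq_true] at h1
  have e1 := Nat.eq_of_beq_eq_true h1.1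
  have e2 := Nat.eq_of_beq_eq_true h1.2
  rwa [show (a, b) = x from Prod.ext e1.symm e2.symm]

/-- the numbers `f 0, ..., f (n - 1)` are smaller than `N` -/
def ltB (f : ℕ → ℕ) (n N : ℕ) : Bool := allL (fun l => Nat.blt (f l) N) (List.range n)

theorem ltB_of {f : ℕ → ℕ} {n N : ℕ} (h : ltB f n N = true) : ∀ l < n, f l < N := fun l hl =>
  Nat.le_of_ble_eq_true (allL_of h l (List.mem_range.2 hl))

namespace Cr

/-- **the check of the records**, killed systems -/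
def okX (F : Cr) : Bool :=
  Tp12.weq (F.x.b.wv F.l1) w1F && (F.X.okT F.m0 && (F.X.nil && (F.X.lkY F.x F.il F.im F.LX
    && (inB F.X.tt.iH F.x.iH F.LX && (F.X.lkA F.LA && (inB F.X.tt.iH F.X.tt.iH F.LA
    && (ltB F.il F.X.tt.b.N F.x.b.N && (ltB F.im F.X.tp.b.N F.x.b.N && F.X.kp.okY))))))))

/-- **the check of the records**, released systems -/
def okY (F : Cr) : Bool :=
  F.Y.okT F.m1 && (F.Y.lkY F.x F.il' F.im' F.LY && (inB F.Y.tt.iH F.x.iH F.LY && (F.Y.kp.rl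
    && (ltB F.il' F.Y.tt.b.N F.x.b.N && (ltB F.im' F.Y.tp.b.N F.x.b.N
    && (Nat.beq F.Y.kp.yn F.X.kp.yn && Nat.beq F.Y.kp.yk F.X.kp.yk))))))

/-- **the conditions of the records** -/
structure Ok (F : Cr) : Prop where
  w1 : Tp12.weq (F.x.b.wv F.l1) w1F = true
  fX : F.X.Fit F.j0 F.m0
  oX : F.X.Fm F.m0
  nX : F.X.nil = true
  lX : F.X.lkY F.x F.il F.im F.LX = true
  iX : (F.X.tt.iH, F.x.iH) ∈ F.LX
  aX : F.X.lkA F.LA = true
  jX : (F.X.tt.iH, F.X.tt.iH) ∈ F.LA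
  ilX : ∀ l < F.X.tt.b.N, F.il l < F.x.b.N
  imX : ∀ m < F.X.tp.b.N, F.im m < F.x.b.N
  fY : F.Y.Fit F.j1 F.m1
  oY : F.Y.Fm F.m1
  lY : F.Y.lkY F.x F.il' F.im' F.LY = true
  iY : (F.Y.tt.iH, F.x.iH) ∈ F.LY
  rY : F.Y.kp.rl = true
  ilY : ∀ l < F.Y.tt.b.N, F.il' l < F.x.b.N
  imY : ∀ m < F.Y.tp.b.N, F.im' m < F.x.b.N
  ym : F.Y.kp.ym = F.X.kp.ym
  xm : RCG.XM ≤ F.X.kp.ym

/-- **the conditions of the records from the checks** -/
theorem ok_of {F : Cr} (fX : F.X.Fit F.j0 F.m0) (fY : F.Y.Fit F.j1 F.m1) (hX : F.okX = true)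
    (hY : F.okY = true) : F.Ok := by
  unfold okX at hX
  unfold okY at hY
  simp only [Bool.and_eq_true] at hX hY
  obtain ⟨a1, a2, a3, a4, a5, a6, a7, a8, a9, a10⟩ := hX
  obtain ⟨b1, b2, b3, b4, b5, b6, b7, b8⟩ := hY
  refine ⟨a1, fX, Sb1.fm a2, a3, a4, inB_of a5, a6, inB_of a7, ltB_of a8, ltB_of a9, fY,
    Sb1.fm b1, b2, inB_of b3, b4, ltB_of b5, ltB_of b6, ?_, Kp1.ym_ge a10⟩
  unfold Kp1.ym
  rw [Nat.eq_of_beq_eq_true b7, Nat.eq_of_beq_eq_true b8]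

end Cr

/-! ### the data of a cell -/

/-- **the data of a cell**: level 1/2 `D` with `n` steps, the nodes `a l`, `0 ≤ l ≤ nc`, of the
ends, the killed systems `K l`, the released systems `R l` of the ends `0 < l ≤ nc` -/
structure Cdc where
  D : ℕ
  n : ℕ
  nc : ℕ
  a : ℕ → ℕ
  K : ℕ → ℕ
  R : ℕ → ℕ

namespace Cr

variable (F : Cr)

/-- the data `D`, `n` steps, of a killed end; `E` level 1/2 -/
noncomputable def bK (D n E : ℕ) : Bool :=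
  F.X.okD D n && (lnkB D F.X.tt.R E F.x.R n F.LX && F.X.endD D n)

/-- two neighbouring killed ends -/
noncomputable def bN (D n D' n' : ℕ) : Bool := F.X.adjD D n D' n' F.LA

/-- the data of a released end, above the rows of the node `k` -/
noncomputable def bR (D n E k : ℕ) : Bool :=
  F.Y.okD D n && (lnkB D F.Y.tt.R E F.x.R n F.LY && F.Y.relB true D F.x E k F.im')

variable (c : Cdc)

/-- the time coordinate, the times of the ends -/
noncomputable def t : ℕ → ℝ := tmD c.D F.x.R F.x.iH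
noncomputable def A (l : ℕ) : ℝ := tmD c.D F.x.R F.x.iH (c.a l)

/-- the tables of level 1/2 -/
noncomputable def d (Nr : ℝ → Pt → ℝ) (Np : ℝ → ℝ → ℝ) : T12 (Fin F.x.b.N) :=
  F.x.t12 c.D c.n Nr Np

/-- the killed systems, the released systems -/
noncomputable def kd (l : ℕ) : TSys (Fin F.X.tt.b.J) (Fin F.X.tp.b.N) (Fin F.X.tt.b.N) :=
  F.X.sys (c.K l) (c.a l) F.j0 F.m0
noncomputable def rl (l : ℕ) : TSys (Fin F.Y.tt.b.J) (Fin F.Y.tp.b.N) (Fin F.Y.tt.b.N) :=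
  F.Y.sys (c.R l) (c.a l) F.j1 F.m1

end Cr

/-- **the checks of the data of a cell** -/
structure Cr.Dat (F : Cr) (c : Cdc) : Prop where
  hm : Msh (F.t c) c.n
  nc : 0 < c.nc
  a0 : c.a 0 = 0
  an : c.a c.nc = c.n
  lt : ∀ l < c.nc, c.a l < c.a (l + 1)
  sK : ∀ l, 0 < l → l ≤ c.nc → ∀ j < c.a l, F.X.sheet.At (c.K l) F.X.tt.R j
  bK : ∀ l, 0 < l → l ≤ c.nc → F.bK (c.K l) (c.a l) c.D = true
  bN : ∀ l, 0 < l → l < c.nc → F.bN (c.K l) (c.a l) (c.K (l + 1)) (c.a (l + 1)) = true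
  mo : F.X.moD (c.K 1) (c.a 1) = true
  sR : ∀ l, 0 < l → l ≤ c.nc → ∀ j < c.a l, F.Y.sheet.At (c.R l) F.Y.tt.R j
  bR : ∀ l < c.nc, F.bR (c.R (l + 1)) (c.a (l + 1)) c.D (c.a l) = true

namespace Cr

variable {F : Cr} {c : Cdc} (h : F.Ok) (d : F.Dat c)

include d

theorem Dat.a_lt {l : ℕ} (hl : 0 < l) (hn : l ≤ c.nc) : 0 < c.a l := by
  have := d.lt (l - 1) (by omega)
  rw [Nat.sub_add_cancel hl] at this
  omega

theorem Dat.a_le : ∀ {l : ℕ}, l ≤ c.nc → c.a l ≤ c.n := by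
  intro l hl
  obtain ⟨k, hk⟩ := Nat.exists_eq_add_of_le hl
  have key : ∀ k, l + k ≤ c.nc → c.a l ≤ c.a (l + k) := by
    intro k
    induction k with
    | zero => exact fun _ => le_rfl
    | succ k ih =>
      intro h1
      have h2 := d.lt (l + k) (by omega)
      exact (ih (by omega)).trans h2.le
  have := key k hk.ge
  rw [← hk, d.an] at this
  exact this

theorem Dat.a_pos : 0 < c.n := by
  have := Dat.a_lt d d.nc le_rfl
  rwa [d.an] at this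

/-- the sheets of an end -/
theorem Dat.shK {l : ℕ} (hl : 0 < l) (hn : l ≤ c.nc) : F.X.Shs (c.K l) (c.a l) :=
  Sb1.shs (d.sK l hl hn)
theorem Dat.shR {l : ℕ} (hl : 0 < l) (hn : l ≤ c.nc) : F.Y.Shs (c.R l) (c.a l) :=
  Sb1.shs (d.sR l hl hn)

/-- the checks of a killed end -/
theorem Dat.oK {l : ℕ} (hl : 0 < l) (hn : l ≤ c.nc) : F.X.Dm (c.K l) (c.a l) ∧
    lnkB (c.K l) F.X.tt.R c.D F.x.R (c.a l) F.LX = true ∧ F.X.endD (c.K l) (c.a l) = true := by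
  have h1 := d.bK l hl hn
  unfold Cr.bK at h1
  simp only [Bool.and_eq_true] at h1
  exact ⟨Sb1.dm h1.1, h1.2.1, h1.2.2⟩

/-- the checks of a released end -/
theorem Dat.oR {l : ℕ} (hn : l < c.nc) : F.Y.Dm (c.R (l + 1)) (c.a (l + 1)) ∧
    lnkB (c.R (l + 1)) F.Y.tt.R c.D F.x.R (c.a (l + 1)) F.LY = true ∧
    F.Y.relB true (c.R (l + 1)) F.x c.D (c.a l) F.im' = true := by
  have h1 := d.bR l hn
  unfold Cr.bR at h1
  simp only [Bool.and_eq_true] at h1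
  exact ⟨Sb1.dm h1.1, h1.2.1, h1.2.2⟩

include h

section end_

variable {l : ℕ}

/-- the time of a killed end, of a released end -/
theorem kd_e (hl : 0 < l) (hn : l ≤ c.nc) : (F.kd c l).t (F.kd c l).n = F.A c l :=
  lnkB_tm (Dat.oK d hl hn).2.1 h.iX le_rfl
theorem rl_e (hn : l < c.nc) : (F.rl c (l + 1)).t (F.rl c (l + 1)).n = F.A c (l + 1) :=
  lnkB_tm (Dat.oR d hn).2.1 h.iY le_rfl

/-- **the conditions of a killed end** -/
theorem kd_ok (hl : 0 < l) (hn : l ≤ c.nc) :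
    (F.kd c l).Ok FF26 26 F.X.kp.qd F.X.kp.ym 0 :=
  Sb1.sys_zf h.fX h.oX (Dat.oK d hl hn).1 (Dat.a_lt d hl hn) (Dat.shK d hl hn) h.nX

theorem kd_nl (l : ℕ) : (F.kd c l).Nl := Sb1.sys_nl h.nX

theorem kd_lnk (hl : 0 < l) (hn : l ≤ c.nc) (Nr : ℝ → Pt → ℝ) (Np : ℝ → ℝ → ℝ) :
    TSys.Lnk FF26 (F.kd c l) (F.d c Nr Np) (F.t c) c.n (fun l => ⟨F.il l, h.ilX l l.2⟩)
      fun m => ⟨F.im m, h.imX m m.2⟩ :=
  Sb1.sys_lnk h.ilX h.imX h.fX (Dat.a_lt d hl hn) (Tt1.msh (Dat.shK d hl hn).tt) d.hm h.oX.Rp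
    (Dat.a_le d hn) h.lX h.iX (Dat.oK d hl hn).2.1 Nr Np

theorem kd_end0 (hl : 0 < l) (hn : l ≤ c.nc) : (F.kd c l).End0 26 :=
  Sb1.sys_end0 (Dat.oK d hl hn).2.2

theorem kd_adj (hl : 0 < l) (hn : l < c.nc) :
    TSys.Adj F.X.kp.ym (F.kd c l) (F.kd c (l + 1)) (F.kd c l).n :=
  Sb1.sys_adj h.fX (Dat.a_lt d hl hn.le) (Dat.shK d hl hn.le)
    (Dat.shK d (Nat.succ_pos l) hn) h.oX.Rp h.aX h.jX (d.bN l hl hn)

theorem kd_mo {z : ℝ} (z0 : (F.kd c 1).t 0 ≤ z) : ∀ y ∈ Icc 0 F.X.kp.ym, ∀ ρ ρ', z ≤ ρ →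
    ρ ≤ ρ' → ρ' ≤ (F.kd c 1).t (F.kd c 1).n → (F.kd c 1).E.R ρ y ≤ (F.kd c 1).E.R ρ' y :=
  Sb1.sys_mo d.mo (Dat.a_lt d one_pos d.nc) (Dat.shK d one_pos d.nc) z0

theorem rl_lnk (hn : l < c.nc) (Nr : ℝ → Pt → ℝ) (Np : ℝ → ℝ → ℝ) :
    TSys.Lnk FF26 (F.rl c (l + 1)) (F.d c Nr Np) (F.t c) c.n (fun l => ⟨F.il' l, h.ilY l l.2⟩)
      fun m => ⟨F.im' m, h.imY m m.2⟩ :=
  Sb1.sys_lnk h.ilY h.imY h.fY (Dat.a_lt d (Nat.succ_pos l) hn)
    (Tt1.msh (Dat.shR d (Nat.succ_pos l) hn).tt) d.hm h.oY.Rp (Dat.a_le d hn) h.lY h.iY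
    (Dat.oR d hn).2.1 Nr Np

/-- **the end values of the released ends**: above the rows near the end before -/
theorem rl_rel (Nr : ℝ → Pt → ℝ) (Np : ℝ → ℝ → ℝ) : ∃ η > 0, ∀ l < c.nc,
    ∀ u ∈ Icc (F.t c 0) (F.t c c.n), |u - F.A c l| ≤ η →
      TSys.Rel FF26 (F.rl c (l + 1)) (F.d c Nr Np) (F.t c) c.n
        (fun m => ⟨F.im' m, h.imY m m.2⟩) u := by
  have k : ∀ l < c.nc, ∃ η > 0, ∀ u ∈ Icc (F.t c 0) (F.t c c.n), |u - F.A c l| ≤ η →
      TSys.Rel FF26 (F.rl c (l + 1)) (F.d c Nr Np) (F.t c) c.n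
        (fun m => ⟨F.im' m, h.imY m m.2⟩) u := fun l hl =>
    Sb1.sys_near h.imY d.hm (Dat.a_pos d) (Dat.a_le d hl.le) Nr Np (Dat.oR d hl).2.2
  choose! η η0 hη using k
  have key : ∀ n ≤ c.nc, ∃ η' > 0, ∀ l < n, η' ≤ η l := by
    intro n
    induction n with
    | zero => exact fun _ => ⟨1, one_pos, fun l hl => absurd hl (Nat.not_lt_zero l)⟩
    | succ n ih =>
      intro hn
      obtain ⟨e, e0, he⟩ := ih (by omega)
      refine ⟨min e (η n), lt_min e0 (η0 n hn), fun l hl => ?_⟩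
      rcases Nat.lt_succ_iff_lt_or_eq.1 hl with h1 | h1
      · exact (min_le_left _ _).trans (he l h1)
      · rw [h1]
        exact min_le_right _ _
  obtain ⟨e, e0, he⟩ := key c.nc le_rfl
  exact ⟨e, e0, fun l hl u hu h1 => hη l hl u hu (h1.trans (he l hl))⟩

/-- **the conditions of a released end** -/
theorem rl_ok {Nr : ℝ → Pt → ℝ} {Np : ℝ → ℝ → ℝ}
    (hd : (F.d c Nr Np).Ok FF26 26 (F.t c) c.n) (hn : l < c.nc) :
    (F.rl c (l + 1)).Ok FF26 26 F.Y.kp.qd F.X.kp.ym (F.Y.kp.Phv (c.R (l + 1))) := by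
  have h1 : TSys.Rel FF26 (F.rl c (l + 1)) (F.d c Nr Np) (F.t c) c.n
      (fun m => ⟨F.im' m, h.imY m m.2⟩) (F.t c (c.a l)) :=
    Sb1.sys_at h.imY d.hm (Dat.a_pos d) (Dat.a_le d hn.le) Nr Np (Dat.oR d hn).2.2
  have h2 := h1.nn hd lf_26 d.hm (Dat.a_pos d) ⟨d.hm.le (Nat.zero_le _) (Dat.a_le d hn.le),
    d.hm.le (Dat.a_le d hn.le) le_rfl⟩
  have h3 := Sb1.sys_rel (j0 := F.j1) (m0 := F.m1) h.fY h.oY (Dat.oR d hn).1
    (Dat.a_lt d (Nat.succ_pos l) hn) (Dat.shR d (Nat.succ_pos l) hn) h.rY h2.1 h2.2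
  rw [h.ym] at h3
  exact h3

end end_

/-! ### the tables of a cell -/

/-- **the tables of a cell** -/
noncomputable def cel (F : Cr) (hF : F.Ok) (c : Cdc) (Nr : ℝ → Pt → ℝ) (Np : ℝ → ℝ → ℝ) (η : ℝ) :
    CelD (Fin F.X.tt.b.J) (Fin F.X.tp.b.N) (Fin F.X.tt.b.N) (Fin F.Y.tt.b.J) (Fin F.Y.tp.b.N)
      (Fin F.Y.tt.b.N) (Fin F.x.b.N) where
  t := F.t c
  n := c.n
  d := F.d c Nr Np
  l1 := F.l1
  A := F.A c
  nc := c.nc
  ym := F.X.kp.ym
  η := η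
  lq := F.X.kp.qd
  kd := F.kd c
  nk := fun l => c.a (l - 1)
  Pk := fun _ => 0
  il := fun l => ⟨F.il l, hF.ilX l l.2⟩
  im := fun m => ⟨F.im m, hF.imX m m.2⟩
  lq' := F.Y.kp.qd
  rl := F.rl c
  Pr := fun l => F.Y.kp.Phv (c.R l)
  il' := fun l => ⟨F.il' l, hF.ilY l l.2⟩
  im' := fun m => ⟨F.im' m, hF.imY m m.2⟩

/-- **the conditions of the tables of a cell** -/
theorem cel_ok {Nr : ℝ → Pt → ℝ} {Np : ℝ → ℝ → ℝ} (hd : (F.d c Nr Np).Ok FF26 26 (F.t c) c.n) :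
    ∃ η > 0, (F.cel h c Nr Np η).Ok FF26 26 ft26 := by
  obtain ⟨η, η0, hη⟩ := rl_rel h d Nr Np
  have hn := Dat.a_pos d
  refine ⟨η, η0, {
    hF := lf_26
    hm := d.hm
    hn := hn
    hd := hd
    w1 := fun p => (weq_fn h.w1 p).trans (w1F_fn p)
    hN := {
      n0 := d.nc
      t0 := tmD_zero c.D F.x.R F.x.iH
      a0 := by
        show tmD c.D F.x.R F.x.iH (c.a 0) = 0
        rw [d.a0]
        exact tmD_zero _ _ _
      an := by
        show tmD c.D F.x.R F.x.iH (c.a c.nc) = tmD c.D F.x.R F.x.iH c.n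
        rw [d.an]
      lt := fun l hl => d.hm.lt (d.lt l hl) (Dat.a_le d hl) }
    xm := h.xm
    k := {
      ok := fun l h1 h2 => kd_ok h d h1 h2
      e := fun l h1 h2 => kd_e h d h1 h2
      lnk := fun l h1 h2 => kd_lnk h d h1 h2 Nr Np }
    kk := {
      z := fun l h1 h2 => kd_end0 h d h1 h2
      nl := fun l _ _ => kd_nl h d l
      adj := fun l h1 h2 => kd_adj h d h1 h2
      dec := fun _ _ _ => le_rfl
      mo := fun y hy ρ ρ' h1 h2 h3 => kd_mo h d (z := 0)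
        (tmD_zero (c.K 1) F.X.tt.R F.X.tt.iH).le y hy ρ ρ' h1 h2 (h3.trans (kd_e h d one_pos d.nc).ge) }
    r := {
      ok := fun l h1 h2 => by
        obtain ⟨l, rfl⟩ := Nat.exists_eq_add_of_lt h1
        rw [zero_add] at h2 ⊢
        exact rl_ok h d hd h2
      e := fun l h1 h2 => by
        obtain ⟨l, rfl⟩ := Nat.exists_eq_add_of_lt h1
        rw [zero_add] at h2 ⊢
        exact rl_e h d h2
      lnk := fun l h1 h2 => by
        obtain ⟨l, rfl⟩ := Nat.exists_eq_add_of_lt h1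
        rw [zero_add] at h2 ⊢
        exact rl_lnk h d h2 Nr Np }
    η0 := η0
    R := fun l hl u hu h1 h2 => hη l hl u hu (abs_le.2 ⟨by
      have h1' : F.A c l - η ≤ u := h1
      linarith, by
      have h2' : u ≤ F.A c l := h2
      linarith⟩) }⟩

end Cr

end Pool.Agent.RZ.RCO
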