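import Pool.Agent.RZ.RCO.Gg2
import Pool.Agent.RZ.RCO.Gs22

/-! The tables of the sum of level 2 of two systems of tables (MP_73ccd0_lc). -/

set_option autoImplicit false

namespace Pool.Agent.RZ.RCO

open Sg Set

namespace Tk1

/-- the tables, the weights indexed by `Fin N` -/
noncomputable def tkN (x : Tk1) (N D n : ℕ) : TK1 (Fin N) where
  k := fun i => oTq D x.R (x.a i)
  Gn := fun m ρ => (x.b.Gn m).tv (x.tc D n ρ) (x.te D n ρ)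
  Ge := fun m ρ => (x.b.Ge m).tv (x.tc D n ρ) (x.te D n ρ)

/-- the tables with their mesh -/
noncomputable def tks (x : Tk1) (N D n : ℕ) : TKs (Fin N) := ⟨x.tm D, n, x.tkN N D n⟩

theorem okE_okZ {x : Tk1} {D n : ℕ} (h : x.okZ D n = true) : x.okE D n = true := by
  have key : ∀ (l : List ℕ), allL (fun i => x.oZ D n (x.a i)) l = true →
      allL (fun i => x.oE D n (x.a i)) l = true := by
    intro l
    induction l with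
    | nil => exact fun _ => rfl
    | cons i l ih =>
      intro h
      simp only [allL, Bool.and_eq_true] at h ⊢
      refine ⟨?_, ih h.2⟩
      have h1 := h.1
      cases ha : x.a i with
      | none => rfl
      | some a =>
        rw [ha] at h1
        have h2 : g D (x.R * n + a.w) = 2147483648 := Nat.eq_of_beq_eq_true h1
        show Nat.ble 2147483648 (g D (x.R * n + a.w)) = true
        rw [h2]
        rfl
  exact key _ h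

/-- the conditions of the tables, the weights indexed by `Fin N` -/
theorem tkN_lnk {k : Tk1} {D n : ℕ} {x : Tt1} {D1 n1 : ℕ} {y : Psd} {L1 L2 : List (ℕ × ℕ)}
    (hO : k.okT = true) (hE : k.okE D n = true) (hn : 0 < n)
    (hS : ∀ j < n, k.sheet.At D k.R j)
    (hm1 : Msh (x.tm D1) n1) (hm2 : Msh y.tm y.n) (hn1 : n ≤ n1) (hn2 : n ≤ y.n)
    (b1 : lnkB D k.R D1 x.R n L1 = true) (h1 : (k.iH, x.iH) ∈ L1) (l1 : k.lkT x L1 = true)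
    (b2 : lnkB D k.R y.D y.R n L2 = true) (h2 : (k.iH, y.iH) ∈ L2) (l2 : k.lkP y L2 = true)
    {N : ℕ} (hN : k.b.N = N) {ν δ : Fin N → Pt → ℝ} {w : Fin N → Pt → ℝ}
    (hw : ∀ m : Fin N, (k.b.w1 m).fn = w m)
    (hν : ∀ ρ ∈ Icc (y.tm 0) (y.tm y.n), ∀ (m : Fin N) (p : Pt), Sa p →
      ν m p ≤ Sp12.cf (y.nu m) (y.tc ρ) (y.te ρ) p)
    (hδ : ∀ ρ ∈ Icc (y.tm 0) (y.tm y.n), ∀ (m : Fin N) (p : Pt), Sa p →
      δ m p ≤ Sp12.cf (y.du m) (y.tc ρ) (y.te ρ) p) :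
    (k.tkN N D n).Ok FF26 26 (k.tm D) n (envK x D1 n1 y) w
      (x.tt1 D1 n1).Ψn (x.tt1 D1 n1).Ψd (x.tt1 D1 n1).Cn (x.tt1 D1 n1).Cd ν δ
      (fun s m ρ => y.U s m ρ) := by
  subst hN
  have e : w = fun m : Fin k.b.N => (k.b.w1 m).fn := funext fun m => (hw m).symm
  rw [e]
  exact tk1_lnk hO hE hn hS hm1 hm2 hn1 hn2 b1 h1 l1 b2 h2 l2 hν hδ

section two

variable {k : Tk1} {D n : ℕ} {X Y : Sb1} {D1 n1 D2 n2 : ℕ} {j0 : Fin X.tt.b.J}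
  {m0 : Fin X.tp.b.N} {j1 : Fin Y.tt.b.J} {m1 : Fin Y.tp.b.N} {L1 L2 : List (ℕ × ℕ)}

/-- **the tables of the sum of level 2 of the targets of `X` and the positions of `Y`** -/
theorem tks_ok (hO : k.okT = true) (hE : k.okE D n = true) (hn : 0 < n)
    (hS : ∀ j < n, k.sheet.At D k.R j)
    (hm1 : Msh (X.tt.tm D1) n1) (hn1 : n ≤ n1) (hn2 : n ≤ n2)
    (b1 : lnkB D k.R D1 X.tt.R n L1 = true) (h1 : (k.iH, X.tt.iH) ∈ L1)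
    (l1 : k.lkT X.tt L1 = true)
    (b2 : lnkB D k.R D2 Y.tp.R n L2 = true) (h2 : (k.iH, Y.tp.iH) ∈ L2)
    (l2 : k.lkP (Y.psd D2 n2) L2 = true)
    (hN : k.b.N = Y.tp.b.N) (hw : ∀ m : Fin Y.tp.b.N, (k.b.w1 m).fn = (Y.tp.b.w1 m).fn)
    (hf : Y.Fit j1 m1) (ho : Y.Fm m1) (hd : Y.Dm D2 n2) (hm2 : Msh (Y.tt.tm D2) n2) :
    TKs.Ok FF26 26 (X.sys D1 n1 j0 m0) (Y.sys D2 n2 j1 m1) (k.tks Y.tp.b.N D n) := by
  have hn2' : 0 < n2 := hn.trans_le hn2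
  have e0 : (Y.psd D2 n2).tm = Y.tt.tm D2 := hf.ptm D2
  have e1 : (Y.psd D2 n2).tc = Y.tt.tc D2 n2 := hf.ptc D2 n2
  have e2 : (Y.psd D2 n2).te = Y.tt.te D2 n2 := hf.pte D2 n2
  have h := tkN_lnk (ν := (Y.sys D2 n2 j1 m1).ν) (δ := (Y.sys D2 n2 j1 m1).δ)
    (w := (Y.sys D2 n2 j1 m1).w1) hO hE hn hS hm1
    (by rw [e0]; exact hm2) hn1 hn2 b1 h1 l1 b2 h2 l2 hN
    hw
    (Sb1.psd_ν hf ho hd hn2' hm2) (Sb1.psd_δ hf ho hd hn2' hm2)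
  have r1 : ∀ ρ, (kenv (X.sys D1 n1 j0 m0).E (Y.sys D2 n2 j1 m1).E).RD ρ
      = (envK X.tt D1 n1 (Y.psd D2 n2)).RD ρ := fun ρ => by
    show hT Y.tt.b.RD (Y.tt.tc D2 n2 ρ) (Y.tt.te D2 n2 ρ)
      = hT Y.tp.b.RD ((Y.psd D2 n2).tc ρ) ((Y.psd D2 n2).te ρ)
    rw [e1, e2, hf.pRD]
  have r2 : ∀ ρ, (kenv (X.sys D1 n1 j0 m0).E (Y.sys D2 n2 j1 m1).E).RDp ρ
      = (envK X.tt D1 n1 (Y.psd D2 n2)).RDp ρ := fun ρ => isZ_val ho.RDp _ _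
  have r3 : ∀ ρ, (kenv (X.sys D1 n1 j0 m0).E (Y.sys D2 n2 j1 m1).E).κD ρ
      = (envK X.tt D1 n1 (Y.psd D2 n2)).κD ρ := fun ρ => by
    show Y.tt.b.κD.tv (Y.tt.tc D2 n2 ρ) (Y.tt.te D2 n2 ρ)
      = Y.tp.b.κD.tv ((Y.psd D2 n2).tc ρ) ((Y.psd D2 n2).te ρ)
    rw [e1, e2, hf.pκD]
  have r4 : ∀ ρ, (kenv (X.sys D1 n1 j0 m0).E (Y.sys D2 n2 j1 m1).E).c4 ρ
      = (envK X.tt D1 n1 (Y.psd D2 n2)).c4 ρ := fun ρ => by
    show Y.tt.b.c4.tv (Y.tt.tc D2 n2 ρ) (Y.tt.te D2 n2 ρ)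
      = Y.tp.b.c4.tv ((Y.psd D2 n2).tc ρ) ((Y.psd D2 n2).te ρ)
    rw [e1, e2, hf.pc4]
  have eU : (fun (s : Bool) (m : Fin Y.tp.b.N) (ρ : ℝ) (p : Pt) =>
      (Y.sys D2 n2 j1 m1).tp.f.U FF26 (Y.sys D2 n2 j1 m1).t (Y.sys D2 n2 j1 m1).n s m ρ p)
      = fun (s : Bool) (m : Fin Y.tp.b.N) (ρ : ℝ) => (Y.psd D2 n2).U s m ρ := by
    funext s m ρ p
    exact (Sb1.psd_U hf s m ρ p).symm
  refine ⟨msh hS, hn, ?_, sn hO hn hS⟩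
  rw [eU]
  exact ⟨h.k, h.e0, h.Gn0, h.Ge0, fun ρ hρ => by
    have c := h.C ρ hρ
    rw [← r1 ρ, ← r2 ρ, ← r3 ρ, ← r4 ρ] at c
    exact c⟩

end two

/-- the zero ends -/
theorem tks_z {k : Tk1} {N D n : ℕ} (hZ : k.okZ D n = true) : (k.tks N D n).End0 26 := okZ_of hZ

/-- **the position coefficients of two neighbouring tables are the same** -/
theorem tks_gn {k k' : Tk1} {N D D' n n' : ℕ} {L : List (ℕ × ℕ)} (hn : 0 < n) (hnn : n ≤ n')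
    (hm : Msh (k.tm D) n) (hm' : Msh (k'.tm D') n') (b : lnkB D k.R D' k'.R n L = true)
    (h : (k.iH, k'.iH) ∈ L)
    (hG : allL (fun m => req (fun a b => prB k.R k'.R a b L) (k.b.Gn m) (k'.b.Gn m)
      && req (fun a b => prB k.R k'.R a b L) (k.b.Ge m) (k'.b.Ge m)) (List.range N) = true)
    {ρ : ℝ} (hρ : ρ ∈ Icc (k.tm D 0) (k.tm D n)) (m : Fin N) :
    (k.tks N D n).k.Gn m ρ = (k'.tks N D' n').k.Gn m ρ
      ∧ (k.tks N D n).k.Ge m ρ = (k'.tks N D' n').k.Ge m ρ := by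
  have h1 := allL_of hG m (List.mem_range.2 m.2)
  rw [Bool.and_eq_true] at h1
  exact gn_eq hn hnn hm hm' b h h1.1 h1.2 hρ

end Tk1

end Pool.Agent.RZ.RCO
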