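import Pool.Agent.RZ.RCO.Gg6
import Pool.Agent.RZ.RCO.Gg7
import Pool.Agent.RZ.RCO.Gk16

/-! The records and the data of the sums of level 2 of a cell (MP_73ccd0_lc). -/

set_option autoImplicit false

namespace Pool.Agent.RZ.RCO

open Sg Set

set_option linter.unusedSectionVars false

/-- **the record of the sums of level 2 of a kind**: `LT`, `LP`, `LG` the columns shared with the
targets, with the positions, with the next end -/
structure Ck where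
  k : Tk1
  LT : List (ℕ × ℕ)
  LP : List (ℕ × ℕ)
  LG : List (ℕ × ℕ)

namespace Ck

/-- **the check of the record**, targets `X`, positions `Y` -/
def okB (r : Ck) (X Y : Sb1) : Bool :=
  r.k.okT && (inB r.k.iH X.tt.iH r.LT && (r.k.lkT X.tt r.LT && (inB r.k.iH Y.tp.iH r.LP
    && (r.k.lkP (Y.psd 0 0) r.LP && (Nat.beq r.k.b.N Y.tp.b.N
    && allL (fun m => Tp12.weq (r.k.b.w1 m) (Y.tp.b.w1 m)) (List.range Y.tp.b.N))))))

/-- **the position coefficients use the columns `LG`** -/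
def okG (r : Ck) (N : ℕ) : Bool :=
  inB r.k.iH r.k.iH r.LG && allL (fun m => req (fun a b => prB r.k.R r.k.R a b r.LG) (r.k.b.Gn m)
    (r.k.b.Gn m) && req (fun a b => prB r.k.R r.k.R a b r.LG) (r.k.b.Ge m) (r.k.b.Ge m))
    (List.range N)

/-- the links of the data: `D`, `n` the table, `D1` the targets, `D2` the positions -/
noncomputable def bL (r : Ck) (X Y : Sb1) (D n D1 D2 : ℕ) : Bool :=
  lnkB D r.k.R D1 X.tt.R n r.LT && lnkB D r.k.R D2 Y.tp.R n r.LP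

/-- **the data of a killed kind** -/
noncomputable def bZ (r : Ck) (X Y : Sb1) (D n D1 D2 : ℕ) : Bool :=
  r.k.okZ D n && r.bL X Y D n D1 D2

/-- **the data of a released kind** -/
noncomputable def bE (r : Ck) (X Y : Sb1) (D n D1 D2 : ℕ) : Bool :=
  r.k.okE D n && r.bL X Y D n D1 D2

/-- the tables -/
noncomputable def x (r : Ck) (N D n : ℕ) : TKs (Fin N) := r.k.tks N D n

/-- the conditions of the record -/
structure Ok (r : Ck) (X Y : Sb1) : Prop where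
  o : r.k.okT = true
  i1 : (r.k.iH, X.tt.iH) ∈ r.LT
  l1 : r.k.lkT X.tt r.LT = true
  i2 : (r.k.iH, Y.tp.iH) ∈ r.LP
  l2 : ∀ D n, r.k.lkP (Y.psd D n) r.LP = true
  N : r.k.b.N = Y.tp.b.N
  w : ∀ m : Fin Y.tp.b.N, (r.k.b.w1 m).fn = (Y.tp.b.w1 m).fn

theorem ok_of {r : Ck} {X Y : Sb1} (h : r.okB X Y = true) : r.Ok X Y := by
  unfold okB at h
  simp only [Bool.and_eq_true] at h
  obtain ⟨a1, a2, a3, a4, a5, a6, a7⟩ := h
  exact ⟨a1, inB_of a2, a3, inB_of a4, fun _ _ => a5, Nat.eq_of_beq_eq_true a6,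
    fun m => funext fun p => weq_fn (allL_of a7 m (List.mem_range.2 m.2)) p⟩

section one

variable {r : Ck} {X Y : Sb1} {D n D1 n1 D2 n2 : ℕ} {j0 : Fin X.tt.b.J} {m0 : Fin X.tp.b.N}
  {j1 : Fin Y.tt.b.J} {m1 : Fin Y.tp.b.N}

/-- **the conditions of the tables** -/
theorem tks (h : r.Ok X Y) (hE : r.k.okE D n = true) (hL : r.bL X Y D n D1 D2 = true)
    (hn : 0 < n) (hS : ∀ j < n, r.k.sheet.At D r.k.R j) (hm1 : Msh (X.tt.tm D1) n1)
    (hn1 : n ≤ n1) (hn2 : n ≤ n2) (hf : Y.Fit j1 m1) (ho : Y.Fm m1) (hd : Y.Dm D2 n2)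
    (hm2 : Msh (Y.tt.tm D2) n2) :
    TKs.Ok FF26 26 (X.sys D1 n1 j0 m0) (Y.sys D2 n2 j1 m1) (r.x Y.tp.b.N D n) := by
  unfold bL at hL
  rw [Bool.and_eq_true] at hL
  exact Tk1.tks_ok h.o hE hn hS hm1 hn1 hn2 hL.1 h.i1 h.l1 hL.2 h.i2 (h.l2 D2 n2) h.N h.w hf ho
    hd hm2

theorem t0 (N : ℕ) : (r.x N D n).t 0 = 0 := tmD_zero D r.k.R r.k.iH

/-- the end time of the targets, of the positions -/
theorem eT (h : r.Ok X Y) (hL : r.bL X Y D n D1 D2 = true) (N : ℕ) :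
    (r.x N D n).t (r.x N D n).n = X.tt.tm D1 n := by
  unfold bL at hL
  rw [Bool.and_eq_true] at hL
  exact lnkB_tm hL.1 h.i1 le_rfl
theorem eP (h : r.Ok X Y) (hL : r.bL X Y D n D1 D2 = true) (hf : Y.Fit j1 m1) (N : ℕ) :
    (r.x N D n).t (r.x N D n).n = Y.tt.tm D2 n := by
  unfold bL at hL
  rw [Bool.and_eq_true] at hL
  rw [← hf.ptm]
  exact lnkB_tm hL.2 h.i2 le_rfl

end one

end Ck

/-- **the records of the sums of level 2**: `12`, `13` the columns, `21`, `31` the rows -/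
structure Crk where
  r12 : Ck
  r13 : Ck
  r21 : Ck
  r31 : Ck

/-- **the data of the sums of level 2 of a cell** -/
structure Cdk where
  d12 : ℕ → ℕ
  d13 : ℕ → ℕ
  d21 : ℕ → ℕ
  d31 : ℕ → ℕ

namespace Crk

/-- the conditions of the records, columns -/
structure OkC (F : Cr) (r : Crk) : Prop where
  o12 : r.r12.Ok F.X F.X
  g12 : r.r12.okG F.X.tp.b.N = true
  o13 : r.r13.Ok F.X F.Y

/-- the conditions of the records, rows -/
structure OkR (F : Cr) (r : Crk) : Prop where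
  o21 : r.r21.Ok F.X F.X
  o31 : r.r31.Ok F.Y F.X

/-- **the checks of the data**, columns -/
structure DatC (F : Cr) (c : Cdc) (r : Crk) (e : Cdk) : Prop where
  s12 : ∀ l, 0 < l → l ≤ c.nc → ∀ j < c.a l, r.r12.k.sheet.At (e.d12 l) r.r12.k.R j
  b12 : ∀ l, 0 < l → l ≤ c.nc →
    r.r12.bZ F.X F.X (e.d12 l) (c.a l) (c.K c.nc) (c.K l) = true
  g12 : ∀ l, 0 < l → l < c.nc →
    lnkB (e.d12 l) r.r12.k.R (e.d12 (l + 1)) r.r12.k.R (c.a l) r.r12.LG = true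
  s13 : ∀ l, 0 < l → l ≤ c.nc → ∀ j < c.a l, r.r13.k.sheet.At (e.d13 l) r.r13.k.R j
  b13 : ∀ l, 0 < l → l ≤ c.nc →
    r.r13.bE F.X F.Y (e.d13 l) (c.a l) (c.K c.nc) (c.R l) = true

/-- **the checks of the data**, rows -/
structure DatR (F : Cr) (c : Cdc) (r : Crk) (e : Cdk) : Prop where
  s21 : ∀ l, 0 < l → l ≤ c.nc → ∀ j < c.a l, r.r21.k.sheet.At (e.d21 l) r.r21.k.R j
  b21 : ∀ l, 0 < l → l ≤ c.nc →
    r.r21.bZ F.X F.X (e.d21 l) (c.a l) (c.K l) (c.K c.nc) = true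
  s31 : ∀ l, 0 < l → l ≤ c.nc → ∀ j < c.a l, r.r31.k.sheet.At (e.d31 l) r.r31.k.R j
  b31 : ∀ l, 0 < l → l ≤ c.nc →
    r.r31.bE F.Y F.X (e.d31 l) (c.a l) (c.R l) (c.K c.nc) = true

/-- **the tables of the sums of level 2 of a cell** -/
noncomputable def cel (r : Crk) (F : Cr) (c : Cdc) (e : Cdk) :
    CelK (Fin F.X.tp.b.N) (Fin F.Y.tp.b.N) where
  x12 := fun l => r.r12.x F.X.tp.b.N (e.d12 l) (c.a l)
  x13 := fun l => r.r13.x F.Y.tp.b.N (e.d13 l) (c.a l)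
  x21 := fun l => r.r21.x F.X.tp.b.N (e.d21 l) (c.a l)
  x31 := fun l => r.r31.x F.X.tp.b.N (e.d31 l) (c.a l)

variable {F : Cr} {c : Cdc} {r : Crk} {e : Cdk} (h : F.Ok) (d : F.Dat c)

/-- the released checks of an end -/
theorem _root_.Pool.Agent.RZ.RCO.Cr.Dat.oR' (d : F.Dat c) {l : ℕ} (h1 : 0 < l) (h2 : l ≤ c.nc) :
    F.Y.Dm (c.R l) (c.a l) := by
  obtain ⟨l, rfl⟩ := Nat.exists_eq_add_of_lt h1
  rw [zero_add] at h2 ⊢
  exact (Cr.Dat.oR d h2).1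

theorem _root_.Pool.Agent.RZ.RCO.Cr.rl_e' (h : F.Ok) (d : F.Dat c) {l : ℕ} (h1 : 0 < l)
    (h2 : l ≤ c.nc) : F.Y.tt.tm (c.R l) (c.a l) = F.A c l := by
  obtain ⟨l, rfl⟩ := Nat.exists_eq_add_of_lt h1
  rw [zero_add] at h2 ⊢
  exact Cr.rl_e h d h2

include h d

/-- **the sums of level 2 of the columns** -/
theorem okc (hr : OkC F r) (he : DatC F c r e) (Nr : ℝ → Pt → ℝ) (Np : ℝ → ℝ → ℝ) (η : ℝ) :
    (r.cel F c e).Okc FF26 26 (F.cel h c Nr Np η) := by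
  have anc : c.n = c.a c.nc := d.an.symm
  have hK : Msh (F.X.tt.tm (c.K c.nc)) (c.a c.nc) := Tt1.msh (d.shK d.nc le_rfl).tt
  have e12 : ∀ l, 0 < l → l ≤ c.nc → _ := fun l h1 h2 => by
    have k := he.b12 l h1 h2
    unfold Ck.bZ at k
    rw [Bool.and_eq_true] at k
    exact k
  have e13 : ∀ l, 0 < l → l ≤ c.nc → _ := fun l h1 h2 => by
    have k := he.b13 l h1 h2
    unfold Ck.bE at k
    rw [Bool.and_eq_true] at k
    exact k
  have le : ∀ l, l ≤ c.nc → c.a l ≤ c.a c.nc := fun l h2 => by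
    rw [← anc]
    exact d.a_le h2
  exact {
    e12 := {
      t0 := fun l _ _ => Ck.t0 _
      e := fun l h1 h2 => (Ck.eP hr.o12 (e12 l h1 h2).2 h.fX _).trans (Cr.kd_e h d h1 h2) }
    z12 := fun l h1 h2 => Tk1.tks_z (e12 l h1 h2).1
    o12 := fun l h1 h2 => Ck.tks hr.o12 (Tk1.okE_okZ (e12 l h1 h2).1) (e12 l h1 h2).2
      (d.a_lt h1 h2) (he.s12 l h1 h2) hK (le l h2) le_rfl h.fX h.oX (d.oK h1 h2).1
      (Tt1.msh (d.shK h1 h2).tt)
    g12 := fun l h1 h2 m ρ hρ => by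
      have g := hr.g12
      unfold Ck.okG at g
      rw [Bool.and_eq_true] at g
      have e1 : r.r12.k.tm (e.d12 l) (c.a l) = F.A c l :=
        (Ck.eP hr.o12 (e12 l h1 h2.le).2 h.fX F.X.tp.b.N).trans (Cr.kd_e h d h1 h2.le)
      refine Tk1.tks_gn (L := r.r12.LG) (d.a_lt h1 h2.le) (d.lt l h2).le
        (Tk1.msh (he.s12 l h1 h2.le)) (Tk1.msh (he.s12 (l + 1) (Nat.succ_pos l) h2))
        (he.g12 l h1 h2) (inB_of g.1) g.2 ?_ m
      rw [e1]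
      have e0 : r.r12.k.tm (e.d12 l) 0 = 0 := tmD_zero _ _ _
      rw [e0]
      exact hρ
    e13 := {
      t0 := fun l _ _ => Ck.t0 _
      e := fun l h1 h2 => (Ck.eP hr.o13 (e13 l h1 h2).2 h.fY _).trans (Cr.rl_e' h d h1 h2) }
    o13 := fun l h1 h2 => Ck.tks hr.o13 (e13 l h1 h2).1 (e13 l h1 h2).2
      (d.a_lt h1 h2) (he.s13 l h1 h2) hK (le l h2) le_rfl h.fY h.oY (d.oR' h1 h2)
      (Tt1.msh (d.shR h1 h2).tt) }

/-- **the sums of level 2 of the rows** -/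
theorem okr (hr : OkR F r) (he : DatR F c r e) (Nr : ℝ → Pt → ℝ) (Np : ℝ → ℝ → ℝ) (η : ℝ) :
    (r.cel F c e).Okr FF26 26 (F.cel h c Nr Np η) := by
  have anc : c.n = c.a c.nc := d.an.symm
  have hK : Msh (F.X.tt.tm (c.K c.nc)) (c.a c.nc) := Tt1.msh (d.shK d.nc le_rfl).tt
  have e21 : ∀ l, 0 < l → l ≤ c.nc → _ := fun l h1 h2 => by
    have k := he.b21 l h1 h2
    unfold Ck.bZ at k
    rw [Bool.and_eq_true] at k
    exact k
  have e31 : ∀ l, 0 < l → l ≤ c.nc → _ := fun l h1 h2 => by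
    have k := he.b31 l h1 h2
    unfold Ck.bE at k
    rw [Bool.and_eq_true] at k
    exact k
  have le : ∀ l, l ≤ c.nc → c.a l ≤ c.a c.nc := fun l h2 => by
    rw [← anc]
    exact d.a_le h2
  exact {
    e21 := {
      t0 := fun l _ _ => Ck.t0 _
      e := fun l h1 h2 => (Ck.eT hr.o21 (e21 l h1 h2).2 _).trans (Cr.kd_e h d h1 h2) }
    z21 := fun l h1 h2 => Tk1.tks_z (e21 l h1 h2).1
    o21 := fun l h1 h2 => Ck.tks hr.o21 (Tk1.okE_okZ (e21 l h1 h2).1) (e21 l h1 h2).2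
      (d.a_lt h1 h2) (he.s21 l h1 h2) (Tt1.msh (d.shK h1 h2).tt) le_rfl (le l h2) h.fX h.oX
      (d.oK d.nc le_rfl).1 hK
    e31 := {
      t0 := fun l _ _ => Ck.t0 _
      e := fun l h1 h2 => (Ck.eT hr.o31 (e31 l h1 h2).2 _).trans (Cr.rl_e' h d h1 h2) }
    o31 := fun l h1 h2 => Ck.tks hr.o31 (e31 l h1 h2).1 (e31 l h1 h2).2
      (d.a_lt h1 h2) (he.s31 l h1 h2) (Tt1.msh (d.shR h1 h2).tt) le_rfl (le l h2) h.fX h.oX
      (d.oK d.nc le_rfl).1 hK }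

end Crk

end Pool.Agent.RZ.RCO
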