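import Pool.Agent.RZ.RCO.Ed12
import Pool.Agent.RZ.RCO.EdF
import Pool.Agent.RZ.RCO.Gg8

/-! Route P: the forms of a big cell from its records and its data (MP_73ccd0_lc). -/

set_option autoImplicit false
set_option linter.unusedSectionVars false

namespace Pool.Agent.RZ.RCO

open Set Finset Pool.Agent.RZ.RCRSHalf Pool.Agent.RZ.RCG Pool.Agent.RZ.RCG.Ct
open Pool.Agent.RZ.RCN Pool.Agent.RZ.RCN.K

/-! ### the record of the bounds is above the used values -/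

section mat

variable {J M Λ J' M' Λ' : Type} {y : Tp12} {c : CelD J M Λ J' M' Λ' (Fin y.b.N)} {k : CelK M M'}
  {xc xr : Ehk} {jP jN j2 : J} {j3 : J'}

/-- **pairs** -/
theorem matP_of (hc : FmC c k xc jP jN) (hr : FmR c k xr j2 j3) (R0 : RT.Tab) (m : ℕ) (e : Ec0)
    (q : Dj) (nh nf : ℕ) : MatP R0 m c k e q xc xr nh nf := by
  intro R ε i j l θ z cc a b _ hp ρ _ B hB
  have s := hp.sE.trans hp.sj
  rw [hB]
  exact ⟨hc.b0 hp.zW, hc.bc hp.pl.hl hp.zW hp.pa hp.pb s hp.ab,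
    hc.kbc hp.pl.hl hp.zW hp.pa hp.pb s hp.ab, hr.br hp.pl.hl hp.zW hp.pa hp.pb s hp.ab,
    hr.kbr hp.pl.hl hp.zW hp.pa hp.pb s hp.ab⟩

/-- **the star** -/
theorem matS_of (hc : FmC c k xc jP jN) (R0 : RT.Tab) (m : ℕ) (e : Ec0)
    (q : Dj) (nh nf : ℕ) : MatS R0 m c k e q xc nh nf := by
  intro R ε i j l θ z cc a b _ hp ρ _ B hB
  have s := hp.sE.trans hp.sj
  rw [hB]
  exact ⟨hc.b0 hp.zW, hc.bc hp.pl.hl hp.zW hp.pa hp.pb s hp.ab,
    hc.kbc hp.pl.hl hp.zW hp.pa hp.pb s hp.ab⟩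

end mat

/-! ### the forms of the records -/

namespace Cr

variable (F : Cr) (c : Cdc) (r : Crk) (e : Cdk) (u : EhN)

/-- **the columns of a big cell** with the numbers `u` -/
def xc : Ehk :=
  Ehk.of (fmY F.x c.D c.n false F.l1) (fmY F.x c.D c.n true F.l1)
    (fmT F.X (c.K c.nc) (c.a c.nc) true F.j0) (fmT F.X (c.K c.nc) (c.a c.nc) false F.j0)
    (fun l => fmK r.r12.k (e.d12 l) (c.a l)) (fun l => fmP F.X (c.K l) (c.a l) false F.m0)
    (fun l => fmK r.r13.k (e.d13 l) (c.a l)) (fun l => fmP F.Y (c.R l) (c.a l) false F.m1) u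

/-- **the rows of a big cell** with the numbers `u` -/
def xr : Ehk :=
  Ehk.of (fmY F.x c.D c.n false F.l1) (fmY F.x c.D c.n true F.l1)
    (fmP F.X (c.K c.nc) (c.a c.nc) true F.m0) (fmP F.X (c.K c.nc) (c.a c.nc) false F.m0)
    (fun l => fmK r.r21.k (e.d21 l) (c.a l)) (fun l => fmT F.X (c.K l) (c.a l) false F.j0)
    (fun l => fmK r.r31.k (e.d31 l) (c.a l)) (fun l => fmT F.Y (c.R l) (c.a l) false F.j1) u

variable {F c r e u}

variable (h : F.Ok) (Nr : ℝ → Pt → ℝ) (Np : ℝ → ℝ → ℝ) (η : ℝ)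

/-- **the forms of the columns are the used values of the tables** -/
theorem fmC : FmC (F.cel h c Nr Np η) (r.cel F c e) (F.xc c r e u) F.j0 F.j0 :=
  FmC.of (c := F.cel h c Nr Np η) (k := r.cel F c e) (jP := F.j0) (jN := F.j0)
    (fun ρ p => fmY_U F.x c.D c.n Nr Np false F.l1 ρ p)
    (fun ρ p => fmY_U F.x c.D c.n Nr Np true F.l1 ρ p)
    (fun ρ p => fmT_U F.X (c.K c.nc) (c.a c.nc) F.j0 F.m0 true F.j0 ρ p)
    (fun ρ p => fmT_U F.X (c.K c.nc) (c.a c.nc) F.j0 F.m0 false F.j0 ρ p)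
    (fun _ _ _ => rfl)
    (fun l _ _ ρ p => fmP_U (c.K l) (c.a l) h.fX.R1 false F.m0 ρ p)
    (fun l _ _ ρ p => fmP_U (c.R l) (c.a l) h.fY.R1 false F.m1 ρ p)
    (fun _ _ _ _ _ => rfl) (fun _ _ _ _ _ => rfl)

/-- **the forms of the rows are the used values of the tables** -/
theorem fmR : FmR (F.cel h c Nr Np η) (r.cel F c e) (F.xr c r e u) F.j0 F.j1 :=
  FmR.of (c := F.cel h c Nr Np η) (k := r.cel F c e) (j2 := F.j0) (j3 := F.j1)
    (fun ρ p => fmP_U (c.K c.nc) (c.a c.nc) h.fX.R1 true F.m0 ρ p)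
    (fun ρ p => fmP_U (c.K c.nc) (c.a c.nc) h.fX.R1 false F.m0 ρ p)
    (fun l _ _ ρ p => fmT_U F.X (c.K l) (c.a l) F.j0 F.m0 false F.j0 ρ p)
    (fun l _ _ ρ p => fmT_U F.Y (c.R l) (c.a l) F.j1 F.m1 false F.j1 ρ p)
    (fun _ _ _ _ _ => rfl) (fun _ _ _ _ _ => rfl)

/-- **the record of the bounds of the pairs of a cell is above the used values** -/
theorem matP (R0 : RT.Tab) (m : ℕ) (q : Ec0) (dj : Dj) (nh nf : ℕ) (u' : EhN) :
    MatP (y := F.x) R0 m (F.cel h c Nr Np η) (r.cel F c e) q dj (F.xc c r e u) (F.xr c r e u') nh nf :=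
  matP_of (fmC h Nr Np η) (fmR h Nr Np η) R0 m q dj nh nf

/-- **the record of the bounds of the star of a cell is above the used values** -/
theorem matS (R0 : RT.Tab) (m : ℕ) (q : Ec0) (dj : Dj) (nh nf : ℕ) :
    MatS (y := F.x) R0 m (F.cel h c Nr Np η) (r.cel F c e) q dj (F.xc c r e u) nh nf :=
  matS_of (fmC h Nr Np η) R0 m q dj nh nf

end Cr

end Pool.Agent.RZ.RCO
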