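import Mathlib

/-! Weighted row bounds as an invariant (MP_73ccd0_lc, route M). -/

namespace Pool.Agent.RZ.RCO

open Set Finset

set_option linter.unusedSectionVars false

variable {V : Type*} [Fintype V] [DecidableEq V]

variable {U : Finset V} {T A B : ℝ → V → V → ℝ} {τ σ : ℝ} {Λ : Type*} [Fintype Λ]
  {w w' : Λ → V → ℝ → ℝ} {φ φ' : Bool → Λ → V → ℝ → ℝ} {Gp Gm : Λ → Λ → ℝ → ℝ}
  {α β : Λ → V → ℝ → ℝ}

theorem comb_le {ι : Type*} {U : Finset ι} {G : Λ → ℝ} {W : Λ → ι → ℝ} {K g : ι → ℝ} {F : Λ → ℝ}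
    (G0 : ∀ m, 0 ≤ G m) (g0 : ∀ x ∈ U, 0 ≤ g x) (hK : ∀ x ∈ U, K x ≤ ∑ m, G m * W m x)
    (hF : ∀ m, ∑ x ∈ U, W m x * g x ≤ F m) : ∑ x ∈ U, g x * K x ≤ ∑ m, G m * F m := by
  calc ∑ x ∈ U, g x * K x ≤ ∑ x ∈ U, g x * ∑ m, G m * W m x :=
        Finset.sum_le_sum fun x hx => mul_le_mul_of_nonneg_left (hK x hx) (g0 x hx)
    _ = ∑ m, G m * ∑ x ∈ U, W m x * g x := by
        simp only [Finset.mul_sum]
        rw [Finset.sum_comm]
        exact Finset.sum_congr rfl fun m _ => Finset.sum_congr rfl fun x _ => by ring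
    _ ≤ ∑ m, G m * F m := Finset.sum_le_sum fun m _ => mul_le_mul_of_nonneg_left (hF m) (G0 m)

end Pool.Agent.RZ.RCO
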