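import Pool.Agent.RZ.RCO.Hl1

/-! Level 1 indexed by the world: target sums and position sums of the rates at one time
(MP_73ccd0_lc). -/

namespace Pool.Agent.RZ.RCO

open Set Finset Pool.Agent.RZ.RCM

set_option linter.unusedSectionVars false
set_option linter.unusedVariables false

variable {V : Type*} [Fintype V] [DecidableEq V]
variable {U : Finset V} {T : V → V → ℝ} {gp gm : Finset V → V → V → ℝ}

/-- the pair part of a rate below the two products of linear forms -/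
theorem pair_leF {n p d ha hb : Finset V → V → ℝ} {F : Finset V} (T0 : ∀ i j, 0 ≤ T i j)
    (Tz : ∀ i, T i i = 0) (n0 : ∀ F e, 0 ≤ n F e) (d0 : ∀ F e, 0 ≤ d F e)
    (a0 : ∀ F e, 0 ≤ ha F e) (b0 : ∀ F e, 0 ≤ hb F e)
    (hd : ∀ x ∈ F, ∀ y ∈ F, x ≠ y → Real.exp (pq p F x y) - 1 ≤ pq d F x y) :
    (1 / 2) * ∑ x ∈ F, ∑ y ∈ F, T x y *
      (max ((1 - Real.exp (-pq n F x y)) * (1 - Real.exp (-pq ha F x y)))
        ((Real.exp (pq p F x y) - 1) * (1 - Real.exp (-pq hb F x y))))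
      ≤ (1 / 2) * ∑ x ∈ F, ∑ y ∈ F, T x y * (pq n F x y * pq ha F x y)
        + (1 / 2) * ∑ x ∈ F, ∑ y ∈ F, T x y * (pq d F x y * pq hb F x y) := by
  rw [← mul_add, ← Finset.sum_add_distrib]
  refine mul_le_mul_of_nonneg_left (Finset.sum_le_sum fun x hx => ?_) (by norm_num)
  rw [← Finset.sum_add_distrib]
  refine Finset.sum_le_sum fun y hy => ?_
  rw [← mul_add]
  by_cases hxy : x = y
  · subst hxy
    rw [Tz x, zero_mul, zero_mul]
  refine mul_le_mul_of_nonneg_left ?_ (T0 x y)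
  have k1 := pq_nonneg n0 F x y
  have k2 := pq_nonneg d0 F x y
  have k3 := pq_nonneg a0 F x y
  have k4 := pq_nonneg b0 F x y
  have c1 : (1 - Real.exp (-pq n F x y)) * (1 - Real.exp (-pq ha F x y))
      ≤ pq n F x y * pq ha F x y := mul_le_mul (e1l _) (e1l _) (e1 k3) k1
  have c2 : (Real.exp (pq p F x y) - 1) * (1 - Real.exp (-pq hb F x y))
      ≤ pq d F x y * pq hb F x y := mul_le_mul (hd x hx y hy hxy) (e1l _) (e1 k4) k2
  exact max_le (c1.trans (le_add_of_nonneg_right (mul_nonneg k2 k4)))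
    (c2.trans (le_add_of_nonneg_left (mul_nonneg k1 k3)))

/-! ### target sums -/

section tgt

variable {p n d ee : V → Finset V → V → ℝ} {fl : V → ℝ} {fb : V → V → ℝ}
  {A B C : V → Finset V → ℝ} {F : Finset V} {e : V}

/-- the pair parts of the target sums -/
theorem tgtF_pair (T0 : ∀ i j, 0 ≤ T i j) (Ts : ∀ i j, T i j = T j i) (Tz : ∀ i, T i i = 0)
    (hF : F ⊆ U) (he : e ∈ U) (heF : e ∉ F) (f0 : ∀ c ∈ F, 0 ≤ fl c)
    (fle : ∀ x ∈ F, ∀ c ∈ F.erase x, fl c ≤ fb x c) {ga gb : Finset V → V → ℝ}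
    (ga0 : ∀ F i, 0 ≤ ga F i) (gb0 : ∀ F i, 0 ≤ gb F i)
    (n0 : ∀ c F e, 0 ≤ n c F e) (d0 : ∀ c F e, 0 ≤ d c F e)
    (mga : MF U e ga) (mgb : MF U e gb)
    (hd : ∀ c ∈ F, ∀ x ∈ F.erase c, ∀ y ∈ F.erase c, x ≠ y →
      Real.exp (pq (p c) (F.erase c) x y) - 1 ≤ pq (d c) (F.erase c) x y)
    (hA : ∀ x ∈ U, ∀ G ⊆ U, x ∉ G → ∑ c ∈ G, fb x c * n c (G.erase c) x ≤ A x G)
    (hB : ∀ x ∈ U, ∀ G ⊆ U, x ∉ G → ∑ c ∈ G, fb x c * d c (G.erase c) x ≤ B x G) :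
    ∑ c ∈ F, fl c * ((1 / 2) * ∑ x ∈ F.erase c, ∑ y ∈ F.erase c, T x y *
      (max ((1 - Real.exp (-pq (n c) (F.erase c) x y)) * (1 - Real.exp (-pq ga (F.erase c) x y)))
        ((Real.exp (pq (p c) (F.erase c) x y) - 1) * (1 - Real.exp (-pq gb (F.erase c) x y)))))
      ≤ ∑ x ∈ F, ga (F.erase x) x * KF T A F x + ∑ x ∈ F, gb (F.erase x) x * KF T B F x := by
  have q1 := quadG (U := U) (a := fun G c x => n c G x) (b := fun G _ x => ga G x) (i := e)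
    T0 Ts hF he heF f0 fle (fun G c x => n0 c G x) (fun G _ x => ga0 G x)
    (fun F G j hG hv => mga F G j hG hv) hA
  have q2 := quadG (U := U) (a := fun G c x => d c G x) (b := fun G _ x => gb G x) (i := e)
    T0 Ts hF he heF f0 fle (fun G c x => d0 c G x) (fun G _ x => gb0 G x)
    (fun F G j hG hv => mgb F G j hG hv) hB
  refine le_trans ?_ (add_le_add q1 q2)
  rw [← Finset.sum_add_distrib]
  refine Finset.sum_le_sum fun c hc => ?_
  rw [← mul_add]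
  refine mul_le_mul_of_nonneg_left ?_ (f0 c hc)
  exact pair_leF T0 Tz (n0 c) (d0 c) ga0 gb0 (hd c hc)

/-- the single parts of the target sums -/
theorem tgtF_one (T0 : ∀ i j, 0 ≤ T i j) (hF : F ⊆ U) (f0 : ∀ c ∈ F, 0 ≤ fl c)
    (fle : ∀ x ∈ F, ∀ c ∈ F.erase x, fl c ≤ fb x c)
    {q : V → Finset V → V → ℝ} (n0 : ∀ c F e, 0 ≤ n c F e)
    (hq : ∀ c ∈ F, ∀ b ∈ F.erase c, q c ((F.erase c).erase b) b ≤ n c ((F.erase c).erase b) b)
    (hA : ∀ x ∈ U, ∀ G ⊆ U, x ∉ G → ∑ c ∈ G, fb x c * n c (G.erase c) x ≤ A x G) :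
    ∑ c ∈ F, fl c * ∑ b ∈ F.erase c, T e b * q c ((F.erase c).erase b) b
      ≤ ∑ b ∈ F, T e b * A b (F.erase b) := by
  calc ∑ c ∈ F, fl c * ∑ b ∈ F.erase c, T e b * q c ((F.erase c).erase b) b
      ≤ ∑ c ∈ F, ∑ b ∈ F.erase c, T e b * (fb b c * n c ((F.erase b).erase c) b) := by
        refine Finset.sum_le_sum fun c hc => ?_
        rw [Finset.mul_sum]
        refine Finset.sum_le_sum fun b hb => ?_
        have hb' := Finset.mem_erase.1 hb
        have hcb : c ∈ F.erase b := Finset.mem_erase.2 ⟨fun e => hb'.1 e.symm, hc⟩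
        rw [mul_left_comm]
        refine mul_le_mul_of_nonneg_left ?_ (T0 _ _)
        have h1 := hq c hc b hb
        rw [Finset.erase_right_comm] at h1
        rw [Finset.erase_right_comm]
        exact (mul_le_mul_of_nonneg_left h1 (f0 c hc)).trans
          (mul_le_mul_of_nonneg_right (fle b hb'.2 c hcb) (n0 _ _ _))
    _ = ∑ b ∈ F, T e b * ∑ c ∈ F.erase b, fb b c * n c ((F.erase b).erase c) b := by
        rw [swap2 fun c b => T e b * (fb b c * n c ((F.erase b).erase c) b)]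
        exact Finset.sum_congr rfl fun b _ => by rw [Finset.mul_sum]
    _ ≤ ∑ b ∈ F, T e b * A b (F.erase b) :=
        Finset.sum_le_sum fun b hb => mul_le_mul_of_nonneg_left (hA b (hF hb) (F.erase b)
          ((Finset.erase_subset _ _).trans hF) (Finset.notMem_erase _ _)) (T0 _ _)

/-- **target sums of the upper rate** -/
theorem tgtF_p (T0 : ∀ i j, 0 ≤ T i j) (Ts : ∀ i j, T i j = T j i) (Tz : ∀ i, T i i = 0)
    (hF : F ⊆ U) (he : e ∈ U) (heF : e ∉ F) (f0 : ∀ c ∈ F, 0 ≤ fl c)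
    (fle : ∀ x ∈ F, ∀ c ∈ F.erase x, fl c ≤ fb x c)
    (gp0 : ∀ F i j, 0 ≤ gp F i j) (gm0 : ∀ F i j, 0 ≤ gm F i j)
    (n0 : ∀ c F e, 0 ≤ n c F e) (d0 : ∀ c F e, 0 ≤ d c F e)
    (mgp : MF U e fun F j => gp F e j) (mgm : MF U e fun F j => gm F e j)
    (hd : ∀ c ∈ F, ∀ x ∈ F.erase c, ∀ y ∈ F.erase c, x ≠ y →
      Real.exp (pq (p c) (F.erase c) x y) - 1 ≤ pq (d c) (F.erase c) x y)
    (hA : ∀ x ∈ U, ∀ G ⊆ U, x ∉ G → ∑ c ∈ G, fb x c * n c (G.erase c) x ≤ A x G)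
    (hB : ∀ x ∈ U, ∀ G ⊆ U, x ∉ G → ∑ c ∈ G, fb x c * d c (G.erase c) x ≤ B x G) :
    ∑ c ∈ F, fl c * RpF T gp gm (p c) (n c) (F.erase c) e
      ≤ ∑ b ∈ F, T e b * A b (F.erase b)
        + (∑ x ∈ F, gm (F.erase x) e x * KF T A F x + ∑ x ∈ F, gp (F.erase x) e x * KF T B F x) := by
  have h1 := tgtF_one (U := U) (e := e) T0 hF f0 fle (q := fun c G b => 1 - Real.exp (-n c G b))
    n0 (fun c _ b _ => e1l _) hA
  have h2 := tgtF_pair (U := U) (p := p) T0 Ts Tz hF he heF f0 fle (fun F i => gm0 F e i)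
    (fun F i => gp0 F e i) n0 d0 mgm mgp hd hA hB
  refine le_trans (le_of_eq ?_) (add_le_add h1 h2)
  rw [← Finset.sum_add_distrib]
  exact Finset.sum_congr rfl fun c _ => by unfold RpF; rw [mul_add]

/-- **target sums of the lower rate** -/
theorem tgtF_n (T0 : ∀ i j, 0 ≤ T i j) (Ts : ∀ i j, T i j = T j i) (Tz : ∀ i, T i i = 0)
    (hF : F ⊆ U) (he : e ∈ U) (heF : e ∉ F) (f0 : ∀ c ∈ F, 0 ≤ fl c)
    (fle : ∀ x ∈ F, ∀ c ∈ F.erase x, fl c ≤ fb x c)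
    (gp0 : ∀ F i j, 0 ≤ gp F i j) (gm0 : ∀ F i j, 0 ≤ gm F i j)
    (n0 : ∀ c F e, 0 ≤ n c F e) (d0 : ∀ c F e, 0 ≤ d c F e) (ee0 : ∀ c F e, 0 ≤ ee c F e)
    (mgp : MF U e fun F j => gp F e j) (mgm : MF U e fun F j => gm F e j)
    (hs : ∀ c ∈ F, ∀ b ∈ F.erase c,
      Real.exp (p c ((F.erase c).erase b) b) - 1 ≤ ee c ((F.erase c).erase b) b)
    (hd : ∀ c ∈ F, ∀ x ∈ F.erase c, ∀ y ∈ F.erase c, x ≠ y →
      Real.exp (pq (p c) (F.erase c) x y) - 1 ≤ pq (d c) (F.erase c) x y)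
    (hA : ∀ x ∈ U, ∀ G ⊆ U, x ∉ G → ∑ c ∈ G, fb x c * n c (G.erase c) x ≤ A x G)
    (hB : ∀ x ∈ U, ∀ G ⊆ U, x ∉ G → ∑ c ∈ G, fb x c * d c (G.erase c) x ≤ B x G)
    (hC : ∀ x ∈ U, ∀ G ⊆ U, x ∉ G → ∑ c ∈ G, fb x c * ee c (G.erase c) x ≤ C x G) :
    ∑ c ∈ F, fl c * RnF T gp gm (p c) (n c) (F.erase c) e
      ≤ ∑ b ∈ F, T e b * C b (F.erase b)
        + (∑ x ∈ F, gp (F.erase x) e x * KF T A F x + ∑ x ∈ F, gm (F.erase x) e x * KF T B F x) := by
  have h1 := tgtF_one (U := U) (e := e) T0 hF f0 fle (q := fun c G b => Real.exp (p c G b) - 1)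
    ee0 hs hC
  have h2 := tgtF_pair (U := U) (p := p) T0 Ts Tz hF he heF f0 fle (fun F i => gp0 F e i)
    (fun F i => gm0 F e i) n0 d0 mgp mgm hd hA hB
  refine le_trans (le_of_eq ?_) (add_le_add h1 h2)
  rw [← Finset.sum_add_distrib]
  exact Finset.sum_congr rfl fun c _ => by unfold RnF; rw [mul_add]

end tgt

/-! ### position sums of one target `c` -/

section pos

variable {p n d ee : Finset V → V → ℝ} {wl : V → ℝ} {wb : V → V → ℝ}
  {φp φm : V → Finset V → ℝ} {F : Finset V} {c : V}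

theorem posF_pair (T0 : ∀ i j, 0 ≤ T i j) (Ts : ∀ i j, T i j = T j i) (Tz : ∀ i, T i i = 0)
    (hF : F ⊆ U) (hc : c ∈ U) (hcF : c ∉ F) (w0 : ∀ e ∈ F, 0 ≤ wl e)
    (wle : ∀ x ∈ F, ∀ e ∈ F.erase x, wl e ≤ wb x e) {ga gb : Finset V → V → V → ℝ}
    {φa φb : V → Finset V → ℝ}
    (ga0 : ∀ F i j, 0 ≤ ga F i j) (gb0 : ∀ F i j, 0 ≤ gb F i j)
    (gas : ∀ F i j, ga F i j = ga F j i) (gbs : ∀ F i j, gb F i j = gb F j i)
    (n0 : ∀ F e, 0 ≤ n F e) (d0 : ∀ F e, 0 ≤ d F e) (mn : MF U c n) (md : MF U c d)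
    (hd : ∀ e ∈ F, ∀ x ∈ F.erase e, ∀ y ∈ F.erase e, x ≠ y →
      Real.exp (pq p (F.erase e) x y) - 1 ≤ pq d (F.erase e) x y)
    (ha : ∀ x ∈ U, ∀ G ⊆ U, x ∉ G → ∑ j ∈ G, wb x j * ga (G.erase j) x j ≤ φa x G)
    (hb : ∀ x ∈ U, ∀ G ⊆ U, x ∉ G → ∑ j ∈ G, wb x j * gb (G.erase j) x j ≤ φb x G) :
    ∑ e ∈ F, wl e * ((1 / 2) * ∑ x ∈ F.erase e, ∑ y ∈ F.erase e, T x y *
      (max ((1 - Real.exp (-pq n (F.erase e) x y))
          * (1 - Real.exp (-pq (fun G z => ga G e z) (F.erase e) x y)))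
        ((Real.exp (pq p (F.erase e) x y) - 1)
          * (1 - Real.exp (-pq (fun G z => gb G e z) (F.erase e) x y)))))
      ≤ ∑ x ∈ F, n (F.erase x) x * KF T φa F x + ∑ x ∈ F, d (F.erase x) x * KF T φb F x := by
  have q1 := quadG (U := U) (a := fun G e x => ga G e x) (b := fun G _ x => n G x) (i := c)
    T0 Ts hF hc hcF w0 wle ga0 (fun G _ x => n0 G x) (fun F G j hG hv => mn F G j hG hv)
    (fun x hx G hG hxG => by
      refine (le_of_eq ?_).trans (ha x hx G hG hxG)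
      exact Finset.sum_congr rfl fun j _ => by rw [gas])
  have q2 := quadG (U := U) (a := fun G e x => gb G e x) (b := fun G _ x => d G x) (i := c)
    T0 Ts hF hc hcF w0 wle gb0 (fun G _ x => d0 G x) (fun F G j hG hv => md F G j hG hv)
    (fun x hx G hG hxG => by
      refine (le_of_eq ?_).trans (hb x hx G hG hxG)
      exact Finset.sum_congr rfl fun j _ => by rw [gbs])
  refine le_trans ?_ (add_le_add q1 q2)
  rw [← Finset.sum_add_distrib]
  refine Finset.sum_le_sum fun e he => ?_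
  rw [← mul_add]
  refine mul_le_mul_of_nonneg_left ?_ (w0 e he)
  refine (pair_leF T0 Tz n0 d0 (fun G z => ga0 G e z) (fun G z => gb0 G e z) (hd e he)).trans
    (le_of_eq ?_)
  congr 1
  · congr 1
    exact Finset.sum_congr rfl fun x _ => Finset.sum_congr rfl fun y _ => by
      unfold pq; rw [mul_comm (n _ _ + _)]
  · congr 1
    exact Finset.sum_congr rfl fun x _ => Finset.sum_congr rfl fun y _ => by
      unfold pq; rw [mul_comm (d _ _ + _)]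

theorem posF_one (T0 : ∀ i j, 0 ≤ T i j) (hF : F ⊆ U) (hc : c ∈ U) (hcF : c ∉ F)
    (w0 : ∀ e ∈ F, 0 ≤ wl e) {q : Finset V → V → ℝ} (n0 : ∀ F e, 0 ≤ n F e) (mn : MF U c n)
    (hq : ∀ e ∈ F, ∀ b ∈ F.erase e, q ((F.erase e).erase b) b ≤ n ((F.erase e).erase b) b) :
    ∑ e ∈ F, wl e * ∑ b ∈ F.erase e, T e b * q ((F.erase e).erase b) b
      ≤ ∑ x ∈ F, n (F.erase x) x * ∑ e ∈ F.erase x, wl e * T e x := by
  calc ∑ e ∈ F, wl e * ∑ b ∈ F.erase e, T e b * q ((F.erase e).erase b) b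
      ≤ ∑ e ∈ F, ∑ b ∈ F.erase e, n (F.erase b) b * (wl e * T e b) := by
        refine Finset.sum_le_sum fun e he => ?_
        rw [Finset.mul_sum]
        refine Finset.sum_le_sum fun b hb => ?_
        have hb' := Finset.mem_of_mem_erase hb
        have h1 : n ((F.erase e).erase b) b ≤ n (F.erase b) b :=
          mn _ _ _ (Finset.erase_subset_erase _ (Finset.erase_subset _ _))
            ⟨(Finset.erase_subset _ _).trans hF, hc, hF hb',
              fun e => hcF (Finset.mem_of_mem_erase e), Finset.notMem_erase _ _,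
              fun e => hcF (e ▸ hb')⟩
        have h2 := (hq e he b hb).trans h1
        calc wl e * (T e b * q ((F.erase e).erase b) b)
            = q ((F.erase e).erase b) b * (wl e * T e b) := by ring
          _ ≤ n (F.erase b) b * (wl e * T e b) :=
            mul_le_mul_of_nonneg_right h2 (mul_nonneg (w0 e he) (T0 _ _))
    _ = ∑ x ∈ F, n (F.erase x) x * ∑ e ∈ F.erase x, wl e * T e x := by
        rw [swap2 fun e b => n (F.erase b) b * (wl e * T e b)]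
        exact Finset.sum_congr rfl fun b _ => by rw [Finset.mul_sum]

/-- **position sums of the upper rate** -/
theorem posF_p (T0 : ∀ i j, 0 ≤ T i j) (Ts : ∀ i j, T i j = T j i) (Tz : ∀ i, T i i = 0)
    (hF : F ⊆ U) (hc : c ∈ U) (hcF : c ∉ F) (w0 : ∀ e ∈ F, 0 ≤ wl e)
    (wle : ∀ x ∈ F, ∀ e ∈ F.erase x, wl e ≤ wb x e)
    (gp0 : ∀ F i j, 0 ≤ gp F i j) (gm0 : ∀ F i j, 0 ≤ gm F i j)
    (gps : ∀ F i j, gp F i j = gp F j i) (gms : ∀ F i j, gm F i j = gm F j i)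
    (n0 : ∀ F e, 0 ≤ n F e) (d0 : ∀ F e, 0 ≤ d F e) (mn : MF U c n) (md : MF U c d)
    (hd : ∀ e ∈ F, ∀ x ∈ F.erase e, ∀ y ∈ F.erase e, x ≠ y →
      Real.exp (pq p (F.erase e) x y) - 1 ≤ pq d (F.erase e) x y)
    (hp : ∀ x ∈ U, ∀ G ⊆ U, x ∉ G → ∑ j ∈ G, wb x j * gp (G.erase j) x j ≤ φp x G)
    (hm : ∀ x ∈ U, ∀ G ⊆ U, x ∉ G → ∑ j ∈ G, wb x j * gm (G.erase j) x j ≤ φm x G) :
    ∑ e ∈ F, wl e * RpF T gp gm p n (F.erase e) e
      ≤ ∑ x ∈ F, n (F.erase x) x * (∑ e ∈ F.erase x, wl e * T e x + KF T φm F x)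
        + ∑ x ∈ F, d (F.erase x) x * KF T φp F x := by
  have h1 := posF_one (U := U) (T := T) T0 hF hc hcF w0 (q := fun G b => 1 - Real.exp (-n G b))
    n0 mn (fun e _ b _ => e1l _)
  have h2 := posF_pair (U := U) (p := p) T0 Ts Tz hF hc hcF w0 wle gm0 gp0 gms gps n0 d0 mn md
    hd hm hp
  have e1 : ∑ e ∈ F, wl e * RpF T gp gm p n (F.erase e) e
      = ∑ e ∈ F, wl e * ∑ b ∈ F.erase e, T e b * (1 - Real.exp (-n ((F.erase e).erase b) b))
        + ∑ e ∈ F, wl e * ((1 / 2) * ∑ x ∈ F.erase e, ∑ y ∈ F.erase e, T x y *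
      (max ((1 - Real.exp (-pq n (F.erase e) x y))
          * (1 - Real.exp (-pq (fun G z => gm G e z) (F.erase e) x y)))
        ((Real.exp (pq p (F.erase e) x y) - 1)
          * (1 - Real.exp (-pq (fun G z => gp G e z) (F.erase e) x y))))) := by
    rw [← Finset.sum_add_distrib]
    exact Finset.sum_congr rfl fun c _ => by unfold RpF; rw [mul_add]
  have e2 : ∑ x ∈ F, n (F.erase x) x * (∑ e ∈ F.erase x, wl e * T e x + KF T φm F x)
      = ∑ x ∈ F, n (F.erase x) x * ∑ e ∈ F.erase x, wl e * T e x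
        + ∑ x ∈ F, n (F.erase x) x * KF T φm F x := by
    rw [← Finset.sum_add_distrib]
    exact Finset.sum_congr rfl fun c _ => by rw [mul_add]
  rw [e1, e2]
  linarith

end pos

end Pool.Agent.RZ.RCO
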