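import Pool.Agent.RZ.RCO.Ex5
import Pool.Agent.RZ.RCO.G12I
import Pool.Agent.RZ.RCO.Hl2

/-! Level 1 indexed by the world: the joint system, its basic invariants, the exact solution and the
data of the linear bounds (MP_73ccd0_lc). -/

namespace Pool.Agent.RZ.RCO

open Set Finset Pool.Agent.RZ.RCRSHalf Pool.Agent.RZ.RCRSGen Pool.Agent.RZ.RCG Pool.Agent.RZ.RCM

set_option linter.unusedSectionVars false

variable {V : Type*} [Fintype V] [DecidableEq V]

/-- index `(s, F, c, e)`: tail of the upper (`s = true`) or lower function of the target `c` at the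
position `e` in the world `F` -/
abbrev IxF (V : Type*) := Bool × Finset V × V × V

/-- upper function -/
def puF (H : Finset V → V → V → ℝ) (u : IxF V → ℝ) (c : V) (F : Finset V) (e : V) : ℝ :=
  H F c e + u (true, F, c, e)

/-- lower function -/
def nuF (N : Finset V → V → V → ℝ) (u : IxF V → ℝ) (c : V) (F : Finset V) (e : V) : ℝ :=
  N F c e + u (false, F, c, e)

open Classical in
/-- the joint system -/
noncomputable def hR (U : Finset V) (T : ℝ → V → V → ℝ) (gp gm H N : Finset V → V → V → ℝ → ℝ)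
    (r : ℝ) (u : IxF V → ℝ) : IxF V → ℝ := fun q =>
  if VP U q.2.1 q.2.2.1 q.2.2.2 then
    (if q.1 = true then
      RpF (T r) (fun F i j => gp F i j r) (fun F i j => gm F i j r)
        (puF (fun F c e => H F c e r) u q.2.2.1) (nuF (fun F c e => N F c e r) u q.2.2.1)
        q.2.1 q.2.2.2
    else
      RnF (T r) (fun F i j => gp F i j r) (fun F i j => gm F i j r)
        (puF (fun F c e => H F c e r) u q.2.2.1) (nuF (fun F c e => N F c e r) u q.2.2.1)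
        q.2.1 q.2.2.2)
  else 0

/-- nonnegative, zero outside the pairs, monotone in the world -/
def B0F (U : Finset V) (u : IxF V → ℝ) : Prop :=
  (∀ q, 0 ≤ u q) ∧ (∀ s F c e, ¬VP U F c e → u (s, F, c, e) = 0) ∧
    ∀ s c, MF U c fun F e => u (s, F, c, e)

section

variable {U : Finset V} {τ : ℝ} {T : ℝ → V → V → ℝ} {gp gm H N : Finset V → V → V → ℝ → ℝ}

theorem hR_t {r : ℝ} {u : IxF V → ℝ} {F : Finset V} {c e : V} (h : VP U F c e) :
    hR U T gp gm H N r u (true, F, c, e)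
      = RpF (T r) (fun F i j => gp F i j r) (fun F i j => gm F i j r)
        (puF (fun F c e => H F c e r) u c) (nuF (fun F c e => N F c e r) u c) F e := by
  unfold hR
  rw [if_pos h, if_pos rfl]

theorem hR_f {r : ℝ} {u : IxF V → ℝ} {F : Finset V} {c e : V} (h : VP U F c e) :
    hR U T gp gm H N r u (false, F, c, e)
      = RnF (T r) (fun F i j => gp F i j r) (fun F i j => gm F i j r)
        (puF (fun F c e => H F c e r) u c) (nuF (fun F c e => N F c e r) u c) F e := by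
  unfold hR
  rw [if_pos h, if_neg (by simp)]

theorem hR_z {r : ℝ} {u : IxF V → ℝ} {s : Bool} {F : Finset V} {c e : V} (h : ¬VP U F c e) :
    hR U T gp gm H N r u (s, F, c, e) = 0 := by
  unfold hR
  rw [if_neg h]

/-- the environment of the system: signs, continuity, monotonicity in the world -/
structure SgF (U : Finset V) (τ : ℝ) (T : ℝ → V → V → ℝ)
    (gp gm H N : Finset V → V → V → ℝ → ℝ) : Prop where
  T0 : ∀ r ∈ Icc 0 τ, ∀ x y, 0 ≤ T r x y
  H0 : ∀ F c e, ∀ r ∈ Icc 0 τ, 0 ≤ H F c e r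
  N0 : ∀ F c e, ∀ r ∈ Icc 0 τ, 0 ≤ N F c e r
  gp0 : ∀ F x y, ∀ r ∈ Icc 0 τ, 0 ≤ gp F x y r
  gm0 : ∀ F x y, ∀ r ∈ Icc 0 τ, 0 ≤ gm F x y r
  cT : ∀ i j, ContinuousOn (fun r => T r i j) (Icc 0 τ)
  cH : ∀ F i j, ContinuousOn (H F i j) (Icc 0 τ)
  cN : ∀ F i j, ContinuousOn (N F i j) (Icc 0 τ)
  cgp : ∀ F i j, ContinuousOn (gp F i j) (Icc 0 τ)
  cgm : ∀ F i j, ContinuousOn (gm F i j) (Icc 0 τ)
  mH : ∀ c, ∀ r ∈ Icc 0 τ, MF U c fun F e => H F c e r
  mN : ∀ c, ∀ r ∈ Icc 0 τ, MF U c fun F e => N F c e r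
  mgp : ∀ i, ∀ r ∈ Icc 0 τ, MF U i fun F j => gp F i j r
  mgm : ∀ i, ∀ r ∈ Icc 0 τ, MF U i fun F j => gm F i j r

theorem SgF.nonneg (hs : SgF U τ T gp gm H N) {r : ℝ} (hr : r ∈ Icc 0 τ) {u : IxF V → ℝ}
    (u0 : ∀ i, 0 ≤ u i) (i : IxF V) : 0 ≤ hR U T gp gm H N r u i := by
  have p0 : ∀ c F e, 0 ≤ puF (fun F c e => H F c e r) u c F e := fun c F e =>
    add_nonneg (hs.H0 F c e r hr) (u0 _)
  have n0 : ∀ c F e, 0 ≤ nuF (fun F c e => N F c e r) u c F e := fun c F e =>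
    add_nonneg (hs.N0 F c e r hr) (u0 _)
  unfold hR
  split_ifs
  · exact RpF_nonneg (hs.T0 r hr) (fun F i j => hs.gp0 F i j r hr)
      (fun F i j => hs.gm0 F i j r hr) (n0 _) _ _
  · exact RnF_nonneg (hs.T0 r hr) (fun F i j => hs.gp0 F i j r hr)
      (fun F i j => hs.gm0 F i j r hr) (p0 _) (n0 _) _ _
  · exact le_rfl

theorem SgF.mono (hs : SgF U τ T gp gm H N) {r : ℝ} (hr : r ∈ Icc 0 τ) {u v : IxF V → ℝ}
    (u0 : ∀ i, 0 ≤ u i) (h : ∀ i, u i ≤ v i) (i : IxF V) :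
    hR U T gp gm H N r u i ≤ hR U T gp gm H N r v i := by
  have p0 : ∀ c F e, 0 ≤ puF (fun F c e => H F c e r) u c F e := fun c F e =>
    add_nonneg (hs.H0 F c e r hr) (u0 _)
  have n0 : ∀ c F e, 0 ≤ nuF (fun F c e => N F c e r) u c F e := fun c F e =>
    add_nonneg (hs.N0 F c e r hr) (u0 _)
  have pm : ∀ c F e, puF (fun F c e => H F c e r) u c F e
      ≤ puF (fun F c e => H F c e r) v c F e := fun c F e => add_le_add le_rfl (h _)
  have nm : ∀ c F e, nuF (fun F c e => N F c e r) u c F e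
      ≤ nuF (fun F c e => N F c e r) v c F e := fun c F e => add_le_add le_rfl (h _)
  unfold hR
  split_ifs
  · exact RpF_mono (hs.T0 r hr) (fun _ _ => le_rfl) (fun F i j => hs.gp0 F i j r hr)
      (fun F i j => hs.gm0 F i j r hr) (p0 _) (n0 _) (fun _ _ _ => le_rfl) (fun _ _ _ => le_rfl)
      (pm _) (nm _) _ _
  · exact RnF_mono (hs.T0 r hr) (fun _ _ => le_rfl) (fun F i j => hs.gp0 F i j r hr)
      (fun F i j => hs.gm0 F i j r hr) (p0 _) (n0 _) (fun _ _ _ => le_rfl) (fun _ _ _ => le_rfl)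
      (pm _) (nm _) _ _
  · exact le_rfl

theorem SgF.set (hs : SgF U τ T gp gm H N) {r : ℝ} (hr : r ∈ Icc 0 τ) {u : IxF V → ℝ}
    (u0 : ∀ i, 0 ≤ u i) (um : ∀ s c, MF U c fun F e => u (s, F, c, e)) (s : Bool) (c : V)
    {F G : Finset V} {e : V} (hG : G ⊆ F) (hv : VP U F c e) :
    hR U T gp gm H N r u (s, G, c, e) ≤ hR U T gp gm H N r u (s, F, c, e) := by
  have p0 : ∀ F e, 0 ≤ puF (fun F c e => H F c e r) u c F e := fun F e =>
    add_nonneg (hs.H0 F c e r hr) (u0 _)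
  have n0 : ∀ F e, 0 ≤ nuF (fun F c e => N F c e r) u c F e := fun F e =>
    add_nonneg (hs.N0 F c e r hr) (u0 _)
  have pm : MF U c (puF (fun F c e => H F c e r) u c) := fun F G e hG hv =>
    add_le_add (hs.mH c r hr F G e hG hv) (um true c F G e hG hv)
  have nm : MF U c (nuF (fun F c e => N F c e r) u c) := fun F G e hG hv =>
    add_le_add (hs.mN c r hr F G e hG hv) (um false c F G e hG hv)
  cases s
  · rw [hR_f hv, hR_f (hv.mono hG)]
    exact RnF_set (hs.T0 r hr) (fun F i j => hs.gp0 F i j r hr) (fun F i j => hs.gm0 F i j r hr)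
      p0 n0 (fun i => hs.mgp i r hr) (fun i => hs.mgm i r hr) pm nm hG hv
  · rw [hR_t hv, hR_t (hv.mono hG)]
    exact RpF_set (hs.T0 r hr) (fun F i j => hs.gp0 F i j r hr) (fun F i j => hs.gm0 F i j r hr)
      p0 n0 (fun i => hs.mgp i r hr) (fun i => hs.mgm i r hr) pm nm hG hv

theorem SgF.cont (hs : SgF U τ T gp gm H N) (i : IxF V) :
    ContinuousOn (fun p : ℝ × (IxF V → ℝ) => hR U T gp gm H N p.1 p.2 i)
      (Icc 0 τ ×ˢ univ) := by
  have c1 : ∀ {f : ℝ → ℝ}, ContinuousOn f (Icc 0 τ) →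
      ContinuousOn (fun p : ℝ × (IxF V → ℝ) => f p.1) (Icc 0 τ ×ˢ univ) := fun hf =>
    hf.comp continuousOn_fst fun p hp => hp.1
  have c2 : ∀ j : IxF V, ContinuousOn (fun p : ℝ × (IxF V → ℝ) => p.2 j) (Icc 0 τ ×ˢ univ) :=
    fun j => ((continuous_apply j).comp continuous_snd).continuousOn
  have cT := fun i j => c1 (hs.cT i j)
  have cp : ∀ c F e, ContinuousOn (fun p : ℝ × (IxF V → ℝ) =>
      puF (fun F c e => H F c e p.1) p.2 c F e) (Icc 0 τ ×ˢ univ) := fun c F e =>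
    (c1 (hs.cH F c e)).add (c2 _)
  have cn : ∀ c F e, ContinuousOn (fun p : ℝ × (IxF V → ℝ) =>
      nuF (fun F c e => N F c e p.1) p.2 c F e) (Icc 0 τ ×ˢ univ) := fun c F e =>
    (c1 (hs.cN F c e)).add (c2 _)
  have x1 : ∀ {f : ℝ × (IxF V → ℝ) → ℝ}, ContinuousOn f (Icc 0 τ ×ˢ univ) →
      ContinuousOn (fun p => 1 - Real.exp (-f p)) (Icc 0 τ ×ˢ univ) := fun hf =>
    continuousOn_const.sub (Real.continuous_exp.comp_continuousOn hf.neg)
  have x2 : ∀ {f : ℝ × (IxF V → ℝ) → ℝ}, ContinuousOn f (Icc 0 τ ×ˢ univ) →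
      ContinuousOn (fun p => Real.exp (f p) - 1) (Icc 0 τ ×ˢ univ) := fun hf =>
    (Real.continuous_exp.comp_continuousOn hf).sub continuousOn_const
  unfold hR
  by_cases hi : VP U i.2.1 i.2.2.1 i.2.2.2
  · simp only [if_pos hi]
    by_cases hb : i.1 = true
    · simp only [if_pos hb]
      unfold RpF pq
      refine (continuousOn_finsetSum _ fun b _ => (cT _ _).mul (x1 (cn _ _ _))).add
        (continuousOn_const.mul (continuousOn_finsetSum _ fun x _ => continuousOn_finsetSum _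
          fun y _ => (cT _ _).mul (ContinuousOn.sup ?_ ?_)))
      · exact (x1 ((cn _ _ _).add (cn _ _ _))).mul
          (x1 ((c1 (hs.cgm _ _ _)).add (c1 (hs.cgm _ _ _))))
      · exact (x2 ((cp _ _ _).add (cp _ _ _))).mul
          (x1 ((c1 (hs.cgp _ _ _)).add (c1 (hs.cgp _ _ _))))
    · simp only [if_neg hb]
      unfold RnF pq
      refine (continuousOn_finsetSum _ fun b _ => (cT _ _).mul (x2 (cp _ _ _))).add
        (continuousOn_const.mul (continuousOn_finsetSum _ fun x _ => continuousOn_finsetSum _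
          fun y _ => (cT _ _).mul (ContinuousOn.sup ?_ ?_)))
      · exact (x1 ((cn _ _ _).add (cn _ _ _))).mul
          (x1 ((c1 (hs.cgp _ _ _)).add (c1 (hs.cgp _ _ _))))
      · exact (x2 ((cp _ _ _).add (cp _ _ _))).mul
          (x1 ((c1 (hs.cgm _ _ _)).add (c1 (hs.cgm _ _ _))))
  · simp only [if_neg hi]
    exact continuousOn_const

/-- the basic invariant -/
theorem inv_B0F (hs : SgF U τ T gp gm H N) : Inv τ (hR U T gp gm H N) (fun _ u => B0F U u) := by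
  refine ⟨fun r _ => ?_, fun r _ => ⟨fun i => le_rfl, fun _ _ _ _ _ => rfl,
    fun _ _ _ _ _ _ _ => le_rfl⟩, fun u w hp hc r hr => ?_⟩
  · have : {u : IxF V → ℝ | B0F U u} = (⋂ i, {u | 0 ≤ u i})
        ∩ ((⋂ s, ⋂ F, ⋂ c, ⋂ e, ⋂ (_ : ¬VP U F c e), {u | u (s, F, c, e) = 0})
        ∩ ⋂ s, ⋂ c, ⋂ F, ⋂ G, ⋂ e, ⋂ (_ : G ⊆ F), ⋂ (_ : VP U F c e),
          {u | u (s, G, c, e) ≤ u (s, F, c, e)}) := by
      ext u
      simp only [B0F, MF, mem_ofPred_eq, mem_inter_iff, mem_iInter]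
    rw [this]
    refine (isClosed_iInter fun i => isClosed_le continuous_const (continuous_apply i)).inter
      (IsClosed.inter ?_ ?_)
    · exact isClosed_iInter fun s => isClosed_iInter fun F => isClosed_iInter fun i =>
        isClosed_iInter fun j =>
        isClosed_iInter fun _ => isClosed_eq (continuous_apply _) continuous_const
    · exact isClosed_iInter fun s => isClosed_iInter fun F => isClosed_iInter fun G =>
        isClosed_iInter fun i => isClosed_iInter fun j => isClosed_iInter fun _ =>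
        isClosed_iInter fun _ => isClosed_le (continuous_apply _) (continuous_apply _)
  · refine ⟨fun i => ?_, fun s F c e h => ?_, fun s c F G e hG hv => ?_⟩
    · have h0 : ∀ z ∈ Icc 0 τ, HasDerivAt (fun _ : ℝ => (0 : ℝ)) 0 z := fun z _ =>
        hasDerivAt_const z 0
      exact back_le (f := fun _ => (0 : ℝ)) (g := w i) (f' := fun _ => 0)
        (g' := fun z => -hR U T gp gm H N z (fun j => u j z) i) h0
        (fun z hz => hp.2.2.1 i z hz)
        (fun z hz => by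
          have := hs.nonneg hz (u := fun j => u j z) (fun j => hp.2.1 j z hz) i
          simpa using this) (by rw [hp.2.2.2 i]) r hr
    · refine back_eq (f := w (s, F, c, e)) (g := fun _ => 0) (f' := fun _ => 0)
        (fun z hz => ?_) (fun z _ => hasDerivAt_const z 0) (hp.2.2.2 _) r hr
      have := hp.2.2.1 (s, F, c, e) z hz
      rwa [hR_z h, neg_zero] at this
    · refine back_le (f := w (s, G, c, e)) (g := w (s, F, c, e))
        (f' := fun z => -hR U T gp gm H N z (fun q => u q z) (s, G, c, e))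
        (g' := fun z => -hR U T gp gm H N z (fun q => u q z) (s, F, c, e))
        (fun z hz => hp.2.2.1 _ z hz) (fun z hz => hp.2.2.1 _ z hz) (fun z hz => ?_)
        (by rw [hp.2.2.2, hp.2.2.2]) r hr
      exact neg_le_neg (hs.set hz (fun q => hp.2.1 q z hz) (fun s c => (hc z hz).2.2 s c) s c
        hG hv)

/-- **the exact solution of level 1** with all its invariants, from any bounded invariant -/
theorem exists_l1F (hτ : 0 ≤ τ) (hs : SgF U τ T gp gm H N) {C : ℝ → (IxF V → ℝ) → Prop}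
    (hI : Inv τ (hR U T gp gm H N) C) {M : ℝ} (hM : ∀ r ∈ Icc 0 τ, ∀ u, C r u → ∀ i, u i ≤ M) :
    ∃ g : IxF V → ℝ → ℝ,
      (∀ i, ∀ r ∈ Icc 0 τ, HasDerivAt (g i) (-hR U T gp gm H N r (fun j => g j r) i) r) ∧
      (∀ i, g i τ = 0) ∧ (∀ i, ∀ r ∈ Icc 0 τ, 0 ≤ g i r) ∧
      (∀ r ∈ Icc 0 τ, B0F U fun i => g i r) ∧
      ∀ C : ℝ → (IxF V → ℝ) → Prop, Inv τ (hR U T gp gm H N) C →
        ∀ r ∈ Icc 0 τ, C r fun i => g i r := by
  obtain ⟨g, g1, g2, g3, g4⟩ := exists_pic hτ (R := hR U T gp gm H N) (fun i => hs.cont i)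
    (fun r hr u v u0 huv i => hs.mono hr u0 huv i)
    (fun r hr i => hs.nonneg hr (fun _ => le_rfl) i) hI hM
  exact ⟨g, g1, g2, g3, fun r hr => g4 _ (inv_B0F hs) r hr, g4⟩

/-- **the system `SVF` of a target from the exact solution** -/
theorem svf_of {g : IxF V → ℝ → ℝ} (hs : SgF U τ T gp gm H N)
    (dg : ∀ i, ∀ r ∈ Icc 0 τ, HasDerivAt (g i) (-hR U T gp gm H N r (fun j => g j r) i) r)
    (gB : ∀ r ∈ Icc 0 τ, B0F U fun i => g i r) {c : V} (hc : c ∈ U) {κ : ℝ → V → ℝ}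
    {H' N' : Finset V → V → ℝ → ℝ}
    (dH : ∀ F e, VP U F c e → ∀ r ∈ Icc 0 τ, HasDerivAt (H F c e) (H' F e r) r)
    (hκ : ∀ F e, VP U F c e → ∀ r ∈ Icc 0 τ, κ r e ≤ -H' F e r)
    (dN : ∀ F e, VP U F c e → ∀ r ∈ Icc 0 τ, HasDerivAt (N F c e) (N' F e r) r)
    (N'0 : ∀ F e, VP U F c e → ∀ r ∈ Icc 0 τ, N' F e r ≤ 0) :
    SVF (U.erase c) τ κ T gp gm (fun F e r => H F c e r + g (true, F, c, e) r)
      (fun F e r => H' F e r + -hR U T gp gm H N r (fun j => g j r) (true, F, c, e))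
      (fun F e r => N F c e r + g (false, F, c, e) r)
      (fun F e r => N' F e r + -hR U T gp gm H N r (fun j => g j r) (false, F, c, e)) := by
  have vp : ∀ F ⊆ U.erase c, ∀ e ∈ U.erase c, e ∉ F → VP U F c e := fun F hF e he heF =>
    ⟨hF.trans (Finset.erase_subset _ _), hc, Finset.mem_of_mem_erase he,
      fun h => Finset.notMem_erase c U (hF h), heF, fun h => (Finset.ne_of_mem_erase he) h.symm⟩
  refine ⟨fun F hF e he heF r hr => (dH F e (vp F hF e he heF) r hr).add (dg _ r hr),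
    fun F hF e he heF r hr => (dN F e (vp F hF e he heF) r hr).add (dg _ r hr),
    fun F e r hr => add_nonneg (hs.H0 F c e r hr) ((gB r hr).1 _),
    fun F e r hr => add_nonneg (hs.N0 F c e r hr) ((gB r hr).1 _),
    fun F hF e he heF x hx r hr => ?_, fun F hF e he heF x hx r hr => ?_,
    fun F hF e he heF r hr => ?_, fun F hF e he heF r hr => ?_⟩
  · exact add_le_add (hs.mH c r hr F _ e (Finset.erase_subset _ _) (vp F hF e he heF))
      ((gB r hr).2.2 true c F _ e (Finset.erase_subset _ _) (vp F hF e he heF))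
  · exact add_le_add (hs.mN c r hr F _ e (Finset.erase_subset _ _) (vp F hF e he heF))
      ((gB r hr).2.2 false c F _ e (Finset.erase_subset _ _) (vp F hF e he heF))
  · rw [hR_t (vp F hF e he heF)]
    have h1 := hκ F e (vp F hF e he heF) r hr
    unfold RpF
    simp only [pq, puF, nuF, pr, pg]
    linarith
  · rw [hR_f (vp F hF e he heF)]
    have h1 := N'0 F e (vp F hF e he heF) r hr
    unfold RnF
    simp only [pq, puF, nuF, pr, pg]
    linarith

end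

/-! ### the data of the linear bounds -/

/-- the data of the linear bounds at one time: `D`, `c4` for the pairs, `E`, `c1` for the single
terms -/
structure LbF (U : Finset V) (T : V → V → ℝ) (gp gm H N D E : Finset V → V → V → ℝ)
    (c1 c4 : ℝ) (u : IxF V → ℝ) : Prop where
  T0 : ∀ x y, 0 ≤ T x y
  Ts : ∀ x y, T x y = T y x
  Tz : ∀ x, T x x = 0
  H0 : ∀ F c e, 0 ≤ H F c e
  N0 : ∀ F c e, 0 ≤ N F c e
  D0 : ∀ F c e, 0 ≤ D F c e
  E0 : ∀ F c e, 0 ≤ E F c e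
  gp0 : ∀ F x y, 0 ≤ gp F x y
  gm0 : ∀ F x y, 0 ≤ gm F x y
  gps : ∀ F x y, gp F x y = gp F y x
  gms : ∀ F x y, gm F x y = gm F y x
  c40 : 0 ≤ c4
  c10 : 0 ≤ c1
  u0 : ∀ q, 0 ≤ u q
  mgp : ∀ i, MF U i fun F j => gp F i j
  mgm : ∀ i, MF U i fun F j => gm F i j
  mN : ∀ c, MF U c fun F e => N F c e
  mD : ∀ c, MF U c fun F e => D F c e
  mE : ∀ c, MF U c fun F e => E F c e
  mu : ∀ s c, MF U c fun F e => u (s, F, c, e)
  hE1 : ∀ F c b, VP U F c b → Real.exp (puF H u c F b) - 1 ≤ E F c b + c1 * u (true, F, c, b)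
  hE2 : ∀ F ⊆ U, ∀ c ∈ U, c ∉ F → ∀ x ∈ F, ∀ y ∈ F, x ≠ y →
    Real.exp (pq (puF H u c) F x y) - 1
      ≤ pq (fun G z => D G c z + c4 * u (true, G, c, z)) F x y

section

variable {U : Finset V} {T : V → V → ℝ} {gp gm H N D E : Finset V → V → V → ℝ} {c1 c4 : ℝ}
  {u : IxF V → ℝ} {Λ : Type*} [Fintype Λ]

theorem LbF.nu0 (hb : LbF U T gp gm H N D E c1 c4 u) (c : V) (F : Finset V) (e : V) :
    0 ≤ nuF N u c F e := add_nonneg (hb.N0 _ _ _) (hb.u0 _)

theorem LbF.dq0 (hb : LbF U T gp gm H N D E c1 c4 u) (F : Finset V) (c e : V) :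
    0 ≤ D F c e + c4 * u (true, F, c, e) := add_nonneg (hb.D0 _ _ _) (mul_nonneg hb.c40 (hb.u0 _))

theorem LbF.eq0 (hb : LbF U T gp gm H N D E c1 c4 u) (F : Finset V) (c e : V) :
    0 ≤ E F c e + c1 * u (true, F, c, e) := add_nonneg (hb.E0 _ _ _) (mul_nonneg hb.c10 (hb.u0 _))

theorem LbF.mnu (hb : LbF U T gp gm H N D E c1 c4 u) (c : V) : MF U c (nuF N u c) :=
  fun F G e hG hv => add_le_add (hb.mN c F G e hG hv) (hb.mu false c F G e hG hv)

theorem LbF.mdq (hb : LbF U T gp gm H N D E c1 c4 u) (c : V) :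
    MF U c fun F e => D F c e + c4 * u (true, F, c, e) :=
  fun F G e hG hv => add_le_add (hb.mD c F G e hG hv)
    (mul_le_mul_of_nonneg_left (hb.mu true c F G e hG hv) hb.c40)

/-- target sums of the upper rate -/
theorem LbF.tgtP (hb : LbF U T gp gm H N D E c1 c4 u) {fl : V → ℝ} {fb : V → V → ℝ}
    {A B : V → Finset V → ℝ} {F : Finset V} {e : V} (hF : F ⊆ U) (he : e ∈ U) (heF : e ∉ F)
    (f0 : ∀ c ∈ F, 0 ≤ fl c) (fle : ∀ x ∈ F, ∀ c ∈ F.erase x, fl c ≤ fb x c)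
    (hA : ∀ x ∈ U, ∀ G ⊆ U, x ∉ G → ∑ c ∈ G, fb x c * nuF N u c (G.erase c) x ≤ A x G)
    (hB : ∀ x ∈ U, ∀ G ⊆ U, x ∉ G → ∑ c ∈ G, fb x c *
      (D (G.erase c) c x + c4 * u (true, G.erase c, c, x)) ≤ B x G)
    {w : Λ → V → ℝ} {Gn Gd bp bm : Λ → ℝ} (Gn0 : ∀ m, 0 ≤ Gn m) (Gd0 : ∀ m, 0 ≤ Gd m)
    (kA : ∀ x ∈ F, KF T A F x ≤ ∑ m, Gn m * w m x)
    (kB : ∀ x ∈ F, KF T B F x ≤ ∑ m, Gd m * w m x)
    (rp : ∀ m, ∑ x ∈ F, w m x * gp (F.erase x) e x ≤ bp m)
    (rm : ∀ m, ∑ x ∈ F, w m x * gm (F.erase x) e x ≤ bm m) :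
    ∑ c ∈ F, fl c * RpF T gp gm (puF H u c) (nuF N u c) (F.erase c) e
      ≤ ∑ b ∈ F, T e b * A b (F.erase b) + ∑ m, (Gn m * bm m + Gd m * bp m) := by
  have h := tgtF_p (U := U) (p := puF H u) (n := nuF N u)
    (d := fun c G z => D G c z + c4 * u (true, G, c, z)) hb.T0 hb.Ts hb.Tz hF he heF f0 fle
    hb.gp0 hb.gm0 hb.nu0 (fun c F e => hb.dq0 F c e) (hb.mgp e) (hb.mgm e)
    (fun c hc x hx y hy hxy => hb.hE2 _ ((Finset.erase_subset _ _).trans hF) c (hF hc)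
      (Finset.notMem_erase _ _) x hx y hy hxy) hA hB
  have t1 := comb_le (U := F) (G := Gn) (W := w) (K := KF T A F)
    (g := fun x => gm (F.erase x) e x) (F := bm) Gn0 (fun x _ => hb.gm0 _ _ _) kA rm
  have t2 := comb_le (U := F) (G := Gd) (W := w) (K := KF T B F)
    (g := fun x => gp (F.erase x) e x) (F := bp) Gd0 (fun x _ => hb.gp0 _ _ _) kB rp
  rw [Finset.sum_add_distrib]
  linarith

/-- target sums of the lower rate -/
theorem LbF.tgtN (hb : LbF U T gp gm H N D E c1 c4 u) {fl : V → ℝ} {fb : V → V → ℝ}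
    {A B C : V → Finset V → ℝ} {F : Finset V} {e : V} (hF : F ⊆ U) (he : e ∈ U) (heF : e ∉ F)
    (f0 : ∀ c ∈ F, 0 ≤ fl c) (fle : ∀ x ∈ F, ∀ c ∈ F.erase x, fl c ≤ fb x c)
    (hA : ∀ x ∈ U, ∀ G ⊆ U, x ∉ G → ∑ c ∈ G, fb x c * nuF N u c (G.erase c) x ≤ A x G)
    (hB : ∀ x ∈ U, ∀ G ⊆ U, x ∉ G → ∑ c ∈ G, fb x c *
      (D (G.erase c) c x + c4 * u (true, G.erase c, c, x)) ≤ B x G)
    (hC : ∀ x ∈ U, ∀ G ⊆ U, x ∉ G → ∑ c ∈ G, fb x c *
      (E (G.erase c) c x + c1 * u (true, G.erase c, c, x)) ≤ C x G)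
    {w : Λ → V → ℝ} {Gn Gd bp bm : Λ → ℝ} (Gn0 : ∀ m, 0 ≤ Gn m) (Gd0 : ∀ m, 0 ≤ Gd m)
    (kA : ∀ x ∈ F, KF T A F x ≤ ∑ m, Gn m * w m x)
    (kB : ∀ x ∈ F, KF T B F x ≤ ∑ m, Gd m * w m x)
    (rp : ∀ m, ∑ x ∈ F, w m x * gp (F.erase x) e x ≤ bp m)
    (rm : ∀ m, ∑ x ∈ F, w m x * gm (F.erase x) e x ≤ bm m) :
    ∑ c ∈ F, fl c * RnF T gp gm (puF H u c) (nuF N u c) (F.erase c) e
      ≤ ∑ b ∈ F, T e b * C b (F.erase b) + ∑ m, (Gn m * bp m + Gd m * bm m) := by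
  have h := tgtF_n (U := U) (p := puF H u) (n := nuF N u)
    (d := fun c G z => D G c z + c4 * u (true, G, c, z))
    (ee := fun c G z => E G c z + c1 * u (true, G, c, z)) hb.T0 hb.Ts hb.Tz hF he heF f0 fle
    hb.gp0 hb.gm0 hb.nu0 (fun c F e => hb.dq0 F c e) (fun c F e => hb.eq0 F c e) (hb.mgp e)
    (hb.mgm e)
    (fun c hc b hb' => hb.hE1 _ c b ⟨((Finset.erase_subset _ _).trans
      (Finset.erase_subset _ _)).trans hF, hF hc, hF (Finset.mem_of_mem_erase hb'),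
      fun h => Finset.notMem_erase c F (Finset.mem_of_mem_erase h), Finset.notMem_erase _ _,
      fun h => (Finset.ne_of_mem_erase hb') h.symm⟩)
    (fun c hc x hx y hy hxy => hb.hE2 _ ((Finset.erase_subset _ _).trans hF) c (hF hc)
      (Finset.notMem_erase _ _) x hx y hy hxy) hA hB hC
  have t1 := comb_le (U := F) (G := Gn) (W := w) (K := KF T A F)
    (g := fun x => gp (F.erase x) e x) (F := bp) Gn0 (fun x _ => hb.gp0 _ _ _) kA rp
  have t2 := comb_le (U := F) (G := Gd) (W := w) (K := KF T B F)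
    (g := fun x => gm (F.erase x) e x) (F := bm) Gd0 (fun x _ => hb.gm0 _ _ _) kB rm
  rw [Finset.sum_add_distrib]
  linarith

/-- position sums of the upper rate of the target `c` -/
theorem LbF.posP (hb : LbF U T gp gm H N D E c1 c4 u) {c : V} {wl : V → ℝ} {wb : V → V → ℝ}
    {φp φm : V → Finset V → ℝ} {F : Finset V} (hF : F ⊆ U) (hc : c ∈ U) (hcF : c ∉ F)
    (w0 : ∀ e ∈ F, 0 ≤ wl e) (wle : ∀ x ∈ F, ∀ e ∈ F.erase x, wl e ≤ wb x e)
    (hp : ∀ x ∈ U, ∀ G ⊆ U, x ∉ G → ∑ j ∈ G, wb x j * gp (G.erase j) x j ≤ φp x G)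
    (hm : ∀ x ∈ U, ∀ G ⊆ U, x ∉ G → ∑ j ∈ G, wb x j * gm (G.erase j) x j ≤ φm x G)
    {w : Λ → V → ℝ} {Kn Kd : Λ → ℝ} {An Ad : Λ → ℝ} (Kn0 : ∀ m, 0 ≤ Kn m)
    (Kd0 : ∀ m, 0 ≤ Kd m)
    (kn : ∀ x ∈ F, ∑ e ∈ F.erase x, wl e * T e x + KF T φm F x ≤ ∑ m, Kn m * w m x)
    (kd : ∀ x ∈ F, KF T φp F x ≤ ∑ m, Kd m * w m x)
    (hn : ∀ m, ∑ x ∈ F, w m x * nuF N u c (F.erase x) x ≤ An m)
    (hd : ∀ m, ∑ x ∈ F, w m x * (D (F.erase x) c x + c4 * u (true, F.erase x, c, x)) ≤ Ad m) :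
    ∑ e ∈ F, wl e * RpF T gp gm (puF H u c) (nuF N u c) (F.erase e) e
      ≤ ∑ m, (Kn m * An m + Kd m * Ad m) := by
  have h := posF_p (U := U) (p := puF H u c) (n := nuF N u c)
    (d := fun G z => D G c z + c4 * u (true, G, c, z)) hb.T0 hb.Ts hb.Tz hF hc hcF w0 wle
    hb.gp0 hb.gm0 hb.gps hb.gms (hb.nu0 c) (fun F e => hb.dq0 F c e) (hb.mnu c) (hb.mdq c)
    (fun e _ x hx y hy hxy => hb.hE2 _ ((Finset.erase_subset _ _).trans hF) c hc
      (fun h => hcF (Finset.mem_of_mem_erase h)) x hx y hy hxy) hp hm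
  have t1 := comb_le (U := F) (G := Kn) (W := w)
    (K := fun x => ∑ e ∈ F.erase x, wl e * T e x + KF T φm F x)
    (g := fun x => nuF N u c (F.erase x) x) (F := An) Kn0 (fun x _ => hb.nu0 _ _ _) kn hn
  have t2 := comb_le (U := F) (G := Kd) (W := w) (K := KF T φp F)
    (g := fun x => D (F.erase x) c x + c4 * u (true, F.erase x, c, x)) (F := Ad) Kd0
    (fun x _ => hb.dq0 _ _ _) kd hd
  rw [Finset.sum_add_distrib]
  linarith

end

end Pool.Agent.RZ.RCO
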