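import Pool.Agent.RZ.RCO.Ex6
import Pool.Agent.RZ.RCO.Hl3
import Pool.Agent.RZ.RCO.Ns2

/-! Route P: the constants of a pair in a cell and a class from the exact solutions indexed by the
world (MP_73ccd0_lc). -/

namespace Pool.Agent.RZ.RCO

open Set Finset MeasureTheory Pool.Agent.RZ.RCRSHalf Pool.Agent.RZ.RCG Pool.Agent.RZ.RCG.Ct
open Pool.Agent.RZ.RCN Pool.Agent.RZ.RCN.K

set_option linter.unusedSectionVars false

variable {V : Type*} [Fintype V] [DecidableEq V]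

/-! ### level 1/2 -/

/-- an exact solution of level 1/2 with its basic properties -/
structure G12X (U : Finset V) (τ : ℝ) (T A B : ℝ → V → V → ℝ)
    (gp gp' gm gm' : Finset V → V → V → ℝ → ℝ) : Prop where
  s : S12F U τ T A B gp gp' gm gm'
  zp : ∀ F i j, gp F i j τ = 0
  zm : ∀ F i j, gm F i j τ = 0
  sp : ∀ F i j, ∀ r ∈ Icc 0 τ, gp F i j r = gp F j i r
  sm : ∀ F i j, ∀ r ∈ Icc 0 τ, gm F i j r = gm F j i r
  op : ∀ F i j, ¬VP U F i j → ∀ r ∈ Icc 0 τ, gp F i j r = 0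
  om : ∀ F i j, ¬VP U F i j → ∀ r ∈ Icc 0 τ, gm F i j r = 0
  inv : ∀ C : ℝ → (Bool × Finset V × V × V → ℝ) → Prop, RCM.Inv τ (fR U T A B) C →
        ∀ r ∈ Icc 0 τ, C r fun q => if q.1 = true then gp q.2.1 q.2.2.1 q.2.2.2 r
          else gm q.2.1 q.2.2.1 q.2.2.2 r

section g12

variable {U : Finset V} {τ : ℝ} {T A B : ℝ → V → V → ℝ} {gp gp' gm gm' : Finset V → V → V → ℝ → ℝ}

theorem G12X.of (hD : GDat U τ T A B) (s : S12F U τ T A B gp gp' gm gm')
    (zp : ∀ F i j, gp F i j τ = 0) (zm : ∀ F i j, gm F i j τ = 0)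
    (h : ∀ C : ℝ → (Bool × Finset V × V × V → ℝ) → Prop, RCM.Inv τ (fR U T A B) C →
        ∀ r ∈ Icc 0 τ, C r fun q => if q.1 = true then gp q.2.1 q.2.2.1 q.2.2.2 r
          else gm q.2.1 q.2.2.1 q.2.2.2 r) : G12X U τ T A B gp gp' gm gm' := by
  have k := fun r hr => h _ (inv_fsym hD) r hr
  refine ⟨s, zp, zm, fun F i j r hr => ?_, fun F i j r hr => ?_, fun F i j hv r hr => ?_,
    fun F i j hv r hr => ?_, h⟩
  · simpa using (k r hr).1 true F i j
  · simpa using (k r hr).1 false F i j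
  · simpa using (k r hr).2 true F i j hv
  · simpa using (k r hr).2 false F i j hv

theorem G12X.cgp (h : G12X U τ T A B gp gp' gm gm') (F : Finset V) (i j : V) :
    ContinuousOn (gp F i j) (Icc 0 τ) := by
  by_cases hv : VP U F i j
  · exact fun r hr => (h.s.dp F i j hv r hr).continuousAt.continuousWithinAt
  · exact continuousOn_const.congr fun r hr => h.op F i j hv r hr

theorem G12X.cgm (h : G12X U τ T A B gp gp' gm gm') (F : Finset V) (i j : V) :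
    ContinuousOn (gm F i j) (Icc 0 τ) := by
  by_cases hv : VP U F i j
  · exact fun r hr => (h.s.dm F i j hv r hr).continuousAt.continuousWithinAt
  · exact continuousOn_const.congr fun r hr => h.om F i j hv r hr

end g12

/-! ### level 1 -/

/-- the killing from the end value `Fe` -/
noncomputable def HFF (hb : ℝ → V → V → ℝ) (σ : ℝ) (Fe : Finset V → V → V → ℝ) (F : Finset V)
    (c e : V) (r : ℝ) : ℝ := Fe F c e + RCM.bk (fun ρ => hb ρ c e) σ r

/-- the constant lower function -/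
def NGF (Ge : Finset V → V → V → ℝ) (F : Finset V) (c e : V) (_ : ℝ) : ℝ := Ge F c e

/-- no end values -/
def ZF : Finset V → V → V → ℝ := fun _ _ _ => 0

/-- the upper function -/
noncomputable def pXF (hb : ℝ → V → V → ℝ) (σ : ℝ) (Fe : Finset V → V → V → ℝ)
    (g : IxF V → ℝ → ℝ) (c : V) (F : Finset V) (e : V) (r : ℝ) : ℝ :=
  HFF hb σ Fe F c e r + g (true, F, c, e) r

/-- the lower function -/
noncomputable def nXF (Ge : Finset V → V → V → ℝ) (g : IxF V → ℝ → ℝ) (c : V) (F : Finset V)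
    (e : V) (r : ℝ) : ℝ := Ge F c e + g (false, F, c, e) r

/-- an exact solution of level 1 with the end values `Fe`, `Ge` -/
structure XsF (hb : ℝ → V → V → ℝ) (U : Finset V) (σ : ℝ) (T : ℝ → V → V → ℝ)
    (gp gm : Finset V → V → V → ℝ → ℝ) (Fe Ge : Finset V → V → V → ℝ) (g : IxF V → ℝ → ℝ) :
    Prop where
  s : SgF U σ T gp gm (HFF hb σ Fe) (NGF Ge)
  d : ∀ i, ∀ r ∈ Icc 0 σ, HasDerivAt (g i) (-hR U T gp gm (HFF hb σ Fe) (NGF Ge) r
    (fun j => g j r) i) r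
  z : ∀ i, g i σ = 0
  b : ∀ r ∈ Icc 0 σ, B0F U fun i => g i r
  inv : ∀ C : ℝ → (IxF V → ℝ) → Prop, RCM.Inv σ (hR U T gp gm (HFF hb σ Fe) (NGF Ge)) C →
        ∀ r ∈ Icc 0 σ, C r fun i => g i r

section lev1

variable {hb : ℝ → V → V → ℝ} {U : Finset V} {σ τ : ℝ} {T A B : ℝ → V → V → ℝ}
  {gp gp' gm gm' : Finset V → V → V → ℝ → ℝ} {Fe Ge : Finset V → V → V → ℝ} {g : IxF V → ℝ → ℝ}

theorem HFF_deriv (σ0 : 0 ≤ σ) (bc : ∀ u v, ContinuousOn (fun r => hb r u v) (Icc 0 σ))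
    (F : Finset V) (c e : V) {r : ℝ} (hr : r ∈ Icc 0 σ) :
    HasDerivAt (HFF hb σ Fe F c e) (-hb r c e) r :=
  (RCM.bk_deriv σ0 (bc c e) hr).const_add _

theorem HFF_ge (b0 : ∀ u v, ∀ r ∈ Icc 0 σ, 0 ≤ hb r u v) (F : Finset V) (c e : V) {r : ℝ}
    (hr : r ∈ Icc 0 σ) : Fe F c e ≤ HFF hb σ Fe F c e r := by
  have := RCM.bk_nonneg hr fun z hz => b0 c e z hz
  unfold HFF
  linarith

theorem HFF_end (F : Finset V) (c e : V) : HFF hb σ Fe F c e σ = Fe F c e := by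
  unfold HFF
  rw [RCM.bk_self, add_zero]

/-- the environment of the joint system -/
theorem sgF_of (σ0 : 0 ≤ σ) (στ : σ ≤ τ)
    (bc : ∀ u v, ContinuousOn (fun r => hb r u v) (Icc 0 τ))
    (b0 : ∀ u v, ∀ r ∈ Icc 0 τ, 0 ≤ hb r u v)
    (T0 : ∀ u v, ∀ r ∈ Icc 0 τ, 0 ≤ T r u v)
    (Tc : ∀ u v, ContinuousOn (fun r => T r u v) (Icc 0 τ))
    (hg : G12X U τ T A B gp gp' gm gm')
    (F0 : ∀ F d e, 0 ≤ Fe F d e) (G0 : ∀ F d e, 0 ≤ Ge F d e)
    (mF : ∀ d, MF U d fun F e => Fe F d e) (mG : ∀ d, MF U d fun F e => Ge F d e) :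
    SgF U σ T gp gm (HFF hb σ Fe) (NGF Ge) := by
  have m : ∀ {r : ℝ}, r ∈ Icc 0 σ → r ∈ Icc 0 τ := fun hr => ⟨hr.1, hr.2.trans στ⟩
  have sub : Icc 0 σ ⊆ Icc 0 τ := Icc_subset_Icc_right στ
  have b0' : ∀ u v, ∀ r ∈ Icc 0 σ, 0 ≤ hb r u v := fun u v r hr => b0 u v r (m hr)
  exact {
    T0 := fun r hr x y => T0 x y r (m hr)
    H0 := fun F c e r hr => (F0 F c e).trans (HFF_ge b0' F c e hr)
    N0 := fun F c e _ _ => G0 F c e
    gp0 := fun F x y r hr => hg.s.gp0 F x y r (m hr)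
    gm0 := fun F x y r hr => hg.s.gm0 F x y r (m hr)
    cT := fun i j => (Tc i j).mono sub
    cH := fun F i j _ hr =>
      (HFF_deriv σ0 (fun u v => (bc u v).mono sub) F i j hr).continuousAt.continuousWithinAt
    cN := fun _ _ _ => continuousOn_const
    cgp := fun F i j => (hg.cgp F i j).mono sub
    cgm := fun F i j => (hg.cgm F i j).mono sub
    mH := fun c r _ F G e hG hv => add_le_add (mF c F G e hG hv) le_rfl
    mN := fun c _ _ => mG c
    mgp := fun i r hr F G e hG hv => hg.s.mp F G hG i e hv r (m hr)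
    mgm := fun i r hr F G e hG hv => hg.s.mm F G hG i e hv r (m hr) }

theorem XsF.svs (h : XsF hb U σ T gp gm Fe Ge g) (σ0 : 0 ≤ σ)
    (bc : ∀ u v, ContinuousOn (fun r => hb r u v) (Icc 0 σ)) {c : V} (hc : c ∈ U) :
    SVF (U.erase c) σ (fun r e => hb r c e) T gp gm (pXF hb σ Fe g c)
      (fun F e r => -hb r c e
        + -hR U T gp gm (HFF hb σ Fe) (NGF Ge) r (fun j => g j r) (true, F, c, e))
      (nXF Ge g c)
      (fun F e r => 0
        + -hR U T gp gm (HFF hb σ Fe) (NGF Ge) r (fun j => g j r) (false, F, c, e)) :=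
  svf_of h.s h.d h.b hc (H' := fun _ e r => -hb r c e) (N' := fun _ _ _ => 0)
    (fun F e _ r hr => HFF_deriv σ0 bc F c e hr) (fun _ _ _ r _ => by rw [neg_neg])
    (fun _ _ _ r _ => hasDerivAt_const _ _) fun _ _ _ r _ => le_rfl

theorem XsF.g0 (h : XsF hb U σ T gp gm Fe Ge g) (i : IxF V) {r : ℝ} (hr : r ∈ Icc 0 σ) :
    0 ≤ g i r := (h.b r hr).1 i

end lev1

/-! ### the solutions of a world -/

/-- all solutions of a world in a cell and a class: `g1` the first targets, `g2` the second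
targets, `g3` the released second targets -/
structure SolF (Z : Hzd) (x : V → V → ℝ) (P : V → Prop) [DecidablePred P] (A D : Finset V)
    (α τ σ ρ : ℝ) (T Am Bm : ℝ → V → V → ℝ) (gp gp' gm gm' : Finset V → V → V → ℝ → ℝ)
    (g1 g2 g3 : IxF V → ℝ → ℝ) : Prop where
  τ1 : τ ≤ 1
  σ0 : 0 ≤ σ
  στ : σ ≤ τ
  b0 : ∀ u v, ∀ r ∈ Icc 0 τ, 0 ≤ Z.hh x P r u v
  bc : ∀ u v, ContinuousOn (fun r => Z.hh x P r u v) (Icc 0 τ)
  T0 : ∀ u v, ∀ r ∈ Icc 0 τ, 0 ≤ T r u v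
  Tc : ∀ u v, ContinuousOn (fun r => T r u v) (Icc 0 τ)
  A0 : ∀ u ∈ Dᶜ, ∀ v ∈ Dᶜ, ∀ r ∈ Icc 0 τ, 0 ≤ Am r u v
  B0 : ∀ u ∈ Dᶜ, ∀ v ∈ Dᶜ, ∀ r ∈ Icc 0 τ, 0 ≤ Bm r u v
  w : W0cq Z x P A D α τ σ T Am Bm
  g : G12X Dᶜ τ T Am Bm gp gp' gm gm'
  x1 : XsF (Z.hh x P) Dᶜ τ T gp gm ZF ZF g1
  x2 : XsF (Z.hh x P) Dᶜ σ T gp gm ZF ZF g2
  x3 : XsF (Z.hh x P) Dᶜ σ T gp gm (fun X d e => gm X d e ρ) (fun X d e => gp X d e ρ) g3

section sol

variable {Z : Hzd} {x : V → V → ℝ} {P : V → Prop} [DecidablePred P]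
variable {A D : Finset V} {α τ σ ρ : ℝ} {T Am Bm : ℝ → V → V → ℝ}
    {gp gp' gm gm' : Finset V → V → V → ℝ → ℝ} {g1 g2 g3 : IxF V → ℝ → ℝ}

/-- the end values of the released functions are admissible -/
theorem rel_ok {U : Finset V} (hg : G12X U τ T Am Bm gp gp' gm gm') (hρ : ρ ∈ Icc 0 τ) :
    (∀ F d e, 0 ≤ gm F d e ρ) ∧ (∀ F d e, 0 ≤ gp F d e ρ) ∧
      (∀ d, MF U d fun F e => gm F d e ρ) ∧ ∀ d, MF U d fun F e => gp F d e ρ :=
  ⟨fun F d e => hg.s.gm0 F d e ρ hρ, fun F d e => hg.s.gp0 F d e ρ hρ,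
    fun d F G e hG hv => hg.s.mm F G hG d e hv ρ hρ,
    fun d F G e hG hv => hg.s.mp F G hG d e hv ρ hρ⟩

end sol

/-! ### sums of the parts -/

section sums

variable {U : Finset V} {τ σ ρ : ℝ} {hb T : ℝ → V → V → ℝ}
    {gp gm : Finset V → V → V → ℝ → ℝ} {g1 g2 g3 : IxF V → ℝ → ℝ} {Ge : Finset V → V → V → ℝ}
    {g : IxF V → ℝ → ℝ} {f : V → ℝ} {Q GB : ℝ}

theorem F0_c {c d : V} : F0 U c d = (U.erase d).erase c := by
  unfold F0
  rw [Finset.erase_right_comm]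

theorem F0_d {c d : V} : F0 U c d = (U.erase c).erase d := rfl

/-- target sums of the lower function at the position `d` -/
theorem sum_n_tgt {d : V} {r : ℝ}
    (hG : ∑ c ∈ U.erase d, f c * Ge ((U.erase d).erase c) c d ≤ GB)
    (hQ : ∑ c ∈ U.erase d, f c * g (false, (U.erase d).erase c, c, d) r ≤ Q) :
    ∑ c ∈ U.erase d, f c * nXF Ge g c (F0 U c d) d r ≤ GB + Q := by
  refine le_trans (le_of_eq ?_) (add_le_add hG hQ)
  rw [← Finset.sum_add_distrib]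
  refine Finset.sum_congr rfl fun c _ => ?_
  rw [F0_c]
  unfold nXF
  ring

/-- position sums of the lower function of the target `c` -/
theorem sum_n_pos {c : V} {r : ℝ}
    (hG : ∑ d ∈ U.erase c, f d * Ge ((U.erase c).erase d) c d ≤ GB)
    (hQ : ∑ d ∈ U.erase c, f d * g (false, (U.erase c).erase d, c, d) r ≤ Q) :
    ∑ d ∈ U.erase c, f d * nXF Ge g c (F0 U c d) d r ≤ GB + Q := by
  refine le_trans (le_of_eq ?_) (add_le_add hG hQ)
  rw [← Finset.sum_add_distrib]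
  refine Finset.sum_congr rfl fun d _ => ?_
  rw [F0_d]
  unfold nXF
  ring

/-- target sums of the lower function of the second target `c` at the position `d`, as a sum over
`c`; the world without both -/
theorem sum_m_tgt {d : V} {r : ℝ}
    (hG : ∑ c ∈ U.erase d, f c * Ge ((U.erase d).erase c) c d ≤ GB)
    (hQ : ∑ c ∈ U.erase d, f c * g (false, (U.erase d).erase c, c, d) r ≤ Q) :
    ∑ c ∈ U.erase d, f c * nXF Ge g c (F0 U d c) d r ≤ GB + Q := by
  refine le_trans (le_of_eq ?_) (add_le_add hG hQ)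
  rw [← Finset.sum_add_distrib]
  refine Finset.sum_congr rfl fun c _ => ?_
  rw [F0_d]
  unfold nXF
  ring

/-- position sums of the lower function of the second target `d` -/
theorem sum_m_pos {d : V} {r : ℝ}
    (hG : ∑ c ∈ U.erase d, f c * Ge ((U.erase d).erase c) d c ≤ GB)
    (hQ : ∑ c ∈ U.erase d, f c * g (false, (U.erase d).erase c, d, c) r ≤ Q) :
    ∑ c ∈ U.erase d, f c * nXF Ge g d (F0 U c d) c r ≤ GB + Q := by
  refine le_trans (le_of_eq ?_) (add_le_add hG hQ)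
  rw [← Finset.sum_add_distrib]
  refine Finset.sum_congr rfl fun c _ => ?_
  rw [F0_c]
  unfold nXF
  ring

/-- sums of the level 1/2 over the first target -/
theorem sum_g_c {d : V} {r : ℝ} (hs : ∀ F i j, gm F i j r = gm F j i r)
    (h : ∑ c ∈ U.erase d, f c * gm ((U.erase d).erase c) d c r ≤ Q) :
    ∑ c ∈ U.erase d, f c * gm (F0 U c d) c d r ≤ Q := by
  refine le_trans (le_of_eq ?_) h
  refine Finset.sum_congr rfl fun c _ => ?_
  rw [F0_c, hs]

end sums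

end Pool.Agent.RZ.RCO
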