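import Pool.Agent.RZ.RCM.VCond
import Pool.Agent.RZ.RCM.VGen
import Pool.Agent.RZ.RCO.Ex2
import Pool.Agent.RZ.RCO.Ns1

/-! The two phases of the closures with functions indexed by the world (MP_73ccd0_lc). -/

namespace Pool.Agent.RZ.RCO

open Set Finset Pool.Agent.RZ.RCRSHalf Pool.Agent.RZ.RCG Pool.Agent.RZ.RCM

set_option linter.unusedSectionVars false

variable {V : Type*} [Fintype V] [DecidableEq V]
variable {h : ℝ → V → V → ℝ} {H : V → V → ℝ → ℝ}

set_option maxHeartbeats 4000000 in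
/-- the core of the closures, functions indexed by the world; `F0` is the world without the
targets -/
theorem coreVF (hh : Haz h H) {c d : V} {D : Finset V} (hca : c ∉ D) (hda : d ∉ D)
    (hcd : c ≠ d) {s : ℝ} (hs : s ∈ Icc (0 : ℝ) 1)
    {P P' N N' : V → ℝ → ℝ} {U : Finset V} (hU : U = Dᶜ)
    (hL : L0q h (fun r v => ∑ w ∈ D, h r w v) U s P P' N N')
    {gp gp' gm gm' : Finset V → V → V → ℝ → ℝ} (hG : G12F h U s (Wf P) (Tf N) gp gp' gm gm')
    {pc pc' nc nc' pd pd' nd nd' : Finset V → V → ℝ → ℝ} {ptc ptc' ptd ptd' : ℝ → ℝ}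
    {k k' : Finset V → ℝ → ℝ}
    (hGc : GVF h (U.erase c) c s (Wf P) gp gm pc pc' nc nc')
    (hGd : GVF h (U.erase d) d s (Wf P) gp gm pd pd' nd nd')
    (hIc : Ipt h (U.erase c) c d s (Wf P) ptc ptc')
    (hId : Ipt h (U.erase d) d c s (Wf P) ptd ptd')
    (hGk : GkF h ((U.erase c).erase d) s (Wf P) pc nc pd nd k k')
    {F0 : Finset V} (hF0 : F0 = (({c, d} ∪ D : Finset V))ᶜ)
    {ψ0 ψc ψd ψ4 : Finset V → ℝ} (p0 : ∀ F, 0 < ψ0 F) (pc0 : ∀ F, 0 < ψc F) (pd0 : ∀ F, 0 < ψd F)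
    (p4 : ∀ F, 0 < ψ4 F)
    (e0 : Inf0 (fun F _ => ψ0 F) U P N s)
    (e12 : ∀ F ⊆ U, ∀ i ∈ U, ∀ j ∈ U, i ∉ F → j ∉ F → i ≠ j →
      B12 (fun F _ => ψ0 F) (gp F) (gm F) i j F s)
    (ec : ∀ F ⊆ U.erase c, ∀ e ∈ U.erase c, e ∉ F →
      Bv (fun F _ => ψ0 F) (fun F _ => ψc F) (pc F) (nc F) e F s)
    (ed : ∀ F ⊆ U.erase d, ∀ e ∈ U.erase d, e ∉ F →
      Bv (fun F _ => ψ0 F) (fun F _ => ψd F) (pd F) (nd F) e F s)
    (ic : ∀ F ⊆ U.erase c, d ∉ F →
      ψc (insert d F) * ψ0 F ≤ (Real.exp (nc F d s) - ptc s) * (ψc F * ψ0 (insert d F)))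
    (id : ∀ F ⊆ U.erase d, c ∉ F →
      ψd (insert c F) * ψ0 F ≤ (Real.exp (nd F c s) - ptd s) * (ψd F * ψ0 (insert c F)))
    (e2 : ∀ F ⊆ (U.erase c).erase d, ψc F * ψd F ≤ Real.exp (k F s) * (ψ4 F * ψ0 F)) :
    ex (lw h ∅ s) (insert d D) ψd * ex (lw h ∅ s) (insert c D) ψc
      ≤ (Real.exp (k F0 0 + gm F0 c d 0 + H c d s) *
          ((Real.exp (nc F0 d 0) - ptc 0) * (Real.exp (nd F0 c 0) - ptd 0))) *
        (ex (lw h ∅ s) ({c, d} ∪ D : Finset V) ψ4 * ex (lw h ∅ s) D ψ0) := by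
  obtain ⟨Φ, hΦ, hΦs⟩ := exists_wd hh D hs ψ0 p0
  obtain ⟨Ψc, hΨc, hΨcs⟩ := exists_wd hh (insert c D) hs ψc pc0
  obtain ⟨Ψd, hΨd, hΨds⟩ := exists_wd hh (insert d D) hs ψd pd0
  obtain ⟨Θ, hΘ, hΘs⟩ := exists_wd hh ({c, d} ∪ D : Finset V) hs ψ4 p4
  have hcU : c ∈ U := by rw [hU, Finset.mem_compl]; exact hca
  have hdU : d ∈ U := by rw [hU, Finset.mem_compl]; exact hda
  have e4 : ({c, d} ∪ D : Finset V) = insert c (insert d D) := by
    ext z; simp only [Finset.mem_union, Finset.mem_insert, Finset.mem_singleton]; tauto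
  have hcda : c ∉ insert d D := by
    rw [Finset.mem_insert]; rintro (e | e)
    · exact hcd e
    · exact hca e
  have hΨc' : Wd h (fun r v => (∑ w ∈ D, h r w v) + h r c v) s Ψc :=
    hΨc.congr fun r v => by rw [Finset.sum_insert hca]; ring
  have hΨd' : Wd h (fun r v => (∑ w ∈ D, h r w v) + h r d v) s Ψd :=
    hΨd.congr fun r v => by rw [Finset.sum_insert hda]; ring
  have hΘ' : Wd h (fun r v => (∑ w ∈ D, h r w v) + h r c v + h r d v) s Θ :=
    hΘ.congr fun r v => by rw [e4, Finset.sum_insert hcda, Finset.sum_insert hda]; ring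
  -- level 0
  have i0 : ∀ r ∈ Icc 0 s, Inf0 Φ U P N r := hL.inf hh.symm hh.diag hh.nonneg
    (fun r v => Finset.sum_nonneg fun w _ => hh.nonneg r w v) hΦ
    (fun _ G hG x hx => by rw [hΦs, hΦs]; exact e0 G hG x hx)
  have l0 : Lv0 U s Φ (Wf P) (Tf N) := Lv0.of_inf hL.P0 hL.N1 i0
  have l12 := lev12F hh.symm hh.diag hh.nonneg hΦ l0 hG (fun _ F hF i hi j hj hiF hjF hij => by
    have := e12 F hF i hi j hj hiF hjF hij
    unfold B12 at this ⊢
    simp only [hΦs]; exact this)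
  have subc : U.erase c ⊆ U := Finset.erase_subset _ _
  have subd : U.erase d ⊆ U := Finset.erase_subset _ _
  have l12c : L12 Φ (U.erase c) s gp gm := fun F hF i hi j hj =>
    l12 F (hF.trans subc) i (subc hi) j (subc hj)
  have l12d : L12 Φ (U.erase d) s gp gm := fun F hF i hi j hj =>
    l12 F (hF.trans subd) i (subd hi) j (subd hj)
  have l1c := levVF hh.symm hh.diag hh.nonneg hΦ hΨc' (l0.sub subc) hG.gp0 hG.gm0 l12c hGc
    (fun _ F hF e he heF => by
      have := ec F hF e he heF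
      unfold Bv at this ⊢
      simp only [hΦs, hΨcs]; exact this)
  have l1d := levVF hh.symm hh.diag hh.nonneg hΦ hΨd' (l0.sub subd) hG.gp0 hG.gm0 l12d hGd
    (fun _ F hF e he heF => by
      have := ed F hF e he heF
      unfold Bv at this ⊢
      simp only [hΦs, hΨds]; exact this)
  have lic := insVF hh.symm hh.diag hh.nonneg hΦ hΨc' (l0.sub subc) hG.gp0 hG.gm0 l12c hGc l1c
    (e := d) (Finset.mem_erase.2 ⟨fun h => hcd h.symm, hdU⟩) hIc.d hIc.p0 hIc.p1 hIc.o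
    (fun _ F hF hdF => by simp only [hΦs, hΨcs]; exact ic F hF hdF)
  have lid := insVF hh.symm hh.diag hh.nonneg hΦ hΨd' (l0.sub subd) hG.gp0 hG.gm0 l12d hGd l1d
    (e := c) (Finset.mem_erase.2 ⟨hcd, hcU⟩) hId.d hId.p0 hId.p1 hId.o
    (fun _ F hF hcF => by simp only [hΦs, hΨds]; exact id F hF hcF)
  have sub3 : (U.erase c).erase d ⊆ U.erase c := Finset.erase_subset _ _
  have sub4 : (U.erase c).erase d ⊆ U.erase d := by
    rw [Finset.erase_right_comm]; exact Finset.erase_subset _ _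
  have key := lev2VF hh.diag hh.nonneg hΦ hΨc' hΨd' hΘ' (l0.sub (sub3.trans subc))
    hGc.p0 hGc.n0 hGd.p0 hGd.n0
    (fun F hF e he => l1c F (hF.trans sub3) e (sub3 he))
    (fun F hF e he => l1d F (hF.trans sub4) e (sub4 he)) hGk
    (fun _ F hF => by simp only [hΨcs, hΨds, hΘs, hΦs]; exact e2 F hF)
  -- the set
  have hF0U : F0 ⊆ U := by
    rw [hF0, hU]; exact Finset.compl_subset_compl.2 Finset.subset_union_right
  have hcF0 : c ∉ F0 := by
    rw [hF0, Finset.mem_compl, not_not]; simp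
  have hdF0 : d ∉ F0 := by
    rw [hF0, Finset.mem_compl, not_not]; simp
  have hF0c : F0 ⊆ U.erase c := fun z hz => Finset.mem_erase.2 ⟨fun e => hcF0 (e ▸ hz), hF0U hz⟩
  have hF0d : F0 ⊆ U.erase d := fun z hz => Finset.mem_erase.2 ⟨fun e => hdF0 (e ▸ hz), hF0U hz⟩
  have hF0cd : F0 ⊆ (U.erase c).erase d := fun z hz =>
    Finset.mem_erase.2 ⟨fun e => hdF0 (e ▸ hz), hF0c hz⟩
  have z0 : (0 : ℝ) ∈ Icc 0 s := ⟨le_rfl, hs.1⟩
  have k0 := key F0 hF0cd 0 z0
  have k1 := lic F0 hF0c hdF0 0 z0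
  have k2 := lid F0 hF0d hcF0 0 z0
  have k3 := (l12 F0 hF0U c hcU d hdU hcF0 hdF0 hcd 0 z0).1
  have sub : ∀ X : Finset V, X ⊆ (∅ : Finset V)ᶜ := fun X => by
    rw [Finset.compl_empty]; exact Finset.subset_univ X
  have d0 := duality2 hh (hh.lw ∅) (sub D) hs hΦ.ev
  have dc := duality2 hh (hh.lw ∅) (sub (insert c D)) hs hΨc.ev
  have dd := duality2 hh (hh.lw ∅) (sub (insert d D)) hs hΨd.ev
  have d4 := duality2 hh (hh.lw ∅) (sub ({c, d} ∪ D : Finset V)) hs hΘ.ev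
  simp only [hΦs, hΨcs, hΨds, hΘs] at d0 dc dd d4
  have s0 : (∅ : Finset V)ᶜ \ D = insert c (insert d F0) := by
    ext z
    simp only [hF0, Finset.mem_sdiff, Finset.mem_compl, Finset.notMem_empty, not_false_eq_true,
      true_and, Finset.mem_insert, Finset.mem_union, Finset.mem_singleton]
    constructor
    · intro hz; by_cases h1 : z = c
      · exact Or.inl h1
      · by_cases h2 : z = d
        · exact Or.inr (Or.inl h2)
        · exact Or.inr (Or.inr (by tauto))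
    · rintro (rfl | rfl | hz)
      · exact hca
      · exact hda
      · tauto
  have sc : (∅ : Finset V)ᶜ \ (insert c D) = insert d F0 := by
    ext z
    simp only [hF0, Finset.mem_sdiff, Finset.mem_compl, Finset.notMem_empty, not_false_eq_true,
      true_and, Finset.mem_insert, Finset.mem_union, Finset.mem_singleton]
    constructor
    · intro hz
      by_cases h2 : z = d
      · exact Or.inl h2
      · exact Or.inr (by tauto)
    · rintro (rfl | hz)
      · rintro (e | e)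
        · exact hcd e.symm
        · exact hda e
      · tauto
  have sd : (∅ : Finset V)ᶜ \ (insert d D) = insert c F0 := by
    ext z
    simp only [hF0, Finset.mem_sdiff, Finset.mem_compl, Finset.notMem_empty, not_false_eq_true,
      true_and, Finset.mem_insert, Finset.mem_union, Finset.mem_singleton]
    constructor
    · intro hz
      by_cases h2 : z = c
      · exact Or.inl h2
      · exact Or.inr (by tauto)
    · rintro (rfl | hz)
      · rintro (e | e)
        · exact hcd e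
        · exact hca e
      · tauto
  have s4 : (∅ : Finset V)ᶜ \ ({c, d} ∪ D : Finset V) = F0 := by
    rw [Finset.compl_empty, hF0, Finset.compl_eq_univ_sdiff]
  rw [d0, dc, dd, d4, s0, sc, sd, s4]
  have hHW := HW_fourD hh hca hda hcd s
  set Qc : ℝ := Real.exp (nc F0 d 0) - ptc 0 with hQc
  set Qd : ℝ := Real.exp (nd F0 c 0) - ptd 0 with hQd
  have fpos := hΦ.pos F0 0 z0
  have Qc0 : 0 < Qc := by
    have := Real.one_le_exp (hGc.n0 F0 d 0 z0)
    linarith [hIc.p1 0 z0]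
  have Qd0 : 0 < Qd := by
    have := Real.one_le_exp (hGd.n0 F0 c 0 z0)
    linarith [hId.p1 0 z0]
  have main : Ψc (insert d F0) 0 * Ψd (insert c F0) 0
      ≤ (Real.exp (k F0 0 + gm F0 c d 0) * (Qc * Qd)) * (Θ F0 0 * Φ (insert c (insert d F0)) 0) := by
    have m1 : (Ψc (insert d F0) 0 * Φ F0 0) * (Ψd (insert c F0) 0 * Φ F0 0)
        ≤ (Qc * (Ψc F0 0 * Φ (insert d F0) 0)) * (Qd * (Ψd F0 0 * Φ (insert c F0) 0)) :=
      mul_le_mul k1 k2 (mul_pos (hΨd.pos _ 0 z0) fpos).le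
        ((mul_pos (hΨc.pos _ 0 z0) fpos).le.trans k1)
    have m2 : (Ψc F0 0 * Ψd F0 0) * (Φ (insert d F0) 0 * Φ (insert c F0) 0)
        ≤ (Real.exp (k F0 0) * (Θ F0 0 * Φ F0 0))
          * (Real.exp (gm F0 c d 0) * (Φ F0 0 * Φ (insert c (insert d F0)) 0)) :=
      mul_le_mul k0 k3 (mul_pos (hΦ.pos _ 0 z0) (hΦ.pos _ 0 z0)).le
        ((mul_pos (hΨc.pos _ 0 z0) (hΨd.pos _ 0 z0)).le.trans k0)
    have m3 := mul_le_mul_of_nonneg_left m2 (mul_pos Qc0 Qd0).le
    have ff : 0 < Φ F0 0 * Φ F0 0 := mul_pos fpos fpos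
    refine le_of_mul_le_mul_left ?_ ff
    rw [Real.exp_add]
    calc Φ F0 0 * Φ F0 0 * (Ψc (insert d F0) 0 * Ψd (insert c F0) 0)
        = (Ψc (insert d F0) 0 * Φ F0 0) * (Ψd (insert c F0) 0 * Φ F0 0) := by ring
      _ ≤ _ := m1
      _ = (Qc * Qd) * ((Ψc F0 0 * Ψd F0 0) * (Φ (insert d F0) 0 * Φ (insert c F0) 0)) := by ring
      _ ≤ _ := m3
      _ = _ := by ring
  have x1 : Real.exp (-HW H (insert d D) s) * Ψd (insert c F0) 0
      * (Real.exp (-HW H (insert c D) s) * Ψc (insert d F0) 0)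
      = Real.exp (-HW H (insert d D) s - HW H (insert c D) s)
        * (Ψc (insert d F0) 0 * Ψd (insert c F0) 0) := by
    rw [sub_eq_add_neg, Real.exp_add]; ring
  have x2 : (Real.exp (k F0 0 + gm F0 c d 0 + H c d s) * (Qc * Qd))
      * (Real.exp (-HW H ({c, d} ∪ D : Finset V) s) * Θ F0 0
      * (Real.exp (-HW H D s) * Φ (insert c (insert d F0)) 0))
      = Real.exp (-HW H (insert d D) s - HW H (insert c D) s)
        * ((Real.exp (k F0 0 + gm F0 c d 0) * (Qc * Qd)) * (Θ F0 0 * Φ (insert c (insert d F0)) 0)) := by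
    have : Real.exp (k F0 0 + gm F0 c d 0 + H c d s) * Real.exp (-HW H ({c, d} ∪ D : Finset V) s)
        * Real.exp (-HW H D s)
        = Real.exp (-HW H (insert d D) s - HW H (insert c D) s)
          * Real.exp (k F0 0 + gm F0 c d 0) := by
      rw [← Real.exp_add, ← Real.exp_add, ← Real.exp_add]
      congr 1
      linarith
    generalize Real.exp (k F0 0 + gm F0 c d 0 + H c d s) = A1 at this ⊢
    generalize Real.exp (-HW H ({c, d} ∪ D : Finset V) s) = A2 at this ⊢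
    generalize Real.exp (-HW H D s) = A3 at this ⊢
    generalize Real.exp (-HW H (insert d D) s - HW H (insert c D) s) = A4 at this ⊢
    generalize Real.exp (k F0 0 + gm F0 c d 0) = A5 at this ⊢
    generalize Θ F0 0 = A6
    generalize Φ (insert c (insert d F0)) 0 = A7
    calc (A1 * (Qc * Qd)) * (A2 * A6 * (A3 * A7)) = (A1 * A2 * A3) * ((Qc * Qd) * (A6 * A7)) := by
          ring
      _ = (A4 * A5) * ((Qc * Qd) * (A6 * A7)) := by rw [this]
      _ = A4 * ((A5 * (Qc * Qd)) * (A6 * A7)) := by ring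
  rw [x1, x2]
  exact mul_le_mul_of_nonneg_left main (Real.exp_pos _).le


end Pool.Agent.RZ.RCO
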