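import Pool.Agent.RZ.RCO.Ex3

/-! The closures (C) and (Ct) with functions indexed by the world (MP_73ccd0_lc). -/

namespace Pool.Agent.RZ.RCO

open Set Finset Pool.Agent.RZ.RCRSHalf Pool.Agent.RZ.RCG Pool.Agent.RZ.RCM

set_option linter.unusedSectionVars false

variable {V : Type*} [Fintype V] [DecidableEq V]
variable {h : ℝ → V → V → ℝ} {H : V → V → ℝ → ℝ}
variable {c d : V} {A D : Finset V} {s t : ℝ} {U : Finset V} {Pa Pa' Na Na' P P' N N' : V → ℝ → ℝ}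
  {gpa gpa' gma gma' gp gp' gm gm' : Finset V → V → V → ℝ → ℝ}
  {pca pca' nca nca' pc pc' nc nc' pd pd' nd nd' : Finset V → V → ℝ → ℝ}
  {ptca ptca' ptc ptc' ptd ptd' : ℝ → ℝ} {k k' : Finset V → ℝ → ℝ} {Ra Rac : Finset V → ℝ → ℝ}

/-- the bounds in the world with the targets `A` on `[0, t]` -/
theorem worldAVF (hh : Haz h H) (hcd : c ≠ d) (hdU : d ∈ U) (ht : 0 ≤ t)
    (hRa : Wd h (fun r v => ∑ w ∈ A, h r w v) t Ra) (a1 : ∀ F, Ra F t = 1)
    (hRac : Wd h (fun r v => ∑ w ∈ A, h r w v + h r c v) t Rac) (c1 : ∀ F, Rac F t = 1)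
    (hL : L0q h (fun r v => ∑ w ∈ A, h r w v) U t Pa Pa' Na Na') (hNt : ∀ e ∈ U, 0 ≤ Na e t)
    (hG : G12F h U t (Wf Pa) (Tf Na) gpa gpa' gma gma')
    (hGc : GVF h (U.erase c) c t (Wf Pa) gpa gma pca pca' nca nca')
    (hIc : Ipt h (U.erase c) c d t (Wf Pa) ptca ptca') (ptc0 : ptca t = 0) :
    (∀ r ∈ Icc 0 t, Inf0 Ra U Pa Na r) ∧ L12 Ra U t gpa gma ∧
    (∀ F ⊆ U.erase c, ∀ e ∈ U.erase c, e ∉ F → ∀ r ∈ Icc 0 t,
      Bv Ra Rac (pca F) (nca F) e F r) ∧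
    (∀ F ⊆ U.erase c, d ∉ F → ∀ r ∈ Icc 0 t,
      Rac (insert d F) r * Ra F r
        ≤ (Real.exp (nca F d r) - ptca r) * (Rac F r * Ra (insert d F) r)) := by
  have tt : t ∈ Icc 0 t := ⟨ht, le_rfl⟩
  have i0 : ∀ r ∈ Icc 0 t, Inf0 Ra U Pa Na r := hL.inf hh.symm hh.diag hh.nonneg
    (fun r v => Finset.sum_nonneg fun w _ => hh.nonneg r w v) hRa
    (fun _ G hG x hx => by
      rw [a1, a1]
      exact ⟨by linarith [hL.P0 x t tt], by linarith [hNt x (hG hx)]⟩)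
  have l0 : Lv0 U t Ra (Wf Pa) (Tf Na) := Lv0.of_inf hL.P0 hL.N1 i0
  have l12 := lev12F hh.symm hh.diag hh.nonneg hRa l0 hG (fun _ F hF i hi j hj hiF hjF hij => by
    unfold B12
    simp only [a1]
    have h1 := Real.one_le_exp (hG.gm0 F i j t tt)
    have h2 := Real.one_le_exp (hG.gp0 F i j t tt)
    constructor <;> linarith)
  have subc : U.erase c ⊆ U := Finset.erase_subset _ _
  have l12c : L12 Ra (U.erase c) t gpa gma := fun F hF i hi j hj =>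
    l12 F (hF.trans subc) i (subc hi) j (subc hj)
  have l1 := levVF hh.symm hh.diag hh.nonneg hRa hRac (l0.sub subc) hG.gp0 hG.gm0 l12c hGc
    (fun _ F hF e he heF => by
      unfold Bv
      simp only [a1, c1]
      have h1 := Real.one_le_exp (hGc.n0 F e t tt)
      have h2 := Real.one_le_exp (hGc.p0 F e t tt)
      constructor <;> linarith)
  refine ⟨i0, l12, l1, insVF hh.symm hh.diag hh.nonneg hRa hRac (l0.sub subc) hG.gp0 hG.gm0 l12c
    hGc l1 (e := d) (Finset.mem_erase.2 ⟨fun h => hcd h.symm, hdU⟩) hIc.d hIc.p0 hIc.p1 hIc.o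
    (fun _ F hF hdF => ?_)⟩
  simp only [a1, c1, ptc0]
  have h1 := Real.one_le_exp (hGc.n0 F d t tt)
  linarith

/-- hypotheses of the two-phase closures -/
structure Ph2F (h : ℝ → V → V → ℝ) (A D : Finset V) (c d : V) (s t : ℝ) (U : Finset V)
    (Pa Pa' Na Na' : V → ℝ → ℝ) (gpa gpa' gma gma' : Finset V → V → V → ℝ → ℝ)
    (pca pca' nca nca' : Finset V → V → ℝ → ℝ) (ptca ptca' : ℝ → ℝ)
    (P P' N N' : V → ℝ → ℝ) (gp gp' gm gm' : Finset V → V → V → ℝ → ℝ)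
    (pc pc' nc nc' : Finset V → V → ℝ → ℝ) (ptc ptc' : ℝ → ℝ)
    (pd pd' nd nd' : Finset V → V → ℝ → ℝ) (ptd ptd' : ℝ → ℝ) (k k' : Finset V → ℝ → ℝ) :
    Prop where
  La : L0q h (fun r v => ∑ w ∈ A, h r w v) U t Pa Pa' Na Na'
  Ga : G12F h U t (Wf Pa) (Tf Na) gpa gpa' gma gma'
  Gca : GVF h (U.erase c) c t (Wf Pa) gpa gma pca pca' nca nca'
  Ica : Ipt h (U.erase c) c d t (Wf Pa) ptca ptca'
  ptca0 : ptca t = 0
  L : L0q h (fun r v => ∑ w ∈ D, h r w v) U s P P' N N'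
  G : G12F h U s (Wf P) (Tf N) gp gp' gm gm'
  Gc : GVF h (U.erase c) c s (Wf P) gp gm pc pc' nc nc'
  Ic : Ipt h (U.erase c) c d s (Wf P) ptc ptc'
  Gd : GVF h (U.erase d) d s (Wf P) gp gm pd pd' nd nd'
  Id : Ipt h (U.erase d) d c s (Wf P) ptd ptd'
  ptd0 : ptd s = 0
  Gk : GkF h ((U.erase c).erase d) s (Wf P) pc nc pd nd k k'
  mP : ∀ e ∈ U, Pa e s ≤ P e s
  mN : ∀ e ∈ U, Na e s ≤ N e s
  mgp : ∀ F ⊆ U, ∀ i ∈ U, ∀ j ∈ U, i ∉ F → j ∉ F → i ≠ j → gpa F i j s ≤ gp F i j s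
  mgm : ∀ F ⊆ U, ∀ i ∈ U, ∀ j ∈ U, i ∉ F → j ∉ F → i ≠ j → gma F i j s ≤ gm F i j s
  mpc : ∀ F ⊆ U.erase c, ∀ e ∈ U.erase c, e ∉ F → pca F e s ≤ pc F e s
  mnc : ∀ F ⊆ U.erase c, ∀ e ∈ U.erase c, e ∉ F → nca F e s ≤ nc F e s
  mpt : ptc s ≤ ptca s
  Nt : ∀ e ∈ U, 0 ≤ Na e t

/-- the bounds of the first phase at its end -/
theorem Ph2F.start (hh : Haz h H) (hcd : c ≠ d) (ht : t ∈ Icc (0 : ℝ) 1)
    (hs : s ∈ Icc 0 t) (hdU : d ∈ U)
    (hRa : Wd h (fun r v => ∑ w ∈ A, h r w v) t Ra) (a1 : ∀ F, Ra F t = 1)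
    (hRac : Wd h (fun r v => ∑ w ∈ A, h r w v + h r c v) t Rac) (c1 : ∀ F, Rac F t = 1)
    (hp : Ph2F h A D c d s t U Pa Pa' Na Na' gpa gpa' gma gma' pca pca' nca nca' ptca ptca'
      P P' N N' gp gp' gm gm' pc pc' nc nc' ptc ptc' pd pd' nd nd' ptd ptd' k k') :
    L12 Ra U t gpa gma ∧
    (∀ F ⊆ U.erase c, ∀ e ∈ U.erase c, e ∉ F → ∀ r ∈ Icc 0 t,
      Bv Ra Rac (pca F) (nca F) e F r) ∧
    Inf0 (fun F _ => Ra F s) U P N s ∧
    (∀ F ⊆ U, ∀ i ∈ U, ∀ j ∈ U, i ∉ F → j ∉ F → i ≠ j →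
      B12 (fun F _ => Ra F s) (gp F) (gm F) i j F s) ∧
    (∀ F ⊆ U.erase c, ∀ e ∈ U.erase c, e ∉ F →
      Bv (fun F _ => Ra F s) (fun F _ => Rac F s) (pc F) (nc F) e F s) ∧
    (∀ F ⊆ U.erase c, d ∉ F → Rac (insert d F) s * Ra F s
      ≤ (Real.exp (nc F d s) - ptc s) * (Rac F s * Ra (insert d F) s)) := by
  obtain ⟨i0, l12, l1, li⟩ := worldAVF hh hcd hdU ht.1 hRa a1 hRac c1 hp.La hp.Nt hp.Ga
    hp.Gca hp.Ica hp.ptca0
  refine ⟨l12, l1, fun G hG x hx => ?_, fun F hF i hi j hj hiF hjF hij => ?_,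
    fun F hF e he heF => ?_, fun F hF hdF => ?_⟩
  · have w1 := hRa.pos G s hs
    obtain ⟨x1, x2⟩ := i0 s hs G hG x hx
    have m1 := mul_le_mul_of_nonneg_right (hp.mP x (hG hx)) w1.le
    have m2 := mul_le_mul_of_nonneg_right (hp.mN x (hG hx)) w1.le
    constructor
    · linarith
    · linarith
  · obtain ⟨x1, x2⟩ := l12 F hF i hi j hj hiF hjF hij s hs
    have e1 := Real.exp_le_exp.2 (hp.mgm F hF i hi j hj hiF hjF hij)
    have e2 := Real.exp_le_exp.2 (hp.mgp F hF i hi j hj hiF hjF hij)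
    have w1 : 0 < Ra F s * Ra (insert i (insert j F)) s := mul_pos (hRa.pos _ s hs) (hRa.pos _ s hs)
    have w2 : 0 < Ra (insert j F) s * Ra (insert i F) s := mul_pos (hRa.pos _ s hs) (hRa.pos _ s hs)
    exact ⟨x1.trans (mul_le_mul_of_nonneg_right e1 w1.le),
      x2.trans (mul_le_mul_of_nonneg_right e2 w2.le)⟩
  · obtain ⟨x1, x2⟩ := l1 F hF e he heF s hs
    have e1 := Real.exp_le_exp.2 (hp.mnc F hF e he heF)
    have e2 := Real.exp_le_exp.2 (hp.mpc F hF e he heF)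
    have w1 : 0 < Rac F s * Ra (insert e F) s := mul_pos (hRac.pos _ s hs) (hRa.pos _ s hs)
    have w2 : 0 < Rac (insert e F) s * Ra F s := mul_pos (hRac.pos _ s hs) (hRa.pos _ s hs)
    exact ⟨x1.trans (mul_le_mul_of_nonneg_right e1 w1.le),
      x2.trans (mul_le_mul_of_nonneg_right e2 w2.le)⟩
  · have x1 := li F hF hdF s hs
    have e1 := Real.exp_le_exp.2 (hp.mnc F hF d
      (Finset.mem_erase.2 ⟨fun h => hcd h.symm, hdU⟩) hdF)
    have w1 : 0 < Rac F s * Ra (insert d F) s := mul_pos (hRac.pos _ s hs) (hRa.pos _ s hs)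
    exact x1.trans (mul_le_mul_of_nonneg_right (by linarith [hp.mpt]) w1.le)

/-- (C), two-phase form: `d` removed at time `s` -/
theorem condCF (hh : Haz h H) (hca : c ∉ D) (hda : d ∉ D) (hcd : c ≠ d)
    (ht : t ∈ Icc (0 : ℝ) 1) (hs : s ∈ Icc 0 t)
    (hRa : Wd h (fun r v => ∑ w ∈ A, h r w v) t Ra) (a1 : ∀ F, Ra F t = 1)
    (hRac : Wd h (fun r v => ∑ w ∈ A, h r w v + h r c v) t Rac) (c1 : ∀ F, Rac F t = 1)
    (hU : U = Dᶜ)
    (hp : Ph2F h A D c d s t U Pa Pa' Na Na' gpa gpa' gma gma' pca pca' nca nca' ptca ptca'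
      P P' N N' gp gp' gm gm' pc pc' nc nc' ptc ptc' pd pd' nd nd' ptd ptd' k k')
    (hk : ∀ F ⊆ (U.erase c).erase d, 0 ≤ k F s) {F0 : Finset V}
    (hF0 : F0 = (({c, d} ∪ D : Finset V))ᶜ) :
    ex (lw h ∅ s) (insert d D) (fun F => Ra F s)
        * ex (lw h ∅ s) (insert c D) (fun F => Rac F s)
      ≤ (Real.exp (k F0 0 + gm F0 c d 0 + H c d s) *
          ((Real.exp (nc F0 d 0) - ptc 0) * (Real.exp (nd F0 c 0) - ptd 0))) *
        (ex (lw h ∅ s) ({c, d} ∪ D) (fun F => Rac F s)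
          * ex (lw h ∅ s) D (fun F => Ra F s)) := by
  have hdU : d ∈ U := by
    rw [hU, Finset.mem_compl]
    exact hda
  obtain ⟨-, -, j0, j12, j1, jic⟩ := hp.start hh hcd ht hs hdU hRa a1 hRac c1
  have ss : s ∈ Icc 0 s := ⟨hs.1, le_rfl⟩
  refine coreVF hh hca hda hcd ⟨hs.1, hs.2.trans ht.2⟩ hU hp.L hp.G hp.Gc hp.Gd hp.Ic hp.Id
    hp.Gk hF0 (fun F => hRa.pos F s hs) (fun F => hRac.pos F s hs) (fun F => hRa.pos F s hs)
    (fun F => hRac.pos F s hs) j0 j12 j1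
    (fun F hF e he heF => ?_) jic (fun F hF hcF => ?_)
    (fun F hF => ?_)
  · unfold Bv
    have h1 := Real.one_le_exp (hp.Gd.n0 F e s ss)
    have h2 := Real.one_le_exp (hp.Gd.p0 F e s ss)
    have w1 : 0 < Ra F s * Ra (insert e F) s := mul_pos (hRa.pos _ s hs) (hRa.pos _ s hs)
    simp only
    constructor <;> nlinarith
  · have h1 := Real.one_le_exp (hp.Gd.n0 F c s ss)
    have w1 : 0 < Ra F s * Ra (insert c F) s := mul_pos (hRa.pos _ s hs) (hRa.pos _ s hs)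
    rw [hp.ptd0]
    nlinarith
  · have h1 := Real.one_le_exp (hk F hF)
    have w1 : 0 < Rac F s * Ra F s := mul_pos (hRac.pos _ s hs) (hRa.pos _ s hs)
    nlinarith

/-- (Ct), two-phase form: `d` released at time `s` -/
theorem condCtF (hh : Haz h H) (hca : c ∉ D) (hda : d ∉ D) (hcd : c ≠ d)
    (ht : t ∈ Icc (0 : ℝ) 1) (hs : s ∈ Icc 0 t)
    (hRa : Wd h (fun r v => ∑ w ∈ A, h r w v) t Ra) (a1 : ∀ F, Ra F t = 1)
    (hRac : Wd h (fun r v => ∑ w ∈ A, h r w v + h r c v) t Rac) (c1 : ∀ F, Rac F t = 1)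
    (hU : U = Dᶜ)
    (hp : Ph2F h A D c d s t U Pa Pa' Na Na' gpa gpa' gma gma' pca pca' nca nca' ptca ptca'
      P P' N N' gp gp' gm gm' pc pc' nc nc' ptc ptc' pd pd' nd nd' ptd ptd' k k')
    (hde : ∀ F ⊆ U.erase d, ∀ e ∈ U.erase d, e ∉ F →
      gma F d e s ≤ pd F e s ∧ gpa F d e s ≤ nd F e s)
    (hk : ∀ F ⊆ (U.erase c).erase d, pca F d s ≤ k F s) {F0 : Finset V}
    (hF0 : F0 = (({c, d} ∪ D : Finset V))ᶜ) :
    ex (lw h ∅ s) (insert d D) (fun F => Ra (insert d F) s)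
        * ex (lw h ∅ s) (insert c D) (fun F => Rac F s)
      ≤ (Real.exp (k F0 0 + gm F0 c d 0 + H c d s) *
          ((Real.exp (nc F0 d 0) - ptc 0) * (Real.exp (nd F0 c 0) - ptd 0))) *
        (ex (lw h ∅ s) ({c, d} ∪ D) (fun F => Rac (insert d F) s)
          * ex (lw h ∅ s) D (fun F => Ra F s)) := by
  have hcU : c ∈ U := by
    rw [hU, Finset.mem_compl]
    exact hca
  have hdU : d ∈ U := by
    rw [hU, Finset.mem_compl]
    exact hda
  obtain ⟨l12, l1, j0, j12, j1, jic⟩ := hp.start hh hcd ht hs hdU hRa a1 hRac c1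
  have ss : s ∈ Icc 0 s := ⟨hs.1, le_rfl⟩
  have key : ∀ F ⊆ U.erase d, ∀ e ∈ U.erase d, e ∉ F →
      Bv (fun F _ => Ra F s) (fun F _ => Ra (insert d F) s) (pd F) (nd F) e F s := by
    intro F hF e he heF
    have heU := Finset.mem_of_mem_erase he
    have hed : d ≠ e := fun h => (Finset.notMem_erase d U) (h ▸ he)
    have hFU : F ⊆ U := hF.trans (Finset.erase_subset _ _)
    have hdF : d ∉ F := fun h => (Finset.notMem_erase d U) (hF h)
    obtain ⟨x1, x2⟩ := l12 F hFU d hdU e heU hdF heF hed s hs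
    obtain ⟨y1, y2⟩ := hde F hF e he heF
    have e1 := Real.exp_le_exp.2 y1
    have e2 := Real.exp_le_exp.2 y2
    have w1 : 0 < Ra F s * Ra (insert d (insert e F)) s := mul_pos (hRa.pos _ s hs) (hRa.pos _ s hs)
    have w2 : 0 < Ra (insert e F) s * Ra (insert d F) s := mul_pos (hRa.pos _ s hs) (hRa.pos _ s hs)
    unfold Bv
    simp only
    constructor
    · have z1 := x2.trans (mul_le_mul_of_nonneg_right e2 w2.le)
      rw [mul_comm (Ra (insert d (insert e F)) s), mul_comm (Ra (insert d F) s)]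
      exact z1
    · have z1 := x1.trans (mul_le_mul_of_nonneg_right e1 w1.le)
      rw [mul_comm (Ra (insert d (insert e F)) s), mul_comm (Ra (insert d F) s)]
      exact z1
  refine coreVF hh hca hda hcd ⟨hs.1, hs.2.trans ht.2⟩ hU hp.L hp.G hp.Gc hp.Gd hp.Ic hp.Id
    hp.Gk hF0 (fun F => hRa.pos F s hs) (fun F => hRac.pos F s hs) (fun F => hRa.pos _ s hs)
    (fun F => hRac.pos _ s hs) j0 j12 j1
    key jic (fun F hF hcF => ?_)
    (fun F hF => ?_)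
  · rw [hp.ptd0, sub_zero]
    exact (key F hF c (Finset.mem_erase.2 ⟨hcd, hcU⟩) hcF).1
  · have hFc : F ⊆ U.erase c := hF.trans (Finset.erase_subset _ _)
    have hdF : d ∉ F := fun h => (Finset.notMem_erase d (U.erase c)) (hF h)
    have x := (l1 F hFc d (Finset.mem_erase.2 ⟨fun h => hcd h.symm, hdU⟩) hdF s hs).2
    have e1 := Real.exp_le_exp.2 (hk F hF)
    have w1 : 0 < Rac (insert d F) s * Ra F s := mul_pos (hRac.pos _ s hs) (hRa.pos _ s hs)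
    exact x.trans (mul_le_mul_of_nonneg_right e1 w1.le)

end Pool.Agent.RZ.RCO
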