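import Pool.Agent.RZ.RCM.BEps
import Pool.Agent.RZ.RCM.Mono
import Pool.Agent.RZ.RCM.VGen2
import Pool.Agent.RZ.RCO.Ex4

/-! The closures from majorants, functions indexed by the world (MP_73ccd0_lc). -/

namespace Pool.Agent.RZ.RCO

open Set Finset Pool.Agent.RZ.RCRSHalf Pool.Agent.RZ.RCRSGen Pool.Agent.RZ.RCG Pool.Agent.RZ.RCM

set_option linter.unusedSectionVars false

variable {V : Type*} [Fintype V] [DecidableEq V]

/-- level 1 in terms of majorants, indexed by the world -/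
structure SVF (X : Finset V) (t : ℝ) (κ : ℝ → V → ℝ) (T : ℝ → V → V → ℝ)
    (gp gm : Finset V → V → V → ℝ → ℝ) (p p' n n' : Finset V → V → ℝ → ℝ) : Prop where
  dp : ∀ F ⊆ X, ∀ e ∈ X, e ∉ F → ∀ r ∈ Icc 0 t, HasDerivAt (p F e) (p' F e r) r
  dn : ∀ F ⊆ X, ∀ e ∈ X, e ∉ F → ∀ r ∈ Icc 0 t, HasDerivAt (n F e) (n' F e r) r
  p0 : ∀ F e, ∀ r ∈ Icc 0 t, 0 ≤ p F e r
  n0 : ∀ F e, ∀ r ∈ Icc 0 t, 0 ≤ n F e r
  mp : ∀ F ⊆ X, ∀ e ∈ X, e ∉ F → ∀ x ∈ F, ∀ r ∈ Icc 0 t, p (F.erase x) e r ≤ p F e r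
  mn : ∀ F ⊆ X, ∀ e ∈ X, e ∉ F → ∀ x ∈ F, ∀ r ∈ Icc 0 t, n (F.erase x) e r ≤ n F e r
  op : ∀ F ⊆ X, ∀ e ∈ X, e ∉ F → ∀ r ∈ Icc 0 t,
      κ r e
        + ∑ b ∈ F, T r e b * (1 - Real.exp (-n (F.erase b) b r))
        + (1 / 2) * ∑ x ∈ F, ∑ y ∈ F, T r x y *
          (max ((1 - Real.exp (-pr n F x y r)) * (1 - Real.exp (-pg gm F e x y r)))
            ((Real.exp (pr p F x y r) - 1) * (1 - Real.exp (-pg gp F e x y r))))
      ≤ -p' F e r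
  on : ∀ F ⊆ X, ∀ e ∈ X, e ∉ F → ∀ r ∈ Icc 0 t,
      ∑ b ∈ F, T r e b * (Real.exp (p (F.erase b) b r) - 1)
        + (1 / 2) * ∑ x ∈ F, ∑ y ∈ F, T r x y *
          (max ((1 - Real.exp (-pr n F x y r)) * (1 - Real.exp (-pg gp F e x y r)))
            ((Real.exp (pr p F x y r) - 1) * (1 - Real.exp (-pg gm F e x y r))))
      ≤ -n' F e r

/-- level 2 in terms of majorants, indexed by the world -/
structure SkF (X : Finset V) (s : ℝ) (T : ℝ → V → V → ℝ)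
    (pc nc pd nd : Finset V → V → ℝ → ℝ) (k k' : Finset V → ℝ → ℝ) : Prop where
  d : ∀ F ⊆ X, ∀ r ∈ Icc 0 s, HasDerivAt (k F) (k' F r) r
  m : ∀ F ⊆ X, ∀ x ∈ F, ∀ r ∈ Icc 0 s, k (F.erase x) r ≤ k F r
  o : ∀ F ⊆ X, ∀ r ∈ Icc 0 s,
      (1 / 2) * ∑ x ∈ F, ∑ y ∈ F, T r x y *
          (max ((1 - Real.exp (-pr nc F x y r)) * (Real.exp (pr pd F x y r) - 1))
            ((Real.exp (pr pc F x y r) - 1) * (1 - Real.exp (-pr nd F x y r))))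
      ≤ -k' F r

section

theorem ge1 {z : ℝ} (hz : 0 ≤ z) : 0 ≤ 1 - Real.exp (-z) := by
  have := Real.exp_le_one_iff.2 (by linarith : -z ≤ 0); linarith

theorem ge2 {z : ℝ} (hz : 0 ≤ z) : 0 ≤ Real.exp z - 1 := by
  have := Real.one_le_exp hz; linarith

theorem SVF.toG {X : Finset V} {s t : ℝ} {κ : ℝ → V → ℝ} {T : ℝ → V → V → ℝ}
    {gp gm : Finset V → V → V → ℝ → ℝ} {p p' n n' : Finset V → V → ℝ → ℝ}
    (hS : SVF X t κ T gp gm p p' n n')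
    (hst : s ≤ t) {c : V} {h W : ℝ → V → V → ℝ}
    (gp0 : ∀ F i j, ∀ r ∈ Icc 0 s, 0 ≤ gp F i j r) (gm0 : ∀ F i j, ∀ r ∈ Icc 0 s, 0 ≤ gm F i j r)
    (hκ : ∀ r ∈ Icc 0 s, ∀ e ∈ X, h r c e ≤ κ r e)
    (hT : ∀ r ∈ Icc 0 s, ∀ i ∈ X, ∀ j ∈ X, h r i j * W r i j ≤ T r i j) :
    GVF h X c s W gp gm p p' n n' := by
  have m : ∀ r ∈ Icc 0 s, r ∈ Icc 0 t := fun r hr => mem_of_le hst hr
  have k1 : ∀ r ∈ Icc 0 s, ∀ i ∈ X, ∀ j ∈ X, ∀ z : ℝ, 0 ≤ z →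
      h r i j * (W r i j * z) ≤ T r i j * z := fun r hr i hi j hj z hz => by
    rw [← mul_assoc]; exact mul_le_mul_of_nonneg_right (hT r hr i hi j hj) hz
  have pn : ∀ F x y, ∀ r ∈ Icc 0 s, 0 ≤ pr n F x y r := fun F x y r hr =>
    add_nonneg (hS.n0 _ _ r (m r hr)) (hS.n0 _ _ r (m r hr))
  refine ⟨fun F hF e he heF r hr => hS.dp F hF e he heF r (m r hr),
    fun F hF e he heF r hr => hS.dn F hF e he heF r (m r hr),
    fun F e r hr => hS.p0 F e r (m r hr), fun F e r hr => hS.n0 F e r (m r hr),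
    fun F hF e he heF x hx r hr => hS.mp F hF e he heF x hx r (m r hr),
    fun F hF e he heF x hx r hr => hS.mn F hF e he heF x hx r (m r hr),
    fun F hF e he heF r hr => ?_, fun F hF e he heF r hr => ?_⟩
  · refine le_trans ?_ (hS.op F hF e he heF r (m r hr))
    refine add_le_add (add_le_add (hκ r hr e he) ?_) ?_
    · exact Finset.sum_le_sum fun b hb => k1 r hr e he b (hF hb) _ (ge1 (hS.n0 _ b r (m r hr)))
    · refine mul_le_mul_of_nonneg_left ?_ (by norm_num)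
      refine Finset.sum_le_sum fun x hx => Finset.sum_le_sum fun y hy => ?_
      exact k1 r hr x (hF hx) y (hF hy) _
        (le_max_of_le_left (mul_nonneg (ge1 (pn F x y r hr)) (ge1 (pg_nonneg gm0 F e x y hr))))
  · refine le_trans ?_ (hS.on F hF e he heF r (m r hr))
    refine add_le_add ?_ ?_
    · exact Finset.sum_le_sum fun b hb => k1 r hr e he b (hF hb) _ (ge2 (hS.p0 _ b r (m r hr)))
    · refine mul_le_mul_of_nonneg_left ?_ (by norm_num)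
      refine Finset.sum_le_sum fun x hx => Finset.sum_le_sum fun y hy => ?_
      exact k1 r hr x (hF hx) y (hF hy) _
        (le_max_of_le_left (mul_nonneg (ge1 (pn F x y r hr)) (ge1 (pg_nonneg gp0 F e x y hr))))

theorem SkF.toG {X : Finset V} {s : ℝ} {T : ℝ → V → V → ℝ}
    {pc nc pd nd : Finset V → V → ℝ → ℝ} {k k' : Finset V → ℝ → ℝ}
    (hS : SkF X s T pc nc pd nd k k')
    {h W : ℝ → V → V → ℝ}
    (nc0 : ∀ F e, ∀ r ∈ Icc 0 s, 0 ≤ nc F e r) (pd0 : ∀ F e, ∀ r ∈ Icc 0 s, 0 ≤ pd F e r)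
    (hT : ∀ r ∈ Icc 0 s, ∀ i ∈ X, ∀ j ∈ X, h r i j * W r i j ≤ T r i j) :
    GkF h X s W pc nc pd nd k k' := by
  refine ⟨hS.d, hS.m, fun F hF r hr => le_trans ?_ (hS.o F hF r hr)⟩
  refine mul_le_mul_of_nonneg_left ?_ (by norm_num)
  refine Finset.sum_le_sum fun x hx => Finset.sum_le_sum fun y hy => ?_
  rw [← mul_assoc]
  exact mul_le_mul_of_nonneg_right (hT r hr x (hF hx) y (hF hy))
    (le_max_of_le_left (mul_nonneg (ge1 (add_nonneg (nc0 _ _ r hr) (nc0 _ _ r hr)))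
      (ge2 (add_nonneg (pd0 _ _ r hr) (pd0 _ _ r hr)))))

end

variable {h : ℝ → V → V → ℝ} {H : V → V → ℝ → ℝ}

/-- the data of a world: level 0 and level 1/2 in both phases -/
structure WldF (h : ℝ → V → V → ℝ) (A D : Finset V) (s t : ℝ) (U : Finset V)
    (Pa Pa' Na Na' P P' N N' : V → ℝ → ℝ) (T : ℝ → V → V → ℝ)
    (gp gp' gm gm' : Finset V → V → V → ℝ → ℝ) : Prop where
  La : L0q h (fun r v => ∑ w ∈ A, h r w v) U t Pa Pa' Na Na'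
  L : L0q h (fun r v => ∑ w ∈ D, h r w v) U s P P' N N'
  mP : ∀ e ∈ U, Pa e s ≤ P e s
  mN : ∀ e ∈ U, Na e s ≤ N e s
  Ta : ∀ r ∈ Icc 0 t, ∀ i ∈ U, ∀ j ∈ U, h r i j * Wf Pa r i j ≤ T r i j
  Td : ∀ r ∈ Icc 0 s, ∀ i ∈ U, ∀ j ∈ U, h r i j * Wf P r i j ≤ T r i j
  ga : G12F h U t (Wf Pa) (Tf Na) gp gp' gm gm'
  g : G12F h U s (Wf P) (Tf N) gp gp' gm gm'
  Nt : ∀ e ∈ U, 0 ≤ Na e t

section

variable {c d : V} {A D : Finset V} {s t : ℝ} {U : Finset V} {Pa Pa' Na Na' P P' N N' : V → ℝ → ℝ}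
  {T : ℝ → V → V → ℝ} {gp gp' gm gm' : Finset V → V → V → ℝ → ℝ}
  {pc pc' nc nc' pd pd' nd nd' : Finset V → V → ℝ → ℝ}
  {ptca ptca' ptc ptc' ptd ptd' : ℝ → ℝ} {k k' : Finset V → ℝ → ℝ} {κc κd : ℝ → V → ℝ}

theorem WldF.toPh2 (hs : s ∈ Icc 0 t)
    (hw : WldF h A D s t U Pa Pa' Na Na' P P' N N' T gp gp' gm gm')
    (hκc : ∀ r ∈ Icc 0 t, ∀ e ∈ U.erase c, h r c e ≤ κc r e)
    (hκd : ∀ r ∈ Icc 0 s, ∀ e ∈ U.erase d, h r d e ≤ κd r e)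
    (hc : SVF (U.erase c) t κc T gp gm pc pc' nc nc')
    (hd : SVF (U.erase d) s κd T gp gm pd pd' nd nd')
    (hk : SkF ((U.erase c).erase d) s T pc nc pd nd k k')
    (hIca : Ipt h (U.erase c) c d t (Wf Pa) ptca ptca') (ptca0 : ptca t = 0)
    (hIc : Ipt h (U.erase c) c d s (Wf P) ptc ptc') (mpt : ptc s ≤ ptca s)
    (hId : Ipt h (U.erase d) d c s (Wf P) ptd ptd') (ptd0 : ptd s = 0) :
    Ph2F h A D c d s t U Pa Pa' Na Na' gp gp' gm gm' pc pc' nc nc' ptca ptca'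
      P P' N N' gp gp' gm gm' pc pc' nc nc' ptc ptc' pd pd' nd nd' ptd ptd' k k' := by
  have m : ∀ r ∈ Icc 0 s, r ∈ Icc 0 t := fun r hr => mem_of_le hs.2 hr
  have uc : ∀ e ∈ U.erase c, e ∈ U := fun e he => Finset.mem_of_mem_erase he
  have ud : ∀ e ∈ U.erase d, e ∈ U := fun e he => Finset.mem_of_mem_erase he
  refine ⟨hw.La, hw.ga,
    hc.toG le_rfl hw.ga.gp0 hw.ga.gm0 hκc
      (fun r hr i hi j hj => hw.Ta r hr i (uc i hi) j (uc j hj)), hIca, ptca0, hw.L,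
    hw.g,
    hc.toG hs.2 hw.g.gp0 hw.g.gm0 (fun r hr => hκc r (m r hr))
      (fun r hr i hi j hj => hw.Td r hr i (uc i hi) j (uc j hj)), hIc,
    hd.toG le_rfl hw.g.gp0 hw.g.gm0 hκd
      (fun r hr i hi j hj => hw.Td r hr i (ud i hi) j (ud j hj)), hId, ptd0,
    hk.toG (fun F e r hr => hc.n0 F e r (m r hr)) hd.p0
      (fun r hr i hi j hj => hw.Td r hr i (uc i (Finset.mem_of_mem_erase hi)) j
        (uc j (Finset.mem_of_mem_erase hj))),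
    hw.mP, hw.mN, fun _ _ _ _ _ _ _ _ _ => le_rfl, fun _ _ _ _ _ _ _ _ _ => le_rfl,
    fun _ _ _ _ _ => le_rfl, fun _ _ _ _ _ => le_rfl, mpt, hw.Nt⟩

theorem f0_eq (hU : U = Dᶜ) : (U.erase c).erase d = (({c, d} ∪ D : Finset V))ᶜ := by
  subst hU
  ext z
  simp only [Finset.mem_erase, Finset.mem_compl, Finset.mem_union, Finset.mem_insert,
    Finset.mem_singleton, not_or]
  tauto

/-- the deleted closure from the single system -/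
theorem WldF.cloD (hh : Haz h H) (hca : c ∉ D) (hda : d ∉ D) (hcd : c ≠ d)
    (ht : t ∈ Icc (0 : ℝ) 1) (hs : s ∈ Icc 0 t) (hU : U = Dᶜ)
    (hw : WldF h A D s t U Pa Pa' Na Na' P P' N N' T gp gp' gm gm')
    (hκc : ∀ r ∈ Icc 0 t, ∀ e ∈ U.erase c, h r c e ≤ κc r e)
    (hκd : ∀ r ∈ Icc 0 s, ∀ e ∈ U.erase d, h r d e ≤ κd r e)
    (hc : SVF (U.erase c) t κc T gp gm pc pc' nc nc')
    (hd : SVF (U.erase d) s κd T gp gm pd pd' nd nd')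
    (hk : SkF ((U.erase c).erase d) s T pc nc pd nd k k')
    (hIca : Ipt h (U.erase c) c d t (Wf Pa) ptca ptca') (ptca0 : ptca t = 0)
    (hIc : Ipt h (U.erase c) c d s (Wf P) ptc ptc') (mpt : ptc s ≤ ptca s)
    (hId : Ipt h (U.erase d) d c s (Wf P) ptd ptd') (ptd0 : ptd s = 0)
    (k0 : ∀ F ⊆ (U.erase c).erase d, 0 ≤ k F s) {F0 : Finset V}
    (hF0 : F0 = (U.erase c).erase d) :
    CloD h t s A D c d (Real.exp (k F0 0 + gm F0 c d 0 + nc F0 d 0 + nd F0 c 0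
      + (H c d s - ptc 0 * Real.exp (-nc F0 d 0) - ptd 0 * Real.exp (-nd F0 c 0)))) := by
  have hp := hw.toPh2 hs hκc hκd hc hd hk hIca ptca0 hIc mpt hId ptd0
  have z : (0 : ℝ) ∈ Icc 0 s := ⟨le_rfl, hs.1⟩
  have hn : 0 ≤ Real.exp (nd F0 c 0) - ptd 0 := by
    have h1 := Real.one_le_exp (hd.n0 F0 c 0 z)
    have h2 := hId.p1 0 z
    linarith
  have hC : CloD h t s A D c d (Real.exp (k F0 0 + gm F0 c d 0 + H c d s) *
          ((Real.exp (nc F0 d 0) - ptc 0) * (Real.exp (nd F0 c 0) - ptd 0))) :=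
    fun _ _ hRa a1 hRac c1 => condCF hh hca hda hcd ht hs hRa a1 hRac c1 hU hp k0
      (hF0.trans (f0_eq hU))
  exact hC.mono hh ht hs (K_le_exp hn)

/-- the released closure from the single system -/
theorem WldF.cloDt (hh : Haz h H) (hca : c ∉ D) (hda : d ∉ D) (hcd : c ≠ d)
    (ht : t ∈ Icc (0 : ℝ) 1) (hs : s ∈ Icc 0 t) (hU : U = Dᶜ)
    (hw : WldF h A D s t U Pa Pa' Na Na' P P' N N' T gp gp' gm gm')
    (hκc : ∀ r ∈ Icc 0 t, ∀ e ∈ U.erase c, h r c e ≤ κc r e)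
    (hκd : ∀ r ∈ Icc 0 s, ∀ e ∈ U.erase d, h r d e ≤ κd r e)
    (hc : SVF (U.erase c) t κc T gp gm pc pc' nc nc')
    (hd : SVF (U.erase d) s κd T gp gm pd pd' nd nd')
    (hde : ∀ F ⊆ U.erase d, ∀ e ∈ U.erase d, e ∉ F →
      gm F d e s ≤ pd F e s ∧ gp F d e s ≤ nd F e s)
    (hk : SkF ((U.erase c).erase d) s T pc nc pd nd k k')
    (hIca : Ipt h (U.erase c) c d t (Wf Pa) ptca ptca') (ptca0 : ptca t = 0)
    (hIc : Ipt h (U.erase c) c d s (Wf P) ptc ptc') (mpt : ptc s ≤ ptca s)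
    (hId : Ipt h (U.erase d) d c s (Wf P) ptd ptd') (ptd0 : ptd s = 0)
    (k0 : ∀ F ⊆ (U.erase c).erase d, pc F d s ≤ k F s) {F0 : Finset V}
    (hF0 : F0 = (U.erase c).erase d) :
    CloDt h t s A D c d (Real.exp (k F0 0 + gm F0 c d 0 + nc F0 d 0 + nd F0 c 0
      + (H c d s - ptc 0 * Real.exp (-nc F0 d 0) - ptd 0 * Real.exp (-nd F0 c 0)))) := by
  have hp := hw.toPh2 hs hκc hκd hc hd hk hIca ptca0 hIc mpt hId ptd0
  have z : (0 : ℝ) ∈ Icc 0 s := ⟨le_rfl, hs.1⟩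
  have hn : 0 ≤ Real.exp (nd F0 c 0) - ptd 0 := by
    have h1 := Real.one_le_exp (hd.n0 F0 c 0 z)
    have h2 := hId.p1 0 z
    linarith
  have hC : CloDt h t s A D c d (Real.exp (k F0 0 + gm F0 c d 0 + H c d s) *
          ((Real.exp (nc F0 d 0) - ptc 0) * (Real.exp (nd F0 c 0) - ptd 0))) :=
    fun _ _ hRa a1 hRac c1 => condCtF hh hca hda hcd ht hs hRa a1 hRac c1 hU hp hde k0
      (hF0.trans (f0_eq hU))
  exact hC.mono hh ht hs (K_le_exp hn)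

end

end Pool.Agent.RZ.RCO
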