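import Pool.Agent.RZ.RCM.Ins
import Pool.Agent.RZ.RCO.Cl1
import Pool.Agent.RZ.RCO.Ex5

/-! Route P: the closures of all times of a cell from one exact solution of the system at the
horizons of the cell, functions indexed by the world (MP_73ccd0_lc). -/

namespace Pool.Agent.RZ.RCO

open Set Finset MeasureTheory Pool.Agent.RZ.RCRSHalf Pool.Agent.RZ.RCRSGen Pool.Agent.RZ.RCG Pool.Agent.RZ.RCM

set_option linter.unusedSectionVars false

variable {V : Type*} [Fintype V] [DecidableEq V]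

/-! ### restriction of the horizons -/

theorem svF_restr {X : Finset V} {t τ : ℝ} {κ : ℝ → V → ℝ} {T : ℝ → V → V → ℝ}
    {gp gm : Finset V → V → V → ℝ → ℝ} {p p' n n' : Finset V → V → ℝ → ℝ}
    (hS : SVF X τ κ T gp gm p p' n n') (h : t ≤ τ) : SVF X t κ T gp gm p p' n n' := by
  have m : ∀ r ∈ Icc 0 t, r ∈ Icc 0 τ := fun r hr => ⟨hr.1, hr.2.trans h⟩
  exact ⟨fun F hF e he heF r hr => hS.dp F hF e he heF r (m r hr),
    fun F hF e he heF r hr => hS.dn F hF e he heF r (m r hr),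
    fun F e r hr => hS.p0 F e r (m r hr), fun F e r hr => hS.n0 F e r (m r hr),
    fun F hF e he heF x hx r hr => hS.mp F hF e he heF x hx r (m r hr),
    fun F hF e he heF x hx r hr => hS.mn F hF e he heF x hx r (m r hr),
    fun F hF e he heF r hr => hS.op F hF e he heF r (m r hr),
    fun F hF e he heF r hr => hS.on F hF e he heF r (m r hr)⟩

theorem skF_restr {X : Finset V} {s σ : ℝ} {T : ℝ → V → V → ℝ}
    {pc nc pd nd : Finset V → V → ℝ → ℝ} {k k' : Finset V → ℝ → ℝ}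
    (hS : SkF X σ T pc nc pd nd k k') (h : s ≤ σ) : SkF X s T pc nc pd nd k k' :=
  ⟨fun F hF r hr => hS.d F hF r ⟨hr.1, hr.2.trans h⟩,
    fun F hF x hx r hr => hS.m F hF x hx r ⟨hr.1, hr.2.trans h⟩,
    fun F hF r hr => hS.o F hF r ⟨hr.1, hr.2.trans h⟩⟩

theorem s12F_restr {U : Finset V} {t τ : ℝ} {T A B : ℝ → V → V → ℝ}
    {gp gp' gm gm' : Finset V → V → V → ℝ → ℝ} (hS : S12F U τ T A B gp gp' gm gm') (h : t ≤ τ) :
    S12F U t T A B gp gp' gm gm' := by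
  have m : ∀ r ∈ Icc 0 t, r ∈ Icc 0 τ := fun r hr => ⟨hr.1, hr.2.trans h⟩
  exact ⟨fun F i j hv r hr => hS.dp F i j hv r (m r hr),
    fun F i j hv r hr => hS.dm F i j hv r (m r hr),
    fun F i j r hr => hS.gp0 F i j r (m r hr), fun F i j r hr => hS.gm0 F i j r (m r hr),
    fun F G hG i j hv r hr => hS.mp F G hG i j hv r (m r hr),
    fun F G hG i j hv r hr => hS.mm F G hG i j hv r (m r hr),
    fun F i j hv r hr => hS.op F i j hv r (m r hr),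
    fun F i j hv r hr => hS.om F i j hv r (m r hr)⟩

theorem wldF_of {h : ℝ → V → V → ℝ} {A D : Finset V} {s t : ℝ} {U : Finset V}
    {Pa Pa' Na Na' P P' N N' : V → ℝ → ℝ} {T Am Bm : ℝ → V → V → ℝ}
    {gp gp' gm gm' : Finset V → V → V → ℝ → ℝ}
    (w : W0q h A D s t U Pa Pa' Na Na' P P' N N' T Am Bm)
    (g : S12F U t T Am Bm gp gp' gm gm') (hst : s ≤ t) :
    WldF h A D s t U Pa Pa' Na Na' P P' N N' T gp gp' gm gm' :=
  ⟨w.La, w.L, w.mP, w.mN, w.Ta, w.Td, g.toG le_rfl w.Ta w.Aa w.Ba, g.toG hst w.Td w.Ad w.Bd, w.Nt⟩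

/-! ### the contribution of the direct pair -/

section

variable {U : Finset V} {τ σ : ℝ} {hb T Am Bm : ℝ → V → V → ℝ}
    {h : ℝ → V → V → ℝ} {H : V → V → ℝ → ℝ} {A D : Finset V} {s t : ℝ}
    {Pa Pa' Na Na' P P' N N' : V → ℝ → ℝ} {c d : V}

/-- the direct part and the insertions of the world, the lower functions as numbers -/
theorem ins_gen (στ : σ ≤ τ) (b0 : ∀ u v, ∀ r ∈ Icc 0 τ, 0 ≤ hb r u v)
    (bc : ∀ u v, ContinuousOn (fun r => hb r u v) (Icc 0 τ))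
    (T0 : ∀ u v, ∀ r ∈ Icc 0 τ, 0 ≤ T r u v)
    (Tc : ∀ u v, ContinuousOn (fun r => T r u v) (Icc 0 τ))
    (hh : Haz h H) (hc : c ∈ U) (hd : d ∈ U) (htτ : t ≤ τ) (hs : s ∈ Icc 0 t) (hsσ : s ≤ σ)
    (hle : ∀ u v, ∀ r ∈ Icc 0 t, h r u v ≤ hb r u v)
    (hw : W0q h A D s t U Pa Pa' Na Na' P P' N N' T Am Bm) (n1 n2 : ℝ) :
    ∃ ptca ptca' ptc ptc' ptd ptd' : ℝ → ℝ,
      Ipt h (U.erase c) c d t (Wf Pa) ptca ptca' ∧ ptca t = 0 ∧
      Ipt h (U.erase c) c d s (Wf P) ptc ptc' ∧ ptc s ≤ ptca s ∧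
      Ipt h (U.erase d) d c s (Wf P) ptd ptd' ∧ ptd s = 0 ∧
      H c d s - ptc 0 * Real.exp (-n1) - ptd 0 * Real.exp (-n2)
        ≤ dirI hb T ((U.erase c).erase d) c d σ n1 n2 := by
  have h0t : 0 ≤ t := hs.1.trans hs.2
  have sub : Icc 0 t ⊆ Icc 0 τ := Icc_subset_Icc_right htτ
  have sub' : Icc 0 s ⊆ Icc 0 t := Icc_subset_Icc_right hs.2
  have subσ : Icc 0 σ ⊆ Icc 0 τ := Icc_subset_Icc_right στ
  have cR : ∀ (X : Finset V) u, ContinuousOn (fun r => ∑ b ∈ X, T r u b) (Icc 0 τ) := fun X u =>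
    continuousOn_finsetSum _ fun b _ => Tc u b
  have R0 : ∀ (X : Finset V) u, ∀ r ∈ Icc 0 τ, 0 ≤ ∑ b ∈ X, T r u b := fun X u r hr =>
    Finset.sum_nonneg fun b _ => T0 u b r hr
  have me : ∀ {u v b : V}, b ∈ (U.erase u).erase v → b ∈ U := fun hb =>
    Finset.mem_of_mem_erase (Finset.mem_of_mem_erase hb)
  obtain ⟨p1, p1', p2, p2', p3, p3', i1, e1, i2, e2, i3, e3, z1, z2⟩ := ins_exists (U := U)
    (c := c) (d := d) hh hs (Pa := Pa) (P := P)
    (Rc := fun r => ∑ b ∈ (U.erase d).erase c, T r c b)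
    (Rd := fun r => ∑ b ∈ (U.erase c).erase d, T r d b)
    ((cR _ _).mono (sub'.trans sub)) ((cR _ _).mono sub)
    (fun r hr => R0 _ _ r (sub (sub' hr))) (fun r hr => R0 _ _ r (sub hr))
    (fun r hr => Finset.sum_le_sum fun b hb => hw.Ta r hr d hd b (me hb))
    (fun r hr => Finset.sum_le_sum fun b hb => hw.Td r hr d hd b (me hb))
    (fun r hr => Finset.sum_le_sum fun b hb => hw.Td r hr c hc b (me hb))
  refine ⟨p1, p1', p2, p2', p3, p3', i1, e1, i2, e2, i3, e3, ?_⟩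
  have cb := bc c d
  have hHb : ∀ r ∈ Icc 0 s, H c d r ≤ ∫ ρ in (0 : ℝ)..r, hb ρ c d := by
    intro r hr
    have e2 : H c d r = ∫ ρ in (0 : ℝ)..r, h ρ c d := by
      rw [intervalIntegral.integral_eq_sub_of_hasDerivAt (f := H c d) (fun r _ => hh.Hd c d r)
        ((hh.cont c d).intervalIntegrable _ _), hh.H0, sub_zero]
    rw [e2]
    refine intervalIntegral.integral_mono_on hr.1 ((hh.cont c d).intervalIntegrable _ _)
      ((cb.mono ?_).intervalIntegrable) fun ρ hρ => hle c d ρ ⟨hρ.1, hρ.2.trans (hr.2.trans hs.2)⟩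
    rw [uIcc_of_le hr.1]
    exact (Icc_subset_Icc_right (hr.2.trans hs.2)).trans sub
  have key := ins_bound (c := c) (d := d) hh hs
    (Rc := fun r => ∑ b ∈ (U.erase d).erase c, T r c b)
    (Rd := fun r => ∑ b ∈ (U.erase c).erase d, T r d b)
    ((cR _ _).mono (sub'.trans sub)) ((cR _ _).mono sub) z1 z2 (n1 := n1) (n2 := n2)
    (hb := fun r => hb r c d) (Hb := fun r => ∫ ρ in (0 : ℝ)..r, hb ρ c d)
    (Sc := fun r => ∫ ρ in (0 : ℝ)..r, ∑ b ∈ (U.erase c).erase d, T ρ c b)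
    (Sd := fun r => ∫ ρ in (0 : ℝ)..r, ∑ b ∈ (U.erase c).erase d, T ρ d b)
    le_rfl le_rfl (cb.mono (sub'.trans sub)) (prim_cont hs.1 (cb.mono (sub'.trans sub)))
    (prim_cont hs.1 ((cR _ _).mono (sub'.trans sub)))
    (prim_cont hs.1 ((cR _ _).mono (sub'.trans sub)))
    (fun r hr => hle c d r (sub' hr)) hHb
    (fun r _ => by rw [Finset.erase_right_comm]) (fun r _ => le_rfl)
  refine key.trans ?_
  exact dirI_mono hs.1 hsσ (fun r hr => b0 c d r (subσ hr)) (cb.mono subσ)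
    (fun u v => (Tc u v).mono subσ) _ _

end

/-! ### the exact data of a world -/

/-- the exact data of a world with the remaining set `U`: the first target `c` with the horizon
`τ`, the second target `d` with the horizon `σ`; all functions are indexed by the world -/
structure ExdF (U : Finset V) (τ σ : ℝ) (hb T Am Bm : ℝ → V → V → ℝ)
    (gp gp' gm gm' : Finset V → V → V → ℝ → ℝ)
    (p p' n n' q q' m m' : V → Finset V → V → ℝ → ℝ)
    (k k' : V → V → Finset V → ℝ → ℝ) : Prop where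
  σ0 : 0 ≤ σ
  στ : σ ≤ τ
  b0 : ∀ u v, ∀ r ∈ Icc 0 τ, 0 ≤ hb r u v
  bc : ∀ u v, ContinuousOn (fun r => hb r u v) (Icc 0 τ)
  T0 : ∀ u v, ∀ r ∈ Icc 0 τ, 0 ≤ T r u v
  Tc : ∀ u v, ContinuousOn (fun r => T r u v) (Icc 0 τ)
  g : S12F U τ T Am Bm gp gp' gm gm'
  c : ∀ c ∈ U, SVF (U.erase c) τ (fun r e => hb r c e) T gp gm (p c) (p' c) (n c) (n' c)
  d : ∀ d ∈ U, SVF (U.erase d) σ (fun r e => hb r d e) T gp gm (q d) (q' d) (m d) (m' d)
  k : ∀ c ∈ U, ∀ d ∈ U, c ≠ d →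
    SkF ((U.erase c).erase d) σ T (p c) (n c) (q d) (m d) (k c d) (k' c d)

/-- the set without the two targets -/
def F0 (U : Finset V) (c d : V) : Finset V := (U.erase c).erase d

/-- the exponent of the closure -/
noncomputable def LxF (U : Finset V) (σ : ℝ) (hb T : ℝ → V → V → ℝ)
    (gm : Finset V → V → V → ℝ → ℝ) (n m : V → Finset V → V → ℝ → ℝ)
    (k : V → V → Finset V → ℝ → ℝ) (c d : V) : ℝ :=
  k c d (F0 U c d) 0 + gm (F0 U c d) c d 0 + n c (F0 U c d) d 0 + m d (F0 U c d) c 0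
    + dirI hb T (F0 U c d) c d σ (n c (F0 U c d) d 0) (m d (F0 U c d) c 0)

variable {U : Finset V} {τ σ : ℝ} {hb T Am Bm : ℝ → V → V → ℝ}
    {gp gp' gm gm' : Finset V → V → V → ℝ → ℝ}
    {p p' n n' q q' m m' : V → Finset V → V → ℝ → ℝ}
    {k k' : V → V → Finset V → ℝ → ℝ}
    {h : ℝ → V → V → ℝ} {H : V → V → ℝ → ℝ} {A D : Finset V} {s t : ℝ}
    {Pa Pa' Na Na' P P' N N' : V → ℝ → ℝ} {c d : V}

/-- **the deleted closure of all times of a cell** -/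
theorem ExdF.cloD (hE : ExdF U τ σ hb T Am Bm gp gp' gm gm' p p' n n' q q' m m' k k')
    (hh : Haz h H) (hU : U = Dᶜ) (hc : c ∈ U) (hd : d ∈ U) (hcd : c ≠ d) (ht1 : t ≤ 1)
    (htτ : t ≤ τ) (hs : s ∈ Icc 0 t) (hsσ : s ≤ σ)
    (hle : ∀ u v, ∀ r ∈ Icc 0 t, h r u v ≤ hb r u v)
    (hw : W0q h A D s t U Pa Pa' Na Na' P P' N N' T Am Bm)
    (k0 : ∀ F ⊆ (U.erase c).erase d, 0 ≤ k c d F s) :
    CloD h t s A D c d (Real.exp (LxF U σ hb T gm n m k c d)) := by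
  have ht : t ∈ Icc (0 : ℝ) 1 := ⟨hs.1.trans hs.2, ht1⟩
  have hcD : c ∉ D := by rw [hU] at hc; exact Finset.mem_compl.1 hc
  have hdD : d ∉ D := by rw [hU] at hd; exact Finset.mem_compl.1 hd
  obtain ⟨p1, p1', p2, p2', p3, p3', i1, e1, i2, e2, i3, e3, z⟩ :=
    ins_gen hE.στ hE.b0 hE.bc hE.T0 hE.Tc hh hc hd htτ hs hsσ hle hw
      (n c (F0 U c d) d 0) (m d (F0 U c d) c 0)
  refine ((wldF_of hw (s12F_restr hE.g htτ) hs.2).cloD hh hcD hdD hcd ht hs hU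
    (κc := fun r e => hb r c e) (κd := fun r e => hb r d e)
    (fun r hr e _ => hle c e r hr) (fun r hr e _ => hle d e r ⟨hr.1, hr.2.trans hs.2⟩)
    (svF_restr (hE.c c hc) htτ) (svF_restr (hE.d d hd) hsσ) (skF_restr (hE.k c hc d hd hcd) hsσ)
    i1 e1 i2 e2 i3 e3 k0 rfl).mono hh ht hs ?_
  exact Real.exp_le_exp.2 (add_le_add le_rfl z)

/-- **the released closure of all times of a cell** -/
theorem ExdF.cloDt (hE : ExdF U τ σ hb T Am Bm gp gp' gm gm' p p' n n' q q' m m' k k')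
    (hh : Haz h H) (hU : U = Dᶜ) (hc : c ∈ U) (hd : d ∈ U) (hcd : c ≠ d) (ht1 : t ≤ 1)
    (htτ : t ≤ τ) (hs : s ∈ Icc 0 t) (hsσ : s ≤ σ)
    (hle : ∀ u v, ∀ r ∈ Icc 0 t, h r u v ≤ hb r u v)
    (hw : W0q h A D s t U Pa Pa' Na Na' P P' N N' T Am Bm)
    (hq : ∀ F ⊆ U.erase d, ∀ e ∈ U.erase d, e ∉ F →
      gm F d e s ≤ q d F e s ∧ gp F d e s ≤ m d F e s)
    (k0 : ∀ F ⊆ (U.erase c).erase d, p c F d s ≤ k c d F s) :
    CloDt h t s A D c d (Real.exp (LxF U σ hb T gm n m k c d)) := by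
  have ht : t ∈ Icc (0 : ℝ) 1 := ⟨hs.1.trans hs.2, ht1⟩
  have hcD : c ∉ D := by rw [hU] at hc; exact Finset.mem_compl.1 hc
  have hdD : d ∉ D := by rw [hU] at hd; exact Finset.mem_compl.1 hd
  obtain ⟨p1, p1', p2, p2', p3, p3', i1, e1, i2, e2, i3, e3, z⟩ :=
    ins_gen hE.στ hE.b0 hE.bc hE.T0 hE.Tc hh hc hd htτ hs hsσ hle hw
      (n c (F0 U c d) d 0) (m d (F0 U c d) c 0)
  refine ((wldF_of hw (s12F_restr hE.g htτ) hs.2).cloDt hh hcD hdD hcd ht hs hU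
    (κc := fun r e => hb r c e) (κd := fun r e => hb r d e)
    (fun r hr e _ => hle c e r hr) (fun r hr e _ => hle d e r ⟨hr.1, hr.2.trans hs.2⟩)
    (svF_restr (hE.c c hc) htτ) (svF_restr (hE.d d hd) hsσ) hq
    (skF_restr (hE.k c hc d hd hcd) hsσ) i1 e1 i2 e2 i3 e3 k0 rfl).mono hh ht hs ?_
  exact Real.exp_le_exp.2 (add_le_add le_rfl z)

end Pool.Agent.RZ.RCO
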