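import Mathlib

/-! Route P: the constants of a pair in a cell and a class from the solutions of the levels
(MP_73ccd0_lc). -/

namespace Pool.Agent.RZ.RCO

open Set Finset MeasureTheory

set_option linter.unusedSectionVars false

variable {V : Type*} [Fintype V] [DecidableEq V]

/-! ### monotonicity of the solutions -/

theorem anti_of {f f' : ℝ → ℝ} {a b : ℝ} (h : ∀ r ∈ Icc a b, HasDerivAt f (f' r) r)
    (h0 : ∀ r ∈ Icc a b, f' r ≤ 0) : AntitoneOn f (Icc a b) := by
  refine antitoneOn_of_deriv_nonpos (convex_Icc a b) (fun z hz =>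
    (h z hz).continuousAt.continuousWithinAt) (fun z hz => ?_) fun z hz => ?_
  · rw [interior_Icc] at hz
    exact (h z (Ioo_subset_Icc_self hz)).differentiableAt.differentiableWithinAt
  · rw [interior_Icc] at hz
    rw [(h z (Ioo_subset_Icc_self hz)).deriv]
    exact h0 z (Ioo_subset_Icc_self hz)

/-! ### the constants -/

end Pool.Agent.RZ.RCO
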