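import Pool.Agent.RZ.RCO.Ex6
import Pool.Agent.RZ.RCO.Top1

/-! Route P: level 2 by integration and monotonicity in time, functions indexed by the world
(MP_73ccd0_lc). -/

namespace Pool.Agent.RZ.RCO

open Set Finset MeasureTheory Pool.Agent.RZ.RCRSHalf Pool.Agent.RZ.RCG

set_option linter.unusedSectionVars false

variable {V : Type*} [Fintype V] [DecidableEq V]

/-! ### monotonicity in the set -/

theorem mono_sub {f : Finset V → V → ℝ} {X : Finset V}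
    (hm : ∀ F ⊆ X, ∀ e ∈ X, e ∉ F → ∀ x ∈ F, f (F.erase x) e ≤ f F e) :
    ∀ (k : ℕ) {F G : Finset V}, (G \ F).card = k → F ⊆ G → G ⊆ X → ∀ e ∈ X, e ∉ G →
      f F e ≤ f G e := by
  intro k
  induction k with
  | zero =>
    intro F G hk hFG _ e _ _
    have h1 : G \ F = ∅ := Finset.card_eq_zero.1 hk
    have h2 : G ⊆ F := Finset.sdiff_eq_empty_iff_subset.1 h1
    rw [Finset.Subset.antisymm hFG h2]
  | succ k ih =>
    intro F G hk hFG hG e he heG
    obtain ⟨x, hx⟩ : (G \ F).Nonempty := by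
      rw [← Finset.card_pos, hk]
      omega
    rw [Finset.mem_sdiff] at hx
    have h1 : (G.erase x \ F).card = k := by
      have : G.erase x \ F = (G \ F).erase x := by
        ext z
        simp only [Finset.mem_sdiff, Finset.mem_erase]
        tauto
      rw [this, Finset.card_erase_of_mem (Finset.mem_sdiff.2 hx), hk]
      omega
    have h2 : F ⊆ G.erase x := fun z hz => Finset.mem_erase.2
      ⟨fun h => hx.2 (h ▸ hz), hFG hz⟩
    exact (ih h1 h2 ((Finset.erase_subset _ _).trans hG) e he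
      fun h => heG (Finset.mem_of_mem_erase h)).trans (hm G hG e he heG x hx.1)

theorem SVF.mpS {X : Finset V} {t : ℝ} {κ : ℝ → V → ℝ} {T : ℝ → V → V → ℝ}
    {gp gm : Finset V → V → V → ℝ → ℝ} {p p' n n' : Finset V → V → ℝ → ℝ}
    (hS : SVF X t κ T gp gm p p' n n') {F G : Finset V} (hFG : F ⊆ G) (hG : G ⊆ X) {e : V}
    (he : e ∈ X) (heG : e ∉ G) {r : ℝ} (hr : r ∈ Icc 0 t) : p F e r ≤ p G e r :=
  mono_sub (f := fun F e => p F e r) (fun F hF e he heF x hx => hS.mp F hF e he heF x hx r hr) _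
    rfl hFG hG e he heG

theorem SVF.mnS {X : Finset V} {t : ℝ} {κ : ℝ → V → ℝ} {T : ℝ → V → V → ℝ}
    {gp gm : Finset V → V → V → ℝ → ℝ} {p p' n n' : Finset V → V → ℝ → ℝ}
    (hS : SVF X t κ T gp gm p p' n n') {F G : Finset V} (hFG : F ⊆ G) (hG : G ⊆ X) {e : V}
    (he : e ∈ X) (heG : e ∉ G) {r : ℝ} (hr : r ∈ Icc 0 t) : n F e r ≤ n G e r :=
  mono_sub (f := fun F e => n F e r) (fun F hF e he heF x hx => hS.mn F hF e he heF x hx r hr) _
    rfl hFG hG e he heG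

/-! ### level 2 -/

/-- the rate of level 2 on the set `F` -/
noncomputable def FkF (T : ℝ → V → V → ℝ) (pc nc pd nd : Finset V → V → ℝ → ℝ)
    (F : Finset V) (r : ℝ) : ℝ :=
  (1 / 2) * ∑ x ∈ F, ∑ y ∈ F, T r x y *
    (max ((1 - Real.exp (-pr nc F x y r)) * (Real.exp (pr pd F x y r) - 1))
      ((Real.exp (pr pc F x y r) - 1) * (1 - Real.exp (-pr nd F x y r))))

/-- the functions are monotone in the set and nonnegative -/
structure MonF (X : Finset V) (f : Finset V → V → ℝ → ℝ) (r : ℝ) : Prop where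
  nn : ∀ F e, 0 ≤ f F e r
  mo : ∀ F G, F ⊆ G → G ⊆ X → ∀ e ∈ X, e ∉ G → f F e r ≤ f G e r

theorem MonF.pr {X : Finset V} {f : Finset V → V → ℝ → ℝ} {r : ℝ} (h : MonF X f r)
    {F G : Finset V} (hFG : F ⊆ G) (hG : G ⊆ X) {x y : V} (hx : x ∈ G) (hy : y ∈ G) :
    RCO.pr f F x y r ≤ RCO.pr f G x y r := by
  unfold RCO.pr
  have s1 : F.erase x ⊆ G.erase x := Finset.erase_subset_erase _ hFG
  have s2 : G.erase x ⊆ X := (Finset.erase_subset _ _).trans hG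
  exact add_le_add (h.mo _ _ s1 s2 x (hG hx) (Finset.notMem_erase _ _))
    (h.mo _ _ (Finset.erase_subset_erase _ s1) ((Finset.erase_subset _ _).trans s2) y (hG hy)
      (Finset.notMem_erase _ _))

theorem MonF.prn {X : Finset V} {f : Finset V → V → ℝ → ℝ} {r : ℝ} (h : MonF X f r)
    (F : Finset V) (x y : V) : 0 ≤ RCO.pr f F x y r := add_nonneg (h.nn _ _) (h.nn _ _)

theorem fk_term_nonneg {a b c d : ℝ} (ha : 0 ≤ a) (hb : 0 ≤ b) :
    0 ≤ max ((1 - Real.exp (-a)) * (Real.exp b - 1)) ((Real.exp c - 1) * (1 - Real.exp (-d))) :=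
  le_max_of_le_left (mul_nonneg (ge1 ha) (ge2 hb))

theorem FkF_nonneg {X : Finset V} {T : ℝ → V → V → ℝ} {pc nc pd nd : Finset V → V → ℝ → ℝ}
    {r : ℝ} (T0 : ∀ u v, 0 ≤ T r u v) (h2 : MonF X nc r) (h3 : MonF X pd r) (F : Finset V) :
    0 ≤ FkF T pc nc pd nd F r :=
  mul_nonneg (by norm_num) (Finset.sum_nonneg fun x _ => Finset.sum_nonneg fun y _ =>
    mul_nonneg (T0 x y) (fk_term_nonneg (h2.prn _ _ _) (h3.prn _ _ _)))

theorem FkF_mono {X : Finset V} {T : ℝ → V → V → ℝ} {pc nc pd nd : Finset V → V → ℝ → ℝ}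
    {r : ℝ} (T0 : ∀ u v, 0 ≤ T r u v) (h1 : MonF X pc r) (h2 : MonF X nc r) (h3 : MonF X pd r)
    (h4 : MonF X nd r) {F G : Finset V} (hFG : F ⊆ G) (hG : G ⊆ X) :
    FkF T pc nc pd nd F r ≤ FkF T pc nc pd nd G r := by
  have ex : ∀ {a b : ℝ}, a ≤ b → 1 - Real.exp (-a) ≤ 1 - Real.exp (-b) := fun {a b} hab => by
    have := Real.exp_le_exp.2 (neg_le_neg hab)
    linarith
  have ex' : ∀ {a b : ℝ}, a ≤ b → Real.exp a - 1 ≤ Real.exp b - 1 := fun {a b} hab => by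
    have := Real.exp_le_exp.2 hab
    linarith
  refine mul_le_mul_of_nonneg_left ?_ (by norm_num)
  refine (Finset.sum_le_sum fun x hx => Finset.sum_le_sum fun y hy =>
    mul_le_mul_of_nonneg_left (?_ : _ ≤
      max ((1 - Real.exp (-pr nc G x y r)) * (Real.exp (pr pd G x y r) - 1))
        ((Real.exp (pr pc G x y r) - 1) * (1 - Real.exp (-pr nd G x y r)))) (T0 x y)).trans ?_
  · refine max_le_max ?_ ?_
    · exact mul_le_mul (ex (h2.pr hFG hG (hFG hx) (hFG hy)))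
        (ex' (h3.pr hFG hG (hFG hx) (hFG hy)))
        (ge2 (h3.prn _ _ _)) (ge1 (h2.prn _ _ _))
    · exact mul_le_mul (ex' (h1.pr hFG hG (hFG hx) (hFG hy)))
        (ex (h4.pr hFG hG (hFG hx) (hFG hy)))
        (ge1 (h4.prn _ _ _)) (ge2 (h1.prn _ _ _))
  · have nn : ∀ x y, 0 ≤ T r x y *
        max ((1 - Real.exp (-pr nc G x y r)) * (Real.exp (pr pd G x y r) - 1))
          ((Real.exp (pr pc G x y r) - 1) * (1 - Real.exp (-pr nd G x y r))) := fun x y =>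
      mul_nonneg (T0 x y) (fk_term_nonneg (h2.prn _ _ _) (h3.prn _ _ _))
    refine (Finset.sum_le_sum fun x _ => Finset.sum_le_sum_of_subset_of_nonneg hFG
      fun y _ _ => nn x y).trans ?_
    exact Finset.sum_le_sum_of_subset_of_nonneg hFG fun x _ _ => Finset.sum_nonneg fun y _ => nn x y

theorem pr_cont {X : Finset V} {σ : ℝ} {f : Finset V → V → ℝ → ℝ}
    (hf : ∀ F ⊆ X, ∀ e ∈ X, e ∉ F → ContinuousOn (f F e) (Icc 0 σ)) {F : Finset V} (hF : F ⊆ X)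
    {x y : V} (hx : x ∈ F) (hy : y ∈ F) : ContinuousOn (pr f F x y) (Icc 0 σ) := by
  have s1 : F.erase x ⊆ X := (Finset.erase_subset _ _).trans hF
  exact (hf _ s1 x (hF hx) (Finset.notMem_erase _ _)).add
    (hf _ ((Finset.erase_subset _ _).trans s1) y (hF hy) (Finset.notMem_erase _ _))

theorem FkF_cont {X : Finset V} {σ : ℝ} {T : ℝ → V → V → ℝ}
    {pc nc pd nd : Finset V → V → ℝ → ℝ}
    (Tc : ∀ u v, ContinuousOn (fun r => T r u v) (Icc 0 σ))
    (c1 : ∀ F ⊆ X, ∀ e ∈ X, e ∉ F → ContinuousOn (pc F e) (Icc 0 σ))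
    (c2 : ∀ F ⊆ X, ∀ e ∈ X, e ∉ F → ContinuousOn (nc F e) (Icc 0 σ))
    (c3 : ∀ F ⊆ X, ∀ e ∈ X, e ∉ F → ContinuousOn (pd F e) (Icc 0 σ))
    (c4 : ∀ F ⊆ X, ∀ e ∈ X, e ∉ F → ContinuousOn (nd F e) (Icc 0 σ)) {F : Finset V}
    (hF : F ⊆ X) : ContinuousOn (FkF T pc nc pd nd F) (Icc 0 σ) := by
  refine continuousOn_const.mul (continuousOn_finsetSum _ fun x hx =>
    continuousOn_finsetSum _ fun y hy => (Tc x y).mul (ContinuousOn.sup ?_ ?_))
  · exact (continuousOn_const.sub (Real.continuous_exp.comp_continuousOn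
      ((pr_cont c2 hF hx hy).neg))).mul ((Real.continuous_exp.comp_continuousOn
      (pr_cont c3 hF hx hy)).sub continuousOn_const)
  · exact ((Real.continuous_exp.comp_continuousOn
      (pr_cont c1 hF hx hy)).sub continuousOn_const).mul
      (continuousOn_const.sub (Real.continuous_exp.comp_continuousOn
      ((pr_cont c4 hF hx hy).neg)))

/-- level 2 by integration of the rate on the full set, from the end value `e` -/
theorem skF_bk {X : Finset V} {σ : ℝ} (σ0 : 0 ≤ σ) {T : ℝ → V → V → ℝ}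
    {pc nc pd nd : Finset V → V → ℝ → ℝ} (T0 : ∀ u v, ∀ r ∈ Icc 0 σ, 0 ≤ T r u v)
    (h1 : ∀ r ∈ Icc 0 σ, MonF X pc r) (h2 : ∀ r ∈ Icc 0 σ, MonF X nc r)
    (h3 : ∀ r ∈ Icc 0 σ, MonF X pd r) (h4 : ∀ r ∈ Icc 0 σ, MonF X nd r)
    (hc : ContinuousOn (FkF T pc nc pd nd X) (Icc 0 σ)) (e : ℝ) :
    SkF X σ T pc nc pd nd (fun _ r => e + RCM.bk (FkF T pc nc pd nd X) σ r)
      (fun _ r => -FkF T pc nc pd nd X r) :=
  ⟨fun _ _ r hr => (RCM.bk_deriv σ0 hc hr).const_add e, fun _ _ _ _ _ _ => le_rfl,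
    fun F hF r hr => by
      rw [neg_neg]
      exact FkF_mono (fun u v => T0 u v r hr) (h1 r hr) (h2 r hr) (h3 r hr) (h4 r hr) hF
        subset_rfl⟩

theorem svF_cont {X : Finset V} {t : ℝ} {κ : ℝ → V → ℝ} {T : ℝ → V → V → ℝ}
    {gp gm : Finset V → V → V → ℝ → ℝ} {p p' n n' : Finset V → V → ℝ → ℝ}
    (hS : SVF X t κ T gp gm p p' n n') {F : Finset V} (hF : F ⊆ X) {e : V} (he : e ∈ X)
    (heF : e ∉ F) : ContinuousOn (p F e) (Icc 0 t) ∧ ContinuousOn (n F e) (Icc 0 t) :=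
  ⟨fun r hr => (hS.dp F hF e he heF r hr).continuousAt.continuousWithinAt,
    fun r hr => (hS.dn F hF e he heF r hr).continuousAt.continuousWithinAt⟩

theorem monF_p {X X' : Finset V} {t : ℝ} {κ : ℝ → V → ℝ} {T : ℝ → V → V → ℝ}
    {gp gm : Finset V → V → V → ℝ → ℝ} {p p' n n' : Finset V → V → ℝ → ℝ}
    (hS : SVF X t κ T gp gm p p' n n') (hX : X' ⊆ X) {r : ℝ} (hr : r ∈ Icc 0 t) : MonF X' p r :=
  ⟨fun F e => hS.p0 F e r hr, fun _ _ hFG hG _ he heG => hS.mpS hFG (hG.trans hX) (hX he) heG hr⟩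

theorem monF_n {X X' : Finset V} {t : ℝ} {κ : ℝ → V → ℝ} {T : ℝ → V → V → ℝ}
    {gp gm : Finset V → V → V → ℝ → ℝ} {p p' n n' : Finset V → V → ℝ → ℝ}
    (hS : SVF X t κ T gp gm p p' n n') (hX : X' ⊆ X) {r : ℝ} (hr : r ∈ Icc 0 t) : MonF X' n r :=
  ⟨fun F e => hS.n0 F e r hr, fun _ _ hFG hG _ he heG => hS.mnS hFG (hG.trans hX) (hX he) heG hr⟩

/-- **the exact data from levels 1/2 and 1**: level 2 is the integral with the end values
`E c d` -/
theorem exd_ofF {U : Finset V} {τ σ : ℝ} {hb T Am Bm : ℝ → V → V → ℝ}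
    {gp gp' gm gm' : Finset V → V → V → ℝ → ℝ}
    {p p' n n' q q' m m' : V → Finset V → V → ℝ → ℝ}
    (σ0 : 0 ≤ σ) (στ : σ ≤ τ) (b0 : ∀ u v, ∀ r ∈ Icc 0 τ, 0 ≤ hb r u v)
    (bc : ∀ u v, ContinuousOn (fun r => hb r u v) (Icc 0 τ))
    (T0 : ∀ u v, ∀ r ∈ Icc 0 τ, 0 ≤ T r u v)
    (Tc : ∀ u v, ContinuousOn (fun r => T r u v) (Icc 0 τ))
    (g : S12F U τ T Am Bm gp gp' gm gm')
    (hc : ∀ c ∈ U, SVF (U.erase c) τ (fun r e => hb r c e) T gp gm (p c) (p' c) (n c) (n' c))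
    (hd : ∀ d ∈ U, SVF (U.erase d) σ (fun r e => hb r d e) T gp gm (q d) (q' d) (m d) (m' d))
    (E : V → V → ℝ) :
    ExdF U τ σ hb T Am Bm gp gp' gm gm' p p' n n' q q' m m'
      (fun c d _ r => E c d + RCM.bk (FkF T (p c) (n c) (q d) (m d) (F0 U c d)) σ r)
      (fun c d _ r => -FkF T (p c) (n c) (q d) (m d) (F0 U c d) r) := by
  have sub : Icc 0 σ ⊆ Icc 0 τ := Icc_subset_Icc_right στ
  have i1 : ∀ c d, F0 U c d ⊆ U.erase c := fun c d => Finset.erase_subset _ _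
  have i2 : ∀ c d, F0 U c d ⊆ U.erase d := fun c d => by
    unfold F0
    rw [Finset.erase_right_comm]
    exact Finset.erase_subset _ _
  refine ⟨σ0, στ, b0, bc, T0, Tc, g, hc, hd, fun c hcU d hdU _ => skF_bk σ0
    (fun u v r hr => T0 u v r (sub hr)) (fun r hr => monF_p (hc c hcU) (i1 c d) (sub hr))
    (fun r hr => monF_n (hc c hcU) (i1 c d) (sub hr))
    (fun r hr => monF_p (hd d hdU) (i2 c d) hr) (fun r hr => monF_n (hd d hdU) (i2 c d) hr)
    (FkF_cont (X := F0 U c d) (fun u v => (Tc u v).mono sub)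
      (fun F hF e he heF => ((svF_cont (hc c hcU) (hF.trans (i1 c d)) (i1 c d he) heF).1).mono sub)
      (fun F hF e he heF => ((svF_cont (hc c hcU) (hF.trans (i1 c d)) (i1 c d he) heF).2).mono sub)
      (fun F hF e he heF => (svF_cont (hd d hdU) (hF.trans (i2 c d)) (i2 c d he) heF).1)
      (fun F hF e he heF => (svF_cont (hd d hdU) (hF.trans (i2 c d)) (i2 c d he) heF).2)
      subset_rfl) _⟩

/-! ### monotonicity in time -/

theorem s12F_anti {U : Finset V} {τ : ℝ} {T A B : ℝ → V → V → ℝ}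
    {gp gp' gm gm' : Finset V → V → V → ℝ → ℝ}
    (hS : S12F U τ T A B gp gp' gm gm') (T0 : ∀ u v, ∀ r ∈ Icc 0 τ, 0 ≤ T r u v)
    (A0 : ∀ u ∈ U, ∀ v ∈ U, ∀ r ∈ Icc 0 τ, 0 ≤ A r u v)
    (B0 : ∀ u ∈ U, ∀ v ∈ U, ∀ r ∈ Icc 0 τ, 0 ≤ B r u v) {F : Finset V} {i j : V}
    (hv : VP U F i j) :
    AntitoneOn (gp F i j) (Icc 0 τ) ∧ AntitoneOn (gm F i j) (Icc 0 τ) := by
  have nn : ∀ {z : ℝ}, 0 ≤ z → 0 ≤ 1 - Real.exp (-z) := fun {z} hz => ge1 hz
  constructor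
  · refine anti_of (fun r hr => hS.dp F i j hv r hr) fun r hr => ?_
    have h := hS.op F i j hv r hr
    have g1 := fun G a b => hS.gp0 G a b r hr
    have g2 := fun G a b => hS.gm0 G a b r hr
    have h1 := A0 i hv.2.1 j hv.2.2.1 r hr
    have h2 : 0 ≤ ∑ b ∈ F, T r i b * (1 - Real.exp (-gm (F.erase b) j b r)) :=
      Finset.sum_nonneg fun b _ => mul_nonneg (T0 _ _ r hr) (nn (g2 _ _ _))
    have h3 : 0 ≤ ∑ b ∈ F, T r j b * (1 - Real.exp (-gm (F.erase b) i b r)) :=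
      Finset.sum_nonneg fun b _ => mul_nonneg (T0 _ _ r hr) (nn (g2 _ _ _))
    have h4 : 0 ≤ (1 / 2) * ∑ x ∈ F, ∑ y ∈ F, T r x y *
      (max ((1 - Real.exp (-(gp (F.erase x) j x r + gp ((F.erase x).erase y) j y r)))
          * (1 - Real.exp (-(gp (F.erase x) i x r + gp ((F.erase x).erase y) i y r))))
        ((1 - Real.exp (-(gm (F.erase x) j x r + gm ((F.erase x).erase y) j y r)))
          * (1 - Real.exp (-(gm (F.erase x) i x r + gm ((F.erase x).erase y) i y r))))) :=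
      mul_nonneg (by norm_num) (Finset.sum_nonneg fun x _ => Finset.sum_nonneg fun y _ =>
        mul_nonneg (T0 _ _ r hr) (le_max_of_le_left (mul_nonneg
          (nn (add_nonneg (g1 _ _ _) (g1 _ _ _))) (nn (add_nonneg (g1 _ _ _) (g1 _ _ _))))))
    unfold opF at h
    linarith
  · refine anti_of (fun r hr => hS.dm F i j hv r hr) fun r hr => ?_
    have h := hS.om F i j hv r hr
    have g1 := fun G a b => hS.gp0 G a b r hr
    have g2 := fun G a b => hS.gm0 G a b r hr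
    have h1 := B0 i hv.2.1 j hv.2.2.1 r hr
    have h2 : 0 ≤ ∑ b ∈ F, T r i b * (1 - Real.exp (-gp (F.erase b) j b r)) :=
      Finset.sum_nonneg fun b _ => mul_nonneg (T0 _ _ r hr) (nn (g1 _ _ _))
    have h3 : 0 ≤ ∑ b ∈ F, T r j b * (1 - Real.exp (-gp (F.erase b) i b r)) :=
      Finset.sum_nonneg fun b _ => mul_nonneg (T0 _ _ r hr) (nn (g1 _ _ _))
    have h4 : 0 ≤ (1 / 2) * ∑ x ∈ F, ∑ y ∈ F, T r x y *
      (max ((1 - Real.exp (-(gp (F.erase x) j x r + gp ((F.erase x).erase y) j y r)))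
          * (1 - Real.exp (-(gm (F.erase x) i x r + gm ((F.erase x).erase y) i y r))))
        ((1 - Real.exp (-(gm (F.erase x) j x r + gm ((F.erase x).erase y) j y r)))
          * (1 - Real.exp (-(gp (F.erase x) i x r + gp ((F.erase x).erase y) i y r))))) :=
      mul_nonneg (by norm_num) (Finset.sum_nonneg fun x _ => Finset.sum_nonneg fun y _ =>
        mul_nonneg (T0 _ _ r hr) (le_max_of_le_left (mul_nonneg
          (nn (add_nonneg (g1 _ _ _) (g1 _ _ _))) (nn (add_nonneg (g2 _ _ _) (g2 _ _ _))))))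
    unfold omF at h
    linarith

theorem svF_anti {X : Finset V} {t : ℝ} {κ : ℝ → V → ℝ} {T : ℝ → V → V → ℝ}
    {gp gm : Finset V → V → V → ℝ → ℝ} {p p' n n' : Finset V → V → ℝ → ℝ}
    (hS : SVF X t κ T gp gm p p' n n')
    (T0 : ∀ u v, ∀ r ∈ Icc 0 t, 0 ≤ T r u v) (κ0 : ∀ e ∈ X, ∀ r ∈ Icc 0 t, 0 ≤ κ r e)
    (gp0 : ∀ F i j, ∀ r ∈ Icc 0 t, 0 ≤ gp F i j r) (gm0 : ∀ F i j, ∀ r ∈ Icc 0 t, 0 ≤ gm F i j r)
    {F : Finset V} (hF : F ⊆ X) {e : V} (he : e ∈ X) (heF : e ∉ F) :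
    AntitoneOn (p F e) (Icc 0 t) ∧ AntitoneOn (n F e) (Icc 0 t) := by
  have pn : ∀ G x y, ∀ r ∈ Icc 0 t, 0 ≤ pr n G x y r := fun G x y r hr =>
    add_nonneg (hS.n0 _ _ r hr) (hS.n0 _ _ r hr)
  have gg : ∀ {g : Finset V → V → V → ℝ → ℝ}, (∀ F i j, ∀ r ∈ Icc 0 t, 0 ≤ g F i j r) →
      ∀ G a x y, ∀ r ∈ Icc 0 t, 0 ≤ pg g G a x y r := fun hg G a x y r hr =>
    add_nonneg (hg _ _ _ r hr) (hg _ _ _ r hr)
  constructor
  · refine anti_of (fun r hr => hS.dp F hF e he heF r hr) fun r hr => ?_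
    have h := hS.op F hF e he heF r hr
    have h1 := κ0 e he r hr
    have h2 : 0 ≤ ∑ b ∈ F, T r e b * (1 - Real.exp (-n (F.erase b) b r)) :=
      Finset.sum_nonneg fun b _ => mul_nonneg (T0 _ _ r hr) (ge1 (hS.n0 _ _ r hr))
    have h4 : 0 ≤ (1 / 2) * ∑ x ∈ F, ∑ y ∈ F, T r x y *
          (max ((1 - Real.exp (-pr n F x y r)) * (1 - Real.exp (-pg gm F e x y r)))
            ((Real.exp (pr p F x y r) - 1) * (1 - Real.exp (-pg gp F e x y r)))) :=
      mul_nonneg (by norm_num) (Finset.sum_nonneg fun x _ => Finset.sum_nonneg fun y _ =>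
        mul_nonneg (T0 _ _ r hr) (le_max_of_le_left (mul_nonneg (ge1 (pn F x y r hr))
          (ge1 (gg gm0 F e x y r hr)))))
    linarith
  · refine anti_of (fun r hr => hS.dn F hF e he heF r hr) fun r hr => ?_
    have h := hS.on F hF e he heF r hr
    have h2 : 0 ≤ ∑ b ∈ F, T r e b * (Real.exp (p (F.erase b) b r) - 1) :=
      Finset.sum_nonneg fun b _ => mul_nonneg (T0 _ _ r hr) (ge2 (hS.p0 _ _ r hr))
    have h4 : 0 ≤ (1 / 2) * ∑ x ∈ F, ∑ y ∈ F, T r x y *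
          (max ((1 - Real.exp (-pr n F x y r)) * (1 - Real.exp (-pg gp F e x y r)))
            ((Real.exp (pr p F x y r) - 1) * (1 - Real.exp (-pg gm F e x y r)))) :=
      mul_nonneg (by norm_num) (Finset.sum_nonneg fun x _ => Finset.sum_nonneg fun y _ =>
        mul_nonneg (T0 _ _ r hr) (le_max_of_le_left (mul_nonneg (ge1 (pn F x y r hr))
          (ge1 (gg gp0 F e x y r hr)))))
    linarith

end Pool.Agent.RZ.RCO
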