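import Pool.Agent.RZ.RCO.Hl4

/-! Level 1 indexed by the world: the data of the linear bounds from bounds of the entries
(MP_73ccd0_lc). -/

namespace Pool.Agent.RZ.RCO

open Set Finset Pool.Agent.RZ.RCRSHalf Pool.Agent.RZ.RCRSGen Pool.Agent.RZ.RCG Pool.Agent.RZ.RCM

set_option linter.unusedSectionVars false

variable {V : Type*} [Fintype V] [DecidableEq V]

variable {U : Finset V} {T : V → V → ℝ} {gp gm H N : Finset V → V → V → ℝ} {u : IxF V → ℝ}

/-- the signs, symmetries and monotonicities needed for the linear bounds -/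
structure SeF (U : Finset V) (T : V → V → ℝ) (gp gm H N : Finset V → V → V → ℝ)
    (u : IxF V → ℝ) : Prop where
  T0 : ∀ x y, 0 ≤ T x y
  Ts : ∀ x y, T x y = T y x
  Tz : ∀ x, T x x = 0
  H0 : ∀ F c e, 0 ≤ H F c e
  N0 : ∀ F c e, 0 ≤ N F c e
  gp0 : ∀ F x y, 0 ≤ gp F x y
  gm0 : ∀ F x y, 0 ≤ gm F x y
  gps : ∀ F x y, gp F x y = gp F y x
  gms : ∀ F x y, gm F x y = gm F y x
  mgp : ∀ i, MF U i fun F j => gp F i j
  mgm : ∀ i, MF U i fun F j => gm F i j
  mH : ∀ c, MF U c fun F e => H F c e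
  mN : ∀ c, MF U c fun F e => N F c e
  u0 : ∀ q, 0 ≤ u q
  mu : ∀ s c, MF U c fun F e => u (s, F, c, e)

/-- the signs from the environment of the system and the basic invariant -/
theorem SgF.seF {τ : ℝ} {T : ℝ → V → V → ℝ} {gp gm H N : Finset V → V → V → ℝ → ℝ}
    (hs : SgF U τ T gp gm H N) (Ts : ∀ r x y, T r x y = T r y x) (Tz : ∀ r x, T r x x = 0)
    {r : ℝ} (hr : r ∈ Icc 0 τ) (gps : ∀ F x y, gp F x y r = gp F y x r)
    (gms : ∀ F x y, gm F x y r = gm F y x r) {u : IxF V → ℝ} (hu : B0F U u) :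
    SeF U (T r) (fun F x y => gp F x y r) (fun F x y => gm F x y r) (fun F c e => H F c e r)
      (fun F c e => N F c e r) u where
  T0 := hs.T0 r hr
  Ts := Ts r
  Tz := Tz r
  H0 := fun F c e => hs.H0 F c e r hr
  N0 := fun F c e => hs.N0 F c e r hr
  gp0 := fun F x y => hs.gp0 F x y r hr
  gm0 := fun F x y => hs.gm0 F x y r hr
  gps := gps
  gms := gms
  mgp := fun i => hs.mgp i r hr
  mgm := fun i => hs.mgm i r hr
  mH := fun c => hs.mH c r hr
  mN := fun c => hs.mN c r hr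
  u0 := hu.1
  mu := hu.2.2

theorem pq_add (f g : Finset V → V → ℝ) (F : Finset V) (x y : V) :
    pq (fun G z => f G z + g G z) F x y = pq f F x y + pq g F x y := by
  unfold pq; ring

theorem pq_smul (k : ℝ) (f : Finset V → V → ℝ) (F : Finset V) (x y : V) :
    pq (fun G z => k * f G z) F x y = k * pq f F x y := by
  unfold pq; ring

theorem pq_puF (H : Finset V → V → V → ℝ) (u : IxF V → ℝ) (c : V) (F : Finset V) (x y : V) :
    pq (puF H u c) F x y
      = pq (fun G z => H G c z) F x y + pq (fun G z => u (true, G, c, z)) F x y := by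
  unfold pq puF; ring

theorem pq_nn {f : Finset V → V → ℝ} (f0 : ∀ G z, 0 ≤ f G z) (F : Finset V) (x y : V) :
    0 ≤ pq f F x y := add_nonneg (f0 _ _) (f0 _ _)

/-! ### pair functions -/

/-! ### entries from the sums -/

theorem TgF.entry {f : V → V → ℝ} {P Q : V → Finset V → ℝ} (h : TgF U f P Q u)
    (u0 : ∀ i, 0 ≤ u i) (f0 : ∀ e ∈ U, ∀ c ∈ U, 0 ≤ f e c) {F : Finset V} {c e : V}
    (hv : VP U F c e) : f e c * u (true, F, c, e) ≤ P e (insert c F) ∧
      f e c * u (false, F, c, e) ≤ Q e (insert c F) := by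
  obtain ⟨hF, hc, he, hcF, heF, hce⟩ := hv
  have hF' : insert c F ⊆ U := Finset.insert_subset hc hF
  have heF' : e ∉ insert c F := by
    rw [Finset.mem_insert]; rintro (h | h)
    · exact hce h.symm
    · exact heF h
  have key : ∀ b : Bool, f e c * u (b, F, c, e)
      ≤ ∑ c' ∈ insert c F, f e c' * u (b, (insert c F).erase c', c', e) := fun b => by
    have h1 := Finset.single_le_sum
      (f := fun c' => f e c' * u (b, (insert c F).erase c', c', e))
      (fun c' hc' => mul_nonneg (f0 e he c' (hF' hc')) (u0 _)) (Finset.mem_insert_self c F)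
    simpa only [Finset.erase_insert hcF] using h1
  obtain ⟨h1, h2⟩ := h e he (insert c F) hF' heF'
  exact ⟨(key true).trans h1, (key false).trans h2⟩

/-- two positions of one world -/
theorem PgF.entry2 {w : V → V → ℝ} {P Q : V → Finset V → ℝ} (h : PgF U w P Q u)
    (u0 : ∀ i, 0 ≤ u i) (mu : ∀ s c, MF U c fun F e => u (s, F, c, e))
    (w0 : ∀ c ∈ U, ∀ e ∈ U, 0 ≤ w c e) {F : Finset V} (hF : F ⊆ U) {c : V} (hc : c ∈ U)
    (hcF : c ∉ F) {x y : V} (hx : x ∈ F) (hy : y ∈ F) (hxy : x ≠ y) :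
    w c x * u (true, F.erase x, c, x) + w c y * u (true, (F.erase x).erase y, c, y) ≤ P c F ∧
      w c x * u (false, F.erase x, c, x) + w c y * u (false, (F.erase x).erase y, c, y)
        ≤ Q c F := by
  have key : ∀ b : Bool, w c x * u (b, F.erase x, c, x)
      + w c y * u (b, (F.erase x).erase y, c, y)
      ≤ ∑ z ∈ F, w c z * u (b, F.erase z, c, z) := fun b => by
    have h1 : w c x * u (b, F.erase x, c, x) + w c y * u (b, F.erase y, c, y)
        = ∑ z ∈ {x, y}, w c z * u (b, F.erase z, c, z) := by rw [Finset.sum_pair hxy]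
    have h2 : u (b, (F.erase x).erase y, c, y) ≤ u (b, F.erase y, c, y) :=
      mu b c (F.erase y) ((F.erase x).erase y) y (by
        rw [Finset.erase_right_comm]; exact Finset.erase_subset _ _)
        ⟨(Finset.erase_subset _ _).trans hF, hc, hF hy, fun h => hcF (Finset.mem_of_mem_erase h),
          Finset.notMem_erase _ _, fun h => hcF (h ▸ hy)⟩
    have h3 := mul_le_mul_of_nonneg_left h2 (w0 c hc y (hF hy))
    refine le_trans (add_le_add le_rfl h3) ?_
    rw [h1]
    refine Finset.sum_le_sum_of_subset_of_nonneg ?_ fun z hz _ =>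
      mul_nonneg (w0 c hc z (hF hz)) (u0 _)
    intro z hz
    rcases Finset.mem_insert.1 hz with h | h
    · rw [h]; exact hx
    · rw [Finset.mem_singleton.1 h]; exact hy
  obtain ⟨h1, h2⟩ := h c hc F hF hcF
  exact ⟨(key true).trans h1, (key false).trans h2⟩

/-- the pair of tails from the position sums with weights at least `wm` -/
theorem PgF.pq_le {w : V → V → ℝ} {P Q : V → Finset V → ℝ} (h : PgF U w P Q u)
    (u0 : ∀ i, 0 ≤ u i) (mu : ∀ s c, MF U c fun F e => u (s, F, c, e)) {wm : ℝ} (hwm : 0 < wm)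
    {F : Finset V} (hF : F ⊆ U) {c : V} (hc : c ∈ U)
    (hcF : c ∉ F) (w1 : ∀ c ∈ U, ∀ e ∈ U, 0 ≤ w c e) {x y : V} (hx : x ∈ F) (hy : y ∈ F)
    (hxy : x ≠ y) (wx : wm ≤ w c x) (wy : wm ≤ w c y) :
    pq (fun G z => u (true, G, c, z)) F x y ≤ P c F / wm := by
  have h1 := (h.entry2 u0 mu w1 hF hc hcF hx hy hxy).1
  rw [le_div_iff₀ hwm]
  have h2 := mul_le_mul_of_nonneg_right wx (u0 (true, F.erase x, c, x))
  have h3 := mul_le_mul_of_nonneg_right wy (u0 (true, (F.erase x).erase y, c, y))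
  unfold pq
  linarith

/-- one entry from the target sums with weight at least `fm` -/
theorem TgF.entry_le {f : V → V → ℝ} {P Q : V → Finset V → ℝ} (h : TgF U f P Q u)
    (u0 : ∀ i, 0 ≤ u i) (f0 : ∀ e ∈ U, ∀ c ∈ U, 0 ≤ f e c) {F : Finset V} {c e : V}
    (hv : VP U F c e) {fm : ℝ} (hfm : 0 < fm) (hf : fm ≤ f e c) :
    u (true, F, c, e) ≤ P e (insert c F) / fm ∧ u (false, F, c, e) ≤ Q e (insert c F) / fm := by
  obtain ⟨h1, h2⟩ := h.entry u0 f0 hv
  rw [le_div_iff₀ hfm, le_div_iff₀ hfm]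
  exact ⟨by nlinarith [mul_le_mul_of_nonneg_right hf (u0 (true, F, c, e))],
    by nlinarith [mul_le_mul_of_nonneg_right hf (u0 (false, F, c, e))]⟩

end Pool.Agent.RZ.RCO
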