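import Pool.Agent.RZ.RCO.Ex10_1
import Pool.Agent.RZ.RCO.Hl5
import Pool.Agent.RZ.RCO.Hm1

/-! Level 1 indexed by the world: the sums of the end values of the released functions from the row
bounds of level 1/2 (MP_73ccd0_lc). -/

namespace Pool.Agent.RZ.RCO

open Set Finset MeasureTheory Pool.Agent.RZ.RCRSHalf Pool.Agent.RZ.RCG Pool.Agent.RZ.RCG.Ct
open Pool.Agent.RZ.RCN Pool.Agent.RZ.RCN.K

set_option linter.unusedSectionVars false

variable {V : Type*} [Fintype V] [DecidableEq V] {Λ : Type*} [Fintype Λ]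

/-- an end value: nonnegative, symmetric, monotone in the world, with weighted row bounds -/
structure RowE (U : Finset V) (wr : Λ → V → V → ℝ) (φ : Λ → V → Finset V → ℝ)
    (g : Finset V → V → V → ℝ) : Prop where
  g0 : ∀ F i j, 0 ≤ g F i j
  gs : ∀ F i j, g F i j = g F j i
  mg : ∀ i, MF U i fun F j => g F i j
  row : ∀ l, ∀ i ∈ U, ∀ F ⊆ U, i ∉ F → ∑ j ∈ F, wr l i j * g (F.erase j) i j ≤ φ l i F

section sums

variable {U : Finset V} {wr : Λ → V → V → ℝ} {φ : Λ → V → Finset V → ℝ}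
  {g X X0 : Finset V → V → V → ℝ} {F : Finset V} {f : V → ℝ} {a : Λ → ℝ} {L K : ℝ}

/-- position sums of an end value: the weights `f` are at most a combination of the row weights -/
theorem RowE.pos (h : RowE U wr φ g) {c : V} (hc : c ∈ U) (hF : F ⊆ U) (hcF : c ∉ F)
    (a0 : ∀ m, 0 ≤ a m) (hf : ∀ e ∈ F, f e ≤ ∑ m, a m * wr m c e) :
    ∑ e ∈ F, f e * g (F.erase e) c e ≤ ∑ m, a m * φ m c F := by
  have k := comb_le (U := F) (G := a) (W := fun m e => wr m c e) (K := f)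
    (g := fun e => g (F.erase e) c e) (F := fun m => φ m c F) a0 (fun e _ => h.g0 _ _ _) hf
    (fun m => h.row m c hc F hF hcF)
  refine le_trans (le_of_eq ?_) k
  exact Finset.sum_congr rfl fun e _ => mul_comm _ _

/-- double position sums of an end value -/
theorem RowE.pos2 (h : RowE U wr φ g) {T : V → V → ℝ} (T0 : ∀ x y, 0 ≤ T x y) {c : V}
    (hc : c ∈ U) (hF : F ⊆ U) (hcF : c ∉ F) (a0 : ∀ m, 0 ≤ a m) (f0 : ∀ e ∈ F, 0 ≤ f e)
    (hf : ∀ x ∈ F, ∑ e ∈ F.erase x, f e * T e x ≤ ∑ m, a m * wr m c x) :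
    ∑ e ∈ F, f e * ∑ b ∈ F.erase e, T e b * g ((F.erase e).erase b) c b
      ≤ ∑ m, a m * φ m c F := by
  have k := posF_one (U := U) (T := T) (F := F) (c := c) (wl := f)
    (n := fun G b => g G c b) T0 hF hc hcF f0 (q := fun G b => g G c b)
    (fun G b => h.g0 _ _ _) (h.mg c) (fun e _ b _ => le_rfl)
  refine k.trans ?_
  have k2 := h.pos hc hF hcF a0 hf
  refine le_trans (le_of_eq ?_) k2
  exact Finset.sum_congr rfl fun e _ => mul_comm _ _

/-- the pair of two positions of one world, weights at least `wm` -/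
theorem RowE.pq_le (h : RowE U wr φ g) {c : V} (hc : c ∈ U) (hF : F ⊆ U) (hcF : c ∉ F) (l : Λ)
    (w0 : ∀ j ∈ F, 0 ≤ wr l c j) {wm : ℝ} (hwm : 0 < wm) {x y : V} (hx : x ∈ F) (hy : y ∈ F)
    (hxy : x ≠ y) (wx : wm ≤ wr l c x) (wy : wm ≤ wr l c y) :
    pq (fun G z => g G c z) F x y ≤ φ l c F / wm := by
  have h2 : g ((F.erase x).erase y) c y ≤ g (F.erase y) c y :=
    h.mg c (F.erase y) ((F.erase x).erase y) y (by
      rw [Finset.erase_right_comm]; exact Finset.erase_subset _ _)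
      ⟨(Finset.erase_subset _ _).trans hF, hc, hF hy, fun h => hcF (Finset.mem_of_mem_erase h),
        Finset.notMem_erase _ _, fun h => hcF (h ▸ hy)⟩
  have h1 : wr l c x * g (F.erase x) c x + wr l c y * g (F.erase y) c y
      ≤ ∑ z ∈ F, wr l c z * g (F.erase z) c z := by
    rw [← Finset.sum_pair (f := fun z => wr l c z * g (F.erase z) c z) hxy]
    refine Finset.sum_le_sum_of_subset_of_nonneg ?_ fun z hz _ =>
      mul_nonneg (w0 z hz) (h.g0 _ _ _)
    intro z hz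
    rcases Finset.mem_insert.1 hz with h | h
    · rw [h]; exact hx
    · rw [Finset.mem_singleton.1 h]; exact hy
  have h3 := h.row l c hc F hF hcF
  have h4 := mul_le_mul_of_nonneg_right wx (h.g0 (F.erase x) c x)
  have h5 := mul_le_mul_of_nonneg_right wy (h.g0 (F.erase y) c y)
  have h6 := mul_le_mul_of_nonneg_left h2 hwm.le
  rw [le_div_iff₀ hwm]
  unfold pq
  nlinarith

/-! ### a base part plus a multiple of an end value -/

/-- double position sums -/
theorem RowE.pos2X (h : RowE U wr φ g) (L0 : 0 ≤ L)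
    (hX : ∀ F c e, VP U F c e → X F c e ≤ X0 F c e + L * g F c e) {T : V → V → ℝ}
    (T0 : ∀ x y, 0 ≤ T x y) {c : V} (hc : c ∈ U) (hF : F ⊆ U) (hcF : c ∉ F)
    (f0 : ∀ e ∈ F, 0 ≤ f e)
    (hK : ∑ e ∈ F, f e * ∑ b ∈ F.erase e, T e b * X0 ((F.erase e).erase b) c b ≤ K)
    (a0 : ∀ m, 0 ≤ a m)
    (hf : ∀ x ∈ F, ∑ e ∈ F.erase x, f e * T e x ≤ ∑ m, a m * wr m c x) :
    ∑ e ∈ F, f e * ∑ b ∈ F.erase e, T e b * X ((F.erase e).erase b) c b
      ≤ K + L * ∑ m, a m * φ m c F := by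
  have k := mul_le_mul_of_nonneg_left (h.pos2 T0 hc hF hcF a0 f0 hf) L0
  refine le_trans ?_ (add_le_add hK k)
  rw [Finset.mul_sum, ← Finset.sum_add_distrib]
  refine Finset.sum_le_sum fun e he => ?_
  have h1 : ∑ b ∈ F.erase e, T e b * X ((F.erase e).erase b) c b
      ≤ ∑ b ∈ F.erase e, T e b * X0 ((F.erase e).erase b) c b
        + L * ∑ b ∈ F.erase e, T e b * g ((F.erase e).erase b) c b := by
    rw [Finset.mul_sum, ← Finset.sum_add_distrib]
    refine Finset.sum_le_sum fun b hb => ?_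
    have h2 := mul_le_mul_of_nonneg_left (hX ((F.erase e).erase b) c b
      ⟨((Finset.erase_subset _ _).trans (Finset.erase_subset _ _)).trans hF, hc,
        hF (Finset.mem_of_mem_erase hb),
        fun h => hcF (Finset.mem_of_mem_erase (Finset.mem_of_mem_erase h)),
        Finset.notMem_erase _ _, fun h => hcF (h ▸ Finset.mem_of_mem_erase hb)⟩) (T0 e b)
    linarith
  have h3 := mul_le_mul_of_nonneg_left h1 (f0 e he)
  linarith

end sums

/-! ### the functions of the upper function -/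

section hff

variable {hb : ℝ → V → V → ℝ} {U : Finset V} {σ r : ℝ} {Fe Ge : Finset V → V → V → ℝ}

/-- the killing part -/
noncomputable def kb (hb : ℝ → V → V → ℝ) (σ : ℝ) (c e : V) (r : ℝ) : ℝ :=
  RCM.bk (fun ρ => hb ρ c e) σ r

theorem HFF_kb (F : Finset V) (c e : V) : HFF hb σ Fe F c e r = kb hb σ c e r + Fe F c e := by
  unfold HFF kb; ring

theorem kb_nonneg (b0 : ∀ u v, ∀ r ∈ Icc 0 σ, 0 ≤ hb r u v) (c e : V) (hr : r ∈ Icc 0 σ) :
    0 ≤ kb hb σ c e r := RCM.bk_nonneg hr fun z hz => b0 c e z hz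

end hff

/-! ### the data of the linear bounds from the families -/

section lbf

variable {U : Finset V} {σ r : ℝ} {hb T : ℝ → V → V → ℝ}
  {gp gm : Finset V → V → V → ℝ → ℝ} {Fe Ge : Finset V → V → V → ℝ} {L : Type*}
  {f : L → V → V → ℝ → ℝ} {P Q : L → V → Finset V → ℝ → ℝ} {w : Λ → V → V → ℝ → ℝ}
  {Pc Qc : Λ → V → Finset V → ℝ → ℝ} {u : IxF V → ℝ} {s1 S1 s2 S2 κ M fm wm : ℝ}

/-- the bound of one entry from the target sums -/
theorem AllPF.ent (hu : AllPF U f P Q w Pc Qc r u) (l0 : L)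
    (f0 : ∀ e ∈ U, ∀ c ∈ U, 0 ≤ f l0 e c r) (hfm : 0 < fm)
    (hf : ∀ e ∈ U, ∀ c ∈ U, e ≠ c → fm ≤ f l0 e c r)
    (hP : ∀ e ∈ U, ∀ F ⊆ U, e ∉ F → P l0 e F r ≤ fm * S1) {F : Finset V} {c b : V}
    (hv : VP U F c b) : u (true, F, c, b) ≤ S1 := by
  obtain ⟨hF, hc, he, hcF, heF, hce⟩ := hv
  have h1 := ((hu.2.1 l0).entry_le hu.1.1 f0 (F := F) (c := c) (e := b)
    ⟨hF, hc, he, hcF, heF, hce⟩ hfm (hf b he c hc hce.symm)).1
  have h2 := hP b he (insert c F) (Finset.insert_subset hc hF) (by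
    rw [Finset.mem_insert]; rintro (h | h)
    · exact hce h.symm
    · exact heF h)
  refine h1.trans ?_
  rw [div_le_iff₀ hfm]
  linarith

/-- the bound of a pair of positions from the position sums -/
theorem AllPF.pqb (hu : AllPF U f P Q w Pc Qc r u) (m0 : Λ)
    (w0 : ∀ c ∈ U, ∀ e ∈ U, 0 ≤ w m0 c e r) (hwm : 0 < wm)
    (hw : ∀ c ∈ U, ∀ e ∈ U, c ≠ e → wm ≤ w m0 c e r)
    (hP : ∀ c ∈ U, ∀ F ⊆ U, c ∉ F → Pc m0 c F r ≤ wm * S2) {F : Finset V} (hF : F ⊆ U) {c : V}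
    (hc : c ∈ U) (hcF : c ∉ F) {x y : V} (hx : x ∈ F) (hy : y ∈ F) (hxy : x ≠ y) :
    pq (fun G z => u (true, G, c, z)) F x y ≤ S2 := by
  have h1 := (hu.2.2 m0).pq_le hu.1.1 hu.1.2.2 hwm hF hc hcF w0 hx hy hxy
    (hw c hc x (hF hx) fun h => hcF (h ▸ hx)) (hw c hc y (hF hy) fun h => hcF (h ▸ hy))
  refine h1.trans ?_
  rw [div_le_iff₀ hwm]
  linarith [hP c hc F hF hcF]

end lbf

end Pool.Agent.RZ.RCO
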