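import Pool.Agent.RZ.RCM9.PVal
import Pool.Agent.RZ.RCO.RT

/-! The inequality of the pairs: integrals of a polynomial weight times a value of the table
(MP_73ccd0_lc, route M). -/

set_option autoImplicit false

namespace Pool.Agent.RZ.RCN.K.P3

open Set Finset MeasureTheory Pool.Agent.RZ.RCM9 Pool.Agent.RZ.RCO.RT

/-! ### moments of piecewise linear functions with eleven nodes -/

/-- the weight of the left node of the cell `l` in the moment `i` -/
def mU (i l : ℕ) : ℤ := ((l : ℤ) + 1) ^ (i + 2) - (l : ℤ) ^ (i + 2) - (i + 2) * (l : ℤ) ^ (i + 1)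

/-- the weight of the right node of the cell `l` in the moment `i` -/
def mV (i l : ℕ) : ℤ :=
  (l : ℤ) ^ (i + 2) - ((l : ℤ) + 1) ^ (i + 2) + (i + 2) * ((l : ℤ) + 1) ^ (i + 1)

/-- the moment, numerator -/
def ms (r : ℕ → ℕ) (i : ℕ) : ℕ → ℤ
  | 0 => 0
  | n + 1 => ms r i n + ((r n : ℤ) * mU i n + (r (n + 1) : ℤ) * mV i n)

/-- the moment with real values -/
noncomputable def mr (v : ℕ → ℝ) (i : ℕ) : ℕ → ℝ
  | 0 => 0
  | n + 1 => mr v i n + (v n * mU i n + v (n + 1) * mV i n)

theorem mr_cast (r : ℕ → ℕ) (i n : ℕ) :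
    mr (fun j => (r j : ℝ) / RD) i n = (ms r i n : ℝ) / RD := by
  induction n with
  | zero => simp [mr, ms]
  | succ n ih =>
    simp only [mr, ms, ih]
    push_cast
    ring

/-- the integral over one cell -/
theorem cell_int (v : ℕ → ℝ) (i : ℕ) {l : ℕ} (hl : l < 10) :
    ∫ x in ((l : ℝ) / 10)..(((l + 1 : ℕ) : ℝ) / 10), x ^ i * plx 10 v x
      = (v l * mU i l + v (l + 1) * mV i l) / (10 ^ (i + 1) * ((i + 1) * (i + 2))) := by
  have hle : (l : ℝ) / 10 ≤ ((l + 1 : ℕ) : ℝ) / 10 := by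
    push_cast
    linarith
  have e1 : ∀ x ∈ uIcc ((l : ℝ) / 10) (((l + 1 : ℕ) : ℝ) / 10), x ^ i * plx 10 v x
      = x ^ i * (v l * (l + 1 - 10 * x) + v (l + 1) * (10 * x - l)) := by
    intro x hx
    rw [uIcc_of_le hle] at hx
    have h1 := hx.1
    have h2 := hx.2
    push_cast at h2
    rw [plx_cell hl v (c := 10 * x - l) (by linarith) (by linarith) (by push_cast; ring)]
    ring
  rw [intervalIntegral.integral_congr e1]
  have i1 : (i : ℝ) + 1 ≠ 0 := by positivity
  have i2 : (i : ℝ) + 2 ≠ 0 := by positivity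
  have hd : ∀ x ∈ uIcc ((l : ℝ) / 10) (((l + 1 : ℕ) : ℝ) / 10),
      HasDerivAt (fun x : ℝ => (v l * (l + 1) - v (l + 1) * l) * (x ^ (i + 1) / (i + 1))
        + 10 * (v (l + 1) - v l) * (x ^ (i + 2) / (i + 2)))
        (x ^ i * (v l * (l + 1 - 10 * x) + v (l + 1) * (10 * x - l))) x := by
    intro x _
    have d1 : HasDerivAt (fun x : ℝ => x ^ (i + 1) / (i + 1)) (x ^ i) x := by
      have := (hasDerivAt_pow (i + 1) x).div_const ((i : ℝ) + 1)
      refine this.congr_deriv ?_
      push_cast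
      field_simp
    have d2 : HasDerivAt (fun x : ℝ => x ^ (i + 2) / (i + 2)) (x ^ (i + 1)) x := by
      have := (hasDerivAt_pow (i + 2) x).div_const ((i : ℝ) + 2)
      refine this.congr_deriv ?_
      push_cast
      field_simp
    refine ((d1.const_mul _).add (d2.const_mul _)).congr_deriv ?_
    rw [pow_succ]
    ring
  rw [intervalIntegral.integral_eq_sub_of_hasDerivAt hd
    (Continuous.intervalIntegrable (by fun_prop) _ _)]
  unfold mU mV
  push_cast
  have t1 : ∀ (a : ℝ) (n : ℕ), (a / 10) ^ n = a ^ n / 10 ^ n := fun a n => div_pow _ _ _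
  rw [t1, t1, t1, t1]
  have p1 : (10 : ℝ) ^ (i + 1) ≠ 0 := by positivity
  rw [show (10 : ℝ) ^ (i + 2) = 10 * 10 ^ (i + 1) by ring,
    show ((l : ℝ) + 1) ^ (i + 2) = (l + 1) * (l + 1) ^ (i + 1) by ring,
    show ((l : ℝ)) ^ (i + 2) = l * l ^ (i + 1) by ring]
  field_simp
  ring

/-- **the moments** -/
theorem mom_int (v : ℕ → ℝ) (i : ℕ) {n : ℕ} (hn : n ≤ 10) :
    ∫ x in (0 : ℝ)..((n : ℝ) / 10), x ^ i * plx 10 v x
      = mr v i n / (10 ^ (i + 1) * ((i + 1) * (i + 2))) := by
  induction n with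
  | zero => simp [mr]
  | succ n ih =>
    have c : Continuous fun x : ℝ => x ^ i * plx 10 v x := (continuous_pow i).mul (plx_cont 10 v)
    rw [← intervalIntegral.integral_add_adjacent_intervals (b := (n : ℝ) / 10)
      (c.intervalIntegrable _ _) (c.intervalIntegrable _ _), ih (by omega),
      cell_int v i (by omega)]
    simp only [mr]
    ring

/-- the moments of a table -/
def mq (r : ℕ → ℕ) (i : ℕ) : ℚ :=
  (ms r i 10 : ℚ) / ((RD : ℚ) * (10 ^ (i + 1) * ((i + 1) * (i + 2))))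

theorem mq_int (r : ℕ → ℕ) (i : ℕ) :
    ∫ x in (0 : ℝ)..1, x ^ i * plx 10 (fun j => (r j : ℝ) / RD) x = (mq r i : ℝ) := by
  have h := mom_int (fun j => (r j : ℝ) / RD) i (n := 10) le_rfl
  have e : (((10 : ℕ) : ℝ) / 10) = 1 := by norm_num
  rw [e] at h
  rw [h, mr_cast]
  unfold mq
  push_cast
  rw [div_div]

/-- the list of the products of the coefficients with the moments -/
def wl (M : ℕ → ℚ) : ℕ → List ℚ → List ℚ
  | _, [] => []
  | i, a :: g => (a * M i) :: wl M (i + 1) g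

theorem wl_int {P : ℝ → ℝ} (cP : Continuous P) {M : ℕ → ℚ}
    (hM : ∀ i, ∫ x in (0 : ℝ)..1, x ^ i * P x = (M i : ℝ)) (g : List ℚ) (t : ℝ) :
    ∀ i, ∫ x in (0 : ℝ)..1, x ^ i * (pv g (t * x) * P x) = pv (wl M i g) t := by
  induction g with
  | nil => intro i; simp [wl, pv]
  | cons a g ih =>
    intro i
    have e : ∀ x : ℝ, x ^ i * (pv (a :: g) (t * x) * P x)
        = (a : ℝ) * (x ^ i * P x) + t * (x ^ (i + 1) * (pv g (t * x) * P x)) := by
      intro x
      simp only [pv]
      ring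
    simp only [e]
    have c1 : Continuous fun x : ℝ => (a : ℝ) * (x ^ i * P x) := by fun_prop
    have c2 : Continuous fun x : ℝ => t * (x ^ (i + 1) * (pv g (t * x) * P x)) :=
      continuous_const.mul ((continuous_pow _).mul
        (((continuous_pv g).comp (continuous_const.mul continuous_id)).mul cP))
    rw [intervalIntegral.integral_add (c1.intervalIntegrable _ _) (c2.intervalIntegrable _ _),
      intervalIntegral.integral_const_mul, intervalIntegral.integral_const_mul, hM, ih]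
    simp only [wl, pv]
    push_cast
    rfl

/-- the list of a weight and a table -/
def wt (g : List ℚ) (r : ℕ → ℕ) : List ℚ := wl (mq r) 0 g

theorem wt_int (g : List ℚ) (r : ℕ → ℕ) {t : ℝ} (t0 : 0 < t) :
    ∫ s in (0 : ℝ)..t, pv g s * plx 10 (fun j => (r j : ℝ) / RD) (s / t)
      = t * pv (wt g r) t := by
  have h := wl_int (plx_cont 10 (fun j => (r j : ℝ) / RD)) (mq_int r) g t 0
  simp only [pow_zero, one_mul] at h
  have h2 := intervalIntegral.smul_integral_comp_mul_left (a := 0) (b := 1)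
    (fun s => pv g s * plx 10 (fun j => (r j : ℝ) / RD) (s / t)) t
  rw [mul_zero, mul_one] at h2
  rw [← h2, smul_eq_mul]
  congr 1
  unfold wt
  rw [← h]
  refine intervalIntegral.integral_congr fun x _ => ?_
  rw [mul_div_cancel_left₀ _ t0.ne']

/-! ### the table -/

/-- the Bernstein coefficients of a kind in a big cell -/
def rc (R : Tab) (K m : ℕ) : ℕ → ℕ → ℕ
  | 0, j => (R.r K m j).1
  | 1, j => (R.r K m j).2.1
  | 2, j => (R.r K m j).2.2.1
  | _, j => (R.r K m j).2.2.2

theorem plx_cub (R : Tab) (K m : ℕ) (k x : ℝ) :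
    plx 10 (fun j => (R.r K m j).ev k) x
      = cubR (plx 10 (fun j => (rc R K m 0 j : ℝ) / RD) x)
        (plx 10 (fun j => (rc R K m 1 j : ℝ) / RD) x)
        (plx 10 (fun j => (rc R K m 2 j : ℝ) / RD) x)
        (plx 10 (fun j => (rc R K m 3 j : ℝ) / RD) x) k := by
  unfold plx cubR
  simp only [Cub.ev, cubR, rc]
  rw [Finset.sum_mul, Finset.mul_sum, Finset.sum_mul, Finset.sum_mul, Finset.mul_sum,
    Finset.sum_mul, Finset.sum_mul, Finset.sum_mul, ← Finset.sum_add_distrib,
    ← Finset.sum_add_distrib, ← Finset.sum_add_distrib]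
  refine Finset.sum_congr rfl fun j _ => ?_
  ring

/-! ### functions of a big cell -/

/-- the function with the numerators `r` -/
noncomputable def vr (R : Tab) (m e : ℕ) (r : ℕ → ℕ) (t s : ℝ) : ℝ :=
  |t + R.dl m| ^ e * plx 10 (fun j => (r j : ℝ) / RD) (s / t)

theorem vr_cont (R : Tab) (m e : ℕ) (r : ℕ → ℕ) (t : ℝ) : Continuous fun s => vr R m e r t s := by
  unfold vr
  exact continuous_const.mul ((plx_cont 10 _).comp (continuous_id.div_const t))

theorem vr_nonneg (R : Tab) (m e : ℕ) (r : ℕ → ℕ) (t s : ℝ) : 0 ≤ vr R m e r t s := by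
  have D := RD_pos
  exact mul_nonneg (pow_nonneg (abs_nonneg _) _)
    (plx_nonneg (fun j _ => div_nonneg (Nat.cast_nonneg _) D.le) _)

theorem val_vr (R : Tab) (K m : ℕ) (t s k : ℝ) :
    R.val K m t s k = cubR (vr R m (Tab.ex K) (rc R K m 0) t s) (vr R m (Tab.ex K) (rc R K m 1) t s)
      (vr R m (Tab.ex K) (rc R K m 2) t s) (vr R m (Tab.ex K) (rc R K m 3) t s) k := by
  unfold Tab.val
  rw [plx_cub]
  unfold vr cubR
  ring

theorem val0_vr (R : Tab) (K m : ℕ) (t s : ℝ) :
    R.val K m t s 0 = vr R m (Tab.ex K) (rc R K m 0) t s := by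
  rw [val_vr]
  unfold cubR
  ring

/-- **the integral of a weight and a function of a big cell** -/
theorem vr_int (R : Tab) (m e : ℕ) (r : ℕ → ℕ) (g : List ℚ) {t : ℝ} (t0 : 0 < t) :
    ∫ s in (0 : ℝ)..t, pv g s * vr R m e r t s
      = (t + R.dl m) ^ e * (t * pv (wt g r) t) := by
  have e1 : ∀ s, pv g s * vr R m e r t s
      = (t + R.dl m) ^ e * (pv g s * plx 10 (fun j => (r j : ℝ) / RD) (s / t)) := by
    intro s
    unfold vr
    rw [abs_of_nonneg (add_nonneg t0.le (Tab.dl_nonneg m))]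
    ring
  simp only [e1]
  rw [intervalIntegral.integral_const_mul, wt_int g _ t0]

end Pool.Agent.RZ.RCN.K.P3
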