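import Pool.Agent.RZ.RCG.XM
import Pool.Agent.RZ.RCN.Ck1
import Pool.Agent.RZ.RCO.PwH

/-! The inequality of the pairs: the numbers of a big cell and their checks (MP_73ccd0_lc,
route M). -/

set_option autoImplicit false

namespace Pool.Agent.RZ.RCN.K.P3

open Set Finset MeasureTheory Pool.Agent.RZ.RCM9 Pool.Agent.RZ.RCG
open Pool.Agent.RZ.RCN.Ck1 Pool.Agent.RZ.RCO.RT

/-- the largest weight of the edges of the class -/
def xmQ : ℚ := 1 / (Pool.Agent.RZ.RCG.xN : ℚ)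

theorem xm_cast : ((xmQ : ℚ) : ℝ) = Pool.Agent.RZ.RCG.XM := XM_cast.symm

theorem xm0 : (0 : ℝ) < xmQ := by rw [xm_cast]; exact XM_pos
theorem xm2 : 2 * (xmQ : ℝ) ≤ 1 := by rw [xm_cast]; linarith [XM_half]
theorem xm4 : 4 * (xmQ : ℝ) ≤ 1 := by
  rw [xm_cast]
  unfold XM xN
  norm_num

/-! ### the data -/

/-- four Bernstein coefficients -/
structure Q4 where
  a : ℚ
  b : ℚ
  c : ℚ
  d : ℚ

namespace Q4

/-- the coefficients of the powers -/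
def li (p : Q4) : List ℚ :=
  [p.a, 3 * (p.b - p.a), 3 * (p.c - 2 * p.b + p.a), p.d - 3 * p.c + 3 * p.b - p.a]

/-- `m p ≤ l q`, coefficientwise -/
def le (m : ℚ) (p : Q4) (l : ℚ) (q : Q4) : Bool :=
  decide (m * p.a ≤ l * q.a) && (decide (m * p.b ≤ l * q.b) && (decide (m * p.c ≤ l * q.c)
    && decide (m * p.d ≤ l * q.d)))

end Q4

/-- the polynomial of the square of a chord for small weights -/
def sqx (a h : List ℚ) : List ℚ :=
  ladd (lmul a a) (lmul (lsub h a) (ladd (lsmul 2 a) (lsmul (2 * xmQ) (lsub h a))))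

/-- the polynomial of the chord at the largest weight -/
def bx (a h : List ℚ) : List ℚ := ladd a (lsmul (2 * xmQ) (lsub h a))

/-- the global polynomials -/
structure Gl where
  ee : ℚ
  be0 : List ℚ
  be1 : List ℚ
  kp1 : List ℚ
  al : List ℚ
  ga : List ℚ
  kA : List ℚ
  kq : List ℚ
  bp : List ℚ
  ρ0 : ℚ
  q0 : List ℚ
  Rh : List ℚ
  bq0 : List ℚ
  bqh : List ℚ
  rqh : List ℚ

namespace Gl

variable (G : Gl)

def bh : List ℚ := lsmul (1 / 2) (ladd [1] (ladd G.be0 G.be1))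
def b1 : List ℚ := ladd [1] (lsmul (1 / 2) G.be1)

/-- the global checks -/
def ok : Bool :=
  decide (0 ≤ G.ee) && (nn 1000000000 16 0 1 (lsub (lmul [1, 2, 1] G.q0) [1])
    && (nn 1000000000 128 0 1 (lsub G.be0 [1]) && (nn 1000000000 16 0 1 G.bh
    && (nn 1000000000 16 0 1 G.b1 && (nn 1000000000 16 0 1 G.Rh
    && (nn 1000000000 16 0 1 (bx G.be0 G.bh)
    && (nn 1000000000 16 0 1 (lsub G.bq0 (lmul G.be0 G.be0))
    && (nn 1000000000 16 0 1 G.bqh && (nn 1000000000 16 0 1 (lsub G.bqh (sqx G.be0 G.bh))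
    && (nn 1000000000 16 0 1 G.rqh
    && nn 1000000000 16 0 1 (lsub G.rqh (sqx [1] G.Rh))))))))))))

end Gl

/-- the type of a cubic: `ev k ≤ (1 - n k) ev 0` -/
def tyk (n : ℚ) (p : Cub) : Bool :=
  decide (3 * (p.2.1 : ℚ) ≤ p.1 * (3 - n)) && (decide (3 * (p.2.2.1 : ℚ) ≤ p.1 * (3 - 2 * n))
    && decide ((p.2.2.2 : ℚ) ≤ p.1 * (1 - n)))

/-- the type of a kind in a big cell -/
def tyT (R : Tab) (K m : ℕ) (n : ℚ) : Bool := (List.range 11).all fun j => tyk n (R.r K m j)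

/-- the numbers of a big cell -/
structure Tc where
  m : ℕ
  Bm : ℚ
  γ : ℚ
  α : ℚ
  e : ℚ
  g0 : ℚ
  gh : ℚ
  g1 : ℚ
  Kx : ℚ
  kc : List ℚ
  ke : List ℚ
  Fp : List ℚ
  V : Q4
  B0 : Q4
  Bh : Q4
  H : Q4
  C0 : Q4
  Ch : Q4
  A : ℚ
  M : ℚ

namespace Tc

variable (R : Tab) (G : Gl) (c : Tc)

def t0 : ℚ := (R.T c.m : ℚ) / 1000
def t1 : ℚ := (R.T (c.m + 1) : ℚ) / 1000
def dl (_ : Tab) : ℚ := if c.m = 0 then 1 / 50 else 0

/-- `(1 + ee t) kc (t + δ) ^ e` -/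
def kk (e : ℕ) : List ℚ := lmul (lmul [1, G.ee] c.kc)
  (if e = 1 then [c.dl R, 1] else [c.dl R ^ 2, 2 * c.dl R, 1])

/-- one check of a weight and a kind: coefficient `l`, bound `U` -/
def ck (D : ℤ) (n : ℕ) (g : List ℚ) (e : ℕ) (r : ℕ → ℕ) (U : ℚ) : Bool :=
  nn D n (c.t0 R) (c.t1 R) (lsub (lsmul U G.kp1) (lmul (c.kk R G e) (wt g r)))

def ck4 (D : ℤ) (n : ℕ) (g : List ℚ) (K : ℕ) (U : Q4) : Bool :=
  c.ck R G D n g (Tab.ex K) (rc R K c.m 0) U.a && (c.ck R G D n g (Tab.ex K) (rc R K c.m 1) U.b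
    && (c.ck R G D n g (Tab.ex K) (rc R K c.m 2) U.c
      && c.ck R G D n g (Tab.ex K) (rc R K c.m 3) U.d))

/-- the density excess with the density `b` -/
def cke (D : ℤ) (n : ℕ) (b : List ℚ) : Bool :=
  nn D n (c.t0 R) (c.t1 R) (lsub (lsmul c.e G.kp1) (lmul [1, G.ee]
    (lsub (lmul c.kc (pri (lmul c.ke (lmul b G.q0))).tail) (pri (lmul b G.q0)).tail)))

/-- the checks of a cell without the table -/
def okA (D : ℤ) (n : ℕ) : Bool :=
  (decide (0 ≤ c.t0 R) && (decide (c.t1 R ≤ c.γ) && (decide (c.t1 R ≤ 1) && decide (0 ≤ c.e))))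
  && ((nn D n (c.t0 R) (c.t1 R) (lsub c.kc [1]) && (nn D (4 * n) 0 (c.t1 R) (lsub c.ke [1])
    && (nn D n (c.t0 R) (c.t1 R) (lsub [c.α] G.al)
    && (nn D n (c.t0 R) (c.t1 R) (lsub [c.Kx] (0 :: G.kp1))
    && nn D n (c.t0 R) (c.t1 R) G.kp1))))
  && ((nn D n (c.t0 R) (c.t1 R) (lsub c.kc G.kA)
    && (nn D n (c.t0 R) (c.t1 R) (lsub [c.Bm] (pri G.bp))
    && (nn D (4 * n) 0 (c.t1 R) (lsub c.ke (lmul G.kq [1, 0, G.ρ0 * c.Bm]))
    && nn D n (c.t0 R) (c.t1 R) (lsub [c.γ] G.ga))))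
  && ((nn D n (c.t0 R) (c.t1 R) (lsub [c.g0, c.g0] G.be0)
    && (nn D n (c.t0 R) (c.t1 R) (lsub [c.gh, c.gh] G.bh)
    && nn D n (c.t0 R) (c.t1 R) (lsub [c.g1, c.g1] G.b1)))
  && ((nn D (4 * n) 0 (c.t1 R) (lsub c.Fp (pri (lmul c.ke (lmul G.be0 G.q0))))
    && nn D (4 * n) 0 (c.t1 R) (lsub c.Fp (pri (lmul c.ke (lmul (bx G.be0 G.bh) G.q0)))))
  && (c.cke R G D n G.be0 && (c.cke R G D n G.bh && c.cke R G D n G.b1))))))

/-- the checks of the deleted exponents -/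
def okB (D : ℤ) (n : ℕ) : Bool :=
  (c.ck4 R G D n (lmul c.ke G.q0) kRL c.V
    && (c.ck4 R G D n (lmul c.ke (lmul G.bq0 G.q0)) kCL c.B0
    && c.ck4 R G D n (lmul c.ke (lmul G.bqh G.q0)) kCL c.Bh))

/-- the checks of the released exponents -/
def okC (D : ℤ) (n : ℕ) : Bool :=
  (c.ck4 R G D n c.Fp kRF c.H && (c.ck4 R G D n c.Fp kCF c.C0
    && c.ck4 R G D n (lmul c.Fp G.rqh) kCF c.Ch))
  && ((c.ck R G D n (lmul c.ke (lmul (bx G.be0 G.bh) G.q0)) 2 (rc R kRL c.m 0) c.A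
    && c.ck R G D n (lmul c.Fp (bx [1] G.Rh)) 1 (rc R kRF c.m 0) c.M)
  && (tyT R kRL c.m 0 && tyT R kRF c.m 0))

/-- the checks of a cell -/
def ok (D : ℤ) (n : ℕ) : Bool := c.okA R G D n && (c.okB R G D n && c.okC R G D n)

variable {R G c}

theorem ok_of {D : ℤ} {n : ℕ} (hA : c.okA R G D n = true) (hB : c.okB R G D n = true)
    (hC : c.okC R G D n = true) : c.ok R G D n = true := by
  unfold ok
  rw [hA, hB, hC]
  rfl

/-- the checks use only the nodes and the rows of the table -/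
theorem ok_congr {R' : Tab} {D : ℤ} {n : ℕ} (hT : R.T = R'.T) (hr : R.r = R'.r)
    (h : c.ok R G D n = true) : c.ok R' G D n = true := by
  obtain ⟨M, N, T, r⟩ := R
  obtain ⟨M', N', T', r'⟩ := R'
  subst hT
  subst hr
  exact h

end Tc

end Pool.Agent.RZ.RCN.K.P3
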