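import Pool.Agent.RZ.RCM9.Dat
import Pool.Agent.RZ.RCO.Pw0

/-! The inequality of the pairs: the numbers of a range of the weights of the pair and the final
polynomial expression (MP_73ccd0_lc, route M). -/

set_option autoImplicit false

namespace Pool.Agent.RZ.RCN.K.P3

open Set Finset Pool.Agent.RZ.RCN.K Pool.Agent.RZ.RCM9 Pool.Agent.RZ.RCM9.Bern Pool.Agent.RZ.RCM9.Pk
open Pool.Agent.RZ.RCN.Ck1

/-- the numbers of a cell for the pairs -/
structure Qn where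
  u0 : ℚ
  u1 : ℚ
  γ : ℚ
  α : ℚ
  e : ℚ
  g0 : ℚ
  gh : ℚ
  qa : ℚ
  pa : List ℚ
  p4 : List ℚ
  a1 : List ℚ
  b0 : List ℚ
  bh : List ℚ
  a3 : List ℚ
  c0 : List ℚ
  ch : List ℚ
  C : ℚ
  mt : ℚ
  X : ℚ
  p1 : ℚ

namespace Qn

variable (c : Qn)

/-- the largest argument of the amplification -/
def mm : ℚ := xmQ * (c.α * (1 + c.γ * (c.u1 + xmQ)))

/-- the checks of the scalars -/
def okS : Bool :=
  decide (0 ≤ c.γ) && (decide (0 < c.α) && (decide (0 ≤ c.e) && (decide (0 ≤ c.g0)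
    && (decide (0 ≤ c.gh) && (decide (c.γ ≤ 1) && (decide (c.qa < 1)
    && (decide (0 ≤ c.u0) && (decide (c.u0 < c.u1)
    && (decide (c.mm ≤ c.qa) && (decide (xmQ * (c.α * (1 + c.γ * (2 * xmQ))) < 1)
    && (decide (c.α * (1 + c.γ * xmQ) ≤ c.mt) && (decide (c.mt ≤ 1)
    && (decide (0 < c.C) && (decide (0 ≤ c.p1) && (decide (c.mt * c.p1 < 1)
    && (decide (c.X ≤ 64) && (decide (1 - c.p1 ≤ (1 - c.X / 64) ^ 64)
    && nn 1000000000 4 0 c.p1 [6 * c.C - 6, 6 - 3 * c.C - 6 * c.C * c.mt,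
      3 * c.C * c.mt - 1])))))))))))))))))

/-- the checks of the polynomials -/
def okP : Bool :=
  (nn 1000000000 32 0 c.qa (lsub (lmul [1, -2, 1] c.pa) [1]))
  && ((nn 1000000000 32 0 c.qa (lsub (lmul [1, -4, 6, -4, 1] c.p4) [c.C ^ 2]))
  && (nn 1000000000 8 0 (2 * xmQ) c.a1 && (nn 1000000000 8 0 (2 * xmQ) c.b0
  && (nn 1000000000 8 0 (2 * xmQ) c.bh && (nn 1000000000 8 0 (2 * xmQ) c.a3
  && (nn 1000000000 8 0 (2 * xmQ) c.c0 && nn 1000000000 8 0 (2 * xmQ) c.ch))))))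

/-- the checks -/
def ok : Bool := c.okS && c.okP

/-! ### expressions -/

/-- the weight of the masses as an expression -/
def mwE (u z : E) : E := (1 + qc c.γ * (u + qc xmQ)) * (1 - u - z)

def arE (u y z : E) : E := z * (qc c.α * (1 + qc c.γ * (u + y)))

def SAe (u y z ry rz gy i2 i4 : E) : E :=
  ry * rz * gy * (qc c.e * (1 + qc c.γ * (u + y))) * pe c.pa (c.arE u y z)
    + qc (1 / 2)
      * (ry ^ 2 * gy ^ 2 * pe c.p4 (c.arE u y z)
          * (pe c.a1 (y + z) + c.mwE u z * pe c.a3 (y + z))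
        + rz ^ 2 * ((1 + qc c.γ * (u + y)) ^ 2 * i2 + c.mwE u 0 * i4))

/-- the first half of the chord -/
def cL (a h : ℚ) (y : E) : E := qc a + qc (2 * (h - a)) * y

/-- the first half of the chord of polynomials -/
def iL (a h : List ℚ) (z q : E) : E := (1 - 2 * z) * pe a q + 2 * z * pe h q

/-- the right side: `sh` the quotient of `ka` by the square -/
def kaE (sh : List ℚ) (y z ry rz : E) : E :=
  (ry ^ 2 * pe sh y + rz ^ 2 * pe sh z) * qc (1 / 2)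

def yA : E := qc xmQ * vX
def zA : E := vZ * yA
def uA : E := qc c.u0 + vU * qc (c.u1 - c.u0)

/-- the final inequality: `y = xm X`, `z = Z y` -/
def eA (sh : List ℚ) : E :=
  kaE sh yA zA 1 vZ
    - c.SAe c.uA yA zA 1 vZ (cL c.g0 c.gh yA) (iL c.b0 c.bh zA (yA + zA))
      (iL c.c0 c.ch zA (yA + zA))
    - c.SAe c.uA zA yA vZ 1 (cL c.g0 c.gh zA) (iL c.b0 c.bh yA (yA + zA))
      (iL c.c0 c.ch yA (yA + zA))

end Qn

/-- the numbers of a range of the weight of the pair -/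
structure Rg where
  u0 : ℚ
  u1 : ℚ
  qa : ℚ
  pa : List ℚ
  p4 : List ℚ
  th : ℚ
  thh : ℚ
  A1 : Q4
  B0 : Q4
  Bh : Q4
  A3 : Q4
  C0 : Q4
  Ch : Q4
  a6 : ℚ
  a7 : ℚ
  C : ℚ
  mt : ℚ
  X : ℚ
  p1 : ℚ

namespace Rg

variable (r : Rg) (c : Tc)

/-- the numbers of the final inequality -/
def qn : Qn where
  u0 := r.u0
  u1 := r.u1
  γ := c.γ
  α := c.α
  e := c.e
  g0 := c.g0
  gh := c.gh
  qa := r.qa
  pa := r.pa
  p4 := r.p4
  a1 := r.A1.li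
  b0 := r.B0.li
  bh := r.Bh.li
  a3 := r.A3.li
  c0 := r.C0.li
  ch := r.Ch.li
  C := r.C
  mt := r.mt
  X := r.X
  p1 := r.p1

/-- the checks of a range -/
def ok : Bool :=
  (decide (0 < r.th) && (decide (0 < r.thh) && (decide (0 ≤ r.a6) && (decide (0 ≤ r.a7)
    && decide (c.Kx * (r.a6 + r.a7) ≤ c.α * r.X)))))
  && ((Q4.le r.th c.V 1 r.A1 && (Q4.le 1 c.B0 r.th r.B0 && Q4.le 1 c.Bh r.th r.Bh))
  && ((Q4.le r.thh c.H 1 r.A3 && (Q4.le 1 c.C0 r.thh r.C0 && Q4.le 1 c.Ch r.thh r.Ch))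
  && (decide (xmQ * c.A ≤ (1 - 2 * xmQ) * r.a6)
    && (decide (xmQ * c.M ≤ r.a7)
    && (r.qn c).ok))))

end Rg

/-- the check of the rates of the hazards -/
def eRz (Rlo : List (List ℚ)) (Rh : List ℚ) : E :=
  2 * (pe Rh vT - 1) - pe2 Rlo (qc xmQ * vX) vT

end Pool.Agent.RZ.RCN.K.P3
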