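import Pool.Agent.RZ.RCO.Pw0

/-! The global polynomials of the pairs (generated) (MP_73ccd0_lc, route M). -/

set_option autoImplicit false
set_option maxRecDepth 100000

namespace Pool.Agent.RZ.RCO.PwDt

open Pool.Agent.RZ.RCM9 Pool.Agent.RZ.RCM9.Bern Pool.Agent.RZ.RCN.K.P3

open Pool.Agent.RZ.RCN.Ck1 Pool.Agent.RZ.RCO.RT

/-- the quotient of the threshold of the pairs -/
def sh : List ℚ := [1, 0, (-17/20)]

def q0 : List ℚ := [1000089/1000000, (-62009/31250), 695513/250000, (-353667/125000), 352337/200000, (-480113/1000000)]

def Rh : List ℚ := [113873/1000000, 837491/250000, 997673/500000, (-19790111/1000000), 31626383/1000000, (-4132701/200000), 979359/200000]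

def bq0 : List ℚ := [500887/500000, 2238573/500000, (-229014/15625), 9967879/1000000, 12774321/1000000, (-294417/15625), 3141949/500000]

def bqh : List ℚ := [428917/1000000, (-5351101/1000000), 71610837/1000000, (-5406943/40000), (-60326791/500000), 62000903/100000, (-653545973/1000000), 56364247/250000]

def rqh : List ℚ := [1533/5000, (-2077519/500000), 52081657/1000000, (-127044391/1000000), 14955987/125000, (-1280003/40000), (-1303683/200000)]

/-- the global polynomials -/
def G : Gl where
  ee := 1/500
  be0 := [100003/100000, 66809/31250, (-1562657/200000), 1892173/200000, (-946367/250000)]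
  be1 := [(-38799/20000), 262441/25000, (-14296889/1000000), 1981761/250000, (-903749/1000000)]
  kp1 := [1/500, 17487/50000, 3068/3125, 7257/10000, 147/3125, (-651/6250), (-186/3125), 22761/50000, 2529/2500, 27819/50000, 0, 0, 0, 0, 534/3125, 4539/12500, 2403/12500]
  al := [1/500000, 1251647/1250000, 4544501/100000000, (-276829059/100000000), 70813937/12500000, (-76647491/12500000), 41936097/10000000, (-85912613/50000000), 6742311/25000000, 2543013/50000000, 0]
  ga := [0, 99999/100000, 0, 0, 0, 0, 0, 0, 0, 0, 0, 0, 0]
  kA := [50001217/50000000, 3121/10000000, (-44739/100000000), 108513/800000, (-6441009/12500000), 34463507/25000000, (-86957201/50000000), 24390107/50000000, 58361481/50000000, (-127762969/100000000), 4128983/10000000, 0]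
  kq := [500033/500000, 16179/100000000, 341929/25000000, (-8138117/50000000), 32392773/25000000, (-613509283/100000000), 1695705727/100000000, (-1363054443/50000000), 1267049839/50000000, (-12498183/1000000), 6348471/2500000, 0]
  bp := [1088277/10000000, 554719/5000000, (-3281987/2000000), 12778491/2000000, (-99728007/10000000), 71112541/10000000, (-8825977/5000000), 0]
  ρ0 := 10817/10000
  q0 := q0
  Rh := Rh
  bq0 := bq0
  bqh := bqh
  rqh := rqh

theorem Gok : G.ok = true := by decide +kernel

end Pool.Agent.RZ.RCO.PwDt
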