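import Pool.Agent.RZ.RCM9.CertH
import Pool.Agent.RZ.RCO.Pw2
import Pool.Agent.RZ.RCO.PwDG

/-! The rates of the hazards (generated) (MP_73ccd0_lc, route M). -/

set_option autoImplicit false
set_option maxRecDepth 100000

namespace Pool.Agent.RZ.RCO.PwDt

open Pool.Agent.RZ.RCM9 Pool.Agent.RZ.RCM9.Bern Pool.Agent.RZ.RCM9.Pk Pool.Agent.RZ.RCN.K.P3
open Pool.Agent.RZ.RCN.Ck1 Pool.Agent.RZ.RCO.RT

theorem nRz : NN (eRz CertH.z.Rlo Rh) :=
  NN.of (K := 122) (D := ⟨4, 1, 1, 9⟩) (Box.of 1286123199547099 (by decide +kernel)) (by decide +kernel)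

end Pool.Agent.RZ.RCO.PwDt
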