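import Pool.Agent.RZ.RCO.PwDG
import Pool.Agent.RZ.RCO.RTab

/-! The numbers of the big cell 0 (generated) (MP_73ccd0_lc, route M). -/

set_option autoImplicit false
set_option maxRecDepth 100000

namespace Pool.Agent.RZ.RCO.PwDt

open Pool.Agent.RZ.RCM9 Pool.Agent.RZ.RCM9.Bern Pool.Agent.RZ.RCN.K.P3

open Pool.Agent.RZ.RCN.Ck1 Pool.Agent.RZ.RCO.RT

def c0 : Tc :=
  { m := 0, Bm := 5523/1000000, γ := 1/20, α := 12479/250000, e := 47157/1000000, g0 := 129723/125000, gh := 305771/1000000, g1 := 131529/500000, Kx := 551/500000,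
    kc := [10000263/10000000, 229/400000],
    ke := [250017/250000, 1849/10000000, 171367/10000000, (-702893/10000000)],
    Fp := [1/500000, 5000961/5000000, 47581/625000, (-30383513/10000000), 14712591/2500000],
    V := ⟨2519/12500, 679871/5000000, 687839/10000000, 1/10000000⟩,
    B0 := ⟨279081/1250000, 75923/500000, 48391/625000, 1/10000000⟩,
    Bh := ⟨204509/2500000, 278207/5000000, 283737/10000000, 1/10000000⟩,
    H := ⟨247379/10000000, 83539/5000000, 5289/625000, 1/10000000⟩,
    C0 := ⟨24737/1000000, 16713/1000000, 84679/10000000, 1/10000000⟩,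
    Ch := ⟨58371/10000000, 39439/10000000, 19983/10000000, 1/10000000⟩,
    A := 365971/2000000, M := 107279/5000000 }

theorem okA0 : c0.okA (RTab.tabq 1) G 1000000000000 4 = true := by decide +kernel

theorem okB0 : c0.okB (RTab.tabq 1) G 1000000000000 4 = true := by decide +kernel

theorem okC0 : c0.okC (RTab.tabq 1) G 1000000000000 4 = true := by decide +kernel

theorem ok0 : c0.ok (RTab.tabq 1) G 1000000000000 4 = true := Tc.ok_of okA0 okB0 okC0

end Pool.Agent.RZ.RCO.PwDt
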