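import Pool.Agent.RZ.RCO.Pw2
import Pool.Agent.RZ.RCO.PwDc0

/-! The range of the weights in the big cell 0 (generated) (MP_73ccd0_lc, route M). -/

set_option autoImplicit false
set_option maxRecDepth 100000

namespace Pool.Agent.RZ.RCO.PwDt

open Pool.Agent.RZ.RCM9 Pool.Agent.RZ.RCM9.Bern Pool.Agent.RZ.RCM9.Pk Pool.Agent.RZ.RCN.K.P3
open Pool.Agent.RZ.RCN.Ck1 Pool.Agent.RZ.RCO.RT

def r0 : Rg :=
  { u0 := 0, u1 := 1/12, qa := 1/200, pa := [10001/10000, 19999/10000, 15151/5000], p4 := [10001/10000, 19999/5000, 50759/5000], th := 1071/1000, thh := 519/500,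
    A1 := ⟨21583/100000, 14563/100000, 7367/100000, 1/100000⟩,
    B0 := ⟨20847/100000, 7089/50000, 723/10000, 1/100000⟩,
    Bh := ⟨7639/100000, 1299/25000, 53/2000, 1/100000⟩,
    A3 := ⟨321/12500, 347/20000, 879/100000, 1/100000⟩,
    C0 := ⟨149/6250, 1611/100000, 51/6250, 1/100000⟩,
    Ch := ⟨563/100000, 19/5000, 193/100000, 1/100000⟩,
    a6 := 18299/1000000, a7 := 447/250000, C := 100001/100000, mt := 251/5000, X := 1/2000, p1 := 1/2000 }

theorem rok0 : r0.ok c0 = true := by decide +kernel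

theorem nA0 : NN ((r0.qn c0).eA sh) :=
  NN.of (K := 192) (D := ⟨11, 10, 5, 1⟩) (Box.of 4 (by decide +kernel)) (by decide +kernel)

end Pool.Agent.RZ.RCO.PwDt
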