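import Pool.Agent.RZ.RCO.PwDG
import Pool.Agent.RZ.RCO.RTab

/-! The numbers of the big cell 1 (generated) (MP_73ccd0_lc, route M). -/

set_option autoImplicit false
set_option maxRecDepth 100000

namespace Pool.Agent.RZ.RCO.PwDt

open Pool.Agent.RZ.RCM9 Pool.Agent.RZ.RCM9.Bern Pool.Agent.RZ.RCN.K.P3

open Pool.Agent.RZ.RCN.Ck1 Pool.Agent.RZ.RCO.RT

def c1 : Tc :=
  { m := 1, Bm := 5519/500000, γ := 1/10, α := 98407/1000000, e := 819/125000, g0 := 1043077/1000000, gh := 255229/500000, g1 := 444107/1000000, Kx := 4753/1000000,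
    kc := [4999803/5000000, 9433/5000000],
    ke := [250017/250000, 653/2500000, 48793/2500000, (-145001/5000000)],
    Fp := [1/500000, 10002583/10000000, 44469/625000, (-1822169/625000), 49527149/10000000],
    V := ⟨440889/2500000, 1203003/10000000, 615237/10000000, 1/10000000⟩,
    B0 := ⟨32641/156250, 1430557/10000000, 183563/2500000, 1/10000000⟩,
    Bh := ⟨322629/5000000, 27611/625000, 45343/2000000, 1/10000000⟩,
    H := ⟨11173/250000, 302881/10000000, 19239/1250000, 1/10000000⟩,
    C0 := ⟨446861/10000000, 75773/2500000, 4817/312500, 1/10000000⟩,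
    Ch := ⟨1309/125000, 17759/2500000, 3613/1000000, 1/10000000⟩,
    A := 105631/625000, M := 197263/5000000 }

theorem okA1 : c1.okA (RTab.tabq 1) G 1000000000000 4 = true := by decide +kernel

theorem okB1 : c1.okB (RTab.tabq 1) G 1000000000000 4 = true := by decide +kernel

theorem okC1 : c1.okC (RTab.tabq 1) G 1000000000000 4 = true := by decide +kernel

theorem ok1 : c1.ok (RTab.tabq 1) G 1000000000000 4 = true := Tc.ok_of okA1 okB1 okC1

end Pool.Agent.RZ.RCO.PwDt
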