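import Pool.Agent.RZ.RCO.Pw2
import Pool.Agent.RZ.RCO.PwDc1

/-! The range of the weights in the big cell 1 (generated) (MP_73ccd0_lc, route M). -/

set_option autoImplicit false
set_option maxRecDepth 100000

namespace Pool.Agent.RZ.RCO.PwDt

open Pool.Agent.RZ.RCM9 Pool.Agent.RZ.RCM9.Bern Pool.Agent.RZ.RCM9.Pk Pool.Agent.RZ.RCN.K.P3
open Pool.Agent.RZ.RCN.Ck1 Pool.Agent.RZ.RCO.RT

def r1 : Rg :=
  { u0 := 0, u1 := 1/12, qa := 9/1000, pa := [10001/10000, 9999/5000, 30547/10000], p4 := [10001/10000, 39991/10000, 51377/5000], th := 213/200, thh := 997/1000,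
    A1 := ⟨9391/50000, 3203/25000, 6553/100000, 1/100000⟩,
    B0 := ⟨613/3125, 13433/100000, 1379/20000, 1/100000⟩,
    Bh := ⟨6059/100000, 4149/100000, 2129/100000, 1/100000⟩,
    A3 := ⟨557/12500, 151/5000, 307/20000, 1/100000⟩,
    C0 := ⟨4483/100000, 3041/100000, 1547/100000, 1/100000⟩,
    Ch := ⟨1051/100000, 713/100000, 363/100000, 1/100000⟩,
    a6 := 16901/1000000, a7 := 411/125000, C := 100001/100000, mt := 993/10000, X := 1/1000, p1 := 1/1000 }

theorem rok1 : r1.ok c1 = true := by decide +kernel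

theorem nA1 : NN ((r1.qn c1).eA sh) :=
  NN.of (K := 190) (D := ⟨11, 10, 5, 1⟩) (Box.of 4 (by decide +kernel)) (by decide +kernel)

end Pool.Agent.RZ.RCO.PwDt
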