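import Pool.Agent.RZ.RCO.PwDG
import Pool.Agent.RZ.RCO.RTab

/-! The numbers of the big cell 10 (generated) (MP_73ccd0_lc, route M). -/

set_option autoImplicit false
set_option maxRecDepth 100000

namespace Pool.Agent.RZ.RCO.PwDt

open Pool.Agent.RZ.RCM9 Pool.Agent.RZ.RCM9.Bern Pool.Agent.RZ.RCN.K.P3

open Pool.Agent.RZ.RCN.Ck1 Pool.Agent.RZ.RCO.RT

def c10 : Tc :=
  { m := 10, Bm := 98023/1000000, γ := 157/200, α := 508647/1000000, e := 4721/250000, g0 := 23107/40000, gh := 423393/500000, g1 := 846133/1000000, Kx := 1191093/1000000,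
    kc := [9621169/10000000, 157393/2000000],
    ke := [2000171/2000000, 3997/1000000, 671301/10000000, 357053/2000000, (-452799/1250000), 3074353/10000000],
    Fp := [497/10000000, 10130959/10000000, (-1451863/10000000), (-792133/500000), 21859087/10000000, (-1154969/1250000)],
    V := ⟨571617/2000000, 2190491/10000000, 1237797/10000000, 1/10000000⟩,
    B0 := ⟨1629603/5000000, 1441553/5000000, 359341/2000000, 1/10000000⟩,
    Bh := ⟨2159979/5000000, 3683551/10000000, 2243567/10000000, 1/10000000⟩,
    H := ⟨2919279/10000000, 224773/1000000, 637319/5000000, 1/10000000⟩,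
    C0 := ⟨713471/2500000, 2346697/10000000, 1395403/10000000, 1/10000000⟩,
    Ch := ⟨4357363/10000000, 3522401/10000000, 517487/2500000, 1/10000000⟩,
    A := 3115367/10000000, M := 372223/1250000 }

theorem okA10 : c10.okA (RTab.tabq 1) G 1000000000000 4 = true := by decide +kernel

theorem okB10 : c10.okB (RTab.tabq 1) G 1000000000000 4 = true := by decide +kernel

theorem okC10 : c10.okC (RTab.tabq 1) G 1000000000000 4 = true := by decide +kernel

theorem ok10 : c10.ok (RTab.tabq 1) G 1000000000000 4 = true := Tc.ok_of okA10 okB10 okC10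

end Pool.Agent.RZ.RCO.PwDt
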