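import Pool.Agent.RZ.RCO.Pw2
import Pool.Agent.RZ.RCO.PwDc10

/-! The range of the weights in the big cell 10 (generated) (MP_73ccd0_lc, route M). -/

set_option autoImplicit false
set_option maxRecDepth 100000

namespace Pool.Agent.RZ.RCO.PwDt

open Pool.Agent.RZ.RCM9 Pool.Agent.RZ.RCM9.Bern Pool.Agent.RZ.RCM9.Pk Pool.Agent.RZ.RCN.K.P3
open Pool.Agent.RZ.RCN.Ck1 Pool.Agent.RZ.RCO.RT

def r10 : Rg :=
  { u0 := 0, u1 := 1/12, qa := 6/125, pa := [10001/10000, 19943/10000, 33103/10000], p4 := [1261/1250, 40041/10000, 116991/10000], th := 91/50, thh := 403/250,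
    A1 := ⟨26009/50000, 39867/100000, 704/3125, 1/100000⟩,
    B0 := ⟨4477/25000, 7921/50000, 9873/100000, 1/100000⟩,
    Bh := ⟨23737/100000, 253/1250, 1541/12500, 1/100000⟩,
    A3 := ⟨47059/100000, 18117/50000, 5137/25000, 1/100000⟩,
    C0 := ⟨2213/12500, 7279/50000, 8657/100000, 1/100000⟩,
    Ch := ⟨27031/100000, 5463/25000, 12841/100000, 1/100000⟩,
    a6 := 15577/500000, a7 := 4963/200000, C := 100427/100000, mt := 271/500, X := 1311/10000, p1 := 12299/100000 }

theorem rok10 : r10.ok c10 = true := by decide +kernel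

theorem nA10 : NN ((r10.qn c10).eA sh) :=
  NN.of (K := 205) (D := ⟨11, 10, 5, 1⟩) (Box.of 4 (by decide +kernel)) (by decide +kernel)

end Pool.Agent.RZ.RCO.PwDt
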