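import Pool.Agent.RZ.RCO.PwDG
import Pool.Agent.RZ.RCO.RTab

/-! The numbers of the big cell 11 (generated) (MP_73ccd0_lc, route M). -/

set_option autoImplicit false
set_option maxRecDepth 100000

namespace Pool.Agent.RZ.RCO.PwDt

open Pool.Agent.RZ.RCM9 Pool.Agent.RZ.RCM9.Bern Pool.Agent.RZ.RCN.K.P3

open Pool.Agent.RZ.RCN.Ck1 Pool.Agent.RZ.RCO.RT

def c11 : Tc :=
  { m := 11, Bm := 26541/250000, γ := 33/40, α := 262829/500000, e := 1861/100000, g0 := 280849/500000, gh := 167207/200000, g1 := 835299/1000000, Kx := 1488423/1000000,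
    kc := [9545349/10000000, 883551/10000000],
    ke := [2000193/2000000, 57003/10000000, 570043/10000000, 314863/1250000, (-1194539/2500000), 927673/2500000],
    Fp := [371/5000000, 5075843/5000000, (-1699631/10000000), (-14788391/10000000), 50353/25000, (-2068617/2500000)],
    V := ⟨2789993/10000000, 268843/1250000, 1220747/10000000, 1/10000000⟩,
    B0 := ⟨3132471/10000000, 1410503/5000000, 35537/200000, 1/10000000⟩,
    Bh := ⟨2162137/5000000, 3737703/10000000, 2296279/10000000, 1/10000000⟩,
    H := ⟨2976263/10000000, 1155077/5000000, 1318067/10000000, 1/10000000⟩,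
    C0 := ⟨725863/2500000, 2422997/10000000, 1455327/10000000, 1/10000000⟩,
    Ch := ⟨2297819/5000000, 1883011/5000000, 89369/400000, 1/10000000⟩,
    A := 1519389/5000000, M := 305059/1000000 }

theorem okA11 : c11.okA (RTab.tabq 1) G 1000000000000 4 = true := by decide +kernel

theorem okB11 : c11.okB (RTab.tabq 1) G 1000000000000 4 = true := by decide +kernel

theorem okC11 : c11.okC (RTab.tabq 1) G 1000000000000 4 = true := by decide +kernel

theorem ok11 : c11.ok (RTab.tabq 1) G 1000000000000 4 = true := Tc.ok_of okA11 okB11 okC11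

end Pool.Agent.RZ.RCO.PwDt
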