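import Pool.Agent.RZ.RCO.Pw2
import Pool.Agent.RZ.RCO.PwDc11

/-! The range of the weights in the big cell 11 (generated) (MP_73ccd0_lc, route M). -/

set_option autoImplicit false
set_option maxRecDepth 100000

namespace Pool.Agent.RZ.RCO.PwDt

open Pool.Agent.RZ.RCM9 Pool.Agent.RZ.RCM9.Bern Pool.Agent.RZ.RCM9.Pk Pool.Agent.RZ.RCN.K.P3
open Pool.Agent.RZ.RCN.Ck1 Pool.Agent.RZ.RCO.RT

def r11 : Rg :=
  { u0 := 0, u1 := 1/12, qa := 1/20, pa := [10001/10000, 19937/10000, 33243/10000], p4 := [2033/2000, 40319/10000, 59321/5000], th := 1857/1000, thh := 206/125,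
    A1 := ⟨51811/100000, 1997/5000, 2267/10000, 1/100000⟩,
    B0 := ⟨16869/100000, 1899/12500, 9569/100000, 1/100000⟩,
    Bh := ⟨23287/100000, 629/3125, 6183/50000, 1/100000⟩,
    A3 := ⟨49049/100000, 4759/12500, 10861/50000, 1/100000⟩,
    C0 := ⟨17619/100000, 14703/100000, 8831/100000, 1/100000⟩,
    Ch := ⟨27887/100000, 22853/100000, 6779/50000, 1/100000⟩,
    a6 := 7597/250000, a7 := 12711/500000, C := 100811/100000, mt := 2809/5000, X := 1581/10000, p1 := 14641/100000 }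

theorem rok11 : r11.ok c11 = true := by decide +kernel

theorem nA11 : NN ((r11.qn c11).eA sh) :=
  NN.of (K := 196) (D := ⟨11, 10, 5, 1⟩) (Box.of 4 (by decide +kernel)) (by decide +kernel)

end Pool.Agent.RZ.RCO.PwDt
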