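import Pool.Agent.RZ.RCO.PwDG
import Pool.Agent.RZ.RCO.RTab

/-! The numbers of the big cell 12 (generated) (MP_73ccd0_lc, route M). -/

set_option autoImplicit false
set_option maxRecDepth 100000

namespace Pool.Agent.RZ.RCO.PwDt

open Pool.Agent.RZ.RCM9 Pool.Agent.RZ.RCM9.Bern Pool.Agent.RZ.RCN.K.P3

open Pool.Agent.RZ.RCN.Ck1 Pool.Agent.RZ.RCO.RT

def c12 : Tc :=
  { m := 12, Bm := 56953/500000, γ := 43/50, α := 540813/1000000, e := 907/50000, g0 := 550507/1000000, gh := 829303/1000000, g1 := 414011/500000, Kx := 1825839/1000000,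
    kc := [4732603/5000000, 490347/5000000],
    ke := [1250121/1250000, 37189/5000000, 233543/5000000, 3217367/10000000, (-364969/625000), 2137141/5000000],
    Fp := [149/2000000, 10170857/10000000, (-239983/1250000), (-555519/400000), 18737151/10000000, (-7519807/10000000)],
    V := ⟨170583/625000, 42291/200000, 48191/400000, 1/10000000⟩,
    B0 := ⟨3029869/10000000, 277333/1000000, 14107/80000, 1/10000000⟩,
    Bh := ⟨4312481/10000000, 944323/2500000, 2339799/10000000, 1/10000000⟩,
    H := ⟨3018209/10000000, 589327/2500000, 1351239/10000000, 1/10000000⟩,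
    C0 := ⟨2938897/10000000, 2483699/10000000, 150523/1000000, 1/10000000⟩,
    Ch := ⟨2392759/5000000, 158687/400000, 148293/625000, 1/10000000⟩,
    A := 2971943/10000000, M := 3104993/10000000 }

theorem okA12 : c12.okA (RTab.tabq 1) G 1000000000000 4 = true := by decide +kernel

theorem okB12 : c12.okB (RTab.tabq 1) G 1000000000000 4 = true := by decide +kernel

theorem okC12 : c12.okC (RTab.tabq 1) G 1000000000000 4 = true := by decide +kernel

theorem ok12 : c12.ok (RTab.tabq 1) G 1000000000000 4 = true := Tc.ok_of okA12 okB12 okC12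

end Pool.Agent.RZ.RCO.PwDt
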