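import Pool.Agent.RZ.RCO.Pw2
import Pool.Agent.RZ.RCO.PwDc12

/-! The range of the weights in the big cell 12 (generated) (MP_73ccd0_lc, route M). -/

set_option autoImplicit false
set_option maxRecDepth 100000

namespace Pool.Agent.RZ.RCO.PwDt

open Pool.Agent.RZ.RCM9 Pool.Agent.RZ.RCM9.Bern Pool.Agent.RZ.RCM9.Pk Pool.Agent.RZ.RCN.K.P3
open Pool.Agent.RZ.RCN.Ck1 Pool.Agent.RZ.RCO.RT

def r12 : Rg :=
  { u0 := 0, u1 := 1/12, qa := 13/250, pa := [10001/10000, 4983/2500, 33383/10000], p4 := [2051/2000, 40643/10000, 2409/200], th := 941/500, thh := 167/100,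
    A1 := ⟨25683/50000, 9949/25000, 11337/50000, 1/100000⟩,
    B0 := ⟨161/1000, 14737/100000, 937/10000, 1/100000⟩,
    Bh := ⟨4583/20000, 20071/100000, 12433/100000, 1/100000⟩,
    A3 := ⟨10081/20000, 4921/12500, 11283/50000, 1/100000⟩,
    C0 := ⟨17599/100000, 14873/100000, 4507/50000, 1/100000⟩,
    Ch := ⟨1791/6250, 5939/25000, 444/3125, 1/100000⟩,
    a6 := 743/25000, a7 := 207/8000, C := 25313/25000, mt := 1449/2500, X := 1877/10000, p1 := 17137/100000 }

theorem rok12 : r12.ok c12 = true := by decide +kernel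

theorem nA12 : NN ((r12.qn c12).eA sh) :=
  NN.of (K := 192) (D := ⟨11, 10, 5, 1⟩) (Box.of 4 (by decide +kernel)) (by decide +kernel)

end Pool.Agent.RZ.RCO.PwDt
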