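import Pool.Agent.RZ.RCO.PwDG
import Pool.Agent.RZ.RCO.RTab

/-! The numbers of the big cell 13 (generated) (MP_73ccd0_lc, route M). -/

set_option autoImplicit false
set_option maxRecDepth 100000

namespace Pool.Agent.RZ.RCO.PwDt

open Pool.Agent.RZ.RCM9 Pool.Agent.RZ.RCM9.Bern Pool.Agent.RZ.RCN.K.P3

open Pool.Agent.RZ.RCN.Ck1 Pool.Agent.RZ.RCO.RT

def c13 : Tc :=
  { m := 13, Bm := 30271/250000, γ := 89/100, α := 277063/500000, e := 8751/500000, g0 := 270663/500000, gh := 824891/1000000, g1 := 411523/500000, Kx := 1097033/500000,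
    kc := [9376523/10000000, 541907/5000000],
    ke := [2500283/2500000, 90817/10000000, 186439/5000000, 960541/2500000, (-27047/40000), 4750179/10000000],
    Fp := [747/10000000, 636761/625000, (-2109847/10000000), (-1642027/1250000), 17606729/10000000, (-3467037/5000000)],
    V := ⟨2655113/10000000, 2065771/10000000, 590367/5000000, 1/10000000⟩,
    B0 := ⟨2926349/10000000, 542363/2000000, 868183/5000000, 1/10000000⟩,
    Bh := ⟨2133523/5000000, 3775301/10000000, 1176477/5000000, 1/10000000⟩,
    H := ⟨189171/625000, 1187861/5000000, 1366811/10000000, 1/10000000⟩,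
    C0 := ⟨2942781/10000000, 2513559/10000000, 191867/1250000, 1/10000000⟩,
    Ch := ⟨4911089/10000000, 2055227/5000000, 1237431/5000000, 1/10000000⟩,
    A := 2891207/10000000, M := 3123371/10000000 }

theorem okA13 : c13.okA (RTab.tabq 1) G 1000000000000 4 = true := by decide +kernel

theorem okB13 : c13.okB (RTab.tabq 1) G 1000000000000 4 = true := by decide +kernel

theorem okC13 : c13.okC (RTab.tabq 1) G 1000000000000 4 = true := by decide +kernel

theorem ok13 : c13.ok (RTab.tabq 1) G 1000000000000 4 = true := Tc.ok_of okA13 okB13 okC13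

end Pool.Agent.RZ.RCO.PwDt
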