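import Pool.Agent.RZ.RCO.Pw2
import Pool.Agent.RZ.RCO.PwDc13

/-! The range of the weights in the big cell 13 (generated) (MP_73ccd0_lc, route M). -/

set_option autoImplicit false
set_option maxRecDepth 100000

namespace Pool.Agent.RZ.RCO.PwDt

open Pool.Agent.RZ.RCM9 Pool.Agent.RZ.RCM9.Bern Pool.Agent.RZ.RCM9.Pk Pool.Agent.RZ.RCN.K.P3
open Pool.Agent.RZ.RCN.Ck1 Pool.Agent.RZ.RCO.RT

def r13 : Rg :=
  { u0 := 0, u1 := 1/12, qa := 27/500, pa := [10001/10000, 9963/5000, 1341/400], p4 := [10363/10000, 41039/10000, 61249/5000], th := 1901/1000, thh := 1687/1000,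
    A1 := ⟨25237/50000, 39271/100000, 11223/50000, 1/100000⟩,
    B0 := ⟨7697/50000, 7133/50000, 4567/50000, 1/100000⟩,
    Bh := ⟨22447/100000, 993/5000, 6189/50000, 1/100000⟩,
    A3 := ⟨25531/50000, 40079/100000, 23059/100000, 1/100000⟩,
    C0 := ⟨4361/25000, 149/1000, 9099/100000, 1/100000⟩,
    Ch := ⟨3639/12500, 12183/50000, 14671/100000, 1/100000⟩,
    a6 := 28913/1000000, a7 := 26029/1000000, C := 50891/50000, mt := 5953/10000, X := 136/625, p1 := 9793/50000 }

theorem rok13 : r13.ok c13 = true := by decide +kernel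

theorem nA13 : NN ((r13.qn c13).eA sh) :=
  NN.of (K := 201) (D := ⟨11, 10, 5, 1⟩) (Box.of 4 (by decide +kernel)) (by decide +kernel)

end Pool.Agent.RZ.RCO.PwDt
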