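import Pool.Agent.RZ.RCO.PwDG
import Pool.Agent.RZ.RCO.RTab

/-! The numbers of the big cell 14 (generated) (MP_73ccd0_lc, route M). -/

set_option autoImplicit false
set_option maxRecDepth 100000

namespace Pool.Agent.RZ.RCO.PwDt

open Pool.Agent.RZ.RCM9 Pool.Agent.RZ.RCM9.Bern Pool.Agent.RZ.RCN.K.P3

open Pool.Agent.RZ.RCN.Ck1 Pool.Agent.RZ.RCO.RT

def c14 : Tc :=
  { m := 14, Bm := 63753/500000, γ := 183/200, α := 113107/200000, e := 16783/1000000, g0 := 533533/1000000, gh := 205559/250000, g1 := 41001/50000, Kx := 643749/250000,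
    kc := [580063/625000, 595567/5000000],
    ke := [2000227/2000000, 13179/1250000, 29287/1000000, 437353/1000000, (-1882131/2500000), 2568623/5000000],
    Fp := [557/5000000, 10202891/10000000, (-2267987/10000000), (-391431/312500), 16715599/10000000, (-6485927/10000000)],
    V := ⟨2573147/10000000, 403157/2000000, 1158071/10000000, 1/10000000⟩,
    B0 := ⟨352299/1250000, 2639891/10000000, 1700429/10000000, 1/10000000⟩,
    Bh := ⟨2096279/5000000, 748201/2000000, 36617/156250, 1/10000000⟩,
    H := ⟨3008749/10000000, 2371841/10000000, 684463/5000000, 1/10000000⟩,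
    C0 := ⟨2921297/10000000, 629831/2500000, 48359/312500, 1/10000000⟩,
    Ch := ⟨4977979/10000000, 4200861/10000000, 508559/2000000, 1/10000000⟩,
    A := 2802559/10000000, M := 389089/1250000 }

theorem okA14 : c14.okA (RTab.tabq 1) G 1000000000000 4 = true := by decide +kernel

theorem okB14 : c14.okB (RTab.tabq 1) G 1000000000000 4 = true := by decide +kernel

theorem okC14 : c14.okC (RTab.tabq 1) G 1000000000000 4 = true := by decide +kernel

theorem ok14 : c14.ok (RTab.tabq 1) G 1000000000000 4 = true := Tc.ok_of okA14 okB14 okC14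

end Pool.Agent.RZ.RCO.PwDt
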