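import Pool.Agent.RZ.RCO.Pw2
import Pool.Agent.RZ.RCO.PwDc14

/-! The range of the weights in the big cell 14 (generated) (MP_73ccd0_lc, route M). -/

set_option autoImplicit false
set_option maxRecDepth 100000

namespace Pool.Agent.RZ.RCO.PwDt

open Pool.Agent.RZ.RCM9 Pool.Agent.RZ.RCM9.Bern Pool.Agent.RZ.RCM9.Pk Pool.Agent.RZ.RCN.K.P3
open Pool.Agent.RZ.RCN.Ck1 Pool.Agent.RZ.RCO.RT

def r14 : Rg :=
  { u0 := 0, u1 := 1/12, qa := 11/200, pa := [10001/10000, 19923/10000, 8399/2500], p4 := [10467/10000, 20717/5000, 124127/10000], th := 383/200, thh := 17/10,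
    A1 := ⟨12319/25000, 38603/100000, 11089/50000, 1/100000⟩,
    B0 := ⟨7359/50000, 6893/50000, 111/1250, 1/100000⟩,
    Bh := ⟨10947/50000, 1221/6250, 6119/50000, 1/100000⟩,
    A3 := ⟨51149/100000, 20161/50000, 2909/12500, 1/100000⟩,
    C0 := ⟨3437/20000, 741/5000, 9103/100000, 1/100000⟩,
    Ch := ⟨29283/100000, 24711/100000, 7479/50000, 1/100000⟩,
    a6 := 14013/500000, a7 := 1297/50000, C := 25573/25000, mt := 6087/10000, X := 1229/5000, p1 := 2183/10000 }

theorem rok14 : r14.ok c14 = true := by decide +kernel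

theorem nA14 : NN ((r14.qn c14).eA sh) :=
  NN.of (K := 201) (D := ⟨11, 10, 5, 1⟩) (Box.of 4 (by decide +kernel)) (by decide +kernel)

end Pool.Agent.RZ.RCO.PwDt
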