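import Pool.Agent.RZ.RCO.PwDG
import Pool.Agent.RZ.RCO.RTab

/-! The numbers of the big cell 15 (generated) (MP_73ccd0_lc, route M). -/

set_option autoImplicit false
set_option maxRecDepth 100000

namespace Pool.Agent.RZ.RCO.PwDt

open Pool.Agent.RZ.RCM9 Pool.Agent.RZ.RCM9.Bern Pool.Agent.RZ.RCN.K.P3

open Pool.Agent.RZ.RCN.Ck1 Pool.Agent.RZ.RCO.RT

def c15 : Tc :=
  { m := 15, Bm := 33383/250000, γ := 937/1000, α := 287939/500000, e := 4027/250000, g0 := 526847/1000000, gh := 205203/250000, g1 := 163697/200000, Kx := 745457/250000,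
    kc := [9178473/10000000, 260639/2000000],
    ke := [10001379/10000000, 59457/5000000, 27817/1250000, 193871/400000, (-4099673/5000000), 109403/200000],
    Fp := [279/2500000, 1277041/1250000, (-240637/1000000), (-12002763/10000000), 3992609/2500000, (-1530063/2500000)],
    V := ⟨501073/2000000, 987/5000, 1138879/10000000, 1/10000000⟩,
    B0 := ⟨2732643/10000000, 2587273/10000000, 1676393/10000000, 1/10000000⟩,
    Bh := ⟨1032561/2500000, 3722509/10000000, 2345763/10000000, 1/10000000⟩,
    H := ⟨598751/2000000, 2370349/10000000, 1372431/10000000, 1/10000000⟩,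
    C0 := ⟨2903509/10000000, 1262731/5000000, 389779/2500000, 1/10000000⟩,
    Ch := ⟨629229/1250000, 855673/2000000, 325179/1250000, 1/10000000⟩,
    A := 1364741/5000000, M := 62073/200000 }

theorem okA15 : c15.okA (RTab.tabq 1) G 1000000000000 4 = true := by decide +kernel

theorem okB15 : c15.okB (RTab.tabq 1) G 1000000000000 4 = true := by decide +kernel

theorem okC15 : c15.okC (RTab.tabq 1) G 1000000000000 4 = true := by decide +kernel

theorem ok15 : c15.ok (RTab.tabq 1) G 1000000000000 4 = true := Tc.ok_of okA15 okB15 okC15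

end Pool.Agent.RZ.RCO.PwDt
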