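import Pool.Agent.RZ.RCO.Pw2
import Pool.Agent.RZ.RCO.PwDc15

/-! The range of the weights in the big cell 15 (generated) (MP_73ccd0_lc, route M). -/

set_option autoImplicit false
set_option maxRecDepth 100000

namespace Pool.Agent.RZ.RCO.PwDt

open Pool.Agent.RZ.RCM9 Pool.Agent.RZ.RCM9.Bern Pool.Agent.RZ.RCM9.Pk Pool.Agent.RZ.RCN.K.P3
open Pool.Agent.RZ.RCN.Ck1 Pool.Agent.RZ.RCO.RT

def r15 : Rg :=
  { u0 := 0, u1 := 1/12, qa := 7/125, pa := [10001/10000, 249/125, 33667/10000], p4 := [2649/2500, 41929/10000, 126063/10000], th := 77/40, thh := 427/250,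
    A1 := ⟨48229/100000, 19/50, 5481/25000, 1/100000⟩,
    B0 := ⟨3549/25000, 13441/100000, 8709/100000, 1/100000⟩,
    Bh := ⟨1341/6250, 9669/50000, 6093/50000, 1/100000⟩,
    A3 := ⟨25567/50000, 20243/50000, 11721/50000, 1/100000⟩,
    C0 := ⟨17/100, 14787/100000, 9129/100000, 1/100000⟩,
    Ch := ⟨29473/100000, 25049/100000, 15231/100000, 1/100000⟩,
    a6 := 5459/200000, a7 := 3233/125000, C := 102921/100000, mt := 6209/10000, X := 2753/10000, p1 := 24111/100000 }

theorem rok15 : r15.ok c15 = true := by decide +kernel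

theorem nA15 : NN ((r15.qn c15).eA sh) :=
  NN.of (K := 212) (D := ⟨11, 10, 5, 1⟩) (Box.of 4 (by decide +kernel)) (by decide +kernel)

end Pool.Agent.RZ.RCO.PwDt
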