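import Pool.Agent.RZ.RCO.PwDG
import Pool.Agent.RZ.RCO.RTab

/-! The numbers of the big cell 16 (generated) (MP_73ccd0_lc, route M). -/

set_option autoImplicit false
set_option maxRecDepth 100000

namespace Pool.Agent.RZ.RCO.PwDt

open Pool.Agent.RZ.RCM9 Pool.Agent.RZ.RCM9.Bern Pool.Agent.RZ.RCN.K.P3

open Pool.Agent.RZ.RCN.Ck1 Pool.Agent.RZ.RCO.RT

def c16 : Tc :=
  { m := 16, Bm := 139049/1000000, γ := 239/250, α := 585091/1000000, e := 3859/250000, g0 := 260327/500000, gh := 41007/50000, g1 := 818127/1000000, Kx := 3400441/1000000,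
    kc := [2267007/2500000, 284213/2000000],
    ke := [10001381/10000000, 131051/10000000, 5061/312500, 2630309/5000000, (-2194361/2500000), 2876557/5000000],
    Fp := [1117/10000000, 1278481/1250000, (-2524681/10000000), (-5781191/5000000), 15355897/10000000, (-582493/1000000)],
    V := ⟨2441857/10000000, 483269/2500000, 8953/80000, 1/10000000⟩,
    B0 := ⟨2652507/10000000, 2530653/10000000, 329297/2000000, 1/10000000⟩,
    Bh := ⟨4064411/10000000, 1843007/5000000, 582803/2500000, 1/10000000⟩,
    H := ⟨1487433/5000000, 2361893/10000000, 42821/312500, 1/10000000⟩,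
    C0 := ⟨576043/2000000, 252431/1000000, 782843/5000000, 1/10000000⟩,
    Ch := ⟨5068699/10000000, 1083727/2500000, 2646803/10000000, 1/10000000⟩,
    A := 2661047/10000000, M := 3089583/10000000 }

theorem okA16 : c16.okA (RTab.tabq 1) G 1000000000000 4 = true := by decide +kernel

theorem okB16 : c16.okB (RTab.tabq 1) G 1000000000000 4 = true := by decide +kernel

theorem okC16 : c16.okC (RTab.tabq 1) G 1000000000000 4 = true := by decide +kernel

theorem ok16 : c16.ok (RTab.tabq 1) G 1000000000000 4 = true := Tc.ok_of okA16 okB16 okC16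

end Pool.Agent.RZ.RCO.PwDt
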