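import Pool.Agent.RZ.RCO.Pw2
import Pool.Agent.RZ.RCO.PwDc16

/-! The range of the weights in the big cell 16 (generated) (MP_73ccd0_lc, route M). -/

set_option autoImplicit false
set_option maxRecDepth 100000

namespace Pool.Agent.RZ.RCO.PwDt

open Pool.Agent.RZ.RCM9 Pool.Agent.RZ.RCM9.Bern Pool.Agent.RZ.RCM9.Pk Pool.Agent.RZ.RCN.K.P3
open Pool.Agent.RZ.RCN.Ck1 Pool.Agent.RZ.RCO.RT

def r16 : Rg :=
  { u0 := 0, u1 := 1/12, qa := 57/1000, pa := [10001/10000, 19917/10000, 33739/10000], p4 := [2679/2500, 2649/625, 127897/10000], th := 1933/1000, thh := 857/500,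
    A1 := ⟨23601/50000, 37367/100000, 21633/100000, 1/100000⟩,
    B0 := ⟨13723/100000, 3273/25000, 4259/50000, 1/100000⟩,
    Bh := ⟨21027/100000, 19069/100000, 12061/100000, 1/100000⟩,
    A3 := ⟨5099/10000, 40483/100000, 23487/100000, 1/100000⟩,
    C0 := ⟨3361/20000, 1841/12500, 1827/20000, 1/100000⟩,
    Ch := ⟨29573/100000, 6323/25000, 15443/100000, 1/100000⟩,
    a6 := 26611/1000000, a7 := 25747/1000000, C := 207/200, mt := 3159/5000, X := 3043/10000, p1 := 2629/10000 }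

theorem rok16 : r16.ok c16 = true := by decide +kernel

theorem nA16 : NN ((r16.qn c16).eA sh) :=
  NN.of (K := 206) (D := ⟨11, 10, 5, 1⟩) (Box.of 4 (by decide +kernel)) (by decide +kernel)

end Pool.Agent.RZ.RCO.PwDt
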