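import Pool.Agent.RZ.RCO.PwDG
import Pool.Agent.RZ.RCO.RTab

/-! The numbers of the big cell 17 (generated) (MP_73ccd0_lc, route M). -/

set_option autoImplicit false
set_option maxRecDepth 100000

namespace Pool.Agent.RZ.RCO.PwDt

open Pool.Agent.RZ.RCM9 Pool.Agent.RZ.RCM9.Bern Pool.Agent.RZ.RCN.K.P3

open Pool.Agent.RZ.RCN.Ck1 Pool.Agent.RZ.RCO.RT

def c17 : Tc :=
  { m := 17, Bm := 144253/1000000, γ := 973/1000, α := 593593/1000000, e := 1853/125000, g0 := 6437/12500, gh := 820161/1000000, g1 := 32753/40000, Kx := 3839337/1000000,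
    kc := [55939/62500, 61771/400000],
    ke := [10001383/10000000, 8899/625000, 2683/250000, 563757/1000000, (-2324379/2500000), 1200951/2000000],
    Fp := [1119/10000000, 1279777/1250000, (-1314619/5000000), (-11178349/10000000), 14829403/10000000, (-2788193/5000000)],
    V := ⟨23941/100000, 1900371/10000000, 551169/5000000, 1/10000000⟩,
    B0 := ⟨1293563/5000000, 2485541/10000000, 1623167/10000000, 1/10000000⟩,
    Bh := ⟨4012787/10000000, 731861/2000000, 232171/1000000, 1/10000000⟩,
    H := ⟨741533/2500000, 2360337/10000000, 685813/5000000, 1/10000000⟩,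
    C0 := ⟨358363/1250000, 2529343/10000000, 31537/200000, 1/10000000⟩,
    Ch := ⟨5109601/10000000, 2196479/5000000, 2693501/10000000, 1/10000000⟩,
    A := 163113/625000, M := 1542577/5000000 }

theorem okA17 : c17.okA (RTab.tabq 1) G 1000000000000 4 = true := by decide +kernel

theorem okB17 : c17.okB (RTab.tabq 1) G 1000000000000 4 = true := by decide +kernel

theorem okC17 : c17.okC (RTab.tabq 1) G 1000000000000 4 = true := by decide +kernel

theorem ok17 : c17.ok (RTab.tabq 1) G 1000000000000 4 = true := Tc.ok_of okA17 okB17 okC17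

end Pool.Agent.RZ.RCO.PwDt
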