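import Pool.Agent.RZ.RCO.Pw2
import Pool.Agent.RZ.RCO.PwDc17

/-! The range of the weights in the big cell 17 (generated) (MP_73ccd0_lc, route M). -/

set_option autoImplicit false
set_option maxRecDepth 100000

namespace Pool.Agent.RZ.RCO.PwDt

open Pool.Agent.RZ.RCM9 Pool.Agent.RZ.RCM9.Bern Pool.Agent.RZ.RCM9.Pk Pool.Agent.RZ.RCN.K.P3
open Pool.Agent.RZ.RCN.Ck1 Pool.Agent.RZ.RCO.RT

def r17 : Rg :=
  { u0 := 0, u1 := 1/12, qa := 29/500, pa := [10001/10000, 9957/5000, 33811/10000], p4 := [5423/5000, 42879/10000, 25973/2000], th := 1937/1000, thh := 1719/1000,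
    A1 := ⟨23187/50000, 36811/100000, 21353/100000, 1/100000⟩,
    B0 := ⟨13357/100000, 401/3125, 419/5000, 1/100000⟩,
    Bh := ⟨20717/100000, 4723/25000, 11987/100000, 1/100000⟩,
    A3 := ⟨12747/25000, 1623/4000, 23579/100000, 1/100000⟩,
    C0 := ⟨8339/50000, 2943/20000, 4587/50000, 1/100000⟩,
    Ch := ⟨1189/4000, 6389/25000, 15669/100000, 1/100000⟩,
    a6 := 26099/1000000, a7 := 2571/100000, C := 833/800, mt := 3209/5000, X := 3351/10000, p1 := 28537/100000 }

theorem rok17 : r17.ok c17 = true := by decide +kernel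

theorem nA17 : NN ((r17.qn c17).eA sh) :=
  NN.of (K := 211) (D := ⟨11, 10, 5, 1⟩) (Box.of 4 (by decide +kernel)) (by decide +kernel)

end Pool.Agent.RZ.RCO.PwDt
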