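import Pool.Agent.RZ.RCO.PwDG
import Pool.Agent.RZ.RCO.RTab

/-! The numbers of the big cell 18 (generated) (MP_73ccd0_lc, route M). -/

set_option autoImplicit false
set_option maxRecDepth 100000

namespace Pool.Agent.RZ.RCO.PwDt

open Pool.Agent.RZ.RCM9 Pool.Agent.RZ.RCM9.Bern Pool.Agent.RZ.RCN.K.P3

open Pool.Agent.RZ.RCN.Ck1 Pool.Agent.RZ.RCO.RT

def c18 : Tc :=
  { m := 18, Bm := 29749/200000, γ := 987/1000, α := 600807/1000000, e := 2847/200000, g0 := 101903/200000, gh := 410263/500000, g1 := 163959/200000, Kx := 4254977/1000000,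
    kc := [2207383/2500000, 417083/2500000],
    ke := [2500437/2500000, 76077/5000000, 30639/5000000, 5955727/10000000, (-1946371/2000000), 6212863/10000000],
    Fp := [7/62500, 1280893/1250000, (-2714263/10000000), (-10870151/10000000), 720657/500000, (-134569/250000)],
    V := ⟨1170589/5000000, 1864197/10000000, 216761/2000000, 1/10000000⟩,
    B0 := ⟨1260741/5000000, 2434443/10000000, 31879/200000, 1/10000000⟩,
    Bh := ⟨1977509/5000000, 3619957/10000000, 1150809/5000000, 1/10000000⟩,
    H := ⟨2941793/10000000, 234493/1000000, 1364333/10000000, 1/10000000⟩,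
    C0 := ⟨2838243/10000000, 315757/1250000, 198069/1250000, 1/10000000⟩,
    Ch := ⟨319527/625000, 4430989/10000000, 546523/2000000, 1/10000000⟩,
    A := 2552859/10000000, M := 382981/1250000 }

theorem okA18 : c18.okA (RTab.tabq 1) G 1000000000000 4 = true := by decide +kernel

theorem okB18 : c18.okB (RTab.tabq 1) G 1000000000000 4 = true := by decide +kernel

theorem okC18 : c18.okC (RTab.tabq 1) G 1000000000000 4 = true := by decide +kernel

theorem ok18 : c18.ok (RTab.tabq 1) G 1000000000000 4 = true := Tc.ok_of okA18 okB18 okC18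

end Pool.Agent.RZ.RCO.PwDt
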