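import Pool.Agent.RZ.RCO.Pw2
import Pool.Agent.RZ.RCO.PwDc18

/-! The range of the weights in the big cell 18 (generated) (MP_73ccd0_lc, route M). -/

set_option autoImplicit false
set_option maxRecDepth 100000

namespace Pool.Agent.RZ.RCO.PwDt

open Pool.Agent.RZ.RCM9 Pool.Agent.RZ.RCM9.Bern Pool.Agent.RZ.RCM9.Pk Pool.Agent.RZ.RCN.K.P3
open Pool.Agent.RZ.RCN.Ck1 Pool.Agent.RZ.RCO.RT

def r18 : Rg :=
  { u0 := 0, u1 := 1/12, qa := 59/1000, pa := [10001/10000, 19911/10000, 33883/10000], p4 := [10997/10000, 43457/10000, 66049/5000], th := 97/50, thh := 861/500,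
    A1 := ⟨45419/100000, 18083/50000, 10513/50000, 1/100000⟩,
    B0 := ⟨6499/50000, 12549/100000, 8217/100000, 1/100000⟩,
    Bh := ⟨20387/100000, 933/5000, 2373/20000, 1/100000⟩,
    A3 := ⟨25329/50000, 2019/5000, 11747/50000, 1/100000⟩,
    C0 := ⟨16483/100000, 1467/10000, 4601/50000, 1/100000⟩,
    Ch := ⟨29689/100000, 6433/25000, 15869/100000, 1/100000⟩,
    a6 := 25529/1000000, a7 := 25533/1000000, C := 104847/100000, mt := 6503/10000, X := 3617/10000, p1 := 30423/100000 }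

theorem rok18 : r18.ok c18 = true := by decide +kernel

theorem nA18 : NN ((r18.qn c18).eA sh) :=
  NN.of (K := 213) (D := ⟨11, 10, 5, 1⟩) (Box.of 4 (by decide +kernel)) (by decide +kernel)

end Pool.Agent.RZ.RCO.PwDt
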