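import Pool.Agent.RZ.RCO.PwDG
import Pool.Agent.RZ.RCO.RTab

/-! The numbers of the big cell 2 (generated) (MP_73ccd0_lc, route M). -/

set_option autoImplicit false
set_option maxRecDepth 100000

namespace Pool.Agent.RZ.RCO.PwDt

open Pool.Agent.RZ.RCM9 Pool.Agent.RZ.RCM9.Bern Pool.Agent.RZ.RCN.K.P3

open Pool.Agent.RZ.RCN.Ck1 Pool.Agent.RZ.RCO.RT

def c2 : Tc :=
  { m := 2, Bm := 19549/1000000, γ := 9/50, α := 17079/100000, e := 8283/1000000, g0 := 1040699/1000000, gh := 364479/500000, g1 := 325729/500000, Kx := 3637/200000,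
    kc := [1999363/2000000, 46779/10000000],
    ke := [250017/250000, 897/2500000, 259577/10000000, (-104577/10000000)],
    Fp := [1/500000, 5003913/5000000, 49333/1000000, (-26233831/10000000), 37495919/10000000],
    V := ⟨1175891/5000000, 40701/250000, 168891/2000000, 1/10000000⟩,
    B0 := ⟨2974319/10000000, 2085109/10000000, 218821/2000000, 1/10000000⟩,
    Bh := ⟨1229471/10000000, 214983/2500000, 450421/10000000, 1/10000000⟩,
    H := ⟨197737/2500000, 54387/1000000, 280209/10000000, 1/10000000⟩,
    C0 := ⟨197571/2500000, 545311/10000000, 281873/10000000, 1/10000000⟩,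
    Ch := ⟨268957/10000000, 185349/10000000, 95701/10000000, 1/10000000⟩,
    A := 2398477/10000000, M := 359247/5000000 }

theorem okA2 : c2.okA (RTab.tabq 1) G 1000000000000 4 = true := by decide +kernel

theorem okB2 : c2.okB (RTab.tabq 1) G 1000000000000 4 = true := by decide +kernel

theorem okC2 : c2.okC (RTab.tabq 1) G 1000000000000 4 = true := by decide +kernel

theorem ok2 : c2.ok (RTab.tabq 1) G 1000000000000 4 = true := Tc.ok_of okA2 okB2 okC2

end Pool.Agent.RZ.RCO.PwDt
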