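import Pool.Agent.RZ.RCO.Pw2
import Pool.Agent.RZ.RCO.PwDc2

/-! The range of the weights in the big cell 2 (generated) (MP_73ccd0_lc, route M). -/

set_option autoImplicit false
set_option maxRecDepth 100000

namespace Pool.Agent.RZ.RCO.PwDt

open Pool.Agent.RZ.RCM9 Pool.Agent.RZ.RCM9.Bern Pool.Agent.RZ.RCM9.Pk Pool.Agent.RZ.RCN.K.P3
open Pool.Agent.RZ.RCN.Ck1 Pool.Agent.RZ.RCO.RT

def r2 : Rg :=
  { u0 := 0, u1 := 1/12, qa := 3/200, pa := [10001/10000, 3999/2000, 30921/10000], p4 := [10001/10000, 19987/5000, 104649/10000], th := 539/500, thh := 121/125,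
    A1 := ⟨25353/100000, 17551/100000, 569/6250, 1/100000⟩,
    B0 := ⟨3449/12500, 19343/100000, 203/2000, 1/100000⟩,
    Bh := ⟨5703/50000, 3989/50000, 4179/100000, 1/100000⟩,
    A3 := ⟨7657/100000, 1053/20000, 2713/100000, 1/100000⟩,
    C0 := ⟨1633/20000, 2817/50000, 91/3125, 1/100000⟩,
    Ch := ⟨2779/100000, 383/20000, 989/100000, 1/100000⟩,
    a6 := 4797/200000, a7 := 1497/250000, C := 100001/100000, mt := 867/5000, X := 2/625, p1 := 2/625 }

theorem rok2 : r2.ok c2 = true := by decide +kernel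

theorem nA2 : NN ((r2.qn c2).eA sh) :=
  NN.of (K := 189) (D := ⟨11, 10, 5, 1⟩) (Box.of 4 (by decide +kernel)) (by decide +kernel)

end Pool.Agent.RZ.RCO.PwDt
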