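import Pool.Agent.RZ.RCO.PwDG
import Pool.Agent.RZ.RCO.RTab

/-! The numbers of the big cell 3 (generated) (MP_73ccd0_lc, route M). -/

set_option autoImplicit false
set_option maxRecDepth 100000

namespace Pool.Agent.RZ.RCO.PwDt

open Pool.Agent.RZ.RCM9 Pool.Agent.RZ.RCM9.Bern Pool.Agent.RZ.RCN.K.P3

open Pool.Agent.RZ.RCN.Ck1 Pool.Agent.RZ.RCO.RT

def c3 : Tc :=
  { m := 3, Bm := 29737/1000000, γ := 7/25, α := 7803/31250, e := 5751/500000, g0 := 1002459/1000000, gh := 217467/250000, g1 := 200509/250000, Kx := 10809/200000,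
    kc := [9987279/10000000, 99759/10000000],
    ke := [250017/250000, 4287/10000000, 178651/5000000, (-13969/2500000)],
    Fp := [47/10000000, 10028101/10000000, (-17963/5000000), (-4371421/2000000), 5289329/2000000],
    V := ⟨1290127/5000000, 113507/625000, 956431/10000000, 1/10000000⟩,
    B0 := ⟨840987/2500000, 304097/1250000, 328117/2500000, 1/10000000⟩,
    Bh := ⟨416311/2000000, 1496423/10000000, 803437/10000000, 1/10000000⟩,
    H := ⟨582287/5000000, 81533/1000000, 17087/400000, 1/10000000⟩,
    C0 := ⟨290361/2500000, 820907/10000000, 216957/5000000, 1/10000000⟩,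
    Ch := ⟨4253/62500, 479563/10000000, 31597/1250000, 1/10000000⟩,
    A := 2748721/10000000, M := 218553/2000000 }

theorem okA3 : c3.okA (RTab.tabq 1) G 1000000000000 4 = true := by decide +kernel

theorem okB3 : c3.okB (RTab.tabq 1) G 1000000000000 4 = true := by decide +kernel

theorem okC3 : c3.okC (RTab.tabq 1) G 1000000000000 4 = true := by decide +kernel

theorem ok3 : c3.ok (RTab.tabq 1) G 1000000000000 4 = true := Tc.ok_of okA3 okB3 okC3

end Pool.Agent.RZ.RCO.PwDt
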