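import Pool.Agent.RZ.RCO.Pw2
import Pool.Agent.RZ.RCO.PwDc3

/-! The range of the weights in the big cell 3 (generated) (MP_73ccd0_lc, route M). -/

set_option autoImplicit false
set_option maxRecDepth 100000

namespace Pool.Agent.RZ.RCO.PwDt

open Pool.Agent.RZ.RCM9 Pool.Agent.RZ.RCM9.Bern Pool.Agent.RZ.RCM9.Pk Pool.Agent.RZ.RCN.K.P3
open Pool.Agent.RZ.RCN.Ck1 Pool.Agent.RZ.RCO.RT

def r3 : Rg :=
  { u0 := 0, u1 := 1/12, qa := 11/500, pa := [10001/10000, 19989/10000, 6273/2000], p4 := [10001/10000, 39943/10000, 53461/5000], th := 141/125, thh := 247/250,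
    A1 := ⟨14553/50000, 10243/50000, 10789/100000, 1/100000⟩,
    B0 := ⟨29823/100000, 674/3125, 2909/25000, 1/100000⟩,
    Bh := ⟨9227/50000, 13267/100000, 7123/100000, 1/100000⟩,
    A3 := ⟨5753/50000, 1007/12500, 4221/100000, 1/100000⟩,
    C0 := ⟨2939/25000, 8309/100000, 549/12500, 1/100000⟩,
    Ch := ⟨861/12500, 2427/50000, 2559/100000, 1/100000⟩,
    a6 := 859/31250, a7 := 9107/1000000, C := 100001/100000, mt := 639/2500, X := 1/125, p1 := 797/100000 }

theorem rok3 : r3.ok c3 = true := by decide +kernel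

theorem nA3 : NN ((r3.qn c3).eA sh) :=
  NN.of (K := 185) (D := ⟨11, 10, 5, 1⟩) (Box.of 4 (by decide +kernel)) (by decide +kernel)

end Pool.Agent.RZ.RCO.PwDt
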