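import Pool.Agent.RZ.RCO.PwDG
import Pool.Agent.RZ.RCO.RTab

/-! The numbers of the big cell 4 (generated) (MP_73ccd0_lc, route M). -/

set_option autoImplicit false
set_option maxRecDepth 100000

namespace Pool.Agent.RZ.RCO.PwDt

open Pool.Agent.RZ.RCM9 Pool.Agent.RZ.RCM9.Bern Pool.Agent.RZ.RCN.K.P3

open Pool.Agent.RZ.RCN.Ck1 Pool.Agent.RZ.RCO.RT

def c4 : Tc :=
  { m := 4, Bm := 20067/500000, γ := 19/50, α := 315953/1000000, e := 7043/500000, g0 := 914449/1000000, gh := 458273/500000, g1 := 217869/250000, Kx := 120657/1000000,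
    kc := [9964119/10000000, 182471/10000000],
    ke := [250017/250000, 399/1000000, 93877/2000000, 10123/2500000, (-354777/5000000), 687357/5000000],
    Fp := [21/10000000, 1251503/1250000, 109397/2500000, (-208549/78125), 1465473/312500, (-30059749/10000000)],
    V := ⟨2624481/10000000, 1878093/10000000, 1003373/10000000, 1/10000000⟩,
    B0 := ⟨3408589/10000000, 2560011/10000000, 1425639/10000000, 1/10000000⟩,
    Bh := ⟨2803789/10000000, 520467/2500000, 143643/1250000, 1/10000000⟩,
    H := ⟨1522203/10000000, 542659/5000000, 577767/10000000, 1/10000000⟩,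
    C0 := ⟨378999/2500000, 1096637/10000000, 295893/5000000, 1/10000000⟩,
    Ch := ⟨1313217/10000000, 472523/5000000, 253951/5000000, 1/10000000⟩,
    A := 714321/2500000, M := 1466781/10000000 }

theorem okA4 : c4.okA (RTab.tabq 1) G 1000000000000 4 = true := by decide +kernel

theorem okB4 : c4.okB (RTab.tabq 1) G 1000000000000 4 = true := by decide +kernel

theorem okC4 : c4.okC (RTab.tabq 1) G 1000000000000 4 = true := by decide +kernel

theorem ok4 : c4.ok (RTab.tabq 1) G 1000000000000 4 = true := Tc.ok_of okA4 okB4 okC4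

end Pool.Agent.RZ.RCO.PwDt
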