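import Pool.Agent.RZ.RCO.Pw2
import Pool.Agent.RZ.RCO.PwDc4

/-! The range of the weights in the big cell 4 (generated) (MP_73ccd0_lc, route M). -/

set_option autoImplicit false
set_option maxRecDepth 100000

namespace Pool.Agent.RZ.RCO.PwDt

open Pool.Agent.RZ.RCM9 Pool.Agent.RZ.RCM9.Bern Pool.Agent.RZ.RCM9.Pk Pool.Agent.RZ.RCN.K.P3
open Pool.Agent.RZ.RCN.Ck1 Pool.Agent.RZ.RCO.RT

def r4 : Rg :=
  { u0 := 0, u1 := 1/12, qa := 7/250, pa := [10001/10000, 19981/10000, 15877/5000], p4 := [10001/10000, 7981/2000, 54463/5000], th := 617/500, thh := 537/500,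
    A1 := ⟨32387/100000, 2897/12500, 6191/50000, 1/100000⟩,
    B0 := ⟨27623/100000, 10373/50000, 11553/100000, 1/100000⟩,
    Bh := ⟨11361/50000, 16871/100000, 9313/100000, 1/100000⟩,
    A3 := ⟨16349/100000, 11657/100000, 3103/50000, 1/100000⟩,
    C0 := ⟨3529/25000, 10211/100000, 5511/100000, 1/100000⟩,
    Ch := ⟨3057/25000, 11/125, 473/10000, 1/100000⟩,
    a6 := 28573/1000000, a7 := 191/15625, C := 100001/100000, mt := 163/500, X := 39/2500, p1 := 1549/100000 }

theorem rok4 : r4.ok c4 = true := by decide +kernel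

theorem nA4 : NN ((r4.qn c4).eA sh) :=
  NN.of (K := 200) (D := ⟨11, 10, 5, 1⟩) (Box.of 4 (by decide +kernel)) (by decide +kernel)

end Pool.Agent.RZ.RCO.PwDt
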