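import Pool.Agent.RZ.RCO.PwDG
import Pool.Agent.RZ.RCO.RTab

/-! The numbers of the big cell 5 (generated) (MP_73ccd0_lc, route M). -/

set_option autoImplicit false
set_option maxRecDepth 100000

namespace Pool.Agent.RZ.RCO.PwDt

open Pool.Agent.RZ.RCM9 Pool.Agent.RZ.RCM9.Bern Pool.Agent.RZ.RCN.K.P3

open Pool.Agent.RZ.RCN.Ck1 Pool.Agent.RZ.RCO.RT

def c5 : Tc :=
  { m := 5, Bm := 50311/1000000, γ := 47/100, α := 183279/500000, e := 15993/1000000, g0 := 814779/1000000, gh := 459893/500000, g1 := 222603/250000, Kx := 217707/1000000,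
    kc := [2481189/2500000, 143029/5000000],
    ke := [10000687/10000000, 941/2500000, 581729/10000000, 563/156250, (-363177/5000000), 711077/5000000],
    Fp := [17/2500000, 2004963/2000000, 15057/1000000, (-24455377/10000000), 40096143/10000000, (-11433279/5000000)],
    V := ⟨1328833/5000000, 12073/62500, 1046293/10000000, 1/10000000⟩,
    B0 := ⟨1714597/5000000, 20887/78125, 1534153/10000000, 1/10000000⟩,
    Bh := ⟨204011/625000, 501319/2000000, 1421459/10000000, 1/10000000⟩,
    H := ⟨1824473/10000000, 662059/5000000, 715619/10000000, 1/10000000⟩,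
    C0 := ⟨113371/625000, 16823/125000, 185301/2500000, 1/10000000⟩,
    Ch := ⟨1975069/10000000, 363767/2500000, 796991/10000000, 1/10000000⟩,
    A := 1450521/5000000, M := 895903/5000000 }

theorem okA5 : c5.okA (RTab.tabq 1) G 1000000000000 4 = true := by decide +kernel

theorem okB5 : c5.okB (RTab.tabq 1) G 1000000000000 4 = true := by decide +kernel

theorem okC5 : c5.okC (RTab.tabq 1) G 1000000000000 4 = true := by decide +kernel

theorem ok5 : c5.ok (RTab.tabq 1) G 1000000000000 4 = true := Tc.ok_of okA5 okB5 okC5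

end Pool.Agent.RZ.RCO.PwDt
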