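import Pool.Agent.RZ.RCO.Pw2
import Pool.Agent.RZ.RCO.PwDc5

/-! The range of the weights in the big cell 5 (generated) (MP_73ccd0_lc, route M). -/

set_option autoImplicit false
set_option maxRecDepth 100000

namespace Pool.Agent.RZ.RCO.PwDt

open Pool.Agent.RZ.RCM9 Pool.Agent.RZ.RCM9.Bern Pool.Agent.RZ.RCM9.Pk Pool.Agent.RZ.RCN.K.P3
open Pool.Agent.RZ.RCN.Ck1 Pool.Agent.RZ.RCO.RT

def r5 : Rg :=
  { u0 := 0, u1 := 1/12, qa := 33/1000, pa := [10001/10000, 9987/5000, 32083/10000], p4 := [10001/10000, 19933/5000, 27659/2500], th := 1377/1000, thh := 239/200,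
    A1 := ⟨36597/100000, 133/500, 1801/12500, 1/100000⟩,
    B0 := ⟨3113/12500, 2427/12500, 5571/50000, 1/100000⟩,
    Bh := ⟨4741/20000, 4551/25000, 10323/100000, 1/100000⟩,
    A3 := ⟨21803/100000, 989/6250, 1069/12500, 1/100000⟩,
    C0 := ⟨759/5000, 11263/100000, 6203/100000, 1/100000⟩,
    Ch := ⟨1033/6250, 12177/100000, 667/10000, 1/100000⟩,
    a6 := 29011/1000000, a7 := 3733/250000, C := 100001/100000, mt := 381/1000, X := 261/10000, p1 := 2577/100000 }

theorem rok5 : r5.ok c5 = true := by decide +kernel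

theorem nA5 : NN ((r5.qn c5).eA sh) :=
  NN.of (K := 199) (D := ⟨11, 10, 5, 1⟩) (Box.of 4 (by decide +kernel)) (by decide +kernel)

end Pool.Agent.RZ.RCO.PwDt
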