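import Pool.Agent.RZ.RCO.PwDG
import Pool.Agent.RZ.RCO.RTab

/-! The numbers of the big cell 6 (generated) (MP_73ccd0_lc, route M). -/

set_option autoImplicit false
set_option maxRecDepth 100000

namespace Pool.Agent.RZ.RCO.PwDt

open Pool.Agent.RZ.RCM9 Pool.Agent.RZ.RCM9.Bern Pool.Agent.RZ.RCN.K.P3

open Pool.Agent.RZ.RCN.Ck1 Pool.Agent.RZ.RCO.RT

def c6 : Tc :=
  { m := 6, Bm := 60379/1000000, γ := 11/20, α := 406229/1000000, e := 4323/250000, g0 := 732259/1000000, gh := 114417/125000, g1 := 445273/500000, Kx := 86289/250000,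
    kc := [9873587/10000000, 394929/10000000],
    ke := [10000743/10000000, 1909/10000000, 71999/1000000, (-68429/5000000), (-75587/2500000), 52851/500000],
    Fp := [147/10000000, 2510567/2500000, (-89243/5000000), (-22300983/10000000), 34617503/10000000, (-9016217/5000000)],
    V := ⟨1385111/5000000, 127713/625000, 560039/5000000, 1/10000000⟩,
    B0 := ⟨43593/125000, 2811017/10000000, 1649741/10000000, 1/10000000⟩,
    Bh := ⟨359627/1000000, 2840903/10000000, 82189/500000, 1/10000000⟩,
    H := ⟨2116673/10000000, 780013/5000000, 85447/1000000, 1/10000000⟩,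
    C0 := ⟨419459/2000000, 49819/312500, 895111/10000000, 1/10000000⟩,
    Ch := ⟨2576281/10000000, 1940859/10000000, 541391/5000000, 1/10000000⟩,
    A := 1516773/5000000, M := 2087361/10000000 }

theorem okA6 : c6.okA (RTab.tabq 1) G 1000000000000 4 = true := by decide +kernel

theorem okB6 : c6.okB (RTab.tabq 1) G 1000000000000 4 = true := by decide +kernel

theorem okC6 : c6.okC (RTab.tabq 1) G 1000000000000 4 = true := by decide +kernel

theorem ok6 : c6.ok (RTab.tabq 1) G 1000000000000 4 = true := Tc.ok_of okA6 okB6 okC6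

end Pool.Agent.RZ.RCO.PwDt
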