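import Pool.Agent.RZ.RCO.Pw2
import Pool.Agent.RZ.RCO.PwDc6

/-! The range of the weights in the big cell 6 (generated) (MP_73ccd0_lc, route M). -/

set_option autoImplicit false
set_option maxRecDepth 100000

namespace Pool.Agent.RZ.RCO.PwDt

open Pool.Agent.RZ.RCM9 Pool.Agent.RZ.RCM9.Bern Pool.Agent.RZ.RCM9.Pk Pool.Agent.RZ.RCN.K.P3
open Pool.Agent.RZ.RCN.Ck1 Pool.Agent.RZ.RCO.RT

def r6 : Rg :=
  { u0 := 0, u1 := 1/12, qa := 37/1000, pa := [10001/10000, 19967/10000, 32351/10000], p4 := [10001/10000, 39829/10000, 7002/625], th := 188/125, thh := 164/125,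
    A1 := ⟨8333/20000, 30733/100000, 8423/50000, 1/100000⟩,
    B0 := ⟨5797/25000, 18691/100000, 1097/10000, 1/100000⟩,
    Bh := ⟨2989/12500, 18889/100000, 1093/10000, 1/100000⟩,
    A3 := ⟨27771/100000, 5117/25000, 11211/100000, 1/100000⟩,
    C0 := ⟨7993/50000, 12151/100000, 6823/100000, 1/100000⟩,
    Ch := ⟨19637/100000, 7397/50000, 8253/100000, 1/100000⟩,
    a6 := 474/15625, a7 := 3479/200000, C := 100001/100000, mt := 4249/10000, X := 203/5000, p1 := 199/5000 }

theorem rok6 : r6.ok c6 = true := by decide +kernel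

theorem nA6 : NN ((r6.qn c6).eA sh) :=
  NN.of (K := 193) (D := ⟨11, 10, 5, 1⟩) (Box.of 4 (by decide +kernel)) (by decide +kernel)

end Pool.Agent.RZ.RCO.PwDt
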