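import Pool.Agent.RZ.RCO.PwDG
import Pool.Agent.RZ.RCO.RTab

/-! The numbers of the big cell 7 (generated) (MP_73ccd0_lc, route M). -/

set_option autoImplicit false
set_option maxRecDepth 100000

namespace Pool.Agent.RZ.RCO.PwDt

open Pool.Agent.RZ.RCM9 Pool.Agent.RZ.RCM9.Bern Pool.Agent.RZ.RCN.K.P3

open Pool.Agent.RZ.RCN.Ck1 Pool.Agent.RZ.RCO.RT

def c7 : Tc :=
  { m := 7, Bm := 70169/1000000, γ := 31/50, α := 438211/1000000, e := 18087/1000000, g0 := 670973/1000000, gh := 112303/125000, g1 := 885519/1000000, Kx := 100371/200000,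
    kc := [2453983/2500000, 124939/2500000],
    ke := [5000373/5000000, 1523/5000000, 407697/5000000, (-6087/625000), (-22923/625000), 547999/5000000],
    Fp := [11/500000, 2012527/2000000, (-515491/10000000), (-20365107/10000000), 151553/50000, (-14715969/10000000)],
    V := ⟨353793/1250000, 1056487/5000000, 1169527/10000000, 1/10000000⟩,
    B0 := ⟨432967/1250000, 358891/1250000, 1716727/10000000, 1/10000000⟩,
    Bh := ⟨3837641/10000000, 775669/2500000, 227887/1250000, 1/10000000⟩,
    H := ⟨237817/1000000, 444231/2500000, 984201/10000000, 1/10000000⟩,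
    C0 := ⟨2348489/10000000, 912767/5000000, 208541/2000000, 1/10000000⟩,
    Ch := ⟨1541181/5000000, 1185827/5000000, 1343517/10000000, 1/10000000⟩,
    A := 3099347/10000000, M := 592987/2500000 }

theorem okA7 : c7.okA (RTab.tabq 1) G 1000000000000 4 = true := by decide +kernel

theorem okB7 : c7.okB (RTab.tabq 1) G 1000000000000 4 = true := by decide +kernel

theorem okC7 : c7.okC (RTab.tabq 1) G 1000000000000 4 = true := by decide +kernel

theorem ok7 : c7.ok (RTab.tabq 1) G 1000000000000 4 = true := Tc.ok_of okA7 okB7 okC7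

end Pool.Agent.RZ.RCO.PwDt
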