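import Pool.Agent.RZ.RCO.Pw2
import Pool.Agent.RZ.RCO.PwDc7

/-! The range of the weights in the big cell 7 (generated) (MP_73ccd0_lc, route M). -/

set_option autoImplicit false
set_option maxRecDepth 100000

namespace Pool.Agent.RZ.RCO.PwDt

open Pool.Agent.RZ.RCM9 Pool.Agent.RZ.RCM9.Bern Pool.Agent.RZ.RCM9.Pk Pool.Agent.RZ.RCN.K.P3
open Pool.Agent.RZ.RCN.Ck1 Pool.Agent.RZ.RCO.RT

def r7 : Rg :=
  { u0 := 0, u1 := 1/12, qa := 41/1000, pa := [10001/10000, 19959/10000, 32621/10000], p4 := [5001/5000, 39787/10000, 113453/10000], th := 202/125, thh := 283/200,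
    A1 := ⟨45739/100000, 17073/50000, 189/1000, 1/100000⟩,
    B0 := ⟨4287/20000, 17767/100000, 332/3125, 1/100000⟩,
    Bh := ⟨5937/25000, 24/125, 5641/50000, 1/100000⟩,
    A3 := ⟨8413/25000, 3143/12500, 13927/100000, 1/100000⟩,
    C0 := ⟨8299/50000, 6451/50000, 7369/100000, 1/100000⟩,
    Ch := ⟨2723/12500, 16761/100000, 1899/20000, 1/100000⟩,
    a6 := 15497/500000, a7 := 19767/1000000, C := 100001/100000, mt := 4609/10000, X := 291/5000, p1 := 5657/100000 }

theorem rok7 : r7.ok c7 = true := by decide +kernel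

theorem nA7 : NN ((r7.qn c7).eA sh) :=
  NN.of (K := 199) (D := ⟨11, 10, 5, 1⟩) (Box.of 4 (by decide +kernel)) (by decide +kernel)

end Pool.Agent.RZ.RCO.PwDt
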