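import Pool.Agent.RZ.RCO.PwDG
import Pool.Agent.RZ.RCO.RTab

/-! The numbers of the big cell 8 (generated) (MP_73ccd0_lc, route M). -/

set_option autoImplicit false
set_option maxRecDepth 100000

namespace Pool.Agent.RZ.RCO.PwDt

open Pool.Agent.RZ.RCM9 Pool.Agent.RZ.RCM9.Bern Pool.Agent.RZ.RCN.K.P3

open Pool.Agent.RZ.RCN.Ck1 Pool.Agent.RZ.RCO.RT

def c8 : Tc :=
  { m := 8, Bm := 79417/1000000, γ := 17/25, α := 23213/50000, e := 18483/1000000, g0 := 125621/200000, gh := 878423/1000000, g1 := 218253/250000, Kx := 685059/1000000,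
    kc := [9755623/10000000, 149257/2500000],
    ke := [2500183/2500000, 11563/10000000, 404089/5000000, 378627/10000000, (-1237277/10000000), 829009/5000000],
    Fp := [33/1000000, 2016837/2000000, (-13063/156250), (-9350667/5000000), 3371563/1250000, (-96882/78125)],
    V := ⟨2857023/10000000, 430771/2000000, 600757/5000000, 1/10000000⟩,
    B0 := ⟨680757/2000000, 577759/2000000, 877101/5000000, 1/10000000⟩,
    Bh := ⟨40581/100000, 418103/1250000, 15937/80000, 1/10000000⟩,
    H := ⟨2588441/10000000, 61123/312500, 273281/2500000, 1/10000000⟩,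
    C0 := ⟨2547449/10000000, 252457/1250000, 585253/5000000, 1/10000000⟩,
    Ch := ⟨3525103/10000000, 110361/400000, 1583351/10000000, 1/10000000⟩,
    A := 1561721/5000000, M := 1303181/5000000 }

theorem okA8 : c8.okA (RTab.tabq 1) G 1000000000000 4 = true := by decide +kernel

theorem okB8 : c8.okB (RTab.tabq 1) G 1000000000000 4 = true := by decide +kernel

theorem okC8 : c8.okC (RTab.tabq 1) G 1000000000000 4 = true := by decide +kernel

theorem ok8 : c8.ok (RTab.tabq 1) G 1000000000000 4 = true := Tc.ok_of okA8 okB8 okC8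

end Pool.Agent.RZ.RCO.PwDt
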