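import Pool.Agent.RZ.RCO.Pw2
import Pool.Agent.RZ.RCO.PwDc8

/-! The range of the weights in the big cell 8 (generated) (MP_73ccd0_lc, route M). -/

set_option autoImplicit false
set_option maxRecDepth 100000

namespace Pool.Agent.RZ.RCO.PwDt

open Pool.Agent.RZ.RCM9 Pool.Agent.RZ.RCM9.Bern Pool.Agent.RZ.RCM9.Pk Pool.Agent.RZ.RCN.K.P3
open Pool.Agent.RZ.RCN.Ck1 Pool.Agent.RZ.RCO.RT

def r8 : Rg :=
  { u0 := 0, u1 := 1/12, qa := 11/250, pa := [10001/10000, 1247/625, 16413/5000], p4 := [5001/5000, 4969/1250, 22907/2000], th := 853/500, thh := 3/2,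
    A1 := ⟨48741/100000, 7349/20000, 10249/50000, 1/100000⟩,
    B0 := ⟨1247/6250, 8467/50000, 10283/100000, 1/100000⟩,
    Bh := ⟨5947/25000, 19607/100000, 5839/50000, 1/100000⟩,
    A3 := ⟨38827/100000, 1467/5000, 16397/100000, 1/100000⟩,
    C0 := ⟨16983/100000, 2693/20000, 1951/25000, 1/100000⟩,
    Ch := ⟨23501/100000, 9197/50000, 2639/25000, 1/100000⟩,
    a6 := 6247/200000, a7 := 543/25000, C := 100001/100000, mt := 2453/5000, X := 391/5000, p1 := 7527/100000 }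

theorem rok8 : r8.ok c8 = true := by decide +kernel

theorem nA8 : NN ((r8.qn c8).eA sh) :=
  NN.of (K := 185) (D := ⟨11, 10, 5, 1⟩) (Box.of 4 (by decide +kernel)) (by decide +kernel)

end Pool.Agent.RZ.RCO.PwDt
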