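import Pool.Agent.RZ.RCO.PwDG
import Pool.Agent.RZ.RCO.RTab

/-! The numbers of the big cell 9 (generated) (MP_73ccd0_lc, route M). -/

set_option autoImplicit false
set_option maxRecDepth 100000

namespace Pool.Agent.RZ.RCO.PwDt

open Pool.Agent.RZ.RCM9 Pool.Agent.RZ.RCM9.Bern Pool.Agent.RZ.RCN.K.P3

open Pool.Agent.RZ.RCN.Ck1 Pool.Agent.RZ.RCO.RT

def c9 : Tc :=
  { m := 9, Bm := 22181/250000, γ := 147/200, α := 487577/1000000, e := 149/8000, g0 := 119803/200000, gh := 861069/1000000, g1 := 859181/1000000, Kx := 911839/1000000,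
    kc := [1938391/2000000, 345329/5000000],
    ke := [10000781/10000000, 23493/10000000, 190529/2500000, 252231/2500000, (-468131/2000000), 583579/2500000],
    Fp := [247/5000000, 10107269/10000000, (-143903/1250000), (-17190733/10000000), 12090961/5000000, (-10620789/10000000)],
    V := ⟨2870823/10000000, 272919/1250000, 306603/2500000, 1/10000000⟩,
    B0 := ⟨417571/1250000, 2896731/10000000, 1783211/10000000, 1/10000000⟩,
    Bh := ⟨527209/1250000, 3539137/10000000, 2133249/10000000, 1/10000000⟩,
    H := ⟨693231/2500000, 105823/500000, 149019/1250000, 1/10000000⟩,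
    C0 := ⟨108773/400000, 1098911/5000000, 1291381/10000000, 1/10000000⟩,
    Ch := ⟨3973697/10000000, 395277/1250000, 1837651/10000000, 1/10000000⟩,
    A := 31333/100000, M := 56241/200000 }

theorem okA9 : c9.okA (RTab.tabq 1) G 1000000000000 4 = true := by decide +kernel

theorem okB9 : c9.okB (RTab.tabq 1) G 1000000000000 4 = true := by decide +kernel

theorem okC9 : c9.okC (RTab.tabq 1) G 1000000000000 4 = true := by decide +kernel

theorem ok9 : c9.ok (RTab.tabq 1) G 1000000000000 4 = true := Tc.ok_of okA9 okB9 okC9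

end Pool.Agent.RZ.RCO.PwDt
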