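import Pool.Agent.RZ.RCO.Pw2
import Pool.Agent.RZ.RCO.PwDc9

/-! The range of the weights in the big cell 9 (generated) (MP_73ccd0_lc, route M). -/

set_option autoImplicit false
set_option maxRecDepth 100000

namespace Pool.Agent.RZ.RCO.PwDt

open Pool.Agent.RZ.RCM9 Pool.Agent.RZ.RCM9.Bern Pool.Agent.RZ.RCM9.Pk Pool.Agent.RZ.RCN.K.P3
open Pool.Agent.RZ.RCN.Ck1 Pool.Agent.RZ.RCO.RT

def r9 : Rg :=
  { u0 := 0, u1 := 1/12, qa := 23/500, pa := [10001/10000, 4987/2500, 8241/2500], p4 := [5011/5000, 19903/5000, 115493/10000], th := 443/250, thh := 391/250,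
    A1 := ⟨50871/100000, 38689/100000, 21733/100000, 1/100000⟩,
    B0 := ⟨4713/25000, 4087/25000, 629/6250, 1/100000⟩,
    Bh := ⟨11901/50000, 19973/100000, 12039/100000, 1/100000⟩,
    A3 := ⟨43369/100000, 16551/50000, 9323/50000, 1/100000⟩,
    C0 := ⟨17387/100000, 14053/100000, 8257/100000, 1/100000⟩,
    Ch := ⟨794/3125, 20219/100000, 47/400, 1/100000⟩,
    a6 := 31333/1000000, a7 := 11717/500000, C := 1001/1000, mt := 207/400, X := 41/400, p1 := 39/400 }

theorem rok9 : r9.ok c9 = true := by decide +kernel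

theorem nA9 : NN ((r9.qn c9).eA sh) :=
  NN.of (K := 203) (D := ⟨11, 10, 5, 1⟩) (Box.of 4 (by decide +kernel)) (by decide +kernel)

end Pool.Agent.RZ.RCO.PwDt
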