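import Pool.Agent.RZ.RCO.PwN

/-! The inequality of the pairs: the inequality of one pair in a big cell and a range
(MP_73ccd0_lc, route M). -/

set_option autoImplicit false

namespace Pool.Agent.RZ.RCN.K.P3

open Set Finset MeasureTheory Pool.Agent.RZ.RCN.K Pool.Agent.RZ.RCRSHalf Pool.Agent.RZ.RCG
open Pool.Agent.RZ.RCG.Ct Pool.Agent.RZ.RCN.Ker Pool.Agent.RZ.RCRS Pool.Agent.RZ.RCM.Jen Pool.Agent.RZ.RCM9
open Pool.Agent.RZ.RCN.Ck1 Pool.Agent.RZ.RCO.RT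

set_option linter.unusedSectionVars false

variable {V : Type*} [Fintype V] [DecidableEq V]

/-- the bounds of the sums of the exponents by the table -/
structure RwT (x : V → V → ℝ) (P : V → Prop) [DecidablePred P] (R : Tab)
    (L Lt : V → V → V → V → ℝ → ℝ → ℝ) (a b : V) (m : ℕ) (t : ℝ) : Prop where
  cl : ∀ d ∈ ({a, b} : Finset V)ᶜ, ∀ s ∈ Icc 0 t,
    ∑ c ∈ ({a, b, d} : Finset V)ᶜ, rP P L a b c d t s ≤ R.val kCL m t s (x a d + x b d)
  cf : ∀ d ∈ ({a, b} : Finset V)ᶜ, ∀ s ∈ Icc 0 t,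
    ∑ c ∈ ({a, b, d} : Finset V)ᶜ, rP P Lt a b c d t s ≤ R.val kCF m t s (x a d + x b d)
  rl : ∀ c ∈ ({a, b} : Finset V)ᶜ, ∀ s ∈ Icc 0 t,
    ∑ d ∈ ({a, b, c} : Finset V)ᶜ, rP P L a b c d t s ≤ R.val kRL m t s (x a c + x b c)
  rf : ∀ c ∈ ({a, b} : Finset V)ᶜ, ∀ s ∈ Icc 0 t,
    ∑ d ∈ ({a, b, c} : Finset V)ᶜ, rP P Lt a b c d t s ≤ R.val kRF m t s (x a c + x b c)
  el : ∀ c ∈ ({a, b} : Finset V)ᶜ, ∀ d ∈ ({a, b, c} : Finset V)ᶜ, P c → P d → ∀ s ∈ Icc 0 t,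
    L a b c d t s ≤ R.val kEL m t s (x a d + x b d) + R.val kEC m t s (x a c + x b c)
  ef : ∀ c ∈ ({a, b} : Finset V)ᶜ, ∀ d ∈ ({a, b, c} : Finset V)ᶜ, P c → P d → ∀ s ∈ Icc 0 t,
    Lt a b c d t s ≤ R.val kEF m t s (x a d + x b d) + R.val kEG m t s (x a c + x b c)
  pd : ∀ c d, ¬P d → x b d ≠ 0 → ∀ s ∈ Icc 0 t, L a b c d t s = 0 ∧ Lt a b c d t s = 0

variable {x : V → V → ℝ} {P : V → Prop} [DecidablePred P] {k : Kf} {N : ℕ}
variable {κd : ℝ → ℝ → ℝ → ℝ} {Rr : V → V → V → ℝ → ℝ → ℝ} {L Lt : V → V → V → V → ℝ → ℝ → ℝ}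
variable {a b : V} {R : Tab} {G : Gl} {c : Tc} {r : Rg} {t : ℝ} {m : ℕ}

/-- the product with a chord for small weights -/
theorem zlin {a h m z : ℝ} (hz : z ∈ Icc (0 : ℝ) m) (hm : 4 * m ≤ 1) (a0 : 0 ≤ a) (h0 : 0 ≤ h) :
    z * ((1 - 2 * z) * a + 2 * z * h) ≤ m * (a + 2 * m * (h - a)) := by
  obtain ⟨z0, z1⟩ := hz
  have e1 : m * (a + 2 * m * (h - a)) - z * ((1 - 2 * z) * a + 2 * z * h)
      = (m - z) * (a * (1 - 2 * (m + z)) + 2 * (m + z) * h) := by ring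
  have : 0 ≤ (m - z) * (a * (1 - 2 * (m + z)) + 2 * (m + z) * h) := by
    refine mul_nonneg (by linarith) (add_nonneg (mul_nonneg a0 (by linarith)) ?_)
    exact mul_nonneg (by linarith) h0
  linarith

/-- the edge function of the rates is nonnegative -/
theorem bx1_nn {G : Gl} (hG : G.Good) {s : ℝ} (hs : s ∈ Icc (0 : ℝ) 1) :
    0 ≤ pv (bx [1] G.Rh) s := by
  rw [pv_bx, pv_one1]
  have x0 := xm0
  have x2 := xm2
  have := mul_nonneg (show (0 : ℝ) ≤ 2 * xmQ by linarith) (hG.Rh s hs)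
  linarith

/-- the rows and columns -/
theorem rp_of (hc : c.Good R G) (hx : Wt x P 1) (hab : a ≠ b) (h : RwT x P R L Lt a b c.m t) :
    Rp x P L Lt a b t (fun _ => 1) (fun q s => R.val kRL c.m t s q)
      (fun q s => R.val kCL c.m t s q) (fun q s => R.val kRF c.m t s q)
      (fun q s => R.val kCF c.m t s q)
      (fun s => vr R c.m 2 (rc R kRL c.m 0) t s) (fun s => vr R c.m 1 (rc R kRF c.m 0) t s) where
  r1 := fun c hc s hs => by simpa using h.rl c hc s hs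
  r2 := fun d hd s hs => by simpa using h.cl d hd s hs
  r3 := fun c hc s hs => by simpa using h.rf c hc s hs
  r4 := fun d hd s hs => by simpa using h.cf d hd s hs
  eL := fun e he s hs => by
    have hk := xx_mem hx hab e
    have h1 := tyT_le hc.tL t s hk.1 hk.2
    rw [val0_vr] at h1
    refine (h.rl e he s hs).trans ?_
    have e1 : Tab.ex kRL = 2 := rfl
    rw [e1] at h1
    push_cast at h1
    linarith
  eT := fun e he s hs => by
    have hk := xx_mem hx hab e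
    have h1 := tyT_le hc.tF t s hk.1 hk.2
    rw [val0_vr] at h1
    refine (h.rf e he s hs).trans ?_
    have e1 : Tab.ex kRF = 1 := rfl
    rw [e1] at h1
    push_cast at h1
    linarith
  pd := h.pd

/-- **the inequality of one pair in a big cell and a range of its weight** -/
theorem pp_cr {sh : List ℚ} (hc : c.Good R G) (hG : G.Good) (hr : r.Good c)
    (hq : NN ((r.qn c).eA sh)) (ht : t ∈ Icc (c.t0 R : ℝ) (c.t1 R)) (hk : KG k G)
    {A : ℝ → ℝ → ℝ} (hf : Lf N k κd Rr L Lt) (hx : Wt x P 1) (kok : k.Ok)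
    (hfc : ∀ y ∈ Icc (0 : ℝ) 1, ContinuousOn (k.fh y) (Icc 0 1))
    (cPe : ∀ w, ContinuousOn (k.Pe w) (Icc 0 1)) (hA : Ab k κd A)
    (hκ : ∀ w ∈ Icc (0 : ℝ) 1, ∀ s ∈ Icc 0 t, κd w t s ≤ (1 + w * t) * κ0f G c t s)
    (hPe : ∀ w, k.Pe w t = (1 + w * t) * (1 + G.ee * t))
    (hal : 0 ≤ pv G.al t) (hA1 : ∀ w ∈ Icc (0 : ℝ) 1, A w t ≤ pv G.al t * (1 + w * pv G.ga t))
    (hR : ∀ a b d, P b → P d → ∀ s ∈ Icc 0 t, Rr a b d t s ≤ x b d * ρf G (x b d) s)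
    (hR0 : ∀ a b d, x b d = 0 → ∀ s ∈ Icc 0 t, Rr a b d t s ≤ 0)
    (ha : P a) (hb : P b) (hab : a ≠ b) (hu0 : (r.u0 : ℝ) ≤ x a b) (hu1 : x a b ≤ r.u1)
    (hw : RwT x P R L Lt a b c.m t) (hw' : RwT x P R L Lt b a c.m t) :
    wE k.fh k.mb ((xdOf x κd Rr L Lt).E x P k) x P a b t
      ≤ Kf' G t * ∑ d ∈ ({a, b} : Finset V)ᶜ,
        (Dat.rk sh (xr x P a d) / 2 + Dat.rk sh (xr x P b d) / 2) := by
  have hX : Xc x P := Xc.of hx
  have t01 := hc.tm ht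
  have t0 := t01.1
  have K0 : 0 ≤ Kf' G t := hc.K0 ht
  have th0 := hr.th
  have thh0 := hr.thh
  have cp : ∀ l : List ℚ, ContinuousOn (pv l) (Icc 0 t) := fun l => (continuous_pv l).continuousOn
  have ci := i2_cn t
  have cke : ContinuousOn (pv c.ke) (Icc 0 t) := (continuous_pv _).continuousOn
  have cW : ContinuousOn (fun s => pv c.ke s * ((1 + s) ^ 2)⁻¹) (Icc 0 t) := cke.mul ci
  have cv : ∀ K q, ContinuousOn (fun s => R.val K c.m t s q) (Icc 0 t) := fun K q =>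
    (Tab.val_cont _ _ _ _).continuousOn
  have cκ : ∀ w, ContinuousOn (κd w t) (Icc 0 t) := fun w => (hf.cκ w).slice hf.N0 t01
  have γ0 : (0 : ℝ) ≤ c.γ := hr.q.γ0
  have α0 : (0 : ℝ) ≤ c.α := hr.q.αp.le
  have hFp := fp_of hc hG γ0 ht hk hx hκ hR hR0
  have x2 := xm2
  have x0 := xm0
  have zm : ∀ {z : ℝ}, z ∈ Icc (0 : ℝ) xmQ → z ≤ 1 / 2 := fun {z} hz => by
    linarith [hz.2, hz.1]
  have a6 : (0 : ℝ) ≤ r.a6 := hr.a60
  have a7 : (0 : ℝ) ≤ r.a7 := hr.a70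
  have s1 : ∀ {s : ℝ}, s ∈ Icc (0 : ℝ) t → s ∈ Icc (0 : ℝ) 1 := fun hs => (hc.sm ht hs).1
  -- the integrals of the largest rows
  have iA : ktf G c t * ∫ s in (0 : ℝ)..t, (pv c.ke s * ((1 + s) ^ 2)⁻¹ * pv (bx G.be0 G.bh) s)
      * vr R c.m 2 (rc R kRL c.m 0) t s ≤ Kf' G t * c.A :=
    hc.W1 hG ht (Or.inr rfl) hc.A (cW.mul (cp _)) fun s hs => hc.wle hG ht hG.bx hs
  have iM : ktf G c t * ∫ s in (0 : ℝ)..t, (pv c.Fp s * pv (bx [1] G.Rh) s)
      * vr R c.m 1 (rc R kRF c.m 0) t s ≤ Kf' G t * c.M :=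
    hc.W1 hG ht (Or.inl rfl) hc.M ((cp _).mul (cp _)) fun s hs => by rw [pv_lmul]
  have Kx : Kf' G t ≤ c.Kx := hc.Kx t ht
  refine pp_t (c := r.qn c) (θ := θf r) (θh := fun _ => (r.thh : ℝ))
    (g := cq3 c.g0 c.gh c.g1) (BA := Kf' G t * r.a6) (BB := Kf' G t * r.a7)
    (gg := fun s => xmQ * (pv (bx G.be0 G.bh) s * ((1 + s) ^ 2)⁻¹))
    (rr := fun s => xmQ * pv (bx [1] G.Rh) s) hr.q hq
    (A1_of hc hal ht hA1) (eps_of hc hG ht hk cκ hκ hPe) (mul_nonneg K0 hc.e0)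
    hf hx hX kok hfc cPe hA t01 ha hb hab hu0 hu1 hFp (rp_of hc hx hab hw)
    (rp_of hc hx hab.symm hw') (fun _ => one_pos)
    (fun q _ => cv _ _) (fun q _ => cv _ _) (fun q _ => cv _ _) (fun q _ => cv _ _)
    (vr_cont _ _ _ _ _).continuousOn (vr_cont _ _ _ _ _).continuousOn
    (continuousOn_const.mul ((cp _).mul ci)) (continuousOn_const.mul (cp _))
    (fun s hs => mul_nonneg x0.le (mul_nonneg (hG.bx s (s1 hs)) (inv_nonneg.2 (sq_nonneg _))))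
    (fun s hs => mul_nonneg x0.le (bx1_nn hG (s1 hs)))
    (fun z hz s hs => ?_) (fun z hz s hs => ?_) ?_ ?_
    (mul_nonneg K0 a6) (mul_nonneg K0 a7) ?_
    (continuousOn_const.mul ci) continuousOn_const
    (fun s hs => ?_) (fun s hs => thh0) (fun y hy => ?_) (fun y hy => ?_)
    (pj_of hc hG hr ht hk)
  · rw [hk.fh, cq3_lo (zm hz), pv_bx, ← mul_assoc, ← mul_assoc]
    refine mul_le_mul_of_nonneg_right ?_ (inv_nonneg.2 (sq_nonneg _))
    exact zlin hz xm4 (by linarith [hG.be0 s (s1 hs)]) (hG.bh s (s1 hs))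
  · show z * cq3 1 (pv G.Rh s) (pv G.Rh s) z ≤ _
    rw [cq3_lo (zm hz), pv_bx, pv_one1]
    exact zlin hz xm4 zero_le_one (hG.Rh s (s1 hs))
  · have e1 := mul_le_mul_of_nonneg_left iA x0.le
    have e2 := mul_le_mul_of_nonneg_left hr.A K0
    refine le_trans (le_of_eq ?_) (e1.trans (le_trans (le_of_eq ?_) (e2.trans (le_of_eq ?_))))
    · rw [← mul_assoc, ← intervalIntegral.integral_const_mul]
      refine intervalIntegral.integral_congr fun s _ => ?_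
      unfold κ0f
      ring
    · ring
    · ring
  · have e1 := mul_le_mul_of_nonneg_left iM x0.le
    have e2 := mul_le_mul_of_nonneg_left hr.M K0
    refine le_trans (le_of_eq ?_) (e1.trans (le_trans (le_of_eq ?_) e2))
    · rw [← mul_assoc, ← intervalIntegral.integral_const_mul]
      refine intervalIntegral.integral_congr fun s _ => ?_
      unfold Fsf
      ring
    · ring
  · show _ ≤ (c.α : ℝ) * r.X
    refine le_trans ?_ hr.L
    have := mul_le_mul_of_nonneg_right Kx (add_nonneg a6 a7)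
    linarith
  · have := hs.1
    exact mul_pos th0 (inv_pos.2 (by positivity))
  · -- the density at the time `t`
    rw [hk.fh]
    have t1p : (0 : ℝ) < 1 + t := by linarith
    have e1 : (1 + t) * (cq3 (pv G.be0 t) (pv G.bh t) (pv G.b1 t) y * ((1 + t) ^ 2)⁻¹)
        = (1 + t)⁻¹ * cq3 (pv G.be0 t) (pv G.bh t) (pv G.b1 t) y := by
      field_simp
    rw [e1, ← cq3_smul]
    have j : ∀ {p g : ℝ}, p ≤ g * (1 + t) → (1 + t)⁻¹ * p ≤ g := fun {p g} h => by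
      rw [inv_mul_le_iff₀ t1p]
      linarith
    exact cq3_mono hy (j (hc.g0 t ht)) (j (hc.gh t ht)) (j (hc.g1 t ht))
  · exact cq3_lo (by linarith [hy.2])

end Pool.Agent.RZ.RCN.K.P3
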