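import Pool.Agent.RZ.RCO.GapN
import Pool.Agent.RZ.RCO.PwO
import Pool.Agent.RZ.RCO.RTb

/-! The inequality of the pairs from the bounds of the sums of the exponents (MP_73ccd0_lc,
route M). -/

set_option autoImplicit false

namespace Pool.Agent.RZ.RCN.K.P3

open Set Finset MeasureTheory Pool.Agent.RZ.RCN.K Pool.Agent.RZ.RCRSHalf Pool.Agent.RZ.RCG
open Pool.Agent.RZ.RCG.Ct Pool.Agent.RZ.RCN.Ker Pool.Agent.RZ.RCRS Pool.Agent.RZ.RCM.Jen Pool.Agent.RZ.RCM9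
open Pool.Agent.RZ.RCM9.Bern Pool.Agent.RZ.RCM9.Pk Pool.Agent.RZ.RCN.Ck1 Pool.Agent.RZ.RCO.RT Pool.Agent.RZ.RCO Pool.Agent.RZ.RCE

set_option linter.unusedSectionVars false

/-- the global polynomials of the data -/
def glOf (p : Ps) (q : TDt5) (g : GDatN) (q0 Rh bq0 bqh rqh : List ℚ) : Gl where
  ee := p.d.ee
  be0 := p.d.be0
  be1 := p.d.be1
  kp1 := p.d.kpl.tail
  al := g.al
  ga := g.ga
  kA := q.kA
  kq := q.kq
  bp := q.bp
  ρ0 := q.ρ0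
  q0 := q0
  Rh := Rh
  bq0 := bq0
  bqh := bqh
  rqh := rqh

theorem rR_le {z : HDat} {Rh : List ℚ} (h : NN (eRz z.Rlo Rh)) {y s : ℝ} (hy : y ∈ Icc (0 : ℝ) xmQ)
    (hs : s ∈ Icc (0 : ℝ) 1) : z.rR y s ≤ cq3 1 (pv Rh s) (pv Rh s) y := by
  have x0 := xm0
  have x2 := xm2
  have hX : y / xmQ ∈ Icc (0 : ℝ) 1 := ⟨div_nonneg hy.1 x0.le, (div_le_one x0).2 hy.2⟩
  have h2 := h (y / xmQ) 0 0 s hX ⟨le_rfl, zero_le_one⟩ ⟨le_rfl, zero_le_one⟩ hs
  simp only [eRz, val_sub, val_mul, val_pe, val_pe2, val_one, val_two, val_qc, val_vX,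
    val_vT] at h2
  rw [mul_div_cancel₀ _ x0.ne'] at h2
  have hy2 : y ≤ 1 / 2 := by linarith [hy.2]
  rw [cq3_lo hy2]
  unfold HDat.rR
  rw [if_pos hy2]
  have := mul_nonneg hy.1 h2
  nlinarith

/-- the check of the data of the pairs: the cells and the ranges -/
structure Dk (p : Ps) (q : TDt5) (g : GDatN) (R : Tab) (G : Gl) (sh : List ℚ)
    (cs : List (Tc × List Rg)) : Prop where
  gd : G.Good
  Rz : NN (eRz p.z.Rlo G.Rh)
  cov : ∀ m < R.M, ∃ c ∈ cs, c.1.m = m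
  c : ∀ c ∈ cs, c.1.Good R G
  r : ∀ c ∈ cs, ∀ r ∈ c.2, r.Good c.1 ∧ NN ((r.qn c.1).eA sh)
  u : ∀ c ∈ cs, ∀ u ∈ Icc (0 : ℝ) xmQ, ∃ r ∈ c.2, (r.u0 : ℝ) ≤ u ∧ u ≤ r.u1

/-- the facts of one cell -/
structure Ckc (R : Tab) (G : Gl) (sh : List ℚ) (c : Tc × List Rg) : Prop where
  hc : c.1.Good R G
  hr : ∀ r ∈ c.2, r.Good c.1 ∧ NN ((r.qn c.1).eA sh)
  hu : ∀ u ∈ Icc (0 : ℝ) xmQ, ∃ r ∈ c.2, (r.u0 : ℝ) ≤ u ∧ u ≤ r.u1

/-- one cell with one range -/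
theorem Ckc.one {R : Tab} {G : Gl} {sh : List ℚ} {c : Tc} {r : Rg}
    (hc : c.ok R G 1000000000000 4 = true) (hr : r.ok c = true) (hn : NN ((r.qn c).eA sh))
    (h0 : r.u0 = 0) (h1 : r.u1 = xmQ) : Ckc R G sh (c, [r]) where
  hc := Tc.good hc
  hr := fun r' hr' => by
    rw [List.mem_singleton] at hr'
    subst hr'
    exact ⟨Rg.good hr, hn⟩
  hu := fun u hu => by
    refine ⟨r, List.mem_singleton.2 rfl, ?_, ?_⟩
    · rw [h0, Rat.cast_zero]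
      exact hu.1
    · rw [h1]
      exact hu.2

/-- the check of the data from the cells -/
theorem Dk.of {p : Ps} {q : TDt5} {g : GDatN} {R : Tab} {G : Gl} {sh : List ℚ}
    {cs : List (Tc × List Rg)} (hG : G.ok = true) (hz : NN (eRz p.z.Rlo G.Rh))
    (hm : cs.map (fun c => c.1.m) = List.range R.M) (h : ∀ c ∈ cs, Ckc R G sh c) :
    Dk p q g R G sh cs where
  gd := Gl.good hG
  Rz := hz
  cov := fun m hm' => by
    have h1 : m ∈ cs.map (fun c => c.1.m) := by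
      rw [hm]
      exact List.mem_range.2 hm'
    obtain ⟨c, h2, h3⟩ := List.mem_map.1 h1
    exact ⟨c, h2, h3⟩
  c := fun c hc => (h c hc).hc
  r := fun c hc => (h c hc).hr
  u := fun c hc => (h c hc).hu

variable {V : Type} [Fintype V] [DecidableEq V]
variable {Gr : SimpleGraph V} [Fintype Gr.edgeSet] [DecidableEq Gr.edgeSet]

theorem RwT.of {x : V ⊕ V → V ⊕ V → ℝ} {P : V ⊕ V → Prop} [DecidablePred P] {R : Tab}
    {L Lt : V ⊕ V → V ⊕ V → V ⊕ V → V ⊕ V → ℝ → ℝ → ℝ} {a b : V ⊕ V} {m : ℕ} {t : ℝ}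
    (h : RTt x P R L Lt a b m t) : RwT x P R L Lt a b m t :=
  ⟨h.cl, h.cf, h.rl, h.rf, h.el, h.ef, h.pd⟩

/-- **the inequality of the pairs** -/
theorem pp_of {p : Ps} (hp : p.Ok) {q : TDt5} (qP : q.Pos) (qB : q.Bd) {g : GDatN}
    (hg : g.Pos p.d q) (hB : g.Bd) {R : Tab} {q0 Rh bq0 bqh rqh : List ℚ}
    {cs : List (Tc × List Rg)}
    (kp0 : p.d.kpl = 0 :: p.d.kpl.tail)
    (hD : Dk p q g R (glOf p q g q0 Rh bq0 bqh rqh) p.d.shP cs) {x : Gr.edgeSet → ℝ}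
    [Pool.Agent.RZ.RCG.CX x]
    (hx : IsFractionalMatching Gr x) {C : Cx (V ⊕ V)} (hC : Cls p.z.hz (xe x) (P0 V) C)
    (hR : RTb (xe x) (P0 V) R (Lc (P0 V) C) (RCN.K.Lr (P0 V) C)) :
    PP (p.da (kdN p q) C) x := by
  have hw := wt_xe hx zero_le_one le_rfl fun e => (hx.1 e).2
  have hDa := da_ok hp (C := C) (fun w => kdN_cn C.N w) (kdN_ge hp qP qB)
  have hG := gpN_of hp qP qB hg hB C
  set D := p.da (kdN p q) C with hDd
  have kok : D.k.Ok := Dt.kf_ok hDa.T hDa.k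
  have kq := Dt.kq hDa.T hDa.k
  have hf := Da.lf hDa hx hC
  intro a b ha hb hab t ht
  obtain ⟨m, hm, ht0, ht1, hrt⟩ := hR t ht
  obtain ⟨c, hc, hcm⟩ := hD.cov m hm
  have hcg := hD.c c hc
  have x1 := hw.leX a b
  rw [← xm_cast] at x1
  obtain ⟨r, hr, hu0, hu1⟩ := hD.u c hc (xe x a b) ⟨hw.nonneg a b, x1⟩
  obtain ⟨hrg, hnn⟩ := hD.r c hc r hr
  have htc : t ∈ Icc (c.1.t0 R : ℝ) (c.1.t1 R) := by
    unfold Tc.t0 Tc.t1
    rw [hcm]
    push_cast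
    exact ⟨ht0, ht1⟩
  have hsm : ∀ {s : ℝ}, s ∈ Icc (0 : ℝ) t → s ∈ Icc (0 : ℝ) 1 := fun hs =>
    ⟨hs.1, hs.2.trans ht.2⟩
  have key := pp_cr (N := D.C.N) (k := D.k) (κd := D.κd) (Rr := D.R x) (L := D.L) (Lt := D.Lt)
    (A := g.A) (a := a) (b := b) (x := xe x) (P := P0 V)
    (sh := p.d.shP) hcg hD.gd hrg hnn htc ⟨fun _ => rfl, fun _ => rfl⟩ hf hw kok kq.fc
    hDa.k.cPe hG.ab (fun w hw' s hs => ?_) (fun w => rfl) ?_ (fun w _ => ?_)
    (fun a b d hb' hd s hs => ?_) (fun a b d h0 s hs => ?_) ha hb hab hu0 hu1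
    (by rw [hcm]; exact RwT.of (hrt a b ha hb hab))
    (by rw [hcm]; exact RwT.of (hrt b a hb ha hab.symm))
  · refine le_trans (le_of_eq rfl) (key.trans (le_of_eq ?_))
    have e : D.T.kp t = Kf' (glOf p q g q0 Rh bq0 bqh rqh) t := by
      show pv p.d.kpl t = t * pv p.d.kpl.tail t
      rw [kp0]
      simp [pv]
    rw [e]
    rfl
  · -- the density factor
    have hs1 := hsm hs
    have h1 := kdN_le hp qP qB w hw' t s hs.1 hs.2 ht.2
    refine h1.trans ?_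
    have r0 : 0 ≤ (1 + w * t) * (1 + (p.d.ee : ℝ) * t) := rPe_nn hp hw' ht
    have k1 : Real.exp (q.kw w * q.A t) ≤ pv c.1.kc t := by
      refine (Real.exp_le_exp.2 ?_).trans ((TDt5.exp_A qP qB ht).trans (hcg.kA t htc))
      have := mul_le_mul_of_nonneg_right (TDt5.kw_le qB hw'.1) (TDt5.A_nn qP qB ht)
      linarith
    have ρ0 : (0 : ℝ) ≤ q.ρ0 := by
      have h1 := qB.ρ
      have h2 := qB.y0
      have h3 : (0 : ℚ) ≤ q.ρ0 * q.y0 := by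
        refine le_trans ?_ h1
        positivity
      have h4 : 0 ≤ q.ρ0 := by
        by_contra hc
        have := mul_neg_of_neg_of_pos (not_le.1 hc) h2
        linarith
      exact_mod_cast h4
    have k2 : pv q.kq s * (1 + (q.ρ0 : ℝ) * (s ^ 2 * q.B t)) ≤ pv c.1.ke s := by
      refine le_trans ?_ (hcg.kq s ⟨hs.1, hs.2.trans htc.2⟩)
      refine mul_le_mul_of_nonneg_left ?_ (kq_nn qP qB hs1)
      have h3 : q.B t ≤ c.1.Bm := hcg.Bm t htc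
      have h4 := mul_le_mul_of_nonneg_left (mul_le_mul_of_nonneg_left h3 (sq_nonneg s)) ρ0
      show 1 + (q.ρ0 : ℝ) * (s ^ 2 * q.B t) ≤ 1 + (q.ρ0 : ℝ) * (s ^ 2 * c.1.Bm)
      linarith
    have k3 : 0 ≤ pv q.kq s * (1 + (q.ρ0 : ℝ) * (s ^ 2 * q.B t)) := by
      have := TDt5.B_nn qP ht
      have := kq_nn qP qB hs1
      positivity
    have h4 := mul_le_mul k1 k2 k3 ((Real.exp_pos _).le.trans k1)
    have h5 := mul_le_mul_of_nonneg_left h4 r0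
    unfold κ0f ktf
    show (1 + w * t) * (1 + (p.d.ee : ℝ) * t) * _ ≤ (1 + w * t)
      * ((1 + (p.d.ee : ℝ) * t) * pv c.1.kc t * pv c.1.ke s)
    linarith
  · exact hG.a0 t ht
  · exact le_rfl
  · -- the rates of the released pairs
    have hs1 := hsm hs
    refine (min_le_left _ _).trans ?_
    show p.z.hz.hh (xe x) (P0 V) s b d ≤ _
    have hx0 := hw.nonneg b d
    have hxm : xe x b d ≤ xmQ := by
      rw [xm_cast]
      exact hw.leX b d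
    unfold Hzd.hh
    rw [if_pos ⟨hb', hd⟩]
    refine mul_le_mul_of_nonneg_left ?_ hx0
    refine le_trans ?_ (rR_le hD.Rz ⟨hx0, hxm⟩ hs1)
    have hy1 : xe x b d ∈ Icc (0 : ℝ) 1 := x_mem hw b d
    show p.z.rE (xe x b d) s / (1 - xe x b d * p.z.rSh (xe x b d) s) ≤ _
    rw [div_le_iff₀ (hp.z.den hy1 hs1)]
    exact hp.z.R_le hy1 hs1
  · refine (min_le_left _ _).trans (le_of_eq ?_)
    show p.z.hz.hh (xe x) (P0 V) s b d = 0
    exact Hzd.hh_zero h0 _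

end Pool.Agent.RZ.RCN.K.P3
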