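import Pool.Agent.RZ.RCO.DatX
import Pool.Agent.RZ.RCO.PwDR
import Pool.Agent.RZ.RCO.PwDr0
import Pool.Agent.RZ.RCO.PwDr1
import Pool.Agent.RZ.RCO.PwDr10
import Pool.Agent.RZ.RCO.PwDr11
import Pool.Agent.RZ.RCO.PwDr12
import Pool.Agent.RZ.RCO.PwDr13
import Pool.Agent.RZ.RCO.PwDr14
import Pool.Agent.RZ.RCO.PwDr15
import Pool.Agent.RZ.RCO.PwDr16
import Pool.Agent.RZ.RCO.PwDr17
import Pool.Agent.RZ.RCO.PwDr18
import Pool.Agent.RZ.RCO.PwDr19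
import Pool.Agent.RZ.RCO.PwDr2
import Pool.Agent.RZ.RCO.PwDr3
import Pool.Agent.RZ.RCO.PwDr4
import Pool.Agent.RZ.RCO.PwDr5
import Pool.Agent.RZ.RCO.PwDr6
import Pool.Agent.RZ.RCO.PwDr7
import Pool.Agent.RZ.RCO.PwDr8
import Pool.Agent.RZ.RCO.PwDr9
import Pool.Agent.RZ.RCO.PwP

/-! The inequality of the pairs for the final data (MP_73ccd0_lc, route M). -/

set_option autoImplicit false

namespace Pool.Agent.RZ.RCO.PwDt

open Pool.Agent.RZ.RCM9 Pool.Agent.RZ.RCM9.Bern Pool.Agent.RZ.RCM9.Pk Pool.Agent.RZ.RCN.K.P3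
open Pool.Agent.RZ.RCN.Ck1 Pool.Agent.RZ.RCO.RT Pool.Agent.RZ.RCN.K Pool.Agent.RZ.RCRSHalf Pool.Agent.RZ.RCG
open Pool.Agent.RZ.RCG.Ct Pool.Agent.RZ.RCRS Pool.Agent.RZ.RCE Pool.Agent.RZ.RCO

theorem kp_eq : CertP.p.d.kpl = 0 :: G.kp1 := by decide +kernel

/-- the global polynomials of the data -/
theorem G_eq : glOf CertP.p DatX.q DatX.g q0 Rh bq0 bqh rqh = G := by
  unfold glOf
  rw [kp_eq]
  rfl

/-- the cells -/
def cs : List (Tc × List Rg) :=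
  [(c0, [r0]),
    (c1, [r1]),
    (c2, [r2]),
    (c3, [r3]),
    (c4, [r4]),
    (c5, [r5]),
    (c6, [r6]),
    (c7, [r7]),
    (c8, [r8]),
    (c9, [r9]),
    (c10, [r10]),
    (c11, [r11]),
    (c12, [r12]),
    (c13, [r13]),
    (c14, [r14]),
    (c15, [r15]),
    (c16, [r16]),
    (c17, [r17]),
    (c18, [r18]),
    (c19, [r19])]

theorem hcs (n : ℕ) : ∀ c ∈ cs, Ckc (RTab.tabq n) G sh c := by
  unfold cs
  simp only [List.forall_mem_cons, List.not_mem_nil, false_imp_iff, implies_true, and_true]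
  exact ⟨Ckc.one (Tc.ok_congr (R := RTab.tabq 1) rfl rfl ok0) rok0 nA0 rfl rfl,
    Ckc.one (Tc.ok_congr (R := RTab.tabq 1) rfl rfl ok1) rok1 nA1 rfl rfl,
    Ckc.one (Tc.ok_congr (R := RTab.tabq 1) rfl rfl ok2) rok2 nA2 rfl rfl,
    Ckc.one (Tc.ok_congr (R := RTab.tabq 1) rfl rfl ok3) rok3 nA3 rfl rfl,
    Ckc.one (Tc.ok_congr (R := RTab.tabq 1) rfl rfl ok4) rok4 nA4 rfl rfl,
    Ckc.one (Tc.ok_congr (R := RTab.tabq 1) rfl rfl ok5) rok5 nA5 rfl rfl,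
    Ckc.one (Tc.ok_congr (R := RTab.tabq 1) rfl rfl ok6) rok6 nA6 rfl rfl,
    Ckc.one (Tc.ok_congr (R := RTab.tabq 1) rfl rfl ok7) rok7 nA7 rfl rfl,
    Ckc.one (Tc.ok_congr (R := RTab.tabq 1) rfl rfl ok8) rok8 nA8 rfl rfl,
    Ckc.one (Tc.ok_congr (R := RTab.tabq 1) rfl rfl ok9) rok9 nA9 rfl rfl,
    Ckc.one (Tc.ok_congr (R := RTab.tabq 1) rfl rfl ok10) rok10 nA10 rfl rfl,
    Ckc.one (Tc.ok_congr (R := RTab.tabq 1) rfl rfl ok11) rok11 nA11 rfl rfl,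
    Ckc.one (Tc.ok_congr (R := RTab.tabq 1) rfl rfl ok12) rok12 nA12 rfl rfl,
    Ckc.one (Tc.ok_congr (R := RTab.tabq 1) rfl rfl ok13) rok13 nA13 rfl rfl,
    Ckc.one (Tc.ok_congr (R := RTab.tabq 1) rfl rfl ok14) rok14 nA14 rfl rfl,
    Ckc.one (Tc.ok_congr (R := RTab.tabq 1) rfl rfl ok15) rok15 nA15 rfl rfl,
    Ckc.one (Tc.ok_congr (R := RTab.tabq 1) rfl rfl ok16) rok16 nA16 rfl rfl,
    Ckc.one (Tc.ok_congr (R := RTab.tabq 1) rfl rfl ok17) rok17 nA17 rfl rfl,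
    Ckc.one (Tc.ok_congr (R := RTab.tabq 1) rfl rfl ok18) rok18 nA18 rfl rfl,
    Ckc.one (Tc.ok_congr (R := RTab.tabq 1) rfl rfl ok19) rok19 nA19 rfl rfl⟩

theorem dk (n : ℕ) : Dk CertP.p DatX.q DatX.g (RTab.tabq n) G sh cs :=
  Dk.of Gok nRz rfl (hcs n)

variable {V : Type} [Fintype V] [DecidableEq V]
variable {Gr : SimpleGraph V} [Fintype Gr.edgeSet] [DecidableEq Gr.edgeSet]

/-- **the inequality of the pairs** -/
theorem pp_x (n : ℕ) {x : Gr.edgeSet → ℝ} [CX x] (hx : IsFractionalMatching Gr x)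
    {C : Cx (V ⊕ V)} (hC : Cls CertP.p.z.hz (xe x) (P0 V) C)
    (hR : RTb (xe x) (P0 V) (RTab.tabq n) (Lc (P0 V) C) (RCN.K.Lr (P0 V) C)) :
    PP (CertP.p.da (kdN CertP.p DatX.q) C) x := by
  have hD := dk n
  rw [← G_eq] at hD
  exact pp_of CertP.ok DatX.pos DatX.bd DatX.gpos DatX.gbd (by rw [kp_eq]; rfl) hD hx hC hR

end Pool.Agent.RZ.RCO.PwDt
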