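import Pool.Agent.RZ.RCO.T1j

/-! The test of a box and the recursion over the boxes (MP_73ccd0_lc). -/

namespace Pool.Agent.RZ.RCN.K

open Set Finset Pool.Agent.RZ.RCO.RT Pool.Agent.RZ.RCO.BxN

set_option linter.unusedSectionVars false
set_option linter.unusedVariables false

section

variable {d : CqN} {δ : ℝ} {u y z : ℝ} {u0 u1 y0 y1 z0 z1 : ℕ}

/-- an affine function -/
theorem aff_le {a a' b b' x E : ℝ} (h0 : a ≤ b) (h1 : a + a' * E ≤ b + b' * E) (x0 : 0 ≤ x)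
    (xE : x ≤ E) : a + a' * x ≤ b + b' * x := by
  rcases eq_or_lt_of_le (x0.trans xE) with h | h
  · have : x = 0 := le_antisymm (xE.trans (le_of_eq h.symm)) x0
    rw [this]; linarith
  · have k : 0 ≤ (E - x) * (b - a) + x * ((b + b' * E) - (a + a' * E)) :=
      add_nonneg (mul_nonneg (sub_nonneg.2 xE) (sub_nonneg.2 h0))
        (mul_nonneg x0 (sub_nonneg.2 h1))
    have e : (E - x) * (b - a) + x * ((b + b' * E) - (a + a' * E))
        = E * ((b + b' * x) - (a + a' * x)) := by ring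
    rw [e] at k
    have := nonneg_of_mul_nonneg_right k h
    linarith

namespace CqN

variable (d : CqN)

/-- the largest excess of the common neighbours -/
noncomputable def dU (z0 u0 : ℕ) : ℕ := mu d.em (l0 u0 z0)
/-- the scale at the end of the cell -/
noncomputable def SU : ℕ :=
  mu (Nat.add (mu (Nat.add d.T1 d.δ) (Nat.add d.T1 d.δ)) (mu d.μ d.T1)) d.T1
/-- the lower bound of the ratio at the least number of common neighbours -/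
noncomputable def rL (z0 z1 y0 y1 u1 : ℕ) : ℕ :=
  md (Nat.add (nth d.m0 (iHi u1)) (md (nth d.m1 (iHi u1)) (md z0 y0)))
    (Nat.sub 1048576 (d.bf z0 z1 (Nat.add u1 y1)))
/-- the lower bound of the ratio at the largest number of common neighbours -/
noncomputable def rH (z0 z1 y0 y1 u0 u1 : ℕ) : ℕ :=
  md (Nat.add (nth d.m0 (iHi u1)) (md (nth d.m1 (iHi u1)) (Nat.add (md z0 y0) (d.dU z0 u0))))
    (Nat.sub 1048576 (d.bf z0 z1 (Nat.add u1 y1)))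
/-- the test of the mass ratio -/
noncomputable def hmB (z0 z1 y0 y1 u0 u1 : ℕ) : Bool :=
  and (Nat.ble (mu (mu d.T1 d.α) (mu (d.fT u1) (l0 u0 z0))) (d.rL z0 z1 y0 y1 u1))
    (Nat.ble (mu (mu d.T1 d.α) (mu (d.fT u1) (Nat.add (l0 u0 z0) (mu d.T1 (d.dU z0 u0)))))
      (d.rH z0 z1 y0 y1 u0 u1))
/-- the test of the linear errors -/
noncomputable def capB (z0 z1 y0 y1 u0 u1 : ℕ) : Bool :=
  and (Nat.ble (mu d.SU (mu (d.fT u1) (d.lK z0 y0 u0)))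
      (md (nth d.x0 (iHi u1)) (d.rL z0 z1 y0 y1 u1)))
    (Nat.ble (mu d.SU (mu (d.fT u1) (Nat.add (d.lK z0 y0 u0)
        (mu (mu d.T1 (d.dU z0 u0)) (d.hh z0 y0 u0)))))
      (md (nth d.x0 (iHi u1)) (d.rH z0 z1 y0 y1 u0 u1)))

end CqN

theorem and_ok {a b : Bool} (h : and a b = true) : a = true ∧ b = true := by
  cases a
  · cases h
  · exact ⟨rfl, h⟩

/-- the ratio on a box -/
theorem rL_le (h : Pt3 u y z u0 u1 y0 y1 z0 z1) (hA : AntZ d z0 z1)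
    (h1 : d.bf z0 z1 (Nat.add u1 y1) < 1048576) :
    L ((rD (nth d.m0 (ix u)) + rD (nth d.m1 (ix u)) * (z * y)) * (1 - (d.cq δ).Bf z (u + y)))
      (d.rL z0 z1 y0 y1 u1) :=
  ((L_idx hA.m0 h.u).add ((L_idx hA.m1 h.u).md (h.z.lo.md h.y.lo))).md
    (L.one.sub (bf_ge (δ := δ) h).2 h1.le)

theorem rH_le (h : Pt3 u y z u0 u1 y0 y1 z0 z1) (hA : AntZ d z0 z1)
    (h1 : d.bf z0 z1 (Nat.add u1 y1) < 1048576) :
    L ((rD (nth d.m0 (ix u)) + rD (nth d.m1 (ix u)) * (z * y + rD (d.dU z0 u0)))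
      * (1 - (d.cq δ).Bf z (u + y))) (d.rH z0 z1 y0 y1 u0 u1) :=
  ((L_idx hA.m0 h.u).add ((L_idx hA.m1 h.u).md ((h.z.lo.md h.y.lo).add (Lrf _)))).md
    (L.one.sub (bf_ge (δ := δ) h).2 h1.le)

theorem dU_ge (h : Pt3 u y z u0 u1 y0 y1 z0 z1) {n : ℝ}
    (hn2 : n ≤ z * y + rD d.em * (1 - u - z)) : n - z * y ≤ rD (d.dU z0 u0) := by
  have nuz : 0 ≤ 1 - u - z := by linarith [h.d.2.2.2.2.1]
  have : U (rD d.em * (1 - u - z)) (d.dU z0 u0) := (Urf d.em).mu (l0_ge h) (rD_nonneg _) nuz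
  have h2 : rD d.em * (1 - u - z) ≤ rD (d.dU z0 u0) := this
  linarith

/-- the mass ratio on a box -/
theorem hmB_ok (h : Pt3 u y z u0 u1 y0 y1 z0 z1) (hA : AntZ d z0 z1)
    (h1 : d.bf z0 z1 (Nat.add u1 y1) < 1048576)
    (hb : d.hmB z0 z1 y0 y1 u0 u1 = true) {n : ℝ} (hn1 : z * y ≤ n)
    (hn2 : n ≤ z * y + rD d.em * (1 - u - z)) :
    (d.cq δ).T1 * (d.cq δ).α * ((1 + (d.cq δ).T1 * u) * (1 - u - z + (d.cq δ).T1 * (n - z * y)))
      ≤ ((d.cq δ).m0 u + (d.cq δ).m1 u * n) * (1 - (d.cq δ).Bf z (u + y)) := by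
  have j1 := rL_le (δ := δ) h hA h1
  have j2 := rH_le (δ := δ) h hA h1
  set M0 := rD (nth d.m0 (ix u)) with hM0
  set M1 := rD (nth d.m1 (ix u)) with hM1
  obtain ⟨hu, hy, hz, hk⟩ := h.d.mem
  obtain ⟨b1, b2⟩ := and_ok hb
  have c1 := Nat.le_of_ble_eq_true b1
  have c2 := Nat.le_of_ble_eq_true b2
  have T0 := rD_nonneg d.T1
  have α0 := rD_nonneg d.α
  have nuz : 0 ≤ 1 - u - z := by linarith [h.d.2.2.2.2.1]
  have f0 : 0 ≤ 1 + rD d.T1 * u := f1_nn hu.1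
  have f1 : U (1 + rD d.T1 * u) (d.fT u1) := fT_ge h.u.up hu.1
  have l1 := l0_ge h
  have Ta : U (rD d.T1 * rD d.α) (mu d.T1 d.α) := (Urf _).mu (Urf _) T0 α0
  have Ta0 := mul_nonneg T0 α0
  have δE := dU_ge h hn2
  set E : ℝ := rD (d.dU z0 u0) with hE
  have E0 : 0 ≤ E := rD_nonneg _
  set δn := n - z * y with hδ
  have δ0 : 0 ≤ δn := sub_nonneg.2 hn1
  have e0 : rD d.T1 * rD d.α * ((1 + rD d.T1 * u) * (1 - u - z))
      ≤ (M0 + M1 * (z * y)) * (1 - (d.cq δ).Bf z (u + y)) := by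
    have i1 : U (rD d.T1 * rD d.α * ((1 + rD d.T1 * u) * (1 - u - z)))
        (mu (mu d.T1 d.α) (mu (d.fT u1) (CqN.l0 u0 z0))) :=
      Ta.mu (f1.mu l1 f0 nuz) Ta0 (mul_nonneg f0 nuz)
    exact (i1.le c1).trans j1
  have e1 : rD d.T1 * rD d.α * ((1 + rD d.T1 * u) * (1 - u - z + rD d.T1 * E))
      ≤ (M0 + M1 * (z * y + E)) * (1 - (d.cq δ).Bf z (u + y)) := by
    have n1 : 0 ≤ 1 - u - z + rD d.T1 * E := add_nonneg nuz (mul_nonneg T0 E0)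
    have i1 : U (rD d.T1 * rD d.α * ((1 + rD d.T1 * u) * (1 - u - z + rD d.T1 * E)))
        (mu (mu d.T1 d.α) (mu (d.fT u1)
          (Nat.add (CqN.l0 u0 z0) (mu d.T1 (d.dU z0 u0))))) :=
      Ta.mu (f1.mu (l1.add ((Urf d.T1).mu (Urf _) T0 E0)) f0 n1) Ta0 (mul_nonneg f0 n1)
    exact (i1.le c2).trans j2
  have key := aff_le (a' := rD d.T1 * rD d.α * ((1 + rD d.T1 * u) * rD d.T1))
    (b' := M1 * (1 - (d.cq δ).Bf z (u + y))) e0 (by linarith) δ0 δE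
  have en : n = z * y + δn := by rw [hδ]; ring
  have g1 : (d.cq δ).T1 * (d.cq δ).α * ((1 + (d.cq δ).T1 * u)
      * (1 - u - z + (d.cq δ).T1 * δn))
      = rD d.T1 * rD d.α * ((1 + rD d.T1 * u) * (1 - u - z))
        + rD d.T1 * rD d.α * ((1 + rD d.T1 * u) * rD d.T1) * δn := by
    have e1 : (d.cq δ).T1 = rD d.T1 := rfl
    have e2 : (d.cq δ).α = rD d.α := rfl
    rw [e1, e2]
    ring
  have g2 : ((d.cq δ).m0 u + (d.cq δ).m1 u * n) * (1 - (d.cq δ).Bf z (u + y))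
      = (M0 + M1 * (z * y)) * (1 - (d.cq δ).Bf z (u + y))
        + M1 * (1 - (d.cq δ).Bf z (u + y)) * δn := by
    have e1 : (d.cq δ).m0 u = M0 := rfl
    have e2 : (d.cq δ).m1 u = M1 := rfl
    rw [e1, e2, en]
    ring
  rw [g1, g2]
  exact key

/-- the scale from above -/
theorem SU_ge (δ0 : 0 ≤ δ) (hδ : δ ≤ rD d.δ) :
    0 ≤ (d.cq δ).S (d.cq δ).T1 ∧ U ((d.cq δ).S (d.cq δ).T1) d.SU := by
  have T0 := rD_nonneg d.T1
  have m0 := rD_nonneg d.μ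
  have e : (d.cq δ).S (d.cq δ).T1
      = ((rD d.T1 + δ) * (rD d.T1 + δ) + rD d.μ * rD d.T1) * rD d.T1 := by
    show ((rD d.T1 + δ) ^ 2 + rD d.μ * rD d.T1) * rD d.T1 = _
    ring
  rw [e]
  have h1 : U (rD d.T1 + δ) (Nat.add d.T1 d.δ) := (Urf d.T1).add hδ
  have h0 : 0 ≤ rD d.T1 + δ := add_nonneg T0 δ0
  have n1 : 0 ≤ rD d.μ * rD d.T1 := mul_nonneg m0 T0
  exact ⟨by positivity, ((h1.mu h1 h0 h0).add ((Urf d.μ).mu (Urf d.T1) m0 T0)).mu (Urf _)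
    (add_nonneg (mul_nonneg h0 h0) n1) T0⟩

/-- the linear errors on a box -/
theorem capB_ok (h : Pt3 u y z u0 u1 y0 y1 z0 z1) (hA : AntZ d z0 z1) (δ0 : 0 ≤ δ)
    (hδ : δ ≤ rD d.δ) (h1 : d.bf z0 z1 (Nat.add u1 y1) < 1048576)
    (hb : d.capB z0 z1 y0 y1 u0 u1 = true) {n : ℝ} (hn1 : z * y ≤ n)
    (hn2 : n ≤ z * y + rD d.em * (1 - u - z)) :
    (d.cq δ).S (d.cq δ).T1 * ((1 + (d.cq δ).T1 * u)
      * ((1 - u - z + (d.cq δ).T1 * (n - z * y)) * (d.cq δ).hh u y z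
        + (d.cq δ).qa * (d.cq δ).K1 (y + z)))
      ≤ (d.cq δ).x0 u * (((d.cq δ).m0 u + (d.cq δ).m1 u * n)
        * (1 - (d.cq δ).Bf z (u + y))) := by
  have j1 := (L_idx hA.x0 h.u).md (rL_le (δ := δ) h hA h1)
  have j2 := (L_idx hA.x0 h.u).md (rH_le (δ := δ) h hA h1)
  obtain ⟨s0, s1⟩ := SU_ge (d := d) δ0 hδ
  obtain ⟨l0', l1'⟩ := lK_ge (δ := δ) h hA
  obtain ⟨h0', h1'⟩ := hh_ge (δ := δ) h hA
  set M0 := rD (nth d.m0 (ix u)) with hM0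
  set M1 := rD (nth d.m1 (ix u)) with hM1
  set X0 := rD (nth d.x0 (ix u)) with hX0
  set HH := (d.cq δ).hh u y z with hHH
  set LK := (1 - u - z) * HH + (d.cq δ).qa * (d.cq δ).K1 (y + z) with hLK
  set SS := (d.cq δ).S (d.cq δ).T1 with hSS
  obtain ⟨hu, hy, hz, hk⟩ := h.d.mem
  obtain ⟨b1, b2⟩ := and_ok hb
  have c1 := Nat.le_of_ble_eq_true b1
  have c2 := Nat.le_of_ble_eq_true b2
  have T0 := rD_nonneg d.T1
  have f0 : 0 ≤ 1 + rD d.T1 * u := f1_nn hu.1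
  have f1 : U (1 + rD d.T1 * u) (d.fT u1) := fT_ge h.u.up hu.1
  have δE := dU_ge h hn2
  set E : ℝ := rD (d.dU z0 u0) with hE
  have E0 : 0 ≤ E := rD_nonneg _
  set δn := n - z * y with hδn
  have δn0 : 0 ≤ δn := sub_nonneg.2 hn1
  have e0 : SS * ((1 + rD d.T1 * u) * LK)
      ≤ X0 * ((M0 + M1 * (z * y)) * (1 - (d.cq δ).Bf z (u + y))) := by
    have i1 : U (SS * ((1 + rD d.T1 * u) * LK)) (mu d.SU (mu (d.fT u1) (d.lK z0 y0 u0))) :=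
      s1.mu (f1.mu l1' f0 l0') s0 (mul_nonneg f0 l0')
    exact (i1.le c1).trans j1
  have e1 : SS * ((1 + rD d.T1 * u) * (LK + rD d.T1 * E * HH))
      ≤ X0 * ((M0 + M1 * (z * y + E)) * (1 - (d.cq δ).Bf z (u + y))) := by
    have TE := mul_nonneg T0 E0
    have n1 : 0 ≤ LK + rD d.T1 * E * HH := add_nonneg l0' (mul_nonneg TE h0')
    have i1 : U (SS * ((1 + rD d.T1 * u) * (LK + rD d.T1 * E * HH)))
        (mu d.SU (mu (d.fT u1) (Nat.add (d.lK z0 y0 u0)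
        (mu (mu d.T1 (d.dU z0 u0)) (d.hh z0 y0 u0))))) :=
      s1.mu (f1.mu (l1'.add (((Urf d.T1).mu (Urf _) T0 E0).mu h1' TE h0')) f0 n1) s0
        (mul_nonneg f0 n1)
    exact (i1.le c2).trans j2
  have key := aff_le (a' := SS * ((1 + rD d.T1 * u) * (rD d.T1 * HH)))
    (b' := X0 * (M1 * (1 - (d.cq δ).Bf z (u + y)))) e0 (by linarith) δn0 δE
  have en : n = z * y + δn := by rw [hδn]; ring
  have g1 : SS * ((1 + (d.cq δ).T1 * u)
      * ((1 - u - z + (d.cq δ).T1 * δn) * HH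
        + (d.cq δ).qa * (d.cq δ).K1 (y + z)))
      = SS * ((1 + rD d.T1 * u) * LK) + SS * ((1 + rD d.T1 * u) * (rD d.T1 * HH)) * δn := by
    have e1 : (d.cq δ).T1 = rD d.T1 := rfl
    rw [e1, hLK]
    ring
  have g2 : (d.cq δ).x0 u * (((d.cq δ).m0 u + (d.cq δ).m1 u * n)
        * (1 - (d.cq δ).Bf z (u + y)))
      = X0 * ((M0 + M1 * (z * y)) * (1 - (d.cq δ).Bf z (u + y)))
        + X0 * (M1 * (1 - (d.cq δ).Bf z (u + y))) * δn := by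
    have e1 : (d.cq δ).m0 u = M0 := rfl
    have e2 : (d.cq δ).m1 u = M1 := rfl
    have e3 : (d.cq δ).x0 u = X0 := rfl
    rw [e1, e2, e3, en]
    ring
  rw [g1, g2]
  exact key

end

/-! ### the test of a box -/

noncomputable def ltD (n : ℕ) : Bool := Nat.ble (Nat.add n 1) 1048576
theorem ltD_ok {n : ℕ} (h : ltD n = true) : n < 1048576 := Nat.le_of_ble_eq_true h

/-- the shape of the budget -/
noncomputable def hsN (u0 : ℕ) : ℕ := md (Nat.add 1048576 u0) (Nat.add 1048576 (md u0 u0))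

namespace CqN

variable (d : CqN)

/-- **the test of a box**: `F + F2 ≤ kap (hs - z / 2)` and the side conditions -/
noncomputable def lfT (kap : ℕ) (F2 : ℕ → ℕ → ℕ → ℕ → ℕ → ℕ → ℕ) (z0 z1 y0 y1 u0 u1 : ℕ) : Bool :=
  and (ltD (d.bf z0 z1 (Nat.add u1 y1))) (and (ltD (d.bm z0 z1 (Nat.add u1 y1)))
    (and (Nat.ble (hf z1) (hsN u0))
      (and (Nat.ble (Nat.add (d.F z0 z1 y0 y1 u0 u1) (F2 z0 z1 y0 y1 u0 u1))
        (md kap (Nat.sub (hsN u0) (hf z1))))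
      (and (d.hmB z0 z1 y0 y1 u0 u1) (d.capB z0 z1 y0 y1 u0 u1)))))

/-- the cubics of a box are nonincreasing -/
noncomputable def antZ (z0 z1 : ℕ) : Bool :=
  and (antB (d.zA z0 z1)) (and (antB (d.zB z0 z1)) (and (antB (d.zK2 z0 z1))
    (and (antB (d.zK4 z0 z1)) (and (antB d.K1) (and (antB d.K3) (and (antLB d.C0)
      (and (antLB d.C1) (and (antLB d.m0) (and (antLB d.m1) (and (antB d.HA) (and (antB d.HB)
        (and (antB d.RB) (antLB d.x0)))))))))))))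

end CqN

/-- what the boxes give at a point -/
structure Good (d : CqN) (δ : ℝ) (kap : ℕ) (F2 : ℝ → ℝ → ℝ → ℝ) (u y z : ℝ) : Prop where
  bf : (d.cq δ).Bf z (u + y) < 1
  F : (d.cq δ).F u y z + F2 u y z ≤ rD kap * ((1 + u) * (1 + u ^ 2) - z / 2)
  hm : ∀ n, z * y ≤ n → n ≤ z * y + rD d.em * (1 - u - z) →
    (d.cq δ).T1 * (d.cq δ).α * ((1 + (d.cq δ).T1 * u) * (1 - u - z + (d.cq δ).T1 * (n - z * y)))
      ≤ ((d.cq δ).m0 u + (d.cq δ).m1 u * n) * (1 - (d.cq δ).Bf z (u + y))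
  cap : ∀ n, z * y ≤ n → n ≤ z * y + rD d.em * (1 - u - z) →
    (d.cq δ).S (d.cq δ).T1 * ((1 + (d.cq δ).T1 * u)
      * ((1 - u - z + (d.cq δ).T1 * (n - z * y)) * (d.cq δ).hh u y z
        + (d.cq δ).qa * (d.cq δ).K1 (y + z)))
      ≤ (d.cq δ).x0 u * (((d.cq δ).m0 u + (d.cq δ).m1 u * n)
        * (1 - (d.cq δ).Bf z (u + y)))

section

variable {d : CqN} {δ : ℝ} {kap : ℕ} {F2 : ℝ → ℝ → ℝ → ℝ}
variable {F2N : ℕ → ℕ → ℕ → ℕ → ℕ → ℕ → ℕ}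

/-- the bound of the second part on boxes -/
def F2Ok (F2 : ℝ → ℝ → ℝ → ℝ) (F2N : ℕ → ℕ → ℕ → ℕ → ℕ → ℕ → ℕ) : Prop :=
  ∀ u y z u0 u1 y0 y1 z0 z1, Pt3 u y z u0 u1 y0 y1 z0 z1 → U (F2 u y z) (F2N z0 z1 y0 y1 u0 u1)

theorem lfT_ok (h2 : F2Ok F2 F2N) (δ0 : 0 ≤ δ) (hδ : δ ≤ rD d.δ) {u y z : ℝ}
    {u0 u1 y0 y1 z0 z1 : ℕ}
    (hA : d.antZ z0 z1 = true) (hl : d.lfT kap F2N z0 z1 y0 y1 u0 u1 = true)
    (h : Pt3 u y z u0 u1 y0 y1 z0 z1) : Good d δ kap F2 u y z := by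
  obtain ⟨d1, d2, d3, d4, d5, d6⟩ := id h.d
  obtain ⟨c1, k⟩ := and_ok hl
  obtain ⟨c2, k⟩ := and_ok k
  obtain ⟨c3, k⟩ := and_ok k
  obtain ⟨c4, k⟩ := and_ok k
  obtain ⟨c5, c6⟩ := and_ok k
  have b1 := ltD_ok c1
  have b2 := ltD_ok c2
  have b3 := Nat.le_of_ble_eq_true c3
  have b4 := Nat.le_of_ble_eq_true c4
  obtain ⟨a1, k⟩ := and_ok hA
  obtain ⟨a2, k⟩ := and_ok k
  obtain ⟨a3, k⟩ := and_ok k
  obtain ⟨a4, k⟩ := and_ok k
  obtain ⟨a5, k⟩ := and_ok k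
  obtain ⟨a6, k⟩ := and_ok k
  obtain ⟨a7, k⟩ := and_ok k
  obtain ⟨a8, k⟩ := and_ok k
  obtain ⟨a9, k⟩ := and_ok k
  obtain ⟨a10, k⟩ := and_ok k
  obtain ⟨a11, k⟩ := and_ok k
  obtain ⟨a12, k⟩ := and_ok k
  obtain ⟨a13, a14⟩ := and_ok k
  have hAz : AntZ d z0 z1 := ⟨antLB_ok _ a7, antLB_ok _ a8, antLB_ok _ a9, antLB_ok _ a10,
    antB_ok a1, antB_ok a2, antB_ok a3, antB_ok a4, antB_ok a5, antB_ok a6, antB_ok a11,
    antB_ok a12, antB_ok a13, antLB_ok _ a14⟩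
  constructor
  · have := (bf_ge (δ := δ) (d := d) h).2
    have h3 : rD (d.bf z0 z1 (Nat.add u1 y1)) < 1 := by
      rw [← rD_one]
      exact rD_lt.2 b1
    exact lt_of_le_of_lt this h3
  · have i1 := (F_ge (δ := δ) h hAz b1 b2).add (h2 _ _ _ _ _ _ _ _ _ h)
    have lhs : L ((1 + u) * (1 + u ^ 2)) (hsN u0) := by
      have e : (1 + u) * (1 + u ^ 2) = (1 + u) * (1 + u * u) := by ring
      rw [e]
      exact (L.one.add h.u.lo).md (L.one.add (h.u.lo.md h.u.lo))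
    have i2 : L (rD kap * ((1 + u) * (1 + u ^ 2) - z / 2))
        (md kap (Nat.sub (hsN u0) (hf z1))) := (Lrf kap).md (lhs.sub h.z.up.hf b3)
    exact (i1.le b4).trans i2
  · exact fun n n1 n2 => hmB_ok h hAz b1 c5 n1 n2
  · exact fun n n1 n2 => capB_ok h hAz δ0 hδ b1 c6 n1 n2

/-- the boxes of one interval of `z` -/
noncomputable def chkZ (d : CqN) (kap : ℕ) (F2N : ℕ → ℕ → ℕ → ℕ → ℕ → ℕ → ℕ) (z0 z1 s : ℕ) : Bool :=
  and (d.antZ z0 z1) (stp (fun y0 y1 => bis (d.lfT kap F2N z0 z1 y0 y1) 12 0 d.em) d.em 64 0 s)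

/-- the intervals of `z` -/
noncomputable def runZ (d : CqN) (kap : ℕ) (F2N : ℕ → ℕ → ℕ → ℕ → ℕ → ℕ → ℕ) (stop : ℕ)
    (l : List (ℕ × ℕ)) : ℕ → Bool :=
  List.rec (motive := fun _ => ℕ → Bool) (fun z0 => Nat.ble stop z0)
    (fun p _ ih z0 => and (chkZ d kap F2N z0 p.1 p.2) (ih p.1)) l

theorem chkZ_ok (h2 : F2Ok F2 F2N) (δ0 : 0 ≤ δ) (hδ : δ ≤ rD d.δ) (em : 0 < d.em)
    {z0 z1 s : ℕ} (hc : chkZ d kap F2N z0 z1 s = true)
    {u y z : ℝ} (hd : De (rD d.em) u y z) (hz : Inb z z0 z1) : Good d δ kap F2 u y z := by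
  obtain ⟨hA, hs⟩ := and_ok hc
  obtain ⟨hdm, hue, hye, hze⟩ := hd
  obtain ⟨d1, d2, d3, d4, d5, d6⟩ := id hdm
  have hy : Inb y 0 d.em := ⟨Or.inr rfl, rD_zero.le.trans d2, hye⟩
  have hu : Inb u 0 d.em := ⟨Or.inr rfl, rD_zero.le.trans d1, hue⟩
  have key := stp_ok (P := fun y => Dm u y z → Good d δ kap F2 u y z)
    (f := fun y0 y1 => bis (d.lfT kap F2N z0 z1 y0 y1) 12 0 d.em)
    (fun y0 y1 hb y' hy' hd' => by
      have leaf : ∀ a b, d.lfT kap F2N z0 z1 y0 y1 a b = true → ∀ u', Inb u' a b →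
          (Dm u' y' z → Good d δ kap F2 u' y' z) := fun a b hab u' hu' hd'' =>
        lfT_ok h2 δ0 hδ hA hab ⟨hd'', hu', hy', hz⟩
      exact bis_ok (P := fun u' => Dm u' y' z → Good d δ kap F2 u' y' z) leaf 12 _ _ hb u hu hd')
    64 0 s hs y hy
  rcases key with k | k
  · exact absurd k (not_le.2 em)
  · exact k hdm

theorem runZ_ok (h2 : F2Ok F2 F2N) (δ0 : 0 ≤ δ) (hδ : δ ≤ rD d.δ) (em : 0 < d.em)
    {stop : ℕ} (l : List (ℕ × ℕ)) :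
    ∀ z0, runZ d kap F2N stop l z0 = true → ∀ u y z, De (rD d.em) u y z → Inb z z0 stop →
      stop ≤ z0 ∨ Good d δ kap F2 u y z := by
  induction l with
  | nil => exact fun z0 h u y z _ _ => Or.inl (Nat.le_of_ble_eq_true h)
  | cons p l ih =>
    intro z0 h u y z hd hz
    obtain ⟨h1, h3⟩ := and_ok (a := chkZ d kap F2N z0 p.1 p.2) (b := runZ d kap F2N stop l p.1) h
    rcases hz.split (m := p.1) with k | k
    · exact Or.inr (chkZ_ok h2 δ0 hδ em h1 hd k)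
    · rcases ih _ h3 u y z hd k with k2 | k2
      · refine Or.inr (chkZ_ok h2 δ0 hδ em h1 hd ⟨hz.1, hz.2.1, hz.2.2.trans (rD_mono k2)⟩)
      · exact Or.inr k2

/-- the boxes of one theorem -/
theorem run_ok (h2 : F2Ok F2 F2N) (δ0 : 0 ≤ δ) (hδ : δ ≤ rD d.δ) (em : 0 < d.em)
    {stop z0 : ℕ} (hlt : z0 < stop) (l : List (ℕ × ℕ))
    (h : runZ d kap F2N stop l z0 = true) {u y z : ℝ} (hd : De (rD d.em) u y z)
    (hz : Inb z z0 stop) : Good d δ kap F2 u y z := by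
  rcases runZ_ok (δ := δ) h2 δ0 hδ em l z0 h u y z hd hz with k | k
  · exact absurd k (not_le.2 hlt)
  · exact k

/-- all boxes in one theorem -/
theorem run_all (h2 : F2Ok F2 F2N) (δ0 : 0 ≤ δ) (hδ : δ ≤ rD d.δ) (em : 0 < d.em)
    (l : List (ℕ × ℕ)) (h : runZ d kap F2N d.em l 0 = true) {u y z : ℝ}
    (hd : De (rD d.em) u y z) : Good d δ kap F2 u y z :=
  run_ok h2 δ0 hδ em em l h hd ⟨Or.inr rfl, rD_zero.le.trans hd.1.2.2.1, hd.2.2.2⟩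

/-- **the conditions on the triples and the final inequality** -/
theorem bx_of (hg : ∀ u y z, De (rD d.em) u y z → Good d δ kap F2 u y z) :
    (d.cq δ).Bx ∧ ∀ u y z, De (rD d.em) u y z →
      (d.cq δ).F u y z + F2 u y z ≤ rD kap * ((1 + u) * (1 + u ^ 2) - z / 2) :=
  ⟨⟨fun u y z h => (hg u y z h).bf, fun u y z n h => (hg u y z h).hm n,
    fun u y z n h => (hg u y z h).cap n⟩, fun u y z h => (hg u y z h).F⟩

end

end Pool.Agent.RZ.RCN.K
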