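import Pool.Agent.RZ.RCO.J2k
import Pool.Agent.RZ.RCO.T1k

/-! The numbers of the second type in a cell and the upper bounds on boxes (MP_73ccd0_lc). -/

namespace Pool.Agent.RZ.RCN.K

open Set Finset Pool.Agent.RZ.RCO.RT Pool.Agent.RZ.RCO.BxN

set_option linter.unusedSectionVars false
set_option linter.unusedVariables false

/-- the numbers of the second type, over `2 ^ 20` -/
structure C2N where
  th2 : ℕ
  thh2 : ℕ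
  k1 : ℕ
  k3 : ℕ
  io : ℕ
  QA0 : Cub
  QA1 : Cub
  QH0 : Cub
  QH1 : Cub

/-- the real numbers -/
noncomputable def C2N.c2 (q : C2N) : C2 where
  th2 := rD q.th2
  thh2 := rD q.thh2
  k1 := rD q.k1
  k3 := rD q.k3
  io := rD q.io
  QA0 := q.QA0.ev
  QA1 := q.QA1.ev
  QH0 := q.QH0.ev
  QH1 := q.QH1.ev

/-! ### the function on boxes -/

namespace CqN

variable (d : CqN)

/-- `1 / (1 - Bt)`, the entry in the box `y0, y1`, the sum of the two others below `w1` -/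
noncomputable def qt (y0 y1 w1 : ℕ) : ℕ :=
  qu 1048576 (Nat.sub 1048576 (mn (d.bf y0 y1 w1) 524288))
/-- the factor of the errors -/
noncomputable def G2N (z0 z1 y0 y1 u0 u1 : ℕ) : ℕ :=
  mu (mu (lp2 z0 z1 d.c0 d.c1 d.c2) (Nat.add (nth d.C0 (iLo u0)) (mu (nth d.C1 (iLo u0))
    (mu d.em (Nat.sub 1048576 u0))))) (mu (d.qt y0 y1 (Nat.add u1 z1)) (d.qt y0 y1 (Nat.add u1 z1)))
/-- the direct part -/
noncomputable def J2N (z0 z1 y0 y1 u1 : ℕ) : ℕ :=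
  mu (mu (lp2 z0 z1 d.c0 d.c1 d.c2) (mu (d.fT (Nat.add u1 z1)) (lp2 y0 y1 d.e0 d.e1 d.e2)))
    (mu (d.qt y0 y1 (Nat.add u1 z1)) (d.qt y0 y1 (Nat.add u1 z1)))
/-- side I -/
noncomputable def s1N (q : C2N) (z0 z1 y0 y1 u0 u1 : ℕ) : ℕ :=
  mu (mu (mu (Nat.sub 1048576 y0) (mu (d.G2N z0 z1 y0 y1 u0 u1) (d.G2N z0 z1 y0 y1 u0 u1)))
    (mu (d.fT u1) (d.fT u1)))
    (Nat.add (mu q.k1 (evN d.K1 (Nat.add y0 z0)))
      (mu (mu q.k3 (mu (Nat.sub 1048576 u0) (Nat.sub 1048576 u0))) (evN d.K3 (Nat.add y0 z0))))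
/-- side II -/
noncomputable def s2N (q : C2N) (u0 u1 : ℕ) : ℕ :=
  mu (Nat.add 1048576 (mu q.io u1)) (lp2 u0 u1 (Nat.add (evN q.QA0 u0) (evN q.QH0 u0))
    (Nat.add (evN q.QA1 u0) (evN q.QH1 u0)) (Nat.add (evN q.QA1 u0) (evN q.QH1 u0)))
/-- **the bound of `F2`** -/
noncomputable def F2N (q : C2N) (z0 z1 y0 y1 u0 u1 : ℕ) : ℕ :=
  hf (Nat.add (Nat.add (d.s1N q z0 z1 y0 y1 u0 u1) (s2N q u0 u1))
    (Nat.add (d.J2N z0 z1 y0 y1 u1) (d.J2N z0 z1 u0 u1 y1)))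
/-- the static conditions of the function -/
noncomputable def an2 (q : C2N) : Bool :=
  and (antLB d.C0) (and (antLB d.C1) (and (antB d.K1) (and (antB d.K3) (and (antB q.QA0)
    (and (antB q.QA1) (and (antB q.QH0) (antB q.QH1)))))))

end CqN

section

variable {d : CqN} {δ : ℝ} {q : C2N} {u y z : ℝ} {u0 u1 y0 y1 z0 z1 : ℕ}

theorem Pt3.sw1 (h : Pt3 u y z u0 u1 y0 y1 z0 z1) : Pt3 u z y u0 u1 z0 z1 y0 y1 :=
  ⟨⟨h.d.1, h.d.2.2.1, h.d.2.1, h.d.2.2.2.2.1, h.d.2.2.2.1, by linarith [h.d.2.2.2.2.2]⟩,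
    h.u, h.z, h.y⟩

theorem Pt3.sw2 (h : Pt3 u y z u0 u1 y0 y1 z0 z1) : Pt3 y u z y0 y1 u0 u1 z0 z1 :=
  ⟨⟨h.d.2.1, h.d.1, h.d.2.2.1, by linarith [h.d.2.2.2.1], h.d.2.2.2.2.2, h.d.2.2.2.2.1⟩,
    h.y, h.u, h.z⟩

theorem qt_ge (h : Pt3 u y z u0 u1 y0 y1 z0 z1) :
    0 ≤ (d.cq δ).q2 y (u + z) ∧ U ((d.cq δ).q2 y (u + z))
      (mu (d.qt y0 y1 (Nat.add u1 z1)) (d.qt y0 y1 (Nat.add u1 z1))) := by
  have hb := (bf_ge (δ := δ) (d := d) h.sw1).2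
  have hB : U ((d.cq δ).Bt y (u + z)) (mn (d.bf y0 y1 (Nat.add u1 z1)) 524288) := by
    refine U.mn (hb.mono (min_le_left _ _)) ?_
    refine (min_le_right _ _).trans ?_
    rw [rD_half]
  have hlt : mn (d.bf y0 y1 (Nat.add u1 z1)) 524288 < 1048576 := by
    rw [mn_eq]
    exact lt_of_le_of_lt (min_le_right _ _) (by norm_num)
  obtain ⟨p, hU⟩ := inv_ge hB hlt
  have i0 : 0 ≤ (1 - (d.cq δ).Bt y (u + z))⁻¹ := inv_nonneg.2 p.le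
  have e : (d.cq δ).q2 y (u + z)
      = (1 - (d.cq δ).Bt y (u + z))⁻¹ * (1 - (d.cq δ).Bt y (u + z))⁻¹ := by
    unfold Cq.q2
    rw [sq, mul_inv]
  exact ⟨Cq.q2_nonneg _ _, by rw [e]; exact hU.mu hU i0 i0⟩

theorem G2_ge (h : Pt3 u y z u0 u1 y0 y1 z0 z1) (hC0 : AntL d.C0) (hC1 : AntL d.C1) :
    0 ≤ (d.cq δ).G2 u y z ∧ U ((d.cq δ).G2 u y z) (d.G2N z0 z1 y0 y1 u0 u1) := by
  obtain ⟨hu, hy, hz, hk⟩ := h.d.mem
  obtain ⟨q0, q1⟩ := qt_ge (d := d) (δ := δ) h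
  have C0 := rD_nonneg (nth d.C0 (ix u))
  have C1 := rD_nonneg (nth d.C1 (ix u))
  have E0 := rD_nonneg d.em
  have UC0 := U_idx hC0 h.u
  have UC1 := U_idx hC1 h.u
  have om0 : 0 ≤ 1 - u := by linarith [hu.2]
  have om1 := om_ge h.u
  have eo := mul_nonneg E0 om0
  have c1 : U (rD (nth d.C1 (ix u)) * (rD d.em * (1 - u)))
      (mu (nth d.C1 (iLo u0)) (mu d.em (Nat.sub 1048576 u0))) :=
    UC1.mu ((Urf d.em).mu om1 E0 om0) C1 eo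
  have e : (d.cq δ).G2 u y z
      = lp z (rD d.c0) (rD d.c1) (rD d.c2) * (rD (nth d.C0 (ix u))
        + rD (nth d.C1 (ix u)) * (rD d.em * (1 - u))) * (d.cq δ).q2 y (u + z) := rfl
  rw [e]
  have cc0 : 0 ≤ rD (nth d.C0 (ix u)) + rD (nth d.C1 (ix u)) * (rD d.em * (1 - u)) := by
    have := mul_nonneg C1 eo
    linarith
  have l0 := lp_nn hz d.c0 d.c1 d.c2
  have l1 := lp2_ge h.z hz.2 d.c0 d.c1 d.c2
  exact ⟨mul_nonneg (mul_nonneg l0 cc0) q0,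
    (l1.mu (UC0.add c1) l0 cc0).mu q1 (mul_nonneg l0 cc0) q0⟩

theorem J2_ge (h : Pt3 u y z u0 u1 y0 y1 z0 z1) :
    0 ≤ (d.cq δ).J2 u y z ∧ U ((d.cq δ).J2 u y z) (d.J2N z0 z1 y0 y1 u1) := by
  obtain ⟨hu, hy, hz, hk⟩ := h.d.mem
  obtain ⟨q0, q1⟩ := qt_ge (d := d) (δ := δ) h
  have w0 : 0 ≤ u + z := add_nonneg hu.1 hz.1
  have f0 := f1_nn (d := d) w0
  have f1 : U (1 + rD d.T1 * (u + z)) (d.fT (Nat.add u1 z1)) := fT_ge h.sw1.w w0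
  have l0 := lp_nn hz d.c0 d.c1 d.c2
  have l1 := lp2_ge h.z hz.2 d.c0 d.c1 d.c2
  have m0 := lp_nn hy d.e0 d.e1 d.e2
  have m1 := lp2_ge h.y hy.2 d.e0 d.e1 d.e2
  have e : (d.cq δ).J2 u y z = lp z (rD d.c0) (rD d.c1) (rD d.c2)
      * ((1 + rD d.T1 * (u + z)) * lp y (rD d.e0) (rD d.e1) (rD d.e2))
      * (d.cq δ).q2 y (u + z) := rfl
  rw [e]
  exact ⟨mul_nonneg (mul_nonneg l0 (mul_nonneg f0 m0)) q0,
    (l1.mu (f1.mu m1 f0 m0) l0 (mul_nonneg f0 m0)).mu q1 (mul_nonneg l0 (mul_nonneg f0 m0)) q0⟩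

/-- **the bound of the second part on all boxes** -/
theorem F2_ok (ha : d.an2 q = true) : F2Ok ((d.cq δ).F2 q.c2) (d.F2N q) := by
  intro u y z u0 u1 y0 y1 z0 z1 h
  obtain ⟨a1, k⟩ := and_ok ha
  obtain ⟨a2, k⟩ := and_ok k
  obtain ⟨a3, k⟩ := and_ok k
  obtain ⟨a4, k⟩ := and_ok k
  obtain ⟨a5, k⟩ := and_ok k
  obtain ⟨a6, k⟩ := and_ok k
  obtain ⟨a7, a8⟩ := and_ok k
  obtain ⟨hu, hy, hz, hk⟩ := h.d.mem
  have om0 : 0 ≤ 1 - u := by linarith [hu.2]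
  have oy0 : 0 ≤ 1 - y := by linarith [hy.2]
  have om1 := om_ge h.u
  have oy1 := om_ge h.y
  obtain ⟨g0, g1⟩ := G2_ge (d := d) (δ := δ) h (antLB_ok _ a1) (antLB_ok _ a2)
  obtain ⟨j0, j1⟩ := J2_ge (d := d) (δ := δ) h
  obtain ⟨i0, i1⟩ := J2_ge (d := d) (δ := δ) h.sw2
  have f0 := f1_nn (d := d) hu.1
  have f1 : U (1 + rD d.T1 * u) (d.fT u1) := fT_ge h.u.up hu.1
  have k10 := Cub.ev_nonneg d.K1 hk.1 hk.2
  have k30 := Cub.ev_nonneg d.K3 hk.1 hk.2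
  have k11 := evN_ge (antB_ok a3) h.k hk.2
  have k31 := evN_ge (antB_ok a4) h.k hk.2
  have kk1 := rD_nonneg q.k1
  have kk3 := rD_nonneg q.k3
  have io0 := rD_nonneg q.io
  -- side I
  have s0 : 0 ≤ rD q.k1 * d.K1.ev (y + z) + rD q.k3 * ((1 - u) * (1 - u)) * d.K3.ev (y + z) := by
    positivity
  have s1 : U (rD q.k1 * d.K1.ev (y + z) + rD q.k3 * ((1 - u) * (1 - u)) * d.K3.ev (y + z))
      (Nat.add (mu q.k1 (evN d.K1 (Nat.add y0 z0)))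
      (mu (mu q.k3 (mu (Nat.sub 1048576 u0) (Nat.sub 1048576 u0))) (evN d.K3 (Nat.add y0 z0)))) :=
    ((Urf q.k1).mu k11 kk1 k10).add (((Urf q.k3).mu (om1.mu om1 om0 om0) kk3
      (mul_nonneg om0 om0)).mu k31 (mul_nonneg kk3 (mul_nonneg om0 om0)) k30)
  have p0 : 0 ≤ (1 - y) * ((d.cq δ).G2 u y z * (d.cq δ).G2 u y z)
      * ((1 + rD d.T1 * u) * (1 + rD d.T1 * u)) :=
    mul_nonneg (mul_nonneg oy0 (mul_nonneg g0 g0)) (mul_nonneg f0 f0)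
  have sI : U ((1 - y) * ((d.cq δ).G2 u y z * (d.cq δ).G2 u y z)
      * ((1 + rD d.T1 * u) * (1 + rD d.T1 * u))
      * (rD q.k1 * d.K1.ev (y + z) + rD q.k3 * ((1 - u) * (1 - u)) * d.K3.ev (y + z)))
      (d.s1N q z0 z1 y0 y1 u0 u1) :=
    ((oy1.mu (g1.mu g1 g0 g0) oy0 (mul_nonneg g0 g0)).mu (f1.mu f1 f0 f0)
      (mul_nonneg oy0 (mul_nonneg g0 g0)) (mul_nonneg f0 f0)).mu s1 p0 s0
  -- side II
  have lu : L u u0 := h.u.lo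
  have c00 : 0 ≤ q.QA0.ev u + q.QH0.ev u :=
    add_nonneg (Cub.ev_nonneg _ hu.1 hu.2) (Cub.ev_nonneg _ hu.1 hu.2)
  have c10 : 0 ≤ q.QA1.ev u + q.QH1.ev u :=
    add_nonneg (Cub.ev_nonneg _ hu.1 hu.2) (Cub.ev_nonneg _ hu.1 hu.2)
  have c01 : U (q.QA0.ev u + q.QH0.ev u) (Nat.add (evN q.QA0 u0) (evN q.QH0 u0)) :=
    (evN_ge (antB_ok a5) lu hu.2).add (evN_ge (antB_ok a7) lu hu.2)
  have c11 : U (q.QA1.ev u + q.QH1.ev u) (Nat.add (evN q.QA1 u0) (evN q.QH1 u0)) :=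
    (evN_ge (antB_ok a6) lu hu.2).add (evN_ge (antB_ok a8) lu hu.2)
  have w0 : 0 ≤ lp u (q.QA0.ev u + q.QH0.ev u) (q.QA1.ev u + q.QH1.ev u)
      (q.QA1.ev u + q.QH1.ev u) := lp_nonneg hu.1 hu.2 c00 c10 c10
  have w1 : U (lp u (q.QA0.ev u + q.QH0.ev u) (q.QA1.ev u + q.QH1.ev u)
      (q.QA1.ev u + q.QH1.ev u)) (lp2 u0 u1 (Nat.add (evN q.QA0 u0) (evN q.QH0 u0))
      (Nat.add (evN q.QA1 u0) (evN q.QH1 u0)) (Nat.add (evN q.QA1 u0) (evN q.QH1 u0))) :=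
    (lp2_ge h.u hu.2 _ _ _).mono (lp_mono hu.1 hu.2 c01 c11 c11)
  have o0 : 0 ≤ 1 + rD q.io * u := by
    have := mul_nonneg io0 hu.1
    linarith
  have o1 : U (1 + rD q.io * u) (Nat.add 1048576 (mu q.io u1)) :=
    U.one.add ((Urf q.io).mu h.u.up io0 hu.1)
  have sII : U ((1 + rD q.io * u) * lp u (q.QA0.ev u + q.QH0.ev u) (q.QA1.ev u + q.QH1.ev u)
      (q.QA1.ev u + q.QH1.ev u)) (CqN.s2N q u0 u1) := o1.mu w1 o0 w0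
  have e : (d.cq δ).F2 q.c2 u y z
      = ((1 - y) * ((d.cq δ).G2 u y z * (d.cq δ).G2 u y z)
        * ((1 + rD d.T1 * u) * (1 + rD d.T1 * u))
        * (rD q.k1 * d.K1.ev (y + z) + rD q.k3 * ((1 - u) * (1 - u)) * d.K3.ev (y + z))
      + (1 + rD q.io * u) * lp u (q.QA0.ev u + q.QH0.ev u) (q.QA1.ev u + q.QH1.ev u)
        (q.QA1.ev u + q.QH1.ev u) + ((d.cq δ).J2 u y z + (d.cq δ).J2 y u z)) / 2 := by
    have e1 : (d.cq δ).F2 q.c2 u y z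
      = 1 / 2 * ((1 - y) * (d.cq δ).G2 u y z ^ 2 * (1 + rD d.T1 * u) ^ 2
        * (rD q.k1 * d.K1.ev (y + z) + rD q.k3 * (1 - u) ^ 2 * d.K3.ev (y + z))
        + (1 + rD q.io * u) * lp u (q.QA0.ev u + q.QH0.ev u) (q.QA1.ev u + q.QH1.ev u)
          (q.QA1.ev u + q.QH1.ev u)
        + ((d.cq δ).J2 u y z + (d.cq δ).J2 y u z)) := rfl
    rw [e1]
    ring
  rw [e]
  exact ((sI.add sII).add (j1.add i1)).hf

end

end Pool.Agent.RZ.RCN.K
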