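import Pool.Agent.RZ.RCO.T1q

/-! The frame functions of a cell: the theorem (MP_73ccd0_lc). -/

namespace Pool.Agent.RZ.RCN.K

open Set Finset Pool.Agent.RZ.RCO.RT Pool.Agent.RZ.RCO.BxN Pool.Agent.RZ.RCM9
open Pool.Agent.RZ.RCN.Ker

set_option linter.unusedSectionVars false
set_option linter.unusedVariables false

/-- the functions of the cherry cost of the polynomial data -/
noncomputable def Ps.kf (p : Ps) : Kf := p.d.dt.kf (pv p.d.be0) (pv p.d.be1) p.d.rPe p.d.rP

theorem nth_getD (l : List ℕ) (i : ℕ) : nth l i = l.getD i 0 := by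
  induction l generalizing i with
  | nil => rfl
  | cons a l ih =>
    cases i with
    | zero => rfl
    | succ i =>
      have h := ih i
      rw [List.getD_cons_succ]
      exact h

variable {g : FrG} {p : Ps} {e : ExD} {d : CqN} {c : FrC} {κd : ℝ → ℝ → ℝ → ℝ}

section maj

variable {N : ℕ → List ℚ} {D : List ℚ} {G : List ℕ}

/-- the majorant on `[0, 1]` -/
theorem maj1 (h : majB N D G 0 = true) (hl : Nat.beq G.length 65 = true) {s : ℝ} (s0 : 0 ≤ s)
    (s1 : s ≤ 1) : ∃ j : ℕ, (j : ℝ) ≤ 64 * s ∧ 64 * s ≤ j + 1 ∧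
      pv (N j) s ≤ pv D s * plx 64 (fun j => rD (nth G j)) s := by
  have len := Nat.eq_of_beq_eq_true hl
  obtain ⟨j, _, h1, h2, h3⟩ := majB_ok h (n := 64) (by omega) (by norm_num) s0
    (by push_cast; linarith) le_rfl
  exact ⟨j, h1, h2, h3⟩

end maj

/-- the lengths -/
structure FrG.Len (g : FrG) (p : Ps) : Prop where
  f0 : Nat.beq g.f0.length 65 = true
  f1 : Nat.beq g.f1.length 65 = true
  f2 : Nat.beq g.f2.length 65 = true
  φ0 : Nat.beq g.φ0.length 65 = true
  φ1 : Nat.beq g.φ1.length 65 = true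
  φ2 : Nat.beq g.φ2.length 65 = true
  c0 : Nat.beq g.c0.length 65 = true
  c1 : Nat.beq g.c1.length 65 = true
  c2 : Nat.beq g.c2.length 65 = true
  ρ : Nat.beq g.ρ.length 65 = true
  U : Nat.beq g.U.length 65 = true
  Ga : Nat.beq g.Ga.length 9 = true
  Gu : Nat.beq g.Gu.length 9 = true
  jt : 8 ≤ g.jt
  four : p.four = true

theorem FrG.Ok.len (h : g.Ok p e) : g.Len p := by
  have h1 := h.l
  simp only [Bool.and_eq_true, decide_eq_true_eq] at h1
  obtain ⟨⟨⟨⟨⟨⟨⟨⟨⟨⟨⟨⟨⟨⟨a1, a2⟩, a3⟩, a4⟩, a5⟩, a6⟩, a7⟩, a8⟩, a9⟩, a10⟩, a11⟩, a12⟩, a13⟩, a14⟩, a15⟩ := h1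
  exact ⟨a1, a2, a3, a4, a5, a6, a7, a8, a9, a10, a11, a12, a13, a14, a15⟩

/-! ### the three nodes of the weight -/

theorem fh_0 (s : ℝ) : p.kf.fh 0 s = pv p.n0 s * ((1 + s) ^ 2)⁻¹ := by
  show (1 + (1 - 0) * (pv p.d.be0 s - 1) + eta 0 * pv p.d.be1 s) * ((1 + s) ^ 2)⁻¹ = _
  unfold Ps.n0 eta
  rw [min_eq_left (by norm_num)]
  ring

theorem fh_1 (s : ℝ) : p.kf.fh (1 / 2) s = pv p.n1 s * ((1 + s) ^ 2)⁻¹ := by
  show (1 + (1 - 1 / 2) * (pv p.d.be0 s - 1) + eta (1 / 2) * pv p.d.be1 s)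
    * ((1 + s) ^ 2)⁻¹ = _
  unfold Ps.n1 eta
  rw [min_self, pv_ladd, pv_ladd, pv_lsmul, pv_lsmul]
  simp only [pv]
  push_cast
  ring

theorem fh_2 (s : ℝ) : p.kf.fh 1 s = pv p.n2 s * ((1 + s) ^ 2)⁻¹ := by
  show (1 + (1 - 1) * (pv p.d.be0 s - 1) + eta 1 * pv p.d.be1 s) * ((1 + s) ^ 2)⁻¹ = _
  unfold Ps.n2 eta
  rw [min_eq_right (by norm_num), pv_ladd, pv_lsmul]
  simp only [pv]
  push_cast
  ring

theorem kf_fi (z t : ℝ) : p.kf.fi z t = t / (1 + t) - eta z * pv p.d.Z t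
    + (1 - z) / 2 * (pv p.d.F t + pv p.d.F3 t + pv p.d.F2 t)
    + (p.d.SP : ℝ) * (1 - z) * pv p.d.Gp t := rfl

theorem fi_0 {t : ℝ} (t0 : 0 ≤ t) :
    (1 + (p.d.ee : ℝ) * t) * p.kf.fi 0 t = pv p.m0 t * (1 + t)⁻¹ := by
  have : 1 + t ≠ 0 := by linarith
  rw [kf_fi]
  unfold Ps.m0 Ps.nF eta
  rw [min_eq_left (by norm_num)]
  simp only [pv_ladd, pv_lsmul, pv_lmul, pv]
  push_cast
  field_simp
  ring

theorem fi_1 {t : ℝ} (t0 : 0 ≤ t) :
    (1 + (p.d.ee : ℝ) * t) * p.kf.fi (1 / 2) t = pv p.m1 t * (1 + t)⁻¹ := by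
  have : 1 + t ≠ 0 := by linarith
  rw [kf_fi]
  unfold Ps.m1 Ps.nF eta
  rw [min_self]
  simp only [pv_ladd, pv_lsmul, pv_lmul, pv]
  push_cast
  field_simp
  ring

theorem fi_2 {t : ℝ} (t0 : 0 ≤ t) :
    (1 + (p.d.ee : ℝ) * t) * p.kf.fi 1 t = pv p.m2 t * (1 + t)⁻¹ := by
  have : 1 + t ≠ 0 := by linarith
  rw [kf_fi]
  unfold Ps.m2 eta
  rw [min_eq_right (by norm_num)]
  simp only [pv_ladd, pv_lsmul, pv_lmul, pv]
  push_cast
  field_simp
  ring

/-- a density below the nodes -/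
theorem fh_aux {N : List ℚ} {G : List ℕ} (h : majB (fun _ => N) [1, 2, 1] G 0 = true)
    (hl : Nat.beq G.length 65 = true) {s : ℝ} (s0 : 0 ≤ s) (s1 : s ≤ 1) :
    pv N s * ((1 + s) ^ 2)⁻¹ ≤ plx 64 (fun j => rD (nth G j)) s := by
  obtain ⟨j, _, _, h3⟩ := maj1 h hl s0 s1
  have e : pv [1, 2, 1] s = (1 + s) ^ 2 := by
    simp only [pv]; push_cast; ring
  have hp : 0 < (1 + s) ^ 2 := by positivity
  rw [e] at h3
  rw [← div_eq_mul_inv, div_le_iff₀ hp]
  linarith

theorem lin_aux {N : List ℚ} {G : List ℕ} (h : majB (fun _ => N) [1, 1] G 0 = true)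
    (hl : Nat.beq G.length 65 = true) {s : ℝ} (s0 : 0 ≤ s) (s1 : s ≤ 1) :
    pv N s * (1 + s)⁻¹ ≤ plx 64 (fun j => rD (nth G j)) s := by
  obtain ⟨j, _, _, h3⟩ := maj1 h hl s0 s1
  have e : pv [1, 1] s = 1 + s := by
    simp only [pv]; push_cast; ring
  have hp : 0 < 1 + s := by positivity
  rw [e] at h3
  rw [← div_eq_mul_inv, div_le_iff₀ hp]
  linarith

/-! ### the hazard -/

theorem rlo_le (hf : p.four = true) {em : ℚ} (e0 : 0 < em) {M s : ℝ}
    (h0 : pv (p.r em 0) s ≤ M) (h1 : pv (p.r em 1) s ≤ M) (h2 : pv (p.r em 2) s ≤ M)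
    (h3 : pv (p.r em 3) s ≤ M) {z : ℝ} (z0 : 0 ≤ z) (z1 : z ≤ em) :
    1 + pv2 p.z.Rlo z s / 2 ≤ M := by
  unfold Ps.four at hf
  unfold Ps.r at h0 h1 h2 h3
  rcases hR : p.z.Rlo with _ | ⟨r0, _ | ⟨r1, _ | ⟨r2, _ | ⟨r3, _ | ⟨r4, r5⟩⟩⟩⟩⟩ <;>
    simp only [hR] at hf h0 h1 h2 h3
  all_goals first | exact absurd hf (by decide) | skip
  have e0' : (0 : ℝ) < em := by exact_mod_cast e0
  simp only [pv_ladd, pv_lsmul, pv] at h0 h1 h2 h3
  push_cast at h0 h1 h2 h3
  simp only [pv2]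
  obtain ⟨c, hc⟩ : ∃ c : ℝ, c = z / em := ⟨_, rfl⟩
  have zc : z = em * c := by rw [hc]; field_simp
  have c0 : 0 ≤ c := by rw [hc]; positivity
  have c1 : c ≤ 1 := by rw [hc]; exact (div_le_one e0').2 z1
  have d0 := sub_nonneg.2 c1
  have k0 := mul_le_mul_of_nonneg_left h0 (pow_nonneg d0 3)
  have k1 := mul_le_mul_of_nonneg_left h1 (mul_nonneg (mul_nonneg zero_le_three c0) (pow_nonneg d0 2))
  have k2 := mul_le_mul_of_nonneg_left h2 (mul_nonneg (mul_nonneg zero_le_three (pow_nonneg c0 2)) d0)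
  have k3 := mul_le_mul_of_nonneg_left h3 (pow_nonneg c0 3)
  have e : (1 - c) ^ 3 * M + 3 * c * (1 - c) ^ 2 * M + 3 * c ^ 2 * (1 - c) * M + c ^ 3 * M = M := by
    ring
  rw [zc]
  nlinarith

theorem rr_aux (hg : g.Ok p e) (hz : p.z.Pos p.d) {s : ℝ} (s0 : 0 ≤ s) (s1 : s ≤ 1) {z : ℝ}
    (z0 : 0 ≤ z) (z1 : z ≤ rD g.em) :
    p.z.hz.rr z s ≤ 1 + 2 * z * (plx 64 (fun j => rD (nth g.ρ j)) s - 1) := by
  have hL := hg.len
  have z2 : z ≤ 1 / 2 := z1.trans (by
    unfold rD
    have : (g.em : ℝ) ≤ 524288 := by exact_mod_cast hg.e1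
    linarith)
  have hzz : z ∈ Icc (0 : ℝ) 1 := ⟨z0, by linarith⟩
  have hss : s ∈ Icc (0 : ℝ) 1 := ⟨s0, s1⟩
  have h1 : p.z.hz.rr z s ≤ p.z.rR z s := by
    show p.z.rE z s / (1 - z * p.z.rSh z s) ≤ _
    rw [div_le_iff₀ (hz.den hzz hss)]
    exact hz.R_le hzz hss
  have one : ∀ {N : List ℚ}, majB (fun _ => N) [1] g.ρ 0 = true →
      pv N s ≤ plx 64 (fun j => rD (nth g.ρ j)) s := by
    intro N h
    obtain ⟨j, _, _, h3⟩ := maj1 h hL.ρ s0 s1
    simpa [pv] using h3
  have h2 := rlo_le hL.four (em := (g.em : ℚ) / 1048576) (by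
    have := hg.e0
    positivity) (one hg.r0) (one hg.r1) (one hg.r2) (one hg.r3) z0 (by
    push_cast
    exact z1)
  refine h1.trans ?_
  unfold HDat.rR
  rw [if_pos z2]
  have := mul_le_mul_of_nonneg_left h2 (mul_nonneg zero_le_two z0)
  linarith

/-! ### the exponents -/

theorem ExD.v_eq (t s : ℝ) : e.v t s = kq e.cp e.cp2 e.τ t + e.u s + s ^ 2 * pv (pri e.bp) t := by
  unfold ExD.v ExD.u
  ring

/-- the part which depends on `s` -/
theorem u_le (hg : g.Ok p e) {s : ℝ} (s0 : 0 ≤ s) (s1 : s ≤ 1) :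
    e.u s ≤ plx 64 (fun j => rD (nth g.U j)) s - rD g.b1 * s := by
  obtain ⟨j, h1, h2, h3⟩ := maj1 hg.U hg.len.U s0 s1
  rw [ExD.UN_eq hg.τ h1 h2] at h3
  have : pv [1] s = 1 := by simp [pv]
  rw [this] at h3
  linarith

/-- the numbers of the cell at the end `T1` -/
structure QOk (p : Ps) (e : ExD) (d : CqN) (c : FrC) : Prop where
  a : kq e.cp e.cp2 e.τ (rD d.T1) ≤ rD c.aT
  b : pv (pri e.bp) (rD d.T1) ≤ rD c.bT
  ee : 1 + (p.d.ee : ℝ) * rD d.T1 ≤ rD c.ee

theorem qB_ok (h : c.qB p e d = true) : QOk p e d c := by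
  unfold FrC.qB at h
  rw [Bool.and_eq_true, Bool.and_eq_true] at h
  obtain ⟨h1, h2, h3⟩ := h
  have h1 := of_decide_eq_true h1
  have h2 := of_decide_eq_true h2
  have h3 := of_decide_eq_true h3
  have eT : (((d.T1 : ℚ) / 1048576 : ℚ) : ℝ) = rD d.T1 := by push_cast; rfl
  refine ⟨?_, ?_, ?_⟩
  · have h4 : ((ev (pri e.cp) ((d.T1 : ℚ) / 1048576)
      + ev (pri e.cp2) (max 0 ((d.T1 : ℚ) / 1048576 - e.τ)) : ℚ) : ℝ)
        ≤ (((c.aT : ℚ) / 1048576 : ℚ) : ℝ) := by exact_mod_cast h1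
    rw [Rat.cast_add, ← pv_ev, ← pv_ev, eT] at h4
    have e2 : ((max 0 ((d.T1 : ℚ) / 1048576 - e.τ) : ℚ) : ℝ) = max 0 (rD d.T1 - (e.τ : ℝ)) := by
      rw [Rat.cast_max, Rat.cast_zero, Rat.cast_sub, eT]
    rw [e2] at h4
    unfold kq
    refine h4.trans (le_of_eq ?_)
    push_cast
    rfl
  · have h4 : ((ev (pri e.bp) ((d.T1 : ℚ) / 1048576) : ℚ) : ℝ)
        ≤ (((c.bT : ℚ) / 1048576 : ℚ) : ℝ) := by exact_mod_cast h2
    rw [← pv_ev, eT] at h4
    refine h4.trans (le_of_eq ?_)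
    push_cast
    rfl
  · have h4 : ((1 + p.d.ee * ((d.T1 : ℚ) / 1048576) : ℚ) : ℝ)
        ≤ (((c.ee : ℚ) / 1048576 : ℚ) : ℝ) := by exact_mod_cast h3
    rw [Rat.cast_add, Rat.cast_mul, eT] at h4
    rw [Rat.cast_one] at h4
    refine h4.trans (le_of_eq ?_)
    push_cast
    rfl

/-- the exponent below the nodes `j / 64` -/
theorem v_le (hg : g.Ok p e) (hq : QOk p e d c) (hw : c.wB g = true) (T11 : rD d.T1 ≤ 1)
    (hA : ∀ t t', 0 ≤ t → t ≤ t' → t' ≤ 1 → kq e.cp e.cp2 e.τ t ≤ kq e.cp e.cp2 e.τ t')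
    (hB : ∀ t t', 0 ≤ t → t ≤ t' → t' ≤ 1 → pv (pri e.bp) t ≤ pv (pri e.bp) t')
    {t s : ℝ} (t0 : 0 ≤ t) (tT : t ≤ rD d.T1) (s0 : 0 ≤ s) (s1 : s ≤ 1) :
    e.v t s ≤ plx 64 (fun j => rD (nth c.W j)) s := by
  have W := walk_ok hw
  have len := Nat.eq_of_beq_eq_true hg.len.U
  rw [ExD.v_eq]
  have i1 := (hA t _ t0 tT T11).trans hq.a
  have i2 := mul_le_mul_of_nonneg_left ((hB t _ t0 tT T11).trans hq.b) (sq_nonneg s)
  have i3 := u_le hg s0 s1
  have e1 := plx_c 64 (by norm_num) s0 s1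
  have e2 := plx_id 64 (by norm_num) s0 s1
  have e3 := plx_id2 64 (by norm_num) s0 s1
  have i4 := mul_le_mul_of_nonneg_left e3 (rD_nonneg c.bT)
  have key : plx 64 (fun j => rD c.aT * 1 + rD (nth g.U j)
      + rD c.bT * ((j : ℝ) / (64 : ℕ)) ^ 2 + (-rD g.b1) * ((j : ℝ) / (64 : ℕ))) s
      ≤ plx 64 (fun j => rD (nth c.W j)) s := by
    refine plx_mono (fun j hj => ?_) s
    have h1 := W j (by omega)
    rw [Nat.zero_add] at h1
    have h2 := Nat.le_of_ble_eq_true h1
    have h3 : c.aT + nth g.U j + (c.bT * (j * j) / 4096 + 1) ≤ nth c.W j + g.b1 * j / 64 := by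
      have : c.aT + nth g.U j + (c.bT * (j * j) / 4096 + 1) - g.b1 * j / 64 ≤ nth c.W j := h2
      omega
    have h4 : ((c.aT : ℝ) + nth g.U j + (((c.bT * (j * j) / 4096 + 1 : ℕ)) : ℝ))
        ≤ nth c.W j + ((g.b1 * j / 64 : ℕ) : ℝ) := by exact_mod_cast h3
    have h5 := div_up (c.bT * (j * j)) 4096 (by norm_num)
    have h6 := div_lo (g.b1 * j) 64
    push_cast at h4 h5 h6
    have h7 : (c.aT : ℝ) + nth g.U j + (c.bT : ℝ) * (j * j) / 4096 ≤ nth c.W j
        + (g.b1 : ℝ) * j / 64 := by linarith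
    have h8 := div_le_div_of_nonneg_right h7 (show (0 : ℝ) ≤ 1048576 by norm_num)
    unfold rD
    push_cast
    have e4 : (c.aT : ℝ) / 1048576 * 1 + (nth g.U j : ℝ) / 1048576
        + (c.bT : ℝ) / 1048576 * ((j : ℝ) / 64) ^ 2 + -((g.b1 : ℝ) / 1048576) * ((j : ℝ) / 64)
        = ((c.aT : ℝ) + nth g.U j + (c.bT : ℝ) * (j * j) / 4096) / 1048576
          - ((g.b1 : ℝ) * j / 64) / 1048576 := by ring
    rw [e4]
    have e5 : ((nth c.W j : ℝ) + (g.b1 : ℝ) * j / 64) / 1048576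
        = (nth c.W j : ℝ) / 1048576 + ((g.b1 : ℝ) * j / 64) / 1048576 := by ring
    rw [e5] at h8
    linarith
  rw [plx_add, plx_add, plx_add, plx_smul, plx_smul, plx_smul, e1, e2] at key
  linarith

/-- the exponential below its nodes -/
theorem exp_v_le (ht : ∀ l < 11, c.tB l = true) {x v : ℝ} (h0 : 0 ≤ x) (h1 : x ≤ 1)
    (hv : v ≤ plx 10 (fun l => rD (nth c.L l)) x) :
    Real.exp v ≤ plx 10 (fun l => rD (nth c.E l)) x := by
  refine (Real.exp_le_exp.2 hv).trans ((exp_plx (by norm_num) _ h0 h1).trans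
    (plx_mono (fun l hl => ?_) x))
  have h := ht l (by omega)
  unfold FrC.tB at h
  rw [Bool.and_eq_true] at h
  have h2 := of_decide_eq_true h.1
  have h3 := of_decide_eq_true h.2
  rw [← nth_getD, ← nth_getD] at h3
  rw [← nth_getD] at h2
  have z1 : rD (nth c.L l) ≤ 81 / 50 := by
    have : (50 : ℝ) * nth c.L l ≤ 81 * 1048576 := by exact_mod_cast h2
    unfold rD
    linarith
  refine (Pool.Agent.RZ.RCE.exp_t5 (rD_nonneg _) z1).trans ?_
  have h4 : ((t5q ((nth c.L l : ℚ) / 1048576) : ℚ) : ℝ) ≤ (((nth c.E l : ℚ) / 1048576 : ℚ) : ℝ) := by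
    exact_mod_cast h3
  rw [t5q_cast] at h4
  push_cast at h4
  exact h4

/-- a polynomial and its tail -/
theorem pv_tail (l : List ℚ) (s : ℝ) : pv l s = pv l 0 + s * pv l.tail s := by
  cases l with
  | nil => simp [pv]
  | cons a l => simp [pv]

theorem ExD.base_eq {b1 : ℕ} {s : ℝ} (h : s - (e.τ : ℝ) ≤ 0) :
    pv (e.UN b1 1 0) s = e.u s + rD b1 * s := by
  have hb : rD b1 = (b1 : ℝ) / 1048576 := rfl
  unfold ExD.UN
  simp only [zero_lt_one, if_true, pv_ladd, pv_lmul, pv_lsmul, ExD.u, kq, max_eq_left h, pri_zero,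
    pv, hb]
  push_cast
  ring

/-- a list below a line -/
theorem nodes_le {G : List ℕ} {α β : ℕ} {M : ℕ} (hM : M = α)
    (h : walk (fun j G => Nat.ble (Nat.mul 64 G) (Nat.add (Nat.mul 64 M) (Nat.mul β j))) G 0 = true)
    {s : ℝ} (s0 : 0 ≤ s) (s1 : s ≤ 1) :
    plx 64 (fun j => rD (nth G j)) s ≤ rD α + rD β * s := by
  have W := walk_ok h
  have e1 := plx_c 64 (by norm_num) s0 s1
  have e2 := plx_id 64 (by norm_num) s0 s1
  have key : plx 64 (fun j => rD (nth G j)) s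
      ≤ plx 64 (fun j => rD α * 1 + rD β * ((j : ℝ) / (64 : ℕ))) s := by
    refine plx_mono (fun j hj => ?_) s
    rcases Nat.lt_or_ge j G.length with h1 | h1
    · have h2 := W j h1
      rw [Nat.zero_add] at h2
      have h3 : 64 * nth G j ≤ 64 * M + β * j := Nat.le_of_ble_eq_true h2
      have h4 : (64 : ℝ) * nth G j ≤ 64 * M + β * j := by exact_mod_cast h3
      unfold rD
      rw [hM] at h4
      push_cast
      linarith
    · have h2 : nth G j = 0 := by
        rw [nth_getD]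
        exact List.getD_eq_default _ _ h1
      rw [h2, rD_zero]
      have := rD_nonneg α
      have := rD_nonneg β
      positivity
  rw [plx_add, plx_smul, plx_smul, e1, e2] at key
  linarith

/-- near the time `0` -/
theorem zero_le (hg : g.Ok p e) (hq : QOk p e d c) (T11 : rD d.T1 ≤ 1)
    (hB : ∀ t t', 0 ≤ t → t ≤ t' → t' ≤ 1 → pv (pri e.bp) t ≤ pv (pri e.bp) t')
    (hT0 : d.T0 = 0) (hz : c.zB g d = true) {t s : ℝ} (tp : 0 < t) (tT : t ≤ rD d.T1)
    (hs : s ∈ Icc 0 t) :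
    e.v t s ≤ t * (rD c.a1 + rD c.c1 * (s / t))
      + t ^ 2 * (rD c.a2 + (rD c.c2 + rD c.bT) * (s / t) ^ 2) := by
  unfold FrC.zB at hz
  rw [hT0, show Nat.beq 0 0 = true from rfl, cond_true, Bool.and_eq_true, Bool.and_eq_true] at hz
  obtain ⟨z1, z2, z3⟩ := hz
  have T8 : rD d.T1 ≤ 1 / 8 := by
    have : (d.T1 : ℝ) ≤ 131072 := by exact_mod_cast Nat.le_of_ble_eq_true z1
    unfold rD
    linarith
  have t0 := tp.le
  have s0 := hs.1
  have t8 : t ≤ 1 / 8 := tT.trans T8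
  have s8 : s ≤ 1 / 8 := hs.2.trans t8
  have hτ : (1 : ℝ) / 8 ≤ (e.τ : ℝ) := by
    have h1 : (8 : ℝ) ≤ g.jt := by exact_mod_cast hg.len.jt
    rw [hg.τ]
    push_cast
    linarith
  -- the part of `t`
  have iA : kq e.cp e.cp2 e.τ t ≤ t * (rD c.a1 + rD c.a2 * t) := by
    have len := Nat.eq_of_beq_eq_true hg.len.Ga
    obtain ⟨j, _, _, _, h3⟩ := majB_ok hg.Ga (n := 8) (by omega) (by norm_num) t0
      (by push_cast; linarith) (by norm_num)
    have h4 := nodes_le rfl z2 t0 (by linarith)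
    have e1 : pv [1] t = 1 := by simp [pv]
    rw [e1, one_mul] at h3
    unfold kq
    rw [max_eq_left (by linarith : t - (e.τ : ℝ) ≤ 0), pri_zero, add_zero, pv_tail, pri_zero,
      zero_add]
    exact mul_le_mul_of_nonneg_left (h3.trans h4) t0
  have iU : e.u s ≤ s * (rD c.c1 + rD c.c2 * s) := by
    have len := Nat.eq_of_beq_eq_true hg.len.Gu
    obtain ⟨j, _, _, _, h3⟩ := majB_ok hg.Gu (n := 8) (by omega) (by norm_num) s0
      (by push_cast; linarith) (by norm_num)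
    have h4 := nodes_le (α := g.b1 + c.c1) rfl z3 s0 (by linarith)
    have e1 : pv [1] s = 1 := by simp [pv]
    rw [e1, one_mul] at h3
    have h5 := ExD.base_eq (e := e) (b1 := g.b1) (s := s) (by linarith)
    have h6 := ExD.base_eq (e := e) (b1 := g.b1) (s := 0) (by linarith)
    have u0 : e.u 0 = 0 := by
      unfold ExD.u kq
      rw [max_eq_left (by linarith : (0 : ℝ) - (e.τ : ℝ) ≤ 0), pri_zero, pri_zero, pri_zero,
        pri_zero, pri_zero, pri_zero]
      ring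
    rw [u0, mul_zero, add_zero] at h6
    rw [pv_tail, h6, zero_add] at h5
    have h7 := mul_le_mul_of_nonneg_left (h3.trans h4) s0
    rw [h5, rD_add] at h7
    linarith
  have iB := mul_le_mul_of_nonneg_left ((hB t _ t0 tT T11).trans hq.b) (sq_nonneg s)
  rw [ExD.v_eq]
  have e2 : t * (rD c.a1 + rD c.c1 * (s / t))
      + t ^ 2 * (rD c.a2 + (rD c.c2 + rD c.bT) * (s / t) ^ 2)
      = t * (rD c.a1 + rD c.a2 * t) + s * (rD c.c1 + rD c.c2 * s) + s ^ 2 * rD c.bT := by
    field_simp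
    ring
  rw [e2]
  linarith

/-- the pieces of the check -/
structure CkO (g : FrG) (d : CqN) (c : FrC) : Prop where
  T : d.T0 ≤ d.T1
  Tp : 0 < d.T1
  T1 : d.T1 ≤ 1048576
  em : d.em ≤ g.em
  w : c.wB g = true
  k : c.kB d = true
  z : c.zB g d = true
  f0 : ckP d.T0 d.T1 g.f0 d.f0 = true
  f1 : ckP d.T0 d.T1 g.f1 d.f1 = true
  f2 : ckP d.T0 d.T1 g.f2 d.f2 = true
  b0 : ckI d.T0 d.T1 g.φ0 d.b0 = true
  b1 : ckI d.T0 d.T1 g.φ1 d.b1 = true
  b2 : ckI d.T0 d.T1 g.φ2 d.b2 = true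
  c0 : ckI d.T0 d.T1 g.c0 d.c0 = true
  c1 : ckI d.T0 d.T1 g.c1 d.c1 = true
  c2 : ckI d.T0 d.T1 g.c2 d.c2 = true
  ρ : ckP d.T0 d.T1 g.ρ d.ρ1 = true
  W : ckP d.T0 d.T1 c.W c.L = true

theorem okB_ok (h : c.okB g d = true) : CkO g d c := by
  unfold FrC.okB FrC.cB at h
  simp only [Bool.and_eq_true] at h
  obtain ⟨a1, a2, a3, a4, a5, a6, a7, ⟨b1, b2, b3⟩, ⟨b4, b5, b6⟩, ⟨b7, b8, b9⟩, b10, b11⟩ := h
  exact ⟨Nat.le_of_ble_eq_true a1, by
    have := Nat.le_of_ble_eq_true a2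
    omega, Nat.le_of_ble_eq_true a3, Nat.le_of_ble_eq_true a4, a5, a6, a7, b1, b2, b3, b4, b5, b6,
    b7, b8, b9, b10, b11⟩

/-- a value of the weight by its nodes -/
theorem lp_le2 {z a b c a' b' : ℝ} (z0 : 0 ≤ z) (z1 : z ≤ 1 / 2) (ha : a ≤ a') (hb : b ≤ b')
    (c' : ℝ) : (1 - 2 * z) * a + 2 * z * b ≤ lp z a' b' c' := by
  unfold lp
  rw [if_pos z1]
  have h1 : 0 ≤ 1 - 2 * z := by linarith
  have := mul_le_mul_of_nonneg_left ha h1
  have := mul_le_mul_of_nonneg_left hb (mul_nonneg zero_le_two z0)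
  linarith

/-- **the frame facts of a cell** -/
theorem FrC.fr (hg : g.Ok p e) (hz : p.z.Pos p.d) (hc : c.okB g d = true)
    (hq : c.qB p e d = true) (ht : ∀ l < 11, c.tB l = true)
    (hκ : ∀ w ∈ Icc (0 : ℝ) 1, ∀ t s, 0 ≤ s → s ≤ t → t ≤ 1 →
      κd w t s ≤ p.d.rPe w t * Real.exp (e.v t s))
    (hA : ∀ t t', 0 ≤ t → t ≤ t' → t' ≤ 1 → kq e.cp e.cp2 e.τ t ≤ kq e.cp e.cp2 e.τ t')
    (hB : ∀ t t', 0 ≤ t → t ≤ t' → t' ≤ 1 → pv (pri e.bp) t ≤ pv (pri e.bp) t')
    {δ : ℝ} (hδ : rD c.dl ≤ δ) :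
    (d.cq δ).Fr p.kf κd p.z.hz.rr := by
  have δ0 : 0 ≤ δ := (rD_nonneg _).trans hδ
  have K := okB_ok hc
  have Q := qB_ok hq
  have hL := hg.len
  have T1r : rD d.T1 ≤ 1 := by
    unfold rD
    rw [div_le_one (by norm_num)]
    exact_mod_cast K.T1
  have T0r := rD_nonneg d.T0
  have ee0 : (0 : ℝ) ≤ (p.d.ee : ℝ) := by exact_mod_cast hg.e2
  have ems : rD d.em ≤ rD g.em := div_le_div_of_nonneg_right (by exact_mod_cast K.em) (by norm_num)
  have em2 : rD g.em ≤ 1 / 2 := by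
    unfold rD
    have : (g.em : ℝ) ≤ 524288 := by exact_mod_cast hg.e1
    linarith
  have s1 : ∀ {t s : ℝ}, t ∈ Icc (rD d.T0) (rD d.T1) → s ∈ Icc 0 t → s ≤ 1 :=
    fun ht hs => hs.2.trans (ht.2.trans T1r)
  -- the exponential
  have hexp : ∀ t ∈ Icc (rD d.T0) (rD d.T1), ∀ s ∈ Icc 0 t,
      Real.exp (e.v t s) ≤ plx 10 (fun l => rD (nth c.E l)) (s / t) := by
    intro t ht' s hs
    have h1 := v_le hg Q K.w T1r hA hB (T0r.trans ht'.1) ht'.2 hs.1 (s1 ht' hs)
    have h2 := ckP_ok K.W K.T K.Tp K.T1 ht' hs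
    have h3 := div_mem01 hs
    exact exp_v_le ht h3.1 h3.2 (h1.trans h2)
  have hee : ∀ t ∈ Icc (rD d.T0) (rD d.T1), 1 + (p.d.ee : ℝ) * t ≤ rD c.ee := fun t ht' => by
    have := mul_le_mul_of_nonneg_left ht'.2 ee0
    linarith [Q.ee]
  have hee0 : ∀ t ∈ Icc (rD d.T0) (rD d.T1), 0 ≤ 1 + (p.d.ee : ℝ) * t := fun t ht' => by
    have := mul_nonneg ee0 (T0r.trans ht'.1)
    linarith
  have KB := allB_ok K.k
  have rPe : ∀ w t : ℝ, p.d.rPe w t = (1 + t * w) * (1 + (p.d.ee : ℝ) * t) := fun w t => by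
    unfold Dat.rPe; ring
  refine
    { fh0 := fun t ht' s hs => ?_
      fh1 := fun t ht' s hs => ?_
      fh2 := fun t ht' s hs => ?_
      κ := fun t ht' s hs w hw => ?_
      κh := fun t ht' s hs w hw => ?_
      rr := fun t ht' s hs z hzz => ?_
      rq := fun l _ => le_rfl
      bm := fun t ht' w hw z hzz => ?_
      ch := fun t ht' y hy => ?_ }
  · rw [fh_0]
    exact (fh_aux hg.f0 hL.f0 hs.1 (s1 ht' hs)).trans (ckP_ok K.f0 K.T K.Tp K.T1 ht' hs)
  · rw [fh_1]
    exact (fh_aux hg.f1 hL.f1 hs.1 (s1 ht' hs)).trans (ckP_ok K.f1 K.T K.Tp K.T1 ht' hs)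
  · rw [fh_2]
    exact (fh_aux hg.f2 hL.f2 hs.1 (s1 ht' hs)).trans (ckP_ok K.f2 K.T K.Tp K.T1 ht' hs)
  · -- the density factor
    have t0 := T0r.trans ht'.1
    have h1 := hκ w hw t s hs.1 hs.2 (ht'.2.trans T1r)
    have w0 : 0 ≤ 1 + t * w := by have := mul_nonneg t0 hw.1; linarith
    have x01 := div_mem01 hs
    have E0 : 0 ≤ plx 10 (fun l => rD (nth c.E l)) (s / t) := plx_nonneg (fun l _ => rD_nonneg _) _
    have h2 : (1 + (p.d.ee : ℝ) * t) * Real.exp (e.v t s)
        ≤ plx 10 (fun l => rD (nth d.κ l)) (s / t) := by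
      refine (mul_le_mul (hee t ht') (hexp t ht' s hs) (Real.exp_pos _).le (rD_nonneg _)).trans ?_
      rw [← plx_smul]
      refine plx_mono (fun l hl => ?_) _
      have h3 := KB l (by omega)
      rw [Bool.and_eq_true] at h3
      exact (mu_ge _ _).trans (div_le_div_of_nonneg_right
        (by exact_mod_cast Nat.le_of_ble_eq_true h3.1) (by norm_num))
    show κd w t s ≤ plx 10 (fun l => rD (nth d.κ l)) (s / t) * (1 + t * w)
    rw [rPe] at h1
    have := mul_le_mul_of_nonneg_left h2 w0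
    linarith
  · -- the density errors
    have t0 := T0r.trans ht'.1
    have h1 := hκ w hw t s hs.1 hs.2 (ht'.2.trans T1r)
    have w0 : 0 ≤ 1 + t * w := by have := mul_nonneg t0 hw.1; linarith
    have x01 := div_mem01 hs
    have m0 := rD_nonneg d.μ
    have h2 : (1 + (p.d.ee : ℝ) * t) * (Real.exp (e.v t s) - 1)
        ≤ ((t + δ) ^ 2 + rD d.μ * t) * plx 10 (fun l => rD (nth d.κh l)) (s / t) := by
      have q0 : 0 ≤ plx 10 (fun l => rD (nth d.κh l)) (s / t) :=
        plx_nonneg (fun l _ => rD_nonneg _) _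
      rcases Nat.eq_zero_or_pos d.T0 with hT0 | hT0
      · -- the first cell
        rcases eq_or_lt_of_le t0 with h3 | tp
        · have hs0 : s = 0 := le_antisymm (by rw [h3]; exact hs.2) hs.1
          have e1 : e.v t s = 2 * 0 + kq e.ap e.ap2 e.τ 0 + kq e.ep e.ep2 e.τ 0 := by
            rw [← h3, hs0]
            unfold ExD.v
            ring
          have hτ : (0 : ℝ) ≤ (e.τ : ℝ) := by
            rw [hg.τ]
            push_cast
            positivity
          have e2 : ∀ l l2 : List ℚ, kq l l2 e.τ 0 = 0 := fun l l2 => by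
            unfold kq
            rw [max_eq_left (by linarith : (0 : ℝ) - (e.τ : ℝ) ≤ 0), pri_zero, pri_zero, add_zero]
          rw [e1, e2, e2, mul_zero, add_zero, add_zero, Real.exp_zero, sub_self, mul_zero]
          exact mul_nonneg (add_nonneg (sq_nonneg _) (mul_nonneg m0 t0)) q0
        have hzl := zero_le hg Q T1r hB hT0 K.z tp ht'.2 hs
        have hE := hexp t ht' s hs
        have hEm : plx 10 (fun l => rD (nth c.E l)) (s / t) ≤ rD c.Em :=
          plx_le (by norm_num) (fun l hl => by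
            have h3 := KB l (by omega)
            rw [Bool.and_eq_true] at h3
            have h4 := h3.2
            rw [hT0, show Nat.beq 0 0 = true from rfl, cond_true, Bool.and_eq_true] at h4
            exact div_le_div_of_nonneg_right (by exact_mod_cast Nat.le_of_ble_eq_true h4.1)
              (by norm_num)) x01.1 x01.2
        set σ := s / t with hσ
        -- the two lines below the nodes
        have n1 : rD c.a1 + rD c.c1 * σ
            ≤ rD (Nat.add d.μ (Nat.add c.dl c.dl)) * plx 10 (fun l => rD (nth c.Lh l)) σ := by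
          have e1 := plx_c 10 (by norm_num) x01.1 x01.2
          have e2 := plx_id 10 (by norm_num) x01.1 x01.2
          have key : plx 10 (fun j => rD c.a1 * 1 + rD c.c1 * ((j : ℝ) / (10 : ℕ))) σ
              ≤ plx 10 (fun l => rD (Nat.add d.μ (Nat.add c.dl c.dl)) * rD (nth c.Lh l)) σ :=
            plx_mono (fun l hl => by
            have h3 := KB l (by omega)
            rw [Bool.and_eq_true] at h3
            have h4 := h3.2
            rw [hT0, show Nat.beq 0 0 = true from rfl, cond_true, Bool.and_eq_true,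
              Bool.and_eq_true, Bool.and_eq_true] at h4
            have h5 : 10 * c.a1 + c.c1 * l
                ≤ 10 * md (Nat.add d.μ (Nat.add c.dl c.dl)) (nth c.Lh l) :=
              Nat.le_of_ble_eq_true h4.2.2.1
            have h6 := md_le (Nat.add d.μ (Nat.add c.dl c.dl)) (nth c.Lh l)
            have h7 : (10 : ℝ) * c.a1 + c.c1 * l
                ≤ 10 * md (Nat.add d.μ (Nat.add c.dl c.dl)) (nth c.Lh l) := by exact_mod_cast h5
            have h8 : rD c.a1 * 1 + rD c.c1 * ((l : ℝ) / (10 : ℕ))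
                ≤ rD (md (Nat.add d.μ (Nat.add c.dl c.dl)) (nth c.Lh l)) := by
              unfold rD
              push_cast
              linarith
            exact h8.trans h6) σ
          rw [plx_add, plx_smul, plx_smul, plx_smul, e1, e2] at key
          linarith
        have n2 : rD c.a2 + (rD c.c2 + rD c.bT) * σ ^ 2
            ≤ plx 10 (fun l => rD (nth c.Lh l)) σ := by
          have e1 := plx_c 10 (by norm_num) x01.1 x01.2
          have e2 := plx_id2 10 (by norm_num) x01.1 x01.2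
          have e3 := mul_le_mul_of_nonneg_left e2
            (add_nonneg (rD_nonneg c.c2) (rD_nonneg c.bT))
          have key : plx 10 (fun j => rD c.a2 * 1
                + (rD c.c2 + rD c.bT) * ((j : ℝ) / (10 : ℕ)) ^ 2) σ
              ≤ plx 10 (fun l => rD (nth c.Lh l)) σ := plx_mono (fun l hl => by
            have h3 := KB l (by omega)
            rw [Bool.and_eq_true] at h3
            have h4 := h3.2
            rw [hT0, show Nat.beq 0 0 = true from rfl, cond_true, Bool.and_eq_true,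
              Bool.and_eq_true, Bool.and_eq_true] at h4
            have h5 : 100 * c.a2 + (c.c2 + c.bT) * (l * l) ≤ 100 * nth c.Lh l :=
              Nat.le_of_ble_eq_true h4.2.2.2
            have h7 : (100 : ℝ) * c.a2 + (c.c2 + c.bT) * (l * l) ≤ 100 * nth c.Lh l := by
              exact_mod_cast h5
            unfold rD
            push_cast
            have e4 : (c.a2 : ℝ) / 1048576 * 1 + ((c.c2 : ℝ) / 1048576 + (c.bT : ℝ) / 1048576)
                * ((l : ℝ) / 10) ^ 2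
                = ((100 : ℝ) * c.a2 + (c.c2 + c.bT) * (l * l)) / 100 / 1048576 := by ring
            rw [e4]
            refine div_le_div_of_nonneg_right ?_ (by norm_num)
            linarith) σ
          rw [plx_add, plx_smul, plx_smul, e1] at key
          linarith
        set Lh := plx 10 (fun l => rD (nth c.Lh l)) σ with hLh
        have L0 : 0 ≤ Lh := plx_nonneg (fun l _ => rD_nonneg _) _
        set μ' := rD (Nat.add d.μ (Nat.add c.dl c.dl)) with hμ'
        have μe : μ' = rD d.μ + 2 * rD c.dl := by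
          rw [hμ', show Nat.add d.μ (Nat.add c.dl c.dl) = d.μ + (c.dl + c.dl) from rfl, rD_add,
            rD_add]
          ring
        have μ0 : 0 ≤ μ' := rD_nonneg _
        have hv : e.v t s ≤ (t ^ 2 + μ' * t) * Lh := by
          have i1 := mul_le_mul_of_nonneg_left n1 t0
          have i2 := mul_le_mul_of_nonneg_left n2 (sq_nonneg t)
          linarith
        -- `e^v - 1 ≤ v e^v`
        have hv2 : Real.exp (e.v t s) - 1 ≤ ((t ^ 2 + μ' * t) * Lh) * rD c.Em := by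
          have i1 : 1 - e.v t s ≤ Real.exp (-e.v t s) := by
            have := Real.add_one_le_exp (-e.v t s)
            linarith
          have i2 := mul_le_mul_of_nonneg_right i1 (Real.exp_pos (e.v t s)).le
          rw [← Real.exp_add, neg_add_cancel, Real.exp_zero] at i2
          have i3 : e.v t s * Real.exp (e.v t s)
              ≤ ((t ^ 2 + μ' * t) * Lh) * Real.exp (e.v t s) :=
            mul_le_mul_of_nonneg_right hv (Real.exp_pos _).le
          have i4 : 0 ≤ (t ^ 2 + μ' * t) * Lh := by positivity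
          have i5 := mul_le_mul_of_nonneg_left (hE.trans hEm) i4
          linarith
        have hκL : rD c.ee * rD c.Em * Lh ≤ plx 10 (fun l => rD (nth d.κh l)) σ := by
          rw [hLh, ← plx_smul]
          refine plx_mono (fun l hl => ?_) _
          have h3 := KB l (by omega)
          rw [Bool.and_eq_true] at h3
          have h4 := h3.2
          rw [hT0, show Nat.beq 0 0 = true from rfl, cond_true, Bool.and_eq_true,
            Bool.and_eq_true] at h4
          have h5 := mu_ge (mu c.ee c.Em) (nth c.Lh l)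
          have h6 := mul_le_mul_of_nonneg_right (mu_ge c.ee c.Em) (rD_nonneg (nth c.Lh l))
          have h7 : rD (mu (mu c.ee c.Em) (nth c.Lh l)) ≤ rD (nth d.κh l) :=
            div_le_div_of_nonneg_right (by exact_mod_cast Nat.le_of_ble_eq_true h4.2.1)
              (by norm_num)
          linarith
        have g1 : 0 ≤ (t ^ 2 + μ' * t) := by positivity
        have g2 : t ^ 2 + μ' * t ≤ (t + δ) ^ 2 + rD d.μ * t := by
          have h8 := mul_le_mul_of_nonneg_left hδ t0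
          rw [μe]
          nlinarith [sq_nonneg δ]
        calc (1 + (p.d.ee : ℝ) * t) * (Real.exp (e.v t s) - 1)
            ≤ (1 + (p.d.ee : ℝ) * t) * (((t ^ 2 + μ' * t) * Lh) * rD c.Em) :=
              mul_le_mul_of_nonneg_left hv2 (hee0 t ht')
          _ ≤ rD c.ee * (((t ^ 2 + μ' * t) * Lh) * rD c.Em) :=
              mul_le_mul_of_nonneg_right (hee t ht')
                (mul_nonneg (mul_nonneg g1 L0) (rD_nonneg _))
          _ = (t ^ 2 + μ' * t) * (rD c.ee * rD c.Em * Lh) := by ring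
          _ ≤ (t ^ 2 + μ' * t) * plx 10 (fun l => rD (nth d.κh l)) σ :=
              mul_le_mul_of_nonneg_left hκL g1
          _ ≤ _ := mul_le_mul_of_nonneg_right g2 q0
      · -- the other cells
        have hE := hexp t ht' s hs
        have T0p : 0 < rD d.T0 := by
          unfold rD
          have : (0 : ℝ) < d.T0 := by exact_mod_cast hT0
          positivity
        have hκL : rD c.ee * (plx 10 (fun l => rD (nth c.E l)) (s / t) - 1)
            ≤ rD d.T0 ^ 2 * plx 10 (fun l => rD (nth d.κh l)) (s / t) := by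
          have e1 := plx_c 10 (by norm_num) x01.1 x01.2
          have key : plx 10 (fun l => rD c.ee * (rD (nth c.E l) + (-1) * 1)) (s / t)
              ≤ plx 10 (fun l => rD d.T0 ^ 2 * rD (nth d.κh l)) (s / t) := by
            refine plx_mono (fun l hl => ?_) _
            have h3 := KB l (by omega)
            rw [Bool.and_eq_true] at h3
            have h4 := h3.2
            have h5 : Nat.beq d.T0 0 = false := by
              cases h6 : Nat.beq d.T0 0 with
              | true => have := Nat.eq_of_beq_eq_true h6; omega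
              | false => rfl
            rw [h5, cond_false] at h4
            have h6 : rD (mu c.ee (nth c.E l - 1048576)) ≤ rD (md (nth d.κh l) (md d.T0 d.T0)) :=
              div_le_div_of_nonneg_right (by exact_mod_cast Nat.le_of_ble_eq_true h4)
                (by norm_num)
            have h7 := mu_ge c.ee (nth c.E l - 1048576)
            have h8 := md_le (nth d.κh l) (md d.T0 d.T0)
            have h9 := mul_le_mul_of_nonneg_left (md_le d.T0 d.T0) (rD_nonneg (nth d.κh l))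
            have h10 : rD (nth c.E l) - 1 ≤ rD (nth c.E l - 1048576) := by
              unfold rD
              have : ((nth c.E l : ℕ) : ℝ) ≤ ((nth c.E l - 1048576 : ℕ) : ℝ) + 1048576 := by
                have h11 : nth c.E l ≤ (nth c.E l - 1048576) + 1048576 := by omega
                exact_mod_cast h11
              linarith
            have h12 := mul_le_mul_of_nonneg_left h10 (rD_nonneg c.ee)
            have e2 : rD c.ee * (rD (nth c.E l) + (-1) * 1) = rD c.ee * (rD (nth c.E l) - 1) := by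
              ring
            rw [e2]
            nlinarith
          rw [plx_smul, plx_add, plx_smul, e1, plx_smul] at key
          have e3 : rD c.ee * (plx 10 (fun l => rD (nth c.E l)) (s / t) + -1 * 1)
              = rD c.ee * (plx 10 (fun l => rD (nth c.E l)) (s / t) - 1) := by ring
          rw [e3] at key
          exact key
        have g2 : rD d.T0 ^ 2 ≤ (t + δ) ^ 2 + rD d.μ * t := by
          have h3 : rD d.T0 ^ 2 ≤ (t + δ) ^ 2 := pow_le_pow_left₀ T0r
            (by linarith [show rD d.T0 ≤ t from ht'.1]) 2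
          have := mul_nonneg m0 t0
          linarith
        have g3 := mul_le_mul_of_nonneg_right g2 q0
        have v0 : Real.exp (e.v t s) - 1 ≤ plx 10 (fun l => rD (nth c.E l)) (s / t) - 1 := by
          linarith
        rcases le_total 0 (Real.exp (e.v t s) - 1) with h3 | h3
        · have h4 := mul_le_mul (hee t ht') v0 h3 (rD_nonneg _)
          linarith
        · have h4 := mul_nonneg (hee0 t ht') (neg_nonneg.2 h3)
          have h5 : 0 ≤ ((t + δ) ^ 2 + rD d.μ * t) * plx 10 (fun l => rD (nth d.κh l)) (s / t) :=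
            mul_nonneg (add_nonneg (sq_nonneg _) (mul_nonneg m0 t0)) q0
          linarith
    show κd w t s - p.d.rPe w t ≤ (1 + t * w)
      * (((t + δ) ^ 2 + rD d.μ * t) * plx 10 (fun l => rD (nth d.κh l)) (s / t))
    rw [rPe] at h1 ⊢
    have h3 := mul_le_mul_of_nonneg_left h2 w0
    linarith
  · -- the hazard
    have h1 := rr_aux hg hz hs.1 (s1 ht' hs) hzz.1 (hzz.2.trans ems)
    have h2 := ckP_ok K.ρ K.T K.Tp K.T1 ht' hs
    have h3 : z ≤ 1 / 2 := (hzz.2.trans ems).trans em2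
    have x01 := div_mem01 hs
    have e1 : plx 10 (d.cq δ).ρ0 (s / t) = 1 := plx_one x01.1 x01.2
    refine h1.trans ?_
    have h4 := lp_le2 (a := 1) (b := plx 64 (fun j => rD (nth g.ρ j)) s) hzz.1 h3 e1.ge h2
      (plx 10 (d.cq δ).ρ2 (s / t)) (c := 0)
    refine le_trans (le_of_eq ?_) h4
    ring
  · -- the masses
    have t0 := T0r.trans ht'.1
    have t1 := ht'.2.trans T1r
    have w0 : 0 ≤ 1 + t * w := by have := mul_nonneg t0 hw.1; linarith
    have i0 := (le_of_eq (fi_0 (p := p) t0)).trans ((lin_aux hg.φ0 hL.φ0 t0 t1).trans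
      (ckI_ok K.b0 K.T K.T1 ht'))
    have i1 := (le_of_eq (fi_1 (p := p) t0)).trans ((lin_aux hg.φ1 hL.φ1 t0 t1).trans
      (ckI_ok K.b1 K.T K.T1 ht'))
    have i2 := (le_of_eq (fi_2 (p := p) t0)).trans ((lin_aux hg.φ2 hL.φ2 t0 t1).trans
      (ckI_ok K.b2 K.T K.T1 ht'))
    have h1 := lp_mono hzz.1 hzz.2 i0 i1 i2
    rw [lp_smul, ← fi_lp] at h1
    show p.d.rPe w t * p.kf.fi z t ≤ (1 + t * w) * lp z (rD d.b0) (rD d.b1) (rD d.b2)
    rw [rPe]
    have := mul_le_mul_of_nonneg_left h1 w0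
    linarith
  · -- the factor of the density
    have t0 := T0r.trans ht'.1
    have t1 := ht'.2.trans T1r
    have one : ∀ x : ℝ, (1 + t) * (x * ((1 + t) ^ 2)⁻¹) = x * (1 + t)⁻¹ := fun x => by
      have : 1 + t ≠ 0 := by linarith
      field_simp
    have i0 := (lin_aux hg.c0 hL.c0 t0 t1).trans (ckI_ok K.c0 K.T K.T1 ht')
    have i1 := (lin_aux hg.c1 hL.c1 t0 t1).trans (ckI_ok K.c1 K.T K.T1 ht')
    have i2 := (lin_aux hg.c2 hL.c2 t0 t1).trans (ckI_ok K.c2 K.T K.T1 ht')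
    rw [← one, ← fh_0] at i0
    rw [← one, ← fh_1] at i1
    rw [← one, ← fh_2] at i2
    have h1 := lp_mono hy.1 hy.2 i0 i1 i2
    rw [lp_smul, ← fh_lp] at h1
    exact h1

end Pool.Agent.RZ.RCN.K
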