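import Pool.Agent.RZ.RCO.DnN
import Pool.Agent.RZ.RCO.J2m
import Pool.Agent.RZ.RCO.T1r

/-! Route P: **the inequality of the centres from the numbers of all cells** (MP_73ccd0_lc). -/

set_option autoImplicit false

namespace Pool.Agent.RZ.RCN.K

open Set Finset MeasureTheory Pool.Agent.RZ.RCRSHalf Pool.Agent.RZ.RCG Pool.Agent.RZ.RCG.Ct
open Pool.Agent.RZ.RCN.Ker Pool.Agent.RZ.RCRS Pool.Agent.RZ.RCM.Jen Pool.Agent.RZ.RCO.RT Pool.Agent.RZ.RCO.BxN
open Pool.Agent.RZ.RCM9 Pool.Agent.RZ.RCE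

set_option linter.unusedSectionVars false
set_option linter.unusedVariables false

/-! ### the scale of a cell below the budget -/

/-- the shift of the cell as a rational number -/
def dq (m : ℕ) : ℚ := if m = 0 then 1 / 50 else 0

theorem dq_cast (R : Tab) (m : ℕ) : ((dq m : ℚ) : ℝ) = R.dl m := by
  unfold dq Tab.dl
  split_ifs <;> push_cast <;> rfl

/-- `kt / t - K (t + δ) ^ 2` -/
def ktP (l : List ℚ) (K δ : ℚ) : List ℚ := ladd l.tail (lsmul (-K) [δ ^ 2, 2 * δ, 1])

/-- the polynomial is nonnegative on `n` equal parts from `a` on, each of the length `h` -/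
def segs (l : List ℚ) (a h : ℚ) : ℕ → Bool
  | 0 => true
  | n + 1 => pos01 (shl (a + n * h) h l) && segs l a h n

theorem segs_ok {l : List ℚ} {a h : ℚ} (h0 : 0 ≤ h) {n : ℕ} (hs : segs l a h n = true) {t : ℝ}
    (ht : (a : ℝ) ≤ t) (ht' : t < (a : ℝ) + n * (h : ℝ)) : 0 ≤ pv l t := by
  induction n with
  | zero =>
    exfalso
    push_cast at ht'
    linarith
  | succ n ih =>
    have hs' : (pos01 (shl (a + n * h) h l) && segs l a h n) = true := hs
    rw [Bool.and_eq_true] at hs'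
    rcases lt_or_ge t ((a : ℝ) + n * (h : ℝ)) with h1 | h1
    · exact ih hs'.2 h1
    · have hr0 : (0 : ℝ) ≤ (h : ℝ) := by exact_mod_cast h0
      have hp : (0 : ℝ) < (h : ℝ) := by
        rcases eq_or_lt_of_le hr0 with h2 | h2
        · exfalso
          push_cast at ht'
          rw [← h2] at ht' h1
          linarith
        · exact h2
      have y0 : 0 ≤ (t - ((a : ℝ) + n * (h : ℝ))) / (h : ℝ) := div_nonneg (by linarith) hp.le
      have y1 : (t - ((a : ℝ) + n * (h : ℝ))) / (h : ℝ) ≤ 1 := by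
        rw [div_le_one hp]
        push_cast at ht'
        linarith
      have h2 := pos01_ok hs'.1 y0 y1
      rw [pv_shl] at h2
      have e : (((a + n * h : ℚ)) : ℝ) + (h : ℝ) * ((t - ((a : ℝ) + n * (h : ℝ))) / (h : ℝ)) = t := by
        push_cast
        field_simp
        ring
      rwa [e] at h2

/-- **the scale times the number `kap` is below the budget on the cell** -/
def ktB (l : List ℚ) (d : CqN) (kap m n : ℕ) : Bool :=
  decide (0 < n) && decide (0 ≤ ev l 0) && decide (d.μ = 0) && decide (d.T0 ≤ d.T1)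
    && segs (ktP l ((kap : ℚ) / 1048576) (dq m)) ((d.T0 : ℚ) / 1048576)
      (((d.T1 : ℚ) - d.T0 + 1) / 1048576 / n) n

theorem ktB_ok {l : List ℚ} {d : CqN} {kap m n : ℕ} {R : Tab} (h : ktB l d kap m n = true)
    {t : ℝ} (ht : t ∈ Icc (rD d.T0) (rD d.T1)) : (d.cq (R.dl m)).S t * rD kap ≤ pv l t := by
  unfold ktB at h
  rw [Bool.and_eq_true, Bool.and_eq_true, Bool.and_eq_true, Bool.and_eq_true] at h
  obtain ⟨⟨⟨⟨h0, h1⟩, h2⟩, h3⟩, h4⟩ := h
  have hn : 0 < n := of_decide_eq_true h0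
  have h1 := of_decide_eq_true h1
  have h2 : d.μ = 0 := of_decide_eq_true h2
  have h3 : d.T0 ≤ d.T1 := of_decide_eq_true h3
  have t0 : 0 ≤ t := (rD_nonneg _).trans ht.1
  have h30 : ((d.T0 : ℚ)) ≤ d.T1 := by exact_mod_cast h3
  have hh0 : (0 : ℚ) ≤ ((d.T1 : ℚ) - d.T0 + 1) / 1048576 / n :=
    div_nonneg (div_nonneg (by linarith) (by norm_num)) (Nat.cast_nonneg n)
  have eT0 : (((d.T0 : ℚ) / 1048576 : ℚ) : ℝ) = rD d.T0 := by push_cast; rfl
  have hlt : t < (((d.T0 : ℚ) / 1048576 : ℚ) : ℝ)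
      + n * ((((d.T1 : ℚ) - d.T0 + 1) / 1048576 / n : ℚ) : ℝ) := by
    have n0 : (0 : ℝ) < n := by exact_mod_cast hn
    push_cast
    rw [mul_div_cancel₀ _ n0.ne']
    have := ht.2
    unfold rD at this
    linarith
  have h5 := segs_ok hh0 h4 (by rw [eT0]; exact ht.1) hlt
  have e1 : pv l t = pv l 0 + t * pv l.tail t := pv_tail l t
  have e2 : 0 ≤ pv l 0 := by
    rw [pv_ev0]
    exact_mod_cast h1
  unfold ktP at h5
  rw [pv_ladd, pv_lsmul] at h5
  have e3 : pv [dq m ^ 2, 2 * dq m, 1] t = (t + R.dl m) ^ 2 := by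
    simp only [pv]
    push_cast
    rw [dq_cast R m]
    ring
  rw [e3] at h5
  have e4 : (((-((kap : ℚ) / 1048576) : ℚ)) : ℝ) = -rD kap := by push_cast; rfl
  rw [e4] at h5
  have e5 : (d.cq (R.dl m)).S t = (t + R.dl m) ^ 2 * t := by
    unfold Cq.S
    have : (d.cq (R.dl m)).μ = 0 := by
      show rD d.μ = 0
      rw [h2]
      exact rD_zero
    have e : (d.cq (R.dl m)).δ = R.dl m := rfl
    rw [this, e]
    ring
  rw [e5, e1]
  have := mul_nonneg t0 h5
  nlinarith

/-! ### the numbers of all cells -/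

/-- the exponents of the densities -/
def exD (q : TDt5) : ExD where
  ap := q.ap
  ap2 := q.ap2
  cp := q.cp
  cp2 := q.cp2
  ep := q.ep
  ep2 := q.ep2
  bp := q.bp
  τ := q.τ

/-- the density factor below the exponent of the frame -/
theorem kdN_le_exD {p : Ps} (hp : p.Ok) {q : TDt5} (qP : q.Pos) (qB : q.Bd) :
    ∀ w ∈ Icc (0 : ℝ) 1, ∀ t s, 0 ≤ s → s ≤ t → t ≤ 1 →
      Pool.Agent.RZ.RCO.kdN p q w t s ≤ p.d.rPe w t * Real.exp ((exD q).v t s) := by
  intro w hw t s h0 h1 h2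
  have ht : t ∈ Icc (0 : ℝ) 1 := ⟨h0.trans h1, h2⟩
  refine (Pool.Agent.RZ.RCO.kdN_le_kdX w t s).trans ?_
  unfold Pool.Agent.RZ.RCO.kdX
  have hX : 0 ≤ q.X t s := TDt5.X_nn qP qB ht ⟨h0, h1⟩
  have hk : q.kw w ≤ 1 := TDt5.kw_le qB hw.1
  have e : (exD q).v t s = q.X t s + q.e s := rfl
  rw [e]
  refine mul_le_mul_of_nonneg_left (Real.exp_le_exp.2 ?_)
    (zero_le_one.trans (rPe_one hp hw ht))
  have := mul_le_mul_of_nonneg_right hk hX
  linarith

/-- the numbers of one cell -/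
structure Cell where
  c : CqN
  f : FrC
  q : C2N
  kap : ℕ
  n : ℕ
  l : List (ℕ × ℕ)

/-- the checks of one cell which need rational numbers -/
def Cell.qB (C : Cell) (p : Ps) (e : ExD) (m : ℕ) : Bool :=
  C.f.qB p e C.c && (List.range 11).all C.f.tB && ktB p.d.ktl C.c C.kap m C.n

section

end

/-! ### the inequality of the centres -/

section tt

end tt

end Pool.Agent.RZ.RCN.K
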