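import Pool.Agent.RZ.RCO.DatX
import Pool.Agent.RZ.RCO.TTa

/-! Generated: majorants of the frame functions. -/

set_option autoImplicit false

namespace Pool.Agent.RZ.RCO.FrX

open Pool.Agent.RZ.RCN.K Pool.Agent.RZ.RCM9 Pool.Agent.RZ.RCE

def e : ExD := exD DatX.q

end Pool.Agent.RZ.RCO.FrX
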