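import Pool.Agent.RZ.RCN.PpA

/-! The first part of the inequality of the centres from rows, columns and entries of the
exponents (MP_73ccd0_lc). -/

namespace Pool.Agent.RZ.RCN.K

open Set Finset MeasureTheory

set_option linter.unusedSectionVars false

variable {V : Type*} [Fintype V] [DecidableEq V]
variable {x : V → V → ℝ} {P : V → Prop} [DecidablePred P] {N : ℕ}

variable {κd : ℝ → ℝ → ℝ → ℝ} {R : V → V → V → ℝ → ℝ → ℝ} {L Lt : V → V → V → V → ℝ → ℝ → ℝ}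
variable {a b : V} {t γ : ℝ} {κ0 Fs ρ : ℝ → ℝ} {w : V → ℝ → ℝ} {l1 l2 h1 h2 : ℝ → ℝ → ℝ → ℝ}
variable {S St : ℝ → ℝ} {BA BB : ℝ} {c2 c4 : ℝ → ℝ → ℝ → ℝ} {IA IB : ℝ → ℝ → ℝ}

/-- the columns of the exponents without weights; `y = x a d`, `z = x b d` -/
structure Pc2 (x : V → V → ℝ) (P : V → Prop) [DecidablePred P]
    (L Lt : V → V → V → V → ℝ → ℝ → ℝ) (a b : V) (t : ℝ) (c2 c4 : ℝ → ℝ → ℝ → ℝ) : Prop where
  cc2 : ∀ y z : ℝ, 0 ≤ y → 0 ≤ z → y + z ≤ 1 → ContinuousOn (c2 y z) (Icc 0 t)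
  cc4 : ∀ y z : ℝ, 0 ≤ y → 0 ≤ z → y + z ≤ 1 → ContinuousOn (c4 y z) (Icc 0 t)
  q2 : ∀ d ∈ ({a, b} : Finset V)ᶜ, P d → ∀ s ∈ Icc 0 t,
    ∑ c ∈ ({a, b, d} : Finset V)ᶜ, rP P L a b c d t s ≤ c2 (x a d) (x b d) s
  q4 : ∀ d ∈ ({a, b} : Finset V)ᶜ, P d → ∀ s ∈ Icc 0 t,
    ∑ c ∈ ({a, b, d} : Finset V)ᶜ, rP P Lt a b c d t s ≤ c4 (x a d) (x b d) s

end Pool.Agent.RZ.RCN.K
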