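import Pool.Agent.RZ.RCO.T1d

/-! The first part of the inequality of the centres on a cell of the time: the errors of a triple
below the functions `W0`, `W1` of the cell (MP_73ccd0_lc). -/

namespace Pool.Agent.RZ.RCN.K

open Set Finset MeasureTheory Pool.Agent.RZ.RCRSHalf Pool.Agent.RZ.RCG Pool.Agent.RZ.RCG.Ct
open Pool.Agent.RZ.RCN.Ker Pool.Agent.RZ.RCRS Pool.Agent.RZ.RCM.Jen Pool.Agent.RZ.RCO.RT

set_option linter.unusedSectionVars false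
set_option linter.unusedVariables false

theorem tri3_swap12 (n : ℕ) (u v w : ℕ → ℝ) : tri3 n u v w = tri3 n v u w := by
  unfold tri3 tri
  congr 1
  exact Finset.sum_congr rfl fun l _ => by ring

theorem tri3_lp2 (n : ℕ) (z : ℝ) (a b c v w : ℕ → ℝ) :
    tri3 n v (fun l => lp z (a l) (b l) (c l)) w
      = lp z (tri3 n v a w) (tri3 n v b w) (tri3 n v c w) := by
  rw [tri3_swap12, tri3_lp, tri3_swap12 n a, tri3_swap12 n b, tri3_swap12 n c]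

/-- the integral of two functions against a value of the table -/
theorem int3_valE {R : Tab} {K m : ℕ} {t k : ℝ} (t0 : 0 ≤ t) (hk : k ∈ Icc (0 : ℝ) 1)
    {p q : ℝ → ℝ} {u v : ℕ → ℝ}
    (cp : ContinuousOn p (Icc 0 t)) (cq : ContinuousOn q (Icc 0 t))
    (p0 : ∀ s ∈ Icc 0 t, 0 ≤ p s) (q0 : ∀ s ∈ Icc 0 t, 0 ≤ q s)
    (hp : ∀ s ∈ Icc 0 t, p s ≤ plx 10 u (s / t)) (hq : ∀ s ∈ Icc 0 t, q s ≤ plx 10 v (s / t))
    {B : ℝ} (hB : tri3 10 u v (fun l => (R.r K m l).ev k) ≤ B) :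
    ∫ s in (0 : ℝ)..t, p s * q s * R.val K m t s k ≤ (t + R.dl m) ^ Tab.ex K * t * B := by
  have e : ∀ s, p s * q s * R.val K m t s k = (t + R.dl m) ^ Tab.ex K * (p s * q s
      * plx 10 (fun l => (R.r K m l).ev k) (s / t)) := fun s => by
    rw [Tab.val_eq t0]; ring
  simp only [e]
  rw [intervalIntegral.integral_const_mul]
  have h1 := int3_le (n := 10) (by norm_num) t0 cp cq
    (plx_div_cont 10 (fun l => (R.r K m l).ev k) t).continuousOn p0 q0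
    (fun s _ => plx_nonneg (fun _ _ => Cub.ev_nonneg _ hk.1 hk.2) _) hp hq
    fun s _ => le_rfl
  have h2 := mul_le_mul_of_nonneg_left (h1.trans (mul_le_mul_of_nonneg_left hB t0))
    (pow_nonneg (add_nonneg t0 (Tab.dl_nonneg (R := R) m)) (Tab.ex K))
  linarith

/-- the deleted exponents -/
theorem int3_val {R : Tab} {K m : ℕ} (hK : Tab.ex K = 2) {t k : ℝ} (t0 : 0 ≤ t)
    (hk : k ∈ Icc (0 : ℝ) 1)
    {p q : ℝ → ℝ} {u v : ℕ → ℝ}
    (cp : ContinuousOn p (Icc 0 t)) (cq : ContinuousOn q (Icc 0 t))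
    (p0 : ∀ s ∈ Icc 0 t, 0 ≤ p s) (q0 : ∀ s ∈ Icc 0 t, 0 ≤ q s)
    (hp : ∀ s ∈ Icc 0 t, p s ≤ plx 10 u (s / t)) (hq : ∀ s ∈ Icc 0 t, q s ≤ plx 10 v (s / t))
    {B : ℝ} (hB : tri3 10 u v (fun l => (R.r K m l).ev k) ≤ B) :
    ∫ s in (0 : ℝ)..t, p s * q s * R.val K m t s k ≤ (t + R.dl m) ^ 2 * t * B := by
  have := int3_valE t0 hk cp cq p0 q0 hp hq hB
  rwa [hK] at this

/-- the released exponents, with one more power of the time -/
theorem int3_rel {R : Tab} {K m : ℕ} (hK : Tab.ex K = 1) {t k : ℝ} (t0 : 0 ≤ t)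
    (hk : k ∈ Icc (0 : ℝ) 1)
    {p q : ℝ → ℝ} {u v : ℕ → ℝ}
    (cp : ContinuousOn p (Icc 0 t)) (cq : ContinuousOn q (Icc 0 t))
    (p0 : ∀ s ∈ Icc 0 t, 0 ≤ p s) (q0 : ∀ s ∈ Icc 0 t, 0 ≤ q s)
    (hp : ∀ s ∈ Icc 0 t, p s ≤ plx 10 u (s / t)) (hq : ∀ s ∈ Icc 0 t, q s ≤ plx 10 v (s / t))
    {B : ℝ} (hB : tri3 10 u v (fun l => (R.r K m l).ev k) ≤ B) (B0 : 0 ≤ B) :
    t * ∫ s in (0 : ℝ)..t, p s * q s * R.val K m t s k ≤ (t + R.dl m) ^ 2 * t * B := by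
  have h1 := int3_valE t0 hk cp cq p0 q0 hp hq hB
  rw [hK, pow_one] at h1
  have h2 := mul_le_mul_of_nonneg_left h1 t0
  have d0 := Tab.dl_nonneg (R := R) m
  refine h2.trans ?_
  have : (t + R.dl m) ^ 2 * t * B - t * ((t + R.dl m) * t * B)
      = R.dl m * ((t + R.dl m) * t * B) := by ring
  have : 0 ≤ R.dl m * ((t + R.dl m) * t * B) := by positivity
  linarith

section

variable {c : Cq} {k : Kf} {κd : ℝ → ℝ → ℝ → ℝ} {rr : ℝ → ℝ → ℝ} {R : Tab} {m : ℕ} {t : ℝ}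

/-- the density factor -/
noncomputable def Cq.k0 (c : Cq) (t s : ℝ) : ℝ := plx 10 c.κ (s / t)
/-- the mass function -/
noncomputable def Cq.Fs (c : Cq) (t s : ℝ) : ℝ := t * plx 10 c.Φ (s / t)
/-- the hazard for all weights -/
noncomputable def Cq.ρm (c : Cq) (t s : ℝ) : ℝ := plx 10 c.ρx (s / t)
/-- the hazard of a weight -/
noncomputable def Cq.ρz (c : Cq) (t z s : ℝ) : ℝ :=
  lp z (plx 10 c.ρ0 (s / t)) (plx 10 c.ρ1 (s / t)) (plx 10 c.ρ2 (s / t))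
/-- the parameter of the quadratic bound -/
noncomputable def Cq.θ (c : Cq) (t s : ℝ) : ℝ := c.th * plx 10 c.f0 (s / t)

theorem Cq.ρz_eq (z s : ℝ) :
    c.ρz t z s = plx 10 (fun l => lp z (c.ρ0 l) (c.ρ1 l) (c.ρ2 l)) (s / t) := by
  unfold Cq.ρz
  rw [plx_lp]

theorem Cq.k0_cont (c : Cq) (t : ℝ) : Continuous (c.k0 t) := plx_div_cont 10 c.κ t
theorem Cq.Fs_cont (c : Cq) (t : ℝ) : Continuous (c.Fs t) :=
  continuous_const.mul (plx_div_cont 10 c.Φ t)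
theorem Cq.ρm_cont (c : Cq) (t : ℝ) : Continuous (c.ρm t) := plx_div_cont 10 _ t
theorem Cq.ρz_cont (c : Cq) (t z : ℝ) : Continuous (c.ρz t z) := by
  have : c.ρz t z = fun s => plx 10 (fun l => lp z (c.ρ0 l) (c.ρ1 l) (c.ρ2 l)) (s / t) := by
    funext s; exact c.ρz_eq z s
  rw [this]
  exact plx_div_cont 10 _ t
theorem Cq.θ_cont (c : Cq) (t : ℝ) : Continuous (c.θ t) :=
  continuous_const.mul (plx_div_cont 10 c.f0 t)

theorem Cq.Nn.k0_nonneg (h : c.Nn) (s : ℝ) : 0 ≤ c.k0 t s := plx_nonneg h.κ _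
theorem Cq.Nn.Fs_nonneg (h : c.Nn) (t0 : 0 ≤ t) (s : ℝ) : 0 ≤ c.Fs t s :=
  mul_nonneg t0 (plx_nonneg h.Φ _)
theorem Cq.Nn.ρm_nonneg (h : c.Nn) (s : ℝ) : 0 ≤ c.ρm t s :=
  plx_nonneg (fun l hl => (h.ρ0 l hl).trans (le_max_left _ _)) _
theorem Cq.Nn.ρz_nonneg (h : c.Nn) {z : ℝ} (hz : z ∈ Icc (0 : ℝ) 1) (s : ℝ) : 0 ≤ c.ρz t z s :=
  lp_nonneg hz.1 hz.2 (plx_nonneg h.ρ0 _) (plx_nonneg h.ρ1 _) (plx_nonneg h.ρ2 _)
theorem Cq.Nn.θ_pos (h : c.Nn) {s : ℝ} (hs : s ∈ Icc 0 t) : 0 < c.θ t s := by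
  have := div_mem01 hs
  exact mul_pos h.th (plx_pos (by norm_num) h.f0 this.1 this.2)

/-- the square of the density over the density of the light edges -/
theorem Cq.Fr.sq (h : c.Nn) (hF : c.Fr k κd rr) (hk : Kc k κd t) (ht : t ∈ Icc c.T0 c.T1)
    {s : ℝ} (hs : s ∈ Icc 0 t) {z : ℝ} (hz : z ∈ Icc (0 : ℝ) 1) :
    k.fh z s ^ 2 / plx 10 c.f0 (s / t)
      ≤ plx 10 (fun l => lp z (c.f0 l ^ 2 / c.f0 l) (c.f1 l ^ 2 / c.f0 l)
        (c.f2 l ^ 2 / c.f0 l)) (s / t) := by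
  have d := div_mem01 hs
  have h1 : k.fh z s ^ 2 ≤ plx 10 (fun l => lp z (c.f0 l) (c.f1 l) (c.f2 l)) (s / t) ^ 2 :=
    pow_le_pow_left₀ (hk.f0 hz hs) (hF.fh ht hs hz) 2
  have p0 : 0 < plx 10 c.f0 (s / t) := plx_pos (by norm_num) h.f0 d.1 d.2
  refine (div_le_div_of_nonneg_right h1 p0.le).trans ?_
  refine (plx_sq_div (by norm_num) h.f0 d.1 d.2).trans (plx_mono (fun l hl => ?_) _)
  have f0 := h.f0 l hl
  refine (div_le_div_of_nonneg_right (lp_sq hz.1 hz.2) f0.le).trans (le_of_eq ?_)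
  unfold lp
  split_ifs <;> ring

theorem Cq.ρz_sq {z : ℝ} (hz : z ∈ Icc (0 : ℝ) 1) {s : ℝ} (hs : s ∈ Icc 0 t) :
    c.ρz t z s ^ 2
      ≤ plx 10 (fun l => lp z (c.ρ0 l ^ 2) (c.ρ1 l ^ 2) (c.ρ2 l ^ 2)) (s / t) := by
  have d := div_mem01 hs
  rw [Cq.ρz_eq]
  exact (plx_sq (by norm_num) _ d.1 d.2).trans
    (plx_mono (fun l _ => lp_sq hz.1 hz.2) _)

/-- the rows of the table as functions of the two weights -/
noncomputable def rv (R : Tab) (K m : ℕ) (t y z s : ℝ) : ℝ := R.val K m t s (y + z)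

theorem rv_cont (R : Tab) (K m : ℕ) (t y z : ℝ) {S : Set ℝ} : ContinuousOn (rv R K m t y z) S :=
  (R.val_cont K m t (y + z)).continuousOn

theorem Cq.It.S (hI : c.It R m) (h : c.Nn) (t0 : 0 ≤ t) {X B : ℝ} (B0 : 0 ≤ B)
    (h1 : X ≤ (t + R.dl m) ^ 2 * t * B) : X ≤ c.S t * B := by
  refine h1.trans (mul_le_mul_of_nonneg_right ?_ B0)
  rw [hI.dl]
  unfold Cq.S
  have := mul_nonneg (mul_nonneg h.μ t0) t0
  nlinarith

/-- the entries of the rows: the part of the deleted exponents -/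
theorem Cq.It.IA (h : c.Nn) (hI : c.It R m) (hF : c.Fr k κd rr) (hk : Kc k κd t)
    (ht : t ∈ Icc c.T0 c.T1) {y z : ℝ} (y0 : 0 ≤ y) (z0 : 0 ≤ z) (yz : y + z ≤ 1) :
    ∫ s in (0 : ℝ)..t, k.fh z s * c.k0 t s * ((1 + t * y) * rv R kCL m t y z s)
      ≤ c.S t * ((1 + c.T1 * y) * c.A z (y + z)) := by
  have t0 := hk.t01.1
  have hz : z ∈ Icc (0 : ℝ) 1 := ⟨z0, by linarith⟩
  have hK : y + z ∈ Icc (0 : ℝ) 1 := ⟨by linarith, yz⟩
  have e : ∀ s, k.fh z s * c.k0 t s * ((1 + t * y) * rv R kCL m t y z s)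
      = (1 + t * y) * (k.fh z s * c.k0 t s * R.val kCL m t s (y + z)) := fun s => by
    unfold rv; ring
  simp only [e]
  rw [intervalIntegral.integral_const_mul]
  have h1 := int3_val (R := R) (K := kCL) (m := m) rfl t0 hK (hk.f hz)
    (c.k0_cont t).continuousOn (fun s hs => hk.f0 hz hs) (fun s _ => h.k0_nonneg s)
    (fun s hs => hF.fh ht hs hz) (fun s _ => le_rfl) (B := c.A z (y + z)) (by
      rw [tri3_lp]
      exact lp_mono hz.1 hz.2 (hI.A0 _ hK) (hI.A1 _ hK) (hI.A2 _ hK))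
  have A0 := h.A_nonneg hz.1 hz.2 hK
  replace h1 := hI.S h t0 A0 h1
  have S0 := h.S_nonneg t0
  have y1 : 0 ≤ 1 + t * y := by have := mul_nonneg t0 y0; linarith
  have h2 := mul_le_mul_of_nonneg_left h1 y1
  have h3 : 1 + t * y ≤ 1 + c.T1 * y := by
    have := mul_le_mul_of_nonneg_right ht.2 y0
    linarith
  have h4 := mul_le_mul_of_nonneg_right h3 (mul_nonneg S0 A0)
  linarith

/-- the entries of the rows: the part of the fresh exponents -/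
theorem Cq.It.IB (h : c.Nn) (hI : c.It R m) (hF : c.Fr k κd rr) (hk : Kc k κd t)
    (ht : t ∈ Icc c.T0 c.T1) {y z : ℝ} (y0 : 0 ≤ y) (z0 : 0 ≤ z) (yz : y + z ≤ 1) :
    ∫ s in (0 : ℝ)..t, c.Fs t s * (c.ρz t z s * rv R kCF m t y z s)
      ≤ c.S t * c.B z (y + z) := by
  have t0 := hk.t01.1
  have hz : z ∈ Icc (0 : ℝ) 1 := ⟨z0, by linarith⟩
  have hK : y + z ∈ Icc (0 : ℝ) 1 := ⟨by linarith, yz⟩
  have e : ∀ s, c.Fs t s * (c.ρz t z s * rv R kCF m t y z s)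
      = t * (plx 10 c.Φ (s / t) * c.ρz t z s * R.val kCF m t s (y + z)) := fun s => by
    unfold rv Cq.Fs; ring
  simp only [e]
  rw [intervalIntegral.integral_const_mul]
  have h1 := int3_rel (R := R) (K := kCF) (m := m) rfl t0 hK
    (plx_div_cont 10 c.Φ t).continuousOn (c.ρz_cont t z).continuousOn
    (fun s _ => plx_nonneg h.Φ _) (fun s _ => h.ρz_nonneg hz s)
    (fun s _ => le_rfl) (fun s _ => (c.ρz_eq z s).le) (B := c.B z (y + z)) (by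
      rw [tri3_lp2]
      exact lp_mono hz.1 hz.2 (hI.B0 _ hK) (hI.B1 _ hK) (hI.B2 _ hK))
    (h.B_nonneg hz.1 hz.2 hK)
  exact hI.S h t0 (h.B_nonneg hz.1 hz.2 hK) h1

/-- the four parts of the amplified errors -/
theorem Cq.It.p1 (h : c.Nn) (hI : c.It R m) (hk : Kc k κd t) {K : ℝ} (hK : K ∈ Icc (0 : ℝ) 1) :
    c.th * ∫ s in (0 : ℝ)..t, c.k0 t s * plx 10 c.f0 (s / t) * R.val kRL m t s K
      ≤ c.S t * c.K1 K := by
  have t0 := hk.t01.1
  have h1 := int3_val (R := R) (K := kRL) (m := m) rfl t0 hK (c.k0_cont t).continuousOn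
    (plx_div_cont 10 c.f0 t).continuousOn (fun s _ => h.k0_nonneg s)
    (fun s _ => plx_nonneg (fun l hl => (h.f0 l hl).le) _)
    (fun s _ => le_rfl) (fun s _ => le_rfl) le_rfl
  replace h1 := hI.S h t0 (tri3_nonneg h.κ (fun l hl => (h.f0 l hl).le)
    fun l _ => Cub.ev_nonneg _ hK.1 hK.2) h1
  have h2 := mul_le_mul_of_nonneg_left h1 h.th.le
  have h3 := mul_le_mul_of_nonneg_left (hI.K1 K hK) (h.S_nonneg t0)
  linarith

theorem Cq.It.p2 (h : c.Nn) (hI : c.It R m) (hk : Kc k κd t) {K z : ℝ}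
    (hK : K ∈ Icc (0 : ℝ) 1) (hz : z ∈ Icc (0 : ℝ) 1) :
    ∫ s in (0 : ℝ)..t, c.k0 t s * plx 10 (fun l => lp z (c.f0 l ^ 2 / c.f0 l)
        (c.f1 l ^ 2 / c.f0 l) (c.f2 l ^ 2 / c.f0 l)) (s / t) * R.val kCL m t s K
      ≤ c.S t * (c.th * c.K2 z K) := by
  have t0 := hk.t01.1
  have h1 := int3_val (R := R) (K := kCL) (m := m) rfl t0 hK (c.k0_cont t).continuousOn
    (plx_div_cont 10 (fun l => lp z (c.f0 l ^ 2 / c.f0 l)
        (c.f1 l ^ 2 / c.f0 l) (c.f2 l ^ 2 / c.f0 l)) t).continuousOn (fun s _ => h.k0_nonneg s)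
    (fun s _ => plx_nonneg (fun l hl => by
      have := h.f0 l hl
      exact lp_nonneg hz.1 hz.2 (by positivity) (by positivity) (by positivity)) _)
    (fun s _ => le_rfl) (fun s _ => le_rfl) (B := c.th * c.K2 z K) (by
      rw [tri3_lp2]
      unfold Cq.K2
      rw [← lp_smul]
      exact lp_mono hz.1 hz.2 (hI.K20 _ hK) (hI.K21 _ hK) (hI.K22 _ hK))
  exact hI.S h t0 (mul_nonneg h.th.le (h.K2_nonneg hz.1 hz.2 hK)) h1

theorem Cq.It.p3 (h : c.Nn) (hI : c.It R m) (hk : Kc k κd t) (ht : t ∈ Icc c.T0 c.T1) {K : ℝ}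
    (hK : K ∈ Icc (0 : ℝ) 1) :
    c.thh * ∫ s in (0 : ℝ)..t, c.Fs t s * R.val kRF m t s K ≤ c.S t * c.K3 K := by
  have t0 := hk.t01.1
  have S0 := h.S_nonneg t0
  have e : ∀ s, c.Fs t s * R.val kRF m t s K
      = t * (plx 10 c.Φ (s / t) * 1 * R.val kRF m t s K) := fun s => by
    unfold Cq.Fs; ring
  simp only [e]
  rw [intervalIntegral.integral_const_mul]
  have p0 : 0 ≤ tri3 10 c.Φ (fun _ => 1) (fun l => (R.r kRF m l).ev K) :=
    tri3_nonneg h.Φ (fun _ _ => zero_le_one) fun l _ => Cub.ev_nonneg _ hK.1 hK.2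
  have h1 := int3_rel (R := R) (K := kRF) (m := m) rfl t0 hK
    (plx_div_cont 10 c.Φ t).continuousOn (one_c (t := t))
    (fun s _ => plx_nonneg h.Φ _) (fun s _ => zero_le_one)
    (fun s _ => le_rfl) (v := fun _ => 1) (fun s hs => by
        have := div_mem01 hs
        rw [plx_one this.1 this.2]) le_rfl p0
  replace h1 := hI.S h t0 p0 h1
  have h4 := mul_le_mul_of_nonneg_left h1 h.thh.le
  have h5 := mul_le_mul_of_nonneg_left (hI.K3 K hK) S0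
  linarith

theorem Cq.It.p4 (h : c.Nn) (hI : c.It R m) (hk : Kc k κd t) (ht : t ∈ Icc c.T0 c.T1) {K z : ℝ}
    (hK : K ∈ Icc (0 : ℝ) 1) (hz : z ∈ Icc (0 : ℝ) 1) :
    ∫ s in (0 : ℝ)..t, c.Fs t s * c.ρz t z s ^ 2 * R.val kCF m t s K
      ≤ c.S t * (c.thh * c.K4 z K) := by
  have t0 := hk.t01.1
  have e : ∀ s, c.Fs t s * c.ρz t z s ^ 2 * R.val kCF m t s K
      = t * (plx 10 c.Φ (s / t) * c.ρz t z s ^ 2 * R.val kCF m t s K) := fun s => by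
    unfold Cq.Fs; ring
  simp only [e]
  rw [intervalIntegral.integral_const_mul]
  have h1 := int3_rel (R := R) (K := kCF) (m := m) rfl t0 hK
    (p := fun s => plx 10 c.Φ (s / t)) (q := fun s => c.ρz t z s ^ 2)
    (plx_div_cont 10 c.Φ t).continuousOn ((c.ρz_cont t z).pow 2).continuousOn
    (fun s _ => plx_nonneg h.Φ _) (fun s _ => sq_nonneg _)
    (fun s _ => le_rfl) (fun s hs => Cq.ρz_sq hz hs) (B := c.thh * c.K4 z K) (by
      rw [tri3_lp2]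
      unfold Cq.K4
      rw [← lp_smul]
      exact lp_mono hz.1 hz.2 (hI.K40 _ hK) (hI.K41 _ hK) (hI.K42 _ hK))
    (mul_nonneg h.thh.le (h.K4_nonneg hz.1 hz.2 hK))
  exact hI.S h t0 (mul_nonneg h.thh.le (h.K4_nonneg hz.1 hz.2 hK)) h1

/-- the part of the fresh exponents of the quadratic bound -/
theorem Cq.It.be (h : c.Nn) (hI : c.It R m) (hk : Kc k κd t) (ht : t ∈ Icc c.T0 c.T1) {y z v M : ℝ}
    (y0 : 0 ≤ y) (z0 : 0 ≤ z) (yz : y + z ≤ 1) (hv : v ^ 2 = z * c.vz z) (M0 : 0 ≤ M) {Mb : ℝ}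
    (Mb0 : 0 ≤ Mb) :
    ∫ s in (0 : ℝ)..t, c.Fs t s * (c.thh * v ^ 2 * M * rv R kRF m t y z s
        + c.thh⁻¹ * (z * c.ρz t z s) ^ 2 * Mb * rv R kCF m t y z s) / 2
      ≤ z * c.S t * ((c.K3 (y + z) * (c.vz z * M) + c.K4 z (y + z) * (z * Mb)) / 2) := by
  have t0 := hk.t01.1
  have hz : z ∈ Icc (0 : ℝ) 1 := ⟨z0, by linarith⟩
  have hK : y + z ∈ Icc (0 : ℝ) 1 := ⟨by linarith, yz⟩
  have e : ∀ s, c.Fs t s * (c.thh * v ^ 2 * M * rv R kRF m t y z s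
        + c.thh⁻¹ * (z * c.ρz t z s) ^ 2 * Mb * rv R kCF m t y z s) / 2
      = (c.thh * v ^ 2 * M / 2) * (c.Fs t s * R.val kRF m t s (y + z))
        + (c.thh⁻¹ * z ^ 2 * Mb / 2) * (c.Fs t s * c.ρz t z s ^ 2 * R.val kCF m t s (y + z)) :=
    fun s => by unfold rv; ring
  simp only [e]
  have c1 : Continuous fun s => c.Fs t s * R.val kRF m t s (y + z) :=
    (c.Fs_cont t).mul (R.val_cont kRF m t (y + z))
  have c2 : Continuous fun s => c.Fs t s * c.ρz t z s ^ 2 * R.val kCF m t s (y + z) :=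
    ((c.Fs_cont t).mul ((c.ρz_cont t z).pow 2)).mul (R.val_cont kCF m t (y + z))
  have hadd := intervalIntegral.integral_add (μ := volume) (a := 0) (b := t)
    (f := fun s => (c.thh * v ^ 2 * M / 2) * (c.Fs t s * R.val kRF m t s (y + z)))
    (g := fun s => (c.thh⁻¹ * z ^ 2 * Mb / 2)
      * (c.Fs t s * c.ρz t z s ^ 2 * R.val kCF m t s (y + z)))
    ((continuous_const.mul c1).intervalIntegrable _ _)
    ((continuous_const.mul c2).intervalIntegrable _ _)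
  rw [hadd, intervalIntegral.integral_const_mul, intervalIntegral.integral_const_mul]
  have i3 := hI.p3 h hk ht hK
  have i4 := hI.p4 h hk ht hK hz
  have n1 : 0 ≤ v ^ 2 * M / 2 := by positivity
  have n2 : 0 ≤ c.thh⁻¹ * z ^ 2 * Mb / 2 := by
    have := h.thh
    positivity
  have j3 := mul_le_mul_of_nonneg_left i3 n1
  have j4 := mul_le_mul_of_nonneg_left i4 n2
  have e1 : c.thh⁻¹ * z ^ 2 * Mb / 2 * (c.S t * (c.thh * c.K4 z (y + z)))
      = z * c.S t * (c.K4 z (y + z) * (z * Mb)) / 2 := by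
    have := h.thh.ne'
    field_simp
  have e2 : v ^ 2 * M / 2 * (c.S t * c.K3 (y + z))
      = z * c.S t * (c.K3 (y + z) * (c.vz z * M)) / 2 := by
    rw [hv]; ring
  rw [e1] at j4
  rw [e2] at j3
  linarith

end

end Pool.Agent.RZ.RCN.K
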