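import Pool.Agent.RZ.RCO.T1H
import Pool.Agent.RZ.RCO.T1R
import Pool.Agent.RZ.RCO.T1e

/-! **The first part of the inequality of the centres on a cell of the time**
(MP_73ccd0_lc). -/

namespace Pool.Agent.RZ.RCN.K

open Set Finset MeasureTheory Pool.Agent.RZ.RCRSHalf Pool.Agent.RZ.RCG Pool.Agent.RZ.RCG.Ct
open Pool.Agent.RZ.RCN.Ker Pool.Agent.RZ.RCRS Pool.Agent.RZ.RCM.Jen Pool.Agent.RZ.RCO.RT

set_option linter.unusedSectionVars false
set_option linter.unusedVariables false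

variable {V : Type*} [Fintype V] [DecidableEq V]
variable {x : V → V → ℝ} {P : V → Prop} [DecidablePred P] {k : Kf} {N : ℕ}
variable {κd : ℝ → ℝ → ℝ → ℝ} {Rh : V → V → V → ℝ → ℝ → ℝ} {L Lt : V → V → V → V → ℝ → ℝ → ℝ}
variable {a b : V} {t : ℝ} {c : Cq} {rr : ℝ → ℝ → ℝ} {R : Tab} {m : ℕ}

/-- the rows, columns and entries of the exponents at the time `t` from the table -/
structure Rw (x : V → V → ℝ) (P : V → Prop) [DecidablePred P] (rr : ℝ → ℝ → ℝ)
    (Rh : V → V → V → ℝ → ℝ → ℝ) (L Lt : V → V → V → V → ℝ → ℝ → ℝ) (a b : V) (t : ℝ)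
    (R : Tab) (m : ℕ) : Prop where
  r1 : ∀ c ∈ ({a, b} : Finset V)ᶜ, ∀ s ∈ Icc 0 t,
    ∑ d ∈ ({a, b, c} : Finset V)ᶜ, rP P L a b c d t s ≤ R.val kRL m t s (x a c + x b c)
  r2 : ∀ d ∈ ({a, b} : Finset V)ᶜ, ∀ s ∈ Icc 0 t,
    ∑ c ∈ ({a, b, d} : Finset V)ᶜ, rP P L a b c d t s ≤ R.val kCL m t s (x a d + x b d)
  r3 : ∀ c ∈ ({a, b} : Finset V)ᶜ, ∀ s ∈ Icc 0 t,
    ∑ d ∈ ({a, b, c} : Finset V)ᶜ, rP P Lt a b c d t s ≤ R.val kRF m t s (x a c + x b c)
  r4 : ∀ d ∈ ({a, b} : Finset V)ᶜ, ∀ s ∈ Icc 0 t,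
    ∑ c ∈ ({a, b, d} : Finset V)ᶜ, rP P Lt a b c d t s ≤ R.val kCF m t s (x a d + x b d)
  eL : ∀ c ∈ ({a, b} : Finset V)ᶜ, ∀ d ∈ ({a, b, c} : Finset V)ᶜ, P c → P d → ∀ s ∈ Icc 0 t,
    L a b c d t s ≤ R.val kEL m t s (x a d + x b d) + R.val kEC m t s (x a c + x b c)
  eT : ∀ c ∈ ({a, b} : Finset V)ᶜ, ∀ d ∈ ({a, b, c} : Finset V)ᶜ, P c → P d → ∀ s ∈ Icc 0 t,
    Lt a b c d t s ≤ R.val kEF m t s (x a d + x b d) + R.val kEG m t s (x a c + x b c)
  pd : ∀ c d, ¬P d → x b d ≠ 0 → ∀ s ∈ Icc 0 t, L a b c d t s = 0 ∧ Lt a b c d t s = 0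
  hR : ∀ d, P d → ∀ s ∈ Icc 0 t, Rh a b d t s ≤ x b d * rr (x b d) s
  hR' : ∀ d, ¬P d → ∀ s ∈ Icc 0 t, Rh a b d t s ≤ x b d * (1 + s)⁻¹

theorem lp_le_max {z a b d : ℝ} (hz : z ∈ Icc (0 : ℝ) 1) : lp z a b d ≤ max a (max b d) := by
  refine (lp_mono hz.1 hz.2 (le_max_left a (max b d)) ((le_max_left b d).trans
    (le_max_right a _)) ((le_max_right b d).trans (le_max_right a _))).trans
    (le_of_eq (lp_const _ _))

theorem Cq.ρz_le {z : ℝ} (hz : z ∈ Icc (0 : ℝ) 1) (s : ℝ) : c.ρz t z s ≤ c.ρm t s := by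
  rw [Cq.ρz_eq]
  exact plx_mono (fun l _ => lp_le_max hz) _

theorem Cq.Fr.ρm1 (hF : c.Fr k κd rr) {s : ℝ} (hs : s ∈ Icc 0 t) : 1 ≤ c.ρm t s := by
  have d := div_mem01 hs
  have : plx 10 (fun _ => (1 : ℝ)) (s / t) ≤ c.ρm t s :=
    plx_mono (fun l hl => (hF.rq l hl).trans (le_max_left _ _)) _
  rwa [plx_one d.1 d.2] at this

/-- the mass of a density -/
theorem Cq.It.mass (h : c.Nn) (hI : c.It R m) (hF : c.Fr k κd rr) (hk : Kc k κd t)
    (hx : Wt x P 1) (ht : t ∈ Icc c.T0 c.T1) (b d : V) {s : ℝ} (hs : s ∈ Icc 0 t) :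
    ∫ r in (0 : ℝ)..s, K.fq x P k.fh b d r * c.k0 t r ≤ c.Fs t s := by
  have t0 := hk.t01.1
  have i00 : (0 : ℝ) ∈ Icc 0 t := ⟨le_rfl, t0⟩
  have ck := (c.k0_cont t).continuousOn (s := Icc 0 t)
  have m0 : (0 : ℝ) ∈ Icc (0 : ℝ) 1 := ⟨le_rfl, zero_le_one⟩
  have mh : (1 / 2 : ℝ) ∈ Icc (0 : ℝ) 1 := ⟨by norm_num, by norm_num⟩
  have m1 : (1 : ℝ) ∈ Icc (0 : ℝ) 1 := ⟨zero_le_one, le_rfl⟩
  have one : ∀ {f : ℝ → ℝ} {v : ℕ → ℝ}, ContinuousOn f (Icc 0 t) → (∀ s ∈ Icc 0 t, 0 ≤ f s) →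
      (∀ s ∈ Icc 0 t, f s ≤ plx 10 v (s / t)) → Mass v c.κ c.Φ →
      ∫ r in (0 : ℝ)..s, f r * c.k0 t r ≤ c.Fs t s := by
    intro f v cf f0 hf hM
    obtain ⟨C, E, C0, hC, E0, hE, hΦ⟩ := hM
    have := int2_part (n := 10) (by norm_num) t0 cf ck f0 (fun s _ => h.k0_nonneg s)
      hf (fun s _ => le_rfl) C0 (fun l hl => by exact_mod_cast hC l hl) E0
      (fun l hl => by exact_mod_cast hE l hl) hΦ s hs
    exact this
  by_cases hP : P d
  swap
  · have e : ∀ r, K.fq x P k.fh b d r = qq r := fun r => by unfold K.fq; rw [if_neg hP]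
    simp only [e]
    refine one qq_cont (fun r hr => ?_) (fun r hr => (hk.qq_le hr).trans (hF.fh0 t ht r hr)) hI.Φ0
    unfold qq
    have := hr.1
    positivity
  have e : ∀ r, K.fq x P k.fh b d r = k.fh (x b d) r := fun r => by unfold K.fq; rw [if_pos hP]
  simp only [e]
  have hz := x_mem hx b d
  set z := x b d with hzd
  have i0 := one (hk.f m0) (fun r hr => hk.f0 m0 hr) (fun r hr => hF.fh0 t ht r hr) hI.Φ0
  have i1 := one (hk.f mh) (fun r hr => hk.f0 mh hr) (fun r hr => hF.fh1 t ht r hr) hI.Φ1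
  have i2 := one (hk.f m1) (fun r hr => hk.f0 m1 hr) (fun r hr => hF.fh2 t ht r hr) hI.Φ2
  have j0 := ii_of t0 ((hk.f m0).mul ck) i00 hs
  have j1 := ii_of t0 ((hk.f mh).mul ck) i00 hs
  have j2 := ii_of t0 ((hk.f m1).mul ck) i00 hs
  have key : ∫ r in (0 : ℝ)..s, k.fh z r * c.k0 t r
      = lp z (∫ r in (0 : ℝ)..s, k.fh 0 r * c.k0 t r)
        (∫ r in (0 : ℝ)..s, k.fh (1 / 2) r * c.k0 t r)
        (∫ r in (0 : ℝ)..s, k.fh 1 r * c.k0 t r) := by
    unfold lp
    by_cases h2 : z ≤ 1 / 2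
    · rw [if_pos h2]
      have e1 : ∀ r, k.fh z r * c.k0 t r = (1 - 2 * z) * (k.fh 0 r * c.k0 t r)
          + 2 * z * (k.fh (1 / 2) r * c.k0 t r) := fun r => by
        rw [fh_lp k r (z := z)]
        unfold lp
        rw [if_pos h2]
        ring
      simp only [e1]
      have ha := intervalIntegral.integral_add (μ := volume) (a := 0) (b := s)
        (f := fun r => (1 - 2 * z) * (k.fh 0 r * c.k0 t r))
        (g := fun r => 2 * z * (k.fh (1 / 2) r * c.k0 t r)) (j0.const_mul _) (j1.const_mul _)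
      rw [ha, intervalIntegral.integral_const_mul, intervalIntegral.integral_const_mul]
    · rw [if_neg h2]
      have e1 : ∀ r, k.fh z r * c.k0 t r = (2 - 2 * z) * (k.fh (1 / 2) r * c.k0 t r)
          + (2 * z - 1) * (k.fh 1 r * c.k0 t r) := fun r => by
        rw [fh_lp k r (z := z)]
        unfold lp
        rw [if_neg h2]
        ring
      simp only [e1]
      have ha := intervalIntegral.integral_add (μ := volume) (a := 0) (b := s)
        (f := fun r => (2 - 2 * z) * (k.fh (1 / 2) r * c.k0 t r))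
        (g := fun r => (2 * z - 1) * (k.fh 1 r * c.k0 t r)) (j1.const_mul _) (j2.const_mul _)
      rw [ha, intervalIntegral.integral_const_mul, intervalIntegral.integral_const_mul]
  rw [key]
  exact (lp_mono hz.1 hz.2 i0 i1 i2).trans (le_of_eq (lp_const _ _))

/-- the bound of the entries of all degrees -/
noncomputable def Cq.sL (R : Tab) (m : ℕ) (t s : ℝ) : ℝ := R.val kEL m t s 0 + R.val kEC m t s 0
/-- the bound of the entries of all degrees, fresh exponents -/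
noncomputable def Cq.sF (R : Tab) (m : ℕ) (t s : ℝ) : ℝ := R.val kEF m t s 0 + R.val kEG m t s 0

theorem Cq.It.sL_le (hI : c.It R m) (t s : ℝ) {p q : ℝ} (p0 : 0 ≤ p) (p1 : p ≤ 1) (q0 : 0 ≤ q)
    (q1 : q ≤ 1) : R.val kEL m t s p + R.val kEC m t s q ≤ Cq.sL R m t s :=
  add_le_add (Tab.val_anti hI.EL t s le_rfl p0 p1) (Tab.val_anti hI.EC t s le_rfl q0 q1)

theorem Cq.It.sF_le (hI : c.It R m) (t s : ℝ) {p q : ℝ} (p0 : 0 ≤ p) (p1 : p ≤ 1) (q0 : 0 ≤ q)
    (q1 : q ≤ 1) : R.val kEF m t s p + R.val kEG m t s q ≤ Cq.sF R m t s :=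
  add_le_add (Tab.val_anti hI.EF t s le_rfl p0 p1) (Tab.val_anti hI.EG t s le_rfl q0 q1)

/-- the densities of the pairs below a multiple of the nodes of the light edges -/
theorem Cq.Fr.fq0 (hF : c.Fr k κd rr) (h : c.Nn) (hk : Kc k κd t) (hx : Wt x P 1)
    (hem : ∀ a b, x a b ≤ c.em) (ht : t ∈ Icc c.T0 c.T1) (b d : V) {s : ℝ} (hs : s ∈ Icc 0 t) :
    K.fq x P k.fh b d s ≤ plx 10 (fun l => c.φ * c.f0 l) (s / t) := by
  have h1 := h.φ1
  by_cases hP : P d
  · have z0 := hx.nonneg b d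
    have z1 := hem b d
    have e2 := h.em1
    have z2 : x b d ≤ 1 / 2 := z1.trans e2
    unfold K.fq
    rw [if_pos hP]
    refine (hF.fh ht hs (x_mem hx b d)).trans (plx_mono (fun l hl => ?_) _)
    have f0 := h.f0 l hl
    have hφ := h.φe l hl
    unfold lp
    rw [if_pos z2]
    -- linear in the weight
    rcases le_total (c.f1 l) (c.f0 l) with hf | hf
    · have a1 : 2 * x b d * (c.f1 l - c.f0 l) ≤ 0 :=
        mul_nonpos_of_nonneg_of_nonpos (by linarith) (by linarith)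
      have a2 : c.f0 l ≤ c.φ * c.f0 l := by
        have := mul_le_mul_of_nonneg_right h1 f0.le
        linarith
      linarith
    · have a1 : 2 * x b d * (c.f1 l - c.f0 l) ≤ 2 * c.em * (c.f1 l - c.f0 l) :=
        mul_le_mul_of_nonneg_right (by linarith) (by linarith)
      linarith
  · unfold K.fq
    rw [if_neg hP]
    refine ((hk.qq_le hs).trans (hF.fh0 t ht s hs)).trans (plx_mono (fun l hl => ?_) _)
    have f0 := h.f0 l hl
    have := mul_le_mul_of_nonneg_right h1 f0.le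
    linarith

/-- the integral of an entry of the deleted exponents -/
theorem Cq.It.entL (h : c.Nn) (hI : c.It R m) (hF : c.Fr k κd rr) (hk : Kc k κd t)
    (hx : Wt x P 1) (hem : ∀ a b, x a b ≤ c.em) (ht : t ∈ Icc c.T0 c.T1) (b d : V) {p q : ℝ}
    (hp : p ∈ Icc (0 : ℝ) 1) (hq : q ∈ Icc (0 : ℝ) 1) :
    ∫ s in (0 : ℝ)..t, K.fq x P k.fh b d s * c.k0 t s
        * (R.val kEL m t s p + R.val kEC m t s q)
      ≤ c.S t * (c.φ * (tri3 10 c.f0 c.κ (fun l => (R.r kEL m l).ev p)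
        + tri3 10 c.f0 c.κ (fun l => (R.r kEC m l).ev q))) := by
  have t0 := hk.t01.1
  have cf : ContinuousOn (K.fq x P k.fh b d) (Icc 0 t) :=
    (fq_cont' hk.fc hx b d).mono (Icc_subset_Icc_right hk.t01.2)
  have ck := (c.k0_cont t).continuousOn (s := Icc 0 t)
  have i00 : (0 : ℝ) ∈ Icc 0 t := ⟨le_rfl, t0⟩
  have itt : t ∈ Icc 0 t := ⟨t0, le_rfl⟩
  have one : ∀ {K' : ℕ}, Tab.ex K' = 2 → ∀ {p : ℝ}, p ∈ Icc (0 : ℝ) 1 →
      ∫ s in (0 : ℝ)..t, K.fq x P k.fh b d s * c.k0 t s * R.val K' m t s p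
        ≤ c.S t * (c.φ * tri3 10 c.f0 c.κ (fun l => (R.r K' m l).ev p)) := by
    intro K' hK' p hp
    have h1 := int3_val (R := R) (K := K') (m := m) hK' t0 hp cf ck
      (fun s hs => fq_nonneg' hk.ok hx b d ⟨hs.1, hs.2.trans hk.t01.2⟩)
      (fun s _ => h.k0_nonneg s) (fun s hs => hF.fq0 h hk hx hem ht b d hs) (fun s _ => le_rfl)
      (B := c.φ * tri3 10 c.f0 c.κ (fun l => (R.r K' m l).ev p)) (by rw [tri3_smul1])
    exact hI.S h t0 (mul_nonneg (zero_le_one.trans h.φ1)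
      (tri3_nonneg (fun l hl => (h.f0 l hl).le) h.κ
      fun l _ => Cub.ev_nonneg _ hp.1 hp.2)) h1
  have e : ∀ s, K.fq x P k.fh b d s * c.k0 t s
        * (R.val kEL m t s p + R.val kEC m t s q)
      = K.fq x P k.fh b d s * c.k0 t s * R.val kEL m t s p
        + K.fq x P k.fh b d s * c.k0 t s * R.val kEC m t s q := fun s => by ring
  simp only [e]
  have hadd := intervalIntegral.integral_add (μ := volume) (a := 0) (b := t)
    (f := fun s => K.fq x P k.fh b d s * c.k0 t s * R.val kEL m t s p)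
    (g := fun s => K.fq x P k.fh b d s * c.k0 t s * R.val kEC m t s q)
    (ii_of t0 ((cf.mul ck).mul (R.val_cont kEL m t p).continuousOn) i00 itt)
    (ii_of t0 ((cf.mul ck).mul (R.val_cont kEC m t q).continuousOn) i00 itt)
  rw [hadd, mul_add, mul_add]
  exact add_le_add (one (K' := kEL) rfl hp) (one (K' := kEC) rfl hq)

/-- the integral of an entry of the fresh exponents -/
theorem Cq.It.entF (h : c.Nn) (hI : c.It R m) (hk : Kc k κd t) (ht : t ∈ Icc c.T0 c.T1)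
    {p q : ℝ} (hp : p ∈ Icc (0 : ℝ) 1) (hq : q ∈ Icc (0 : ℝ) 1) :
    ∫ s in (0 : ℝ)..t, c.Fs t s * (c.ρm t s * (R.val kEF m t s p + R.val kEG m t s q))
      ≤ c.S t * (tri3 10 c.Φ c.ρx (fun l => (R.r kEF m l).ev p)
        + tri3 10 c.Φ c.ρx (fun l => (R.r kEG m l).ev q)) := by
  have t0 := hk.t01.1
  have i00 : (0 : ℝ) ∈ Icc 0 t := ⟨le_rfl, t0⟩
  have itt : t ∈ Icc 0 t := ⟨t0, le_rfl⟩
  have cF := (plx_div_cont 10 c.Φ t).continuousOn (s := Icc 0 t)
  have cρ := (c.ρm_cont t).continuousOn (s := Icc 0 t)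
  have n0 : ∀ {K : ℕ} {p : ℝ}, p ∈ Icc (0 : ℝ) 1 →
      0 ≤ tri3 10 c.Φ c.ρx (fun l => (R.r K m l).ev p) := fun hp => tri3_nonneg h.Φ
    (fun l hl => (h.ρ0 l hl).trans (le_max_left _ _))
    fun l _ => Cub.ev_nonneg _ hp.1 hp.2
  have one : ∀ {K : ℕ}, Tab.ex K = 1 → ∀ {p : ℝ}, p ∈ Icc (0 : ℝ) 1 →
      t * ∫ s in (0 : ℝ)..t, plx 10 c.Φ (s / t) * c.ρm t s * R.val K m t s p
        ≤ c.S t * tri3 10 c.Φ c.ρx (fun l => (R.r K m l).ev p) := by
    intro K hK p hp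
    have h1 := int3_rel (R := R) (K := K) (m := m) hK t0 hp cF cρ
      (fun s _ => plx_nonneg h.Φ _) (fun s _ => h.ρm_nonneg s)
      (fun s _ => le_rfl) (fun s _ => le_rfl) le_rfl (n0 hp)
    exact hI.S h t0 (n0 hp) h1
  have e : ∀ s, c.Fs t s * (c.ρm t s * (R.val kEF m t s p + R.val kEG m t s q))
      = t * (plx 10 c.Φ (s / t) * c.ρm t s * R.val kEF m t s p
        + plx 10 c.Φ (s / t) * c.ρm t s * R.val kEG m t s q) := fun s => by
    unfold Cq.Fs; ring
  simp only [e]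
  have hadd := intervalIntegral.integral_add (μ := volume) (a := 0) (b := t)
    (f := fun s => plx 10 c.Φ (s / t) * c.ρm t s * R.val kEF m t s p)
    (g := fun s => plx 10 c.Φ (s / t) * c.ρm t s * R.val kEG m t s q)
    (ii_of t0 ((cF.mul cρ).mul (R.val_cont kEF m t p).continuousOn) i00 itt)
    (ii_of t0 ((cF.mul cρ).mul (R.val_cont kEG m t q).continuousOn) i00 itt)
  rw [intervalIntegral.integral_const_mul, hadd, mul_add, mul_add]
  exact add_le_add (one (K := kEF) rfl hp) (one (K := kEG) rfl hq)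

/-- **the rows, columns and entries** -/
theorem Rw.pw2 (hw : Rw x P rr Rh L Lt a b t R m) (h : c.Nn) (hI : c.It R m)
    (hF : c.Fr k κd rr) (hk : Kc k κd t) (hx : Wt x P 1) (hem : ∀ a b, x a b ≤ c.em)
    (hab : a ≠ b) (ht : t ∈ Icc c.T0 c.T1) :
    Pw2 x P k κd Rh L Lt a b t t (c.k0 t) (c.Fs t) (c.ρm t) (fun _ _ => 1)
      (rv R kRL m t) (rv R kCL m t) (rv R kRF m t) (rv R kCF m t)
      (Cq.sL R m t) (Cq.sF R m t)
      (c.S t * (c.φ * (tri3 10 c.f0 c.κ (fun l => (R.r kEL m l).ev 0)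
        + tri3 10 c.f0 c.κ (fun l => (R.r kEC m l).ev 0))))
      (c.S t * (tri3 10 c.Φ c.ρx (fun l => (R.r kEF m l).ev 0)
        + tri3 10 c.Φ c.ρx (fun l => (R.r kEG m l).ev 0))) := by
  have t0 := hk.t01.1
  have T10 : 0 ≤ c.T1 := h.T0.trans h.T01
  have z0 : (0 : ℝ) ∈ Icc (0 : ℝ) 1 := ⟨le_rfl, zero_le_one⟩
  have S0 := h.S_nonneg t0
  have dg : ∀ {d : V}, d ∈ ({a, b} : Finset V)ᶜ → 0 ≤ x a d + x b d ∧ x a d + x b d ≤ 1 :=
    fun hd => ⟨add_nonneg (hx.nonneg _ _) (hx.nonneg _ _), (dm_of hx hab hd).2.2.2.2.2⟩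
  have sub3 : ∀ {c d : V}, d ∈ ({a, b, c} : Finset V)ᶜ → d ∈ ({a, b} : Finset V)ᶜ := fun hd => by
    rw [mem3] at hd
    exact mem2.2 ⟨hd.1, hd.2.1⟩
  exact
  { γ0 := t0
    cκ0 := (c.k0_cont t).continuousOn
    k0 := fun s _ => h.k0_nonneg s
    hκ := fun w hw s hs => hF.κ t ht s hs w hw
    cFs := (c.Fs_cont t).continuousOn
    Fs0 := fun s _ => h.Fs_nonneg t0 s
    hF := fun d _ s hs => hI.mass h hF hk hx ht b d hs
    cρ := (c.ρm_cont t).continuousOn
    ρ0 := fun s _ => h.ρm_nonneg s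
    hR := fun d s hs => by
      have xn := hx.nonneg b d
      by_cases hP : P d
      · refine (hw.hR d hP s hs).trans (mul_le_mul_of_nonneg_left ?_ xn)
        exact (hF.rr t ht s hs _ ⟨hx.nonneg b d, hem b d⟩).trans (Cq.ρz_le (x_mem hx b d) s)
      · refine (hw.hR' d hP s hs).trans (mul_le_mul_of_nonneg_left ?_ xn)
        refine le_trans ?_ (hF.ρm1 hs)
        exact inv_le_one_of_one_le₀ (by linarith [hs.1])
    cw := fun _ => continuousOn_const
    w0 := fun _ _ _ => zero_lt_one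
    cl1 := fun y z _ _ _ => rv_cont R kRL m t y z
    cl2 := fun y z _ _ _ => rv_cont R kCL m t y z
    ch1 := fun y z _ _ _ => rv_cont R kRF m t y z
    ch2 := fun y z _ _ _ => rv_cont R kCF m t y z
    r1 := fun c hc s hs => by
      simp only [inv_one, mul_one]
      exact hw.r1 c hc s hs
    r2 := fun d hd s hs => by
      simp only [mul_one]
      exact hw.r2 d hd s hs
    r3 := fun c hc s hs => by
      simp only [inv_one, mul_one]
      exact hw.r3 c hc s hs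
    r4 := fun d hd s hs => by
      simp only [mul_one]
      exact hw.r4 d hd s hs
    pd := hw.pd
    cS := ((R.val_cont kEL m t 0).add (R.val_cont kEC m t 0)).continuousOn
    cSt := ((R.val_cont kEF m t 0).add (R.val_cont kEG m t 0)).continuousOn
    St0 := fun s _ => add_nonneg (R.val_nonneg _ _ _ _ le_rfl zero_le_one)
      (R.val_nonneg _ _ _ _ le_rfl zero_le_one)
    eL := fun c hc d hd hPc hPd s hs => (hw.eL c hc d hd hPc hPd s hs).trans
      (hI.sL_le t s (dg (sub3 hd)).1 (dg (sub3 hd)).2 (dg hc).1 (dg hc).2)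
    eT := fun c hc d hd hPc hPd s hs => (hw.eT c hc d hd hPc hPd s hs).trans
      (hI.sF_le t s (dg (sub3 hd)).1 (dg (sub3 hd)).2 (dg hc).1 (dg hc).2)
    eA := fun d _ => hI.entL h hF hk hx hem ht b d z0 z0
    eB := hI.entF h hk ht z0 z0
    BA0 := mul_nonneg S0 (mul_nonneg (zero_le_one.trans h.φ1) (add_nonneg
      (tri3_nonneg (fun l hl => (h.f0 l hl).le) h.κ
      fun l _ => Cub.ev_nonneg _ le_rfl zero_le_one) (tri3_nonneg (fun l hl => (h.f0 l hl).le) h.κ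
      fun l _ => Cub.ev_nonneg _ le_rfl zero_le_one)))
    BB0 := mul_nonneg S0 (add_nonneg (tri3_nonneg h.Φ
      (fun l hl => (h.ρ0 l hl).trans (le_max_left _ _))
      fun l _ => Cub.ev_nonneg _ le_rfl zero_le_one) (tri3_nonneg h.Φ
      (fun l hl => (h.ρ0 l hl).trans (le_max_left _ _))
      fun l _ => Cub.ev_nonneg _ le_rfl zero_le_one)) }

/-- **entries above the thresholds, rows below** -/
theorem Rw.eh (hw : Rw x P rr Rh L Lt a b t R m) (h : c.Nn) (hI : c.It R m)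
    (hF : c.Fr k κd rr) (hk : Kc k κd t) (hf : Lf N k κd Rh L Lt) (hx : Wt x P 1)
    (hem : ∀ a b, x a b ≤ c.em) (ha : P a) (hb : P b) (hab : a ≠ b)
    (ht : t ∈ Icc c.T0 c.T1) :
    Eh x P k L Lt a b t t (c.k0 t) (c.Fs t) (c.ρm t) (c.qa * c.th / c.φ) c.qb
      (fun y z => c.S t * c.HA (y + z)) (fun y z => c.S t * c.HB (y + z))
      (fun y z => c.S t * (c.φ * (c.K1 (y + z) / c.th))) (fun y z => c.S t * c.RB (y + z)) := by
  have t0 := hk.t01.1
  have t1 := hk.t01.2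
  have T10 : 0 ≤ c.T1 := h.T0.trans h.T01
  have S0 := h.S_nonneg t0
  have i00 : (0 : ℝ) ∈ Icc 0 t := ⟨le_rfl, t0⟩
  have itt : t ∈ Icc 0 t := ⟨t0, le_rfl⟩
  have cf : ∀ d, ContinuousOn (K.fq x P k.fh b d) (Icc 0 t) := fun d =>
    (fq_cont' hk.fc hx b d).mono (Icc_subset_Icc_right hk.t01.2)
  have f00 : ∀ d, ∀ s ∈ Icc 0 t, 0 ≤ K.fq x P k.fh b d s := fun d s hs =>
    fq_nonneg' hk.ok hx b d ⟨hs.1, hs.2.trans hk.t01.2⟩
  have ck := (c.k0_cont t).continuousOn (s := Icc 0 t)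
  have cL : ∀ c d, ContinuousOn (L a b c d t) (Icc 0 t) := fun c d =>
    (hf.cL a b c d).slice hf.N0 hk.t01
  have cLt : ∀ c d, ContinuousOn (Lt a b c d t) (Icc 0 t) := fun c d =>
    (hf.cLt a b c d).slice hf.N0 hk.t01
  have L0 : ∀ c d, ∀ s ∈ Icc 0 t, 0 ≤ L a b c d t s := fun c d s hs =>
    hf.L0 a b c d t s hs.1 hs.2 t1
  have Lt0 : ∀ c d, ∀ s ∈ Icc 0 t, 0 ≤ Lt a b c d t s := fun c d s hs =>
    hf.Lt0 a b c d t s hs.1 hs.2 t1
  have dg : ∀ {d : V}, d ∈ ({a, b} : Finset V)ᶜ → x a d + x b d ∈ Icc (0 : ℝ) 1 :=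
    fun hd => ⟨add_nonneg (hx.nonneg _ _) (hx.nonneg _ _), (dm_of hx hab hd).2.2.2.2.2⟩
  have sub3 : ∀ {c d : V}, d ∈ ({a, b, c} : Finset V)ᶜ → d ∈ ({a, b} : Finset V)ᶜ := fun hd => by
    rw [mem3] at hd
    exact mem2.2 ⟨hd.1, hd.2.1⟩
  have cval : ∀ (K : ℕ) (p : ℝ), ContinuousOn (fun s => R.val K m t s p) (Icc 0 t) :=
    fun K p => (R.val_cont K m t p).continuousOn
  have cF := (c.Fs_cont t).continuousOn (s := Icc 0 t)
  have cρ := (c.ρm_cont t).continuousOn (s := Icc 0 t)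
  refine
  { qA0 := div_nonneg (mul_nonneg h.qa h.th.le) (zero_le_one.trans h.φ1)
    qB0 := h.qb
    HA0 := fun y z y0 z0 yz => mul_nonneg S0 (h.HA _ ⟨add_nonneg y0 z0, yz⟩)
    HB0 := fun y z y0 z0 yz => mul_nonneg S0 (h.HB _ ⟨add_nonneg y0 z0, yz⟩)
    eA := fun c' hc d hd hPc hPd => ?_
    eB := fun c' hc d hd hPc hPd => ?_
    rA := fun c' hc hPc => ?_
    rB := fun c' hc hPc => ?_ }
  · -- entries of the deleted exponents
    have hdd := dg (sub3 hd)
    have hcc := dg hc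
    have xa := x_mem hx a d
    have xb := x_mem hx b d
    have p0 : 0 ≤ x b d * (1 + t * x a d) :=
      mul_nonneg xb.1 (by have := mul_nonneg t0 xa.1; linarith)
    have p1 : x b d * (1 + t * x a d) ≤ x a d + x b d := by
      have a1 : x b d * (t * x a d) ≤ 1 * (1 * x a d) :=
        mul_le_mul xb.2 (mul_le_mul_of_nonneg_right t1 xa.1) (mul_nonneg t0 xa.1) zero_le_one
      linarith
    set p := x b d * (1 + t * x a d) with hp
    have pm : p ∈ Icc (0 : ℝ) 1 := ⟨p0, p1.trans hdd.2⟩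
    have pe : p ∈ Icc (0 : ℝ) c.pm := by
      refine ⟨p0, le_trans ?_ h.pm⟩
      rw [hp]
      have e1 := hem b d
      have e2 := hem a d
      have e3 : t * x a d ≤ c.T1 * c.em := mul_le_mul ht.2 e2 xa.1 T10
      exact mul_le_mul e1 (by linarith) (by have := mul_nonneg t0 xa.1; linarith) h.em
    set I := ∫ s in (0 : ℝ)..t, K.fq x P k.fh b d s * c.k0 t s * L a b c' d t s with hI'
    have I0 : 0 ≤ I := intervalIntegral.integral_nonneg t0 fun s hs =>
      mul_nonneg (mul_nonneg (f00 d s hs) (h.k0_nonneg s)) (L0 c' d s hs)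
    have hA0 := h.HA _ hcc
    have φp : 0 < c.φ := zero_lt_one.trans_le h.φ1
    have hq : p ≤ c.qa * c.th / c.φ := by
      rw [le_div_iff₀ φp]
      have := mul_le_mul_of_nonneg_left pe.2 φp.le
      linarith [hI.qap]
    exact (mul_nonpos_of_nonpos_of_nonneg (sub_nonpos.2 hq) I0).trans
      (mul_nonneg p0 (mul_nonneg S0 hA0))
  · -- entries of the fresh exponents
    have hdd := dg (sub3 hd)
    have hcc := dg hc
    have xa := x_mem hx a d
    have xb := x_mem hx b d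
    have p1 : x b d ≤ x a d + x b d := by linarith [xa.1]
    set p := x b d with hp
    set I := ∫ s in (0 : ℝ)..t, c.Fs t s * (c.ρm t s * Lt a b c' d t s) with hI'
    have I0 : 0 ≤ I := intervalIntegral.integral_nonneg t0 fun s hs =>
      mul_nonneg (h.Fs_nonneg t0 s) (mul_nonneg (h.ρm_nonneg s) (Lt0 c' d s hs))
    have hB0 := h.HB _ hcc
    have hq : p ≤ c.qb := (hem b d).trans hI.qbe
    exact (mul_nonpos_of_nonpos_of_nonneg (sub_nonpos.2 hq) I0).trans
      (mul_nonneg xb.1 (mul_nonneg S0 hB0))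
  · -- rows of the deleted exponents
    have hcc := dg hc
    have cp : ContinuousOn (fun s => plx 10 (fun l => c.φ * c.f0 l) (s / t)) (Icc 0 t) :=
      (plx_div_cont 10 _ t).continuousOn
    have φ0 : 0 ≤ c.φ := zero_le_one.trans h.φ1
    have cr : ∀ d, ContinuousOn (rP P L a b c' d t) (Icc 0 t) := fun d => by
      unfold rP
      split_ifs
      · exact cL c' d
      · exact continuousOn_const
    have h1 : ∑ d ∈ ({a, b, c'} : Finset V)ᶜ, (if P d then
        ∫ s in (0 : ℝ)..t, K.fq x P k.fh b d s * c.k0 t s * L a b c' d t s else 0)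
        ≤ ∑ d ∈ ({a, b, c'} : Finset V)ᶜ,
          ∫ s in (0 : ℝ)..t, c.k0 t s * plx 10 (fun l => c.φ * c.f0 l) (s / t) * rP P L a b c' d t s := by
      refine Finset.sum_le_sum fun d hd => ?_
      by_cases hPd : P d
      · rw [if_pos hPd]
        refine intervalIntegral.integral_mono_on t0 (ii_of t0 (((cf d).mul ck).mul (cL c' d))
          i00 itt) (ii_of t0 ((ck.mul cp).mul (cr d)) i00 itt) fun s hs => ?_
        have e : rP P L a b c' d t s = L a b c' d t s := by unfold rP; rw [if_pos ⟨hPc, hPd⟩]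
        rw [e, mul_comm (c.k0 t s)]
        exact mul_le_mul_of_nonneg_right (mul_le_mul_of_nonneg_right
          (hF.fq0 h hk hx hem ht b d hs) (h.k0_nonneg s)) (L0 c' d s hs)
      · rw [if_neg hPd]
        refine intervalIntegral.integral_nonneg t0 fun s hs => ?_
        have e : rP P L a b c' d t s = 0 := by
          unfold rP; rw [if_neg fun h => hPd h.2]
        rw [e, mul_zero]
    have h2 : ∑ d ∈ ({a, b, c'} : Finset V)ᶜ,
          ∫ s in (0 : ℝ)..t, c.k0 t s * plx 10 (fun l => c.φ * c.f0 l) (s / t) * rP P L a b c' d t s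
        = ∫ s in (0 : ℝ)..t, c.k0 t s * plx 10 (fun l => c.φ * c.f0 l) (s / t)
          * ∑ d ∈ ({a, b, c'} : Finset V)ᶜ, rP P L a b c' d t s := by
      rw [← intervalIntegral.integral_finsetSum]
      · simp only [Finset.mul_sum]
      · exact fun d _ => ii_of t0 ((ck.mul cp).mul (cr d)) i00 itt
    have h3 : ∫ s in (0 : ℝ)..t, c.k0 t s * plx 10 (fun l => c.φ * c.f0 l) (s / t)
          * ∑ d ∈ ({a, b, c'} : Finset V)ᶜ, rP P L a b c' d t s
        ≤ ∫ s in (0 : ℝ)..t, c.k0 t s * plx 10 (fun l => c.φ * c.f0 l) (s / t)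
          * R.val kRL m t s (x a c' + x b c') := by
      refine intervalIntegral.integral_mono_on t0 (ii_of t0 ((ck.mul cp).mul
        (continuousOn_finsetSum _ fun d _ => cr d)) i00 itt)
        (ii_of t0 ((ck.mul cp).mul (cval _ _)) i00 itt) fun s hs => ?_
      exact mul_le_mul_of_nonneg_left (hw.r1 c' hc s hs) (mul_nonneg (h.k0_nonneg s)
        (plx_nonneg (fun l hl => mul_nonneg φ0 (h.f0 l hl).le) _))
    have h4 := hI.p1 h hk hcc
    have h6 : ∫ s in (0 : ℝ)..t, c.k0 t s * plx 10 c.f0 (s / t)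
          * R.val kRL m t s (x a c' + x b c') ≤ c.S t * (c.K1 (x a c' + x b c') / c.th) := by
      have thp := h.th
      rw [← mul_div_assoc, le_div_iff₀ thp]
      linarith
    have h5 : ∫ s in (0 : ℝ)..t, c.k0 t s * plx 10 (fun l => c.φ * c.f0 l) (s / t)
          * R.val kRL m t s (x a c' + x b c')
          ≤ c.S t * (c.φ * (c.K1 (x a c' + x b c') / c.th)) := by
      have e : ∀ s, c.k0 t s * plx 10 (fun l => c.φ * c.f0 l) (s / t)
          * R.val kRL m t s (x a c' + x b c')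
          = c.φ * (c.k0 t s * plx 10 c.f0 (s / t) * R.val kRL m t s (x a c' + x b c')) :=
        fun s => by rw [plx_smul]; ring
      simp only [e]
      rw [intervalIntegral.integral_const_mul]
      have := mul_le_mul_of_nonneg_left h6 φ0
      linarith
    rw [h2] at h1
    exact h1.trans (h3.trans h5)
  · -- rows of the fresh exponents
    have hcc := dg hc
    have cr : ∀ d, ContinuousOn (rP P Lt a b c' d t) (Icc 0 t) := fun d => by
      unfold rP
      split_ifs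
      · exact cLt c' d
      · exact continuousOn_const
    have h1 : ∑ d ∈ ({a, b, c'} : Finset V)ᶜ, (if P d then
        ∫ s in (0 : ℝ)..t, c.Fs t s * (c.ρm t s * Lt a b c' d t s) else 0)
        ≤ ∑ d ∈ ({a, b, c'} : Finset V)ᶜ,
          ∫ s in (0 : ℝ)..t, c.Fs t s * (c.ρm t s * rP P Lt a b c' d t s) := by
      refine Finset.sum_le_sum fun d hd => ?_
      by_cases hPd : P d
      · rw [if_pos hPd]
        refine le_of_eq (intervalIntegral.integral_congr fun s _ => ?_)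
        beta_reduce
        have e : rP P Lt a b c' d t s = Lt a b c' d t s := by unfold rP; rw [if_pos ⟨hPc, hPd⟩]
        rw [e]
      · rw [if_neg hPd]
        refine intervalIntegral.integral_nonneg t0 fun s hs => ?_
        have e : rP P Lt a b c' d t s = 0 := by
          unfold rP; rw [if_neg fun h => hPd h.2]
        rw [e, mul_zero, mul_zero]
    have h2 : ∑ d ∈ ({a, b, c'} : Finset V)ᶜ,
          ∫ s in (0 : ℝ)..t, c.Fs t s * (c.ρm t s * rP P Lt a b c' d t s)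
        = ∫ s in (0 : ℝ)..t, c.Fs t s * (c.ρm t s
          * ∑ d ∈ ({a, b, c'} : Finset V)ᶜ, rP P Lt a b c' d t s) := by
      rw [← intervalIntegral.integral_finsetSum]
      · simp only [Finset.mul_sum]
      · exact fun d _ => ii_of t0 (cF.mul (cρ.mul (cr d))) i00 itt
    have h3 : ∫ s in (0 : ℝ)..t, c.Fs t s * (c.ρm t s
          * ∑ d ∈ ({a, b, c'} : Finset V)ᶜ, rP P Lt a b c' d t s)
        ≤ ∫ s in (0 : ℝ)..t, t * (plx 10 c.Φ (s / t) * c.ρm t s
          * R.val kRF m t s (x a c' + x b c')) := by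
      refine intervalIntegral.integral_mono_on t0 (ii_of t0 (cF.mul (cρ.mul
        (continuousOn_finsetSum _ fun d _ => cr d))) i00 itt)
        (ii_of t0 (continuousOn_const.mul (((plx_div_cont 10 c.Φ t).continuousOn.mul cρ).mul
          (cval _ _))) i00 itt) fun s hs => ?_
      have := mul_le_mul_of_nonneg_left (mul_le_mul_of_nonneg_left (hw.r3 c' hc s hs)
        (h.ρm_nonneg (t := t) s)) (h.Fs_nonneg (c := c) t0 s)
      refine this.trans (le_of_eq ?_)
      unfold Cq.Fs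
      ring
    have n0 : 0 ≤ tri3 10 c.Φ c.ρx (fun l => (R.r kRF m l).ev (x a c' + x b c')) :=
      tri3_nonneg h.Φ (fun l hl => (h.ρ0 l hl).trans (le_max_left _ _))
      fun l _ => Cub.ev_nonneg _ hcc.1 hcc.2
    have h4 := int3_rel (R := R) (K := kRF) (m := m) rfl t0 hcc
      (plx_div_cont 10 c.Φ t).continuousOn cρ
      (fun s _ => plx_nonneg h.Φ _) (fun s _ => h.ρm_nonneg s)
      (fun s _ => le_rfl) (fun s _ => le_rfl) le_rfl n0
    replace h4 := hI.S h t0 n0 h4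
    rw [intervalIntegral.integral_const_mul] at h3
    have h7 := mul_le_mul_of_nonneg_left (hI.RB _ hcc) S0
    rw [h2] at h1
    beta_reduce
    exact h1.trans (h3.trans (h4.trans h7))

theorem Rw.pc2 (hw : Rw x P rr Rh L Lt a b t R m) :
    Pc2 x P L Lt a b t (rv R kCL m t) (rv R kCF m t) where
  cc2 := fun y z _ _ _ => rv_cont R kCL m t y z
  cc4 := fun y z _ _ _ => rv_cont R kCF m t y z
  q2 := fun d hd _ s hs => hw.r2 d hd s hs
  q4 := fun d hd _ s hs => hw.r4 d hd s hs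

/-- the symmetrisation with a function whose product with the weight increases -/
theorem lp_sym {c0 c1 c2 : ℝ} (p0 : 0 ≤ c0) (p1 : 0 ≤ c1) (p2 : 0 ≤ c2) (h1 : c0 ≤ 2 * c1)
    (h2 : 2 * c1 ≤ 3 * c2) {y z : ℝ} (y0 : 0 ≤ y) (z0 : 0 ≤ z) (yz : y + z ≤ 1) :
    y * z * (lp y c0 c1 c2 + lp z c0 c1 c2) ≤ y ^ 2 * lp y c0 c1 c2 + z ^ 2 * lp z c0 c1 c2 := by
  -- `y g(y)` increases
  have mono : ∀ a b : ℝ, 0 ≤ a → a ≤ b → b ≤ 1 → a * lp a c0 c1 c2 ≤ b * lp b c0 c1 c2 := by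
    have lo : ∀ a b : ℝ, 0 ≤ a → a ≤ b → b ≤ 1 / 2 →
        a * ((1 - 2 * a) * c0 + 2 * a * c1) ≤ b * ((1 - 2 * b) * c0 + 2 * b * c1) := by
      intro a b a0 ab b1
      have e : b * ((1 - 2 * b) * c0 + 2 * b * c1) - a * ((1 - 2 * a) * c0 + 2 * a * c1)
          = (b - a) * (c0 * (1 - a - b) + (a + b) * (2 * c1 - c0)) := by ring
      have n1 : 0 ≤ c0 * (1 - a - b) := mul_nonneg p0 (by linarith)
      have n2 : 0 ≤ (a + b) * (2 * c1 - c0) := mul_nonneg (by linarith) (by linarith)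
      have := mul_nonneg (sub_nonneg.2 ab) (add_nonneg n1 n2)
      linarith
    have hi : ∀ a b : ℝ, 1 / 2 ≤ a → a ≤ b → b ≤ 1 →
        a * ((2 - 2 * a) * c1 + (2 * a - 1) * c2) ≤ b * ((2 - 2 * b) * c1 + (2 * b - 1) * c2) := by
      intro a b a0 ab b1
      have e : b * ((2 - 2 * b) * c1 + (2 * b - 1) * c2)
          - a * ((2 - 2 * a) * c1 + (2 * a - 1) * c2)
          = (b - a) * ((2 - a - b) * c2 + (a + b - 1) * (3 * c2 - 2 * c1)) := by ring
      have n1 : 0 ≤ (2 - a - b) * c2 := mul_nonneg (by linarith) p2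
      have n2 : 0 ≤ (a + b - 1) * (3 * c2 - 2 * c1) := mul_nonneg (by linarith) (by linarith)
      have := mul_nonneg (sub_nonneg.2 ab) (add_nonneg n1 n2)
      linarith
    intro a b a0 ab b1
    unfold lp
    rcases le_or_gt b (1 / 2) with hb | hb
    · rw [if_pos hb, if_pos (ab.trans hb)]
      exact lo a b a0 ab hb
    · rw [if_neg (not_le.2 hb)]
      rcases le_or_gt a (1 / 2) with ha | ha
      · rw [if_pos ha]
        have i1 := lo a (1 / 2) a0 ha le_rfl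
        have i2 := hi (1 / 2) b le_rfl hb.le b1
        have e1 : (1 / 2 : ℝ) * ((1 - 2 * (1 / 2)) * c0 + 2 * (1 / 2) * c1)
            = 1 / 2 * ((2 - 2 * (1 / 2)) * c1 + (2 * (1 / 2) - 1) * c2) := by ring
        linarith
      · rw [if_neg (not_le.2 ha)]
        exact hi a b ha.le ab b1
  have e : y ^ 2 * lp y c0 c1 c2 + z ^ 2 * lp z c0 c1 c2
      - y * z * (lp y c0 c1 c2 + lp z c0 c1 c2)
      = (y - z) * (y * lp y c0 c1 c2 - z * lp z c0 c1 c2) := by ring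
  rcases le_total y z with hyz | hyz
  · have i := mono y z y0 hyz (by linarith)
    have := mul_nonneg (sub_nonneg.2 hyz) (sub_nonneg.2 i)
    linarith
  · have i := mono z y z0 hyz (by linarith)
    have := mul_nonneg (sub_nonneg.2 hyz) (sub_nonneg.2 i)
    linarith

end Pool.Agent.RZ.RCN.K
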