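import Pool.Agent.RZ.RCO.J2d
import Pool.Agent.RZ.RCO.T1g

/-! The second type on a cell of the time: the bounds of the rates (MP_73ccd0_lc). -/

namespace Pool.Agent.RZ.RCN.K

open Set Finset MeasureTheory Pool.Agent.RZ.RCRSHalf Pool.Agent.RZ.RCG Pool.Agent.RZ.RCG.Ct
open Pool.Agent.RZ.RCN.Ker Pool.Agent.RZ.RCRS Pool.Agent.RZ.RCM.Jen Pool.Agent.RZ.RCO.RT Pool.Agent.RZ.RCM

set_option linter.unusedSectionVars false
set_option linter.unusedVariables false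

variable {V : Type*} [Fintype V] [DecidableEq V]
variable {x : V → V → ℝ} {P : V → Prop} [DecidablePred P] {k : Kf} {N : ℕ}
variable {κd : ℝ → ℝ → ℝ → ℝ} {Rh : V → V → V → ℝ → ℝ → ℝ} {L Lt : V → V → V → V → ℝ → ℝ → ℝ}
variable {a b : V} {t γ : ℝ} {κ0 Fs : ℝ → ℝ}

/-- the mass of all fluxes up to `s` -/
theorem mua_leY (hf : Lf N k κd Rh L Lt) (hx : Wt x P 1) (hk : k.Ok)
    (hfc : ∀ y ∈ Icc (0 : ℝ) 1, ContinuousOn (k.fh y) (Icc 0 1)) (ht : t ∈ Icc (0 : ℝ) 1)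
    (γ0 : 0 ≤ γ) (cκ0 : ContinuousOn κ0 (Icc 0 t))
    (hκ : ∀ w ∈ Icc (0 : ℝ) 1, ∀ s ∈ Icc 0 t, κd w t s ≤ κ0 s * (1 + γ * w))
    (Fs0 : ∀ s ∈ Icc 0 t, 0 ≤ Fs s)
    (hF : ∀ d ∈ ({a, b} : Finset V)ᶜ, ∀ s ∈ Icc 0 t,
      ∫ r in (0 : ℝ)..s, fq x P k.fh b d r * κ0 r ≤ Fs s) (hab : a ≠ b) {s : ℝ}
    (hs : s ∈ Icc 0 t) :
    mua x P k κd a b t s ≤ ((1 + γ * x a b) * (1 - x a b)
      + γ * ∑ d ∈ ({a, b} : Finset V)ᶜ, x b d * x a d) * Fs s := by
  have cfq : ∀ d, ContinuousOn (fq x P k.fh b d) (Icc 0 t) := fun d =>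
    (fq_cont' hfc hx b d).mono (Icc_subset_Icc_right ht.2)
  have m0 : (0 : ℝ) ∈ Icc 0 t := ⟨le_rfl, ht.1⟩
  have u0 := hx.nonneg a b
  have hq : ∀ d, ∀ r ∈ Icc 0 t, 0 ≤ fq x P k.fh b d r := fun d r hr =>
    fq_nonneg' hk hx b d ⟨hr.1, hr.2.trans ht.2⟩
  have h2 : ∀ d ∈ ({a, b} : Finset V)ᶜ, ∫ r in (0 : ℝ)..s, flx x P k κd a b d t r
      ≤ x b d * (1 + γ * (x a b + x a d)) * Fs s := by
    intro d hd
    have hd' := hd
    rw [mem2] at hd'
    have hw := two_mem hx a (Ne.symm hd'.2)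
    have v0 := hx.nonneg b d
    have w0 := hx.nonneg a d
    have i0 : ∫ r in (0 : ℝ)..s, flx x P k κd a b d t r
        ≤ ∫ r in (0 : ℝ)..s, (x b d * (1 + γ * (x a b + x a d)))
          * (fq x P k.fh b d r * κ0 r) := by
      refine intervalIntegral.integral_mono_on hs.1
        (ii_of ht.1 (flx_slice hf hx hfc a b d ht) m0 hs)
        (ii_of ht.1 (continuousOn_const.mul ((cfq d).mul cκ0)) m0 hs) fun r hr => ?_
      have hr' : r ∈ Icc 0 t := ⟨hr.1, hr.2.trans hs.2⟩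
      unfold flx
      have := mul_le_mul_of_nonneg_left (hκ _ hw r hr') (mul_nonneg v0 (hq d r hr'))
      calc _ ≤ x b d * fq x P k.fh b d r * (κ0 r * (1 + γ * (x a b + x a d))) := this
        _ = _ := by ring
    rw [intervalIntegral.integral_const_mul] at i0
    have g0 : 0 ≤ x b d * (1 + γ * (x a b + x a d)) :=
      mul_nonneg v0 (by nlinarith)
    exact i0.trans (mul_le_mul_of_nonneg_left (hF d hd s hs) g0)
  have e : mua x P k κd a b t s
      = ∑ d ∈ ({a, b} : Finset V)ᶜ, ∫ r in (0 : ℝ)..s, flx x P k κd a b d t r := by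
    unfold mua
    exact intervalIntegral.integral_finsetSum fun d _ =>
      ii_of ht.1 (flx_slice hf hx hfc a b d ht) m0 hs
  rw [e]
  refine (Finset.sum_le_sum h2).trans ?_
  rw [← Finset.sum_mul]
  refine mul_le_mul_of_nonneg_right ?_ (Fs0 s hs)
  have r1 := row_one hx b a (({a, b} : Finset V)ᶜ) fun d hd => by
    rw [mem2] at hd; exact hd.1
  rw [hx.symm b a] at r1
  have e2 : ∑ d ∈ ({a, b} : Finset V)ᶜ, x b d * (1 + γ * (x a b + x a d))
      = (1 + γ * x a b) * ∑ d ∈ ({a, b} : Finset V)ᶜ, x b d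
        + γ * ∑ d ∈ ({a, b} : Finset V)ᶜ, x b d * x a d := by
    rw [Finset.mul_sum, Finset.mul_sum, ← Finset.sum_add_distrib]
    exact Finset.sum_congr rfl fun d _ => by ring
  rw [e2]
  have g1 : 0 ≤ 1 + γ * x a b := by have := mul_nonneg γ0 u0; linarith
  exact add_le_add (mul_le_mul_of_nonneg_left r1 g1) le_rfl

variable {c : Cq} {rr : ℝ → ℝ → ℝ} {R : Tab} {m : ℕ}

/-- the bounds of the rates of the second type -/
theorem rtJ_cell (h : c.Nn) (hI : c.It R m) (hF : c.Fr k κd rr) (hk : Kc k κd t)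
    (ht : t ∈ Icc c.T0 c.T1) (hf : Lf N k κd Rh L Lt) (hx : Wt x P 1)
    (hem : ∀ a b, x a b ≤ c.em) (ha : P a)
    (hR : ∀ b e, P b → P e → b ≠ a → e ≠ a → b ≠ e → ∀ s ∈ Icc 0 t,
      Rh b a e t s ≤ x a e * rr (x a e) s)
    (hz : ∀ b e, P b → b ≠ a → ¬P e → ∀ s ∈ Icc 0 t, Rh b a e t s ≤ x a e * (1 + s)⁻¹)
    {s : ℝ} (hs : s ∈ Icc 0 t) :
    RtJ x P k κd Rh a t s (fun v => k.fh v s * c.k0 t s) (fun v => c.Fs t s * c.ρz t v s) 0 1 := by
  have t0 := hk.t01.1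
  have H0 : ∀ v ∈ Icc (0 : ℝ) 1, 0 ≤ c.Fs t s * c.ρz t v s := fun v hv =>
    mul_nonneg (h.Fs_nonneg t0 s) (h.ρz_nonneg hv s)
  have A0 : ∀ v ∈ Icc (0 : ℝ) 1, 0 ≤ k.fh v s * c.k0 t s := fun v hv =>
    mul_nonneg (hk.f0 hv hs) (h.k0_nonneg s)
  have hs1 : s ≤ 1 := hs.2.trans hk.t01.2
  exact
  { A0 := A0
    H0 := H0
    m0 := le_rfl
    m1 := zero_le_one
    M0 := zero_le_one
    ml := fun v hv => by rw [zero_mul]; exact H0 v hv
    Ml := fun v hv => by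
      have := A0 v hv
      linarith
    f0 := fun b e _ _ _ => flux_nonneg hx hk.ok hf.κP b a e hk.t01 hs
    f := fun b e he hba hea hbe => by
      have hw := two_mem hx b (Ne.symm hea)
      have h1 := hF.κ t ht s hs _ hw
      have h2 : fq x P k.fh a e s = k.fh (x a e) s := by unfold fq; rw [if_pos he]
      have h3 := hk.f0 (x_mem hx a e) hs
      unfold flx
      rw [h2]
      have h4 := mul_le_mul_of_nonneg_left h1 (mul_nonneg (hx.nonneg a e) h3)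
      refine h4.trans (le_of_eq ?_)
      unfold Cq.k0
      rw [hx.symm b a]
      ring
    u0 := fun b e _ => mul_nonneg (mua_nonneg hx hk.ok hf.κP b a hk.t01 hs)
      (hf.R0 b a e t s hs.1 hs.2 hk.t01.2)
    u := fun b e hb he hba hea hbe => by
      have h1 := mua_leY (a := b) (b := a) (γ := t) (κ0 := c.k0 t) (Fs := c.Fs t) hf hx hk.ok
        hk.fc hk.t01 t0 (c.k0_cont t).continuousOn (fun w hw r hr => hF.κ t ht r hr w hw)
        (fun r _ => h.Fs_nonneg t0 r)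
        (fun d _ r hr => hI.mass h hF hk hx ht a d hr) hba hs
      have h2 := (hR b e hb he hba hea hbe s hs).trans
        (mul_le_mul_of_nonneg_left (hF.rr t ht s hs _ ⟨hx.nonneg a e, hem a e⟩) (hx.nonneg a e))
      have h3 := hf.R0 b a e t s hs.1 hs.2 hk.t01.2
      have h4 := mua_nonneg hx hk.ok hf.κP b a hk.t01 hs
      have h5 := mul_le_mul h1 h2 h3 (h4.trans h1)
      refine h5.trans (le_of_eq ?_)
      have e1 : ∑ d ∈ ({b, a} : Finset V)ᶜ, x a d * x b d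
          = ∑ e ∈ ({a, b} : Finset V)ᶜ, x b e * x a e := by
        rw [Finset.pair_comm b a]
        exact Finset.sum_congr rfl fun e _ => mul_comm _ _
      rw [e1, hx.symm b a]
      unfold Cq.ρz
      ring
    z := fun b e hb hba he h0 => by
      have h1 := hz b e hb hba he s hs
      rw [h0, zero_mul] at h1
      exact le_antisymm h1 (hf.R0 b a e t s hs.1 hs.2 hk.t01.2) }

end Pool.Agent.RZ.RCN.K
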