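import Pool.Agent.RZ.RCO.J2j

/-! The second type on a cell of the time: the function `F2` of the weights of a triple
(MP_73ccd0_lc). -/

namespace Pool.Agent.RZ.RCN.K

open Set Finset MeasureTheory Pool.Agent.RZ.RCRSHalf Pool.Agent.RZ.RCG Pool.Agent.RZ.RCG.Ct
open Pool.Agent.RZ.RCN.Ker Pool.Agent.RZ.RCRS Pool.Agent.RZ.RCM.Jen Pool.Agent.RZ.RCO.RT Pool.Agent.RZ.RCM

set_option linter.unusedSectionVars false
set_option linter.unusedVariables false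

/-! ### the data of the second type -/

/-- the numbers of the second type in a cell -/
structure C2 where
  th2 : ℝ
  thh2 : ℝ
  k1 : ℝ
  k3 : ℝ
  io : ℝ
  QA0 : ℝ → ℝ
  QA1 : ℝ → ℝ
  QH0 : ℝ → ℝ
  QH1 : ℝ → ℝ

namespace Cq

variable (c : Cq)

/-- the mass of the entry, truncated -/
noncomputable def Bt (z w : ℝ) : ℝ := min (c.Bf z w) (1 / 2)

/-- the amplification -/
noncomputable def q2 (z w : ℝ) : ℝ := ((1 - c.Bt z w) ^ 2)⁻¹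

/-- the factor of the errors of a triple -/
noncomputable def G2 (u y z : ℝ) : ℝ :=
  lp z c.c0 c.c1 c.c2 * (c.C0 u + c.C1 u * (c.em * (1 - u))) * c.q2 y (u + z)

/-- the direct part of a triple -/
noncomputable def J2 (u y z : ℝ) : ℝ :=
  lp z c.c0 c.c1 c.c2 * ((1 + c.T1 * (u + z)) * lp y c.e0 c.e1 c.e2) * c.q2 y (u + z)

/-- **the function of a triple over `S`, second type** -/
noncomputable def F2 (q : C2) (u y z : ℝ) : ℝ :=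
  1 / 2 * ((1 - y) * c.G2 u y z ^ 2 * (1 + c.T1 * u) ^ 2
      * (q.k1 * c.K1 (y + z) + q.k3 * (1 - u) ^ 2 * c.K3 (y + z))
    + (1 + q.io * u) * lp u (q.QA0 u + q.QH0 u) (q.QA1 u + q.QH1 u) (q.QA1 u + q.QH1 u)
    + (c.J2 u y z + c.J2 y u z))

/-- the conditions of the numbers -/
structure T2 (R : Tab) (m : ℕ) (q : C2) : Prop where
  th2 : 0 < q.th2
  thh2 : 0 < q.thh2
  k1 : q.th2 * (1 + c.T1 * c.em) ^ 2 ≤ q.k1 * c.th
  k3 : q.thh2 * (1 + c.T1 * c.em) ^ 2 ≤ q.k3 * c.thh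
  io : 1 ≤ q.io * (1 - c.em)
  bf : ∀ y ∈ Icc (0 : ℝ) c.em, ∀ w ∈ Icc (0 : ℝ) (2 * c.em), c.Bf y w ≤ 1 / 2
  QA0 : ∀ k ∈ Icc (0 : ℝ) 1,
    tri3 10 c.κ (fun l => c.f0 l ^ 2 / c.f0 l) (fun l => (R.r kSL m l).ev k) ≤ q.th2 * q.QA0 k
  QA1 : ∀ k ∈ Icc (0 : ℝ) 1,
    tri3 10 c.κ (fun l => c.f1 l ^ 2 / c.f0 l) (fun l => (R.r kSL m l).ev k) ≤ q.th2 * q.QA1 k
  QH0 : ∀ k ∈ Icc (0 : ℝ) 1,
    tri3 10 c.Φ (fun l => c.ρ0 l ^ 2) (fun l => (R.r kSF m l).ev k) ≤ q.thh2 * q.QH0 k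
  QH1 : ∀ k ∈ Icc (0 : ℝ) 1,
    tri3 10 c.Φ (fun l => c.ρ1 l ^ 2) (fun l => (R.r kSF m l).ev k) ≤ q.thh2 * q.QH1 k

end Cq

theorem lp_third {z : ℝ} (hz : z ≤ 1 / 2) (a b c c' : ℝ) : lp z a b c = lp z a b c' := by
  unfold lp
  rw [if_pos hz, if_pos hz]

variable {V : Type*} [Fintype V] [DecidableEq V]
variable {x : V → V → ℝ} {P : V → Prop} [DecidablePred P] {k : Kf} {N : ℕ}
variable {κd : ℝ → ℝ → ℝ → ℝ} {Rh : V → V → V → ℝ → ℝ → ℝ} {L Lt : V → V → V → V → ℝ → ℝ → ℝ}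
variable {a b : V} {t : ℝ} {c : Cq} {rr : ℝ → ℝ → ℝ} {R : Tab} {m : ℕ} {q : C2}

/-! ### the integrals -/

section

variable (h : c.Nn) (hI : c.It R m) (hq : c.T2 R m q) (hk : Kc k κd t)

include h hI hq hk

theorem Cq.T2.qa {u : ℝ} (hu : u ∈ Icc (0 : ℝ) c.em) :
    ∫ s in (0 : ℝ)..t, c.k0 t s * plx 10 (fun l => lp u (c.f0 l ^ 2 / c.f0 l)
        (c.f1 l ^ 2 / c.f0 l) (c.f2 l ^ 2 / c.f0 l)) (s / t) * R.val kSL m t s u
      ≤ c.S t * (q.th2 * lp u (q.QA0 u) (q.QA1 u) (q.QA1 u)) := by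
  have t0 := hk.t01.1
  have hu2 : u ≤ 1 / 2 := hu.2.trans h.em1
  have hu1 : u ∈ Icc (0 : ℝ) 1 := ⟨hu.1, by linarith⟩
  have n0 : 0 ≤ tri3 10 c.κ (fun l => lp u (c.f0 l ^ 2 / c.f0 l)
      (c.f1 l ^ 2 / c.f0 l) (c.f2 l ^ 2 / c.f0 l)) (fun l => (R.r kSL m l).ev u) :=
    tri3_nonneg h.κ (fun l hl => by
      have := h.f0 l hl
      exact lp_nonneg hu1.1 hu1.2 (by positivity) (by positivity) (by positivity))
      fun l _ => Cub.ev_nonneg _ hu1.1 hu1.2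
  have hB : tri3 10 c.κ (fun l => lp u (c.f0 l ^ 2 / c.f0 l)
      (c.f1 l ^ 2 / c.f0 l) (c.f2 l ^ 2 / c.f0 l)) (fun l => (R.r kSL m l).ev u)
      ≤ q.th2 * lp u (q.QA0 u) (q.QA1 u) (q.QA1 u) := by
    rw [tri3_lp2, ← lp_smul, lp_third hu2 _ _ _ (q.th2 * q.QA1 u)]
    exact lp_mono hu1.1 hu1.2 (hq.QA0 _ hu1) (hq.QA1 _ hu1) le_rfl
  have h1 := int3_val (R := R) (K := kSL) (m := m) rfl t0 hu1 (c.k0_cont t).continuousOn
    (plx_div_cont 10 (fun l => lp u (c.f0 l ^ 2 / c.f0 l)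
        (c.f1 l ^ 2 / c.f0 l) (c.f2 l ^ 2 / c.f0 l)) t).continuousOn (fun s _ => h.k0_nonneg s)
    (fun s _ => plx_nonneg (fun l hl => by
      have := h.f0 l hl
      exact lp_nonneg hu1.1 hu1.2 (by positivity) (by positivity) (by positivity)) _)
    (fun s _ => le_rfl) (fun s _ => le_rfl) hB
  exact hI.S h t0 (n0.trans hB) h1

theorem Cq.T2.qh {u : ℝ} (hu : u ∈ Icc (0 : ℝ) c.em) :
    ∫ s in (0 : ℝ)..t, c.Fs t s * c.ρz t u s ^ 2 * R.val kSF m t s u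
      ≤ c.S t * (q.thh2 * lp u (q.QH0 u) (q.QH1 u) (q.QH1 u)) := by
  have t0 := hk.t01.1
  have hu2 : u ≤ 1 / 2 := hu.2.trans h.em1
  have hu1 : u ∈ Icc (0 : ℝ) 1 := ⟨hu.1, by linarith⟩
  have e : ∀ s, c.Fs t s * c.ρz t u s ^ 2 * R.val kSF m t s u
      = t * (plx 10 c.Φ (s / t) * c.ρz t u s ^ 2 * R.val kSF m t s u) := fun s => by
    unfold Cq.Fs; ring
  simp only [e]
  rw [intervalIntegral.integral_const_mul]
  have n0 : 0 ≤ tri3 10 c.Φ (fun l => lp u (c.ρ0 l ^ 2) (c.ρ1 l ^ 2) (c.ρ2 l ^ 2))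
      (fun l => (R.r kSF m l).ev u) :=
    tri3_nonneg h.Φ (fun l _ => lp_nonneg hu1.1 hu1.2 (sq_nonneg _) (sq_nonneg _) (sq_nonneg _))
      fun l _ => Cub.ev_nonneg _ hu1.1 hu1.2
  have hB : tri3 10 c.Φ (fun l => lp u (c.ρ0 l ^ 2) (c.ρ1 l ^ 2) (c.ρ2 l ^ 2))
      (fun l => (R.r kSF m l).ev u) ≤ q.thh2 * lp u (q.QH0 u) (q.QH1 u) (q.QH1 u) := by
    rw [tri3_lp2, ← lp_smul, lp_third hu2 _ _ _ (q.thh2 * q.QH1 u)]
    exact lp_mono hu1.1 hu1.2 (hq.QH0 _ hu1) (hq.QH1 _ hu1) le_rfl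
  have h1 := int3_rel (R := R) (K := kSF) (m := m) rfl t0 hu1
    (p := fun s => plx 10 c.Φ (s / t)) (q := fun s => c.ρz t u s ^ 2)
    (plx_div_cont 10 c.Φ t).continuousOn ((c.ρz_cont t u).pow 2).continuousOn
    (fun s _ => plx_nonneg h.Φ _) (fun s _ => sq_nonneg _)
    (fun s _ => le_rfl) (fun s hs => Cq.ρz_sq hu1 hs) hB (n0.trans hB)
  exact hI.S h t0 (n0.trans hB) h1

theorem Cq.T2.r1 {K : ℝ} (hK : K ∈ Icc (0 : ℝ) 1) :
    (1 + c.T1 * c.em) ^ 2 * (q.th2 * ∫ s in (0 : ℝ)..t,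
      c.k0 t s * plx 10 c.f0 (s / t) * R.val kRL m t s K) ≤ c.S t * (q.k1 * c.K1 K) := by
  have h1 := hI.p1 h hk hK
  have thp := h.th
  have S0 := h.S_nonneg hk.t01.1
  have K0 := h.K1 K hK
  set I := ∫ s in (0 : ℝ)..t, c.k0 t s * plx 10 c.f0 (s / t) * R.val kRL m t s K with hI'
  have I0 : 0 ≤ I := intervalIntegral.integral_nonneg hk.t01.1 fun s _ =>
    mul_nonneg (mul_nonneg (h.k0_nonneg s) (plx_nonneg (fun l hl => (h.f0 l hl).le) _))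
      (R.val_nonneg _ _ _ _ hK.1 hK.2)
  have h2 : (q.th2 * (1 + c.T1 * c.em) ^ 2) * I ≤ (q.k1 * c.th) * I :=
    mul_le_mul_of_nonneg_right hq.k1 I0
  have k0 : 0 ≤ q.k1 := by
    have h3 := mul_nonneg hq.th2.le (sq_nonneg (1 + c.T1 * c.em))
    by_contra hn
    push Not at hn
    have := mul_neg_of_neg_of_pos hn thp
    linarith [hq.k1]
  have h3 := mul_le_mul_of_nonneg_left h1 k0
  calc _ = (q.th2 * (1 + c.T1 * c.em) ^ 2) * I := by ring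
    _ ≤ (q.k1 * c.th) * I := h2
    _ = q.k1 * (c.th * I) := by ring
    _ ≤ q.k1 * (c.S t * c.K1 K) := h3
    _ = _ := by ring

theorem Cq.T2.r3 (ht : t ∈ Icc c.T0 c.T1) {K : ℝ} (hK : K ∈ Icc (0 : ℝ) 1) :
    (1 + c.T1 * c.em) ^ 2 * (q.thh2 * ∫ s in (0 : ℝ)..t, c.Fs t s * R.val kRF m t s K)
      ≤ c.S t * (q.k3 * c.K3 K) := by
  have h1 := hI.p3 h hk ht hK
  have thp := h.thh
  have S0 := h.S_nonneg hk.t01.1
  have K0 := h.K3 K hK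
  set I := ∫ s in (0 : ℝ)..t, c.Fs t s * R.val kRF m t s K with hI'
  have I0 : 0 ≤ I := intervalIntegral.integral_nonneg hk.t01.1 fun s _ =>
    mul_nonneg (h.Fs_nonneg hk.t01.1 s) (R.val_nonneg _ _ _ _ hK.1 hK.2)
  have h2 : (q.thh2 * (1 + c.T1 * c.em) ^ 2) * I ≤ (q.k3 * c.thh) * I :=
    mul_le_mul_of_nonneg_right hq.k3 I0
  have k0 : 0 ≤ q.k3 := by
    have h3 := mul_nonneg hq.thh2.le (sq_nonneg (1 + c.T1 * c.em))
    by_contra hn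
    push Not at hn
    have := mul_neg_of_neg_of_pos hn thp
    linarith [hq.k3]
  have h3 := mul_le_mul_of_nonneg_left h1 k0
  calc _ = (q.thh2 * (1 + c.T1 * c.em) ^ 2) * I := by ring
    _ ≤ (q.k3 * c.thh) * I := h2
    _ = q.k3 * (c.thh * I) := by ring
    _ ≤ q.k3 * (c.S t * c.K3 K) := h3
    _ = _ := by ring

end

/-! ### signs -/

theorem Cq.q2_nonneg (z w : ℝ) : 0 ≤ c.q2 z w := by unfold Cq.q2; positivity

theorem Cq.G2_nonneg (h : c.Nn) {u y z : ℝ} (hu : u ∈ Icc (0 : ℝ) c.em)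
    (hz : z ∈ Icc (0 : ℝ) 1) : 0 ≤ c.G2 u y z := by
  unfold Cq.G2
  have em0 := h.em
  have em1 := h.em1
  exact mul_nonneg (mul_nonneg (lp_nonneg hz.1 hz.2 h.c0.le h.c1.le h.c2.le)
    (add_nonneg (h.C0 u hu) (mul_nonneg (h.C1 u hu) (mul_nonneg em0 (by linarith [hu.2])))))
    (Cq.q2_nonneg _ _)

theorem Cq.J2_nonneg (h : c.Nn) {u y z : ℝ} (hu : 0 ≤ u) (hy : y ∈ Icc (0 : ℝ) 1)
    (hz : z ∈ Icc (0 : ℝ) 1) : 0 ≤ c.J2 u y z := by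
  unfold Cq.J2
  have T10 : 0 ≤ c.T1 := h.T0.trans h.T01
  exact mul_nonneg (mul_nonneg (lp_nonneg hz.1 hz.2 h.c0.le h.c1.le h.c2.le)
    (mul_nonneg (by have := mul_nonneg T10 (add_nonneg hu hz.1); linarith)
      (lp_nonneg hy.1 hy.2 h.e0 h.e1 h.e2))) (Cq.q2_nonneg _ _)

/-! ### the star exponents -/

/-- star exponents of the centre `a` at the time `t`: above the exponents of the worlds `{b, a}`,
columns below the table -/
structure Sr (x : V → V → ℝ) (P : V → Prop) [DecidablePred P]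
    (L Lt : V → V → V → V → ℝ → ℝ → ℝ) (a : V) (t : ℝ) (R : Tab) (m : ℕ)
    (Ls Lsf : V → V → ℝ → ℝ) : Prop where
  n : ∀ d e s, 0 ≤ Ls d e s
  nf : ∀ d e s, 0 ≤ Lsf d e s
  l : ∀ b d e, P b → P d → P e → b ≠ a → d ≠ a → e ≠ a → b ≠ d → b ≠ e → d ≠ e →
    ∀ s ∈ Icc 0 t, L b a d e t s ≤ Ls d e s
  lf : ∀ b d e, P b → P d → P e → b ≠ a → d ≠ a → e ≠ a → b ≠ d → b ≠ e → d ≠ e →
    ∀ s ∈ Icc 0 t, Lt b a d e t s ≤ Lsf d e s
  c : ∀ e, P e → e ≠ a → ∀ s ∈ Icc 0 t,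
    ∑ d ∈ ({a, e} : Finset V)ᶜ, (if P d then Ls d e s else 0) ≤ R.val kSL m t s (x a e)
  cf : ∀ e, P e → e ≠ a → ∀ s ∈ Icc 0 t,
    ∑ d ∈ ({a, e} : Finset V)ᶜ, (if P d then Lsf d e s else 0) ≤ R.val kSF m t s (x a e)

/-- the amplitude of a triple in the form of the second type -/
theorem wS_cell (h : c.Nn) (hI : c.It R m) (hF : c.Fr k κd rr) (hX : c.Bx) (hq : c.T2 R m q)
    (ht : t ∈ Icc c.T0 c.T1) (hKc : Kc k κd t)
    (hf : Lf N k κd Rh L Lt) (hx : Wt x P 1) (hem : ∀ a b, x a b ≤ c.em) (hk : k.Ok)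
    (hfc : ∀ y ∈ Icc (0 : ℝ) 1, ContinuousOn (k.fh y) (Icc 0 1))
    (cPe : ∀ w, ContinuousOn (k.Pe w) (Icc 0 1))
    (ha : P a) (hb : P b) {d : V} (hPd : P d) (hD : Gr.D3 a b d)
    (hw : Rw x P rr Rh L Lt b a t R m) :
    wS k.fh k.mb ((xdOf x κd Rh L Lt).E x P k) x P b a d t
      ≤ xr x P b d * (xr x P a d * (c.S t * c.J2 (x a b) (x a d) (x b d))
        + c.G2 (x a b) (x a d) (x b d) * LamL x P k κd Rh L Lt b a d t) := by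
  have hba : b ≠ a := hD.1
  have hd : d ∈ ({b, a} : Finset V)ᶜ := mem2.2 ⟨Ne.symm hD.2.2, hD.2.1⟩
  have key := amp_cell h hI hF hX ht hKc hf hx hem hk hfc cPe hb ha hba hw hd hPd
  have xre : ∀ {u w : V}, P u → P w → xr x P u w = x u w := fun hu hw => by
    unfold xr; rw [if_pos ⟨hu, hw⟩]
  have T10 : 0 ≤ c.T1 := h.T0.trans h.T01
  have t0 := hKc.t01.1
  have S0 := h.S_nonneg t0
  have hu : x a b ∈ Icc (0 : ℝ) c.em := ⟨hx.nonneg a b, hem a b⟩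
  have hy : x a d ∈ Icc (0 : ℝ) c.em := ⟨hx.nonneg a d, hem a d⟩
  have hz : x b d ∈ Icc (0 : ℝ) c.em := ⟨hx.nonneg b d, hem b d⟩
  have hz1 := x_mem hx b d
  have hy1 := x_mem hx a d
  have hΛ := LamL_nonneg (R := Rh) (L := L) (Lt := Lt) hf hx hk b a d hKc.t01
  rw [hx.symm b a] at key
  set u := x a b
  set y := x a d
  set z := x b d
  have huz : u + z ∈ Icc (0 : ℝ) (2 * c.em) :=
    ⟨add_nonneg hu.1 hz.1, by linarith [hu.2, hz.2]⟩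
  have hB := hq.bf y hy (u + z) huz
  have eB : c.Bt y (u + z) = c.Bf y (u + z) := min_eq_left hB
  have p1 : 0 < 1 - c.Bf y (u + z) := by linarith
  have hBm : c.Bm y (u + z) ≤ c.Bf y (u + z) := by
    have em1 := h.em1
    exact (hI.t1v h hF hX hKc ht).bmf y (u + z) hy.1 huz.1 (by linarith [huz.2])
      (by linarith [huz.2, hy.2]) hy.2 huz.2
  have q0 : 0 < (1 - c.Bf y (u + z)) ^ 2 := by positivity
  have l0 : 0 ≤ lp y c.e0 c.e1 c.e2 := lp_nonneg hy1.1 hy1.2 h.e0 h.e1 h.e2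
  have w0 : 0 ≤ 1 + c.T1 * (u + z) := by have := mul_nonneg T10 huz.1; linarith
  have g0 : 0 ≤ (1 + t) * k.fh z t := mul_nonneg (by linarith) (hk.fh_nonneg hz1 hKc.t01)
  have g1 : (1 + t) * k.fh z t ≤ lp z c.c0 c.c1 c.c2 := hF.ch t ht z hz1
  have C0 : 0 ≤ c.C0 u + c.C1 u * (c.em * (1 - u)) := by
    have em0 := h.em
    have em1 := h.em1
    exact add_nonneg (h.C0 u hu) (mul_nonneg (h.C1 u hu) (mul_nonneg em0 (by linarith [hu.2])))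
  -- the direct part
  have d1 : y * (c.S t * ((1 + c.T1 * (u + z)) * lp y c.e0 c.e1 c.e2)
        / ((1 - c.Bm y (u + z)) * (1 - c.Bf y (u + z))))
      ≤ y * (c.S t * ((1 + c.T1 * (u + z)) * lp y c.e0 c.e1 c.e2)
        * ((1 - c.Bf y (u + z)) ^ 2)⁻¹) := by
    refine mul_le_mul_of_nonneg_left ?_ hy.1
    rw [div_eq_mul_inv]
    refine mul_le_mul_of_nonneg_left (inv_anti₀ q0 ?_) (mul_nonneg S0 (mul_nonneg w0 l0))
    rw [sq]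
    exact mul_le_mul_of_nonneg_right (by linarith) p1.le
  have k1 := key.trans (add_le_add_left d1 _)
  have r0 : 0 ≤ y * (c.S t * ((1 + c.T1 * (u + z)) * lp y c.e0 c.e1 c.e2)
        * ((1 - c.Bf y (u + z)) ^ 2)⁻¹)
      + (c.C0 u + c.C1 u * (c.em * (1 - u))) * ((1 - c.Bf y (u + z)) ^ 2)⁻¹
        * LamL x P k κd Rh L Lt b a d t :=
    add_nonneg (mul_nonneg hy.1 (mul_nonneg (mul_nonneg S0 (mul_nonneg w0 l0))
      (inv_nonneg.2 q0.le))) (mul_nonneg (mul_nonneg C0 (inv_nonneg.2 q0.le)) hΛ)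
  have k2 := (mul_le_mul_of_nonneg_left k1 g0).trans (mul_le_mul_of_nonneg_right g1 r0)
  have k3 := mul_le_mul_of_nonneg_left k2 hz.1
  unfold wS
  rw [xre hb hPd, xre ha hPd, show x b d = z from rfl, show x a d = y from rfl]
  refine le_trans (le_of_eq ?_) (k3.trans (le_of_eq ?_))
  · ring
  · unfold Cq.J2 Cq.G2 Cq.q2
    rw [eB]
    ring

end Pool.Agent.RZ.RCN.K
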