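import Pool.Agent.RZ.RCO.J2h
import Pool.Agent.RZ.RCO.J2i
import Pool.Agent.RZ.RCO.J2k

/-! The second type on a cell of the time: the end theorem (MP_73ccd0_lc). -/

namespace Pool.Agent.RZ.RCN.K

open Set Finset MeasureTheory Pool.Agent.RZ.RCRSHalf Pool.Agent.RZ.RCG Pool.Agent.RZ.RCG.Ct
open Pool.Agent.RZ.RCN.Ker Pool.Agent.RZ.RCRS Pool.Agent.RZ.RCM.Jen Pool.Agent.RZ.RCO.RT Pool.Agent.RZ.RCM

set_option linter.unusedSectionVars false
set_option linter.unusedVariables false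

variable {V : Type*} [Fintype V] [DecidableEq V]
variable {x : V → V → ℝ} {P : V → Prop} [DecidablePred P] {k : Kf} {N : ℕ}
variable {κd : ℝ → ℝ → ℝ → ℝ} {Rh : V → V → V → ℝ → ℝ → ℝ} {L Lt : V → V → V → V → ℝ → ℝ → ℝ}
variable {a b : V} {t : ℝ} {c : Cq} {rr : ℝ → ℝ → ℝ} {R : Tab} {m : ℕ} {q : C2}
variable {Ls Lsf : V → V → ℝ → ℝ}

/-- side I at the time `s` -/
noncomputable def sT (c : Cq) (q : C2) (R : Tab) (m : ℕ) (t u y z s : ℝ) : ℝ :=
  1 / 2 * ((1 + c.em * t) ^ 2 * (1 + u * t) ^ 2 * (c.G2 u y z ^ 2 * (1 - y))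
    * (q.th2 * (c.k0 t s * plx 10 c.f0 (s / t) * R.val kRL m t s (y + z))
      + (1 - u) ^ 2 * (q.thh2 * (c.Fs t s * R.val kRF m t s (y + z)))))

/-- side II at the time `s` -/
noncomputable def sC (c : Cq) (q : C2) (R : Tab) (m : ℕ) (t u s : ℝ) : ℝ :=
  1 / 2 * ((c.k0 t s * plx 10 (fun l => lp u (c.f0 l ^ 2 / c.f0 l)
        (c.f1 l ^ 2 / c.f0 l) (c.f2 l ^ 2 / c.f0 l)) (s / t) * R.val kSL m t s u) / q.th2
    + (c.Fs t s * c.ρz t u s ^ 2 * R.val kSF m t s u) / q.thh2)

theorem sT_cont (u y z : ℝ) : ContinuousOn (sT c q R m t u y z) (Icc 0 t) := by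
  unfold sT
  have h1 := (c.k0_cont t).continuousOn (s := Icc 0 t)
  have h2 := (plx_div_cont 10 c.f0 t).continuousOn (s := Icc 0 t)
  have h3 := (c.Fs_cont t).continuousOn (s := Icc 0 t)
  have h4 := (R.val_cont kRL m t (y + z)).continuousOn (s := Icc 0 t)
  have h5 := (R.val_cont kRF m t (y + z)).continuousOn (s := Icc 0 t)
  exact continuousOn_const.mul (continuousOn_const.mul ((continuousOn_const.mul
    ((h1.mul h2).mul h4)).add (continuousOn_const.mul (continuousOn_const.mul (h3.mul h5)))))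

theorem sC_cont (u : ℝ) : ContinuousOn (sC c q R m t u) (Icc 0 t) := by
  unfold sC
  have h1 := (c.k0_cont t).continuousOn (s := Icc 0 t)
  have h2 := (plx_div_cont 10 (fun l => lp u (c.f0 l ^ 2 / c.f0 l)
        (c.f1 l ^ 2 / c.f0 l) (c.f2 l ^ 2 / c.f0 l)) t).continuousOn (s := Icc 0 t)
  have h3 := (c.Fs_cont t).continuousOn (s := Icc 0 t)
  have h6 := (c.ρz_cont t u).continuousOn (s := Icc 0 t)
  have h4 := (R.val_cont kSL m t u).continuousOn (s := Icc 0 t)
  have h5 := (R.val_cont kSF m t u).continuousOn (s := Icc 0 t)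
  exact continuousOn_const.mul (((((h1.mul h2).mul h4)).div_const _).add
    (((h3.mul (h6.pow 2)).mul h5).div_const _))

/-- the integral of side I -/
theorem sT_int (h : c.Nn) (hI : c.It R m) (hq : c.T2 R m q) (hk : Kc k κd t)
    (ht : t ∈ Icc c.T0 c.T1) {u y z : ℝ} (hd : De c.em u y z) :
    ∫ s in (0 : ℝ)..t, sT c q R m t u y z s
      ≤ c.S t * (1 / 2 * ((1 - y) * c.G2 u y z ^ 2 * (1 + c.T1 * u) ^ 2
        * (q.k1 * c.K1 (y + z) + q.k3 * (1 - u) ^ 2 * c.K3 (y + z)))) := by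
  have t0 := hk.t01.1
  have T10 : 0 ≤ c.T1 := h.T0.trans h.T01
  obtain ⟨hu, hy, hz, hK⟩ := hd.1.mem
  have h1 := (c.k0_cont t).continuousOn (s := Icc 0 t)
  have h2 := (plx_div_cont 10 c.f0 t).continuousOn (s := Icc 0 t)
  have h3 := (c.Fs_cont t).continuousOn (s := Icc 0 t)
  have h4 := (R.val_cont kRL m t (y + z)).continuousOn (s := Icc 0 t)
  have h5 := (R.val_cont kRF m t (y + z)).continuousOn (s := Icc 0 t)
  have e : ∫ s in (0 : ℝ)..t, sT c q R m t u y z s
      = 1 / 2 * ((1 + c.em * t) ^ 2 * (1 + u * t) ^ 2 * (c.G2 u y z ^ 2 * (1 - y)))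
        * (q.th2 * (∫ s in (0 : ℝ)..t, c.k0 t s * plx 10 c.f0 (s / t) * R.val kRL m t s (y + z))
          + (1 - u) ^ 2 * (q.thh2 * ∫ s in (0 : ℝ)..t, c.Fs t s * R.val kRF m t s (y + z))) := by
    have e1 : ∀ s, sT c q R m t u y z s
        = 1 / 2 * ((1 + c.em * t) ^ 2 * (1 + u * t) ^ 2 * (c.G2 u y z ^ 2 * (1 - y)))
          * (q.th2 * (c.k0 t s * plx 10 c.f0 (s / t) * R.val kRL m t s (y + z))
            + (1 - u) ^ 2 * (q.thh2 * (c.Fs t s * R.val kRF m t s (y + z)))) := fun s => by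
      unfold sT; ring
    have hadd := intervalIntegral.integral_add (μ := volume) (a := 0) (b := t)
      (f := fun s => q.th2 * (c.k0 t s * plx 10 c.f0 (s / t) * R.val kRL m t s (y + z)))
      (g := fun s => (1 - u) ^ 2 * (q.thh2 * (c.Fs t s * R.val kRF m t s (y + z))))
      (iiC t0 (continuousOn_const.mul ((h1.mul h2).mul h4)))
      (iiC t0 (continuousOn_const.mul (continuousOn_const.mul (h3.mul h5))))
    simp only [e1]
    rw [intervalIntegral.integral_const_mul, hadd,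
      intervalIntegral.integral_const_mul, intervalIntegral.integral_const_mul,
      intervalIntegral.integral_const_mul]
  rw [e]
  have i1 := Cq.T2.r1 h hI hq hk hK
  have i3 := Cq.T2.r3 h hI hq hk ht hK
  set I1 := ∫ s in (0 : ℝ)..t, c.k0 t s * plx 10 c.f0 (s / t) * R.val kRL m t s (y + z) with hI1
  set I3 := ∫ s in (0 : ℝ)..t, c.Fs t s * R.val kRF m t s (y + z) with hI3
  have n1 : 0 ≤ I1 := intervalIntegral.integral_nonneg t0 fun s _ =>
    mul_nonneg (mul_nonneg (h.k0_nonneg s) (plx_nonneg (fun l hl => (h.f0 l hl).le) _))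
      (R.val_nonneg _ _ _ _ hK.1 hK.2)
  have n3 : 0 ≤ I3 := intervalIntegral.integral_nonneg t0 fun s _ =>
    mul_nonneg (h.Fs_nonneg t0 s) (R.val_nonneg _ _ _ _ hK.1 hK.2)
  have em0 := h.em
  have a1 : (1 + c.em * t) ^ 2 ≤ (1 + c.T1 * c.em) ^ 2 := by
    have := mul_le_mul_of_nonneg_left ht.2 em0
    have h0 : 0 ≤ c.em * t := mul_nonneg em0 t0
    exact pow_le_pow_left₀ (by linarith) (by linarith) 2
  have a2 : (1 + u * t) ^ 2 ≤ (1 + c.T1 * u) ^ 2 := by
    have := mul_le_mul_of_nonneg_left ht.2 hu.1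
    have h0 : 0 ≤ u * t := mul_nonneg hu.1 t0
    exact pow_le_pow_left₀ (by linarith) (by linarith) 2
  have s0 : 0 ≤ q.th2 * I1 + (1 - u) ^ 2 * (q.thh2 * I3) := by
    have := hq.th2
    have := hq.thh2
    positivity
  have g0 : 0 ≤ c.G2 u y z ^ 2 * (1 - y) := mul_nonneg (sq_nonneg _) (by linarith [hy.2])
  have b1 : (1 + c.em * t) ^ 2 * (q.th2 * I1 + (1 - u) ^ 2 * (q.thh2 * I3))
      ≤ c.S t * (q.k1 * c.K1 (y + z) + q.k3 * (1 - u) ^ 2 * c.K3 (y + z)) := by
    refine (mul_le_mul_of_nonneg_right a1 s0).trans ?_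
    have := mul_le_mul_of_nonneg_left i3 (sq_nonneg (1 - u))
    linarith
  have b2 := mul_le_mul_of_nonneg_left b1 (mul_nonneg (sq_nonneg (1 + u * t)) g0)
  have b0 : 0 ≤ c.S t * (q.k1 * c.K1 (y + z) + q.k3 * (1 - u) ^ 2 * c.K3 (y + z)) :=
    (mul_nonneg (sq_nonneg _) s0).trans b1
  have b3 := mul_le_mul_of_nonneg_right (mul_le_mul_of_nonneg_right a2 g0) b0
  linarith

/-- the integral of side II -/
theorem sC_int (h : c.Nn) (hI : c.It R m) (hq : c.T2 R m q) (hk : Kc k κd t)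
    {u : ℝ} (hu : u ∈ Icc (0 : ℝ) c.em) :
    ∫ s in (0 : ℝ)..t, sC c q R m t u s
      ≤ c.S t * (1 / 2 * lp u (q.QA0 u + q.QH0 u) (q.QA1 u + q.QH1 u) (q.QA1 u + q.QH1 u)) := by
  have t0 := hk.t01.1
  have h1 := (c.k0_cont t).continuousOn (s := Icc 0 t)
  have h2 := (plx_div_cont 10 (fun l => lp u (c.f0 l ^ 2 / c.f0 l)
        (c.f1 l ^ 2 / c.f0 l) (c.f2 l ^ 2 / c.f0 l)) t).continuousOn (s := Icc 0 t)
  have h3 := (c.Fs_cont t).continuousOn (s := Icc 0 t)
  have h6 := (c.ρz_cont t u).continuousOn (s := Icc 0 t)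
  have h4 := (R.val_cont kSL m t u).continuousOn (s := Icc 0 t)
  have h5 := (R.val_cont kSF m t u).continuousOn (s := Icc 0 t)
  have i1 := Cq.T2.qa h hI hq hk hu
  have i2 := Cq.T2.qh h hI hq hk hu
  have e : ∫ s in (0 : ℝ)..t, sC c q R m t u s
      = 1 / 2 * ((∫ s in (0 : ℝ)..t, c.k0 t s * plx 10 (fun l => lp u (c.f0 l ^ 2 / c.f0 l)
        (c.f1 l ^ 2 / c.f0 l) (c.f2 l ^ 2 / c.f0 l)) (s / t) * R.val kSL m t s u) / q.th2
        + (∫ s in (0 : ℝ)..t, c.Fs t s * c.ρz t u s ^ 2 * R.val kSF m t s u) / q.thh2) := by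
    have hadd := intervalIntegral.integral_add (μ := volume) (a := 0) (b := t)
      (f := fun s => (c.k0 t s * plx 10 (fun l => lp u (c.f0 l ^ 2 / c.f0 l)
        (c.f1 l ^ 2 / c.f0 l) (c.f2 l ^ 2 / c.f0 l)) (s / t) * R.val kSL m t s u) / q.th2)
      (g := fun s => (c.Fs t s * c.ρz t u s ^ 2 * R.val kSF m t s u) / q.thh2)
      (iiC t0 (((h1.mul h2).mul h4).div_const _)) (iiC t0 (((h3.mul (h6.pow 2)).mul h5).div_const _))
    unfold sC
    rw [intervalIntegral.integral_const_mul, hadd,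
      intervalIntegral.integral_div, intervalIntegral.integral_div]
  rw [e]
  have e2 : lp u (q.QA0 u + q.QH0 u) (q.QA1 u + q.QH1 u) (q.QA1 u + q.QH1 u)
      = lp u (q.QA0 u) (q.QA1 u) (q.QA1 u) + lp u (q.QH0 u) (q.QH1 u) (q.QH1 u) := by
    unfold lp
    split_ifs <;> ring
  rw [e2]
  have j1 := (div_le_iff₀ hq.th2).2 (i1.trans (le_of_eq (show c.S t * (q.th2 * lp u (q.QA0 u)
    (q.QA1 u) (q.QA1 u)) = (c.S t * lp u (q.QA0 u) (q.QA1 u) (q.QA1 u)) * q.th2 by ring)))
  have j2 := (div_le_iff₀ hq.thh2).2 (i2.trans (le_of_eq (show c.S t * (q.thh2 * lp u (q.QH0 u)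
    (q.QH1 u) (q.QH1 u)) = (c.S t * lp u (q.QH0 u) (q.QH1 u) (q.QH1 u)) * q.thh2 by ring)))
  linarith

/-- **the second part of the inequality of the centres on a cell** -/
theorem t2_cell (h : c.Nn) (hI : c.It R m) (hF : c.Fr k κd rr) (hX : c.Bx) (hq : c.T2 R m q)
    (ht : t ∈ Icc c.T0 c.T1)
    (hf : Lf N k κd Rh L Lt) (hx : Wt x P 1) (hem : ∀ a b, x a b ≤ c.em)
    (hpz : ∀ a b, ¬ (P a ∧ P b) → x a b = 0) (hk : k.Ok)
    (hfc : ∀ y ∈ Icc (0 : ℝ) 1, ContinuousOn (k.fh y) (Icc 0 1))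
    (cPe : ∀ w, ContinuousOn (k.Pe w) (Icc 0 1))
    (ha : P a) (hw : ∀ b, P b → b ≠ a → Rw x P rr Rh L Lt b a t R m)
    (hs : Sr x P L Lt a t R m Ls Lsf) :
    ∑ b, xr x P a b * ∑ d ∈ ({a, b} : Finset V)ᶜ,
        wS k.fh k.mb ((xdOf x κd Rh L Lt).E x P k) x P b a d t
      ≤ ∑ b, xr x P a b ^ 2 * ∑ d ∈ ({a, b} : Finset V)ᶜ,
        x b d * (c.S t * c.F2 q (x a b) (x a d) (xr x P b d)) := by
  have ht1 : t ∈ Icc (0 : ℝ) 1 := ⟨h.T0.trans ht.1, ht.2.trans h.T1⟩
  have t0 := ht1.1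
  have hwg := wg_xr hx
  have hκ0 : ∀ w ∈ Icc (0 : ℝ) 1, ContinuousOn (κd w t) (Icc 0 t) := fun w _ =>
    (hf.cκ w).slice hf.N0 ht1
  have hKc : Kc k κd t :=
    { ok := hk
      fc := hfc
      kc := hκ0
      k0 := fun w hw s hs => (hk.Pe0 w hw t ht1).trans
        (hf.κP w hw t s hs.1 hs.2 ht1.2)
      t01 := ht1 }
  have S0 := h.S_nonneg t0
  have em0 := h.em
  have em1 := h.em1
  have hxr : ∀ u v, xr x P u v = x u v := fun u v => by
    unfold xr
    split_ifs with h1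
    · rfl
    · exact (hpz u v h1).symm
  have hem' : ∀ a b, P a → P b → x a b ≤ c.em := fun a b _ _ => hem a b
  have hxu : ∀ u v, x u v ∈ Icc (0 : ℝ) c.em := fun u v => ⟨hx.nonneg u v, hem u v⟩
  have hDe : ∀ b d, P b → P d → Gr.D3 a b d → De c.em (x a b) (x a d) (x b d) := fun b d hb hd hD =>
    de_of hx hem' ha hb (Ne.symm hD.1) hd (mem2.2 ⟨hD.2.1, Ne.symm hD.2.2⟩)
  set g : V → V → ℝ := fun b d => c.G2 (x a b) (x a d) (x b d) with hg
  set J : V → V → ℝ := fun b d => c.S t * c.J2 (x a b) (x a d) (x b d) with hJ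
  have g0 : ∀ b d, 0 ≤ g b d := fun b d => Cq.G2_nonneg h (hxu a b) (x_mem hx b d)
  have J0 : ∀ b d, 0 ≤ J b d := fun b d =>
    mul_nonneg S0 (Cq.J2_nonneg h (hx.nonneg a b) (x_mem hx a d) (x_mem hx b d))
  -- the rate at the times `t`, `s`
  have hrate : ∀ s ∈ Icc 0 t, ∑ b ∈ ({a} : Finset V)ᶜ, ∑ d ∈ ({a, b} : Finset V)ᶜ,
        xr x P a b * (xr x P b d * g b d)
        * ∑ e ∈ ({a, b, d} : Finset V)ᶜ, (flx x P k κd b a e t s * L b a d e t s
          + mua x P k κd b a t s * (Rh b a e t s * Lt b a d e t s))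
      ≤ ∑ b ∈ ({a} : Finset V)ᶜ, xr x P a b ^ 2 * (∑ d ∈ ({a, b} : Finset V)ᶜ,
          xr x P b d * sT c q R m t (x a b) (x a d) (x b d) s + sC c q R m t (x a b) s) := by
    intro s hss
    have hk0 := h.k0_nonneg (t := t) s
    have hFs := h.Fs_nonneg (c := c) t0 s
    have d01 := div_mem01 hss
    have pf : 0 < plx 10 c.f0 (s / t) := plx_pos (by norm_num) h.f0 d01.1 d01.2
    have hR := rtJ_cell (Rh := Rh) h hI hF hKc ht hf hx hem ha
      (fun b e hb he hba hea hbe s hs => (hw b hb hba).hR e he s hs)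
      (fun b e hb hba he s hs => (hw b hb hba).hR' e he s hs) hss
    have hL : LbS x P L Lt a t s (fun b d => R.val kRL m t s (x a d + x b d))
        (fun b d => R.val kRF m t s (x a d + x b d)) (fun d e => Ls d e s) (fun d e => Lsf d e s)
        (fun e => R.val kSL m t s (x a e)) (fun e => R.val kSF m t s (x a e)) :=
      { L0 := fun b d e => hf.L0 b a d e t s hss.1 hss.2 ht1.2
        F0 := fun b d e => hf.Lt0 b a d e t s hss.1 hss.2 ht1.2
        pend := fun b d e he h0 => absurd (hpz a e fun h => he h.2) h0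
        rL := fun b d hb hd hD => by
          have := (hw b hb hD.1).r1 d (mem2.2 ⟨Ne.symm hD.2.2, hD.2.1⟩) s hss
          rw [add_comm (x b d)] at this
          refine le_trans (le_of_eq ?_) this
          have e1 : ({a, b, d} : Finset V)ᶜ = ({b, a, d} : Finset V)ᶜ := by
            rw [Finset.insert_comm]
          rw [e1]
          refine Finset.sum_congr rfl fun e _ => ?_
          unfold rP
          by_cases he : P e
          · rw [if_pos he, if_pos ⟨hd, he⟩]
          · rw [if_neg he, if_neg fun h => he h.2]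
        rF := fun b d hb hd hD => by
          have := (hw b hb hD.1).r3 d (mem2.2 ⟨Ne.symm hD.2.2, hD.2.1⟩) s hss
          rw [add_comm (x b d)] at this
          refine le_trans (le_of_eq ?_) this
          have e1 : ({a, b, d} : Finset V)ᶜ = ({b, a, d} : Finset V)ᶜ := by
            rw [Finset.insert_comm]
          rw [e1]
          refine Finset.sum_congr rfl fun e _ => ?_
          unfold rP
          by_cases he : P e
          · rw [if_pos he, if_pos ⟨hd, he⟩]
          · rw [if_neg he, if_neg fun h => he h.2]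
        nL := fun d e => hs.n d e s
        nF := fun d e => hs.nf d e s
        sL := fun b d e hb hd he hD h1 h2 h3 =>
          hs.l b d e hb hd he hD.1 hD.2.1 h1 hD.2.2 (Ne.symm h2) (Ne.symm h3) s hss
        sF := fun b d e hb hd he hD h1 h2 h3 =>
          hs.lf b d e hb hd he hD.1 hD.2.1 h1 hD.2.2 (Ne.symm h2) (Ne.symm h3) s hss
        cL := fun e he hea => hs.c e he hea s hss
        cF := fun e he hea => hs.cf e he hea s hss }
    refine rateS hx ha ht1 (X := c.em) (fun b e => by rw [hxr]; exact hem b e) hR hL g0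
      (σA := q.th2 * (c.k0 t s * plx 10 c.f0 (s / t))) (σH := q.thh2 * c.Fs t s)
      (mul_nonneg hq.th2.le (mul_nonneg hk0 pf.le)) (mul_nonneg hq.thh2.le hFs)
      (fun h0 v _ => ?_) (fun h0 v _ => ?_) (fun b d hb hd hD => ?_) (fun b hb hba => ?_)
    · have : c.k0 t s = 0 := by
        rcases mul_eq_zero.1 h0 with h1 | h1
        · exact absurd h1 hq.th2.ne'
        · rcases mul_eq_zero.1 h1 with h2 | h2
          · exact h2
          · exact absurd h2 pf.ne'
      rw [this, mul_zero]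
    · have : c.Fs t s = 0 := by
        rcases mul_eq_zero.1 h0 with h1 | h1
        · exact absurd h1 hq.thh2.ne'
        · exact h1
      rw [this, zero_mul]
    · -- side I
      rw [hxr, hxr]
      refine le_of_eq ?_
      unfold sT
      rw [hg]
      ring
    · -- side II
      rw [hxr]
      have hu := x_mem hx a b
      have v0 : 0 ≤ R.val kSL m t s (x a b) := R.val_nonneg _ _ _ _ hu.1 hu.2
      unfold sC
      refine mul_le_mul_of_nonneg_left (add_le_add ?_ ?_) (by norm_num)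
      · rcases eq_or_lt_of_le hk0 with k0 | k0
        · rw [← k0]
          simp
        · have e1 : (k.fh (x a b) s * c.k0 t s) ^ 2
              * (R.val kSL m t s (x a b) / (q.th2 * (c.k0 t s * plx 10 c.f0 (s / t))))
              = (c.k0 t s * (k.fh (x a b) s ^ 2 / plx 10 c.f0 (s / t)) * R.val kSL m t s (x a b))
                / q.th2 := by
            have := hq.th2
            field_simp
          rw [e1]
          refine div_le_div_of_nonneg_right (mul_le_mul_of_nonneg_right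
            (mul_le_mul_of_nonneg_left (hF.sq h hKc ht hss hu) hk0) v0) hq.th2.le
      · rcases eq_or_lt_of_le hFs with k0 | k0
        · rw [← k0]
          simp
        · refine le_of_eq ?_
          have := hq.thh2
          field_simp
  have key := T2_leS (a := a) (g := g) hf hx hk hfc ht1 (J := J) g0 J0
    (fun b d hb hd hD => wS_cell h hI hF hX hq ht hKc hf hx hem hk hfc cPe ha hb hd hD
      (hw b hb hD.1))
    (T := fun b d s => sT c q R m t (x a b) (x a d) (x b d) s)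
    (Cc := fun b s => sC c q R m t (x a b) s)
    (ΦT := fun b d => c.S t * (1 / 2 * ((1 - x a d) * c.G2 (x a b) (x a d) (x b d) ^ 2
      * (1 + c.T1 * x a b) ^ 2 * (q.k1 * c.K1 (x a d + x b d)
        + q.k3 * (1 - x a b) ^ 2 * c.K3 (x a d + x b d)))))
    (ΦC := fun b => c.S t * (1 / 2 * lp (x a b) (q.QA0 (x a b) + q.QH0 (x a b))
      (q.QA1 (x a b) + q.QH1 (x a b)) (q.QA1 (x a b) + q.QH1 (x a b))))
    (fun b d => sT_cont _ _ _) (fun b => sC_cont _)
    (fun b d hb hd hD => sT_int h hI hq hKc ht (hDe b d hb hd hD))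
    (fun b hb hba => sC_int h hI hq hKc (hxu a b)) hrate
  refine key.trans ?_
  rw [← Finset.sum_add_sum_compl ({a} : Finset V), Finset.sum_singleton, xr_diag hx a]
  rw [show (0 : ℝ) ^ 2 = 0 by norm_num, zero_mul, zero_add]
  refine Finset.sum_le_sum fun b hb => ?_
  by_cases hPb : P b
  swap
  · have : xr x P a b = 0 := by unfold xr; rw [if_neg fun h => hPb h.2]
    rw [this]
    simp
  refine mul_le_mul_of_nonneg_left ?_ (sq_nonneg _)
  have hba := Gr.B39.mem1 hb
  have hu := hxu a b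
  -- the row of `b`
  have row : ∑ d ∈ ({a, b} : Finset V)ᶜ, x b d = 1 - x a b := by
    have h1 := hx.row1 b hPb
    rw [← Finset.sum_add_sum_compl ({a, b} : Finset V), Finset.sum_pair (Ne.symm hba),
      hx.diag b, hx.symm b a] at h1
    linarith
  set Q := lp (x a b) (q.QA0 (x a b) + q.QH0 (x a b))
      (q.QA1 (x a b) + q.QH1 (x a b)) (q.QA1 (x a b) + q.QH1 (x a b)) with hQ
  have Q0 : 0 ≤ c.S t * (1 / 2 * Q) := by
    refine le_trans ?_ (sC_int (t := t) h hI hq hKc hu)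
    refine intervalIntegral.integral_nonneg t0 fun s hss => ?_
    have hu1 := x_mem hx a b
    have n1 : 0 ≤ plx 10 (fun l => lp (x a b) (c.f0 l ^ 2 / c.f0 l)
        (c.f1 l ^ 2 / c.f0 l) (c.f2 l ^ 2 / c.f0 l)) (s / t) := plx_nonneg (fun l hl => by
      have := h.f0 l hl
      exact lp_nonneg hu1.1 hu1.2 (by positivity) (by positivity) (by positivity)) _
    have n2 := h.k0_nonneg (t := t) s
    have n3 := h.Fs_nonneg (c := c) t0 s
    have n4 := R.val_nonneg kSL m t s hu1.1 hu1.2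
    have n5 := R.val_nonneg kSF m t s hu1.1 hu1.2
    have n6 := hq.th2
    have n7 := hq.thh2
    unfold sC
    positivity
  have hio : 1 ≤ (1 + q.io * x a b) * (1 - x a b) := by
    have i0 : 0 ≤ q.io := by
      by_contra hn
      push Not at hn
      have := mul_nonpos_of_nonpos_of_nonneg hn.le (show 0 ≤ 1 - c.em by linarith)
      linarith [hq.io]
    have h1 : q.io * (1 - c.em) ≤ q.io * (1 - x a b) :=
      mul_le_mul_of_nonneg_left (by linarith [hu.2]) i0
    have h2 : 0 ≤ x a b * (q.io * (1 - x a b) - 1) := mul_nonneg hu.1 (by linarith [hq.io])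
    nlinarith
  have hC : c.S t * (1 / 2 * Q)
      ≤ ∑ d ∈ ({a, b} : Finset V)ᶜ, x b d * (c.S t * (1 / 2 * ((1 + q.io * x a b) * Q))) := by
    rw [← Finset.sum_mul, row]
    have := mul_le_mul_of_nonneg_right hio Q0
    linarith
  refine (add_le_add_right hC _).trans ?_
  rw [← Finset.sum_add_distrib]
  refine Finset.sum_le_sum fun d hd => ?_
  rw [hxr]
  refine le_of_eq ?_
  have e1 : J d b = c.S t * c.J2 (x a d) (x a b) (x b d) := by
    rw [hJ]
    beta_reduce
    rw [hx.symm d b]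
  have e2 : J b d = c.S t * c.J2 (x a b) (x a d) (x b d) := rfl
  rw [e1, e2]
  unfold Cq.F2
  rw [← hQ]
  ring

end Pool.Agent.RZ.RCN.K
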