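import Pool.Agent.RZ.RCO.J2k
import Pool.Agent.RZ.RCO.RTs

/-! The rows, columns and star exponents at one time from the bounds of the table
(MP_73ccd0_lc). -/

namespace Pool.Agent.RZ.RCO

open Set Finset MeasureTheory Pool.Agent.RZ.RCRSHalf Pool.Agent.RZ.RCG Pool.Agent.RZ.RCG.Ct
open Pool.Agent.RZ.RCN Pool.Agent.RZ.RCN.K

set_option linter.unusedSectionVars false

section

variable {V : Type*} [Fintype V] [DecidableEq V]
variable {x : V → V → ℝ} {P : V → Prop} [DecidablePred P]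
variable {R : RT.Tab} {L Lt : V → V → V → V → ℝ → ℝ → ℝ} {Ls Lsf : V → V → V → ℝ → ℝ → ℝ}
variable {a b : V} {m : ℕ} {t : ℝ}

/-- the rates of the released pairs are at most the hazards -/
theorem rha_le_hh {Z : Hzd} {k : Kf} {Th Y : ℝ → ℝ → ℝ} {κd : ℝ → ℝ → ℝ → ℝ} {κ : ℝ}
    (a b d : V) (t s : ℝ) :
    rha Z x P k Th Y κd κ a b d t s ≤ Z.hh x P s b d := min_le_left _ _

/-- **the rows, columns and entries of a pair at one time** -/
theorem rw_of_RTt {Z : Hzd} {k : Kf} {Th Y : ℝ → ℝ → ℝ} {κd : ℝ → ℝ → ℝ → ℝ} {κ : ℝ}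
    (hb : P b) (h : RTt x P R L Lt a b m t) :
    Rw x P Z.rr (rha Z x P k Th Y κd κ) L Lt a b t R m where
  r1 := h.rl
  r2 := h.cl
  r3 := h.rf
  r4 := h.cf
  eL := h.el
  eT := h.ef
  pd := h.pd
  hR := fun d hd s _ => by
    refine (rha_le_hh a b d t s).trans (le_of_eq ?_)
    unfold Hzd.hh
    rw [if_pos ⟨hb, hd⟩]
  hR' := fun d hd s _ => by
    refine (rha_le_hh a b d t s).trans (le_of_eq ?_)
    unfold Hzd.hh
    rw [if_neg fun h => hd h.2]

/-- **the star exponents of a centre at one time** -/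
theorem sr_of_RTS (hs0 : ∀ a d e (t s : ℝ), 0 ≤ Ls a d e t s)
    (hf0 : ∀ a d e (t s : ℝ), 0 ≤ Lsf a d e t s)
    (hsl : ∀ a b, P a → P b → a ≠ b → ∀ d ∈ ({b, a} : Finset V)ᶜ, ∀ e ∈ ({b, a} : Finset V)ᶜ,
      P d → P e → d ≠ e → ∀ t : ℝ, t ≤ 1 → ∀ s ∈ Icc 0 t, L b a d e t s ≤ Ls a d e t s)
    (hsf : ∀ a b, P a → P b → a ≠ b → ∀ d ∈ ({b, a} : Finset V)ᶜ, ∀ e ∈ ({b, a} : Finset V)ᶜ,
      P d → P e → d ≠ e → ∀ t : ℝ, t ≤ 1 → ∀ s ∈ Icc 0 t, Lt b a d e t s ≤ Lsf a d e t s)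
    (ha : P a) (ht : t ≤ 1) (h : RTS x P R Ls Lsf a m t) :
    Sr x P L Lt a t R m (fun d e s => Ls a d e t s) (fun d e s => Lsf a d e t s) := by
  have hset : ∀ e : V, (({a} : Finset V)ᶜ.erase e) = ({a, e} : Finset V)ᶜ := fun e => by
    ext z
    simp only [Finset.mem_erase, Finset.mem_compl, Finset.mem_singleton, Finset.mem_insert,
      not_or]
    exact And.comm
  have mem : ∀ {b d : V}, d ≠ b → d ≠ a → d ∈ ({b, a} : Finset V)ᶜ := fun h1 h2 => by
    simp only [Finset.mem_compl, Finset.mem_insert, Finset.mem_singleton, not_or]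
    exact ⟨h1, h2⟩
  exact
  { n := fun d e s => hs0 a d e t s
    nf := fun d e s => hf0 a d e t s
    l := fun b d e hb hd he hba hda hea hbd hbe hde s hs =>
      hsl a b ha hb (Ne.symm hba) d (mem (Ne.symm hbd) hda) e (mem (Ne.symm hbe) hea) hd he hde
        t ht s hs
    lf := fun b d e hb hd he hba hda hea hbd hbe hde s hs =>
      hsf a b ha hb (Ne.symm hba) d (mem (Ne.symm hbd) hda) e (mem (Ne.symm hbe) hea) hd he hde
        t ht s hs
    c := fun e he hea s hs => by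
      have := h.l e he hea s hs
      rw [Finset.sum_filter, hset] at this
      exact this
    cf := fun e he hea s hs => by
      have := h.f e he hea s hs
      rw [Finset.sum_filter, hset] at this
      exact this }

end

section

variable {V : Type} [Fintype V] [DecidableEq V] {Gr : SimpleGraph V} [Fintype Gr.edgeSet]
  [DecidableEq Gr.edgeSet] {x : Gr.edgeSet → ℝ} [Pool.Agent.RZ.RCG.CX x]

/-- **the input of the cells at one time**: a big cell, the rows of all pairs and the star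
exponents of all centres -/
theorem RTb2.at {R : RT.Tab} {D : Da V} {Ls Lsf : V ⊕ V → V ⊕ V → V ⊕ V → ℝ → ℝ → ℝ}
    (h : RTb2 (xe x) (P0 V) R D.L D.Lt Ls Lsf) {t : ℝ} (ht : t ∈ Icc (0 : ℝ) 1) :
    ∃ m < R.M, R.tn m ≤ t ∧ t ≤ R.tn (m + 1) ∧
      (∀ a b, P0 V a → P0 V b → a ≠ b →
        Rw (xe x) (P0 V) D.Z.rr (D.R x) D.L D.Lt a b t R m) ∧
      ∀ a, P0 V a → Sr (xe x) (P0 V) D.L D.Lt a t R m (fun d e s => Ls a d e t s)
        (fun d e s => Lsf a d e t s) := by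
  obtain ⟨m, hm, h1, h2, h3, h4⟩ := h.B t ht
  exact ⟨m, hm, h1, h2, fun a b ha hb hab => rw_of_RTt hb (h3 a b ha hb hab),
    fun a ha => sr_of_RTS h.s0 h.f0 h.sl h.sf ha ht.2 (h4 a ha)⟩

end

end Pool.Agent.RZ.RCO
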