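import Pool.Agent.RZ.RCO.T1f
import Pool.Agent.RZ.RCO.T1g

/-! **The first part of the inequality of the centres on a cell of the time**: the theorem
(MP_73ccd0_lc). -/

namespace Pool.Agent.RZ.RCN.K

open Set Finset MeasureTheory Pool.Agent.RZ.RCRSHalf Pool.Agent.RZ.RCG Pool.Agent.RZ.RCG.Ct
open Pool.Agent.RZ.RCN.Ker Pool.Agent.RZ.RCRS Pool.Agent.RZ.RCM.Jen Pool.Agent.RZ.RCO.RT

set_option linter.unusedSectionVars false
set_option linter.unusedVariables false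

variable {V : Type*} [Fintype V] [DecidableEq V]
variable {x : V → V → ℝ} {P : V → Prop} [DecidablePred P] {k : Kf} {N : ℕ}
variable {κd : ℝ → ℝ → ℝ → ℝ} {Rh : V → V → V → ℝ → ℝ → ℝ} {L Lt : V → V → V → V → ℝ → ℝ → ℝ}
variable {a b : V} {t : ℝ} {c : Cq} {rr : ℝ → ℝ → ℝ} {R : Tab} {m : ℕ}

theorem Cq.W0_nonneg (h : c.Nn) {u y z : ℝ} (hd : Dm u y z) : 0 ≤ c.W0 u y z := by
  obtain ⟨hu, hy, hz, hK⟩ := hd.mem
  obtain ⟨d1, d2, d3, d4, d5, d6⟩ := id hd
  have T10 : 0 ≤ c.T1 := h.T0.trans h.T01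
  have A0 := h.A_nonneg hz.1 hz.2 hK
  have B0 := h.B_nonneg hz.1 hz.2 hK
  have K10 := h.K1 _ hK
  have K30 := h.K3 _ hK
  have K20 := h.K2_nonneg hz.1 hz.2 hK
  have K40 := h.K4_nonneg hz.1 hz.2 hK
  have vz0 := Cq.vz_nonneg (c := c) d3
  have rz0 := Cq.rz_nonneg (c := c) z (u + y)
  have hh0 := Cq.hh_nonneg h hd
  have qa0 := h.qa
  have nu : 0 ≤ 1 - u := by linarith
  have nuz : 0 ≤ 1 - u - z := by linarith
  unfold Cq.W0
  positivity

theorem Cq.W1_nonneg (h : c.Nn) {u y z : ℝ} (hd : Dm u y z) : 0 ≤ c.W1 u y z := by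
  obtain ⟨hu, hy, hz, hK⟩ := hd.mem
  obtain ⟨d1, d2, d3, d4, d5, d6⟩ := id hd
  have T10 : 0 ≤ c.T1 := h.T0.trans h.T01
  have B0 := h.B_nonneg hz.1 hz.2 hK
  have K30 := h.K3 _ hK
  have K40 := h.K4_nonneg hz.1 hz.2 hK
  have vz0 := Cq.vz_nonneg (c := c) d3
  have rz0 := Cq.rz_nonneg (c := c) z (u + y)
  have hh0 := Cq.hh_nonneg h hd
  unfold Cq.W1
  positivity

theorem Cq.il_nonneg (h : c.Nn) : 0 ≤ c.il := by
  have h1 := h.lam
  have h2 := h.il
  by_contra h3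
  push Not at h3
  nlinarith

/-- the amplification below its two parts -/
theorem Cq.psB_le (z w : ℝ) : psB c.Bf z w ≤ c.v z + c.r z w := by
  unfold Cq.r
  have := le_max_right 0 (psB c.Bf z w - c.v z)
  linarith

theorem Cq.bm_lt (h : c.Nn) (hX : c.Bx) {u y z : ℝ} (hde : De c.em u y z) : c.Bm z (u + y) < 1 := by
  have hd := hde.1
  obtain ⟨hu, hy, hz, hK⟩ := hd.mem
  obtain ⟨d1, d2, d3, d4, d5, d6⟩ := id hd
  have T10 : 0 ≤ c.T1 := h.T0.trans h.T01
  have S1 := h.S_nonneg T10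
  refine lt_of_le_of_lt ?_ (hX.bf u y z hde)
  unfold Cq.Bm Cq.Bf Cq.bh
  have w1 : 0 ≤ 1 + c.T1 * (u + y) := by positivity
  refine mul_le_mul_of_nonneg_left (mul_le_mul_of_nonneg_left (lp_mono hz.1 hz.2 ?_ ?_ ?_) w1) d3
  · have := mul_nonneg S1 h.e0
    linarith [h.β0]
  · have := mul_nonneg S1 h.e1
    linarith [h.β1]
  · have := mul_nonneg S1 h.e2
    linarith [h.β2]

/-- at the time `0` the errors vanish -/
theorem wS_zero (a b d : V) :
    wS k.fh k.mb ((xdOf x κd Rh L Lt).E x P k) x P a b d 0 = 0 := by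
  have e : ∀ a b d, (xdOf x κd Rh L Lt).E x P k a b d 0 = 0 := fun a b d => by
    unfold Xd.E
    rw [intervalIntegral.integral_same]
    show k.mb _ _ _ 0 * 0 + 0 = 0
    ring
  unfold wS emin
  rw [e, e, min_self]
  simp

/-- **the first part of the inequality of the centres on a cell** -/
theorem t1_cell (h : c.Nn) (hI : c.It R m) (hF : c.Fr k κd rr) (hX : c.Bx)
    (hs1 : c.c0 ≤ 2 * c.c1) (hs2 : 2 * c.c1 ≤ 3 * c.c2) (ht : t ∈ Icc c.T0 c.T1)
    (hf : Lf N k κd Rh L Lt) (hx : Wt x P 1) (hem : ∀ a b, x a b ≤ c.em) (hk : k.Ok)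
    (hfc : ∀ y ∈ Icc (0 : ℝ) 1, ContinuousOn (k.fh y) (Icc 0 1))
    (cPe : ∀ w, ContinuousOn (k.Pe w) (Icc 0 1))
    (ha : P a) (hw : ∀ b, P b → a ≠ b → Rw x P rr Rh L Lt a b t R m)
    (hms : ∀ x y z t, k.mb x y z t = k.mb y x z t)
    (hgap : ∀ b d, P b → P d → a ≠ b → a ≠ d → b ≠ d →
      k.mb (xr x P a b) (xr x P a d) (xr x P b d) t
        + min ((xdOf x κd Rh L Lt).E x P k a b d t) ((xdOf x κd Rh L Lt).E x P k a d b t) ≤ 1) :
    ∑ b, xr x P a b * ∑ d ∈ ({a, b} : Finset V)ᶜ,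
        wS k.fh k.mb ((xdOf x κd Rh L Lt).E x P k) x P a b d t
      ≤ ∑ b, xr x P a b ^ 2 * ∑ d ∈ ({a, b} : Finset V)ᶜ,
        x b d * (c.S t * c.F (x a b) (x a d) (xr x P b d)) := by
  have T10 : 0 ≤ c.T1 := h.T0.trans h.T01
  have ht1 : t ∈ Icc (0 : ℝ) 1 := ⟨h.T0.trans ht.1, ht.2.trans h.T1⟩
  have t0 := ht1.1
  rcases eq_or_lt_of_le t0 with t00 | tp
  · -- the time `0`
    rw [← t00]
    have e : c.S 0 = 0 := by unfold Cq.S; ring
    simp only [wS_zero, e, zero_mul, mul_zero, Finset.sum_const_zero, le_refl]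
  have hκ0 : ∀ w ∈ Icc (0 : ℝ) 1, ContinuousOn (κd w t) (Icc 0 t) := fun w _ =>
    (hf.cκ w).slice hf.N0 ht1
  have hKc : Kc k κd t :=
    { ok := hk
      fc := hfc
      kc := hκ0
      k0 := fun w hw s hs => (hk.Pe0 w hw t ht1).trans
        (hf.κP w hw t s hs.1 hs.2 ht1.2)
      t01 := ht1 }
  have S0 := h.S_nonneg t0
  have Sp : 0 < c.S t := by
    have h1 := h.δ
    have h2 := h.μ
    unfold Cq.S
    positivity
  have S1 : c.S t ≤ c.S c.T1 := h.S_mono t0 ht.2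
  have cb := hX.bf
  have il0 := Cq.il_nonneg h
  set g : ℝ → ℝ := fun u => lp u c.c0 c.c1 c.c2 with hg
  have gp : ∀ u ∈ Icc (0 : ℝ) 1, 0 < g u := fun u hu => lp_pos hu.1 hu.2 h.c0 h.c1 h.c2
  have W00 : ∀ u y z, Dm u y z → 0 ≤ c.W0 u y z := fun u y z hd => Cq.W0_nonneg h hd
  have W10 : ∀ u y z, Dm u y z → 0 ≤ c.W1 u y z := fun u y z hd => Cq.W1_nonneg h hd
  have Y0 : ∀ u y z, De c.em u y z → c.Y0 k R m t u y z ≤ z * (c.S t * c.W0 u y z) :=
    fun u y z hd => hI.y0 h hF hX hKc ht hd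
  have Y1 : ∀ u y z, De c.em u y z → 0 ≤ c.Y1 R m t u y z
      ∧ c.Y1 R m t u y z ≤ z * (c.S t * c.W1 u y z) := fun u y z hd => hI.y1 h hX hKc ht hd
  have hem0 := h.em
  have hem1 := h.em1
  have hn : ∀ u ∈ Icc (0 : ℝ) c.em, 0 ≤ c.em * (1 - u) := fun u hu =>
    mul_nonneg hem0 (by linarith [hu.2])
  refine t1_endH (γ := t) (α := t * c.α) (p0 := c.p0) (x0 := c.x0) (m0 := c.m0) (m1 := c.m1)
    (C0 := c.C0) (C1 := c.C1) (hI.t1v h hF hX hKc ht) (fun a b _ _ => hem a b) hf hx hk hfc cPe ht1 ha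
    (hI.al h hF hKc ht) (mul_nonneg t0 h.α) ?hm h.m0 h.m1
    hI.mp h.p0 h.p02 h.x0 hI.px h.C0 h.C1 hI.cj0 hI.cj1
    (fun b hb hab => (hw b hb hab).pw2 h hI hF hKc hx hem hab ht)
    (fun b hb hab => (hw b hb hab).pc2)
    (ρ2 := c.ρz t) (fun z _ => (c.ρz_cont t z).continuousOn)
    (fun z hz s _ => h.ρz_nonneg hz s) ?hR2
    (IA := fun y z => c.S t * ((1 + c.T1 * y) * c.A z (y + z)))
    (IB := fun y z => c.S t * c.B z (y + z))
    (fun y z y0 z0 yz => hI.IA h hF hKc ht y0 z0 yz)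
    (fun y z y0 z0 yz => hI.IB h hF hKc ht y0 z0 yz)
    (fun b hb hab => (hw b hb hab).eh h hI hF hKc hf hx hem ha hb hab ht) ?hcap
    (θ := fun _ => c.θ t) (θh := fun _ _ => c.thh)
    (fun _ => (c.θ_cont t).continuousOn) (fun _ => continuousOn_const)
    (fun _ s hs => h.θ_pos hs) (fun _ _ _ => h.thh)
    (v := fun _ _ z => c.v z) (r := fun u y z => c.r z (u + y))
    (fun u y z hd => h.v_nonneg hd.2.2.1) (fun u y z _ => le_max_left _ _)
    (fun u y z _ => Cq.psB_le z (u + y)) (fun _ u y z hd => (Y1 u y z hd).1)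
    (X := fun u y z => c.S t * (c.C1 u * c.W0 u y z
      + (c.C0 u + c.C1 u * (c.em * (1 - u))) * c.W1 u y z))
    (lam := c.lam / c.S t) (div_pos h.lam Sp)
    (J := fun u y z => c.S t * (c.il * jh u y z)) ?hX
    (ch := g) (g := g) (F1 := fun u y z => c.S t * c.F u y z) hms hgap
    (fun y hy => hF.ch t ht y hy) (fun y hy => (gp y hy).le)
    (fun y z y0 z0 yz => lp_sym h.c0.le h.c1.le h.c2.le hs1 hs2 y0 z0 yz)
    gp ?hJ ?hfin hem0 ?hfin0
  case hm =>
    intro u y z n hde hn1 hn2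
    refine le_trans ?_ (hX.hm u y z n hde hn1 hn2)
    have hd := hde.1
    obtain ⟨hu, hy, hz, hK⟩ := hd.mem
    have nuz : 0 ≤ 1 - u - z := by linarith [hd.2.2.2.2.1]
    have a1 : 1 + t * u ≤ 1 + c.T1 * u := by
      have := mul_le_mul_of_nonneg_right ht.2 hu.1; linarith
    have a0 : 0 ≤ 1 + t * u := by have := mul_nonneg t0 hu.1; linarith
    have nn := sub_nonneg.2 hn1
    have b1 : 1 - u - z + t * (n - z * y) ≤ 1 - u - z + c.T1 * (n - z * y) := by
      have := mul_le_mul_of_nonneg_right ht.2 nn; linarith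
    have b0 : 0 ≤ 1 - u - z + t * (n - z * y) := by have := mul_nonneg t0 nn; linarith
    exact mul_le_mul (mul_le_mul_of_nonneg_right ht.2 h.α) (mul_le_mul a1 b1 b0 (a0.trans a1))
      (mul_nonneg a0 b0) (mul_nonneg T10 h.α)
  case hR2 =>
    intro b d hb hab hd s hs
    refine ((hw b hb hab).hR d hd s hs).trans (mul_le_mul_of_nonneg_left ?_ (hx.nonneg b d))
    exact hF.rr t ht s hs _ ⟨hx.nonneg b d, hem b d⟩
  case hcap =>
    intro u y z n hde hn1 hn2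
    refine le_trans ?_ (hX.cap u y z n hde hn1 hn2)
    have hd := hde.1
    obtain ⟨hu, hy, hz, hK⟩ := hd.mem
    have nuz : 0 ≤ 1 - u - z := by linarith [hd.2.2.2.2.1]
    have a1 : 1 + t * u ≤ 1 + c.T1 * u := by
      have := mul_le_mul_of_nonneg_right ht.2 hu.1; linarith
    have a0 : 0 ≤ 1 + t * u := by have := mul_nonneg t0 hu.1; linarith
    have nn := sub_nonneg.2 hn1
    have b1 : 1 - u - z + t * (n - z * y) ≤ 1 - u - z + c.T1 * (n - z * y) := by
      have := mul_le_mul_of_nonneg_right ht.2 nn; linarith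
    have b0 : 0 ≤ 1 - u - z + t * (n - z * y) := by have := mul_nonneg t0 nn; linarith
    have hh0 := Cq.hh_nonneg h hd
    have K10 := h.K1 _ hK
    have qa0 := h.qa
    have thp := h.th.ne'
    have φp := (zero_lt_one.trans_le h.φ1).ne'
    have e : Lh t (c.qa * c.th / c.φ) c.qb (fun y z => c.S t * c.HA (y + z))
        (fun y z => c.S t * c.HB (y + z)) (fun y z => c.S t * (c.φ * (c.K1 (y + z) / c.th)))
        (fun y z => c.S t * c.RB (y + z)) ((1 + t * u) * (1 - u - z + t * (n - z * y))) u y z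
        = c.S t * ((1 + t * u) * ((1 - u - z + t * (n - z * y)) * c.hh u y z
          + c.qa * c.K1 (y + z))) := by
      unfold Lh Cq.hh
      field_simp
    rw [e]
    have n1 : 0 ≤ (1 - u - z + t * (n - z * y)) * c.hh u y z + c.qa * c.K1 (y + z) := by
      positivity
    have n2 : (1 - u - z + t * (n - z * y)) * c.hh u y z + c.qa * c.K1 (y + z)
        ≤ (1 - u - z + c.T1 * (n - z * y)) * c.hh u y z + c.qa * c.K1 (y + z) := by
      have := mul_le_mul_of_nonneg_right b1 hh0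
      linarith
    exact mul_le_mul S1 (mul_le_mul a1 n2 n1 (a0.trans a1)) (mul_nonneg a0 n1)
      (S0.trans S1)
  case hX =>
    intro u y z hde
    have hd := hde.1
    have hu : u ∈ Icc (0 : ℝ) c.em := ⟨hd.1, hde.2.1⟩
    have z0 := hd.2.2.1
    have i0 := mul_le_mul_of_nonneg_left (Y0 u y z hde) (h.C1 u hu)
    have Cn : 0 ≤ c.C0 u + c.C1 u * (c.em * (1 - u)) :=
      add_nonneg (h.C0 u hu) (mul_nonneg (h.C1 u hu) (hn u hu))
    have i1 := mul_le_mul_of_nonneg_left (Y1 u y z hde).2 Cn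
    refine (add_le_add i0 i1).trans (le_of_eq ?_)
    ring
  case hJ =>
    intro u y z hd
    have hd' : Dm y u z := by
      obtain ⟨u0, y0, z0, h1, h2, h3⟩ := hd
      exact ⟨y0, u0, z0, by linarith, h3, h2⟩
    have h1 := jh_sym hd
    have h2 : 0 ≤ u ^ 2 * jh u y z + y ^ 2 * jh y u z :=
      add_nonneg (mul_nonneg (sq_nonneg _) (jh_nonneg hd)) (mul_nonneg (sq_nonneg _) (jh_nonneg hd'))
    have h3 := mul_le_mul_of_nonneg_right h.il h2
    have e : 2 * (c.lam / c.S t) * (u ^ 2 * (c.S t * (c.il * jh u y z))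
        + y ^ 2 * (c.S t * (c.il * jh y u z)))
        = 2 * c.lam * c.il * (u ^ 2 * jh u y z + y ^ 2 * jh y u z) := by
      field_simp
    rw [e]
    linarith
  case hfin =>
    intro u y z hde
    have hd := hde.1
    have hu : u ∈ Icc (0 : ℝ) c.em := ⟨hd.1, hde.2.1⟩
    have hu1 := hd.mem.1
    have hz0 := hd.2.2.1
    have hy0 := hd.2.1
    have Cn : 0 ≤ c.C0 u + c.C1 u * (z * y) :=
      add_nonneg (h.C0 u hu) (mul_nonneg (h.C1 u hu) (mul_nonneg hz0 hy0))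
    have i0 := mul_le_mul_of_nonneg_left (mul_le_mul_of_nonneg_left (Y0 u y z hde) Cn)
      (gp u hu1).le
    have i0' : g u * ((c.C0 u + c.C1 u * (z * y))
        * W0h k t t (fun y z => c.S t * ((1 + c.T1 * y) * c.A z (y + z)))
        (fun y z => c.S t * c.B z (y + z)) (c.k0 t) (c.Fs t) (c.ρz t)
        (rv R kRL m t) (rv R kCL m t) (rv R kRF m t) (rv R kCF m t) (c.θ t) (fun _ => c.thh)
        (c.qa * c.th / c.φ) c.qb (fun y z => c.S t * c.HA (y + z)) (fun y z => c.S t * c.HB (y + z))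
        (fun y z => c.S t * (c.φ * (c.K1 (y + z) / c.th))) (fun y z => c.S t * c.RB (y + z))
        (fun _ _ z => c.v z) (fun u y z => c.r z (u + y)) u y z)
        ≤ g u * ((c.C0 u + c.C1 u * (z * y)) * (z * (c.S t * c.W0 u y z))) := i0
    have e : z * (c.S t * c.F u y z) = g u * (z * (c.S t * ((1 + c.T1 * (u + y))
        * lp z c.e0 c.e1 c.e2) / ((1 - c.Bm z (u + y)) * (1 - c.Bf z (u + y)))))
        + g u * ((c.C0 u + c.C1 u * (z * y)) * (z * (c.S t * c.W0 u y z)))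
        + z * ((1 - u - z) / 2 * (c.lam / c.S t * u * (g u * (c.S t * (c.C1 u * c.W0 u y z
          + (c.C0 u + c.C1 u * (c.em * (1 - u))) * c.W1 u y z))) ^ 2))
        + z * (c.S t * (c.il * jh u y z)) := by
      have e1 : c.lam / c.S t * u * (g u * (c.S t * (c.C1 u * c.W0 u y z
          + (c.C0 u + c.C1 u * (c.em * (1 - u))) * c.W1 u y z))) ^ 2
          = c.S t * (c.lam * u * c.X u y z ^ 2) := by
        unfold Cq.X
        rw [hg]
        field_simp
      rw [e1]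
      unfold Cq.F
      rw [hg]
      ring
    rw [e]
    rw [mul_add (g u)]
    linarith
  case hfin0 =>
    intro u y hde
    have hd := hde.1
    have hu : u ∈ Icc (0 : ℝ) c.em := ⟨hd.1, hde.2.1⟩
    have hu1 := hd.mem.1
    have b1 := Cq.bm_lt h hX hde
    have b2 := cb u y 0 hde
    have w0 : 0 ≤ 1 + c.T1 * (u + y) := by
      have := mul_nonneg T10 (add_nonneg hd.1 hd.2.1)
      linarith
    have l0 : 0 ≤ lp 0 c.e0 c.e1 c.e2 := lp_nonneg le_rfl zero_le_one h.e0 h.e1 h.e2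
    have n1 : 0 ≤ (1 + c.T1 * (u + y)) * lp 0 c.e0 c.e1 c.e2
        / ((1 - c.Bm 0 (u + y)) * (1 - c.Bf 0 (u + y))) :=
      div_nonneg (mul_nonneg w0 l0) (mul_nonneg (by linarith) (by linarith))
    have n2 : 0 ≤ (c.C0 u + c.C1 u * (0 * y)) * c.W0 u y 0 := by
      rw [zero_mul, mul_zero, add_zero]
      exact mul_nonneg (h.C0 u hu) (W00 u y 0 hd)
    have n4 := mul_nonneg (gp u hu1).le (add_nonneg n1 n2)
    have n5 : 0 ≤ (1 - u - 0) / 2 * (c.lam * u * c.X u y 0 ^ 2) := by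
      have := h.lam
      have h1 : 0 ≤ (1 - u - 0) / 2 := by linarith [hu1.2]
      have h2 := hu.1
      positivity
    have n6 := mul_nonneg il0 (jh_nonneg hd)
    refine mul_nonneg S0 ?_
    unfold Cq.F
    exact add_nonneg n4 (add_nonneg n5 n6)

end Pool.Agent.RZ.RCN.K
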