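import Pool.Agent.RZ.RCO.T1i

/-! The numbers of a cell, checked on natural numbers (MP_73ccd0_lc). -/

namespace Pool.Agent.RZ.RCN.K

open Set Finset Pool.Agent.RZ.RCO.RT Pool.Agent.RZ.RCO.BxN

set_option linter.unusedSectionVars false
set_option linter.unusedVariables false

/-! ### the integral of three factors -/

/-- the contribution of a cell -/
noncomputable def t8 (a a' b b' c c' : ℕ) : ℕ :=
  Nat.add
    (Nat.mul c (Nat.add (Nat.add (Nat.mul 3 (Nat.mul a b)) (Nat.mul a b'))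
      (Nat.add (Nat.mul a' b) (Nat.mul a' b'))))
    (Nat.mul c' (Nat.add (Nat.add (Nat.mul a b) (Nat.mul a b'))
      (Nat.add (Nat.mul a' b) (Nat.mul 3 (Nat.mul a' b')))))

/-- `120 * 2 ^ 60` times the integral -/
noncomputable def tN (u v w : ℕ → ℕ) : ℕ :=
  Nat.rec (motive := fun _ => ℕ) 0
    (fun l ih => Nat.add ih (t8 (u l) (u (Nat.succ l)) (v l) (v (Nat.succ l)) (w l)
      (w (Nat.succ l)))) 10

theorem tN_eq (u v w : ℕ → ℕ) :
    tri3 10 (fun l => rD (u l)) (fun l => rD (v l)) (fun l => rD (w l)) * (120 * 1152921504606846976)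
      = (tN u v w : ℝ) := by
  have e : tN u v w = ∑ l ∈ Finset.range 10,
      (w l * (3 * (u l * v l) + u l * v (l + 1) + (u (l + 1) * v l + u (l + 1) * v (l + 1)))
        + w (l + 1) * (u l * v l + u l * v (l + 1)
          + (u (l + 1) * v l + 3 * (u (l + 1) * v (l + 1))))) := by
    simp only [Finset.sum_range_succ, Finset.sum_range_zero]
    rfl
  rw [e]
  unfold tri3
  push_cast
  rw [Finset.sum_div, Finset.sum_mul]
  refine Finset.sum_congr rfl fun l _ => ?_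
  unfold tri rD
  ring

/-- the coefficients of the integral against a cubic: `x` times them is at most `y` times the
coefficients of `c` -/
noncomputable def cuB (x y : ℕ) (u v : ℕ → ℕ) (w : ℕ → Cub) (c : Cub) : Bool :=
  and (and (Nat.ble (Nat.mul x (tN u v fun l => (w l).1)) (Nat.mul y c.1))
      (Nat.ble (Nat.mul x (tN u v fun l => (w l).2.1)) (Nat.mul y c.2.1)))
    (and (Nat.ble (Nat.mul x (tN u v fun l => (w l).2.2.1)) (Nat.mul y c.2.2.1))
      (Nat.ble (Nat.mul x (tN u v fun l => (w l).2.2.2)) (Nat.mul y c.2.2.2)))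

theorem and_ok' {a b : Bool} (h : and a b = true) : a = true ∧ b = true := by
  cases a
  · cases h
  · exact ⟨rfl, h⟩

theorem evR (p : Cub) (k : ℝ) :
    p.ev k = cubR (rD p.1) (rD p.2.1) (rD p.2.2.1) (rD p.2.2.2) k := by
  unfold Cub.ev cubR RD rD
  push_cast
  rfl

theorem cubR_smul (y a b c d k : ℝ) : y * cubR a b c d k = cubR (y * a) (y * b) (y * c) (y * d) k := by
  unfold cubR; ring

/-- the exact comparison of an integral with a number -/
theorem tN_le {x y : ℕ} {u v w : ℕ → ℕ} {b : ℕ} (h : Nat.ble (Nat.mul x (tN u v w)) (Nat.mul y b) = true) :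
    (x : ℝ) * 131941395333120
        * tri3 10 (fun l => rD (u l)) (fun l => rD (v l)) (fun l => rD (w l)) ≤ y * rD b := by
  have h1 : x * tN u v w ≤ y * b := Nat.le_of_ble_eq_true h
  have h2 : (x : ℝ) * (tN u v w : ℝ) ≤ y * b := by exact_mod_cast h1
  rw [← tN_eq] at h2
  have e : (y : ℝ) * rD b = y * b / 1048576 := by unfold rD; ring
  rw [e, le_div_iff₀ (by norm_num)]
  refine le_trans (le_of_eq ?_) h2
  ring

theorem cuB_ok {x y : ℕ} {u v : ℕ → ℕ} {w : ℕ → Cub} {c : Cub} (h : cuB x y u v w c = true)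
    {k : ℝ} (hk : k ∈ Icc (0 : ℝ) 1) :
    (x : ℝ) * 131941395333120
        * tri3 10 (fun l => rD (u l)) (fun l => rD (v l)) (fun l => (w l).ev k) ≤ y * c.ev k := by
  obtain ⟨h1, h2⟩ := and_ok' h
  obtain ⟨h11, h12⟩ := and_ok' h1
  obtain ⟨h21, h22⟩ := and_ok' h2
  simp only [evR]
  rw [tri3_cub, cubR_smul, cubR_smul]
  exact cubR_mono (tN_le h11) (tN_le h12) (tN_le h21) (tN_le h22) hk.1 hk.2

/-- an integral below a cubic -/
noncomputable def cuA (u v : ℕ → ℕ) (w : ℕ → Cub) (c : Cub) : Bool :=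
  cuB 1 131941395333120 u v w c

theorem cuA_ok {u v : ℕ → ℕ} {w : ℕ → Cub} {c : Cub} (h : cuA u v w c = true)
    {k : ℝ} (hk : k ∈ Icc (0 : ℝ) 1) :
    tri3 10 (fun l => rD (u l)) (fun l => rD (v l)) (fun l => (w l).ev k) ≤ c.ev k := by
  have := cuB_ok h hk
  push_cast at this
  linarith

/-- an integral below a number times a cubic -/
noncomputable def cuK (q : ℕ) (u v : ℕ → ℕ) (w : ℕ → Cub) (c : Cub) : Bool :=
  cuB 1 (Nat.mul 125829120 q) u v w c

theorem cuK_ok {q : ℕ} {u v : ℕ → ℕ} {w : ℕ → Cub} {c : Cub} (h : cuK q u v w c = true)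
    {k : ℝ} (hk : k ∈ Icc (0 : ℝ) 1) :
    tri3 10 (fun l => rD (u l)) (fun l => rD (v l)) (fun l => (w l).ev k) ≤ rD q * c.ev k := by
  have h1 := cuB_ok h hk
  have e : ((Nat.mul 125829120 q : ℕ) : ℝ) = 131941395333120 * rD q := by
    have : ((Nat.mul 125829120 q : ℕ) : ℝ) = 125829120 * (q : ℝ) := by
      exact_mod_cast (rfl : Nat.mul 125829120 q = 125829120 * q)
    rw [this]
    unfold rD
    ring
  rw [e] at h1
  push_cast at h1
  nlinarith

/-- a number times an integral below a cubic -/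
noncomputable def cuT (q : ℕ) (u v : ℕ → ℕ) (w : ℕ → Cub) (c : Cub) : Bool :=
  cuB q 138350580552821637120 u v w c

theorem cuT_ok {q : ℕ} {u v : ℕ → ℕ} {w : ℕ → Cub} {c : Cub} (h : cuT q u v w c = true)
    {k : ℝ} (hk : k ∈ Icc (0 : ℝ) 1) :
    rD q * tri3 10 (fun l => rD (u l)) (fun l => rD (v l)) (fun l => (w l).ev k) ≤ c.ev k := by
  have h1 := cuB_ok h hk
  have e : ((138350580552821637120 : ℕ) : ℝ) = 131941395333120 * 1048576 := by norm_num
  have e2 : (q : ℝ) = rD q * 1048576 := by unfold rD; ring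
  rw [e, e2] at h1
  nlinarith

/-- an integral of two factors -/
noncomputable def tB (u v : ℕ → ℕ) (b : ℕ) : Bool :=
  Nat.ble (Nat.mul 1 (tN u v fun _ => 1048576)) (Nat.mul 131941395333120 b)

theorem tB_ok {u v : ℕ → ℕ} {b : ℕ} (h : tB u v b = true) :
    tri3 10 (fun l => rD (u l)) (fun l => rD (v l)) (fun _ => 1) ≤ rD b := by
  have := tN_le h
  push_cast at this
  simp only [rD_one] at this
  linarith

/-! ### bounded quantifiers -/

/-- all indices below `n` -/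
noncomputable def alN (n : ℕ) (f : ℕ → Bool) : Bool :=
  Nat.rec (motive := fun _ => Bool) true (fun l ih => and (f l) ih) n

theorem alN_ok {f : ℕ → Bool} : ∀ {n : ℕ}, alN n f = true → ∀ i < n, f i = true := by
  intro n
  induction n with
  | zero => exact fun _ i hi => absurd hi (Nat.not_lt_zero i)
  | succ n ih =>
    intro h i hi
    have e : alN (n + 1) f = and (f n) (alN n f) := rfl
    rw [e] at h
    obtain ⟨h1, h2⟩ := and_ok' h
    rcases Nat.lt_succ_iff_lt_or_eq.1 hi with h3 | h3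
    · exact ih h2 i h3
    · rw [h3]; exact h1

/-! ### the mass -/

/-- the distance -/
noncomputable def dst (a b : ℕ) : ℕ := Nat.add (Nat.sub a b) (Nat.sub b a)

theorem dst_cast (a b : ℕ) : ((dst a b : ℕ) : ℝ) = |(a : ℝ) - b| := by
  have e : dst a b = (a - b) + (b - a) := rfl
  rw [e]
  rcases le_total a b with h | h
  · rw [Nat.sub_eq_zero_of_le h, zero_add, Nat.cast_sub h, abs_sub_comm, abs_of_nonneg]
    have : (a : ℝ) ≤ b := by exact_mod_cast h
    linarith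
  · rw [Nat.sub_eq_zero_of_le h, add_zero, Nat.cast_sub h, abs_of_nonneg]
    have : (b : ℝ) ≤ a := by exact_mod_cast h
    linarith

noncomputable def msB (u v : ℕ → ℕ) (C Φ : List ℕ) (E : ℕ) : Bool :=
  and (alN 10 fun l => and
      (Nat.ble (Nat.add (Nat.mul 62914560 (nth C l))
        (Nat.add (Nat.add (Nat.mul 2 (Nat.mul (u l) (v l))) (Nat.mul (u l) (v (Nat.succ l))))
          (Nat.add (Nat.mul (u (Nat.succ l)) (v l))
            (Nat.mul 2 (Nat.mul (u (Nat.succ l)) (v (Nat.succ l)))))))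
        (Nat.mul 62914560 (nth C (Nat.succ l))))
      (Nat.ble (Nat.add (Nat.mul 3 (Nat.mul (u l) (v l)))
        (Nat.mul (dst (u (Nat.succ l)) (u l)) (dst (v (Nat.succ l)) (v l))))
        (Nat.add (Nat.mul 3 (Nat.mul (u (Nat.succ l)) (v (Nat.succ l))))
          (Nat.mul 251658240 E))))
    (alN 11 fun l => Nat.ble (Nat.add (nth C l) E) (nth Φ l))

theorem msB_ok {u v : ℕ → ℕ} {C Φ : List ℕ} {E : ℕ} (h : msB u v C Φ E = true) :
    Mass (fun l => rD (u l)) (fun l => rD (v l)) (fun l => rD (nth Φ l)) := by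
  obtain ⟨h1, h2⟩ := and_ok' h
  refine ⟨fun l => rD (nth C l), rD E, rD_nonneg _, ?_, rD_nonneg _, ?_, ?_⟩
  · intro l hl
    obtain ⟨a, _⟩ := and_ok' (alN_ok h1 l hl)
    have b := Nat.le_of_ble_eq_true a
    have c : 62914560 * nth C l + (2 * (u l * v l) + u l * v (l + 1)
        + (u (l + 1) * v l + 2 * (u (l + 1) * v (l + 1)))) ≤ 62914560 * nth C (l + 1) := b
    have d : (62914560 : ℝ) * nth C l + (2 * (u l * v l) + u l * v (l + 1)
        + (u (l + 1) * v l + 2 * (u (l + 1) * v (l + 1)))) ≤ 62914560 * nth C (l + 1) := by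
      exact_mod_cast c
    unfold bi rD
    rw [← sub_nonneg] at d ⊢
    refine le_of_le_of_eq (div_nonneg d (by norm_num : (0 : ℝ) ≤ 62914560 * 1048576)) ?_
    ring
  · intro l hl
    obtain ⟨_, a⟩ := and_ok' (alN_ok h1 l hl)
    have b := Nat.le_of_ble_eq_true a
    have c : 3 * (u l * v l) + dst (u (l + 1)) (u l) * dst (v (l + 1)) (v l)
        ≤ 3 * (u (l + 1) * v (l + 1)) + 251658240 * E := b
    have d : (3 : ℝ) * (u l * v l) + (dst (u (l + 1)) (u l) : ℕ) * (dst (v (l + 1)) (v l) : ℕ)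
        ≤ 3 * (u (l + 1) * v (l + 1)) + 251658240 * E := by exact_mod_cast c
    rw [dst_cast, dst_cast, ← abs_mul] at d
    have e : |(rD (u (l + 1)) - rD (u l)) * (rD (v (l + 1)) - rD (v l))|
        = |((u (l + 1) : ℝ) - u l) * ((v (l + 1) : ℝ) - v l)| / (1048576 * 1048576) := by
      have e1 : (rD (u (l + 1)) - rD (u l)) * (rD (v (l + 1)) - rD (v l))
          = (((u (l + 1) : ℝ) - u l) * ((v (l + 1) : ℝ) - v l)) / (1048576 * 1048576) := by
        unfold rD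
        ring
      rw [e1, abs_div, abs_of_pos (show (0 : ℝ) < 1048576 * 1048576 by norm_num)]
    rw [e]
    unfold rD
    rw [← sub_nonneg] at d ⊢
    refine le_of_le_of_eq (div_nonneg d (by norm_num : (0 : ℝ) ≤ 6 * (1048576 * 1048576))) ?_
    ring
  · intro l hl
    have a := Nat.le_of_ble_eq_true (alN_ok h2 l (Nat.lt_succ_of_le hl))
    have b : nth C l + E ≤ nth Φ l := a
    have := rD_mono b
    rw [rD_add] at this
    exact this

/-! ### the entries -/

/-! ### the exponential and the constants of the concavity -/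

/-- `1 - exp (- x) ≤ p` by the Padé bound -/
noncomputable def exB (x p : ℕ) : Bool :=
  and (Nat.ble p 1048576)
    (Nat.ble (Nat.add (Nat.add (Nat.mul (Nat.add x 3145728)
        (Nat.mul (Nat.sub 1048576 p) (Nat.sub 1048576 p)))
        (Nat.mul 4194304 (Nat.mul x (Nat.sub 1048576 p)))) (Nat.mul x 1099511627776))
      3458764513820540928)

theorem exB_ok {x p : ℕ} (h : exB x p = true) : 1 - Real.exp (-rD x) ≤ rD p := by
  obtain ⟨h1, h2⟩ := and_ok' h
  have h3 : p ≤ 1048576 := Nat.le_of_ble_eq_true h1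
  have h4 : (x + 3145728) * ((1048576 - p) * (1048576 - p))
      + 4194304 * (x * (1048576 - p)) + x * 1099511627776 ≤ 3458764513820540928 :=
    Nat.le_of_ble_eq_true h2
  have h5 : ((x : ℝ) + 3145728) * (((1048576 - p : ℕ) : ℝ) * ((1048576 - p : ℕ) : ℝ))
      + 4194304 * (x * ((1048576 - p : ℕ) : ℝ)) + x * 1099511627776 ≤ 3458764513820540928 := by
    exact_mod_cast h4
  set E : ℝ := 1 - rD p with hE
  have e1 : ((1048576 - p : ℕ) : ℝ) = 1048576 * E := by
    rw [Nat.cast_sub h3, hE]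
    unfold rD
    push_cast
    ring
  have e2 : (x : ℝ) = 1048576 * rD x := by unfold rD; ring
  rw [e1, e2] at h5
  have E0 : 0 ≤ E := by
    rw [hE]
    have := rD_mono h3
    rw [rD_one] at this
    linarith
  have x0 := rD_nonneg x
  have h6 : (rD x + 3) * E ^ 2 + 4 * rD x * E + rD x ≤ 3 := by nlinarith
  have h7 := Pool.Agent.RZ.RCM.Jen.pade x0
  have e0 := Real.exp_pos (-rD x)
  set e := Real.exp (-rD x)
  by_contra hc
  push Not at hc
  have hlt : e < E := by rw [hE]; linarith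
  have : (rD x + 3) * e ^ 2 + 4 * rD x * e + rD x < (rD x + 3) * E ^ 2 + 4 * rD x * E + rD x := by
    have k1 : e ^ 2 < E ^ 2 := by nlinarith
    have k2 : (rD x + 3) * e ^ 2 < (rD x + 3) * E ^ 2 := mul_lt_mul_of_pos_left k1 (by linarith)
    have k3 : 4 * rD x * e ≤ 4 * rD x * E := mul_le_mul_of_nonneg_left hlt.le (by linarith)
    linarith
  nlinarith

/-- the constant `C` for the ratio `m` and the bound `p` -/
noncomputable def cjB (C m p : ℕ) : Bool :=
  and (and (Nat.ble 1048576 C) (Nat.ble p 2097152))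
    (and (Nat.ble (Nat.mul m p) 1099511627776)
      (and
        (Nat.ble (Nat.add (Nat.add 13835058055282163712
            (Nat.mul 3145728 (Nat.mul C p))) (Nat.mul 6 (Nat.mul C (Nat.mul m p))))
          (Nat.add (Nat.mul 13194139533312 C) (Nat.mul 6597069766656 p)))
        (Nat.ble (Nat.mul (Nat.add 6597069766656 (Nat.mul p p)) 1099511627776)
          (Nat.add (Nat.mul C (Nat.mul (Nat.sub 6291456 (Nat.mul 3 p))
              (Nat.sub 1099511627776 (Nat.mul m p))))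
            (Nat.mul 6917529027641081856 p)))))

theorem cjB_ok {C m p : ℕ} (h : cjB C m p = true) {C' m' : ℝ} (hC : rD C ≤ C') (hm : m' ≤ rD m) :
    CJr C' m' (rD p) := by
  obtain ⟨h1, h2⟩ := and_ok' h
  obtain ⟨h3, h4⟩ := and_ok' h1
  obtain ⟨h5, h6⟩ := and_ok' h2
  obtain ⟨h7, h8⟩ := and_ok' h6
  have a1 : 1048576 ≤ C := Nat.le_of_ble_eq_true h3
  have a2 : p ≤ 2097152 := Nat.le_of_ble_eq_true h4
  have a3 : m * p ≤ 1099511627776 := Nat.le_of_ble_eq_true h5
  have a4 : 13835058055282163712 + 3145728 * (C * p) + 6 * (C * (m * p))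
      ≤ 13194139533312 * C + 6597069766656 * p := Nat.le_of_ble_eq_true h7
  have a5 : (6597069766656 + p * p) * 1099511627776
      ≤ C * ((6291456 - 3 * p) * (1099511627776 - m * p)) + 6917529027641081856 * p :=
    Nat.le_of_ble_eq_true h8
  have C1 : 1 ≤ rD C := by rw [← rD_one]; exact rD_mono a1
  have p2 : rD p ≤ 2 := by
    have := rD_mono a2
    refine this.trans (le_of_eq ?_)
    unfold rD
    norm_num
  have p0 := rD_nonneg p
  have m0 := rD_nonneg m
  have eC : (C : ℝ) = 1048576 * rD C := by unfold rD; ring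
  have em : (m : ℝ) = 1048576 * rD m := by unfold rD; ring
  have ep : (p : ℝ) = 1048576 * rD p := by unfold rD; ring
  have mp : rD m * rD p ≤ 1 := by
    have : (m : ℝ) * p ≤ 1099511627776 := by exact_mod_cast a3
    rw [em, ep] at this
    nlinarith
  have b1 : 12 + 3 * (rD C * rD p) + 6 * (rD C * (rD m * rD p)) ≤ 12 * rD C + 6 * rD p := by
    have : (13835058055282163712 : ℝ) + 3145728 * (C * p) + 6 * (C * (m * p))
      ≤ 13194139533312 * C + 6597069766656 * p := by exact_mod_cast a4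
    rw [eC, em, ep] at this
    nlinarith
  have b2 : 6 + rD p * rD p ≤ rD C * ((6 - 3 * rD p) * (1 - rD m * rD p)) + 6 * rD p := by
    have t : ((6597069766656 : ℝ) + p * p) * 1099511627776
        ≤ C * (((6291456 - 3 * p : ℕ) : ℝ) * ((1099511627776 - m * p : ℕ) : ℝ))
          + 6917529027641081856 * p := by exact_mod_cast a5
    have c1 : ((6291456 - 3 * p : ℕ) : ℝ) = 1048576 * (6 - 3 * rD p) := by
      rw [Nat.cast_sub (by omega)]
      push_cast
      rw [ep]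
      ring
    have c2 : ((1099511627776 - m * p : ℕ) : ℝ) = 1099511627776 * (1 - rD m * rD p) := by
      rw [Nat.cast_sub a3]
      push_cast
      rw [ep, em]
      ring
    rw [c1, c2, eC, ep] at t
    nlinarith
  -- the polynomial on the interval
  have main : ∀ q ∈ Icc (0 : ℝ) (rD p),
      6 - 6 * q + q ^ 2 ≤ rD C * ((6 - 3 * q) * (1 - rD m * q)) := by
    intro q hq
    rcases eq_or_lt_of_le p0 with h0 | h0
    · have : q = 0 := le_antisymm (hq.2.trans (le_of_eq h0.symm)) hq.1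
      rw [this]
      nlinarith
    · set l := q / rD p with hl
      have l0 : 0 ≤ l := div_nonneg hq.1 p0
      have l1 : l ≤ 1 := (div_le_one h0).2 hq.2
      have eq : q = l * rD p := by rw [hl]; field_simp
      rw [eq]
      set P := rD p
      set K := rD C
      set M := rD m
      have f0 : 0 ≤ 6 * K - 6 := by linarith
      have f1 : 0 ≤ 12 * K + 6 * P - 12 - 3 * (K * P) - 6 * (K * (M * P)) := by linarith
      have f2 : 0 ≤ K * ((6 - 3 * P) * (1 - M * P)) + 6 * P - 6 - P * P := by linarith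
      have n1 := mul_nonneg (sq_nonneg (1 - l)) f0
      have n2 := mul_nonneg (mul_nonneg l0 (sub_nonneg.2 l1)) f1
      have n3 := mul_nonneg (sq_nonneg l) f2
      have id : K * ((6 - 3 * (l * P)) * (1 - M * (l * P))) - (6 - 6 * (l * P) + (l * P) ^ 2)
          = (1 - l) ^ 2 * (6 * K - 6)
            + l * (1 - l) * (12 * K + 6 * P - 12 - 3 * (K * P) - 6 * (K * (M * P)))
            + l ^ 2 * (K * ((6 - 3 * P) * (1 - M * P)) + 6 * P - 6 - P * P) := by ring
      linarith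
  intro q hq
  have q2 : 0 ≤ 6 - 3 * q := by linarith [hq.2]
  have h9 : 0 ≤ 1 - rD m * q := by
    have := mul_le_mul_of_nonneg_left hq.2 m0
    linarith
  have h10 : 1 - rD m * q ≤ 1 - m' * q := by
    have := mul_le_mul_of_nonneg_right hm hq.1
    linarith
  refine (main q hq).trans ?_
  have C0 : 0 ≤ rD C := by linarith
  calc rD C * ((6 - 3 * q) * (1 - rD m * q)) ≤ C' * ((6 - 3 * q) * (1 - rD m * q)) :=
        mul_le_mul_of_nonneg_right hC (mul_nonneg q2 h9)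
    _ ≤ C' * ((6 - 3 * q) * (1 - m' * q)) :=
        mul_le_mul_of_nonneg_left (mul_le_mul_of_nonneg_left h10 q2) (C0.trans hC)

/-! ### the test of the numbers -/

noncomputable def one20 (_ : ℕ) : ℕ := 1048576
/-- the square of `f` over `g` -/
noncomputable def sqd (f g : List ℕ) (l : ℕ) : ℕ :=
  Nat.add (Nat.div (Nat.mul (nth f l) (nth f l)) (nth g l)) 1
noncomputable def sqr (f : List ℕ) (l : ℕ) : ℕ := mu (nth f l) (nth f l)

namespace CqN

variable (d : CqN)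

noncomputable def rx (l : ℕ) : ℕ := mx 1048576 (mx (nth d.ρ1 l) (nth d.ρ2 l))

/-- the scale at the end of the cell, again -/
noncomputable def SV : ℕ :=
  mu (Nat.add (mu (Nat.add d.T1 d.δ) (Nat.add d.T1 d.δ)) (mu d.μ d.T1)) d.T1

/-- the number of intervals of the weight -/
noncomputable def nI : ℕ := Nat.add (iHi d.em) 1

/-- the largest number of common neighbours -/
noncomputable def eI (i : ℕ) : ℕ := mu d.em (Nat.sub 1048576 (Nat.mul 16384 i))

/-- the relations between the numbers -/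
noncomputable def nnB : Bool :=
  and (and (and (Nat.ble d.T0 d.T1) (Nat.ble d.T1 1048576))
      (and (Nat.ble d.em 524288) (Nat.ble 1 d.em)))
    (and (and (Nat.ble (mu d.em (Nat.add 1048576 (mu d.T1 d.em))) d.pm) (Nat.ble d.pm 1048576))
      (and (and (Nat.ble (Nat.add d.b0 (mu d.SV d.e0)) d.β0)
          (Nat.ble (Nat.add d.b1 (mu d.SV d.e1)) d.β1))
        (and (Nat.ble (Nat.add d.b2 (mu d.SV d.e2)) d.β2)
          (and (and (and (Nat.ble 1 d.c0) (Nat.ble 1 d.c1)) (and (Nat.ble 1 d.c2)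
              (and (Nat.ble 1 d.th) (Nat.ble 1 d.thh))))
            (and (and (Nat.ble 1 d.lam) (Nat.ble 1099511627776 (Nat.mul 2 (Nat.mul d.lam d.il))))
              (and (and (Nat.ble d.c0 (Nat.mul 2 d.c1)) (Nat.ble (Nat.mul 2 d.c1) (Nat.mul 3 d.c2)))
                (and (Nat.ble 1048576 d.φ)
                  (alN 11 fun l => and (Nat.ble 1 (nth d.f0 l))
                    (Nat.ble (Nat.add
                      (Nat.mul (Nat.sub 1048576 (Nat.mul 2 d.em)) (nth d.f0 l))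
                      (Nat.mul (Nat.mul 2 d.em) (nth d.f1 l)))
                      (Nat.mul d.φ (nth d.f0 l)))))))))))

/-- the conditions on an interval of the weight -/
noncomputable def ixB (i : ℕ) : Bool :=
  and (and (exB (nth d.x0 i) (nth d.p0 i)) (Nat.ble (nth d.p0 i) 2097152))
    (and (Nat.ble (Nat.add (mu (Nat.add (nth d.m0 i) (mu (nth d.m1 i) (d.eI i))) (nth d.p0 i)) 1)
        1048576)
      (and (cjB (nth d.C0 i) (nth d.m0 i) (nth d.p0 i))
        (cjB (Nat.add (nth d.C0 i) (md (nth d.C1 i) (d.eI i)))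
          (Nat.add (nth d.m0 i) (mu (nth d.m1 i) (d.eI i))) (nth d.p0 i))))

/-- the integrals -/
noncomputable def inB (r : ℕ → ℕ → ℕ → Cub) (m : ℕ) : Bool :=
  and (and (and (msB (nth d.f0) (nth d.κ) d.Cm d.Φ d.Em) (msB (nth d.f1) (nth d.κ) d.Cm d.Φ d.Em))
      (and (msB (nth d.f2) (nth d.κ) d.Cm d.Φ d.Em) (tB (nth d.f0) (nth d.κ) d.α)))
    (and (and (tB (nth d.f1) (nth d.κ) d.α) (tB (nth d.f2) (nth d.κ) d.α))
      (and (and (tB (nth d.f0) (nth d.κh) d.e0) (tB (nth d.f1) (nth d.κh) d.e1))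
        (and (tB (nth d.f2) (nth d.κh) d.e2)
          (and (cuA (nth d.f0) (nth d.κ) (r kCL m) d.A0)
            (and (cuA (nth d.f1) (nth d.κ) (r kCL m) d.A1)
              (cuA (nth d.f2) (nth d.κ) (r kCL m) d.A2))))))

noncomputable def inC (r : ℕ → ℕ → ℕ → Cub) (m : ℕ) : Bool :=
  and (and (and (cuA (nth d.Φ) one20 (r kCF m) d.B0) (cuA (nth d.Φ) (nth d.ρ1) (r kCF m) d.B1))
      (and (cuA (nth d.Φ) (nth d.ρ2) (r kCF m) d.B2)
        (cuT d.th (nth d.κ) (nth d.f0) (r kRL m) d.K1)))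
    (and (and (cuK d.th (nth d.κ) (sqd d.f0 d.f0) (r kCL m) d.K20)
        (cuK d.th (nth d.κ) (sqd d.f1 d.f0) (r kCL m) d.K21))
      (and (and (cuK d.th (nth d.κ) (sqd d.f2 d.f0) (r kCL m) d.K22)
          (cuT d.thh (nth d.Φ) one20 (r kRF m) d.K3))
        (and (cuK d.thh (nth d.Φ) one20 (r kCF m) d.K40)
          (and (cuK d.thh (nth d.Φ) (sqr d.ρ1) (r kCF m) d.K41)
            (cuK d.thh (nth d.Φ) (sqr d.ρ2) (r kCF m) d.K42)))))

/-- the entries -/
noncomputable def inE (r : ℕ → ℕ → ℕ → Cub) (m : ℕ) : Bool :=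
  and (and (Nat.ble (mu d.φ d.pm) (md d.qa d.th)) (Nat.ble d.em d.qb))
    (and (cuA (nth d.Φ) d.rx (r kRF m) d.RB)
      (alN 11 fun l => and (and (antB (r kEL m l)) (antB (r kEF m l)))
        (and (antB (r kEC m l)) (antB (r kEG m l)))))

/-- **the test of the numbers of a cell** -/
noncomputable def itB (r : ℕ → ℕ → ℕ → Cub) (m : ℕ) : Bool :=
  and (and d.nnB (alN d.nI d.ixB)) (and (d.inB r m) (and (d.inC r m) (d.inE r m)))

end CqN

section

variable {d : CqN} {R : Tab} {m : ℕ}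

theorem U0 (n : ℕ) : U (rD n) n := le_rfl

theorem sqd_ge {f g : List ℕ} {l : ℕ} (hg : 0 < nth g l) :
    rD (nth f l) ^ 2 / rD (nth g l) ≤ rD (sqd f g l) := by
  have h := div_up (nth f l * nth f l) (nth g l) hg
  have g0 : (0 : ℝ) < nth g l := by exact_mod_cast hg
  have e : rD (sqd f g l) = ((nth f l * nth f l / nth g l + 1 : ℕ) : ℝ) / 1048576 := rfl
  rw [e]
  refine le_trans (le_of_eq ?_) (div_le_div_of_nonneg_right h (by norm_num))
  unfold rD
  push_cast
  field_simp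

theorem sqr_ge {f : List ℕ} {l : ℕ} : rD (nth f l) ^ 2 ≤ rD (sqr f l) := by
  rw [sq]
  exact mu_ge _ _

theorem rx_ge {δ : ℝ} (l : ℕ) : (d.cq δ).ρx l ≤ rD (d.rx l) := by
  have e : (d.cq δ).ρx l = max 1 (max (rD (nth d.ρ1 l)) (rD (nth d.ρ2 l))) := rfl
  have e2 : d.rx l = max 1048576 (max (nth d.ρ1 l) (nth d.ρ2 l)) := by
    unfold CqN.rx
    rw [mx_eq, mx_eq]
  rw [e, e2]
  refine max_le ?_ (max_le ?_ ?_)
  · rw [← rD_one]; exact rD_mono (le_max_left _ _)
  · exact rD_mono ((le_max_left _ _).trans (le_max_right _ _))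
  · exact rD_mono ((le_max_right _ _).trans (le_max_right _ _))

theorem rx_nn {δ : ℝ} (l : ℕ) : 0 ≤ (d.cq δ).ρx l :=
  zero_le_one.trans (le_max_left (1 : ℝ) _)

theorem SV_ge {δ : ℝ} (δ0 : 0 ≤ δ) (hδ : δ ≤ rD d.δ) : (d.cq δ).S (d.cq δ).T1 ≤ rD d.SV := by
  have T0 := rD_nonneg d.T1
  have m0 := rD_nonneg d.μ
  have e : (d.cq δ).S (d.cq δ).T1
      = ((rD d.T1 + δ) * (rD d.T1 + δ) + rD d.μ * rD d.T1) * rD d.T1 := by
    show ((rD d.T1 + δ) ^ 2 + rD d.μ * rD d.T1) * rD d.T1 = _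
    ring
  rw [e]
  have h1 : U (rD d.T1 + δ) (Nat.add d.T1 d.δ) := (U0 d.T1).add hδ
  have h0 : 0 ≤ rD d.T1 + δ := add_nonneg T0 δ0
  have n1 : 0 ≤ rD d.μ * rD d.T1 := mul_nonneg m0 T0
  exact ((h1.mu h1 h0 h0).add ((U0 d.μ).mu (U0 d.T1) m0 T0)).mu (U0 d.T1)
    (add_nonneg (mul_nonneg h0 h0) n1) T0

theorem ix_lo {u : ℝ} (u0 : 0 ≤ u) : rD (16384 * ix u) ≤ u := by
  unfold ix rD
  have h := Nat.ceil_lt_add_one (mul_nonneg (by norm_num : (0 : ℝ) ≤ 64) u0)
  rw [div_le_iff₀ (by norm_num)]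
  rcases Nat.eq_zero_or_pos ⌈64 * u⌉₊ with h0 | h0
  · rw [h0]
    simp only [Nat.zero_sub, Nat.mul_zero, Nat.cast_zero]
    linarith
  · push_cast [Nat.cast_sub h0]
    have : ((⌈64 * u⌉₊ - 1 : ℕ) : ℝ) = (⌈64 * u⌉₊ : ℝ) - 1 := by
      rw [Nat.cast_sub h0]; simp
    linarith

theorem ix_lt {u : ℝ} (hu : u ∈ Icc 0 (rD d.em)) : ix u < d.nI := by
  have : ix u ≤ iHi d.em := le_iHi (u0 := 0) ⟨Or.inr rfl, rD_zero.le.trans hu.1, hu.2⟩
  exact Nat.lt_succ_of_le this

theorem eI_ge {u : ℝ} (hu : u ∈ Icc 0 (rD d.em)) (u1 : u ≤ 1) :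
    rD d.em * (1 - u) ≤ rD (d.eI (ix u)) := by
  have h1 := ix_lo hu.1
  have h2 : U (1 - u) (Nat.sub 1048576 (Nat.mul 16384 (ix u))) := U.one.sub h1
  exact (U0 d.em).mu h2 (rD_nonneg _) (by linarith)

theorem rD_pos1 {n : ℕ} (h : Nat.ble 1 n = true) : 0 < rD n := rD_pos (Nat.le_of_ble_eq_true h)

/-- the relations of the numbers -/
theorem nn_of {δ : ℝ} (δ0 : 0 ≤ δ) (hδ : δ ≤ rD d.δ) (h : d.nnB = true)
    (hi : alN d.nI d.ixB = true) :
    (d.cq δ).Nn ∧ (d.cq δ).c0 ≤ 2 * (d.cq δ).c1 ∧ 2 * (d.cq δ).c1 ≤ 3 * (d.cq δ).c2 := by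
  obtain ⟨h1, h2⟩ := and_ok' h
  obtain ⟨h3, h4⟩ := and_ok' h1
  obtain ⟨t01, t1⟩ := and_ok' h3
  obtain ⟨em, em0⟩ := and_ok' h4
  obtain ⟨h5, h6⟩ := and_ok' h2
  obtain ⟨pm, pm1⟩ := and_ok' h5
  obtain ⟨h7, h8⟩ := and_ok' h6
  obtain ⟨β0, β1⟩ := and_ok' h7
  obtain ⟨β2, h9⟩ := and_ok' h8
  obtain ⟨h10, h11⟩ := and_ok' h9
  obtain ⟨h12, h13⟩ := and_ok' h10
  obtain ⟨c0, c1⟩ := and_ok' h12
  obtain ⟨c2, h14⟩ := and_ok' h13
  obtain ⟨th, thh⟩ := and_ok' h14
  obtain ⟨h15, h16⟩ := and_ok' h11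
  obtain ⟨lam, il⟩ := and_ok' h15
  obtain ⟨h17, h18⟩ := and_ok' h16
  obtain ⟨s1, s2⟩ := and_ok' h17
  obtain ⟨hφ, h19⟩ := and_ok' h18
  have fl := fun l (hl : l ≤ 10) => and_ok' (alN_ok h19 l (Nat.lt_succ_of_le hl))
  have S1 := SV_ge (d := d) δ0 hδ
  have bet : ∀ {b e β : ℕ}, Nat.ble (Nat.add b (mu d.SV e)) β = true →
      rD b + (d.cq δ).S (d.cq δ).T1 * rD e ≤ rD β := by
    intro b e β hb
    have h1 := rD_mono (Nat.le_of_ble_eq_true hb)
    have h2 : rD (Nat.add b (mu d.SV e)) = rD b + rD (mu d.SV e) := rD_add _ _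
    rw [h2] at h1
    have h3 := mu_ge d.SV e
    have h4 := mul_le_mul_of_nonneg_right S1 (rD_nonneg e)
    linarith
  have idx : ∀ u ∈ Icc 0 (rD d.em), nth d.p0 (ix u) ≤ 2097152 := fun u hu => by
    obtain ⟨a, _⟩ := and_ok' (alN_ok hi (ix u) (ix_lt hu))
    exact Nat.le_of_ble_eq_true (and_ok' a).2
  refine ⟨?_, ?_, ?_⟩
  · constructor
    · exact rD_nonneg _
    · exact rD_mono (Nat.le_of_ble_eq_true t01)
    · show rD d.T1 ≤ 1
      rw [← rD_one]; exact rD_mono (Nat.le_of_ble_eq_true t1)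
    · exact δ0
    · exact rD_nonneg _
    · exact rD_nonneg _
    · show rD d.em ≤ 1 / 2
      rw [← rD_half]; exact rD_mono (Nat.le_of_ble_eq_true em)
    · show rD d.em * (1 + rD d.T1 * rD d.em) ≤ rD d.pm
      have h1 : U (1 + rD d.T1 * rD d.em) (Nat.add 1048576 (mu d.T1 d.em)) :=
        U.one.add ((U0 d.T1).mu (U0 d.em) (rD_nonneg _) (rD_nonneg _))
      have n1 : 0 ≤ 1 + rD d.T1 * rD d.em := by
        have := mul_nonneg (rD_nonneg d.T1) (rD_nonneg d.em)
        linarith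
      exact ((U0 d.em).mu h1 (rD_nonneg _) n1).le (Nat.le_of_ble_eq_true pm)
    · show rD d.pm ≤ 1
      rw [← rD_one]; exact rD_mono (Nat.le_of_ble_eq_true pm1)
    · exact fun l hl => rD_pos1 (fl l hl).1
    · exact fun l _ => rD_nonneg _
    · exact fun l _ => rD_nonneg _
    · show 1 ≤ rD d.φ
      rw [← rD_one]; exact rD_mono (Nat.le_of_ble_eq_true hφ)
    · intro l hl
      show (1 - 2 * rD d.em) * rD (nth d.f0 l) + 2 * rD d.em * rD (nth d.f1 l)
        ≤ rD d.φ * rD (nth d.f0 l)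
      have h1 : (1048576 - 2 * d.em) * nth d.f0 l + 2 * d.em * nth d.f1 l ≤ d.φ * nth d.f0 l :=
        Nat.le_of_ble_eq_true (fl l hl).2
      have e1 : 2 * d.em ≤ 1048576 := by
        have : d.em ≤ 524288 := Nat.le_of_ble_eq_true em
        omega
      have h2 : (((1048576 - 2 * d.em) * nth d.f0 l + 2 * d.em * nth d.f1 l : ℕ) : ℝ)
        ≤ ((d.φ * nth d.f0 l : ℕ) : ℝ) := by exact_mod_cast h1
      push_cast [Nat.cast_sub e1] at h2
      unfold rD
      linarith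
    · exact fun l _ => rD_nonneg _
    · exact fun l _ => rD_nonneg _
    · exact fun l _ => zero_le_one
    · exact fun l _ => rD_nonneg _
    · exact fun l _ => rD_nonneg _
    · exact fun l _ => rD_nonneg _
    · exact rD_nonneg _
    · exact rD_nonneg _
    · exact rD_nonneg _
    · exact rD_nonneg _
    · exact rD_nonneg _
    · exact rD_nonneg _
    · exact bet β0
    · exact bet β1
    · exact bet β2
    · exact rD_pos1 c0
    · exact rD_pos1 c1
    · exact rD_pos1 c2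
    · exact rD_nonneg _
    · exact fun k hk => Cub.ev_nonneg _ hk.1 hk.2
    · exact fun k hk => Cub.ev_nonneg _ hk.1 hk.2
    · exact fun k hk => Cub.ev_nonneg _ hk.1 hk.2
    · exact fun k hk => Cub.ev_nonneg _ hk.1 hk.2
    · exact fun k hk => Cub.ev_nonneg _ hk.1 hk.2
    · exact fun k hk => Cub.ev_nonneg _ hk.1 hk.2
    · exact fun k hk => Cub.ev_nonneg _ hk.1 hk.2
    · exact fun k hk => Cub.ev_nonneg _ hk.1 hk.2
    · exact fun k hk => Cub.ev_nonneg _ hk.1 hk.2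
    · exact fun k hk => Cub.ev_nonneg _ hk.1 hk.2
    · exact fun k hk => Cub.ev_nonneg _ hk.1 hk.2
    · exact fun k hk => Cub.ev_nonneg _ hk.1 hk.2
    · exact fun k hk => Cub.ev_nonneg _ hk.1 hk.2
    · exact fun k hk => Cub.ev_nonneg _ hk.1 hk.2
    · exact fun k hk => Cub.ev_nonneg _ hk.1 hk.2
    · exact fun k hk => Cub.ev_nonneg _ hk.1 hk.2
    · exact fun k hk => Cub.ev_nonneg _ hk.1 hk.2
    · exact rD_nonneg _
    · exact rD_nonneg _
    · exact rD_pos1 th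
    · exact rD_pos1 thh
    · exact rD_nonneg _
    · exact rD_nonneg _
    · exact fun u _ => rD_nonneg _
    · intro u hu
      refine (rD_mono (idx u hu)).trans (le_of_eq ?_)
      unfold rD
      norm_num
    · exact fun u _ => rD_nonneg _
    · exact fun u _ => rD_nonneg _
    · exact fun u _ => rD_nonneg _
    · exact fun u _ => rD_nonneg _
    · exact fun u _ => rD_nonneg _
    · exact rD_pos1 lam
    · show 1 ≤ 2 * rD d.lam * rD d.il
      have h1 : 1099511627776 ≤ 2 * (d.lam * d.il) := Nat.le_of_ble_eq_true il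
      have h2 : (1099511627776 : ℝ) ≤ 2 * (d.lam * d.il) := by exact_mod_cast h1
      unfold rD
      rw [show 2 * ((d.lam : ℝ) / 1048576) * ((d.il : ℝ) / 1048576)
        = (2 * ((d.lam : ℝ) * d.il)) / 1099511627776 by ring, le_div_iff₀ (by norm_num)]
      linarith
  · have h1 := rD_mono (Nat.le_of_ble_eq_true s1)
    have h2 : rD (Nat.mul 2 d.c1) = 2 * rD d.c1 := by
      have := rD_mul 2 d.c1
      push_cast at this
      exact this
    rw [h2] at h1
    exact h1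
  · have h1 := rD_mono (Nat.le_of_ble_eq_true s2)
    have h2 : rD (Nat.mul 2 d.c1) = 2 * rD d.c1 := by
      have := rD_mul 2 d.c1
      push_cast at this
      exact this
    have h3 : rD (Nat.mul 3 d.c2) = 3 * rD d.c2 := by
      have := rD_mul 3 d.c2
      push_cast at this
      exact this
    rw [h2, h3] at h1
    exact h1

/-- **the integrals of a cell** -/
theorem it_of {δ : ℝ} (hδ : R.dl m = δ) (h1 : d.nnB = true) (h2 : alN d.nI d.ixB = true)
    (h3 : d.inB R.r m = true) (h4 : d.inC R.r m = true) (h5 : d.inE R.r m = true) (hn : (d.cq δ).Nn) :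
    (d.cq δ).It R m := by
  obtain ⟨a1, a2⟩ := and_ok' h3
  obtain ⟨a3, a4⟩ := and_ok' a1
  obtain ⟨Φ0, Φ1⟩ := and_ok' a3
  obtain ⟨Φ2, α0⟩ := and_ok' a4
  obtain ⟨a5, a6⟩ := and_ok' a2
  obtain ⟨α1, α2⟩ := and_ok' a5
  obtain ⟨a7, a8⟩ := and_ok' a6
  obtain ⟨e0, e1⟩ := and_ok' a7
  obtain ⟨e2, a9⟩ := and_ok' a8
  obtain ⟨A0, a10⟩ := and_ok' a9
  obtain ⟨A1, A2⟩ := and_ok' a10
  obtain ⟨b1, b2⟩ := and_ok' h4
  obtain ⟨b3, b4⟩ := and_ok' b1
  obtain ⟨B0, B1⟩ := and_ok' b3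
  obtain ⟨B2, K1⟩ := and_ok' b4
  obtain ⟨b5, b6⟩ := and_ok' b2
  obtain ⟨K20, K21⟩ := and_ok' b5
  obtain ⟨b7, b8⟩ := and_ok' b6
  obtain ⟨K22, K3⟩ := and_ok' b7
  obtain ⟨K40, b9⟩ := and_ok' b8
  obtain ⟨K41, K42⟩ := and_ok' b9
  obtain ⟨d1, d2⟩ := and_ok' h5
  obtain ⟨HA, HB⟩ := and_ok' d1
  obtain ⟨RB, ant⟩ := and_ok' d2
  have f0p : ∀ l ≤ 10, 0 < nth d.f0 l := by
    intro l hl
    have h0 : 0 < rD (nth d.f0 l) := hn.f0 l hl
    by_contra hc
    have h1 : nth d.f0 l = 0 := by omega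
    rw [h1, rD_zero] at h0
    exact lt_irrefl _ h0
  have onE : (fun _ : ℕ => (1 : ℝ)) = fun l => rD (one20 l) := by
    funext l
    exact rD_one.symm
  have evn : ∀ (K : ℕ) (k : ℝ), k ∈ Icc (0 : ℝ) 1 → ∀ l ≤ 10, 0 ≤ (R.r K m l).ev k :=
    fun K k hk l _ => Cub.ev_nonneg _ hk.1 hk.2
  have rn : ∀ (f : ℕ → ℕ), ∀ l ≤ 10, 0 ≤ rD (f l) := fun f l _ => rD_nonneg _
  -- comparison of the second factor
  have c2 : ∀ (u : ℕ → ℕ) (v : ℕ → ℝ) (V : ℕ → ℕ) (K : ℕ) (k : ℝ), k ∈ Icc (0 : ℝ) 1 →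
      (∀ l ≤ 10, 0 ≤ v l) → (∀ l ≤ 10, v l ≤ rD (V l)) →
      tri3 10 (fun l => rD (u l)) v (fun l => (R.r K m l).ev k)
        ≤ tri3 10 (fun l => rD (u l)) (fun l => rD (V l)) (fun l => (R.r K m l).ev k) :=
    fun u v V K k hk v0 hv => tri3_mono (rn u) v0 (evn K k hk) (fun _ _ => le_rfl) hv
      (fun _ _ => le_rfl)
  have k2 : ∀ (f : List ℕ) (C : Cub), cuK d.th (nth d.κ) (sqd f d.f0) (R.r kCL m) C = true →
      ∀ k ∈ Icc (0 : ℝ) 1, tri3 10 (fun l => rD (nth d.κ l))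
        (fun l => rD (nth f l) ^ 2 / rD (nth d.f0 l)) (fun l => (R.r kCL m l).ev k)
        ≤ rD d.th * C.ev k := fun f C hC k hk =>
    (c2 _ _ (sqd f d.f0) _ k hk (fun l _ => div_nonneg (sq_nonneg _) (rD_nonneg _))
      (fun l hl => sqd_ge (f0p l hl))).trans (cuK_ok hC hk)
  have k4 : ∀ (f : List ℕ) (C : Cub), cuK d.thh (nth d.Φ) (sqr f) (R.r kCF m) C = true →
      ∀ k ∈ Icc (0 : ℝ) 1, tri3 10 (fun l => rD (nth d.Φ l))
        (fun l => rD (nth f l) ^ 2) (fun l => (R.r kCF m l).ev k)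
        ≤ rD d.thh * C.ev k := fun f C hC k hk =>
    (c2 _ _ (sqr f) _ k hk (fun l _ => sq_nonneg _) (fun l _ => sqr_ge)).trans (cuK_ok hC hk)
  have rx : ∀ (K : ℕ) (k : ℝ), k ∈ Icc (0 : ℝ) 1 →
      tri3 10 (fun l => rD (nth d.Φ l)) (d.cq δ).ρx (fun l => (R.r K m l).ev k)
        ≤ tri3 10 (fun l => rD (nth d.Φ l)) (fun l => rD (d.rx l)) (fun l => (R.r K m l).ev k) :=
    fun K k hk => c2 _ _ _ _ k hk (fun l _ => rx_nn l) (fun l _ => rx_ge l)
  have idx : ∀ u ∈ Icc 0 (rD d.em), d.ixB (ix u) = true := fun u hu =>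
    alN_ok h2 (ix u) (ix_lt hu)
  have em1 : rD d.em ≤ 1 / 2 := hn.em1
  have anti := fun l (hl : l ≤ 10) => and_ok' (alN_ok ant l (Nat.lt_succ_of_le hl))
  constructor
  · exact msB_ok Φ0
  · exact msB_ok Φ1
  · exact msB_ok Φ2
  · exact tB_ok α0
  · exact tB_ok α1
  · exact tB_ok α2
  · exact tB_ok e0
  · exact tB_ok e1
  · exact tB_ok e2
  · exact fun k hk => cuA_ok A0 hk
  · exact fun k hk => cuA_ok A1 hk
  · exact fun k hk => cuA_ok A2 hk
  · intro k hk
    show tri3 10 (fun l => rD (nth d.Φ l)) (fun _ => (1 : ℝ)) _ ≤ _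
    rw [onE]
    exact cuA_ok B0 hk
  · exact fun k hk => cuA_ok B1 hk
  · exact fun k hk => cuA_ok B2 hk
  · exact fun k hk => cuT_ok K1 hk
  · exact k2 d.f0 d.K20 K20
  · exact k2 d.f1 d.K21 K21
  · exact k2 d.f2 d.K22 K22
  · intro k hk
    show rD d.thh * tri3 10 (fun l => rD (nth d.Φ l)) (fun _ => (1 : ℝ)) _ ≤ _
    rw [onE]
    exact cuT_ok K3 hk
  · intro k hk
    show tri3 10 (fun l => rD (nth d.Φ l)) (fun l => (1 : ℝ) ^ 2) _ ≤ _
    simp only [one_pow]
    rw [onE]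
    exact cuK_ok K40 hk
  · exact k4 d.ρ1 d.K41 K41
  · exact k4 d.ρ2 d.K42 K42
  · show rD d.φ * rD d.pm ≤ rD d.qa * rD d.th
    have h1 := rD_mono (Nat.le_of_ble_eq_true HA)
    exact (mu_ge d.φ d.pm).trans (h1.trans (md_le _ _))
  · show rD d.em ≤ rD d.qb
    exact rD_mono (Nat.le_of_ble_eq_true HB)
  · exact fun k hk => (rx _ k hk).trans (cuA_ok RB hk)
  · intro u hu
    obtain ⟨a, _⟩ := and_ok' (idx u hu)
    exact exB_ok (and_ok' a).1
  · intro u hu
    obtain ⟨_, a⟩ := and_ok' (idx u hu)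
    obtain ⟨b, _⟩ := and_ok' a
    have hb : mu (Nat.add (nth d.m0 (ix u)) (mu (nth d.m1 (ix u)) (d.eI (ix u))))
        (nth d.p0 (ix u)) + 1 ≤ 1048576 := Nat.le_of_ble_eq_true b
    have e1 := eI_ge (d := d) hu (hu.2.trans (by
      show rD d.em ≤ 1
      linarith))
    have n0 : 0 ≤ rD d.em * (1 - u) := mul_nonneg (rD_nonneg _) (by
      have : u ≤ rD d.em := hu.2
      linarith)
    have g1 : U (rD (nth d.m0 (ix u)) + rD (nth d.m1 (ix u)) * (rD d.em * (1 - u)))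
        (Nat.add (nth d.m0 (ix u)) (mu (nth d.m1 (ix u)) (d.eI (ix u)))) :=
      (U0 _).add ((U0 _).mu e1 (rD_nonneg _) n0)
    have g2 := g1.mu (U0 (nth d.p0 (ix u)))
      (add_nonneg (rD_nonneg _) (mul_nonneg (rD_nonneg _) n0)) (rD_nonneg _)
    refine lt_of_le_of_lt g2 ?_
    rw [← rD_one]
    exact rD_lt.2 hb
  · intro u hu
    obtain ⟨_, a⟩ := and_ok' (idx u hu)
    obtain ⟨_, b⟩ := and_ok' a
    exact cjB_ok (and_ok' b).1 le_rfl le_rfl
  · intro u hu
    obtain ⟨_, a⟩ := and_ok' (idx u hu)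
    obtain ⟨_, b⟩ := and_ok' a
    obtain ⟨b1, b2⟩ := and_ok' b
    have u1 : u ≤ 1 := hu.2.trans (by
      show rD d.em ≤ 1
      linarith)
    have e1 := eI_ge (d := d) hu u1
    have n0 : 0 ≤ rD d.em * (1 - u) := mul_nonneg (rD_nonneg _) (by linarith)
    have E0 : 0 ≤ rD (d.eI (ix u)) := rD_nonneg _
    refine CJr_lin (n1 := rD (d.eI (ix u))) (cjB_ok b1 le_rfl le_rfl) (cjB_ok b2 ?_ ?_)
      (hn.p02 u hu) (rD_nonneg _) (rD_nonneg _) n0 e1
    · have : rD (Nat.add (nth d.C0 (ix u)) (md (nth d.C1 (ix u)) (d.eI (ix u))))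
        = rD (nth d.C0 (ix u)) + rD (md (nth d.C1 (ix u)) (d.eI (ix u))) := rD_add _ _
      rw [this]
      exact add_le_add le_rfl (md_le _ _)
    · have : rD (Nat.add (nth d.m0 (ix u)) (mu (nth d.m1 (ix u)) (d.eI (ix u))))
        = rD (nth d.m0 (ix u)) + rD (mu (nth d.m1 (ix u)) (d.eI (ix u))) := rD_add _ _
      rw [this]
      exact add_le_add le_rfl (mu_ge _ _)
  · exact hδ
  · exact fun l hl => antB_ok (and_ok' (anti l hl).1).1
  · exact fun l hl => antB_ok (and_ok' (anti l hl).1).2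
  · exact fun l hl => antB_ok (and_ok' (anti l hl).2).1
  · exact fun l hl => antB_ok (and_ok' (anti l hl).2).2

/-- **the numbers of a cell** -/
theorem itB_ok (hδ : R.dl m ≤ rD d.δ) (h : d.itB R.r m = true) :
    (d.cq (R.dl m)).Nn ∧ (d.cq (R.dl m)).It R m ∧
      (d.cq (R.dl m)).c0 ≤ 2 * (d.cq (R.dl m)).c1 ∧
      2 * (d.cq (R.dl m)).c1 ≤ 3 * (d.cq (R.dl m)).c2 ∧ 0 < d.em := by
  obtain ⟨h1, h2⟩ := and_ok' h
  obtain ⟨h3, h4⟩ := and_ok' h1
  obtain ⟨h5, h6⟩ := and_ok' h2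
  obtain ⟨h7, h8⟩ := and_ok' h6
  obtain ⟨n, s1, s2⟩ := nn_of (R.dl_nonneg m) hδ h3 h4
  exact ⟨n, it_of rfl h3 h4 h5 h7 h8 n, s1, s2,
    Nat.le_of_ble_eq_true (and_ok' (and_ok' (and_ok' h3).1).2).2⟩

end

end Pool.Agent.RZ.RCN.K
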