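import Pool.Agent.RZ.RCO.J2m
import Pool.Agent.RZ.RCO.T1m

/-! The numbers of the second type in a cell, checked on natural numbers (MP_73ccd0_lc). -/

namespace Pool.Agent.RZ.RCN.K

open Set Finset Pool.Agent.RZ.RCO.RT Pool.Agent.RZ.RCO.BxN

set_option linter.unusedSectionVars false
set_option linter.unusedVariables false

namespace CqN

variable (d : CqN)

/-- the largest of the three mass numbers -/
noncomputable def βx : ℕ := mx d.β0 (mx d.β1 d.β2)

/-- the square of `1 + T1 em` -/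
noncomputable def fE : ℕ := mu (d.fT d.em) (d.fT d.em)

/-- **the test of the numbers of the second type** -/
noncomputable def t2B (r : ℕ → ℕ → ℕ → Cub) (m : ℕ) (q : C2N) : Bool :=
  and (and (and (Nat.ble 1 q.th2) (Nat.ble 1 q.thh2))
      (and (and (Nat.ble (mu q.th2 d.fE) (md q.k1 d.th)) (Nat.ble (mu q.thh2 d.fE) (md q.k3 d.thh)))
        (and (Nat.ble 1048576 (md q.io (Nat.sub 1048576 d.em)))
          (Nat.ble (mu d.em (mu (d.fT (Nat.add d.em d.em)) d.βx)) 524288))))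
    (and (and (cuK q.th2 (nth d.κ) (sqd d.f0 d.f0) (r kSL m) q.QA0)
        (cuK q.th2 (nth d.κ) (sqd d.f1 d.f0) (r kSL m) q.QA1))
      (and (cuK q.thh2 (nth d.Φ) one20 (r kSF m) q.QH0)
        (cuK q.thh2 (nth d.Φ) (sqr d.ρ1) (r kSF m) q.QH1)))

end CqN

variable {d : CqN} {R : Tab} {m : ℕ} {q : C2N} {δ : ℝ}

theorem fT_up {w : ℝ} {w1 : ℕ} (hw : U w w1) (w0 : 0 ≤ w) : U (1 + rD d.T1 * w) (d.fT w1) :=
  U.one.add ((U0 d.T1).mu hw (rD_nonneg _) w0)

theorem fE_ge : (1 + rD d.T1 * rD d.em) ^ 2 ≤ rD d.fE := by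
  have h1 := fT_up (d := d) (U0 d.em) (rD_nonneg d.em)
  have h0 : 0 ≤ 1 + rD d.T1 * rD d.em := by
    have := mul_nonneg (rD_nonneg d.T1) (rD_nonneg d.em)
    linarith
  rw [sq]
  exact h1.mu h1 h0 h0

/-- **the numbers of the second type** -/
theorem t2B_ok (hn : (d.cq δ).Nn) (h : d.t2B R.r m q = true) : (d.cq δ).T2 R m q.c2 := by
  obtain ⟨h1, h2⟩ := and_ok' h
  obtain ⟨h3, h4⟩ := and_ok' h1
  obtain ⟨a1, a2⟩ := and_ok' h3
  obtain ⟨h5, h6⟩ := and_ok' h4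
  obtain ⟨k1, k3⟩ := and_ok' h5
  obtain ⟨io, bf⟩ := and_ok' h6
  obtain ⟨h7, h8⟩ := and_ok' h2
  obtain ⟨QA0, QA1⟩ := and_ok' h7
  obtain ⟨QH0, QH1⟩ := and_ok' h8
  have f0p : ∀ l ≤ 10, 0 < nth d.f0 l := by
    intro l hl
    have h0 : 0 < rD (nth d.f0 l) := hn.f0 l hl
    by_contra hc
    have h1 : nth d.f0 l = 0 := by omega
    rw [h1, rD_zero] at h0
    exact lt_irrefl _ h0
  have onE : (fun _ : ℕ => (1 : ℝ)) = fun l => rD (one20 l) := by
    funext l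
    exact rD_one.symm
  have evn : ∀ (K : ℕ) (k : ℝ), k ∈ Icc (0 : ℝ) 1 → ∀ l ≤ 10, 0 ≤ (R.r K m l).ev k :=
    fun K k hk l _ => Cub.ev_nonneg _ hk.1 hk.2
  have rn : ∀ (f : ℕ → ℕ), ∀ l ≤ 10, 0 ≤ rD (f l) := fun f l _ => rD_nonneg _
  have c2 : ∀ (u : ℕ → ℕ) (v : ℕ → ℝ) (V : ℕ → ℕ) (K : ℕ) (k : ℝ), k ∈ Icc (0 : ℝ) 1 →
      (∀ l ≤ 10, 0 ≤ v l) → (∀ l ≤ 10, v l ≤ rD (V l)) →
      tri3 10 (fun l => rD (u l)) v (fun l => (R.r K m l).ev k)
        ≤ tri3 10 (fun l => rD (u l)) (fun l => rD (V l)) (fun l => (R.r K m l).ev k) :=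
    fun u v V K k hk v0 hv => tri3_mono (rn u) v0 (evn K k hk) (fun _ _ => le_rfl) hv
      (fun _ _ => le_rfl)
  have ge : ∀ {a b k : ℕ}, Nat.ble (mu a d.fE) (md k b) = true →
      rD a * (1 + rD d.T1 * rD d.em) ^ 2 ≤ rD k * rD b := by
    intro a b k hb
    have h1 := rD_mono (Nat.le_of_ble_eq_true hb)
    have h2 := mul_le_mul_of_nonneg_left (fE_ge (d := d)) (rD_nonneg a)
    exact (h2.trans (mu_ge _ _)).trans (h1.trans (md_le _ _))
  constructor
  · exact rD_pos1 a1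
  · exact rD_pos1 a2
  · exact ge k1
  · exact ge k3
  · show 1 ≤ rD q.io * (1 - rD d.em)
    have h1 := rD_mono (Nat.le_of_ble_eq_true io)
    rw [rD_one] at h1
    have em2 : d.em ≤ 1048576 := by
      have h0 : rD d.em ≤ 1 / 2 := hn.em1
      by_contra hc
      have h2 : rD 1048576 ≤ rD d.em := rD_mono (by omega)
      rw [rD_one] at h2
      linarith
    have e : rD (Nat.sub 1048576 d.em) = 1 - rD d.em := by
      unfold rD
      have : ((Nat.sub 1048576 d.em : ℕ) : ℝ) = 1048576 - d.em := by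
        have := Nat.cast_sub (R := ℝ) em2
        exact_mod_cast this
      rw [this]
      ring
    rw [← e]
    exact h1.trans (md_le _ _)
  · intro y hy w hw
    show y * ((1 + rD d.T1 * w) * lp y (rD d.β0) (rD d.β1) (rD d.β2)) ≤ 1 / 2
    have em1 : rD d.em ≤ 1 / 2 := hn.em1
    have hy1 : y ≤ 1 := hy.2.trans (by
      show rD d.em ≤ 1
      linarith)
    have hw2 : U w (Nat.add d.em d.em) := by
      show w ≤ rD (d.em + d.em)
      rw [rD_add]
      have : w ≤ 2 * rD d.em := hw.2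
      linarith
    have g1 := fT_up (d := d) hw2 hw.1
    have g0 : 0 ≤ 1 + rD d.T1 * w := by
      have := mul_nonneg (rD_nonneg d.T1) hw.1
      linarith
    have l1 : U (lp y (rD d.β0) (rD d.β1) (rD d.β2)) d.βx := by
      refine (lp_le_max ⟨hy.1, hy1⟩).trans ?_
      show _ ≤ rD (mx d.β0 (mx d.β1 d.β2))
      rw [mx_eq, mx_eq]
      exact max_le (rD_mono (le_max_left _ _)) (max_le
        (rD_mono ((le_max_left _ _).trans (le_max_right _ _)))
        (rD_mono ((le_max_right _ _).trans (le_max_right _ _))))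
    have l0 : 0 ≤ lp y (rD d.β0) (rD d.β1) (rD d.β2) :=
      lp_nonneg hy.1 hy1 (rD_nonneg _) (rD_nonneg _) (rD_nonneg _)
    have hy2 : U y d.em := hy.2
    have h1 := hy2.mu (g1.mu l1 g0 l0) hy.1 (mul_nonneg g0 l0)
    have h2 := rD_mono (Nat.le_of_ble_eq_true bf)
    rw [rD_half] at h2
    exact h1.trans h2
  · intro k hk
    exact (c2 _ _ (sqd d.f0 d.f0) _ k hk (fun l _ => div_nonneg (sq_nonneg _) (rD_nonneg _))
      (fun l hl => sqd_ge (f0p l hl))).trans (cuK_ok QA0 hk)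
  · intro k hk
    exact (c2 _ _ (sqd d.f1 d.f0) _ k hk (fun l _ => div_nonneg (sq_nonneg _) (rD_nonneg _))
      (fun l hl => sqd_ge (f0p l hl))).trans (cuK_ok QA1 hk)
  · intro k hk
    show tri3 10 (fun l => rD (nth d.Φ l)) (fun l => (1 : ℝ) ^ 2) _ ≤ _
    simp only [one_pow]
    rw [onE]
    exact cuK_ok QH0 hk
  · intro k hk
    exact (c2 _ _ (sqr d.ρ1) _ k hk (fun l _ => sq_nonneg _) (fun l _ => sqr_ge)).trans
      (cuK_ok QH1 hk)

end Pool.Agent.RZ.RCN.K
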