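import Pool.Agent.RZ.RCO.GapN
import Pool.Agent.RZ.RCO.J2l
import Pool.Agent.RZ.RCO.RowsAt
import Pool.Agent.RZ.RCO.T1h
import Pool.Agent.RZ.RCO.T2m
import Pool.Agent.RZ.RCO.TTa

/-! Route P: the inequality of the centres with several cells of the time in every big cell
(MP_73ccd0_lc). -/

set_option autoImplicit false

namespace Pool.Agent.RZ.RCN.K

open Set Finset MeasureTheory Pool.Agent.RZ.RCRSHalf Pool.Agent.RZ.RCG Pool.Agent.RZ.RCG.Ct
open Pool.Agent.RZ.RCN.Ker Pool.Agent.RZ.RCRS Pool.Agent.RZ.RCM.Jen Pool.Agent.RZ.RCO.RT Pool.Agent.RZ.RCO.BxN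
open Pool.Agent.RZ.RCM9 Pool.Agent.RZ.RCE

set_option linter.unusedSectionVars false
set_option linter.unusedVariables false

/-- the checks of one cell with natural numbers, without its place in the big cell -/
noncomputable def Cell.nB1 (C : Cell) (g : FrG) (r : ℕ → ℕ → ℕ → Cub) (m : ℕ) : Bool :=
  and (and (C.c.itB r m) (C.f.okB g C.c))
    (and (and (C.c.an2 C.q) (runZ C.c C.kap (C.c.F2N C.q) C.c.em C.l 0))
      (and (Nat.ble 1048576 (Nat.mul xN C.c.em))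
          (cond (Nat.beq m 0) (and (Nat.ble (Nat.mul 50 C.f.dl) 1048576)
            (Nat.ble 1048576 (Nat.mul 50 C.c.δ))) (Nat.beq C.f.dl 0))))

/-- all conditions of one cell -/
structure CellOk1 (p : Ps) (e : ExD) (g : FrG) (R : Tab) (m : ℕ) (C : Cell) : Prop where
  n : C.nB1 g R.r m = true
  q : C.qB p e m = true
  t2 : (C.c.cq (R.dl m)).T2 R m C.q.c2

/-- the cells of a big cell: each starts before the end of the one before -/
def covB (t1 : ℕ) : ℕ → List Cell → Bool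
  | e, [] => Nat.ble t1 (Nat.mul 1000 e)
  | e, C :: L => and (Nat.ble C.c.T0 e) (covB t1 C.c.T1 L)

/-- **the cells cover the big cell `m`** -/
def covM (T : ℕ → ℕ) (m : ℕ) : List Cell → Bool
  | [] => false
  | C :: L => and (Nat.ble (Nat.mul 1000 C.c.T0) (Nat.mul 1048576 (T m)))
      (covB (Nat.mul 1048576 (T (Nat.succ m))) C.c.T1 L)

theorem covB_ok {t1 : ℕ} {L : List Cell} : ∀ {e : ℕ}, covB t1 e L = true → ∀ {t : ℝ}, rD e ≤ t →
    1000 * t * 1048576 ≤ t1 → (∃ C ∈ L, t ∈ Icc (rD C.c.T0) (rD C.c.T1)) ∨ t = rD e := by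
  induction L with
  | nil =>
    intro e h t h0 h1
    right
    have h2 : t1 ≤ 1000 * e := Nat.le_of_ble_eq_true h
    have h3 : (t1 : ℝ) ≤ 1000 * e := by exact_mod_cast h2
    refine le_antisymm ?_ h0
    unfold rD
    rw [le_div_iff₀ (by norm_num)]
    linarith
  | cons C L ih =>
    intro e h t h0 h1
    obtain ⟨a1, a2⟩ := and_ok' h
    have b1 : rD C.c.T0 ≤ rD e := rD_mono (Nat.le_of_ble_eq_true a1)
    rcases le_total t (rD C.c.T1) with h2 | h2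
    · exact Or.inl ⟨C, List.mem_cons_self, b1.trans h0, h2⟩
    · rcases ih a2 h2 h1 with ⟨D, hD, hD2⟩ | h3
      · exact Or.inl ⟨D, List.mem_cons_of_mem _ hD, hD2⟩
      · refine Or.inl ⟨C, List.mem_cons_self, b1.trans h0, h3.le⟩

theorem covM_ok {R : Tab} {m : ℕ} {L : List Cell} (h : covM R.T m L = true) {t : ℝ}
    (h0 : R.tn m ≤ t) (h1 : t ≤ R.tn (m + 1)) : ∃ C ∈ L, t ∈ Icc (rD C.c.T0) (rD C.c.T1) := by
  cases L with
  | nil => exact absurd h (by simp [covM])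
  | cons C L =>
    obtain ⟨a1, a2⟩ := and_ok' h
    have b1 : 1000 * C.c.T0 ≤ 1048576 * R.T m := Nat.le_of_ble_eq_true a1
    have b2 : (1000 : ℝ) * C.c.T0 ≤ 1048576 * R.T m := by exact_mod_cast b1
    have c1 : rD C.c.T0 ≤ R.tn m := by
      unfold rD Tab.tn
      rw [div_le_div_iff₀ (by norm_num) (by norm_num)]
      linarith
    rcases le_total t (rD C.c.T1) with h2 | h2
    · exact ⟨C, List.mem_cons_self, c1.trans h0, h2⟩
    · have h3 : 1000 * t * 1048576 ≤ ((Nat.mul 1048576 (R.T (Nat.succ m)) : ℕ) : ℝ) := by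
        have e : ((Nat.mul 1048576 (R.T (Nat.succ m)) : ℕ) : ℝ) = 1048576 * (R.T (m + 1) : ℝ) := by
          show (((1048576 * R.T (m + 1) : ℕ)) : ℝ) = _
          push_cast
          ring
        rw [e]
        unfold Tab.tn at h1
        rw [le_div_iff₀ (by norm_num)] at h1
        linarith
      rcases covB_ok a2 h2 h3 with ⟨D, hD, hD2⟩ | h4
      · exact ⟨D, List.mem_cons_of_mem _ hD, hD2⟩
      · exact ⟨C, List.mem_cons_self, c1.trans h0, h4.le⟩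

section

variable {p : Ps} {q : TDt5} {G : FrG} {R : Tab} {m : ℕ} {C : Cell}

/-- what the numbers of a cell give -/
structure CellF1 (p : Ps) (q : TDt5) (R : Tab) (m : ℕ) (C : Cell) : Prop where
  nn : (C.c.cq (R.dl m)).Nn
  it : (C.c.cq (R.dl m)).It R m
  s1 : (C.c.cq (R.dl m)).c0 ≤ 2 * (C.c.cq (R.dl m)).c1
  s2 : 2 * (C.c.cq (R.dl m)).c1 ≤ 3 * (C.c.cq (R.dl m)).c2
  fr : (C.c.cq (R.dl m)).Fr p.kf (Pool.Agent.RZ.RCO.kdN p q) p.z.hz.rr
  t2 : (C.c.cq (R.dl m)).T2 R m C.q.c2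
  bx : (C.c.cq (R.dl m)).Bx
  F : ∀ u y z, De (rD C.c.em) u y z → (C.c.cq (R.dl m)).F u y z + (C.c.cq (R.dl m)).F2 C.q.c2 u y z
    ≤ rD C.kap * ((1 + u) * (1 + u ^ 2) - z / 2)
  kt : ∀ t ∈ Icc (rD C.c.T0) (rD C.c.T1),
    (C.c.cq (R.dl m)).S t * rD C.kap ≤ pv p.d.ktl t
  em : XM ≤ rD C.c.em

theorem Cell.dl1 (h : C.nB1 G R.r m = true) : rD C.f.dl ≤ R.dl m ∧ R.dl m ≤ rD C.c.δ := by
  obtain ⟨a1, a2⟩ := and_ok' h
  obtain ⟨b3, b4⟩ := and_ok' a2
  obtain ⟨d1, d2⟩ := and_ok' b4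
  unfold Tab.dl
  rcases Nat.eq_zero_or_pos m with hm | hm
  · rw [if_pos hm]
    rw [show Nat.beq m 0 = true from by rw [hm]; rfl, cond_true] at d2
    obtain ⟨f1, f2⟩ := and_ok' d2
    have g1 : 50 * C.f.dl ≤ 1048576 := Nat.le_of_ble_eq_true f1
    have g2 : 1048576 ≤ 50 * C.c.δ := Nat.le_of_ble_eq_true f2
    have g1' : (50 : ℝ) * C.f.dl ≤ 1048576 := by exact_mod_cast g1
    have g2' : (1048576 : ℝ) ≤ 50 * C.c.δ := by exact_mod_cast g2
    unfold rD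
    constructor
    · rw [div_le_iff₀ (by norm_num)]; linarith
    · rw [le_div_iff₀ (by norm_num)]; linarith
  · rw [if_neg (by omega)]
    have hb : Nat.beq m 0 = false := by
      cases h6 : Nat.beq m 0 with
      | true => have := Nat.eq_of_beq_eq_true h6; omega
      | false => rfl
    rw [hb, cond_false] at d2
    have g1 : C.f.dl = 0 := Nat.eq_of_beq_eq_true d2
    rw [g1]
    exact ⟨rD_zero.le, rD_nonneg _⟩

/-- **the conditions of one cell** -/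
theorem CellOk1.of {e : ExD} (h1 : C.nB1 G R.r m = true) (h2 : C.qB p e m = true)
    (h3 : C.c.t2B R.r m C.q = true) : CellOk1 p e G R m C :=
  ⟨h1, h2, t2B_ok (itB_ok (Cell.dl1 h1).2 (and_ok' (and_ok' h1).1).1).1 h3⟩

theorem CellOk1.out (hp : p.Ok) (qP : q.Pos) (qB : q.Bd) (hG : G.Ok p (exD q))
    (h : CellOk1 p (exD q) G R m C) : CellF1 p q R m C := by
  obtain ⟨a1, a2⟩ := and_ok' h.n
  obtain ⟨b1, b2⟩ := and_ok' a1
  obtain ⟨b3, b4⟩ := and_ok' a2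
  obtain ⟨c1, c2⟩ := and_ok' b3
  obtain ⟨d1, d2⟩ := and_ok' b4
  have hq := h.q
  unfold Cell.qB at hq
  rw [Bool.and_eq_true, Bool.and_eq_true] at hq
  obtain ⟨⟨e1, e2⟩, e3⟩ := hq
  have hdl := Cell.dl1 h.n
  obtain ⟨n1, n2, n3, n4, n5⟩ := itB_ok hdl.2 b1
  have hem : XM ≤ rD C.c.em := by
    have g1 : 1048576 ≤ xN * C.c.em := Nat.le_of_ble_eq_true d1
    have g2 : (1048576 : ℝ) ≤ (xN : ℝ) * C.c.em := by exact_mod_cast g1
    unfold XM rD
    rw [div_le_div_iff₀ xN_pos (by norm_num)]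
    linarith
  have hrun := bx_of (d := C.c) (δ := R.dl m) (kap := C.kap)
    (F2 := (C.c.cq (R.dl m)).F2 C.q.c2) fun u y z hd =>
      run_all (F2N := C.c.F2N C.q) (F2_ok c1) (R.dl_nonneg m) hdl.2 n5 C.l c2 hd
  refine ⟨n1, n2, n3, n4, ?_, h.t2, hrun.1, hrun.2, fun t ht => ktB_ok e3 ht, hem⟩
  refine FrC.fr hG hp.z b2 e1 (fun l hl => ?_) (kdN_le_exD hp qP qB) ?_ ?_ hdl.1
  · exact List.all_eq_true.1 e2 l (List.mem_range.2 hl)
  · intro t t' h0 h1 h2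
    exact TDt5.A_mono qP qB ⟨h0, h1.trans h2⟩ ⟨h0.trans h1, h2⟩ h1
  · intro t t' h0 h1 h2
    exact TDt5.B_mono qP ⟨h0, h1.trans h2⟩ ⟨h0.trans h1, h2⟩ h1

end

/-! ### the inequality of the centres -/

section tt

variable {V : Type} [Fintype V] [DecidableEq V]
variable {Gr : SimpleGraph V} [Fintype Gr.edgeSet] [DecidableEq Gr.edgeSet]

open Pool.Agent.RZ.RCO in
/-- **the inequality of the centres from the numbers of all cells**, several cells for a big cell -/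
theorem tt_sub {p : Ps} (hp : p.Ok) {q : TDt5} {g : GDatN} (hq : DnN p q) (hg : g.Pos p.d q)
    (hB : g.Bd) {R : Tab} {G : FrG} (hG : G.Ok p (exD q))
    (hsh : p.d.shT = [1, 0, 0, 0, -1]) (hk1 : p.d.k1 = 1 / 2) {cells : ℕ → List Cell}
    (hcov : ∀ m < R.M, covM R.T m (cells m) = true)
    (hc : ∀ m < R.M, ∀ C ∈ cells m, CellOk1 p (exD q) G R m C)
    {x : Gr.edgeSet → ℝ} [CX x] (hx : IsFractionalMatching Gr x) {C : Cx (V ⊕ V)}
    (hC : Cls p.z.hz (xe x) (P0 V) C)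
    {Ls Lsf : V ⊕ V → V ⊕ V → V ⊕ V → ℝ → ℝ → ℝ}
    (hR : ∀ t ∈ Icc (0 : ℝ) 1, ∃ m < R.M, R.tn m ≤ t ∧ t ≤ R.tn (m + 1) ∧
      (∀ a b, P0 V a → P0 V b → a ≠ b →
        Rw (xe x) (P0 V) p.z.hz.rr ((p.da (kdN p q) C).R x) (p.da (kdN p q) C).L
          (p.da (kdN p q) C).Lt a b t R m) ∧
      ∀ a, P0 V a → Sr (xe x) (P0 V) (p.da (kdN p q) C).L (p.da (kdN p q) C).Lt a t R m
        (fun d e s => Ls a d e t s) (fun d e s => Lsf a d e t s)) :
    TT (p.da (kdN p q) C) x := by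
  have hw := wt_xe hx zero_le_one le_rfl fun e => (hx.1 e).2
  have hD := da_ok hp (C := C) (fun w => kdN_cn C.N w) (kdN_ge hp hq.qP hq.qB)
  have hGp := gpN_of hp hq.qP hq.qB hg hB C
  have kok : (p.da (kdN p q) C).k.Ok := Dt.kf_ok hD.T hD.k
  have kq := Dt.kq hD.T hD.k
  have hf := Da.lf hD hx hC
  have hR' : ∀ t ∈ Icc (0 : ℝ) 1, ∃ mc : ℕ × Cell, CellF1 p q R mc.1 mc.2 ∧
      t ∈ Icc (rD mc.2.c.T0) (rD mc.2.c.T1) ∧
      (∀ a b, P0 V a → P0 V b → a ≠ b →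
        Rw (xe x) (P0 V) p.z.hz.rr ((p.da (kdN p q) C).R x) (p.da (kdN p q) C).L
          (p.da (kdN p q) C).Lt a b t R mc.1) ∧
      ∀ a, P0 V a → Sr (xe x) (P0 V) (p.da (kdN p q) C).L (p.da (kdN p q) C).Lt a t R mc.1
        (fun d e s => Ls a d e t s) (fun d e s => Lsf a d e t s) := by
    intro t ht
    obtain ⟨m, h1, h2, h3, h4, h5⟩ := hR t ht
    obtain ⟨D, hD1, hD2⟩ := covM_ok (hcov m h1) h2 h3
    exact ⟨(m, D), (hc m h1 D hD1).out hp hq.qP hq.qB hG, hD2, h4, h5⟩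
  have : Nonempty (ℕ × Cell) := ⟨(hR' 0 ⟨le_rfl, zero_le_one⟩).choose⟩
  choose! ct hcell hin h4 h5 using hR'
  have gap : ∀ a b d, P0 V a → P0 V b → P0 V d → a ≠ b → a ≠ d → b ≠ d → ∀ t ∈ Icc (0 : ℝ) 1,
      (p.da (kdN p q) C).k.mb (xr (xe x) (P0 V) a b) (xr (xe x) (P0 V) a d)
        (xr (xe x) (P0 V) b d) t
        + min ((xdOf (xe x) (p.da (kdN p q) C).κd ((p.da (kdN p q) C).R x)
            (p.da (kdN p q) C).L (p.da (kdN p q) C).Lt).E (xe x) (P0 V)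
            (p.da (kdN p q) C).k a b d t)
          ((xdOf (xe x) (p.da (kdN p q) C).κd ((p.da (kdN p q) C).R x)
            (p.da (kdN p q) C).L (p.da (kdN p q) C).Lt).E (xe x) (P0 V)
            (p.da (kdN p q) C).k a d b t) ≤ 1 := by
    intro a b d ha hb hd hab had hbd t ht
    have := gap_of_A hf hw kok kq.fc hD.k.cPe hGp.ab kq.ms hGp.hA hGp.a0 hGp.hγ hGp.le ha hb hd
      hab had hbd ht
    linarith [hGp.d0]
  have emX : ∀ t ∈ Icc (0 : ℝ) 1, ∀ a b, xe x a b ≤ rD (ct t).2.c.em := fun t ht a b =>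
    (hw.leX a b).trans (hcell t ht).em
  refine tt_ofF (D := p.da (kdN p q) C) hx
    (F1 := fun t u y z => ((ct t).2.c.cq (R.dl (ct t).1)).S t
      * ((ct t).2.c.cq (R.dl (ct t).1)).F u y z)
    (F2 := fun t u y z => ((ct t).2.c.cq (R.dl (ct t).1)).S t
      * ((ct t).2.c.cq (R.dl (ct t).1)).F2 (ct t).2.q.c2 u y z)
    (hs := fun u => (1 + u) * (1 + u ^ 2)) (em := XM) ?_ ?_ ?_ ?_ ?_ XM_pos.le
    (fun a b _ _ => hw.leX a b) ?_
  · intro a ha t ht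
    have hF := hcell t ht
    exact t1_cell hF.nn hF.it hF.fr hF.bx hF.s1 hF.s2 (hin t ht) hf hw (emX t ht) kok kq.fc
      hD.k.cPe ha (fun b hb hab => h4 t ht a b ha hb hab) kq.ms
      (fun b d hb hd hab had hbd => gap a b d ha hb hd hab had hbd t ht)
  · intro a ha t ht
    have hF := hcell t ht
    exact t2_cell hF.nn hF.it hF.fr hF.bx hF.t2 (hin t ht) hf hw (emX t ht) hw.pz kok kq.fc
      hD.k.cPe ha (fun b hb hab => h4 t ht b a hb ha hab) (h5 t ht a ha)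
  · intro y hy
    show y ^ 2 * (1 - y) * ((1 + y) * (1 + y ^ 2)) ≤ y ^ 2 * pv p.d.shT y
    rw [hsh]
    simp only [pv]
    push_cast
    refine le_of_eq ?_
    ring
  · show 0 ≤ (0 : ℝ) ^ 2 * pv p.d.shT 0
    simp
  · intro t ht
    have hF := hcell t ht
    have i1 := hF.kt t (hin t ht)
    have i2 := hF.nn.S_nonneg ht.1
    exact (mul_nonneg i2 (rD_nonneg _)).trans i1
  · intro t ht u y z hd
    have hF := hcell t ht
    have i1 := hF.kt t (hin t ht)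
    have i2 := hF.nn.S_nonneg ht.1
    have hd' : De (rD (ct t).2.c.em) u y z :=
      ⟨hd.1, hd.2.1.trans hF.em, hd.2.2.1.trans hF.em, hd.2.2.2.trans hF.em⟩
    have i3 := hF.F u y z hd'
    obtain ⟨hu, hy, hz, hK⟩ := hd.1.mem
    have i4 : 0 ≤ (1 + u) * (1 + u ^ 2) - z / 2 := by
      have : 0 ≤ u * (1 + u + u ^ 2) := by
        have := hu.1
        positivity
      have := hz.2
      nlinarith
    have e : (p.da (kdN p q) C).T.kt t = pv p.d.ktl t := rfl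
    have e2 : ((p.da (kdN p q) C).T.k1 : ℝ) = 1 / 2 := by
      show ((p.d.k1 : ℚ) : ℝ) = 1 / 2
      rw [hk1]
      push_cast
      rfl
    rw [e, e2]
    have i5 := mul_le_mul_of_nonneg_left i3 i2
    have i6 := mul_le_mul_of_nonneg_right i1 i4
    calc _ = ((ct t).2.c.cq (R.dl (ct t).1)).S t
          * (((ct t).2.c.cq (R.dl (ct t).1)).F u y z
            + ((ct t).2.c.cq (R.dl (ct t).1)).F2 (ct t).2.q.c2 u y z) := by ring
      _ ≤ ((ct t).2.c.cq (R.dl (ct t).1)).S t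
          * (rD (ct t).2.kap * ((1 + u) * (1 + u ^ 2) - z / 2)) := i5
      _ = ((ct t).2.c.cq (R.dl (ct t).1)).S t * rD (ct t).2.kap
          * ((1 + u) * (1 + u ^ 2) - z / 2) := by ring
      _ ≤ _ := by
        refine i6.trans (le_of_eq ?_)
        ring

open Pool.Agent.RZ.RCO in
/-- **the inequality of the centres from the table of the rows**, several cells for a big cell -/
theorem tt_tab_sub {p : Ps} (hp : p.Ok) {q : TDt5} {g : GDatN} (hq : DnN p q) (hg : g.Pos p.d q)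
    (hB : g.Bd) {R : Tab} {G : FrG} (hG : G.Ok p (exD q))
    (hsh : p.d.shT = [1, 0, 0, 0, -1]) (hk1 : p.d.k1 = 1 / 2) {cells : ℕ → List Cell}
    (hcov : ∀ m < R.M, covM R.T m (cells m) = true)
    (hc : ∀ m < R.M, ∀ C ∈ cells m, CellOk1 p (exD q) G R m C)
    {x : Gr.edgeSet → ℝ} [CX x] (hx : IsFractionalMatching Gr x) {C : Cx (V ⊕ V)}
    (hC : Cls p.z.hz (xe x) (P0 V) C)
    {Ls Lsf : V ⊕ V → V ⊕ V → V ⊕ V → ℝ → ℝ → ℝ}
    (hR : RTb2 (xe x) (P0 V) R (Lc (P0 V) C) (RCN.K.Lr (P0 V) C) Ls Lsf) :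
    TT (p.da (kdN p q) C) x :=
  tt_sub hp hq hg hB hG hsh hk1 hcov hc hx hC (Ls := Ls) (Lsf := Lsf) fun _ ht =>
    RTb2.at (D := p.da (kdN p q) C) hR ht

end tt

end Pool.Agent.RZ.RCN.K
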