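import Pool.Agent.RZ.RCO.FrX_1
import Pool.Agent.RZ.RCO.FrX_3
import Pool.Agent.RZ.RCO.FrXc
import Pool.Agent.RZ.RCO.RTab
import Pool.Agent.RZ.RCO.TTs

/-! Generated: the numbers of the cell 0 (MP_73ccd0_lc). -/

set_option maxRecDepth 100000

namespace Pool.Agent.RZ.RCO.TD

open Pool.Agent.RZ.RCN.K Pool.Agent.RZ.RCO.RT Pool.Agent.RZ.RCO.RTab Pool.Agent.RZ.RCM9

/-- the numbers of the first type -/
def n0c : CqN where
  T0 := 0
  T1 := 52429
  δ := 20972
  μ := 0
  em := 87382
  pm := 87747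
  f0 := [1049172, 1049180, 1049187, 1049194, 1049194, 1049194, 1049194, 1049194, 1049194, 1049194, 1049194]
  f1 := [32965, 63888, 94811, 126166, 153625, 180951, 209053, 233586, 257564, 282572, 304675]
  f2 := [32575, 58373, 84171, 110293, 133496, 156599, 180288, 201277, 221846, 243200, 262336]
  κ := [1048716, 1048718, 1048720, 1048722, 1048726, 1048731, 1048735, 1048741, 1048747, 1048753, 1048760]
  κh := [11074, 11257, 11804, 12714, 13988, 15627, 17631, 19997, 22728, 25824, 29284]
  ρ1 := [111705, 130700, 149695, 168733, 187377, 206005, 224720, 243039, 261296, 279678, 297697]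
  ρ2 := [0, 0, 0, 0, 0, 0, 0, 0, 0, 0, 0]
  Φ := [0, 104932, 209865, 314799, 419734, 524669, 629605, 734541, 839478, 944415, 1049353]
  Cm := [0, 104932, 209865, 314799, 419734, 524669, 629605, 734541, 839478, 944415, 1049353]
  Em := 0
  b0 := 51939
  b1 := 8325
  b2 := 7318
  e0 := 17185
  e1 := 3290
  e2 := 2847
  β0 := 51944
  β1 := 8326
  β2 := 7319
  c0 := 1087262
  c1 := 543632
  c2 := 362423
  α := 1049348
  A0 := (1000483, 680511, 347018, 0)
  A1 := (183385, 124539, 63411, 0)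
  A2 := (158828, 107867, 54924, 0)
  B0 := (163351, 110372, 55922, 0)
  B1 := (33178, 22420, 11361, 0)
  B2 := (0, 0, 0, 0)
  K1 := (1006364, 678919, 343465, 0)
  K20 := (996817, 678018, 345746, 0)
  K21 := (38894, 26391, 13426, 0)
  K22 := (28992, 19672, 10009, 0)
  K3 := (171387, 115762, 58633, 0)
  K40 := (155696, 105200, 53302, 0)
  K41 := (6706, 4532, 2297, 0)
  K42 := (1, 1, 1, 0)
  HA := (0, 0, 0, 0)
  HB := (0, 0, 0, 0)
  RB := (163356, 110338, 55886, 0)
  qa := 87427
  qb := 87382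
  φ := 1048576
  th := 1052433
  thh := 1100128
  ν0 := 1674557
  v0 := 218514
  p0 := [509, 509, 509, 509, 509, 509]
  x0 := [509, 509, 509, 509, 509, 509]
  m0 := [53001, 53001, 53001, 53001, 53001, 53001]
  m1 := [14463, 14463, 14463, 14463, 14463, 14463]
  C0 := [1048576, 1048576, 1048576, 1048576, 1048576, 1048576]
  C1 := [0, 0, 0, 0, 0, 0]
  lam := 374483
  il := 1468040

/-- the numbers of the second type -/
def n0q : C2N where
  th2 := 1018382
  thh2 := 1008312
  k1 := 1023127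
  k3 := 969092
  io := 1143902
  QA0 := (1052172, 715658, 364935, 0)
  QA1 := (41040, 27847, 14167, 0)
  QH0 := (172572, 116605, 59082, 0)
  QH1 := (7436, 5025, 2547, 0)

/-- the cell -/
def c0 : Cell where
  c := n0c
  f := FrX.f0
  q := n0q
  kap := 4714774
  n := 16
  l := [(87382, 43)]

theorem n0 : c0.nB1 FrX.G (tabq 1).r 0 = true := by decide +kernel

theorem q0 : c0.qB FrX.p FrX.e 0 = true := by decide +kernel

theorem t0 : c0.c.t2B (tabq 1).r 0 c0.q = true := by decide +kernel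

theorem ok0 (k : ℕ) : CellOk1 FrX.p FrX.e FrX.G (tabq k) 0 c0 := .of n0 q0 t0

end Pool.Agent.RZ.RCO.TD
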