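import Pool.Agent.RZ.RCO.FrX_1
import Pool.Agent.RZ.RCO.FrX_3
import Pool.Agent.RZ.RCO.FrXc
import Pool.Agent.RZ.RCO.RTab
import Pool.Agent.RZ.RCO.TTs

/-! Generated: the numbers of the cell 1 (MP_73ccd0_lc). -/

set_option maxRecDepth 100000

namespace Pool.Agent.RZ.RCO.TD

open Pool.Agent.RZ.RCN.K Pool.Agent.RZ.RCO.RT Pool.Agent.RZ.RCO.RTab Pool.Agent.RZ.RCM9

/-- the numbers of the first type -/
def n1c : CqN where
  T0 := 52428
  T1 := 104858
  δ := 0
  μ := 0
  em := 87382
  pm := 88111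
  f0 := [1049172, 1049190, 1049198, 1049354, 1048078, 1046753, 1045700, 1043399, 1040903, 1038753, 1035641]
  f1 := [32965, 96310, 155490, 209021, 258339, 305687, 348053, 386226, 423009, 456200, 485833]
  f2 := [32575, 85294, 134893, 180263, 222437, 263110, 299986, 333624, 366187, 395960, 422932]
  κ := [1048920, 1048925, 1048933, 1048945, 1048961, 1048979, 1049000, 1049024, 1049050, 1049080, 1049113]
  κh := [53609, 55610, 58810, 63611, 70012, 77213, 85615, 95216, 105618, 117620, 130822]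
  ρ1 := [111705, 149847, 187565, 224715, 261392, 297823, 333651, 368853, 403844, 438258, 471963]
  ρ2 := [0, 0, 0, 0, 0, 0, 0, 0, 0, 0, 0]
  Φ := [39, 104992, 209947, 314911, 419821, 524602, 629266, 733765, 838026, 942058, 1045830]
  Cm := [0, 104953, 209908, 314872, 419782, 524563, 629227, 733726, 837987, 942019, 1045791]
  Em := 39
  b0 := 102074
  b1 := 27261
  b2 := 23890
  e0 := 81814
  e1 := 25419
  e2 := 22013
  β0 := 102156
  β1 := 27287
  β2 := 23913
  c0 := 1093307
  c1 := 546655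
  c2 := 464602
  α := 1045788
  A0 := (968389, 663129, 340368, 0)
  A1 := (283050, 193707, 99373, 0)
  A2 := (245108, 167740, 86051, 0)
  B0 := (223657, 151704, 77152, 0)
  B1 := (66328, 44946, 22837, 0)
  B2 := (0, 0, 0, 0)
  K1 := (412906, 281677, 144053, 0)
  K20 := (2272424, 1556099, 798709, 0)
  K21 := (229876, 157223, 80614, 0)
  K22 := (172248, 117806, 60402, 0)
  K3 := (213286, 144550, 73454, 0)
  K40 := (234562, 159101, 80914, 0)
  K41 := (22245, 15064, 7649, 0)
  K42 := (1, 1, 1, 0)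
  HA := (0, 0, 0, 0)
  HB := (0, 0, 0, 0)
  RB := (223686, 151598, 77036, 0)
  qa := 206764
  qb := 87382
  φ := 1048576
  th := 446849
  thh := 999825
  ν0 := 2357409
  v0 := 632650
  p0 := [1038, 1038, 1038, 1038, 1038, 1038]
  x0 := [1038, 1038, 1038, 1038, 1038, 1038]
  m0 := [105633, 105633, 105633, 105633, 105633, 105633]
  m1 := [78590, 78590, 78590, 78590, 78590, 78590]
  C0 := [1048576, 1048576, 1048576, 1048576, 1048576, 1048576]
  C1 := [0, 0, 0, 0, 0, 0]
  lam := 337213
  il := 1630293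

/-- the numbers of the second type -/
def n1q : C2N where
  th2 := 1010797
  thh2 := 1001854
  k1 := 2411640
  k3 := 1068292
  io := 1143902
  QA0 := (1032682, 707222, 363038, 0)
  QA1 := (104394, 71414, 36622, 0)
  QH0 := (238336, 161672, 82227, 0)
  QH1 := (22606, 15310, 7774, 0)

/-- the cell -/
def c1 : Cell where
  c := n1c
  f := FrX.f1
  q := n1q
  kap := 4982879
  n := 16
  l := [(53248, 43), (87382, 43)]

theorem n1 : c1.nB1 FrX.G (tabq 1).r 1 = true := by decide +kernel

theorem q1 : c1.qB FrX.p FrX.e 1 = true := by decide +kernel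

theorem t1 : c1.c.t2B (tabq 1).r 1 c1.q = true := by decide +kernel

theorem ok1 (k : ℕ) : CellOk1 FrX.p FrX.e FrX.G (tabq k) 1 c1 := .of n1 q1 t1

end Pool.Agent.RZ.RCO.TD
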