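import Pool.Agent.RZ.RCO.FrX_1
import Pool.Agent.RZ.RCO.FrX_3
import Pool.Agent.RZ.RCO.FrXc
import Pool.Agent.RZ.RCO.RTab
import Pool.Agent.RZ.RCO.TTs

/-! Generated: the numbers of the cell 10 (MP_73ccd0_lc). -/

set_option maxRecDepth 100000

namespace Pool.Agent.RZ.RCO.TD

open Pool.Agent.RZ.RCN.K Pool.Agent.RZ.RCO.RT Pool.Agent.RZ.RCO.RTab Pool.Agent.RZ.RCM9

/-- the numbers of the first type -/
def n10c : CqN where
  T0 := 770703
  T1 := 823133
  δ := 0
  μ := 0
  em := 87382
  pm := 93099
  f0 := [1059573, 1025593, 936985, 834272, 729808, 634245, 551264, 482305, 426926, 383307, 349135]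
  f1 := [67839, 441324, 625533, 703386, 714914, 702644, 668886, 628532, 586246, 546745, 511775]
  f2 := [59068, 379636, 553810, 641014, 666181, 664709, 647216, 615940, 581023, 545022, 511379]
  κ := [1075293, 1075999, 1078038, 1081396, 1086090, 1092244, 1100136, 1110199, 1123121, 1140109, 1163302]
  κh := [46407, 47714, 51488, 57704, 66393, 77785, 92394, 111021, 134941, 166387, 209319]
  ρ1 := [114047, 403562, 658876, 881390, 1055354, 1172358, 1255740, 1310900, 1360593, 1411557, 1463449]
  ρ2 := [0, 0, 0, 0, 0, 0, 0, 0, 0, 0, 0]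
  Φ := [1308, 108258, 209048, 300239, 381062, 454684, 526373, 594742, 659421, 720552, 778677]
  Cm := [0, 106950, 207740, 298931, 379754, 453376, 525065, 593434, 658113, 719244, 777369]
  Em := 1308
  b0 := 492974
  b1 := 442597
  b2 := 427043
  e0 := 50709
  e1 := 52770
  e2 := 50747
  β0 := 517504
  β1 := 468124
  β2 := 451592
  c0 := 605745
  c1 := 887925
  c2 := 887238
  α := 699354
  A0 := (718523, 633617, 394110, 0)
  A1 := (713153, 612301, 374584, 0)
  A2 := (682407, 584293, 356824, 0)
  B0 := (722633, 593170, 352293, 0)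
  B1 := (835963, 678491, 399837, 0)
  B2 := (0, 0, 0, 0)
  K1 := (712199, 545587, 308187, 0)
  K20 := (766174, 675637, 420246, 0)
  K21 := (873803, 738160, 446892, 0)
  K22 := (818565, 688652, 415797, 0)
  K3 := (712554, 548720, 311202, 0)
  K40 := (749118, 614911, 365205, 0)
  K41 := (1047466, 844074, 494919, 0)
  K42 := (1, 1, 1, 0)
  HA := (0, 0, 0, 0)
  HB := (0, 0, 0, 0)
  RB := (890200, 685731, 388998, 0)
  qa := 106982
  qb := 87382
  φ := 1129988
  th := 983363
  thh := 1011503
  ν0 := 1184693
  v0 := 193317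
  p0 := [127188, 127188, 127188, 127188, 127188, 127188]
  x0 := [135588, 135588, 135588, 135588, 135588, 135588]
  m0 := [583159, 583159, 583159, 583159, 583159, 583159]
  m1 := [90358, 90358, 90358, 90358, 90358, 90358]
  C0 := [1054766, 1054766, 1054766, 1054766, 1054766, 1054766]
  C1 := [11844, 11844, 11844, 11844, 11844, 11844]
  lam := 2752586
  il := 199724

/-- the numbers of the second type -/
def n10q : C2N where
  th2 := 1759599
  thh2 := 1892890
  k1 := 2129805
  k3 := 2227400
  io := 1143902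
  QA0 := (565977, 496967, 308308, 0)
  QA1 := (642740, 541658, 327412, 0)
  QH0 := (507275, 417137, 248327, 0)
  QH1 := (712182, 574953, 337679, 0)

/-- the cell -/
def c10 : Cell where
  c := n10c
  f := FrX.f16
  q := n10q
  kap := 2407948
  n := 16
  l := [(12288, 43), (28672, 43), (55296, 43), (81920, 43), (87382, 19480)]

theorem n10 : c10.nB1 FrX.G (tabq 1).r 10 = true := by decide +kernel

theorem q10 : c10.qB FrX.p FrX.e 10 = true := by decide +kernel

theorem t10 : c10.c.t2B (tabq 1).r 10 c10.q = true := by decide +kernel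

theorem ok10 (k : ℕ) : CellOk1 FrX.p FrX.e FrX.G (tabq k) 10 c10 := .of n10 q10 t10

end Pool.Agent.RZ.RCO.TD
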