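import Pool.Agent.RZ.RCO.FrX_1
import Pool.Agent.RZ.RCO.FrX_3
import Pool.Agent.RZ.RCO.FrXc
import Pool.Agent.RZ.RCO.RTab
import Pool.Agent.RZ.RCO.TTs

/-! Generated: the numbers of the cell 11 (MP_73ccd0_lc). -/

set_option maxRecDepth 100000

namespace Pool.Agent.RZ.RCO.TD

open Pool.Agent.RZ.RCN.K Pool.Agent.RZ.RCO.RT Pool.Agent.RZ.RCO.RTab Pool.Agent.RZ.RCM9

/-- the numbers of the first type -/
def n11c : CqN where
  T0 := 823132
  T1 := 865076
  δ := 0
  μ := 0
  em := 87382
  pm := 93390
  f0 := [1060942, 1021828, 923669, 812388, 702719, 604445, 521416, 454333, 401843, 361434, 329984]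
  f1 := [61587, 467088, 637119, 711037, 714602, 693022, 652910, 608139, 564276, 524719, 491142]
  f2 := [54276, 400798, 565920, 649368, 667283, 661656, 634990, 599909, 561179, 524045, 490707]
  κ := [1079090, 1079936, 1082373, 1086391, 1092027, 1099467, 1109067, 1121403, 1137477, 1159063, 1189287]
  κh := [46709, 48082, 52037, 58557, 67703, 79777, 95355, 115374, 141459, 176488, 225535]
  ρ1 := [113852, 418634, 682961, 913819, 1082563, 1197803, 1274990, 1328823, 1381221, 1435551, 1489603]
  ρ2 := [0, 0, 0, 0, 0, 0, 0, 0, 0, 0, 0]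
  Φ := [1399, 108610, 208906, 298670, 377357, 450904, 521772, 588829, 651965, 711585, 768455]
  Cm := [0, 107211, 207507, 297271, 375958, 449505, 520373, 587430, 650566, 710186, 767056]
  Em := 1399
  b0 := 501884
  b1 := 459971
  b2 := 446430
  e0 := 50263
  e1 := 53720
  e2 := 51832
  β0 := 530108
  β1 := 490136
  β2 := 475535
  c0 := 589005
  c1 := 876671
  c2 := 875894
  α := 682000
  A0 := (743778, 667284, 419359, 0)
  A1 := (757676, 659922, 407363, 0)
  A2 := (727304, 631501, 389067, 0)
  B0 := (794534, 661526, 396720, 0)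
  B1 := (938678, 771958, 459091, 0)
  B2 := (0, 0, 0, 0)
  K1 := (715238, 551076, 312664, 0)
  K20 := (821992, 737454, 463457, 0)
  K21 := (986059, 843674, 514988, 0)
  K22 := (929625, 791750, 481876, 0)
  K3 := (722538, 560865, 320019, 0)
  K40 := (894842, 745042, 446805, 0)
  K41 := (1302179, 1062409, 628369, 0)
  K42 := (1, 1, 1, 0)
  HA := (0, 0, 0, 0)
  HB := (0, 0, 0, 0)
  RB := (996854, 773809, 441524, 0)
  qa := 111612
  qb := 87382
  φ := 1133928
  th := 948804
  thh := 931035
  ν0 := 1260923
  v0 := 161034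
  p0 := [154303, 154303, 154303, 154303, 154303, 154303]
  x0 := [166908, 166908, 166908, 166908, 166908, 166908]
  m0 := [590858, 590858, 590858, 590858, 590858, 590858]
  m1 := [195998, 195998, 195998, 195998, 195998, 195998]
  C0 := [1057031, 1057031, 1057031, 1057031, 1057031, 1057031]
  C1 := [31788, 31788, 31788, 31788, 31788, 31788]
  lam := 2378666
  il := 231120

/-- the numbers of the second type -/
def n11q : C2N where
  th2 := 1797317
  thh2 := 1981833
  k1 := 2268831
  k3 := 2549500
  io := 1143902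
  QA0 := (594934, 530029, 331718, 0)
  QA1 := (711368, 606368, 369245, 0)
  QH0 := (553426, 461632, 277445, 0)
  QH1 := (808759, 660664, 391210, 0)

/-- the cell -/
def c11 : Cell where
  c := n11c
  f := FrX.f17
  q := n11q
  kap := 2581837
  n := 16
  l := [(10240, 43), (26624, 43), (47104, 43), (81920, 43), (87382, 19480)]

theorem n11 : c11.nB1 FrX.G (tabq 1).r 11 = true := by decide +kernel

theorem q11 : c11.qB FrX.p FrX.e 11 = true := by decide +kernel

theorem t11 : c11.c.t2B (tabq 1).r 11 c11.q = true := by decide +kernel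

theorem ok11 (k : ℕ) : CellOk1 FrX.p FrX.e FrX.G (tabq k) 11 c11 := .of n11 q11 t11

end Pool.Agent.RZ.RCO.TD
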