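import Pool.Agent.RZ.RCO.FrX_1
import Pool.Agent.RZ.RCO.FrX_3
import Pool.Agent.RZ.RCO.FrXc
import Pool.Agent.RZ.RCO.RTab
import Pool.Agent.RZ.RCO.TTs

/-! Generated: the numbers of the cell 12 (MP_73ccd0_lc). -/

set_option maxRecDepth 100000

namespace Pool.Agent.RZ.RCO.TD

open Pool.Agent.RZ.RCN.K Pool.Agent.RZ.RCO.RT Pool.Agent.RZ.RCO.RTab Pool.Agent.RZ.RCM9

/-- the numbers of the first type -/
def n12c : CqN where
  T0 := 865075
  T1 := 901776
  δ := 0
  μ := 0
  em := 87382
  pm := 93645
  f0 := [1062395, 1018730, 912797, 794922, 681593, 581810, 499274, 434019, 384085, 346112, 316316]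
  f1 := [64548, 479755, 645722, 716543, 711556, 685079, 639220, 592174, 547506, 508537, 476507]
  f2 := [56634, 412085, 575024, 656207, 667502, 657177, 624772, 586357, 545736, 508166, 475771]
  κ := [1082771, 1083755, 1086590, 1091291, 1097886, 1106647, 1118005, 1132751, 1152161, 1178804, 1216911]
  κh := [47591, 49036, 53202, 60109, 69798, 82670, 99358, 121023, 149541, 188686, 244675]
  ρ1 := [113851, 431566, 704097, 939784, 1106756, 1216458, 1290360, 1343947, 1399406, 1456804, 1511426]
  ρ2 := [0, 0, 0, 0, 0, 0, 0, 0, 0, 0, 0]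
  Φ := [1485, 108984, 208929, 297598, 374658, 448064, 518301, 584375, 646454, 705135, 761390]
  Cm := [0, 107499, 207444, 296113, 373173, 446579, 516816, 582890, 644969, 703650, 759905]
  Em := 1485
  b0 := 508665
  b1 := 474432
  b2 := 462934
  e0 := 50800
  e1 := 55401
  e2 := 53590
  β0 := 540977
  β1 := 509671
  β2 := 497021
  c0 := 577262
  c1 := 869611
  c2 := 868266
  α := 669937
  A0 := (777256, 708365, 449280, 0)
  A1 := (807216, 712745, 443673, 0)
  A2 := (776787, 683589, 424660, 0)
  B0 := (871201, 734207, 444132, 0)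
  B1 := (1047216, 870943, 522094, 0)
  B2 := (0, 0, 0, 0)
  K1 := (727593, 563404, 320873, 0)
  K20 := (886121, 807581, 512207, 0)
  K21 := (1103451, 955899, 588083, 0)
  K22 := (1045167, 900985, 552597, 0)
  K3 := (789637, 616736, 353523, 0)
  K40 := (986150, 831080, 502733, 0)
  K41 := (1483170, 1222929, 728718, 0)
  K42 := (1, 1, 1, 0)
  HA := (0, 0, 0, 0)
  HB := (0, 0, 0, 0)
  RB := (1109924, 866768, 496793, 0)
  qa := 115774
  qb := 87382
  φ := 1137082
  th := 919754
  thh := 926350
  ν0 := 1308650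
  v0 := 127488
  p0 := [182443, 182443, 182443, 182443, 182443, 182443]
  x0 := [200433, 200433, 200433, 200433, 200433, 200433]
  m0 := [614568, 614568, 614568, 614568, 614568, 614568]
  m1 := [107544, 107544, 107544, 107544, 107544, 107544]
  C0 := [1062842, 1062842, 1062842, 1062842, 1062842, 1062842]
  C1 := [21160, 21160, 21160, 21160, 21160, 21160]
  lam := 2137863
  il := 257153

/-- the numbers of the second type -/
def n12q : C2N where
  th2 := 1845323
  thh2 := 2038568
  k1 := 2416136
  k3 := 2650151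
  io := 1143902
  QA0 := (630387, 569391, 359263, 0)
  QA1 := (783824, 674795, 413520, 0)
  QH0 := (616120, 521122, 315920, 0)
  QH1 := (930680, 768654, 458512, 0)

/-- the cell -/
def c12 : Cell where
  c := n12c
  f := FrX.f18
  q := n12q
  kap := 2779439
  n := 16
  l := [(12288, 43), (28672, 43), (49152, 43), (75776, 43), (87382, 19480)]

theorem n12 : c12.nB1 FrX.G (tabq 1).r 12 = true := by decide +kernel

theorem q12 : c12.qB FrX.p FrX.e 12 = true := by decide +kernel

theorem t12 : c12.c.t2B (tabq 1).r 12 c12.q = true := by decide +kernel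

theorem ok12 (k : ℕ) : CellOk1 FrX.p FrX.e FrX.G (tabq k) 12 c12 := .of n12 q12 t12

end Pool.Agent.RZ.RCO.TD
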