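import Pool.Agent.RZ.RCO.FrX_1
import Pool.Agent.RZ.RCO.FrX_3
import Pool.Agent.RZ.RCO.FrXc
import Pool.Agent.RZ.RCO.RTab
import Pool.Agent.RZ.RCO.TTs

/-! Generated: the numbers of the cell 13 (MP_73ccd0_lc). -/

set_option maxRecDepth 100000

namespace Pool.Agent.RZ.RCO.TD

open Pool.Agent.RZ.RCN.K Pool.Agent.RZ.RCO.RT Pool.Agent.RZ.RCO.RTab Pool.Agent.RZ.RCM9

/-- the numbers of the first type -/
def n13c : CqN where
  T0 := 901775
  T1 := 933233
  δ := 0
  μ := 0
  em := 87382
  pm := 93863
  f0 := [1059935, 1019177, 902496, 780332, 663510, 562818, 481030, 417776, 370003, 333986, 305177]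
  f1 := [68201, 490956, 655784, 717891, 708658, 676580, 627244, 578454, 533526, 495469, 465038]
  f2 := [59428, 421973, 585143, 659428, 667471, 651985, 615372, 574163, 532529, 495082, 463998]
  κ := [1086251, 1087367, 1090605, 1095955, 1103511, 1113570, 1126690, 1143818, 1166704, 1198596, 1245126]
  κh := [48416, 49925, 54303, 61537, 71753, 85353, 103093, 126251, 157195, 200316, 263228]
  ρ1 := [116110, 439500, 725192, 960764, 1124739, 1233810, 1300791, 1357763, 1415160, 1474543, 1529502]
  ρ2 := [0, 0, 0, 0, 0, 0, 0, 0, 0, 0, 0]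
  Φ := [1542, 109288, 209072, 296796, 372504, 445725, 515360, 580622, 641870, 699889, 755840]
  Cm := [0, 107746, 207530, 295254, 370962, 444183, 513818, 579080, 640328, 698347, 754298]
  Em := 1542
  b0 := 513687
  b1 := 486275
  b2 := 476763
  e0 := 51379
  e1 := 56984
  e2 := 55226
  β0 := 549908
  β1 := 526448
  β2 := 515696
  c0 := 567626
  c1 := 864968
  c2 := 863032
  α := 660475
  A0 := (815131, 751833, 480123, 0)
  A1 := (859869, 767165, 480542, 0)
  A2 := (828979, 737026, 460700, 0)
  B0 := (949521, 808414, 492606, 0)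
  B1 := (1157620, 971834, 586452, 0)
  B2 := (0, 0, 0, 0)
  K1 := (764355, 594377, 339593, 0)
  K20 := (929302, 857138, 547371, 0)
  K21 := (1192472, 1042823, 645333, 0)
  K22 := (1133332, 986096, 608319, 0)
  K3 := (834455, 654952, 376801, 0)
  K40 := (1110054, 945090, 575890, 0)
  K41 := (1715288, 1426801, 855458, 0)
  K42 := (2, 1, 1, 0)
  HA := (0, 0, 0, 0)
  HB := (0, 0, 0, 0)
  RB := (1224947, 961210, 552895, 0)
  qa := 116353
  qb := 87382
  φ := 1140123
  th := 919754
  thh := 896934
  ν0 := 1346662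
  v0 := 135225
  p0 := [211105, 211105, 211105, 211105, 211105, 211105]
  x0 := [235718, 235718, 235718, 235718, 235718, 235718]
  m0 := [628074, 628074, 628074, 628074, 628074, 628074]
  m1 := [114881, 114881, 114881, 114881, 114881, 114881]
  C0 := [1067858, 1067858, 1067858, 1067858, 1067858, 1067858]
  C1 := [26844, 26844, 26844, 26844, 26844, 26844]
  lam := 1818751
  il := 302272

/-- the numbers of the second type -/
def n13q : C2N where
  th2 := 1894993
  thh2 := 2065529
  k1 := 2492764
  k3 := 2786224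
  io := 1143902
  QA0 := (671732, 613297, 389387, 0)
  QA1 := (863167, 748946, 461223, 0)
  QH0 := (696389, 596319, 364958, 0)
  QH1 := (1080176, 900475, 541173, 0)

/-- the cell -/
def c13 : Cell where
  c := n13c
  f := FrX.f19
  q := n13q
  kap := 3009959
  n := 16
  l := [(10240, 43), (26624, 43), (47104, 43), (73728, 43), (87382, 43)]

theorem n13 : c13.nB1 FrX.G (tabq 1).r 13 = true := by decide +kernel

theorem q13 : c13.qB FrX.p FrX.e 13 = true := by decide +kernel

theorem t13 : c13.c.t2B (tabq 1).r 13 c13.q = true := by decide +kernel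

theorem ok13 (k : ℕ) : CellOk1 FrX.p FrX.e FrX.G (tabq k) 13 c13 := .of n13 q13 t13

end Pool.Agent.RZ.RCO.TD
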