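import Pool.Agent.RZ.RCO.FrX_1
import Pool.Agent.RZ.RCO.FrX_3
import Pool.Agent.RZ.RCO.FrXc
import Pool.Agent.RZ.RCO.RTab
import Pool.Agent.RZ.RCO.TTs

/-! Generated: the numbers of the cell 14 (MP_73ccd0_lc). -/

set_option maxRecDepth 100000

namespace Pool.Agent.RZ.RCO.TD

open Pool.Agent.RZ.RCN.K Pool.Agent.RZ.RCO.RT Pool.Agent.RZ.RCO.RTab Pool.Agent.RZ.RCM9

/-- the numbers of the first type -/
def n14c : CqN where
  T0 := 933232
  T1 := 959448
  δ := 0
  μ := 0
  em := 87382
  pm := 94045
  f0 := [1060952, 1016587, 894003, 767472, 648415, 547174, 466361, 404786, 358991, 324371, 296009]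
  f1 := [71137, 500036, 663633, 718208, 706132, 668188, 616951, 566962, 522170, 485091, 456183]
  f2 := [61675, 430018, 590002, 664619, 667506, 646218, 607040, 563651, 521566, 484552, 454955]
  κ := [1089433, 1090672, 1094280, 1100254, 1108701, 1119981, 1134763, 1154177, 1180403, 1217533, 1272543]
  κh := [49159, 50723, 55278, 62820, 73484, 87724, 106386, 130896, 164005, 210881, 280329]
  ρ1 := [116500, 448213, 738751, 978106, 1139385, 1244919, 1311024, 1368641, 1428398, 1488925, 1544029]
  ρ2 := [0, 0, 0, 0, 0, 0, 0, 0, 0, 0, 0]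
  Φ := [1599, 109585, 209111, 296037, 371050, 444073, 513153, 577755, 638368, 695944, 751813]
  Cm := [0, 107986, 207512, 294438, 369451, 442474, 511554, 576156, 636769, 694345, 750214]
  Em := 1599
  b0 := 517280
  b1 := 495747
  b2 := 488075
  e0 := 51915
  e1 := 58383
  e2 := 56666
  β0 := 557051
  β1 := 540473
  β2 := 531485
  c0 := 559463
  c1 := 862183
  c2 := 859861
  α := 652903
  A0 := (852674, 794679, 510454, 0)
  A1 := (911657, 820533, 516648, 0)
  A2 := (880213, 789356, 495952, 0)
  B0 := (1026313, 881857, 540388, 0)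
  B1 := (1265290, 1070973, 649664, 0)
  B2 := (0, 0, 0, 0)
  K1 := (741171, 580405, 333349, 0)
  K20 := (1050650, 979188, 628972, 0)
  K21 := (1383187, 1219139, 758078, 0)
  K22 := (1318189, 1155829, 716433, 0)
  K3 := (902700, 711554, 410654, 0)
  K40 := (1200325, 1031377, 632011, 0)
  K41 := (1895033, 1588234, 956951, 0)
  K42 := (2, 1, 1, 0)
  HA := (0, 0, 0, 0)
  HB := (0, 0, 0, 0)
  RB := (1337469, 1053906, 608084, 0)
  qa := 126332
  qb := 87382
  φ := 1143143
  th := 850993
  thh := 896563
  ν0 := 1369655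
  v0 := 235633
  p0 := [238899, 238899, 238899, 238899, 238899, 238899]
  x0 := [271105, 271105, 271105, 271105, 271105, 271105]
  m0 := [636118, 636118, 636118, 636118, 636118, 636118]
  m1 := [157776, 157776, 157776, 157776, 157776, 157776]
  C0 := [1072201, 1072201, 1072201, 1072201, 1072201, 1072201]
  C1 := [42804, 42804, 42804, 42804, 42804, 42804]
  lam := 1693154
  il := 324694

/-- the numbers of the second type -/
def n14q : C2N where
  th2 := 1963433
  thh2 := 2152547
  k1 := 2802320
  k3 := 2916079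
  io := 1143902
  QA0 := (711132, 655477, 418433, 0)
  QA1 := (939971, 821368, 508044, 0)
  QH0 := (765243, 662205, 408164, 0)
  QH1 := (1211795, 1017252, 614779, 0)

/-- the cell -/
def c14 : Cell where
  c := n14c
  f := FrX.f20
  q := n14q
  kap := 3263427
  n := 16
  l := [(8192, 43), (20480, 43), (40960, 43), (67584, 43), (87382, 43)]

theorem n14 : c14.nB1 FrX.G (tabq 1).r 14 = true := by decide +kernel

theorem q14 : c14.qB FrX.p FrX.e 14 = true := by decide +kernel

theorem t14 : c14.c.t2B (tabq 1).r 14 c14.q = true := by decide +kernel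

theorem ok14 (k : ℕ) : CellOk1 FrX.p FrX.e FrX.G (tabq k) 14 c14 := .of n14 q14 t14

end Pool.Agent.RZ.RCO.TD
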