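import Pool.Agent.RZ.RCO.FrX_1
import Pool.Agent.RZ.RCO.FrX_3
import Pool.Agent.RZ.RCO.FrXc
import Pool.Agent.RZ.RCO.RTab
import Pool.Agent.RZ.RCO.TTs

/-! Generated: the numbers of the cell 15 (MP_73ccd0_lc). -/

set_option maxRecDepth 100000

namespace Pool.Agent.RZ.RCO.TD

open Pool.Agent.RZ.RCN.K Pool.Agent.RZ.RCO.RT Pool.Agent.RZ.RCO.RTab Pool.Agent.RZ.RCM9

/-- the numbers of the first type -/
def n15c : CqN where
  T0 := 959447
  T1 := 982516
  δ := 0
  μ := 0
  em := 87382
  pm := 94206
  f0 := [1061909, 1014430, 886872, 756887, 636077, 534573, 454705, 394642, 350391, 316811, 288483]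
  f1 := [73631, 507857, 666670, 721734, 702720, 661775, 608362, 557614, 513108, 477032, 449471]
  f2 := [63584, 436968, 596844, 665989, 666257, 641817, 599732, 555109, 512692, 476309, 448204]
  κ := [1092494, 1093849, 1097813, 1104387, 1113705, 1126187, 1142607, 1164298, 1193878, 1236304, 1299920]
  κh := [50109, 51727, 56462, 64314, 75444, 90353, 109965, 135873, 171204, 221879, 297863]
  ρ1 := [116831, 455857, 753464, 992836, 1151821, 1255185, 1319230, 1378568, 1440556, 1501197, 1556855]
  ρ2 := [0, 0, 0, 0, 0, 0, 0, 0, 0, 0, 0]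
  Φ := [1646, 109878, 209224, 295523, 370852, 443717, 512415, 576536, 636726, 694083, 750094]
  Cm := [0, 108232, 207578, 293877, 369206, 442071, 510769, 574890, 635080, 692437, 748448]
  Em := 1646
  b0 := 520038
  b1 := 503819
  b2 := 497898
  e0 := 52755
  e1 := 60026
  e2 := 58323
  β0 := 563438
  β1 := 553200
  β2 := 545878
  c0 := 552445
  c1 := 860719
  c2 := 858294
  α := 647355
  A0 := (894290, 842380, 544283, 0)
  A1 := (967032, 879149, 556806, 0)
  A2 := (934702, 846666, 535099, 0)
  B0 := (1107206, 959127, 590588, 0)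
  B1 := (1378491, 1175222, 716110, 0)
  B2 := (0, 0, 0, 0)
  K1 := (793994, 625458, 360794, 0)
  K20 := (1079625, 1016957, 657082, 0)
  K21 := (1452357, 1292663, 808545, 0)
  K22 := (1386565, 1227739, 765551, 0)
  K3 := (961697, 761325, 440760, 0)
  K40 := (1312618, 1137067, 700156, 0)
  K41 := (2111690, 1781480, 1077930, 0)
  K42 := (2, 2, 1, 0)
  HA := (0, 0, 0, 0)
  HB := (0, 0, 0, 0)
  RB := (1455547, 1151776, 666594, 0)
  qa := 124309
  qb := 87382
  φ := 1146104
  th := 868573
  thh := 884484
  ν0 := 1375658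
  v0 := 156540
  p0 := [266736, 266736, 266736, 266736, 266736, 266736]
  x0 := [307784, 307784, 307784, 307784, 307784, 307784]
  m0 := [650796, 650796, 650796, 650796, 650796, 650796]
  m1 := [115100, 115100, 115100, 115100, 115100, 115100]
  C0 := [1079098, 1079098, 1079098, 1079098, 1079098, 1079098]
  C1 := [35888, 35888, 35888, 35888, 35888, 35888]
  lam := 1473626
  il := 373064

/-- the numbers of the second type -/
def n15q : C2N where
  th2 := 2009100
  thh2 := 2249833
  k1 := 2819038
  k3 := 3100030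
  io := 1143902
  QA0 := (769563, 714528, 458008, 0)
  QA1 := (1042625, 916162, 568621, 0)
  QH0 := (845400, 737542, 457570, 0)
  QH1 := (1360411, 1148177, 697312, 0)

/-- the cell -/
def c15 : Cell where
  c := n15c
  f := FrX.f21
  q := n15q
  kap := 3524592
  n := 16
  l := [(8192, 43), (20480, 43), (40960, 43), (67584, 43), (83968, 43), (87382, 3162136)]

theorem n15 : c15.nB1 FrX.G (tabq 1).r 15 = true := by decide +kernel

theorem q15 : c15.qB FrX.p FrX.e 15 = true := by decide +kernel

theorem t15 : c15.c.t2B (tabq 1).r 15 c15.q = true := by decide +kernel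

theorem ok15 (k : ℕ) : CellOk1 FrX.p FrX.e FrX.G (tabq k) 15 c15 := .of n15 q15 t15

end Pool.Agent.RZ.RCO.TD
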