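import Pool.Agent.RZ.RCO.FrX_1
import Pool.Agent.RZ.RCO.FrX_3
import Pool.Agent.RZ.RCO.FrXc
import Pool.Agent.RZ.RCO.RTab
import Pool.Agent.RZ.RCO.TTs

/-! Generated: the numbers of the cell 16a (MP_73ccd0_lc). -/

set_option maxRecDepth 100000

namespace Pool.Agent.RZ.RCO.TD

open Pool.Agent.RZ.RCN.K Pool.Agent.RZ.RCO.RT Pool.Agent.RZ.RCO.RTab Pool.Agent.RZ.RCM9

/-- the numbers of the first type -/
def n16ac : CqN where
  T0 := 982515
  T1 := 992477
  δ := 0
  μ := 0
  em := 87382
  pm := 94275
  f0 := [1062720, 1012478, 880603, 747606, 625328, 523778, 444872, 386221, 343251, 310412, 281858]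
  f1 := [74872, 510994, 669449, 721581, 699371, 656007, 600822, 549592, 505472, 470348, 443978]
  f2 := [64538, 439781, 599722, 666468, 664682, 637839, 593275, 547698, 505124, 469449, 442792]
  κ := [1093901, 1095314, 1099446, 1106300, 1116023, 1129066, 1146250, 1169015, 1200200, 1245188, 1312969]
  κh := [49365, 50974, 55680, 63487, 74561, 89417, 108990, 134919, 170439, 221680, 298882]
  ρ1 := [117008, 459114, 759765, 998463, 1157364, 1258818, 1323009, 1382871, 1445573, 1506625, 1562872]
  ρ2 := [0, 0, 0, 0, 0, 0, 0, 0, 0, 0, 0]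
  Φ := [1686, 110001, 209057, 294676, 369963, 442508, 510681, 574175, 633761, 690642, 746394]
  Cm := [0, 108315, 207371, 292990, 368277, 440822, 508995, 572489, 632075, 688956, 744708]
  Em := 1686
  b0 := 521062
  b1 := 507199
  b2 := 502091
  e0 := 51500
  e1 := 59064
  e2 := 57430
  β0 := 564731
  β1 := 557282
  β2 := 550788
  c0 := 545976
  c1 := 859983
  c2 := 857745
  α := 641024
  A0 := (933843, 886414, 575134, 0)
  A1 := (1018469, 931879, 592390, 0)
  A2 := (985241, 898117, 569704, 0)
  B0 := (1186511, 1035307, 640362, 0)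
  B1 := (1484024, 1273182, 778999, 0)
  B2 := (0, 0, 0, 0)
  K1 := (855447, 677090, 391941, 0)
  K20 := (1094045, 1038481, 673799, 0)
  K21 := (1497157, 1340264, 841212, 0)
  K22 := (1431526, 1274797, 797622, 0)
  K3 := (1020563, 810125, 469937, 0)
  K40 := (1422721, 1241416, 767845, 0)
  K41 := (2309061, 1959059, 1189933, 0)
  K42 := (2, 2, 1, 0)
  HA := (0, 0, 0, 0)
  HB := (0, 0, 0, 0)
  RB := (1567772, 1243866, 721275, 0)
  qa := 121037
  qb := 87382
  φ := 1149098
  th := 895033
  thh := 874484
  ν0 := 1375658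
  v0 := 122419
  p0 := [288940, 288940, 288940, 288940, 288940, 288940]
  x0 := [337986, 337986, 337986, 337986, 337986, 337986]
  m0 := [648241, 648241, 648241, 648241, 648241, 648241]
  m1 := [153245, 153245, 153245, 153245, 153245, 153245]
  C0 := [1080470, 1080470, 1080470, 1080470, 1080470, 1080470]
  C1 := [52667, 52667, 52667, 52667, 52667, 52667]
  lam := 1343321
  il := 409252

/-- the numbers of the second type -/
def n16aq : C2N where
  th2 := 2087674
  thh2 := 2326115
  k1 := 2846868
  k3 := 3246558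
  io := 1143902
  QA0 := (822282, 767237, 493143, 0)
  QA1 := (1137967, 1002529, 623207, 0)
  QH0 := (947346, 832705, 519704, 0)
  QH1 := (1531197, 1297725, 791314, 0)

/-- the cell -/
def c16a : Cell where
  c := n16ac
  f := FrX.f22
  q := n16aq
  kap := 3800684
  n := 16
  l := [(8192, 43), (20480, 43), (40960, 43), (67584, 43), (83968, 43), (87382, 19480)]

theorem n16a : c16a.nB1 FrX.G (tabq 1).r 16 = true := by decide +kernel

theorem q16a : c16a.qB FrX.p FrX.e 16 = true := by decide +kernel

theorem t16a : c16a.c.t2B (tabq 1).r 16 c16a.q = true := by decide +kernel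

theorem ok16a (k : ℕ) : CellOk1 FrX.p FrX.e FrX.G (tabq k) 16 c16a := .of n16a q16a t16a

end Pool.Agent.RZ.RCO.TD
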