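import Pool.Agent.RZ.RCO.FrX_1
import Pool.Agent.RZ.RCO.FrX_3
import Pool.Agent.RZ.RCO.FrXc
import Pool.Agent.RZ.RCO.RTab
import Pool.Agent.RZ.RCO.TTs

/-! Generated: the numbers of the cell 16b (MP_73ccd0_lc). -/

set_option maxRecDepth 100000

namespace Pool.Agent.RZ.RCO.TD

open Pool.Agent.RZ.RCN.K Pool.Agent.RZ.RCO.RT Pool.Agent.RZ.RCO.RTab Pool.Agent.RZ.RCM9

/-- the numbers of the first type -/
def n16bc : CqN where
  T0 := 992477
  T1 := 1002439
  δ := 0
  μ := 0
  em := 87382
  pm := 94344
  f0 := [1063113, 1011568, 877887, 743667, 620823, 519300, 440822, 382762, 340317, 307729, 278973]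
  f1 := [76106, 514088, 672047, 721266, 698137, 653185, 597588, 546211, 502309, 467621, 441765]
  f2 := [65487, 442561, 602442, 666803, 664269, 635690, 590527, 544522, 501958, 466649, 440668]
  κ := [1095370, 1096842, 1101148, 1108294, 1118438, 1132063, 1150040, 1173917, 1206763, 1254428, 1326631]
  κh := [49996, 51639, 56446, 64422, 75745, 90954, 111021, 137674, 174338, 227543, 308140]
  ρ1 := [117185, 462363, 765927, 1003884, 1163077, 1262266, 1326788, 1387176, 1450787, 1511828, 1569037]
  ρ2 := [0, 0, 0, 0, 0, 0, 0, 0, 0, 0, 0]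
  Φ := [1706, 110142, 209153, 294565, 369919, 442421, 510468, 573834, 633337, 690239, 746186]
  Cm := [0, 108436, 207447, 292859, 368213, 440715, 508762, 572128, 631631, 688533, 744480]
  Em := 1706
  b0 := 522036
  b1 := 510549
  b2 := 506272
  e0 := 52142
  e1 := 60073
  e2 := 58436
  β0 := 567594
  β1 := 563037
  β2 := 557330
  c0 := 543015
  c1 := 859880
  c2 := 857902
  α := 639435
  A0 := (931310, 884072, 573635, 0)
  A1 := (1019454, 932865, 593047, 0)
  A2 := (986557, 899412, 570560, 0)
  B0 := (1186080, 1034960, 640159, 0)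
  B1 := (1488883, 1277442, 781644, 0)
  B2 := (0, 0, 0, 0)
  K1 := (801780, 634606, 367346, 0)
  K20 := (1160989, 1102101, 715105, 0)
  K21 := (1600190, 1432624, 899228, 0)
  K22 := (1531042, 1363588, 853241, 0)
  K3 := (1005753, 798371, 463120, 0)
  K40 := (1442634, 1258827, 778629, 0)
  K41 := (2358048, 2000782, 1215341, 0)
  K42 := (2, 2, 1, 0)
  HA := (0, 0, 0, 0)
  HB := (0, 0, 0, 0)
  RB := (1571946, 1247174, 723192, 0)
  qa := 129050
  qb := 87382
  φ := 1150558
  th := 841137
  thh := 862100
  ν0 := 1421596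
  v0 := 122615
  p0 := [294815, 294815, 294815, 294815, 294815, 294815]
  x0 := [346125, 346125, 346125, 346125, 346125, 346125]
  m0 := [655680, 655680, 655680, 655680, 655680, 655680]
  m1 := [129853, 129853, 129853, 129853, 129853, 129853]
  C0 := [1083647, 1083647, 1083647, 1083647, 1083647, 1083647]
  C1 := [45936, 45936, 45936, 45936, 45936, 45936]
  lam := 1343321
  il := 409252

/-- the numbers of the second type -/
def n16bq : C2N where
  th2 := 2087674
  thh2 := 2326115
  k1 := 3033730
  k3 := 3298029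
  io := 1143902
  QA0 := (820032, 765194, 491850, 0)
  QA1 := (1143012, 1007062, 626058, 0)
  QH0 := (947011, 832442, 519552, 0)
  QH1 := (1541580, 1306671, 796823, 0)

/-- the cell -/
def c16b : Cell where
  c := n16bc
  f := FrX.f23
  q := n16bq
  kap := 3935533
  n := 16
  l := [(8192, 43), (20480, 43), (40960, 43), (67584, 43), (87382, 43)]

theorem n16b : c16b.nB1 FrX.G (tabq 1).r 16 = true := by decide +kernel

theorem q16b : c16b.qB FrX.p FrX.e 16 = true := by decide +kernel

theorem t16b : c16b.c.t2B (tabq 1).r 16 c16b.q = true := by decide +kernel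

theorem ok16b (k : ℕ) : CellOk1 FrX.p FrX.e FrX.G (tabq k) 16 c16b := .of n16b q16b t16b

end Pool.Agent.RZ.RCO.TD
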