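import Pool.Agent.RZ.RCO.FrX_1
import Pool.Agent.RZ.RCO.FrX_3
import Pool.Agent.RZ.RCO.FrXc
import Pool.Agent.RZ.RCO.RTab
import Pool.Agent.RZ.RCO.TTs

/-! Generated: the numbers of the cell 17a (MP_73ccd0_lc). -/

set_option maxRecDepth 100000

namespace Pool.Agent.RZ.RCO.TD

open Pool.Agent.RZ.RCN.K Pool.Agent.RZ.RCO.RT Pool.Agent.RZ.RCO.RTab Pool.Agent.RZ.RCM9

/-- the numbers of the first type -/
def n17ac : CqN where
  T0 := 1002438
  T1 := 1011351
  δ := 0
  μ := 0
  em := 87382
  pm := 94406
  f0 := [1063502, 1010646, 875178, 739735, 616326, 514833, 436783, 379314, 337391, 305063, 276104]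
  f1 := [77196, 516830, 674208, 720875, 696779, 650294, 594354, 542836, 499153, 464917, 439593]
  f2 := [66324, 445028, 604732, 667001, 663722, 633473, 587799, 541358, 498797, 463874, 438605]
  κ := [1096739, 1098267, 1102734, 1110150, 1120684, 1134850, 1153566, 1178509, 1212973, 1263213, 1339569]
  κh := [50486, 52157, 57045, 65159, 76685, 92185, 112664, 139956, 177665, 232636, 316183]
  ρ1 := [117342, 465267, 771301, 1009743, 1167491, 1267133, 1329512, 1391039, 1455200, 1516615, 1574826]
  ρ2 := [0, 0, 0, 0, 0, 0, 0, 0, 0, 0, 0]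
  Φ := [1730, 110276, 209232, 294426, 369826, 442262, 510162, 573381, 632781, 689684, 745799]
  Cm := [0, 108546, 207502, 292696, 368096, 440532, 508432, 571651, 631051, 687954, 744069]
  Em := 1730
  b0 := 522821
  b1 := 513493
  b2 := 509989
  e0 := 52602
  e1 := 60864
  e2 := 59230
  β0 := 570018
  β1 := 568103
  β2 := 563133
  c0 := 539994
  c1 := 859896
  c2 := 858212
  α := 637717
  A0 := (979360, 935928, 609475, 0)
  A1 := (1077682, 991624, 632396, 0)
  A2 := (1043464, 956481, 608660, 0)
  B0 := (1272578, 1117382, 694501, 0)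
  B1 := (1604443, 1383949, 850404, 0)
  B2 := (0, 0, 0, 0)
  K1 := (862186, 684263, 396868, 0)
  K20 := (1197026, 1143941, 744933, 0)
  K21 := (1665938, 1498761, 943449, 0)
  K22 := (1595388, 1427659, 895863, 0)
  K3 := (1125993, 895820, 520489, 0)
  K40 := (1485633, 1304455, 810775, 0)
  K41 := (2448619, 2087528, 1272856, 0)
  K42 := (2, 2, 1, 0)
  HA := (0, 0, 0, 0)
  HB := (0, 0, 0, 0)
  RB := (1694559, 1347365, 782512, 0)
  qa := 126776
  qb := 87382
  φ := 1152059
  th := 857906
  thh := 898199
  ν0 := 1409683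
  v0 := 261495
  p0 := [317452, 317452, 317452, 317452, 317452, 317452]
  x0 := [378086, 378086, 378086, 378086, 378086, 378086]
  m0 := [651819, 651819, 651819, 651819, 651819, 651819]
  m1 := [229898, 229898, 229898, 229898, 229898, 229898]
  C0 := [1084511, 1084511, 1084511, 1084511, 1084511, 1084511]
  C1 := [89291, 89291, 89291, 89291, 89291, 89291]
  lam := 1250546
  il := 439613

/-- the numbers of the second type -/
def n17aq : C2N where
  th2 := 2162893
  thh2 := 2450493
  k1 := 3085641
  k3 := 3339113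
  io := 1143902
  QA0 := (897616, 839337, 540132, 0)
  QA1 := (1270545, 1119076, 695561, 0)
  QH0 := (1063557, 942622, 591423, 0)
  QH1 := (1732309, 1473942, 901329, 0)

/-- the cell -/
def c17a : Cell where
  c := n17ac
  f := FrX.f24
  q := n17aq
  kap := 4080934
  n := 16
  l := [(8192, 43), (20480, 43), (32768, 43), (53248, 43), (69632, 43), (87382, 11296)]

theorem n17a : c17a.nB1 FrX.G (tabq 1).r 17 = true := by decide +kernel

theorem q17a : c17a.qB FrX.p FrX.e 17 = true := by decide +kernel

theorem t17a : c17a.c.t2B (tabq 1).r 17 c17a.q = true := by decide +kernel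

theorem ok17a (k : ℕ) : CellOk1 FrX.p FrX.e FrX.G (tabq k) 17 c17a := .of n17a q17a t17a

end Pool.Agent.RZ.RCO.TD
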