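import Pool.Agent.RZ.RCO.FrX_1
import Pool.Agent.RZ.RCO.FrX_3
import Pool.Agent.RZ.RCO.FrXc
import Pool.Agent.RZ.RCO.RTab
import Pool.Agent.RZ.RCO.TTs

/-! Generated: the numbers of the cell 17b (MP_73ccd0_lc). -/

set_option maxRecDepth 100000

namespace Pool.Agent.RZ.RCO.TD

open Pool.Agent.RZ.RCN.K Pool.Agent.RZ.RCO.RT Pool.Agent.RZ.RCO.RTab Pool.Agent.RZ.RCM9

/-- the numbers of the first type -/
def n17bc : CqN where
  T0 := 1011351
  T1 := 1020265
  δ := 0
  μ := 0
  em := 87382
  pm := 94468
  f0 := [1063846, 1009813, 872758, 736218, 612301, 510835, 433189, 376315, 334871, 302736, 273533]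
  f1 := [78271, 519548, 676527, 720819, 695577, 647812, 591465, 539861, 496427, 462602, 437723]
  f2 := [67151, 447476, 607214, 667566, 662451, 632358, 585248, 538549, 496048, 461503, 436866]
  κ := [1098166, 1099751, 1104384, 1112080, 1123019, 1137756, 1157265, 1183301, 1219413, 1272305, 1353154]
  κh := [51114, 52818, 57798, 66071, 77830, 93672, 114644, 142632, 181451, 238308, 325219]
  ρ1 := [117496, 468167, 773690, 1016809, 1170648, 1270208, 1332719, 1394913, 1459844, 1521163, 1580914]
  ρ2 := [0, 0, 0, 0, 0, 0, 0, 0, 0, 0, 0]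
  Φ := [1752, 110417, 209343, 294361, 369838, 442243, 510045, 573167, 632519, 689478, 745819]
  Cm := [0, 108665, 207591, 292609, 368086, 440491, 508293, 571415, 630767, 687726, 744067]
  Em := 1752
  b0 := 523541
  b1 := 516399
  b2 := 513691
  e0 := 53235
  e1 := 61851
  e2 := 60215
  β0 := 572580
  β1 := 573375
  β2 := 569160
  c0 := 537183
  c1 := 860027
  c2 := 858647
  α := 636435
  A0 := (977253, 933954, 608203, 0)
  A1 := (1079051, 992941, 633257, 0)
  A2 := (1045150, 958093, 609710, 0)
  B0 := (1272385, 1117240, 694423, 0)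
  B1 := (1609217, 1388124, 852992, 0)
  B2 := (0, 0, 0, 0)
  K1 := (848205, 673162, 390427, 0)
  K20 := (1211548, 1157868, 754019, 0)
  K21 := (1697431, 1527178, 961369, 0)
  K22 := (1626583, 1455699, 913505, 0)
  K3 := (1085263, 863417, 501663, 0)
  K40 := (1540935, 1353044, 840988, 0)
  K41 := (2555521, 2178749, 1328510, 0)
  K42 := (2, 2, 1, 0)
  HA := (0, 0, 0, 0)
  HB := (0, 0, 0, 0)
  RB := (1698694, 1350649, 784418, 0)
  qa := 128834
  qb := 87382
  φ := 1153480
  th := 845799
  thh := 865833
  ν0 := 1442238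
  v0 := 164416
  p0 := [323344, 323344, 323344, 323344, 323344, 323344]
  x0 := [386567, 386567, 386567, 386567, 386567, 386567]
  m0 := [649716, 649716, 649716, 649716, 649716, 649716]
  m1 := [314260, 314260, 314260, 314260, 314260, 314260]
  C0 := [1084246, 1084246, 1084246, 1084246, 1084246, 1084246]
  C1 := [125062, 125062, 125062, 125062, 125062, 125062]
  lam := 1172886
  il := 468721

/-- the numbers of the second type -/
def n17bq : C2N where
  th2 := 2169082
  thh2 := 2428578
  k1 := 3142884
  k3 := 3437459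
  io := 1143902
  QA0 := (893107, 835160, 537458, 0)
  QA1 := (1272618, 1120968, 696762, 0)
  QH0 := (1073010, 951033, 596713, 0)
  QH1 := (1758572, 1496371, 915072, 0)

/-- the cell -/
def c17b : Cell where
  c := n17bc
  f := FrX.f25
  q := n17bq
  kap := 4220714
  n := 16
  l := [(12288, 43), (24576, 43), (36864, 43), (57344, 43), (73728, 43), (87382, 43)]

theorem n17b : c17b.nB1 FrX.G (tabq 1).r 17 = true := by decide +kernel

theorem q17b : c17b.qB FrX.p FrX.e 17 = true := by decide +kernel

theorem t17b : c17b.c.t2B (tabq 1).r 17 c17b.q = true := by decide +kernel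

theorem ok17b (k : ℕ) : CellOk1 FrX.p FrX.e FrX.G (tabq k) 17 c17b := .of n17b q17b t17b

end Pool.Agent.RZ.RCO.TD
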