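import Pool.Agent.RZ.RCO.FrX_1
import Pool.Agent.RZ.RCO.FrX_3
import Pool.Agent.RZ.RCO.FrXc
import Pool.Agent.RZ.RCO.RTab
import Pool.Agent.RZ.RCO.TTs

/-! Generated: the numbers of the cell 18a (MP_73ccd0_lc). -/

set_option maxRecDepth 100000

namespace Pool.Agent.RZ.RCO.TD

open Pool.Agent.RZ.RCN.K Pool.Agent.RZ.RCO.RT Pool.Agent.RZ.RCO.RTab Pool.Agent.RZ.RCM9

/-- the numbers of the first type -/
def n18ac : CqN where
  T0 := 1020264
  T1 := 1027604
  δ := 0
  μ := 0
  em := 87382
  pm := 94519
  f0 := [1064185, 1008972, 870342, 732703, 608277, 506924, 429755, 373386, 332363, 300439, 270948]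
  f1 := [79146, 521768, 678395, 720817, 693868, 645837, 588603, 536924, 493714, 460296, 435904]
  f2 := [67824, 449479, 606043, 671075, 661999, 630348, 582761, 535760, 493311, 459145, 435204]
  κ := [1099387, 1101020, 1105796, 1113728, 1125018, 1140248, 1160414, 1187378, 1224951, 1280240, 1364862]
  κh := [51499, 53224, 58269, 66647, 78572, 94659, 115960, 144441, 184128, 242529, 331912]
  ρ1 := [117622, 470552, 778175, 1020732, 1174349, 1272611, 1335363, 1398102, 1463636, 1524823, 1586170]
  ρ2 := [0, 0, 0, 0, 0, 0, 0, 0, 0, 0, 0]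
  Φ := [1773, 110534, 209409, 294230, 369738, 442088, 509791, 572783, 632047, 689014, 745516]
  Cm := [0, 108761, 207636, 292457, 367965, 440315, 508018, 571010, 630274, 687241, 743743]
  Em := 1773
  b0 := 524080
  b1 := 518759
  b2 := 516726
  e0 := 53562
  e1 := 62467
  e2 := 60835
  β0 := 574493
  β1 := 577553
  β2 := 573984
  c0 := 534279
  c1 := 860194
  c2 := 859110
  α := 634924
  A0 := (1023334, 982596, 641485, 0)
  A1 := (1135392, 1048712, 670248, 0)
  A2 := (1100238, 1012290, 645544, 0)
  B0 := (1353244, 1198405, 749377, 0)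
  B1 := (1717252, 1493318, 922954, 0)
  B2 := (0, 0, 0, 0)
  K1 := (891175, 709441, 412383, 0)
  K20 := (1265724, 1215336, 793429, 0)
  K21 := (1789246, 1614938, 1018522, 0)
  K22 := (1716072, 1540565, 968541, 0)
  K3 := (1153090, 918903, 534540, 0)
  K40 := (1643210, 1455192, 909949, 0)
  K41 := (2742900, 2356876, 1445226, 0)
  K42 := (2, 2, 1, 0)
  HA := (0, 0, 0, 0)
  HB := (0, 0, 0, 0)
  RB := (1814237, 1444841, 840095, 0)
  qa := 128770
  qb := 87382
  φ := 1154975
  th := 847772
  thh := 863541
  ν0 := 1441694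
  v0 := 383538
  p0 := [344266, 344266, 344266, 344266, 344266, 344266]
  x0 := [417244, 417244, 417244, 417244, 417244, 417244]
  m0 := [648034, 648034, 648034, 648034, 648034, 648034]
  m1 := [377170, 377170, 377170, 377170, 377170, 377170]
  C0 := [1085409, 1085409, 1085409, 1085409, 1085409, 1085409]
  C1 := [162825, 162825, 162825, 162825, 162825, 162825]
  lam := 933749
  il := 588762

/-- the numbers of the second type -/
def n18aq : C2N where
  th2 := 2267358
  thh2 := 2357721
  k1 := 3281174
  k3 := 3349637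
  io := 1143902
  QA0 := (964834, 905111, 583500, 0)
  QA1 := (1398576, 1232294, 766102, 0)
  QH0 := (1112620, 973647, 604466, 0)
  QH1 := (1900897, 1607920, 976549, 0)

/-- the cell -/
def c18a : Cell where
  c := n18ac
  f := FrX.f26
  q := n18aq
  kap := 4370350
  n := 16
  l := [(6144, 43), (16384, 43), (24576, 43), (36864, 43), (57344, 43), (87382, 43)]

theorem n18a : c18a.nB1 FrX.G (tabq 1).r 18 = true := by decide +kernel

theorem q18a : c18a.qB FrX.p FrX.e 18 = true := by decide +kernel

theorem t18a : c18a.c.t2B (tabq 1).r 18 c18a.q = true := by decide +kernel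

theorem ok18a (k : ℕ) : CellOk1 FrX.p FrX.e FrX.G (tabq k) 18 c18a := .of n18a q18a t18a

end Pool.Agent.RZ.RCO.TD
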