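import Pool.Agent.RZ.RCO.FrX_1
import Pool.Agent.RZ.RCO.FrX_3
import Pool.Agent.RZ.RCO.FrXc
import Pool.Agent.RZ.RCO.RTab
import Pool.Agent.RZ.RCO.TTs

/-! Generated: the numbers of the cell 19a (MP_73ccd0_lc). -/

set_option maxRecDepth 100000

namespace Pool.Agent.RZ.RCO.TD

open Pool.Agent.RZ.RCN.K Pool.Agent.RZ.RCO.RT Pool.Agent.RZ.RCO.RTab Pool.Agent.RZ.RCM9

/-- the numbers of the first type -/
def n19ac : CqN where
  T0 := 1034944
  T1 := 1041760
  δ := 0
  μ := 0
  em := 87382
  pm := 94617
  f0 := [1064733, 1007572, 866381, 726914, 601813, 500625, 424098, 368648, 328355, 296674, 266650]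
  f1 := [80805, 526009, 678310, 723696, 691623, 641581, 583889, 532138, 489383, 456672, 433019]
  f2 := [69100, 453308, 609712, 671422, 661027, 626958, 578665, 531194, 488920, 455453, 432641]
  κ := [1101868, 1103599, 1108661, 1117076, 1129085, 1145284, 1166797, 1195717, 1236222, 1296304, 1388907]
  κh := [52566, 54343, 59540, 68178, 80505, 97134, 119217, 148904, 190483, 252158, 347217]
  ρ1 := [117861, 475147, 787156, 1028581, 1181518, 1277116, 1340496, 1404286, 1470661, 1532119, 1597217]
  ρ2 := [0, 0, 0, 0, 0, 0, 0, 0, 0, 0, 0]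
  Φ := [1809, 110776, 209611, 294151, 369943, 442230, 509774, 572625, 631842, 688950, 745891]
  Cm := [0, 108967, 207802, 292342, 368134, 440421, 507965, 570816, 630033, 687141, 744082]
  Em := 1809
  b0 := 524973
  b1 := 523226
  b2 := 522548
  e0 := 54605
  e1 := 64105
  e2 := 62466
  β0 := 578521
  β1 := 586090
  β2 := 583804
  c0 := 529277
  c1 := 860658
  c2 := 860280
  α := 633022
  A0 := (1070701, 1032263, 675363, 0)
  A1 := (1196269, 1108652, 709896, 0)
  A2 := (1160001, 1070823, 684156, 0)
  B0 := (1439808, 1283689, 806152, 0)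
  B1 := (1837386, 1607597, 997706, 0)
  B2 := (0, 0, 0, 0)
  K1 := (936518, 747138, 434965, 0)
  K20 := (1320304, 1272905, 832804, 0)
  K21 := (1891372, 1712159, 1081702, 0)
  K22 := (1815882, 1634914, 1029621, 0)
  K3 := (1219517, 973002, 566496, 0)
  K40 := (1760988, 1570043, 985981, 0)
  K41 := (2972062, 2568525, 1581364, 0)
  K42 := (2, 2, 1, 0)
  HA := (0, 0, 0, 0)
  HB := (0, 0, 0, 0)
  RB := (1941483, 1547938, 900777, 0)
  qa := 128808
  qb := 87382
  φ := 1157616
  th := 850345
  thh := 857330
  ν0 := 1438097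
  v0 := 135846
  p0 := [370096, 370096, 370096, 370096, 370096, 370096]
  x0 := [456390, 456390, 456390, 456390, 456390, 456390]
  m0 := [667357, 667357, 667357, 667357, 667357, 667357]
  m1 := [242822, 242822, 242822, 242822, 242822, 242822]
  C0 := [1096655, 1096655, 1096655, 1096655, 1096655, 1096655]
  C1 := [116626, 116626, 116626, 116626, 116626, 116626]
  lam := 1042402
  il := 527394

/-- the numbers of the second type -/
def n19aq : C2N where
  th2 := 2359747
  thh2 := 2554954
  k1 := 3411622
  k3 := 3663749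
  io := 1143902
  QA0 := (1108916, 1034288, 664650, 0)
  QA1 := (1650446, 1441835, 891687, 0)
  QH0 := (1252416, 1095743, 680132, 0)
  QH1 := (2172899, 1831961, 1110212, 0)

/-- the cell -/
def c19a : Cell where
  c := n19ac
  f := FrX.f28
  q := n19aq
  kap := 4640279
  n := 16
  l := [(10240, 43), (22528, 43), (34816, 43), (51200, 43), (61440, 43), (81920, 3162136), (86016, 19480), (87382, 1075855384)]

theorem n19a : c19a.nB1 FrX.G (tabq 1).r 19 = true := by decide +kernel

theorem q19a : c19a.qB FrX.p FrX.e 19 = true := by decide +kernel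

theorem t19a : c19a.c.t2B (tabq 1).r 19 c19a.q = true := by decide +kernel

theorem ok19a (k : ℕ) : CellOk1 FrX.p FrX.e FrX.G (tabq k) 19 c19a := .of n19a q19a t19a

end Pool.Agent.RZ.RCO.TD
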