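import Pool.Agent.RZ.RCO.FrX_1
import Pool.Agent.RZ.RCO.FrX_3
import Pool.Agent.RZ.RCO.FrXc
import Pool.Agent.RZ.RCO.RTab
import Pool.Agent.RZ.RCO.TTs

/-! Generated: the numbers of the cell 19b (MP_73ccd0_lc). -/

set_option maxRecDepth 100000

namespace Pool.Agent.RZ.RCO.TD

open Pool.Agent.RZ.RCN.K Pool.Agent.RZ.RCO.RT Pool.Agent.RZ.RCO.RTab Pool.Agent.RZ.RCM9

/-- the numbers of the first type -/
def n19bc : CqN where
  T0 := 1041760
  T1 := 1048576
  δ := 0
  μ := 0
  em := 87382
  pm := 94664
  f0 := [1064983, 1006915, 864542, 724256, 598838, 497700, 421550, 366521, 326513, 294990, 264607]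
  f1 := [81590, 528032, 680130, 723361, 690546, 639590, 581718, 529959, 487394, 455041, 431739]
  f2 := [69703, 455137, 611627, 671525, 660526, 625431, 576759, 529100, 486900, 453800, 431548]
  κ := [1103128, 1104909, 1110113, 1118779, 1131141, 1147827, 1170044, 1199924, 1241961, 1304525, 1401062]
  κh := [53143, 54948, 60220, 69000, 81524, 98429, 120938, 151210, 193799, 257184, 354989]
  ρ1 := [117974, 477356, 791477, 1032960, 1184521, 1281106, 1342693, 1407266, 1474101, 1535450, 1602745]
  ρ2 := [0, 0, 0, 0, 0, 0, 0, 0, 0, 0, 0]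
  Φ := [1825, 110897, 209724, 294145, 369987, 442253, 509736, 572539, 631755, 688957, 746142]
  Cm := [0, 109072, 207899, 292320, 368162, 440428, 507911, 570714, 629930, 687132, 744317]
  Em := 1825
  b0 := 525369
  b1 := 525356
  b2 := 525344
  e0 := 55176
  e1 := 64973
  e2 := 63332
  β0 := 580546
  β1 := 590330
  β2 := 588677
  c0 := 526818
  c1 := 860915
  c2 := 860907
  α := 632276
  A0 := (1069415, 1031029, 674557, 0)
  A1 := (1197991, 1110252, 710922, 0)
  A2 := (1161990, 1072674, 685344, 0)
  B0 := (1439879, 1283773, 806212, 0)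
  B1 := (1842194, 1611889, 1000404, 0)
  B2 := (0, 0, 0, 0)
  K1 := (920989, 734745, 427749, 0)
  K20 := (1339347, 1291271, 844823, 0)
  K21 := (1928615, 1745845, 1102974, 0)
  K22 := (1852577, 1667963, 1050438, 0)
  K3 := (1192386, 951356, 553894, 0)
  K40 := (1801247, 1605962, 1008548, 0)
  K41 := (3055307, 2640633, 1625826, 0)
  K42 := (2, 2, 1, 0)
  HA := (0, 0, 0, 0)
  HB := (0, 0, 0, 0)
  RB := (1945708, 1551303, 902734, 0)
  qa := 131040
  qb := 87382
  φ := 1158962
  th := 837248
  thh := 838210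
  ν0 := 1477090
  v0 := 136639
  p0 := [374873, 374873, 374873, 374873, 374873, 374873]
  x0 := [463791, 463791, 463791, 463791, 463791, 463791]
  m0 := [670400, 670400, 670400, 670400, 670400, 670400]
  m1 := [254544, 254544, 254544, 254544, 254544, 254544]
  C0 := [1098661, 1098661, 1098661, 1098661, 1098661, 1098661]
  C1 := [124774, 124774, 124774, 124774, 124774, 124774]
  lam := 937244
  il := 586567

/-- the numbers of the second type -/
def n19bq : C2N where
  th2 := 2377593
  thh2 := 2519612
  k1 := 3494695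
  k3 := 3699191
  io := 1143902
  QA0 := (1099256, 1025288, 658870, 0)
  QA1 := (1644579, 1436695, 888502, 0)
  QH0 := (1270055, 1111191, 689727, 0)
  QH1 := (2214634, 1867244, 1131634, 0)

/-- the cell -/
def c19b : Cell where
  c := n19bc
  f := FrX.f29
  q := n19bq
  kap := 4776399
  n := 16
  l := [(6144, 43), (16384, 43), (24576, 43), (36864, 43), (57344, 43), (69632, 43), (86016, 11296), (87382, 27664)]

theorem n19b : c19b.nB1 FrX.G (tabq 1).r 19 = true := by decide +kernel

theorem q19b : c19b.qB FrX.p FrX.e 19 = true := by decide +kernel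

theorem t19b : c19b.c.t2B (tabq 1).r 19 c19b.q = true := by decide +kernel

theorem ok19b (k : ℕ) : CellOk1 FrX.p FrX.e FrX.G (tabq k) 19 c19b := .of n19b q19b t19b

end Pool.Agent.RZ.RCO.TD
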