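import Pool.Agent.RZ.RCO.FrX_1
import Pool.Agent.RZ.RCO.FrX_3
import Pool.Agent.RZ.RCO.FrXc
import Pool.Agent.RZ.RCO.RTab
import Pool.Agent.RZ.RCO.TTs

/-! Generated: the numbers of the cell 2 (MP_73ccd0_lc). -/

set_option maxRecDepth 100000

namespace Pool.Agent.RZ.RCO.TD

open Pool.Agent.RZ.RCN.K Pool.Agent.RZ.RCO.RT Pool.Agent.RZ.RCO.RTab Pool.Agent.RZ.RCM9

/-- the numbers of the first type -/
def n2c : CqN where
  T0 := 104857
  T1 := 188744
  δ := 0
  μ := 0
  em := 87382
  pm := 88693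
  f0 := [1049172, 1049746, 1048765, 1045691, 1041162, 1035976, 1029120, 1020989, 1012433, 1002821, 992276]
  f1 := [33215, 144423, 240554, 324137, 395435, 456463, 508541, 552831, 590594, 621487, 646867]
  f2 := [32762, 125548, 207039, 279005, 341580, 396165, 443732, 485108, 521243, 551796, 577782]
  κ := [1049480, 1049494, 1049527, 1049574, 1049636, 1049713, 1049804, 1049909, 1050030, 1050164, 1050312]
  κh := [52604, 54004, 57305, 62005, 68205, 75906, 85007, 95507, 107608, 121009, 135810]
  ρ1 := [111715, 180085, 246965, 312328, 376113, 438326, 498731, 557452, 614338, 669196, 721851]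
  ρ2 := [0, 0, 0, 0, 0, 0, 0, 0, 0, 0, 0]
  Φ := [131, 105169, 210189, 315010, 419456, 523422, 626794, 729425, 831232, 932141, 1032054]
  Cm := [0, 105038, 210058, 314879, 419325, 523291, 626663, 729294, 831101, 932010, 1031923]
  Em := 131
  b0 := 176609
  b1 := 71738
  b2 := 63440
  e0 := 80266
  e1 := 36452
  e2 := 32017
  β0 := 177078
  β1 := 71951
  β2 := 63627
  c0 := 1091293
  c1 := 761839
  c2 := 680563
  α := 1031917
  A0 := (898801, 630010, 330594, 0)
  A1 := (386108, 270004, 141392, 0)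
  A2 := (338637, 236789, 123990, 0)
  B0 := (262349, 181005, 93559, 0)
  B1 := (117918, 81227, 41923, 0)
  B2 := (0, 0, 0, 0)
  K1 := (564973, 391166, 202908, 0)
  K20 := (1433608, 1004880, 527305, 0)
  K21 := (307909, 214963, 112408, 0)
  K22 := (238057, 166172, 86884, 0)
  K3 := (387617, 266507, 137306, 0)
  K40 := (177713, 122611, 63376, 0)
  K41 := (39502, 27187, 14020, 0)
  K42 := (1, 1, 1, 0)
  HA := (0, 0, 0, 0)
  HB := (0, 0, 0, 0)
  RB := (262568, 180529, 93010, 0)
  qa := 141469
  qb := 87382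
  φ := 1048576
  th := 657406
  thh := 1547965
  ν0 := 1608172
  v0 := 426719
  p0 := [3282, 3282, 3282, 3282, 3282, 3282]
  x0 := [3287, 3287, 3287, 3287, 3287, 3287]
  m0 := [187611, 187611, 187611, 187611, 187611, 187611]
  m1 := [68708, 68708, 68708, 68708, 68708, 68708]
  C0 := [1048576, 1048576, 1048576, 1048576, 1048576, 1048576]
  C1 := [0, 0, 0, 0, 0, 0]
  lam := 566494
  il := 970454

/-- the numbers of the second type -/
def n2q : C2N where
  th2 := 1013524
  thh2 := 1009793
  k1 := 1665456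
  k3 := 704700
  io := 1143902
  QA0 := (970624, 680641, 357281, 0)
  QA1 := (208111, 145384, 76067, 0)
  QH0 := (280146, 193341, 99960, 0)
  QH1 := (62324, 42907, 22133, 0)

/-- the cell -/
def c2 : Cell where
  c := n2c
  f := FrX.f2
  q := n2q
  kap := 3269541
  n := 16
  l := [(34816, 43), (87382, 43)]

theorem n2 : c2.nB1 FrX.G (tabq 1).r 2 = true := by decide +kernel

theorem q2 : c2.qB FrX.p FrX.e 2 = true := by decide +kernel

theorem t2 : c2.c.t2B (tabq 1).r 2 c2.q = true := by decide +kernel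

theorem ok2 (k : ℕ) : CellOk1 FrX.p FrX.e FrX.G (tabq k) 2 c2 := .of n2 q2 t2

end Pool.Agent.RZ.RCO.TD
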