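import Pool.Agent.RZ.RCO.FrX_1
import Pool.Agent.RZ.RCO.FrX_3
import Pool.Agent.RZ.RCO.FrXc
import Pool.Agent.RZ.RCO.RTab
import Pool.Agent.RZ.RCO.TTs

/-! Generated: the numbers of the cell 3a (MP_73ccd0_lc). -/

set_option maxRecDepth 100000

namespace Pool.Agent.RZ.RCO.TD

open Pool.Agent.RZ.RCN.K Pool.Agent.RZ.RCO.RT Pool.Agent.RZ.RCO.RTab Pool.Agent.RZ.RCM9

/-- the numbers of the first type -/
def n3ac : CqN where
  T0 := 188743
  T1 := 223696
  δ := 0
  μ := 0
  em := 87382
  pm := 88936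
  f0 := [1049265, 1049253, 1043645, 1033741, 1019808, 1002896, 983560, 962329, 939674, 915829, 890885]
  f1 := [33110, 164849, 273593, 364548, 442601, 505234, 558143, 601002, 633829, 660835, 680876]
  f2 := [32676, 142609, 235268, 314395, 383544, 440648, 490030, 531316, 564412, 592655, 614981]
  κ := [1049820, 1049841, 1049888, 1049961, 1050058, 1050178, 1050321, 1050489, 1050678, 1050891, 1051126]
  κh := [24569, 25217, 26668, 28921, 31915, 35619, 40032, 45218, 51051, 57625, 64879]
  ρ1 := [111709, 192748, 271401, 347825, 422522, 494466, 564070, 631093, 694485, 757613, 818069]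
  ρ2 := [0, 0, 0, 0, 0, 0, 0, 0, 0, 0, 0]
  Φ := [311, 105363, 210137, 314140, 416958, 518242, 617724, 715189, 810472, 903443, 993989]
  Cm := [0, 105052, 209826, 313829, 416647, 517931, 617413, 714878, 810161, 903132, 993678]
  Em := 311
  b0 := 205249
  b1 := 93417
  b2 := 83019
  e0 := 36051
  e1 := 18717
  e2 := 16553
  β0 := 205600
  β1 := 93599
  β2 := 83180
  c0 := 1051175
  c1 := 824735
  c2 := 744981
  α := 993673
  A0 := (812056, 586927, 316576, 0)
  A1 := (401114, 288740, 155162, 0)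
  A2 := (354180, 254907, 136960, 0)
  B0 := (308400, 217966, 115201, 0)
  B1 := (160518, 113187, 59695, 0)
  B2 := (0, 0, 0, 0)
  K1 := (403896, 284414, 149836, 0)
  K20 := (1643359, 1187766, 640655, 0)
  K21 := (470058, 337345, 180812, 0)
  K22 := (369193, 264872, 141928, 0)
  K3 := (156159, 109334, 57284, 0)
  K40 := (610680, 431606, 228116, 0)
  K41 := (182097, 128245, 67557, 0)
  K42 := (1, 1, 1, 0)
  HA := (0, 0, 0, 0)
  HB := (0, 0, 0, 0)
  RB := (309220, 216499, 113430, 0)
  qa := 179982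
  qb := 87382
  φ := 1048576
  th := 518148
  thh := 529541
  ν0 := 1161455
  v0 := 419249
  p0 := [4581, 4581, 4581, 4581, 4581, 4581]
  x0 := [4591, 4591, 4591, 4591, 4591, 4591]
  m0 := [216274, 216274, 216274, 216274, 216274, 216274]
  m1 := [19535, 19535, 19535, 19535, 19535, 19535]
  C0 := [1048576, 1048576, 1048576, 1048576, 1048576, 1048576]
  C1 := [0, 0, 0, 0, 0, 0]
  lam := 708471
  il := 775976

/-- the numbers of the second type -/
def n3aq : C2N where
  th2 := 1056923
  thh2 := 1045371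
  k1 := 2215627
  k3 := 2144263
  io := 1143902
  QA0 := (858298, 620618, 335032, 0)
  QA1 := (244937, 175938, 94375, 0)
  QH0 := (322971, 228484, 120827, 0)
  QH1 := (96510, 68026, 35856, 0)

/-- the cell -/
def c3a : Cell where
  c := n3ac
  f := FrX.f3
  q := n3aq
  kap := 2958280
  n := 16
  l := [(26624, 43), (87382, 43)]

theorem n3a : c3a.nB1 FrX.G (tabq 1).r 3 = true := by decide +kernel

theorem q3a : c3a.qB FrX.p FrX.e 3 = true := by decide +kernel

theorem t3a : c3a.c.t2B (tabq 1).r 3 c3a.q = true := by decide +kernel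

theorem ok3a (k : ℕ) : CellOk1 FrX.p FrX.e FrX.G (tabq k) 3 c3a := .of n3a q3a t3a

end Pool.Agent.RZ.RCO.TD
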