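import Pool.Agent.RZ.RCO.FrX_1
import Pool.Agent.RZ.RCO.FrX_3
import Pool.Agent.RZ.RCO.FrXc
import Pool.Agent.RZ.RCO.RTab
import Pool.Agent.RZ.RCO.TTs

/-! Generated: the numbers of the cell 3b (MP_73ccd0_lc). -/

set_option maxRecDepth 100000

namespace Pool.Agent.RZ.RCO.TD

open Pool.Agent.RZ.RCN.K Pool.Agent.RZ.RCO.RT Pool.Agent.RZ.RCO.RTab Pool.Agent.RZ.RCM9

/-- the numbers of the first type -/
def n3bc : CqN where
  T0 := 223696
  T1 := 258649
  δ := 0
  μ := 0
  em := 87382
  pm := 89179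
  f0 := [1049250, 1049174, 1040706, 1026221, 1007830, 985110, 960026, 932825, 903825, 874139, 843734]
  f1 := [35736, 183914, 304318, 404047, 483924, 548253, 598692, 637499, 666787, 687524, 700982]
  f2 := [34652, 158643, 261783, 349042, 420963, 480554, 529056, 567998, 599041, 622791, 640168]
  κ := [1050235, 1050264, 1050332, 1050438, 1050581, 1050757, 1050971, 1051220, 1051503, 1051819, 1052170]
  κh := [25072, 25709, 27203, 29532, 32674, 36542, 41244, 46715, 52934, 59877, 67590]
  ρ1 := [111987, 205249, 295674, 383293, 467951, 549186, 627002, 700687, 772988, 841783, 904348]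
  ρ2 := [0, 0, 0, 0, 0, 0, 0, 0, 0, 0, 0]
  Φ := [378, 105467, 210133, 313658, 415549, 515395, 612864, 707734, 799811, 888971, 975145]
  Cm := [0, 105089, 209755, 313280, 415171, 515017, 612486, 707356, 799433, 888593, 974767]
  Em := 378
  b0 := 232391
  b1 := 116131
  b2 := 103732
  e0 := 36214
  e1 := 20556
  e2 := 18306
  β0 := 232935
  β1 := 116440
  β2 := 104007
  c0 := 1023716
  c1 := 872845
  c2 := 797140
  α := 974764
  A0 := (794295, 574203, 309766, 0)
  A1 := (428050, 308218, 165670, 0)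
  A2 := (380390, 273839, 147163, 0)
  B0 := (305862, 216180, 114261, 0)
  B1 := (176156, 124211, 65508, 0)
  B2 := (0, 0, 0, 0)
  K1 := (315029, 221826, 116858, 0)
  K20 := (2015899, 1457311, 786177, 0)
  K21 := (685226, 491926, 263739, 0)
  K22 := (546180, 391950, 210068, 0)
  K3 := (446515, 312628, 163795, 0)
  K40 := (210075, 148479, 78478, 0)
  K41 := (76893, 54151, 28525, 0)
  K42 := (1, 1, 1, 0)
  HA := (0, 0, 0, 0)
  HB := (0, 0, 0, 0)
  RB := (306679, 214721, 112499, 0)
  qa := 226337
  qb := 87382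
  φ := 1048576
  th := 413155
  thh := 1526695
  ν0 := 1008342
  v0 := 258361
  p0 := [6132, 6132, 6132, 6132, 6132, 6132]
  x0 := [6149, 6149, 6149, 6149, 6149, 6149]
  m0 := [245222, 245222, 245222, 245222, 245222, 245222]
  m1 := [31192, 31192, 31192, 31192, 31192, 31192]
  C0 := [1048576, 1048576, 1048576, 1048576, 1048576, 1048576]
  C1 := [0, 0, 0, 0, 0, 0]
  lam := 469564
  il := 1170780

/-- the numbers of the second type -/
def n3bq : C2N where
  th2 := 1081844
  thh2 := 1073899
  k1 := 2859738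
  k3 := 768221
  io := 1143902
  QA0 := (820240, 593208, 320290, 0)
  QA1 := (278184, 199882, 107248, 0)
  QH0 := (311797, 220588, 116655, 0)
  QH1 := (114366, 80609, 42487, 0)

/-- the cell -/
def c3b : Cell where
  c := n3bc
  f := FrX.f4
  q := n3bq
  kap := 2740189
  n := 16
  l := [(20480, 43), (87382, 43)]

theorem n3b : c3b.nB1 FrX.G (tabq 1).r 3 = true := by decide +kernel

theorem q3b : c3b.qB FrX.p FrX.e 3 = true := by decide +kernel

theorem t3b : c3b.c.t2B (tabq 1).r 3 c3b.q = true := by decide +kernel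

theorem ok3b (k : ℕ) : CellOk1 FrX.p FrX.e FrX.G (tabq k) 3 c3b := .of n3b q3b t3b

end Pool.Agent.RZ.RCO.TD
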