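import Pool.Agent.RZ.RCO.FrX_1
import Pool.Agent.RZ.RCO.FrX_3
import Pool.Agent.RZ.RCO.FrXc
import Pool.Agent.RZ.RCO.RTab
import Pool.Agent.RZ.RCO.TTs

/-! Generated: the numbers of the cell 3c (MP_73ccd0_lc). -/

set_option maxRecDepth 100000

namespace Pool.Agent.RZ.RCO.TD

open Pool.Agent.RZ.RCN.K Pool.Agent.RZ.RCO.RT Pool.Agent.RZ.RCO.RTab Pool.Agent.RZ.RCM9

/-- the numbers of the first type -/
def n3cc : CqN where
  T0 := 258649
  T1 := 293602
  δ := 0
  μ := 0
  em := 87382
  pm := 89422
  f0 := [1050199, 1048613, 1036854, 1018533, 994164, 965956, 934534, 901249, 866555, 831350, 796110]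
  f1 := [37223, 202760, 333674, 438202, 521800, 584831, 630987, 665908, 689003, 703741, 710249]
  f2 := [35766, 174517, 287224, 379587, 455652, 515341, 561339, 597940, 624549, 643811, 655647]
  κ := [1050736, 1050775, 1050870, 1051019, 1051219, 1051469, 1051773, 1052126, 1052527, 1052977, 1053479]
  κh := [25837, 26478, 28039, 30488, 33775, 37884, 42880, 48682, 55273, 62669, 70919]
  ρ1 := [111991, 217849, 319767, 418166, 512337, 602435, 687341, 769250, 847423, 917715, 980262]
  ρ2 := [0, 0, 0, 0, 0, 0, 0, 0, 0, 0, 0]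
  Φ := [438, 105597, 210094, 313096, 413975, 512240, 607541, 699626, 788333, 873567, 955301]
  Cm := [0, 105159, 209656, 312658, 413537, 511802, 607103, 699188, 787895, 873129, 954863]
  Em := 438
  b0 := 258026
  b1 := 139454
  b2 := 125210
  e0 := 36625
  e1 := 22401
  e2 := 20086
  β0 := 258831
  β1 := 139946
  β2 := 125651
  c0 := 992502
  c1 := 908493
  c2 := 838630
  α := 954859
  A0 := (775675, 560859, 302622, 0)
  A1 := (449602, 323830, 174103, 0)
  A2 := (402103, 289543, 155636, 0)
  B0 := (303117, 214249, 113245, 0)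
  B1 := (190457, 134294, 70826, 0)
  B2 := (0, 0, 0, 0)
  K1 := (376508, 265103, 139649, 0)
  K20 := (1608679, 1163170, 627611, 0)
  K21 := (631991, 453853, 243393, 0)
  K22 := (511150, 366906, 196689, 0)
  K3 := (234917, 164478, 86176, 0)
  K40 := (392166, 277191, 146514, 0)
  K41 := (171014, 120432, 63438, 0)
  K42 := (1, 1, 1, 0)
  HA := (0, 0, 0, 0)
  HB := (0, 0, 0, 0)
  RB := (303931, 212798, 111492, 0)
  qa := 185456
  qb := 87382
  φ := 1048576
  th := 505604
  thh := 810476
  ν0 := 815597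
  v0 := 249050
  p0 := [7980, 7980, 7980, 7980, 7980, 7980]
  x0 := [8010, 8010, 8010, 8010, 8010, 8010]
  m0 := [270283, 270283, 270283, 270283, 270283, 270283]
  m1 := [72014, 72014, 72014, 72014, 72014, 72014]
  C0 := [1048576, 1048576, 1048576, 1048576, 1048576, 1048576]
  C1 := [0, 0, 0, 0, 0, 0]
  lam := 1222422
  il := 449727

/-- the numbers of the second type -/
def n3cq : C2N where
  th2 := 1114408
  thh2 := 1104582
  k1 := 2420301
  k3 := 1496558
  io := 1143902
  QA0 := (777660, 562523, 303778, 0)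
  QA1 := (304848, 219108, 117594, 0)
  QH0 := (300409, 212540, 112404, 0)
  QH1 := (131269, 92521, 48765, 0)

/-- the cell -/
def c3c : Cell where
  c := n3cc
  f := FrX.f5
  q := n3cq
  kap := 2581502
  n := 16
  l := [(26624, 43), (47104, 43), (87382, 43)]

theorem n3c : c3c.nB1 FrX.G (tabq 1).r 3 = true := by decide +kernel

theorem q3c : c3c.qB FrX.p FrX.e 3 = true := by decide +kernel

theorem t3c : c3c.c.t2B (tabq 1).r 3 c3c.q = true := by decide +kernel

theorem ok3c (k : ℕ) : CellOk1 FrX.p FrX.e FrX.G (tabq k) 3 c3c := .of n3c q3c t3c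

end Pool.Agent.RZ.RCO.TD
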