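import Pool.Agent.RZ.RCO.FrX_1
import Pool.Agent.RZ.RCO.FrX_3
import Pool.Agent.RZ.RCO.FrXc
import Pool.Agent.RZ.RCO.RTab
import Pool.Agent.RZ.RCO.TTs

/-! Generated: the numbers of the cell 4a (MP_73ccd0_lc). -/

set_option maxRecDepth 100000

namespace Pool.Agent.RZ.RCO.TD

open Pool.Agent.RZ.RCN.K Pool.Agent.RZ.RCO.RT Pool.Agent.RZ.RCO.RTab Pool.Agent.RZ.RCM9

/-- the numbers of the first type -/
def n4ac : CqN where
  T0 := 293601
  T1 := 328553
  δ := 0
  μ := 0
  em := 87382
  pm := 89664
  f0 := [1050750, 1047963, 1032632, 1009377, 979545, 945165, 907689, 868486, 828489, 788526, 749129]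
  f1 := [38544, 221138, 361967, 471714, 553651, 614706, 657349, 686202, 703081, 711208, 711400]
  f2 := [36756, 190039, 311862, 409598, 485576, 544670, 588704, 620992, 642940, 657157, 663334]
  κ := [1051334, 1051383, 1051510, 1051712, 1051983, 1052328, 1052743, 1053225, 1053777, 1054401, 1055102]
  κh := [26786, 27411, 29031, 31608, 35064, 39465, 44758, 50906, 57947, 65906, 74848]
  ρ1 := [112272, 230168, 343660, 452349, 556027, 653648, 745886, 835490, 914385, 985109, 1047121]
  ρ2 := [0, 0, 0, 0, 0, 0, 0, 0, 0, 0, 0]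
  Φ := [497, 105712, 210027, 312423, 412180, 508744, 601737, 690919, 776167, 857443, 934779]
  Cm := [0, 105215, 209530, 311926, 411683, 508247, 601240, 690422, 775670, 856946, 934282]
  Em := 497
  b0 := 282155
  b1 := 163041
  b2 := 147143
  e0 := 37143
  e1 := 24221
  e2 := 21866
  β0 := 283298
  β1 := 163787
  β2 := 147816
  c0 := 958905
  c1 := 933618
  c2 := 870777
  α := 934278
  A0 := (740395, 555281, 309167, 0)
  A1 := (462120, 343772, 190067, 0)
  A2 := (416191, 309461, 171029, 0)
  B0 := (362097, 261814, 141270, 0)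
  B1 := (251947, 181543, 97664, 0)
  B2 := (0, 0, 0, 0)
  K1 := (634140, 453801, 242613, 0)
  K20 := (874988, 656222, 365369, 0)
  K21 := (396743, 293689, 161699, 0)
  K22 := (325855, 241028, 132619, 0)
  K3 := (419324, 298902, 159133, 0)
  K40 := (313936, 226991, 122480, 0)
  K41 := (166688, 119900, 64396, 0)
  K42 := (1, 1, 1, 0)
  HA := (0, 0, 0, 0)
  HB := (0, 0, 0, 0)
  RB := (363552, 259147, 137968, 0)
  qa := 105965
  qb := 87382
  φ := 1048576
  th := 887282
  thh := 1209438
  ν0 := 810215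
  v0 := 156536
  p0 := [10357, 10357, 10357, 10357, 10357, 10357]
  x0 := [10408, 10408, 10408, 10408, 10408, 10408]
  m0 := [299060, 299060, 299060, 299060, 299060, 299060]
  m1 := [51520, 51520, 51520, 51520, 51520, 51520]
  C0 := [1048576, 1048576, 1048576, 1048576, 1048576, 1048576]
  C1 := [0, 0, 0, 0, 0, 0]
  lam := 1116621
  il := 492339

/-- the numbers of the second type -/
def n4aq : C2N where
  th2 := 1160422
  thh2 := 1150181
  k1 := 1443923
  k3 := 1049959
  io := 1143902
  QA0 := (730349, 548408, 305683, 0)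
  QA1 := (330150, 244751, 134893, 0)
  QH0 := (350912, 254117, 137221, 0)
  QH1 := (186906, 134640, 72370, 0)

/-- the cell -/
def c4a : Cell where
  c := n4ac
  f := FrX.f6
  q := n4aq
  kap := 2463153
  n := 16
  l := [(26624, 43), (79872, 43), (87382, 43)]

theorem n4a : c4a.nB1 FrX.G (tabq 1).r 4 = true := by decide +kernel

theorem q4a : c4a.qB FrX.p FrX.e 4 = true := by decide +kernel

theorem t4a : c4a.c.t2B (tabq 1).r 4 c4a.q = true := by decide +kernel

theorem ok4a (k : ℕ) : CellOk1 FrX.p FrX.e FrX.G (tabq k) 4 c4a := .of n4a q4a t4a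

end Pool.Agent.RZ.RCO.TD
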