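import Pool.Agent.RZ.RCO.FrX_1
import Pool.Agent.RZ.RCO.FrX_3
import Pool.Agent.RZ.RCO.FrXc
import Pool.Agent.RZ.RCO.RTab
import Pool.Agent.RZ.RCO.TTs

/-! Generated: the numbers of the cell 4b (MP_73ccd0_lc). -/

set_option maxRecDepth 100000

namespace Pool.Agent.RZ.RCO.TD

open Pool.Agent.RZ.RCN.K Pool.Agent.RZ.RCO.RT Pool.Agent.RZ.RCO.RTab Pool.Agent.RZ.RCM9

/-- the numbers of the first type -/
def n4bc : CqN where
  T0 := 328553
  T1 := 363506
  δ := 0
  μ := 0
  em := 87382
  pm := 89907
  f0 := [1051239, 1047140, 1028032, 999664, 963579, 923285, 879778, 835249, 790414, 746347, 703603]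
  f1 := [40629, 238529, 387125, 502235, 582207, 640192, 677482, 699858, 710801, 711688, 710950]
  f2 := [38326, 204869, 334089, 437276, 512843, 570397, 610840, 638006, 655501, 664137, 664779]
  κ := [1052037, 1052102, 1052272, 1052537, 1052897, 1053354, 1053908, 1054553, 1055291, 1056132, 1057088]
  κh := [27838, 28500, 30232, 32931, 36598, 41253, 46895, 53465, 60982, 69548, 79286]
  ρ1 := [112494, 242664, 367062, 486223, 598460, 703319, 803965, 895073, 975535, 1044980, 1104413]
  ρ2 := [0, 0, 0, 0, 0, 0, 0, 0, 0, 0, 0]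
  Φ := [557, 105826, 209942, 311697, 410247, 505000, 595588, 681802, 763577, 840938, 913991]
  Cm := [0, 105269, 209385, 311140, 409690, 504443, 595031, 681245, 763020, 840381, 913434]
  Em := 557
  b0 := 304808
  b1 := 186614
  b2 := 169275
  e0 := 37775
  e1 := 26060
  e2 := 23666
  β0 := 306382
  β1 := 187700
  β2 := 170261
  c0 := 924066
  c1 := 950013
  c2 := 894853
  α := 913431
  A0 := (721060, 541004, 301324, 0)
  A1 := (475262, 353706, 195632, 0)
  A2 := (430411, 320164, 177004, 0)
  B0 := (358183, 259002, 139761, 0)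
  B1 := (265829, 191551, 103053, 0)
  B2 := (0, 0, 0, 0)
  K1 := (1025692, 733900, 392313, 0)
  K20 := (513160, 385019, 214445, 0)
  K21 := (259582, 192238, 105880, 0)
  K22 := (215849, 159718, 87908, 0)
  K3 := (480090, 342214, 182191, 0)
  K40 := (268313, 194017, 104694, 0)
  K41 := (161849, 116419, 62529, 0)
  K42 := (1, 1, 1, 0)
  HA := (0, 0, 0, 0)
  HB := (0, 0, 0, 0)
  RB := (360774, 257176, 136923, 0)
  qa := 64097
  qb := 87382
  φ := 1050401
  th := 1473393
  thh := 1399794
  ν0 := 632710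
  v0 := 376563
  p0 := [12642, 12642, 12642, 12642, 12642, 12642]
  x0 := [12718, 12718, 12718, 12718, 12718, 12718]
  m0 := [327019, 327019, 327019, 327019, 327019, 327019]
  m1 := [24369, 24369, 24369, 24369, 24369, 24369]
  C0 := [1048576, 1048576, 1048576, 1048576, 1048576, 1048576]
  C1 := [0, 0, 0, 0, 0, 0]
  lam := 825289
  il := 666138

/-- the numbers of the second type -/
def n4bq : C2N where
  th2 := 1203516
  thh2 := 1189728
  k1 := 906717
  k3 := 943457
  io := 1143902
  QA0 := (685876, 515223, 287287, 0)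
  QA1 := (345897, 256533, 141436, 0)
  QH0 := (335567, 243022, 131237, 0)
  QH1 := (203028, 146257, 78616, 0)

/-- the cell -/
def c4b : Cell where
  c := n4bc
  f := FrX.f7
  q := n4bq
  kap := 2373626
  n := 16
  l := [(20480, 43), (73728, 43), (87382, 43)]

theorem n4b : c4b.nB1 FrX.G (tabq 1).r 4 = true := by decide +kernel

theorem q4b : c4b.qB FrX.p FrX.e 4 = true := by decide +kernel

theorem t4b : c4b.c.t2B (tabq 1).r 4 c4b.q = true := by decide +kernel

theorem ok4b (k : ℕ) : CellOk1 FrX.p FrX.e FrX.G (tabq k) 4 c4b := .of n4b q4b t4b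

end Pool.Agent.RZ.RCO.TD
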