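import Pool.Agent.RZ.RCO.FrX_1
import Pool.Agent.RZ.RCO.FrX_3
import Pool.Agent.RZ.RCO.FrXc
import Pool.Agent.RZ.RCO.RTab
import Pool.Agent.RZ.RCO.TTs

/-! Generated: the numbers of the cell 4c (MP_73ccd0_lc). -/

set_option maxRecDepth 100000

namespace Pool.Agent.RZ.RCO.TD

open Pool.Agent.RZ.RCN.K Pool.Agent.RZ.RCO.RT Pool.Agent.RZ.RCO.RTab Pool.Agent.RZ.RCM9

/-- the numbers of the first type -/
def n4cc : CqN where
  T0 := 363506
  T1 := 398459
  δ := 0
  μ := 0
  em := 87382
  pm := 90150
  f0 := [1051990, 1045788, 1022841, 988802, 947104, 900351, 851492, 801815, 752860, 705382, 660156]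
  f1 := [42400, 254668, 414242, 528274, 607092, 661136, 691686, 709176, 711790, 711840, 706202]
  f2 := [39660, 218632, 357803, 461430, 537133, 592348, 627823, 651579, 662131, 665824, 664559]
  κ := [1052860, 1052945, 1053157, 1053504, 1053974, 1054568, 1055287, 1056128, 1057102, 1058216, 1059501]
  κh := [29016, 29723, 31487, 34375, 38286, 43228, 49211, 56209, 64314, 73583, 84276]
  ρ1 := [112412, 255053, 390966, 519268, 640038, 752511, 858562, 950978, 1029309, 1097810, 1152791]
  ρ2 := [0, 0, 0, 0, 0, 0, 0, 0, 0, 0, 0]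
  Φ := [618, 105940, 209813, 310852, 408124, 500999, 589122, 672350, 750680, 824224, 895822]
  Cm := [0, 105322, 209195, 310234, 407506, 500381, 588504, 671732, 750062, 823606, 895204]
  Em := 618
  b0 := 326060
  b1 := 209946
  b2 := 191396
  e0 := 38458
  e1 := 27920
  e2 := 25481
  β0 := 328171
  β1 := 211479
  β2 := 192795
  c0 := 888963
  c1 := 959409
  c2 := 912145
  α := 892547
  A0 := (701812, 526784, 293508, 0)
  A1 := (485832, 361725, 200138, 0)
  A2 := (442045, 328947, 181921, 0)
  B0 := (354199, 256138, 138224, 0)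
  B1 := (278031, 200353, 107796, 0)
  B2 := (0, 0, 0, 0)
  K1 := (1090495, 780158, 416988, 0)
  K20 := (457313, 343262, 191255, 0)
  K21 := (255456, 189253, 104269, 0)
  K22 := (214611, 158856, 87459, 0)
  K3 := (582149, 414962, 220920, 0)
  K40 := (216383, 156478, 84443, 0)
  K41 := (145696, 104802, 56293, 0)
  K42 := (1, 1, 1, 0)
  HA := (0, 0, 0, 0)
  HB := (0, 0, 0, 0)
  RB := (359880, 256560, 136605, 0)
  qa := 59427
  qb := 87382
  φ := 1060766
  th := 1609192
  thh := 1716418
  ν0 := 648706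
  v0 := 581724
  p0 := [15371, 15371, 15371, 15371, 15371, 15371]
  x0 := [15484, 15484, 15484, 15484, 15484, 15484]
  m0 := [350298, 350298, 350298, 350298, 350298, 350298]
  m1 := [37048, 37048, 37048, 37048, 37048, 37048]
  C0 := [1048576, 1048576, 1048576, 1048576, 1048576, 1048576]
  C1 := [0, 0, 0, 0, 0, 0]
  lam := 1040197
  il := 528512

/-- the numbers of the second type -/
def n4cq : C2N where
  th2 := 1277348
  thh2 := 1250030
  k1 := 885894
  k3 := 812790
  io := 1143902
  QA0 := (629044, 472726, 263684, 0)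
  QA1 := (350320, 259908, 143341, 0)
  QH0 := (315814, 228733, 123529, 0)
  QH1 := (213254, 153631, 82585, 0)

/-- the cell -/
def c4c : Cell where
  c := n4cc
  f := FrX.f8
  q := n4cq
  kap := 2305683
  n := 16
  l := [(16384, 43), (69632, 43), (87382, 43)]

theorem n4c : c4c.nB1 FrX.G (tabq 1).r 4 = true := by decide +kernel

theorem q4c : c4c.qB FrX.p FrX.e 4 = true := by decide +kernel

theorem t4c : c4c.c.t2B (tabq 1).r 4 c4c.q = true := by decide +kernel

theorem ok4c (k : ℕ) : CellOk1 FrX.p FrX.e FrX.G (tabq k) 4 c4c := .of n4c q4c t4c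

end Pool.Agent.RZ.RCO.TD
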