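import Pool.Agent.RZ.RCO.FrX_1
import Pool.Agent.RZ.RCO.FrX_3
import Pool.Agent.RZ.RCO.FrXc
import Pool.Agent.RZ.RCO.RTab
import Pool.Agent.RZ.RCO.TTs

/-! Generated: the numbers of the cell 5a (MP_73ccd0_lc). -/

set_option maxRecDepth 100000

namespace Pool.Agent.RZ.RCO.TD

open Pool.Agent.RZ.RCN.K Pool.Agent.RZ.RCO.RT Pool.Agent.RZ.RCO.RTab Pool.Agent.RZ.RCM9

/-- the numbers of the first type -/
def n5ac : CqN where
  T0 := 398458
  T1 := 445644
  δ := 0
  μ := 0
  em := 87382
  pm := 90477
  f0 := [1052626, 1044391, 1017533, 977821, 929428, 877303, 822758, 768719, 716207, 666087, 619167]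
  f1 := [44322, 278886, 446050, 562505, 636435, 682484, 705392, 713334, 711889, 707780, 695479]
  f2 := [41108, 239209, 386155, 493291, 566456, 616164, 645976, 662349, 665245, 665516, 661695]
  κ := [1054179, 1054291, 1054586, 1055058, 1055710, 1056537, 1057535, 1058711, 1060087, 1061689, 1063555]
  κh := [32625, 33401, 35444, 38713, 43228, 48955, 55867, 64011, 73540, 84634, 97557]
  ρ1 := [112332, 272082, 422357, 563342, 694101, 817216, 925940, 1017371, 1095101, 1157684, 1207442]
  ρ2 := [0, 0, 0, 0, 0, 0, 0, 0, 0, 0, 0]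
  Φ := [678, 106095, 209768, 310130, 406112, 497099, 582788, 663086, 738099, 809916, 881019]
  Cm := [0, 105417, 209090, 309452, 405434, 496421, 582110, 662408, 737421, 809238, 880341]
  Em := 678
  b0 := 352638
  b1 := 240778
  b2 := 220962
  e0 := 42348
  e1 := 32382
  e2 := 29738
  β0 := 355889
  β1 := 243264
  β2 := 223245
  c0 := 854386
  c1 := 963466
  c2 := 926559
  α := 872466
  A0 := (689233, 537710, 308705, 0)
  A1 := (507679, 391135, 222361, 0)
  A2 := (465030, 357987, 203382, 0)
  B0 := (413263, 306432, 168757, 0)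
  B1 := (352062, 259870, 142568, 0)
  B2 := (0, 0, 0, 0)
  K1 := (1019458, 741177, 401549, 0)
  K20 := (474435, 370134, 212498, 0)
  K21 := (298076, 228004, 128863, 0)
  K22 := (253918, 193986, 109524, 0)
  K3 := (639522, 463963, 250789, 0)
  K40 := (268583, 199153, 109676, 0)
  K41 := (211121, 155441, 85090, 0)
  K42 := (1, 1, 1, 0)
  HA := (0, 0, 0, 0)
  HB := (0, 0, 0, 0)
  RB := (428196, 310732, 168000, 0)
  qa := 63560
  qb := 87382
  φ := 1070116
  th := 1523315
  thh := 1613424
  ν0 := 698455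
  v0 := 107459
  p0 := [20862, 20862, 20862, 20862, 20862, 20862]
  x0 := [21072, 21072, 21072, 21072, 21072, 21072]
  m0 := [381719, 381719, 381719, 381719, 381719, 381719]
  m1 := [71980, 71980, 71980, 71980, 71980, 71980]
  C0 := [1048576, 1048576, 1048576, 1048576, 1048576, 1048576]
  C1 := [0, 0, 0, 0, 0, 0]
  lam := 3325143
  il := 165333

/-- the numbers of the second type -/
def n5aq : C2N where
  th2 := 1322656
  thh2 := 1320339
  k1 := 976089
  k3 := 919960
  io := 1143902
  QA0 := (613372, 479208, 275013, 0)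
  QA1 := (384232, 294253, 166304, 0)
  QH0 := (356411, 264740, 145936, 0)
  QH1 := (281174, 207344, 113620, 0)

/-- the cell -/
def c5a : Cell where
  c := n5ac
  f := FrX.f9
  q := n5aq
  kap := 2240188
  n := 16
  l := [(20480, 43), (55296, 43), (81920, 19480), (87382, 11296)]

theorem n5a : c5a.nB1 FrX.G (tabq 1).r 5 = true := by decide +kernel

theorem q5a : c5a.qB FrX.p FrX.e 5 = true := by decide +kernel

theorem t5a : c5a.c.t2B (tabq 1).r 5 c5a.q = true := by decide +kernel

theorem ok5a (k : ℕ) : CellOk1 FrX.p FrX.e FrX.G (tabq k) 5 c5a := .of n5a q5a t5a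

end Pool.Agent.RZ.RCO.TD
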