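import Pool.Agent.RZ.RCO.FrX_1
import Pool.Agent.RZ.RCO.FrX_3
import Pool.Agent.RZ.RCO.FrXc
import Pool.Agent.RZ.RCO.RTab
import Pool.Agent.RZ.RCO.TTs

/-! Generated: the numbers of the cell 5b (MP_73ccd0_lc). -/

set_option maxRecDepth 100000

namespace Pool.Agent.RZ.RCO.TD

open Pool.Agent.RZ.RCN.K Pool.Agent.RZ.RCO.RT Pool.Agent.RZ.RCO.RTab Pool.Agent.RZ.RCM9

/-- the numbers of the first type -/
def n5bc : CqN where
  T0 := 445644
  T1 := 492831
  δ := 0
  μ := 0
  em := 87382
  pm := 90805
  f0 := [1053316, 1042873, 1009302, 962064, 905046, 845154, 784281, 725001, 668671, 616208, 568136]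
  f1 := [46933, 299985, 475746, 588988, 659576, 697382, 712001, 712737, 708039, 695075, 676730]
  f2 := [43089, 257327, 412515, 519089, 590705, 635304, 657230, 666266, 665732, 661709, 650574]
  κ := [1055752, 1055896, 1056292, 1056930, 1057809, 1058924, 1060280, 1061890, 1063794, 1066041, 1068706]
  κh := [34271, 35068, 37260, 40792, 45659, 51832, 59339, 68253, 78794, 91234, 105989]
  ρ1 := [113051, 288121, 452967, 606575, 747071, 877799, 985846, 1076861, 1148175, 1206714, 1251062]
  ρ2 := [0, 0, 0, 0, 0, 0, 0, 0, 0, 0, 0]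
  Φ := [757, 106291, 209636, 308960, 403098, 491425, 573753, 650117, 722123, 793372, 863192]
  Cm := [0, 105534, 208879, 308203, 402341, 490668, 572996, 649360, 721366, 792615, 862435]
  Em := 757
  b0 := 376910
  b1 := 270583
  b2 := 249923
  e0 := 43133
  e1 := 34819
  e2 := 32209
  β0 := 381389
  β1 := 274199
  β2 := 253268
  c0 := 809552
  c1 := 963396
  c2 := 932621
  α := 845511
  A0 := (663843, 518352, 297793, 0)
  A1 := (514446, 396648, 225633, 0)
  A2 := (474418, 365459, 207741, 0)
  B0 := (407368, 302098, 166387, 0)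
  B1 := (366087, 270271, 148298, 0)
  B2 := (0, 0, 0, 0)
  K1 := (885569, 643626, 348604, 0)
  K20 := (506847, 395764, 227367, 0)
  K21 := (353438, 270518, 152969, 0)
  K22 := (305704, 233663, 131979, 0)
  K3 := (589665, 427791, 231236, 0)
  K40 := (283053, 209908, 115611, 0)
  K41 := (246626, 181617, 99437, 0)
  K42 := (1, 1, 1, 0)
  HA := (0, 0, 0, 0)
  HB := (0, 0, 0, 0)
  RB := (430172, 312187, 168796, 0)
  qa := 71539
  qb := 87382
  φ := 1081981
  th := 1373375
  thh := 1509106
  ν0 := 757280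
  v0 := 494734
  p0 := [25889, 25889, 25889, 25889, 25889, 25889]
  x0 := [26213, 26213, 26213, 26213, 26213, 26213]
  m0 := [412604, 412604, 412604, 412604, 412604, 412604]
  m1 := [53340, 53340, 53340, 53340, 53340, 53340]
  C0 := [1048576, 1048576, 1048576, 1048576, 1048576, 1048576]
  C1 := [0, 0, 0, 0, 0, 0]
  lam := 867743
  il := 633547

/-- the numbers of the second type -/
def n5bq : C2N where
  th2 := 1386987
  thh2 := 1371091
  k1 := 1143550
  k3 := 1028771
  io := 1143902
  QA0 := (563449, 440591, 253018, 0)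
  QA1 := (391735, 300188, 169744, 0)
  QH0 := (338307, 251324, 138555, 0)
  QH1 := (295775, 218159, 119567, 0)

/-- the cell -/
def c5b : Cell where
  c := n5bc
  f := FrX.f10
  q := n5bq
  kap := 2198755
  n := 16
  l := [(12288, 43), (47104, 43), (87382, 43)]

theorem n5b : c5b.nB1 FrX.G (tabq 1).r 5 = true := by decide +kernel

theorem q5b : c5b.qB FrX.p FrX.e 5 = true := by decide +kernel

theorem t5b : c5b.c.t2B (tabq 1).r 5 c5b.q = true := by decide +kernel

theorem ok5b (k : ℕ) : CellOk1 FrX.p FrX.e FrX.G (tabq k) 5 c5b := .of n5b q5b t5b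

end Pool.Agent.RZ.RCO.TD
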