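import Pool.Agent.RZ.RCO.FrX_1
import Pool.Agent.RZ.RCO.FrX_3
import Pool.Agent.RZ.RCO.FrXc
import Pool.Agent.RZ.RCO.RTab
import Pool.Agent.RZ.RCO.TTs

/-! Generated: the numbers of the cell 6a (MP_73ccd0_lc). -/

set_option maxRecDepth 100000

namespace Pool.Agent.RZ.RCO.TD

open Pool.Agent.RZ.RCN.K Pool.Agent.RZ.RCO.RT Pool.Agent.RZ.RCO.RTab Pool.Agent.RZ.RCM9

/-- the numbers of the first type -/
def n6ac : CqN where
  T0 := 492830
  T1 := 534773
  δ := 0
  μ := 0
  em := 87382
  pm := 91096
  f0 := [1053856, 1040759, 1000832, 944440, 880054, 812748, 746346, 682885, 623901, 570263, 522357]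
  f1 := [43549, 324413, 499213, 612891, 675303, 707683, 712217, 710586, 697500, 677873, 653053]
  f2 := [40528, 277707, 434331, 542030, 608012, 647755, 663337, 666044, 662523, 651893, 634651]
  κ := [1057381, 1057567, 1058071, 1058887, 1060011, 1061448, 1063197, 1065292, 1067797, 1070798, 1074396]
  κh := [35017, 35859, 38140, 41834, 46922, 53428, 61345, 70829, 82169, 95755, 112043]
  ρ1 := [112812, 302945, 480773, 643517, 793575, 927183, 1035262, 1121758, 1189210, 1242162, 1283868]
  ρ2 := [0, 0, 0, 0, 0, 0, 0, 0, 0, 0, 0]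
  Φ := [837, 106457, 209437, 307619, 399790, 485411, 564387, 636916, 708527, 778655, 846726]
  Cm := [0, 105620, 208600, 306782, 398953, 484574, 563550, 636079, 707690, 777818, 845889]
  Em := 837
  b0 := 396634
  b1 := 296038
  b2 := 274981
  e0 := 42743
  e1 := 36170
  e2 := 33677
  β0 := 402304
  β1 := 300836
  β2 := 279449
  c0 := 767847
  c1 := 959865
  c2 := 933132
  α := 819301
  A0 := (674577, 543768, 319134, 0)
  A1 := (548820, 435359, 252583, 0)
  A2 := (509355, 403537, 233900, 0)
  B0 := (465214, 353599, 198528, 0)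
  B1 := (440393, 332693, 185895, 0)
  B2 := (0, 0, 0, 0)
  K1 := (873374, 644275, 353176, 0)
  K20 := (534248, 430650, 252746, 0)
  K21 := (411217, 323088, 186113, 0)
  K22 := (360850, 282954, 162750, 0)
  K3 := (640054, 471762, 258411, 0)
  K40 := (341243, 259372, 145624, 0)
  K41 := (327687, 246653, 137425, 0)
  K42 := (1, 1, 1, 0)
  HA := (0, 0, 0, 0)
  HB := (0, 0, 0, 0)
  RB := (502810, 370762, 203159, 0)
  qa := 75155
  qb := 87382
  φ := 1092303
  th := 1324004
  thh := 1429515
  ν0 := 799361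
  v0 := 429541
  p0 := [33998, 33998, 33998, 33998, 33998, 33998]
  x0 := [34561, 34561, 34561, 34561, 34561, 34561]
  m0 := [435616, 435616, 435616, 435616, 435616, 435616]
  m1 := [51679, 51679, 51679, 51679, 51679, 51679]
  C0 := [1048576, 1048576, 1048576, 1048576, 1048576, 1048576]
  C1 := [0, 0, 0, 0, 0, 0]
  lam := 595054
  il := 923876

/-- the numbers of the second type -/
def n6aq : C2N where
  th2 := 1480438
  thh2 := 1431008
  k1 := 1274250
  k3 := 1140793
  io := 1143902
  QA0 := (552771, 445129, 260902, 0)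
  QA1 := (423669, 332757, 191548, 0)
  QH0 := (379717, 289074, 162501, 0)
  QH1 := (365897, 275860, 153895, 0)

/-- the cell -/
def c6a : Cell where
  c := n6ac
  f := FrX.f11
  q := n6aq
  kap := 2179289
  n := 16
  l := [(20480, 43), (47104, 43), (73728, 43), (86016, 15740944), (87382, 11550736)]

theorem n6a : c6a.nB1 FrX.G (tabq 1).r 6 = true := by decide +kernel

theorem q6a : c6a.qB FrX.p FrX.e 6 = true := by decide +kernel

theorem t6a : c6a.c.t2B (tabq 1).r 6 c6a.q = true := by decide +kernel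

theorem ok6a (k : ℕ) : CellOk1 FrX.p FrX.e FrX.G (tabq k) 6 c6a := .of n6a q6a t6a

end Pool.Agent.RZ.RCO.TD
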