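import Pool.Agent.RZ.RCO.FrX_1
import Pool.Agent.RZ.RCO.FrX_3
import Pool.Agent.RZ.RCO.FrXc
import Pool.Agent.RZ.RCO.RTab
import Pool.Agent.RZ.RCO.TTs

/-! Generated: the numbers of the cell 6b (MP_73ccd0_lc). -/

set_option maxRecDepth 100000

namespace Pool.Agent.RZ.RCO.TD

open Pool.Agent.RZ.RCN.K Pool.Agent.RZ.RCO.RT Pool.Agent.RZ.RCO.RTab Pool.Agent.RZ.RCM9

/-- the numbers of the first type -/
def n6bc : CqN where
  T0 := 534773
  T1 := 576717
  δ := 0
  μ := 0
  em := 87382
  pm := 91388
  f0 := [1053030, 1040510, 991733, 929158, 857059, 784281, 713500, 647158, 586780, 533102, 486175]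
  f1 := [46519, 343372, 520357, 633665, 688422, 712849, 713039, 704297, 684506, 659483, 630677]
  f2 := [42815, 294001, 453924, 562563, 623193, 657403, 665549, 665236, 655892, 639306, 618028]
  κ := [1059237, 1059468, 1060099, 1061134, 1062556, 1064376, 1066604, 1069308, 1072566, 1076514, 1081309]
  κh := [36552, 37440, 39866, 43845, 49313, 56310, 64876, 75272, 87798, 102977, 121412]
  ρ1 := [113204, 317532, 507392, 680301, 838696, 972560, 1078422, 1161793, 1223757, 1272926, 1311084]
  ρ2 := [0, 0, 0, 0, 0, 0, 0, 0, 0, 0, 0]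
  Φ := [906, 106659, 209357, 306504, 396945, 480177, 556273, 628450, 699371, 768234, 834608]
  Cm := [0, 105753, 208451, 305598, 396039, 479271, 555367, 627544, 698465, 767328, 833702]
  Em := 906
  b0 := 414782
  b1 := 320473
  b2 := 299328
  e0 := 43552
  e1 := 38322
  e2 := 35891
  β0 := 422029
  β1 := 326849
  β2 := 305300
  c0 := 734075
  c1 := 952284
  c2 := 932487
  α := 797481
  A0 := (653077, 526927, 309455, 0)
  A1 := (550514, 437091, 253754, 0)
  A2 := (513659, 407272, 236204, 0)
  B0 := (460278, 349884, 196458, 0)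
  B1 := (451208, 340946, 190544, 0)
  B2 := (0, 0, 0, 0)
  K1 := (812894, 599481, 328540, 0)
  K20 := (538210, 434248, 255027, 0)
  K21 := (445423, 350246, 201880, 0)
  K22 := (395615, 310420, 178637, 0)
  K3 := (603943, 445147, 243833, 0)
  K40 := (354027, 269116, 151108, 0)
  K41 := (363289, 273537, 152441, 0)
  K42 := (1, 1, 1, 0)
  HA := (0, 0, 0, 0)
  HB := (0, 0, 0, 0)
  RB := (506481, 373473, 204646, 0)
  qa := 79046
  qb := 87382
  φ := 1100520
  th := 1272369
  thh := 1363277
  ν0 := 846510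
  v0 := 574022
  p0 := [40154, 40154, 40154, 40154, 40154, 40154]
  x0 := [40943, 40943, 40943, 40943, 40943, 40943]
  m0 := [457092, 457092, 457092, 457092, 457092, 457092]
  m1 := [73923, 73923, 73923, 73923, 73923, 73923]
  C0 := [1048576, 1048576, 1048576, 1048576, 1048576, 1048576]
  C1 := [0, 0, 0, 0, 0, 0]
  lam := 2618895
  il := 209919

/-- the numbers of the second type -/
def n6bq : C2N where
  th2 := 1508173
  thh2 := 1475946
  k1 := 1359454
  k3 := 1241689
  io := 1143902
  QA0 := (525393, 423465, 248363, 0)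
  QA1 := (432964, 340328, 196022, 0)
  QH0 := (364241, 277320, 155907, 0)
  QH1 := (375000, 282813, 157813, 0)

/-- the cell -/
def c6b : Cell where
  c := n6bc
  f := FrX.f12
  q := n6bq
  kap := 2174856
  n := 16
  l := [(16384, 43), (51200, 43), (87382, 43)]

theorem n6b : c6b.nB1 FrX.G (tabq 1).r 6 = true := by decide +kernel

theorem q6b : c6b.qB FrX.p FrX.e 6 = true := by decide +kernel

theorem t6b : c6b.c.t2B (tabq 1).r 6 c6b.q = true := by decide +kernel

theorem ok6b (k : ℕ) : CellOk1 FrX.p FrX.e FrX.G (tabq k) 6 c6b := .of n6b q6b t6b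

end Pool.Agent.RZ.RCO.TD
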