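import Pool.Agent.RZ.RCO.FrX_1
import Pool.Agent.RZ.RCO.FrX_3
import Pool.Agent.RZ.RCO.FrXc
import Pool.Agent.RZ.RCO.RTab
import Pool.Agent.RZ.RCO.TTs

/-! Generated: the numbers of the cell 7 (MP_73ccd0_lc). -/

set_option maxRecDepth 100000

namespace Pool.Agent.RZ.RCO.TD

open Pool.Agent.RZ.RCN.K Pool.Agent.RZ.RCO.RT Pool.Agent.RZ.RCO.RTab Pool.Agent.RZ.RCM9

/-- the numbers of the first type -/
def n7c : CqN where
  T0 := 576716
  T1 := 650118
  δ := 0
  μ := 0
  em := 87382
  pm := 91897
  f0 := [1053955, 1038413, 982527, 913180, 834201, 756125, 681593, 613249, 552287, 499275, 453961]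
  f1 := [52499, 375270, 556465, 662495, 704103, 715130, 710297, 695003, 669078, 639546, 607791]
  f2 := [47344, 321514, 487540, 592308, 643501, 666214, 666103, 661732, 646042, 624823, 599136]
  κ := [1063058, 1063386, 1064309, 1065820, 1067911, 1070594, 1073930, 1078034, 1083083, 1089311, 1097075]
  κh := [43574, 44659, 47710, 52705, 59617, 68487, 79515, 93082, 109773, 130361, 156028]
  ρ1 := [113049, 343690, 553542, 743576, 911698, 1043560, 1145342, 1218021, 1274181, 1316320, 1355436]
  ρ2 := [0, 0, 0, 0, 0, 0, 0, 0, 0, 0, 0]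
  Φ := [984, 107064, 209583, 305858, 394750, 475833, 549341, 621442, 691726, 759504, 824523]
  Cm := [0, 106080, 208599, 304874, 393766, 474849, 548357, 620458, 690742, 758520, 823539]
  Em := 984
  b0 := 442920
  b1 := 360627
  b2 := 340070
  e0 := 51442
  e1 := 47282
  e2 := 44580
  β0 := 455181
  β1 := 371896
  β2 := 350695
  c0 := 703610
  c1 := 942086
  c2 := 928561
  α := 778988
  A0 := (672568, 557043, 332887, 0)
  A1 := (591587, 480995, 283823, 0)
  A2 := (555517, 450906, 265756, 0)
  B0 := (521483, 405233, 231405, 0)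
  B1 := (542976, 418872, 237881, 0)
  B2 := (0, 0, 0, 0)
  K1 := (769782, 574608, 318014, 0)
  K20 := (606935, 502683, 300402, 0)
  K21 := (543856, 437165, 255896, 0)
  K22 := (489459, 392409, 229269, 0)
  K3 := (625777, 467624, 259032, 0)
  K40 := (439994, 341909, 195245, 0)
  K41 := (505096, 387929, 219564, 0)
  K42 := (1, 1, 1, 0)
  HA := (0, 0, 0, 0)
  HB := (0, 0, 0, 0)
  RB := (593895, 444004, 246039, 0)
  qa := 87614
  qb := 87382
  φ := 1107797
  th := 1161969
  thh := 1242779
  ν0 := 926613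
  v0 := 585524
  p0 := [57006, 57006, 57006, 57006, 57006, 57006]
  x0 := [58614, 58614, 58614, 58614, 58614, 58614]
  m0 := [508457, 508457, 508457, 508457, 508457, 508457]
  m1 := [54155, 54155, 54155, 54155, 54155, 54155]
  C0 := [1048576, 1048576, 1048576, 1048576, 1048576, 1048576]
  C1 := [0, 0, 0, 0, 0, 0]
  lam := 1259132
  il := 436615

/-- the numbers of the second type -/
def n7q : C2N where
  th2 := 1597940
  thh2 := 1541235
  k1 := 1594863
  k3 := 1438244
  io := 1143902
  QA0 := (525986, 434652, 259323, 0)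
  QA1 := (469169, 376663, 220274, 0)
  QH0 := (406177, 316229, 180837, 0)
  QH1 := (467862, 360008, 204054, 0)

/-- the cell -/
def c7 : Cell where
  c := n7c
  f := FrX.f13
  q := n7q
  kap := 2175309
  n := 16
  l := [(16384, 43), (43008, 43), (77824, 43), (87382, 43)]

theorem n7 : c7.nB1 FrX.G (tabq 1).r 7 = true := by decide +kernel

theorem q7 : c7.qB FrX.p FrX.e 7 = true := by decide +kernel

theorem t7 : c7.c.t2B (tabq 1).r 7 c7.q = true := by decide +kernel

theorem ok7 (k : ℕ) : CellOk1 FrX.p FrX.e FrX.G (tabq k) 7 c7 := .of n7 q7 t7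

end Pool.Agent.RZ.RCO.TD
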