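import Pool.Agent.RZ.RCO.FrX_1
import Pool.Agent.RZ.RCO.FrX_3
import Pool.Agent.RZ.RCO.FrXc
import Pool.Agent.RZ.RCO.RTab
import Pool.Agent.RZ.RCO.TTs

/-! Generated: the numbers of the cell 9 (MP_73ccd0_lc). -/

set_option maxRecDepth 100000

namespace Pool.Agent.RZ.RCO.TD

open Pool.Agent.RZ.RCN.K Pool.Agent.RZ.RCO.RT Pool.Agent.RZ.RCO.RTab Pool.Agent.RZ.RCM9

/-- the numbers of the first type -/
def n9c : CqN where
  T0 := 713031
  T1 := 770704
  δ := 0
  μ := 0
  em := 87382
  pm := 92735
  f0 := [1057996, 1029999, 950979, 858429, 760323, 668671, 586780, 516714, 458538, 411465, 373928]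
  f1 := [62975, 422481, 605580, 696847, 713234, 709813, 685103, 650449, 611223, 572945, 537468]
  f2 := [55315, 362992, 534764, 630043, 662111, 667375, 656681, 633119, 602107, 569128, 536276]
  κ := [1071053, 1071622, 1073244, 1075906, 1079621, 1084456, 1090595, 1098339, 1108156, 1120755, 1137392]
  κh := [45275, 46506, 50014, 55771, 63805, 74261, 87538, 104285, 125516, 152763, 188742]
  ρ1 := [113232, 386223, 627101, 843651, 1014530, 1139660, 1227602, 1287223, 1336097, 1382192, 1430354]
  ρ2 := [0, 0, 0, 0, 0, 0, 0, 0, 0, 0, 0]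
  Φ := [1227, 107893, 209195, 301907, 385095, 458822, 531158, 600856, 667226, 730151, 789930]
  Cm := [0, 106666, 207968, 300680, 383868, 457595, 529931, 599629, 665999, 728924, 788703]
  Em := 1227
  b0 := 480108
  b1 := 419568
  b2 := 401951
  e0 := 50341
  e1 := 50698
  e2 := 48514
  β0 := 500097
  β1 := 439699
  β2 := 421215
  c0 := 628168
  c1 := 902914
  c2 := 900922
  α := 720087
  A0 := (693915, 600267, 368963, 0)
  A1 := (667131, 563458, 341082, 0)
  A2 := (635325, 535288, 323514, 0)
  B0 := (646563, 521953, 306432, 0)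
  B1 := (727134, 581132, 338754, 0)
  B2 := (0, 0, 0, 0)
  K1 := (722907, 549574, 308605, 0)
  K20 := (698823, 604513, 371572, 0)
  K21 := (748837, 623246, 373634, 0)
  K22 := (694746, 576084, 344503, 0)
  K3 := (705325, 538431, 303323, 0)
  K40 := (604072, 487651, 286294, 0)
  K41 := (800866, 636040, 369084, 0)
  K42 := (1, 1, 1, 0)
  HA := (0, 0, 0, 0)
  HB := (0, 0, 0, 0)
  RB := (778918, 594833, 335194, 0)
  qa := 100199
  qb := 87382
  φ := 1125011
  th := 1041214
  thh := 1122334
  ν0 := 1053593
  v0 := 171299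
  p0 := [100236, 100236, 100236, 100236, 100236, 100236]
  x0 := [105355, 105355, 105355, 105355, 105355, 105355]
  m0 := [550669, 550669, 550669, 550669, 550669, 550669]
  m1 := [197680, 197680, 197680, 197680, 197680, 197680]
  C0 := [1050349, 1050349, 1050349, 1050349, 1050349, 1050349]
  C1 := [19956, 19956, 19956, 19956, 19956, 19956]
  lam := 3323899
  il := 165395

/-- the numbers of the second type -/
def n9q : C2N where
  th2 := 1722325
  thh2 := 1771758
  k1 := 1953491
  k3 := 1864312
  io := 1143902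
  QA0 := (537019, 462954, 283948, 0)
  QA1 := (572721, 475731, 284825, 0)
  QH0 := (466684, 377388, 221829, 0)
  QH1 := (621029, 494127, 287118, 0)

/-- the cell -/
def c9 : Cell where
  c := n9c
  f := FrX.f15
  q := n9q
  kap := 2284508
  n := 16
  l := [(10240, 43), (30720, 43), (57344, 43), (67584, 43), (87382, 11296)]

theorem n9 : c9.nB1 FrX.G (tabq 1).r 9 = true := by decide +kernel

theorem q9 : c9.qB FrX.p FrX.e 9 = true := by decide +kernel

theorem t9 : c9.c.t2B (tabq 1).r 9 c9.q = true := by decide +kernel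

theorem ok9 (k : ℕ) : CellOk1 FrX.p FrX.e FrX.G (tabq k) 9 c9 := .of n9 q9 t9

end Pool.Agent.RZ.RCO.TD
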