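import Pool.Agent.RZ.RCO.FrX_4
import Pool.Agent.RZ.RCO.TD0
import Pool.Agent.RZ.RCO.TD1
import Pool.Agent.RZ.RCO.TD10
import Pool.Agent.RZ.RCO.TD11
import Pool.Agent.RZ.RCO.TD12
import Pool.Agent.RZ.RCO.TD13
import Pool.Agent.RZ.RCO.TD14
import Pool.Agent.RZ.RCO.TD15
import Pool.Agent.RZ.RCO.TD16a
import Pool.Agent.RZ.RCO.TD16b
import Pool.Agent.RZ.RCO.TD17a
import Pool.Agent.RZ.RCO.TD17b
import Pool.Agent.RZ.RCO.TD18a
import Pool.Agent.RZ.RCO.TD18b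
import Pool.Agent.RZ.RCO.TD19a
import Pool.Agent.RZ.RCO.TD19b
import Pool.Agent.RZ.RCO.TD2
import Pool.Agent.RZ.RCO.TD3a
import Pool.Agent.RZ.RCO.TD3b
import Pool.Agent.RZ.RCO.TD3c
import Pool.Agent.RZ.RCO.TD4a
import Pool.Agent.RZ.RCO.TD4b
import Pool.Agent.RZ.RCO.TD4c
import Pool.Agent.RZ.RCO.TD5a
import Pool.Agent.RZ.RCO.TD5b
import Pool.Agent.RZ.RCO.TD6a
import Pool.Agent.RZ.RCO.TD6b
import Pool.Agent.RZ.RCO.TD7
import Pool.Agent.RZ.RCO.TD8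
import Pool.Agent.RZ.RCO.TD9

/-! Generated: all cells of the inequalities T1, T2 (MP_73ccd0_lc). -/

set_option autoImplicit false

namespace Pool.Agent.RZ.RCO.TD

open Pool.Agent.RZ.RCN.K Pool.Agent.RZ.RCO.RT Pool.Agent.RZ.RCO.RTab Pool.Agent.RZ.RCM9 Pool.Agent.RZ.RCO
open Pool.Agent.RZ.RCRSHalf Pool.Agent.RZ.RCG Pool.Agent.RZ.RCG.Ct Pool.Agent.RZ.RCRS Pool.Agent.RZ.RCN.Ker

/-- the cells of the big cells -/
noncomputable def cells : ℕ → List Cell :=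
  gt [] [[c0], [c1], [c2], [c3a, c3b, c3c], [c4a, c4b, c4c], [c5a, c5b], [c6a, c6b], [c7], [c8], [c9], [c10], [c11], [c12], [c13], [c14], [c15], [c16a, c16b], [c17a, c17b], [c18a, c18b], [c19a, c19b]]

theorem cov : ∀ m < 20, covM tT m (cells m) = true := by
  intro m hm
  interval_cases m <;> decide +kernel

theorem nilC {Q : Cell → Prop} : ∀ C ∈ ([] : List Cell), Q C := fun _ h => absurd h (by simp)

theorem ok (k : ℕ) : ∀ m < 20, ∀ C ∈ cells m, CellOk1 FrX.p FrX.e FrX.G (tabq k) m C := by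
  intro m hm
  interval_cases m
  · exact List.forall_mem_cons.2 ⟨ok0 k, nilC⟩
  · exact List.forall_mem_cons.2 ⟨ok1 k, nilC⟩
  · exact List.forall_mem_cons.2 ⟨ok2 k, nilC⟩
  · exact List.forall_mem_cons.2 ⟨ok3a k, List.forall_mem_cons.2 ⟨ok3b k, List.forall_mem_cons.2 ⟨ok3c k, nilC⟩⟩⟩
  · exact List.forall_mem_cons.2 ⟨ok4a k, List.forall_mem_cons.2 ⟨ok4b k, List.forall_mem_cons.2 ⟨ok4c k, nilC⟩⟩⟩
  · exact List.forall_mem_cons.2 ⟨ok5a k, List.forall_mem_cons.2 ⟨ok5b k, nilC⟩⟩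
  · exact List.forall_mem_cons.2 ⟨ok6a k, List.forall_mem_cons.2 ⟨ok6b k, nilC⟩⟩
  · exact List.forall_mem_cons.2 ⟨ok7 k, nilC⟩
  · exact List.forall_mem_cons.2 ⟨ok8 k, nilC⟩
  · exact List.forall_mem_cons.2 ⟨ok9 k, nilC⟩
  · exact List.forall_mem_cons.2 ⟨ok10 k, nilC⟩
  · exact List.forall_mem_cons.2 ⟨ok11 k, nilC⟩
  · exact List.forall_mem_cons.2 ⟨ok12 k, nilC⟩
  · exact List.forall_mem_cons.2 ⟨ok13 k, nilC⟩
  · exact List.forall_mem_cons.2 ⟨ok14 k, nilC⟩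
  · exact List.forall_mem_cons.2 ⟨ok15 k, nilC⟩
  · exact List.forall_mem_cons.2 ⟨ok16a k, List.forall_mem_cons.2 ⟨ok16b k, nilC⟩⟩
  · exact List.forall_mem_cons.2 ⟨ok17a k, List.forall_mem_cons.2 ⟨ok17b k, nilC⟩⟩
  · exact List.forall_mem_cons.2 ⟨ok18a k, List.forall_mem_cons.2 ⟨ok18b k, nilC⟩⟩
  · exact List.forall_mem_cons.2 ⟨ok19a k, List.forall_mem_cons.2 ⟨ok19b k, nilC⟩⟩

variable {V : Type} [Fintype V] [DecidableEq V] {Gr : SimpleGraph V} [Fintype Gr.edgeSet]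
  [DecidableEq Gr.edgeSet]

/-- **T1 and T2 for all graphs, from the table of the rows** -/
theorem tt_x (k : ℕ) {x : Gr.edgeSet → ℝ} [Pool.Agent.RZ.RCG.CX x] (hx : IsFractionalMatching Gr x)
    {C : Cx (V ⊕ V)} (hC : Cls CertP.p.z.hz (xe x) (P0 V) C)
    {Ls Lsf : V ⊕ V → V ⊕ V → V ⊕ V → ℝ → ℝ → ℝ}
    (hR : RTb2 (xe x) (P0 V) (tabq k) (Lc (P0 V) C) (RCN.K.Lr (P0 V) C) Ls Lsf) :
    TT (CertP.p.da (kdN CertP.p DatX.q) C) x :=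
  tt_tab_sub CertP.ok DatX.dnn DatX.gpos DatX.gbd FrX.ok rfl rfl cov (ok k) hx hC hR

end Pool.Agent.RZ.RCO.TD
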