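import Pool.Agent.RZ.RCO.DatXR
import Pool.Agent.RZ.RCO.PwZ
import Pool.Agent.RZ.RCO.TTd
import Pool.Agent.RZ.RCP.FinX

/-! The final theorem of the class of small weights from the worlds and the star constants of the
graphs (MP_73ccd0_lc). -/

set_option autoImplicit false

namespace Pool.Agent.RZ.RCO.FinC

open Set Finset MeasureTheory Pool.Agent.RZ.RCRSHalf Pool.Agent.RZ.RCG Pool.Agent.RZ.RCG.Ct
open Pool.Agent.RZ.RCN.Ker Pool.Agent.RZ.RCRS Pool.Agent.RZ.RCM9 Pool.Agent.RZ.RCM9.Bern Pool.Agent.RZ.RCM9.Pk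
open Pool.Agent.RZ.RCN Pool.Agent.RZ.RCN.K Pool.Agent.RZ.RCE Pool.Agent.RZ.RCO.RTab

theorem rEnt (k : ℕ) : REnt (tabq k) := REnt.of
  (fun m j => by show rr RT.kEC m j = rr RT.kRL m j; rw [rEC])
  (fun m j => by show rr RT.kEG m j = rr RT.kRF m j; rw [rEG])

/-- **the worlds and the star constants of one graph** -/
def WIn {V : Type} [Fintype V] [DecidableEq V] {Gr : SimpleGraph V} [Fintype Gr.edgeSet]
    [DecidableEq Gr.edgeSet] (x : Gr.edgeSet → ℝ) : Prop :=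
  ∃ k > 0, ∃ (mi : ℕ → ℕ) (ε : ℝ) (Ls Lsf : ℕ → ℕ → V ⊕ V → V ⊕ V → V ⊕ V → ℝ),
    Mp (tabq k) mi ∧ 0 < ε ∧
    (∀ A D : Finset (V ⊕ V), A ⊆ D → D.card ≤ 2 → ∀ i < (tabq k).N, ∀ j ≤ i,
      WexT CertP.p.z.hz (xe x) (P0 V) (tabq k) mi ε A D i j) ∧
    StOk CertP.p.z.hz (xe x) (P0 V) (tabq k) mi ε Ls Lsf

/-- the input of the final theorem from the worlds and the star constants of the graphs -/
theorem c2In (h : ∀ (V : Type) [Fintype V] [DecidableEq V] (Gr : SimpleGraph V)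
    [Fintype Gr.edgeSet] [DecidableEq Gr.edgeSet] (x : Gr.edgeSet → ℝ) [CX x],
    IsFractionalMatching Gr x → WIn x) : C2In CertP.p DatX.q := by
  intro V _ _ Gr _ _ x _ hx
  obtain ⟨k, k0, mi, ε, Ls, Lsf, hm, ε0, hW, hS⟩ := h V Gr x hx
  exact c2_world hx hm ε0 (cov k0).N0 (rEnt k) hW hS
    (DatX.lateN (wt_xe hx zero_le_one le_rfl fun e => (hx.1 e).2) k0 hm ε0 hW)
    (fun L Lf hC hR => TD.tt_x k hx hC hR)
    (fun L Lf hC hR => PwDt.pp_x k hx hC hR.rtb)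

/-- **the final theorem from the worlds and the star constants of the graphs** -/
theorem half (h : ∀ (V : Type) [Fintype V] [DecidableEq V] (Gr : SimpleGraph V)
    [Fintype Gr.edgeSet] [DecidableEq Gr.edgeSet] (x : Gr.edgeSet → ℝ) [CX x],
    IsFractionalMatching Gr x → WIn x) (V : Type) [Fintype V] [DecidableEq V]
    (G : SimpleGraph V) [Fintype G.edgeSet] [DecidableEq G.edgeSet] (x : G.edgeSet → ℝ)
    (hx : IsFractionalMatching G x) (hX : ∀ e, x e ≤ XM) :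
    ∃ S : Scheme G, ∀ e, S.selProb x e = x e / 2 :=
  RCP.half_X CertP.ok DatX.dnn DatX.gpos DatX.gbd (c2In h) V G x hx hX

end Pool.Agent.RZ.RCO.FinC
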