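import Pool.Agent.RZ.RCN.TopP
import Pool.Agent.RZ.RCO.GapN

/-! Route P: the assembly from the closures, the densities, the gap and the graph inequalities
(MP_73ccd0_lc). -/

set_option autoImplicit false
set_option linter.unusedSectionVars false

namespace Pool.Agent.RZ.RCO

open Set Finset MeasureTheory Pool.Agent.RZ.RCRSHalf Pool.Agent.RZ.RCG Pool.Agent.RZ.RCG.Ct
open Pool.Agent.RZ.RCN.Ker Pool.Agent.RZ.RCRS Pool.Agent.RZ.RCM9 Pool.Agent.RZ.RCM9.Bern Pool.Agent.RZ.RCM9.Pk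
open Pool.Agent.RZ.RCN Pool.Agent.RZ.RCN.K Pool.Agent.RZ.RCE

section
variable {V : Type} [Fintype V] [DecidableEq V]
variable {Gr : SimpleGraph V} [Fintype Gr.edgeSet] [DecidableEq Gr.edgeSet]

/-- the walk rates are admissible -/
theorem wr_of_TP {D : Da V} (hD : D.Ok) {x : Gr.edgeSet → ℝ} [Pool.Agent.RZ.RCG.CX x] (hx : IsFractionalMatching Gr x)
    (hC : Cls D.Z (xe x) (P0 V) D.C) {δ : ℝ} {A : ℝ → ℝ → ℝ} {α γ : ℝ → ℝ}
    (hG : Gp D δ A α γ) (hT : TT D x) (hP : PP D x) :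
    Wr D.T.ek.kd (xe x) (P0 V) (D.w x) := by
  have hw := wt_xe hx zero_le_one le_rfl fun e => (hx.1 e).2
  have kok : D.k.Ok := Dt.kf_ok hD.T hD.k
  have kq := Dt.kq hD.T hD.k
  have hf := Da.lf hD hx hC
  have hX := xd_ok hf hw kok
  exact wr_of_X hx hD.T hD.k hX hG.d0 hG.d1 (fun a b d ha hb hd hab had hbd t ht =>
    gap_of_A hf hw kok kq.fc hD.k.cPe hG.ab kq.ms hG.hA hG.a0 hG.hγ hG.le ha hb hd hab had hbd ht)
    hT hP

end

/-- what the closures have to deliver for one graph -/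
def C2In (p : Ps) (q : TDt5) : Prop :=
  ∀ (V : Type) [Fintype V] [DecidableEq V] (Gr : SimpleGraph V) [Fintype Gr.edgeSet]
    [DecidableEq Gr.edgeSet] (x : Gr.edgeSet → ℝ) [Pool.Agent.RZ.RCG.CX x],
    IsFractionalMatching Gr x →
    ∃ C : Cx (V ⊕ V), Cls p.z.hz (xe x) (P0 V) C ∧ LateN p q (xe x) (P0 V) ∧
      TT (p.da (kdN p q) C) x ∧ PP (p.da (kdN p q) C) x

/-- **the final theorem from the closures and the graph inequalities** -/
theorem half_of_C2 {p : Ps} (hp : p.Ok) {q : TDt5} {g : GDatN}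
    (hq : DnN p q) (hg : g.Pos p.d q) (hB : g.Bd) (H : C2In p q)
    (V : Type) [Fintype V] [DecidableEq V] (Gr : SimpleGraph V) [Fintype Gr.edgeSet]
    [DecidableEq Gr.edgeSet] (x : Gr.edgeSet → ℝ) (hx : IsFractionalMatching Gr x)
    (hX : ∀ e, x e ≤ Pool.Agent.RZ.RCG.XM)
    (h1 : ∀ v : V, (∑ e : Gr.edgeSet, if v ∈ (e : Sym2 V) then x e else 0) = 1) :
    ∃ S : Scheme Gr, ∀ e : Gr.edgeSet, S.selProb x e = x e / 2 := by
  haveI : Pool.Agent.RZ.RCG.CX x := ⟨hX, h1⟩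
  obtain ⟨C, hC, hL, hT, hP⟩ := H V Gr x hx
  have hG := gpN_of hp hq.qP hq.qB hg hB C
  have hD := da_ok hp (C := C) (fun w => kdN_cn C.N w) (kdN_ge hp hq.qP hq.qB)
  exact half_of_P hp hx (fun w => kdN_cn C.N w) (kdN_ge hp hq.qP hq.qB) hC
    (dn_allN hp hq hx hL C (wr_of_TP hD hx hC hG hT hP)) hG hT hP

end Pool.Agent.RZ.RCO
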