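import Pool.Agent.RZ.RCO.FrX_1

/-! Generated: majorants of the frame functions. -/

set_option autoImplicit false

namespace Pool.Agent.RZ.RCO.FrX

open Pool.Agent.RZ.RCN.K Pool.Agent.RZ.RCM9 Pool.Agent.RZ.RCE

theorem c_f0 : majB (fun _ => p.n0) [1, 2, 1] G.f0 0 = true := by decide +kernel

theorem c_f1 : majB (fun _ => p.n1) [1, 2, 1] G.f1 0 = true := by decide +kernel

theorem c_f2 : majB (fun _ => p.n2) [1, 2, 1] G.f2 0 = true := by decide +kernel

theorem c_φ0 : majB (fun _ => p.m0) [1, 1] G.φ0 0 = true := by decide +kernel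

theorem c_φ1 : majB (fun _ => p.m1) [1, 1] G.φ1 0 = true := by decide +kernel

theorem c_φ2 : majB (fun _ => p.m2) [1, 1] G.φ2 0 = true := by decide +kernel

theorem c_c0 : majB (fun _ => p.n0) [1, 1] G.c0 0 = true := by decide +kernel

theorem c_c1 : majB (fun _ => p.n1) [1, 1] G.c1 0 = true := by decide +kernel

theorem c_c2 : majB (fun _ => p.n2) [1, 1] G.c2 0 = true := by decide +kernel

theorem c_r0 : majB (fun _ => p.r ((G.em : ℚ) / 1048576) 0) [1] G.ρ 0 = true := by decide +kernel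

theorem c_r1 : majB (fun _ => p.r ((G.em : ℚ) / 1048576) 1) [1] G.ρ 0 = true := by decide +kernel

theorem c_r2 : majB (fun _ => p.r ((G.em : ℚ) / 1048576) 2) [1] G.ρ 0 = true := by decide +kernel

theorem c_r3 : majB (fun _ => p.r ((G.em : ℚ) / 1048576) 3) [1] G.ρ 0 = true := by decide +kernel

end Pool.Agent.RZ.RCO.FrX
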