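import Pool.Agent.RZ.RCO.FrX_2
import Pool.Agent.RZ.RCO.FrX_3

/-! Generated: majorants of the frame functions. -/

set_option autoImplicit false

namespace Pool.Agent.RZ.RCO.FrX

open Pool.Agent.RZ.RCN.K Pool.Agent.RZ.RCM9 Pool.Agent.RZ.RCE

theorem c_U : majB (e.UN G.b1 G.jt) [1] G.U 0 = true := by decide +kernel

theorem c_Ga : majB (fun _ => (pri e.cp).tail) [1] G.Ga 0 = true := by decide +kernel

theorem c_Gu : majB (fun _ => (e.UN G.b1 1 0).tail) [1] G.Gu 0 = true := by decide +kernel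

theorem ok : G.Ok p e :=
  ⟨by decide +kernel, c_f0, c_f1, c_f2, c_φ0, c_φ1, c_φ2, c_c0, c_c1, c_c2, c_r0, c_r1, c_r2, c_r3,
    c_U, c_Ga, c_Gu, by decide +kernel, by decide +kernel, by decide +kernel, by decide +kernel⟩

end Pool.Agent.RZ.RCO.FrX
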