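import Mathlib

/-! The exact solution of the system of level 1/2 (MP_73ccd0_lc, route M). -/

namespace Pool.Agent.RZ.RCO

open Set Finset

set_option linter.unusedSectionVars false

variable {V : Type*} [Fintype V] [DecidableEq V]

theorem e1 {z : ℝ} (hz : 0 ≤ z) : 0 ≤ 1 - Real.exp (-z) := by
  have := Real.exp_le_one_iff.2 (by linarith : -z ≤ 0); linarith

theorem e1m {z w : ℝ} (h : z ≤ w) : 1 - Real.exp (-z) ≤ 1 - Real.exp (-w) := by
  have := Real.exp_le_exp.2 (neg_le_neg h); linarith

theorem e1l (z : ℝ) : 1 - Real.exp (-z) ≤ z := by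
  have := Real.add_one_le_exp (-z); linarith

end Pool.Agent.RZ.RCO
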