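import Mathlib

/-! Existence and linear bounds for the exact solution of level 1/2 (MP_73ccd0_lc, route M). -/

namespace Pool.Agent.RZ.RCO

open Set Finset

set_option linter.unusedSectionVars false

variable {V : Type*} [Fintype V] [DecidableEq V]
variable {U : Finset V} {T A B : ℝ → V → V → ℝ} {τ : ℝ}

/-- admissible data of the system of level 1/2 -/
structure GDat (U : Finset V) (τ : ℝ) (T A B : ℝ → V → V → ℝ) : Prop where
  T0 : ∀ r ∈ Icc 0 τ, ∀ i j, 0 ≤ T r i j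
  A0 : ∀ r ∈ Icc 0 τ, ∀ i j, 0 ≤ A r i j
  B0 : ∀ r ∈ Icc 0 τ, ∀ i j, 0 ≤ B r i j
  Ts : ∀ r ∈ Icc 0 τ, ∀ i j, T r i j = T r j i
  As : ∀ r ∈ Icc 0 τ, ∀ i j, A r i j = A r j i
  Bs : ∀ r ∈ Icc 0 τ, ∀ i j, B r i j = B r j i
  cT : ∀ i j, ContinuousOn (fun r => T r i j) (Icc 0 τ)
  cA : ∀ i j, ContinuousOn (fun r => A r i j) (Icc 0 τ)
  cB : ∀ i j, ContinuousOn (fun r => B r i j) (Icc 0 τ)

end Pool.Agent.RZ.RCO
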