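import Pool.Agent.RZ.RCO.Gl1

/-! Linear forms of the features of a point: signs and monotonicity in the world from one
inequality per neighbour (MP_73ccd0_lc). -/

namespace Pool.Agent.RZ.RCO

open Set Finset Pool.Agent.RZ.RCM

set_option linter.unusedSectionVars false

/-- **a linear form of the features** with the coefficients `f 0, f 1, ..` -/
def frm (f : ℕ → ℝ) (p : Pt) : ℝ :=
  f 0 * p.m + f 1 * (p.k * p.m) + f 2 * p.h + f 3 * p.g + f 4 * p.q + f 5 * p.e
    + f 6 * (p.m * p.H) + f 7 * (p.m * p.Q) + f 8 * (p.m * p.E) + f 9 * p.s
    + f 10 * (p.m * p.G) + f 11 * (p.m * p.S)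

/-! ### operations on the coefficients -/

section

/-! ### families of functions of the vertex and the world -/

end

end Pool.Agent.RZ.RCO
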