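import Pool.Agent.RZ.RCO.Gs11_2
import Pool.Agent.RZ.RCO.Gs5

/-! The sum of level 2: smaller functions, mixtures of two end times, glue in time
(MP_73ccd0_lc). -/

namespace Pool.Agent.RZ.RCO

open Set Finset Pool.Agent.RZ.RCM

set_option linter.unusedSectionVars false

/-! ### mixtures of edge lines -/

section el

variable {a b : ℝ} {R R' : ℝ → ℝ} {Rp Rp' : ℝ} {G G' Gp Gp' : Pt → ℝ} {c c' : Ec}

/-- two kernels, the same functions -/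
theorem el_mix_kernel (h : EL a b R Rp G Gp c) (h' : EL a b R' Rp' G Gp c') {s t : ℝ}
    (s0 : 0 ≤ s) (t0 : 0 ≤ t) : EL a b (fun x => s * R x + t * R' x) (s * Rp + t * Rp') G Gp
      ((c.smul s).add (c'.smul t)) := by
  refine ⟨add_nonneg (mul_nonneg s0 h.c6) (mul_nonneg t0 h'.c6),
    add_nonneg (mul_nonneg s0 h.c7) (mul_nonneg t0 h'.c7), fun q x hq => ?_, fun q x hq => ?_⟩
  · rw [ev_add, ev_smul, ev_smul]
    have h1 := mul_le_mul_of_nonneg_left (h.l q x hq) s0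
    have h2 := mul_le_mul_of_nonneg_left (h'.l q x hq) t0
    refine le_trans (le_of_eq ?_) (add_le_add h1 h2)
    ring
  · rw [ev_add, ev_smul, ev_smul]
    have h1 := mul_le_mul_of_nonneg_left (h.p q x hq) s0
    have h2 := mul_le_mul_of_nonneg_left (h'.p q x hq) t0
    refine le_trans (le_of_eq ?_) (add_le_add h1 h2)
    ring

/-- the same kernel, mixed functions -/
theorem el_mix_fun (h : EL a b R Rp G Gp c) (h' : EL a b R Rp G' Gp' c') {s t : ℝ}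
    (s0 : 0 ≤ s) (t0 : 0 ≤ t) {F Fp : Pt → ℝ} (hF : ∀ q, F q = s * G q + t * G' q)
    (hp : ∀ q, Fp q = s * Gp q + t * Gp' q) :
    EL a b R Rp F Fp ((c.smul s).add (c'.smul t)) :=
  ((h.smul s0).add (h'.smul t0)).cg hF hp

/-- a smaller kernel, nonnegative functions -/
theorem el_kernel_le (h : EL a b R' Rp' G Gp c)
    (hR : ∀ (q : Pt) (x : ℝ), q.Sat x a b → R x ≤ R' x) (hp : Rp ≤ Rp')
    (G0 : ∀ (q : Pt) (x : ℝ), q.Sat x a b → 0 ≤ G q)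
    (Gp0 : ∀ (q : Pt) (x : ℝ), q.Pend x a b → 0 ≤ Gp q) : EL a b R Rp G Gp c :=
  ⟨h.c6, h.c7, fun q x hq => (mul_le_mul_of_nonneg_right
    (mul_le_mul_of_nonneg_left (hR q x hq) hq.x0) (G0 q x hq)).trans (h.l q x hq),
    fun q x hq => (mul_le_mul_of_nonneg_right
    (mul_le_mul_of_nonneg_left hp hq.x0) (Gp0 q x hq)).trans (h.p q x hq)⟩

end el

/-! ### mixtures of the checks -/

theorem Pt.Sat.x1 {p : Pt} {x a b : ℝ} (h : p.Sat x a b) : x ≤ 1 := by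
  have := h.ax
  have := h.a0
  linarith

section mix

variable {M : Type*} [Fintype M] {R : ℝ → ℝ} {Rp : ℝ} {W : Pt → ℝ} {Wp : ℝ → ℝ}
  {w1 : M → Pt → ℝ} {Ψn Ψd Ψn' Ψd' : Pt → ℝ} {Cn Cd Cn' Cd' : ℝ} {RD RD' : ℝ → ℝ}
  {RDp RDp' : ℝ} {ν δ ν' δ' : M → Pt → ℝ} {κD c4 : ℝ} {Φ Φ' : Bool → M → Pt → ℝ}
  {K1 K2 : Pt → ℝ} {Gn Ge Gn' Ge' : M → ℝ} {s t : ℝ}

/-- **two end times of the targets**, the same positions -/
theorem CK1.mixT (h : CK1 R Rp W Wp w1 Ψn Ψd Cn Cd RD RDp ν δ κD c4 Φ K1 Gn Ge)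
    (h' : CK1 R Rp W Wp w1 Ψn' Ψd' Cn' Cd' RD RDp ν δ κD c4 Φ K2 Gn' Ge') (s0 : 0 ≤ s)
    (t0 : 0 ≤ t) :
    CK1 R Rp W Wp w1 (fun p => s * Ψn p + t * Ψn' p) (fun p => s * Ψd p + t * Ψd' p)
      (s * Cn + t * Cn') (s * Cd + t * Cd') RD RDp ν δ κD c4 Φ
      (fun p => s * K1 p + t * K2 p) (fun m => s * Gn m + t * Gn' m)
      (fun m => s * Ge m + t * Ge' m) := by
  have sm : ∀ (f g : M → ℝ) (w : M → ℝ), ∑ m, (s * f m + t * g m) * w m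
      = s * ∑ m, f m * w m + t * ∑ m, g m * w m := fun f g w => by
    rw [Finset.mul_sum, Finset.mul_sum, ← Finset.sum_add_distrib]
    exact Finset.sum_congr rfl fun m _ => by ring
  refine ⟨fun p hp hf => ?_, fun p hp hf => ?_, fun p x hpx => ?_, fun p x hpx => ?_,
    fun p hp hf => ?_⟩
  · obtain ⟨c, h1, h2⟩ := h.pn p hp hf
    obtain ⟨c', h1', h2'⟩ := h'.pn p hp hf
    refine ⟨_, el_mix_fun h1 h1' s0 t0 (fun q => by ring) fun q => by ring, ?_⟩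
    rw [sv_add, sv_smul, sv_smul, sm]
    exact add_le_add (mul_le_mul_of_nonneg_left h2 s0) (mul_le_mul_of_nonneg_left h2' t0)
  · obtain ⟨c, h1, h2⟩ := h.pd p hp hf
    obtain ⟨c', h1', h2'⟩ := h'.pd p hp hf
    refine ⟨_, el_mix_fun h1 h1' s0 t0 (fun q => by ring) fun q => by ring, ?_⟩
    rw [sv_add, sv_smul, sv_smul, sm]
    exact add_le_add (mul_le_mul_of_nonneg_left h2 s0) (mul_le_mul_of_nonneg_left h2' t0)
  · rw [sm]
    have a1 := mul_le_mul_of_nonneg_left (h.qn p x hpx) s0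
    have a2 := mul_le_mul_of_nonneg_left (h'.qn p x hpx) t0
    refine le_trans (le_of_eq ?_) (add_le_add a1 a2)
    ring
  · rw [sm]
    have a1 := mul_le_mul_of_nonneg_left (h.qd p x hpx) s0
    have a2 := mul_le_mul_of_nonneg_left (h'.qd p x hpx) t0
    refine le_trans (le_of_eq ?_) (add_le_add a1 a2)
    ring
  · obtain ⟨c, h1, h2⟩ := h.vK p hp hf
    obtain ⟨c', h1', h2'⟩ := h'.vK p hp hf
    refine ⟨_, el_mix_fun h1 h1' s0 t0 (fun q => sm _ _ _) fun q => sm _ _ _, ?_⟩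
    rw [sv_add, sv_smul, sv_smul]
    have a1 := mul_le_mul_of_nonneg_left h2 s0
    have a2 := mul_le_mul_of_nonneg_left h2' t0
    have e : ∑ m, ((s * Gn m + t * Gn' m) * (κD * δ m p + c4 * Φ true m p)
        + (s * Ge m + t * Ge' m) * (ν m p + Φ false m p))
        = s * ∑ m, (Gn m * (κD * δ m p + c4 * Φ true m p) + Ge m * (ν m p + Φ false m p))
          + t * ∑ m, (Gn' m * (κD * δ m p + c4 * Φ true m p)
            + Ge' m * (ν m p + Φ false m p)) := by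
      rw [Finset.mul_sum, Finset.mul_sum, ← Finset.sum_add_distrib]
      exact Finset.sum_congr rfl fun m _ => by ring
    rw [e]
    linarith

/-- **two end times of the positions**, the same targets -/
theorem CK1.mixP (h : CK1 R Rp W Wp w1 Ψn Ψd Cn Cd RD RDp ν δ κD c4 Φ K1 Gn Ge)
    (h' : CK1 R Rp W Wp w1 Ψn Ψd Cn Cd RD' RDp' ν' δ' κD c4 Φ' K2 Gn Ge) (s0 : 0 ≤ s)
    (t0 : 0 ≤ t) :
    CK1 R Rp W Wp w1 Ψn Ψd Cn Cd (fun x => s * RD x + t * RD' x) (s * RDp + t * RDp')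
      (fun m p => s * ν m p + t * ν' m p) (fun m p => s * δ m p + t * δ' m p) κD c4
      (fun b m p => s * Φ b m p + t * Φ' b m p) (fun p => s * K1 p + t * K2 p) Gn Ge where
  pn := h.pn
  pd := h.pd
  qn := h.qn
  qd := h.qd
  vK := fun p hp hf => by
    obtain ⟨c, h1, h2⟩ := h.vK p hp hf
    obtain ⟨c', h1', h2'⟩ := h'.vK p hp hf
    refine ⟨_, el_mix_kernel h1 h1' s0 t0, ?_⟩
    rw [sv_add, sv_smul, sv_smul]
    have a1 := mul_le_mul_of_nonneg_left h2 s0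
    have a2 := mul_le_mul_of_nonneg_left h2' t0
    have e : ∑ m, (Gn m * (κD * (s * δ m p + t * δ' m p)
          + c4 * (s * Φ true m p + t * Φ' true m p))
        + Ge m * (s * ν m p + t * ν' m p + (s * Φ false m p + t * Φ' false m p)))
        = s * ∑ m, (Gn m * (κD * δ m p + c4 * Φ true m p) + Ge m * (ν m p + Φ false m p))
          + t * ∑ m, (Gn m * (κD * δ' m p + c4 * Φ' true m p)
            + Ge m * (ν' m p + Φ' false m p)) := by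
      rw [Finset.mul_sum, Finset.mul_sum, ← Finset.sum_add_distrib]
      exact Finset.sum_congr rfl fun m _ => by ring
    rw [e]
    linarith

/-- **smaller functions of the positions** -/
theorem CK1.antiP (h : CK1 R Rp W Wp w1 Ψn Ψd Cn Cd RD RDp ν δ κD c4 Φ K1 Gn Ge)
    (w10 : ∀ m p, Sa p → 0 ≤ w1 m p.full)
    (w1p : ∀ m (p : Pt) (x a b : ℝ), p.Pend x a b → 0 ≤ w1 m p.full)
    (hRD : ∀ x ∈ Icc (0 : ℝ) 1, RD' x ≤ RD x) (hRDp : RDp' ≤ RDp)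
    (hν : ∀ m p, Sa p → ν' m p ≤ ν m p) (hδ : ∀ m p, Sa p → δ' m p ≤ δ m p)
    (hΦ : ∀ b m p, Sa p → Φ' b m p ≤ Φ b m p) (Gn0 : ∀ m, 0 ≤ Gn m) (Ge0 : ∀ m, 0 ≤ Ge m)
    (κD0 : 0 ≤ κD) (c40 : 0 ≤ c4) :
    CK1 R Rp W Wp w1 Ψn Ψd Cn Cd RD' RDp' ν' δ' κD c4 Φ' K1 Gn Ge where
  pn := h.pn
  pd := h.pd
  qn := h.qn
  qd := h.qd
  vK := fun p hp hf => by
    have hs : Sa p := ⟨0, 0, 0, hp⟩
    obtain ⟨c, h1, h2⟩ := h.vK p hp hf
    refine ⟨c, el_kernel_le h1 (fun q x hq => hRD x ⟨hq.x0, hq.x1⟩) hRDp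
      (fun q x hq => Finset.sum_nonneg fun m _ => mul_nonneg (Gn0 m) (w10 m q ⟨_, _, _, hq⟩))
      (fun q x hq => Finset.sum_nonneg fun m _ => mul_nonneg (Gn0 m) (w1p m q x _ _ hq)),
      le_trans (add_le_add le_rfl (Finset.sum_le_sum fun m _ => ?_)) h2⟩
    have b1 := mul_le_mul_of_nonneg_left (hδ m p hs) κD0
    have b2 := mul_le_mul_of_nonneg_left (hΦ true m p hs) c40
    exact add_le_add (mul_le_mul_of_nonneg_left (by linarith) (Gn0 m))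
      (mul_le_mul_of_nonneg_left (by linarith [hν m p hs, hΦ false m p hs]) (Ge0 m))

end mix

/-! ### the condition for the bundles of the data -/

section ds

variable {V : Type*} [Fintype V] [DecidableEq V]
variable {x : V → V → ℝ} {P : V → Prop} {D : Finset V} {σ τ1 τ2 : ℝ} {S : Finset ℝ}
  {hb T : ℝ → V → V → ℝ}
  {J M Λ : Type*} [Fintype J] [Nonempty J] [Fintype M] [Nonempty M] [Fintype Λ]
  {E : TEnv} {wv : Λ → Pt → ℝ} {bf : Bool → Λ → V → Finset V → ℝ → ℝ}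
  {B : Bool → Λ → ℝ → Pt → ℝ} {CB : Bool → Λ → ℝ → ℝ} {w1 : M → Pt → ℝ}
  {bf1 : Bool → M → V → Finset V → ℝ → ℝ} {Fe Ge : Finset V → V → V → ℝ}
  {Dd Ee : Finset V → V → V → ℝ → ℝ} {Dk Ek : ℝ → V → V → ℝ} {νf δf : M → V → Finset V → ℝ}
  {ν δν : M → Pt → ℝ} {Cν Cδ : M → ℝ} {dt : DT1 J Λ} {dp : DP1 M} {m0 : M}
  {J' M' Λ' : Type*} [Fintype J'] [Nonempty J'] [Fintype M'] [Nonempty M'] [Fintype Λ']
  {E' : TEnv} {wv' : Λ' → Pt → ℝ} {bf' : Bool → Λ' → V → Finset V → ℝ → ℝ}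
  {w1' : M' → Pt → ℝ} {bf1' : Bool → M' → V → Finset V → ℝ → ℝ}
  {Fe' Ge' : Finset V → V → V → ℝ} {Dd' Ee' : Finset V → V → V → ℝ → ℝ}
  {Dk' Ek' : ℝ → V → V → ℝ} {νf' δf' : M' → V → Finset V → ℝ}
  {ν' δν' : M' → Pt → ℝ} {Cν' Cδ' : M' → ℝ} {dt' : DT1 J' Λ'} {dp' : DP1 M'} {m0' : M'}
  {K K' : ℝ → Pt → ℝ} {Gk Gl : M' → ℝ → ℝ}

/-- **the condition of the sum of level 2 for two bundles** (targets of the first one on
`[0, τ1]`, positions of the second one on `[0, τ2]`) -/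
theorem dS1_kcd (env : WEnv x P D σ S hb T E.R E.Rp E.W E.Wp)
    (h : KcOk σ S E.R E.Rp E.W E.Wp w1' dt.Ψn dt.Ψd dt.Cn dt.Cd E'.RD E'.RDp ν' δν' E'.κD
      E'.c4 dp'.g.Φ K K' Gk Gl)
    (ht : dt.Ok τ1 S E wv B CB (ν m0) (δν m0) (Cν m0) (Cδ m0)) (h1 : σ ≤ τ1)
    (hK : KrE x P D τ1 S Fe Dd Ee Dk Ek E.RD E.RE E.RDp E.REp E.κD E.κE)
    (he : EndV x P D w1 Fe Ge νf δf ν δν Cν Cδ) (hm0 : ∀ p, w1 m0 p = 1)
    (hK' : KrE x P D τ2 S Fe' Dd' Ee' Dk' Ek' E'.RD E'.RE E'.RDp E'.REp E'.κD E'.κE)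
    (h2 : σ ≤ τ2) (he' : EndV x P D w1' Fe' Ge' νf' δf' ν' δν' Cν' Cδ')
    (w10 : ∀ m, ∀ v ∈ Dᶜ, 0 ≤ w1' m (fp x D v))
    {d : V} (hd : d ∈ Dᶜ) (hPd : P d) {f0 : V → ℝ} (hf0 : ∀ c ∈ Dᶜ, f0 c ≤ 1) :
    KcD Dᶜ σ S T (dS1 x P D T Dd Ee Dk Ek E wv bf w1 bf1 νf δf m0 dt dp)
      (kcl x P D (fun _ => 1) dt.f (fun e F _ => νf m0 e F)
        (kbf (fun (_ : Unit) _ => 1) Dk E.κD (fun _ => δf m0) ())
        (kbf (fun (_ : Unit) _ => 1) Ek E.κE (fun _ => δf m0) ()))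
      (dS1 x P D T Dd' Ee' Dk' Ek' E' wv' bf' w1' bf1' νf' δf' m0' dt' dp')
      d f0 (fuK Gk) (fuK Gl) (fun r => K r (fp x D d)) fun r => K' r (fp x D d) := by
  have hg := ht.grp env.hP env.hx env.hD hK
    (N := fun F c e _ => Ge F c e) (fun _ _ _ _ _ _ _ => le_rfl)
    (he.hG.one hm0) (he.hF.one hm0) (he.fν m0) (he.fδ m0)
  exact h.kcd_grp env () hg h1 hK' h2 w10 he'.fν he'.fδ hd hPd hf0

end ds

/-! ### glue in time -/

section glue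

end glue

end Pool.Agent.RZ.RCO
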