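import Pool.Agent.RZ.RCO.Gi2
import Pool.Agent.RZ.RCO.GsK

/-! The sum of level 2 at mixed ends: positions mixed, targets mixed (MP_73ccd0_lc). -/

set_option autoImplicit false

namespace Pool.Agent.RZ.RCO

open Set Pool.Agent.RZ.RCRSHalf Pool.Agent.RZ.RCG Pool.Agent.RZ.RCG.Ct
open Pool.Agent.RZ.RCN Pool.Agent.RZ.RCN.K

set_option linter.unusedSectionVars false

/-! ### multiples of the checks -/

section sc

variable {M : Type*} [Fintype M] {R : ℝ → ℝ} {Rp : ℝ} {W : Pt → ℝ} {Wp : ℝ → ℝ}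
  {w1 : M → Pt → ℝ} {Ψn Ψd : Pt → ℝ} {Cn Cd : ℝ} {RD : ℝ → ℝ}
  {RDp : ℝ} {ν δ : M → Pt → ℝ} {κD c4 : ℝ} {Φ : Bool → M → Pt → ℝ}
  {K1 K2 : Pt → ℝ} {Gn Ge : M → ℝ} {k : ℝ}

/-- multiples of the functions of the targets -/
theorem CK1.scT (h : CK1 R Rp W Wp w1 Ψn Ψd Cn Cd RD RDp ν δ κD c4 Φ K1 Gn Ge) (k0 : 0 ≤ k)
    (hK : ∀ p : Pt, p.Sat 0 0 0 → p = p.full → K2 p ≤ k * K1 p) :
    CK1 R Rp W Wp w1 (fun p => k * Ψn p) (fun p => k * Ψd p) (k * Cn) (k * Cd) RD RDp ν δ κD c4 Φ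
      K2 (fun m => k * Gn m) fun m => k * Ge m := by
  have sm : ∀ (f : M → ℝ) (w : M → ℝ), ∑ m, (k * f m) * w m = k * ∑ m, f m * w m := fun f w => by
    rw [Finset.mul_sum]
    exact Finset.sum_congr rfl fun m _ => by ring
  refine ⟨fun p hp hf => ?_, fun p hp hf => ?_, fun p x hpx => ?_, fun p x hpx => ?_,
    fun p hp hf => ?_⟩
  · obtain ⟨c, h1, h2⟩ := h.pn p hp hf
    refine ⟨c.smul k, h1.smulG k0 (fun q => by ring) fun q => by ring, ?_⟩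
    rw [sv_smul, sm]
    exact mul_le_mul_of_nonneg_left h2 k0
  · obtain ⟨c, h1, h2⟩ := h.pd p hp hf
    refine ⟨c.smul k, h1.smulG k0 (fun q => by ring) fun q => by ring, ?_⟩
    rw [sv_smul, sm]
    exact mul_le_mul_of_nonneg_left h2 k0
  · rw [sm]
    refine le_trans (le_of_eq ?_) (mul_le_mul_of_nonneg_left (h.qn p x hpx) k0)
    ring
  · rw [sm]
    refine le_trans (le_of_eq ?_) (mul_le_mul_of_nonneg_left (h.qd p x hpx) k0)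
    ring
  · obtain ⟨c, h1, h2⟩ := h.vK p hp hf
    refine ⟨c.smul k, h1.smulG k0 (fun q => sm _ _) fun q => sm _ _, ?_⟩
    rw [sv_smul]
    refine le_trans (le_of_eq ?_) (val_sc k0 h2 (hK p hp hf))
    rw [Finset.mul_sum]
    exact congrArg₂ _ rfl (Finset.sum_congr rfl fun m _ => by ring)

/-- multiples of the functions of the positions -/
theorem CK1.scP (h : CK1 R Rp W Wp w1 Ψn Ψd Cn Cd RD RDp ν δ κD c4 Φ K1 Gn Ge) (k0 : 0 ≤ k)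
    (hK : ∀ p : Pt, p.Sat 0 0 0 → p = p.full → K2 p ≤ k * K1 p) :
    CK1 R Rp W Wp w1 Ψn Ψd Cn Cd (fun x => k * RD x) (k * RDp) (fun m p => k * ν m p)
      (fun m p => k * δ m p) κD c4 (fun b m p => k * Φ b m p) K2 Gn Ge where
  pn := h.pn
  pd := h.pd
  qn := h.qn
  qd := h.qd
  vK := fun p hp hf => by
    obtain ⟨c, h1, h2⟩ := h.vK p hp hf
    refine ⟨c.smul k, h1.smulR k0, ?_⟩
    rw [sv_smul]
    refine le_trans (le_of_eq ?_) (val_sc k0 h2 (hK p hp hf))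
    rw [Finset.mul_sum]
    exact congrArg₂ _ rfl (Finset.sum_congr rfl fun m _ => by ring)

end sc

section kmix

variable {M : Type*} [Fintype M] {θ s w : ℝ} {S S' : Finset ℝ}
  {R R1 : ℝ → ℝ → ℝ} {Rp Rp1 : ℝ → ℝ} {W W1 : ℝ → Pt → ℝ} {Wp Wp1 : ℝ → ℝ → ℝ}
  {w1 : M → Pt → ℝ} {Ψn Ψd Ψn' Ψd' : ℝ → Pt → ℝ} {Cn Cd Cn' Cd' : ℝ → ℝ}
  {RD RD' RDm : ℝ → ℝ → ℝ} {RDp RDp' RDpm : ℝ → ℝ} {ν δ ν' δ' νm δm : M → Pt → ℝ}
  {κD c4 κD' c4' : ℝ → ℝ}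
  {Φ Φ' Φm : Bool → M → ℝ → Pt → ℝ} {K1 K2 K1' K2' : ℝ → Pt → ℝ}
  {G1 E1 G2 E2 G E : M → ℝ → ℝ}

/-- nothing at the time `0` -/
theorem kcOk_zero (hS : (0 : ℝ) ∈ S) (hG : ∀ m, 0 ≤ G1 m 0) (hE : ∀ m, 0 ≤ E1 m 0) :
    KcOk 0 S R Rp W Wp w1 Ψn Ψd Cn Cd RD RDp ν δ κD c4 Φ (fun _ _ => 0) (fun _ _ => 0) G1 E1 where
  cK := fun _ => continuousOn_const
  dK := fun _ r hr hr' => absurd (by rw [le_antisymm hr.2 hr.1]; exact hS) hr'
  K0 := fun _ _ _ => le_rfl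
  Gn0 := fun m r hr => by
    rw [le_antisymm hr.2 hr.1]
    exact hG m
  Ge0 := fun m r hr => by
    rw [le_antisymm hr.2 hr.1]
    exact hE m
  ck := fun r hr hr' => absurd (by rw [le_antisymm hr.2 hr.1]; exact hS) hr'

/-- **the glued bound of the sum of level 2** -/
theorem kcOk_gl (s0 : 0 ≤ s) (θ0 : 0 ≤ θ) (θ1 : θ ≤ 1) (w0 : 0 < w)
    (c1 : ∀ p, ContinuousOn (fun r => K1 r p) (Icc 0 s))
    (c2 : ∀ p, ContinuousOn (fun r => K2 r p) (Icc 0 (s + w)))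
    (d1 : ∀ p, ∀ r ∈ Icc 0 s, r ∉ S → HasDerivAt (fun r => K1 r p) (K1' r p) r)
    (d2 : ∀ p, ∀ r ∈ Icc 0 (s + w), r ∉ S → HasDerivAt (fun r => K2 r p) (K2' r p) r)
    (z1 : ∀ p, K1 s p = 0)
    (K20 : ∀ p : Pt, p.Sat 0 0 0 → p = p.full → ∀ r ∈ Icc 0 (s + w), 0 ≤ K2 r p)
    (S0 : s ∈ S) (S1 : s + θ * w ∈ S)
    (Gn0 : ∀ m, ∀ r ∈ Icc 0 (s + θ * w), 0 ≤ G m r)
    (Ge0 : ∀ m, ∀ r ∈ Icc 0 (s + θ * w), 0 ≤ E m r)
    (lo : ∀ r ∈ Icc 0 s, r ∉ S → CK1 (R r) (Rp r) (W r) (Wp r) w1 (Ψn r) (Ψd r)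
      (Cn r) (Cd r) (RD r) (RDp r) ν δ (κD r) (c4 r) (fun b m => Φ b m r)
      (fun p => mx θ (K1' r p) (K2' r p)) (fun m => G m r) fun m => E m r)
    (hi : ∀ r, s < r → r ≤ s + θ * w → r ∉ S → ∀ K : Pt → ℝ,
      (∀ p : Pt, p.Sat 0 0 0 → p = p.full → K p ≤ lm s w θ r * K2' r p) →
      CK1 (R r) (Rp r) (W r) (Wp r) w1 (Ψn r) (Ψd r)
      (Cn r) (Cd r) (RD r) (RDp r) ν δ (κD r) (c4 r) (fun b m => Φ b m r)
      K (fun m => G m r) fun m => E m r) :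
    KcOk (s + θ * w) S R Rp W Wp w1 Ψn Ψd Cn Cd RD RDp ν δ κD c4 Φ
      (fun r p => glu s w θ (fun r => K1 r p) (fun r => K2 r p) r)
      (fun r p => glu' s w θ (fun r => K1' r p) (fun r => K2' r p) (fun r => K2 r p) r) G E where
  cK := fun p => glu_cont s0 w0 θ0 θ1 (z1 p) (c1 p) (c2 p)
  dK := fun p r hr hS => by
    have tw : θ * w ≤ w := by nlinarith
    have n1 : r ≠ s := fun h => hS (h ▸ S0)
    have n2 : r ≠ s + θ * w := fun h => hS (h ▸ S1)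
    rcases lt_or_gt_of_ne n1 with h | h
    · have h4 := glu_dlo (w := w) (θ := θ) h (d1 p r ⟨hr.1, h.le⟩ hS)
        (d2 p r ⟨hr.1, by linarith⟩ hS)
      refine h4.congr_deriv ?_
      exact (glu'_lo (f' := fun r => K1' r p) (g' := fun r => K2' r p)
        (g := fun r => K2 r p) h.le).symm
    · have hr2 : r < s + θ * w := lt_of_le_of_ne hr.2 n2
      have h4 := glu_dhi (f := fun r => K1 r p) (θ := θ) h (by linarith : r < s + w)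
        (d2 p r ⟨hr.1, by linarith⟩ hS)
      refine h4.congr_deriv ?_
      exact (glu'_hi (f' := fun r => K1' r p) (g' := fun r => K2' r p)
        (g := fun r => K2 r p) h).symm
  K0 := fun p hp hf => by
    have tw : θ * w ≤ w := by nlinarith
    have t0 : 0 ≤ θ * w := mul_nonneg θ0 w0.le
    have k := K20 p hp hf (s + θ * w) ⟨by linarith, by linarith⟩
    show 0 ≤ glu s w θ (fun r => K1 r p) (fun r => K2 r p) (s + θ * w)
    rcases le_or_gt (s + θ * w) s with h | h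
    · rw [glu_lo h]
      have e : s + θ * w = s := by linarith
      have e2 : K1 (s + θ * w) p = 0 := by rw [e, z1 p]
      exact mx_nonneg θ0 θ1 e2.ge k
    · rw [glu_hi h]
      exact mul_nonneg (lm_nonneg w0 θ0 θ1 le_rfl) k
  Gn0 := Gn0
  Ge0 := Ge0
  ck := fun r hr hS => by
    have tw : θ * w ≤ w := by nlinarith
    rcases le_or_gt r s with h | h
    · have e : (fun p => glu' s w θ (fun r => K1' r p) (fun r => K2' r p) (fun r => K2 r p) r)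
          = fun p => mx θ (K1' r p) (K2' r p) := by
        funext p
        exact glu'_lo h
      rw [e]
      exact lo r ⟨hr.1, h⟩ hS
    · refine hi r h hr.2 hS _ fun p hp hf => ?_
      show glu' s w θ (fun r => K1' r p) (fun r => K2' r p) (fun r => K2 r p) r ≤ _
      rw [glu'_hi h]
      have := mul_nonneg (lm'_nonneg (s := s) (r := r) w0 θ1)
        (K20 p hp hf r ⟨hr.1, hr.2.trans (by linarith)⟩)
      linarith

theorem sub_glS : S ⊆ glS s w θ S := fun r hr => by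
  unfold glS
  simp only [Finset.mem_insert]
  exact Or.inr (Or.inr hr)

/-- **the positions mixed**, no end values -/
theorem KcOk.mixP
    (h1 : KcOk s S R Rp W Wp w1 Ψn Ψd Cn Cd RD RDp ν δ κD c4 Φ K1 K1' G1 E1)
    (h2 : KcOk (s + w) S R Rp W Wp w1 Ψn Ψd Cn Cd RD' RDp' ν' δ' κD' c4' Φ' K2 K2' G2 E2)
    (z1 : ∀ p, K1 s p = 0)
    (K20 : ∀ p : Pt, p.Sat 0 0 0 → p = p.full → ∀ r ∈ Icc 0 (s + w), 0 ≤ K2 r p)
    (s0 : 0 ≤ s) (w0 : 0 < w) (h0 : 0 ≤ θ) (hθ : θ ≤ 1)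
    (eκ : ∀ r ∈ Icc 0 s, κD r = κD' r) (ec : ∀ r ∈ Icc 0 s, c4 r = c4' r)
    (eG : ∀ m, ∀ r ∈ Icc 0 s, G1 m r = G2 m r) (eE : ∀ m, ∀ r ∈ Icc 0 s, E1 m r = E2 m r)
    (w10 : ∀ m p, Sa p → 0 ≤ w1 m p.full)
    (w1p : ∀ m (p : Pt) (x a b : ℝ), p.Pend x a b → 0 ≤ w1 m p.full)
    (κ0 : ∀ r ∈ Icc 0 (s + w), 0 ≤ κD' r) (c0 : ∀ r ∈ Icc 0 (s + w), 0 ≤ c4' r)
    (ν1 : ∀ m p, Sa p → 0 ≤ ν m p) (ν2 : ∀ m p, Sa p → 0 ≤ ν' m p)
    (ν3 : ∀ m p, Sa p → νm m p ≤ 0)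
    (δ1 : ∀ m p, Sa p → 0 ≤ δ m p) (δ2 : ∀ m p, Sa p → 0 ≤ δ' m p)
    (δ3 : ∀ m p, Sa p → δm m p ≤ 0)
    (dlo : ∀ r ∈ Icc 0 s, (∀ y ∈ Icc (0 : ℝ) 1, RDm r y ≤ mx θ (RD r y) (RD' r y)) ∧
      RDpm r ≤ mx θ (RDp r) (RDp' r))
    (dhi : ∀ r, s < r → r ≤ s + θ * w → (∀ y ∈ Icc (0 : ℝ) 1, RDm r y ≤ lm s w θ r * RD' r y) ∧
      RDpm r ≤ lm s w θ r * RDp' r)
    (hlo : ∀ b m r, 0 ≤ r → r ≤ s → ∀ p, Sa p → Φm b m r p ≤ mx θ (Φ b m r p) (Φ' b m r p))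
    (hhi : ∀ b m r, s < r → r ≤ s + θ * w → ∀ p, Sa p → Φm b m r p ≤ lm s w θ r * Φ' b m r p)
    (hS : glS s w θ S ⊆ S') :
    KcOk (s + θ * w) S' R Rp W Wp w1 Ψn Ψd Cn Cd RDm RDpm νm δm κD' c4'
      Φm (fun r p => glu s w θ (fun r => K1 r p) (fun r => K2 r p) r)
      (fun r p => glu' s w θ (fun r => K1' r p) (fun r => K2' r p) (fun r => K2 r p) r)
      G2 E2 := by
  have tw : θ * w ≤ w := by nlinarith
  have t0 : 0 ≤ θ * w := mul_nonneg h0 w0.le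
  have sub : S ⊆ S' := sub_glS.trans hS
  have up : ∀ r ∈ Icc 0 (s + θ * w), r ∈ Icc 0 (s + w) := fun r hr => ⟨hr.1, by linarith [hr.2]⟩
  have ups : ∀ r ∈ Icc 0 s, r ∈ Icc 0 (s + w) := fun r hr => ⟨hr.1, by linarith [hr.2]⟩
  refine kcOk_gl s0 h0 hθ w0 h1.cK h2.cK
    (fun p r hr hr' => h1.dK p r hr fun h => hr' (sub h))
    (fun p r hr hr' => h2.dK p r hr fun h => hr' (sub h)) z1 K20
    (hS (Finset.mem_insert_self _ _))
    (hS (Finset.mem_insert_of_mem (Finset.mem_insert_self _ _)))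
    (fun m r hr => h2.Gn0 m r (up r hr)) (fun m r hr => h2.Ge0 m r (up r hr))
    (fun r hr hr' => ?_) fun r hl hr hr' K hK => ?_
  · have hr2 : r ∉ S := fun h => hr' (sub h)
    have k2 := h2.ck r (ups r hr) hr2
    have k1 := h1.ck r hr hr2
    rw [eκ r hr, ec r hr] at k1
    simp only [eG _ r hr, eE _ r hr] at k1
    have k3 := k1.mixP k2 (sub_nonneg.2 hθ) h0
    exact k3.antiP w10 w1p (dlo r hr).1 (dlo r hr).2
      (fun m p hp => (ν3 m p hp).trans (mx_nonneg h0 hθ (ν1 m p hp) (ν2 m p hp)))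
      (fun m p hp => (δ3 m p hp).trans (mx_nonneg h0 hθ (δ1 m p hp) (δ2 m p hp)))
      (fun b m p hp => hlo b m r hr.1 hr.2 p hp)
      (fun m => h2.Gn0 m r (ups r hr)) (fun m => h2.Ge0 m r (ups r hr))
      (κ0 r (ups r hr)) (c0 r (ups r hr))
  · have hr2 : r ∉ S := fun h => hr' (sub h)
    have hru : r ∈ Icc 0 (s + w) := ⟨s0.trans hl.le, by linarith⟩
    have l0 := lm_nonneg w0 h0 hθ hr
    exact ((h2.ck r hru hr2).scP l0 hK).antiP w10 w1p (dhi r hl hr).1 (dhi r hl hr).2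
      (fun m p hp => (ν3 m p hp).trans (mul_nonneg l0 (ν2 m p hp)))
      (fun m p hp => (δ3 m p hp).trans (mul_nonneg l0 (δ2 m p hp)))
      (fun b m p hp => hhi b m r hl hr p hp)
      (fun m => h2.Gn0 m r hru) (fun m => h2.Ge0 m r hru) (κ0 r hru) (c0 r hru)

/-- **the targets mixed** -/
theorem KcOk.mixT
    (h1 : KcOk s S R1 Rp1 W1 Wp1 w1 Ψn Ψd Cn Cd RD RDp ν δ κD c4 Φ K1 K1' G1 E1)
    (h2 : KcOk (s + w) S R Rp W Wp w1 Ψn' Ψd' Cn' Cd' RD RDp ν δ κD c4 Φ K2 K2' G2 E2)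
    (z1 : ∀ p, K1 s p = 0)
    (K20 : ∀ p : Pt, p.Sat 0 0 0 → p = p.full → ∀ r ∈ Icc 0 (s + w), 0 ≤ K2 r p)
    (s0 : 0 ≤ s) (w0 : 0 < w) (h0 : 0 ≤ θ) (hθ : θ ≤ 1)
    (eR : ∀ r ∈ Icc 0 s, R1 r = R r) (eRp : ∀ r ∈ Icc 0 s, Rp1 r = Rp r)
    (eW : ∀ r ∈ Icc 0 s, W1 r = W r) (eWp : ∀ r ∈ Icc 0 s, Wp1 r = Wp r)
    (hS : glS s w θ S ⊆ S') :
    KcOk (s + θ * w) S' R Rp W Wp w1 (glu2 s w θ Ψn Ψn') (glu2 s w θ Ψd Ψd')
      (glu s w θ Cn Cn') (glu s w θ Cd Cd') RD RDp ν δ κD c4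
      Φ (fun r p => glu s w θ (fun r => K1 r p) (fun r => K2 r p) r)
      (fun r p => glu' s w θ (fun r => K1' r p) (fun r => K2' r p) (fun r => K2 r p) r)
      (fun m => glu s w θ (G1 m) (G2 m)) fun m => glu s w θ (E1 m) (E2 m) := by
  have tw : θ * w ≤ w := by nlinarith
  have sub : S ⊆ S' := sub_glS.trans hS
  have ups : ∀ r ∈ Icc 0 s, r ∈ Icc 0 (s + w) := fun r hr => ⟨hr.1, by linarith [hr.2]⟩
  refine kcOk_gl s0 h0 hθ w0 h1.cK h2.cK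
    (fun p r hr hr' => h1.dK p r hr fun h => hr' (sub h))
    (fun p r hr hr' => h2.dK p r hr fun h => hr' (sub h)) z1 K20
    (hS (Finset.mem_insert_self _ _))
    (hS (Finset.mem_insert_of_mem (Finset.mem_insert_self _ _)))
    (fun m r hr => glu_nonneg w0 h0 hθ (h1.Gn0 m) (h2.Gn0 m) hr)
    (fun m r hr => glu_nonneg w0 h0 hθ (h1.Ge0 m) (h2.Ge0 m) hr)
    (fun r hr hr' => ?_) fun r hl hr hr' K hK => ?_
  · have hr2 : r ∉ S := fun h => hr' (sub h)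
    have k2 := h2.ck r (ups r hr) hr2
    have k1 := h1.ck r hr hr2
    rw [eR r hr, eRp r hr, eW r hr, eWp r hr] at k1
    have k3 := k1.mixT k2 (sub_nonneg.2 hθ) h0
    simp only [glu2_lo hr.2, glu_lo hr.2]
    exact k3
  · have hr2 : r ∉ S := fun h => hr' (sub h)
    have hru : r ∈ Icc 0 (s + w) := ⟨s0.trans hl.le, by linarith⟩
    simp only [glu2_hi hl, glu_hi hl]
    exact (h2.ck r hru hr2).scT (lm_nonneg w0 h0 hθ hr) hK

end kmix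

/-! ### the tables of the sum of level 2 -/

/-- the rates of the system of the targets with the kernels of the system of the positions -/
def kenv (E E' : TEnv) : TEnv where
  R := E.R
  Rp := E.Rp
  W := E.W
  Wp := E.Wp
  RD := E'.RD
  RDp := E'.RDp
  RE := E'.RE
  REp := E'.REp
  κD := E'.κD
  κE := E'.κE
  c1 := E'.c1
  c4 := E'.c4

/-- **the tables of the sum of level 2** of the targets of `q` and the positions of `q'`, with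
their mesh -/
structure TKs (M : Type*) where
  t : ℕ → ℝ
  n : ℕ
  k : TK1 M

end Pool.Agent.RZ.RCO
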