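import Pool.Agent.RZ.RCO.Fe3
import Pool.Agent.RZ.RCO.Gt1

/-! Level 1: the kernels of the killing over time (MP_73ccd0_lc). -/

namespace Pool.Agent.RZ.RCO

open Set Finset MeasureTheory

set_option linter.unusedSectionVars false

/-! ### integrals below supersolutions -/

theorem int_le_super {g g' h : ℝ → ℝ} {a b : ℝ} (hab : a ≤ b)
    (hd : ∀ r ∈ Icc a b, HasDerivAt g (-g' r) r) (hc : ContinuousOn h (Icc a b))
    (hle : ∀ r ∈ Icc a b, h r ≤ g' r) : ∫ r in a..b, h r ≤ g a - g b := by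
  have h1 := intervalIntegral.integral_le_sub_of_hasDeriv_right_of_le (g := fun r => -g r)
    (g' := g') (φ := h) hab (fun r hr => (hd r hr).neg.continuousAt.continuousWithinAt)
    (fun r hr => by
      have := (hd r (Ioo_subset_Icc_self hr)).neg
      rw [neg_neg] at this
      exact this.hasDerivWithinAt) hc.integrableOn_Icc
    (fun r hr => hle r (Ioo_subset_Icc_self hr))
  linarith

/-- the integral of the rate is below a supersolution -/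
theorem bk_le_super {f H H' : ℝ → ℝ} {σ y : ℝ}
    (hf : ContinuousOn f (Icc 0 σ)) (R : ℝ → ℝ) (hR : ∀ r ∈ Icc 0 σ, f r ≤ y * R r)
    (hd : ∀ r ∈ Icc 0 σ, HasDerivAt H (-H' r) r) (hle : ∀ r ∈ Icc 0 σ, R r ≤ H' r)
    (y0 : 0 ≤ y) (he : 0 ≤ H σ) : ∀ r ∈ Icc 0 σ, RCM.bk f σ r ≤ y * H r := by
  intro r hr
  have sub : Icc r σ ⊆ Icc 0 σ := Icc_subset_Icc_left hr.1
  rw [RCM.bk_eq hr]
  have h1 := int_le_super (g := fun r => y * H r) (g' := fun r => y * H' r) (h := f) hr.2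
    (fun z hz => by
      have := (hd z (sub hz)).const_mul y
      rwa [mul_neg] at this) (hf.mono sub)
    fun z hz => (hR z (sub hz)).trans (mul_le_mul_of_nonneg_left (hle z (sub hz)) y0)
  have h2 := mul_nonneg y0 he
  linarith

/-- the exponential of the integral of the rate is below a supersolution -/
theorem exp_bk_le_super {f E E' : ℝ → ℝ} {σ y : ℝ}
    (hf : ContinuousOn f (Icc 0 σ)) (R : ℝ → ℝ) (hR : ∀ r ∈ Icc 0 σ, f r ≤ y * R r)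
    (hd : ∀ r ∈ Icc 0 σ, HasDerivAt E (-E' r) r)
    (hle : ∀ r ∈ Icc 0 σ, R r * (1 + y * E r) ≤ E' r)
    (y0 : 0 ≤ y) (E0 : ∀ r ∈ Icc 0 σ, 0 ≤ E r) :
    ∀ r ∈ Icc 0 σ, Real.exp (RCM.bk f σ r) - 1 ≤ y * E r := by
  intro r hr
  have sub : Icc r σ ⊆ Icc 0 σ := Icc_subset_Icc_left hr.1
  have pos : ∀ z ∈ Icc 0 σ, 0 < 1 + y * E z := fun z hz => by
    have := mul_nonneg y0 (E0 z hz)
    linarith
  rw [RCM.bk_eq hr]
  have h1 := int_le_super (g := fun r => Real.log (1 + y * E r))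
    (g' := fun r => y * E' r / (1 + y * E r)) (h := f) hr.2
    (fun z hz => by
      have := (((hd z (sub hz)).const_mul y).const_add 1).log (pos z (sub hz)).ne'
      refine this.congr_deriv ?_
      ring) (hf.mono sub)
    fun z hz => by
      rw [le_div_iff₀ (pos z (sub hz))]
      have e1 := mul_le_mul_of_nonneg_right (hR z (sub hz)) (pos z (sub hz)).le
      have e2 := mul_le_mul_of_nonneg_left (hle z (sub hz)) y0
      refine e1.trans (le_trans (le_of_eq ?_) e2)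
      ring
  have h2 : 0 ≤ Real.log (1 + y * E σ) := Real.log_nonneg (by
    have := mul_nonneg y0 (E0 σ ⟨hr.1.trans hr.2, le_rfl⟩)
    linarith)
  have h3 : ∫ z in r..σ, f z ≤ Real.log (1 + y * E r) := by linarith
  have h4 := (Real.exp_le_exp.2 h3).trans (Real.exp_log (pos r hr)).le
  linarith

/-! ### the kernels -/

section

variable {V : Type*} [Fintype V] [DecidableEq V]

/-- bounds of the killing of the pairs, divided by the weights -/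
structure KBd (x : V → V → ℝ) (P : V → Prop) (hb : ℝ → V → V → ℝ) (σ : ℝ) (H E : ℝ → ℝ → ℝ)
    (Hp Ep : ℝ → ℝ) : Prop where
  k0 : ∀ r ∈ Icc 0 σ, ∀ u v, 0 ≤ kb hb σ u v r
  hl : ∀ r ∈ Icc 0 σ, ∀ u v, P u → P v → kb hb σ u v r ≤ x u v * H r (x u v)
  el : ∀ r ∈ Icc 0 σ, ∀ u v, P u → P v → Real.exp (kb hb σ u v r) - 1 ≤ x u v * E r (x u v)
  hp : ∀ r ∈ Icc 0 σ, ∀ u v, ¬(P u ∧ P v) → kb hb σ u v r ≤ x u v * Hp r
  ep : ∀ r ∈ Icc 0 σ, ∀ u v, ¬(P u ∧ P v) → Real.exp (kb hb σ u v r) - 1 ≤ x u v * Ep r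

variable {x : V → V → ℝ} {P : V → Prop} {hb : ℝ → V → V → ℝ} {σ : ℝ} {H E : ℝ → ℝ → ℝ}
  {Hp Ep : ℝ → ℝ}

/-- the linear pair kernel -/
theorem KBd.krnL (h : KBd x P hb σ H E Hp Ep) {r : ℝ} (hr : r ∈ Icc 0 σ) {q : ℝ} (q0 : 0 ≤ q) :
    Krn x P (fun u v => q * kb hb σ u v r) (fun y => q * H r y) (q * Hp r) where
  b0 := fun u v => mul_nonneg q0 (h.k0 r hr u v)
  l := fun u v hu hv => (mul_le_mul_of_nonneg_left (h.hl r hr u v hu hv) q0).trans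
    (le_of_eq (by ring))
  p := fun u v hu => (mul_le_mul_of_nonneg_left (h.hp r hr u v hu) q0).trans
    (le_of_eq (by ring))

/-- the quadratic pair kernel -/
theorem KBd.krnQ (h : KBd x P hb σ H E Hp Ep) (x0 : ∀ u v, 0 ≤ x u v) (x1 : ∀ u v, x u v ≤ 1)
    {r : ℝ} (hr : r ∈ Icc 0 σ) {q κ : ℝ} (q0 : 0 ≤ q) (κ0 : 0 ≤ κ) :
    Krn x P (fun u v => q * (kb hb σ u v r + κ * kb hb σ u v r ^ 2))
      (fun y => q * (H r y + κ * (y * H r y ^ 2))) (q * (Hp r + κ * Hp r ^ 2)) where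
  b0 := fun u v => mul_nonneg q0 (add_nonneg (h.k0 r hr u v) (mul_nonneg κ0 (sq_nonneg _)))
  l := fun u v hu hv => by
    have h1 := h.hl r hr u v hu hv
    have h2 := pow_le_pow_left₀ (h.k0 r hr u v) h1 2
    have h3 := add_le_add h1 (mul_le_mul_of_nonneg_left h2 κ0)
    refine (mul_le_mul_of_nonneg_left h3 q0).trans (le_of_eq ?_)
    ring
  p := fun u v hu => by
    have h1 := h.hp r hr u v hu
    have h2 := pow_le_pow_left₀ (h.k0 r hr u v) h1 2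
    have h4 : (x u v * Hp r) ^ 2 ≤ x u v * Hp r ^ 2 := by
      have := mul_le_mul_of_nonneg_right (mul_le_mul_of_nonneg_left (x1 u v) (x0 u v))
        (sq_nonneg (Hp r))
      nlinarith
    have h3 := add_le_add h1 (mul_le_mul_of_nonneg_left (h2.trans h4) κ0)
    refine (mul_le_mul_of_nonneg_left h3 q0).trans (le_of_eq ?_)
    ring

/-- the exponential kernel -/
theorem KBd.krnE (h : KBd x P hb σ H E Hp Ep) {r : ℝ} (hr : r ∈ Icc 0 σ) {q : ℝ} (q0 : 0 ≤ q) :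
    Krn x P (fun u v => q * (Real.exp (kb hb σ u v r) - 1)) (fun y => q * E r y)
      (q * Ep r) where
  b0 := fun u v => mul_nonneg q0 (sub_nonneg.2 (Real.one_le_exp (h.k0 r hr u v)))
  l := fun u v hu hv => (mul_le_mul_of_nonneg_left (h.el r hr u v hu hv) q0).trans
    (le_of_eq (by ring))
  p := fun u v hu => (mul_le_mul_of_nonneg_left (h.ep r hr u v hu) q0).trans
    (le_of_eq (by ring))

/-- larger bounds -/
theorem KBd.mono (h : KBd x P hb σ H E Hp Ep) (x0 : ∀ u v, 0 ≤ x u v) {ym : ℝ}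
    (xm : ∀ u v, P u → P v → x u v ≤ ym)
    {H' E' : ℝ → ℝ → ℝ} {Hp' Ep' : ℝ → ℝ}
    (hH : ∀ r ∈ Icc 0 σ, ∀ y ∈ Icc (0 : ℝ) ym, H r y ≤ H' r y)
    (hE : ∀ r ∈ Icc 0 σ, ∀ y ∈ Icc (0 : ℝ) ym, E r y ≤ E' r y)
    (hHp : ∀ r ∈ Icc 0 σ, Hp r ≤ Hp' r) (hEp : ∀ r ∈ Icc 0 σ, Ep r ≤ Ep' r) :
    KBd x P hb σ H' E' Hp' Ep' where
  k0 := h.k0
  hl := fun r hr u v hu hv => (h.hl r hr u v hu hv).trans
    (mul_le_mul_of_nonneg_left (hH r hr _ ⟨x0 u v, xm u v hu hv⟩) (x0 u v))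
  el := fun r hr u v hu hv => (h.el r hr u v hu hv).trans
    (mul_le_mul_of_nonneg_left (hE r hr _ ⟨x0 u v, xm u v hu hv⟩) (x0 u v))
  hp := fun r hr u v hu => (h.hp r hr u v hu).trans
    (mul_le_mul_of_nonneg_left (hHp r hr) (x0 u v))
  ep := fun r hr u v hu => (h.ep r hr u v hu).trans
    (mul_le_mul_of_nonneg_left (hEp r hr) (x0 u v))

/-- **bounds of the killing from supersolutions** -/
theorem kbd_of (x0 : ∀ u v, 0 ≤ x u v) (x1 : ∀ u v, x u v ≤ 1) {ym : ℝ}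
    (xm : ∀ u v, P u → P v → x u v ≤ ym) {R : ℝ → ℝ → ℝ} {Rp : ℝ → ℝ}
    (kr : ∀ r ∈ Icc 0 σ, Krn x P (hb r) (R r) (Rp r))
    (hc : ∀ u v, ContinuousOn (fun r => hb r u v) (Icc 0 σ))
    {H' E' : ℝ → ℝ → ℝ} {Hp' Ep' : ℝ → ℝ}
    (dH : ∀ y ∈ Icc (0 : ℝ) ym, ∀ r ∈ Icc 0 σ, HasDerivAt (fun r => H r y) (-H' r y) r)
    (cH : ∀ y ∈ Icc (0 : ℝ) ym, ∀ r ∈ Icc 0 σ, R r y ≤ H' r y)
    (eH : ∀ y ∈ Icc (0 : ℝ) ym, 0 ≤ H σ y)
    (dE : ∀ y ∈ Icc (0 : ℝ) ym, ∀ r ∈ Icc 0 σ, HasDerivAt (fun r => E r y) (-E' r y) r)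
    (cE : ∀ y ∈ Icc (0 : ℝ) ym, ∀ r ∈ Icc 0 σ, R r y * (1 + y * E r y) ≤ E' r y)
    (E0 : ∀ y ∈ Icc (0 : ℝ) ym, ∀ r ∈ Icc 0 σ, 0 ≤ E r y)
    (dHp : ∀ r ∈ Icc 0 σ, HasDerivAt Hp (-Hp' r) r) (cHp : ∀ r ∈ Icc 0 σ, Rp r ≤ Hp' r)
    (eHp : 0 ≤ Hp σ) (dEp : ∀ r ∈ Icc 0 σ, HasDerivAt Ep (-Ep' r) r)
    (cEp : ∀ r ∈ Icc 0 σ, Rp r * (1 + Ep r) ≤ Ep' r) (E0p : ∀ r ∈ Icc 0 σ, 0 ≤ Ep r)
    (Rp0 : ∀ r ∈ Icc 0 σ, 0 ≤ Rp r) : KBd x P hb σ H E Hp Ep where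
  k0 := fun r hr u v => kb_nonneg (fun u v r hr => (kr r hr).b0 u v) u v hr
  hl := fun r hr u v hu hv => bk_le_super (hc u v) (fun r => R r (x u v))
    (fun r hr => (kr r hr).l u v hu hv) (dH _ ⟨x0 u v, xm u v hu hv⟩)
    (cH _ ⟨x0 u v, xm u v hu hv⟩) (x0 u v) (eH _ ⟨x0 u v, xm u v hu hv⟩) r hr
  el := fun r hr u v hu hv => exp_bk_le_super (hc u v) (fun r => R r (x u v))
    (fun r hr => (kr r hr).l u v hu hv) (dE _ ⟨x0 u v, xm u v hu hv⟩)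
    (cE _ ⟨x0 u v, xm u v hu hv⟩) (x0 u v) (E0 _ ⟨x0 u v, xm u v hu hv⟩) r hr
  hp := fun r hr u v hu => bk_le_super (hc u v) Rp (fun r hr => (kr r hr).p u v hu)
    dHp cHp (x0 u v) eHp r hr
  ep := fun r hr u v hu => exp_bk_le_super (hc u v) Rp (fun r hr => (kr r hr).p u v hu)
    dEp (fun r hr => by
      refine le_trans (mul_le_mul_of_nonneg_left ?_ (Rp0 r hr)) (cEp r hr)
      have := mul_le_mul_of_nonneg_right (x1 u v) (E0p r hr)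
      linarith) (x0 u v) E0p r hr

end

/-! ### tables of the kernels -/

/-- a polynomial with the coefficients `f` -/
def px (N : ℕ) (f : ℕ → ℝ) (y : ℝ) : ℝ := ∑ i ∈ Finset.range N, y ^ i * f i

theorem px_mono {N : ℕ} {f g : ℕ → ℝ} {y : ℝ} (y0 : 0 ≤ y) (h : ∀ i < N, f i ≤ g i) :
    px N f y ≤ px N g y := Finset.sum_le_sum fun i hi =>
  mul_le_mul_of_nonneg_left (h i (Finset.mem_range.1 hi)) (pow_nonneg y0 i)

theorem px_deriv {N : ℕ} {f f' : ℝ → ℕ → ℝ} {r y : ℝ}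
    (h : ∀ i < N, HasDerivAt (fun r => f r i) (f' r i) r) :
    HasDerivAt (fun r => px N (f r) y) (px N (f' r) y) r := by
  unfold px
  exact HasDerivAt.fun_sum fun i hi => (h i (Finset.mem_range.1 hi)).const_mul _

theorem px_neg (N : ℕ) (f : ℕ → ℝ) (y : ℝ) : px N (fun i => -f i) y = -px N f y := by
  unfold px
  rw [← Finset.sum_neg_distrib]
  exact Finset.sum_congr rfl fun i _ => by ring

/-- the tables of the killing -/
structure KTq where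
  N : ℕ
  H : ℕ → Tq
  E : ℕ → Tq
  Hp : Tq
  Ep : Tq

/-- the checks of the tables of the killing -/
structure KTq.Ok (t : ℕ → ℝ) (n : ℕ) (ym : ℝ) (R : ℝ → ℝ → ℝ) (Rp : ℝ → ℝ) (k : KTq) : Prop where
  H : ∀ i < k.N, (k.H i).Ok t n
  E : ∀ i < k.N, (k.E i).Ok t n
  Hp : k.Hp.Ok t n
  Ep : k.Ep.Ok t n
  R0 : ∀ ρ ∈ Icc (t 0) (t n), ∀ y ∈ Icc (0 : ℝ) ym, 0 ≤ R ρ y
  Rp0 : ∀ ρ ∈ Icc (t 0) (t n), 0 ≤ Rp ρ
  h : ∀ ρ ∈ Icc (t 0) (t n), ∀ y ∈ Icc (0 : ℝ) ym, R ρ y ≤ px k.N (fun i => (k.H i).sl t n ρ) y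
  e : ∀ ρ ∈ Icc (t 0) (t n), ∀ y ∈ Icc (0 : ℝ) ym,
    R ρ y * (1 + y * px k.N (fun i => (k.E i).up t n ρ) y) ≤ px k.N (fun i => (k.E i).sl t n ρ) y
  hp : ∀ ρ ∈ Icc (t 0) (t n), Rp ρ ≤ k.Hp.sl t n ρ
  ep : ∀ ρ ∈ Icc (t 0) (t n), Rp ρ * (1 + k.Ep.up t n ρ) ≤ k.Ep.sl t n ρ
  he : ∀ y ∈ Icc (0 : ℝ) ym, 0 ≤ px k.N (fun i => (k.H i).w n) y
  ee : ∀ y ∈ Icc (0 : ℝ) ym, 0 ≤ px k.N (fun i => (k.E i).w n) y
  /-- the used functions are nonnegative -/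
  e0 : ∀ ρ ∈ Icc (t 0) (t n), ∀ y ∈ Icc (0 : ℝ) ym, 0 ≤ px k.N (fun i => (k.E i).up t n ρ) y
  hpe : 0 ≤ k.Hp.w n
  epe : 0 ≤ k.Ep.w n
  ep0 : ∀ ρ ∈ Icc (t 0) (t n), 0 ≤ k.Ep.up t n ρ

section

variable {V : Type*} [Fintype V] [DecidableEq V]
variable {x : V → V → ℝ} {P : V → Prop} {hb : ℝ → V → V → ℝ} {σ : ℝ}

/-- **the bounds of the killing from tables** -/
theorem KTq.Ok.kbd {t : ℕ → ℝ} {n : ℕ} {R : ℝ → ℝ → ℝ} {Rp : ℝ → ℝ} {k : KTq}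
    {ym : ℝ} (h : k.Ok t n ym R Rp) (hm : Msh t n) (hn : 0 < n) {δ : ℝ} (h0 : t 0 ≤ δ) (h1 : σ + δ ≤ t n)
    (σ0 : 0 ≤ σ) (x0 : ∀ u v, 0 ≤ x u v) (x1 : ∀ u v, x u v ≤ 1)
    (xm : ∀ u v, P u → P v → x u v ≤ ym)
    (kr : ∀ r ∈ Icc 0 σ, Krn x P (hb r) (R (r + δ)) (Rp (r + δ)))
    (hc : ∀ u v, ContinuousOn (fun r => hb r u v) (Icc 0 σ)) :
    KBd x P hb σ (fun r => px k.N fun i => (k.H i).up t n (r + δ))
      (fun r => px k.N fun i => (k.E i).up t n (r + δ)) (fun r => k.Hp.up t n (r + δ))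
      (fun r => k.Ep.up t n (r + δ)) := by
  have mem : ∀ r ∈ Icc 0 σ, r + δ ∈ Icc (t 0) (t n) := fun r hr =>
    ⟨by linarith [hr.1], by linarith [hr.2]⟩
  have sh : ∀ {f : ℝ → ℝ} {f' : ℝ} {r : ℝ}, HasDerivAt f f' (r + δ) →
      HasDerivAt (fun r => f (r + δ)) f' r := fun {f f' r} hf => by
    have := hf.comp r ((hasDerivAt_id r).add_const δ)
    rwa [mul_one] at this
  have lH : ∀ ρ ∈ Icc (t 0) (t n), ∀ y ∈ Icc (0 : ℝ) ym,
      px k.N (fun i => (k.H i).f t n ρ) y ≤ px k.N (fun i => (k.H i).up t n ρ) y :=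
    fun ρ hρ y hy => px_mono hy.1 fun i hi => (h.H i hi).le hm hn hρ
  have lE : ∀ ρ ∈ Icc (t 0) (t n), ∀ y ∈ Icc (0 : ℝ) ym,
      px k.N (fun i => (k.E i).f t n ρ) y ≤ px k.N (fun i => (k.E i).up t n ρ) y :=
    fun ρ hρ y hy => px_mono hy.1 fun i hi => (h.E i hi).le hm hn hρ
  have dP : ∀ (a : ℕ → Tq) (y r : ℝ), HasDerivAt (fun r => px k.N (fun i => (a i).f t n r) y)
      (-px k.N (fun i => (a i).sl t n r) y) r := fun a y r => by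
    rw [← px_neg]
    exact px_deriv (f' := fun r i => -(a i).sl t n r) fun i _ => Tq.deriv t n _ r
  have en : ∀ (a : ℕ → Tq), (fun i => (a i).f t n (t n)) = fun i => (a i).w n := fun a =>
    funext fun i => Tq.end' t n _
  -- nonnegativity
  have sE : ∀ y ∈ Icc (0 : ℝ) ym, ∀ ρ ∈ Icc (t 0) (t n),
      0 ≤ px k.N (fun i => (k.E i).sl t n ρ) y := fun y hy ρ hρ =>
    (mul_nonneg (h.R0 ρ hρ y hy) (add_nonneg zero_le_one (mul_nonneg hy.1 (h.e0 ρ hρ y hy)))).trans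
      (h.e ρ hρ y hy)
  have H0 : ∀ y ∈ Icc (0 : ℝ) ym, ∀ ρ ∈ Icc (t 0) (t n),
      0 ≤ px k.N (fun i => (k.H i).f t n ρ) y := fun y hy =>
    nonneg_of_slope (f' := fun ρ => px k.N (fun i => (k.H i).sl t n ρ) y) (fun r => dP k.H y r)
      (fun ρ hρ => (h.R0 ρ hρ y hy).trans (h.h ρ hρ y hy)) (by
        show 0 ≤ px k.N (fun i => (k.H i).f t n (t n)) y
        rw [en]
        exact h.he y hy)
  have E0 : ∀ y ∈ Icc (0 : ℝ) ym, ∀ ρ ∈ Icc (t 0) (t n),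
      0 ≤ px k.N (fun i => (k.E i).f t n ρ) y := fun y hy =>
    nonneg_of_slope (f' := fun ρ => px k.N (fun i => (k.E i).sl t n ρ) y) (fun r => dP k.E y r)
      (fun ρ hρ => sE y hy ρ hρ) (by
        show 0 ≤ px k.N (fun i => (k.E i).f t n (t n)) y
        rw [en]
        exact h.ee y hy)
  have Hp0 : ∀ ρ ∈ Icc (t 0) (t n), 0 ≤ k.Hp.f t n ρ :=
    nonneg_of_slope (f' := fun ρ => k.Hp.sl t n ρ) (fun r => Tq.deriv t n _ r)
      (fun ρ hρ => (h.Rp0 ρ hρ).trans (h.hp ρ hρ)) (by rw [Tq.end']; exact h.hpe)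
  have Ep0 : ∀ ρ ∈ Icc (t 0) (t n), 0 ≤ k.Ep.f t n ρ :=
    nonneg_of_slope (f' := fun ρ => k.Ep.sl t n ρ) (fun r => Tq.deriv t n _ r)
      (fun ρ hρ => (mul_nonneg (h.Rp0 ρ hρ) (by linarith [h.ep0 ρ hρ])).trans (h.ep ρ hρ))
      (by rw [Tq.end']; exact h.epe)
  have σm : σ ∈ Icc 0 σ := ⟨σ0, le_rfl⟩
  have key : KBd x P hb σ (fun r => px k.N fun i => (k.H i).f t n (r + δ))
      (fun r => px k.N fun i => (k.E i).f t n (r + δ)) (fun r => k.Hp.f t n (r + δ))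
      (fun r => k.Ep.f t n (r + δ)) := by
    refine kbd_of x0 x1 xm kr hc
      (H' := fun r => px k.N fun i => (k.H i).sl t n (r + δ))
      (E' := fun r => px k.N fun i => (k.E i).sl t n (r + δ))
      (Hp' := fun r => k.Hp.sl t n (r + δ)) (Ep' := fun r => k.Ep.sl t n (r + δ))
      (fun y hy r hr => sh (dP k.H y (r + δ))) (fun y hy r hr => h.h _ (mem r hr) y hy)
      (fun y hy => H0 y hy _ (mem σ σm)) (fun y hy r hr => sh (dP k.E y (r + δ)))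
      (fun y hy r hr => ?_) (fun y hy r hr => E0 y hy _ (mem r hr))
      (fun r hr => sh (Tq.deriv t n _ _)) (fun r hr => h.hp _ (mem r hr)) (Hp0 _ (mem σ σm))
      (fun r hr => sh (Tq.deriv t n _ _)) (fun r hr => ?_) (fun r hr => Ep0 _ (mem r hr))
      (fun r hr => h.Rp0 _ (mem r hr))
    · refine le_trans (mul_le_mul_of_nonneg_left ?_ (h.R0 _ (mem r hr) y hy))
        (h.e _ (mem r hr) y hy)
      have := mul_le_mul_of_nonneg_left (lE _ (mem r hr) y hy) hy.1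
      exact add_le_add le_rfl this
    · refine le_trans (mul_le_mul_of_nonneg_left ?_ (h.Rp0 _ (mem r hr))) (h.ep _ (mem r hr))
      exact add_le_add le_rfl (h.Ep.le hm hn (mem r hr))
  exact key.mono x0 xm (fun r hr y hy => lH _ (mem r hr) y hy)
    (fun r hr y hy => lE _ (mem r hr) y hy) (fun r hr => h.Hp.le hm hn (mem r hr))
    fun r hr => h.Ep.le hm hn (mem r hr)

end

end Pool.Agent.RZ.RCO
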