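import Pool.Agent.RZ.RCO.Kh

/-! Level 1: the data of the linear bounds from bounds of the entries (MP_73ccd0_lc). -/

namespace Pool.Agent.RZ.RCO

open Set Finset Pool.Agent.RZ.RCRSHalf Pool.Agent.RZ.RCM

set_option linter.unusedSectionVars false

variable {V : Type*} [Fintype V] [DecidableEq V]

/-- `e^z - 1 ≤ q z` on `[0, S]` from the end point -/
theorem exp_lin {z S q : ℝ} (z0 : 0 ≤ z) (zS : z ≤ S) (S0 : 0 < S)
    (hq : Real.exp S - 1 ≤ q * S) : Real.exp z - 1 ≤ q * z := by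
  have h := exp_chord (k := z / S) (u := S) (div_nonneg z0 S0.le) ((div_le_one S0).2 zS)
  rw [div_mul_cancel₀ z S0.ne'] at h
  have h2 := mul_le_mul_of_nonneg_left hq (div_nonneg z0 S0.le)
  have h3 : z / S * (q * S) = q * z := by field_simp
  linarith

theorem exp_lin0 {z S q : ℝ} (z0 : 0 ≤ z) (zS : z ≤ S) (S0 : 0 ≤ S) (q1 : 1 ≤ q)
    (hq : Real.exp S - 1 ≤ q * S) : Real.exp z - 1 ≤ q * z := by
  rcases eq_or_lt_of_le S0 with h | h
  · have : z = 0 := le_antisymm (by rw [h]; exact zS) z0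
    rw [this]
    simp
  · exact exp_lin z0 zS h hq

/-- the pair function `a + κ a²` with `2 (e^M - 1 - M) ≤ κ M²` dominates `e^{a+b} - 1` for
`a + b ≤ M` -/
theorem exp_pair {a b M κ : ℝ} (a0 : 0 ≤ a) (b0 : 0 ≤ b) (hM : a + b ≤ M) (M0 : 0 < M)
    (hκ : 2 * (Real.exp M - 1 - M) ≤ κ * M ^ 2) :
    Real.exp (a + b) - 1 ≤ (a + κ * a ^ 2) + (b + κ * b ^ 2) := by
  have h := exp_quad (k := (a + b) / M) (u := M) (div_nonneg (add_nonneg a0 b0) M0.le)
    ((div_le_one M0).2 hM) M0.le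
  rw [div_mul_cancel₀ (a + b) M0.ne'] at h
  have κ0 : 0 ≤ κ := by
    have h1 := Real.add_one_le_exp M
    have h2 : 0 ≤ κ * M ^ 2 := by linarith
    exact nonneg_of_mul_nonneg_left h2 (pow_pos M0 2)
  have h2 : ((a + b) / M) ^ 2 * (2 * (Real.exp M - 1 - M)) ≤ ((a + b) / M) ^ 2 * (κ * M ^ 2) :=
    mul_le_mul_of_nonneg_left hκ (sq_nonneg _)
  have h3 : ((a + b) / M) ^ 2 * (κ * M ^ 2) = κ * (a + b) ^ 2 := by field_simp
  nlinarith [mul_nonneg κ0 (sq_nonneg (a - b))]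

/-! ### entries from the sums -/

end Pool.Agent.RZ.RCO
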