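import Pool.Agent.RZ.RCO.Ex11
import Pool.Agent.RZ.RCO.Ex14
import Pool.Agent.RZ.RCO.Fe3
import Pool.Agent.RZ.RCO.Gl3
import Pool.Agent.RZ.RCO.Lbs

/-! Level 1: the scalars over time and the linear bounds of a world (MP_73ccd0_lc). -/

namespace Pool.Agent.RZ.RCO

open Set Finset MeasureTheory

set_option linter.unusedSectionVars false

/-! ### the functions `(e^z - 1) / z` and `(e^z - 1 - z) / z ^ 2` -/

/-- `(e^z - 1) / z` -/
noncomputable def ei1 (z : ℝ) : ℝ := ∫ t in (0 : ℝ)..1, Real.exp (t * z)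

theorem ei1_cont (z : ℝ) : Continuous fun t : ℝ => Real.exp (t * z) := by fun_prop

theorem ei1_eq (z : ℝ) : z * ei1 z = Real.exp z - 1 := by
  unfold ei1
  rw [← intervalIntegral.integral_const_mul]
  have h1 : ∀ t ∈ Set.uIcc (0 : ℝ) 1, HasDerivAt (fun t => Real.exp (t * z))
      (z * Real.exp (t * z)) t := fun t _ => by
    have := ((hasDerivAt_id t).mul_const z).exp
    refine this.congr_deriv ?_
    simp only [id_eq]
    ring
  rw [intervalIntegral.integral_eq_sub_of_hasDerivAt h1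
    (continuous_const.mul (ei1_cont z)).continuousOn.intervalIntegrable]
  simp

theorem exp_cvx2 {a b c : ℝ} (c0 : 0 ≤ c) (c1 : c ≤ 1) (t : ℝ) :
    Real.exp (t * ((1 - c) * a + c * b))
      ≤ (1 - c) * Real.exp (t * a) + c * Real.exp (t * b) := by
  have h := convexOn_exp.2 (mem_univ (t * a)) (mem_univ (t * b)) (by linarith : 0 ≤ 1 - c) c0
    (by ring)
  simp only [smul_eq_mul] at h
  refine le_trans (le_of_eq ?_) h
  congr 1
  ring

theorem ei1_cvx {a b c : ℝ} (c0 : 0 ≤ c) (c1 : c ≤ 1) :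
    ei1 ((1 - c) * a + c * b) ≤ (1 - c) * ei1 a + c * ei1 b := by
  have ca : Continuous fun t : ℝ => (1 - c) * Real.exp (t * a) := by fun_prop
  have cb : Continuous fun t : ℝ => c * Real.exp (t * b) := by fun_prop
  unfold ei1
  rw [← intervalIntegral.integral_const_mul, ← intervalIntegral.integral_const_mul,
    ← intervalIntegral.integral_add (ca.intervalIntegrable 0 1) (cb.intervalIntegrable 0 1)]
  exact intervalIntegral.integral_mono_on zero_le_one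
    ((ei1_cont _).intervalIntegrable 0 1) ((ca.add cb).intervalIntegrable 0 1)
    fun t _ => exp_cvx2 c0 c1 t

theorem ei1_le {a v : ℝ} (a0 : 0 ≤ a) (h : Real.exp a - 1 ≤ v * a) (v1 : 1 ≤ v) : ei1 a ≤ v := by
  rcases eq_or_lt_of_le a0 with e | e
  · rw [← e]
    unfold ei1
    simp
    exact v1
  · have h1 := ei1_eq a
    by_contra h2
    push Not at h2
    have := mul_lt_mul_of_pos_left h2 e
    linarith

/-- **the exponential at a point between two nodes** -/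
theorem exp_node {a b va vb c : ℝ} (c0 : 0 ≤ c) (c1 : c ≤ 1) (a0 : 0 ≤ a) (b0 : 0 ≤ b)
    (ha : Real.exp a - 1 ≤ va * a) (hb : Real.exp b - 1 ≤ vb * b) (va1 : 1 ≤ va)
    (vb1 : 1 ≤ vb) : Real.exp ((1 - c) * a + c * b) - 1
      ≤ ((1 - c) * va + c * vb) * ((1 - c) * a + c * b) := by
  have z0 : 0 ≤ (1 - c) * a + c * b :=
    add_nonneg (mul_nonneg (by linarith) a0) (mul_nonneg c0 b0)
  rw [← ei1_eq, mul_comm]
  refine mul_le_mul_of_nonneg_right (ei1_cvx c0 c1 |>.trans (add_le_add ?_ ?_)) z0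
  · exact mul_le_mul_of_nonneg_left (ei1_le a0 ha va1) (by linarith)
  · exact mul_le_mul_of_nonneg_left (ei1_le b0 hb vb1) c0

section

end

/-! ### bounds of the functions of the vertices -/

section

variable {V : Type*} [Fintype V] [DecidableEq V]
variable {x : V → V → ℝ} {D F : Finset V} {v : V} {P : V → Prop}

/-- a bound of a function of the vertex and the set -/
theorem vf_le {Φ : Pt → ℝ} {C s : ℝ} (hx : RCM.Wt x) (h : P v → Φ (pt x D F v) ≤ s)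
    (hC : C ≤ s) (s0 : 0 ≤ s) : vf x P D Φ C v F ≤ s := by
  by_cases hP : P v
  · rw [vf_l hP]
    exact h hP
  · rw [vf_p hP]
    have m0 := fm_nonneg hx.nn F v
    have m1 : fm x F v ≤ 1 :=
      (Finset.sum_le_sum_of_subset_of_nonneg (Finset.subset_univ F) fun z _ _ => hx.nn v z).trans
        (hx.row v)
    have h1 := mul_le_mul_of_nonneg_right hC m0
    have h2 := mul_le_mul_of_nonneg_left m1 s0
    linarith

end

/-! ### the pair function and the single terms -/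

section

open Pool.Agent.RZ.RCRSHalf Pool.Agent.RZ.RCG Pool.Agent.RZ.RCG.Ct Pool.Agent.RZ.RCN Pool.Agent.RZ.RCN.K

variable {V : Type*} [Fintype V] [DecidableEq V]

/-- the kernel of the pair function: quadratic or linear -/
noncomputable def dkB (lq : Bool) (hb : ℝ → V → V → ℝ) (σ : ℝ) (κ : ℝ → ℝ) (r : ℝ)
    (u v : V) : ℝ :=
  bif lq then kb hb σ u v r + κ r * kb hb σ u v r ^ 2 else κ r * kb hb σ u v r

/-- the kernel of the single terms -/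
noncomputable def ekB (hb : ℝ → V → V → ℝ) (σ : ℝ) (r : ℝ) (u v : V) : ℝ :=
  Real.exp (kb hb σ u v r) - 1

/-- the pair function -/
noncomputable def DB (lq : Bool) (hb : ℝ → V → V → ℝ) (σ : ℝ) (Fe : Finset V → V → V → ℝ)
    (κD κ : ℝ → ℝ) (F : Finset V) (c e : V) (r : ℝ) : ℝ :=
  dkB lq hb σ κ r c e + κD r * Fe F c e

/-- the single terms -/
noncomputable def EBf (hb : ℝ → V → V → ℝ) (σ : ℝ) (Fe : Finset V → V → V → ℝ)
    (κE : ℝ → ℝ) (F : Finset V) (c e : V) (r : ℝ) : ℝ := ekB hb σ r c e + κE r * Fe F c e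

/-- **the exponentials of one and of two upper functions with their tails** -/
structure KEx (lq : Bool) (hb : ℝ → V → V → ℝ) (σ : ℝ) (U : Finset V)
    (Fe : Finset V → V → V → ℝ) (c1 c4 κD κE S1 S2 κ : ℝ → ℝ) : Prop where
  k0 : ∀ r ∈ Icc 0 σ, ∀ u v, 0 ≤ kb hb σ u v r
  κ0 : ∀ r ∈ Icc 0 σ, 0 ≤ κ r
  e1 : ∀ F c b, VP U F c b → ∀ r ∈ Icc 0 σ, ∀ u ∈ Icc 0 (S1 r),
    Real.exp (HFF hb σ Fe F c b r + u) - 1 ≤ EBf hb σ Fe κE F c b r + c1 r * u
  e2 : ∀ F ⊆ U, ∀ c ∈ U, c ∉ F → ∀ x ∈ F, ∀ y ∈ F, x ≠ y → ∀ r ∈ Icc 0 σ,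
    ∀ u ∈ Icc 0 (S2 r), Real.exp (pq (fun G z => HFF hb σ Fe G c z r) F x y + u) - 1
      ≤ pq (fun G z => DB lq hb σ Fe κD κ G c z r) F x y + c4 r * u

theorem dkB_nonneg {lq : Bool} {hb : ℝ → V → V → ℝ} {σ : ℝ} {κ : ℝ → ℝ} {r : ℝ} (κ0 : 0 ≤ κ r)
    {u v : V} (k0 : 0 ≤ kb hb σ u v r) : 0 ≤ dkB lq hb σ κ r u v := by
  cases lq
  · exact mul_nonneg κ0 k0
  · exact add_nonneg k0 (mul_nonneg κ0 (sq_nonneg _))

/-- the exponential of a sum, the first part at most `M` -/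
theorem exp_split {k z M : ℝ} (kM : k ≤ M) (z0 : 0 ≤ z) :
    Real.exp (k + z) - 1 ≤ (Real.exp k - 1) + Real.exp M * (Real.exp z - 1) := by
  have h1 := Real.exp_le_exp.2 kM
  have h2 : 0 ≤ Real.exp z - 1 := sub_nonneg.2 (Real.one_le_exp z0)
  have h3 := mul_le_mul_of_nonneg_right h1 h2
  rw [Real.exp_add]
  linarith

/-- **the two exponentials from the scalars at one time** -/
theorem KEx.of {lq : Bool} {hb : ℝ → V → V → ℝ} {σ Ph : ℝ} {U : Finset V}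
    {Fe : Finset V → V → V → ℝ} {c1 c4 κD κE S1 S2 κ m Mt : ℝ → ℝ}
    (k0 : ∀ r ∈ Icc 0 σ, ∀ u v, 0 ≤ kb hb σ u v r) (κ0 : ∀ r ∈ Icc 0 σ, 0 ≤ κ r)
    (kM : ∀ c e, ∀ r ∈ Icc 0 σ, kb hb σ c e r ≤ m r) (F0 : ∀ F c e, 0 ≤ Fe F c e)
    (f1 : ∀ F c e, VP U F c e → Fe F c e ≤ Ph)
    (f2 : ∀ F ⊆ U, ∀ c ∈ U, c ∉ F → ∀ x ∈ F, ∀ y ∈ F, x ≠ y →
      pq (fun G z => Fe G c z) F x y ≤ Ph)
    (hM : ∀ r ∈ Icc 0 σ, 2 * m r ≤ Mt r)
    (hq : lq = true → ∀ r ∈ Icc 0 σ, 0 < Mt r ∧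
      2 * (Real.exp (Mt r) - 1 - Mt r) ≤ κ r * Mt r ^ 2)
    (hl : lq = false → ∀ r ∈ Icc 0 σ, 1 ≤ κ r ∧ Real.exp (Mt r) - 1 ≤ κ r * Mt r)
    (e1 : ∀ r ∈ Icc 0 σ, ∀ f ∈ Icc 0 Ph, ∀ u ∈ Icc 0 (S1 r),
      Real.exp (m r) * (Real.exp (f + u) - 1) ≤ κE r * f + c1 r * u)
    (e2 : ∀ r ∈ Icc 0 σ, ∀ f ∈ Icc 0 Ph, ∀ u ∈ Icc 0 (S2 r),
      Real.exp (2 * m r) * (Real.exp (f + u) - 1) ≤ κD r * f + c4 r * u) :
    KEx lq hb σ U Fe c1 c4 κD κE S1 S2 κ where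
  k0 := k0
  κ0 := κ0
  e1 := fun F c b hv r hr u hu => by
    have h0 := F0 F c b
    have h1 := exp_split (kM c b r hr) (add_nonneg h0 hu.1)
    have h2 := e1 r hr _ ⟨h0, f1 F c b hv⟩ u hu
    rw [HFF_kb, add_assoc]
    unfold EBf ekB
    linarith
  e2 := fun F hF c hc hcF x hx y hy hxy r hr u hu => by
    have h0 : 0 ≤ pq (fun G z => Fe G c z) F x y :=
      add_nonneg (F0 _ _ _) (F0 _ _ _)
    have kx := kM c x r hr
    have ky := kM c y r hr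
    have nx := k0 r hr c x
    have ny := k0 r hr c y
    have h1 := exp_split (k := kb hb σ c x r + kb hb σ c y r) (M := 2 * m r) (by linarith)
      (add_nonneg h0 hu.1)
    have h2 := e2 r hr _ ⟨h0, f2 F hF c hc hcF x hx y hy hxy⟩ u hu
    have eH : pq (fun G z => HFF hb σ Fe G c z r) F x y
        = kb hb σ c x r + kb hb σ c y r + pq (fun G z => Fe G c z) F x y := by
      unfold pq
      simp only [HFF_kb]
      ring
    have eD : pq (fun G z => DB lq hb σ Fe κD κ G c z r) F x y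
        = dkB lq hb σ κ r c x + dkB lq hb σ κ r c y
          + κD r * pq (fun G z => Fe G c z) F x y := by
      unfold pq DB
      ring
    have hk : Real.exp (kb hb σ c x r + kb hb σ c y r) - 1
        ≤ dkB lq hb σ κ r c x + dkB lq hb σ κ r c y := by
      have m2 := hM r hr
      cases lq
      · obtain ⟨a1, a2⟩ := hl rfl r hr
        have := exp_lin0 (add_nonneg nx ny) (by linarith :
          kb hb σ c x r + kb hb σ c y r ≤ Mt r) (by linarith) a1 a2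
        unfold dkB
        show _ ≤ κ r * kb hb σ c x r + κ r * kb hb σ c y r
        linarith
      · obtain ⟨a1, a2⟩ := hq rfl r hr
        exact exp_pair nx ny (by linarith) a1 a2
    rw [eH, eD, add_assoc]
    linarith

end

/-! ### the linear bounds of a world -/

section

open Pool.Agent.RZ.RCRSHalf Pool.Agent.RZ.RCG Pool.Agent.RZ.RCG.Ct Pool.Agent.RZ.RCN Pool.Agent.RZ.RCN.K

variable {V : Type*} [Fintype V] [DecidableEq V]
variable {Z : Hzd} {x : V → V → ℝ} {P : V → Prop} [DecidablePred P] {sl : ℝ → ℝ → ℝ}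
variable {D : Finset V} {ζ : V → V → ℝ → ℝ} {Y : V → ℝ → ℝ}

/-- the removal rates are symmetric -/
theorem Tc0_sm (hx : RCG.Ct.Wt x P 1) (r : ℝ) (u v : V) :
    Tc0 (Z.hh x P) D ζ Y r u v = Tc0 (Z.hh x P) D ζ Y r v u := by
  refine cut_symm (fun u v => ?_) u v
  unfold RCM.Tb
  rw [Z.hh_symm hx, add_comm]

variable {L Λ Λ' : Type*} [Fintype Λ] [Fintype Λ'] {s : S1 V L Λ Λ'} {τ σ : ℝ}
  {A B : ℝ → V → V → ℝ} {gp gp' gm gm' : Finset V → V → V → ℝ → ℝ}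
  {Fe Ge : Finset V → V → V → ℝ} {c1 S1f c4 S2f κ κD κE : ℝ → ℝ} {lq : Bool}

/-- **the linear bounds of a world** -/
theorem lb_x (hx : RCG.Ct.Wt x P 1) (στ : σ ≤ τ)
    (hg : G12X Dᶜ τ (Tc0 (Z.hh x P) D ζ Y) A B gp gp' gm gm')
    (hD : s.D = DB lq (Z.hh x P) σ Fe κD κ) (hE : s.E = EBf (Z.hh x P) σ Fe κE) (h1 : s.c1 = c1)
    (h4 : s.c4 = c4) (l0 : L) (m0 : Λ) (hf : ∀ e c r, s.f l0 e c r = 1)
    (hw : ∀ c e r, s.w m0 c e r = 1)
    (hP1 : ∀ e ∈ Dᶜ, ∀ F ⊆ Dᶜ, e ∉ F → ∀ r ∈ Icc 0 σ, s.P l0 e F r ≤ S1f r)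
    (hP2 : ∀ c ∈ Dᶜ, ∀ F ⊆ Dᶜ, c ∉ F → ∀ r ∈ Icc 0 σ, s.Pc m0 c F r ≤ S2f r)
    (c10 : ∀ r ∈ Icc 0 σ, 0 ≤ c1 r) (c40 : ∀ r ∈ Icc 0 σ, 0 ≤ c4 r)
    (κD0 : ∀ r ∈ Icc 0 σ, 0 ≤ κD r) (κE0 : ∀ r ∈ Icc 0 σ, 0 ≤ κE r)
    (F0 : ∀ F c e, 0 ≤ Fe F c e) (mg : ∀ c, MF Dᶜ c fun F e => Fe F c e)
    (hX : KEx lq (Z.hh x P) σ Dᶜ Fe c1 c4 κD κE S1f S2f κ) :
    SgF Dᶜ σ (Tc0 (Z.hh x P) D ζ Y) gp gm (HFF (Z.hh x P) σ Fe) (NGF Ge) → ∀ r ∈ Icc 0 σ,
      ∀ u : IxF V → ℝ, s.All Dᶜ r u →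
      s.Lb Dᶜ (Tc0 (Z.hh x P) D ζ Y) gp gm (HFF (Z.hh x P) σ Fe) (NGF Ge) r u := by
  intro hs r hr u hu
  have se := hs.seF (fun r u v => Tc0_sm hx r u v) (fun r u => Tc0_diag hx r u) hr
    (fun F i j => hg.sp F i j r ⟨hr.1, hr.2.trans στ⟩)
    (fun F i j => hg.sm F i j r ⟨hr.1, hr.2.trans στ⟩) (u := u) hu.1
  have ent : ∀ F c b, VP Dᶜ F c b → u (true, F, c, b) ≤ S1f r := fun F c b hv =>
    AllPF.ent hu l0 (fun e _ c _ => by rw [hf]; exact zero_le_one) one_pos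
      (fun e _ c _ _ => by rw [hf]) (fun e he F hF heF => by
        rw [one_mul]
        exact hP1 e he F hF heF r hr) hv
  have pqe : ∀ F ⊆ Dᶜ, ∀ c ∈ Dᶜ, c ∉ F → ∀ x' ∈ F, ∀ y ∈ F, x' ≠ y →
      pq (fun G z => u (true, G, c, z)) F x' y ≤ S2f r :=
    fun F hF c hc hcF x' hx' y hy hxy => AllPF.pqb hu m0
      (fun c _ e _ => by rw [hw]; exact zero_le_one) one_pos (fun c _ e _ _ => by rw [hw])
      (fun c hc F hF hcF => by
        rw [one_mul]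
        exact hP2 c hc F hF hcF r hr) hF hc hcF hx' hy hxy
  unfold _root_.Pool.Agent.RZ.RCO.S1.Lb
  rw [hD, hE, h1, h4]
  exact {
    T0 := se.T0
    Ts := se.Ts
    Tz := se.Tz
    H0 := se.H0
    N0 := se.N0
    D0 := fun F c e => add_nonneg (dkB_nonneg (hX.κ0 r hr) (hX.k0 r hr c e))
      (mul_nonneg (κD0 r hr) (F0 F c e))
    E0 := fun F c e => add_nonneg (sub_nonneg.2 (Real.one_le_exp (hX.k0 r hr c e)))
      (mul_nonneg (κE0 r hr) (F0 F c e))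
    gp0 := se.gp0
    gm0 := se.gm0
    gps := se.gps
    gms := se.gms
    c40 := c40 r hr
    c10 := c10 r hr
    u0 := se.u0
    mgp := se.mgp
    mgm := se.mgm
    mN := se.mN
    mD := fun c F G e hG hv => add_le_add le_rfl
      (mul_le_mul_of_nonneg_left (mg c F G e hG hv) (κD0 r hr))
    mE := fun c F G e hG hv => add_le_add le_rfl
      (mul_le_mul_of_nonneg_left (mg c F G e hG hv) (κE0 r hr))
    mu := se.mu
    hE1 := fun F c b hv => hX.e1 F c b hv r hr _ ⟨se.u0 _, ent F c b hv⟩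
    hE2 := fun F hF c hc hcF x' hx' y hy hxy => by
      have h := hX.e2 F hF c hc hcF x' hx' y hy hxy r hr _
        ⟨pq_nn (fun G z => se.u0 _) F x' y, pqe F hF c hc hcF x' hx' y hy hxy⟩
      rw [pq_puF, pq_add, pq_smul]
      exact h }

end

end Pool.Agent.RZ.RCO
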