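import Pool.Agent.RZ.RCO.Gs10_1
import Pool.Agent.RZ.RCO.Gs6
import Pool.Agent.RZ.RCO.Gs8
import Pool.Agent.RZ.RCO.Gs9_2

/-! The conditions of the bundles of level 1 (MP_73ccd0_lc). -/

namespace Pool.Agent.RZ.RCO

open Set Finset Pool.Agent.RZ.RCM

set_option linter.unusedSectionVars false

variable {V : Type*} [Fintype V] [DecidableEq V]

/-! ### the kernels of the killing -/

section kre

variable {x : V → V → ℝ} {P : V → Prop} {D : Finset V} {σ : ℝ} {S : Finset ℝ}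
  {hb : ℝ → V → V → ℝ} {H E : ℝ → ℝ → ℝ} {Hp Ep : ℝ → ℝ} {Fe : Finset V → V → V → ℝ}
  {κ κD κE : ℝ → ℝ}

theorem kb_symm (hs : ∀ r u v, hb r u v = hb r v u) (σ : ℝ) (u v : V) (r : ℝ) :
    kb hb σ u v r = kb hb σ v u r := by
  unfold kb
  have : (fun ρ => hb ρ u v) = fun ρ => hb ρ v u := funext fun ρ => hs ρ u v
  rw [this]

/-- **the kernels** -/
theorem kre_b {lq : Bool} (x0 : ∀ u v, 0 ≤ x u v) (x1 : ∀ u v, x u v ≤ 1)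
    (hs : ∀ r u v, hb r u v = hb r v u) (hk : KBd x P hb σ H E Hp Ep)
    (κ0 : ∀ r ∈ Icc 0 σ, 0 ≤ κ r)
    (κD0 : ∀ r ∈ Icc 0 σ, 0 ≤ κD r) (κE0 : ∀ r ∈ Icc 0 σ, 0 ≤ κE r) :
    KrE x P D σ S Fe (DB lq hb σ Fe κD κ) (EBf hb σ Fe κE) (dkB lq hb σ κ) (ekB hb σ)
      (fun r y => bif lq then H r y + κ r * (y * H r y ^ 2) else κ r * H r y) E
      (fun r => bif lq then Hp r + κ r * Hp r ^ 2 else κ r * Hp r) Ep κD κE where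
  krD := fun r hr _ => by
    cases lq
    · exact hk.krnL hr (κ0 r hr)
    · have h := hk.krnQ x0 x1 hr (zero_le_one (α := ℝ)) (κ0 r hr)
      simp only [one_mul] at h
      exact h
  krE := fun r hr _ => by
    have h := hk.krnE hr (zero_le_one (α := ℝ))
    simp only [one_mul] at h
    exact h
  sD := fun r u v => by unfold dkB; rw [kb_symm hs]
  sE := fun r u v => by unfold ekB; rw [kb_symm hs]
  hD := fun r _ _ F c e _ => le_rfl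
  hE := fun r _ _ F c e _ => le_rfl
  κD0 := κD0
  κE0 := κE0

end kre

/-! ### the conditions of a bundle -/

theorem VLe.le {J : Type*} [Fintype J] [Nonempty J] {f : Fam J} {j : J} {r s : ℝ}
    (h : VLe f j r s) {x : V → V → ℝ} {P : V → Prop} {D : Finset V}
    (hP : RCG.Ct.Wt x P 1) (hx : Wt x) (hD : D.card ≤ 2) (o : Option V) {e : V} (he : e ∈ Dᶜ)
    (F : Finset V) : f.v x P D true (j, o) e F r ≤ s :=
  vf_le hx (fun hPe => h.v _ (wd_sat hP hx hD o he hPe F)) h.c h.s0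

section ok

open Pool.Agent.RZ.RCRSHalf Pool.Agent.RZ.RCG Pool.Agent.RZ.RCG.Ct Pool.Agent.RZ.RCN Pool.Agent.RZ.RCN.K

variable {Z : Hzd} {x : V → V → ℝ} {P : V → Prop} [DecidablePred P] {D : Finset V}
  {ζ : V → V → ℝ → ℝ} {Y : V → ℝ → ℝ} {τ σ : ℝ} {S : Finset ℝ} {A' B' : ℝ → V → V → ℝ}
  {gp gp' gm gm' : Finset V → V → V → ℝ → ℝ} {Fe Ge : Finset V → V → V → ℝ}
  {R : ℝ → ℝ → ℝ} {Rp : ℝ → ℝ} {W : ℝ → Pt → ℝ} {Wp : ℝ → ℝ → ℝ}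
  {A J M Λ : Type*} [Fintype J] [Nonempty J] [Fintype M] [Nonempty M] [Fintype Λ]
  {wv : Λ → Pt → ℝ} {bf : Bool → Λ → V → Finset V → ℝ → ℝ} {B : Bool → Λ → ℝ → Pt → ℝ}
  {CB : Bool → Λ → ℝ → ℝ} {fw : A → V → ℝ} {f : A → Fam J}
  {NB DB1 EB1 : A → V → Finset V → ℝ → ℝ} {Ψn Ψe Ψd : A → ℝ → Pt → ℝ} {Cn Ce Cd : A → ℝ → ℝ}
  {Gn Gd : A → J → Λ → ℝ → ℝ} {w1 : M → Pt → ℝ} {bf1 : Bool → M → V → Finset V → ℝ → ℝ}
  {g : Fam M} {Dk Ek : ℝ → V → V → ℝ} {κD κE : ℝ → ℝ} {νf δf : M → V → Finset V → ℝ}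
  {Kn Kp Ke Km : M → M → ℝ → ℝ} {c1 S1f c4 S2f κ : ℝ → ℝ} {lq : Bool}

/-- **a bundle of level 1 is correct** -/
theorem mkS1_ok (hx : RCG.Ct.Wt x P 1) (hD2 : D.card ≤ 2) (στ : σ ≤ τ)
    (hg : G12X Dᶜ τ (Tc0 (Z.hh x P) D ζ Y) A' B' gp gp' gm gm')
    (env : WEnv x P D σ S (Z.hh x P) (Tc0 (Z.hh x P) D ζ Y) R Rp W Wp)
    (rw : RwB x P D σ S gp gm wv bf B CB)
    (hgrp : ∀ a, GrpOk x P D σ S R Rp W Wp (NGF Ge) (DB lq (Z.hh x P) σ Fe κD κ)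
      (EBf (Z.hh x P) σ Fe κE) c1 c4 wv B CB (fw a) (f a) (NB a) (DB1 a) (EB1 a)
      (Ψn a) (Ψe a) (Ψd a) (Cn a) (Ce a) (Cd a) (Gn a) (Gd a))
    (pf : ScPF Dᶜ σ S (Tc0 (Z.hh x P) D ζ Y) gp gm (NGF Ge) (DB lq (Z.hh x P) σ Fe κD κ)
      (EBf (Z.hh x P) σ Fe κE) c1 c4 (fun (l : M × Option V) _ e _ => w1 l.1 (fp x D e))
      (fun _ _ _ _ => 0) (fun l _ e _ => w1 l.1 (fp x D e)) (fun l => bf1 true l.1)
      (fun l => bf1 false l.1) (opK Kn) (opK Kp) (opK Ke) (opK Km) (fun l c F _ => νf l.1 c F)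
      (fun l c F r => ∑ e ∈ F, Dk r c e * w1 l.1 (fp x D e) + κD r * δf l.1 c F)
      (fun l c F r => ∑ b ∈ F, Ek r c b
          * thf x D (Tc0 (Z.hh x P) D ζ Y) w1 l.1 b (F.erase b) r
        + κE r * ∑ m', Ke l.1 m' r * δf m' c F)
      (g.v x P D true) (g.v' x P D true) (g.v x P D false) (g.v' x P D false))
    (a0 : A) (ha : ∀ c, fw a0 c = 1) (j0 : J) (m0 : M) (hm0 : ∀ p, w1 m0 p = 1)
    (hP1 : ∀ r ∈ Icc 0 σ, VLe (f a0) j0 r (S1f r)) (hP2 : ∀ r ∈ Icc 0 σ, VLe g m0 r (S2f r))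
    (c10 : ∀ r ∈ Icc 0 σ, 0 ≤ c1 r) (c40 : ∀ r ∈ Icc 0 σ, 0 ≤ c4 r)
    (κD0 : ∀ r ∈ Icc 0 σ, 0 ≤ κD r) (κE0 : ∀ r ∈ Icc 0 σ, 0 ≤ κE r)
    (F0 : ∀ F c e, 0 ≤ Fe F c e) (mg : ∀ c, MF Dᶜ c fun F e => Fe F c e)
    (hX : KEx lq (Z.hh x P) σ Dᶜ Fe c1 c4 κD κE S1f S2f κ) :
    (mkS1 x P D (Tc0 (Z.hh x P) D ζ Y) (DB lq (Z.hh x P) σ Fe κD κ) (EBf (Z.hh x P) σ Fe κE) c1 c4
      wv bf fw f NB DB1 EB1 Gn Gd w1 bf1 g Dk Ek κD κE νf δf Kn Kp Ke Km).Ok Dᶜ σ S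
      (Tc0 (Z.hh x P) D ζ Y) gp gm (HFF (Z.hh x P) σ Fe) (NGF Ge) where
  t := sctf_grp env rw hgrp
  p := pf
  l := lb_x hx στ hg rfl rfl rfl rfl (a0, j0, none) (m0, none) (fun _ c _ => ha c)
    (fun _ _ _ => hm0 _)
    (fun _ he F _ _ r hr => (hP1 r hr).le env.hP env.hx hD2 none he F)
    (fun _ hc F _ _ r hr => (hP2 r hr).le env.hP env.hx hD2 none hc F)
    c10 c40 κD0 κE0 F0 mg hX
  l0 := ⟨(a0, j0, none), 1, one_pos, fun _ _ c _ _ _ _ => (ha c).ge⟩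

end ok

end Pool.Agent.RZ.RCO
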