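import Pool.Agent.RZ.RCO.Sx2

/-! The features of a vertex in a world: facts as inequalities between real numbers
(MP_73ccd0_lc). -/

namespace Pool.Agent.RZ.RCO

open Set Finset Pool.Agent.RZ.RCM

set_option linter.unusedSectionVars false

variable {V : Type*} [Fintype V] [DecidableEq V]

/-- **the facts at a vertex**: killed mass `k`, mass `m`, `h = ∑ x k`, `g = ∑ x k (1 - k)`,
`Q = ∑ x²`, `s = ∑ x² k`, `h2 = ∑ x H` (`H` the full average of `k` at the neighbour), `n` the
number of removed vertices, `B` the budget of `∑ k` -/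
structure FxV (n B k m h g Q s h2 : ℝ) : Prop where
  k0 : 0 ≤ k
  m0 : 0 ≤ m
  km : m + k ≤ 1
  h0 : 0 ≤ h
  g0 : 0 ≤ g
  Q0 : 0 ≤ Q
  s0 : 0 ≤ s
  h20 : 0 ≤ h2
  gh : g ≤ h
  sQ : s ≤ Q
  sg : s ≤ g
  hQ : h + Q ≤ m
  sl : Q + g + h - m ≤ s
  ga : ∀ a, g ≤ (1 - 2 * a) * h + a ^ 2 * m
  tq : ∀ q, 2 * q * h ≤ q ^ 2 * B + s
  cp : ∀ p, h ≤ (1 - p) ^ 2 * m + p ^ 2 * B
  q1 : ∀ c, 0 < c → h * (1 + 1 / (2 * c)) ≤ c * Q / 2 + B / (2 * c)
  QQ : Q ≤ m ^ 2
  hh2 : h + h2 + (1 - k) * Q ≤ m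
  c2 : ∀ p, h2 ≤ (1 - p) ^ 2 * (m - h) + p ^ 2 * (n * m - h)
  q2 : ∀ c t, 0 < c →
    h2 ≤ k * Q + c / 2 * ((1 - 2 * t) * Q + t ^ 2 * m - s) + (n - k) / (8 * c)

section feat

variable {x : V → V → ℝ} {D F : Finset V} {i : V}

/-- every weight in the world is at most the mass -/
theorem x_le_fm (x0 : ∀ a b, 0 ≤ x a b) {j : V} (hj : j ∈ F) : x i j ≤ fm x F i :=
  Finset.single_le_sum (f := fun j => x i j) (fun j _ => x0 i j) hj

theorem fQ_le_sq (x0 : ∀ a b, 0 ≤ x a b) : fQ x F i ≤ fm x F i ^ 2 := by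
  have h1 : fQ x F i ≤ fm x F i * fm x F i := fQ_le x0 fun j hj => x_le_fm x0 hj
  rwa [← pow_two] at h1

/-- `∑ k` of the world at a vertex outside -/
theorem sum_kk_F (hx : Wt x) {n : ℝ} (hn : (D.card : ℝ) ≤ n) (hF : F ⊆ Dᶜ) (hi : i ∈ Dᶜ)
    (hiF : i ∉ F) : ∑ f ∈ F, kk x D f ≤ n - kk x D i := by
  linarith [sum_kk_world hx hF hi hiF]

/-- **the facts hold**, with any bound `B` of the sum of `k` over the world -/
theorem fxV_B (hx : Wt x) {n B : ℝ} (hn : (D.card : ℝ) ≤ n) (hF : F ⊆ Dᶜ) (hi : i ∈ Dᶜ)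
    (hB : ∑ f ∈ F, kk x D f ≤ B) :
    FxV n B (kk x D i) (fm x F i) (fh x (kk x D) F i) (ft x (kk x D) F i) (fQ x F i)
      (fP x (kk x D) F i) (fh x (hk x D) F i) := by
  have x0 := hx.nn
  have k0 := kk_nonneg hx D
  have k1 := kk_le_one hx D
  have xk : ∀ f, x i f + kk x D f ≤ 1 := fun f => x_add_kk hx hi
  have hk1 : ∀ f, hk x D f ≤ 1 - kk x D f := hk_le hx D
  refine ⟨k0 i, fm_nonneg x0 F i, by linarith [fm_le hx hF i], fh_nonneg x0 k0 F i,
    ft_nonneg x0 k0 k1 F i, fQ_nonneg F i, fP_nonneg k0 F i,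
    fh_nonneg x0 (hk_nonneg hx D) F i, ft_le_fh x0 F i, fP_le_fQ k1 F i, ?_, ?_, ?_, ?_, ?_, ?_,
    ?_, fQ_le_sq x0, ?_, ?_, ?_⟩
  · -- s ≤ g
    refine Finset.sum_le_sum fun f _ => ?_
    have h1 := mul_nonneg (mul_nonneg (x0 i f) (k0 f)) (by linarith [xk f] :
      0 ≤ 1 - x i f - kk x D f)
    nlinarith
  · -- h + Q ≤ m
    linarith [fh_le_sub hx hi F]
  · -- McCormick
    have h1 : 0 ≤ ∑ f ∈ F, x i f * ((1 - kk x D f) * (1 - x i f - kk x D f)) :=
      Finset.sum_nonneg fun f _ => mul_nonneg (x0 i f)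
        (mul_nonneg (by linarith [k1 f]) (by linarith [xk f]))
    have h2 : ∑ f ∈ F, x i f * ((1 - kk x D f) * (1 - x i f - kk x D f))
        = fm x F i - fh x (kk x D) F i - ft x (kk x D) F i - fQ x F i + fP x (kk x D) F i := by
      unfold fm fh ft fQ fP
      rw [← Finset.sum_sub_distrib, ← Finset.sum_sub_distrib, ← Finset.sum_sub_distrib,
        ← Finset.sum_add_distrib]
      exact Finset.sum_congr rfl fun f _ => by ring
    linarith
  · -- g by a tangent
    intro a
    have h1 : 0 ≤ ∑ f ∈ F, x i f * (kk x D f - a) ^ 2 :=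
      Finset.sum_nonneg fun f _ => mul_nonneg (x0 i f) (sq_nonneg _)
    have h2 : ∑ f ∈ F, x i f * (kk x D f - a) ^ 2
        = fh x (kk x D) F i - ft x (kk x D) F i - 2 * a * fh x (kk x D) F i
          + a ^ 2 * fm x F i := by
      unfold fm fh ft
      rw [Finset.mul_sum, Finset.mul_sum, ← Finset.sum_sub_distrib, ← Finset.sum_sub_distrib,
        ← Finset.sum_add_distrib]
      exact Finset.sum_congr rfl fun f _ => by ring
    linarith
  · -- the budget with the squares
    intro q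
    have h1 : 0 ≤ ∑ f ∈ F, kk x D f * (x i f - q) ^ 2 :=
      Finset.sum_nonneg fun f _ => mul_nonneg (k0 f) (sq_nonneg _)
    have h2 : ∑ f ∈ F, kk x D f * (x i f - q) ^ 2
        = fP x (kk x D) F i - 2 * q * fh x (kk x D) F i + q ^ 2 * ∑ f ∈ F, kk x D f := by
      unfold fh fP
      rw [Finset.mul_sum, Finset.mul_sum, ← Finset.sum_sub_distrib, ← Finset.sum_add_distrib]
      exact Finset.sum_congr rfl fun f _ => by ring
    have h3 := mul_le_mul_of_nonneg_left hB (sq_nonneg q)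
    linarith
  · -- C(p)
    intro p
    have h1 : fh x (kk x D) F i ≤ ∑ f ∈ F, ((1 - p) ^ 2 * x i f + p ^ 2 * kk x D f) :=
      Finset.sum_le_sum fun f _ => xk_le (x0 i f) (k0 f) (xk f)
    rw [Finset.sum_add_distrib, ← Finset.mul_sum, ← Finset.mul_sum] at h1
    have h3 := mul_le_mul_of_nonneg_left hB (sq_nonneg p)
    unfold fm
    linarith
  · -- (Q1)
    intro c c0
    have h1 : fh x (kk x D) F i ≤ ∑ f ∈ F, (c / 2 * x i f ^ 2
        + 1 / (2 * c) * (kk x D f - x i f * kk x D f)) := by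
      refine Finset.sum_le_sum fun f _ => ?_
      have h2 : 0 ≤ (c * x i f - kk x D f) ^ 2 / (2 * c) := by positivity
      have h3 : (c * x i f - kk x D f) ^ 2 / (2 * c)
          = c / 2 * x i f ^ 2 + 1 / (2 * c) * kk x D f ^ 2 - x i f * kk x D f := by
        field_simp
        ring
      have h4 : kk x D f ^ 2 ≤ kk x D f - x i f * kk x D f := by
        nlinarith [k0 f, xk f]
      have h5 := mul_le_mul_of_nonneg_left h4 (by positivity : 0 ≤ 1 / (2 * c))
      linarith
    have e1 : ∑ f ∈ F, (c / 2 * x i f ^ 2 + 1 / (2 * c) * (kk x D f - x i f * kk x D f))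
        = c / 2 * fQ x F i + 1 / (2 * c) * (∑ f ∈ F, kk x D f - fh x (kk x D) F i) := by
      rw [Finset.sum_add_distrib, ← Finset.mul_sum, ← Finset.mul_sum, Finset.sum_sub_distrib]
      rfl
    rw [e1] at h1
    have h2 := mul_le_mul_of_nonneg_left hB (by positivity : 0 ≤ 1 / (2 * c))
    have e2 : 1 / (2 * c) * B = B / (2 * c) := by ring
    have e3 : 1 / (2 * c) * (∑ f ∈ F, kk x D f - fh x (kk x D) F i)
        = 1 / (2 * c) * ∑ f ∈ F, kk x D f - fh x (kk x D) F i * (1 / (2 * c)) := by ring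
    rw [e3] at h1
    rw [e2] at h2
    linarith
  · -- absorption
    have h1 : ∀ f ∈ F, x i f * kk x D f + x i f * hk x D f
        + (1 - kk x D i) * x i f ^ 2 ≤ x i f := by
      intro f hf
      have h2 : hk x D f ≤ x f i * kk x D i + (1 - kk x D f - x f i) := by
        unfold hk
        rw [← Finset.add_sum_erase _ _ hi]
        have h3 : ∑ l ∈ Dᶜ.erase i, x f l * kk x D l ≤ ∑ l ∈ Dᶜ.erase i, x f l :=
          Finset.sum_le_sum fun l _ => by
            have := mul_le_mul_of_nonneg_left (k1 l) (x0 f l)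
            linarith
        have h4 := row_kk hx D f
        rw [← Finset.add_sum_erase _ _ hi] at h4
        linarith
      rw [hx.symm f i] at h2
      have := mul_le_mul_of_nonneg_left h2 (x0 i f)
      nlinarith
    have h2 := Finset.sum_le_sum h1
    rw [Finset.sum_add_distrib, Finset.sum_add_distrib, ← Finset.mul_sum] at h2
    exact h2
  · -- two steps, the budget
    intro p
    have h1 : ∀ f ∈ F, x i f * hk x D f ≤ x i f * ((1 - p) ^ 2 * (1 - kk x D f)
        + p ^ 2 * (n - kk x D f)) := by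
      intro f hf
      refine mul_le_mul_of_nonneg_left ((hk_le_q hx D (hF hf) p).trans ?_) (x0 i f)
      have := mul_le_mul_of_nonneg_left (sub_le_sub_right hn (kk x D f)) (sq_nonneg p)
      linarith
    refine (Finset.sum_le_sum h1).trans (le_of_eq ?_)
    unfold fm fh
    simp only [mul_sub, Finset.mul_sum]
    rw [← Finset.sum_sub_distrib, ← Finset.sum_sub_distrib, ← Finset.sum_add_distrib]
    exact Finset.sum_congr rfl fun f _ => by ring
  · -- (Q2)
    intro c t c0
    have e1 : fh x (hk x D) F i = kk x D i * fQ x F i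
        + ∑ y ∈ F, ∑ f ∈ Dᶜ.erase i, x y f * (x i y * kk x D f) := by
      unfold fh hk fQ
      rw [Finset.mul_sum, ← Finset.sum_add_distrib]
      refine Finset.sum_congr rfl fun y _ => ?_
      rw [← Finset.add_sum_erase _ _ hi, mul_add, Finset.mul_sum, hx.symm y i]
      congr 1
      · ring
      · exact Finset.sum_congr rfl fun f _ => by ring
    have h1 : ∑ y ∈ F, ∑ f ∈ Dᶜ.erase i, x y f * (x i y * kk x D f)
        ≤ ∑ y ∈ F, ∑ f ∈ Dᶜ.erase i,
          (c / 2 * (x y f * x i y ^ 2) + 1 / (2 * c) * (x y f * kk x D f ^ 2)) := by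
      refine Finset.sum_le_sum fun y _ => Finset.sum_le_sum fun f _ => ?_
      have h2 : x i y * kk x D f ≤ c / 2 * x i y ^ 2 + 1 / (2 * c) * kk x D f ^ 2 := by
        have h3 : 0 ≤ (c * x i y - kk x D f) ^ 2 / (2 * c) := by positivity
        have h4 : (c * x i y - kk x D f) ^ 2 / (2 * c)
            = c / 2 * x i y ^ 2 + 1 / (2 * c) * kk x D f ^ 2 - x i y * kk x D f := by
          field_simp
          ring
        linarith
      have := mul_le_mul_of_nonneg_left h2 (x0 y f)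
      linarith
    simp only [Finset.sum_add_distrib, ← Finset.mul_sum] at h1
    have s1 : ∑ y ∈ F, ∑ f ∈ Dᶜ.erase i, x y f * x i y ^ 2
        ≤ fQ x F i - fC x F i - fP x (kk x D) F i := by
      have : ∀ y ∈ F, ∑ f ∈ Dᶜ.erase i, x y f * x i y ^ 2
          ≤ x i y ^ 2 - x i y ^ 3 - x i y ^ 2 * kk x D y := by
        intro y _
        rw [← Finset.sum_mul]
        have r1 : ∑ f ∈ Dᶜ.erase i, x y f ≤ 1 - x i y - kk x D y := by
          have := row_kk hx D y
          rw [← Finset.add_sum_erase _ _ hi, hx.symm y i] at this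
          linarith
        have r2 := mul_le_mul_of_nonneg_right r1 (sq_nonneg (x i y))
        nlinarith
      refine (Finset.sum_le_sum this).trans (le_of_eq ?_)
      unfold fQ fC fP
      rw [Finset.sum_sub_distrib, Finset.sum_sub_distrib]
    have s2 : ∑ y ∈ F, ∑ f ∈ Dᶜ.erase i, x y f * kk x D f ^ 2 ≤ (n - kk x D i) / 4 := by
      rw [Finset.sum_comm]
      have : ∀ f ∈ Dᶜ.erase i, ∑ y ∈ F, x y f * kk x D f ^ 2 ≤ kk x D f / 4 := by
        intro f _
        rw [← Finset.sum_mul]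
        have r1 : ∑ y ∈ F, x y f ≤ 1 - kk x D f := by
          have h2 := fm_le hx hF f
          unfold fm at h2
          refine le_trans (le_of_eq ?_) h2
          exact Finset.sum_congr rfl fun y _ => hx.symm y f
        have r2 := mul_le_mul_of_nonneg_right r1 (sq_nonneg (kk x D f))
        have r3 := kk_nonneg hx D f
        nlinarith [mul_nonneg r3 (sq_nonneg (kk x D f - 1 / 2))]
      refine (Finset.sum_le_sum this).trans ?_
      rw [← Finset.sum_div]
      linarith [sum_kk_erase hx D hi]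
    have m1 := mul_le_mul_of_nonneg_left s1 (by positivity : 0 ≤ c / 2)
    have m2 := mul_le_mul_of_nonneg_left s2 (by positivity : 0 ≤ 1 / (2 * c))
    have m3 := mul_le_mul_of_nonneg_left (fC_ge x0 F i t) (by positivity : 0 ≤ c / 2)
    have e2 : 1 / (2 * c) * ((n - kk x D i) / 4) = (n - kk x D i) / (8 * c) := by
      field_simp
      ring
    rw [e2] at m2
    rw [e1]
    linarith

/-- **the facts at a vertex** -/
theorem fxV (hx : Wt x) {n : ℝ} (hn : (D.card : ℝ) ≤ n) (hF : F ⊆ Dᶜ) (hi : i ∈ Dᶜ)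
    (hiF : i ∉ F) :
    FxV n (n - kk x D i) (kk x D i) (fm x F i) (fh x (kk x D) F i) (ft x (kk x D) F i)
      (fQ x F i) (fP x (kk x D) F i) (fh x (hk x D) F i) :=
  fxV_B hx hn hF hi (sum_kk_F hx hn hF hi hiF)

/-! ### bounded weights -/

/-- facts for weights at most `X` -/
structure FxX (X m h Q s : ℝ) : Prop where
  QX : Q ≤ X * m
  sX : s ≤ X * h
  sl : Q + X * h - X * m ≤ s

theorem fxX (hx : Wt x) {X : ℝ} (hX : ∀ j ∈ F, x i j ≤ X) :
    FxX X (fm x F i) (fh x (kk x D) F i) (fQ x F i) (fP x (kk x D) F i) := by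
  refine ⟨fQ_le hx.nn hX, ?_, ?_⟩
  · unfold fP fh
    rw [Finset.mul_sum]
    refine Finset.sum_le_sum fun f hf => ?_
    have := mul_le_mul_of_nonneg_right (hX f hf) (mul_nonneg (hx.nn i f) (kk_nonneg hx D f))
    nlinarith
  · have h1 : 0 ≤ ∑ f ∈ F, x i f * ((X - x i f) * (1 - kk x D f)) :=
      Finset.sum_nonneg fun f hf => mul_nonneg (hx.nn i f)
        (mul_nonneg (by linarith [hX f hf]) (by linarith [kk_le_one hx D f]))
    have h2 : ∑ f ∈ F, x i f * ((X - x i f) * (1 - kk x D f))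
        = X * fm x F i - X * fh x (kk x D) F i - fQ x F i + fP x (kk x D) F i := by
      unfold fm fh fQ fP
      rw [Finset.mul_sum, Finset.mul_sum, ← Finset.sum_sub_distrib, ← Finset.sum_sub_distrib,
        ← Finset.sum_add_distrib]
      exact Finset.sum_congr rfl fun f _ => by ring
    linarith

/-! ### the full quantities -/

/-! ### the neighbour seen from `i` -/

end feat

end Pool.Agent.RZ.RCO
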