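import Pool.Agent.RZ.RCG.CtA
import Pool.Agent.RZ.RCO.Sf

/-! The local data of a vertex in a world: points and their facts (MP_73ccd0_lc). -/

namespace Pool.Agent.RZ.RCO

open Set Finset Pool.Agent.RZ.RCM

set_option linter.unusedSectionVars false

/-- the local data of a vertex: `k` = killed mass, small letters = forward features (mass,
averages of `k`, `k (1 - k)`, squares, squares times `k`, average of the full `h`), capitals = the
same features of the full world -/
structure Pt where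
  k : ℝ
  m : ℝ
  h : ℝ
  g : ℝ
  q : ℝ
  s : ℝ
  e : ℝ
  M : ℝ
  H : ℝ
  G : ℝ
  Q : ℝ
  S : ℝ
  E : ℝ

/-- the full point of the same vertex -/
def Pt.full (p : Pt) : Pt where
  k := p.k
  m := p.M
  h := p.H
  g := p.G
  q := p.Q
  s := p.S
  e := p.E
  M := p.M
  H := p.H
  G := p.G
  Q := p.Q
  S := p.S
  E := p.E

/-- the facts of one set of features; `k` the killed mass and `H` the full average of `k` -/
structure Fct (k H m h g q s e : ℝ) : Prop where
  m0 : 0 ≤ m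
  h0 : 0 ≤ h
  g0 : 0 ≤ g
  q0 : 0 ≤ q
  s0 : 0 ≤ s
  e0 : 0 ≤ e
  gh : g ≤ h
  sg : s ≤ g
  sq : s ≤ q
  hm : h ≤ m - q
  qm : q ≤ m ^ 2
  em : e ≤ m - h
  hk : ∀ t : ℝ, h ≤ (1 - t) ^ 2 * m + t ^ 2 * (2 - k)
  gt : ∀ t : ℝ, g ≤ (1 - 2 * t) * h + t ^ 2 * m
  st : ∀ t : ℝ, 2 * t * h - t ^ 2 * (2 - k) ≤ s
  hQ : ∀ c : ℝ, 0 < c → h * (1 + 1 / (2 * c)) ≤ c * q / 2 + (2 - k) / (2 * c)
  eQ : ∀ c : ℝ, 0 < c → e ≤ c / 2 * (q - s) + (2 - k) / (8 * c) + k ^ 2 * m / (2 * c)
  eH : ∀ c : ℝ, 0 < c → e ≤ c * q / 2 + (2 - H) / (2 * c)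
  km : m + k ≤ 1
  sl : q + g + h - m ≤ s
  he : h + e + (1 - k) * q ≤ m
  et : ∀ t : ℝ, e ≤ (1 - t) ^ 2 * (m - h) + t ^ 2 * (2 * m - h)
  e2 : ∀ c t : ℝ, 0 < c →
    e ≤ k * q + c / 2 * ((1 - 2 * t) * q + t ^ 2 * m - s) + (2 - k) / (8 * c)

/-- the facts of a point -/
structure Pt.Ok (p : Pt) : Prop where
  k0 : 0 ≤ p.k
  MK : p.M + p.k ≤ 1
  mM : p.m ≤ p.M
  hH : p.h ≤ p.H
  gG : p.g ≤ p.G
  qQ : p.q ≤ p.Q
  sS : p.s ≤ p.S
  eE : p.e ≤ p.E
  f : Fct p.k p.H p.m p.h p.g p.q p.s p.e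
  F : Fct p.k p.H p.M p.H p.G p.Q p.S p.E

/-- the facts of one set of features in the class of the weights at most `XM` -/
structure FctX (k m h g q s e : ℝ) : Prop where
  hm : h ≤ 2 * RCG.XM * m
  qm : q ≤ RCG.XM * m
  sh : s ≤ RCG.XM * h
  sq : s ≤ 2 * RCG.XM * q
  sl : RCG.XM * h + 2 * RCG.XM * q - 2 * RCG.XM ^ 2 * m ≤ s
  gh : (1 - 2 * RCG.XM) * h ≤ g
  em : e ≤ k * q + 2 * RCG.XM * (m - h - q)

theorem FctX.em' {k m h g q s e : ℝ} (f : FctX k m h g q s e) (hk : k ≤ 2 * RCG.XM)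
    (q0 : 0 ≤ q) : e ≤ 2 * RCG.XM * (m - h) := by
  have h1 := f.em
  have h2 := mul_le_mul_of_nonneg_right hk q0
  linarith

/-- the facts of a real vertex -/
structure Pt.Live (p : Pt) : Prop extends Pt.Ok p where
  row : p.M + p.k = 1
  kX : p.k ≤ 2 * RCG.XM
  fX : FctX p.k p.m p.h p.g p.q p.s p.e
  FX : FctX p.k p.M p.H p.G p.Q p.S p.E

/-- the facts of a real vertex seen from its neighbour (weight `x`, killed mass `a`, full average
`b` of the neighbour): the world is the full one without the neighbour -/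
structure Pt.Sat (p : Pt) (x a b : ℝ) : Prop extends Pt.Live p where
  x0 : 0 ≤ x
  a0 : 0 ≤ a
  b0 : 0 ≤ b
  ax : a + x ≤ 1
  ab : a + b ≤ 1
  xb : x * p.k ≤ b
  bx : b ≤ x * p.k + (1 - a - x)
  mx : p.m = 1 - p.k - x
  m : p.m + x = p.M
  h : p.h + x * a = p.H
  g : p.g + x * (a * (1 - a)) = p.G
  q : p.q + x ^ 2 = p.Q
  s : p.s + x ^ 2 * a = p.S
  e : p.e + x * b = p.E
  hkx : ∀ t : ℝ, p.h ≤ (1 - t) ^ 2 * p.m + t ^ 2 * (2 - p.k - a)
  stx : ∀ t : ℝ, 2 * t * p.h - t ^ 2 * (2 - p.k - a) ≤ p.s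
  hQx : ∀ c : ℝ, 0 < c → p.h * (1 + 1 / (2 * c)) ≤ c * p.q / 2 + (2 - p.k - a) / (2 * c)
  eHx : ∀ c : ℝ, 0 < c → p.e ≤ c * p.q / 2 + (2 - p.H - b) / (2 * c)
  xX : x ≤ RCG.XM
  aX : a ≤ 2 * RCG.XM
  bX : b ≤ x * p.k + 2 * RCG.XM * (1 - a - x)

/-- the facts of a pendant vertex seen from its neighbour: its weight is `0` -/
structure Pt.Pend (p : Pt) (x a b : ℝ) : Prop where
  x0 : 0 ≤ x
  a0 : 0 ≤ a
  b0 : 0 ≤ b
  ab : a + b + x ≤ 1
  k : p.k = 0
  m : p.m = 0
  h : p.h = 0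
  g : p.g = 0
  q : p.q = 0
  s : p.s = 0
  e : p.e = 0
  M : p.M = x
  H : p.H = x * a
  G : p.G = x * (a * (1 - a))
  Q : p.Q = x ^ 2
  S : p.S = x ^ 2 * a
  E : p.E = x * b
  xz : x = 0

section

variable {V : Type*} [Fintype V] [DecidableEq V]

/-- forward average of the full average of `k` -/
def fE (x : V → V → ℝ) (D F : Finset V) (v : V) : ℝ := ∑ f ∈ F, x v f * hk x D f

/-- the point of the vertex `v` in the world `F` -/
def pt (x : V → V → ℝ) (D : Finset V) (F : Finset V) (v : V) : Pt where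
  k := kk x D v
  m := fm x F v
  h := fh x (kk x D) F v
  g := ft x (kk x D) F v
  q := fQ x F v
  s := fP x (kk x D) F v
  e := fE x D F v
  M := fm x (Dᶜ.erase v) v
  H := fh x (kk x D) (Dᶜ.erase v) v
  G := ft x (kk x D) (Dᶜ.erase v) v
  Q := fQ x (Dᶜ.erase v) v
  S := fP x (kk x D) (Dᶜ.erase v) v
  E := fE x D (Dᶜ.erase v) v

/-- the full point -/
abbrev fp (x : V → V → ℝ) (D : Finset V) (v : V) : Pt := pt x D (Dᶜ.erase v) v

/-- the world of the vertex `v` seen from `i` -/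
abbrev wo (D : Finset V) (i v : V) : Finset V := (Dᶜ.erase i).erase v

theorem pt_full (x : V → V → ℝ) (D F : Finset V) (v : V) : (pt x D F v).full = fp x D v := rfl

variable {x : V → V → ℝ} {D F : Finset V} {v : V}

theorem hk_eq (hx : Wt x) (D : Finset V) (v : V) :
    fh x (kk x D) (Dᶜ.erase v) v = hk x D v := (hk_erase hx D v).symm

theorem fE_nonneg (hx : Wt x) (D F : Finset V) (v : V) : 0 ≤ fE x D F v :=
  Finset.sum_nonneg fun f _ => mul_nonneg (hx.nn v f) (hk_nonneg hx D f)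

theorem fE_mono (hx : Wt x) (D : Finset V) {F G : Finset V} (h : F ⊆ G) (v : V) :
    fE x D F v ≤ fE x D G v :=
  Finset.sum_le_sum_of_subset_of_nonneg h fun f _ _ => mul_nonneg (hx.nn v f) (hk_nonneg hx D f)

theorem kk1 (hx : Wt x) (D : Finset V) (f : V) : kk x D f ≤ 1 := kk_le_one hx D f

/-- the sum of the full averages -/
theorem sum_hk_world (hx : Wt x) (hD : D.card ≤ 2) (hvF : v ∉ F) :
    ∑ f ∈ F, hk x D f ≤ 2 - hk x D v := by
  have h1 : ∑ f ∈ insert v F, hk x D f ≤ ∑ j ∈ Dᶜ, kk x D j := by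
    unfold hk
    rw [Finset.sum_comm]
    refine Finset.sum_le_sum fun j _ => ?_
    rw [← Finset.sum_mul]
    have h2 : ∑ i ∈ insert v F, x i j ≤ 1 := by
      refine le_trans (le_of_eq (Finset.sum_congr rfl fun i _ => hx.symm i j)) ?_
      exact (Finset.sum_le_sum_of_subset_of_nonneg (Finset.subset_univ _) fun i _ _ =>
        hx.nn j i).trans (hx.row j)
    have := mul_le_mul_of_nonneg_right h2 (kk_nonneg hx D j)
    linarith
  rw [Finset.sum_insert hvF] at h1
  have h3 := sum_kk hx D Dᶜ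
  have h4 : ((D.card : ℕ) : ℝ) ≤ 2 := by exact_mod_cast hD
  linarith

/-- the sum of the full averages, two vertices outside -/
theorem sum_hk_world2 (hx : Wt x) (hD : D.card ≤ 2) (hvF : v ∉ F) {i : V} (hiF : i ∉ F)
    (hiv : i ≠ v) : ∑ f ∈ F, hk x D f ≤ 2 - hk x D v - hk x D i := by
  have h1 := sum_hk_world hx hD (F := insert v F) (v := i) (by
    rw [Finset.mem_insert, not_or]
    exact ⟨hiv, hiF⟩)
  rw [Finset.sum_insert hvF] at h1
  linarith

/-- the second average by the squares -/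
theorem fE_le_sq (hx : Wt x) {B c : ℝ} (c0 : 0 < c)
    (hB : ∑ f ∈ F, hk x D f ≤ B) : fE x D F v ≤ c * fQ x F v / 2 + B / (2 * c) := by
  have h1 : fE x D F v ≤ ∑ f ∈ F, (c / 2 * x v f ^ 2 + 1 / (2 * c) * hk x D f) := by
    refine Finset.sum_le_sum fun f _ => ?_
    have h3 : 0 ≤ (c * x v f - hk x D f) ^ 2 / (2 * c) := by positivity
    have h4 : (c * x v f - hk x D f) ^ 2 / (2 * c)
        = c / 2 * x v f ^ 2 + 1 / (2 * c) * hk x D f ^ 2 - x v f * hk x D f := by
      field_simp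
      ring
    have h6 := hk_nonneg hx D f
    have h7 : hk x D f ≤ 1 := (hk_le hx D f).trans (by linarith [kk_nonneg hx D f])
    have h5 : hk x D f ^ 2 ≤ hk x D f := by nlinarith
    have h8 := mul_le_mul_of_nonneg_left h5 (by positivity : 0 ≤ 1 / (2 * c))
    linarith
  rw [Finset.sum_add_distrib, ← Finset.mul_sum, ← Finset.mul_sum] at h1
  have h2 := mul_le_mul_of_nonneg_left hB (by positivity : 0 ≤ 1 / (2 * c))
  have e2 : 1 / (2 * c) * B = B / (2 * c) := by ring
  rw [e2] at h2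
  unfold fQ
  linarith

/-- the facts of the features of a vertex in a world -/
theorem fct_of (hx : Wt x) (hD : D.card ≤ 2) (hF : F ⊆ Dᶜ) (hv : v ∈ Dᶜ) (hvF : v ∉ F) :
    Fct (kk x D v) (hk x D v) (fm x F v) (fh x (kk x D) F v) (ft x (kk x D) F v) (fQ x F v)
      (fP x (kk x D) F v) (fE x D F v) := by
  have k0 := kk_nonneg hx D
  have k1 := kk1 hx D
  have x1 := x_le_one hx
  have hD2 : ((D.card : ℕ) : ℝ) ≤ 2 := by exact_mod_cast hD
  have V0 := fxV hx hD2 hF hv hvF
  refine ⟨fm_nonneg hx.nn F v, fh_nonneg hx.nn k0 F v, ft_nonneg hx.nn k0 k1 F v, fQ_nonneg F v,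
    fP_nonneg k0 F v, fE_nonneg hx D F v, ?_, ?_, fP_le_fQ k1 F v, fh_le_sub hx hv F, ?_, ?_,
    fun t => ?_, fun t => ?_, fun t => ?_, fun c c0 => ?_, fun c c0 => ?_, fun c c0 => ?_,
    V0.km, V0.sl, V0.hh2, V0.c2, V0.q2⟩
  · exact Finset.sum_le_sum fun f _ => mul_le_mul_of_nonneg_left (by
      nlinarith [k0 f, k1 f]) (hx.nn v f)
  · refine Finset.sum_le_sum fun f _ => ?_
    have h1 := x_add_kk hx (f := f) hv
    have h2 := mul_nonneg (mul_nonneg (hx.nn v f) (k0 f)) (by linarith : 0 ≤ 1 - kk x D f - x v f)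
    nlinarith
  · have h1 := Finset.sum_nonneg fun f (_ : f ∈ F) => hx.nn v f
    have h2 : ∀ f ∈ F, x v f ≤ fm x F v := fun f hf =>
      Finset.single_le_sum (f := fun f => x v f) (fun f _ => hx.nn v f) hf
    calc fQ x F v ≤ ∑ f ∈ F, x v f * fm x F v := Finset.sum_le_sum fun f hf => by
          rw [sq]
          exact mul_le_mul_of_nonneg_left (h2 f hf) (hx.nn v f)
      _ = fm x F v ^ 2 := by
          rw [← Finset.sum_mul, sq]
          rfl
  · have h1 : fE x D F v ≤ ∑ f ∈ F, x v f * (1 - kk x D f) := Finset.sum_le_sum fun f _ =>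
      mul_le_mul_of_nonneg_left (hk_le hx D f) (hx.nn v f)
    refine h1.trans (le_of_eq ?_)
    unfold fm fh
    rw [← Finset.sum_sub_distrib]
    exact Finset.sum_congr rfl fun f _ => by ring
  · have h1 := fh_le_q hx hF hv hvF t
    have h2 := mul_le_mul_of_nonneg_left (sub_le_sub_right hD2 (kk x D v)) (sq_nonneg t)
    linarith
  · have h1 : ft x (kk x D) F v ≤ ∑ f ∈ F, x v f * ((1 - 2 * t) * kk x D f + t ^ 2) :=
      Finset.sum_le_sum fun f _ => mul_le_mul_of_nonneg_left (by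
        nlinarith [sq_nonneg (kk x D f - t)]) (hx.nn v f)
    refine h1.trans (le_of_eq ?_)
    unfold fm fh
    rw [Finset.mul_sum, Finset.mul_sum, ← Finset.sum_add_distrib]
    exact Finset.sum_congr rfl fun f _ => by ring
  · have h1 : ∑ f ∈ F, (2 * t * (x v f * kk x D f) - t ^ 2 * kk x D f) ≤ fP x (kk x D) F v :=
      Finset.sum_le_sum fun f _ => by
        nlinarith [mul_nonneg (k0 f) (sq_nonneg (x v f - t))]
    rw [Finset.sum_sub_distrib, ← Finset.mul_sum, ← Finset.mul_sum] at h1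
    have h2 := mul_le_mul_of_nonneg_left (sum_kk_world2 hx hF hv hvF hD) (sq_nonneg t)
    unfold fh
    linarith
  · have h1 := fh_le_Q hx hF hv hvF c0
    have h2 : ((D.card : ℝ) - kk x D v) / (2 * c) ≤ (2 - kk x D v) / (2 * c) := by
      gcongr
    linarith
  · -- the second average and the squares
    have h1 : fE x D F v ≤ ∑ f ∈ F, ∑ j ∈ Dᶜ,
        (c / 2 * (x f j * x v f ^ 2) + 1 / (2 * c) * (x f j * kk x D j ^ 2)) := by
      unfold fE hk
      refine Finset.sum_le_sum fun f _ => ?_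
      rw [Finset.mul_sum]
      refine Finset.sum_le_sum fun j _ => ?_
      have h2 : x v f * kk x D j ≤ c / 2 * x v f ^ 2 + 1 / (2 * c) * kk x D j ^ 2 := by
        have h3 : 0 ≤ (c * x v f - kk x D j) ^ 2 / (2 * c) := by positivity
        have h4 : (c * x v f - kk x D j) ^ 2 / (2 * c)
            = c / 2 * x v f ^ 2 + 1 / (2 * c) * kk x D j ^ 2 - x v f * kk x D j := by
          field_simp
          ring
        linarith
      have := mul_le_mul_of_nonneg_left h2 (hx.nn f j)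
      linarith
    refine h1.trans ?_
    simp only [Finset.sum_add_distrib, ← Finset.mul_sum]
    have s1 : ∑ f ∈ F, ∑ j ∈ Dᶜ, x f j * x v f ^ 2 ≤ fQ x F v - fP x (kk x D) F v := by
      have : ∀ f ∈ F, ∑ j ∈ Dᶜ, x f j * x v f ^ 2 ≤ x v f ^ 2 - x v f ^ 2 * kk x D f := by
        intro f _
        rw [← Finset.sum_mul]
        have r2 := mul_le_mul_of_nonneg_right (row_kk hx D f) (sq_nonneg (x v f))
        nlinarith
      refine (Finset.sum_le_sum this).trans (le_of_eq ?_)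
      unfold fQ fP
      rw [Finset.sum_sub_distrib]
    have s2 : ∑ f ∈ F, ∑ j ∈ Dᶜ, x f j * kk x D j ^ 2
        ≤ (2 - kk x D v) / 4 + kk x D v ^ 2 * fm x F v := by
      rw [Finset.sum_comm, ← Finset.add_sum_erase _ _ hv, add_comm]
      refine add_le_add ?_ ?_
      · have : ∀ j ∈ Dᶜ.erase v, ∑ f ∈ F, x f j * kk x D j ^ 2 ≤ kk x D j / 4 := by
          intro j _
          rw [← Finset.sum_mul]
          have r1 : ∑ f ∈ F, x f j ≤ 1 - kk x D j := by
            have := fm_le hx hF j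
            unfold fm at this
            have e2 : ∑ f ∈ F, x f j = ∑ f ∈ F, x j f :=
              Finset.sum_congr rfl fun f _ => hx.symm f j
            rw [e2]
            linarith
          have r2 := mul_le_mul_of_nonneg_right r1 (sq_nonneg (kk x D j))
          have r3 := kk_nonneg hx D j
          nlinarith [mul_nonneg r3 (sq_nonneg (kk x D j - 1 / 2))]
        refine (Finset.sum_le_sum this).trans ?_
        rw [← Finset.sum_div]
        have h5 := sum_kk_erase hx D hv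
        linarith
      · rw [← Finset.sum_mul]
        have e2 : ∑ f ∈ F, x f v = fm x F v := Finset.sum_congr rfl fun f _ => hx.symm f v
        rw [e2, mul_comm]
    have m1 := mul_le_mul_of_nonneg_left s1 (by positivity : 0 ≤ c / 2)
    have m2 := mul_le_mul_of_nonneg_left s2 (by positivity : 0 ≤ 1 / (2 * c))
    refine (add_le_add m1 m2).trans (le_of_eq ?_)
    field_simp
    ring
  · exact fE_le_sq hx c0 (sum_hk_world hx hD hvF)

theorem erase_sub (D : Finset V) (v : V) : Dᶜ.erase v ⊆ Dᶜ := Finset.erase_subset _ _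

/-- the facts of a world in the form of the points -/
theorem fct_pt (hx : Wt x) (hD : D.card ≤ 2) (hF : F ⊆ Dᶜ) (hv : v ∈ Dᶜ) (hvF : v ∉ F) :
    Fct (kk x D v) (fh x (kk x D) (Dᶜ.erase v) v) (fm x F v) (fh x (kk x D) F v)
      (ft x (kk x D) F v) (fQ x F v) (fP x (kk x D) F v) (fE x D F v) := by
  rw [hk_eq hx]
  exact fct_of hx hD hF hv hvF

/-- the point of a vertex in a world -/
theorem pt_ok (hx : Wt x) (hD : D.card ≤ 2) (hF : F ⊆ Dᶜ) (hv : v ∈ Dᶜ) (hvF : v ∉ F) :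
    (pt x D F v).Ok := by
  have sub : F ⊆ Dᶜ.erase v := fun z hz => Finset.mem_erase.2 ⟨fun h => hvF (h ▸ hz), hF hz⟩
  have k0 := kk_nonneg hx D
  have k1 := kk1 hx D
  refine ⟨k0 v, ?_, fm_mono hx.nn sub v, fh_mono hx.nn k0 sub v, ft_mono hx.nn k0 k1 sub v,
    fQ_mono (x := x) sub v, fP_mono (x := x) k0 sub v, fE_mono hx D sub v,
    fct_pt hx hD hF hv hvF, fct_pt hx hD (erase_sub D v) hv (Finset.notMem_erase v _)⟩
  show fm x (Dᶜ.erase v) v + kk x D v ≤ 1
  linarith [fm_le hx (erase_sub D v) v]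

/-- the mass of a real vertex is complete -/
theorem fm_full {P : V → Prop} (hx : RCG.Ct.Wt x P 1) (hv : P v) :
    fm x (Dᶜ.erase v) v + kk x D v = 1 := by
  have h1 := hx.row1 v hv
  rw [← Finset.sum_add_sum_compl D] at h1
  have e1 : kk x D v = ∑ w ∈ D, x v w := Finset.sum_congr rfl fun w _ => hx.symm w v
  have e2 : fm x (Dᶜ.erase v) v = ∑ w ∈ Dᶜ, x v w := by
    unfold fm
    by_cases hvD : v ∈ Dᶜ
    · rw [← Finset.add_sum_erase Dᶜ _ hvD, hx.diag v, zero_add]
    · rw [Finset.erase_eq_of_notMem hvD]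
  rw [e1, e2]
  linarith

/-! ### the class -/

/-- the killed mass of a vertex -/
theorem kk_X {P : V → Prop} (hP : RCG.Ct.Wt x P 1) (hD : D.card ≤ 2) (v : V) :
    kk x D v ≤ 2 * RCG.XM := by
  have h1 : kk x D v ≤ ∑ w ∈ D, RCG.XM := Finset.sum_le_sum fun w _ => hP.leX w v
  rw [Finset.sum_const, nsmul_eq_mul] at h1
  have h2 : ((D.card : ℕ) : ℝ) ≤ 2 := by exact_mod_cast hD
  exact h1.trans (mul_le_mul_of_nonneg_right h2 RCG.XM_pos.le)

/-- the products with the killed masses -/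
theorem xk_X {P : V → Prop} (hP : RCG.Ct.Wt x P 1) (hD : D.card ≤ 2) (f j : V) :
    x f j * kk x D j ≤ 2 * RCG.XM * x f j := by
  have := mul_le_mul_of_nonneg_left (kk_X hP hD j) (hP.nonneg f j)
  linarith

/-- the full average of `k`, a vertex split off -/
theorem hk_X {P : V → Prop} (hP : RCG.Ct.Wt x P 1) (hx : Wt x) (hD : D.card ≤ 2) (f : V)
    (hv : v ∈ Dᶜ) : hk x D f ≤ x f v * kk x D v + 2 * RCG.XM * (1 - kk x D f - x f v) := by
  unfold hk
  have h1 := row_kk hx D f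
  rw [← Finset.add_sum_erase _ _ hv] at h1 ⊢
  have h2 : ∑ j ∈ Dᶜ.erase v, x f j * kk x D j ≤ ∑ j ∈ Dᶜ.erase v, 2 * RCG.XM * x f j :=
    Finset.sum_le_sum fun j _ => xk_X hP hD f j
  rw [← Finset.mul_sum] at h2
  have h3 : ∑ j ∈ Dᶜ.erase v, x f j ≤ 1 - kk x D f - x f v := by linarith
  have h4 := mul_le_mul_of_nonneg_left h3 (by linarith [RCG.XM_pos] : 0 ≤ 2 * RCG.XM)
  linarith

/-- **the facts of a world in the class** -/
theorem fctX_of {P : V → Prop} (hP : RCG.Ct.Wt x P 1) (hx : Wt x) (hD : D.card ≤ 2)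
    (hv : v ∈ Dᶜ) (F : Finset V) :
    FctX (kk x D v) (fm x F v) (fh x (kk x D) F v) (ft x (kk x D) F v) (fQ x F v)
      (fP x (kk x D) F v) (fE x D F v) := by
  have k0 := kk_nonneg hx D
  have X0 := RCG.XM_pos
  have xk : ∀ f, x v f * kk x D f ≤ 2 * RCG.XM * x v f := xk_X hP hD v
  have f1 := fxX (F := F) (i := v) (D := D) hx fun j _ => hP.leX v j
  refine ⟨?_, f1.QX, f1.sX, ?_, ?_, ?_, ?_⟩
  · unfold fh fm
    rw [Finset.mul_sum]
    exact Finset.sum_le_sum fun f _ => xk f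
  · unfold fP fQ
    rw [Finset.mul_sum]
    refine Finset.sum_le_sum fun f _ => ?_
    have := mul_le_mul_of_nonneg_left (xk f) (hx.nn v f)
    nlinarith
  · have h1 : ∀ f, RCG.XM * (x v f * kk x D f) + 2 * RCG.XM * x v f ^ 2
        - 2 * RCG.XM ^ 2 * x v f ≤ x v f ^ 2 * kk x D f := fun f => by
      have h2 := mul_le_mul_of_nonneg_left (xk f) (sub_nonneg.2 (hP.leX v f))
      nlinarith
    unfold fQ fh fm fP
    rw [Finset.mul_sum, Finset.mul_sum, Finset.mul_sum, ← Finset.sum_add_distrib,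
      ← Finset.sum_sub_distrib]
    exact Finset.sum_le_sum fun f _ => h1 f
  · unfold fh ft
    rw [Finset.mul_sum]
    refine Finset.sum_le_sum fun f _ => ?_
    have := mul_le_mul_of_nonneg_right (xk f) (k0 f)
    nlinarith
  · have h1 : ∀ f ∈ F, x v f * hk x D f ≤ kk x D v * x v f ^ 2
        + 2 * RCG.XM * (x v f - x v f * kk x D f - x v f ^ 2) := fun f _ => by
      have h2 := hk_X hP hx hD f hv
      rw [hx.symm f v] at h2
      have := mul_le_mul_of_nonneg_left h2 (hx.nn v f)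
      nlinarith
    unfold fE fQ fh fm
    rw [Finset.mul_sum, ← Finset.sum_sub_distrib, ← Finset.sum_sub_distrib, Finset.mul_sum,
      ← Finset.sum_add_distrib]
    exact Finset.sum_le_sum h1

/-- a real vertex in a world -/
theorem pt_live {P : V → Prop} (hP : RCG.Ct.Wt x P 1) (hx : Wt x) (hD : D.card ≤ 2)
    (hF : F ⊆ Dᶜ) (hv : v ∈ Dᶜ) (hvF : v ∉ F) (hPv : P v) : (pt x D F v).Live :=
  ⟨pt_ok hx hD hF hv hvF, fm_full hP hPv, kk_X hP hD v, fctX_of hP hx hD hv F,
    fctX_of hP hx hD hv (Dᶜ.erase v)⟩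

theorem wo_comm (D : Finset V) (i v : V) : wo D i v = (Dᶜ.erase v).erase i :=
  Finset.erase_right_comm

/-- **a real vertex seen from a neighbour** -/
theorem pt_sat {P : V → Prop} (hP : RCG.Ct.Wt x P 1) (hx : Wt x) (hD : D.card ≤ 2)
    (hv : v ∈ Dᶜ) {i : V} (hi : i ∈ Dᶜ) (hiv : i ≠ v) (hPv : P v) :
    (pt x D (wo D i v) v).Sat (x i v) (kk x D i) (hk x D i) := by
  have hiU : i ∈ Dᶜ.erase v := Finset.mem_erase.2 ⟨hiv, hi⟩
  have sub : wo D i v ⊆ Dᶜ := (Finset.erase_subset _ _).trans (Finset.erase_subset _ _)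
  have nv : v ∉ wo D i v := Finset.notMem_erase v _
  have ni : i ∉ wo D i v := fun h => Finset.notMem_erase i _ (Finset.mem_of_mem_erase h)
  have hD2 : ((D.card : ℕ) : ℝ) ≤ 2 := by exact_mod_cast hD
  have e : ∀ f : V → ℝ, ∑ j ∈ wo D i v, f j + f i = ∑ j ∈ Dᶜ.erase v, f j := fun f => by
    rw [wo_comm, ← Finset.add_sum_erase _ f hiU, add_comm]
  have hsv := hx.symm v i
  have row := fm_full (D := D) hP hPv
  have hB : ∑ f ∈ wo D i v, kk x D f ≤ 2 - kk x D v - kk x D i := by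
    have h1 := sum_kk_erase hx D hv
    rw [← Finset.add_sum_erase _ _ hiU] at h1
    rw [wo_comm]
    linarith
  have V0 := fxV_B hx hD2 sub hv hB
  have em : fm x (wo D i v) v + x i v = fm x (Dᶜ.erase v) v := by
    have := e fun j => x v j
    simp only [hsv] at this
    exact this
  refine { pt_live hP hx hD sub hv nv hPv with
    x0 := hx.nn i v
    a0 := kk_nonneg hx D i
    b0 := hk_nonneg hx D i
    ax := ?_
    ab := by linarith [hk_le hx D i]
    xb := ?_
    bx := ?_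
    mx := ?_
    m := em
    h := ?_
    g := ?_
    q := ?_
    s := ?_
    e := ?_
    hkx := V0.cp
    stx := fun t => ?_
    hQx := fun c c0 => V0.q1 c c0
    eHx := fun c c0 => ?_
    xX := hP.leX i v
    aX := kk_X hP hD i
    bX := hk_X hP hx hD i hv }
  · have := x_add_kk hx (e := v) (f := i) hv
    rw [hx.symm v i] at this
    linarith
  · show x i v * kk x D v ≤ hk x D i
    exact Finset.single_le_sum (f := fun f => x i f * kk x D f)
      (fun f _ => mul_nonneg (hx.nn i f) (kk_nonneg hx D f)) hv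
  · show ∑ f ∈ Dᶜ, x i f * kk x D f ≤ x i v * kk x D v + (1 - kk x D i - x i v)
    have h1 := row_kk hx D i
    rw [← Finset.add_sum_erase _ _ hv] at h1 ⊢
    have h2 : ∑ f ∈ Dᶜ.erase v, x i f * kk x D f ≤ ∑ f ∈ Dᶜ.erase v, x i f :=
      Finset.sum_le_sum fun f _ => by
        have := mul_le_mul_of_nonneg_left (kk1 hx D f) (hx.nn i f)
        linarith
    linarith
  · show fm x (wo D i v) v = 1 - kk x D v - x i v
    linarith
  · have := e fun j => x v j * kk x D j
    simp only [hsv] at this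
    exact this
  · have := e fun j => x v j * (kk x D j * (1 - kk x D j))
    simp only [hsv] at this
    exact this
  · have := e fun j => x v j ^ 2
    simp only [hsv] at this
    exact this
  · have := e fun j => x v j ^ 2 * kk x D j
    simp only [hsv] at this
    exact this
  · have := e fun j => x v j * hk x D j
    simp only [hsv] at this
    exact this
  · have h1 := V0.tq t
    show 2 * t * fh x (kk x D) (wo D i v) v - t ^ 2 * (2 - kk x D v - kk x D i)
      ≤ fP x (kk x D) (wo D i v) v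
    linarith
  · show fE x D (wo D i v) v ≤ c * fQ x (wo D i v) v / 2
      + (2 - fh x (kk x D) (Dᶜ.erase v) v - hk x D i) / (2 * c)
    rw [hk_eq hx]
    exact fE_le_sq hx c0 (sum_hk_world2 hx hD nv ni hiv)

/-- the weights at a pendant vertex -/
theorem pend_eq {P : V → Prop} (hP : RCG.Ct.Wt x P 1) {i b c : V} (hb : ¬P b) (h : x i b ≠ 0)
    (hc : c ≠ i) : x b c = 0 := by
  by_contra h1
  exact hc (hP.pend1 i b c hb h h1)

/-- sums over the neighbours of a pendant vertex -/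
theorem pend_sum {P : V → Prop} (hP : RCG.Ct.Wt x P 1) {i b : V} (hb : ¬P b) (h : x i b ≠ 0)
    (F : Finset V) (f : V → ℝ) :
    ∑ c ∈ F, x b c * f c = if i ∈ F then x i b * f i else 0 := by
  split_ifs with hi
  · rw [Finset.sum_eq_single_of_mem i hi fun c _ hc => by rw [pend_eq hP hb h hc, zero_mul],
      hP.symm b i]
  · exact Finset.sum_eq_zero fun c hc => by
      rw [pend_eq hP hb h fun e => hi (e ▸ hc), zero_mul]

/-- **a pendant vertex seen from its neighbour** -/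
theorem pt_pend {P : V → Prop} (hP : RCG.Ct.Wt x P 1) (hx : Wt x) {i b : V} (hi : i ∈ Dᶜ)
    (hiF : i ∉ F) (hb : ¬P b) (h : x i b ≠ 0) (hib : i ≠ b) (hbD : b ∈ Dᶜ) :
    (pt x D F b).Pend (x i b) (kk x D i) (hk x D i) := by
  have hiD : i ∉ D := Finset.mem_compl.1 hi
  have hiU : i ∈ Dᶜ.erase b := Finset.mem_erase.2 ⟨hib, hi⟩
  have ps := pend_sum hP hb h
  have pq : ∀ (F : Finset V) (f : V → ℝ), ∑ c ∈ F, x b c ^ 2 * f c
      = if i ∈ F then x i b ^ 2 * f i else 0 := fun F f => by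
    have := ps F fun c => x b c * f c
    calc ∑ c ∈ F, x b c ^ 2 * f c = ∑ c ∈ F, x b c * (x b c * f c) :=
          Finset.sum_congr rfl fun c _ => by ring
      _ = _ := this
      _ = _ := by
          rw [hP.symm b i]
          split_ifs
          · ring
          · rfl
  have k0 : kk x D b = 0 := by
    unfold kk
    have := ps D fun _ => 1
    simp only [mul_one, if_neg hiD] at this
    rw [← this]
    exact Finset.sum_congr rfl fun w _ => hx.symm w b
  have ab : kk x D i + hk x D i + x i b ≤ 1 := by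
    have h1 : hk x D i = ∑ f ∈ Dᶜ.erase b, x i f * kk x D f := by
      unfold hk
      rw [← Finset.add_sum_erase Dᶜ (fun f => x i f * kk x D f) hbD, k0, mul_zero, zero_add]
    have h2 : ∑ f ∈ Dᶜ.erase b, x i f * kk x D f ≤ ∑ f ∈ Dᶜ.erase b, x i f :=
      Finset.sum_le_sum fun f _ => by
        have := mul_le_mul_of_nonneg_left (kk1 hx D f) (hx.nn i f)
        linarith
    have h3 := row_kk hx D i
    rw [← Finset.add_sum_erase Dᶜ (fun f => x i f) hbD] at h3
    linarith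
  have z : ∀ f : V → ℝ, ∑ c ∈ F, x b c * f c = 0 := fun f => by rw [ps, if_neg hiF]
  have z2 : ∀ f : V → ℝ, ∑ c ∈ F, x b c ^ 2 * f c = 0 := fun f => by rw [pq, if_neg hiF]
  have o : ∀ f : V → ℝ, ∑ c ∈ Dᶜ.erase b, x b c * f c = x i b * f i := fun f => by
    rw [ps, if_pos hiU]
  have o2 : ∀ f : V → ℝ, ∑ c ∈ Dᶜ.erase b, x b c ^ 2 * f c = x i b ^ 2 * f i := fun f => by
    rw [pq, if_pos hiU]
  refine ⟨hx.nn i b, kk_nonneg hx D i, hk_nonneg hx D i, by
    show kk x D i + hk x D i + x i b ≤ 1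
    exact ab, k0, ?_, z _, z _, ?_, z2 _, z _, ?_, o _, o _, ?_, o2 _, o _,
    absurd (hP.pz i b fun hh => hb hh.2) h⟩
  · have := z fun _ => 1
    simp only [mul_one] at this
    exact this
  · have := z2 fun _ => 1
    simp only [mul_one] at this
    exact this
  · have := o fun _ => 1
    simp only [mul_one] at this
    exact this
  · have := o2 fun _ => 1
    simp only [mul_one] at this
    exact this

end

end Pool.Agent.RZ.RCO
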