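import Pool.Agent.RZ.RCO.Fe3
import Pool.Agent.RZ.RCO.Gl1

/-! The rates of the pairs of the class; single end values below their rows (MP_73ccd0_lc). -/

set_option autoImplicit false

namespace Pool.Agent.RZ.RCO

open Set Pool.Agent.RZ.RCRSHalf Pool.Agent.RZ.RCG Pool.Agent.RZ.RCG.Ct

open Pool.Agent.RZ.RCN Pool.Agent.RZ.RCN.K

set_option linter.unusedSectionVars false

section

variable {V : Type*} [Fintype V] [DecidableEq V]
variable {Z : Hzd} {w : V → V → ℝ} {P : V → Prop} [DecidablePred P] {sl : ℝ → ℝ → ℝ}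

/-- the single end values below the rows with the weight one -/
theorem RowE.le_row {M : Type*} [Fintype M] {D : Finset V} {w1 : M → Pt → ℝ}
    {φ : M → V → Finset V → ℝ} {Fe : Finset V → V → V → ℝ}
    (h : RowE Dᶜ (fun m _ j => w1 m (fp w D j)) φ Fe) {m0 : M} (hm0 : ∀ p, w1 m0 p = 1) {s : ℝ}
    (hs : ∀ c ∈ Dᶜ, ∀ F ⊆ Dᶜ, c ∉ F → φ m0 c F ≤ s) (F : Finset V) (c e : V)
    (hv : VP Dᶜ F c e) : Fe F c e ≤ s := by
  obtain ⟨hF, hc, he, hcF, heF, hce⟩ := hv
  have h1 : insert e F ⊆ Dᶜ := Finset.insert_subset he hF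
  have h2 : c ∉ insert e F := fun h3 => by
    rcases Finset.mem_insert.1 h3 with h4 | h4
    · exact hce h4
    · exact hcF h4
  refine le_trans ?_ ((h.row m0 c hc _ h1 h2).trans (hs c hc _ h1 h2))
  have h3 := Finset.single_le_sum (f := fun j => w1 m0 (fp w D j)
    * Fe ((insert e F).erase j) c j) (fun j _ => by
      rw [hm0, one_mul]
      exact h.g0 _ _ _) (Finset.mem_insert_self e F)
  refine le_trans (le_of_eq ?_) h3
  rw [hm0, one_mul, Finset.erase_insert heF]

end

end Pool.Agent.RZ.RCO
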