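import Pool.Agent.RZ.RCO.Gi5
import Pool.Agent.RZ.RCO.Gs10_2
import Pool.Agent.RZ.RCO.Gt3
import Pool.Agent.RZ.RCO.Gt4

/-! The kernels of the killing from the scalars and the majorants; the tables of the killing of
two ends (MP_73ccd0_lc). -/

set_option autoImplicit false

namespace Pool.Agent.RZ.RCO

open Sg Set Pool.Agent.RZ.RCRSHalf Pool.Agent.RZ.RCG Pool.Agent.RZ.RCG.Ct
open Pool.Agent.RZ.RCN Pool.Agent.RZ.RCN.K

set_option linter.unusedSectionVars false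

/-! ### the conditions of the kernels -/

section kre

variable {V : Type*} [Fintype V] [DecidableEq V] {x : V → V → ℝ} {P : V → Prop}
  {D : Finset V} {hb : ℝ → V → V → ℝ} {σ ym Ph : ℝ} {S : Finset ℝ} {lq : Bool}
  {c1 c4 κD κE S1 S2 κ m Mt : ℝ → ℝ} {H E RD RE : ℝ → ℝ → ℝ} {Hp Ep : ℝ → ℝ}
  {Fe : Finset V → V → V → ℝ}

/-- the exponent of a pair -/
theorem KTm.kM (h : KTm lq σ ym Ph c1 c4 κD κE S1 S2 κ m Mt H E RD RE)
    (hk : KBd x P hb σ H E Hp Ep) (hP : RCG.Ct.Wt x P 1) (xm : ∀ u v, x u v ≤ ym) (c e : V)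
    {r : ℝ} (hr : r ∈ Icc 0 σ) : kb hb σ c e r ≤ m r := by
  by_cases hp : P c ∧ P e
  · exact (hk.hl r hr c e hp.1 hp.2).trans ((h r hr).yH _ ⟨hP.nonneg c e, xm c e⟩)
  · refine (hk.hp r hr c e hp).trans ?_
    rw [hP.pz c e hp, zero_mul]
    exact (h r hr).m0

/-- **the kernels** -/
theorem KTm.kre (h : KTm lq σ ym Ph c1 c4 κD κE S1 S2 κ m Mt H E RD RE)
    (hk : KBd x P hb σ H E Hp Ep) (hP : RCG.Ct.Wt x P 1) (x1 : ∀ u v, x u v ≤ 1)
    (xm : ∀ u v, x u v ≤ ym) (hs : ∀ r u v, hb r u v = hb r v u)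
    (Fe : Finset V → V → V → ℝ) (RDp REp : ℝ → ℝ) :
    KrE x P D σ S Fe (DB lq hb σ Fe κD κ) (EBf hb σ Fe κE) (dkB lq hb σ κ) (ekB hb σ)
      RD RE RDp REp κD κE :=
  KrE.monoN (kre_b hP.nonneg x1 hs hk (fun r hr => (h r hr).k0) (fun r hr => (h r hr).D0)
    fun r hr => (h r hr).E0) hP xm (fun r hr y hy => (h r hr).dl y hy)
    (fun r hr y hy => (h r hr).ef y hy) RDp REp

/-- **the two exponentials** -/
theorem KTm.kex (h : KTm lq σ ym Ph c1 c4 κD κE S1 S2 κ m Mt H E RD RE)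
    (hk : KBd x P hb σ H E Hp Ep) (hP : RCG.Ct.Wt x P 1) (xm : ∀ u v, x u v ≤ ym)
    (F0 : ∀ F c e, 0 ≤ Fe F c e) (f1 : ∀ F c e, VP Dᶜ F c e → Fe F c e ≤ Ph)
    (f2 : ∀ F ⊆ Dᶜ, ∀ c ∈ Dᶜ, c ∉ F → ∀ x ∈ F, ∀ y ∈ F, x ≠ y →
      pq (fun G z => Fe G c z) F x y ≤ Ph) :
    KEx lq hb σ Dᶜ Fe c1 c4 κD κE S1 S2 κ :=
  KEx.of hk.k0 (fun r hr => (h r hr).k0) (fun c e r hr => h.kM hk hP xm c e hr) F0 f1 f2
    (fun r hr => (h r hr).M) (fun hq r hr => (h r hr).q hq) (fun hq r hr => (h r hr).l hq)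
    (fun r hr => (h r hr).e1) fun r hr => (h r hr).e2

/-- **the two exponentials**, no end values -/
theorem KTm.kex_zf (h : KTm lq σ ym Ph c1 c4 κD κE S1 S2 κ m Mt H E RD RE)
    (hk : KBd x P hb σ H E Hp Ep) (hP : RCG.Ct.Wt x P 1) (xm : ∀ u v, x u v ≤ ym)
    (Ph0 : 0 ≤ Ph) : KEx lq hb σ Dᶜ ZF c1 c4 κD κE S1 S2 κ :=
  h.kex hk hP xm (fun _ _ _ => le_rfl) (fun _ _ _ _ => Ph0) fun _ _ _ _ _ _ _ _ _ _ =>
    (le_of_eq (by unfold pq ZF; ring)).trans Ph0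

/-- **the two exponentials**, released end values -/
theorem KTm.kex_rel (h : KTm lq σ ym Ph c1 c4 κD κE S1 S2 κ m Mt H E RD RE)
    (hk : KBd x P hb σ H E Hp Ep) (hP : RCG.Ct.Wt x P 1) (xm : ∀ u v, x u v ≤ ym)
    {M : Type*} [Fintype M] {w1 : M → Pt → ℝ} {δf : M → V → Finset V → ℝ}
    (hF : RowE Dᶜ (fun m _ j => w1 m (fp x D j)) δf Fe)
    {m0 : M} (hm0 : ∀ p, w1 m0 p = 1)
    (hΦ : ∀ c ∈ Dᶜ, ∀ F ⊆ Dᶜ, c ∉ F → δf m0 c F ≤ Ph) :
    KEx lq hb σ Dᶜ Fe c1 c4 κD κE S1 S2 κ :=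
  h.kex hk hP xm hF.g0 (fun F c e hv => hF.le_row hm0 hΦ F c e hv)
    fun F hF' c hc hcF x' hx' y hy hxy => by
      have h1 := hF.pq_le hc hF' hcF m0 (fun j _ => by rw [hm0]; exact zero_le_one) one_pos
        hx' hy hxy (by rw [hm0]) (by rw [hm0])
      rw [div_one] at h1
      exact h1.trans (hΦ c hc F hF' hcF)

end kre

/-! ### the tables of the killing -/

section kt

variable {t : ℕ → ℝ} {n : ℕ} {R : ℝ → ℝ → ℝ} {Rp : ℝ → ℝ} {k : KTq} {ym δ σ : ℝ}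

/-- **the tables of the killing as supersolutions** -/
theorem KTq.Ok.sup (h : k.Ok t n ym R Rp) (hm : Msh t n) (hn : 0 < n) (h0 : t 0 ≤ δ)
    (h1 : σ + δ ≤ t n) :
    KSup σ ym (fun r => R (r + δ)) (fun r => px k.N fun i => (k.H i).f t n (r + δ))
      (fun r => px k.N fun i => (k.H i).sl t n (r + δ))
      (fun r => px k.N fun i => (k.E i).f t n (r + δ))
      (fun r => px k.N fun i => (k.E i).sl t n (r + δ)) := by
  have mem : ∀ r ∈ Icc 0 σ, r + δ ∈ Icc (t 0) (t n) := fun r hr =>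
    ⟨by linarith [hr.1], by linarith [hr.2]⟩
  have sh : ∀ {f : ℝ → ℝ} {f' : ℝ} {r : ℝ}, HasDerivAt f f' (r + δ) →
      HasDerivAt (fun r => f (r + δ)) f' r := fun {f f' r} hf => by
    have := hf.comp r ((hasDerivAt_id r).add_const δ)
    rwa [mul_one] at this
  have lE : ∀ ρ ∈ Icc (t 0) (t n), ∀ y ∈ Icc (0 : ℝ) ym,
      px k.N (fun i => (k.E i).f t n ρ) y ≤ px k.N (fun i => (k.E i).up t n ρ) y :=
    fun ρ hρ y hy => px_mono hy.1 fun i hi => (h.E i hi).le hm hn hρ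
  have dP : ∀ (a : ℕ → Tq) (y r : ℝ), HasDerivAt (fun r => px k.N (fun i => (a i).f t n r) y)
      (-px k.N (fun i => (a i).sl t n r) y) r := fun a y r => by
    rw [← px_neg]
    exact px_deriv (f' := fun r i => -(a i).sl t n r) fun i _ => Tq.deriv t n _ r
  have en : ∀ (a : ℕ → Tq), (fun i => (a i).f t n (t n)) = fun i => (a i).w n := fun a =>
    funext fun i => Tq.end' t n _
  have sE : ∀ y ∈ Icc (0 : ℝ) ym, ∀ ρ ∈ Icc (t 0) (t n),
      0 ≤ px k.N (fun i => (k.E i).sl t n ρ) y := fun y hy ρ hρ =>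
    (mul_nonneg (h.R0 ρ hρ y hy) (add_nonneg zero_le_one (mul_nonneg hy.1 (h.e0 ρ hρ y hy)))).trans
      (h.e ρ hρ y hy)
  have H0 : ∀ y ∈ Icc (0 : ℝ) ym, ∀ ρ ∈ Icc (t 0) (t n),
      0 ≤ px k.N (fun i => (k.H i).f t n ρ) y := fun y hy =>
    nonneg_of_slope (f' := fun ρ => px k.N (fun i => (k.H i).sl t n ρ) y) (fun r => dP k.H y r)
      (fun ρ hρ => (h.R0 ρ hρ y hy).trans (h.h ρ hρ y hy)) (by
        show 0 ≤ px k.N (fun i => (k.H i).f t n (t n)) y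
        rw [en]
        exact h.he y hy)
  have E0 : ∀ y ∈ Icc (0 : ℝ) ym, ∀ ρ ∈ Icc (t 0) (t n),
      0 ≤ px k.N (fun i => (k.E i).f t n ρ) y := fun y hy =>
    nonneg_of_slope (f' := fun ρ => px k.N (fun i => (k.E i).sl t n ρ) y) (fun r => dP k.E y r)
      (fun ρ hρ => sE y hy ρ hρ) (by
        show 0 ≤ px k.N (fun i => (k.E i).f t n (t n)) y
        rw [en]
        exact h.ee y hy)
  exact {
    R0 := fun y hy r hr => h.R0 _ (mem r hr) y hy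
    dH := fun y hy r hr => sh (dP k.H y (r + δ))
    cH := fun y hy r hr => h.h _ (mem r hr) y hy
    H0 := fun y hy r hr => H0 y hy _ (mem r hr)
    dE := fun y hy r hr => sh (dP k.E y (r + δ))
    cE := fun y hy r hr => by
      refine le_trans (mul_le_mul_of_nonneg_left ?_ (h.R0 _ (mem r hr) y hy))
        (h.e _ (mem r hr) y hy)
      have := mul_le_mul_of_nonneg_left (lE _ (mem r hr) y hy) hy.1
      exact add_le_add le_rfl this
    E0 := fun y hy r hr => E0 y hy _ (mem r hr) }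

/-- the used values are nonnegative -/
theorem KTq.Ok.up0 (h : k.Ok t n ym R Rp) (hm : Msh t n) (hn : 0 < n) :
    ∀ ρ ∈ Icc (t 0) (t n), ∀ y ∈ Icc (0 : ℝ) ym, 0 ≤ px k.N (fun i => (k.H i).up t n ρ) y := by
  have dP : ∀ (a : ℕ → Tq) (y r : ℝ), HasDerivAt (fun r => px k.N (fun i => (a i).f t n r) y)
      (-px k.N (fun i => (a i).sl t n r) y) r := fun a y r => by
    rw [← px_neg]
    exact px_deriv (f' := fun r i => -(a i).sl t n r) fun i _ => Tq.deriv t n _ r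
  have en : ∀ (a : ℕ → Tq), (fun i => (a i).f t n (t n)) = fun i => (a i).w n := fun a =>
    funext fun i => Tq.end' t n _
  intro ρ hρ y hy
  refine le_trans ?_ (px_mono hy.1 fun i hi => (h.H i hi).le hm hn hρ)
  refine nonneg_of_slope (f' := fun ρ => px k.N (fun i => (k.H i).sl t n ρ) y)
    (fun r => dP k.H y r) (fun ρ hρ => (h.R0 ρ hρ y hy).trans (h.h ρ hρ y hy)) ?_ ρ hρ
  show 0 ≤ px k.N (fun i => (k.H i).f t n (t n)) y
  rw [en]
  exact h.he y hy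

end kt

end Pool.Agent.RZ.RCO
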