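import Pool.Agent.RZ.RCN.Xof
import Pool.Agent.RZ.RCO.Gi6
import Pool.Agent.RZ.RCO.Gs12_2
import Pool.Agent.RZ.RCO.Gs13

/-! The systems of level 1 from tables: table ends, mixed ends, the first coarse cell
(MP_73ccd0_lc). -/

set_option autoImplicit false

namespace Pool.Agent.RZ.RCO

open Set Pool.Agent.RZ.RCRSHalf Pool.Agent.RZ.RCG Pool.Agent.RZ.RCG.Ct
open Pool.Agent.RZ.RCN Pool.Agent.RZ.RCN.K

set_option linter.unusedSectionVars false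

/-! ### more kinks, shorter times -/

section sub

variable {J M Λ : Type*} {σ : ℝ} {S S' : Finset ℝ}

theorem Fam.Ok.sub {f : Fam J} (h : f.Ok σ S) {σ' : ℝ} (hσ : σ' ≤ σ) (hS : S ⊆ S') :
    f.Ok σ' S' where
  cΦ := fun s j p => (h.cΦ s j p).mono (Icc_subset_Icc_right hσ)
  dΦ := fun s j p r hr hr' => h.dΦ s j p r ⟨hr.1, hr.2.trans hσ⟩ fun h2 => hr' (hS h2)
  cC := fun s j => (h.cC s j).mono (Icc_subset_Icc_right hσ)
  dC := fun s j r hr hr' => h.dC s j r ⟨hr.1, hr.2.trans hσ⟩ fun h2 => hr' (hS h2)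
  Φ0 := fun s j r hr => h.Φ0 s j r ⟨hr.1, hr.2.trans hσ⟩
  C0 := fun s j r hr => h.C0 s j r ⟨hr.1, hr.2.trans hσ⟩
  C1 := fun s j r hr hr' => h.C1 s j r ⟨hr.1, hr.2.trans hσ⟩ fun h2 => hr' (hS h2)

theorem DT1.Ok.sub [Fintype J] [Nonempty J] [Fintype Λ] {E : TEnv} {wv : Λ → Pt → ℝ}
    {B : Bool → Λ → ℝ → Pt → ℝ} {CB : Bool → Λ → ℝ → ℝ} {ν1 δ1 : Pt → ℝ} {Cν1 Cδ1 : ℝ}
    {d : DT1 J Λ} (h : d.Ok σ S E wv B CB ν1 δ1 Cν1 Cδ1) {σ' : ℝ} (hσ : σ' ≤ σ)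
    (hS : S ⊆ S') : d.Ok σ' S' E wv B CB ν1 δ1 Cν1 Cδ1 where
  f := h.f.sub hσ hS
  kD := fun r hr hr' => h.kD r ⟨hr.1, hr.2.trans hσ⟩ fun h2 => hr' (hS h2)
  kE := fun r hr hr' => h.kE r ⟨hr.1, hr.2.trans hσ⟩ fun h2 => hr' (hS h2)
  oD := fun r hr hr' => h.oD r ⟨hr.1, hr.2.trans hσ⟩ fun h2 => hr' (hS h2)
  oE := fun r hr hr' => h.oE r ⟨hr.1, hr.2.trans hσ⟩ fun h2 => hr' (hS h2)
  c10 := fun r hr => h.c10 r ⟨hr.1, hr.2.trans hσ⟩
  c40 := fun r hr => h.c40 r ⟨hr.1, hr.2.trans hσ⟩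
  sn := fun r hr hr' => h.sn r ⟨hr.1, hr.2.trans hσ⟩ fun h2 => hr' (hS h2)
  se := fun r hr hr' => h.se r ⟨hr.1, hr.2.trans hσ⟩ fun h2 => hr' (hS h2)
  sd := fun r hr hr' => h.sd r ⟨hr.1, hr.2.trans hσ⟩ fun h2 => hr' (hS h2)
  Gn0 := fun j m r hr => h.Gn0 j m r ⟨hr.1, hr.2.trans hσ⟩
  Gd0 := fun j m r hr => h.Gd0 j m r ⟨hr.1, hr.2.trans hσ⟩
  C := fun r hr hr' => h.C r ⟨hr.1, hr.2.trans hσ⟩ fun h2 => hr' (hS h2)

theorem DP1.Ok.sub [Fintype M] {E : TEnv} {w1 : M → Pt → ℝ}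
    {B : Bool → M → ℝ → Pt → ℝ} {CB : Bool → M → ℝ → ℝ} {ν δ : M → Pt → ℝ} {Cν Cδ : M → ℝ}
    {d : DP1 M} (h : d.Ok σ S E w1 B CB ν δ Cν Cδ) {σ' : ℝ} (hσ : σ' ≤ σ)
    (hS : S ⊆ S') : d.Ok σ' S' E w1 B CB ν δ Cν Cδ where
  g := h.g.sub hσ hS
  Kn0 := fun m m' r hr => h.Kn0 m m' r ⟨hr.1, hr.2.trans hσ⟩
  Kp0 := fun m m' r hr => h.Kp0 m m' r ⟨hr.1, hr.2.trans hσ⟩
  Ke0 := fun m m' r hr => h.Ke0 m m' r ⟨hr.1, hr.2.trans hσ⟩
  Km0 := fun m m' r hr => h.Km0 m m' r ⟨hr.1, hr.2.trans hσ⟩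
  C := fun r hr hr' => h.C r ⟨hr.1, hr.2.trans hσ⟩ fun h2 => hr' (hS h2)

theorem SysD.InT.sub [Fintype J] [Nonempty J] [Fintype M] [Nonempty M] [Fintype Λ]
    {q : SysD J M Λ} {lq : Bool} (h : q.InT lq σ S) {σ' : ℝ} (hσ : σ' ≤ σ) (hS : S ⊆ S') :
    q.InT lq σ' S' where
  hm0 := h.hm0
  ht := h.ht.sub hσ hS
  hp := h.hp.sub hσ hS
  hP1 := fun r hr => h.hP1 r ⟨hr.1, hr.2.trans hσ⟩
  hP2 := fun r hr => h.hP2 r ⟨hr.1, hr.2.trans hσ⟩

end sub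

/-! ### the zero system -/

/-- the zero family -/
def Fam.z (J : Type*) : Fam J := ⟨fun _ _ _ _ => 0, fun _ _ _ _ => 0, fun _ _ _ => 0,
  fun _ _ _ => 0⟩

/-- **the zero system**: no killing, no sums -/
noncomputable def SysD.z0 {J M Λ : Type*} (q : SysD J M Λ) : SysD J M Λ :=
  { q with
    E := q.E.wk (fun _ _ => 0) (fun _ _ => 0) (fun _ => 0) (fun _ => 0)
    dt := { q.dt with f := Fam.z J }
    dp := { q.dp with g := Fam.z M } }

section z0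

variable {J M Λ : Type*} {σ : ℝ} {S : Finset ℝ}

theorem Fam.z_ok (hS : (0 : ℝ) ∈ S) : (Fam.z J).Ok 0 S where
  cΦ := fun _ _ _ => continuousOn_const
  dΦ := fun _ _ _ r hr hr' => absurd (by rw [le_antisymm hr.2 hr.1]; exact hS) hr'
  cC := fun _ _ => continuousOn_const
  dC := fun _ _ r hr hr' => absurd (by rw [le_antisymm hr.2 hr.1]; exact hS) hr'
  Φ0 := fun _ _ _ _ _ _ => le_rfl
  C0 := fun _ _ _ _ => le_rfl
  C1 := fun _ _ _ _ _ => le_rfl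

theorem SysD.InT.z0 [Fintype J] [Nonempty J] [Fintype M] [Nonempty M] [Fintype Λ]
    {q : SysD J M Λ} {lq : Bool} (h : q.InT lq σ S) (σ0 : 0 ≤ σ) {S' : Finset ℝ}
    (hS : (0 : ℝ) ∈ S') : q.z0.InT lq 0 S' := by
  have no : ∀ {p : Prop} {r : ℝ}, r ∈ Icc (0 : ℝ) 0 → r ∉ S' → p := fun {p r} hr hr' =>
    absurd (by rw [le_antisymm hr.2 hr.1]; exact hS) hr'
  have up : ∀ r ∈ Icc (0 : ℝ) 0, r ∈ Icc 0 σ := fun r hr => ⟨hr.1, hr.2.trans σ0⟩
  exact {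
    hm0 := h.hm0
    ht := {
      f := Fam.z_ok hS
      kD := fun r hr hr' => no hr hr'
      kE := fun r hr hr' => no hr hr'
      oD := fun r hr hr' => no hr hr'
      oE := fun r hr hr' => no hr hr'
      c10 := fun r hr => h.ht.c10 r (up r hr)
      c40 := fun r hr => h.ht.c40 r (up r hr)
      sn := fun r hr hr' => no hr hr'
      se := fun r hr hr' => no hr hr'
      sd := fun r hr hr' => no hr hr'
      Gn0 := fun j m r hr => h.ht.Gn0 j m r (up r hr)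
      Gd0 := fun j m r hr => h.ht.Gd0 j m r (up r hr)
      C := fun r hr hr' => no hr hr' }
    hp := {
      g := Fam.z_ok hS
      Kn0 := fun m m' r hr => h.hp.Kn0 m m' r (up r hr)
      Kp0 := fun m m' r hr => h.hp.Kp0 m m' r (up r hr)
      Ke0 := fun m m' r hr => h.hp.Ke0 m m' r (up r hr)
      Km0 := fun m m' r hr => h.hp.Km0 m m' r (up r hr)
      C := fun r hr hr' => no hr hr' }
    hP1 := fun r hr => by
      have k := (h.hP1 r (up r hr)).s0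
      exact ⟨k, fun _ _ => k, k⟩
    hP2 := fun r hr => by
      have k := (h.hP2 r (up r hr)).s0
      exact ⟨k, fun _ _ => k, k⟩ }

theorem SysCom.z0 (q : SysD J M Λ) : SysCom 0 q.z0 q where
  E := ⟨fun _ _ => rfl, fun _ _ => rfl, fun _ _ => rfl, fun _ _ => rfl, fun _ _ => rfl,
    fun _ _ => rfl, fun _ _ => rfl, fun _ _ => rfl⟩
  wv := rfl
  B := fun _ _ _ _ => rfl
  CB := fun _ _ _ _ => rfl
  w1 := rfl
  B1 := fun _ _ _ _ => rfl
  CB1 := fun _ _ _ _ => rfl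
  m0 := rfl
  dp := ⟨fun _ _ _ => rfl, fun _ _ _ => rfl, fun _ _ _ _ => rfl, fun _ _ _ _ => rfl,
    fun _ _ _ _ => rfl, fun _ _ _ _ => rfl⟩

/-- the scalars with zero majorants -/
theorem KPt.z0 {lq : Bool} {ym Ph c1 c4 κD κE S1 S2 κ m Mt : ℝ} {H E RD RE : ℝ → ℝ}
    (h : KPt lq ym Ph c1 c4 κD κE S1 S2 κ m Mt H E RD RE) :
    KPt lq ym Ph c1 c4 κD κE S1 S2 κ m Mt (fun _ => 0) (fun _ => 0) (fun _ => 0)
      fun _ => 0 := by
  have k := h.scale le_rfl zero_le_one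
  simp only [zero_mul] at k
  exact k

/-- the zero family vanishes -/
theorem fmat_z (J : Type*) : FMat 0 (Fam.z J) := ⟨fun _ _ _ => rfl, fun _ _ => rfl⟩

end z0

/-! ### the conditions of a system from the world, the tables and the killing -/

section gen

variable {V : Type*} [Fintype V] [DecidableEq V] {x : V → V → ℝ} {P : V → Prop}
  [DecidablePred P] {D : Finset V} {Z : Hzd} {T : ℝ → V → V → ℝ} {σ : ℝ} {S : Finset ℝ}
  {gp gm : Finset V → V → V → ℝ → ℝ} {J M Λ : Type*} [Fintype J] [Nonempty J] [Fintype M]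
  [Nonempty M] [Fintype Λ] {q : SysD J M Λ} {lq : Bool} {ym Ph : ℝ} {m : ℝ → ℝ}
  {H E : ℝ → ℝ → ℝ} {Hp Ep : ℝ → ℝ} {Fe Ge : Finset V → V → V → ℝ}

theorem wt_le_one (hP : RCG.Ct.Wt x P 1) (u v : V) : x u v ≤ 1 :=
  (Finset.single_le_sum (f := fun b => x u b) (fun b _ => hP.nonneg u b)
    (Finset.mem_univ v)).trans (hP.row u)

/-- no end values, nonnegative bounds -/
theorem endV_zf' (hP : RCG.Ct.Wt x P 1) (hx : RCM.Wt x) (hD : D.card ≤ 2) (w1 : M → Pt → ℝ)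
    {ν δ : M → Pt → ℝ} {Cν Cδ : M → ℝ} (ν0 : ∀ m p, Sa p → 0 ≤ ν m p)
    (δ0 : ∀ m p, Sa p → 0 ≤ δ m p) (Cν0 : ∀ m, 0 ≤ Cν m) (Cδ0 : ∀ m, 0 ≤ Cδ m) :
    EndV x P D w1 ZF ZF (fun m => bfu x P D (ν m) (Cν m)) (fun m => bfu x P D (δ m) (Cδ m))
      ν δ Cν Cδ where
  hG := ⟨fun _ _ _ => le_rfl, fun _ _ _ => rfl, fun _ => mf_zero _, fun m i hi F hF hiF => by
    refine le_trans (le_of_eq ?_) ((fb_bfu hP hx hD (ν0 m) (Cν0 m)).nn i hi F hF hiF)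
    simp [ZF]⟩
  hF := ⟨fun _ _ _ => le_rfl, fun _ _ _ => rfl, fun _ => mf_zero _, fun m i hi F hF hiF => by
    refine le_trans (le_of_eq ?_) ((fb_bfu hP hx hD (δ0 m) (Cδ0 m)).nn i hi F hF hiF)
    simp [ZF]⟩
  fν := fun m => fb_bfu hP hx hD (ν0 m) (Cν0 m)
  fδ := fun m => fb_bfu hP hx hD (δ0 m) (Cδ0 m)

/-- **the conditions of a system without end values** -/
theorem SysD.InT.in_zf (h : q.InT lq σ S)
    (env : WEnv x P D σ S (Z.hh x P) T q.E.R q.E.Rp q.E.W q.E.Wp)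
    (rw : RwB x P D σ S gp gm q.wv (fun s m e F r => bfu x P D (q.B s m r) (q.CB s m r) e F)
      q.B q.CB)
    (rw1 : RwB x P D σ S gp gm q.w1 (fun s m e F r => bfu x P D (q.B1 s m r) (q.CB1 s m r) e F)
      q.B1 q.CB1)
    (ν0 : ∀ m p, Sa p → 0 ≤ q.ν m p) (δ0 : ∀ m p, Sa p → 0 ≤ q.δ m p)
    (Cν0 : ∀ m, 0 ≤ q.Cν m) (Cδ0 : ∀ m, 0 ≤ q.Cδ m)
    (hk : KBd x P (Z.hh x P) σ H E Hp Ep)
    (hK : KTm lq σ ym Ph q.E.c1 q.E.c4 q.E.κD q.E.κE q.S1f q.S2f q.κ m q.Mt H E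
      q.E.RD q.E.RE) (xm : ∀ u v, x u v ≤ ym) (Ph0 : 0 ≤ Ph) :
    q.In lq x P D (Z.hh x P) T σ S gp gm ZF ZF where
  toIn0 := h.in0 env rw rw1 (endV_zf' env.hP env.hx env.hD q.w1 ν0 δ0 Cν0 Cδ0)
  hK := hK.kre hk env.hP (wt_le_one env.hP) xm (fun r u v => Z.hh_symm env.hP r u v) _ _ _
  hX := hK.kex_zf hk env.hP xm Ph0

/-- the bounds of the end values by a number -/
theorem bfu_le (hP : RCG.Ct.Wt x P 1) (hx : RCM.Wt x) (hD : D.card ≤ 2) {B : Pt → ℝ} {C s : ℝ}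
    (h : ∀ p, Sa p → B p ≤ s) (hC : C ≤ s) (s0 : 0 ≤ s) {c : V} (hc : c ∈ Dᶜ) (F : Finset V) :
    bfu x P D B C c F ≤ s := by
  refine (infF_le (fun _ : Unit => B) (fun _ => C) c F () none).trans ?_
  exact vf_le hx (fun hPe => h _ (wd_sat hP hx hD none hc hPe F)) hC s0

/-- **the conditions of a system with released end values** -/
theorem SysD.InT.in_rel (h : q.InT lq σ S)
    (env : WEnv x P D σ S (Z.hh x P) T q.E.R q.E.Rp q.E.W q.E.Wp)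
    (rw : RwB x P D σ S gp gm q.wv (fun s m e F r => bfu x P D (q.B s m r) (q.CB s m r) e F)
      q.B q.CB)
    (rw1 : RwB x P D σ S gp gm q.w1 (fun s m e F r => bfu x P D (q.B1 s m r) (q.CB1 s m r) e F)
      q.B1 q.CB1)
    (he : EndV x P D q.w1 Fe Ge (fun m => bfu x P D (q.ν m) (q.Cν m))
      (fun m => bfu x P D (q.δ m) (q.Cδ m)) q.ν q.δ q.Cν q.Cδ)
    (hk : KBd x P (Z.hh x P) σ H E Hp Ep)
    (hK : KTm lq σ ym Ph q.E.c1 q.E.c4 q.E.κD q.E.κE q.S1f q.S2f q.κ m q.Mt H E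
      q.E.RD q.E.RE) (xm : ∀ u v, x u v ≤ ym) (Ph0 : 0 ≤ Ph)
    (δS : ∀ p, Sa p → q.δ q.m0 p ≤ Ph) (CδS : q.Cδ q.m0 ≤ Ph) :
    q.In lq x P D (Z.hh x P) T σ S gp gm Fe Ge where
  toIn0 := h.in0 env rw rw1 he
  hK := hK.kre hk env.hP (wt_le_one env.hP) xm (fun r u v => Z.hh_symm env.hP r u v) _ _ _
  hX := hK.kex_rel hk env.hP xm he.hF h.hm0 fun c hc F _ _ =>
    bfu_le env.hP env.hx env.hD δS CδS Ph0 hc F

end gen

/-! ### zero ends -/

/-- a family of tables whose end values are zero vanishes at the end -/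
theorem fmat_fam {J : Type*} {FF : (ℕ → ℝ) → Pt → ℝ} {N : ℕ} {ft : ℕ → Pt → ℝ} {t : ℕ → ℝ}
    {n : ℕ} {z s : ℝ} {d : TFam J} (hF : Lf FF N ft) (h : d.End0 N n) (hs : s + z = t n) :
    FMat s (d.fam FF t n z) where
  m := fun b j p => by
    show FF (fun i => (d.a b j i).f t n (s + z)) p = 0
    rw [hF.eq]
    refine Finset.sum_eq_zero fun i hi => ?_
    rw [hs, Tq.end', h.a b j i (Finset.mem_range.1 hi), zero_mul]
  c := fun b j => by
    show (d.c b j).f t n (s + z) = 0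
    rw [hs, Tq.end', h.c b j]

/-! ### one table system -/

section one

variable {J M Λ : Type*} [Fintype J] [Nonempty J] [Fintype M] [Nonempty M] [Fintype Λ]
  {FF : (ℕ → ℝ) → Pt → ℝ} {N : ℕ} {ft : ℕ → Pt → ℝ} {q : TSys J M Λ} {lq : Bool}
  {ym Ph z σ : ℝ}

/-- the scalars and majorants over time -/
theorem TSys.Ok.ktm (h : q.Ok FF N lq ym Ph) (z0 : q.t 0 ≤ z) (σn : σ + z ≤ q.t q.n) :
    KTm lq σ ym Ph (q.E.shift z).c1 (q.E.shift z).c4 (q.E.shift z).κD (q.E.shift z).κE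
      (fun r => q.S1 (r + z)) (fun r => q.S2 (r + z)) (fun r => q.κ (r + z))
      (fun r => q.m (r + z)) (fun r => q.Mt (r + z)) (fun r => q.uH (r + z))
      (fun r => q.uE (r + z)) (q.E.shift z).RD (q.E.shift z).RE :=
  fun r hr => h.s (r + z) ⟨by linarith [hr.1], by linarith [hr.2]⟩

/-- the conditions which do not mention the world -/
theorem TSys.Ok.inT (h : q.Ok FF N lq ym Ph) (hF : Lf FF N ft) (z0 : q.t 0 ≤ z)
    (σn : σ + z ≤ q.t q.n) (S : Finset ℝ) : (q.dat FF z).InT lq σ S where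
  hm0 := h.w1
  ht := h.tt.dt1 hF h.hm h.hn z0 σn S
  hp := h.tp.dp1 hF h.hm h.hn z0 σn S
  hP1 := fun r hr => h.v1 z r ⟨by linarith [hr.1], by linarith [hr.2]⟩
  hP2 := fun r hr => h.v2 z r ⟨by linarith [hr.1], by linarith [hr.2]⟩

/-- the killing as supersolutions -/
theorem TSys.Ok.sup (h : q.Ok FF N lq ym Ph) (z0 : q.t 0 ≤ z) (σn : σ + z ≤ q.t q.n) :
    KSup σ ym (fun r => q.E.R (r + z))
      (fun r => px q.k.N fun i => (q.k.H i).f q.t q.n (r + z))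
      (fun r => px q.k.N fun i => (q.k.H i).sl q.t q.n (r + z))
      (fun r => px q.k.N fun i => (q.k.E i).f q.t q.n (r + z))
      (fun r => px q.k.N fun i => (q.k.E i).sl q.t q.n (r + z)) :=
  h.k.sup h.hm h.hn z0 σn

/-- the functions are below the used ones -/
theorem TSys.Ok.leH (h : q.Ok FF N lq ym Ph) {ρ : ℝ} (hρ : ρ ∈ Icc (q.t 0) (q.t q.n))
    {y : ℝ} (y0 : 0 ≤ y) : px q.k.N (fun i => (q.k.H i).f q.t q.n ρ) y ≤ q.uH ρ y :=
  px_mono y0 fun i hi => (h.k.H i hi).le h.hm h.hn hρ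

theorem TSys.Ok.leE (h : q.Ok FF N lq ym Ph) {ρ : ℝ} (hρ : ρ ∈ Icc (q.t 0) (q.t q.n))
    {y : ℝ} (y0 : 0 ≤ y) : px q.k.N (fun i => (q.k.E i).f q.t q.n ρ) y ≤ q.uE ρ y :=
  px_mono y0 fun i hi => (h.k.E i hi).le h.hm h.hn hρ

/-- **the bounds of the killing at a table end** -/
theorem TSys.Ok.kbd {V : Type*} [Fintype V] [DecidableEq V] {x : V → V → ℝ} {P : V → Prop}
    {hb : ℝ → V → V → ℝ} (h : q.Ok FF N lq ym Ph) (z0 : q.t 0 ≤ z) (σ0 : 0 ≤ σ)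
    (σn : σ + z ≤ q.t q.n) (x0 : ∀ u v, 0 ≤ x u v) (x1 : ∀ u v, x u v ≤ 1)
    (xm : ∀ u v, x u v ≤ ym)
    (kr : ∀ r ∈ Icc 0 σ, Krn x P (hb r) (q.E.R (r + z)) (q.E.Rp (r + z)))
    (hc : ∀ u v, ContinuousOn (fun r => hb r u v) (Icc 0 σ)) :
    KBd x P hb σ (fun r => q.uH (r + z)) (fun r => q.uE (r + z))
      (fun r => q.k.Hp.up q.t q.n (r + z)) fun r => q.k.Ep.up q.t q.n (r + z) :=
  h.k.kbd h.hm h.hn z0 σn σ0 x0 x1 (fun u v _ _ => xm u v) kr hc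

end one

/-! ### other rates -/

theorem KSup.congr {s ym : ℝ} {R R' H H' E E' : ℝ → ℝ → ℝ} (h : KSup s ym R H H' E E')
    (hR : ∀ r ∈ Icc 0 s, R r = R' r) : KSup s ym R' H H' E E' where
  R0 := fun y hy r hr => by
    rw [← hR r hr]
    exact h.R0 y hy r hr
  dH := h.dH
  cH := fun y hy r hr => by
    rw [← hR r hr]
    exact h.cH y hy r hr
  H0 := h.H0
  dE := h.dE
  cE := fun y hy r hr => by
    rw [← hR r hr]
    exact h.cE y hy r hr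
  E0 := h.E0

/-- a linear function which vanishes at the time zero -/
theorem lin0_deriv (A r : ℝ) : HasDerivAt (fun r : ℝ => -(r * A)) (-A) r := by
  have h : HasDerivAt (fun r : ℝ => r * A) A r := by
    simpa using (hasDerivAt_id r).mul_const A
  exact h.neg

/-- supersolutions of the end zero -/
theorem KSup.z0 {w ym : ℝ} {R H H' E E' : ℝ → ℝ → ℝ} (h : KSup w ym R H H' E E')
    (w0 : 0 ≤ w) : KSup 0 ym R (fun r y => -(r * H' 0 y)) (fun _ y => H' 0 y)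
      (fun r y => -(r * E' 0 y)) fun _ y => E' 0 y := by
  have up : ∀ r ∈ Icc (0 : ℝ) 0, r ∈ Icc 0 w := fun r hr => ⟨hr.1, hr.2.trans w0⟩
  have z : ∀ r ∈ Icc (0 : ℝ) 0, r = 0 := fun r hr => le_antisymm hr.2 hr.1
  exact {
    R0 := fun y hy r hr => h.R0 y hy r (up r hr)
    dH := fun y _ r _ => lin0_deriv _ r
    cH := fun y hy r hr => by
      have := h.cH y hy r (up r hr)
      rw [z r hr] at this ⊢
      exact this
    H0 := fun y _ r hr => by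
      show 0 ≤ -(r * H' 0 y)
      rw [z r hr]
      simp
    dE := fun y _ r _ => lin0_deriv _ r
    cE := fun y hy r hr => by
      have h1 := h.cE y hy r (up r hr)
      have h2 := mul_nonneg (h.R0 y hy r (up r hr)) (mul_nonneg hy.1 (h.E0 y hy r (up r hr)))
      rw [z r hr] at h1 h2 ⊢
      show R 0 y * (1 + y * -(0 * E' 0 y)) ≤ E' 0 y
      nlinarith
    E0 := fun y _ r hr => by
      show 0 ≤ -(r * E' 0 y)
      rw [z r hr]
      simp }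

/-! ### two ends -/

section two

variable {J J' M Λ : Type*} [Fintype J] [Nonempty J] [Fintype J'] [Nonempty J'] [Fintype M]
  [Nonempty M] [Fintype Λ]
  {FF : (ℕ → ℝ) → Pt → ℝ} {N : ℕ} {ft : ℕ → Pt → ℝ} {q : TSys J M Λ} {q' : TSys J' M Λ}
  {lq : Bool} {ym Ph Ph1 z s w θ : ℝ} {mm : ℕ}

/-- the common part of the systems of two ends -/
theorem TSys.Adj.com (ha : TSys.Adj ym q q' mm) (z0 : q.t 0 ≤ z) (hs : s + z = q.t q.n) :
    SysCom s (q.dat FF z) (q'.dat FF z) := by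
  have me : ∀ r ∈ Icc 0 s, r + z ∈ Icc (q.t 0) (q.t q.n) := fun r hr =>
    ⟨by linarith [hr.1], by linarith [hr.2]⟩
  exact {
    E := ⟨fun r hr => ha.R _ (me r hr), fun r hr => ha.Rp _ (me r hr),
      fun r hr => ha.W _ (me r hr), fun r hr => ha.Wp _ (me r hr),
      fun r hr => ha.κD _ (me r hr), fun r hr => ha.κE _ (me r hr),
      fun r hr => ha.c1 _ (me r hr), fun r hr => ha.c4 _ (me r hr)⟩
    wv := ha.wv
    B := fun b m r hr => ha.B b m _ (me r hr)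
    CB := fun b m r hr => ha.CB b m _ (me r hr)
    w1 := ha.w1
    B1 := fun b m r hr => ha.B1 b m _ (me r hr)
    CB1 := fun b m r hr => ha.CB1 b m _ (me r hr)
    m0 := ha.m0
    dp := ⟨fun m r hr => ha.Θ m _ (me r hr), fun m r hr => ha.CΘ m _ (me r hr),
      fun m m' r hr => ha.Kn m m' _ (me r hr), fun m m' r hr => ha.Kp m m' _ (me r hr),
      fun m m' r hr => ha.Ke m m' _ (me r hr), fun m m' r hr => ha.Km m m' _ (me r hr)⟩ }

theorem TSys.Nl.dat (h : q.Nl) : (q.dat FF z).Nl := ⟨h.ν, h.δ, h.Cν, h.Cδ⟩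

variable (h : q.Ok FF N lq ym Ph1) (h' : q'.Ok FF N lq ym Ph) (hPh : Ph ≤ Ph1)
  (ha : TSys.Adj ym q q' mm) (z0 : q.t 0 ≤ z) (w0 : 0 < w) (hs : s + z = q.t q.n)
  (hw : s + w + z = q'.t q'.n) (h0 : 0 ≤ θ) (h1 : θ ≤ 1)

include h h' hPh ha z0 w0 hs hw h0 h1 in
/-- the scalars and majorants of the mixed end -/
theorem TSys.mix_ktm :
    KTm lq (s + θ * w) ym Ph (q'.E.shift z).c1 (q'.E.shift z).c4 (q'.E.shift z).κD
      (q'.E.shift z).κE (cs s θ (fun r => q.S1 (r + z)) fun r => q'.S1 (r + z))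
      (cs s θ (fun r => q.S2 (r + z)) fun r => q'.S2 (r + z))
      (cs s θ (fun r => q.κ (r + z)) fun r => q'.κ (r + z))
      (cs s θ (fun r => q.m (r + z)) fun r => q'.m (r + z))
      (cs s θ (fun r => q.Mt (r + z)) fun r => q'.Mt (r + z))
      (glu2 s w θ (fun r => q.uH (r + z)) fun r => q'.uH (r + z))
      (glu2 s w θ (fun r => q.uE (r + z)) fun r => q'.uE (r + z))
      (glu2 s w θ (q.E.shift z).RD (q'.E.shift z).RD)
      (glu2 s w θ (q.E.shift z).RE (q'.E.shift z).RE) := by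
  have me : ∀ r ∈ Icc 0 s, r + z ∈ Icc (q.t 0) (q.t q.n) := fun r hr =>
    ⟨by linarith [hr.1], by linarith [hr.2]⟩
  have k1 : KTm lq s ym Ph (q'.E.shift z).c1 (q'.E.shift z).c4 (q'.E.shift z).κD
      (q'.E.shift z).κE (fun r => q.S1 (r + z)) (fun r => q.S2 (r + z)) (fun r => q.κ (r + z))
      (fun r => q.m (r + z)) (fun r => q.Mt (r + z)) (fun r => q.uH (r + z))
      (fun r => q.uE (r + z)) (q.E.shift z).RD (q.E.shift z).RE := fun r hr => by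
    have k := (h.ktm (σ := s) z0 hs.le r hr).anti hPh
    have e1 : (q.E.shift z).c1 r = (q'.E.shift z).c1 r := ha.c1 _ (me r hr)
    have e2 : (q.E.shift z).c4 r = (q'.E.shift z).c4 r := ha.c4 _ (me r hr)
    have e3 : (q.E.shift z).κD r = (q'.E.shift z).κD r := ha.κD _ (me r hr)
    have e4 : (q.E.shift z).κE r = (q'.E.shift z).κE r := ha.κE _ (me r hr)
    rw [e1, e2, e3, e4] at k
    exact k
  exact k1.mix (h'.ktm (σ := s + w) (by rw [← ha.t0]; exact z0) hw.le)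
    (fun r hr => ha.o _ (me r hr)) w0 h0 h1

variable (hF : Lf FF N ft) (hl : q.End0 N) (hz : q.Nl) (hz' : q'.Nl) (s0 : 0 ≤ s)

include h h' ha z0 w0 hs hw h0 h1 hF hl hz hz' s0 in
/-- **the conditions of the mixed end which do not mention the world** -/
theorem TSys.mix_inT {S : Finset ℝ} {S' : Finset ℝ} (hS : glS s w θ S ⊆ S') :
    (SysD.mix s w θ (q.dat FF z) (q'.dat FF z)).InT lq (s + θ * w) S' := by
  have z0' : q'.t 0 ≤ z := by rw [← ha.t0]; exact z0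
  exact SysD.InT.sub (SysD.InT.mix (h.inT hF z0 hs.le S) (h'.inT hF z0' hw.le S)
    (ha.com z0 hs) hz.dat hz'.dat (fmat_fam hF hl.tt hs) (fmat_fam hF hl.tp hs) s0 w0 h0 h1
    (fun r hr => ((h'.ktm z0' hw.le) r hr).D0) (fun r hr => ((h'.ktm z0' hw.le) r hr).E0))
    le_rfl hS

include h h' ha z0 w0 hs hw h0 h1 s0 in
/-- **the bounds of the killing of the mixed end** -/
theorem TSys.mix_kbd {V : Type*} [Fintype V] [DecidableEq V] {x : V → V → ℝ} {P : V → Prop}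
    {hb : ℝ → V → V → ℝ} (x0 : ∀ u v, 0 ≤ x u v) (xm : ∀ u v, x u v ≤ ym)
    (xz : ∀ u v, ¬(P u ∧ P v) → x u v = 0)
    (kr : ∀ r ∈ Icc 0 (s + w), Krn x P (hb r) (q'.E.R (r + z)) (q'.E.Rp (r + z)))
    (hc : ∀ u v, ContinuousOn (fun r => hb r u v) (Icc 0 (s + w))) :
    KBd x P hb (s + θ * w)
      (glu2 s w θ (fun r => q.uH (r + z)) fun r => q'.uH (r + z))
      (glu2 s w θ (fun r => q.uE (r + z)) fun r => q'.uE (r + z)) (fun _ => 0) fun _ => 0 := by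
  have z0' : q'.t 0 ≤ z := by rw [← ha.t0]; exact z0
  have me : ∀ r ∈ Icc 0 s, r + z ∈ Icc (q.t 0) (q.t q.n) := fun r hr =>
    ⟨by linarith [hr.1], by linarith [hr.2]⟩
  have me' : ∀ r ∈ Icc 0 (s + w), r + z ∈ Icc (q'.t 0) (q'.t q'.n) := fun r hr =>
    ⟨by linarith [hr.1], by linarith [hr.2]⟩
  have k1 := (h.sup (σ := s) z0 hs.le).congr (R' := fun r => q'.E.R (r + z))
    fun r hr => ha.R _ (me r hr)
  have k2 := h'.sup (σ := s + w) z0' hw.le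
  exact k1.mixU k2 s0 w0 h0 h1
    (fun y hy r r' h1 h2 h3 => ha.mo y hy _ _ (by linarith) (by linarith) (by linarith))
    x0 (fun u v _ _ => xm u v) (fun u v r hr => (kr r hr).b0 u v)
    (fun r hr u v hu hv => (kr r hr).l u v hu hv)
    (fun r hr u v hu => ((kr r hr).p u v hu).trans (le_of_eq (by rw [xz u v hu, zero_mul]))) hc
    (fun r hr y hy => h.leH (me r hr) hy.1) (fun r hr y hy => h.leE (me r hr) hy.1)
    (fun r hr y hy => h'.leH (me' r hr) hy.1) fun r hr y hy => h'.leE (me' r hr) hy.1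

end two

end Pool.Agent.RZ.RCO
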