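import Pool.Agent.RZ.RCO.Gg1
import Pool.Agent.RZ.RCO.Gs15

/-! The sum of level 2 over the actual time from the tables: table ends, mixed ends, the first
coarse cell (MP_73ccd0_lc). -/

set_option autoImplicit false

namespace Pool.Agent.RZ.RCO

open Set Pool.Agent.RZ.RCRSHalf Pool.Agent.RZ.RCG Pool.Agent.RZ.RCG.Ct
open Pool.Agent.RZ.RCN Pool.Agent.RZ.RCN.K

set_option linter.unusedSectionVars false

/-! ### weights at full points -/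

theorem Pt.Ok.full {p : Pt} (h : p.Ok) : p.full.Ok where
  k0 := h.k0
  MK := h.MK
  mM := le_rfl
  hH := le_rfl
  gG := le_rfl
  qQ := le_rfl
  sS := le_rfl
  eE := le_rfl
  f := h.F
  F := h.F

theorem Sa.full_ok {p : Pt} (h : Sa p) : p.full.Ok := by
  obtain ⟨_, _, _, h⟩ := h
  exact h.toOk.full

theorem fct_zero : Fct 0 0 0 0 0 0 0 0 where
  m0 := le_rfl
  h0 := le_rfl
  g0 := le_rfl
  q0 := le_rfl
  s0 := le_rfl
  e0 := le_rfl
  gh := le_rfl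
  sg := le_rfl
  sq := le_rfl
  hm := by norm_num
  qm := by norm_num
  em := by norm_num
  hk := fun t => by nlinarith [sq_nonneg t]
  gt := fun t => by nlinarith
  st := fun t => by nlinarith [sq_nonneg t]
  hQ := fun c hc => by
    have : 0 ≤ (2 - (0 : ℝ)) / (2 * c) := by positivity
    linarith
  eQ := fun c hc => by
    have : 0 ≤ (2 - (0 : ℝ)) / (8 * c) := by positivity
    simp only [sub_self, mul_zero, ne_eq, OfNat.ofNat_ne_zero, not_false_eq_true,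
      zero_pow, zero_div, zero_add, add_zero]
    exact this
  eH := fun c hc => by
    have : 0 ≤ (2 - (0 : ℝ)) / (2 * c) := by positivity
    simp only [mul_zero, zero_div, zero_add, sub_zero]
    simpa using this
  km := by norm_num
  sl := by norm_num
  he := by norm_num
  et := fun t => by norm_num
  e2 := fun c t hc => by
    have : 0 ≤ (2 - (0 : ℝ)) / (8 * c) := by positivity
    simp only [mul_zero, sub_self, add_zero, zero_add]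
    exact this

theorem Pt.Pend.full_ok {p : Pt} {x a b : ℝ} (h : p.Pend x a b) : p.full.Ok := by
  have e1 : p.full = ⟨0, 0, 0, 0, 0, 0, 0, 0, 0, 0, 0, 0, 0⟩ := by
    unfold Pt.full
    rw [h.k, h.M, h.H, h.G, h.Q, h.S, h.E, h.xz]
    norm_num
  rw [e1]
  exact ⟨le_rfl, by norm_num, le_rfl, le_rfl, le_rfl, le_rfl, le_rfl, le_rfl, fct_zero, fct_zero⟩

/-! ### the tables -/

/-- **the checks of the tables of the sum of level 2** of the targets of `q` and the positions of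
`q'` -/
structure TKs.Ok {J M Λ J' M' Λ' : Type*} [Fintype M'] (FF : (ℕ → ℝ) → Pt → ℝ) (N : ℕ)
    (q : TSys J M Λ) (q' : TSys J' M' Λ') (x : TKs M') : Prop where
  hm : Msh x.t x.n
  hn : 0 < x.n
  k : x.k.Ok FF N x.t x.n (kenv q.E q'.E) q'.w1 q.tt.Ψn q.tt.Ψd q.tt.Cn q.tt.Cd q'.ν q'.δ
    fun s m ρ p => q'.tp.f.U FF q'.t q'.n s m ρ p
  sn : ∀ ρ ∈ Icc (x.t 0) (x.t x.n), ∀ p : Pt, p.Sat 0 0 0 → p = p.full →
    0 ≤ FF (fun i => (x.k.k i).sl x.t x.n ρ) p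

/-- the end values vanish -/
def TKs.End0 {M : Type*} (N : ℕ) (x : TKs M) : Prop := ∀ i < N, (x.k.k i).w x.n = 0

/-- the function of the sum of level 2 -/
noncomputable def TKs.K {M : Type*} (FF : (ℕ → ℝ) → Pt → ℝ) (x : TKs M) (z : ℝ) : ℝ → Pt → ℝ :=
  fun r p => FF (fun i => (x.k.k i).f x.t x.n (r + z)) p

/-- its derivative -/
noncomputable def TKs.K' {M : Type*} (FF : (ℕ → ℝ) → Pt → ℝ) (x : TKs M) (z : ℝ) :
    ℝ → Pt → ℝ := fun r p => -FF (fun i => (x.k.k i).sl x.t x.n (r + z)) p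

/-- **the condition of the sum of level 2** of the targets of `q` and the positions of `q'` -/
def SysD.Kc {J M Λ J' M' Λ' : Type*} [Fintype M'] (q : SysD J M Λ) (q' : SysD J' M' Λ') (σ : ℝ)
    (S : Finset ℝ) (K K' : ℝ → Pt → ℝ) (Gn Ge : M' → ℝ → ℝ) : Prop :=
  KcOk σ S q.E.R q.E.Rp q.E.W q.E.Wp q'.w1 q.dt.Ψn q.dt.Ψd q.dt.Cn q.dt.Cd q'.E.RD q'.E.RDp
    q'.ν q'.δ q'.E.κD q'.E.c4 q'.dp.g.Φ K K' Gn Ge

section tabs

variable {J M Λ J' M' Λ' : Type*} [Fintype M'] [Nonempty M'] [Fintype J'] [Nonempty J']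
  [Fintype Λ'] {FF : (ℕ → ℝ) → Pt → ℝ} {N : ℕ} {ft : ℕ → Pt → ℝ}
  {q : TSys J M Λ} {q' : TSys J' M' Λ'} {x : TKs M'} {z σ s : ℝ}

/-- **the condition over the actual time from the tables** -/
theorem TKs.Ok.kc (h : x.Ok FF N q q') (hF : Lf FF N ft) {lq : Bool} {ym Ph : ℝ}
    (hq : q'.Ok FF N lq ym Ph) (t0 : q'.t 0 = x.t 0) (tn : x.t x.n ≤ q'.t q'.n)
    (z0 : x.t 0 ≤ z) (σ0 : 0 ≤ σ) (hσ : σ + z ≤ x.t x.n) (S : Finset ℝ) :
    SysD.Kc (q.dat FF z) (q'.dat FF z) σ S (x.K FF z) (x.K' FF z)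
      (fun m r => x.k.Gn m (r + z)) fun m r => x.k.Ge m (r + z) := by
  refine h.k.kc hF z0 hσ (Or.inr h.sn) σ0 (fun ρ hρ => ?_) S (fun b m r hr p hp => ?_)
  · exact hq.tp.c40 ρ ⟨by rw [t0]; exact hρ.1, hρ.2.trans tn⟩
  · exact hq.tp.fam.le hF hq.hm hq.hn b m ⟨by rw [t0]; linarith [hr.1], by linarith [hr.2]⟩ hp

/-- the function is nonnegative at full points -/
theorem TKs.Ok.nn (h : x.Ok FF N q q') (hF : Lf FF N ft) {p : Pt} (hp : p.Sat 0 0 0)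
    (hf : p = p.full) {r : ℝ} (hr : r + z ∈ Icc (x.t 0) (x.t x.n)) : 0 ≤ x.K FF z r p := by
  have d : ∀ r : ℝ, HasDerivAt (fun r => FF (fun i => (x.k.k i).f x.t x.n r) p)
      (-FF (fun i => (x.k.k i).sl x.t x.n r) p) r := fun r => by
    rw [← hF.neg]
    exact hF.deriv (f' := fun r i => -(x.k.k i).sl x.t x.n r) fun i _ => Tq.deriv x.t x.n _ r
  have he : 0 ≤ FF (fun i => (x.k.k i).f x.t x.n (x.t x.n)) p := by
    have e : (fun i => (x.k.k i).f x.t x.n (x.t x.n)) = fun i => (x.k.k i).w x.n :=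
      funext fun i => Tq.end' x.t x.n _
    rw [e]
    exact h.k.e0 p hp hf
  exact nonneg_of_slope (f := fun r => FF (fun i => (x.k.k i).f x.t x.n r) p)
    (f' := fun r => FF (fun i => (x.k.k i).sl x.t x.n r) p) (a := x.t 0) (b := x.t x.n)
    (fun r => d r) (fun r hr => h.sn r hr p hp hf) he _ hr

/-- the function vanishes at the end -/
theorem TKs.end_z (h : x.End0 N) (hF : Lf FF N ft) (hs : s + z = x.t x.n) (p : Pt) :
    x.K FF z s p = 0 := by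
  show FF (fun i => (x.k.k i).f x.t x.n (s + z)) p = 0
  rw [hs, hF.eq]
  refine Finset.sum_eq_zero fun i hi => ?_
  rw [Tq.end', h i (Finset.mem_range.1 hi), zero_mul]

end tabs

/-- the function of the mixed end -/
noncomputable def TKs.Km {M : Type*} (FF : (ℕ → ℝ) → Pt → ℝ) (s w θ z : ℝ) (x1 x2 : TKs M) :
    ℝ → Pt → ℝ := fun r p => glu s w θ (fun r => x1.K FF z r p) (fun r => x2.K FF z r p) r

noncomputable def TKs.Km' {M : Type*} (FF : (ℕ → ℝ) → Pt → ℝ) (s w θ z : ℝ) (x1 x2 : TKs M) :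
    ℝ → Pt → ℝ := fun r p => glu' s w θ (fun r => x1.K' FF z r p) (fun r => x2.K' FF z r p)
      (fun r => x2.K FF z r p) r

/-- the function of the first coarse cell -/
noncomputable def TKs.Kf {M : Type*} (FF : (ℕ → ℝ) → Pt → ℝ) (w θ z : ℝ) (x : TKs M) :
    ℝ → Pt → ℝ := fun r p => glu 0 w θ (fun _ => 0) (fun r => x.K FF z r p) r

noncomputable def TKs.Kf' {M : Type*} (FF : (ℕ → ℝ) → Pt → ℝ) (w θ z : ℝ) (x : TKs M) :
    ℝ → Pt → ℝ := fun r p => glu' 0 w θ (fun _ => 0) (fun r => x.K' FF z r p)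
      (fun r => x.K FF z r p) r

section mixP

variable {J M Λ J1 J2 M' Λ' : Type*} [Fintype M'] [Nonempty M'] [Fintype J1] [Nonempty J1]
  [Fintype J2] [Nonempty J2] [Fintype Λ'] {FF : (ℕ → ℝ) → Pt → ℝ} {N : ℕ} {ft : ℕ → Pt → ℝ}
  {q : TSys J M Λ} {p1 : TSys J1 M' Λ'} {p2 : TSys J2 M' Λ'} {x1 x2 : TKs M'}
  {z s w θ : ℝ} {lq : Bool} {ym Ph1 Ph : ℝ} {mp : ℕ} {S S' : Finset ℝ}

/-- **(P) the condition at a mixed end of the positions** -/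
theorem TKs.mixP (hF : Lf FF N ft) (h1 : x1.Ok FF N q p1) (h2 : x2.Ok FF N q p2)
    (o1 : p1.Ok FF N lq ym Ph1) (o2 : p2.Ok FF N lq ym Ph) (ha : TSys.Adj ym p1 p2 mp)
    (hz : p2.Nl) (hx : x1.End0 N) (t0 : x1.t 0 = p1.t 0) (t0' : x2.t 0 = p2.t 0)
    (e1 : x1.t x1.n = p1.t p1.n) (e2 : x2.t x2.n = p2.t p2.n)
    (eG : ∀ m, ∀ ρ ∈ Icc (p1.t 0) (p1.t p1.n), x1.k.Gn m ρ = x2.k.Gn m ρ)
    (eE : ∀ m, ∀ ρ ∈ Icc (p1.t 0) (p1.t p1.n), x1.k.Ge m ρ = x2.k.Ge m ρ)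
    (w10 : ∀ m, ∀ y : Pt, y.Ok → y = y.full → 0 ≤ p2.w1 m y)
    (z0 : p1.t 0 ≤ z) (s0 : 0 ≤ s) (w0 : 0 < w) (hs : s + z = p1.t p1.n)
    (hw : s + w + z = p2.t p2.n) (h0 : 0 ≤ θ) (hθ : θ ≤ 1) (hS : glS s w θ S ⊆ S') :
    SysD.Kc (q.dat FF z) (SysD.mix s w θ (p1.dat FF z) (p2.dat FF z)) (s + θ * w) S'
      (TKs.Km FF s w θ z x1 x2) (TKs.Km' FF s w θ z x1 x2) (fun m r => x2.k.Gn m (r + z))
      fun m r => x2.k.Ge m (r + z) := by
  have z0' : p2.t 0 ≤ z := by rw [← ha.t0]; exact z0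
  have k1 := h1.kc (z := z) (σ := s) hF o1 t0.symm e1.le (by rw [t0]; exact z0) s0
    (by rw [hs, e1]) S
  have k2 := h2.kc (z := z) (σ := s + w) hF o2 t0'.symm e2.le (by rw [t0']; exact z0')
    (by linarith) (by rw [hw, e2]) S
  have me : ∀ r ∈ Icc 0 s, r + z ∈ Icc (p1.t 0) (p1.t p1.n) := fun r hr =>
    ⟨by linarith [hr.1], by linarith [hr.2]⟩
  have me2 : ∀ r ∈ Icc 0 (s + w), r + z ∈ Icc (p2.t 0) (p2.t p2.n) := fun r hr =>
    ⟨by linarith [hr.1], by linarith [hr.2]⟩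
  have ew : (p1.dat FF z).w1 = (p2.dat FF z).w1 := ha.w1
  unfold SysD.Kc at k1 k2 ⊢
  rw [ew] at k1
  exact KcOk.mixP k1 k2 (TKs.end_z hx hF (by rw [hs, e1]))
    (fun p hp hf r hr => h2.nn hF hp hf (by
      rw [t0', e2]
      exact me2 r hr)) s0 w0 h0 hθ
    (fun r hr => ha.κD _ (me r hr)) (fun r hr => ha.c4 _ (me r hr))
    (fun m r hr => eG m _ (me r hr)) (fun m r hr => eE m _ (me r hr))
    (fun m p hp => w10 m _ hp.full_ok rfl) (fun m p y a b hp => w10 m _ hp.full_ok rfl)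
    (fun r hr => (o2.s _ (me2 r hr)).D0)
    (fun r hr => zero_le_one.trans (o2.s _ (me2 r hr)).h4)
    o1.ν0 o2.ν0 (fun m p hp => (hz.ν m p hp).le) o1.δ0 o2.δ0 (fun m p hp => (hz.δ m p hp).le)
    (fun r hr => ⟨fun y _ => (congrFun (glu2_lo hr.2) y).le, (glu_lo hr.2).le⟩)
    (fun r hl _ => ⟨fun y _ => (congrFun (glu2_hi hl) y).le, (glu_hi hl).le⟩)
    (fun b m r r0 hr p _ => (Fam.gd_lo b m hr p).le)
    (fun b m r hr hr' p hp => (Fam.gd_hi b m hr p).le) hS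

/-- **(P) the condition in the first coarse cell of the positions** -/
theorem TKs.fstP (hF : Lf FF N ft) (h2 : x2.Ok FF N q p2)
    (o2 : p2.Ok FF N lq ym Ph) (hz : p2.Nl)
    (t0' : x2.t 0 = p2.t 0) (e2 : x2.t x2.n = p2.t p2.n)
    (w10 : ∀ m, ∀ y : Pt, y.Ok → y = y.full → 0 ≤ p2.w1 m y)
    (z0' : p2.t 0 ≤ z) (w0 : 0 < w) (hw : w + z = p2.t p2.n) (h0 : 0 ≤ θ)
    (hθ : θ ≤ 1) (hS0 : (0 : ℝ) ∈ S) (hS : glS 0 w θ S ⊆ S') :
    SysD.Kc (q.dat FF z) (SysD.mix 0 w θ (SysD.z0 (p2.dat FF z)) (p2.dat FF z)) (0 + θ * w) S'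
      (TKs.Kf FF w θ z x2) (TKs.Kf' FF w θ z x2) (fun m r => x2.k.Gn m (r + z))
      fun m r => x2.k.Ge m (r + z) := by
  have k2 := h2.kc (z := z) (σ := 0 + w) hF o2 t0'.symm e2.le (by rw [t0']; exact z0')
    (by linarith) (by rw [zero_add, hw, e2]) S
  have k0 : (0 : ℝ) ∈ Icc 0 (0 + w) := ⟨le_rfl, by linarith⟩
  have me2 : ∀ r ∈ Icc 0 (0 + w), r + z ∈ Icc (p2.t 0) (p2.t p2.n) := fun r hr =>
    ⟨by linarith [hr.1], by linarith [hr.2]⟩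
  unfold SysD.Kc at k2 ⊢
  have k1 : KcOk 0 S (q.dat FF z).E.R (q.dat FF z).E.Rp (q.dat FF z).E.W (q.dat FF z).E.Wp
      (p2.dat FF z).w1 (q.dat FF z).dt.Ψn (q.dat FF z).dt.Ψd (q.dat FF z).dt.Cn
      (q.dat FF z).dt.Cd (fun _ _ => 0) (fun _ => 0) (p2.dat FF z).ν (p2.dat FF z).δ
      (p2.dat FF z).E.κD (p2.dat FF z).E.c4 (Fam.z M').Φ (fun _ _ => 0) (fun _ _ => 0)
      (fun m r => x2.k.Gn m (r + z)) fun m r => x2.k.Ge m (r + z) :=
    kcOk_zero hS0 (fun m => k2.Gn0 m 0 k0) fun m => k2.Ge0 m 0 k0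
  exact KcOk.mixP k1 k2 (fun _ => rfl)
    (fun p hp hf r hr => h2.nn hF hp hf (by
      rw [t0', e2]
      exact me2 r hr)) le_rfl w0 h0 hθ
    (fun r hr => rfl) (fun r hr => rfl)
    (fun m r hr => rfl) (fun m r hr => rfl)
    (fun m p hp => w10 m _ hp.full_ok rfl) (fun m p y a b hp => w10 m _ hp.full_ok rfl)
    (fun r hr => (o2.s _ (me2 r hr)).D0)
    (fun r hr => zero_le_one.trans (o2.s _ (me2 r hr)).h4)
    o2.ν0 o2.ν0 (fun m p hp => (hz.ν m p hp).le) o2.δ0 o2.δ0 (fun m p hp => (hz.δ m p hp).le)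
    (fun r hr => ⟨fun y _ => (congrFun (glu2_lo hr.2) y).le, (glu_lo hr.2).le⟩)
    (fun r hl _ => ⟨fun y _ => (congrFun (glu2_hi hl) y).le, (glu_hi hl).le⟩)
    (fun b m r r0 hr p _ => (Fam.gd_lo b m hr p).le)
    (fun b m r hr hr' p hp => (Fam.gd_hi b m hr p).le) hS

end mixP

section mixT

variable {J1 J2 M Λ J' M' Λ' : Type*} [Fintype M'] [Nonempty M'] [Fintype J'] [Nonempty J']
  [Fintype Λ'] {FF : (ℕ → ℝ) → Pt → ℝ} {N : ℕ} {ft : ℕ → Pt → ℝ}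
  {q1 : TSys J1 M Λ} {q2 : TSys J2 M Λ} {p : TSys J' M' Λ'} {x1 x2 : TKs M'}
  {z s w θ : ℝ} {lq : Bool} {ym Ph : ℝ} {mq : ℕ} {S S' : Finset ℝ}

/-- **(T) the condition at a mixed end of the targets** -/
theorem TKs.mixT (hF : Lf FF N ft) (h1 : x1.Ok FF N q1 p) (h2 : x2.Ok FF N q2 p)
    (o : p.Ok FF N lq ym Ph) (ha : TSys.Adj ym q1 q2 mq)
    (hx : x1.End0 N) (t0 : x1.t 0 = p.t 0) (t0' : x2.t 0 = p.t 0)
    (e1 : x1.t x1.n = q1.t q1.n) (e2 : x2.t x2.n = q2.t q2.n)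
    (en : q2.t q2.n ≤ p.t p.n) (z0 : p.t 0 ≤ z) (z0' : q1.t 0 ≤ z)
    (s0 : 0 ≤ s) (w0 : 0 < w) (hs : s + z = q1.t q1.n)
    (hw : s + w + z = q2.t q2.n) (h0 : 0 ≤ θ) (hθ : θ ≤ 1) (hS : glS s w θ S ⊆ S') :
    SysD.Kc (SysD.mix s w θ (q1.dat FF z) (q2.dat FF z)) (p.dat FF z) (s + θ * w) S'
      (TKs.Km FF s w θ z x1 x2) (TKs.Km' FF s w θ z x1 x2)
      (fun m => glu s w θ (fun r => x1.k.Gn m (r + z)) fun r => x2.k.Gn m (r + z))
      fun m => glu s w θ (fun r => x1.k.Ge m (r + z)) fun r => x2.k.Ge m (r + z) := by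
  have k1 := h1.kc (z := z) (σ := s) hF o t0.symm (by rw [e1]; linarith)
    (by rw [t0]; exact z0) s0 (by rw [hs, e1]) S
  have k2 := h2.kc (z := z) (σ := s + w) hF o t0'.symm (by rw [e2]; exact en)
    (by rw [t0']; exact z0) (by linarith) (by rw [hw, e2]) S
  have me : ∀ r ∈ Icc 0 s, r + z ∈ Icc (q1.t 0) (q1.t q1.n) := fun r hr =>
    ⟨by linarith [hr.1], by linarith [hr.2]⟩
  unfold SysD.Kc at k1 k2 ⊢
  exact KcOk.mixT k1 k2 (TKs.end_z hx hF (by rw [hs, e1]))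
    (fun y hp hf r hr => h2.nn hF hp hf
      ⟨by rw [t0']; linarith [hr.1], by rw [e2]; linarith [hr.2]⟩) s0 w0 h0 hθ
    (fun r hr => ha.R _ (me r hr)) (fun r hr => ha.Rp _ (me r hr))
    (fun r hr => ha.W _ (me r hr)) (fun r hr => ha.Wp _ (me r hr)) hS

/-- **(T) the condition in the first coarse cell of the targets** -/
theorem TKs.fstT (hF : Lf FF N ft) (h2 : x2.Ok FF N q2 p) (o : p.Ok FF N lq ym Ph)
    (t0' : x2.t 0 = p.t 0) (e2 : x2.t x2.n = q2.t q2.n)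
    (en : q2.t q2.n ≤ p.t p.n) (z0 : p.t 0 ≤ z) (w0 : 0 < w)
    (hw : w + z = q2.t q2.n) (h0 : 0 ≤ θ) (hθ : θ ≤ 1) (hS0 : (0 : ℝ) ∈ S)
    (hS : glS 0 w θ S ⊆ S') :
    SysD.Kc (SysD.mix 0 w θ (SysD.z0 (q2.dat FF z)) (q2.dat FF z)) (p.dat FF z) (0 + θ * w) S'
      (TKs.Kf FF w θ z x2) (TKs.Kf' FF w θ z x2)
      (fun m => glu 0 w θ (fun r => x2.k.Gn m (r + z)) fun r => x2.k.Gn m (r + z))
      fun m => glu 0 w θ (fun r => x2.k.Ge m (r + z)) fun r => x2.k.Ge m (r + z) := by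
  have k2 := h2.kc (z := z) (σ := 0 + w) hF o t0'.symm (by rw [e2]; exact en)
    (by rw [t0']; exact z0) (by linarith) (by rw [zero_add, hw, e2]) S
  have k0 : (0 : ℝ) ∈ Icc 0 (0 + w) := ⟨le_rfl, by linarith⟩
  unfold SysD.Kc at k2 ⊢
  have k1 : KcOk 0 S (q2.dat FF z).E.R (q2.dat FF z).E.Rp (q2.dat FF z).E.W (q2.dat FF z).E.Wp
      (p.dat FF z).w1 (q2.dat FF z).dt.Ψn (q2.dat FF z).dt.Ψd (q2.dat FF z).dt.Cn
      (q2.dat FF z).dt.Cd (p.dat FF z).E.RD (p.dat FF z).E.RDp (p.dat FF z).ν (p.dat FF z).δ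
      (p.dat FF z).E.κD (p.dat FF z).E.c4 (p.dat FF z).dp.g.Φ (fun _ _ => 0) (fun _ _ => 0)
      (fun m r => x2.k.Gn m (r + z)) fun m r => x2.k.Ge m (r + z) :=
    kcOk_zero hS0 (fun m => k2.Gn0 m 0 k0) fun m => k2.Ge0 m 0 k0
  exact KcOk.mixT k1 k2 (fun _ => rfl)
    (fun y hp hf r hr => h2.nn hF hp hf
      ⟨by rw [t0']; linarith [hr.1], by rw [e2]; linarith [hr.2]⟩) le_rfl w0 h0 hθ
    (fun r hr => rfl) (fun r hr => rfl) (fun r hr => rfl) (fun r hr => rfl) hS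

end mixT

end Pool.Agent.RZ.RCO
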