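import Pool.Agent.RZ.RCO.Eg1
import Pool.Agent.RZ.RCO.Gg2
import Pool.Agent.RZ.RCO.Gg3

/-! A class of a cell from the tables: all solutions of its world, the values and the sums of
level 2 below the functions of the point (MP_73ccd0_lc). -/

set_option autoImplicit false

namespace Pool.Agent.RZ.RCO

open Set Pool.Agent.RZ.RCRSHalf Pool.Agent.RZ.RCG Pool.Agent.RZ.RCG.Ct
open Pool.Agent.RZ.RCN Pool.Agent.RZ.RCN.K

set_option linter.unusedSectionVars false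

/-! ### the sum of level 2 of two systems -/

section kcd

variable {V : Type*} [Fintype V] [DecidableEq V] {x : V → V → ℝ} {P : V → Prop} [DecidablePred P]
  {D : Finset V} {hb T : ℝ → V → V → ℝ} {σ τ1 τ2 : ℝ} {S : Finset ℝ}
  {gp gm : Finset V → V → V → ℝ → ℝ} {Fe Ge Fe' Ge' : Finset V → V → V → ℝ}
  {J M Λ J' M' Λ' : Type*} [Fintype J] [Nonempty J] [Fintype M] [Nonempty M] [Fintype Λ]
  [Fintype J'] [Nonempty J'] [Fintype M'] [Nonempty M'] [Fintype Λ']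
  {q : SysD J M Λ} {q' : SysD J' M' Λ'} {lq lq' : Bool} {K K' : ℝ → Pt → ℝ} {Gn Ge0 : M' → ℝ → ℝ}

/-- **the condition of the sum of level 2 of two systems of a world** -/
theorem SysD.Kc.kcd (h : SysD.Kc q q' σ S K K' Gn Ge0)
    (i : q.In lq x P D hb T τ1 S gp gm Fe Ge) (i' : q'.In lq' x P D hb T τ2 S gp gm Fe' Ge')
    (h1 : σ ≤ τ1) (h2 : σ ≤ τ2) {B : Pt → ℝ} (hB : ∀ p, Fu p → K 0 p ≤ B p)
    {d : V} (hd : d ∈ Dᶜ) (hPd : P d) :
    ∃ (l : VrT V Unit) (G E : M' × Option V → ℝ → ℝ) (k k' : ℝ → ℝ),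
      KcD Dᶜ σ S T (q.s lq x P D hb T τ1 Fe) l (q'.s lq' x P D hb T τ2 Fe') d (ind P) G E k k' ∧
      k 0 ≤ B (fp x D d) :=
  ⟨_, _, _, _, _, dS1_kcd (i.env.sub h1 subset_rfl) h i.ht h1 i.hK i.he i.hm0 i'.hK h2 i'.he
    i'.rw1.w0 hd hPd fun c _ => ind_le c, hB _ (fu_fp i.env.hP i.env.hD hd hPd)⟩

end kcd

/-! ### the tables of the sums of level 2 of a cell -/

/-- the tables of one kind of pairs: the mesh of `x l` ends at `A l` -/
structure KEs {M : Type*} (A : ℕ → ℝ) (nc : ℕ) (x : ℕ → TKs M) : Prop where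
  t0 : ∀ l, 0 < l → l ≤ nc → (x l).t 0 = 0
  e : ∀ l, 0 < l → l ≤ nc → (x l).t (x l).n = A l

/-- the end values of the tables vanish -/
def KEz {M : Type*} (N nc : ℕ) (x : ℕ → TKs M) : Prop := ∀ l, 0 < l → l ≤ nc → (x l).End0 N

/-- the position coefficients of two neighbouring ends are the same -/
def KGe {M : Type*} (A : ℕ → ℝ) (nc : ℕ) (x : ℕ → TKs M) : Prop :=
  ∀ l, 0 < l → l < nc → ∀ m, ∀ ρ ∈ Icc 0 (A l),
    (x l).k.Gn m ρ = (x (l + 1)).k.Gn m ρ ∧ (x l).k.Ge m ρ = (x (l + 1)).k.Ge m ρ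

/-- the used value of the sum of level 2 at the table time `z` -/
noncomputable def kuE {M : Type*} (FF : (ℕ → ℝ) → Pt → ℝ) (x : ℕ → TKs M) (l : ℕ) (z : ℝ)
    (p : Pt) : ℝ := if l = 0 then 0 else FF (fun i => ((x l).k.k i).up (x l).t (x l).n z) p

/-- the function of the sum of level 2 at a killed end `σ` -/
noncomputable def mxK {M : Type*} (FF : (ℕ → ℝ) → Pt → ℝ) (x : ℕ → TKs M) (A : ℕ → ℝ) (l : ℕ)
    (θ z : ℝ) : ℝ → Pt → ℝ :=
  if l = 0 then TKs.Kf FF (ag A z 1) θ z (x 1)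
  else TKs.Km FF (ag A z l) (ag A z (l + 1) - ag A z l) θ z (x l) (x (l + 1))

noncomputable def mxK' {M : Type*} (FF : (ℕ → ℝ) → Pt → ℝ) (x : ℕ → TKs M) (A : ℕ → ℝ) (l : ℕ)
    (θ z : ℝ) : ℝ → Pt → ℝ :=
  if l = 0 then TKs.Kf' FF (ag A z 1) θ z (x 1)
  else TKs.Km' FF (ag A z l) (ag A z (l + 1) - ag A z l) θ z (x l) (x (l + 1))

section kval

variable {J M Λ J' M' Λ' : Type*} [Fintype M'] {FF : (ℕ → ℝ) → Pt → ℝ} {N : ℕ}
  {ft : ℕ → Pt → ℝ} {t : ℕ → ℝ} {n : ℕ} {A : ℕ → ℝ} {nc : ℕ} {x : ℕ → TKs M'}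
  {z θ : ℝ} {l : ℕ}

theorem Fu.ok {p : Pt} (h : Fu p) : p.Ok := by
  have := h.1.full_ok
  rwa [← h.2] at this

/-- the value of one table -/
theorem K_le (hF : Lf FF N ft) (hN : Nds t n A nc) (hx : KEs A nc x)
    {q : ℕ → TSys J M Λ} {q' : ℕ → TSys J' M' Λ'}
    (ok : ∀ l, 0 < l → l ≤ nc → (x l).Ok FF N (q l) (q' l)) (z0 : 0 ≤ z) (z1 : z < A 1)
    {p : Pt} (hp : Fu p) (l : ℕ) (h3 : 0 < l) (h4 : l ≤ nc) :
    (x l).K FF z 0 p ≤ kuE FF x l z p := by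
  have k := ok l h3 h4
  have := (hN.ge h3 h4)
  unfold kuE
  rw [if_neg (by omega)]
  have e := k.k.le (δ := z) (r := 0) hF k.hm k.hn (by
    rw [hx.t0 l h3 h4, hx.e l h3 h4]
    exact ⟨by linarith, by linarith⟩) hp.ok
  rw [zero_add] at e
  exact e

/-- **the value at the time `0`** below the used values -/
theorem mxK_le (hF : Lf FF N ft) (hN : Nds t n A nc) (hx : KEs A nc x)
    {q : ℕ → TSys J M Λ} {q' : ℕ → TSys J' M' Λ'}
    (ok : ∀ l, 0 < l → l ≤ nc → (x l).Ok FF N (q l) (q' l)) (z0 : 0 ≤ z) (z1 : z < A 1)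
    (hl : l < nc) (h0 : 0 ≤ θ) (h1 : θ ≤ 1) {p : Pt} (hp : Fu p) :
    mxK FF x A l θ z 0 p ≤ RCO.mx θ (kuE FF x l z p) (kuE FF x (l + 1) z p) := by
  have le := K_le hF hN hx ok z0 z1 hp
  unfold mxK
  rcases Nat.eq_zero_or_pos l with h3 | h3
  · subst h3
    rw [if_pos rfl]
    show RCO.glu 0 (ag A z 1) θ (fun _ => 0) (fun r => (x 1).K FF z r p) 0 ≤ _
    rw [glu_lo le_rfl]
    refine mx_le h0 h1 ?_ (le 1 one_pos hN.n0)
    unfold kuE
    rw [if_pos rfl]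
  · rw [if_neg (by omega)]
    show RCO.glu (ag A z l) (ag A z (l + 1) - ag A z l) θ (fun r => (x l).K FF z r p)
      (fun r => (x (l + 1)).K FF z r p) 0 ≤ _
    rw [glu_lo (ag_nonneg A z l)]
    exact mx_le h0 h1 (le l h3 hl.le) (le (l + 1) (Nat.succ_pos l) hl)

end kval

section kmx

variable {J M Λ J' M' Λ' : Type*} [Fintype J] [Nonempty J] [Fintype M] [Nonempty M] [Fintype Λ]
  [Fintype J'] [Nonempty J'] [Fintype M'] [Nonempty M'] [Fintype Λ']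
  {Λ0 : Type*} [Fintype Λ0] {FF : (ℕ → ℝ) → Pt → ℝ} {N : ℕ} {ft : ℕ → Pt → ℝ} {lq lq' : Bool}
  {ym : ℝ} {d : T12 Λ0} {t : ℕ → ℝ} {n : ℕ} {il : Λ → Λ0} {im : M → Λ0} {il' : Λ' → Λ0}
  {im' : M' → Λ0} {A : ℕ → ℝ} {nc : ℕ} {q : ℕ → TSys J M Λ} {q' : ℕ → TSys J' M' Λ'}
  {mm mm' : ℕ → ℕ} {Ph Ph' : ℕ → ℝ} {z θ : ℝ} {l : ℕ}
  {x : ℕ → TKs M'} {S : Finset ℝ}

/-- the coefficients of the positions -/
noncomputable def gnP {M : Type*} (x : ℕ → TKs M) (l : ℕ) (z : ℝ) : M → ℝ → ℝ :=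
  fun m r => (x (l + 1)).k.Gn m (r + z)
noncomputable def geP {M : Type*} (x : ℕ → TKs M) (l : ℕ) (z : ℝ) : M → ℝ → ℝ :=
  fun m r => (x (l + 1)).k.Ge m (r + z)
noncomputable def gnT {M : Type*} (x : ℕ → TKs M) (A : ℕ → ℝ) (l : ℕ) (θ z : ℝ) : M → ℝ → ℝ :=
  if l = 0 then fun m => RCO.glu 0 (ag A z 1) θ (fun r => (x 1).k.Gn m (r + z))
    fun r => (x 1).k.Gn m (r + z)
  else fun m => RCO.glu (ag A z l) (ag A z (l + 1) - ag A z l) θ
    (fun r => (x l).k.Gn m (r + z)) fun r => (x (l + 1)).k.Gn m (r + z)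
noncomputable def geT {M : Type*} (x : ℕ → TKs M) (A : ℕ → ℝ) (l : ℕ) (θ z : ℝ) : M → ℝ → ℝ :=
  if l = 0 then fun m => RCO.glu 0 (ag A z 1) θ (fun r => (x 1).k.Ge m (r + z))
    fun r => (x 1).k.Ge m (r + z)
  else fun m => RCO.glu (ag A z l) (ag A z (l + 1) - ag A z l) θ
    (fun r => (x l).k.Ge m (r + z)) fun r => (x (l + 1)).k.Ge m (r + z)

/-- **(P)**: the targets of the last end of `q`, the positions of the killed kind `q'` at the
end `σ` -/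
theorem Ends.kcP (hF : Lf FF N ft) (hd : d.Ok FF N t n)
    (h' : Ends FF N lq' ym d t n il' im' A nc q' Ph') (hk : EndK N ym A nc q' mm' Ph')
    (hN : Nds t n A nc) (hx : KEs A nc x) (hz : KEz N nc x)
    (ok : ∀ l, 0 < l → l ≤ nc → (x l).Ok FF N (q nc) (q' l))
    (hG : KGe A nc x) (z0 : 0 ≤ z) (z1 : z < A 1) (hl : l < nc) (h0 : 0 ≤ θ) (h1 : θ ≤ 1)
    (hS : skE A l θ z ⊆ S) :
    SysD.Kc ((q nc).dat FF z) (mxE FF q' A l θ z) (sgE A l θ z) S (mxK FF x A l θ z)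
      (mxK' FF x A l θ z) (gnP x l z) (geP x l z) := by
  have al1 := ag_pos hN z1 (Nat.succ_pos l) hl
  have w0 := ag_lt hN z0 z1 hl
  have q0 : ∀ l, 0 < l → l ≤ nc → (q' l).t 0 = 0 := fun l h3 h4 => by
    rw [← (h'.lnk l h3 h4).t0, hN.t0]
  have lp := Nat.succ_pos l
  unfold mxE sgE skE mxK mxK' gnP geP at *
  rcases Nat.eq_zero_or_pos l with h3 | h3
  · subst h3
    have ez := ag_zero hN z0
    have n1 : 1 ≤ nc := hN.n0
    rw [if_pos rfl, if_pos rfl, if_pos rfl, ez]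
    rw [ez, sub_zero] at hS
    rw [ez] at w0
    rw [sub_zero]
    refine TKs.fstP hF (ok 1 one_pos n1) (h'.ok 1 one_pos n1) (hk.nl 1 one_pos n1) ?_ ?_
      (hd.w10 (h'.lnk 1 one_pos n1).w1) ?_ w0 ?_ h0 h1 (Finset.mem_singleton_self 0) hS
    · rw [hx.t0 1 one_pos n1, q0 1 one_pos n1]
    · rw [hx.e 1 one_pos n1, h'.e 1 one_pos n1]
    · rw [q0 1 one_pos n1]
      exact z0
    · rw [h'.e 1 one_pos n1, al1]
      ring
  · have al0 := ag_pos hN z1 h3 hl.le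
    rw [if_neg (by omega), if_neg (by omega), if_neg (by omega)]
    refine TKs.mixP hF (ok l h3 hl.le) (ok (l + 1) lp hl) (h'.ok l h3 hl.le)
      (h'.ok (l + 1) lp hl) (hk.adj l h3 hl) (hk.nl (l + 1) lp hl) (hz l h3 hl.le)
      ?_ ?_ ?_ ?_ ?_ ?_ (hd.w10 (h'.lnk (l + 1) lp hl).w1) ?_ (ag_nonneg A z l) (by linarith)
      ?_ ?_ h0 h1 hS
    · rw [hx.t0 l h3 hl.le, q0 l h3 hl.le]
    · rw [hx.t0 (l + 1) lp hl, q0 (l + 1) lp hl]
    · rw [hx.e l h3 hl.le, h'.e l h3 hl.le]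
    · rw [hx.e (l + 1) lp hl, h'.e (l + 1) lp hl]
    · intro m ρ hρ
      rw [q0 l h3 hl.le, h'.e l h3 hl.le] at hρ
      exact (hG l h3 hl m ρ hρ).1
    · intro m ρ hρ
      rw [q0 l h3 hl.le, h'.e l h3 hl.le] at hρ
      exact (hG l h3 hl m ρ hρ).2
    · rw [q0 l h3 hl.le]
      exact z0
    · rw [h'.e l h3 hl.le, al0]
      ring
    · rw [h'.e (l + 1) lp hl, al1]
      ring

/-- **(T)**: the targets of the killed kind `q` at the end `σ`, the positions of the last end of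
`q'` -/
theorem Ends.kcT (hF : Lf FF N ft)
    (h : Ends FF N lq ym d t n il im A nc q Ph) (hk : EndK N ym A nc q mm Ph)
    (h' : Ends FF N lq' ym d t n il' im' A nc q' Ph') (hN : Nds t n A nc)
    (hx : KEs A nc x) (hz : KEz N nc x) (ok : ∀ l, 0 < l → l ≤ nc → (x l).Ok FF N (q l) (q' nc))
    (z0 : 0 ≤ z) (z1 : z < A 1) (hl : l < nc) (h0 : 0 ≤ θ) (h1 : θ ≤ 1)
    (hS : skE A l θ z ⊆ S) :
    SysD.Kc (mxE FF q A l θ z) ((q' nc).dat FF z) (sgE A l θ z) S (mxK FF x A l θ z)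
      (mxK' FF x A l θ z) (gnT x A l θ z) (geT x A l θ z) := by
  have al1 := ag_pos hN z1 (Nat.succ_pos l) hl
  have w0 := ag_lt hN z0 z1 hl
  have q0 : ∀ l, 0 < l → l ≤ nc → (q l).t 0 = 0 := fun l h3 h4 => by
    rw [← (h.lnk l h3 h4).t0, hN.t0]
  have q0' : (q' nc).t 0 = 0 := by rw [← (h'.lnk nc hN.n0 le_rfl).t0, hN.t0]
  have lp := Nat.succ_pos l
  have tot := hN.le_n (l := l + 1) hl
  have o := h'.ok nc hN.n0 le_rfl
  have en := h'.e nc hN.n0 le_rfl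
  unfold mxE sgE skE mxK mxK' gnT geT at *
  rcases Nat.eq_zero_or_pos l with h3 | h3
  · subst h3
    have ez := ag_zero hN z0
    have n1 : 1 ≤ nc := hN.n0
    rw [if_pos rfl, if_pos rfl, if_pos rfl, if_pos rfl, if_pos rfl, ez]
    rw [ez, sub_zero] at hS
    rw [ez] at w0
    rw [sub_zero]
    refine TKs.fstT hF (ok 1 one_pos n1) o ?_ ?_ ?_ ?_ w0 ?_ h0 h1 (Finset.mem_singleton_self 0)
      hS
    · rw [hx.t0 1 one_pos n1, q0']
    · rw [hx.e 1 one_pos n1, h.e 1 one_pos n1]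
    · rw [h.e 1 one_pos n1, en]
      exact tot
    · rw [q0']
      exact z0
    · rw [h.e 1 one_pos n1, al1]
      ring
  · have al0 := ag_pos hN z1 h3 hl.le
    rw [if_neg (by omega), if_neg (by omega), if_neg (by omega), if_neg (by omega),
      if_neg (by omega)]
    refine TKs.mixT hF (ok l h3 hl.le) (ok (l + 1) lp hl) o (hk.adj l h3 hl)
      (hz l h3 hl.le) ?_ ?_ ?_ ?_ ?_ ?_ ?_ (ag_nonneg A z l) (by linarith) ?_ ?_ h0 h1 hS
    · rw [hx.t0 l h3 hl.le, q0']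
    · rw [hx.t0 (l + 1) lp hl, q0']
    · rw [hx.e l h3 hl.le, h.e l h3 hl.le]
    · rw [hx.e (l + 1) lp hl, h.e (l + 1) lp hl]
    · rw [h.e (l + 1) lp hl, en]
      exact tot
    · rw [q0']
      exact z0
    · rw [q0 l h3 hl.le]
      exact z0
    · rw [h.e l h3 hl.le, al0]
      ring
    · rw [h.e (l + 1) lp hl, al1]
      ring

/-- **the targets of the last end of `q`, the positions of the released kind `q'`**: the table of
the next node -/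
theorem Ends.kcPr (hF : Lf FF N ft)
    (h' : Ends FF N lq' ym d t n il' im' A nc q' Ph')
    (hN : Nds t n A nc) (hx : KEs A nc x)
    (ok : ∀ l, 0 < l → l ≤ nc → (x l).Ok FF N (q nc) (q' l))
    (z0 : 0 ≤ z) (z1 : z < A 1) (hl : l < nc) (h0 : 0 ≤ θ) (h1 : θ ≤ 1) (S : Finset ℝ) :
    SysD.Kc ((q nc).dat FF z) ((q' (l + 1)).dat FF z) (sgE A l θ z) S ((x (l + 1)).K FF z)
      ((x (l + 1)).K' FF z) (gnP x l z) (geP x l z) := by
  have lp := Nat.succ_pos l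
  have e0 := hx.t0 (l + 1) lp hl
  have e1 := hx.e (l + 1) lp hl
  exact (ok (l + 1) lp hl).kc hF (h'.ok (l + 1) lp hl)
    (by rw [e0, ← (h'.lnk (l + 1) lp hl).t0, hN.t0]) (by rw [e1, h'.e (l + 1) lp hl])
    (by rw [e0]; exact z0) (sg_nonneg hN z0 z1 hl h0) (by rw [e1]; exact sg_le hN z0 z1 hl h1) S

/-- **the targets of the released kind `q`, the positions of the last end of `q'`** -/
theorem Ends.kcTr (hF : Lf FF N ft)
    (h' : Ends FF N lq' ym d t n il' im' A nc q' Ph') (hN : Nds t n A nc)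
    (hx : KEs A nc x) (ok : ∀ l, 0 < l → l ≤ nc → (x l).Ok FF N (q l) (q' nc))
    (z0 : 0 ≤ z) (z1 : z < A 1) (hl : l < nc) (h0 : 0 ≤ θ) (h1 : θ ≤ 1) (S : Finset ℝ) :
    SysD.Kc ((q (l + 1)).dat FF z) ((q' nc).dat FF z) (sgE A l θ z) S ((x (l + 1)).K FF z)
      ((x (l + 1)).K' FF z) (gnP x l z) (geP x l z) := by
  have lp := Nat.succ_pos l
  have e0 := hx.t0 (l + 1) lp hl
  have e1 := hx.e (l + 1) lp hl
  exact (ok (l + 1) lp hl).kc hF (h'.ok nc hN.n0 le_rfl)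
    (by rw [e0, ← (h'.lnk nc hN.n0 le_rfl).t0, hN.t0])
    (by rw [e1, h'.e nc hN.n0 le_rfl]; exact hN.le_n hl)
    (by rw [e0]; exact z0) (sg_nonneg hN z0 z1 hl h0) (by rw [e1]; exact sg_le hN z0 z1 hl h1) S

end kmx

end Pool.Agent.RZ.RCO
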