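import Pool.Agent.RZ.RCO.Gs3_1
import Pool.Agent.RZ.RCO.Gs4_1

/-! Interpolation of the checks in the end time: the lines are linear in the functions of the
second target (MP_73ccd0_lc). -/

namespace Pool.Agent.RZ.RCO

open Set Finset Pool.Agent.RZ.RCM

set_option linter.unusedSectionVars false

/-- the mixture -/
def mx (θ a b : ℝ) : ℝ := (1 - θ) * a + θ * b

theorem mx_le {θ a b c d : ℝ} (h0 : 0 ≤ θ) (h1 : θ ≤ 1) (ha : a ≤ c) (hb : b ≤ d) :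
    mx θ a b ≤ mx θ c d :=
  add_le_add (mul_le_mul_of_nonneg_left ha (sub_nonneg.2 h1)) (mul_le_mul_of_nonneg_left hb h0)

theorem mx_nonneg {θ a b : ℝ} (h0 : 0 ≤ θ) (h1 : θ ≤ 1) (ha : 0 ≤ a) (hb : 0 ≤ b) :
    0 ≤ mx θ a b := add_nonneg (mul_nonneg (sub_nonneg.2 h1) ha) (mul_nonneg h0 hb)

theorem mx_self (θ a : ℝ) : mx θ a a = a := by unfold mx; ring

theorem mx_sum {ι : Type*} (s : Finset ι) (θ : ℝ) (f g : ι → ℝ) :
    mx θ (∑ i ∈ s, f i) (∑ i ∈ s, g i) = ∑ i ∈ s, mx θ (f i) (g i) := by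
  unfold mx
  rw [Finset.mul_sum, Finset.mul_sum, ← Finset.sum_add_distrib]

/-- the mixture of two coefficient vectors -/
def Ec.mx (θ : ℝ) (c d : Ec) : Ec := (c.smul (1 - θ)).add (d.smul θ)

theorem ev_mx (θ : ℝ) (c d : Ec) (x k H : ℝ) : ev (c.mx θ d) x k H = mx θ (ev c x k H) (ev d x k H) := by
  unfold Ec.mx mx
  rw [ev_add, ev_smul, ev_smul]

theorem sv_mx (θ : ℝ) (c d : Ec) (p : Pt) : sv (c.mx θ d) p = mx θ (sv c p) (sv d p) := by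
  unfold Ec.mx mx
  rw [sv_add, sv_smul, sv_smul]

section lines

variable {a b θ : ℝ} {R R' : ℝ → ℝ} {Rp Rp' : ℝ} {G G' Gp Gp' : Pt → ℝ} {c c' : Ec}

/-- mixture of edge lines in the functions -/
theorem EL.mx (h : EL a b R Rp G Gp c) (h' : EL a b R Rp G' Gp' c') (h0 : 0 ≤ θ) (h1 : θ ≤ 1)
    {G2 Gp2 : Pt → ℝ} (e : ∀ q, G2 q = RCO.mx θ (G q) (G' q))
    (ep : ∀ q, Gp2 q = RCO.mx θ (Gp q) (Gp' q)) : EL a b R Rp G2 Gp2 (c.mx θ c') := by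
  refine ⟨mx_nonneg h0 h1 h.c6 h'.c6, mx_nonneg h0 h1 h.c7 h'.c7, fun q x hq => ?_,
    fun q x hq => ?_⟩
  · rw [ev_mx, e]
    refine le_trans (le_of_eq ?_) (mx_le h0 h1 (h.l q x hq) (h'.l q x hq))
    unfold RCO.mx
    ring
  · rw [ev_mx, ep]
    refine le_trans (le_of_eq ?_) (mx_le h0 h1 (h.p q x hq) (h'.p q x hq))
    unfold RCO.mx
    ring

/-- mixture of edge lines in the rates -/
theorem EL.mxR (h : EL a b R Rp G Gp c) (h' : EL a b R' Rp' G Gp c') (h0 : 0 ≤ θ) (h1 : θ ≤ 1) :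
    EL a b (fun x => RCO.mx θ (R x) (R' x)) (RCO.mx θ Rp Rp') G Gp (c.mx θ c') := by
  refine ⟨mx_nonneg h0 h1 h.c6 h'.c6, mx_nonneg h0 h1 h.c7 h'.c7, fun q x hq => ?_,
    fun q x hq => ?_⟩
  · rw [ev_mx]
    refine le_trans (le_of_eq ?_) (mx_le h0 h1 (h.l q x hq) (h'.l q x hq))
    unfold RCO.mx
    ring
  · rw [ev_mx]
    refine le_trans (le_of_eq ?_) (mx_le h0 h1 (h.p q x hq) (h'.p q x hq))
    unfold RCO.mx
    ring

/-- mixture of general edge lines -/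
theorem EG.mx {G G' Gp Gp' G2 Gp2 : ℝ → Pt → ℝ} (h : EG a b G Gp c) (h' : EG a b G' Gp' c')
    (h0 : 0 ≤ θ) (h1 : θ ≤ 1) (e : ∀ x q, G2 x q = RCO.mx θ (G x q) (G' x q))
    (ep : ∀ x q, Gp2 x q = RCO.mx θ (Gp x q) (Gp' x q)) : EG a b G2 Gp2 (c.mx θ c') := by
  refine ⟨mx_nonneg h0 h1 h.c6 h'.c6, mx_nonneg h0 h1 h.c7 h'.c7, fun q x hq => ?_,
    fun q x hq => ?_⟩
  · rw [ev_mx, e]
    refine le_trans (le_of_eq ?_) (mx_le h0 h1 (h.l q x hq) (h'.l q x hq))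
    unfold RCO.mx
    ring
  · rw [ev_mx, ep]
    refine le_trans (le_of_eq ?_) (mx_le h0 h1 (h.p q x hq) (h'.p q x hq))
    unfold RCO.mx
    ring

theorem OLx.mx {G G' G2 : ℝ → Pt → ℝ} {d d' : ℝ} (h : OLx Rp G d) (h' : OLx Rp G' d')
    (h0 : 0 ≤ θ) (h1 : θ ≤ 1) (e : ∀ x p, G2 x p = RCO.mx θ (G x p) (G' x p)) :
    OLx Rp G2 (RCO.mx θ d d') := fun p x hp => by
  rw [e]
  refine le_trans (le_of_eq ?_) (mx_le h0 h1 (h p x hp) (h' p x hp))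
  unfold RCO.mx
  ring

theorem OLx.mxR {G : ℝ → Pt → ℝ} {d d' : ℝ} (h : OLx Rp G d) (h' : OLx Rp' G d')
    (h0 : 0 ≤ θ) (h1 : θ ≤ 1) : OLx (RCO.mx θ Rp Rp') G (RCO.mx θ d d') := fun p x hp => by
  refine le_trans (le_of_eq ?_) (mx_le h0 h1 (h p x hp) (h' p x hp))
  unfold RCO.mx
  ring

theorem OLg.mx {G G' G2 : ℝ → Pt → ℝ} {d d' : ℝ} (h : OLg G d) (h' : OLg G' d')
    (h0 : 0 ≤ θ) (h1 : θ ≤ 1) (e : ∀ x p, G2 x p = RCO.mx θ (G x p) (G' x p)) :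
    OLg G2 (RCO.mx θ d d') := fun p x hp => by
  rw [e]
  exact mx_le h0 h1 (h p x hp) (h' p x hp)

end lines

section ct

variable {J J' Λ : Type*} [Fintype Λ] {R : ℝ → ℝ} {Rp : ℝ} {W : Pt → ℝ} {Wp : ℝ → ℝ}
  {wv : Λ → Pt → ℝ} {B : Bool → Λ → Pt → ℝ} {CB : Bool → Λ → ℝ} {Ψn Ψe Ψd Ψn' Ψe' Ψd' : Pt → ℝ}
  {Cn Cd Cn' Cd' : ℝ} {Φ : Bool → J → Pt → ℝ} {C : Bool → J → ℝ} {Gn Gd : J → Λ → ℝ}
  {Φ2 : Bool → J' → Pt → ℝ} {C2 : Bool → J' → ℝ} {Gn2 Gd2 : J' → Λ → ℝ} {θ : ℝ}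

/-- the combination of the values of a line -/
theorem mx_val {θ s s' t t' u u' : ℝ} (h0 : 0 ≤ θ) (h1 : θ ≤ 1) (h : s + t ≤ -u)
    (h' : s' + t' ≤ -u') : mx θ s s' + mx θ t t' ≤ -mx θ u u' := by
  have := mx_le h0 h1 h h'
  unfold mx at *
  linarith

/-- **the mixture of the checks of the target sums** -/
theorem CT1.mix (h : CT1 R Rp W Wp wv B CB Ψn Ψe Ψd Cn Cd Φ C Gn Gd)
    (h' : CT1 R Rp W Wp wv B CB Ψn' Ψe' Ψd' Cn' Cd' Φ2 C2 Gn2 Gd2) (h0 : 0 ≤ θ) (h1 : θ ≤ 1) :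
    CT1 (J := J × J') R Rp W Wp wv B CB (fun p => mx θ (Ψn p) (Ψn' p))
      (fun p => mx θ (Ψe p) (Ψe' p)) (fun p => mx θ (Ψd p) (Ψd' p)) (mx θ Cn Cn') (mx θ Cd Cd')
      (fun s j p => mx θ (Φ s j.1 p) (Φ2 s j.2 p)) (fun s j => mx θ (C s j.1) (C2 s j.2))
      (fun j m => mx θ (Gn j.1 m) (Gn2 j.2 m)) (fun j m => mx θ (Gd j.1 m) (Gd2 j.2 m)) where
  vP := fun j p hp => by
    obtain ⟨c, l, v⟩ := h.vP j.1 p hp
    obtain ⟨c', l', v'⟩ := h'.vP j.2 p hp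
    refine ⟨c.mx θ c', l.mx l' h0 h1 (fun q => by unfold mx; ring)
      (fun q => by unfold mx; ring), ?_⟩
    rw [sv_mx]
    refine le_trans (le_of_eq ?_) (mx_val h0 h1 v v')
    rw [mx_sum]
    refine congrArg₂ _ rfl (Finset.sum_congr rfl fun m _ => ?_)
    unfold mx
    ring
  vQ := fun j p hp => by
    obtain ⟨c, l, v⟩ := h.vQ j.1 p hp
    obtain ⟨c', l', v'⟩ := h'.vQ j.2 p hp
    refine ⟨c.mx θ c', l.mx l' h0 h1 (fun q => by unfold mx; ring)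
      (fun q => by unfold mx; ring), ?_⟩
    rw [sv_mx]
    refine le_trans (le_of_eq ?_) (mx_val h0 h1 v v')
    rw [mx_sum]
    refine congrArg₂ _ rfl (Finset.sum_congr rfl fun m _ => ?_)
    unfold mx
    ring
  pn := fun j p hp hf => by
    obtain ⟨c, l, v⟩ := h.pn j.1 p hp hf
    obtain ⟨c', l', v'⟩ := h'.pn j.2 p hp hf
    refine ⟨c.mx θ c', l.mx l' h0 h1 (fun q => by unfold mx; ring)
      (fun q => by unfold mx; ring), ?_⟩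
    rw [sv_mx]
    refine (mx_le h0 h1 v v').trans (le_of_eq ?_)
    rw [mx_sum]
    exact Finset.sum_congr rfl fun m _ => by unfold mx; ring
  pd := fun j p hp hf => by
    obtain ⟨c, l, v⟩ := h.pd j.1 p hp hf
    obtain ⟨c', l', v'⟩ := h'.pd j.2 p hp hf
    refine ⟨c.mx θ c', l.mx l' h0 h1 (fun q => by unfold mx; ring)
      (fun q => by unfold mx; ring), ?_⟩
    rw [sv_mx]
    refine (mx_le h0 h1 v v').trans (le_of_eq ?_)
    rw [mx_sum]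
    exact Finset.sum_congr rfl fun m _ => by unfold mx; ring
  oP := fun j => by
    obtain ⟨d, l, v⟩ := h.oP j.1
    obtain ⟨d', l', v'⟩ := h'.oP j.2
    refine ⟨mx θ d d', l.mx l' h0 h1 fun x p => by unfold mx; ring, ?_⟩
    refine le_trans (le_of_eq ?_) (mx_val h0 h1 v v')
    rw [mx_sum]
    refine congrArg₂ _ rfl (Finset.sum_congr rfl fun m _ => ?_)
    unfold mx
    ring
  oQ := fun j => by
    obtain ⟨d, l, v⟩ := h.oQ j.1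
    obtain ⟨d', l', v'⟩ := h'.oQ j.2
    refine ⟨mx θ d d', l.mx l' h0 h1 fun x p => by unfold mx; ring, ?_⟩
    refine le_trans (le_of_eq ?_) (mx_val h0 h1 v v')
    rw [mx_sum]
    refine congrArg₂ _ rfl (Finset.sum_congr rfl fun m _ => ?_)
    unfold mx
    ring
  qn := fun j p x hp => by
    refine le_trans (le_of_eq ?_) ((mx_le h0 h1 (h.qn j.1 p x hp) (h'.qn j.2 p x hp)).trans
      (le_of_eq ?_))
    · unfold mx
      ring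
    · rw [mx_sum]
      exact Finset.sum_congr rfl fun m _ => by unfold mx; ring
  qd := fun j p x hp => by
    refine le_trans (le_of_eq ?_) ((mx_le h0 h1 (h.qd j.1 p x hp) (h'.qd j.2 p x hp)).trans
      (le_of_eq ?_))
    · unfold mx
      ring
    · rw [mx_sum]
      exact Finset.sum_congr rfl fun m _ => by unfold mx; ring

end ct

section cp

variable {M : Type*} [Fintype M] {R : ℝ → ℝ} {Rp : ℝ} {W : Pt → ℝ} {Wp : ℝ → ℝ}
  {RD RE RD' RE' : ℝ → ℝ} {RDp REp RDp' REp' : ℝ} {w1 : M → Pt → ℝ} {B : Bool → M → Pt → ℝ}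
  {CB : Bool → M → ℝ} {Θ : M → Pt → ℝ} {CΘ : M → ℝ} {ν δ ν' δ' : M → Pt → ℝ}
  {Cν Cδ Cν' Cδ' : M → ℝ} {κD κE c1 c4 : ℝ} {Φ Φd Φ2 Φd2 : Bool → M → Pt → ℝ}
  {C Cd C2 Cd2 : Bool → M → ℝ} {Kn Kp Ke Km : M → M → ℝ} {θ : ℝ}

/-- **the mixture of the checks of the position sums** -/
theorem CP1.mix (h : CP1 R Rp W Wp RD RDp RE REp w1 B CB Θ CΘ ν δ Cν Cδ κD κE c1 c4 Φ Φd C Cd
      Kn Kp Ke Km)
    (h' : CP1 R Rp W Wp RD' RDp' RE' REp' w1 B CB Θ CΘ ν' δ' Cν' Cδ' κD κE c1 c4 Φ2 Φd2 C2 Cd2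
      Kn Kp Ke Km) (h0 : 0 ≤ θ) (h1 : θ ≤ 1) :
    CP1 R Rp W Wp (fun x => mx θ (RD x) (RD' x)) (mx θ RDp RDp') (fun x => mx θ (RE x) (RE' x))
      (mx θ REp REp') w1 B CB Θ CΘ (fun m p => mx θ (ν m p) (ν' m p))
      (fun m p => mx θ (δ m p) (δ' m p)) (fun m => mx θ (Cν m) (Cν' m))
      (fun m => mx θ (Cδ m) (Cδ' m)) κD κE c1 c4 (fun s m p => mx θ (Φ s m p) (Φ2 s m p))
      (fun s m p => mx θ (Φd s m p) (Φd2 s m p)) (fun s m => mx θ (C s m) (C2 s m))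
      (fun s m => mx θ (Cd s m) (Cd2 s m)) Kn Kp Ke Km where
  kn := h.kn
  kp := h.kp
  ke := h.ke
  km := h.km
  qn := h.qn
  qp := h.qp
  qe := h.qe
  qm := h.qm
  tΘ := h.tΘ
  oΘ := h.oΘ
  CΘ0 := h.CΘ0
  vP := fun m p hp => by
    obtain ⟨c, l, v⟩ := h.vP m p hp
    obtain ⟨c', l', v'⟩ := h'.vP m p hp
    refine ⟨c.mx θ c', l.mxR l' h0 h1, ?_⟩
    rw [sv_mx]
    refine le_trans (le_of_eq ?_) (mx_val h0 h1 v v')
    rw [mx_sum]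
    refine congrArg₂ _ rfl (Finset.sum_congr rfl fun m _ => ?_)
    unfold mx
    ring
  vQ := fun m p hp => by
    obtain ⟨c, l, v⟩ := h.vQ m p hp
    obtain ⟨c', l', v'⟩ := h'.vQ m p hp
    refine ⟨c.mx θ c', l.mx l' h0 h1 (fun x q => by unfold mx; ring)
      (fun x q => by unfold mx; ring), ?_⟩
    rw [sv_mx]
    refine le_trans (le_of_eq ?_) (mx_val h0 h1 v v')
    rw [mx_sum]
    refine congrArg₂ _ rfl (Finset.sum_congr rfl fun m _ => ?_)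
    unfold mx
    ring
  oP := fun m => by
    obtain ⟨d, d0, l, v⟩ := h.oP m
    obtain ⟨d', d0', l', v'⟩ := h'.oP m
    refine ⟨mx θ d d', mx_nonneg h0 h1 d0 d0', l.mxR l' h0 h1, ?_⟩
    refine le_trans (le_of_eq ?_) (mx_val h0 h1 v v')
    rw [mx_sum]
    refine congrArg₂ _ rfl (Finset.sum_congr rfl fun m _ => ?_)
    unfold mx
    ring
  oQ := fun m => by
    obtain ⟨d, d0, l, v⟩ := h.oQ m
    obtain ⟨d', d0', l', v'⟩ := h'.oQ m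
    refine ⟨mx θ d d', mx_nonneg h0 h1 d0 d0', l.mx l' h0 h1 fun x p => by unfold mx; ring, ?_⟩
    refine le_trans (le_of_eq ?_) (mx_val h0 h1 v v')
    rw [mx_sum]
    refine congrArg₂ _ rfl (Finset.sum_congr rfl fun m _ => ?_)
    unfold mx
    ring

/-- smaller functions in the checks of the position sums -/
theorem CP1.mono (h : CP1 R Rp W Wp RD RDp RE REp w1 B CB Θ CΘ ν δ Cν Cδ κD κE c1 c4 Φ Φd C Cd
      Kn Kp Ke Km)
    (Kn0 : ∀ m m', 0 ≤ Kn m m') (Kp0 : ∀ m m', 0 ≤ Kp m m') (Ke0 : ∀ m m', 0 ≤ Ke m m')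
    (Km0 : ∀ m m', 0 ≤ Km m m') (κD0 : 0 ≤ κD) (κE0 : 0 ≤ κE) (c10 : 0 ≤ c1) (c40 : 0 ≤ c4)
    (hν : ∀ m p, Sa p → ν' m p ≤ ν m p) (hδ : ∀ m p, Sa p → δ' m p ≤ δ m p)
    (hCν : ∀ m, Cν' m ≤ Cν m) (hCδ : ∀ m, Cδ' m ≤ Cδ m)
    (hΦ : ∀ s m p, Sa p → Φ2 s m p ≤ Φ s m p) (hC : ∀ s m, C2 s m ≤ C s m) :
    CP1 R Rp W Wp RD RDp RE REp w1 B CB Θ CΘ ν' δ' Cν' Cδ' κD κE c1 c4 Φ2 Φd C2 Cd
      Kn Kp Ke Km where
  kn := h.kn
  kp := h.kp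
  ke := h.ke
  km := h.km
  qn := h.qn
  qp := h.qp
  qe := h.qe
  qm := h.qm
  tΘ := h.tΘ
  oΘ := h.oΘ
  CΘ0 := h.CΘ0
  vP := fun m p hp => by
    obtain ⟨c, l, v⟩ := h.vP m p hp
    refine ⟨c, l, le_trans (add_le_add le_rfl (Finset.sum_le_sum fun m' _ => ?_)) v⟩
    exact add_le_add (mul_le_mul_of_nonneg_left (add_le_add (hν m' p hp) (hΦ _ m' p hp))
      (Kn0 m m')) (mul_le_mul_of_nonneg_left (add_le_add
        (mul_le_mul_of_nonneg_left (hδ m' p hp) κD0)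
        (mul_le_mul_of_nonneg_left (hΦ _ m' p hp) c40)) (Kp0 m m'))
  vQ := fun m p hp => by
    obtain ⟨c, l, v⟩ := h.vQ m p hp
    refine ⟨c, l, le_trans (add_le_add le_rfl (Finset.sum_le_sum fun m' _ => ?_)) v⟩
    exact add_le_add (mul_le_mul_of_nonneg_left (add_le_add
        (mul_le_mul_of_nonneg_left (hδ m' p hp) κE0)
        (mul_le_mul_of_nonneg_left (hΦ _ m' p hp) c10)) (Ke0 m m'))
      (add_le_add (mul_le_mul_of_nonneg_left (add_le_add (hν m' p hp) (hΦ _ m' p hp))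
      (Kp0 m m')) (mul_le_mul_of_nonneg_left (add_le_add
        (mul_le_mul_of_nonneg_left (hδ m' p hp) κD0)
        (mul_le_mul_of_nonneg_left (hΦ _ m' p hp) c40)) (Km0 m m')))
  oP := fun m => by
    obtain ⟨d, d0, l, v⟩ := h.oP m
    refine ⟨d, d0, l, le_trans (add_le_add le_rfl (Finset.sum_le_sum fun m' _ => ?_)) v⟩
    exact add_le_add (mul_le_mul_of_nonneg_left (add_le_add (hCν m') (hC _ m'))
      (Kn0 m m')) (mul_le_mul_of_nonneg_left (add_le_add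
        (mul_le_mul_of_nonneg_left (hCδ m') κD0)
        (mul_le_mul_of_nonneg_left (hC _ m') c40)) (Kp0 m m'))
  oQ := fun m => by
    obtain ⟨d, d0, l, v⟩ := h.oQ m
    refine ⟨d, d0, l, le_trans (add_le_add le_rfl (Finset.sum_le_sum fun m' _ => ?_)) v⟩
    exact add_le_add (mul_le_mul_of_nonneg_left (add_le_add
        (mul_le_mul_of_nonneg_left (hCδ m') κE0)
        (mul_le_mul_of_nonneg_left (hC _ m') c10)) (Ke0 m m'))
      (add_le_add (mul_le_mul_of_nonneg_left (add_le_add (hCν m') (hC _ m'))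
      (Kp0 m m')) (mul_le_mul_of_nonneg_left (add_le_add
        (mul_le_mul_of_nonneg_left (hCδ m') κD0)
        (mul_le_mul_of_nonneg_left (hC _ m') c40)) (Km0 m m')))

end cp

end Pool.Agent.RZ.RCO
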