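import Pool.Agent.RZ.RCO.Gs2
import Pool.Agent.RZ.RCO.Gs3_1
import Pool.Agent.RZ.RCO.Hl4

/-! The conditions of the target sums from checks at single times (MP_73ccd0_lc). -/

namespace Pool.Agent.RZ.RCO

open Set Finset Pool.Agent.RZ.RCM

set_option linter.unusedSectionVars false

variable {V : Type*} [Fintype V] [DecidableEq V]

/-! ### the data over time -/

section fam

variable {J : Type*} [Fintype J] [Nonempty J]

/-- the minimum over the family -/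
noncomputable def Fam.n (f : Fam J) (x : V → V → ℝ) (P : V → Prop) (D : Finset V) (s : Bool)
    (e : V) (F : Finset V) (r : ℝ) : ℝ :=
  infF x P D (fun j => f.Φ s j r) (fun j => f.C s j r) e F

/-- the minimum of the functions of the point -/
noncomputable def Fam.p (f : Fam J) (s : Bool) (r : ℝ) (p : Pt) : ℝ :=
  infP (fun j => f.Φ s j r) p

/-- the minimum of the constants -/
noncomputable def Fam.c (f : Fam J) (s : Bool) (r : ℝ) : ℝ := infC fun j => f.C s j r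

variable {x : V → V → ℝ} {P : V → Prop} {D : Finset V} {τ : ℝ} {S : Finset ℝ} {f : Fam J}

theorem Fam.Ok.v0 (h : f.Ok τ S) (hP : RCG.Ct.Wt x P 1) (hx : Wt x) (hD : D.card ≤ 2)
    (s : Bool) (l : J × Option V) {e : V} (he : e ∈ Dᶜ) (F : Finset V) {r : ℝ}
    (hr : r ∈ Icc 0 τ) : 0 ≤ f.v x P D s l e F r :=
  vf_wd_nonneg hP hx hD (h.Φ0 s l.1 r hr) (h.C0 s l.1 r hr) l.2 he F

theorem Fam.Ok.fb (h : f.Ok τ S) (hP : RCG.Ct.Wt x P 1) (hx : Wt x) (hD : D.card ≤ 2)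
    (s : Bool) {r : ℝ} (hr : r ∈ Icc 0 τ) :
    FB x P D (fun v G => f.n x P D s v G r) (f.p s r) (f.c s r) :=
  fb_inf hP hx hD (fun j => h.Φ0 s j r hr) fun j => h.C0 s j r hr

/-- the minimum is attained -/
theorem Fam.ex (f : Fam J) (x : V → V → ℝ) (P : V → Prop) (D : Finset V) (s : Bool) (e : V)
    (F : Finset V) (r : ℝ) : ∃ l : J × Option V, f.v x P D s l e F r ≤ f.n x P D s e F r := by
  obtain ⟨l, hl⟩ := infF_ex x P D (fun j => f.Φ s j r) (fun j => f.C s j r) e F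
  exact ⟨l, hl.ge⟩

end fam

/-! ### the checks -/

/-! ### one vertex -/

section one

variable {x : V → V → ℝ} {D F : Finset V} {e v : V} {P : V → Prop} {hb T : V → V → ℝ}
  {R : ℝ → ℝ} {Rp : ℝ} {W : Pt → ℝ} {Wp : ℝ → ℝ} {Λ : Type*} [Fintype Λ] {B1 B2 : Λ → Pt → ℝ}
  {C1 C2 : Λ → ℝ} {b1 b2 : Λ → V → Finset V → ℝ} {G1 G2 : Λ → ℝ} {ψ : V → Finset V → ℝ}
  {Ψ Φ' : Pt → ℝ} {c C' : ℝ} {wv : Λ → Pt → ℝ}

/-- **the position of a family** -/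
theorem pos_fb (hP : RCG.Ct.Wt x P 1) (hx : Wt x) (hD : D.card ≤ 2) (kr : Krn x P hb R Rp)
    (tb : TBd x P D hb T W Wp) (hψ : FB x P D ψ Ψ c) (w0 : ∀ m, ∀ v ∈ Dᶜ, 0 ≤ wv m (fp x D v))
    (g1 : ∀ m, 0 ≤ G1 m)
    (hp : ∀ p : Pt, p.Sat 0 0 0 → p = p.full → ∃ cE : Ec, EL p.k p.H R Rp
      (fun q => W p.full * W q.full * (Ψ p + (Ψ q + Ψ q.full) / 2))
      (fun q => W p.full * Wp q.M * (Ψ p + c * q.M / 2)) cE ∧ sv cE p ≤ ∑ m, G1 m * wv m p)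
    (hq : ∀ (p : Pt) (x : ℝ), p.Sat x 0 (x * p.k) → x * Rp * (Wp x * W p.full)
      * ((c * x + (Ψ p + Ψ p.full)) / 2) ≤ ∑ m, G1 m * wv m (pnd x p))
    (hF : F ⊆ Dᶜ) (hv : v ∈ F) : KF T ψ F v ≤ ∑ m, G1 m * wv m (fp x D v) := by
  have e0 : ∑ j ∈ F.erase v, (fun _ : Pt => (0 : ℝ)) (fp x D j) * T j v = 0 := by simp
  have z0 : ∀ v ∈ Dᶜ, 0 ≤ (fun _ : Pt => (0 : ℝ)) (fp x D v) := fun _ _ => le_rfl
  by_cases hPv : P v
  · obtain ⟨cE, h1, h2⟩ := hp _ (sat_fp hP hx hD (hF hv) hPv) rfl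
    have h3 := hψ.pos_l hP hx hD kr tb hF hv hPv (w := fun _ => 0) z0
      (Bd := fun p => ∑ m, G1 m * wv m p) ⟨cE, by simpa only [zero_add] using h1, h2⟩
    rw [e0, zero_add] at h3
    exact h3
  · have h3 := hψ.pos_o hP hx hD kr tb hF hv hPv (w := fun _ => 0) z0
      (Bd := fun p => ∑ m, G1 m * wv m p)
      (Finset.sum_nonneg fun m _ => mul_nonneg (g1 m) (w0 m v (hF hv)))
      (fun p x hpx => by simpa only [zero_add] using hq p x hpx)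
    rw [e0, zero_add] at h3
    exact h3

end one

/-! ### the target sums -/

/-- the functions used at the neighbours; `a` the group of the weights `fw a` of the targets -/
noncomputable def tgπ {A J : Type*} [Fintype J] [Nonempty J] (x : V → V → ℝ) (P : V → Prop)
    (D : Finset V) (fw : A → V → ℝ) (f : A → Fam J) (NB DB EB : A → V → Finset V → ℝ → ℝ) :
    VrT V (A × J × Option V) where
  f := fun l _ c _ => fw l.1 c
  N := fun l => NB l.1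
  D := fun l => DB l.1
  E := fun l => EB l.1
  P := fun l => (f l.1).n x P D true
  Q := fun l => (f l.1).n x P D false

/-- **the conditions of the target sums from the checks at single times** -/
theorem sctf_of {x : V → V → ℝ} {P : V → Prop} {D : Finset V} {τ : ℝ} {S : Finset ℝ}
    {hb T : ℝ → V → V → ℝ} {R : ℝ → ℝ → ℝ} {Rp : ℝ → ℝ} {W : ℝ → Pt → ℝ} {Wp : ℝ → ℝ → ℝ}
    {gp gm N Dd Ee : Finset V → V → V → ℝ → ℝ} {c1 c4 : ℝ → ℝ} {Λ : Type*} [Fintype Λ]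
    {wv : Λ → Pt → ℝ} {bf : Bool → Λ → V → Finset V → ℝ → ℝ} {B : Bool → Λ → ℝ → Pt → ℝ}
    {CB : Bool → Λ → ℝ → ℝ} {A J : Type*} [Fintype J] [Nonempty J] {fw : A → V → ℝ}
    {f : A → Fam J} {NB DB EB : A → V → Finset V → ℝ → ℝ} {Ψn Ψe Ψd : A → ℝ → Pt → ℝ}
    {Cn Ce Cd : A → ℝ → ℝ} {Gn Gd : A → J → Λ → ℝ → ℝ}
    (env : WEnv x P D τ S hb T R Rp W Wp) (rw : RwB x P D τ S gp gm wv bf B CB)
    (hf : ∀ a, (f a).Ok τ S) (fw0 : ∀ a, ∀ c ∈ Dᶜ, 0 ≤ fw a c)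
    (hN : ∀ a, ∀ e ∈ Dᶜ, ∀ F ⊆ Dᶜ, e ∉ F → ∀ r ∈ Icc 0 τ, r ∉ S →
      ∑ c ∈ F, fw a c * N (F.erase c) c e r ≤ NB a e F r)
    (hDd : ∀ a, ∀ e ∈ Dᶜ, ∀ F ⊆ Dᶜ, e ∉ F → ∀ r ∈ Icc 0 τ, r ∉ S →
      ∑ c ∈ F, fw a c * Dd (F.erase c) c e r ≤ DB a e F r)
    (hEe : ∀ a, ∀ e ∈ Dᶜ, ∀ F ⊆ Dᶜ, e ∉ F → ∀ r ∈ Icc 0 τ, r ∉ S →
      ∑ c ∈ F, fw a c * Ee (F.erase c) c e r ≤ EB a e F r)
    (fn : ∀ a, ∀ r ∈ Icc 0 τ, r ∉ S → FB x P D
      (fun v G => NB a v G r + (f a).n x P D false v G r) (Ψn a r) (Cn a r))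
    (fe : ∀ a, ∀ r ∈ Icc 0 τ, r ∉ S → FB x P D
      (fun v G => EB a v G r + c1 r * (f a).n x P D true v G r) (Ψe a r) (Ce a r))
    (fd : ∀ a, ∀ r ∈ Icc 0 τ, r ∉ S → FB x P D
      (fun v G => DB a v G r + c4 r * (f a).n x P D true v G r) (Ψd a r) (Cd a r))
    (Gn0 : ∀ a j m, ∀ r ∈ Icc 0 τ, 0 ≤ Gn a j m r) (Gd0 : ∀ a j m, ∀ r ∈ Icc 0 τ, 0 ≤ Gd a j m r)
    (ck : ∀ a, ∀ r ∈ Icc 0 τ, r ∉ S → CT1 (R r) (Rp r) (W r) (Wp r) wv
      (fun s m => B s m r) (fun s m => CB s m r) (Ψn a r) (Ψe a r) (Ψd a r) (Cn a r) (Cd a r)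
      (fun s j => (f a).Φ' s j r) (fun s j => (f a).C' s j r) (fun j m => Gn a j m r)
      fun j m => Gd a j m r) :
    ScTF Dᶜ τ S T gp gm N Dd Ee c1 c4 (fun m _ y _ => wv m (fp x D y)) (bf true) (bf false)
      (tgπ x P D fw f NB DB EB) (fun l _ c _ => fw l.1 c) (fun _ _ _ _ => 0) (fun l => NB l.1)
      (fun l => DB l.1) (fun l => EB l.1) (fun l => (f l.1).v x P D true l.2)
      (fun l => (f l.1).v' x P D true l.2) (fun l => (f l.1).v x P D false l.2)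
      (fun l => (f l.1).v' x P D false l.2)
      (fun l m _ _ r => Gn l.1 l.2.1 m r) (fun l m _ _ r => Gd l.1 l.2.1 m r) where
  cf := fun _ _ _ _ _ => continuousOn_const
  df := fun _ _ _ _ _ r _ _ => hasDerivAt_const r _
  f0 := fun l _ _ c hc _ _ => fw0 l.1 c hc
  f1 := fun _ _ _ _ _ _ _ _ => le_rfl
  fπ := fun _ _ _ _ _ _ _ _ _ _ _ _ _ => le_rfl
  πN := fun l e he F hF heF r hr hrS => hN l.1 e he F hF heF r hr hrS
  πD := fun l e he F hF heF r hr hrS => hDd l.1 e he F hF heF r hr hrS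
  πE := fun l e he F hF heF r hr hrS => hEe l.1 e he F hF heF r hr hrS
  πP := fun l v _ G _ _ r _ _ => by
    obtain ⟨m, hl⟩ := (f l.1).ex x P D true v G r
    exact ⟨(l.1, m), fun _ _ => le_rfl, hl⟩
  πQ := fun l v _ G _ _ r _ _ => by
    obtain ⟨m, hl⟩ := (f l.1).ex x P D false v G r
    exact ⟨(l.1, m), fun _ _ => le_rfl, hl⟩
  hN := fun l e he F hF heF r hr hrS => hN l.1 e he F hF heF r hr hrS
  hD := fun l e he F hF heF r hr hrS => hDd l.1 e he F hF heF r hr hrS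
  hE := fun l e he F hF heF r hr hrS => hEe l.1 e he F hF heF r hr hrS
  P0 := fun l e he F _ _ r hr => (hf l.1).v0 env.hP env.hx env.hD true l.2 he F hr
  Q0 := fun l e he F _ _ r hr => (hf l.1).v0 env.hP env.hx env.hD false l.2 he F hr
  cP := fun l e _ F _ _ => (hf l.1).cv true l.2 e F
  cQ := fun l e _ F _ _ => (hf l.1).cv false l.2 e F
  dP := fun l e _ F _ _ r hr hrS => (hf l.1).dv true l.2 e F hr hrS
  dQ := fun l e _ F _ _ r hr hrS => (hf l.1).dv false l.2 e F hr hrS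
  Gn0 := fun l m _ _ _ _ _ r hr => Gn0 l.1 l.2.1 m r hr
  Gd0 := fun l m _ _ _ _ _ r hr => Gd0 l.1 l.2.1 m r hr
  rp := rw.rp
  rm := rw.rm
  kA := fun l _ _ F hF _ v hv r hr hrS => pos_fb env.hP env.hx env.hD (env.kr r hr hrS)
    (env.tb r hr hrS) (fn l.1 r hr hrS) rw.w0
    (fun m => Gn0 l.1 l.2.1 m r hr) ((ck l.1 r hr hrS).pn l.2.1) ((ck l.1 r hr hrS).qn l.2.1)
    hF hv
  kB := fun l _ _ F hF _ v hv r hr hrS => pos_fb env.hP env.hx env.hD (env.kr r hr hrS)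
    (env.tb r hr hrS) (fd l.1 r hr hrS) rw.w0
    (fun m => Gd0 l.1 l.2.1 m r hr) ((ck l.1 r hr hrS).pd l.2.1) ((ck l.1 r hr hrS).qd l.2.1)
    hF hv
  sP := fun l e he F hF heF r hr hrS => row_fb env.hP env.hx env.hD (env.kr r hr hrS)
    (env.tb r hr hrS) (fn l.1 r hr hrS) (fun m => rw.fb false m r hr hrS)
    (fun m => rw.fb true m r hr hrS) (fun m => Gn0 l.1 l.2.1 m r hr)
    (fun m => Gd0 l.1 l.2.1 m r hr) ((ck l.1 r hr hrS).vP l.2.1) ((ck l.1 r hr hrS).oP l.2.1)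
    ((hf l.1).C1 true l.2.1 r hr hrS) l.2.2 he hF heF
  sQ := fun l e he F hF heF r hr hrS => row_fb env.hP env.hx env.hD (env.kr r hr hrS)
    (env.tb r hr hrS) (fe l.1 r hr hrS) (fun m => rw.fb true m r hr hrS)
    (fun m => rw.fb false m r hr hrS) (fun m => Gn0 l.1 l.2.1 m r hr)
    (fun m => Gd0 l.1 l.2.1 m r hr) ((ck l.1 r hr hrS).vQ l.2.1) ((ck l.1 r hr hrS).oQ l.2.1)
    ((hf l.1).C1 false l.2.1 r hr hrS) l.2.2 he hF heF

end Pool.Agent.RZ.RCO
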