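import Pool.Agent.RZ.RCO.Gi1
import Pool.Agent.RZ.RCO.Gs3_2

/-! Interpolation of the tables in the end time: the functions of time (MP_73ccd0_lc). -/

namespace Pool.Agent.RZ.RCO

open Set Finset Pool.Agent.RZ.RCM

set_option linter.unusedSectionVars false

/-! ### the weight of the second end -/

/-- the weight of the second end at the time `r`: `θ` before `s`, `(s + θ w - r) / (s + w - r)`
after -/
noncomputable def lm (s w θ r : ℝ) : ℝ := 1 - (1 - θ) * w / (s + w - max r s)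

/-- minus its derivative after `s` -/
noncomputable def lm' (s w θ r : ℝ) : ℝ := (1 - θ) * w / (s + w - r) ^ 2

section lm

variable {s w θ r : ℝ}

theorem lm_lo (w0 : 0 < w) (h : r ≤ s) : lm s w θ r = θ := by
  unfold lm
  rw [max_eq_right h, add_sub_cancel_left, mul_div_assoc, div_self w0.ne']
  ring

theorem lm_hi (h : s ≤ r) : lm s w θ r = 1 - (1 - θ) * w / (s + w - r) := by
  unfold lm
  rw [max_eq_left h]

theorem lm_one : lm s w 1 r = 1 := by
  unfold lm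
  rw [sub_self, zero_mul, zero_div, sub_zero]

theorem lm_den (w0 : 0 < w) (h0 : 0 ≤ θ) (hr : r ≤ s + θ * w) :
    (1 - θ) * w ≤ s + w - max r s := by
  have h2 : max r s ≤ s + θ * w := max_le hr (by nlinarith)
  linarith

theorem lm_nonneg (w0 : 0 < w) (h0 : 0 ≤ θ) (h1 : θ ≤ 1) (hr : r ≤ s + θ * w) :
    0 ≤ lm s w θ r := by
  have h2 := lm_den w0 h0 hr
  have h3 : 0 ≤ (1 - θ) * w := mul_nonneg (sub_nonneg.2 h1) w0.le
  exact sub_nonneg.2 (div_le_one_of_le₀ h2 (h3.trans h2))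

theorem lm'_nonneg (w0 : 0 < w) (h1 : θ ≤ 1) : 0 ≤ lm' s w θ r :=
  div_nonneg (mul_nonneg (sub_nonneg.2 h1) w0.le) (sq_nonneg _)

theorem lm_cont (w0 : 0 < w) (h0 : 0 ≤ θ) (h1 : θ ≤ 1) :
    ContinuousOn (lm s w θ) (Icc 0 (s + θ * w)) := by
  rcases h1.eq_or_lt with h | h
  · rw [h]
    exact continuousOn_const.congr fun r _ => lm_one
  · unfold lm
    refine continuousOn_const.sub (continuousOn_const.div (by fun_prop) fun r hr => ?_)
    have h2 := lm_den w0 h0 hr.2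
    have h3 : 0 < (1 - θ) * w := mul_pos (sub_pos.2 h) w0
    exact (h3.trans_le h2).ne'

theorem lm_deriv (h : s < r) (hr : r < s + w) :
    HasDerivAt (lm s w θ) (-lm' s w θ r) r := by
  have e1 : HasDerivAt (fun r => 1 - (1 - θ) * w / (s + w - r)) (-lm' s w θ r) r := by
    have h2 : s + w - r ≠ 0 := by linarith
    have h3 := ((hasDerivAt_const r ((1 - θ) * w)).div ((hasDerivAt_id r).const_sub (s + w))
      h2).const_sub 1
    refine h3.congr_deriv ?_
    unfold lm'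
    simp only [id]
    ring
  refine e1.congr_of_eventuallyEq ?_
  filter_upwards [Ioi_mem_nhds h] with y hy
  exact lm_hi (le_of_lt hy)

end lm

/-! ### one function of time -/

/-- the function of the end `s + θ w` from those of the ends `s` and `s + w` -/
noncomputable def glu (s w θ : ℝ) (f g : ℝ → ℝ) (r : ℝ) : ℝ :=
  if r ≤ s then mx θ (f r) (g r) else lm s w θ r * g r

/-- its derivative -/
noncomputable def glu' (s w θ : ℝ) (f' g' g : ℝ → ℝ) (r : ℝ) : ℝ :=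
  if r ≤ s then mx θ (f' r) (g' r) else lm s w θ r * g' r - lm' s w θ r * g r

/-- a value which does not move after `s` -/
noncomputable def cs (s θ : ℝ) (f g : ℝ → ℝ) (r : ℝ) : ℝ := if r ≤ s then mx θ (f r) (g r) else g r

section glu

variable {s w θ : ℝ} {f g f' g' F G : ℝ → ℝ} {r : ℝ}

theorem glu_lo (h : r ≤ s) : glu s w θ f g r = mx θ (f r) (g r) := if_pos h

theorem glu_hi (h : s < r) : glu s w θ f g r = lm s w θ r * g r := if_neg (not_le.2 h)

theorem glu_eq (w0 : 0 < w) (f0 : f s = 0) :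
    glu s w θ f g = fun r => (1 - lm s w θ r) * f (min r s) + lm s w θ r * g r := by
  funext r
  rcases le_or_gt r s with h | h
  · rw [glu_lo h, lm_lo w0 h, min_eq_left h]
    rfl
  · rw [glu_hi h, min_eq_right h.le, f0, mul_zero, zero_add]

theorem glu_cont (s0 : 0 ≤ s) (w0 : 0 < w) (h0 : 0 ≤ θ) (h1 : θ ≤ 1) (f0 : f s = 0)
    (cf : ContinuousOn f (Icc 0 s)) (cg : ContinuousOn g (Icc 0 (s + w))) :
    ContinuousOn (glu s w θ f g) (Icc 0 (s + θ * w)) := by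
  have tw : θ * w ≤ w := by nlinarith
  have m1 : ContinuousOn (fun r => min r s) (Icc 0 (s + θ * w)) :=
    (continuous_id.min continuous_const).continuousOn
  have a1 := cf.comp m1 fun r hr => ⟨le_min hr.1 s0, min_le_right _ _⟩
  have a2 := cg.mono (Icc_subset_Icc_right (by linarith : s + θ * w ≤ s + w))
  have a3 := lm_cont (s := s) w0 h0 h1
  rw [glu_eq w0 f0]
  exact ((continuousOn_const.sub a3).mul a1).add (a3.mul a2)

theorem glu_dlo (h : r < s) {d e : ℝ} (hf : HasDerivAt f d r) (hg : HasDerivAt g e r) :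
    HasDerivAt (glu s w θ f g) (mx θ d e) r := by
  have h1 : HasDerivAt (fun r => mx θ (f r) (g r)) (mx θ d e) r :=
    (hf.const_mul (1 - θ)).add (hg.const_mul θ)
  refine h1.congr_of_eventuallyEq ?_
  filter_upwards [Iio_mem_nhds h] with y hy
  exact glu_lo (le_of_lt hy)

theorem glu_dhi (h : s < r) (hr : r < s + w) {e : ℝ} (hg : HasDerivAt g e r) :
    HasDerivAt (glu s w θ f g) (lm s w θ r * e - lm' s w θ r * g r) r := by
  have h2 : HasDerivAt (fun r => lm s w θ r * g r) (lm s w θ r * e - lm' s w θ r * g r) r := by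
    refine ((lm_deriv h hr).mul hg).congr_deriv ?_
    ring
  refine h2.congr_of_eventuallyEq ?_
  filter_upwards [Ioi_mem_nhds h] with y hy
  exact glu_hi hy

theorem glu'_lo (h : r ≤ s) : glu' s w θ f' g' g r = mx θ (f' r) (g' r) := if_pos h

theorem glu'_hi (h : s < r) :
    glu' s w θ f' g' g r = lm s w θ r * g' r - lm' s w θ r * g r := if_neg (not_le.2 h)

theorem cs_lo (h : r ≤ s) : cs s θ f g r = mx θ (f r) (g r) := if_pos h

theorem cs_hi (h : s < r) : cs s θ f g r = g r := if_neg (not_le.2 h)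

theorem glu_nonneg (w0 : 0 < w) (h0 : 0 ≤ θ) (h1 : θ ≤ 1)
    (hf : ∀ r ∈ Icc 0 s, 0 ≤ f r) (hg : ∀ r ∈ Icc 0 (s + w), 0 ≤ g r)
    (hr : r ∈ Icc 0 (s + θ * w)) : 0 ≤ glu s w θ f g r := by
  have tw : θ * w ≤ w := by nlinarith
  have up : r ∈ Icc 0 (s + w) := ⟨hr.1, hr.2.trans (by linarith)⟩
  rcases le_or_gt r s with h | h
  · rw [glu_lo h]
    exact mx_nonneg h0 h1 (hf r ⟨hr.1, h⟩) (hg r up)
  · rw [glu_hi h]
    exact mul_nonneg (lm_nonneg w0 h0 h1 hr.2) (hg r up)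

end glu

/-- two variables -/
noncomputable def glu2 {α : Type*} (s w θ : ℝ) (f g : ℝ → α → ℝ) (r : ℝ) (y : α) : ℝ :=
  glu s w θ (fun r => f r y) (fun r => g r y) r

theorem glu2_lo {α : Type*} {s w θ r : ℝ} {f g : ℝ → α → ℝ} (h : r ≤ s) :
    glu2 s w θ f g r = fun y => mx θ (f r y) (g r y) := funext fun _ => glu_lo h

theorem glu2_hi {α : Type*} {s w θ r : ℝ} {f g : ℝ → α → ℝ} (h : s < r) :
    glu2 s w θ f g r = fun y => lm s w θ r * g r y := funext fun _ => glu_hi h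

/-- the kinks of the glued functions -/
noncomputable def glS (s w θ : ℝ) (S : Finset ℝ) : Finset ℝ := insert s (insert (s + θ * w) S)

theorem mem_glS {s w θ : ℝ} {S : Finset ℝ} {r : ℝ} (h : r ∉ glS s w θ S) :
    r ≠ s ∧ r ≠ s + θ * w ∧ r ∉ S := by
  unfold glS at h
  simp only [Finset.mem_insert, not_or] at h
  exact h

/-! ### families -/

section fam

variable {J J' : Type*}

/-- the family of the end `s + θ w` -/
noncomputable def Fam.glu (s w θ : ℝ) (f : Fam J) (g : Fam J') : Fam (J × J') where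
  Φ := fun b j r p => RCO.glu s w θ (fun r => f.Φ b j.1 r p) (fun r => g.Φ b j.2 r p) r
  Φ' := fun b j r p => RCO.glu' s w θ (fun r => f.Φ' b j.1 r p) (fun r => g.Φ' b j.2 r p)
    (fun r => g.Φ b j.2 r p) r
  C := fun b j r => RCO.glu s w θ (f.C b j.1) (g.C b j.2) r
  C' := fun b j r => RCO.glu' s w θ (f.C' b j.1) (g.C' b j.2) (g.C b j.2) r

/-- the functions of the first family vanish at its end -/
structure FMat (s : ℝ) (f : Fam J) : Prop where
  m : ∀ b j p, f.Φ b j s p = 0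
  c : ∀ b j, f.C b j s = 0

variable {s w θ : ℝ} {f : Fam J} {g : Fam J'} {S : Finset ℝ}

theorem Fam.Ok.glu (hf : f.Ok s S) (hg : g.Ok (s + w) S) (hm : FMat s f) (s0 : 0 ≤ s)
    (w0 : 0 < w) (h0 : 0 ≤ θ) (h1 : θ ≤ 1) :
    (Fam.glu s w θ f g).Ok (s + θ * w) (glS s w θ S) := by
  have tw : θ * w ≤ w := by nlinarith
  exact {
    cΦ := fun b j p => glu_cont s0 w0 h0 h1 (hm.m b j.1 p) (hf.cΦ b j.1 p) (hg.cΦ b j.2 p)
    dΦ := fun b j p r hr hS => by
      obtain ⟨n1, n2, n3⟩ := mem_glS hS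
      rcases lt_or_gt_of_ne n1 with h | h
      · have h2 := hf.dΦ b j.1 p r ⟨hr.1, h.le⟩ n3
        have h3 := hg.dΦ b j.2 p r ⟨hr.1, by linarith⟩ n3
        have h4 := glu_dlo (w := w) (θ := θ) h h2 h3
        refine h4.congr_deriv ?_
        exact (glu'_lo (f' := fun r => f.Φ' b j.1 r p) (g' := fun r => g.Φ' b j.2 r p)
          (g := fun r => g.Φ b j.2 r p) h.le).symm
      · have hr2 : r < s + θ * w := lt_of_le_of_ne hr.2 n2
        have h3 := hg.dΦ b j.2 p r ⟨hr.1, by linarith⟩ n3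
        have h4 := glu_dhi (f := fun r => f.Φ b j.1 r p) (θ := θ) h (by linarith : r < s + w) h3
        refine h4.congr_deriv ?_
        exact (glu'_hi (f' := fun r => f.Φ' b j.1 r p) (g' := fun r => g.Φ' b j.2 r p)
          (g := fun r => g.Φ b j.2 r p) h).symm
    cC := fun b j => glu_cont s0 w0 h0 h1 (hm.c b j.1) (hf.cC b j.1) (hg.cC b j.2)
    dC := fun b j r hr hS => by
      obtain ⟨n1, n2, n3⟩ := mem_glS hS
      rcases lt_or_gt_of_ne n1 with h | h
      · have h2 := hf.dC b j.1 r ⟨hr.1, h.le⟩ n3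
        have h3 := hg.dC b j.2 r ⟨hr.1, by linarith⟩ n3
        have h4 := glu_dlo (w := w) (θ := θ) h h2 h3
        refine h4.congr_deriv ?_
        exact (glu'_lo (f' := f.C' b j.1) (g' := g.C' b j.2) (g := g.C b j.2) h.le).symm
      · have hr2 : r < s + θ * w := lt_of_le_of_ne hr.2 n2
        have h3 := hg.dC b j.2 r ⟨hr.1, by linarith⟩ n3
        have h4 := glu_dhi (f := f.C b j.1) (θ := θ) h (by linarith : r < s + w) h3
        refine h4.congr_deriv ?_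
        exact (glu'_hi (f' := f.C' b j.1) (g' := g.C' b j.2) (g := g.C b j.2) h).symm
    Φ0 := fun b j r hr p hp => glu_nonneg w0 h0 h1
      (fun r hr => hf.Φ0 b j.1 r hr p hp) (fun r hr => hg.Φ0 b j.2 r hr p hp) hr
    C0 := fun b j r hr => glu_nonneg w0 h0 h1
      (fun r hr => hf.C0 b j.1 r hr) (fun r hr => hg.C0 b j.2 r hr) hr
    C1 := fun b j r hr hS => by
      obtain ⟨n1, n2, n3⟩ := mem_glS hS
      show glu' s w θ (f.C' b j.1) (g.C' b j.2) (g.C b j.2) r ≤ 0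
      rcases lt_or_gt_of_ne n1 with h | h
      · rw [glu'_lo h.le]
        have h2 := hf.C1 b j.1 r ⟨hr.1, h.le⟩ n3
        have h3 := hg.C1 b j.2 r ⟨hr.1, by linarith⟩ n3
        have := mx_le h0 h1 h2 h3
        rwa [mx_self] at this
      · rw [glu'_hi h]
        have up : r ∈ Icc 0 (s + w) := ⟨hr.1, hr.2.trans (by linarith)⟩
        have a1 := mul_nonneg (lm_nonneg w0 h0 h1 hr.2) (neg_nonneg.2 (hg.C1 b j.2 r up n3))
        have a2 := mul_nonneg (lm'_nonneg (s := s) (r := r) w0 h1) (hg.C0 b j.2 r up)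
        linarith }

/-- the derivatives after `s` are below the multiples of those of the second family -/
theorem Fam.glu_Φ'_hi (hg : g.Ok (s + w) S) (w0 : 0 < w) (h1 : θ ≤ 1) (b : Bool)
    (j : J × J') {r : ℝ} (r0 : 0 ≤ r) (h : s < r) (hr : r ≤ s + θ * w) {p : Pt} (hp : Sa p) :
    (Fam.glu s w θ f g).Φ' b j r p ≤ lm s w θ r * g.Φ' b j.2 r p := by
  have tw : θ * w ≤ w := by nlinarith
  show glu' s w θ (fun r => f.Φ' b j.1 r p) (fun r => g.Φ' b j.2 r p)
    (fun r => g.Φ b j.2 r p) r ≤ _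
  rw [glu'_hi h]
  have := mul_nonneg (lm'_nonneg (s := s) (r := r) w0 h1)
    (hg.Φ0 b j.2 r ⟨r0, hr.trans (by linarith)⟩ p hp)
  linarith

theorem Fam.glu_C'_hi (hg : g.Ok (s + w) S) (w0 : 0 < w) (h1 : θ ≤ 1) (b : Bool)
    (j : J × J') {r : ℝ} (r0 : 0 ≤ r) (h : s < r) (hr : r ≤ s + θ * w) :
    (Fam.glu s w θ f g).C' b j r ≤ lm s w θ r * g.C' b j.2 r := by
  have tw : θ * w ≤ w := by nlinarith
  show glu' s w θ (f.C' b j.1) (g.C' b j.2) (g.C b j.2) r ≤ _
  rw [glu'_hi h]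
  have := mul_nonneg (lm'_nonneg (s := s) (r := r) w0 h1)
    (hg.C0 b j.2 r ⟨r0, hr.trans (by linarith)⟩)
  linarith

variable [Fintype J] [Nonempty J] [Fintype J'] [Nonempty J']

/-- the minimum of the glued functions before `s` -/
theorem Fam.glu_p_lo (b : Bool) {r : ℝ} (h : r ≤ s) (p : Pt) :
    (Fam.glu s w θ f g).p b r p ≤ mx θ (f.p b r p) (g.p b r p) := by
  obtain ⟨j, hj⟩ := infP_ex (fun j => f.Φ b j r) p
  obtain ⟨j', hj'⟩ := infP_ex (fun j => g.Φ b j r) p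
  refine (infP_le (fun j => (Fam.glu s w θ f g).Φ b j r) p (j, j')).trans (le_of_eq ?_)
  show RCO.glu s w θ (fun r => f.Φ b j r p) (fun r => g.Φ b j' r p) r = _
  rw [glu_lo h]
  show mx θ (f.Φ b j r p) (g.Φ b j' r p) = mx θ (f.p b r p) (g.p b r p)
  unfold Fam.p
  rw [hj, hj']

theorem Fam.glu_c_lo (b : Bool) {r : ℝ} (h : r ≤ s) :
    (Fam.glu s w θ f g).c b r ≤ mx θ (f.c b r) (g.c b r) := by
  obtain ⟨j, hj⟩ := infC_ex (fun j => f.C b j r)
  obtain ⟨j', hj'⟩ := infC_ex (fun j => g.C b j r)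
  refine (infC_le (fun j => (Fam.glu s w θ f g).C b j r) (j, j')).trans (le_of_eq ?_)
  show RCO.glu s w θ (f.C b j) (g.C b j') r = _
  rw [glu_lo h]
  unfold Fam.c
  rw [hj, hj']

/-- the minimum of the glued functions after `s` -/
theorem Fam.glu_p_hi (b : Bool) {r : ℝ} (h : s < r) (p : Pt) :
    (Fam.glu s w θ f g).p b r p ≤ lm s w θ r * g.p b r p := by
  obtain ⟨j', hj'⟩ := infP_ex (fun j => g.Φ b j r) p
  obtain ⟨j⟩ := (inferInstance : Nonempty J)
  refine (infP_le (fun j => (Fam.glu s w θ f g).Φ b j r) p (j, j')).trans (le_of_eq ?_)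
  show RCO.glu s w θ (fun r => f.Φ b j r p) (fun r => g.Φ b j' r p) r = _
  rw [glu_hi h]
  show lm s w θ r * g.Φ b j' r p = lm s w θ r * g.p b r p
  unfold Fam.p
  rw [hj']

theorem Fam.glu_c_hi (b : Bool) {r : ℝ} (h : s < r) :
    (Fam.glu s w θ f g).c b r ≤ lm s w θ r * g.c b r := by
  obtain ⟨j', hj'⟩ := infC_ex (fun j => g.C b j r)
  obtain ⟨j⟩ := (inferInstance : Nonempty J)
  refine (infC_le (fun j => (Fam.glu s w θ f g).C b j r) (j, j')).trans (le_of_eq ?_)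
  show RCO.glu s w θ (f.C b j) (g.C b j') r = _
  rw [glu_hi h]
  unfold Fam.c
  rw [hj']

end fam

/-! ### multiples of the checks -/

section sc

theorem OLx.smul {Rp k : ℝ} {G G2 : ℝ → Pt → ℝ} {d : ℝ} (h : OLx Rp G d) (k0 : 0 ≤ k)
    (e : ∀ x p, G2 x p = k * G x p) : OLx Rp G2 (k * d) := fun p x hp => by
  rw [e]
  refine le_trans (le_of_eq ?_) (mul_le_mul_of_nonneg_left (h p x hp) k0)
  ring

theorem OLx.smulR {Rp k : ℝ} {G : ℝ → Pt → ℝ} {d : ℝ} (h : OLx Rp G d) (k0 : 0 ≤ k) :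
    OLx (k * Rp) G (k * d) := fun p x hp => by
  refine le_trans (le_of_eq ?_) (mul_le_mul_of_nonneg_left (h p x hp) k0)
  ring

theorem OLg.smul {k : ℝ} {G G2 : ℝ → Pt → ℝ} {d : ℝ} (h : OLg G d) (k0 : 0 ≤ k)
    (e : ∀ x p, G2 x p = k * G x p) : OLg G2 (k * d) := fun p x hp => by
  rw [e]
  exact mul_le_mul_of_nonneg_left (h p x hp) k0

theorem EL.smulG {a b k : ℝ} {R : ℝ → ℝ} {Rp : ℝ} {G Gp G2 Gp2 : Pt → ℝ} {c : Ec}
    (h : EL a b R Rp G Gp c) (k0 : 0 ≤ k) (e : ∀ q, G2 q = k * G q)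
    (ep : ∀ q, Gp2 q = k * Gp q) : EL a b R Rp G2 Gp2 (c.smul k) :=
  ⟨mul_nonneg k0 h.c6, mul_nonneg k0 h.c7, fun q x hq => by
    rw [ev_smul, e]
    refine le_trans (le_of_eq ?_) (mul_le_mul_of_nonneg_left (h.l q x hq) k0)
    ring, fun q x hq => by
    rw [ev_smul, ep]
    refine le_trans (le_of_eq ?_) (mul_le_mul_of_nonneg_left (h.p q x hq) k0)
    ring⟩

theorem EL.smulR {a b k : ℝ} {R : ℝ → ℝ} {Rp : ℝ} {G Gp : Pt → ℝ} {c : Ec}
    (h : EL a b R Rp G Gp c) (k0 : 0 ≤ k) :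
    EL a b (fun x => k * R x) (k * Rp) G Gp (c.smul k) :=
  ⟨mul_nonneg k0 h.c6, mul_nonneg k0 h.c7, fun q x hq => by
    rw [ev_smul]
    refine le_trans (le_of_eq ?_) (mul_le_mul_of_nonneg_left (h.l q x hq) k0)
    ring, fun q x hq => by
    rw [ev_smul]
    refine le_trans (le_of_eq ?_) (mul_le_mul_of_nonneg_left (h.p q x hq) k0)
    ring⟩

theorem EG.smul {a b k : ℝ} {G Gp G2 Gp2 : ℝ → Pt → ℝ} {c : Ec} (h : EG a b G Gp c)
    (k0 : 0 ≤ k) (e : ∀ x q, G2 x q = k * G x q) (ep : ∀ x q, Gp2 x q = k * Gp x q) :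
    EG a b G2 Gp2 (c.smul k) :=
  ⟨mul_nonneg k0 h.c6, mul_nonneg k0 h.c7, fun q x hq => by
    rw [ev_smul, e]
    refine le_trans (le_of_eq ?_) (mul_le_mul_of_nonneg_left (h.l q x hq) k0)
    ring, fun q x hq => by
    rw [ev_smul, ep]
    refine le_trans (le_of_eq ?_) (mul_le_mul_of_nonneg_left (h.p q x hq) k0)
    ring⟩

theorem KLn.smul {RK : ℝ → ℝ} {RKp k : ℝ} {Gf Gp : Pt → Pt → ℝ} {Φ : Pt → ℝ}
    (h : KLn RK RKp Gf Gp Φ) (k0 : 0 ≤ k) :
    KLn (fun y => k * RK y) (k * RKp) Gf Gp fun p => k * Φ p := fun p hp => by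
  obtain ⟨c, l, v⟩ := h p hp
  refine ⟨c.smul k, l.smulR k0, ?_⟩
  rw [sv_smul]
  exact mul_le_mul_of_nonneg_left v k0

/-- the multiple of a line with a value -/
theorem val_sc {k s t u u2 : ℝ} (k0 : 0 ≤ k) (h : s + t ≤ -u) (hu : u2 ≤ k * u) :
    k * s + k * t ≤ -u2 := by
  have := mul_le_mul_of_nonneg_left h k0
  linarith

/-- **multiples of the checks of the target sums** -/
theorem CT1.sc {J J' Λ : Type*} [Fintype Λ] {R : ℝ → ℝ} {Rp : ℝ} {W : Pt → ℝ} {Wp : ℝ → ℝ}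
    {wv : Λ → Pt → ℝ} {B : Bool → Λ → Pt → ℝ} {CB : Bool → Λ → ℝ} {Ψn Ψe Ψd : Pt → ℝ}
    {Cn Cd k : ℝ} {Φ : Bool → J → Pt → ℝ} {C : Bool → J → ℝ} {Gn Gd : J → Λ → ℝ}
    (h : CT1 R Rp W Wp wv B CB Ψn Ψe Ψd Cn Cd Φ C Gn Gd) (k0 : 0 ≤ k) (i : J' → J)
    {Φ2 : Bool → J' → Pt → ℝ} {C2 : Bool → J' → ℝ}
    (e : ∀ b j p, Sa p → Φ2 b j p ≤ k * Φ b (i j) p) (e' : ∀ b j, C2 b j ≤ k * C b (i j)) :
    CT1 R Rp W Wp wv B CB (fun p => k * Ψn p) (fun p => k * Ψe p) (fun p => k * Ψd p) (k * Cn)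
      (k * Cd) Φ2 C2 (fun j m => k * Gn (i j) m) fun j m => k * Gd (i j) m where
  vP := fun j p hp => by
    obtain ⟨c, l, v⟩ := h.vP (i j) p hp
    refine ⟨c.smul k, l.smulG k0 (fun q => by ring) (fun q => by ring), ?_⟩
    rw [sv_smul]
    refine le_trans (le_of_eq ?_) (val_sc k0 v (e true j p hp))
    rw [Finset.mul_sum]
    exact congrArg₂ _ rfl (Finset.sum_congr rfl fun m _ => by ring)
  vQ := fun j p hp => by
    obtain ⟨c, l, v⟩ := h.vQ (i j) p hp
    refine ⟨c.smul k, l.smulG k0 (fun q => by ring) (fun q => by ring), ?_⟩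
    rw [sv_smul]
    refine le_trans (le_of_eq ?_) (val_sc k0 v (e false j p hp))
    rw [Finset.mul_sum]
    exact congrArg₂ _ rfl (Finset.sum_congr rfl fun m _ => by ring)
  pn := fun j p hp hf => by
    obtain ⟨c, l, v⟩ := h.pn (i j) p hp hf
    refine ⟨c.smul k, l.smulG k0 (fun q => by ring) (fun q => by ring), ?_⟩
    rw [sv_smul]
    refine (mul_le_mul_of_nonneg_left v k0).trans (le_of_eq ?_)
    rw [Finset.mul_sum]
    exact Finset.sum_congr rfl fun m _ => by ring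
  pd := fun j p hp hf => by
    obtain ⟨c, l, v⟩ := h.pd (i j) p hp hf
    refine ⟨c.smul k, l.smulG k0 (fun q => by ring) (fun q => by ring), ?_⟩
    rw [sv_smul]
    refine (mul_le_mul_of_nonneg_left v k0).trans (le_of_eq ?_)
    rw [Finset.mul_sum]
    exact Finset.sum_congr rfl fun m _ => by ring
  oP := fun j => by
    obtain ⟨d, l, v⟩ := h.oP (i j)
    refine ⟨k * d, l.smul k0 fun x p => by ring, ?_⟩
    refine le_trans (le_of_eq ?_) (val_sc k0 v (e' true j))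
    rw [Finset.mul_sum]
    exact congrArg₂ _ rfl (Finset.sum_congr rfl fun m _ => by ring)
  oQ := fun j => by
    obtain ⟨d, l, v⟩ := h.oQ (i j)
    refine ⟨k * d, l.smul k0 fun x p => by ring, ?_⟩
    refine le_trans (le_of_eq ?_) (val_sc k0 v (e' false j))
    rw [Finset.mul_sum]
    exact congrArg₂ _ rfl (Finset.sum_congr rfl fun m _ => by ring)
  qn := fun j p x hp => by
    refine le_trans (le_of_eq ?_) ((mul_le_mul_of_nonneg_left (h.qn (i j) p x hp) k0).trans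
      (le_of_eq ?_))
    · ring
    · rw [Finset.mul_sum]
      exact Finset.sum_congr rfl fun m _ => by ring
  qd := fun j p x hp => by
    refine le_trans (le_of_eq ?_) ((mul_le_mul_of_nonneg_left (h.qd (i j) p x hp) k0).trans
      (le_of_eq ?_))
    · ring
    · rw [Finset.mul_sum]
      exact Finset.sum_congr rfl fun m _ => by ring

/-- **multiples of the checks of the position sums** -/
theorem CP1.sc {M : Type*} [Fintype M] {R : ℝ → ℝ} {Rp : ℝ} {W : Pt → ℝ} {Wp : ℝ → ℝ}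
    {RD RE : ℝ → ℝ} {RDp REp k : ℝ} {w1 : M → Pt → ℝ} {B : Bool → M → Pt → ℝ}
    {CB : Bool → M → ℝ} {Θ : M → Pt → ℝ} {CΘ : M → ℝ} {ν δ : M → Pt → ℝ}
    {Cν Cδ : M → ℝ} {κD κE c1 c4 : ℝ} {Φ Φd Φ2 : Bool → M → Pt → ℝ}
    {C Cd C2 : Bool → M → ℝ} {Kn Kp Ke Km : M → M → ℝ}
    (h : CP1 R Rp W Wp RD RDp RE REp w1 B CB Θ CΘ ν δ Cν Cδ κD κE c1 c4 Φ Φd C Cd
      Kn Kp Ke Km) (k0 : 0 ≤ k)
    (e : ∀ b m p, Sa p → Φ2 b m p ≤ k * Φd b m p) (e' : ∀ b m, C2 b m ≤ k * Cd b m) :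
    CP1 R Rp W Wp (fun x => k * RD x) (k * RDp) (fun x => k * RE x) (k * REp) w1 B CB Θ CΘ
      (fun m p => k * ν m p) (fun m p => k * δ m p) (fun m => k * Cν m) (fun m => k * Cδ m)
      κD κE c1 c4 (fun s m p => k * Φ s m p) Φ2 (fun s m => k * C s m) C2 Kn Kp Ke Km where
  kn := h.kn
  kp := h.kp
  ke := h.ke
  km := h.km
  qn := h.qn
  qp := h.qp
  qe := h.qe
  qm := h.qm
  tΘ := h.tΘ
  oΘ := h.oΘ
  CΘ0 := h.CΘ0
  vP := fun m p hp => by
    obtain ⟨c, l, v⟩ := h.vP m p hp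
    refine ⟨c.smul k, l.smulR k0, ?_⟩
    rw [sv_smul]
    refine le_trans (le_of_eq ?_) (val_sc k0 v (e true m p hp))
    rw [Finset.mul_sum]
    exact congrArg₂ _ rfl (Finset.sum_congr rfl fun m _ => by ring)
  vQ := fun m p hp => by
    obtain ⟨c, l, v⟩ := h.vQ m p hp
    refine ⟨c.smul k, l.smul k0 (fun x q => by ring) (fun x q => by ring), ?_⟩
    rw [sv_smul]
    refine le_trans (le_of_eq ?_) (val_sc k0 v (e false m p hp))
    rw [Finset.mul_sum]
    exact congrArg₂ _ rfl (Finset.sum_congr rfl fun m _ => by ring)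
  oP := fun m => by
    obtain ⟨d, d0, l, v⟩ := h.oP m
    refine ⟨k * d, mul_nonneg k0 d0, l.smulR k0, ?_⟩
    refine le_trans (le_of_eq ?_) (val_sc k0 v (e' true m))
    rw [Finset.mul_sum]
    exact congrArg₂ _ rfl (Finset.sum_congr rfl fun m _ => by ring)
  oQ := fun m => by
    obtain ⟨d, d0, l, v⟩ := h.oQ m
    refine ⟨k * d, mul_nonneg k0 d0, l.smul k0 fun x p => by ring, ?_⟩
    refine le_trans (le_of_eq ?_) (val_sc k0 v (e' false m))
    rw [Finset.mul_sum]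
    exact congrArg₂ _ rfl (Finset.sum_congr rfl fun m _ => by ring)

end sc

end Pool.Agent.RZ.RCO
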