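import Pool.Agent.RZ.RCO.Gi2
import Pool.Agent.RZ.RCO.Gs9_1

/-! Interpolation of the systems of level 1 in the end time (MP_73ccd0_lc). -/

namespace Pool.Agent.RZ.RCO

open Set Finset Pool.Agent.RZ.RCM

set_option linter.unusedSectionVars false

/-! ### families -/

/-- a family indexed by other indices -/
def Fam.re {J J' : Type*} (f : Fam J) (i : J' → J) : Fam J' where
  Φ := fun b j => f.Φ b (i j)
  Φ' := fun b j => f.Φ' b (i j)
  C := fun b j => f.C b (i j)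
  C' := fun b j => f.C' b (i j)

theorem Fam.Ok.re {J J' : Type*} {f : Fam J} {σ : ℝ} {S : Finset ℝ} (h : f.Ok σ S) (i : J' → J) :
    (f.re i).Ok σ S where
  cΦ := fun b j => h.cΦ b (i j)
  dΦ := fun b j => h.dΦ b (i j)
  cC := fun b j => h.cC b (i j)
  dC := fun b j => h.dC b (i j)
  Φ0 := fun b j => h.Φ0 b (i j)
  C0 := fun b j => h.C0 b (i j)
  C1 := fun b j => h.C1 b (i j)

/-- the family of positions of the end `s + θ w` -/
noncomputable def Fam.gd {M : Type*} (s w θ : ℝ) (f g : Fam M) : Fam M :=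
  (Fam.glu s w θ f g).re fun m => (m, m)

section gd

variable {M : Type*} {s w θ : ℝ} {f g : Fam M} {S : Finset ℝ}

theorem Fam.Ok.gd (hf : f.Ok s S) (hg : g.Ok (s + w) S) (hm : FMat s f) (s0 : 0 ≤ s)
    (w0 : 0 < w) (h0 : 0 ≤ θ) (h1 : θ ≤ 1) : (Fam.gd s w θ f g).Ok (s + θ * w) (glS s w θ S) :=
  (hf.glu hg hm s0 w0 h0 h1).re _

theorem Fam.gd_lo (b : Bool) (m : M) {r : ℝ} (h : r ≤ s) (p : Pt) :
    (Fam.gd s w θ f g).Φ b m r p = mx θ (f.Φ b m r p) (g.Φ b m r p) :=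
  glu_lo (f := fun r => f.Φ b m r p) (g := fun r => g.Φ b m r p) h

theorem Fam.gd_clo (b : Bool) (m : M) {r : ℝ} (h : r ≤ s) :
    (Fam.gd s w θ f g).C b m r = mx θ (f.C b m r) (g.C b m r) := glu_lo h

theorem Fam.gd_lo' (b : Bool) (m : M) {r : ℝ} (h : r ≤ s) (p : Pt) :
    (Fam.gd s w θ f g).Φ' b m r p = mx θ (f.Φ' b m r p) (g.Φ' b m r p) :=
  glu'_lo (f' := fun r => f.Φ' b m r p) (g' := fun r => g.Φ' b m r p)
    (g := fun r => g.Φ b m r p) h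

theorem Fam.gd_clo' (b : Bool) (m : M) {r : ℝ} (h : r ≤ s) :
    (Fam.gd s w θ f g).C' b m r = mx θ (f.C' b m r) (g.C' b m r) := glu'_lo h

theorem Fam.gd_hi (b : Bool) (m : M) {r : ℝ} (h : s < r) (p : Pt) :
    (Fam.gd s w θ f g).Φ b m r p = lm s w θ r * g.Φ b m r p :=
  glu_hi (f := fun r => f.Φ b m r p) (g := fun r => g.Φ b m r p) h

theorem Fam.gd_chi (b : Bool) (m : M) {r : ℝ} (h : s < r) :
    (Fam.gd s w θ f g).C b m r = lm s w θ r * g.C b m r := glu_hi h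

theorem Fam.gd_hi' (hg : g.Ok (s + w) S) (w0 : 0 < w) (h1 : θ ≤ 1) (b : Bool) (m : M) {r : ℝ}
    (r0 : 0 ≤ r) (h : s < r) (hr : r ≤ s + θ * w) {p : Pt} (hp : Sa p) :
    (Fam.gd s w θ f g).Φ' b m r p ≤ lm s w θ r * g.Φ' b m r p :=
  Fam.glu_Φ'_hi (f := f) hg w0 h1 b (m, m) r0 h hr hp

theorem Fam.gd_chi' (hg : g.Ok (s + w) S) (w0 : 0 < w) (h1 : θ ≤ 1) (b : Bool) (m : M) {r : ℝ}
    (r0 : 0 ≤ r) (h : s < r) (hr : r ≤ s + θ * w) :
    (Fam.gd s w θ f g).C' b m r ≤ lm s w θ r * g.C' b m r :=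
  Fam.glu_C'_hi (f := f) hg w0 h1 b (m, m) r0 h hr

end gd

/-! ### the environment -/

/-- the environment with other kernels of the killing -/
def TEnv.wk (C : TEnv) (RD RE : ℝ → ℝ → ℝ) (RDp REp : ℝ → ℝ) : TEnv :=
  { C with RD := RD, RDp := RDp, RE := RE, REp := REp }

/-! ### lines -/

theorem KLn.mix {RK RK' : ℝ → ℝ} {RKp RKp' θ : ℝ} {Gf Gp : Pt → Pt → ℝ} {Φ Φ' : Pt → ℝ}
    (h : KLn RK RKp Gf Gp Φ) (h' : KLn RK' RKp' Gf Gp Φ') (h0 : 0 ≤ θ) (h1 : θ ≤ 1) :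
    KLn (fun y => mx θ (RK y) (RK' y)) (mx θ RKp RKp') Gf Gp fun p => mx θ (Φ p) (Φ' p) :=
  fun p hp => by
    obtain ⟨c, l, v⟩ := h p hp
    obtain ⟨c', l', v'⟩ := h' p hp
    refine ⟨c.mx θ c', l.mxR l' h0 h1, ?_⟩
    rw [sv_mx]
    exact mx_le h0 h1 v v'

/-! ### the targets -/

section dt

variable {J J' Λ : Type*}

/-- the data of the targets of the end `s + θ w` -/
noncomputable def DT1.mix (s w θ : ℝ) (d : DT1 J Λ) (d' : DT1 J' Λ) : DT1 (J × J') Λ where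
  f := Fam.glu s w θ d.f d'.f
  ΦD := glu2 s w θ d.ΦD d'.ΦD
  ΦE := glu2 s w θ d.ΦE d'.ΦE
  CD := glu s w θ d.CD d'.CD
  CE := glu s w θ d.CE d'.CE
  Ψn := glu2 s w θ d.Ψn d'.Ψn
  Ψe := glu2 s w θ d.Ψe d'.Ψe
  Ψd := glu2 s w θ d.Ψd d'.Ψd
  Cn := glu s w θ d.Cn d'.Cn
  Ce := glu s w θ d.Ce d'.Ce
  Cd := glu s w θ d.Cd d'.Cd
  Gn := fun j m => glu s w θ (d.Gn j.1 m) (d'.Gn j.2 m)
  Gd := fun j m => glu s w θ (d.Gd j.1 m) (d'.Gd j.2 m)

variable [Fintype J] [Nonempty J] [Fintype J'] [Nonempty J'] [Fintype Λ] {s w θ : ℝ}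
  {S : Finset ℝ} {C : TEnv} {RD RE RD' RE' : ℝ → ℝ → ℝ} {RDp REp RDp' REp' : ℝ → ℝ}
  {wv : Λ → Pt → ℝ} {B : Bool → Λ → ℝ → Pt → ℝ} {CB : Bool → Λ → ℝ → ℝ}
  {ν δ ν' δ' νm δm : Pt → ℝ} {Cν Cδ Cν' Cδ' Cνm Cδm : ℝ} {d : DT1 J Λ} {d' : DT1 J' Λ}

/-- **the conditions of the targets of the end `s + θ w`**, no end values -/
theorem DT1.Ok.mix (h : d.Ok s S (C.wk RD RE RDp REp) wv B CB ν δ Cν Cδ)
    (h' : d'.Ok (s + w) S (C.wk RD' RE' RDp' REp') wv B CB ν' δ' Cν' Cδ')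
    (hm : FMat s d.f) (s0 : 0 ≤ s) (w0 : 0 < w) (h0 : 0 ≤ θ) (h1 : θ ≤ 1)
    (κD0 : ∀ r ∈ Icc 0 (s + w), 0 ≤ C.κD r) (κE0 : ∀ r ∈ Icc 0 (s + w), 0 ≤ C.κE r)
    (ν1 : ∀ p, Sa p → 0 ≤ ν p) (ν2 : ∀ p, Sa p → 0 ≤ ν' p) (ν3 : ∀ p, Sa p → νm p ≤ 0)
    (δ1 : ∀ p, Sa p → 0 ≤ δ p) (δ2 : ∀ p, Sa p → 0 ≤ δ' p) (δ3 : ∀ p, Sa p → δm p ≤ 0)
    (Cν1 : 0 ≤ Cν) (Cν2 : 0 ≤ Cν') (Cν3 : Cνm ≤ 0) (Cδ1 : 0 ≤ Cδ) (Cδ2 : 0 ≤ Cδ')
    (Cδ3 : Cδm ≤ 0) :
    (DT1.mix s w θ d d').Ok (s + θ * w) (glS s w θ S)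
      (C.wk (glu2 s w θ RD RD') (glu2 s w θ RE RE') (glu s w θ RDp RDp')
        (glu s w θ REp REp')) wv B CB νm δm Cνm Cδm := by
  have tw : θ * w ≤ w := by nlinarith
  have lo : ∀ {r : ℝ}, r ∈ Icc 0 (s + θ * w) → r ≤ s → r ∈ Icc 0 s := fun hr h => ⟨hr.1, h⟩
  have up : ∀ {r : ℝ}, r ∈ Icc 0 (s + θ * w) → r ∈ Icc 0 (s + w) := fun hr =>
    ⟨hr.1, hr.2.trans (by linarith)⟩
  have l0 : ∀ {r : ℝ}, r ∈ Icc 0 (s + θ * w) → 0 ≤ lm s w θ r := fun hr =>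
    lm_nonneg w0 h0 h1 hr.2
  have Z : ∀ {a b c : ℝ}, 0 ≤ a → 0 ≤ b → c ≤ 0 → c ≤ RCO.mx θ a b := fun ha hb hc =>
    hc.trans (mx_nonneg h0 h1 ha hb)
  have Y : ∀ {r a c : ℝ}, r ∈ Icc 0 (s + θ * w) → 0 ≤ a → c ≤ 0 → c ≤ lm s w θ r * a :=
    fun hr ha hc => hc.trans (mul_nonneg (l0 hr) ha)
  exact {
    f := h.f.glu h'.f hm s0 w0 h0 h1
    kD := fun r hr hS => by
      obtain ⟨-, -, n3⟩ := mem_glS hS
      show KLn (glu2 s w θ RD RD' r) (glu s w θ RDp RDp' r) _ _ (glu2 s w θ d.ΦD d'.ΦD r)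
      rcases le_or_gt r s with hl | hl
      · have k := (h.kD r (lo hr hl) n3).mix (h'.kD r (up hr) n3) h0 h1
        rw [glu2_lo hl, glu_lo hl, glu2_lo hl]
        exact k
      · have k := (h'.kD r (up hr) n3).smul (l0 hr)
        rw [glu2_hi hl, glu_hi hl, glu2_hi hl]
        exact k
    kE := fun r hr hS => by
      obtain ⟨-, -, n3⟩ := mem_glS hS
      show KLn (glu2 s w θ RE RE' r) (glu s w θ REp REp' r) _ _ (glu2 s w θ d.ΦE d'.ΦE r)
      rcases le_or_gt r s with hl | hl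
      · have k := (h.kE r (lo hr hl) n3).mix (h'.kE r (up hr) n3) h0 h1
        rw [glu2_lo hl, glu_lo hl, glu2_lo hl]
        exact k
      · have k := (h'.kE r (up hr) n3).smul (l0 hr)
        rw [glu2_hi hl, glu_hi hl, glu2_hi hl]
        exact k
    oD := fun r hr hS => by
      obtain ⟨-, -, n3⟩ := mem_glS hS
      show OLx (glu s w θ RDp RDp' r) _ (glu s w θ d.CD d'.CD r) ∧
        0 ≤ glu s w θ d.CD d'.CD r
      rcases le_or_gt r s with hl | hl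
      · obtain ⟨k1, k2⟩ := h.oD r (lo hr hl) n3
        obtain ⟨k3, k4⟩ := h'.oD r (up hr) n3
        rw [glu_lo hl, glu_lo hl]
        exact ⟨k1.mxR k3 h0 h1, mx_nonneg h0 h1 k2 k4⟩
      · obtain ⟨k3, k4⟩ := h'.oD r (up hr) n3
        rw [glu_hi hl, glu_hi hl]
        exact ⟨k3.smulR (l0 hr), mul_nonneg (l0 hr) k4⟩
    oE := fun r hr hS => by
      obtain ⟨-, -, n3⟩ := mem_glS hS
      show OLx (glu s w θ REp REp' r) _ (glu s w θ d.CE d'.CE r) ∧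
        0 ≤ glu s w θ d.CE d'.CE r
      rcases le_or_gt r s with hl | hl
      · obtain ⟨k1, k2⟩ := h.oE r (lo hr hl) n3
        obtain ⟨k3, k4⟩ := h'.oE r (up hr) n3
        rw [glu_lo hl, glu_lo hl]
        exact ⟨k1.mxR k3 h0 h1, mx_nonneg h0 h1 k2 k4⟩
      · obtain ⟨k3, k4⟩ := h'.oE r (up hr) n3
        rw [glu_hi hl, glu_hi hl]
        exact ⟨k3.smulR (l0 hr), mul_nonneg (l0 hr) k4⟩
    c10 := fun r hr => h'.c10 r (up hr)
    c40 := fun r hr => h'.c40 r (up hr)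
    sn := fun r hr hS => by
      obtain ⟨-, -, n3⟩ := mem_glS hS
      obtain ⟨a2, b2⟩ := h'.sn r (up hr) n3
      show (∀ p, Sa p → νm p + (Fam.glu s w θ d.f d'.f).p false r p
          ≤ glu2 s w θ d.Ψn d'.Ψn r p) ∧
        Cνm + (Fam.glu s w θ d.f d'.f).c false r ≤ glu s w θ d.Cn d'.Cn r
      rcases le_or_gt r s with hl | hl
      · obtain ⟨a1, b1⟩ := h.sn r (lo hr hl) n3
        rw [glu2_lo hl, glu_lo hl]
        refine ⟨fun p hp => ?_, ?_⟩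
        · refine (add_le_add (Z (ν1 p hp) (ν2 p hp) (ν3 p hp)) (Fam.glu_p_lo false hl p)).trans ?_
          refine le_trans (le_of_eq ?_) (mx_le h0 h1 (a1 p hp) (a2 p hp))
          unfold RCO.mx
          ring
        · refine (add_le_add (Z Cν1 Cν2 Cν3) (Fam.glu_c_lo false hl)).trans ?_
          refine le_trans (le_of_eq ?_) (mx_le h0 h1 b1 b2)
          unfold RCO.mx
          ring
      · rw [glu2_hi hl, glu_hi hl]
        refine ⟨fun p hp => ?_, ?_⟩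
        · refine (add_le_add (Y hr (ν2 p hp) (ν3 p hp)) (Fam.glu_p_hi false hl p)).trans ?_
          refine le_trans (le_of_eq ?_) (mul_le_mul_of_nonneg_left (a2 p hp) (l0 hr))
          ring
        · refine (add_le_add (Y hr Cν2 Cν3) (Fam.glu_c_hi false hl)).trans ?_
          refine le_trans (le_of_eq ?_) (mul_le_mul_of_nonneg_left b2 (l0 hr))
          ring
    se := fun r hr hS => by
      obtain ⟨-, -, n3⟩ := mem_glS hS
      obtain ⟨a2, b2⟩ := h'.se r (up hr) n3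
      have c0 : 0 ≤ C.c1 r := h'.c10 r (up hr)
      have k0 := κE0 r (up hr)
      show (∀ p, Sa p → glu2 s w θ d.ΦE d'.ΦE r p + C.κE r * δm p
          + C.c1 r * (Fam.glu s w θ d.f d'.f).p true r p ≤ glu2 s w θ d.Ψe d'.Ψe r p) ∧
        glu s w θ d.CE d'.CE r + C.κE r * Cδm + C.c1 r * (Fam.glu s w θ d.f d'.f).c true r
          ≤ glu s w θ d.Ce d'.Ce r
      rcases le_or_gt r s with hl | hl
      · obtain ⟨a1, b1⟩ := h.se r (lo hr hl) n3
        rw [glu2_lo hl, glu2_lo hl, glu_lo hl, glu_lo hl]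
        refine ⟨fun p hp => ?_, ?_⟩
        · refine (add_le_add (add_le_add le_rfl (mul_le_mul_of_nonneg_left
            (Z (δ1 p hp) (δ2 p hp) (δ3 p hp)) k0))
            (mul_le_mul_of_nonneg_left (Fam.glu_p_lo true hl p) c0)).trans ?_
          refine le_trans (le_of_eq ?_) (mx_le h0 h1 (a1 p hp) (a2 p hp))
          show _ = RCO.mx θ (d.ΦE r p + C.κE r * δ p + C.c1 r * d.f.p true r p)
            (d'.ΦE r p + C.κE r * δ' p + C.c1 r * d'.f.p true r p)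
          unfold RCO.mx
          ring
        · refine (add_le_add (add_le_add le_rfl (mul_le_mul_of_nonneg_left
            (Z Cδ1 Cδ2 Cδ3) k0))
            (mul_le_mul_of_nonneg_left (Fam.glu_c_lo true hl) c0)).trans ?_
          refine le_trans (le_of_eq ?_) (mx_le h0 h1 b1 b2)
          show _ = RCO.mx θ (d.CE r + C.κE r * Cδ + C.c1 r * d.f.c true r)
            (d'.CE r + C.κE r * Cδ' + C.c1 r * d'.f.c true r)
          unfold RCO.mx
          ring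
      · rw [glu2_hi hl, glu2_hi hl, glu_hi hl, glu_hi hl]
        refine ⟨fun p hp => ?_, ?_⟩
        · refine (add_le_add (add_le_add le_rfl (mul_le_mul_of_nonneg_left
            (Y hr (δ2 p hp) (δ3 p hp)) k0))
            (mul_le_mul_of_nonneg_left (Fam.glu_p_hi true hl p) c0)).trans ?_
          refine le_trans (le_of_eq ?_) (mul_le_mul_of_nonneg_left (a2 p hp) (l0 hr))
          show _ = lm s w θ r * (d'.ΦE r p + C.κE r * δ' p + C.c1 r * d'.f.p true r p)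
          ring
        · refine (add_le_add (add_le_add le_rfl (mul_le_mul_of_nonneg_left
            (Y hr Cδ2 Cδ3) k0))
            (mul_le_mul_of_nonneg_left (Fam.glu_c_hi true hl) c0)).trans ?_
          refine le_trans (le_of_eq ?_) (mul_le_mul_of_nonneg_left b2 (l0 hr))
          show _ = lm s w θ r * (d'.CE r + C.κE r * Cδ' + C.c1 r * d'.f.c true r)
          ring
    sd := fun r hr hS => by
      obtain ⟨-, -, n3⟩ := mem_glS hS
      obtain ⟨a2, b2⟩ := h'.sd r (up hr) n3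
      have c0 : 0 ≤ C.c4 r := h'.c40 r (up hr)
      have k0 := κD0 r (up hr)
      show (∀ p, Sa p → glu2 s w θ d.ΦD d'.ΦD r p + C.κD r * δm p
          + C.c4 r * (Fam.glu s w θ d.f d'.f).p true r p ≤ glu2 s w θ d.Ψd d'.Ψd r p) ∧
        glu s w θ d.CD d'.CD r + C.κD r * Cδm + C.c4 r * (Fam.glu s w θ d.f d'.f).c true r
          ≤ glu s w θ d.Cd d'.Cd r
      rcases le_or_gt r s with hl | hl
      · obtain ⟨a1, b1⟩ := h.sd r (lo hr hl) n3
        rw [glu2_lo hl, glu2_lo hl, glu_lo hl, glu_lo hl]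
        refine ⟨fun p hp => ?_, ?_⟩
        · refine (add_le_add (add_le_add le_rfl (mul_le_mul_of_nonneg_left
            (Z (δ1 p hp) (δ2 p hp) (δ3 p hp)) k0))
            (mul_le_mul_of_nonneg_left (Fam.glu_p_lo true hl p) c0)).trans ?_
          refine le_trans (le_of_eq ?_) (mx_le h0 h1 (a1 p hp) (a2 p hp))
          show _ = RCO.mx θ (d.ΦD r p + C.κD r * δ p + C.c4 r * d.f.p true r p)
            (d'.ΦD r p + C.κD r * δ' p + C.c4 r * d'.f.p true r p)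
          unfold RCO.mx
          ring
        · refine (add_le_add (add_le_add le_rfl (mul_le_mul_of_nonneg_left
            (Z Cδ1 Cδ2 Cδ3) k0))
            (mul_le_mul_of_nonneg_left (Fam.glu_c_lo true hl) c0)).trans ?_
          refine le_trans (le_of_eq ?_) (mx_le h0 h1 b1 b2)
          show _ = RCO.mx θ (d.CD r + C.κD r * Cδ + C.c4 r * d.f.c true r)
            (d'.CD r + C.κD r * Cδ' + C.c4 r * d'.f.c true r)
          unfold RCO.mx
          ring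
      · rw [glu2_hi hl, glu2_hi hl, glu_hi hl, glu_hi hl]
        refine ⟨fun p hp => ?_, ?_⟩
        · refine (add_le_add (add_le_add le_rfl (mul_le_mul_of_nonneg_left
            (Y hr (δ2 p hp) (δ3 p hp)) k0))
            (mul_le_mul_of_nonneg_left (Fam.glu_p_hi true hl p) c0)).trans ?_
          refine le_trans (le_of_eq ?_) (mul_le_mul_of_nonneg_left (a2 p hp) (l0 hr))
          show _ = lm s w θ r * (d'.ΦD r p + C.κD r * δ' p + C.c4 r * d'.f.p true r p)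
          ring
        · refine (add_le_add (add_le_add le_rfl (mul_le_mul_of_nonneg_left
            (Y hr Cδ2 Cδ3) k0))
            (mul_le_mul_of_nonneg_left (Fam.glu_c_hi true hl) c0)).trans ?_
          refine le_trans (le_of_eq ?_) (mul_le_mul_of_nonneg_left b2 (l0 hr))
          show _ = lm s w θ r * (d'.CD r + C.κD r * Cδ' + C.c4 r * d'.f.c true r)
          ring
    Gn0 := fun j m r hr => glu_nonneg w0 h0 h1 (h.Gn0 j.1 m) (h'.Gn0 j.2 m) hr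
    Gd0 := fun j m r hr => glu_nonneg w0 h0 h1 (h.Gd0 j.1 m) (h'.Gd0 j.2 m) hr
    C := fun r hr hS => by
      obtain ⟨-, -, n3⟩ := mem_glS hS
      show CT1 (C.R r) (C.Rp r) (C.W r) (C.Wp r) wv (fun s m => B s m r)
        (fun s m => CB s m r) (glu2 s w θ d.Ψn d'.Ψn r) (glu2 s w θ d.Ψe d'.Ψe r)
        (glu2 s w θ d.Ψd d'.Ψd r) (glu s w θ d.Cn d'.Cn r) (glu s w θ d.Cd d'.Cd r)
        (fun b j => (Fam.glu s w θ d.f d'.f).Φ' b j r)
        (fun b j => (Fam.glu s w θ d.f d'.f).C' b j r)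
        (fun j m => glu s w θ (d.Gn j.1 m) (d'.Gn j.2 m) r)
        fun j m => glu s w θ (d.Gd j.1 m) (d'.Gd j.2 m) r
      rcases le_or_gt r s with hl | hl
      · have k := (h.C r (lo hr hl) n3).mix (h'.C r (up hr) n3) h0 h1
        have e1 : (fun (b : Bool) (j : J × J') => (Fam.glu s w θ d.f d'.f).Φ' b j r)
            = fun b j p => RCO.mx θ (d.f.Φ' b j.1 r p) (d'.f.Φ' b j.2 r p) := by
          funext b j p
          exact glu'_lo (f' := fun r => d.f.Φ' b j.1 r p) (g' := fun r => d'.f.Φ' b j.2 r p)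
            (g := fun r => d'.f.Φ b j.2 r p) hl
        have e2 : (fun (b : Bool) (j : J × J') => (Fam.glu s w θ d.f d'.f).C' b j r)
            = fun b j => RCO.mx θ (d.f.C' b j.1 r) (d'.f.C' b j.2 r) := by
          funext b j
          exact glu'_lo (f' := d.f.C' b j.1) (g' := d'.f.C' b j.2) (g := d'.f.C b j.2) hl
        rw [e1, e2]
        simp only [glu2_lo hl, glu_lo hl]
        exact k
      · simp only [glu2_hi hl, glu_hi hl]
        exact (h'.C r (up hr) n3).sc (l0 hr) (fun j : J × J' => j.2)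
          (fun b j p hp => Fam.glu_Φ'_hi (f := d.f) h'.f w0 h1 b j hr.1 hl hr.2 hp)
          (fun b j => Fam.glu_C'_hi (f := d.f) h'.f w0 h1 b j hr.1 hl hr.2) }

end dt

/-! ### the positions -/

section dp

variable {M : Type*}

/-- the data of the positions of the end `s + θ w` -/
noncomputable def DP1.mix (s w θ : ℝ) (d d' : DP1 M) : DP1 M :=
  { d' with g := Fam.gd s w θ d.g d'.g }

/-- the common data of two ends -/
structure DPCom (s : ℝ) (d d' : DP1 M) : Prop where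
  Θ : ∀ m, ∀ r ∈ Icc 0 s, d.Θ m r = d'.Θ m r
  CΘ : ∀ m, ∀ r ∈ Icc 0 s, d.CΘ m r = d'.CΘ m r
  Kn : ∀ m m', ∀ r ∈ Icc 0 s, d.Kn m m' r = d'.Kn m m' r
  Kp : ∀ m m', ∀ r ∈ Icc 0 s, d.Kp m m' r = d'.Kp m m' r
  Ke : ∀ m m', ∀ r ∈ Icc 0 s, d.Ke m m' r = d'.Ke m m' r
  Km : ∀ m m', ∀ r ∈ Icc 0 s, d.Km m m' r = d'.Km m m' r

variable [Fintype M] [Nonempty M] {s w θ : ℝ}
  {S : Finset ℝ} {C : TEnv} {RD RE RD' RE' : ℝ → ℝ → ℝ} {RDp REp RDp' REp' : ℝ → ℝ}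
  {w1 : M → Pt → ℝ} {B : Bool → M → ℝ → Pt → ℝ} {CB : Bool → M → ℝ → ℝ}
  {ν δ ν' δ' νm δm : M → Pt → ℝ} {Cν Cδ Cν' Cδ' Cνm Cδm : M → ℝ} {d d' : DP1 M}

/-- **the conditions of the positions of the end `s + θ w`**, no end values -/
theorem DP1.Ok.mix (h : d.Ok s S (C.wk RD RE RDp REp) w1 B CB ν δ Cν Cδ)
    (h' : d'.Ok (s + w) S (C.wk RD' RE' RDp' REp') w1 B CB ν' δ' Cν' Cδ')
    (hc : DPCom s d d')
    (hm : FMat s d.g) (s0 : 0 ≤ s) (w0 : 0 < w) (h0 : 0 ≤ θ) (h1 : θ ≤ 1)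
    (κD0 : ∀ r ∈ Icc 0 (s + w), 0 ≤ C.κD r) (κE0 : ∀ r ∈ Icc 0 (s + w), 0 ≤ C.κE r)
    (c10 : ∀ r ∈ Icc 0 (s + w), 0 ≤ C.c1 r) (c40 : ∀ r ∈ Icc 0 (s + w), 0 ≤ C.c4 r)
    (ν1 : ∀ m p, Sa p → 0 ≤ ν m p) (ν2 : ∀ m p, Sa p → 0 ≤ ν' m p)
    (ν3 : ∀ m p, Sa p → νm m p ≤ 0)
    (δ1 : ∀ m p, Sa p → 0 ≤ δ m p) (δ2 : ∀ m p, Sa p → 0 ≤ δ' m p)
    (δ3 : ∀ m p, Sa p → δm m p ≤ 0)
    (Cν1 : ∀ m, 0 ≤ Cν m) (Cν2 : ∀ m, 0 ≤ Cν' m) (Cν3 : ∀ m, Cνm m ≤ 0)
    (Cδ1 : ∀ m, 0 ≤ Cδ m) (Cδ2 : ∀ m, 0 ≤ Cδ' m) (Cδ3 : ∀ m, Cδm m ≤ 0) :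
    (DP1.mix s w θ d d').Ok (s + θ * w) (glS s w θ S)
      (C.wk (glu2 s w θ RD RD') (glu2 s w θ RE RE') (glu s w θ RDp RDp')
        (glu s w θ REp REp')) w1 B CB νm δm Cνm Cδm := by
  have tw : θ * w ≤ w := by nlinarith
  have lo : ∀ {r : ℝ}, r ∈ Icc 0 (s + θ * w) → r ≤ s → r ∈ Icc 0 s := fun hr h => ⟨hr.1, h⟩
  have up : ∀ {r : ℝ}, r ∈ Icc 0 (s + θ * w) → r ∈ Icc 0 (s + w) := fun hr =>
    ⟨hr.1, hr.2.trans (by linarith)⟩
  have l0 : ∀ {r : ℝ}, r ∈ Icc 0 (s + θ * w) → 0 ≤ lm s w θ r := fun hr =>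
    lm_nonneg w0 h0 h1 hr.2
  have Z : ∀ {a b c : ℝ}, 0 ≤ a → 0 ≤ b → c ≤ 0 → c ≤ RCO.mx θ a b := fun ha hb hc =>
    hc.trans (mx_nonneg h0 h1 ha hb)
  have Y : ∀ {r a c : ℝ}, r ∈ Icc 0 (s + θ * w) → 0 ≤ a → c ≤ 0 → c ≤ lm s w θ r * a :=
    fun hr ha hc => hc.trans (mul_nonneg (l0 hr) ha)
  exact {
    g := h.g.gd h'.g hm s0 w0 h0 h1
    Kn0 := fun m m' r hr => h'.Kn0 m m' r (up hr)
    Kp0 := fun m m' r hr => h'.Kp0 m m' r (up hr)
    Ke0 := fun m m' r hr => h'.Ke0 m m' r (up hr)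
    Km0 := fun m m' r hr => h'.Km0 m m' r (up hr)
    C := fun r hr hS => by
      obtain ⟨-, -, n3⟩ := mem_glS hS
      show CP1 (C.R r) (C.Rp r) (C.W r) (C.Wp r) (glu2 s w θ RD RD' r) (glu s w θ RDp RDp' r)
        (glu2 s w θ RE RE' r) (glu s w θ REp REp' r) w1 (fun s m => B s m r)
        (fun s m => CB s m r)
        (fun m => d'.Θ m r) (fun m => d'.CΘ m r) νm δm Cνm Cδm (C.κD r) (C.κE r) (C.c1 r)
        (C.c4 r) (fun b m => (Fam.gd s w θ d.g d'.g).Φ b m r)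
        (fun b m => (Fam.gd s w θ d.g d'.g).Φ' b m r)
        (fun b m => (Fam.gd s w θ d.g d'.g).C b m r)
        (fun b m => (Fam.gd s w θ d.g d'.g).C' b m r)
        (fun m m' => d'.Kn m m' r) (fun m m' => d'.Kp m m' r) (fun m m' => d'.Ke m m' r)
        fun m m' => d'.Km m m' r
      have k' := h'.C r (up hr) n3
      rcases le_or_gt r s with hl | hl
      · have k := h.C r (lo hr hl) n3
        have a1 : (fun m => d.Θ m r) = fun m => d'.Θ m r := funext fun m => hc.Θ m r (lo hr hl)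
        have a2 : (fun m => d.CΘ m r) = fun m => d'.CΘ m r := funext fun m =>
          hc.CΘ m r (lo hr hl)
        have a3 : (fun m m' => d.Kn m m' r) = fun m m' => d'.Kn m m' r := funext fun m =>
          funext fun m' => hc.Kn m m' r (lo hr hl)
        have a4 : (fun m m' => d.Kp m m' r) = fun m m' => d'.Kp m m' r := funext fun m =>
          funext fun m' => hc.Kp m m' r (lo hr hl)
        have a5 : (fun m m' => d.Ke m m' r) = fun m m' => d'.Ke m m' r := funext fun m =>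
          funext fun m' => hc.Ke m m' r (lo hr hl)
        have a6 : (fun m m' => d.Km m m' r) = fun m m' => d'.Km m m' r := funext fun m =>
          funext fun m' => hc.Km m m' r (lo hr hl)
        rw [a1, a2, a3, a4, a5, a6] at k
        have k2 := (k.mix k' h0 h1).mono (fun m m' => h'.Kn0 m m' r (up hr))
          (fun m m' => h'.Kp0 m m' r (up hr)) (fun m m' => h'.Ke0 m m' r (up hr))
          (fun m m' => h'.Km0 m m' r (up hr)) (κD0 r (up hr)) (κE0 r (up hr)) (c10 r (up hr))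
          (c40 r (up hr)) (fun m p hp => Z (ν1 m p hp) (ν2 m p hp) (ν3 m p hp))
          (fun m p hp => Z (δ1 m p hp) (δ2 m p hp) (δ3 m p hp))
          (fun m => Z (Cν1 m) (Cν2 m) (Cν3 m)) (fun m => Z (Cδ1 m) (Cδ2 m) (Cδ3 m))
          (Φ2 := fun b m => (Fam.gd s w θ d.g d'.g).Φ b m r)
          (C2 := fun b m => (Fam.gd s w θ d.g d'.g).C b m r)
          (fun b m p _ => (Fam.gd_lo b m hl p).le) (fun b m => (Fam.gd_clo b m hl).le)
        have e1 : (fun (b : Bool) (m : M) => (Fam.gd s w θ d.g d'.g).Φ' b m r)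
            = fun b m p => RCO.mx θ (d.g.Φ' b m r p) (d'.g.Φ' b m r p) := by
          funext b m p
          exact Fam.gd_lo' b m hl p
        have e2 : (fun (b : Bool) (m : M) => (Fam.gd s w θ d.g d'.g).C' b m r)
            = fun b m => RCO.mx θ (d.g.C' b m r) (d'.g.C' b m r) := by
          funext b m
          exact Fam.gd_clo' b m hl
        rw [e1, e2]
        simp only [glu2_lo hl, glu_lo hl]
        exact k2
      · have k2 := (k'.sc (l0 hr)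
          (Φ2 := fun b m => (Fam.gd s w θ d.g d'.g).Φ' b m r)
          (C2 := fun b m => (Fam.gd s w θ d.g d'.g).C' b m r)
          (fun b m p hp => Fam.gd_hi' h'.g w0 h1 b m hr.1 hl hr.2 hp)
          (fun b m => Fam.gd_chi' h'.g w0 h1 b m hr.1 hl hr.2)).mono
          (fun m m' => h'.Kn0 m m' r (up hr))
          (fun m m' => h'.Kp0 m m' r (up hr)) (fun m m' => h'.Ke0 m m' r (up hr))
          (fun m m' => h'.Km0 m m' r (up hr)) (κD0 r (up hr)) (κE0 r (up hr)) (c10 r (up hr))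
          (c40 r (up hr)) (fun m p hp => Y hr (ν2 m p hp) (ν3 m p hp))
          (fun m p hp => Y hr (δ2 m p hp) (δ3 m p hp))
          (fun m => Y hr (Cν2 m) (Cν3 m)) (fun m => Y hr (Cδ2 m) (Cδ3 m))
          (Φ2 := fun b m => (Fam.gd s w θ d.g d'.g).Φ b m r)
          (C2 := fun b m => (Fam.gd s w θ d.g d'.g).C b m r)
          (fun b m p _ => (Fam.gd_hi b m hl p).le) (fun b m => (Fam.gd_chi b m hl).le)
        simp only [glu2_hi hl, glu_hi hl]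
        exact k2 }

end dp

end Pool.Agent.RZ.RCO
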