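import Pool.Agent.RZ.RCO.Gi2
import Pool.Agent.RZ.RCO.Gs6

/-! Interpolation of the kernels of the killing in the end time (MP_73ccd0_lc). -/

namespace Pool.Agent.RZ.RCO

open Set Finset MeasureTheory

set_option linter.unusedSectionVars false

/-! ### integrals below supersolutions, conditions inside the interval -/

theorem int_le_in {g h : ℝ → ℝ} {g' : ℝ → ℝ} {a b : ℝ} (hab : a ≤ b)
    (cg : ContinuousOn g (Icc a b)) (hd : ∀ r ∈ Ioo a b, HasDerivAt g (-g' r) r)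
    (hc : ContinuousOn h (Icc a b)) (hle : ∀ r ∈ Ioo a b, h r ≤ g' r) :
    ∫ r in a..b, h r ≤ g a - g b := by
  have h1 := intervalIntegral.integral_le_sub_of_hasDeriv_right_of_le (g := fun r => -g r)
    (g' := g') (φ := h) hab cg.neg
    (fun r hr => by
      have := (hd r hr).neg
      rw [neg_neg] at this
      exact this.hasDerivWithinAt) hc.integrableOn_Icc hle
  linarith

/-- one step of the exponential -/
theorem exp_step {f E E' R : ℝ → ℝ} {a b y : ℝ} (hab : a ≤ b) (hf : ContinuousOn f (Icc a b))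
    (hR : ∀ r ∈ Ioo a b, f r ≤ y * R r) (cE : ContinuousOn E (Icc a b))
    (hd : ∀ r ∈ Ioo a b, HasDerivAt E (-E' r) r)
    (hle : ∀ r ∈ Ioo a b, R r * (1 + y * E r) ≤ E' r) (y0 : 0 ≤ y)
    (E0 : ∀ r ∈ Icc a b, 0 ≤ E r) :
    Real.exp (∫ r in a..b, f r) * (1 + y * E b) ≤ 1 + y * E a := by
  have pos : ∀ z ∈ Icc a b, 0 < 1 + y * E z := fun z hz => by
    have := mul_nonneg y0 (E0 z hz)
    linarith
  have h1 := int_le_in (g := fun r => Real.log (1 + y * E r))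
    (g' := fun r => y * E' r / (1 + y * E r)) (h := f) hab
    (ContinuousOn.log ((continuousOn_const.mul cE).const_add 1) fun z hz => (pos z hz).ne')
    (fun z hz => by
      have := (((hd z hz).const_mul y).const_add 1).log (pos z (Ioo_subset_Icc_self hz)).ne'
      refine this.congr_deriv ?_
      ring) hf
    fun z hz => by
      rw [le_div_iff₀ (pos z (Ioo_subset_Icc_self hz))]
      have e1 := mul_le_mul_of_nonneg_right (hR z hz) (pos z (Ioo_subset_Icc_self hz)).le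
      have e2 := mul_le_mul_of_nonneg_left (hle z hz) y0
      refine e1.trans (le_trans (le_of_eq ?_) e2)
      ring
  have pa := pos a ⟨le_rfl, hab⟩
  have pb := pos b ⟨hab, le_rfl⟩
  have h2 : Real.exp (∫ r in a..b, f r) ≤ (1 + y * E a) / (1 + y * E b) := by
    refine (Real.exp_le_exp.2 h1).trans (le_of_eq ?_)
    rw [Real.exp_sub, Real.exp_log pa, Real.exp_log pb]
  exact (le_div_iff₀ pb).1 h2

/-! ### the weight in the last cell -/

section wt

variable {s w θ r : ℝ}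

theorem lmk_eq (h : s ≤ r) : lm s w θ r = 1 - (1 - θ) * w / (s + w - r) := by
  unfold lm
  rw [max_eq_left h]

theorem lmk_s (w0 : 0 < w) : lm s w θ s = θ := by
  rw [lmk_eq le_rfl, add_sub_cancel_left, mul_div_assoc, div_self w0.ne']
  ring

theorem lmk_nn (w0 : 0 < w) (h1 : θ ≤ 1) (h : s ≤ r) (hr : r ≤ s + θ * w) :
    0 ≤ lm s w θ r := by
  rw [lmk_eq h]
  have a : (1 - θ) * w ≤ s + w - r := by nlinarith
  have b : 0 ≤ (1 - θ) * w := mul_nonneg (sub_nonneg.2 h1) w0.le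
  have := div_le_one_of_le₀ a (b.trans a)
  linarith

theorem lmk_le (w0 : 0 < w) (h1 : θ ≤ 1) (h : s ≤ r) (hr : r ≤ s + θ * w) :
    lm s w θ r ≤ 1 := by
  rw [lmk_eq h]
  have a : (1 - θ) * w ≤ s + w - r := by nlinarith
  have b : 0 ≤ (1 - θ) * w := mul_nonneg (sub_nonneg.2 h1) w0.le
  have := div_nonneg b (b.trans a)
  linarith

/-- minus the derivative of the weight -/
noncomputable def lmd (s w θ r : ℝ) : ℝ := (1 - θ) * w / (s + w - r) ^ 2

theorem lmd_nn (w0 : 0 < w) (h1 : θ ≤ 1) : 0 ≤ lmd s w θ r :=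
  div_nonneg (mul_nonneg (sub_nonneg.2 h1) w0.le) (sq_nonneg _)

theorem lmk_d (w0 : 0 < w) (h1 : θ ≤ 1) (h : s < r) (hr : r ≤ s + θ * w) :
    HasDerivAt (lm s w θ) (-lmd s w θ r) r := by
  rcases h1.eq_or_lt with h2 | h2
  · have e : lm s w θ = fun _ => 1 := by
      funext v
      unfold lm
      rw [h2, sub_self, zero_mul, zero_div, sub_zero]
    have e' : lmd s w θ r = 0 := by
      unfold lmd
      rw [h2, sub_self, zero_mul, zero_div]
    rw [e, e', neg_zero]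
    exact hasDerivAt_const r 1
  · have a : 0 < (1 - θ) * w := mul_pos (sub_pos.2 h2) w0
    have b : 0 < s + w - r := by nlinarith
    have k : HasDerivAt (fun v => 1 - (1 - θ) * w / (s + w - v)) (-lmd s w θ r) r := by
      have := ((hasDerivAt_const r ((1 - θ) * w)).div ((hasDerivAt_id r).const_sub (s + w))
        b.ne').const_sub 1
      refine this.congr_deriv ?_
      unfold lmd
      simp
    refine k.congr_of_eventuallyEq ?_
    filter_upwards [Ioi_mem_nhds h] with v hv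
    exact lmk_eq (le_of_lt hv)

theorem lmk_c (w0 : 0 < w) (h1 : θ ≤ 1) :
    ContinuousOn (lm s w θ) (Icc s (s + θ * w)) := by
  rcases h1.eq_or_lt with h2 | h2
  · have e : lm s w θ = fun _ => 1 := by
      funext v
      unfold lm
      rw [h2, sub_self, zero_mul, zero_div, sub_zero]
    rw [e]
    exact continuousOn_const
  · have k : ContinuousOn (fun v => 1 - (1 - θ) * w / (s + w - v)) (Icc s (s + θ * w)) := by
      refine continuousOn_const.sub (continuousOn_const.div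
        (continuousOn_const.sub continuousOn_id) fun v hv => ?_)
      have a : 0 < (1 - θ) * w := mul_pos (sub_pos.2 h2) w0
      have : 0 < s + w - v := by nlinarith [hv.2]
      exact this.ne'
    exact k.congr fun v hv => lmk_eq hv.1

/-- the weight and its derivative -/
theorem lmk_one (h : s ≤ r) : lm s w θ r + lmd s w θ r * (s + w - r) = 1 := by
  rw [lmk_eq h]
  unfold lmd
  rcases eq_or_ne (s + w - r) 0 with h0 | h0
  · rw [h0]
    simp
  · field_simp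
    ring

end wt

/-! ### the glued supersolutions -/

section glue

variable {f H H' H2 H2' R : ℝ → ℝ} {s w θ y : ℝ}

/-- the split of the integral at `s` -/
theorem bk_split (hf : ContinuousOn f (Icc 0 (s + θ * w))) (tw : 0 ≤ θ * w) {r : ℝ} (hr : 0 ≤ r)
    (h : r ≤ s) : RCM.bk f (s + θ * w) r
      = (∫ z in r..s, f z) + ∫ z in s..(s + θ * w), f z := by
  rw [RCM.bk_eq ⟨hr, h.trans (by linarith)⟩]
  refine (intervalIntegral.integral_add_adjacent_intervals ?_ ?_).symm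
  · refine ContinuousOn.intervalIntegrable ?_
    rw [Set.uIcc_of_le h]
    exact hf.mono fun z hz => ⟨hr.trans hz.1, hz.2.trans (by linarith)⟩
  · refine ContinuousOn.intervalIntegrable ?_
    rw [Set.uIcc_of_le (by linarith)]
    exact hf.mono fun z hz => ⟨(hr.trans h).trans hz.1, hz.2⟩

/-- a supersolution of a nondecreasing rate is above the rate times the rest of the time -/
theorem rate_le (mono : ∀ r r', s ≤ r → r ≤ r' → r' ≤ s + w → R r ≤ R r')
    (d2 : ∀ r ∈ Icc s (s + w), HasDerivAt H2 (-H2' r) r)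
    (l2 : ∀ r ∈ Icc s (s + w), R r ≤ H2' r) (e0 : 0 ≤ H2 (s + w)) {z : ℝ}
    (hz : z ∈ Icc s (s + w)) : R z * (s + w - z) ≤ H2 z := by
  have k := int_le_in (g := H2) (g' := H2') (h := fun _ => R z) hz.2
    (fun v hv => (d2 v ⟨hz.1.trans hv.1, hv.2⟩).continuousAt.continuousWithinAt)
    (fun v hv => d2 v ⟨hz.1.trans hv.1.le, hv.2.le⟩) continuousOn_const
    fun v hv => (mono z v hz.1 hv.1.le hv.2.le).trans (l2 v ⟨hz.1.trans hv.1.le, hv.2.le⟩)
  rw [intervalIntegral.integral_const, smul_eq_mul] at k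
  linarith

/-- the scaled supersolution -/
theorem lm_super {a b g R : ℝ} (h : a + b * g = 1) (a0 : 0 ≤ a) (b0 : 0 ≤ b) {H H' : ℝ}
    (l : R ≤ H') (k : R * g ≤ H) : R ≤ a * H' + b * H := by
  have h1 := mul_le_mul_of_nonneg_left l a0
  have h2 := mul_le_mul_of_nonneg_left k b0
  have e : R = a * R + b * (R * g) := by
    calc R = R * (a + b * g) := by rw [h, mul_one]
      _ = a * R + b * (R * g) := by ring
  linarith

theorem lmk_deriv (w0 : 0 < w) (h1 : θ ≤ 1) {r : ℝ} (h : s < r) (hr : r ≤ s + θ * w) {d : ℝ}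
    (hd : HasDerivAt H2 (-d) r) :
    HasDerivAt (fun v => lm s w θ v * H2 v)
      (-(lm s w θ r * d + lmd s w θ r * H2 r)) r := by
  refine ((lmk_d w0 h1 h hr).mul hd).congr_deriv ?_
  ring

/-- **the integral of the rate up to the mixed end** -/
theorem bk_mix (s0 : 0 ≤ s) (w0 : 0 < w) (h0 : 0 ≤ θ) (h1 : θ ≤ 1)
    (hf : ContinuousOn f (Icc 0 (s + w))) (hR : ∀ r ∈ Icc 0 (s + w), f r ≤ y * R r)
    (mono : ∀ r r', s ≤ r → r ≤ r' → r' ≤ s + w → R r ≤ R r')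
    (d1 : ∀ r ∈ Icc 0 s, HasDerivAt H (-H' r) r) (l1 : ∀ r ∈ Icc 0 s, R r ≤ H' r)
    (e1 : 0 ≤ H s) (d2 : ∀ r ∈ Icc 0 (s + w), HasDerivAt H2 (-H2' r) r)
    (l2 : ∀ r ∈ Icc 0 (s + w), R r ≤ H2' r) (e2 : ∀ r ∈ Icc 0 (s + w), 0 ≤ H2 r) (y0 : 0 ≤ y)
    {r : ℝ} (hr : r ∈ Icc 0 (s + θ * w)) :
    RCM.bk f (s + θ * w) r ≤ y * glu s w θ H H2 r := by
  have tw : θ * w ≤ w := by nlinarith
  have tw0 : 0 ≤ θ * w := mul_nonneg h0 w0.le
  have hf' : ContinuousOn f (Icc 0 (s + θ * w)) := hf.mono (Icc_subset_Icc_right (by linarith))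
  have up : ∀ {v : ℝ}, v ∈ Icc s (s + w) → v ∈ Icc 0 (s + w) := fun hv =>
    ⟨s0.trans hv.1, hv.2⟩
  have last : ∀ z, s ≤ z → z ≤ s + θ * w →
      ∫ v in z..(s + θ * w), f v ≤ y * (lm s w θ z * H2 z) := fun z hz1 hz2 => by
    have k := int_le_in (g := fun v => y * (lm s w θ v * H2 v))
      (g' := fun v => y * (lm s w θ v * H2' v + lmd s w θ v * H2 v)) (h := f) hz2
      (continuousOn_const.mul (((lmk_c w0 h1).mono (Icc_subset_Icc_left hz1)).mul
        fun v hv => (d2 v ⟨s0.trans (hz1.trans hv.1), by linarith [hv.2]⟩).continuousAt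
          |>.continuousWithinAt))
      (fun v hv => by
        have := (lmk_deriv w0 h1 (lt_of_le_of_lt hz1 hv.1) hv.2.le
          (d2 v ⟨s0.trans (hz1.trans hv.1.le), by linarith [hv.2]⟩)).const_mul y
        refine this.congr_deriv ?_
        ring) (hf'.mono (Icc_subset_Icc_left (s0.trans hz1)))
      fun v hv => by
        have hv1 : s ≤ v := hz1.trans hv.1.le
        have hv2 : v ≤ s + w := by linarith [hv.2]
        have mv : v ∈ Icc 0 (s + w) := ⟨s0.trans hv1, hv2⟩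
        refine (hR v mv).trans (mul_le_mul_of_nonneg_left ?_ y0)
        exact lm_super (lmk_one hv1) (lmk_nn w0 h1 hv1 hv.2.le) (lmd_nn w0 h1) (l2 v mv)
          (rate_le mono (fun r hr => d2 r (up hr)) (fun r hr => l2 r (up hr))
            (e2 _ ⟨by linarith, le_rfl⟩) ⟨hv1, hv2⟩)
    have k2 : 0 ≤ y * (lm s w θ (s + θ * w) * H2 (s + θ * w)) :=
      mul_nonneg y0 (mul_nonneg (lmk_nn w0 h1 (by linarith) le_rfl)
        (e2 _ ⟨by linarith, by linarith⟩))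
    exact k.trans (sub_le_self _ k2)
  unfold glu
  rcases le_or_gt r s with h | h
  · rw [if_pos h, bk_split hf' tw0 hr.1 h]
    have k1 := int_le_in (g := fun v => y * mx θ (H v) (H2 v))
      (g' := fun v => y * mx θ (H' v) (H2' v)) (h := f) h
      (fun v hv => by
        have m1 : v ∈ Icc 0 s := ⟨hr.1.trans hv.1, hv.2⟩
        have m2 : v ∈ Icc 0 (s + w) := ⟨m1.1, m1.2.trans (by linarith)⟩
        exact ((((d1 v m1).continuousAt.const_mul (1 - θ)).add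
          ((d2 v m2).continuousAt.const_mul θ)).const_mul y).continuousWithinAt)
      (fun v hv => by
        have m1 : v ∈ Icc 0 s := ⟨hr.1.trans hv.1.le, hv.2.le⟩
        have m2 : v ∈ Icc 0 (s + w) := ⟨m1.1, m1.2.trans (by linarith)⟩
        have := (((d1 v m1).const_mul (1 - θ)).add ((d2 v m2).const_mul θ)).const_mul y
        refine this.congr_deriv ?_
        unfold mx
        ring) (hf.mono fun v hv => ⟨hr.1.trans hv.1, hv.2.trans (by linarith)⟩)
      fun v hv => by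
        have m1 : v ∈ Icc 0 s := ⟨hr.1.trans hv.1.le, hv.2.le⟩
        have m2 : v ∈ Icc 0 (s + w) := ⟨m1.1, m1.2.trans (by linarith)⟩
        refine (hR v m2).trans (mul_le_mul_of_nonneg_left ?_ y0)
        have := mx_le h0 h1 (l1 v m1) (l2 v m2)
        rwa [mx_self] at this
    have k2 := last s le_rfl (by linarith)
    rw [lmk_s w0] at k2
    have k3 : y * (θ * H2 s) ≤ y * mx θ (H s) (H2 s) := by
      refine mul_le_mul_of_nonneg_left ?_ y0
      have := mul_nonneg (sub_nonneg.2 h1) e1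
      unfold mx
      linarith
    show (∫ z in r..s, f z) + ∫ z in s..(s + θ * w), f z ≤ y * mx θ (H r) (H2 r)
    linarith
  · rw [if_neg (not_le.2 h), RCM.bk_eq hr]
    exact last r h.le hr.2

/-- **the exponential of the integral of the rate up to the mixed end** -/
theorem exp_bk_mix {E E' E2 E2' : ℝ → ℝ} (s0 : 0 ≤ s) (w0 : 0 < w) (h0 : 0 ≤ θ) (h1 : θ ≤ 1)
    (hf : ContinuousOn f (Icc 0 (s + w))) (hR : ∀ r ∈ Icc 0 (s + w), f r ≤ y * R r)
    (R0 : ∀ r ∈ Icc 0 (s + w), 0 ≤ R r)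
    (mono : ∀ r r', s ≤ r → r ≤ r' → r' ≤ s + w → R r ≤ R r')
    (d1 : ∀ r ∈ Icc 0 s, HasDerivAt E (-E' r) r)
    (l1 : ∀ r ∈ Icc 0 s, R r * (1 + y * E r) ≤ E' r) (E0 : ∀ r ∈ Icc 0 s, 0 ≤ E r)
    (d2 : ∀ r ∈ Icc 0 (s + w), HasDerivAt E2 (-E2' r) r)
    (l2 : ∀ r ∈ Icc 0 (s + w), R r * (1 + y * E2 r) ≤ E2' r)
    (E20 : ∀ r ∈ Icc 0 (s + w), 0 ≤ E2 r) (y0 : 0 ≤ y) {r : ℝ}
    (hr : r ∈ Icc 0 (s + θ * w)) :
    Real.exp (RCM.bk f (s + θ * w) r) - 1 ≤ y * glu s w θ E E2 r := by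
  have tw : θ * w ≤ w := by nlinarith
  have tw0 : 0 ≤ θ * w := mul_nonneg h0 w0.le
  have hf' : ContinuousOn f (Icc 0 (s + θ * w)) := hf.mono (Icc_subset_Icc_right (by linarith))
  have up : ∀ {v : ℝ}, v ∈ Icc s (s + w) → v ∈ Icc 0 (s + w) := fun hv =>
    ⟨s0.trans hv.1, hv.2⟩
  have lR : ∀ v ∈ Icc 0 (s + w), R v ≤ E2' v := fun v hv => by
    have := l2 v hv
    have := mul_nonneg (R0 v hv) (mul_nonneg y0 (E20 v hv))
    linarith
  have last : ∀ z, s ≤ z → z ≤ s + θ * w →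
      Real.exp (∫ v in z..(s + θ * w), f v) ≤ 1 + y * (lm s w θ z * E2 z) :=
      fun z hz1 hz2 => by
    have e0 : ∀ v ∈ Icc z (s + θ * w), 0 ≤ lm s w θ v * E2 v := fun v hv =>
      mul_nonneg (lmk_nn w0 h1 (hz1.trans hv.1) hv.2)
        (E20 v ⟨s0.trans (hz1.trans hv.1), by linarith [hv.2]⟩)
    have k := exp_step (f := f) (E := fun v => lm s w θ v * E2 v)
      (E' := fun v => lm s w θ v * E2' v + lmd s w θ v * E2 v) (R := R)
      (y := y) hz2 (hf'.mono (Icc_subset_Icc_left (s0.trans hz1)))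
      (fun v hv => hR v ⟨s0.trans (hz1.trans hv.1.le), hv.2.le.trans (by linarith)⟩)
      (((lmk_c w0 h1).mono (Icc_subset_Icc_left hz1)).mul
        fun v hv => (d2 v ⟨s0.trans (hz1.trans hv.1), by linarith [hv.2]⟩).continuousAt
          |>.continuousWithinAt)
      (fun v hv => lmk_deriv w0 h1 (lt_of_le_of_lt hz1 hv.1) hv.2.le
          (d2 v ⟨s0.trans (hz1.trans hv.1.le), by linarith [hv.2]⟩))
      (fun v hv => by
        have hv1 : s ≤ v := hz1.trans hv.1.le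
        have hv2 : v ≤ s + w := by linarith [hv.2]
        have mv : v ∈ Icc 0 (s + w) := ⟨s0.trans hv1, hv2⟩
        have a0 := lmk_nn w0 h1 hv1 hv.2.le
        have a := mul_le_mul_of_nonneg_left (l2 v mv) a0
        have b := mul_le_mul_of_nonneg_left (rate_le mono (fun r hr => d2 r (up hr))
          (fun r hr => lR r (up hr)) (E20 _ ⟨by linarith, le_rfl⟩) ⟨hv1, hv2⟩)
          (lmd_nn (s := s) (θ := θ) (r := v) w0 h1)
        have e : R v * (1 + y * (lm s w θ v * E2 v))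
            = lm s w θ v * (R v * (1 + y * E2 v)) + lmd s w θ v * (R v * (s + w - v)) := by
          have e1 : R v * 1 = R v * (lm s w θ v + lmd s w θ v * (s + w - v)) := by
            rw [lmk_one hv1]
          linear_combination e1
        show R v * (1 + y * (lm s w θ v * E2 v)) ≤ lm s w θ v * E2' v + lmd s w θ v * E2 v
        rw [e]
        exact add_le_add a b) y0 e0
    have h2 : Real.exp (∫ v in z..(s + θ * w), f v)
        ≤ Real.exp (∫ v in z..(s + θ * w), f v)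
          * (1 + y * (lm s w θ (s + θ * w) * E2 (s + θ * w))) := by
      refine le_mul_of_one_le_right (Real.exp_pos _).le ?_
      have := mul_nonneg y0 (e0 (s + θ * w) ⟨hz2, le_rfl⟩)
      linarith
    exact h2.trans k
  unfold glu
  rcases le_or_gt r s with h | h
  · rw [if_pos h, bk_split hf' tw0 hr.1 h, Real.exp_add]
    have k1 := exp_step (f := f) (E := fun v => mx θ (E v) (E2 v))
      (E' := fun v => mx θ (E' v) (E2' v)) (R := R) (y := y) h
      (hf.mono fun v hv => ⟨hr.1.trans hv.1, hv.2.trans (by linarith)⟩)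
      (fun v hv => hR v ⟨hr.1.trans hv.1.le, hv.2.le.trans (by linarith)⟩)
      (fun v hv => by
        have m1 : v ∈ Icc 0 s := ⟨hr.1.trans hv.1, hv.2⟩
        have m2 : v ∈ Icc 0 (s + w) := ⟨m1.1, m1.2.trans (by linarith)⟩
        exact (((d1 v m1).continuousAt.const_mul (1 - θ)).add
          ((d2 v m2).continuousAt.const_mul θ)).continuousWithinAt)
      (fun v hv => by
        have m1 : v ∈ Icc 0 s := ⟨hr.1.trans hv.1.le, hv.2.le⟩
        have m2 : v ∈ Icc 0 (s + w) := ⟨m1.1, m1.2.trans (by linarith)⟩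
        have := ((d1 v m1).const_mul (1 - θ)).add ((d2 v m2).const_mul θ)
        refine this.congr_deriv ?_
        unfold mx
        ring)
      (fun v hv => by
        have m1 : v ∈ Icc 0 s := ⟨hr.1.trans hv.1.le, hv.2.le⟩
        have m2 : v ∈ Icc 0 (s + w) := ⟨m1.1, m1.2.trans (by linarith)⟩
        refine le_trans (le_of_eq ?_) (mx_le h0 h1 (l1 v m1) (l2 v m2))
        unfold mx
        ring) y0 (fun v hv => by
        have m1 : v ∈ Icc 0 s := ⟨hr.1.trans hv.1, hv.2⟩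
        exact mx_nonneg h0 h1 (E0 v m1) (E20 v ⟨m1.1, m1.2.trans (by linarith)⟩))
    have k2 := last s le_rfl (by linarith)
    rw [lmk_s w0] at k2
    have k3 : 1 + y * (θ * E2 s) ≤ 1 + y * mx θ (E s) (E2 s) := by
      refine add_le_add le_rfl (mul_le_mul_of_nonneg_left ?_ y0)
      have := mul_nonneg (sub_nonneg.2 h1) (E0 s ⟨s0, le_rfl⟩)
      unfold mx
      linarith
    have k4 := mul_le_mul_of_nonneg_left (k2.trans k3) (Real.exp_pos (∫ z in r..s, f z)).le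
    show _ - 1 ≤ y * mx θ (E r) (E2 r)
    linarith
  · rw [if_neg (not_le.2 h), RCM.bk_eq hr]
    have := last r h.le hr.2
    linarith

end glue

/-! ### the kernels of the killing at the mixed end -/

/-- supersolutions of the killing of the end `σ`; weights `y ≤ ym` -/
structure KSup (σ ym : ℝ) (R H H' E E' : ℝ → ℝ → ℝ) : Prop where
  R0 : ∀ y ∈ Icc 0 ym, ∀ r ∈ Icc 0 σ, 0 ≤ R r y
  dH : ∀ y ∈ Icc 0 ym, ∀ r ∈ Icc 0 σ, HasDerivAt (fun r => H r y) (-H' r y) r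
  cH : ∀ y ∈ Icc 0 ym, ∀ r ∈ Icc 0 σ, R r y ≤ H' r y
  H0 : ∀ y ∈ Icc 0 ym, ∀ r ∈ Icc 0 σ, 0 ≤ H r y
  dE : ∀ y ∈ Icc 0 ym, ∀ r ∈ Icc 0 σ, HasDerivAt (fun r => E r y) (-E' r y) r
  cE : ∀ y ∈ Icc 0 ym, ∀ r ∈ Icc 0 σ, R r y * (1 + y * E r y) ≤ E' r y
  E0 : ∀ y ∈ Icc 0 ym, ∀ r ∈ Icc 0 σ, 0 ≤ E r y

section kb

variable {V : Type*} [Fintype V] [DecidableEq V] {x : V → V → ℝ} {P : V → Prop}
  {hb : ℝ → V → V → ℝ} {s w θ ym : ℝ} {R : ℝ → ℝ → ℝ}
  {H H' E E' H2 H2' E2 E2' Hm Em : ℝ → ℝ → ℝ} {Hp Ep Hpm Epm : ℝ → ℝ}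

/-- **bounds of the killing at the mixed end** -/
theorem KSup.mix (h : KSup s ym R H H' E E') (h2 : KSup (s + w) ym R H2 H2' E2 E2')
    (s0 : 0 ≤ s) (w0 : 0 < w) (h0 : 0 ≤ θ) (h1 : θ ≤ 1)
    (mono : ∀ y ∈ Icc 0 ym, ∀ r r', s ≤ r → r ≤ r' → r' ≤ s + w → R r y ≤ R r' y)
    (x0 : ∀ u v, 0 ≤ x u v) (xm : ∀ u v, P u → P v → x u v ≤ ym)
    (b0 : ∀ u v, ∀ r ∈ Icc 0 (s + w), 0 ≤ hb r u v)
    (kl : ∀ r ∈ Icc 0 (s + w), ∀ u v, P u → P v → hb r u v ≤ x u v * R r (x u v))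
    (kp : ∀ r ∈ Icc 0 (s + w), ∀ u v, ¬(P u ∧ P v) → hb r u v ≤ 0)
    (hc : ∀ u v, ContinuousOn (fun r => hb r u v) (Icc 0 (s + w))) :
    KBd x P hb (s + θ * w) (glu2 s w θ H H2) (glu2 s w θ E E2) (fun _ => 0) fun _ => 0 := by
  have tw : θ * w ≤ w := by nlinarith
  have sub : ∀ {r : ℝ}, r ∈ Icc 0 (s + θ * w) → r ∈ Icc 0 (s + w) := fun hr =>
    ⟨hr.1, hr.2.trans (by linarith)⟩
  have ss : ∀ {r : ℝ}, r ∈ Icc 0 s → r ∈ Icc 0 (s + w) := fun hr =>
    ⟨hr.1, hr.2.trans (by linarith)⟩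
  have zz : ∀ u v, ¬(P u ∧ P v) → ∀ r ∈ Icc 0 (s + θ * w),
      kb hb (s + θ * w) u v r ≤ 0 := fun u v hu r hr => by
    have e0 : ∀ (z : ℝ), HasDerivAt (fun _ : ℝ => (0 : ℝ)) (-0) z := fun z => by
      rw [neg_zero]
      exact hasDerivAt_const z 0
    have := bk_mix (H := fun _ => 0) (H' := fun _ => 0) (H2 := fun _ => 0) (H2' := fun _ => 0)
      (R := fun _ => 0) (y := 0) s0 w0 h0 h1 (hc u v) (fun r hr => by
        rw [zero_mul]
        exact kp r hr u v hu) (fun _ _ _ _ _ => le_rfl) (fun r _ => e0 r) (fun _ _ => le_rfl)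
      le_rfl (fun r _ => e0 r) (fun _ _ => le_rfl) (fun _ _ => le_rfl) le_rfl hr
    rw [zero_mul] at this
    exact this
  exact {
    k0 := fun r hr u v => kb_nonneg (fun u v r hr => b0 u v r (sub hr)) u v hr
    hl := fun r hr u v hu hv => by
      have hy : x u v ∈ Icc 0 ym := ⟨x0 u v, xm u v hu hv⟩
      exact bk_mix s0 w0 h0 h1 (hc u v) (fun r hr => kl r hr u v hu hv) (mono _ hy) (h.dH _ hy)
        (h.cH _ hy) (h.H0 _ hy s ⟨s0, le_rfl⟩) (h2.dH _ hy) (h2.cH _ hy) (h2.H0 _ hy) (x0 u v) hr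
    el := fun r hr u v hu hv => by
      have hy : x u v ∈ Icc 0 ym := ⟨x0 u v, xm u v hu hv⟩
      exact exp_bk_mix s0 w0 h0 h1 (hc u v) (fun r hr => kl r hr u v hu hv) (h2.R0 _ hy)
        (mono _ hy) (h.dE _ hy) (h.cE _ hy) (h.E0 _ hy) (h2.dE _ hy) (h2.cE _ hy) (h2.E0 _ hy)
        (x0 u v) hr
    hp := fun r hr u v hu => (zz u v hu r hr).trans (le_of_eq (mul_zero _).symm)
    ep := fun r hr u v hu => by
      rw [mul_zero]
      have := Real.exp_le_exp.2 (zz u v hu r hr)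
      rw [Real.exp_zero] at this
      linarith }

/-- larger bounds, real pairs of the weights `y ≤ ym` -/
theorem KBd.monoX {σ : ℝ} (h : KBd x P hb σ H E Hp Ep) (x0 : ∀ u v, 0 ≤ x u v)
    (xm : ∀ u v, P u → P v → x u v ≤ ym)
    (hH : ∀ r ∈ Icc 0 σ, ∀ y ∈ Icc 0 ym, H r y ≤ Hm r y)
    (hE : ∀ r ∈ Icc 0 σ, ∀ y ∈ Icc 0 ym, E r y ≤ Em r y)
    (hHp : ∀ r ∈ Icc 0 σ, Hp r ≤ Hpm r) (hEp : ∀ r ∈ Icc 0 σ, Ep r ≤ Epm r) :
    KBd x P hb σ Hm Em Hpm Epm where
  k0 := h.k0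
  hl := fun r hr u v hu hv => (h.hl r hr u v hu hv).trans
    (mul_le_mul_of_nonneg_left (hH r hr _ ⟨x0 u v, xm u v hu hv⟩) (x0 u v))
  el := fun r hr u v hu hv => (h.el r hr u v hu hv).trans
    (mul_le_mul_of_nonneg_left (hE r hr _ ⟨x0 u v, xm u v hu hv⟩) (x0 u v))
  hp := fun r hr u v hu => (h.hp r hr u v hu).trans
    (mul_le_mul_of_nonneg_left (hHp r hr) (x0 u v))
  ep := fun r hr u v hu => (h.ep r hr u v hu).trans
    (mul_le_mul_of_nonneg_left (hEp r hr) (x0 u v))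

/-- the glued function is monotone in the functions -/
theorem glu_monoK {f g F G : ℝ → ℝ} (w0 : 0 < w) (h0 : 0 ≤ θ) (h1 : θ ≤ 1)
    (hf : ∀ r ∈ Icc 0 s, f r ≤ F r) (hg : ∀ r ∈ Icc 0 (s + w), g r ≤ G r) {r : ℝ}
    (hr : r ∈ Icc 0 (s + θ * w)) : glu s w θ f g r ≤ glu s w θ F G r := by
  have tw : θ * w ≤ w := by nlinarith
  have up : r ∈ Icc 0 (s + w) := ⟨hr.1, hr.2.trans (by linarith)⟩
  unfold glu
  rcases le_or_gt r s with h | h
  · rw [if_pos h, if_pos h]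
    exact mx_le h0 h1 (hf r ⟨hr.1, h⟩) (hg r up)
  · rw [if_neg (not_le.2 h), if_neg (not_le.2 h)]
    exact mul_le_mul_of_nonneg_left (hg r up) (lmk_nn w0 h1 h.le hr.2)

/-- **bounds of the killing at the mixed end by the used functions** -/
theorem KSup.mixU (h : KSup s ym R H H' E E') (h2 : KSup (s + w) ym R H2 H2' E2 E2')
    (s0 : 0 ≤ s) (w0 : 0 < w) (h0 : 0 ≤ θ) (h1 : θ ≤ 1)
    (mono : ∀ y ∈ Icc 0 ym, ∀ r r', s ≤ r → r ≤ r' → r' ≤ s + w → R r y ≤ R r' y)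
    (x0 : ∀ u v, 0 ≤ x u v) (xm : ∀ u v, P u → P v → x u v ≤ ym)
    (b0 : ∀ u v, ∀ r ∈ Icc 0 (s + w), 0 ≤ hb r u v)
    (kl : ∀ r ∈ Icc 0 (s + w), ∀ u v, P u → P v → hb r u v ≤ x u v * R r (x u v))
    (kp : ∀ r ∈ Icc 0 (s + w), ∀ u v, ¬(P u ∧ P v) → hb r u v ≤ 0)
    (hc : ∀ u v, ContinuousOn (fun r => hb r u v) (Icc 0 (s + w)))
    {Hu Eu Hu2 Eu2 : ℝ → ℝ → ℝ}
    (uH : ∀ r ∈ Icc 0 s, ∀ y ∈ Icc 0 ym, H r y ≤ Hu r y)
    (uE : ∀ r ∈ Icc 0 s, ∀ y ∈ Icc 0 ym, E r y ≤ Eu r y)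
    (uH2 : ∀ r ∈ Icc 0 (s + w), ∀ y ∈ Icc 0 ym, H2 r y ≤ Hu2 r y)
    (uE2 : ∀ r ∈ Icc 0 (s + w), ∀ y ∈ Icc 0 ym, E2 r y ≤ Eu2 r y) :
    KBd x P hb (s + θ * w) (glu2 s w θ Hu Hu2) (glu2 s w θ Eu Eu2) (fun _ => 0) fun _ => 0 :=
  (h.mix h2 s0 w0 h0 h1 mono x0 xm b0 kl kp hc).monoX x0 xm
    (fun _ hr y hy => glu_monoK w0 h0 h1 (fun r hr => uH r hr y hy) (fun r hr => uH2 r hr y hy) hr)
    (fun _ hr y hy => glu_monoK w0 h0 h1 (fun r hr => uE r hr y hy) (fun r hr => uE2 r hr y hy) hr)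
    (fun _ _ => le_rfl) fun _ _ => le_rfl

end kb

end Pool.Agent.RZ.RCO
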