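import Pool.Agent.RZ.RCO.Gi3
import Pool.Agent.RZ.RCO.Gi4
import Pool.Agent.RZ.RCO.Gs12_1
import Pool.Agent.RZ.RCO.Gs8

/-! Interpolation of the systems of level 1 in the end time: the scalars (MP_73ccd0_lc). -/

namespace Pool.Agent.RZ.RCO

open Set Finset MeasureTheory Pool.Agent.RZ.RCM

set_option linter.unusedSectionVars false

/-! ### mixtures of numbers -/

theorem mx_le_r {θ a b : ℝ} (h1 : θ ≤ 1) (h : a ≤ b) : mx θ a b ≤ b := by
  unfold mx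
  nlinarith [mul_nonneg (sub_nonneg.2 h1) (sub_nonneg.2 h)]

theorem mx_add (θ a b c d : ℝ) : mx θ (a + c) (b + d) = mx θ a b + mx θ c d := by
  unfold mx
  ring

theorem mx_smul (θ k a b : ℝ) : mx θ (k * a) (k * b) = k * mx θ a b := by
  unfold mx
  ring

/-- the inequality of Chebyshev -/
theorem mx_mul {θ a a' b b' : ℝ} (h0 : 0 ≤ θ) (h1 : θ ≤ 1) (ha : a ≤ a') (hb : b ≤ b') :
    mx θ a a' * mx θ b b' ≤ mx θ (a * b) (a' * b') := by
  have h := mul_nonneg (mul_nonneg h0 (sub_nonneg.2 h1))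
    (mul_nonneg (sub_nonneg.2 ha) (sub_nonneg.2 hb))
  unfold mx
  nlinarith [h]

theorem exp_mx {θ : ℝ} (h0 : 0 ≤ θ) (h1 : θ ≤ 1) (a b : ℝ) :
    Real.exp (mx θ a b) ≤ mx θ (Real.exp a) (Real.exp b) := by
  have := convexOn_exp.2 (mem_univ a) (mem_univ b) (sub_nonneg.2 h1) h0 (by ring)
  simp only [smul_eq_mul] at this
  exact this

/-- the second order remainder as an integral -/
theorem phi_int {M : ℝ} (hM : 0 < M) :
    Real.exp M - 1 - M = M ^ 2 * ∫ t in (0 : ℝ)..1, (1 - t) * Real.exp (t * M) := by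
  have hd : ∀ t ∈ Set.uIcc (0 : ℝ) 1, HasDerivAt
      (fun t => Real.exp (t * M) * ((1 - t) / M + 1 / M ^ 2))
      ((1 - t) * Real.exp (t * M)) t := fun t _ => by
    have e1 : HasDerivAt (fun t : ℝ => Real.exp (t * M)) (Real.exp (t * M) * M) t := by
      have := ((hasDerivAt_id t).mul_const M).exp
      simpa using this
    have e2 : HasDerivAt (fun t : ℝ => (1 - t) / M + 1 / M ^ 2) (-1 / M) t := by
      have := (((hasDerivAt_id t).const_sub 1).div_const M).add_const (1 / M ^ 2)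
      simpa using this
    refine (e1.mul e2).congr_deriv ?_
    field_simp
    ring
  have hc : IntervalIntegrable (fun t : ℝ => (1 - t) * Real.exp (t * M)) volume 0 1 :=
    Continuous.intervalIntegrable (by fun_prop) _ _
  rw [intervalIntegral.integral_eq_sub_of_hasDerivAt hd hc]
  simp only [one_mul, zero_mul, Real.exp_zero, sub_self, sub_zero]
  field_simp
  ring

/-- the second order bound of a mixture -/
theorem phi_mx {θ : ℝ} (h0 : 0 ≤ θ) (h1 : θ ≤ 1) {M M' κ κ' : ℝ} (hM : 0 < M) (hM' : 0 < M')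
    (h : 2 * (Real.exp M - 1 - M) ≤ κ * M ^ 2)
    (h' : 2 * (Real.exp M' - 1 - M') ≤ κ' * M' ^ 2) :
    2 * (Real.exp (mx θ M M') - 1 - mx θ M M') ≤ mx θ κ κ' * mx θ M M' ^ 2 := by
  have hm : 0 < mx θ M M' := by
    unfold mx
    rcases h0.eq_or_lt with h2 | h2
    · rw [← h2]
      linarith
    · exact add_pos_of_nonneg_of_pos (mul_nonneg (sub_nonneg.2 h1) hM.le) (mul_pos h2 hM')
  have ci : ∀ M : ℝ, Continuous fun t : ℝ => (1 - t) * Real.exp (t * M) := fun M => by fun_prop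
  have k : ∀ {M κ : ℝ}, 0 < M → 2 * (Real.exp M - 1 - M) ≤ κ * M ^ 2 →
      2 * ∫ t in (0 : ℝ)..1, (1 - t) * Real.exp (t * M) ≤ κ := fun {M κ} hM h => by
    rw [phi_int hM] at h
    have hp : 0 < M ^ 2 := by positivity
    have h3 : (2 * ∫ t in (0 : ℝ)..1, (1 - t) * Real.exp (t * M)) * M ^ 2 ≤ κ * M ^ 2 := by
      linarith
    exact le_of_mul_le_mul_right h3 hp
  have k1 := k hM h
  have k2 := k hM' h'
  have k3 : ∫ t in (0 : ℝ)..1, (1 - t) * Real.exp (t * mx θ M M')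
      ≤ mx θ (∫ t in (0 : ℝ)..1, (1 - t) * Real.exp (t * M))
        (∫ t in (0 : ℝ)..1, (1 - t) * Real.exp (t * M')) := by
    have e : mx θ (∫ t in (0 : ℝ)..1, (1 - t) * Real.exp (t * M))
        (∫ t in (0 : ℝ)..1, (1 - t) * Real.exp (t * M'))
        = ∫ t in (0 : ℝ)..1, mx θ ((1 - t) * Real.exp (t * M)) ((1 - t) * Real.exp (t * M')) := by
      unfold mx
      rw [intervalIntegral.integral_add (((ci M).const_mul (1 - θ)).intervalIntegrable _ _)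
        (((ci M').const_mul θ).intervalIntegrable _ _), intervalIntegral.integral_const_mul,
        intervalIntegral.integral_const_mul]
    rw [e]
    refine intervalIntegral.integral_mono_on zero_le_one ((ci _).intervalIntegrable _ _)
      (Continuous.intervalIntegrable (by unfold mx; fun_prop) _ _) fun t ht => ?_
    have e1 := exp_mx h0 h1 (t * M) (t * M')
    rw [mx_smul] at e1
    have e2 := mul_le_mul_of_nonneg_left e1 (sub_nonneg.2 ht.2)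
    rw [mx_smul]
    exact e2
  have k4 : 2 * ∫ t in (0 : ℝ)..1, (1 - t) * Real.exp (t * mx θ M M') ≤ mx θ κ κ' := by
    refine (mul_le_mul_of_nonneg_left k3 zero_le_two).trans ?_
    rw [← mx_smul]
    exact mx_le h0 h1 k1 k2
  rw [phi_int hm]
  have := mul_le_mul_of_nonneg_right k4 (sq_nonneg (mx θ M M'))
  linarith

/-! ### the scalars and the majorants of the kernels -/

/-- **the scalars and the majorants of the kernels at one time** -/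
structure KPt (lq : Bool) (ym Ph c1 c4 κD κE S1 S2 κ m Mt : ℝ) (H E RD RE : ℝ → ℝ) :
    Prop where
  h1 : 1 ≤ c1
  h4 : 1 ≤ c4
  s1 : 0 ≤ S1
  s2 : 0 ≤ S2
  k0 : 0 ≤ κ
  m0 : 0 ≤ m
  M : 2 * m ≤ Mt
  q : lq = true → 0 < Mt ∧ 2 * (Real.exp Mt - 1 - Mt) ≤ κ * Mt ^ 2
  l : lq = false → 1 ≤ κ ∧ Real.exp Mt - 1 ≤ κ * Mt
  e1 : ∀ f ∈ Icc 0 Ph, ∀ u ∈ Icc 0 S1,
    Real.exp m * (Real.exp (f + u) - 1) ≤ κE * f + c1 * u
  e2 : ∀ f ∈ Icc 0 Ph, ∀ u ∈ Icc 0 S2,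
    Real.exp (2 * m) * (Real.exp (f + u) - 1) ≤ κD * f + c4 * u
  D0 : 0 ≤ κD
  E0 : 0 ≤ κE
  hn : ∀ y ∈ Icc 0 ym, 0 ≤ H y
  en : ∀ y ∈ Icc 0 ym, 0 ≤ E y
  yH : ∀ y ∈ Icc 0 ym, y * H y ≤ m
  dl : ∀ y ∈ Icc 0 ym, (bif lq then H y + κ * (y * H y ^ 2) else κ * H y) ≤ RD y
  ef : ∀ y ∈ Icc 0 ym, E y ≤ RE y

/-- the order of two ends at one time -/
structure KOr (ym S1 S2 κ m S1' S2' κ' m' : ℝ) (H E H' E' : ℝ → ℝ) : Prop where
  s1 : S1 ≤ S1'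
  s2 : S2 ≤ S2'
  k : κ ≤ κ'
  m : m ≤ m'
  H : ∀ y ∈ Icc 0 ym, H y ≤ H' y
  E : ∀ y ∈ Icc 0 ym, E y ≤ E' y

section pt

variable {lq : Bool} {ym Ph c1 c4 κD κE S1 S2 κ m Mt S1' S2' κ' m' Mt' : ℝ}
  {H E RD RE H' E' RD' RE' : ℝ → ℝ}

/-- smaller end values -/
theorem KPt.anti (h : KPt lq ym Ph c1 c4 κD κE S1 S2 κ m Mt H E RD RE) {Ph' : ℝ}
    (hp : Ph' ≤ Ph) : KPt lq ym Ph' c1 c4 κD κE S1 S2 κ m Mt H E RD RE where
  h1 := h.h1
  h4 := h.h4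
  s1 := h.s1
  s2 := h.s2
  k0 := h.k0
  m0 := h.m0
  M := h.M
  q := h.q
  l := h.l
  e1 := fun f hf => h.e1 f ⟨hf.1, hf.2.trans hp⟩
  e2 := fun f hf => h.e2 f ⟨hf.1, hf.2.trans hp⟩
  D0 := h.D0
  E0 := h.E0
  hn := h.hn
  en := h.en
  yH := h.yH
  dl := h.dl
  ef := h.ef

/-- **the majorants times a number `l ≤ 1`** -/
theorem KPt.scale (h : KPt lq ym Ph c1 c4 κD κE S1 S2 κ m Mt H E RD RE) {l : ℝ} (l0 : 0 ≤ l)
    (l1 : l ≤ 1) : KPt lq ym Ph c1 c4 κD κE S1 S2 κ m Mt (fun y => l * H y) (fun y => l * E y)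
      (fun y => l * RD y) fun y => l * RE y where
  h1 := h.h1
  h4 := h.h4
  s1 := h.s1
  s2 := h.s2
  k0 := h.k0
  m0 := h.m0
  M := h.M
  q := h.q
  l := h.l
  e1 := h.e1
  e2 := h.e2
  D0 := h.D0
  E0 := h.E0
  hn := fun y hy => mul_nonneg l0 (h.hn y hy)
  en := fun y hy => mul_nonneg l0 (h.en y hy)
  yH := fun y hy => by
    have a := h.yH y hy
    have b := mul_nonneg hy.1 (h.hn y hy)
    have c := mul_le_of_le_one_left b l1
    calc y * (l * H y) = l * (y * H y) := by ring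
      _ ≤ y * H y := c
      _ ≤ m := a
  dl := fun y hy => by
    have a := mul_le_mul_of_nonneg_left (h.dl y hy) l0
    refine le_trans ?_ a
    cases lq
    · show κ * (l * H y) ≤ l * (κ * H y)
      exact le_of_eq (by ring)
    · show l * H y + κ * (y * (l * H y) ^ 2) ≤ l * (H y + κ * (y * H y ^ 2))
      have b := mul_nonneg h.k0 (mul_nonneg hy.1 (sq_nonneg (H y)))
      have c := mul_le_mul_of_nonneg_right (mul_le_of_le_one_left l0 l1) b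
      have e : κ * (y * (l * H y) ^ 2) = l * l * (κ * (y * H y ^ 2)) := by ring
      rw [e]
      linarith
  ef := fun y hy => mul_le_mul_of_nonneg_left (h.ef y hy) l0

/-- **the mixture of the scalars and of the majorants** -/
theorem KPt.mix (h : KPt lq ym Ph c1 c4 κD κE S1 S2 κ m Mt H E RD RE)
    (h' : KPt lq ym Ph c1 c4 κD κE S1' S2' κ' m' Mt' H' E' RD' RE')
    (ho : KOr ym S1 S2 κ m S1' S2' κ' m' H E H' E') {θ : ℝ} (h0 : 0 ≤ θ) (h1 : θ ≤ 1) :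
    KPt lq ym Ph c1 c4 κD κE (mx θ S1 S1') (mx θ S2 S2') (mx θ κ κ') (mx θ m m')
      (mx θ Mt Mt') (fun y => mx θ (H y) (H' y)) (fun y => mx θ (E y) (E' y))
      (fun y => mx θ (RD y) (RD' y)) fun y => mx θ (RE y) (RE' y) := by
  have u1 := mx_le_r h1 ho.s1
  have u2 := mx_le_r h1 ho.s2
  have u4 := mx_le_r h1 ho.m
  have v1 := mx_nonneg h0 h1 h.s1 h'.s1
  have v2 := mx_nonneg h0 h1 h.s2 h'.s2
  have v3 := mx_nonneg h0 h1 h.k0 h'.k0
  have v4 := mx_nonneg h0 h1 h.m0 h'.m0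
  exact {
    h1 := h.h1
    h4 := h.h4
    s1 := v1
    s2 := v2
    k0 := v3
    m0 := v4
    M := by
      have := mx_le h0 h1 h.M h'.M
      rwa [mx_smul] at this
    q := fun hq => by
      obtain ⟨a2, a3⟩ := h.q hq
      obtain ⟨b2, b3⟩ := h'.q hq
      refine ⟨?_, phi_mx h0 h1 a2 b2 a3 b3⟩
      unfold mx
      rcases h0.eq_or_lt with h2 | h2
      · rw [← h2]
        linarith
      · exact add_pos_of_nonneg_of_pos (mul_nonneg (sub_nonneg.2 h1) a2.le) (mul_pos h2 b2)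
    l := fun hq => by
      obtain ⟨a2, a3⟩ := h.l hq
      obtain ⟨b2, b3⟩ := h'.l hq
      refine ⟨?_, exp_node h0 h1 (by linarith [h.M, h.m0]) (by linarith [h'.M, h'.m0]) a3 b3
        a2 b2⟩
      unfold mx
      nlinarith [mul_nonneg (sub_nonneg.2 h1) (sub_nonneg.2 a2), mul_nonneg h0 (sub_nonneg.2 b2)]
    e1 := fun f hf u hu => by
      refine le_trans (mul_le_mul_of_nonneg_right (Real.exp_le_exp.2 u4) ?_)
        (h'.e1 f hf u ⟨hu.1, hu.2.trans u1⟩)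
      exact sub_nonneg.2 (Real.one_le_exp (add_nonneg hf.1 hu.1))
    e2 := fun f hf u hu => by
      refine le_trans (mul_le_mul_of_nonneg_right (Real.exp_le_exp.2 (by linarith)) ?_)
        (h'.e2 f hf u ⟨hu.1, hu.2.trans u2⟩)
      exact sub_nonneg.2 (Real.one_le_exp (add_nonneg hf.1 hu.1))
    D0 := h.D0
    E0 := h.E0
    hn := fun y hy => mx_nonneg h0 h1 (h.hn y hy) (h'.hn y hy)
    en := fun y hy => mx_nonneg h0 h1 (h.en y hy) (h'.en y hy)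
    yH := fun y hy => by
      show y * mx θ (H y) (H' y) ≤ _
      rw [← mx_smul]
      exact mx_le h0 h1 (h.yH y hy) (h'.yH y hy)
    dl := fun y hy => by
      have a := h.dl y hy
      have b := h'.dl y hy
      have oH := ho.H y hy
      have n0 := h.hn y hy
      refine le_trans ?_ (mx_le h0 h1 a b)
      cases lq
      · show mx θ κ κ' * mx θ (H y) (H' y) ≤ mx θ (κ * H y) (κ' * H' y)
        exact mx_mul h0 h1 ho.k oH
      · show mx θ (H y) (H' y) + mx θ κ κ' * (y * mx θ (H y) (H' y) ^ 2)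
          ≤ mx θ (H y + κ * (y * H y ^ 2)) (H' y + κ' * (y * H' y ^ 2))
        have sqo : H y ^ 2 ≤ H' y ^ 2 := pow_le_pow_left₀ n0 oH 2
        have t1 : mx θ (H y) (H' y) ^ 2 ≤ mx θ (H y ^ 2) (H' y ^ 2) := by
          have := mx_mul h0 h1 oH oH
          rw [sq, sq, sq]
          exact this
        have oy : y * H y ^ 2 ≤ y * H' y ^ 2 := mul_le_mul_of_nonneg_left sqo hy.1
        have t2 : mx θ κ κ' * (y * mx θ (H y) (H' y) ^ 2)
            ≤ mx θ (κ * (y * H y ^ 2)) (κ' * (y * H' y ^ 2)) := by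
          refine le_trans (mul_le_mul_of_nonneg_left (mul_le_mul_of_nonneg_left t1 hy.1) v3) ?_
          rw [← mx_smul]
          exact mx_mul h0 h1 ho.k oy
        rw [mx_add]
        linarith
    ef := fun y hy => mx_le h0 h1 (h.ef y hy) (h'.ef y hy) }

end pt

/-- **the scalars and the majorants of the kernels over time** -/
def KTm (lq : Bool) (σ ym Ph : ℝ) (c1 c4 κD κE S1 S2 κ m Mt : ℝ → ℝ)
    (H E RD RE : ℝ → ℝ → ℝ) : Prop :=
  ∀ r ∈ Icc 0 σ, KPt lq ym Ph (c1 r) (c4 r) (κD r) (κE r) (S1 r) (S2 r) (κ r) (m r)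
    (Mt r) (H r) (E r) (RD r) (RE r)

section tm

variable {lq : Bool} {s w θ σ ym Ph : ℝ}
  {c1 c4 κD κE S1 S2 κ m Mt S1' S2' κ' m' Mt' : ℝ → ℝ} {H E RD RE H' E' RD' RE' : ℝ → ℝ → ℝ}

/-- **the scalars and the majorants of the end `s + θ w`** -/
theorem KTm.mix (h : KTm lq s ym Ph c1 c4 κD κE S1 S2 κ m Mt H E RD RE)
    (h' : KTm lq (s + w) ym Ph c1 c4 κD κE S1' S2' κ' m' Mt' H' E' RD' RE')
    (ho : ∀ r ∈ Icc 0 s, KOr ym (S1 r) (S2 r) (κ r) (m r) (S1' r) (S2' r) (κ' r) (m' r)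
      (H r) (E r) (H' r) (E' r)) (w0 : 0 < w) (h0 : 0 ≤ θ) (h1 : θ ≤ 1) :
    KTm lq (s + θ * w) ym Ph c1 c4 κD κE (cs s θ S1 S1') (cs s θ S2 S2') (cs s θ κ κ')
      (cs s θ m m') (cs s θ Mt Mt') (glu2 s w θ H H') (glu2 s w θ E E') (glu2 s w θ RD RD')
      (glu2 s w θ RE RE') := by
  intro r hr
  have tw : θ * w ≤ w := by nlinarith
  have up : r ∈ Icc 0 (s + w) := ⟨hr.1, hr.2.trans (by linarith)⟩
  rcases le_or_gt r s with hl | hl
  · have e : ∀ f g : ℝ → ℝ → ℝ, glu2 s w θ f g r = fun y => mx θ (f r y) (g r y) :=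
      fun f g => funext fun y => if_pos hl
    simp only [cs_lo hl, e]
    exact (h r ⟨hr.1, hl⟩).mix (h' r up) (ho r ⟨hr.1, hl⟩) h0 h1
  · have e : ∀ f g : ℝ → ℝ → ℝ, glu2 s w θ f g r = fun y => lm s w θ r * g r y :=
      fun f g => funext fun y => if_neg (not_le.2 hl)
    simp only [cs_hi hl, e]
    exact (h' r up).scale (lmk_nn w0 h1 hl.le hr.2) (lmk_le w0 h1 hl.le hr.2)

end tm

/-! ### the values of the families -/

section vle

variable {J J' M : Type*} {s w θ : ℝ} {S : Finset ℝ} {S1 S1' : ℝ → ℝ}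

theorem VLe.glu {f : Fam J} {g : Fam J'} {j : J}
    {j' : J'} (h : ∀ r ∈ Icc 0 s, VLe f j r (S1 r)) (h' : ∀ r ∈ Icc 0 (s + w), VLe g j' r (S1' r))
    (w0 : 0 < w) (h0 : 0 ≤ θ) (h1 : θ ≤ 1) :
    ∀ r ∈ Icc 0 (s + θ * w), VLe (Fam.glu s w θ f g) (j, j') r (cs s θ S1 S1' r) := by
  intro r hr
  have tw : θ * w ≤ w := by nlinarith
  have up : r ∈ Icc 0 (s + w) := ⟨hr.1, hr.2.trans (by linarith)⟩
  have k' := h' r up
  rcases le_or_gt r s with hl | hl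
  · have k := h r ⟨hr.1, hl⟩
    rw [cs_lo hl]
    refine ⟨mx_nonneg h0 h1 k.s0 k'.s0, fun p hp => ?_, ?_⟩
    · show RCO.glu s w θ (fun r => f.Φ true j r p) (fun r => g.Φ true j' r p) r ≤ _
      unfold RCO.glu
      rw [if_pos hl]
      exact mx_le h0 h1 (k.v p hp) (k'.v p hp)
    · show RCO.glu s w θ (f.C true j) (g.C true j') r ≤ _
      unfold RCO.glu
      rw [if_pos hl]
      exact mx_le h0 h1 k.c k'.c
  · rw [cs_hi hl]
    have l0 := lmk_nn w0 h1 hl.le hr.2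
    have le : ∀ {a : ℝ}, a ≤ S1' r → lm s w θ r * a ≤ S1' r := fun {a} ha =>
      (mul_le_mul_of_nonneg_left ha l0).trans
        (mul_le_of_le_one_left k'.s0 (lmk_le w0 h1 hl.le hr.2))
    refine ⟨k'.s0, fun p hp => ?_, ?_⟩
    · show RCO.glu s w θ (fun r => f.Φ true j r p) (fun r => g.Φ true j' r p) r ≤ _
      unfold RCO.glu
      rw [if_neg (not_le.2 hl)]
      exact le (k'.v p hp)
    · show RCO.glu s w θ (f.C true j) (g.C true j') r ≤ _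
      unfold RCO.glu
      rw [if_neg (not_le.2 hl)]
      exact le k'.c

theorem VLe.re {f : Fam J} {i : J' → J} {j : J'} {r v : ℝ} (h : VLe f (i j) r v) :
    VLe (f.re i) j r v := ⟨h.s0, h.v, h.c⟩

theorem VLe.gd {f g : Fam M} {m : M}
    (h : ∀ r ∈ Icc 0 s, VLe f m r (S1 r)) (h' : ∀ r ∈ Icc 0 (s + w), VLe g m r (S1' r))
    (w0 : 0 < w) (h0 : 0 ≤ θ) (h1 : θ ≤ 1) :
    ∀ r ∈ Icc 0 (s + θ * w), VLe (Fam.gd s w θ f g) m r (cs s θ S1 S1' r) :=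
  fun r hr => VLe.re (VLe.glu h h' w0 h0 h1 r hr)

end vle

/-! ### the environment and the bounds only on `[0, σ]` -/

/-- the environments agree on `[0, σ]` except the kernels of the killing -/
structure TEnv.EqK (σ : ℝ) (E E' : TEnv) : Prop where
  R : ∀ r ∈ Icc 0 σ, E.R r = E'.R r
  Rp : ∀ r ∈ Icc 0 σ, E.Rp r = E'.Rp r
  W : ∀ r ∈ Icc 0 σ, E.W r = E'.W r
  Wp : ∀ r ∈ Icc 0 σ, E.Wp r = E'.Wp r
  κD : ∀ r ∈ Icc 0 σ, E.κD r = E'.κD r
  κE : ∀ r ∈ Icc 0 σ, E.κE r = E'.κE r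
  c1 : ∀ r ∈ Icc 0 σ, E.c1 r = E'.c1 r
  c4 : ∀ r ∈ Icc 0 σ, E.c4 r = E'.c4 r

section congr

variable {J Λ M : Type*} {σ : ℝ} {S : Finset ℝ} {E E' : TEnv}

theorem DT1.Ok.congr [Fintype J] [Nonempty J] [Fintype Λ] {wv : Λ → Pt → ℝ}
    {B B' : Bool → Λ → ℝ → Pt → ℝ} {CB CB' : Bool → Λ → ℝ → ℝ} {ν1 δ1 : Pt → ℝ} {Cν1 Cδ1 : ℝ}
    {d : DT1 J Λ} (h : d.Ok σ S E wv B CB ν1 δ1 Cν1 Cδ1) (hE : TEnv.EqK σ E E')
    (hB : ∀ b m, ∀ r ∈ Icc 0 σ, B b m r = B' b m r)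
    (hCB : ∀ b m, ∀ r ∈ Icc 0 σ, CB b m r = CB' b m r) :
    d.Ok σ S (E'.wk E.RD E.RE E.RDp E.REp) wv B' CB' ν1 δ1 Cν1 Cδ1 where
  f := h.f
  kD := h.kD
  kE := h.kE
  oD := h.oD
  oE := h.oE
  c10 := fun r hr => by
    have := h.c10 r hr
    rwa [hE.c1 r hr] at this
  c40 := fun r hr => by
    have := h.c40 r hr
    rwa [hE.c4 r hr] at this
  sn := h.sn
  se := fun r hr hS => by
    have := h.se r hr hS
    rwa [hE.κE r hr, hE.c1 r hr] at this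
  sd := fun r hr hS => by
    have := h.sd r hr hS
    rwa [hE.κD r hr, hE.c4 r hr] at this
  Gn0 := h.Gn0
  Gd0 := h.Gd0
  C := fun r hr hS => by
    have := h.C r hr hS
    rw [hE.R r hr, hE.Rp r hr, hE.W r hr, hE.Wp r hr] at this
    simp only [hB _ _ r hr, hCB _ _ r hr] at this
    exact this

theorem DP1.Ok.congr [Fintype M] {w1 : M → Pt → ℝ}
    {B B' : Bool → M → ℝ → Pt → ℝ} {CB CB' : Bool → M → ℝ → ℝ} {ν δ : M → Pt → ℝ} {Cν Cδ : M → ℝ}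
    {d : DP1 M} (h : d.Ok σ S E w1 B CB ν δ Cν Cδ) (hE : TEnv.EqK σ E E')
    (hB : ∀ b m, ∀ r ∈ Icc 0 σ, B b m r = B' b m r)
    (hCB : ∀ b m, ∀ r ∈ Icc 0 σ, CB b m r = CB' b m r) :
    d.Ok σ S (E'.wk E.RD E.RE E.RDp E.REp) w1 B' CB' ν δ Cν Cδ where
  g := h.g
  Kn0 := h.Kn0
  Kp0 := h.Kp0
  Ke0 := h.Ke0
  Km0 := h.Km0
  C := fun r hr hS => by
    have := h.C r hr hS
    rw [hE.R r hr, hE.Rp r hr, hE.W r hr, hE.Wp r hr, hE.κD r hr, hE.κE r hr, hE.c1 r hr,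
      hE.c4 r hr] at this
    simp only [hB _ _ r hr, hCB _ _ r hr] at this
    exact this

end congr

/-! ### the system of the end `s + θ w` -/

/-- **the conditions of a system which do not mention the world** -/
structure SysD.InT {J M Λ : Type*} [Fintype J] [Nonempty J] [Fintype M] [Nonempty M] [Fintype Λ]
    (q : SysD J M Λ) (_ : Bool) (σ : ℝ) (S : Finset ℝ) : Prop where
  hm0 : ∀ p, q.w1 q.m0 p = 1
  ht : q.dt.Ok σ S q.E q.wv q.B q.CB (q.ν q.m0) (q.δ q.m0) (q.Cν q.m0) (q.Cδ q.m0)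
  hp : q.dp.Ok σ S q.E q.w1 q.B1 q.CB1 q.ν q.δ q.Cν q.Cδ
  hP1 : ∀ r ∈ Icc 0 σ, VLe q.dt.f q.j0 r (q.S1f r)
  hP2 : ∀ r ∈ Icc 0 σ, VLe q.dp.g q.m0 r (q.S2f r)

/-- the common part of the systems of two ends -/
structure SysCom {J J' M Λ : Type*} (s : ℝ) (q : SysD J M Λ) (q' : SysD J' M Λ) : Prop where
  E : TEnv.EqK s q.E q'.E
  wv : q.wv = q'.wv
  B : ∀ b m, ∀ r ∈ Icc 0 s, q.B b m r = q'.B b m r
  CB : ∀ b m, ∀ r ∈ Icc 0 s, q.CB b m r = q'.CB b m r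
  w1 : q.w1 = q'.w1
  B1 : ∀ b m, ∀ r ∈ Icc 0 s, q.B1 b m r = q'.B1 b m r
  CB1 : ∀ b m, ∀ r ∈ Icc 0 s, q.CB1 b m r = q'.CB1 b m r
  m0 : q.m0 = q'.m0
  dp : DPCom s q.dp q'.dp

/-- no end values -/
structure SysD.Nl {J M Λ : Type*} (q : SysD J M Λ) : Prop where
  ν : ∀ m p, Sa p → q.ν m p = 0
  δ : ∀ m p, Sa p → q.δ m p = 0
  Cν : ∀ m, q.Cν m = 0
  Cδ : ∀ m, q.Cδ m = 0

/-- **the system of the end `s + θ w`** -/
noncomputable def SysD.mix {J J' M Λ : Type*} (s w θ : ℝ) (q : SysD J M Λ) (q' : SysD J' M Λ) :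
    SysD (J × J') M Λ where
  E := q'.E.wk (glu2 s w θ q.E.RD q'.E.RD) (glu2 s w θ q.E.RE q'.E.RE)
    (glu s w θ q.E.RDp q'.E.RDp) (glu s w θ q.E.REp q'.E.REp)
  wv := q'.wv
  B := q'.B
  CB := q'.CB
  w1 := q'.w1
  B1 := q'.B1
  CB1 := q'.CB1
  ν := q'.ν
  δ := q'.δ
  Cν := q'.Cν
  Cδ := q'.Cδ
  dt := DT1.mix s w θ q.dt q'.dt
  dp := DP1.mix s w θ q.dp q'.dp
  m0 := q'.m0
  j0 := (q.j0, q'.j0)
  S1f := cs s θ q.S1f q'.S1f
  S2f := cs s θ q.S2f q'.S2f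
  κ := cs s θ q.κ q'.κ
  Mt := cs s θ q.Mt q'.Mt

section sys

variable {J J' M Λ : Type*} [Fintype J] [Nonempty J] [Fintype J'] [Nonempty J'] [Fintype M]
  [Nonempty M] [Fintype Λ] {q : SysD J M Λ} {q' : SysD J' M Λ} {lq : Bool} {s w θ : ℝ}
  {S : Finset ℝ}

/-- **the system of the end `s + θ w`, the conditions which do not mention the world** -/
theorem SysD.InT.mix (h : q.InT lq s S) (h' : q'.InT lq (s + w) S) (hc : SysCom s q q')
    (z : q.Nl) (z' : q'.Nl) (hmt : FMat s q.dt.f) (hmp : FMat s q.dp.g)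
    (s0 : 0 ≤ s) (w0 : 0 < w) (h0 : 0 ≤ θ) (h1 : θ ≤ 1)
    (κD0 : ∀ r ∈ Icc 0 (s + w), 0 ≤ q'.E.κD r) (κE0 : ∀ r ∈ Icc 0 (s + w), 0 ≤ q'.E.κE r) :
    (SysD.mix s w θ q q').InT lq (s + θ * w) (glS s w θ S) := by
  have hB := hc.B
  have hm0 : q.m0 = q'.m0 := hc.m0
  have ht : q.dt.Ok s S (q'.E.wk q.E.RD q.E.RE q.E.RDp q.E.REp) q'.wv q'.B q'.CB (q.ν q'.m0)
      (q.δ q'.m0) (q.Cν q'.m0) (q.Cδ q'.m0) := by
    have k := h.ht.congr hc.E hB hc.CB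
    rwa [hc.wv, hm0] at k
  have hp : q.dp.Ok s S (q'.E.wk q.E.RD q.E.RE q.E.RDp q.E.REp) q'.w1 q'.B1 q'.CB1 q.ν
      q.δ q.Cν q.Cδ := by
    have k := h.hp.congr hc.E hc.B1 hc.CB1
    rwa [hc.w1] at k
  have ht' : q'.dt.Ok (s + w) S (q'.E.wk q'.E.RD q'.E.RE q'.E.RDp q'.E.REp) q'.wv q'.B q'.CB
      (q'.ν q'.m0) (q'.δ q'.m0) (q'.Cν q'.m0) (q'.Cδ q'.m0) := h'.ht
  have hp' : q'.dp.Ok (s + w) S (q'.E.wk q'.E.RD q'.E.RE q'.E.RDp q'.E.REp) q'.w1 q'.B1 q'.CB1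
      q'.ν q'.δ q'.Cν q'.Cδ := h'.hp
  exact {
    hm0 := h'.hm0
    ht := ht.mix ht' hmt s0 w0 h0 h1 κD0 κE0 (fun p hp => (z.ν _ p hp).ge)
      (fun p hp => (z'.ν _ p hp).ge) (fun p hp => (z'.ν _ p hp).le)
      (fun p hp => (z.δ _ p hp).ge) (fun p hp => (z'.δ _ p hp).ge)
      (fun p hp => (z'.δ _ p hp).le) (z.Cν _).ge (z'.Cν _).ge (z'.Cν _).le (z.Cδ _).ge
      (z'.Cδ _).ge (z'.Cδ _).le
    hp := hp.mix hp' hc.dp hmp s0 w0 h0 h1 κD0 κE0 h'.ht.c10 h'.ht.c40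
      (fun m p hp => (z.ν m p hp).ge) (fun m p hp => (z'.ν m p hp).ge)
      (fun m p hp => (z'.ν m p hp).le) (fun m p hp => (z.δ m p hp).ge)
      (fun m p hp => (z'.δ m p hp).ge) (fun m p hp => (z'.δ m p hp).le) (fun m => (z.Cν m).ge)
      (fun m => (z'.Cν m).ge) (fun m => (z'.Cν m).le) (fun m => (z.Cδ m).ge)
      (fun m => (z'.Cδ m).ge) fun m => (z'.Cδ m).le
    hP1 := VLe.glu h.hP1 h'.hP1 w0 h0 h1
    hP2 := by
      have k := h.hP2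
      rw [hm0] at k
      exact VLe.gd k h'.hP2 w0 h0 h1 }

variable {V : Type*} [Fintype V] [DecidableEq V] {x : V → V → ℝ} {P : V → Prop} {D : Finset V}
  {hb T : ℝ → V → V → ℝ} {gp gm : Finset V → V → V → ℝ → ℝ} {Fe Ge : Finset V → V → V → ℝ}
  {σ : ℝ}

/-- the conditions of a system from the part of the world and the part of the tables -/
theorem SysD.InT.in0 (h : q.InT lq σ S)
    (env : WEnv x P D σ S hb T q.E.R q.E.Rp q.E.W q.E.Wp)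
    (rw : RwB x P D σ S gp gm q.wv (fun s m e F r => bfu x P D (q.B s m r) (q.CB s m r) e F)
      q.B q.CB)
    (rw1 : RwB x P D σ S gp gm q.w1 (fun s m e F r => bfu x P D (q.B1 s m r) (q.CB1 s m r) e F)
      q.B1 q.CB1)
    (he : EndV x P D q.w1 Fe Ge (fun m => bfu x P D (q.ν m) (q.Cν m))
      (fun m => bfu x P D (q.δ m) (q.Cδ m)) q.ν q.δ q.Cν q.Cδ) :
    q.In0 lq x P D hb T σ S gp gm Fe Ge where
  env := env
  rw := rw
  rw1 := rw1
  he := he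
  hm0 := h.hm0
  ht := h.ht
  hp := h.hp
  hP1 := h.hP1
  hP2 := h.hP2

/-- the environment up to an earlier time, more kinks -/
theorem WEnv.sub {S' : Finset ℝ} {R : ℝ → ℝ → ℝ} {Rp : ℝ → ℝ} {W : ℝ → Pt → ℝ}
    {Wp : ℝ → ℝ → ℝ} (h : WEnv x P D σ S hb T R Rp W Wp) {σ' : ℝ} (hσ : σ' ≤ σ) (hS : S ⊆ S') :
    WEnv x P D σ' S' hb T R Rp W Wp where
  hP := h.hP
  hx := h.hx
  hD := h.hD
  kr := fun r hr hr' => h.kr r ⟨hr.1, hr.2.trans hσ⟩ fun h2 => hr' (hS h2)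
  tb := fun r hr hr' => h.tb r ⟨hr.1, hr.2.trans hσ⟩ fun h2 => hr' (hS h2)

end sys

end Pool.Agent.RZ.RCO
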