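import Pool.Agent.RZ.RCO.Gt2

/-! Links between tables: shared columns, ordered columns (MP_73ccd0_lc). -/

set_option autoImplicit false

namespace Pool.Agent.RZ.RCO

open Sg Set

/-! ### linked expressions -/

/-- the entries `a`, `b` are linked: in the same row, in the next row -/
def prB (R R' a b : ℕ) : List (ℕ × ℕ) → Bool
  | [] => false
  | x :: l => (Nat.beq x.1 a && Nat.beq x.2 b) || ((Nat.beq (R + x.1) a && Nat.beq (R' + x.2) b)
      || prB R R' a b l)

theorem prB_of {R R' a b : ℕ} : ∀ {l : List (ℕ × ℕ)}, prB R R' a b l = true →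
    ∃ x ∈ l, (x.1 = a ∧ x.2 = b) ∨ (R + x.1 = a ∧ R' + x.2 = b)
  | [], h => by simp [prB] at h
  | x :: l, h => by
    simp only [prB, Bool.or_eq_true, Bool.and_eq_true] at h
    rcases h with h | h | h
    · exact ⟨x, by simp, Or.inl ⟨Nat.eq_of_beq_eq_true h.1, Nat.eq_of_beq_eq_true h.2⟩⟩
    · exact ⟨x, by simp, Or.inr ⟨Nat.eq_of_beq_eq_true h.1, Nat.eq_of_beq_eq_true h.2⟩⟩
    · obtain ⟨y, hy, h2⟩ := prB_of h
      exact ⟨y, by simp [hy], h2⟩

/-- entries with strides -/
def prS (f : ℕ → ℕ → Bool) : ℕ → ℕ → ℕ → ℕ → ℕ → Bool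
  | _, _, _, _, 0 => true
  | i, t, i', t', n + 1 => f i i' && prS f (i + t) t (i' + t') t' n

/-- equal lists -/
def eqN : List ℕ → List ℕ → Bool
  | [], [] => true
  | a :: l, b :: m => Nat.beq a b && eqN l m
  | _, _ => false

theorem eqN_of : ∀ {l m : List ℕ}, eqN l m = true → l = m
  | [], [], _ => rfl
  | [], b :: m, h => by simp [eqN] at h
  | a :: l, [], h => by simp [eqN] at h
  | a :: l, b :: m, h => by
    simp only [eqN, Bool.and_eq_true] at h
    rw [Nat.eq_of_beq_eq_true h.1, eqN_of h.2]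

/-- the same expression in linked entries -/
def exq (f : ℕ → ℕ → Bool) : Ex → Ex → Bool
  | .c n, .c m => Nat.beq n m
  | .v p, .v q => Nat.beq p q
  | .q p, .q q => Nat.beq p q
  | .w p n, .w q m => Nat.beq p q && Nat.beq n m
  | .u p l, .u q m => Nat.beq p q && eqN l m
  | .r p i t n, .r q i' t' m => Nat.beq p q && (Nat.beq n m && prS f i t i' t' n)
  | .s p i t n, .s q i' t' m => Nat.beq p q && (Nat.beq n m && prS f i t i' t' n)
  | .add a b, .add a' b' => exq f a a' && exq f b b'
  | .sub a b, .sub a' b' => exq f a a' && exq f b b'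
  | .mul a b, .mul a' b' => exq f a a' && exq f b b'
  | _, _ => false

section

variable {f : ℕ → ℕ → Bool} {e e' : ℕ → ℕ}

theorem prS_rl (G : (ℕ → ℕ) → ℕ → ℤ) (hG : ∀ a b, f a b = true → G e a = G e' b) :
    ∀ {n i t i' t' : ℕ}, prS f i t i' t' n = true → rl (G e) i t n = rl (G e') i' t' n
  | 0, _, _, _, _, _ => rfl
  | n + 1, i, t, i', t', h => by
    simp only [prS, Bool.and_eq_true] at h
    rw [rl, rl, hG _ _ h.1, prS_rl G hG h.2]

theorem exq_val (H : ∀ a b, f a b = true → e a = e' b) (ρ : ℕ → ℝ) :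
    ∀ {A B : Ex}, exq f A B = true → A.val ρ e = B.val ρ e' := by
  have hu : ∀ a b, f a b = true → ue e a = ue e' b := fun a b h => by
    unfold ue
    rw [H a b h]
  have hs : ∀ a b, f a b = true → se e a = se e' b := fun a b h => by
    unfold se
    rw [H a b h]
  intro A
  induction A with
  | c n =>
    intro B h
    cases B <;> simp only [exq, Bool.false_eq_true] at h
    rw [Nat.eq_of_beq_eq_true h]
    rfl
  | v p =>
    intro B h
    cases B <;> simp only [exq, Bool.false_eq_true] at h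
    rw [Nat.eq_of_beq_eq_true h]
    rfl
  | q p =>
    intro B h
    cases B <;> simp only [exq, Bool.false_eq_true] at h
    rw [Nat.eq_of_beq_eq_true h]
    rfl
  | w p n =>
    intro B h
    cases B <;> simp only [exq, Bool.false_eq_true, Bool.and_eq_true] at h
    rfl
  | u p l =>
    intro B h
    cases B <;> simp only [exq, Bool.false_eq_true, Bool.and_eq_true] at h
    rw [Nat.eq_of_beq_eq_true h.1, eqN_of h.2]
    rfl
  | r p i t n =>
    intro B h
    cases B <;> simp only [exq, Bool.false_eq_true, Bool.and_eq_true] at h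
    rw [Nat.eq_of_beq_eq_true h.1, ← Nat.eq_of_beq_eq_true h.2.1]
    simp only [Ex.val]
    rw [prS_rl ue hu h.2.2]
  | s p i t n =>
    intro B h
    cases B <;> simp only [exq, Bool.false_eq_true, Bool.and_eq_true] at h
    rw [Nat.eq_of_beq_eq_true h.1, ← Nat.eq_of_beq_eq_true h.2.1]
    simp only [Ex.val]
    rw [prS_rl se hs h.2.2]
  | add a b iha ihb =>
    intro B h
    cases B <;> simp only [exq, Bool.false_eq_true, Bool.and_eq_true] at h
    simp only [Ex.val]
    rw [iha h.1, ihb h.2]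
  | sub a b iha ihb =>
    intro B h
    cases B <;> simp only [exq, Bool.false_eq_true, Bool.and_eq_true] at h
    simp only [Ex.val]
    rw [iha h.1, ihb h.2]
  | mul a b iha ihb =>
    intro B h
    cases B <;> simp only [exq, Bool.false_eq_true, Bool.and_eq_true] at h
    simp only [Ex.val]
    rw [iha h.1, ihb h.2]

/-- linked expressions with their scales -/
def req (f : ℕ → ℕ → Bool) (A B : Re) : Bool := Nat.beq A.k B.k && exq f A.E B.E

theorem req_val (H : ∀ a b, f a b = true → e a = e' b) (ρ : ℕ → ℝ) {A B : Re}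
    (h : req f A B = true) : A.val ρ e = B.val ρ e' := by
  simp only [req, Bool.and_eq_true] at h
  unfold Re.val
  rw [exq_val H ρ h.2, Nat.eq_of_beq_eq_true h.1]

theorem req_tv (H : ∀ a b, f a b = true → e a = e' b) {A B : Re} (h : req f A B = true) (c : ℝ) :
    A.tv c e = B.tv c e' := req_val H _ h

theorem req_kv (H : ∀ a b, f a b = true → e a = e' b) {A B : Re} (h : req f A B = true)
    (c k : ℝ) : A.kv c e k = B.kv c e' k := req_val H _ h

/-- linked lists -/
def reqL (f : ℕ → ℕ → Bool) : List Re → List Re → Bool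
  | [], [] => true
  | A :: l, B :: m => req f A B && reqL f l m
  | _, _ => false

theorem reqL_hT (H : ∀ a b, f a b = true → e a = e' b) (c : ℝ) (y : ℝ) :
    ∀ {L M : List Re}, reqL f L M = true → hT L c e y = hT M c e' y
  | [], [], _ => rfl
  | [], B :: m, h => by simp [reqL] at h
  | A :: l, [], h => by simp [reqL] at h
  | A :: l, B :: m, h => by
    simp only [reqL, Bool.and_eq_true] at h
    show A.tv c e + y * hT l c e y = B.tv c e' + y * hT m c e' y
    rw [req_tv H h.1 c, reqL_hT H c y h.2]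

/-- linked forms: the thirteen coefficients -/
def reqF (f : ℕ → ℕ → Bool) (F G : ℕ → Re) : Bool :=
  allL (fun i => req f (F i) (G i)) (List.range 13)

theorem reqF_cf (H : ∀ a b, f a b = true → e a = e' b) {F G : ℕ → Re} (h : reqF f F G = true)
    (c : ℝ) (p : Pt) : Sp12.cf F c e p = Sp12.cf G c e' p := by
  have k : ∀ i < 13, (F i).kv c e p.k = (G i).kv c e' p.k := fun i hi =>
    req_kv H (allL_of h i (List.mem_range.2 hi)) c p.k
  unfold Sp12.cf
  rw [k 12 (by norm_num)]
  exact congrArg (· + _) (frm_congr (fun i hi => k i (by omega)) p)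

end

/-! ### equal columns of two tables -/

/-- the columns of `L` agree on the rows `0, ..., n` -/
noncomputable def lnkB (D R D' R' n : ℕ) (L : List (ℕ × ℕ)) : Bool :=
  allL (fun x : ℕ × ℕ => allL (fun j => Nat.beq (g D (R * j + x.1)) (g D' (R' * j + x.2)))
    (List.range (n + 1))) L

/-- the columns of `L` are ordered on the rows `0, ..., n` -/
noncomputable def ordB (D R D' R' n : ℕ) (L : List (ℕ × ℕ)) : Bool :=
  allL (fun x : ℕ × ℕ => allL (fun j => Nat.ble (g D (R * j + x.1)) (g D' (R' * j + x.2)))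
    (List.range (n + 1))) L

section

variable {D R D' R' n : ℕ} {L : List (ℕ × ℕ)}

theorem lnkB_of (h : lnkB D R D' R' n L = true) {x : ℕ × ℕ} (hx : x ∈ L) {j : ℕ} (hj : j ≤ n) :
    g D (R * j + x.1) = g D' (R' * j + x.2) :=
  Nat.eq_of_beq_eq_true (allL_of (allL_of h x hx) j (List.mem_range.2 (by omega)))

theorem ordB_of (h : ordB D R D' R' n L = true) {x : ℕ × ℕ} (hx : x ∈ L) {j : ℕ} (hj : j ≤ n) :
    g D (R * j + x.1) ≤ g D' (R' * j + x.2) :=
  Nat.le_of_ble_eq_true (allL_of (allL_of h x hx) j (List.mem_range.2 (by omega)))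

/-- the rows are linked -/
theorem lnkB_rwd (h : lnkB D R D' R' n L = true) {j : ℕ} (hj : j < n) :
    ∀ a b, prB R R' a b L = true → rwd D R j a = rwd D' R' j b := by
  intro a b hab
  obtain ⟨x, hx, h2⟩ := prB_of hab
  unfold rwd
  rcases h2 with ⟨rfl, rfl⟩ | ⟨rfl, rfl⟩
  · exact lnkB_of h hx (by omega)
  · have := lnkB_of h hx (j := j + 1) (by omega)
    rw [show R * j + (R + x.1) = R * (j + 1) + x.1 by ring,
      show R' * j + (R' + x.2) = R' * (j + 1) + x.2 by ring]
    exact this

theorem lnkB_un (h : lnkB D R D' R' n L = true) {i i' : ℕ} (hx : (i, i') ∈ L) {j : ℕ}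
    (hj : j ≤ n) : un D R i j = un D' R' i' j := by
  unfold un Sg.nv
  rw [lnkB_of h hx hj]

theorem ordB_un (h : ordB D R D' R' n L = true) {i i' : ℕ} (hx : (i, i') ∈ L) {j : ℕ}
    (hj : j ≤ n) : un D R i j ≤ un D' R' i' j := by
  unfold un Sg.nv
  have := ordB_of h hx hj
  gcongr

theorem ordB_sn (h : ordB D R D' R' n L = true) {i i' : ℕ} (hx : (i, i') ∈ L) {j : ℕ}
    (hj : j ≤ n) : sn D R i j ≤ sn D' R' i' j := by
  unfold sn Sg.sv
  have := ordB_of h hx hj
  gcongr

/-- the same mesh -/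
theorem lnkB_tm (h : lnkB D R D' R' n L = true) {iH iH' : ℕ} (hx : (iH, iH') ∈ L) :
    ∀ {j : ℕ}, j ≤ n → tmD D R iH j = tmD D' R' iH' j := by
  intro j hj
  unfold tmD
  exact Finset.sum_congr rfl fun i hi => lnkB_un h hx (by have := Finset.mem_range.1 hi; omega)

end

/-! ### the step of a time in two meshes -/

section

variable {t t' : ℕ → ℝ} {n n' : ℕ}

theorem ixD_eq (hn : 0 < n) (hm : Msh t n) (hm' : Msh t' n') (hnn : n ≤ n')
    (ht : ∀ j ≤ n, t j = t' j) {r : ℝ} (hr : r ∈ Icc (t 0) (t n)) :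
    ixD t n r = ixD t' n' r := by
  classical
  obtain ⟨j, hj, hj2⟩ := hm.stepc hn hr
  have h : ∃ j, Stp t n j r := ⟨j, hm, hj, hj2⟩
  have tr : ∀ j, Stp t n j r → Stp t' n' j r := fun j hj => ⟨hm', by have := hj.lt; omega, by
    rw [← ht j (by have := hj.lt; omega), ← ht (j + 1) (by have := hj.lt; omega)]
    exact hj.mem⟩
  have tr' : ∀ j, j < n → Stp t' n' j r → Stp t n j r := fun j hjn hj => ⟨hm, hjn, by
    rw [ht j (by omega), ht (j + 1) (by omega)]
    exact hj.mem⟩
  have h' : ∃ j, Stp t' n' j r := h.imp tr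
  unfold ixD
  rw [dif_pos h, dif_pos h']
  refine le_antisymm ?_ ?_
  · refine Nat.find_min' h (tr' _ ?_ (Nat.find_spec h'))
    exact lt_of_le_of_lt (Nat.find_min' h' (tr _ (Nat.find_spec h))) (Nat.find_spec h).lt
  · exact Nat.find_min' h' (tr _ (Nat.find_spec h))

/-- **the coordinate in the step and the row of two linked tables** -/
theorem lnk_row {D R D' R' iH iH' : ℕ} {L : List (ℕ × ℕ)} (h : lnkB D R D' R' n L = true)
    (hx : (iH, iH') ∈ L) (hn : 0 < n) (hnn : n ≤ n') (hm : Msh (tmD D R iH) n)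
    (hm' : Msh (tmD D' R' iH') n') {r : ℝ} (hr : r ∈ Icc (tmD D R iH 0) (tmD D R iH n)) :
    cD (tmD D R iH) n r = cD (tmD D' R' iH') n' r ∧
      ∀ a b, prB R R' a b L = true →
        eD D R (tmD D R iH) n r a = eD D' R' (tmD D' R' iH') n' r b := by
  have ht : ∀ j ≤ n, tmD D R iH j = tmD D' R' iH' j := fun j hj => lnkB_tm h hx hj
  have e := ixD_eq hn hm hm' hnn ht hr
  have hs := (ixD_spec hm hn hr).lt
  constructor
  · unfold cD stc
    rw [← e, ← ht _ hs.le, ← ht _ hs]
  · intro a b hab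
    unfold eD
    rw [← e]
    exact lnkB_rwd h hs a b hab

theorem pl_le_of {u v : ℕ → ℝ} (hn : 0 < n) (hm : Msh t n) (hm' : Msh t' n') (hnn : n ≤ n')
    (ht : ∀ j ≤ n, t j = t' j) (hu : ∀ j ≤ n, u j ≤ v j) {r : ℝ} (hr : r ∈ Icc (t 0) (t n)) :
    pl t u n r ≤ pl t' v n' r := by
  obtain ⟨j, hj, hj2⟩ := hm.stepc hn hr
  have c0 := stc_nonneg hm hj hj2
  have c1 := stc_le_one hm hj hj2
  have hj3 : r ∈ Icc (t' j) (t' (j + 1)) := by
    rw [← ht j (by omega), ← ht (j + 1) (by omega)]
    exact hj2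
  rw [pl_stc hm hj hj2, pl_stc hm' (by omega) hj3]
  have e : stc t' j r = stc t j r := by
    unfold stc
    rw [ht j (by omega), ht (j + 1) (by omega)]
  rw [e]
  exact add_le_add (mul_le_mul_of_nonneg_left (hu j (by omega)) (sub_nonneg.2 c1))
    (mul_le_mul_of_nonneg_left (hu (j + 1) (by omega)) c0)

end

/-! ### expressions which are one column -/

/-- the value of a column over time, unsigned -/
theorem lr_tv {D R iH n : ℕ} (hm : Msh (tmD D R iH) n) (hn : 0 < n) {r : ℝ}
    (hr : r ∈ Icc (tmD D R iH 0) (tmD D R iH n)) (i : ℕ) :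
    (lr R i).tv (cD (tmD D R iH) n r) (eD D R (tmD D R iH) n r)
      = uT D R (tmD D R iH) n i r := (ixD_spec hm hn hr).lr rfl i

/-- **an ordered column** -/
theorem lr_ord {D R D' R' iH iH' n n' : ℕ} {L M : List (ℕ × ℕ)}
    (h : lnkB D R D' R' n L = true) (hx : (iH, iH') ∈ L) (ho : ordB D R D' R' n M = true)
    {i i' : ℕ} (hi : (i, i') ∈ M) (hn : 0 < n) (hnn : n ≤ n') (hm : Msh (tmD D R iH) n)
    (hm' : Msh (tmD D' R' iH') n') {r : ℝ} (hr : r ∈ Icc (tmD D R iH 0) (tmD D R iH n)) :
    (lr R i).tv (cD (tmD D R iH) n r) (eD D R (tmD D R iH) n r)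
      ≤ (lr R' i').tv (cD (tmD D' R' iH') n' r) (eD D' R' (tmD D' R' iH') n' r) := by
  have ht : ∀ j ≤ n, tmD D R iH j = tmD D' R' iH' j := fun j hj => lnkB_tm h hx hj
  have hr' : r ∈ Icc (tmD D' R' iH' 0) (tmD D' R' iH' n') := by
    rw [← ht 0 (by omega)]
    exact ⟨hr.1, hr.2.trans ((ht n le_rfl).le.trans (hm'.le hnn le_rfl))⟩
  rw [lr_tv hm hn hr, lr_tv hm' (by omega) hr']
  exact pl_le_of hn hm hm' hnn ht (fun j hj => ordB_un ho hi hj) hr

/-! ### tables which are linear at the end -/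

/-- the entries of a table of a coefficient: equal slopes from the node `m` on, end value zero -/
noncomputable def linB (D R m n : ℕ) : Option Cf → Bool
  | none => true
  | some a => Nat.beq (g D (R * n + a.w)) 2147483648 &&
      allL (fun j => Nat.beq (g D (R * (m + j) + a.s)) (g D (R * n + a.s))) (List.range (n - m))

/-- the end slope -/
noncomputable def slE (D R n : ℕ) (o : Option Cf) : ℝ := (oTq D R o).s n

theorem linB_w {D R m n : ℕ} {o : Option Cf} (h : linB D R m n o = true) :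
    (oTq D R o).w n = 0 := by
  cases o with
  | none => rfl
  | some a =>
    simp only [linB, Bool.and_eq_true] at h
    show sn D R a.w n = 0
    unfold sn Sg.sv
    rw [Nat.eq_of_beq_eq_true h.1]
    norm_num

theorem linB_s {D R m n : ℕ} {o : Option Cf} (h : linB D R m n o = true) :
    ∀ j, m ≤ j → j ≤ n → (oTq D R o).s j = slE D R n o := by
  intro j h1 h2
  cases o with
  | none => rfl
  | some a =>
    simp only [linB, Bool.and_eq_true] at h
    rcases h2.lt_or_eq with h3 | h3
    · have k := allL_of h.2 (j - m) (List.mem_range.2 (by omega))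
      have e := Nat.eq_of_beq_eq_true k
      rw [show m + (j - m) = j by omega] at e
      show sn D R a.s j = sn D R a.s n
      unfold sn Sg.sv
      rw [e]
    · rw [h3]
      rfl

end Pool.Agent.RZ.RCO
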