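import Pool.Agent.RZ.RCO.Sg3

/-! Signed packed checker, part 4: automatic homogenisation, linear forms in features, certificates
with multipliers (MP_73ccd0_lc). -/

set_option autoImplicit false

namespace Pool.Agent.RZ.RCO.Sg

/-! ### elevation -/

def elv (a : Ex) (p : ℕ) : ℕ → Ex
  | 0 => a
  | n + 1 => .mul a (.w p (n + 1))

theorem elv_val (ρ : ℕ → ℝ) (e : ℕ → ℕ) (a : Ex) (p n : ℕ) : (elv a p n).val ρ e = a.val ρ e := by
  cases n with
  | zero => rfl
  | succ n =>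
    show a.val ρ e * 1 = a.val ρ e
    rw [mul_one]

def el4 (a : Ex) (n0 n1 n2 n3 : ℕ) : Ex := elv (elv (elv (elv a 0 n0) 1 n1) 2 n2) 3 n3

theorem el4_val (ρ : ℕ → ℝ) (e : ℕ → ℕ) (a : Ex) (n0 n1 n2 n3 : ℕ) :
    (el4 a n0 n1 n2 n3).val ρ e = a.val ρ e := by
  unfold el4
  rw [elv_val, elv_val, elv_val, elv_val]

/-- the zero expression -/
def Ex.isz : Ex → Bool
  | .c n => Nat.beq n 0
  | _ => false

theorem isz_val {a : Ex} (h : a.isz = true) (ρ : ℕ → ℝ) (e : ℕ → ℕ) : a.val ρ e = 0 := by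
  cases a with
  | c n =>
    have : n = 0 := Nat.eq_of_beq_eq_true h
    subst this
    simp [Ex.val]
  | _ => simp [Ex.isz] at h

/-- sum with automatic elevation -/
def hadd (a b : Ex) : Ex :=
  match a.isz with
  | true => b
  | false =>
    match b.isz with
    | true => a
    | false => .add
      (el4 a (b.dg 0 - a.dg 0) (b.dg 1 - a.dg 1) (b.dg 2 - a.dg 2) (b.dg 3 - a.dg 3))
      (el4 b (a.dg 0 - b.dg 0) (a.dg 1 - b.dg 1) (a.dg 2 - b.dg 2) (a.dg 3 - b.dg 3))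

def hsub (a b : Ex) : Ex :=
  match b.isz with
  | true => a
  | false =>
    match a.isz with
    | true => .sub (el4 (.c 0) (b.dg 0) (b.dg 1) (b.dg 2) (b.dg 3)) b
    | false => .sub
      (el4 a (b.dg 0 - a.dg 0) (b.dg 1 - a.dg 1) (b.dg 2 - a.dg 2) (b.dg 3 - a.dg 3))
      (el4 b (a.dg 0 - b.dg 0) (a.dg 1 - b.dg 1) (a.dg 2 - b.dg 2) (a.dg 3 - b.dg 3))

/-- product, zero preserving -/
def hmul (a b : Ex) : Ex :=
  match a.isz with
  | true => .c 0
  | false =>
    match b.isz with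
    | true => .c 0
    | false => .mul a b

theorem hadd_val (ρ : ℕ → ℝ) (e : ℕ → ℕ) (a b : Ex) :
    (hadd a b).val ρ e = a.val ρ e + b.val ρ e := by
  unfold hadd
  split
  · rename_i h
    rw [isz_val h, zero_add]
  · split
    · rename_i h
      rw [isz_val h, add_zero]
    · rw [v_add, el4_val, el4_val]

theorem hsub_val (ρ : ℕ → ℝ) (e : ℕ → ℕ) (a b : Ex) :
    (hsub a b).val ρ e = a.val ρ e - b.val ρ e := by
  unfold hsub
  split
  · rename_i h
    rw [isz_val h, sub_zero]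
  · split
    · rename_i h
      rw [v_sub, el4_val, isz_val h]
      simp [Ex.val]
    · rw [v_sub, el4_val, el4_val]

theorem hmul_val (ρ : ℕ → ℝ) (e : ℕ → ℕ) (a b : Ex) :
    (hmul a b).val ρ e = a.val ρ e * b.val ρ e := by
  unfold hmul
  split
  · rename_i h
    rw [isz_val h, zero_mul]
    simp [Ex.val]
  · split
    · rename_i h
      rw [isz_val h, mul_zero]
      simp [Ex.val]
    · rfl

/-! ### nonnegative expressions -/

def Ex.pos : Ex → Bool
  | .c _ => true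
  | .v _ => true
  | .q _ => true
  | .w _ _ => true
  | .u _ _ => true
  | .r _ _ _ _ => true
  | .s _ _ _ _ => false
  | .add a b => a.pos && b.pos
  | .sub _ _ => false
  | .mul a b => a.pos && b.pos

theorem hv_nonneg {x : ℝ} (h0 : 0 ≤ x) (h1 : x ≤ 1) : ∀ l : List ℤ, (∀ a ∈ l, 0 ≤ a) → 0 ≤ hv x l
  | [], _ => le_rfl
  | a :: l, h => by
    have h2 := hv_nonneg h0 h1 l fun b hb => h b (by simp [hb])
    have h3 : (0 : ℝ) ≤ (a : ℝ) := by exact_mod_cast h a (by simp)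
    exact add_nonneg (mul_nonneg h3 (pow_nonneg (by linarith) _)) (mul_nonneg h0 h2)

theorem cz_nonneg : ∀ l : List ℕ, ∀ a ∈ cz l, 0 ≤ a
  | [], a, h => by simp [cz] at h
  | b :: l, a, h => by
    simp only [cz, List.mem_cons] at h
    rcases h with rfl | h
    · exact Int.natCast_nonneg _
    · exact cz_nonneg l a h

theorem rl_nonneg {e : ℕ → ℤ} (he : ∀ i, 0 ≤ e i) (t n : ℕ) : ∀ i, ∀ a ∈ rl e i t n, 0 ≤ a := by
  induction n with
  | zero => intro i a h; simp [rl] at h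
  | succ n ih =>
    intro i a h
    simp only [rl, List.mem_cons] at h
    rcases h with rfl | h
    · exact he i
    · exact ih (i + t) a h

theorem pos_val {a : Ex} (h : a.pos = true) {ρ : ℕ → ℝ} (h0 : ∀ p, 0 ≤ ρ p) (h1 : ∀ p, ρ p ≤ 1)
    (e : ℕ → ℕ) : 0 ≤ a.val ρ e := by
  induction a with
  | c n => exact Nat.cast_nonneg n
  | v p => exact h0 p
  | q p =>
    show 0 ≤ 1 - ρ p
    linarith [h1 p]
  | w p n => exact zero_le_one
  | u p l => exact hv_nonneg (h0 p) (h1 p) _ (cz_nonneg l)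
  | r p i t n => exact hv_nonneg (h0 p) (h1 p) _ (rl_nonneg (fun _ => Int.natCast_nonneg _) t n i)
  | s p i t n => simp [Ex.pos] at h
  | add a b iha ihb =>
    simp only [Ex.pos, Bool.and_eq_true] at h
    exact add_nonneg (iha h.1) (ihb h.2)
  | sub a b iha ihb => simp [Ex.pos] at h
  | mul a b iha ihb =>
    simp only [Ex.pos, Bool.and_eq_true] at h
    exact mul_nonneg (iha h.1) (ihb h.2)

/-! ### expressions with a binary scale -/

/-- the number `E / 2 ^ k` -/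
structure Re where
  E : Ex
  k : ℕ

noncomputable def Re.val (a : Re) (ρ : ℕ → ℝ) (e : ℕ → ℕ) : ℝ := a.E.val ρ e / 2 ^ a.k

/-- the expression at the scale `n ≥ k` -/
def Re.al (a : Re) (n : ℕ) : Ex :=
  match n - a.k with
  | 0 => a.E
  | m + 1 => hmul (.c (2 ^ (m + 1))) a.E

theorem al_val (a : Re) {n : ℕ} (h : a.k ≤ n) (ρ : ℕ → ℝ) (e : ℕ → ℕ) :
    (a.al n).val ρ e / 2 ^ n = a.val ρ e := by
  unfold Re.al Re.val
  split
  · rename_i h2
    have : n = a.k := by omega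
    rw [this]
  · rename_i m h2
    have h3 : a.k + (m + 1) = n := by omega
    have h4 : (2 : ℝ) ^ n = 2 ^ a.k * 2 ^ (m + 1) := by rw [← pow_add, h3]
    rw [hmul_val, h4]
    simp only [Ex.val]
    push_cast
    field_simp

def Re.add (a b : Re) : Re :=
  match a.E.isz with
  | true => b
  | false =>
    match b.E.isz with
    | true => a
    | false => ⟨hadd (a.al (max a.k b.k)) (b.al (max a.k b.k)), max a.k b.k⟩

def Re.sub (a b : Re) : Re :=
  match b.E.isz with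
  | true => a
  | false => ⟨hsub (a.al (max a.k b.k)) (b.al (max a.k b.k)), max a.k b.k⟩

def Re.mul (a b : Re) : Re := ⟨hmul a.E b.E, a.k + b.k⟩

instance : Add Re := ⟨Re.add⟩
instance : Sub Re := ⟨Re.sub⟩
instance : Mul Re := ⟨Re.mul⟩

theorem isz_rval {a : Re} (h : a.E.isz = true) (ρ : ℕ → ℝ) (e : ℕ → ℕ) : a.val ρ e = 0 := by
  unfold Re.val
  rw [isz_val h, zero_div]

theorem re_add (a b : Re) (ρ : ℕ → ℝ) (e : ℕ → ℕ) : (a + b).val ρ e = a.val ρ e + b.val ρ e := by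
  show (Re.add a b).val ρ e = _
  unfold Re.add
  split
  · rename_i h
    rw [isz_rval h, zero_add]
  · split
    · rename_i h
      rw [isz_rval h, add_zero]
    · show (hadd (a.al (max a.k b.k)) (b.al (max a.k b.k))).val ρ e / 2 ^ (max a.k b.k) = _
      rw [hadd_val, add_div, al_val a (le_max_left _ _), al_val b (le_max_right _ _)]

theorem re_sub (a b : Re) (ρ : ℕ → ℝ) (e : ℕ → ℕ) : (a - b).val ρ e = a.val ρ e - b.val ρ e := by
  show (Re.sub a b).val ρ e = _
  unfold Re.sub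
  split
  · rename_i h
    rw [isz_rval h, sub_zero]
  · show (hsub (a.al (max a.k b.k)) (b.al (max a.k b.k))).val ρ e / 2 ^ (max a.k b.k) = _
    rw [hsub_val, sub_div, al_val a (le_max_left _ _), al_val b (le_max_right _ _)]

theorem re_mul (a b : Re) (ρ : ℕ → ℝ) (e : ℕ → ℕ) : (a * b).val ρ e = a.val ρ e * b.val ρ e := by
  show (Re.mul a b).val ρ e = _
  unfold Re.mul Re.val
  rw [hmul_val, pow_add]
  field_simp

/-! ### linear forms in features -/

/-- components of a linear form -/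
abbrev Vx : Type := List Re

def vadd : Vx → Vx → Vx
  | [], l => l
  | a :: l, [] => a :: l
  | a :: l, b :: m => (a + b) :: vadd l m

def vsub : Vx → Vx → Vx
  | a, [] => a
  | [], b :: m => (⟨.c 0, 0⟩ - b) :: vsub [] m
  | a :: l, b :: m => (a - b) :: vsub l m

def vsm (c : Re) : Vx → Vx
  | [] => []
  | a :: l => c * a :: vsm c l

/-- value of a linear form with the features `φ` -/
noncomputable def vval (ρ : ℕ → ℝ) (e : ℕ → ℕ) : (ℕ → ℝ) → Vx → ℝ
  | _, [] => 0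
  | φ, a :: l => a.val ρ e * φ 0 + vval ρ e (fun i => φ (i + 1)) l

theorem re_zero (ρ : ℕ → ℝ) (e : ℕ → ℕ) (k : ℕ) : Re.val ⟨.c 0, k⟩ ρ e = 0 := by
  simp [Re.val, Ex.val]

theorem vval_add (ρ : ℕ → ℝ) (e : ℕ → ℕ) : ∀ (v w : Vx) (φ : ℕ → ℝ),
    vval ρ e φ (vadd v w) = vval ρ e φ v + vval ρ e φ w
  | [], w, φ => by simp [vadd, vval]
  | a :: l, [], φ => by simp [vadd, vval]
  | a :: l, b :: m, φ => by
    simp only [vadd, vval, re_add, vval_add ρ e l m]
    ring

theorem vval_sub (ρ : ℕ → ℝ) (e : ℕ → ℕ) : ∀ (v w : Vx) (φ : ℕ → ℝ),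
    vval ρ e φ (vsub v w) = vval ρ e φ v - vval ρ e φ w
  | [], [], φ => by simp [vsub, vval]
  | a :: l, [], φ => by simp [vsub, vval]
  | [], b :: m, φ => by
    simp only [vsub, vval, re_sub, re_zero, vval_sub ρ e [] m]
    ring
  | a :: l, b :: m, φ => by
    simp only [vsub, vval, re_sub, vval_sub ρ e l m]
    ring

theorem vval_sm (ρ : ℕ → ℝ) (e : ℕ → ℕ) (c : Re) : ∀ (v : Vx) (φ : ℕ → ℝ),
    vval ρ e φ (vsm c v) = c.val ρ e * vval ρ e φ v
  | [], φ => by simp [vsm, vval]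
  | a :: l, φ => by
    simp only [vsm, vval, re_mul, vval_sm ρ e c l]
    ring

/-- facts with their multipliers -/
def fsum : List (Re × Vx) → Vx
  | [] => []
  | a :: l => vadd (vsm a.1 a.2) (fsum l)

/-- the multipliers are nonnegative -/
def fpos (fs : List (Re × Vx)) : Bool := fs.all fun a => a.1.E.pos

theorem fsum_nonneg {ρ : ℕ → ℝ} {e : ℕ → ℕ} {φ : ℕ → ℝ} (h0 : ∀ p, 0 ≤ ρ p) (h1 : ∀ p, ρ p ≤ 1) :
    ∀ fs : List (Re × Vx), fpos fs = true → (∀ a ∈ fs, 0 ≤ vval ρ e φ a.2) →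
      0 ≤ vval ρ e φ (fsum fs)
  | [], _, _ => le_rfl
  | a :: l, hp, hf => by
    simp only [fpos, List.all_cons, Bool.and_eq_true] at hp
    rw [fsum, vval_add, vval_sm]
    exact add_nonneg (mul_nonneg (div_nonneg (pos_val hp.1 h0 h1 e) (by positivity))
      (hf a (by simp))) (fsum_nonneg h0 h1 l hp.2 fun b hb => hf b (by simp [hb]))

/-- the remainder of the inequality `lhs ≤ rhs` with the facts -/
def cert (lhs rhs : Vx) (fs : List (Re × Vx)) : Vx := vsub (vsub rhs lhs) (fsum fs)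

/-- the type of an expression -/
def mkTy (E : Ex) : Ty := ⟨E, Nat.log2 E.ab + 1, E.dg 0 + 1, E.dg 1 + 1, E.dg 2 + 1, E.dg 3 + 1⟩

/-- the types of the components (zero components need no check) -/
def vty : Vx → List Ty
  | [] => []
  | a :: l =>
    match a.E.isz with
    | true => vty l
    | false => mkTy a.E :: vty l

theorem vval_nonneg {ρ : ℕ → ℝ} {e : ℕ → ℕ} : ∀ (v : Vx) (φ : ℕ → ℝ), (∀ i, 0 ≤ φ i) →
    (∀ T ∈ vty v, 0 ≤ T.E.val ρ e) → 0 ≤ vval ρ e φ v
  | [], _, _, _ => le_rfl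
  | a :: l, φ, hφ, h => by
    have key : (∀ T ∈ vty l, 0 ≤ T.E.val ρ e) ∧ 0 ≤ a.val ρ e := by
      rw [vty] at h
      split at h
      · rename_i hz
        exact ⟨h, (isz_rval hz ρ e).ge⟩
      · refine ⟨fun T hT => h T (by simp [hT]), ?_⟩
        exact div_nonneg (h (mkTy a.E) (by simp)) (by positivity)
    exact add_nonneg (mul_nonneg key.2 (hφ 0))
      (vval_nonneg l (fun i => φ (i + 1)) (fun i => hφ _) key.1)

/-- **a certified inequality** -/
theorem cert_le {lhs rhs : Vx} {fs : List (Re × Vx)} {ts : List Ty} {R m D j0 n : ℕ}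
    (hp : fpos fs = true) (hs : shps ts m = true)
    (h : steps ts R m D j0 n = true) (hsub : ∀ T ∈ vty (cert lhs rhs fs), T ∈ ts)
    {j : ℕ} (h0 : j0 ≤ j) (h1 : j < j0 + n) {ρ : ℕ → ℝ} (r0 : ∀ p, 0 ≤ ρ p) (r1 : ∀ p, ρ p ≤ 1)
    {φ : ℕ → ℝ} (φ0 : ∀ i, 0 ≤ φ i)
    (hf : ∀ a ∈ fs, 0 ≤ vval ρ (fun i => g D (R * j + i)) φ a.2) :
    vval ρ (fun i => g D (R * j + i)) φ lhs ≤ vval ρ (fun i => g D (R * j + i)) φ rhs := by
  have k1 := vval_nonneg (ρ := ρ) (e := fun i => g D (R * j + i)) (cert lhs rhs fs) φ φ0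
    fun T hT => steps_le hs h h0 h1 (hsub T hT) r0 r1
  have k2 := fsum_nonneg r0 r1 fs hp hf
  unfold cert at k1
  rw [vval_sub, vval_sub] at k1
  linarith

/-! ### leaves -/

/-- constant -/
def kc (n : ℕ) : Re := ⟨.c n, 0⟩
/-- dyadic constant `n / 2 ^ k` -/
def kd (n k : ℕ) : Re := ⟨.c n, k⟩
/-- the variable `ρ p` and `1 - ρ p` -/
def kv (p : ℕ) : Re := ⟨.v p, 0⟩
def kw (p : ℕ) : Re := ⟨.q p, 0⟩
/-- parameters at the scale `2 ^ 24`: constant in the step (unsigned, signed), linear in time (the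
pair 2; unsigned, signed) -/
def kr (i : ℕ) : Re := ⟨.r 0 i 1 1, 24⟩
def ks (i : ℕ) : Re := ⟨.s 0 i 1 1, 24⟩
def lr (R i : ℕ) : Re := ⟨.r 2 i R 2, 24⟩
def ls' (R i : ℕ) : Re := ⟨.s 2 i R 2, 24⟩
/-- polynomials in the pair `p` with unsigned coefficients linear in time -/
def plr (R p i n : ℕ) : Re :=
  ⟨.add (.mul (.q 2) (.r p i 1 n)) (.mul (.v 2) (.r p (R + i) 1 n)), 24⟩

section leaves

variable (ρ : ℕ → ℝ) (D R j : ℕ)

/-- values of the parameters -/
noncomputable def un (D R i j : ℕ) : ℝ := nv D R i j / 2 ^ 24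
noncomputable def sn (D R i j : ℕ) : ℝ := sv D R i j / 2 ^ 24

theorem un_nonneg (i : ℕ) : 0 ≤ un D R i j := div_nonneg (nv_nonneg _ _ _ _) (by positivity)

/-- linear in time -/
noncomputable def ul (c : ℝ) (D R i j : ℕ) : ℝ := (1 - c) * un D R i j + c * un D R i (j + 1)
noncomputable def sl (c : ℝ) (D R i j : ℕ) : ℝ := (1 - c) * sn D R i j + c * sn D R i (j + 1)

/-- polynomial in Bernstein form without binomials: `∑ a_i x ^ i (1 - x) ^ (d - i)` -/
noncomputable def bp (a : ℕ → ℝ) (x : ℝ) : ℕ → ℕ → ℝ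
  | _, 0 => 0
  | i, n + 1 => a i * (1 - x) ^ n + x * bp a x (i + 1) n

theorem hv_bp (e : ℕ → ℤ) (x : ℝ) (n : ℕ) : ∀ i, hv x (rl e i 1 n)
    = bp (fun i => ((e i : ℤ) : ℝ)) x i n := by
  induction n with
  | zero => intro i; rfl
  | succ n ih =>
    intro i
    simp only [rl, hv, bp, ih, rl_length]

theorem bp_smul (a : ℕ → ℝ) (c x : ℝ) (n : ℕ) : ∀ i, bp (fun i => a i / c) x i n
    = bp a x i n / c := by
  induction n with
  | zero => intro i; simp [bp]
  | succ n ih =>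
    intro i
    simp only [bp, ih]
    ring

theorem bp_add (a b : ℕ → ℝ) (c d x : ℝ) (n : ℕ) : ∀ i, bp (fun i => c * a i + d * b i) x i n
    = c * bp a x i n + d * bp b x i n := by
  induction n with
  | zero => intro i; simp [bp]
  | succ n ih =>
    intro i
    simp only [bp, ih]
    ring

theorem bp_shift (a : ℕ → ℝ) (x : ℝ) (s n : ℕ) : ∀ i, bp a x (s + i) n
    = bp (fun i => a (s + i)) x i n := by
  induction n with
  | zero => intro i; simp [bp]
  | succ n ih =>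
    intro i
    simp only [bp]
    rw [show s + i + 1 = s + (i + 1) by ring, ih]

theorem kc_val (e : ℕ → ℕ) (n : ℕ) : (kc n).val ρ e = n := by simp [kc, Re.val, Ex.val]

theorem kd_val (e : ℕ → ℕ) (n k : ℕ) : (kd n k).val ρ e = n / 2 ^ k := by
  simp [kd, Re.val, Ex.val]

theorem kv_val (e : ℕ → ℕ) (p : ℕ) : (kv p).val ρ e = ρ p := by
  simp [kv, Re.val, Ex.val]

theorem kw_val (e : ℕ → ℕ) (p : ℕ) : (kw p).val ρ e = 1 - ρ p := by
  simp [kw, Re.val, Ex.val]

theorem kr_val (i : ℕ) : (kr i).val ρ (fun k => g D (R * j + k)) = un D R i j := by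
  show (Ex.r 0 i 1 1).val ρ (fun k => g D (R * j + k)) / 2 ^ 24 = _
  rw [r_one]
  rfl

theorem ks_val (i : ℕ) : (ks i).val ρ (fun k => g D (R * j + k)) = sn D R i j := by
  show (Ex.s 0 i 1 1).val ρ (fun k => g D (R * j + k)) / 2 ^ 24 = _
  rw [s_one]
  rfl

theorem lr_val (i : ℕ) : (lr R i).val ρ (fun k => g D (R * j + k)) = ul (ρ 2) D R i j := by
  show (Ex.r 2 i R 2).val ρ (fun k => g D (R * j + k)) / 2 ^ 24 = _
  rw [r_lin]
  unfold ul un
  ring

theorem ls_val (i : ℕ) : (ls' R i).val ρ (fun k => g D (R * j + k)) = sl (ρ 2) D R i j := by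
  show (Ex.s 2 i R 2).val ρ (fun k => g D (R * j + k)) / 2 ^ 24 = _
  rw [s_lin]
  unfold sl sn
  ring

theorem plr_val (p i n : ℕ) : (plr R p i n).val ρ (fun k => g D (R * j + k))
    = bp (fun i => ul (ρ 2) D R i j) (ρ p) i n := by
  show ((1 - ρ 2) * hv (ρ p) (rl (ue fun k => g D (R * j + k)) i 1 n)
    + ρ 2 * hv (ρ p) (rl (ue fun k => g D (R * j + k)) (R + i) 1 n)) / 2 ^ 24 = _
  rw [hv_bp, hv_bp, bp_shift]
  have e1 : (fun i => ((ue (fun k => g D (R * j + k)) (R + i) : ℤ) : ℝ))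
      = fun i => nv D R i (j + 1) := by
    funext i
    have : R * j + (R + i) = R * (j + 1) + i := by ring
    simp only [ue, nv, this]
    push_cast
    rfl
  have e2 : (fun i => ((ue (fun k => g D (R * j + k)) i : ℤ) : ℝ)) = fun i => nv D R i j := by
    funext i
    simp only [ue, nv]
    push_cast
    rfl
  rw [e1, e2]
  have e3 : (fun i => ul (ρ 2) D R i j)
      = fun i => ((1 - ρ 2) * nv D R i j + ρ 2 * nv D R i (j + 1)) / 2 ^ 24 := by
    funext i
    unfold ul un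
    ring
  rw [e3, bp_smul, bp_add]

end leaves

end Pool.Agent.RZ.RCO.Sg
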