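import Pool.Agent.RZ.RCO.Gl1
import Pool.Agent.RZ.RCO.Sg4

/-! The facts of the points as vectors for the packed checker (MP_73ccd0_lc). -/

set_option autoImplicit false

namespace Pool.Agent.RZ.RCO

open Sg

/-- zero -/
def kz : Re := ⟨.c 0, 0⟩

theorem kz_val (ρ : ℕ → ℝ) (e : ℕ → ℕ) : kz.val ρ e = 0 := re_zero ρ e 0

/-- a set of features as linear forms: mass (polynomial), and the averages -/
structure Q5 where
  m : Re
  h : Vx
  g : Vx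
  q : Vx
  s : Vx
  e : Vx

/-- the facts of one set of features; the parameters are `t / 2 ^ n` -/
inductive Fa
  | h0 | g0 | q0 | s0 | e0
  | gh | sg | sq | hm | qm | em | sl | he
  | hk (t n : ℕ) | gt (t n : ℕ) | st (t n : ℕ) | hQ (t n : ℕ) | eQ (t n : ℕ) | eH (t n : ℕ)
  | et (t n : ℕ) | e2 (t n u v : ℕ)
  | xsh | xhm | xgh | xsq | xqm | xsl | xem

/-- the facts with general budgets `B` (for `2 - k`) and `C` (for `2 - H`) -/
structure Fcb (k B C m h g q s e : ℝ) : Prop where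
  m0 : 0 ≤ m
  h0 : 0 ≤ h
  g0 : 0 ≤ g
  q0 : 0 ≤ q
  s0 : 0 ≤ s
  e0 : 0 ≤ e
  gh : g ≤ h
  sg : s ≤ g
  sq : s ≤ q
  hm : h ≤ m - q
  qm : q ≤ m ^ 2
  em : e ≤ m - h
  hk : ∀ t : ℝ, h ≤ (1 - t) ^ 2 * m + t ^ 2 * B
  gt : ∀ t : ℝ, g ≤ (1 - 2 * t) * h + t ^ 2 * m
  st : ∀ t : ℝ, 2 * t * h - t ^ 2 * B ≤ s
  hQ : ∀ c : ℝ, 0 < c → h * (1 + 1 / (2 * c)) ≤ c * q / 2 + B / (2 * c)
  eQ : ∀ c : ℝ, 0 < c → e ≤ c / 2 * (q - s) + (2 - k) / (8 * c) + k ^ 2 * m / (2 * c)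
  eH : ∀ c : ℝ, 0 < c → e ≤ c * q / 2 + C / (2 * c)
  sl : q + g + h - m ≤ s
  he : h + e + (1 - k) * q ≤ m
  et : ∀ t : ℝ, e ≤ (1 - t) ^ 2 * (m - h) + t ^ 2 * (2 * m - h)
  e2 : ∀ c t : ℝ, 0 < c →
    e ≤ k * q + c / 2 * ((1 - 2 * t) * q + t ^ 2 * m - s) + (2 - k) / (8 * c)
  k0 : 0 ≤ k
  k1 : k ≤ 1
  hB : h ≤ B
  C0 : 0 ≤ C
  X : FctX k m h g q s e

/-- the vector of a fact; `K` the killed mass, `B`, `C` the budgets -/
def Fa.vec (K : Re) (B C : Vx) (a : Q5) : Fa → Vx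
  | .h0 => a.h
  | .g0 => a.g
  | .q0 => a.q
  | .s0 => a.s
  | .e0 => a.e
  | .gh => vsub a.h a.g
  | .sg => vsub a.g a.s
  | .sq => vsub a.q a.s
  | .hm => vsub (vsub [a.m] a.q) a.h
  | .qm => vsub [a.m * a.m] a.q
  | .em => vsub (vsub [a.m] a.h) a.e
  | .sl => vsub (vadd [a.m] a.s) (vadd a.q (vadd a.g a.h))
  | .he => vsub [a.m] (vadd (vadd a.h a.e) (vsm (kc 1 - K) a.q))
  | .hk t n => vsub (vadd [kd ((2 ^ n - t) ^ 2 + (t - 2 ^ n) ^ 2) (2 * n) * a.m]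
      (vsm (kd (t ^ 2) (2 * n)) B)) a.h
  | .gt t n => vsub (vadd (vsm (kd (2 ^ n - 2 * t) n) a.h) [kd (t ^ 2) (2 * n) * a.m])
      (vadd a.g (vsm (kd (2 * t - 2 ^ n) n) a.h))
  | .st t n => vsub (vadd a.s (vsm (kd (t ^ 2) (2 * n)) B)) (vsm (kd (2 * t) n) a.h)
  | .hQ t n => vsub (vadd (vsm (kd (t ^ 2) (2 * n)) a.q) B) (vsm (kd (2 * t + 2 ^ n) n) a.h)
  | .eQ t n => vsub (vadd (vsm (kd (4 * t ^ 2) (2 * n)) a.q) [(kc 2 - K) + kc 4 * (K * K * a.m)])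
      (vadd (vsm (kd (4 * t ^ 2) (2 * n)) a.s) (vsm (kd (8 * t) n) a.e))
  | .eH t n => vsub (vadd (vsm (kd (t ^ 2) (2 * n)) a.q) C) (vsm (kd (2 * t) n) a.e)
  | .et t n => vsub (vadd [kd ((2 ^ n - t) ^ 2 + (t - 2 ^ n) ^ 2 + 2 * t ^ 2) (2 * n) * a.m] [])
      (vadd a.e (vsm (kd ((2 ^ n - t) ^ 2 + (t - 2 ^ n) ^ 2 + t ^ 2) (2 * n)) a.h))
  | .e2 t n u v => vsub (vadd (vadd (vsm (kd (8 * t) n * K) a.q)
        (vsm (kd (4 * t ^ 2 * (2 ^ v - 2 * u)) (2 * n + v)) a.q))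
      [kd (4 * t ^ 2 * u ^ 2) (2 * n + 2 * v) * a.m + (kc 2 - K)])
      (vadd (vadd (vsm (kd (4 * t ^ 2 * (2 * u - 2 ^ v)) (2 * n + v)) a.q)
        (vsm (kd (4 * t ^ 2) (2 * n)) a.s)) (vsm (kd (8 * t) n) a.e))
  | .xsh => vsub a.h (vsm (kc RCG.xN) a.s)
  | .xhm => vsub [kc 2 * a.m] (vsm (kc RCG.xN) a.h)
  | .xgh => vsub (vsm (kc RCG.xN) a.g) (vsm (kc (RCG.xN - 2)) a.h)
  | .xsq => vsub (vsm (kc 2) a.q) (vsm (kc RCG.xN) a.s)
  | .xqm => vsub [a.m] (vsm (kc RCG.xN) a.q)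
  | .xsl => vsub (vadd (vsm (kc (RCG.xN ^ 2)) a.s) [kc 2 * a.m])
      (vadd (vsm (kc RCG.xN) a.h) (vsm (kc (2 * RCG.xN)) a.q))
  | .xem => vsub (vadd (vsm (kc RCG.xN * K) a.q) [kc 2 * a.m])
      (vadd (vsm (kc RCG.xN) a.e) (vsm (kc 2) (vadd a.h a.q)))

/-- the values of the features -/
structure Q5v (ρ : ℕ → ℝ) (e : ℕ → ℕ) (φ : ℕ → ℝ) (a : Q5) (m h g q s e' : ℝ) : Prop where
  m : a.m.val ρ e = m
  h : vval ρ e φ a.h = h
  g : vval ρ e φ a.g = g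
  q : vval ρ e φ a.q = q
  s : vval ρ e φ a.s = s
  e : vval ρ e φ a.e = e'

theorem vval_one {ρ : ℕ → ℝ} {e : ℕ → ℕ} {φ : ℕ → ℝ} (h1 : φ 0 = 1) (a : Re) :
    vval ρ e φ [a] = a.val ρ e := by
  simp [vval, h1]

theorem cast_dy (t n : ℕ) : ((2 ^ n - t : ℕ) : ℝ) - ((t - 2 ^ n : ℕ) : ℝ) = 2 ^ n - t := by
  rcases le_total t (2 ^ n) with h | h
  · rw [Nat.cast_sub h, Nat.sub_eq_zero_of_le h]
    push_cast
    ring
  · rw [Nat.cast_sub h, Nat.sub_eq_zero_of_le h]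
    push_cast
    ring

theorem cast_dy2 (t n : ℕ) : (((2 ^ n - t) ^ 2 + (t - 2 ^ n) ^ 2 : ℕ) : ℝ) = (2 ^ n - (t : ℝ)) ^ 2 := by
  rcases le_total t (2 ^ n) with h | h
  · rw [Nat.sub_eq_zero_of_le h]
    push_cast [Nat.cast_sub h]
    ring
  · rw [Nat.sub_eq_zero_of_le h]
    push_cast [Nat.cast_sub h]
    ring

theorem dy2 (t n : ℕ) : ((t : ℝ) / 2 ^ n) ^ 2 = (t : ℝ) ^ 2 / 2 ^ (2 * n) := by
  rw [pow_mul' (2 : ℝ) 2 n, div_pow]

theorem dy3 (t n : ℕ) : (1 - (t : ℝ) / 2 ^ n) ^ 2 = (2 ^ n - (t : ℝ)) ^ 2 / 2 ^ (2 * n) := by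
  rw [pow_mul' (2 : ℝ) 2 n]
  field_simp

/-- **the facts are true** -/
theorem Fa.true {ρ : ℕ → ℝ} {e : ℕ → ℕ} {φ : ℕ → ℝ} (h1 : φ 0 = 1) {K : Re} {Bv Cv : Vx} {a : Q5}
    {k B C m h g q s e' : ℝ} (hK : K.val ρ e = k) (hB : vval ρ e φ Bv = B)
    (hC : vval ρ e φ Cv = C) (hv : Q5v ρ e φ a m h g q s e') (hf : Fcb k B C m h g q s e')
    (f : Fa) : 0 ≤ vval ρ e φ (f.vec K Bv Cv a) := by
  have p2 : ∀ n : ℕ, (0 : ℝ) < 2 ^ n := fun n => by positivity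
  cases f with
  | h0 => exact hv.h ▸ hf.h0
  | g0 => exact hv.g ▸ hf.g0
  | q0 => exact hv.q ▸ hf.q0
  | s0 => exact hv.s ▸ hf.s0
  | e0 => exact hv.e ▸ hf.e0
  | gh =>
    simp only [Fa.vec, vval_sub, hv.h, hv.g]
    linarith [hf.gh]
  | sg =>
    simp only [Fa.vec, vval_sub, hv.s, hv.g]
    linarith [hf.sg]
  | sq =>
    simp only [Fa.vec, vval_sub, hv.s, hv.q]
    linarith [hf.sq]
  | hm =>
    simp only [Fa.vec, vval_sub, vval_one h1, hv.h, hv.q, hv.m]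
    linarith [hf.hm]
  | qm =>
    simp only [Fa.vec, vval_sub, vval_one h1, re_mul, hv.q, hv.m]
    nlinarith [hf.qm]
  | em =>
    simp only [Fa.vec, vval_sub, vval_one h1, hv.h, hv.e, hv.m]
    linarith [hf.em]
  | sl =>
    simp only [Fa.vec, vval_sub, vval_add, vval_one h1, hv.h, hv.g, hv.q, hv.s, hv.m]
    linarith [hf.sl]
  | he =>
    simp only [Fa.vec, vval_sub, vval_add, vval_sm, vval_one h1, re_sub, kc_val, hK, hv.h, hv.e,
      hv.q, hv.m]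
    push_cast
    linarith [hf.he]
  | hk t n =>
    simp only [Fa.vec, vval_sub, vval_add, vval_sm, vval_one h1, re_mul, kd_val, hv.h, hv.m,
      hB, cast_dy2]
    have h2 := hf.hk (t / 2 ^ n)
    rw [dy3, dy2] at h2
    push_cast
    linarith
  | gt t n =>
    simp only [Fa.vec, vval_sub, vval_add, vval_sm, vval_one h1, re_mul, kd_val, hv.h, hv.m, hv.g]
    have h2 := hf.gt (t / 2 ^ n)
    have h3 := cast_dy (2 * t) n
    have e1 : (1 - 2 * ((t : ℝ) / 2 ^ n)) * h = ((2 ^ n - 2 * t : ℕ) : ℝ) / 2 ^ n * h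
        - ((2 * t - 2 ^ n : ℕ) : ℝ) / 2 ^ n * h := by
      have : ((2 ^ n - 2 * t : ℕ) : ℝ) / 2 ^ n * h - ((2 * t - 2 ^ n : ℕ) : ℝ) / 2 ^ n * h
          = (((2 ^ n - 2 * t : ℕ) : ℝ) - ((2 * t - 2 ^ n : ℕ) : ℝ)) / 2 ^ n * h := by ring
      rw [this, h3]
      push_cast
      field_simp
    rw [e1, dy2] at h2
    push_cast
    linarith
  | st t n =>
    simp only [Fa.vec, vval_sub, vval_add, vval_sm, kd_val, hv.h, hv.s, hB]
    have h2 := hf.st (t / 2 ^ n)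
    have e1 : ((2 * t : ℕ) : ℝ) / 2 ^ n * h = 2 * ((t : ℝ) / 2 ^ n) * h := by
      push_cast
      ring
    rw [dy2] at h2
    rw [e1]
    push_cast
    linarith
  | hQ t n =>
    simp only [Fa.vec, vval_sub, vval_add, vval_sm, kd_val, hv.h, hv.q, hB]
    rcases Nat.eq_zero_or_pos t with ht | ht
    · subst ht
      have h2 := hf.hB
      have e1 : ((2 * 0 + 2 ^ n : ℕ) : ℝ) / 2 ^ n = 1 := by
        push_cast
        rw [zero_add, div_self (p2 n).ne']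
      rw [e1]
      push_cast
      simp only [zero_div, zero_mul]
      linarith
    · have c0 : (0 : ℝ) < t / 2 ^ n := div_pos (by exact_mod_cast ht) (p2 n)
      have h2 := hf.hQ _ c0
      set c : ℝ := (t : ℝ) / 2 ^ n with hc
      have e1 : ((2 * t + 2 ^ n : ℕ) : ℝ) / 2 ^ n = 2 * c + 1 := by
        rw [hc]
        push_cast
        field_simp
      have e2 : ((t ^ 2 : ℕ) : ℝ) / 2 ^ (2 * n) = c ^ 2 := by
        rw [hc, dy2]
        push_cast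
        rfl
      rw [e1, e2]
      have h3 := mul_le_mul_of_nonneg_left h2 (by linarith : 0 ≤ 2 * c)
      have e3 : 2 * c * (h * (1 + 1 / (2 * c))) = (2 * c + 1) * h := by
        field_simp
      have e4 : 2 * c * (c * q / 2 + B / (2 * c)) = c ^ 2 * q + B := by
        field_simp
      rw [e3, e4] at h3
      linarith
  | eQ t n =>
    simp only [Fa.vec, vval_sub, vval_add, vval_sm, vval_one h1, re_add, re_mul, re_sub, kd_val,
      kc_val, hv.q, hv.s, hv.e, hv.m, hK]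
    rcases Nat.eq_zero_or_pos t with ht | ht
    · subst ht
      have h2 := mul_nonneg (mul_nonneg hf.k0 hf.k0) hf.m0
      have h3 := hf.k1
      push_cast
      simp only [zero_div, zero_mul]
      linarith
    · have c0 : (0 : ℝ) < t / 2 ^ n := div_pos (by exact_mod_cast ht) (p2 n)
      have h2 := hf.eQ _ c0
      set c : ℝ := (t : ℝ) / 2 ^ n with hc
      have e1 : ((8 * t : ℕ) : ℝ) / 2 ^ n = 8 * c := by
        rw [hc]
        push_cast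
        ring
      have e2 : ((4 * t ^ 2 : ℕ) : ℝ) / 2 ^ (2 * n) = 4 * c ^ 2 := by
        rw [hc, dy2]
        push_cast
        ring
      rw [e1, e2]
      have h3 := mul_le_mul_of_nonneg_left h2 (by linarith : 0 ≤ 8 * c)
      have e4 : 8 * c * (c / 2 * (q - s) + (2 - k) / (8 * c) + k ^ 2 * m / (2 * c))
          = 4 * c ^ 2 * (q - s) + (2 - k) + 4 * (k ^ 2 * m) := by
        field_simp
        ring
      rw [e4] at h3
      push_cast
      nlinarith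
  | eH t n =>
    simp only [Fa.vec, vval_sub, vval_add, vval_sm, kd_val, hv.q, hv.e, hC]
    rcases Nat.eq_zero_or_pos t with ht | ht
    · subst ht
      have h2 := hf.C0
      push_cast
      simp only [zero_div, zero_mul]
      linarith
    · have c0 : (0 : ℝ) < t / 2 ^ n := div_pos (by exact_mod_cast ht) (p2 n)
      have h2 := hf.eH _ c0
      set c : ℝ := (t : ℝ) / 2 ^ n with hc
      have e1 : ((2 * t : ℕ) : ℝ) / 2 ^ n = 2 * c := by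
        rw [hc]
        push_cast
        ring
      have e2 : ((t ^ 2 : ℕ) : ℝ) / 2 ^ (2 * n) = c ^ 2 := by
        rw [hc, dy2]
        push_cast
        rfl
      rw [e1, e2]
      have h3 := mul_le_mul_of_nonneg_left h2 (by linarith : 0 ≤ 2 * c)
      have e4 : 2 * c * (c * q / 2 + C / (2 * c)) = c ^ 2 * q + C := by
        field_simp
      rw [e4] at h3
      linarith
  | et t n =>
    simp only [Fa.vec, vval_sub, vval_add, vval_sm, vval_one h1, re_mul, kd_val, hv.h, hv.e, hv.m]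
    have h2 := hf.et (t / 2 ^ n)
    have h3 := cast_dy2 t n
    push_cast at h3
    rw [dy3, dy2] at h2
    push_cast
    simp only [h3, vval, add_zero]
    have e1 : ((2 ^ n - (t : ℝ)) ^ 2 + 2 * (t : ℝ) ^ 2) / 2 ^ (2 * n) * m
        - (e' + ((2 ^ n - (t : ℝ)) ^ 2 + (t : ℝ) ^ 2) / 2 ^ (2 * n) * h)
        = (2 ^ n - (t : ℝ)) ^ 2 / 2 ^ (2 * n) * (m - h)
          + (t : ℝ) ^ 2 / 2 ^ (2 * n) * (2 * m - h) - e' := by ring
    rw [e1]
    linarith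
  | e2 t n u v =>
    simp only [Fa.vec, vval_sub, vval_add, vval_sm, vval_one h1, re_add, re_mul, re_sub, kd_val,
      kc_val, hv.q, hv.s, hv.e, hv.m, hK]
    rcases Nat.eq_zero_or_pos t with ht | ht
    · subst ht
      have h3 := hf.k1
      push_cast
      simp only [zero_div, zero_mul]
      linarith
    · have c0 : (0 : ℝ) < t / 2 ^ n := div_pos (by exact_mod_cast ht) (p2 n)
      have h2 := hf.e2 _ (u / 2 ^ v) c0
      set c : ℝ := (t : ℝ) / 2 ^ n with hc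
      have h3 := mul_le_mul_of_nonneg_left h2 (by linarith : 0 ≤ 8 * c)
      have e4 : 8 * c * (k * q + c / 2 * ((1 - 2 * ((u : ℝ) / 2 ^ v)) * q
          + ((u : ℝ) / 2 ^ v) ^ 2 * m - s) + (2 - k) / (8 * c))
          = 8 * c * k * q + 4 * c ^ 2 * ((1 - 2 * ((u : ℝ) / 2 ^ v)) * q)
            + 4 * c ^ 2 * ((u : ℝ) / 2 ^ v) ^ 2 * m - 4 * c ^ 2 * s + (2 - k) := by
        field_simp
        ring
      rw [e4] at h3
      have e1 : ((8 * t : ℕ) : ℝ) / 2 ^ n = 8 * c := by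
        rw [hc]
        push_cast
        ring
      have e2 : ((4 * t ^ 2 : ℕ) : ℝ) / 2 ^ (2 * n) = 4 * c ^ 2 := by
        rw [hc, dy2]
        push_cast
        ring
      have e5 : ((4 * t ^ 2 * u ^ 2 : ℕ) : ℝ) / 2 ^ (2 * n + 2 * v)
          = 4 * c ^ 2 * ((u : ℝ) / 2 ^ v) ^ 2 := by
        rw [hc, dy2, dy2, pow_add]
        push_cast
        field_simp
      have e6 : ((4 * t ^ 2 * (2 ^ v - 2 * u) : ℕ) : ℝ) / 2 ^ (2 * n + v) * q
          - ((4 * t ^ 2 * (2 * u - 2 ^ v) : ℕ) : ℝ) / 2 ^ (2 * n + v) * q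
          = 4 * c ^ 2 * ((1 - 2 * ((u : ℝ) / 2 ^ v)) * q) := by
        have h5 := cast_dy (2 * u) v
        have e7 : ((4 * t ^ 2 * (2 ^ v - 2 * u) : ℕ) : ℝ) / 2 ^ (2 * n + v) * q
          - ((4 * t ^ 2 * (2 * u - 2 ^ v) : ℕ) : ℝ) / 2 ^ (2 * n + v) * q
          = 4 * (t : ℝ) ^ 2 * (((2 ^ v - 2 * u : ℕ) : ℝ) - ((2 * u - 2 ^ v : ℕ) : ℝ))
            / 2 ^ (2 * n + v) * q := by
          push_cast
          ring
        rw [e7, h5, hc, dy2, pow_add]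
        push_cast
        field_simp
      rw [e1, e2, e5]
      push_cast at e6 ⊢
      nlinarith [e6, h3]
  | xsh =>
    simp only [Fa.vec, vval_sub, vval_sm, kc_val, hv.s, hv.h]
    have h2 := mul_le_mul_of_nonneg_left hf.X.sh RCG.xN_pos.le
    rw [← mul_assoc, RCG.xN_mul, one_mul] at h2
    linarith
  | xhm =>
    simp only [Fa.vec, vval_sub, vval_sm, vval_one h1, re_mul, kc_val, hv.m, hv.h]
    have h2 := mul_le_mul_of_nonneg_left hf.X.hm RCG.xN_pos.le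
    have h3 := RCG.xN_mul
    have h4 : (RCG.xN : ℝ) * (2 * RCG.XM * m) = 2 * ((RCG.xN : ℝ) * RCG.XM) * m := by ring
    rw [h4, h3] at h2
    push_cast
    linarith
  | xgh =>
    simp only [Fa.vec, vval_sub, vval_sm, kc_val, hv.g, hv.h]
    have h2 := mul_le_mul_of_nonneg_left hf.X.gh RCG.xN_pos.le
    have h3 := RCG.xN_mul
    have h4 : (RCG.xN : ℝ) * ((1 - 2 * RCG.XM) * h)
        = ((RCG.xN : ℝ) - 2 * ((RCG.xN : ℝ) * RCG.XM)) * h := by ring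
    rw [h4, h3] at h2
    rw [Nat.cast_sub RCG.two_le_xN]
    push_cast
    linarith
  | xsq =>
    simp only [Fa.vec, vval_sub, vval_sm, kc_val, hv.q, hv.s]
    have h2 := mul_le_mul_of_nonneg_left hf.X.sq RCG.xN_pos.le
    have h3 := RCG.xN_mul
    have h4 : (RCG.xN : ℝ) * (2 * RCG.XM * q) = 2 * ((RCG.xN : ℝ) * RCG.XM) * q := by ring
    rw [h4, h3] at h2
    push_cast
    linarith
  | xqm =>
    simp only [Fa.vec, vval_sub, vval_sm, vval_one h1, kc_val, hv.q, hv.m]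
    have h2 := mul_le_mul_of_nonneg_left hf.X.qm RCG.xN_pos.le
    have h3 := RCG.xN_mul
    have h4 : (RCG.xN : ℝ) * (RCG.XM * m) = (RCG.xN : ℝ) * RCG.XM * m := by ring
    rw [h4, h3] at h2
    linarith
  | xsl =>
    simp only [Fa.vec, vval_sub, vval_add, vval_sm, vval_one h1, re_mul, kc_val, hv.q, hv.m, hv.h,
      hv.s]
    have h2 := mul_le_mul_of_nonneg_left hf.X.sl (mul_nonneg RCG.xN_pos.le RCG.xN_pos.le)
    have h3 := RCG.xN_mul
    have h4 : (RCG.xN : ℝ) * (RCG.xN : ℝ) * (RCG.XM * h + 2 * RCG.XM * q - 2 * RCG.XM ^ 2 * m)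
        = (RCG.xN : ℝ) * ((RCG.xN : ℝ) * RCG.XM) * h + 2 * (RCG.xN : ℝ) * ((RCG.xN : ℝ) * RCG.XM) * q
          - 2 * ((RCG.xN : ℝ) * RCG.XM) ^ 2 * m := by ring
    rw [h4, h3] at h2
    push_cast
    linarith
  | xem =>
    simp only [Fa.vec, vval_sub, vval_add, vval_sm, vval_one h1, re_mul, kc_val, hv.q, hv.m, hv.h,
      hv.e, hK]
    have h2 := mul_le_mul_of_nonneg_left hf.X.em RCG.xN_pos.le
    have h3 := RCG.xN_mul
    have h4 : (RCG.xN : ℝ) * (k * q + 2 * RCG.XM * (m - h - q))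
        = (RCG.xN : ℝ) * k * q + 2 * ((RCG.xN : ℝ) * RCG.XM) * (m - h - q) := by ring
    rw [h4, h3] at h2
    push_cast
    linarith

/-- the usual budgets -/
theorem Fct.fcb {k H m h g q s e : ℝ} (hf : Fct k H m h g q s e) (k0 : 0 ≤ k) (H1 : H ≤ 1)
    (hX : FctX k m h g q s e) : Fcb k (2 - k) (2 - H) m h g q s e := by
  have k1 : k ≤ 1 := by linarith [hf.km, hf.m0]
  have h1 : h ≤ 1 := by linarith [hf.hm, hf.q0, hf.km]
  exact ⟨hf.m0, hf.h0, hf.g0, hf.q0, hf.s0, hf.e0, hf.gh, hf.sg, hf.sq, hf.hm, hf.qm, hf.em, hf.hk,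
    hf.gt, hf.st, hf.hQ, hf.eQ, hf.eH, hf.sl, hf.he, hf.et, hf.e2, k0, k1, by linarith,
    by linarith, hX⟩

/-- the smaller budgets of a neighbour -/
theorem Pt.Sat.fcb {p : Pt} {x a b : ℝ} (h : p.Sat x a b) :
    Fcb p.k (2 - p.k - a) (2 - p.H - b) p.m p.h p.g p.q p.s p.e := by
  have hf := h.f
  have k1 : p.k ≤ 1 := by linarith [hf.km, hf.m0]
  have h2 : p.h ≤ 1 - p.k := by linarith [hf.hm, hf.q0, hf.km]
  have a1 : a ≤ 1 := by linarith [h.ab, h.b0]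
  have b1 : b ≤ 1 := by linarith [h.ab, h.a0]
  have H1 : p.H ≤ 1 := by linarith [h.F.hm, h.F.q0, h.F.km, h.k0]
  exact ⟨hf.m0, hf.h0, hf.g0, hf.q0, hf.s0, hf.e0, hf.gh, hf.sg, hf.sq, hf.hm, hf.qm, hf.em, h.hkx,
    hf.gt, h.stx, h.hQx, hf.eQ, h.eHx, hf.sl, hf.he, hf.et, hf.e2, h.k0, k1, by linarith,
    by linarith, h.fX⟩

end Pool.Agent.RZ.RCO
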