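import Pool.Agent.RZ.RCO.Gk7

/-! The symbolic data of the target sums with the weight one and its lines (MP_73ccd0_lc). -/

set_option autoImplicit false

namespace Pool.Agent.RZ.RCO

open Sg Set Sp12

/-! ### lines of any sheet -/

namespace Sheet.At

variable {S : Sheet} {D R j : ℕ} {c : ℝ}

theorem lE (hS : S.At D R j) (c0 : 0 ≤ c) (c1 : c ≤ 1) {a : LnE} (ha : a ∈ S.e) {f g : ZE → ℝ}
    (hf : UB (rE c) fE' (rwd D R j) f a.lhs) (hg : LB (rE c) fE' (rwd D R j) g a.rhs) (z : ZE) :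
    f z ≤ g z := (hf z).trans ((hS.e a ha c c0 c1 z).trans (hg z))
theorem lF (hS : S.At D R j) (c0 : 0 ≤ c) (c1 : c ≤ 1) {a : LnF} (ha : a ∈ S.f) {f g : ZFu → ℝ}
    (hf : UB (rF c) fF' (rwd D R j) f a.lhs) (hg : LB (rF c) fF' (rwd D R j) g a.rhs) (z : ZFu) :
    f z ≤ g z := (hf z).trans ((hS.f a ha c c0 c1 z).trans (hg z))
/-- a scalar line, time only -/
theorem lS (hS : S.At D R j) (c0 : 0 ≤ c) (c1 : c ≤ 1) {a : Re × Re} (ha : a ∈ S.s) :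
    a.1.val (rho3 0 0 c) (rwd D R j) ≤ a.2.val (rho3 0 0 c) (rwd D R j) :=
  hS.s a ha _ (rho3_nonneg le_rfl le_rfl c0) (rho3_le kS_pos.le zero_le_one c1)

/-- **an edge line**, kernel `RR`; at a pendant vertex the weight is zero -/
theorem el (hS : S.At D R j) (c0 : 0 ≤ c) (c1 : c ≤ 1) {l : LnE} {C : EcR} {e : ℕ → ℕ}
    (he : e = rwd D R j) {RR : List Re} {Rp : ℝ} (ml : l ∈ S.e)
    (hC : C.okT = true) (hl : l.rhs = evV C eX eK eF.h) {G Gp : Pt → ℝ}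
    (h1 : EB (rE c) fE' e (fun z => z.x * hT RR c e z.x * G z.p) l.lhs) :
    ELn (hT RR c e) Rp G Gp (C.tv c e) := by
  subst he
  have hC' := hC
  unfold EcR.okT at hC'
  simp only [Bool.and_eq_true] at hC'
  refine ⟨tv_nonneg hC'.1.2 c0 c1 _, tv_nonneg hC'.2 c0 c1 _, fun p x a b hp => ?_,
    fun p x a b hp => ?_⟩
  · exact hS.lE c0 c1 ml h1.ub (by rw [hl]; exact (vE hC).lb) ⟨p, x, a, b, hp⟩
  · rw [hp.k, hp.H, hp.xz]
    refine le_of_eq ?_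
    unfold ev
    ring

end Sheet.At

/-- the kernel of a real edge -/
def kEL (RR : List Re) : Re := eX * hor eX RR

theorem kEL_v {RR : List Re} (h : allL isT RR = true) {c : ℝ} {e : ℕ → ℕ} :
    RE (rE c) e (fun z => z.x * hT RR c e z.x) (kEL RR) := RE.x.mul (xE h)

/-! ### the record -/

/-- **the symbolic data of the targets with the weight one** -/
structure SpT where
  /-- number of the weights, of the variants -/
  N : ℕ
  J : ℕ
  RR : List Re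
  Rp : Re
  W : Re
  Wp : List Re
  Dk : Re
  wv : ℕ → Wf
  /-- the bounds of the rows -/
  B : Bool → ℕ → ℕ → Re
  CB : Bool → ℕ → Re
  /-- the used functions -/
  Pn : ℕ → Re
  Pe : ℕ → Re
  Pd : ℕ → Re
  Cn : Re
  Ce : Re
  Cd : Re
  /-- slopes and used values of the variants -/
  sl : Bool → ℕ → ℕ → Re
  us : Bool → ℕ → ℕ → Re
  slp : Bool → ℕ → Re
  usp : Bool → ℕ → Re
  Gn : ℕ → ℕ → Re
  Gd : ℕ → ℕ → Re
  cD : EcR
  cn : EcR
  ce : EcR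
  bn : EcR
  bd : EcR
  dn : Re
  de : Re
  /-- the kernels of the first target, the factors -/
  RD : List Re
  RDp : Re
  RF : List Re
  REp : Re
  κD : Re
  κE : Re
  c1 : Re
  c4 : Re
  vD : EcR
  vE : EcR
  CD : Re
  CE : Re
  /-- the end values -/
  nu : ℕ → Re
  du : ℕ → Re
  Cnu : Re
  Cdu : Re
  /-- convex combinations: kind (0 `n`, 1 `e`, 2 `d`), variant -/
  lam : ℕ → ℕ → Re
  fe : ℕ → ℕ → List (Re × FE)
  fp : ℕ → ℕ → List (Re × FP)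
  ff : ℕ → ℕ → List (Re × Fa)
  fo : ℕ → ℕ → List (Re × FO)

/-- sums of forms with multipliers: the coefficient `i` -/
def cmb (lam : ℕ → Re) (F : ℕ → ℕ → Re) (n : ℕ) (i : ℕ) : Re := rfs (fun m => lam m * F m i) n

namespace SpT

variable (sp : SpT)

def okJ (l : ℕ) : Bool :=
  all13 isK (sp.sl true l) && all13 isK (sp.sl false l) && all13 isK (sp.us true l)
    && all13 isK (sp.us false l) && isZ (sp.slp true l) && isZ (sp.slp false l)
    && isZ (sp.usp true l) && isZ (sp.usp false l)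
    && allL (fun m => isT (sp.Gn l m) && isT (sp.Gd l m) && isP (sp.Gn l m) && isP (sp.Gd l m))
      (List.range sp.N)
    && allL (fun k => isT (sp.lam k l) && isP (sp.lam k l)) (List.range 3)

def okN (m : ℕ) : Bool :=
  all13 isK (sp.B true m) && all13 isK (sp.B false m) && isZ (sp.CB true m)
    && isZ (sp.CB false m)

def okF : Bool :=
  all13 isK sp.Pn && all13 isK sp.Pe && all13 isK sp.Pd && all13 isK sp.nu && all13 isK sp.du

def okC : Bool :=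
  isZ sp.Cn && isZ sp.Ce && isZ sp.Cd && isZ sp.dn && isZ sp.de && isZ sp.CD && isZ sp.CE
    && isZ sp.Cnu && isZ sp.Cdu

def okK : Bool :=
  isT sp.κD && isP sp.κD && isT sp.κE && isP sp.κE && isT sp.c1 && isP sp.c1 && isT sp.c4
    && isP sp.c4

def okR : Bool :=
  allL isT sp.RR && allL isP sp.RR && isZ sp.Rp && isK sp.W && allL isT sp.Wp
    && allL isP sp.Wp && isK sp.Dk && allL isT sp.RD && isZ sp.RDp && allL isT sp.RF && isZ sp.REp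

def okE : Bool :=
  sp.cD.okT && sp.cn.okT && sp.ce.okT && sp.bn.okT && sp.bd.okT && sp.vD.okT && sp.vE.okT

def ok : Bool :=
  sp.okR && sp.okE && sp.okF && sp.okC && sp.okK && allL sp.okN (List.range sp.N)
    && allL sp.okJ (List.range sp.J)

/-! ### the lines -/

def wF (l : ℕ) : Vx := (sp.wv l).vec (sp.wv l).kR eK fF

def k : Re := kEL sp.RR

/-- removal sum of a form -/
def eR (F : ℕ → Re) (C : EcR) (f : List (Re × FE)) : LnE :=
  ⟨vsm sp.k (vsm sp.W (fmV F eK eQ eF)), evV C eX eK eF.h, f⟩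
/-- half form -/
def eH (F : ℕ → Re) (C : EcR) (f : List (Re × FE)) : LnE :=
  ⟨vsm sp.k (vsm sp.W (vsm hf (vadd (fmV F eK eQ eF) (fmV F eK eF eF)))), evV C eX eK eF.h, f⟩

def eD : LnE := ⟨vsm sp.k [sp.W], evV sp.cD eX eK eF.h, sp.fe 0 0⟩
def eKr (RR : List Re) (C : EcR) (f : List (Re × FE)) : LnE :=
  ⟨vsm (kEL RR) [kc 1], evV C eX eK eF.h, f⟩

/-- the sum over the positions -/
def gs (s : Bool) (l : ℕ) : Vx := vfs (fun m => vadd (vsm (sp.Gn l m) (fmV (sp.B s m) eK eQ eF))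
  (vsm (sp.Gd l m) (fmV (sp.B (!s) m) eK eQ eF))) sp.N

def vP (l : ℕ) : LnE := ⟨vadd (vsm sp.W (svE sp.cn)) (sp.gs false l),
  fmV (sp.sl true l) eK eQ eF, sp.fe 7 l⟩
def vQ (l : ℕ) : LnE := ⟨vadd (vsm sp.W (svE sp.ce)) (sp.gs true l),
  fmV (sp.sl false l) eK eQ eF, sp.fe 8 l⟩
/-- the slopes are nonnegative -/
def gP (l : ℕ) : LnE := ⟨[], fmV (sp.sl true l) eK eQ eF, sp.fe 12 l⟩
def gM (l : ℕ) : LnE := ⟨[], fmV (sp.sl false l) eK eQ eF, sp.fe 13 l⟩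

def sn : LnE := ⟨vadd (fmV sp.nu eK eQ eF) (fmV (cmb (sp.lam 0) (sp.us false) sp.J) eK eQ eF),
  fmV sp.Pn eK eQ eF, sp.fe 9 0⟩
def se : LnE := ⟨vadd (vadd (svE sp.vE) (vsm sp.κE (fmV sp.du eK eQ eF)))
  (vsm sp.c1 (fmV (cmb (sp.lam 1) (sp.us true) sp.J) eK eQ eF)), fmV sp.Pe eK eQ eF, sp.fe 10 0⟩
def sd : LnE := ⟨vadd (vadd (svE sp.vD) (vsm sp.κD (fmV sp.du eK eQ eF)))
  (vsm sp.c4 (fmV (cmb (sp.lam 2) (sp.us true) sp.J) eK eQ eF)), fmV sp.Pd eK eQ eF, sp.fe 11 0⟩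

def fD : LnF := ⟨svF sp.cD, [sp.Dk], sp.ff 0 0⟩
def fn0 : LnF := ⟨[], fmV sp.Pn eK fF fF, sp.ff 1 0⟩
def fd0 : LnF := ⟨[], fmV sp.Pd eK fF fF, sp.ff 2 0⟩
def fN (l : ℕ) : LnF := ⟨vsm sp.W (vadd (vsm sp.Dk (fmV sp.Pn eK fF fF)) (svF sp.bn)),
  vfs (fun m => vsm (sp.Gn l m) (sp.wF m)) sp.N, sp.ff 3 l⟩
def fd (l : ℕ) : LnF := ⟨vsm sp.W (vadd (vsm sp.Dk (fmV sp.Pd eK fF fF)) (svF sp.bd)),
  vfs (fun m => vsm (sp.Gd l m) (sp.wF m)) sp.N, sp.ff 4 l⟩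

/-- **all lines** -/
def sheet : Sheet where
  e := [sp.eD, sp.eR sp.Pn sp.cn (sp.fe 1 0), sp.eR sp.Pe sp.ce (sp.fe 2 0),
    sp.eH sp.Pn sp.bn (sp.fe 3 0), sp.eH sp.Pd sp.bd (sp.fe 4 0), eKr sp.RD sp.vD (sp.fe 5 0),
    eKr sp.RF sp.vE (sp.fe 6 0), sp.sn, sp.se, sp.sd] ++
    (List.range sp.J).flatMap fun l => [sp.vP l, sp.vQ l, sp.gP l, sp.gM l]
  p := []
  f := [sp.fD, sp.fn0, sp.fd0] ++ (List.range sp.J).flatMap fun l => [sp.fN l, sp.fd l]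
  o := []
  s := [(kc 1, sp.W),
      (kc 1, rfs (sp.lam 0) sp.J), (rfs (sp.lam 0) sp.J, kc 1),
      (kc 1, rfs (sp.lam 1) sp.J), (rfs (sp.lam 1) sp.J, kc 1),
      (kc 1, rfs (sp.lam 2) sp.J), (rfs (sp.lam 2) sp.J, kc 1)]

end SpT

end Pool.Agent.RZ.RCO
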