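import Pool.Agent.RZ.RCO.Gk10
import Pool.Agent.RZ.RCO.GsL

/-! The lines of the target sums with the weight one from the checks of the sheet
(MP_73ccd0_lc). -/

set_option autoImplicit false

namespace Pool.Agent.RZ.RCO

open Sg Set Sp12

theorem rfs_fin (f : ℕ → Re) (ρ : ℕ → ℝ) (e : ℕ → ℕ) (n : ℕ) :
    (rfs f n).val ρ e = ∑ i : Fin n, (f i).val ρ e := by
  rw [rfs_val, Finset.sum_range]

theorem Sat_Sa {p : Pt} {x a b : ℝ} (h : p.Sat x a b) : Sa p := ⟨x, a, b, h⟩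

/-- a combination of forms -/
theorem cmbE {lam : ℕ → Re} {F : ℕ → ℕ → Re} {n : ℕ} {c : ℝ} {e : ℕ → ℕ}
    (hl : ∀ m < n, isT (lam m) = true) (hF : ∀ m < n, all13 isK (F m) = true) :
    EB (rE c) fE' e (fun z => ∑ m : Fin n, (lam m).tv c e * Sp12.cf (F m) c e z.p)
      (fmV (cmb lam F n) eK eQ eF) := fun z => by
  have h1 : ∀ i < 13, (cmb lam F n i).val (rE c z) e
      = ∑ m : Fin n, (lam m).tv c e * (F m i).kv c e z.p.k := fun i hi => by
    unfold cmb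
    rw [rfs_fin]
    refine Finset.sum_congr rfl fun m _ => ?_
    rw [re_mul, tv_val (hl m m.2) rfl e, kv_val' (all13_of (hF m m.2) hi) rfl rfl e]
    rfl
  rw [frmV_cut (f := fun i => ∑ m : Fin n, (lam m).tv c e * (F m i).kv c e z.p.k) rfl h1 (RE.k z)
    (eQ_v z) (eF_v z)]
  unfold Sp12.cf
  simp only [frm, mul_add, Finset.sum_add_distrib, Finset.sum_mul, Finset.mul_sum, mul_assoc]

namespace SpT

/-- the format of a variant -/
structure OkJ (sp : SpT) (l : ℕ) : Prop where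
  sl : ∀ s, all13 isK (sp.sl s l) = true
  us : ∀ s, all13 isK (sp.us s l) = true
  slp : ∀ s, isZ (sp.slp s l) = true
  usp : ∀ s, isZ (sp.usp s l) = true
  G : ∀ m < sp.N, isT (sp.Gn l m) = true ∧ isT (sp.Gd l m) = true ∧ isP (sp.Gn l m) = true
    ∧ isP (sp.Gd l m) = true
  L : ∀ k < 3, isT (sp.lam k l) = true ∧ isP (sp.lam k l) = true

structure OkM (sp : SpT) (m : ℕ) : Prop where
  B : ∀ s, all13 isK (sp.B s m) = true
  CB : ∀ s, isZ (sp.CB s m) = true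

/-- the format -/
structure Ok' (sp : SpT) : Prop where
  RR : allL isT sp.RR = true
  RRp : allL isP sp.RR = true
  Rp : isZ sp.Rp = true
  W : isK sp.W = true
  Wp : allL isT sp.Wp = true
  Wpp : allL isP sp.Wp = true
  Dk : isK sp.Dk = true
  RD : allL isT sp.RD = true
  RDp : isZ sp.RDp = true
  RF : allL isT sp.RF = true
  REp : isZ sp.REp = true
  cD : sp.cD.okT = true
  cn : sp.cn.okT = true
  ce : sp.ce.okT = true
  bn : sp.bn.okT = true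
  bd : sp.bd.okT = true
  vD : sp.vD.okT = true
  vE : sp.vE.okT = true
  Pn : all13 isK sp.Pn = true
  Pe : all13 isK sp.Pe = true
  Pd : all13 isK sp.Pd = true
  nu : all13 isK sp.nu = true
  du : all13 isK sp.du = true
  Cn : isZ sp.Cn = true
  Ce : isZ sp.Ce = true
  Cd : isZ sp.Cd = true
  dn : isZ sp.dn = true
  de : isZ sp.de = true
  CD : isZ sp.CD = true
  CE : isZ sp.CE = true
  Cnu : isZ sp.Cnu = true
  Cdu : isZ sp.Cdu = true
  κD : isT sp.κD = true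
  κDp : isP sp.κD = true
  κE : isT sp.κE = true
  κEp : isP sp.κE = true
  c1 : isT sp.c1 = true
  c1p : isP sp.c1 = true
  c4 : isT sp.c4 = true
  c4p : isP sp.c4 = true
  m : ∀ l < sp.N, OkM sp l
  j : ∀ l < sp.J, OkJ sp l

variable {sp : SpT} {D R j : ℕ} {c : ℝ}

theorem okJ_of {l : ℕ} (h : sp.okJ l = true) : OkJ sp l := by
  unfold okJ at h
  simp only [Bool.and_eq_true] at h
  obtain ⟨⟨⟨⟨⟨⟨⟨⟨⟨a1, a2⟩, a3⟩, a4⟩, a5⟩, a6⟩, a7⟩, a8⟩, g⟩, k⟩ := h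
  refine ⟨fun s => ?_, fun s => ?_, fun s => ?_, fun s => ?_, fun m hm => ?_, fun m hm => ?_⟩
  · cases s <;> assumption
  · cases s <;> assumption
  · cases s <;> assumption
  · cases s <;> assumption
  · have := allL_of g m (List.mem_range.2 hm)
    simp only [Bool.and_eq_true] at this
    exact ⟨this.1.1.1, this.1.1.2, this.1.2, this.2⟩
  · have := allL_of k m (List.mem_range.2 hm)
    simp only [Bool.and_eq_true] at this
    exact this

theorem okM_of {l : ℕ} (h : sp.okN l = true) : OkM sp l := by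
  unfold okN at h
  simp only [Bool.and_eq_true] at h
  obtain ⟨⟨⟨a1, a2⟩, a3⟩, a4⟩ := h
  refine ⟨fun s => ?_, fun s => ?_⟩
  · cases s <;> assumption
  · cases s <;> assumption

theorem ok_of (h : sp.ok = true) : Ok' sp := by
  unfold ok okR okE okF okC okK at h
  simp only [Bool.and_eq_true] at h
  obtain ⟨⟨⟨⟨⟨⟨⟨⟨⟨⟨⟨⟨⟨⟨⟨⟨r1, r2⟩, r3⟩, r5⟩, r6⟩, r7⟩, r8⟩, r9⟩, r10⟩, r11⟩, r12⟩, ⟨⟨⟨⟨⟨⟨e1,
    e2⟩, e3⟩, e4⟩, e5⟩, e6⟩, e7⟩⟩, ⟨⟨⟨⟨f1, f2⟩, f3⟩, f4⟩, f5⟩⟩, ⟨⟨⟨⟨⟨⟨⟨⟨c1, c2⟩, c3⟩, c4⟩,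
    c5⟩, c6⟩, c7⟩, c8⟩, c9⟩⟩, ⟨⟨⟨⟨⟨⟨⟨k1, k2⟩, k3⟩, k4⟩, k5⟩, k6⟩, k7⟩, k8⟩⟩, hn⟩,
    hj⟩ := h
  exact ⟨r1, r2, r3, r5, r6, r7, r8, r9, r10, r11, r12, e1, e2, e3, e4, e5, e6, e7, f1, f2,
    f3, f4, f5, c1, c2, c3, c4, c5, c6, c7, c8, c9, k1, k2, k3, k4, k5, k6, k7, k8,
    fun l hl => okM_of (allL_of hn l (List.mem_range.2 hl)),
    fun l hl => okJ_of (allL_of hj l (List.mem_range.2 hl))⟩

section mem

variable {l : ℕ}

theorem mE (hl : l < sp.J) {a : LnE} (h : a ∈ [sp.vP l, sp.vQ l, sp.gP l, sp.gM l]) :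
    a ∈ sp.sheet.e := List.mem_append_right _ (List.mem_flatMap.2 ⟨l, List.mem_range.2 hl, h⟩)
theorem mF (hl : l < sp.J) {a : LnF} (h : a ∈ [sp.fN l, sp.fd l]) : a ∈ sp.sheet.f :=
  List.mem_append_right _ (List.mem_flatMap.2 ⟨l, List.mem_range.2 hl, h⟩)

end mem

/-- the factor of a vertex -/
noncomputable def fW (sp : SpT) (c : ℝ) (e : ℕ → ℕ) (p : Pt) : ℝ := sp.W.kv c e p.k

/-- **the lines of the target sums** -/
theorem lt1 (ho : Ok' sp) (hS : sp.sheet.At D R j) (c0 : 0 ≤ c) (c1 : c ≤ 1) {e : ℕ → ℕ}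
    (he : e = rwd D R j) {B : Bool → Fin sp.N → Pt → ℝ} {CB : Bool → Fin sp.N → ℝ}
    (hB : ∀ s m p, Sa p → B s m p ≤ Sp12.cf (sp.B s m) c e p)
    (hCB : ∀ s m, CB s m ≤ (sp.CB s m).tv c e) :
    LT1 (J := Fin sp.J) (Λ := Fin sp.N) (hT sp.RR c e) (sp.Rp.tv c e) (sp.fW c e) (hT sp.Wp c e)
      (fun m => (sp.wv m).fn) B CB (Sp12.cf sp.Pn c e) (Sp12.cf sp.Pe c e) (Sp12.cf sp.Pd c e) (sp.Cn.tv c e)
      (sp.Cd.tv c e) (fun s j p => -Sp12.cf (sp.sl s j) c e p) (fun s j => -(sp.slp s j).tv c e)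
      (fun j m => (sp.Gn j m).tv c e) (fun j m => (sp.Gd j m).tv c e)
      (fun k => sp.Dk.kv c e k) (sp.cD.tv c e) (sp.cn.tv c e) (sp.ce.tv c e) (sp.bn.tv c e)
      (sp.bd.tv c e) (sp.dn.tv c e) (sp.de.tv c e) := by
  have W1 : ∀ (p : Pt) (x a b : ℝ), p.Sat x a b → 1 ≤ sp.fW c e p.full := by
    intro p x a b hp
    subst he
    have h1 := hS.s (kc 1, sp.W) (by simp [sheet]) (rhoE p x c)
      (rhoE0 hp c0) (rhoE1 hp c1)
    rw [show (kc 1, sp.W).1.val (rhoE p x c) (rwd D R j) = 1 by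
      show (kc 1).val _ _ = 1
      rw [kc_val, Nat.cast_one]] at h1
    exact h1.trans (kv_val' ho.W rfl rfl _).le
  have W_v : RCO.RE (rE c) e (fun z => sp.fW c e z.p.full) sp.W := kE' ho.W
  have zR : sp.Rp.tv c e = 0 := isZ_val ho.Rp _ _
  have W_f : RCO.RE (rF c) e (fun z => sp.fW c e z.p.full) sp.W := kF' ho.W
  have pf : ∀ {p : Pt}, p = p.full → ∀ {f : ℕ → Re}, Sp12.cf f c e p.full = Sp12.cf f c e p := fun h _ => by
    rw [← h]
  constructor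
  case W1 => exact W1
  case Ψn0 =>
    intro p hp hf
    subst he
    have := hS.lF (a := sp.fn0) c0 c1 (List.mem_append_left _ (by simp)) EB.nil.ub
      (cF ho.Pn).lb ⟨p, hp.toLive⟩
    simp only [← hf] at this
    exact this
  case Ψd0 =>
    intro p hp hf
    subst he
    have := hS.lF (a := sp.fd0) c0 c1 (List.mem_append_left _ (by simp)) EB.nil.ub
      (cF ho.Pd).lb ⟨p, hp.toLive⟩
    simp only [← hf] at this
    exact this
  case eD =>
    refine hS.el c0 c1 he (l := sp.eD) (List.mem_append_left _ (by simp)) ho.cD rfl ?_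
    exact (kEL_v ho.RR).sm' (EB.oneE W_v)
  case en =>
    refine hS.el c0 c1 he (l := sp.eR sp.Pn sp.cn (sp.fe 1 0)) (List.mem_append_left _ (by simp))
      ho.cn rfl ?_
    exact (kEL_v ho.RR).sm' (W_v.sm' (cE ho.Pn))
  case ee =>
    refine hS.el c0 c1 he (l := sp.eR sp.Pe sp.ce (sp.fe 2 0)) (List.mem_append_left _ (by simp))
      ho.ce rfl ?_
    exact (kEL_v ho.RR).sm' (W_v.sm' (cE ho.Pe))
  case hn =>
    refine hS.el c0 c1 he (l := sp.eH sp.Pn sp.bn (sp.fe 3 0)) (List.mem_append_left _ (by simp))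
      ho.bn rfl ?_
    exact ((kEL_v ho.RR).sm' (W_v.sm' (half_v.sm' ((cE ho.Pn).add (cEF ho.Pn))))).congr
      fun z => by ring
  case hd =>
    refine hS.el c0 c1 he (l := sp.eH sp.Pd sp.bd (sp.fe 4 0)) (List.mem_append_left _ (by simp))
      ho.bd rfl ?_
    exact ((kEL_v ho.RR).sm' (W_v.sm' (half_v.sm' ((cE ho.Pd).add (cEF ho.Pd))))).congr
      fun z => by ring
  case D =>
    intro p hp hf
    subst he
    have := hS.lF (a := sp.fD) c0 c1 (List.mem_append_left _ (by simp)) (sF ho.cD).ub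
      (EB.oneF (kF' ho.Dk)).lb ⟨p, hp.toLive⟩
    rw [← hf] at this
    exact this
  case vP =>
    intro l p x a b hp
    subst he
    rw [neg_neg]
    have h1 := hS.lE (a := sp.vP l) c0 c1 (mE l.2 (by simp)) ((W_v.sm' (sE ho.cn)).add
        (EB.fsum fun m => ((tE ((ho.j l l.2).G m m.2).1).sm' (cE ((ho.m m m.2).B false))).add
          ((tE ((ho.j l l.2).G m m.2).2.1).sm' (cE ((ho.m m m.2).B true))))).ub
      (cE ((ho.j l l.2).sl true)).lb ⟨p, x, a, b, hp⟩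
    refine le_trans (add_le_add le_rfl (Finset.sum_le_sum fun m _ => ?_)) h1
    have hG := (ho.j l l.2).G m m.2
    exact add_le_add (mul_le_mul_of_nonneg_left (hB false m p (Sat_Sa hp))
      (tv_nonneg hG.2.2.1 c0 c1 _)) (mul_le_mul_of_nonneg_left (hB true m p (Sat_Sa hp))
      (tv_nonneg hG.2.2.2 c0 c1 _))
  case vQ =>
    intro l p x a b hp
    subst he
    rw [neg_neg]
    have h1 := hS.lE (a := sp.vQ l) c0 c1 (mE l.2 (by simp)) ((W_v.sm' (sE ho.ce)).add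
        (EB.fsum fun m => ((tE ((ho.j l l.2).G m m.2).1).sm' (cE ((ho.m m m.2).B true))).add
          ((tE ((ho.j l l.2).G m m.2).2.1).sm' (cE ((ho.m m m.2).B false))))).ub
      (cE ((ho.j l l.2).sl false)).lb ⟨p, x, a, b, hp⟩
    refine le_trans (add_le_add le_rfl (Finset.sum_le_sum fun m _ => ?_)) h1
    have hG := (ho.j l l.2).G m m.2
    exact add_le_add (mul_le_mul_of_nonneg_left (hB true m p (Sat_Sa hp))
      (tv_nonneg hG.2.2.1 c0 c1 _)) (mul_le_mul_of_nonneg_left (hB false m p (Sat_Sa hp))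
      (tv_nonneg hG.2.2.2 c0 c1 _))
  case pn =>
    intro l p hp hf
    subst he
    have := hS.lF (a := sp.fN l) c0 c1 (mF l.2 (by simp))
      (W_f.sm' (((kF' ho.Dk).sm' (cF ho.Pn)).add (sF ho.bn))).ub
      (EB.fsum fun m => (tF ((ho.j l l.2).G m m.2).1).sm' (wF_v _)).lb ⟨p, hp.toLive⟩
    simp only [← hf] at this
    refine le_trans (le_of_eq ?_) this
    ring
  case pd =>
    intro l p hp hf
    subst he
    have := hS.lF (a := sp.fd l) c0 c1 (mF l.2 (by simp))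
      (W_f.sm' (((kF' ho.Dk).sm' (cF ho.Pd)).add (sF ho.bd))).ub
      (EB.fsum fun m => (tF ((ho.j l l.2).G m m.2).2.1).sm' (wF_v _)).lb ⟨p, hp.toLive⟩
    simp only [← hf] at this
    refine le_trans (le_of_eq ?_) this
    ring
  case on =>
    intro p x hp
    rw [zR, zero_mul]
    exact (isZ_val ho.dn _ _).ge
  case oe =>
    intro p x hp
    rw [zR, zero_mul]
    exact (isZ_val ho.de _ _).ge
  case gP =>
    intro l
    have h1 : (sp.dn).tv c e = 0 := isZ_val ho.dn _ _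
    have h2 : (sp.slp true l).tv c e = 0 := isZ_val ((ho.j l l.2).slp true) _ _
    rw [h1, h2, neg_neg, zero_add]
    refine Finset.sum_nonpos fun m _ => ?_
    have hG := (ho.j l l.2).G m m.2
    exact add_nonpos (mul_nonpos_of_nonneg_of_nonpos (tv_nonneg hG.2.2.1 c0 c1 _) ((hCB false m).trans
      (isZ_val ((ho.m m m.2).CB false) _ _).le)) (mul_nonpos_of_nonneg_of_nonpos
      (tv_nonneg hG.2.2.2 c0 c1 _) ((hCB true m).trans (isZ_val ((ho.m m m.2).CB true) _ _).le))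
  case gQ =>
    intro l
    have h1 : (sp.de).tv c e = 0 := isZ_val ho.de _ _
    have h2 : (sp.slp false l).tv c e = 0 := isZ_val ((ho.j l l.2).slp false) _ _
    rw [h1, h2, neg_neg, zero_add]
    refine Finset.sum_nonpos fun m _ => ?_
    have hG := (ho.j l l.2).G m m.2
    exact add_nonpos (mul_nonpos_of_nonneg_of_nonpos (tv_nonneg hG.2.2.1 c0 c1 _) ((hCB true m).trans
      (isZ_val ((ho.m m m.2).CB true) _ _).le)) (mul_nonpos_of_nonneg_of_nonpos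
      (tv_nonneg hG.2.2.2 c0 c1 _) ((hCB false m).trans (isZ_val ((ho.m m m.2).CB false) _ _).le))
  case qn =>
    intro l p x hp
    rw [zR, mul_zero, zero_mul, zero_mul]
    exact Finset.sum_nonneg fun m _ => mul_nonneg (tv_nonneg ((ho.j l l.2).G m m.2).2.2.1 c0 c1 _)
      ((sp.wv m).fn_nonneg_pnd hp.x0 hp.toLive)
  case qd =>
    intro l p x hp
    rw [zR, mul_zero, zero_mul, zero_mul]
    exact Finset.sum_nonneg fun m _ => mul_nonneg (tv_nonneg ((ho.j l l.2).G m m.2).2.2.2 c0 c1 _)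
      ((sp.wv m).fn_nonneg_pnd hp.x0 hp.toLive)

/-- **the lines of the used functions** -/
structure Gr (sp : SpT) (c : ℝ) (e : ℕ → ℕ) : Prop where
  kD : ELn (hT sp.RD c e) (sp.RDp.tv c e) (fun _ => 1) (fun _ => 1) (sp.vD.tv c e)
  kE : ELn (hT sp.RF c e) (sp.REp.tv c e) (fun _ => 1) (fun _ => 1) (sp.vE.tv c e)
  oD : sp.RDp.tv c e ≤ sp.CD.tv c e
  oE : sp.REp.tv c e ≤ sp.CE.tv c e
  CD0 : 0 ≤ sp.CD.tv c e
  CE0 : 0 ≤ sp.CE.tv c e
  c10 : 0 ≤ sp.c1.tv c e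
  c40 : 0 ≤ sp.c4.tv c e
  κD0 : 0 ≤ sp.κD.tv c e
  κE0 : 0 ≤ sp.κE.tv c e
  l0 : ∀ k < 3, ∀ l : Fin sp.J, 0 ≤ (sp.lam k l).tv c e
  l1 : ∀ k < 3, ∑ l : Fin sp.J, (sp.lam k l).tv c e = 1
  sn : ∀ p, Sa p → Sp12.cf sp.nu c e p
    + ∑ l : Fin sp.J, (sp.lam 0 l).tv c e * Sp12.cf (sp.us false l) c e p ≤ Sp12.cf sp.Pn c e p
  se : ∀ p, Sa p → sv (sp.vE.tv c e) p + sp.κE.tv c e * Sp12.cf sp.du c e p + sp.c1.tv c e
    * ∑ l : Fin sp.J, (sp.lam 1 l).tv c e * Sp12.cf (sp.us true l) c e p ≤ Sp12.cf sp.Pe c e p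
  sd : ∀ p, Sa p → sv (sp.vD.tv c e) p + sp.κD.tv c e * Sp12.cf sp.du c e p + sp.c4.tv c e
    * ∑ l : Fin sp.J, (sp.lam 2 l).tv c e * Sp12.cf (sp.us true l) c e p ≤ Sp12.cf sp.Pd c e p
  tn : sp.Cnu.tv c e + ∑ l : Fin sp.J, (sp.lam 0 l).tv c e * (sp.usp false l).tv c e
    ≤ sp.Cn.tv c e
  te : sp.CE.tv c e + sp.κE.tv c e * sp.Cdu.tv c e + sp.c1.tv c e
    * ∑ l : Fin sp.J, (sp.lam 1 l).tv c e * (sp.usp true l).tv c e ≤ sp.Ce.tv c e
  td : sp.CD.tv c e + sp.κD.tv c e * sp.Cdu.tv c e + sp.c4.tv c e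
    * ∑ l : Fin sp.J, (sp.lam 2 l).tv c e * (sp.usp true l).tv c e ≤ sp.Cd.tv c e
  Gn0 : ∀ (l : Fin sp.J) (m : Fin sp.N), 0 ≤ (sp.Gn l m).tv c e
  Gd0 : ∀ (l : Fin sp.J) (m : Fin sp.N), 0 ≤ (sp.Gd l m).tv c e
  sl0 : ∀ (s : Bool) (l : Fin sp.J) (p : Pt), Sa p → 0 ≤ Sp12.cf (sp.sl s l) c e p

theorem gr (ho : Ok' sp) (hS : sp.sheet.At D R j) (c0 : 0 ≤ c) (c1 : c ≤ 1) :
    Gr sp c (rwd D R j) := by
  have sum1 : ∀ {f : ℕ → Re}, (kc 1, rfs f sp.J) ∈ sp.sheet.s → (rfs f sp.J, kc 1) ∈ sp.sheet.s →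
      ∑ l : Fin sp.J, (f l).tv c (rwd D R j) = 1 := by
    intro f h1 h2
    have a1 := hS.lS c0 c1 h1
    have a2 := hS.lS c0 c1 h2
    simp only [kc_val, Nat.cast_one, rfs_fin] at a1 a2
    exact le_antisymm a2 a1
  constructor
  case kD =>
    refine hS.el c0 c1 rfl (l := eKr sp.RD sp.vD (sp.fe 5 0)) (List.mem_append_left _ (by simp))
      ho.vD rfl ?_
    exact (kEL_v ho.RD).sm' (EB.oneE RE.one)
  case kE =>
    refine hS.el c0 c1 rfl (l := eKr sp.RF sp.vE (sp.fe 6 0)) (List.mem_append_left _ (by simp))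
      ho.vE rfl ?_
    exact (kEL_v ho.RF).sm' (EB.oneE RE.one)
  case oD =>
    exact ((isZ_val ho.RDp (rho3 0 0 c) (rwd D R j)).trans (isZ_val ho.CD (rho3 0 0 c) (rwd D R j)).symm).le
  case oE =>
    exact ((isZ_val ho.REp (rho3 0 0 c) (rwd D R j)).trans (isZ_val ho.CE (rho3 0 0 c) (rwd D R j)).symm).le
  case CD0 => exact (isZ_val ho.CD (rho3 0 0 c) (rwd D R j)).ge
  case CE0 => exact (isZ_val ho.CE (rho3 0 0 c) (rwd D R j)).ge
  case c10 => exact tv_nonneg ho.c1p c0 c1 _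
  case c40 => exact tv_nonneg ho.c4p c0 c1 _
  case κD0 => exact tv_nonneg ho.κDp c0 c1 _
  case κE0 => exact tv_nonneg ho.κEp c0 c1 _
  case l0 => exact fun k hk l => tv_nonneg ((ho.j l l.2).L k hk).2 c0 c1 _
  case l1 =>
    intro k hk
    interval_cases k
    · exact sum1 (by simp [sheet]) (by simp [sheet])
    · exact sum1 (by simp [sheet]) (by simp [sheet])
    · exact sum1 (by simp [sheet]) (by simp [sheet])
  case sn =>
    rintro p ⟨x, a, b, hp⟩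
    exact hS.lE (a := sp.sn) c0 c1 (List.mem_append_left _ (by simp)) ((cE ho.nu).add
      (cmbE (fun m hm => ((ho.j m hm).L 0 (by norm_num)).1) fun m hm => (ho.j m hm).us false)).ub
      (cE ho.Pn).lb ⟨p, x, a, b, hp⟩
  case se =>
    rintro p ⟨x, a, b, hp⟩
    exact hS.lE (a := sp.se) c0 c1 (List.mem_append_left _ (by simp)) (((sE ho.vE).add
      ((tE ho.κE).sm' (cE ho.du))).add ((tE ho.c1).sm'
      (cmbE (fun m hm => ((ho.j m hm).L 1 (by norm_num)).1) fun m hm => (ho.j m hm).us true))).ub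
      (cE ho.Pe).lb ⟨p, x, a, b, hp⟩
  case sd =>
    rintro p ⟨x, a, b, hp⟩
    exact hS.lE (a := sp.sd) c0 c1 (List.mem_append_left _ (by simp)) (((sE ho.vD).add
      ((tE ho.κD).sm' (cE ho.du))).add ((tE ho.c4).sm'
      (cmbE (fun m hm => ((ho.j m hm).L 2 (by norm_num)).1) fun m hm => (ho.j m hm).us true))).ub
      (cE ho.Pd).lb ⟨p, x, a, b, hp⟩
  case tn =>
    have h1 : sp.Cnu.tv c (rwd D R j) = 0 := isZ_val ho.Cnu _ _
    have h2 : ∀ l : Fin sp.J, (sp.usp false l).tv c (rwd D R j) = 0 := fun l =>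
      isZ_val ((ho.j l l.2).usp false) _ _
    have h3 : sp.Cn.tv c (rwd D R j) = 0 := isZ_val ho.Cn _ _
    simp only [h1, h2, h3, mul_zero, Finset.sum_const_zero, add_zero, le_refl]
  case te =>
    have h1 : sp.CE.tv c (rwd D R j) = 0 := isZ_val ho.CE _ _
    have h4 : sp.Cdu.tv c (rwd D R j) = 0 := isZ_val ho.Cdu _ _
    have h2 : ∀ l : Fin sp.J, (sp.usp true l).tv c (rwd D R j) = 0 := fun l =>
      isZ_val ((ho.j l l.2).usp true) _ _
    have h3 : sp.Ce.tv c (rwd D R j) = 0 := isZ_val ho.Ce _ _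
    simp only [h1, h2, h3, h4, mul_zero, Finset.sum_const_zero, add_zero, le_refl]
  case td =>
    have h1 : sp.CD.tv c (rwd D R j) = 0 := isZ_val ho.CD _ _
    have h4 : sp.Cdu.tv c (rwd D R j) = 0 := isZ_val ho.Cdu _ _
    have h2 : ∀ l : Fin sp.J, (sp.usp true l).tv c (rwd D R j) = 0 := fun l =>
      isZ_val ((ho.j l l.2).usp true) _ _
    have h3 : sp.Cd.tv c (rwd D R j) = 0 := isZ_val ho.Cd _ _
    simp only [h1, h2, h3, h4, mul_zero, Finset.sum_const_zero, add_zero, le_refl]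
  case Gn0 => exact fun l m => tv_nonneg ((ho.j l l.2).G m m.2).2.2.1 c0 c1 _
  case Gd0 => exact fun l m => tv_nonneg ((ho.j l l.2).G m m.2).2.2.2 c0 c1 _
  case sl0 =>
    rintro s l p ⟨x, a, b, hp⟩
    cases s with
    | true =>
      exact hS.lE (a := sp.gP l) c0 c1 (mE l.2 (by simp)) EB.nil.ub
        (cE ((ho.j l l.2).sl true)).lb ⟨p, x, a, b, hp⟩
    | false =>
      exact hS.lE (a := sp.gM l) c0 c1 (mE l.2 (by simp)) EB.nil.ub
        (cE ((ho.j l l.2).sl false)).lb ⟨p, x, a, b, hp⟩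

end SpT

end Pool.Agent.RZ.RCO
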