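import Pool.Agent.RZ.RCO.Sg3

/-! Signed packed checker: compiled types, closed functions instead of trees (MP_73ccd0_lc). -/

set_option autoImplicit false

namespace Pool.Agent.RZ.RCO.Sg

open Finset

section

variable (A S X L P R : ℕ → ℕ → ℕ)

/-- entry `i` -/
noncomputable def gg (D i : ℕ) : ℕ := L (R D (Nat.mul (nat_lit 32) i)) (nat_lit 4294967295)

/-- Horner evaluation -/
noncomputable def hz (s : ℕ) (l : List ℕ) : ℕ :=
  @List.rec ℕ (fun _ => ℕ) (nat_lit 0) (fun a l ih => @List.rec ℕ (fun _ => ℕ) a (fun _ _ _ =>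
    A a (X s ih)) l) l

noncomputable def gls (D t n : ℕ) : ℕ → List ℕ :=
  @Nat.rec (fun _ => ℕ → List ℕ) (fun _ => []) (fun _ ih i => gg L R D i :: ih (Nat.add i t)) n

noncomputable def ones (n : ℕ) : List ℕ :=
  @Nat.rec (fun _ => List ℕ) [] (fun _ ih => (nat_lit 1) :: ih) n

/-- powers of the sum of the pair -/
noncomputable def wn (t n : ℕ) : ℕ :=
  @Nat.rec (fun _ => ℕ) (nat_lit 1) (fun m _ => @Nat.rec (fun _ => ℕ) t (fun _ _ => P t n) m) n

/-- signed lists -/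
noncomputable def sgl (M M1 m31 s D t i n : ℕ) : ℕ :=
  @Nat.rec (fun _ => ℕ) (nat_lit 0) (fun m _ => @Nat.rec (fun _ => ℕ) (A (gg L R D i) m31)
    (fun _ _ => A (hz A X s (gls L R D t n i)) (S M (L (X (nat_lit 2147483648)
      (hz A X s (ones n))) M1))) m) n

/-- evaluation with abstract operations -/
noncomputable def evc (M M1 m31 s0 s1 s2 s3 t0 t1 t2 t3 D : ℕ) (E : Ex) : ℕ :=
  @Ex.rec (fun _ => ℕ)
    (fun n => n)
    (fun p => pk s0 s1 s2 s3 p)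
    (fun _ => (nat_lit 1))
    (fun p n => wn P (pk t0 t1 t2 t3 p) n)
    (fun p l => hz A X (pk s0 s1 s2 s3 p) l)
    (fun p i t n => hz A X (pk s0 s1 s2 s3 p) (gls L R D t n i))
    (fun p i t n => sgl A S X L R M M1 m31 (pk s0 s1 s2 s3 p) D t i n)
    (fun _ _ x y => A x y)
    (fun _ _ x y => A x (S M (L y M1)))
    (fun _ _ x y => L (X x y) M1) E

end

/-- compiled functions -/
abbrev FT : Type := (ℕ → ℕ → ℕ) → (ℕ → ℕ → ℕ) → (ℕ → ℕ → ℕ) → (ℕ → ℕ → ℕ) → (ℕ → ℕ → ℕ) →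
  (ℕ → ℕ → ℕ) → ℕ → ℕ → ℕ → ℕ → ℕ → ℕ → ℕ → ℕ → ℕ → ℕ → ℕ → ℕ → ℕ

/-- a compiled type -/
structure Tc where
  F : FT
  β : ℕ
  D0 : ℕ
  D1 : ℕ
  D2 : ℕ
  D3 : ℕ

/-- the compilation -/
noncomputable def cmp (T : Ty) : Tc where
  F := fun A S X L P R M M1 m31 s0 s1 s2 s3 t0 t1 t2 t3 D =>
    evc A S X L P R M M1 m31 s0 s1 s2 s3 t0 t1 t2 t3 D T.E
  β := T.β
  D0 := T.D0
  D1 := T.D1
  D2 := T.D2
  D3 := T.D3

noncomputable def rowF (F : FT) (β D0 D1 D2 D3 D : ℕ) : Bool :=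
  frc (Nat.pow (nat_lit 2) (Nat.succ β)) fun W =>
  frc (Nat.pow W D0) fun s1 =>
  frc (Nat.pow s1 D1) fun s2 =>
  frc (Nat.pow s2 D2) fun s3 =>
  frc (Nat.pow s3 D3) fun M =>
  frc (Nat.pred M) fun M1 =>
  frc (Nat.sub M (Nat.land (nat_lit 2147483648) M1)) fun m31 =>
  frc (Nat.succ W) fun t0 =>
  frc (Nat.succ s1) fun t1 =>
  frc (Nat.succ s2) fun t2 =>
  frc (Nat.succ s3) fun t3 =>
  frc (Nat.mul (Nat.pow (nat_lit 2) β) (Nat.div M1 (Nat.pred W))) fun HR =>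
  Nat.beq (Nat.land (Nat.land (Nat.add (F Nat.add Nat.sub Nat.mul Nat.land Nat.pow Nat.shiftRight
    M M1 m31 W s1 s2 s3 t0 t1 t2 t3 D) HR) M1) HR) HR

noncomputable def allc (f : Tc → Bool) (l : List Tc) : Bool :=
  @List.rec Tc (fun _ => Bool) true (fun T _ ih => @Bool.rec (fun _ => Bool) false ih (f T)) l

/-- all rows `j0 ≤ j < j0 + n`, compiled -/
noncomputable def stepc (cs : List Tc) (R m D j0 n : ℕ) : Bool :=
  frc (Nat.pred (Nat.pow (nat_lit 2) (Nat.mul (nat_lit 32) m))) fun mask =>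
  allr (fun j => frc (Nat.land (Nat.shiftRight D (Nat.mul (nat_lit 32)
    (Nat.mul R (Nat.add j0 j)))) mask) fun d =>
    allc (fun T => rowF T.F T.β T.D0 T.D1 T.D2 T.D3 d) cs) n

/-! ### soundness -/

theorem hz_eq (s : ℕ) : ∀ l : List ℕ,
    ((hz Nat.add Nat.mul s l : ℕ) : ℤ) = gl (s : ℤ) (cz l)
  | [] => rfl
  | [a] => by
    show (a : ℤ) = _
    simp [cz, gl]
  | a :: b :: l => by
    have e : hz Nat.add Nat.mul s (a :: b :: l) = a + s * hz Nat.add Nat.mul s (b :: l) := rfl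
    have ih := hz_eq s (b :: l)
    rw [e]
    push_cast
    rw [ih]
    rfl

theorem gls_eq (D t n : ℕ) : ∀ i, cz (gls Nat.land Nat.shiftRight D t n i) = rl (ue (g D)) i t n := by
  induction n with
  | zero => intro i; rfl
  | succ n ih =>
    intro i
    have e : gls Nat.land Nat.shiftRight D t (n + 1) i
        = g D i :: gls Nat.land Nat.shiftRight D t n (i + t) := rfl
    rw [e]
    simp only [cz, rl, ih]
    rfl

theorem ones_eq (s n : ℕ) : hz Nat.add Nat.mul s (ones n) = ng s n := by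
  have key : ∀ n, ((hz Nat.add Nat.mul s (ones n) : ℕ) : ℤ) = ((ng s n : ℕ) : ℤ) := by
    intro n
    induction n with
    | zero => rfl
    | succ n ih =>
      rw [hz_eq] at ih ⊢
      have e1 : ones (n + 1) = 1 :: ones n := rfl
      have e2 : ng s (n + 1) = 1 + s * ng s n := rfl
      rw [e1, e2]
      simp only [cz, gl, ih]
      push_cast
      rfl
  exact_mod_cast key n

theorem wn_eq (t : ℕ) : ∀ n, wn Nat.pow t n = t ^ n
  | 0 => rfl
  | 1 => (pow_one t).symm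
  | _ + 2 => rfl

/-- evaluation with the operations of the kernel -/
noncomputable abbrev evN (M M1 m31 s0 s1 s2 s3 t0 t1 t2 t3 D : ℕ) (E : Ex) : ℕ :=
  evc Nat.add Nat.sub Nat.mul Nat.land Nat.pow Nat.shiftRight M M1 m31 s0 s1 s2 s3 t0 t1 t2 t3 D E

theorem evc_mod (K : ℕ) (s t : ℕ → ℕ) (ht : ∀ p, t p = s p + 1) (D : ℕ) (E : Ex) (h : E.Hg) :
    ((evN (2 ^ K) (2 ^ K - 1) (2 ^ K - Nat.land 2147483648 (2 ^ K - 1)) (s 0) (s 1) (s 2) (s 3)
      (t 0) (t 1) (t 2) (t 3) D E : ℕ) : ℤ)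
      ≡ E.gen (fun p => (s p : ℤ)) (g D) [ZMOD ((2 ^ K : ℕ) : ℤ)] := by
  have hM : 0 < 2 ^ K := by positivity
  set m31 := 2 ^ K - Nat.land 2147483648 (2 ^ K - 1) with hm
  have h31 : ((m31 : ℕ) : ℤ) ≡ - (2147483648 : ℤ) [ZMOD ((2 ^ K : ℕ) : ℤ)] := by
    rw [hm, land_eq]
    exact_mod_cast neg_mod (2 ^ K) 2147483648 hM
  induction E with
  | c n => exact Int.ModEq.refl _
  | v p =>
    have e1 : evN (2 ^ K) (2 ^ K - 1) m31 (s 0) (s 1) (s 2) (s 3) (t 0) (t 1) (t 2) (t 3) D (.v p)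
        = pk (s 0) (s 1) (s 2) (s 3) p := rfl
    rw [e1, pk_eq s h]
    exact Int.ModEq.refl _
  | q p => exact Int.ModEq.refl _
  | w p n =>
    have e1 : evN (2 ^ K) (2 ^ K - 1) m31 (s 0) (s 1) (s 2) (s 3) (t 0) (t 1) (t 2) (t 3) D (.w p n)
        = wn Nat.pow (pk (t 0) (t 1) (t 2) (t 3) p) n := rfl
    rw [e1, pk_eq t h, wn_eq, ht]
    have e2 : (((s p + 1) ^ n : ℕ) : ℤ) = (1 + (s p : ℤ)) ^ n := by
      push_cast
      ring
    rw [e2]
    exact Int.ModEq.refl _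
  | u p l =>
    have e1 : evN (2 ^ K) (2 ^ K - 1) m31 (s 0) (s 1) (s 2) (s 3) (t 0) (t 1) (t 2) (t 3) D (.u p l)
        = hz Nat.add Nat.mul (pk (s 0) (s 1) (s 2) (s 3) p) l := rfl
    rw [e1, pk_eq s h, hz_eq]
    exact Int.ModEq.refl _
  | r p i u n =>
    have e1 : evN (2 ^ K) (2 ^ K - 1) m31 (s 0) (s 1) (s 2) (s 3) (t 0) (t 1) (t 2) (t 3) D
        (.r p i u n) = hz Nat.add Nat.mul (pk (s 0) (s 1) (s 2) (s 3) p)
          (gls Nat.land Nat.shiftRight D u n i) := rfl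
    rw [e1, pk_eq s h, hz_eq, gls_eq]
    exact Int.ModEq.refl _
  | s p i u n =>
    match n with
    | 0 => exact Int.ModEq.refl _
    | 1 =>
      have e1 : evN (2 ^ K) (2 ^ K - 1) m31 (s 0) (s 1) (s 2) (s 3) (t 0) (t 1) (t 2) (t 3) D
          (.s p i u 1) = g D i + m31 := rfl
      have e2 : Ex.gen (fun p => (s p : ℤ)) (g D) (.s p i u 1)
          = ((g D i : ℕ) : ℤ) + - (2147483648 : ℤ) := by
        simp only [Ex.gen, rl, gl, se]
        push_cast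
        ring
      rw [e1, e2, Nat.cast_add]
      exact Int.ModEq.add (Int.ModEq.refl _) h31
    | n + 2 =>
      have e1 : evN (2 ^ K) (2 ^ K - 1) m31 (s 0) (s 1) (s 2) (s 3) (t 0) (t 1) (t 2) (t 3) D
          (.s p i u (n + 2)) = hz Nat.add Nat.mul (pk (s 0) (s 1) (s 2) (s 3) p)
          (gls Nat.land Nat.shiftRight D u (n + 2) i) + (2 ^ K - Nat.land (2147483648
            * hz Nat.add Nat.mul (pk (s 0) (s 1) (s 2) (s 3) p) (ones (n + 2))) (2 ^ K - 1)) := rfl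
      rw [e1, pk_eq s h, ones_eq, land_eq, Nat.cast_add, hz_eq, gls_eq]
      have e2 : Ex.gen (fun p => (s p : ℤ)) (g D) (.s p i u (n + 2))
          = gl (s p : ℤ) (rl (ue (g D)) i u (n + 2))
            + - ((2147483648 * ng (s p) (n + 2) : ℕ) : ℤ) := by
        simp only [Ex.gen, ng_eq]
        push_cast
        ring
      rw [e2]
      exact Int.ModEq.add (Int.ModEq.refl _) (neg_mod _ _ hM)
  | add a b iha ihb =>
    have e1 : evN (2 ^ K) (2 ^ K - 1) m31 (s 0) (s 1) (s 2) (s 3) (t 0) (t 1) (t 2) (t 3) D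
        (.add a b) = evN (2 ^ K) (2 ^ K - 1) m31 (s 0) (s 1) (s 2) (s 3) (t 0) (t 1) (t 2) (t 3) D a
          + evN (2 ^ K) (2 ^ K - 1) m31 (s 0) (s 1) (s 2) (s 3) (t 0) (t 1) (t 2) (t 3) D b := rfl
    rw [e1, Nat.cast_add]
    exact Int.ModEq.add (iha h.1) (ihb h.2.1)
  | sub a b iha ihb =>
    have e1 : evN (2 ^ K) (2 ^ K - 1) m31 (s 0) (s 1) (s 2) (s 3) (t 0) (t 1) (t 2) (t 3) D
        (.sub a b) = evN (2 ^ K) (2 ^ K - 1) m31 (s 0) (s 1) (s 2) (s 3) (t 0) (t 1) (t 2) (t 3) D a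
          + (2 ^ K - Nat.land (evN (2 ^ K) (2 ^ K - 1) m31 (s 0) (s 1) (s 2) (s 3) (t 0) (t 1)
            (t 2) (t 3) D b) (2 ^ K - 1)) := rfl
    rw [e1, Nat.cast_add, land_eq]
    have e2 : Ex.gen (fun p => (s p : ℤ)) (g D) (.sub a b)
        = Ex.gen (fun p => (s p : ℤ)) (g D) a + - Ex.gen (fun p => (s p : ℤ)) (g D) b := by
      simp only [Ex.gen]
      ring
    rw [e2]
    exact Int.ModEq.add (iha h.1) ((neg_mod _ _ hM).trans (Int.ModEq.neg (ihb h.2.1)))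
  | mul a b iha ihb =>
    have e1 : evN (2 ^ K) (2 ^ K - 1) m31 (s 0) (s 1) (s 2) (s 3) (t 0) (t 1) (t 2) (t 3) D
        (.mul a b) = Nat.land (evN (2 ^ K) (2 ^ K - 1) m31 (s 0) (s 1) (s 2) (s 3) (t 0) (t 1)
            (t 2) (t 3) D a * evN (2 ^ K) (2 ^ K - 1) m31 (s 0) (s 1) (s 2) (s 3) (t 0) (t 1)
            (t 2) (t 3) D b) (2 ^ K - 1) := rfl
    rw [e1, land_eq, Int.natCast_mod, Nat.cast_mul]
    exact (Int.mod_modEq _ _).trans (Int.ModEq.mul (iha h.1) (ihb h.2))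

/-- **the compiled row is the row** -/
theorem rowF_eq {T : Ty} (hE : T.E.Hg) (D : ℕ) :
    rowF (cmp T).F T.β T.D0 T.D1 T.D2 T.D3 D = row T.E T.β T.D0 T.D1 T.D2 T.D3 D := by
  obtain ⟨E, β, D0, D1, D2, D3⟩ := T
  simp only at hE
  unfold rowF row
  simp only [frc_eq]
  set W := 2 ^ (β + 1) with hW
  set L := D0 * D1 * D2 * D3 with hL
  set K := (β + 1) * L with hK
  have eM : W ^ L = 2 ^ K := by rw [hW, ← pow_mul]
  have e2 : ((W ^ D0) ^ D1) = sW W D0 D1 D2 2 := by rw [← pow_mul]; rfl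
  have e3 : (((W ^ D0) ^ D1) ^ D2) = sW W D0 D1 D2 3 := by
    rw [← pow_mul, ← pow_mul, ← Nat.mul_assoc]; rfl
  have e4 : ((((W ^ D0) ^ D1) ^ D2) ^ D3) = 2 ^ K := by
    rw [← pow_mul, ← pow_mul, ← pow_mul, ← eM, hL]
    congr 1
    ring
  have h4 : ∀ a b : ℕ, Nat.pow a b = a ^ b := fun _ _ => rfl
  have h5 : ∀ a : ℕ, Nat.pred a = a - 1 := fun _ => rfl
  have h6 : ∀ a b : ℕ, Nat.add a b = a + b := fun _ _ => rfl
  have h7 : ∀ a : ℕ, Nat.succ a = a + 1 := fun _ => rfl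
  simp only [h4, h5, h6, h7]
  rw [show (2 : ℕ) ^ (β + 1) = W from rfl, e4, e3, e2, show W ^ D0 = sW W D0 D1 D2 1 from rfl]
  have key : ((evN (2 ^ K) (2 ^ K - 1) (2 ^ K - Nat.land 2147483648 (2 ^ K - 1))
      (sW W D0 D1 D2 0) (sW W D0 D1 D2 1) (sW W D0 D1 D2 2) (sW W D0 D1 D2 3)
      (sW W D0 D1 D2 0 + 1) (sW W D0 D1 D2 1 + 1) (sW W D0 D1 D2 2 + 1) (sW W D0 D1 D2 3 + 1)
      D E : ℕ) : ℤ) ≡ ((ev (2 ^ K) (2 ^ K - 1) (sW W D0 D1 D2 0) (sW W D0 D1 D2 1)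
      (sW W D0 D1 D2 2) (sW W D0 D1 D2 3) D E : ℕ) : ℤ) [ZMOD ((2 ^ K : ℕ) : ℤ)] :=
    (evc_mod K (sW W D0 D1 D2) (fun p => sW W D0 D1 D2 p + 1) (fun _ => rfl) D E hE).trans
      (ev_mod K (sW W D0 D1 D2) D E hE).symm
  have key2 := (Int.natCast_modEq_iff.1 key)
  set HR := Nat.mul (2 ^ β) (Nat.div (2 ^ K - 1) (W - 1)) with hHR
  have k3 : ∀ a b : ℕ, a ≡ b [MOD 2 ^ K] →
      Nat.land (a + HR) (2 ^ K - 1) = Nat.land (b + HR) (2 ^ K - 1) := fun a b hab => by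
    rw [land_eq, land_eq]
    exact Nat.ModEq.add_right HR hab
  have k4 := k3 _ _ key2
  have k5 : Nat.beq (Nat.land (Nat.land (evN (2 ^ K) (2 ^ K - 1)
      (2 ^ K - Nat.land 2147483648 (2 ^ K - 1))
      (sW W D0 D1 D2 0) (sW W D0 D1 D2 1) (sW W D0 D1 D2 2) (sW W D0 D1 D2 3)
      (sW W D0 D1 D2 0 + 1) (sW W D0 D1 D2 1 + 1) (sW W D0 D1 D2 2 + 1) (sW W D0 D1 D2 3 + 1)
      D E + HR) (2 ^ K - 1)) HR) HR = Nat.beq (Nat.land (Nat.land (ev (2 ^ K) (2 ^ K - 1)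
      (sW W D0 D1 D2 0) (sW W D0 D1 D2 1)
      (sW W D0 D1 D2 2) (sW W D0 D1 D2 3) D E + HR) (2 ^ K - 1)) HR) HR := by rw [k4]
  exact k5

theorem allc_of {f : Tc → Bool} {l : List Tc} (h : allc f l = true) : ∀ T ∈ l, f T = true := by
  induction l with
  | nil => intro T hT; simp at hT
  | cons T l ih =>
    intro T' hT'
    have e : allc f (T :: l) = @Bool.rec (fun _ => Bool) false (allc f l) (f T) := rfl
    rw [e] at h
    cases hf : f T with
    | false => rw [hf] at h; cases h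
    | true =>
      rw [hf] at h
      rcases List.mem_cons.1 hT' with h1 | h1
      · rw [h1]; exact hf
      · exact ih h T' h1

theorem shp_hg {T : Ty} (h : T.shp = true) : T.E.Hg := by
  unfold Ty.shp at h
  simp only [Bool.and_eq_true] at h
  exact hg_of_ok T.E h.1.1.1.1.1.1 (by
    have := h.1.1.1.1.1.2
    rw [Nat.blt_eq] at this
    exact this)

/-- **the compiled rows are the rows** -/
theorem steps_of_stepc {ts : List Ty} {cs : List Tc} {R m D j0 n : ℕ} (hc : cs = ts.map cmp)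
    (hs : shps ts m = true) (h : stepc cs R m D j0 n = true) : steps ts R m D j0 n = true := by
  have hg : ∀ T ∈ ts, T.E.Hg := fun T hT => by
    unfold shps at hs
    rw [List.all_eq_true] at hs
    have h2 := hs T hT
    rw [Bool.and_eq_true] at h2
    exact shp_hg h2.1
  unfold stepc at h
  unfold steps
  rw [frc_eq] at h ⊢
  have key : ∀ (d : ℕ) (l : List Ty), (∀ T ∈ l, T.E.Hg) →
      allc (fun T => rowF T.F T.β T.D0 T.D1 T.D2 T.D3 d) (l.map cmp) = true →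
      alll (fun T => row T.E T.β T.D0 T.D1 T.D2 T.D3 d) l = true := by
    intro d l
    induction l with
    | nil => intro _ _; rfl
    | cons T l ih =>
      intro hl hh
      have h1 := allc_of hh (cmp T) (by simp)
      have h2 : rowF (cmp T).F T.β T.D0 T.D1 T.D2 T.D3 d = true := h1
      rw [rowF_eq (hl T (by simp))] at h2
      have e : alll (fun T => row T.E T.β T.D0 T.D1 T.D2 T.D3 d) (T :: l)
          = @Bool.rec (fun _ => Bool) false (alll (fun T => row T.E T.β T.D0 T.D1 T.D2 T.D3 d) l)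
            (row T.E T.β T.D0 T.D1 T.D2 T.D3 d) := rfl
      rw [e, h2]
      refine ih (fun T' h' => hl T' (by simp [h'])) ?_
      have e2 : allc (fun T => rowF T.F T.β T.D0 T.D1 T.D2 T.D3 d) ((T :: l).map cmp)
          = @Bool.rec (fun _ => Bool) false
            (allc (fun T => rowF T.F T.β T.D0 T.D1 T.D2 T.D3 d) (l.map cmp))
            (rowF (cmp T).F T.β T.D0 T.D1 T.D2 T.D3 d) := rfl
      rw [e2] at hh
      have h3 : rowF (cmp T).F T.β T.D0 T.D1 T.D2 T.D3 d = true := h1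
      rw [h3] at hh
      exact hh
  rw [hc] at h
  generalize hm : Nat.pred (Nat.pow (nat_lit 2) (Nat.mul (nat_lit 32) m)) = mask at h ⊢
  clear hm
  induction n with
  | zero => rfl
  | succ n ih =>
    have e1 : ∀ f : ℕ → Bool, allr f (n + 1) = @Bool.rec (fun _ => Bool) false (allr f n) (f n) :=
      fun _ => rfl
    rw [e1] at h ⊢
    simp only [frc_eq] at h ih ⊢
    revert h
    generalize hx : allc (fun T => rowF T.F T.β T.D0 T.D1 T.D2 T.D3 (Nat.land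
      (Nat.shiftRight D (Nat.mul (nat_lit 32) (Nat.mul R (Nat.add j0 n)))) mask))
      (ts.map cmp) = b
    intro h
    cases b with
    | false => cases h
    | true =>
      rw [key _ ts hg hx]
      exact ih h

end Pool.Agent.RZ.RCO.Sg
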