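import Pool.Agent.RZ.RCO.Gk9
import Pool.Agent.RZ.RCO.Sg5

/-! Sheets with compiled types in pieces: all rows at once (MP_73ccd0_lc). -/

set_option autoImplicit false

namespace Pool.Agent.RZ.RCO

open Sg

/-- the types of a sheet in pieces with their compiled forms -/
structure Lay (S : Sheet) (m : ℕ) (L : List (List Ty × List Tc)) : Prop where
  mp : S.mp = true
  ty : S.ty = (L.map Prod.fst).flatten
  c : ∀ a ∈ L, a.2 = a.1.map cmp
  s : ∀ a ∈ L, shps a.1 m = true

/-- one piece -/
structure Pce (S : Sheet) (m w k : ℕ) (a : List Ty × List Tc) : Prop where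
  ty : eqts a.1 ((S.ty.drop (w * k)).take w) = true
  c : a.2 = a.1.map cmp
  s : shps a.1 m = true

theorem lay_of {S : Sheet} {m w : ℕ} {L : List (List Ty × List Tc)} (mp : S.mp = true)
    (h : ∀ k (hk : k < L.length), Pce S m w k (L[k])) (hl : Nat.ble S.ty.length (w * L.length) = true) :
    Lay S m L := by
  refine ⟨mp, ?_, fun a ha => ?_, fun a ha => ?_⟩
  · refine flat_of w (fun k hk => ?_) ?_
    · rw [List.length_map] at hk
      rw [List.getElem_map]
      exact eqts_eq (h k hk).ty
    · rw [List.length_map]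
      exact Nat.le_of_ble_eq_true hl
  · obtain ⟨k, hk, rfl⟩ := List.getElem_of_mem ha
    exact (h k hk).c
  · obtain ⟨k, hk, rfl⟩ := List.getElem_of_mem ha
    exact (h k hk).s

/-- **all rows of a table** from one check of every piece -/
theorem Lay.at {S : Sheet} {R m D n : ℕ} {L : List (List Ty × List Tc)} (h : Lay S m L)
    (hd : ∀ a ∈ L, stepc a.2 R m D 0 n = true) : ∀ j < n, S.At D R j := by
  intro j hj
  refine Sheet.at' (m := m) h.mp h.ty (fun l hl => ?_) fun l hl => ?_
  · obtain ⟨a, ha, rfl⟩ := List.mem_map.1 hl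
    exact h.s a ha
  · obtain ⟨a, ha, rfl⟩ := List.mem_map.1 hl
    exact ⟨0, n, Nat.zero_le _, by omega, steps_of_stepc (h.c a ha) (h.s a ha) (hd a ha)⟩

end Pool.Agent.RZ.RCO
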