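import Pool.Agent.RZ.RCO.Gj1
import Pool.Agent.RZ.RCO.Gk12
import Pool.Agent.RZ.RCO.Gk14

/-! The tables of the sum of level 2 linked to the tables of its two systems (MP_73ccd0_lc). -/

set_option autoImplicit false

namespace Pool.Agent.RZ.RCO

open Sg Set

/-- **the positions of a system as data**: number, row length, step entry and steps of its table;
kernel, factors, end values, coefficients of the position sums -/
structure Psd where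
  D : ℕ
  R : ℕ
  iH : ℕ
  n : ℕ
  RD : List Re
  κD : Re
  c4 : Re
  nu : ℕ → ℕ → Re
  du : ℕ → ℕ → Re
  a : Bool → ℕ → ℕ → Option Cf

namespace Psd

/-- the time coordinate, the row -/
noncomputable def tm (y : Psd) : ℕ → ℝ := tmD y.D y.R y.iH
noncomputable def tc (y : Psd) (ρ : ℝ) : ℝ := cD (tmD y.D y.R y.iH) y.n ρ
noncomputable def te (y : Psd) (ρ : ℝ) : ℕ → ℕ := eD y.D y.R (tmD y.D y.R y.iH) y.n ρ

/-- the used position sums -/
noncomputable def U (y : Psd) (s : Bool) (m : ℕ) (ρ : ℝ) (p : Pt) : ℝ :=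
  FF26 (fun i => (oTq y.D y.R (y.a s m i)).up y.tm y.n ρ) p

end Psd

namespace Tk1

/-- the links to the targets: columns `L` -/
def lkT (k : Tk1) (x : Tt1) (L : List (ℕ × ℕ)) : Bool :=
  reqL (fun a b => prB k.R x.R a b L) k.b.RR x.b.RR
    && (req (fun a b => prB k.R x.R a b L) k.b.W x.b.W
    && (reqL (fun a b => prB k.R x.R a b L) k.b.Wp x.b.Wp
    && (reqF (fun a b => prB k.R x.R a b L) k.b.Pn x.b.Pn
    && (reqF (fun a b => prB k.R x.R a b L) k.b.Pd x.b.Pd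
    && (isZ x.b.Rp && (isZ x.b.Cn && isZ x.b.Cd))))))

/-- the links to the positions: columns `L` -/
def lkP (k : Tk1) (y : Psd) (L : List (ℕ × ℕ)) : Bool :=
  reqL (fun a b => prB k.R y.R a b L) k.b.RD y.RD
    && (req (fun a b => prB k.R y.R a b L) k.b.κD y.κD
    && (req (fun a b => prB k.R y.R a b L) k.b.c4 y.c4
    && allL (fun m => reqF (fun a b => prB k.R y.R a b L) (k.b.nu m) (y.nu m)
      && (reqF (fun a b => prB k.R y.R a b L) (k.b.du m) (y.du m)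
      && (reqF (fun a b => prB k.R y.R a b L) (k.b.Fu true m) (cre2 Cf.u y.R (y.a true m))
      && reqF (fun a b => prB k.R y.R a b L) (k.b.Fu false m) (cre2 Cf.u y.R (y.a false m)))))
      (List.range k.b.N)))

/-- the environment of the sum of level 2: rates of the targets, kernel of the positions -/
noncomputable def envK (x : Tt1) (D n : ℕ) (y : Psd) : TEnv :=
  { x.env D n with
    RD := fun ρ => hT y.RD (y.tc ρ) (y.te ρ)
    RDp := fun _ => 0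
    κD := fun ρ => y.κD.tv (y.tc ρ) (y.te ρ)
    c4 := fun ρ => y.c4.tv (y.tc ρ) (y.te ρ) }

/-- **the conditions of the tables of the sum of level 2 with the tables of the two systems**:
`x`, `D1`, `n1` the targets, `y` the positions, on the first `n` steps of both meshes -/
theorem tk1_lnk {k : Tk1} {D n : ℕ} {x : Tt1} {D1 n1 : ℕ} {y : Psd} {L1 L2 : List (ℕ × ℕ)}
    (hO : k.okT = true) (hE : k.okE D n = true) (hn : 0 < n)
    (hS : ∀ j < n, k.sheet.At D k.R j)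
    (hm1 : Msh (x.tm D1) n1) (hm2 : Msh y.tm y.n) (hn1 : n ≤ n1) (hn2 : n ≤ y.n)
    (b1 : lnkB D k.R D1 x.R n L1 = true) (h1 : (k.iH, x.iH) ∈ L1) (l1 : k.lkT x L1 = true)
    (b2 : lnkB D k.R y.D y.R n L2 = true) (h2 : (k.iH, y.iH) ∈ L2) (l2 : k.lkP y L2 = true)
    {ν δ : Fin k.b.N → Pt → ℝ}
    (hν : ∀ ρ ∈ Icc (y.tm 0) (y.tm y.n), ∀ (m : Fin k.b.N) (p : Pt), Sa p →
      ν m p ≤ Sp12.cf (y.nu m) (y.tc ρ) (y.te ρ) p)
    (hδ : ∀ ρ ∈ Icc (y.tm 0) (y.tm y.n), ∀ (m : Fin k.b.N) (p : Pt), Sa p →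
      δ m p ≤ Sp12.cf (y.du m) (y.tc ρ) (y.te ρ) p) :
    (k.tk1 D n).Ok FF26 26 (k.tm D) n (envK x D1 n1 y) (fun m : Fin k.b.N => (k.b.w1 m).fn)
      (x.tt1 D1 n1).Ψn (x.tt1 D1 n1).Ψd (x.tt1 D1 n1).Cn (x.tt1 D1 n1).Cd ν δ
      (fun s m ρ => y.U s m ρ) := by
  have hm := msh hS
  unfold lkT at l1
  unfold lkP at l2
  simp only [Bool.and_eq_true] at l1 l2
  obtain ⟨a1, a2, a3, a4, a5, a6, a7, a8⟩ := l1
  obtain ⟨c1, c2, c3, c4⟩ := l2
  have c5 : ∀ m < k.b.N, _ := fun m hm => allL_of c4 m (List.mem_range.2 hm)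
  simp only [Bool.and_eq_true] at c5
  -- the links at a time
  have r1 : ∀ ρ ∈ Icc (k.tm D 0) (k.tm D n), k.tc D n ρ = x.tc D1 n1 ρ ∧
      ∀ a b, prB k.R x.R a b L1 = true → k.te D n ρ a = x.te D1 n1 ρ b :=
    fun ρ hρ => lnk_row b1 h1 hn hn1 hm hm1 hρ
  have r2 : ∀ ρ ∈ Icc (k.tm D 0) (k.tm D n), k.tc D n ρ = y.tc ρ ∧
      ∀ a b, prB k.R y.R a b L2 = true → k.te D n ρ a = y.te ρ b :=
    fun ρ hρ => lnk_row b2 h2 hn hn2 hm hm2 hρ
  have i2 : ∀ ρ ∈ Icc (k.tm D 0) (k.tm D n), ρ ∈ Icc (y.tm 0) (y.tm y.n) := fun ρ hρ => by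
    have e0 : k.tm D 0 = y.tm 0 := lnkB_tm b2 h2 (Nat.zero_le _)
    have e1 : k.tm D n = y.tm n := lnkB_tm b2 h2 le_rfl
    rw [← e0]
    exact ⟨hρ.1, hρ.2.trans (e1.le.trans (hm2.le hn2 le_rfl))⟩
  refine tk1_ok hO hE hn hS (E := envK x D1 n1 y) ⟨fun ρ hρ => ?_, fun ρ hρ => ?_, fun ρ hρ => ?_,
    fun ρ hρ => ?_, fun ρ hρ => ?_, fun _ _ => rfl, fun ρ hρ => ?_, fun ρ hρ => ?_, fun ρ hρ => ?_,
    fun ρ hρ => ?_, fun ρ hρ => ?_, fun ρ hρ => ?_⟩ (fun ρ hρ m p hp => ?_)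
    (fun ρ hρ m p hp => ?_) fun ρ hρ s m p hp => ?_
  · obtain ⟨e, f⟩ := r1 ρ hρ
    funext z
    rw [e]
    exact (reqL_hT f (x.tc D1 n1 ρ) z a1).symm
  · exact isZ_val a6 _ _
  · obtain ⟨e, f⟩ := r1 ρ hρ
    funext p
    show x.b.W.kv (x.tc D1 n1 ρ) (x.te D1 n1 ρ) p.k = k.b.W.kv (k.tc D n ρ) (k.te D n ρ) p.k
    rw [e]
    exact (req_kv f a2 _ _).symm
  · obtain ⟨e, f⟩ := r1 ρ hρ
    funext z
    rw [e]
    exact (reqL_hT f (x.tc D1 n1 ρ) z a3).symm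
  · obtain ⟨e, f⟩ := r2 ρ hρ
    funext z
    rw [e]
    exact (reqL_hT f (y.tc ρ) z c1).symm
  · obtain ⟨e, f⟩ := r2 ρ hρ
    rw [e]
    exact (req_tv f c2 _).symm
  · obtain ⟨e, f⟩ := r2 ρ hρ
    rw [e]
    exact (req_tv f c3 _).symm
  · obtain ⟨e, f⟩ := r1 ρ hρ
    funext p
    rw [e]
    exact (reqF_cf f a4 _ p).symm
  · obtain ⟨e, f⟩ := r1 ρ hρ
    funext p
    rw [e]
    exact (reqF_cf f a5 _ p).symm
  · exact isZ_val a7 _ _
  · exact isZ_val a8 _ _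
  · obtain ⟨e, f⟩ := r2 ρ hρ
    rw [e, reqF_cf f (c5 m m.2).1 _ p]
    exact hν ρ (i2 ρ hρ) m p hp
  · obtain ⟨e, f⟩ := r2 ρ hρ
    rw [e, reqF_cf f (c5 m m.2).2.1 _ p]
    exact hδ ρ (i2 ρ hρ) m p hp
  · obtain ⟨e, f⟩ := r2 ρ hρ
    have hs : Stp (tmD y.D y.R y.iH) y.n (ixD (tmD y.D y.R y.iH) y.n ρ) ρ :=
      ixD_spec hm2 (by omega) (i2 ρ hρ)
    refine le_of_eq ?_
    rw [e]
    cases s with
    | true =>
      rw [reqF_cf f (c5 m m.2).2.2.1 _ p]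
      exact (cf_up hs (y.a true m) p).symm
    | false =>
      rw [reqF_cf f (c5 m m.2).2.2.2 _ p]
      exact (cf_up hs (y.a false m) p).symm

/-- **the same multipliers at the weights in two tables** (mixed positions) -/
theorem gn_eq {k k' : Tk1} {D D' n n' : ℕ} {L : List (ℕ × ℕ)} (hn : 0 < n) (hnn : n ≤ n')
    (hm : Msh (k.tm D) n) (hm' : Msh (k'.tm D') n') (b : lnkB D k.R D' k'.R n L = true)
    (h : (k.iH, k'.iH) ∈ L) {m m' : ℕ}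
    (hG : req (fun a b => prB k.R k'.R a b L) (k.b.Gn m) (k'.b.Gn m') = true)
    (hE : req (fun a b => prB k.R k'.R a b L) (k.b.Ge m) (k'.b.Ge m') = true) {ρ : ℝ}
    (hρ : ρ ∈ Icc (k.tm D 0) (k.tm D n)) :
    (k.b.Gn m).tv (k.tc D n ρ) (k.te D n ρ) = (k'.b.Gn m').tv (k'.tc D' n' ρ) (k'.te D' n' ρ)
      ∧ (k.b.Ge m).tv (k.tc D n ρ) (k.te D n ρ)
        = (k'.b.Ge m').tv (k'.tc D' n' ρ) (k'.te D' n' ρ) := by
  have r1 : k.tc D n ρ = k'.tc D' n' ρ ∧ ∀ a b, prB k.R k'.R a b L = true →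
      k.te D n ρ a = k'.te D' n' ρ b := lnk_row b h hn hnn hm hm' hρ
  obtain ⟨e, f⟩ := r1
  rw [e]
  exact ⟨req_tv f hG _, req_tv f hE _⟩

end Tk1

end Pool.Agent.RZ.RCO
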