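import Pool.Agent.RZ.RCO.Gk1

/-! The lines of the packed checker: edges to a real neighbour, saturated points, edges to a pendant
neighbour, vertices (MP_73ccd0_lc). -/

set_option autoImplicit false

namespace Pool.Agent.RZ.RCO

open Sg

/-- sum of the products with the features, for a list of facts with their multipliers -/
def fmap {α : Type} (vec : α → Vx) : List (Re × α) → List (Re × Vx)
  | [] => []
  | a :: l => (a.1, vec a.2) :: fmap vec l

theorem fmap_true {α : Type} {vec : α → Vx} {ρ : ℕ → ℝ} {e : ℕ → ℕ} {φ : ℕ → ℝ}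
    (h : ∀ a, 0 ≤ vval ρ e φ (vec a)) : ∀ fs : List (Re × α), ∀ b ∈ fmap vec fs,
      0 ≤ vval ρ e φ b.2
  | [], b, hb => by simp [fmap] at hb
  | a :: l, b, hb => by
    simp only [fmap, List.mem_cons] at hb
    rcases hb with rfl | hb
    · exact h a.2
    · exact fmap_true h l b hb

/-! ### the scale of the killed mass and of the weights -/

/-- the killed mass is at most `kN / 1024`, the weights at most `xD / 1024` -/
def kN : ℕ := (2047 + RCG.xN) / RCG.xN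
def xD : ℕ := (1023 + RCG.xN) / RCG.xN

noncomputable def kS : ℝ := (kN : ℝ) / 2 ^ 10
noncomputable def xS : ℝ := (xD : ℝ) / 2 ^ 10

theorem kN_eq : 2048 ≤ RCG.xN * kN := by decide
theorem xD_eq : 1024 ≤ RCG.xN * xD := by decide
theorem kxN : kN + xD ≤ 1024 := by decide

theorem kS_pos : 0 < kS := by
  unfold kS
  exact div_pos (by exact_mod_cast (by decide : 0 < kN)) (by positivity)
theorem xS_pos : 0 < xS := by
  unfold xS
  exact div_pos (by exact_mod_cast (by decide : 0 < xD)) (by positivity)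

theorem X_kS : 2 * RCG.XM ≤ kS := by
  have h1 : (2048 : ℝ) ≤ (RCG.xN : ℝ) * (kN : ℝ) := by exact_mod_cast kN_eq
  have h2 := mul_le_mul_of_nonneg_left h1 RCG.XM_pos.le
  have h3 : RCG.XM * ((RCG.xN : ℝ) * (kN : ℝ)) = (RCG.xN : ℝ) * RCG.XM * (kN : ℝ) := by ring
  rw [h3, RCG.xN_mul] at h2
  unfold kS
  rw [le_div_iff₀ (by positivity)]
  norm_num
  linarith
theorem X_xS : RCG.XM ≤ xS := by
  have h1 : (1024 : ℝ) ≤ (RCG.xN : ℝ) * (xD : ℝ) := by exact_mod_cast xD_eq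
  have h2 := mul_le_mul_of_nonneg_left h1 RCG.XM_pos.le
  have h3 : RCG.XM * ((RCG.xN : ℝ) * (xD : ℝ)) = (RCG.xN : ℝ) * RCG.XM * (xD : ℝ) := by ring
  rw [h3, RCG.xN_mul] at h2
  unfold xS
  rw [le_div_iff₀ (by positivity)]
  norm_num
  linarith

/-- the values of the variables: killed mass, ratio, time -/
noncomputable def rho3 (k y c : ℝ) : ℕ → ℝ
  | 0 => k / kS
  | 1 => y
  | 2 => c
  | _ => 0

theorem rho3_nonneg {k y c : ℝ} (k0 : 0 ≤ k) (y0 : 0 ≤ y) (c0 : 0 ≤ c) (p : ℕ) :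
    0 ≤ rho3 k y c p := by
  unfold rho3
  split <;> first | exact div_nonneg k0 kS_pos.le | assumption | exact le_rfl

theorem rho3_le {k y c : ℝ} (k1 : k ≤ kS) (y1 : y ≤ 1) (c1 : c ≤ 1) (p : ℕ) :
    rho3 k y c p ≤ 1 := by
  unfold rho3
  split <;> first | exact (div_le_one kS_pos).2 k1 | assumption | exact zero_le_one

theorem kS_mul (k : ℝ) : kS * (k / kS) = k := mul_div_cancel₀ _ kS_pos.ne'
theorem xS_mul (k : ℝ) : xS * (k / xS) = k := mul_div_cancel₀ _ xS_pos.ne'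

/-! ### edges to a real neighbour, saturated points

variables: `K = k`, `L = 1 - k`, `X = x`, `Z = 1 - k - x`; features
`1, h, g, q, s, e, a, b, a (1 - a)` -/

def eK : Re := kd kN 10 * kv 0
def eL : Re := kd (1024 - kN) 10 + kd kN 10 * kw 0
def eX : Re := kd xD 10 * kv 1
def eZ : Re := kd (1024 - (kN + xD)) 10 + (kd kN 10 * kw 0 + kd xD 10 * kw 1)

noncomputable def phiE (p : Pt) (a b : ℝ) : ℕ → ℝ
  | 0 => 1
  | 1 => p.h
  | 2 => p.g
  | 3 => p.q
  | 4 => p.s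
  | 5 => p.e
  | 6 => a
  | 7 => b
  | 8 => a * (1 - a)
  | _ => 0

/-- the features without the neighbour -/
def gQ (Z : Re) : Q5 := ⟨Z, [kz, kc 1], [kz, kz, kc 1], [kz, kz, kz, kc 1], [kz, kz, kz, kz, kc 1],
  [kz, kz, kz, kz, kz, kc 1]⟩

/-- the full features -/
def gF (X : Re) : Q5 := ⟨eL, [kz, kc 1, kz, kz, kz, kz, X], [kz, kz, kc 1, kz, kz, kz, kz, kz, X],
  [X * X, kz, kz, kc 1], [kz, kz, kz, kz, kc 1, kz, X * X], [kz, kz, kz, kz, kz, kc 1, kz, X]⟩

def eQ : Q5 := gQ eZ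
def eF : Q5 := gF eX

/-- the features of the neighbour -/
def ea : Vx := [kz, kz, kz, kz, kz, kz, kc 1]
def eb : Vx := [kz, kz, kz, kz, kz, kz, kz, kc 1]
def ec : Vx := [kz, kz, kz, kz, kz, kz, kz, kz, kc 1]

/-- the facts of an edge to a real neighbour -/
inductive FE
  | f (b : Bool) (a : Fa)
  | ax | ab | bk | b1 | ca | cx | ct (t n : ℕ) | xa | xb

def FE.vec (X Z : Re) : FE → Vx
  | .f false a => a.vec eK (vsub [kc 2 - eK] ea) (vsub (vsub [kc 2] (gF X).h) eb) (gQ Z)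
  | .f true a => a.vec eK [kc 2 - eK] (vsub [kc 2] (gF X).h) (gF X)
  | .ax => vsub [kc 1 - X] ea
  | .ab => vsub (vsub [kc 1] ea) eb
  | .bk => vsub eb [X * eK]
  | .b1 => vsub [X * eK + (kc 1 - X)] (vadd ea eb)
  | .ca => vsub ea ec
  | .cx => vsub ec (vsm X ea)
  | .ct t n => vsub (vadd [kd (t ^ 2) (2 * n)] (vsm (kd (2 ^ n - 2 * t) n) ea))
      (vadd (vsm (kd (2 * t - 2 ^ n) n) ea) ec)
  | .xa => vsub [kc 2] (vsm (kc RCG.xN) ea)
  | .xb => vsub [kc RCG.xN * (X * eK) + kc 2 * (kc 1 - X)] (vadd (vsm (kc RCG.xN) eb)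
      (vsm (kc 2) ea))

section edge

variable {p : Pt} {x a b c : ℝ}

/-- the values of the variables for an edge -/
noncomputable def rhoE (p : Pt) (x c : ℝ) : ℕ → ℝ := rho3 p.k (x / xS) c

theorem Pt.Sat.xk (h : p.Sat x a b) : x + p.k ≤ 1 := by
  linarith [h.m, h.row, h.f.m0]

theorem Pt.Live.kS (h : p.Live) : p.k ≤ kS := h.kX.trans X_kS

theorem Pt.Sat.k1 (h : p.Sat x a b) : p.k ≤ 1 := by linarith [h.xk, h.x0]

theorem rhoE0 (h : p.Sat x a b) (c0 : 0 ≤ c) (i : ℕ) : 0 ≤ rhoE p x c i :=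
  rho3_nonneg h.k0 (div_nonneg h.x0 xS_pos.le) c0 i

theorem rhoE1 (h : p.Sat x a b) (c1 : c ≤ 1) (i : ℕ) : rhoE p x c i ≤ 1 :=
  rho3_le h.toLive.kS ((div_le_one xS_pos).2 (h.xX.trans X_xS)) c1 i

/-- the values of the polynomials of a point -/
structure EnX (ρ : ℕ → ℝ) (e : ℕ → ℕ) (X Z : Re) (p : Pt) (x : ℝ) : Prop where
  K : eK.val ρ e = p.k
  L : eL.val ρ e = 1 - p.k
  X : X.val ρ e = x
  Z : Z.val ρ e = p.m

theorem eK_v3 (k y c : ℝ) (e : ℕ → ℕ) : eK.val (rho3 k y c) e = k := by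
  rw [eK, re_mul, kv_val, kd_val]
  exact kS_mul k

theorem eL_v3 (k y c : ℝ) (e : ℕ → ℕ) : eL.val (rho3 k y c) e = 1 - k := by
  rw [eL, re_add, re_mul, kw_val, kd_val, kd_val]
  have h1 : ((1024 - kN : ℕ) : ℝ) = 1024 - (kN : ℝ) := by
    rw [Nat.cast_sub (by decide : kN ≤ 1024)]
    norm_num
  have h2 : (kN : ℝ) / 2 ^ 10 * (1 - rho3 k y c 0) = kS - k := by
    show kS * (1 - k / kS) = kS - k
    rw [mul_sub, kS_mul, mul_one]
  rw [h1, h2]
  unfold RCO.kS
  ring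

theorem eX_v3 (k x c : ℝ) (e : ℕ → ℕ) : eX.val (rho3 k (x / xS) c) e = x := by
  rw [eX, re_mul, kv_val, kd_val]
  exact xS_mul x

theorem eZ_v3 (k x c : ℝ) (e : ℕ → ℕ) : eZ.val (rho3 k (x / xS) c) e = 1 - k - x := by
  rw [eZ, re_add, re_add, re_mul, re_mul, kw_val, kw_val, kd_val, kd_val, kd_val]
  have h1 : ((1024 - (kN + xD) : ℕ) : ℝ) = 1024 - ((kN : ℝ) + (xD : ℝ)) := by
    rw [Nat.cast_sub kxN]
    push_cast
    ring
  have h2 : (kN : ℝ) / 2 ^ 10 * (1 - rho3 k (x / xS) c 0) = kS - k := by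
    show kS * (1 - k / kS) = kS - k
    rw [mul_sub, kS_mul, mul_one]
  have h3 : (xD : ℝ) / 2 ^ 10 * (1 - rho3 k (x / xS) c 1) = xS - x := by
    show xS * (1 - x / xS) = xS - x
    rw [mul_sub, xS_mul, mul_one]
  rw [h1, h2, h3]
  unfold RCO.kS xS
  ring

theorem enE (h : p.Sat x a b) (e : ℕ → ℕ) : EnX (rhoE p x c) e eX eZ p x :=
  ⟨eK_v3 _ _ _ _, eL_v3 _ _ _ _, eX_v3 _ _ _ _, (eZ_v3 _ _ _ _).trans (by linarith [h.m, h.row])⟩

theorem eK_val (e : ℕ → ℕ) : eK.val (rhoE p x c) e = p.k := eK_v3 _ _ _ _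
theorem eL_val (e : ℕ → ℕ) : eL.val (rhoE p x c) e = 1 - p.k := eL_v3 _ _ _ _
theorem eX_val (_h : p.Sat x a b) (e : ℕ → ℕ) : eX.val (rhoE p x c) e = x := eX_v3 _ _ _ _
theorem eZ_val (h : p.Sat x a b) (e : ℕ → ℕ) : eZ.val (rhoE p x c) e = p.m := (enE h e).Z

theorem phiE_nonneg (h : p.Sat x a b) (i : ℕ) : 0 ≤ phiE p a b i := by
  have a1 : a ≤ 1 := by linarith [h.ab, h.b0]
  unfold phiE
  split
  · exact zero_le_one
  · exact h.f.h0
  · exact h.f.g0
  · exact h.f.q0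
  · exact h.f.s0
  · exact h.f.e0
  · exact h.a0
  · exact h.b0
  · exact mul_nonneg h.a0 (by linarith)
  · exact le_rfl

section en

variable {ρ : ℕ → ℝ} {e : ℕ → ℕ} {X Z : Re}

theorem EnX.Q (E : EnX ρ e X Z p x) : Q5v ρ e (phiE p a b) (gQ Z) p.m p.h p.g p.q p.s p.e := by
  refine ⟨E.Z, ?_, ?_, ?_, ?_, ?_⟩ <;>
    simp [gQ, vval, kz_val, kc_val, phiE]

theorem EnX.F (E : EnX ρ e X Z p x) (h : p.Sat x a b) :
    Q5v ρ e (phiE p a b) (gF X) p.M p.H p.G p.Q p.S p.E := by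
  refine ⟨?_, ?_, ?_, ?_, ?_, ?_⟩
  · rw [show (gF X).m = eL from rfl, E.L]
    linarith [h.row]
  · simp only [gF, vval, kz_val, kc_val, phiE, ← h.h, E.X]
    push_cast
    ring
  · simp only [gF, vval, kz_val, kc_val, phiE, E.X, ← h.g]
    push_cast
    ring
  · simp only [gF, vval, kz_val, kc_val, phiE, re_mul, E.X, ← h.q]
    push_cast
    ring
  · simp only [gF, vval, kz_val, kc_val, phiE, re_mul, E.X, ← h.s]
    push_cast
    ring
  · simp only [gF, vval, kz_val, kc_val, phiE, E.X, ← h.e]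
    push_cast
    ring

theorem ea_v : vval ρ e (phiE p a b) ea = a := by simp [ea, vval, kz_val, kc_val, phiE]
theorem eb_v : vval ρ e (phiE p a b) eb = b := by simp [eb, vval, kz_val, kc_val, phiE]
theorem ec_v : vval ρ e (phiE p a b) ec = a * (1 - a) := by
  simp [ec, vval, kz_val, kc_val, phiE]

theorem vonE (r : Re) : vval ρ e (phiE p a b) [r] = r.val ρ e := vval_one rfl r

/-- **the facts of a saturated point are true** -/
theorem FE.trueX (E : EnX ρ e X Z p x) (h : p.Sat x a b) (f : FE) :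
    0 ≤ vval ρ e (phiE p a b) (f.vec X Z) := by
  have a1 : a ≤ 1 := by linarith [h.ab, h.b0]
  have H1 : p.H ≤ 1 := by linarith [h.F.hm, h.F.q0, h.F.km, h.k0]
  have hF := (E.F h).h
  cases f with
  | f b' a' =>
    cases b' with
    | false =>
      refine Fa.true rfl E.K ?_ ?_ E.Q h.fcb a'
      · simp only [vval_sub, vonE, re_sub, kc_val, E.K, ea_v]
        push_cast
        rfl
      · simp only [vval_sub, vonE, kc_val, hF, eb_v]
        push_cast
        rfl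
    | true =>
      refine Fa.true rfl E.K ?_ ?_ (E.F h) (h.F.fcb h.k0 H1 h.FX) a'
      · simp only [vonE, re_sub, kc_val, E.K]
        push_cast
        rfl
      · simp only [vval_sub, vonE, kc_val, hF]
        push_cast
        rfl
  | ax =>
    simp only [FE.vec, vval_sub, vonE, re_sub, kc_val, E.X, ea_v]
    push_cast
    linarith [h.ax]
  | ab =>
    simp only [FE.vec, vval_sub, vonE, kc_val, ea_v, eb_v]
    push_cast
    linarith [h.ab]
  | bk =>
    simp only [FE.vec, vval_sub, vonE, re_mul, E.X, eb_v, E.K]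
    linarith [h.xb]
  | b1 =>
    simp only [FE.vec, vval_sub, vval_add, vonE, re_mul, re_add, re_sub, kc_val, E.X, ea_v, eb_v,
      E.K]
    push_cast
    linarith [h.bx]
  | ca =>
    simp only [FE.vec, vval_sub, ea_v, ec_v]
    nlinarith [mul_nonneg h.a0 h.a0]
  | cx =>
    simp only [FE.vec, vval_sub, vval_sm, E.X, ea_v, ec_v]
    nlinarith [mul_nonneg h.a0 (by linarith [h.ax] : 0 ≤ 1 - a - x)]
  | ct t n =>
    simp only [FE.vec, vval_sub, vval_add, vval_sm, vonE, kd_val, ea_v, ec_v]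
    have h3 := cast_dy (2 * t) n
    have e1 : ((2 ^ n - 2 * t : ℕ) : ℝ) / 2 ^ n * a
        - ((2 * t - 2 ^ n : ℕ) : ℝ) / 2 ^ n * a = (1 - 2 * ((t : ℝ) / 2 ^ n)) * a := by
      have : ((2 ^ n - 2 * t : ℕ) : ℝ) / 2 ^ n * a
          - ((2 * t - 2 ^ n : ℕ) : ℝ) / 2 ^ n * a
          = (((2 ^ n - 2 * t : ℕ) : ℝ) - ((2 * t - 2 ^ n : ℕ) : ℝ)) / 2 ^ n * a := by ring
      rw [this, h3]
      push_cast
      field_simp
    have h4 := sq_nonneg (a - (t : ℝ) / 2 ^ n)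
    have h5 := dy2 t n
    push_cast
    nlinarith [h4, e1, h5]
  | xa =>
    simp only [FE.vec, vval_sub, vval_sm, vonE, kc_val, ea_v]
    have h2 := mul_le_mul_of_nonneg_left h.aX RCG.xN_pos.le
    have h3 := RCG.xN_mul
    have h4 : (RCG.xN : ℝ) * (2 * RCG.XM) = 2 * ((RCG.xN : ℝ) * RCG.XM) := by ring
    rw [h4, h3] at h2
    push_cast
    linarith
  | xb =>
    simp only [FE.vec, vval_sub, vval_add, vval_sm, vonE, re_add, re_mul, re_sub, kc_val, ea_v,
      eb_v, E.X, E.K]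
    have h2 := mul_le_mul_of_nonneg_left h.bX RCG.xN_pos.le
    have h3 := RCG.xN_mul
    have h4 : (RCG.xN : ℝ) * (x * p.k + 2 * RCG.XM * (1 - a - x))
        = (RCG.xN : ℝ) * (x * p.k) + 2 * ((RCG.xN : ℝ) * RCG.XM) * (1 - a - x) := by ring
    rw [h4, h3] at h2
    push_cast
    linarith

end en

theorem eQ_val (h : p.Sat x a b) (e : ℕ → ℕ) :
    Q5v (rhoE p x c) e (phiE p a b) eQ p.m p.h p.g p.q p.s p.e := (enE h e).Q

theorem eF_val (h : p.Sat x a b) (e : ℕ → ℕ) :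
    Q5v (rhoE p x c) e (phiE p a b) eF p.M p.H p.G p.Q p.S p.E := (enE h e).F h

end edge

/-- a line of an edge to a real neighbour -/
structure LnE where
  lhs : Vx
  rhs : Vx
  fs : List (Re × FE)

def LnE.ty (l : LnE) : List Ty := vty (cert l.lhs l.rhs (fmap (FE.vec eX eZ) l.fs))

/-- the multipliers are nonnegative -/
def mpos {α : Type} (fs : List (Re × α)) : Bool := fs.all fun a => a.1.E.pos

theorem fpos_of {α : Type} {vec : α → Vx} : ∀ {fs : List (Re × α)}, mpos fs = true →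
    fpos (fmap vec fs) = true
  | [], _ => rfl
  | a :: l, h => by
    simp only [mpos, List.all_cons, Bool.and_eq_true] at h
    have h2 := fpos_of (vec := vec) (fs := l) h.2
    simp only [fpos, fmap, List.all_cons, Bool.and_eq_true] at h2 ⊢
    exact ⟨h.1, h2⟩

/-- **an edge line is true** -/
theorem LnE.le {l : LnE} {ts : List Ty} {R m D j0 n : ℕ} (hp : mpos l.fs = true)
    (hs : shps ts m = true) (h : steps ts R m D j0 n = true) (hsub : ∀ T ∈ l.ty, T ∈ ts)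
    {j : ℕ} (h0 : j0 ≤ j) (h1 : j < j0 + n) {p : Pt} {x a b c : ℝ} (hS : p.Sat x a b)
    (c0 : 0 ≤ c) (c1 : c ≤ 1) :
    vval (rhoE p x c) (fun i => g D (R * j + i)) (phiE p a b) l.lhs
      ≤ vval (rhoE p x c) (fun i => g D (R * j + i)) (phiE p a b) l.rhs :=
  cert_le (fpos_of hp) hs h hsub h0 h1 (rhoE0 hS c0) (rhoE1 hS c1) (phiE_nonneg hS)
    (fmap_true (fun f => FE.trueX (enE hS _) hS f) l.fs)

/-! ### edges to a pendant neighbour

variable: `X = x` (the pair 1), features `1, a, b, a (1 - a)` -/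

def pXk : Re := kv 1

noncomputable def phiP (a b : ℝ) : ℕ → ℝ
  | 0 => 1
  | 1 => a
  | 2 => b
  | 3 => a * (1 - a)
  | _ => 0

noncomputable def rhoP (x c : ℝ) : ℕ → ℝ := rho3 0 x c

inductive FP
  | abx | ca | cx | ct (t n : ℕ)

def FP.vec : FP → Vx
  | .abx => vsub [kc 1 - pXk] [kz, kc 1, kc 1]
  | .ca => vsub [kz, kc 1] [kz, kz, kz, kc 1]
  | .cx => vsub [kz, kz, kz, kc 1] [kz, pXk]
  | .ct t n => vsub (vadd [kd (t ^ 2) (2 * n)] [kz, kd (2 ^ n - 2 * t) n])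
      (vadd [kz, kd (2 * t - 2 ^ n) n] [kz, kz, kz, kc 1])

section pend

variable {p : Pt} {x a b c : ℝ}

theorem pXk_val (e : ℕ → ℕ) : pXk.val (rhoP x c) e = x := kv_val _ _ _

theorem phiP_nonneg (h : p.Pend x a b) (i : ℕ) : 0 ≤ phiP a b i := by
  have a1 : a ≤ 1 := by linarith [h.ab, h.b0, h.x0]
  unfold phiP
  split
  · exact zero_le_one
  · exact h.a0
  · exact h.b0
  · exact mul_nonneg h.a0 (by linarith)
  · exact le_rfl

theorem FP.true (h : p.Pend x a b) (e : ℕ → ℕ) (f : FP) :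
    0 ≤ vval (rhoP x c) e (phiP a b) f.vec := by
  have a1 : a ≤ 1 := by linarith [h.ab, h.b0, h.x0]
  have hX := fun e => pXk_val (x := x) (c := c) e
  cases f with
  | abx =>
    simp only [FP.vec, vval_sub, vval, re_sub, kc_val, kz_val, hX, phiP]
    push_cast
    linarith [h.ab]
  | ca =>
    simp only [FP.vec, vval_sub, vval, kc_val, kz_val, phiP]
    push_cast
    nlinarith [mul_nonneg h.a0 h.a0]
  | cx =>
    simp only [FP.vec, vval_sub, vval, kc_val, kz_val, hX, phiP]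
    push_cast
    nlinarith [mul_nonneg h.a0 (by linarith [h.ab, h.b0] : 0 ≤ 1 - a - x)]
  | ct t n =>
    simp only [FP.vec, vval_sub, vval_add, vval, kc_val, kd_val, kz_val, phiP]
    have h3 := cast_dy (2 * t) n
    have e1 : ((2 ^ n - 2 * t : ℕ) : ℝ) / 2 ^ n * a
        - ((2 * t - 2 ^ n : ℕ) : ℝ) / 2 ^ n * a = (1 - 2 * ((t : ℝ) / 2 ^ n)) * a := by
      have : ((2 ^ n - 2 * t : ℕ) : ℝ) / 2 ^ n * a
          - ((2 * t - 2 ^ n : ℕ) : ℝ) / 2 ^ n * a
          = (((2 ^ n - 2 * t : ℕ) : ℝ) - ((2 * t - 2 ^ n : ℕ) : ℝ)) / 2 ^ n * a := by ring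
      rw [this, h3]
      push_cast
      field_simp
    have h4 := sq_nonneg (a - (t : ℝ) / 2 ^ n)
    have h5 := dy2 t n
    push_cast
    nlinarith [h4, e1, h5]

end pend

structure LnP where
  lhs : Vx
  rhs : Vx
  fs : List (Re × FP)

def LnP.ty (l : LnP) : List Ty := vty (cert l.lhs l.rhs (fmap FP.vec l.fs))

/-- **a line of a pendant neighbour is true** -/
theorem LnP.le {l : LnP} {ts : List Ty} {R m D j0 n : ℕ} (hp : mpos l.fs = true)
    (hs : shps ts m = true) (h : steps ts R m D j0 n = true) (hsub : ∀ T ∈ l.ty, T ∈ ts)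
    {j : ℕ} (h0 : j0 ≤ j) (h1 : j < j0 + n) {p : Pt} {x a b c : ℝ} (hS : p.Pend x a b)
    (c0 : 0 ≤ c) (c1 : c ≤ 1) :
    vval (rhoP x c) (fun i => g D (R * j + i)) (phiP a b) l.lhs
      ≤ vval (rhoP x c) (fun i => g D (R * j + i)) (phiP a b) l.rhs :=
  cert_le (fpos_of hp) hs h hsub h0 h1 (rho3_nonneg le_rfl hS.x0 c0)
    (rho3_le kS_pos.le (by linarith [hS.ab, hS.a0, hS.b0]) c1) (phiP_nonneg hS)
    (fmap_true (fun f => FP.true hS _ f) l.fs)

/-! ### vertices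

variables: `K = k`, `L = 1 - k = M`, `m`; features `1, h, g, q, s, e, H, G, Q, S, E` -/

section vert

variable {p : Pt} {c : ℝ}

theorem Pt.Live.mk1 (h : p.Live) : p.m + p.k ≤ 1 := by linarith [h.mM, h.row]

theorem Pt.Live.k1 (h : p.Live) : p.k ≤ 1 := by linarith [h.mk1, h.f.m0]

end vert

end Pool.Agent.RZ.RCO
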