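import Pool.Agent.RZ.RCO.Gl1

/-! Edge lines: a pointwise inequality at every edge gives the sum over the neighbours in terms of
the features of the vertex (MP_73ccd0_lc). -/

namespace Pool.Agent.RZ.RCO

open Set Finset Pool.Agent.RZ.RCM

set_option linter.unusedSectionVars false

/-- the coefficients of an edge majorant -/
structure Ec where
  c0 : ℝ
  c1 : ℝ
  c2 : ℝ
  c3 : ℝ
  c4 : ℝ
  c5 : ℝ
  c6 : ℝ
  c7 : ℝ

/-- the edge majorant at an edge of weight `x` to a vertex with killed mass `k` and full average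
`H` -/
def ev (c : Ec) (x k H : ℝ) : ℝ :=
  x * (c.c0 + c.c1 * k + c.c2 * (k * (1 - k)) + c.c3 * x + c.c4 * (x * k) + c.c5 * H)
    + c.c6 * k + c.c7 * H

/-- its sum over the neighbours -/
def sv (c : Ec) (p : Pt) : ℝ :=
  c.c0 * p.m + c.c1 * p.h + c.c2 * p.g + c.c3 * p.q + c.c4 * p.s + c.c5 * p.e
    + c.c6 * (2 - p.k) + c.c7 * (2 - p.H)

/-- the rates of the pairs at one time: `x R(x)` for the real pairs, `x Rp` for the others -/
structure Krn {V : Type*} (x : V → V → ℝ) (P : V → Prop) (hb : V → V → ℝ) (R : ℝ → ℝ) (Rp : ℝ) :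
    Prop where
  b0 : ∀ u v, 0 ≤ hb u v
  l : ∀ u v, P u → P v → hb u v ≤ x u v * R (x u v)
  p : ∀ u v, ¬(P u ∧ P v) → hb u v ≤ x u v * Rp

/-- **an edge line** for the functions `G` (real neighbour) and `Gp` (pendant neighbour) -/
structure ELn (R : ℝ → ℝ) (Rp : ℝ) (G Gp : Pt → ℝ) (c : Ec) : Prop where
  c6 : 0 ≤ c.c6
  c7 : 0 ≤ c.c7
  l : ∀ (p : Pt) (x a b : ℝ), p.Sat x a b → x * R x * G p ≤ ev c x p.k p.H
  p : ∀ (p : Pt) (x a b : ℝ), p.Pend x a b → x * Rp * Gp p ≤ ev c x p.k p.H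

section

variable {V : Type*} [Fintype V] [DecidableEq V]
variable {x : V → V → ℝ} {D F : Finset V} {v i : V} {P : V → Prop}

/-- **the edge sum** -/
theorem esum (hx : Wt x) (hD : D.card ≤ 2) (hF : F ⊆ Dᶜ) (hi : i ∈ Dᶜ) (hiF : i ∉ F) {c : Ec}
    (c6 : 0 ≤ c.c6) (c7 : 0 ≤ c.c7) {t : V → ℝ}
    (h : ∀ b ∈ F, t b ≤ ev c (x i b) (kk x D b) (hk x D b)) :
    ∑ b ∈ F, t b ≤ sv c (pt x D F i) := by
  refine (Finset.sum_le_sum h).trans ?_
  have e1 : ∑ b ∈ F, ev c (x i b) (kk x D b) (hk x D b)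
      = c.c0 * fm x F i + c.c1 * fh x (kk x D) F i + c.c2 * ft x (kk x D) F i + c.c3 * fQ x F i
      + c.c4 * fP x (kk x D) F i + c.c5 * fE x D F i + c.c6 * ∑ b ∈ F, kk x D b
      + c.c7 * ∑ b ∈ F, hk x D b := by
    unfold fm ft fQ fP fE ev
    rw [show fh x (kk x D) F i = ∑ f ∈ F, x i f * kk x D f from rfl]
    simp only [Finset.mul_sum]
    rw [← Finset.sum_add_distrib, ← Finset.sum_add_distrib, ← Finset.sum_add_distrib,
      ← Finset.sum_add_distrib, ← Finset.sum_add_distrib, ← Finset.sum_add_distrib,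
      ← Finset.sum_add_distrib]
    exact Finset.sum_congr rfl fun b _ => by ring
  rw [e1]
  have h1 := mul_le_mul_of_nonneg_left (sum_kk_world2 hx hF hi hiF hD) c6
  have h2 := mul_le_mul_of_nonneg_left (sum_hk_world hx hD hiF) c7
  show _ ≤ c.c0 * fm x F i + c.c1 * fh x (kk x D) F i + c.c2 * ft x (kk x D) F i
    + c.c3 * fQ x F i + c.c4 * fP x (kk x D) F i + c.c5 * fE x D F i + c.c6 * (2 - kk x D i)
    + c.c7 * (2 - fh x (kk x D) (Dᶜ.erase i) i)
  rw [hk_eq hx]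
  linarith

theorem wo_sub (D : Finset V) (i v : V) : wo D i v ⊆ Dᶜ :=
  (Finset.erase_subset _ _).trans (Finset.erase_subset _ _)

theorem sub_wo (hF : F ⊆ Dᶜ) (hiF : i ∉ F) (b : V) : F.erase b ⊆ wo D i b :=
  Finset.erase_subset_erase _ fun _ hz => Finset.mem_erase.2 ⟨fun h => hiF (h ▸ hz), hF hz⟩

end

end Pool.Agent.RZ.RCO
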