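import Pool.Agent.RZ.RCO.Gf1
import Pool.Agent.RZ.RCO.Gk2
import Pool.Agent.RZ.RCO.Gl2
import Pool.Agent.RZ.RCO.Sx3

/-! Closure lemmas for the packed checker: vectors above and below real functions of the points,
the lines of a table at every time (MP_73ccd0_lc). -/

set_option autoImplicit false

namespace Pool.Agent.RZ.RCO

open Sg Set

/-! ### vectors and real functions, on an index set of points -/

section gen

variable {ι : Type} {ρ φ : ι → ℕ → ℝ} {e : ℕ → ℕ}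

/-- the vector `G` is above the function `f` -/
def UB (ρ φ : ι → ℕ → ℝ) (e : ℕ → ℕ) (f : ι → ℝ) (G : Vx) : Prop :=
  ∀ z, f z ≤ vval (ρ z) e (φ z) G

/-- the vector `G` is below the function `f` -/
def LB (ρ φ : ι → ℕ → ℝ) (e : ℕ → ℕ) (f : ι → ℝ) (G : Vx) : Prop :=
  ∀ z, vval (ρ z) e (φ z) G ≤ f z

/-- the vector `G` is the function `f` -/
def EB (ρ φ : ι → ℕ → ℝ) (e : ℕ → ℕ) (f : ι → ℝ) (G : Vx) : Prop :=
  ∀ z, vval (ρ z) e (φ z) G = f z

/-- the expression `K` is the function `κ` -/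
def RE (ρ : ι → ℕ → ℝ) (e : ℕ → ℕ) (κ : ι → ℝ) (K : Re) : Prop := ∀ z, K.val (ρ z) e = κ z

variable {f f' : ι → ℝ} {G G' : Vx} {κ κ' : ι → ℝ} {K K' : Re}

theorem EB.ub (h : EB ρ φ e f G) : UB ρ φ e f G := fun z => (h z).ge
theorem EB.lb (h : EB ρ φ e f G) : LB ρ φ e f G := fun z => (h z).le

theorem EB.congr (h : EB ρ φ e f G) (hf : ∀ z, f' z = f z) : EB ρ φ e f' G := fun z =>
  (h z).trans (hf z).symm
theorem EB.add (h : EB ρ φ e f G) (h' : EB ρ φ e f' G') :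
    EB ρ φ e (fun z => f z + f' z) (vadd G G') := fun z => by
  rw [vval_add, h z, h' z]
theorem EB.sub (h : EB ρ φ e f G) (h' : EB ρ φ e f' G') :
    EB ρ φ e (fun z => f z - f' z) (vsub G G') := fun z => by
  rw [vval_sub, h z, h' z]
theorem EB.sm (hκ : RE ρ e κ K) (h : EB ρ φ e f G) :
    EB ρ φ e (fun z => κ z * f z) (vsm K G) := fun z => by
  rw [vval_sm, hκ z, h z]
theorem EB.one (h1 : ∀ z, φ z 0 = 1) (h : RE ρ e κ K) : EB ρ φ e κ [K] := fun z => by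
  rw [vval_one (h1 z), h z]

theorem EB.nil : EB ρ φ e (fun _ => 0) [] := fun _ => rfl

/-- sums of vectors -/
def vfs (f : ℕ → Vx) : ℕ → Vx
  | 0 => []
  | n + 1 => vadd (vfs f n) (f n)

theorem vval_vfs (ρ : ℕ → ℝ) (e : ℕ → ℕ) (φ : ℕ → ℝ) (f : ℕ → Vx) (n : ℕ) :
    vval ρ e φ (vfs f n) = ∑ i ∈ Finset.range n, vval ρ e φ (f i) := by
  induction n with
  | zero => rfl
  | succ n ih => rw [vfs, vval_add, ih, Finset.sum_range_succ]

theorem EB.fsum {n : ℕ} {f : Fin n → ι → ℝ} {G : ℕ → Vx} (h : ∀ i : Fin n, EB ρ φ e (f i) (G i)) :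
    EB ρ φ e (fun z => ∑ i, f i z) (vfs G n) := fun z => by
  rw [vval_vfs, Finset.sum_range]
  exact Finset.sum_congr rfl fun i _ => h i z
theorem RE.sub (h : RE ρ e κ K) (h' : RE ρ e κ' K') : RE ρ e (fun z => κ z - κ' z) (K - K') :=
  fun z => by rw [re_sub, h z, h' z]
theorem RE.mul (h : RE ρ e κ K) (h' : RE ρ e κ' K') : RE ρ e (fun z => κ z * κ' z) (K * K') :=
  fun z => by rw [re_mul, h z, h' z]
theorem RE.kc (n : ℕ) : RE ρ e (fun _ => (n : ℝ)) (kc n) := fun _ => kc_val _ _ _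
theorem RE.one : RE ρ e (fun _ => 1) (Sg.kc 1) := fun _ => by rw [kc_val, Nat.cast_one]

/-- a form with the coefficients `F`, the killed mass `K`, the features `a` and the full
features `b` -/
def frmV (F : ℕ → Re) (K : Re) (a b : Q5) : Vx :=
  vadd [F 0 * a.m + F 1 * (K * a.m)] (vadd (vsm (F 2) a.h) (vadd (vsm (F 3) a.g)
    (vadd (vsm (F 4) a.q) (vadd (vsm (F 5) a.e) (vadd (vsm (F 6 * a.m) b.h)
    (vadd (vsm (F 7 * a.m) b.q) (vadd (vsm (F 8 * a.m) b.e) (vadd (vsm (F 9) a.s)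
    (vadd (vsm (F 10 * a.m) b.g) (vsm (F 11 * a.m) b.s))))))))))

theorem frmV_val {ρ : ℕ → ℝ} {φ : ℕ → ℝ} (h1 : φ 0 = 1) {F : ℕ → Re} {f : ℕ → ℝ}
    (hF : ∀ i, (F i).val ρ e = f i) {K : Re} {k : ℝ} (hK : K.val ρ e = k) {a b : Q5}
    {m h g q s e' M H G Q S E : ℝ} (ha : Q5v ρ e φ a m h g q s e') (hb : Q5v ρ e φ b M H G Q S E) :
    vval ρ e φ (frmV F K a b) = frm f ⟨k, m, h, g, q, s, e', M, H, G, Q, S, E⟩ := by
  unfold frmV frm
  simp only [vval_add, vval_sm, vval_one h1, re_add, re_mul, hF, hK, ha.m, ha.h, ha.g, ha.q, ha.s,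
    ha.e, hb.h, hb.g, hb.q, hb.s, hb.e]
  ring

/-- the coefficients of an edge majorant -/
structure EcR where
  c0 : Re
  c1 : Re
  c2 : Re
  c3 : Re
  c4 : Re
  c5 : Re
  c6 : Re
  c7 : Re

/-- the values of the coefficients -/
structure EcR.Is (C : EcR) (ρ : ℕ → ℝ) (e : ℕ → ℕ) (c : Ec) : Prop where
  c0 : C.c0.val ρ e = c.c0
  c1 : C.c1.val ρ e = c.c1
  c2 : C.c2.val ρ e = c.c2
  c3 : C.c3.val ρ e = c.c3
  c4 : C.c4.val ρ e = c.c4
  c5 : C.c5.val ρ e = c.c5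
  c6 : C.c6.val ρ e = c.c6
  c7 : C.c7.val ρ e = c.c7

/-- the sum of an edge majorant over the neighbours; `B`, `C'` the budgets -/
def svV (C : EcR) (a : Q5) (B B' : Vx) : Vx :=
  vadd [C.c0 * a.m] (vadd (vsm C.c1 a.h) (vadd (vsm C.c2 a.g) (vadd (vsm C.c3 a.q)
    (vadd (vsm C.c4 a.s) (vadd (vsm C.c5 a.e) (vadd (vsm C.c6 B) (vsm C.c7 B')))))))

theorem svV_val {ρ : ℕ → ℝ} {φ : ℕ → ℝ} (h1 : φ 0 = 1) {C : EcR} {c : Ec} (hC : C.Is ρ e c)
    {a : Q5} {B B' : Vx} {k m h g q s e' M H G Q S E : ℝ} (ha : Q5v ρ e φ a m h g q s e')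
    (hB : vval ρ e φ B = 2 - k) (hB' : vval ρ e φ B' = 2 - H) :
    vval ρ e φ (svV C a B B') = sv c ⟨k, m, h, g, q, s, e', M, H, G, Q, S, E⟩ := by
  unfold svV sv
  simp only [vval_add, vval_sm, vval_one h1, re_mul, hC.c0, hC.c1, hC.c2, hC.c3, hC.c4, hC.c5,
    hC.c6, hC.c7, ha.m, ha.h, ha.g, ha.q, ha.s, ha.e, hB, hB']
  ring

/-- an edge majorant at the edge of weight `X` to a vertex with the killed mass `K`, full average
`H` -/
def evV (C : EcR) (X K : Re) (H : Vx) : Vx :=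
  vadd [X * (C.c0 + C.c1 * K + C.c2 * (K * (kc 1 - K)) + C.c3 * X + C.c4 * (X * K)) + C.c6 * K]
    (vsm (X * C.c5 + C.c7) H)

theorem evV_val {ρ : ℕ → ℝ} {φ : ℕ → ℝ} (h1 : φ 0 = 1) {C : EcR} {c : Ec} (hC : C.Is ρ e c)
    {X K : Re} {x k h : ℝ} (hX : X.val ρ e = x) (hK : K.val ρ e = k) {H : Vx}
    (hH : vval ρ e φ H = h) : vval ρ e φ (evV C X K H) = ev c x k h := by
  unfold evV ev
  simp only [vval_add, vval_sm, vval_one h1, re_mul, re_add, re_sub, kc_val, hC.c0, hC.c1, hC.c2,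
    hC.c3, hC.c4, hC.c5, hC.c6, hC.c7, hX, hK, hH]
  push_cast
  ring

/-- polynomials `c₀ + X (c₁ + X (c₂ + ..))` -/
def hor (X : Re) : List Re → Re
  | [] => kz
  | a :: l => a + X * hor X l

/-- the real polynomial -/
def horR (x : ℝ) : List ℝ → ℝ
  | [] => 0
  | a :: l => a + x * horR x l

theorem hor_val {ρ : ℕ → ℝ} {X : Re} {x : ℝ} (hX : X.val ρ e = x) :
    ∀ {L : List Re} {l : List ℝ}, List.Forall₂ (fun A a => A.val ρ e = a) L l →
      (hor X L).val ρ e = horR x l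
  | [], [], _ => kz_val _ _
  | A :: L, a :: l, h => by
    obtain ⟨h1, h2⟩ := List.forall₂_cons.1 h
    rw [hor, horR, re_add, re_mul, hX, h1, hor_val hX h2]

end gen

/-! ### the points of the edges to a real neighbour -/

/-- a saturated point with its neighbour -/
structure ZE where
  p : Pt
  x : ℝ
  a : ℝ
  b : ℝ
  h : p.Sat x a b

noncomputable def rE (c : ℝ) (z : ZE) : ℕ → ℝ := rhoE z.p z.x c
noncomputable def fE' (z : ZE) : ℕ → ℝ := phiE z.p z.a z.b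

section zE

variable {c : ℝ} {e : ℕ → ℕ}

theorem RE.k : RE (rE c) e (fun z => z.p.k) eK := fun _ => eK_val _
theorem RE.x : RE (rE c) e (fun z => z.x) eX := fun z => eX_val z.h _
theorem EB.oneE {κ : ZE → ℝ} {K : Re} (h : RE (rE c) e κ K) : EB (rE c) fE' e κ [K] :=
  EB.one (fun _ => rfl) h

/-- excluded features -/
theorem eQ_v (z : ZE) : Q5v (rE c z) e (fE' z) eQ z.p.m z.p.h z.p.g z.p.q z.p.s z.p.e :=
  eQ_val z.h e
/-- full features -/
theorem eF_v (z : ZE) : Q5v (rE c z) e (fE' z) eF z.p.M z.p.H z.p.G z.p.Q z.p.S z.p.E :=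
  eF_val z.h e

theorem EB.fH : EB (rE c) fE' e (fun z => z.p.H) eF.h := fun z => (eF_v z).h
theorem B2k : EB (rE c) fE' e (fun z => 2 - z.p.k) [kc 2 - eK] :=
  (EB.oneE ((RE.kc 2).sub RE.k)).congr fun z => by push_cast; rfl

theorem B2H : EB (rE c) fE' e (fun z => 2 - z.p.H) (vsub [kc 2] eF.h) :=
  ((EB.oneE (RE.kc 2)).sub EB.fH).congr fun z => by push_cast; rfl

/-- the sum of an edge majorant -/
theorem EB.sv {C : EcR} {m : Ec} (hC : ∀ z, C.Is (rE c z) e m) :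
    EB (rE c) fE' e (fun z => RCO.sv m z.p) (svV C eQ [kc 2 - eK] (vsub [kc 2] eF.h)) := fun z =>
  svV_val (k := z.p.k) (H := z.p.H) rfl (hC z) (eQ_v z) (B2k z) (B2H z)

/-- the edge majorant of the neighbour -/
theorem EB.ev {C : EcR} {m : Ec} (hC : ∀ z, C.Is (rE c z) e m) :
    EB (rE c) fE' e (fun z => RCO.ev m z.x z.p.k z.p.H) (evV C eX eK eF.h) := fun z =>
  evV_val rfl (hC z) (RE.x z) (RE.k z) (EB.fH z)

end zE

/-! ### the points of the edges to a pendant neighbour -/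

structure ZP where
  p : Pt
  x : ℝ
  a : ℝ
  b : ℝ
  h : p.Pend x a b

noncomputable def rP (c : ℝ) (z : ZP) : ℕ → ℝ := rhoP z.x c
noncomputable def fP' (z : ZP) : ℕ → ℝ := phiP z.a z.b

section zP

end zP

/-! ### the vertices in arbitrary worlds -/

section zV

end zV

/-! ### the table as functions of time -/

/-- the row of the step `j` -/
noncomputable def rwd (D R j : ℕ) : ℕ → ℕ := fun k => g D (R * j + k)

/-- unsigned and signed entries as functions of time -/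
noncomputable def uT (D R : ℕ) (t : ℕ → ℝ) (n i : ℕ) (r : ℝ) : ℝ := pl t (fun j => un D R i j) n r
noncomputable def sT (D R : ℕ) (t : ℕ → ℝ) (n i : ℕ) (r : ℝ) : ℝ := pl t (fun j => sn D R i j) n r

/-- the time `r` in the step `j` of the mesh `t 0 < ... < t n` -/
structure Stp (t : ℕ → ℝ) (n j : ℕ) (r : ℝ) : Prop where
  msh : Msh t n
  lt : j < n
  mem : r ∈ Icc (t j) (t (j + 1))

section time

variable {D R n j i : ℕ} {t : ℕ → ℝ} {r : ℝ} {ρ : ℕ → ℝ}

theorem Stp.c0 (h : Stp t n j r) : 0 ≤ stc t j r := stc_nonneg h.msh h.lt h.mem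
theorem Stp.c1 (h : Stp t n j r) : stc t j r ≤ 1 := stc_le_one h.msh h.lt h.mem

theorem Stp.ul (h : Stp t n j r) (D R i : ℕ) : ul (stc t j r) D R i j = uT D R t n i r :=
  (pl_stc h.msh h.lt h.mem).symm
theorem Stp.sl (h : Stp t n j r) (D R i : ℕ) : sl (stc t j r) D R i j = sT D R t n i r :=
  (pl_stc h.msh h.lt h.mem).symm

theorem Stp.lr (h : Stp t n j r) (h2 : ρ 2 = stc t j r) (i : ℕ) :
    (lr R i).val ρ (rwd D R j) = uT D R t n i r := by
  rw [← h.ul, ← h2]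
  exact lr_val ρ D R j i
theorem Stp.ls (h : Stp t n j r) (h2 : ρ 2 = stc t j r) (i : ℕ) :
    (ls' R i).val ρ (rwd D R j) = sT D R t n i r := by
  rw [← h.sl, ← h2]
  exact ls_val ρ D R j i
theorem Stp.plr (h : Stp t n j r) (h2 : ρ 2 = stc t j r) (p i d : ℕ) :
    (plr R p i d).val ρ (rwd D R j) = bp (fun i => uT D R t n i r) (ρ p) i d := by
  have := plr_val ρ D R j p i d
  rw [h2] at this
  refine this.trans ?_
  congr 1
  funext i
  exact h.ul D R i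

theorem rwd_kr (i : ℕ) : (kr i).val ρ (rwd D R j) = un D R i j := kr_val ρ D R j i
theorem rwd_ks (i : ℕ) : (ks i).val ρ (rwd D R j) = sn D R i j := ks_val ρ D R j i
theorem rwd_kr1 (i : ℕ) : (kr (R + i)).val ρ (rwd D R j) = un D R i (j + 1) := by
  refine (rwd_kr (R + i)).trans ?_
  unfold un Sg.nv
  rw [show R * j + (R + i) = R * (j + 1) + i by ring]
theorem rwd_ks1 (i : ℕ) : (ks (R + i)).val ρ (rwd D R j) = sn D R i (j + 1) := by
  refine (rwd_ks (R + i)).trans ?_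
  unfold sn Sg.sv
  rw [show R * j + (R + i) = R * (j + 1) + i by ring]
end time

end Pool.Agent.RZ.RCO
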