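import Pool.Agent.RZ.RCO.Gl3

/-! The checks of level 1/2 at one time from lines which do not depend on the vertex
(MP_73ccd0_lc). -/

set_option autoImplicit false

namespace Pool.Agent.RZ.RCO

open Set Finset

/-- a bound of the factor of the decreasing sources -/
theorem bmx_add {a b c d : ℝ} (h : a ≤ c) (h' : b ≤ d) (c0 : 0 ≤ c) (d0 : 0 ≤ d) (a1 : a ≤ 1)
    (b1 : b ≤ 1) : bmx a b ≤ c + d := by
  unfold bmx
  refine max_le (add_nonneg c0 d0) ?_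
  rcases le_total 0 a with ha | ha
  · rcases le_total 0 b with hb | hb
    · nlinarith [mul_nonneg ha hb]
    · nlinarith [mul_nonneg (neg_nonneg.2 hb) (sub_nonneg.2 a1)]
  · nlinarith [mul_nonneg (neg_nonneg.2 ha) (sub_nonneg.2 b1)]

/-- the lines at one time, with the coefficient vectors of the edge lines -/
structure Lk12 {Λ : Type*} [Fintype Λ] (R : ℝ → ℝ) (Rp : ℝ) (W : Pt → ℝ) (Wp : ℝ → ℝ) (Nr : Pt → ℝ)
    (Np : ℝ → ℝ) (wv : Λ → Pt → ℝ) (Φ Φ' Ψ : Bool → Λ → Pt → ℝ)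
    (C C' Cψ : Bool → Λ → ℝ) (Gp Gm : Λ → Λ → ℝ) (nr : Λ → Pt → ℝ) (ni : Pt → ℝ) (np Dk : ℝ → ℝ)
    (cA cB cM c1 cT cP cN : Λ → Ec) (cD : Ec) (dp dm : Λ → ℝ) : Prop where
  R0 : ∀ (p : Pt) (x a b : ℝ), p.Sat x a b → 0 ≤ R x
  Rp0 : 0 ≤ Rp
  W1 : ∀ (p : Pt) (x a b : ℝ), p.Sat x a b → 1 ≤ W p.full
  wv0 : ∀ l, ∀ (p : Pt) (x a b : ℝ), p.Sat x a b → 0 ≤ wv l p.full
  wvp : ∀ l, ∀ (p : Pt) (x a b : ℝ), p.Pend x a b → 0 ≤ wv l p.full
  Ψ0 : ∀ s l, ∀ (p : Pt) (x a b : ℝ), p.Sat x a b → 0 ≤ Ψ s l p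
  n0 : ∀ l, ∀ (p : Pt) (x a b : ℝ), p.Sat x a b → 0 ≤ nr l p.full
  nN : ∀ l, ∀ (p : Pt) (x a b : ℝ), p.Sat x a b → Nr p.full ≤ nr l p.full
  i0 : ∀ (p : Pt) (x a b : ℝ), p.Sat x a b → 0 ≤ ni p.full
  iN : ∀ (p : Pt) (x a b : ℝ), p.Sat x a b → Nr p.full ≤ ni p.full
  N1 : ∀ (p : Pt) (x a b : ℝ), p.Sat x a b → Nr p.full ≤ 1
  n0p : ∀ x : ℝ, 0 ≤ x → x ≤ 1 → 0 ≤ np x
  nNp : ∀ x : ℝ, 0 ≤ x → x ≤ 1 → Np x ≤ np x
  N1p : ∀ x : ℝ, 0 ≤ x → x ≤ 1 → Np x ≤ 1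
  eA : ∀ l, ELn R Rp (fun q => wv l q.full * (W q.full - 1) + W q.full * Ψ false l q)
    (fun q => wv l q.full * (Wp q.M - 1)) (cA l)
  eB : ∀ l, ELn R Rp (fun q => W q.full * (wv l q.full + Ψ false l q))
    (fun q => wv l q.full * Wp q.M) (cB l)
  eM : ∀ l, ELn R Rp (fun q => wv l q.full * nr l q.full + W q.full * Ψ true l q)
    (fun q => wv l q.full * np q.M) (cM l)
  e1 : ∀ l, ELn R Rp (fun q => wv l q.full) (fun q => wv l q.full) (c1 l)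
  eT : ∀ l, ELn R Rp (fun q => W q.full * Ψ true l q) (fun _ => 0) (cT l)
  eD : ELn R Rp (fun q => W q.full) (fun q => Wp q.M) cD
  eP : ∀ l, ELn R Rp (fun q => W q.full * ((Ψ true l q + Ψ true l q.full) / 2))
    (fun q => Wp q.M * (Cψ true l * q.M / 2)) (cP l)
  eN : ∀ l, ELn R Rp (fun q => W q.full * (wv l q.full + (Ψ false l q + Ψ false l q.full) / 2))
    (fun q => Wp q.M * (wv l q.full + Cψ false l * q.M / 2)) (cN l)
  D : ∀ p : Pt, p.Sat 0 0 0 → p = p.full → sv cD p ≤ Dk p.k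
  vp : ∀ l, ∀ (p : Pt) (x a b : ℝ), p.Sat x a b → sv (cA l) p + (W p.full - 1) * sv (cB l) p
    + ∑ m, (Gp l m * Φ true m p + Gm l m * Φ false m p) ≤ -Φ' true l p
  vm : ∀ l, ∀ (p : Pt) (x a b : ℝ), p.Sat x a b → sv (cM l) p + ni p.full * sv (c1 l) p
    + (W p.full - 1) * sv (cT l) p + ∑ m, (Gp l m * Φ false m p + Gm l m * Φ true m p)
      ≤ -Φ' false l p
  pp : ∀ l, ∀ p : Pt, p.Sat 0 0 0 → p = p.full → W p * (Ψ true l p * Dk p.k + sv (cP l) p)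
    ≤ ∑ m, Gp l m * wv m p
  pm : ∀ l, ∀ p : Pt, p.Sat 0 0 0 → p = p.full → W p * (Ψ false l p * Dk p.k + sv (cN l) p)
    ≤ ∑ m, Gm l m * wv m p
  op : ∀ l, OLx Rp (fun x p => wv l p.full * (Wp x * W p.full - 1) + Wp x * W p.full * Ψ false l p)
    (dp l)
  om : ∀ l, OLx Rp (fun x p => wv l p.full * (np x + nr l p.full) + Wp x * W p.full * Ψ true l p)
    (dm l)
  hp : ∀ l, dp l + ∑ m, (Gp l m * C true m + Gm l m * C false m) ≤ -C' true l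
  hm : ∀ l, dm l + ∑ m, (Gp l m * C false m + Gm l m * C true m) ≤ -C' false l
  qp : ∀ l, ∀ (p : Pt) (x : ℝ), p.Sat x 0 (x * p.k) →
    x * Rp * (Wp x * W p.full) * (Cψ true l * x + (Ψ true l p + Ψ true l p.full) / 2)
      ≤ ∑ m, Gp l m * wv m (pnd x p)
  qm : ∀ l, ∀ (p : Pt) (x : ℝ), p.Sat x 0 (x * p.k) →
    x * Rp * (Wp x * W p.full) * (wv l p.full
      + (Cψ false l * x + (Ψ false l p + Ψ false l p.full) / 2)) ≤ ∑ m, Gm l m * wv m (pnd x p)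

/-- the same coefficient vector, other functions -/
theorem EL.congr {a b : ℝ} {R : ℝ → ℝ} {Rp : ℝ} {G G' Gp Gp' : Pt → ℝ} {c : Ec}
    (h : EL a b R Rp G Gp c) (hG : ∀ q, G' q = G q) (hp : ∀ q, Gp' q = Gp q) :
    EL a b R Rp G' Gp' c := by
  have e1 : G' = G := funext hG
  have e2 : Gp' = Gp := funext hp
  rw [e1, e2]
  exact h

theorem Lk12.c12 {Λ : Type*} [Fintype Λ] {R : ℝ → ℝ} {Rp : ℝ} {W : Pt → ℝ} {Wp : ℝ → ℝ} {Nr : Pt → ℝ}
    {Np : ℝ → ℝ} {wv : Λ → Pt → ℝ} {Φ Φ' Ψ : Bool → Λ → Pt → ℝ}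
    {C C' Cψ : Bool → Λ → ℝ} {Gp Gm : Λ → Λ → ℝ} {nr : Λ → Pt → ℝ} {ni : Pt → ℝ} {np Dk : ℝ → ℝ}
    {cA cB cM c1 cT cP cN : Λ → Ec} {cD : Ec} {dp dm : Λ → ℝ}
    (h : Lk12 R Rp W Wp Nr Np wv Φ Φ' Ψ C C' Cψ Gp Gm nr ni np Dk cA cB cM c1 cT cP cN cD dp dm) :
    C12 R Rp W Wp Nr Np wv Φ Φ' Ψ C C' Cψ Gp Gm where
  vp l p x a b hp := by
    have w1 := h.W1 p x a b hp
    refine ⟨(cA l).add ((cB l).smul (W p.full - 1)), ?_, ?_⟩
    · refine (((h.eA l).at' p.k p.H).add (((h.eB l).at' p.k p.H).smul (by linarith))).congr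
        (fun q => ?_) fun q => ?_
      · ring
      · ring
    · rw [sv_add, sv_smul]
      exact h.vp l p x a b hp
  vm l p x a b hp := by
    have w1 := h.W1 p x a b hp
    refine ⟨((cM l).add ((c1 l).smul (ni p.full))).add ((cT l).smul (W p.full - 1)), ?_, ?_⟩
    · have k1 := ((((h.eM l).at' p.k p.H).add (((h.e1 l).at' p.k p.H).smul
        (h.i0 p x a b hp))).add (((h.eT l).at' p.k p.H).smul (by linarith : 0 ≤ W p.full - 1)))
      refine k1.mono (fun q y hq => h.R0 q y _ _ hq) h.Rp0 (fun q y hq => ?_) fun q y hq => ?_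
      · have b1 := bmx_add (h.iN p x a b hp) (h.nN l q _ _ _ hq) (h.i0 p x a b hp)
          (h.n0 l q _ _ _ hq) (h.N1 p x a b hp) (h.N1 q _ _ _ hq)
        have b2 := mul_le_mul_of_nonneg_left b1 (h.wv0 l q _ _ _ hq)
        linarith
      · have M0 : 0 ≤ q.M := by
          rw [hq.M]
          exact hq.x0
        have M1 : q.M ≤ 1 := by
          rw [hq.M]
          linarith [hq.ab, hq.a0, hq.b0]
        have b1 := bmx_add (h.iN p x a b hp) (h.nNp q.M M0 M1) (h.i0 p x a b hp)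
          (h.n0p q.M M0 M1) (h.N1 p x a b hp) (h.N1p q.M M0 M1)
        have b2 := mul_le_mul_of_nonneg_left b1 (h.wvp l q _ _ _ hq)
        linarith
    · rw [sv_add, sv_add, sv_smul, sv_smul]
      exact h.vm l p x a b hp
  pp l p hp hf := by
    have w1 := h.W1 p _ _ _ hp
    rw [← hf] at w1
    refine ⟨((cD.smul (Ψ true l p)).add (cP l)).smul (W p), ?_, ?_⟩
    · refine ((((h.eD.at' p.k p.H).smul (h.Ψ0 true l p _ _ _ hp)).add
        ((h.eP l).at' p.k p.H)).smul (by linarith : 0 ≤ W p)).congr (fun q => ?_) fun q => ?_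
      · ring
      · ring
    · rw [sv_smul, sv_add, sv_smul]
      have d1 := mul_le_mul_of_nonneg_left (h.D p hp hf) (h.Ψ0 true l p _ _ _ hp)
      have d2 := mul_le_mul_of_nonneg_left (add_le_add_left d1 (sv (cP l) p))
        (by linarith : 0 ≤ W p)
      exact le_trans d2 (h.pp l p hp hf)
  pm l p hp hf := by
    have w1 := h.W1 p _ _ _ hp
    rw [← hf] at w1
    refine ⟨((cD.smul (Ψ false l p)).add (cN l)).smul (W p), ?_, ?_⟩
    · refine ((((h.eD.at' p.k p.H).smul (h.Ψ0 false l p _ _ _ hp)).add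
        ((h.eN l).at' p.k p.H)).smul (by linarith : 0 ≤ W p)).congr (fun q => ?_) fun q => ?_
      · ring
      · ring
    · rw [sv_smul, sv_add, sv_smul]
      have d1 := mul_le_mul_of_nonneg_left (h.D p hp hf) (h.Ψ0 false l p _ _ _ hp)
      have d2 := mul_le_mul_of_nonneg_left (add_le_add_left d1 (sv (cN l) p))
        (by linarith : 0 ≤ W p)
      exact le_trans d2 (h.pm l p hp hf)
  dp l := ⟨dp l, h.op l, h.hp l⟩
  dm l := by
    refine ⟨dm l, fun p x hp => ?_, h.hm l⟩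
    refine le_trans ?_ (h.om l p x hp)
    refine mul_le_mul_of_nonneg_left ?_ h.Rp0
    have x1 : x ≤ 1 := by linarith [hp.ax, hp.a0]
    have b1 := bmx_add (h.nNp x hp.x0 x1) (h.nN l p _ _ _ hp) (h.n0p x hp.x0 x1)
      (h.n0 l p _ _ _ hp) (h.N1p x hp.x0 x1) (h.N1 p _ _ _ hp)
    have b2 := mul_le_mul_of_nonneg_left b1 (h.wv0 l p _ _ _ hp)
    linarith
  qp l p x hp := h.qp l p x hp
  qm l p x hp := h.qm l p x hp

end Pool.Agent.RZ.RCO
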