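import Pool.Agent.RZ.RCO.Gk3

/-! More lines of the packed checker: full points, neighbours of pendant vertices; the sheet of all
lines of a table (MP_73ccd0_lc). -/

set_option autoImplicit false

namespace Pool.Agent.RZ.RCO

open Sg Set

/-! ### full points

variable: `K = k`, `L = 1 - k = M`; features `1, H, G, Q, S, E` -/

noncomputable def phiF (p : Pt) : ℕ → ℝ
  | 0 => 1
  | 1 => p.H
  | 2 => p.G
  | 3 => p.Q
  | 4 => p.S
  | 5 => p.E
  | _ => 0

/-- the full features -/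
def fF : Q5 := ⟨eL, [kz, kc 1], [kz, kz, kc 1], [kz, kz, kz, kc 1], [kz, kz, kz, kz, kc 1],
  [kz, kz, kz, kz, kz, kc 1]⟩

/-- a real vertex with its full features -/
structure ZFu where
  p : Pt
  h : p.Live

noncomputable def rF (c : ℝ) (z : ZFu) : ℕ → ℝ := rho3 z.p.k 0 c
noncomputable def fF' (z : ZFu) : ℕ → ℝ := phiF z.p

def FF.vec (a : Fa) : Vx := a.vec eK [kc 2 - eK] (vsub [kc 2] fF.h) fF

section zF

variable {c : ℝ} {e : ℕ → ℕ}

theorem rF0 (c0 : 0 ≤ c) (z : ZFu) (i : ℕ) : 0 ≤ rF c z i := rho3_nonneg z.h.k0 le_rfl c0 i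
theorem rF1 (c1 : c ≤ 1) (z : ZFu) (i : ℕ) : rF c z i ≤ 1 := rho3_le z.h.kS zero_le_one c1 i

theorem fF'_nonneg (z : ZFu) (i : ℕ) : 0 ≤ fF' z i := by
  unfold fF' phiF
  split
  · exact zero_le_one
  · exact z.h.F.h0
  · exact z.h.F.g0
  · exact z.h.F.q0
  · exact z.h.F.s0
  · exact z.h.F.e0
  · exact le_rfl

theorem RE.kF : RE (rF c) e (fun z => z.p.k) eK := fun _ => eK_v3 _ _ _ _
theorem RE.LF : RE (rF c) e (fun z => 1 - z.p.k) eL := fun _ => eL_v3 _ _ _ _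

theorem EB.oneF {κ : ZFu → ℝ} {K : Re} (h : RE (rF c) e κ K) : EB (rF c) fF' e κ [K] :=
  EB.one (fun _ => rfl) h

theorem fF_v (z : ZFu) : Q5v (rF c z) e (fF' z) fF z.p.M z.p.H z.p.G z.p.Q z.p.S z.p.E := by
  refine ⟨?_, ?_, ?_, ?_, ?_, ?_⟩
  · rw [show fF.m = eL from rfl, RE.LF]
    linarith [z.h.row]
  all_goals simp [fF, vval, kz_val, kc_val, fF', phiF]

theorem F2k : EB (rF c) fF' e (fun z => 2 - z.p.k) [kc 2 - eK] :=
  (EB.oneF ((RE.kc 2).sub RE.kF)).congr fun z => by push_cast; rfl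

theorem F2H : EB (rF c) fF' e (fun z => 2 - z.p.H) (vsub [kc 2] fF.h) := fun z => by
  rw [vval_sub, vval_one rfl, kc_val, (fF_v z).h]
  push_cast
  rfl

theorem EB.svF' {C : EcR} {m : Ec} (hC : ∀ z, C.Is (rF c z) e m) :
    EB (rF c) fF' e (fun z => RCO.sv m z.p.full) (svV C fF [kc 2 - eK] (vsub [kc 2] fF.h)) :=
  fun z => svV_val (k := z.p.k) (H := z.p.H) rfl (hC z) (fF_v z) (F2k z) (F2H z)

theorem FF.true (z : ZFu) (f : Fa) : 0 ≤ vval (rF c z) e (fF' z) (FF.vec f) := by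
  have H1 : z.p.H ≤ 1 := by linarith [z.h.F.hm, z.h.F.q0, z.h.F.km, z.h.k0]
  exact Fa.true rfl (RE.kF z) (F2k z) (F2H z) (fF_v z) (z.h.F.fcb z.h.k0 H1 z.h.FX) f

end zF

/-- a line of a full point -/
structure LnF where
  lhs : Vx
  rhs : Vx
  fs : List (Re × Fa)

def LnF.ty (l : LnF) : List Ty := vty (cert l.lhs l.rhs (fmap FF.vec l.fs))

theorem LnF.le {l : LnF} {ts : List Ty} {R m D j0 n : ℕ} (hp : mpos l.fs = true)
    (hs : shps ts m = true) (h : steps ts R m D j0 n = true) (hsub : ∀ T ∈ l.ty, T ∈ ts)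
    {j : ℕ} (h0 : j0 ≤ j) (h1 : j < j0 + n) (z : ZFu) {c : ℝ} (c0 : 0 ≤ c) (c1 : c ≤ 1) :
    vval (rF c z) (rwd D R j) (fF' z) l.lhs ≤ vval (rF c z) (rwd D R j) (fF' z) l.rhs :=
  cert_le (fpos_of hp) hs h hsub h0 h1 (rF0 c0 z) (rF1 c1 z) (fF'_nonneg z)
    (fmap_true (fun f => FF.true z f) l.fs)

/-! ### the neighbour of a pendant vertex

variables as for an edge; features `1, h, g, q, s, e`; `a = 0`, `b = x k` -/

structure ZO where
  p : Pt
  x : ℝ
  h : p.Sat x 0 (x * p.k)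

noncomputable def phiO (p : Pt) : ℕ → ℝ
  | 0 => 1
  | 1 => p.h
  | 2 => p.g
  | 3 => p.q
  | 4 => p.s
  | 5 => p.e
  | _ => 0

noncomputable def rO (c : ℝ) (z : ZO) : ℕ → ℝ := rhoE z.p z.x c
noncomputable def fO' (z : ZO) : ℕ → ℝ := phiO z.p

/-- the features without the pendant vertex; full; of the pendant vertex itself -/
def oQ : Q5 := ⟨eZ, [kz, kc 1], [kz, kz, kc 1], [kz, kz, kz, kc 1], [kz, kz, kz, kz, kc 1],
  [kz, kz, kz, kz, kz, kc 1]⟩
def oF : Q5 := ⟨eL, [kz, kc 1], [kz, kz, kc 1], [eX * eX, kz, kz, kc 1], [kz, kz, kz, kz, kc 1],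
  [eX * (eX * eK), kz, kz, kz, kz, kc 1]⟩
inductive FO
  | f (b : Bool) (a : Fa)

def FO.vec : FO → Vx
  | .f false a => a.vec eK [kc 2 - eK] (vsub (vsub [kc 2] oF.h) [eX * eK]) oQ
  | .f true a => a.vec eK [kc 2 - eK] (vsub [kc 2] oF.h) oF

section zO

variable {c : ℝ} {e : ℕ → ℕ}

theorem rO0 (c0 : 0 ≤ c) (z : ZO) (i : ℕ) : 0 ≤ rO c z i := rhoE0 z.h c0 i
theorem rO1 (c1 : c ≤ 1) (z : ZO) (i : ℕ) : rO c z i ≤ 1 := rhoE1 z.h c1 i

theorem fO'_nonneg (z : ZO) (i : ℕ) : 0 ≤ fO' z i := by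
  unfold fO' phiO
  split
  · exact zero_le_one
  · exact z.h.f.h0
  · exact z.h.f.g0
  · exact z.h.f.q0
  · exact z.h.f.s0
  · exact z.h.f.e0
  · exact le_rfl

theorem RE.kO : RE (rO c) e (fun z => z.p.k) eK := fun _ => eK_val _
theorem RE.LO : RE (rO c) e (fun z => 1 - z.p.k) eL := fun _ => eL_val _
theorem RE.xO : RE (rO c) e (fun z => z.x) eX := fun z => eX_val z.h _

theorem oQ_v (z : ZO) : Q5v (rO c z) e (fO' z) oQ z.p.m z.p.h z.p.g z.p.q z.p.s z.p.e := by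
  refine ⟨eZ_val z.h e, ?_, ?_, ?_, ?_, ?_⟩ <;>
    simp [oQ, vval, kz_val, kc_val, fO', phiO]

theorem oF_v (z : ZO) : Q5v (rO c z) e (fO' z) oF z.p.M z.p.H z.p.G z.p.Q z.p.S z.p.E := by
  have hX := fun e => RE.xO (c := c) (e := e) z
  have hK := fun e => RE.kO (c := c) (e := e) z
  refine ⟨?_, ?_, ?_, ?_, ?_, ?_⟩
  · rw [show oF.m = eL from rfl, RE.LO]
    linarith [z.h.row]
  · simp only [oF, vval, kz_val, kc_val, fO', phiO, ← z.h.h]
    push_cast
    ring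
  · simp only [oF, vval, kz_val, kc_val, fO', phiO, ← z.h.g]
    push_cast
    ring
  · simp only [oF, vval, kz_val, kc_val, re_mul, hX, fO', phiO, ← z.h.q]
    push_cast
    ring
  · simp only [oF, vval, kz_val, kc_val, fO', phiO, ← z.h.s]
    push_cast
    ring
  · simp only [oF, vval, kz_val, kc_val, re_mul, hX, hK, fO', phiO, ← z.h.e]
    push_cast
    ring

theorem FO.true (z : ZO) (f : FO) : 0 ≤ vval (rO c z) e (fO' z) f.vec := by
  have H1 : z.p.H ≤ 1 := by linarith [z.h.F.hm, z.h.F.q0, z.h.F.km, z.h.k0]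
  have b1 : vval (rO c z) e (fO' z) [kc 2 - eK] = 2 - z.p.k := by
    rw [vval_one rfl, re_sub, kc_val, RE.kO z]
    push_cast
    rfl
  have b2 : vval (rO c z) e (fO' z) (vsub [kc 2] oF.h) = 2 - z.p.H := by
    rw [vval_sub, vval_one rfl, kc_val, (oF_v z).h]
    push_cast
    rfl
  have hf := z.h.fcb
  rw [sub_zero] at hf
  cases f with
  | f b a =>
    cases b with
    | false =>
      refine Fa.true rfl (RE.kO z) b1 ?_ (oQ_v z) hf a
      rw [vval_sub, b2, vval_one rfl, re_mul, RE.xO z, RE.kO z]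
    | true => exact Fa.true rfl (RE.kO z) b1 b2 (oF_v z) (z.h.F.fcb z.h.k0 H1 z.h.FX) a

end zO

structure LnO where
  lhs : Vx
  rhs : Vx
  fs : List (Re × FO)

def LnO.ty (l : LnO) : List Ty := vty (cert l.lhs l.rhs (fmap FO.vec l.fs))

theorem LnO.le {l : LnO} {ts : List Ty} {R m D j0 n : ℕ} (hp : mpos l.fs = true)
    (hs : shps ts m = true) (h : steps ts R m D j0 n = true) (hsub : ∀ T ∈ l.ty, T ∈ ts)
    {j : ℕ} (h0 : j0 ≤ j) (h1 : j < j0 + n) (z : ZO) {c : ℝ} (c0 : 0 ≤ c) (c1 : c ≤ 1) :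
    vval (rO c z) (rwd D R j) (fO' z) l.lhs ≤ vval (rO c z) (rwd D R j) (fO' z) l.rhs :=
  cert_le (fpos_of hp) hs h hsub h0 h1 (rO0 c0 z) (rO1 c1 z) (fO'_nonneg z)
    (fmap_true (fun f => FO.true z f) l.fs)

/-! ### the sheet -/

/-- the lines of a table: edges to real neighbours, to pendant neighbours, full points, neighbours
of pendant vertices, inequalities between expressions -/
structure Sheet where
  e : List LnE
  p : List LnP
  f : List LnF
  o : List LnO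
  s : List (Re × Re)

/-- the type of an inequality between expressions -/
def tyS (a : Re × Re) : List Ty := vty [a.2 - a.1]

def Sheet.ty (S : Sheet) : List Ty :=
  S.e.flatMap LnE.ty ++ (S.p.flatMap LnP.ty ++ (S.f.flatMap LnF.ty ++ (S.o.flatMap LnO.ty ++
    S.s.flatMap tyS)))

def Sheet.mp (S : Sheet) : Bool :=
  (S.e.all fun l => mpos l.fs) && ((S.p.all fun l => mpos l.fs) && ((S.f.all fun l => mpos l.fs)
    && (S.o.all fun l => mpos l.fs)))

/-- the check of the rows `j0 ≤ j < j0 + n` -/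
noncomputable def Sheet.chk (S : Sheet) (R m D j0 n : ℕ) : Bool :=
  S.mp && (shps S.ty m && steps S.ty R m D j0 n)

/-- **the lines are true** at the row `j` -/
structure Sheet.At (S : Sheet) (D R j : ℕ) : Prop where
  e : ∀ l ∈ S.e, ∀ c : ℝ, 0 ≤ c → c ≤ 1 → ∀ z : ZE,
    vval (rE c z) (rwd D R j) (fE' z) l.lhs ≤ vval (rE c z) (rwd D R j) (fE' z) l.rhs
  p : ∀ l ∈ S.p, ∀ c : ℝ, 0 ≤ c → c ≤ 1 → ∀ z : ZP,
    vval (rP c z) (rwd D R j) (fP' z) l.lhs ≤ vval (rP c z) (rwd D R j) (fP' z) l.rhs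
  f : ∀ l ∈ S.f, ∀ c : ℝ, 0 ≤ c → c ≤ 1 → ∀ z : ZFu,
    vval (rF c z) (rwd D R j) (fF' z) l.lhs ≤ vval (rF c z) (rwd D R j) (fF' z) l.rhs
  o : ∀ l ∈ S.o, ∀ c : ℝ, 0 ≤ c → c ≤ 1 → ∀ z : ZO,
    vval (rO c z) (rwd D R j) (fO' z) l.lhs ≤ vval (rO c z) (rwd D R j) (fO' z) l.rhs
  s : ∀ a ∈ S.s, ∀ ρ : ℕ → ℝ, (∀ p, 0 ≤ ρ p) → (∀ p, ρ p ≤ 1) →
    a.1.val ρ (rwd D R j) ≤ a.2.val ρ (rwd D R j)

theorem Sheet.at {S : Sheet} {R m D j0 n : ℕ} (h : S.chk R m D j0 n = true) {j : ℕ} (h0 : j0 ≤ j)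
    (h1 : j < j0 + n) : S.At D R j := by
  unfold Sheet.chk Sheet.mp at h
  simp only [Bool.and_eq_true, List.all_eq_true] at h
  obtain ⟨⟨m1, m2, m3, m4⟩, hs, hst⟩ := h
  refine ⟨fun l hl c c0 c1 z => ?_, fun l hl c c0 c1 z => ?_, fun l hl c c0 c1 z => ?_,
    fun l hl c c0 c1 z => ?_, fun a ha ρ r0 r1 => ?_⟩
  · refine LnE.le (m1 l hl) hs hst (fun T hT => ?_) h0 h1 z.h c0 c1
    unfold Sheet.ty
    simp only [List.mem_append]
    exact Or.inl (List.mem_flatMap.2 ⟨l, hl, hT⟩)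
  · refine LnP.le (m2 l hl) hs hst (fun T hT => ?_) h0 h1 z.h c0 c1
    unfold Sheet.ty
    simp only [List.mem_append]
    exact Or.inr (Or.inl (List.mem_flatMap.2 ⟨l, hl, hT⟩))
  · refine LnF.le (m3 l hl) hs hst (fun T hT => ?_) h0 h1 z c0 c1
    unfold Sheet.ty
    simp only [List.mem_append]
    exact Or.inr (Or.inr (Or.inl (List.mem_flatMap.2 ⟨l, hl, hT⟩)))
  · refine LnO.le (m4 l hl) hs hst (fun T hT => ?_) h0 h1 z c0 c1
    unfold Sheet.ty
    simp only [List.mem_append]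
    exact Or.inr (Or.inr (Or.inr (Or.inl (List.mem_flatMap.2 ⟨l, hl, hT⟩))))
  · have key := vval_nonneg (ρ := ρ) (e := rwd D R j) [a.2 - a.1] (fun _ => 1)
      (fun _ => zero_le_one) fun T hT => steps_le hs hst h0 h1 (by
        unfold Sheet.ty
        simp only [List.mem_append]
        exact Or.inr (Or.inr (Or.inr (Or.inr (List.mem_flatMap.2 ⟨a, ha, hT⟩))))) r0 r1
    rw [vval_one rfl, re_sub] at key
    linarith

/-- the union of two sheets -/
def Sheet.app (S T : Sheet) : Sheet :=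
  ⟨S.e ++ T.e, S.p ++ T.p, S.f ++ T.f, S.o ++ T.o, S.s ++ T.s⟩

theorem Sheet.At.left {S T : Sheet} {D R j : ℕ} (h : (S.app T).At D R j) : S.At D R j :=
  ⟨fun l hl => h.e l (List.mem_append_left _ hl), fun l hl => h.p l (List.mem_append_left _ hl),
    fun l hl => h.f l (List.mem_append_left _ hl), fun l hl => h.o l (List.mem_append_left _ hl),
    fun l hl => h.s l (List.mem_append_left _ hl)⟩

theorem Sheet.At.right {S T : Sheet} {D R j : ℕ} (h : (S.app T).At D R j) : T.At D R j :=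
  ⟨fun l hl => h.e l (List.mem_append_right _ hl), fun l hl => h.p l (List.mem_append_right _ hl),
    fun l hl => h.f l (List.mem_append_right _ hl), fun l hl => h.o l (List.mem_append_right _ hl),
    fun l hl => h.s l (List.mem_append_right _ hl)⟩

/-! ### expressions which do not use all pairs -/

end Pool.Agent.RZ.RCO

namespace Pool.Agent.RZ.RCO.Sg

/-- the value depends on the pairs with `f p = true` only -/
def Ex.us (f : ℕ → Bool) : Ex → Bool
  | .c _ => true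
  | .v p => f p
  | .q p => f p
  | .w _ _ => true
  | .u p l => f p || Nat.ble l.length 1
  | .r p _ _ n => f p || Nat.ble n 1
  | .s p _ _ n => f p || Nat.ble n 1
  | .add a b => a.us f && b.us f
  | .sub a b => a.us f && b.us f
  | .mul a b => a.us f && b.us f

theorem hv_short {x y : ℝ} : ∀ l : List ℤ, l.length ≤ 1 → hv x l = hv y l
  | [], _ => rfl
  | [a], _ => by simp [hv]
  | a :: b :: l, h => by simp at h

theorem us_val {f : ℕ → Bool} {ρ ρ' : ℕ → ℝ} (h : ∀ p, f p = true → ρ p = ρ' p) (e : ℕ → ℕ)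
    (a : Ex) (ha : a.us f = true) : a.val ρ e = a.val ρ' e := by
  induction a with
  | c n => rfl
  | v p => exact h p ha
  | q p =>
    show 1 - ρ p = 1 - ρ' p
    rw [h p ha]
  | w p n => rfl
  | u p l =>
    simp only [Ex.us, Bool.or_eq_true] at ha
    rcases ha with ha | ha
    · show hv (ρ p) _ = hv (ρ' p) _
      rw [h p ha]
    · exact hv_short _ (by rw [cz_length]; exact Nat.le_of_ble_eq_true ha)
  | r p i t n =>
    simp only [Ex.us, Bool.or_eq_true] at ha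
    rcases ha with ha | ha
    · show hv (ρ p) _ = hv (ρ' p) _
      rw [h p ha]
    · exact hv_short _ (by rw [rl_length]; exact Nat.le_of_ble_eq_true ha)
  | s p i t n =>
    simp only [Ex.us, Bool.or_eq_true] at ha
    rcases ha with ha | ha
    · show hv (ρ p) _ = hv (ρ' p) _
      rw [h p ha]
    · exact hv_short _ (by rw [rl_length]; exact Nat.le_of_ble_eq_true ha)
  | add a b iha ihb =>
    simp only [Ex.us, Bool.and_eq_true] at ha
    show a.val ρ e + b.val ρ e = a.val ρ' e + b.val ρ' e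
    rw [iha ha.1, ihb ha.2]
  | sub a b iha ihb =>
    simp only [Ex.us, Bool.and_eq_true] at ha
    show a.val ρ e - b.val ρ e = a.val ρ' e - b.val ρ' e
    rw [iha ha.1, ihb ha.2]
  | mul a b iha ihb =>
    simp only [Ex.us, Bool.and_eq_true] at ha
    show a.val ρ e * b.val ρ e = a.val ρ' e * b.val ρ' e
    rw [iha ha.1, ihb ha.2]

end Pool.Agent.RZ.RCO.Sg

namespace Pool.Agent.RZ.RCO

open Sg Set

/-- time only; the killed mass and the time -/
def pT (p : ℕ) : Bool := Nat.beq p 2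
def pK (p : ℕ) : Bool := Nat.beq p 0 || Nat.beq p 2

/-- the value at the time coordinate `c` -/
noncomputable def Sg.Re.tv (A : Re) (c : ℝ) (e : ℕ → ℕ) : ℝ := A.val (rho3 0 0 c) e
/-- the value at the killed mass `k` and the time coordinate `c` -/
noncomputable def Sg.Re.kv (A : Re) (c : ℝ) (e : ℕ → ℕ) (k : ℝ) : ℝ := A.val (rho3 k 0 c) e

theorem tv_val {A : Re} (h : A.E.us pT = true) {ρ : ℕ → ℝ} {c : ℝ} (h2 : ρ 2 = c) (e : ℕ → ℕ) :
    A.val ρ e = A.tv c e := by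
  unfold Sg.Re.tv Re.val
  rw [us_val (ρ' := rho3 0 0 c) (fun p hp => ?_) e A.E h]
  have : p = 2 := Nat.eq_of_beq_eq_true hp
  subst this
  exact h2

theorem kv_val' {A : Re} (h : A.E.us pK = true) {ρ : ℕ → ℝ} {k c : ℝ} (h0 : ρ 0 = k / kS)
    (h2 : ρ 2 = c) (e : ℕ → ℕ) : A.val ρ e = A.kv c e k := by
  unfold Sg.Re.kv Re.val
  rw [us_val (ρ' := rho3 k 0 c) (fun p hp => ?_) e A.E h]
  unfold pK at hp
  rw [Bool.or_eq_true] at hp
  rcases hp with hp | hp
  · have : p = 0 := Nat.eq_of_beq_eq_true hp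
    subst this
    exact h0
  · have : p = 2 := Nat.eq_of_beq_eq_true hp
    subst this
    exact h2

end Pool.Agent.RZ.RCO
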