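import Pool.Agent.RZ.RCO.Gk5

/-! The symbolic data of level 1/2 and its lines (MP_73ccd0_lc). -/

set_option autoImplicit false

namespace Pool.Agent.RZ.RCO

open Sg Set

/-- a weight: natural coefficients of the features and a Bernstein polynomial in the scaled killed
mass -/
structure Wf where
  f : ℕ → ℕ
  k : List ℕ
  s : ℕ

/-- the polynomial part -/
def Wf.kR (w : Wf) : Re :=
  match w.k with
  | [] => kz
  | a :: l => ⟨.u 0 (a :: l), w.s⟩

noncomputable def Wf.kv (w : Wf) (k : ℝ) : ℝ := hv (min (k / kS) 1) (cz w.k) / 2 ^ w.s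

/-- the weight as a function of the point -/
noncomputable def Wf.fn (w : Wf) (p : Pt) : ℝ := frm (fun i => (w.f i : ℝ)) p + w.kv p.k

/-- its vector -/
def Wf.vec (w : Wf) (κ K : Re) (b : Q5) : Vx := vadd (frmV (fun i => kc (w.f i)) K b b) [κ]

theorem Wf.kR_val (w : Wf) {ρ : ℕ → ℝ} {k : ℝ} (h0 : ρ 0 = k / kS) (hk : k ≤ kS)
    (e : ℕ → ℕ) : w.kR.val ρ e = w.kv k := by
  unfold Wf.kR Wf.kv
  rw [min_eq_left ((div_le_one kS_pos).2 hk), ← h0]
  split
  · rename_i h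
    rw [h, kz_val]
    simp [cz, hv]
  · rename_i a l h
    rw [h]
    rfl

theorem Wf.kv_nonneg (w : Wf) {k : ℝ} (k0 : 0 ≤ k) : 0 ≤ w.kv k :=
  div_nonneg (hv_nonneg (le_min (div_nonneg k0 kS_pos.le) zero_le_one) (min_le_right _ _) _
    (cz_nonneg _)) (by positivity)

/-- **the symbolic data of level 1/2** -/
structure Sp12 where
  /-- number of the weights -/
  N : ℕ
  /-- rate of a real pair: polynomial in the weight; rate of a pendant pair -/
  RR : List Re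
  Rp : Re
  /-- factor of a vertex: polynomial in the killed mass; of a pendant vertex: in the weight -/
  W : Re
  Wp : List Re
  /-- bounds of the loss at a vertex: form, function of the killed mass; pendant: of the weight -/
  nf : ℕ → Re
  ni : Re
  np : List Re
  /-- bound of the density -/
  Dk : Re
  wv : ℕ → Wf
  /-- the weights which are functions of the killed mass and use the form of the loss -/
  md : ℕ → Bool
  /-- slopes and used values of the forms; used at the neighbours -/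
  sl : Bool → ℕ → ℕ → Re
  us : Bool → ℕ → ℕ → Re
  ps : Bool → ℕ → ℕ → Re
  /-- the same for the constants of the pendant vertices -/
  slp : Bool → ℕ → Re
  usp : Bool → ℕ → Re
  psp : Bool → ℕ → Re
  Gp : ℕ → ℕ → Re
  Gm : ℕ → ℕ → Re
  cA : ℕ → EcR
  cB : ℕ → EcR
  cM : ℕ → EcR
  c1 : ℕ → EcR
  cT : ℕ → EcR
  cP : ℕ → EcR
  cN : ℕ → EcR
  cD : EcR
  dp : ℕ → Re
  dm : ℕ → Re
  /-- facts with their multipliers: kind, weight -/
  fe : ℕ → ℕ → List (Re × FE)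
  fp : ℕ → ℕ → List (Re × FP)
  ff : ℕ → ℕ → List (Re × Fa)
  fo : ℕ → ℕ → List (Re × FO)

/-! ### well formed data -/

def allL {α : Type} (f : α → Bool) : List α → Bool
  | [] => true
  | a :: l => f a && allL f l

theorem allL_of {α : Type} {f : α → Bool} : ∀ {l : List α}, allL f l = true → ∀ a ∈ l, f a = true
  | [], _, a, ha => by simp at ha
  | b :: l, h, a, ha => by
    simp only [allL, Bool.and_eq_true] at h
    simp only [List.mem_cons] at ha
    rcases ha with rfl | ha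
    · exact h.1
    · exact allL_of h.2 a ha

/-- time only -/
def isT (A : Re) : Bool := A.E.us pT
/-- time and killed mass -/
def isK (A : Re) : Bool := A.E.us pK
/-- nonnegative without a check -/
def isP (A : Re) : Bool := A.E.pos
/-- zero -/
def isZ (A : Re) : Bool :=
  match A.E with
  | .c n => Nat.beq n 0
  | _ => false

theorem isZ_val {A : Re} (h : isZ A = true) (ρ : ℕ → ℝ) (e : ℕ → ℕ) : A.val ρ e = 0 := by
  obtain ⟨E, s⟩ := A
  cases E with
  | c n =>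
    have : n = 0 := Nat.eq_of_beq_eq_true h
    subst this
    exact re_zero ρ e s
  | _ => exact absurd h (by simp [isZ])

def EcR.okT (C : EcR) : Bool :=
  isT C.c0 && isT C.c1 && isT C.c2 && isT C.c3 && isT C.c4 && isT C.c5 && isT C.c6 && isT C.c7
    && isP C.c6 && isP C.c7

noncomputable def EcR.tv (C : EcR) (c : ℝ) (e : ℕ → ℕ) : Ec :=
  ⟨C.c0.tv c e, C.c1.tv c e, C.c2.tv c e, C.c3.tv c e, C.c4.tv c e, C.c5.tv c e, C.c6.tv c e,
    C.c7.tv c e⟩

theorem EcR.is {C : EcR} (h : C.okT = true) {ρ : ℕ → ℝ} {c : ℝ} (h2 : ρ 2 = c) (e : ℕ → ℕ) :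
    C.Is ρ e (C.tv c e) := by
  unfold EcR.okT at h
  simp only [Bool.and_eq_true] at h
  obtain ⟨⟨⟨⟨⟨⟨⟨⟨⟨a0, a1⟩, a2⟩, a3⟩, a4⟩, a5⟩, a6⟩, a7⟩, -⟩, -⟩ := h
  exact ⟨tv_val a0 h2 e, tv_val a1 h2 e, tv_val a2 h2 e, tv_val a3 h2 e, tv_val a4 h2 e,
    tv_val a5 h2 e, tv_val a6 h2 e, tv_val a7 h2 e⟩

theorem tv_nonneg {A : Re} (h : isP A = true) {c : ℝ} (c0 : 0 ≤ c) (c1 : c ≤ 1) (e : ℕ → ℕ) :
    0 ≤ A.tv c e :=
  div_nonneg (pos_val h (rho3_nonneg le_rfl le_rfl c0) (rho3_le kS_pos.le zero_le_one c1) e)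
    (by positivity)

theorem kv_nonneg {A : Re} (h : isP A = true) {c k : ℝ} (c0 : 0 ≤ c) (c1 : c ≤ 1) (k0 : 0 ≤ k)
    (k1 : k ≤ kS) (e : ℕ → ℕ) : 0 ≤ A.kv c e k :=
  div_nonneg (pos_val h (rho3_nonneg k0 le_rfl c0) (rho3_le k1 zero_le_one c1) e)
    (by positivity)

theorem horR_nonneg {x : ℝ} (x0 : 0 ≤ x) : ∀ {l : List ℝ}, (∀ a ∈ l, 0 ≤ a) → 0 ≤ horR x l
  | [], _ => le_rfl
  | a :: l, h => add_nonneg (h a (by simp)) (mul_nonneg x0 (horR_nonneg x0 fun b hb =>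
      h b (by simp [hb])))

/-- a polynomial with time dependent coefficients -/
noncomputable def hT (L : List Re) (c : ℝ) (e : ℕ → ℕ) (x : ℝ) : ℝ :=
  horR x (L.map fun A => A.tv c e)

theorem hT_nonneg {L : List Re} (h : allL isP L = true) {c x : ℝ} (c0 : 0 ≤ c) (c1 : c ≤ 1)
    (x0 : 0 ≤ x) (e : ℕ → ℕ) : 0 ≤ hT L c e x := by
  refine horR_nonneg x0 fun a ha => ?_
  obtain ⟨A, hA, rfl⟩ := List.mem_map.1 ha
  exact tv_nonneg (allL_of h A hA) c0 c1 e

theorem hor_hT {L : List Re} (h : allL isT L = true) {ρ : ℕ → ℝ} {c x : ℝ} {X : Re}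
    {e : ℕ → ℕ} (hX : X.val ρ e = x) (h2 : ρ 2 = c) : (hor X L).val ρ e = hT L c e x := by
  refine hor_val hX ?_
  induction L with
  | nil => exact List.Forall₂.nil
  | cons A L ih =>
    simp only [allL, Bool.and_eq_true] at h
    exact List.Forall₂.cons (tv_val h.1 h2 e) (ih h.2)

/-- the thirteen coefficients -/
def all13 (f : Re → Bool) (F : ℕ → Re) : Bool := allL (fun i => f (F i)) (List.range 13)

/-- a form with a constant term: coefficient number `12` -/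
def fmV (F : ℕ → Re) (K : Re) (a b : Q5) : Vx := vadd (frmV F K a b) [F 12]

/-- a form only uses the first twelve coefficients -/
theorem frm_congr {f g : ℕ → ℝ} (h : ∀ i < 12, f i = g i) (p : Pt) : frm f p = frm g p := by
  unfold frm
  rw [h 0 (by norm_num), h 1 (by norm_num), h 2 (by norm_num), h 3 (by norm_num),
    h 4 (by norm_num), h 5 (by norm_num), h 6 (by norm_num), h 7 (by norm_num),
    h 8 (by norm_num), h 9 (by norm_num), h 10 (by norm_num), h 11 (by norm_num)]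

theorem all13_of {f : Re → Bool} {F : ℕ → Re} (h : all13 f F = true) {i : ℕ} (hi : i < 13) :
    f (F i) = true := allL_of h i (List.mem_range.2 hi)

namespace Sp12

variable (sp : Sp12)

/-- the checks of the format -/
def okN (l : ℕ) : Bool :=
  all13 isK (sp.sl true l) && all13 isK (sp.sl false l) && all13 isK (sp.us true l)
    && all13 isK (sp.us false l) && all13 isK (sp.ps true l) && all13 isK (sp.ps false l)
    && isZ (sp.slp true l) && isZ (sp.slp false l) && isZ (sp.usp true l) && isZ (sp.usp false l)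
    && isZ (sp.psp true l) && isZ (sp.psp false l)
    && (sp.cA l).okT && (sp.cB l).okT && (sp.cM l).okT && (sp.c1 l).okT && (sp.cT l).okT
    && (sp.cP l).okT && (sp.cN l).okT && isZ (sp.dp l) && isZ (sp.dm l)
    && allL (fun m => isT (sp.Gp l m) && isT (sp.Gm l m) && isP (sp.Gp l m) && isP (sp.Gm l m))
      (List.range sp.N)
    && (!sp.md l || (allL (fun i => Nat.beq ((sp.wv l).f (i + 2)) 0) (List.range 10)))

def ok : Bool :=
  allL isT sp.RR && allL isP sp.RR && isZ sp.Rp && isK sp.W && allL isT sp.Wp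
    && allL isP sp.Wp && all13 isK sp.nf && isK sp.ni && isP sp.ni && allL isT sp.np
    && allL isP sp.np && isK sp.Dk && sp.cD.okT && allL sp.okN (List.range sp.N)

/-! ### vectors -/

/-- the kernel of a real edge -/
def kE : Re := eX * hor eX sp.RR

def wE (l : ℕ) : Vx := (sp.wv l).vec (sp.wv l).kR eK eF
def wF (l : ℕ) : Vx := (sp.wv l).vec (sp.wv l).kR eK fF

/-- weight times bound of the loss -/
def wn (l : ℕ) (b : Q5) (w : Vx) : Vx :=
  match sp.md l with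
  | true => vsm ((kc ((sp.wv l).f 0) + kc ((sp.wv l).f 1) * eK) * b.m + (sp.wv l).kR)
      (fmV sp.nf eK b b)
  | false => vsm sp.ni w

/-- the value `1 / 2` -/
def hf : Re := kd 1 1

def lA (l : ℕ) : LnE := ⟨vsm sp.kE (vadd (vsm (sp.W - kc 1) (sp.wE l))
  (vsm sp.W (fmV (sp.ps false l) eK eQ eF))), evV (sp.cA l) eX eK eF.h, sp.fe 0 l⟩
def lB (l : ℕ) : LnE := ⟨vsm sp.kE (vsm sp.W (vadd (sp.wE l) (fmV (sp.ps false l) eK eQ eF))),
  evV (sp.cB l) eX eK eF.h, sp.fe 1 l⟩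
def lM (l : ℕ) : LnE := ⟨vsm sp.kE (vadd (sp.wn l eF (sp.wE l))
  (vsm sp.W (fmV (sp.ps true l) eK eQ eF))), evV (sp.cM l) eX eK eF.h, sp.fe 2 l⟩
def l1 (l : ℕ) : LnE := ⟨vsm sp.kE (sp.wE l), evV (sp.c1 l) eX eK eF.h, sp.fe 3 l⟩
def lT (l : ℕ) : LnE := ⟨vsm sp.kE (vsm sp.W (fmV (sp.ps true l) eK eQ eF)),
  evV (sp.cT l) eX eK eF.h, sp.fe 4 l⟩
def lP (l : ℕ) : LnE := ⟨vsm sp.kE (vsm sp.W (vsm hf (vadd (fmV (sp.ps true l) eK eQ eF)
  (fmV (sp.ps true l) eK eF eF)))), evV (sp.cP l) eX eK eF.h, sp.fe 5 l⟩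
def lN (l : ℕ) : LnE := ⟨vsm sp.kE (vsm sp.W (vadd (sp.wE l) (vsm hf
  (vadd (fmV (sp.ps false l) eK eQ eF) (fmV (sp.ps false l) eK eF eF))))),
  evV (sp.cN l) eX eK eF.h, sp.fe 6 l⟩
def lD : LnE := ⟨vsm sp.kE [sp.W], evV sp.cD eX eK eF.h, sp.fe 7 0⟩

/-- the sum over the positions -/
def gsE (s : Bool) (l : ℕ) : Vx := vfs (fun m => vadd (vsm (sp.Gp l m) (fmV (sp.us s m) eK eQ eF))
  (vsm (sp.Gm l m) (fmV (sp.us (!s) m) eK eQ eF))) sp.N

def svE (C : EcR) : Vx := svV C eQ [kc 2 - eK] (vsub [kc 2] eF.h)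
def svF (C : EcR) : Vx := svV C fF [kc 2 - eK] (vsub [kc 2] fF.h)

def vP (l : ℕ) : LnE := ⟨vadd (vadd (svE (sp.cA l)) (vsm (sp.W - kc 1) (svE (sp.cB l))))
  (sp.gsE true l), fmV (sp.sl true l) eK eQ eF, sp.fe 8 l⟩
def vM (l : ℕ) : LnE := ⟨vadd (vadd (vadd (svE (sp.cM l)) (vsm sp.ni (svE (sp.c1 l))))
  (vsm (sp.W - kc 1) (svE (sp.cT l)))) (sp.gsE false l), fmV (sp.sl false l) eK eQ eF, sp.fe 9 l⟩
/-- the slope forms are nonnegative -/
def gP (l : ℕ) : LnE := ⟨[], fmV (sp.sl true l) eK eQ eF, sp.fe 10 l⟩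
def gM (l : ℕ) : LnE := ⟨[], fmV (sp.sl false l) eK eQ eF, sp.fe 11 l⟩
/-- the forms used at the neighbours are nonnegative -/
def hP (l : ℕ) : LnE := ⟨[], fmV (sp.ps true l) eK eQ eF, sp.fe 12 l⟩
def hM (l : ℕ) : LnE := ⟨[], fmV (sp.ps false l) eK eQ eF, sp.fe 13 l⟩

def fI : LnF := ⟨fmV sp.nf eK fF fF, [sp.ni], sp.ff 0 0⟩
def fG : LnF := ⟨[], fmV sp.nf eK fF fF, sp.ff 4 0⟩
def fD : LnF := ⟨svF sp.cD, [sp.Dk], sp.ff 1 0⟩
def fP (l : ℕ) : LnF := ⟨vsm sp.W (vadd (vsm sp.Dk (fmV (sp.ps true l) eK fF fF))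
  (svF (sp.cP l))), vfs (fun m => vsm (sp.Gp l m) (sp.wF m)) sp.N, sp.ff 2 l⟩
def fM (l : ℕ) : LnF := ⟨vsm sp.W (vadd (vsm sp.Dk (fmV (sp.ps false l) eK fF fF))
  (svF (sp.cN l))), vfs (fun m => vsm (sp.Gm l m) (sp.wF m)) sp.N, sp.ff 3 l⟩

/-- sums of expressions -/
def rfs (f : ℕ → Re) : ℕ → Re
  | 0 => kz
  | n + 1 => rfs f n + f n

/-- **all lines** -/
def sheet : Sheet where
  e := [sp.lD] ++ (List.range sp.N).flatMap fun l => [sp.lA l, sp.lB l, sp.lM l, sp.l1 l, sp.lT l,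
    sp.lP l, sp.lN l, sp.vP l, sp.vM l, sp.gP l, sp.gM l, sp.hP l, sp.hM l]
  p := []
  f := [sp.fI, sp.fG, sp.fD] ++ (List.range sp.N).flatMap fun l => [sp.fP l, sp.fM l]
  o := []
  s := [(kc 1, sp.W)]

end Sp12

end Pool.Agent.RZ.RCO
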