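import Pool.Agent.RZ.RCO.Gk4
import Pool.Agent.RZ.RCO.Gk6

/-! The lines of level 1/2 from the checks of the sheet (MP_73ccd0_lc). -/

set_option autoImplicit false

namespace Pool.Agent.RZ.RCO

open Sg Set

/-- the product rule, the multiplier first -/
theorem RE.sm' {ι : Type} {ρ φ : ι → ℕ → ℝ} {e : ℕ → ℕ} {κ : ι → ℝ} {K : Re} {f : ι → ℝ} {G : Vx}
    (hκ : RE ρ e κ K) (h : EB ρ φ e f G) : EB ρ φ e (fun z => κ z * f z) (vsm K G) :=
  EB.sm hκ h

namespace Sp12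

/-- the real functions at one row and one time coordinate -/
noncomputable def fW (sp : Sp12) (c : ℝ) (e : ℕ → ℕ) (p : Pt) : ℝ := sp.W.kv c e p.k
noncomputable def cf (F : ℕ → Re) (c : ℝ) (e : ℕ → ℕ) (p : Pt) : ℝ :=
  frm (fun i => (F i).kv c e p.k) p + (F 12).kv c e p.k
noncomputable def fnr (sp : Sp12) (c : ℝ) (e : ℕ → ℕ) (l : ℕ) (p : Pt) : ℝ :=
  match sp.md l with
  | true => cf sp.nf c e p
  | false => sp.ni.kv c e p.k

variable {sp : Sp12} {D R j : ℕ} {c : ℝ}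

section env

variable {e : ℕ → ℕ}

/-- the coefficients of a form, cut at twelve -/
theorem frmV_cut {ρ : ℕ → ℝ} {φ : ℕ → ℝ} (h1 : φ 0 = 1) {F : ℕ → Re} {f : ℕ → ℝ}
    (hF : ∀ i < 13, (F i).val ρ e = f i) {K : Re} {k : ℝ} (hK : K.val ρ e = k) {a b : Q5}
    {m h g q s e' M H G Q S E : ℝ} (ha : Q5v ρ e φ a m h g q s e') (hb : Q5v ρ e φ b M H G Q S E) :
    vval ρ e φ (fmV F K a b) = frm f ⟨k, m, h, g, q, s, e', M, H, G, Q, S, E⟩ + f 12 := by
  unfold fmV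
  rw [vval_add, vval_one h1, hF 12 (by norm_num),
    frmV_val h1 (f := fun i => (F i).val ρ e) (fun i => rfl) hK ha hb]
  exact congrArg₂ (· + ·) (frm_congr (fun i hi => hF i (by omega)) _) rfl

theorem cE {F : ℕ → Re} (h : all13 isK F = true) :
    EB (rE c) fE' e (fun z => cf F c e z.p) (fmV F eK eQ eF) := fun z =>
  frmV_cut (f := fun i => (F i).kv c e z.p.k) rfl (fun _ hi => kv_val' (all13_of h hi) rfl rfl e) (RE.k z) (eQ_v z) (eF_v z)

theorem cEF {F : ℕ → Re} (h : all13 isK F = true) :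
    EB (rE c) fE' e (fun z => cf F c e z.p.full) (fmV F eK eF eF) := fun z =>
  frmV_cut (f := fun i => (F i).kv c e z.p.k) rfl (fun _ hi => kv_val' (all13_of h hi) rfl rfl e) (RE.k z) (eF_v z) (eF_v z)

theorem cF {F : ℕ → Re} (h : all13 isK F = true) :
    EB (rF c) fF' e (fun z => cf F c e z.p.full) (fmV F eK fF fF) := fun z =>
  frmV_cut (f := fun i => (F i).kv c e z.p.k) rfl (fun _ hi => kv_val' (all13_of h hi) rfl rfl e) (RE.kF z) (fF_v z) (fF_v z)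

theorem wE_v (w : Wf) : EB (rE c) fE' e (fun z => w.fn z.p.full) (w.vec w.kR eK eF) := fun z => by
  unfold Wf.vec Wf.fn
  rw [vval_add, vval_one rfl, w.kR_val rfl z.h.toLive.kS]
  exact congrArg₂ (· + ·) (frmV_val rfl (fun i => kc_val _ _ _) (RE.k z) (eF_v z) (eF_v z)) rfl

theorem wF_v (w : Wf) : EB (rF c) fF' e (fun z => w.fn z.p.full) (w.vec w.kR eK fF) := fun z => by
  unfold Wf.vec Wf.fn
  rw [vval_add, vval_one rfl, w.kR_val rfl z.h.kS]
  exact congrArg₂ (· + ·) (frmV_val rfl (fun i => kc_val _ _ _) (RE.kF z) (fF_v z) (fF_v z)) rfl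

theorem sE {C : EcR} (h : C.okT = true) :
    EB (rE c) fE' e (fun z => sv (C.tv c e) z.p) (svE C) := EB.sv fun _ => EcR.is h rfl e

theorem sF {C : EcR} (h : C.okT = true) :
    EB (rF c) fF' e (fun z => sv (C.tv c e) z.p.full) (svF C) := EB.svF' fun _ => EcR.is h rfl e

theorem vE {C : EcR} (h : C.okT = true) :
    EB (rE c) fE' e (fun z => ev (C.tv c e) z.x z.p.k z.p.H) (evV C eX eK eF.h) :=
  EB.ev fun _ => EcR.is h rfl e

theorem tE {A : Re} (h : isT A = true) : RE (rE c) e (fun _ => A.tv c e) A :=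
  fun _ => tv_val h rfl e
theorem tF {A : Re} (h : isT A = true) : RE (rF c) e (fun _ => A.tv c e) A :=
  fun _ => tv_val h rfl e
theorem kE' {A : Re} (h : isK A = true) : RE (rE c) e (fun z => A.kv c e z.p.k) A :=
  fun _ => kv_val' h rfl rfl e
theorem kF' {A : Re} (h : isK A = true) : RE (rF c) e (fun z => A.kv c e z.p.k) A :=
  fun _ => kv_val' h rfl rfl e
theorem xE {L : List Re} (h : allL isT L = true) : RE (rE c) e (fun z => hT L c e z.x) (hor eX L) :=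
  fun z => hor_hT h (RE.x z) rfl
end env

/-- the format at a weight -/
structure OkN (sp : Sp12) (l : ℕ) : Prop where
  sl : ∀ s, all13 isK (sp.sl s l) = true
  us : ∀ s, all13 isK (sp.us s l) = true
  ps : ∀ s, all13 isK (sp.ps s l) = true
  slp : ∀ s, isZ (sp.slp s l) = true
  usp : ∀ s, isZ (sp.usp s l) = true
  psp : ∀ s, isZ (sp.psp s l) = true
  cA : (sp.cA l).okT = true
  cB : (sp.cB l).okT = true
  cM : (sp.cM l).okT = true
  c1 : (sp.c1 l).okT = true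
  cT : (sp.cT l).okT = true
  cP : (sp.cP l).okT = true
  cN : (sp.cN l).okT = true
  dp : isZ (sp.dp l) = true
  dm : isZ (sp.dm l) = true
  G : ∀ m < sp.N, isT (sp.Gp l m) = true ∧ isT (sp.Gm l m) = true ∧ isP (sp.Gp l m) = true
    ∧ isP (sp.Gm l m) = true
  md : sp.md l = true → ∀ i < 10, (sp.wv l).f (i + 2) = 0

theorem okN_of {l : ℕ} (h : sp.okN l = true) : OkN sp l := by
  unfold okN at h
  simp only [Bool.and_eq_true] at h
  obtain ⟨⟨⟨⟨⟨⟨⟨⟨⟨⟨⟨⟨⟨⟨⟨⟨⟨⟨⟨⟨⟨⟨a1, a2⟩, a3⟩, a4⟩, a5⟩, a6⟩, a7⟩, a8⟩, a9⟩, a10⟩, a11⟩, a12⟩, b1⟩,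
    b2⟩, b3⟩, b4⟩, b5⟩, b6⟩, b7⟩, d1⟩, d2⟩, g⟩, m⟩ := h
  refine ⟨fun s => ?_, fun s => ?_, fun s => ?_, fun s => ?_, fun s => ?_, fun s => ?_, b1, b2,
    b3, b4, b5, b6, b7, d1, d2, fun m hm => ?_, fun hmd i hi => ?_⟩
  · cases s <;> assumption
  · cases s <;> assumption
  · cases s <;> assumption
  · cases s <;> assumption
  · cases s <;> assumption
  · cases s <;> assumption
  · have := allL_of g m (List.mem_range.2 hm)
    simp only [Bool.and_eq_true] at this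
    exact ⟨this.1.1.1, this.1.1.2, this.1.2, this.2⟩
  · rw [hmd] at m
    simp only [Bool.not_true, Bool.false_or] at m
    exact Nat.eq_of_beq_eq_true (allL_of m i (List.mem_range.2 hi))

structure Ok' (sp : Sp12) : Prop where
  RR : allL isT sp.RR = true
  RRp : allL isP sp.RR = true
  Rp : isZ sp.Rp = true
  W : isK sp.W = true
  Wp : allL isT sp.Wp = true
  Wpp : allL isP sp.Wp = true
  nf : all13 isK sp.nf = true
  ni : isK sp.ni = true
  nip : isP sp.ni = true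
  np : allL isT sp.np = true
  npp : allL isP sp.np = true
  Dk : isK sp.Dk = true
  cD : sp.cD.okT = true
  n : ∀ l < sp.N, OkN sp l

theorem ok_of (h : sp.ok = true) : Ok' sp := by
  unfold ok at h
  simp only [Bool.and_eq_true] at h
  obtain ⟨⟨⟨⟨⟨⟨⟨⟨⟨⟨⟨⟨⟨a1, a2⟩, a3⟩, a5⟩, a6⟩, a7⟩, a8⟩, a9⟩, a10⟩, a11⟩, a12⟩, a13⟩, a14⟩,
    a15⟩ := h
  exact ⟨a1, a2, a3, a5, a6, a7, a8, a9, a10, a11, a12, a13, a14,
    fun l hl => okN_of (allL_of a15 l (List.mem_range.2 hl))⟩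

section mem

variable {l : ℕ}

theorem mE (hl : l < sp.N) {a : LnE} (h : a ∈ [sp.lA l, sp.lB l, sp.lM l, sp.l1 l, sp.lT l,
    sp.lP l, sp.lN l, sp.vP l, sp.vM l, sp.gP l, sp.gM l, sp.hP l, sp.hM l]) :
    a ∈ sp.sheet.e :=
  List.mem_append_right _ (List.mem_flatMap.2 ⟨l, List.mem_range.2 hl, h⟩)
theorem mF (hl : l < sp.N) {a : LnF} (h : a ∈ [sp.fP l, sp.fM l]) : a ∈ sp.sheet.f :=
  List.mem_append_right _ (List.mem_flatMap.2 ⟨l, List.mem_range.2 hl, h⟩)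

end mem

/-- an inequality from a line of an edge -/
theorem lineE (hS : sp.sheet.At D R j) (c0 : 0 ≤ c) (c1 : c ≤ 1) {a : LnE} (ha : a ∈ sp.sheet.e)
    {f g : ZE → ℝ} (hf : UB (rE c) fE' (rwd D R j) f a.lhs)
    (hg : LB (rE c) fE' (rwd D R j) g a.rhs) (z : ZE) : f z ≤ g z :=
  (hf z).trans ((hS.e a ha c c0 c1 z).trans (hg z))
theorem lineF (hS : sp.sheet.At D R j) (c0 : 0 ≤ c) (c1 : c ≤ 1) {a : LnF} (ha : a ∈ sp.sheet.f)
    {f g : ZFu → ℝ} (hf : UB (rF c) fF' (rwd D R j) f a.lhs)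
    (hg : LB (rF c) fF' (rwd D R j) g a.rhs) (z : ZFu) : f z ≤ g z :=
  (hf z).trans ((hS.f a ha c c0 c1 z).trans (hg z))

section lines

variable (ho : Ok' sp) (hS : sp.sheet.At D R j) (c0 : 0 ≤ c) (c1 : c ≤ 1)

include ho in
theorem kE_v {e : ℕ → ℕ} : RE (rE c) e (fun z => z.x * hT sp.RR c e z.x) sp.kE :=
  RE.x.mul (xE ho.RR)

/-- an edge line; at a pendant vertex the weight is zero -/
theorem eln {l : LnE} {C : EcR} {e : ℕ → ℕ} (he : e = rwd D R j)
    (hS : sp.sheet.At D R j) (c0 : 0 ≤ c) (c1 : c ≤ 1)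
    (ml : l ∈ sp.sheet.e)
    (hC : C.okT = true) (hl : l.rhs = evV C eX eK eF.h)
    {G Gp : Pt → ℝ}
    (h1 : EB (rE c) fE' e (fun z => z.x * hT sp.RR c e z.x * G z.p) l.lhs) :
    ELn (hT sp.RR c e) (sp.Rp.tv c e) G Gp (C.tv c e) := by
  subst he
  have hC' := hC
  unfold EcR.okT at hC'
  simp only [Bool.and_eq_true] at hC'
  refine ⟨tv_nonneg hC'.1.2 c0 c1 _, tv_nonneg hC'.2 c0 c1 _, fun p x a b hp => ?_,
    fun p x a b hp => ?_⟩
  · exact lineE hS c0 c1 ml h1.ub (by rw [hl]; exact (vE hC).lb) ⟨p, x, a, b, hp⟩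
  · rw [hp.k, hp.H, hp.xz]
    refine le_of_eq ?_
    unfold ev
    ring

theorem frm_nn {f : ℕ → ℝ} (f0 : ∀ i, 0 ≤ f i) {p : Pt} (k0 : 0 ≤ p.k) (m0 : 0 ≤ p.m)
    (h0 : 0 ≤ p.h) (g0 : 0 ≤ p.g) (q0 : 0 ≤ p.q) (s0 : 0 ≤ p.s) (e0 : 0 ≤ p.e) (H0 : 0 ≤ p.H)
    (G0 : 0 ≤ p.G) (Q0 : 0 ≤ p.Q) (S0 : 0 ≤ p.S) (E0 : 0 ≤ p.E) : 0 ≤ frm f p := by
  unfold frm
  have c0 := f0 0; have c1 := f0 1; have c2 := f0 2; have c3 := f0 3; have c4 := f0 4
  have c5 := f0 5; have c6 := f0 6; have c7 := f0 7; have c8 := f0 8; have c9 := f0 9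
  have c10 := f0 10; have c11 := f0 11
  positivity

theorem _root_.Pool.Agent.RZ.RCO.Wf.fn_nonneg (w : Wf) {p : Pt} (h : p.Live) : 0 ≤ w.fn p.full := by
  unfold Wf.fn
  refine add_nonneg (frm_nn (fun i => Nat.cast_nonneg _) h.k0 h.F.m0 h.F.h0 h.F.g0 h.F.q0 h.F.s0
    h.F.e0 h.F.h0 h.F.g0 h.F.q0 h.F.s0 h.F.e0) (w.kv_nonneg h.k0)

theorem _root_.Pool.Agent.RZ.RCO.Wf.fn_nonneg_pend (w : Wf) {p : Pt} {x a b : ℝ}
    (h : p.Pend x a b) : 0 ≤ w.fn p.full := by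
  have a1 : 0 ≤ 1 - a := by linarith [h.ab, h.b0, h.x0]
  have x0 := h.x0
  have a0 := h.a0
  have b0 := h.b0
  have M0 : 0 ≤ p.M := by rw [h.M]; exact x0
  have H0 : 0 ≤ p.H := by rw [h.H]; positivity
  have G0 : 0 ≤ p.G := by rw [h.G]; positivity
  have Q0 : 0 ≤ p.Q := by rw [h.Q]; positivity
  have S0 : 0 ≤ p.S := by rw [h.S]; positivity
  have E0 : 0 ≤ p.E := by rw [h.E]; positivity
  have k0 : 0 ≤ p.k := h.k.ge
  unfold Wf.fn
  refine add_nonneg (frm_nn (fun i => Nat.cast_nonneg _) k0 M0 H0 G0 Q0 S0 E0 H0 G0 Q0 S0 E0)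
    (w.kv_nonneg k0)

theorem _root_.Pool.Agent.RZ.RCO.Wf.fn_nonneg_pnd (w : Wf) {p : Pt} {x : ℝ} (x0 : 0 ≤ x)
    (h : p.Live) : 0 ≤ w.fn (pnd x p) := by
  have k0 := h.k0
  have k1 : 0 ≤ 1 - p.k := by linarith [h.k1]
  have H0 := h.F.h0
  have hH : 0 ≤ x * p.k := mul_nonneg x0 k0
  have hG : 0 ≤ x * (p.k * (1 - p.k)) := mul_nonneg x0 (mul_nonneg k0 k1)
  have hQ : 0 ≤ x ^ 2 := sq_nonneg x
  have hS : 0 ≤ x ^ 2 * p.k := mul_nonneg hQ k0
  have hE : 0 ≤ x * p.H := mul_nonneg x0 H0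
  unfold Wf.fn
  exact add_nonneg (frm_nn (p := pnd x p) (fun i => Nat.cast_nonneg _) le_rfl x0 hH hG hQ hS hE hH
    hG hQ hS hE) (w.kv_nonneg le_rfl)

/-- the product of the weight and the bound of the loss -/
theorem wn_gen {ι : Type} {ρ φ : ι → ℕ → ℝ} {e : ℕ → ℕ} (ho : Ok' sp) {l : ℕ} (hl : l < sp.N)
    {pf : ι → Pt} {b : Q5} {w : Vx} (hb : ∀ z, b.m.val (ρ z) e = (pf z).M)
    (hm : ∀ z, (pf z).m = (pf z).M)
    (hk : ∀ z, ρ z 0 = (pf z).k / kS) (hk1 : ∀ z, (pf z).k ≤ kS) (h2 : ∀ z, ρ z 2 = c)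
    (hK : RE ρ e (fun z => (pf z).k) eK)
    (hn : EB ρ φ e (fun z => cf sp.nf c e (pf z)) (fmV sp.nf eK b b))
    (hw : EB ρ φ e (fun z => (sp.wv l).fn (pf z)) w) :
    EB ρ φ e (fun z => (sp.wv l).fn (pf z) * fnr sp c e l (pf z)) (sp.wn l b w) := by
  intro z
  unfold wn fnr
  cases hmd : sp.md l with
  | true =>
    simp only
    rw [vval_sm, hn z, re_add, re_mul, re_add, re_mul, kc_val, kc_val, hK z, hb z, Wf.kR_val _ (hk z) (hk1 z)]
    congr 1
    have hf := (ho.n l hl).md hmd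
    have f2 : (sp.wv l).f 2 = 0 := hf 0 (by norm_num)
    have f3 : (sp.wv l).f 3 = 0 := hf 1 (by norm_num)
    have f4 : (sp.wv l).f 4 = 0 := hf 2 (by norm_num)
    have f5 : (sp.wv l).f 5 = 0 := hf 3 (by norm_num)
    have f6 : (sp.wv l).f 6 = 0 := hf 4 (by norm_num)
    have f7 : (sp.wv l).f 7 = 0 := hf 5 (by norm_num)
    have f8 : (sp.wv l).f 8 = 0 := hf 6 (by norm_num)
    have f9 : (sp.wv l).f 9 = 0 := hf 7 (by norm_num)
    have f10 : (sp.wv l).f 10 = 0 := hf 8 (by norm_num)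
    have f11 : (sp.wv l).f 11 = 0 := hf 9 (by norm_num)
    unfold Wf.fn frm
    simp only [f2, f3, f4, f5, f6, f7, f8, f9, f10, f11, hm z, Nat.cast_zero, zero_mul, add_zero]
    ring
  | false =>
    simp only
    rw [vval_sm, hw z, kv_val' ho.ni (hk z) (h2 z) e]
    ring

theorem wnE (ho : Ok' sp) {e : ℕ → ℕ} {l : ℕ} (hl : l < sp.N) :
    EB (rE c) fE' e (fun z => (sp.wv l).fn z.p.full * fnr sp c e l z.p.full)
      (sp.wn l eF (sp.wE l)) :=
  wn_gen (ρ := rE c) (φ := fE') (e := e) (c := c) (pf := fun z : ZE => z.p.full) (b := eF) ho hl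
    (fun z => (eF_v z).m) (fun _ => rfl) (fun _ => rfl) (fun z => z.h.toLive.kS) (fun _ => rfl) RE.k
    (cEF ho.nf) (wE_v _)

theorem half_v {ι : Type} {ρ : ι → ℕ → ℝ} {e : ℕ → ℕ} : RE ρ e (fun _ => (1 : ℝ) / 2) hf :=
  fun z => by
    unfold hf
    rw [kd_val]
    norm_num

theorem rfs_val (f : ℕ → Re) (ρ : ℕ → ℝ) (e : ℕ → ℕ) (n : ℕ) :
    (rfs f n).val ρ e = ∑ i ∈ Finset.range n, (f i).val ρ e := by
  induction n with
  | zero => exact kz_val _ _
  | succ n ih => rw [rfs, re_add, ih, Finset.sum_range_succ]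

/-- **the lines of level 1/2 at one row and one time coordinate** -/
theorem l12 (ho : Ok' sp) (hS : sp.sheet.At D R j) (c0 : 0 ≤ c) (c1 : c ≤ 1) {e : ℕ → ℕ}
    (he : e = rwd D R j) {Nr : Pt → ℝ} {Np : ℝ → ℝ}
    (hN : ∀ (p : Pt) (x a b : ℝ), p.Sat x a b → Nr p.full ≤ cf sp.nf c e p.full)
    (hN1 : ∀ (p : Pt) (x a b : ℝ), p.Sat x a b → Nr p.full ≤ 1)
    (hNp : ∀ x : ℝ, 0 ≤ x → x ≤ 1 → Np x ≤ hT sp.np c e x)
    (hNp1 : ∀ x : ℝ, 0 ≤ x → x ≤ 1 → Np x ≤ 1) :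
    Lk12 (Λ := Fin sp.N) (hT sp.RR c e) (sp.Rp.tv c e) (sp.fW c e) (hT sp.Wp c e) Nr Np
      (fun l => (sp.wv l).fn) (fun s l => cf (sp.us s l) c e) (fun s l p => -cf (sp.sl s l) c e p)
      (fun s l => cf (sp.ps s l) c e) (fun s l => (sp.usp s l).tv c e)
      (fun s l => -(sp.slp s l).tv c e) (fun s l => (sp.psp s l).tv c e)
      (fun l m => (sp.Gp l m).tv c e) (fun l m => (sp.Gm l m).tv c e)
      (fun l => fnr sp c e l) (fun p => sp.ni.kv c e p.k) (hT sp.np c e)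
      (fun k => sp.Dk.kv c e k) (fun l => (sp.cA l).tv c e) (fun l => (sp.cB l).tv c e)
      (fun l => (sp.cM l).tv c e) (fun l => (sp.c1 l).tv c e) (fun l => (sp.cT l).tv c e)
      (fun l => (sp.cP l).tv c e) (fun l => (sp.cN l).tv c e) (sp.cD.tv c e)
      (fun l => (sp.dp l).tv c e) (fun l => (sp.dm l).tv c e) := by
  have nI : ∀ (p : Pt) (x a b : ℝ), p.Sat x a b → cf sp.nf c e p.full ≤ sp.ni.kv c e p.k := by
    intro p x a b hp
    subst he
    exact lineF (a := sp.fI) hS c0 c1 (List.mem_append_left _ (by simp)) (cF ho.nf).ub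
      (EB.oneF (kF' ho.ni)).lb ⟨p, hp.toLive⟩
  have nG : ∀ (p : Pt) (x a b : ℝ), p.Sat x a b → 0 ≤ cf sp.nf c e p.full := by
    intro p x a b hp
    subst he
    exact lineF (a := sp.fG) hS c0 c1 (List.mem_append_left _ (by simp)) EB.nil.ub
      (cF ho.nf).lb ⟨p, hp.toLive⟩
  have W1 : ∀ (p : Pt) (x a b : ℝ), p.Sat x a b → 1 ≤ sp.fW c e p.full := by
    intro p x a b hp
    subst he
    have h1 := hS.s (kc 1, sp.W) (List.mem_singleton.2 rfl) (rhoE p x c)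
      (rhoE0 hp c0) (rhoE1 hp c1)
    rw [show (kc 1, sp.W).1.val (rhoE p x c) (rwd D R j) = 1 by
      show (kc 1).val _ _ = 1
      rw [kc_val, Nat.cast_one]] at h1
    exact h1.trans (kv_val' ho.W rfl rfl _).le
  have uW0 : ∀ z : ZE, 0 ≤ sp.fW c e z.p.full := fun z =>
    zero_le_one.trans (W1 _ _ _ _ z.h)
  have W_v : RE (rE c) e (fun z => sp.fW c e z.p.full) sp.W := kE' ho.W
  have zR : sp.Rp.tv c e = 0 := isZ_val ho.Rp _ _
  have W_f : RE (rF c) e (fun z => sp.fW c e z.p.full) sp.W := kF' ho.W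
  constructor
  case R0 => exact fun p x a b hp => hT_nonneg ho.RRp c0 c1 hp.x0 _
  case Rp0 => exact zR.ge
  case W1 => exact W1
  case wv0 => exact fun l p x a b hp => (sp.wv l).fn_nonneg hp.toLive
  case wvp => exact fun l p x a b hp => (sp.wv l).fn_nonneg_pend hp
  case Ψ0 =>
    intro s l p x a b hp
    subst he
    cases s with
    | true =>
      exact lineE (a := sp.hP l) hS c0 c1 (mE l.2 (by simp)) EB.nil.ub
        (cE ((ho.n l l.2).ps true)).lb ⟨p, x, a, b, hp⟩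
    | false =>
      exact lineE (a := sp.hM l) hS c0 c1 (mE l.2 (by simp)) EB.nil.ub
        (cE ((ho.n l l.2).ps false)).lb ⟨p, x, a, b, hp⟩
  case n0 =>
    intro l p x a b hp
    unfold fnr
    cases sp.md l with
    | true => exact nG p x a b hp
    | false => exact kv_nonneg ho.nip c0 c1 hp.k0 hp.toLive.kS _
  case nN =>
    intro l p x a b hp
    unfold fnr
    cases sp.md l with
    | true => exact hN p x a b hp
    | false => exact (hN p x a b hp).trans (nI p x a b hp)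
  case i0 => exact fun p x a b hp => kv_nonneg ho.nip c0 c1 hp.k0 hp.toLive.kS _
  case iN => exact fun p x a b hp => (hN p x a b hp).trans (nI p x a b hp)
  case N1 => exact hN1
  case n0p => exact fun x x0 x1 => hT_nonneg ho.npp c0 c1 x0 _
  case nNp => exact hNp
  case N1p => exact hNp1
  case eA =>
    intro l
    have hn := ho.n l l.2
    refine eln he hS c0 c1 (mE l.2 (by simp : sp.lA l ∈ _)) hn.cA rfl ?_
    exact ((kE_v ho).sm' (((W_v.sub RE.one).sm' (wE_v _)).add (W_v.sm' (cE (hn.ps false))))).congr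
      fun z => by ring
  case eB =>
    intro l
    have hn := ho.n l l.2
    refine eln he hS c0 c1 (mE l.2 (by simp : sp.lB l ∈ _)) hn.cB rfl ?_
    exact ((kE_v ho).sm' (W_v.sm' ((wE_v _).add (cE (hn.ps false)))))
  case eM =>
    intro l
    have hn := ho.n l l.2
    refine eln he hS c0 c1 (mE l.2 (by simp : sp.lM l ∈ _)) hn.cM rfl ?_
    exact ((kE_v ho).sm' ((wnE ho l.2).add (W_v.sm' (cE (hn.ps true)))))
  case e1 =>
    intro l
    have hn := ho.n l l.2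
    refine eln he hS c0 c1 (mE l.2 (by simp : sp.l1 l ∈ _)) hn.c1 rfl ?_
    exact (kE_v ho).sm' (wE_v _)
  case eT =>
    intro l
    have hn := ho.n l l.2
    refine eln he hS c0 c1 (mE l.2 (by simp : sp.lT l ∈ _)) hn.cT rfl ?_
    exact (kE_v ho).sm' (W_v.sm' (cE (hn.ps true)))
  case eD =>
    refine eln he hS c0 c1 (List.mem_append_left _ (by simp) : sp.lD ∈ _) ho.cD rfl ?_
    exact (kE_v ho).sm' (EB.oneE W_v)
  case eP =>
    intro l
    have hn := ho.n l l.2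
    refine eln he hS c0 c1 (mE l.2 (by simp : sp.lP l ∈ _)) hn.cP rfl ?_
    exact ((kE_v ho).sm' (W_v.sm' (half_v.sm' ((cE (hn.ps true)).add (cEF (hn.ps true)))))).congr
      fun z => by ring
  case eN =>
    intro l
    have hn := ho.n l l.2
    refine eln he hS c0 c1 (mE l.2 (by simp : sp.lN l ∈ _)) hn.cN rfl ?_
    exact ((kE_v ho).sm' (W_v.sm' ((wE_v _).add (half_v.sm' ((cE (hn.ps false)).add
      (cEF (hn.ps false))))))).congr fun z => by ring
  case D =>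
    intro p hp hf
    subst he
    have := lineF (a := sp.fD) hS c0 c1 (List.mem_append_left _ (by simp)) (sF ho.cD).ub
      (EB.oneF (kF' ho.Dk)).lb ⟨p, hp.toLive⟩
    rw [← hf] at this
    exact this
  case vp =>
    intro l p x a b hp
    subst he
    have hn := ho.n l l.2
    rw [neg_neg]
    exact lineE (a := sp.vP l) hS c0 c1 (mE l.2 (by simp))
      (((sE hn.cA).add ((W_v.sub RE.one).sm' (sE hn.cB))).add
        (EB.fsum fun m => ((tE (hn.G m m.2).1).sm' (cE ((ho.n m m.2).us true))).add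
          ((tE (hn.G m m.2).2.1).sm' (cE ((ho.n m m.2).us false))))).ub
      (cE (hn.sl true)).lb ⟨p, x, a, b, hp⟩
  case vm =>
    intro l p x a b hp
    subst he
    have hn := ho.n l l.2
    rw [neg_neg]
    exact lineE (a := sp.vM l) hS c0 c1 (mE l.2 (by simp))
      ((((sE hn.cM).add ((kE' ho.ni).sm' (sE hn.c1))).add
        ((W_v.sub RE.one).sm' (sE hn.cT))).add
        (EB.fsum fun m => ((tE (hn.G m m.2).1).sm' (cE ((ho.n m m.2).us false))).add
          ((tE (hn.G m m.2).2.1).sm' (cE ((ho.n m m.2).us true))))).ub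
      (cE (hn.sl false)).lb ⟨p, x, a, b, hp⟩
  case pp =>
    intro l p hp hf
    subst he
    have hn := ho.n l l.2
    have := lineF (a := sp.fP l) hS c0 c1 (mF l.2 (by simp))
      (W_f.sm' (((kF' ho.Dk).sm' (cF (hn.ps true))).add (sF hn.cP))).ub
      (EB.fsum fun m => (tF (hn.G m m.2).1).sm' (wF_v _)).lb ⟨p, hp.toLive⟩
    simp only [← hf] at this
    refine le_trans (le_of_eq ?_) this
    ring
  case pm =>
    intro l p hp hf
    subst he
    have hn := ho.n l l.2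
    have := lineF (a := sp.fM l) hS c0 c1 (mF l.2 (by simp))
      (W_f.sm' (((kF' ho.Dk).sm' (cF (hn.ps false))).add (sF hn.cN))).ub
      (EB.fsum fun m => (tF (hn.G m m.2).2.1).sm' (wF_v _)).lb ⟨p, hp.toLive⟩
    simp only [← hf] at this
    refine le_trans (le_of_eq ?_) this
    ring
  case op =>
    intro l p x hp
    rw [zR, zero_mul]
    exact (isZ_val (ho.n l l.2).dp _ _).ge
  case om =>
    intro l p x hp
    rw [zR, zero_mul]
    exact (isZ_val (ho.n l l.2).dm _ _).ge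
  case hp =>
    intro l
    have h1 : (sp.dp l).tv c e = 0 := isZ_val (ho.n l l.2).dp _ _
    have h2 : (sp.slp true l).tv c e = 0 := isZ_val ((ho.n l l.2).slp true) _ _
    have h3 : ∀ (s : Bool) (m : Fin sp.N), (sp.usp s m).tv c e = 0 := fun s m =>
      isZ_val ((ho.n m m.2).usp s) _ _
    simp only [h1, h2, h3, mul_zero, add_zero, Finset.sum_const_zero, neg_zero, le_refl]
  case hm =>
    intro l
    have h1 : (sp.dm l).tv c e = 0 := isZ_val (ho.n l l.2).dm _ _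
    have h2 : (sp.slp false l).tv c e = 0 := isZ_val ((ho.n l l.2).slp false) _ _
    have h3 : ∀ (s : Bool) (m : Fin sp.N), (sp.usp s m).tv c e = 0 := fun s m =>
      isZ_val ((ho.n m m.2).usp s) _ _
    simp only [h1, h2, h3, mul_zero, add_zero, Finset.sum_const_zero, neg_zero, le_refl]
  case qp =>
    intro l p x hp
    rw [zR, mul_zero, zero_mul, zero_mul]
    exact Finset.sum_nonneg fun m _ => mul_nonneg (tv_nonneg ((ho.n l l.2).G m m.2).2.2.1 c0 c1 _)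
      ((sp.wv m).fn_nonneg_pnd hp.x0 hp.toLive)
  case qm =>
    intro l p x hp
    rw [zR, mul_zero, zero_mul, zero_mul]
    exact Finset.sum_nonneg fun m _ => mul_nonneg (tv_nonneg ((ho.n l l.2).G m m.2).2.2.2 c0 c1 _)
      ((sp.wv m).fn_nonneg_pnd hp.x0 hp.toLive)

end lines

end Sp12

end Pool.Agent.RZ.RCO
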