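import Pool.Agent.RZ.RCO.Gk5

/-! Sheets with an explicit list of types (MP_73ccd0_lc). -/

set_option autoImplicit false

namespace Pool.Agent.RZ.RCO.Sg

/-! ### boolean equality of expressions, computed in the kernel -/

/-- conjunction, second argument evaluated only if needed -/
noncomputable def an (a b : Bool) : Bool := @Bool.rec (fun _ => Bool) false b a

theorem an_iff {a b : Bool} : an a b = true ↔ a = true ∧ b = true := by
  cases a <;> cases b <;> simp [an]

/-- case distinction -/
noncomputable def cas {α : Type} (E : Ex) (c : ℕ → α) (v : ℕ → α) (q : ℕ → α) (w : ℕ → ℕ → α)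
    (u : ℕ → List ℕ → α) (r : ℕ → ℕ → ℕ → ℕ → α) (s : ℕ → ℕ → ℕ → ℕ → α)
    (add sub mul : Ex → Ex → α) : α :=
  @Ex.rec (fun _ => α) c v q w u r s (fun a b _ _ => add a b) (fun a b _ _ => sub a b)
    (fun a b _ _ => mul a b) E

noncomputable def eql (l : List ℕ) : List ℕ → Bool :=
  @List.rec ℕ (fun _ => List ℕ → Bool)
    (fun m => @List.rec ℕ (fun _ => Bool) true (fun _ _ _ => false) m)
    (fun a _ ih m => @List.rec ℕ (fun _ => Bool) false (fun b m _ => an (Nat.beq a b) (ih m)) m) l

theorem eql_eq : ∀ {l m : List ℕ}, eql l m = true → l = m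
  | [], [], _ => rfl
  | [], _ :: _, h => by cases h
  | _ :: _, [], h => by cases h
  | a :: l, b :: m, h => by
    have h1 : an (Nat.beq a b) (eql l m) = true := h
    rw [an_iff] at h1
    rw [Nat.eq_of_beq_eq_true h1.1, eql_eq h1.2]

noncomputable def eqx (E : Ex) : Ex → Bool :=
  @Ex.rec (fun _ => Ex → Bool)
    (fun n F => cas F (fun m => Nat.beq n m) (fun _ => false) (fun _ => false)
      (fun _ _ => false) (fun _ _ => false) (fun _ _ _ _ => false) (fun _ _ _ _ => false)
      (fun _ _ => false) (fun _ _ => false) (fun _ _ => false))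
    (fun n F => cas F (fun _ => false) (fun m => Nat.beq n m) (fun _ => false)
      (fun _ _ => false) (fun _ _ => false) (fun _ _ _ _ => false) (fun _ _ _ _ => false)
      (fun _ _ => false) (fun _ _ => false) (fun _ _ => false))
    (fun n F => cas F (fun _ => false) (fun _ => false) (fun m => Nat.beq n m)
      (fun _ _ => false) (fun _ _ => false) (fun _ _ _ _ => false) (fun _ _ _ _ => false)
      (fun _ _ => false) (fun _ _ => false) (fun _ _ => false))
    (fun p n F => cas F (fun _ => false) (fun _ => false) (fun _ => false)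
      (fun p' n' => an (Nat.beq p p') (Nat.beq n n')) (fun _ _ => false) (fun _ _ _ _ => false)
      (fun _ _ _ _ => false) (fun _ _ => false) (fun _ _ => false) (fun _ _ => false))
    (fun p l F => cas F (fun _ => false) (fun _ => false) (fun _ => false)
      (fun _ _ => false) (fun p' l' => an (Nat.beq p p') (eql l l')) (fun _ _ _ _ => false)
      (fun _ _ _ _ => false) (fun _ _ => false) (fun _ _ => false) (fun _ _ => false))
    (fun p i t n F => cas F (fun _ => false) (fun _ => false) (fun _ => false)
      (fun _ _ => false) (fun _ _ => false)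
      (fun p' i' t' n' => an (Nat.beq p p') (an (Nat.beq i i') (an (Nat.beq t t') (Nat.beq n n'))))
      (fun _ _ _ _ => false) (fun _ _ => false) (fun _ _ => false) (fun _ _ => false))
    (fun p i t n F => cas F (fun _ => false) (fun _ => false) (fun _ => false)
      (fun _ _ => false) (fun _ _ => false) (fun _ _ _ _ => false)
      (fun p' i' t' n' => an (Nat.beq p p') (an (Nat.beq i i') (an (Nat.beq t t') (Nat.beq n n'))))
      (fun _ _ => false) (fun _ _ => false) (fun _ _ => false))
    (fun _ _ ia ib F => cas F (fun _ => false) (fun _ => false) (fun _ => false)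
      (fun _ _ => false) (fun _ _ => false) (fun _ _ _ _ => false) (fun _ _ _ _ => false)
      (fun a' b' => an (ia a') (ib b')) (fun _ _ => false) (fun _ _ => false))
    (fun _ _ ia ib F => cas F (fun _ => false) (fun _ => false) (fun _ => false)
      (fun _ _ => false) (fun _ _ => false) (fun _ _ _ _ => false) (fun _ _ _ _ => false)
      (fun _ _ => false) (fun a' b' => an (ia a') (ib b')) (fun _ _ => false))
    (fun _ _ ia ib F => cas F (fun _ => false) (fun _ => false) (fun _ => false)
      (fun _ _ => false) (fun _ _ => false) (fun _ _ _ _ => false) (fun _ _ _ _ => false)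
      (fun _ _ => false) (fun _ _ => false) (fun a' b' => an (ia a') (ib b'))) E

theorem eqx_eq : ∀ {E F : Ex}, eqx E F = true → E = F := by
  intro E
  induction E with
  | c n =>
    intro F h
    cases F with
    | c m => rw [Nat.eq_of_beq_eq_true (h : Nat.beq n m = true)]
    | _ => cases h
  | v n =>
    intro F h
    cases F with
    | v m => rw [Nat.eq_of_beq_eq_true (h : Nat.beq n m = true)]
    | _ => cases h
  | q n =>
    intro F h
    cases F with
    | q m => rw [Nat.eq_of_beq_eq_true (h : Nat.beq n m = true)]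
    | _ => cases h
  | w p n =>
    intro F h
    cases F with
    | w p' n' =>
      obtain ⟨h1, h2⟩ := an_iff.1 (h : an (Nat.beq p p') (Nat.beq n n') = true)
      rw [Nat.eq_of_beq_eq_true h1, Nat.eq_of_beq_eq_true h2]
    | _ => cases h
  | u p l =>
    intro F h
    cases F with
    | u p' l' =>
      obtain ⟨h1, h2⟩ := an_iff.1 (h : an (Nat.beq p p') (eql l l') = true)
      rw [Nat.eq_of_beq_eq_true h1, eql_eq h2]
    | _ => cases h
  | r p i t n =>
    intro F h
    cases F with
    | r p' i' t' n' =>
      obtain ⟨h1, h2⟩ := an_iff.1 (h : an (Nat.beq p p') (an (Nat.beq i i')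
        (an (Nat.beq t t') (Nat.beq n n'))) = true)
      obtain ⟨h3, h4⟩ := an_iff.1 h2
      obtain ⟨h5, h6⟩ := an_iff.1 h4
      rw [Nat.eq_of_beq_eq_true h1, Nat.eq_of_beq_eq_true h3, Nat.eq_of_beq_eq_true h5,
        Nat.eq_of_beq_eq_true h6]
    | _ => cases h
  | s p i t n =>
    intro F h
    cases F with
    | s p' i' t' n' =>
      obtain ⟨h1, h2⟩ := an_iff.1 (h : an (Nat.beq p p') (an (Nat.beq i i')
        (an (Nat.beq t t') (Nat.beq n n'))) = true)
      obtain ⟨h3, h4⟩ := an_iff.1 h2
      obtain ⟨h5, h6⟩ := an_iff.1 h4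
      rw [Nat.eq_of_beq_eq_true h1, Nat.eq_of_beq_eq_true h3, Nat.eq_of_beq_eq_true h5,
        Nat.eq_of_beq_eq_true h6]
    | _ => cases h
  | add a b iha ihb =>
    intro F h
    cases F with
    | add a' b' =>
      obtain ⟨h1, h2⟩ := an_iff.1 (h : an (eqx a a') (eqx b b') = true)
      rw [iha h1, ihb h2]
    | _ => cases h
  | sub a b iha ihb =>
    intro F h
    cases F with
    | sub a' b' =>
      obtain ⟨h1, h2⟩ := an_iff.1 (h : an (eqx a a') (eqx b b') = true)
      rw [iha h1, ihb h2]
    | _ => cases h
  | mul a b iha ihb =>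
    intro F h
    cases F with
    | mul a' b' =>
      obtain ⟨h1, h2⟩ := an_iff.1 (h : an (eqx a a') (eqx b b') = true)
      rw [iha h1, ihb h2]
    | _ => cases h

noncomputable def eqt (S T : Ty) : Bool :=
  an (Nat.beq S.β T.β) (an (Nat.beq S.D0 T.D0) (an (Nat.beq S.D1 T.D1) (an (Nat.beq S.D2 T.D2)
    (an (Nat.beq S.D3 T.D3) (eqx S.E T.E)))))

theorem eqt_eq {S T : Ty} (h : eqt S T = true) : S = T := by
  unfold eqt at h
  obtain ⟨h1, h⟩ := an_iff.1 h
  obtain ⟨h2, h⟩ := an_iff.1 h
  obtain ⟨h3, h⟩ := an_iff.1 h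
  obtain ⟨h4, h⟩ := an_iff.1 h
  obtain ⟨h5, h6⟩ := an_iff.1 h
  cases S
  cases T
  simp only at h1 h2 h3 h4 h5 h6
  rw [Nat.eq_of_beq_eq_true h1, Nat.eq_of_beq_eq_true h2, Nat.eq_of_beq_eq_true h3,
    Nat.eq_of_beq_eq_true h4, Nat.eq_of_beq_eq_true h5, eqx_eq h6]

/-- equality of lists of types; the first list is the explicit one -/
noncomputable def eqts (l : List Ty) : List Ty → Bool :=
  @List.rec Ty (fun _ => List Ty → Bool)
    (fun m => @List.rec Ty (fun _ => Bool) true (fun _ _ _ => false) m)
    (fun a _ ih m => @List.rec Ty (fun _ => Bool) false (fun b m _ => an (eqt a b) (ih m)) m) l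

theorem eqts_eq : ∀ {l m : List Ty}, eqts l m = true → l = m
  | [], [], _ => rfl
  | [], _ :: _, h => by cases h
  | _ :: _, [], h => by cases h
  | a :: l, b :: m, h => by
    have h1 : an (eqt a b) (eqts l m) = true := h
    rw [an_iff] at h1
    rw [eqt_eq h1.1, eqts_eq h1.2]

/-! ### rows and parts of a list of types -/

theorem alll_iff {f : Ty → Bool} {l : List Ty} : alll f l = true ↔ ∀ T ∈ l, f T = true := by
  constructor
  · exact alll_of
  · intro h
    induction l with
    | nil => rfl
    | cons T l ih =>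
      have e : alll f (T :: l) = @Bool.rec (fun _ => Bool) false (alll f l) (f T) := rfl
      rw [e, h T (by simp)]
      exact ih fun T' h' => h T' (by simp [h'])

theorem allr_iff {f : ℕ → Bool} {n : ℕ} : allr f n = true ↔ ∀ j < n, f j = true := by
  constructor
  · exact allr_of
  · intro h
    induction n with
    | zero => rfl
    | succ n ih =>
      have e : allr f (n + 1) = @Bool.rec (fun _ => Bool) false (allr f n) (f n) := rfl
      rw [e, h n (by omega)]
      exact ih fun j hj => h j (by omega)

/-- all types at the row `j` -/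
def rowOk (ts : List Ty) (R m D j : ℕ) : Prop :=
  ∀ T ∈ ts, row T.E T.β T.D0 T.D1 T.D2 T.D3 (Nat.land (Nat.shiftRight D (Nat.mul (nat_lit 32)
    (Nat.mul R j))) (Nat.pred (Nat.pow (nat_lit 2) (Nat.mul (nat_lit 32) m)))) = true

theorem steps_iff {ts : List Ty} {R m D j0 n : ℕ} :
    steps ts R m D j0 n = true ↔ ∀ j, j0 ≤ j → j < j0 + n → rowOk ts R m D j := by
  unfold steps rowOk
  rw [frc_eq, allr_iff]
  constructor
  · intro h j h0 h1 T hT
    have h2 := h (j - j0) (by omega)
    rw [frc_eq, alll_iff] at h2
    have h3 := h2 T hT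
    rw [show Nat.add j0 (j - j0) = j from by show j0 + (j - j0) = j; omega] at h3
    exact h3
  · intro h j hj
    rw [frc_eq, alll_iff]
    exact fun T hT => h (j0 + j) (by omega) (by omega) T hT

theorem rowOk_flat {L : List (List Ty)} {R m D j : ℕ} (h : ∀ l ∈ L, rowOk l R m D j) :
    rowOk L.flatten R m D j := by
  intro T hT
  obtain ⟨l, hl, h1⟩ := List.mem_flatten.1 hT
  exact h l hl T h1

theorem steps_one {ts : List Ty} {R m D j : ℕ} (h : rowOk ts R m D j) :
    steps ts R m D j 1 = true := by
  rw [steps_iff]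
  intro j' h0 h1
  rw [show j' = j by omega]
  exact h

theorem shps_flat {L : List (List Ty)} {m : ℕ} (h : ∀ l ∈ L, shps l m = true) :
    shps L.flatten m = true := by
  unfold shps at h ⊢
  rw [List.all_eq_true]
  intro T hT
  obtain ⟨l, hl, h1⟩ := List.mem_flatten.1 hT
  have h2 := h l hl
  rw [List.all_eq_true] at h2
  exact h2 T h1

/-- the list in pieces -/
theorem flat_of : ∀ {L : List (List Ty)} {ts : List Ty} (n : ℕ),
    (∀ i (hi : i < L.length), (L[i]) = (ts.drop (n * i)).take n) → ts.length ≤ n * L.length →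
    ts = L.flatten
  | [], ts, n, _, hl => by
    simp only [List.length_nil, Nat.mul_zero, Nat.le_zero, List.length_eq_zero_iff] at hl
    simp [hl]
  | l :: L, ts, n, h, hl => by
    have h0 := h 0 (by simp)
    simp only [List.getElem_cons_zero, Nat.mul_zero, List.drop_zero] at h0
    have key : ts.drop n = L.flatten := by
      refine flat_of n (fun i hi => ?_) ?_
      · have h1 := h (i + 1) (by simp only [List.length_cons]; omega)
        simp only [List.getElem_cons_succ] at h1
        rw [h1, List.drop_drop, show n * (i + 1) = n + n * i by ring]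
      · rw [List.length_drop]
        have : n * (L.length + 1) = n * L.length + n := by ring
        rw [List.length_cons, this] at hl
        omega
    rw [List.flatten_cons, h0, ← key, List.take_append_drop]

end Pool.Agent.RZ.RCO.Sg

namespace Pool.Agent.RZ.RCO

open Sg

/-- **the rows of a sheet from an explicit list of types in pieces** -/
theorem Sheet.at' {S : Sheet} {L : List (List Ty)} {R m D j : ℕ} (hmp : S.mp = true)
    (hty : S.ty = L.flatten) (hs : ∀ l ∈ L, shps l m = true)
    (h : ∀ l ∈ L, ∃ j0 n, j0 ≤ j ∧ j < j0 + n ∧ steps l R m D j0 n = true) : S.At D R j := by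
  refine Sheet.at (m := m) (j0 := j) (n := 1) ?_ le_rfl (by omega)
  unfold Sheet.chk
  simp only [Bool.and_eq_true]
  refine ⟨hmp, ?_, ?_⟩
  · rw [hty]
    exact shps_flat hs
  · rw [hty]
    refine steps_one (rowOk_flat fun l hl => ?_)
    obtain ⟨j0, n, h0, h1, h2⟩ := h l hl
    exact steps_iff.1 h2 j h0 h1

end Pool.Agent.RZ.RCO
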