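import Pool.Agent.RZ.RCM.NuB
import Pool.Agent.RZ.RCO.Ex9
import Pool.Agent.RZ.RCO.Gl3

/-! The bounds of the rates of a world from the bounds of level 0 (MP_73ccd0_lc). -/

namespace Pool.Agent.RZ.RCO

open Set Finset Pool.Agent.RZ.RCRSHalf Pool.Agent.RZ.RCG Pool.Agent.RZ.RCG.Ct
open Pool.Agent.RZ.RCN Pool.Agent.RZ.RCN.K

set_option linter.unusedSectionVars false

variable {V : Type*} [Fintype V] [DecidableEq V]
variable {Z : Hzd} {x : V → V → ℝ} {P : V → Prop} [DecidablePred P] {sl : ℝ → ℝ → ℝ}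
variable {A D : Finset V} {α τ σ : ℝ} {ζ : V → V → ℝ → ℝ} {Y Y' N N' : V → ℝ → ℝ}

/-- the bounds of level 0 at one time -/
structure L0b (Z : Hzd) (x : V → V → ℝ) (P : V → Prop) (D : Finset V)
    (ζ : V → V → ℝ → ℝ) (Y N : V → ℝ → ℝ) (r : ℝ) (W : Pt → ℝ) (Wp : ℝ → ℝ)
    (Nr : Pt → ℝ) (Np : ℝ → ℝ) : Prop where
  hW : ∀ v ∈ Dᶜ, P v → Real.exp (yv D ζ Y v r) ≤ W (fp x D v)
  hWp : ∀ v ∈ Dᶜ, ∀ f ∈ Dᶜ, ¬P f → x v f ≠ 0 → Real.exp (yv D ζ Y f r) ≤ Wp (x v f)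
  hN : ∀ v ∈ Dᶜ, P v → N v r ≤ Nr (fp x D v)
  hNp : ∀ v ∈ Dᶜ, ∀ f ∈ Dᶜ, ¬P f → x v f ≠ 0 → N f r ≤ Np (x v f)
  Wp1 : ∀ y ∈ Icc (0 : ℝ) 1, 1 ≤ Wp y
  Nr1 : ∀ v ∈ Dᶜ, P v → Nr (fp x D v) ≤ 1
  Np1 : ∀ y ∈ Icc (0 : ℝ) 1, Np y ≤ 1

/-- **the bounds of the rates of a world** -/
theorem L0b.wbd {r : ℝ} {W : Pt → ℝ} {Wp : ℝ → ℝ} {Nr : Pt → ℝ} {Np : ℝ → ℝ}
    (hL : L0b Z x P D ζ Y N r W Wp Nr Np) (hZ : Z.Ok sl) (hx : RCG.Ct.Wt x P 1)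
    (h : Dt0 Z x P A D α τ σ ζ Y Y' N N') (hr : r ∈ Icc 0 τ) (τ1 : τ ≤ 1) :
    WBd x P D (Z.hh x P r) (Tc0 (Z.hh x P) D ζ Y r) (Ac0 (Z.hh x P) D ζ Y r)
      (Bc0 (Z.hh x P) D N r) W Wp Nr Np := by
  have hx' : RCM.Wt x := wt_of hx
  have hD := h.dat hZ hx τ1
  have b0 : ∀ u v, 0 ≤ Z.hh x P r u v := fun u v => h.L.b0 u v r hr
  have ms : ∀ v, mas x D v ∈ Icc (0 : ℝ) 1 := fun v => by
    have h1 := fm_nonneg hx'.nn (Dᶜ.erase v) v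
    have h2 := fm_le hx' (erase_sub D v) v
    have h3 := kk_nonneg hx' D v
    exact ⟨h1, by linarith⟩
  have W1 : ∀ v ∈ Dᶜ, 1 ≤ vo x P D W Wp v := fun v hv => by
    by_cases hP : P v
    · rw [vo_l hP]
      exact (Real.one_le_exp (h.y0 v hr)).trans (hL.hW v hv hP)
    · rw [vo_p hP]
      exact hL.Wp1 _ (ms v)
  -- the factors at the pairs
  have mp : ∀ u, ¬P u → ∀ w ∈ Dᶜ, x u w ≠ 0 → mas x D u = x w u := fun u hP w hw h0 => by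
    have h0' : x w u ≠ 0 := by rwa [hx.symm w u]
    refine mas_pend hx hw hP h0' fun e => h0 ?_
    rw [e]
    exact hx.diag u
  have hE : ∀ u ∈ Dᶜ, ∀ w ∈ Dᶜ, x u w ≠ 0 →
      Real.exp (yv D ζ Y u r) ≤ vo x P D W Wp u := fun u hu w hw h0 => by
    by_cases hP : P u
    · rw [vo_l hP]
      exact hL.hW u hu hP
    · rw [vo_p hP, mp u hP w hw h0]
      exact hL.hWp w hw u hu hP (by rwa [hx.symm w u])
  have hNu : ∀ u ∈ Dᶜ, ∀ w ∈ Dᶜ, x u w ≠ 0 → N u r ≤ vo x P D Nr Np u := fun u hu w hw h0 => by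
    by_cases hP : P u
    · rw [vo_l hP]
      exact hL.hN u hu hP
    · rw [vo_p hP, mp u hP w hw h0]
      exact hL.hNp w hw u hu hP (by rwa [hx.symm w u])
  have hN1 : ∀ u ∈ Dᶜ, vo x P D Nr Np u ≤ 1 := fun u hu => by
    by_cases hP : P u
    · rw [vo_l hP]
      exact hL.Nr1 u hu hP
    · rw [vo_p hP]
      exact hL.Np1 _ (ms u)
  have pr : ∀ u ∈ Dᶜ, ∀ w ∈ Dᶜ, x u w ≠ 0 → Real.exp (yv D ζ Y u r + yv D ζ Y w r)
      ≤ vo x P D W Wp u * vo x P D W Wp w :=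
    fun u hu w hw h0 => by
      rw [Real.exp_add]
      exact mul_le_mul (hE u hu w hw h0) (hE w hw u hu (by rwa [hx.symm w u]))
        (Real.exp_pos _).le (zero_le_one.trans (W1 u hu))
  have z : ∀ u w, x u w = 0 → Z.hh x P r u w = 0 := fun u w h0 => Hzd.hh_zero h0 r
  refine ⟨W1, hD.T0 r hr, hD.A0 r hr, hD.B0 r hr, fun u => ?_, hD.Ts r hr, fun u hu w hw => ?_,
    fun u hu w hw => ?_, fun u hu w hw => ?_⟩
  · unfold Tc0 cut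
    split_ifs
    · rfl
    · show Z.hh x P r u u * _ = 0
      rw [z u u (hx.diag u), zero_mul]
  · have e : Tc0 (Z.hh x P) D ζ Y r u w
        = Z.hh x P r u w * Real.exp (yv D ζ Y u r + yv D ζ Y w r) := cut_eq hu hw
    rw [e]
    by_cases h0 : x u w = 0
    · rw [z u w h0, zero_mul, zero_mul]
    · exact mul_le_mul_of_nonneg_left (pr u hu w hw h0) (b0 u w)
  · have e : Ac0 (Z.hh x P) D ζ Y r u w
        = Z.hh x P r u w * (Real.exp (yv D ζ Y u r + yv D ζ Y w r) - 1) := cut_eq hu hw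
    rw [e]
    by_cases h0 : x u w = 0
    · rw [z u w h0, zero_mul, zero_mul]
    · exact mul_le_mul_of_nonneg_left (sub_le_sub_right (pr u hu w hw h0) 1) (b0 u w)
  · have e : Bc0 (Z.hh x P) D N r u w = Z.hh x P r u w * bmx (N u r) (N w r) := cut_eq hu hw
    rw [e]
    by_cases h0 : x u w = 0
    · rw [z u w h0, zero_mul, zero_mul]
    · exact mul_le_mul_of_nonneg_left (bmx_mono (hNu u hu w hw h0)
        (hNu w hw u hu (by rwa [hx.symm w u])) (hN1 u hu) (hN1 w hw)) (b0 u w)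

end Pool.Agent.RZ.RCO
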