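import Pool.Agent.RZ.RCO.Gk10

/-! The symbolic data of the position sums and its lines (MP_73ccd0_lc). -/

set_option autoImplicit false

namespace Pool.Agent.RZ.RCO

open Sg Set Sp12

/-- **the symbolic data of the position sums**; the weights of the positions carry the index
`m < N`, `B s m` the used rows of level 1/2 with the weight `w1 m` -/
structure SpP where
  /-- number of the weights -/
  N : ℕ
  RR : List Re
  Rp : Re
  W : Re
  Wp : List Re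
  Dk : Re
  w1 : ℕ → Wf
  B : Bool → ℕ → ℕ → Re
  /-- the bounds of the removal sums of the weights -/
  Th : ℕ → ℕ → Re
  Kn : ℕ → ℕ → Re
  Kp : ℕ → ℕ → Re
  Ke : ℕ → ℕ → Re
  Km : ℕ → ℕ → Re
  cD : EcR
  cN : ℕ → EcR
  cP : ℕ → EcR
  cH : ℕ → EcR
  cW : ℕ → EcR
  /-- the kernels of the pairs and of the single terms, the factors -/
  RD : List Re
  RDp : Re
  RF : List Re
  REp : Re
  κD : Re
  κE : Re
  c1 : Re
  c4 : Re
  cX : ℕ → EcR
  cY : ℕ → EcR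
  /-- the end values -/
  nu : ℕ → ℕ → Re
  du : ℕ → ℕ → Re
  /-- slopes and used values -/
  sl : Bool → ℕ → ℕ → Re
  us : Bool → ℕ → ℕ → Re
  slp : Bool → ℕ → Re
  usp : Bool → ℕ → Re
  /-- multipliers of the facts: kind, weight -/
  fe : ℕ → ℕ → List (Re × FE)
  ff : ℕ → ℕ → List (Re × Fa)

namespace SpP

variable (sp : SpP)

def okM (m : ℕ) : Bool :=
  all13 isK (sp.B true m) && all13 isK (sp.B false m) && all13 isK (sp.Th m)
    && all13 isK (sp.nu m) && all13 isK (sp.du m) && all13 isK (sp.sl true m)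
    && all13 isK (sp.sl false m) && all13 isK (sp.us true m) && all13 isK (sp.us false m)

def okZ (m : ℕ) : Bool :=
  isZ (sp.slp true m) && isZ (sp.slp false m) && isZ (sp.usp true m) && isZ (sp.usp false m)

def okC (m : ℕ) : Bool :=
  (sp.cN m).okT && (sp.cP m).okT && (sp.cH m).okT && (sp.cW m).okT && (sp.cX m).okT
    && (sp.cY m).okT

def okG (m m' : ℕ) : Bool :=
  isT (sp.Kn m m') && isP (sp.Kn m m') && isT (sp.Kp m m') && isP (sp.Kp m m')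
    && isT (sp.Ke m m') && isP (sp.Ke m m') && isT (sp.Km m m') && isP (sp.Km m m')

def okK : Bool :=
  isT sp.κD && isP sp.κD && isT sp.κE && isP sp.κE && isT sp.c1 && isP sp.c1 && isT sp.c4
    && isP sp.c4

def okR : Bool :=
  allL isT sp.RR && isZ sp.Rp && isK sp.W && allL isT sp.Wp && isK sp.Dk && allL isT sp.RD
    && isZ sp.RDp && allL isT sp.RF && isZ sp.REp && sp.cD.okT

def ok : Bool :=
  sp.okR && sp.okK && allL (fun m => sp.okM m && sp.okZ m && sp.okC m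
    && allL (sp.okG m) (List.range sp.N)) (List.range sp.N)

/-! ### the lines -/

def wF (m : ℕ) : Vx := (sp.w1 m).vec (sp.w1 m).kR eK fF
def wE (m : ℕ) : Vx := (sp.w1 m).vec (sp.w1 m).kR eK eF

def k : Re := kEL sp.RR

/-- half form -/
def hV (F : ℕ → Re) : Vx := vsm hf (vadd (fmV F eK eQ eF) (fmV F eK eF eF))

def eD : LnE := ⟨vsm sp.k [sp.W], evV sp.cD eX eK eF.h, sp.fe 0 0⟩
def eN (m : ℕ) : LnE := ⟨vsm sp.k (vsm sp.W (vadd (sp.wE m) (hV (sp.B false m)))),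
  evV (sp.cN m) eX eK eF.h, sp.fe 1 m⟩
def eP (m : ℕ) : LnE := ⟨vsm sp.k (vsm sp.W (hV (sp.B true m))),
  evV (sp.cP m) eX eK eF.h, sp.fe 2 m⟩
def eH (m : ℕ) : LnE := ⟨vsm sp.k (vsm sp.W (hV (sp.B false m))),
  evV (sp.cH m) eX eK eF.h, sp.fe 3 m⟩
def eW (m : ℕ) : LnE := ⟨vsm sp.k (vsm sp.W (sp.wE m)), evV (sp.cW m) eX eK eF.h, sp.fe 4 m⟩
def eX' (m : ℕ) : LnE := ⟨vsm (kEL sp.RD) (vfs (fun m' => vsm (sp.Kp m m') (sp.wE m')) sp.N),
  evV (sp.cX m) eX eK eF.h, sp.fe 5 m⟩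
def eY (m : ℕ) : LnE := ⟨vadd (vsm (kEL sp.RF) (fmV (sp.Th m) eK eQ eF))
    (vsm (kEL sp.RD) (vfs (fun m' => vsm (sp.Km m m') (sp.wE m')) sp.N)),
  evV (sp.cY m) eX eK eF.h, sp.fe 6 m⟩
def vt (m : ℕ) : LnE := ⟨vsm sp.W (svE (sp.cW m)), fmV (sp.Th m) eK eQ eF, sp.fe 7 m⟩

/-- end value and used lower function; end value and used upper function -/
def vn (m' : ℕ) : Vx := vadd (fmV (sp.nu m') eK eQ eF) (fmV (sp.us false m') eK eQ eF)
def vu (κ c : Re) (m' : ℕ) : Vx :=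
  vadd (vsm κ (fmV (sp.du m') eK eQ eF)) (vsm c (fmV (sp.us true m') eK eQ eF))

def vP (m : ℕ) : LnE := ⟨vadd (svE (sp.cX m)) (vfs (fun m' => vadd (vsm (sp.Kn m m') (sp.vn m'))
    (vsm (sp.Kp m m') (sp.vu sp.κD sp.c4 m'))) sp.N), fmV (sp.sl true m) eK eQ eF, sp.fe 8 m⟩
def vQ (m : ℕ) : LnE := ⟨vadd (svE (sp.cY m)) (vfs (fun m' => vadd (vsm (sp.Ke m m')
    (sp.vu sp.κE sp.c1 m')) (vadd (vsm (sp.Kp m m') (sp.vn m')) (vsm (sp.Km m m')
    (sp.vu sp.κD sp.c4 m')))) sp.N), fmV (sp.sl false m) eK eQ eF, sp.fe 9 m⟩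
/-- the slopes are nonnegative -/
def gP (m : ℕ) : LnE := ⟨[], fmV (sp.sl true m) eK eQ eF, sp.fe 10 m⟩
def gM (m : ℕ) : LnE := ⟨[], fmV (sp.sl false m) eK eQ eF, sp.fe 11 m⟩

def fD : LnF := ⟨svF sp.cD, [sp.Dk], sp.ff 0 0⟩
/-- the rows are nonnegative in the full world -/
def fB (s : Bool) (m : ℕ) : LnF := ⟨[], fmV (sp.B s m) eK fF fF, sp.ff (cond s 1 2) m⟩
/-- a position -/
def fP (F : ℕ → Re) (C : EcR) (G : ℕ → Re) (f : List (Re × Fa)) : LnF :=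
  ⟨vsm sp.W (vadd (vsm sp.Dk (fmV F eK fF fF)) (svF C)),
    vfs (fun m => vsm (G m) (sp.wF m)) sp.N, f⟩
def fE (m : ℕ) : LnF := ⟨vsm sp.W (svF (sp.cW m)), vfs (fun m' => vsm (sp.Ke m m') (sp.wF m')) sp.N,
  sp.ff 5 m⟩

def lE (m : ℕ) : List LnE := [sp.eN m, sp.eP m, sp.eH m, sp.eW m, sp.eX' m, sp.eY m, sp.vt m,
  sp.vP m, sp.vQ m, sp.gP m, sp.gM m]
def lF (m : ℕ) : List LnF := [sp.fB true m, sp.fB false m,
  sp.fP (sp.B false m) (sp.cN m) (sp.Kn m) (sp.ff 3 m),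
  sp.fP (sp.B true m) (sp.cP m) (sp.Kp m) (sp.ff 4 m), sp.fE m,
  sp.fP (sp.B false m) (sp.cH m) (sp.Km m) (sp.ff 6 m)]

/-- **all lines** -/
def sheet : Sheet where
  e := sp.eD :: (List.range sp.N).flatMap sp.lE
  p := []
  f := sp.fD :: (List.range sp.N).flatMap sp.lF
  o := []
  s := [(kc 1, sp.W)]

/-! ### the format -/

structure OkM (sp : SpP) (m : ℕ) : Prop where
  B : ∀ s, all13 isK (sp.B s m) = true
  Th : all13 isK (sp.Th m) = true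
  nu : all13 isK (sp.nu m) = true
  du : all13 isK (sp.du m) = true
  sl : ∀ s, all13 isK (sp.sl s m) = true
  us : ∀ s, all13 isK (sp.us s m) = true
  slp : ∀ s, isZ (sp.slp s m) = true
  usp : ∀ s, isZ (sp.usp s m) = true
  cN : (sp.cN m).okT = true
  cP : (sp.cP m).okT = true
  cH : (sp.cH m).okT = true
  cW : (sp.cW m).okT = true
  cX : (sp.cX m).okT = true
  cY : (sp.cY m).okT = true
  Kn : ∀ m' < sp.N, isT (sp.Kn m m') = true
  Knp : ∀ m' < sp.N, isP (sp.Kn m m') = true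
  Kp : ∀ m' < sp.N, isT (sp.Kp m m') = true
  Kpp : ∀ m' < sp.N, isP (sp.Kp m m') = true
  Ke : ∀ m' < sp.N, isT (sp.Ke m m') = true
  Kep : ∀ m' < sp.N, isP (sp.Ke m m') = true
  Km : ∀ m' < sp.N, isT (sp.Km m m') = true
  Kmp : ∀ m' < sp.N, isP (sp.Km m m') = true

structure Ok' (sp : SpP) : Prop where
  RR : allL isT sp.RR = true
  Rp : isZ sp.Rp = true
  W : isK sp.W = true
  Wp : allL isT sp.Wp = true
  Dk : isK sp.Dk = true
  RD : allL isT sp.RD = true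
  RDp : isZ sp.RDp = true
  RF : allL isT sp.RF = true
  REp : isZ sp.REp = true
  cD : sp.cD.okT = true
  κD : isT sp.κD = true
  κDp : isP sp.κD = true
  κE : isT sp.κE = true
  κEp : isP sp.κE = true
  c1 : isT sp.c1 = true
  c1p : isP sp.c1 = true
  c4 : isT sp.c4 = true
  c4p : isP sp.c4 = true
  m : ∀ m < sp.N, OkM sp m

variable {sp : SpP}

theorem okM_of {m : ℕ} (h : (sp.okM m && sp.okZ m && sp.okC m
    && allL (sp.okG m) (List.range sp.N)) = true) : OkM sp m := by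
  unfold okM okZ okC at h
  simp only [Bool.and_eq_true] at h
  obtain ⟨⟨⟨⟨⟨⟨⟨⟨⟨⟨⟨a1, a2⟩, a3⟩, a4⟩, a5⟩, a6⟩, a7⟩, a8⟩, a9⟩, ⟨⟨⟨b1, b2⟩, b3⟩, b4⟩⟩,
    ⟨⟨⟨⟨⟨d1, d2⟩, d3⟩, d4⟩, d5⟩, d6⟩⟩, g⟩ := h
  have key : ∀ m' < sp.N, _ := fun m' hm => allL_of g m' (List.mem_range.2 hm)
  unfold okG at key
  simp only [Bool.and_eq_true] at key
  exact ⟨fun s => by cases s <;> assumption, a3, a4, a5, fun s => by cases s <;> assumption,
    fun s => by cases s <;> assumption, fun s => by cases s <;> assumption,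
    fun s => by cases s <;> assumption, d1, d2, d3, d4, d5, d6,
    fun m' hm => (key m' hm).1.1.1.1.1.1.1, fun m' hm => (key m' hm).1.1.1.1.1.1.2,
    fun m' hm => (key m' hm).1.1.1.1.1.2, fun m' hm => (key m' hm).1.1.1.1.2,
    fun m' hm => (key m' hm).1.1.1.2, fun m' hm => (key m' hm).1.1.2,
    fun m' hm => (key m' hm).1.2, fun m' hm => (key m' hm).2⟩

theorem ok_of (h : sp.ok = true) : Ok' sp := by
  unfold ok okR okK at h
  simp only [Bool.and_eq_true] at h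
  obtain ⟨⟨⟨⟨⟨⟨⟨⟨⟨⟨⟨r1, r2⟩, r3⟩, r4⟩, r5⟩, r6⟩, r7⟩, r8⟩, r9⟩, r10⟩,
    ⟨⟨⟨⟨⟨⟨⟨k1, k2⟩, k3⟩, k4⟩, k5⟩, k6⟩, k7⟩, k8⟩⟩, hn⟩ := h
  exact ⟨r1, r2, r3, r4, r5, r6, r7, r8, r9, r10, k1, k2, k3, k4, k5, k6, k7, k8,
    fun m hm => okM_of (by
      have := allL_of hn m (List.mem_range.2 hm)
      simpa only [Bool.and_eq_true] using this)⟩

/-- the factor of a vertex -/
noncomputable def fW (sp : SpP) (c : ℝ) (e : ℕ → ℕ) (p : Pt) : ℝ := sp.W.kv c e p.k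

end SpP

end Pool.Agent.RZ.RCO
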