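import Pool.Agent.RZ.RCO.Gp1
import Pool.Agent.RZ.RCO.GsL

/-! The lines of the position sums from the checks of the sheet (MP_73ccd0_lc). -/

set_option autoImplicit false

namespace Pool.Agent.RZ.RCO

open Sg Set Sp12

namespace SpP

variable {sp : SpP} {D R j : ℕ} {c : ℝ}

section mem

variable {m : ℕ}

theorem mE (hm : m < sp.N) {a : LnE} (h : a ∈ sp.lE m) : a ∈ sp.sheet.e :=
  List.mem_cons_of_mem _ (List.mem_flatMap.2 ⟨m, List.mem_range.2 hm, h⟩)
theorem mF (hm : m < sp.N) {a : LnF} (h : a ∈ sp.lF m) : a ∈ sp.sheet.f :=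
  List.mem_cons_of_mem _ (List.mem_flatMap.2 ⟨m, List.mem_range.2 hm, h⟩)

end mem

/-- half form of a row -/
theorem hV_v {F : ℕ → Re} (h : all13 isK F = true) {e : ℕ → ℕ} :
    EB (rE c) fE' e (fun z => (Sp12.cf F c e z.p + Sp12.cf F c e z.p.full) / 2) (hV F) :=
  (half_v.sm' ((cE h).add (cEF h))).congr fun z => by ring

/-- **the lines of the position sums** -/
theorem lp1 (ho : Ok' sp) (hS : sp.sheet.At D R j) (c0 : 0 ≤ c) (c1 : c ≤ 1) {e : ℕ → ℕ}
    (he : e = rwd D R j) {CB : Bool → Fin sp.N → ℝ} {ν δ : Fin sp.N → Pt → ℝ}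
    {Cν Cδ : Fin sp.N → ℝ}
    (hν : ∀ m p, Sa p → ν m p ≤ Sp12.cf (sp.nu m) c e p)
    (hδ : ∀ m p, Sa p → δ m p ≤ Sp12.cf (sp.du m) c e p)
    (hCν : ∀ m, Cν m ≤ 0) (hCδ : ∀ m, Cδ m ≤ 0) :
    LP1 (M := Fin sp.N) (hT sp.RR c e) (sp.Rp.tv c e) (sp.fW c e) (hT sp.Wp c e)
      (hT sp.RD c e) (sp.RDp.tv c e) (hT sp.RF c e) (sp.REp.tv c e) (fun m => (sp.w1 m).fn)
      (fun s m => Sp12.cf (sp.B s m) c e) CB (fun m => Sp12.cf (sp.Th m) c e) (fun _ => 0) ν δ
      Cν Cδ (sp.κD.tv c e) (sp.κE.tv c e) (sp.c1.tv c e) (sp.c4.tv c e)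
      (fun s m => Sp12.cf (sp.us s m) c e) (fun s m p => -Sp12.cf (sp.sl s m) c e p)
      (fun s m => (sp.usp s m).tv c e) (fun s m => -(sp.slp s m).tv c e)
      (fun m m' => (sp.Kn m m').tv c e) (fun m m' => (sp.Kp m m').tv c e)
      (fun m m' => (sp.Ke m m').tv c e) (fun m m' => (sp.Km m m').tv c e)
      (fun k => sp.Dk.kv c e k) (sp.cD.tv c e) (fun m => (sp.cN m).tv c e)
      (fun m => (sp.cP m).tv c e) (fun m => (sp.cH m).tv c e) (fun m => (sp.cW m).tv c e)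
      (fun m => (sp.cX m).tv c e) (fun m => (sp.cY m).tv c e) (fun _ => 0) (fun _ => 0) := by
  have W_v : RCO.RE (rE c) e (fun z => sp.fW c e z.p.full) sp.W := kE' ho.W
  have W_f : RCO.RE (rF c) e (fun z => sp.fW c e z.p.full) sp.W := kF' ho.W
  have zR : sp.Rp.tv c e = 0 := isZ_val ho.Rp _ _
  have zD : sp.RDp.tv c e = 0 := isZ_val ho.RDp _ _
  have zE : sp.REp.tv c e = 0 := isZ_val ho.REp _ _
  have κD0 : 0 ≤ sp.κD.tv c e := tv_nonneg ho.κDp c0 c1 _
  have κE0 : 0 ≤ sp.κE.tv c e := tv_nonneg ho.κEp c0 c1 _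
  have c10 : 0 ≤ sp.c1.tv c e := tv_nonneg ho.c1p c0 c1 _
  have c40 : 0 ≤ sp.c4.tv c e := tv_nonneg ho.c4p c0 c1 _
  have Kn0 : ∀ m m' : Fin sp.N, 0 ≤ (sp.Kn m m').tv c e := fun m m' =>
    tv_nonneg ((ho.m m m.2).Knp m' m'.2) c0 c1 _
  have Kp0 : ∀ m m' : Fin sp.N, 0 ≤ (sp.Kp m m').tv c e := fun m m' =>
    tv_nonneg ((ho.m m m.2).Kpp m' m'.2) c0 c1 _
  have Ke0 : ∀ m m' : Fin sp.N, 0 ≤ (sp.Ke m m').tv c e := fun m m' =>
    tv_nonneg ((ho.m m m.2).Kep m' m'.2) c0 c1 _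
  have Km0 : ∀ m m' : Fin sp.N, 0 ≤ (sp.Km m m').tv c e := fun m m' =>
    tv_nonneg ((ho.m m m.2).Kmp m' m'.2) c0 c1 _
  -- end value and used function
  have hn : ∀ m' : Fin sp.N, EB (rE c) fE' e (fun z => Sp12.cf (sp.nu m') c e z.p
      + Sp12.cf (sp.us false m') c e z.p) (sp.vn m') := fun m' =>
    (cE (ho.m m' m'.2).nu).add (cE ((ho.m m' m'.2).us false))
  have hu : ∀ {κ C : Re}, isT κ = true → isT C = true → ∀ m' : Fin sp.N, EB (rE c) fE' e
      (fun z => κ.tv c e * Sp12.cf (sp.du m') c e z.p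
        + C.tv c e * Sp12.cf (sp.us true m') c e z.p) (sp.vu κ C m') := fun hκ hC m' =>
    ((tE hκ).sm' (cE (ho.m m' m'.2).du)).add ((tE hC).sm' (cE ((ho.m m' m'.2).us true)))
  have zC : ∀ s (m' : Fin sp.N), (sp.usp s m').tv c e = 0 := fun s m' =>
    isZ_val ((ho.m m' m'.2).usp s) _ _
  have zS : ∀ s (m' : Fin sp.N), (sp.slp s m').tv c e = 0 := fun s m' =>
    isZ_val ((ho.m m' m'.2).slp s) _ _
  have sn : ∀ (m' : Fin sp.N) (p : Pt), Sa p → ν m' p + Sp12.cf (sp.us false m') c e p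
      ≤ Sp12.cf (sp.nu m') c e p + Sp12.cf (sp.us false m') c e p := fun m' p hp =>
    add_le_add (hν m' p hp) le_rfl
  have su : ∀ {κ C : ℝ}, 0 ≤ κ → ∀ (m' : Fin sp.N) (p : Pt), Sa p →
      κ * δ m' p + C * Sp12.cf (sp.us true m') c e p
      ≤ κ * Sp12.cf (sp.du m') c e p + C * Sp12.cf (sp.us true m') c e p := fun hκ m' p hp =>
    add_le_add (mul_le_mul_of_nonneg_left (hδ m' p hp) hκ) le_rfl
  constructor
  case W1 =>
    intro p x a b hp
    subst he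
    have h1 := hS.s (kc 1, sp.W) (by simp [sheet]) (rhoE p x c) (rhoE0 hp c0) (rhoE1 hp c1)
    rw [show (kc 1, sp.W).1.val (rhoE p x c) (rwd D R j) = 1 by
      show (kc 1).val _ _ = 1
      rw [kc_val, Nat.cast_one]] at h1
    exact h1.trans (kv_val' ho.W rfl rfl _).le
  case B0 =>
    intro s m p hp hf
    subst he
    have := hS.lF (a := sp.fB s m) c0 c1 (mF m.2 (by cases s <;> simp [lF])) EB.nil.ub
      (cF ((ho.m m m.2).B s)).lb ⟨p, hp.toLive⟩
    simp only [← hf] at this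
    exact this
  case eD =>
    refine hS.el c0 c1 he (l := sp.eD) (by simp [sheet]) ho.cD rfl ?_
    exact (kEL_v ho.RR).sm' (EB.oneE W_v)
  case eN =>
    intro m
    refine hS.el c0 c1 he (l := sp.eN m) (mE m.2 (by simp [lE])) (ho.m m m.2).cN rfl ?_
    exact ((kEL_v ho.RR).sm' (W_v.sm' ((wE_v _).add (hV_v ((ho.m m m.2).B false))))).congr
      fun z => by ring
  case eP =>
    intro m
    refine hS.el c0 c1 he (l := sp.eP m) (mE m.2 (by simp [lE])) (ho.m m m.2).cP rfl ?_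
    exact (kEL_v ho.RR).sm' (W_v.sm' (hV_v ((ho.m m m.2).B true)))
  case eH =>
    intro m
    refine hS.el c0 c1 he (l := sp.eH m) (mE m.2 (by simp [lE])) (ho.m m m.2).cH rfl ?_
    exact (kEL_v ho.RR).sm' (W_v.sm' (hV_v ((ho.m m m.2).B false)))
  case eW =>
    intro m
    refine hS.el c0 c1 he (l := sp.eW m) (mE m.2 (by simp [lE])) (ho.m m m.2).cW rfl ?_
    exact (kEL_v ho.RR).sm' (W_v.sm' (wE_v _))
  case eX =>
    intro m
    refine hS.el c0 c1 he (l := sp.eX' m) (mE m.2 (by simp [lE])) (ho.m m m.2).cX rfl ?_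
    exact (kEL_v ho.RD).sm' (EB.fsum fun m' => (tE ((ho.m m m.2).Kp m' m'.2)).sm' (wE_v _))
  case eY =>
    intro m
    have hC' := (ho.m m m.2).cY
    unfold EcR.okT at hC'
    simp only [Bool.and_eq_true] at hC'
    refine ⟨tv_nonneg hC'.1.2 c0 c1 _, tv_nonneg hC'.2 c0 c1 _, fun p x a b hp => ?_,
      fun p x a b hp => ?_⟩
    · subst he
      refine le_trans (le_of_eq ?_) (hS.lE (a := sp.eY m) c0 c1 (mE m.2 (by simp [lE]))
        (((kEL_v ho.RF).sm' (cE (ho.m m m.2).Th)).add ((kEL_v ho.RD).sm' (EB.fsum fun m' =>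
          (tE ((ho.m m m.2).Km m' m'.2)).sm' (wE_v _)))).ub
        (vE (ho.m m m.2).cY).lb ⟨p, x, a, b, hp⟩)
      ring
    · rw [hp.k, hp.H, hp.xz]
      refine le_of_eq ?_
      unfold ev
      ring
  case D =>
    intro p hp hf
    subst he
    have := hS.lF (a := sp.fD) c0 c1 (by simp [sheet]) (sF ho.cD).ub
      (EB.oneF (kF' ho.Dk)).lb ⟨p, hp.toLive⟩
    rw [← hf] at this
    exact this
  case pn =>
    intro m p hp hf
    subst he
    have := hS.lF (a := sp.fP (sp.B false m) (sp.cN m) (sp.Kn m) (sp.ff 3 m)) c0 c1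
      (mF m.2 (by simp [lF]))
      (W_f.sm' (((kF' ho.Dk).sm' (cF ((ho.m m m.2).B false))).add (sF (ho.m m m.2).cN))).ub
      (EB.fsum fun m' => (tF ((ho.m m m.2).Kn m' m'.2)).sm' (wF_v _)).lb ⟨p, hp.toLive⟩
    simp only [← hf] at this
    refine le_trans (le_of_eq ?_) this
    ring
  case pp =>
    intro m p hp hf
    subst he
    have := hS.lF (a := sp.fP (sp.B true m) (sp.cP m) (sp.Kp m) (sp.ff 4 m)) c0 c1
      (mF m.2 (by simp [lF]))
      (W_f.sm' (((kF' ho.Dk).sm' (cF ((ho.m m m.2).B true))).add (sF (ho.m m m.2).cP))).ub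
      (EB.fsum fun m' => (tF ((ho.m m m.2).Kp m' m'.2)).sm' (wF_v _)).lb ⟨p, hp.toLive⟩
    simp only [← hf] at this
    refine le_trans (le_of_eq ?_) this
    ring
  case pe =>
    intro m p hp hf
    subst he
    have := hS.lF (a := sp.fE m) c0 c1 (mF m.2 (by simp [lF]))
      (W_f.sm' (sF (ho.m m m.2).cW)).ub
      (EB.fsum fun m' => (tF ((ho.m m m.2).Ke m' m'.2)).sm' (wF_v _)).lb ⟨p, hp.toLive⟩
    simp only [← hf] at this
    exact this
  case pm =>
    intro m p hp hf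
    subst he
    have := hS.lF (a := sp.fP (sp.B false m) (sp.cH m) (sp.Km m) (sp.ff 6 m)) c0 c1
      (mF m.2 (by simp [lF]))
      (W_f.sm' (((kF' ho.Dk).sm' (cF ((ho.m m m.2).B false))).add (sF (ho.m m m.2).cH))).ub
      (EB.fsum fun m' => (tF ((ho.m m m.2).Km m' m'.2)).sm' (wF_v _)).lb ⟨p, hp.toLive⟩
    simp only [← hf] at this
    refine le_trans (le_of_eq ?_) this
    ring
  case vt =>
    intro m p x a b hp
    subst he
    exact hS.lE (a := sp.vt m) c0 c1 (mE m.2 (by simp [lE])) (W_v.sm' (sE (ho.m m m.2).cW)).ub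
      (cE (ho.m m m.2).Th).lb ⟨p, x, a, b, hp⟩
  case vP =>
    intro m p x a b hp
    have hs : Sa p := ⟨x, a, b, hp⟩
    subst he
    rw [neg_neg]
    refine le_trans (add_le_add le_rfl (Finset.sum_le_sum fun m' _ => ?_))
      (hS.lE (a := sp.vP m) c0 c1 (mE m.2 (by simp [lE])) ((sE (ho.m m m.2).cX).add
        (EB.fsum fun m' => ((tE ((ho.m m m.2).Kn m' m'.2)).sm' (hn m')).add
          ((tE ((ho.m m m.2).Kp m' m'.2)).sm' (hu ho.κD ho.c4 m')))).ub
        (cE ((ho.m m m.2).sl true)).lb ⟨p, x, a, b, hp⟩)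
    exact add_le_add (mul_le_mul_of_nonneg_left (sn m' p hs) (Kn0 m m'))
      (mul_le_mul_of_nonneg_left (su κD0 m' p hs) (Kp0 m m'))
  case vQ =>
    intro m p x a b hp
    have hs : Sa p := ⟨x, a, b, hp⟩
    subst he
    rw [neg_neg]
    refine le_trans (add_le_add le_rfl (Finset.sum_le_sum fun m' _ => ?_))
      (hS.lE (a := sp.vQ m) c0 c1 (mE m.2 (by simp [lE])) ((sE (ho.m m m.2).cY).add
        (EB.fsum fun m' => ((tE ((ho.m m m.2).Ke m' m'.2)).sm' (hu ho.κE ho.c1 m')).add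
          (((tE ((ho.m m m.2).Kp m' m'.2)).sm' (hn m')).add
          ((tE ((ho.m m m.2).Km m' m'.2)).sm' (hu ho.κD ho.c4 m'))))).ub
        (cE ((ho.m m m.2).sl false)).lb ⟨p, x, a, b, hp⟩)
    exact add_le_add (mul_le_mul_of_nonneg_left (su κE0 m' p hs) (Ke0 m m'))
      (add_le_add (mul_le_mul_of_nonneg_left (sn m' p hs) (Kp0 m m'))
      (mul_le_mul_of_nonneg_left (su κD0 m' p hs) (Km0 m m')))
  case oΘ =>
    intro m p x hp
    rw [zR, zero_mul]
  case CΘ0 => exact fun m => le_rfl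
  case oX =>
    intro m p x hp
    rw [zD, zero_mul]
  case dX0 => exact fun m => le_rfl
  case oY =>
    intro m p x hp
    show sp.REp.tv c e * _ + sp.RDp.tv c e * _ ≤ (0 : ℝ)
    rw [zD, zE, zero_mul, zero_mul, add_zero]
  case dY0 => exact fun m => le_rfl
  case gP =>
    intro m
    rw [zS, neg_neg, zero_add]
    refine Finset.sum_nonpos fun m' _ => ?_
    rw [zC, zC, add_zero, mul_zero, add_zero]
    exact add_nonpos (mul_nonpos_of_nonneg_of_nonpos (Kn0 m m') (hCν m'))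
      (mul_nonpos_of_nonneg_of_nonpos (Kp0 m m') (mul_nonpos_of_nonneg_of_nonpos κD0 (hCδ m')))
  case gQ =>
    intro m
    rw [zS, neg_neg, zero_add]
    refine Finset.sum_nonpos fun m' _ => ?_
    rw [zC, zC, add_zero, mul_zero, mul_zero, add_zero, add_zero]
    exact add_nonpos (mul_nonpos_of_nonneg_of_nonpos (Ke0 m m')
      (mul_nonpos_of_nonneg_of_nonpos κE0 (hCδ m')))
      (add_nonpos (mul_nonpos_of_nonneg_of_nonpos (Kp0 m m') (hCν m'))
      (mul_nonpos_of_nonneg_of_nonpos (Km0 m m') (mul_nonpos_of_nonneg_of_nonpos κD0 (hCδ m'))))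
  case qn =>
    intro m p x hp
    rw [zR, mul_zero, zero_mul, zero_mul]
    exact Finset.sum_nonneg fun m' _ => mul_nonneg (Kn0 m m')
      ((sp.w1 m').fn_nonneg_pnd hp.x0 hp.toLive)
  case qp =>
    intro m p x hp
    rw [zR, mul_zero, zero_mul, zero_mul]
    exact Finset.sum_nonneg fun m' _ => mul_nonneg (Kp0 m m')
      ((sp.w1 m').fn_nonneg_pnd hp.x0 hp.toLive)
  case qe =>
    intro m p x hp
    rw [zR, mul_zero, zero_mul, zero_mul]
    exact Finset.sum_nonneg fun m' _ => mul_nonneg (Ke0 m m')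
      ((sp.w1 m').fn_nonneg_pnd hp.x0 hp.toLive)
  case qm =>
    intro m p x hp
    rw [zR, mul_zero, zero_mul, zero_mul]
    exact Finset.sum_nonneg fun m' _ => mul_nonneg (Km0 m m')
      ((sp.w1 m').fn_nonneg_pnd hp.x0 hp.toLive)

/-- **the slopes are nonnegative** -/
theorem sl0 (ho : Ok' sp) (hS : sp.sheet.At D R j) (c0 : 0 ≤ c) (c1 : c ≤ 1) (s : Bool)
    {m : ℕ} (hm : m < sp.N) {p : Pt} (hp : Sa p) : 0 ≤ Sp12.cf (sp.sl s m) c (rwd D R j) p := by
  obtain ⟨x, a, b, hp⟩ := hp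
  cases s with
  | true =>
    exact hS.lE (a := sp.gP m) c0 c1 (mE hm (by simp [lE])) EB.nil.ub
      (cE ((ho.m m hm).sl true)).lb ⟨p, x, a, b, hp⟩
  | false =>
    exact hS.lE (a := sp.gM m) c0 c1 (mE hm (by simp [lE])) EB.nil.ub
      (cE ((ho.m m hm).sl false)).lb ⟨p, x, a, b, hp⟩

end SpP

end Pool.Agent.RZ.RCO
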