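import Pool.Agent.RZ.RCO.Gj1
import Pool.Agent.RZ.RCO.Gp3
import Pool.Agent.RZ.RCO.Gs13

/-! Links of the tables of the position sums: the environment of the targets, neighbouring ends,
linear tables (MP_73ccd0_lc). -/

set_option autoImplicit false

namespace Pool.Agent.RZ.RCO

open Sg Set

/-! ### linear tables -/

theorem lin_oTq {D R m n : ℕ} {o : Option Cf} (h : linB D R m n o = true) :
    (oTq D R o).Lin m n :=
  ⟨linB_w h, fun j h1 h2 => linB_s h j h1 h2⟩

/-- the family of tables of a layout is linear from the node `m` on -/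
noncomputable def famB (D R m n N : ℕ) (a : Bool → ℕ → ℕ → Option Cf) (cp : Bool → ℕ → Option Cf) :
    Bool :=
  allL (fun l => allL (fun i => linB D R m n (a true l i) && linB D R m n (a false l i))
    (List.range 26) && (linB D R m n (cp true l) && linB D R m n (cp false l))) (List.range N)

theorem fam_lin {D R m n N : ℕ} {a : Bool → ℕ → ℕ → Option Cf} {cp : Bool → ℕ → Option Cf}
    (h : famB D R m n N a cp = true) :
    TFam.Lin 26 m n (⟨fun s l i => oTq D R (a s l i), fun s l => oTq D R (cp s l)⟩ :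
      TFam (Fin N)) := by
  unfold famB at h
  have key : ∀ l < N, _ := fun l hl => allL_of h l (List.mem_range.2 hl)
  simp only [Bool.and_eq_true] at key
  refine ⟨fun s l i hi => lin_oTq ?_, fun s l => lin_oTq ?_⟩
  · have k := allL_of (key l l.2).1 i (List.mem_range.2 hi)
    simp only [Bool.and_eq_true] at k
    cases s with
    | true => exact k.1
    | false => exact k.2
  · cases s with
    | true => exact (key l l.2).2.1
    | false => exact (key l l.2).2.2

namespace Tt1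

end Tt1

namespace Tp1

variable {x : Tp1} {D n : ℕ}

/-! ### the environment of the targets -/

/-! ### a given type of weights -/

/-- the tables with the weights `Fin N` -/
noncomputable def tpN (x : Tp1) (N D n : ℕ) : TP1 (Fin N) where
  f := ⟨fun s m i => oTq D x.R (x.a s m i), fun s m => oTq D x.R (x.cp s m)⟩
  Θ := fun m ρ => Sp12.cf (x.b.Th m) (x.tc D n ρ) (x.te D n ρ)
  CΘ := fun _ _ => 0
  Kn := fun m m' ρ => (x.b.Kn m m').tv (x.tc D n ρ) (x.te D n ρ)
  Kp := fun m m' ρ => (x.b.Kp m m').tv (x.tc D n ρ) (x.te D n ρ)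
  Ke := fun m m' ρ => (x.b.Ke m m').tv (x.tc D n ρ) (x.te D n ρ)
  Km := fun m m' ρ => (x.b.Km m m').tv (x.tc D n ρ) (x.te D n ρ)

/-! ### neighbouring ends -/

/-- the common part of two ends: the bounds of the removal sums and the multipliers, entries
linked by `f` -/
def lkA (x x' : Tp1) (N : ℕ) (f : ℕ → ℕ → Bool) : Bool :=
  allL (fun m => reqF f (x.b.Th m) (x'.b.Th m)
    && allL (fun m' => req f (x.b.Kn m m') (x'.b.Kn m m')
      && (req f (x.b.Kp m m') (x'.b.Kp m m')
      && (req f (x.b.Ke m m') (x'.b.Ke m m')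
      && req f (x.b.Km m m') (x'.b.Km m m')))) (List.range N)) (List.range N)

/-- the common part at a time -/
structure AdjP (x x' : Tp1) (N D n D' n' : ℕ) (ρ : ℝ) : Prop where
  Θ : ∀ m, (x.tpN N D n).Θ m ρ = (x'.tpN N D' n').Θ m ρ
  CΘ : ∀ m, (x.tpN N D n).CΘ m ρ = (x'.tpN N D' n').CΘ m ρ
  Kn : ∀ m m', (x.tpN N D n).Kn m m' ρ = (x'.tpN N D' n').Kn m m' ρ
  Kp : ∀ m m', (x.tpN N D n).Kp m m' ρ = (x'.tpN N D' n').Kp m m' ρ
  Ke : ∀ m m', (x.tpN N D n).Ke m m' ρ = (x'.tpN N D' n').Ke m m' ρ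
  Km : ∀ m m', (x.tpN N D n).Km m m' ρ = (x'.tpN N D' n').Km m m' ρ

/-- **the common part of two ends** -/
theorem adj_of {x' : Tp1} {N D' n' : ℕ} {f : ℕ → ℕ → Bool} (h : x.lkA x' N f = true) {ρ : ℝ}
    (r : x.tc D n ρ = x'.tc D' n' ρ ∧ ∀ a b, f a b = true → x.te D n ρ a = x'.te D' n' ρ b) :
    AdjP x x' N D n D' n' ρ := by
  obtain ⟨e, g⟩ := r
  unfold lkA at h
  have key : ∀ m < N, _ := fun m hm => allL_of h m (List.mem_range.2 hm)
  simp only [Bool.and_eq_true] at key
  have key2 : ∀ m < N, ∀ m' < N, _ := fun m hm m' hm' =>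
    allL_of (key m hm).2 m' (List.mem_range.2 hm')
  simp only [Bool.and_eq_true] at key2
  refine ⟨fun m => ?_, fun m => rfl, fun m m' => ?_, fun m m' => ?_, fun m m' => ?_,
    fun m m' => ?_⟩
  · funext p
    show Sp12.cf (x.b.Th m) (x.tc D n ρ) (x.te D n ρ) p = _
    rw [e]
    exact reqF_cf g (key m m.2).1 _ p
  · show (x.b.Kn m m').tv (x.tc D n ρ) (x.te D n ρ) = _
    rw [e]
    exact req_tv g (key2 m m.2 m' m'.2).1 _
  · show (x.b.Kp m m').tv (x.tc D n ρ) (x.te D n ρ) = _
    rw [e]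
    exact req_tv g (key2 m m.2 m' m'.2).2.1 _
  · show (x.b.Ke m m').tv (x.tc D n ρ) (x.te D n ρ) = _
    rw [e]
    exact req_tv g (key2 m m.2 m' m'.2).2.2.1 _
  · show (x.b.Km m m').tv (x.tc D n ρ) (x.te D n ρ) = _
    rw [e]
    exact req_tv g (key2 m m.2 m' m'.2).2.2.2 _

/-! ### rows of level 1/2 -/

end Tp1

end Pool.Agent.RZ.RCO
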