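import Pool.Agent.RZ.RCO.Gs15
import Pool.Agent.RZ.RCO.Gz8_1

/-! The systems of level 1 in a world: table ends, mixed ends, the first coarse cell, without and
with released end values (MP_73ccd0_lc). -/

set_option autoImplicit false

namespace Pool.Agent.RZ.RCO

open Set Pool.Agent.RZ.RCRSHalf Pool.Agent.RZ.RCG Pool.Agent.RZ.RCG.Ct
open Pool.Agent.RZ.RCN Pool.Agent.RZ.RCN.K

set_option linter.unusedSectionVars false

/-! ### the rows of level 1/2 -/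

/-- the bounds of the rows by variants of the tables -/
theorem rwT_im {Λ' M : Type*} [Fintype Λ'] {FF : (ℕ → ℝ) → Pt → ℝ} {t : ℕ → ℝ} {n : ℕ}
    {d : T12 Λ'} {w1 : M → Pt → ℝ} {B : Bool → M → Pt → ℝ} {CB : Bool → M → ℝ} {u : ℝ}
    {im : M → Λ'} (e : ∀ m, w1 m = d.wv (im m))
    (hB : ∀ s m p, Sa p → d.tf.U FF t n s (im m) u p ≤ B s m p)
    (hC : ∀ s m, d.tf.K t n s (im m) u ≤ CB s m) : RwT FF t n d w1 B CB u := by
  classical
  have e1 : ∀ (m : Λ') (f : Λ' → ℝ), ∑ l, (if l = m then (1 : ℝ) else 0) * f l = f m :=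
    fun m f => by
    rw [Finset.sum_eq_single m (fun l _ hl => by rw [if_neg hl, zero_mul])
      fun hm => absurd (Finset.mem_univ m) hm, if_pos rfl, one_mul]
  have p : ∀ (m l : Λ'), (0 : ℝ) ≤ if l = m then (1 : ℝ) else 0 := fun m l => by
    split_ifs
    · exact zero_le_one
    · exact le_rfl
  exact ⟨fun s m => ⟨fun l => if l = im m then 1 else 0, p (im m),
      fun q _ _ => by rw [e1 (im m) fun l => d.wv l q, e m],
      fun q hq => by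
        rw [e1 (im m) fun l => d.tf.U FF t n s l u q]
        exact hB s m q hq⟩,
    fun s m => ⟨fun l => if l = im m then 1 else 0, p (im m),
      fun q _ _ => by rw [e1 (im m) fun l => d.wv l q, e m],
      by
        rw [e1 (im m) fun l => d.tf.K t n s l u]
        exact hC s m⟩⟩

/-! ### a world with its rows -/

/-- **a world with the rows of level 1/2 from the tables `d`** (mesh `t`, `n`), shifted by `z` -/
structure WRw {V : Type*} [Fintype V] [DecidableEq V] {Λ' : Type*} [Fintype Λ']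
    (FF : (ℕ → ℝ) → Pt → ℝ) (N : ℕ) (ft : ℕ → Pt → ℝ) (sl : ℝ → ℝ → ℝ) (Z : Hzd)
    (x : V → V → ℝ) (P : V → Prop) [DecidablePred P] (A D : Finset V) (α τ σ' : ℝ)
    (S0 : Finset ℝ) (ζ : V → V → ℝ → ℝ) (Y Nw : V → ℝ → ℝ) (d : T12 Λ') (l1 : Λ') (t : ℕ → ℝ)
    (n : ℕ) (z : ℝ) (gp gp' gm gm' : Finset V → V → V → ℝ → ℝ) : Prop where
  hw : Wrl Z x P A D α τ σ' S0 ζ Y Nw (d.dat FF t n z) l1
  hZ : Z.Ok sl
  hg : G12X Dᶜ τ (Tc0 (Z.hh x P) D ζ Y) (Ac0 (Z.hh x P) D ζ Y) (Bc0 (Z.hh x P) D Nw) gp gp' gm gm'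
  hr : ((d.dat FF t n z).r12 x P D (Ac0 (Z.hh x P) D ζ Y) (Bc0 (Z.hh x P) D Nw)).Rows Dᶜ τ gp gm
  hF : Lf FF N ft
  hd : d.Ok FF N t n
  hm : Msh t n
  hn : 0 < n
  z0 : t 0 ≤ z
  τn : τ + z ≤ t n
  τ1 : τ ≤ 1

section world

variable {V : Type*} [Fintype V] [DecidableEq V] {Z : Hzd} {sl : ℝ → ℝ → ℝ} {x : V → V → ℝ}
  {P : V → Prop} [DecidablePred P] {A D : Finset V} {α τ σ' : ℝ} {S0 : Finset ℝ}
  {ζ : V → V → ℝ → ℝ} {Y Nw : V → ℝ → ℝ} {Λ' : Type*} [Fintype Λ'] {d : T12 Λ'} {l1 : Λ'}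
  {t : ℕ → ℝ} {n : ℕ} {z : ℝ} {gp gp' gm gm' : Finset V → V → V → ℝ → ℝ}
  {FF : (ℕ → ℝ) → Pt → ℝ} {N : ℕ} {ft : ℕ → Pt → ℝ}

/-- rows of weight `m` at the points are nonnegative -/
theorem T12.Ok.w10 (hd : d.Ok FF N t n) {M : Type*} {w1 : M → Pt → ℝ} {im : M → Λ'}
    (e : ∀ m, w1 m = d.wv (im m)) : ∀ m, ∀ q : Pt, q.Ok → q = q.full → 0 ≤ w1 m q :=
  fun m q h1 h2 => by
    rw [e m]
    exact hd.wv0 _ q h1 h2

variable {J M Λ : Type*} [Fintype J] [Nonempty J] [Fintype M] [Nonempty M] [Fintype Λ]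
  {q : TSys J M Λ} {lq : Bool} {ym Ph σ : ℝ} {il : Λ → Λ'} {im : M → Λ'}

variable (W : WRw FF N ft sl Z x P A D α τ σ' S0 ζ Y Nw d l1 t n z gp gp' gm gm')
  (hl : TSys.Lnk FF q d t n il im) (στ : σ ≤ τ) (σn : σ + z ≤ q.t q.n)

include W hl στ σn

/-- the rates of the world by the functions of the system -/
theorem WRw.env (S : Finset ℝ) : WEnv x P D σ S (Z.hh x P) (Tc0 (Z.hh x P) D ζ Y)
    (q.dat FF z).E.R (q.dat FF z).E.Rp (q.dat FF z).E.W (q.dat FF z).E.Wp := by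
  have me : ∀ r ∈ Icc 0 σ, r + z ∈ Icc (q.t 0) (q.t q.n) := fun r hr =>
    ⟨by rw [← hl.t0]; linarith [W.z0, hr.1], by linarith [hr.2]⟩
  have mt : ∀ r ∈ Icc 0 σ, r ∈ Icc 0 τ := fun r hr => ⟨hr.1, hr.2.trans στ⟩
  exact {
    hP := W.hw.hP
    hx := wt_of W.hw.hP
    hD := W.hw.hD
    kr := fun r hr _ => by
      have k := W.hw.kr r (mt r hr)
      show Krn x P (Z.hh x P r) (q.E.R (r + z)) (q.E.Rp (r + z))
      rw [hl.R _ (me r hr), hl.Rp _ (me r hr)]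
      exact k
    tb := fun r hr _ => by
      have k := (W.hw.wb r (mt r hr)).tb
      show TBd x P D (Z.hh x P r) (Tc0 (Z.hh x P) D ζ Y r) (q.E.W (r + z)) (q.E.Wp (r + z))
      rw [hl.W _ (me r hr), hl.Wp _ (me r hr)]
      exact k }

/-- the rows of the families -/
theorem WRw.rw (S : Finset ℝ) : RwB x P D σ S gp gm (q.dat FF z).wv
    (fun s m e F r => bfu x P D ((q.dat FF z).B s m r) ((q.dat FF z).CB s m r) e F)
    (q.dat FF z).B (q.dat FF z).CB := by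
  have me : ∀ ρ ∈ Icc z (σ + z), ρ ∈ Icc (q.t 0) (q.t q.n) := fun r hr =>
    ⟨by rw [← hl.t0]; linarith [W.z0, hr.1], by linarith [hr.2]⟩
  exact RwT.rwB W.hd W.hF W.hm W.hn W.hw.hP (wt_of W.hw.hP) W.hw.hD W.hg W.hr (W.hd.w10 hl.wv)
    στ W.τn W.z0 le_rfl (fun ρ hρ => rwT_im hl.wv
      (fun s m p _ => (congrFun (hl.B s m ρ (me ρ hρ)) p).ge)
      fun s m => (hl.CB s m ρ (me ρ hρ)).ge) S

/-- the rows of the position weights -/
theorem WRw.rw1 (S : Finset ℝ) : RwB x P D σ S gp gm (q.dat FF z).w1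
    (fun s m e F r => bfu x P D ((q.dat FF z).B1 s m r) ((q.dat FF z).CB1 s m r) e F)
    (q.dat FF z).B1 (q.dat FF z).CB1 := by
  have me : ∀ ρ ∈ Icc z (σ + z), ρ ∈ Icc (q.t 0) (q.t q.n) := fun r hr =>
    ⟨by rw [← hl.t0]; linarith [W.z0, hr.1], by linarith [hr.2]⟩
  exact RwT.rwB W.hd W.hF W.hm W.hn W.hw.hP (wt_of W.hw.hP) W.hw.hD W.hg W.hr (W.hd.w10 hl.w1)
    στ W.τn W.z0 le_rfl (fun ρ hρ => rwT_im hl.w1
      (fun s m p _ => (congrFun (hl.B1 s m ρ (me ρ hρ)) p).ge)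
      fun s m => (hl.CB1 s m ρ (me ρ hρ)).ge) S

/-- the continuity of the rates -/
theorem WRw.hc (u v : V) : ContinuousOn (fun r => Z.hh x P r u v) (Icc 0 σ) :=
  (W.hZ.hh_cont W.hw.hP u v).mono (Icc_subset_Icc_right (στ.trans W.τ1))

/-- the rates -/
theorem WRw.kr {r : ℝ} (hr : r ∈ Icc 0 σ) :
    Krn x P (Z.hh x P r) (q.E.R (r + z)) (q.E.Rp (r + z)) := by
  rw [hl.R _ ⟨by rw [← hl.t0]; linarith [W.z0, hr.1], by linarith [hr.2]⟩,
    hl.Rp _ ⟨by rw [← hl.t0]; linarith [W.z0, hr.1], by linarith [hr.2]⟩]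
  exact W.hw.kr r ⟨hr.1, hr.2.trans στ⟩

omit στ σn

/-- **the end values of a released system**, rows at the table time `u ≤ ρ + z` -/
theorem WRw.end {ρ u : ℝ} (hρ : ρ ∈ Icc 0 τ) (u0 : t 0 ≤ u) (uρ : u ≤ ρ + z)
    (hre : TSys.Rel FF q d t n im u) :
    EndV x P D q.w1 (fun X d e => gm X d e ρ) (fun X d e => gp X d e ρ)
      (fun m => bfu x P D (q.ν m) (q.Cν m)) (fun m => bfu x P D (q.δ m) (q.Cδ m)) q.ν q.δ q.Cν
      q.Cδ := by
  obtain ⟨h1, h2, h3⟩ := RwT.rowE W.hd W.hF W.hm W.hn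
    (B := fun s m => if s then q.ν m else q.δ m) (CB := fun s m => if s then q.Cν m else q.Cδ m)
    (rwT_im (im := im) (u := u) hl.w1 (fun s m p hp => by
        cases s
        · exact hre.δ m p hp
        · exact hre.ν m p hp)
      fun s m => by
        cases s
        · exact hre.Cδ m
        · exact hre.Cν m)
    W.hw.hP (wt_of W.hw.hP) W.hw.hD W.hg W.hr hρ W.τn u0 uρ
  exact ⟨h1, h2, fun m => h3 true m, fun m => h3 false m⟩

end world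

/-! ### table ends -/

section tab

variable {V : Type*} [Fintype V] [DecidableEq V] {Z : Hzd} {sl : ℝ → ℝ → ℝ} {x : V → V → ℝ}
  {P : V → Prop} [DecidablePred P] {A D : Finset V} {α τ σ' : ℝ} {S0 : Finset ℝ}
  {ζ : V → V → ℝ → ℝ} {Y Nw : V → ℝ → ℝ} {Λ' : Type*} [Fintype Λ'] {d : T12 Λ'} {l1 : Λ'}
  {t : ℕ → ℝ} {n : ℕ} {z : ℝ} {gp gp' gm gm' : Finset V → V → V → ℝ → ℝ}
  {FF : (ℕ → ℝ) → Pt → ℝ} {N : ℕ} {ft : ℕ → Pt → ℝ}
  {J M Λ : Type*} [Fintype J] [Nonempty J] [Fintype M] [Nonempty M] [Fintype Λ]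
  {q : TSys J M Λ} {lq : Bool} {ym Ph σ : ℝ} {il : Λ → Λ'} {im : M → Λ'}

variable (W : WRw FF N ft sl Z x P A D α τ σ' S0 ζ Y Nw d l1 t n z gp gp' gm gm')
  (hl : TSys.Lnk FF q d t n il im) (σ0 : 0 ≤ σ) (στ : σ ≤ τ) (σn : σ + z ≤ q.t q.n)
  (xm : XM ≤ ym)

include W hl σ0 στ σn xm

/-- the bounds of the killing -/
theorem TSys.Ok.kbdW (h : q.Ok FF N lq ym Ph) :
    KBd x P (Z.hh x P) σ (fun r => q.uH (r + z)) (fun r => q.uE (r + z))
      (fun r => q.k.Hp.up q.t q.n (r + z)) fun r => q.k.Ep.up q.t q.n (r + z) :=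
  h.kbd (by rw [← hl.t0]; exact W.z0) σ0 σn W.hw.hP.nonneg (wt_le_one W.hw.hP)
    (fun u v => (W.hw.hP.leX u v).trans xm) (fun r hr => W.kr hl στ σn hr)
    fun u v => W.hc hl στ σn u v

/-- **(1) a system of tables in a world**, no end values -/
theorem TSys.Ok.in_zf (h : q.Ok FF N lq ym Ph) (S : Finset ℝ) :
    (q.dat FF z).In lq x P D (Z.hh x P) (Tc0 (Z.hh x P) D ζ Y) σ S gp gm ZF ZF :=
  (h.inT W.hF (by rw [← hl.t0]; exact W.z0) σn S).in_zf (W.env hl στ σn S) (W.rw hl στ σn S)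
    (W.rw1 hl στ σn S) h.ν0 h.δ0 h.Cν0 h.Cδ0 (h.kbdW W hl σ0 στ σn xm)
    (h.ktm (by rw [← hl.t0]; exact W.z0) σn) (fun u v => (W.hw.hP.leX u v).trans xm) h.Ph0

/-- **(4) a system of tables in a world**, released end values -/
theorem TSys.Ok.in_rel (h : q.Ok FF N lq ym Ph) {ρ u : ℝ} (hρ : ρ ∈ Icc 0 τ)
    (u0 : t 0 ≤ u) (uρ : u ≤ ρ + z) (hre : TSys.Rel FF q d t n im u) (S : Finset ℝ) :
    (q.dat FF z).In lq x P D (Z.hh x P) (Tc0 (Z.hh x P) D ζ Y) σ S gp gm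
      (fun X d e => gm X d e ρ) fun X d e => gp X d e ρ :=
  (h.inT W.hF (by rw [← hl.t0]; exact W.z0) σn S).in_rel (W.env hl στ σn S) (W.rw hl στ σn S)
    (W.rw1 hl στ σn S) (W.end hl hρ u0 uρ hre) (h.kbdW W hl σ0 στ σn xm)
    (h.ktm (by rw [← hl.t0]; exact W.z0) σn) (fun u v => (W.hw.hP.leX u v).trans xm) h.Ph0
    h.δS h.CδS

end tab

end Pool.Agent.RZ.RCO
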