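import Pool.Agent.RZ.RCO.Gs16

/-! The systems of level 1 in a world: mixed ends, the first coarse cell (MP_73ccd0_lc). -/

set_option autoImplicit false

namespace Pool.Agent.RZ.RCO

open Set Pool.Agent.RZ.RCRSHalf Pool.Agent.RZ.RCG Pool.Agent.RZ.RCG.Ct
open Pool.Agent.RZ.RCN Pool.Agent.RZ.RCN.K

set_option linter.unusedSectionVars false

/-! ### mixed ends -/

section mix

variable {V : Type*} [Fintype V] [DecidableEq V] {Z : Hzd} {sl : ℝ → ℝ → ℝ} {x : V → V → ℝ}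
  {P : V → Prop} [DecidablePred P] {A D : Finset V} {α τ σ' : ℝ} {S0 : Finset ℝ}
  {ζ : V → V → ℝ → ℝ} {Y Nw : V → ℝ → ℝ} {Λ' : Type*} [Fintype Λ'] {d : T12 Λ'} {l1 : Λ'}
  {t : ℕ → ℝ} {n : ℕ} {z : ℝ} {gp gp' gm gm' : Finset V → V → V → ℝ → ℝ}
  {FF : (ℕ → ℝ) → Pt → ℝ} {N : ℕ} {ft : ℕ → Pt → ℝ}
  {J J' M Λ : Type*} [Fintype J] [Nonempty J] [Fintype J'] [Nonempty J'] [Fintype M]
  [Nonempty M] [Fintype Λ]
  {q : TSys J M Λ} {q' : TSys J' M Λ} {lq : Bool} {ym Ph Ph1 s w θ : ℝ} {mm : ℕ}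
  {il : Λ → Λ'} {im : M → Λ'}

/-- **(2) the mixed end of two systems of tables in a world**, no end values -/
theorem TSys.mix_zf
    (W : WRw FF N ft sl Z x P A D α τ σ' S0 ζ Y Nw d l1 t n z gp gp' gm gm')
    (h : q.Ok FF N lq ym Ph1) (h' : q'.Ok FF N lq ym Ph) (hPh : Ph ≤ Ph1) (hl : q.End0 N)
    (hz : q.Nl) (hz' : q'.Nl) (ha : TSys.Adj ym q q' mm)
    (hk : TSys.Lnk FF q' d t n il im) (xm : XM ≤ ym) (s0 : 0 ≤ s) (w0 : 0 < w)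
    (hs : s + z = q.t q.n) (hw : s + w + z = q'.t q'.n) (sτ : s + w ≤ τ) (h0 : 0 ≤ θ)
    (h1 : θ ≤ 1) {S S' : Finset ℝ} (hS : glS s w θ S ⊆ S') :
    (SysD.mix s w θ (q.dat FF z) (q'.dat FF z)).In lq x P D (Z.hh x P)
      (Tc0 (Z.hh x P) D ζ Y) (s + θ * w) S' gp gm ZF ZF := by
  have z0' : q'.t 0 ≤ z := by rw [← hk.t0]; exact W.z0
  have z0 : q.t 0 ≤ z := by rw [ha.t0]; exact z0'
  have tw : θ * w ≤ w := by nlinarith
  have στ : s + θ * w ≤ τ := by linarith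
  have σn : s + θ * w + z ≤ q'.t q'.n := by linarith
  have xm' : ∀ u v, x u v ≤ ym := fun u v => (W.hw.hP.leX u v).trans xm
  exact SysD.InT.in_zf (q := SysD.mix s w θ (q.dat FF z) (q'.dat FF z))
    (TSys.mix_inT h h' ha z0 w0 hs hw h0 h1 W.hF hl hz hz' s0 hS)
    (W.env hk στ σn S') (W.rw hk στ σn S') (W.rw1 hk στ σn S') h'.ν0 h'.δ0 h'.Cν0 h'.Cδ0
    (TSys.mix_kbd h h' ha z0 w0 hs hw h0 h1 s0 W.hw.hP.nonneg xm'
      (fun u v hu => W.hw.hP.pz u v hu) (fun r hr => W.kr hk sτ hw.le hr)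
      fun u v => W.hc hk sτ hw.le u v)
    (TSys.mix_ktm h h' hPh ha z0 w0 hs hw h0 h1) xm' h'.Ph0

end mix

/-! ### the first coarse cell -/

section first

variable {J M Λ : Type*} [Fintype J] [Nonempty J] [Fintype M] [Nonempty M] [Fintype Λ]
  {FF : (ℕ → ℝ) → Pt → ℝ} {N : ℕ} {ft : ℕ → Pt → ℝ} {q : TSys J M Λ}
  {lq : Bool} {ym Ph z w θ : ℝ}

variable (h : q.Ok FF N lq ym Ph) (z0 : q.t 0 ≤ z) (w0 : 0 < w) (hw : w + z = q.t q.n)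
  (h0 : 0 ≤ θ) (h1 : θ ≤ 1)

include h z0 w0 hw h0 h1

/-- the scalars and majorants in the first coarse cell -/
theorem TSys.fst_ktm :
    KTm lq (0 + θ * w) ym Ph (q.E.shift z).c1 (q.E.shift z).c4 (q.E.shift z).κD
      (q.E.shift z).κE (cs 0 θ (fun r => q.S1 (r + z)) fun r => q.S1 (r + z))
      (cs 0 θ (fun r => q.S2 (r + z)) fun r => q.S2 (r + z))
      (cs 0 θ (fun r => q.κ (r + z)) fun r => q.κ (r + z))
      (cs 0 θ (fun r => q.m (r + z)) fun r => q.m (r + z))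
      (cs 0 θ (fun r => q.Mt (r + z)) fun r => q.Mt (r + z))
      (glu2 0 w θ (fun _ _ => 0) fun r => q.uH (r + z))
      (glu2 0 w θ (fun _ _ => 0) fun r => q.uE (r + z))
      (glu2 0 w θ (fun _ _ => 0) (q.E.shift z).RD)
      (glu2 0 w θ (fun _ _ => 0) (q.E.shift z).RE) := by
  have k := h.ktm (σ := w) z0 hw.le
  have m : ∀ r ∈ Icc (0 : ℝ) 0, r ∈ Icc 0 w := fun r hr => ⟨hr.1, hr.2.trans w0.le⟩
  have k1 : KTm lq 0 ym Ph (q.E.shift z).c1 (q.E.shift z).c4 (q.E.shift z).κD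
      (q.E.shift z).κE (fun r => q.S1 (r + z)) (fun r => q.S2 (r + z)) (fun r => q.κ (r + z))
      (fun r => q.m (r + z)) (fun r => q.Mt (r + z)) (fun _ _ => 0) (fun _ _ => 0)
      (fun _ _ => 0) fun _ _ => 0 := fun r hr => (k r (m r hr)).z0
  have k2 : KTm lq (0 + w) ym Ph (q.E.shift z).c1 (q.E.shift z).c4 (q.E.shift z).κD
      (q.E.shift z).κE (fun r => q.S1 (r + z)) (fun r => q.S2 (r + z)) (fun r => q.κ (r + z))
      (fun r => q.m (r + z)) (fun r => q.Mt (r + z)) (fun r => q.uH (r + z))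
      (fun r => q.uE (r + z)) (q.E.shift z).RD (q.E.shift z).RE := fun r hr =>
    k r ⟨hr.1, by linarith [hr.2]⟩
  exact k1.mix k2 (fun r hr => ⟨le_rfl, le_rfl, le_rfl, le_rfl, (k r (m r hr)).hn,
    (k r (m r hr)).en⟩) w0 h0 h1

/-- **the conditions in the first coarse cell which do not mention the world** -/
theorem TSys.fst_inT (hF : Lf FF N ft) (hz : q.Nl) {S S' : Finset ℝ} (hS0 : (0 : ℝ) ∈ S)
    (hS : glS 0 w θ S ⊆ S') :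
    (SysD.mix 0 w θ (SysD.z0 (q.dat FF z)) (q.dat FF z)).InT lq (0 + θ * w) S' := by
  have k := h.inT hF z0 hw.le S
  have k' : (q.dat FF z).InT lq (0 + w) S := by rw [zero_add]; exact k
  have kt := h.ktm (σ := w) z0 hw.le
  have m : ∀ r ∈ Icc (0 : ℝ) (0 + w), r ∈ Icc 0 w := fun r hr => ⟨hr.1, by linarith [hr.2]⟩
  exact SysD.InT.sub (SysD.InT.mix (k.z0 w0.le hS0) k' (SysCom.z0 _)
    ⟨hz.ν, hz.δ, hz.Cν, hz.Cδ⟩ hz.dat (fmat_z J) (fmat_z M) le_rfl w0 h0 h1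
    (fun r hr => (kt r (m r hr)).D0) (fun r hr => (kt r (m r hr)).E0)) le_rfl hS

/-- **the bounds of the killing in the first coarse cell** -/
theorem TSys.fst_kbd {V : Type*} [Fintype V] [DecidableEq V] {x : V → V → ℝ} {P : V → Prop}
    {hb : ℝ → V → V → ℝ}
    (mo : ∀ y ∈ Icc 0 ym, ∀ ρ ρ', z ≤ ρ → ρ ≤ ρ' → ρ' ≤ q.t q.n → q.E.R ρ y ≤ q.E.R ρ' y)
    (x0 : ∀ u v, 0 ≤ x u v) (xm : ∀ u v, x u v ≤ ym) (xz : ∀ u v, ¬(P u ∧ P v) → x u v = 0)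
    (kr : ∀ r ∈ Icc 0 w, Krn x P (hb r) (q.E.R (r + z)) (q.E.Rp (r + z)))
    (hc : ∀ u v, ContinuousOn (fun r => hb r u v) (Icc 0 w)) :
    KBd x P hb (0 + θ * w)
      (glu2 0 w θ (fun _ _ => 0) fun r => q.uH (r + z))
      (glu2 0 w θ (fun _ _ => 0) fun r => q.uE (r + z)) (fun _ => 0) fun _ => 0 := by
  have me : ∀ r ∈ Icc 0 (0 + w), r + z ∈ Icc (q.t 0) (q.t q.n) := fun r hr =>
    ⟨by linarith [hr.1], by linarith [hr.2]⟩
  have m : ∀ r ∈ Icc (0 : ℝ) (0 + w), r ∈ Icc 0 w := fun r hr => ⟨hr.1, by linarith [hr.2]⟩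
  have k := h.sup (σ := w) z0 hw.le
  have k2 := h.sup (σ := 0 + w) z0 (by linarith)
  have r0 : ∀ {A : ℝ}, ∀ r ∈ Icc (0 : ℝ) 0, -(r * A) ≤ 0 := fun {A} r hr => by
    rw [le_antisymm hr.2 hr.1, zero_mul, neg_zero]
  exact (k.z0 w0.le).mixU k2 le_rfl w0 h0 h1
    (fun y hy r r' h1 h2 h3 => mo y hy _ _ (by linarith) (by linarith) (by linarith))
    x0 (fun u v _ _ => xm u v) (fun u v r hr => (kr r (m r hr)).b0 u v)
    (fun r hr u v hu hv => (kr r (m r hr)).l u v hu hv)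
    (fun r hr u v hu => ((kr r (m r hr)).p u v hu).trans
      (le_of_eq (by rw [xz u v hu, zero_mul]))) (fun u v => (hc u v).mono m)
    (fun r hr y _ => r0 r hr) (fun r hr y _ => r0 r hr)
    (fun r hr y hy => h.leH (me r hr) hy.1) fun r hr y hy => h.leE (me r hr) hy.1

end first

section firstW

variable {V : Type*} [Fintype V] [DecidableEq V] {Z : Hzd} {sl : ℝ → ℝ → ℝ} {x : V → V → ℝ}
  {P : V → Prop} [DecidablePred P] {A D : Finset V} {α τ σ' : ℝ} {S0 : Finset ℝ}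
  {ζ : V → V → ℝ → ℝ} {Y Nw : V → ℝ → ℝ} {Λ' : Type*} [Fintype Λ'] {d : T12 Λ'} {l1 : Λ'}
  {t : ℕ → ℝ} {n : ℕ} {z : ℝ} {gp gp' gm gm' : Finset V → V → V → ℝ → ℝ}
  {FF : (ℕ → ℝ) → Pt → ℝ} {N : ℕ} {ft : ℕ → Pt → ℝ}
  {J M Λ : Type*} [Fintype J] [Nonempty J] [Fintype M] [Nonempty M] [Fintype Λ]
  {q : TSys J M Λ} {lq : Bool} {ym Ph w θ : ℝ} {il : Λ → Λ'} {im : M → Λ'}

/-- **(3) the first coarse cell in a world**, no end values -/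
theorem TSys.fst_zf
    (W : WRw FF N ft sl Z x P A D α τ σ' S0 ζ Y Nw d l1 t n z gp gp' gm gm')
    (h : q.Ok FF N lq ym Ph) (hz : q.Nl) (hk : TSys.Lnk FF q d t n il im)
    (mo : ∀ y ∈ Icc 0 ym, ∀ ρ ρ', z ≤ ρ → ρ ≤ ρ' → ρ' ≤ q.t q.n → q.E.R ρ y ≤ q.E.R ρ' y)
    (xm : XM ≤ ym) (w0 : 0 < w) (hw : w + z = q.t q.n) (wτ : w ≤ τ) (h0 : 0 ≤ θ) (h1 : θ ≤ 1)
    {S S' : Finset ℝ} (hS0 : (0 : ℝ) ∈ S) (hS : glS 0 w θ S ⊆ S') :
    (SysD.mix 0 w θ (SysD.z0 (q.dat FF z)) (q.dat FF z)).In lq x P D (Z.hh x P)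
      (Tc0 (Z.hh x P) D ζ Y) (0 + θ * w) S' gp gm ZF ZF := by
  have z0 : q.t 0 ≤ z := by rw [← hk.t0]; exact W.z0
  have tw : θ * w ≤ w := by nlinarith
  have στ : 0 + θ * w ≤ τ := by linarith
  have σn : 0 + θ * w + z ≤ q.t q.n := by linarith
  have xm' : ∀ u v, x u v ≤ ym := fun u v => (W.hw.hP.leX u v).trans xm
  exact SysD.InT.in_zf (q := SysD.mix 0 w θ (SysD.z0 (q.dat FF z)) (q.dat FF z))
    (TSys.fst_inT h z0 w0 hw h0 h1 W.hF hz hS0 hS)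
    (W.env hk στ σn S') (W.rw hk στ σn S') (W.rw1 hk στ σn S') h.ν0 h.δ0 h.Cν0 h.Cδ0
    (TSys.fst_kbd h z0 w0 hw h0 h1 mo W.hw.hP.nonneg xm' (fun u v hu => W.hw.hP.pz u v hu)
      (fun r hr => W.kr hk wτ hw.le hr) fun u v => W.hc hk wτ hw.le u v)
    (TSys.fst_ktm h z0 w0 hw h0 h1) xm' h.Ph0

end firstW

end Pool.Agent.RZ.RCO
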