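import Pool.Agent.RZ.RCO.Fe3
import Pool.Agent.RZ.RCO.Gs3_2
import Pool.Agent.RZ.RCO.Gs4_1

/-! The conditions of the position sums from checks at single times (MP_73ccd0_lc). -/

namespace Pool.Agent.RZ.RCO

open Set Finset Pool.Agent.RZ.RCM

set_option linter.unusedSectionVars false

variable {V : Type*} [Fintype V] [DecidableEq V]

/-! ### the checks -/

/-! ### one vertex -/

section one

end one

/-! ### the position sums -/

section pf

variable {x : V → V → ℝ} {P : V → Prop} {D : Finset V} {τ : ℝ} {S : Finset ℝ}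
    {hb T Dk Ek : ℝ → V → V → ℝ} {R RD RE : ℝ → ℝ → ℝ} {Rp RDp REp : ℝ → ℝ}
    {W : ℝ → Pt → ℝ} {Wp : ℝ → ℝ → ℝ} {gp gm N Dd Ee : Finset V → V → V → ℝ → ℝ}
    {c1 c4 κD κE : ℝ → ℝ} {M : Type*} [Fintype M] [Nonempty M] {w1 : M → Pt → ℝ}
    {bf : Bool → M → V → Finset V → ℝ → ℝ} {B : Bool → M → ℝ → Pt → ℝ} {CB : Bool → M → ℝ → ℝ}
    {f : Fam M} {Fe Ge : Finset V → V → V → ℝ} {νf δf : M → V → Finset V → ℝ}
    {ν δ : M → Pt → ℝ} {Cν Cδ : M → ℝ} {Θ : M → ℝ → Pt → ℝ} {CΘ : M → ℝ → ℝ}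
    {Kn Kp Ke Km : M → M → ℝ → ℝ}

/-- **the conditions of the position sums from the checks at single times** -/
theorem scpf_of (env : WEnv x P D τ S hb T R Rp W Wp)
    (rw1 : RwB x P D τ S gp gm w1 bf B CB) (hf : f.Ok τ S)
    (krD : ∀ r ∈ Icc 0 τ, r ∉ S → Krn x P (Dk r) (RD r) (RDp r))
    (krE : ∀ r ∈ Icc 0 τ, r ∉ S → Krn x P (Ek r) (RE r) (REp r))
    (hG : RowE Dᶜ (fun m _ j => w1 m (fp x D j)) νf Ge)
    (hFe : RowE Dᶜ (fun m _ j => w1 m (fp x D j)) δf Fe)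
    (fν : ∀ m, FB x P D (νf m) (ν m) (Cν m)) (fδ : ∀ m, FB x P D (δf m) (δ m) (Cδ m))
    (hN : ∀ r ∈ Icc 0 τ, r ∉ S → ∀ F c e, VP Dᶜ F c e → N F c e r ≤ Ge F c e)
    (hDd : ∀ r ∈ Icc 0 τ, r ∉ S → ∀ F c e, VP Dᶜ F c e →
      Dd F c e r ≤ Dk r c e + κD r * Fe F c e)
    (hEe : ∀ r ∈ Icc 0 τ, r ∉ S → ∀ F c e, VP Dᶜ F c e →
      Ee F c e r ≤ Ek r c e + κE r * Fe F c e)
    (κD0 : ∀ r ∈ Icc 0 τ, 0 ≤ κD r) (κE0 : ∀ r ∈ Icc 0 τ, 0 ≤ κE r)
    (Kn0 : ∀ m m', ∀ r ∈ Icc 0 τ, 0 ≤ Kn m m' r) (Kp0 : ∀ m m', ∀ r ∈ Icc 0 τ, 0 ≤ Kp m m' r)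
    (Ke0 : ∀ m m', ∀ r ∈ Icc 0 τ, 0 ≤ Ke m m' r) (Km0 : ∀ m m', ∀ r ∈ Icc 0 τ, 0 ≤ Km m m' r)
    (ck : ∀ r ∈ Icc 0 τ, r ∉ S → CP1 (R r) (Rp r) (W r) (Wp r) (RD r) (RDp r) (RE r) (REp r) w1
      (fun s m => B s m r) (fun s m => CB s m r) (fun m => Θ m r) (fun m => CΘ m r) ν δ Cν Cδ
      (κD r) (κE r) (c1 r) (c4 r) (fun s m => f.Φ s m r) (fun s m => f.Φ' s m r)
      (fun s m => f.C s m r) (fun s m => f.C' s m r) (fun m m' => Kn m m' r)
      (fun m m' => Kp m m' r) (fun m m' => Ke m m' r) fun m m' => Km m m' r) :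
    ScPF Dᶜ τ S T gp gm N Dd Ee c1 c4 (fun (l : M × Option V) _ e _ => w1 l.1 (fp x D e))
      (fun _ _ _ _ => 0) (fun l _ e _ => w1 l.1 (fp x D e)) (fun l => bf true l.1)
      (fun l => bf false l.1) (opK Kn) (opK Kp) (opK Ke) (opK Km)
      (fun l c F _ => νf l.1 c F)
      (fun l c F r => ∑ e ∈ F, Dk r c e * w1 l.1 (fp x D e) + κD r * δf l.1 c F)
      (fun l c F r => ∑ b ∈ F, Ek r c b * thf x D T w1 l.1 b (F.erase b) r
        + κE r * ∑ m', Ke l.1 m' r * δf m' c F)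
      (f.v x P D true) (f.v' x P D true) (f.v x P D false) (f.v' x P D false) where
  cw := fun _ _ _ _ _ => continuousOn_const
  dw := fun _ _ _ _ _ r _ _ => hasDerivAt_const r _
  w0 := fun l _ _ e he _ _ => rw1.w0 l.1 e he
  w1 := fun _ _ _ _ _ _ _ _ => le_rfl
  wv := fun _ _ _ _ _ _ _ _ _ _ _ _ _ => le_rfl
  rp := fun l => rw1.rp l.1
  rm := fun l => rw1.rm l.1
  Kn0 := fun l l' c _ F _ _ r hr => opK_nonneg (fun m m' => Kn0 m m' r hr) l l' c F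
  Kp0 := fun l l' c _ F _ _ r hr => opK_nonneg (fun m m' => Kp0 m m' r hr) l l' c F
  Ke0 := fun l l' c _ F _ _ r hr => opK_nonneg (fun m m' => Ke0 m m' r hr) l l' c F
  Km0 := fun l l' c _ F _ _ r hr => opK_nonneg (fun m m' => Km0 m m' r hr) l l' c F
  kn := fun l c _ F hF _ v hv r hr hrS => by
    rw [opK_sum]
    exact posw_fb env.hP env.hx env.hD (env.kr r hr hrS) (env.tb r hr hrS)
      (rw1.fb false l.1 r hr hrS) (w := w1 l.1) (rw1.w0 l.1) rw1.w0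
      (fun m => Kn0 l.1 m r hr) ((ck r hr hrS).kn l.1) ((ck r hr hrS).qn l.1) hF hv
  kp := fun l c _ F hF _ v hv r hr hrS => by
    rw [opK_sum]
    exact pos_fb env.hP env.hx env.hD (env.kr r hr hrS) (env.tb r hr hrS)
      (rw1.fb true l.1 r hr hrS) rw1.w0
      (fun m => Kp0 l.1 m r hr) ((ck r hr hrS).kp l.1) ((ck r hr hrS).qp l.1) hF hv
  ke := fun l c _ F hF _ v hv r hr hrS => by
    rw [opK_sum]
    exact pos0_fb env.hP env.hx env.hD (env.kr r hr hrS) (env.tb r hr hrS) (rw1.w0 l.1) rw1.w0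
      (fun m => Ke0 l.1 m r hr) ((ck r hr hrS).ke l.1) ((ck r hr hrS).qe l.1) hF hv
  km := fun l c _ F hF _ v hv r hr hrS => by
    rw [opK_sum]
    exact pos_fb env.hP env.hx env.hD (env.kr r hr hrS) (env.tb r hr hrS)
      (rw1.fb false l.1 r hr hrS) rw1.w0
      (fun m => Km0 l.1 m r hr) ((ck r hr hrS).km l.1) ((ck r hr hrS).qm l.1) hF hv
  hN := fun l c hc F hF hcF r hr hrS => by
    refine le_trans (Finset.sum_le_sum fun e he => ?_) (hG.row l.1 c hc F hF hcF)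
    exact mul_le_mul_of_nonneg_left (hN r hr hrS (F.erase e) c e
      ⟨(Finset.erase_subset _ _).trans hF, hc, hF he, fun h => hcF (Finset.mem_of_mem_erase h),
        Finset.notMem_erase _ _, fun h => hcF (h ▸ he)⟩) (rw1.w0 l.1 e (hF he))
  hD := fun l c hc F hF hcF r hr hrS => by
    have h1 := mul_le_mul_of_nonneg_left (hFe.row l.1 c hc F hF hcF) (κD0 r hr)
    refine le_trans ?_ (add_le_add le_rfl h1)
    rw [Finset.mul_sum, ← Finset.sum_add_distrib]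
    refine Finset.sum_le_sum fun e he => ?_
    have h2 := mul_le_mul_of_nonneg_left (hDd r hr hrS (F.erase e) c e
      ⟨(Finset.erase_subset _ _).trans hF, hc, hF he, fun h => hcF (Finset.mem_of_mem_erase h),
        Finset.notMem_erase _ _, fun h => hcF (h ▸ he)⟩) (rw1.w0 l.1 e (hF he))
    refine h2.trans (le_of_eq ?_)
    show w1 l.1 (fp x D e) * _ = _ + κD r * (w1 l.1 (fp x D e) * _)
    ring
  hE := fun l c hc F hF hcF r hr hrS => by
    have tb := env.tb r hr hrS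
    refine hFe.pos2X (κE0 r hr) (hEe r hr hrS) (X := fun F c e => Ee F c e r)
      (X0 := fun _ c e => Ek r c e) (T := T r) tb.T0 hc hF hcF
      (f := fun e => w1 l.1 (fp x D e)) (fun e he => rw1.w0 l.1 e (hF he)) ?_
      (fun m => Ke0 l.1 m r hr) fun v hv => ?_
    · rw [pos2_swap]
      refine le_of_eq (Finset.sum_congr rfl fun b _ => congrArg₂ _ rfl
        (Finset.sum_congr rfl fun e _ => ?_))
      rw [tb.Ts e b, mul_comm]
    · exact pos0_fb env.hP env.hx env.hD (env.kr r hr hrS) (env.tb r hr hrS) (rw1.w0 l.1) rw1.w0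
        (fun m => Ke0 l.1 m r hr) ((ck r hr hrS).ke l.1) ((ck r hr hrS).qe l.1) hF hv
  P0 := fun l c hc F _ _ r hr => hf.v0 env.hP env.hx env.hD true l hc F hr
  Q0 := fun l c hc F _ _ r hr => hf.v0 env.hP env.hx env.hD false l hc F hr
  cP := fun l c _ F _ _ => hf.cv true l c F
  cQ := fun l c _ F _ _ => hf.cv false l c F
  dP := fun l c _ F _ _ r hr hrS => hf.dv true l c F hr hrS
  dQ := fun l c _ F _ _ r hr hrS => hf.dv false l c F hr hrS
  sP := fun l c hc F hF hcF r hr hrS => by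
    rw [Finset.sum_add_distrib, opK_sum, opK_sum, ← Finset.sum_add_distrib]
    exact cp1_sP env.hP env.hx env.hD (krD r hr hrS) rw1.w0 fν fδ (fun m m' => Kn0 m m' r hr)
      (fun m m' => Kp0 m m' r hr) (κD0 r hr) (ck r hr hrS) l.1 l.2 hc hF hcF
  sQ := fun l c hc F hF hcF r hr hrS => by
    rw [Finset.sum_add_distrib, Finset.sum_add_distrib, opK_sum, opK_sum, opK_sum,
      ← Finset.sum_add_distrib, ← Finset.sum_add_distrib]
    exact cp1_sQ env.hP env.hx env.hD (krD r hr hrS) (krE r hr hrS) rw1.w0 fν fδ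
      (fun m m' => Kn0 m m' r hr)
      (fun m m' => Kp0 m m' r hr) (fun m m' => Ke0 m m' r hr) (fun m m' => Km0 m m' r hr)
      (κD0 r hr) (κE0 r hr) (ck r hr hrS) (θf := fun m b G => thf x D T w1 m b G r)
      (fun m => fb_tp env.hP env.hx env.hD (env.kr r hr hrS) (env.tb r hr hrS) (rw1.w0 m)
        ((ck r hr hrS).tΘ m) ((ck r hr hrS).oΘ m) ((ck r hr hrS).CΘ0 m)) l.1 l.2 hc hF hcF

end pf

end Pool.Agent.RZ.RCO
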