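import Pool.Agent.RZ.RCO.Gz1

/-! Level 0 of a cell from a table (MP_73ccd0_lc). -/

namespace Pool.Agent.RZ.RCO

open Set Finset Pool.Agent.RZ.RCRSHalf Pool.Agent.RZ.RCG Pool.Agent.RZ.RCG.Ct
open Pool.Agent.RZ.RCN Pool.Agent.RZ.RCN.K

set_option linter.unusedSectionVars false

variable {V : Type*} [Fintype V] [DecidableEq V]
variable {Z : Hzd} {x : V → V → ℝ} {P : V → Prop} [DecidablePred P] {sl : ℝ → ℝ → ℝ}
variable {A D : Finset V} {α τ σ : ℝ} {T : TabZ} {S : Finset ℝ}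

/-- **level 0 of a world from the table** -/
theorem dt0_tab (hT : T.Ok τ S) (hA : T.At Z x P A D τ σ) (hZ : Z.Ok sl)
    (hx : RCG.Ct.Wt x P 1) (hD : D.card ≤ 2) (hAD : A ⊆ D) (α0 : 0 ≤ α) (σ0 : 0 ≤ σ)
    (στ : σ ≤ τ) (τ1 : τ ≤ 1) :
    ∃ Y Y' N N' : V → ℝ → ℝ, Dt0 Z x P A D α τ σ (zst Z x P A τ σ) Y Y' N N' ∧
      ∀ v ∈ Dᶜ, P v → ∀ r ∈ Icc 0 τ,
        Real.exp (yv D (zst Z x P A τ σ) Y v r) ≤ T.W r (fp x D v) ∧
        Y v r ≤ T.FY r (fp x D v) ∧ N v r ≤ T.FN r (fp x D v) := by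
  classical
  have hx' := wt_of hx
  have τ0 : 0 ≤ τ := σ0.trans στ
  have hc : ∀ u v, ContinuousOn (fun r => Z.hh x P r u v) (Icc 0 τ) := fun u v =>
    (hZ.hh_cont hx u v).mono (Icc_subset_Icc_right τ1)
  have h1 : ∀ r ∈ Icc 0 τ, r ∈ Icc (0 : ℝ) 1 := fun r hr => ⟨hr.1, hr.2.trans τ1⟩
  have b0 : ∀ u v, ∀ r ∈ Icc 0 τ, 0 ≤ Z.hh x P r u v := fun u v r hr =>
    hZ.hh_nonneg hx (h1 r hr) u v
  have ζ0 : ∀ w ∈ D, ∀ e, ∀ r ∈ Icc 0 τ, 0 ≤ zst Z x P A τ σ w e r := fun w _ e r hr =>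
    zst_nonneg hZ hx σ0 στ τ1 w e hr
  have lf : ∀ v ∈ Dᶜ, P v → (fp x D v).Ful := fun v hv hP => ful_fp hx hD hv hP
  -- the bounds
  obtain ⟨φY, eY⟩ : ∃ φ : V → ℝ → ℝ, ∀ v r, φ v r
      = vf x P D (T.FY r) 0 v (Dᶜ.erase v) := ⟨_, fun _ _ => rfl⟩
  obtain ⟨φN, eN⟩ : ∃ φ : V → ℝ → ℝ, ∀ v r, φ v r
      = vf x P D (T.FN r) 0 v (Dᶜ.erase v) := ⟨_, fun _ _ => rfl⟩
  have fY : ∀ v, φY v = fun r => vf x P D (T.FY r) 0 v (Dᶜ.erase v) := fun v =>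
    funext fun r => eY v r
  have fN : ∀ v, φN v = fun r => vf x P D (T.FN r) 0 v (Dᶜ.erase v) := fun v =>
    funext fun r => eN v r
  have Y0 : ∀ e ∈ Dᶜ, ∀ r ∈ Icc 0 τ, 0 ≤ φY e r := fun e he r hr => by
    rw [eY]
    by_cases hP : P e
    · rw [vf_l hP]
      exact (hT.sg r hr).Y0 _ (lf e he hP)
    · rw [vf_p hP, zero_mul]
  have N0 : ∀ e ∈ Dᶜ, ∀ r ∈ Icc 0 τ, 0 ≤ φN e r := fun e he r hr => by
    rw [eN]
    by_cases hP : P e
    · rw [vf_l hP]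
      exact (hT.sg r hr).N0 _ (lf e he hP)
    · rw [vf_p hP, zero_mul]
  have N1 : ∀ e ∈ Dᶜ, ∀ r ∈ Icc 0 τ, φN e r ≤ 1 := fun e he r hr => by
    rw [eN]
    by_cases hP : P e
    · rw [vf_l hP]
      exact (hT.sg r hr).N1 _ (lf e he hP)
    · rw [vf_p hP, zero_mul]
      exact zero_le_one
  -- the exponentials
  have eL := fun {v} (hv : v ∈ Dᶜ) (hP : P v) {r} (hr : r ∈ Icc 0 τ) =>
    ey_live hT hA hx hD hv hP hr (Y := φY) (eY v r).le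
  have e1 : ∀ e ∈ Dᶜ, ∀ r ∈ Icc 0 τ,
      1 ≤ Real.exp (yv D (zst Z x P A τ σ) φY e r) := fun e he r hr =>
    Real.one_le_exp (add_nonneg (Finset.sum_nonneg fun w hw => ζ0 w hw e r hr) (Y0 e he r hr))
  have sub : ∀ e, Dᶜ.erase e ⊆ Dᶜ := fun e => Finset.erase_subset _ _
  have mem : ∀ {e f}, f ∈ Dᶜ.erase e → f ∈ Dᶜ := fun h => Finset.mem_of_mem_erase h
  have hH : ∀ v, (fp x D v).H = hk x D v := fun v => hk_eq hx' D v
  -- continuity and derivatives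
  have cY : ∀ e ∈ Dᶜ, ContinuousOn (φY e) (Icc 0 τ) := by
    intro e he
    rw [fY]
    by_cases hP : P e
    · simp only [vf_l hP]
      exact hT.cY _ (lf e he hP)
    · simp only [vf_p hP]
      exact continuousOn_const
  have cN : ∀ e ∈ Dᶜ, ContinuousOn (φN e) (Icc 0 τ) := by
    intro e he
    rw [fN]
    by_cases hP : P e
    · simp only [vf_l hP]
      exact hT.cN _ (lf e he hP)
    · simp only [vf_p hP]
      exact continuousOn_const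
  have dY : ∀ e ∈ Dᶜ, ∀ r ∈ Icc 0 τ, r ∉ S →
      HasDerivAt (φY e) (vf x P D (T.FY' r) 0 e (Dᶜ.erase e)) r := by
    intro e he r hr hS
    rw [fY]
    by_cases hP : P e
    · simp only [vf_l hP]
      exact hT.dY _ (lf e he hP) r hr hS
    · simp only [vf_p hP, zero_mul]
      exact hasDerivAt_const r _
  have dN : ∀ e ∈ Dᶜ, ∀ r ∈ Icc 0 τ, r ∉ S →
      HasDerivAt (φN e) (vf x P D (T.FN' r) 0 e (Dᶜ.erase e)) r := by
    intro e he r hr hS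
    rw [fN]
    by_cases hP : P e
    · simp only [vf_l hP]
      exact hT.dN _ (lf e he hP) r hr hS
    · simp only [vf_p hP, zero_mul]
      exact hasDerivAt_const r _
  -- the inequalities
  have oY : ∀ e ∈ Dᶜ, ∀ r ∈ Icc 0 τ, r ∉ S → ∑ f ∈ Dᶜ, Z.hh x P r e f * φN f r
      ≤ -vf x P D (T.FY' r) 0 e (Dᶜ.erase e) := by
    intro e he r hr hS
    by_cases hP : P e
    · rw [sum_hh hx he, vf_l hP]
      obtain ⟨c, hc1, hc2⟩ := (hT.chk r hr hS).V2 _ (lf e he hP)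
      rw [hH] at hc1
      refine (EL.sum hx hx' hD (hA.kr r hr) hc1 (sub e) he (Finset.notMem_erase e _) hP
        (fun f hf => N0 f (mem hf) r hr) (fun f hf hPf => ?_) fun f hf hPf h0 => ?_).trans hc2
      · rw [eN, vf_l hPf]
        exact le_rfl
      · exact absurd (hx.pz e f fun h => hPf h.2) h0
    · rw [sum_hh_pz hx hP, vf_p hP, zero_mul, neg_zero]
  have oN : ∀ e ∈ Dᶜ, ∀ r ∈ Icc 0 τ, r ∉ S → ∑ f ∈ Dᶜ, Z.hh x P r e f
      * (Real.exp (yv D (zst Z x P A τ σ) φY f r) - 1)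
      ≤ -vf x P D (T.FN' r) 0 e (Dᶜ.erase e) := by
    intro e he r hr hS
    by_cases hP : P e
    · rw [sum_hh hx he, vf_l hP]
      obtain ⟨c, hc1, hc2⟩ := (hT.chk r hr hS).V1 _ (lf e he hP)
      rw [hH] at hc1
      exact (EL.sum hx hx' hD (hA.kr r hr) hc1 (sub e) he (Finset.notMem_erase e _) hP
        (fun f hf => sub_nonneg.2 (e1 f (mem hf) r hr))
        (fun f hf hPf => sub_le_sub_right (eL (mem hf) hPf hr) _)
        fun f hf hPf h0 => absurd (hx.pz e f fun h => hPf h.2) h0).trans hc2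
    · rw [sum_hh_pz hx hP, vf_p hP, zero_mul, neg_zero]
  have hM : Sgn (Z.hh x P) D τ α (yv D (zst Z x P A τ σ) φY) (klw Z x P A) S
      φN (fun v r => vf x P D (T.FN' r) 0 v (Dᶜ.erase v)) := by
    refine ⟨cN, N1, fun e he r hr => N0 e he r ⟨α0.trans hr.1, hr.2⟩, dN, fun e he r hr hS => ?_⟩
    have n0 := N0 e he r hr
    have n1 := N1 e he r hr
    have k0 := klw_nonneg (Z := Z) (x := x) (P := P) (A := A) e r
    have h2 := oN e he r hr hS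
    have h3 : ∑ f ∈ Dᶜ, Z.hh x P r e f
        * max 0 (Real.exp (yv D (zst Z x P A τ σ) φY f r) * (1 - φN e r) - 1)
        ≤ ∑ f ∈ Dᶜ, Z.hh x P r e f * (Real.exp (yv D (zst Z x P A τ σ) φY f r) - 1) := by
      refine Finset.sum_le_sum fun f hf => mul_le_mul_of_nonneg_left ?_ (b0 e f r hr)
      have h4 := e1 f hf r hr
      exact max_le (by linarith) (by nlinarith)
    have h5 : 0 ≤ ∑ f ∈ Dᶜ, Z.hh x P r e f
        * (Real.exp (yv D (zst Z x P A τ σ) φY f r) - 1) :=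
      Finset.sum_nonneg fun f hf => mul_nonneg (b0 e f r hr) (sub_nonneg.2 (e1 f hf r hr))
    generalize (∑ f ∈ Dᶜ, Z.hh x P r e f
        * max 0 (Real.exp (yv D (zst Z x P A τ σ) φY f r) * (1 - φN e r) - 1)) = a at *
    generalize (∑ f ∈ Dᶜ, Z.hh x P r e f
        * (Real.exp (yv D (zst Z x P A τ σ) φY f r) - 1)) = b at *
    have h6 := mul_le_mul_of_nonneg_left (by linarith : a - klw Z x P A e r ≤ b)
      (by linarith : 0 ≤ 1 - φN e r)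
    have h7 := mul_nonneg n0 h5
    linarith
  obtain ⟨Y, Y', N, N', hL, hb⟩ := exists_L0w (α := α) (kl := klw Z x P A)
    (ζ := zst Z x P A τ σ) S τ0 b0 (fun u _ v _ => hc u v) ζ0
    (fun w _ e => zst_cont hZ hx σ0 στ τ1 w e)
    (φY' := fun e r => vf x P D (T.FY' r) 0 e (Dᶜ.erase e))
    (φN' := fun e r => vf x P D (T.FN' r) 0 e (Dᶜ.erase e))
    cY cN dY dN Y0 N0 N1 oY oN hM
  refine ⟨Y, Y', N, N', Dt0.std hZ hx σ0 στ τ1 hAD α0 hL, fun v hv hP r hr => ?_⟩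
  obtain ⟨b1, b2, b3⟩ := hb v hv r hr
  rw [eY] at b1
  rw [eN, vf_l hP] at b2
  refine ⟨ey_live hT hA hx hD hv hP hr b1, ?_, b2⟩
  rwa [vf_l hP] at b1

end Pool.Agent.RZ.RCO
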