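import Pool.Agent.RZ.RCO.Gl6
import Pool.Agent.RZ.RCO.Gz2

/-! The bounds of level 0 from the table, and the killing from a rate line (MP_73ccd0_lc). -/

namespace Pool.Agent.RZ.RCO

open Set Finset Pool.Agent.RZ.RCRSHalf Pool.Agent.RZ.RCG Pool.Agent.RZ.RCG.Ct
open Pool.Agent.RZ.RCN Pool.Agent.RZ.RCN.K

set_option linter.unusedSectionVars false

variable {V : Type*} [Fintype V] [DecidableEq V]
variable {Z : Hzd} {x : V → V → ℝ} {P : V → Prop} [DecidablePred P] {sl : ℝ → ℝ → ℝ}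
variable {A D : Finset V} {α τ σ : ℝ} {T : TabZ} {S : Finset ℝ} {Y Y' N N' : V → ℝ → ℝ}

/-- **level 0 of a world from the table**, in the form of the bounds at every time -/
theorem dt0_l0b (hT : T.Ok τ S) (hA : T.At Z x P A D τ σ) (hZ : Z.Ok sl)
    (hx : RCG.Ct.Wt x P 1) (hD : D.card ≤ 2) (hAD : A ⊆ D) (α0 : 0 ≤ α) (σ0 : 0 ≤ σ)
    (στ : σ ≤ τ) (τ1 : τ ≤ 1) :
    ∃ Y Y' N N' : V → ℝ → ℝ, Dt0 Z x P A D α τ σ (zst Z x P A τ σ) Y Y' N N' ∧
      ∀ r ∈ Icc 0 τ, L0b Z x P D (zst Z x P A τ σ) Y N r (T.W r) (fun _ => 1)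
        (T.FN r) (fun _ => 0) := by
  obtain ⟨Y, Y', N, N', h1, h2⟩ := dt0_tab hT hA hZ hx hD hAD α0 σ0 στ τ1
  exact ⟨Y, Y', N, N', h1, fun r hr => ⟨fun v hv hP => (h2 v hv hP r hr).1,
    fun v hv f hf hPf h0 => absurd (hx.pz v f fun h => hPf h.2) h0,
    fun v hv hP => (h2 v hv hP r hr).2.2,
    fun v hv f hf hPf h0 => absurd (hx.pz v f fun h => hPf h.2) h0, fun y hy => le_rfl,
    fun v hv hP => (hT.sg r hr).N1 _ (ful_fp hx hD hv hP), fun y hy => zero_le_one⟩⟩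

/-! ### the killing -/

/-- the killed mass is at most twice the bound of the weights -/
theorem kk_le2X (hx : RCG.Ct.Wt x P 1) (hD : D.card ≤ 2) (v : V) : kk x D v ≤ 2 * XM := by
  have h1 : kk x D v ≤ D.card • XM :=
    Finset.sum_le_card_nsmul D (fun w => x w v) XM fun w _ => hx.leX w v
  have h2 : (D.card : ℝ) ≤ 2 := by exact_mod_cast hD
  rw [nsmul_eq_mul] at h1
  exact h1.trans (mul_le_mul_of_nonneg_right h2 XM_pos.le)

/-- **the killing of the removed vertices from a rate line**: `k` times the largest rate is at most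
the slope of `Zt` -/
theorem zt_of (hZ : Z.Ok sl) (hx : RCG.Ct.Wt x P 1) (hD : D.card ≤ 2) (σ0 : 0 ≤ σ) (στ : σ ≤ τ)
    (τ1 : τ ≤ 1) {Zt Zt' : ℝ → ℝ → ℝ}
    (cZ : ∀ k ∈ Icc (0 : ℝ) (2 * XM), ContinuousOn (fun r => Zt r k) (Icc 0 τ))
    (dZ : ∀ k ∈ Icc (0 : ℝ) (2 * XM), ∀ r ∈ Icc 0 τ, r ∉ S →
      HasDerivAt (fun r => Zt r k) (Zt' r k) r)
    (Z0 : ∀ k ∈ Icc (0 : ℝ) (2 * XM), 0 ≤ Zt τ k)
    (hR : ∀ k ∈ Icc (0 : ℝ) (2 * XM), ∀ r ∈ Icc 0 τ, r ∉ S → ∀ y ∈ Icc (0 : ℝ) XM,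
      k * Z.rr y r ≤ -Zt' r k) :
    ∀ r ∈ Icc 0 τ, ∀ v ∈ Dᶜ, P v → ∑ w ∈ D, zst Z x P A τ σ w v r ≤ Zt r (kk x D v) := by
  classical
  intro r hr v hv hPv
  have hx' := wt_of hx
  have hk : kk x D v ∈ Icc (0 : ℝ) (2 * XM) := ⟨kk_nonneg hx' D v, kk_le2X hx hD v⟩
  have τ0 : 0 ≤ τ := σ0.trans στ
  refine back_le_fin (insert σ S) (f := fun r => ∑ w ∈ D, zst Z x P A τ σ w v r)
    (g := fun r => Zt r (kk x D v))
    (f' := fun r => ∑ w ∈ D, -(if w ∈ A ∨ r < σ then Z.hh x P r w v else 0))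
    (g' := fun r => Zt' r (kk x D v))
    (continuousOn_finsetSum _ fun w _ => zst_cont hZ hx σ0 στ τ1 w v) (cZ _ hk)
    (fun r hr hS => ?_) (fun r hr hS => dZ _ hk r ⟨hr.1.le, hr.2.le⟩
      fun h => hS (Finset.mem_insert_of_mem h)) (fun r hr hS => ?_) ?_ r hr
  · have hrσ : r ≠ σ := fun h => hS (h ▸ Finset.mem_insert_self _ _)
    have hr1 : r ∈ Icc (0 : ℝ) 1 := ⟨hr.1.le, hr.2.le.trans τ1⟩
    refine HasDerivAt.fun_sum fun w _ => ?_
    by_cases hw : w ∈ A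
    · rw [if_pos (Or.inl hw)]
      have e : zst Z x P A τ σ w v = Z.Hh x P τ w v := by
        funext z
        unfold zst
        rw [if_pos hw]
      rw [e]
      exact hZ.Hh_deriv hx w v hr1
    · have e : zst Z x P A τ σ w v = fun z => Z.Hh x P σ w v (min z σ) := by
        funext z
        unfold zst
        rw [if_neg hw]
      rw [e]
      rcases lt_or_gt_of_ne hrσ with h | h
      · rw [if_pos (Or.inr h)]
        refine (hZ.Hh_deriv (t := σ) hx w v hr1).congr_of_eventuallyEq ?_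
        filter_upwards [Iio_mem_nhds h] with z hz
        rw [min_eq_left (le_of_lt hz)]
      · rw [if_neg (fun h' => h'.elim hw fun h'' => absurd h'' (not_lt.2 h.le)), neg_zero]
        refine (hasDerivAt_const r (Z.Hh x P σ w v σ)).congr_of_eventuallyEq ?_
        filter_upwards [Ioi_mem_nhds h] with z hz
        rw [min_eq_right (le_of_lt hz)]
  · have hr1 : r ∈ Icc (0 : ℝ) 1 := ⟨hr.1.le, hr.2.le.trans τ1⟩
    have hS' : r ∉ S := fun h => hS (Finset.mem_insert_of_mem h)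
    have hrr := fun y hy => hR _ hk r ⟨hr.1.le, hr.2.le⟩ hS' y hy
    have key : ∀ w ∈ D, (if w ∈ A ∨ r < σ then Z.hh x P r w v else 0)
        ≤ x w v * (-Zt' r (kk x D v) / kk x D v) := by
      intro w hw
      have hxw : x w v ≤ kk x D v := Finset.single_le_sum (f := fun w => x w v)
        (fun w _ => hx.nonneg w v) hw
      have h1 : Z.hh x P r w v ≤ x w v * (-Zt' r (kk x D v) / kk x D v) := by
        by_cases h0 : x w v = 0
        · rw [Hzd.hh_zero h0, h0, zero_mul]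
        · have hxp : 0 < x w v := lt_of_le_of_ne (hx.nonneg w v) (Ne.symm h0)
          have hkp : 0 < kk x D v := hxp.trans_le hxw
          have hPw : P w ∧ P v := by
            by_contra h
            exact h0 (hx.pz w v h)
          unfold Hzd.hh
          rw [if_pos hPw]
          refine mul_le_mul_of_nonneg_left ?_ hxp.le
          rw [le_div_iff₀ hkp, mul_comm]
          exact hrr _ ⟨hxp.le, hx.leX w v⟩
      split_ifs
      · exact h1
      · exact (hZ.hh_nonneg hx hr1 w v).trans h1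
    have h2 := Finset.sum_le_sum key
    rw [← Finset.sum_mul] at h2
    have h3 : (∑ w ∈ D, x w v) * (-Zt' r (kk x D v) / kk x D v) ≤ -Zt' r (kk x D v) := by
      show kk x D v * (-Zt' r (kk x D v) / kk x D v) ≤ -Zt' r (kk x D v)
      by_cases hk0 : kk x D v = 0
      · rw [hk0, zero_mul]
        have := hrr 0 ⟨le_rfl, XM_pos.le⟩
        rw [hk0, zero_mul] at this
        exact this
      · rw [mul_div_cancel₀ _ hk0]
    rw [Finset.sum_neg_distrib]
    linarith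
  · have e : ∀ w ∈ D, zst Z x P A τ σ w v τ = 0 := by
      intro w _
      unfold zst Hzd.Hh
      split_ifs <;> simp [στ]
    show ∑ w ∈ D, zst Z x P A τ σ w v τ ≤ _
    rw [Finset.sum_eq_zero e]
    exact Z0 _ hk

end Pool.Agent.RZ.RCO
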