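import Pool.Agent.RZ.RCO.Gk10
import Pool.Agent.RZ.RCO.Gk8

/-! The symbolic data of level 0 and its lines (MP_73ccd0_lc). -/

set_option autoImplicit false

namespace Pool.Agent.RZ.RCO

open Sg Set Sp12

/-! ### tables with unsigned entries -/

/-- the checks in a step of a table of one function whose entries are unsigned -/
def Cf.chkU (R iH : ℕ) (a : Cf) : List (Re × Re) :=
  [(kr (R + a.w) + kd 1 1 * (kr iH * (kr a.s + kr (R + a.s))), kr a.w),
    (kr a.w, kr a.u), (kr (R + a.w), kr (R + a.u)),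
    (kr iH * (kr (R + a.s) - kr a.s), kc 8 * (kr a.u - kr a.w)),
    (kr iH * (kr (R + a.s) - kr a.s), kc 8 * (kr (R + a.u) - kr (R + a.w)))]

/-- the table number `m` of a block -/
def Cf.sh (a : Cf) (m : ℕ) : Cf := ⟨a.s + m, a.w + m, a.u + m⟩

/-- **the layout of the tables of level 0** -/
structure Tp0 where
  /-- length of a row, entry of the step length -/
  R : ℕ
  iH : ℕ
  RR : List Re
  /-- slopes of the killing: first entry and number of the coefficients -/
  iZ : ℕ
  nZ : ℕ
  /-- the boosts: slope, node value and used value, first entries; number of the coefficients -/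
  W : Cf
  nW : ℕ
  /-- the exponents: only the slopes are used; the losses -/
  fy : ℕ → Option Cf
  fn : ℕ → Option Cf
  c1 : EcR
  c2 : EcR
  fe : ℕ → List (Re × FE)
  ff : ℕ → List (Re × Fa)

namespace Tp0

variable (x : Tp0)

/-- the slope of the killing, the boost and its slope: Bernstein polynomials of the killed mass -/
def Z' : Re := plr x.R 0 x.iZ x.nZ
def Wu : Re := plr x.R 0 x.W.u x.nW
def Ws : Re := plr x.R 0 x.W.s x.nW

/-- the forms: slope of the exponent, slope and used value of the loss -/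
def fY : ℕ → Re := cre2 Cf.s x.R x.fy
def fS : ℕ → Re := cre2 Cf.s x.R x.fn
def fU : ℕ → Re := cre2 Cf.u x.R x.fn

def e1 : LnE := ⟨vsm (kEL x.RR) [x.Wu - kc 1], evV x.c1 eX eK eF.h, x.fe 0⟩
def e2 : LnE := ⟨vsm (kEL x.RR) (fmV x.fU eK eF eF), evV x.c2 eX eK eF.h, x.fe 1⟩

def fW : LnF := ⟨vsm x.Wu (vadd [x.Z'] (fmV x.fY eK fF fF)), [x.Ws], x.ff 0⟩
def fY0 : LnF := ⟨[], fmV x.fY eK fF fF, x.ff 1⟩
def fN0 : LnF := ⟨[], fmV x.fS eK fF fF, x.ff 2⟩
def fN1 : LnF := ⟨fmV x.fU eK fF fF, [kc 1], x.ff 3⟩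
def fv1 : LnF := ⟨svF x.c1, fmV x.fS eK fF fF, x.ff 4⟩
def fv2 : LnF := ⟨svF x.c2, fmV x.fY eK fF fF, x.ff 5⟩

/-- the lines of time -/
def tL : List (Re × Re) :=
  (List.range x.nW).flatMap (fun m => (x.W.sh m).chkU x.R x.iH)
    ++ (List.range 26).flatMap (fun i => oChk x.R x.iH (x.fn i))

/-- **all lines** -/
def sheet : Sheet where
  e := [x.e1, x.e2]
  p := []
  f := [x.fW, x.fY0, x.fN0, x.fN1, x.fv1, x.fv2]
  o := []
  s := [(kd 1 24, kr x.iH), (eK * hor eX x.RR, x.Z')] ++ x.tL

/-- the format -/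
def ok : Bool :=
  allL isT x.RR && allL isP x.RR && x.c1.okT && x.c2.okT
    && all13 isK x.fY && all13 isK x.fS && all13 isK x.fU

/-- the end values: entries of the row `n`; the boosts are at least one -/
noncomputable def okE (D n : ℕ) : Bool :=
  Nat.ble 1 x.nW
    && allL (fun m => Nat.ble (16777216 * Nat.choose (x.nW - 1) m) (g D (x.R * n + (x.W.w + m))))
      (List.range x.nW)
    && allL (fun i => match x.fn i with
      | none => true
      | some a => Nat.ble 2147483648 (g D (x.R * n + a.w))) (List.range 26)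

end Tp0

end Pool.Agent.RZ.RCO
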