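import Pool.Agent.RZ.RCO.Gt2
import Pool.Agent.RZ.RCO.Gz4
import Pool.Agent.RZ.RCO.Gz6

/-! The tables of level 0 satisfy their conditions: from the sheet of all rows (MP_73ccd0_lc). -/

set_option autoImplicit false

namespace Pool.Agent.RZ.RCO

open Sg Set Sp12

/-! ### Bernstein polynomials -/

/-- the Bernstein polynomials of the scaled killed mass, without the binomial coefficients -/
noncomputable def bφ (n m : ℕ) (k : ℝ) : ℝ := (k / kS) ^ m * (1 - k / kS) ^ (n - 1 - m)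

theorem bp_sum (a : ℕ → ℝ) (x : ℝ) : ∀ (n i : ℕ),
    bp a x i n = ∑ m ∈ Finset.range n, a (i + m) * (x ^ m * (1 - x) ^ (n - 1 - m))
  | 0, _ => rfl
  | n + 1, i => by
    rw [bp, bp_sum a x n (i + 1), Finset.sum_range_succ', Finset.mul_sum, add_comm]
    refine congrArg₂ (· + ·) (Finset.sum_congr rfl fun m _ => ?_) ?_
    · rw [show i + 1 + m = i + (m + 1) by ring, show n + 1 - 1 - (m + 1) = n - 1 - m by omega,
        pow_succ]
      ring
    · rw [add_zero, pow_zero, one_mul, Nat.add_sub_cancel, Nat.sub_zero]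

theorem bp_kp (a : ℕ → ℝ) (k : ℝ) (i n : ℕ) :
    bp a (k / kS) i n = kp (bφ n) n (fun m => a (i + m)) k := bp_sum a (k / kS) n i

theorem kS_mem {k : ℝ} (h : k ∈ Icc (0 : ℝ) (2 * RCG.XM)) : 0 ≤ k / kS ∧ k / kS ≤ 1 :=
  ⟨div_nonneg h.1 kS_pos.le, (div_le_one kS_pos).2 (h.2.trans X_kS)⟩

theorem bφ_nonneg (n m : ℕ) {k : ℝ} (h : k ∈ Icc (0 : ℝ) (2 * RCG.XM)) : 0 ≤ bφ n m k :=
  mul_nonneg (pow_nonneg (kS_mem h).1 _) (pow_nonneg (by linarith [(kS_mem h).2]) _)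

/-- the sum with the binomial coefficients is one -/
theorem bφ_choose {n : ℕ} (hn : 1 ≤ n) (k : ℝ) :
    kp (bφ n) n (fun m => ((Nat.choose (n - 1) m : ℕ) : ℝ)) k = 1 := by
  obtain ⟨m, rfl⟩ : ∃ m, n = m + 1 := ⟨n - 1, by omega⟩
  have h := add_pow (k / kS) (1 - k / kS) m
  rw [add_sub_cancel, one_pow] at h
  rw [h]
  unfold kp bφ
  rw [Nat.add_sub_cancel]
  exact Finset.sum_congr rfl fun i _ => by ring

/-! ### tables with unsigned entries -/

/-- the table -/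
noncomputable def Cf.tqu (D R : ℕ) (a : Cf) : Tq :=
  ⟨fun j => un D R a.s j, fun j => un D R a.w j, fun j => un D R a.u j⟩

theorem un_succ (D R i j : ℕ) : un D R (R + i) j = un D R i (j + 1) := by
  unfold un Sg.nv
  rw [show R * j + (R + i) = R * (j + 1) + i by ring]

theorem tqu_ok {D R iH n : ℕ} {a : Cf} (h : ∀ j < n, ∀ b ∈ a.chkU R iH, ∀ ρ : ℕ → ℝ,
    (∀ p, 0 ≤ ρ p) → (∀ p, ρ p ≤ 1) → b.1.val ρ (rwd D R j) ≤ b.2.val ρ (rwd D R j)) :
    (a.tqu D R).Ok (tmD D R iH) n := by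
  have z0 : ∀ p : ℕ, (0 : ℝ) ≤ (fun _ : ℕ => (0 : ℝ)) p := fun _ => le_rfl
  have z1 : ∀ p : ℕ, (fun _ : ℕ => (0 : ℝ)) p ≤ 1 := fun _ => zero_le_one
  refine ⟨fun j hj => ?_, fun j hj => ?_, fun j hj => ?_, fun j hj => ?_, fun j hj => ?_⟩
  · have h1 := h j hj (kr (R + a.w) + kd 1 1 * (kr iH * (kr a.s + kr (R + a.s))), kr a.w)
      (by simp [Cf.chkU]) _ z0 z1
    simp only [re_add, re_mul, kd_val, rwd_kr, un_succ] at h1
    rw [tmD_succ]
    refine le_trans (le_of_eq ?_) h1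
    simp only [Cf.tqu]
    push_cast
    ring
  · have h1 := h j hj (kr a.w, kr a.u) (by simp [Cf.chkU]) _ z0 z1
    simpa only [rwd_kr, Cf.tqu] using h1
  · have h1 := h j hj (kr (R + a.w), kr (R + a.u)) (by simp [Cf.chkU]) _ z0 z1
    simpa only [rwd_kr, un_succ, Cf.tqu] using h1
  · have h1 := h j hj (kr iH * (kr (R + a.s) - kr a.s), kc 8 * (kr a.u - kr a.w))
      (by simp [Cf.chkU]) _ z0 z1
    simp only [re_sub, re_mul, kc_val, rwd_kr, un_succ] at h1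
    rw [tmD_succ]
    simp only [Cf.tqu]
    exact_mod_cast h1
  · have h1 := h j hj (kr iH * (kr (R + a.s) - kr a.s),
      kc 8 * (kr (R + a.u) - kr (R + a.w))) (by simp [Cf.chkU]) _ z0 z1
    simp only [re_sub, re_mul, kc_val, rwd_kr, un_succ] at h1
    rw [tmD_succ]
    simp only [Cf.tqu]
    exact_mod_cast h1

/-- a Bernstein polynomial of the killed mass whose coefficients are linear in time -/
theorem plr_kp {D R n j : ℕ} {t : ℕ → ℝ} {r : ℝ} {ρ : ℕ → ℝ} (h : Stp t n j r)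
    (h2 : ρ 2 = stc t j r) {k : ℝ} (h0 : ρ 0 = k / kS) (i m : ℕ) :
    (plr R 0 i m).val ρ (rwd D R j) = kp (bφ m) m (fun l => uT D R t n (i + l) r) k := by
  rw [h.plr h2, h0, bp_kp]

namespace Tp0

variable {x : Tp0} {D n : ℕ}

/-- the tables of level 0 -/
noncomputable def t0 (x : Tp0) (D n : ℕ) : T0Z where
  R := fun ρ => hT x.RR (cD (tmD D x.R x.iH) n ρ) (eD D x.R (tmD D x.R x.iH) n ρ)
  φz := bφ x.nZ
  nZ := x.nZ
  z := fun m j => un D x.R (x.iZ + m) j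
  φw := bφ x.nW
  nW := x.nW
  w := fun m => (x.W.sh m).tqu D x.R
  fy := fun i => (oTq D x.R (x.fy i)).s
  fn := fun i => oTq D x.R (x.fn i)
  c1 := fun ρ => x.c1.tv (cD (tmD D x.R x.iH) n ρ) (eD D x.R (tmD D x.R x.iH) n ρ)
  c2 := fun ρ => x.c2.tv (cD (tmD D x.R x.iH) n ρ) (eD D x.R (tmD D x.R x.iH) n ρ)

/-- the format -/
structure OkF (x : Tp0) : Prop where
  RR : allL isT x.RR = true
  RRp : allL isP x.RR = true
  c1 : x.c1.okT = true
  c2 : x.c2.okT = true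
  fY : all13 isK x.fY = true
  fS : all13 isK x.fS = true
  fU : all13 isK x.fU = true

theorem okF_of (h : x.ok = true) : OkF x := by
  unfold ok at h
  simp only [Bool.and_eq_true] at h
  obtain ⟨⟨⟨⟨⟨⟨a1, a2⟩, a5⟩, a6⟩, a7⟩, a8⟩, a9⟩ := h
  exact ⟨a1, a2, a5, a6, a7, a8, a9⟩

/-- the full point as an index -/
theorem ful_z {p : Pt} (hp : p.Ful) : ∃ z : ZFu, z.p = p ∧ z.p.full = p :=
  ⟨⟨p, hp.1.toLive⟩, rfl, hp.2.symm⟩

/-- **the lines of level 0 at one time** -/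
theorem lin (ho : OkF x) {t : ℕ → ℝ} {j : ℕ} {r : ℝ} (hs : Stp t n j r)
    (hS : x.sheet.At D x.R j) :
    T0Z.Lin (hT x.RR (stc t j r) (rwd D x.R j))
      (kp (bφ x.nZ) x.nZ fun m => uT D x.R t n (x.iZ + m) r)
      (kp (bφ x.nW) x.nW fun m => uT D x.R t n (x.W.u + m) r)
      (kp (bφ x.nW) x.nW fun m => uT D x.R t n (x.W.s + m) r)
      (cf x.fY (stc t j r) (rwd D x.R j)) (cf x.fS (stc t j r) (rwd D x.R j))
      (cf x.fU (stc t j r) (rwd D x.R j))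
      (x.c1.tv (stc t j r) (rwd D x.R j)) (x.c2.tv (stc t j r) (rwd D x.R j)) := by
  have c0 := hs.c0
  have c1 := hs.c1
  obtain ⟨c, hc⟩ : ∃ c, c = stc t j r := ⟨_, rfl⟩
  rw [← hc] at c0 c1 ⊢
  -- the polynomials
  have WE : RE (rE c) (rwd D x.R j)
      (fun z => kp (bφ x.nW) x.nW (fun m => uT D x.R t n (x.W.u + m) r) z.p.k) x.Wu :=
    fun z => plr_kp hs hc rfl _ _
  have WF : RE (rF c) (rwd D x.R j)
      (fun z => kp (bφ x.nW) x.nW (fun m => uT D x.R t n (x.W.u + m) r) z.p.k) x.Wu :=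
    fun z => plr_kp hs hc rfl _ _
  have VF : RE (rF c) (rwd D x.R j)
      (fun z => kp (bφ x.nW) x.nW (fun m => uT D x.R t n (x.W.s + m) r) z.p.k) x.Ws :=
    fun z => plr_kp hs hc rfl _ _
  have ZF : RE (rF c) (rwd D x.R j)
      (fun z => kp (bφ x.nZ) x.nZ (fun m => uT D x.R t n (x.iZ + m) r) z.p.k) x.Z' :=
    fun z => plr_kp hs hc rfl _ _
  have F : ∀ {a : LnF}, a ∈ x.sheet.f → ∀ {f g : ZFu → ℝ},
      EB (rF c) fF' (rwd D x.R j) f a.lhs → EB (rF c) fF' (rwd D x.R j) g a.rhs →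
      ∀ z, f z ≤ g z := fun {a} ha {f g} hf hg z => hS.lF c0 c1 ha hf.ub hg.lb z
  constructor
  case R0 => exact fun y hy => hT_nonneg ho.RRp c0 c1 hy.1 _
  case zl =>
    intro k hk y hy
    have k1 : k ≤ kS := hk.2.trans X_kS
    have y0 : 0 ≤ y / xS := div_nonneg hy.1 xS_pos.le
    have y1 : y / xS ≤ 1 := (div_le_one xS_pos).2 (hy.2.trans X_xS)
    have h1 := hS.s (eK * hor eX x.RR, x.Z') (by simp [sheet]) (rho3 k (y / xS) c)
      (rho3_nonneg hk.1 y0 c0) (rho3_le k1 y1 c1)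
    have hK : eK.val (rho3 k (y / xS) c) (rwd D x.R j) = k := eK_v3 _ _ _ _
    have hX : (hor eX x.RR).val (rho3 k (y / xS) c) (rwd D x.R j)
        = hT x.RR c (rwd D x.R j) y := hor_hT ho.RR (eX_v3 _ _ _ _) rfl
    have hZ : x.Z'.val (rho3 k (y / xS) c) (rwd D x.R j)
        = kp (bφ x.nZ) x.nZ (fun m => uT D x.R t n (x.iZ + m) r) k := plr_kp hs hc rfl _ _
    rw [re_mul, hK, hX, hZ] at h1
    exact h1
  case wl =>
    intro p hp
    obtain ⟨z, z1, z2⟩ := ful_z hp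
    have h1 := F (a := x.fW) (by simp [sheet]) (WF.sm' ((EB.oneF ZF).add (cF ho.fY)))
      (EB.oneF VF) z
    rw [z2, z1] at h1
    exact h1
  case y0 =>
    intro p hp
    obtain ⟨z, z1, z2⟩ := ful_z hp
    have h1 := F (a := x.fY0) (by simp [sheet]) EB.nil (cF ho.fY) z
    rw [z2] at h1
    exact h1
  case n0 =>
    intro p hp
    obtain ⟨z, z1, z2⟩ := ful_z hp
    have h1 := F (a := x.fN0) (by simp [sheet]) EB.nil (cF ho.fS) z
    rw [z2] at h1
    exact h1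
  case n1 =>
    intro p hp
    obtain ⟨z, z1, z2⟩ := ful_z hp
    have h1 := F (a := x.fN1) (by simp [sheet]) (cF ho.fU) (EB.oneF RE.one) z
    rw [z2] at h1
    exact h1
  case e1 =>
    exact Sheet.At.el hS c0 c1 rfl (by simp [sheet] : x.e1 ∈ _) ho.c1 rfl
      ((kEL_v ho.RR).sm' (EB.oneE (WE.sub RE.one)))
  case e2 =>
    exact Sheet.At.el hS c0 c1 rfl (by simp [sheet] : x.e2 ∈ _) ho.c2 rfl
      ((kEL_v ho.RR).sm' (cEF ho.fU))
  case v1 =>
    intro p hp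
    obtain ⟨z, z1, z2⟩ := ful_z hp
    have h1 := F (a := x.fv1) (by simp [sheet]) (sF ho.c1) (cF ho.fS) z
    rw [z2] at h1
    exact h1
  case v2 =>
    intro p hp
    obtain ⟨z, z1, z2⟩ := ful_z hp
    have h1 := F (a := x.fv2) (by simp [sheet]) (sF ho.c2) (cF ho.fY) z
    rw [z2] at h1
    exact h1

/-- the lines of time -/
theorem tAt {j : ℕ} (hS : x.sheet.At D x.R j) {a : Re × Re} (ha : a ∈ x.tL) :
    ∀ ρ : ℕ → ℝ, (∀ p, 0 ≤ ρ p) → (∀ p, ρ p ≤ 1) →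
      a.1.val ρ (rwd D x.R j) ≤ a.2.val ρ (rwd D x.R j) :=
  hS.s a (List.mem_append_right _ ha)

theorem msh (hS : ∀ j < n, x.sheet.At D x.R j) : Msh (tmD D x.R x.iH) n :=
  msh_of fun j hj => by
    have h1 := (hS j hj).s (kd 1 24, kr x.iH) (by simp [sheet])
      (fun _ => 0) (fun _ => le_rfl) fun _ => zero_le_one
    simp only [kd_val, rwd_kr] at h1
    have h2 : (0 : ℝ) < ((1 : ℕ) : ℝ) / 2 ^ 24 := by positivity
    linarith

/-- the end values -/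
structure OkV (x : Tp0) (D n : ℕ) : Prop where
  nW : 1 ≤ x.nW
  w : ∀ m < x.nW, ((Nat.choose (x.nW - 1) m : ℕ) : ℝ) ≤ un D x.R (x.W.w + m) n
  f : ∀ i < 26, 0 ≤ (oTq D x.R (x.fn i)).w n

theorem okV_of (h : x.okE D n = true) : OkV x D n := by
  unfold okE at h
  simp only [Bool.and_eq_true] at h
  obtain ⟨⟨a1, a2⟩, a3⟩ := h
  refine ⟨Nat.le_of_ble_eq_true a1, fun m hm => ?_,
    fun i hi => oTq_w (allL_of a3 i (List.mem_range.2 hi))⟩
  have h1 := Nat.le_of_ble_eq_true (allL_of a2 m (List.mem_range.2 hm))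
  have h2 : ((16777216 * Nat.choose (x.nW - 1) m : ℕ) : ℝ)
      ≤ ((g D (x.R * n + (x.W.w + m)) : ℕ) : ℝ) := Nat.cast_le.2 h1
  have h3 : un D x.R (x.W.w + m) n = ((g D (x.R * n + (x.W.w + m)) : ℕ) : ℝ) / 2 ^ 24 := rfl
  rw [h3, le_div_iff₀ (by positivity)]
  push_cast at h2 ⊢
  linarith

/-- **the conditions of the tables of level 0** -/
theorem t0_ok (hO : x.ok = true) (hE : x.okE D n = true) (hn : 0 < n)
    (hS : ∀ j < n, x.sheet.At D x.R j) : (x.t0 D n).Ok FF26 26 (tmD D x.R x.iH) n := by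
  have hm := msh hS
  have ho := okF_of hO
  have hv := okV_of hE
  have st : ∀ ρ ∈ Icc (tmD D x.R x.iH 0) (tmD D x.R x.iH n),
      Stp (tmD D x.R x.iH) n (ixD (tmD D x.R x.iH) n ρ) ρ := fun ρ hρ => ixD_spec hm hn hρ
  refine
    { φ0 := fun i _ k hk => bφ_nonneg _ i hk
      tw := fun i hi => tqu_ok fun j hj a ha => tAt (hS j hj) (List.mem_append_left _
        (List.mem_flatMap.2 ⟨i, List.mem_range.2 hi, ha⟩))
      tn := fun i hi => oTq_ok fun j hj a ha => tAt (hS j hj) (List.mem_append_right _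
        (List.mem_flatMap.2 ⟨i, List.mem_range.2 hi, ha⟩))
      L := fun ρ hρ => ?_
      we := fun k hk => ?_
      ne := fun p hp => ?_ }
  · have hs := st ρ hρ
    have h1 := lin ho hs (hS _ hs.lt)
    have e1 : (FF26 fun i => pl (tmD D x.R x.iH) ((x.t0 D n).fy i) n ρ)
        = cf x.fY (stc (tmD D x.R x.iH) (ixD (tmD D x.R x.iH) n ρ) ρ)
          (rwd D x.R (ixD (tmD D x.R x.iH) n ρ)) := funext fun p => (cf_sl hs x.fy p).symm
    have e2 : (FF26 fun i => ((x.t0 D n).fn i).sl (tmD D x.R x.iH) n ρ)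
        = cf x.fS (stc (tmD D x.R x.iH) (ixD (tmD D x.R x.iH) n ρ) ρ)
          (rwd D x.R (ixD (tmD D x.R x.iH) n ρ)) := funext fun p => (cf_sl hs x.fn p).symm
    have e3 : (FF26 fun i => ((x.t0 D n).fn i).up (tmD D x.R x.iH) n ρ)
        = cf x.fU (stc (tmD D x.R x.iH) (ixD (tmD D x.R x.iH) n ρ) ρ)
          (rwd D x.R (ixD (tmD D x.R x.iH) n ρ)) := funext fun p => (cf_up hs x.fn p).symm
    rw [e1, e2, e3]
    exact h1
  · rw [← bφ_choose hv.nW k]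
    exact kp_mono (fun i _ => bφ_nonneg _ i hk) hv.w
  · show 0 ≤ FF26 (fun i => (oTq D x.R (x.fn i)).w n) p
    rw [lf_26.eq]
    exact Finset.sum_nonneg fun i hi => mul_nonneg (hv.f i (Finset.mem_range.1 hi))
      (lf_26.nn p hp.1.toOk i (Finset.mem_range.1 hi))

end Tp0

end Pool.Agent.RZ.RCO
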