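import Pool.Agent.RZ.RCM.Glue
import Pool.Agent.RZ.RCM.Pic
import Pool.Agent.RZ.RCO.G12
import Pool.Agent.RZ.RCO.G12E
import Pool.Agent.RZ.RCO.Hf1

/-! The exact solution of the system of level 1/2 with functions indexed by the set
(MP_73ccd0_lc). -/

namespace Pool.Agent.RZ.RCO

open Set Finset Pool.Agent.RZ.RCM

set_option linter.unusedSectionVars false

variable {V : Type*} [Fintype V] [DecidableEq V]

/-- a pair of `U` outside the set `F` -/
def VP (U F : Finset V) (i j : V) : Prop :=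
  F ⊆ U ∧ i ∈ U ∧ j ∈ U ∧ i ∉ F ∧ j ∉ F ∧ i ≠ j

theorem VP.symm {U F : Finset V} {i j : V} (h : VP U F i j) : VP U F j i :=
  ⟨h.1, h.2.2.1, h.2.1, h.2.2.2.2.1, h.2.2.2.1, h.2.2.2.2.2.symm⟩

theorem VP.mono {U F G : Finset V} {i j : V} (h : VP U F i j) (hG : G ⊆ F) : VP U G i j :=
  ⟨hG.trans h.1, h.2.1, h.2.2.1, fun e => h.2.2.2.1 (hG e), fun e => h.2.2.2.2.1 (hG e),
    h.2.2.2.2.2⟩

theorem VP.er {U F : Finset V} {i j b : V} (h : VP U F i j) (hb : b ∈ F) :
    VP U (F.erase b) i b :=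
  ⟨(Finset.erase_subset _ _).trans h.1, h.2.1, h.1 hb,
    fun e => h.2.2.2.1 (Finset.mem_of_mem_erase e), Finset.notMem_erase _ _,
    fun e => h.2.2.2.1 (e ▸ hb)⟩

/-- the right side of the growing pairs -/
noncomputable def opF (T A : V → V → ℝ) (gp gm : Finset V → V → V → ℝ) (F : Finset V)
    (i j : V) : ℝ :=
  A i j
    + ∑ b ∈ F, T i b * (1 - Real.exp (-gm (F.erase b) j b))
    + ∑ b ∈ F, T j b * (1 - Real.exp (-gm (F.erase b) i b))
    + (1 / 2) * ∑ x ∈ F, ∑ y ∈ F, T x y *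
      (max ((1 - Real.exp (-(gp (F.erase x) j x + gp ((F.erase x).erase y) j y)))
          * (1 - Real.exp (-(gp (F.erase x) i x + gp ((F.erase x).erase y) i y))))
        ((1 - Real.exp (-(gm (F.erase x) j x + gm ((F.erase x).erase y) j y)))
          * (1 - Real.exp (-(gm (F.erase x) i x + gm ((F.erase x).erase y) i y)))))

/-- the right side of the decreasing pairs -/
noncomputable def omF (T B : V → V → ℝ) (gp gm : Finset V → V → V → ℝ) (F : Finset V)
    (i j : V) : ℝ :=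
  B i j
    + ∑ b ∈ F, T i b * (1 - Real.exp (-gp (F.erase b) j b))
    + ∑ b ∈ F, T j b * (1 - Real.exp (-gp (F.erase b) i b))
    + (1 / 2) * ∑ x ∈ F, ∑ y ∈ F, T x y *
      (max ((1 - Real.exp (-(gp (F.erase x) j x + gp ((F.erase x).erase y) j y)))
          * (1 - Real.exp (-(gm (F.erase x) i x + gm ((F.erase x).erase y) i y))))
        ((1 - Real.exp (-(gm (F.erase x) j x + gm ((F.erase x).erase y) j y)))
          * (1 - Real.exp (-(gp (F.erase x) i x + gp ((F.erase x).erase y) i y)))))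

/-- the functions of level 1/2 in terms of majorants `T ≥ h W`, `A ≥ h (W - 1)`,
`B ≥ h (1 - W2)` -/
structure S12F (U : Finset V) (t : ℝ) (T A B : ℝ → V → V → ℝ)
    (gp gp' gm gm' : Finset V → V → V → ℝ → ℝ) : Prop where
  dp : ∀ F i j, VP U F i j → ∀ r ∈ Icc 0 t, HasDerivAt (gp F i j) (gp' F i j r) r
  dm : ∀ F i j, VP U F i j → ∀ r ∈ Icc 0 t, HasDerivAt (gm F i j) (gm' F i j r) r
  gp0 : ∀ F i j, ∀ r ∈ Icc 0 t, 0 ≤ gp F i j r
  gm0 : ∀ F i j, ∀ r ∈ Icc 0 t, 0 ≤ gm F i j r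
  mp : ∀ F G, G ⊆ F → ∀ i j, VP U F i j → ∀ r ∈ Icc 0 t, gp G i j r ≤ gp F i j r
  mm : ∀ F G, G ⊆ F → ∀ i j, VP U F i j → ∀ r ∈ Icc 0 t, gm G i j r ≤ gm F i j r
  op : ∀ F i j, VP U F i j → ∀ r ∈ Icc 0 t,
    opF (T r) (A r) (fun F i j => gp F i j r) (fun F i j => gm F i j r) F i j ≤ -gp' F i j r
  om : ∀ F i j, VP U F i j → ∀ r ∈ Icc 0 t,
    omF (T r) (B r) (fun F i j => gp F i j r) (fun F i j => gm F i j r) F i j ≤ -gm' F i j r

theorem S12F.toG {U : Finset V} {s t : ℝ} {T A B : ℝ → V → V → ℝ}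
    {gp gp' gm gm' : Finset V → V → V → ℝ → ℝ} (hS : S12F U t T A B gp gp' gm gm') (hst : s ≤ t)
    {h W W2 : ℝ → V → V → ℝ}
    (hT : ∀ r ∈ Icc 0 s, ∀ i ∈ U, ∀ j ∈ U, h r i j * W r i j ≤ T r i j)
    (hA : ∀ r ∈ Icc 0 s, ∀ i ∈ U, ∀ j ∈ U, h r i j * (W r i j - 1) ≤ A r i j)
    (hB : ∀ r ∈ Icc 0 s, ∀ i ∈ U, ∀ j ∈ U, h r i j * (1 - W2 r i j) ≤ B r i j) :
    G12F h U s W W2 gp gp' gm gm' := by
  have m : ∀ r ∈ Icc 0 s, r ∈ Icc 0 t := fun r hr => mem_of_le hst hr
  have k1 : ∀ r ∈ Icc 0 s, ∀ i ∈ U, ∀ j ∈ U, ∀ z : ℝ, 0 ≤ z →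
      h r i j * (W r i j * z) ≤ T r i j * z := fun r hr i hi j hj z hz => by
    rw [← mul_assoc]; exact mul_le_mul_of_nonneg_right (hT r hr i hi j hj) hz
  refine ⟨fun F hF i hi j hj hiF hjF hij r hr => hS.dp F i j ⟨hF, hi, hj, hiF, hjF, hij⟩ r (m r hr),
    fun F hF i hi j hj hiF hjF hij r hr => hS.dm F i j ⟨hF, hi, hj, hiF, hjF, hij⟩ r (m r hr),
    fun F i j r hr => hS.gp0 F i j r (m r hr), fun F i j r hr => hS.gm0 F i j r (m r hr),
    fun F G hG hF i hi j hj hiF hjF hij r hr =>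
      hS.mp F G hG i j ⟨hF, hi, hj, hiF, hjF, hij⟩ r (m r hr),
    fun F G hG hF i hi j hj hiF hjF hij r hr =>
      hS.mm F G hG i j ⟨hF, hi, hj, hiF, hjF, hij⟩ r (m r hr),
    fun F hF i hi j hj hiF hjF hij r hr => ?_, fun F hF i hi j hj hiF hjF hij r hr => ?_⟩
  · have p1 := fun F a b => hS.gp0 F a b r (m r hr)
    have p2 := fun F a b => hS.gm0 F a b r (m r hr)
    refine le_trans ?_ (hS.op F i j ⟨hF, hi, hj, hiF, hjF, hij⟩ r (m r hr))
    unfold opF
    refine add_le_add (add_le_add (add_le_add (hA r hr i hi j hj) ?_) ?_) ?_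
    · exact Finset.sum_le_sum fun b hb => k1 r hr i hi b (hF hb) _ (e1 (p2 _ j b))
    · exact Finset.sum_le_sum fun b hb => k1 r hr j hj b (hF hb) _ (e1 (p2 _ i b))
    · refine mul_le_mul_of_nonneg_left ?_ (by norm_num)
      refine Finset.sum_le_sum fun x hx => Finset.sum_le_sum fun y hy => ?_
      exact k1 r hr x (hF hx) y (hF hy) _
        (le_max_of_le_left (mul_nonneg (e1 (add_nonneg (p1 _ _ _) (p1 _ _ _)))
          (e1 (add_nonneg (p1 _ _ _) (p1 _ _ _)))))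
  · have p1 := fun F a b => hS.gp0 F a b r (m r hr)
    have p2 := fun F a b => hS.gm0 F a b r (m r hr)
    refine le_trans ?_ (hS.om F i j ⟨hF, hi, hj, hiF, hjF, hij⟩ r (m r hr))
    unfold omF
    refine add_le_add (add_le_add (add_le_add (hB r hr i hi j hj) ?_) ?_) ?_
    · exact Finset.sum_le_sum fun b hb => k1 r hr i hi b (hF hb) _ (e1 (p1 _ j b))
    · exact Finset.sum_le_sum fun b hb => k1 r hr j hj b (hF hb) _ (e1 (p1 _ i b))
    · refine mul_le_mul_of_nonneg_left ?_ (by norm_num)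
      refine Finset.sum_le_sum fun x hx => Finset.sum_le_sum fun y hy => ?_
      exact k1 r hr x (hF hx) y (hF hy) _
        (le_max_of_le_left (mul_nonneg (e1 (add_nonneg (p1 _ _ _) (p1 _ _ _)))
          (e1 (add_nonneg (p2 _ _ _) (p2 _ _ _)))))

section stat

variable {U : Finset V} {T A B : V → V → ℝ} {gp gm gp' gm' : Finset V → V → V → ℝ}

theorem opF_comm (hA : ∀ i j, A i j = A j i) (F : Finset V) (i j : V) :
    opF T A gp gm F i j = opF T A gp gm F j i := by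
  unfold opF
  rw [hA i j]
  have : ∀ a b c d : ℝ, max (a * b) (c * d) = max (b * a) (d * c) := fun a b c d => by
    rw [mul_comm a, mul_comm c]
  simp only [this (1 - Real.exp (-(gp _ j _ + gp _ j _)))]
  ring

theorem omF_comm (hB : ∀ i j, B i j = B j i) (F : Finset V) (i j : V) :
    omF T B gp gm F i j = omF T B gp gm F j i := by
  unfold omF
  rw [hB i j]
  have : ∀ a b c d : ℝ, max (a * b) (c * d) = max (d * c) (b * a) := fun a b c d => by
    rw [max_comm, mul_comm a, mul_comm c]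
  simp only [this (1 - Real.exp (-(gp _ j _ + gp _ j _)))]
  ring

theorem opF_mono (T0 : ∀ i j, 0 ≤ T i j) (p0 : ∀ F i j, 0 ≤ gp F i j)
    (m0 : ∀ F i j, 0 ≤ gm F i j)
    (hp : ∀ F i j, gp F i j ≤ gp' F i j) (hm : ∀ F i j, gm F i j ≤ gm' F i j) (F : Finset V)
    (i j : V) : opF T A gp gm F i j ≤ opF T A gp' gm' F i j := by
  unfold opF
  refine add_le_add (add_le_add (add_le_add le_rfl ?_) ?_) ?_
  · exact Finset.sum_le_sum fun b _ => mul_le_mul_of_nonneg_left (e1m (hm _ _ _)) (T0 _ _)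
  · exact Finset.sum_le_sum fun b _ => mul_le_mul_of_nonneg_left (e1m (hm _ _ _)) (T0 _ _)
  · refine mul_le_mul_of_nonneg_left (Finset.sum_le_sum fun x _ => Finset.sum_le_sum fun y _ =>
      mul_le_mul_of_nonneg_left (max_le_max ?_ ?_) (T0 _ _)) (by norm_num)
    · exact mul_le_mul (e1m (add_le_add (hp _ _ _) (hp _ _ _)))
        (e1m (add_le_add (hp _ _ _) (hp _ _ _))) (e1 (add_nonneg (p0 _ _ _) (p0 _ _ _)))
        (e1 (add_nonneg ((p0 _ _ _).trans (hp _ _ _)) ((p0 _ _ _).trans (hp _ _ _))))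
    · exact mul_le_mul (e1m (add_le_add (hm _ _ _) (hm _ _ _)))
        (e1m (add_le_add (hm _ _ _) (hm _ _ _))) (e1 (add_nonneg (m0 _ _ _) (m0 _ _ _)))
        (e1 (add_nonneg ((m0 _ _ _).trans (hm _ _ _)) ((m0 _ _ _).trans (hm _ _ _))))

theorem omF_mono (T0 : ∀ i j, 0 ≤ T i j) (p0 : ∀ F i j, 0 ≤ gp F i j)
    (m0 : ∀ F i j, 0 ≤ gm F i j)
    (hp : ∀ F i j, gp F i j ≤ gp' F i j) (hm : ∀ F i j, gm F i j ≤ gm' F i j) (F : Finset V)
    (i j : V) : omF T B gp gm F i j ≤ omF T B gp' gm' F i j := by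
  unfold omF
  refine add_le_add (add_le_add (add_le_add le_rfl ?_) ?_) ?_
  · exact Finset.sum_le_sum fun b _ => mul_le_mul_of_nonneg_left (e1m (hp _ _ _)) (T0 _ _)
  · exact Finset.sum_le_sum fun b _ => mul_le_mul_of_nonneg_left (e1m (hp _ _ _)) (T0 _ _)
  · refine mul_le_mul_of_nonneg_left (Finset.sum_le_sum fun x _ => Finset.sum_le_sum fun y _ =>
      mul_le_mul_of_nonneg_left (max_le_max ?_ ?_) (T0 _ _)) (by norm_num)
    · exact mul_le_mul (e1m (add_le_add (hp _ _ _) (hp _ _ _)))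
        (e1m (add_le_add (hm _ _ _) (hm _ _ _))) (e1 (add_nonneg (m0 _ _ _) (m0 _ _ _)))
        (e1 (add_nonneg ((p0 _ _ _).trans (hp _ _ _)) ((p0 _ _ _).trans (hp _ _ _))))
    · exact mul_le_mul (e1m (add_le_add (hm _ _ _) (hm _ _ _)))
        (e1m (add_le_add (hp _ _ _) (hp _ _ _))) (e1 (add_nonneg (p0 _ _ _) (p0 _ _ _)))
        (e1 (add_nonneg ((m0 _ _ _).trans (hm _ _ _)) ((m0 _ _ _).trans (hm _ _ _))))

/-- monotone in the set -/
theorem opF_set (T0 : ∀ i j, 0 ≤ T i j) (p0 : ∀ F i j, 0 ≤ gp F i j)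
    (m0 : ∀ F i j, 0 ≤ gm F i j)
    (hp : ∀ F G i j, G ⊆ F → VP U F i j → gp G i j ≤ gp F i j)
    (hm : ∀ F G i j, G ⊆ F → VP U F i j → gm G i j ≤ gm F i j)
    {F G : Finset V} (hG : G ⊆ F) {i j : V} (hv : VP U F i j) :
    opF T A gp gm G i j ≤ opF T A gp gm F i j := by
  have s1 : ∀ b, G.erase b ⊆ F.erase b := fun b => Finset.erase_subset_erase _ hG
  have s2 : ∀ x y, (G.erase x).erase y ⊆ (F.erase x).erase y := fun x y =>
    Finset.erase_subset_erase _ (s1 x)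
  have v1 : ∀ {i b}, VP U F i j ∨ VP U F j i → b ∈ F → VP U F i j := fun h _ =>
    h.elim id VP.symm
  have w1 : ∀ b ∈ F, VP U (F.erase b) i b := fun b hb => hv.er hb
  have w1' : ∀ b ∈ F, VP U (F.erase b) j b := fun b hb => hv.symm.er hb
  have w2 : ∀ x, ∀ y ∈ F, VP U ((F.erase x).erase y) i y := fun x y hy =>
    (hv.er hy).mono (Finset.erase_subset_erase _ (Finset.erase_subset _ _))
  have w2' : ∀ x, ∀ y ∈ F, VP U ((F.erase x).erase y) j y := fun x y hy =>
    (hv.symm.er hy).mono (Finset.erase_subset_erase _ (Finset.erase_subset _ _))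
  unfold opF
  refine add_le_add (add_le_add (add_le_add le_rfl ?_) ?_) ?_
  · refine (Finset.sum_le_sum fun b hb => mul_le_mul_of_nonneg_left
      (e1m (hm _ _ _ _ (s1 b) (w1' b (hG hb)))) (T0 _ _)).trans
      (Finset.sum_le_sum_of_subset_of_nonneg hG fun b _ _ => mul_nonneg (T0 _ _) (e1 (m0 _ _ _)))
  · refine (Finset.sum_le_sum fun b hb => mul_le_mul_of_nonneg_left
      (e1m (hm _ _ _ _ (s1 b) (w1 b (hG hb)))) (T0 _ _)).trans
      (Finset.sum_le_sum_of_subset_of_nonneg hG fun b _ _ => mul_nonneg (T0 _ _) (e1 (m0 _ _ _)))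
  · refine mul_le_mul_of_nonneg_left ?_ (by norm_num)
    have nn : ∀ x y, 0 ≤ T x y *
      (max ((1 - Real.exp (-(gp (F.erase x) j x + gp ((F.erase x).erase y) j y)))
          * (1 - Real.exp (-(gp (F.erase x) i x + gp ((F.erase x).erase y) i y))))
        ((1 - Real.exp (-(gm (F.erase x) j x + gm ((F.erase x).erase y) j y)))
          * (1 - Real.exp (-(gm (F.erase x) i x + gm ((F.erase x).erase y) i y))))) := fun x y =>
      mul_nonneg (T0 _ _) (le_max_of_le_left (mul_nonneg (e1 (add_nonneg (p0 _ _ _) (p0 _ _ _)))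
        (e1 (add_nonneg (p0 _ _ _) (p0 _ _ _)))))
    refine le_trans ?_ (Finset.sum_le_sum_of_subset_of_nonneg hG fun x _ _ =>
      Finset.sum_nonneg fun y _ => nn x y)
    refine Finset.sum_le_sum fun x hx => ?_
    refine le_trans ?_ (Finset.sum_le_sum_of_subset_of_nonneg hG fun y _ _ => nn x y)
    refine Finset.sum_le_sum fun y hy => mul_le_mul_of_nonneg_left (max_le_max ?_ ?_) (T0 _ _)
    · exact mul_le_mul
        (e1m (add_le_add (hp _ _ _ _ (s1 x) (w1' x (hG hx))) (hp _ _ _ _ (s2 x y) (w2' x y (hG hy)))))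
        (e1m (add_le_add (hp _ _ _ _ (s1 x) (w1 x (hG hx))) (hp _ _ _ _ (s2 x y) (w2 x y (hG hy)))))
        (e1 (add_nonneg (p0 _ _ _) (p0 _ _ _))) (e1 (add_nonneg (p0 _ _ _) (p0 _ _ _)))
    · exact mul_le_mul
        (e1m (add_le_add (hm _ _ _ _ (s1 x) (w1' x (hG hx))) (hm _ _ _ _ (s2 x y) (w2' x y (hG hy)))))
        (e1m (add_le_add (hm _ _ _ _ (s1 x) (w1 x (hG hx))) (hm _ _ _ _ (s2 x y) (w2 x y (hG hy)))))
        (e1 (add_nonneg (m0 _ _ _) (m0 _ _ _))) (e1 (add_nonneg (m0 _ _ _) (m0 _ _ _)))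

theorem omF_set (T0 : ∀ i j, 0 ≤ T i j) (p0 : ∀ F i j, 0 ≤ gp F i j)
    (m0 : ∀ F i j, 0 ≤ gm F i j)
    (hp : ∀ F G i j, G ⊆ F → VP U F i j → gp G i j ≤ gp F i j)
    (hm : ∀ F G i j, G ⊆ F → VP U F i j → gm G i j ≤ gm F i j)
    {F G : Finset V} (hG : G ⊆ F) {i j : V} (hv : VP U F i j) :
    omF T B gp gm G i j ≤ omF T B gp gm F i j := by
  have s1 : ∀ b, G.erase b ⊆ F.erase b := fun b => Finset.erase_subset_erase _ hG
  have s2 : ∀ x y, (G.erase x).erase y ⊆ (F.erase x).erase y := fun x y =>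
    Finset.erase_subset_erase _ (s1 x)
  have w1 : ∀ b ∈ F, VP U (F.erase b) i b := fun b hb => hv.er hb
  have w1' : ∀ b ∈ F, VP U (F.erase b) j b := fun b hb => hv.symm.er hb
  have w2 : ∀ x, ∀ y ∈ F, VP U ((F.erase x).erase y) i y := fun x y hy =>
    (hv.er hy).mono (Finset.erase_subset_erase _ (Finset.erase_subset _ _))
  have w2' : ∀ x, ∀ y ∈ F, VP U ((F.erase x).erase y) j y := fun x y hy =>
    (hv.symm.er hy).mono (Finset.erase_subset_erase _ (Finset.erase_subset _ _))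
  unfold omF
  refine add_le_add (add_le_add (add_le_add le_rfl ?_) ?_) ?_
  · refine (Finset.sum_le_sum fun b hb => mul_le_mul_of_nonneg_left
      (e1m (hp _ _ _ _ (s1 b) (w1' b (hG hb)))) (T0 _ _)).trans
      (Finset.sum_le_sum_of_subset_of_nonneg hG fun b _ _ => mul_nonneg (T0 _ _) (e1 (p0 _ _ _)))
  · refine (Finset.sum_le_sum fun b hb => mul_le_mul_of_nonneg_left
      (e1m (hp _ _ _ _ (s1 b) (w1 b (hG hb)))) (T0 _ _)).trans
      (Finset.sum_le_sum_of_subset_of_nonneg hG fun b _ _ => mul_nonneg (T0 _ _) (e1 (p0 _ _ _)))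
  · refine mul_le_mul_of_nonneg_left ?_ (by norm_num)
    have nn : ∀ x y, 0 ≤ T x y *
      (max ((1 - Real.exp (-(gp (F.erase x) j x + gp ((F.erase x).erase y) j y)))
          * (1 - Real.exp (-(gm (F.erase x) i x + gm ((F.erase x).erase y) i y))))
        ((1 - Real.exp (-(gm (F.erase x) j x + gm ((F.erase x).erase y) j y)))
          * (1 - Real.exp (-(gp (F.erase x) i x + gp ((F.erase x).erase y) i y))))) := fun x y =>
      mul_nonneg (T0 _ _) (le_max_of_le_left (mul_nonneg (e1 (add_nonneg (p0 _ _ _) (p0 _ _ _)))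
        (e1 (add_nonneg (m0 _ _ _) (m0 _ _ _)))))
    refine le_trans ?_ (Finset.sum_le_sum_of_subset_of_nonneg hG fun x _ _ =>
      Finset.sum_nonneg fun y _ => nn x y)
    refine Finset.sum_le_sum fun x hx => ?_
    refine le_trans ?_ (Finset.sum_le_sum_of_subset_of_nonneg hG fun y _ _ => nn x y)
    refine Finset.sum_le_sum fun y hy => mul_le_mul_of_nonneg_left (max_le_max ?_ ?_) (T0 _ _)
    · exact mul_le_mul
        (e1m (add_le_add (hp _ _ _ _ (s1 x) (w1' x (hG hx))) (hp _ _ _ _ (s2 x y) (w2' x y (hG hy)))))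
        (e1m (add_le_add (hm _ _ _ _ (s1 x) (w1 x (hG hx))) (hm _ _ _ _ (s2 x y) (w2 x y (hG hy)))))
        (e1 (add_nonneg (m0 _ _ _) (m0 _ _ _))) (e1 (add_nonneg (p0 _ _ _) (p0 _ _ _)))
    · exact mul_le_mul
        (e1m (add_le_add (hm _ _ _ _ (s1 x) (w1' x (hG hx))) (hm _ _ _ _ (s2 x y) (w2' x y (hG hy)))))
        (e1m (add_le_add (hp _ _ _ _ (s1 x) (w1 x (hG hx))) (hp _ _ _ _ (s2 x y) (w2 x y (hG hy)))))
        (e1 (add_nonneg (p0 _ _ _) (p0 _ _ _))) (e1 (add_nonneg (m0 _ _ _) (m0 _ _ _)))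

theorem opF_nonneg (T0 : ∀ i j, 0 ≤ T i j) (A0 : ∀ i j, 0 ≤ A i j) (p0 : ∀ F i j, 0 ≤ gp F i j)
    (m0 : ∀ F i j, 0 ≤ gm F i j) (F : Finset V) (i j : V) : 0 ≤ opF T A gp gm F i j := by
  unfold opF
  refine add_nonneg (add_nonneg (add_nonneg (A0 _ _) ?_) ?_) ?_
  · exact Finset.sum_nonneg fun b _ => mul_nonneg (T0 _ _) (e1 (m0 _ _ _))
  · exact Finset.sum_nonneg fun b _ => mul_nonneg (T0 _ _) (e1 (m0 _ _ _))
  · exact mul_nonneg (by norm_num) (Finset.sum_nonneg fun x _ => Finset.sum_nonneg fun y _ =>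
      mul_nonneg (T0 _ _) (le_max_of_le_left (mul_nonneg (e1 (add_nonneg (p0 _ _ _) (p0 _ _ _)))
        (e1 (add_nonneg (p0 _ _ _) (p0 _ _ _))))))

theorem omF_nonneg (T0 : ∀ i j, 0 ≤ T i j) (B0 : ∀ i j, 0 ≤ B i j) (p0 : ∀ F i j, 0 ≤ gp F i j)
    (m0 : ∀ F i j, 0 ≤ gm F i j) (F : Finset V) (i j : V) : 0 ≤ omF T B gp gm F i j := by
  unfold omF
  refine add_nonneg (add_nonneg (add_nonneg (B0 _ _) ?_) ?_) ?_
  · exact Finset.sum_nonneg fun b _ => mul_nonneg (T0 _ _) (e1 (p0 _ _ _))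
  · exact Finset.sum_nonneg fun b _ => mul_nonneg (T0 _ _) (e1 (p0 _ _ _))
  · exact mul_nonneg (by norm_num) (Finset.sum_nonneg fun x _ => Finset.sum_nonneg fun y _ =>
      mul_nonneg (T0 _ _) (le_max_of_le_left (mul_nonneg (e1 (add_nonneg (p0 _ _ _) (p0 _ _ _)))
        (e1 (add_nonneg (m0 _ _ _) (m0 _ _ _))))))

end stat

/-! ### The system -/

open Classical in
/-- the system -/
noncomputable def fR (U : Finset V) (T A B : ℝ → V → V → ℝ) (r : ℝ)
    (u : Bool × Finset V × V × V → ℝ) : Bool × Finset V × V × V → ℝ := fun q =>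
  if VP U q.2.1 q.2.2.1 q.2.2.2 then
    (if q.1 = true then
      opF (T r) (A r) (fun F i j => u (true, F, i, j)) (fun F i j => u (false, F, i, j))
        q.2.1 q.2.2.1 q.2.2.2
    else omF (T r) (B r) (fun F i j => u (true, F, i, j)) (fun F i j => u (false, F, i, j))
        q.2.1 q.2.2.1 q.2.2.2)
  else 0

/-- symmetric and zero outside the pairs -/
def FSym (U : Finset V) (u : Bool × Finset V × V × V → ℝ) : Prop :=
  (∀ s F i j, u (s, F, i, j) = u (s, F, j, i)) ∧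
    ∀ s F i j, ¬VP U F i j → u (s, F, i, j) = 0

/-- monotone in the set -/
def FMon (U : Finset V) (u : Bool × Finset V × V × V → ℝ) : Prop :=
  ∀ s F G i j, G ⊆ F → VP U F i j → u (s, G, i, j) ≤ u (s, F, i, j)

variable {U : Finset V} {T A B : ℝ → V → V → ℝ} {τ : ℝ}

theorem fR_t {r : ℝ} {u : Bool × Finset V × V × V → ℝ} {F : Finset V} {i j : V}
    (h : VP U F i j) : fR U T A B r u (true, F, i, j)
      = opF (T r) (A r) (fun F i j => u (true, F, i, j)) (fun F i j => u (false, F, i, j))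
        F i j := by
  unfold fR
  rw [if_pos h, if_pos rfl]

theorem fR_f {r : ℝ} {u : Bool × Finset V × V × V → ℝ} {F : Finset V} {i j : V}
    (h : VP U F i j) : fR U T A B r u (false, F, i, j)
      = omF (T r) (B r) (fun F i j => u (true, F, i, j)) (fun F i j => u (false, F, i, j))
        F i j := by
  unfold fR
  rw [if_pos h, if_neg (by simp)]

theorem fR_z {r : ℝ} {u : Bool × Finset V × V × V → ℝ} {s : Bool} {F : Finset V} {i j : V}
    (h : ¬VP U F i j) : fR U T A B r u (s, F, i, j) = 0 := by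
  unfold fR
  rw [if_neg h]

theorem fR_cont (hD : GDat U τ T A B) (q : Bool × Finset V × V × V) :
    ContinuousOn (fun p : ℝ × (Bool × Finset V × V × V → ℝ) => fR U T A B p.1 p.2 q)
      (Icc 0 τ ×ˢ univ) := by
  have k1 : ∀ F : ℝ → V → V → ℝ, (∀ i j, ContinuousOn (fun r => F r i j) (Icc 0 τ)) → ∀ i j,
      ContinuousOn (fun p : ℝ × (Bool × Finset V × V × V → ℝ) => F p.1 i j) (Icc 0 τ ×ˢ univ) :=
    fun F hF i j => (hF i j).comp continuousOn_fst fun p hp => hp.1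
  have cT := k1 T hD.cT
  have cA := k1 A hD.cA
  have cB := k1 B hD.cB
  have cu : ∀ q, ContinuousOn (fun p : ℝ × (Bool × Finset V × V × V → ℝ) => p.2 q)
      (Icc 0 τ ×ˢ univ) :=
    fun q => ((continuous_apply q).comp continuous_snd).continuousOn
  have cE : ∀ f : ℝ × (Bool × Finset V × V × V → ℝ) → ℝ, ContinuousOn f (Icc 0 τ ×ˢ univ) →
      ContinuousOn (fun p => 1 - Real.exp (-f p)) (Icc 0 τ ×ˢ univ) := fun f hf =>
    continuousOn_const.sub (Real.continuous_exp.comp_continuousOn hf.neg)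
  have cmax : ∀ f g : ℝ × (Bool × Finset V × V × V → ℝ) → ℝ,
      ContinuousOn f (Icc 0 τ ×ˢ univ) → ContinuousOn g (Icc 0 τ ×ˢ univ) →
      ContinuousOn (fun p => max (f p) (g p)) (Icc 0 τ ×ˢ univ) := fun f g hf hg =>
    (continuous_fst.max continuous_snd).comp_continuousOn (hf.prodMk hg)
  unfold fR
  by_cases hq : VP U q.2.1 q.2.2.1 q.2.2.2
  · simp only [hq, if_true]
    by_cases hb : q.1 = true
    · simp only [hb, if_true, opF]
      refine (((cA _ _).add ?_).add ?_).add ?_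
      · exact continuousOn_finsetSum _ fun b _ => (cT _ _).mul (cE _ (cu _))
      · exact continuousOn_finsetSum _ fun b _ => (cT _ _).mul (cE _ (cu _))
      · refine continuousOn_const.mul (continuousOn_finsetSum _ fun x _ =>
          continuousOn_finsetSum _ fun y _ => (cT _ _).mul (cmax _ _ ?_ ?_))
        · exact (cE _ ((cu _).add (cu _))).mul (cE _ ((cu _).add (cu _)))
        · exact (cE _ ((cu _).add (cu _))).mul (cE _ ((cu _).add (cu _)))
    · simp only [hb, omF]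
      refine (((cB _ _).add ?_).add ?_).add ?_
      · exact continuousOn_finsetSum _ fun b _ => (cT _ _).mul (cE _ (cu _))
      · exact continuousOn_finsetSum _ fun b _ => (cT _ _).mul (cE _ (cu _))
      · refine continuousOn_const.mul (continuousOn_finsetSum _ fun x _ =>
          continuousOn_finsetSum _ fun y _ => (cT _ _).mul (cmax _ _ ?_ ?_))
        · exact (cE _ ((cu _).add (cu _))).mul (cE _ ((cu _).add (cu _)))
        · exact (cE _ ((cu _).add (cu _))).mul (cE _ ((cu _).add (cu _)))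
  · simp only [hq, if_false]
    exact continuousOn_const

theorem fR_mono (hD : GDat U τ T A B) : ∀ r ∈ Icc 0 τ, ∀ u v : Bool × Finset V × V × V → ℝ,
    (∀ i, 0 ≤ u i) → (∀ i, u i ≤ v i) → ∀ i, fR U T A B r u i ≤ fR U T A B r v i := by
  intro r hr u v u0 uv q
  unfold fR
  split_ifs
  · exact opF_mono (hD.T0 r hr) (fun _ _ _ => u0 _) (fun _ _ _ => u0 _) (fun _ _ _ => uv _)
      (fun _ _ _ => uv _) _ _ _
  · exact omF_mono (hD.T0 r hr) (fun _ _ _ => u0 _) (fun _ _ _ => u0 _) (fun _ _ _ => uv _)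
      (fun _ _ _ => uv _) _ _ _
  · exact le_rfl

theorem fR_nonneg (hD : GDat U τ T A B) : ∀ r ∈ Icc 0 τ, ∀ u : Bool × Finset V × V × V → ℝ,
    (∀ i, 0 ≤ u i) → ∀ i, 0 ≤ fR U T A B r u i := by
  intro r hr u u0 q
  unfold fR
  split_ifs
  · exact opF_nonneg (hD.T0 r hr) (hD.A0 r hr) (fun _ _ _ => u0 _) (fun _ _ _ => u0 _) _ _ _
  · exact omF_nonneg (hD.T0 r hr) (hD.B0 r hr) (fun _ _ _ => u0 _) (fun _ _ _ => u0 _) _ _ _
  · exact le_rfl

theorem fR_symm (hD : GDat U τ T A B) {r : ℝ} (hr : r ∈ Icc 0 τ)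
    (u : Bool × Finset V × V × V → ℝ) (s : Bool) (F : Finset V) (i j : V) :
    fR U T A B r u (s, F, i, j) = fR U T A B r u (s, F, j, i) := by
  by_cases h : VP U F i j
  · cases s
    · rw [fR_f h, fR_f h.symm]
      exact omF_comm (hD.Bs r hr) F i j
    · rw [fR_t h, fR_t h.symm]
      exact opF_comm (hD.As r hr) F i j
  · rw [fR_z h, fR_z fun h' => h h'.symm]

theorem inv_fsym (hD : GDat U τ T A B) : Inv τ (fR U T A B) (fun _ u => FSym U u) := by
  refine ⟨fun r _ => ?_, fun r _ => ⟨fun _ _ _ _ => rfl, fun _ _ _ _ _ => rfl⟩,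
    fun u w hp _ r hr => ⟨fun s F i j => ?_, fun s F i j h => ?_⟩⟩
  · have : {u : Bool × Finset V × V × V → ℝ | FSym U u}
        = (⋂ s, ⋂ F, ⋂ i, ⋂ j, {u | u (s, F, i, j) = u (s, F, j, i)}) ∩
          ⋂ s, ⋂ F, ⋂ i, ⋂ j, ⋂ (_ : ¬VP U F i j), {u | u (s, F, i, j) = 0} := by
      ext u
      simp only [FSym, mem_ofPred_eq, mem_inter_iff, mem_iInter]
    rw [this]
    refine IsClosed.inter ?_ ?_
    · exact isClosed_iInter fun s => isClosed_iInter fun F => isClosed_iInter fun i =>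
        isClosed_iInter fun j => isClosed_eq (continuous_apply _) (continuous_apply _)
    · exact isClosed_iInter fun s => isClosed_iInter fun F => isClosed_iInter fun i =>
        isClosed_iInter fun j =>
        isClosed_iInter fun _ => isClosed_eq (continuous_apply _) continuous_const
  · refine back_eq (f := w (s, F, i, j)) (g := w (s, F, j, i))
      (f' := fun z => -fR U T A B z (fun q => u q z) (s, F, i, j))
      (fun z hz => hp.2.2.1 _ z hz) (fun z hz => ?_) (by rw [hp.2.2.2, hp.2.2.2]) r hr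
    rw [fR_symm hD hz]
    exact hp.2.2.1 _ z hz
  · refine back_eq (f := w (s, F, i, j)) (g := fun _ => 0) (f' := fun _ => 0)
      (fun z hz => ?_) (fun z _ => hasDerivAt_const z 0) (hp.2.2.2 _) r hr
    have := hp.2.2.1 (s, F, i, j) z hz
    rwa [fR_z h, neg_zero] at this

theorem fR_set (hD : GDat U τ T A B) {r : ℝ} (hr : r ∈ Icc 0 τ)
    {u : Bool × Finset V × V × V → ℝ} (u0 : ∀ q, 0 ≤ u q) (um : FMon U u) (s : Bool)
    {F G : Finset V} (hG : G ⊆ F) {i j : V} (hv : VP U F i j) :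
    fR U T A B r u (s, G, i, j) ≤ fR U T A B r u (s, F, i, j) := by
  cases s
  · rw [fR_f hv, fR_f (hv.mono hG)]
    exact omF_set (U := U) (hD.T0 r hr) (fun _ _ _ => u0 _) (fun _ _ _ => u0 _)
      (fun F G i j hG hv => um true F G i j hG hv) (fun F G i j hG hv => um false F G i j hG hv)
      hG hv
  · rw [fR_t hv, fR_t (hv.mono hG)]
    exact opF_set (U := U) (hD.T0 r hr) (fun _ _ _ => u0 _) (fun _ _ _ => u0 _)
      (fun F G i j hG hv => um true F G i j hG hv) (fun F G i j hG hv => um false F G i j hG hv)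
      hG hv

theorem inv_fmon (hD : GDat U τ T A B) :
    Inv τ (fR U T A B) (fun _ u => FSym U u ∧ FMon U u) := by
  refine (inv_fsym hD).and (fun r _ => ?_) (fun r _ _ _ _ _ _ _ _ => le_rfl)
    fun u w hp _ hc r hr s F G i j hG hv => ?_
  · have : {u : Bool × Finset V × V × V → ℝ | FMon U u}
        = ⋂ s, ⋂ F, ⋂ G, ⋂ i, ⋂ j, ⋂ (_ : G ⊆ F), ⋂ (_ : VP U F i j),
          {u | u (s, G, i, j) ≤ u (s, F, i, j)} := by
      ext u
      simp only [FMon, mem_ofPred_eq, mem_iInter]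
    rw [this]
    exact isClosed_iInter fun s => isClosed_iInter fun F => isClosed_iInter fun G =>
      isClosed_iInter fun i => isClosed_iInter fun j => isClosed_iInter fun _ =>
      isClosed_iInter fun _ => isClosed_le (continuous_apply _) (continuous_apply _)
  · refine back_le (f := w (s, G, i, j)) (g := w (s, F, i, j))
      (f' := fun z => -fR U T A B z (fun q => u q z) (s, G, i, j))
      (g' := fun z => -fR U T A B z (fun q => u q z) (s, F, i, j))
      (fun z hz => hp.2.2.1 _ z hz) (fun z hz => hp.2.2.1 _ z hz) (fun z hz => ?_)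
      (by rw [hp.2.2.2, hp.2.2.2]) r hr
    exact neg_le_neg (fR_set hD hz (fun q => hp.2.1 q z hz) (hc z hz) s hG hv)

/-- the exact solution -/
theorem exists_g12F (hτ : 0 ≤ τ) (hD : GDat U τ T A B)
    {C0 : ℝ → (Bool × Finset V × V × V → ℝ) → Prop}
    (h0 : Inv τ (fR U T A B) C0) {M : ℝ}
    (hM : ∀ r ∈ Icc 0 τ, ∀ u, C0 r u → ∀ i, u i ≤ M) :
    ∃ gp gp' gm gm' : Finset V → V → V → ℝ → ℝ, S12F U τ T A B gp gp' gm gm' ∧
      (∀ F i j, gp F i j τ = 0) ∧ (∀ F i j, gm F i j τ = 0) ∧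
      (∀ F i j, ∀ r ∈ Icc 0 τ, gp F i j r = gp F j i r) ∧
      (∀ F i j, ∀ r ∈ Icc 0 τ, gm F i j r = gm F j i r) ∧
      ∀ C : ℝ → (Bool × Finset V × V × V → ℝ) → Prop, Inv τ (fR U T A B) C →
        ∀ r ∈ Icc 0 τ, C r fun q => if q.1 = true then gp q.2.1 q.2.2.1 q.2.2.2 r
          else gm q.2.1 q.2.2.1 q.2.2.2 r := by
  obtain ⟨g, g1, g2, g3, g4⟩ := exists_pic hτ (fR_cont hD) (fR_mono hD)
    (fun r hr => fR_nonneg hD r hr 0 fun _ => le_rfl) h0 hM
  have gm := fun r hr => g4 _ (inv_fmon hD) r hr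
  refine ⟨fun F i j => g (true, F, i, j),
    fun F i j r => -fR U T A B r (fun q => g q r) (true, F, i, j),
    fun F i j => g (false, F, i, j),
    fun F i j r => -fR U T A B r (fun q => g q r) (false, F, i, j), ?_, fun F i j => g2 _,
    fun F i j => g2 _, fun F i j r hr => (gm r hr).1.1 true F i j,
    fun F i j r hr => (gm r hr).1.1 false F i j, fun C hC r hr => ?_⟩
  · refine ⟨fun F i j _ r hr => g1 _ r hr, fun F i j _ r hr => g1 _ r hr,
      fun F i j r hr => g3 _ r hr, fun F i j r hr => g3 _ r hr,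
      fun F G hG i j hv r hr => (gm r hr).2 true F G i j hG hv,
      fun F G hG i j hv r hr => (gm r hr).2 false F G i j hG hv,
      fun F i j hv r hr => ?_, fun F i j hv r hr => ?_⟩
    · rw [neg_neg, fR_t hv]
    · rw [neg_neg, fR_f hv]
  · have e : (fun q : Bool × Finset V × V × V => if q.1 = true
        then g (true, q.2.1, q.2.2.1, q.2.2.2) r
        else g (false, q.2.1, q.2.2.1, q.2.2.2) r) = fun q => g q r := by
      funext q
      obtain ⟨s, F, i, j⟩ := q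
      cases s <;> simp
    rw [e]
    exact g4 C hC r hr

end Pool.Agent.RZ.RCO
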