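import Pool.Agent.RZ.RCO.Hf3

/-! Level 1 for all targets jointly, functions indexed by the world: the rates and their sums at
one time (MP_73ccd0_lc). -/

namespace Pool.Agent.RZ.RCO

open Set Finset Pool.Agent.RZ.RCM

set_option linter.unusedSectionVars false

variable {V : Type*} [Fintype V] [DecidableEq V]

/-- the sum of the two values of a pair removed in the order `x`, `y` (at one time) -/
def pq (f : Finset V → V → ℝ) (F : Finset V) (x y : V) : ℝ :=
  f (F.erase x) x + f ((F.erase x).erase y) y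

/-- rate of the upper function of one target without the killing -/
noncomputable def RpF (T : V → V → ℝ) (gp gm : Finset V → V → V → ℝ) (p n : Finset V → V → ℝ)
    (F : Finset V) (e : V) : ℝ :=
  ∑ b ∈ F, T e b * (1 - Real.exp (-n (F.erase b) b))
    + (1 / 2) * ∑ x ∈ F, ∑ y ∈ F, T x y *
      (max ((1 - Real.exp (-pq n F x y)) * (1 - Real.exp (-pq (fun G z => gm G e z) F x y)))
        ((Real.exp (pq p F x y) - 1) * (1 - Real.exp (-pq (fun G z => gp G e z) F x y))))

/-- rate of the lower function of one target -/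
noncomputable def RnF (T : V → V → ℝ) (gp gm : Finset V → V → V → ℝ) (p n : Finset V → V → ℝ)
    (F : Finset V) (e : V) : ℝ :=
  ∑ b ∈ F, T e b * (Real.exp (p (F.erase b) b) - 1)
    + (1 / 2) * ∑ x ∈ F, ∑ y ∈ F, T x y *
      (max ((1 - Real.exp (-pq n F x y)) * (1 - Real.exp (-pq (fun G z => gp G e z) F x y)))
        ((Real.exp (pq p F x y) - 1) * (1 - Real.exp (-pq (fun G z => gm G e z) F x y))))

theorem e2' {z : ℝ} (hz : 0 ≤ z) : 0 ≤ Real.exp z - 1 := by
  have := Real.one_le_exp hz; linarith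

theorem e2m' {z w : ℝ} (h : z ≤ w) : Real.exp z - 1 ≤ Real.exp w - 1 := by
  have := Real.exp_le_exp.2 h; linarith

section signs

variable {U : Finset V} {T : V → V → ℝ} {gp gm gp' gm' : Finset V → V → V → ℝ}
  {p n p' n' : Finset V → V → ℝ}

theorem pq_nonneg {f : Finset V → V → ℝ} (f0 : ∀ F e, 0 ≤ f F e) (F : Finset V) (x y : V) :
    0 ≤ pq f F x y := add_nonneg (f0 _ _) (f0 _ _)

theorem pq_mono {f g : Finset V → V → ℝ} (h : ∀ F e, f F e ≤ g F e) (F : Finset V) (x y : V) :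
    pq f F x y ≤ pq g F x y := add_le_add (h _ _) (h _ _)

theorem RpF_nonneg (T0 : ∀ i j, 0 ≤ T i j) (gp0 : ∀ F i j, 0 ≤ gp F i j)
    (gm0 : ∀ F i j, 0 ≤ gm F i j) (n0 : ∀ F e, 0 ≤ n F e) (F : Finset V) (e : V) :
    0 ≤ RpF T gp gm p n F e :=
  add_nonneg (Finset.sum_nonneg fun b _ => mul_nonneg (T0 _ _) (e1 (n0 _ _)))
    (mul_nonneg (by norm_num) (Finset.sum_nonneg fun x _ => Finset.sum_nonneg fun y _ =>
      mul_nonneg (T0 _ _) (le_max_of_le_left (mul_nonneg (e1 (pq_nonneg n0 _ _ _))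
        (e1 (pq_nonneg (fun G z => gm0 G e z) _ _ _))))))

theorem RnF_nonneg (T0 : ∀ i j, 0 ≤ T i j) (gp0 : ∀ F i j, 0 ≤ gp F i j)
    (gm0 : ∀ F i j, 0 ≤ gm F i j) (p0 : ∀ F e, 0 ≤ p F e) (n0 : ∀ F e, 0 ≤ n F e)
    (F : Finset V) (e : V) : 0 ≤ RnF T gp gm p n F e :=
  add_nonneg (Finset.sum_nonneg fun b _ => mul_nonneg (T0 _ _) (e2' (p0 _ _)))
    (mul_nonneg (by norm_num) (Finset.sum_nonneg fun x _ => Finset.sum_nonneg fun y _ =>
      mul_nonneg (T0 _ _) (le_max_of_le_left (mul_nonneg (e1 (pq_nonneg n0 _ _ _))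
        (e1 (pq_nonneg (fun G z => gp0 G e z) _ _ _))))))

/-- monotone in all data -/
theorem RpF_mono {T' : V → V → ℝ} (T0 : ∀ i j, 0 ≤ T i j) (hT : ∀ i j, T i j ≤ T' i j)
    (gp0 : ∀ F i j, 0 ≤ gp F i j) (gm0 : ∀ F i j, 0 ≤ gm F i j) (p0 : ∀ F e, 0 ≤ p F e)
    (n0 : ∀ F e, 0 ≤ n F e) (hgp : ∀ F i j, gp F i j ≤ gp' F i j)
    (hgm : ∀ F i j, gm F i j ≤ gm' F i j)
    (hp : ∀ F e, p F e ≤ p' F e) (hn : ∀ F e, n F e ≤ n' F e) (F : Finset V) (e : V) :
    RpF T gp gm p n F e ≤ RpF T' gp' gm' p' n' F e := by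
  have T0' : ∀ i j, 0 ≤ T' i j := fun i j => (T0 i j).trans (hT i j)
  have q1 := pq_nonneg n0
  have q2 := pq_nonneg p0
  have q3 := pq_nonneg (fun G z => gm0 G e z)
  have q4 := pq_nonneg (fun G z => gp0 G e z)
  have m1 := pq_mono hn
  have m2 := pq_mono hp
  have m3 := pq_mono (fun G z => hgm G e z)
  have m4 := pq_mono (fun G z => hgp G e z)
  refine add_le_add (Finset.sum_le_sum fun b _ => mul_le_mul (hT _ _) (e1m (hn _ _))
    (e1 (n0 _ _)) (T0' _ _)) (mul_le_mul_of_nonneg_left (Finset.sum_le_sum fun x _ =>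
      Finset.sum_le_sum fun y _ => mul_le_mul (hT _ _) (max_le_max ?_ ?_)
      (le_max_of_le_left (mul_nonneg (e1 (q1 _ _ _)) (e1 (q3 _ _ _)))) (T0' _ _)) (by norm_num))
  · exact mul_le_mul (e1m (m1 _ _ _)) (e1m (m3 _ _ _)) (e1 (q3 _ _ _))
      (e1 ((q1 _ _ _).trans (m1 _ _ _)))
  · exact mul_le_mul (e2m' (m2 _ _ _)) (e1m (m4 _ _ _)) (e1 (q4 _ _ _))
      (e2' ((q2 _ _ _).trans (m2 _ _ _)))

theorem RnF_mono {T' : V → V → ℝ} (T0 : ∀ i j, 0 ≤ T i j) (hT : ∀ i j, T i j ≤ T' i j)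
    (gp0 : ∀ F i j, 0 ≤ gp F i j) (gm0 : ∀ F i j, 0 ≤ gm F i j) (p0 : ∀ F e, 0 ≤ p F e)
    (n0 : ∀ F e, 0 ≤ n F e) (hgp : ∀ F i j, gp F i j ≤ gp' F i j)
    (hgm : ∀ F i j, gm F i j ≤ gm' F i j)
    (hp : ∀ F e, p F e ≤ p' F e) (hn : ∀ F e, n F e ≤ n' F e) (F : Finset V) (e : V) :
    RnF T gp gm p n F e ≤ RnF T' gp' gm' p' n' F e := by
  have T0' : ∀ i j, 0 ≤ T' i j := fun i j => (T0 i j).trans (hT i j)
  have q1 := pq_nonneg n0
  have q2 := pq_nonneg p0
  have q3 := pq_nonneg (fun G z => gm0 G e z)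
  have q4 := pq_nonneg (fun G z => gp0 G e z)
  have m1 := pq_mono hn
  have m2 := pq_mono hp
  have m3 := pq_mono (fun G z => hgm G e z)
  have m4 := pq_mono (fun G z => hgp G e z)
  refine add_le_add (Finset.sum_le_sum fun b _ => mul_le_mul (hT _ _) (e2m' (hp _ _))
    (e2' (p0 _ _)) (T0' _ _)) (mul_le_mul_of_nonneg_left (Finset.sum_le_sum fun x _ =>
      Finset.sum_le_sum fun y _ => mul_le_mul (hT _ _) (max_le_max ?_ ?_)
      (le_max_of_le_left (mul_nonneg (e1 (q1 _ _ _)) (e1 (q4 _ _ _)))) (T0' _ _)) (by norm_num))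
  · exact mul_le_mul (e1m (m1 _ _ _)) (e1m (m4 _ _ _)) (e1 (q4 _ _ _))
      (e1 ((q1 _ _ _).trans (m1 _ _ _)))
  · exact mul_le_mul (e2m' (m2 _ _ _)) (e1m (m3 _ _ _)) (e1 (q3 _ _ _))
      (e2' ((q2 _ _ _).trans (m2 _ _ _)))

/-- the function of the positions of the target `c` is monotone in the world -/
def MF (U : Finset V) (c : V) (f : Finset V → V → ℝ) : Prop :=
  ∀ F G e, G ⊆ F → VP U F c e → f G e ≤ f F e

theorem MF.pq {c : V} {f : Finset V → V → ℝ} (hf : MF U c f) {F G : Finset V} (hG : G ⊆ F)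
    (hF : F ⊆ U) (hc : c ∈ U) (hcF : c ∉ F) {x y : V} (hx : x ∈ G) (hy : y ∈ G) :
    pq f G x y ≤ pq f F x y := by
  have v1 : VP U (F.erase x) c x := ⟨(Finset.erase_subset _ _).trans hF, hc, hF (hG hx),
    fun h => hcF (Finset.mem_of_mem_erase h), Finset.notMem_erase _ _, fun h => hcF (h ▸ hG hx)⟩
  have v2 : VP U ((F.erase x).erase y) c y :=
    ⟨((Finset.erase_subset _ _).trans (Finset.erase_subset _ _)).trans hF, hc, hF (hG hy),
      fun h => hcF (Finset.mem_of_mem_erase (Finset.mem_of_mem_erase h)),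
      Finset.notMem_erase _ _, fun h => hcF (h ▸ hG hy)⟩
  exact add_le_add (hf _ _ _ (Finset.erase_subset_erase _ hG) v1)
    (hf _ _ _ (Finset.erase_subset_erase _ (Finset.erase_subset_erase _ hG)) v2)

/-- monotone in the world -/
theorem RpF_set {c : V} (T0 : ∀ i j, 0 ≤ T i j) (gp0 : ∀ F i j, 0 ≤ gp F i j)
    (gm0 : ∀ F i j, 0 ≤ gm F i j) (p0 : ∀ F e, 0 ≤ p F e) (n0 : ∀ F e, 0 ≤ n F e)
    (hgp : ∀ i, MF U i fun F j => gp F i j) (hgm : ∀ i, MF U i fun F j => gm F i j)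
    (hp : MF U c p) (hn : MF U c n) {F G : Finset V} (hG : G ⊆ F) {e : V} (hv : VP U F c e) :
    RpF T gp gm p n G e ≤ RpF T gp gm p n F e := by
  obtain ⟨hF, hc, he, hcF, heF, hce⟩ := hv
  have q1 := pq_nonneg n0
  have q2 := pq_nonneg p0
  have q3 := pq_nonneg (fun G z => gm0 G e z)
  have q4 := pq_nonneg (fun G z => gp0 G e z)
  have v1 : ∀ b ∈ F, VP U (F.erase b) c b := fun b hb => ⟨(Finset.erase_subset _ _).trans hF,
    hc, hF hb, fun h => hcF (Finset.mem_of_mem_erase h), Finset.notMem_erase _ _,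
    fun h => hcF (h ▸ hb)⟩
  refine add_le_add ?_ (mul_le_mul_of_nonneg_left ?_ (by norm_num))
  · refine (Finset.sum_le_sum fun b hb => mul_le_mul_of_nonneg_left
      (e1m (hn _ _ _ (Finset.erase_subset_erase _ hG) (v1 b (hG hb)))) (T0 _ _)).trans
      (Finset.sum_le_sum_of_subset_of_nonneg hG fun b _ _ => mul_nonneg (T0 _ _) (e1 (n0 _ _)))
  · have nn : ∀ x y, 0 ≤ T x y *
      (max ((1 - Real.exp (-pq n F x y)) * (1 - Real.exp (-pq (fun G z => gm G e z) F x y)))
        ((Real.exp (pq p F x y) - 1) * (1 - Real.exp (-pq (fun G z => gp G e z) F x y)))) :=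
      fun x y => mul_nonneg (T0 _ _) (le_max_of_le_left (mul_nonneg (e1 (q1 _ _ _))
        (e1 (q3 _ _ _))))
    refine le_trans ?_ (Finset.sum_le_sum_of_subset_of_nonneg hG fun x _ _ =>
      Finset.sum_nonneg fun y _ => nn x y)
    refine Finset.sum_le_sum fun x hx => ?_
    refine le_trans ?_ (Finset.sum_le_sum_of_subset_of_nonneg hG fun y _ _ => nn x y)
    refine Finset.sum_le_sum fun y hy => mul_le_mul_of_nonneg_left (max_le_max ?_ ?_) (T0 _ _)
    · exact mul_le_mul (e1m (hn.pq hG hF hc hcF hx hy)) (e1m ((hgm e).pq hG hF he heF hx hy))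
        (e1 (q3 _ _ _)) (e1 (q1 _ _ _))
    · exact mul_le_mul (e2m' (hp.pq hG hF hc hcF hx hy)) (e1m ((hgp e).pq hG hF he heF hx hy))
        (e1 (q4 _ _ _)) (e2' (q2 _ _ _))

theorem RnF_set {c : V} (T0 : ∀ i j, 0 ≤ T i j) (gp0 : ∀ F i j, 0 ≤ gp F i j)
    (gm0 : ∀ F i j, 0 ≤ gm F i j) (p0 : ∀ F e, 0 ≤ p F e) (n0 : ∀ F e, 0 ≤ n F e)
    (hgp : ∀ i, MF U i fun F j => gp F i j) (hgm : ∀ i, MF U i fun F j => gm F i j)
    (hp : MF U c p) (hn : MF U c n) {F G : Finset V} (hG : G ⊆ F) {e : V} (hv : VP U F c e) :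
    RnF T gp gm p n G e ≤ RnF T gp gm p n F e := by
  obtain ⟨hF, hc, he, hcF, heF, hce⟩ := hv
  have q1 := pq_nonneg n0
  have q2 := pq_nonneg p0
  have q3 := pq_nonneg (fun G z => gm0 G e z)
  have q4 := pq_nonneg (fun G z => gp0 G e z)
  have v1 : ∀ b ∈ F, VP U (F.erase b) c b := fun b hb => ⟨(Finset.erase_subset _ _).trans hF,
    hc, hF hb, fun h => hcF (Finset.mem_of_mem_erase h), Finset.notMem_erase _ _,
    fun h => hcF (h ▸ hb)⟩
  refine add_le_add ?_ (mul_le_mul_of_nonneg_left ?_ (by norm_num))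
  · refine (Finset.sum_le_sum fun b hb => mul_le_mul_of_nonneg_left
      (e2m' (hp _ _ _ (Finset.erase_subset_erase _ hG) (v1 b (hG hb)))) (T0 _ _)).trans
      (Finset.sum_le_sum_of_subset_of_nonneg hG fun b _ _ => mul_nonneg (T0 _ _) (e2' (p0 _ _)))
  · have nn : ∀ x y, 0 ≤ T x y *
      (max ((1 - Real.exp (-pq n F x y)) * (1 - Real.exp (-pq (fun G z => gp G e z) F x y)))
        ((Real.exp (pq p F x y) - 1) * (1 - Real.exp (-pq (fun G z => gm G e z) F x y)))) :=
      fun x y => mul_nonneg (T0 _ _) (le_max_of_le_left (mul_nonneg (e1 (q1 _ _ _))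
        (e1 (q4 _ _ _))))
    refine le_trans ?_ (Finset.sum_le_sum_of_subset_of_nonneg hG fun x _ _ =>
      Finset.sum_nonneg fun y _ => nn x y)
    refine Finset.sum_le_sum fun x hx => ?_
    refine le_trans ?_ (Finset.sum_le_sum_of_subset_of_nonneg hG fun y _ _ => nn x y)
    refine Finset.sum_le_sum fun y hy => mul_le_mul_of_nonneg_left (max_le_max ?_ ?_) (T0 _ _)
    · exact mul_le_mul (e1m (hn.pq hG hF hc hcF hx hy)) (e1m ((hgp e).pq hG hF he heF hx hy))
        (e1 (q4 _ _ _)) (e1 (q1 _ _ _))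
    · exact mul_le_mul (e2m' (hp.pq hG hF hc hcF hx hy)) (e1m ((hgm e).pq hG hF he heF hx hy))
        (e1 (q3 _ _ _)) (e2' (q2 _ _ _))

end signs

/-! ### Sums of the rates at one time -/

/-- the product terms, summed over a row, without the symmetry of the first function -/
theorem quadG {U : Finset V} {T : V → V → ℝ} {a b : Finset V → V → V → ℝ} {wl : V → ℝ}
    {wb : V → V → ℝ} {φ : V → Finset V → ℝ} {F : Finset V} {i : V}
    (T0 : ∀ i j, 0 ≤ T i j) (Ts : ∀ i j, T i j = T j i) (hF : F ⊆ U) (hi : i ∈ U) (hiF : i ∉ F)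
    (w0 : ∀ j ∈ F, 0 ≤ wl j) (wle : ∀ x ∈ F, ∀ j ∈ F.erase x, wl j ≤ wb x j)
    (a0 : ∀ F i j, 0 ≤ a F i j) (b0 : ∀ F i j, 0 ≤ b F i j)
    (bm : ∀ F G j, G ⊆ F → VP U F i j → b G i j ≤ b F i j)
    (hφ : ∀ x ∈ U, ∀ G ⊆ U, x ∉ G → ∑ j ∈ G, wb x j * a (G.erase j) j x ≤ φ x G) :
    ∑ j ∈ F, wl j * ((1 / 2) * ∑ x ∈ F.erase j, ∑ y ∈ F.erase j, T x y *
        ((a ((F.erase j).erase x) j x + a (((F.erase j).erase x).erase y) j y)
          * (b ((F.erase j).erase x) i x + b (((F.erase j).erase x).erase y) i y)))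
      ≤ ∑ x ∈ F, b (F.erase x) i x * KF T φ F x := by
  have hv : ∀ x ∈ F, VP U (F.erase x) i x := fun x hx =>
    ⟨(Finset.erase_subset _ _).trans hF, hi, hF hx,
      fun e => hiF (Finset.mem_of_mem_erase e), Finset.notMem_erase _ _, fun e => hiF (e ▸ hx)⟩
  have bx : ∀ j, ∀ x ∈ F, b ((F.erase j).erase x) i x ≤ b (F.erase x) i x := fun j x hx =>
    bm _ _ _ (Finset.erase_subset_erase _ (Finset.erase_subset _ _)) (hv x hx)
  have by' : ∀ j x, ∀ y ∈ F, b (((F.erase j).erase x).erase y) i y ≤ b (F.erase y) i y :=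
    fun j x y hy => bm _ _ _ (Finset.erase_subset_erase _ ((Finset.erase_subset _ _).trans
      (Finset.erase_subset _ _))) (hv y hy)
  have s1 : ∀ x ∈ F, ∀ y, ∑ j ∈ (F.erase x).erase y, wl j * a ((F.erase j).erase x) j x
      ≤ φ x (F.erase x) := by
    intro x hx y
    refine le_trans ?_ (hφ x (hF hx) (F.erase x) ((Finset.erase_subset _ _).trans hF)
      (Finset.notMem_erase _ _))
    refine (Finset.sum_le_sum_of_subset_of_nonneg (Finset.erase_subset _ _) fun j hj _ =>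
      mul_nonneg (w0 j (Finset.mem_of_mem_erase hj)) (a0 _ _ _)).trans ?_
    refine Finset.sum_le_sum fun j hj => ?_
    rw [Finset.erase_right_comm]
    exact mul_le_mul_of_nonneg_right (wle x hx j hj) (a0 _ _ _)
  have s2 : ∀ x ∈ F, ∀ y ∈ F, ∑ j ∈ (F.erase x).erase y,
      wl j * a (((F.erase j).erase x).erase y) j y ≤ φ y ((F.erase x).erase y) := by
    intro x hx y hy
    refine le_trans ?_ (hφ y (hF hy) ((F.erase x).erase y) (((Finset.erase_subset _ _).trans
      (Finset.erase_subset _ _)).trans hF) (Finset.notMem_erase _ _))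
    refine Finset.sum_le_sum fun j hj => ?_
    have hj1 := Finset.mem_erase.1 hj
    have hj2 := Finset.mem_of_mem_erase hj1.2
    rw [Finset.erase_right_comm (a := j) (b := x), Finset.erase_right_comm (a := j) (b := y)]
    exact mul_le_mul_of_nonneg_right (wle y hy j (Finset.mem_erase.2 ⟨hj1.1, hj2⟩)) (a0 _ _ _)
  calc ∑ j ∈ F, wl j * ((1 / 2) * ∑ x ∈ F.erase j, ∑ y ∈ F.erase j, T x y *
        ((a ((F.erase j).erase x) j x + a (((F.erase j).erase x).erase y) j y)
          * (b ((F.erase j).erase x) i x + b (((F.erase j).erase x).erase y) i y)))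
      ≤ ∑ j ∈ F, wl j * ((1 / 2) * ∑ x ∈ F.erase j, ∑ y ∈ F.erase j, T x y *
        ((a ((F.erase j).erase x) j x + a (((F.erase j).erase x).erase y) j y)
          * (b (F.erase x) i x + b (F.erase y) i y))) := by
        refine Finset.sum_le_sum fun j hj => mul_le_mul_of_nonneg_left
          (mul_le_mul_of_nonneg_left ?_ (by norm_num)) (w0 j hj)
        refine Finset.sum_le_sum fun x hx => Finset.sum_le_sum fun y hy =>
          mul_le_mul_of_nonneg_left (mul_le_mul_of_nonneg_left (add_le_add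
            (bx j x (Finset.mem_of_mem_erase hx)) (by' j x y (Finset.mem_of_mem_erase hy)))
            (add_nonneg (a0 _ _ _) (a0 _ _ _))) (T0 _ _)
    _ = (1 / 2) * ∑ j ∈ F, ∑ x ∈ F.erase j, ∑ y ∈ F.erase j, T x y *
        ((b (F.erase x) i x + b (F.erase y) i y) * (wl j * a ((F.erase j).erase x) j x
          + wl j * a (((F.erase j).erase x).erase y) j y)) := by
        rw [Finset.mul_sum]
        refine Finset.sum_congr rfl fun j _ => ?_
        rw [mul_left_comm, Finset.mul_sum]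
        congr 1
        refine Finset.sum_congr rfl fun x _ => ?_
        rw [Finset.mul_sum]
        exact Finset.sum_congr rfl fun y _ => by ring
    _ = (1 / 2) * ∑ x ∈ F, ∑ y ∈ F, T x y * ((b (F.erase x) i x + b (F.erase y) i y) *
        (∑ j ∈ (F.erase x).erase y, wl j * a ((F.erase j).erase x) j x
          + ∑ j ∈ (F.erase x).erase y, wl j * a (((F.erase j).erase x).erase y) j y)) := by
        rw [swap3]
        congr 1
        refine Finset.sum_congr rfl fun x _ => Finset.sum_congr rfl fun y _ => ?_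
        rw [← Finset.sum_add_distrib, Finset.mul_sum, Finset.mul_sum]
    _ ≤ (1 / 2) * ∑ x ∈ F, ∑ y ∈ F, T x y * ((b (F.erase x) i x + b (F.erase y) i y) *
        (φ x (F.erase x) + φ y ((F.erase x).erase y))) := by
        refine mul_le_mul_of_nonneg_left ?_ (by norm_num)
        refine Finset.sum_le_sum fun x hx => Finset.sum_le_sum fun y hy =>
          mul_le_mul_of_nonneg_left (mul_le_mul_of_nonneg_left (add_le_add (s1 x hx y)
            (s2 x hx y hy)) (add_nonneg (b0 _ _ _) (b0 _ _ _))) (T0 _ _)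
    _ = ∑ x ∈ F, b (F.erase x) i x * KF T φ F x := by
        have e1 : ∑ x ∈ F, ∑ y ∈ F, T x y * ((b (F.erase x) i x + b (F.erase y) i y) *
            (φ x (F.erase x) + φ y ((F.erase x).erase y)))
            = ∑ x ∈ F, ∑ y ∈ F, T x y * (b (F.erase x) i x *
              (φ x (F.erase x) + φ y ((F.erase x).erase y)))
            + ∑ x ∈ F, ∑ y ∈ F, T x y * (b (F.erase y) i y *
              (φ x (F.erase x) + φ y ((F.erase x).erase y))) := by
          rw [← Finset.sum_add_distrib]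
          refine Finset.sum_congr rfl fun x _ => ?_
          rw [← Finset.sum_add_distrib]
          exact Finset.sum_congr rfl fun y _ => by ring
        have e2 : ∑ x ∈ F, ∑ y ∈ F, T x y * (b (F.erase y) i y *
              (φ x (F.erase x) + φ y ((F.erase x).erase y)))
            = ∑ x ∈ F, ∑ y ∈ F, T x y * (b (F.erase x) i x *
              (φ y (F.erase y) + φ x ((F.erase y).erase x))) := by
          rw [Finset.sum_comm]
          refine Finset.sum_congr rfl fun x _ => Finset.sum_congr rfl fun y _ => ?_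
          rw [Ts y x]
        rw [e1, e2, ← Finset.sum_add_distrib, Finset.mul_sum]
        refine Finset.sum_congr rfl fun x _ => ?_
        unfold KF
        rw [← Finset.sum_add_distrib]
        simp only [Finset.mul_sum]
        exact Finset.sum_congr rfl fun y _ => by ring

end Pool.Agent.RZ.RCO
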