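import Pool.Agent.RZ.RCN.Eb
import Pool.Agent.RZ.RCN.T2r
import Pool.Agent.RZ.RCN.T2t

/-! The rate of the second type at fixed times: pointwise bounds (MP_73ccd0_lc). -/

namespace Pool.Agent.RZ.RCN.K

open Set Finset MeasureTheory Pool.Agent.RZ.RCRSHalf Pool.Agent.RZ.RCG Pool.Agent.RZ.RCG.Ct
open Pool.Agent.RZ.RCN.Ker Pool.Agent.RZ.RCRS Pool.Agent.RZ.RCM

set_option linter.unusedSectionVars false

/-- the weights of a pair -/
theorem wt_J {A H u g t χ ρm ρM : ℝ} (hA : 0 ≤ A) (hH : 0 ≤ H) (hu : 0 ≤ u) (hg : 0 ≤ g)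
    (hu1 : u ≤ 1) (ht : 0 ≤ t) (hχ : 0 ≤ χ) (h1 : ρm * (A + H) ≤ H) (h2 : H ≤ ρM * (A + H)) :
    A * (1 + (u + g) * t) + H * ((1 + u * t) * (1 - u) + t * χ)
      ≤ (A + H) * ((1 + g * t) * ((1 + u * t) * ((1 - ρm * u) + ρM * (t * χ)))) := by
  have hut : 0 ≤ u * t := mul_nonneg hu ht
  have hgt : 0 ≤ g * t := mul_nonneg hg ht
  have htχ : 0 ≤ t * χ := mul_nonneg ht hχ
  have m0 : 0 ≤ (1 - u) + t * χ := add_nonneg (by linarith) htχ
  have i1 : A * (1 + (u + g) * t) ≤ A * ((1 + g * t) * (1 + u * t)) := by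
    refine mul_le_mul_of_nonneg_left ?_ hA
    nlinarith [mul_nonneg hut hgt]
  have i2 : H * ((1 + u * t) * (1 - u) + t * χ)
      ≤ H * ((1 + g * t) * (1 + u * t) * ((1 - u) + t * χ)) := by
    refine mul_le_mul_of_nonneg_left ?_ hH
    have i3 : (1 + u * t) * (1 - u) + t * χ ≤ (1 + u * t) * ((1 - u) + t * χ) := by
      nlinarith [mul_nonneg hut htχ]
    have i4 : (1 + u * t) * ((1 - u) + t * χ)
        ≤ (1 + g * t) * (1 + u * t) * ((1 - u) + t * χ) := by
      have : 0 ≤ (1 + u * t) * ((1 - u) + t * χ) * (g * t) :=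
        mul_nonneg (mul_nonneg (by linarith) m0) hgt
      nlinarith
    exact i3.trans i4
  have i5 : A + H * ((1 - u) + t * χ) ≤ (A + H) * ((1 - ρm * u) + ρM * (t * χ)) := by
    have j1 := mul_le_mul_of_nonneg_right h1 hu
    have j2 := mul_le_mul_of_nonneg_right h2 htχ
    nlinarith
  have i6 : 0 ≤ (1 + g * t) * (1 + u * t) := mul_nonneg (by linarith) (by linarith)
  have i7 := mul_le_mul_of_nonneg_left i5 i6
  calc _ ≤ A * ((1 + g * t) * (1 + u * t))
        + H * ((1 + g * t) * (1 + u * t) * ((1 - u) + t * χ)) := add_le_add i1 i2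
    _ = (1 + g * t) * (1 + u * t) * (A + H * ((1 - u) + t * χ)) := by ring
    _ ≤ _ := i7
    _ = _ := by ring

variable {V : Type*} [Fintype V] [DecidableEq V]
variable {x : V → V → ℝ} {P : V → Prop} [DecidablePred P] {k : Kf} {N : ℕ}
variable {κd : ℝ → ℝ → ℝ → ℝ} {R : V → V → V → ℝ → ℝ → ℝ} {L Lt : V → V → V → V → ℝ → ℝ → ℝ}
variable {t s : ℝ} {a : V} {g : V → V → ℝ}

/-- the bounds of the rates of the fluxes (`Af`) and of mass times hazard (`Hf`) at the times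
`t`, `s`, as functions of the weight of the removed vertex -/
structure RtJ (x : V → V → ℝ) (P : V → Prop) [DecidablePred P] (k : Kf) (κd : ℝ → ℝ → ℝ → ℝ)
    (R : V → V → V → ℝ → ℝ → ℝ) (a : V) (t s : ℝ) (Af Hf : ℝ → ℝ) (ρm ρM : ℝ) : Prop where
  A0 : ∀ v ∈ Icc (0 : ℝ) 1, 0 ≤ Af v
  H0 : ∀ v ∈ Icc (0 : ℝ) 1, 0 ≤ Hf v
  m0 : 0 ≤ ρm
  m1 : ρm ≤ 1
  M0 : 0 ≤ ρM
  ml : ∀ v ∈ Icc (0 : ℝ) 1, ρm * (Af v + Hf v) ≤ Hf v
  Ml : ∀ v ∈ Icc (0 : ℝ) 1, Hf v ≤ ρM * (Af v + Hf v)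
  f0 : ∀ b e, b ≠ a → e ≠ a → b ≠ e → 0 ≤ flx x P k κd b a e t s
  f : ∀ b e, P e → b ≠ a → e ≠ a → b ≠ e →
    flx x P k κd b a e t s ≤ x a e * (Af (x a e) * (1 + (x a b + x b e) * t))
  u0 : ∀ b e, b ≠ a → 0 ≤ mua x P k κd b a t s * R b a e t s
  u : ∀ b e, P b → P e → b ≠ a → e ≠ a → b ≠ e → mua x P k κd b a t s * R b a e t s
    ≤ x a e * (Hf (x a e) * ((1 + x a b * t) * (1 - x a b)
      + t * ∑ e ∈ ({a, b} : Finset V)ᶜ, x b e * x a e))
  z : ∀ b e, P b → b ≠ a → ¬P e → x a e = 0 → R b a e t s = 0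

/-- bounds of the closures at the times `t`, `s` -/
structure LbJ (x : V → V → ℝ) (P : V → Prop) [DecidablePred P]
    (L Lt : V → V → V → V → ℝ → ℝ → ℝ) (a : V) (t s : ℝ)
    (F RD RT : V → V → V → ℝ) (δ : ℝ) : Prop where
  δ0 : 0 ≤ δ
  pend : ∀ b d e, ¬P e → x a e ≠ 0 → L b a d e t s = 0 ∧ Lt b a d e t s = 0
  F0 : ∀ b d e, 0 ≤ F b d e
  rd0 : ∀ b d e, 0 ≤ RD b d e
  rt0 : ∀ b d e, 0 ≤ RT b d e
  l : ∀ b d e, P b → P d → P e → Gr.D3 a b d → e ∈ ({a, b, d} : Finset V)ᶜ →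
    L b a d e t s ≤ F b d e + RD b d e
  lt : ∀ b d e, P b → P d → P e → Gr.D3 a b d → e ∈ ({a, b, d} : Finset V)ᶜ →
    Lt b a d e t s ≤ F b d e + RT b d e + x d e * δ

variable {Af Hf : ℝ → ℝ} {ρm ρM δ : ℝ} {F RD RT : V → V → V → ℝ}

/-- the factor of a neighbour of the centre -/
noncomputable def UJ (y : V → V → ℝ) (t ρm ρM : ℝ) (a b : V) : ℝ :=
  (1 + y a b * t) * ((1 - ρm * y a b) + ρM * (t * Gr.chi y a b))

theorem UJ_nonneg {y : V → V → ℝ} (hy : Gr.Wg y) (ht : 0 ≤ t) (m0 : 0 ≤ ρm) (m1 : ρm ≤ 1)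
    (M0 : 0 ≤ ρM) (a b : V) : 0 ≤ UJ y t ρm ρM a b := by
  have h1 := hy.nn a b
  have h2 := hy.le_one a b
  have h3 := Gr.chi_nonneg hy a b
  have h4 : ρm * y a b ≤ 1 := by nlinarith
  exact mul_nonneg (by have := mul_nonneg h1 ht; linarith)
    (add_nonneg (by linarith) (mul_nonneg M0 (mul_nonneg ht h3)))

/-- the pointwise bound of the summand -/
theorem term_leJ (hx : Wt x P 1) (ha : P a) (ht : t ∈ Icc (0 : ℝ) 1)
    (hR : RtJ x P k κd R a t s Af Hf ρm ρM) (hL : LbJ x P L Lt a t s F RD RT δ)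
    (g0 : ∀ b d, 0 ≤ g b d) {b d e : V}
    (hbd : Gr.D3 a b d) (he : e ∈ ({a, b, d} : Finset V)ᶜ) :
    xr x P a b * (xr x P b d * g b d) * (flx x P k κd b a e t s * L b a d e t s
        + mua x P k κd b a t s * (R b a e t s * Lt b a d e t s))
      ≤ (xr x P a b * UJ (xr x P) t ρm ρM a b) * (xr x P b d * g b d)
          * ((1 + xr x P b e * t) * (xr x P a e * (Af (xr x P a e) + Hf (xr x P a e)))) * F b d e
        + (xr x P a b * (1 + xr x P a b * t)) * (xr x P b d * g b d)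
          * ((1 + xr x P b e * t) * (xr x P a e * Af (xr x P a e))) * RD b d e
        + (xr x P a b * ((1 + xr x P a b * t) * Gr.mfac (xr x P) t a b)) * (xr x P b d * g b d)
          * (1 * (xr x P a e * Hf (xr x P a e))) * RT b d e
        + (xr x P a b * ((1 + xr x P a b * t) * Gr.mfac (xr x P) t a b)) * (xr x P b d * g b d)
          * (xr x P d e * δ) * (xr x P a e * Hf (xr x P a e)) := by
  have hw := wg_xr hx
  have n0 := hw.nn
  have hmf : 0 ≤ Gr.mfac (xr x P) t a b := Gr.mfac_nonneg hw ht.1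
  have hU : 0 ≤ UJ (xr x P) t ρm ρM a b := UJ_nonneg hw ht.1 hR.m0 hR.m1 hR.M0 a b
  have hae1 : xr x P a e ∈ Icc (0 : ℝ) 1 := ⟨n0 a e, hw.le_one a e⟩
  have hA := hR.A0 _ hae1
  have hH := hR.H0 _ hae1
  have hF0 := hL.F0 b d e
  have hR0 := hL.rd0 b d e
  have hT0 := hL.rt0 b d e
  have hut : 0 ≤ 1 + xr x P a b * t := by have := mul_nonneg (n0 a b) ht.1; linarith
  have hvt : 0 ≤ 1 + xr x P b e * t := by have := mul_nonneg (n0 b e) ht.1; linarith
  have hg : 0 ≤ xr x P b d * g b d := mul_nonneg (n0 b d) (g0 b d)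
  have r1 : 0 ≤ (xr x P a b * UJ (xr x P) t ρm ρM a b) * (xr x P b d * g b d)
          * ((1 + xr x P b e * t) * (xr x P a e * (Af (xr x P a e) + Hf (xr x P a e))))
          * F b d e :=
    mul_nonneg (mul_nonneg (mul_nonneg (mul_nonneg (n0 a b) hU) hg)
      (mul_nonneg hvt (mul_nonneg (n0 a e) (add_nonneg hA hH)))) hF0
  have r2 : 0 ≤ (xr x P a b * (1 + xr x P a b * t)) * (xr x P b d * g b d)
          * ((1 + xr x P b e * t) * (xr x P a e * Af (xr x P a e))) * RD b d e :=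
    mul_nonneg (mul_nonneg (mul_nonneg (mul_nonneg (n0 a b) hut) hg)
      (mul_nonneg hvt (mul_nonneg (n0 a e) hA))) hR0
  have r3 : 0 ≤ (xr x P a b * ((1 + xr x P a b * t) * Gr.mfac (xr x P) t a b))
          * (xr x P b d * g b d) * (1 * (xr x P a e * Hf (xr x P a e))) * RT b d e :=
    mul_nonneg (mul_nonneg (mul_nonneg (mul_nonneg (n0 a b) (mul_nonneg hut hmf)) hg)
      (mul_nonneg zero_le_one (mul_nonneg (n0 a e) hH))) hT0
  have r4 : 0 ≤ (xr x P a b * ((1 + xr x P a b * t) * Gr.mfac (xr x P) t a b))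
          * (xr x P b d * g b d) * (xr x P d e * δ) * (xr x P a e * Hf (xr x P a e)) :=
    mul_nonneg (mul_nonneg (mul_nonneg (mul_nonneg (n0 a b) (mul_nonneg hut hmf)) hg)
      (mul_nonneg (n0 d e) hL.δ0)) (mul_nonneg (n0 a e) hH)
  by_cases hb : P b
  swap
  · have : xr x P a b = 0 := by unfold xr; rw [if_neg fun h => hb h.2]
    have e0 : xr x P a b * (xr x P b d * g b d) * (flx x P k κd b a e t s * L b a d e t s
        + mua x P k κd b a t s * (R b a e t s * Lt b a d e t s)) = 0 := by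
      rw [this]; ring
    linarith
  by_cases hd : P d
  swap
  · have : xr x P b d = 0 := by unfold xr; rw [if_neg fun h => hd h.2]
    have e0 : xr x P a b * (xr x P b d * g b d) * (flx x P k κd b a e t s * L b a d e t s
        + mua x P k κd b a t s * (R b a e t s * Lt b a d e t s)) = 0 := by
      rw [this]; ring
    linarith
  simp only [Finset.mem_compl, Finset.mem_insert, Finset.mem_singleton, not_or] at he
  obtain ⟨hea, heb, hed⟩ := he
  have hba := hbd.1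
  by_cases hPe : P e
  swap
  · have e0 : xr x P a b * (xr x P b d * g b d) * (flx x P k κd b a e t s * L b a d e t s
        + mua x P k κd b a t s * (R b a e t s * Lt b a d e t s)) = 0 := by
      by_cases hae : x a e = 0
      · have h1 : flx x P k κd b a e t s = 0 := by
          unfold flx; rw [hae, zero_mul, zero_mul]
        rw [h1, hR.z b e hb hba hPe hae]
        ring
      · obtain ⟨h1, h2⟩ := hL.pend b d e hPe hae
        rw [h1, h2]
        ring
    linarith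
  -- everything inside `P`
  have eab : xr x P a b = x a b := xr_eq ha hb
  have eae : xr x P a e = x a e := xr_eq ha hPe
  have ebe : xr x P b e = x b e := xr_eq hb hPe
  have hχ := chi_eq hx ha hb hba.symm
  have hχ0 := Gr.chi_nonneg hw a b
  have f0 := hR.f0 b e hba hea (Ne.symm heb)
  have f1 := hR.f b e hPe hba hea (Ne.symm heb)
  have um0 := hR.u0 b e hba
  have um := hR.u b e hb hPe hba hea (Ne.symm heb)
  rw [hχ, ← eab, ← eae] at um
  rw [← eab, ← eae, ← ebe] at f1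
  have hu0 := n0 a b
  have hu1 := hw.le_one a b
  have hv0 := n0 b e
  have w1 := wt_J (A := Af (xr x P a e)) (H := Hf (xr x P a e)) (ρm := ρm) (ρM := ρM) hA hH hu0
    hv0 hu1 ht.1 hχ0 (hR.ml _ hae1) (hR.Ml _ hae1)
  have w3 := wt_le3 (F := Hf (xr x P a e)) (χ := Gr.chi (xr x P) a b) hH hu0 ht.1 hχ0
  have e3 : (1 - xr x P a b) + t * Gr.chi (xr x P) a b = Gr.mfac (xr x P) t a b := rfl
  rw [e3] at w3
  have l1 := hL.l b d e hb hd hPe hbd (by simp [hea, heb, hed])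
  have l2 := hL.lt b d e hb hd hPe hbd (by simp [hea, heb, hed])
  have eH : x d e = xr x P d e := (xr_eq hd hPe).symm
  rw [eH] at l2
  have hH4 : 0 ≤ xr x P d e * δ := mul_nonneg (n0 d e) hL.δ0
  set fl := flx x P k κd b a e t s with hfl
  set mu := mua x P k κd b a t s with hmu
  set Rr := R b a e t s with hRr
  -- the total
  have tot : fl * L b a d e t s + mu * (Rr * Lt b a d e t s)
      ≤ (fl + mu * Rr) * F b d e + fl * RD b d e + mu * Rr * RT b d e
        + mu * Rr * (xr x P d e * δ) := by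
    have i1 := mul_le_mul_of_nonneg_left l1 f0
    have i2 := mul_le_mul_of_nonneg_left l2 um0
    nlinarith [i1, i2]
  have W1 : fl + mu * Rr ≤ xr x P a e * ((Af (xr x P a e) + Hf (xr x P a e))
      * ((1 + xr x P b e * t) * UJ (xr x P) t ρm ρM a b)) := by
    have := mul_le_mul_of_nonneg_left w1 (n0 a e)
    unfold UJ
    linarith
  have W2 : fl ≤ xr x P a e * (Af (xr x P a e) * ((1 + xr x P a b * t)
      * (1 + xr x P b e * t))) := by
    refine f1.trans (mul_le_mul_of_nonneg_left (mul_le_mul_of_nonneg_left ?_ hA) (n0 a e))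
    nlinarith [mul_nonneg (mul_nonneg hu0 ht.1) (mul_nonneg hv0 ht.1)]
  have W3 : mu * Rr ≤ xr x P a e * (Hf (xr x P a e) * ((1 + xr x P a b * t)
      * Gr.mfac (xr x P) t a b)) := by
    have := mul_le_mul_of_nonneg_left w3 (n0 a e)
    linarith
  have j1 := mul_le_mul_of_nonneg_right W1 hF0
  have j2 := mul_le_mul_of_nonneg_right W2 hR0
  have j5 := mul_le_mul_of_nonneg_right W3 hT0
  have j3 := mul_le_mul_of_nonneg_right W3 hH4
  have c0 : 0 ≤ xr x P a b * (xr x P b d * g b d) := mul_nonneg (n0 a b) hg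
  have j4 := mul_le_mul_of_nonneg_left
    (tot.trans (add_le_add (add_le_add (add_le_add j1 j2) j5) j3)) c0
  refine j4.trans (le_of_eq ?_)
  ring

end Pool.Agent.RZ.RCN.K
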