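import Pool.Agent.RZ.RCM.GrL

/-! The second type: the end theorem with one function of the three weights (MP_73ccd0_lc). -/

namespace Pool.Agent.RZ.RCN.K

open Set Finset MeasureTheory

open Pool.Agent.RZ.RCM

set_option linter.unusedSectionVars false

variable {V : Type*} [Fintype V] [DecidableEq V]
variable {x : V → V → ℝ} {P : V → Prop} [DecidablePred P] {N : ℕ}

variable {κd : ℝ → ℝ → ℝ → ℝ} {R : V → V → V → ℝ → ℝ → ℝ} {L Lt : V → V → V → V → ℝ → ℝ → ℝ}
variable {a : V} {g : V → V → ℝ}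

variable {t : ℝ} {C mt p0 J : V → V → ℝ}

/-- the sum over the triangles -/
theorem tri_J {y : V → V → ℝ} (hy : Gr.Wg y) {J : V → V → ℝ} (J0 : ∀ b d, 0 ≤ J b d) :
    ∑ b ∈ ({a} : Finset V)ᶜ, ∑ d ∈ ({a, b} : Finset V)ᶜ, y a b * y a d * y b d * J b d
      ≤ ∑ b ∈ ({a} : Finset V)ᶜ, y a b ^ 2 * ∑ d ∈ ({a, b} : Finset V)ᶜ,
        y b d * ((J b d + J d b) / 2) := by
  refine Gr.tri_le hy (a := a) (M := J) (G := fun b d => (J b d + J d b) / 2) fun b d _ => ?_
  have := mul_nonneg (add_nonneg (J0 b d) (J0 d b)) (sq_nonneg (y a b - y a d))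
  nlinarith [this]

end Pool.Agent.RZ.RCN.K
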