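import Pool.Agent.RZ.RCM.GrT

/-! The rate of the second type with a star majorant (MP_73ccd0_lc). -/

namespace Pool.Agent.RZ.RCM.Gr

open Finset

variable {V : Type*} [Fintype V] [DecidableEq V]

/-- **rows and star columns** -/
theorem starJ {x : V → V → ℝ} (hx : Wg x) {a : V} {u q : V → ℝ} {p : V → V → ℝ}
    {M : V → V → V → ℝ} {rI : V → V → ℝ} {Ls : V → V → ℝ} {rE : V → ℝ} {σ : ℝ}
    (M0 : ∀ b d e, 0 ≤ M b d e) (hσ0 : 0 ≤ σ) (hq0 : σ = 0 → ∀ e, q e = 0)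
    (hI : ∀ b d, D3 a b d → ∑ e ∈ ({a, b, d} : Finset V)ᶜ, M b d e ≤ rI b d)
    (Ls0 : ∀ d e, 0 ≤ Ls d e)
    (hM : ∀ b d e, D3 a b d → e ≠ a → e ≠ b → e ≠ d → M b d e ≤ Ls d e)
    (hII : ∀ e, e ≠ a → ∑ d ∈ ({a, e} : Finset V)ᶜ, Ls d e ≤ rE e) :
    ∑ b ∈ ({a} : Finset V)ᶜ, ∑ d ∈ ({a, b} : Finset V)ᶜ, ∑ e ∈ ({a, b, d} : Finset V)ᶜ,
        u b * (x b d * p b d) * q e * M b d e
      ≤ 1 / 2 * ∑ b ∈ ({a} : Finset V)ᶜ, u b ^ 2 * ∑ d ∈ ({a, b} : Finset V)ᶜ,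
          x b d * (σ * (p b d ^ 2 * (1 - x a d) * rI b d))
        + 1 / 2 * ∑ e ∈ ({a} : Finset V)ᶜ, q e ^ 2 * (rE e / σ) := by
  have n0 := hx.nn
  have x1 := hx.le_one
  rcases eq_or_lt_of_le hσ0 with h0 | hσ
  · have hq := hq0 h0.symm
    simp [hq, ← h0]
  have s0 : 0 ≤ σ⁻¹ := inv_nonneg.2 hσ.le
  -- pointwise
  have am : ∀ b d e, D3 a b d → u b * (x b d * p b d) * q e * M b d e
      ≤ 1 / 2 * (u b ^ 2 * (x b d * p b d ^ 2 * (1 - x a d) * σ) * M b d e)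
        + 1 / 2 * (q e ^ 2 * (x b d * ((1 - x a d)⁻¹ * σ⁻¹)) * M b d e) := by
    intro b d e hD
    rcases eq_or_lt_of_le (x1 a d) with h | h
    · have h1 : x b d = 0 := by
        have := hx.two_le (a := d) (b := a) (d := b) hD.1.symm
        rw [hx.symm d a, hx.symm d b, h] at this
        exact le_antisymm (by linarith) (n0 b d)
      simp [h1]
    · have hw : 0 < 1 - x a d := by linarith
      have i1 : u b * p b d * q e
          ≤ 1 / 2 * (u b ^ 2 * (p b d ^ 2 * (1 - x a d) * σ))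
            + 1 / 2 * (q e ^ 2 * ((1 - x a d)⁻¹ * σ⁻¹)) := by
        refine am_two (mul_nonneg (sq_nonneg _) (mul_nonneg (mul_nonneg (sq_nonneg _) hw.le)
          hσ.le)) (mul_nonneg (sq_nonneg _) (mul_nonneg (inv_nonneg.2 hw.le) s0)) ?_
        refine le_of_eq ?_
        have h2 : (1 - x a d) * (1 - x a d)⁻¹ = 1 := mul_inv_cancel₀ hw.ne'
        have h3 : σ * σ⁻¹ = 1 := mul_inv_cancel₀ hσ.ne'
        calc (u b * p b d * q e) ^ 2
            = u b ^ 2 * p b d ^ 2 * q e ^ 2 * 1 * 1 := by ring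
          _ = u b ^ 2 * p b d ^ 2 * q e ^ 2 * ((1 - x a d) * (1 - x a d)⁻¹)
              * (σ * σ⁻¹) := by rw [h2, h3]
          _ = _ := by ring
      have := mul_le_mul_of_nonneg_left i1 (mul_nonneg (n0 b d) (M0 b d e))
      calc _ = x b d * M b d e * (u b * p b d * q e) := by ring
        _ ≤ _ := this
        _ = _ := by ring
  have step : ∑ b ∈ ({a} : Finset V)ᶜ, ∑ d ∈ ({a, b} : Finset V)ᶜ,
        ∑ e ∈ ({a, b, d} : Finset V)ᶜ, u b * (x b d * p b d) * q e * M b d e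
      ≤ 1 / 2 * (∑ b ∈ ({a} : Finset V)ᶜ, ∑ d ∈ ({a, b} : Finset V)ᶜ,
          ∑ e ∈ ({a, b, d} : Finset V)ᶜ,
            u b ^ 2 * (x b d * p b d ^ 2 * (1 - x a d) * σ) * M b d e)
        + 1 / 2 * (∑ b ∈ ({a} : Finset V)ᶜ, ∑ d ∈ ({a, b} : Finset V)ᶜ,
          ∑ e ∈ ({a, b, d} : Finset V)ᶜ,
            q e ^ 2 * (x b d * ((1 - x a d)⁻¹ * σ⁻¹)) * M b d e) := by
    simp only [Finset.mul_sum, ← Finset.sum_add_distrib]
    exact Finset.sum_le_sum fun b hb => Finset.sum_le_sum fun d hd =>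
      Finset.sum_le_sum fun e _ => am b d e (B39.mem2 hb hd)
  -- side I
  have e1 : ∑ b ∈ ({a} : Finset V)ᶜ, ∑ d ∈ ({a, b} : Finset V)ᶜ,
        ∑ e ∈ ({a, b, d} : Finset V)ᶜ,
            u b ^ 2 * (x b d * p b d ^ 2 * (1 - x a d) * σ) * M b d e
      ≤ ∑ b ∈ ({a} : Finset V)ᶜ, u b ^ 2 * ∑ d ∈ ({a, b} : Finset V)ᶜ,
          x b d * (σ * (p b d ^ 2 * (1 - x a d) * rI b d)) := by
    refine Finset.sum_le_sum fun b hb => ?_
    rw [Finset.mul_sum]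
    refine Finset.sum_le_sum fun d hd => ?_
    rw [← Finset.mul_sum]
    have hD := B39.mem2 hb hd
    calc _ = u b ^ 2 * x b d * σ * (p b d ^ 2 * (1 - x a d))
            * ∑ e ∈ ({a, b, d} : Finset V)ᶜ, M b d e := by ring
      _ ≤ u b ^ 2 * x b d * σ * (p b d ^ 2 * (1 - x a d)) * rI b d :=
          mul_le_mul_of_nonneg_left (hI b d hD) (mul_nonneg (mul_nonneg (mul_nonneg
            (sq_nonneg _) (n0 b d)) hσ.le) (mul_nonneg (sq_nonneg _) (sub_nonneg.2 (x1 a d))))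
      _ = _ := by ring
  -- side II
  have e2 : ∑ b ∈ ({a} : Finset V)ᶜ, ∑ d ∈ ({a, b} : Finset V)ᶜ,
        ∑ e ∈ ({a, b, d} : Finset V)ᶜ,
            q e ^ 2 * (x b d * ((1 - x a d)⁻¹ * σ⁻¹)) * M b d e
      ≤ ∑ e ∈ ({a} : Finset V)ᶜ, q e ^ 2 * (rE e / σ) := by
    rw [B39.swap3 a (fun b d e => q e ^ 2 * (x b d * ((1 - x a d)⁻¹ * σ⁻¹)) * M b d e)]
    refine Finset.sum_le_sum fun e he => ?_
    have hea := B39.mem1 he
    have qs : 0 ≤ q e ^ 2 * σ⁻¹ := mul_nonneg (sq_nonneg _) s0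
    have h2 : ∀ d ∈ ({a, e} : Finset V)ᶜ, ∑ b ∈ ({a, e, d} : Finset V)ᶜ,
          q e ^ 2 * (x b d * ((1 - x a d)⁻¹ * σ⁻¹)) * M b d e ≤ q e ^ 2 * σ⁻¹ * Ls d e := by
      intro d hd
      simp only [Finset.mem_compl, Finset.mem_insert, Finset.mem_singleton, not_or] at hd
      obtain ⟨hda, hde⟩ := hd
      have r1 : ∑ b ∈ ({a, e, d} : Finset V)ᶜ, x b d ≤ 1 - x a d := by
        have h4 := Finset.sum_add_sum_compl ({a, e, d} : Finset V) (fun b => x d b)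
        have h5 : x d a ≤ ∑ b ∈ ({a, e, d} : Finset V), x d b :=
          Finset.single_le_sum (f := fun b => x d b) (fun b _ => n0 d b) (by simp)
        have h6 := hx.row d
        have h7 : ∑ b ∈ ({a, e, d} : Finset V)ᶜ, x b d
            = ∑ b ∈ ({a, e, d} : Finset V)ᶜ, x d b :=
          Finset.sum_congr rfl fun b _ => hx.symm b d
        rw [h7, hx.symm a d]
        linarith
      have w0 : 0 ≤ (1 - x a d)⁻¹ := inv_nonneg.2 (sub_nonneg.2 (x1 a d))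
      have r2 : ∑ b ∈ ({a, e, d} : Finset V)ᶜ, x b d * (1 - x a d)⁻¹ ≤ 1 := by
        rw [← Finset.sum_mul]
        refine (mul_le_mul_of_nonneg_right r1 w0).trans ?_
        rcases eq_or_lt_of_le (x1 a d) with h | h
        · rw [h]; simp
        · rw [mul_inv_cancel₀ (by linarith)]
      calc ∑ b ∈ ({a, e, d} : Finset V)ᶜ, q e ^ 2 * (x b d * ((1 - x a d)⁻¹ * σ⁻¹)) * M b d e
          ≤ ∑ b ∈ ({a, e, d} : Finset V)ᶜ,
            q e ^ 2 * σ⁻¹ * Ls d e * (x b d * (1 - x a d)⁻¹) := by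
            refine Finset.sum_le_sum fun b hb => ?_
            simp only [Finset.mem_compl, Finset.mem_insert, Finset.mem_singleton, not_or] at hb
            have hm := hM b d e ⟨hb.1, hda, hb.2.2⟩ hea (Ne.symm hb.2.1) (Ne.symm hde)
            have c0 : 0 ≤ q e ^ 2 * (x b d * ((1 - x a d)⁻¹ * σ⁻¹)) :=
              mul_nonneg (sq_nonneg _) (mul_nonneg (n0 b d) (mul_nonneg w0 s0))
            refine (mul_le_mul_of_nonneg_left hm c0).trans (le_of_eq ?_)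
            ring
        _ = q e ^ 2 * σ⁻¹ * Ls d e * ∑ b ∈ ({a, e, d} : Finset V)ᶜ, x b d * (1 - x a d)⁻¹ := by
            rw [Finset.mul_sum]
        _ ≤ q e ^ 2 * σ⁻¹ * Ls d e * 1 :=
            mul_le_mul_of_nonneg_left r2 (mul_nonneg qs (Ls0 d e))
        _ = _ := mul_one _
    refine (Finset.sum_le_sum h2).trans ?_
    rw [← Finset.mul_sum]
    refine (mul_le_mul_of_nonneg_left (hII e hea) qs).trans (le_of_eq ?_)
    rw [div_eq_mul_inv]
    ring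
  refine step.trans ?_
  have j1 := mul_le_mul_of_nonneg_left e1 (show (0 : ℝ) ≤ 1 / 2 by norm_num)
  have j2 := mul_le_mul_of_nonneg_left e2 (show (0 : ℝ) ≤ 1 / 2 by norm_num)
  linarith

end Pool.Agent.RZ.RCM.Gr
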