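import Pool.Agent.RZ.RCO.J2d
import Pool.Agent.RZ.RCO.J2g

/-! The rate of the second type at fixed times: rows of the pairs and columns of the star,
small weights (MP_73ccd0_lc). -/

namespace Pool.Agent.RZ.RCM.Gr

open Finset

variable {V : Type*} [Fintype V] [DecidableEq V]

/-- common neighbours, small weights -/
theorem chi_small {y : V → V → ℝ} (hy : Wg y) {X : ℝ} (hX : ∀ a b, y a b ≤ X) {a b : V}
    (hab : a ≠ b) : chi y a b ≤ X * (1 - y a b) := by
  have h1 : chi y a b ≤ ∑ e ∈ ({a, b} : Finset V)ᶜ, X * y b e := by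
    refine Finset.sum_le_sum fun e _ => ?_
    rw [mul_comm X]
    exact mul_le_mul_of_nonneg_left (hX a e) (hy.nn b e)
  refine h1.trans ?_
  rw [← Finset.mul_sum]
  exact mul_le_mul_of_nonneg_left (hy.row2 hab) ((hy.nn a b).trans (hX a b))

/-- the mass factor, small weights -/
theorem mfac_small {y : V → V → ℝ} (hy : Wg y) {X t : ℝ} (hX : ∀ a b, y a b ≤ X) {a b : V}
    (hab : a ≠ b) (ht : 0 ≤ t) : mfac y t a b ≤ (1 - y a b) * (1 + X * t) := by
  have h := mul_le_mul_of_nonneg_left (chi_small hy hX hab) ht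
  unfold mfac
  linarith

end Pool.Agent.RZ.RCM.Gr

namespace Pool.Agent.RZ.RCN.K

open Set Finset MeasureTheory Pool.Agent.RZ.RCRSHalf Pool.Agent.RZ.RCG Pool.Agent.RZ.RCG.Ct
open Pool.Agent.RZ.RCN.Ker Pool.Agent.RZ.RCRS Pool.Agent.RZ.RCM

set_option linter.unusedSectionVars false

variable {V : Type*} [Fintype V] [DecidableEq V]
variable {x : V → V → ℝ} {P : V → Prop} [DecidablePred P] {k : Kf} {N : ℕ}
variable {κd : ℝ → ℝ → ℝ → ℝ} {R : V → V → V → ℝ → ℝ → ℝ} {L Lt : V → V → V → V → ℝ → ℝ → ℝ}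
variable {t s : ℝ} {a : V} {g : V → V → ℝ} {Af Hf : ℝ → ℝ}

/-- the rows of the worlds `{b, a}` and the star majorant at the times `t`, `s` -/
structure LbS (x : V → V → ℝ) (P : V → Prop) [DecidablePred P]
    (L Lt : V → V → V → V → ℝ → ℝ → ℝ) (a : V) (t s : ℝ)
    (rL rF : V → V → ℝ) (Ls Lf : V → V → ℝ) (cL cF : V → ℝ) : Prop where
  L0 : ∀ b d e, 0 ≤ L b a d e t s
  F0 : ∀ b d e, 0 ≤ Lt b a d e t s
  pend : ∀ b d e, ¬P e → x a e ≠ 0 → L b a d e t s = 0 ∧ Lt b a d e t s = 0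
  rL : ∀ b d, P b → P d → Gr.D3 a b d →
    ∑ e ∈ ({a, b, d} : Finset V)ᶜ, (if P e then L b a d e t s else 0) ≤ rL b d
  rF : ∀ b d, P b → P d → Gr.D3 a b d →
    ∑ e ∈ ({a, b, d} : Finset V)ᶜ, (if P e then Lt b a d e t s else 0) ≤ rF b d
  nL : ∀ d e, 0 ≤ Ls d e
  nF : ∀ d e, 0 ≤ Lf d e
  sL : ∀ b d e, P b → P d → P e → Gr.D3 a b d → e ≠ a → e ≠ b → e ≠ d →
    L b a d e t s ≤ Ls d e
  sF : ∀ b d e, P b → P d → P e → Gr.D3 a b d → e ≠ a → e ≠ b → e ≠ d →
    Lt b a d e t s ≤ Lf d e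
  cL : ∀ e, P e → e ≠ a → ∑ d ∈ ({a, e} : Finset V)ᶜ, (if P d then Ls d e else 0) ≤ cL e
  cF : ∀ e, P e → e ≠ a → ∑ d ∈ ({a, e} : Finset V)ᶜ, (if P d then Lf d e else 0) ≤ cF e

variable {rL rF Ls Lf : V → V → ℝ} {cL cF : V → ℝ}

/-- one half of the rate: rows of the worlds, columns of the star -/
theorem halfS (hx : Wt x P 1) {M : V → V → V → ℝ} {u q : V → ℝ} {ρ : V → V → ℝ} {Mf : V → V → ℝ}
    {c : V → ℝ} {σ : ℝ} (hσ : 0 ≤ σ) (hq0 : σ = 0 → ∀ e, q e = 0) (M0 : ∀ b d e, 0 ≤ M b d e) (Mz : ∀ b d e, ¬P b → M b d e = 0)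
    (Mz1 : ∀ b d e, ¬P d → M b d e = 0) (Mz2 : ∀ b d e, ¬P e → M b d e = 0)
    (hr : ∀ b d, P b → P d → Gr.D3 a b d → ∑ e ∈ ({a, b, d} : Finset V)ᶜ, M b d e ≤ ρ b d)
    (f0 : ∀ d e, 0 ≤ Mf d e)
    (hM : ∀ b d e, P b → P d → P e → Gr.D3 a b d → e ≠ a → e ≠ b → e ≠ d → M b d e ≤ Mf d e)
    (hc : ∀ e, P e → e ≠ a → ∑ d ∈ ({a, e} : Finset V)ᶜ, (if P d then Mf d e else 0) ≤ c e)
    (qz : ∀ e, ¬P e → q e = 0) :
    ∑ b ∈ ({a} : Finset V)ᶜ, ∑ d ∈ ({a, b} : Finset V)ᶜ, ∑ e ∈ ({a, b, d} : Finset V)ᶜ,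
        u b * (xr x P b d * g b d) * q e * M b d e
      ≤ 1 / 2 * ∑ b ∈ ({a} : Finset V)ᶜ, u b ^ 2 * ∑ d ∈ ({a, b} : Finset V)ᶜ,
          xr x P b d * (σ * (g b d ^ 2 * (1 - xr x P a d) * ρ b d))
        + 1 / 2 * ∑ e ∈ ({a} : Finset V)ᶜ, q e ^ 2 * (c e / σ) := by
  have hw := wg_xr hx
  have h := Gr.starJ hw (a := a) (u := u) (q := q) (p := g) (M := M)
    (rI := fun b d => if P b ∧ P d then ρ b d else 0)
    (Ls := fun d e => if P d ∧ P e then Mf d e else 0)
    (rE := fun e => if P e then c e else 0) (σ := σ) M0 hσ hq0 (fun b d hD => ?_) (fun d e => ?_)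
    (fun b d e hD h1 h2 h3 => ?_) (fun e he => ?_)
  · refine h.trans (add_le_add (mul_le_mul_of_nonneg_left ?_ (by norm_num))
      (mul_le_mul_of_nonneg_left ?_ (by norm_num)))
    · refine Finset.sum_le_sum fun b hb => mul_le_mul_of_nonneg_left ?_ (sq_nonneg _)
      refine Finset.sum_le_sum fun d hd => ?_
      by_cases hP : P b ∧ P d
      · simp only [if_pos hP]
        exact le_rfl
      · have : xr x P b d = 0 := by unfold xr; rw [if_neg hP]
        rw [this, zero_mul, zero_mul]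
    · refine Finset.sum_le_sum fun e he => ?_
      by_cases hP : P e
      · simp only [if_pos hP]
        exact le_rfl
      · rw [qz e hP]
        simp
  · by_cases hP : P b ∧ P d
    · simp only [if_pos hP]
      exact hr b d hP.1 hP.2 hD
    · simp only [if_neg hP]
      refine le_of_eq (Finset.sum_eq_zero fun e _ => ?_)
      by_cases hb : P b
      · exact Mz1 b d e fun hd => hP ⟨hb, hd⟩
      · exact Mz b d e hb
  · split_ifs
    · exact f0 d e
    · exact le_rfl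
  · by_cases hb : P b
    · by_cases hd : P d
      · by_cases he : P e
        · simp only [if_pos (⟨hd, he⟩ : P d ∧ P e)]
          exact hM b d e hb hd he hD h1 h2 h3
        · rw [Mz2 b d e he]
          simp [he]
      · rw [Mz1 b d e hd]
        simp [hd]
    · rw [Mz b d e hb]
      split_ifs
      · exact f0 d e
      · exact le_rfl
  · by_cases hP : P e
    · simp only [if_pos hP]
      refine le_trans (le_of_eq ?_) (hc e hP he)
      exact Finset.sum_congr rfl fun d _ => by simp [hP]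
    · simp only [if_neg hP]
      refine le_of_eq (Finset.sum_eq_zero fun d _ => ?_)
      simp [hP]

/-- **the rate of the second type at fixed times**, small weights -/
theorem rateS (hx : Wt x P 1) (ha : P a) (ht : t ∈ Icc (0 : ℝ) 1) {X : ℝ}
    (hX : ∀ b e, xr x P b e ≤ X)
    (hR : RtJ x P k κd R a t s Af Hf 0 1) (hL : LbS x P L Lt a t s rL rF Ls Lf cL cF)
    (g0 : ∀ b d, 0 ≤ g b d) {σA σH : ℝ} (hA : 0 ≤ σA) (hH : 0 ≤ σH)
    (hA0 : σA = 0 → ∀ v ∈ Icc (0 : ℝ) 1, Af v = 0) (hH0 : σH = 0 → ∀ v ∈ Icc (0 : ℝ) 1, Hf v = 0)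
    {T : V → V → ℝ} {C : V → ℝ}
    (h1 : ∀ b d, P b → P d → Gr.D3 a b d → 1 / 2 * ((1 + X * t) ^ 2 * (1 + xr x P a b * t) ^ 2
        * (g b d ^ 2 * (1 - xr x P a d))
        * (σA * rL b d + (1 - xr x P a b) ^ 2 * (σH * rF b d))) ≤ T b d)
    (h2 : ∀ b, P b → b ≠ a → 1 / 2 * (Af (xr x P a b) ^ 2 * (cL b / σA)
      + Hf (xr x P a b) ^ 2 * (cF b / σH)) ≤ C b) :
    ∑ b ∈ ({a} : Finset V)ᶜ, ∑ d ∈ ({a, b} : Finset V)ᶜ, xr x P a b * (xr x P b d * g b d)
        * ∑ e ∈ ({a, b, d} : Finset V)ᶜ, (flx x P k κd b a e t s * L b a d e t s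
          + mua x P k κd b a t s * (R b a e t s * Lt b a d e t s))
      ≤ ∑ b ∈ ({a} : Finset V)ᶜ, xr x P a b ^ 2 * (∑ d ∈ ({a, b} : Finset V)ᶜ,
          xr x P b d * T b d + C b) := by
  have hw := wg_xr hx
  have n0 := hw.nn
  have u1 := hw.le_one
  have X0 : 0 ≤ X := (n0 a a).trans (hX a a)
  have Xt : 0 ≤ X * t := mul_nonneg X0 ht.1
  have hv : ∀ e, xr x P a e ∈ Icc (0 : ℝ) 1 := fun e => ⟨n0 a e, u1 a e⟩
  have nA := fun e => hR.A0 _ (hv e)
  have nH := fun e => hR.H0 _ (hv e)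
  have nt : ∀ b c, 0 ≤ 1 + xr x P b c * t := fun b c => by
    have := mul_nonneg (n0 b c) ht.1; linarith
  set MA : V → V → V → ℝ := fun b d e => if P b ∧ P d ∧ P e then L b a d e t s else 0 with hMA
  set MH : V → V → V → ℝ := fun b d e => if P b ∧ P d ∧ P e then Lt b a d e t s else 0 with hMH
  have MA0 : ∀ b d e, 0 ≤ MA b d e := fun b d e => by
    rw [hMA]; beta_reduce
    split_ifs
    · exact hL.L0 b d e
    · exact le_rfl
  have MH0 : ∀ b d e, 0 ≤ MH b d e := fun b d e => by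
    rw [hMH]; beta_reduce
    split_ifs
    · exact hL.F0 b d e
    · exact le_rfl
  have hJ : LbJ x P L Lt a t s (fun _ _ _ => 0) MA MH 0 :=
    { δ0 := le_rfl
      pend := hL.pend
      F0 := fun _ _ _ => le_rfl
      rd0 := MA0
      rt0 := MH0
      l := fun b d e hb hd he _ _ => by
        simp only [hMA, if_pos (⟨hb, hd, he⟩ : P b ∧ P d ∧ P e), zero_add, le_refl]
      lt := fun b d e hb hd he _ _ => by
        simp only [hMH, if_pos (⟨hb, hd, he⟩ : P b ∧ P d ∧ P e), zero_add, mul_zero, add_zero,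
          le_refl] }
  -- the two parts
  have pA := halfS (a := a) (g := g) hx (M := MA)
    (u := fun b => xr x P a b * ((1 + xr x P a b * t) * (1 + X * t)))
    (q := fun e => xr x P a e * Af (xr x P a e)) (ρ := rL) (Mf := Ls) (c := cL) hA
    (fun h e => by beta_reduce; rw [hA0 h _ (hv e), mul_zero]) MA0
    (fun b d e hb => by simp only [hMA]; rw [if_neg fun h => hb h.1])
    (fun b d e hd => by simp only [hMA]; rw [if_neg fun h => hd h.2.1])
    (fun b d e he => by simp only [hMA]; rw [if_neg fun h => he h.2.2])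
    (fun b d hb hd hD => by
      refine le_trans (le_of_eq ?_) (hL.rL b d hb hd hD)
      exact Finset.sum_congr rfl fun e _ => by simp [hMA, hb, hd])
    hL.nL (fun b d e hb hd he hD e1 e2 e3 => by
      simp only [hMA, if_pos (⟨hb, hd, he⟩ : P b ∧ P d ∧ P e)]
      exact hL.sL b d e hb hd he hD e1 e2 e3) hL.cL
    (fun e he => by
      have : xr x P a e = 0 := by unfold xr; rw [if_neg fun h => he h.2]
      beta_reduce
      rw [this, zero_mul])
  have pH := halfS (a := a) (g := g) hx (M := MH)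
    (u := fun b => xr x P a b * ((1 + xr x P a b * t) * ((1 - xr x P a b) * (1 + X * t))))
    (q := fun e => xr x P a e * Hf (xr x P a e)) (ρ := rF) (Mf := Lf) (c := cF) hH
    (fun h e => by beta_reduce; rw [hH0 h _ (hv e), mul_zero]) MH0
    (fun b d e hb => by simp only [hMH]; rw [if_neg fun h => hb h.1])
    (fun b d e hd => by simp only [hMH]; rw [if_neg fun h => hd h.2.1])
    (fun b d e he => by simp only [hMH]; rw [if_neg fun h => he h.2.2])
    (fun b d hb hd hD => by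
      refine le_trans (le_of_eq ?_) (hL.rF b d hb hd hD)
      exact Finset.sum_congr rfl fun e _ => by simp [hMH, hb, hd])
    hL.nF (fun b d e hb hd he hD e1 e2 e3 => by
      simp only [hMH, if_pos (⟨hb, hd, he⟩ : P b ∧ P d ∧ P e)]
      exact hL.sF b d e hb hd he hD e1 e2 e3) hL.cF
    (fun e he => by
      have : xr x P a e = 0 := by unfold xr; rw [if_neg fun h => he h.2]
      beta_reduce
      rw [this, zero_mul])
  -- pointwise
  have step : ∑ b ∈ ({a} : Finset V)ᶜ, ∑ d ∈ ({a, b} : Finset V)ᶜ,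
        xr x P a b * (xr x P b d * g b d)
        * ∑ e ∈ ({a, b, d} : Finset V)ᶜ, (flx x P k κd b a e t s * L b a d e t s
          + mua x P k κd b a t s * (R b a e t s * Lt b a d e t s))
      ≤ (∑ b ∈ ({a} : Finset V)ᶜ, ∑ d ∈ ({a, b} : Finset V)ᶜ, ∑ e ∈ ({a, b, d} : Finset V)ᶜ,
          (xr x P a b * ((1 + xr x P a b * t) * (1 + X * t))) * (xr x P b d * g b d)
          * (xr x P a e * Af (xr x P a e)) * MA b d e)
        + ∑ b ∈ ({a} : Finset V)ᶜ, ∑ d ∈ ({a, b} : Finset V)ᶜ, ∑ e ∈ ({a, b, d} : Finset V)ᶜ,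
          (xr x P a b * ((1 + xr x P a b * t) * ((1 - xr x P a b) * (1 + X * t))))
          * (xr x P b d * g b d) * (xr x P a e * Hf (xr x P a e)) * MH b d e := by
    simp only [Finset.mul_sum, ← Finset.sum_add_distrib]
    refine Finset.sum_le_sum fun b hb => Finset.sum_le_sum fun d hd =>
      Finset.sum_le_sum fun e he => ?_
    have hD := Gr.B39.mem2 hb hd
    refine (term_leJ hx ha ht hR hJ g0 hD he).trans ?_
    have gg : 0 ≤ xr x P b d * g b d := mul_nonneg (n0 b d) (g0 b d)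
    have a1 : (1 + xr x P b e * t) ≤ 1 + X * t := by
      have := mul_le_mul_of_nonneg_right (hX b e) ht.1
      linarith
    have a2 : Gr.mfac (xr x P) t a b ≤ (1 - xr x P a b) * (1 + X * t) :=
      Gr.mfac_small hw hX (Ne.symm hD.1) ht.1
    have c1 : 0 ≤ xr x P a b * (1 + xr x P a b * t) * (xr x P b d * g b d)
        * (xr x P a e * Af (xr x P a e)) * MA b d e :=
      mul_nonneg (mul_nonneg (mul_nonneg (mul_nonneg (n0 a b) (nt a b)) gg)
        (mul_nonneg (n0 a e) (nA e))) (MA0 b d e)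
    have c2 : 0 ≤ xr x P a b * (1 + xr x P a b * t) * (xr x P b d * g b d)
        * (xr x P a e * Hf (xr x P a e)) * MH b d e :=
      mul_nonneg (mul_nonneg (mul_nonneg (mul_nonneg (n0 a b) (nt a b)) gg)
        (mul_nonneg (n0 a e) (nH e))) (MH0 b d e)
    have d1 := mul_le_mul_of_nonneg_left a1 c1
    have d2 := mul_le_mul_of_nonneg_left a2 c2
    linarith
  refine step.trans ((add_le_add pA pH).trans ?_)
  have fin : ∀ b ∈ ({a} : Finset V)ᶜ,
      1 / 2 * ((xr x P a b * ((1 + xr x P a b * t) * (1 + X * t))) ^ 2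
          * ∑ d ∈ ({a, b} : Finset V)ᶜ,
            xr x P b d * (σA * (g b d ^ 2 * (1 - xr x P a d) * rL b d)))
        + 1 / 2 * ((xr x P a b * Af (xr x P a b)) ^ 2 * (cL b / σA))
        + 1 / 2 * ((xr x P a b * ((1 + xr x P a b * t) * ((1 - xr x P a b) * (1 + X * t)))) ^ 2
          * ∑ d ∈ ({a, b} : Finset V)ᶜ,
            xr x P b d * (σH * (g b d ^ 2 * (1 - xr x P a d) * rF b d)))
        + 1 / 2 * ((xr x P a b * Hf (xr x P a b)) ^ 2 * (cF b / σH))
      ≤ xr x P a b ^ 2 * (∑ d ∈ ({a, b} : Finset V)ᶜ, xr x P b d * T b d + C b) := by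
    intro b hb
    have hba := Gr.B39.mem1 hb
    by_cases hPb : P b
    swap
    · have : xr x P a b = 0 := by unfold xr; rw [if_neg fun h => hPb h.2]
      rw [this]
      simp
    have t1 : ∑ d ∈ ({a, b} : Finset V)ᶜ, xr x P b d * (1 / 2 * ((1 + X * t) ^ 2
          * (1 + xr x P a b * t) ^ 2 * (g b d ^ 2 * (1 - xr x P a d))
          * (σA * rL b d + (1 - xr x P a b) ^ 2 * (σH * rF b d))))
        ≤ ∑ d ∈ ({a, b} : Finset V)ᶜ, xr x P b d * T b d := by
      refine Finset.sum_le_sum fun d hd => ?_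
      by_cases hd' : P d
      · exact mul_le_mul_of_nonneg_left (h1 b d hPb hd' (Gr.B39.mem2 hb hd)) (n0 b d)
      · have : xr x P b d = 0 := by unfold xr; rw [if_neg fun h => hd' h.2]
        rw [this, zero_mul, zero_mul]
    have t3 := mul_le_mul_of_nonneg_left (add_le_add t1 (h2 b hPb hba)) (sq_nonneg (xr x P a b))
    refine le_trans (le_of_eq ?_) t3
    have e1 : ∑ d ∈ ({a, b} : Finset V)ᶜ, xr x P b d * (1 / 2 * ((1 + X * t) ^ 2
          * (1 + xr x P a b * t) ^ 2 * (g b d ^ 2 * (1 - xr x P a d))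
          * (σA * rL b d + (1 - xr x P a b) ^ 2 * (σH * rF b d))))
        = 1 / 2 * ((1 + X * t) ^ 2 * (1 + xr x P a b * t) ^ 2)
            * ∑ d ∈ ({a, b} : Finset V)ᶜ,
              xr x P b d * (σA * (g b d ^ 2 * (1 - xr x P a d) * rL b d))
          + 1 / 2 * ((1 + X * t) ^ 2 * (1 + xr x P a b * t) ^ 2 * (1 - xr x P a b) ^ 2)
            * ∑ d ∈ ({a, b} : Finset V)ᶜ,
              xr x P b d * (σH * (g b d ^ 2 * (1 - xr x P a d) * rF b d)) := by
      simp only [Finset.mul_sum, ← Finset.sum_add_distrib]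
      exact Finset.sum_congr rfl fun d _ => by ring
    rw [e1]
    ring
  have fin' := Finset.sum_le_sum fin
  simp only [Finset.sum_add_distrib, ← Finset.mul_sum] at fin' ⊢
  linarith

end Pool.Agent.RZ.RCN.K
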