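import Pool.Agent.RZ.RCO.T1ZH_2
import Pool.Agent.RZ.RCO.T1e

/-! The first part of the inequality of the centres on a cell of the time
(MP_73ccd0_lc). -/

namespace Pool.Agent.RZ.RCN.K

open Set Finset MeasureTheory Pool.Agent.RZ.RCRSHalf Pool.Agent.RZ.RCG Pool.Agent.RZ.RCG.Ct
open Pool.Agent.RZ.RCN.Ker Pool.Agent.RZ.RCRS Pool.Agent.RZ.RCM.Jen Pool.Agent.RZ.RCO.RT

set_option linter.unusedSectionVars false
set_option linter.unusedVariables false

section

variable {c : Cq} {k : Kf} {κd : ℝ → ℝ → ℝ → ℝ} {rr : ℝ → ℝ → ℝ} {R : Tab} {m : ℕ} {t : ℝ}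

/-- the errors of a triple at the time `t` -/
noncomputable def Cq.Y0 (c : Cq) (k : Kf) (R : Tab) (m : ℕ) (t : ℝ) (u y z : ℝ) : ℝ :=
  W0h k t t (fun y z => c.S t * ((1 + c.T1 * y) * c.A z (y + z)))
    (fun y z => c.S t * c.B z (y + z)) (c.k0 t) (c.Fs t) (c.ρz t)
    (rv R kRL m t) (rv R kCL m t) (rv R kRF m t) (rv R kCF m t) (c.θ t) (fun _ => c.thh)
    (c.qa * c.th / c.φ) c.qb (fun y z => c.S t * c.HA (y + z)) (fun y z => c.S t * c.HB (y + z))
    (fun y z => c.S t * (c.φ * (c.K1 (y + z) / c.th))) (fun y z => c.S t * c.RB (y + z))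
    (fun _ _ z => c.v z) (fun u y z => c.r z (u + y)) u y z

/-- the part of the common neighbours at the time `t` -/
noncomputable def Cq.Y1 (c : Cq) (R : Tab) (m : ℕ) (t : ℝ) (u y z : ℝ) : ℝ :=
  W1h t t (fun y z => c.S t * c.B z (y + z)) (c.Fs t) (c.ρz t)
    (rv R kRF m t) (rv R kCF m t) (fun _ => c.thh)
    c.qb (fun y z => c.S t * c.HA (y + z)) (fun y z => c.S t * c.HB (y + z))
    (fun y z => c.S t * c.RB (y + z))
    (fun _ _ z => c.v z) (fun u y z => c.r z (u + y)) u y z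

theorem Dm.mem {u y z : ℝ} (h : Dm u y z) : u ∈ Icc (0 : ℝ) 1 ∧ y ∈ Icc (0 : ℝ) 1
    ∧ z ∈ Icc (0 : ℝ) 1 ∧ y + z ∈ Icc (0 : ℝ) 1 := by
  obtain ⟨u0, y0, z0, h1, h2, h3⟩ := h
  exact ⟨⟨u0, by linarith⟩, ⟨y0, by linarith⟩, ⟨z0, by linarith⟩, ⟨by linarith, h3⟩⟩

/-- the quadratic bound -/
theorem Cq.It.bd (h : c.Nn) (hI : c.It R m) (hF : c.Fr k κd rr) (hk : Kc k κd t)
    (ht : t ∈ Icc c.T0 c.T1) {u y z M Mb : ℝ} (hd : Dm u y z) (M0 : 0 ≤ M) (Mb0 : 0 ≤ Mb) :
    ∫ s in (0 : ℝ)..t, Bd3 k t (c.k0 t) (c.Fs t) (c.ρz t z) (rv R kRL m t) (rv R kCL m t)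
        (rv R kRF m t) (rv R kCF m t) (c.θ t s) c.thh u M Mb y z y z (c.v z) z s
      ≤ z * c.S t * (((1 + t * u) * (c.K1 (y + z) * c.vz z
          + c.K2 z (y + z) * (z * (1 + t * y) ^ 2))
        + (c.K3 (y + z) * (c.vz z * M) + c.K4 z (y + z) * (z * Mb))) / 2) := by
  obtain ⟨hu, hy, hz, hK⟩ := hd.mem
  have t0 := hk.t01.1
  have hv : c.v z ^ 2 = z * c.vz z := (h.z_vz hz.1).symm
  have u1 : 0 ≤ 1 + t * u := by have := mul_nonneg t0 hu.1; linarith
  have y1 : 0 ≤ 1 + t * y := by have := mul_nonneg t0 hy.1; linarith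
  have thp := h.th
  have thhp := h.thh
  -- the pointwise bound
  set P2 : ℝ → ℝ := fun s => plx 10 (fun l => lp z (c.f0 l ^ 2 / c.f0 l)
        (c.f1 l ^ 2 / c.f0 l) (c.f2 l ^ 2 / c.f0 l)) (s / t) with hP2
  have cP2 : Continuous P2 := plx_div_cont 10 _ t
  set a1 : ℝ := (1 + t * u) * c.v z ^ 2 / 2 with ha1
  set a2 : ℝ := (1 + t * u) * (z * (1 + t * y)) ^ 2 / (2 * c.th) with ha2
  have a1n : 0 ≤ a1 := by positivity
  have a2n : 0 ≤ a2 := by positivity
  have cθ := (c.θ_cont t).continuousOn (s := Icc 0 t)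
  have cB : ContinuousOn (fun s => Bd3 k t (c.k0 t) (c.Fs t) (c.ρz t z) (rv R kRL m t)
      (rv R kCL m t) (rv R kRF m t) (rv R kCF m t) (c.θ t s) c.thh u M Mb y z y z (c.v z) z s)
      (Icc 0 t) := by
    have c1 := hk.f hz
    have c4 := (c.k0_cont t).continuousOn (s := Icc 0 t)
    have c5 := (c.Fs_cont t).continuousOn (s := Icc 0 t)
    have c6 := (c.ρz_cont t z).continuousOn (s := Icc 0 t)
    have j1 := rv_cont R kRL m t y z (S := Icc 0 t)
    have j2 := rv_cont R kCL m t y z (S := Icc 0 t)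
    have j3 := rv_cont R kRF m t y z (S := Icc 0 t)
    have j4 := rv_cont R kCF m t y z (S := Icc 0 t)
    have ci : ContinuousOn (fun s => (c.θ t s)⁻¹) (Icc 0 t) :=
      cθ.inv₀ fun s hs => (h.θ_pos hs).ne'
    exact ((((c4.mul continuousOn_const).mul (((cθ.mul
        continuousOn_const).mul j1).add ((ci.mul ((continuousOn_const.mul c1).pow 2)).mul
        j2))).add (c5.mul (((continuousOn_const (c := c.thh * c.v z ^ 2 * M)).mul j3).add
        (((continuousOn_const.mul ((continuousOn_const.mul c6).pow 2)).mul continuousOn_const).mul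
        j4)))).div_const 2)
  have cb : Continuous fun s => c.Fs t s * (c.thh * c.v z ^ 2 * M * rv R kRF m t y z s
        + c.thh⁻¹ * (z * c.ρz t z s) ^ 2 * Mb * rv R kCF m t y z s) / 2 := by
    have e3 : Continuous (rv R kRF m t y z) := R.val_cont kRF m t (y + z)
    have e4 : Continuous (rv R kCF m t y z) := R.val_cont kCF m t (y + z)
    exact ((c.Fs_cont t).mul ((continuous_const.mul e3).add
      (((continuous_const.mul ((continuous_const.mul (c.ρz_cont t z)).pow 2)).mul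
      continuous_const).mul e4))).div_const 2
  have c1 : Continuous fun s => c.k0 t s * plx 10 c.f0 (s / t) * R.val kRL m t s (y + z) :=
    ((c.k0_cont t).mul (plx_div_cont 10 c.f0 t)).mul (R.val_cont kRL m t (y + z))
  have c2 : Continuous fun s => c.k0 t s * P2 s * R.val kCL m t s (y + z) :=
    ((c.k0_cont t).mul cP2).mul (R.val_cont kCL m t (y + z))
  have i00 : (0 : ℝ) ∈ Icc 0 t := ⟨le_rfl, t0⟩
  have itt : t ∈ Icc 0 t := ⟨t0, le_rfl⟩
  have key : ∫ s in (0 : ℝ)..t, Bd3 k t (c.k0 t) (c.Fs t) (c.ρz t z) (rv R kRL m t)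
        (rv R kCL m t) (rv R kRF m t) (rv R kCF m t) (c.θ t s) c.thh u M Mb y z y z (c.v z) z s
      ≤ ∫ s in (0 : ℝ)..t, (a1 * c.th * (c.k0 t s * plx 10 c.f0 (s / t)
            * R.val kRL m t s (y + z))
          + a2 * (c.k0 t s * P2 s * R.val kCL m t s (y + z)))
        + c.Fs t s * (c.thh * c.v z ^ 2 * M * rv R kRF m t y z s
        + c.thh⁻¹ * (z * c.ρz t z s) ^ 2 * Mb * rv R kCF m t y z s) / 2 := by
    refine intervalIntegral.integral_mono_on t0 (ii_of t0 cB i00 itt)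
      ((((continuous_const.mul c1).add (continuous_const.mul c2)).add cb).intervalIntegrable _ _)
      fun s hs => ?_
    have k0 := h.k0_nonneg (t := t) s
    have v2 : 0 ≤ R.val kCL m t s (y + z) := R.val_nonneg _ _ _ _ hK.1 hK.2
    have sq := hF.sq h hk ht hs hz
    have f0p : 0 < plx 10 c.f0 (s / t) := by
      have := div_mem01 hs
      exact plx_pos (by norm_num) h.f0 this.1 this.2
    have e1 : (c.θ t s)⁻¹ * (z * (1 + t * y) * k.fh z s) ^ 2
        = (z * (1 + t * y)) ^ 2 / c.th * (k.fh z s ^ 2 / plx 10 c.f0 (s / t)) := by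
      unfold Cq.θ
      field_simp
    have e2 : (c.θ t s)⁻¹ * (z * (1 + t * y) * k.fh z s) ^ 2
        ≤ (z * (1 + t * y)) ^ 2 / c.th * P2 s := by
      rw [e1]
      exact mul_le_mul_of_nonneg_left sq (by positivity)
    have e3 := mul_le_mul_of_nonneg_left (mul_le_mul_of_nonneg_right e2 v2)
      (mul_nonneg k0 u1)
    have e4 : c.k0 t s * (1 + t * u) * ((z * (1 + t * y)) ^ 2 / c.th * P2 s
        * R.val kCL m t s (y + z)) = 2 * (a2 * (c.k0 t s * P2 s * R.val kCL m t s (y + z))) := by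
      rw [ha2]
      field_simp
    rw [e4] at e3
    have e5 : c.k0 t s * (1 + t * u) * (c.θ t s * c.v z ^ 2 * R.val kRL m t s (y + z))
        = 2 * (a1 * c.th * (c.k0 t s * plx 10 c.f0 (s / t) * R.val kRL m t s (y + z))) := by
      rw [ha1]
      unfold Cq.θ
      ring
    show (c.k0 t s * (1 + t * u) * (c.θ t s * c.v z ^ 2 * R.val kRL m t s (y + z)
      + (c.θ t s)⁻¹ * (z * (1 + t * y) * k.fh z s) ^ 2 * R.val kCL m t s (y + z))
      + c.Fs t s * (c.thh * c.v z ^ 2 * M * rv R kRF m t y z s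
        + c.thh⁻¹ * (z * c.ρz t z s) ^ 2 * Mb * rv R kCF m t y z s)) / 2 ≤ _
    rw [mul_add (c.k0 t s * (1 + t * u)), e5]
    linarith
  refine key.trans ?_
  have hadd := intervalIntegral.integral_add (μ := volume) (a := 0) (b := t)
    (f := fun s => a1 * c.th * (c.k0 t s * plx 10 c.f0 (s / t) * R.val kRL m t s (y + z))
          + a2 * (c.k0 t s * P2 s * R.val kCL m t s (y + z)))
    (g := fun s => c.Fs t s * (c.thh * c.v z ^ 2 * M * rv R kRF m t y z s
        + c.thh⁻¹ * (z * c.ρz t z s) ^ 2 * Mb * rv R kCF m t y z s) / 2)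
    (((continuous_const.mul c1).add (continuous_const.mul c2)).intervalIntegrable _ _)
    (cb.intervalIntegrable _ _)
  have hadd2 := intervalIntegral.integral_add (μ := volume) (a := 0) (b := t)
    (f := fun s => a1 * c.th * (c.k0 t s * plx 10 c.f0 (s / t) * R.val kRL m t s (y + z)))
    (g := fun s => a2 * (c.k0 t s * P2 s * R.val kCL m t s (y + z)))
    ((continuous_const.mul c1).intervalIntegrable _ _)
    ((continuous_const.mul c2).intervalIntegrable _ _)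
  rw [hadd, hadd2, intervalIntegral.integral_const_mul, intervalIntegral.integral_const_mul]
  have q1 := mul_le_mul_of_nonneg_left (hI.p1 h hk hK) a1n
  have q2 := mul_le_mul_of_nonneg_left (hI.p2 h hk hK hz) a2n
  have q3 := hI.be h hk ht hy.1 hz.1 hK.2 hv M0 Mb0
  have e6 : a1 * (c.S t * c.K1 (y + z)) = z * c.S t * ((1 + t * u)
      * (c.K1 (y + z) * c.vz z)) / 2 := by
    rw [ha1, hv]; ring
  have e7 : a2 * (c.S t * (c.th * c.K2 z (y + z))) = z * c.S t * ((1 + t * u)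
      * (c.K2 z (y + z) * (z * (1 + t * y) ^ 2))) / 2 := by
    rw [ha2]
    field_simp
  rw [e6] at q1
  rw [e7] at q2
  have q1' : a1 * c.th * ∫ s in (0 : ℝ)..t, c.k0 t s * plx 10 c.f0 (s / t)
      * R.val kRL m t s (y + z) ≤ z * c.S t * ((1 + t * u) * (c.K1 (y + z) * c.vz z)) / 2 := by
    rw [mul_assoc]
    exact q1
  linarith

/-- the linear error over `S` -/
theorem Cq.hh_nonneg (h : c.Nn) {u y z : ℝ} (hd : Dm u y z) : 0 ≤ c.hh u y z := by
  obtain ⟨hu, hy, hz, hK⟩ := hd.mem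
  have := h.HA _ hK
  have := h.HB _ hK
  have := h.RB _ hK
  have := h.qb
  have nuz : 0 ≤ 1 - u - z := by linarith [hd.2.2.2.2.1]
  unfold Cq.hh
  positivity

theorem Cq.It.y0 (h : c.Nn) (hI : c.It R m) (hF : c.Fr k κd rr) (hX : c.Bx) (hk : Kc k κd t)
    (ht : t ∈ Icc c.T0 c.T1) {u y z : ℝ} (hde : De c.em u y z) :
    c.Y0 k R m t u y z ≤ z * (c.S t * c.W0 u y z) := by
  have hd := hde.1
  obtain ⟨hu, hy, hz, hK⟩ := hd.mem
  obtain ⟨d1, d2, d3, d4, d5, d6⟩ := id hd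
  have t0 := hk.t01.1
  have T10 : 0 ≤ c.T1 := h.T0.trans h.T01
  have S0 := h.S_nonneg t0
  have hS := mul_nonneg d3 S0
  have u1 : 0 ≤ 1 + t * u := by have := mul_nonneg t0 d1; linarith
  have y1 : 0 ≤ 1 + t * y := by have := mul_nonneg t0 d2; linarith
  have u2 : 1 + t * u ≤ 1 + c.T1 * u := by
    have := mul_le_mul_of_nonneg_right ht.2 d1; linarith
  have y2 : 1 + t * y ≤ 1 + c.T1 * y := by
    have := mul_le_mul_of_nonneg_right ht.2 d2; linarith
  have u3 : 0 ≤ 1 + c.T1 * u := u1.trans u2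
  have zy := mul_nonneg d3 d2
  have n1 : 0 ≤ 1 - u + t * (z * y) := by
    have := mul_nonneg t0 zy
    linarith
  have n2 : 1 - u + t * (z * y) ≤ 1 - u + c.T1 * (z * y) := by
    have := mul_le_mul_of_nonneg_right ht.2 zy
    linarith
  have n3 : 0 ≤ 1 - u + c.T1 * (z * y) := n1.trans n2
  have A0 := h.A_nonneg hz.1 hz.2 hK
  have B0 := h.B_nonneg hz.1 hz.2 hK
  have K10 := h.K1 _ hK
  have K30 := h.K3 _ hK
  have K20 := h.K2_nonneg hz.1 hz.2 hK
  have K40 := h.K4_nonneg hz.1 hz.2 hK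
  have vz0 := Cq.vz_nonneg (c := c) d3
  have hbf := hX.bf u y z hde
  have hr := Cq.r_eq h (w := u + y) d3 hbf
  have rz0 := Cq.rz_nonneg (c := c) z (u + y)
  have hh0 := Cq.hh_nonneg h hd
  have qa0 := h.qa
  have nuz : 0 ≤ 1 - u - z := by linarith
  -- the quadratic part
  have hbd := hI.bd h hF hk ht hd (M := (1 + t * u) * (1 - u - z))
    (Mb := (1 + t * u) * (1 - u + t * (z * y))) (mul_nonneg u1 nuz) (mul_nonneg u1 n1)
  have q1 : 0 ≤ c.K1 (y + z) * c.vz z + c.K2 z (y + z) * (z * (1 + t * y) ^ 2)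
      + (c.K3 (y + z) * (c.vz z * (1 - u - z))
        + c.K4 z (y + z) * (z * (1 - u + t * (z * y)))) := by positivity
  have q2 : c.K1 (y + z) * c.vz z + c.K2 z (y + z) * (z * (1 + t * y) ^ 2)
      + (c.K3 (y + z) * (c.vz z * (1 - u - z))
        + c.K4 z (y + z) * (z * (1 - u + t * (z * y))))
      ≤ c.K1 (y + z) * c.vz z + c.K2 z (y + z) * (z * (1 + c.T1 * y) ^ 2)
      + c.K3 (y + z) * (c.vz z * (1 - u - z))
        + c.K4 z (y + z) * (z * (1 - u + c.T1 * (z * y))) := by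
    have a1 : (1 + t * y) ^ 2 ≤ (1 + c.T1 * y) ^ 2 := pow_le_pow_left₀ y1 y2 2
    have a2 := mul_le_mul_of_nonneg_left (mul_le_mul_of_nonneg_left a1 d3) K20
    have a3 := mul_le_mul_of_nonneg_left (mul_le_mul_of_nonneg_left n2 d3) K40
    linarith
  have q3 := mul_le_mul u2 q2 q1 u3
  have q4 := mul_le_mul_of_nonneg_left q3 hS
  -- the rows
  have r1 : (1 + t * u) * ((1 + c.T1 * y) * c.A z (y + z) + (1 - u + t * (z * y)) * c.B z (y + z))
      ≤ (1 + c.T1 * u) * ((1 + c.T1 * y) * c.A z (y + z)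
        + (1 - u + c.T1 * (z * y)) * c.B z (y + z)) := by
    have y3 : 0 ≤ 1 + c.T1 * y := y1.trans y2
    refine mul_le_mul u2 ?_ (by positivity) u3
    have := mul_le_mul_of_nonneg_right n2 B0
    linarith
  have r2 := mul_le_mul_of_nonneg_left r1 hS
  -- the entries
  have s0 : 0 ≤ (1 - u - z) * c.hh u y z + c.qa * c.K1 (y + z) := by positivity
  have s2 := mul_le_mul_of_nonneg_right u2 (mul_nonneg rz0 s0)
  have s3 := mul_le_mul_of_nonneg_left s2 hS
  unfold Cq.Y0 W0h Lh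
  beta_reduce
  rw [hr]
  have e : z * (c.S t * c.W0 u y z) = z * c.S t * ((1 + c.T1 * u) * ((1 + c.T1 * y)
      * c.A z (y + z) + (1 - u + c.T1 * (z * y)) * c.B z (y + z)))
      + z * c.S t * ((1 + c.T1 * u) * (c.K1 (y + z) * c.vz z
        + c.K2 z (y + z) * (z * (1 + c.T1 * y) ^ 2)
      + c.K3 (y + z) * (c.vz z * (1 - u - z))
      + c.K4 z (y + z) * (z * (1 - u + c.T1 * (z * y))))) / 2
      + z * c.S t * ((1 + c.T1 * u) * (c.rz z (u + y)
        * ((1 - u - z) * c.hh u y z + c.qa * c.K1 (y + z)))) := by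
    unfold Cq.W0
    ring
  rw [e]
  have f1 : z * ((1 + t * u) * (c.S t * ((1 + c.T1 * y) * c.A z (y + z))
      + (1 - u + t * (z * y)) * (c.S t * c.B z (y + z))))
      = z * c.S t * ((1 + t * u) * ((1 + c.T1 * y) * c.A z (y + z)
        + (1 - u + t * (z * y)) * c.B z (y + z))) := by ring
  have f2 : z * c.rz z (u + y) * ((1 + t * u) * (1 - u - z)
      * (c.S t * c.HA (y + z) + (1 - u - z) * (c.S t * c.HB (y + z))
        + c.qb * (c.S t * c.RB (y + z)))
        + (1 + t * u) * (c.qa * c.th / c.φ * (c.S t * (c.φ * (c.K1 (y + z) / c.th)))))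
      = z * c.S t * ((1 + t * u) * (c.rz z (u + y)
        * ((1 - u - z) * c.hh u y z + c.qa * c.K1 (y + z)))) := by
    have := h.th.ne'
    have := (zero_lt_one.trans_le h.φ1).ne'
    unfold Cq.hh
    field_simp
  rw [f1, f2]
  linarith

theorem Cq.It.y1 (h : c.Nn) (hI : c.It R m) (hX : c.Bx) (hk : Kc k κd t)
    (ht : t ∈ Icc c.T0 c.T1) {u y z : ℝ} (hde : De c.em u y z) :
    0 ≤ c.Y1 R m t u y z ∧ c.Y1 R m t u y z ≤ z * (c.S t * c.W1 u y z) := by
  have hd := hde.1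
  obtain ⟨hu, hy, hz, hK⟩ := hd.mem
  obtain ⟨d1, d2, d3, d4, d5, d6⟩ := id hd
  have t0 := hk.t01.1
  have T10 : 0 ≤ c.T1 := h.T0.trans h.T01
  have S0 := h.S_nonneg t0
  have hS := mul_nonneg d3 S0
  have u1 : 0 ≤ 1 + t * u := by have := mul_nonneg t0 d1; linarith
  have u2 : 1 + t * u ≤ 1 + c.T1 * u := by
    have := mul_le_mul_of_nonneg_right ht.2 d1; linarith
  have u3 : 0 ≤ 1 + c.T1 * u := u1.trans u2
  have B0 := h.B_nonneg hz.1 hz.2 hK
  have K30 := h.K3 _ hK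
  have K40 := h.K4_nonneg hz.1 hz.2 hK
  have vz0 := Cq.vz_nonneg (c := c) d3
  have hr := Cq.r_eq h (w := u + y) d3 (hX.bf u y z hde)
  have rz0 := Cq.rz_nonneg (c := c) z (u + y)
  have hh0 := Cq.hh_nonneg h hd
  have hv : c.v z ^ 2 = z * c.vz z := (h.z_vz hz.1).symm
  have hbe := hI.be h hk ht d2 d3 d6 hv zero_le_one zero_le_one
  have ee : ∀ s, c.Fs t s * (c.thh * c.v z ^ 2 * 1 * rv R kRF m t y z s
        + c.thh⁻¹ * (z * c.ρz t z s) ^ 2 * 1 * rv R kCF m t y z s) / 2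
      = Be3 (c.Fs t) (c.ρz t z) (rv R kRF m t) (rv R kCF m t) c.thh y z (c.v z) z s := fun s => by
    unfold Be3
    ring
  simp only [ee] at hbe
  have nbe : 0 ≤ ∫ s in (0 : ℝ)..t, Be3 (c.Fs t) (c.ρz t z) (rv R kRF m t) (rv R kCF m t)
      c.thh y z (c.v z) z s := by
    refine intervalIntegral.integral_nonneg t0 fun s hs => ?_
    have F0 := h.Fs_nonneg (c := c) t0 s
    have v3 : 0 ≤ rv R kRF m t y z s := R.val_nonneg _ _ _ _ hK.1 hK.2
    have v4 : 0 ≤ rv R kCF m t y z s := R.val_nonneg _ _ _ _ hK.1 hK.2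
    have := h.thh
    unfold Be3
    positivity
  have tu0 : 0 ≤ t * (1 + t * u) := mul_nonneg t0 u1
  have tu1 : t * (1 + t * u) ≤ c.T1 * (1 + c.T1 * u) := mul_le_mul ht.2 u2 u1 T10
  have ehh : c.S t * c.HA (y + z) + (1 - u - z) * (c.S t * c.HB (y + z))
      + c.qb * (c.S t * c.RB (y + z)) = c.S t * c.hh u y z := by
    unfold Cq.hh
    ring
  have i0 : 0 ≤ z * (c.S t * c.B z (y + z))
      + (∫ s in (0 : ℝ)..t, Be3 (c.Fs t) (c.ρz t z) (rv R kRF m t) (rv R kCF m t)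
        c.thh y z (c.v z) z s)
      + z * c.rz z (u + y) * (c.S t * c.hh u y z) := by
    have a1 := mul_nonneg hS B0
    have a2 : 0 ≤ z * c.rz z (u + y) * (c.S t * c.hh u y z) := by
      positivity
    linarith
  have i1 : z * (c.S t * c.B z (y + z))
      + (∫ s in (0 : ℝ)..t, Be3 (c.Fs t) (c.ρz t z) (rv R kRF m t) (rv R kCF m t)
        c.thh y z (c.v z) z s)
      + z * c.rz z (u + y) * (c.S t * c.hh u y z)
      ≤ z * c.S t * (c.B z (y + z) + (c.K3 (y + z) * c.vz z + c.K4 z (y + z) * z) / 2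
    + c.rz z (u + y) * c.hh u y z) := by
    have a3 : z * c.S t * ((c.K3 (y + z) * (c.vz z * 1) + c.K4 z (y + z) * (z * 1)) / 2)
        = z * c.S t * ((c.K3 (y + z) * c.vz z + c.K4 z (y + z) * z) / 2) := by ring
    rw [a3] at hbe
    linarith
  unfold Cq.Y1 W1h
  beta_reduce
  rw [hr, ehh]
  refine ⟨mul_nonneg tu0 i0, ?_⟩
  refine (mul_le_mul tu1 i1 i0 (tu0.trans tu1)).trans (le_of_eq ?_)
  unfold Cq.W1
  ring

end

end Pool.Agent.RZ.RCN.K
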