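import Pool.Agent.RZ.RCN.T2r
import Pool.Agent.RZ.RCN.T2s
import Pool.Agent.RZ.RCN.T2v
import Pool.Agent.RZ.RCO.J2f
import Pool.Agent.RZ.RCO.T1f
import Pool.Agent.RZ.RCO.T1g

/-! The second type: the end theorem with the amplitudes of the first type (MP_73ccd0_lc). -/

namespace Pool.Agent.RZ.RCN.K

open Set Finset MeasureTheory Pool.Agent.RZ.RCRSHalf Pool.Agent.RZ.RCG Pool.Agent.RZ.RCG.Ct
open Pool.Agent.RZ.RCN.Ker Pool.Agent.RZ.RCRS Pool.Agent.RZ.RCM.Jen Pool.Agent.RZ.RCO.RT Pool.Agent.RZ.RCM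

set_option linter.unusedSectionVars false
set_option linter.unusedVariables false

variable {V : Type*} [Fintype V] [DecidableEq V]
variable {x : V → V → ℝ} {P : V → Prop} [DecidablePred P] {k : Kf} {N : ℕ}
variable {κd : ℝ → ℝ → ℝ → ℝ} {Rh : V → V → V → ℝ → ℝ → ℝ} {L Lt : V → V → V → V → ℝ → ℝ → ℝ}
variable {a b : V} {t γ : ℝ} {g : V → V → ℝ}

/-- **the second type**: the sum of the walk rates, from the amplitudes of the triples -/
theorem T2_leS (hf : Lf N k κd Rh L Lt) (hx : Wt x P 1) (hk : k.Ok)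
    (hfc : ∀ y ∈ Icc (0 : ℝ) 1, ContinuousOn (k.fh y) (Icc 0 1)) (ht : t ∈ Icc (0 : ℝ) 1)
    {J : V → V → ℝ} (g0 : ∀ b d, 0 ≤ g b d) (J0 : ∀ b d, 0 ≤ J b d)
    (hS : ∀ b d, P b → P d → Gr.D3 a b d →
      wS k.fh k.mb ((xdOf x κd Rh L Lt).E x P k) x P b a d t
        ≤ xr x P b d * (xr x P a d * J b d + g b d * LamL x P k κd Rh L Lt b a d t))
    {T : V → V → ℝ → ℝ} {Cc : V → ℝ → ℝ} {ΦT : V → V → ℝ} {ΦC : V → ℝ}
    (cT : ∀ b d, ContinuousOn (T b d) (Icc 0 t)) (cC : ∀ b, ContinuousOn (Cc b) (Icc 0 t))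
    (iT : ∀ b d, P b → P d → Gr.D3 a b d → ∫ s in (0 : ℝ)..t, T b d s ≤ ΦT b d)
    (iC : ∀ b, P b → b ≠ a → ∫ s in (0 : ℝ)..t, Cc b s ≤ ΦC b)
    (h : ∀ s ∈ Icc 0 t, ∑ b ∈ ({a} : Finset V)ᶜ, ∑ d ∈ ({a, b} : Finset V)ᶜ,
        xr x P a b * (xr x P b d * g b d)
        * ∑ e ∈ ({a, b, d} : Finset V)ᶜ, (flx x P k κd b a e t s * L b a d e t s
          + mua x P k κd b a t s * (Rh b a e t s * Lt b a d e t s))
      ≤ ∑ b ∈ ({a} : Finset V)ᶜ, xr x P a b ^ 2 * (∑ d ∈ ({a, b} : Finset V)ᶜ,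
          xr x P b d * T b d s + Cc b s)) :
    ∑ b, xr x P a b * ∑ d ∈ ({a, b} : Finset V)ᶜ,
        wS k.fh k.mb ((xdOf x κd Rh L Lt).E x P k) x P b a d t
      ≤ ∑ b ∈ ({a} : Finset V)ᶜ, xr x P a b ^ 2 * (∑ d ∈ ({a, b} : Finset V)ᶜ,
          xr x P b d * (ΦT b d + (J b d + J d b) / 2) + ΦC b) := by
  have hw := wg_xr hx
  have n0 := hw.nn
  have e : ∑ b, xr x P a b * ∑ d ∈ ({a, b} : Finset V)ᶜ,
        wS k.fh k.mb ((xdOf x κd Rh L Lt).E x P k) x P b a d t
      = ∑ b ∈ ({a} : Finset V)ᶜ, ∑ d ∈ ({a, b} : Finset V)ᶜ,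
        xr x P a b * wS k.fh k.mb ((xdOf x κd Rh L Lt).E x P k) x P b a d t := by
    rw [← Finset.sum_add_sum_compl ({a} : Finset V), Finset.sum_singleton, xr_diag hx a,
      zero_mul, zero_add]
    exact Finset.sum_congr rfl fun b _ => by rw [Finset.mul_sum]
  rw [e]
  -- the linear parts
  have c1 : ∀ b, ContinuousOn (fun s => ∑ d ∈ ({a, b} : Finset V)ᶜ, xr x P b d * T b d s)
      (Icc 0 t) := fun b => continuousOn_finsetSum _ fun d _ => continuousOn_const.mul (cT b d)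
  have c3 : ∀ b, ContinuousOn (fun s => xr x P a b ^ 2 * (∑ d ∈ ({a, b} : Finset V)ᶜ,
      xr x P b d * T b d s + Cc b s)) (Icc 0 t) :=
    fun b => continuousOn_const.mul ((c1 b).add (cC b))
  have key := sum3_int_le (A := ({a} : Finset V)ᶜ) (B := fun b => ({a, b} : Finset V)ᶜ)
    (C := fun b d => ({a, b, d} : Finset V)ᶜ)
    (c := fun b d _ => xr x P a b * (xr x P b d * g b d))
    (F := fun b d e s => flx x P k κd b a e t s * L b a d e t s
          + mua x P k κd b a t s * (Rh b a e t s * Lt b a d e t s))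
    (G := fun s => ∑ b ∈ ({a} : Finset V)ᶜ, xr x P a b ^ 2 * (∑ d ∈ ({a, b} : Finset V)ᶜ,
          xr x P b d * T b d s + Cc b s)) ht.1
    (fun b d e => ?_) (continuousOn_finsetSum _ fun b _ => c3 b) (fun s hs => ?_)
  rotate_left
  · exact ((flx_slice hf hx hfc b a e ht).mul ((hf.cL b a d e).slice hf.N0 ht)).add
      (((mua_cn hfc hx hf.cκ b a).slice hf.N0 ht).mul
        (((hf.cR b a e).slice hf.N0 ht).mul ((hf.cLt b a d e).slice hf.N0 ht)))
  · refine le_trans (le_of_eq ?_) (h s hs)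
    refine Finset.sum_congr rfl fun b _ => Finset.sum_congr rfl fun d _ => ?_
    rw [Finset.mul_sum]
  have s1 : ∑ b ∈ ({a} : Finset V)ᶜ, ∑ d ∈ ({a, b} : Finset V)ᶜ,
        xr x P a b * (xr x P b d * g b d) * LamL x P k κd Rh L Lt b a d t
      ≤ ∑ b ∈ ({a} : Finset V)ᶜ, xr x P a b ^ 2 * (∑ d ∈ ({a, b} : Finset V)ᶜ,
          xr x P b d * ΦT b d + ΦC b) := by
    refine le_trans (Finset.sum_le_sum fun b _ => Finset.sum_le_sum fun d _ => ?_)
      (key.trans ?_)
    · rw [← Finset.mul_sum]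
      exact mul_le_mul_of_nonneg_left (LamL_le hf hx hk hfc a b d ht)
        (mul_nonneg (xr_nonneg hx a b) (mul_nonneg (xr_nonneg hx b d) (g0 b d)))
    · rw [intervalIntegral.integral_finsetSum fun b _ => iiC ht.1 (c3 b)]
      refine Finset.sum_le_sum fun b hb => ?_
      rw [intervalIntegral.integral_const_mul]
      by_cases hPb : P b
      swap
      · have : xr x P a b = 0 := by unfold xr; rw [if_neg fun h => hPb h.2]
        rw [this]
        simp
      refine mul_le_mul_of_nonneg_left ?_ (sq_nonneg _)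
      have c0 : ∀ d, ContinuousOn (fun s => xr x P b d * T b d s) (Icc 0 t) :=
        fun d => continuousOn_const.mul (cT b d)
      rw [intervalIntegral.integral_add (iiC ht.1 (c1 b)) (iiC ht.1 (cC b)),
        intervalIntegral.integral_finsetSum fun d _ => iiC ht.1 (c0 d)]
      refine add_le_add (Finset.sum_le_sum fun d hd => ?_) (iC b hPb (Gr.B39.mem1 hb))
      rw [intervalIntegral.integral_const_mul]
      by_cases hPd : P d
      · exact mul_le_mul_of_nonneg_left (iT b d hPb hPd (Gr.B39.mem2 hb hd)) (n0 b d)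
      · have : xr x P b d = 0 := by unfold xr; rw [if_neg fun h => hPd h.2]
        rw [this, zero_mul, zero_mul]
  have s2 := tri_J (a := a) hw J0
  have hE : ∀ b ∈ ({a} : Finset V)ᶜ, ∀ d ∈ ({a, b} : Finset V)ᶜ,
      xr x P a b * wS k.fh k.mb ((xdOf x κd Rh L Lt).E x P k) x P b a d t
        ≤ xr x P a b * xr x P a d * xr x P b d * J b d
          + xr x P a b * (xr x P b d * g b d) * LamL x P k κd Rh L Lt b a d t := by
    intro b hb d hd
    by_cases hPb : P b
    swap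
    · have : xr x P a b = 0 := by unfold xr; rw [if_neg fun h => hPb h.2]
      rw [this]
      simp
    by_cases hPd : P d
    swap
    · have : xr x P b d = 0 := by unfold xr; rw [if_neg fun h => hPd h.2]
      unfold wS
      rw [this]
      simp
    refine (mul_le_mul_of_nonneg_left (hS b d hPb hPd (Gr.B39.mem2 hb hd)) (n0 a b)).trans
      (le_of_eq ?_)
    ring
  refine (Finset.sum_le_sum fun b hb => Finset.sum_le_sum fun d hd => hE b hb d hd).trans ?_
  simp only [Finset.sum_add_distrib]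
  refine (add_le_add s2 s1).trans (le_of_eq ?_)
  rw [← Finset.sum_add_distrib]
  refine Finset.sum_congr rfl fun b _ => ?_
  simp only [mul_add, Finset.sum_add_distrib]
  ring

variable {c : Cq} {rr : ℝ → ℝ → ℝ} {R : Tab} {m : ℕ}

/-- **the amplified error of a triple** with the constants of the cell -/
theorem amp_cell (h : c.Nn) (hI : c.It R m) (hF : c.Fr k κd rr) (hX : c.Bx)
    (ht : t ∈ Icc c.T0 c.T1) (hKc : Kc k κd t)
    (hf : Lf N k κd Rh L Lt) (hx : Wt x P 1) (hem : ∀ a b, x a b ≤ c.em) (hk : k.Ok)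
    (hfc : ∀ y ∈ Icc (0 : ℝ) 1, ContinuousOn (k.fh y) (Icc 0 1))
    (cPe : ∀ w, ContinuousOn (k.Pe w) (Icc 0 1))
    (ha : P a) (hb : P b) (hab : a ≠ b) (hw : Rw x P rr Rh L Lt a b t R m)
    {d : V} (hd : d ∈ ({a, b} : Finset V)ᶜ) (hPd : P d) :
    emin ((xdOf x κd Rh L Lt).E x P k) P a b d t
        * amp k.mb ((xdOf x κd Rh L Lt).E x P k) x P a b d t
      ≤ x b d * (c.S t * ((1 + c.T1 * (x a b + x a d)) * lp (x b d) c.e0 c.e1 c.e2)
          / ((1 - c.Bm (x b d) (x a b + x a d)) * (1 - c.Bf (x b d) (x a b + x a d))))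
        + (c.C0 (x a b) + c.C1 (x a b) * (c.em * (1 - x a b)))
          * ((1 - c.Bf (x b d) (x a b + x a d)) ^ 2)⁻¹ * LamL x P k κd Rh L Lt a b d t := by
  have T10 : 0 ≤ c.T1 := h.T0.trans h.T01
  have ht1 : t ∈ Icc (0 : ℝ) 1 := hKc.t01
  have t0 := ht1.1
  have hd' := mem2.1 hd
  have S0 := h.S_nonneg t0
  have S1 : c.S t ≤ c.S c.T1 := h.S_mono t0 ht.2
  have hu : x a b ∈ Icc (0 : ℝ) c.em := ⟨hx.nonneg a b, hem a b⟩
  have hem' : ∀ a b, P a → P b → x a b ≤ c.em := fun a b _ _ => hem a b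
  have Nb := Nn_nonneg hx a b
  have Nb1 : Nn x a b ≤ c.em * (1 - x a b) := Nn_leX hx hem' ha hb hab
  set n := Nn x a b with hn
  set u := x a b with hud
  have C00 := h.C0 u hu
  have C10 := h.C1 u hu
  have m00 := h.m0 u hu
  have m10 := h.m1 u hu
  have p00 := h.p0 u hu
  set mt := c.m0 u + c.m1 u * n with hmt
  set C := c.C0 u + c.C1 u * n with hC
  have Cn : 0 ≤ C := add_nonneg C00 (mul_nonneg C10 Nb)
  have Cle : C ≤ c.C0 u + c.C1 u * (c.em * (1 - u)) := by
    have := mul_le_mul_of_nonneg_left Nb1 C10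
    linarith
  have mtn : 0 ≤ mt := add_nonneg m00 (mul_nonneg m10 Nb)
  have cj : CJr C mt (c.p0 u) := CJr_lin (hI.cj0 u hu) (hI.cj1 u hu) (h.p02 u hu) C10 m10 Nb Nb1
  have mtp : mt * c.p0 u < 1 := by
    have h1 : mt ≤ c.m0 u + c.m1 u * (c.em * (1 - u)) := by
      have := mul_le_mul_of_nonneg_left Nb1 m10
      linarith
    exact lt_of_le_of_lt (mul_le_mul_of_nonneg_right h1 p00) (hI.mp u hu)
  have hR2 : ∀ d, P d → ∀ s ∈ Icc 0 t, Rh a b d t s ≤ x b d * c.ρz t (x b d) s := by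
    intro d hd s hs
    refine (hw.hR d hd s hs).trans (mul_le_mul_of_nonneg_left ?_ (hx.nonneg b d))
    exact hF.rr t ht s hs _ ⟨hx.nonneg b d, hem b d⟩
  have hpw := hw.pw2 h hI hF hKc hx hem hab ht
  have hq := (hw.pc2).toQ2 hf hx ht1 hpw hab (ρ2 := c.ρz t)
    (fun z _ => (c.ρz_cont t z).continuousOn) (fun z hz s _ => h.ρz_nonneg hz s) hR2
    (IA := fun y z => c.S t * ((1 + c.T1 * y) * c.A z (y + z)))
    (IB := fun y z => c.S t * c.B z (y + z))
    (fun y z y0 z0 yz => hI.IA h hF hKc ht y0 z0 yz)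
    (fun y z y0 z0 yz => hI.IB h hF hKc ht y0 z0 yz)
  have he := hw.eh h hI hF hKc hf hx hem ha hb hab ht
  have ent := LamL_entH hf hx hk hfc ht1 hab hpw hq he hd hPd
  have hN1 : x b d * x a d ≤ n := by
    have h1 : 0 ≤ n - x b d * x a d := by
      rw [hn, ← Nn_erase hd]
      exact Finset.sum_nonneg fun e _ => mul_nonneg (hx.nonneg b e) (hx.nonneg a e)
    linarith
  have hN2 : n ≤ x b d * x a d + c.em * (1 - u - x b d) := by
    have := Nn_erX hx hem' ha hb hab hPd hd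
    linarith
  have hde := de_of hx hem' ha hb hab hPd hd
  obtain ⟨hu', hy, hz, hK⟩ := hde.1.mem
  have nuz : 0 ≤ 1 - u - x b d := by linarith [hde.1.2.2.2.2.1]
  have a1 : 1 + t * u ≤ 1 + c.T1 * u := by
    have := mul_le_mul_of_nonneg_right ht.2 hu.1; linarith
  have a0 : 0 ≤ 1 + t * u := by have := mul_nonneg t0 hu.1; linarith
  have nn := sub_nonneg.2 hN1
  have b1 : 1 - u - x b d + t * (n - x b d * x a d)
      ≤ 1 - u - x b d + c.T1 * (n - x b d * x a d) := by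
    have := mul_le_mul_of_nonneg_right ht.2 nn; linarith
  have b0 : 0 ≤ 1 - u - x b d + t * (n - x b d * x a d) := by
    have := mul_nonneg t0 nn; linarith
  have hmu : muL x P k κd a b d t t ≤ mt * (1 - c.Bf (x b d) (x a b + x a d)) := by
    refine (muL_leY' hf hx hfc ht1 (hI.al h hF hKc ht) (mul_nonneg t0 h.α) t0 hd).trans ?_
    refine le_trans ?_ (hX.hm u (x a d) (x b d) n hde hN1 hN2)
    unfold My
    exact mul_le_mul (mul_le_mul_of_nonneg_right ht.2 h.α) (mul_le_mul a1 b1 b0 (a0.trans a1))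
      (mul_nonneg a0 b0) (mul_nonneg T10 h.α)
  have hcap : LamL x P k κd Rh L Lt a b d t
      ≤ c.x0 u * (mt * (1 - c.Bf (x b d) (x a b + x a d))) := by
    refine ent.trans (le_trans ?_ (hX.cap u (x a d) (x b d) n hde hN1 hN2))
    have hh0 := Cq.hh_nonneg h hde.1
    have K10 := h.K1 _ hK
    have qa0 := h.qa
    have thp := h.th.ne'
    have phip : c.φ ≠ 0 := by
      have := h.φ1
      intro h0
      rw [h0] at this
      linarith
    have e : Lh t (c.qa * c.th / c.φ) c.qb (fun y z => c.S t * c.HA (y + z))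
        (fun y z => c.S t * c.HB (y + z)) (fun y z => c.S t * (c.φ * (c.K1 (y + z) / c.th)))
        (fun y z => c.S t * c.RB (y + z)) (My x t a b d) (x a b) (x a d) (x b d)
        = c.S t * ((1 + t * u) * ((1 - u - x b d + t * (n - x b d * x a d))
          * c.hh u (x a d) (x b d) + c.qa * c.K1 (x a d + x b d))) := by
      unfold Lh Cq.hh My
      rw [← hud, ← hn]
      field_simp
    rw [e]
    have n1 : 0 ≤ (1 - u - x b d + t * (n - x b d * x a d)) * c.hh u (x a d) (x b d)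
        + c.qa * c.K1 (x a d + x b d) := by
      positivity
    have n2 : (1 - u - x b d + t * (n - x b d * x a d)) * c.hh u (x a d) (x b d)
          + c.qa * c.K1 (x a d + x b d)
        ≤ (1 - u - x b d + c.T1 * (n - x b d * x a d)) * c.hh u (x a d) (x b d)
          + c.qa * c.K1 (x a d + x b d) := by
      have := mul_le_mul_of_nonneg_right b1 hh0
      linarith
    exact mul_le_mul S1 (mul_le_mul a1 n2 n1 (a0.trans a1)) (mul_nonneg a0 n1)
      (S0.trans S1)
  have key := em_entryY (hI.t1v h hF hX hKc ht) hem' hf hx hk hfc cPe ht1 ha hb hPd hab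
    (Ne.symm hd'.1) (Ne.symm hd'.2) cj Cn mtn mtp (h.x0 u hu) (hI.px u hu) hmu hcap
  refine key.trans ?_
  have hΛ := LamL_nonneg (R := Rh) (L := L) (Lt := Lt) hf hx hk a b d ht1
  have q0 : 0 ≤ ((1 - c.Bf (x b d) (x a b + x a d)) ^ 2)⁻¹ := by positivity
  have e2 : C * LamL x P k κd Rh L Lt a b d t
      + C * (psB c.Bf (x b d) (x a b + x a d) * LamL x P k κd Rh L Lt a b d t)
      = C * (((1 - c.Bf (x b d) (x a b + x a d)) ^ 2)⁻¹ * LamL x P k κd Rh L Lt a b d t) := by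
    unfold psB
    ring
  rw [add_assoc, e2]
  refine add_le_add_right ?_ _
  have := mul_le_mul_of_nonneg_right Cle (mul_nonneg q0 hΛ)
  linarith

end Pool.Agent.RZ.RCN.K
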