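import Pool.Agent.RZ.RCO.Gk14

/-! The records of the tables of the sum of level 2 (MP_73ccd0_lc). -/

set_option autoImplicit false
set_option maxRecDepth 100000

namespace Pool.Agent.RZ.RCO.RecK

open Sg

def wv : ℕ → Wf := fun l => match l with | 0 => ⟨fun i => if i = 0 then 1 else 0, [], 0⟩ | _ => ⟨fun _ => 0, [1], 0⟩

def bz : SpK where
  N := 2
  RR := [lr 144 1, lr 144 2, lr 144 3]
  Rp := kz
  W := plr 144 0 4 3
  Wp := [kc 1]
  Dk := plr 144 0 7 3
  w1 := wv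
  Pn := (fun i => match i with | 0 => ls' 144 10 | 1 => ls' 144 11 | 2 => ls' 144 12 + eK * ls' 144 15 | 4 => ls' 144 13 | 9 => ls' 144 14 | _ => kz)
  Pd := (fun i => match i with | 0 => ls' 144 16 | 1 => ls' 144 17 | 2 => ls' 144 18 + eK * ls' 144 21 | 4 => ls' 144 19 | 9 => ls' 144 20 | _ => kz)
  Cn := kz
  Cd := kz
  RD := [lr 144 42, lr 144 43, lr 144 44]
  RDp := kz
  nu := fun _ _ => kz
  du := fun _ _ => kz
  κD := lr 144 45
  c4 := lr 144 46
  Fu := fun s m => match s with | true => (match m with | 0 => (fun i => match i with | 0 => ls' 144 47 | 1 => ls' 144 48 | 2 => ls' 144 49 + eK * ls' 144 52 | 4 => ls' 144 50 | 9 => ls' 144 51 | _ => kz) | 1 => (fun i => match i with | 0 => ls' 144 53 | 1 => ls' 144 54 | 2 => ls' 144 55 + eK * ls' 144 58 | 4 => ls' 144 56 | 9 => ls' 144 57 | _ => kz) | _ => fun _ => kz) | false => (match m with | 0 => (fun i => match i with | 0 => ls' 144 59 | 1 => ls' 144 60 | 2 => ls'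 144 61 + eK * ls' 144 64 | 4 => ls' 144 62 | 9 => ls' 144 63 | _ => kz) | 1 => (fun i => match i with | 0 => ls' 144 65 | 1 => ls' 144 66 | 2 => ls' 144 67 + eK * ls' 144 70 | 4 => ls' 144 68 | 9 => ls' 144 69 | _ => kz) | _ => fun _ => kz)
  Gn := fun m => match m with | 0 => lr 144 38 | 1 => lr 144 39 | _ => kz
  Ge := fun m => match m with | 0 => lr 144 40 | 1 => lr 144 41 | _ => kz
  cD := ⟨ls' 144 22, ls' 144 23, kz, ls' 144 24, ls' 144 25, kz, kz, kz⟩
  bn := ⟨ls' 144 26, ls' 144 27, kz, ls' 144 28, ls' 144 29, kz, kz, kz⟩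
  bd := ⟨ls' 144 30, ls' 144 31, kz, ls' 144 32, ls' 144 33, kz, kz, kz⟩
  cX := ⟨ls' 144 34, ls' 144 35, kz, ls' 144 36, ls' 144 37, kz, kz, kz⟩
  sl := fun _ => kz
  fe := fun k => match k with | 1 => [(lr 144 89 * (eX * hor eX [lr 144 1, lr 144 2, lr 144 3]), .f false .xhm), (lr 144 90 * (eX * hor eX [lr 144 1, lr 144 2, lr 144 3]), .f false .xqm), (lr 144 91 * (eX * hor eX [lr 144 1, lr 144 2, lr 144 3]), .f false .xsh), (lr 144 92 * (eX * hor eX [lr 144 1, lr 144 2, lr 144 3]), .f false .xsq), (lr 144 93 * (eX * hor eX [lr 144 1, lr 144 2, lr 144 3]), .f false .xsl), (lr 144 94 * (eX * hor eX [lr 144 1, lr 144 2, lr 144 3]), .f true .xhm), (lr 144 95 * (eX * hor eX [lr 144 1, lr 144 2, lr 144 3]), .f true .xqm), (lr 144 96 * (eX * hor eX [lr 144 1, lr 144 2, lr 144 3]), .f true .xsh), (lr 144 97 * (eX * hor eX [lr 144 1, lr 144 2, lr 144 3]), .f true .xsq), (lr 144 98 * (eX * hor eX [lr 144 1, lr 144 2, lr 144 3]),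 .f true .xsl), (lr 144 99 * (eX * hor eX [lr 144 1, lr 144 2, lr 144 3]), .xa)] | 2 => [(lr 144 100 * (eX * hor eX [lr 144 1, lr 144 2, lr 144 3]), .f false .xhm), (lr 144 101 * (eX * hor eX [lr 144 1, lr 144 2, lr 144 3]), .f false .xqm), (lr 144 102 * (eX * hor eX [lr 144 1, lr 144 2, lr 144 3]), .f false .xsh), (lr 144 103 * (eX * hor eX [lr 144 1, lr 144 2, lr 144 3]), .f false .xsq), (lr 144 104 * (eX * hor eX [lr 144 1, lr 144 2, lr 144 3]), .f false .xsl), (lr 144 105 * (eX * hor eX [lr 144 1, lr 144 2, lr 144 3]), .f true .xhm), (lr 144 106 * (eX * hor eX [lr 144 1, lr 144 2, lr 144 3]), .f true .xqm), (lr 144 107 * (eX * hor eX [lr 144 1, lr 144 2, lr 144 3]), .f true .xsh), (lr 144 108 * (eX * hor eX [lr 144 1, lr 144 2, lr 144 3]), .f true .xsq), (lr 144 109 * (eX * hor eX [lr 144 1, lr 144 2, lr 144 3]), .f true .xsl), (lr 144 110 * (eX * hor eX [lr 144 1, lr 144 2, lr 144 3]), .xa)] | _ => []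
  ff := fun k => match k with | 0 => [(lr 144 111, .xhm), (lr 144 112, .xqm), (lr 144 113, .xsh), (lr 144 114, .xsq), (lr 144 115, .xsl)] | 1 => [(lr 144 116, .xhm), (lr 144 117, .xqm), (lr 144 118, .xsh), (lr 144 119, .xsq), (lr 144 120, .xsl)] | 2 => [(lr 144 121, .xhm), (lr 144 122, .xqm), (lr 144 123, .xsh), (lr 144 124, .xsq), (lr 144 125, .xsl)] | 3 => [(lr 144 126, .xhm), (lr 144 127, .xqm), (lr 144 128, .xsh), (lr 144 129, .xsq), (lr 144 130, .xsl)] | 4 => [(lr 144 131, .xhm), (lr 144 132, .xqm), (lr 144 133, .xsh), (lr 144 134, .xsq), (lr 144 135, .xsl)] | 6 => [(lr 144 136, .xhm), (lr 144 137, .xqm), (lr 144 138, .xsh), (lr 144 139, .xsq), (lr 144 140, .xsl)] | _ => []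
def z : Tk1 where
  b := bz
  R := 144
  iH := 0
  a := fun i => match i with | 0 => some ⟨71, 72, 73⟩ | 1 => some ⟨74, 75, 76⟩ | 2 => some ⟨77, 78, 79⟩ | 4 => some ⟨80, 81, 82⟩ | 9 => some ⟨83, 84, 85⟩ | 15 => some ⟨86, 87, 88⟩ | _ => none
def br : SpK where
  N := 2
  RR := [lr 168 1, lr 168 2, lr 168 3]
  Rp := kz
  W := plr 168 0 4 3
  Wp := [kc 1]
  Dk := plr 168 0 7 3
  w1 := wv
  Pn := (fun i => match i with | 0 => ls' 168 10 | 1 => ls' 168 11 | 2 => ls' 168 12 + eK * ls' 168 15 | 4 => ls' 168 13 | 9 => ls' 168 14 | _ => kz)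
  Pd := (fun i => match i with | 0 => ls' 168 16 | 1 => ls' 168 17 | 2 => ls' 168 18 + eK * ls' 168 21 | 4 => ls' 168 19 | 9 => ls' 168 20 | _ => kz)
  Cn := kz
  Cd := kz
  RD := [lr 168 42, lr 168 43, lr 168 44]
  RDp := kz
  nu := fun m => match m with | 0 => (fun i => match i with | 0 => ls' 168 47 | 1 => ls' 168 48 | 2 => ls' 168 49 + eK * ls' 168 52 | 4 => ls' 168 50 | 9 => ls' 168 51 | _ => kz) | 1 => (fun i => match i with | 0 => ls' 168 53 | 1 => ls' 168 54 | 2 => ls' 168 55 + eK * ls' 168 58 | 4 => ls' 168 56 | 9 => ls' 168 57 | _ => kz) | _ => fun _ => kz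
  du := fun m => match m with | 0 => (fun i => match i with | 0 => ls' 168 59 | 1 => ls' 168 60 | 2 => ls' 168 61 + eK * ls' 168 64 | 4 => ls' 168 62 | 9 => ls' 168 63 | _ => kz) | 1 => (fun i => match i with | 0 => ls' 168 65 | 1 => ls' 168 66 | 2 => ls' 168 67 + eK * ls' 168 70 | 4 => ls' 168 68 | 9 => ls' 168 69 | _ => kz) | _ => fun _ => kz
  κD := lr 168 45
  c4 := lr 168 46
  Fu := fun s m => match s with | true => (match m with | 0 => (fun i => match i with | 0 => ls' 168 71 | 1 => ls' 168 72 | 2 => ls' 168 73 + eK * ls' 168 76 | 4 => ls' 168 74 | 9 => ls' 168 75 | _ => kz) | 1 => (fun i => match i with | 0 => ls' 168 77 | 1 => ls' 168 78 | 2 => ls' 168 79 + eK * ls' 168 82 | 4 => ls' 168 80 | 9 => ls' 168 81 | _ => kz) | _ => fun _ => kz) | false => (match m with | 0 => (fun i => match i with | 0 => ls' 168 83 | 1 => ls' 168 84 | 2 => ls' 168 85 + eK * ls' 168 88 | 4 => ls' 168 86 | 9 => ls' 168 87 | _ => kz) |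 1 => (fun i => match i with | 0 => ls' 168 89 | 1 => ls' 168 90 | 2 => ls' 168 91 + eK * ls' 168 94 | 4 => ls' 168 92 | 9 => ls' 168 93 | _ => kz) | _ => fun _ => kz)
  Gn := fun m => match m with | 0 => lr 168 38 | 1 => lr 168 39 | _ => kz
  Ge := fun m => match m with | 0 => lr 168 40 | 1 => lr 168 41 | _ => kz
  cD := ⟨ls' 168 22, ls' 168 23, kz, ls' 168 24, ls' 168 25, kz, kz, kz⟩
  bn := ⟨ls' 168 26, ls' 168 27, kz, ls' 168 28, ls' 168 29, kz, kz, kz⟩
  bd := ⟨ls' 168 30, ls' 168 31, kz, ls' 168 32, ls' 168 33, kz, kz, kz⟩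
  cX := ⟨ls' 168 34, ls' 168 35, kz, ls' 168 36, ls' 168 37, kz, kz, kz⟩
  sl := fun _ => kz
  fe := fun k => match k with | 1 => [(lr 168 113 * (eX * hor eX [lr 168 1, lr 168 2, lr 168 3]), .f false .xhm), (lr 168 114 * (eX * hor eX [lr 168 1, lr 168 2, lr 168 3]), .f false .xqm), (lr 168 115 * (eX * hor eX [lr 168 1, lr 168 2, lr 168 3]), .f false .xsh), (lr 168 116 * (eX * hor eX [lr 168 1, lr 168 2, lr 168 3]), .f false .xsq), (lr 168 117 * (eX * hor eX [lr 168 1, lr 168 2, lr 168 3]), .f false .xsl), (lr 168 118 * (eX * hor eX [lr 168 1, lr 168 2, lr 168 3]), .f true .xhm), (lr 168 119 * (eX * hor eX [lr 168 1, lr 168 2, lr 168 3]), .f true .xqm), (lr 168 120 * (eX * hor eX [lr 168 1, lr 168 2, lr 168 3]), .f true .xsh), (lr 168 121 * (eX * hor eX [lr 168 1, lr 168 2, lr 168 3]), .f true .xsq), (lr 168 122 * (eX * hor eX [lr 168 1, lr 168 2, lr 168 3]), .f true .xsl), (lr 168 123 * (eX * hor eX [lr 168 1, lr 168 2,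 lr 168 3]), .xa)] | 2 => [(lr 168 124 * (eX * hor eX [lr 168 1, lr 168 2, lr 168 3]), .f false .xhm), (lr 168 125 * (eX * hor eX [lr 168 1, lr 168 2, lr 168 3]), .f false .xqm), (lr 168 126 * (eX * hor eX [lr 168 1, lr 168 2, lr 168 3]), .f false .xsh), (lr 168 127 * (eX * hor eX [lr 168 1, lr 168 2, lr 168 3]), .f false .xsq), (lr 168 128 * (eX * hor eX [lr 168 1, lr 168 2, lr 168 3]), .f false .xsl), (lr 168 129 * (eX * hor eX [lr 168 1, lr 168 2, lr 168 3]), .f true .xhm), (lr 168 130 * (eX * hor eX [lr 168 1, lr 168 2, lr 168 3]), .f true .xqm), (lr 168 131 * (eX * hor eX [lr 168 1, lr 168 2, lr 168 3]), .f true .xsh), (lr 168 132 * (eX * hor eX [lr 168 1, lr 168 2, lr 168 3]), .f true .xsq), (lr 168 133 * (eX * hor eX [lr 168 1, lr 168 2, lr 168 3]), .f true .xsl), (lr 168 134 * (eX * hor eX [lr 168 1, lr 168 2, lr 168 3]), .xa)] | _ => []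
  ff := fun k => match k with | 0 => [(lr 168 135, .xhm), (lr 168 136, .xqm), (lr 168 137, .xsh), (lr 168 138, .xsq), (lr 168 139, .xsl)] | 1 => [(lr 168 140, .xhm), (lr 168 141, .xqm), (lr 168 142, .xsh), (lr 168 143, .xsq), (lr 168 144, .xsl)] | 2 => [(lr 168 145, .xhm), (lr 168 146, .xqm), (lr 168 147, .xsh), (lr 168 148, .xsq), (lr 168 149, .xsl)] | 3 => [(lr 168 150, .xhm), (lr 168 151, .xqm), (lr 168 152, .xsh), (lr 168 153, .xsq), (lr 168 154, .xsl)] | 4 => [(lr 168 155, .xhm), (lr 168 156, .xqm), (lr 168 157, .xsh), (lr 168 158, .xsq), (lr 168 159, .xsl)] | 6 => [(lr 168 160, .xhm), (lr 168 161, .xqm), (lr 168 162, .xsh), (lr 168 163, .xsq), (lr 168 164, .xsl)] | _ => []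
def r : Tk1 where
  b := br
  R := 168
  iH := 0
  a := fun i => match i with | 0 => some ⟨95, 96, 97⟩ | 1 => some ⟨98, 99, 100⟩ | 2 => some ⟨101, 102, 103⟩ | 4 => some ⟨104, 105, 106⟩ | 9 => some ⟨107, 108, 109⟩ | 15 => some ⟨110, 111, 112⟩ | _ => none
end Pool.Agent.RZ.RCO.RecK
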