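import Pool.Agent.RZ.RCO.KZt0

/-! The types of a sheet (MP_73ccd0_lc). -/

set_option autoImplicit false
set_option maxRecDepth 100000

namespace Pool.Agent.RZ.RCO.KZ

open Sg

/-- the pieces -/
noncomputable def L : List (List Ty × List Tc) := [(t0, f0)]

theorem mp : (Pool.Agent.RZ.RCO.RecK.z.sheet).mp = true := by decide +kernel

theorem lay : Lay Pool.Agent.RZ.RCO.RecK.z.sheet 288 L :=
  lay_of (w := 150) mp (fun k hk => match k, hk with
    | 0, _ => p0
    | k + 1, hk => absurd (show k + 1 < 1 from hk) (by omega)) (by decide +kernel)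

end Pool.Agent.RZ.RCO.KZ
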