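import Pool.Agent.RZ.RCO.Gk13
import Pool.Agent.RZ.RCO.RecK

/-! Types of a sheet, piece 0 (MP_73ccd0_lc). -/

set_option autoImplicit false
set_option maxRecDepth 100000
set_option linter.all false

namespace Pool.Agent.RZ.RCO.KZ

open Sg

noncomputable def t0 : List Ty :=
 [⟨(.sub (.mul (.mul (.mul (.mul (.c 16777216) (.mul (.mul (.c 86) (.v 1)) (.add (.mul (.c 1024) (.add (.mul (.add (.mul (.mul (.c 1024) (.s 2 22 144 2)) (.w 0 1)) (.mul (.s 2 23 144 2) (.mul (.c 171) (.v 0)))) (.w 1 1)) (.mul (.mul (.s 2 24 144 2) (.mul (.c 86) (.v 1))) (.w 0 1)))) (.mul (.s 2 25 144 2) (.mul (.mul (.c 86) (.v 1)) (.mul (.c 171) (.v 0))))))) (.w 0 1)) (.w 1 1)) (.w 2 1)) (.mul (.mul (.mul (.c 86) (.v 1)) (.add (.mul (.mul (.c 1048576) (.r 2 1 144 2)) (.w 1 2)) (.mul (.mul (.c 86) (.v 1)) (.add (.mul (.mul (.c 1024) (.r 2 2 144 2)) (.w 1 1)) (.mul (.mul (.c 86) (.v 1)) (.r 2 3 144 2)))))) (.add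 (.mul (.q 2) (.r 0 4 1 3)) (.mul (.v 2) (.r 0 148 1 3))))), 97, 3, 4, 3, 1⟩,
  ⟨(.sub (.sub (.mul (.mul (.mul (.mul (.c 590295810358705651712) (.mul (.mul (.c 86) (.v 1)) (.add (.mul (.c 1024) (.add (.mul (.add (.mul (.mul (.c 1024) (.s 2 26 144 2)) (.w 0 1)) (.mul (.s 2 27 144 2) (.mul (.c 171) (.v 0)))) (.w 1 1)) (.mul (.mul (.s 2 28 144 2) (.mul (.c 86) (.v 1))) (.w 0 1)))) (.mul (.s 2 29 144 2) (.mul (.mul (.c 86) (.v 1)) (.mul (.c 171) (.v 0))))))) (.w 0 3)) (.w 1 3)) (.w 2 2)) (.mul (.mul (.mul (.c 86) (.v 1)) (.add (.mul (.mul (.c 1048576) (.r 2 1 144 2)) (.w 1 2)) (.mul (.mul (.c 86) (.v 1)) (.add (.mul (.mul (.c 1024) (.r 2 2 144 2)) (.w 1 1)) (.mul (.mul (.c 86) (.v 1)) (.r 2 3 144 2)))))) (.mul (.add (.mul (.q 2) (.r 0 4 1 3)) (.mul (.v 2) (.r 0 148 1 3))) (.mul (.c 1) (.add (.mul (.add (.mul (.mul (.c 1024) (.mul (.s 2 10 144 2) (.add (.mul (.mul (.c 767) (.w 0 1))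 (.w 1 1)) (.add (.mul (.mul (.c 171) (.q 0)) (.w 1 1)) (.mul (.mul (.c 86) (.q 1)) (.w 0 1)))))) (.w 0 1)) (.mul (.s 2 11 144 2) (.mul (.mul (.c 171) (.v 0)) (.add (.mul (.mul (.c 767) (.w 0 1)) (.w 1 1)) (.add (.mul (.mul (.c 171) (.q 0)) (.w 1 1)) (.mul (.mul (.c 86) (.q 1)) (.w 0 1))))))) (.w 1 1)) (.add (.mul (.add (.mul (.mul (.c 1024) (.mul (.s 2 10 144 2) (.add (.mul (.c 853) (.w 0 1)) (.mul (.c 171) (.q 0))))) (.w 0 1)) (.mul (.s 2 11 144 2) (.mul (.mul (.c 171) (.v 0)) (.add (.mul (.c 853) (.w 0 1)) (.mul (.c 171) (.q 0)))))) (.w 1 2)) (.mul (.mul (.s 2 13 144 2) (.mul (.mul (.c 86) (.v 1)) (.mul (.c 86) (.v 1)))) (.w 0 2)))))))) (.mul (.mul (.mul (.c 33554432) (.add (.mul (.mul (.c 1024) (.mul (.mul (.r 2 89 144 2) (.mul (.mul (.c 86) (.v 1)) (.add (.mul (.mul (.c 1048576) (.r 2 1 144 2)) (.w 1 2)) (.mul (.mul (.c 86) (.v 1)) (.add (.mul (.mul (.c 1024) (.r 2 2 144 2))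 (.w 1 1)) (.mul (.mul (.c 86) (.v 1)) (.r 2 3 144 2))))))) (.mul (.c 2) (.add (.mul (.mul (.c 767) (.w 0 1)) (.w 1 1)) (.add (.mul (.mul (.c 171) (.q 0)) (.w 1 1)) (.mul (.mul (.c 86) (.q 1)) (.w 0 1))))))) (.w 1 1)) (.add (.mul (.mul (.c 1024) (.mul (.mul (.r 2 90 144 2) (.mul (.mul (.c 86) (.v 1)) (.add (.mul (.mul (.c 1048576) (.r 2 1 144 2)) (.w 1 2)) (.mul (.mul (.c 86) (.v 1)) (.add (.mul (.mul (.c 1024) (.r 2 2 144 2)) (.w 1 1)) (.mul (.mul (.c 86) (.v 1)) (.r 2 3 144 2))))))) (.add (.mul (.mul (.c 767) (.w 0 1)) (.w 1 1)) (.add (.mul (.mul (.c 171) (.q 0)) (.w 1 1)) (.mul (.mul (.c 86) (.q 1)) (.w 0 1)))))) (.w 1 1)) (.add (.mul (.mul (.c 1024) (.mul (.mul (.r 2 93 144 2) (.mul (.mul (.c 86) (.v 1)) (.add (.mul (.mul (.c 1048576) (.r 2 1 144 2)) (.w 1 2)) (.mul (.mul (.c 86) (.v 1)) (.add (.mul (.mul (.c 1024) (.r 2 2 144 2)) (.w 1 1)) (.mul (.mul (.c 86) (.v 1)) (.r 2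 3 144 2))))))) (.mul (.c 2) (.add (.mul (.mul (.c 767) (.w 0 1)) (.w 1 1)) (.add (.mul (.mul (.c 171) (.q 0)) (.w 1 1)) (.mul (.mul (.c 86) (.q 1)) (.w 0 1))))))) (.w 1 1)) (.add (.mul (.mul (.c 1024) (.mul (.mul (.r 2 94 144 2) (.mul (.mul (.c 86) (.v 1)) (.add (.mul (.mul (.c 1048576) (.r 2 1 144 2)) (.w 1 2)) (.mul (.mul (.c 86) (.v 1)) (.add (.mul (.mul (.c 1024) (.r 2 2 144 2)) (.w 1 1)) (.mul (.mul (.c 86) (.v 1)) (.r 2 3 144 2))))))) (.mul (.c 2) (.add (.mul (.c 853) (.w 0 1)) (.mul (.c 171) (.q 0)))))) (.w 1 2)) (.add (.mul (.mul (.r 2 95 144 2) (.mul (.mul (.c 86) (.v 1)) (.add (.mul (.mul (.c 1048576) (.r 2 1 144 2)) (.w 1 2)) (.mul (.mul (.c 86) (.v 1)) (.add (.mul (.mul (.c 1024) (.r 2 2 144 2)) (.w 1 1)) (.mul (.mul (.c 86) (.v 1)) (.r 2 3 144 2))))))) (.sub (.mul (.mul (.c 1024) (.add (.mul (.c 853) (.w 0 1)) (.mul (.c 171) (.q 0)))) (.w 1 2)) (.mul (.mul (.c 12)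 (.mul (.mul (.c 86) (.v 1)) (.mul (.c 86) (.v 1)))) (.w 0 1)))) (.add (.mul (.mul (.mul (.r 2 97 144 2) (.mul (.mul (.c 86) (.v 1)) (.add (.mul (.mul (.c 1048576) (.r 2 1 144 2)) (.w 1 2)) (.mul (.mul (.c 86) (.v 1)) (.add (.mul (.mul (.c 1024) (.r 2 2 144 2)) (.w 1 1)) (.mul (.mul (.c 86) (.v 1)) (.r 2 3 144 2))))))) (.mul (.c 2) (.mul (.mul (.c 86) (.v 1)) (.mul (.c 86) (.v 1))))) (.w 0 1)) (.add (.mul (.mul (.r 2 98 144 2) (.mul (.mul (.c 86) (.v 1)) (.add (.mul (.mul (.c 1048576) (.r 2 1 144 2)) (.w 1 2)) (.mul (.mul (.c 86) (.v 1)) (.add (.mul (.mul (.c 1024) (.r 2 2 144 2)) (.w 1 1)) (.mul (.mul (.c 86) (.v 1)) (.r 2 3 144 2))))))) (.sub (.mul (.mul (.c 1024) (.mul (.c 2) (.add (.mul (.c 853) (.w 0 1)) (.mul (.c 171) (.q 0))))) (.w 1 2)) (.mul (.mul (.c 24) (.mul (.mul (.c 86) (.v 1)) (.mul (.c 86) (.v 1)))) (.w 0 1)))) (.mul (.mul (.mul (.c 1048576) (.mul (.mul (.r 2 99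 144 2) (.mul (.mul (.c 86) (.v 1)) (.add (.mul (.mul (.c 1048576) (.r 2 1 144 2)) (.w 1 2)) (.mul (.mul (.c 86) (.v 1)) (.add (.mul (.mul (.c 1024) (.r 2 2 144 2)) (.w 1 1)) (.mul (.mul (.c 86) (.v 1)) (.r 2 3 144 2))))))) (.c 2))) (.w 0 1)) (.w 1 2)))))))))) (.w 0 3)) (.w 2 1))), 155, 5, 6, 4, 1⟩,
  ⟨(.sub (.sub (.mul (.mul (.mul (.c 0) (.w 0 3)) (.w 1 3)) (.w 2 3)) (.mul (.mul (.mul (.c 86) (.v 1)) (.add (.mul (.mul (.c 1048576) (.r 2 1 144 2)) (.w 1 2)) (.mul (.mul (.c 86) (.v 1)) (.add (.mul (.mul (.c 1024) (.r 2 2 144 2)) (.w 1 1)) (.mul (.mul (.c 86) (.v 1)) (.r 2 3 144 2)))))) (.mul (.add (.mul (.q 2) (.r 0 4 1 3)) (.mul (.v 2) (.r 0 148 1 3))) (.mul (.c 1) (.add (.mul (.add (.mul (.mul (.c 1024) (.s 2 12 144 2)) (.w 0 1)) (.mul (.mul (.c 171) (.v 0)) (.s 2 15 144 2))) (.c 1)) (.mul (.add (.mul (.mul (.c 1024) (.s 2 12 144 2)) (.w 0 1)) (.mul (.mul (.c 171) (.v 0)) (.s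 2 15 144 2))) (.c 1))))))) (.mul (.mul (.mul (.c 34359738368) (.add (.mul (.mul (.r 2 89 144 2) (.mul (.mul (.c 86) (.v 1)) (.add (.mul (.mul (.c 1048576) (.r 2 1 144 2)) (.w 1 2)) (.mul (.mul (.c 86) (.v 1)) (.add (.mul (.mul (.c 1024) (.r 2 2 144 2)) (.w 1 1)) (.mul (.mul (.c 86) (.v 1)) (.r 2 3 144 2))))))) (.sub (.c 0) (.mul (.c 12) (.c 1)))) (.add (.mul (.mul (.r 2 91 144 2) (.mul (.mul (.c 86) (.v 1)) (.add (.mul (.mul (.c 1048576) (.r 2 1 144 2)) (.w 1 2)) (.mul (.mul (.c 86) (.v 1)) (.add (.mul (.mul (.c 1024) (.r 2 2 144 2)) (.w 1 1)) (.mul (.mul (.c 86) (.v 1)) (.r 2 3 144 2))))))) (.c 1)) (.add (.mul (.mul (.r 2 93 144 2) (.mul (.mul (.c 86) (.v 1)) (.add (.mul (.mul (.c 1048576) (.r 2 1 144 2)) (.w 1 2)) (.mul (.mul (.c 86) (.v 1)) (.add (.mul (.mul (.c 1024) (.r 2 2 144 2)) (.w 1 1)) (.mul (.mul (.c 86) (.v 1)) (.r 2 3 144 2))))))) (.sub (.c 0) (.mul (.c 12) (.c 1))))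 (.add (.mul (.mul (.r 2 94 144 2) (.mul (.mul (.c 86) (.v 1)) (.add (.mul (.mul (.c 1048576) (.r 2 1 144 2)) (.w 1 2)) (.mul (.mul (.c 86) (.v 1)) (.add (.mul (.mul (.c 1024) (.r 2 2 144 2)) (.w 1 1)) (.mul (.mul (.c 86) (.v 1)) (.r 2 3 144 2))))))) (.sub (.c 0) (.mul (.c 12) (.c 1)))) (.add (.mul (.mul (.r 2 96 144 2) (.mul (.mul (.c 86) (.v 1)) (.add (.mul (.mul (.c 1048576) (.r 2 1 144 2)) (.w 1 2)) (.mul (.mul (.c 86) (.v 1)) (.add (.mul (.mul (.c 1024) (.r 2 2 144 2)) (.w 1 1)) (.mul (.mul (.c 86) (.v 1)) (.r 2 3 144 2))))))) (.c 1)) (.mul (.mul (.r 2 98 144 2) (.mul (.mul (.c 86) (.v 1)) (.add (.mul (.mul (.c 1048576) (.r 2 1 144 2)) (.w 1 2)) (.mul (.mul (.c 86) (.v 1)) (.add (.mul (.mul (.c 1024) (.r 2 2 144 2)) (.w 1 1)) (.mul (.mul (.c 86) (.v 1)) (.r 2 3 144 2))))))) (.sub (.c 0) (.mul (.c 12) (.c 1)))))))))) (.w 0 3)) (.w 2 1))), 142, 4, 4, 4, 1⟩,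
  ⟨(.sub (.sub (.mul (.mul (.mul (.c 0) (.w 0 2)) (.w 1 3)) (.w 2 3)) (.mul (.mul (.mul (.c 86) (.v 1)) (.add (.mul (.mul (.c 1048576) (.r 2 1 144 2)) (.w 1 2)) (.mul (.mul (.c 86) (.v 1)) (.add (.mul (.mul (.c 1024) (.r 2 2 144 2)) (.w 1 1)) (.mul (.mul (.c 86) (.v 1)) (.r 2 3 144 2)))))) (.mul (.add (.mul (.q 2) (.r 0 4 1 3)) (.mul (.v 2) (.r 0 148 1 3))) (.mul (.c 1) (.add (.mul (.s 2 13 144 2) (.c 1)) (.mul (.s 2 13 144 2) (.c 1))))))) (.mul (.mul (.mul (.c 33554432) (.add (.mul (.mul (.r 2 90 144 2) (.mul (.mul (.c 86) (.v 1)) (.add (.mul (.mul (.c 1048576) (.r 2 1 144 2)) (.w 1 2)) (.mul (.mul (.c 86) (.v 1)) (.add (.mul (.mul (.c 1024) (.r 2 2 144 2)) (.w 1 1)) (.mul (.mul (.c 86) (.v 1)) (.r 2 3 144 2))))))) (.sub (.c 0) (.mul (.c 12) (.c 1)))) (.add (.mul (.mul (.r 2 92 144 2) (.mul (.mul (.c 86) (.v 1)) (.add (.mul (.mul (.c 1048576) (.r 2 1 144 2)) (.w 1 2)) (.mul (.mul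 (.c 86) (.v 1)) (.add (.mul (.mul (.c 1024) (.r 2 2 144 2)) (.w 1 1)) (.mul (.mul (.c 86) (.v 1)) (.r 2 3 144 2))))))) (.mul (.c 2) (.c 1))) (.add (.mul (.mul (.r 2 93 144 2) (.mul (.mul (.c 86) (.v 1)) (.add (.mul (.mul (.c 1048576) (.r 2 1 144 2)) (.w 1 2)) (.mul (.mul (.c 86) (.v 1)) (.add (.mul (.mul (.c 1024) (.r 2 2 144 2)) (.w 1 1)) (.mul (.mul (.c 86) (.v 1)) (.r 2 3 144 2))))))) (.sub (.c 0) (.mul (.c 24) (.c 1)))) (.add (.mul (.mul (.r 2 95 144 2) (.mul (.mul (.c 86) (.v 1)) (.add (.mul (.mul (.c 1048576) (.r 2 1 144 2)) (.w 1 2)) (.mul (.mul (.c 86) (.v 1)) (.add (.mul (.mul (.c 1024) (.r 2 2 144 2)) (.w 1 1)) (.mul (.mul (.c 86) (.v 1)) (.r 2 3 144 2))))))) (.sub (.c 0) (.mul (.c 12) (.c 1)))) (.add (.mul (.mul (.r 2 97 144 2) (.mul (.mul (.c 86) (.v 1)) (.add (.mul (.mul (.c 1048576) (.r 2 1 144 2)) (.w 1 2)) (.mul (.mul (.c 86) (.v 1)) (.add (.mul (.mul (.c 1024)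 (.r 2 2 144 2)) (.w 1 1)) (.mul (.mul (.c 86) (.v 1)) (.r 2 3 144 2))))))) (.mul (.c 2) (.c 1))) (.mul (.mul (.r 2 98 144 2) (.mul (.mul (.c 86) (.v 1)) (.add (.mul (.mul (.c 1048576) (.r 2 1 144 2)) (.w 1 2)) (.mul (.mul (.c 86) (.v 1)) (.add (.mul (.mul (.c 1024) (.r 2 2 144 2)) (.w 1 1)) (.mul (.mul (.c 86) (.v 1)) (.r 2 3 144 2))))))) (.sub (.c 0) (.mul (.c 24) (.c 1)))))))))) (.w 0 2)) (.w 2 1))), 131, 3, 4, 4, 1⟩,
  ⟨(.sub (.sub (.mul (.mul (.mul (.c 0) (.w 0 2)) (.w 1 3)) (.w 2 3)) (.mul (.mul (.mul (.c 86) (.v 1)) (.add (.mul (.mul (.c 1048576) (.r 2 1 144 2)) (.w 1 2)) (.mul (.mul (.c 86) (.v 1)) (.add (.mul (.mul (.c 1024) (.r 2 2 144 2)) (.w 1 1)) (.mul (.mul (.c 86) (.v 1)) (.r 2 3 144 2)))))) (.mul (.add (.mul (.q 2) (.r 0 4 1 3)) (.mul (.v 2) (.r 0 148 1 3))) (.mul (.c 1) (.add (.mul (.s 2 14 144 2) (.c 1)) (.mul (.s 2 14 144 2) (.c 1))))))) (.mul (.mul (.mul (.c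 33554432) (.add (.mul (.mul (.r 2 91 144 2) (.mul (.mul (.c 86) (.v 1)) (.add (.mul (.mul (.c 1048576) (.r 2 1 144 2)) (.w 1 2)) (.mul (.mul (.c 86) (.v 1)) (.add (.mul (.mul (.c 1024) (.r 2 2 144 2)) (.w 1 1)) (.mul (.mul (.c 86) (.v 1)) (.r 2 3 144 2))))))) (.sub (.c 0) (.mul (.c 12) (.c 1)))) (.add (.mul (.mul (.r 2 92 144 2) (.mul (.mul (.c 86) (.v 1)) (.add (.mul (.mul (.c 1048576) (.r 2 1 144 2)) (.w 1 2)) (.mul (.mul (.c 86) (.v 1)) (.add (.mul (.mul (.c 1024) (.r 2 2 144 2)) (.w 1 1)) (.mul (.mul (.c 86) (.v 1)) (.r 2 3 144 2))))))) (.sub (.c 0) (.mul (.c 12) (.c 1)))) (.add (.mul (.mul (.r 2 93 144 2) (.mul (.mul (.c 86) (.v 1)) (.add (.mul (.mul (.c 1048576) (.r 2 1 144 2)) (.w 1 2)) (.mul (.mul (.c 86) (.v 1)) (.add (.mul (.mul (.c 1024) (.r 2 2 144 2)) (.w 1 1)) (.mul (.mul (.c 86) (.v 1)) (.r 2 3 144 2))))))) (.mul (.c 144) (.c 1))) (.add (.mul (.mul (.r 2 96 144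 2) (.mul (.mul (.c 86) (.v 1)) (.add (.mul (.mul (.c 1048576) (.r 2 1 144 2)) (.w 1 2)) (.mul (.mul (.c 86) (.v 1)) (.add (.mul (.mul (.c 1024) (.r 2 2 144 2)) (.w 1 1)) (.mul (.mul (.c 86) (.v 1)) (.r 2 3 144 2))))))) (.sub (.c 0) (.mul (.c 12) (.c 1)))) (.add (.mul (.mul (.r 2 97 144 2) (.mul (.mul (.c 86) (.v 1)) (.add (.mul (.mul (.c 1048576) (.r 2 1 144 2)) (.w 1 2)) (.mul (.mul (.c 86) (.v 1)) (.add (.mul (.mul (.c 1024) (.r 2 2 144 2)) (.w 1 1)) (.mul (.mul (.c 86) (.v 1)) (.r 2 3 144 2))))))) (.sub (.c 0) (.mul (.c 12) (.c 1)))) (.mul (.mul (.r 2 98 144 2) (.mul (.mul (.c 86) (.v 1)) (.add (.mul (.mul (.c 1048576) (.r 2 1 144 2)) (.w 1 2)) (.mul (.mul (.c 86) (.v 1)) (.add (.mul (.mul (.c 1024) (.r 2 2 144 2)) (.w 1 1)) (.mul (.mul (.c 86) (.v 1)) (.r 2 3 144 2))))))) (.mul (.c 144) (.c 1))))))))) (.w 0 2)) (.w 2 1))), 132, 3, 4, 4, 1⟩,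
  ⟨(.sub (.sub (.mul (.mul (.mul (.c 0) (.w 0 3)) (.w 1 5)) (.w 2 3)) (.mul (.mul (.mul (.c 86) (.v 1)) (.add (.mul (.mul (.c 1048576) (.r 2 1 144 2)) (.w 1 2)) (.mul (.mul (.c 86) (.v 1)) (.add (.mul (.mul (.c 1024) (.r 2 2 144 2)) (.w 1 1)) (.mul (.mul (.c 86) (.v 1)) (.r 2 3 144 2)))))) (.mul (.add (.mul (.q 2) (.r 0 4 1 3)) (.mul (.v 2) (.r 0 148 1 3))) (.mul (.c 1) (.add (.mul (.mul (.add (.mul (.mul (.c 1024) (.s 2 12 144 2)) (.w 0 1)) (.mul (.mul (.c 171) (.v 0)) (.s 2 15 144 2))) (.mul (.c 86) (.v 1))) (.w 1 1)) (.mul (.mul (.s 2 14 144 2) (.mul (.mul (.c 86) (.v 1)) (.mul (.c 86) (.v 1)))) (.w 0 1))))))) (.mul (.mul (.mul (.c 33554432) (.add (.mul (.mul (.c 1024) (.mul (.mul (.r 2 94 144 2) (.mul (.mul (.c 86) (.v 1)) (.add (.mul (.mul (.c 1048576) (.r 2 1 144 2)) (.w 1 2)) (.mul (.mul (.c 86) (.v 1)) (.add (.mul (.mul (.c 1024) (.r 2 2 144 2)) (.w 1 1)) (.mul (.mul (.c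 86) (.v 1)) (.r 2 3 144 2))))))) (.sub (.mul (.c 0) (.w 1 1)) (.mul (.c 12) (.mul (.c 86) (.v 1)))))) (.w 1 1)) (.add (.mul (.mul (.r 2 96 144 2) (.mul (.mul (.c 86) (.v 1)) (.add (.mul (.mul (.c 1048576) (.r 2 1 144 2)) (.w 1 2)) (.mul (.mul (.c 86) (.v 1)) (.add (.mul (.mul (.c 1024) (.r 2 2 144 2)) (.w 1 1)) (.mul (.mul (.c 86) (.v 1)) (.r 2 3 144 2))))))) (.sub (.mul (.mul (.c 1024) (.mul (.c 86) (.v 1))) (.w 1 1)) (.mul (.c 12) (.mul (.mul (.c 86) (.v 1)) (.mul (.c 86) (.v 1)))))) (.add (.mul (.mul (.r 2 97 144 2) (.mul (.mul (.c 86) (.v 1)) (.add (.mul (.mul (.c 1048576) (.r 2 1 144 2)) (.w 1 2)) (.mul (.mul (.c 86) (.v 1)) (.add (.mul (.mul (.c 1024) (.r 2 2 144 2)) (.w 1 1)) (.mul (.mul (.c 86) (.v 1)) (.r 2 3 144 2))))))) (.sub (.mul (.c 0) (.w 1 2)) (.mul (.c 12) (.mul (.mul (.c 86) (.v 1)) (.mul (.c 86) (.v 1)))))) (.add (.mul (.mul (.r 2 98 144 2) (.mul (.mul (.c 86)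 (.v 1)) (.add (.mul (.mul (.c 1048576) (.r 2 1 144 2)) (.w 1 2)) (.mul (.mul (.c 86) (.v 1)) (.add (.mul (.mul (.c 1024) (.r 2 2 144 2)) (.w 1 1)) (.mul (.mul (.c 86) (.v 1)) (.r 2 3 144 2))))))) (.sub (.mul (.c 144) (.mul (.mul (.c 86) (.v 1)) (.mul (.c 86) (.v 1)))) (.mul (.mul (.c 1024) (.mul (.c 12) (.mul (.c 86) (.v 1)))) (.w 1 1)))) (.mul (.mul (.c 1048576) (.mul (.mul (.r 2 99 144 2) (.mul (.mul (.c 86) (.v 1)) (.add (.mul (.mul (.c 1048576) (.r 2 1 144 2)) (.w 1 2)) (.mul (.mul (.c 86) (.v 1)) (.add (.mul (.mul (.c 1024) (.r 2 2 144 2)) (.w 1 1)) (.mul (.mul (.c 86) (.v 1)) (.r 2 3 144 2))))))) (.sub (.c 0) (.mul (.c 12) (.c 1))))) (.w 1 2))))))) (.w 0 3)) (.w 2 1))), 150, 4, 6, 4, 1⟩,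
  ⟨(.sub (.sub (.mul (.mul (.mul (.mul (.c 590295810358705651712) (.mul (.mul (.c 86) (.v 1)) (.add (.mul (.c 1024) (.add (.mul (.add (.mul (.mul (.c 1024) (.s 2 30 144 2)) (.w 0 1)) (.mul (.s 2 31 144 2) (.mul (.c 171) (.v 0)))) (.w 1 1)) (.mul (.mul (.s 2 32 144 2) (.mul (.c 86) (.v 1))) (.w 0 1)))) (.mul (.s 2 33 144 2) (.mul (.mul (.c 86) (.v 1)) (.mul (.c 171) (.v 0))))))) (.w 0 3)) (.w 1 3)) (.w 2 2)) (.mul (.mul (.mul (.c 86) (.v 1)) (.add (.mul (.mul (.c 1048576) (.r 2 1 144 2)) (.w 1 2)) (.mul (.mul (.c 86) (.v 1)) (.add (.mul (.mul (.c 1024) (.r 2 2 144 2)) (.w 1 1)) (.mul (.mul (.c 86) (.v 1)) (.r 2 3 144 2)))))) (.mul (.add (.mul (.q 2) (.r 0 4 1 3)) (.mul (.v 2) (.r 0 148 1 3))) (.mul (.c 1) (.add (.mul (.add (.mul (.mul (.c 1024) (.mul (.s 2 16 144 2) (.add (.mul (.mul (.c 767) (.w 0 1)) (.w 1 1)) (.add (.mul (.mul (.c 171) (.q 0)) (.w 1 1)) (.mul (.mul (.c 86) (.q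 1)) (.w 0 1)))))) (.w 0 1)) (.mul (.s 2 17 144 2) (.mul (.mul (.c 171) (.v 0)) (.add (.mul (.mul (.c 767) (.w 0 1)) (.w 1 1)) (.add (.mul (.mul (.c 171) (.q 0)) (.w 1 1)) (.mul (.mul (.c 86) (.q 1)) (.w 0 1))))))) (.w 1 1)) (.add (.mul (.add (.mul (.mul (.c 1024) (.mul (.s 2 16 144 2) (.add (.mul (.c 853) (.w 0 1)) (.mul (.c 171) (.q 0))))) (.w 0 1)) (.mul (.s 2 17 144 2) (.mul (.mul (.c 171) (.v 0)) (.add (.mul (.c 853) (.w 0 1)) (.mul (.c 171) (.q 0)))))) (.w 1 2)) (.mul (.mul (.s 2 19 144 2) (.mul (.mul (.c 86) (.v 1)) (.mul (.c 86) (.v 1)))) (.w 0 2)))))))) (.mul (.mul (.mul (.c 33554432) (.add (.mul (.mul (.c 1024) (.mul (.mul (.r 2 100 144 2) (.mul (.mul (.c 86) (.v 1)) (.add (.mul (.mul (.c 1048576) (.r 2 1 144 2)) (.w 1 2)) (.mul (.mul (.c 86) (.v 1)) (.add (.mul (.mul (.c 1024) (.r 2 2 144 2)) (.w 1 1)) (.mul (.mul (.c 86) (.v 1)) (.r 2 3 144 2))))))) (.mul (.c 2) (.add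 (.mul (.mul (.c 767) (.w 0 1)) (.w 1 1)) (.add (.mul (.mul (.c 171) (.q 0)) (.w 1 1)) (.mul (.mul (.c 86) (.q 1)) (.w 0 1))))))) (.w 1 1)) (.add (.mul (.mul (.c 1024) (.mul (.mul (.r 2 101 144 2) (.mul (.mul (.c 86) (.v 1)) (.add (.mul (.mul (.c 1048576) (.r 2 1 144 2)) (.w 1 2)) (.mul (.mul (.c 86) (.v 1)) (.add (.mul (.mul (.c 1024) (.r 2 2 144 2)) (.w 1 1)) (.mul (.mul (.c 86) (.v 1)) (.r 2 3 144 2))))))) (.add (.mul (.mul (.c 767) (.w 0 1)) (.w 1 1)) (.add (.mul (.mul (.c 171) (.q 0)) (.w 1 1)) (.mul (.mul (.c 86) (.q 1)) (.w 0 1)))))) (.w 1 1)) (.add (.mul (.mul (.c 1024) (.mul (.mul (.r 2 104 144 2) (.mul (.mul (.c 86) (.v 1)) (.add (.mul (.mul (.c 1048576) (.r 2 1 144 2)) (.w 1 2)) (.mul (.mul (.c 86) (.v 1)) (.add (.mul (.mul (.c 1024) (.r 2 2 144 2)) (.w 1 1)) (.mul (.mul (.c 86) (.v 1)) (.r 2 3 144 2))))))) (.mul (.c 2) (.add (.mul (.mul (.c 767) (.w 0 1)) (.w 1 1))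 (.add (.mul (.mul (.c 171) (.q 0)) (.w 1 1)) (.mul (.mul (.c 86) (.q 1)) (.w 0 1))))))) (.w 1 1)) (.add (.mul (.mul (.c 1024) (.mul (.mul (.r 2 105 144 2) (.mul (.mul (.c 86) (.v 1)) (.add (.mul (.mul (.c 1048576) (.r 2 1 144 2)) (.w 1 2)) (.mul (.mul (.c 86) (.v 1)) (.add (.mul (.mul (.c 1024) (.r 2 2 144 2)) (.w 1 1)) (.mul (.mul (.c 86) (.v 1)) (.r 2 3 144 2))))))) (.mul (.c 2) (.add (.mul (.c 853) (.w 0 1)) (.mul (.c 171) (.q 0)))))) (.w 1 2)) (.add (.mul (.mul (.r 2 106 144 2) (.mul (.mul (.c 86) (.v 1)) (.add (.mul (.mul (.c 1048576) (.r 2 1 144 2)) (.w 1 2)) (.mul (.mul (.c 86) (.v 1)) (.add (.mul (.mul (.c 1024) (.r 2 2 144 2)) (.w 1 1)) (.mul (.mul (.c 86) (.v 1)) (.r 2 3 144 2))))))) (.sub (.mul (.mul (.c 1024) (.add (.mul (.c 853) (.w 0 1)) (.mul (.c 171) (.q 0)))) (.w 1 2)) (.mul (.mul (.c 12) (.mul (.mul (.c 86) (.v 1)) (.mul (.c 86) (.v 1)))) (.w 0 1)))) (.add (.mul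 (.mul (.mul (.r 2 108 144 2) (.mul (.mul (.c 86) (.v 1)) (.add (.mul (.mul (.c 1048576) (.r 2 1 144 2)) (.w 1 2)) (.mul (.mul (.c 86) (.v 1)) (.add (.mul (.mul (.c 1024) (.r 2 2 144 2)) (.w 1 1)) (.mul (.mul (.c 86) (.v 1)) (.r 2 3 144 2))))))) (.mul (.c 2) (.mul (.mul (.c 86) (.v 1)) (.mul (.c 86) (.v 1))))) (.w 0 1)) (.add (.mul (.mul (.r 2 109 144 2) (.mul (.mul (.c 86) (.v 1)) (.add (.mul (.mul (.c 1048576) (.r 2 1 144 2)) (.w 1 2)) (.mul (.mul (.c 86) (.v 1)) (.add (.mul (.mul (.c 1024) (.r 2 2 144 2)) (.w 1 1)) (.mul (.mul (.c 86) (.v 1)) (.r 2 3 144 2))))))) (.sub (.mul (.mul (.c 1024) (.mul (.c 2) (.add (.mul (.c 853) (.w 0 1)) (.mul (.c 171) (.q 0))))) (.w 1 2)) (.mul (.mul (.c 24) (.mul (.mul (.c 86) (.v 1)) (.mul (.c 86) (.v 1)))) (.w 0 1)))) (.mul (.mul (.mul (.c 1048576) (.mul (.mul (.r 2 110 144 2) (.mul (.mul (.c 86) (.v 1)) (.add (.mul (.mul (.c 1048576) (.r 2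 1 144 2)) (.w 1 2)) (.mul (.mul (.c 86) (.v 1)) (.add (.mul (.mul (.c 1024) (.r 2 2 144 2)) (.w 1 1)) (.mul (.mul (.c 86) (.v 1)) (.r 2 3 144 2))))))) (.c 2))) (.w 0 1)) (.w 1 2)))))))))) (.w 0 3)) (.w 2 1))), 155, 5, 6, 4, 1⟩,
  ⟨(.sub (.sub (.mul (.mul (.mul (.c 0) (.w 0 3)) (.w 1 3)) (.w 2 3)) (.mul (.mul (.mul (.c 86) (.v 1)) (.add (.mul (.mul (.c 1048576) (.r 2 1 144 2)) (.w 1 2)) (.mul (.mul (.c 86) (.v 1)) (.add (.mul (.mul (.c 1024) (.r 2 2 144 2)) (.w 1 1)) (.mul (.mul (.c 86) (.v 1)) (.r 2 3 144 2)))))) (.mul (.add (.mul (.q 2) (.r 0 4 1 3)) (.mul (.v 2) (.r 0 148 1 3))) (.mul (.c 1) (.add (.mul (.add (.mul (.mul (.c 1024) (.s 2 18 144 2)) (.w 0 1)) (.mul (.mul (.c 171) (.v 0)) (.s 2 21 144 2))) (.c 1)) (.mul (.add (.mul (.mul (.c 1024) (.s 2 18 144 2)) (.w 0 1)) (.mul (.mul (.c 171) (.v 0)) (.s 2 21 144 2))) (.c 1))))))) (.mul (.mul (.mul (.c 34359738368) (.add (.mul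 (.mul (.r 2 100 144 2) (.mul (.mul (.c 86) (.v 1)) (.add (.mul (.mul (.c 1048576) (.r 2 1 144 2)) (.w 1 2)) (.mul (.mul (.c 86) (.v 1)) (.add (.mul (.mul (.c 1024) (.r 2 2 144 2)) (.w 1 1)) (.mul (.mul (.c 86) (.v 1)) (.r 2 3 144 2))))))) (.sub (.c 0) (.mul (.c 12) (.c 1)))) (.add (.mul (.mul (.r 2 102 144 2) (.mul (.mul (.c 86) (.v 1)) (.add (.mul (.mul (.c 1048576) (.r 2 1 144 2)) (.w 1 2)) (.mul (.mul (.c 86) (.v 1)) (.add (.mul (.mul (.c 1024) (.r 2 2 144 2)) (.w 1 1)) (.mul (.mul (.c 86) (.v 1)) (.r 2 3 144 2))))))) (.c 1)) (.add (.mul (.mul (.r 2 104 144 2) (.mul (.mul (.c 86) (.v 1)) (.add (.mul (.mul (.c 1048576) (.r 2 1 144 2)) (.w 1 2)) (.mul (.mul (.c 86) (.v 1)) (.add (.mul (.mul (.c 1024) (.r 2 2 144 2)) (.w 1 1)) (.mul (.mul (.c 86) (.v 1)) (.r 2 3 144 2))))))) (.sub (.c 0) (.mul (.c 12) (.c 1)))) (.add (.mul (.mul (.r 2 105 144 2) (.mul (.mul (.c 86) (.v 1)) (.add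 (.mul (.mul (.c 1048576) (.r 2 1 144 2)) (.w 1 2)) (.mul (.mul (.c 86) (.v 1)) (.add (.mul (.mul (.c 1024) (.r 2 2 144 2)) (.w 1 1)) (.mul (.mul (.c 86) (.v 1)) (.r 2 3 144 2))))))) (.sub (.c 0) (.mul (.c 12) (.c 1)))) (.add (.mul (.mul (.r 2 107 144 2) (.mul (.mul (.c 86) (.v 1)) (.add (.mul (.mul (.c 1048576) (.r 2 1 144 2)) (.w 1 2)) (.mul (.mul (.c 86) (.v 1)) (.add (.mul (.mul (.c 1024) (.r 2 2 144 2)) (.w 1 1)) (.mul (.mul (.c 86) (.v 1)) (.r 2 3 144 2))))))) (.c 1)) (.mul (.mul (.r 2 109 144 2) (.mul (.mul (.c 86) (.v 1)) (.add (.mul (.mul (.c 1048576) (.r 2 1 144 2)) (.w 1 2)) (.mul (.mul (.c 86) (.v 1)) (.add (.mul (.mul (.c 1024) (.r 2 2 144 2)) (.w 1 1)) (.mul (.mul (.c 86) (.v 1)) (.r 2 3 144 2))))))) (.sub (.c 0) (.mul (.c 12) (.c 1)))))))))) (.w 0 3)) (.w 2 1))), 142, 4, 4, 4, 1⟩,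
  ⟨(.sub (.sub (.mul (.mul (.mul (.c 0) (.w 0 2)) (.w 1 3)) (.w 2 3)) (.mul (.mul (.mul (.c 86) (.v 1)) (.add (.mul (.mul (.c 1048576) (.r 2 1 144 2)) (.w 1 2)) (.mul (.mul (.c 86) (.v 1)) (.add (.mul (.mul (.c 1024) (.r 2 2 144 2)) (.w 1 1)) (.mul (.mul (.c 86) (.v 1)) (.r 2 3 144 2)))))) (.mul (.add (.mul (.q 2) (.r 0 4 1 3)) (.mul (.v 2) (.r 0 148 1 3))) (.mul (.c 1) (.add (.mul (.s 2 19 144 2) (.c 1)) (.mul (.s 2 19 144 2) (.c 1))))))) (.mul (.mul (.mul (.c 33554432) (.add (.mul (.mul (.r 2 101 144 2) (.mul (.mul (.c 86) (.v 1)) (.add (.mul (.mul (.c 1048576) (.r 2 1 144 2)) (.w 1 2)) (.mul (.mul (.c 86) (.v 1)) (.add (.mul (.mul (.c 1024) (.r 2 2 144 2)) (.w 1 1)) (.mul (.mul (.c 86) (.v 1)) (.r 2 3 144 2))))))) (.sub (.c 0) (.mul (.c 12) (.c 1)))) (.add (.mul (.mul (.r 2 103 144 2) (.mul (.mul (.c 86) (.v 1)) (.add (.mul (.mul (.c 1048576) (.r 2 1 144 2)) (.w 1 2)) (.mul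 (.mul (.c 86) (.v 1)) (.add (.mul (.mul (.c 1024) (.r 2 2 144 2)) (.w 1 1)) (.mul (.mul (.c 86) (.v 1)) (.r 2 3 144 2))))))) (.mul (.c 2) (.c 1))) (.add (.mul (.mul (.r 2 104 144 2) (.mul (.mul (.c 86) (.v 1)) (.add (.mul (.mul (.c 1048576) (.r 2 1 144 2)) (.w 1 2)) (.mul (.mul (.c 86) (.v 1)) (.add (.mul (.mul (.c 1024) (.r 2 2 144 2)) (.w 1 1)) (.mul (.mul (.c 86) (.v 1)) (.r 2 3 144 2))))))) (.sub (.c 0) (.mul (.c 24) (.c 1)))) (.add (.mul (.mul (.r 2 106 144 2) (.mul (.mul (.c 86) (.v 1)) (.add (.mul (.mul (.c 1048576) (.r 2 1 144 2)) (.w 1 2)) (.mul (.mul (.c 86) (.v 1)) (.add (.mul (.mul (.c 1024) (.r 2 2 144 2)) (.w 1 1)) (.mul (.mul (.c 86) (.v 1)) (.r 2 3 144 2))))))) (.sub (.c 0) (.mul (.c 12) (.c 1)))) (.add (.mul (.mul (.r 2 108 144 2) (.mul (.mul (.c 86) (.v 1)) (.add (.mul (.mul (.c 1048576) (.r 2 1 144 2)) (.w 1 2)) (.mul (.mul (.c 86) (.v 1)) (.add (.mul (.mul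 (.c 1024) (.r 2 2 144 2)) (.w 1 1)) (.mul (.mul (.c 86) (.v 1)) (.r 2 3 144 2))))))) (.mul (.c 2) (.c 1))) (.mul (.mul (.r 2 109 144 2) (.mul (.mul (.c 86) (.v 1)) (.add (.mul (.mul (.c 1048576) (.r 2 1 144 2)) (.w 1 2)) (.mul (.mul (.c 86) (.v 1)) (.add (.mul (.mul (.c 1024) (.r 2 2 144 2)) (.w 1 1)) (.mul (.mul (.c 86) (.v 1)) (.r 2 3 144 2))))))) (.sub (.c 0) (.mul (.c 24) (.c 1)))))))))) (.w 0 2)) (.w 2 1))), 131, 3, 4, 4, 1⟩,
  ⟨(.sub (.sub (.mul (.mul (.mul (.c 0) (.w 0 2)) (.w 1 3)) (.w 2 3)) (.mul (.mul (.mul (.c 86) (.v 1)) (.add (.mul (.mul (.c 1048576) (.r 2 1 144 2)) (.w 1 2)) (.mul (.mul (.c 86) (.v 1)) (.add (.mul (.mul (.c 1024) (.r 2 2 144 2)) (.w 1 1)) (.mul (.mul (.c 86) (.v 1)) (.r 2 3 144 2)))))) (.mul (.add (.mul (.q 2) (.r 0 4 1 3)) (.mul (.v 2) (.r 0 148 1 3))) (.mul (.c 1) (.add (.mul (.s 2 20 144 2) (.c 1)) (.mul (.s 2 20 144 2) (.c 1))))))) (.mul (.mul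 (.mul (.c 33554432) (.add (.mul (.mul (.r 2 102 144 2) (.mul (.mul (.c 86) (.v 1)) (.add (.mul (.mul (.c 1048576) (.r 2 1 144 2)) (.w 1 2)) (.mul (.mul (.c 86) (.v 1)) (.add (.mul (.mul (.c 1024) (.r 2 2 144 2)) (.w 1 1)) (.mul (.mul (.c 86) (.v 1)) (.r 2 3 144 2))))))) (.sub (.c 0) (.mul (.c 12) (.c 1)))) (.add (.mul (.mul (.r 2 103 144 2) (.mul (.mul (.c 86) (.v 1)) (.add (.mul (.mul (.c 1048576) (.r 2 1 144 2)) (.w 1 2)) (.mul (.mul (.c 86) (.v 1)) (.add (.mul (.mul (.c 1024) (.r 2 2 144 2)) (.w 1 1)) (.mul (.mul (.c 86) (.v 1)) (.r 2 3 144 2))))))) (.sub (.c 0) (.mul (.c 12) (.c 1)))) (.add (.mul (.mul (.r 2 104 144 2) (.mul (.mul (.c 86) (.v 1)) (.add (.mul (.mul (.c 1048576) (.r 2 1 144 2)) (.w 1 2)) (.mul (.mul (.c 86) (.v 1)) (.add (.mul (.mul (.c 1024) (.r 2 2 144 2)) (.w 1 1)) (.mul (.mul (.c 86) (.v 1)) (.r 2 3 144 2))))))) (.mul (.c 144) (.c 1))) (.add (.mul (.mul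 (.r 2 107 144 2) (.mul (.mul (.c 86) (.v 1)) (.add (.mul (.mul (.c 1048576) (.r 2 1 144 2)) (.w 1 2)) (.mul (.mul (.c 86) (.v 1)) (.add (.mul (.mul (.c 1024) (.r 2 2 144 2)) (.w 1 1)) (.mul (.mul (.c 86) (.v 1)) (.r 2 3 144 2))))))) (.sub (.c 0) (.mul (.c 12) (.c 1)))) (.add (.mul (.mul (.r 2 108 144 2) (.mul (.mul (.c 86) (.v 1)) (.add (.mul (.mul (.c 1048576) (.r 2 1 144 2)) (.w 1 2)) (.mul (.mul (.c 86) (.v 1)) (.add (.mul (.mul (.c 1024) (.r 2 2 144 2)) (.w 1 1)) (.mul (.mul (.c 86) (.v 1)) (.r 2 3 144 2))))))) (.sub (.c 0) (.mul (.c 12) (.c 1)))) (.mul (.mul (.r 2 109 144 2) (.mul (.mul (.c 86) (.v 1)) (.add (.mul (.mul (.c 1048576) (.r 2 1 144 2)) (.w 1 2)) (.mul (.mul (.c 86) (.v 1)) (.add (.mul (.mul (.c 1024) (.r 2 2 144 2)) (.w 1 1)) (.mul (.mul (.c 86) (.v 1)) (.r 2 3 144 2))))))) (.mul (.c 144) (.c 1))))))))) (.w 0 2)) (.w 2 1))), 132, 3, 4, 4, 1⟩,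
  ⟨(.sub (.sub (.mul (.mul (.mul (.c 0) (.w 0 3)) (.w 1 5)) (.w 2 3)) (.mul (.mul (.mul (.c 86) (.v 1)) (.add (.mul (.mul (.c 1048576) (.r 2 1 144 2)) (.w 1 2)) (.mul (.mul (.c 86) (.v 1)) (.add (.mul (.mul (.c 1024) (.r 2 2 144 2)) (.w 1 1)) (.mul (.mul (.c 86) (.v 1)) (.r 2 3 144 2)))))) (.mul (.add (.mul (.q 2) (.r 0 4 1 3)) (.mul (.v 2) (.r 0 148 1 3))) (.mul (.c 1) (.add (.mul (.mul (.add (.mul (.mul (.c 1024) (.s 2 18 144 2)) (.w 0 1)) (.mul (.mul (.c 171) (.v 0)) (.s 2 21 144 2))) (.mul (.c 86) (.v 1))) (.w 1 1)) (.mul (.mul (.s 2 20 144 2) (.mul (.mul (.c 86) (.v 1)) (.mul (.c 86) (.v 1)))) (.w 0 1))))))) (.mul (.mul (.mul (.c 33554432) (.add (.mul (.mul (.c 1024) (.mul (.mul (.r 2 105 144 2) (.mul (.mul (.c 86) (.v 1)) (.add (.mul (.mul (.c 1048576) (.r 2 1 144 2)) (.w 1 2)) (.mul (.mul (.c 86) (.v 1)) (.add (.mul (.mul (.c 1024) (.r 2 2 144 2)) (.w 1 1)) (.mul (.mul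 (.c 86) (.v 1)) (.r 2 3 144 2))))))) (.sub (.mul (.c 0) (.w 1 1)) (.mul (.c 12) (.mul (.c 86) (.v 1)))))) (.w 1 1)) (.add (.mul (.mul (.r 2 107 144 2) (.mul (.mul (.c 86) (.v 1)) (.add (.mul (.mul (.c 1048576) (.r 2 1 144 2)) (.w 1 2)) (.mul (.mul (.c 86) (.v 1)) (.add (.mul (.mul (.c 1024) (.r 2 2 144 2)) (.w 1 1)) (.mul (.mul (.c 86) (.v 1)) (.r 2 3 144 2))))))) (.sub (.mul (.mul (.c 1024) (.mul (.c 86) (.v 1))) (.w 1 1)) (.mul (.c 12) (.mul (.mul (.c 86) (.v 1)) (.mul (.c 86) (.v 1)))))) (.add (.mul (.mul (.r 2 108 144 2) (.mul (.mul (.c 86) (.v 1)) (.add (.mul (.mul (.c 1048576) (.r 2 1 144 2)) (.w 1 2)) (.mul (.mul (.c 86) (.v 1)) (.add (.mul (.mul (.c 1024) (.r 2 2 144 2)) (.w 1 1)) (.mul (.mul (.c 86) (.v 1)) (.r 2 3 144 2))))))) (.sub (.mul (.c 0) (.w 1 2)) (.mul (.c 12) (.mul (.mul (.c 86) (.v 1)) (.mul (.c 86) (.v 1)))))) (.add (.mul (.mul (.r 2 109 144 2) (.mul (.mul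 (.c 86) (.v 1)) (.add (.mul (.mul (.c 1048576) (.r 2 1 144 2)) (.w 1 2)) (.mul (.mul (.c 86) (.v 1)) (.add (.mul (.mul (.c 1024) (.r 2 2 144 2)) (.w 1 1)) (.mul (.mul (.c 86) (.v 1)) (.r 2 3 144 2))))))) (.sub (.mul (.c 144) (.mul (.mul (.c 86) (.v 1)) (.mul (.c 86) (.v 1)))) (.mul (.mul (.c 1024) (.mul (.c 12) (.mul (.c 86) (.v 1)))) (.w 1 1)))) (.mul (.mul (.c 1048576) (.mul (.mul (.r 2 110 144 2) (.mul (.mul (.c 86) (.v 1)) (.add (.mul (.mul (.c 1048576) (.r 2 1 144 2)) (.w 1 2)) (.mul (.mul (.c 86) (.v 1)) (.add (.mul (.mul (.c 1024) (.r 2 2 144 2)) (.w 1 1)) (.mul (.mul (.c 86) (.v 1)) (.r 2 3 144 2))))))) (.sub (.c 0) (.mul (.c 12) (.c 1))))) (.w 1 2))))))) (.w 0 3)) (.w 2 1))), 150, 4, 6, 4, 1⟩,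
  ⟨(.sub (.mul (.mul (.mul (.c 17179869184) (.mul (.mul (.c 86) (.v 1)) (.add (.mul (.c 1024) (.add (.mul (.add (.mul (.mul (.c 1024) (.s 2 34 144 2)) (.w 0 1)) (.mul (.s 2 35 144 2) (.mul (.c 171) (.v 0)))) (.w 1 1)) (.mul (.mul (.s 2 36 144 2) (.mul (.c 86) (.v 1))) (.w 0 1)))) (.mul (.s 2 37 144 2) (.mul (.mul (.c 86) (.v 1)) (.mul (.c 171) (.v 0))))))) (.w 1 1)) (.w 2 1)) (.mul (.mul (.mul (.c 86) (.v 1)) (.add (.mul (.mul (.c 1048576) (.r 2 42 144 2)) (.w 1 2)) (.mul (.mul (.c 86) (.v 1)) (.add (.mul (.mul (.c 1024) (.r 2 43 144 2)) (.w 1 1)) (.mul (.mul (.c 86) (.v 1)) (.r 2 44 144 2)))))) (.add (.mul (.r 2 38 144 2) (.mul (.c 1) (.add (.mul (.c 853) (.w 0 1)) (.mul (.c 171) (.q 0))))) (.mul (.mul (.c 1024) (.mul (.r 2 39 144 2) (.u 0 [1]))) (.w 0 1))))), 107, 2, 4, 3, 1⟩,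
  ⟨(.sub (.sub (.mul (.c 1024) (.add (.mul (.q 2) (.r 0 7 1 3)) (.mul (.v 2) (.r 0 151 1 3)))) (.mul (.mul (.s 2 22 144 2) (.add (.mul (.c 853) (.w 0 1)) (.mul (.c 171) (.q 0)))) (.w 0 1))) (.mul (.add (.mul (.r 2 111 144 2) (.mul (.c 2) (.add (.mul (.c 853) (.w 0 1)) (.mul (.c 171) (.q 0))))) (.add (.mul (.r 2 112 144 2) (.add (.mul (.c 853) (.w 0 1)) (.mul (.c 171) (.q 0)))) (.mul (.r 2 115 144 2) (.mul (.c 2) (.add (.mul (.c 853) (.w 0 1)) (.mul (.c 171) (.q 0))))))) (.w 0 1))), 48, 3, 1, 2, 1⟩,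
  ⟨(.sub (.sub (.mul (.c 0) (.w 2 1)) (.mul (.s 2 23 144 2) (.c 1))) (.add (.mul (.r 2 111 144 2) (.sub (.c 0) (.mul (.c 12) (.c 1)))) (.add (.mul (.r 2 113 144 2) (.c 1)) (.mul (.r 2 115 144 2) (.sub (.c 0) (.mul (.c 12) (.c 1))))))), 38, 1, 1, 2, 1⟩,
  ⟨(.sub (.sub (.mul (.c 0) (.w 2 1)) (.mul (.s 2 24 144 2) (.c 1))) (.add (.mul (.r 2 112 144 2) (.sub (.c 0) (.mul (.c 12) (.c 1)))) (.add (.mul (.r 2 114 144 2) (.mul (.c 2) (.c 1))) (.mul (.r 2 115 144 2) (.sub (.c 0) (.mul (.c 24) (.c 1))))))), 39, 1, 1, 2, 1⟩,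
  ⟨(.sub (.sub (.mul (.c 0) (.w 2 1)) (.mul (.s 2 25 144 2) (.c 1))) (.add (.mul (.r 2 113 144 2) (.sub (.c 0) (.mul (.c 12) (.c 1)))) (.add (.mul (.r 2 114 144 2) (.sub (.c 0) (.mul (.c 12) (.c 1)))) (.mul (.r 2 115 144 2) (.mul (.c 144) (.c 1)))))), 41, 1, 1, 2, 1⟩,
  ⟨(.sub (.add (.mul (.mul (.c 1024) (.mul (.s 2 10 144 2) (.add (.mul (.c 853) (.w 0 1)) (.mul (.c 171) (.q 0))))) (.w 0 1)) (.mul (.s 2 11 144 2) (.mul (.mul (.c 171) (.v 0)) (.add (.mul (.c 853) (.w 0 1)) (.mul (.c 171) (.q 0)))))) (.mul (.mul (.c 1024) (.add (.mul (.r 2 116 144 2) (.mul (.c 2) (.add (.mul (.c 853) (.w 0 1)) (.mul (.c 171) (.q 0))))) (.add (.mul (.r 2 117 144 2) (.add (.mul (.c 853) (.w 0 1)) (.mul (.c 171) (.q 0)))) (.mul (.r 2 120 144 2) (.mul (.c 2) (.add (.mul (.c 853) (.w 0 1)) (.mul (.c 171) (.q 0)))))))) (.w 0 1))), 58, 3, 1, 2, 1⟩,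
  ⟨(.sub (.mul (.add (.mul (.mul (.c 1024) (.s 2 12 144 2)) (.w 0 1)) (.mul (.mul (.c 171) (.v 0)) (.s 2 15 144 2))) (.c 1)) (.mul (.mul (.c 1024) (.add (.mul (.r 2 116 144 2) (.sub (.c 0) (.mul (.c 12) (.c 1)))) (.add (.mul (.r 2 118 144 2) (.c 1)) (.mul (.r 2 120 144 2) (.sub (.c 0) (.mul (.c 12) (.c 1))))))) (.w 0 1))), 49, 2, 1, 2, 1⟩,
  ⟨(.sub (.mul (.s 2 13 144 2) (.c 1)) (.add (.mul (.r 2 117 144 2) (.sub (.c 0) (.mul (.c 12) (.c 1)))) (.add (.mul (.r 2 119 144 2) (.mul (.c 2) (.c 1))) (.mul (.r 2 120 144 2) (.sub (.c 0) (.mul (.c 24) (.c 1))))))), 39, 1, 1, 2, 1⟩,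
  ⟨(.sub (.mul (.s 2 14 144 2) (.c 1)) (.add (.mul (.r 2 118 144 2) (.sub (.c 0) (.mul (.c 12) (.c 1)))) (.add (.mul (.r 2 119 144 2) (.sub (.c 0) (.mul (.c 12) (.c 1)))) (.mul (.r 2 120 144 2) (.mul (.c 144) (.c 1)))))), 41, 1, 1, 2, 1⟩,
  ⟨(.sub (.add (.mul (.mul (.c 1024) (.mul (.s 2 16 144 2) (.add (.mul (.c 853) (.w 0 1)) (.mul (.c 171) (.q 0))))) (.w 0 1)) (.mul (.s 2 17 144 2) (.mul (.mul (.c 171) (.v 0)) (.add (.mul (.c 853) (.w 0 1)) (.mul (.c 171) (.q 0)))))) (.mul (.mul (.c 1024) (.add (.mul (.r 2 121 144 2) (.mul (.c 2) (.add (.mul (.c 853) (.w 0 1)) (.mul (.c 171) (.q 0))))) (.add (.mul (.r 2 122 144 2) (.add (.mul (.c 853) (.w 0 1)) (.mul (.c 171) (.q 0)))) (.mul (.r 2 125 144 2) (.mul (.c 2) (.add (.mul (.c 853) (.w 0 1)) (.mul (.c 171) (.q 0)))))))) (.w 0 1))), 58, 3, 1, 2, 1⟩,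
  ⟨(.sub (.mul (.add (.mul (.mul (.c 1024) (.s 2 18 144 2)) (.w 0 1)) (.mul (.mul (.c 171) (.v 0)) (.s 2 21 144 2))) (.c 1)) (.mul (.mul (.c 1024) (.add (.mul (.r 2 121 144 2) (.sub (.c 0) (.mul (.c 12) (.c 1)))) (.add (.mul (.r 2 123 144 2) (.c 1)) (.mul (.r 2 125 144 2) (.sub (.c 0) (.mul (.c 12) (.c 1))))))) (.w 0 1))), 49, 2, 1, 2, 1⟩,
  ⟨(.sub (.mul (.s 2 19 144 2) (.c 1)) (.add (.mul (.r 2 122 144 2) (.sub (.c 0) (.mul (.c 12) (.c 1)))) (.add (.mul (.r 2 124 144 2) (.mul (.c 2) (.c 1))) (.mul (.r 2 125 144 2) (.sub (.c 0) (.mul (.c 24) (.c 1))))))), 39, 1, 1, 2, 1⟩,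
  ⟨(.sub (.mul (.s 2 20 144 2) (.c 1)) (.add (.mul (.r 2 123 144 2) (.sub (.c 0) (.mul (.c 12) (.c 1)))) (.add (.mul (.r 2 124 144 2) (.sub (.c 0) (.mul (.c 12) (.c 1)))) (.mul (.r 2 125 144 2) (.mul (.c 144) (.c 1)))))), 41, 1, 1, 2, 1⟩,
  ⟨(.sub (.sub (.mul (.mul (.mul (.c 288230376151711744) (.add (.mul (.r 2 38 144 2) (.mul (.c 1) (.add (.mul (.c 853) (.w 0 1)) (.mul (.c 171) (.q 0))))) (.mul (.mul (.c 1024) (.mul (.r 2 39 144 2) (.u 0 [1]))) (.w 0 1)))) (.w 0 5)) (.w 2 2)) (.mul (.add (.mul (.q 2) (.r 0 4 1 3)) (.mul (.v 2) (.r 0 148 1 3))) (.add (.mul (.add (.mul (.q 2) (.r 0 7 1 3)) (.mul (.v 2) (.r 0 151 1 3))) (.add (.mul (.mul (.c 1024) (.mul (.s 2 10 144 2) (.add (.mul (.c 853) (.w 0 1)) (.mul (.c 171) (.q 0))))) (.w 0 1)) (.mul (.s 2 11 144 2) (.mul (.mul (.c 171) (.v 0)) (.add (.mul (.c 853) (.w 0 1)) (.mul (.c 171) (.q 0))))))) (.mul (.mul (.mul (.c 17179869184)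 (.mul (.s 2 26 144 2) (.add (.mul (.c 853) (.w 0 1)) (.mul (.c 171) (.q 0))))) (.w 0 3)) (.w 2 1))))) (.mul (.mul (.mul (.c 288230376151711744) (.add (.mul (.r 2 126 144 2) (.mul (.c 2) (.add (.mul (.c 853) (.w 0 1)) (.mul (.c 171) (.q 0))))) (.add (.mul (.r 2 127 144 2) (.add (.mul (.c 853) (.w 0 1)) (.mul (.c 171) (.q 0)))) (.mul (.r 2 130 144 2) (.mul (.c 2) (.add (.mul (.c 853) (.w 0 1)) (.mul (.c 171) (.q 0)))))))) (.w 0 5)) (.w 2 2))), 125, 7, 1, 4, 1⟩,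
  ⟨(.sub (.sub (.mul (.mul (.c 0) (.w 0 5)) (.w 2 3)) (.mul (.add (.mul (.q 2) (.r 0 4 1 3)) (.mul (.v 2) (.r 0 148 1 3))) (.add (.mul (.add (.mul (.q 2) (.r 0 7 1 3)) (.mul (.v 2) (.r 0 151 1 3))) (.mul (.add (.mul (.mul (.c 1024) (.s 2 12 144 2)) (.w 0 1)) (.mul (.mul (.c 171) (.v 0)) (.s 2 15 144 2))) (.c 1))) (.mul (.mul (.mul (.c 17179869184) (.mul (.s 2 27 144 2) (.c 1))) (.w 0 3)) (.w 2 1))))) (.mul (.mul (.mul (.c 288230376151711744) (.add (.mul (.r 2 126 144 2) (.sub (.c 0) (.mul (.c 12) (.c 1)))) (.add (.mul (.r 2 128 144 2) (.c 1)) (.mul (.r 2 130 144 2) (.sub (.c 0) (.mul (.c 12) (.c 1))))))) (.w 0 5)) (.w 2 2))), 114, 6, 1, 4, 1⟩,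
  ⟨(.sub (.sub (.mul (.mul (.c 0) (.w 0 4)) (.w 2 3)) (.mul (.add (.mul (.q 2) (.r 0 4 1 3)) (.mul (.v 2) (.r 0 148 1 3))) (.add (.mul (.add (.mul (.q 2) (.r 0 7 1 3)) (.mul (.v 2) (.r 0 151 1 3))) (.mul (.s 2 13 144 2) (.c 1))) (.mul (.mul (.mul (.c 16777216) (.mul (.s 2 28 144 2) (.c 1))) (.w 0 2)) (.w 2 1))))) (.mul (.mul (.mul (.c 281474976710656) (.add (.mul (.r 2 127 144 2) (.sub (.c 0) (.mul (.c 12) (.c 1)))) (.add (.mul (.r 2 129 144 2) (.mul (.c 2) (.c 1))) (.mul (.r 2 130 144 2) (.sub (.c 0) (.mul (.c 24) (.c 1))))))) (.w 0 4)) (.w 2 2))), 103, 5, 1, 4, 1⟩,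
  ⟨(.sub (.sub (.mul (.mul (.c 0) (.w 0 4)) (.w 2 3)) (.mul (.add (.mul (.q 2) (.r 0 4 1 3)) (.mul (.v 2) (.r 0 148 1 3))) (.add (.mul (.add (.mul (.q 2) (.r 0 7 1 3)) (.mul (.v 2) (.r 0 151 1 3))) (.mul (.s 2 14 144 2) (.c 1))) (.mul (.mul (.mul (.c 16777216) (.mul (.s 2 29 144 2) (.c 1))) (.w 0 2)) (.w 2 1))))) (.mul (.mul (.mul (.c 281474976710656) (.add (.mul (.r 2 128 144 2) (.sub (.c 0) (.mul (.c 12) (.c 1)))) (.add (.mul (.r 2 129 144 2) (.sub (.c 0) (.mul (.c 12) (.c 1)))) (.mul (.r 2 130 144 2) (.mul (.c 144) (.c 1)))))) (.w 0 4)) (.w 2 2))), 103, 5, 1, 4, 1⟩,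
  ⟨(.sub (.sub (.mul (.mul (.mul (.c 288230376151711744) (.add (.mul (.r 2 40 144 2) (.mul (.c 1) (.add (.mul (.c 853) (.w 0 1)) (.mul (.c 171) (.q 0))))) (.mul (.mul (.c 1024) (.mul (.r 2 41 144 2) (.u 0 [1]))) (.w 0 1)))) (.w 0 5)) (.w 2 2)) (.mul (.add (.mul (.q 2) (.r 0 4 1 3)) (.mul (.v 2) (.r 0 148 1 3))) (.add (.mul (.add (.mul (.q 2) (.r 0 7 1 3)) (.mul (.v 2) (.r 0 151 1 3))) (.add (.mul (.mul (.c 1024) (.mul (.s 2 16 144 2) (.add (.mul (.c 853) (.w 0 1)) (.mul (.c 171) (.q 0))))) (.w 0 1)) (.mul (.s 2 17 144 2) (.mul (.mul (.c 171) (.v 0)) (.add (.mul (.c 853) (.w 0 1)) (.mul (.c 171) (.q 0))))))) (.mul (.mul (.mul (.c 17179869184) (.mul (.s 2 30 144 2) (.add (.mul (.c 853) (.w 0 1)) (.mul (.c 171) (.q 0))))) (.w 0 3)) (.w 2 1))))) (.mul (.mul (.mul (.c 288230376151711744) (.add (.mul (.r 2 131 144 2) (.mul (.c 2) (.add (.mul (.c 853) (.w 0 1)) (.mul (.c 171) (.q 0)))))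 (.add (.mul (.r 2 132 144 2) (.add (.mul (.c 853) (.w 0 1)) (.mul (.c 171) (.q 0)))) (.mul (.r 2 135 144 2) (.mul (.c 2) (.add (.mul (.c 853) (.w 0 1)) (.mul (.c 171) (.q 0)))))))) (.w 0 5)) (.w 2 2))), 125, 7, 1, 4, 1⟩,
  ⟨(.sub (.sub (.mul (.mul (.c 0) (.w 0 5)) (.w 2 3)) (.mul (.add (.mul (.q 2) (.r 0 4 1 3)) (.mul (.v 2) (.r 0 148 1 3))) (.add (.mul (.add (.mul (.q 2) (.r 0 7 1 3)) (.mul (.v 2) (.r 0 151 1 3))) (.mul (.add (.mul (.mul (.c 1024) (.s 2 18 144 2)) (.w 0 1)) (.mul (.mul (.c 171) (.v 0)) (.s 2 21 144 2))) (.c 1))) (.mul (.mul (.mul (.c 17179869184) (.mul (.s 2 31 144 2) (.c 1))) (.w 0 3)) (.w 2 1))))) (.mul (.mul (.mul (.c 288230376151711744) (.add (.mul (.r 2 131 144 2) (.sub (.c 0) (.mul (.c 12) (.c 1)))) (.add (.mul (.r 2 133 144 2) (.c 1)) (.mul (.r 2 135 144 2) (.sub (.c 0) (.mul (.c 12) (.c 1))))))) (.w 0 5)) (.w 2 2))), 114, 6, 1, 4, 1⟩,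
  ⟨(.sub (.sub (.mul (.mul (.c 0) (.w 0 4)) (.w 2 3)) (.mul (.add (.mul (.q 2) (.r 0 4 1 3)) (.mul (.v 2) (.r 0 148 1 3))) (.add (.mul (.add (.mul (.q 2) (.r 0 7 1 3)) (.mul (.v 2) (.r 0 151 1 3))) (.mul (.s 2 19 144 2) (.c 1))) (.mul (.mul (.mul (.c 16777216) (.mul (.s 2 32 144 2) (.c 1))) (.w 0 2)) (.w 2 1))))) (.mul (.mul (.mul (.c 281474976710656) (.add (.mul (.r 2 132 144 2) (.sub (.c 0) (.mul (.c 12) (.c 1)))) (.add (.mul (.r 2 134 144 2) (.mul (.c 2) (.c 1))) (.mul (.r 2 135 144 2) (.sub (.c 0) (.mul (.c 24) (.c 1))))))) (.w 0 4)) (.w 2 2))), 103, 5, 1, 4, 1⟩,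
  ⟨(.sub (.sub (.mul (.mul (.c 0) (.w 0 4)) (.w 2 3)) (.mul (.add (.mul (.q 2) (.r 0 4 1 3)) (.mul (.v 2) (.r 0 148 1 3))) (.add (.mul (.add (.mul (.q 2) (.r 0 7 1 3)) (.mul (.v 2) (.r 0 151 1 3))) (.mul (.s 2 20 144 2) (.c 1))) (.mul (.mul (.mul (.c 16777216) (.mul (.s 2 33 144 2) (.c 1))) (.w 0 2)) (.w 2 1))))) (.mul (.mul (.mul (.c 281474976710656) (.add (.mul (.r 2 133 144 2) (.sub (.c 0) (.mul (.c 12) (.c 1)))) (.add (.mul (.r 2 134 144 2) (.sub (.c 0) (.mul (.c 12) (.c 1)))) (.mul (.r 2 135 144 2) (.mul (.c 144) (.c 1)))))) (.w 0 4)) (.w 2 2))), 103, 5, 1, 4, 1⟩,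
  ⟨(.sub (.mul (.mul (.c 281474976710656) (.add (.mul (.mul (.c 1024) (.mul (.s 2 71 144 2) (.add (.mul (.c 853) (.w 0 1)) (.mul (.c 171) (.q 0))))) (.w 0 1)) (.mul (.s 2 74 144 2) (.mul (.mul (.c 171) (.v 0)) (.add (.mul (.c 853) (.w 0 1)) (.mul (.c 171) (.q 0))))))) (.w 2 2)) (.add (.mul (.mul (.mul (.c 288230376151711744) (.mul (.s 2 34 144 2) (.add (.mul (.c 853) (.w 0 1)) (.mul (.c 171) (.q 0))))) (.w 0 1)) (.w 2 2)) (.add (.add (.mul (.r 2 38 144 2) (.mul (.r 2 46 144 2) (.add (.mul (.mul (.c 1024) (.mul (.s 2 47 144 2) (.add (.mul (.c 853) (.w 0 1)) (.mul (.c 171) (.q 0))))) (.w 0 1)) (.mul (.s 2 48 144 2) (.mul (.mul (.c 171) (.v 0)) (.add (.mul (.c 853) (.w 0 1)) (.mul (.c 171) (.q 0)))))))) (.mul (.mul (.c 16777216) (.mul (.r 2 40 144 2) (.add (.mul (.mul (.c 1024) (.mul (.s 2 59 144 2) (.add (.mul (.c 853) (.w 0 1)) (.mul (.c 171) (.q 0))))) (.w 0 1)) (.mul (.s 2 60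 144 2) (.mul (.mul (.c 171) (.v 0)) (.add (.mul (.c 853) (.w 0 1)) (.mul (.c 171) (.q 0)))))))) (.w 2 1))) (.add (.mul (.r 2 39 144 2) (.mul (.r 2 46 144 2) (.add (.mul (.mul (.c 1024) (.mul (.s 2 53 144 2) (.add (.mul (.c 853) (.w 0 1)) (.mul (.c 171) (.q 0))))) (.w 0 1)) (.mul (.s 2 54 144 2) (.mul (.mul (.c 171) (.v 0)) (.add (.mul (.c 853) (.w 0 1)) (.mul (.c 171) (.q 0)))))))) (.mul (.mul (.c 16777216) (.mul (.r 2 41 144 2) (.add (.mul (.mul (.c 1024) (.mul (.s 2 65 144 2) (.add (.mul (.c 853) (.w 0 1)) (.mul (.c 171) (.q 0))))) (.w 0 1)) (.mul (.s 2 66 144 2) (.mul (.mul (.c 171) (.v 0)) (.add (.mul (.c 853) (.w 0 1)) (.mul (.c 171) (.q 0)))))))) (.w 2 1)))))), 122, 3, 1, 4, 1⟩,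
  ⟨(.sub (.mul (.mul (.c 281474976710656) (.mul (.add (.mul (.mul (.c 1024) (.s 2 77 144 2)) (.w 0 1)) (.mul (.mul (.c 171) (.v 0)) (.s 2 86 144 2))) (.c 1))) (.w 2 2)) (.add (.mul (.mul (.mul (.c 288230376151711744) (.mul (.s 2 35 144 2) (.c 1))) (.w 0 1)) (.w 2 2)) (.add (.add (.mul (.r 2 38 144 2) (.mul (.r 2 46 144 2) (.mul (.add (.mul (.mul (.c 1024) (.s 2 49 144 2)) (.w 0 1)) (.mul (.mul (.c 171) (.v 0)) (.s 2 52 144 2))) (.c 1)))) (.mul (.mul (.c 16777216) (.mul (.r 2 40 144 2) (.mul (.add (.mul (.mul (.c 1024) (.s 2 61 144 2)) (.w 0 1)) (.mul (.mul (.c 171) (.v 0)) (.s 2 64 144 2))) (.c 1)))) (.w 2 1))) (.add (.mul (.r 2 39 144 2) (.mul (.r 2 46 144 2) (.mul (.add (.mul (.mul (.c 1024) (.s 2 55 144 2)) (.w 0 1)) (.mul (.mul (.c 171) (.v 0)) (.s 2 58 144 2))) (.c 1)))) (.mul (.mul (.c 16777216) (.mul (.r 2 41 144 2) (.mul (.add (.mul (.mul (.c 1024) (.s 2 67 144 2)) (.w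 0 1)) (.mul (.mul (.c 171) (.v 0)) (.s 2 70 144 2))) (.c 1)))) (.w 2 1)))))), 112, 2, 1, 4, 1⟩,
  ⟨(.sub (.mul (.mul (.c 281474976710656) (.mul (.s 2 80 144 2) (.c 1))) (.w 2 2)) (.add (.mul (.mul (.c 281474976710656) (.mul (.s 2 36 144 2) (.c 1))) (.w 2 2)) (.add (.add (.mul (.r 2 38 144 2) (.mul (.r 2 46 144 2) (.mul (.s 2 50 144 2) (.c 1)))) (.mul (.mul (.c 16777216) (.mul (.r 2 40 144 2) (.mul (.s 2 62 144 2) (.c 1)))) (.w 2 1))) (.add (.mul (.r 2 39 144 2) (.mul (.r 2 46 144 2) (.mul (.s 2 56 144 2) (.c 1)))) (.mul (.mul (.c 16777216) (.mul (.r 2 41 144 2) (.mul (.s 2 68 144 2) (.c 1)))) (.w 2 1)))))), 101, 1, 1, 4, 1⟩,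
  ⟨(.sub (.mul (.mul (.c 281474976710656) (.mul (.s 2 83 144 2) (.c 1))) (.w 2 2)) (.add (.mul (.mul (.c 281474976710656) (.mul (.s 2 37 144 2) (.c 1))) (.w 2 2)) (.add (.add (.mul (.r 2 38 144 2) (.mul (.r 2 46 144 2) (.mul (.s 2 51 144 2) (.c 1)))) (.mul (.mul (.c 16777216) (.mul (.r 2 40 144 2) (.mul (.s 2 63 144 2) (.c 1)))) (.w 2 1))) (.add (.mul (.r 2 39 144 2) (.mul (.r 2 46 144 2) (.mul (.s 2 57 144 2) (.c 1)))) (.mul (.mul (.c 16777216) (.mul (.r 2 41 144 2) (.mul (.s 2 69 144 2) (.c 1)))) (.w 2 1)))))), 101, 1, 1, 4, 1⟩,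
  ⟨(.sub (.add (.mul (.mul (.c 1024) (.mul (.s 2 71 144 2) (.add (.mul (.c 853) (.w 0 1)) (.mul (.c 171) (.q 0))))) (.w 0 1)) (.mul (.s 2 74 144 2) (.mul (.mul (.c 171) (.v 0)) (.add (.mul (.c 853) (.w 0 1)) (.mul (.c 171) (.q 0)))))) (.mul (.mul (.c 1024) (.add (.mul (.r 2 136 144 2) (.mul (.c 2) (.add (.mul (.c 853) (.w 0 1)) (.mul (.c 171) (.q 0))))) (.add (.mul (.r 2 137 144 2) (.add (.mul (.c 853) (.w 0 1)) (.mul (.c 171) (.q 0)))) (.mul (.r 2 140 144 2) (.mul (.c 2) (.add (.mul (.c 853) (.w 0 1)) (.mul (.c 171) (.q 0)))))))) (.w 0 1))), 58, 3, 1, 2, 1⟩,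
  ⟨(.sub (.mul (.add (.mul (.mul (.c 1024) (.s 2 77 144 2)) (.w 0 1)) (.mul (.mul (.c 171) (.v 0)) (.s 2 86 144 2))) (.c 1)) (.mul (.mul (.c 1024) (.add (.mul (.r 2 136 144 2) (.sub (.c 0) (.mul (.c 12) (.c 1)))) (.add (.mul (.r 2 138 144 2) (.c 1)) (.mul (.r 2 140 144 2) (.sub (.c 0) (.mul (.c 12) (.c 1))))))) (.w 0 1))), 49, 2, 1, 2, 1⟩,
  ⟨(.sub (.mul (.s 2 80 144 2) (.c 1)) (.add (.mul (.r 2 137 144 2) (.sub (.c 0) (.mul (.c 12) (.c 1)))) (.add (.mul (.r 2 139 144 2) (.mul (.c 2) (.c 1))) (.mul (.r 2 140 144 2) (.sub (.c 0) (.mul (.c 24) (.c 1))))))), 39, 1, 1, 2, 1⟩,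
  ⟨(.sub (.mul (.s 2 83 144 2) (.c 1)) (.add (.mul (.r 2 138 144 2) (.sub (.c 0) (.mul (.c 12) (.c 1)))) (.add (.mul (.r 2 139 144 2) (.sub (.c 0) (.mul (.c 12) (.c 1)))) (.mul (.r 2 140 144 2) (.mul (.c 144) (.c 1)))))), 41, 1, 1, 2, 1⟩,
  ⟨(.sub (.add (.mul (.q 2) (.r 0 4 1 3)) (.mul (.v 2) (.r 0 148 1 3))) (.mul (.mul (.mul (.c 16777216) (.c 1)) (.w 0 2)) (.w 2 1))), 35, 3, 1, 2, 1⟩,
  ⟨(.sub (.r 0 0 1 1) (.c 1)), 33, 1, 1, 1, 1⟩,
  ⟨(.sub (.mul (.c 33554432) (.s 0 72 1 1)) (.add (.mul (.c 33554432) (.s 0 216 1 1)) (.mul (.c 1) (.mul (.r 0 0 1 1) (.add (.s 0 71 1 1) (.s 0 215 1 1)))))), 66, 1, 1, 1, 1⟩,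
  ⟨(.sub (.s 0 73 1 1) (.s 0 72 1 1)), 34, 1, 1, 1, 1⟩,
  ⟨(.sub (.s 0 217 1 1) (.s 0 216 1 1)), 34, 1, 1, 1, 1⟩,
  ⟨(.sub (.mul (.c 16777216) (.mul (.c 8) (.sub (.s 0 73 1 1) (.s 0 72 1 1)))) (.mul (.r 0 0 1 1) (.sub (.s 0 215 1 1) (.s 0 71 1 1)))), 66, 1, 1, 1, 1⟩,
  ⟨(.sub (.mul (.c 16777216) (.mul (.c 8) (.sub (.s 0 217 1 1) (.s 0 216 1 1)))) (.mul (.r 0 0 1 1) (.sub (.s 0 215 1 1) (.s 0 71 1 1)))), 66, 1, 1, 1, 1⟩,
  ⟨(.sub (.mul (.c 33554432) (.s 0 75 1 1)) (.add (.mul (.c 33554432) (.s 0 219 1 1)) (.mul (.c 1) (.mul (.r 0 0 1 1) (.add (.s 0 74 1 1) (.s 0 218 1 1)))))), 66, 1, 1, 1, 1⟩,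
  ⟨(.sub (.s 0 76 1 1) (.s 0 75 1 1)), 34, 1, 1, 1, 1⟩,
  ⟨(.sub (.s 0 220 1 1) (.s 0 219 1 1)), 34, 1, 1, 1, 1⟩,
  ⟨(.sub (.mul (.c 16777216) (.mul (.c 8) (.sub (.s 0 76 1 1) (.s 0 75 1 1)))) (.mul (.r 0 0 1 1) (.sub (.s 0 218 1 1) (.s 0 74 1 1)))), 66, 1, 1, 1, 1⟩,
  ⟨(.sub (.mul (.c 16777216) (.mul (.c 8) (.sub (.s 0 220 1 1) (.s 0 219 1 1)))) (.mul (.r 0 0 1 1) (.sub (.s 0 218 1 1) (.s 0 74 1 1)))), 66, 1, 1, 1, 1⟩,
  ⟨(.sub (.mul (.c 33554432) (.s 0 78 1 1)) (.add (.mul (.c 33554432) (.s 0 222 1 1)) (.mul (.c 1) (.mul (.r 0 0 1 1) (.add (.s 0 77 1 1) (.s 0 221 1 1)))))), 66, 1, 1, 1, 1⟩,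
  ⟨(.sub (.s 0 79 1 1) (.s 0 78 1 1)), 34, 1, 1, 1, 1⟩,
  ⟨(.sub (.s 0 223 1 1) (.s 0 222 1 1)), 34, 1, 1, 1, 1⟩,
  ⟨(.sub (.mul (.c 16777216) (.mul (.c 8) (.sub (.s 0 79 1 1) (.s 0 78 1 1)))) (.mul (.r 0 0 1 1) (.sub (.s 0 221 1 1) (.s 0 77 1 1)))), 66, 1, 1, 1, 1⟩,
  ⟨(.sub (.mul (.c 16777216) (.mul (.c 8) (.sub (.s 0 223 1 1) (.s 0 222 1 1)))) (.mul (.r 0 0 1 1) (.sub (.s 0 221 1 1) (.s 0 77 1 1)))), 66, 1, 1, 1, 1⟩,
  ⟨(.sub (.mul (.c 33554432) (.s 0 81 1 1)) (.add (.mul (.c 33554432) (.s 0 225 1 1)) (.mul (.c 1) (.mul (.r 0 0 1 1) (.add (.s 0 80 1 1) (.s 0 224 1 1)))))), 66, 1, 1, 1, 1⟩,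
  ⟨(.sub (.s 0 82 1 1) (.s 0 81 1 1)), 34, 1, 1, 1, 1⟩,
  ⟨(.sub (.s 0 226 1 1) (.s 0 225 1 1)), 34, 1, 1, 1, 1⟩,
  ⟨(.sub (.mul (.c 16777216) (.mul (.c 8) (.sub (.s 0 82 1 1) (.s 0 81 1 1)))) (.mul (.r 0 0 1 1) (.sub (.s 0 224 1 1) (.s 0 80 1 1)))), 66, 1, 1, 1, 1⟩,
  ⟨(.sub (.mul (.c 16777216) (.mul (.c 8) (.sub (.s 0 226 1 1) (.s 0 225 1 1)))) (.mul (.r 0 0 1 1) (.sub (.s 0 224 1 1) (.s 0 80 1 1)))), 66, 1, 1, 1, 1⟩,
  ⟨(.sub (.mul (.c 33554432) (.s 0 84 1 1)) (.add (.mul (.c 33554432) (.s 0 228 1 1)) (.mul (.c 1) (.mul (.r 0 0 1 1) (.add (.s 0 83 1 1) (.s 0 227 1 1)))))), 66, 1, 1, 1, 1⟩,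
  ⟨(.sub (.s 0 85 1 1) (.s 0 84 1 1)), 34, 1, 1, 1, 1⟩,
  ⟨(.sub (.s 0 229 1 1) (.s 0 228 1 1)), 34, 1, 1, 1, 1⟩,
  ⟨(.sub (.mul (.c 16777216) (.mul (.c 8) (.sub (.s 0 85 1 1) (.s 0 84 1 1)))) (.mul (.r 0 0 1 1) (.sub (.s 0 227 1 1) (.s 0 83 1 1)))), 66, 1, 1, 1, 1⟩,
  ⟨(.sub (.mul (.c 16777216) (.mul (.c 8) (.sub (.s 0 229 1 1) (.s 0 228 1 1)))) (.mul (.r 0 0 1 1) (.sub (.s 0 227 1 1) (.s 0 83 1 1)))), 66, 1, 1, 1, 1⟩,
  ⟨(.sub (.mul (.c 33554432) (.s 0 87 1 1)) (.add (.mul (.c 33554432) (.s 0 231 1 1)) (.mul (.c 1) (.mul (.r 0 0 1 1) (.add (.s 0 86 1 1) (.s 0 230 1 1)))))), 66, 1, 1, 1, 1⟩,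
  ⟨(.sub (.s 0 88 1 1) (.s 0 87 1 1)), 34, 1, 1, 1, 1⟩,
  ⟨(.sub (.s 0 232 1 1) (.s 0 231 1 1)), 34, 1, 1, 1, 1⟩,
  ⟨(.sub (.mul (.c 16777216) (.mul (.c 8) (.sub (.s 0 88 1 1) (.s 0 87 1 1)))) (.mul (.r 0 0 1 1) (.sub (.s 0 230 1 1) (.s 0 86 1 1)))), 66, 1, 1, 1, 1⟩,
  ⟨(.sub (.mul (.c 16777216) (.mul (.c 8) (.sub (.s 0 232 1 1) (.s 0 231 1 1)))) (.mul (.r 0 0 1 1) (.sub (.s 0 230 1 1) (.s 0 86 1 1)))), 66, 1, 1, 1, 1⟩]

noncomputable def f0 : List Tc :=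
 [⟨fun A S X L P R M N m a b c d e f g h D => (A (L (X (L (X (L (X (L (X 16777216 (L (X (L (X 86 b) N) (A (L (X 1024 (A (L (X (A (L (X (L (X 1024 (A (A (L (R D 704) 4294967295) (X c (L (R D 5312) 4294967295))) (S M (L (X 2147483648 (A 1 (X c 1))) N)))) N) e) N) (L (X (A (A (L (R D 736) 4294967295) (X c (L (R D 5344) 4294967295))) (S M (L (X 2147483648 (A 1 (X c 1))) N))) (L (X 171 a) N)) N)) f) N) (L (X (L (X (A (A (L (R D 768) 4294967295) (X c (L (R D 5376) 4294967295))) (S M (L (X 2147483648 (A 1 (X c 1))) N))) (L (X 86 b) N)) N) e) N))) N) (L (X (A (A (L (R D 800) 4294967295) (X c (L (R D 5408) 4294967295))) (S M (L (X 2147483648 (A 1 (X c 1))) N))) (L (X (L (X 86 b) N) (L (X 171 a) N)) N)) N))) N)) N) e) N) f) N) g) N) (S M (L (L (X (L (X (L (X 86 b) N) (A (L (X (L (X 1048576 (A (L (R D 32) 4294967295) (X c (L (R D 4640) 4294967295)))) N) (P f 2)) N) (L (X (L (X 86 b) N) (A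 (L (X (L (X 1024 (A (L (R D 64) 4294967295) (X c (L (R D 4672) 4294967295)))) N) f) N) (L (X (L (X 86 b) N) (A (L (R D 96) 4294967295) (X c (L (R D 4704) 4294967295)))) N))) N))) N) (A (L (X 1 (A (L (R D 128) 4294967295) (X a (A (L (R D 160) 4294967295) (X a (L (R D 192) 4294967295)))))) N) (L (X c (A (L (R D 4736) 4294967295) (X a (A (L (R D 4768) 4294967295) (X a (L (R D 4800) 4294967295)))))) N))) N) N))), 97, 3, 4, 3, 1⟩,
  ⟨fun A S X L P R M N m a b c d e f g h D => (A (A (L (X (L (X (L (X (L (X 590295810358705651712 (L (X (L (X 86 b) N) (A (L (X 1024 (A (L (X (A (L (X (L (X 1024 (A (A (L (R D 832) 4294967295) (X c (L (R D 5440) 4294967295))) (S M (L (X 2147483648 (A 1 (X c 1))) N)))) N) e) N) (L (X (A (A (L (R D 864) 4294967295) (X c (L (R D 5472) 4294967295))) (S M (L (X 2147483648 (A 1 (X c 1))) N))) (L (X 171 a) N)) N)) f) N) (L (X (L (X (A (A (L (R D 896) 4294967295)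 (X c (L (R D 5504) 4294967295))) (S M (L (X 2147483648 (A 1 (X c 1))) N))) (L (X 86 b) N)) N) e) N))) N) (L (X (A (A (L (R D 928) 4294967295) (X c (L (R D 5536) 4294967295))) (S M (L (X 2147483648 (A 1 (X c 1))) N))) (L (X (L (X 86 b) N) (L (X 171 a) N)) N)) N))) N)) N) (P e 3)) N) (P f 3)) N) (P g 2)) N) (S M (L (L (X (L (X (L (X 86 b) N) (A (L (X (L (X 1048576 (A (L (R D 32) 4294967295) (X c (L (R D 4640) 4294967295)))) N) (P f 2)) N) (L (X (L (X 86 b) N) (A (L (X (L (X 1024 (A (L (R D 64) 4294967295) (X c (L (R D 4672) 4294967295)))) N) f) N) (L (X (L (X 86 b) N) (A (L (R D 96) 4294967295) (X c (L (R D 4704) 4294967295)))) N))) N))) N) (L (X (A (L (X 1 (A (L (R D 128) 4294967295) (X a (A (L (R D 160) 4294967295) (X a (L (R D 192) 4294967295)))))) N) (L (X c (A (L (R D 4736) 4294967295) (X a (A (L (R D 4768) 4294967295) (X a (L (R D 4800) 4294967295)))))) N)) (L (X 1 (A (L (X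 (A (L (X (L (X 1024 (L (X (A (A (L (R D 320) 4294967295) (X c (L (R D 4928) 4294967295))) (S M (L (X 2147483648 (A 1 (X c 1))) N))) (A (L (X (L (X 767 e) N) f) N) (A (L (X (L (X 171 1) N) f) N) (L (X (L (X 86 1) N) e) N)))) N)) N) e) N) (L (X (A (A (L (R D 352) 4294967295) (X c (L (R D 4960) 4294967295))) (S M (L (X 2147483648 (A 1 (X c 1))) N))) (L (X (L (X 171 a) N) (A (L (X (L (X 767 e) N) f) N) (A (L (X (L (X 171 1) N) f) N) (L (X (L (X 86 1) N) e) N)))) N)) N)) f) N) (A (L (X (A (L (X (L (X 1024 (L (X (A (A (L (R D 320) 4294967295) (X c (L (R D 4928) 4294967295))) (S M (L (X 2147483648 (A 1 (X c 1))) N))) (A (L (X 853 e) N) (L (X 171 1) N))) N)) N) e) N) (L (X (A (A (L (R D 352) 4294967295) (X c (L (R D 4960) 4294967295))) (S M (L (X 2147483648 (A 1 (X c 1))) N))) (L (X (L (X 171 a) N) (A (L (X 853 e) N) (L (X 171 1) N))) N)) N)) (P f 2)) N) (L (X (L (X (A (A (L (R D 416)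 4294967295) (X c (L (R D 5024) 4294967295))) (S M (L (X 2147483648 (A 1 (X c 1))) N))) (L (X (L (X 86 b) N) (L (X 86 b) N)) N)) N) (P e 2)) N)))) N)) N)) N) N))) (S M (L (L (X (L (X (L (X 33554432 (A (L (X (L (X 1024 (L (X (L (X (A (L (R D 2848) 4294967295) (X c (L (R D 7456) 4294967295))) (L (X (L (X 86 b) N) (A (L (X (L (X 1048576 (A (L (R D 32) 4294967295) (X c (L (R D 4640) 4294967295)))) N) (P f 2)) N) (L (X (L (X 86 b) N) (A (L (X (L (X 1024 (A (L (R D 64) 4294967295) (X c (L (R D 4672) 4294967295)))) N) f) N) (L (X (L (X 86 b) N) (A (L (R D 96) 4294967295) (X c (L (R D 4704) 4294967295)))) N))) N))) N)) N) (L (X 2 (A (L (X (L (X 767 e) N) f) N) (A (L (X (L (X 171 1) N) f) N) (L (X (L (X 86 1) N) e) N)))) N)) N)) N) f) N) (A (L (X (L (X 1024 (L (X (L (X (A (L (R D 2880) 4294967295) (X c (L (R D 7488) 4294967295))) (L (X (L (X 86 b) N) (A (L (X (L (X 1048576 (A (L (R D 32)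 4294967295) (X c (L (R D 4640) 4294967295)))) N) (P f 2)) N) (L (X (L (X 86 b) N) (A (L (X (L (X 1024 (A (L (R D 64) 4294967295) (X c (L (R D 4672) 4294967295)))) N) f) N) (L (X (L (X 86 b) N) (A (L (R D 96) 4294967295) (X c (L (R D 4704) 4294967295)))) N))) N))) N)) N) (A (L (X (L (X 767 e) N) f) N) (A (L (X (L (X 171 1) N) f) N) (L (X (L (X 86 1) N) e) N)))) N)) N) f) N) (A (L (X (L (X 1024 (L (X (L (X (A (L (R D 2976) 4294967295) (X c (L (R D 7584) 4294967295))) (L (X (L (X 86 b) N) (A (L (X (L (X 1048576 (A (L (R D 32) 4294967295) (X c (L (R D 4640) 4294967295)))) N) (P f 2)) N) (L (X (L (X 86 b) N) (A (L (X (L (X 1024 (A (L (R D 64) 4294967295) (X c (L (R D 4672) 4294967295)))) N) f) N) (L (X (L (X 86 b) N) (A (L (R D 96) 4294967295) (X c (L (R D 4704) 4294967295)))) N))) N))) N)) N) (L (X 2 (A (L (X (L (X 767 e) N) f) N) (A (L (X (L (X 171 1) N) f) N) (L (X (L (X 86 1) N)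 e) N)))) N)) N)) N) f) N) (A (L (X (L (X 1024 (L (X (L (X (A (L (R D 3008) 4294967295) (X c (L (R D 7616) 4294967295))) (L (X (L (X 86 b) N) (A (L (X (L (X 1048576 (A (L (R D 32) 4294967295) (X c (L (R D 4640) 4294967295)))) N) (P f 2)) N) (L (X (L (X 86 b) N) (A (L (X (L (X 1024 (A (L (R D 64) 4294967295) (X c (L (R D 4672) 4294967295)))) N) f) N) (L (X (L (X 86 b) N) (A (L (R D 96) 4294967295) (X c (L (R D 4704) 4294967295)))) N))) N))) N)) N) (L (X 2 (A (L (X 853 e) N) (L (X 171 1) N))) N)) N)) N) (P f 2)) N) (A (L (X (L (X (A (L (R D 3040) 4294967295) (X c (L (R D 7648) 4294967295))) (L (X (L (X 86 b) N) (A (L (X (L (X 1048576 (A (L (R D 32) 4294967295) (X c (L (R D 4640) 4294967295)))) N) (P f 2)) N) (L (X (L (X 86 b) N) (A (L (X (L (X 1024 (A (L (R D 64) 4294967295) (X c (L (R D 4672) 4294967295)))) N) f) N) (L (X (L (X 86 b) N) (A (L (R D 96) 4294967295) (X c (L (R D 4704)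 4294967295)))) N))) N))) N)) N) (A (L (X (L (X 1024 (A (L (X 853 e) N) (L (X 171 1) N))) N) (P f 2)) N) (S M (L (L (X (L (X 12 (L (X (L (X 86 b) N) (L (X 86 b) N)) N)) N) e) N) N)))) N) (A (L (X (L (X (L (X (A (L (R D 3104) 4294967295) (X c (L (R D 7712) 4294967295))) (L (X (L (X 86 b) N) (A (L (X (L (X 1048576 (A (L (R D 32) 4294967295) (X c (L (R D 4640) 4294967295)))) N) (P f 2)) N) (L (X (L (X 86 b) N) (A (L (X (L (X 1024 (A (L (R D 64) 4294967295) (X c (L (R D 4672) 4294967295)))) N) f) N) (L (X (L (X 86 b) N) (A (L (R D 96) 4294967295) (X c (L (R D 4704) 4294967295)))) N))) N))) N)) N) (L (X 2 (L (X (L (X 86 b) N) (L (X 86 b) N)) N)) N)) N) e) N) (A (L (X (L (X (A (L (R D 3136) 4294967295) (X c (L (R D 7744) 4294967295))) (L (X (L (X 86 b) N) (A (L (X (L (X 1048576 (A (L (R D 32) 4294967295) (X c (L (R D 4640) 4294967295)))) N) (P f 2)) N) (L (X (L (X 86 b) N) (A (L (X (L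 (X 1024 (A (L (R D 64) 4294967295) (X c (L (R D 4672) 4294967295)))) N) f) N) (L (X (L (X 86 b) N) (A (L (R D 96) 4294967295) (X c (L (R D 4704) 4294967295)))) N))) N))) N)) N) (A (L (X (L (X 1024 (L (X 2 (A (L (X 853 e) N) (L (X 171 1) N))) N)) N) (P f 2)) N) (S M (L (L (X (L (X 24 (L (X (L (X 86 b) N) (L (X 86 b) N)) N)) N) e) N) N)))) N) (L (X (L (X (L (X 1048576 (L (X (L (X (A (L (R D 3168) 4294967295) (X c (L (R D 7776) 4294967295))) (L (X (L (X 86 b) N) (A (L (X (L (X 1048576 (A (L (R D 32) 4294967295) (X c (L (R D 4640) 4294967295)))) N) (P f 2)) N) (L (X (L (X 86 b) N) (A (L (X (L (X 1024 (A (L (R D 64) 4294967295) (X c (L (R D 4672) 4294967295)))) N) f) N) (L (X (L (X 86 b) N) (A (L (R D 96) 4294967295) (X c (L (R D 4704) 4294967295)))) N))) N))) N)) N) 2) N)) N) e) N) (P f 2)) N))))))))) N) (P e 3)) N) g) N) N))), 155, 5, 6, 4, 1⟩,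
  ⟨fun A S X L P R M N m a b c d e f g h D => (A (A (L (X (L (X (L (X 0 (P e 3)) N) (P f 3)) N) (P g 3)) N) (S M (L (L (X (L (X (L (X 86 b) N) (A (L (X (L (X 1048576 (A (L (R D 32) 4294967295) (X c (L (R D 4640) 4294967295)))) N) (P f 2)) N) (L (X (L (X 86 b) N) (A (L (X (L (X 1024 (A (L (R D 64) 4294967295) (X c (L (R D 4672) 4294967295)))) N) f) N) (L (X (L (X 86 b) N) (A (L (R D 96) 4294967295) (X c (L (R D 4704) 4294967295)))) N))) N))) N) (L (X (A (L (X 1 (A (L (R D 128) 4294967295) (X a (A (L (R D 160) 4294967295) (X a (L (R D 192) 4294967295)))))) N) (L (X c (A (L (R D 4736) 4294967295) (X a (A (L (R D 4768) 4294967295) (X a (L (R D 4800) 4294967295)))))) N)) (L (X 1 (A (L (X (A (L (X (L (X 1024 (A (A (L (R D 384) 4294967295) (X c (L (R D 4992) 4294967295))) (S M (L (X 2147483648 (A 1 (X c 1))) N)))) N) e) N) (L (X (L (X 171 a) N) (A (A (L (R D 480) 4294967295) (X c (L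 (R D 5088) 4294967295))) (S M (L (X 2147483648 (A 1 (X c 1))) N)))) N)) 1) N) (L (X (A (L (X (L (X 1024 (A (A (L (R D 384) 4294967295) (X c (L (R D 4992) 4294967295))) (S M (L (X 2147483648 (A 1 (X c 1))) N)))) N) e) N) (L (X (L (X 171 a) N) (A (A (L (R D 480) 4294967295) (X c (L (R D 5088) 4294967295))) (S M (L (X 2147483648 (A 1 (X c 1))) N)))) N)) 1) N))) N)) N)) N) N))) (S M (L (L (X (L (X (L (X 34359738368 (A (L (X (L (X (A (L (R D 2848) 4294967295) (X c (L (R D 7456) 4294967295))) (L (X (L (X 86 b) N) (A (L (X (L (X 1048576 (A (L (R D 32) 4294967295) (X c (L (R D 4640) 4294967295)))) N) (P f 2)) N) (L (X (L (X 86 b) N) (A (L (X (L (X 1024 (A (L (R D 64) 4294967295) (X c (L (R D 4672) 4294967295)))) N) f) N) (L (X (L (X 86 b) N) (A (L (R D 96) 4294967295) (X c (L (R D 4704) 4294967295)))) N))) N))) N)) N) (A 0 (S M (L (L (X 12 1) N) N)))) N) (A (L (X (L (X (A (L (R D 2912)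 4294967295) (X c (L (R D 7520) 4294967295))) (L (X (L (X 86 b) N) (A (L (X (L (X 1048576 (A (L (R D 32) 4294967295) (X c (L (R D 4640) 4294967295)))) N) (P f 2)) N) (L (X (L (X 86 b) N) (A (L (X (L (X 1024 (A (L (R D 64) 4294967295) (X c (L (R D 4672) 4294967295)))) N) f) N) (L (X (L (X 86 b) N) (A (L (R D 96) 4294967295) (X c (L (R D 4704) 4294967295)))) N))) N))) N)) N) 1) N) (A (L (X (L (X (A (L (R D 2976) 4294967295) (X c (L (R D 7584) 4294967295))) (L (X (L (X 86 b) N) (A (L (X (L (X 1048576 (A (L (R D 32) 4294967295) (X c (L (R D 4640) 4294967295)))) N) (P f 2)) N) (L (X (L (X 86 b) N) (A (L (X (L (X 1024 (A (L (R D 64) 4294967295) (X c (L (R D 4672) 4294967295)))) N) f) N) (L (X (L (X 86 b) N) (A (L (R D 96) 4294967295) (X c (L (R D 4704) 4294967295)))) N))) N))) N)) N) (A 0 (S M (L (L (X 12 1) N) N)))) N) (A (L (X (L (X (A (L (R D 3008) 4294967295) (X c (L (R D 7616) 4294967295)))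 (L (X (L (X 86 b) N) (A (L (X (L (X 1048576 (A (L (R D 32) 4294967295) (X c (L (R D 4640) 4294967295)))) N) (P f 2)) N) (L (X (L (X 86 b) N) (A (L (X (L (X 1024 (A (L (R D 64) 4294967295) (X c (L (R D 4672) 4294967295)))) N) f) N) (L (X (L (X 86 b) N) (A (L (R D 96) 4294967295) (X c (L (R D 4704) 4294967295)))) N))) N))) N)) N) (A 0 (S M (L (L (X 12 1) N) N)))) N) (A (L (X (L (X (A (L (R D 3072) 4294967295) (X c (L (R D 7680) 4294967295))) (L (X (L (X 86 b) N) (A (L (X (L (X 1048576 (A (L (R D 32) 4294967295) (X c (L (R D 4640) 4294967295)))) N) (P f 2)) N) (L (X (L (X 86 b) N) (A (L (X (L (X 1024 (A (L (R D 64) 4294967295) (X c (L (R D 4672) 4294967295)))) N) f) N) (L (X (L (X 86 b) N) (A (L (R D 96) 4294967295) (X c (L (R D 4704) 4294967295)))) N))) N))) N)) N) 1) N) (L (X (L (X (A (L (R D 3136) 4294967295) (X c (L (R D 7744) 4294967295))) (L (X (L (X 86 b) N) (A (L (X (L (X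 1048576 (A (L (R D 32) 4294967295) (X c (L (R D 4640) 4294967295)))) N) (P f 2)) N) (L (X (L (X 86 b) N) (A (L (X (L (X 1024 (A (L (R D 64) 4294967295) (X c (L (R D 4672) 4294967295)))) N) f) N) (L (X (L (X 86 b) N) (A (L (R D 96) 4294967295) (X c (L (R D 4704) 4294967295)))) N))) N))) N)) N) (A 0 (S M (L (L (X 12 1) N) N)))) N))))))) N) (P e 3)) N) g) N) N))), 142, 4, 4, 4, 1⟩,
  ⟨fun A S X L P R M N m a b c d e f g h D => (A (A (L (X (L (X (L (X 0 (P e 2)) N) (P f 3)) N) (P g 3)) N) (S M (L (L (X (L (X (L (X 86 b) N) (A (L (X (L (X 1048576 (A (L (R D 32) 4294967295) (X c (L (R D 4640) 4294967295)))) N) (P f 2)) N) (L (X (L (X 86 b) N) (A (L (X (L (X 1024 (A (L (R D 64) 4294967295) (X c (L (R D 4672) 4294967295)))) N) f) N) (L (X (L (X 86 b) N) (A (L (R D 96) 4294967295) (X c (L (R D 4704) 4294967295)))) N))) N))) N) (L (X (A (L (X 1 (A (L (R D 128) 4294967295) (X a (A (L (R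 D 160) 4294967295) (X a (L (R D 192) 4294967295)))))) N) (L (X c (A (L (R D 4736) 4294967295) (X a (A (L (R D 4768) 4294967295) (X a (L (R D 4800) 4294967295)))))) N)) (L (X 1 (A (L (X (A (A (L (R D 416) 4294967295) (X c (L (R D 5024) 4294967295))) (S M (L (X 2147483648 (A 1 (X c 1))) N))) 1) N) (L (X (A (A (L (R D 416) 4294967295) (X c (L (R D 5024) 4294967295))) (S M (L (X 2147483648 (A 1 (X c 1))) N))) 1) N))) N)) N)) N) N))) (S M (L (L (X (L (X (L (X 33554432 (A (L (X (L (X (A (L (R D 2880) 4294967295) (X c (L (R D 7488) 4294967295))) (L (X (L (X 86 b) N) (A (L (X (L (X 1048576 (A (L (R D 32) 4294967295) (X c (L (R D 4640) 4294967295)))) N) (P f 2)) N) (L (X (L (X 86 b) N) (A (L (X (L (X 1024 (A (L (R D 64) 4294967295) (X c (L (R D 4672) 4294967295)))) N) f) N) (L (X (L (X 86 b) N) (A (L (R D 96) 4294967295) (X c (L (R D 4704) 4294967295)))) N))) N))) N)) N) (A 0 (S M (L (L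 (X 12 1) N) N)))) N) (A (L (X (L (X (A (L (R D 2944) 4294967295) (X c (L (R D 7552) 4294967295))) (L (X (L (X 86 b) N) (A (L (X (L (X 1048576 (A (L (R D 32) 4294967295) (X c (L (R D 4640) 4294967295)))) N) (P f 2)) N) (L (X (L (X 86 b) N) (A (L (X (L (X 1024 (A (L (R D 64) 4294967295) (X c (L (R D 4672) 4294967295)))) N) f) N) (L (X (L (X 86 b) N) (A (L (R D 96) 4294967295) (X c (L (R D 4704) 4294967295)))) N))) N))) N)) N) (L (X 2 1) N)) N) (A (L (X (L (X (A (L (R D 2976) 4294967295) (X c (L (R D 7584) 4294967295))) (L (X (L (X 86 b) N) (A (L (X (L (X 1048576 (A (L (R D 32) 4294967295) (X c (L (R D 4640) 4294967295)))) N) (P f 2)) N) (L (X (L (X 86 b) N) (A (L (X (L (X 1024 (A (L (R D 64) 4294967295) (X c (L (R D 4672) 4294967295)))) N) f) N) (L (X (L (X 86 b) N) (A (L (R D 96) 4294967295) (X c (L (R D 4704) 4294967295)))) N))) N))) N)) N) (A 0 (S M (L (L (X 24 1) N) N)))) N)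 (A (L (X (L (X (A (L (R D 3040) 4294967295) (X c (L (R D 7648) 4294967295))) (L (X (L (X 86 b) N) (A (L (X (L (X 1048576 (A (L (R D 32) 4294967295) (X c (L (R D 4640) 4294967295)))) N) (P f 2)) N) (L (X (L (X 86 b) N) (A (L (X (L (X 1024 (A (L (R D 64) 4294967295) (X c (L (R D 4672) 4294967295)))) N) f) N) (L (X (L (X 86 b) N) (A (L (R D 96) 4294967295) (X c (L (R D 4704) 4294967295)))) N))) N))) N)) N) (A 0 (S M (L (L (X 12 1) N) N)))) N) (A (L (X (L (X (A (L (R D 3104) 4294967295) (X c (L (R D 7712) 4294967295))) (L (X (L (X 86 b) N) (A (L (X (L (X 1048576 (A (L (R D 32) 4294967295) (X c (L (R D 4640) 4294967295)))) N) (P f 2)) N) (L (X (L (X 86 b) N) (A (L (X (L (X 1024 (A (L (R D 64) 4294967295) (X c (L (R D 4672) 4294967295)))) N) f) N) (L (X (L (X 86 b) N) (A (L (R D 96) 4294967295) (X c (L (R D 4704) 4294967295)))) N))) N))) N)) N) (L (X 2 1) N)) N) (L (X (L (X (A (L (R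 D 3136) 4294967295) (X c (L (R D 7744) 4294967295))) (L (X (L (X 86 b) N) (A (L (X (L (X 1048576 (A (L (R D 32) 4294967295) (X c (L (R D 4640) 4294967295)))) N) (P f 2)) N) (L (X (L (X 86 b) N) (A (L (X (L (X 1024 (A (L (R D 64) 4294967295) (X c (L (R D 4672) 4294967295)))) N) f) N) (L (X (L (X 86 b) N) (A (L (R D 96) 4294967295) (X c (L (R D 4704) 4294967295)))) N))) N))) N)) N) (A 0 (S M (L (L (X 24 1) N) N)))) N))))))) N) (P e 2)) N) g) N) N))), 131, 3, 4, 4, 1⟩,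
  ⟨fun A S X L P R M N m a b c d e f g h D => (A (A (L (X (L (X (L (X 0 (P e 2)) N) (P f 3)) N) (P g 3)) N) (S M (L (L (X (L (X (L (X 86 b) N) (A (L (X (L (X 1048576 (A (L (R D 32) 4294967295) (X c (L (R D 4640) 4294967295)))) N) (P f 2)) N) (L (X (L (X 86 b) N) (A (L (X (L (X 1024 (A (L (R D 64) 4294967295) (X c (L (R D 4672) 4294967295)))) N) f) N) (L (X (L (X 86 b) N) (A (L (R D 96) 4294967295) (X c (L (R D 4704) 4294967295)))) N))) N))) N) (L (X (A (L (X 1 (A (L (R D 128) 4294967295) (X a (A (L (R D 160) 4294967295) (X a (L (R D 192) 4294967295)))))) N) (L (X c (A (L (R D 4736) 4294967295) (X a (A (L (R D 4768) 4294967295) (X a (L (R D 4800) 4294967295)))))) N)) (L (X 1 (A (L (X (A (A (L (R D 448) 4294967295) (X c (L (R D 5056) 4294967295))) (S M (L (X 2147483648 (A 1 (X c 1))) N))) 1) N) (L (X (A (A (L (R D 448) 4294967295) (X c (L (R D 5056) 4294967295))) (S M (L (X 2147483648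 (A 1 (X c 1))) N))) 1) N))) N)) N)) N) N))) (S M (L (L (X (L (X (L (X 33554432 (A (L (X (L (X (A (L (R D 2912) 4294967295) (X c (L (R D 7520) 4294967295))) (L (X (L (X 86 b) N) (A (L (X (L (X 1048576 (A (L (R D 32) 4294967295) (X c (L (R D 4640) 4294967295)))) N) (P f 2)) N) (L (X (L (X 86 b) N) (A (L (X (L (X 1024 (A (L (R D 64) 4294967295) (X c (L (R D 4672) 4294967295)))) N) f) N) (L (X (L (X 86 b) N) (A (L (R D 96) 4294967295) (X c (L (R D 4704) 4294967295)))) N))) N))) N)) N) (A 0 (S M (L (L (X 12 1) N) N)))) N) (A (L (X (L (X (A (L (R D 2944) 4294967295) (X c (L (R D 7552) 4294967295))) (L (X (L (X 86 b) N) (A (L (X (L (X 1048576 (A (L (R D 32) 4294967295) (X c (L (R D 4640) 4294967295)))) N) (P f 2)) N) (L (X (L (X 86 b) N) (A (L (X (L (X 1024 (A (L (R D 64) 4294967295) (X c (L (R D 4672) 4294967295)))) N) f) N) (L (X (L (X 86 b) N) (A (L (R D 96) 4294967295) (X c (L (R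 D 4704) 4294967295)))) N))) N))) N)) N) (A 0 (S M (L (L (X 12 1) N) N)))) N) (A (L (X (L (X (A (L (R D 2976) 4294967295) (X c (L (R D 7584) 4294967295))) (L (X (L (X 86 b) N) (A (L (X (L (X 1048576 (A (L (R D 32) 4294967295) (X c (L (R D 4640) 4294967295)))) N) (P f 2)) N) (L (X (L (X 86 b) N) (A (L (X (L (X 1024 (A (L (R D 64) 4294967295) (X c (L (R D 4672) 4294967295)))) N) f) N) (L (X (L (X 86 b) N) (A (L (R D 96) 4294967295) (X c (L (R D 4704) 4294967295)))) N))) N))) N)) N) (L (X 144 1) N)) N) (A (L (X (L (X (A (L (R D 3072) 4294967295) (X c (L (R D 7680) 4294967295))) (L (X (L (X 86 b) N) (A (L (X (L (X 1048576 (A (L (R D 32) 4294967295) (X c (L (R D 4640) 4294967295)))) N) (P f 2)) N) (L (X (L (X 86 b) N) (A (L (X (L (X 1024 (A (L (R D 64) 4294967295) (X c (L (R D 4672) 4294967295)))) N) f) N) (L (X (L (X 86 b) N) (A (L (R D 96) 4294967295) (X c (L (R D 4704) 4294967295))))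 N))) N))) N)) N) (A 0 (S M (L (L (X 12 1) N) N)))) N) (A (L (X (L (X (A (L (R D 3104) 4294967295) (X c (L (R D 7712) 4294967295))) (L (X (L (X 86 b) N) (A (L (X (L (X 1048576 (A (L (R D 32) 4294967295) (X c (L (R D 4640) 4294967295)))) N) (P f 2)) N) (L (X (L (X 86 b) N) (A (L (X (L (X 1024 (A (L (R D 64) 4294967295) (X c (L (R D 4672) 4294967295)))) N) f) N) (L (X (L (X 86 b) N) (A (L (R D 96) 4294967295) (X c (L (R D 4704) 4294967295)))) N))) N))) N)) N) (A 0 (S M (L (L (X 12 1) N) N)))) N) (L (X (L (X (A (L (R D 3136) 4294967295) (X c (L (R D 7744) 4294967295))) (L (X (L (X 86 b) N) (A (L (X (L (X 1048576 (A (L (R D 32) 4294967295) (X c (L (R D 4640) 4294967295)))) N) (P f 2)) N) (L (X (L (X 86 b) N) (A (L (X (L (X 1024 (A (L (R D 64) 4294967295) (X c (L (R D 4672) 4294967295)))) N) f) N) (L (X (L (X 86 b) N) (A (L (R D 96) 4294967295) (X c (L (R D 4704) 4294967295)))) N)))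 N))) N)) N) (L (X 144 1) N)) N))))))) N) (P e 2)) N) g) N) N))), 132, 3, 4, 4, 1⟩,
  ⟨fun A S X L P R M N m a b c d e f g h D => (A (A (L (X (L (X (L (X 0 (P e 3)) N) (P f 5)) N) (P g 3)) N) (S M (L (L (X (L (X (L (X 86 b) N) (A (L (X (L (X 1048576 (A (L (R D 32) 4294967295) (X c (L (R D 4640) 4294967295)))) N) (P f 2)) N) (L (X (L (X 86 b) N) (A (L (X (L (X 1024 (A (L (R D 64) 4294967295) (X c (L (R D 4672) 4294967295)))) N) f) N) (L (X (L (X 86 b) N) (A (L (R D 96) 4294967295) (X c (L (R D 4704) 4294967295)))) N))) N))) N) (L (X (A (L (X 1 (A (L (R D 128) 4294967295) (X a (A (L (R D 160) 4294967295) (X a (L (R D 192) 4294967295)))))) N) (L (X c (A (L (R D 4736) 4294967295) (X a (A (L (R D 4768) 4294967295) (X a (L (R D 4800) 4294967295)))))) N)) (L (X 1 (A (L (X (L (X (A (L (X (L (X 1024 (A (A (L (R D 384) 4294967295) (X c (L (R D 4992) 4294967295))) (S M (L (X 2147483648 (A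 1 (X c 1))) N)))) N) e) N) (L (X (L (X 171 a) N) (A (A (L (R D 480) 4294967295) (X c (L (R D 5088) 4294967295))) (S M (L (X 2147483648 (A 1 (X c 1))) N)))) N)) (L (X 86 b) N)) N) f) N) (L (X (L (X (A (A (L (R D 448) 4294967295) (X c (L (R D 5056) 4294967295))) (S M (L (X 2147483648 (A 1 (X c 1))) N))) (L (X (L (X 86 b) N) (L (X 86 b) N)) N)) N) e) N))) N)) N)) N) N))) (S M (L (L (X (L (X (L (X 33554432 (A (L (X (L (X 1024 (L (X (L (X (A (L (R D 3008) 4294967295) (X c (L (R D 7616) 4294967295))) (L (X (L (X 86 b) N) (A (L (X (L (X 1048576 (A (L (R D 32) 4294967295) (X c (L (R D 4640) 4294967295)))) N) (P f 2)) N) (L (X (L (X 86 b) N) (A (L (X (L (X 1024 (A (L (R D 64) 4294967295) (X c (L (R D 4672) 4294967295)))) N) f) N) (L (X (L (X 86 b) N) (A (L (R D 96) 4294967295) (X c (L (R D 4704) 4294967295)))) N))) N))) N)) N) (A (L (X 0 f) N) (S M (L (L (X 12 (L (X 86 b) N)) N) N))))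 N)) N) f) N) (A (L (X (L (X (A (L (R D 3072) 4294967295) (X c (L (R D 7680) 4294967295))) (L (X (L (X 86 b) N) (A (L (X (L (X 1048576 (A (L (R D 32) 4294967295) (X c (L (R D 4640) 4294967295)))) N) (P f 2)) N) (L (X (L (X 86 b) N) (A (L (X (L (X 1024 (A (L (R D 64) 4294967295) (X c (L (R D 4672) 4294967295)))) N) f) N) (L (X (L (X 86 b) N) (A (L (R D 96) 4294967295) (X c (L (R D 4704) 4294967295)))) N))) N))) N)) N) (A (L (X (L (X 1024 (L (X 86 b) N)) N) f) N) (S M (L (L (X 12 (L (X (L (X 86 b) N) (L (X 86 b) N)) N)) N) N)))) N) (A (L (X (L (X (A (L (R D 3104) 4294967295) (X c (L (R D 7712) 4294967295))) (L (X (L (X 86 b) N) (A (L (X (L (X 1048576 (A (L (R D 32) 4294967295) (X c (L (R D 4640) 4294967295)))) N) (P f 2)) N) (L (X (L (X 86 b) N) (A (L (X (L (X 1024 (A (L (R D 64) 4294967295) (X c (L (R D 4672) 4294967295)))) N) f) N) (L (X (L (X 86 b) N) (A (L (R D 96) 4294967295)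 (X c (L (R D 4704) 4294967295)))) N))) N))) N)) N) (A (L (X 0 (P f 2)) N) (S M (L (L (X 12 (L (X (L (X 86 b) N) (L (X 86 b) N)) N)) N) N)))) N) (A (L (X (L (X (A (L (R D 3136) 4294967295) (X c (L (R D 7744) 4294967295))) (L (X (L (X 86 b) N) (A (L (X (L (X 1048576 (A (L (R D 32) 4294967295) (X c (L (R D 4640) 4294967295)))) N) (P f 2)) N) (L (X (L (X 86 b) N) (A (L (X (L (X 1024 (A (L (R D 64) 4294967295) (X c (L (R D 4672) 4294967295)))) N) f) N) (L (X (L (X 86 b) N) (A (L (R D 96) 4294967295) (X c (L (R D 4704) 4294967295)))) N))) N))) N)) N) (A (L (X 144 (L (X (L (X 86 b) N) (L (X 86 b) N)) N)) N) (S M (L (L (X (L (X 1024 (L (X 12 (L (X 86 b) N)) N)) N) f) N) N)))) N) (L (X (L (X 1048576 (L (X (L (X (A (L (R D 3168) 4294967295) (X c (L (R D 7776) 4294967295))) (L (X (L (X 86 b) N) (A (L (X (L (X 1048576 (A (L (R D 32) 4294967295) (X c (L (R D 4640) 4294967295)))) N) (P f 2))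 N) (L (X (L (X 86 b) N) (A (L (X (L (X 1024 (A (L (R D 64) 4294967295) (X c (L (R D 4672) 4294967295)))) N) f) N) (L (X (L (X 86 b) N) (A (L (R D 96) 4294967295) (X c (L (R D 4704) 4294967295)))) N))) N))) N)) N) (A 0 (S M (L (L (X 12 1) N) N)))) N)) N) (P f 2)) N)))))) N) (P e 3)) N) g) N) N))), 150, 4, 6, 4, 1⟩,
  ⟨fun A S X L P R M N m a b c d e f g h D => (A (A (L (X (L (X (L (X (L (X 590295810358705651712 (L (X (L (X 86 b) N) (A (L (X 1024 (A (L (X (A (L (X (L (X 1024 (A (A (L (R D 960) 4294967295) (X c (L (R D 5568) 4294967295))) (S M (L (X 2147483648 (A 1 (X c 1))) N)))) N) e) N) (L (X (A (A (L (R D 992) 4294967295) (X c (L (R D 5600) 4294967295))) (S M (L (X 2147483648 (A 1 (X c 1))) N))) (L (X 171 a) N)) N)) f) N) (L (X (L (X (A (A (L (R D 1024) 4294967295) (X c (L (R D 5632) 4294967295))) (S M (L (X 2147483648 (A 1 (X c 1))) N))) (L (X 86 b) N)) N) e) N))) N) (L (X (A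 (A (L (R D 1056) 4294967295) (X c (L (R D 5664) 4294967295))) (S M (L (X 2147483648 (A 1 (X c 1))) N))) (L (X (L (X 86 b) N) (L (X 171 a) N)) N)) N))) N)) N) (P e 3)) N) (P f 3)) N) (P g 2)) N) (S M (L (L (X (L (X (L (X 86 b) N) (A (L (X (L (X 1048576 (A (L (R D 32) 4294967295) (X c (L (R D 4640) 4294967295)))) N) (P f 2)) N) (L (X (L (X 86 b) N) (A (L (X (L (X 1024 (A (L (R D 64) 4294967295) (X c (L (R D 4672) 4294967295)))) N) f) N) (L (X (L (X 86 b) N) (A (L (R D 96) 4294967295) (X c (L (R D 4704) 4294967295)))) N))) N))) N) (L (X (A (L (X 1 (A (L (R D 128) 4294967295) (X a (A (L (R D 160) 4294967295) (X a (L (R D 192) 4294967295)))))) N) (L (X c (A (L (R D 4736) 4294967295) (X a (A (L (R D 4768) 4294967295) (X a (L (R D 4800) 4294967295)))))) N)) (L (X 1 (A (L (X (A (L (X (L (X 1024 (L (X (A (A (L (R D 512) 4294967295) (X c (L (R D 5120) 4294967295))) (S M (L (X 2147483648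 (A 1 (X c 1))) N))) (A (L (X (L (X 767 e) N) f) N) (A (L (X (L (X 171 1) N) f) N) (L (X (L (X 86 1) N) e) N)))) N)) N) e) N) (L (X (A (A (L (R D 544) 4294967295) (X c (L (R D 5152) 4294967295))) (S M (L (X 2147483648 (A 1 (X c 1))) N))) (L (X (L (X 171 a) N) (A (L (X (L (X 767 e) N) f) N) (A (L (X (L (X 171 1) N) f) N) (L (X (L (X 86 1) N) e) N)))) N)) N)) f) N) (A (L (X (A (L (X (L (X 1024 (L (X (A (A (L (R D 512) 4294967295) (X c (L (R D 5120) 4294967295))) (S M (L (X 2147483648 (A 1 (X c 1))) N))) (A (L (X 853 e) N) (L (X 171 1) N))) N)) N) e) N) (L (X (A (A (L (R D 544) 4294967295) (X c (L (R D 5152) 4294967295))) (S M (L (X 2147483648 (A 1 (X c 1))) N))) (L (X (L (X 171 a) N) (A (L (X 853 e) N) (L (X 171 1) N))) N)) N)) (P f 2)) N) (L (X (L (X (A (A (L (R D 608) 4294967295) (X c (L (R D 5216) 4294967295))) (S M (L (X 2147483648 (A 1 (X c 1))) N))) (L (X (L (X 86 b) N) (L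 (X 86 b) N)) N)) N) (P e 2)) N)))) N)) N)) N) N))) (S M (L (L (X (L (X (L (X 33554432 (A (L (X (L (X 1024 (L (X (L (X (A (L (R D 3200) 4294967295) (X c (L (R D 7808) 4294967295))) (L (X (L (X 86 b) N) (A (L (X (L (X 1048576 (A (L (R D 32) 4294967295) (X c (L (R D 4640) 4294967295)))) N) (P f 2)) N) (L (X (L (X 86 b) N) (A (L (X (L (X 1024 (A (L (R D 64) 4294967295) (X c (L (R D 4672) 4294967295)))) N) f) N) (L (X (L (X 86 b) N) (A (L (R D 96) 4294967295) (X c (L (R D 4704) 4294967295)))) N))) N))) N)) N) (L (X 2 (A (L (X (L (X 767 e) N) f) N) (A (L (X (L (X 171 1) N) f) N) (L (X (L (X 86 1) N) e) N)))) N)) N)) N) f) N) (A (L (X (L (X 1024 (L (X (L (X (A (L (R D 3232) 4294967295) (X c (L (R D 7840) 4294967295))) (L (X (L (X 86 b) N) (A (L (X (L (X 1048576 (A (L (R D 32) 4294967295) (X c (L (R D 4640) 4294967295)))) N) (P f 2)) N) (L (X (L (X 86 b) N) (A (L (X (L (X 1024 (A (L (R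 D 64) 4294967295) (X c (L (R D 4672) 4294967295)))) N) f) N) (L (X (L (X 86 b) N) (A (L (R D 96) 4294967295) (X c (L (R D 4704) 4294967295)))) N))) N))) N)) N) (A (L (X (L (X 767 e) N) f) N) (A (L (X (L (X 171 1) N) f) N) (L (X (L (X 86 1) N) e) N)))) N)) N) f) N) (A (L (X (L (X 1024 (L (X (L (X (A (L (R D 3328) 4294967295) (X c (L (R D 7936) 4294967295))) (L (X (L (X 86 b) N) (A (L (X (L (X 1048576 (A (L (R D 32) 4294967295) (X c (L (R D 4640) 4294967295)))) N) (P f 2)) N) (L (X (L (X 86 b) N) (A (L (X (L (X 1024 (A (L (R D 64) 4294967295) (X c (L (R D 4672) 4294967295)))) N) f) N) (L (X (L (X 86 b) N) (A (L (R D 96) 4294967295) (X c (L (R D 4704) 4294967295)))) N))) N))) N)) N) (L (X 2 (A (L (X (L (X 767 e) N) f) N) (A (L (X (L (X 171 1) N) f) N) (L (X (L (X 86 1) N) e) N)))) N)) N)) N) f) N) (A (L (X (L (X 1024 (L (X (L (X (A (L (R D 3360) 4294967295) (X c (L (R D 7968) 4294967295)))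 (L (X (L (X 86 b) N) (A (L (X (L (X 1048576 (A (L (R D 32) 4294967295) (X c (L (R D 4640) 4294967295)))) N) (P f 2)) N) (L (X (L (X 86 b) N) (A (L (X (L (X 1024 (A (L (R D 64) 4294967295) (X c (L (R D 4672) 4294967295)))) N) f) N) (L (X (L (X 86 b) N) (A (L (R D 96) 4294967295) (X c (L (R D 4704) 4294967295)))) N))) N))) N)) N) (L (X 2 (A (L (X 853 e) N) (L (X 171 1) N))) N)) N)) N) (P f 2)) N) (A (L (X (L (X (A (L (R D 3392) 4294967295) (X c (L (R D 8000) 4294967295))) (L (X (L (X 86 b) N) (A (L (X (L (X 1048576 (A (L (R D 32) 4294967295) (X c (L (R D 4640) 4294967295)))) N) (P f 2)) N) (L (X (L (X 86 b) N) (A (L (X (L (X 1024 (A (L (R D 64) 4294967295) (X c (L (R D 4672) 4294967295)))) N) f) N) (L (X (L (X 86 b) N) (A (L (R D 96) 4294967295) (X c (L (R D 4704) 4294967295)))) N))) N))) N)) N) (A (L (X (L (X 1024 (A (L (X 853 e) N) (L (X 171 1) N))) N) (P f 2)) N) (S M (L (L (X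 (L (X 12 (L (X (L (X 86 b) N) (L (X 86 b) N)) N)) N) e) N) N)))) N) (A (L (X (L (X (L (X (A (L (R D 3456) 4294967295) (X c (L (R D 8064) 4294967295))) (L (X (L (X 86 b) N) (A (L (X (L (X 1048576 (A (L (R D 32) 4294967295) (X c (L (R D 4640) 4294967295)))) N) (P f 2)) N) (L (X (L (X 86 b) N) (A (L (X (L (X 1024 (A (L (R D 64) 4294967295) (X c (L (R D 4672) 4294967295)))) N) f) N) (L (X (L (X 86 b) N) (A (L (R D 96) 4294967295) (X c (L (R D 4704) 4294967295)))) N))) N))) N)) N) (L (X 2 (L (X (L (X 86 b) N) (L (X 86 b) N)) N)) N)) N) e) N) (A (L (X (L (X (A (L (R D 3488) 4294967295) (X c (L (R D 8096) 4294967295))) (L (X (L (X 86 b) N) (A (L (X (L (X 1048576 (A (L (R D 32) 4294967295) (X c (L (R D 4640) 4294967295)))) N) (P f 2)) N) (L (X (L (X 86 b) N) (A (L (X (L (X 1024 (A (L (R D 64) 4294967295) (X c (L (R D 4672) 4294967295)))) N) f) N) (L (X (L (X 86 b) N) (A (L (R D 96) 4294967295)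 (X c (L (R D 4704) 4294967295)))) N))) N))) N)) N) (A (L (X (L (X 1024 (L (X 2 (A (L (X 853 e) N) (L (X 171 1) N))) N)) N) (P f 2)) N) (S M (L (L (X (L (X 24 (L (X (L (X 86 b) N) (L (X 86 b) N)) N)) N) e) N) N)))) N) (L (X (L (X (L (X 1048576 (L (X (L (X (A (L (R D 3520) 4294967295) (X c (L (R D 8128) 4294967295))) (L (X (L (X 86 b) N) (A (L (X (L (X 1048576 (A (L (R D 32) 4294967295) (X c (L (R D 4640) 4294967295)))) N) (P f 2)) N) (L (X (L (X 86 b) N) (A (L (X (L (X 1024 (A (L (R D 64) 4294967295) (X c (L (R D 4672) 4294967295)))) N) f) N) (L (X (L (X 86 b) N) (A (L (R D 96) 4294967295) (X c (L (R D 4704) 4294967295)))) N))) N))) N)) N) 2) N)) N) e) N) (P f 2)) N))))))))) N) (P e 3)) N) g) N) N))), 155, 5, 6, 4, 1⟩,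
  ⟨fun A S X L P R M N m a b c d e f g h D => (A (A (L (X (L (X (L (X 0 (P e 3)) N) (P f 3)) N) (P g 3)) N) (S M (L (L (X (L (X (L (X 86 b) N) (A (L (X (L (X 1048576 (A (L (R D 32) 4294967295) (X c (L (R D 4640) 4294967295)))) N) (P f 2)) N) (L (X (L (X 86 b) N) (A (L (X (L (X 1024 (A (L (R D 64) 4294967295) (X c (L (R D 4672) 4294967295)))) N) f) N) (L (X (L (X 86 b) N) (A (L (R D 96) 4294967295) (X c (L (R D 4704) 4294967295)))) N))) N))) N) (L (X (A (L (X 1 (A (L (R D 128) 4294967295) (X a (A (L (R D 160) 4294967295) (X a (L (R D 192) 4294967295)))))) N) (L (X c (A (L (R D 4736) 4294967295) (X a (A (L (R D 4768) 4294967295) (X a (L (R D 4800) 4294967295)))))) N)) (L (X 1 (A (L (X (A (L (X (L (X 1024 (A (A (L (R D 576) 4294967295) (X c (L (R D 5184) 4294967295))) (S M (L (X 2147483648 (A 1 (X c 1))) N)))) N) e) N) (L (X (L (X 171 a) N) (A (A (L (R D 672) 4294967295) (X c (L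 (R D 5280) 4294967295))) (S M (L (X 2147483648 (A 1 (X c 1))) N)))) N)) 1) N) (L (X (A (L (X (L (X 1024 (A (A (L (R D 576) 4294967295) (X c (L (R D 5184) 4294967295))) (S M (L (X 2147483648 (A 1 (X c 1))) N)))) N) e) N) (L (X (L (X 171 a) N) (A (A (L (R D 672) 4294967295) (X c (L (R D 5280) 4294967295))) (S M (L (X 2147483648 (A 1 (X c 1))) N)))) N)) 1) N))) N)) N)) N) N))) (S M (L (L (X (L (X (L (X 34359738368 (A (L (X (L (X (A (L (R D 3200) 4294967295) (X c (L (R D 7808) 4294967295))) (L (X (L (X 86 b) N) (A (L (X (L (X 1048576 (A (L (R D 32) 4294967295) (X c (L (R D 4640) 4294967295)))) N) (P f 2)) N) (L (X (L (X 86 b) N) (A (L (X (L (X 1024 (A (L (R D 64) 4294967295) (X c (L (R D 4672) 4294967295)))) N) f) N) (L (X (L (X 86 b) N) (A (L (R D 96) 4294967295) (X c (L (R D 4704) 4294967295)))) N))) N))) N)) N) (A 0 (S M (L (L (X 12 1) N) N)))) N) (A (L (X (L (X (A (L (R D 3264)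 4294967295) (X c (L (R D 7872) 4294967295))) (L (X (L (X 86 b) N) (A (L (X (L (X 1048576 (A (L (R D 32) 4294967295) (X c (L (R D 4640) 4294967295)))) N) (P f 2)) N) (L (X (L (X 86 b) N) (A (L (X (L (X 1024 (A (L (R D 64) 4294967295) (X c (L (R D 4672) 4294967295)))) N) f) N) (L (X (L (X 86 b) N) (A (L (R D 96) 4294967295) (X c (L (R D 4704) 4294967295)))) N))) N))) N)) N) 1) N) (A (L (X (L (X (A (L (R D 3328) 4294967295) (X c (L (R D 7936) 4294967295))) (L (X (L (X 86 b) N) (A (L (X (L (X 1048576 (A (L (R D 32) 4294967295) (X c (L (R D 4640) 4294967295)))) N) (P f 2)) N) (L (X (L (X 86 b) N) (A (L (X (L (X 1024 (A (L (R D 64) 4294967295) (X c (L (R D 4672) 4294967295)))) N) f) N) (L (X (L (X 86 b) N) (A (L (R D 96) 4294967295) (X c (L (R D 4704) 4294967295)))) N))) N))) N)) N) (A 0 (S M (L (L (X 12 1) N) N)))) N) (A (L (X (L (X (A (L (R D 3360) 4294967295) (X c (L (R D 7968) 4294967295)))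 (L (X (L (X 86 b) N) (A (L (X (L (X 1048576 (A (L (R D 32) 4294967295) (X c (L (R D 4640) 4294967295)))) N) (P f 2)) N) (L (X (L (X 86 b) N) (A (L (X (L (X 1024 (A (L (R D 64) 4294967295) (X c (L (R D 4672) 4294967295)))) N) f) N) (L (X (L (X 86 b) N) (A (L (R D 96) 4294967295) (X c (L (R D 4704) 4294967295)))) N))) N))) N)) N) (A 0 (S M (L (L (X 12 1) N) N)))) N) (A (L (X (L (X (A (L (R D 3424) 4294967295) (X c (L (R D 8032) 4294967295))) (L (X (L (X 86 b) N) (A (L (X (L (X 1048576 (A (L (R D 32) 4294967295) (X c (L (R D 4640) 4294967295)))) N) (P f 2)) N) (L (X (L (X 86 b) N) (A (L (X (L (X 1024 (A (L (R D 64) 4294967295) (X c (L (R D 4672) 4294967295)))) N) f) N) (L (X (L (X 86 b) N) (A (L (R D 96) 4294967295) (X c (L (R D 4704) 4294967295)))) N))) N))) N)) N) 1) N) (L (X (L (X (A (L (R D 3488) 4294967295) (X c (L (R D 8096) 4294967295))) (L (X (L (X 86 b) N) (A (L (X (L (X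 1048576 (A (L (R D 32) 4294967295) (X c (L (R D 4640) 4294967295)))) N) (P f 2)) N) (L (X (L (X 86 b) N) (A (L (X (L (X 1024 (A (L (R D 64) 4294967295) (X c (L (R D 4672) 4294967295)))) N) f) N) (L (X (L (X 86 b) N) (A (L (R D 96) 4294967295) (X c (L (R D 4704) 4294967295)))) N))) N))) N)) N) (A 0 (S M (L (L (X 12 1) N) N)))) N))))))) N) (P e 3)) N) g) N) N))), 142, 4, 4, 4, 1⟩,
  ⟨fun A S X L P R M N m a b c d e f g h D => (A (A (L (X (L (X (L (X 0 (P e 2)) N) (P f 3)) N) (P g 3)) N) (S M (L (L (X (L (X (L (X 86 b) N) (A (L (X (L (X 1048576 (A (L (R D 32) 4294967295) (X c (L (R D 4640) 4294967295)))) N) (P f 2)) N) (L (X (L (X 86 b) N) (A (L (X (L (X 1024 (A (L (R D 64) 4294967295) (X c (L (R D 4672) 4294967295)))) N) f) N) (L (X (L (X 86 b) N) (A (L (R D 96) 4294967295) (X c (L (R D 4704) 4294967295)))) N))) N))) N) (L (X (A (L (X 1 (A (L (R D 128) 4294967295) (X a (A (L (R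 D 160) 4294967295) (X a (L (R D 192) 4294967295)))))) N) (L (X c (A (L (R D 4736) 4294967295) (X a (A (L (R D 4768) 4294967295) (X a (L (R D 4800) 4294967295)))))) N)) (L (X 1 (A (L (X (A (A (L (R D 608) 4294967295) (X c (L (R D 5216) 4294967295))) (S M (L (X 2147483648 (A 1 (X c 1))) N))) 1) N) (L (X (A (A (L (R D 608) 4294967295) (X c (L (R D 5216) 4294967295))) (S M (L (X 2147483648 (A 1 (X c 1))) N))) 1) N))) N)) N)) N) N))) (S M (L (L (X (L (X (L (X 33554432 (A (L (X (L (X (A (L (R D 3232) 4294967295) (X c (L (R D 7840) 4294967295))) (L (X (L (X 86 b) N) (A (L (X (L (X 1048576 (A (L (R D 32) 4294967295) (X c (L (R D 4640) 4294967295)))) N) (P f 2)) N) (L (X (L (X 86 b) N) (A (L (X (L (X 1024 (A (L (R D 64) 4294967295) (X c (L (R D 4672) 4294967295)))) N) f) N) (L (X (L (X 86 b) N) (A (L (R D 96) 4294967295) (X c (L (R D 4704) 4294967295)))) N))) N))) N)) N) (A 0 (S M (L (L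 (X 12 1) N) N)))) N) (A (L (X (L (X (A (L (R D 3296) 4294967295) (X c (L (R D 7904) 4294967295))) (L (X (L (X 86 b) N) (A (L (X (L (X 1048576 (A (L (R D 32) 4294967295) (X c (L (R D 4640) 4294967295)))) N) (P f 2)) N) (L (X (L (X 86 b) N) (A (L (X (L (X 1024 (A (L (R D 64) 4294967295) (X c (L (R D 4672) 4294967295)))) N) f) N) (L (X (L (X 86 b) N) (A (L (R D 96) 4294967295) (X c (L (R D 4704) 4294967295)))) N))) N))) N)) N) (L (X 2 1) N)) N) (A (L (X (L (X (A (L (R D 3328) 4294967295) (X c (L (R D 7936) 4294967295))) (L (X (L (X 86 b) N) (A (L (X (L (X 1048576 (A (L (R D 32) 4294967295) (X c (L (R D 4640) 4294967295)))) N) (P f 2)) N) (L (X (L (X 86 b) N) (A (L (X (L (X 1024 (A (L (R D 64) 4294967295) (X c (L (R D 4672) 4294967295)))) N) f) N) (L (X (L (X 86 b) N) (A (L (R D 96) 4294967295) (X c (L (R D 4704) 4294967295)))) N))) N))) N)) N) (A 0 (S M (L (L (X 24 1) N) N)))) N)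 (A (L (X (L (X (A (L (R D 3392) 4294967295) (X c (L (R D 8000) 4294967295))) (L (X (L (X 86 b) N) (A (L (X (L (X 1048576 (A (L (R D 32) 4294967295) (X c (L (R D 4640) 4294967295)))) N) (P f 2)) N) (L (X (L (X 86 b) N) (A (L (X (L (X 1024 (A (L (R D 64) 4294967295) (X c (L (R D 4672) 4294967295)))) N) f) N) (L (X (L (X 86 b) N) (A (L (R D 96) 4294967295) (X c (L (R D 4704) 4294967295)))) N))) N))) N)) N) (A 0 (S M (L (L (X 12 1) N) N)))) N) (A (L (X (L (X (A (L (R D 3456) 4294967295) (X c (L (R D 8064) 4294967295))) (L (X (L (X 86 b) N) (A (L (X (L (X 1048576 (A (L (R D 32) 4294967295) (X c (L (R D 4640) 4294967295)))) N) (P f 2)) N) (L (X (L (X 86 b) N) (A (L (X (L (X 1024 (A (L (R D 64) 4294967295) (X c (L (R D 4672) 4294967295)))) N) f) N) (L (X (L (X 86 b) N) (A (L (R D 96) 4294967295) (X c (L (R D 4704) 4294967295)))) N))) N))) N)) N) (L (X 2 1) N)) N) (L (X (L (X (A (L (R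 D 3488) 4294967295) (X c (L (R D 8096) 4294967295))) (L (X (L (X 86 b) N) (A (L (X (L (X 1048576 (A (L (R D 32) 4294967295) (X c (L (R D 4640) 4294967295)))) N) (P f 2)) N) (L (X (L (X 86 b) N) (A (L (X (L (X 1024 (A (L (R D 64) 4294967295) (X c (L (R D 4672) 4294967295)))) N) f) N) (L (X (L (X 86 b) N) (A (L (R D 96) 4294967295) (X c (L (R D 4704) 4294967295)))) N))) N))) N)) N) (A 0 (S M (L (L (X 24 1) N) N)))) N))))))) N) (P e 2)) N) g) N) N))), 131, 3, 4, 4, 1⟩,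
  ⟨fun A S X L P R M N m a b c d e f g h D => (A (A (L (X (L (X (L (X 0 (P e 2)) N) (P f 3)) N) (P g 3)) N) (S M (L (L (X (L (X (L (X 86 b) N) (A (L (X (L (X 1048576 (A (L (R D 32) 4294967295) (X c (L (R D 4640) 4294967295)))) N) (P f 2)) N) (L (X (L (X 86 b) N) (A (L (X (L (X 1024 (A (L (R D 64) 4294967295) (X c (L (R D 4672) 4294967295)))) N) f) N) (L (X (L (X 86 b) N) (A (L (R D 96) 4294967295) (X c (L (R D 4704) 4294967295)))) N))) N))) N) (L (X (A (L (X 1 (A (L (R D 128) 4294967295) (X a (A (L (R D 160) 4294967295) (X a (L (R D 192) 4294967295)))))) N) (L (X c (A (L (R D 4736) 4294967295) (X a (A (L (R D 4768) 4294967295) (X a (L (R D 4800) 4294967295)))))) N)) (L (X 1 (A (L (X (A (A (L (R D 640) 4294967295) (X c (L (R D 5248) 4294967295))) (S M (L (X 2147483648 (A 1 (X c 1))) N))) 1) N) (L (X (A (A (L (R D 640) 4294967295) (X c (L (R D 5248) 4294967295))) (S M (L (X 2147483648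 (A 1 (X c 1))) N))) 1) N))) N)) N)) N) N))) (S M (L (L (X (L (X (L (X 33554432 (A (L (X (L (X (A (L (R D 3264) 4294967295) (X c (L (R D 7872) 4294967295))) (L (X (L (X 86 b) N) (A (L (X (L (X 1048576 (A (L (R D 32) 4294967295) (X c (L (R D 4640) 4294967295)))) N) (P f 2)) N) (L (X (L (X 86 b) N) (A (L (X (L (X 1024 (A (L (R D 64) 4294967295) (X c (L (R D 4672) 4294967295)))) N) f) N) (L (X (L (X 86 b) N) (A (L (R D 96) 4294967295) (X c (L (R D 4704) 4294967295)))) N))) N))) N)) N) (A 0 (S M (L (L (X 12 1) N) N)))) N) (A (L (X (L (X (A (L (R D 3296) 4294967295) (X c (L (R D 7904) 4294967295))) (L (X (L (X 86 b) N) (A (L (X (L (X 1048576 (A (L (R D 32) 4294967295) (X c (L (R D 4640) 4294967295)))) N) (P f 2)) N) (L (X (L (X 86 b) N) (A (L (X (L (X 1024 (A (L (R D 64) 4294967295) (X c (L (R D 4672) 4294967295)))) N) f) N) (L (X (L (X 86 b) N) (A (L (R D 96) 4294967295) (X c (L (R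 D 4704) 4294967295)))) N))) N))) N)) N) (A 0 (S M (L (L (X 12 1) N) N)))) N) (A (L (X (L (X (A (L (R D 3328) 4294967295) (X c (L (R D 7936) 4294967295))) (L (X (L (X 86 b) N) (A (L (X (L (X 1048576 (A (L (R D 32) 4294967295) (X c (L (R D 4640) 4294967295)))) N) (P f 2)) N) (L (X (L (X 86 b) N) (A (L (X (L (X 1024 (A (L (R D 64) 4294967295) (X c (L (R D 4672) 4294967295)))) N) f) N) (L (X (L (X 86 b) N) (A (L (R D 96) 4294967295) (X c (L (R D 4704) 4294967295)))) N))) N))) N)) N) (L (X 144 1) N)) N) (A (L (X (L (X (A (L (R D 3424) 4294967295) (X c (L (R D 8032) 4294967295))) (L (X (L (X 86 b) N) (A (L (X (L (X 1048576 (A (L (R D 32) 4294967295) (X c (L (R D 4640) 4294967295)))) N) (P f 2)) N) (L (X (L (X 86 b) N) (A (L (X (L (X 1024 (A (L (R D 64) 4294967295) (X c (L (R D 4672) 4294967295)))) N) f) N) (L (X (L (X 86 b) N) (A (L (R D 96) 4294967295) (X c (L (R D 4704) 4294967295))))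 N))) N))) N)) N) (A 0 (S M (L (L (X 12 1) N) N)))) N) (A (L (X (L (X (A (L (R D 3456) 4294967295) (X c (L (R D 8064) 4294967295))) (L (X (L (X 86 b) N) (A (L (X (L (X 1048576 (A (L (R D 32) 4294967295) (X c (L (R D 4640) 4294967295)))) N) (P f 2)) N) (L (X (L (X 86 b) N) (A (L (X (L (X 1024 (A (L (R D 64) 4294967295) (X c (L (R D 4672) 4294967295)))) N) f) N) (L (X (L (X 86 b) N) (A (L (R D 96) 4294967295) (X c (L (R D 4704) 4294967295)))) N))) N))) N)) N) (A 0 (S M (L (L (X 12 1) N) N)))) N) (L (X (L (X (A (L (R D 3488) 4294967295) (X c (L (R D 8096) 4294967295))) (L (X (L (X 86 b) N) (A (L (X (L (X 1048576 (A (L (R D 32) 4294967295) (X c (L (R D 4640) 4294967295)))) N) (P f 2)) N) (L (X (L (X 86 b) N) (A (L (X (L (X 1024 (A (L (R D 64) 4294967295) (X c (L (R D 4672) 4294967295)))) N) f) N) (L (X (L (X 86 b) N) (A (L (R D 96) 4294967295) (X c (L (R D 4704) 4294967295)))) N)))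 N))) N)) N) (L (X 144 1) N)) N))))))) N) (P e 2)) N) g) N) N))), 132, 3, 4, 4, 1⟩,
  ⟨fun A S X L P R M N m a b c d e f g h D => (A (A (L (X (L (X (L (X 0 (P e 3)) N) (P f 5)) N) (P g 3)) N) (S M (L (L (X (L (X (L (X 86 b) N) (A (L (X (L (X 1048576 (A (L (R D 32) 4294967295) (X c (L (R D 4640) 4294967295)))) N) (P f 2)) N) (L (X (L (X 86 b) N) (A (L (X (L (X 1024 (A (L (R D 64) 4294967295) (X c (L (R D 4672) 4294967295)))) N) f) N) (L (X (L (X 86 b) N) (A (L (R D 96) 4294967295) (X c (L (R D 4704) 4294967295)))) N))) N))) N) (L (X (A (L (X 1 (A (L (R D 128) 4294967295) (X a (A (L (R D 160) 4294967295) (X a (L (R D 192) 4294967295)))))) N) (L (X c (A (L (R D 4736) 4294967295) (X a (A (L (R D 4768) 4294967295) (X a (L (R D 4800) 4294967295)))))) N)) (L (X 1 (A (L (X (L (X (A (L (X (L (X 1024 (A (A (L (R D 576) 4294967295) (X c (L (R D 5184) 4294967295))) (S M (L (X 2147483648 (A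 1 (X c 1))) N)))) N) e) N) (L (X (L (X 171 a) N) (A (A (L (R D 672) 4294967295) (X c (L (R D 5280) 4294967295))) (S M (L (X 2147483648 (A 1 (X c 1))) N)))) N)) (L (X 86 b) N)) N) f) N) (L (X (L (X (A (A (L (R D 640) 4294967295) (X c (L (R D 5248) 4294967295))) (S M (L (X 2147483648 (A 1 (X c 1))) N))) (L (X (L (X 86 b) N) (L (X 86 b) N)) N)) N) e) N))) N)) N)) N) N))) (S M (L (L (X (L (X (L (X 33554432 (A (L (X (L (X 1024 (L (X (L (X (A (L (R D 3360) 4294967295) (X c (L (R D 7968) 4294967295))) (L (X (L (X 86 b) N) (A (L (X (L (X 1048576 (A (L (R D 32) 4294967295) (X c (L (R D 4640) 4294967295)))) N) (P f 2)) N) (L (X (L (X 86 b) N) (A (L (X (L (X 1024 (A (L (R D 64) 4294967295) (X c (L (R D 4672) 4294967295)))) N) f) N) (L (X (L (X 86 b) N) (A (L (R D 96) 4294967295) (X c (L (R D 4704) 4294967295)))) N))) N))) N)) N) (A (L (X 0 f) N) (S M (L (L (X 12 (L (X 86 b) N)) N) N))))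 N)) N) f) N) (A (L (X (L (X (A (L (R D 3424) 4294967295) (X c (L (R D 8032) 4294967295))) (L (X (L (X 86 b) N) (A (L (X (L (X 1048576 (A (L (R D 32) 4294967295) (X c (L (R D 4640) 4294967295)))) N) (P f 2)) N) (L (X (L (X 86 b) N) (A (L (X (L (X 1024 (A (L (R D 64) 4294967295) (X c (L (R D 4672) 4294967295)))) N) f) N) (L (X (L (X 86 b) N) (A (L (R D 96) 4294967295) (X c (L (R D 4704) 4294967295)))) N))) N))) N)) N) (A (L (X (L (X 1024 (L (X 86 b) N)) N) f) N) (S M (L (L (X 12 (L (X (L (X 86 b) N) (L (X 86 b) N)) N)) N) N)))) N) (A (L (X (L (X (A (L (R D 3456) 4294967295) (X c (L (R D 8064) 4294967295))) (L (X (L (X 86 b) N) (A (L (X (L (X 1048576 (A (L (R D 32) 4294967295) (X c (L (R D 4640) 4294967295)))) N) (P f 2)) N) (L (X (L (X 86 b) N) (A (L (X (L (X 1024 (A (L (R D 64) 4294967295) (X c (L (R D 4672) 4294967295)))) N) f) N) (L (X (L (X 86 b) N) (A (L (R D 96) 4294967295)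 (X c (L (R D 4704) 4294967295)))) N))) N))) N)) N) (A (L (X 0 (P f 2)) N) (S M (L (L (X 12 (L (X (L (X 86 b) N) (L (X 86 b) N)) N)) N) N)))) N) (A (L (X (L (X (A (L (R D 3488) 4294967295) (X c (L (R D 8096) 4294967295))) (L (X (L (X 86 b) N) (A (L (X (L (X 1048576 (A (L (R D 32) 4294967295) (X c (L (R D 4640) 4294967295)))) N) (P f 2)) N) (L (X (L (X 86 b) N) (A (L (X (L (X 1024 (A (L (R D 64) 4294967295) (X c (L (R D 4672) 4294967295)))) N) f) N) (L (X (L (X 86 b) N) (A (L (R D 96) 4294967295) (X c (L (R D 4704) 4294967295)))) N))) N))) N)) N) (A (L (X 144 (L (X (L (X 86 b) N) (L (X 86 b) N)) N)) N) (S M (L (L (X (L (X 1024 (L (X 12 (L (X 86 b) N)) N)) N) f) N) N)))) N) (L (X (L (X 1048576 (L (X (L (X (A (L (R D 3520) 4294967295) (X c (L (R D 8128) 4294967295))) (L (X (L (X 86 b) N) (A (L (X (L (X 1048576 (A (L (R D 32) 4294967295) (X c (L (R D 4640) 4294967295)))) N) (P f 2))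 N) (L (X (L (X 86 b) N) (A (L (X (L (X 1024 (A (L (R D 64) 4294967295) (X c (L (R D 4672) 4294967295)))) N) f) N) (L (X (L (X 86 b) N) (A (L (R D 96) 4294967295) (X c (L (R D 4704) 4294967295)))) N))) N))) N)) N) (A 0 (S M (L (L (X 12 1) N) N)))) N)) N) (P f 2)) N)))))) N) (P e 3)) N) g) N) N))), 150, 4, 6, 4, 1⟩,
  ⟨fun A S X L P R M N m a b c d e f g h D => (A (L (X (L (X (L (X 17179869184 (L (X (L (X 86 b) N) (A (L (X 1024 (A (L (X (A (L (X (L (X 1024 (A (A (L (R D 1088) 4294967295) (X c (L (R D 5696) 4294967295))) (S M (L (X 2147483648 (A 1 (X c 1))) N)))) N) e) N) (L (X (A (A (L (R D 1120) 4294967295) (X c (L (R D 5728) 4294967295))) (S M (L (X 2147483648 (A 1 (X c 1))) N))) (L (X 171 a) N)) N)) f) N) (L (X (L (X (A (A (L (R D 1152) 4294967295) (X c (L (R D 5760) 4294967295))) (S M (L (X 2147483648 (A 1 (X c 1))) N))) (L (X 86 b) N)) N) e) N))) N) (L (X (A (A (L (R D 1184)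 4294967295) (X c (L (R D 5792) 4294967295))) (S M (L (X 2147483648 (A 1 (X c 1))) N))) (L (X (L (X 86 b) N) (L (X 171 a) N)) N)) N))) N)) N) f) N) g) N) (S M (L (L (X (L (X (L (X 86 b) N) (A (L (X (L (X 1048576 (A (L (R D 1344) 4294967295) (X c (L (R D 5952) 4294967295)))) N) (P f 2)) N) (L (X (L (X 86 b) N) (A (L (X (L (X 1024 (A (L (R D 1376) 4294967295) (X c (L (R D 5984) 4294967295)))) N) f) N) (L (X (L (X 86 b) N) (A (L (R D 1408) 4294967295) (X c (L (R D 6016) 4294967295)))) N))) N))) N) (A (L (X (A (L (R D 1216) 4294967295) (X c (L (R D 5824) 4294967295))) (L (X 1 (A (L (X 853 e) N) (L (X 171 1) N))) N)) N) (L (X (L (X 1024 (L (X (A (L (R D 1248) 4294967295) (X c (L (R D 5856) 4294967295))) 1) N)) N) e) N))) N) N))), 107, 2, 4, 3, 1⟩,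
  ⟨fun A S X L P R M N m a b c d e f g h D => (A (A (L (X 1024 (A (L (X 1 (A (L (R D 224) 4294967295) (X a (A (L (R D 256) 4294967295) (X a (L (R D 288) 4294967295)))))) N) (L (X c (A (L (R D 4832) 4294967295) (X a (A (L (R D 4864) 4294967295) (X a (L (R D 4896) 4294967295)))))) N))) N) (S M (L (L (X (L (X (A (A (L (R D 704) 4294967295) (X c (L (R D 5312) 4294967295))) (S M (L (X 2147483648 (A 1 (X c 1))) N))) (A (L (X 853 e) N) (L (X 171 1) N))) N) e) N) N))) (S M (L (L (X (A (L (X (A (L (R D 3552) 4294967295) (X c (L (R D 8160) 4294967295))) (L (X 2 (A (L (X 853 e) N) (L (X 171 1) N))) N)) N) (A (L (X (A (L (R D 3584) 4294967295) (X c (L (R D 8192) 4294967295))) (A (L (X 853 e) N) (L (X 171 1) N))) N) (L (X (A (L (R D 3680) 4294967295) (X c (L (R D 8288) 4294967295))) (L (X 2 (A (L (X 853 e) N) (L (X 171 1) N))) N)) N))) e) N) N))), 48, 3, 1, 2, 1⟩,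
  ⟨fun A S X L P R M N m a b c d e f g h D => (A (A (L (X 0 g) N) (S M (L (L (X (A (A (L (R D 736) 4294967295) (X c (L (R D 5344) 4294967295))) (S M (L (X 2147483648 (A 1 (X c 1))) N))) 1) N) N))) (S M (L (A (L (X (A (L (R D 3552) 4294967295) (X c (L (R D 8160) 4294967295))) (A 0 (S M (L (L (X 12 1) N) N)))) N) (A (L (X (A (L (R D 3616) 4294967295) (X c (L (R D 8224) 4294967295))) 1) N) (L (X (A (L (R D 3680) 4294967295) (X c (L (R D 8288) 4294967295))) (A 0 (S M (L (L (X 12 1) N) N)))) N))) N))), 38, 1, 1, 2, 1⟩,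
  ⟨fun A S X L P R M N m a b c d e f g h D => (A (A (L (X 0 g) N) (S M (L (L (X (A (A (L (R D 768) 4294967295) (X c (L (R D 5376) 4294967295))) (S M (L (X 2147483648 (A 1 (X c 1))) N))) 1) N) N))) (S M (L (A (L (X (A (L (R D 3584) 4294967295) (X c (L (R D 8192) 4294967295))) (A 0 (S M (L (L (X 12 1) N) N)))) N) (A (L (X (A (L (R D 3648) 4294967295) (X c (L (R D 8256) 4294967295))) (L (X 2 1) N)) N) (L (X (A (L (R D 3680) 4294967295) (X c (L (R D 8288) 4294967295))) (A 0 (S M (L (L (X 24 1) N) N)))) N))) N))), 39, 1, 1, 2, 1⟩,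
  ⟨fun A S X L P R M N m a b c d e f g h D => (A (A (L (X 0 g) N) (S M (L (L (X (A (A (L (R D 800) 4294967295) (X c (L (R D 5408) 4294967295))) (S M (L (X 2147483648 (A 1 (X c 1))) N))) 1) N) N))) (S M (L (A (L (X (A (L (R D 3616) 4294967295) (X c (L (R D 8224) 4294967295))) (A 0 (S M (L (L (X 12 1) N) N)))) N) (A (L (X (A (L (R D 3648) 4294967295) (X c (L (R D 8256) 4294967295))) (A 0 (S M (L (L (X 12 1) N) N)))) N) (L (X (A (L (R D 3680) 4294967295) (X c (L (R D 8288) 4294967295))) (L (X 144 1) N)) N))) N))), 41, 1, 1, 2, 1⟩,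
  ⟨fun A S X L P R M N m a b c d e f g h D => (A (A (L (X (L (X 1024 (L (X (A (A (L (R D 320) 4294967295) (X c (L (R D 4928) 4294967295))) (S M (L (X 2147483648 (A 1 (X c 1))) N))) (A (L (X 853 e) N) (L (X 171 1) N))) N)) N) e) N) (L (X (A (A (L (R D 352) 4294967295) (X c (L (R D 4960) 4294967295))) (S M (L (X 2147483648 (A 1 (X c 1))) N))) (L (X (L (X 171 a) N) (A (L (X 853 e) N) (L (X 171 1) N))) N)) N)) (S M (L (L (X (L (X 1024 (A (L (X (A (L (R D 3712) 4294967295) (X c (L (R D 8320) 4294967295))) (L (X 2 (A (L (X 853 e) N) (L (X 171 1) N))) N)) N) (A (L (X (A (L (R D 3744) 4294967295) (X c (L (R D 8352) 4294967295))) (A (L (X 853 e) N) (L (X 171 1) N))) N) (L (X (A (L (R D 3840) 4294967295) (X c (L (R D 8448) 4294967295))) (L (X 2 (A (L (X 853 e) N) (L (X 171 1) N))) N)) N)))) N) e) N) N))), 58, 3, 1, 2, 1⟩,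
  ⟨fun A S X L P R M N m a b c d e f g h D => (A (L (X (A (L (X (L (X 1024 (A (A (L (R D 384) 4294967295) (X c (L (R D 4992) 4294967295))) (S M (L (X 2147483648 (A 1 (X c 1))) N)))) N) e) N) (L (X (L (X 171 a) N) (A (A (L (R D 480) 4294967295) (X c (L (R D 5088) 4294967295))) (S M (L (X 2147483648 (A 1 (X c 1))) N)))) N)) 1) N) (S M (L (L (X (L (X 1024 (A (L (X (A (L (R D 3712) 4294967295) (X c (L (R D 8320) 4294967295))) (A 0 (S M (L (L (X 12 1) N) N)))) N) (A (L (X (A (L (R D 3776) 4294967295) (X c (L (R D 8384) 4294967295))) 1) N) (L (X (A (L (R D 3840) 4294967295) (X c (L (R D 8448) 4294967295))) (A 0 (S M (L (L (X 12 1) N) N)))) N)))) N) e) N) N))), 49, 2, 1, 2, 1⟩,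
  ⟨fun A S X L P R M N m a b c d e f g h D => (A (L (X (A (A (L (R D 416) 4294967295) (X c (L (R D 5024) 4294967295))) (S M (L (X 2147483648 (A 1 (X c 1))) N))) 1) N) (S M (L (A (L (X (A (L (R D 3744) 4294967295) (X c (L (R D 8352) 4294967295))) (A 0 (S M (L (L (X 12 1) N) N)))) N) (A (L (X (A (L (R D 3808) 4294967295) (X c (L (R D 8416) 4294967295))) (L (X 2 1) N)) N) (L (X (A (L (R D 3840) 4294967295) (X c (L (R D 8448) 4294967295))) (A 0 (S M (L (L (X 24 1) N) N)))) N))) N))), 39, 1, 1, 2, 1⟩,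
  ⟨fun A S X L P R M N m a b c d e f g h D => (A (L (X (A (A (L (R D 448) 4294967295) (X c (L (R D 5056) 4294967295))) (S M (L (X 2147483648 (A 1 (X c 1))) N))) 1) N) (S M (L (A (L (X (A (L (R D 3776) 4294967295) (X c (L (R D 8384) 4294967295))) (A 0 (S M (L (L (X 12 1) N) N)))) N) (A (L (X (A (L (R D 3808) 4294967295) (X c (L (R D 8416) 4294967295))) (A 0 (S M (L (L (X 12 1) N) N)))) N) (L (X (A (L (R D 3840) 4294967295) (X c (L (R D 8448) 4294967295))) (L (X 144 1) N)) N))) N))), 41, 1, 1, 2, 1⟩,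
  ⟨fun A S X L P R M N m a b c d e f g h D => (A (A (L (X (L (X 1024 (L (X (A (A (L (R D 512) 4294967295) (X c (L (R D 5120) 4294967295))) (S M (L (X 2147483648 (A 1 (X c 1))) N))) (A (L (X 853 e) N) (L (X 171 1) N))) N)) N) e) N) (L (X (A (A (L (R D 544) 4294967295) (X c (L (R D 5152) 4294967295))) (S M (L (X 2147483648 (A 1 (X c 1))) N))) (L (X (L (X 171 a) N) (A (L (X 853 e) N) (L (X 171 1) N))) N)) N)) (S M (L (L (X (L (X 1024 (A (L (X (A (L (R D 3872) 4294967295) (X c (L (R D 8480) 4294967295))) (L (X 2 (A (L (X 853 e) N) (L (X 171 1) N))) N)) N) (A (L (X (A (L (R D 3904) 4294967295) (X c (L (R D 8512) 4294967295))) (A (L (X 853 e) N) (L (X 171 1) N))) N) (L (X (A (L (R D 4000) 4294967295) (X c (L (R D 8608) 4294967295))) (L (X 2 (A (L (X 853 e) N) (L (X 171 1) N))) N)) N)))) N) e) N) N))), 58, 3, 1, 2, 1⟩,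
  ⟨fun A S X L P R M N m a b c d e f g h D => (A (L (X (A (L (X (L (X 1024 (A (A (L (R D 576) 4294967295) (X c (L (R D 5184) 4294967295))) (S M (L (X 2147483648 (A 1 (X c 1))) N)))) N) e) N) (L (X (L (X 171 a) N) (A (A (L (R D 672) 4294967295) (X c (L (R D 5280) 4294967295))) (S M (L (X 2147483648 (A 1 (X c 1))) N)))) N)) 1) N) (S M (L (L (X (L (X 1024 (A (L (X (A (L (R D 3872) 4294967295) (X c (L (R D 8480) 4294967295))) (A 0 (S M (L (L (X 12 1) N) N)))) N) (A (L (X (A (L (R D 3936) 4294967295) (X c (L (R D 8544) 4294967295))) 1) N) (L (X (A (L (R D 4000) 4294967295) (X c (L (R D 8608) 4294967295))) (A 0 (S M (L (L (X 12 1) N) N)))) N)))) N) e) N) N))), 49, 2, 1, 2, 1⟩,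
  ⟨fun A S X L P R M N m a b c d e f g h D => (A (L (X (A (A (L (R D 608) 4294967295) (X c (L (R D 5216) 4294967295))) (S M (L (X 2147483648 (A 1 (X c 1))) N))) 1) N) (S M (L (A (L (X (A (L (R D 3904) 4294967295) (X c (L (R D 8512) 4294967295))) (A 0 (S M (L (L (X 12 1) N) N)))) N) (A (L (X (A (L (R D 3968) 4294967295) (X c (L (R D 8576) 4294967295))) (L (X 2 1) N)) N) (L (X (A (L (R D 4000) 4294967295) (X c (L (R D 8608) 4294967295))) (A 0 (S M (L (L (X 24 1) N) N)))) N))) N))), 39, 1, 1, 2, 1⟩,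
  ⟨fun A S X L P R M N m a b c d e f g h D => (A (L (X (A (A (L (R D 640) 4294967295) (X c (L (R D 5248) 4294967295))) (S M (L (X 2147483648 (A 1 (X c 1))) N))) 1) N) (S M (L (A (L (X (A (L (R D 3936) 4294967295) (X c (L (R D 8544) 4294967295))) (A 0 (S M (L (L (X 12 1) N) N)))) N) (A (L (X (A (L (R D 3968) 4294967295) (X c (L (R D 8576) 4294967295))) (A 0 (S M (L (L (X 12 1) N) N)))) N) (L (X (A (L (R D 4000) 4294967295) (X c (L (R D 8608) 4294967295))) (L (X 144 1) N)) N))) N))), 41, 1, 1, 2, 1⟩,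
  ⟨fun A S X L P R M N m a b c d e f g h D => (A (A (L (X (L (X (L (X 288230376151711744 (A (L (X (A (L (R D 1216) 4294967295) (X c (L (R D 5824) 4294967295))) (L (X 1 (A (L (X 853 e) N) (L (X 171 1) N))) N)) N) (L (X (L (X 1024 (L (X (A (L (R D 1248) 4294967295) (X c (L (R D 5856) 4294967295))) 1) N)) N) e) N))) N) (P e 5)) N) (P g 2)) N) (S M (L (L (X (A (L (X 1 (A (L (R D 128) 4294967295) (X a (A (L (R D 160) 4294967295) (X a (L (R D 192) 4294967295)))))) N) (L (X c (A (L (R D 4736) 4294967295) (X a (A (L (R D 4768) 4294967295) (X a (L (R D 4800) 4294967295)))))) N)) (A (L (X (A (L (X 1 (A (L (R D 224) 4294967295) (X a (A (L (R D 256) 4294967295) (X a (L (R D 288) 4294967295)))))) N) (L (X c (A (L (R D 4832) 4294967295) (X a (A (L (R D 4864) 4294967295) (X a (L (R D 4896) 4294967295)))))) N)) (A (L (X (L (X 1024 (L (X (A (A (L (R D 320) 4294967295) (X c (L (R D 4928) 4294967295)))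 (S M (L (X 2147483648 (A 1 (X c 1))) N))) (A (L (X 853 e) N) (L (X 171 1) N))) N)) N) e) N) (L (X (A (A (L (R D 352) 4294967295) (X c (L (R D 4960) 4294967295))) (S M (L (X 2147483648 (A 1 (X c 1))) N))) (L (X (L (X 171 a) N) (A (L (X 853 e) N) (L (X 171 1) N))) N)) N))) N) (L (X (L (X (L (X 17179869184 (L (X (A (A (L (R D 832) 4294967295) (X c (L (R D 5440) 4294967295))) (S M (L (X 2147483648 (A 1 (X c 1))) N))) (A (L (X 853 e) N) (L (X 171 1) N))) N)) N) (P e 3)) N) g) N))) N) N))) (S M (L (L (X (L (X (L (X 288230376151711744 (A (L (X (A (L (R D 4032) 4294967295) (X c (L (R D 8640) 4294967295))) (L (X 2 (A (L (X 853 e) N) (L (X 171 1) N))) N)) N) (A (L (X (A (L (R D 4064) 4294967295) (X c (L (R D 8672) 4294967295))) (A (L (X 853 e) N) (L (X 171 1) N))) N) (L (X (A (L (R D 4160) 4294967295) (X c (L (R D 8768) 4294967295))) (L (X 2 (A (L (X 853 e) N) (L (X 171 1) N))) N)) N))))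 N) (P e 5)) N) (P g 2)) N) N))), 125, 7, 1, 4, 1⟩,
  ⟨fun A S X L P R M N m a b c d e f g h D => (A (A (L (X (L (X 0 (P e 5)) N) (P g 3)) N) (S M (L (L (X (A (L (X 1 (A (L (R D 128) 4294967295) (X a (A (L (R D 160) 4294967295) (X a (L (R D 192) 4294967295)))))) N) (L (X c (A (L (R D 4736) 4294967295) (X a (A (L (R D 4768) 4294967295) (X a (L (R D 4800) 4294967295)))))) N)) (A (L (X (A (L (X 1 (A (L (R D 224) 4294967295) (X a (A (L (R D 256) 4294967295) (X a (L (R D 288) 4294967295)))))) N) (L (X c (A (L (R D 4832) 4294967295) (X a (A (L (R D 4864) 4294967295) (X a (L (R D 4896) 4294967295)))))) N)) (L (X (A (L (X (L (X 1024 (A (A (L (R D 384) 4294967295) (X c (L (R D 4992) 4294967295))) (S M (L (X 2147483648 (A 1 (X c 1))) N)))) N) e) N) (L (X (L (X 171 a) N) (A (A (L (R D 480) 4294967295) (X c (L (R D 5088) 4294967295))) (S M (L (X 2147483648 (A 1 (X c 1))) N)))) N)) 1) N)) N)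 (L (X (L (X (L (X 17179869184 (L (X (A (A (L (R D 864) 4294967295) (X c (L (R D 5472) 4294967295))) (S M (L (X 2147483648 (A 1 (X c 1))) N))) 1) N)) N) (P e 3)) N) g) N))) N) N))) (S M (L (L (X (L (X (L (X 288230376151711744 (A (L (X (A (L (R D 4032) 4294967295) (X c (L (R D 8640) 4294967295))) (A 0 (S M (L (L (X 12 1) N) N)))) N) (A (L (X (A (L (R D 4096) 4294967295) (X c (L (R D 8704) 4294967295))) 1) N) (L (X (A (L (R D 4160) 4294967295) (X c (L (R D 8768) 4294967295))) (A 0 (S M (L (L (X 12 1) N) N)))) N)))) N) (P e 5)) N) (P g 2)) N) N))), 114, 6, 1, 4, 1⟩,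
  ⟨fun A S X L P R M N m a b c d e f g h D => (A (A (L (X (L (X 0 (P e 4)) N) (P g 3)) N) (S M (L (L (X (A (L (X 1 (A (L (R D 128) 4294967295) (X a (A (L (R D 160) 4294967295) (X a (L (R D 192) 4294967295)))))) N) (L (X c (A (L (R D 4736) 4294967295) (X a (A (L (R D 4768) 4294967295) (X a (L (R D 4800) 4294967295)))))) N)) (A (L (X (A (L (X 1 (A (L (R D 224) 4294967295) (X a (A (L (R D 256) 4294967295) (X a (L (R D 288) 4294967295)))))) N) (L (X c (A (L (R D 4832) 4294967295) (X a (A (L (R D 4864) 4294967295) (X a (L (R D 4896) 4294967295)))))) N)) (L (X (A (A (L (R D 416) 4294967295) (X c (L (R D 5024) 4294967295))) (S M (L (X 2147483648 (A 1 (X c 1))) N))) 1) N)) N) (L (X (L (X (L (X 16777216 (L (X (A (A (L (R D 896) 4294967295) (X c (L (R D 5504) 4294967295))) (S M (L (X 2147483648 (A 1 (X c 1))) N))) 1) N)) N) (P e 2)) N) g) N))) N) N))) (S M (L (L (X (L (X (L (X 281474976710656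 (A (L (X (A (L (R D 4064) 4294967295) (X c (L (R D 8672) 4294967295))) (A 0 (S M (L (L (X 12 1) N) N)))) N) (A (L (X (A (L (R D 4128) 4294967295) (X c (L (R D 8736) 4294967295))) (L (X 2 1) N)) N) (L (X (A (L (R D 4160) 4294967295) (X c (L (R D 8768) 4294967295))) (A 0 (S M (L (L (X 24 1) N) N)))) N)))) N) (P e 4)) N) (P g 2)) N) N))), 103, 5, 1, 4, 1⟩,
  ⟨fun A S X L P R M N m a b c d e f g h D => (A (A (L (X (L (X 0 (P e 4)) N) (P g 3)) N) (S M (L (L (X (A (L (X 1 (A (L (R D 128) 4294967295) (X a (A (L (R D 160) 4294967295) (X a (L (R D 192) 4294967295)))))) N) (L (X c (A (L (R D 4736) 4294967295) (X a (A (L (R D 4768) 4294967295) (X a (L (R D 4800) 4294967295)))))) N)) (A (L (X (A (L (X 1 (A (L (R D 224) 4294967295) (X a (A (L (R D 256) 4294967295) (X a (L (R D 288) 4294967295)))))) N) (L (X c (A (L (R D 4832) 4294967295) (X a (A (L (R D 4864) 4294967295) (X a (L (R D 4896)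 4294967295)))))) N)) (L (X (A (A (L (R D 448) 4294967295) (X c (L (R D 5056) 4294967295))) (S M (L (X 2147483648 (A 1 (X c 1))) N))) 1) N)) N) (L (X (L (X (L (X 16777216 (L (X (A (A (L (R D 928) 4294967295) (X c (L (R D 5536) 4294967295))) (S M (L (X 2147483648 (A 1 (X c 1))) N))) 1) N)) N) (P e 2)) N) g) N))) N) N))) (S M (L (L (X (L (X (L (X 281474976710656 (A (L (X (A (L (R D 4096) 4294967295) (X c (L (R D 8704) 4294967295))) (A 0 (S M (L (L (X 12 1) N) N)))) N) (A (L (X (A (L (R D 4128) 4294967295) (X c (L (R D 8736) 4294967295))) (A 0 (S M (L (L (X 12 1) N) N)))) N) (L (X (A (L (R D 4160) 4294967295) (X c (L (R D 8768) 4294967295))) (L (X 144 1) N)) N)))) N) (P e 4)) N) (P g 2)) N) N))), 103, 5, 1, 4, 1⟩,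
  ⟨fun A S X L P R M N m a b c d e f g h D => (A (A (L (X (L (X (L (X 288230376151711744 (A (L (X (A (L (R D 1280) 4294967295) (X c (L (R D 5888) 4294967295))) (L (X 1 (A (L (X 853 e) N) (L (X 171 1) N))) N)) N) (L (X (L (X 1024 (L (X (A (L (R D 1312) 4294967295) (X c (L (R D 5920) 4294967295))) 1) N)) N) e) N))) N) (P e 5)) N) (P g 2)) N) (S M (L (L (X (A (L (X 1 (A (L (R D 128) 4294967295) (X a (A (L (R D 160) 4294967295) (X a (L (R D 192) 4294967295)))))) N) (L (X c (A (L (R D 4736) 4294967295) (X a (A (L (R D 4768) 4294967295) (X a (L (R D 4800) 4294967295)))))) N)) (A (L (X (A (L (X 1 (A (L (R D 224) 4294967295) (X a (A (L (R D 256) 4294967295) (X a (L (R D 288) 4294967295)))))) N) (L (X c (A (L (R D 4832) 4294967295) (X a (A (L (R D 4864) 4294967295) (X a (L (R D 4896) 4294967295)))))) N)) (A (L (X (L (X 1024 (L (X (A (A (L (R D 512) 4294967295) (X c (L (R D 5120) 4294967295)))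 (S M (L (X 2147483648 (A 1 (X c 1))) N))) (A (L (X 853 e) N) (L (X 171 1) N))) N)) N) e) N) (L (X (A (A (L (R D 544) 4294967295) (X c (L (R D 5152) 4294967295))) (S M (L (X 2147483648 (A 1 (X c 1))) N))) (L (X (L (X 171 a) N) (A (L (X 853 e) N) (L (X 171 1) N))) N)) N))) N) (L (X (L (X (L (X 17179869184 (L (X (A (A (L (R D 960) 4294967295) (X c (L (R D 5568) 4294967295))) (S M (L (X 2147483648 (A 1 (X c 1))) N))) (A (L (X 853 e) N) (L (X 171 1) N))) N)) N) (P e 3)) N) g) N))) N) N))) (S M (L (L (X (L (X (L (X 288230376151711744 (A (L (X (A (L (R D 4192) 4294967295) (X c (L (R D 8800) 4294967295))) (L (X 2 (A (L (X 853 e) N) (L (X 171 1) N))) N)) N) (A (L (X (A (L (R D 4224) 4294967295) (X c (L (R D 8832) 4294967295))) (A (L (X 853 e) N) (L (X 171 1) N))) N) (L (X (A (L (R D 4320) 4294967295) (X c (L (R D 8928) 4294967295))) (L (X 2 (A (L (X 853 e) N) (L (X 171 1) N))) N)) N))))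 N) (P e 5)) N) (P g 2)) N) N))), 125, 7, 1, 4, 1⟩,
  ⟨fun A S X L P R M N m a b c d e f g h D => (A (A (L (X (L (X 0 (P e 5)) N) (P g 3)) N) (S M (L (L (X (A (L (X 1 (A (L (R D 128) 4294967295) (X a (A (L (R D 160) 4294967295) (X a (L (R D 192) 4294967295)))))) N) (L (X c (A (L (R D 4736) 4294967295) (X a (A (L (R D 4768) 4294967295) (X a (L (R D 4800) 4294967295)))))) N)) (A (L (X (A (L (X 1 (A (L (R D 224) 4294967295) (X a (A (L (R D 256) 4294967295) (X a (L (R D 288) 4294967295)))))) N) (L (X c (A (L (R D 4832) 4294967295) (X a (A (L (R D 4864) 4294967295) (X a (L (R D 4896) 4294967295)))))) N)) (L (X (A (L (X (L (X 1024 (A (A (L (R D 576) 4294967295) (X c (L (R D 5184) 4294967295))) (S M (L (X 2147483648 (A 1 (X c 1))) N)))) N) e) N) (L (X (L (X 171 a) N) (A (A (L (R D 672) 4294967295) (X c (L (R D 5280) 4294967295))) (S M (L (X 2147483648 (A 1 (X c 1))) N)))) N)) 1) N)) N)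 (L (X (L (X (L (X 17179869184 (L (X (A (A (L (R D 992) 4294967295) (X c (L (R D 5600) 4294967295))) (S M (L (X 2147483648 (A 1 (X c 1))) N))) 1) N)) N) (P e 3)) N) g) N))) N) N))) (S M (L (L (X (L (X (L (X 288230376151711744 (A (L (X (A (L (R D 4192) 4294967295) (X c (L (R D 8800) 4294967295))) (A 0 (S M (L (L (X 12 1) N) N)))) N) (A (L (X (A (L (R D 4256) 4294967295) (X c (L (R D 8864) 4294967295))) 1) N) (L (X (A (L (R D 4320) 4294967295) (X c (L (R D 8928) 4294967295))) (A 0 (S M (L (L (X 12 1) N) N)))) N)))) N) (P e 5)) N) (P g 2)) N) N))), 114, 6, 1, 4, 1⟩,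
  ⟨fun A S X L P R M N m a b c d e f g h D => (A (A (L (X (L (X 0 (P e 4)) N) (P g 3)) N) (S M (L (L (X (A (L (X 1 (A (L (R D 128) 4294967295) (X a (A (L (R D 160) 4294967295) (X a (L (R D 192) 4294967295)))))) N) (L (X c (A (L (R D 4736) 4294967295) (X a (A (L (R D 4768) 4294967295) (X a (L (R D 4800) 4294967295)))))) N)) (A (L (X (A (L (X 1 (A (L (R D 224) 4294967295) (X a (A (L (R D 256) 4294967295) (X a (L (R D 288) 4294967295)))))) N) (L (X c (A (L (R D 4832) 4294967295) (X a (A (L (R D 4864) 4294967295) (X a (L (R D 4896) 4294967295)))))) N)) (L (X (A (A (L (R D 608) 4294967295) (X c (L (R D 5216) 4294967295))) (S M (L (X 2147483648 (A 1 (X c 1))) N))) 1) N)) N) (L (X (L (X (L (X 16777216 (L (X (A (A (L (R D 1024) 4294967295) (X c (L (R D 5632) 4294967295))) (S M (L (X 2147483648 (A 1 (X c 1))) N))) 1) N)) N) (P e 2)) N) g) N))) N) N))) (S M (L (L (X (L (X (L (X 281474976710656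 (A (L (X (A (L (R D 4224) 4294967295) (X c (L (R D 8832) 4294967295))) (A 0 (S M (L (L (X 12 1) N) N)))) N) (A (L (X (A (L (R D 4288) 4294967295) (X c (L (R D 8896) 4294967295))) (L (X 2 1) N)) N) (L (X (A (L (R D 4320) 4294967295) (X c (L (R D 8928) 4294967295))) (A 0 (S M (L (L (X 24 1) N) N)))) N)))) N) (P e 4)) N) (P g 2)) N) N))), 103, 5, 1, 4, 1⟩,
  ⟨fun A S X L P R M N m a b c d e f g h D => (A (A (L (X (L (X 0 (P e 4)) N) (P g 3)) N) (S M (L (L (X (A (L (X 1 (A (L (R D 128) 4294967295) (X a (A (L (R D 160) 4294967295) (X a (L (R D 192) 4294967295)))))) N) (L (X c (A (L (R D 4736) 4294967295) (X a (A (L (R D 4768) 4294967295) (X a (L (R D 4800) 4294967295)))))) N)) (A (L (X (A (L (X 1 (A (L (R D 224) 4294967295) (X a (A (L (R D 256) 4294967295) (X a (L (R D 288) 4294967295)))))) N) (L (X c (A (L (R D 4832) 4294967295) (X a (A (L (R D 4864) 4294967295) (X a (L (R D 4896)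 4294967295)))))) N)) (L (X (A (A (L (R D 640) 4294967295) (X c (L (R D 5248) 4294967295))) (S M (L (X 2147483648 (A 1 (X c 1))) N))) 1) N)) N) (L (X (L (X (L (X 16777216 (L (X (A (A (L (R D 1056) 4294967295) (X c (L (R D 5664) 4294967295))) (S M (L (X 2147483648 (A 1 (X c 1))) N))) 1) N)) N) (P e 2)) N) g) N))) N) N))) (S M (L (L (X (L (X (L (X 281474976710656 (A (L (X (A (L (R D 4256) 4294967295) (X c (L (R D 8864) 4294967295))) (A 0 (S M (L (L (X 12 1) N) N)))) N) (A (L (X (A (L (R D 4288) 4294967295) (X c (L (R D 8896) 4294967295))) (A 0 (S M (L (L (X 12 1) N) N)))) N) (L (X (A (L (R D 4320) 4294967295) (X c (L (R D 8928) 4294967295))) (L (X 144 1) N)) N)))) N) (P e 4)) N) (P g 2)) N) N))), 103, 5, 1, 4, 1⟩,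
  ⟨fun A S X L P R M N m a b c d e f g h D => (A (L (X (L (X 281474976710656 (A (L (X (L (X 1024 (L (X (A (A (L (R D 2272) 4294967295) (X c (L (R D 6880) 4294967295))) (S M (L (X 2147483648 (A 1 (X c 1))) N))) (A (L (X 853 e) N) (L (X 171 1) N))) N)) N) e) N) (L (X (A (A (L (R D 2368) 4294967295) (X c (L (R D 6976) 4294967295))) (S M (L (X 2147483648 (A 1 (X c 1))) N))) (L (X (L (X 171 a) N) (A (L (X 853 e) N) (L (X 171 1) N))) N)) N))) N) (P g 2)) N) (S M (L (A (L (X (L (X (L (X 288230376151711744 (L (X (A (A (L (R D 1088) 4294967295) (X c (L (R D 5696) 4294967295))) (S M (L (X 2147483648 (A 1 (X c 1))) N))) (A (L (X 853 e) N) (L (X 171 1) N))) N)) N) e) N) (P g 2)) N) (A (A (L (X (A (L (R D 1216) 4294967295) (X c (L (R D 5824) 4294967295))) (L (X (A (L (R D 1472) 4294967295) (X c (L (R D 6080) 4294967295))) (A (L (X (L (X 1024 (L (X (A (A (L (R D 1504) 4294967295) (X c (L (R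 D 6112) 4294967295))) (S M (L (X 2147483648 (A 1 (X c 1))) N))) (A (L (X 853 e) N) (L (X 171 1) N))) N)) N) e) N) (L (X (A (A (L (R D 1536) 4294967295) (X c (L (R D 6144) 4294967295))) (S M (L (X 2147483648 (A 1 (X c 1))) N))) (L (X (L (X 171 a) N) (A (L (X 853 e) N) (L (X 171 1) N))) N)) N))) N)) N) (L (X (L (X 16777216 (L (X (A (L (R D 1280) 4294967295) (X c (L (R D 5888) 4294967295))) (A (L (X (L (X 1024 (L (X (A (A (L (R D 1888) 4294967295) (X c (L (R D 6496) 4294967295))) (S M (L (X 2147483648 (A 1 (X c 1))) N))) (A (L (X 853 e) N) (L (X 171 1) N))) N)) N) e) N) (L (X (A (A (L (R D 1920) 4294967295) (X c (L (R D 6528) 4294967295))) (S M (L (X 2147483648 (A 1 (X c 1))) N))) (L (X (L (X 171 a) N) (A (L (X 853 e) N) (L (X 171 1) N))) N)) N))) N)) N) g) N)) (A (L (X (A (L (R D 1248) 4294967295) (X c (L (R D 5856) 4294967295))) (L (X (A (L (R D 1472) 4294967295) (X c (L (R D 6080)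 4294967295))) (A (L (X (L (X 1024 (L (X (A (A (L (R D 1696) 4294967295) (X c (L (R D 6304) 4294967295))) (S M (L (X 2147483648 (A 1 (X c 1))) N))) (A (L (X 853 e) N) (L (X 171 1) N))) N)) N) e) N) (L (X (A (A (L (R D 1728) 4294967295) (X c (L (R D 6336) 4294967295))) (S M (L (X 2147483648 (A 1 (X c 1))) N))) (L (X (L (X 171 a) N) (A (L (X 853 e) N) (L (X 171 1) N))) N)) N))) N)) N) (L (X (L (X 16777216 (L (X (A (L (R D 1312) 4294967295) (X c (L (R D 5920) 4294967295))) (A (L (X (L (X 1024 (L (X (A (A (L (R D 2080) 4294967295) (X c (L (R D 6688) 4294967295))) (S M (L (X 2147483648 (A 1 (X c 1))) N))) (A (L (X 853 e) N) (L (X 171 1) N))) N)) N) e) N) (L (X (A (A (L (R D 2112) 4294967295) (X c (L (R D 6720) 4294967295))) (S M (L (X 2147483648 (A 1 (X c 1))) N))) (L (X (L (X 171 a) N) (A (L (X 853 e) N) (L (X 171 1) N))) N)) N))) N)) N) g) N)))) N))), 122, 3, 1, 4, 1⟩,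
  ⟨fun A S X L P R M N m a b c d e f g h D => (A (L (X (L (X 281474976710656 (L (X (A (L (X (L (X 1024 (A (A (L (R D 2464) 4294967295) (X c (L (R D 7072) 4294967295))) (S M (L (X 2147483648 (A 1 (X c 1))) N)))) N) e) N) (L (X (L (X 171 a) N) (A (A (L (R D 2752) 4294967295) (X c (L (R D 7360) 4294967295))) (S M (L (X 2147483648 (A 1 (X c 1))) N)))) N)) 1) N)) N) (P g 2)) N) (S M (L (A (L (X (L (X (L (X 288230376151711744 (L (X (A (A (L (R D 1120) 4294967295) (X c (L (R D 5728) 4294967295))) (S M (L (X 2147483648 (A 1 (X c 1))) N))) 1) N)) N) e) N) (P g 2)) N) (A (A (L (X (A (L (R D 1216) 4294967295) (X c (L (R D 5824) 4294967295))) (L (X (A (L (R D 1472) 4294967295) (X c (L (R D 6080) 4294967295))) (L (X (A (L (X (L (X 1024 (A (A (L (R D 1568) 4294967295) (X c (L (R D 6176) 4294967295))) (S M (L (X 2147483648 (A 1 (X c 1))) N)))) N) e) N) (L (X (L (X 171 a) N) (A (A (L (R D 1664)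 4294967295) (X c (L (R D 6272) 4294967295))) (S M (L (X 2147483648 (A 1 (X c 1))) N)))) N)) 1) N)) N)) N) (L (X (L (X 16777216 (L (X (A (L (R D 1280) 4294967295) (X c (L (R D 5888) 4294967295))) (L (X (A (L (X (L (X 1024 (A (A (L (R D 1952) 4294967295) (X c (L (R D 6560) 4294967295))) (S M (L (X 2147483648 (A 1 (X c 1))) N)))) N) e) N) (L (X (L (X 171 a) N) (A (A (L (R D 2048) 4294967295) (X c (L (R D 6656) 4294967295))) (S M (L (X 2147483648 (A 1 (X c 1))) N)))) N)) 1) N)) N)) N) g) N)) (A (L (X (A (L (R D 1248) 4294967295) (X c (L (R D 5856) 4294967295))) (L (X (A (L (R D 1472) 4294967295) (X c (L (R D 6080) 4294967295))) (L (X (A (L (X (L (X 1024 (A (A (L (R D 1760) 4294967295) (X c (L (R D 6368) 4294967295))) (S M (L (X 2147483648 (A 1 (X c 1))) N)))) N) e) N) (L (X (L (X 171 a) N) (A (A (L (R D 1856) 4294967295) (X c (L (R D 6464) 4294967295))) (S M (L (X 2147483648 (A 1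 (X c 1))) N)))) N)) 1) N)) N)) N) (L (X (L (X 16777216 (L (X (A (L (R D 1312) 4294967295) (X c (L (R D 5920) 4294967295))) (L (X (A (L (X (L (X 1024 (A (A (L (R D 2144) 4294967295) (X c (L (R D 6752) 4294967295))) (S M (L (X 2147483648 (A 1 (X c 1))) N)))) N) e) N) (L (X (L (X 171 a) N) (A (A (L (R D 2240) 4294967295) (X c (L (R D 6848) 4294967295))) (S M (L (X 2147483648 (A 1 (X c 1))) N)))) N)) 1) N)) N)) N) g) N)))) N))), 112, 2, 1, 4, 1⟩,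
  ⟨fun A S X L P R M N m a b c d e f g h D => (A (L (X (L (X 281474976710656 (L (X (A (A (L (R D 2560) 4294967295) (X c (L (R D 7168) 4294967295))) (S M (L (X 2147483648 (A 1 (X c 1))) N))) 1) N)) N) (P g 2)) N) (S M (L (A (L (X (L (X 281474976710656 (L (X (A (A (L (R D 1152) 4294967295) (X c (L (R D 5760) 4294967295))) (S M (L (X 2147483648 (A 1 (X c 1))) N))) 1) N)) N) (P g 2)) N) (A (A (L (X (A (L (R D 1216) 4294967295) (X c (L (R D 5824) 4294967295))) (L (X (A (L (R D 1472) 4294967295) (X c (L (R D 6080) 4294967295))) (L (X (A (A (L (R D 1600) 4294967295) (X c (L (R D 6208) 4294967295))) (S M (L (X 2147483648 (A 1 (X c 1))) N))) 1) N)) N)) N) (L (X (L (X 16777216 (L (X (A (L (R D 1280) 4294967295) (X c (L (R D 5888) 4294967295))) (L (X (A (A (L (R D 1984) 4294967295) (X c (L (R D 6592) 4294967295))) (S M (L (X 2147483648 (A 1 (X c 1))) N))) 1) N)) N)) N) g) N)) (A (L (X (A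 (L (R D 1248) 4294967295) (X c (L (R D 5856) 4294967295))) (L (X (A (L (R D 1472) 4294967295) (X c (L (R D 6080) 4294967295))) (L (X (A (A (L (R D 1792) 4294967295) (X c (L (R D 6400) 4294967295))) (S M (L (X 2147483648 (A 1 (X c 1))) N))) 1) N)) N)) N) (L (X (L (X 16777216 (L (X (A (L (R D 1312) 4294967295) (X c (L (R D 5920) 4294967295))) (L (X (A (A (L (R D 2176) 4294967295) (X c (L (R D 6784) 4294967295))) (S M (L (X 2147483648 (A 1 (X c 1))) N))) 1) N)) N)) N) g) N)))) N))), 101, 1, 1, 4, 1⟩,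
  ⟨fun A S X L P R M N m a b c d e f g h D => (A (L (X (L (X 281474976710656 (L (X (A (A (L (R D 2656) 4294967295) (X c (L (R D 7264) 4294967295))) (S M (L (X 2147483648 (A 1 (X c 1))) N))) 1) N)) N) (P g 2)) N) (S M (L (A (L (X (L (X 281474976710656 (L (X (A (A (L (R D 1184) 4294967295) (X c (L (R D 5792) 4294967295))) (S M (L (X 2147483648 (A 1 (X c 1))) N))) 1) N)) N) (P g 2)) N) (A (A (L (X (A (L (R D 1216) 4294967295) (X c (L (R D 5824) 4294967295))) (L (X (A (L (R D 1472) 4294967295) (X c (L (R D 6080) 4294967295))) (L (X (A (A (L (R D 1632) 4294967295) (X c (L (R D 6240) 4294967295))) (S M (L (X 2147483648 (A 1 (X c 1))) N))) 1) N)) N)) N) (L (X (L (X 16777216 (L (X (A (L (R D 1280) 4294967295) (X c (L (R D 5888) 4294967295))) (L (X (A (A (L (R D 2016) 4294967295) (X c (L (R D 6624) 4294967295))) (S M (L (X 2147483648 (A 1 (X c 1))) N))) 1) N)) N)) N) g) N)) (A (L (X (A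 (L (R D 1248) 4294967295) (X c (L (R D 5856) 4294967295))) (L (X (A (L (R D 1472) 4294967295) (X c (L (R D 6080) 4294967295))) (L (X (A (A (L (R D 1824) 4294967295) (X c (L (R D 6432) 4294967295))) (S M (L (X 2147483648 (A 1 (X c 1))) N))) 1) N)) N)) N) (L (X (L (X 16777216 (L (X (A (L (R D 1312) 4294967295) (X c (L (R D 5920) 4294967295))) (L (X (A (A (L (R D 2208) 4294967295) (X c (L (R D 6816) 4294967295))) (S M (L (X 2147483648 (A 1 (X c 1))) N))) 1) N)) N)) N) g) N)))) N))), 101, 1, 1, 4, 1⟩,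
  ⟨fun A S X L P R M N m a b c d e f g h D => (A (A (L (X (L (X 1024 (L (X (A (A (L (R D 2272) 4294967295) (X c (L (R D 6880) 4294967295))) (S M (L (X 2147483648 (A 1 (X c 1))) N))) (A (L (X 853 e) N) (L (X 171 1) N))) N)) N) e) N) (L (X (A (A (L (R D 2368) 4294967295) (X c (L (R D 6976) 4294967295))) (S M (L (X 2147483648 (A 1 (X c 1))) N))) (L (X (L (X 171 a) N) (A (L (X 853 e) N) (L (X 171 1) N))) N)) N)) (S M (L (L (X (L (X 1024 (A (L (X (A (L (R D 4352) 4294967295) (X c (L (R D 8960) 4294967295))) (L (X 2 (A (L (X 853 e) N) (L (X 171 1) N))) N)) N) (A (L (X (A (L (R D 4384) 4294967295) (X c (L (R D 8992) 4294967295))) (A (L (X 853 e) N) (L (X 171 1) N))) N) (L (X (A (L (R D 4480) 4294967295) (X c (L (R D 9088) 4294967295))) (L (X 2 (A (L (X 853 e) N) (L (X 171 1) N))) N)) N)))) N) e) N) N))), 58, 3, 1, 2, 1⟩,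
  ⟨fun A S X L P R M N m a b c d e f g h D => (A (L (X (A (L (X (L (X 1024 (A (A (L (R D 2464) 4294967295) (X c (L (R D 7072) 4294967295))) (S M (L (X 2147483648 (A 1 (X c 1))) N)))) N) e) N) (L (X (L (X 171 a) N) (A (A (L (R D 2752) 4294967295) (X c (L (R D 7360) 4294967295))) (S M (L (X 2147483648 (A 1 (X c 1))) N)))) N)) 1) N) (S M (L (L (X (L (X 1024 (A (L (X (A (L (R D 4352) 4294967295) (X c (L (R D 8960) 4294967295))) (A 0 (S M (L (L (X 12 1) N) N)))) N) (A (L (X (A (L (R D 4416) 4294967295) (X c (L (R D 9024) 4294967295))) 1) N) (L (X (A (L (R D 4480) 4294967295) (X c (L (R D 9088) 4294967295))) (A 0 (S M (L (L (X 12 1) N) N)))) N)))) N) e) N) N))), 49, 2, 1, 2, 1⟩,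
  ⟨fun A S X L P R M N m a b c d e f g h D => (A (L (X (A (A (L (R D 2560) 4294967295) (X c (L (R D 7168) 4294967295))) (S M (L (X 2147483648 (A 1 (X c 1))) N))) 1) N) (S M (L (A (L (X (A (L (R D 4384) 4294967295) (X c (L (R D 8992) 4294967295))) (A 0 (S M (L (L (X 12 1) N) N)))) N) (A (L (X (A (L (R D 4448) 4294967295) (X c (L (R D 9056) 4294967295))) (L (X 2 1) N)) N) (L (X (A (L (R D 4480) 4294967295) (X c (L (R D 9088) 4294967295))) (A 0 (S M (L (L (X 24 1) N) N)))) N))) N))), 39, 1, 1, 2, 1⟩,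
  ⟨fun A S X L P R M N m a b c d e f g h D => (A (L (X (A (A (L (R D 2656) 4294967295) (X c (L (R D 7264) 4294967295))) (S M (L (X 2147483648 (A 1 (X c 1))) N))) 1) N) (S M (L (A (L (X (A (L (R D 4416) 4294967295) (X c (L (R D 9024) 4294967295))) (A 0 (S M (L (L (X 12 1) N) N)))) N) (A (L (X (A (L (R D 4448) 4294967295) (X c (L (R D 9056) 4294967295))) (A 0 (S M (L (L (X 12 1) N) N)))) N) (L (X (A (L (R D 4480) 4294967295) (X c (L (R D 9088) 4294967295))) (L (X 144 1) N)) N))) N))), 41, 1, 1, 2, 1⟩,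
  ⟨fun A S X L P R M N m a b c d e f g h D => (A (A (L (X 1 (A (L (R D 128) 4294967295) (X a (A (L (R D 160) 4294967295) (X a (L (R D 192) 4294967295)))))) N) (L (X c (A (L (R D 4736) 4294967295) (X a (A (L (R D 4768) 4294967295) (X a (L (R D 4800) 4294967295)))))) N)) (S M (L (L (X (L (X (L (X 16777216 1) N) (P e 2)) N) g) N) N))), 35, 3, 1, 2, 1⟩,
  ⟨fun A S X L P R M N m a b c d e f g h D => (A (L (R D 0) 4294967295) (S M (L 1 N))), 33, 1, 1, 1, 1⟩,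
  ⟨fun A S X L P R M N m a b c d e f g h D => (A (L (X 33554432 (A (L (R D 2304) 4294967295) m)) N) (S M (L (A (L (X 33554432 (A (L (R D 6912) 4294967295) m)) N) (L (X 1 (L (X (L (R D 0) 4294967295) (A (A (L (R D 2272) 4294967295) m) (A (L (R D 6880) 4294967295) m))) N)) N)) N))), 66, 1, 1, 1, 1⟩,
  ⟨fun A S X L P R M N m a b c d e f g h D => (A (A (L (R D 2336) 4294967295) m) (S M (L (A (L (R D 2304) 4294967295) m) N))), 34, 1, 1, 1, 1⟩,
  ⟨fun A S X L P R M N m a b c d e f g h D => (A (A (L (R D 6944) 4294967295) m) (S M (L (A (L (R D 6912) 4294967295) m) N))), 34, 1, 1, 1, 1⟩,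
  ⟨fun A S X L P R M N m a b c d e f g h D => (A (L (X 16777216 (L (X 8 (A (A (L (R D 2336) 4294967295) m) (S M (L (A (L (R D 2304) 4294967295) m) N)))) N)) N) (S M (L (L (X (L (R D 0) 4294967295) (A (A (L (R D 6880) 4294967295) m) (S M (L (A (L (R D 2272) 4294967295) m) N)))) N) N))), 66, 1, 1, 1, 1⟩,
  ⟨fun A S X L P R M N m a b c d e f g h D => (A (L (X 16777216 (L (X 8 (A (A (L (R D 6944) 4294967295) m) (S M (L (A (L (R D 6912) 4294967295) m) N)))) N)) N) (S M (L (L (X (L (R D 0) 4294967295) (A (A (L (R D 6880) 4294967295) m) (S M (L (A (L (R D 2272) 4294967295) m) N)))) N) N))), 66, 1, 1, 1, 1⟩,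
  ⟨fun A S X L P R M N m a b c d e f g h D => (A (L (X 33554432 (A (L (R D 2400) 4294967295) m)) N) (S M (L (A (L (X 33554432 (A (L (R D 7008) 4294967295) m)) N) (L (X 1 (L (X (L (R D 0) 4294967295) (A (A (L (R D 2368) 4294967295) m) (A (L (R D 6976) 4294967295) m))) N)) N)) N))), 66, 1, 1, 1, 1⟩,
  ⟨fun A S X L P R M N m a b c d e f g h D => (A (A (L (R D 2432) 4294967295) m) (S M (L (A (L (R D 2400) 4294967295) m) N))), 34, 1, 1, 1, 1⟩,
  ⟨fun A S X L P R M N m a b c d e f g h D => (A (A (L (R D 7040) 4294967295) m) (S M (L (A (L (R D 7008) 4294967295) m) N))), 34, 1, 1, 1, 1⟩,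
  ⟨fun A S X L P R M N m a b c d e f g h D => (A (L (X 16777216 (L (X 8 (A (A (L (R D 2432) 4294967295) m) (S M (L (A (L (R D 2400) 4294967295) m) N)))) N)) N) (S M (L (L (X (L (R D 0) 4294967295) (A (A (L (R D 6976) 4294967295) m) (S M (L (A (L (R D 2368) 4294967295) m) N)))) N) N))), 66, 1, 1, 1, 1⟩,
  ⟨fun A S X L P R M N m a b c d e f g h D => (A (L (X 16777216 (L (X 8 (A (A (L (R D 7040) 4294967295) m) (S M (L (A (L (R D 7008) 4294967295) m) N)))) N)) N) (S M (L (L (X (L (R D 0) 4294967295) (A (A (L (R D 6976) 4294967295) m) (S M (L (A (L (R D 2368) 4294967295) m) N)))) N) N))), 66, 1, 1, 1, 1⟩,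
  ⟨fun A S X L P R M N m a b c d e f g h D => (A (L (X 33554432 (A (L (R D 2496) 4294967295) m)) N) (S M (L (A (L (X 33554432 (A (L (R D 7104) 4294967295) m)) N) (L (X 1 (L (X (L (R D 0) 4294967295) (A (A (L (R D 2464) 4294967295) m) (A (L (R D 7072) 4294967295) m))) N)) N)) N))), 66, 1, 1, 1, 1⟩,
  ⟨fun A S X L P R M N m a b c d e f g h D => (A (A (L (R D 2528) 4294967295) m) (S M (L (A (L (R D 2496) 4294967295) m) N))), 34, 1, 1, 1, 1⟩,
  ⟨fun A S X L P R M N m a b c d e f g h D => (A (A (L (R D 7136) 4294967295) m) (S M (L (A (L (R D 7104) 4294967295) m) N))), 34, 1, 1, 1, 1⟩,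
  ⟨fun A S X L P R M N m a b c d e f g h D => (A (L (X 16777216 (L (X 8 (A (A (L (R D 2528) 4294967295) m) (S M (L (A (L (R D 2496) 4294967295) m) N)))) N)) N) (S M (L (L (X (L (R D 0) 4294967295) (A (A (L (R D 7072) 4294967295) m) (S M (L (A (L (R D 2464) 4294967295) m) N)))) N) N))), 66, 1, 1, 1, 1⟩,
  ⟨fun A S X L P R M N m a b c d e f g h D => (A (L (X 16777216 (L (X 8 (A (A (L (R D 7136) 4294967295) m) (S M (L (A (L (R D 7104) 4294967295) m) N)))) N)) N) (S M (L (L (X (L (R D 0) 4294967295) (A (A (L (R D 7072) 4294967295) m) (S M (L (A (L (R D 2464) 4294967295) m) N)))) N) N))), 66, 1, 1, 1, 1⟩,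
  ⟨fun A S X L P R M N m a b c d e f g h D => (A (L (X 33554432 (A (L (R D 2592) 4294967295) m)) N) (S M (L (A (L (X 33554432 (A (L (R D 7200) 4294967295) m)) N) (L (X 1 (L (X (L (R D 0) 4294967295) (A (A (L (R D 2560) 4294967295) m) (A (L (R D 7168) 4294967295) m))) N)) N)) N))), 66, 1, 1, 1, 1⟩,
  ⟨fun A S X L P R M N m a b c d e f g h D => (A (A (L (R D 2624) 4294967295) m) (S M (L (A (L (R D 2592) 4294967295) m) N))), 34, 1, 1, 1, 1⟩,
  ⟨fun A S X L P R M N m a b c d e f g h D => (A (A (L (R D 7232) 4294967295) m) (S M (L (A (L (R D 7200) 4294967295) m) N))), 34, 1, 1, 1, 1⟩,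
  ⟨fun A S X L P R M N m a b c d e f g h D => (A (L (X 16777216 (L (X 8 (A (A (L (R D 2624) 4294967295) m) (S M (L (A (L (R D 2592) 4294967295) m) N)))) N)) N) (S M (L (L (X (L (R D 0) 4294967295) (A (A (L (R D 7168) 4294967295) m) (S M (L (A (L (R D 2560) 4294967295) m) N)))) N) N))), 66, 1, 1, 1, 1⟩,
  ⟨fun A S X L P R M N m a b c d e f g h D => (A (L (X 16777216 (L (X 8 (A (A (L (R D 7232) 4294967295) m) (S M (L (A (L (R D 7200) 4294967295) m) N)))) N)) N) (S M (L (L (X (L (R D 0) 4294967295) (A (A (L (R D 7168) 4294967295) m) (S M (L (A (L (R D 2560) 4294967295) m) N)))) N) N))), 66, 1, 1, 1, 1⟩,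
  ⟨fun A S X L P R M N m a b c d e f g h D => (A (L (X 33554432 (A (L (R D 2688) 4294967295) m)) N) (S M (L (A (L (X 33554432 (A (L (R D 7296) 4294967295) m)) N) (L (X 1 (L (X (L (R D 0) 4294967295) (A (A (L (R D 2656) 4294967295) m) (A (L (R D 7264) 4294967295) m))) N)) N)) N))), 66, 1, 1, 1, 1⟩,
  ⟨fun A S X L P R M N m a b c d e f g h D => (A (A (L (R D 2720) 4294967295) m) (S M (L (A (L (R D 2688) 4294967295) m) N))), 34, 1, 1, 1, 1⟩,
  ⟨fun A S X L P R M N m a b c d e f g h D => (A (A (L (R D 7328) 4294967295) m) (S M (L (A (L (R D 7296) 4294967295) m) N))), 34, 1, 1, 1, 1⟩,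
  ⟨fun A S X L P R M N m a b c d e f g h D => (A (L (X 16777216 (L (X 8 (A (A (L (R D 2720) 4294967295) m) (S M (L (A (L (R D 2688) 4294967295) m) N)))) N)) N) (S M (L (L (X (L (R D 0) 4294967295) (A (A (L (R D 7264) 4294967295) m) (S M (L (A (L (R D 2656) 4294967295) m) N)))) N) N))), 66, 1, 1, 1, 1⟩,
  ⟨fun A S X L P R M N m a b c d e f g h D => (A (L (X 16777216 (L (X 8 (A (A (L (R D 7328) 4294967295) m) (S M (L (A (L (R D 7296) 4294967295) m) N)))) N)) N) (S M (L (L (X (L (R D 0) 4294967295) (A (A (L (R D 7264) 4294967295) m) (S M (L (A (L (R D 2656) 4294967295) m) N)))) N) N))), 66, 1, 1, 1, 1⟩,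
  ⟨fun A S X L P R M N m a b c d e f g h D => (A (L (X 33554432 (A (L (R D 2784) 4294967295) m)) N) (S M (L (A (L (X 33554432 (A (L (R D 7392) 4294967295) m)) N) (L (X 1 (L (X (L (R D 0) 4294967295) (A (A (L (R D 2752) 4294967295) m) (A (L (R D 7360) 4294967295) m))) N)) N)) N))), 66, 1, 1, 1, 1⟩,
  ⟨fun A S X L P R M N m a b c d e f g h D => (A (A (L (R D 2816) 4294967295) m) (S M (L (A (L (R D 2784) 4294967295) m) N))), 34, 1, 1, 1, 1⟩,
  ⟨fun A S X L P R M N m a b c d e f g h D => (A (A (L (R D 7424) 4294967295) m) (S M (L (A (L (R D 7392) 4294967295) m) N))), 34, 1, 1, 1, 1⟩,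
  ⟨fun A S X L P R M N m a b c d e f g h D => (A (L (X 16777216 (L (X 8 (A (A (L (R D 2816) 4294967295) m) (S M (L (A (L (R D 2784) 4294967295) m) N)))) N)) N) (S M (L (L (X (L (R D 0) 4294967295) (A (A (L (R D 7360) 4294967295) m) (S M (L (A (L (R D 2752) 4294967295) m) N)))) N) N))), 66, 1, 1, 1, 1⟩,
  ⟨fun A S X L P R M N m a b c d e f g h D => (A (L (X 16777216 (L (X 8 (A (A (L (R D 7424) 4294967295) m) (S M (L (A (L (R D 7392) 4294967295) m) N)))) N)) N) (S M (L (L (X (L (R D 0) 4294967295) (A (A (L (R D 7360) 4294967295) m) (S M (L (A (L (R D 2752) 4294967295) m) N)))) N) N))), 66, 1, 1, 1, 1⟩]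

theorem p0 : Pce Pool.Agent.RZ.RCO.RecK.z.sheet 288 150 0 (t0, f0) :=
  ⟨by decide +kernel, rfl, by decide +kernel⟩

end Pool.Agent.RZ.RCO.KZ
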