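import Pool.Agent.RZ.RCO.Ex7

/-! Level 2 indexed by the world: sums of the constant over a target (MP_73ccd0_lc). -/

namespace Pool.Agent.RZ.RCO

open Set Finset MeasureTheory Pool.Agent.RZ.RCRSHalf Pool.Agent.RZ.RCG

set_option linter.unusedSectionVars false

variable {V : Type*} [Fintype V] [DecidableEq V]

/-- the static exponent of the removal of `x`, then of `y`, from the world `F` -/
def prs (f : Finset V → V → ℝ) (F : Finset V) (x y : V) : ℝ :=
  f (F.erase x) x + f ((F.erase x).erase y) y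

/-- the static rate of level 2, indexed by the world -/
noncomputable def rkF (T : V → V → ℝ) (p n q m : Finset V → V → ℝ) (F : Finset V) : ℝ :=
  (1 / 2) * ∑ x ∈ F, ∑ y ∈ F, T x y *
    (max ((1 - Real.exp (-prs n F x y)) * (Real.exp (prs q F x y) - 1))
      ((Real.exp (prs p F x y) - 1) * (1 - Real.exp (-prs m F x y))))

theorem FkF_eq (F : Finset V) (T : ℝ → V → V → ℝ) (pc nc pd nd : Finset V → V → ℝ → ℝ) (r : ℝ) :
    FkF T pc nc pd nd F r = rkF (T r) (fun G e => pc G e r) (fun G e => nc G e r)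
      (fun G e => pd G e r) (fun G e => nd G e r) F := rfl

variable {T : V → V → ℝ} {p n q m p' n' q' m' : Finset V → V → ℝ}

theorem prs_nonneg {f : Finset V → V → ℝ} (f0 : ∀ F e, 0 ≤ f F e) (F : Finset V) (x y : V) :
    0 ≤ prs f F x y := add_nonneg (f0 _ _) (f0 _ _)

/-- the two targets exchanged -/
theorem rkF_symm (F : Finset V) : rkF T p n q m F = rkF T q m p n F := by
  unfold rkF
  congr 1
  refine Finset.sum_congr rfl fun x _ => Finset.sum_congr rfl fun y _ => ?_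
  rw [max_comm, mul_comm (Real.exp (prs p F x y) - 1), mul_comm (1 - Real.exp (-prs n F x y))]

/-- the pair terms, summed over a target; `fb` are the weights in the target sums -/
theorem quadT {F : Finset V} {a : V → Finset V → V → ℝ} {E f : V → ℝ} {fb : V → V → ℝ}
    {φ : V → Finset V → ℝ}
    (T0 : ∀ x y, 0 ≤ T x y) (Ts : ∀ x y, T x y = T y x) (f0 : ∀ c ∈ F, 0 ≤ f c)
    (fle : ∀ x ∈ F, ∀ c ∈ F.erase x, f c ≤ fb x c)
    (a0 : ∀ c ∈ F, ∀ G x, 0 ≤ a c G x) (E0 : ∀ x ∈ F, 0 ≤ E x)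
    (hφ : ∀ x ∈ F, ∀ G ⊆ F, x ∉ G → ∑ c ∈ G, fb x c * a c (G.erase c) x ≤ φ x G) :
    ∑ c ∈ F, f c * ((1 / 2) * ∑ x ∈ F.erase c, ∑ y ∈ F.erase c, T x y *
        (prs (a c) (F.erase c) x y * (E x + E y))) ≤ ∑ x ∈ F, E x * KF T φ F x := by
  -- the sums over `c`
  have s1 : ∀ x ∈ F, ∀ y, ∑ c ∈ (F.erase x).erase y, f c * a c ((F.erase c).erase x) x
      ≤ φ x (F.erase x) := by
    intro x hx y
    refine le_trans ?_ (hφ x hx (F.erase x) (Finset.erase_subset _ _) (Finset.notMem_erase _ _))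
    refine (Finset.sum_le_sum_of_subset_of_nonneg (Finset.erase_subset _ _) fun c hc _ =>
      mul_nonneg (f0 c (Finset.mem_of_mem_erase hc))
        (a0 c (Finset.mem_of_mem_erase hc) _ _)).trans ?_
    refine Finset.sum_le_sum fun c hc => ?_
    rw [Finset.erase_right_comm]
    exact mul_le_mul_of_nonneg_right (fle x hx c hc) (a0 c (Finset.mem_of_mem_erase hc) _ _)
  have s2 : ∀ x ∈ F, ∀ y ∈ F, ∑ c ∈ (F.erase x).erase y,
      f c * a c (((F.erase c).erase x).erase y) y ≤ φ y ((F.erase x).erase y) := by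
    intro x _ y hy
    refine le_trans ?_ (hφ y hy ((F.erase x).erase y)
      ((Finset.erase_subset _ _).trans (Finset.erase_subset _ _))
      (Finset.notMem_erase _ _))
    refine Finset.sum_le_sum fun c hc => ?_
    rw [Finset.erase_right_comm (a := c) (b := x), Finset.erase_right_comm (a := c) (b := y)]
    have hc1 := Finset.mem_erase.1 hc
    exact mul_le_mul_of_nonneg_right (fle y hy c (Finset.mem_erase.2
      ⟨hc1.1, Finset.mem_of_mem_erase hc1.2⟩)) (a0 c (Finset.mem_of_mem_erase hc1.2) _ _)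
  calc ∑ c ∈ F, f c * ((1 / 2) * ∑ x ∈ F.erase c, ∑ y ∈ F.erase c, T x y *
        (prs (a c) (F.erase c) x y * (E x + E y)))
      = (1 / 2) * ∑ c ∈ F, ∑ x ∈ F.erase c, ∑ y ∈ F.erase c, T x y *
        ((E x + E y) * (f c * a c ((F.erase c).erase x) x
          + f c * a c (((F.erase c).erase x).erase y) y)) := by
        rw [Finset.mul_sum]
        refine Finset.sum_congr rfl fun c _ => ?_
        rw [mul_left_comm, Finset.mul_sum]
        congr 1
        refine Finset.sum_congr rfl fun x _ => ?_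
        rw [Finset.mul_sum]
        exact Finset.sum_congr rfl fun y _ => by unfold prs; ring
    _ = (1 / 2) * ∑ x ∈ F, ∑ y ∈ F, T x y * ((E x + E y) *
        (∑ c ∈ (F.erase x).erase y, f c * a c ((F.erase c).erase x) x
          + ∑ c ∈ (F.erase x).erase y, f c * a c (((F.erase c).erase x).erase y) y)) := by
        rw [swap3]
        congr 1
        refine Finset.sum_congr rfl fun x _ => Finset.sum_congr rfl fun y _ => ?_
        rw [← Finset.sum_add_distrib, Finset.mul_sum, Finset.mul_sum]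
    _ ≤ (1 / 2) * ∑ x ∈ F, ∑ y ∈ F, T x y * ((E x + E y) *
        (φ x (F.erase x) + φ y ((F.erase x).erase y))) := by
        refine mul_le_mul_of_nonneg_left ?_ (by norm_num)
        refine Finset.sum_le_sum fun x hx => Finset.sum_le_sum fun y hy =>
          mul_le_mul_of_nonneg_left (mul_le_mul_of_nonneg_left (add_le_add (s1 x hx y)
            (s2 x hx y hy)) (add_nonneg (E0 x hx) (E0 y hy))) (T0 _ _)
    _ = ∑ x ∈ F, E x * KF T φ F x := by
        have e1 : ∑ x ∈ F, ∑ y ∈ F, T x y * ((E x + E y) *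
            (φ x (F.erase x) + φ y ((F.erase x).erase y)))
            = ∑ x ∈ F, ∑ y ∈ F, T x y * (E x *
              (φ x (F.erase x) + φ y ((F.erase x).erase y)))
            + ∑ x ∈ F, ∑ y ∈ F, T x y * (E y *
              (φ x (F.erase x) + φ y ((F.erase x).erase y))) := by
          rw [← Finset.sum_add_distrib]
          refine Finset.sum_congr rfl fun x _ => ?_
          rw [← Finset.sum_add_distrib]
          exact Finset.sum_congr rfl fun y _ => by ring
        have e2 : ∑ x ∈ F, ∑ y ∈ F, T x y * (E y *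
              (φ x (F.erase x) + φ y ((F.erase x).erase y)))
            = ∑ x ∈ F, ∑ y ∈ F, T x y * (E x *
              (φ y (F.erase y) + φ x ((F.erase y).erase x))) := by
          rw [Finset.sum_comm]
          refine Finset.sum_congr rfl fun x _ => Finset.sum_congr rfl fun y _ => ?_
          rw [Ts y x]
        rw [e1, e2, ← Finset.sum_add_distrib, Finset.mul_sum]
        refine Finset.sum_congr rfl fun x _ => ?_
        unfold KF
        rw [← Finset.sum_add_distrib]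
        simp only [Finset.mul_sum]
        exact Finset.sum_congr rfl fun y _ => by ring

/-- the data of the static bound: `e` and `e2` are pair majorants of the exponentials of `p` and
`q`; `φn`, `φe` bound the target sums of `n` and `e` inside the world `F` -/
structure SkD (T : V → V → ℝ) (F : Finset V) (p n e : V → Finset V → V → ℝ)
    (q m e2 : Finset V → V → ℝ) (f : V → ℝ) (fb : V → V → ℝ) (φn φe : V → Finset V → ℝ) :
    Prop where
  T0 : ∀ x y, 0 ≤ T x y
  Ts : ∀ x y, T x y = T y x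
  Tz : ∀ x, T x x = 0
  f0 : ∀ c ∈ F, 0 ≤ f c
  fle : ∀ x ∈ F, ∀ c ∈ F.erase x, f c ≤ fb x c
  n0 : ∀ c ∈ F, ∀ G x, 0 ≤ n c G x
  e0 : ∀ c ∈ F, ∀ G x, 0 ≤ e c G x
  q0 : ∀ F x, 0 ≤ q F x
  m0 : ∀ F x, 0 ≤ m F x
  e20 : ∀ F x, 0 ≤ e2 F x
  hn : ∀ x ∈ F, ∀ G ⊆ F, x ∉ G → ∑ c ∈ G, fb x c * n c (G.erase c) x ≤ φn x G
  he : ∀ x ∈ F, ∀ G ⊆ F, x ∉ G → ∑ c ∈ G, fb x c * e c (G.erase c) x ≤ φe x G
  hpe : ∀ c ∈ F, ∀ x ∈ F.erase c, ∀ y ∈ F.erase c, x ≠ y →
    Real.exp (prs (p c) (F.erase c) x y) - 1 ≤ prs (e c) (F.erase c) x y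
  hqe : ∀ c ∈ F, ∀ x ∈ F.erase c, ∀ y ∈ F.erase c, x ≠ y →
    Real.exp (prs q (F.erase c) x y) - 1 ≤ prs e2 (F.erase c) x y
  mm : ∀ G ⊆ F, ∀ H ⊆ G, ∀ x ∈ F, x ∉ G → m H x ≤ m G x
  em : ∀ G ⊆ F, ∀ H ⊆ G, ∀ x ∈ F, x ∉ G → e2 H x ≤ e2 G x

section

variable {F : Finset V} {p n e : V → Finset V → V → ℝ} {q m e2 : Finset V → V → ℝ}
    {f : V → ℝ} {fb : V → V → ℝ} {φn φe : V → Finset V → ℝ}

/-- **static bound of the sums of level 2 over the first target** -/
theorem SkD.sum (h : SkD T F p n e q m e2 f fb φn φe) :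
    ∑ c ∈ F, f c * rkF T (p c) (n c) q m (F.erase c)
      ≤ ∑ x ∈ F, e2 (F.erase x) x * KF T φn F x + ∑ x ∈ F, m (F.erase x) x * KF T φe F x := by
  have k1 := quadT (a := n) (E := fun x => e2 (F.erase x) x) h.T0 h.Ts h.f0 h.fle h.n0
    (fun x _ => h.e20 _ x) h.hn
  have k2 := quadT (a := e) (E := fun x => m (F.erase x) x) h.T0 h.Ts h.f0 h.fle h.e0
    (fun x _ => h.m0 _ x) h.he
  have mono : ∀ {g : Finset V → V → ℝ}, (∀ G ⊆ F, ∀ H ⊆ G, ∀ x ∈ F, x ∉ G → g H x ≤ g G x) →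
      ∀ c, ∀ x ∈ F, ∀ y ∈ F, prs g (F.erase c) x y ≤ prs g F x y := by
    intro g hg c x hx y hy
    exact add_le_add (hg _ (Finset.erase_subset _ _) _ (Finset.erase_subset_erase _
      (Finset.erase_subset _ _)) x hx (Finset.notMem_erase _ _)) (hg _
      ((Finset.erase_subset _ _).trans (Finset.erase_subset _ _)) _ (Finset.erase_subset_erase _
        (Finset.erase_subset_erase _ (Finset.erase_subset _ _))) y hy (Finset.notMem_erase _ _))
  have one : ∀ {g : Finset V → V → ℝ}, (∀ G ⊆ F, ∀ H ⊆ G, ∀ x ∈ F, x ∉ G → g H x ≤ g G x) →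
      ∀ x, ∀ y ∈ F, prs g F x y ≤ g (F.erase x) x + g (F.erase y) y := by
    intro g hg x y hy
    exact add_le_add le_rfl (hg _ (Finset.erase_subset _ _) _ (Finset.erase_subset_erase _
      (Finset.erase_subset _ _)) y hy (Finset.notMem_erase _ _))
  have step : ∀ c ∈ F, f c * rkF T (p c) (n c) q m (F.erase c)
      ≤ f c * ((1 / 2) * ∑ x ∈ F.erase c, ∑ y ∈ F.erase c, T x y *
          (prs (n c) (F.erase c) x y * (e2 (F.erase x) x + e2 (F.erase y) y)))
        + f c * ((1 / 2) * ∑ x ∈ F.erase c, ∑ y ∈ F.erase c, T x y *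
          (prs (e c) (F.erase c) x y * (m (F.erase x) x + m (F.erase y) y))) := by
    intro c hc
    rw [← mul_add, ← mul_add, ← Finset.sum_add_distrib]
    unfold rkF
    refine mul_le_mul_of_nonneg_left (mul_le_mul_of_nonneg_left ?_ (by norm_num)) (h.f0 c hc)
    refine Finset.sum_le_sum fun x hx => ?_
    rw [← Finset.sum_add_distrib]
    refine Finset.sum_le_sum fun y hy => ?_
    rw [← mul_add]
    by_cases hxy : x = y
    · subst hxy
      rw [h.Tz x, zero_mul, zero_mul]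
    have hx' := Finset.mem_of_mem_erase hx
    have hy' := Finset.mem_of_mem_erase hy
    refine mul_le_mul_of_nonneg_left ?_ (h.T0 x y)
    have a1 : 0 ≤ prs (n c) (F.erase c) x y := prs_nonneg (h.n0 c hc) _ _ _
    have a2 : 0 ≤ prs (e c) (F.erase c) x y := prs_nonneg (h.e0 c hc) _ _ _
    have a3 : 0 ≤ e2 (F.erase x) x + e2 (F.erase y) y := add_nonneg (h.e20 _ _) (h.e20 _ _)
    have a4 : 0 ≤ m (F.erase x) x + m (F.erase y) y := add_nonneg (h.m0 _ _) (h.m0 _ _)
    have b1 : Real.exp (prs q (F.erase c) x y) - 1 ≤ e2 (F.erase x) x + e2 (F.erase y) y := by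
      have h1 := mono h.em c x hx' y hy'
      have h2 := h.hqe c hc x hx y hy hxy
      have h3 := one h.em x y hy'
      linarith
    have b2 : 1 - Real.exp (-prs m (F.erase c) x y) ≤ m (F.erase x) x + m (F.erase y) y :=
      (e1l _).trans ((mono h.mm c x hx' y hy').trans (one h.mm x y hy'))
    have c1 : (1 - Real.exp (-prs (n c) (F.erase c) x y)) * (Real.exp (prs q (F.erase c) x y) - 1)
        ≤ prs (n c) (F.erase c) x y * (e2 (F.erase x) x + e2 (F.erase y) y) :=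
      mul_le_mul (e1l _) b1 (ge2 (prs_nonneg h.q0 _ _ _)) a1
    have c2 : (Real.exp (prs (p c) (F.erase c) x y) - 1) * (1 - Real.exp (-prs m (F.erase c) x y))
        ≤ prs (e c) (F.erase c) x y * (m (F.erase x) x + m (F.erase y) y) :=
      mul_le_mul (h.hpe c hc x hx y hy hxy) b2 (e1 (prs_nonneg h.m0 _ _ _)) a2
    exact max_le (c1.trans (le_add_of_nonneg_right (mul_nonneg a2 a4)))
      (c2.trans (le_add_of_nonneg_left (mul_nonneg a1 a3)))
  have s2 := Finset.sum_le_sum step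
  rw [Finset.sum_add_distrib] at s2
  exact s2.trans (add_le_add k1 k2)

variable {Λ : Type*} [Fintype Λ]

theorem wsum {w : Λ → V → ℝ} {g K : V → ℝ} {Γ P : Λ → ℝ} (g0 : ∀ x ∈ F, 0 ≤ g x)
    (Γ0 : ∀ l, 0 ≤ Γ l) (hK : ∀ x ∈ F, K x ≤ ∑ l, Γ l * w l x)
    (hP : ∀ l, ∑ x ∈ F, w l x * g x ≤ P l) : ∑ x ∈ F, g x * K x ≤ ∑ l, Γ l * P l := by
  calc ∑ x ∈ F, g x * K x ≤ ∑ x ∈ F, g x * ∑ l, Γ l * w l x :=
        Finset.sum_le_sum fun x hx => mul_le_mul_of_nonneg_left (hK x hx) (g0 x hx)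
    _ = ∑ l, Γ l * ∑ x ∈ F, w l x * g x := by
        simp only [Finset.mul_sum]
        rw [Finset.sum_comm]
        exact Finset.sum_congr rfl fun l _ => Finset.sum_congr rfl fun x _ => by ring
    _ ≤ ∑ l, Γ l * P l := Finset.sum_le_sum fun l _ => mul_le_mul_of_nonneg_left (hP l) (Γ0 l)

/-- **the same with weights of the positions** -/
theorem SkD.sum_w (h : SkD T F p n e q m e2 f fb φn φe) {w : Λ → V → ℝ}
    {Gn Ge Pe Pm : Λ → ℝ} (Gn0 : ∀ l, 0 ≤ Gn l) (Ge0 : ∀ l, 0 ≤ Ge l)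
    (kn : ∀ x ∈ F, KF T φn F x ≤ ∑ l, Gn l * w l x)
    (ke : ∀ x ∈ F, KF T φe F x ≤ ∑ l, Ge l * w l x)
    (hPe : ∀ l, ∑ x ∈ F, w l x * e2 (F.erase x) x ≤ Pe l)
    (hPm : ∀ l, ∑ x ∈ F, w l x * m (F.erase x) x ≤ Pm l) :
    ∑ c ∈ F, f c * rkF T (p c) (n c) q m (F.erase c) ≤ ∑ l, (Gn l * Pe l + Ge l * Pm l) := by
  refine h.sum.trans ?_
  rw [Finset.sum_add_distrib]
  exact add_le_add (wsum (fun x _ => h.e20 _ x) Gn0 kn hPe) (wsum (fun x _ => h.m0 _ x) Ge0 ke hPm)

end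

end Pool.Agent.RZ.RCO
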