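import Pool.Agent.RZ.RCM.WldV_1

/-! Route P: static facts about the weights, the killed mass `k` and its first two walk averages
`h`, `h2`, and about the boosts (MP_73ccd0_lc). -/

namespace Pool.Agent.RZ.RCO

open Set Finset Pool.Agent.RZ.RCM

set_option linter.unusedSectionVars false

variable {V : Type*} [Fintype V] [DecidableEq V]

/-- the weight to the removed set -/
def kk (x : V → V → ℝ) (D : Finset V) (e : V) : ℝ := ∑ w ∈ D, x w e

/-- its average over the neighbours -/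
def hk (x : V → V → ℝ) (D : Finset V) (e : V) : ℝ := ∑ f ∈ Dᶜ, x e f * kk x D f

section weights

variable {x : V → V → ℝ} {D : Finset V}

theorem kk_nonneg (hx : RCM.Wt x) (D : Finset V) (e : V) : 0 ≤ kk x D e :=
  Finset.sum_nonneg fun w _ => hx.nn w e

theorem kk_le_one (hx : RCM.Wt x) (D : Finset V) (e : V) : kk x D e ≤ 1 := by
  have := kD_nonneg hx D e
  unfold kk
  linarith

theorem row_kk (hx : RCM.Wt x) (D : Finset V) (e : V) : ∑ f ∈ Dᶜ, x e f ≤ 1 - kk x D e :=
  kD_le hx D e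

theorem hk_nonneg (hx : RCM.Wt x) (D : Finset V) (e : V) : 0 ≤ hk x D e :=
  Finset.sum_nonneg fun f _ => mul_nonneg (hx.nn e f) (kk_nonneg hx D f)

/-- the row of the complementary weights loses `h` -/
theorem row_v (hx : RCM.Wt x) (D : Finset V) (e : V) :
    ∑ f ∈ Dᶜ, x e f * (1 - kk x D f) ≤ (1 - kk x D e) - hk x D e := by
  have h1 := row_kk hx D e
  have e1 : ∑ f ∈ Dᶜ, x e f * (1 - kk x D f) = ∑ f ∈ Dᶜ, x e f - hk x D e := by
    unfold hk
    rw [← Finset.sum_sub_distrib]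
    exact Finset.sum_congr rfl fun f _ => by ring
  rw [e1]
  linarith

theorem hk_le (hx : RCM.Wt x) (D : Finset V) (e : V) : hk x D e ≤ 1 - kk x D e := by
  have h1 := row_v hx D e
  have h2 : 0 ≤ ∑ f ∈ Dᶜ, x e f * (1 - kk x D f) := Finset.sum_nonneg fun f _ =>
    mul_nonneg (hx.nn e f) (by linarith [kk_le_one hx D f])
  linarith

theorem x_add_kk (hx : RCM.Wt x) {e f : V} (he : e ∈ Dᶜ) : x e f + kk x D f ≤ 1 := by
  have h1 := hx.row f
  have h2 : ∑ w ∈ insert e D, x f w ≤ ∑ w, x f w :=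
    Finset.sum_le_sum_of_subset_of_nonneg (Finset.subset_univ _) fun w _ _ => hx.nn f w
  rw [Finset.sum_insert (Finset.mem_compl.1 he)] at h2
  have h3 : ∑ w ∈ D, x f w = kk x D f := Finset.sum_congr rfl fun w _ => hx.symm f w
  rw [h3, hx.symm f e] at h2
  linarith

/-- the total mass of `k` -/
theorem sum_kk (hx : RCM.Wt x) (D S : Finset V) : ∑ f ∈ S, kk x D f ≤ D.card := by
  unfold kk
  rw [Finset.sum_comm]
  calc ∑ w ∈ D, ∑ f ∈ S, x w f ≤ ∑ _w ∈ D, (1 : ℝ) := Finset.sum_le_sum fun w _ =>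
        (Finset.sum_le_sum_of_subset_of_nonneg (Finset.subset_univ _) fun f _ _ =>
          hx.nn w f).trans (hx.row w)
    _ = D.card := by simp

theorem sum_kk_erase (hx : RCM.Wt x) (D : Finset V) {e : V} (he : e ∈ Dᶜ) :
    ∑ f ∈ Dᶜ.erase e, kk x D f ≤ D.card - kk x D e := by
  have h1 := sum_kk hx D Dᶜ
  rw [← Finset.add_sum_erase _ _ he] at h1
  linarith

theorem hk_erase (hx : RCM.Wt x) (D : Finset V) (e : V) :
    hk x D e = ∑ f ∈ Dᶜ.erase e, x e f * kk x D f := by
  unfold hk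
  by_cases he : e ∈ Dᶜ
  · rw [← Finset.add_sum_erase _ _ he, hx.diag e, zero_mul, zero_add]
  · rw [Finset.erase_eq_of_notMem he]

/-- the elementary inequality behind the bounds of `h` -/
theorem xk_le {y k q : ℝ} (y0 : 0 ≤ y) (k0 : 0 ≤ k) (h : y + k ≤ 1) :
    y * k ≤ (1 - q) ^ 2 * y + q ^ 2 * k := by
  rcases le_total y (q ^ 2) with h1 | h1
  · have := mul_le_mul_of_nonneg_right h1 k0
    nlinarith [mul_nonneg (sq_nonneg (1 - q)) y0]
  · nlinarith [mul_nonneg (sub_nonneg.2 h1) (by linarith : 0 ≤ 1 - y - k), sq_nonneg (y - q)]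

/-- **the bound of `h`**; `q = 1 / 3` for two removed vertices, `q = 1 / 2` for one -/
theorem hk_le_q (hx : RCM.Wt x) (D : Finset V) {e : V} (he : e ∈ Dᶜ) (q : ℝ) :
    hk x D e ≤ (1 - q) ^ 2 * (1 - kk x D e) + q ^ 2 * (D.card - kk x D e) := by
  rw [hk_erase hx D e]
  have h1 : ∑ f ∈ Dᶜ.erase e, x e f * kk x D f
      ≤ ∑ f ∈ Dᶜ.erase e, ((1 - q) ^ 2 * x e f + q ^ 2 * kk x D f) :=
    Finset.sum_le_sum fun f _ => xk_le (hx.nn e f) (kk_nonneg hx D f) (x_add_kk hx he)
  rw [Finset.sum_add_distrib, ← Finset.mul_sum, ← Finset.mul_sum] at h1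
  have h2 : ∑ f ∈ Dᶜ.erase e, x e f ≤ 1 - kk x D e :=
    (Finset.sum_le_sum_of_subset_of_nonneg (Finset.erase_subset _ _) fun f _ _ =>
      hx.nn e f).trans (row_kk hx D e)
  have h3 := sum_kk_erase hx D he
  have h4 := mul_le_mul_of_nonneg_left h2 (sq_nonneg (1 - q))
  have h5 := mul_le_mul_of_nonneg_left h3 (sq_nonneg q)
  linarith

end weights

/-! ### elementary inequalities of the boosts -/

/-- the chord -/
theorem exp_chord {k u : ℝ} (k0 : 0 ≤ k) (k1 : k ≤ 1) :
    Real.exp (k * u) ≤ 1 + k * (Real.exp u - 1) := by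
  have h := convexOn_exp.2 (Set.mem_univ (0 : ℝ)) (Set.mem_univ u) (by linarith : 0 ≤ 1 - k) k0
    (by ring)
  simp only [smul_eq_mul, mul_zero, zero_add, Real.exp_zero, mul_one] at h
  linarith

/-- the quadratic chord -/
theorem exp_quad {k u : ℝ} (k0 : 0 ≤ k) (k1 : k ≤ 1) (u0 : 0 ≤ u) :
    Real.exp (k * u) ≤ 1 + k * u + k ^ 2 * (Real.exp u - 1 - u) := by
  -- the difference is concave in `u` from zero: compare derivatives
  have key : ∀ z ∈ Set.Ici (0 : ℝ), 0 ≤ 1 + k * z + k ^ 2 * (Real.exp z - 1 - z)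
      - Real.exp (k * z) := by
    have hd : ∀ z : ℝ, HasDerivAt (fun z => 1 + k * z + k ^ 2 * (Real.exp z - 1 - z)
        - Real.exp (k * z)) (k + k ^ 2 * (Real.exp z - 1) - Real.exp (k * z) * k) z := by
      intro z
      have h1 : HasDerivAt (fun z : ℝ => k * z) k z := by
        simpa using (hasDerivAt_id z).const_mul k
      have h2 := ((h1.const_add 1).add ((((Real.hasDerivAt_exp z).sub_const 1).sub
        (hasDerivAt_id z)).const_mul (k ^ 2))).sub h1.exp
      exact h2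
    have mono : MonotoneOn (fun z => 1 + k * z + k ^ 2 * (Real.exp z - 1 - z)
        - Real.exp (k * z)) (Set.Ici 0) := by
      refine monotoneOn_of_deriv_nonneg (convex_Ici 0) (fun z _ =>
        (hd z).continuousAt.continuousWithinAt) (fun z _ =>
        (hd z).differentiableAt.differentiableWithinAt) fun z hz => ?_
      rw [(hd z).deriv]
      have h3 := exp_chord (u := z) k0 k1
      have h4 := mul_le_mul_of_nonneg_left h3 k0
      nlinarith
    intro z hz
    have := mono (Set.self_mem_Ici) hz hz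
    simpa using this
  linarith [key u u0]

end Pool.Agent.RZ.RCO
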