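import Pool.Agent.RZ.RCO.RT

/-! Integrals of products of functions below piecewise linear functions of `s / t`
(MP_73ccd0_lc). -/

namespace Pool.Agent.RZ.RCO.RT

open Set Finset MeasureTheory

/-- the integral of the product of three lines on the unit interval -/
noncomputable def tri (a a' b b' c c' : ℝ) : ℝ :=
  (3 * (a * b * c) + (a * b * c' + a * b' * c + a' * b * c)
    + (a' * b' * c + a' * b * c' + a * b' * c') + 3 * (a' * b' * c')) / 12

/-- the integral of the product of three piecewise linear functions -/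
noncomputable def tri3 (n : ℕ) (u v w : ℕ → ℝ) : ℝ :=
  (∑ l ∈ Finset.range n, tri (u l) (u (l + 1)) (v l) (v (l + 1)) (w l) (w (l + 1))) / n

theorem tri_mono {a a' b b' c c' A A' B B' C C' : ℝ} (a0 : 0 ≤ a) (a0' : 0 ≤ a') (b0 : 0 ≤ b)
    (b0' : 0 ≤ b') (c0 : 0 ≤ c) (c0' : 0 ≤ c') (ha : a ≤ A) (ha' : a' ≤ A') (hb : b ≤ B)
    (hb' : b' ≤ B') (hc : c ≤ C) (hc' : c' ≤ C') :
    tri a a' b b' c c' ≤ tri A A' B B' C C' := by
  have A0 := a0.trans ha
  have A0' := a0'.trans ha'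
  have B0 := b0.trans hb
  have B0' := b0'.trans hb'
  unfold tri
  gcongr

theorem tri3_mono {n : ℕ} {u v w U V W : ℕ → ℝ} (u0 : ∀ l ≤ n, 0 ≤ u l) (v0 : ∀ l ≤ n, 0 ≤ v l)
    (w0 : ∀ l ≤ n, 0 ≤ w l) (hu : ∀ l ≤ n, u l ≤ U l) (hv : ∀ l ≤ n, v l ≤ V l)
    (hw : ∀ l ≤ n, w l ≤ W l) : tri3 n u v w ≤ tri3 n U V W := by
  unfold tri3
  refine div_le_div_of_nonneg_right (Finset.sum_le_sum fun l hl => ?_) (Nat.cast_nonneg n)
  have h1 : l ≤ n := (Finset.mem_range.1 hl).le
  have h2 : l + 1 ≤ n := Finset.mem_range.1 hl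
  exact tri_mono (u0 _ h1) (u0 _ h2) (v0 _ h1) (v0 _ h2) (w0 _ h1) (w0 _ h2) (hu _ h1) (hu _ h2)
    (hv _ h1) (hv _ h2) (hw _ h1) (hw _ h2)

theorem tri3_nonneg {n : ℕ} {u v w : ℕ → ℝ} (u0 : ∀ l ≤ n, 0 ≤ u l) (v0 : ∀ l ≤ n, 0 ≤ v l)
    (w0 : ∀ l ≤ n, 0 ≤ w l) : 0 ≤ tri3 n u v w := by
  unfold tri3
  refine div_nonneg (Finset.sum_nonneg fun l hl => ?_) (Nat.cast_nonneg n)
  have h1 : l ≤ n := (Finset.mem_range.1 hl).le
  have h2 : l + 1 ≤ n := Finset.mem_range.1 hl
  have a := u0 _ h1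
  have a' := u0 _ h2
  have b := v0 _ h1
  have b' := v0 _ h2
  have c := w0 _ h1
  have c' := w0 _ h2
  unfold tri
  positivity

theorem tri3_add (n : ℕ) (u v w w' : ℕ → ℝ) :
    tri3 n u v (fun l => w l + w' l) = tri3 n u v w + tri3 n u v w' := by
  unfold tri3
  rw [← add_div, ← Finset.sum_add_distrib]
  congr 1
  exact Finset.sum_congr rfl fun l _ => by unfold tri; ring

theorem tri3_smul (n : ℕ) (k : ℝ) (u v w : ℕ → ℝ) :
    tri3 n u v (fun l => k * w l) = k * tri3 n u v w := by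
  unfold tri3
  rw [mul_div_assoc', Finset.mul_sum]
  congr 1
  exact Finset.sum_congr rfl fun l _ => by unfold tri; ring

theorem tri3_swap (n : ℕ) (u v w : ℕ → ℝ) : tri3 n u v w = tri3 n w v u := by
  unfold tri3
  congr 1
  exact Finset.sum_congr rfl fun l _ => by unfold tri; ring

theorem tri3_add1 (n : ℕ) (u u' v w : ℕ → ℝ) :
    tri3 n (fun l => u l + u' l) v w = tri3 n u v w + tri3 n u' v w := by
  rw [tri3_swap, tri3_add, tri3_swap, tri3_swap n w v u']

theorem tri3_smul1 (n : ℕ) (k : ℝ) (u v w : ℕ → ℝ) :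
    tri3 n (fun l => k * u l) v w = k * tri3 n u v w := by
  rw [tri3_swap, tri3_smul, tri3_swap]

/-- linearity over a cubic -/
theorem tri3_cub (n : ℕ) (u v a b c d : ℕ → ℝ) (k : ℝ) :
    tri3 n u v (fun l => cubR (a l) (b l) (c l) (d l) k)
      = cubR (tri3 n u v a) (tri3 n u v b) (tri3 n u v c) (tri3 n u v d) k := by
  unfold tri3
  unfold cubR
  rw [show ∀ A B C D : ℝ, A / n * (1 - k) ^ 3 + 3 * (B / n) * k * (1 - k) ^ 2
      + 3 * (C / n) * k ^ 2 * (1 - k) + D / n * k ^ 3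
      = (A * (1 - k) ^ 3 + 3 * B * k * (1 - k) ^ 2 + 3 * C * k ^ 2 * (1 - k) + D * k ^ 3) / n from
    fun A B C D => by ring]
  congr 1
  rw [Finset.sum_mul, Finset.mul_sum, Finset.sum_mul, Finset.sum_mul, Finset.mul_sum,
    Finset.sum_mul, Finset.sum_mul, Finset.sum_mul, ← Finset.sum_add_distrib,
    ← Finset.sum_add_distrib, ← Finset.sum_add_distrib]
  exact Finset.sum_congr rfl fun l _ => by unfold tri; ring

theorem int_cubic (A B C D : ℝ) (c : ℝ) :
    ∫ x in (0 : ℝ)..c, (A + B * x + C * x ^ 2 + D * x ^ 3)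
      = A * c + B * c ^ 2 / 2 + C * c ^ 3 / 3 + D * c ^ 4 / 4 := by
  have h := intervalIntegral.integral_eq_sub_of_hasDerivAt (a := 0) (b := c)
    (f := fun x : ℝ => A * x + B * x ^ 2 / 2 + C * x ^ 3 / 3 + D * x ^ 4 / 4)
    (f' := fun x : ℝ => A + B * x + C * x ^ 2 + D * x ^ 3) (fun x _ => by
      have h1 := (hasDerivAt_id x).const_mul A
      have h2 := ((hasDerivAt_pow 2 x).const_mul B).div_const 2
      have h3 := ((hasDerivAt_pow 3 x).const_mul C).div_const 3
      have h4 := ((hasDerivAt_pow 4 x).const_mul D).div_const 4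
      have h5 := ((h1.add h2).add h3).add h4
      refine (h5.congr_deriv ?_).congr_of_eventuallyEq (Filter.Eventually.of_forall fun y => ?_)
      · push_cast
        ring
      · simp only [Pi.add_apply, id]) (Continuous.intervalIntegrable (by fun_prop) _ _)
  rw [h]
  ring

theorem int_lines (a a' b b' c c' : ℝ) :
    ∫ x in (0 : ℝ)..1, ((1 - x) * a + x * a') * ((1 - x) * b + x * b') * ((1 - x) * c + x * c')
      = tri a a' b b' c c' := by
  have e : ∀ x : ℝ, ((1 - x) * a + x * a') * ((1 - x) * b + x * b') * ((1 - x) * c + x * c')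
      = a * b * c + ((a' - a) * b * c + a * (b' - b) * c + a * b * (c' - c)) * x
        + ((a' - a) * (b' - b) * c + (a' - a) * b * (c' - c) + a * (b' - b) * (c' - c)) * x ^ 2
        + ((a' - a) * (b' - b) * (c' - c)) * x ^ 3 := fun x => by ring
  simp only [e]
  rw [int_cubic]
  unfold tri
  ring

/-- the integral over the cells -/
theorem int_cells {n : ℕ} (n0 : 0 < n) {f : ℝ → ℝ} (cf : ContinuousOn f (Icc 0 1)) {F : ℕ → ℝ → ℝ}
    (cF : ∀ l, Continuous (F l)) (h : ∀ l < n, ∀ c ∈ Icc (0 : ℝ) 1, f ((l + c) / n) ≤ F l c) :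
    ∫ x in (0 : ℝ)..1, f x ≤ (∑ l ∈ Finset.range n, ∫ c in (0 : ℝ)..1, F l c) / n := by
  have n0' : (0 : ℝ) < n := Nat.cast_pos.2 n0
  set a : ℕ → ℝ := fun l => (l : ℝ) / n with ha
  have am : ∀ l ≤ n, a l ∈ Icc (0 : ℝ) 1 := fun l hl => by
    rw [ha]
    refine ⟨by positivity, ?_⟩
    rw [div_le_one n0']
    exact_mod_cast hl
  have hi : ∀ k < n, IntervalIntegrable f volume (a k) (a (k + 1)) := fun k hk => by
    refine (cf.mono ?_).intervalIntegrable
    rw [Set.uIcc_of_le (by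
      rw [ha]
      exact div_le_div_of_nonneg_right (by push_cast; linarith) n0'.le)]
    exact Icc_subset_Icc (am k hk.le).1 (am (k + 1) hk).2
  have h1 := intervalIntegral.sum_integral_adjacent_intervals hi
  have a0 : a 0 = 0 := by rw [ha]; simp
  have an : a n = 1 := by rw [ha]; exact div_self n0'.ne'
  rw [a0, an] at h1
  rw [← h1, Finset.sum_div]
  refine Finset.sum_le_sum fun l hl => ?_
  have hl' := Finset.mem_range.1 hl
  have e := intervalIntegral.integral_comp_mul_sub (a := a l) (b := a (l + 1)) (F l) n0'.ne' (l : ℝ)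
  have e1 : (n : ℝ) * a l - l = 0 := by rw [ha]; field_simp; ring
  have e2 : (n : ℝ) * a (l + 1) - l = 1 := by rw [ha]; push_cast; field_simp; ring
  rw [e1, e2] at e
  have h2 : ∫ x in a l..a (l + 1), f x ≤ ∫ x in a l..a (l + 1), F l (n * x - l) := by
    refine intervalIntegral.integral_mono_on ?_ (hi l hl')
      (Continuous.intervalIntegrable ((cF l).comp (by fun_prop)) _ _) fun x hx => ?_
    · rw [ha]
      exact div_le_div_of_nonneg_right (by push_cast; linarith) n0'.le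
    · have hx1 : (l : ℝ) ≤ n * x := by
        have := hx.1
        rw [ha] at this
        beta_reduce at this
        rw [div_le_iff₀ n0'] at this
        linarith
      have hx2 : n * x ≤ (l : ℝ) + 1 := by
        have := hx.2
        rw [ha] at this
        beta_reduce at this
        rw [le_div_iff₀ n0'] at this
        push_cast at this
        linarith
      have := h l hl' (n * x - l) ⟨by linarith, by linarith⟩
      rwa [show ((l : ℝ) + (n * x - l)) / n = x by field_simp; ring] at this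
  refine h2.trans (le_of_eq ?_)
  rw [e]
  simp [div_eq_inv_mul]

/-- **the integral of a product of three functions below piecewise linear ones** -/
theorem int3_le {n : ℕ} (n0 : 0 < n) {t : ℝ} (t0 : 0 ≤ t) {p q r : ℝ → ℝ} {u v w : ℕ → ℝ}
    (cp : ContinuousOn p (Icc 0 t)) (cq : ContinuousOn q (Icc 0 t)) (cr : ContinuousOn r (Icc 0 t))
    (p0 : ∀ s ∈ Icc 0 t, 0 ≤ p s) (q0 : ∀ s ∈ Icc 0 t, 0 ≤ q s) (r0 : ∀ s ∈ Icc 0 t, 0 ≤ r s)
    (hp : ∀ s ∈ Icc 0 t, p s ≤ plx n u (s / t)) (hq : ∀ s ∈ Icc 0 t, q s ≤ plx n v (s / t))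
    (hr : ∀ s ∈ Icc 0 t, r s ≤ plx n w (s / t)) :
    ∫ s in (0 : ℝ)..t, p s * q s * r s ≤ t * tri3 n u v w := by
  rcases eq_or_lt_of_le t0 with h0 | h0
  · rw [← h0]; simp
  have n0' : (0 : ℝ) < n := Nat.cast_pos.2 n0
  have e := intervalIntegral.integral_comp_mul_left (a := 0) (b := 1)
    (fun s => p s * q s * r s) h0.ne'
  rw [mul_zero, mul_one] at e
  have e' : ∫ s in (0 : ℝ)..t, p s * q s * r s
      = t * ∫ x in (0 : ℝ)..1, p (t * x) * q (t * x) * r (t * x) := by
    rw [e, smul_eq_mul, ← mul_assoc, mul_inv_cancel₀ h0.ne', one_mul]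
  rw [e']
  refine mul_le_mul_of_nonneg_left ?_ t0
  have ms : ∀ x ∈ Icc (0 : ℝ) 1, t * x ∈ Icc 0 t := fun x hx =>
    ⟨mul_nonneg t0 hx.1, mul_le_of_le_one_right t0 hx.2⟩
  have cm : ContinuousOn (fun x => t * x) (Icc (0 : ℝ) 1) := by fun_prop
  have key := int_cells n0 (f := fun x => p (t * x) * q (t * x) * r (t * x))
    (((cp.comp cm ms).mul (cq.comp cm ms)).mul (cr.comp cm ms))
    (F := fun l c => ((1 - c) * u l + c * u (l + 1)) * ((1 - c) * v l + c * v (l + 1))
      * ((1 - c) * w l + c * w (l + 1))) (fun l => by fun_prop) fun l hl c hc => by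
      have hx : ((l : ℝ) + c) / n ∈ Icc (0 : ℝ) 1 := by
        have l1 : (l : ℝ) + 1 ≤ n := by exact_mod_cast hl
        refine ⟨by have := hc.1; positivity, ?_⟩
        rw [div_le_one n0']
        linarith [hc.2]
      have m := ms _ hx
      have es : t * (((l : ℝ) + c) / n) / t = ((l : ℝ) + c) / n := by field_simp
      have ex : (n : ℝ) * (((l : ℝ) + c) / n) = l + c := by field_simp
      have a1 := hp _ m
      have a2 := hq _ m
      have a3 := hr _ m
      rw [es, plx_cell hl _ hc.1 hc.2 ex] at a1 a2 a3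
      have b1 := p0 _ m
      have b2 := q0 _ m
      have b3 := r0 _ m
      exact mul_le_mul (mul_le_mul a1 a2 b2 (b1.trans a1)) a3 b3
        (mul_nonneg (b1.trans a1) (b2.trans a2))
  refine key.trans (le_of_eq ?_)
  unfold tri3
  congr 1
  exact Finset.sum_congr rfl fun l _ => int_lines _ _ _ _ _ _

/-- the continuity of a piecewise linear function of `s / t` -/
theorem plx_div_cont (n : ℕ) (v : ℕ → ℝ) (t : ℝ) : Continuous fun s => plx n v (s / t) :=
  (plx_cont n v).comp (continuous_id.div_const t)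

theorem div_mem01 {t s : ℝ} (hs : s ∈ Icc 0 t) : s / t ∈ Icc (0 : ℝ) 1 := by
  rcases eq_or_lt_of_le (hs.1.trans hs.2) with h | h
  · rw [← h, div_zero]
    exact ⟨le_rfl, zero_le_one⟩
  · exact ⟨div_nonneg hs.1 h.le, (div_le_one h).2 hs.2⟩

/-! ### integrals up to `s` -/

/-- the integral of a product of two lines on the unit interval -/
noncomputable def bi (a a' b b' : ℝ) : ℝ := (2 * (a * b) + a * b' + a' * b + 2 * (a' * b')) / 6

/-- **the mass up to `s` below a piecewise linear function** -/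
theorem int2_part {n : ℕ} (n0 : 0 < n) {t : ℝ} (t0 : 0 ≤ t) {p q : ℝ → ℝ} {u v C Φ : ℕ → ℝ}
    {E : ℝ}
    (cp : ContinuousOn p (Icc 0 t)) (cq : ContinuousOn q (Icc 0 t))
    (p0 : ∀ s ∈ Icc 0 t, 0 ≤ p s) (q0 : ∀ s ∈ Icc 0 t, 0 ≤ q s)
    (hp : ∀ s ∈ Icc 0 t, p s ≤ plx n u (s / t)) (hq : ∀ s ∈ Icc 0 t, q s ≤ plx n v (s / t))
    (C0 : 0 ≤ C 0)
    (hC : ∀ l < n, C l + bi (u l) (u (l + 1)) (v l) (v (l + 1)) / n ≤ C (l + 1)) (E0 : 0 ≤ E)
    (hE : ∀ l < n, (u l * v l - u (l + 1) * v (l + 1)) / 2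
      + |(u (l + 1) - u l) * (v (l + 1) - v l)| / 6 ≤ 4 * n * E)
    (hΦ : ∀ l ≤ n, C l + E ≤ Φ l) :
    ∀ s ∈ Icc 0 t, ∫ r in (0 : ℝ)..s, p r * q r ≤ t * plx n Φ (s / t) := by
  intro s hs
  rcases eq_or_lt_of_le t0 with h0 | h0
  · have : s = 0 := le_antisymm (hs.2.trans (le_of_eq h0.symm)) hs.1
    rw [← h0, this]; simp
  have n0' : (0 : ℝ) < n := Nat.cast_pos.2 n0
  -- the integral in the variable `x`
  set x : ℝ := s / t with hx
  have hx01 : x ∈ Icc (0 : ℝ) 1 := div_mem01 hs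
  have es : s = t * x := by rw [hx]; field_simp
  have e := intervalIntegral.integral_comp_mul_left (a := 0) (b := x) (fun r => p r * q r) h0.ne'
  rw [mul_zero, ← es] at e
  have e' : ∫ r in (0 : ℝ)..s, p r * q r = t * ∫ y in (0 : ℝ)..x, p (t * y) * q (t * y) := by
    rw [e, smul_eq_mul, ← mul_assoc, mul_inv_cancel₀ h0.ne', one_mul]
  rw [e']
  refine mul_le_mul_of_nonneg_left ?_ t0
  have ms : ∀ y ∈ Icc (0 : ℝ) 1, t * y ∈ Icc 0 t := fun y hy =>
    ⟨mul_nonneg t0 hy.1, mul_le_of_le_one_right t0 hy.2⟩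
  have cm : ContinuousOn (fun y => t * y) (Icc (0 : ℝ) 1) := by fun_prop
  set g : ℝ → ℝ := fun y => p (t * y) * q (t * y) with hg
  have cg : ContinuousOn g (Icc 0 1) := (cp.comp cm ms).mul (cq.comp cm ms)
  have gi : ∀ a ∈ Icc (0 : ℝ) 1, ∀ b ∈ Icc (0 : ℝ) 1, IntervalIntegrable g volume a b :=
    fun a ha b hb => (cg.mono (uIcc_subset_Icc ha hb)).intervalIntegrable
  -- one cell
  have cell : ∀ l < n, ∀ c ∈ Icc (0 : ℝ) 1, ∫ y in ((l : ℝ) / n)..((l + c) / n), g y
      ≤ (c * bi (u l) (u (l + 1)) (v l) (v (l + 1)) + 4 * n * E * (c * (1 - c))) / n := by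
    intro l hl c hc
    have l1 : (l : ℝ) + 1 ≤ n := by exact_mod_cast hl
    have mem : ∀ c' ∈ Icc (0 : ℝ) 1, ((l : ℝ) + c') / n ∈ Icc (0 : ℝ) 1 := fun c' hc' => by
      refine ⟨by have := hc'.1; positivity, ?_⟩
      rw [div_le_one n0']
      linarith [hc'.2]
    have e0 : ((l : ℝ) / n) = (l + 0) / n := by rw [add_zero]
    have ab : (l : ℝ) / n ≤ (l + c) / n :=
      div_le_div_of_nonneg_right (by linarith [hc.1]) n0'.le
    set F : ℝ → ℝ := fun c' => ((1 - c') * u l + c' * u (l + 1)) * ((1 - c') * v l + c' * v (l + 1))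
      with hF
    have i1 : ∫ y in ((l : ℝ) / n)..((l + c) / n), g y
        ≤ ∫ y in ((l : ℝ) / n)..((l + c) / n), F (n * y - l) := by
      refine intervalIntegral.integral_mono_on ab (gi _ (by rw [e0]; exact mem 0 ⟨le_rfl, zero_le_one⟩)
        _ (mem c hc)) (Continuous.intervalIntegrable (by fun_prop) _ _) fun y hy => ?_
      have hy1 : (l : ℝ) ≤ n * y := by
        have := hy.1
        rw [div_le_iff₀ n0'] at this
        linarith
      have hy2 : n * y ≤ (l : ℝ) + c := by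
        have := hy.2
        rw [le_div_iff₀ n0'] at this
        linarith
      set c' := n * y - l with hc'
      have hc'm : c' ∈ Icc (0 : ℝ) 1 := ⟨by linarith, by linarith [hc.2]⟩
      have hyy : y = ((l : ℝ) + c') / n := by rw [hc']; field_simp; ring
      have m := ms _ (mem c' hc'm)
      have es : t * (((l : ℝ) + c') / n) / t = ((l : ℝ) + c') / n := by field_simp
      have ex : (n : ℝ) * (((l : ℝ) + c') / n) = l + c' := by field_simp
      have a1 := hp _ m
      have a2 := hq _ m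
      rw [es, plx_cell hl _ hc'm.1 hc'm.2 ex] at a1 a2
      have b1 := p0 _ m
      have b2 := q0 _ m
      rw [hyy]
      exact mul_le_mul a1 a2 b2 (b1.trans a1)
    refine i1.trans ?_
    have e2 := intervalIntegral.integral_comp_mul_sub (a := (l : ℝ) / n) (b := (l + c) / n) F
      n0'.ne' (l : ℝ)
    have e3 : (n : ℝ) * (l / n) - l = 0 := by field_simp; ring
    have e4 : (n : ℝ) * ((l + c) / n) - l = c := by field_simp; ring
    rw [e3, e4] at e2
    have e5 : ∀ y : ℝ, F y = u l * v l + ((u (l + 1) - u l) * v l + u l * (v (l + 1) - v l)) * y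
        + ((u (l + 1) - u l) * (v (l + 1) - v l)) * y ^ 2 + 0 * y ^ 3 := fun y => by
      rw [hF]; ring
    rw [e2, smul_eq_mul]
    simp only [e5]
    rw [int_cubic, div_eq_inv_mul (c * bi (u l) (u (l + 1)) (v l) (v (l + 1))
      + 4 * n * E * (c * (1 - c)))]
    refine mul_le_mul_of_nonneg_left ?_ (inv_nonneg.2 n0'.le)
    have h1 := hE l hl
    have c0 : 0 ≤ c * (1 - c) := mul_nonneg hc.1 (sub_nonneg.2 hc.2)
    have h2 := mul_le_mul_of_nonneg_left h1 c0
    have h3 : c * (1 - c) * ((u (l + 1) - u l) * (v (l + 1) - v l) * (1 - 2 * c) / 6)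
        ≤ c * (1 - c) * (|(u (l + 1) - u l) * (v (l + 1) - v l)| / 6) := by
      refine mul_le_mul_of_nonneg_left (div_le_div_of_nonneg_right ?_ (by norm_num)) c0
      set D := (u (l + 1) - u l) * (v (l + 1) - v l)
      calc D * (1 - 2 * c) ≤ |D * (1 - 2 * c)| := le_abs_self _
        _ = |D| * |1 - 2 * c| := abs_mul _ _
        _ ≤ |D| * 1 := mul_le_mul_of_nonneg_left (abs_le.2 ⟨by linarith [hc.2], by linarith [hc.1]⟩)
            (abs_nonneg _)
        _ = _ := mul_one _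
    have h4 : u l * v l * c + ((u (l + 1) - u l) * v l + u l * (v (l + 1) - v l)) * c ^ 2 / 2
        + (u (l + 1) - u l) * (v (l + 1) - v l) * c ^ 3 / 3 + 0 * c ^ 4 / 4
        = c * bi (u l) (u (l + 1)) (v l) (v (l + 1))
          + c * (1 - c) * ((u l * v l - u (l + 1) * v (l + 1)) / 2)
          + c * (1 - c) * ((u (l + 1) - u l) * (v (l + 1) - v l) * (1 - 2 * c) / 6) := by
      unfold bi
      ring
    rw [h4]
    nlinarith
  -- the nodes
  have nodes : ∀ l ≤ n, ∫ y in (0 : ℝ)..((l : ℝ) / n), g y ≤ C l := by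
    intro l
    induction l with
    | zero =>
      intro _
      simpa using C0
    | succ l ih =>
      intro hl
      have hl' : l < n := hl
      have l1 : (l : ℝ) + 1 ≤ n := by exact_mod_cast hl'
      have m1 : (l : ℝ) / n ∈ Icc (0 : ℝ) 1 := ⟨by positivity, by
        rw [div_le_one n0']; linarith⟩
      have m2 : ((l + 1 : ℕ) : ℝ) / n ∈ Icc (0 : ℝ) 1 := ⟨by positivity, by
        rw [div_le_one n0']; push_cast; linarith⟩
      rw [← intervalIntegral.integral_add_adjacent_intervals (gi 0 ⟨le_rfl, zero_le_one⟩ _ m1)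
        (gi _ m1 _ m2)]
      have h1 := cell l hl' 1 ⟨zero_le_one, le_rfl⟩
      have h2 := ih hl'.le
      have h3 := hC l hl'
      rw [sub_self, mul_zero, mul_zero, add_zero, one_mul] at h1
      push_cast
      linarith
  obtain ⟨l, hl, c, c0, c1, hc⟩ := cell_ex n0 hx01.1 hx01.2
  have hxl : x = ((l : ℝ) + c) / n := by rw [← hc]; field_simp
  have l1 : (l : ℝ) + 1 ≤ n := by exact_mod_cast hl
  have m1 : (l : ℝ) / n ∈ Icc (0 : ℝ) 1 := ⟨by positivity, by
    rw [div_le_one n0']; linarith⟩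
  rw [plx_cell hl _ c0 c1 hc, ← intervalIntegral.integral_add_adjacent_intervals
    (gi 0 ⟨le_rfl, zero_le_one⟩ _ m1) (gi _ m1 _ hx01)]
  have h1 := nodes l hl.le
  have h2 := cell l hl c ⟨c0, c1⟩
  rw [← hxl] at h2
  have h3 := hC l hl
  have h4 := mul_le_mul_of_nonneg_left h3 c0
  have h5 := mul_le_mul_of_nonneg_left (hΦ l hl.le) (sub_nonneg.2 c1)
  have h6 := mul_le_mul_of_nonneg_left (hΦ (l + 1) hl) c0
  have h7 : 4 * n * E * (c * (1 - c)) / n ≤ E := by
    rw [show 4 * n * E * (c * (1 - c)) / n = E * (4 * (c * (1 - c))) by field_simp]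
    have : 4 * (c * (1 - c)) ≤ 1 := by nlinarith [sq_nonneg (2 * c - 1)]
    nlinarith
  rw [add_div, mul_div_assoc] at h2
  linarith

end Pool.Agent.RZ.RCO.RT
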