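import Pool.Agent.RZ.RCN.Hm
import Pool.Agent.RZ.RCN.PpA

/-! The inequality of the pairs: rows with weights of the vertices, and linear bounds of the heavy
vertices by the entries (MP_73ccd0_lc, route M). -/

namespace Pool.Agent.RZ.RCN.K

open Set Finset MeasureTheory Pool.Agent.RZ.RCRSHalf Pool.Agent.RZ.RCG Pool.Agent.RZ.RCG.Ct
open Pool.Agent.RZ.RCN.Ker Pool.Agent.RZ.RCRS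

set_option linter.unusedSectionVars false

variable {V : Type*} [Fintype V] [DecidableEq V]
variable {x : V → V → ℝ} {P : V → Prop} [DecidablePred P] {k : Kf} {N : ℕ}
variable {κd : ℝ → ℝ → ℝ → ℝ} {R : V → V → V → ℝ → ℝ → ℝ} {L Lt : V → V → V → V → ℝ → ℝ → ℝ}

/-- the rows, columns and entries of the exponents of the closures in the world of `a`, `b` -/
structure Pw2 (x : V → V → ℝ) (P : V → Prop) [DecidablePred P] (k : Kf) (κd : ℝ → ℝ → ℝ → ℝ)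
    (R : V → V → V → ℝ → ℝ → ℝ) (L Lt : V → V → V → V → ℝ → ℝ → ℝ) (a b : V) (t γ : ℝ)
    (κ0 Fs ρ : ℝ → ℝ) (w : V → ℝ → ℝ) (l1 l2 h1 h2 : ℝ → ℝ → ℝ → ℝ) (S St : ℝ → ℝ)
    (BA BB : ℝ) : Prop where
  γ0 : 0 ≤ γ
  cκ0 : ContinuousOn κ0 (Icc 0 t)
  k0 : ∀ s ∈ Icc 0 t, 0 ≤ κ0 s
  hκ : ∀ w ∈ Icc (0 : ℝ) 1, ∀ s ∈ Icc 0 t, κd w t s ≤ κ0 s * (1 + γ * w)
  cFs : ContinuousOn Fs (Icc 0 t)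
  Fs0 : ∀ s ∈ Icc 0 t, 0 ≤ Fs s
  hF : ∀ d ∈ ({a, b} : Finset V)ᶜ, ∀ s ∈ Icc 0 t,
    ∫ r in (0 : ℝ)..s, fq x P k.fh b d r * κ0 r ≤ Fs s
  cρ : ContinuousOn ρ (Icc 0 t)
  ρ0 : ∀ s ∈ Icc 0 t, 0 ≤ ρ s
  hR : ∀ d, ∀ s ∈ Icc 0 t, R a b d t s ≤ x b d * ρ s
  cw : ∀ d, ContinuousOn (w d) (Icc 0 t)
  w0 : ∀ d, ∀ s ∈ Icc 0 t, 0 < w d s
  cl1 : ∀ y z : ℝ, 0 ≤ y → 0 ≤ z → y + z ≤ 1 → ContinuousOn (l1 y z) (Icc 0 t)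
  cl2 : ∀ y z : ℝ, 0 ≤ y → 0 ≤ z → y + z ≤ 1 → ContinuousOn (l2 y z) (Icc 0 t)
  ch1 : ∀ y z : ℝ, 0 ≤ y → 0 ≤ z → y + z ≤ 1 → ContinuousOn (h1 y z) (Icc 0 t)
  ch2 : ∀ y z : ℝ, 0 ≤ y → 0 ≤ z → y + z ≤ 1 → ContinuousOn (h2 y z) (Icc 0 t)
  r1 : ∀ c ∈ ({a, b} : Finset V)ᶜ, ∀ s ∈ Icc 0 t,
    ∑ d ∈ ({a, b, c} : Finset V)ᶜ, rP P L a b c d t s * (w d s)⁻¹ ≤ l1 (x a c) (x b c) s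
  r2 : ∀ d ∈ ({a, b} : Finset V)ᶜ, ∀ s ∈ Icc 0 t,
    ∑ c ∈ ({a, b, d} : Finset V)ᶜ, rP P L a b c d t s * w d s ≤ l2 (x a d) (x b d) s
  r3 : ∀ c ∈ ({a, b} : Finset V)ᶜ, ∀ s ∈ Icc 0 t,
    ∑ d ∈ ({a, b, c} : Finset V)ᶜ, rP P Lt a b c d t s * (w d s)⁻¹ ≤ h1 (x a c) (x b c) s
  r4 : ∀ d ∈ ({a, b} : Finset V)ᶜ, ∀ s ∈ Icc 0 t,
    ∑ c ∈ ({a, b, d} : Finset V)ᶜ, rP P Lt a b c d t s * w d s ≤ h2 (x a d) (x b d) s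
  pd : ∀ c d, ¬P d → x b d ≠ 0 → ∀ s ∈ Icc 0 t, L a b c d t s = 0 ∧ Lt a b c d t s = 0
  cS : ContinuousOn S (Icc 0 t)
  cSt : ContinuousOn St (Icc 0 t)
  St0 : ∀ s ∈ Icc 0 t, 0 ≤ St s
  eL : ∀ c ∈ ({a, b} : Finset V)ᶜ, ∀ d ∈ ({a, b, c} : Finset V)ᶜ, P c → P d → ∀ s ∈ Icc 0 t,
    L a b c d t s ≤ S s
  eT : ∀ c ∈ ({a, b} : Finset V)ᶜ, ∀ d ∈ ({a, b, c} : Finset V)ᶜ, P c → P d → ∀ s ∈ Icc 0 t,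
    Lt a b c d t s ≤ St s
  eA : ∀ d ∈ ({a, b} : Finset V)ᶜ, ∫ s in (0 : ℝ)..t, fq x P k.fh b d s * κ0 s * S s ≤ BA
  eB : ∫ s in (0 : ℝ)..t, Fs s * (ρ s * St s) ≤ BB
  BA0 : 0 ≤ BA
  BB0 : 0 ≤ BB

end Pool.Agent.RZ.RCN.K
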