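import Pool.Agent.RZ.RCN.PpA

/-! The inequality of the pairs: one side of the walk rate and the inequality of a pair
(MP_73ccd0_lc, route M). -/

namespace Pool.Agent.RZ.RCN.K

open Set Finset MeasureTheory

set_option linter.unusedSectionVars false

variable {V : Type*} [Fintype V] [DecidableEq V]
variable {x : V → V → ℝ} {P : V → Prop} [DecidablePred P] {N : ℕ}

variable {κd : ℝ → ℝ → ℝ → ℝ} {R : V → V → V → ℝ → ℝ → ℝ} {L Lt : V → V → V → V → ℝ → ℝ → ℝ}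
variable {a b : V} {t γ : ℝ} {κ0 Fs ρ : ℝ → ℝ} {w : V → ℝ → ℝ} {l1 l2 h1 h2 : ℝ → ℝ → ℝ → ℝ}
variable {S St : ℝ → ℝ} {BA BB : ℝ}

theorem amgm_w {θ a b w : ℝ} (h : 0 < θ) (hw : 0 < w) :
    a * b ≤ (θ * a ^ 2 * w⁻¹ + θ⁻¹ * b ^ 2 * w) / 2 := by
  have h1 := amgm (a := a) (b := b) (mul_pos h (inv_pos.2 hw))
  have e : (θ * w⁻¹)⁻¹ = θ⁻¹ * w := by rw [mul_inv, inv_inv]
  rw [e] at h1
  linarith

end Pool.Agent.RZ.RCN.K
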