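import Pool.Agent.RZ.RCM.Jen

/-! The concavity of the closure error pays for the amplification, with a bound of the error
(MP_73ccd0_lc, route M). -/

namespace Pool.Agent.RZ.RCM.Jen

open Set

/-- the constant `C` belongs to the mass ratio `m`, for errors at most `β` -/
def CJc (C m β : ℝ) : Prop :=
  ∀ p ∈ Icc (0 : ℝ) 1, m * p ≤ β → 6 - 6 * p + p ^ 2 ≤ C * ((6 - 3 * p) * (1 - m * p))

/-- it is enough to look at `p ≤ p1` -/
theorem cjc_of {C m β p1 : ℝ} (hm : 0 < m) (hp : β ≤ m * p1)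
    (h : ∀ p ∈ Icc (0 : ℝ) p1, 6 - 6 * p + p ^ 2 ≤ C * ((6 - 3 * p) * (1 - m * p))) :
    CJc C m β := fun p h0 h1 => h p ⟨h0.1, le_of_mul_le_mul_left (h1.trans hp) hm⟩

theorem CJc.exp {C m β : ℝ} (h : CJc C m β) {x : ℝ} (hx : 0 ≤ x)
    (hb : m * (1 - Real.exp (-x)) ≤ β) :
    1 - Real.exp (-x) ≤ C * x * (1 - m * (1 - Real.exp (-x))) := by
  have e0 := Real.exp_pos (-x)
  have e1 : Real.exp (-x) ≤ 1 := by rw [Real.exp_le_one_iff]; linarith
  have h1 := pade hx
  have h2 := mul_le_mul_of_nonneg_left (h (1 - Real.exp (-x)) ⟨by linarith, by linarith⟩ hb) hx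
  have h3 : (3 * (1 + Real.exp (-x))) * (1 - Real.exp (-x))
      ≤ (3 * (1 + Real.exp (-x))) * (C * x * (1 - m * (1 - Real.exp (-x)))) := by
    nlinarith
  exact le_of_mul_le_mul_left h3 (by linarith)

/-- **the concavity pays for the amplification**: `E'` is a mass `mu` of errors `1 - e^{-l}` with
the linear form `Lam`, and at most `β M` -/
theorem amp_le_c {C mt β M mu Lam E' : ℝ} (hC : CJc C mt β) (C0 : 0 ≤ C) (β0 : 0 ≤ β)
    (β1 : β < 1) (M0 : 0 < M) (mu0 : 0 ≤ mu) (hmu : mu ≤ mt * M) (Lam0 : 0 ≤ Lam)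
    (hE : ∀ l, 0 ≤ l → E' ≤ mu * (1 - Real.exp (-l)) + Real.exp (-l) * (Lam - mu * l))
    (hβ : E' ≤ β * M) :
    E' < M ∧ E' * M ≤ C * Lam * (M - E') := by
  have hEM : E' < M := by
    have : β * M < 1 * M := mul_lt_mul_of_pos_right β1 M0
    linarith
  rcases eq_or_lt_of_le (mu0.trans hmu) with h0 | h0
  · have hmu' : mu = 0 := le_antisymm (by rw [h0]; exact hmu) mu0
    subst hmu'
    -- the tangent lines far away
    have h1 : E' ≤ 0 := by
      refine le_of_forall_pos_le_add fun ε hε => ?_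
      have h2 : ∃ l : ℝ, 0 ≤ l ∧ Real.exp (-l) * Lam ≤ ε := by
        refine ⟨Lam / ε, div_nonneg Lam0 hε.le, ?_⟩
        have h3 := Real.add_one_le_exp (Lam / ε)
        have e1 : Real.exp (Lam / ε) * Real.exp (-(Lam / ε)) = 1 := by
          rw [← Real.exp_add]; simp
        have e0 := Real.exp_pos (-(Lam / ε))
        have h4 : Lam / ε * Real.exp (-(Lam / ε)) ≤ 1 := by nlinarith
        calc Real.exp (-(Lam / ε)) * Lam = ε * (Lam / ε * Real.exp (-(Lam / ε))) := by
              field_simp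
          _ ≤ ε * 1 := mul_le_mul_of_nonneg_left h4 hε.le
          _ = ε := mul_one ε
      obtain ⟨l, l0, hl⟩ := h2
      have := hE l l0
      rw [zero_mul, zero_mul, sub_zero] at this
      linarith
    refine ⟨hEM, ?_⟩
    have : 0 ≤ C * Lam * (M - E') := mul_nonneg (mul_nonneg C0 Lam0) (by linarith)
    nlinarith
  · have mt0 : 0 < mt := by
      by_contra hneg
      push Not at hneg
      have : mt * M ≤ 0 := mul_nonpos_of_nonpos_of_nonneg hneg M0.le
      linarith
    set μ := mt * M with hμ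
    set x := Lam / μ with hx
    have x0 : 0 ≤ x := div_nonneg Lam0 h0.le
    have e0 := Real.exp_pos (-x)
    have e1 : Real.exp (-x) ≤ 1 := by rw [Real.exp_le_one_iff]; linarith
    have hL : Lam = μ * x := by rw [hx]; field_simp
    refine ⟨hEM, ?_⟩
    rcases le_or_gt (mt * (1 - Real.exp (-x))) β with hb | hb
    · have h1 : E' ≤ μ * (1 - Real.exp (-x)) := by
        have h2 := hE x x0
        have h3 := mul_le_mul_of_nonneg_right hmu (tangent_coef (l := x))
        rw [hL] at h2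
        nlinarith
      have h4 := hC.exp x0 hb
      -- monotone in `E'`
      have h6 : μ * (1 - Real.exp (-x)) * M ≤ C * Lam * (M - μ * (1 - Real.exp (-x))) := by
        rw [hL, hμ]
        have := mul_le_mul_of_nonneg_left h4 (mul_nonneg (mul_nonneg mt0.le M0.le) M0.le)
        nlinarith
      have h7 : E' * M ≤ μ * (1 - Real.exp (-x)) * M := mul_le_mul_of_nonneg_right h1 M0.le
      have h8 : C * Lam * (M - μ * (1 - Real.exp (-x))) ≤ C * Lam * (M - E') :=
        mul_le_mul_of_nonneg_left (by linarith) (mul_nonneg C0 Lam0)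
      linarith
    · -- the bound of the error
      set p := β / mt with hp
      have p0 : 0 ≤ p := div_nonneg β0 mt0.le
      have hmp : mt * p = β := by rw [hp]; field_simp
      have hpx : p < 1 - Real.exp (-x) := by
        have : mt * p < mt * (1 - Real.exp (-x)) := by rw [hmp]; exact hb
        exact lt_of_mul_lt_mul_left this mt0.le
      have p1 : 0 < 1 - p := by linarith
      set y := -Real.log (1 - p) with hy
      have ey : Real.exp (-y) = 1 - p := by rw [hy, neg_neg, Real.exp_log p1]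
      have y0 : 0 ≤ y := by
        have : Real.log (1 - p) ≤ 0 := Real.log_nonpos p1.le (by linarith)
        rw [hy]; linarith
      have hyx : y ≤ x := by
        have h1 : Real.exp (-x) ≤ Real.exp (-y) := by rw [ey]; linarith
        have h2 := Real.exp_le_exp.1 h1
        linarith
      have h4 := hC.exp y0 (by rw [ey]; linarith [hmp.le])
      rw [ey] at h4
      have e2 : 1 - (1 - p) = p := by ring
      rw [e2, hmp] at h4
      have h5 : E' * M ≤ β * M * M := mul_le_mul_of_nonneg_right hβ M0.le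
      have h6 : β * M * M = mt * M * M * p := by rw [← hmp]; ring
      have h7 : mt * M * M * p ≤ mt * M * M * (C * y * (1 - β)) :=
        mul_le_mul_of_nonneg_left h4 (mul_nonneg (mul_nonneg mt0.le M0.le) M0.le)
      have h8 : mt * M * M * (C * y * (1 - β)) ≤ mt * M * M * (C * x * (1 - β)) := by
        refine mul_le_mul_of_nonneg_left ?_ (mul_nonneg (mul_nonneg mt0.le M0.le) M0.le)
        exact mul_le_mul_of_nonneg_right (mul_le_mul_of_nonneg_left hyx C0) (by linarith)
      have h9 : mt * M * M * (C * x * (1 - β)) = C * Lam * (M - β * M) := by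
        rw [hL, hμ]; ring
      have h10 : C * Lam * (M - β * M) ≤ C * Lam * (M - E') :=
        mul_le_mul_of_nonneg_left (by linarith) (mul_nonneg C0 Lam0)
      linarith

/-- **the amplified error**: `e ≤ e0 + E'`, `mb` the majorant of the flux of the pair -/
theorem amp_bound_c {C mt β mb e0 mu Lam E' e : ℝ} (hC : CJc C mt β) (C0 : 0 ≤ C)
    (β0 : 0 ≤ β) (β1 : β < 1) (mb0 : 0 ≤ mb) (e00 : 0 ≤ e0) (hM : mb + e0 < 1)
    (mu0 : 0 ≤ mu) (hmu : mu ≤ mt * (1 - mb - e0)) (Lam0 : 0 ≤ Lam)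
    (hE : ∀ l, 0 ≤ l → E' ≤ mu * (1 - Real.exp (-l)) + Real.exp (-l) * (Lam - mu * l))
    (hβ : E' ≤ β * (1 - mb - e0)) (he0 : 0 ≤ e) (he : e ≤ e0 + E') :
    e * ((1 - mb) * (1 - mb - e))⁻¹
      ≤ e0 / ((1 - mb) * (1 - mb - e0)) + C * Lam / (1 - mb - e0) ^ 2 := by
  set M := 1 - mb - e0 with hMd
  have M0 : 0 < M := by rw [hMd]; linarith
  obtain ⟨h1, h2⟩ := amp_le_c hC C0 β0 β1 M0 mu0 hmu Lam0 hE hβ
  have h3 : 0 < 1 - mb - e := by linarith
  have h4 : 0 < 1 - mb := by linarith
  have h5 : 0 < M - E' := by linarith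
  -- monotone in `e`
  have h6 : e * ((1 - mb) * (1 - mb - e))⁻¹ ≤ (e0 + E') * ((1 - mb) * (M - E'))⁻¹ := by
    rw [← div_eq_mul_inv, ← div_eq_mul_inv]
    rw [div_le_div_iff₀ (mul_pos h4 h3) (mul_pos h4 h5)]
    have : e * (M - E') ≤ (e0 + E') * (1 - mb - e) := by
      rw [hMd]
      nlinarith
    nlinarith
  refine h6.trans ?_
  rw [← div_eq_mul_inv]
  have hCL : 0 ≤ C * Lam := mul_nonneg C0 Lam0
  have k1 : E' / (M - E') ≤ C * Lam / M := by
    rw [div_le_div_iff₀ h5 M0]
    linarith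
  have k2 : (e0 + E') / ((1 - mb) * (M - E'))
      = (1 / (1 - mb)) * (e0 / M + (e0 / M + 1) * (E' / (M - E'))) := by
    field_simp
    ring
  have k3 : 1 - mb = M + e0 := by rw [hMd]; ring
  rw [k2]
  have k4 : (1 / (1 - mb)) * (e0 / M + (e0 / M + 1) * (E' / (M - E')))
      ≤ (1 / (1 - mb)) * (e0 / M + (e0 / M + 1) * (C * Lam / M)) := by
    refine mul_le_mul_of_nonneg_left ?_ (by positivity)
    have : 0 ≤ e0 / M + 1 := by positivity
    have := mul_le_mul_of_nonneg_left k1 this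
    linarith
  refine k4.trans (le_of_eq ?_)
  rw [k3]
  have : M + e0 ≠ 0 := by positivity
  field_simp
  ring

end Pool.Agent.RZ.RCM.Jen
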