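import Pool.Agent.RZ.RCN.Jn
import Pool.Agent.RZ.RCN.PpA
import Pool.Agent.RZ.RCN.T1A
import Pool.Agent.RZ.RCO.PJenC
import Pool.Agent.RZ.RCO.Pw0

/-! The amplified error of the pairs, with the mass ratio and the linear error of the weights
(MP_73ccd0_lc, route M). -/

set_option autoImplicit false

namespace Pool.Agent.RZ.RCN.K.P3

open Set Finset MeasureTheory Pool.Agent.RZ.RCN.K Pool.Agent.RZ.RCRSHalf Pool.Agent.RZ.RCG Pool.Agent.RZ.RCG.Ct
open Pool.Agent.RZ.RCN.Ker Pool.Agent.RZ.RCRS Pool.Agent.RZ.RCM.Jen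

set_option linter.unusedSectionVars false

/-- the error is at most the mass of the capped errors -/
theorem E_cap {mt M mu Lam E' X p1 : ℝ} (mt0 : 0 ≤ mt) (M0 : 0 ≤ M) (hmu : mu ≤ mt * M)
    (hE : ∀ l, 0 ≤ l → E' ≤ mu * (1 - Real.exp (-l)) + Real.exp (-l) * (Lam - mu * l))
    (hL : Lam ≤ mt * X * M) (X0 : 0 ≤ X) (hp : 1 - Real.exp (-X) ≤ p1) : E' ≤ mt * p1 * M := by
  have h1 := hE X X0
  have e0 := Real.exp_pos (-X)
  have h2 := mul_le_mul_of_nonneg_right hmu (tangent_coef (l := X))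
  have h3 := mul_le_mul_of_nonneg_left hL e0.le
  have h4 := mul_le_mul_of_nonneg_left hp (mul_nonneg mt0 M0)
  nlinarith

variable {V : Type*} [Fintype V] [DecidableEq V]
variable {x : V → V → ℝ} {P : V → Prop} [DecidablePred P] {k : Kf} {N : ℕ}
variable {κd : ℝ → ℝ → ℝ → ℝ} {R : V → V → V → ℝ → ℝ → ℝ} {L Lt : V → V → V → V → ℝ → ℝ → ℝ}

/-- **the amplified error of one side**, with a bound of the linear error -/
theorem em_amp_3 {C mt X p1 : ℝ} (hf : Lf N k κd R L Lt) (hx : Wt x P 1) (hk : k.Ok)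
    (hfc : ∀ y ∈ Icc (0 : ℝ) 1, ContinuousOn (k.fh y) (Icc 0 1))
    (cPe : ∀ w, ContinuousOn (k.Pe w) (Icc 0 1)) (hC : CJc C mt (mt * p1)) (C0 : 0 ≤ C)
    (mt0 : 0 ≤ mt) (p0 : 0 ≤ p1) (X0 : 0 ≤ X) (hp : 1 - Real.exp (-X) ≤ p1)
    (β1 : mt * p1 < 1)
    (a : V) {b c : V} (hbc : b ≠ c) {t : ℝ} (ht : t ∈ Icc (0 : ℝ) 1) {m e : ℝ} (m0 : 0 ≤ m)
    (hM : m + e0L x P k κd a b c t < 1)
    (hmu : muL x P k κd a b c t t ≤ mt * (1 - m - e0L x P k κd a b c t))
    (hL : LamL x P k κd R L Lt a b c t ≤ mt * X * (1 - m - e0L x P k κd a b c t)) (he0 : 0 ≤ e)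
    (he : e ≤ (xdOf x κd R L Lt).E x P k a b c t) :
    e * ((1 - m) * (1 - m - e))⁻¹
      ≤ e0L x P k κd a b c t / ((1 - m) * (1 - m - e0L x P k κd a b c t))
        + C * LamL x P k κd R L Lt a b c t / (1 - m - e0L x P k κd a b c t) ^ 2 := by
  have hE : ∀ l, 0 ≤ l → (xdOf x κd R L Lt).E x P k a b c t - e0L x P k κd a b c t
      ≤ muL x P k κd a b c t t * (1 - Real.exp (-l))
        + Real.exp (-l) * (LamL x P k κd R L Lt a b c t - muL x P k κd a b c t t * l) :=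
    fun l hl => by
      have := E_le_tan hf hx hk hfc cPe a b c ht hl
      linarith
  refine amp_bound_c (E' := (xdOf x κd R L Lt).E x P k a b c t - e0L x P k κd a b c t) hC C0
    (mul_nonneg mt0 p0) β1
    m0 (e0L_nonneg hf hx hk a hbc ht) hM (muL_nonneg hf hx hk a b c ht.1 le_rfl ht.2) hmu
    (LamL_nonneg hf hx hk a b c ht) hE ?_ he0 (by linarith)
  exact E_cap mt0 (by linarith) hmu hE hL X0 hp

/-- the weights of the real pairs are at most `xmQ` -/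
def Xc (x : V → V → ℝ) (P : V → Prop) : Prop := ∀ a b, P a → P b → x a b ≤ xmQ

theorem Xc.of {x : V → V → ℝ} {P : V → Prop} {d : ℝ} (h : Wt x P d) : Xc x P :=
  fun a b _ _ => (h.leX a b).trans (le_of_eq xm_cast.symm)

/-- the bound of the masses -/
noncomputable def Mq (γ u z : ℝ) : ℝ := (1 + γ * (u + xmQ)) * (1 - u - z)

theorem Mq_nonneg {γ u z : ℝ} (γ0 : 0 ≤ γ) (u0 : 0 ≤ u) (huz : u + z ≤ 1) : 0 ≤ Mq γ u z := by
  have h1 := mul_nonneg γ0 (add_nonneg u0 xm0.le)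
  exact mul_nonneg (by linarith) (by linarith)

/-- the products of the weights -/
theorem xx_le (hx : Wt x P 1) (hX : Xc x P) {a b : V} (ha : P a) (hab : a ≠ b) (d : V) :
    x b d * x a d ≤ xmQ * x b d := by
  by_cases hd : P d
  · have := mul_le_mul_of_nonneg_left (hX a d ha hd) (hx.nonneg b d)
    linarith
  · by_cases h : x b d = 0
    · rw [h, zero_mul, mul_zero]
    · have h2 : x a d = 0 := by
        by_contra h3
        exact hab (hx.pend1 b d a hd h (by rwa [hx.symm d a]))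
      rw [h2, mul_zero]
      exact mul_nonneg xm0.le (hx.nonneg b d)

/-- the domain of the weights -/
structure Dw (u y z : ℝ) : Prop where
  u0 : 0 ≤ u
  y0 : 0 ≤ y
  z0 : 0 ≤ z
  um : u ≤ xmQ
  ym : y ≤ xmQ
  zm : z ≤ xmQ

theorem Dw.swap {u y z : ℝ} (h : Dw u y z) : Dw u z y := ⟨h.u0, h.z0, h.y0, h.um, h.zm, h.ym⟩

theorem Dw.of (hx : Wt x P 1) (hX : Xc x P) {a b c : V} (ha : P a) (hb : P b) (hc : P c) :
    Dw (x a b) (x a c) (x b c) :=
  ⟨hx.nonneg _ _, hx.nonneg _ _, hx.nonneg _ _, hX _ _ ha hb, hX _ _ ha hc, hX _ _ hb hc⟩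

/-- the scalars of the pairs at the time `t` -/
structure Ps3 (k : Kf) (κd : ℝ → ℝ → ℝ → ℝ) (A : ℝ → ℝ → ℝ) (t α γ mt X p1 C e1 Λ : ℝ) :
    Prop where
  A1 : ∀ w ∈ Icc (0 : ℝ) 1, A w t ≤ α * (1 + γ * w)
  α0 : 0 < α
  γ0 : 0 ≤ γ
  γ1 : γ ≤ 1
  q1 : xmQ * (α * (1 + γ * (2 * xmQ))) < 1
  m1 : α * (1 + γ * xmQ) ≤ mt
  m2 : mt ≤ 1
  L : Λ ≤ α * X
  Λ0 : 0 ≤ Λ
  p0 : 0 ≤ p1
  p : 1 - Real.exp (-X) ≤ p1
  β1 : mt * p1 < 1
  cj : CJc C mt (mt * p1)
  C0 : 0 ≤ C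
  ε : ∀ z ∈ Icc (0 : ℝ) 1, ∀ w ∈ Icc (0 : ℝ) 1,
    ∫ s in (0 : ℝ)..t, k.fh z s * (κd w t s - k.Pe w t) ≤ e1 * (1 + γ * w)
  e0 : 0 ≤ e1

/-- the mass ratio -/
theorem Mq_le {α γ mt u y z : ℝ} (α0 : 0 < α) (γ0 : 0 ≤ γ) (γ1 : γ ≤ 1)
    (m1 : α * (1 + γ * xmQ) ≤ mt) (m2 : mt ≤ 1) (hD : Dw u y z) :
    α * Mq γ u z ≤ mt * (1 - z * (α * (1 + γ * (u + y)))) := by
  have x0 := xm0
  have u0 := hD.u0
  have z0 := hD.z0
  set w := 1 + γ * (u + xmQ) with hw
  have w0 : 0 ≤ w := by have := mul_nonneg γ0 (add_nonneg u0 x0.le); linarith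
  -- `w (1 - u) ≤ 1 + γ xm`
  have h1 : w * (1 - u) ≤ 1 + γ * xmQ := by
    have a1 : 0 ≤ u * (1 - γ) := mul_nonneg u0 (by linarith)
    have a2 : 0 ≤ γ * (u * (u + xmQ)) := mul_nonneg γ0 (mul_nonneg u0 (by linarith))
    rw [hw]
    nlinarith
  have h2 : α * (w * (1 - u)) ≤ mt := (mul_le_mul_of_nonneg_left h1 α0.le).trans m1
  -- the amplification argument
  have h3 : z * (α * (1 + γ * (u + y))) ≤ z * (α * w) := by
    refine mul_le_mul_of_nonneg_left (mul_le_mul_of_nonneg_left ?_ α0.le) z0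
    have := mul_le_mul_of_nonneg_left (add_le_add_right hD.ym u) γ0
    rw [hw]
    linarith
  have mt0 : 0 ≤ mt := le_trans (mul_nonneg α0.le (by
    have := mul_nonneg γ0 x0.le
    linarith)) m1
  have h4 : mt * (1 - z * (α * w)) ≤ mt * (1 - z * (α * (1 + γ * (u + y)))) :=
    mul_le_mul_of_nonneg_left (by linarith) mt0
  refine le_trans ?_ h4
  have h5 : 0 ≤ z * (α * w) * (1 - mt) :=
    mul_nonneg (mul_nonneg z0 (mul_nonneg α0.le w0)) (by linarith)
  unfold Mq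
  rw [← hw]
  nlinarith

/-- the mass of the fluxes -/
theorem muL_leX (hf : Lf N k κd R L Lt) (hx : Wt x P 1) (hX : Xc x P)
    (hfc : ∀ y ∈ Icc (0 : ℝ) 1, ContinuousOn (k.fh y) (Icc 0 1)) {A : ℝ → ℝ → ℝ}
    (hA : Ab k κd A) {t : ℝ} (ht : t ∈ Icc (0 : ℝ) 1) {α γ : ℝ}
    (hα : ∀ w ∈ Icc (0 : ℝ) 1, A w t ≤ α * (1 + γ * w)) (α0 : 0 ≤ α) (γ0 : 0 ≤ γ)
    {a b c : V} (ha : P a) (hab : a ≠ b) (hac : a ≠ c) :
    muL x P k κd a b c t t ≤ α * Mq γ (x a b) (x b c) := by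
  have cfq : ∀ d, ContinuousOn (fq x P k.fh b d) (Icc 0 t) := fun d =>
    (fq_cont' hfc hx b d).mono (Icc_subset_Icc_right ht.2)
  have m0 : (0 : ℝ) ∈ Icc 0 t := ⟨le_rfl, ht.1⟩
  have mt : t ∈ Icc 0 t := ⟨ht.1, le_rfl⟩
  have h1 : muL x P k κd a b c t t = ∑ d ∈ ({a, b, c} : Finset V)ᶜ, x b d
      * ∫ s in (0 : ℝ)..t, fq x P k.fh b d s * κd (x a b + x a d) t s := by
    unfold muL
    rw [intervalIntegral.integral_finsetSum]
    · refine Finset.sum_congr rfl fun d _ => ?_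
      rw [← intervalIntegral.integral_const_mul]
      refine intervalIntegral.integral_congr fun s _ => ?_
      unfold flx
      ring
    · intro d _
      exact ii_of ht.1 (flx_slice hf hx hfc a b d ht) m0 mt
  have h2 : ∀ d ∈ ({a, b, c} : Finset V)ᶜ, x b d
      * (∫ s in (0 : ℝ)..t, fq x P k.fh b d s * κd (x a b + x a d) t s)
      ≤ α * ((1 + γ * (x a b + xmQ)) * x b d) := by
    intro d hd
    rw [mem3] at hd
    have hw := two_mem hx a (Ne.symm hd.2.1)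
    have i1 : (∫ s in (0 : ℝ)..t, fq x P k.fh b d s * κd (x a b + x a d) t s)
        ≤ A (x a b + x a d) t := by
      by_cases hP : P d
      · have e : ∀ s, fq x P k.fh b d s = k.fh (x b d) s := fun s => by
          unfold fq; rw [if_pos hP]
        simp only [e]
        exact hA.fh _ hw _ (x_mem hx b d) t ht
      · have e : ∀ s, fq x P k.fh b d s = qq s := fun s => by
          unfold fq; rw [if_neg hP]
        simp only [e]
        exact hA.qq _ hw t ht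
    have i2 := mul_le_mul_of_nonneg_left (i1.trans (hα _ hw)) (hx.nonneg b d)
    have i3 := mul_le_mul_of_nonneg_left (xx_le hx hX ha hab d) (mul_nonneg α0 γ0)
    refine i2.trans ?_
    nlinarith
  rw [h1]
  refine (Finset.sum_le_sum h2).trans ?_
  rw [← Finset.mul_sum, ← Finset.mul_sum]
  refine mul_le_mul_of_nonneg_left ?_ α0
  have r1 := row_two hx b (a := a) (c := c) hac (({a, b, c} : Finset V)ᶜ) fun d hd => by
    rw [mem3] at hd; exact ⟨hd.1, hd.2.2⟩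
  rw [hx.symm b a] at r1
  unfold Mq
  refine mul_le_mul_of_nonneg_left r1 ?_
  have := mul_nonneg γ0 (add_nonneg (hx.nonneg a b) xm0.le)
  linarith

/-- **one entry** -/
theorem em_P3 {A : ℝ → ℝ → ℝ} {t α γ mt X p1 C e1 Λ : ℝ} {a b c : V}
    (hs : Ps3 k κd A t α γ mt X p1 C e1 Λ)
    (hf : Lf N k κd R L Lt) (hx : Wt x P 1) (hX : Xc x P) (hk : k.Ok)
    (hfc : ∀ y ∈ Icc (0 : ℝ) 1, ContinuousOn (k.fh y) (Icc 0 1))
    (cPe : ∀ w, ContinuousOn (k.Pe w) (Icc 0 1)) (hA : Ab k κd A) (ht : t ∈ Icc (0 : ℝ) 1)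
    (ha : P a) (hb : P b) (hab : a ≠ b) (hac : a ≠ c) (hbc : b ≠ c)
    (hΛB : P c → LamL x P k κd R L Lt a b c t ≤ Λ * Mq γ (x a b) (x b c)) :
    emin ((xdOf x κd R L Lt).E x P k) P a b c t
        * amp k.mb ((xdOf x κd R L Lt).E x P k) x P a b c t
      ≤ psf α γ (x b c) (x a b + x a c) * (x b c * (e1 * (1 + γ * (x a b + x a c)))
        + C * LamL x P k κd R L Lt a b c t) := by
  have hΛ := LamL_nonneg (R := R) (L := L) (Lt := Lt) hf hx hk a b c ht
  have z0 := hx.nonneg b c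
  have hw := two_mem hx a hbc
  have w0 : 0 ≤ e1 * (1 + γ * (x a b + x a c)) :=
    mul_nonneg hs.e0 (by have := mul_nonneg hs.γ0 hw.1; linarith)
  have hr : 0 ≤ x b c * (e1 * (1 + γ * (x a b + x a c))) + C * LamL x P k κd R L Lt a b c t :=
    add_nonneg (mul_nonneg z0 w0) (mul_nonneg hs.C0 hΛ)
  by_cases hc : P c
  · have q1 : ∀ {u v : V}, P u → P v → xr x P u v = x u v := fun hu hv => by
      unfold xr; rw [if_pos ⟨hu, hv⟩]
    have hz := x_mem hx b c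
    have e0 := e0L_nonneg hf hx hk a hbc ht
    have y0 := hx.nonneg a c
    have hD : Dw (x a b) (x a c) (x b c) := Dw.of hx hX ha hb hc
    have i1 : xr x P a b + xr x P a c ≤ 1 := xr_add_le hx hbc
    have m0 : 0 ≤ k.mb (xr x P a b) (xr x P a c) (xr x P b c) t :=
      hk.mb_nonneg (xmem1 hx a b) (xmem1 hx a c) (xmem1 hx b c) i1 ht
    have ee : ∀ s, fq x P k.fh b c s = k.fh (x b c) s := fun s => by
      unfold fq; rw [if_pos hc]
    have hm' : k.mb (xr x P a b) (xr x P a c) (xr x P b c) t + e0L x P k κd a b c t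
        ≤ x b c * (α * (1 + γ * (x a b + x a c))) := by
      have j1 := mul_le_mul_of_nonneg_left ((hA.fi _ hw _ hz t ht).trans (hs.A1 _ hw)) z0
      rw [q1 ha hb, q1 ha hc, q1 hb hc]
      unfold e0L Kf.mb
      simp only [ee]
      calc _ = x b c * (k.Pe (x a b + x a c) t * k.fi (x b c) t
            + ∫ s in (0 : ℝ)..t, k.fh (x b c) s
              * (κd (x a b + x a c) t s - k.Pe (x a b + x a c) t)) := by ring
        _ ≤ _ := j1
    set m := k.mb (xr x P a b) (xr x P a c) (xr x P b c) t with hmdef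
    set e := e0L x P k κd a b c t with hedef
    -- the argument of the amplification
    have x0 := xm0
    have g2 : x b c * (α * (1 + γ * (x a b + x a c))) ≤ xmQ * (α * (1 + γ * (2 * xmQ))) := by
      have h1 : 1 + γ * (x a b + x a c) ≤ 1 + γ * (2 * xmQ) := by
        have := mul_le_mul_of_nonneg_left (add_le_add hD.um hD.ym) hs.γ0
        linarith
      have h0 : 0 ≤ 1 + γ * (x a b + x a c) := by
        have := mul_nonneg hs.γ0 hw.1
        linarith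
      exact mul_le_mul hD.zm (mul_le_mul_of_nonneg_left h1 hs.α0.le)
        (mul_nonneg hs.α0.le h0) x0.le
    have mt0 : 0 ≤ mt := le_trans (mul_nonneg hs.α0.le (by
      have := mul_nonneg hs.γ0 x0.le
      linarith)) hs.m1
    have X0 : 0 ≤ X := by
      have := hs.Λ0.trans hs.L
      exact nonneg_of_mul_nonneg_right this hs.α0
    have g6 : 0 < 1 - x b c * (α * (1 + γ * (x a b + x a c))) := by linarith [hs.q1]
    have hM : m + e < 1 := by linarith [hs.q1]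
    have hMq := Mq_le hs.α0 hs.γ0 hs.γ1 hs.m1 hs.m2 hD
    have hmu : muL x P k κd a b c t t ≤ mt * (1 - m - e) :=
      (muL_leX hf hx hX hfc hA ht hs.A1 hs.α0.le hs.γ0 ha hab hac).trans (hMq.trans
        (mul_le_mul_of_nonneg_left (show _ ≤ 1 - m - e by linarith) mt0))
    have Mq0 : 0 ≤ Mq γ (x a b) (x b c) := by
      refine Mq_nonneg hs.γ0 (hx.nonneg a b) ?_
      have := xm2
      linarith [hD.um, hD.zm]
    have hLβ : LamL x P k κd R L Lt a b c t ≤ mt * X * (1 - m - e) := by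
      have h1 := (hΛB hc).trans (mul_le_mul_of_nonneg_right hs.L Mq0)
      have h2 := mul_le_mul_of_nonneg_left (hMq.trans
        (mul_le_mul_of_nonneg_left (show _ ≤ 1 - m - e by linarith) mt0)) X0
      linarith
    have hE0 : 0 ≤ (xdOf x κd R L Lt).E x P k a b c t := E_nonneg' hf hx hk a hbc ht
    have hE0' : 0 ≤ (xdOf x κd R L Lt).E x P k a c b t := E_nonneg' hf hx hk a hbc.symm ht
    have he0 : 0 ≤ emin ((xdOf x κd R L Lt).E x P k) P a b c t := by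
      unfold emin
      rw [if_pos hc]
      exact le_min hE0 hE0'
    have he1 : emin ((xdOf x κd R L Lt).E x P k) P a b c t
        ≤ (xdOf x κd R L Lt).E x P k a b c t := by
      unfold emin
      rw [if_pos hc]
      exact min_le_left _ _
    have key := em_amp_3 hf hx hk hfc cPe hs.cj hs.C0 mt0 hs.p0 X0 hs.p
      hs.β1 a hbc ht m0 hM
      hmu hLβ he0 he1
    have p1 : 0 < 1 - m - e := by linarith
    have p0 : 0 < (1 - x b c * (α * (1 + γ * (x a b + x a c)))) ^ 2 := by positivity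
    have d3 : (1 - x b c * (α * (1 + γ * (x a b + x a c)))) ^ 2 ≤ (1 - m - e) ^ 2 :=
      pow_le_pow_left₀ g6.le (by linarith) 2
    have d1 : (1 - m - e) ^ 2 ≤ (1 - m) * (1 - m - e) := by
      have : 0 ≤ e * (1 - m - e) := mul_nonneg e0 p1.le
      nlinarith
    have d2 : e ≤ x b c * (e1 * (1 + γ * (x a b + x a c))) := by
      rw [hedef]
      unfold e0L
      simp only [ee]
      exact mul_le_mul_of_nonneg_left (hs.ε _ hz _ hw) z0
    unfold amp
    refine key.trans ?_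
    have s1 : e / ((1 - m) * (1 - m - e))
        ≤ psf α γ (x b c) (x a b + x a c) * (x b c * (e1 * (1 + γ * (x a b + x a c)))) := by
      unfold psf
      rw [inv_mul_eq_div]
      exact div_le_div₀ (mul_nonneg z0 w0) d2 p0 (d3.trans d1)
    have s2 : C * LamL x P k κd R L Lt a b c t / (1 - m - e) ^ 2
        ≤ psf α γ (x b c) (x a b + x a c) * (C * LamL x P k κd R L Lt a b c t) := by
      unfold psf
      rw [inv_mul_eq_div]
      exact div_le_div₀ (mul_nonneg hs.C0 hΛ) le_rfl p0 d3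
    linarith
  · have : emin ((xdOf x κd R L Lt).E x P k) P a b c t = 0 := by
      unfold emin; rw [if_neg hc]
    rw [this, zero_mul]
    exact mul_nonneg (psf_nonneg _ _ _ _) hr

/-- the mass of the fluxes up to `s`, by the weights -/
theorem muL_leQ (hf : Lf N k κd R L Lt) (hx : Wt x P 1) (hk : k.Ok)
    (hfc : ∀ y ∈ Icc (0 : ℝ) 1, ContinuousOn (k.fh y) (Icc 0 1)) {t : ℝ}
    (ht : t ∈ Icc (0 : ℝ) 1) {γ : ℝ} (γ0 : 0 ≤ γ) {κ0 Fs : ℝ → ℝ}
    (cκ0 : ContinuousOn κ0 (Icc 0 t))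
    (hκ : ∀ w ∈ Icc (0 : ℝ) 1, ∀ s ∈ Icc 0 t, κd w t s ≤ κ0 s * (1 + γ * w))
    {a b c : V} (hbc : b ≠ c)
    (hF : ∀ d ∈ ({a, b} : Finset V)ᶜ, ∀ s ∈ Icc 0 t,
      ∫ r in (0 : ℝ)..s, fq x P k.fh b d r * κ0 r ≤ Fs s) {s : ℝ} (hs : s ∈ Icc 0 t) :
    muL x P k κd a b c t s
      ≤ (∑ d ∈ ({a, b, c} : Finset V)ᶜ, x b d * (1 + γ * (x a b + x a d))) * Fs s := by
  have cfq : ∀ d, ContinuousOn (fq x P k.fh b d) (Icc 0 t) := fun d =>
    (fq_cont' hfc hx b d).mono (Icc_subset_Icc_right ht.2)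
  have m0 : (0 : ℝ) ∈ Icc 0 t := ⟨le_rfl, ht.1⟩
  have hq : ∀ d, ∀ r ∈ Icc 0 t, 0 ≤ fq x P k.fh b d r := fun d r hr =>
    fq_nonneg' hk hx b d ⟨hr.1, hr.2.trans ht.2⟩
  have h1 : muL x P k κd a b c t s = ∑ d ∈ ({a, b, c} : Finset V)ᶜ,
      ∫ r in (0 : ℝ)..s, flx x P k κd a b d t r := by
    unfold muL
    rw [intervalIntegral.integral_finsetSum fun d _ =>
      ii_of ht.1 (flx_slice hf hx hfc a b d ht) m0 hs]
  rw [h1, Finset.sum_mul]
  refine Finset.sum_le_sum fun d hd' => ?_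
  rw [mem3] at hd'
  have hd : d ∈ ({a, b} : Finset V)ᶜ := mem2.2 ⟨hd'.1, hd'.2.1⟩
  have hw := two_mem hx a (Ne.symm hd'.2.1)
  have v0 := hx.nonneg b d
  have i0 : ∫ r in (0 : ℝ)..s, flx x P k κd a b d t r
      ≤ ∫ r in (0 : ℝ)..s, (x b d * (1 + γ * (x a b + x a d)))
        * (fq x P k.fh b d r * κ0 r) := by
    refine intervalIntegral.integral_mono_on hs.1
      (ii_of ht.1 (flx_slice hf hx hfc a b d ht) m0 hs)
      (ii_of ht.1 (continuousOn_const.mul ((cfq d).mul cκ0)) m0 hs) fun r hr => ?_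
    have hr' : r ∈ Icc 0 t := ⟨hr.1, hr.2.trans hs.2⟩
    unfold flx
    have := mul_le_mul_of_nonneg_left (hκ _ hw r hr') (mul_nonneg v0 (hq d r hr'))
    calc _ ≤ x b d * fq x P k.fh b d r * (κ0 r * (1 + γ * (x a b + x a d))) := this
      _ = _ := by ring
  rw [intervalIntegral.integral_const_mul] at i0
  have g0 : 0 ≤ x b d * (1 + γ * (x a b + x a d)) :=
    mul_nonneg v0 (by have := mul_nonneg γ0 hw.1; linarith)
  exact i0.trans (mul_le_mul_of_nonneg_left (hF d hd s hs) g0)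

end Pool.Agent.RZ.RCN.K.P3
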