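import Pool.Agent.RZ.RCN.T1B
import Pool.Agent.RZ.RCO.PwA

/-! The inequality of the pairs: rows with weights of the vertices, and linear bounds of the heavy
vertices by the entries (MP_73ccd0_lc, route M). -/

namespace Pool.Agent.RZ.RCN.K.P3

open Set Finset MeasureTheory Pool.Agent.RZ.RCN.K Pool.Agent.RZ.RCRSHalf Pool.Agent.RZ.RCG Pool.Agent.RZ.RCG.Ct
open Pool.Agent.RZ.RCN.Ker Pool.Agent.RZ.RCRS Pool.Agent.RZ.RCM.Jen

set_option linter.unusedSectionVars false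

variable {V : Type*} [Fintype V] [DecidableEq V]
variable {x : V → V → ℝ} {P : V → Prop} [DecidablePred P] {k : Kf} {N : ℕ}
variable {κd : ℝ → ℝ → ℝ → ℝ} {R : V → V → V → ℝ → ℝ → ℝ} {L Lt : V → V → V → V → ℝ → ℝ → ℝ}

/-- the rows, columns and entries of the exponents of the closures in the world of `a`, `b` -/
structure Pw2 (x : V → V → ℝ) (P : V → Prop) [DecidablePred P] (k : Kf) (κd : ℝ → ℝ → ℝ → ℝ)
    (R : V → V → V → ℝ → ℝ → ℝ) (L Lt : V → V → V → V → ℝ → ℝ → ℝ) (a b : V) (t γ : ℝ)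
    (κ0 Fs : ℝ → ℝ) (ρ : ℝ → ℝ → ℝ) (w : V → ℝ → ℝ) (l1 l2 h1 h2 : ℝ → ℝ → ℝ → ℝ) : Prop where
  γ0 : 0 ≤ γ
  cκ0 : ContinuousOn κ0 (Icc 0 t)
  k0 : ∀ s ∈ Icc 0 t, 0 ≤ κ0 s
  hκ : ∀ w ∈ Icc (0 : ℝ) 1, ∀ s ∈ Icc 0 t, κd w t s ≤ κ0 s * (1 + γ * w)
  cFs : ContinuousOn Fs (Icc 0 t)
  Fs0 : ∀ s ∈ Icc 0 t, 0 ≤ Fs s
  hF : ∀ d ∈ ({a, b} : Finset V)ᶜ, ∀ s ∈ Icc 0 t,
    ∫ r in (0 : ℝ)..s, fq x P k.fh b d r * κ0 r ≤ Fs s
  cρ : ∀ z ∈ Icc (0 : ℝ) 1, ContinuousOn (ρ z) (Icc 0 t)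
  ρ0 : ∀ z ∈ Icc (0 : ℝ) 1, ∀ s ∈ Icc 0 t, 0 ≤ ρ z s
  hR : ∀ d, P d → ∀ s ∈ Icc 0 t, R a b d t s ≤ x b d * ρ (x b d) s
  hR0 : ∀ d, x b d = 0 → ∀ s ∈ Icc 0 t, R a b d t s ≤ 0
  cw : ∀ d, ContinuousOn (w d) (Icc 0 t)
  w0 : ∀ d, ∀ s ∈ Icc 0 t, 0 < w d s
  cl1 : ∀ y z : ℝ, 0 ≤ y → 0 ≤ z → y + z ≤ 1 → ContinuousOn (l1 y z) (Icc 0 t)
  cl2 : ∀ y z : ℝ, 0 ≤ y → 0 ≤ z → y + z ≤ 1 → ContinuousOn (l2 y z) (Icc 0 t)
  ch1 : ∀ y z : ℝ, 0 ≤ y → 0 ≤ z → y + z ≤ 1 → ContinuousOn (h1 y z) (Icc 0 t)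
  ch2 : ∀ y z : ℝ, 0 ≤ y → 0 ≤ z → y + z ≤ 1 → ContinuousOn (h2 y z) (Icc 0 t)
  r1 : ∀ c ∈ ({a, b} : Finset V)ᶜ, ∀ s ∈ Icc 0 t,
    ∑ d ∈ ({a, b, c} : Finset V)ᶜ, rP P L a b c d t s * (w d s)⁻¹ ≤ l1 (x a c) (x b c) s
  r2 : ∀ d ∈ ({a, b} : Finset V)ᶜ, ∀ s ∈ Icc 0 t,
    ∑ c ∈ ({a, b, d} : Finset V)ᶜ, rP P L a b c d t s * w d s ≤ l2 (x a d) (x b d) s
  r3 : ∀ c ∈ ({a, b} : Finset V)ᶜ, ∀ s ∈ Icc 0 t,
    ∑ d ∈ ({a, b, c} : Finset V)ᶜ, rP P Lt a b c d t s * (w d s)⁻¹ ≤ h1 (x a c) (x b c) s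
  r4 : ∀ d ∈ ({a, b} : Finset V)ᶜ, ∀ s ∈ Icc 0 t,
    ∑ c ∈ ({a, b, d} : Finset V)ᶜ, rP P Lt a b c d t s * w d s ≤ h2 (x a d) (x b d) s
  pd : ∀ c d, ¬P d → x b d ≠ 0 → ∀ s ∈ Icc 0 t, L a b c d t s = 0 ∧ Lt a b c d t s = 0

/-- the largest rows of the exponents of the closures in the world of `a`, `b`; `g`, `r` the largest
densities and rates with the weights -/
structure Pe2 (x : V → V → ℝ) (P : V → Prop) [DecidablePred P] (k : Kf)
    (L Lt : V → V → V → V → ℝ → ℝ → ℝ) (a b : V) (t : ℝ)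
    (κ0 Fs : ℝ → ℝ) (ρ : ℝ → ℝ → ℝ) (S St g r : ℝ → ℝ) (BA BB : ℝ) : Prop where
  cS : ContinuousOn S (Icc 0 t)
  cSt : ContinuousOn St (Icc 0 t)
  cg : ContinuousOn g (Icc 0 t)
  cr : ContinuousOn r (Icc 0 t)
  g0 : ∀ s ∈ Icc 0 t, 0 ≤ g s
  r0 : ∀ s ∈ Icc 0 t, 0 ≤ r s
  eL : ∀ c ∈ ({a, b} : Finset V)ᶜ, ∀ s ∈ Icc 0 t,
    ∑ d ∈ ({a, b, c} : Finset V)ᶜ, rP P L a b c d t s ≤ S s
  eT : ∀ c ∈ ({a, b} : Finset V)ᶜ, ∀ s ∈ Icc 0 t,
    ∑ d ∈ ({a, b, c} : Finset V)ᶜ, rP P Lt a b c d t s ≤ St s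
  gd : ∀ d, P d → ∀ s ∈ Icc 0 t, x b d * fq x P k.fh b d s ≤ g s
  rd : ∀ d, P d → ∀ s ∈ Icc 0 t, x b d * ρ (x b d) s ≤ r s
  eA : ∫ s in (0 : ℝ)..t, g s * κ0 s * S s ≤ (1 - 2 * xmQ) * BA
  eB : ∫ s in (0 : ℝ)..t, Fs s * (r s * St s) ≤ BB
  BA0 : 0 ≤ BA
  BB0 : 0 ≤ BB

variable {a b : V} {t γ : ℝ} {κ0 Fs : ℝ → ℝ} {ρ : ℝ → ℝ → ℝ} {w : V → ℝ → ℝ} {l1 l2 h1 h2 : ℝ → ℝ → ℝ → ℝ}
variable {S St g r : ℝ → ℝ} {BA BB : ℝ}

/-- the masses of the class -/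
theorem mass_leX (hx : Wt x P 1) (hX : Xc x P) (γ0 : 0 ≤ γ) (ha : P a) (hab : a ≠ b) {c : V}
    (hac : a ≠ c) :
    ∑ d ∈ ({a, b, c} : Finset V)ᶜ, x b d * (1 + γ * (x a b + x a d)) ≤ Mq γ (x a b) (x b c) := by
  have h1 : ∀ d ∈ ({a, b, c} : Finset V)ᶜ, x b d * (1 + γ * (x a b + x a d))
      ≤ (1 + γ * (x a b + xmQ)) * x b d := by
    intro d _
    have := mul_le_mul_of_nonneg_left (xx_le hx hX ha hab d) γ0
    nlinarith
  refine (Finset.sum_le_sum h1).trans ?_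
  rw [← Finset.mul_sum]
  have r1 := row_two hx b (a := a) (c := c) hac (({a, b, c} : Finset V)ᶜ) fun d hd => by
    rw [mem3] at hd; exact ⟨hd.1, hd.2.2⟩
  rw [hx.symm b a] at r1
  unfold Mq
  refine mul_le_mul_of_nonneg_left r1 ?_
  have := mul_nonneg γ0 (add_nonneg (hx.nonneg a b) xm0.le)
  linarith

section
variable (hf : Lf N k κd R L Lt) (hx : Wt x P 1) (hX : Xc x P) (hk : k.Ok)
    (hfc : ∀ y ∈ Icc (0 : ℝ) 1, ContinuousOn (k.fh y) (Icc 0 1)) (ht : t ∈ Icc (0 : ℝ) 1)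
    (hw : Pw2 x P k κd R L Lt a b t γ κ0 Fs ρ w l1 l2 h1 h2)
    (he : Pe2 x P k L Lt a b t κ0 Fs ρ S St g r BA BB)
    (ha : P a) (hb : P b) (hab : a ≠ b) {c : V} (hcP : P c) (hc : c ∈ ({a, b} : Finset V)ᶜ)

include hf hx hX hk hfc ht hw he ha hb hab hcP hc in
/-- **the linear error by the rows of the exponents** -/
theorem LamL_X :
    LamL x P k κd R L Lt a b c t ≤ (BA + BB) * Mq γ (x a b) (x b c) := by
  have m0 : (0 : ℝ) ∈ Icc 0 t := ⟨le_rfl, ht.1⟩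
  have mt : t ∈ Icc 0 t := ⟨ht.1, le_rfl⟩
  have hsub : Icc (0 : ℝ) t ⊆ Icc 0 1 := Icc_subset_Icc_right ht.2
  have hc' := mem2.1 hc
  have γ0 := hw.γ0
  have u0 := hx.nonneg a b
  have z0 := hx.nonneg b c
  have um := hX a b ha hb
  have zm := hX b c hb hcP
  have x0 := xm0
  have Q0 : 0 ≤ ∑ d ∈ ({a, b, c} : Finset V)ᶜ, x b d * (1 + γ * (x a b + x a d)) :=
    Finset.sum_nonneg fun d _ => mul_nonneg (hx.nonneg b d)
      (by have := mul_nonneg γ0 (add_nonneg u0 (hx.nonneg a d)); linarith)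
  have hQ := fun s hs => muL_leQ (c := c) hf hx hk hfc ht γ0 hw.cκ0 hw.hκ (Ne.symm hc'.2) hw.hF
    (s := s) hs
  have q1 := mass_leX hx hX γ0 ha hab (c := c) (Ne.symm hc'.1)
  set Q := ∑ d ∈ ({a, b, c} : Finset V)ᶜ, x b d * (1 + γ * (x a b + x a d)) with hQd
  set W := 1 + γ * (x a b + xmQ) with hW
  have W0 : 0 ≤ W := by
    have := mul_nonneg γ0 (add_nonneg u0 x0.le)
    linarith
  have cL : ∀ d, ContinuousOn (L a b c d t) (Icc 0 t) := fun d =>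
    (hf.cL a b c d).slice hf.N0 ht
  have cLt : ∀ d, ContinuousOn (Lt a b c d t) (Icc 0 t) := fun d =>
    (hf.cLt a b c d).slice hf.N0 ht
  have cR : ∀ d, ContinuousOn (R a b d t) (Icc 0 t) := fun d => (hf.cR a b d).slice hf.N0 ht
  have cF := fun d => flx_slice hf hx hfc a b d ht
  have cm := mu_cont hf hx hfc ht a b c
  have ii : ∀ d, IntervalIntegrable (fun s => flx x P k κd a b d t s * L a b c d t s
      + muL x P k κd a b c t s * (R a b d t s * Lt a b c d t s)) volume 0 t := fun d =>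
    ii_of ht.1 (((cF d).mul (cL d)).add (cm.mul ((cR d).mul (cLt d)))) m0 mt
  have c1 : ContinuousOn (fun s => g s * κ0 s * S s) (Icc 0 t) := (he.cg.mul hw.cκ0).mul he.cS
  have c2 : ContinuousOn (fun s => Fs s * (r s * St s)) (Icc 0 t) :=
    hw.cFs.mul (he.cr.mul he.cSt)
  unfold LamL
  rw [← intervalIntegral.integral_finsetSum fun d _ => ii d]
  have i1 : ∫ s in (0 : ℝ)..t, ∑ d ∈ ({a, b, c} : Finset V)ᶜ,
      (flx x P k κd a b d t s * L a b c d t s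
        + muL x P k κd a b c t s * (R a b d t s * Lt a b c d t s))
      ≤ ∫ s in (0 : ℝ)..t, (W * (g s * κ0 s * S s) + Q * (Fs s * (r s * St s))) := by
    have iS : IntervalIntegrable (fun s => ∑ d ∈ ({a, b, c} : Finset V)ᶜ,
        (flx x P k κd a b d t s * L a b c d t s
          + muL x P k κd a b c t s * (R a b d t s * Lt a b c d t s))) volume 0 t :=
      ii_of ht.1 (continuousOn_finsetSum _ fun d _ =>
        ((cF d).mul (cL d)).add (cm.mul ((cR d).mul (cLt d)))) m0 mt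
    refine intervalIntegral.integral_mono_on ht.1 iS
      (ii_of ht.1 ((continuousOn_const.mul c1).add (continuousOn_const.mul c2)) m0 mt)
      fun s hs => ?_
    have k0 := hw.k0 s hs
    have F0 := hw.Fs0 s hs
    have g0 := he.g0 s hs
    have r0 := he.r0 s hs
    have hz : ∀ d, ¬P d → flx x P k κd a b d t s * L a b c d t s = 0
        ∧ R a b d t s * Lt a b c d t s = 0 := by
      intro d hdP
      by_cases hbd : x b d = 0
      · have h3 := hw.hR0 d hbd s hs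
        have h4 := hf.R0 a b d t s hs.1 hs.2 ht.2
        have h5 : R a b d t s = 0 := le_antisymm h3 h4
        unfold flx
        rw [h5, hbd]
        constructor <;> ring
      · rw [(hw.pd c d hdP hbd s hs).1, (hw.pd c d hdP hbd s hs).2]
        constructor <;> ring
    have k1 : ∀ d ∈ ({a, b, c} : Finset V)ᶜ, flx x P k κd a b d t s * L a b c d t s
        ≤ (W * κ0 s * g s) * rP P L a b c d t s := by
      intro d hd
      have hd' := mem3.1 hd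
      by_cases hdP : P d
      · have L0 : 0 ≤ L a b c d t s := hf.L0 a b c d t s hs.1 hs.2 ht.2
        have fq0 := fq_nonneg' hk hx b d (hsub hs)
        have b0 := hx.nonneg b d
        have hwd := two_mem hx a (Ne.symm hd'.2.1)
        unfold rP
        rw [if_pos ⟨hcP, hdP⟩]
        refine mul_le_mul_of_nonneg_right ?_ L0
        have e1 := mul_le_mul_of_nonneg_left (hw.hκ _ hwd s hs) (mul_nonneg b0 fq0)
        have e2 : 1 + γ * (x a b + x a d) ≤ W := by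
          have := mul_le_mul_of_nonneg_left (add_le_add_right (hX a d ha hdP) (x a b)) γ0
          linarith
        have e3 := mul_le_mul_of_nonneg_left e2 (mul_nonneg (mul_nonneg b0 fq0) k0)
        have e4 := mul_le_mul_of_nonneg_right (he.gd d hdP s hs) (mul_nonneg k0 W0)
        unfold flx
        linarith
      · rw [(hz d hdP).1]
        unfold rP
        rw [if_neg fun h => hdP h.2, mul_zero]
    have k2 : ∀ d ∈ ({a, b, c} : Finset V)ᶜ, muL x P k κd a b c t s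
        * (R a b d t s * Lt a b c d t s) ≤ (Q * Fs s * r s) * rP P Lt a b c d t s := by
      intro d hd
      have hd' := mem3.1 hd
      by_cases hdP : P d
      · have Lt0 : 0 ≤ Lt a b c d t s := hf.Lt0 a b c d t s hs.1 hs.2 ht.2
        have R0 := hf.R0 a b d t s hs.1 hs.2 ht.2
        unfold rP
        rw [if_pos ⟨hcP, hdP⟩]
        have e1 := (hw.hR d hdP s hs).trans (he.rd d hdP s hs)
        have e2 := mul_le_mul (hQ s hs) (mul_le_mul_of_nonneg_right e1 Lt0)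
          (mul_nonneg R0 Lt0) (mul_nonneg Q0 F0)
        linarith
      · rw [(hz d hdP).2, mul_zero]
        unfold rP
        rw [if_neg fun h => hdP h.2, mul_zero]
    rw [Finset.sum_add_distrib]
    have s1 := (Finset.sum_le_sum k1).trans_eq (Finset.mul_sum _ _ _).symm
    have s2 := (Finset.sum_le_sum k2).trans_eq (Finset.mul_sum _ _ _).symm
    have s3 := mul_le_mul_of_nonneg_left (he.eL c hc s hs)
      (mul_nonneg (mul_nonneg W0 k0) g0)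
    have s4 := mul_le_mul_of_nonneg_left (he.eT c hc s hs)
      (mul_nonneg (mul_nonneg Q0 F0) r0)
    linarith
  rw [intervalIntegral.integral_add ((ii_of ht.1 c1 m0 mt).const_mul _)
    ((ii_of ht.1 c2 m0 mt).const_mul _), intervalIntegral.integral_const_mul,
    intervalIntegral.integral_const_mul] at i1
  have j1 := mul_le_mul_of_nonneg_left he.eA W0
  have j2 := mul_le_mul_of_nonneg_left he.eB Q0
  have j3 := mul_le_mul_of_nonneg_right q1 he.BB0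
  have j4 : W * ((1 - 2 * xmQ) * BA) ≤ Mq γ (x a b) (x b c) * BA := by
    have : W * (1 - 2 * xmQ) ≤ Mq γ (x a b) (x b c) := by
      unfold Mq
      exact mul_le_mul_of_nonneg_left (by linarith) W0
    have := mul_le_mul_of_nonneg_right this he.BA0
    linarith
  linarith

end

end Pool.Agent.RZ.RCN.K.P3
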