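import Pool.Agent.RZ.RCO.PwB

/-! The inequality of the pairs: one side of the walk rate and the inequality of a pair
(MP_73ccd0_lc, route M). -/

namespace Pool.Agent.RZ.RCN.K.P3

open Set Finset MeasureTheory Pool.Agent.RZ.RCN.K Pool.Agent.RZ.RCRSHalf Pool.Agent.RZ.RCG Pool.Agent.RZ.RCG.Ct
open Pool.Agent.RZ.RCN.Ker Pool.Agent.RZ.RCRS Pool.Agent.RZ.RCM.Jen

set_option linter.unusedSectionVars false

variable {V : Type*} [Fintype V] [DecidableEq V]
variable {x : V → V → ℝ} {P : V → Prop} [DecidablePred P] {k : Kf} {N : ℕ}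
variable {κd : ℝ → ℝ → ℝ → ℝ} {R : V → V → V → ℝ → ℝ → ℝ} {L Lt : V → V → V → V → ℝ → ℝ → ℝ}
variable {a b : V} {t γ : ℝ} {κ0 Fs : ℝ → ℝ} {ρ : ℝ → ℝ → ℝ} {w : V → ℝ → ℝ} {l1 l2 h1 h2 : ℝ → ℝ → ℝ → ℝ}

/-- the density of the quadratic bound of the error at one vertex: `y, z` its weights, `v` the
weight of the amplified side, `zb` the weight of the second role, `yl, zl` the arguments of the
rows -/
noncomputable def Bd2 (k : Kf) (γ : ℝ) (κ0 Fs : ℝ → ℝ) (ρ : ℝ → ℝ → ℝ) (l1 l2 h1 h2 : ℝ → ℝ → ℝ → ℝ)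
    (θ θh u y z yl zl v zb s : ℝ) : ℝ :=
  (κ0 s * (θ * v ^ 2 * l1 yl zl s
      + θ⁻¹ * (zb * (1 + γ * (u + y)) * k.fh z s) ^ 2 * l2 yl zl s)
    + Fs s * (θh * v ^ 2 * Mq γ u z * h1 yl zl s
      + θh⁻¹ * (zb * ρ z s) ^ 2 * Mq γ u 0 * h2 yl zl s)) / 2

/-- one term of the linear error -/
noncomputable def Td2 (k : Kf) (γ : ℝ) (κ0 Fs : ℝ → ℝ) (ρ : ℝ → ℝ → ℝ)
    (θ θh u Mc vc yd zd zb w l lt s : ℝ) : ℝ :=
  κ0 s * (θ * vc ^ 2) / 2 * (l * w⁻¹)
    + κ0 s * (θ⁻¹ * (zb * (1 + γ * (u + yd)) * k.fh zd s) ^ 2) / 2 * (l * w)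
    + Fs s * (θh * vc ^ 2 * Mc) / 2 * (lt * w⁻¹)
    + Fs s * (θh⁻¹ * (zb * ρ zd s) ^ 2 * Mq γ u 0) / 2 * (lt * w)

theorem amgm_w {θ a b w : ℝ} (h : 0 < θ) (hw : 0 < w) :
    a * b ≤ (θ * a ^ 2 * w⁻¹ + θ⁻¹ * b ^ 2 * w) / 2 := by
  have h1 := amgm (a := a) (b := b) (mul_pos h (inv_pos.2 hw))
  have e : (θ * w⁻¹)⁻¹ = θ⁻¹ * w := by rw [mul_inv, inv_inv]
  rw [e] at h1
  linarith

/-- **the linear errors of one side** -/
theorem lam_side2 (hf : Lf N k κd R L Lt) (hx : Wt x P 1) (hX : Xc x P) (hk : k.Ok)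
    (hfc : ∀ y ∈ Icc (0 : ℝ) 1, ContinuousOn (k.fh y) (Icc 0 1)) (ht : t ∈ Icc (0 : ℝ) 1)
    (hw : Pw2 x P k κd R L Lt a b t γ κ0 Fs ρ w l1 l2 h1 h2)
    (ha : P a) (hb : P b) (hab : a ≠ b) {Lb : V → ℝ}
    (hLb : ∀ c ∈ ({a, b} : Finset V)ᶜ, P c → LamL x P k κd R L Lt a b c t ≤ Lb c)
    {θ θh : ℝ → ℝ} (cθ : ContinuousOn θ (Icc 0 t)) (cθh : ContinuousOn θh (Icc 0 t))
    (θ0 : ∀ s ∈ Icc 0 t, 0 < θ s) (θh0 : ∀ s ∈ Icc 0 t, 0 < θh s) (v : V → ℝ)
    (v0 : ∀ c, 0 ≤ v c) (vz : ∀ c, ¬P c → v c = 0) (Hv : V → Prop) [DecidablePred Hv] :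
    ∑ c ∈ ({a, b} : Finset V)ᶜ, v c * LamL x P k κd R L Lt a b c t
      ≤ ∑ c ∈ ({a, b} : Finset V)ᶜ, ((∫ s in (0 : ℝ)..t,
          Bd2 k γ κ0 Fs ρ l1 l2 h1 h2 (θ s) (θh s) (x a b) (xr x P a c) (xr x P b c)
            (x a c) (x b c) (if Hv c then 0 else v c) (xr x P b c) s)
        + (if Hv c then v c * Lb c else 0)) := by
  have m0 : (0 : ℝ) ∈ Icc 0 t := ⟨le_rfl, ht.1⟩
  have mt : t ∈ Icc 0 t := ⟨ht.1, le_rfl⟩
  have hsub : Icc (0 : ℝ) t ⊆ Icc 0 1 := Icc_subset_Icc_right ht.2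
  have u0 := hx.nonneg a b
  have u1 := (x_mem hx a b).2
  have γ0 := hw.γ0
  have γu : 0 ≤ γ * x a b := mul_nonneg γ0 u0
  have cL : ∀ c d, ContinuousOn (L a b c d t) (Icc 0 t) := fun c d =>
    (hf.cL a b c d).slice hf.N0 ht
  have cLt : ∀ c d, ContinuousOn (Lt a b c d t) (Icc 0 t) := fun c d =>
    (hf.cLt a b c d).slice hf.N0 ht
  have cR : ∀ d, ContinuousOn (R a b d t) (Icc 0 t) := fun d => (hf.cR a b d).slice hf.N0 ht
  have cF := fun d => flx_slice hf hx hfc a b d ht
  have cm := fun c => mu_cont hf hx hfc ht a b c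
  have cfh : ∀ z ∈ Icc (0 : ℝ) 1, ContinuousOn (k.fh z) (Icc 0 t) := fun z hz =>
    (hfc z hz).mono hsub
  have xb1 := xmem1 (P := P) hx b
  have xa1 := xmem1 (P := P) hx a
  have iθ : ∀ s ∈ Icc 0 t, 0 < (θ s)⁻¹ := fun s hs => inv_pos.2 (θ0 s hs)
  have iθh : ∀ s ∈ Icc 0 t, 0 < (θh s)⁻¹ := fun s hs => inv_pos.2 (θh0 s hs)
  have ci : ContinuousOn (fun s => (θ s)⁻¹) (Icc 0 t) := cθ.inv₀ fun s hs => (θ0 s hs).ne'
  have cih : ContinuousOn (fun s => (θh s)⁻¹) (Icc 0 t) := cθh.inv₀ fun s hs => (θh0 s hs).ne'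
  have ciw : ∀ d, ContinuousOn (fun s => (w d s)⁻¹) (Icc 0 t) := fun d =>
    (hw.cw d).inv₀ fun s hs => (hw.w0 d s hs).ne'
  have Mb0 : 0 ≤ Mq γ (x a b) 0 := Mq_nonneg γ0 u0 (by linarith)
  have hq : ∀ c ∈ ({a, b} : Finset V)ᶜ, 0 ≤ x a c ∧ 0 ≤ x b c ∧ x a c + x b c ≤ 1 :=
    fun c hc => by
      have := two_mem hx c hab
      rw [hx.symm c a, hx.symm c b] at this
      exact ⟨hx.nonneg a c, hx.nonneg b c, this.2⟩
  have xre : ∀ {u w : V}, P u → P w → xr x P u w = x u w := fun hu hw => by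
    unfold xr; rw [if_pos ⟨hu, hw⟩]
  have rz : ∀ (L : V → V → V → V → ℝ → ℝ → ℝ) (c d : V), ¬(P c ∧ P d) → ∀ s,
      rP P L a b c d t s = 0 := fun L c d h s => by unfold rP; rw [if_neg h]
  have rp : ∀ (L : V → V → V → V → ℝ → ℝ → ℝ) (c d : V), P c → P d → ∀ s,
      rP P L a b c d t s = L a b c d t s := fun L c d h1 h2 s => by
    unfold rP; rw [if_pos ⟨h1, h2⟩]
  have cr : ∀ (L : V → V → V → V → ℝ → ℝ → ℝ) (c d : V),
      ContinuousOn (L a b c d t) (Icc 0 t) → ContinuousOn (rP P L a b c d t) (Icc 0 t) := by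
    intro L c d h
    by_cases h1 : P c ∧ P d
    · have : rP P L a b c d t = L a b c d t := by
        funext s; exact rp L c d h1.1 h1.2 s
      rw [this]; exact h
    · have : rP P L a b c d t = fun _ => 0 := by
        funext s; exact rz L c d h1 s
      rw [this]; exact continuousOn_const
  have rn : ∀ (c d : V), ∀ s ∈ Icc 0 t, 0 ≤ rP P L a b c d t s ∧ 0 ≤ rP P Lt a b c d t s := by
    intro c d s hs
    by_cases h1 : P c ∧ P d
    · rw [rp L c d h1.1 h1.2, rp Lt c d h1.1 h1.2]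
      exact ⟨hf.L0 a b c d t s hs.1 hs.2 ht.2, hf.Lt0 a b c d t s hs.1 hs.2 ht.2⟩
    · rw [rz L c d h1, rz Lt c d h1]
      exact ⟨le_rfl, le_rfl⟩
  -- the reduced weights
  set v' : V → ℝ := fun c => if Hv c then 0 else v c with hv'
  set zb : V → ℝ := fun d => xr x P b d with hzb
  have v'0 : ∀ c, 0 ≤ v' c := fun c => by
    rw [hv']; beta_reduce; split_ifs
    · exact le_rfl
    · exact v0 c
  have zb0 : ∀ d, 0 ≤ zb d := fun d => (xb1 d).1
  have Mcn : ∀ c, P c → c ∈ ({a, b} : Finset V)ᶜ →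
      0 ≤ Mq γ (x a b) (xr x P b c) := by
    intro c hcP hc
    have hc' := mem2.1 hc
    rw [xre hb hcP]
    refine Mq_nonneg γ0 u0 ?_
    have := (two_mem hx b (Ne.symm hc'.1)).2
    rwa [hx.symm b a] at this
  -- the terms
  set T : V → V → ℝ → ℝ := fun c d s => Td2 k γ κ0 Fs ρ (θ s) (θh s) (x a b)
    (Mq γ (x a b) (xr x P b c)) (v' c) (xr x P a d) (xr x P b d) (zb d) (w d s)
    (rP P L a b c d t s) (rP P Lt a b c d t s) s with hT
  have cT : ∀ c d, ContinuousOn (T c d) (Icc 0 t) := by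
    intro c d
    have c1 := cfh _ (xb1 d)
    have c2 := cr L c d (cL c d)
    have c3 := cr Lt c d (cLt c d)
    have c4 := hw.cκ0
    have c5 := hw.cFs
    have c6 := hw.cρ _ (xb1 d)
    have c7 := hw.cw d
    have c8 := ciw d
    exact (((((c4.mul (cθ.mul continuousOn_const)).div_const 2).mul
      (c2.mul c8)).add (((c4.mul (ci.mul ((continuousOn_const.mul
        c1).pow 2))).div_const 2).mul (c2.mul c7))).add
      (((c5.mul ((cθh.mul continuousOn_const).mul continuousOn_const)).div_const 2).mul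
        (c3.mul c8))).add
      (((c5.mul ((cih.mul ((continuousOn_const.mul c6).pow 2)).mul
        continuousOn_const)).div_const 2).mul (c3.mul c7))
  have T0 : ∀ c ∈ ({a, b} : Finset V)ᶜ, ∀ d, ∀ s ∈ Icc 0 t, 0 ≤ T c d s := by
    intro c hc d s hs
    have k0 := hw.k0 s hs
    have F0 := hw.Fs0 s hs
    have iθs := iθ s hs
    have iθhs := iθh s hs
    have θs := θ0 s hs
    have θhs := θh0 s hs
    have w0 := hw.w0 d s hs
    have iw0 := inv_pos.2 w0
    have e1 : 0 ≤ 1 + γ * x a b := by linarith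
    obtain ⟨l0, lt0⟩ := rn c d s hs
    have n1 : 0 ≤ κ0 s * (θ s * v' c ^ 2) / 2 := by positivity
    have n2 : 0 ≤ κ0 s * ((θ s)⁻¹ * (zb d * (1 + γ * (x a b + xr x P a d))
            * k.fh (xr x P b d) s) ^ 2) / 2 := by positivity
    have n4 : 0 ≤ Fs s * ((θh s)⁻¹ * (zb d * ρ (xr x P b d) s) ^ 2 * Mq γ (x a b) 0) / 2 := by positivity
    have n3 : 0 ≤ Fs s * (θh s * v' c ^ 2 * Mq γ (x a b) (xr x P b c)) / 2
        * (rP P Lt a b c d t s * (w d s)⁻¹) := by
      by_cases hcP : P c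
      · have M0 := Mcn c hcP hc
        positivity
      · have : v' c = 0 := by
          rw [hv']; beta_reduce; rw [vz c hcP]; simp
        rw [this]
        simp
    show 0 ≤ Td2 k γ κ0 Fs ρ (θ s) (θh s) (x a b)
      (Mq γ (x a b) (xr x P b c)) (v' c) (xr x P a d) (xr x P b d) (zb d) (w d s)
      (rP P L a b c d t s) (rP P Lt a b c d t s) s
    unfold Td2
    have p1 := mul_nonneg n1 (mul_nonneg l0 iw0.le)
    have p2 := mul_nonneg n2 (mul_nonneg l0 w0.le)
    have p4 := mul_nonneg n4 (mul_nonneg lt0 w0.le)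
    linarith
  -- one vertex
  have step1 : ∀ c ∈ ({a, b} : Finset V)ᶜ, v c * LamL x P k κd R L Lt a b c t
      ≤ (∫ s in (0 : ℝ)..t, ∑ d ∈ ({a, b, c} : Finset V)ᶜ, T c d s)
        + (if Hv c then v c * Lb c else 0) := by
    intro c hc
    have hc' := mem2.1 hc
    have hI0 : 0 ≤ ∫ s in (0 : ℝ)..t, ∑ d ∈ ({a, b, c} : Finset V)ᶜ, T c d s :=
      intervalIntegral.integral_nonneg ht.1 fun s hs => Finset.sum_nonneg fun d _ =>
        T0 c hc d s hs
    by_cases hcP : P c
    swap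
    · rw [vz c hcP]
      simp only [zero_mul, ite_self, add_zero]
      linarith
    by_cases hHv : Hv c
    · rw [if_pos hHv]
      have := mul_le_mul_of_nonneg_left (hLb c hc hcP) (v0 c)
      linarith
    · rw [if_neg hHv, add_zero]
      have ev : v' c = v c := by rw [hv']; beta_reduce; rw [if_neg hHv]
      unfold LamL
      rw [Finset.mul_sum, intervalIntegral.integral_finsetSum fun d _ =>
        ii_of ht.1 (cT c d) m0 mt]
      refine Finset.sum_le_sum fun d hd => ?_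
      have hd' := mem3.1 hd
      · have ez : zb d = xr x P b d := rfl
        rw [← intervalIntegral.integral_const_mul]
        refine intervalIntegral.integral_mono_on ht.1 (ii_of ht.1 (continuousOn_const.mul
          (((cF d).mul (cL c d)).add ((cm c).mul ((cR d).mul (cLt c d))))) m0 mt)
          (ii_of ht.1 (cT c d) m0 mt) fun s hs => ?_
        have k0 := hw.k0 s hs
        have F0 := hw.Fs0 s hs
        have ρ0 := hw.ρ0 _ (xb1 d) s hs
        have iθs := iθ s hs
        have iθhs := iθh s hs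
        have w0 := hw.w0 d s hs
        have L0 : 0 ≤ L a b c d t s := hf.L0 a b c d t s hs.1 hs.2 ht.2
        have Lt0 : 0 ≤ Lt a b c d t s := hf.Lt0 a b c d t s hs.1 hs.2 ht.2
        have yz0 := (xa1 d).1
        have zz0 := (xb1 d).1
        have fh0 : 0 ≤ k.fh (xr x P b d) s := hk.fh_nonneg (xb1 d) (hsub hs)
        have hwd := two_mem hx a (Ne.symm hd'.2.1)
        -- the flux
        have f1 : flx x P k κd a b d t s * L a b c d t s
            ≤ κ0 s * (xr x P b d * (1 + γ * (x a b + xr x P a d))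
              * k.fh (xr x P b d) s) * L a b c d t s := by
          by_cases hd1 : P d
          · refine mul_le_mul_of_nonneg_right ?_ L0
            unfold flx fq
            rw [if_pos hd1, xre hb hd1, xre ha hd1]
            rw [xre hb hd1] at fh0
            have w0 := hx.nonneg a d
            have i1 : κd (x a b + x a d) t s ≤ κ0 s * (1 + γ * (x a b + x a d)) :=
              hw.hκ _ hwd s hs
            have i2 := mul_le_mul_of_nonneg_left i1 (mul_nonneg (hx.nonneg b d) fh0)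
            linarith
          · have r0 : 0 ≤ κ0 s * (xr x P b d * (1 + γ * (x a b + xr x P a d))
                * k.fh (xr x P b d) s) * L a b c d t s :=
              mul_nonneg (mul_nonneg k0 (mul_nonneg (mul_nonneg zz0
                (by have := mul_nonneg γ0 yz0; linarith)) fh0)) L0
            by_cases hbd : x b d = 0
            · unfold flx
              rw [hbd, zero_mul, zero_mul, zero_mul]
              exact r0
            · rw [(hw.pd c d hd1 hbd s hs).1, mul_zero, mul_zero]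
        have f2 : R a b d t s * Lt a b c d t s ≤ xr x P b d * ρ (xr x P b d) s * Lt a b c d t s := by
          by_cases hd1 : P d
          · rw [xre hb hd1]
            exact mul_le_mul_of_nonneg_right (hw.hR d hd1 s hs) Lt0
          · by_cases hbd : x b d = 0
            · have h3 := hw.hR0 d hbd s hs
              have h4 := hf.R0 a b d t s hs.1 hs.2 ht.2
              have h5 : R a b d t s = 0 := le_antisymm h3 h4
              rw [h5, zero_mul]
              exact mul_nonneg (mul_nonneg zz0 ρ0) Lt0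
            · rw [(hw.pd c d hd1 hbd s hs).2, mul_zero, mul_zero]
        have f3 := (muL_leQ hf hx hk hfc ht γ0 hw.cκ0 hw.hκ (Ne.symm hc'.2) hw.hF hs).trans
          (mul_le_mul_of_nonneg_right (mass_leX hx hX γ0 ha hab (Ne.symm hc'.1)) F0)
        have f4 : 0 ≤ R a b d t s * Lt a b c d t s :=
          mul_nonneg (hf.R0 a b d t s hs.1 hs.2 ht.2) Lt0
        show v c * (flx x P k κd a b d t s * L a b c d t s
          + muL x P k κd a b c t s * (R a b d t s * Lt a b c d t s)) ≤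
          Td2 k γ κ0 Fs ρ (θ s) (θh s) (x a b) (Mq γ (x a b) (xr x P b c)) (v' c)
            (xr x P a d) (xr x P b d) (zb d) (w d s) (rP P L a b c d t s)
            (rP P Lt a b c d t s) s
        rw [xre hb hcP, ev, ez]
        have M0 : 0 ≤ Mq γ (x a b) (x b c) := by
          have := Mcn c hcP hc
          rwa [xre hb hcP] at this
        have M1 : Mq γ (x a b) (x b c) ≤ Mq γ (x a b) 0 := by
          unfold Mq
          refine mul_le_mul_of_nonneg_left (by linarith [hx.nonneg b c]) ?_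
          have := mul_nonneg γ0 (add_nonneg u0 xm0.le)
          linarith
        set Mc := Mq γ (x a b) (x b c)
        set Mb := Mq γ (x a b) 0
        set β := xr x P b d * (1 + γ * (x a b + xr x P a d)) * k.fh (xr x P b d) s
        set ζ := xr x P b d * ρ (xr x P b d) s
        have ζ0 : 0 ≤ ζ := mul_nonneg zz0 ρ0
        have g1 : muL x P k κd a b c t s * (R a b d t s * Lt a b c d t s)
            ≤ Mc * Fs s * (ζ * Lt a b c d t s) :=
          mul_le_mul f3 f2 f4 (mul_nonneg M0 F0)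
        have g2 := mul_le_mul_of_nonneg_left (add_le_add f1 g1) (v0 c)
        refine g2.trans ?_
        by_cases hd1 : P d
        swap
        · have z : xr x P b d = 0 := by unfold xr; rw [if_neg fun h => hd1 h.2]
          have eβ : β = 0 := by
            show xr x P b d * (1 + γ * (x a b + xr x P a d)) * k.fh (xr x P b d) s = 0
            rw [z, zero_mul, zero_mul]
          have eζ : ζ = 0 := by
            show xr x P b d * ρ (xr x P b d) s = 0
            rw [z, zero_mul]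
          rw [rz L c d (fun h => hd1 h.2), rz Lt c d (fun h => hd1 h.2), eβ, eζ]
          unfold Td2
          simp
        rw [rp L c d hcP hd1, rp Lt c d hcP hd1]
        have a1 := mul_le_mul_of_nonneg_left (amgm_w (a := v c) (b := β) (θ0 s hs) w0)
          (mul_nonneg k0 L0)
        have a2 := mul_le_mul_of_nonneg_left (amgm_w (a := v c) (b := ζ) (θh0 s hs) w0)
          (mul_nonneg (mul_nonneg M0 F0) Lt0)
        have a3 : Mc * (Fs s * ((θh s)⁻¹ * ζ ^ 2) / 2 * (Lt a b c d t s * w d s))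
            ≤ Mb * (Fs s * ((θh s)⁻¹ * ζ ^ 2) / 2 * (Lt a b c d t s * w d s)) := by
          refine mul_le_mul_of_nonneg_right M1 ?_
          positivity
        show _ ≤ Td2 k γ κ0 Fs ρ (θ s) (θh s) (x a b) Mc (v c) (xr x P a d) (xr x P b d)
          (xr x P b d) (w d s) (L a b c d t s) (Lt a b c d t s) s
        unfold Td2
        calc _ = κ0 s * L a b c d t s * (v c * β)
              + Mc * Fs s * Lt a b c d t s * (v c * ζ) := by ring
          _ ≤ κ0 s * L a b c d t s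
                * ((θ s * v c ^ 2 * (w d s)⁻¹ + (θ s)⁻¹ * β ^ 2 * w d s) / 2)
              + Mc * Fs s * Lt a b c d t s
                * ((θh s * v c ^ 2 * (w d s)⁻¹ + (θh s)⁻¹ * ζ ^ 2 * w d s) / 2) :=
            add_le_add a1 a2
          _ = κ0 s * L a b c d t s
                * ((θ s * v c ^ 2 * (w d s)⁻¹ + (θ s)⁻¹ * β ^ 2 * w d s) / 2)
              + Mc * Fs s * Lt a b c d t s * ((θh s * v c ^ 2 * (w d s)⁻¹) / 2)
              + Mc * (Fs s * ((θh s)⁻¹ * ζ ^ 2) / 2 * (Lt a b c d t s * w d s)) := by ring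
          _ ≤ κ0 s * L a b c d t s
                * ((θ s * v c ^ 2 * (w d s)⁻¹ + (θ s)⁻¹ * β ^ 2 * w d s) / 2)
              + Mc * Fs s * Lt a b c d t s * ((θh s * v c ^ 2 * (w d s)⁻¹) / 2)
              + Mb * (Fs s * ((θh s)⁻¹ * ζ ^ 2) / 2 * (Lt a b c d t s * w d s)) := by
            linarith
          _ = _ := by ring
  have cB : ∀ c ∈ ({a, b} : Finset V)ᶜ, ContinuousOn (fun s => Bd2 k γ κ0 Fs ρ l1 l2 h1 h2
      (θ s) (θh s) (x a b) (xr x P a c) (xr x P b c) (x a c) (x b c) (v' c) (zb c) s)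
      (Icc 0 t) := by
    intro c hc
    obtain ⟨q1, q2, q3⟩ := hq c hc
    have c1 := cfh _ (xb1 c)
    have c4 := hw.cκ0
    have c5 := hw.cFs
    have c6 := hw.cρ _ (xb1 c)
    have j1 := hw.cl1 _ _ q1 q2 q3
    have j2 := hw.cl2 _ _ q1 q2 q3
    have j3 := hw.ch1 _ _ q1 q2 q3
    have j4 := hw.ch2 _ _ q1 q2 q3
    exact (((c4.mul (((cθ.mul
      continuousOn_const).mul j1).add ((ci.mul ((continuousOn_const.mul c1).pow 2)).mul
      j2))).add (c5.mul ((((cθh.mul continuousOn_const).mul continuousOn_const).mul j3).add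
      (((cih.mul ((continuousOn_const.mul c6).pow 2)).mul continuousOn_const).mul
      j4)))).div_const 2)
  refine (Finset.sum_le_sum step1).trans ?_
  rw [Finset.sum_add_distrib, Finset.sum_add_distrib]
  refine add_le_add ?_ le_rfl
  · rw [← intervalIntegral.integral_finsetSum fun c _ => ii_of ht.1
        (continuousOn_finsetSum _ fun d _ => cT c d) m0 mt,
      ← intervalIntegral.integral_finsetSum fun c hc => ii_of ht.1 (cB c hc) m0 mt]
    refine intervalIntegral.integral_mono_on ht.1 (ii_of ht.1 (continuousOn_finsetSum _ fun c _ =>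
      continuousOn_finsetSum _ fun d _ => cT c d) m0 mt)
      (ii_of ht.1 (continuousOn_finsetSum _ fun c hc => cB c hc) m0 mt) fun s hs => ?_
    have k0 := hw.k0 s hs
    have F0 := hw.Fs0 s hs
    have e1 : 0 ≤ 1 + γ * x a b := by linarith
    have split : (∑ c ∈ ({a, b} : Finset V)ᶜ, ∑ d ∈ ({a, b, c} : Finset V)ᶜ, T c d s)
        = ∑ c ∈ ({a, b} : Finset V)ᶜ, (κ0 s * (θ s * v' c ^ 2) / 2
            * (∑ d ∈ ({a, b, c} : Finset V)ᶜ, rP P L a b c d t s * (w d s)⁻¹)
          + κ0 s * ((θ s)⁻¹ * (zb c * (1 + γ * (x a b + xr x P a c))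
            * k.fh (xr x P b c) s) ^ 2) / 2
            * (∑ d ∈ ({a, b, c} : Finset V)ᶜ, rP P L a b d c t s * w c s)
          + Fs s * (θh s * v' c ^ 2 * Mq γ (x a b) (xr x P b c)) / 2
            * (∑ d ∈ ({a, b, c} : Finset V)ᶜ, rP P Lt a b c d t s * (w d s)⁻¹)
          + Fs s * ((θh s)⁻¹ * (zb c * ρ (xr x P b c) s) ^ 2 * Mq γ (x a b) 0) / 2
            * (∑ d ∈ ({a, b, c} : Finset V)ᶜ, rP P Lt a b d c t s * w c s)) := by
      simp only [hT, Td2, Finset.sum_add_distrib]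
      congr 1
      · congr 1
        · congr 1
          · exact Finset.sum_congr rfl fun c _ => (Finset.mul_sum _ _ _).symm
          · rw [swap_tri]
            exact Finset.sum_congr rfl fun c _ => (Finset.mul_sum _ _ _).symm
        · exact Finset.sum_congr rfl fun c _ => (Finset.mul_sum _ _ _).symm
      · rw [swap_tri]
        exact Finset.sum_congr rfl fun c _ => (Finset.mul_sum _ _ _).symm
    rw [split]
    refine Finset.sum_le_sum fun c hc => ?_
    have hc' := mem2.1 hc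
    have i1 := hw.r1 c hc s hs
    have i2 := hw.r2 c hc s hs
    have i3 := hw.r3 c hc s hs
    have i4 := hw.r4 c hc s hs
    have iθs := iθ s hs
    have iθhs := iθh s hs
    have θs := θ0 s hs
    have θhs := θh0 s hs
    have n1 : 0 ≤ κ0 s * (θ s * v' c ^ 2) / 2 := by positivity
    have n2 : 0 ≤ κ0 s * ((θ s)⁻¹ * (zb c * (1 + γ * (x a b + xr x P a c))
            * k.fh (xr x P b c) s) ^ 2) / 2 := by positivity
    have n3 : 0 ≤ Fs s * (θh s * v' c ^ 2 * Mq γ (x a b) (xr x P b c)) / 2 := by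
      by_cases hcP : P c
      · have M0 := Mcn c hcP hc
        positivity
      · have : v' c = 0 := by
          rw [hv']; beta_reduce; rw [vz c hcP]; simp
        rw [this]
        simp
    have n4 : 0 ≤ Fs s * ((θh s)⁻¹ * (zb c * ρ (xr x P b c) s) ^ 2 * Mq γ (x a b) 0) / 2 := by positivity
    have o1 := mul_le_mul_of_nonneg_left i1 n1
    have o2 := mul_le_mul_of_nonneg_left i2 n2
    have o3 := mul_le_mul_of_nonneg_left i3 n3
    have o4 := mul_le_mul_of_nonneg_left i4 n4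
    refine (add_le_add (add_le_add (add_le_add o1 o2) o3) o4).trans (le_of_eq ?_)
    unfold Bd2
    ring

end Pool.Agent.RZ.RCN.K.P3
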