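import Pool.Agent.RZ.RCO.PwC

/-! The inequality of a pair with rows, weights and entries (MP_73ccd0_lc, route M). -/

namespace Pool.Agent.RZ.RCN.K.P3

open Set Finset MeasureTheory Pool.Agent.RZ.RCN.K Pool.Agent.RZ.RCRSHalf Pool.Agent.RZ.RCG Pool.Agent.RZ.RCG.Ct
open Pool.Agent.RZ.RCN.Ker Pool.Agent.RZ.RCRS Pool.Agent.RZ.RCM.Jen

set_option linter.unusedSectionVars false

variable {V : Type*} [Fintype V] [DecidableEq V]
variable {x : V → V → ℝ} {P : V → Prop} [DecidablePred P] {k : Kf} {N : ℕ}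
variable {κd : ℝ → ℝ → ℝ → ℝ} {R : V → V → V → ℝ → ℝ → ℝ} {L Lt : V → V → V → V → ℝ → ℝ → ℝ}
variable {a b : V} {t γ : ℝ} {κ0 Fs : ℝ → ℝ} {ρ : ℝ → ℝ → ℝ} {w w' : V → ℝ → ℝ} {l1 l2 h1 h2 : ℝ → ℝ → ℝ → ℝ}

/-- the bound of the error of one side at one vertex -/
noncomputable def Pv2 (k : Kf) (g : ℝ → ℝ) (t α γ C e1 : ℝ) (κ0 Fs : ℝ → ℝ)
    (ρ : ℝ → ℝ → ℝ) (l1 l2 h1 h2 : ℝ → ℝ → ℝ → ℝ) (θ θh : ℝ → ℝ) (u y z : ℝ) : ℝ :=
  vw g α γ u y z * (z * (e1 * (1 + γ * (u + y))))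
    + ∫ s in (0 : ℝ)..t, Bd2 k γ κ0 Fs ρ l1 l2 h1 h2 (θ s) (θh s) u y z y z
        (C * vw g α γ u y z) z s

/-- one side of the walk rate -/
theorem side_le2 {A : ℝ → ℝ → ℝ} {α mt X p1 C e1 Λ : ℝ}
    (hs : Ps3 k κd A t α γ mt X p1 C e1 Λ)
    (hf : Lf N k κd R L Lt) (hx : Wt x P 1) (hX : Xc x P) (hk : k.Ok)
    (hfc : ∀ y ∈ Icc (0 : ℝ) 1, ContinuousOn (k.fh y) (Icc 0 1))
    (cPe : ∀ w, ContinuousOn (k.Pe w) (Icc 0 1)) (hA : Ab k κd A) (ht : t ∈ Icc (0 : ℝ) 1)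
    (hw : Pw2 x P k κd R L Lt a b t γ κ0 Fs ρ w l1 l2 h1 h2)
    (ha : P a) (hb : P b) (hab : a ≠ b)
    (hLa : ∀ c ∈ ({a, b} : Finset V)ᶜ, P c →
      LamL x P k κd R L Lt a b c t ≤ Λ * Mq γ (x a b) (x b c))
    {θ θh : ℝ → ℝ} (cθ : ContinuousOn θ (Icc 0 t)) (cθh : ContinuousOn θh (Icc 0 t))
    (θ0 : ∀ s ∈ Icc 0 t, 0 < θ s) (θh0 : ∀ s ∈ Icc 0 t, 0 < θh s)
    {g : ℝ → ℝ} (hg : ∀ y ∈ Icc (0 : ℝ) 1, (1 + t) * k.fh y t ≤ g y) :
    ∑ c ∈ ({a, b} : Finset V)ᶜ, wS k.fh k.mb ((xdOf x κd R L Lt).E x P k) x P a b c t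
      ≤ ∑ c ∈ ({a, b} : Finset V)ᶜ, if P c then
          Pv2 k g t α γ C e1 κ0 Fs ρ l1 l2 h1 h2 θ θh (x a b) (x a c) (x b c)
        else 0 := by
  have t1 : 0 ≤ 1 + t := by linarith [ht.1]
  have g0 : ∀ y ∈ Icc (0 : ℝ) 1, 0 ≤ g y := fun y hy =>
    (mul_nonneg t1 (hk.fh_nonneg hy ht)).trans (hg y hy)
  set v : V → ℝ := fun c => if P c then vw g α γ (x a b) (x a c) (x b c) else 0 with hv
  have v0 : ∀ c, 0 ≤ v c := by
    intro c
    rw [hv]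
    beta_reduce
    split_ifs
    · exact mul_nonneg (mul_nonneg (hx.nonneg a c) (g0 _ (x_mem hx a c))) (psf_nonneg _ _ _ _)
    · exact le_rfl
  have vz : ∀ c, ¬P c → v c = 0 := fun c hc => by
    rw [hv]; beta_reduce; rw [if_neg hc]
  have key := lam_side2 hf hx hX hk hfc ht hw ha hb hab (Lb := fun c => LamL x P k κd R L Lt a b c t) (fun _ _ _ => le_rfl) cθ cθh θ0 θh0
    (fun c => C * v c) (fun c => mul_nonneg hs.C0 (v0 c))
    (fun c hc => by rw [vz c hc, mul_zero]) (fun _ => False)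
  have hb1 : ∀ c ∈ ({a, b} : Finset V)ᶜ,
      wS k.fh k.mb ((xdOf x κd R L Lt).E x P k) x P a b c t
      ≤ v c * (x b c * (e1 * (1 + γ * (x a b + x a c))))
        + C * v c * LamL x P k κd R L Lt a b c t := by
    intro c hc
    have hc' := mem2.1 hc
    by_cases hcP : P c
    · have e := em_P3 hs hf hx hX hk hfc cPe hA ht ha hb hab (Ne.symm hc'.1) (Ne.symm hc'.2)
        (fun hcP => hLa c hc hcP)
      have hΛ := LamL_nonneg (R := R) (L := L) (Lt := Lt) hf hx hk a b c ht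
      have hy := x_mem hx a c
      have hw2 := two_mem hx a (Ne.symm hc'.2)
      have w0 : 0 ≤ e1 * (1 + γ * (x a b + x a c)) :=
        mul_nonneg hs.e0 (by have := mul_nonneg hs.γ0 hw2.1; linarith)
      have hr : 0 ≤ psf α γ (x b c) (x a b + x a c) * (x b c * (e1 * (1 + γ * (x a b + x a c)))
          + C * LamL x P k κd R L Lt a b c t) :=
        mul_nonneg (psf_nonneg _ _ _ _)
          (add_nonneg (mul_nonneg (hx.nonneg b c) w0) (mul_nonneg hs.C0 hΛ))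
      have xre : xr x P a c = x a c := by unfold xr; rw [if_pos ⟨ha, hcP⟩]
      have ve : v c = x a c * g (x a c) * psf α γ (x b c) (x a b + x a c) := by
        rw [hv]; beta_reduce; rw [if_pos hcP]; rfl
      unfold wS
      rw [xre]
      have f0 : 0 ≤ (1 + t) * k.fh (x a c) t := mul_nonneg t1 (hk.fh_nonneg hy ht)
      calc _ ≤ x a c * ((1 + t) * k.fh (x a c) t) * (psf α γ (x b c) (x a b + x a c)
            * (x b c * (e1 * (1 + γ * (x a b + x a c))) + C * LamL x P k κd R L Lt a b c t)) :=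
            mul_le_mul_of_nonneg_left e (mul_nonneg hy.1 f0)
        _ ≤ x a c * g (x a c) * (psf α γ (x b c) (x a b + x a c)
            * (x b c * (e1 * (1 + γ * (x a b + x a c))) + C * LamL x P k κd R L Lt a b c t)) :=
            mul_le_mul_of_nonneg_right (mul_le_mul_of_nonneg_left (hg _ hy) hy.1) hr
        _ = _ := by rw [ve]; ring
    · have xre : xr x P a c = 0 := by unfold xr; rw [if_neg fun h => hcP h.2]
      unfold wS
      rw [xre, vz c hcP]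
      simp
  refine (Finset.sum_le_sum hb1).trans ?_
  rw [Finset.sum_add_distrib]
  refine (add_le_add le_rfl key).trans ?_
  rw [← Finset.sum_add_distrib]
  refine Finset.sum_le_sum fun c hc => ?_
  by_cases hcP : P c
  · have xa : xr x P a c = x a c := by unfold xr; rw [if_pos ⟨ha, hcP⟩]
    have xb : xr x P b c = x b c := by unfold xr; rw [if_pos ⟨hb, hcP⟩]
    have ve : v c = vw g α γ (x a b) (x a c) (x b c) := by
      rw [hv]; beta_reduce; rw [if_pos hcP]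
    rw [if_pos hcP, xa, xb, ve]
    unfold Pv2
    simp only [if_false, add_zero]
    exact le_rfl
  · have xa : xr x P a c = 0 := by unfold xr; rw [if_neg fun h => hcP h.2]
    have xb : xr x P b c = 0 := by unfold xr; rw [if_neg fun h => hcP h.2]
    rw [if_neg hcP, xa, xb, vz c hcP, zero_mul, zero_add]
    have : ∀ s, Bd2 k γ κ0 Fs ρ l1 l2 h1 h2 (θ s) (θh s) (x a b) 0 0 (x a c) (x b c) 0 0 s
        = 0 := by
      intro s
      unfold Bd2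
      simp
    simp [this]

/-- **the inequality of one pair** -/
theorem pp_abs2 {A : ℝ → ℝ → ℝ} {α mt X p1 C e1 Λ : ℝ}
    (hs : Ps3 k κd A t α γ mt X p1 C e1 Λ)
    (hf : Lf N k κd R L Lt) (hx : Wt x P 1) (hX : Xc x P) (hk : k.Ok)
    (hfc : ∀ y ∈ Icc (0 : ℝ) 1, ContinuousOn (k.fh y) (Icc 0 1))
    (cPe : ∀ w, ContinuousOn (k.Pe w) (Icc 0 1)) (hA : Ab k κd A) (ht : t ∈ Icc (0 : ℝ) 1)
    (ha : P a) (hb : P b) (hab : a ≠ b)
    (hw : Pw2 x P k κd R L Lt a b t γ κ0 Fs ρ w l1 l2 h1 h2)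
    (hw' : Pw2 x P k κd R L Lt b a t γ κ0 Fs ρ w' l1 l2 h1 h2)
    (hLa : ∀ c ∈ ({a, b} : Finset V)ᶜ, P c →
      LamL x P k κd R L Lt a b c t ≤ Λ * Mq γ (x a b) (x b c))
    (hLa' : ∀ c ∈ ({a, b} : Finset V)ᶜ, P c →
      LamL x P k κd R L Lt b a c t ≤ Λ * Mq γ (x a b) (x a c))
    {θ θh : ℝ → ℝ} (cθ : ContinuousOn θ (Icc 0 t)) (cθh : ContinuousOn θh (Icc 0 t))
    (θ0 : ∀ s ∈ Icc 0 t, 0 < θ s) (θh0 : ∀ s ∈ Icc 0 t, 0 < θh s)
    {g : ℝ → ℝ} (hg : ∀ y ∈ Icc (0 : ℝ) 1, (1 + t) * k.fh y t ≤ g y)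
    {K : ℝ} {kb : ℝ → ℝ → ℝ} (kb0 : 0 ≤ K * kb 0 0)
    (hfin : ∀ y z : ℝ, Dw (x a b) y z →
      Pv2 k g t α γ C e1 κ0 Fs ρ l1 l2 h1 h2 θ θh (x a b) y z
        + Pv2 k g t α γ C e1 κ0 Fs ρ l1 l2 h1 h2 θ θh (x a b) z y
      ≤ K * kb y z) :
    wE k.fh k.mb ((xdOf x κd R L Lt).E x P k) x P a b t
      ≤ K * ∑ c ∈ ({a, b} : Finset V)ᶜ, kb (xr x P a c) (xr x P b c) := by
  have s1 := side_le2 hs hf hx hX hk hfc cPe hA ht hw ha hb hab hLa cθ cθh θ0 θh0 hg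
  have s2 := side_le2 (a := b) (b := a) hs hf hx hX hk hfc
    cPe hA ht hw' hb ha hab.symm (by rwa [Finset.pair_comm b a, hx.symm b a])
    cθ cθh θ0 θh0 hg
  unfold wE
  rw [if_pos ⟨ha, hb, hab⟩, Finset.sum_add_distrib]
  have e : ({b, a} : Finset V) = {a, b} := Finset.pair_comm b a
  rw [e, hx.symm b a] at s2
  refine (add_le_add s1 s2).trans ?_
  rw [← Finset.sum_add_distrib, Finset.mul_sum]
  refine Finset.sum_le_sum fun c hc => ?_
  have hc' := mem2.1 hc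
  by_cases hcP : P c
  · have xa : xr x P a c = x a c := by unfold xr; rw [if_pos ⟨ha, hcP⟩]
    have xb : xr x P b c = x b c := by unfold xr; rw [if_pos ⟨hb, hcP⟩]
    rw [if_pos hcP, if_pos hcP, xa, xb]
    exact hfin _ _ (Dw.of hx hX ha hb hcP)
  · have xa : xr x P a c = 0 := by unfold xr; rw [if_neg fun h => hcP h.2]
    have xb : xr x P b c = 0 := by unfold xr; rw [if_neg fun h => hcP h.2]
    rw [if_neg hcP, if_neg hcP, xa, xb, add_zero]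
    exact kb0

end Pool.Agent.RZ.RCN.K.P3
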