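import Pool.Agent.RZ.RCO.PwDG
import Pool.Agent.RZ.RCO.RTab

/-! The numbers of the big cell 19 (generated) (MP_73ccd0_lc, route M). -/

set_option autoImplicit false
set_option maxRecDepth 100000

namespace Pool.Agent.RZ.RCO.PwDt

open Pool.Agent.RZ.RCM9 Pool.Agent.RZ.RCM9.Bern Pool.Agent.RZ.RCN.K.P3

open Pool.Agent.RZ.RCN.Ck1 Pool.Agent.RZ.RCO.RT

def c19 : Tc :=
  { m := 19, Bm := 153093/1000000, γ := 1, α := 6077/10000, e := 1719/125000, g0 := 504733/1000000, gh := 102629/125000, g1 := 32841/40000, Kx := 4692001/1000000,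
    kc := [8706667/10000000, 358563/2000000],
    ke := [10001751/10000000, 16169/1000000, 16781/10000000, 6260563/10000000, (-2536037/2500000), 64087/100000],
    Fp := [1121/10000000, 2563771/2500000, (-1395991/5000000), (-2118037/2000000), 3509957/2500000, (-1302841/2500000)],
    V := ⟨2312107/10000000, 922529/5000000, 1074357/10000000, 1/10000000⟩,
    B0 := ⟨2481909/10000000, 150397/625000, 31581/200000, 1/10000000⟩,
    Bh := ⟨98277/250000, 3609813/10000000, 1149727/5000000, 1/10000000⟩,
    H := ⟨2943603/10000000, 2349247/10000000, 1368047/10000000, 1/10000000⟩,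
    C0 := ⟨2836237/10000000, 1270981/5000000, 32031/200000, 1/10000000⟩,
    Ch := ⟨515023/1000000, 44907/100000, 2781031/10000000, 1/10000000⟩,
    A := 252179/1000000, M := 306899/1000000 }

theorem okA19 : c19.okA (RTab.tabq 1) G 1000000000000 4 = true := by decide +kernel

theorem okB19 : c19.okB (RTab.tabq 1) G 1000000000000 4 = true := by decide +kernel

theorem okC19 : c19.okC (RTab.tabq 1) G 1000000000000 4 = true := by decide +kernel

theorem ok19 : c19.ok (RTab.tabq 1) G 1000000000000 4 = true := Tc.ok_of okA19 okB19 okC19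

end Pool.Agent.RZ.RCO.PwDt
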