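import Pool.Agent.RZ.RCO.Pw2
import Pool.Agent.RZ.RCO.PwDc19

/-! The range of the weights in the big cell 19 (generated) (MP_73ccd0_lc, route M). -/

set_option autoImplicit false
set_option maxRecDepth 100000

namespace Pool.Agent.RZ.RCO.PwDt

open Pool.Agent.RZ.RCM9 Pool.Agent.RZ.RCM9.Bern Pool.Agent.RZ.RCM9.Pk Pool.Agent.RZ.RCN.K.P3
open Pool.Agent.RZ.RCN.Ck1 Pool.Agent.RZ.RCO.RT

def r19 : Rg :=
  { u0 := 0, u1 := 1/12, qa := 3/50, pa := [10001/10000, 4977/2500, 6791/2000], p4 := [5567/5000, 21989/5000, 67087/5000], th := 971/500, thh := 431/250,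
    A1 := ⟨22451/50000, 4479/12500, 4173/20000, 1/100000⟩,
    B0 := ⟨12781/100000, 1549/12500, 2033/25000, 1/100000⟩,
    Bh := ⟨20243/100000, 18589/100000, 11841/100000, 1/100000⟩,
    A3 := ⟨12687/25000, 20251/50000, 11793/50000, 1/100000⟩,
    C0 := ⟨4113/25000, 2949/20000, 929/10000, 1/100000⟩,
    Ch := ⟨14937/50000, 26049/100000, 4033/25000, 1/100000⟩,
    a6 := 12609/500000, a7 := 1023/40000, C := 105497/100000, mt := 823/1250, X := 1961/5000, p1 := 1301/4000 }

theorem rok19 : r19.ok c19 = true := by decide +kernel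

theorem nA19 : NN ((r19.qn c19).eA sh) :=
  NN.of (K := 169) (D := ⟨11, 10, 5, 1⟩) (Box.of 4 (by decide +kernel)) (by decide +kernel)

end Pool.Agent.RZ.RCO.PwDt
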