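import Pool.Agent.RZ.RCO.Pw2
import Pool.Agent.RZ.RCO.PwA

/-! The inequality of the pairs: the numbers of a cell of times and a range of weights of the pair,
and the final polynomial inequality (MP_73ccd0_lc, route M). -/

set_option autoImplicit false

namespace Pool.Agent.RZ.RCN.K.P3

open Set Finset Pool.Agent.RZ.RCN.K Pool.Agent.RZ.RCM9 Pool.Agent.RZ.RCM9.Bern Pool.Agent.RZ.RCM9.Pk
open Pool.Agent.RZ.RCN.Ck1

/-- the chord through the values at `0`, `1/2`, `1` -/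
noncomputable def cq3 (a h b y : ℝ) : ℝ :=
  if y ≤ 1 / 2 then (1 - 2 * y) * a + 2 * y * h else (2 - 2 * y) * h + (2 * y - 1) * b

theorem cq3_lo {a h b y : ℝ} (hy : y ≤ 1 / 2) : cq3 a h b y = (1 - 2 * y) * a + 2 * y * h := by
  unfold cq3; rw [if_pos hy]

theorem cq3_hi {a h b y : ℝ} (hy : 1 / 2 ≤ y) :
    cq3 a h b y = (2 - 2 * y) * h + (2 * y - 1) * b := by
  unfold cq3
  split_ifs with h1
  · have : y = 1 / 2 := le_antisymm h1 hy
    subst this
    ring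
  · rfl

theorem cq3_nonneg {a h b y : ℝ} (ha : 0 ≤ a) (hh : 0 ≤ h) (hb : 0 ≤ b)
    (hy : y ∈ Icc (0 : ℝ) 1) : 0 ≤ cq3 a h b y := by
  rcases le_total y (1 / 2) with h1 | h1
  · rw [cq3_lo h1]
    exact add_nonneg (mul_nonneg (by linarith) ha) (mul_nonneg (by linarith [hy.1]) hh)
  · rw [cq3_hi h1]
    exact add_nonneg (mul_nonneg (by linarith [hy.2]) hh) (mul_nonneg (by linarith) hb)

namespace Qn

structure Good (c : Qn) : Prop where
  γ0 : (0 : ℝ) ≤ c.γ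
  αp : (0 : ℝ) < c.α
  e0 : (0 : ℝ) ≤ c.e
  g0 : (0 : ℝ) ≤ c.g0
  gh : (0 : ℝ) ≤ c.gh
  γ1 : (c.γ : ℝ) ≤ 1
  qa1 : (c.qa : ℝ) < 1
  u00 : (0 : ℝ) ≤ c.u0
  uu : (c.u0 : ℝ) < c.u1
  mq : (c.mm : ℝ) ≤ c.qa
  q1 : (xmQ : ℝ) * (c.α * (1 + c.γ * (2 * xmQ))) < 1
  m1 : (c.α : ℝ) * (1 + c.γ * xmQ) ≤ c.mt
  m2 : (c.mt : ℝ) ≤ 1
  C0 : (0 : ℝ) < c.C
  p0 : (0 : ℝ) ≤ c.p1
  β1 : (c.mt : ℝ) * c.p1 < 1
  ex : 1 - Real.exp (-(c.X : ℝ)) ≤ c.p1
  cj : ∀ p ∈ Icc (0 : ℝ) c.p1,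
    6 - 6 * p + p ^ 2 ≤ c.C * ((6 - 3 * p) * (1 - c.mt * p))
  pa : ∀ q ∈ Icc (0 : ℝ) c.qa, 1 ≤ (1 - q) ^ 2 * pv c.pa q
  p4 : ∀ q ∈ Icc (0 : ℝ) c.qa, (c.C : ℝ) ^ 2 ≤ (1 - q) ^ 4 * pv c.p4 q
  a1 : ∀ q ∈ Icc (0 : ℝ) (2 * xmQ), 0 ≤ pv c.a1 q
  b0 : ∀ q ∈ Icc (0 : ℝ) (2 * xmQ), 0 ≤ pv c.b0 q
  bh : ∀ q ∈ Icc (0 : ℝ) (2 * xmQ), 0 ≤ pv c.bh q
  a3 : ∀ q ∈ Icc (0 : ℝ) (2 * xmQ), 0 ≤ pv c.a3 q
  c0 : ∀ q ∈ Icc (0 : ℝ) (2 * xmQ), 0 ≤ pv c.c0 q
  ch : ∀ q ∈ Icc (0 : ℝ) (2 * xmQ), 0 ≤ pv c.ch q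

variable {c : Qn}

theorem sq_e (q : ℝ) : (1 - q) ^ 2 = 1 + q * (-2 + q * (1 + q * 0)) := by ring

theorem q4_e (q : ℝ) :
    (1 - q) ^ 4 = 1 + q * (-4 + q * (6 + q * (-4 + q * (1 + q * 0)))) := by ring

theorem good (h : c.ok = true) : c.Good := by
  simp only [ok, okS, okP, Bool.and_eq_true, decide_eq_true_eq] at h
  obtain ⟨⟨a1, a2, a3, a4, a5, a6, a7, a8, a9, b1, b2, b3, b4, b5, b6, b7, b8, b9, c1⟩,
    d1, d2, e1, e2, e3, e5, e6, e7⟩ := h
  have mem : ∀ {r : ℚ} {q : ℝ}, q ∈ Icc (0 : ℝ) r → q ∈ Icc (((0 : ℚ) : ℚ) : ℝ) (r : ℝ) :=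
    fun h => by
      push_cast
      exact h
  have mem2 : ∀ {q : ℝ}, q ∈ Icc (0 : ℝ) (2 * xmQ) →
      q ∈ Icc (((0 : ℚ) : ℚ) : ℝ) ((2 * xmQ : ℚ) : ℝ) := fun h => by
      push_cast
      exact h
  exact
    { γ0 := by exact_mod_cast a1
      αp := by exact_mod_cast a2
      e0 := by exact_mod_cast a3
      g0 := by exact_mod_cast a4
      gh := by exact_mod_cast a5
      γ1 := by exact_mod_cast a6
      qa1 := by exact_mod_cast a7
      u00 := by exact_mod_cast a8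
      uu := by exact_mod_cast a9
      mq := by exact_mod_cast b1
      q1 := by exact_mod_cast b2
      m1 := by exact_mod_cast b3
      m2 := by exact_mod_cast b4
      C0 := by exact_mod_cast b5
      p0 := by exact_mod_cast b6
      β1 := by exact_mod_cast b7
      ex := by
        have h1 : (c.X : ℝ) ≤ ((64 : ℕ) : ℝ) := by exact_mod_cast b8
        have h2 := Real.one_sub_div_pow_le_exp_neg h1
        have h3 : (1 - (c.p1 : ℝ)) ≤ (1 - (c.X : ℝ) / 64) ^ 64 := by exact_mod_cast b9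
        push_cast at h2
        linarith
      cj := fun p hp => by
        have := nn_le c1 (mem hp)
        simp only [pv] at this
        push_cast at this
        linarith
      pa := fun q hq => by
        have := nn_sub d1 (mem hq)
        rw [pv_lmul] at this
        simp only [pv] at this
        push_cast at this
        rw [sq_e]
        linarith
      p4 := fun q hq => by
        have := nn_sub d2 (mem hq)
        rw [pv_lmul] at this
        simp only [pv] at this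
        push_cast at this
        rw [q4_e]
        linarith
      a1 := fun q hq => nn_le e1 (mem2 hq)
      b0 := fun q hq => nn_le e2 (mem2 hq)
      bh := fun q hq => nn_le e3 (mem2 hq)
      a3 := fun q hq => nn_le e5 (mem2 hq)
      c0 := fun q hq => nn_le e6 (mem2 hq)
      ch := fun q hq => nn_le e7 (mem2 hq) }

variable (c)

/-- the density -/
noncomputable def gf (y : ℝ) : ℝ := (1 - 2 * y) * c.g0 + 2 * y * c.gh

/-- the argument of the amplification -/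
noncomputable def ar (u y z : ℝ) : ℝ := z * (c.α * (1 + c.γ * (u + y)))

/-- the quadratic bound of one side; `ry`, `rz` in the place of the weights -/
noncomputable def SA (u y z ry rz gy i2 i4 : ℝ) : ℝ :=
  ry * rz * gy * (c.e * (1 + c.γ * (u + y))) * pv c.pa (c.ar u y z)
    + (1 / 2)
      * (ry ^ 2 * gy ^ 2 * pv c.p4 (c.ar u y z)
          * (pv c.a1 (y + z) + Mq c.γ u z * pv c.a3 (y + z))
        + rz ^ 2 * ((1 + c.γ * (u + y)) ^ 2 * i2 + Mq c.γ u 0 * i4))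

/-- the integral with the squares of the densities -/
noncomputable def I2 (z q : ℝ) : ℝ := (1 - 2 * z) * pv c.b0 q + 2 * z * pv c.bh q

/-- the integral with the squares of the rates -/
noncomputable def I4 (z q : ℝ) : ℝ := (1 - 2 * z) * pv c.c0 q + 2 * z * pv c.ch q

/-- the bound of one side -/
noncomputable def Sd (u y z : ℝ) : ℝ :=
  c.SA u y z y z (c.gf y) (c.I2 z (y + z)) (c.I4 z (y + z))

variable {c}

theorem SA_smul (u y z ry rz gy i2 i4 m : ℝ) :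
    c.SA u y z (m * ry) (m * rz) gy i2 i4 = m ^ 2 * c.SA u y z ry rz gy i2 i4 := by
  unfold SA
  ring

variable {sh : List ℚ}

theorem val_mwE (ρ : ℕ → ℝ) (u z : E) :
    (c.mwE u z).val ρ = Mq c.γ (u.val ρ) (z.val ρ) := by
  simp only [mwE, val_add, val_sub, val_mul, val_qc, val_one, Mq]

theorem val_arE (ρ : ℕ → ℝ) (u y z : E) :
    (c.arE u y z).val ρ = c.ar (u.val ρ) (y.val ρ) (z.val ρ) := by
  simp only [arE, ar, val_add, val_mul, val_qc, val_one]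

theorem val_SAe (ρ : ℕ → ℝ) (u y z ry rz gy i2 i4 : E) :
    (c.SAe u y z ry rz gy i2 i4).val ρ = c.SA (u.val ρ) (y.val ρ) (z.val ρ)
      (ry.val ρ) (rz.val ρ) (gy.val ρ) (i2.val ρ) (i4.val ρ) := by
  simp only [SAe, val_add, val_mul, val_qc, val_one, val_pow, val_pe, val_mwE,
    val_arE, val_zero, SA]
  push_cast
  ring

theorem val_kaE (ρ : ℕ → ℝ) (y z ry rz : E) :
    (kaE sh y z ry rz).val ρ = ((ry.val ρ) ^ 2 * pv sh (y.val ρ)
      + (rz.val ρ) ^ 2 * pv sh (z.val ρ)) * (1 / 2) := by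
  simp only [kaE, val_add, val_mul, val_qc, val_pow, val_pe]
  push_cast
  ring

theorem val_cL (ρ : ℕ → ℝ) (a h : ℚ) (y : E) :
    (cL a h y).val ρ = (1 - 2 * y.val ρ) * a + 2 * y.val ρ * h := by
  simp only [cL, val_add, val_mul, val_qc]
  push_cast
  ring

theorem val_iL (ρ : ℕ → ℝ) (a h : List ℚ) (z q : E) :
    (iL a h z q).val ρ = (1 - 2 * z.val ρ) * pv a (q.val ρ) + 2 * z.val ρ * pv h (q.val ρ) := by
  simp only [iL, val_add, val_sub, val_mul, val_one, val_two, val_pe]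

theorem fin_A (hc : c.Good) (hA : NN (c.eA sh)) {u y z : ℝ} (h0 : (c.u0 : ℝ) ≤ u)
    (h1 : u ≤ c.u1) (hz : 0 ≤ z) (hzy : z ≤ y) (hy : y ≤ xmQ) :
    c.Sd u y z + c.Sd u z y ≤ (Dat.rk sh y + Dat.rk sh z) * (1 / 2) := by
  have hy0 : 0 ≤ y := hz.trans hzy
  unfold Sd
  rcases hy0.eq_or_lt with h2 | h2
  · have z0 : z = 0 := le_antisymm (by rw [h2]; exact hzy) hz
    subst z0
    rw [← h2]
    unfold SA Dat.rk
    simp
  · have ap := xm0
    have uu := hc.uu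
    have a2 : (0 : ℝ) < c.u1 - c.u0 := by linarith
    have hZ : z / y ∈ Icc (0 : ℝ) 1 := ⟨div_nonneg hz hy0, (div_le_one h2).2 hzy⟩
    have hX : y / xmQ ∈ Icc (0 : ℝ) 1 := ⟨div_nonneg hy0 ap.le, (div_le_one ap).2 hy⟩
    have hU : (u - c.u0) / (c.u1 - c.u0) ∈ Icc (0 : ℝ) 1 :=
      ⟨div_nonneg (by linarith) a2.le, (div_le_one a2).2 (by linarith)⟩
    set U := (u - c.u0) / (c.u1 - c.u0) with hUd
    have key := hA (y / xmQ) (z / y) U 0 hX hZ hU ⟨le_rfl, zero_le_one⟩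
    have e1 : yA.val (pt (y / xmQ) (z / y) U 0) = y := by
      simp only [yA, val_mul, val_qc, val_vX]
      exact mul_div_cancel₀ _ ap.ne'
    have e2 : z / y * y = z := div_mul_cancel₀ _ h2.ne'
    have e3 : zA.val (pt (y / xmQ) (z / y) U 0) = z := by
      simp only [zA, val_mul, val_vZ, e1]
      exact e2
    have e4 : (c.uA).val (pt (y / xmQ) (z / y) U 0) = u := by
      simp only [uA, val_add, val_mul, val_qc, val_vU]
      push_cast
      rw [hUd, div_mul_cancel₀ _ a2.ne']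
      ring
    simp only [eA, val_sub, val_add, val_SAe, val_kaE, val_cL, val_iL, val_one, val_vZ,
      e1, e3, e4] at key
    rw [add_comm z y]
    have s1 := SA_smul (c := c) u y z 1 (z / y) (c.gf y) (c.I2 z (y + z))
      (c.I4 z (y + z)) y
    have s2 := SA_smul (c := c) u z y (z / y) 1 (c.gf z) (c.I2 y (y + z))
      (c.I4 y (y + z)) y
    rw [mul_one, mul_comm y (z / y), e2] at s1
    rw [mul_one, mul_comm y (z / y), e2] at s2
    rw [s1, s2]
    have e5 : (Dat.rk sh y + Dat.rk sh z) * (1 / 2)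
        = y ^ 2 * ((1 ^ 2 * pv sh y + (z / y) ^ 2 * pv sh z) * (1 / 2)) := by
      unfold Dat.rk
      have : z ^ 2 = (z / y * y) ^ 2 := by rw [e2]
      rw [this]
      ring
    rw [e5]
    have h9 := mul_nonneg (sq_nonneg y) key
    rw [mul_sub, mul_sub] at h9
    unfold gf I2 I4
    linarith

/-- **the final inequality** -/
theorem fin (hc : c.Good) (hk : NN (c.eA sh)) {u y z : ℝ} (h0 : (c.u0 : ℝ) ≤ u)
    (h1 : u ≤ c.u1) (hD : Dw u y z) :
    c.Sd u y z + c.Sd u z y ≤ (Dat.rk sh y + Dat.rk sh z) * (1 / 2) := by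
  rcases le_total z y with h2 | h2
  · exact fin_A hc hk h0 h1 hD.z0 h2 hD.ym
  · have := fin_A hc hk h0 h1 hD.y0 h2 hD.zm
    linarith

end Qn

end Pool.Agent.RZ.RCN.K.P3
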