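import Pool.Agent.RZ.RCO.PwD
import Pool.Agent.RZ.RCO.PwE

/-! The inequality of the pairs: the bound of one side by the numbers of a cell, for rows which
are functions of the degree (MP_73ccd0_lc, route M). -/

set_option autoImplicit false

namespace Pool.Agent.RZ.RCN.K.P3

open Set Finset MeasureTheory Pool.Agent.RZ.RCN.K Pool.Agent.RZ.RCRSHalf Pool.Agent.RZ.RCG
open Pool.Agent.RZ.RCG.Ct Pool.Agent.RZ.RCN.Ker Pool.Agent.RZ.RCRS Pool.Agent.RZ.RCM.Jen Pool.Agent.RZ.RCM9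
open Pool.Agent.RZ.RCN.Ck1

set_option linter.unusedSectionVars false

/-- the rows -/
noncomputable def lrow (f : ℝ → ℝ → ℝ) (y z s : ℝ) : ℝ := f (y + z) s

/-- the integrals of the rows, in units of `K` -/
structure Pj (c : Qn) (k : Kf) (t K : ℝ) (κ0 Fs : ℝ → ℝ) (ρ : ℝ → ℝ → ℝ) (θ θh : ℝ → ℝ)
    (f1 f2 f3 f4 : ℝ → ℝ → ℝ) (e1 : ℝ) : Prop where
  K0 : 0 ≤ K
  e1 : e1 ≤ K * c.e
  i1 : ∀ q ∈ Icc (0 : ℝ) (2 * xmQ),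
    ∫ s in (0 : ℝ)..t, κ0 s * θ s * f1 q s ≤ K * pv c.a1 q
  i2 : ∀ q ∈ Icc (0 : ℝ) (2 * xmQ), ∀ z ∈ Icc (0 : ℝ) xmQ,
    ∫ s in (0 : ℝ)..t, κ0 s * (θ s)⁻¹ * k.fh z s ^ 2 * f2 q s ≤ K * c.I2 z q
  h1 : ∀ q ∈ Icc (0 : ℝ) (2 * xmQ),
    ∫ s in (0 : ℝ)..t, Fs s * θh s * f3 q s ≤ K * pv c.a3 q
  h2 : ∀ q ∈ Icc (0 : ℝ) (2 * xmQ), ∀ z ∈ Icc (0 : ℝ) xmQ,
    ∫ s in (0 : ℝ)..t, Fs s * (θh s)⁻¹ * ρ z s ^ 2 * f4 q s ≤ K * c.I4 z q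

theorem Dw.facts {u y z : ℝ} (h : Dw u y z) :
    u + y ≤ 1 ∧ u + z ≤ 1 ∧ y + z ∈ Icc (0 : ℝ) (2 * xmQ) ∧ y + z ≤ 1 ∧
      y ∈ Icc (0 : ℝ) 1 ∧ z ∈ Icc (0 : ℝ) 1 := by
  have := xm2
  have a1 := h.u0
  have a2 := h.y0
  have a3 := h.z0
  have a4 := h.um
  have a5 := h.ym
  have a6 := h.zm
  exact ⟨by linarith, by linarith, ⟨by linarith, by linarith⟩, by linarith,
    ⟨a2, by linarith⟩, ⟨a3, by linarith⟩⟩

namespace Qn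

variable {c : Qn}

theorem gf_nonneg (hc : c.Good) {y : ℝ} (h0 : 0 ≤ y) (h1 : y ≤ xmQ) : 0 ≤ c.gf y := by
  have := xm2
  unfold gf
  exact add_nonneg (mul_nonneg (by linarith) hc.g0) (mul_nonneg (by linarith) hc.gh)

/-- the argument of the amplification -/
theorem ar_mem (hc : c.Good) {u y z : ℝ} (h1 : u ≤ c.u1) (hD : Dw u y z) :
    c.ar u y z ∈ Icc (0 : ℝ) c.qa := by
  have hu := hD.u0
  have hy := hD.y0
  have hz := hD.z0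
  have γ0 := hc.γ0
  have α0 := hc.αp.le
  have h2 : 0 ≤ c.γ * (u + y) := mul_nonneg γ0 (by linarith)
  have u1 : (0 : ℝ) ≤ c.u1 := hu.trans h1
  refine ⟨mul_nonneg hz (mul_nonneg α0 (by linarith)), le_trans ?_ hc.mq⟩
  unfold ar mm
  push_cast
  have h3 := mul_le_mul_of_nonneg_left (add_le_add h1 hD.ym) γ0
  refine mul_le_mul hD.zm (mul_le_mul_of_nonneg_left (by linarith) α0)
    (mul_nonneg α0 (by linarith)) xm0.le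

theorem psf_ar (u y z : ℝ) : psf c.α c.γ z (u + y) = ((1 - c.ar u y z) ^ 2)⁻¹ := rfl

theorem psf_q (hc : c.Good) {u y z : ℝ} (hq : c.ar u y z ∈ Icc (0 : ℝ) c.qa) :
    psf c.α c.γ z (u + y) ≤ pv c.pa (c.ar u y z) ∧
      (c.C * psf c.α c.γ z (u + y)) ^ 2 ≤ pv c.p4 (c.ar u y z) := by
  have h3 : 0 < 1 - c.ar u y z := by linarith [hq.2, hc.qa1]
  rw [psf_ar]
  constructor
  · rw [inv_le_iff_one_le_mul₀ (by positivity), mul_comm]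
    exact hc.pa _ hq
  · have e2 : ((c.C : ℝ) * ((1 - c.ar u y z) ^ 2)⁻¹) ^ 2
        = (c.C : ℝ) ^ 2 / (1 - c.ar u y z) ^ 4 := by
      rw [mul_pow, inv_pow, ← pow_mul, div_eq_mul_inv]
    rw [e2, div_le_iff₀ (by positivity), mul_comm]
    exact hc.p4 _ hq

/-- the scalars of the pairs by the checks -/
theorem ps3 (hc : c.Good) {t e1 Λ : ℝ} {k : Kf} {κd : ℝ → ℝ → ℝ → ℝ} {A : ℝ → ℝ → ℝ}
    (A1 : ∀ w ∈ Icc (0 : ℝ) 1, A w t ≤ c.α * (1 + c.γ * w))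
    (hL : Λ ≤ c.α * c.X) (Λ0 : 0 ≤ Λ)
    (ε : ∀ z ∈ Icc (0 : ℝ) 1, ∀ w ∈ Icc (0 : ℝ) 1,
      ∫ s in (0 : ℝ)..t, k.fh z s * (κd w t s - k.Pe w t) ≤ e1 * (1 + c.γ * w))
    (e0 : 0 ≤ e1) : Ps3 k κd A t c.α c.γ c.mt c.X c.p1 c.C e1 Λ where
  A1 := A1
  α0 := hc.αp
  γ0 := hc.γ0
  γ1 := hc.γ1
  q1 := hc.q1
  m1 := hc.m1
  m2 := hc.m2
  L := hL
  Λ0 := Λ0
  p0 := hc.p0
  p := hc.ex
  β1 := hc.β1
  cj := by
    have x0 := xm0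
    have m0 : (0 : ℝ) < c.mt := lt_of_lt_of_le (mul_pos hc.αp (by
      have := mul_nonneg hc.γ0 x0.le
      linarith)) hc.m1
    exact cjc_of m0 le_rfl hc.cj
  C0 := hc.C0.le
  ε := ε
  e0 := e0

end Qn

theorem int4q {t : ℝ} (t0 : 0 ≤ t) {f1 f2 f3 f4 : ℝ → ℝ} (c1 : ContinuousOn f1 (Icc 0 t))
    (c2 : ContinuousOn f2 (Icc 0 t)) (c3 : ContinuousOn f3 (Icc 0 t))
    (c4 : ContinuousOn f4 (Icc 0 t)) (a b c d : ℝ) :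
    ∫ s in (0 : ℝ)..t, (a * f1 s + b * f2 s + c * f3 s + d * f4 s)
      = a * (∫ s in (0 : ℝ)..t, f1 s) + b * (∫ s in (0 : ℝ)..t, f2 s)
        + c * (∫ s in (0 : ℝ)..t, f3 s) + d * (∫ s in (0 : ℝ)..t, f4 s) := by
  have m0 : (0 : ℝ) ∈ Icc 0 t := ⟨le_rfl, t0⟩
  have mt : t ∈ Icc 0 t := ⟨t0, le_rfl⟩
  have i1 : IntervalIntegrable (fun s => a * f1 s) volume 0 t := (ii_of t0 c1 m0 mt).const_mul a
  have i2 : IntervalIntegrable (fun s => b * f2 s) volume 0 t := (ii_of t0 c2 m0 mt).const_mul b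
  have i3 : IntervalIntegrable (fun s => c * f3 s) volume 0 t := (ii_of t0 c3 m0 mt).const_mul c
  have i4 : IntervalIntegrable (fun s => d * f4 s) volume 0 t := (ii_of t0 c4 m0 mt).const_mul d
  have i12 : IntervalIntegrable (fun s => a * f1 s + b * f2 s) volume 0 t := i1.add i2
  have i13 : IntervalIntegrable (fun s => a * f1 s + b * f2 s + c * f3 s) volume 0 t := i12.add i3
  rw [intervalIntegral.integral_add i13 i4, intervalIntegral.integral_add i12 i3,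
    intervalIntegral.integral_add i1 i2]
  simp only [intervalIntegral.integral_const_mul]

/-- the bound of one side with a quadratic giver -/
theorem quad_le {c : Qn} (hc : c.Good) {k : Kf} {t K : ℝ}
    {κ0 Fs : ℝ → ℝ} {ρ : ℝ → ℝ → ℝ} {θ θh : ℝ → ℝ} {f1 f2 f3 f4 : ℝ → ℝ → ℝ} {e1 : ℝ}
    (hi : Pj c k t K κ0 Fs ρ θ θh f1 f2 f3 f4 e1) (t0 : 0 ≤ t)
    (cκ0 : ContinuousOn κ0 (Icc 0 t)) (cFs : ContinuousOn Fs (Icc 0 t))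
    (cρ : ∀ z ∈ Icc (0 : ℝ) 1, ContinuousOn (ρ z) (Icc 0 t)) (cθ : ContinuousOn θ (Icc 0 t))
    (cθh : ContinuousOn θh (Icc 0 t)) (θ0 : ∀ s ∈ Icc 0 t, 0 < θ s)
    (θh0 : ∀ s ∈ Icc 0 t, 0 < θh s)
    (cf1 : ∀ q ∈ Icc (0 : ℝ) 1, ContinuousOn (f1 q) (Icc 0 t))
    (cf2 : ∀ q ∈ Icc (0 : ℝ) 1, ContinuousOn (f2 q) (Icc 0 t))
    (cf3 : ∀ q ∈ Icc (0 : ℝ) 1, ContinuousOn (f3 q) (Icc 0 t))
    (cf4 : ∀ q ∈ Icc (0 : ℝ) 1, ContinuousOn (f4 q) (Icc 0 t))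
    (cfh : ∀ y ∈ Icc (0 : ℝ) 1, ContinuousOn (k.fh y) (Icc 0 t))
    {u y z v w2 : ℝ} (hD : Dw u y z) (v2 : v ^ 2 ≤ w2) :
    ∫ s in (0 : ℝ)..t, Bd2 k c.γ κ0 Fs ρ (lrow f1) (lrow f2) (lrow f3) (lrow f4) (θ s) (θh s)
        u y z y z v z s
      ≤ K * ((1 / 2) * (w2 * (pv c.a1 (y + z) + Mq c.γ u z * pv c.a3 (y + z))
        + z ^ 2 * ((1 + c.γ * (u + y)) ^ 2 * c.I2 z (y + z)
          + Mq c.γ u 0 * c.I4 z (y + z)))) := by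
  have hu := hD.u0
  have hy := hD.y0
  have hz := hD.z0
  obtain ⟨huy, huz, hq2, hyz, hym, hzm⟩ := hD.facts
  have hzx : z ∈ Icc (0 : ℝ) xmQ := ⟨hz, hD.zm⟩
  have hkm : y + z ∈ Icc (0 : ℝ) 1 := ⟨by linarith, hyz⟩
  have K0 := hi.K0
  have γ0 := hc.γ0
  have γuy : 0 ≤ c.γ * (u + y) := mul_nonneg γ0 (by linarith)
  have M0 : 0 ≤ Mq c.γ u z := Mq_nonneg γ0 hu huz
  have M1 : 0 ≤ Mq c.γ u 0 := Mq_nonneg γ0 hu (by linarith)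
  have ci : ContinuousOn (fun s => (θ s)⁻¹) (Icc 0 t) := cθ.inv₀ fun s hs => (θ0 s hs).ne'
  have cih : ContinuousOn (fun s => (θh s)⁻¹) (Icc 0 t) :=
    cθh.inv₀ fun s hs => (θh0 s hs).ne'
  have c1 : ContinuousOn (fun s => κ0 s * θ s * f1 (y + z) s) (Icc 0 t) :=
    (cκ0.mul cθ).mul (cf1 _ hkm)
  have c2 : ContinuousOn (fun s => κ0 s * (θ s)⁻¹ * k.fh z s ^ 2 * f2 (y + z) s) (Icc 0 t) :=
    ((cκ0.mul ci).mul ((cfh z hzm).pow 2)).mul (cf2 _ hkm)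
  have c3 : ContinuousOn (fun s => Fs s * θh s * f3 (y + z) s) (Icc 0 t) :=
    (cFs.mul cθh).mul (cf3 _ hkm)
  have c4 : ContinuousOn (fun s => Fs s * (θh s)⁻¹ * ρ z s ^ 2 * f4 (y + z) s) (Icc 0 t) :=
    ((cFs.mul cih).mul ((cρ z hzm).pow 2)).mul (cf4 _ hkm)
  have split : ∫ s in (0 : ℝ)..t, Bd2 k c.γ κ0 Fs ρ (lrow f1) (lrow f2) (lrow f3)
        (lrow f4) (θ s) (θh s) u y z y z v z s
      = (1 / 2) * ((v ^ 2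
            * (∫ s in (0 : ℝ)..t, κ0 s * θ s * f1 (y + z) s)
          + (z * (1 + c.γ * (u + y))) ^ 2
            * (∫ s in (0 : ℝ)..t, κ0 s * (θ s)⁻¹ * k.fh z s ^ 2 * f2 (y + z) s))
        + (v ^ 2 * Mq c.γ u z * (∫ s in (0 : ℝ)..t, Fs s * θh s * f3 (y + z) s)
          + z ^ 2 * Mq c.γ u 0
            * (∫ s in (0 : ℝ)..t, Fs s * (θh s)⁻¹ * ρ z s ^ 2 * f4 (y + z) s))) := by
    have e : ∀ s, Bd2 k c.γ κ0 Fs ρ (lrow f1) (lrow f2) (lrow f3) (lrow f4) (θ s) (θh s)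
          u y z y z v z s
        = ((1 / 2) * (v ^ 2)) * (κ0 s * θ s * f1 (y + z) s)
          + ((1 / 2) * ((z * (1 + c.γ * (u + y))) ^ 2))
            * (κ0 s * (θ s)⁻¹ * k.fh z s ^ 2 * f2 (y + z) s)
          + ((1 / 2) * (v ^ 2 * Mq c.γ u z)) * (Fs s * θh s * f3 (y + z) s)
          + ((1 / 2) * (z ^ 2 * Mq c.γ u 0))
            * (Fs s * (θh s)⁻¹ * ρ z s ^ 2 * f4 (y + z) s) := by
      intro s
      unfold Bd2 lrow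
      ring
    simp only [e]
    rw [int4q t0 c1 c2 c3 c4]
    ring
  have b1 := hi.i1 _ hq2
  have b2 := hi.i2 _ hq2 z hzx
  have b3 := hi.h1 _ hq2
  have b4 := hi.h2 _ hq2 z hzx
  rw [split]
  set A := ∫ s in (0 : ℝ)..t, κ0 s * θ s * f1 (y + z) s
  set B := ∫ s in (0 : ℝ)..t, κ0 s * (θ s)⁻¹ * k.fh z s ^ 2 * f2 (y + z) s
  set H1 := ∫ s in (0 : ℝ)..t, Fs s * θh s * f3 (y + z) s
  set H2 := ∫ s in (0 : ℝ)..t, Fs s * (θh s)⁻¹ * ρ z s ^ 2 * f4 (y + z) s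
  set i2 := c.I2 z (y + z) with hi2
  set i4 := c.I4 z (y + z) with hi4
  have i1n := hc.a1 _ hq2
  have i3n := hc.a3 _ hq2
  have d0 : (0 : ℝ) ≤ 1 / 2 := by norm_num
  have f1 : v ^ 2 * A ≤ w2 * (K * pv c.a1 (y + z)) :=
    (mul_le_mul_of_nonneg_left b1 (sq_nonneg v)).trans
      (mul_le_mul_of_nonneg_right v2 (mul_nonneg K0 i1n))
  have f2 : (z * (1 + c.γ * (u + y))) ^ 2 * B
      ≤ (z * (1 + c.γ * (u + y))) ^ 2 * (K * i2) :=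
    mul_le_mul_of_nonneg_left b2 (sq_nonneg _)
  have f3 : v ^ 2 * Mq c.γ u z * H1
      ≤ w2 * Mq c.γ u z * (K * pv c.a3 (y + z)) :=
    (mul_le_mul_of_nonneg_left b3 (mul_nonneg (sq_nonneg v) M0)).trans
      (mul_le_mul_of_nonneg_right (mul_le_mul_of_nonneg_right v2 M0)
        (mul_nonneg K0 i3n))
  have f4 : z ^ 2 * Mq c.γ u 0 * H2 ≤ z ^ 2 * Mq c.γ u 0 * (K * i4) :=
    mul_le_mul_of_nonneg_left b4 (mul_nonneg (sq_nonneg _) M1)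
  have := mul_le_mul_of_nonneg_left (add_le_add (add_le_add f1 f2) (add_le_add f3 f4)) d0
  refine this.trans (le_of_eq ?_)
  ring

/-- **the bound of one side** -/
theorem Pv2_le {c : Qn} (hc : c.Good) {k : Kf} {t K : ℝ}
    {κ0 Fs : ℝ → ℝ} {ρ : ℝ → ℝ → ℝ} {θ θh : ℝ → ℝ} {f1 f2 f3 f4 : ℝ → ℝ → ℝ} {e1 : ℝ}
    (hi : Pj c k t K κ0 Fs ρ θ θh f1 f2 f3 f4 e1) (t0 : 0 ≤ t)
    (cκ0 : ContinuousOn κ0 (Icc 0 t)) (cFs : ContinuousOn Fs (Icc 0 t))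
    (cρ : ∀ z ∈ Icc (0 : ℝ) 1, ContinuousOn (ρ z) (Icc 0 t)) (cθ : ContinuousOn θ (Icc 0 t))
    (cθh : ContinuousOn θh (Icc 0 t)) (θ0 : ∀ s ∈ Icc 0 t, 0 < θ s)
    (θh0 : ∀ s ∈ Icc 0 t, 0 < θh s)
    (cf1 : ∀ q ∈ Icc (0 : ℝ) 1, ContinuousOn (f1 q) (Icc 0 t))
    (cf2 : ∀ q ∈ Icc (0 : ℝ) 1, ContinuousOn (f2 q) (Icc 0 t))
    (cf3 : ∀ q ∈ Icc (0 : ℝ) 1, ContinuousOn (f3 q) (Icc 0 t))
    (cf4 : ∀ q ∈ Icc (0 : ℝ) 1, ContinuousOn (f4 q) (Icc 0 t))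
    (cfh : ∀ y ∈ Icc (0 : ℝ) 1, ContinuousOn (k.fh y) (Icc 0 t))
    {u y z : ℝ} (hu1 : u ≤ c.u1) (hD : Dw u y z) {g : ℝ → ℝ} (hg : g y = c.gf y) :
    Pv2 k g t c.α c.γ c.C e1 κ0 Fs ρ (lrow f1) (lrow f2) (lrow f3) (lrow f4) θ θh
      u y z ≤ K * c.Sd u y z := by
  have hu := hD.u0
  have hy := hD.y0
  have hz := hD.z0
  have g0 := Qn.gf_nonneg hc hy hD.ym
  have K0 := hi.K0
  have e0 := hc.e0
  have γ0 := hc.γ0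
  have γuy : 0 ≤ c.γ * (u + y) := mul_nonneg γ0 (by linarith)
  have pn := psf_nonneg (c.α : ℝ) c.γ z (u + y)
  have hq := Qn.ar_mem hc hu1 hD
  obtain ⟨ps1, ps2⟩ := Qn.psf_q hc hq
  have ev : vw g c.α c.γ u y z = y * c.gf y * psf c.α c.γ z (u + y) := by
    unfold vw; rw [hg]
  have v0 : 0 ≤ vw g c.α c.γ u y z := by
    rw [ev]; exact mul_nonneg (mul_nonneg hy g0) pn
  unfold Pv2
  rw [ev] at v0 ⊢
  set q := c.ar u y z with hqd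
  have t1 : y * c.gf y * psf c.α c.γ z (u + y) * (z * (e1 * (1 + c.γ * (u + y))))
        ≤ K * (y * z * c.gf y * (c.e * (1 + c.γ * (u + y))) * pv c.pa q) := by
    have v1 : y * c.gf y * psf c.α c.γ z (u + y) ≤ y * c.gf y * pv c.pa q :=
      mul_le_mul_of_nonneg_left ps1 (mul_nonneg hy g0)
    have h1 : z * (e1 * (1 + c.γ * (u + y))) ≤ z * (K * c.e * (1 + c.γ * (u + y))) :=
      mul_le_mul_of_nonneg_left (mul_le_mul_of_nonneg_right hi.e1 (by linarith)) hz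
    have h2 : 0 ≤ z * (K * c.e * (1 + c.γ * (u + y))) :=
      mul_nonneg hz (mul_nonneg (mul_nonneg K0 e0) (by linarith))
    calc _ ≤ (y * c.gf y * pv c.pa q) * (z * (K * c.e * (1 + c.γ * (u + y)))) :=
          (mul_le_mul_of_nonneg_left h1 v0).trans (mul_le_mul_of_nonneg_right v1 h2)
      _ = _ := by ring
  have v2 : (c.C * (y * c.gf y * psf c.α c.γ z (u + y))) ^ 2
      ≤ y ^ 2 * c.gf y ^ 2 * pv c.p4 q := by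
    calc _ = y ^ 2 * c.gf y ^ 2 * (c.C * psf c.α c.γ z (u + y)) ^ 2 := by ring
      _ ≤ _ := mul_le_mul_of_nonneg_left ps2 (by positivity)
  have t2 := quad_le hc hi t0 cκ0 cFs cρ cθ cθh θ0 θh0 cf1 cf2 cf3 cf4 cfh hD v2
  refine (add_le_add t1 t2).trans (le_of_eq ?_)
  unfold Qn.Sd Qn.SA
  rw [← hqd]
  ring

end Pool.Agent.RZ.RCN.K.P3
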