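import Pool.Agent.RZ.RCO.PwF

/-! The inequality of one pair at one time, from the rows of the exponents and the numbers of a
cell (MP_73ccd0_lc, route M). -/

set_option autoImplicit false

namespace Pool.Agent.RZ.RCN.K.P3

open Set Finset MeasureTheory Pool.Agent.RZ.RCN.K Pool.Agent.RZ.RCRSHalf Pool.Agent.RZ.RCG
open Pool.Agent.RZ.RCG.Ct Pool.Agent.RZ.RCN.Ker Pool.Agent.RZ.RCRS Pool.Agent.RZ.RCM.Jen Pool.Agent.RZ.RCM9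
open Pool.Agent.RZ.RCN.Ck1

set_option linter.unusedSectionVars false

section
variable {V : Type*} [Fintype V] [DecidableEq V]

/-- the rows, columns and entries of the exponents of the closures in the world of `a`, `b`:
weights `ω` of the vertices -/
structure Rp (x : V → V → ℝ) (P : V → Prop) [DecidablePred P]
    (L Lt : V → V → V → V → ℝ → ℝ → ℝ) (a b : V) (t : ℝ) (ω : ℝ → ℝ)
    (f1 f2 f3 f4 : ℝ → ℝ → ℝ) (S St : ℝ → ℝ) : Prop where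
  r1 : ∀ c ∈ ({a, b} : Finset V)ᶜ, ∀ s ∈ Icc 0 t,
    ∑ d ∈ ({a, b, c} : Finset V)ᶜ, rP P L a b c d t s * (ω (x a d + x b d))⁻¹
      ≤ f1 (x a c + x b c) s
  r2 : ∀ d ∈ ({a, b} : Finset V)ᶜ, ∀ s ∈ Icc 0 t,
    ∑ c ∈ ({a, b, d} : Finset V)ᶜ, rP P L a b c d t s * ω (x a d + x b d)
      ≤ f2 (x a d + x b d) s
  r3 : ∀ c ∈ ({a, b} : Finset V)ᶜ, ∀ s ∈ Icc 0 t,
    ∑ d ∈ ({a, b, c} : Finset V)ᶜ, rP P Lt a b c d t s * (ω (x a d + x b d))⁻¹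
      ≤ f3 (x a c + x b c) s
  r4 : ∀ d ∈ ({a, b} : Finset V)ᶜ, ∀ s ∈ Icc 0 t,
    ∑ c ∈ ({a, b, d} : Finset V)ᶜ, rP P Lt a b c d t s * ω (x a d + x b d)
      ≤ f4 (x a d + x b d) s
  eL : ∀ c ∈ ({a, b} : Finset V)ᶜ, ∀ s ∈ Icc 0 t,
    ∑ d ∈ ({a, b, c} : Finset V)ᶜ, rP P L a b c d t s ≤ S s
  eT : ∀ c ∈ ({a, b} : Finset V)ᶜ, ∀ s ∈ Icc 0 t,
    ∑ d ∈ ({a, b, c} : Finset V)ᶜ, rP P Lt a b c d t s ≤ St s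
  pd : ∀ c d, ¬P d → x b d ≠ 0 → ∀ s ∈ Icc 0 t, L a b c d t s = 0 ∧ Lt a b c d t s = 0

/-- the fluxes and hazards at the time `t` -/
structure Fp (x : V → V → ℝ) (P : V → Prop) [DecidablePred P] (k : Kf) (κd : ℝ → ℝ → ℝ → ℝ)
    (R : V → V → V → ℝ → ℝ → ℝ) (t γ : ℝ) (κ0 Fs : ℝ → ℝ) (ρ : ℝ → ℝ → ℝ) : Prop where
  γ0 : 0 ≤ γ
  cκ0 : ContinuousOn κ0 (Icc 0 t)
  k0 : ∀ s ∈ Icc 0 t, 0 ≤ κ0 s
  hκ : ∀ w ∈ Icc (0 : ℝ) 1, ∀ s ∈ Icc 0 t, κd w t s ≤ κ0 s * (1 + γ * w)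
  cFs : ContinuousOn Fs (Icc 0 t)
  Fs0 : ∀ s ∈ Icc 0 t, 0 ≤ Fs s
  hF : ∀ b d, P b → ∀ s ∈ Icc 0 t, ∫ r in (0 : ℝ)..s, fq x P k.fh b d r * κ0 r ≤ Fs s
  cρ : ∀ z ∈ Icc (0 : ℝ) 1, ContinuousOn (ρ z) (Icc 0 t)
  ρ0 : ∀ z ∈ Icc (0 : ℝ) 1, ∀ s ∈ Icc 0 t, 0 ≤ ρ z s
  hR : ∀ a b d, P b → P d → ∀ s ∈ Icc 0 t, R a b d t s ≤ x b d * ρ (x b d) s
  hR0 : ∀ a b d, x b d = 0 → ∀ s ∈ Icc 0 t, R a b d t s ≤ 0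

variable {x : V → V → ℝ} {P : V → Prop} [DecidablePred P] {k : Kf} {N : ℕ}
variable {κd : ℝ → ℝ → ℝ → ℝ} {R : V → V → V → ℝ → ℝ → ℝ} {L Lt : V → V → V → V → ℝ → ℝ → ℝ}
variable {a b : V} {t γ : ℝ} {κ0 Fs ω S St gg rr : ℝ → ℝ} {ρ : ℝ → ℝ → ℝ}
variable {f1 f2 f3 f4 : ℝ → ℝ → ℝ} {BA BB : ℝ}

theorem xx_mem (hx : Wt x P 1) (hab : a ≠ b) (c : V) : x a c + x b c ∈ Icc (0 : ℝ) 1 := by
  have := two_mem hx c hab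
  rwa [hx.symm c a, hx.symm c b] at this

theorem pw2_of (hb : P b) (hf : Fp x P k κd R t γ κ0 Fs ρ)
    (hr : Rp x P L Lt a b t ω f1 f2 f3 f4 S St)
    (ω0 : ∀ q, 0 < ω q)
    (cf1 : ∀ q ∈ Icc (0 : ℝ) 1, ContinuousOn (f1 q) (Icc 0 t))
    (cf2 : ∀ q ∈ Icc (0 : ℝ) 1, ContinuousOn (f2 q) (Icc 0 t))
    (cf3 : ∀ q ∈ Icc (0 : ℝ) 1, ContinuousOn (f3 q) (Icc 0 t))
    (cf4 : ∀ q ∈ Icc (0 : ℝ) 1, ContinuousOn (f4 q) (Icc 0 t)) :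
    Pw2 x P k κd R L Lt a b t γ κ0 Fs ρ (fun d _ => ω (x a d + x b d)) (lrow f1) (lrow f2)
      (lrow f3) (lrow f4) where
  γ0 := hf.γ0
  cκ0 := hf.cκ0
  k0 := hf.k0
  hκ := hf.hκ
  cFs := hf.cFs
  Fs0 := hf.Fs0
  hF := fun d _ s hs => hf.hF b d hb s hs
  cρ := hf.cρ
  ρ0 := hf.ρ0
  hR := fun d hd s hs => hf.hR a b d hb hd s hs
  hR0 := fun d h s hs => hf.hR0 a b d h s hs
  cw := fun _ => continuousOn_const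
  w0 := fun _ _ _ => ω0 _
  cl1 := fun y z h1 h2 h3 => (cf1 _ ⟨by linarith, h3⟩)
  cl2 := fun y z h1 h2 h3 => (cf2 _ ⟨by linarith, h3⟩)
  ch1 := fun y z h1 h2 h3 => (cf3 _ ⟨by linarith, h3⟩)
  ch2 := fun y z h1 h2 h3 => (cf4 _ ⟨by linarith, h3⟩)
  r1 := hr.r1
  r2 := hr.r2
  r3 := hr.r3
  r4 := hr.r4
  pd := hr.pd

theorem pe2_of (hx : Wt x P 1) (hX : Xc x P) (hb : P b)
    (hr : Rp x P L Lt a b t ω f1 f2 f3 f4 S St)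
    (cS : ContinuousOn S (Icc 0 t)) (cSt : ContinuousOn St (Icc 0 t))
    (cg : ContinuousOn gg (Icc 0 t)) (cr : ContinuousOn rr (Icc 0 t))
    (g0 : ∀ s ∈ Icc 0 t, 0 ≤ gg s) (r0 : ∀ s ∈ Icc 0 t, 0 ≤ rr s)
    (gz : ∀ z ∈ Icc (0 : ℝ) xmQ, ∀ s ∈ Icc 0 t, z * k.fh z s ≤ gg s)
    (rz : ∀ z ∈ Icc (0 : ℝ) xmQ, ∀ s ∈ Icc 0 t, z * ρ z s ≤ rr s)
    (eA : ∫ s in (0 : ℝ)..t, gg s * κ0 s * S s ≤ (1 - 2 * xmQ) * BA)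
    (eB : ∫ s in (0 : ℝ)..t, Fs s * (rr s * St s) ≤ BB)
    (BA0 : 0 ≤ BA) (BB0 : 0 ≤ BB) :
    Pe2 x P k L Lt a b t κ0 Fs ρ S St gg rr BA BB where
  cS := cS
  cSt := cSt
  cg := cg
  cr := cr
  g0 := g0
  r0 := r0
  eL := hr.eL
  eT := hr.eT
  gd := fun d hdP s hs => by
    have e : fq x P k.fh b d s = k.fh (x b d) s := by
      unfold fq; rw [if_pos hdP]
    rw [e]
    exact gz _ ⟨hx.nonneg b d, hX b d hb hdP⟩ s hs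
  rd := fun d hdP s hs => rz _ ⟨hx.nonneg b d, hX b d hb hdP⟩ s hs
  eA := eA
  eB := eB
  BA0 := BA0
  BB0 := BB0

/-- **the inequality of one pair at one time** -/
theorem pp_t {c : Qn} (hc : c.Good) {sh : List ℚ} (hk1 : NN (c.eA sh)) {A : ℝ → ℝ → ℝ}
    {e1 K : ℝ} {θ θh : ℝ → ℝ}
    (A1 : ∀ w ∈ Icc (0 : ℝ) 1, A w t ≤ c.α * (1 + c.γ * w))
    (ε : ∀ z ∈ Icc (0 : ℝ) 1, ∀ w ∈ Icc (0 : ℝ) 1,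
      ∫ s in (0 : ℝ)..t, k.fh z s * (κd w t s - k.Pe w t) ≤ e1 * (1 + c.γ * w))
    (e0 : 0 ≤ e1)
    (hf : Lf N k κd R L Lt) (hx : Wt x P 1) (hX : Xc x P) (hk : k.Ok)
    (hfc : ∀ y ∈ Icc (0 : ℝ) 1, ContinuousOn (k.fh y) (Icc 0 1))
    (cPe : ∀ w, ContinuousOn (k.Pe w) (Icc 0 1)) (hA : Ab k κd A) (ht : t ∈ Icc (0 : ℝ) 1)
    (ha : P a) (hb : P b) (hab : a ≠ b) (hu0 : (c.u0 : ℝ) ≤ x a b) (hu1 : x a b ≤ c.u1)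
    (hF : Fp x P k κd R t c.γ κ0 Fs ρ)
    (hr : Rp x P L Lt a b t ω f1 f2 f3 f4 S St)
    (hr' : Rp x P L Lt b a t ω f1 f2 f3 f4 S St)
    (ω0 : ∀ q, 0 < ω q)
    (cf1 : ∀ q ∈ Icc (0 : ℝ) 1, ContinuousOn (f1 q) (Icc 0 t))
    (cf2 : ∀ q ∈ Icc (0 : ℝ) 1, ContinuousOn (f2 q) (Icc 0 t))
    (cf3 : ∀ q ∈ Icc (0 : ℝ) 1, ContinuousOn (f3 q) (Icc 0 t))
    (cf4 : ∀ q ∈ Icc (0 : ℝ) 1, ContinuousOn (f4 q) (Icc 0 t))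
    (cS : ContinuousOn S (Icc 0 t)) (cSt : ContinuousOn St (Icc 0 t))
    (cg : ContinuousOn gg (Icc 0 t)) (cr : ContinuousOn rr (Icc 0 t))
    (g0 : ∀ s ∈ Icc 0 t, 0 ≤ gg s) (r0 : ∀ s ∈ Icc 0 t, 0 ≤ rr s)
    (gz : ∀ z ∈ Icc (0 : ℝ) xmQ, ∀ s ∈ Icc 0 t, z * k.fh z s ≤ gg s)
    (rz : ∀ z ∈ Icc (0 : ℝ) xmQ, ∀ s ∈ Icc 0 t, z * ρ z s ≤ rr s)
    (eA : ∫ s in (0 : ℝ)..t, gg s * κ0 s * S s ≤ (1 - 2 * xmQ) * BA)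
    (eB : ∫ s in (0 : ℝ)..t, Fs s * (rr s * St s) ≤ BB)
    (BA0 : 0 ≤ BA) (BB0 : 0 ≤ BB) (hL : BA + BB ≤ c.α * c.X)
    (cθ : ContinuousOn θ (Icc 0 t)) (cθh : ContinuousOn θh (Icc 0 t))
    (θ0 : ∀ s ∈ Icc 0 t, 0 < θ s) (θh0 : ∀ s ∈ Icc 0 t, 0 < θh s)
    {g : ℝ → ℝ} (hg : ∀ y ∈ Icc (0 : ℝ) 1, (1 + t) * k.fh y t ≤ g y)
    (hgc : ∀ y ∈ Icc (0 : ℝ) xmQ, g y = c.gf y)
    (hi : Pj c k t K κ0 Fs ρ θ θh f1 f2 f3 f4 e1) :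
    wE k.fh k.mb ((xdOf x κd R L Lt).E x P k) x P a b t
      ≤ K * ∑ d ∈ ({a, b} : Finset V)ᶜ,
        (Dat.rk sh (xr x P a d) / 2 + Dat.rk sh (xr x P b d) / 2) := by
  have hw := pw2_of hb hF hr ω0 cf1 cf2 cf3 cf4
  have hw' := pw2_of ha hF hr' ω0 cf1 cf2 cf3 cf4
  have he := pe2_of hx hX hb hr cS cSt cg cr g0 r0 gz rz eA eB BA0 BB0
  have he2 := pe2_of hx hX ha hr' cS cSt cg cr g0 r0 gz rz eA eB BA0 BB0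
  have cfh : ∀ y ∈ Icc (0 : ℝ) 1, ContinuousOn (k.fh y) (Icc 0 t) := fun y hy =>
    (hfc y hy).mono (Icc_subset_Icc_right ht.2)
  have eab : ({b, a} : Finset V) = {a, b} := Finset.pair_comm b a
  have hs := Qn.ps3 (k := k) (κd := κd) hc A1 hL (add_nonneg BA0 BB0) ε e0
  refine pp_abs2 (K := K)
    (kb := fun y z => Dat.rk sh y / 2 + Dat.rk sh z / 2) hs hf hx hX hk hfc cPe hA ht ha hb hab hw hw'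
    (fun e he' heP => LamL_X hf hx hX hk hfc ht hw he ha hb hab heP he')
    (fun e he' heP => ?_)
    cθ cθh θ0 θh0 hg ?_ ?_
  · have h3 := LamL_X (a := b) (b := a) hf hx hX hk hfc ht hw' he2 hb ha hab.symm heP
      (by rwa [eab])
    rwa [hx.symm b a] at h3
  · simp [Dat.rk]
  · intro y z hD
    have p1 := Pv2_le hc hi ht.1 hF.cκ0 hF.cFs hF.cρ cθ cθh θ0 θh0 cf1 cf2 cf3 cf4 cfh hu1 hD
      (hgc y ⟨hD.y0, hD.ym⟩)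
    have p2 := Pv2_le hc hi ht.1 hF.cκ0 hF.cFs hF.cρ cθ cθh θ0 θh0 cf1 cf2 cf3 cf4 cfh hu1
      hD.swap (hgc z ⟨hD.z0, hD.zm⟩)
    have p3 := mul_le_mul_of_nonneg_left (Qn.fin hc hk1 hu0 hu1 hD) hi.K0
    refine (add_le_add p1 p2).trans ?_
    rw [← mul_add]
    refine p3.trans (le_of_eq ?_)
    ring

end

end Pool.Agent.RZ.RCN.K.P3
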