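import Pool.Agent.RZ.RCO.PwE

/-! The inequality of the pairs: the numbers of a big cell and of a range of weights, and the
inequality of the pairs in them (MP_73ccd0_lc, route M). -/

set_option autoImplicit false

namespace Pool.Agent.RZ.RCN.K.P3

open Set Finset MeasureTheory Pool.Agent.RZ.RCN.K Pool.Agent.RZ.RCRSHalf Pool.Agent.RZ.RCG
open Pool.Agent.RZ.RCG.Ct Pool.Agent.RZ.RCN.Ker Pool.Agent.RZ.RCRS Pool.Agent.RZ.RCM.Jen Pool.Agent.RZ.RCM9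
open Pool.Agent.RZ.RCN.Ck1 Pool.Agent.RZ.RCO.RT

set_option linter.unusedSectionVars false

/-! ### chords -/

theorem cq3_mono {a h b a' h' b' z : ℝ} (hz : z ∈ Icc (0 : ℝ) 1) (h1 : a ≤ a') (h2 : h ≤ h')
    (h3 : b ≤ b') : cq3 a h b z ≤ cq3 a' h' b' z := by
  rcases le_total z (1 / 2) with h | h
  · rw [cq3_lo h, cq3_lo h]
    have e1 := mul_le_mul_of_nonneg_left h1 (show 0 ≤ 1 - 2 * z by linarith)
    have e2 := mul_le_mul_of_nonneg_left h2 (show 0 ≤ 2 * z by linarith [hz.1])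
    linarith
  · rw [cq3_hi h, cq3_hi h]
    have e1 := mul_le_mul_of_nonneg_left h2 (show 0 ≤ 2 - 2 * z by linarith [hz.2])
    have e2 := mul_le_mul_of_nonneg_left h3 (show 0 ≤ 2 * z - 1 by linarith)
    linarith

theorem cq3_mono_lo {a h b a' h' b' z : ℝ} (hz : 0 ≤ z) (hz2 : z ≤ 1 / 2) (h1 : a ≤ a')
    (h2 : h ≤ h') : cq3 a h b z ≤ cq3 a' h' b' z := by
  rw [cq3_lo hz2, cq3_lo hz2]
  have e1 := mul_le_mul_of_nonneg_left h1 (show 0 ≤ 1 - 2 * z by linarith)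
  have e2 := mul_le_mul_of_nonneg_left h2 (show 0 ≤ 2 * z by linarith)
  linarith

theorem cq3_smul (m a h b z : ℝ) : cq3 (m * a) (m * h) (m * b) z = m * cq3 a h b z := by
  unfold cq3
  split_ifs <;> ring

theorem cq3_le {a h b B z : ℝ} (hz : z ∈ Icc (0 : ℝ) 1) (h1 : a ≤ B) (h2 : h ≤ B) (h3 : b ≤ B) :
    cq3 a h b z ≤ B := by
  have := cq3_mono hz h1 h2 h3
  refine this.trans (le_of_eq ?_)
  unfold cq3
  split_ifs <;> ring

/-- a chord below its values at the ends -/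
theorem cq3_ends {a h b m B z : ℝ} (hz : z ∈ Icc (0 : ℝ) m) (hm : 2 * m ≤ 1) (h0 : a ≤ B)
    (h1 : a + 2 * m * (h - a) ≤ B) : cq3 a h b z ≤ B := by
  obtain ⟨z0, z1⟩ := hz
  rw [cq3_lo (by linarith)]
  rcases z0.eq_or_lt with h3 | h3
  · rw [← h3]; linarith
  · have m0 : (0 : ℝ) < m := h3.trans_le z1
    have e1 := mul_le_mul_of_nonneg_left h1 (div_nonneg z0 m0.le)
    have e2 := mul_le_mul_of_nonneg_left h0 (show 0 ≤ 1 - z / m by
      rw [sub_nonneg, div_le_one m0]; exact z1)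
    have e3 : z / m * m = z := div_mul_cancel₀ _ m0.ne'
    nlinarith

/-- the square of a chord for small weights -/
theorem cq3_sqx {a h b B m z : ℝ} (hz : z ∈ Icc (0 : ℝ) m) (hm : 2 * m ≤ 1) :
    cq3 a h b z ^ 2 ≤ cq3 (a ^ 2) (a ^ 2 + (h - a) * (2 * a + 2 * m * (h - a))) B z := by
  obtain ⟨z0, z1⟩ := hz
  rw [cq3_lo (by linarith), cq3_lo (by linarith)]
  have := mul_nonneg (mul_nonneg z0 (sub_nonneg.2 z1)) (sq_nonneg (h - a))
  nlinarith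

/-- the integral of a chord -/
theorem int_cq3 {t : ℝ} (t0 : 0 ≤ t) {g f0 fh f1 : ℝ → ℝ} (cg : ContinuousOn g (Icc 0 t))
    (c0 : ContinuousOn f0 (Icc 0 t)) (ch : ContinuousOn fh (Icc 0 t))
    (c1 : ContinuousOn f1 (Icc 0 t)) (z : ℝ) :
    ∫ s in (0 : ℝ)..t, g s * cq3 (f0 s) (fh s) (f1 s) z
      = cq3 (∫ s in (0 : ℝ)..t, g s * f0 s) (∫ s in (0 : ℝ)..t, g s * fh s)
        (∫ s in (0 : ℝ)..t, g s * f1 s) z := by
  have m0 : (0 : ℝ) ∈ Icc 0 t := ⟨le_rfl, t0⟩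
  have mt : t ∈ Icc 0 t := ⟨t0, le_rfl⟩
  have i0 : IntervalIntegrable (fun s => g s * f0 s) volume 0 t := ii_of t0 (cg.mul c0) m0 mt
  have ih : IntervalIntegrable (fun s => g s * fh s) volume 0 t := ii_of t0 (cg.mul ch) m0 mt
  have i1 : IntervalIntegrable (fun s => g s * f1 s) volume 0 t := ii_of t0 (cg.mul c1) m0 mt
  rcases le_total z (1 / 2) with h | h
  · have e : ∀ s, g s * cq3 (f0 s) (fh s) (f1 s) z
        = (1 - 2 * z) * (g s * f0 s) + 2 * z * (g s * fh s) := fun s => by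
      rw [cq3_lo h]; ring
    simp only [e]
    rw [cq3_lo h, intervalIntegral.integral_add (i0.const_mul _) (ih.const_mul _),
      intervalIntegral.integral_const_mul, intervalIntegral.integral_const_mul]
  · have e : ∀ s, g s * cq3 (f0 s) (fh s) (f1 s) z
        = (2 - 2 * z) * (g s * fh s) + (2 * z - 1) * (g s * f1 s) := fun s => by
      rw [cq3_hi h]; ring
    simp only [e]
    rw [cq3_hi h, intervalIntegral.integral_add (ih.const_mul _) (i1.const_mul _),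
      intervalIntegral.integral_const_mul, intervalIntegral.integral_const_mul]

/-! ### the data -/

namespace Q4

noncomputable def ev (p : Q4) (k : ℝ) : ℝ := cubR p.a p.b p.c p.d k

theorem pv_li (p : Q4) (k : ℝ) : pv p.li k = p.ev k := by
  simp only [li, pv, ev, cubR]
  push_cast
  ring

theorem ev_le {m l : ℚ} {p q : Q4} (h : le m p l q = true) {k : ℝ} (hk : k ∈ Icc (0 : ℝ) 1) :
    (m : ℝ) * p.ev k ≤ l * q.ev k := by
  simp only [le, Bool.and_eq_true, decide_eq_true_eq] at h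
  obtain ⟨h1, h2, h3, h4⟩ := h
  have e : ∀ (m : ℝ) (p : Q4), m * p.ev k = cubR (m * p.a) (m * p.b) (m * p.c) (m * p.d) k := by
    intro m p
    unfold ev cubR
    ring
  rw [e, e]
  exact cubR_mono (by exact_mod_cast h1) (by exact_mod_cast h2) (by exact_mod_cast h3)
    (by exact_mod_cast h4) hk.1 hk.2

end Q4

theorem pv_sqx (a h : List ℚ) (s : ℝ) : pv (sqx a h) s
    = pv a s ^ 2 + (pv h s - pv a s) * (2 * pv a s + 2 * xmQ * (pv h s - pv a s)) := by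
  unfold sqx
  rw [pv_ladd, pv_lmul, pv_lmul, pv_ladd, pv_lsmul, pv_lsmul, pv_lsub]
  push_cast
  ring

theorem pv_bx (a h : List ℚ) (s : ℝ) :
    pv (bx a h) s = pv a s + 2 * xmQ * (pv h s - pv a s) := by
  unfold bx
  rw [pv_ladd, pv_lsmul, pv_lsub]
  push_cast
  ring

namespace Gl

variable (G : Gl)

structure Good : Prop where
  ee0 : (0 : ℝ) ≤ G.ee
  q0 : ∀ s ∈ Icc (0 : ℝ) 1, ((1 + s) ^ 2)⁻¹ ≤ pv G.q0 s
  be0 : ∀ s ∈ Icc (0 : ℝ) 1, 1 ≤ pv G.be0 s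
  bh : ∀ s ∈ Icc (0 : ℝ) 1, 0 ≤ pv G.bh s
  b1 : ∀ s ∈ Icc (0 : ℝ) 1, 0 ≤ pv G.b1 s
  Rh : ∀ s ∈ Icc (0 : ℝ) 1, 0 ≤ pv G.Rh s
  bx : ∀ s ∈ Icc (0 : ℝ) 1, 0 ≤ pv (bx G.be0 G.bh) s
  q1 : ∀ s ∈ Icc (0 : ℝ) 1, pv G.be0 s ^ 2 ≤ pv G.bq0 s
  q2 : ∀ s ∈ Icc (0 : ℝ) 1, 0 ≤ pv G.bqh s
  q3 : ∀ s ∈ Icc (0 : ℝ) 1, pv (sqx G.be0 G.bh) s ≤ pv G.bqh s
  q4 : ∀ s ∈ Icc (0 : ℝ) 1, 0 ≤ pv G.rqh s
  q5 : ∀ s ∈ Icc (0 : ℝ) 1, pv (sqx [1] G.Rh) s ≤ pv G.rqh s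

variable {G}

theorem good (h : G.ok = true) : G.Good := by
  simp only [ok, Bool.and_eq_true, decide_eq_true_eq] at h
  obtain ⟨a1, a2, a3, a4, a5, a6, a7, a8, a9, b1, b2, b3⟩ := h
  have m : ∀ {s : ℝ}, s ∈ Icc (0 : ℝ) 1 → s ∈ Icc (((0 : ℚ) : ℚ) : ℝ) (((1 : ℚ) : ℚ) : ℝ) :=
    fun h => by simpa using h
  refine ⟨by exact_mod_cast a1, fun s hs => ?_, fun s hs => ?_, fun s hs => nn_le a4 (m hs),
    fun s hs => nn_le a5 (m hs), fun s hs => nn_le a6 (m hs), fun s hs => nn_le a7 (m hs),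
    fun s hs => ?_, fun s hs => nn_le a9 (m hs), fun s hs => nn_sub b1 (m hs),
    fun s hs => nn_le b2 (m hs), fun s hs => nn_sub b3 (m hs)⟩
  · have h1 := nn_sub a2 (m hs)
    rw [pv_lmul] at h1
    simp only [pv] at h1
    push_cast at h1
    have h2 : 0 < (1 + s) ^ 2 := by have := hs.1; positivity
    rw [inv_le_iff_one_le_mul₀ h2]
    refine le_trans (by simpa using h1) (le_of_eq ?_)
    ring
  · have h1 := nn_sub a3 (m hs)
    simpa [pv] using h1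
  · have h1 := nn_sub a8 (m hs)
    rw [pv_lmul] at h1
    rw [pow_two]
    exact h1

theorem Good.q0n (h : G.Good) {s : ℝ} (hs : s ∈ Icc (0 : ℝ) 1) : 0 ≤ pv G.q0 s := by
  refine le_trans ?_ (h.q0 s hs)
  have := hs.1
  positivity

end Gl

theorem tyk_le {n : ℚ} {p : Cub} (h : tyk n p = true) {k : ℝ} (k0 : 0 ≤ k) (k1 : k ≤ 1) :
    p.ev k ≤ (1 - n * k) * p.ev 0 := by
  simp only [tyk, Bool.and_eq_true, decide_eq_true_eq] at h
  obtain ⟨h1, h2, h3⟩ := h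
  have D := RD_pos
  have j1 : 3 * (p.2.1 : ℝ) ≤ p.1 * (3 - n) := by exact_mod_cast h1
  have j2 : 3 * (p.2.2.1 : ℝ) ≤ p.1 * (3 - 2 * n) := by exact_mod_cast h2
  have j3 : (p.2.2.2 : ℝ) ≤ p.1 * (1 - n) := by exact_mod_cast h3
  have e : (1 - n * k) * p.ev 0 = cubR ((p.1 : ℝ) / RD) ((p.1 : ℝ) * (1 - n / 3) / RD)
      ((p.1 : ℝ) * (1 - 2 * n / 3) / RD) ((p.1 : ℝ) * (1 - n) / RD) k := by
    unfold Cub.ev cubR
    ring
  rw [e]
  unfold Cub.ev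
  refine cubR_mono le_rfl ?_ ?_ ?_ k0 k1
  · exact div_le_div_of_nonneg_right (by linarith) D.le
  · exact div_le_div_of_nonneg_right (by linarith) D.le
  · exact div_le_div_of_nonneg_right (by linarith) D.le

theorem tyT_le {R : Tab} {K m : ℕ} {n : ℚ} (h : tyT R K m n = true) (t s : ℝ) {k : ℝ}
    (k0 : 0 ≤ k) (k1 : k ≤ 1) : R.val K m t s k ≤ (1 - n * k) * R.val K m t s 0 := by
  have h1 : ∀ j ≤ 10, (R.r K m j).ev k ≤ (1 - n * k) * (R.r K m j).ev 0 := fun j hj =>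
    tyk_le (List.all_eq_true.1 h j (List.mem_range.2 (by omega))) k0 k1
  unfold Tab.val
  have h2 := mul_le_mul_of_nonneg_left (plx_mono h1 (s / t))
    (pow_nonneg (abs_nonneg (t + R.dl m)) (Tab.ex K))
  rw [plx_smul] at h2
  linarith

end Pool.Agent.RZ.RCN.K.P3
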