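import Pool.Agent.RZ.RCO.PwI

/-! The inequality of the pairs: the inequalities of a big cell (MP_73ccd0_lc, route M). -/

set_option autoImplicit false

namespace Pool.Agent.RZ.RCN.K.P3

open Set Finset MeasureTheory Pool.Agent.RZ.RCN.K Pool.Agent.RZ.RCRSHalf Pool.Agent.RZ.RCG
open Pool.Agent.RZ.RCG.Ct Pool.Agent.RZ.RCN.Ker Pool.Agent.RZ.RCRS Pool.Agent.RZ.RCM.Jen Pool.Agent.RZ.RCM9
open Pool.Agent.RZ.RCN.Ck1 Pool.Agent.RZ.RCO.RT

set_option linter.unusedSectionVars false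

theorem int_pri (l : List ℚ) (s : ℝ) : ∫ r in (0 : ℝ)..s, pv l r = pv (pri l) s := by
  rw [intervalIntegral.integral_eq_sub_of_hasDerivAt (f := pv (pri l))
    (fun r _ => hasDerivAt_pri l r) ((continuous_pv l).intervalIntegrable _ _), pri_zero, sub_zero]

theorem pri_tail (l : List ℚ) (t : ℝ) : t * pv (pri l).tail t = pv (pri l) t := by
  unfold pri
  simp [pv]

/-- the facts of a cell -/
structure Tc.Good (R : Tab) (G : Gl) (c : Tc) : Prop where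
  t00 : (0 : ℝ) ≤ c.t0 R
  t1γ : (c.t1 R : ℝ) ≤ c.γ
  t11 : (c.t1 R : ℝ) ≤ 1
  e0 : (0 : ℝ) ≤ c.e
  kc : ∀ t ∈ Icc (c.t0 R : ℝ) (c.t1 R), 1 ≤ pv c.kc t
  ke : ∀ s ∈ Icc (0 : ℝ) (c.t1 R), 1 ≤ pv c.ke s
  al : ∀ t ∈ Icc (c.t0 R : ℝ) (c.t1 R), pv G.al t ≤ c.α
  Kx : ∀ t ∈ Icc (c.t0 R : ℝ) (c.t1 R), t * pv G.kp1 t ≤ c.Kx
  kp1 : ∀ t ∈ Icc (c.t0 R : ℝ) (c.t1 R), 0 ≤ pv G.kp1 t
  kA : ∀ t ∈ Icc (c.t0 R : ℝ) (c.t1 R), pv G.kA t ≤ pv c.kc t
  Bm : ∀ t ∈ Icc (c.t0 R : ℝ) (c.t1 R), pv (pri G.bp) t ≤ c.Bm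
  kq : ∀ s ∈ Icc (0 : ℝ) (c.t1 R), pv G.kq s * (1 + G.ρ0 * (s ^ 2 * c.Bm)) ≤ pv c.ke s
  ga : ∀ t ∈ Icc (c.t0 R : ℝ) (c.t1 R), pv G.ga t ≤ c.γ
  g0 : ∀ t ∈ Icc (c.t0 R : ℝ) (c.t1 R), pv G.be0 t ≤ c.g0 * (1 + t)
  gh : ∀ t ∈ Icc (c.t0 R : ℝ) (c.t1 R), pv G.bh t ≤ c.gh * (1 + t)
  g1 : ∀ t ∈ Icc (c.t0 R : ℝ) (c.t1 R), pv G.b1 t ≤ c.g1 * (1 + t)
  F0 : ∀ s ∈ Icc (0 : ℝ) (c.t1 R), pv (pri (lmul c.ke (lmul G.be0 G.q0))) s ≤ pv c.Fp s
  Fx : ∀ s ∈ Icc (0 : ℝ) (c.t1 R),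
    pv (pri (lmul c.ke (lmul (bx G.be0 G.bh) G.q0))) s ≤ pv c.Fp s
  k0 : c.cke R G 1000000000000 4 G.be0 = true
  kh : c.cke R G 1000000000000 4 G.bh = true
  k1 : c.cke R G 1000000000000 4 G.b1 = true
  V : c.ck4 R G 1000000000000 4 (lmul c.ke G.q0) kRL c.V = true
  B0 : c.ck4 R G 1000000000000 4 (lmul c.ke (lmul G.bq0 G.q0)) kCL c.B0 = true
  Bh : c.ck4 R G 1000000000000 4 (lmul c.ke (lmul G.bqh G.q0)) kCL c.Bh = true
  H : c.ck4 R G 1000000000000 4 c.Fp kRF c.H = true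
  C0 : c.ck4 R G 1000000000000 4 c.Fp kCF c.C0 = true
  Ch : c.ck4 R G 1000000000000 4 (lmul c.Fp G.rqh) kCF c.Ch = true
  A : c.ck R G 1000000000000 4 (lmul c.ke (lmul (bx G.be0 G.bh) G.q0)) 2 (rc R kRL c.m 0) c.A
    = true
  M : c.ck R G 1000000000000 4 (lmul c.Fp (bx [1] G.Rh)) 1 (rc R kRF c.m 0) c.M = true
  tL : tyT R kRL c.m 0 = true
  tF : tyT R kRF c.m 0 = true

theorem Tc.good {R : Tab} {G : Gl} {c : Tc} (h : c.ok R G 1000000000000 4 = true) :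
    c.Good R G := by
  simp only [Tc.ok, Tc.okA, Tc.okB, Tc.okC, Bool.and_eq_true, decide_eq_true_eq] at h
  obtain ⟨⟨⟨a1, a2, a3, a4⟩, ⟨a5, a6, a7, a8, a9⟩, ⟨h1, h2, h3, h4⟩, ⟨b1, b2, b3⟩,
    ⟨b4, b5⟩, c1, c2, c3⟩, ⟨d1, d2, d3⟩, ⟨d5, d6, d7⟩, ⟨e1, e2⟩, f1, f2⟩ := h
  have m0 : ∀ {s : ℝ}, s ∈ Icc (0 : ℝ) (c.t1 R) → s ∈ Icc (((0 : ℚ) : ℚ) : ℝ) (c.t1 R : ℝ) :=
    fun h => by simpa using h
  exact
    { t00 := by exact_mod_cast a1
      t1γ := by exact_mod_cast a2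
      t11 := by exact_mod_cast a3
      e0 := by exact_mod_cast a4
      kc := fun t ht => by simpa [pv] using nn_sub a5 ht
      ke := fun s hs => by simpa [pv] using nn_sub a6 (m0 hs)
      al := fun t ht => by simpa [pv] using nn_sub a7 ht
      Kx := fun t ht => by simpa [pv] using nn_sub a8 ht
      kp1 := fun t ht => nn_le a9 ht
      kA := fun t ht => nn_sub h1 ht
      Bm := fun t ht => by simpa [pv] using nn_sub h2 ht
      kq := fun s hs => by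
        have h := nn_sub h3 (m0 hs)
        rw [pv_lmul] at h
        refine le_trans (le_of_eq ?_) h
        simp only [pv]
        push_cast
        ring
      ga := fun t ht => by simpa [pv] using nn_sub h4 ht
      g0 := fun t ht => (nn_sub b1 ht).trans (le_of_eq (by simp only [pv]; ring))
      gh := fun t ht => (nn_sub b2 ht).trans (le_of_eq (by simp only [pv]; ring))
      g1 := fun t ht => (nn_sub b3 ht).trans (le_of_eq (by simp only [pv]; ring))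
      F0 := fun s hs => nn_sub b4 (m0 hs)
      Fx := fun s hs => nn_sub b5 (m0 hs)
      k0 := c1
      kh := c2
      k1 := c3
      V := d1
      B0 := d2
      Bh := d3
      H := d5
      C0 := d6
      Ch := d7
      A := e1
      M := e2
      tL := f1
      tF := f2 }

namespace Tc.Good

variable {R : Tab} {G : Gl} {c : Tc}

theorem dl_cast : ((c.dl R : ℚ) : ℝ) = R.dl c.m := by
  unfold Tc.dl Tab.dl
  split_ifs
  · push_cast; rfl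
  · simp

theorem kk_eq {e : ℕ} (he : e = 1 ∨ e = 2) (t : ℝ) :
    pv (c.kk R G e) t = (1 + G.ee * t) * pv c.kc t * (t + R.dl c.m) ^ e := by
  unfold Tc.kk
  rw [pv_lmul, pv_lmul]
  rcases he with he | he
  · rw [if_pos he, he]
    simp only [pv]
    push_cast
    rw [dl_cast]
    ring
  · rw [if_neg (by omega), he]
    simp only [pv]
    push_cast
    rw [dl_cast]
    ring

theorem ex_or (K : ℕ) : Tab.ex K = 1 ∨ Tab.ex K = 2 := by
  unfold Tab.ex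
  split_ifs
  · exact Or.inl rfl
  · exact Or.inr rfl

/-- one check -/
theorem ck_le {D : ℤ} {n e : ℕ} (he : e = 1 ∨ e = 2) {g : List ℚ} {r : ℕ → ℕ} {U : ℚ}
    (h : c.ck R G D n g e r U = true) {t : ℝ} (ht : t ∈ Icc (c.t0 R : ℝ) (c.t1 R)) :
    (1 + G.ee * t) * pv c.kc t * (t + R.dl c.m) ^ e * pv (wt g r) t ≤ U * pv G.kp1 t := by
  have h1 := nn_sub h ht
  rw [pv_lmul, pv_lsmul, kk_eq he] at h1
  exact h1

variable (hc : c.Good R G) (hG : G.Good) {t : ℝ} (ht : t ∈ Icc (c.t0 R : ℝ) (c.t1 R))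

include hc in
theorem tm (ht : t ∈ Icc (c.t0 R : ℝ) (c.t1 R)) : t ∈ Icc (0 : ℝ) 1 :=
  ⟨hc.t00.trans ht.1, ht.2.trans hc.t11⟩

include hc hG in
theorem kt0 (ht : t ∈ Icc (c.t0 R : ℝ) (c.t1 R)) : 0 ≤ (1 + G.ee * t) * pv c.kc t :=
  mul_nonneg (by have := mul_nonneg hG.ee0 (hc.tm ht).1; linarith)
    (zero_le_one.trans (hc.kc t ht))

include hc in
theorem K0 (ht : t ∈ Icc (c.t0 R : ℝ) (c.t1 R)) : 0 ≤ t * pv G.kp1 t :=
  mul_nonneg (hc.tm ht).1 (hc.kp1 t ht)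

include hc hG in
/-- **the integral of a weight and a function of the big cell** -/
theorem W1 (ht : t ∈ Icc (c.t0 R : ℝ) (c.t1 R)) {g : List ℚ} {e : ℕ} (he : e = 1 ∨ e = 2)
    {q : ℕ → ℕ} {U : ℚ} (h : c.ck R G 1000000000000 4 g e q U = true) {W : ℝ → ℝ}
    (cW : ContinuousOn W (Icc 0 t)) (hW : ∀ s ∈ Icc 0 t, W s ≤ pv g s) :
    (1 + G.ee * t) * pv c.kc t * ∫ s in (0 : ℝ)..t, W s * vr R c.m e q t s
      ≤ t * pv G.kp1 t * U := by
  have t0 := (hc.tm ht).1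
  have kt := hc.kt0 hG ht
  rcases t0.eq_or_lt with e0 | tp
  · rw [← e0]
    simp
  · have m0 : (0 : ℝ) ∈ Icc 0 t := ⟨le_rfl, t0⟩
    have mt : t ∈ Icc 0 t := ⟨t0, le_rfl⟩
    have i1 : ∫ s in (0 : ℝ)..t, W s * vr R c.m e q t s
        ≤ ∫ s in (0 : ℝ)..t, pv g s * vr R c.m e q t s :=
      intervalIntegral.integral_mono_on t0
        (ii_of t0 (cW.mul (vr_cont R c.m e q t).continuousOn) m0 mt)
        (((continuous_pv g).mul (vr_cont R c.m e q t)).intervalIntegrable _ _)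
        fun s hs => mul_le_mul_of_nonneg_right (hW s hs) (vr_nonneg R c.m e q t s)
    rw [vr_int R c.m e q g tp] at i1
    have j0 := ck_le he h ht
    set X := (1 + G.ee * t) * pv c.kc t with hX
    have i2 := mul_le_mul_of_nonneg_left i1 kt
    have i3 := mul_le_mul_of_nonneg_left j0 t0
    calc _ ≤ _ := i2
      _ = t * (X * (t + R.dl c.m) ^ e * pv (wt g q) t) := by ring
      _ ≤ _ := i3
      _ = _ := by ring

include hc hG in
/-- **the integral of a weight and a kind**, with cubics -/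
theorem W4 (ht : t ∈ Icc (c.t0 R : ℝ) (c.t1 R)) {g : List ℚ} {K : ℕ} {U : Q4}
    (h : c.ck4 R G 1000000000000 4 g K U = true) {W : ℝ → ℝ} (cW : ContinuousOn W (Icc 0 t))
    (hW : ∀ s ∈ Icc 0 t, W s ≤ pv g s) {k : ℝ} (hk : k ∈ Icc (0 : ℝ) 1) :
    (1 + G.ee * t) * pv c.kc t * ∫ s in (0 : ℝ)..t, W s * R.val K c.m t s k
      ≤ t * pv G.kp1 t * U.ev k := by
  simp only [Tc.ck4, Bool.and_eq_true] at h
  obtain ⟨h0, h1, h2, h3⟩ := h
  have j0 := hc.W1 hG ht (ex_or K) h0 cW hW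
  have j1 := hc.W1 hG ht (ex_or K) h1 cW hW
  have j2 := hc.W1 hG ht (ex_or K) h2 cW hW
  have j3 := hc.W1 hG ht (ex_or K) h3 cW hW
  have e : ∀ s, W s * R.val K c.m t s k
      = (1 - k) ^ 3 * (W s * vr R c.m (Tab.ex K) (rc R K c.m 0) t s)
        + 3 * k * (1 - k) ^ 2 * (W s * vr R c.m (Tab.ex K) (rc R K c.m 1) t s)
        + 3 * k ^ 2 * (1 - k) * (W s * vr R c.m (Tab.ex K) (rc R K c.m 2) t s)
        + k ^ 3 * (W s * vr R c.m (Tab.ex K) (rc R K c.m 3) t s) := by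
    intro s
    rw [val_vr]
    unfold cubR
    ring
  have t0 := (hc.tm ht).1
  have m0 : (0 : ℝ) ∈ Icc 0 t := ⟨le_rfl, t0⟩
  have mt : t ∈ Icc 0 t := ⟨t0, le_rfl⟩
  have ci : ∀ (r : ℕ → ℕ), IntervalIntegrable (fun s : ℝ =>
      W s * vr R c.m (Tab.ex K) r t s) volume 0 t := fun r =>
    ii_of t0 (cW.mul (vr_cont R c.m _ r t).continuousOn) m0 mt
  have i12 := ((ci (rc R K c.m 0)).const_mul ((1 - k) ^ 3)).add
    ((ci (rc R K c.m 1)).const_mul (3 * k * (1 - k) ^ 2))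
  have i3 := (ci (rc R K c.m 2)).const_mul (3 * k ^ 2 * (1 - k))
  have i4 := (ci (rc R K c.m 3)).const_mul (k ^ 3)
  simp only [e]
  rw [intervalIntegral.integral_add (i12.add i3) i4, intervalIntegral.integral_add i12 i3,
    intervalIntegral.integral_add ((ci _).const_mul _) ((ci _).const_mul _)]
  simp only [intervalIntegral.integral_const_mul]
  have key := cubR_mono j0 j1 j2 j3 hk.1 hk.2
  refine le_trans (le_of_eq ?_) (key.trans (le_of_eq ?_))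
  · unfold cubR
    ring
  · unfold Q4.ev cubR
    ring

end Tc.Good

end Pool.Agent.RZ.RCN.K.P3
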