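import Pool.Agent.RZ.RCO.PwE

/-! The inequality of the pairs: ranges of the weight of the pair in a big cell
(MP_73ccd0_lc, route M). -/

set_option autoImplicit false

namespace Pool.Agent.RZ.RCN.K.P3

open Set Finset MeasureTheory Pool.Agent.RZ.RCN.K Pool.Agent.RZ.RCRSHalf Pool.Agent.RZ.RCG
open Pool.Agent.RZ.RCG.Ct Pool.Agent.RZ.RCN.Ker Pool.Agent.RZ.RCRS Pool.Agent.RZ.RCM.Jen Pool.Agent.RZ.RCM9
open Pool.Agent.RZ.RCN.Ck1 Pool.Agent.RZ.RCO.RT

set_option linter.unusedSectionVars false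

namespace Rg

variable (r : Rg) (c : Tc)

structure Good (r : Rg) (c : Tc) : Prop where
  th : (0 : ℝ) < r.th
  thh : (0 : ℝ) < r.thh
  a60 : (0 : ℝ) ≤ r.a6
  a70 : (0 : ℝ) ≤ r.a7
  L : (c.Kx : ℝ) * (r.a6 + r.a7) ≤ c.α * r.X
  V : Q4.le r.th c.V 1 r.A1 = true
  B0 : Q4.le 1 c.B0 r.th r.B0 = true
  Bh : Q4.le 1 c.Bh r.th r.Bh = true
  H : Q4.le r.thh c.H 1 r.A3 = true
  D0 : Q4.le 1 c.C0 r.thh r.C0 = true
  Dh : Q4.le 1 c.Ch r.thh r.Ch = true
  A : (xmQ : ℝ) * c.A ≤ (1 - 2 * xmQ) * r.a6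
  M : (xmQ : ℝ) * c.M ≤ r.a7
  q : (r.qn c).Good

theorem good {r : Rg} {c : Tc} (h : r.ok c = true) : r.Good c := by
  simp only [ok, Bool.and_eq_true, decide_eq_true_eq] at h
  obtain ⟨⟨a1, a2, a3, a4, a5⟩, ⟨c1, c2, c3⟩, ⟨c5, c6, c7⟩, d1, d2, d3⟩ := h
  exact
    { th := by exact_mod_cast a1
      thh := by exact_mod_cast a2
      a60 := by exact_mod_cast a3
      a70 := by exact_mod_cast a4
      L := by exact_mod_cast a5
      V := c1
      B0 := c2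
      Bh := c3
      H := c5
      D0 := c6
      Dh := c7
      A := by exact_mod_cast d1
      M := by exact_mod_cast d2
      q := Qn.good d3 }

end Rg

end Pool.Agent.RZ.RCN.K.P3
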