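import Pool.Agent.RZ.RCO.PwJ

/-! The inequality of the pairs: the integrals of a big cell (MP_73ccd0_lc, route M). -/

set_option autoImplicit false

namespace Pool.Agent.RZ.RCN.K.P3

open Set Finset MeasureTheory Pool.Agent.RZ.RCN.K Pool.Agent.RZ.RCRSHalf Pool.Agent.RZ.RCG
open Pool.Agent.RZ.RCG.Ct Pool.Agent.RZ.RCN.Ker Pool.Agent.RZ.RCRS Pool.Agent.RZ.RCM.Jen Pool.Agent.RZ.RCM9
open Pool.Agent.RZ.RCN.Ck1 Pool.Agent.RZ.RCO.RT

set_option linter.unusedSectionVars false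

/-- the functions of the kernel with polynomial bounds -/
structure KG (k : Kf) (G : Gl) : Prop where
  b0 : ∀ t, k.b0 t = pv G.be0 t
  b1 : ∀ t, k.b1 t = pv G.be1 t

theorem KG.fh {k : Kf} {G : Gl} (h : KG k G) (y t : ℝ) :
    k.fh y t = cq3 (pv G.be0 t) (pv G.bh t) (pv G.b1 t) y * ((1 + t) ^ 2)⁻¹ := by
  unfold Kf.fh Kf.b
  rw [h.b0, h.b1]
  have e1 : pv G.bh t = 1 / 2 * (1 + (pv G.be0 t + pv G.be1 t)) := by
    unfold Gl.bh
    rw [pv_lsmul, pv_ladd, pv_ladd]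
    simp only [pv]
    push_cast
    ring
  have e2 : pv G.b1 t = 1 + 1 / 2 * pv G.be1 t := by
    unfold Gl.b1
    rw [pv_ladd, pv_lsmul]
    simp only [pv]
    push_cast
    ring
  congr 1
  rcases le_total y (1 / 2) with h1 | h1
  · rw [show eta y = y from min_eq_left h1, cq3_lo h1, e1]
    ring
  · rw [show eta y = 1 / 2 from min_eq_right h1, cq3_hi h1, e1, e2]
    ring

theorem cq3_cn {S : Set ℝ} {f0 fh f1 : ℝ → ℝ} (c0 : ContinuousOn f0 S) (ch : ContinuousOn fh S)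
    (c1 : ContinuousOn f1 S) (z : ℝ) : ContinuousOn (fun s => cq3 (f0 s) (fh s) (f1 s) z) S := by
  rcases le_total z (1 / 2) with h | h
  · simp only [cq3_lo h]
    exact (continuousOn_const.mul c0).add (continuousOn_const.mul ch)
  · simp only [cq3_hi h]
    exact (continuousOn_const.mul ch).add (continuousOn_const.mul c1)

theorem i2_cn (t : ℝ) : ContinuousOn (fun s : ℝ => ((1 + s) ^ 2)⁻¹) (Icc 0 t) :=
  ContinuousOn.inv₀ (by fun_prop) fun s hs => by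
    have := hs.1
    positivity

namespace Tc.Good

variable {R : Tab} {G : Gl} {c : Tc}
variable (hc : c.Good R G) (hG : G.Good) {t : ℝ} (ht : t ∈ Icc (c.t0 R : ℝ) (c.t1 R))

include hc hG in
/-- the integral of a weight, a kind and a chord -/
theorem W4c (ht : t ∈ Icc (c.t0 R : ℝ) (c.t1 R)) {g0 gh : List ℚ} {K : ℕ} {U0 Uh : Q4}
    (h0 : c.ck4 R G 1000000000000 4 g0 K U0 = true)
    (hh : c.ck4 R G 1000000000000 4 gh K Uh = true) {W F0 Fh F1 : ℝ → ℝ}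
    (cW : ContinuousOn W (Icc 0 t)) (cF0 : ContinuousOn F0 (Icc 0 t))
    (cFh : ContinuousOn Fh (Icc 0 t)) (cF1 : ContinuousOn F1 (Icc 0 t))
    (w0 : ∀ s ∈ Icc 0 t, W s * F0 s ≤ pv g0 s) (wh : ∀ s ∈ Icc 0 t, W s * Fh s ≤ pv gh s)
    {k z : ℝ} (hk : k ∈ Icc (0 : ℝ) 1) (hz : 0 ≤ z) (hz2 : z ≤ 1 / 2) (B : ℝ) :
    (1 + G.ee * t) * pv c.kc t * ∫ s in (0 : ℝ)..t,
        (W s * R.val K c.m t s k) * cq3 (F0 s) (Fh s) (F1 s) z
      ≤ t * pv G.kp1 t * cq3 (U0.ev k) (Uh.ev k) B z := by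
  have t0 := (hc.tm ht).1
  rw [int_cq3 t0 (g := fun s => W s * R.val K c.m t s k)
    (cW.mul (Tab.val_cont K c.m t k).continuousOn) cF0 cFh cF1, ← cq3_smul,
    ← cq3_smul]
  refine cq3_mono_lo hz hz2 ?_ ?_
  · refine le_trans (le_of_eq ?_) (hc.W4 hG ht h0 (W := fun s => W s * F0 s)
      (cW.mul cF0) w0 hk)
    congr 1
    exact intervalIntegral.integral_congr fun s _ => by ring
  · refine le_trans (le_of_eq ?_) (hc.W4 hG ht hh (W := fun s => W s * Fh s)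
      (cW.mul cFh) wh hk)
    congr 1
    exact intervalIntegral.integral_congr fun s _ => by ring

include hc in
theorem sm (ht : t ∈ Icc (c.t0 R : ℝ) (c.t1 R)) {s : ℝ} (hs : s ∈ Icc (0 : ℝ) t) :
    s ∈ Icc (0 : ℝ) 1 ∧ s ∈ Icc (0 : ℝ) (c.t1 R) :=
  ⟨⟨hs.1, (hs.2.trans ht.2).trans hc.t11⟩, ⟨hs.1, hs.2.trans ht.2⟩⟩

include hc in
theorem ke0 (ht : t ∈ Icc (c.t0 R : ℝ) (c.t1 R)) {s : ℝ} (hs : s ∈ Icc (0 : ℝ) t) :
    0 ≤ pv c.ke s := zero_le_one.trans (hc.ke s (hc.sm ht hs).2)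

include hc hG in
/-- the weight `ke b (1+s)^{-2}` -/
theorem wle (ht : t ∈ Icc (c.t0 R : ℝ) (c.t1 R)) {b : List ℚ}
    (hb : ∀ s ∈ Icc (0 : ℝ) 1, 0 ≤ pv b s) {s : ℝ} (hs : s ∈ Icc (0 : ℝ) t) :
    pv c.ke s * ((1 + s) ^ 2)⁻¹ * pv b s ≤ pv (lmul c.ke (lmul b G.q0)) s := by
  rw [pv_lmul, pv_lmul]
  have h1 := hG.q0 s (hc.sm ht hs).1
  have h2 := mul_nonneg (hc.ke0 ht hs) (hb s (hc.sm ht hs).1)
  have := mul_le_mul_of_nonneg_left h1 h2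
  linarith

include hc hG in
theorem Fp0 (ht : t ∈ Icc (c.t0 R : ℝ) (c.t1 R)) {s : ℝ} (hs : s ∈ Icc (0 : ℝ) t) :
    0 ≤ pv c.Fp s := by
  refine le_trans ?_ (hc.F0 s (hc.sm ht hs).2)
  rw [← int_pri]
  refine intervalIntegral.integral_nonneg hs.1 fun r hr => ?_
  have hr' : r ∈ Icc (0 : ℝ) t := ⟨hr.1, hr.2.trans hs.2⟩
  rw [pv_lmul, pv_lmul]
  have h1 := hG.be0 r (hc.sm ht hr').1
  exact mul_nonneg (hc.ke0 ht hr') (mul_nonneg (by linarith) (hG.q0n (hc.sm ht hr').1))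

end Tc.Good

end Pool.Agent.RZ.RCN.K.P3
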