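import Pool.Agent.RZ.RCO.PwF
import Pool.Agent.RZ.RCO.PwK
import Pool.Agent.RZ.RCO.PwL

/-! The inequality of the pairs: the inequality of one pair in a big cell and a range
(MP_73ccd0_lc, route M). -/

set_option autoImplicit false

namespace Pool.Agent.RZ.RCN.K.P3

open Set Finset MeasureTheory Pool.Agent.RZ.RCN.K Pool.Agent.RZ.RCRSHalf Pool.Agent.RZ.RCG
open Pool.Agent.RZ.RCG.Ct Pool.Agent.RZ.RCN.Ker Pool.Agent.RZ.RCRS Pool.Agent.RZ.RCM.Jen Pool.Agent.RZ.RCM9
open Pool.Agent.RZ.RCN.Ck1 Pool.Agent.RZ.RCO.RT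

set_option linter.unusedSectionVars false

section

variable (G : Gl) (c : Tc) (r : Rg) (t : ℝ)

/-- the scale of the densities -/
noncomputable def ktf : ℝ := (1 + G.ee * t) * pv c.kc t
noncomputable def κ0f (s : ℝ) : ℝ := ktf G c t * pv c.ke s
noncomputable def Fsf (s : ℝ) : ℝ := ktf G c t * pv c.Fp s
noncomputable def ρf (z s : ℝ) : ℝ := cq3 1 (pv G.Rh s) (pv G.Rh s) z
noncomputable def θf (s : ℝ) : ℝ := r.th * ((1 + s) ^ 2)⁻¹
noncomputable def Kf' : ℝ := t * pv G.kp1 t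

end

theorem pv_one1 (s : ℝ) : pv [1] s = 1 := by simp [pv]

variable {R : Tab} {G : Gl} {c : Tc} {r : Rg} {t : ℝ} {k : Kf}

/-- **the integrals of the rows** -/
theorem pj_of (hc : c.Good R G) (hG : G.Good) (hr : r.Good c)
    (ht : t ∈ Icc (c.t0 R : ℝ) (c.t1 R)) (hk : KG k G) :
    Pj (r.qn c) k t (Kf' G t) (κ0f G c t) (Fsf G c t) (ρf G) (θf r) (fun _ => (r.thh : ℝ))
      (fun q s => R.val kRL c.m t s q) (fun q s => R.val kCL c.m t s q)
      (fun q s => R.val kRF c.m t s q) (fun q s => R.val kCF c.m t s q)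
      (Kf' G t * c.e) := by
  have t0 := (hc.tm ht).1
  have K0 : 0 ≤ Kf' G t := hc.K0 ht
  have th0 := hr.th
  have thh0 := hr.thh
  have m1 : ∀ {s : ℝ}, s ∈ Icc (0 : ℝ) t → s ∈ Icc (0 : ℝ) 1 := fun hs => (hc.sm ht hs).1
  have b0 : ∀ s ∈ Icc (0 : ℝ) 1, 0 ≤ pv G.be0 s := fun s hs => by linarith [hG.be0 s hs]
  have cke : ContinuousOn (pv c.ke) (Icc 0 t) := (continuous_pv _).continuousOn
  have ci := i2_cn t
  have cW : ContinuousOn (fun s => pv c.ke s * ((1 + s) ^ 2)⁻¹) (Icc 0 t) := cke.mul ci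
  have cp : ∀ l : List ℚ, ContinuousOn (pv l) (Icc 0 t) := fun l => (continuous_pv l).continuousOn
  have x2 := xm2
  have q1 : ∀ {q : ℝ}, q ∈ Icc (0 : ℝ) (2 * xmQ) → q ∈ Icc (0 : ℝ) 1 := fun h =>
    ⟨h.1, h.2.trans x2⟩
  have z1 : ∀ {z : ℝ}, z ∈ Icc (0 : ℝ) xmQ → z ∈ Icc (0 : ℝ) 1 ∧ z ≤ 1 / 2 := fun h =>
    ⟨⟨h.1, by linarith [h.2]⟩, by linarith [h.2]⟩
  refine ⟨K0, le_rfl, fun q hq => ?_, fun q hq z hz => ?_, fun q hq => ?_,
    fun q hq z hz => ?_⟩
  all_goals replace hq := q1 hq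
  · have h1 := hc.W4 hG ht hc.V cW (fun s hs => by
      have := hc.wle hG ht (b := [1]) (fun s _ => by simp [pv]) hs
      rw [pv_lmul, pv_lmul] at this
      rw [pv_lmul]
      simpa [pv] using this) hq
    have h2 := Q4.ev_le hr.V hq
    have e : ∀ s, κ0f G c t s * θf r s * R.val kRL c.m t s q
        = (ktf G c t * r.th) * (pv c.ke s * ((1 + s) ^ 2)⁻¹ * R.val kRL c.m t s q) := by
      intro s
      unfold κ0f θf
      ring
    simp only [e, intervalIntegral.integral_const_mul]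
    have h3 := mul_le_mul_of_nonneg_left h1 th0.le
    have h4 := mul_le_mul_of_nonneg_left h2 K0
    show _ ≤ Kf' G t * pv r.A1.li q
    rw [Q4.pv_li]
    push_cast at h4
    unfold ktf
    unfold Kf' at h4 ⊢
    linarith
  · have hzx := hz
    obtain ⟨hz, hz2⟩ := z1 hz
    have h1 := hc.W4c hG ht hc.B0 hc.Bh (F0 := pv G.bq0) (Fh := pv G.bqh) (F1 := pv G.bqh) cW
      (cp _) (cp _) (cp _)
      (fun s hs => hc.wle hG ht (b := G.bq0)
        (fun s hs => (sq_nonneg _).trans (hG.q1 s hs)) hs)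
      (fun s hs => hc.wle hG ht (b := G.bqh) hG.q2 hs) hq hz.1 hz2 0
    have cL : ContinuousOn (fun s => κ0f G c t s * (θf r s)⁻¹ * k.fh z s ^ 2
        * R.val kCL c.m t s q) (Icc 0 t) := by
      have cf : ContinuousOn (k.fh z) (Icc 0 t) := by
        rw [show k.fh z = fun s => _ from funext fun s => hk.fh z s]
        exact (cq3_cn (cp _) (cp _) (cp _) z).mul ci
      unfold κ0f θf
      refine (((continuousOn_const.mul cke).mul ((continuousOn_const.mul ci).inv₀
        fun s hs => ?_)).mul (cf.pow 2)).mul (Tab.val_cont _ _ _ _).continuousOn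
      have := hs.1
      exact (mul_pos th0 (inv_pos.2 (by positivity))).ne'
    have cR : ContinuousOn (fun s => (ktf G c t / r.th) * ((pv c.ke s * ((1 + s) ^ 2)⁻¹
        * R.val kCL c.m t s q)
        * cq3 (pv G.bq0 s) (pv G.bqh s) (pv G.bqh s) z)) (Icc 0 t) :=
      continuousOn_const.mul ((cW.mul (Tab.val_cont _ _ _ _).continuousOn).mul
        (cq3_cn (cp _) (cp _) (cp _) z))
    have h2 : ∫ s in (0 : ℝ)..t, κ0f G c t s * (θf r s)⁻¹ * k.fh z s ^ 2 * R.val kCL c.m t s q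
        ≤ ∫ s in (0 : ℝ)..t, (ktf G c t / r.th) * ((pv c.ke s * ((1 + s) ^ 2)⁻¹
          * R.val kCL c.m t s q)
          * cq3 (pv G.bq0 s) (pv G.bqh s) (pv G.bqh s) z) := by
      refine intervalIntegral.integral_mono_on t0
        (ii_of t0 cL ⟨le_rfl, t0⟩ ⟨t0, le_rfl⟩) (ii_of t0 cR ⟨le_rfl, t0⟩ ⟨t0, le_rfl⟩)
        fun s hs => ?_
      have e1 : 0 < (1 + s) ^ 2 := by
        have := hs.1
        positivity
      have e2 : κ0f G c t s * (θf r s)⁻¹ * k.fh z s ^ 2 * R.val kCL c.m t s q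
          = (ktf G c t / r.th) * ((pv c.ke s * ((1 + s) ^ 2)⁻¹ * R.val kCL c.m t s q)
            * cq3 (pv G.be0 s) (pv G.bh s) (pv G.b1 s) z ^ 2) := by
        rw [hk.fh]
        unfold κ0f θf
        field_simp
      rw [e2]
      have e9 := cq3_sqx (a := pv G.be0 s) (h := pv G.bh s) (b := pv G.b1 s)
        (B := pv G.bqh s) hzx xm2
      rw [← pv_sqx] at e9
      replace e9 := e9.trans (cq3_mono_lo (b' := pv G.bqh s) hz.1 hz2 (hG.q1 s (m1 hs))
        (hG.q3 s (m1 hs)))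
      refine mul_le_mul_of_nonneg_left (mul_le_mul_of_nonneg_left e9 ?_) ?_
      · exact mul_nonneg (mul_nonneg (hc.ke0 ht hs) (inv_nonneg.2 e1.le))
          (Tab.val_nonneg _ _ _ _ hq.1 hq.2)
      · exact div_nonneg (hc.kt0 hG ht) th0.le
    rw [intervalIntegral.integral_const_mul] at h2
    refine h2.trans ?_
    have h4 := mul_le_mul_of_nonneg_left h1 (div_nonneg zero_le_one th0.le)
    have h5 : 1 / r.th * (t * pv G.kp1 t
          * cq3 (c.B0.ev q) (c.Bh.ev q) 0 z)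
        ≤ Kf' G t * (r.qn c).I2 z q := by
      have j0 := Q4.ev_le hr.B0 hq
      have jh := Q4.ev_le hr.Bh hq
      push_cast at j0 jh
      have j2 : 1 / (r.th : ℝ) * cq3 (c.B0.ev q) (c.Bh.ev q) 0 z
          ≤ (r.qn c).I2 z q := by
        rw [cq3_lo hz2, div_mul_eq_mul_div, div_le_iff₀ th0]
        have e : (r.qn c).I2 z q = (1 - 2 * z) * r.B0.ev q + 2 * z * r.Bh.ev q := by
          unfold Qn.I2
          show (1 - 2 * z) * pv r.B0.li q + 2 * z * pv r.Bh.li q = _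
          rw [Q4.pv_li, Q4.pv_li]
        rw [e]
        have k1 := mul_le_mul_of_nonneg_left j0 (show 0 ≤ 1 - 2 * z by linarith)
        have k2 := mul_le_mul_of_nonneg_left jh (show 0 ≤ 2 * z by linarith [hz.1])
        linarith
      have j4 := mul_le_mul_of_nonneg_left j2 K0
      unfold Kf' at j4 ⊢
      linarith
    refine le_trans (le_of_eq ?_) (h4.trans h5)
    unfold ktf
    ring
  · have h1 := hc.W4 hG ht hc.H (cp c.Fp) (fun s _ => le_rfl) hq
    have h2 := Q4.ev_le hr.H hq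
    have e : ∀ s, Fsf G c t s * (r.thh : ℝ) * R.val kRF c.m t s q
        = (ktf G c t * r.thh) * (pv c.Fp s * R.val kRF c.m t s q) := by
      intro s
      unfold Fsf
      ring
    simp only [e, intervalIntegral.integral_const_mul]
    have h3 := mul_le_mul_of_nonneg_left h1 thh0.le
    have h4 := mul_le_mul_of_nonneg_left h2 K0
    show _ ≤ Kf' G t * pv r.A3.li q
    rw [Q4.pv_li]
    push_cast at h4
    unfold ktf
    unfold Kf' at h4 ⊢
    linarith
  · have hzx := hz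
    obtain ⟨hz, hz2⟩ := z1 hz
    have h1 := hc.W4c hG ht hc.C0 hc.Ch (F0 := fun _ => 1)
      (Fh := pv G.rqh) (F1 := pv G.rqh) (cp c.Fp)
      continuousOn_const (cp _) (cp _)
      (fun s hs => by rw [mul_one])
      (fun s hs => by rw [pv_lmul]) hq hz.1 hz2 0
    have cL : ContinuousOn (fun s => Fsf G c t s * (r.thh : ℝ)⁻¹ * ρf G z s ^ 2
        * R.val kCF c.m t s q) (Icc 0 t) := by
      unfold Fsf ρf
      exact (((continuousOn_const.mul (cp _)).mul continuousOn_const).mul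
        ((cq3_cn continuousOn_const (cp _) (cp _) z).pow 2)).mul
        (Tab.val_cont _ _ _ _).continuousOn
    have cR : ContinuousOn (fun s => (ktf G c t / r.thh) * ((pv c.Fp s
        * R.val kCF c.m t s q)
        * cq3 1 (pv G.rqh s) (pv G.rqh s) z)) (Icc 0 t) :=
      continuousOn_const.mul (((cp _).mul (Tab.val_cont _ _ _ _).continuousOn).mul
        (cq3_cn continuousOn_const (cp _) (cp _) z))
    have h2 : ∫ s in (0 : ℝ)..t, Fsf G c t s * (r.thh : ℝ)⁻¹ * ρf G z s ^ 2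
          * R.val kCF c.m t s q
        ≤ ∫ s in (0 : ℝ)..t, (ktf G c t / r.thh) * ((pv c.Fp s
          * R.val kCF c.m t s q)
          * cq3 1 (pv G.rqh s) (pv G.rqh s) z) := by
      refine intervalIntegral.integral_mono_on t0
        (ii_of t0 cL ⟨le_rfl, t0⟩ ⟨t0, le_rfl⟩) (ii_of t0 cR ⟨le_rfl, t0⟩ ⟨t0, le_rfl⟩)
        fun s hs => ?_
      have e2 : Fsf G c t s * (r.thh : ℝ)⁻¹ * ρf G z s ^ 2 * R.val kCF c.m t s q
          = (ktf G c t / r.thh) * ((pv c.Fp s * R.val kCF c.m t s q)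
            * cq3 1 (pv G.Rh s) (pv G.Rh s) z ^ 2) := by
        unfold Fsf ρf
        field_simp
      rw [e2]
      have e3 := cq3_sqx (a := pv [1] s) (h := pv G.Rh s) (b := pv G.Rh s)
        (B := pv G.rqh s) hzx xm2
      rw [← pv_sqx, pv_one1, one_pow] at e3
      replace e3 := e3.trans (cq3_mono_lo (b' := pv G.rqh s) hz.1 hz2 le_rfl
        (hG.q5 s (m1 hs)))
      refine mul_le_mul_of_nonneg_left (mul_le_mul_of_nonneg_left e3 ?_) ?_
      · exact mul_nonneg (hc.Fp0 hG ht hs) (Tab.val_nonneg _ _ _ _ hq.1 hq.2)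
      · exact div_nonneg (hc.kt0 hG ht) thh0.le
    rw [intervalIntegral.integral_const_mul] at h2
    refine h2.trans ?_
    have h4 := mul_le_mul_of_nonneg_left h1 (div_nonneg zero_le_one thh0.le)
    have h5 : 1 / r.thh * (t * pv G.kp1 t
          * cq3 (c.C0.ev q) (c.Ch.ev q) 0 z)
        ≤ Kf' G t * (r.qn c).I4 z q := by
      have j0 := Q4.ev_le hr.D0 hq
      have jh := Q4.ev_le hr.Dh hq
      push_cast at j0 jh
      have j2 : 1 / (r.thh : ℝ) * cq3 (c.C0.ev q) (c.Ch.ev q) 0 z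
          ≤ (r.qn c).I4 z q := by
        rw [cq3_lo hz2, div_mul_eq_mul_div, div_le_iff₀ thh0]
        have e : (r.qn c).I4 z q = (1 - 2 * z) * r.C0.ev q + 2 * z * r.Ch.ev q := by
          unfold Qn.I4
          show (1 - 2 * z) * pv r.C0.li q + 2 * z * pv r.Ch.li q = _
          rw [Q4.pv_li, Q4.pv_li]
        rw [e]
        have k1 := mul_le_mul_of_nonneg_left j0 (show 0 ≤ 1 - 2 * z by linarith)
        have k2 := mul_le_mul_of_nonneg_left jh (show 0 ≤ 2 * z by linarith [hz.1])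
        linarith
      have j4 := mul_le_mul_of_nonneg_left j2 K0
      unfold Kf' at j4 ⊢
      linarith
    refine le_trans (le_of_eq ?_) (h4.trans h5)
    unfold ktf
    ring

end Pool.Agent.RZ.RCN.K.P3
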