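import Pool.Agent.RZ.RCO.PwG
import Pool.Agent.RZ.RCO.PwM

/-! The inequality of the pairs: the inequality of one pair in a big cell and a range
(MP_73ccd0_lc, route M). -/

set_option autoImplicit false

namespace Pool.Agent.RZ.RCN.K.P3

open Set Finset MeasureTheory Pool.Agent.RZ.RCN.K Pool.Agent.RZ.RCRSHalf Pool.Agent.RZ.RCG
open Pool.Agent.RZ.RCG.Ct Pool.Agent.RZ.RCN.Ker Pool.Agent.RZ.RCRS Pool.Agent.RZ.RCM.Jen Pool.Agent.RZ.RCM9
open Pool.Agent.RZ.RCN.Ck1 Pool.Agent.RZ.RCO.RT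

set_option linter.unusedSectionVars false

theorem pri_bx (ke q0 a h : List ℚ) (s : ℝ) :
    pv (pri (lmul ke (lmul (bx a h) q0))) s = pv (pri (lmul ke (lmul a q0))) s
      + 2 * xmQ * (pv (pri (lmul ke (lmul h q0))) s - pv (pri (lmul ke (lmul a q0))) s) := by
  have i : ∀ l : List ℚ, IntervalIntegrable (fun r => pv l r) volume 0 s := fun l =>
    (continuous_pv l).intervalIntegrable _ _
  rw [← int_pri, ← int_pri, ← int_pri, ← intervalIntegral.integral_sub (i _) (i _),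
    ← intervalIntegral.integral_const_mul,
    ← intervalIntegral.integral_add (i _) (((i _).sub (i _)).const_mul _)]
  refine intervalIntegral.integral_congr fun r _ => ?_
  simp only [pv_lmul, pv_bx]
  ring

variable {R : Tab} {G : Gl} {c : Tc} {r : Rg} {t : ℝ} {k : Kf}

theorem cke_le {D : ℤ} {n : ℕ} {b : List ℚ} (h : c.cke R G D n b = true) (t0 : 0 ≤ t)
    (ht : t ∈ Icc (c.t0 R : ℝ) (c.t1 R)) :
    (1 + G.ee * t) * (pv c.kc t * pv (pri (lmul c.ke (lmul b G.q0))) t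
      - pv (pri (lmul b G.q0)) t) ≤ Kf' G t * c.e := by
  have h1 := nn_sub h ht
  rw [pv_lmul, pv_lsmul, pv_lsub, pv_lmul] at h1
  have h2 := mul_le_mul_of_nonneg_left h1 t0
  rw [← pri_tail (lmul c.ke (lmul b G.q0)) t, ← pri_tail (lmul b G.q0) t]
  unfold Kf'
  have e : pv [1, G.ee] t = 1 + G.ee * t := by
    simp only [pv]
    push_cast
    ring
  rw [e] at h2
  linarith

theorem one_wt (hc : c.Good R G) (ht : t ∈ Icc (c.t0 R : ℝ) (c.t1 R)) {w : ℝ}
    (hw : w ∈ Icc (0 : ℝ) 1) : 0 ≤ 1 + w * t ∧ 1 + w * t ≤ 1 + c.γ * w := by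
  have t0 := (hc.tm ht).1
  have h1 := mul_nonneg hw.1 t0
  have h2 := mul_le_mul_of_nonneg_left (ht.2.trans hc.t1γ) hw.1
  constructor <;> linarith

theorem κ0_nn (hc : c.Good R G) (hG : G.Good) (ht : t ∈ Icc (c.t0 R : ℝ) (c.t1 R)) {s : ℝ}
    (hs : s ∈ Icc (0 : ℝ) t) : 0 ≤ κ0f G c t s :=
  mul_nonneg (hc.kt0 hG ht) (hc.ke0 ht hs)

/-- **the excess of the densities** -/
theorem eps_of (hc : c.Good R G) (hG : G.Good)
    (ht : t ∈ Icc (c.t0 R : ℝ) (c.t1 R)) (hk : KG k G) {κd : ℝ → ℝ → ℝ → ℝ}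
    (cκ : ∀ w, ContinuousOn (κd w t) (Icc 0 t))
    (hκ : ∀ w ∈ Icc (0 : ℝ) 1, ∀ s ∈ Icc 0 t, κd w t s ≤ (1 + w * t) * κ0f G c t s)
    (hPe : ∀ w, k.Pe w t = (1 + w * t) * (1 + G.ee * t)) :
    ∀ z ∈ Icc (0 : ℝ) 1, ∀ w ∈ Icc (0 : ℝ) 1,
      ∫ s in (0 : ℝ)..t, k.fh z s * (κd w t s - k.Pe w t) ≤ (Kf' G t * c.e) * (1 + c.γ * w) := by
  intro z hz w hw
  have t0 := (hc.tm ht).1
  have K0 : 0 ≤ Kf' G t := hc.K0 ht
  have e0 : (0 : ℝ) ≤ c.e := hc.e0
  have ee0 := hG.ee0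
  have et : 0 ≤ 1 + G.ee * t := by have := mul_nonneg ee0 t0; linarith
  have cp : ∀ l : List ℚ, ContinuousOn (pv l) (Icc 0 t) := fun l => (continuous_pv l).continuousOn
  have m0 : (0 : ℝ) ∈ Icc 0 t := ⟨le_rfl, t0⟩
  have mt : t ∈ Icc 0 t := ⟨t0, le_rfl⟩
  obtain ⟨w0, w1⟩ := one_wt hc ht hw
  have ci := i2_cn t
  have cfh : ContinuousOn (k.fh z) (Icc 0 t) := by
    rw [show k.fh z = fun s => _ from funext fun s => hk.fh z s]
    exact (cq3_cn (cp _) (cp _) (cp _) z).mul ci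
  have cL : ContinuousOn (fun s => k.fh z s * (κd w t s - k.Pe w t)) (Icc 0 t) :=
    cfh.mul ((cκ w).sub continuousOn_const)
  have cq : ContinuousOn (fun s => pv G.q0 s * (pv c.kc t * pv c.ke s - 1)) (Icc 0 t) :=
    (cp _).mul ((continuousOn_const.mul (cp _)).sub continuousOn_const)
  have cR : ContinuousOn (fun s => ((1 + w * t) * (1 + G.ee * t)) * ((pv G.q0 s
      * (pv c.kc t * pv c.ke s - 1)) * cq3 (pv G.be0 s) (pv G.bh s) (pv G.b1 s) z))
      (Icc 0 t) :=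
    continuousOn_const.mul (cq.mul (cq3_cn (cp _) (cp _) (cp _) z))
  have h1 : ∫ s in (0 : ℝ)..t, k.fh z s * (κd w t s - k.Pe w t)
      ≤ ∫ s in (0 : ℝ)..t, ((1 + w * t) * (1 + G.ee * t)) * ((pv G.q0 s
        * (pv c.kc t * pv c.ke s - 1)) * cq3 (pv G.be0 s) (pv G.bh s) (pv G.b1 s) z) := by
    refine intervalIntegral.integral_mono_on t0 (ii_of t0 cL m0 mt) (ii_of t0 cR m0 mt)
      fun s hs => ?_
    have hs1 := (hc.sm ht hs).1
    have c0 : 0 ≤ cq3 (pv G.be0 s) (pv G.bh s) (pv G.b1 s) z :=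
      cq3_nonneg (by linarith [hG.be0 s hs1]) (hG.bh s hs1) (hG.b1 s hs1) hz
    have i0 : 0 ≤ ((1 + s) ^ 2)⁻¹ := by positivity
    have h2 := hκ w hw s hs
    have h3 : κd w t s - k.Pe w t
        ≤ ((1 + w * t) * (1 + G.ee * t)) * (pv c.kc t * pv c.ke s - 1) := by
      rw [hPe]
      unfold κ0f ktf at h2
      linarith
    have h4 := mul_le_mul_of_nonneg_left h3 (mul_nonneg c0 i0)
    have h5 : 0 ≤ pv c.kc t * pv c.ke s - 1 := by
      have j1 := hc.kc t ht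
      have j2 := hc.ke s (hc.sm ht hs).2
      nlinarith
    have h6 := mul_le_mul_of_nonneg_left (hG.q0 s hs1)
      (mul_nonneg (mul_nonneg (mul_nonneg w0 et) h5) c0)
    rw [hk.fh]
    linarith
  refine h1.trans ?_
  rw [intervalIntegral.integral_const_mul, int_cq3 t0 cq (cp _) (cp _) (cp _)]
  have key : ∀ b : List ℚ, c.cke R G 1000000000000 4 b = true →
      (1 + G.ee * t) * ∫ s in (0 : ℝ)..t, pv G.q0 s * (pv c.kc t * pv c.ke s - 1) * pv b s
        ≤ Kf' G t * c.e := by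
    intro b hb
    refine le_trans (le_of_eq ?_) (cke_le hb t0 ht)
    have e : ∀ s, pv G.q0 s * (pv c.kc t * pv c.ke s - 1) * pv b s
        = pv c.kc t * pv (lmul c.ke (lmul b G.q0)) s - pv (lmul b G.q0) s := fun s => by
      simp only [pv_lmul]
      ring
    simp only [e]
    rw [intervalIntegral.integral_sub (((continuous_pv _).intervalIntegrable _ _).const_mul _)
      ((continuous_pv _).intervalIntegrable _ _), intervalIntegral.integral_const_mul,
      int_pri, int_pri]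
  have k1 : (1 + G.ee * t) * cq3
      (∫ s in (0 : ℝ)..t, pv G.q0 s * (pv c.kc t * pv c.ke s - 1) * pv G.be0 s)
      (∫ s in (0 : ℝ)..t, pv G.q0 s * (pv c.kc t * pv c.ke s - 1) * pv G.bh s)
      (∫ s in (0 : ℝ)..t, pv G.q0 s * (pv c.kc t * pv c.ke s - 1) * pv G.b1 s) z
      ≤ Kf' G t * c.e := by
    rw [← cq3_smul]
    exact cq3_le hz (key _ hc.k0) (key _ hc.kh) (key _ hc.k1)
  have k2 := mul_le_mul_of_nonneg_left k1 w0
  have k3 := mul_le_mul_of_nonneg_right w1 (mul_nonneg K0 e0)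
  linarith


/-- the bound of the mean kernel -/
theorem A1_of (hc : c.Good R G) (hal : 0 ≤ pv G.al t)
    (ht : t ∈ Icc (c.t0 R : ℝ) (c.t1 R)) {A : ℝ → ℝ → ℝ}
    (hA : ∀ w ∈ Icc (0 : ℝ) 1, A w t ≤ pv G.al t * (1 + w * pv G.ga t)) :
    ∀ w ∈ Icc (0 : ℝ) 1, A w t ≤ c.α * (1 + c.γ * w) := by
  intro w hw
  have h1 := mul_le_mul_of_nonneg_left (hc.ga t ht) hw.1
  have h2 := mul_le_mul_of_nonneg_left h1 hal
  have γ0 : (0 : ℝ) ≤ 1 + c.γ * w := by
    have h3 : (0 : ℝ) ≤ c.γ := (hc.tm ht).1.trans (ht.2.trans hc.t1γ)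
    have := mul_nonneg h3 hw.1
    linarith
  have h3 := mul_le_mul_of_nonneg_right (hc.al t ht) γ0
  have := hA w hw
  nlinarith

section
variable {V : Type*} [Fintype V] [DecidableEq V]
variable {x : V → V → ℝ} {P : V → Prop} [DecidablePred P]
variable {κd : ℝ → ℝ → ℝ → ℝ} {Rr : V → V → V → ℝ → ℝ → ℝ} {L Lt : V → V → V → V → ℝ → ℝ → ℝ}
variable {a b : V}

/-- **the fluxes** -/
theorem fp_of (hc : c.Good R G) (hG : G.Good) (γ0 : (0 : ℝ) ≤ c.γ)
    (ht : t ∈ Icc (c.t0 R : ℝ) (c.t1 R)) (hk : KG k G) (hx : Wt x P 1)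
    (hκ : ∀ w ∈ Icc (0 : ℝ) 1, ∀ s ∈ Icc 0 t, κd w t s ≤ (1 + w * t) * κ0f G c t s)
    (hR : ∀ a b d, P b → P d → ∀ s ∈ Icc 0 t, Rr a b d t s ≤ x b d * ρf G (x b d) s)
    (hR0 : ∀ a b d, x b d = 0 → ∀ s ∈ Icc 0 t, Rr a b d t s ≤ 0) :
    Fp x P k κd Rr t c.γ (κ0f G c t) (Fsf G c t) (ρf G) := by
  have t0 := (hc.tm ht).1
  have cp : ∀ l : List ℚ, ContinuousOn (pv l) (Icc 0 t) := fun l => (continuous_pv l).continuousOn
  have kt0 := hc.kt0 hG ht
  refine ⟨γ0, continuousOn_const.mul (cp _), fun s hs => κ0_nn hc hG ht hs, fun w hw s hs => ?_,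
    continuousOn_const.mul (cp _), fun s hs => mul_nonneg kt0 (hc.Fp0 hG ht hs),
    fun b d hPb s hs => ?_, fun z _ => cq3_cn continuousOn_const (cp _) (cp _) z,
    fun z hz s hs => ?_, hR, hR0⟩
  · obtain ⟨w0, w1⟩ := one_wt hc ht hw
    have h1 := hκ w hw s hs
    have h2 := mul_le_mul_of_nonneg_right w1 (κ0_nn hc hG ht hs)
    linarith
  · have hs1 := (hc.sm ht hs).1
    have hs2 := (hc.sm ht hs).2
    have ns : (0 : ℝ) ∈ Icc 0 s := ⟨le_rfl, hs.1⟩
    have ms : s ∈ Icc 0 s := ⟨hs.1, le_rfl⟩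
    have cps : ∀ l : List ℚ, ContinuousOn (pv l) (Icc 0 s) := fun l =>
      (continuous_pv l).continuousOn
    have key : ∀ b : List ℚ, ∫ r in (0 : ℝ)..s, (pv c.ke r * pv G.q0 r) * pv b r
        = pv (pri (lmul c.ke (lmul b G.q0))) s := by
      intro b
      rw [← int_pri]
      refine intervalIntegral.integral_congr fun r _ => ?_
      simp only [pv_lmul]
      ring
    have hk1 : ∀ {r : ℝ}, r ∈ Icc 0 s → r ∈ Icc (0 : ℝ) t := fun hr => ⟨hr.1, hr.2.trans hs.2⟩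
    by_cases hP : P d
    · have e : ∀ r, fq x P k.fh b d r = k.fh (x b d) r := fun r => by
        unfold fq; rw [if_pos hP]
      have hz := x_mem hx b d
      have hzx : x b d ∈ Icc (0 : ℝ) xmQ := ⟨hx.nonneg b d, Xc.of hx b d hPb hP⟩
      simp only [e]
      have cL : ContinuousOn (fun r => k.fh (x b d) r * κ0f G c t r) (Icc 0 s) := by
        rw [show k.fh (x b d) = fun s => _ from funext fun s => hk.fh (x b d) s]
        exact ((cq3_cn (cps _) (cps _) (cps _) _).mul (i2_cn s)).mul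
          (continuousOn_const.mul (cps _))
      have cR : ContinuousOn (fun r => ktf G c t * ((pv c.ke r * pv G.q0 r)
          * cq3 (pv G.be0 r) (pv G.bh r) (pv G.b1 r) (x b d))) (Icc 0 s) :=
        continuousOn_const.mul (((cps _).mul (cps _)).mul (cq3_cn (cps _) (cps _) (cps _) _))
      have h1 : ∫ r in (0 : ℝ)..s, k.fh (x b d) r * κ0f G c t r
          ≤ ∫ r in (0 : ℝ)..s, ktf G c t * ((pv c.ke r * pv G.q0 r)
            * cq3 (pv G.be0 r) (pv G.bh r) (pv G.b1 r) (x b d)) := by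
        refine intervalIntegral.integral_mono_on hs.1 (ii_of hs.1 cL ns ms)
          (ii_of hs.1 cR ns ms) fun r hr => ?_
        have hr1 := (hc.sm ht (hk1 hr)).1
        have c0 : 0 ≤ cq3 (pv G.be0 r) (pv G.bh r) (pv G.b1 r) (x b d) :=
          cq3_nonneg (by linarith [hG.be0 r hr1]) (hG.bh r hr1) (hG.b1 r hr1) hz
        have h6 := mul_le_mul_of_nonneg_left (hG.q0 r hr1)
          (mul_nonneg c0 (mul_nonneg kt0 (hc.ke0 ht (hk1 hr))))
        rw [hk.fh]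
        unfold κ0f ktf
        linarith
      refine h1.trans ?_
      rw [intervalIntegral.integral_const_mul,
        int_cq3 hs.1 (g := fun r => pv c.ke r * pv G.q0 r) ((cps _).mul (cps _)) (cps _)
          (cps _) (cps _), key, key, key]
      refine mul_le_mul_of_nonneg_left ?_ kt0
      exact cq3_ends hzx xm2 (hc.F0 s hs2)
        (le_trans (le_of_eq (pri_bx c.ke G.q0 G.be0 G.bh s).symm) (hc.Fx s hs2))
    · have e : ∀ r, fq x P k.fh b d r = ((1 + r) ^ 2)⁻¹ := fun r => by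
        unfold fq; rw [if_neg hP]; rfl
      simp only [e]
      have cL : ContinuousOn (fun r => ((1 + r) ^ 2)⁻¹ * κ0f G c t r) (Icc 0 s) :=
        (i2_cn s).mul (continuousOn_const.mul (cps _))
      have cR : ContinuousOn (fun r => ktf G c t * ((pv c.ke r * pv G.q0 r) * pv G.be0 r))
          (Icc 0 s) :=
        continuousOn_const.mul (((cps _).mul (cps _)).mul (cps _))
      have h1 : ∫ r in (0 : ℝ)..s, ((1 + r) ^ 2)⁻¹ * κ0f G c t r
          ≤ ∫ r in (0 : ℝ)..s, ktf G c t * ((pv c.ke r * pv G.q0 r) * pv G.be0 r) := by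
        refine intervalIntegral.integral_mono_on hs.1 (ii_of hs.1 cL ns ms)
          (ii_of hs.1 cR ns ms) fun r hr => ?_
        have hr1 := (hc.sm ht (hk1 hr)).1
        have k0 := mul_nonneg kt0 (hc.ke0 ht (hk1 hr))
        have h6 := mul_le_mul_of_nonneg_left (hG.q0 r hr1) k0
        have h7 := mul_le_mul_of_nonneg_left (hG.be0 r hr1)
          (mul_nonneg k0 (hG.q0n hr1))
        unfold κ0f ktf
        linarith
      refine h1.trans ?_
      rw [intervalIntegral.integral_const_mul, key]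
      exact mul_le_mul_of_nonneg_left (hc.F0 s hs2) kt0
  · have hs1 := (hc.sm ht hs).1
    exact cq3_nonneg zero_le_one (hG.Rh s hs1) (hG.Rh s hs1) hz

end

end Pool.Agent.RZ.RCN.K.P3
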