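import Pool.Agent.RZ.RCO.Gg8
import Pool.Agent.RZ.RCO.RecK
import Pool.Agent.RZ.RCO.SBk
import Pool.Agent.RZ.RCO.SBr

/-! The records of the sums of level 2 with their links (MP_73ccd0_lc). -/

set_option autoImplicit false
set_option maxRecDepth 100000

namespace Pool.Agent.RZ.RCO.RecK

open Sg

/-- the record of the kind c12 -/
def c12 : Ck where
  k := z
  LT := [(0, 0), (1, 1), (2, 2), (3, 3), (4, 4), (5, 5), (6, 6), (10, 73), (11, 74), (12, 75), (13, 76), (14, 77), (15, 78), (16, 85), (17, 86), (18, 87), (19, 88), (20, 89), (21, 90)]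
  LP := [(0, 0), (42, 56), (43, 57), (44, 58), (45, 62), (46, 65), (47, 325), (48, 328), (49, 331), (50, 334), (51, 337), (52, 340), (53, 343), (54, 346), (55, 349), (56, 352), (57, 355), (58, 358), (59, 361), (60, 364), (61, 367), (62, 370), (63, 373), (64, 376), (65, 379), (66, 382), (67, 385), (68, 388), (69, 391), (70, 394)]
  LG := [(0, 0), (38, 38), (39, 39), (40, 40), (41, 41)]

/-- the record of the kind c13 -/
def c13 : Ck where
  k := r
  LT := [(0, 0), (1, 1), (2, 2), (3, 3), (4, 4), (5, 5), (6, 6), (10, 73), (11, 74), (12, 75), (13, 76), (14, 77), (15, 78), (16, 85), (17, 86), (18, 87), (19, 88), (20, 89), (21, 90)]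
  LP := [(0, 0), (42, 56), (43, 57), (44, 58), (45, 62), (46, 65), (47, 73), (48, 74), (49, 75), (50, 76), (51, 77), (52, 78), (53, 79), (54, 80), (55, 81), (56, 82), (57, 83), (58, 84), (59, 85), (60, 86), (61, 87), (62, 88), (63, 89), (64, 90), (65, 91), (66, 92), (67, 93), (68, 94), (69, 95), (70, 96), (71, 349), (72, 352), (73, 355), (74, 358), (75, 361), (76, 364), (77, 367), (78, 370), (79, 373), (80, 376), (81, 379), (82, 382), (83, 385), (84, 388), (85, 391), (86, 394), (87, 397), (88, 400), (89, 403), (90, 406), (91, 409), (92, 412), (93, 415), (94, 418)]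
  LG := [(0, 0), (38, 38), (39, 39), (40, 40), (41, 41)]

/-- the record of the kind c21 -/
def c21 : Ck where
  k := z
  LT := [(0, 0), (1, 1), (2, 2), (3, 3), (4, 4), (5, 5), (6, 6), (10, 73), (11, 74), (12, 75), (13, 76), (14, 77), (15, 78), (16, 85), (17, 86), (18, 87), (19, 88), (20, 89), (21, 90)]
  LP := [(0, 0), (42, 56), (43, 57), (44, 58), (45, 62), (46, 65), (47, 325), (48, 328), (49, 331), (50, 334), (51, 337), (52, 340), (53, 343), (54, 346), (55, 349), (56, 352), (57, 355), (58, 358), (59, 361), (60, 364), (61, 367), (62, 370), (63, 373), (64, 376), (65, 379), (66, 382), (67, 385), (68, 388), (69, 391), (70, 394)]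
  LG := [(0, 0), (38, 38), (39, 39), (40, 40), (41, 41)]

/-- the record of the kind c31 -/
def c31 : Ck where
  k := z
  LT := [(0, 0), (1, 1), (2, 2), (3, 3), (4, 4), (5, 5), (6, 6), (10, 97), (11, 98), (12, 99), (13, 100), (14, 101), (15, 102), (16, 109), (17, 110), (18, 111), (19, 112), (20, 113), (21, 114)]
  LP := [(0, 0), (42, 56), (43, 57), (44, 58), (45, 62), (46, 65), (47, 325), (48, 328), (49, 331), (50, 334), (51, 337), (52, 340), (53, 343), (54, 346), (55, 349), (56, 352), (57, 355), (58, 358), (59, 361), (60, 364), (61, 367), (62, 370), (63, 373), (64, 376), (65, 379), (66, 382), (67, 385), (68, 388), (69, 391), (70, 394)]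
  LG := [(0, 0), (38, 38), (39, 39), (40, 40), (41, 41)]

/-- the records -/
def rk : Crk := ⟨c12, c13, c21, c31⟩

theorem b12 : c12.okB SBk.X SBk.X = true := by decide +kernel
theorem g12 : c12.okG SBk.X.tp.b.N = true := by decide +kernel
theorem b13 : c13.okB SBk.X SBr.X = true := by decide +kernel
theorem b21 : c21.okB SBk.X SBk.X = true := by decide +kernel
theorem b31 : c31.okB SBr.X SBk.X = true := by decide +kernel

theorem okC {F : Cr} (hX : F.X = SBk.X) (hY : F.Y = SBr.X) : Crk.OkC F rk :=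
  ⟨by rw [hX]; exact Ck.ok_of b12, by rw [hX]; exact g12, by rw [hX, hY]; exact Ck.ok_of b13⟩

theorem okR {F : Cr} (hX : F.X = SBk.X) (hY : F.Y = SBr.X) : Crk.OkR F rk :=
  ⟨by rw [hX]; exact Ck.ok_of b21, by rw [hX, hY]; exact Ck.ok_of b31⟩

end Pool.Agent.RZ.RCO.RecK
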