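import Pool.Agent.RZ.RCO.Gk13
import Pool.Agent.RZ.RCO.SA

/-! Types of a sheet, piece 1 (MP_73ccd0_lc). -/

set_option autoImplicit false
set_option maxRecDepth 100000
set_option linter.all false

namespace Pool.Agent.RZ.RCO.SAL

open Sg

noncomputable def t1 : List Ty :=
 [⟨(.sub (.mul (.add (.mul (.mul (.c 1024) (.s 2 37 744 2)) (.w 0 1)) (.mul (.mul (.c 171) (.v 0)) (.s 2 40 744 2))) (.c 1)) (.mul (.c 1024) (.add (.mul (.add (.mul (.r 2 679 744 2) (.q 0)) (.mul (.r 2 680 744 2) (.v 0))) (.sub (.c 0) (.mul (.c 12) (.c 1)))) (.add (.mul (.add (.mul (.r 2 683 744 2) (.q 0)) (.mul (.r 2 684 744 2) (.v 0))) (.c 1)) (.mul (.add (.mul (.r 2 687 744 2) (.q 0)) (.mul (.r 2 688 744 2) (.v 0))) (.sub (.c 0) (.mul (.c 12) (.c 1)))))))), 49, 2, 1, 2, 1⟩,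
  ⟨(.sub (.mul (.mul (.s 2 38 744 2) (.c 1)) (.w 0 1)) (.add (.mul (.add (.mul (.r 2 681 744 2) (.q 0)) (.mul (.r 2 682 744 2) (.v 0))) (.sub (.c 0) (.mul (.c 12) (.c 1)))) (.add (.mul (.add (.mul (.r 2 685 744 2) (.q 0)) (.mul (.r 2 686 744 2) (.v 0))) (.mul (.c 2) (.c 1))) (.mul (.add (.mul (.r 2 687 744 2) (.q 0)) (.mul (.r 2 688 744 2) (.v 0))) (.sub (.c 0) (.mul (.c 24) (.c 1))))))), 40, 2, 1, 2, 1⟩,
  ⟨(.sub (.mul (.mul (.s 2 39 744 2) (.c 1)) (.w 0 1)) (.add (.mul (.add (.mul (.r 2 683 744 2) (.q 0)) (.mul (.r 2 684 744 2) (.v 0))) (.sub (.c 0) (.mul (.c 12) (.c 1)))) (.add (.mul (.add (.mul (.r 2 685 744 2) (.q 0)) (.mul (.r 2 686 744 2) (.v 0))) (.sub (.c 0) (.mul (.c 12) (.c 1)))) (.mul (.add (.mul (.r 2 687 744 2) (.q 0)) (.mul (.r 2 688 744 2) (.v 0))) (.mul (.c 144) (.c 1)))))), 42, 2, 1, 2, 1⟩,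
  ⟨(.sub (.sub (.mul (.c 1024) (.add (.mul (.q 2) (.r 0 44 1 3)) (.mul (.v 2) (.r 0 788 1 3)))) (.mul (.mul (.s 2 135 744 2) (.add (.mul (.c 853) (.w 0 1)) (.mul (.c 171) (.q 0)))) (.w 0 1))) (.add (.mul (.add (.mul (.r 2 689 744 2) (.q 0)) (.mul (.r 2 690 744 2) (.v 0))) (.mul (.c 2) (.add (.mul (.c 853) (.w 0 1)) (.mul (.c 171) (.q 0))))) (.add (.mul (.add (.mul (.r 2 691 744 2) (.q 0)) (.mul (.r 2 692 744 2) (.v 0))) (.add (.mul (.c 853) (.w 0 1)) (.mul (.c 171) (.q 0)))) (.mul (.add (.mul (.r 2 697 744 2) (.q 0)) (.mul (.r 2 698 744 2) (.v 0))) (.mul (.c 2) (.add (.mul (.c 853) (.w 0 1)) (.mul (.c 171) (.q 0)))))))), 48, 3, 1, 2, 1⟩,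
  ⟨(.sub (.mul (.sub (.mul (.c 0) (.w 2 1)) (.mul (.s 2 136 744 2) (.c 1))) (.w 0 1)) (.add (.mul (.add (.mul (.r 2 689 744 2) (.q 0)) (.mul (.r 2 690 744 2) (.v 0))) (.sub (.c 0) (.mul (.c 12) (.c 1)))) (.add (.mul (.add (.mul (.r 2 693 744 2) (.q 0)) (.mul (.r 2 694 744 2) (.v 0))) (.c 1)) (.mul (.add (.mul (.r 2 697 744 2) (.q 0)) (.mul (.r 2 698 744 2) (.v 0))) (.sub (.c 0) (.mul (.c 12) (.c 1))))))), 39, 2, 1, 2, 1⟩,
  ⟨(.sub (.mul (.sub (.mul (.c 0) (.w 2 1)) (.mul (.s 2 137 744 2) (.c 1))) (.w 0 1)) (.add (.mul (.add (.mul (.r 2 691 744 2) (.q 0)) (.mul (.r 2 692 744 2) (.v 0))) (.sub (.c 0) (.mul (.c 12) (.c 1)))) (.add (.mul (.add (.mul (.r 2 695 744 2) (.q 0)) (.mul (.r 2 696 744 2) (.v 0))) (.mul (.c 2) (.c 1))) (.mul (.add (.mul (.r 2 697 744 2) (.q 0)) (.mul (.r 2 698 744 2) (.v 0))) (.sub (.c 0) (.mul (.c 24) (.c 1))))))), 40, 2, 1, 2, 1⟩,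
  ⟨(.sub (.mul (.sub (.mul (.c 0) (.w 2 1)) (.mul (.s 2 138 744 2) (.c 1))) (.w 0 1)) (.add (.mul (.add (.mul (.r 2 693 744 2) (.q 0)) (.mul (.r 2 694 744 2) (.v 0))) (.sub (.c 0) (.mul (.c 12) (.c 1)))) (.add (.mul (.add (.mul (.r 2 695 744 2) (.q 0)) (.mul (.r 2 696 744 2) (.v 0))) (.sub (.c 0) (.mul (.c 12) (.c 1)))) (.mul (.add (.mul (.r 2 697 744 2) (.q 0)) (.mul (.r 2 698 744 2) (.v 0))) (.mul (.c 144) (.c 1)))))), 42, 2, 1, 2, 1⟩,
  ⟨(.sub (.sub (.mul (.mul (.mul (.c 288230376151711744) (.add (.mul (.r 2 47 744 2) (.mul (.c 1) (.add (.mul (.c 853) (.w 0 1)) (.mul (.c 171) (.q 0))))) (.mul (.mul (.c 1024) (.mul (.r 2 48 744 2) (.u 0 [1]))) (.w 0 1)))) (.w 0 5)) (.w 2 2)) (.mul (.add (.mul (.q 2) (.r 0 5 1 3)) (.mul (.v 2) (.r 0 749 1 3))) (.add (.mul (.add (.mul (.q 2) (.r 0 44 1 3)) (.mul (.v 2) (.r 0 788 1 3))) (.add (.mul (.mul (.c 1024) (.mul (.s 2 55 744 2) (.add (.mul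 (.c 853) (.w 0 1)) (.mul (.c 171) (.q 0))))) (.w 0 1)) (.mul (.s 2 56 744 2) (.mul (.mul (.c 171) (.v 0)) (.add (.mul (.c 853) (.w 0 1)) (.mul (.c 171) (.q 0))))))) (.mul (.mul (.mul (.c 17179869184) (.mul (.s 2 159 744 2) (.add (.mul (.c 853) (.w 0 1)) (.mul (.c 171) (.q 0))))) (.w 0 3)) (.w 2 1))))) (.mul (.mul (.mul (.c 288230376151711744) (.add (.mul (.add (.mul (.r 2 699 744 2) (.q 0)) (.mul (.r 2 700 744 2) (.v 0))) (.mul (.c 2) (.add (.mul (.c 853) (.w 0 1)) (.mul (.c 171) (.q 0))))) (.add (.mul (.add (.mul (.r 2 701 744 2) (.q 0)) (.mul (.r 2 702 744 2) (.v 0))) (.add (.mul (.c 853) (.w 0 1)) (.mul (.c 171) (.q 0)))) (.mul (.add (.mul (.r 2 707 744 2) (.q 0)) (.mul (.r 2 708 744 2) (.v 0))) (.mul (.c 2) (.add (.mul (.c 853) (.w 0 1)) (.mul (.c 171) (.q 0)))))))) (.w 0 4)) (.w 2 2))), 125, 7, 1, 4, 1⟩,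
  ⟨(.sub (.sub (.mul (.mul (.c 0) (.w 0 5)) (.w 2 3)) (.mul (.add (.mul (.q 2) (.r 0 5 1 3)) (.mul (.v 2) (.r 0 749 1 3))) (.add (.mul (.add (.mul (.q 2) (.r 0 44 1 3)) (.mul (.v 2) (.r 0 788 1 3))) (.mul (.add (.mul (.mul (.c 1024) (.s 2 57 744 2)) (.w 0 1)) (.mul (.mul (.c 171) (.v 0)) (.s 2 60 744 2))) (.c 1))) (.mul (.mul (.mul (.c 17179869184) (.mul (.s 2 160 744 2) (.c 1))) (.w 0 3)) (.w 2 1))))) (.mul (.mul (.mul (.c 288230376151711744) (.add (.mul (.add (.mul (.r 2 699 744 2) (.q 0)) (.mul (.r 2 700 744 2) (.v 0))) (.sub (.c 0) (.mul (.c 12) (.c 1)))) (.add (.mul (.add (.mul (.r 2 703 744 2) (.q 0)) (.mul (.r 2 704 744 2) (.v 0))) (.c 1)) (.mul (.add (.mul (.r 2 707 744 2) (.q 0)) (.mul (.r 2 708 744 2) (.v 0))) (.sub (.c 0) (.mul (.c 12) (.c 1))))))) (.w 0 4)) (.w 2 2))), 114, 6, 1, 4, 1⟩,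
  ⟨(.sub (.sub (.mul (.mul (.c 0) (.w 0 4)) (.w 2 3)) (.mul (.add (.mul (.q 2) (.r 0 5 1 3)) (.mul (.v 2) (.r 0 749 1 3))) (.add (.mul (.add (.mul (.q 2) (.r 0 44 1 3)) (.mul (.v 2) (.r 0 788 1 3))) (.mul (.s 2 58 744 2) (.c 1))) (.mul (.mul (.mul (.c 16777216) (.mul (.s 2 161 744 2) (.c 1))) (.w 0 2)) (.w 2 1))))) (.mul (.mul (.mul (.c 281474976710656) (.add (.mul (.add (.mul (.r 2 701 744 2) (.q 0)) (.mul (.r 2 702 744 2) (.v 0))) (.sub (.c 0) (.mul (.c 12) (.c 1)))) (.add (.mul (.add (.mul (.r 2 705 744 2) (.q 0)) (.mul (.r 2 706 744 2) (.v 0))) (.mul (.c 2) (.c 1))) (.mul (.add (.mul (.r 2 707 744 2) (.q 0)) (.mul (.r 2 708 744 2) (.v 0))) (.sub (.c 0) (.mul (.c 24) (.c 1))))))) (.w 0 3)) (.w 2 2))), 103, 5, 1, 4, 1⟩,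
  ⟨(.sub (.sub (.mul (.mul (.c 0) (.w 0 4)) (.w 2 3)) (.mul (.add (.mul (.q 2) (.r 0 5 1 3)) (.mul (.v 2) (.r 0 749 1 3))) (.add (.mul (.add (.mul (.q 2) (.r 0 44 1 3)) (.mul (.v 2) (.r 0 788 1 3))) (.mul (.s 2 59 744 2) (.c 1))) (.mul (.mul (.mul (.c 16777216) (.mul (.s 2 162 744 2) (.c 1))) (.w 0 2)) (.w 2 1))))) (.mul (.mul (.mul (.c 281474976710656) (.add (.mul (.add (.mul (.r 2 703 744 2) (.q 0)) (.mul (.r 2 704 744 2) (.v 0))) (.sub (.c 0) (.mul (.c 12) (.c 1)))) (.add (.mul (.add (.mul (.r 2 705 744 2) (.q 0)) (.mul (.r 2 706 744 2) (.v 0))) (.sub (.c 0) (.mul (.c 12) (.c 1)))) (.mul (.add (.mul (.r 2 707 744 2) (.q 0)) (.mul (.r 2 708 744 2) (.v 0))) (.mul (.c 144) (.c 1)))))) (.w 0 3)) (.w 2 2))), 103, 5, 1, 4, 1⟩,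
  ⟨(.sub (.sub (.mul (.mul (.mul (.c 288230376151711744) (.add (.mul (.r 2 51 744 2) (.mul (.c 1) (.add (.mul (.c 853) (.w 0 1)) (.mul (.c 171) (.q 0))))) (.mul (.mul (.c 1024) (.mul (.r 2 52 744 2) (.u 0 [1]))) (.w 0 1)))) (.w 0 5)) (.w 2 2)) (.mul (.add (.mul (.q 2) (.r 0 5 1 3)) (.mul (.v 2) (.r 0 749 1 3))) (.add (.mul (.add (.mul (.q 2) (.r 0 44 1 3)) (.mul (.v 2) (.r 0 788 1 3))) (.add (.mul (.mul (.c 1024) (.mul (.s 2 91 744 2) (.add (.mul (.c 853) (.w 0 1)) (.mul (.c 171) (.q 0))))) (.w 0 1)) (.mul (.s 2 92 744 2) (.mul (.mul (.c 171) (.v 0)) (.add (.mul (.c 853) (.w 0 1)) (.mul (.c 171) (.q 0))))))) (.mul (.mul (.mul (.c 17179869184) (.mul (.s 2 163 744 2) (.add (.mul (.c 853) (.w 0 1)) (.mul (.c 171) (.q 0))))) (.w 0 3)) (.w 2 1))))) (.mul (.mul (.mul (.c 288230376151711744) (.add (.mul (.add (.mul (.r 2 709 744 2) (.q 0)) (.mul (.r 2 710 744 2) (.v 0))) (.mul (.c 2)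 (.add (.mul (.c 853) (.w 0 1)) (.mul (.c 171) (.q 0))))) (.add (.mul (.add (.mul (.r 2 711 744 2) (.q 0)) (.mul (.r 2 712 744 2) (.v 0))) (.add (.mul (.c 853) (.w 0 1)) (.mul (.c 171) (.q 0)))) (.mul (.add (.mul (.r 2 717 744 2) (.q 0)) (.mul (.r 2 718 744 2) (.v 0))) (.mul (.c 2) (.add (.mul (.c 853) (.w 0 1)) (.mul (.c 171) (.q 0)))))))) (.w 0 4)) (.w 2 2))), 125, 7, 1, 4, 1⟩,
  ⟨(.sub (.sub (.mul (.mul (.c 0) (.w 0 5)) (.w 2 3)) (.mul (.add (.mul (.q 2) (.r 0 5 1 3)) (.mul (.v 2) (.r 0 749 1 3))) (.add (.mul (.add (.mul (.q 2) (.r 0 44 1 3)) (.mul (.v 2) (.r 0 788 1 3))) (.mul (.add (.mul (.mul (.c 1024) (.s 2 93 744 2)) (.w 0 1)) (.mul (.mul (.c 171) (.v 0)) (.s 2 96 744 2))) (.c 1))) (.mul (.mul (.mul (.c 17179869184) (.mul (.s 2 164 744 2) (.c 1))) (.w 0 3)) (.w 2 1))))) (.mul (.mul (.mul (.c 288230376151711744) (.add (.mul (.add (.mul (.r 2 709 744 2) (.q 0)) (.mul (.r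 2 710 744 2) (.v 0))) (.sub (.c 0) (.mul (.c 12) (.c 1)))) (.add (.mul (.add (.mul (.r 2 713 744 2) (.q 0)) (.mul (.r 2 714 744 2) (.v 0))) (.c 1)) (.mul (.add (.mul (.r 2 717 744 2) (.q 0)) (.mul (.r 2 718 744 2) (.v 0))) (.sub (.c 0) (.mul (.c 12) (.c 1))))))) (.w 0 4)) (.w 2 2))), 114, 6, 1, 4, 1⟩,
  ⟨(.sub (.sub (.mul (.mul (.c 0) (.w 0 4)) (.w 2 3)) (.mul (.add (.mul (.q 2) (.r 0 5 1 3)) (.mul (.v 2) (.r 0 749 1 3))) (.add (.mul (.add (.mul (.q 2) (.r 0 44 1 3)) (.mul (.v 2) (.r 0 788 1 3))) (.mul (.s 2 94 744 2) (.c 1))) (.mul (.mul (.mul (.c 16777216) (.mul (.s 2 165 744 2) (.c 1))) (.w 0 2)) (.w 2 1))))) (.mul (.mul (.mul (.c 281474976710656) (.add (.mul (.add (.mul (.r 2 711 744 2) (.q 0)) (.mul (.r 2 712 744 2) (.v 0))) (.sub (.c 0) (.mul (.c 12) (.c 1)))) (.add (.mul (.add (.mul (.r 2 715 744 2) (.q 0)) (.mul (.r 2 716 744 2) (.v 0))) (.mul (.c 2) (.c 1))) (.mul (.add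 (.mul (.r 2 717 744 2) (.q 0)) (.mul (.r 2 718 744 2) (.v 0))) (.sub (.c 0) (.mul (.c 24) (.c 1))))))) (.w 0 3)) (.w 2 2))), 103, 5, 1, 4, 1⟩,
  ⟨(.sub (.sub (.mul (.mul (.c 0) (.w 0 4)) (.w 2 3)) (.mul (.add (.mul (.q 2) (.r 0 5 1 3)) (.mul (.v 2) (.r 0 749 1 3))) (.add (.mul (.add (.mul (.q 2) (.r 0 44 1 3)) (.mul (.v 2) (.r 0 788 1 3))) (.mul (.s 2 95 744 2) (.c 1))) (.mul (.mul (.mul (.c 16777216) (.mul (.s 2 166 744 2) (.c 1))) (.w 0 2)) (.w 2 1))))) (.mul (.mul (.mul (.c 281474976710656) (.add (.mul (.add (.mul (.r 2 713 744 2) (.q 0)) (.mul (.r 2 714 744 2) (.v 0))) (.sub (.c 0) (.mul (.c 12) (.c 1)))) (.add (.mul (.add (.mul (.r 2 715 744 2) (.q 0)) (.mul (.r 2 716 744 2) (.v 0))) (.sub (.c 0) (.mul (.c 12) (.c 1)))) (.mul (.add (.mul (.r 2 717 744 2) (.q 0)) (.mul (.r 2 718 744 2) (.v 0))) (.mul (.c 144) (.c 1)))))) (.w 0 3)) (.w 2 2))), 103, 5, 1, 4, 1⟩,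
  ⟨(.sub (.sub (.mul (.mul (.mul (.c 288230376151711744) (.add (.mul (.r 2 49 744 2) (.mul (.c 1) (.add (.mul (.c 853) (.w 0 1)) (.mul (.c 171) (.q 0))))) (.mul (.mul (.c 1024) (.mul (.r 2 50 744 2) (.u 0 [1]))) (.w 0 1)))) (.w 0 5)) (.w 2 2)) (.mul (.add (.mul (.q 2) (.r 0 5 1 3)) (.mul (.v 2) (.r 0 749 1 3))) (.add (.mul (.add (.mul (.q 2) (.r 0 44 1 3)) (.mul (.v 2) (.r 0 788 1 3))) (.add (.mul (.mul (.c 1024) (.mul (.s 2 73 744 2) (.add (.mul (.c 853) (.w 0 1)) (.mul (.c 171) (.q 0))))) (.w 0 1)) (.mul (.s 2 74 744 2) (.mul (.mul (.c 171) (.v 0)) (.add (.mul (.c 853) (.w 0 1)) (.mul (.c 171) (.q 0))))))) (.mul (.mul (.mul (.c 17179869184) (.mul (.s 2 187 744 2) (.add (.mul (.c 853) (.w 0 1)) (.mul (.c 171) (.q 0))))) (.w 0 3)) (.w 2 1))))) (.mul (.mul (.mul (.c 288230376151711744) (.add (.mul (.add (.mul (.r 2 719 744 2) (.q 0)) (.mul (.r 2 720 744 2) (.v 0))) (.mul (.c 2)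 (.add (.mul (.c 853) (.w 0 1)) (.mul (.c 171) (.q 0))))) (.add (.mul (.add (.mul (.r 2 721 744 2) (.q 0)) (.mul (.r 2 722 744 2) (.v 0))) (.add (.mul (.c 853) (.w 0 1)) (.mul (.c 171) (.q 0)))) (.mul (.add (.mul (.r 2 727 744 2) (.q 0)) (.mul (.r 2 728 744 2) (.v 0))) (.mul (.c 2) (.add (.mul (.c 853) (.w 0 1)) (.mul (.c 171) (.q 0)))))))) (.w 0 4)) (.w 2 2))), 125, 7, 1, 4, 1⟩,
  ⟨(.sub (.sub (.mul (.mul (.c 0) (.w 0 5)) (.w 2 3)) (.mul (.add (.mul (.q 2) (.r 0 5 1 3)) (.mul (.v 2) (.r 0 749 1 3))) (.add (.mul (.add (.mul (.q 2) (.r 0 44 1 3)) (.mul (.v 2) (.r 0 788 1 3))) (.mul (.add (.mul (.mul (.c 1024) (.s 2 75 744 2)) (.w 0 1)) (.mul (.mul (.c 171) (.v 0)) (.s 2 78 744 2))) (.c 1))) (.mul (.mul (.mul (.c 17179869184) (.mul (.s 2 188 744 2) (.c 1))) (.w 0 3)) (.w 2 1))))) (.mul (.mul (.mul (.c 288230376151711744) (.add (.mul (.add (.mul (.r 2 719 744 2) (.q 0)) (.mul (.r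 2 720 744 2) (.v 0))) (.sub (.c 0) (.mul (.c 12) (.c 1)))) (.add (.mul (.add (.mul (.r 2 723 744 2) (.q 0)) (.mul (.r 2 724 744 2) (.v 0))) (.c 1)) (.mul (.add (.mul (.r 2 727 744 2) (.q 0)) (.mul (.r 2 728 744 2) (.v 0))) (.sub (.c 0) (.mul (.c 12) (.c 1))))))) (.w 0 4)) (.w 2 2))), 114, 6, 1, 4, 1⟩,
  ⟨(.sub (.sub (.mul (.mul (.c 0) (.w 0 4)) (.w 2 3)) (.mul (.add (.mul (.q 2) (.r 0 5 1 3)) (.mul (.v 2) (.r 0 749 1 3))) (.add (.mul (.add (.mul (.q 2) (.r 0 44 1 3)) (.mul (.v 2) (.r 0 788 1 3))) (.mul (.s 2 76 744 2) (.c 1))) (.mul (.mul (.mul (.c 16777216) (.mul (.s 2 189 744 2) (.c 1))) (.w 0 2)) (.w 2 1))))) (.mul (.mul (.mul (.c 281474976710656) (.add (.mul (.add (.mul (.r 2 721 744 2) (.q 0)) (.mul (.r 2 722 744 2) (.v 0))) (.sub (.c 0) (.mul (.c 12) (.c 1)))) (.add (.mul (.add (.mul (.r 2 725 744 2) (.q 0)) (.mul (.r 2 726 744 2) (.v 0))) (.mul (.c 2) (.c 1))) (.mul (.add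 (.mul (.r 2 727 744 2) (.q 0)) (.mul (.r 2 728 744 2) (.v 0))) (.sub (.c 0) (.mul (.c 24) (.c 1))))))) (.w 0 3)) (.w 2 2))), 103, 5, 1, 4, 1⟩,
  ⟨(.sub (.sub (.mul (.mul (.c 0) (.w 0 4)) (.w 2 3)) (.mul (.add (.mul (.q 2) (.r 0 5 1 3)) (.mul (.v 2) (.r 0 749 1 3))) (.add (.mul (.add (.mul (.q 2) (.r 0 44 1 3)) (.mul (.v 2) (.r 0 788 1 3))) (.mul (.s 2 77 744 2) (.c 1))) (.mul (.mul (.mul (.c 16777216) (.mul (.s 2 190 744 2) (.c 1))) (.w 0 2)) (.w 2 1))))) (.mul (.mul (.mul (.c 281474976710656) (.add (.mul (.add (.mul (.r 2 723 744 2) (.q 0)) (.mul (.r 2 724 744 2) (.v 0))) (.sub (.c 0) (.mul (.c 12) (.c 1)))) (.add (.mul (.add (.mul (.r 2 725 744 2) (.q 0)) (.mul (.r 2 726 744 2) (.v 0))) (.sub (.c 0) (.mul (.c 12) (.c 1)))) (.mul (.add (.mul (.r 2 727 744 2) (.q 0)) (.mul (.r 2 728 744 2) (.v 0))) (.mul (.c 144) (.c 1)))))) (.w 0 3)) (.w 2 2))), 103, 5, 1, 4, 1⟩,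
  ⟨(.sub (.sub (.mul (.mul (.mul (.c 288230376151711744) (.add (.mul (.r 2 53 744 2) (.mul (.c 1) (.add (.mul (.c 853) (.w 0 1)) (.mul (.c 171) (.q 0))))) (.mul (.mul (.c 1024) (.mul (.r 2 54 744 2) (.u 0 [1]))) (.w 0 1)))) (.w 0 5)) (.w 2 2)) (.mul (.add (.mul (.q 2) (.r 0 5 1 3)) (.mul (.v 2) (.r 0 749 1 3))) (.add (.mul (.add (.mul (.q 2) (.r 0 44 1 3)) (.mul (.v 2) (.r 0 788 1 3))) (.add (.mul (.mul (.c 1024) (.mul (.s 2 109 744 2) (.add (.mul (.c 853) (.w 0 1)) (.mul (.c 171) (.q 0))))) (.w 0 1)) (.mul (.s 2 110 744 2) (.mul (.mul (.c 171) (.v 0)) (.add (.mul (.c 853) (.w 0 1)) (.mul (.c 171) (.q 0))))))) (.mul (.mul (.mul (.c 17179869184) (.mul (.s 2 191 744 2) (.add (.mul (.c 853) (.w 0 1)) (.mul (.c 171) (.q 0))))) (.w 0 3)) (.w 2 1))))) (.mul (.mul (.mul (.c 288230376151711744) (.add (.mul (.add (.mul (.r 2 729 744 2) (.q 0)) (.mul (.r 2 730 744 2) (.v 0))) (.mul (.c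 2) (.add (.mul (.c 853) (.w 0 1)) (.mul (.c 171) (.q 0))))) (.add (.mul (.add (.mul (.r 2 731 744 2) (.q 0)) (.mul (.r 2 732 744 2) (.v 0))) (.add (.mul (.c 853) (.w 0 1)) (.mul (.c 171) (.q 0)))) (.mul (.add (.mul (.r 2 737 744 2) (.q 0)) (.mul (.r 2 738 744 2) (.v 0))) (.mul (.c 2) (.add (.mul (.c 853) (.w 0 1)) (.mul (.c 171) (.q 0)))))))) (.w 0 4)) (.w 2 2))), 125, 7, 1, 4, 1⟩,
  ⟨(.sub (.sub (.mul (.mul (.c 0) (.w 0 5)) (.w 2 3)) (.mul (.add (.mul (.q 2) (.r 0 5 1 3)) (.mul (.v 2) (.r 0 749 1 3))) (.add (.mul (.add (.mul (.q 2) (.r 0 44 1 3)) (.mul (.v 2) (.r 0 788 1 3))) (.mul (.add (.mul (.mul (.c 1024) (.s 2 111 744 2)) (.w 0 1)) (.mul (.mul (.c 171) (.v 0)) (.s 2 114 744 2))) (.c 1))) (.mul (.mul (.mul (.c 17179869184) (.mul (.s 2 192 744 2) (.c 1))) (.w 0 3)) (.w 2 1))))) (.mul (.mul (.mul (.c 288230376151711744) (.add (.mul (.add (.mul (.r 2 729 744 2) (.q 0)) (.mul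 (.r 2 730 744 2) (.v 0))) (.sub (.c 0) (.mul (.c 12) (.c 1)))) (.add (.mul (.add (.mul (.r 2 733 744 2) (.q 0)) (.mul (.r 2 734 744 2) (.v 0))) (.c 1)) (.mul (.add (.mul (.r 2 737 744 2) (.q 0)) (.mul (.r 2 738 744 2) (.v 0))) (.sub (.c 0) (.mul (.c 12) (.c 1))))))) (.w 0 4)) (.w 2 2))), 114, 6, 1, 4, 1⟩,
  ⟨(.sub (.sub (.mul (.mul (.c 0) (.w 0 4)) (.w 2 3)) (.mul (.add (.mul (.q 2) (.r 0 5 1 3)) (.mul (.v 2) (.r 0 749 1 3))) (.add (.mul (.add (.mul (.q 2) (.r 0 44 1 3)) (.mul (.v 2) (.r 0 788 1 3))) (.mul (.s 2 112 744 2) (.c 1))) (.mul (.mul (.mul (.c 16777216) (.mul (.s 2 193 744 2) (.c 1))) (.w 0 2)) (.w 2 1))))) (.mul (.mul (.mul (.c 281474976710656) (.add (.mul (.add (.mul (.r 2 731 744 2) (.q 0)) (.mul (.r 2 732 744 2) (.v 0))) (.sub (.c 0) (.mul (.c 12) (.c 1)))) (.add (.mul (.add (.mul (.r 2 735 744 2) (.q 0)) (.mul (.r 2 736 744 2) (.v 0))) (.mul (.c 2) (.c 1))) (.mul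 (.add (.mul (.r 2 737 744 2) (.q 0)) (.mul (.r 2 738 744 2) (.v 0))) (.sub (.c 0) (.mul (.c 24) (.c 1))))))) (.w 0 3)) (.w 2 2))), 103, 5, 1, 4, 1⟩,
  ⟨(.sub (.sub (.mul (.mul (.c 0) (.w 0 4)) (.w 2 3)) (.mul (.add (.mul (.q 2) (.r 0 5 1 3)) (.mul (.v 2) (.r 0 749 1 3))) (.add (.mul (.add (.mul (.q 2) (.r 0 44 1 3)) (.mul (.v 2) (.r 0 788 1 3))) (.mul (.s 2 113 744 2) (.c 1))) (.mul (.mul (.mul (.c 16777216) (.mul (.s 2 194 744 2) (.c 1))) (.w 0 2)) (.w 2 1))))) (.mul (.mul (.mul (.c 281474976710656) (.add (.mul (.add (.mul (.r 2 733 744 2) (.q 0)) (.mul (.r 2 734 744 2) (.v 0))) (.sub (.c 0) (.mul (.c 12) (.c 1)))) (.add (.mul (.add (.mul (.r 2 735 744 2) (.q 0)) (.mul (.r 2 736 744 2) (.v 0))) (.sub (.c 0) (.mul (.c 12) (.c 1)))) (.mul (.add (.mul (.r 2 737 744 2) (.q 0)) (.mul (.r 2 738 744 2) (.v 0))) (.mul (.c 144) (.c 1)))))) (.w 0 3)) (.w 2 2))), 103, 5, 1, 4, 1⟩,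
  ⟨(.sub (.r 0 0 1 1) (.c 1)), 33, 1, 1, 1, 1⟩,
  ⟨(.sub (.mul (.mul (.c 1073741824) (.add (.mul (.q 2) (.r 0 14 1 3)) (.mul (.v 2) (.r 0 758 1 3)))) (.w 1 2)) (.mul (.mul (.mul (.c 171) (.v 0)) (.add (.mul (.mul (.c 1048576) (.r 2 2 744 2)) (.w 1 2)) (.mul (.mul (.c 86) (.v 1)) (.add (.mul (.mul (.c 1024) (.r 2 3 744 2)) (.w 1 1)) (.mul (.mul (.c 86) (.v 1)) (.r 2 4 744 2)))))) (.w 0 1))), 67, 3, 3, 2, 1⟩,
  ⟨(.sub (.mul (.c 33554432) (.r 0 8 1 1)) (.add (.mul (.c 33554432) (.r 0 752 1 1)) (.mul (.c 1) (.mul (.r 0 0 1 1) (.add (.r 0 11 1 1) (.r 0 755 1 1)))))), 66, 1, 1, 1, 1⟩,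
  ⟨(.sub (.r 0 5 1 1) (.r 0 8 1 1)), 34, 1, 1, 1, 1⟩,
  ⟨(.sub (.r 0 749 1 1) (.r 0 752 1 1)), 34, 1, 1, 1, 1⟩,
  ⟨(.sub (.mul (.c 16777216) (.mul (.c 8) (.sub (.r 0 5 1 1) (.r 0 8 1 1)))) (.mul (.r 0 0 1 1) (.sub (.r 0 755 1 1) (.r 0 11 1 1)))), 66, 1, 1, 1, 1⟩,
  ⟨(.sub (.mul (.c 16777216) (.mul (.c 8) (.sub (.r 0 749 1 1) (.r 0 752 1 1)))) (.mul (.r 0 0 1 1) (.sub (.r 0 755 1 1) (.r 0 11 1 1)))), 66, 1, 1, 1, 1⟩,
  ⟨(.sub (.mul (.c 33554432) (.r 0 9 1 1)) (.add (.mul (.c 33554432) (.r 0 753 1 1)) (.mul (.c 1) (.mul (.r 0 0 1 1) (.add (.r 0 12 1 1) (.r 0 756 1 1)))))), 66, 1, 1, 1, 1⟩,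
  ⟨(.sub (.r 0 6 1 1) (.r 0 9 1 1)), 34, 1, 1, 1, 1⟩,
  ⟨(.sub (.r 0 750 1 1) (.r 0 753 1 1)), 34, 1, 1, 1, 1⟩,
  ⟨(.sub (.mul (.c 16777216) (.mul (.c 8) (.sub (.r 0 6 1 1) (.r 0 9 1 1)))) (.mul (.r 0 0 1 1) (.sub (.r 0 756 1 1) (.r 0 12 1 1)))), 66, 1, 1, 1, 1⟩,
  ⟨(.sub (.mul (.c 16777216) (.mul (.c 8) (.sub (.r 0 750 1 1) (.r 0 753 1 1)))) (.mul (.r 0 0 1 1) (.sub (.r 0 756 1 1) (.r 0 12 1 1)))), 66, 1, 1, 1, 1⟩,
  ⟨(.sub (.mul (.c 33554432) (.r 0 10 1 1)) (.add (.mul (.c 33554432) (.r 0 754 1 1)) (.mul (.c 1) (.mul (.r 0 0 1 1) (.add (.r 0 13 1 1) (.r 0 757 1 1)))))), 66, 1, 1, 1, 1⟩,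
  ⟨(.sub (.r 0 7 1 1) (.r 0 10 1 1)), 34, 1, 1, 1, 1⟩,
  ⟨(.sub (.r 0 751 1 1) (.r 0 754 1 1)), 34, 1, 1, 1, 1⟩,
  ⟨(.sub (.mul (.c 16777216) (.mul (.c 8) (.sub (.r 0 7 1 1) (.r 0 10 1 1)))) (.mul (.r 0 0 1 1) (.sub (.r 0 757 1 1) (.r 0 13 1 1)))), 66, 1, 1, 1, 1⟩,
  ⟨(.sub (.mul (.c 16777216) (.mul (.c 8) (.sub (.r 0 751 1 1) (.r 0 754 1 1)))) (.mul (.r 0 0 1 1) (.sub (.r 0 757 1 1) (.r 0 13 1 1)))), 66, 1, 1, 1, 1⟩,
  ⟨(.sub (.mul (.c 33554432) (.s 0 29 1 1)) (.add (.mul (.c 33554432) (.s 0 773 1 1)) (.mul (.c 1) (.mul (.r 0 0 1 1) (.add (.s 0 23 1 1) (.s 0 767 1 1)))))), 66, 1, 1, 1, 1⟩,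
  ⟨(.sub (.s 0 35 1 1) (.s 0 29 1 1)), 34, 1, 1, 1, 1⟩,
  ⟨(.sub (.s 0 779 1 1) (.s 0 773 1 1)), 34, 1, 1, 1, 1⟩,
  ⟨(.sub (.mul (.c 16777216) (.mul (.c 8) (.sub (.s 0 35 1 1) (.s 0 29 1 1)))) (.mul (.r 0 0 1 1) (.sub (.s 0 767 1 1) (.s 0 23 1 1)))), 66, 1, 1, 1, 1⟩,
  ⟨(.sub (.mul (.c 16777216) (.mul (.c 8) (.sub (.s 0 779 1 1) (.s 0 773 1 1)))) (.mul (.r 0 0 1 1) (.sub (.s 0 767 1 1) (.s 0 23 1 1)))), 66, 1, 1, 1, 1⟩,
  ⟨(.sub (.mul (.c 33554432) (.s 0 30 1 1)) (.add (.mul (.c 33554432) (.s 0 774 1 1)) (.mul (.c 1) (.mul (.r 0 0 1 1) (.add (.s 0 24 1 1) (.s 0 768 1 1)))))), 66, 1, 1, 1, 1⟩,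
  ⟨(.sub (.s 0 36 1 1) (.s 0 30 1 1)), 34, 1, 1, 1, 1⟩,
  ⟨(.sub (.s 0 780 1 1) (.s 0 774 1 1)), 34, 1, 1, 1, 1⟩,
  ⟨(.sub (.mul (.c 16777216) (.mul (.c 8) (.sub (.s 0 36 1 1) (.s 0 30 1 1)))) (.mul (.r 0 0 1 1) (.sub (.s 0 768 1 1) (.s 0 24 1 1)))), 66, 1, 1, 1, 1⟩,
  ⟨(.sub (.mul (.c 16777216) (.mul (.c 8) (.sub (.s 0 780 1 1) (.s 0 774 1 1)))) (.mul (.r 0 0 1 1) (.sub (.s 0 768 1 1) (.s 0 24 1 1)))), 66, 1, 1, 1, 1⟩,
  ⟨(.sub (.mul (.c 33554432) (.s 0 31 1 1)) (.add (.mul (.c 33554432) (.s 0 775 1 1)) (.mul (.c 1) (.mul (.r 0 0 1 1) (.add (.s 0 25 1 1) (.s 0 769 1 1)))))), 66, 1, 1, 1, 1⟩,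
  ⟨(.sub (.s 0 37 1 1) (.s 0 31 1 1)), 34, 1, 1, 1, 1⟩,
  ⟨(.sub (.s 0 781 1 1) (.s 0 775 1 1)), 34, 1, 1, 1, 1⟩,
  ⟨(.sub (.mul (.c 16777216) (.mul (.c 8) (.sub (.s 0 37 1 1) (.s 0 31 1 1)))) (.mul (.r 0 0 1 1) (.sub (.s 0 769 1 1) (.s 0 25 1 1)))), 66, 1, 1, 1, 1⟩,
  ⟨(.sub (.mul (.c 16777216) (.mul (.c 8) (.sub (.s 0 781 1 1) (.s 0 775 1 1)))) (.mul (.r 0 0 1 1) (.sub (.s 0 769 1 1) (.s 0 25 1 1)))), 66, 1, 1, 1, 1⟩,
  ⟨(.sub (.mul (.c 33554432) (.s 0 32 1 1)) (.add (.mul (.c 33554432) (.s 0 776 1 1)) (.mul (.c 1) (.mul (.r 0 0 1 1) (.add (.s 0 26 1 1) (.s 0 770 1 1)))))), 66, 1, 1, 1, 1⟩,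
  ⟨(.sub (.s 0 38 1 1) (.s 0 32 1 1)), 34, 1, 1, 1, 1⟩,
  ⟨(.sub (.s 0 782 1 1) (.s 0 776 1 1)), 34, 1, 1, 1, 1⟩,
  ⟨(.sub (.mul (.c 16777216) (.mul (.c 8) (.sub (.s 0 38 1 1) (.s 0 32 1 1)))) (.mul (.r 0 0 1 1) (.sub (.s 0 770 1 1) (.s 0 26 1 1)))), 66, 1, 1, 1, 1⟩,
  ⟨(.sub (.mul (.c 16777216) (.mul (.c 8) (.sub (.s 0 782 1 1) (.s 0 776 1 1)))) (.mul (.r 0 0 1 1) (.sub (.s 0 770 1 1) (.s 0 26 1 1)))), 66, 1, 1, 1, 1⟩,
  ⟨(.sub (.mul (.c 33554432) (.s 0 33 1 1)) (.add (.mul (.c 33554432) (.s 0 777 1 1)) (.mul (.c 1) (.mul (.r 0 0 1 1) (.add (.s 0 27 1 1) (.s 0 771 1 1)))))), 66, 1, 1, 1, 1⟩,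
  ⟨(.sub (.s 0 39 1 1) (.s 0 33 1 1)), 34, 1, 1, 1, 1⟩,
  ⟨(.sub (.s 0 783 1 1) (.s 0 777 1 1)), 34, 1, 1, 1, 1⟩,
  ⟨(.sub (.mul (.c 16777216) (.mul (.c 8) (.sub (.s 0 39 1 1) (.s 0 33 1 1)))) (.mul (.r 0 0 1 1) (.sub (.s 0 771 1 1) (.s 0 27 1 1)))), 66, 1, 1, 1, 1⟩,
  ⟨(.sub (.mul (.c 16777216) (.mul (.c 8) (.sub (.s 0 783 1 1) (.s 0 777 1 1)))) (.mul (.r 0 0 1 1) (.sub (.s 0 771 1 1) (.s 0 27 1 1)))), 66, 1, 1, 1, 1⟩,
  ⟨(.sub (.mul (.c 33554432) (.s 0 34 1 1)) (.add (.mul (.c 33554432) (.s 0 778 1 1)) (.mul (.c 1) (.mul (.r 0 0 1 1) (.add (.s 0 28 1 1) (.s 0 772 1 1)))))), 66, 1, 1, 1, 1⟩,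
  ⟨(.sub (.s 0 40 1 1) (.s 0 34 1 1)), 34, 1, 1, 1, 1⟩,
  ⟨(.sub (.s 0 784 1 1) (.s 0 778 1 1)), 34, 1, 1, 1, 1⟩,
  ⟨(.sub (.mul (.c 16777216) (.mul (.c 8) (.sub (.s 0 40 1 1) (.s 0 34 1 1)))) (.mul (.r 0 0 1 1) (.sub (.s 0 772 1 1) (.s 0 28 1 1)))), 66, 1, 1, 1, 1⟩,
  ⟨(.sub (.mul (.c 16777216) (.mul (.c 8) (.sub (.s 0 784 1 1) (.s 0 778 1 1)))) (.mul (.r 0 0 1 1) (.sub (.s 0 772 1 1) (.s 0 28 1 1)))), 66, 1, 1, 1, 1⟩,
  ⟨(.sub (.add (.mul (.q 2) (.r 0 5 1 3)) (.mul (.v 2) (.r 0 749 1 3))) (.mul (.mul (.mul (.c 16777216) (.c 1)) (.w 0 2)) (.w 2 1))), 35, 3, 1, 2, 1⟩,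
  ⟨(.sub (.r 0 0 1 1) (.c 1)), 33, 1, 1, 1, 1⟩,
  ⟨(.sub (.mul (.c 33554432) (.s 0 61 1 1)) (.add (.mul (.c 33554432) (.s 0 805 1 1)) (.mul (.c 1) (.mul (.r 0 0 1 1) (.add (.s 0 67 1 1) (.s 0 811 1 1)))))), 66, 1, 1, 1, 1⟩,
  ⟨(.sub (.s 0 55 1 1) (.s 0 61 1 1)), 34, 1, 1, 1, 1⟩,
  ⟨(.sub (.s 0 799 1 1) (.s 0 805 1 1)), 34, 1, 1, 1, 1⟩,
  ⟨(.sub (.mul (.c 16777216) (.mul (.c 8) (.sub (.s 0 55 1 1) (.s 0 61 1 1)))) (.mul (.r 0 0 1 1) (.sub (.s 0 811 1 1) (.s 0 67 1 1)))), 66, 1, 1, 1, 1⟩,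
  ⟨(.sub (.mul (.c 16777216) (.mul (.c 8) (.sub (.s 0 799 1 1) (.s 0 805 1 1)))) (.mul (.r 0 0 1 1) (.sub (.s 0 811 1 1) (.s 0 67 1 1)))), 66, 1, 1, 1, 1⟩,
  ⟨(.sub (.mul (.c 33554432) (.s 0 62 1 1)) (.add (.mul (.c 33554432) (.s 0 806 1 1)) (.mul (.c 1) (.mul (.r 0 0 1 1) (.add (.s 0 68 1 1) (.s 0 812 1 1)))))), 66, 1, 1, 1, 1⟩,
  ⟨(.sub (.s 0 56 1 1) (.s 0 62 1 1)), 34, 1, 1, 1, 1⟩,
  ⟨(.sub (.s 0 800 1 1) (.s 0 806 1 1)), 34, 1, 1, 1, 1⟩,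
  ⟨(.sub (.mul (.c 16777216) (.mul (.c 8) (.sub (.s 0 56 1 1) (.s 0 62 1 1)))) (.mul (.r 0 0 1 1) (.sub (.s 0 812 1 1) (.s 0 68 1 1)))), 66, 1, 1, 1, 1⟩,
  ⟨(.sub (.mul (.c 16777216) (.mul (.c 8) (.sub (.s 0 800 1 1) (.s 0 806 1 1)))) (.mul (.r 0 0 1 1) (.sub (.s 0 812 1 1) (.s 0 68 1 1)))), 66, 1, 1, 1, 1⟩,
  ⟨(.sub (.mul (.c 33554432) (.s 0 63 1 1)) (.add (.mul (.c 33554432) (.s 0 807 1 1)) (.mul (.c 1) (.mul (.r 0 0 1 1) (.add (.s 0 69 1 1) (.s 0 813 1 1)))))), 66, 1, 1, 1, 1⟩,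
  ⟨(.sub (.s 0 57 1 1) (.s 0 63 1 1)), 34, 1, 1, 1, 1⟩,
  ⟨(.sub (.s 0 801 1 1) (.s 0 807 1 1)), 34, 1, 1, 1, 1⟩,
  ⟨(.sub (.mul (.c 16777216) (.mul (.c 8) (.sub (.s 0 57 1 1) (.s 0 63 1 1)))) (.mul (.r 0 0 1 1) (.sub (.s 0 813 1 1) (.s 0 69 1 1)))), 66, 1, 1, 1, 1⟩,
  ⟨(.sub (.mul (.c 16777216) (.mul (.c 8) (.sub (.s 0 801 1 1) (.s 0 807 1 1)))) (.mul (.r 0 0 1 1) (.sub (.s 0 813 1 1) (.s 0 69 1 1)))), 66, 1, 1, 1, 1⟩,
  ⟨(.sub (.mul (.c 33554432) (.s 0 64 1 1)) (.add (.mul (.c 33554432) (.s 0 808 1 1)) (.mul (.c 1) (.mul (.r 0 0 1 1) (.add (.s 0 70 1 1) (.s 0 814 1 1)))))), 66, 1, 1, 1, 1⟩,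
  ⟨(.sub (.s 0 58 1 1) (.s 0 64 1 1)), 34, 1, 1, 1, 1⟩,
  ⟨(.sub (.s 0 802 1 1) (.s 0 808 1 1)), 34, 1, 1, 1, 1⟩,
  ⟨(.sub (.mul (.c 16777216) (.mul (.c 8) (.sub (.s 0 58 1 1) (.s 0 64 1 1)))) (.mul (.r 0 0 1 1) (.sub (.s 0 814 1 1) (.s 0 70 1 1)))), 66, 1, 1, 1, 1⟩,
  ⟨(.sub (.mul (.c 16777216) (.mul (.c 8) (.sub (.s 0 802 1 1) (.s 0 808 1 1)))) (.mul (.r 0 0 1 1) (.sub (.s 0 814 1 1) (.s 0 70 1 1)))), 66, 1, 1, 1, 1⟩,
  ⟨(.sub (.mul (.c 33554432) (.s 0 65 1 1)) (.add (.mul (.c 33554432) (.s 0 809 1 1)) (.mul (.c 1) (.mul (.r 0 0 1 1) (.add (.s 0 71 1 1) (.s 0 815 1 1)))))), 66, 1, 1, 1, 1⟩,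
  ⟨(.sub (.s 0 59 1 1) (.s 0 65 1 1)), 34, 1, 1, 1, 1⟩,
  ⟨(.sub (.s 0 803 1 1) (.s 0 809 1 1)), 34, 1, 1, 1, 1⟩,
  ⟨(.sub (.mul (.c 16777216) (.mul (.c 8) (.sub (.s 0 59 1 1) (.s 0 65 1 1)))) (.mul (.r 0 0 1 1) (.sub (.s 0 815 1 1) (.s 0 71 1 1)))), 66, 1, 1, 1, 1⟩,
  ⟨(.sub (.mul (.c 16777216) (.mul (.c 8) (.sub (.s 0 803 1 1) (.s 0 809 1 1)))) (.mul (.r 0 0 1 1) (.sub (.s 0 815 1 1) (.s 0 71 1 1)))), 66, 1, 1, 1, 1⟩,
  ⟨(.sub (.mul (.c 33554432) (.s 0 66 1 1)) (.add (.mul (.c 33554432) (.s 0 810 1 1)) (.mul (.c 1) (.mul (.r 0 0 1 1) (.add (.s 0 72 1 1) (.s 0 816 1 1)))))), 66, 1, 1, 1, 1⟩,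
  ⟨(.sub (.s 0 60 1 1) (.s 0 66 1 1)), 34, 1, 1, 1, 1⟩,
  ⟨(.sub (.s 0 804 1 1) (.s 0 810 1 1)), 34, 1, 1, 1, 1⟩,
  ⟨(.sub (.mul (.c 16777216) (.mul (.c 8) (.sub (.s 0 60 1 1) (.s 0 66 1 1)))) (.mul (.r 0 0 1 1) (.sub (.s 0 816 1 1) (.s 0 72 1 1)))), 66, 1, 1, 1, 1⟩,
  ⟨(.sub (.mul (.c 16777216) (.mul (.c 8) (.sub (.s 0 804 1 1) (.s 0 810 1 1)))) (.mul (.r 0 0 1 1) (.sub (.s 0 816 1 1) (.s 0 72 1 1)))), 66, 1, 1, 1, 1⟩,
  ⟨(.sub (.c 1) (.c 1)), 2, 1, 1, 1, 1⟩,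
  ⟨(.sub (.c 1) (.c 1)), 2, 1, 1, 1, 1⟩,
  ⟨(.sub (.s 2 55 744 2) (.mul (.c 1) (.s 2 55 744 2))), 35, 1, 1, 2, 1⟩,
  ⟨(.sub (.s 2 56 744 2) (.mul (.c 1) (.s 2 56 744 2))), 35, 1, 1, 2, 1⟩,
  ⟨(.sub (.add (.mul (.mul (.c 1024) (.s 2 57 744 2)) (.w 0 1)) (.mul (.mul (.c 171) (.v 0)) (.s 2 60 744 2))) (.mul (.c 1) (.add (.mul (.mul (.c 1024) (.s 2 57 744 2)) (.w 0 1)) (.mul (.mul (.c 171) (.v 0)) (.s 2 60 744 2))))), 46, 2, 1, 2, 1⟩,
  ⟨(.sub (.s 2 58 744 2) (.mul (.c 1) (.s 2 58 744 2))), 35, 1, 1, 2, 1⟩,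
  ⟨(.sub (.s 2 59 744 2) (.mul (.c 1) (.s 2 59 744 2))), 35, 1, 1, 2, 1⟩,
  ⟨(.sub (.mul (.c 33554432) (.s 0 97 1 1)) (.add (.mul (.c 33554432) (.s 0 841 1 1)) (.mul (.c 1) (.mul (.r 0 0 1 1) (.add (.s 0 103 1 1) (.s 0 847 1 1)))))), 66, 1, 1, 1, 1⟩,
  ⟨(.sub (.s 0 91 1 1) (.s 0 97 1 1)), 34, 1, 1, 1, 1⟩,
  ⟨(.sub (.s 0 835 1 1) (.s 0 841 1 1)), 34, 1, 1, 1, 1⟩,
  ⟨(.sub (.mul (.c 16777216) (.mul (.c 8) (.sub (.s 0 91 1 1) (.s 0 97 1 1)))) (.mul (.r 0 0 1 1) (.sub (.s 0 847 1 1) (.s 0 103 1 1)))), 66, 1, 1, 1, 1⟩,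
  ⟨(.sub (.mul (.c 16777216) (.mul (.c 8) (.sub (.s 0 835 1 1) (.s 0 841 1 1)))) (.mul (.r 0 0 1 1) (.sub (.s 0 847 1 1) (.s 0 103 1 1)))), 66, 1, 1, 1, 1⟩,
  ⟨(.sub (.mul (.c 33554432) (.s 0 98 1 1)) (.add (.mul (.c 33554432) (.s 0 842 1 1)) (.mul (.c 1) (.mul (.r 0 0 1 1) (.add (.s 0 104 1 1) (.s 0 848 1 1)))))), 66, 1, 1, 1, 1⟩,
  ⟨(.sub (.s 0 92 1 1) (.s 0 98 1 1)), 34, 1, 1, 1, 1⟩,
  ⟨(.sub (.s 0 836 1 1) (.s 0 842 1 1)), 34, 1, 1, 1, 1⟩,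
  ⟨(.sub (.mul (.c 16777216) (.mul (.c 8) (.sub (.s 0 92 1 1) (.s 0 98 1 1)))) (.mul (.r 0 0 1 1) (.sub (.s 0 848 1 1) (.s 0 104 1 1)))), 66, 1, 1, 1, 1⟩,
  ⟨(.sub (.mul (.c 16777216) (.mul (.c 8) (.sub (.s 0 836 1 1) (.s 0 842 1 1)))) (.mul (.r 0 0 1 1) (.sub (.s 0 848 1 1) (.s 0 104 1 1)))), 66, 1, 1, 1, 1⟩,
  ⟨(.sub (.mul (.c 33554432) (.s 0 99 1 1)) (.add (.mul (.c 33554432) (.s 0 843 1 1)) (.mul (.c 1) (.mul (.r 0 0 1 1) (.add (.s 0 105 1 1) (.s 0 849 1 1)))))), 66, 1, 1, 1, 1⟩,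
  ⟨(.sub (.s 0 93 1 1) (.s 0 99 1 1)), 34, 1, 1, 1, 1⟩,
  ⟨(.sub (.s 0 837 1 1) (.s 0 843 1 1)), 34, 1, 1, 1, 1⟩,
  ⟨(.sub (.mul (.c 16777216) (.mul (.c 8) (.sub (.s 0 93 1 1) (.s 0 99 1 1)))) (.mul (.r 0 0 1 1) (.sub (.s 0 849 1 1) (.s 0 105 1 1)))), 66, 1, 1, 1, 1⟩,
  ⟨(.sub (.mul (.c 16777216) (.mul (.c 8) (.sub (.s 0 837 1 1) (.s 0 843 1 1)))) (.mul (.r 0 0 1 1) (.sub (.s 0 849 1 1) (.s 0 105 1 1)))), 66, 1, 1, 1, 1⟩,
  ⟨(.sub (.mul (.c 33554432) (.s 0 100 1 1)) (.add (.mul (.c 33554432) (.s 0 844 1 1)) (.mul (.c 1) (.mul (.r 0 0 1 1) (.add (.s 0 106 1 1) (.s 0 850 1 1)))))), 66, 1, 1, 1, 1⟩,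
  ⟨(.sub (.s 0 94 1 1) (.s 0 100 1 1)), 34, 1, 1, 1, 1⟩,
  ⟨(.sub (.s 0 838 1 1) (.s 0 844 1 1)), 34, 1, 1, 1, 1⟩,
  ⟨(.sub (.mul (.c 16777216) (.mul (.c 8) (.sub (.s 0 94 1 1) (.s 0 100 1 1)))) (.mul (.r 0 0 1 1) (.sub (.s 0 850 1 1) (.s 0 106 1 1)))), 66, 1, 1, 1, 1⟩,
  ⟨(.sub (.mul (.c 16777216) (.mul (.c 8) (.sub (.s 0 838 1 1) (.s 0 844 1 1)))) (.mul (.r 0 0 1 1) (.sub (.s 0 850 1 1) (.s 0 106 1 1)))), 66, 1, 1, 1, 1⟩,
  ⟨(.sub (.mul (.c 33554432) (.s 0 101 1 1)) (.add (.mul (.c 33554432) (.s 0 845 1 1)) (.mul (.c 1) (.mul (.r 0 0 1 1) (.add (.s 0 107 1 1) (.s 0 851 1 1)))))), 66, 1, 1, 1, 1⟩,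
  ⟨(.sub (.s 0 95 1 1) (.s 0 101 1 1)), 34, 1, 1, 1, 1⟩,
  ⟨(.sub (.s 0 839 1 1) (.s 0 845 1 1)), 34, 1, 1, 1, 1⟩,
  ⟨(.sub (.mul (.c 16777216) (.mul (.c 8) (.sub (.s 0 95 1 1) (.s 0 101 1 1)))) (.mul (.r 0 0 1 1) (.sub (.s 0 851 1 1) (.s 0 107 1 1)))), 66, 1, 1, 1, 1⟩,
  ⟨(.sub (.mul (.c 16777216) (.mul (.c 8) (.sub (.s 0 839 1 1) (.s 0 845 1 1)))) (.mul (.r 0 0 1 1) (.sub (.s 0 851 1 1) (.s 0 107 1 1)))), 66, 1, 1, 1, 1⟩,
  ⟨(.sub (.mul (.c 33554432) (.s 0 102 1 1)) (.add (.mul (.c 33554432) (.s 0 846 1 1)) (.mul (.c 1) (.mul (.r 0 0 1 1) (.add (.s 0 108 1 1) (.s 0 852 1 1)))))), 66, 1, 1, 1, 1⟩,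
  ⟨(.sub (.s 0 96 1 1) (.s 0 102 1 1)), 34, 1, 1, 1, 1⟩,
  ⟨(.sub (.s 0 840 1 1) (.s 0 846 1 1)), 34, 1, 1, 1, 1⟩,
  ⟨(.sub (.mul (.c 16777216) (.mul (.c 8) (.sub (.s 0 96 1 1) (.s 0 102 1 1)))) (.mul (.r 0 0 1 1) (.sub (.s 0 852 1 1) (.s 0 108 1 1)))), 66, 1, 1, 1, 1⟩,
  ⟨(.sub (.mul (.c 16777216) (.mul (.c 8) (.sub (.s 0 840 1 1) (.s 0 846 1 1)))) (.mul (.r 0 0 1 1) (.sub (.s 0 852 1 1) (.s 0 108 1 1)))), 66, 1, 1, 1, 1⟩,
  ⟨(.sub (.c 1) (.c 1)), 2, 1, 1, 1, 1⟩,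
  ⟨(.sub (.c 1) (.c 1)), 2, 1, 1, 1, 1⟩,
  ⟨(.sub (.s 2 91 744 2) (.mul (.c 1) (.s 2 91 744 2))), 35, 1, 1, 2, 1⟩,
  ⟨(.sub (.s 2 92 744 2) (.mul (.c 1) (.s 2 92 744 2))), 35, 1, 1, 2, 1⟩,
  ⟨(.sub (.add (.mul (.mul (.c 1024) (.s 2 93 744 2)) (.w 0 1)) (.mul (.mul (.c 171) (.v 0)) (.s 2 96 744 2))) (.mul (.c 1) (.add (.mul (.mul (.c 1024) (.s 2 93 744 2)) (.w 0 1)) (.mul (.mul (.c 171) (.v 0)) (.s 2 96 744 2))))), 46, 2, 1, 2, 1⟩,
  ⟨(.sub (.s 2 94 744 2) (.mul (.c 1) (.s 2 94 744 2))), 35, 1, 1, 2, 1⟩,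
  ⟨(.sub (.s 2 95 744 2) (.mul (.c 1) (.s 2 95 744 2))), 35, 1, 1, 2, 1⟩,
  ⟨(.sub (.mul (.c 33554432) (.s 0 79 1 1)) (.add (.mul (.c 33554432) (.s 0 823 1 1)) (.mul (.c 1) (.mul (.r 0 0 1 1) (.add (.s 0 85 1 1) (.s 0 829 1 1)))))), 66, 1, 1, 1, 1⟩,
  ⟨(.sub (.s 0 73 1 1) (.s 0 79 1 1)), 34, 1, 1, 1, 1⟩,
  ⟨(.sub (.s 0 817 1 1) (.s 0 823 1 1)), 34, 1, 1, 1, 1⟩,
  ⟨(.sub (.mul (.c 16777216) (.mul (.c 8) (.sub (.s 0 73 1 1) (.s 0 79 1 1)))) (.mul (.r 0 0 1 1) (.sub (.s 0 829 1 1) (.s 0 85 1 1)))), 66, 1, 1, 1, 1⟩]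

noncomputable def f1 : List Tc :=
 [⟨fun A S X L P R M N m a b c d e f g h D => (A (L (X (A (L (X (L (X 1024 (A (A (L (R D 1184) 4294967295) (X c (L (R D 24992) 4294967295))) (S M (L (X 2147483648 (A 1 (X c 1))) N)))) N) e) N) (L (X (L (X 171 a) N) (A (A (L (R D 1280) 4294967295) (X c (L (R D 25088) 4294967295))) (S M (L (X 2147483648 (A 1 (X c 1))) N)))) N)) 1) N) (S M (L (L (X 1024 (A (L (X (A (L (X (A (L (R D 21728) 4294967295) (X c (L (R D 45536) 4294967295))) 1) N) (L (X (A (L (R D 21760) 4294967295) (X c (L (R D 45568) 4294967295))) a) N)) (A 0 (S M (L (L (X 12 1) N) N)))) N) (A (L (X (A (L (X (A (L (R D 21856) 4294967295) (X c (L (R D 45664) 4294967295))) 1) N) (L (X (A (L (R D 21888) 4294967295) (X c (L (R D 45696) 4294967295))) a) N)) 1) N) (L (X (A (L (X (A (L (R D 21984) 4294967295) (X c (L (R D 45792) 4294967295))) 1) N) (L (X (A (L (R D 22016) 4294967295) (X c (L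 (R D 45824) 4294967295))) a) N)) (A 0 (S M (L (L (X 12 1) N) N)))) N)))) N) N))), 49, 2, 1, 2, 1⟩,
  ⟨fun A S X L P R M N m a b c d e f g h D => (A (L (X (L (X (A (A (L (R D 1216) 4294967295) (X c (L (R D 25024) 4294967295))) (S M (L (X 2147483648 (A 1 (X c 1))) N))) 1) N) e) N) (S M (L (A (L (X (A (L (X (A (L (R D 21792) 4294967295) (X c (L (R D 45600) 4294967295))) 1) N) (L (X (A (L (R D 21824) 4294967295) (X c (L (R D 45632) 4294967295))) a) N)) (A 0 (S M (L (L (X 12 1) N) N)))) N) (A (L (X (A (L (X (A (L (R D 21920) 4294967295) (X c (L (R D 45728) 4294967295))) 1) N) (L (X (A (L (R D 21952) 4294967295) (X c (L (R D 45760) 4294967295))) a) N)) (L (X 2 1) N)) N) (L (X (A (L (X (A (L (R D 21984) 4294967295) (X c (L (R D 45792) 4294967295))) 1) N) (L (X (A (L (R D 22016) 4294967295) (X c (L (R D 45824) 4294967295))) a) N)) (A 0 (S M (L (L (X 24 1) N) N)))) N))) N))), 40, 2, 1,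 2, 1⟩,
  ⟨fun A S X L P R M N m a b c d e f g h D => (A (L (X (L (X (A (A (L (R D 1248) 4294967295) (X c (L (R D 25056) 4294967295))) (S M (L (X 2147483648 (A 1 (X c 1))) N))) 1) N) e) N) (S M (L (A (L (X (A (L (X (A (L (R D 21856) 4294967295) (X c (L (R D 45664) 4294967295))) 1) N) (L (X (A (L (R D 21888) 4294967295) (X c (L (R D 45696) 4294967295))) a) N)) (A 0 (S M (L (L (X 12 1) N) N)))) N) (A (L (X (A (L (X (A (L (R D 21920) 4294967295) (X c (L (R D 45728) 4294967295))) 1) N) (L (X (A (L (R D 21952) 4294967295) (X c (L (R D 45760) 4294967295))) a) N)) (A 0 (S M (L (L (X 12 1) N) N)))) N) (L (X (A (L (X (A (L (R D 21984) 4294967295) (X c (L (R D 45792) 4294967295))) 1) N) (L (X (A (L (R D 22016) 4294967295) (X c (L (R D 45824) 4294967295))) a) N)) (L (X 144 1) N)) N))) N))), 42, 2, 1, 2, 1⟩,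
  ⟨fun A S X L P R M N m a b c d e f g h D => (A (A (L (X 1024 (A (L (X 1 (A (L (R D 1408) 4294967295) (X a (A (L (R D 1440) 4294967295) (X a (L (R D 1472) 4294967295)))))) N) (L (X c (A (L (R D 25216) 4294967295) (X a (A (L (R D 25248) 4294967295) (X a (L (R D 25280) 4294967295)))))) N))) N) (S M (L (L (X (L (X (A (A (L (R D 4320) 4294967295) (X c (L (R D 28128) 4294967295))) (S M (L (X 2147483648 (A 1 (X c 1))) N))) (A (L (X 853 e) N) (L (X 171 1) N))) N) e) N) N))) (S M (L (A (L (X (A (L (X (A (L (R D 22048) 4294967295) (X c (L (R D 45856) 4294967295))) 1) N) (L (X (A (L (R D 22080) 4294967295) (X c (L (R D 45888) 4294967295))) a) N)) (L (X 2 (A (L (X 853 e) N) (L (X 171 1) N))) N)) N) (A (L (X (A (L (X (A (L (R D 22112) 4294967295) (X c (L (R D 45920) 4294967295))) 1) N) (L (X (A (L (R D 22144) 4294967295) (X c (L (R D 45952) 4294967295))) a) N)) (A (L (X 853 e) N) (L (X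 171 1) N))) N) (L (X (A (L (X (A (L (R D 22304) 4294967295) (X c (L (R D 46112) 4294967295))) 1) N) (L (X (A (L (R D 22336) 4294967295) (X c (L (R D 46144) 4294967295))) a) N)) (L (X 2 (A (L (X 853 e) N) (L (X 171 1) N))) N)) N))) N))), 48, 3, 1, 2, 1⟩,
  ⟨fun A S X L P R M N m a b c d e f g h D => (A (L (X (A (L (X 0 g) N) (S M (L (L (X (A (A (L (R D 4352) 4294967295) (X c (L (R D 28160) 4294967295))) (S M (L (X 2147483648 (A 1 (X c 1))) N))) 1) N) N))) e) N) (S M (L (A (L (X (A (L (X (A (L (R D 22048) 4294967295) (X c (L (R D 45856) 4294967295))) 1) N) (L (X (A (L (R D 22080) 4294967295) (X c (L (R D 45888) 4294967295))) a) N)) (A 0 (S M (L (L (X 12 1) N) N)))) N) (A (L (X (A (L (X (A (L (R D 22176) 4294967295) (X c (L (R D 45984) 4294967295))) 1) N) (L (X (A (L (R D 22208) 4294967295) (X c (L (R D 46016) 4294967295))) a) N)) 1) N) (L (X (A (L (X (A (L (R D 22304) 4294967295)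 (X c (L (R D 46112) 4294967295))) 1) N) (L (X (A (L (R D 22336) 4294967295) (X c (L (R D 46144) 4294967295))) a) N)) (A 0 (S M (L (L (X 12 1) N) N)))) N))) N))), 39, 2, 1, 2, 1⟩,
  ⟨fun A S X L P R M N m a b c d e f g h D => (A (L (X (A (L (X 0 g) N) (S M (L (L (X (A (A (L (R D 4384) 4294967295) (X c (L (R D 28192) 4294967295))) (S M (L (X 2147483648 (A 1 (X c 1))) N))) 1) N) N))) e) N) (S M (L (A (L (X (A (L (X (A (L (R D 22112) 4294967295) (X c (L (R D 45920) 4294967295))) 1) N) (L (X (A (L (R D 22144) 4294967295) (X c (L (R D 45952) 4294967295))) a) N)) (A 0 (S M (L (L (X 12 1) N) N)))) N) (A (L (X (A (L (X (A (L (R D 22240) 4294967295) (X c (L (R D 46048) 4294967295))) 1) N) (L (X (A (L (R D 22272) 4294967295) (X c (L (R D 46080) 4294967295))) a) N)) (L (X 2 1) N)) N) (L (X (A (L (X (A (L (R D 22304) 4294967295) (X c (L (R D 46112) 4294967295))) 1) N) (L (X (A (L (R D 22336)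 4294967295) (X c (L (R D 46144) 4294967295))) a) N)) (A 0 (S M (L (L (X 24 1) N) N)))) N))) N))), 40, 2, 1, 2, 1⟩,
  ⟨fun A S X L P R M N m a b c d e f g h D => (A (L (X (A (L (X 0 g) N) (S M (L (L (X (A (A (L (R D 4416) 4294967295) (X c (L (R D 28224) 4294967295))) (S M (L (X 2147483648 (A 1 (X c 1))) N))) 1) N) N))) e) N) (S M (L (A (L (X (A (L (X (A (L (R D 22176) 4294967295) (X c (L (R D 45984) 4294967295))) 1) N) (L (X (A (L (R D 22208) 4294967295) (X c (L (R D 46016) 4294967295))) a) N)) (A 0 (S M (L (L (X 12 1) N) N)))) N) (A (L (X (A (L (X (A (L (R D 22240) 4294967295) (X c (L (R D 46048) 4294967295))) 1) N) (L (X (A (L (R D 22272) 4294967295) (X c (L (R D 46080) 4294967295))) a) N)) (A 0 (S M (L (L (X 12 1) N) N)))) N) (L (X (A (L (X (A (L (R D 22304) 4294967295) (X c (L (R D 46112) 4294967295))) 1) N) (L (X (A (L (R D 22336) 4294967295) (X c (L (R D 46144) 4294967295)))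 a) N)) (L (X 144 1) N)) N))) N))), 42, 2, 1, 2, 1⟩,
  ⟨fun A S X L P R M N m a b c d e f g h D => (A (A (L (X (L (X (L (X 288230376151711744 (A (L (X (A (L (R D 1504) 4294967295) (X c (L (R D 25312) 4294967295))) (L (X 1 (A (L (X 853 e) N) (L (X 171 1) N))) N)) N) (L (X (L (X 1024 (L (X (A (L (R D 1536) 4294967295) (X c (L (R D 25344) 4294967295))) 1) N)) N) e) N))) N) (P e 5)) N) (P g 2)) N) (S M (L (L (X (A (L (X 1 (A (L (R D 160) 4294967295) (X a (A (L (R D 192) 4294967295) (X a (L (R D 224) 4294967295)))))) N) (L (X c (A (L (R D 23968) 4294967295) (X a (A (L (R D 24000) 4294967295) (X a (L (R D 24032) 4294967295)))))) N)) (A (L (X (A (L (X 1 (A (L (R D 1408) 4294967295) (X a (A (L (R D 1440) 4294967295) (X a (L (R D 1472) 4294967295)))))) N) (L (X c (A (L (R D 25216) 4294967295) (X a (A (L (R D 25248) 4294967295) (X a (L (R D 25280) 4294967295)))))) N)) (A (L (X (L (X 1024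 (L (X (A (A (L (R D 1760) 4294967295) (X c (L (R D 25568) 4294967295))) (S M (L (X 2147483648 (A 1 (X c 1))) N))) (A (L (X 853 e) N) (L (X 171 1) N))) N)) N) e) N) (L (X (A (A (L (R D 1792) 4294967295) (X c (L (R D 25600) 4294967295))) (S M (L (X 2147483648 (A 1 (X c 1))) N))) (L (X (L (X 171 a) N) (A (L (X 853 e) N) (L (X 171 1) N))) N)) N))) N) (L (X (L (X (L (X 17179869184 (L (X (A (A (L (R D 5088) 4294967295) (X c (L (R D 28896) 4294967295))) (S M (L (X 2147483648 (A 1 (X c 1))) N))) (A (L (X 853 e) N) (L (X 171 1) N))) N)) N) (P e 3)) N) g) N))) N) N))) (S M (L (L (X (L (X (L (X 288230376151711744 (A (L (X (A (L (X (A (L (R D 22368) 4294967295) (X c (L (R D 46176) 4294967295))) 1) N) (L (X (A (L (R D 22400) 4294967295) (X c (L (R D 46208) 4294967295))) a) N)) (L (X 2 (A (L (X 853 e) N) (L (X 171 1) N))) N)) N) (A (L (X (A (L (X (A (L (R D 22432) 4294967295) (X c (L (R D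 46240) 4294967295))) 1) N) (L (X (A (L (R D 22464) 4294967295) (X c (L (R D 46272) 4294967295))) a) N)) (A (L (X 853 e) N) (L (X 171 1) N))) N) (L (X (A (L (X (A (L (R D 22624) 4294967295) (X c (L (R D 46432) 4294967295))) 1) N) (L (X (A (L (R D 22656) 4294967295) (X c (L (R D 46464) 4294967295))) a) N)) (L (X 2 (A (L (X 853 e) N) (L (X 171 1) N))) N)) N)))) N) (P e 4)) N) (P g 2)) N) N))), 125, 7, 1, 4, 1⟩,
  ⟨fun A S X L P R M N m a b c d e f g h D => (A (A (L (X (L (X 0 (P e 5)) N) (P g 3)) N) (S M (L (L (X (A (L (X 1 (A (L (R D 160) 4294967295) (X a (A (L (R D 192) 4294967295) (X a (L (R D 224) 4294967295)))))) N) (L (X c (A (L (R D 23968) 4294967295) (X a (A (L (R D 24000) 4294967295) (X a (L (R D 24032) 4294967295)))))) N)) (A (L (X (A (L (X 1 (A (L (R D 1408) 4294967295) (X a (A (L (R D 1440) 4294967295) (X a (L (R D 1472) 4294967295)))))) N) (L (X c (A (L (R D 25216)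 4294967295) (X a (A (L (R D 25248) 4294967295) (X a (L (R D 25280) 4294967295)))))) N)) (L (X (A (L (X (L (X 1024 (A (A (L (R D 1824) 4294967295) (X c (L (R D 25632) 4294967295))) (S M (L (X 2147483648 (A 1 (X c 1))) N)))) N) e) N) (L (X (L (X 171 a) N) (A (A (L (R D 1920) 4294967295) (X c (L (R D 25728) 4294967295))) (S M (L (X 2147483648 (A 1 (X c 1))) N)))) N)) 1) N)) N) (L (X (L (X (L (X 17179869184 (L (X (A (A (L (R D 5120) 4294967295) (X c (L (R D 28928) 4294967295))) (S M (L (X 2147483648 (A 1 (X c 1))) N))) 1) N)) N) (P e 3)) N) g) N))) N) N))) (S M (L (L (X (L (X (L (X 288230376151711744 (A (L (X (A (L (X (A (L (R D 22368) 4294967295) (X c (L (R D 46176) 4294967295))) 1) N) (L (X (A (L (R D 22400) 4294967295) (X c (L (R D 46208) 4294967295))) a) N)) (A 0 (S M (L (L (X 12 1) N) N)))) N) (A (L (X (A (L (X (A (L (R D 22496) 4294967295) (X c (L (R D 46304) 4294967295)))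 1) N) (L (X (A (L (R D 22528) 4294967295) (X c (L (R D 46336) 4294967295))) a) N)) 1) N) (L (X (A (L (X (A (L (R D 22624) 4294967295) (X c (L (R D 46432) 4294967295))) 1) N) (L (X (A (L (R D 22656) 4294967295) (X c (L (R D 46464) 4294967295))) a) N)) (A 0 (S M (L (L (X 12 1) N) N)))) N)))) N) (P e 4)) N) (P g 2)) N) N))), 114, 6, 1, 4, 1⟩,
  ⟨fun A S X L P R M N m a b c d e f g h D => (A (A (L (X (L (X 0 (P e 4)) N) (P g 3)) N) (S M (L (L (X (A (L (X 1 (A (L (R D 160) 4294967295) (X a (A (L (R D 192) 4294967295) (X a (L (R D 224) 4294967295)))))) N) (L (X c (A (L (R D 23968) 4294967295) (X a (A (L (R D 24000) 4294967295) (X a (L (R D 24032) 4294967295)))))) N)) (A (L (X (A (L (X 1 (A (L (R D 1408) 4294967295) (X a (A (L (R D 1440) 4294967295) (X a (L (R D 1472) 4294967295)))))) N) (L (X c (A (L (R D 25216) 4294967295) (X a (A (L (R D 25248) 4294967295) (X a (L (R D 25280) 4294967295))))))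 N)) (L (X (A (A (L (R D 1856) 4294967295) (X c (L (R D 25664) 4294967295))) (S M (L (X 2147483648 (A 1 (X c 1))) N))) 1) N)) N) (L (X (L (X (L (X 16777216 (L (X (A (A (L (R D 5152) 4294967295) (X c (L (R D 28960) 4294967295))) (S M (L (X 2147483648 (A 1 (X c 1))) N))) 1) N)) N) (P e 2)) N) g) N))) N) N))) (S M (L (L (X (L (X (L (X 281474976710656 (A (L (X (A (L (X (A (L (R D 22432) 4294967295) (X c (L (R D 46240) 4294967295))) 1) N) (L (X (A (L (R D 22464) 4294967295) (X c (L (R D 46272) 4294967295))) a) N)) (A 0 (S M (L (L (X 12 1) N) N)))) N) (A (L (X (A (L (X (A (L (R D 22560) 4294967295) (X c (L (R D 46368) 4294967295))) 1) N) (L (X (A (L (R D 22592) 4294967295) (X c (L (R D 46400) 4294967295))) a) N)) (L (X 2 1) N)) N) (L (X (A (L (X (A (L (R D 22624) 4294967295) (X c (L (R D 46432) 4294967295))) 1) N) (L (X (A (L (R D 22656) 4294967295) (X c (L (R D 46464) 4294967295)))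 a) N)) (A 0 (S M (L (L (X 24 1) N) N)))) N)))) N) (P e 3)) N) (P g 2)) N) N))), 103, 5, 1, 4, 1⟩,
  ⟨fun A S X L P R M N m a b c d e f g h D => (A (A (L (X (L (X 0 (P e 4)) N) (P g 3)) N) (S M (L (L (X (A (L (X 1 (A (L (R D 160) 4294967295) (X a (A (L (R D 192) 4294967295) (X a (L (R D 224) 4294967295)))))) N) (L (X c (A (L (R D 23968) 4294967295) (X a (A (L (R D 24000) 4294967295) (X a (L (R D 24032) 4294967295)))))) N)) (A (L (X (A (L (X 1 (A (L (R D 1408) 4294967295) (X a (A (L (R D 1440) 4294967295) (X a (L (R D 1472) 4294967295)))))) N) (L (X c (A (L (R D 25216) 4294967295) (X a (A (L (R D 25248) 4294967295) (X a (L (R D 25280) 4294967295)))))) N)) (L (X (A (A (L (R D 1888) 4294967295) (X c (L (R D 25696) 4294967295))) (S M (L (X 2147483648 (A 1 (X c 1))) N))) 1) N)) N) (L (X (L (X (L (X 16777216 (L (X (A (A (L (R D 5184) 4294967295) (X c (L (R D 28992) 4294967295))) (S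 M (L (X 2147483648 (A 1 (X c 1))) N))) 1) N)) N) (P e 2)) N) g) N))) N) N))) (S M (L (L (X (L (X (L (X 281474976710656 (A (L (X (A (L (X (A (L (R D 22496) 4294967295) (X c (L (R D 46304) 4294967295))) 1) N) (L (X (A (L (R D 22528) 4294967295) (X c (L (R D 46336) 4294967295))) a) N)) (A 0 (S M (L (L (X 12 1) N) N)))) N) (A (L (X (A (L (X (A (L (R D 22560) 4294967295) (X c (L (R D 46368) 4294967295))) 1) N) (L (X (A (L (R D 22592) 4294967295) (X c (L (R D 46400) 4294967295))) a) N)) (A 0 (S M (L (L (X 12 1) N) N)))) N) (L (X (A (L (X (A (L (R D 22624) 4294967295) (X c (L (R D 46432) 4294967295))) 1) N) (L (X (A (L (R D 22656) 4294967295) (X c (L (R D 46464) 4294967295))) a) N)) (L (X 144 1) N)) N)))) N) (P e 3)) N) (P g 2)) N) N))), 103, 5, 1, 4, 1⟩,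
  ⟨fun A S X L P R M N m a b c d e f g h D => (A (A (L (X (L (X (L (X 288230376151711744 (A (L (X (A (L (R D 1632) 4294967295) (X c (L (R D 25440) 4294967295))) (L (X 1 (A (L (X 853 e) N) (L (X 171 1) N))) N)) N) (L (X (L (X 1024 (L (X (A (L (R D 1664) 4294967295) (X c (L (R D 25472) 4294967295))) 1) N)) N) e) N))) N) (P e 5)) N) (P g 2)) N) (S M (L (L (X (A (L (X 1 (A (L (R D 160) 4294967295) (X a (A (L (R D 192) 4294967295) (X a (L (R D 224) 4294967295)))))) N) (L (X c (A (L (R D 23968) 4294967295) (X a (A (L (R D 24000) 4294967295) (X a (L (R D 24032) 4294967295)))))) N)) (A (L (X (A (L (X 1 (A (L (R D 1408) 4294967295) (X a (A (L (R D 1440) 4294967295) (X a (L (R D 1472) 4294967295)))))) N) (L (X c (A (L (R D 25216) 4294967295) (X a (A (L (R D 25248) 4294967295) (X a (L (R D 25280) 4294967295)))))) N)) (A (L (X (L (X 1024 (L (X (A (A (L (R D 2912) 4294967295) (X c (L (R D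 26720) 4294967295))) (S M (L (X 2147483648 (A 1 (X c 1))) N))) (A (L (X 853 e) N) (L (X 171 1) N))) N)) N) e) N) (L (X (A (A (L (R D 2944) 4294967295) (X c (L (R D 26752) 4294967295))) (S M (L (X 2147483648 (A 1 (X c 1))) N))) (L (X (L (X 171 a) N) (A (L (X 853 e) N) (L (X 171 1) N))) N)) N))) N) (L (X (L (X (L (X 17179869184 (L (X (A (A (L (R D 5216) 4294967295) (X c (L (R D 29024) 4294967295))) (S M (L (X 2147483648 (A 1 (X c 1))) N))) (A (L (X 853 e) N) (L (X 171 1) N))) N)) N) (P e 3)) N) g) N))) N) N))) (S M (L (L (X (L (X (L (X 288230376151711744 (A (L (X (A (L (X (A (L (R D 22688) 4294967295) (X c (L (R D 46496) 4294967295))) 1) N) (L (X (A (L (R D 22720) 4294967295) (X c (L (R D 46528) 4294967295))) a) N)) (L (X 2 (A (L (X 853 e) N) (L (X 171 1) N))) N)) N) (A (L (X (A (L (X (A (L (R D 22752) 4294967295) (X c (L (R D 46560) 4294967295))) 1) N) (L (X (A (L (R D 22784)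 4294967295) (X c (L (R D 46592) 4294967295))) a) N)) (A (L (X 853 e) N) (L (X 171 1) N))) N) (L (X (A (L (X (A (L (R D 22944) 4294967295) (X c (L (R D 46752) 4294967295))) 1) N) (L (X (A (L (R D 22976) 4294967295) (X c (L (R D 46784) 4294967295))) a) N)) (L (X 2 (A (L (X 853 e) N) (L (X 171 1) N))) N)) N)))) N) (P e 4)) N) (P g 2)) N) N))), 125, 7, 1, 4, 1⟩,
  ⟨fun A S X L P R M N m a b c d e f g h D => (A (A (L (X (L (X 0 (P e 5)) N) (P g 3)) N) (S M (L (L (X (A (L (X 1 (A (L (R D 160) 4294967295) (X a (A (L (R D 192) 4294967295) (X a (L (R D 224) 4294967295)))))) N) (L (X c (A (L (R D 23968) 4294967295) (X a (A (L (R D 24000) 4294967295) (X a (L (R D 24032) 4294967295)))))) N)) (A (L (X (A (L (X 1 (A (L (R D 1408) 4294967295) (X a (A (L (R D 1440) 4294967295) (X a (L (R D 1472) 4294967295)))))) N) (L (X c (A (L (R D 25216) 4294967295) (X a (A (L (R D 25248) 4294967295) (X a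 (L (R D 25280) 4294967295)))))) N)) (L (X (A (L (X (L (X 1024 (A (A (L (R D 2976) 4294967295) (X c (L (R D 26784) 4294967295))) (S M (L (X 2147483648 (A 1 (X c 1))) N)))) N) e) N) (L (X (L (X 171 a) N) (A (A (L (R D 3072) 4294967295) (X c (L (R D 26880) 4294967295))) (S M (L (X 2147483648 (A 1 (X c 1))) N)))) N)) 1) N)) N) (L (X (L (X (L (X 17179869184 (L (X (A (A (L (R D 5248) 4294967295) (X c (L (R D 29056) 4294967295))) (S M (L (X 2147483648 (A 1 (X c 1))) N))) 1) N)) N) (P e 3)) N) g) N))) N) N))) (S M (L (L (X (L (X (L (X 288230376151711744 (A (L (X (A (L (X (A (L (R D 22688) 4294967295) (X c (L (R D 46496) 4294967295))) 1) N) (L (X (A (L (R D 22720) 4294967295) (X c (L (R D 46528) 4294967295))) a) N)) (A 0 (S M (L (L (X 12 1) N) N)))) N) (A (L (X (A (L (X (A (L (R D 22816) 4294967295) (X c (L (R D 46624) 4294967295))) 1) N) (L (X (A (L (R D 22848) 4294967295) (X c (L (R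 D 46656) 4294967295))) a) N)) 1) N) (L (X (A (L (X (A (L (R D 22944) 4294967295) (X c (L (R D 46752) 4294967295))) 1) N) (L (X (A (L (R D 22976) 4294967295) (X c (L (R D 46784) 4294967295))) a) N)) (A 0 (S M (L (L (X 12 1) N) N)))) N)))) N) (P e 4)) N) (P g 2)) N) N))), 114, 6, 1, 4, 1⟩,
  ⟨fun A S X L P R M N m a b c d e f g h D => (A (A (L (X (L (X 0 (P e 4)) N) (P g 3)) N) (S M (L (L (X (A (L (X 1 (A (L (R D 160) 4294967295) (X a (A (L (R D 192) 4294967295) (X a (L (R D 224) 4294967295)))))) N) (L (X c (A (L (R D 23968) 4294967295) (X a (A (L (R D 24000) 4294967295) (X a (L (R D 24032) 4294967295)))))) N)) (A (L (X (A (L (X 1 (A (L (R D 1408) 4294967295) (X a (A (L (R D 1440) 4294967295) (X a (L (R D 1472) 4294967295)))))) N) (L (X c (A (L (R D 25216) 4294967295) (X a (A (L (R D 25248) 4294967295) (X a (L (R D 25280) 4294967295)))))) N)) (L (X (A (A (L (R D 3008) 4294967295)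 (X c (L (R D 26816) 4294967295))) (S M (L (X 2147483648 (A 1 (X c 1))) N))) 1) N)) N) (L (X (L (X (L (X 16777216 (L (X (A (A (L (R D 5280) 4294967295) (X c (L (R D 29088) 4294967295))) (S M (L (X 2147483648 (A 1 (X c 1))) N))) 1) N)) N) (P e 2)) N) g) N))) N) N))) (S M (L (L (X (L (X (L (X 281474976710656 (A (L (X (A (L (X (A (L (R D 22752) 4294967295) (X c (L (R D 46560) 4294967295))) 1) N) (L (X (A (L (R D 22784) 4294967295) (X c (L (R D 46592) 4294967295))) a) N)) (A 0 (S M (L (L (X 12 1) N) N)))) N) (A (L (X (A (L (X (A (L (R D 22880) 4294967295) (X c (L (R D 46688) 4294967295))) 1) N) (L (X (A (L (R D 22912) 4294967295) (X c (L (R D 46720) 4294967295))) a) N)) (L (X 2 1) N)) N) (L (X (A (L (X (A (L (R D 22944) 4294967295) (X c (L (R D 46752) 4294967295))) 1) N) (L (X (A (L (R D 22976) 4294967295) (X c (L (R D 46784) 4294967295))) a) N)) (A 0 (S M (L (L (X 24 1) N) N))))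 N)))) N) (P e 3)) N) (P g 2)) N) N))), 103, 5, 1, 4, 1⟩,
  ⟨fun A S X L P R M N m a b c d e f g h D => (A (A (L (X (L (X 0 (P e 4)) N) (P g 3)) N) (S M (L (L (X (A (L (X 1 (A (L (R D 160) 4294967295) (X a (A (L (R D 192) 4294967295) (X a (L (R D 224) 4294967295)))))) N) (L (X c (A (L (R D 23968) 4294967295) (X a (A (L (R D 24000) 4294967295) (X a (L (R D 24032) 4294967295)))))) N)) (A (L (X (A (L (X 1 (A (L (R D 1408) 4294967295) (X a (A (L (R D 1440) 4294967295) (X a (L (R D 1472) 4294967295)))))) N) (L (X c (A (L (R D 25216) 4294967295) (X a (A (L (R D 25248) 4294967295) (X a (L (R D 25280) 4294967295)))))) N)) (L (X (A (A (L (R D 3040) 4294967295) (X c (L (R D 26848) 4294967295))) (S M (L (X 2147483648 (A 1 (X c 1))) N))) 1) N)) N) (L (X (L (X (L (X 16777216 (L (X (A (A (L (R D 5312) 4294967295) (X c (L (R D 29120) 4294967295))) (S M (L (X 2147483648 (A 1 (X c 1))) N))) 1)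 N)) N) (P e 2)) N) g) N))) N) N))) (S M (L (L (X (L (X (L (X 281474976710656 (A (L (X (A (L (X (A (L (R D 22816) 4294967295) (X c (L (R D 46624) 4294967295))) 1) N) (L (X (A (L (R D 22848) 4294967295) (X c (L (R D 46656) 4294967295))) a) N)) (A 0 (S M (L (L (X 12 1) N) N)))) N) (A (L (X (A (L (X (A (L (R D 22880) 4294967295) (X c (L (R D 46688) 4294967295))) 1) N) (L (X (A (L (R D 22912) 4294967295) (X c (L (R D 46720) 4294967295))) a) N)) (A 0 (S M (L (L (X 12 1) N) N)))) N) (L (X (A (L (X (A (L (R D 22944) 4294967295) (X c (L (R D 46752) 4294967295))) 1) N) (L (X (A (L (R D 22976) 4294967295) (X c (L (R D 46784) 4294967295))) a) N)) (L (X 144 1) N)) N)))) N) (P e 3)) N) (P g 2)) N) N))), 103, 5, 1, 4, 1⟩,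
  ⟨fun A S X L P R M N m a b c d e f g h D => (A (A (L (X (L (X (L (X 288230376151711744 (A (L (X (A (L (R D 1568) 4294967295) (X c (L (R D 25376) 4294967295))) (L (X 1 (A (L (X 853 e) N) (L (X 171 1) N))) N)) N) (L (X (L (X 1024 (L (X (A (L (R D 1600) 4294967295) (X c (L (R D 25408) 4294967295))) 1) N)) N) e) N))) N) (P e 5)) N) (P g 2)) N) (S M (L (L (X (A (L (X 1 (A (L (R D 160) 4294967295) (X a (A (L (R D 192) 4294967295) (X a (L (R D 224) 4294967295)))))) N) (L (X c (A (L (R D 23968) 4294967295) (X a (A (L (R D 24000) 4294967295) (X a (L (R D 24032) 4294967295)))))) N)) (A (L (X (A (L (X 1 (A (L (R D 1408) 4294967295) (X a (A (L (R D 1440) 4294967295) (X a (L (R D 1472) 4294967295)))))) N) (L (X c (A (L (R D 25216) 4294967295) (X a (A (L (R D 25248) 4294967295) (X a (L (R D 25280) 4294967295)))))) N)) (A (L (X (L (X 1024 (L (X (A (A (L (R D 2336) 4294967295) (X c (L (R D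 26144) 4294967295))) (S M (L (X 2147483648 (A 1 (X c 1))) N))) (A (L (X 853 e) N) (L (X 171 1) N))) N)) N) e) N) (L (X (A (A (L (R D 2368) 4294967295) (X c (L (R D 26176) 4294967295))) (S M (L (X 2147483648 (A 1 (X c 1))) N))) (L (X (L (X 171 a) N) (A (L (X 853 e) N) (L (X 171 1) N))) N)) N))) N) (L (X (L (X (L (X 17179869184 (L (X (A (A (L (R D 5984) 4294967295) (X c (L (R D 29792) 4294967295))) (S M (L (X 2147483648 (A 1 (X c 1))) N))) (A (L (X 853 e) N) (L (X 171 1) N))) N)) N) (P e 3)) N) g) N))) N) N))) (S M (L (L (X (L (X (L (X 288230376151711744 (A (L (X (A (L (X (A (L (R D 23008) 4294967295) (X c (L (R D 46816) 4294967295))) 1) N) (L (X (A (L (R D 23040) 4294967295) (X c (L (R D 46848) 4294967295))) a) N)) (L (X 2 (A (L (X 853 e) N) (L (X 171 1) N))) N)) N) (A (L (X (A (L (X (A (L (R D 23072) 4294967295) (X c (L (R D 46880) 4294967295))) 1) N) (L (X (A (L (R D 23104)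 4294967295) (X c (L (R D 46912) 4294967295))) a) N)) (A (L (X 853 e) N) (L (X 171 1) N))) N) (L (X (A (L (X (A (L (R D 23264) 4294967295) (X c (L (R D 47072) 4294967295))) 1) N) (L (X (A (L (R D 23296) 4294967295) (X c (L (R D 47104) 4294967295))) a) N)) (L (X 2 (A (L (X 853 e) N) (L (X 171 1) N))) N)) N)))) N) (P e 4)) N) (P g 2)) N) N))), 125, 7, 1, 4, 1⟩,
  ⟨fun A S X L P R M N m a b c d e f g h D => (A (A (L (X (L (X 0 (P e 5)) N) (P g 3)) N) (S M (L (L (X (A (L (X 1 (A (L (R D 160) 4294967295) (X a (A (L (R D 192) 4294967295) (X a (L (R D 224) 4294967295)))))) N) (L (X c (A (L (R D 23968) 4294967295) (X a (A (L (R D 24000) 4294967295) (X a (L (R D 24032) 4294967295)))))) N)) (A (L (X (A (L (X 1 (A (L (R D 1408) 4294967295) (X a (A (L (R D 1440) 4294967295) (X a (L (R D 1472) 4294967295)))))) N) (L (X c (A (L (R D 25216) 4294967295) (X a (A (L (R D 25248) 4294967295) (X a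 (L (R D 25280) 4294967295)))))) N)) (L (X (A (L (X (L (X 1024 (A (A (L (R D 2400) 4294967295) (X c (L (R D 26208) 4294967295))) (S M (L (X 2147483648 (A 1 (X c 1))) N)))) N) e) N) (L (X (L (X 171 a) N) (A (A (L (R D 2496) 4294967295) (X c (L (R D 26304) 4294967295))) (S M (L (X 2147483648 (A 1 (X c 1))) N)))) N)) 1) N)) N) (L (X (L (X (L (X 17179869184 (L (X (A (A (L (R D 6016) 4294967295) (X c (L (R D 29824) 4294967295))) (S M (L (X 2147483648 (A 1 (X c 1))) N))) 1) N)) N) (P e 3)) N) g) N))) N) N))) (S M (L (L (X (L (X (L (X 288230376151711744 (A (L (X (A (L (X (A (L (R D 23008) 4294967295) (X c (L (R D 46816) 4294967295))) 1) N) (L (X (A (L (R D 23040) 4294967295) (X c (L (R D 46848) 4294967295))) a) N)) (A 0 (S M (L (L (X 12 1) N) N)))) N) (A (L (X (A (L (X (A (L (R D 23136) 4294967295) (X c (L (R D 46944) 4294967295))) 1) N) (L (X (A (L (R D 23168) 4294967295) (X c (L (R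 D 46976) 4294967295))) a) N)) 1) N) (L (X (A (L (X (A (L (R D 23264) 4294967295) (X c (L (R D 47072) 4294967295))) 1) N) (L (X (A (L (R D 23296) 4294967295) (X c (L (R D 47104) 4294967295))) a) N)) (A 0 (S M (L (L (X 12 1) N) N)))) N)))) N) (P e 4)) N) (P g 2)) N) N))), 114, 6, 1, 4, 1⟩,
  ⟨fun A S X L P R M N m a b c d e f g h D => (A (A (L (X (L (X 0 (P e 4)) N) (P g 3)) N) (S M (L (L (X (A (L (X 1 (A (L (R D 160) 4294967295) (X a (A (L (R D 192) 4294967295) (X a (L (R D 224) 4294967295)))))) N) (L (X c (A (L (R D 23968) 4294967295) (X a (A (L (R D 24000) 4294967295) (X a (L (R D 24032) 4294967295)))))) N)) (A (L (X (A (L (X 1 (A (L (R D 1408) 4294967295) (X a (A (L (R D 1440) 4294967295) (X a (L (R D 1472) 4294967295)))))) N) (L (X c (A (L (R D 25216) 4294967295) (X a (A (L (R D 25248) 4294967295) (X a (L (R D 25280) 4294967295)))))) N)) (L (X (A (A (L (R D 2432) 4294967295)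 (X c (L (R D 26240) 4294967295))) (S M (L (X 2147483648 (A 1 (X c 1))) N))) 1) N)) N) (L (X (L (X (L (X 16777216 (L (X (A (A (L (R D 6048) 4294967295) (X c (L (R D 29856) 4294967295))) (S M (L (X 2147483648 (A 1 (X c 1))) N))) 1) N)) N) (P e 2)) N) g) N))) N) N))) (S M (L (L (X (L (X (L (X 281474976710656 (A (L (X (A (L (X (A (L (R D 23072) 4294967295) (X c (L (R D 46880) 4294967295))) 1) N) (L (X (A (L (R D 23104) 4294967295) (X c (L (R D 46912) 4294967295))) a) N)) (A 0 (S M (L (L (X 12 1) N) N)))) N) (A (L (X (A (L (X (A (L (R D 23200) 4294967295) (X c (L (R D 47008) 4294967295))) 1) N) (L (X (A (L (R D 23232) 4294967295) (X c (L (R D 47040) 4294967295))) a) N)) (L (X 2 1) N)) N) (L (X (A (L (X (A (L (R D 23264) 4294967295) (X c (L (R D 47072) 4294967295))) 1) N) (L (X (A (L (R D 23296) 4294967295) (X c (L (R D 47104) 4294967295))) a) N)) (A 0 (S M (L (L (X 24 1) N) N))))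 N)))) N) (P e 3)) N) (P g 2)) N) N))), 103, 5, 1, 4, 1⟩,
  ⟨fun A S X L P R M N m a b c d e f g h D => (A (A (L (X (L (X 0 (P e 4)) N) (P g 3)) N) (S M (L (L (X (A (L (X 1 (A (L (R D 160) 4294967295) (X a (A (L (R D 192) 4294967295) (X a (L (R D 224) 4294967295)))))) N) (L (X c (A (L (R D 23968) 4294967295) (X a (A (L (R D 24000) 4294967295) (X a (L (R D 24032) 4294967295)))))) N)) (A (L (X (A (L (X 1 (A (L (R D 1408) 4294967295) (X a (A (L (R D 1440) 4294967295) (X a (L (R D 1472) 4294967295)))))) N) (L (X c (A (L (R D 25216) 4294967295) (X a (A (L (R D 25248) 4294967295) (X a (L (R D 25280) 4294967295)))))) N)) (L (X (A (A (L (R D 2464) 4294967295) (X c (L (R D 26272) 4294967295))) (S M (L (X 2147483648 (A 1 (X c 1))) N))) 1) N)) N) (L (X (L (X (L (X 16777216 (L (X (A (A (L (R D 6080) 4294967295) (X c (L (R D 29888) 4294967295))) (S M (L (X 2147483648 (A 1 (X c 1))) N))) 1)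 N)) N) (P e 2)) N) g) N))) N) N))) (S M (L (L (X (L (X (L (X 281474976710656 (A (L (X (A (L (X (A (L (R D 23136) 4294967295) (X c (L (R D 46944) 4294967295))) 1) N) (L (X (A (L (R D 23168) 4294967295) (X c (L (R D 46976) 4294967295))) a) N)) (A 0 (S M (L (L (X 12 1) N) N)))) N) (A (L (X (A (L (X (A (L (R D 23200) 4294967295) (X c (L (R D 47008) 4294967295))) 1) N) (L (X (A (L (R D 23232) 4294967295) (X c (L (R D 47040) 4294967295))) a) N)) (A 0 (S M (L (L (X 12 1) N) N)))) N) (L (X (A (L (X (A (L (R D 23264) 4294967295) (X c (L (R D 47072) 4294967295))) 1) N) (L (X (A (L (R D 23296) 4294967295) (X c (L (R D 47104) 4294967295))) a) N)) (L (X 144 1) N)) N)))) N) (P e 3)) N) (P g 2)) N) N))), 103, 5, 1, 4, 1⟩,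
  ⟨fun A S X L P R M N m a b c d e f g h D => (A (A (L (X (L (X (L (X 288230376151711744 (A (L (X (A (L (R D 1696) 4294967295) (X c (L (R D 25504) 4294967295))) (L (X 1 (A (L (X 853 e) N) (L (X 171 1) N))) N)) N) (L (X (L (X 1024 (L (X (A (L (R D 1728) 4294967295) (X c (L (R D 25536) 4294967295))) 1) N)) N) e) N))) N) (P e 5)) N) (P g 2)) N) (S M (L (L (X (A (L (X 1 (A (L (R D 160) 4294967295) (X a (A (L (R D 192) 4294967295) (X a (L (R D 224) 4294967295)))))) N) (L (X c (A (L (R D 23968) 4294967295) (X a (A (L (R D 24000) 4294967295) (X a (L (R D 24032) 4294967295)))))) N)) (A (L (X (A (L (X 1 (A (L (R D 1408) 4294967295) (X a (A (L (R D 1440) 4294967295) (X a (L (R D 1472) 4294967295)))))) N) (L (X c (A (L (R D 25216) 4294967295) (X a (A (L (R D 25248) 4294967295) (X a (L (R D 25280) 4294967295)))))) N)) (A (L (X (L (X 1024 (L (X (A (A (L (R D 3488) 4294967295) (X c (L (R D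 27296) 4294967295))) (S M (L (X 2147483648 (A 1 (X c 1))) N))) (A (L (X 853 e) N) (L (X 171 1) N))) N)) N) e) N) (L (X (A (A (L (R D 3520) 4294967295) (X c (L (R D 27328) 4294967295))) (S M (L (X 2147483648 (A 1 (X c 1))) N))) (L (X (L (X 171 a) N) (A (L (X 853 e) N) (L (X 171 1) N))) N)) N))) N) (L (X (L (X (L (X 17179869184 (L (X (A (A (L (R D 6112) 4294967295) (X c (L (R D 29920) 4294967295))) (S M (L (X 2147483648 (A 1 (X c 1))) N))) (A (L (X 853 e) N) (L (X 171 1) N))) N)) N) (P e 3)) N) g) N))) N) N))) (S M (L (L (X (L (X (L (X 288230376151711744 (A (L (X (A (L (X (A (L (R D 23328) 4294967295) (X c (L (R D 47136) 4294967295))) 1) N) (L (X (A (L (R D 23360) 4294967295) (X c (L (R D 47168) 4294967295))) a) N)) (L (X 2 (A (L (X 853 e) N) (L (X 171 1) N))) N)) N) (A (L (X (A (L (X (A (L (R D 23392) 4294967295) (X c (L (R D 47200) 4294967295))) 1) N) (L (X (A (L (R D 23424)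 4294967295) (X c (L (R D 47232) 4294967295))) a) N)) (A (L (X 853 e) N) (L (X 171 1) N))) N) (L (X (A (L (X (A (L (R D 23584) 4294967295) (X c (L (R D 47392) 4294967295))) 1) N) (L (X (A (L (R D 23616) 4294967295) (X c (L (R D 47424) 4294967295))) a) N)) (L (X 2 (A (L (X 853 e) N) (L (X 171 1) N))) N)) N)))) N) (P e 4)) N) (P g 2)) N) N))), 125, 7, 1, 4, 1⟩,
  ⟨fun A S X L P R M N m a b c d e f g h D => (A (A (L (X (L (X 0 (P e 5)) N) (P g 3)) N) (S M (L (L (X (A (L (X 1 (A (L (R D 160) 4294967295) (X a (A (L (R D 192) 4294967295) (X a (L (R D 224) 4294967295)))))) N) (L (X c (A (L (R D 23968) 4294967295) (X a (A (L (R D 24000) 4294967295) (X a (L (R D 24032) 4294967295)))))) N)) (A (L (X (A (L (X 1 (A (L (R D 1408) 4294967295) (X a (A (L (R D 1440) 4294967295) (X a (L (R D 1472) 4294967295)))))) N) (L (X c (A (L (R D 25216) 4294967295) (X a (A (L (R D 25248) 4294967295) (X a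 (L (R D 25280) 4294967295)))))) N)) (L (X (A (L (X (L (X 1024 (A (A (L (R D 3552) 4294967295) (X c (L (R D 27360) 4294967295))) (S M (L (X 2147483648 (A 1 (X c 1))) N)))) N) e) N) (L (X (L (X 171 a) N) (A (A (L (R D 3648) 4294967295) (X c (L (R D 27456) 4294967295))) (S M (L (X 2147483648 (A 1 (X c 1))) N)))) N)) 1) N)) N) (L (X (L (X (L (X 17179869184 (L (X (A (A (L (R D 6144) 4294967295) (X c (L (R D 29952) 4294967295))) (S M (L (X 2147483648 (A 1 (X c 1))) N))) 1) N)) N) (P e 3)) N) g) N))) N) N))) (S M (L (L (X (L (X (L (X 288230376151711744 (A (L (X (A (L (X (A (L (R D 23328) 4294967295) (X c (L (R D 47136) 4294967295))) 1) N) (L (X (A (L (R D 23360) 4294967295) (X c (L (R D 47168) 4294967295))) a) N)) (A 0 (S M (L (L (X 12 1) N) N)))) N) (A (L (X (A (L (X (A (L (R D 23456) 4294967295) (X c (L (R D 47264) 4294967295))) 1) N) (L (X (A (L (R D 23488) 4294967295) (X c (L (R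 D 47296) 4294967295))) a) N)) 1) N) (L (X (A (L (X (A (L (R D 23584) 4294967295) (X c (L (R D 47392) 4294967295))) 1) N) (L (X (A (L (R D 23616) 4294967295) (X c (L (R D 47424) 4294967295))) a) N)) (A 0 (S M (L (L (X 12 1) N) N)))) N)))) N) (P e 4)) N) (P g 2)) N) N))), 114, 6, 1, 4, 1⟩,
  ⟨fun A S X L P R M N m a b c d e f g h D => (A (A (L (X (L (X 0 (P e 4)) N) (P g 3)) N) (S M (L (L (X (A (L (X 1 (A (L (R D 160) 4294967295) (X a (A (L (R D 192) 4294967295) (X a (L (R D 224) 4294967295)))))) N) (L (X c (A (L (R D 23968) 4294967295) (X a (A (L (R D 24000) 4294967295) (X a (L (R D 24032) 4294967295)))))) N)) (A (L (X (A (L (X 1 (A (L (R D 1408) 4294967295) (X a (A (L (R D 1440) 4294967295) (X a (L (R D 1472) 4294967295)))))) N) (L (X c (A (L (R D 25216) 4294967295) (X a (A (L (R D 25248) 4294967295) (X a (L (R D 25280) 4294967295)))))) N)) (L (X (A (A (L (R D 3584) 4294967295)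 (X c (L (R D 27392) 4294967295))) (S M (L (X 2147483648 (A 1 (X c 1))) N))) 1) N)) N) (L (X (L (X (L (X 16777216 (L (X (A (A (L (R D 6176) 4294967295) (X c (L (R D 29984) 4294967295))) (S M (L (X 2147483648 (A 1 (X c 1))) N))) 1) N)) N) (P e 2)) N) g) N))) N) N))) (S M (L (L (X (L (X (L (X 281474976710656 (A (L (X (A (L (X (A (L (R D 23392) 4294967295) (X c (L (R D 47200) 4294967295))) 1) N) (L (X (A (L (R D 23424) 4294967295) (X c (L (R D 47232) 4294967295))) a) N)) (A 0 (S M (L (L (X 12 1) N) N)))) N) (A (L (X (A (L (X (A (L (R D 23520) 4294967295) (X c (L (R D 47328) 4294967295))) 1) N) (L (X (A (L (R D 23552) 4294967295) (X c (L (R D 47360) 4294967295))) a) N)) (L (X 2 1) N)) N) (L (X (A (L (X (A (L (R D 23584) 4294967295) (X c (L (R D 47392) 4294967295))) 1) N) (L (X (A (L (R D 23616) 4294967295) (X c (L (R D 47424) 4294967295))) a) N)) (A 0 (S M (L (L (X 24 1) N) N))))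 N)))) N) (P e 3)) N) (P g 2)) N) N))), 103, 5, 1, 4, 1⟩,
  ⟨fun A S X L P R M N m a b c d e f g h D => (A (A (L (X (L (X 0 (P e 4)) N) (P g 3)) N) (S M (L (L (X (A (L (X 1 (A (L (R D 160) 4294967295) (X a (A (L (R D 192) 4294967295) (X a (L (R D 224) 4294967295)))))) N) (L (X c (A (L (R D 23968) 4294967295) (X a (A (L (R D 24000) 4294967295) (X a (L (R D 24032) 4294967295)))))) N)) (A (L (X (A (L (X 1 (A (L (R D 1408) 4294967295) (X a (A (L (R D 1440) 4294967295) (X a (L (R D 1472) 4294967295)))))) N) (L (X c (A (L (R D 25216) 4294967295) (X a (A (L (R D 25248) 4294967295) (X a (L (R D 25280) 4294967295)))))) N)) (L (X (A (A (L (R D 3616) 4294967295) (X c (L (R D 27424) 4294967295))) (S M (L (X 2147483648 (A 1 (X c 1))) N))) 1) N)) N) (L (X (L (X (L (X 16777216 (L (X (A (A (L (R D 6208) 4294967295) (X c (L (R D 30016) 4294967295))) (S M (L (X 2147483648 (A 1 (X c 1))) N))) 1)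 N)) N) (P e 2)) N) g) N))) N) N))) (S M (L (L (X (L (X (L (X 281474976710656 (A (L (X (A (L (X (A (L (R D 23456) 4294967295) (X c (L (R D 47264) 4294967295))) 1) N) (L (X (A (L (R D 23488) 4294967295) (X c (L (R D 47296) 4294967295))) a) N)) (A 0 (S M (L (L (X 12 1) N) N)))) N) (A (L (X (A (L (X (A (L (R D 23520) 4294967295) (X c (L (R D 47328) 4294967295))) 1) N) (L (X (A (L (R D 23552) 4294967295) (X c (L (R D 47360) 4294967295))) a) N)) (A 0 (S M (L (L (X 12 1) N) N)))) N) (L (X (A (L (X (A (L (R D 23584) 4294967295) (X c (L (R D 47392) 4294967295))) 1) N) (L (X (A (L (R D 23616) 4294967295) (X c (L (R D 47424) 4294967295))) a) N)) (L (X 144 1) N)) N)))) N) (P e 3)) N) (P g 2)) N) N))), 103, 5, 1, 4, 1⟩,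
  ⟨fun A S X L P R M N m a b c d e f g h D => (A (L (R D 0) 4294967295) (S M (L 1 N))), 33, 1, 1, 1, 1⟩,
  ⟨fun A S X L P R M N m a b c d e f g h D => (A (L (X (L (X 1073741824 (A (L (X 1 (A (L (R D 448) 4294967295) (X a (A (L (R D 480) 4294967295) (X a (L (R D 512) 4294967295)))))) N) (L (X c (A (L (R D 24256) 4294967295) (X a (A (L (R D 24288) 4294967295) (X a (L (R D 24320) 4294967295)))))) N))) N) (P f 2)) N) (S M (L (L (X (L (X (L (X 171 a) N) (A (L (X (L (X 1048576 (A (L (R D 64) 4294967295) (X c (L (R D 23872) 4294967295)))) N) (P f 2)) N) (L (X (L (X 86 b) N) (A (L (X (L (X 1024 (A (L (R D 96) 4294967295) (X c (L (R D 23904) 4294967295)))) N) f) N) (L (X (L (X 86 b) N) (A (L (R D 128) 4294967295) (X c (L (R D 23936) 4294967295)))) N))) N))) N) e) N) N))), 67, 3, 3, 2, 1⟩,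
  ⟨fun A S X L P R M N m a b c d e f g h D => (A (L (X 33554432 (L (R D 256) 4294967295)) N) (S M (L (A (L (X 33554432 (L (R D 24064) 4294967295)) N) (L (X 1 (L (X (L (R D 0) 4294967295) (A (L (R D 352) 4294967295) (L (R D 24160) 4294967295))) N)) N)) N))), 66, 1, 1, 1, 1⟩,
  ⟨fun A S X L P R M N m a b c d e f g h D => (A (L (R D 160) 4294967295) (S M (L (L (R D 256) 4294967295) N))), 34, 1, 1, 1, 1⟩,
  ⟨fun A S X L P R M N m a b c d e f g h D => (A (L (R D 23968) 4294967295) (S M (L (L (R D 24064) 4294967295) N))), 34, 1, 1, 1, 1⟩,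
  ⟨fun A S X L P R M N m a b c d e f g h D => (A (L (X 16777216 (L (X 8 (A (L (R D 160) 4294967295) (S M (L (L (R D 256) 4294967295) N)))) N)) N) (S M (L (L (X (L (R D 0) 4294967295) (A (L (R D 24160) 4294967295) (S M (L (L (R D 352) 4294967295) N)))) N) N))), 66, 1, 1, 1, 1⟩,
  ⟨fun A S X L P R M N m a b c d e f g h D => (A (L (X 16777216 (L (X 8 (A (L (R D 23968) 4294967295) (S M (L (L (R D 24064) 4294967295) N)))) N)) N) (S M (L (L (X (L (R D 0) 4294967295) (A (L (R D 24160) 4294967295) (S M (L (L (R D 352) 4294967295) N)))) N) N))), 66, 1, 1, 1, 1⟩,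
  ⟨fun A S X L P R M N m a b c d e f g h D => (A (L (X 33554432 (L (R D 288) 4294967295)) N) (S M (L (A (L (X 33554432 (L (R D 24096) 4294967295)) N) (L (X 1 (L (X (L (R D 0) 4294967295) (A (L (R D 384) 4294967295) (L (R D 24192) 4294967295))) N)) N)) N))), 66, 1, 1, 1, 1⟩,
  ⟨fun A S X L P R M N m a b c d e f g h D => (A (L (R D 192) 4294967295) (S M (L (L (R D 288) 4294967295) N))), 34, 1, 1, 1, 1⟩,
  ⟨fun A S X L P R M N m a b c d e f g h D => (A (L (R D 24000) 4294967295) (S M (L (L (R D 24096) 4294967295) N))), 34, 1, 1, 1, 1⟩,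
  ⟨fun A S X L P R M N m a b c d e f g h D => (A (L (X 16777216 (L (X 8 (A (L (R D 192) 4294967295) (S M (L (L (R D 288) 4294967295) N)))) N)) N) (S M (L (L (X (L (R D 0) 4294967295) (A (L (R D 24192) 4294967295) (S M (L (L (R D 384) 4294967295) N)))) N) N))), 66, 1, 1, 1, 1⟩,
  ⟨fun A S X L P R M N m a b c d e f g h D => (A (L (X 16777216 (L (X 8 (A (L (R D 24000) 4294967295) (S M (L (L (R D 24096) 4294967295) N)))) N)) N) (S M (L (L (X (L (R D 0) 4294967295) (A (L (R D 24192) 4294967295) (S M (L (L (R D 384) 4294967295) N)))) N) N))), 66, 1, 1, 1, 1⟩,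
  ⟨fun A S X L P R M N m a b c d e f g h D => (A (L (X 33554432 (L (R D 320) 4294967295)) N) (S M (L (A (L (X 33554432 (L (R D 24128) 4294967295)) N) (L (X 1 (L (X (L (R D 0) 4294967295) (A (L (R D 416) 4294967295) (L (R D 24224) 4294967295))) N)) N)) N))), 66, 1, 1, 1, 1⟩,
  ⟨fun A S X L P R M N m a b c d e f g h D => (A (L (R D 224) 4294967295) (S M (L (L (R D 320) 4294967295) N))), 34, 1, 1, 1, 1⟩,
  ⟨fun A S X L P R M N m a b c d e f g h D => (A (L (R D 24032) 4294967295) (S M (L (L (R D 24128) 4294967295) N))), 34, 1, 1, 1, 1⟩,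
  ⟨fun A S X L P R M N m a b c d e f g h D => (A (L (X 16777216 (L (X 8 (A (L (R D 224) 4294967295) (S M (L (L (R D 320) 4294967295) N)))) N)) N) (S M (L (L (X (L (R D 0) 4294967295) (A (L (R D 24224) 4294967295) (S M (L (L (R D 416) 4294967295) N)))) N) N))), 66, 1, 1, 1, 1⟩,
  ⟨fun A S X L P R M N m a b c d e f g h D => (A (L (X 16777216 (L (X 8 (A (L (R D 24032) 4294967295) (S M (L (L (R D 24128) 4294967295) N)))) N)) N) (S M (L (L (X (L (R D 0) 4294967295) (A (L (R D 24224) 4294967295) (S M (L (L (R D 416) 4294967295) N)))) N) N))), 66, 1, 1, 1, 1⟩,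
  ⟨fun A S X L P R M N m a b c d e f g h D => (A (L (X 33554432 (A (L (R D 928) 4294967295) m)) N) (S M (L (A (L (X 33554432 (A (L (R D 24736) 4294967295) m)) N) (L (X 1 (L (X (L (R D 0) 4294967295) (A (A (L (R D 736) 4294967295) m) (A (L (R D 24544) 4294967295) m))) N)) N)) N))), 66, 1, 1, 1, 1⟩,
  ⟨fun A S X L P R M N m a b c d e f g h D => (A (A (L (R D 1120) 4294967295) m) (S M (L (A (L (R D 928) 4294967295) m) N))), 34, 1, 1, 1, 1⟩,
  ⟨fun A S X L P R M N m a b c d e f g h D => (A (A (L (R D 24928) 4294967295) m) (S M (L (A (L (R D 24736) 4294967295) m) N))), 34, 1, 1, 1, 1⟩,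
  ⟨fun A S X L P R M N m a b c d e f g h D => (A (L (X 16777216 (L (X 8 (A (A (L (R D 1120) 4294967295) m) (S M (L (A (L (R D 928) 4294967295) m) N)))) N)) N) (S M (L (L (X (L (R D 0) 4294967295) (A (A (L (R D 24544) 4294967295) m) (S M (L (A (L (R D 736) 4294967295) m) N)))) N) N))), 66, 1, 1, 1, 1⟩,
  ⟨fun A S X L P R M N m a b c d e f g h D => (A (L (X 16777216 (L (X 8 (A (A (L (R D 24928) 4294967295) m) (S M (L (A (L (R D 24736) 4294967295) m) N)))) N)) N) (S M (L (L (X (L (R D 0) 4294967295) (A (A (L (R D 24544) 4294967295) m) (S M (L (A (L (R D 736) 4294967295) m) N)))) N) N))), 66, 1, 1, 1, 1⟩,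
  ⟨fun A S X L P R M N m a b c d e f g h D => (A (L (X 33554432 (A (L (R D 960) 4294967295) m)) N) (S M (L (A (L (X 33554432 (A (L (R D 24768) 4294967295) m)) N) (L (X 1 (L (X (L (R D 0) 4294967295) (A (A (L (R D 768) 4294967295) m) (A (L (R D 24576) 4294967295) m))) N)) N)) N))), 66, 1, 1, 1, 1⟩,
  ⟨fun A S X L P R M N m a b c d e f g h D => (A (A (L (R D 1152) 4294967295) m) (S M (L (A (L (R D 960) 4294967295) m) N))), 34, 1, 1, 1, 1⟩,
  ⟨fun A S X L P R M N m a b c d e f g h D => (A (A (L (R D 24960) 4294967295) m) (S M (L (A (L (R D 24768) 4294967295) m) N))), 34, 1, 1, 1, 1⟩,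
  ⟨fun A S X L P R M N m a b c d e f g h D => (A (L (X 16777216 (L (X 8 (A (A (L (R D 1152) 4294967295) m) (S M (L (A (L (R D 960) 4294967295) m) N)))) N)) N) (S M (L (L (X (L (R D 0) 4294967295) (A (A (L (R D 24576) 4294967295) m) (S M (L (A (L (R D 768) 4294967295) m) N)))) N) N))), 66, 1, 1, 1, 1⟩,
  ⟨fun A S X L P R M N m a b c d e f g h D => (A (L (X 16777216 (L (X 8 (A (A (L (R D 24960) 4294967295) m) (S M (L (A (L (R D 24768) 4294967295) m) N)))) N)) N) (S M (L (L (X (L (R D 0) 4294967295) (A (A (L (R D 24576) 4294967295) m) (S M (L (A (L (R D 768) 4294967295) m) N)))) N) N))), 66, 1, 1, 1, 1⟩,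
  ⟨fun A S X L P R M N m a b c d e f g h D => (A (L (X 33554432 (A (L (R D 992) 4294967295) m)) N) (S M (L (A (L (X 33554432 (A (L (R D 24800) 4294967295) m)) N) (L (X 1 (L (X (L (R D 0) 4294967295) (A (A (L (R D 800) 4294967295) m) (A (L (R D 24608) 4294967295) m))) N)) N)) N))), 66, 1, 1, 1, 1⟩,
  ⟨fun A S X L P R M N m a b c d e f g h D => (A (A (L (R D 1184) 4294967295) m) (S M (L (A (L (R D 992) 4294967295) m) N))), 34, 1, 1, 1, 1⟩,
  ⟨fun A S X L P R M N m a b c d e f g h D => (A (A (L (R D 24992) 4294967295) m) (S M (L (A (L (R D 24800) 4294967295) m) N))), 34, 1, 1, 1, 1⟩,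
  ⟨fun A S X L P R M N m a b c d e f g h D => (A (L (X 16777216 (L (X 8 (A (A (L (R D 1184) 4294967295) m) (S M (L (A (L (R D 992) 4294967295) m) N)))) N)) N) (S M (L (L (X (L (R D 0) 4294967295) (A (A (L (R D 24608) 4294967295) m) (S M (L (A (L (R D 800) 4294967295) m) N)))) N) N))), 66, 1, 1, 1, 1⟩,
  ⟨fun A S X L P R M N m a b c d e f g h D => (A (L (X 16777216 (L (X 8 (A (A (L (R D 24992) 4294967295) m) (S M (L (A (L (R D 24800) 4294967295) m) N)))) N)) N) (S M (L (L (X (L (R D 0) 4294967295) (A (A (L (R D 24608) 4294967295) m) (S M (L (A (L (R D 800) 4294967295) m) N)))) N) N))), 66, 1, 1, 1, 1⟩,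
  ⟨fun A S X L P R M N m a b c d e f g h D => (A (L (X 33554432 (A (L (R D 1024) 4294967295) m)) N) (S M (L (A (L (X 33554432 (A (L (R D 24832) 4294967295) m)) N) (L (X 1 (L (X (L (R D 0) 4294967295) (A (A (L (R D 832) 4294967295) m) (A (L (R D 24640) 4294967295) m))) N)) N)) N))), 66, 1, 1, 1, 1⟩,
  ⟨fun A S X L P R M N m a b c d e f g h D => (A (A (L (R D 1216) 4294967295) m) (S M (L (A (L (R D 1024) 4294967295) m) N))), 34, 1, 1, 1, 1⟩,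
  ⟨fun A S X L P R M N m a b c d e f g h D => (A (A (L (R D 25024) 4294967295) m) (S M (L (A (L (R D 24832) 4294967295) m) N))), 34, 1, 1, 1, 1⟩,
  ⟨fun A S X L P R M N m a b c d e f g h D => (A (L (X 16777216 (L (X 8 (A (A (L (R D 1216) 4294967295) m) (S M (L (A (L (R D 1024) 4294967295) m) N)))) N)) N) (S M (L (L (X (L (R D 0) 4294967295) (A (A (L (R D 24640) 4294967295) m) (S M (L (A (L (R D 832) 4294967295) m) N)))) N) N))), 66, 1, 1, 1, 1⟩,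
  ⟨fun A S X L P R M N m a b c d e f g h D => (A (L (X 16777216 (L (X 8 (A (A (L (R D 25024) 4294967295) m) (S M (L (A (L (R D 24832) 4294967295) m) N)))) N)) N) (S M (L (L (X (L (R D 0) 4294967295) (A (A (L (R D 24640) 4294967295) m) (S M (L (A (L (R D 832) 4294967295) m) N)))) N) N))), 66, 1, 1, 1, 1⟩,
  ⟨fun A S X L P R M N m a b c d e f g h D => (A (L (X 33554432 (A (L (R D 1056) 4294967295) m)) N) (S M (L (A (L (X 33554432 (A (L (R D 24864) 4294967295) m)) N) (L (X 1 (L (X (L (R D 0) 4294967295) (A (A (L (R D 864) 4294967295) m) (A (L (R D 24672) 4294967295) m))) N)) N)) N))), 66, 1, 1, 1, 1⟩,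
  ⟨fun A S X L P R M N m a b c d e f g h D => (A (A (L (R D 1248) 4294967295) m) (S M (L (A (L (R D 1056) 4294967295) m) N))), 34, 1, 1, 1, 1⟩,
  ⟨fun A S X L P R M N m a b c d e f g h D => (A (A (L (R D 25056) 4294967295) m) (S M (L (A (L (R D 24864) 4294967295) m) N))), 34, 1, 1, 1, 1⟩,
  ⟨fun A S X L P R M N m a b c d e f g h D => (A (L (X 16777216 (L (X 8 (A (A (L (R D 1248) 4294967295) m) (S M (L (A (L (R D 1056) 4294967295) m) N)))) N)) N) (S M (L (L (X (L (R D 0) 4294967295) (A (A (L (R D 24672) 4294967295) m) (S M (L (A (L (R D 864) 4294967295) m) N)))) N) N))), 66, 1, 1, 1, 1⟩,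
  ⟨fun A S X L P R M N m a b c d e f g h D => (A (L (X 16777216 (L (X 8 (A (A (L (R D 25056) 4294967295) m) (S M (L (A (L (R D 24864) 4294967295) m) N)))) N)) N) (S M (L (L (X (L (R D 0) 4294967295) (A (A (L (R D 24672) 4294967295) m) (S M (L (A (L (R D 864) 4294967295) m) N)))) N) N))), 66, 1, 1, 1, 1⟩,
  ⟨fun A S X L P R M N m a b c d e f g h D => (A (L (X 33554432 (A (L (R D 1088) 4294967295) m)) N) (S M (L (A (L (X 33554432 (A (L (R D 24896) 4294967295) m)) N) (L (X 1 (L (X (L (R D 0) 4294967295) (A (A (L (R D 896) 4294967295) m) (A (L (R D 24704) 4294967295) m))) N)) N)) N))), 66, 1, 1, 1, 1⟩,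
  ⟨fun A S X L P R M N m a b c d e f g h D => (A (A (L (R D 1280) 4294967295) m) (S M (L (A (L (R D 1088) 4294967295) m) N))), 34, 1, 1, 1, 1⟩,
  ⟨fun A S X L P R M N m a b c d e f g h D => (A (A (L (R D 25088) 4294967295) m) (S M (L (A (L (R D 24896) 4294967295) m) N))), 34, 1, 1, 1, 1⟩,
  ⟨fun A S X L P R M N m a b c d e f g h D => (A (L (X 16777216 (L (X 8 (A (A (L (R D 1280) 4294967295) m) (S M (L (A (L (R D 1088) 4294967295) m) N)))) N)) N) (S M (L (L (X (L (R D 0) 4294967295) (A (A (L (R D 24704) 4294967295) m) (S M (L (A (L (R D 896) 4294967295) m) N)))) N) N))), 66, 1, 1, 1, 1⟩,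
  ⟨fun A S X L P R M N m a b c d e f g h D => (A (L (X 16777216 (L (X 8 (A (A (L (R D 25088) 4294967295) m) (S M (L (A (L (R D 24896) 4294967295) m) N)))) N)) N) (S M (L (L (X (L (R D 0) 4294967295) (A (A (L (R D 24704) 4294967295) m) (S M (L (A (L (R D 896) 4294967295) m) N)))) N) N))), 66, 1, 1, 1, 1⟩,
  ⟨fun A S X L P R M N m a b c d e f g h D => (A (A (L (X 1 (A (L (R D 160) 4294967295) (X a (A (L (R D 192) 4294967295) (X a (L (R D 224) 4294967295)))))) N) (L (X c (A (L (R D 23968) 4294967295) (X a (A (L (R D 24000) 4294967295) (X a (L (R D 24032) 4294967295)))))) N)) (S M (L (L (X (L (X (L (X 16777216 1) N) (P e 2)) N) g) N) N))), 35, 3, 1, 2, 1⟩,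
  ⟨fun A S X L P R M N m a b c d e f g h D => (A (L (R D 0) 4294967295) (S M (L 1 N))), 33, 1, 1, 1, 1⟩,
  ⟨fun A S X L P R M N m a b c d e f g h D => (A (L (X 33554432 (A (L (R D 1952) 4294967295) m)) N) (S M (L (A (L (X 33554432 (A (L (R D 25760) 4294967295) m)) N) (L (X 1 (L (X (L (R D 0) 4294967295) (A (A (L (R D 2144) 4294967295) m) (A (L (R D 25952) 4294967295) m))) N)) N)) N))), 66, 1, 1, 1, 1⟩,
  ⟨fun A S X L P R M N m a b c d e f g h D => (A (A (L (R D 1760) 4294967295) m) (S M (L (A (L (R D 1952) 4294967295) m) N))), 34, 1, 1, 1, 1⟩,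
  ⟨fun A S X L P R M N m a b c d e f g h D => (A (A (L (R D 25568) 4294967295) m) (S M (L (A (L (R D 25760) 4294967295) m) N))), 34, 1, 1, 1, 1⟩,
  ⟨fun A S X L P R M N m a b c d e f g h D => (A (L (X 16777216 (L (X 8 (A (A (L (R D 1760) 4294967295) m) (S M (L (A (L (R D 1952) 4294967295) m) N)))) N)) N) (S M (L (L (X (L (R D 0) 4294967295) (A (A (L (R D 25952) 4294967295) m) (S M (L (A (L (R D 2144) 4294967295) m) N)))) N) N))), 66, 1, 1, 1, 1⟩,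
  ⟨fun A S X L P R M N m a b c d e f g h D => (A (L (X 16777216 (L (X 8 (A (A (L (R D 25568) 4294967295) m) (S M (L (A (L (R D 25760) 4294967295) m) N)))) N)) N) (S M (L (L (X (L (R D 0) 4294967295) (A (A (L (R D 25952) 4294967295) m) (S M (L (A (L (R D 2144) 4294967295) m) N)))) N) N))), 66, 1, 1, 1, 1⟩,
  ⟨fun A S X L P R M N m a b c d e f g h D => (A (L (X 33554432 (A (L (R D 1984) 4294967295) m)) N) (S M (L (A (L (X 33554432 (A (L (R D 25792) 4294967295) m)) N) (L (X 1 (L (X (L (R D 0) 4294967295) (A (A (L (R D 2176) 4294967295) m) (A (L (R D 25984) 4294967295) m))) N)) N)) N))), 66, 1, 1, 1, 1⟩,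
  ⟨fun A S X L P R M N m a b c d e f g h D => (A (A (L (R D 1792) 4294967295) m) (S M (L (A (L (R D 1984) 4294967295) m) N))), 34, 1, 1, 1, 1⟩,
  ⟨fun A S X L P R M N m a b c d e f g h D => (A (A (L (R D 25600) 4294967295) m) (S M (L (A (L (R D 25792) 4294967295) m) N))), 34, 1, 1, 1, 1⟩,
  ⟨fun A S X L P R M N m a b c d e f g h D => (A (L (X 16777216 (L (X 8 (A (A (L (R D 1792) 4294967295) m) (S M (L (A (L (R D 1984) 4294967295) m) N)))) N)) N) (S M (L (L (X (L (R D 0) 4294967295) (A (A (L (R D 25984) 4294967295) m) (S M (L (A (L (R D 2176) 4294967295) m) N)))) N) N))), 66, 1, 1, 1, 1⟩,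
  ⟨fun A S X L P R M N m a b c d e f g h D => (A (L (X 16777216 (L (X 8 (A (A (L (R D 25600) 4294967295) m) (S M (L (A (L (R D 25792) 4294967295) m) N)))) N)) N) (S M (L (L (X (L (R D 0) 4294967295) (A (A (L (R D 25984) 4294967295) m) (S M (L (A (L (R D 2176) 4294967295) m) N)))) N) N))), 66, 1, 1, 1, 1⟩,
  ⟨fun A S X L P R M N m a b c d e f g h D => (A (L (X 33554432 (A (L (R D 2016) 4294967295) m)) N) (S M (L (A (L (X 33554432 (A (L (R D 25824) 4294967295) m)) N) (L (X 1 (L (X (L (R D 0) 4294967295) (A (A (L (R D 2208) 4294967295) m) (A (L (R D 26016) 4294967295) m))) N)) N)) N))), 66, 1, 1, 1, 1⟩,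
  ⟨fun A S X L P R M N m a b c d e f g h D => (A (A (L (R D 1824) 4294967295) m) (S M (L (A (L (R D 2016) 4294967295) m) N))), 34, 1, 1, 1, 1⟩,
  ⟨fun A S X L P R M N m a b c d e f g h D => (A (A (L (R D 25632) 4294967295) m) (S M (L (A (L (R D 25824) 4294967295) m) N))), 34, 1, 1, 1, 1⟩,
  ⟨fun A S X L P R M N m a b c d e f g h D => (A (L (X 16777216 (L (X 8 (A (A (L (R D 1824) 4294967295) m) (S M (L (A (L (R D 2016) 4294967295) m) N)))) N)) N) (S M (L (L (X (L (R D 0) 4294967295) (A (A (L (R D 26016) 4294967295) m) (S M (L (A (L (R D 2208) 4294967295) m) N)))) N) N))), 66, 1, 1, 1, 1⟩,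
  ⟨fun A S X L P R M N m a b c d e f g h D => (A (L (X 16777216 (L (X 8 (A (A (L (R D 25632) 4294967295) m) (S M (L (A (L (R D 25824) 4294967295) m) N)))) N)) N) (S M (L (L (X (L (R D 0) 4294967295) (A (A (L (R D 26016) 4294967295) m) (S M (L (A (L (R D 2208) 4294967295) m) N)))) N) N))), 66, 1, 1, 1, 1⟩,
  ⟨fun A S X L P R M N m a b c d e f g h D => (A (L (X 33554432 (A (L (R D 2048) 4294967295) m)) N) (S M (L (A (L (X 33554432 (A (L (R D 25856) 4294967295) m)) N) (L (X 1 (L (X (L (R D 0) 4294967295) (A (A (L (R D 2240) 4294967295) m) (A (L (R D 26048) 4294967295) m))) N)) N)) N))), 66, 1, 1, 1, 1⟩,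
  ⟨fun A S X L P R M N m a b c d e f g h D => (A (A (L (R D 1856) 4294967295) m) (S M (L (A (L (R D 2048) 4294967295) m) N))), 34, 1, 1, 1, 1⟩,
  ⟨fun A S X L P R M N m a b c d e f g h D => (A (A (L (R D 25664) 4294967295) m) (S M (L (A (L (R D 25856) 4294967295) m) N))), 34, 1, 1, 1, 1⟩,
  ⟨fun A S X L P R M N m a b c d e f g h D => (A (L (X 16777216 (L (X 8 (A (A (L (R D 1856) 4294967295) m) (S M (L (A (L (R D 2048) 4294967295) m) N)))) N)) N) (S M (L (L (X (L (R D 0) 4294967295) (A (A (L (R D 26048) 4294967295) m) (S M (L (A (L (R D 2240) 4294967295) m) N)))) N) N))), 66, 1, 1, 1, 1⟩,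
  ⟨fun A S X L P R M N m a b c d e f g h D => (A (L (X 16777216 (L (X 8 (A (A (L (R D 25664) 4294967295) m) (S M (L (A (L (R D 25856) 4294967295) m) N)))) N)) N) (S M (L (L (X (L (R D 0) 4294967295) (A (A (L (R D 26048) 4294967295) m) (S M (L (A (L (R D 2240) 4294967295) m) N)))) N) N))), 66, 1, 1, 1, 1⟩,
  ⟨fun A S X L P R M N m a b c d e f g h D => (A (L (X 33554432 (A (L (R D 2080) 4294967295) m)) N) (S M (L (A (L (X 33554432 (A (L (R D 25888) 4294967295) m)) N) (L (X 1 (L (X (L (R D 0) 4294967295) (A (A (L (R D 2272) 4294967295) m) (A (L (R D 26080) 4294967295) m))) N)) N)) N))), 66, 1, 1, 1, 1⟩,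
  ⟨fun A S X L P R M N m a b c d e f g h D => (A (A (L (R D 1888) 4294967295) m) (S M (L (A (L (R D 2080) 4294967295) m) N))), 34, 1, 1, 1, 1⟩,
  ⟨fun A S X L P R M N m a b c d e f g h D => (A (A (L (R D 25696) 4294967295) m) (S M (L (A (L (R D 25888) 4294967295) m) N))), 34, 1, 1, 1, 1⟩,
  ⟨fun A S X L P R M N m a b c d e f g h D => (A (L (X 16777216 (L (X 8 (A (A (L (R D 1888) 4294967295) m) (S M (L (A (L (R D 2080) 4294967295) m) N)))) N)) N) (S M (L (L (X (L (R D 0) 4294967295) (A (A (L (R D 26080) 4294967295) m) (S M (L (A (L (R D 2272) 4294967295) m) N)))) N) N))), 66, 1, 1, 1, 1⟩,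
  ⟨fun A S X L P R M N m a b c d e f g h D => (A (L (X 16777216 (L (X 8 (A (A (L (R D 25696) 4294967295) m) (S M (L (A (L (R D 25888) 4294967295) m) N)))) N)) N) (S M (L (L (X (L (R D 0) 4294967295) (A (A (L (R D 26080) 4294967295) m) (S M (L (A (L (R D 2272) 4294967295) m) N)))) N) N))), 66, 1, 1, 1, 1⟩,
  ⟨fun A S X L P R M N m a b c d e f g h D => (A (L (X 33554432 (A (L (R D 2112) 4294967295) m)) N) (S M (L (A (L (X 33554432 (A (L (R D 25920) 4294967295) m)) N) (L (X 1 (L (X (L (R D 0) 4294967295) (A (A (L (R D 2304) 4294967295) m) (A (L (R D 26112) 4294967295) m))) N)) N)) N))), 66, 1, 1, 1, 1⟩,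
  ⟨fun A S X L P R M N m a b c d e f g h D => (A (A (L (R D 1920) 4294967295) m) (S M (L (A (L (R D 2112) 4294967295) m) N))), 34, 1, 1, 1, 1⟩,
  ⟨fun A S X L P R M N m a b c d e f g h D => (A (A (L (R D 25728) 4294967295) m) (S M (L (A (L (R D 25920) 4294967295) m) N))), 34, 1, 1, 1, 1⟩,
  ⟨fun A S X L P R M N m a b c d e f g h D => (A (L (X 16777216 (L (X 8 (A (A (L (R D 1920) 4294967295) m) (S M (L (A (L (R D 2112) 4294967295) m) N)))) N)) N) (S M (L (L (X (L (R D 0) 4294967295) (A (A (L (R D 26112) 4294967295) m) (S M (L (A (L (R D 2304) 4294967295) m) N)))) N) N))), 66, 1, 1, 1, 1⟩,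
  ⟨fun A S X L P R M N m a b c d e f g h D => (A (L (X 16777216 (L (X 8 (A (A (L (R D 25728) 4294967295) m) (S M (L (A (L (R D 25920) 4294967295) m) N)))) N)) N) (S M (L (L (X (L (R D 0) 4294967295) (A (A (L (R D 26112) 4294967295) m) (S M (L (A (L (R D 2304) 4294967295) m) N)))) N) N))), 66, 1, 1, 1, 1⟩,
  ⟨fun A S X L P R M N m a b c d e f g h D => (A 1 (S M (L 1 N))), 2, 1, 1, 1, 1⟩,
  ⟨fun A S X L P R M N m a b c d e f g h D => (A 1 (S M (L 1 N))), 2, 1, 1, 1, 1⟩,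
  ⟨fun A S X L P R M N m a b c d e f g h D => (A (A (A (L (R D 1760) 4294967295) (X c (L (R D 25568) 4294967295))) (S M (L (X 2147483648 (A 1 (X c 1))) N))) (S M (L (L (X 1 (A (A (L (R D 1760) 4294967295) (X c (L (R D 25568) 4294967295))) (S M (L (X 2147483648 (A 1 (X c 1))) N)))) N) N))), 35, 1, 1, 2, 1⟩,
  ⟨fun A S X L P R M N m a b c d e f g h D => (A (A (A (L (R D 1792) 4294967295) (X c (L (R D 25600) 4294967295))) (S M (L (X 2147483648 (A 1 (X c 1))) N))) (S M (L (L (X 1 (A (A (L (R D 1792) 4294967295) (X c (L (R D 25600) 4294967295))) (S M (L (X 2147483648 (A 1 (X c 1))) N)))) N) N))), 35, 1, 1, 2, 1⟩,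
  ⟨fun A S X L P R M N m a b c d e f g h D => (A (A (L (X (L (X 1024 (A (A (L (R D 1824) 4294967295) (X c (L (R D 25632) 4294967295))) (S M (L (X 2147483648 (A 1 (X c 1))) N)))) N) e) N) (L (X (L (X 171 a) N) (A (A (L (R D 1920) 4294967295) (X c (L (R D 25728) 4294967295))) (S M (L (X 2147483648 (A 1 (X c 1))) N)))) N)) (S M (L (L (X 1 (A (L (X (L (X 1024 (A (A (L (R D 1824) 4294967295) (X c (L (R D 25632) 4294967295))) (S M (L (X 2147483648 (A 1 (X c 1))) N)))) N) e) N) (L (X (L (X 171 a) N) (A (A (L (R D 1920) 4294967295) (X c (L (R D 25728) 4294967295))) (S M (L (X 2147483648 (A 1 (X c 1))) N)))) N))) N) N))), 46, 2, 1, 2, 1⟩,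
  ⟨fun A S X L P R M N m a b c d e f g h D => (A (A (A (L (R D 1856) 4294967295) (X c (L (R D 25664) 4294967295))) (S M (L (X 2147483648 (A 1 (X c 1))) N))) (S M (L (L (X 1 (A (A (L (R D 1856) 4294967295) (X c (L (R D 25664) 4294967295))) (S M (L (X 2147483648 (A 1 (X c 1))) N)))) N) N))), 35, 1, 1, 2, 1⟩,
  ⟨fun A S X L P R M N m a b c d e f g h D => (A (A (A (L (R D 1888) 4294967295) (X c (L (R D 25696) 4294967295))) (S M (L (X 2147483648 (A 1 (X c 1))) N))) (S M (L (L (X 1 (A (A (L (R D 1888) 4294967295) (X c (L (R D 25696) 4294967295))) (S M (L (X 2147483648 (A 1 (X c 1))) N)))) N) N))), 35, 1, 1, 2, 1⟩,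
  ⟨fun A S X L P R M N m a b c d e f g h D => (A (L (X 33554432 (A (L (R D 3104) 4294967295) m)) N) (S M (L (A (L (X 33554432 (A (L (R D 26912) 4294967295) m)) N) (L (X 1 (L (X (L (R D 0) 4294967295) (A (A (L (R D 3296) 4294967295) m) (A (L (R D 27104) 4294967295) m))) N)) N)) N))), 66, 1, 1, 1, 1⟩,
  ⟨fun A S X L P R M N m a b c d e f g h D => (A (A (L (R D 2912) 4294967295) m) (S M (L (A (L (R D 3104) 4294967295) m) N))), 34, 1, 1, 1, 1⟩,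
  ⟨fun A S X L P R M N m a b c d e f g h D => (A (A (L (R D 26720) 4294967295) m) (S M (L (A (L (R D 26912) 4294967295) m) N))), 34, 1, 1, 1, 1⟩,
  ⟨fun A S X L P R M N m a b c d e f g h D => (A (L (X 16777216 (L (X 8 (A (A (L (R D 2912) 4294967295) m) (S M (L (A (L (R D 3104) 4294967295) m) N)))) N)) N) (S M (L (L (X (L (R D 0) 4294967295) (A (A (L (R D 27104) 4294967295) m) (S M (L (A (L (R D 3296) 4294967295) m) N)))) N) N))), 66, 1, 1, 1, 1⟩,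
  ⟨fun A S X L P R M N m a b c d e f g h D => (A (L (X 16777216 (L (X 8 (A (A (L (R D 26720) 4294967295) m) (S M (L (A (L (R D 26912) 4294967295) m) N)))) N)) N) (S M (L (L (X (L (R D 0) 4294967295) (A (A (L (R D 27104) 4294967295) m) (S M (L (A (L (R D 3296) 4294967295) m) N)))) N) N))), 66, 1, 1, 1, 1⟩,
  ⟨fun A S X L P R M N m a b c d e f g h D => (A (L (X 33554432 (A (L (R D 3136) 4294967295) m)) N) (S M (L (A (L (X 33554432 (A (L (R D 26944) 4294967295) m)) N) (L (X 1 (L (X (L (R D 0) 4294967295) (A (A (L (R D 3328) 4294967295) m) (A (L (R D 27136) 4294967295) m))) N)) N)) N))), 66, 1, 1, 1, 1⟩,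
  ⟨fun A S X L P R M N m a b c d e f g h D => (A (A (L (R D 2944) 4294967295) m) (S M (L (A (L (R D 3136) 4294967295) m) N))), 34, 1, 1, 1, 1⟩,
  ⟨fun A S X L P R M N m a b c d e f g h D => (A (A (L (R D 26752) 4294967295) m) (S M (L (A (L (R D 26944) 4294967295) m) N))), 34, 1, 1, 1, 1⟩,
  ⟨fun A S X L P R M N m a b c d e f g h D => (A (L (X 16777216 (L (X 8 (A (A (L (R D 2944) 4294967295) m) (S M (L (A (L (R D 3136) 4294967295) m) N)))) N)) N) (S M (L (L (X (L (R D 0) 4294967295) (A (A (L (R D 27136) 4294967295) m) (S M (L (A (L (R D 3328) 4294967295) m) N)))) N) N))), 66, 1, 1, 1, 1⟩,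
  ⟨fun A S X L P R M N m a b c d e f g h D => (A (L (X 16777216 (L (X 8 (A (A (L (R D 26752) 4294967295) m) (S M (L (A (L (R D 26944) 4294967295) m) N)))) N)) N) (S M (L (L (X (L (R D 0) 4294967295) (A (A (L (R D 27136) 4294967295) m) (S M (L (A (L (R D 3328) 4294967295) m) N)))) N) N))), 66, 1, 1, 1, 1⟩,
  ⟨fun A S X L P R M N m a b c d e f g h D => (A (L (X 33554432 (A (L (R D 3168) 4294967295) m)) N) (S M (L (A (L (X 33554432 (A (L (R D 26976) 4294967295) m)) N) (L (X 1 (L (X (L (R D 0) 4294967295) (A (A (L (R D 3360) 4294967295) m) (A (L (R D 27168) 4294967295) m))) N)) N)) N))), 66, 1, 1, 1, 1⟩,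
  ⟨fun A S X L P R M N m a b c d e f g h D => (A (A (L (R D 2976) 4294967295) m) (S M (L (A (L (R D 3168) 4294967295) m) N))), 34, 1, 1, 1, 1⟩,
  ⟨fun A S X L P R M N m a b c d e f g h D => (A (A (L (R D 26784) 4294967295) m) (S M (L (A (L (R D 26976) 4294967295) m) N))), 34, 1, 1, 1, 1⟩,
  ⟨fun A S X L P R M N m a b c d e f g h D => (A (L (X 16777216 (L (X 8 (A (A (L (R D 2976) 4294967295) m) (S M (L (A (L (R D 3168) 4294967295) m) N)))) N)) N) (S M (L (L (X (L (R D 0) 4294967295) (A (A (L (R D 27168) 4294967295) m) (S M (L (A (L (R D 3360) 4294967295) m) N)))) N) N))), 66, 1, 1, 1, 1⟩,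
  ⟨fun A S X L P R M N m a b c d e f g h D => (A (L (X 16777216 (L (X 8 (A (A (L (R D 26784) 4294967295) m) (S M (L (A (L (R D 26976) 4294967295) m) N)))) N)) N) (S M (L (L (X (L (R D 0) 4294967295) (A (A (L (R D 27168) 4294967295) m) (S M (L (A (L (R D 3360) 4294967295) m) N)))) N) N))), 66, 1, 1, 1, 1⟩,
  ⟨fun A S X L P R M N m a b c d e f g h D => (A (L (X 33554432 (A (L (R D 3200) 4294967295) m)) N) (S M (L (A (L (X 33554432 (A (L (R D 27008) 4294967295) m)) N) (L (X 1 (L (X (L (R D 0) 4294967295) (A (A (L (R D 3392) 4294967295) m) (A (L (R D 27200) 4294967295) m))) N)) N)) N))), 66, 1, 1, 1, 1⟩,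
  ⟨fun A S X L P R M N m a b c d e f g h D => (A (A (L (R D 3008) 4294967295) m) (S M (L (A (L (R D 3200) 4294967295) m) N))), 34, 1, 1, 1, 1⟩,
  ⟨fun A S X L P R M N m a b c d e f g h D => (A (A (L (R D 26816) 4294967295) m) (S M (L (A (L (R D 27008) 4294967295) m) N))), 34, 1, 1, 1, 1⟩,
  ⟨fun A S X L P R M N m a b c d e f g h D => (A (L (X 16777216 (L (X 8 (A (A (L (R D 3008) 4294967295) m) (S M (L (A (L (R D 3200) 4294967295) m) N)))) N)) N) (S M (L (L (X (L (R D 0) 4294967295) (A (A (L (R D 27200) 4294967295) m) (S M (L (A (L (R D 3392) 4294967295) m) N)))) N) N))), 66, 1, 1, 1, 1⟩,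
  ⟨fun A S X L P R M N m a b c d e f g h D => (A (L (X 16777216 (L (X 8 (A (A (L (R D 26816) 4294967295) m) (S M (L (A (L (R D 27008) 4294967295) m) N)))) N)) N) (S M (L (L (X (L (R D 0) 4294967295) (A (A (L (R D 27200) 4294967295) m) (S M (L (A (L (R D 3392) 4294967295) m) N)))) N) N))), 66, 1, 1, 1, 1⟩,
  ⟨fun A S X L P R M N m a b c d e f g h D => (A (L (X 33554432 (A (L (R D 3232) 4294967295) m)) N) (S M (L (A (L (X 33554432 (A (L (R D 27040) 4294967295) m)) N) (L (X 1 (L (X (L (R D 0) 4294967295) (A (A (L (R D 3424) 4294967295) m) (A (L (R D 27232) 4294967295) m))) N)) N)) N))), 66, 1, 1, 1, 1⟩,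
  ⟨fun A S X L P R M N m a b c d e f g h D => (A (A (L (R D 3040) 4294967295) m) (S M (L (A (L (R D 3232) 4294967295) m) N))), 34, 1, 1, 1, 1⟩,
  ⟨fun A S X L P R M N m a b c d e f g h D => (A (A (L (R D 26848) 4294967295) m) (S M (L (A (L (R D 27040) 4294967295) m) N))), 34, 1, 1, 1, 1⟩,
  ⟨fun A S X L P R M N m a b c d e f g h D => (A (L (X 16777216 (L (X 8 (A (A (L (R D 3040) 4294967295) m) (S M (L (A (L (R D 3232) 4294967295) m) N)))) N)) N) (S M (L (L (X (L (R D 0) 4294967295) (A (A (L (R D 27232) 4294967295) m) (S M (L (A (L (R D 3424) 4294967295) m) N)))) N) N))), 66, 1, 1, 1, 1⟩,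
  ⟨fun A S X L P R M N m a b c d e f g h D => (A (L (X 16777216 (L (X 8 (A (A (L (R D 26848) 4294967295) m) (S M (L (A (L (R D 27040) 4294967295) m) N)))) N)) N) (S M (L (L (X (L (R D 0) 4294967295) (A (A (L (R D 27232) 4294967295) m) (S M (L (A (L (R D 3424) 4294967295) m) N)))) N) N))), 66, 1, 1, 1, 1⟩,
  ⟨fun A S X L P R M N m a b c d e f g h D => (A (L (X 33554432 (A (L (R D 3264) 4294967295) m)) N) (S M (L (A (L (X 33554432 (A (L (R D 27072) 4294967295) m)) N) (L (X 1 (L (X (L (R D 0) 4294967295) (A (A (L (R D 3456) 4294967295) m) (A (L (R D 27264) 4294967295) m))) N)) N)) N))), 66, 1, 1, 1, 1⟩,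
  ⟨fun A S X L P R M N m a b c d e f g h D => (A (A (L (R D 3072) 4294967295) m) (S M (L (A (L (R D 3264) 4294967295) m) N))), 34, 1, 1, 1, 1⟩,
  ⟨fun A S X L P R M N m a b c d e f g h D => (A (A (L (R D 26880) 4294967295) m) (S M (L (A (L (R D 27072) 4294967295) m) N))), 34, 1, 1, 1, 1⟩,
  ⟨fun A S X L P R M N m a b c d e f g h D => (A (L (X 16777216 (L (X 8 (A (A (L (R D 3072) 4294967295) m) (S M (L (A (L (R D 3264) 4294967295) m) N)))) N)) N) (S M (L (L (X (L (R D 0) 4294967295) (A (A (L (R D 27264) 4294967295) m) (S M (L (A (L (R D 3456) 4294967295) m) N)))) N) N))), 66, 1, 1, 1, 1⟩,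
  ⟨fun A S X L P R M N m a b c d e f g h D => (A (L (X 16777216 (L (X 8 (A (A (L (R D 26880) 4294967295) m) (S M (L (A (L (R D 27072) 4294967295) m) N)))) N)) N) (S M (L (L (X (L (R D 0) 4294967295) (A (A (L (R D 27264) 4294967295) m) (S M (L (A (L (R D 3456) 4294967295) m) N)))) N) N))), 66, 1, 1, 1, 1⟩,
  ⟨fun A S X L P R M N m a b c d e f g h D => (A 1 (S M (L 1 N))), 2, 1, 1, 1, 1⟩,
  ⟨fun A S X L P R M N m a b c d e f g h D => (A 1 (S M (L 1 N))), 2, 1, 1, 1, 1⟩,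
  ⟨fun A S X L P R M N m a b c d e f g h D => (A (A (A (L (R D 2912) 4294967295) (X c (L (R D 26720) 4294967295))) (S M (L (X 2147483648 (A 1 (X c 1))) N))) (S M (L (L (X 1 (A (A (L (R D 2912) 4294967295) (X c (L (R D 26720) 4294967295))) (S M (L (X 2147483648 (A 1 (X c 1))) N)))) N) N))), 35, 1, 1, 2, 1⟩,
  ⟨fun A S X L P R M N m a b c d e f g h D => (A (A (A (L (R D 2944) 4294967295) (X c (L (R D 26752) 4294967295))) (S M (L (X 2147483648 (A 1 (X c 1))) N))) (S M (L (L (X 1 (A (A (L (R D 2944) 4294967295) (X c (L (R D 26752) 4294967295))) (S M (L (X 2147483648 (A 1 (X c 1))) N)))) N) N))), 35, 1, 1, 2, 1⟩,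
  ⟨fun A S X L P R M N m a b c d e f g h D => (A (A (L (X (L (X 1024 (A (A (L (R D 2976) 4294967295) (X c (L (R D 26784) 4294967295))) (S M (L (X 2147483648 (A 1 (X c 1))) N)))) N) e) N) (L (X (L (X 171 a) N) (A (A (L (R D 3072) 4294967295) (X c (L (R D 26880) 4294967295))) (S M (L (X 2147483648 (A 1 (X c 1))) N)))) N)) (S M (L (L (X 1 (A (L (X (L (X 1024 (A (A (L (R D 2976) 4294967295) (X c (L (R D 26784) 4294967295))) (S M (L (X 2147483648 (A 1 (X c 1))) N)))) N) e) N) (L (X (L (X 171 a) N) (A (A (L (R D 3072) 4294967295) (X c (L (R D 26880) 4294967295))) (S M (L (X 2147483648 (A 1 (X c 1))) N)))) N))) N) N))), 46, 2, 1, 2, 1⟩,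
  ⟨fun A S X L P R M N m a b c d e f g h D => (A (A (A (L (R D 3008) 4294967295) (X c (L (R D 26816) 4294967295))) (S M (L (X 2147483648 (A 1 (X c 1))) N))) (S M (L (L (X 1 (A (A (L (R D 3008) 4294967295) (X c (L (R D 26816) 4294967295))) (S M (L (X 2147483648 (A 1 (X c 1))) N)))) N) N))), 35, 1, 1, 2, 1⟩,
  ⟨fun A S X L P R M N m a b c d e f g h D => (A (A (A (L (R D 3040) 4294967295) (X c (L (R D 26848) 4294967295))) (S M (L (X 2147483648 (A 1 (X c 1))) N))) (S M (L (L (X 1 (A (A (L (R D 3040) 4294967295) (X c (L (R D 26848) 4294967295))) (S M (L (X 2147483648 (A 1 (X c 1))) N)))) N) N))), 35, 1, 1, 2, 1⟩,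
  ⟨fun A S X L P R M N m a b c d e f g h D => (A (L (X 33554432 (A (L (R D 2528) 4294967295) m)) N) (S M (L (A (L (X 33554432 (A (L (R D 26336) 4294967295) m)) N) (L (X 1 (L (X (L (R D 0) 4294967295) (A (A (L (R D 2720) 4294967295) m) (A (L (R D 26528) 4294967295) m))) N)) N)) N))), 66, 1, 1, 1, 1⟩,
  ⟨fun A S X L P R M N m a b c d e f g h D => (A (A (L (R D 2336) 4294967295) m) (S M (L (A (L (R D 2528) 4294967295) m) N))), 34, 1, 1, 1, 1⟩,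
  ⟨fun A S X L P R M N m a b c d e f g h D => (A (A (L (R D 26144) 4294967295) m) (S M (L (A (L (R D 26336) 4294967295) m) N))), 34, 1, 1, 1, 1⟩,
  ⟨fun A S X L P R M N m a b c d e f g h D => (A (L (X 16777216 (L (X 8 (A (A (L (R D 2336) 4294967295) m) (S M (L (A (L (R D 2528) 4294967295) m) N)))) N)) N) (S M (L (L (X (L (R D 0) 4294967295) (A (A (L (R D 26528) 4294967295) m) (S M (L (A (L (R D 2720) 4294967295) m) N)))) N) N))), 66, 1, 1, 1, 1⟩]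

theorem p1 : Pce Pool.Agent.RZ.RCO.SA.sheet 1488 150 1 (t1, f1) :=
  ⟨by decide +kernel, rfl, by decide +kernel⟩

end Pool.Agent.RZ.RCO.SAL
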