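import Pool.Agent.RZ.RCO.Gk13
import Pool.Agent.RZ.RCO.SA

/-! Types of a sheet, piece 2 (MP_73ccd0_lc). -/

set_option autoImplicit false
set_option maxRecDepth 100000
set_option linter.all false

namespace Pool.Agent.RZ.RCO.SAL

open Sg

noncomputable def t2 : List Ty :=
 [⟨(.sub (.mul (.c 16777216) (.mul (.c 8) (.sub (.s 0 817 1 1) (.s 0 823 1 1)))) (.mul (.r 0 0 1 1) (.sub (.s 0 829 1 1) (.s 0 85 1 1)))), 66, 1, 1, 1, 1⟩,
  ⟨(.sub (.mul (.c 33554432) (.s 0 80 1 1)) (.add (.mul (.c 33554432) (.s 0 824 1 1)) (.mul (.c 1) (.mul (.r 0 0 1 1) (.add (.s 0 86 1 1) (.s 0 830 1 1)))))), 66, 1, 1, 1, 1⟩,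
  ⟨(.sub (.s 0 74 1 1) (.s 0 80 1 1)), 34, 1, 1, 1, 1⟩,
  ⟨(.sub (.s 0 818 1 1) (.s 0 824 1 1)), 34, 1, 1, 1, 1⟩,
  ⟨(.sub (.mul (.c 16777216) (.mul (.c 8) (.sub (.s 0 74 1 1) (.s 0 80 1 1)))) (.mul (.r 0 0 1 1) (.sub (.s 0 830 1 1) (.s 0 86 1 1)))), 66, 1, 1, 1, 1⟩,
  ⟨(.sub (.mul (.c 16777216) (.mul (.c 8) (.sub (.s 0 818 1 1) (.s 0 824 1 1)))) (.mul (.r 0 0 1 1) (.sub (.s 0 830 1 1) (.s 0 86 1 1)))), 66, 1, 1, 1, 1⟩,
  ⟨(.sub (.mul (.c 33554432) (.s 0 81 1 1)) (.add (.mul (.c 33554432) (.s 0 825 1 1)) (.mul (.c 1) (.mul (.r 0 0 1 1) (.add (.s 0 87 1 1) (.s 0 831 1 1)))))), 66, 1, 1, 1, 1⟩,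
  ⟨(.sub (.s 0 75 1 1) (.s 0 81 1 1)), 34, 1, 1, 1, 1⟩,
  ⟨(.sub (.s 0 819 1 1) (.s 0 825 1 1)), 34, 1, 1, 1, 1⟩,
  ⟨(.sub (.mul (.c 16777216) (.mul (.c 8) (.sub (.s 0 75 1 1) (.s 0 81 1 1)))) (.mul (.r 0 0 1 1) (.sub (.s 0 831 1 1) (.s 0 87 1 1)))), 66, 1, 1, 1, 1⟩,
  ⟨(.sub (.mul (.c 16777216) (.mul (.c 8) (.sub (.s 0 819 1 1) (.s 0 825 1 1)))) (.mul (.r 0 0 1 1) (.sub (.s 0 831 1 1) (.s 0 87 1 1)))), 66, 1, 1, 1, 1⟩,
  ⟨(.sub (.mul (.c 33554432) (.s 0 82 1 1)) (.add (.mul (.c 33554432) (.s 0 826 1 1)) (.mul (.c 1) (.mul (.r 0 0 1 1) (.add (.s 0 88 1 1) (.s 0 832 1 1)))))), 66, 1, 1, 1, 1⟩,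
  ⟨(.sub (.s 0 76 1 1) (.s 0 82 1 1)), 34, 1, 1, 1, 1⟩,
  ⟨(.sub (.s 0 820 1 1) (.s 0 826 1 1)), 34, 1, 1, 1, 1⟩,
  ⟨(.sub (.mul (.c 16777216) (.mul (.c 8) (.sub (.s 0 76 1 1) (.s 0 82 1 1)))) (.mul (.r 0 0 1 1) (.sub (.s 0 832 1 1) (.s 0 88 1 1)))), 66, 1, 1, 1, 1⟩,
  ⟨(.sub (.mul (.c 16777216) (.mul (.c 8) (.sub (.s 0 820 1 1) (.s 0 826 1 1)))) (.mul (.r 0 0 1 1) (.sub (.s 0 832 1 1) (.s 0 88 1 1)))), 66, 1, 1, 1, 1⟩,
  ⟨(.sub (.mul (.c 33554432) (.s 0 83 1 1)) (.add (.mul (.c 33554432) (.s 0 827 1 1)) (.mul (.c 1) (.mul (.r 0 0 1 1) (.add (.s 0 89 1 1) (.s 0 833 1 1)))))), 66, 1, 1, 1, 1⟩,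
  ⟨(.sub (.s 0 77 1 1) (.s 0 83 1 1)), 34, 1, 1, 1, 1⟩,
  ⟨(.sub (.s 0 821 1 1) (.s 0 827 1 1)), 34, 1, 1, 1, 1⟩,
  ⟨(.sub (.mul (.c 16777216) (.mul (.c 8) (.sub (.s 0 77 1 1) (.s 0 83 1 1)))) (.mul (.r 0 0 1 1) (.sub (.s 0 833 1 1) (.s 0 89 1 1)))), 66, 1, 1, 1, 1⟩,
  ⟨(.sub (.mul (.c 16777216) (.mul (.c 8) (.sub (.s 0 821 1 1) (.s 0 827 1 1)))) (.mul (.r 0 0 1 1) (.sub (.s 0 833 1 1) (.s 0 89 1 1)))), 66, 1, 1, 1, 1⟩,
  ⟨(.sub (.mul (.c 33554432) (.s 0 84 1 1)) (.add (.mul (.c 33554432) (.s 0 828 1 1)) (.mul (.c 1) (.mul (.r 0 0 1 1) (.add (.s 0 90 1 1) (.s 0 834 1 1)))))), 66, 1, 1, 1, 1⟩,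
  ⟨(.sub (.s 0 78 1 1) (.s 0 84 1 1)), 34, 1, 1, 1, 1⟩,
  ⟨(.sub (.s 0 822 1 1) (.s 0 828 1 1)), 34, 1, 1, 1, 1⟩,
  ⟨(.sub (.mul (.c 16777216) (.mul (.c 8) (.sub (.s 0 78 1 1) (.s 0 84 1 1)))) (.mul (.r 0 0 1 1) (.sub (.s 0 834 1 1) (.s 0 90 1 1)))), 66, 1, 1, 1, 1⟩,
  ⟨(.sub (.mul (.c 16777216) (.mul (.c 8) (.sub (.s 0 822 1 1) (.s 0 828 1 1)))) (.mul (.r 0 0 1 1) (.sub (.s 0 834 1 1) (.s 0 90 1 1)))), 66, 1, 1, 1, 1⟩,
  ⟨(.sub (.c 1) (.c 1)), 2, 1, 1, 1, 1⟩,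
  ⟨(.sub (.c 1) (.c 1)), 2, 1, 1, 1, 1⟩,
  ⟨(.sub (.s 2 73 744 2) (.mul (.c 1) (.s 2 73 744 2))), 35, 1, 1, 2, 1⟩,
  ⟨(.sub (.s 2 74 744 2) (.mul (.c 1) (.s 2 74 744 2))), 35, 1, 1, 2, 1⟩,
  ⟨(.sub (.add (.mul (.mul (.c 1024) (.s 2 75 744 2)) (.w 0 1)) (.mul (.mul (.c 171) (.v 0)) (.s 2 78 744 2))) (.mul (.c 1) (.add (.mul (.mul (.c 1024) (.s 2 75 744 2)) (.w 0 1)) (.mul (.mul (.c 171) (.v 0)) (.s 2 78 744 2))))), 46, 2, 1, 2, 1⟩,
  ⟨(.sub (.s 2 76 744 2) (.mul (.c 1) (.s 2 76 744 2))), 35, 1, 1, 2, 1⟩,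
  ⟨(.sub (.s 2 77 744 2) (.mul (.c 1) (.s 2 77 744 2))), 35, 1, 1, 2, 1⟩,
  ⟨(.sub (.mul (.c 33554432) (.s 0 115 1 1)) (.add (.mul (.c 33554432) (.s 0 859 1 1)) (.mul (.c 1) (.mul (.r 0 0 1 1) (.add (.s 0 121 1 1) (.s 0 865 1 1)))))), 66, 1, 1, 1, 1⟩,
  ⟨(.sub (.s 0 109 1 1) (.s 0 115 1 1)), 34, 1, 1, 1, 1⟩,
  ⟨(.sub (.s 0 853 1 1) (.s 0 859 1 1)), 34, 1, 1, 1, 1⟩,
  ⟨(.sub (.mul (.c 16777216) (.mul (.c 8) (.sub (.s 0 109 1 1) (.s 0 115 1 1)))) (.mul (.r 0 0 1 1) (.sub (.s 0 865 1 1) (.s 0 121 1 1)))), 66, 1, 1, 1, 1⟩,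
  ⟨(.sub (.mul (.c 16777216) (.mul (.c 8) (.sub (.s 0 853 1 1) (.s 0 859 1 1)))) (.mul (.r 0 0 1 1) (.sub (.s 0 865 1 1) (.s 0 121 1 1)))), 66, 1, 1, 1, 1⟩,
  ⟨(.sub (.mul (.c 33554432) (.s 0 116 1 1)) (.add (.mul (.c 33554432) (.s 0 860 1 1)) (.mul (.c 1) (.mul (.r 0 0 1 1) (.add (.s 0 122 1 1) (.s 0 866 1 1)))))), 66, 1, 1, 1, 1⟩,
  ⟨(.sub (.s 0 110 1 1) (.s 0 116 1 1)), 34, 1, 1, 1, 1⟩,
  ⟨(.sub (.s 0 854 1 1) (.s 0 860 1 1)), 34, 1, 1, 1, 1⟩,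
  ⟨(.sub (.mul (.c 16777216) (.mul (.c 8) (.sub (.s 0 110 1 1) (.s 0 116 1 1)))) (.mul (.r 0 0 1 1) (.sub (.s 0 866 1 1) (.s 0 122 1 1)))), 66, 1, 1, 1, 1⟩,
  ⟨(.sub (.mul (.c 16777216) (.mul (.c 8) (.sub (.s 0 854 1 1) (.s 0 860 1 1)))) (.mul (.r 0 0 1 1) (.sub (.s 0 866 1 1) (.s 0 122 1 1)))), 66, 1, 1, 1, 1⟩,
  ⟨(.sub (.mul (.c 33554432) (.s 0 117 1 1)) (.add (.mul (.c 33554432) (.s 0 861 1 1)) (.mul (.c 1) (.mul (.r 0 0 1 1) (.add (.s 0 123 1 1) (.s 0 867 1 1)))))), 66, 1, 1, 1, 1⟩,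
  ⟨(.sub (.s 0 111 1 1) (.s 0 117 1 1)), 34, 1, 1, 1, 1⟩,
  ⟨(.sub (.s 0 855 1 1) (.s 0 861 1 1)), 34, 1, 1, 1, 1⟩,
  ⟨(.sub (.mul (.c 16777216) (.mul (.c 8) (.sub (.s 0 111 1 1) (.s 0 117 1 1)))) (.mul (.r 0 0 1 1) (.sub (.s 0 867 1 1) (.s 0 123 1 1)))), 66, 1, 1, 1, 1⟩,
  ⟨(.sub (.mul (.c 16777216) (.mul (.c 8) (.sub (.s 0 855 1 1) (.s 0 861 1 1)))) (.mul (.r 0 0 1 1) (.sub (.s 0 867 1 1) (.s 0 123 1 1)))), 66, 1, 1, 1, 1⟩,
  ⟨(.sub (.mul (.c 33554432) (.s 0 118 1 1)) (.add (.mul (.c 33554432) (.s 0 862 1 1)) (.mul (.c 1) (.mul (.r 0 0 1 1) (.add (.s 0 124 1 1) (.s 0 868 1 1)))))), 66, 1, 1, 1, 1⟩,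
  ⟨(.sub (.s 0 112 1 1) (.s 0 118 1 1)), 34, 1, 1, 1, 1⟩,
  ⟨(.sub (.s 0 856 1 1) (.s 0 862 1 1)), 34, 1, 1, 1, 1⟩,
  ⟨(.sub (.mul (.c 16777216) (.mul (.c 8) (.sub (.s 0 112 1 1) (.s 0 118 1 1)))) (.mul (.r 0 0 1 1) (.sub (.s 0 868 1 1) (.s 0 124 1 1)))), 66, 1, 1, 1, 1⟩,
  ⟨(.sub (.mul (.c 16777216) (.mul (.c 8) (.sub (.s 0 856 1 1) (.s 0 862 1 1)))) (.mul (.r 0 0 1 1) (.sub (.s 0 868 1 1) (.s 0 124 1 1)))), 66, 1, 1, 1, 1⟩,
  ⟨(.sub (.mul (.c 33554432) (.s 0 119 1 1)) (.add (.mul (.c 33554432) (.s 0 863 1 1)) (.mul (.c 1) (.mul (.r 0 0 1 1) (.add (.s 0 125 1 1) (.s 0 869 1 1)))))), 66, 1, 1, 1, 1⟩,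
  ⟨(.sub (.s 0 113 1 1) (.s 0 119 1 1)), 34, 1, 1, 1, 1⟩,
  ⟨(.sub (.s 0 857 1 1) (.s 0 863 1 1)), 34, 1, 1, 1, 1⟩,
  ⟨(.sub (.mul (.c 16777216) (.mul (.c 8) (.sub (.s 0 113 1 1) (.s 0 119 1 1)))) (.mul (.r 0 0 1 1) (.sub (.s 0 869 1 1) (.s 0 125 1 1)))), 66, 1, 1, 1, 1⟩,
  ⟨(.sub (.mul (.c 16777216) (.mul (.c 8) (.sub (.s 0 857 1 1) (.s 0 863 1 1)))) (.mul (.r 0 0 1 1) (.sub (.s 0 869 1 1) (.s 0 125 1 1)))), 66, 1, 1, 1, 1⟩,
  ⟨(.sub (.mul (.c 33554432) (.s 0 120 1 1)) (.add (.mul (.c 33554432) (.s 0 864 1 1)) (.mul (.c 1) (.mul (.r 0 0 1 1) (.add (.s 0 126 1 1) (.s 0 870 1 1)))))), 66, 1, 1, 1, 1⟩,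
  ⟨(.sub (.s 0 114 1 1) (.s 0 120 1 1)), 34, 1, 1, 1, 1⟩,
  ⟨(.sub (.s 0 858 1 1) (.s 0 864 1 1)), 34, 1, 1, 1, 1⟩,
  ⟨(.sub (.mul (.c 16777216) (.mul (.c 8) (.sub (.s 0 114 1 1) (.s 0 120 1 1)))) (.mul (.r 0 0 1 1) (.sub (.s 0 870 1 1) (.s 0 126 1 1)))), 66, 1, 1, 1, 1⟩,
  ⟨(.sub (.mul (.c 16777216) (.mul (.c 8) (.sub (.s 0 858 1 1) (.s 0 864 1 1)))) (.mul (.r 0 0 1 1) (.sub (.s 0 870 1 1) (.s 0 126 1 1)))), 66, 1, 1, 1, 1⟩,
  ⟨(.sub (.c 1) (.c 1)), 2, 1, 1, 1, 1⟩,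
  ⟨(.sub (.c 1) (.c 1)), 2, 1, 1, 1, 1⟩,
  ⟨(.sub (.s 2 109 744 2) (.mul (.c 1) (.s 2 109 744 2))), 35, 1, 1, 2, 1⟩,
  ⟨(.sub (.s 2 110 744 2) (.mul (.c 1) (.s 2 110 744 2))), 35, 1, 1, 2, 1⟩,
  ⟨(.sub (.add (.mul (.mul (.c 1024) (.s 2 111 744 2)) (.w 0 1)) (.mul (.mul (.c 171) (.v 0)) (.s 2 114 744 2))) (.mul (.c 1) (.add (.mul (.mul (.c 1024) (.s 2 111 744 2)) (.w 0 1)) (.mul (.mul (.c 171) (.v 0)) (.s 2 114 744 2))))), 46, 2, 1, 2, 1⟩,
  ⟨(.sub (.s 2 112 744 2) (.mul (.c 1) (.s 2 112 744 2))), 35, 1, 1, 2, 1⟩,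
  ⟨(.sub (.s 2 113 744 2) (.mul (.c 1) (.s 2 113 744 2))), 35, 1, 1, 2, 1⟩,
  ⟨(.sub (.add (.r 0 1 1 1) (.r 0 0 1 1)) (.r 0 745 1 1)), 34, 1, 1, 1, 1⟩,
  ⟨(.sub (.r 0 745 1 1) (.add (.r 0 1 1 1) (.r 0 0 1 1))), 34, 1, 1, 1, 1⟩,
  ⟨(.sub (.mul (.mul (.mul (.c 26959946667150639794667015087019630673637144422540572481103610249216) (.add (.mul (.mul (.c 4294967296) (.r 2 2 744 2)) (.w 1 2)) (.mul (.mul (.c 5462) (.v 1)) (.add (.mul (.mul (.c 65536) (.r 2 3 744 2)) (.w 1 1)) (.mul (.mul (.c 5462) (.v 1)) (.r 2 4 744 2)))))) (.w 1 2)) (.w 2 7)) (.add (.mul (.mul (.mul (.c 1942668892225729070919461906823518906642406839052139521251812409738904285205208498176) (.c 1)) (.w 1 4)) (.w 2 8)) (.mul (.mul (.c 5462) (.v 1)) (.add (.mul (.mul (.c 281474976710656) (.add (.mul (.mul (.c 6277101735386680763835789423207666416102355444464034512896) (.sub (.c 0) (.c 32347428))) (.w 2 8)) (.mul (.add (.mul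 (.r 0 1 1 1) (.w 2 1)) (.mul (.v 2) (.r 0 0 1 1))) (.add (.mul (.mul (.c 374144419156711147060143317175368453031918731001856) (.c 144886159)) (.w 2 7)) (.mul (.add (.mul (.r 0 1 1 1) (.w 2 1)) (.mul (.v 2) (.r 0 0 1 1))) (.add (.mul (.mul (.c 22300745198530623141535718272648361505980416) (.sub (.c 0) (.c 134868214))) (.w 2 6)) (.mul (.add (.mul (.r 0 1 1 1) (.w 2 1)) (.mul (.v 2) (.r 0 0 1 1))) (.add (.mul (.mul (.c 1329227995784915872903807060280344576) (.c 126637514)) (.w 2 5)) (.mul (.add (.mul (.r 0 1 1 1) (.w 2 1)) (.mul (.v 2) (.r 0 0 1 1))) (.add (.mul (.mul (.c 79228162514264337593543950336) (.sub (.c 0) (.c 851980415))) (.w 2 4)) (.mul (.add (.mul (.r 0 1 1 1) (.w 2 1)) (.mul (.v 2) (.r 0 0 1 1))) (.add (.mul (.mul (.c 4722366482869645213696) (.c 1936980188)) (.w 2 3)) (.mul (.add (.mul (.r 0 1 1 1) (.w 2 1)) (.mul (.v 2) (.r 0 0 1 1))) (.add (.mul (.mul (.c 281474976710656)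 (.sub (.c 0) (.c 1646722203))) (.w 2 2)) (.mul (.add (.mul (.r 0 1 1 1) (.w 2 1)) (.mul (.v 2) (.r 0 0 1 1))) (.add (.mul (.mul (.c 16777216) (.c 418469938)) (.w 2 1)) (.mul (.add (.mul (.r 0 1 1 1) (.w 2 1)) (.mul (.v 2) (.r 0 0 1 1))) (.c 55711363)))))))))))))))))) (.w 1 3)) (.mul (.mul (.c 5462) (.v 1)) (.add (.mul (.mul (.c 4294967296) (.add (.mul (.mul (.c 6277101735386680763835789423207666416102355444464034512896) (.c 29321272)) (.w 2 8)) (.mul (.add (.mul (.r 0 1 1 1) (.w 2 1)) (.mul (.v 2) (.r 0 0 1 1))) (.add (.mul (.mul (.c 374144419156711147060143317175368453031918731001856) (.sub (.c 0) (.c 282616766))) (.w 2 7)) (.mul (.add (.mul (.r 0 1 1 1) (.w 2 1)) (.mul (.v 2) (.r 0 0 1 1))) (.add (.mul (.mul (.c 22300745198530623141535718272648361505980416) (.c 778835411)) (.w 2 6)) (.mul (.add (.mul (.r 0 1 1 1) (.w 2 1)) (.mul (.v 2) (.r 0 0 1 1))) (.add (.mul (.mul (.c 1329227995784915872903807060280344576)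 (.sub (.c 0) (.c 603508940))) (.w 2 5)) (.mul (.add (.mul (.r 0 1 1 1) (.w 2 1)) (.mul (.v 2) (.r 0 0 1 1))) (.add (.mul (.mul (.c 79228162514264337593543950336) (.sub (.c 0) (.c 476005185))) (.w 2 4)) (.mul (.add (.mul (.r 0 1 1 1) (.w 2 1)) (.mul (.v 2) (.r 0 0 1 1))) (.add (.mul (.mul (.c 4722366482869645213696) (.c 433686202)) (.w 2 3)) (.mul (.add (.mul (.r 0 1 1 1) (.w 2 1)) (.mul (.v 2) (.r 0 0 1 1))) (.add (.mul (.mul (.c 281474976710656) (.c 1004822900)) (.w 2 2)) (.mul (.add (.mul (.r 0 1 1 1) (.w 2 1)) (.mul (.v 2) (.r 0 0 1 1))) (.add (.mul (.mul (.c 16777216) (.sub (.c 0) (.c 1258909943))) (.w 2 1)) (.mul (.add (.mul (.r 0 1 1 1) (.w 2 1)) (.mul (.v 2) (.r 0 0 1 1))) (.c 385470983)))))))))))))))))) (.w 1 2)) (.mul (.mul (.c 5462) (.v 1)) (.add (.mul (.mul (.c 65536) (.add (.mul (.mul (.c 6277101735386680763835789423207666416102355444464034512896) (.sub (.c 0) (.c 11589767)))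 (.w 2 8)) (.mul (.add (.mul (.r 0 1 1 1) (.w 2 1)) (.mul (.v 2) (.r 0 0 1 1))) (.add (.mul (.mul (.c 374144419156711147060143317175368453031918731001856) (.c 205253669)) (.w 2 7)) (.mul (.add (.mul (.r 0 1 1 1) (.w 2 1)) (.mul (.v 2) (.r 0 0 1 1))) (.add (.mul (.mul (.c 22300745198530623141535718272648361505980416) (.sub (.c 0) (.c 816767756))) (.w 2 6)) (.mul (.add (.mul (.r 0 1 1 1) (.w 2 1)) (.mul (.v 2) (.r 0 0 1 1))) (.add (.mul (.mul (.c 1329227995784915872903807060280344576) (.c 232368737)) (.w 2 5)) (.mul (.add (.mul (.r 0 1 1 1) (.w 2 1)) (.mul (.v 2) (.r 0 0 1 1))) (.add (.mul (.mul (.c 79228162514264337593543950336) (.c 5662650307)) (.w 2 4)) (.mul (.add (.mul (.r 0 1 1 1) (.w 2 1)) (.mul (.v 2) (.r 0 0 1 1))) (.add (.mul (.mul (.c 4722366482869645213696) (.sub (.c 0) (.c 15425267266))) (.w 2 3)) (.mul (.add (.mul (.r 0 1 1 1) (.w 2 1)) (.mul (.v 2) (.r 0 0 1 1))) (.add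 (.mul (.mul (.c 281474976710656) (.c 18165091934)) (.w 2 2)) (.mul (.add (.mul (.r 0 1 1 1) (.w 2 1)) (.mul (.v 2) (.r 0 0 1 1))) (.add (.mul (.mul (.c 16777216) (.sub (.c 0) (.c 10269434308))) (.w 2 1)) (.mul (.add (.mul (.r 0 1 1 1) (.w 2 1)) (.mul (.v 2) (.r 0 0 1 1))) (.c 2262492672)))))))))))))))))) (.w 1 1)) (.mul (.mul (.c 5462) (.v 1)) (.add (.mul (.mul (.c 6277101735386680763835789423207666416102355444464034512896) (.sub (.c 0) (.c 107323))) (.w 2 8)) (.mul (.add (.mul (.r 0 1 1 1) (.w 2 1)) (.mul (.v 2) (.r 0 0 1 1))) (.add (.mul (.mul (.c 374144419156711147060143317175368453031918731001856) (.sub (.c 0) (.c 58222308))) (.w 2 7)) (.mul (.add (.mul (.r 0 1 1 1) (.w 2 1)) (.mul (.v 2) (.r 0 0 1 1))) (.add (.mul (.mul (.c 22300745198530623141535718272648361505980416) (.c 348335136)) (.w 2 6)) (.mul (.add (.mul (.r 0 1 1 1) (.w 2 1)) (.mul (.v 2) (.r 0 0 1 1))) (.add (.mul (.mul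 (.c 1329227995784915872903807060280344576) (.sub (.c 0) (.c 47390534))) (.w 2 5)) (.mul (.add (.mul (.r 0 1 1 1) (.w 2 1)) (.mul (.v 2) (.r 0 0 1 1))) (.add (.mul (.mul (.c 79228162514264337593543950336) (.sub (.c 0) (.c 4324554251))) (.w 2 4)) (.mul (.add (.mul (.r 0 1 1 1) (.w 2 1)) (.mul (.v 2) (.r 0 0 1 1))) (.add (.mul (.mul (.c 4722366482869645213696) (.c 13898599801)) (.w 2 3)) (.mul (.add (.mul (.r 0 1 1 1) (.w 2 1)) (.mul (.v 2) (.r 0 0 1 1))) (.add (.mul (.mul (.c 281474976710656) (.sub (.c 0) (.c 19566930469))) (.w 2 2)) (.mul (.add (.mul (.r 0 1 1 1) (.w 2 1)) (.mul (.v 2) (.r 0 0 1 1))) (.add (.mul (.mul (.c 16777216) (.c 13306455210)) (.w 2 1)) (.mul (.add (.mul (.r 0 1 1 1) (.w 2 1)) (.mul (.v 2) (.r 0 0 1 1))) (.sub (.c 0) (.c 3541514823))))))))))))))))))))))))))), 359, 1, 5, 9, 1⟩]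

noncomputable def f2 : List Tc :=
 [⟨fun A S X L P R M N m a b c d e f g h D => (A (L (X 16777216 (L (X 8 (A (A (L (R D 26144) 4294967295) m) (S M (L (A (L (R D 26336) 4294967295) m) N)))) N)) N) (S M (L (L (X (L (R D 0) 4294967295) (A (A (L (R D 26528) 4294967295) m) (S M (L (A (L (R D 2720) 4294967295) m) N)))) N) N))), 66, 1, 1, 1, 1⟩,
  ⟨fun A S X L P R M N m a b c d e f g h D => (A (L (X 33554432 (A (L (R D 2560) 4294967295) m)) N) (S M (L (A (L (X 33554432 (A (L (R D 26368) 4294967295) m)) N) (L (X 1 (L (X (L (R D 0) 4294967295) (A (A (L (R D 2752) 4294967295) m) (A (L (R D 26560) 4294967295) m))) N)) N)) N))), 66, 1, 1, 1, 1⟩,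
  ⟨fun A S X L P R M N m a b c d e f g h D => (A (A (L (R D 2368) 4294967295) m) (S M (L (A (L (R D 2560) 4294967295) m) N))), 34, 1, 1, 1, 1⟩,
  ⟨fun A S X L P R M N m a b c d e f g h D => (A (A (L (R D 26176) 4294967295) m) (S M (L (A (L (R D 26368) 4294967295) m) N))), 34, 1, 1, 1, 1⟩,
  ⟨fun A S X L P R M N m a b c d e f g h D => (A (L (X 16777216 (L (X 8 (A (A (L (R D 2368) 4294967295) m) (S M (L (A (L (R D 2560) 4294967295) m) N)))) N)) N) (S M (L (L (X (L (R D 0) 4294967295) (A (A (L (R D 26560) 4294967295) m) (S M (L (A (L (R D 2752) 4294967295) m) N)))) N) N))), 66, 1, 1, 1, 1⟩,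
  ⟨fun A S X L P R M N m a b c d e f g h D => (A (L (X 16777216 (L (X 8 (A (A (L (R D 26176) 4294967295) m) (S M (L (A (L (R D 26368) 4294967295) m) N)))) N)) N) (S M (L (L (X (L (R D 0) 4294967295) (A (A (L (R D 26560) 4294967295) m) (S M (L (A (L (R D 2752) 4294967295) m) N)))) N) N))), 66, 1, 1, 1, 1⟩,
  ⟨fun A S X L P R M N m a b c d e f g h D => (A (L (X 33554432 (A (L (R D 2592) 4294967295) m)) N) (S M (L (A (L (X 33554432 (A (L (R D 26400) 4294967295) m)) N) (L (X 1 (L (X (L (R D 0) 4294967295) (A (A (L (R D 2784) 4294967295) m) (A (L (R D 26592) 4294967295) m))) N)) N)) N))), 66, 1, 1, 1, 1⟩,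
  ⟨fun A S X L P R M N m a b c d e f g h D => (A (A (L (R D 2400) 4294967295) m) (S M (L (A (L (R D 2592) 4294967295) m) N))), 34, 1, 1, 1, 1⟩,
  ⟨fun A S X L P R M N m a b c d e f g h D => (A (A (L (R D 26208) 4294967295) m) (S M (L (A (L (R D 26400) 4294967295) m) N))), 34, 1, 1, 1, 1⟩,
  ⟨fun A S X L P R M N m a b c d e f g h D => (A (L (X 16777216 (L (X 8 (A (A (L (R D 2400) 4294967295) m) (S M (L (A (L (R D 2592) 4294967295) m) N)))) N)) N) (S M (L (L (X (L (R D 0) 4294967295) (A (A (L (R D 26592) 4294967295) m) (S M (L (A (L (R D 2784) 4294967295) m) N)))) N) N))), 66, 1, 1, 1, 1⟩,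
  ⟨fun A S X L P R M N m a b c d e f g h D => (A (L (X 16777216 (L (X 8 (A (A (L (R D 26208) 4294967295) m) (S M (L (A (L (R D 26400) 4294967295) m) N)))) N)) N) (S M (L (L (X (L (R D 0) 4294967295) (A (A (L (R D 26592) 4294967295) m) (S M (L (A (L (R D 2784) 4294967295) m) N)))) N) N))), 66, 1, 1, 1, 1⟩,
  ⟨fun A S X L P R M N m a b c d e f g h D => (A (L (X 33554432 (A (L (R D 2624) 4294967295) m)) N) (S M (L (A (L (X 33554432 (A (L (R D 26432) 4294967295) m)) N) (L (X 1 (L (X (L (R D 0) 4294967295) (A (A (L (R D 2816) 4294967295) m) (A (L (R D 26624) 4294967295) m))) N)) N)) N))), 66, 1, 1, 1, 1⟩,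
  ⟨fun A S X L P R M N m a b c d e f g h D => (A (A (L (R D 2432) 4294967295) m) (S M (L (A (L (R D 2624) 4294967295) m) N))), 34, 1, 1, 1, 1⟩,
  ⟨fun A S X L P R M N m a b c d e f g h D => (A (A (L (R D 26240) 4294967295) m) (S M (L (A (L (R D 26432) 4294967295) m) N))), 34, 1, 1, 1, 1⟩,
  ⟨fun A S X L P R M N m a b c d e f g h D => (A (L (X 16777216 (L (X 8 (A (A (L (R D 2432) 4294967295) m) (S M (L (A (L (R D 2624) 4294967295) m) N)))) N)) N) (S M (L (L (X (L (R D 0) 4294967295) (A (A (L (R D 26624) 4294967295) m) (S M (L (A (L (R D 2816) 4294967295) m) N)))) N) N))), 66, 1, 1, 1, 1⟩,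
  ⟨fun A S X L P R M N m a b c d e f g h D => (A (L (X 16777216 (L (X 8 (A (A (L (R D 26240) 4294967295) m) (S M (L (A (L (R D 26432) 4294967295) m) N)))) N)) N) (S M (L (L (X (L (R D 0) 4294967295) (A (A (L (R D 26624) 4294967295) m) (S M (L (A (L (R D 2816) 4294967295) m) N)))) N) N))), 66, 1, 1, 1, 1⟩,
  ⟨fun A S X L P R M N m a b c d e f g h D => (A (L (X 33554432 (A (L (R D 2656) 4294967295) m)) N) (S M (L (A (L (X 33554432 (A (L (R D 26464) 4294967295) m)) N) (L (X 1 (L (X (L (R D 0) 4294967295) (A (A (L (R D 2848) 4294967295) m) (A (L (R D 26656) 4294967295) m))) N)) N)) N))), 66, 1, 1, 1, 1⟩,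
  ⟨fun A S X L P R M N m a b c d e f g h D => (A (A (L (R D 2464) 4294967295) m) (S M (L (A (L (R D 2656) 4294967295) m) N))), 34, 1, 1, 1, 1⟩,
  ⟨fun A S X L P R M N m a b c d e f g h D => (A (A (L (R D 26272) 4294967295) m) (S M (L (A (L (R D 26464) 4294967295) m) N))), 34, 1, 1, 1, 1⟩,
  ⟨fun A S X L P R M N m a b c d e f g h D => (A (L (X 16777216 (L (X 8 (A (A (L (R D 2464) 4294967295) m) (S M (L (A (L (R D 2656) 4294967295) m) N)))) N)) N) (S M (L (L (X (L (R D 0) 4294967295) (A (A (L (R D 26656) 4294967295) m) (S M (L (A (L (R D 2848) 4294967295) m) N)))) N) N))), 66, 1, 1, 1, 1⟩,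
  ⟨fun A S X L P R M N m a b c d e f g h D => (A (L (X 16777216 (L (X 8 (A (A (L (R D 26272) 4294967295) m) (S M (L (A (L (R D 26464) 4294967295) m) N)))) N)) N) (S M (L (L (X (L (R D 0) 4294967295) (A (A (L (R D 26656) 4294967295) m) (S M (L (A (L (R D 2848) 4294967295) m) N)))) N) N))), 66, 1, 1, 1, 1⟩,
  ⟨fun A S X L P R M N m a b c d e f g h D => (A (L (X 33554432 (A (L (R D 2688) 4294967295) m)) N) (S M (L (A (L (X 33554432 (A (L (R D 26496) 4294967295) m)) N) (L (X 1 (L (X (L (R D 0) 4294967295) (A (A (L (R D 2880) 4294967295) m) (A (L (R D 26688) 4294967295) m))) N)) N)) N))), 66, 1, 1, 1, 1⟩,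
  ⟨fun A S X L P R M N m a b c d e f g h D => (A (A (L (R D 2496) 4294967295) m) (S M (L (A (L (R D 2688) 4294967295) m) N))), 34, 1, 1, 1, 1⟩,
  ⟨fun A S X L P R M N m a b c d e f g h D => (A (A (L (R D 26304) 4294967295) m) (S M (L (A (L (R D 26496) 4294967295) m) N))), 34, 1, 1, 1, 1⟩,
  ⟨fun A S X L P R M N m a b c d e f g h D => (A (L (X 16777216 (L (X 8 (A (A (L (R D 2496) 4294967295) m) (S M (L (A (L (R D 2688) 4294967295) m) N)))) N)) N) (S M (L (L (X (L (R D 0) 4294967295) (A (A (L (R D 26688) 4294967295) m) (S M (L (A (L (R D 2880) 4294967295) m) N)))) N) N))), 66, 1, 1, 1, 1⟩,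
  ⟨fun A S X L P R M N m a b c d e f g h D => (A (L (X 16777216 (L (X 8 (A (A (L (R D 26304) 4294967295) m) (S M (L (A (L (R D 26496) 4294967295) m) N)))) N)) N) (S M (L (L (X (L (R D 0) 4294967295) (A (A (L (R D 26688) 4294967295) m) (S M (L (A (L (R D 2880) 4294967295) m) N)))) N) N))), 66, 1, 1, 1, 1⟩,
  ⟨fun A S X L P R M N m a b c d e f g h D => (A 1 (S M (L 1 N))), 2, 1, 1, 1, 1⟩,
  ⟨fun A S X L P R M N m a b c d e f g h D => (A 1 (S M (L 1 N))), 2, 1, 1, 1, 1⟩,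
  ⟨fun A S X L P R M N m a b c d e f g h D => (A (A (A (L (R D 2336) 4294967295) (X c (L (R D 26144) 4294967295))) (S M (L (X 2147483648 (A 1 (X c 1))) N))) (S M (L (L (X 1 (A (A (L (R D 2336) 4294967295) (X c (L (R D 26144) 4294967295))) (S M (L (X 2147483648 (A 1 (X c 1))) N)))) N) N))), 35, 1, 1, 2, 1⟩,
  ⟨fun A S X L P R M N m a b c d e f g h D => (A (A (A (L (R D 2368) 4294967295) (X c (L (R D 26176) 4294967295))) (S M (L (X 2147483648 (A 1 (X c 1))) N))) (S M (L (L (X 1 (A (A (L (R D 2368) 4294967295) (X c (L (R D 26176) 4294967295))) (S M (L (X 2147483648 (A 1 (X c 1))) N)))) N) N))), 35, 1, 1, 2, 1⟩,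
  ⟨fun A S X L P R M N m a b c d e f g h D => (A (A (L (X (L (X 1024 (A (A (L (R D 2400) 4294967295) (X c (L (R D 26208) 4294967295))) (S M (L (X 2147483648 (A 1 (X c 1))) N)))) N) e) N) (L (X (L (X 171 a) N) (A (A (L (R D 2496) 4294967295) (X c (L (R D 26304) 4294967295))) (S M (L (X 2147483648 (A 1 (X c 1))) N)))) N)) (S M (L (L (X 1 (A (L (X (L (X 1024 (A (A (L (R D 2400) 4294967295) (X c (L (R D 26208) 4294967295))) (S M (L (X 2147483648 (A 1 (X c 1))) N)))) N) e) N) (L (X (L (X 171 a) N) (A (A (L (R D 2496) 4294967295) (X c (L (R D 26304) 4294967295))) (S M (L (X 2147483648 (A 1 (X c 1))) N)))) N))) N) N))), 46, 2, 1, 2, 1⟩,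
  ⟨fun A S X L P R M N m a b c d e f g h D => (A (A (A (L (R D 2432) 4294967295) (X c (L (R D 26240) 4294967295))) (S M (L (X 2147483648 (A 1 (X c 1))) N))) (S M (L (L (X 1 (A (A (L (R D 2432) 4294967295) (X c (L (R D 26240) 4294967295))) (S M (L (X 2147483648 (A 1 (X c 1))) N)))) N) N))), 35, 1, 1, 2, 1⟩,
  ⟨fun A S X L P R M N m a b c d e f g h D => (A (A (A (L (R D 2464) 4294967295) (X c (L (R D 26272) 4294967295))) (S M (L (X 2147483648 (A 1 (X c 1))) N))) (S M (L (L (X 1 (A (A (L (R D 2464) 4294967295) (X c (L (R D 26272) 4294967295))) (S M (L (X 2147483648 (A 1 (X c 1))) N)))) N) N))), 35, 1, 1, 2, 1⟩,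
  ⟨fun A S X L P R M N m a b c d e f g h D => (A (L (X 33554432 (A (L (R D 3680) 4294967295) m)) N) (S M (L (A (L (X 33554432 (A (L (R D 27488) 4294967295) m)) N) (L (X 1 (L (X (L (R D 0) 4294967295) (A (A (L (R D 3872) 4294967295) m) (A (L (R D 27680) 4294967295) m))) N)) N)) N))), 66, 1, 1, 1, 1⟩,
  ⟨fun A S X L P R M N m a b c d e f g h D => (A (A (L (R D 3488) 4294967295) m) (S M (L (A (L (R D 3680) 4294967295) m) N))), 34, 1, 1, 1, 1⟩,
  ⟨fun A S X L P R M N m a b c d e f g h D => (A (A (L (R D 27296) 4294967295) m) (S M (L (A (L (R D 27488) 4294967295) m) N))), 34, 1, 1, 1, 1⟩,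
  ⟨fun A S X L P R M N m a b c d e f g h D => (A (L (X 16777216 (L (X 8 (A (A (L (R D 3488) 4294967295) m) (S M (L (A (L (R D 3680) 4294967295) m) N)))) N)) N) (S M (L (L (X (L (R D 0) 4294967295) (A (A (L (R D 27680) 4294967295) m) (S M (L (A (L (R D 3872) 4294967295) m) N)))) N) N))), 66, 1, 1, 1, 1⟩,
  ⟨fun A S X L P R M N m a b c d e f g h D => (A (L (X 16777216 (L (X 8 (A (A (L (R D 27296) 4294967295) m) (S M (L (A (L (R D 27488) 4294967295) m) N)))) N)) N) (S M (L (L (X (L (R D 0) 4294967295) (A (A (L (R D 27680) 4294967295) m) (S M (L (A (L (R D 3872) 4294967295) m) N)))) N) N))), 66, 1, 1, 1, 1⟩,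
  ⟨fun A S X L P R M N m a b c d e f g h D => (A (L (X 33554432 (A (L (R D 3712) 4294967295) m)) N) (S M (L (A (L (X 33554432 (A (L (R D 27520) 4294967295) m)) N) (L (X 1 (L (X (L (R D 0) 4294967295) (A (A (L (R D 3904) 4294967295) m) (A (L (R D 27712) 4294967295) m))) N)) N)) N))), 66, 1, 1, 1, 1⟩,
  ⟨fun A S X L P R M N m a b c d e f g h D => (A (A (L (R D 3520) 4294967295) m) (S M (L (A (L (R D 3712) 4294967295) m) N))), 34, 1, 1, 1, 1⟩,
  ⟨fun A S X L P R M N m a b c d e f g h D => (A (A (L (R D 27328) 4294967295) m) (S M (L (A (L (R D 27520) 4294967295) m) N))), 34, 1, 1, 1, 1⟩,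
  ⟨fun A S X L P R M N m a b c d e f g h D => (A (L (X 16777216 (L (X 8 (A (A (L (R D 3520) 4294967295) m) (S M (L (A (L (R D 3712) 4294967295) m) N)))) N)) N) (S M (L (L (X (L (R D 0) 4294967295) (A (A (L (R D 27712) 4294967295) m) (S M (L (A (L (R D 3904) 4294967295) m) N)))) N) N))), 66, 1, 1, 1, 1⟩,
  ⟨fun A S X L P R M N m a b c d e f g h D => (A (L (X 16777216 (L (X 8 (A (A (L (R D 27328) 4294967295) m) (S M (L (A (L (R D 27520) 4294967295) m) N)))) N)) N) (S M (L (L (X (L (R D 0) 4294967295) (A (A (L (R D 27712) 4294967295) m) (S M (L (A (L (R D 3904) 4294967295) m) N)))) N) N))), 66, 1, 1, 1, 1⟩,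
  ⟨fun A S X L P R M N m a b c d e f g h D => (A (L (X 33554432 (A (L (R D 3744) 4294967295) m)) N) (S M (L (A (L (X 33554432 (A (L (R D 27552) 4294967295) m)) N) (L (X 1 (L (X (L (R D 0) 4294967295) (A (A (L (R D 3936) 4294967295) m) (A (L (R D 27744) 4294967295) m))) N)) N)) N))), 66, 1, 1, 1, 1⟩,
  ⟨fun A S X L P R M N m a b c d e f g h D => (A (A (L (R D 3552) 4294967295) m) (S M (L (A (L (R D 3744) 4294967295) m) N))), 34, 1, 1, 1, 1⟩,
  ⟨fun A S X L P R M N m a b c d e f g h D => (A (A (L (R D 27360) 4294967295) m) (S M (L (A (L (R D 27552) 4294967295) m) N))), 34, 1, 1, 1, 1⟩,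
  ⟨fun A S X L P R M N m a b c d e f g h D => (A (L (X 16777216 (L (X 8 (A (A (L (R D 3552) 4294967295) m) (S M (L (A (L (R D 3744) 4294967295) m) N)))) N)) N) (S M (L (L (X (L (R D 0) 4294967295) (A (A (L (R D 27744) 4294967295) m) (S M (L (A (L (R D 3936) 4294967295) m) N)))) N) N))), 66, 1, 1, 1, 1⟩,
  ⟨fun A S X L P R M N m a b c d e f g h D => (A (L (X 16777216 (L (X 8 (A (A (L (R D 27360) 4294967295) m) (S M (L (A (L (R D 27552) 4294967295) m) N)))) N)) N) (S M (L (L (X (L (R D 0) 4294967295) (A (A (L (R D 27744) 4294967295) m) (S M (L (A (L (R D 3936) 4294967295) m) N)))) N) N))), 66, 1, 1, 1, 1⟩,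
  ⟨fun A S X L P R M N m a b c d e f g h D => (A (L (X 33554432 (A (L (R D 3776) 4294967295) m)) N) (S M (L (A (L (X 33554432 (A (L (R D 27584) 4294967295) m)) N) (L (X 1 (L (X (L (R D 0) 4294967295) (A (A (L (R D 3968) 4294967295) m) (A (L (R D 27776) 4294967295) m))) N)) N)) N))), 66, 1, 1, 1, 1⟩,
  ⟨fun A S X L P R M N m a b c d e f g h D => (A (A (L (R D 3584) 4294967295) m) (S M (L (A (L (R D 3776) 4294967295) m) N))), 34, 1, 1, 1, 1⟩,
  ⟨fun A S X L P R M N m a b c d e f g h D => (A (A (L (R D 27392) 4294967295) m) (S M (L (A (L (R D 27584) 4294967295) m) N))), 34, 1, 1, 1, 1⟩,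
  ⟨fun A S X L P R M N m a b c d e f g h D => (A (L (X 16777216 (L (X 8 (A (A (L (R D 3584) 4294967295) m) (S M (L (A (L (R D 3776) 4294967295) m) N)))) N)) N) (S M (L (L (X (L (R D 0) 4294967295) (A (A (L (R D 27776) 4294967295) m) (S M (L (A (L (R D 3968) 4294967295) m) N)))) N) N))), 66, 1, 1, 1, 1⟩,
  ⟨fun A S X L P R M N m a b c d e f g h D => (A (L (X 16777216 (L (X 8 (A (A (L (R D 27392) 4294967295) m) (S M (L (A (L (R D 27584) 4294967295) m) N)))) N)) N) (S M (L (L (X (L (R D 0) 4294967295) (A (A (L (R D 27776) 4294967295) m) (S M (L (A (L (R D 3968) 4294967295) m) N)))) N) N))), 66, 1, 1, 1, 1⟩,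
  ⟨fun A S X L P R M N m a b c d e f g h D => (A (L (X 33554432 (A (L (R D 3808) 4294967295) m)) N) (S M (L (A (L (X 33554432 (A (L (R D 27616) 4294967295) m)) N) (L (X 1 (L (X (L (R D 0) 4294967295) (A (A (L (R D 4000) 4294967295) m) (A (L (R D 27808) 4294967295) m))) N)) N)) N))), 66, 1, 1, 1, 1⟩,
  ⟨fun A S X L P R M N m a b c d e f g h D => (A (A (L (R D 3616) 4294967295) m) (S M (L (A (L (R D 3808) 4294967295) m) N))), 34, 1, 1, 1, 1⟩,
  ⟨fun A S X L P R M N m a b c d e f g h D => (A (A (L (R D 27424) 4294967295) m) (S M (L (A (L (R D 27616) 4294967295) m) N))), 34, 1, 1, 1, 1⟩,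
  ⟨fun A S X L P R M N m a b c d e f g h D => (A (L (X 16777216 (L (X 8 (A (A (L (R D 3616) 4294967295) m) (S M (L (A (L (R D 3808) 4294967295) m) N)))) N)) N) (S M (L (L (X (L (R D 0) 4294967295) (A (A (L (R D 27808) 4294967295) m) (S M (L (A (L (R D 4000) 4294967295) m) N)))) N) N))), 66, 1, 1, 1, 1⟩,
  ⟨fun A S X L P R M N m a b c d e f g h D => (A (L (X 16777216 (L (X 8 (A (A (L (R D 27424) 4294967295) m) (S M (L (A (L (R D 27616) 4294967295) m) N)))) N)) N) (S M (L (L (X (L (R D 0) 4294967295) (A (A (L (R D 27808) 4294967295) m) (S M (L (A (L (R D 4000) 4294967295) m) N)))) N) N))), 66, 1, 1, 1, 1⟩,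
  ⟨fun A S X L P R M N m a b c d e f g h D => (A (L (X 33554432 (A (L (R D 3840) 4294967295) m)) N) (S M (L (A (L (X 33554432 (A (L (R D 27648) 4294967295) m)) N) (L (X 1 (L (X (L (R D 0) 4294967295) (A (A (L (R D 4032) 4294967295) m) (A (L (R D 27840) 4294967295) m))) N)) N)) N))), 66, 1, 1, 1, 1⟩,
  ⟨fun A S X L P R M N m a b c d e f g h D => (A (A (L (R D 3648) 4294967295) m) (S M (L (A (L (R D 3840) 4294967295) m) N))), 34, 1, 1, 1, 1⟩,
  ⟨fun A S X L P R M N m a b c d e f g h D => (A (A (L (R D 27456) 4294967295) m) (S M (L (A (L (R D 27648) 4294967295) m) N))), 34, 1, 1, 1, 1⟩,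
  ⟨fun A S X L P R M N m a b c d e f g h D => (A (L (X 16777216 (L (X 8 (A (A (L (R D 3648) 4294967295) m) (S M (L (A (L (R D 3840) 4294967295) m) N)))) N)) N) (S M (L (L (X (L (R D 0) 4294967295) (A (A (L (R D 27840) 4294967295) m) (S M (L (A (L (R D 4032) 4294967295) m) N)))) N) N))), 66, 1, 1, 1, 1⟩,
  ⟨fun A S X L P R M N m a b c d e f g h D => (A (L (X 16777216 (L (X 8 (A (A (L (R D 27456) 4294967295) m) (S M (L (A (L (R D 27648) 4294967295) m) N)))) N)) N) (S M (L (L (X (L (R D 0) 4294967295) (A (A (L (R D 27840) 4294967295) m) (S M (L (A (L (R D 4032) 4294967295) m) N)))) N) N))), 66, 1, 1, 1, 1⟩,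
  ⟨fun A S X L P R M N m a b c d e f g h D => (A 1 (S M (L 1 N))), 2, 1, 1, 1, 1⟩,
  ⟨fun A S X L P R M N m a b c d e f g h D => (A 1 (S M (L 1 N))), 2, 1, 1, 1, 1⟩,
  ⟨fun A S X L P R M N m a b c d e f g h D => (A (A (A (L (R D 3488) 4294967295) (X c (L (R D 27296) 4294967295))) (S M (L (X 2147483648 (A 1 (X c 1))) N))) (S M (L (L (X 1 (A (A (L (R D 3488) 4294967295) (X c (L (R D 27296) 4294967295))) (S M (L (X 2147483648 (A 1 (X c 1))) N)))) N) N))), 35, 1, 1, 2, 1⟩,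
  ⟨fun A S X L P R M N m a b c d e f g h D => (A (A (A (L (R D 3520) 4294967295) (X c (L (R D 27328) 4294967295))) (S M (L (X 2147483648 (A 1 (X c 1))) N))) (S M (L (L (X 1 (A (A (L (R D 3520) 4294967295) (X c (L (R D 27328) 4294967295))) (S M (L (X 2147483648 (A 1 (X c 1))) N)))) N) N))), 35, 1, 1, 2, 1⟩,
  ⟨fun A S X L P R M N m a b c d e f g h D => (A (A (L (X (L (X 1024 (A (A (L (R D 3552) 4294967295) (X c (L (R D 27360) 4294967295))) (S M (L (X 2147483648 (A 1 (X c 1))) N)))) N) e) N) (L (X (L (X 171 a) N) (A (A (L (R D 3648) 4294967295) (X c (L (R D 27456) 4294967295))) (S M (L (X 2147483648 (A 1 (X c 1))) N)))) N)) (S M (L (L (X 1 (A (L (X (L (X 1024 (A (A (L (R D 3552) 4294967295) (X c (L (R D 27360) 4294967295))) (S M (L (X 2147483648 (A 1 (X c 1))) N)))) N) e) N) (L (X (L (X 171 a) N) (A (A (L (R D 3648) 4294967295) (X c (L (R D 27456) 4294967295))) (S M (L (X 2147483648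 (A 1 (X c 1))) N)))) N))) N) N))), 46, 2, 1, 2, 1⟩,
  ⟨fun A S X L P R M N m a b c d e f g h D => (A (A (A (L (R D 3584) 4294967295) (X c (L (R D 27392) 4294967295))) (S M (L (X 2147483648 (A 1 (X c 1))) N))) (S M (L (L (X 1 (A (A (L (R D 3584) 4294967295) (X c (L (R D 27392) 4294967295))) (S M (L (X 2147483648 (A 1 (X c 1))) N)))) N) N))), 35, 1, 1, 2, 1⟩,
  ⟨fun A S X L P R M N m a b c d e f g h D => (A (A (A (L (R D 3616) 4294967295) (X c (L (R D 27424) 4294967295))) (S M (L (X 2147483648 (A 1 (X c 1))) N))) (S M (L (L (X 1 (A (A (L (R D 3616) 4294967295) (X c (L (R D 27424) 4294967295))) (S M (L (X 2147483648 (A 1 (X c 1))) N)))) N) N))), 35, 1, 1, 2, 1⟩,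
  ⟨fun A S X L P R M N m a b c d e f g h D => (A (A (L (R D 32) 4294967295) (L (R D 0) 4294967295)) (S M (L (L (R D 23840) 4294967295) N))), 34, 1, 1, 1, 1⟩,
  ⟨fun A S X L P R M N m a b c d e f g h D => (A (L (R D 23840) 4294967295) (S M (L (A (L (R D 32) 4294967295) (L (R D 0) 4294967295)) N))), 34, 1, 1, 1, 1⟩,
  ⟨fun A S X L P R M N m a b c d e f g h D => (A (L (X (L (X (L (X 26959946667150639794667015087019630673637144422540572481103610249216 (A (L (X (L (X 4294967296 (A (L (R D 64) 4294967295) (X c (L (R D 23872) 4294967295)))) N) (P f 2)) N) (L (X (L (X 5462 b) N) (A (L (X (L (X 65536 (A (L (R D 96) 4294967295) (X c (L (R D 23904) 4294967295)))) N) f) N) (L (X (L (X 5462 b) N) (A (L (R D 128) 4294967295) (X c (L (R D 23936) 4294967295)))) N))) N))) N) (P f 2)) N) (P g 7)) N) (S M (L (A (L (X (L (X (L (X 1942668892225729070919461906823518906642406839052139521251812409738904285205208498176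 1) N) (P f 4)) N) (P g 8)) N) (L (X (L (X 5462 b) N) (A (L (X (L (X 281474976710656 (A (L (X (L (X 6277101735386680763835789423207666416102355444464034512896 (A 0 (S M (L 32347428 N)))) N) (P g 8)) N) (L (X (A (L (X (L (R D 32) 4294967295) g) N) (L (X c (L (R D 0) 4294967295)) N)) (A (L (X (L (X 374144419156711147060143317175368453031918731001856 144886159) N) (P g 7)) N) (L (X (A (L (X (L (R D 32) 4294967295) g) N) (L (X c (L (R D 0) 4294967295)) N)) (A (L (X (L (X 22300745198530623141535718272648361505980416 (A 0 (S M (L 134868214 N)))) N) (P g 6)) N) (L (X (A (L (X (L (R D 32) 4294967295) g) N) (L (X c (L (R D 0) 4294967295)) N)) (A (L (X (L (X 1329227995784915872903807060280344576 126637514) N) (P g 5)) N) (L (X (A (L (X (L (R D 32) 4294967295) g) N) (L (X c (L (R D 0) 4294967295)) N)) (A (L (X (L (X 79228162514264337593543950336 (A 0 (S M (L 851980415 N)))) N) (P g 4)) N) (L (X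 (A (L (X (L (R D 32) 4294967295) g) N) (L (X c (L (R D 0) 4294967295)) N)) (A (L (X (L (X 4722366482869645213696 1936980188) N) (P g 3)) N) (L (X (A (L (X (L (R D 32) 4294967295) g) N) (L (X c (L (R D 0) 4294967295)) N)) (A (L (X (L (X 281474976710656 (A 0 (S M (L 1646722203 N)))) N) (P g 2)) N) (L (X (A (L (X (L (R D 32) 4294967295) g) N) (L (X c (L (R D 0) 4294967295)) N)) (A (L (X (L (X 16777216 418469938) N) g) N) (L (X (A (L (X (L (R D 32) 4294967295) g) N) (L (X c (L (R D 0) 4294967295)) N)) 55711363) N))) N))) N))) N))) N))) N))) N))) N))) N) (P f 3)) N) (L (X (L (X 5462 b) N) (A (L (X (L (X 4294967296 (A (L (X (L (X 6277101735386680763835789423207666416102355444464034512896 29321272) N) (P g 8)) N) (L (X (A (L (X (L (R D 32) 4294967295) g) N) (L (X c (L (R D 0) 4294967295)) N)) (A (L (X (L (X 374144419156711147060143317175368453031918731001856 (A 0 (S M (L 282616766 N)))) N)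 (P g 7)) N) (L (X (A (L (X (L (R D 32) 4294967295) g) N) (L (X c (L (R D 0) 4294967295)) N)) (A (L (X (L (X 22300745198530623141535718272648361505980416 778835411) N) (P g 6)) N) (L (X (A (L (X (L (R D 32) 4294967295) g) N) (L (X c (L (R D 0) 4294967295)) N)) (A (L (X (L (X 1329227995784915872903807060280344576 (A 0 (S M (L 603508940 N)))) N) (P g 5)) N) (L (X (A (L (X (L (R D 32) 4294967295) g) N) (L (X c (L (R D 0) 4294967295)) N)) (A (L (X (L (X 79228162514264337593543950336 (A 0 (S M (L 476005185 N)))) N) (P g 4)) N) (L (X (A (L (X (L (R D 32) 4294967295) g) N) (L (X c (L (R D 0) 4294967295)) N)) (A (L (X (L (X 4722366482869645213696 433686202) N) (P g 3)) N) (L (X (A (L (X (L (R D 32) 4294967295) g) N) (L (X c (L (R D 0) 4294967295)) N)) (A (L (X (L (X 281474976710656 1004822900) N) (P g 2)) N) (L (X (A (L (X (L (R D 32) 4294967295) g) N) (L (X c (L (R D 0) 4294967295)) N)) (A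 (L (X (L (X 16777216 (A 0 (S M (L 1258909943 N)))) N) g) N) (L (X (A (L (X (L (R D 32) 4294967295) g) N) (L (X c (L (R D 0) 4294967295)) N)) 385470983) N))) N))) N))) N))) N))) N))) N))) N))) N) (P f 2)) N) (L (X (L (X 5462 b) N) (A (L (X (L (X 65536 (A (L (X (L (X 6277101735386680763835789423207666416102355444464034512896 (A 0 (S M (L 11589767 N)))) N) (P g 8)) N) (L (X (A (L (X (L (R D 32) 4294967295) g) N) (L (X c (L (R D 0) 4294967295)) N)) (A (L (X (L (X 374144419156711147060143317175368453031918731001856 205253669) N) (P g 7)) N) (L (X (A (L (X (L (R D 32) 4294967295) g) N) (L (X c (L (R D 0) 4294967295)) N)) (A (L (X (L (X 22300745198530623141535718272648361505980416 (A 0 (S M (L 816767756 N)))) N) (P g 6)) N) (L (X (A (L (X (L (R D 32) 4294967295) g) N) (L (X c (L (R D 0) 4294967295)) N)) (A (L (X (L (X 1329227995784915872903807060280344576 232368737) N) (P g 5)) N) (L (X (A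 (L (X (L (R D 32) 4294967295) g) N) (L (X c (L (R D 0) 4294967295)) N)) (A (L (X (L (X 79228162514264337593543950336 5662650307) N) (P g 4)) N) (L (X (A (L (X (L (R D 32) 4294967295) g) N) (L (X c (L (R D 0) 4294967295)) N)) (A (L (X (L (X 4722366482869645213696 (A 0 (S M (L 15425267266 N)))) N) (P g 3)) N) (L (X (A (L (X (L (R D 32) 4294967295) g) N) (L (X c (L (R D 0) 4294967295)) N)) (A (L (X (L (X 281474976710656 18165091934) N) (P g 2)) N) (L (X (A (L (X (L (R D 32) 4294967295) g) N) (L (X c (L (R D 0) 4294967295)) N)) (A (L (X (L (X 16777216 (A 0 (S M (L 10269434308 N)))) N) g) N) (L (X (A (L (X (L (R D 32) 4294967295) g) N) (L (X c (L (R D 0) 4294967295)) N)) 2262492672) N))) N))) N))) N))) N))) N))) N))) N))) N) f) N) (L (X (L (X 5462 b) N) (A (L (X (L (X 6277101735386680763835789423207666416102355444464034512896 (A 0 (S M (L 107323 N)))) N) (P g 8)) N) (L (X (A (L (X (L (R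 D 32) 4294967295) g) N) (L (X c (L (R D 0) 4294967295)) N)) (A (L (X (L (X 374144419156711147060143317175368453031918731001856 (A 0 (S M (L 58222308 N)))) N) (P g 7)) N) (L (X (A (L (X (L (R D 32) 4294967295) g) N) (L (X c (L (R D 0) 4294967295)) N)) (A (L (X (L (X 22300745198530623141535718272648361505980416 348335136) N) (P g 6)) N) (L (X (A (L (X (L (R D 32) 4294967295) g) N) (L (X c (L (R D 0) 4294967295)) N)) (A (L (X (L (X 1329227995784915872903807060280344576 (A 0 (S M (L 47390534 N)))) N) (P g 5)) N) (L (X (A (L (X (L (R D 32) 4294967295) g) N) (L (X c (L (R D 0) 4294967295)) N)) (A (L (X (L (X 79228162514264337593543950336 (A 0 (S M (L 4324554251 N)))) N) (P g 4)) N) (L (X (A (L (X (L (R D 32) 4294967295) g) N) (L (X c (L (R D 0) 4294967295)) N)) (A (L (X (L (X 4722366482869645213696 13898599801) N) (P g 3)) N) (L (X (A (L (X (L (R D 32) 4294967295) g) N) (L (X c (L (R D 0)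 4294967295)) N)) (A (L (X (L (X 281474976710656 (A 0 (S M (L 19566930469 N)))) N) (P g 2)) N) (L (X (A (L (X (L (R D 32) 4294967295) g) N) (L (X c (L (R D 0) 4294967295)) N)) (A (L (X (L (X 16777216 13306455210) N) g) N) (L (X (A (L (X (L (R D 32) 4294967295) g) N) (L (X c (L (R D 0) 4294967295)) N)) (A 0 (S M (L 3541514823 N)))) N))) N))) N))) N))) N))) N))) N))) N))) N))) N))) N))) N)) N))), 359, 1, 5, 9, 1⟩]

theorem p2 : Pce Pool.Agent.RZ.RCO.SA.sheet 1488 150 2 (t2, f2) :=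
  ⟨by decide +kernel, rfl, by decide +kernel⟩

end Pool.Agent.RZ.RCO.SAL
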