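import Pool.Agent.RZ.RCO.Sg5

/-! Types of a sheet, piece 0 (MP_73ccd0_lc). -/

set_option autoImplicit false
set_option maxRecDepth 100000
set_option linter.all false

namespace Pool.Agent.RZ.RCO.SAL

open Sg

noncomputable def t0 : List Ty :=
 [⟨(.sub (.mul (.mul (.mul (.mul (.c 16777216) (.mul (.mul (.c 86) (.v 1)) (.add (.mul (.c 1024) (.add (.mul (.add (.mul (.mul (.c 1024) (.s 2 127 744 2)) (.w 0 1)) (.mul (.s 2 128 744 2) (.mul (.c 171) (.v 0)))) (.w 1 1)) (.mul (.mul (.s 2 129 744 2) (.mul (.c 86) (.v 1))) (.w 0 1)))) (.mul (.s 2 130 744 2) (.mul (.mul (.c 86) (.v 1)) (.mul (.c 171) (.v 0))))))) (.w 0 1)) (.w 1 1)) (.w 2 1)) (.mul (.mul (.mul (.c 86) (.v 1)) (.add (.mul (.mul (.c 1048576) (.r 2 2 744 2)) (.w 1 2)) (.mul (.mul (.c 86) (.v 1)) (.add (.mul (.mul (.c 1024) (.r 2 3 744 2)) (.w 1 1)) (.mul (.mul (.c 86) (.v 1)) (.r 2 4 744 2)))))) (.sub (.add (.mul (.q 2) (.r 0 5 1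 3)) (.mul (.v 2) (.r 0 749 1 3))) (.mul (.mul (.mul (.c 16777216) (.c 1)) (.w 0 2)) (.w 2 1))))), 97, 3, 4, 3, 1⟩,
  ⟨(.sub (.sub (.mul (.mul (.mul (.mul (.c 17592186044416) (.mul (.mul (.c 86) (.v 1)) (.add (.mul (.c 1024) (.add (.mul (.add (.mul (.mul (.c 1024) (.s 2 131 744 2)) (.w 0 1)) (.mul (.s 2 132 744 2) (.mul (.c 171) (.v 0)))) (.w 1 1)) (.mul (.mul (.s 2 133 744 2) (.mul (.c 86) (.v 1))) (.w 0 1)))) (.mul (.s 2 134 744 2) (.mul (.mul (.c 86) (.v 1)) (.mul (.c 171) (.v 0))))))) (.w 0 1)) (.w 1 3)) (.w 2 1)) (.mul (.mul (.mul (.c 86) (.v 1)) (.add (.mul (.mul (.c 1048576) (.r 2 2 744 2)) (.w 1 2)) (.mul (.mul (.c 86) (.v 1)) (.add (.mul (.mul (.c 1024) (.r 2 3 744 2)) (.w 1 1)) (.mul (.mul (.c 86) (.v 1)) (.r 2 4 744 2)))))) (.add (.mul (.add (.mul (.mul (.c 1024) (.mul (.s 2 35 744 2) (.add (.mul (.c 853) (.w 0 1)) (.mul (.c 171) (.q 0))))) (.w 0 1)) (.mul (.s 2 36 744 2) (.mul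 (.mul (.c 171) (.v 0)) (.add (.mul (.c 853) (.w 0 1)) (.mul (.c 171) (.q 0)))))) (.w 1 2)) (.mul (.mul (.s 2 38 744 2) (.mul (.mul (.c 86) (.v 1)) (.mul (.c 86) (.v 1)))) (.w 0 2))))) (.add (.mul (.mul (.c 1024) (.mul (.mul (.add (.mul (.r 2 195 744 2) (.q 0)) (.mul (.r 2 196 744 2) (.v 0))) (.mul (.mul (.c 86) (.v 1)) (.add (.mul (.mul (.c 1048576) (.r 2 2 744 2)) (.w 1 2)) (.mul (.mul (.c 86) (.v 1)) (.add (.mul (.mul (.c 1024) (.r 2 3 744 2)) (.w 1 1)) (.mul (.mul (.c 86) (.v 1)) (.r 2 4 744 2))))))) (.mul (.c 2) (.add (.mul (.mul (.c 767) (.w 0 1)) (.w 1 1)) (.add (.mul (.mul (.c 171) (.q 0)) (.w 1 1)) (.mul (.mul (.c 86) (.q 1)) (.w 0 1))))))) (.w 1 1)) (.add (.mul (.mul (.c 1024) (.mul (.mul (.add (.mul (.r 2 197 744 2) (.q 0)) (.mul (.r 2 198 744 2) (.v 0))) (.mul (.mul (.c 86) (.v 1)) (.add (.mul (.mul (.c 1048576) (.r 2 2 744 2)) (.w 1 2)) (.mul (.mul (.c 86) (.v 1)) (.add (.mul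 (.mul (.c 1024) (.r 2 3 744 2)) (.w 1 1)) (.mul (.mul (.c 86) (.v 1)) (.r 2 4 744 2))))))) (.add (.mul (.mul (.c 767) (.w 0 1)) (.w 1 1)) (.add (.mul (.mul (.c 171) (.q 0)) (.w 1 1)) (.mul (.mul (.c 86) (.q 1)) (.w 0 1)))))) (.w 1 1)) (.add (.mul (.mul (.c 1024) (.mul (.mul (.add (.mul (.r 2 203 744 2) (.q 0)) (.mul (.r 2 204 744 2) (.v 0))) (.mul (.mul (.c 86) (.v 1)) (.add (.mul (.mul (.c 1048576) (.r 2 2 744 2)) (.w 1 2)) (.mul (.mul (.c 86) (.v 1)) (.add (.mul (.mul (.c 1024) (.r 2 3 744 2)) (.w 1 1)) (.mul (.mul (.c 86) (.v 1)) (.r 2 4 744 2))))))) (.mul (.c 2) (.add (.mul (.mul (.c 767) (.w 0 1)) (.w 1 1)) (.add (.mul (.mul (.c 171) (.q 0)) (.w 1 1)) (.mul (.mul (.c 86) (.q 1)) (.w 0 1))))))) (.w 1 1)) (.add (.mul (.mul (.c 1024) (.mul (.mul (.add (.mul (.r 2 205 744 2) (.q 0)) (.mul (.r 2 206 744 2) (.v 0))) (.mul (.mul (.c 86) (.v 1)) (.add (.mul (.mul (.c 1048576) (.r 2 2 744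 2)) (.w 1 2)) (.mul (.mul (.c 86) (.v 1)) (.add (.mul (.mul (.c 1024) (.r 2 3 744 2)) (.w 1 1)) (.mul (.mul (.c 86) (.v 1)) (.r 2 4 744 2))))))) (.mul (.c 2) (.add (.mul (.c 853) (.w 0 1)) (.mul (.c 171) (.q 0)))))) (.w 1 2)) (.add (.mul (.mul (.add (.mul (.r 2 207 744 2) (.q 0)) (.mul (.r 2 208 744 2) (.v 0))) (.mul (.mul (.c 86) (.v 1)) (.add (.mul (.mul (.c 1048576) (.r 2 2 744 2)) (.w 1 2)) (.mul (.mul (.c 86) (.v 1)) (.add (.mul (.mul (.c 1024) (.r 2 3 744 2)) (.w 1 1)) (.mul (.mul (.c 86) (.v 1)) (.r 2 4 744 2))))))) (.sub (.mul (.mul (.c 1024) (.add (.mul (.c 853) (.w 0 1)) (.mul (.c 171) (.q 0)))) (.w 1 2)) (.mul (.mul (.c 12) (.mul (.mul (.c 86) (.v 1)) (.mul (.c 86) (.v 1)))) (.w 0 1)))) (.add (.mul (.mul (.mul (.add (.mul (.r 2 211 744 2) (.q 0)) (.mul (.r 2 212 744 2) (.v 0))) (.mul (.mul (.c 86) (.v 1)) (.add (.mul (.mul (.c 1048576) (.r 2 2 744 2)) (.w 1 2)) (.mul (.mul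 (.c 86) (.v 1)) (.add (.mul (.mul (.c 1024) (.r 2 3 744 2)) (.w 1 1)) (.mul (.mul (.c 86) (.v 1)) (.r 2 4 744 2))))))) (.mul (.c 2) (.mul (.mul (.c 86) (.v 1)) (.mul (.c 86) (.v 1))))) (.w 0 1)) (.add (.mul (.mul (.add (.mul (.r 2 213 744 2) (.q 0)) (.mul (.r 2 214 744 2) (.v 0))) (.mul (.mul (.c 86) (.v 1)) (.add (.mul (.mul (.c 1048576) (.r 2 2 744 2)) (.w 1 2)) (.mul (.mul (.c 86) (.v 1)) (.add (.mul (.mul (.c 1024) (.r 2 3 744 2)) (.w 1 1)) (.mul (.mul (.c 86) (.v 1)) (.r 2 4 744 2))))))) (.sub (.mul (.mul (.c 1024) (.mul (.c 2) (.add (.mul (.c 853) (.w 0 1)) (.mul (.c 171) (.q 0))))) (.w 1 2)) (.mul (.mul (.c 24) (.mul (.mul (.c 86) (.v 1)) (.mul (.c 86) (.v 1)))) (.w 0 1)))) (.mul (.mul (.mul (.c 1048576) (.mul (.mul (.add (.mul (.r 2 215 744 2) (.q 0)) (.mul (.r 2 216 744 2) (.v 0))) (.mul (.mul (.c 86) (.v 1)) (.add (.mul (.mul (.c 1048576) (.r 2 2 744 2)) (.w 1 2)) (.mul (.mul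 (.c 86) (.v 1)) (.add (.mul (.mul (.c 1024) (.r 2 3 744 2)) (.w 1 1)) (.mul (.mul (.c 86) (.v 1)) (.r 2 4 744 2))))))) (.c 2))) (.w 0 1)) (.w 1 2)))))))))), 123, 3, 6, 3, 1⟩,
  ⟨(.sub (.sub (.mul (.mul (.mul (.c 0) (.w 0 1)) (.w 1 3)) (.w 2 2)) (.mul (.mul (.mul (.c 86) (.v 1)) (.add (.mul (.mul (.c 1048576) (.r 2 2 744 2)) (.w 1 2)) (.mul (.mul (.c 86) (.v 1)) (.add (.mul (.mul (.c 1024) (.r 2 3 744 2)) (.w 1 1)) (.mul (.mul (.c 86) (.v 1)) (.r 2 4 744 2)))))) (.mul (.add (.mul (.mul (.c 1024) (.s 2 37 744 2)) (.w 0 1)) (.mul (.mul (.c 171) (.v 0)) (.s 2 40 744 2))) (.c 1)))) (.mul (.c 1024) (.add (.mul (.mul (.add (.mul (.r 2 195 744 2) (.q 0)) (.mul (.r 2 196 744 2) (.v 0))) (.mul (.mul (.c 86) (.v 1)) (.add (.mul (.mul (.c 1048576) (.r 2 2 744 2)) (.w 1 2)) (.mul (.mul (.c 86) (.v 1)) (.add (.mul (.mul (.c 1024) (.r 2 3 744 2)) (.w 1 1)) (.mul (.mul (.c 86) (.v 1)) (.r 2 4 744 2)))))))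 (.sub (.c 0) (.mul (.c 12) (.c 1)))) (.add (.mul (.mul (.add (.mul (.r 2 199 744 2) (.q 0)) (.mul (.r 2 200 744 2) (.v 0))) (.mul (.mul (.c 86) (.v 1)) (.add (.mul (.mul (.c 1048576) (.r 2 2 744 2)) (.w 1 2)) (.mul (.mul (.c 86) (.v 1)) (.add (.mul (.mul (.c 1024) (.r 2 3 744 2)) (.w 1 1)) (.mul (.mul (.c 86) (.v 1)) (.r 2 4 744 2))))))) (.c 1)) (.add (.mul (.mul (.add (.mul (.r 2 203 744 2) (.q 0)) (.mul (.r 2 204 744 2) (.v 0))) (.mul (.mul (.c 86) (.v 1)) (.add (.mul (.mul (.c 1048576) (.r 2 2 744 2)) (.w 1 2)) (.mul (.mul (.c 86) (.v 1)) (.add (.mul (.mul (.c 1024) (.r 2 3 744 2)) (.w 1 1)) (.mul (.mul (.c 86) (.v 1)) (.r 2 4 744 2))))))) (.sub (.c 0) (.mul (.c 12) (.c 1)))) (.add (.mul (.mul (.add (.mul (.r 2 205 744 2) (.q 0)) (.mul (.r 2 206 744 2) (.v 0))) (.mul (.mul (.c 86) (.v 1)) (.add (.mul (.mul (.c 1048576) (.r 2 2 744 2)) (.w 1 2)) (.mul (.mul (.c 86) (.v 1)) (.add (.mul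 (.mul (.c 1024) (.r 2 3 744 2)) (.w 1 1)) (.mul (.mul (.c 86) (.v 1)) (.r 2 4 744 2))))))) (.sub (.c 0) (.mul (.c 12) (.c 1)))) (.add (.mul (.mul (.add (.mul (.r 2 209 744 2) (.q 0)) (.mul (.r 2 210 744 2) (.v 0))) (.mul (.mul (.c 86) (.v 1)) (.add (.mul (.mul (.c 1048576) (.r 2 2 744 2)) (.w 1 2)) (.mul (.mul (.c 86) (.v 1)) (.add (.mul (.mul (.c 1024) (.r 2 3 744 2)) (.w 1 1)) (.mul (.mul (.c 86) (.v 1)) (.r 2 4 744 2))))))) (.c 1)) (.mul (.mul (.add (.mul (.r 2 213 744 2) (.q 0)) (.mul (.r 2 214 744 2) (.v 0))) (.mul (.mul (.c 86) (.v 1)) (.add (.mul (.mul (.c 1048576) (.r 2 2 744 2)) (.w 1 2)) (.mul (.mul (.c 86) (.v 1)) (.add (.mul (.mul (.c 1024) (.r 2 3 744 2)) (.w 1 1)) (.mul (.mul (.c 86) (.v 1)) (.r 2 4 744 2))))))) (.sub (.c 0) (.mul (.c 12) (.c 1))))))))))), 112, 2, 4, 3, 1⟩,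
  ⟨(.sub (.mul (.sub (.mul (.mul (.c 0) (.w 1 3)) (.w 2 2)) (.mul (.mul (.mul (.c 86) (.v 1)) (.add (.mul (.mul (.c 1048576) (.r 2 2 744 2)) (.w 1 2)) (.mul (.mul (.c 86) (.v 1)) (.add (.mul (.mul (.c 1024) (.r 2 3 744 2)) (.w 1 1)) (.mul (.mul (.c 86) (.v 1)) (.r 2 4 744 2)))))) (.mul (.s 2 38 744 2) (.c 1)))) (.w 0 1)) (.add (.mul (.mul (.add (.mul (.r 2 197 744 2) (.q 0)) (.mul (.r 2 198 744 2) (.v 0))) (.mul (.mul (.c 86) (.v 1)) (.add (.mul (.mul (.c 1048576) (.r 2 2 744 2)) (.w 1 2)) (.mul (.mul (.c 86) (.v 1)) (.add (.mul (.mul (.c 1024) (.r 2 3 744 2)) (.w 1 1)) (.mul (.mul (.c 86) (.v 1)) (.r 2 4 744 2))))))) (.sub (.c 0) (.mul (.c 12) (.c 1)))) (.add (.mul (.mul (.add (.mul (.r 2 201 744 2) (.q 0)) (.mul (.r 2 202 744 2) (.v 0))) (.mul (.mul (.c 86) (.v 1)) (.add (.mul (.mul (.c 1048576) (.r 2 2 744 2)) (.w 1 2)) (.mul (.mul (.c 86) (.v 1)) (.add (.mul (.mul (.c 1024) (.r 2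 3 744 2)) (.w 1 1)) (.mul (.mul (.c 86) (.v 1)) (.r 2 4 744 2))))))) (.mul (.c 2) (.c 1))) (.add (.mul (.mul (.add (.mul (.r 2 203 744 2) (.q 0)) (.mul (.r 2 204 744 2) (.v 0))) (.mul (.mul (.c 86) (.v 1)) (.add (.mul (.mul (.c 1048576) (.r 2 2 744 2)) (.w 1 2)) (.mul (.mul (.c 86) (.v 1)) (.add (.mul (.mul (.c 1024) (.r 2 3 744 2)) (.w 1 1)) (.mul (.mul (.c 86) (.v 1)) (.r 2 4 744 2))))))) (.sub (.c 0) (.mul (.c 24) (.c 1)))) (.add (.mul (.mul (.add (.mul (.r 2 207 744 2) (.q 0)) (.mul (.r 2 208 744 2) (.v 0))) (.mul (.mul (.c 86) (.v 1)) (.add (.mul (.mul (.c 1048576) (.r 2 2 744 2)) (.w 1 2)) (.mul (.mul (.c 86) (.v 1)) (.add (.mul (.mul (.c 1024) (.r 2 3 744 2)) (.w 1 1)) (.mul (.mul (.c 86) (.v 1)) (.r 2 4 744 2))))))) (.sub (.c 0) (.mul (.c 12) (.c 1)))) (.add (.mul (.mul (.add (.mul (.r 2 211 744 2) (.q 0)) (.mul (.r 2 212 744 2) (.v 0))) (.mul (.mul (.c 86) (.v 1)) (.add (.mul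 (.mul (.c 1048576) (.r 2 2 744 2)) (.w 1 2)) (.mul (.mul (.c 86) (.v 1)) (.add (.mul (.mul (.c 1024) (.r 2 3 744 2)) (.w 1 1)) (.mul (.mul (.c 86) (.v 1)) (.r 2 4 744 2))))))) (.mul (.c 2) (.c 1))) (.mul (.mul (.add (.mul (.r 2 213 744 2) (.q 0)) (.mul (.r 2 214 744 2) (.v 0))) (.mul (.mul (.c 86) (.v 1)) (.add (.mul (.mul (.c 1048576) (.r 2 2 744 2)) (.w 1 2)) (.mul (.mul (.c 86) (.v 1)) (.add (.mul (.mul (.c 1024) (.r 2 3 744 2)) (.w 1 1)) (.mul (.mul (.c 86) (.v 1)) (.r 2 4 744 2))))))) (.sub (.c 0) (.mul (.c 24) (.c 1)))))))))), 102, 2, 4, 3, 1⟩,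
  ⟨(.sub (.mul (.sub (.mul (.mul (.c 0) (.w 1 3)) (.w 2 2)) (.mul (.mul (.mul (.c 86) (.v 1)) (.add (.mul (.mul (.c 1048576) (.r 2 2 744 2)) (.w 1 2)) (.mul (.mul (.c 86) (.v 1)) (.add (.mul (.mul (.c 1024) (.r 2 3 744 2)) (.w 1 1)) (.mul (.mul (.c 86) (.v 1)) (.r 2 4 744 2)))))) (.mul (.s 2 39 744 2) (.c 1)))) (.w 0 1)) (.add (.mul (.mul (.add (.mul (.r 2 199 744 2) (.q 0)) (.mul (.r 2 200 744 2) (.v 0))) (.mul (.mul (.c 86) (.v 1)) (.add (.mul (.mul (.c 1048576) (.r 2 2 744 2)) (.w 1 2)) (.mul (.mul (.c 86) (.v 1)) (.add (.mul (.mul (.c 1024) (.r 2 3 744 2)) (.w 1 1)) (.mul (.mul (.c 86) (.v 1)) (.r 2 4 744 2))))))) (.sub (.c 0) (.mul (.c 12) (.c 1)))) (.add (.mul (.mul (.add (.mul (.r 2 201 744 2) (.q 0)) (.mul (.r 2 202 744 2) (.v 0))) (.mul (.mul (.c 86) (.v 1)) (.add (.mul (.mul (.c 1048576) (.r 2 2 744 2)) (.w 1 2)) (.mul (.mul (.c 86) (.v 1)) (.add (.mul (.mul (.c 1024) (.r 2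 3 744 2)) (.w 1 1)) (.mul (.mul (.c 86) (.v 1)) (.r 2 4 744 2))))))) (.sub (.c 0) (.mul (.c 12) (.c 1)))) (.add (.mul (.mul (.add (.mul (.r 2 203 744 2) (.q 0)) (.mul (.r 2 204 744 2) (.v 0))) (.mul (.mul (.c 86) (.v 1)) (.add (.mul (.mul (.c 1048576) (.r 2 2 744 2)) (.w 1 2)) (.mul (.mul (.c 86) (.v 1)) (.add (.mul (.mul (.c 1024) (.r 2 3 744 2)) (.w 1 1)) (.mul (.mul (.c 86) (.v 1)) (.r 2 4 744 2))))))) (.mul (.c 144) (.c 1))) (.add (.mul (.mul (.add (.mul (.r 2 209 744 2) (.q 0)) (.mul (.r 2 210 744 2) (.v 0))) (.mul (.mul (.c 86) (.v 1)) (.add (.mul (.mul (.c 1048576) (.r 2 2 744 2)) (.w 1 2)) (.mul (.mul (.c 86) (.v 1)) (.add (.mul (.mul (.c 1024) (.r 2 3 744 2)) (.w 1 1)) (.mul (.mul (.c 86) (.v 1)) (.r 2 4 744 2))))))) (.sub (.c 0) (.mul (.c 12) (.c 1)))) (.add (.mul (.mul (.add (.mul (.r 2 211 744 2) (.q 0)) (.mul (.r 2 212 744 2) (.v 0))) (.mul (.mul (.c 86) (.v 1)) (.add (.mul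 (.mul (.c 1048576) (.r 2 2 744 2)) (.w 1 2)) (.mul (.mul (.c 86) (.v 1)) (.add (.mul (.mul (.c 1024) (.r 2 3 744 2)) (.w 1 1)) (.mul (.mul (.c 86) (.v 1)) (.r 2 4 744 2))))))) (.sub (.c 0) (.mul (.c 12) (.c 1)))) (.mul (.mul (.add (.mul (.r 2 213 744 2) (.q 0)) (.mul (.r 2 214 744 2) (.v 0))) (.mul (.mul (.c 86) (.v 1)) (.add (.mul (.mul (.c 1048576) (.r 2 2 744 2)) (.w 1 2)) (.mul (.mul (.c 86) (.v 1)) (.add (.mul (.mul (.c 1024) (.r 2 3 744 2)) (.w 1 1)) (.mul (.mul (.c 86) (.v 1)) (.r 2 4 744 2))))))) (.mul (.c 144) (.c 1))))))))), 104, 2, 4, 3, 1⟩,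
  ⟨(.sub (.sub (.mul (.mul (.mul (.c 0) (.w 0 1)) (.w 1 5)) (.w 2 2)) (.mul (.mul (.mul (.c 86) (.v 1)) (.add (.mul (.mul (.c 1048576) (.r 2 2 744 2)) (.w 1 2)) (.mul (.mul (.c 86) (.v 1)) (.add (.mul (.mul (.c 1024) (.r 2 3 744 2)) (.w 1 1)) (.mul (.mul (.c 86) (.v 1)) (.r 2 4 744 2)))))) (.add (.mul (.mul (.add (.mul (.mul (.c 1024) (.s 2 37 744 2)) (.w 0 1)) (.mul (.mul (.c 171) (.v 0)) (.s 2 40 744 2))) (.mul (.c 86) (.v 1))) (.w 1 1)) (.mul (.mul (.s 2 39 744 2) (.mul (.mul (.c 86) (.v 1)) (.mul (.c 86) (.v 1)))) (.w 0 1))))) (.add (.mul (.mul (.c 1024) (.mul (.mul (.add (.mul (.r 2 205 744 2) (.q 0)) (.mul (.r 2 206 744 2) (.v 0))) (.mul (.mul (.c 86) (.v 1)) (.add (.mul (.mul (.c 1048576) (.r 2 2 744 2)) (.w 1 2)) (.mul (.mul (.c 86) (.v 1)) (.add (.mul (.mul (.c 1024) (.r 2 3 744 2)) (.w 1 1)) (.mul (.mul (.c 86) (.v 1)) (.r 2 4 744 2))))))) (.sub (.mul (.c 0) (.w 1 1)) (.mul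 (.c 12) (.mul (.c 86) (.v 1)))))) (.w 1 1)) (.add (.mul (.mul (.add (.mul (.r 2 209 744 2) (.q 0)) (.mul (.r 2 210 744 2) (.v 0))) (.mul (.mul (.c 86) (.v 1)) (.add (.mul (.mul (.c 1048576) (.r 2 2 744 2)) (.w 1 2)) (.mul (.mul (.c 86) (.v 1)) (.add (.mul (.mul (.c 1024) (.r 2 3 744 2)) (.w 1 1)) (.mul (.mul (.c 86) (.v 1)) (.r 2 4 744 2))))))) (.sub (.mul (.mul (.c 1024) (.mul (.c 86) (.v 1))) (.w 1 1)) (.mul (.c 12) (.mul (.mul (.c 86) (.v 1)) (.mul (.c 86) (.v 1)))))) (.add (.mul (.mul (.add (.mul (.r 2 211 744 2) (.q 0)) (.mul (.r 2 212 744 2) (.v 0))) (.mul (.mul (.c 86) (.v 1)) (.add (.mul (.mul (.c 1048576) (.r 2 2 744 2)) (.w 1 2)) (.mul (.mul (.c 86) (.v 1)) (.add (.mul (.mul (.c 1024) (.r 2 3 744 2)) (.w 1 1)) (.mul (.mul (.c 86) (.v 1)) (.r 2 4 744 2))))))) (.sub (.mul (.c 0) (.w 1 2)) (.mul (.c 12) (.mul (.mul (.c 86) (.v 1)) (.mul (.c 86) (.v 1)))))) (.add (.mul (.mul (.add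 (.mul (.r 2 213 744 2) (.q 0)) (.mul (.r 2 214 744 2) (.v 0))) (.mul (.mul (.c 86) (.v 1)) (.add (.mul (.mul (.c 1048576) (.r 2 2 744 2)) (.w 1 2)) (.mul (.mul (.c 86) (.v 1)) (.add (.mul (.mul (.c 1024) (.r 2 3 744 2)) (.w 1 1)) (.mul (.mul (.c 86) (.v 1)) (.r 2 4 744 2))))))) (.sub (.mul (.c 144) (.mul (.mul (.c 86) (.v 1)) (.mul (.c 86) (.v 1)))) (.mul (.mul (.c 1024) (.mul (.c 12) (.mul (.c 86) (.v 1)))) (.w 1 1)))) (.mul (.mul (.c 1048576) (.mul (.mul (.add (.mul (.r 2 215 744 2) (.q 0)) (.mul (.r 2 216 744 2) (.v 0))) (.mul (.mul (.c 86) (.v 1)) (.add (.mul (.mul (.c 1048576) (.r 2 2 744 2)) (.w 1 2)) (.mul (.mul (.c 86) (.v 1)) (.add (.mul (.mul (.c 1024) (.r 2 3 744 2)) (.w 1 1)) (.mul (.mul (.c 86) (.v 1)) (.r 2 4 744 2))))))) (.sub (.c 0) (.mul (.c 12) (.c 1))))) (.w 1 2))))))), 122, 2, 6, 3, 1⟩,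
  ⟨(.sub (.mul (.mul (.mul (.mul (.c 16777216) (.mul (.mul (.c 86) (.v 1)) (.add (.mul (.c 1024) (.add (.mul (.add (.mul (.mul (.c 1024) (.s 2 135 744 2)) (.w 0 1)) (.mul (.s 2 136 744 2) (.mul (.c 171) (.v 0)))) (.w 1 1)) (.mul (.mul (.s 2 137 744 2) (.mul (.c 86) (.v 1))) (.w 0 1)))) (.mul (.s 2 138 744 2) (.mul (.mul (.c 86) (.v 1)) (.mul (.c 171) (.v 0))))))) (.w 0 1)) (.w 1 1)) (.w 2 1)) (.mul (.mul (.mul (.c 86) (.v 1)) (.add (.mul (.mul (.c 1048576) (.r 2 2 744 2)) (.w 1 2)) (.mul (.mul (.c 86) (.v 1)) (.add (.mul (.mul (.c 1024) (.r 2 3 744 2)) (.w 1 1)) (.mul (.mul (.c 86) (.v 1)) (.r 2 4 744 2)))))) (.add (.mul (.q 2) (.r 0 5 1 3)) (.mul (.v 2) (.r 0 749 1 3))))), 97, 3, 4, 3, 1⟩,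
  ⟨(.sub (.mul (.sub (.mul (.mul (.mul (.mul (.c 295147905179352825856) (.mul (.mul (.c 86) (.v 1)) (.add (.mul (.c 1024) (.add (.mul (.add (.mul (.mul (.c 1024) (.s 2 139 744 2)) (.w 0 1)) (.mul (.s 2 140 744 2) (.mul (.c 171) (.v 0)))) (.w 1 1)) (.mul (.mul (.s 2 141 744 2) (.mul (.c 86) (.v 1))) (.w 0 1)))) (.mul (.s 2 142 744 2) (.mul (.mul (.c 86) (.v 1)) (.mul (.c 171) (.v 0))))))) (.w 0 3)) (.w 1 2)) (.w 2 2)) (.mul (.mul (.mul (.c 86) (.v 1)) (.add (.mul (.mul (.c 1048576) (.r 2 2 744 2)) (.w 1 2)) (.mul (.mul (.c 86) (.v 1)) (.add (.mul (.mul (.c 1024) (.r 2 3 744 2)) (.w 1 1)) (.mul (.mul (.c 86) (.v 1)) (.r 2 4 744 2)))))) (.add (.mul (.mul (.mul (.mul (.c 17179869184) (.mul (.sub (.add (.mul (.q 2) (.r 0 5 1 3)) (.mul (.v 2) (.r 0 749 1 3))) (.mul (.mul (.mul (.c 16777216) (.c 1)) (.w 0 2)) (.w 2 1))) (.mul (.c 1) (.add (.mul (.c 853) (.w 0 1)) (.mul (.c 171) (.q 0))))))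 (.w 0 1)) (.w 1 1)) (.w 2 1)) (.mul (.add (.mul (.q 2) (.r 0 5 1 3)) (.mul (.v 2) (.r 0 749 1 3))) (.add (.mul (.mul (.c 1024) (.mul (.s 2 91 744 2) (.add (.mul (.mul (.c 767) (.w 0 1)) (.w 1 1)) (.add (.mul (.mul (.c 171) (.q 0)) (.w 1 1)) (.mul (.mul (.c 86) (.q 1)) (.w 0 1)))))) (.w 0 1)) (.mul (.s 2 92 744 2) (.mul (.mul (.c 171) (.v 0)) (.add (.mul (.mul (.c 767) (.w 0 1)) (.w 1 1)) (.add (.mul (.mul (.c 171) (.q 0)) (.w 1 1)) (.mul (.mul (.c 86) (.q 1)) (.w 0 1))))))))))) (.w 1 1)) (.mul (.mul (.mul (.c 16777216) (.add (.mul (.mul (.c 1024) (.mul (.mul (.add (.mul (.r 2 277 744 2) (.q 0)) (.mul (.r 2 278 744 2) (.v 0))) (.mul (.mul (.c 86) (.v 1)) (.add (.mul (.mul (.c 1048576) (.r 2 2 744 2)) (.w 1 2)) (.mul (.mul (.c 86) (.v 1)) (.add (.mul (.mul (.c 1024) (.r 2 3 744 2)) (.w 1 1)) (.mul (.mul (.c 86) (.v 1)) (.r 2 4 744 2))))))) (.mul (.c 2) (.add (.mul (.mul (.c 767) (.w 0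 1)) (.w 1 1)) (.add (.mul (.mul (.c 171) (.q 0)) (.w 1 1)) (.mul (.mul (.c 86) (.q 1)) (.w 0 1))))))) (.w 1 1)) (.add (.mul (.mul (.c 1024) (.mul (.mul (.add (.mul (.r 2 279 744 2) (.q 0)) (.mul (.r 2 280 744 2) (.v 0))) (.mul (.mul (.c 86) (.v 1)) (.add (.mul (.mul (.c 1048576) (.r 2 2 744 2)) (.w 1 2)) (.mul (.mul (.c 86) (.v 1)) (.add (.mul (.mul (.c 1024) (.r 2 3 744 2)) (.w 1 1)) (.mul (.mul (.c 86) (.v 1)) (.r 2 4 744 2))))))) (.add (.mul (.mul (.c 767) (.w 0 1)) (.w 1 1)) (.add (.mul (.mul (.c 171) (.q 0)) (.w 1 1)) (.mul (.mul (.c 86) (.q 1)) (.w 0 1)))))) (.w 1 1)) (.add (.mul (.mul (.c 1024) (.mul (.mul (.add (.mul (.r 2 285 744 2) (.q 0)) (.mul (.r 2 286 744 2) (.v 0))) (.mul (.mul (.c 86) (.v 1)) (.add (.mul (.mul (.c 1048576) (.r 2 2 744 2)) (.w 1 2)) (.mul (.mul (.c 86) (.v 1)) (.add (.mul (.mul (.c 1024) (.r 2 3 744 2)) (.w 1 1)) (.mul (.mul (.c 86) (.v 1)) (.r 2 4 744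 2))))))) (.mul (.c 2) (.add (.mul (.mul (.c 767) (.w 0 1)) (.w 1 1)) (.add (.mul (.mul (.c 171) (.q 0)) (.w 1 1)) (.mul (.mul (.c 86) (.q 1)) (.w 0 1))))))) (.w 1 1)) (.add (.mul (.mul (.c 1024) (.mul (.mul (.add (.mul (.r 2 287 744 2) (.q 0)) (.mul (.r 2 288 744 2) (.v 0))) (.mul (.mul (.c 86) (.v 1)) (.add (.mul (.mul (.c 1048576) (.r 2 2 744 2)) (.w 1 2)) (.mul (.mul (.c 86) (.v 1)) (.add (.mul (.mul (.c 1024) (.r 2 3 744 2)) (.w 1 1)) (.mul (.mul (.c 86) (.v 1)) (.r 2 4 744 2))))))) (.mul (.c 2) (.add (.mul (.c 853) (.w 0 1)) (.mul (.c 171) (.q 0)))))) (.w 1 2)) (.add (.mul (.mul (.add (.mul (.r 2 289 744 2) (.q 0)) (.mul (.r 2 290 744 2) (.v 0))) (.mul (.mul (.c 86) (.v 1)) (.add (.mul (.mul (.c 1048576) (.r 2 2 744 2)) (.w 1 2)) (.mul (.mul (.c 86) (.v 1)) (.add (.mul (.mul (.c 1024) (.r 2 3 744 2)) (.w 1 1)) (.mul (.mul (.c 86) (.v 1)) (.r 2 4 744 2))))))) (.sub (.mul (.mul (.c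 1024) (.add (.mul (.c 853) (.w 0 1)) (.mul (.c 171) (.q 0)))) (.w 1 2)) (.mul (.mul (.c 12) (.mul (.mul (.c 86) (.v 1)) (.mul (.c 86) (.v 1)))) (.w 0 1)))) (.add (.mul (.mul (.mul (.add (.mul (.r 2 293 744 2) (.q 0)) (.mul (.r 2 294 744 2) (.v 0))) (.mul (.mul (.c 86) (.v 1)) (.add (.mul (.mul (.c 1048576) (.r 2 2 744 2)) (.w 1 2)) (.mul (.mul (.c 86) (.v 1)) (.add (.mul (.mul (.c 1024) (.r 2 3 744 2)) (.w 1 1)) (.mul (.mul (.c 86) (.v 1)) (.r 2 4 744 2))))))) (.mul (.c 2) (.mul (.mul (.c 86) (.v 1)) (.mul (.c 86) (.v 1))))) (.w 0 1)) (.add (.mul (.mul (.add (.mul (.r 2 295 744 2) (.q 0)) (.mul (.r 2 296 744 2) (.v 0))) (.mul (.mul (.c 86) (.v 1)) (.add (.mul (.mul (.c 1048576) (.r 2 2 744 2)) (.w 1 2)) (.mul (.mul (.c 86) (.v 1)) (.add (.mul (.mul (.c 1024) (.r 2 3 744 2)) (.w 1 1)) (.mul (.mul (.c 86) (.v 1)) (.r 2 4 744 2))))))) (.sub (.mul (.mul (.c 1024) (.mul (.c 2) (.add (.mul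 (.c 853) (.w 0 1)) (.mul (.c 171) (.q 0))))) (.w 1 2)) (.mul (.mul (.c 24) (.mul (.mul (.c 86) (.v 1)) (.mul (.c 86) (.v 1)))) (.w 0 1)))) (.mul (.mul (.mul (.c 1048576) (.mul (.mul (.add (.mul (.r 2 297 744 2) (.q 0)) (.mul (.r 2 298 744 2) (.v 0))) (.mul (.mul (.c 86) (.v 1)) (.add (.mul (.mul (.c 1048576) (.r 2 2 744 2)) (.w 1 2)) (.mul (.mul (.c 86) (.v 1)) (.add (.mul (.mul (.c 1024) (.r 2 3 744 2)) (.w 1 1)) (.mul (.mul (.c 86) (.v 1)) (.r 2 4 744 2))))))) (.c 2))) (.w 0 1)) (.w 1 2)))))))))) (.w 0 2)) (.w 2 1))), 154, 5, 6, 4, 1⟩,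
  ⟨(.sub (.sub (.mul (.mul (.mul (.c 0) (.w 0 3)) (.w 1 3)) (.w 2 3)) (.mul (.mul (.mul (.c 86) (.v 1)) (.add (.mul (.mul (.c 1048576) (.r 2 2 744 2)) (.w 1 2)) (.mul (.mul (.c 86) (.v 1)) (.add (.mul (.mul (.c 1024) (.r 2 3 744 2)) (.w 1 1)) (.mul (.mul (.c 86) (.v 1)) (.r 2 4 744 2)))))) (.mul (.add (.mul (.q 2) (.r 0 5 1 3)) (.mul (.v 2) (.r 0 749 1 3))) (.mul (.add (.mul (.mul (.c 1024) (.s 2 93 744 2)) (.w 0 1)) (.mul (.mul (.c 171) (.v 0)) (.s 2 96 744 2))) (.c 1))))) (.mul (.mul (.mul (.c 17179869184) (.add (.mul (.mul (.add (.mul (.r 2 277 744 2) (.q 0)) (.mul (.r 2 278 744 2) (.v 0))) (.mul (.mul (.c 86) (.v 1)) (.add (.mul (.mul (.c 1048576) (.r 2 2 744 2)) (.w 1 2)) (.mul (.mul (.c 86) (.v 1)) (.add (.mul (.mul (.c 1024) (.r 2 3 744 2)) (.w 1 1)) (.mul (.mul (.c 86) (.v 1)) (.r 2 4 744 2))))))) (.sub (.c 0) (.mul (.c 12) (.c 1)))) (.add (.mul (.mul (.add (.mul (.r 2 281 744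 2) (.q 0)) (.mul (.r 2 282 744 2) (.v 0))) (.mul (.mul (.c 86) (.v 1)) (.add (.mul (.mul (.c 1048576) (.r 2 2 744 2)) (.w 1 2)) (.mul (.mul (.c 86) (.v 1)) (.add (.mul (.mul (.c 1024) (.r 2 3 744 2)) (.w 1 1)) (.mul (.mul (.c 86) (.v 1)) (.r 2 4 744 2))))))) (.c 1)) (.add (.mul (.mul (.add (.mul (.r 2 285 744 2) (.q 0)) (.mul (.r 2 286 744 2) (.v 0))) (.mul (.mul (.c 86) (.v 1)) (.add (.mul (.mul (.c 1048576) (.r 2 2 744 2)) (.w 1 2)) (.mul (.mul (.c 86) (.v 1)) (.add (.mul (.mul (.c 1024) (.r 2 3 744 2)) (.w 1 1)) (.mul (.mul (.c 86) (.v 1)) (.r 2 4 744 2))))))) (.sub (.c 0) (.mul (.c 12) (.c 1)))) (.add (.mul (.mul (.add (.mul (.r 2 287 744 2) (.q 0)) (.mul (.r 2 288 744 2) (.v 0))) (.mul (.mul (.c 86) (.v 1)) (.add (.mul (.mul (.c 1048576) (.r 2 2 744 2)) (.w 1 2)) (.mul (.mul (.c 86) (.v 1)) (.add (.mul (.mul (.c 1024) (.r 2 3 744 2)) (.w 1 1)) (.mul (.mul (.c 86) (.v 1)) (.r 2 4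 744 2))))))) (.sub (.c 0) (.mul (.c 12) (.c 1)))) (.add (.mul (.mul (.add (.mul (.r 2 291 744 2) (.q 0)) (.mul (.r 2 292 744 2) (.v 0))) (.mul (.mul (.c 86) (.v 1)) (.add (.mul (.mul (.c 1048576) (.r 2 2 744 2)) (.w 1 2)) (.mul (.mul (.c 86) (.v 1)) (.add (.mul (.mul (.c 1024) (.r 2 3 744 2)) (.w 1 1)) (.mul (.mul (.c 86) (.v 1)) (.r 2 4 744 2))))))) (.c 1)) (.mul (.mul (.add (.mul (.r 2 295 744 2) (.q 0)) (.mul (.r 2 296 744 2) (.v 0))) (.mul (.mul (.c 86) (.v 1)) (.add (.mul (.mul (.c 1048576) (.r 2 2 744 2)) (.w 1 2)) (.mul (.mul (.c 86) (.v 1)) (.add (.mul (.mul (.c 1024) (.r 2 3 744 2)) (.w 1 1)) (.mul (.mul (.c 86) (.v 1)) (.r 2 4 744 2))))))) (.sub (.c 0) (.mul (.c 12) (.c 1)))))))))) (.w 0 2)) (.w 2 1))), 141, 4, 4, 4, 1⟩,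
  ⟨(.sub (.sub (.mul (.mul (.mul (.c 0) (.w 0 2)) (.w 1 3)) (.w 2 3)) (.mul (.mul (.mul (.c 86) (.v 1)) (.add (.mul (.mul (.c 1048576) (.r 2 2 744 2)) (.w 1 2)) (.mul (.mul (.c 86) (.v 1)) (.add (.mul (.mul (.c 1024) (.r 2 3 744 2)) (.w 1 1)) (.mul (.mul (.c 86) (.v 1)) (.r 2 4 744 2)))))) (.mul (.add (.mul (.q 2) (.r 0 5 1 3)) (.mul (.v 2) (.r 0 749 1 3))) (.mul (.s 2 94 744 2) (.c 1))))) (.mul (.mul (.mul (.c 16777216) (.add (.mul (.mul (.add (.mul (.r 2 279 744 2) (.q 0)) (.mul (.r 2 280 744 2) (.v 0))) (.mul (.mul (.c 86) (.v 1)) (.add (.mul (.mul (.c 1048576) (.r 2 2 744 2)) (.w 1 2)) (.mul (.mul (.c 86) (.v 1)) (.add (.mul (.mul (.c 1024) (.r 2 3 744 2)) (.w 1 1)) (.mul (.mul (.c 86) (.v 1)) (.r 2 4 744 2))))))) (.sub (.c 0) (.mul (.c 12) (.c 1)))) (.add (.mul (.mul (.add (.mul (.r 2 283 744 2) (.q 0)) (.mul (.r 2 284 744 2) (.v 0))) (.mul (.mul (.c 86) (.v 1)) (.add (.mul (.mul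 (.c 1048576) (.r 2 2 744 2)) (.w 1 2)) (.mul (.mul (.c 86) (.v 1)) (.add (.mul (.mul (.c 1024) (.r 2 3 744 2)) (.w 1 1)) (.mul (.mul (.c 86) (.v 1)) (.r 2 4 744 2))))))) (.mul (.c 2) (.c 1))) (.add (.mul (.mul (.add (.mul (.r 2 285 744 2) (.q 0)) (.mul (.r 2 286 744 2) (.v 0))) (.mul (.mul (.c 86) (.v 1)) (.add (.mul (.mul (.c 1048576) (.r 2 2 744 2)) (.w 1 2)) (.mul (.mul (.c 86) (.v 1)) (.add (.mul (.mul (.c 1024) (.r 2 3 744 2)) (.w 1 1)) (.mul (.mul (.c 86) (.v 1)) (.r 2 4 744 2))))))) (.sub (.c 0) (.mul (.c 24) (.c 1)))) (.add (.mul (.mul (.add (.mul (.r 2 289 744 2) (.q 0)) (.mul (.r 2 290 744 2) (.v 0))) (.mul (.mul (.c 86) (.v 1)) (.add (.mul (.mul (.c 1048576) (.r 2 2 744 2)) (.w 1 2)) (.mul (.mul (.c 86) (.v 1)) (.add (.mul (.mul (.c 1024) (.r 2 3 744 2)) (.w 1 1)) (.mul (.mul (.c 86) (.v 1)) (.r 2 4 744 2))))))) (.sub (.c 0) (.mul (.c 12) (.c 1)))) (.add (.mul (.mul (.add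 (.mul (.r 2 293 744 2) (.q 0)) (.mul (.r 2 294 744 2) (.v 0))) (.mul (.mul (.c 86) (.v 1)) (.add (.mul (.mul (.c 1048576) (.r 2 2 744 2)) (.w 1 2)) (.mul (.mul (.c 86) (.v 1)) (.add (.mul (.mul (.c 1024) (.r 2 3 744 2)) (.w 1 1)) (.mul (.mul (.c 86) (.v 1)) (.r 2 4 744 2))))))) (.mul (.c 2) (.c 1))) (.mul (.mul (.add (.mul (.r 2 295 744 2) (.q 0)) (.mul (.r 2 296 744 2) (.v 0))) (.mul (.mul (.c 86) (.v 1)) (.add (.mul (.mul (.c 1048576) (.r 2 2 744 2)) (.w 1 2)) (.mul (.mul (.c 86) (.v 1)) (.add (.mul (.mul (.c 1024) (.r 2 3 744 2)) (.w 1 1)) (.mul (.mul (.c 86) (.v 1)) (.r 2 4 744 2))))))) (.sub (.c 0) (.mul (.c 24) (.c 1)))))))))) (.w 0 1)) (.w 2 1))), 130, 3, 4, 4, 1⟩,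
  ⟨(.sub (.sub (.mul (.mul (.mul (.c 0) (.w 0 2)) (.w 1 3)) (.w 2 3)) (.mul (.mul (.mul (.c 86) (.v 1)) (.add (.mul (.mul (.c 1048576) (.r 2 2 744 2)) (.w 1 2)) (.mul (.mul (.c 86) (.v 1)) (.add (.mul (.mul (.c 1024) (.r 2 3 744 2)) (.w 1 1)) (.mul (.mul (.c 86) (.v 1)) (.r 2 4 744 2)))))) (.mul (.add (.mul (.q 2) (.r 0 5 1 3)) (.mul (.v 2) (.r 0 749 1 3))) (.mul (.s 2 95 744 2) (.c 1))))) (.mul (.mul (.mul (.c 16777216) (.add (.mul (.mul (.add (.mul (.r 2 281 744 2) (.q 0)) (.mul (.r 2 282 744 2) (.v 0))) (.mul (.mul (.c 86) (.v 1)) (.add (.mul (.mul (.c 1048576) (.r 2 2 744 2)) (.w 1 2)) (.mul (.mul (.c 86) (.v 1)) (.add (.mul (.mul (.c 1024) (.r 2 3 744 2)) (.w 1 1)) (.mul (.mul (.c 86) (.v 1)) (.r 2 4 744 2))))))) (.sub (.c 0) (.mul (.c 12) (.c 1)))) (.add (.mul (.mul (.add (.mul (.r 2 283 744 2) (.q 0)) (.mul (.r 2 284 744 2) (.v 0))) (.mul (.mul (.c 86) (.v 1)) (.add (.mul (.mul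 (.c 1048576) (.r 2 2 744 2)) (.w 1 2)) (.mul (.mul (.c 86) (.v 1)) (.add (.mul (.mul (.c 1024) (.r 2 3 744 2)) (.w 1 1)) (.mul (.mul (.c 86) (.v 1)) (.r 2 4 744 2))))))) (.sub (.c 0) (.mul (.c 12) (.c 1)))) (.add (.mul (.mul (.add (.mul (.r 2 285 744 2) (.q 0)) (.mul (.r 2 286 744 2) (.v 0))) (.mul (.mul (.c 86) (.v 1)) (.add (.mul (.mul (.c 1048576) (.r 2 2 744 2)) (.w 1 2)) (.mul (.mul (.c 86) (.v 1)) (.add (.mul (.mul (.c 1024) (.r 2 3 744 2)) (.w 1 1)) (.mul (.mul (.c 86) (.v 1)) (.r 2 4 744 2))))))) (.mul (.c 144) (.c 1))) (.add (.mul (.mul (.add (.mul (.r 2 291 744 2) (.q 0)) (.mul (.r 2 292 744 2) (.v 0))) (.mul (.mul (.c 86) (.v 1)) (.add (.mul (.mul (.c 1048576) (.r 2 2 744 2)) (.w 1 2)) (.mul (.mul (.c 86) (.v 1)) (.add (.mul (.mul (.c 1024) (.r 2 3 744 2)) (.w 1 1)) (.mul (.mul (.c 86) (.v 1)) (.r 2 4 744 2))))))) (.sub (.c 0) (.mul (.c 12) (.c 1)))) (.add (.mul (.mul (.add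 (.mul (.r 2 293 744 2) (.q 0)) (.mul (.r 2 294 744 2) (.v 0))) (.mul (.mul (.c 86) (.v 1)) (.add (.mul (.mul (.c 1048576) (.r 2 2 744 2)) (.w 1 2)) (.mul (.mul (.c 86) (.v 1)) (.add (.mul (.mul (.c 1024) (.r 2 3 744 2)) (.w 1 1)) (.mul (.mul (.c 86) (.v 1)) (.r 2 4 744 2))))))) (.sub (.c 0) (.mul (.c 12) (.c 1)))) (.mul (.mul (.add (.mul (.r 2 295 744 2) (.q 0)) (.mul (.r 2 296 744 2) (.v 0))) (.mul (.mul (.c 86) (.v 1)) (.add (.mul (.mul (.c 1048576) (.r 2 2 744 2)) (.w 1 2)) (.mul (.mul (.c 86) (.v 1)) (.add (.mul (.mul (.c 1024) (.r 2 3 744 2)) (.w 1 1)) (.mul (.mul (.c 86) (.v 1)) (.r 2 4 744 2))))))) (.mul (.c 144) (.c 1))))))))) (.w 0 1)) (.w 2 1))), 131, 3, 4, 4, 1⟩,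
  ⟨(.sub (.mul (.mul (.mul (.c 0) (.w 0 1)) (.w 1 5)) (.w 2 2)) (.add (.mul (.mul (.c 1024) (.mul (.mul (.add (.mul (.r 2 287 744 2) (.q 0)) (.mul (.r 2 288 744 2) (.v 0))) (.mul (.mul (.c 86) (.v 1)) (.add (.mul (.mul (.c 1048576) (.r 2 2 744 2)) (.w 1 2)) (.mul (.mul (.c 86) (.v 1)) (.add (.mul (.mul (.c 1024) (.r 2 3 744 2)) (.w 1 1)) (.mul (.mul (.c 86) (.v 1)) (.r 2 4 744 2))))))) (.sub (.mul (.c 0) (.w 1 1)) (.mul (.c 12) (.mul (.c 86) (.v 1)))))) (.w 1 1)) (.add (.mul (.mul (.add (.mul (.r 2 291 744 2) (.q 0)) (.mul (.r 2 292 744 2) (.v 0))) (.mul (.mul (.c 86) (.v 1)) (.add (.mul (.mul (.c 1048576) (.r 2 2 744 2)) (.w 1 2)) (.mul (.mul (.c 86) (.v 1)) (.add (.mul (.mul (.c 1024) (.r 2 3 744 2)) (.w 1 1)) (.mul (.mul (.c 86) (.v 1)) (.r 2 4 744 2))))))) (.sub (.mul (.mul (.c 1024) (.mul (.c 86) (.v 1))) (.w 1 1)) (.mul (.c 12) (.mul (.mul (.c 86) (.v 1)) (.mul (.c 86) (.v 1))))))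 (.add (.mul (.mul (.add (.mul (.r 2 293 744 2) (.q 0)) (.mul (.r 2 294 744 2) (.v 0))) (.mul (.mul (.c 86) (.v 1)) (.add (.mul (.mul (.c 1048576) (.r 2 2 744 2)) (.w 1 2)) (.mul (.mul (.c 86) (.v 1)) (.add (.mul (.mul (.c 1024) (.r 2 3 744 2)) (.w 1 1)) (.mul (.mul (.c 86) (.v 1)) (.r 2 4 744 2))))))) (.sub (.mul (.c 0) (.w 1 2)) (.mul (.c 12) (.mul (.mul (.c 86) (.v 1)) (.mul (.c 86) (.v 1)))))) (.add (.mul (.mul (.add (.mul (.r 2 295 744 2) (.q 0)) (.mul (.r 2 296 744 2) (.v 0))) (.mul (.mul (.c 86) (.v 1)) (.add (.mul (.mul (.c 1048576) (.r 2 2 744 2)) (.w 1 2)) (.mul (.mul (.c 86) (.v 1)) (.add (.mul (.mul (.c 1024) (.r 2 3 744 2)) (.w 1 1)) (.mul (.mul (.c 86) (.v 1)) (.r 2 4 744 2))))))) (.sub (.mul (.c 144) (.mul (.mul (.c 86) (.v 1)) (.mul (.c 86) (.v 1)))) (.mul (.mul (.c 1024) (.mul (.c 12) (.mul (.c 86) (.v 1)))) (.w 1 1)))) (.mul (.mul (.c 1048576) (.mul (.mul (.add (.mul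 (.r 2 297 744 2) (.q 0)) (.mul (.r 2 298 744 2) (.v 0))) (.mul (.mul (.c 86) (.v 1)) (.add (.mul (.mul (.c 1048576) (.r 2 2 744 2)) (.w 1 2)) (.mul (.mul (.c 86) (.v 1)) (.add (.mul (.mul (.c 1024) (.r 2 3 744 2)) (.w 1 1)) (.mul (.mul (.c 86) (.v 1)) (.r 2 4 744 2))))))) (.sub (.c 0) (.mul (.c 12) (.c 1))))) (.w 1 2))))))), 122, 2, 6, 3, 1⟩,
  ⟨(.sub (.mul (.sub (.mul (.mul (.mul (.mul (.c 295147905179352825856) (.mul (.mul (.c 86) (.v 1)) (.add (.mul (.c 1024) (.add (.mul (.add (.mul (.mul (.c 1024) (.s 2 143 744 2)) (.w 0 1)) (.mul (.s 2 144 744 2) (.mul (.c 171) (.v 0)))) (.w 1 1)) (.mul (.mul (.s 2 145 744 2) (.mul (.c 86) (.v 1))) (.w 0 1)))) (.mul (.s 2 146 744 2) (.mul (.mul (.c 86) (.v 1)) (.mul (.c 171) (.v 0))))))) (.w 0 3)) (.w 1 2)) (.w 2 2)) (.mul (.mul (.mul (.c 86) (.v 1)) (.add (.mul (.mul (.c 1048576) (.r 2 2 744 2)) (.w 1 2)) (.mul (.mul (.c 86) (.v 1)) (.add (.mul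 (.mul (.c 1024) (.r 2 3 744 2)) (.w 1 1)) (.mul (.mul (.c 86) (.v 1)) (.r 2 4 744 2)))))) (.mul (.add (.mul (.q 2) (.r 0 5 1 3)) (.mul (.v 2) (.r 0 749 1 3))) (.add (.mul (.mul (.mul (.mul (.c 17179869184) (.mul (.c 1) (.add (.mul (.c 853) (.w 0 1)) (.mul (.c 171) (.q 0))))) (.w 0 1)) (.w 1 1)) (.w 2 1)) (.add (.mul (.mul (.c 1024) (.mul (.s 2 91 744 2) (.add (.mul (.mul (.c 767) (.w 0 1)) (.w 1 1)) (.add (.mul (.mul (.c 171) (.q 0)) (.w 1 1)) (.mul (.mul (.c 86) (.q 1)) (.w 0 1)))))) (.w 0 1)) (.mul (.s 2 92 744 2) (.mul (.mul (.c 171) (.v 0)) (.add (.mul (.mul (.c 767) (.w 0 1)) (.w 1 1)) (.add (.mul (.mul (.c 171) (.q 0)) (.w 1 1)) (.mul (.mul (.c 86) (.q 1)) (.w 0 1))))))))))) (.w 1 1)) (.mul (.mul (.mul (.c 16777216) (.add (.mul (.mul (.c 1024) (.mul (.mul (.add (.mul (.r 2 299 744 2) (.q 0)) (.mul (.r 2 300 744 2) (.v 0))) (.mul (.mul (.c 86) (.v 1)) (.add (.mul (.mul (.c 1048576)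 (.r 2 2 744 2)) (.w 1 2)) (.mul (.mul (.c 86) (.v 1)) (.add (.mul (.mul (.c 1024) (.r 2 3 744 2)) (.w 1 1)) (.mul (.mul (.c 86) (.v 1)) (.r 2 4 744 2))))))) (.mul (.c 2) (.add (.mul (.mul (.c 767) (.w 0 1)) (.w 1 1)) (.add (.mul (.mul (.c 171) (.q 0)) (.w 1 1)) (.mul (.mul (.c 86) (.q 1)) (.w 0 1))))))) (.w 1 1)) (.add (.mul (.mul (.c 1024) (.mul (.mul (.add (.mul (.r 2 301 744 2) (.q 0)) (.mul (.r 2 302 744 2) (.v 0))) (.mul (.mul (.c 86) (.v 1)) (.add (.mul (.mul (.c 1048576) (.r 2 2 744 2)) (.w 1 2)) (.mul (.mul (.c 86) (.v 1)) (.add (.mul (.mul (.c 1024) (.r 2 3 744 2)) (.w 1 1)) (.mul (.mul (.c 86) (.v 1)) (.r 2 4 744 2))))))) (.add (.mul (.mul (.c 767) (.w 0 1)) (.w 1 1)) (.add (.mul (.mul (.c 171) (.q 0)) (.w 1 1)) (.mul (.mul (.c 86) (.q 1)) (.w 0 1)))))) (.w 1 1)) (.add (.mul (.mul (.c 1024) (.mul (.mul (.add (.mul (.r 2 307 744 2) (.q 0)) (.mul (.r 2 308 744 2) (.v 0))) (.mul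 (.mul (.c 86) (.v 1)) (.add (.mul (.mul (.c 1048576) (.r 2 2 744 2)) (.w 1 2)) (.mul (.mul (.c 86) (.v 1)) (.add (.mul (.mul (.c 1024) (.r 2 3 744 2)) (.w 1 1)) (.mul (.mul (.c 86) (.v 1)) (.r 2 4 744 2))))))) (.mul (.c 2) (.add (.mul (.mul (.c 767) (.w 0 1)) (.w 1 1)) (.add (.mul (.mul (.c 171) (.q 0)) (.w 1 1)) (.mul (.mul (.c 86) (.q 1)) (.w 0 1))))))) (.w 1 1)) (.add (.mul (.mul (.c 1024) (.mul (.mul (.add (.mul (.r 2 309 744 2) (.q 0)) (.mul (.r 2 310 744 2) (.v 0))) (.mul (.mul (.c 86) (.v 1)) (.add (.mul (.mul (.c 1048576) (.r 2 2 744 2)) (.w 1 2)) (.mul (.mul (.c 86) (.v 1)) (.add (.mul (.mul (.c 1024) (.r 2 3 744 2)) (.w 1 1)) (.mul (.mul (.c 86) (.v 1)) (.r 2 4 744 2))))))) (.mul (.c 2) (.add (.mul (.c 853) (.w 0 1)) (.mul (.c 171) (.q 0)))))) (.w 1 2)) (.add (.mul (.mul (.add (.mul (.r 2 311 744 2) (.q 0)) (.mul (.r 2 312 744 2) (.v 0))) (.mul (.mul (.c 86) (.v 1)) (.add (.mul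 (.mul (.c 1048576) (.r 2 2 744 2)) (.w 1 2)) (.mul (.mul (.c 86) (.v 1)) (.add (.mul (.mul (.c 1024) (.r 2 3 744 2)) (.w 1 1)) (.mul (.mul (.c 86) (.v 1)) (.r 2 4 744 2))))))) (.sub (.mul (.mul (.c 1024) (.add (.mul (.c 853) (.w 0 1)) (.mul (.c 171) (.q 0)))) (.w 1 2)) (.mul (.mul (.c 12) (.mul (.mul (.c 86) (.v 1)) (.mul (.c 86) (.v 1)))) (.w 0 1)))) (.add (.mul (.mul (.mul (.add (.mul (.r 2 315 744 2) (.q 0)) (.mul (.r 2 316 744 2) (.v 0))) (.mul (.mul (.c 86) (.v 1)) (.add (.mul (.mul (.c 1048576) (.r 2 2 744 2)) (.w 1 2)) (.mul (.mul (.c 86) (.v 1)) (.add (.mul (.mul (.c 1024) (.r 2 3 744 2)) (.w 1 1)) (.mul (.mul (.c 86) (.v 1)) (.r 2 4 744 2))))))) (.mul (.c 2) (.mul (.mul (.c 86) (.v 1)) (.mul (.c 86) (.v 1))))) (.w 0 1)) (.add (.mul (.mul (.add (.mul (.r 2 317 744 2) (.q 0)) (.mul (.r 2 318 744 2) (.v 0))) (.mul (.mul (.c 86) (.v 1)) (.add (.mul (.mul (.c 1048576) (.r 2 2 744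 2)) (.w 1 2)) (.mul (.mul (.c 86) (.v 1)) (.add (.mul (.mul (.c 1024) (.r 2 3 744 2)) (.w 1 1)) (.mul (.mul (.c 86) (.v 1)) (.r 2 4 744 2))))))) (.sub (.mul (.mul (.c 1024) (.mul (.c 2) (.add (.mul (.c 853) (.w 0 1)) (.mul (.c 171) (.q 0))))) (.w 1 2)) (.mul (.mul (.c 24) (.mul (.mul (.c 86) (.v 1)) (.mul (.c 86) (.v 1)))) (.w 0 1)))) (.mul (.mul (.mul (.c 1048576) (.mul (.mul (.add (.mul (.r 2 319 744 2) (.q 0)) (.mul (.r 2 320 744 2) (.v 0))) (.mul (.mul (.c 86) (.v 1)) (.add (.mul (.mul (.c 1048576) (.r 2 2 744 2)) (.w 1 2)) (.mul (.mul (.c 86) (.v 1)) (.add (.mul (.mul (.c 1024) (.r 2 3 744 2)) (.w 1 1)) (.mul (.mul (.c 86) (.v 1)) (.r 2 4 744 2))))))) (.c 2))) (.w 0 1)) (.w 1 2)))))))))) (.w 0 2)) (.w 2 1))), 154, 5, 6, 4, 1⟩,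
  ⟨(.sub (.sub (.mul (.mul (.mul (.c 0) (.w 0 3)) (.w 1 3)) (.w 2 3)) (.mul (.mul (.mul (.c 86) (.v 1)) (.add (.mul (.mul (.c 1048576) (.r 2 2 744 2)) (.w 1 2)) (.mul (.mul (.c 86) (.v 1)) (.add (.mul (.mul (.c 1024) (.r 2 3 744 2)) (.w 1 1)) (.mul (.mul (.c 86) (.v 1)) (.r 2 4 744 2)))))) (.mul (.add (.mul (.q 2) (.r 0 5 1 3)) (.mul (.v 2) (.r 0 749 1 3))) (.mul (.add (.mul (.mul (.c 1024) (.s 2 93 744 2)) (.w 0 1)) (.mul (.mul (.c 171) (.v 0)) (.s 2 96 744 2))) (.c 1))))) (.mul (.mul (.mul (.c 17179869184) (.add (.mul (.mul (.add (.mul (.r 2 299 744 2) (.q 0)) (.mul (.r 2 300 744 2) (.v 0))) (.mul (.mul (.c 86) (.v 1)) (.add (.mul (.mul (.c 1048576) (.r 2 2 744 2)) (.w 1 2)) (.mul (.mul (.c 86) (.v 1)) (.add (.mul (.mul (.c 1024) (.r 2 3 744 2)) (.w 1 1)) (.mul (.mul (.c 86) (.v 1)) (.r 2 4 744 2))))))) (.sub (.c 0) (.mul (.c 12) (.c 1)))) (.add (.mul (.mul (.add (.mul (.r 2 303 744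 2) (.q 0)) (.mul (.r 2 304 744 2) (.v 0))) (.mul (.mul (.c 86) (.v 1)) (.add (.mul (.mul (.c 1048576) (.r 2 2 744 2)) (.w 1 2)) (.mul (.mul (.c 86) (.v 1)) (.add (.mul (.mul (.c 1024) (.r 2 3 744 2)) (.w 1 1)) (.mul (.mul (.c 86) (.v 1)) (.r 2 4 744 2))))))) (.c 1)) (.add (.mul (.mul (.add (.mul (.r 2 307 744 2) (.q 0)) (.mul (.r 2 308 744 2) (.v 0))) (.mul (.mul (.c 86) (.v 1)) (.add (.mul (.mul (.c 1048576) (.r 2 2 744 2)) (.w 1 2)) (.mul (.mul (.c 86) (.v 1)) (.add (.mul (.mul (.c 1024) (.r 2 3 744 2)) (.w 1 1)) (.mul (.mul (.c 86) (.v 1)) (.r 2 4 744 2))))))) (.sub (.c 0) (.mul (.c 12) (.c 1)))) (.add (.mul (.mul (.add (.mul (.r 2 309 744 2) (.q 0)) (.mul (.r 2 310 744 2) (.v 0))) (.mul (.mul (.c 86) (.v 1)) (.add (.mul (.mul (.c 1048576) (.r 2 2 744 2)) (.w 1 2)) (.mul (.mul (.c 86) (.v 1)) (.add (.mul (.mul (.c 1024) (.r 2 3 744 2)) (.w 1 1)) (.mul (.mul (.c 86) (.v 1)) (.r 2 4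 744 2))))))) (.sub (.c 0) (.mul (.c 12) (.c 1)))) (.add (.mul (.mul (.add (.mul (.r 2 313 744 2) (.q 0)) (.mul (.r 2 314 744 2) (.v 0))) (.mul (.mul (.c 86) (.v 1)) (.add (.mul (.mul (.c 1048576) (.r 2 2 744 2)) (.w 1 2)) (.mul (.mul (.c 86) (.v 1)) (.add (.mul (.mul (.c 1024) (.r 2 3 744 2)) (.w 1 1)) (.mul (.mul (.c 86) (.v 1)) (.r 2 4 744 2))))))) (.c 1)) (.mul (.mul (.add (.mul (.r 2 317 744 2) (.q 0)) (.mul (.r 2 318 744 2) (.v 0))) (.mul (.mul (.c 86) (.v 1)) (.add (.mul (.mul (.c 1048576) (.r 2 2 744 2)) (.w 1 2)) (.mul (.mul (.c 86) (.v 1)) (.add (.mul (.mul (.c 1024) (.r 2 3 744 2)) (.w 1 1)) (.mul (.mul (.c 86) (.v 1)) (.r 2 4 744 2))))))) (.sub (.c 0) (.mul (.c 12) (.c 1)))))))))) (.w 0 2)) (.w 2 1))), 141, 4, 4, 4, 1⟩,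
  ⟨(.sub (.sub (.mul (.mul (.mul (.c 0) (.w 0 2)) (.w 1 3)) (.w 2 3)) (.mul (.mul (.mul (.c 86) (.v 1)) (.add (.mul (.mul (.c 1048576) (.r 2 2 744 2)) (.w 1 2)) (.mul (.mul (.c 86) (.v 1)) (.add (.mul (.mul (.c 1024) (.r 2 3 744 2)) (.w 1 1)) (.mul (.mul (.c 86) (.v 1)) (.r 2 4 744 2)))))) (.mul (.add (.mul (.q 2) (.r 0 5 1 3)) (.mul (.v 2) (.r 0 749 1 3))) (.mul (.s 2 94 744 2) (.c 1))))) (.mul (.mul (.mul (.c 16777216) (.add (.mul (.mul (.add (.mul (.r 2 301 744 2) (.q 0)) (.mul (.r 2 302 744 2) (.v 0))) (.mul (.mul (.c 86) (.v 1)) (.add (.mul (.mul (.c 1048576) (.r 2 2 744 2)) (.w 1 2)) (.mul (.mul (.c 86) (.v 1)) (.add (.mul (.mul (.c 1024) (.r 2 3 744 2)) (.w 1 1)) (.mul (.mul (.c 86) (.v 1)) (.r 2 4 744 2))))))) (.sub (.c 0) (.mul (.c 12) (.c 1)))) (.add (.mul (.mul (.add (.mul (.r 2 305 744 2) (.q 0)) (.mul (.r 2 306 744 2) (.v 0))) (.mul (.mul (.c 86) (.v 1)) (.add (.mul (.mul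 (.c 1048576) (.r 2 2 744 2)) (.w 1 2)) (.mul (.mul (.c 86) (.v 1)) (.add (.mul (.mul (.c 1024) (.r 2 3 744 2)) (.w 1 1)) (.mul (.mul (.c 86) (.v 1)) (.r 2 4 744 2))))))) (.mul (.c 2) (.c 1))) (.add (.mul (.mul (.add (.mul (.r 2 307 744 2) (.q 0)) (.mul (.r 2 308 744 2) (.v 0))) (.mul (.mul (.c 86) (.v 1)) (.add (.mul (.mul (.c 1048576) (.r 2 2 744 2)) (.w 1 2)) (.mul (.mul (.c 86) (.v 1)) (.add (.mul (.mul (.c 1024) (.r 2 3 744 2)) (.w 1 1)) (.mul (.mul (.c 86) (.v 1)) (.r 2 4 744 2))))))) (.sub (.c 0) (.mul (.c 24) (.c 1)))) (.add (.mul (.mul (.add (.mul (.r 2 311 744 2) (.q 0)) (.mul (.r 2 312 744 2) (.v 0))) (.mul (.mul (.c 86) (.v 1)) (.add (.mul (.mul (.c 1048576) (.r 2 2 744 2)) (.w 1 2)) (.mul (.mul (.c 86) (.v 1)) (.add (.mul (.mul (.c 1024) (.r 2 3 744 2)) (.w 1 1)) (.mul (.mul (.c 86) (.v 1)) (.r 2 4 744 2))))))) (.sub (.c 0) (.mul (.c 12) (.c 1)))) (.add (.mul (.mul (.add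 (.mul (.r 2 315 744 2) (.q 0)) (.mul (.r 2 316 744 2) (.v 0))) (.mul (.mul (.c 86) (.v 1)) (.add (.mul (.mul (.c 1048576) (.r 2 2 744 2)) (.w 1 2)) (.mul (.mul (.c 86) (.v 1)) (.add (.mul (.mul (.c 1024) (.r 2 3 744 2)) (.w 1 1)) (.mul (.mul (.c 86) (.v 1)) (.r 2 4 744 2))))))) (.mul (.c 2) (.c 1))) (.mul (.mul (.add (.mul (.r 2 317 744 2) (.q 0)) (.mul (.r 2 318 744 2) (.v 0))) (.mul (.mul (.c 86) (.v 1)) (.add (.mul (.mul (.c 1048576) (.r 2 2 744 2)) (.w 1 2)) (.mul (.mul (.c 86) (.v 1)) (.add (.mul (.mul (.c 1024) (.r 2 3 744 2)) (.w 1 1)) (.mul (.mul (.c 86) (.v 1)) (.r 2 4 744 2))))))) (.sub (.c 0) (.mul (.c 24) (.c 1)))))))))) (.w 0 1)) (.w 2 1))), 130, 3, 4, 4, 1⟩,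
  ⟨(.sub (.sub (.mul (.mul (.mul (.c 0) (.w 0 2)) (.w 1 3)) (.w 2 3)) (.mul (.mul (.mul (.c 86) (.v 1)) (.add (.mul (.mul (.c 1048576) (.r 2 2 744 2)) (.w 1 2)) (.mul (.mul (.c 86) (.v 1)) (.add (.mul (.mul (.c 1024) (.r 2 3 744 2)) (.w 1 1)) (.mul (.mul (.c 86) (.v 1)) (.r 2 4 744 2)))))) (.mul (.add (.mul (.q 2) (.r 0 5 1 3)) (.mul (.v 2) (.r 0 749 1 3))) (.mul (.s 2 95 744 2) (.c 1))))) (.mul (.mul (.mul (.c 16777216) (.add (.mul (.mul (.add (.mul (.r 2 303 744 2) (.q 0)) (.mul (.r 2 304 744 2) (.v 0))) (.mul (.mul (.c 86) (.v 1)) (.add (.mul (.mul (.c 1048576) (.r 2 2 744 2)) (.w 1 2)) (.mul (.mul (.c 86) (.v 1)) (.add (.mul (.mul (.c 1024) (.r 2 3 744 2)) (.w 1 1)) (.mul (.mul (.c 86) (.v 1)) (.r 2 4 744 2))))))) (.sub (.c 0) (.mul (.c 12) (.c 1)))) (.add (.mul (.mul (.add (.mul (.r 2 305 744 2) (.q 0)) (.mul (.r 2 306 744 2) (.v 0))) (.mul (.mul (.c 86) (.v 1)) (.add (.mul (.mul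 (.c 1048576) (.r 2 2 744 2)) (.w 1 2)) (.mul (.mul (.c 86) (.v 1)) (.add (.mul (.mul (.c 1024) (.r 2 3 744 2)) (.w 1 1)) (.mul (.mul (.c 86) (.v 1)) (.r 2 4 744 2))))))) (.sub (.c 0) (.mul (.c 12) (.c 1)))) (.add (.mul (.mul (.add (.mul (.r 2 307 744 2) (.q 0)) (.mul (.r 2 308 744 2) (.v 0))) (.mul (.mul (.c 86) (.v 1)) (.add (.mul (.mul (.c 1048576) (.r 2 2 744 2)) (.w 1 2)) (.mul (.mul (.c 86) (.v 1)) (.add (.mul (.mul (.c 1024) (.r 2 3 744 2)) (.w 1 1)) (.mul (.mul (.c 86) (.v 1)) (.r 2 4 744 2))))))) (.mul (.c 144) (.c 1))) (.add (.mul (.mul (.add (.mul (.r 2 313 744 2) (.q 0)) (.mul (.r 2 314 744 2) (.v 0))) (.mul (.mul (.c 86) (.v 1)) (.add (.mul (.mul (.c 1048576) (.r 2 2 744 2)) (.w 1 2)) (.mul (.mul (.c 86) (.v 1)) (.add (.mul (.mul (.c 1024) (.r 2 3 744 2)) (.w 1 1)) (.mul (.mul (.c 86) (.v 1)) (.r 2 4 744 2))))))) (.sub (.c 0) (.mul (.c 12) (.c 1)))) (.add (.mul (.mul (.add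 (.mul (.r 2 315 744 2) (.q 0)) (.mul (.r 2 316 744 2) (.v 0))) (.mul (.mul (.c 86) (.v 1)) (.add (.mul (.mul (.c 1048576) (.r 2 2 744 2)) (.w 1 2)) (.mul (.mul (.c 86) (.v 1)) (.add (.mul (.mul (.c 1024) (.r 2 3 744 2)) (.w 1 1)) (.mul (.mul (.c 86) (.v 1)) (.r 2 4 744 2))))))) (.sub (.c 0) (.mul (.c 12) (.c 1)))) (.mul (.mul (.add (.mul (.r 2 317 744 2) (.q 0)) (.mul (.r 2 318 744 2) (.v 0))) (.mul (.mul (.c 86) (.v 1)) (.add (.mul (.mul (.c 1048576) (.r 2 2 744 2)) (.w 1 2)) (.mul (.mul (.c 86) (.v 1)) (.add (.mul (.mul (.c 1024) (.r 2 3 744 2)) (.w 1 1)) (.mul (.mul (.c 86) (.v 1)) (.r 2 4 744 2))))))) (.mul (.c 144) (.c 1))))))))) (.w 0 1)) (.w 2 1))), 131, 3, 4, 4, 1⟩,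
  ⟨(.sub (.mul (.mul (.mul (.c 0) (.w 0 1)) (.w 1 5)) (.w 2 2)) (.add (.mul (.mul (.c 1024) (.mul (.mul (.add (.mul (.r 2 309 744 2) (.q 0)) (.mul (.r 2 310 744 2) (.v 0))) (.mul (.mul (.c 86) (.v 1)) (.add (.mul (.mul (.c 1048576) (.r 2 2 744 2)) (.w 1 2)) (.mul (.mul (.c 86) (.v 1)) (.add (.mul (.mul (.c 1024) (.r 2 3 744 2)) (.w 1 1)) (.mul (.mul (.c 86) (.v 1)) (.r 2 4 744 2))))))) (.sub (.mul (.c 0) (.w 1 1)) (.mul (.c 12) (.mul (.c 86) (.v 1)))))) (.w 1 1)) (.add (.mul (.mul (.add (.mul (.r 2 313 744 2) (.q 0)) (.mul (.r 2 314 744 2) (.v 0))) (.mul (.mul (.c 86) (.v 1)) (.add (.mul (.mul (.c 1048576) (.r 2 2 744 2)) (.w 1 2)) (.mul (.mul (.c 86) (.v 1)) (.add (.mul (.mul (.c 1024) (.r 2 3 744 2)) (.w 1 1)) (.mul (.mul (.c 86) (.v 1)) (.r 2 4 744 2))))))) (.sub (.mul (.mul (.c 1024) (.mul (.c 86) (.v 1))) (.w 1 1)) (.mul (.c 12) (.mul (.mul (.c 86) (.v 1)) (.mul (.c 86) (.v 1))))))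 (.add (.mul (.mul (.add (.mul (.r 2 315 744 2) (.q 0)) (.mul (.r 2 316 744 2) (.v 0))) (.mul (.mul (.c 86) (.v 1)) (.add (.mul (.mul (.c 1048576) (.r 2 2 744 2)) (.w 1 2)) (.mul (.mul (.c 86) (.v 1)) (.add (.mul (.mul (.c 1024) (.r 2 3 744 2)) (.w 1 1)) (.mul (.mul (.c 86) (.v 1)) (.r 2 4 744 2))))))) (.sub (.mul (.c 0) (.w 1 2)) (.mul (.c 12) (.mul (.mul (.c 86) (.v 1)) (.mul (.c 86) (.v 1)))))) (.add (.mul (.mul (.add (.mul (.r 2 317 744 2) (.q 0)) (.mul (.r 2 318 744 2) (.v 0))) (.mul (.mul (.c 86) (.v 1)) (.add (.mul (.mul (.c 1048576) (.r 2 2 744 2)) (.w 1 2)) (.mul (.mul (.c 86) (.v 1)) (.add (.mul (.mul (.c 1024) (.r 2 3 744 2)) (.w 1 1)) (.mul (.mul (.c 86) (.v 1)) (.r 2 4 744 2))))))) (.sub (.mul (.c 144) (.mul (.mul (.c 86) (.v 1)) (.mul (.c 86) (.v 1)))) (.mul (.mul (.c 1024) (.mul (.c 12) (.mul (.c 86) (.v 1)))) (.w 1 1)))) (.mul (.mul (.c 1048576) (.mul (.mul (.add (.mul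 (.r 2 319 744 2) (.q 0)) (.mul (.r 2 320 744 2) (.v 0))) (.mul (.mul (.c 86) (.v 1)) (.add (.mul (.mul (.c 1048576) (.r 2 2 744 2)) (.w 1 2)) (.mul (.mul (.c 86) (.v 1)) (.add (.mul (.mul (.c 1024) (.r 2 3 744 2)) (.w 1 1)) (.mul (.mul (.c 86) (.v 1)) (.r 2 4 744 2))))))) (.sub (.c 0) (.mul (.c 12) (.c 1))))) (.w 1 2))))))), 122, 2, 6, 3, 1⟩,
  ⟨(.sub (.sub (.mul (.mul (.mul (.mul (.c 295147905179352825856) (.mul (.mul (.c 86) (.v 1)) (.add (.mul (.c 1024) (.add (.mul (.add (.mul (.mul (.c 1024) (.s 2 147 744 2)) (.w 0 1)) (.mul (.s 2 148 744 2) (.mul (.c 171) (.v 0)))) (.w 1 1)) (.mul (.mul (.s 2 149 744 2) (.mul (.c 86) (.v 1))) (.w 0 1)))) (.mul (.s 2 150 744 2) (.mul (.mul (.c 86) (.v 1)) (.mul (.c 171) (.v 0))))))) (.w 0 3)) (.w 1 3)) (.w 2 2)) (.mul (.mul (.mul (.c 86) (.v 1)) (.add (.mul (.mul (.c 1048576) (.r 2 2 744 2)) (.w 1 2)) (.mul (.mul (.c 86) (.v 1)) (.add (.mul (.mul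 (.c 1024) (.r 2 3 744 2)) (.w 1 1)) (.mul (.mul (.c 86) (.v 1)) (.r 2 4 744 2)))))) (.add (.mul (.mul (.mul (.c 16384) (.mul (.mul (.c 1) (.add (.mul (.c 853) (.w 0 1)) (.mul (.c 171) (.q 0)))) (.add (.mul (.add (.mul (.mul (.c 1024) (.mul (.s 2 35 744 2) (.add (.mul (.c 853) (.w 0 1)) (.mul (.c 171) (.q 0))))) (.w 0 1)) (.mul (.s 2 36 744 2) (.mul (.mul (.c 171) (.v 0)) (.add (.mul (.c 853) (.w 0 1)) (.mul (.c 171) (.q 0)))))) (.w 1 2)) (.mul (.mul (.s 2 38 744 2) (.mul (.mul (.c 86) (.v 1)) (.mul (.c 86) (.v 1)))) (.w 0 2))))) (.w 0 1)) (.w 2 1)) (.mul (.mul (.add (.mul (.q 2) (.r 0 5 1 3)) (.mul (.v 2) (.r 0 749 1 3))) (.add (.mul (.mul (.c 1024) (.mul (.s 2 55 744 2) (.add (.mul (.mul (.c 767) (.w 0 1)) (.w 1 1)) (.add (.mul (.mul (.c 171) (.q 0)) (.w 1 1)) (.mul (.mul (.c 86) (.q 1)) (.w 0 1)))))) (.w 0 1)) (.mul (.s 2 56 744 2) (.mul (.mul (.c 171) (.v 0)) (.add (.mul (.mul (.c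 767) (.w 0 1)) (.w 1 1)) (.add (.mul (.mul (.c 171) (.q 0)) (.w 1 1)) (.mul (.mul (.c 86) (.q 1)) (.w 0 1)))))))) (.w 1 1))))) (.mul (.mul (.mul (.c 16777216) (.add (.mul (.mul (.c 1024) (.mul (.mul (.add (.mul (.r 2 321 744 2) (.q 0)) (.mul (.r 2 322 744 2) (.v 0))) (.mul (.mul (.c 86) (.v 1)) (.add (.mul (.mul (.c 1048576) (.r 2 2 744 2)) (.w 1 2)) (.mul (.mul (.c 86) (.v 1)) (.add (.mul (.mul (.c 1024) (.r 2 3 744 2)) (.w 1 1)) (.mul (.mul (.c 86) (.v 1)) (.r 2 4 744 2))))))) (.mul (.c 2) (.add (.mul (.mul (.c 767) (.w 0 1)) (.w 1 1)) (.add (.mul (.mul (.c 171) (.q 0)) (.w 1 1)) (.mul (.mul (.c 86) (.q 1)) (.w 0 1))))))) (.w 1 1)) (.add (.mul (.mul (.c 1024) (.mul (.mul (.add (.mul (.r 2 323 744 2) (.q 0)) (.mul (.r 2 324 744 2) (.v 0))) (.mul (.mul (.c 86) (.v 1)) (.add (.mul (.mul (.c 1048576) (.r 2 2 744 2)) (.w 1 2)) (.mul (.mul (.c 86) (.v 1)) (.add (.mul (.mul (.c 1024) (.r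 2 3 744 2)) (.w 1 1)) (.mul (.mul (.c 86) (.v 1)) (.r 2 4 744 2))))))) (.add (.mul (.mul (.c 767) (.w 0 1)) (.w 1 1)) (.add (.mul (.mul (.c 171) (.q 0)) (.w 1 1)) (.mul (.mul (.c 86) (.q 1)) (.w 0 1)))))) (.w 1 1)) (.add (.mul (.mul (.c 1024) (.mul (.mul (.add (.mul (.r 2 329 744 2) (.q 0)) (.mul (.r 2 330 744 2) (.v 0))) (.mul (.mul (.c 86) (.v 1)) (.add (.mul (.mul (.c 1048576) (.r 2 2 744 2)) (.w 1 2)) (.mul (.mul (.c 86) (.v 1)) (.add (.mul (.mul (.c 1024) (.r 2 3 744 2)) (.w 1 1)) (.mul (.mul (.c 86) (.v 1)) (.r 2 4 744 2))))))) (.mul (.c 2) (.add (.mul (.mul (.c 767) (.w 0 1)) (.w 1 1)) (.add (.mul (.mul (.c 171) (.q 0)) (.w 1 1)) (.mul (.mul (.c 86) (.q 1)) (.w 0 1))))))) (.w 1 1)) (.add (.mul (.mul (.c 1024) (.mul (.mul (.add (.mul (.r 2 331 744 2) (.q 0)) (.mul (.r 2 332 744 2) (.v 0))) (.mul (.mul (.c 86) (.v 1)) (.add (.mul (.mul (.c 1048576) (.r 2 2 744 2)) (.w 1 2)) (.mul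 (.mul (.c 86) (.v 1)) (.add (.mul (.mul (.c 1024) (.r 2 3 744 2)) (.w 1 1)) (.mul (.mul (.c 86) (.v 1)) (.r 2 4 744 2))))))) (.mul (.c 2) (.add (.mul (.c 853) (.w 0 1)) (.mul (.c 171) (.q 0)))))) (.w 1 2)) (.add (.mul (.mul (.add (.mul (.r 2 333 744 2) (.q 0)) (.mul (.r 2 334 744 2) (.v 0))) (.mul (.mul (.c 86) (.v 1)) (.add (.mul (.mul (.c 1048576) (.r 2 2 744 2)) (.w 1 2)) (.mul (.mul (.c 86) (.v 1)) (.add (.mul (.mul (.c 1024) (.r 2 3 744 2)) (.w 1 1)) (.mul (.mul (.c 86) (.v 1)) (.r 2 4 744 2))))))) (.sub (.mul (.mul (.c 1024) (.add (.mul (.c 853) (.w 0 1)) (.mul (.c 171) (.q 0)))) (.w 1 2)) (.mul (.mul (.c 12) (.mul (.mul (.c 86) (.v 1)) (.mul (.c 86) (.v 1)))) (.w 0 1)))) (.add (.mul (.mul (.mul (.add (.mul (.r 2 337 744 2) (.q 0)) (.mul (.r 2 338 744 2) (.v 0))) (.mul (.mul (.c 86) (.v 1)) (.add (.mul (.mul (.c 1048576) (.r 2 2 744 2)) (.w 1 2)) (.mul (.mul (.c 86) (.v 1)) (.add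 (.mul (.mul (.c 1024) (.r 2 3 744 2)) (.w 1 1)) (.mul (.mul (.c 86) (.v 1)) (.r 2 4 744 2))))))) (.mul (.c 2) (.mul (.mul (.c 86) (.v 1)) (.mul (.c 86) (.v 1))))) (.w 0 1)) (.add (.mul (.mul (.add (.mul (.r 2 339 744 2) (.q 0)) (.mul (.r 2 340 744 2) (.v 0))) (.mul (.mul (.c 86) (.v 1)) (.add (.mul (.mul (.c 1048576) (.r 2 2 744 2)) (.w 1 2)) (.mul (.mul (.c 86) (.v 1)) (.add (.mul (.mul (.c 1024) (.r 2 3 744 2)) (.w 1 1)) (.mul (.mul (.c 86) (.v 1)) (.r 2 4 744 2))))))) (.sub (.mul (.mul (.c 1024) (.mul (.c 2) (.add (.mul (.c 853) (.w 0 1)) (.mul (.c 171) (.q 0))))) (.w 1 2)) (.mul (.mul (.c 24) (.mul (.mul (.c 86) (.v 1)) (.mul (.c 86) (.v 1)))) (.w 0 1)))) (.mul (.mul (.mul (.c 1048576) (.mul (.mul (.add (.mul (.r 2 341 744 2) (.q 0)) (.mul (.r 2 342 744 2) (.v 0))) (.mul (.mul (.c 86) (.v 1)) (.add (.mul (.mul (.c 1048576) (.r 2 2 744 2)) (.w 1 2)) (.mul (.mul (.c 86) (.v 1)) (.add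 (.mul (.mul (.c 1024) (.r 2 3 744 2)) (.w 1 1)) (.mul (.mul (.c 86) (.v 1)) (.r 2 4 744 2))))))) (.c 2))) (.w 0 1)) (.w 1 2)))))))))) (.w 0 2)) (.w 2 1))), 154, 5, 6, 4, 1⟩,
  ⟨(.sub (.sub (.mul (.mul (.mul (.c 0) (.w 0 3)) (.w 1 3)) (.w 2 3)) (.mul (.mul (.mul (.c 86) (.v 1)) (.add (.mul (.mul (.c 1048576) (.r 2 2 744 2)) (.w 1 2)) (.mul (.mul (.c 86) (.v 1)) (.add (.mul (.mul (.c 1024) (.r 2 3 744 2)) (.w 1 1)) (.mul (.mul (.c 86) (.v 1)) (.r 2 4 744 2)))))) (.add (.mul (.mul (.mul (.c 16384) (.mul (.mul (.c 1) (.add (.mul (.c 853) (.w 0 1)) (.mul (.c 171) (.q 0)))) (.mul (.add (.mul (.mul (.c 1024) (.s 2 37 744 2)) (.w 0 1)) (.mul (.mul (.c 171) (.v 0)) (.s 2 40 744 2))) (.c 1)))) (.w 0 1)) (.w 2 1)) (.mul (.add (.mul (.q 2) (.r 0 5 1 3)) (.mul (.v 2) (.r 0 749 1 3))) (.mul (.add (.mul (.mul (.c 1024) (.s 2 57 744 2)) (.w 0 1)) (.mul (.mul (.c 171) (.v 0)) (.s 2 60 744 2))) (.c 1))))))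 (.mul (.mul (.mul (.c 17179869184) (.add (.mul (.mul (.add (.mul (.r 2 321 744 2) (.q 0)) (.mul (.r 2 322 744 2) (.v 0))) (.mul (.mul (.c 86) (.v 1)) (.add (.mul (.mul (.c 1048576) (.r 2 2 744 2)) (.w 1 2)) (.mul (.mul (.c 86) (.v 1)) (.add (.mul (.mul (.c 1024) (.r 2 3 744 2)) (.w 1 1)) (.mul (.mul (.c 86) (.v 1)) (.r 2 4 744 2))))))) (.sub (.c 0) (.mul (.c 12) (.c 1)))) (.add (.mul (.mul (.add (.mul (.r 2 325 744 2) (.q 0)) (.mul (.r 2 326 744 2) (.v 0))) (.mul (.mul (.c 86) (.v 1)) (.add (.mul (.mul (.c 1048576) (.r 2 2 744 2)) (.w 1 2)) (.mul (.mul (.c 86) (.v 1)) (.add (.mul (.mul (.c 1024) (.r 2 3 744 2)) (.w 1 1)) (.mul (.mul (.c 86) (.v 1)) (.r 2 4 744 2))))))) (.c 1)) (.add (.mul (.mul (.add (.mul (.r 2 329 744 2) (.q 0)) (.mul (.r 2 330 744 2) (.v 0))) (.mul (.mul (.c 86) (.v 1)) (.add (.mul (.mul (.c 1048576) (.r 2 2 744 2)) (.w 1 2)) (.mul (.mul (.c 86) (.v 1)) (.add (.mul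 (.mul (.c 1024) (.r 2 3 744 2)) (.w 1 1)) (.mul (.mul (.c 86) (.v 1)) (.r 2 4 744 2))))))) (.sub (.c 0) (.mul (.c 12) (.c 1)))) (.add (.mul (.mul (.add (.mul (.r 2 331 744 2) (.q 0)) (.mul (.r 2 332 744 2) (.v 0))) (.mul (.mul (.c 86) (.v 1)) (.add (.mul (.mul (.c 1048576) (.r 2 2 744 2)) (.w 1 2)) (.mul (.mul (.c 86) (.v 1)) (.add (.mul (.mul (.c 1024) (.r 2 3 744 2)) (.w 1 1)) (.mul (.mul (.c 86) (.v 1)) (.r 2 4 744 2))))))) (.sub (.c 0) (.mul (.c 12) (.c 1)))) (.add (.mul (.mul (.add (.mul (.r 2 335 744 2) (.q 0)) (.mul (.r 2 336 744 2) (.v 0))) (.mul (.mul (.c 86) (.v 1)) (.add (.mul (.mul (.c 1048576) (.r 2 2 744 2)) (.w 1 2)) (.mul (.mul (.c 86) (.v 1)) (.add (.mul (.mul (.c 1024) (.r 2 3 744 2)) (.w 1 1)) (.mul (.mul (.c 86) (.v 1)) (.r 2 4 744 2))))))) (.c 1)) (.mul (.mul (.add (.mul (.r 2 339 744 2) (.q 0)) (.mul (.r 2 340 744 2) (.v 0))) (.mul (.mul (.c 86) (.v 1)) (.add (.mul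 (.mul (.c 1048576) (.r 2 2 744 2)) (.w 1 2)) (.mul (.mul (.c 86) (.v 1)) (.add (.mul (.mul (.c 1024) (.r 2 3 744 2)) (.w 1 1)) (.mul (.mul (.c 86) (.v 1)) (.r 2 4 744 2))))))) (.sub (.c 0) (.mul (.c 12) (.c 1)))))))))) (.w 0 2)) (.w 2 1))), 141, 4, 4, 4, 1⟩,
  ⟨(.sub (.sub (.mul (.mul (.mul (.c 0) (.w 0 2)) (.w 1 3)) (.w 2 3)) (.mul (.mul (.mul (.c 86) (.v 1)) (.add (.mul (.mul (.c 1048576) (.r 2 2 744 2)) (.w 1 2)) (.mul (.mul (.c 86) (.v 1)) (.add (.mul (.mul (.c 1024) (.r 2 3 744 2)) (.w 1 1)) (.mul (.mul (.c 86) (.v 1)) (.r 2 4 744 2)))))) (.add (.mul (.mul (.mul (.c 16384) (.mul (.mul (.c 1) (.add (.mul (.c 853) (.w 0 1)) (.mul (.c 171) (.q 0)))) (.mul (.s 2 38 744 2) (.c 1)))) (.w 0 1)) (.w 2 1)) (.mul (.add (.mul (.q 2) (.r 0 5 1 3)) (.mul (.v 2) (.r 0 749 1 3))) (.mul (.s 2 58 744 2) (.c 1)))))) (.mul (.mul (.mul (.c 16777216) (.add (.mul (.mul (.add (.mul (.r 2 323 744 2) (.q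 0)) (.mul (.r 2 324 744 2) (.v 0))) (.mul (.mul (.c 86) (.v 1)) (.add (.mul (.mul (.c 1048576) (.r 2 2 744 2)) (.w 1 2)) (.mul (.mul (.c 86) (.v 1)) (.add (.mul (.mul (.c 1024) (.r 2 3 744 2)) (.w 1 1)) (.mul (.mul (.c 86) (.v 1)) (.r 2 4 744 2))))))) (.sub (.c 0) (.mul (.c 12) (.c 1)))) (.add (.mul (.mul (.add (.mul (.r 2 327 744 2) (.q 0)) (.mul (.r 2 328 744 2) (.v 0))) (.mul (.mul (.c 86) (.v 1)) (.add (.mul (.mul (.c 1048576) (.r 2 2 744 2)) (.w 1 2)) (.mul (.mul (.c 86) (.v 1)) (.add (.mul (.mul (.c 1024) (.r 2 3 744 2)) (.w 1 1)) (.mul (.mul (.c 86) (.v 1)) (.r 2 4 744 2))))))) (.mul (.c 2) (.c 1))) (.add (.mul (.mul (.add (.mul (.r 2 329 744 2) (.q 0)) (.mul (.r 2 330 744 2) (.v 0))) (.mul (.mul (.c 86) (.v 1)) (.add (.mul (.mul (.c 1048576) (.r 2 2 744 2)) (.w 1 2)) (.mul (.mul (.c 86) (.v 1)) (.add (.mul (.mul (.c 1024) (.r 2 3 744 2)) (.w 1 1)) (.mul (.mul (.c 86) (.v 1))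 (.r 2 4 744 2))))))) (.sub (.c 0) (.mul (.c 24) (.c 1)))) (.add (.mul (.mul (.add (.mul (.r 2 333 744 2) (.q 0)) (.mul (.r 2 334 744 2) (.v 0))) (.mul (.mul (.c 86) (.v 1)) (.add (.mul (.mul (.c 1048576) (.r 2 2 744 2)) (.w 1 2)) (.mul (.mul (.c 86) (.v 1)) (.add (.mul (.mul (.c 1024) (.r 2 3 744 2)) (.w 1 1)) (.mul (.mul (.c 86) (.v 1)) (.r 2 4 744 2))))))) (.sub (.c 0) (.mul (.c 12) (.c 1)))) (.add (.mul (.mul (.add (.mul (.r 2 337 744 2) (.q 0)) (.mul (.r 2 338 744 2) (.v 0))) (.mul (.mul (.c 86) (.v 1)) (.add (.mul (.mul (.c 1048576) (.r 2 2 744 2)) (.w 1 2)) (.mul (.mul (.c 86) (.v 1)) (.add (.mul (.mul (.c 1024) (.r 2 3 744 2)) (.w 1 1)) (.mul (.mul (.c 86) (.v 1)) (.r 2 4 744 2))))))) (.mul (.c 2) (.c 1))) (.mul (.mul (.add (.mul (.r 2 339 744 2) (.q 0)) (.mul (.r 2 340 744 2) (.v 0))) (.mul (.mul (.c 86) (.v 1)) (.add (.mul (.mul (.c 1048576) (.r 2 2 744 2)) (.w 1 2)) (.mul (.mul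 (.c 86) (.v 1)) (.add (.mul (.mul (.c 1024) (.r 2 3 744 2)) (.w 1 1)) (.mul (.mul (.c 86) (.v 1)) (.r 2 4 744 2))))))) (.sub (.c 0) (.mul (.c 24) (.c 1)))))))))) (.w 0 1)) (.w 2 1))), 130, 3, 4, 4, 1⟩,
  ⟨(.sub (.sub (.mul (.mul (.mul (.c 0) (.w 0 2)) (.w 1 3)) (.w 2 3)) (.mul (.mul (.mul (.c 86) (.v 1)) (.add (.mul (.mul (.c 1048576) (.r 2 2 744 2)) (.w 1 2)) (.mul (.mul (.c 86) (.v 1)) (.add (.mul (.mul (.c 1024) (.r 2 3 744 2)) (.w 1 1)) (.mul (.mul (.c 86) (.v 1)) (.r 2 4 744 2)))))) (.add (.mul (.mul (.mul (.c 16384) (.mul (.mul (.c 1) (.add (.mul (.c 853) (.w 0 1)) (.mul (.c 171) (.q 0)))) (.mul (.s 2 39 744 2) (.c 1)))) (.w 0 1)) (.w 2 1)) (.mul (.add (.mul (.q 2) (.r 0 5 1 3)) (.mul (.v 2) (.r 0 749 1 3))) (.mul (.s 2 59 744 2) (.c 1)))))) (.mul (.mul (.mul (.c 16777216) (.add (.mul (.mul (.add (.mul (.r 2 325 744 2) (.q 0)) (.mul (.r 2 326 744 2) (.v 0))) (.mul (.mul (.c 86)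 (.v 1)) (.add (.mul (.mul (.c 1048576) (.r 2 2 744 2)) (.w 1 2)) (.mul (.mul (.c 86) (.v 1)) (.add (.mul (.mul (.c 1024) (.r 2 3 744 2)) (.w 1 1)) (.mul (.mul (.c 86) (.v 1)) (.r 2 4 744 2))))))) (.sub (.c 0) (.mul (.c 12) (.c 1)))) (.add (.mul (.mul (.add (.mul (.r 2 327 744 2) (.q 0)) (.mul (.r 2 328 744 2) (.v 0))) (.mul (.mul (.c 86) (.v 1)) (.add (.mul (.mul (.c 1048576) (.r 2 2 744 2)) (.w 1 2)) (.mul (.mul (.c 86) (.v 1)) (.add (.mul (.mul (.c 1024) (.r 2 3 744 2)) (.w 1 1)) (.mul (.mul (.c 86) (.v 1)) (.r 2 4 744 2))))))) (.sub (.c 0) (.mul (.c 12) (.c 1)))) (.add (.mul (.mul (.add (.mul (.r 2 329 744 2) (.q 0)) (.mul (.r 2 330 744 2) (.v 0))) (.mul (.mul (.c 86) (.v 1)) (.add (.mul (.mul (.c 1048576) (.r 2 2 744 2)) (.w 1 2)) (.mul (.mul (.c 86) (.v 1)) (.add (.mul (.mul (.c 1024) (.r 2 3 744 2)) (.w 1 1)) (.mul (.mul (.c 86) (.v 1)) (.r 2 4 744 2))))))) (.mul (.c 144) (.c 1)))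 (.add (.mul (.mul (.add (.mul (.r 2 335 744 2) (.q 0)) (.mul (.r 2 336 744 2) (.v 0))) (.mul (.mul (.c 86) (.v 1)) (.add (.mul (.mul (.c 1048576) (.r 2 2 744 2)) (.w 1 2)) (.mul (.mul (.c 86) (.v 1)) (.add (.mul (.mul (.c 1024) (.r 2 3 744 2)) (.w 1 1)) (.mul (.mul (.c 86) (.v 1)) (.r 2 4 744 2))))))) (.sub (.c 0) (.mul (.c 12) (.c 1)))) (.add (.mul (.mul (.add (.mul (.r 2 337 744 2) (.q 0)) (.mul (.r 2 338 744 2) (.v 0))) (.mul (.mul (.c 86) (.v 1)) (.add (.mul (.mul (.c 1048576) (.r 2 2 744 2)) (.w 1 2)) (.mul (.mul (.c 86) (.v 1)) (.add (.mul (.mul (.c 1024) (.r 2 3 744 2)) (.w 1 1)) (.mul (.mul (.c 86) (.v 1)) (.r 2 4 744 2))))))) (.sub (.c 0) (.mul (.c 12) (.c 1)))) (.mul (.mul (.add (.mul (.r 2 339 744 2) (.q 0)) (.mul (.r 2 340 744 2) (.v 0))) (.mul (.mul (.c 86) (.v 1)) (.add (.mul (.mul (.c 1048576) (.r 2 2 744 2)) (.w 1 2)) (.mul (.mul (.c 86) (.v 1)) (.add (.mul (.mul (.c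 1024) (.r 2 3 744 2)) (.w 1 1)) (.mul (.mul (.c 86) (.v 1)) (.r 2 4 744 2))))))) (.mul (.c 144) (.c 1))))))))) (.w 0 1)) (.w 2 1))), 131, 3, 4, 4, 1⟩,
  ⟨(.sub (.sub (.mul (.mul (.mul (.c 0) (.w 0 2)) (.w 1 5)) (.w 2 2)) (.mul (.mul (.mul (.c 86) (.v 1)) (.add (.mul (.mul (.c 1048576) (.r 2 2 744 2)) (.w 1 2)) (.mul (.mul (.c 86) (.v 1)) (.add (.mul (.mul (.c 1024) (.r 2 3 744 2)) (.w 1 1)) (.mul (.mul (.c 86) (.v 1)) (.r 2 4 744 2)))))) (.mul (.mul (.c 1) (.add (.mul (.c 853) (.w 0 1)) (.mul (.c 171) (.q 0)))) (.add (.mul (.mul (.add (.mul (.mul (.c 1024) (.s 2 37 744 2)) (.w 0 1)) (.mul (.mul (.c 171) (.v 0)) (.s 2 40 744 2))) (.mul (.c 86) (.v 1))) (.w 1 1)) (.mul (.mul (.s 2 39 744 2) (.mul (.mul (.c 86) (.v 1)) (.mul (.c 86) (.v 1)))) (.w 0 1)))))) (.mul (.mul (.c 1024) (.add (.mul (.mul (.c 1024) (.mul (.mul (.add (.mul (.r 2 331 744 2) (.q 0)) (.mul (.r 2 332 744 2) (.v 0))) (.mul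 (.mul (.c 86) (.v 1)) (.add (.mul (.mul (.c 1048576) (.r 2 2 744 2)) (.w 1 2)) (.mul (.mul (.c 86) (.v 1)) (.add (.mul (.mul (.c 1024) (.r 2 3 744 2)) (.w 1 1)) (.mul (.mul (.c 86) (.v 1)) (.r 2 4 744 2))))))) (.sub (.mul (.c 0) (.w 1 1)) (.mul (.c 12) (.mul (.c 86) (.v 1)))))) (.w 1 1)) (.add (.mul (.mul (.add (.mul (.r 2 335 744 2) (.q 0)) (.mul (.r 2 336 744 2) (.v 0))) (.mul (.mul (.c 86) (.v 1)) (.add (.mul (.mul (.c 1048576) (.r 2 2 744 2)) (.w 1 2)) (.mul (.mul (.c 86) (.v 1)) (.add (.mul (.mul (.c 1024) (.r 2 3 744 2)) (.w 1 1)) (.mul (.mul (.c 86) (.v 1)) (.r 2 4 744 2))))))) (.sub (.mul (.mul (.c 1024) (.mul (.c 86) (.v 1))) (.w 1 1)) (.mul (.c 12) (.mul (.mul (.c 86) (.v 1)) (.mul (.c 86) (.v 1)))))) (.add (.mul (.mul (.add (.mul (.r 2 337 744 2) (.q 0)) (.mul (.r 2 338 744 2) (.v 0))) (.mul (.mul (.c 86) (.v 1)) (.add (.mul (.mul (.c 1048576) (.r 2 2 744 2)) (.w 1 2)) (.mul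 (.mul (.c 86) (.v 1)) (.add (.mul (.mul (.c 1024) (.r 2 3 744 2)) (.w 1 1)) (.mul (.mul (.c 86) (.v 1)) (.r 2 4 744 2))))))) (.sub (.mul (.c 0) (.w 1 2)) (.mul (.c 12) (.mul (.mul (.c 86) (.v 1)) (.mul (.c 86) (.v 1)))))) (.add (.mul (.mul (.add (.mul (.r 2 339 744 2) (.q 0)) (.mul (.r 2 340 744 2) (.v 0))) (.mul (.mul (.c 86) (.v 1)) (.add (.mul (.mul (.c 1048576) (.r 2 2 744 2)) (.w 1 2)) (.mul (.mul (.c 86) (.v 1)) (.add (.mul (.mul (.c 1024) (.r 2 3 744 2)) (.w 1 1)) (.mul (.mul (.c 86) (.v 1)) (.r 2 4 744 2))))))) (.sub (.mul (.c 144) (.mul (.mul (.c 86) (.v 1)) (.mul (.c 86) (.v 1)))) (.mul (.mul (.c 1024) (.mul (.c 12) (.mul (.c 86) (.v 1)))) (.w 1 1)))) (.mul (.mul (.c 1048576) (.mul (.mul (.add (.mul (.r 2 341 744 2) (.q 0)) (.mul (.r 2 342 744 2) (.v 0))) (.mul (.mul (.c 86) (.v 1)) (.add (.mul (.mul (.c 1048576) (.r 2 2 744 2)) (.w 1 2)) (.mul (.mul (.c 86) (.v 1)) (.add (.mul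 (.mul (.c 1024) (.r 2 3 744 2)) (.w 1 1)) (.mul (.mul (.c 86) (.v 1)) (.r 2 4 744 2))))))) (.sub (.c 0) (.mul (.c 12) (.c 1))))) (.w 1 2))))))) (.w 0 1))), 133, 3, 6, 3, 1⟩,
  ⟨(.sub (.mul (.mul (.c 1024) (.mul (.mul (.c 86) (.v 1)) (.add (.mul (.c 1024) (.add (.mul (.add (.mul (.mul (.c 1024) (.s 2 151 744 2)) (.w 0 1)) (.mul (.s 2 152 744 2) (.mul (.c 171) (.v 0)))) (.w 1 1)) (.mul (.mul (.s 2 153 744 2) (.mul (.c 86) (.v 1))) (.w 0 1)))) (.mul (.s 2 154 744 2) (.mul (.mul (.c 86) (.v 1)) (.mul (.c 171) (.v 0))))))) (.w 1 1)) (.mul (.mul (.mul (.c 86) (.v 1)) (.add (.mul (.mul (.c 1048576) (.r 2 2 744 2)) (.w 1 2)) (.mul (.mul (.c 86) (.v 1)) (.add (.mul (.mul (.c 1024) (.r 2 3 744 2)) (.w 1 1)) (.mul (.mul (.c 86) (.v 1)) (.r 2 4 744 2)))))) (.mul (.c 1) (.add (.mul (.c 853) (.w 0 1)) (.mul (.c 171) (.q 0)))))), 74, 2, 4, 2, 1⟩,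
  ⟨(.sub (.mul (.sub (.mul (.mul (.mul (.mul (.c 295147905179352825856) (.mul (.mul (.c 86) (.v 1)) (.add (.mul (.c 1024) (.add (.mul (.add (.mul (.mul (.c 1024) (.s 2 155 744 2)) (.w 0 1)) (.mul (.s 2 156 744 2) (.mul (.c 171) (.v 0)))) (.w 1 1)) (.mul (.mul (.s 2 157 744 2) (.mul (.c 86) (.v 1))) (.w 0 1)))) (.mul (.s 2 158 744 2) (.mul (.mul (.c 86) (.v 1)) (.mul (.c 171) (.v 0))))))) (.w 0 3)) (.w 1 2)) (.w 2 2)) (.mul (.mul (.mul (.c 86) (.v 1)) (.add (.mul (.mul (.c 1048576) (.r 2 2 744 2)) (.w 1 2)) (.mul (.mul (.c 86) (.v 1)) (.add (.mul (.mul (.c 1024) (.r 2 3 744 2)) (.w 1 1)) (.mul (.mul (.c 86) (.v 1)) (.r 2 4 744 2)))))) (.mul (.add (.mul (.q 2) (.r 0 5 1 3)) (.mul (.v 2) (.r 0 749 1 3))) (.add (.mul (.mul (.c 1024) (.mul (.s 2 55 744 2) (.add (.mul (.mul (.c 767) (.w 0 1)) (.w 1 1)) (.add (.mul (.mul (.c 171) (.q 0)) (.w 1 1)) (.mul (.mul (.c 86) (.q 1)) (.w 0 1)))))) (.w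 0 1)) (.mul (.s 2 56 744 2) (.mul (.mul (.c 171) (.v 0)) (.add (.mul (.mul (.c 767) (.w 0 1)) (.w 1 1)) (.add (.mul (.mul (.c 171) (.q 0)) (.w 1 1)) (.mul (.mul (.c 86) (.q 1)) (.w 0 1)))))))))) (.w 1 1)) (.mul (.mul (.mul (.c 16777216) (.add (.mul (.mul (.c 1024) (.mul (.mul (.add (.mul (.r 2 343 744 2) (.q 0)) (.mul (.r 2 344 744 2) (.v 0))) (.mul (.mul (.c 86) (.v 1)) (.add (.mul (.mul (.c 1048576) (.r 2 2 744 2)) (.w 1 2)) (.mul (.mul (.c 86) (.v 1)) (.add (.mul (.mul (.c 1024) (.r 2 3 744 2)) (.w 1 1)) (.mul (.mul (.c 86) (.v 1)) (.r 2 4 744 2))))))) (.mul (.c 2) (.add (.mul (.mul (.c 767) (.w 0 1)) (.w 1 1)) (.add (.mul (.mul (.c 171) (.q 0)) (.w 1 1)) (.mul (.mul (.c 86) (.q 1)) (.w 0 1))))))) (.w 1 1)) (.add (.mul (.mul (.c 1024) (.mul (.mul (.add (.mul (.r 2 345 744 2) (.q 0)) (.mul (.r 2 346 744 2) (.v 0))) (.mul (.mul (.c 86) (.v 1)) (.add (.mul (.mul (.c 1048576) (.r 2 2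 744 2)) (.w 1 2)) (.mul (.mul (.c 86) (.v 1)) (.add (.mul (.mul (.c 1024) (.r 2 3 744 2)) (.w 1 1)) (.mul (.mul (.c 86) (.v 1)) (.r 2 4 744 2))))))) (.add (.mul (.mul (.c 767) (.w 0 1)) (.w 1 1)) (.add (.mul (.mul (.c 171) (.q 0)) (.w 1 1)) (.mul (.mul (.c 86) (.q 1)) (.w 0 1)))))) (.w 1 1)) (.add (.mul (.mul (.c 1024) (.mul (.mul (.add (.mul (.r 2 351 744 2) (.q 0)) (.mul (.r 2 352 744 2) (.v 0))) (.mul (.mul (.c 86) (.v 1)) (.add (.mul (.mul (.c 1048576) (.r 2 2 744 2)) (.w 1 2)) (.mul (.mul (.c 86) (.v 1)) (.add (.mul (.mul (.c 1024) (.r 2 3 744 2)) (.w 1 1)) (.mul (.mul (.c 86) (.v 1)) (.r 2 4 744 2))))))) (.mul (.c 2) (.add (.mul (.mul (.c 767) (.w 0 1)) (.w 1 1)) (.add (.mul (.mul (.c 171) (.q 0)) (.w 1 1)) (.mul (.mul (.c 86) (.q 1)) (.w 0 1))))))) (.w 1 1)) (.add (.mul (.mul (.c 1024) (.mul (.mul (.add (.mul (.r 2 353 744 2) (.q 0)) (.mul (.r 2 354 744 2) (.v 0))) (.mul (.mul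 (.c 86) (.v 1)) (.add (.mul (.mul (.c 1048576) (.r 2 2 744 2)) (.w 1 2)) (.mul (.mul (.c 86) (.v 1)) (.add (.mul (.mul (.c 1024) (.r 2 3 744 2)) (.w 1 1)) (.mul (.mul (.c 86) (.v 1)) (.r 2 4 744 2))))))) (.mul (.c 2) (.add (.mul (.c 853) (.w 0 1)) (.mul (.c 171) (.q 0)))))) (.w 1 2)) (.add (.mul (.mul (.add (.mul (.r 2 355 744 2) (.q 0)) (.mul (.r 2 356 744 2) (.v 0))) (.mul (.mul (.c 86) (.v 1)) (.add (.mul (.mul (.c 1048576) (.r 2 2 744 2)) (.w 1 2)) (.mul (.mul (.c 86) (.v 1)) (.add (.mul (.mul (.c 1024) (.r 2 3 744 2)) (.w 1 1)) (.mul (.mul (.c 86) (.v 1)) (.r 2 4 744 2))))))) (.sub (.mul (.mul (.c 1024) (.add (.mul (.c 853) (.w 0 1)) (.mul (.c 171) (.q 0)))) (.w 1 2)) (.mul (.mul (.c 12) (.mul (.mul (.c 86) (.v 1)) (.mul (.c 86) (.v 1)))) (.w 0 1)))) (.add (.mul (.mul (.mul (.add (.mul (.r 2 359 744 2) (.q 0)) (.mul (.r 2 360 744 2) (.v 0))) (.mul (.mul (.c 86) (.v 1)) (.add (.mul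 (.mul (.c 1048576) (.r 2 2 744 2)) (.w 1 2)) (.mul (.mul (.c 86) (.v 1)) (.add (.mul (.mul (.c 1024) (.r 2 3 744 2)) (.w 1 1)) (.mul (.mul (.c 86) (.v 1)) (.r 2 4 744 2))))))) (.mul (.c 2) (.mul (.mul (.c 86) (.v 1)) (.mul (.c 86) (.v 1))))) (.w 0 1)) (.add (.mul (.mul (.add (.mul (.r 2 361 744 2) (.q 0)) (.mul (.r 2 362 744 2) (.v 0))) (.mul (.mul (.c 86) (.v 1)) (.add (.mul (.mul (.c 1048576) (.r 2 2 744 2)) (.w 1 2)) (.mul (.mul (.c 86) (.v 1)) (.add (.mul (.mul (.c 1024) (.r 2 3 744 2)) (.w 1 1)) (.mul (.mul (.c 86) (.v 1)) (.r 2 4 744 2))))))) (.sub (.mul (.mul (.c 1024) (.mul (.c 2) (.add (.mul (.c 853) (.w 0 1)) (.mul (.c 171) (.q 0))))) (.w 1 2)) (.mul (.mul (.c 24) (.mul (.mul (.c 86) (.v 1)) (.mul (.c 86) (.v 1)))) (.w 0 1)))) (.mul (.mul (.mul (.c 1048576) (.mul (.mul (.add (.mul (.r 2 363 744 2) (.q 0)) (.mul (.r 2 364 744 2) (.v 0))) (.mul (.mul (.c 86) (.v 1)) (.add (.mul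 (.mul (.c 1048576) (.r 2 2 744 2)) (.w 1 2)) (.mul (.mul (.c 86) (.v 1)) (.add (.mul (.mul (.c 1024) (.r 2 3 744 2)) (.w 1 1)) (.mul (.mul (.c 86) (.v 1)) (.r 2 4 744 2))))))) (.c 2))) (.w 0 1)) (.w 1 2)))))))))) (.w 0 2)) (.w 2 1))), 154, 5, 6, 4, 1⟩,
  ⟨(.sub (.sub (.mul (.mul (.mul (.c 0) (.w 0 3)) (.w 1 3)) (.w 2 3)) (.mul (.mul (.mul (.c 86) (.v 1)) (.add (.mul (.mul (.c 1048576) (.r 2 2 744 2)) (.w 1 2)) (.mul (.mul (.c 86) (.v 1)) (.add (.mul (.mul (.c 1024) (.r 2 3 744 2)) (.w 1 1)) (.mul (.mul (.c 86) (.v 1)) (.r 2 4 744 2)))))) (.mul (.add (.mul (.q 2) (.r 0 5 1 3)) (.mul (.v 2) (.r 0 749 1 3))) (.mul (.add (.mul (.mul (.c 1024) (.s 2 57 744 2)) (.w 0 1)) (.mul (.mul (.c 171) (.v 0)) (.s 2 60 744 2))) (.c 1))))) (.mul (.mul (.mul (.c 17179869184) (.add (.mul (.mul (.add (.mul (.r 2 343 744 2) (.q 0)) (.mul (.r 2 344 744 2) (.v 0))) (.mul (.mul (.c 86) (.v 1)) (.add (.mul (.mul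 (.c 1048576) (.r 2 2 744 2)) (.w 1 2)) (.mul (.mul (.c 86) (.v 1)) (.add (.mul (.mul (.c 1024) (.r 2 3 744 2)) (.w 1 1)) (.mul (.mul (.c 86) (.v 1)) (.r 2 4 744 2))))))) (.sub (.c 0) (.mul (.c 12) (.c 1)))) (.add (.mul (.mul (.add (.mul (.r 2 347 744 2) (.q 0)) (.mul (.r 2 348 744 2) (.v 0))) (.mul (.mul (.c 86) (.v 1)) (.add (.mul (.mul (.c 1048576) (.r 2 2 744 2)) (.w 1 2)) (.mul (.mul (.c 86) (.v 1)) (.add (.mul (.mul (.c 1024) (.r 2 3 744 2)) (.w 1 1)) (.mul (.mul (.c 86) (.v 1)) (.r 2 4 744 2))))))) (.c 1)) (.add (.mul (.mul (.add (.mul (.r 2 351 744 2) (.q 0)) (.mul (.r 2 352 744 2) (.v 0))) (.mul (.mul (.c 86) (.v 1)) (.add (.mul (.mul (.c 1048576) (.r 2 2 744 2)) (.w 1 2)) (.mul (.mul (.c 86) (.v 1)) (.add (.mul (.mul (.c 1024) (.r 2 3 744 2)) (.w 1 1)) (.mul (.mul (.c 86) (.v 1)) (.r 2 4 744 2))))))) (.sub (.c 0) (.mul (.c 12) (.c 1)))) (.add (.mul (.mul (.add (.mul (.r 2 353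 744 2) (.q 0)) (.mul (.r 2 354 744 2) (.v 0))) (.mul (.mul (.c 86) (.v 1)) (.add (.mul (.mul (.c 1048576) (.r 2 2 744 2)) (.w 1 2)) (.mul (.mul (.c 86) (.v 1)) (.add (.mul (.mul (.c 1024) (.r 2 3 744 2)) (.w 1 1)) (.mul (.mul (.c 86) (.v 1)) (.r 2 4 744 2))))))) (.sub (.c 0) (.mul (.c 12) (.c 1)))) (.add (.mul (.mul (.add (.mul (.r 2 357 744 2) (.q 0)) (.mul (.r 2 358 744 2) (.v 0))) (.mul (.mul (.c 86) (.v 1)) (.add (.mul (.mul (.c 1048576) (.r 2 2 744 2)) (.w 1 2)) (.mul (.mul (.c 86) (.v 1)) (.add (.mul (.mul (.c 1024) (.r 2 3 744 2)) (.w 1 1)) (.mul (.mul (.c 86) (.v 1)) (.r 2 4 744 2))))))) (.c 1)) (.mul (.mul (.add (.mul (.r 2 361 744 2) (.q 0)) (.mul (.r 2 362 744 2) (.v 0))) (.mul (.mul (.c 86) (.v 1)) (.add (.mul (.mul (.c 1048576) (.r 2 2 744 2)) (.w 1 2)) (.mul (.mul (.c 86) (.v 1)) (.add (.mul (.mul (.c 1024) (.r 2 3 744 2)) (.w 1 1)) (.mul (.mul (.c 86) (.v 1)) (.r 2 4 744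 2))))))) (.sub (.c 0) (.mul (.c 12) (.c 1)))))))))) (.w 0 2)) (.w 2 1))), 141, 4, 4, 4, 1⟩,
  ⟨(.sub (.sub (.mul (.mul (.mul (.c 0) (.w 0 2)) (.w 1 3)) (.w 2 3)) (.mul (.mul (.mul (.c 86) (.v 1)) (.add (.mul (.mul (.c 1048576) (.r 2 2 744 2)) (.w 1 2)) (.mul (.mul (.c 86) (.v 1)) (.add (.mul (.mul (.c 1024) (.r 2 3 744 2)) (.w 1 1)) (.mul (.mul (.c 86) (.v 1)) (.r 2 4 744 2)))))) (.mul (.add (.mul (.q 2) (.r 0 5 1 3)) (.mul (.v 2) (.r 0 749 1 3))) (.mul (.s 2 58 744 2) (.c 1))))) (.mul (.mul (.mul (.c 16777216) (.add (.mul (.mul (.add (.mul (.r 2 345 744 2) (.q 0)) (.mul (.r 2 346 744 2) (.v 0))) (.mul (.mul (.c 86) (.v 1)) (.add (.mul (.mul (.c 1048576) (.r 2 2 744 2)) (.w 1 2)) (.mul (.mul (.c 86) (.v 1)) (.add (.mul (.mul (.c 1024) (.r 2 3 744 2)) (.w 1 1)) (.mul (.mul (.c 86) (.v 1)) (.r 2 4 744 2))))))) (.sub (.c 0) (.mul (.c 12) (.c 1)))) (.add (.mul (.mul (.add (.mul (.r 2 349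 744 2) (.q 0)) (.mul (.r 2 350 744 2) (.v 0))) (.mul (.mul (.c 86) (.v 1)) (.add (.mul (.mul (.c 1048576) (.r 2 2 744 2)) (.w 1 2)) (.mul (.mul (.c 86) (.v 1)) (.add (.mul (.mul (.c 1024) (.r 2 3 744 2)) (.w 1 1)) (.mul (.mul (.c 86) (.v 1)) (.r 2 4 744 2))))))) (.mul (.c 2) (.c 1))) (.add (.mul (.mul (.add (.mul (.r 2 351 744 2) (.q 0)) (.mul (.r 2 352 744 2) (.v 0))) (.mul (.mul (.c 86) (.v 1)) (.add (.mul (.mul (.c 1048576) (.r 2 2 744 2)) (.w 1 2)) (.mul (.mul (.c 86) (.v 1)) (.add (.mul (.mul (.c 1024) (.r 2 3 744 2)) (.w 1 1)) (.mul (.mul (.c 86) (.v 1)) (.r 2 4 744 2))))))) (.sub (.c 0) (.mul (.c 24) (.c 1)))) (.add (.mul (.mul (.add (.mul (.r 2 355 744 2) (.q 0)) (.mul (.r 2 356 744 2) (.v 0))) (.mul (.mul (.c 86) (.v 1)) (.add (.mul (.mul (.c 1048576) (.r 2 2 744 2)) (.w 1 2)) (.mul (.mul (.c 86) (.v 1)) (.add (.mul (.mul (.c 1024) (.r 2 3 744 2)) (.w 1 1)) (.mul (.mul (.c 86)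 (.v 1)) (.r 2 4 744 2))))))) (.sub (.c 0) (.mul (.c 12) (.c 1)))) (.add (.mul (.mul (.add (.mul (.r 2 359 744 2) (.q 0)) (.mul (.r 2 360 744 2) (.v 0))) (.mul (.mul (.c 86) (.v 1)) (.add (.mul (.mul (.c 1048576) (.r 2 2 744 2)) (.w 1 2)) (.mul (.mul (.c 86) (.v 1)) (.add (.mul (.mul (.c 1024) (.r 2 3 744 2)) (.w 1 1)) (.mul (.mul (.c 86) (.v 1)) (.r 2 4 744 2))))))) (.mul (.c 2) (.c 1))) (.mul (.mul (.add (.mul (.r 2 361 744 2) (.q 0)) (.mul (.r 2 362 744 2) (.v 0))) (.mul (.mul (.c 86) (.v 1)) (.add (.mul (.mul (.c 1048576) (.r 2 2 744 2)) (.w 1 2)) (.mul (.mul (.c 86) (.v 1)) (.add (.mul (.mul (.c 1024) (.r 2 3 744 2)) (.w 1 1)) (.mul (.mul (.c 86) (.v 1)) (.r 2 4 744 2))))))) (.sub (.c 0) (.mul (.c 24) (.c 1)))))))))) (.w 0 1)) (.w 2 1))), 130, 3, 4, 4, 1⟩,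
  ⟨(.sub (.sub (.mul (.mul (.mul (.c 0) (.w 0 2)) (.w 1 3)) (.w 2 3)) (.mul (.mul (.mul (.c 86) (.v 1)) (.add (.mul (.mul (.c 1048576) (.r 2 2 744 2)) (.w 1 2)) (.mul (.mul (.c 86) (.v 1)) (.add (.mul (.mul (.c 1024) (.r 2 3 744 2)) (.w 1 1)) (.mul (.mul (.c 86) (.v 1)) (.r 2 4 744 2)))))) (.mul (.add (.mul (.q 2) (.r 0 5 1 3)) (.mul (.v 2) (.r 0 749 1 3))) (.mul (.s 2 59 744 2) (.c 1))))) (.mul (.mul (.mul (.c 16777216) (.add (.mul (.mul (.add (.mul (.r 2 347 744 2) (.q 0)) (.mul (.r 2 348 744 2) (.v 0))) (.mul (.mul (.c 86) (.v 1)) (.add (.mul (.mul (.c 1048576) (.r 2 2 744 2)) (.w 1 2)) (.mul (.mul (.c 86) (.v 1)) (.add (.mul (.mul (.c 1024) (.r 2 3 744 2)) (.w 1 1)) (.mul (.mul (.c 86) (.v 1)) (.r 2 4 744 2))))))) (.sub (.c 0) (.mul (.c 12) (.c 1)))) (.add (.mul (.mul (.add (.mul (.r 2 349 744 2) (.q 0)) (.mul (.r 2 350 744 2) (.v 0))) (.mul (.mul (.c 86) (.v 1)) (.add (.mul (.mul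 (.c 1048576) (.r 2 2 744 2)) (.w 1 2)) (.mul (.mul (.c 86) (.v 1)) (.add (.mul (.mul (.c 1024) (.r 2 3 744 2)) (.w 1 1)) (.mul (.mul (.c 86) (.v 1)) (.r 2 4 744 2))))))) (.sub (.c 0) (.mul (.c 12) (.c 1)))) (.add (.mul (.mul (.add (.mul (.r 2 351 744 2) (.q 0)) (.mul (.r 2 352 744 2) (.v 0))) (.mul (.mul (.c 86) (.v 1)) (.add (.mul (.mul (.c 1048576) (.r 2 2 744 2)) (.w 1 2)) (.mul (.mul (.c 86) (.v 1)) (.add (.mul (.mul (.c 1024) (.r 2 3 744 2)) (.w 1 1)) (.mul (.mul (.c 86) (.v 1)) (.r 2 4 744 2))))))) (.mul (.c 144) (.c 1))) (.add (.mul (.mul (.add (.mul (.r 2 357 744 2) (.q 0)) (.mul (.r 2 358 744 2) (.v 0))) (.mul (.mul (.c 86) (.v 1)) (.add (.mul (.mul (.c 1048576) (.r 2 2 744 2)) (.w 1 2)) (.mul (.mul (.c 86) (.v 1)) (.add (.mul (.mul (.c 1024) (.r 2 3 744 2)) (.w 1 1)) (.mul (.mul (.c 86) (.v 1)) (.r 2 4 744 2))))))) (.sub (.c 0) (.mul (.c 12) (.c 1)))) (.add (.mul (.mul (.add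 (.mul (.r 2 359 744 2) (.q 0)) (.mul (.r 2 360 744 2) (.v 0))) (.mul (.mul (.c 86) (.v 1)) (.add (.mul (.mul (.c 1048576) (.r 2 2 744 2)) (.w 1 2)) (.mul (.mul (.c 86) (.v 1)) (.add (.mul (.mul (.c 1024) (.r 2 3 744 2)) (.w 1 1)) (.mul (.mul (.c 86) (.v 1)) (.r 2 4 744 2))))))) (.sub (.c 0) (.mul (.c 12) (.c 1)))) (.mul (.mul (.add (.mul (.r 2 361 744 2) (.q 0)) (.mul (.r 2 362 744 2) (.v 0))) (.mul (.mul (.c 86) (.v 1)) (.add (.mul (.mul (.c 1048576) (.r 2 2 744 2)) (.w 1 2)) (.mul (.mul (.c 86) (.v 1)) (.add (.mul (.mul (.c 1024) (.r 2 3 744 2)) (.w 1 1)) (.mul (.mul (.c 86) (.v 1)) (.r 2 4 744 2))))))) (.mul (.c 144) (.c 1))))))))) (.w 0 1)) (.w 2 1))), 131, 3, 4, 4, 1⟩,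
  ⟨(.sub (.mul (.mul (.mul (.c 0) (.w 0 1)) (.w 1 5)) (.w 2 2)) (.add (.mul (.mul (.c 1024) (.mul (.mul (.add (.mul (.r 2 353 744 2) (.q 0)) (.mul (.r 2 354 744 2) (.v 0))) (.mul (.mul (.c 86) (.v 1)) (.add (.mul (.mul (.c 1048576) (.r 2 2 744 2)) (.w 1 2)) (.mul (.mul (.c 86) (.v 1)) (.add (.mul (.mul (.c 1024) (.r 2 3 744 2)) (.w 1 1)) (.mul (.mul (.c 86) (.v 1)) (.r 2 4 744 2))))))) (.sub (.mul (.c 0) (.w 1 1)) (.mul (.c 12) (.mul (.c 86) (.v 1)))))) (.w 1 1)) (.add (.mul (.mul (.add (.mul (.r 2 357 744 2) (.q 0)) (.mul (.r 2 358 744 2) (.v 0))) (.mul (.mul (.c 86) (.v 1)) (.add (.mul (.mul (.c 1048576) (.r 2 2 744 2)) (.w 1 2)) (.mul (.mul (.c 86) (.v 1)) (.add (.mul (.mul (.c 1024) (.r 2 3 744 2)) (.w 1 1)) (.mul (.mul (.c 86) (.v 1)) (.r 2 4 744 2))))))) (.sub (.mul (.mul (.c 1024) (.mul (.c 86) (.v 1))) (.w 1 1)) (.mul (.c 12) (.mul (.mul (.c 86) (.v 1)) (.mul (.c 86) (.v 1))))))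 (.add (.mul (.mul (.add (.mul (.r 2 359 744 2) (.q 0)) (.mul (.r 2 360 744 2) (.v 0))) (.mul (.mul (.c 86) (.v 1)) (.add (.mul (.mul (.c 1048576) (.r 2 2 744 2)) (.w 1 2)) (.mul (.mul (.c 86) (.v 1)) (.add (.mul (.mul (.c 1024) (.r 2 3 744 2)) (.w 1 1)) (.mul (.mul (.c 86) (.v 1)) (.r 2 4 744 2))))))) (.sub (.mul (.c 0) (.w 1 2)) (.mul (.c 12) (.mul (.mul (.c 86) (.v 1)) (.mul (.c 86) (.v 1)))))) (.add (.mul (.mul (.add (.mul (.r 2 361 744 2) (.q 0)) (.mul (.r 2 362 744 2) (.v 0))) (.mul (.mul (.c 86) (.v 1)) (.add (.mul (.mul (.c 1048576) (.r 2 2 744 2)) (.w 1 2)) (.mul (.mul (.c 86) (.v 1)) (.add (.mul (.mul (.c 1024) (.r 2 3 744 2)) (.w 1 1)) (.mul (.mul (.c 86) (.v 1)) (.r 2 4 744 2))))))) (.sub (.mul (.c 144) (.mul (.mul (.c 86) (.v 1)) (.mul (.c 86) (.v 1)))) (.mul (.mul (.c 1024) (.mul (.c 12) (.mul (.c 86) (.v 1)))) (.w 1 1)))) (.mul (.mul (.c 1048576) (.mul (.mul (.add (.mul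 (.r 2 363 744 2) (.q 0)) (.mul (.r 2 364 744 2) (.v 0))) (.mul (.mul (.c 86) (.v 1)) (.add (.mul (.mul (.c 1048576) (.r 2 2 744 2)) (.w 1 2)) (.mul (.mul (.c 86) (.v 1)) (.add (.mul (.mul (.c 1024) (.r 2 3 744 2)) (.w 1 1)) (.mul (.mul (.c 86) (.v 1)) (.r 2 4 744 2))))))) (.sub (.c 0) (.mul (.c 12) (.c 1))))) (.w 1 2))))))), 122, 2, 6, 3, 1⟩,
  ⟨(.sub (.sub (.mul (.mul (.mul (.mul (.c 590295810358705651712) (.mul (.mul (.c 86) (.v 1)) (.add (.mul (.c 1024) (.add (.mul (.add (.mul (.mul (.c 1024) (.s 2 159 744 2)) (.w 0 1)) (.mul (.s 2 160 744 2) (.mul (.c 171) (.v 0)))) (.w 1 1)) (.mul (.mul (.s 2 161 744 2) (.mul (.c 86) (.v 1))) (.w 0 1)))) (.mul (.s 2 162 744 2) (.mul (.mul (.c 86) (.v 1)) (.mul (.c 171) (.v 0))))))) (.w 0 3)) (.w 1 3)) (.w 2 2)) (.mul (.mul (.mul (.c 86) (.v 1)) (.add (.mul (.mul (.c 1048576) (.r 2 2 744 2)) (.w 1 2)) (.mul (.mul (.c 86) (.v 1)) (.add (.mul (.mul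 (.c 1024) (.r 2 3 744 2)) (.w 1 1)) (.mul (.mul (.c 86) (.v 1)) (.r 2 4 744 2)))))) (.mul (.add (.mul (.q 2) (.r 0 5 1 3)) (.mul (.v 2) (.r 0 749 1 3))) (.mul (.c 1) (.add (.mul (.add (.mul (.mul (.c 1024) (.mul (.s 2 55 744 2) (.add (.mul (.mul (.c 767) (.w 0 1)) (.w 1 1)) (.add (.mul (.mul (.c 171) (.q 0)) (.w 1 1)) (.mul (.mul (.c 86) (.q 1)) (.w 0 1)))))) (.w 0 1)) (.mul (.s 2 56 744 2) (.mul (.mul (.c 171) (.v 0)) (.add (.mul (.mul (.c 767) (.w 0 1)) (.w 1 1)) (.add (.mul (.mul (.c 171) (.q 0)) (.w 1 1)) (.mul (.mul (.c 86) (.q 1)) (.w 0 1))))))) (.w 1 1)) (.add (.mul (.add (.mul (.mul (.c 1024) (.mul (.s 2 55 744 2) (.add (.mul (.c 853) (.w 0 1)) (.mul (.c 171) (.q 0))))) (.w 0 1)) (.mul (.s 2 56 744 2) (.mul (.mul (.c 171) (.v 0)) (.add (.mul (.c 853) (.w 0 1)) (.mul (.c 171) (.q 0)))))) (.w 1 2)) (.mul (.mul (.s 2 58 744 2) (.mul (.mul (.c 86) (.v 1)) (.mul (.c 86) (.v 1))))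 (.w 0 2)))))))) (.mul (.mul (.mul (.c 33554432) (.add (.mul (.mul (.c 1024) (.mul (.mul (.add (.mul (.r 2 365 744 2) (.q 0)) (.mul (.r 2 366 744 2) (.v 0))) (.mul (.mul (.c 86) (.v 1)) (.add (.mul (.mul (.c 1048576) (.r 2 2 744 2)) (.w 1 2)) (.mul (.mul (.c 86) (.v 1)) (.add (.mul (.mul (.c 1024) (.r 2 3 744 2)) (.w 1 1)) (.mul (.mul (.c 86) (.v 1)) (.r 2 4 744 2))))))) (.mul (.c 2) (.add (.mul (.mul (.c 767) (.w 0 1)) (.w 1 1)) (.add (.mul (.mul (.c 171) (.q 0)) (.w 1 1)) (.mul (.mul (.c 86) (.q 1)) (.w 0 1))))))) (.w 1 1)) (.add (.mul (.mul (.c 1024) (.mul (.mul (.add (.mul (.r 2 367 744 2) (.q 0)) (.mul (.r 2 368 744 2) (.v 0))) (.mul (.mul (.c 86) (.v 1)) (.add (.mul (.mul (.c 1048576) (.r 2 2 744 2)) (.w 1 2)) (.mul (.mul (.c 86) (.v 1)) (.add (.mul (.mul (.c 1024) (.r 2 3 744 2)) (.w 1 1)) (.mul (.mul (.c 86) (.v 1)) (.r 2 4 744 2))))))) (.add (.mul (.mul (.c 767) (.w 0 1)) (.w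 1 1)) (.add (.mul (.mul (.c 171) (.q 0)) (.w 1 1)) (.mul (.mul (.c 86) (.q 1)) (.w 0 1)))))) (.w 1 1)) (.add (.mul (.mul (.c 1024) (.mul (.mul (.add (.mul (.r 2 373 744 2) (.q 0)) (.mul (.r 2 374 744 2) (.v 0))) (.mul (.mul (.c 86) (.v 1)) (.add (.mul (.mul (.c 1048576) (.r 2 2 744 2)) (.w 1 2)) (.mul (.mul (.c 86) (.v 1)) (.add (.mul (.mul (.c 1024) (.r 2 3 744 2)) (.w 1 1)) (.mul (.mul (.c 86) (.v 1)) (.r 2 4 744 2))))))) (.mul (.c 2) (.add (.mul (.mul (.c 767) (.w 0 1)) (.w 1 1)) (.add (.mul (.mul (.c 171) (.q 0)) (.w 1 1)) (.mul (.mul (.c 86) (.q 1)) (.w 0 1))))))) (.w 1 1)) (.add (.mul (.mul (.c 1024) (.mul (.mul (.add (.mul (.r 2 375 744 2) (.q 0)) (.mul (.r 2 376 744 2) (.v 0))) (.mul (.mul (.c 86) (.v 1)) (.add (.mul (.mul (.c 1048576) (.r 2 2 744 2)) (.w 1 2)) (.mul (.mul (.c 86) (.v 1)) (.add (.mul (.mul (.c 1024) (.r 2 3 744 2)) (.w 1 1)) (.mul (.mul (.c 86) (.v 1)) (.r 2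 4 744 2))))))) (.mul (.c 2) (.add (.mul (.c 853) (.w 0 1)) (.mul (.c 171) (.q 0)))))) (.w 1 2)) (.add (.mul (.mul (.add (.mul (.r 2 377 744 2) (.q 0)) (.mul (.r 2 378 744 2) (.v 0))) (.mul (.mul (.c 86) (.v 1)) (.add (.mul (.mul (.c 1048576) (.r 2 2 744 2)) (.w 1 2)) (.mul (.mul (.c 86) (.v 1)) (.add (.mul (.mul (.c 1024) (.r 2 3 744 2)) (.w 1 1)) (.mul (.mul (.c 86) (.v 1)) (.r 2 4 744 2))))))) (.sub (.mul (.mul (.c 1024) (.add (.mul (.c 853) (.w 0 1)) (.mul (.c 171) (.q 0)))) (.w 1 2)) (.mul (.mul (.c 12) (.mul (.mul (.c 86) (.v 1)) (.mul (.c 86) (.v 1)))) (.w 0 1)))) (.add (.mul (.mul (.mul (.add (.mul (.r 2 381 744 2) (.q 0)) (.mul (.r 2 382 744 2) (.v 0))) (.mul (.mul (.c 86) (.v 1)) (.add (.mul (.mul (.c 1048576) (.r 2 2 744 2)) (.w 1 2)) (.mul (.mul (.c 86) (.v 1)) (.add (.mul (.mul (.c 1024) (.r 2 3 744 2)) (.w 1 1)) (.mul (.mul (.c 86) (.v 1)) (.r 2 4 744 2))))))) (.mul (.c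 2) (.mul (.mul (.c 86) (.v 1)) (.mul (.c 86) (.v 1))))) (.w 0 1)) (.add (.mul (.mul (.add (.mul (.r 2 383 744 2) (.q 0)) (.mul (.r 2 384 744 2) (.v 0))) (.mul (.mul (.c 86) (.v 1)) (.add (.mul (.mul (.c 1048576) (.r 2 2 744 2)) (.w 1 2)) (.mul (.mul (.c 86) (.v 1)) (.add (.mul (.mul (.c 1024) (.r 2 3 744 2)) (.w 1 1)) (.mul (.mul (.c 86) (.v 1)) (.r 2 4 744 2))))))) (.sub (.mul (.mul (.c 1024) (.mul (.c 2) (.add (.mul (.c 853) (.w 0 1)) (.mul (.c 171) (.q 0))))) (.w 1 2)) (.mul (.mul (.c 24) (.mul (.mul (.c 86) (.v 1)) (.mul (.c 86) (.v 1)))) (.w 0 1)))) (.mul (.mul (.mul (.c 1048576) (.mul (.mul (.add (.mul (.r 2 385 744 2) (.q 0)) (.mul (.r 2 386 744 2) (.v 0))) (.mul (.mul (.c 86) (.v 1)) (.add (.mul (.mul (.c 1048576) (.r 2 2 744 2)) (.w 1 2)) (.mul (.mul (.c 86) (.v 1)) (.add (.mul (.mul (.c 1024) (.r 2 3 744 2)) (.w 1 1)) (.mul (.mul (.c 86) (.v 1)) (.r 2 4 744 2))))))) (.c 2)))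 (.w 0 1)) (.w 1 2)))))))))) (.w 0 2)) (.w 2 1))), 155, 5, 6, 4, 1⟩,
  ⟨(.sub (.sub (.mul (.mul (.mul (.c 0) (.w 0 3)) (.w 1 3)) (.w 2 3)) (.mul (.mul (.mul (.c 86) (.v 1)) (.add (.mul (.mul (.c 1048576) (.r 2 2 744 2)) (.w 1 2)) (.mul (.mul (.c 86) (.v 1)) (.add (.mul (.mul (.c 1024) (.r 2 3 744 2)) (.w 1 1)) (.mul (.mul (.c 86) (.v 1)) (.r 2 4 744 2)))))) (.mul (.add (.mul (.q 2) (.r 0 5 1 3)) (.mul (.v 2) (.r 0 749 1 3))) (.mul (.c 1) (.add (.mul (.add (.mul (.mul (.c 1024) (.s 2 57 744 2)) (.w 0 1)) (.mul (.mul (.c 171) (.v 0)) (.s 2 60 744 2))) (.c 1)) (.mul (.add (.mul (.mul (.c 1024) (.s 2 57 744 2)) (.w 0 1)) (.mul (.mul (.c 171) (.v 0)) (.s 2 60 744 2))) (.c 1))))))) (.mul (.mul (.mul (.c 34359738368) (.add (.mul (.mul (.add (.mul (.r 2 365 744 2) (.q 0)) (.mul (.r 2 366 744 2) (.v 0))) (.mul (.mul (.c 86) (.v 1)) (.add (.mul (.mul (.c 1048576) (.r 2 2 744 2)) (.w 1 2)) (.mul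 (.mul (.c 86) (.v 1)) (.add (.mul (.mul (.c 1024) (.r 2 3 744 2)) (.w 1 1)) (.mul (.mul (.c 86) (.v 1)) (.r 2 4 744 2))))))) (.sub (.c 0) (.mul (.c 12) (.c 1)))) (.add (.mul (.mul (.add (.mul (.r 2 369 744 2) (.q 0)) (.mul (.r 2 370 744 2) (.v 0))) (.mul (.mul (.c 86) (.v 1)) (.add (.mul (.mul (.c 1048576) (.r 2 2 744 2)) (.w 1 2)) (.mul (.mul (.c 86) (.v 1)) (.add (.mul (.mul (.c 1024) (.r 2 3 744 2)) (.w 1 1)) (.mul (.mul (.c 86) (.v 1)) (.r 2 4 744 2))))))) (.c 1)) (.add (.mul (.mul (.add (.mul (.r 2 373 744 2) (.q 0)) (.mul (.r 2 374 744 2) (.v 0))) (.mul (.mul (.c 86) (.v 1)) (.add (.mul (.mul (.c 1048576) (.r 2 2 744 2)) (.w 1 2)) (.mul (.mul (.c 86) (.v 1)) (.add (.mul (.mul (.c 1024) (.r 2 3 744 2)) (.w 1 1)) (.mul (.mul (.c 86) (.v 1)) (.r 2 4 744 2))))))) (.sub (.c 0) (.mul (.c 12) (.c 1)))) (.add (.mul (.mul (.add (.mul (.r 2 375 744 2) (.q 0)) (.mul (.r 2 376 744 2) (.v 0)))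 (.mul (.mul (.c 86) (.v 1)) (.add (.mul (.mul (.c 1048576) (.r 2 2 744 2)) (.w 1 2)) (.mul (.mul (.c 86) (.v 1)) (.add (.mul (.mul (.c 1024) (.r 2 3 744 2)) (.w 1 1)) (.mul (.mul (.c 86) (.v 1)) (.r 2 4 744 2))))))) (.sub (.c 0) (.mul (.c 12) (.c 1)))) (.add (.mul (.mul (.add (.mul (.r 2 379 744 2) (.q 0)) (.mul (.r 2 380 744 2) (.v 0))) (.mul (.mul (.c 86) (.v 1)) (.add (.mul (.mul (.c 1048576) (.r 2 2 744 2)) (.w 1 2)) (.mul (.mul (.c 86) (.v 1)) (.add (.mul (.mul (.c 1024) (.r 2 3 744 2)) (.w 1 1)) (.mul (.mul (.c 86) (.v 1)) (.r 2 4 744 2))))))) (.c 1)) (.mul (.mul (.add (.mul (.r 2 383 744 2) (.q 0)) (.mul (.r 2 384 744 2) (.v 0))) (.mul (.mul (.c 86) (.v 1)) (.add (.mul (.mul (.c 1048576) (.r 2 2 744 2)) (.w 1 2)) (.mul (.mul (.c 86) (.v 1)) (.add (.mul (.mul (.c 1024) (.r 2 3 744 2)) (.w 1 1)) (.mul (.mul (.c 86) (.v 1)) (.r 2 4 744 2))))))) (.sub (.c 0) (.mul (.c 12) (.c 1))))))))))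 (.w 0 2)) (.w 2 1))), 142, 4, 4, 4, 1⟩,
  ⟨(.sub (.sub (.mul (.mul (.mul (.c 0) (.w 0 2)) (.w 1 3)) (.w 2 3)) (.mul (.mul (.mul (.c 86) (.v 1)) (.add (.mul (.mul (.c 1048576) (.r 2 2 744 2)) (.w 1 2)) (.mul (.mul (.c 86) (.v 1)) (.add (.mul (.mul (.c 1024) (.r 2 3 744 2)) (.w 1 1)) (.mul (.mul (.c 86) (.v 1)) (.r 2 4 744 2)))))) (.mul (.add (.mul (.q 2) (.r 0 5 1 3)) (.mul (.v 2) (.r 0 749 1 3))) (.mul (.c 1) (.add (.mul (.s 2 58 744 2) (.c 1)) (.mul (.s 2 58 744 2) (.c 1))))))) (.mul (.mul (.mul (.c 33554432) (.add (.mul (.mul (.add (.mul (.r 2 367 744 2) (.q 0)) (.mul (.r 2 368 744 2) (.v 0))) (.mul (.mul (.c 86) (.v 1)) (.add (.mul (.mul (.c 1048576) (.r 2 2 744 2)) (.w 1 2)) (.mul (.mul (.c 86) (.v 1)) (.add (.mul (.mul (.c 1024) (.r 2 3 744 2)) (.w 1 1)) (.mul (.mul (.c 86) (.v 1)) (.r 2 4 744 2))))))) (.sub (.c 0) (.mul (.c 12) (.c 1)))) (.add (.mul (.mul (.add (.mul (.r 2 371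 744 2) (.q 0)) (.mul (.r 2 372 744 2) (.v 0))) (.mul (.mul (.c 86) (.v 1)) (.add (.mul (.mul (.c 1048576) (.r 2 2 744 2)) (.w 1 2)) (.mul (.mul (.c 86) (.v 1)) (.add (.mul (.mul (.c 1024) (.r 2 3 744 2)) (.w 1 1)) (.mul (.mul (.c 86) (.v 1)) (.r 2 4 744 2))))))) (.mul (.c 2) (.c 1))) (.add (.mul (.mul (.add (.mul (.r 2 373 744 2) (.q 0)) (.mul (.r 2 374 744 2) (.v 0))) (.mul (.mul (.c 86) (.v 1)) (.add (.mul (.mul (.c 1048576) (.r 2 2 744 2)) (.w 1 2)) (.mul (.mul (.c 86) (.v 1)) (.add (.mul (.mul (.c 1024) (.r 2 3 744 2)) (.w 1 1)) (.mul (.mul (.c 86) (.v 1)) (.r 2 4 744 2))))))) (.sub (.c 0) (.mul (.c 24) (.c 1)))) (.add (.mul (.mul (.add (.mul (.r 2 377 744 2) (.q 0)) (.mul (.r 2 378 744 2) (.v 0))) (.mul (.mul (.c 86) (.v 1)) (.add (.mul (.mul (.c 1048576) (.r 2 2 744 2)) (.w 1 2)) (.mul (.mul (.c 86) (.v 1)) (.add (.mul (.mul (.c 1024) (.r 2 3 744 2)) (.w 1 1)) (.mul (.mul (.c 86)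 (.v 1)) (.r 2 4 744 2))))))) (.sub (.c 0) (.mul (.c 12) (.c 1)))) (.add (.mul (.mul (.add (.mul (.r 2 381 744 2) (.q 0)) (.mul (.r 2 382 744 2) (.v 0))) (.mul (.mul (.c 86) (.v 1)) (.add (.mul (.mul (.c 1048576) (.r 2 2 744 2)) (.w 1 2)) (.mul (.mul (.c 86) (.v 1)) (.add (.mul (.mul (.c 1024) (.r 2 3 744 2)) (.w 1 1)) (.mul (.mul (.c 86) (.v 1)) (.r 2 4 744 2))))))) (.mul (.c 2) (.c 1))) (.mul (.mul (.add (.mul (.r 2 383 744 2) (.q 0)) (.mul (.r 2 384 744 2) (.v 0))) (.mul (.mul (.c 86) (.v 1)) (.add (.mul (.mul (.c 1048576) (.r 2 2 744 2)) (.w 1 2)) (.mul (.mul (.c 86) (.v 1)) (.add (.mul (.mul (.c 1024) (.r 2 3 744 2)) (.w 1 1)) (.mul (.mul (.c 86) (.v 1)) (.r 2 4 744 2))))))) (.sub (.c 0) (.mul (.c 24) (.c 1)))))))))) (.w 0 1)) (.w 2 1))), 131, 3, 4, 4, 1⟩,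
  ⟨(.sub (.sub (.mul (.mul (.mul (.c 0) (.w 0 2)) (.w 1 3)) (.w 2 3)) (.mul (.mul (.mul (.c 86) (.v 1)) (.add (.mul (.mul (.c 1048576) (.r 2 2 744 2)) (.w 1 2)) (.mul (.mul (.c 86) (.v 1)) (.add (.mul (.mul (.c 1024) (.r 2 3 744 2)) (.w 1 1)) (.mul (.mul (.c 86) (.v 1)) (.r 2 4 744 2)))))) (.mul (.add (.mul (.q 2) (.r 0 5 1 3)) (.mul (.v 2) (.r 0 749 1 3))) (.mul (.c 1) (.add (.mul (.s 2 59 744 2) (.c 1)) (.mul (.s 2 59 744 2) (.c 1))))))) (.mul (.mul (.mul (.c 33554432) (.add (.mul (.mul (.add (.mul (.r 2 369 744 2) (.q 0)) (.mul (.r 2 370 744 2) (.v 0))) (.mul (.mul (.c 86) (.v 1)) (.add (.mul (.mul (.c 1048576) (.r 2 2 744 2)) (.w 1 2)) (.mul (.mul (.c 86) (.v 1)) (.add (.mul (.mul (.c 1024) (.r 2 3 744 2)) (.w 1 1)) (.mul (.mul (.c 86) (.v 1)) (.r 2 4 744 2))))))) (.sub (.c 0) (.mul (.c 12) (.c 1)))) (.add (.mul (.mul (.add (.mul (.r 2 371 744 2) (.q 0)) (.mul (.r 2 372 744 2) (.v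 0))) (.mul (.mul (.c 86) (.v 1)) (.add (.mul (.mul (.c 1048576) (.r 2 2 744 2)) (.w 1 2)) (.mul (.mul (.c 86) (.v 1)) (.add (.mul (.mul (.c 1024) (.r 2 3 744 2)) (.w 1 1)) (.mul (.mul (.c 86) (.v 1)) (.r 2 4 744 2))))))) (.sub (.c 0) (.mul (.c 12) (.c 1)))) (.add (.mul (.mul (.add (.mul (.r 2 373 744 2) (.q 0)) (.mul (.r 2 374 744 2) (.v 0))) (.mul (.mul (.c 86) (.v 1)) (.add (.mul (.mul (.c 1048576) (.r 2 2 744 2)) (.w 1 2)) (.mul (.mul (.c 86) (.v 1)) (.add (.mul (.mul (.c 1024) (.r 2 3 744 2)) (.w 1 1)) (.mul (.mul (.c 86) (.v 1)) (.r 2 4 744 2))))))) (.mul (.c 144) (.c 1))) (.add (.mul (.mul (.add (.mul (.r 2 379 744 2) (.q 0)) (.mul (.r 2 380 744 2) (.v 0))) (.mul (.mul (.c 86) (.v 1)) (.add (.mul (.mul (.c 1048576) (.r 2 2 744 2)) (.w 1 2)) (.mul (.mul (.c 86) (.v 1)) (.add (.mul (.mul (.c 1024) (.r 2 3 744 2)) (.w 1 1)) (.mul (.mul (.c 86) (.v 1)) (.r 2 4 744 2))))))) (.sub (.c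 0) (.mul (.c 12) (.c 1)))) (.add (.mul (.mul (.add (.mul (.r 2 381 744 2) (.q 0)) (.mul (.r 2 382 744 2) (.v 0))) (.mul (.mul (.c 86) (.v 1)) (.add (.mul (.mul (.c 1048576) (.r 2 2 744 2)) (.w 1 2)) (.mul (.mul (.c 86) (.v 1)) (.add (.mul (.mul (.c 1024) (.r 2 3 744 2)) (.w 1 1)) (.mul (.mul (.c 86) (.v 1)) (.r 2 4 744 2))))))) (.sub (.c 0) (.mul (.c 12) (.c 1)))) (.mul (.mul (.add (.mul (.r 2 383 744 2) (.q 0)) (.mul (.r 2 384 744 2) (.v 0))) (.mul (.mul (.c 86) (.v 1)) (.add (.mul (.mul (.c 1048576) (.r 2 2 744 2)) (.w 1 2)) (.mul (.mul (.c 86) (.v 1)) (.add (.mul (.mul (.c 1024) (.r 2 3 744 2)) (.w 1 1)) (.mul (.mul (.c 86) (.v 1)) (.r 2 4 744 2))))))) (.mul (.c 144) (.c 1))))))))) (.w 0 1)) (.w 2 1))), 132, 3, 4, 4, 1⟩,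
  ⟨(.sub (.sub (.mul (.mul (.mul (.c 0) (.w 0 3)) (.w 1 5)) (.w 2 3)) (.mul (.mul (.mul (.c 86) (.v 1)) (.add (.mul (.mul (.c 1048576) (.r 2 2 744 2)) (.w 1 2)) (.mul (.mul (.c 86) (.v 1)) (.add (.mul (.mul (.c 1024) (.r 2 3 744 2)) (.w 1 1)) (.mul (.mul (.c 86) (.v 1)) (.r 2 4 744 2)))))) (.mul (.add (.mul (.q 2) (.r 0 5 1 3)) (.mul (.v 2) (.r 0 749 1 3))) (.mul (.c 1) (.add (.mul (.mul (.add (.mul (.mul (.c 1024) (.s 2 57 744 2)) (.w 0 1)) (.mul (.mul (.c 171) (.v 0)) (.s 2 60 744 2))) (.mul (.c 86) (.v 1))) (.w 1 1)) (.mul (.mul (.s 2 59 744 2) (.mul (.mul (.c 86) (.v 1)) (.mul (.c 86) (.v 1)))) (.w 0 1))))))) (.mul (.mul (.mul (.c 33554432) (.add (.mul (.mul (.c 1024) (.mul (.mul (.add (.mul (.r 2 375 744 2) (.q 0)) (.mul (.r 2 376 744 2) (.v 0))) (.mul (.mul (.c 86) (.v 1)) (.add (.mul (.mul (.c 1048576) (.r 2 2 744 2)) (.w 1 2)) (.mul (.mul (.c 86) (.v 1)) (.add (.mul (.mul (.c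 1024) (.r 2 3 744 2)) (.w 1 1)) (.mul (.mul (.c 86) (.v 1)) (.r 2 4 744 2))))))) (.sub (.mul (.c 0) (.w 1 1)) (.mul (.c 12) (.mul (.c 86) (.v 1)))))) (.w 1 1)) (.add (.mul (.mul (.add (.mul (.r 2 379 744 2) (.q 0)) (.mul (.r 2 380 744 2) (.v 0))) (.mul (.mul (.c 86) (.v 1)) (.add (.mul (.mul (.c 1048576) (.r 2 2 744 2)) (.w 1 2)) (.mul (.mul (.c 86) (.v 1)) (.add (.mul (.mul (.c 1024) (.r 2 3 744 2)) (.w 1 1)) (.mul (.mul (.c 86) (.v 1)) (.r 2 4 744 2))))))) (.sub (.mul (.mul (.c 1024) (.mul (.c 86) (.v 1))) (.w 1 1)) (.mul (.c 12) (.mul (.mul (.c 86) (.v 1)) (.mul (.c 86) (.v 1)))))) (.add (.mul (.mul (.add (.mul (.r 2 381 744 2) (.q 0)) (.mul (.r 2 382 744 2) (.v 0))) (.mul (.mul (.c 86) (.v 1)) (.add (.mul (.mul (.c 1048576) (.r 2 2 744 2)) (.w 1 2)) (.mul (.mul (.c 86) (.v 1)) (.add (.mul (.mul (.c 1024) (.r 2 3 744 2)) (.w 1 1)) (.mul (.mul (.c 86) (.v 1)) (.r 2 4 744 2))))))) (.sub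 (.mul (.c 0) (.w 1 2)) (.mul (.c 12) (.mul (.mul (.c 86) (.v 1)) (.mul (.c 86) (.v 1)))))) (.add (.mul (.mul (.add (.mul (.r 2 383 744 2) (.q 0)) (.mul (.r 2 384 744 2) (.v 0))) (.mul (.mul (.c 86) (.v 1)) (.add (.mul (.mul (.c 1048576) (.r 2 2 744 2)) (.w 1 2)) (.mul (.mul (.c 86) (.v 1)) (.add (.mul (.mul (.c 1024) (.r 2 3 744 2)) (.w 1 1)) (.mul (.mul (.c 86) (.v 1)) (.r 2 4 744 2))))))) (.sub (.mul (.c 144) (.mul (.mul (.c 86) (.v 1)) (.mul (.c 86) (.v 1)))) (.mul (.mul (.c 1024) (.mul (.c 12) (.mul (.c 86) (.v 1)))) (.w 1 1)))) (.mul (.mul (.c 1048576) (.mul (.mul (.add (.mul (.r 2 385 744 2) (.q 0)) (.mul (.r 2 386 744 2) (.v 0))) (.mul (.mul (.c 86) (.v 1)) (.add (.mul (.mul (.c 1048576) (.r 2 2 744 2)) (.w 1 2)) (.mul (.mul (.c 86) (.v 1)) (.add (.mul (.mul (.c 1024) (.r 2 3 744 2)) (.w 1 1)) (.mul (.mul (.c 86) (.v 1)) (.r 2 4 744 2))))))) (.sub (.c 0) (.mul (.c 12) (.c 1)))))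 (.w 1 2))))))) (.w 0 2)) (.w 2 1))), 150, 4, 6, 4, 1⟩,
  ⟨(.sub (.sub (.mul (.mul (.mul (.mul (.c 590295810358705651712) (.mul (.mul (.c 86) (.v 1)) (.add (.mul (.c 1024) (.add (.mul (.add (.mul (.mul (.c 1024) (.s 2 163 744 2)) (.w 0 1)) (.mul (.s 2 164 744 2) (.mul (.c 171) (.v 0)))) (.w 1 1)) (.mul (.mul (.s 2 165 744 2) (.mul (.c 86) (.v 1))) (.w 0 1)))) (.mul (.s 2 166 744 2) (.mul (.mul (.c 86) (.v 1)) (.mul (.c 171) (.v 0))))))) (.w 0 3)) (.w 1 3)) (.w 2 2)) (.mul (.mul (.mul (.c 86) (.v 1)) (.add (.mul (.mul (.c 1048576) (.r 2 2 744 2)) (.w 1 2)) (.mul (.mul (.c 86) (.v 1)) (.add (.mul (.mul (.c 1024) (.r 2 3 744 2)) (.w 1 1)) (.mul (.mul (.c 86) (.v 1)) (.r 2 4 744 2)))))) (.mul (.add (.mul (.q 2) (.r 0 5 1 3)) (.mul (.v 2) (.r 0 749 1 3))) (.add (.mul (.mul (.mul (.mul (.c 34359738368) (.mul (.c 1) (.add (.mul (.c 853) (.w 0 1)) (.mul (.c 171) (.q 0))))) (.w 0 1)) (.w 1 2))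 (.w 2 1)) (.mul (.c 1) (.add (.mul (.add (.mul (.mul (.c 1024) (.mul (.s 2 91 744 2) (.add (.mul (.mul (.c 767) (.w 0 1)) (.w 1 1)) (.add (.mul (.mul (.c 171) (.q 0)) (.w 1 1)) (.mul (.mul (.c 86) (.q 1)) (.w 0 1)))))) (.w 0 1)) (.mul (.s 2 92 744 2) (.mul (.mul (.c 171) (.v 0)) (.add (.mul (.mul (.c 767) (.w 0 1)) (.w 1 1)) (.add (.mul (.mul (.c 171) (.q 0)) (.w 1 1)) (.mul (.mul (.c 86) (.q 1)) (.w 0 1))))))) (.w 1 1)) (.add (.mul (.add (.mul (.mul (.c 1024) (.mul (.s 2 91 744 2) (.add (.mul (.c 853) (.w 0 1)) (.mul (.c 171) (.q 0))))) (.w 0 1)) (.mul (.s 2 92 744 2) (.mul (.mul (.c 171) (.v 0)) (.add (.mul (.c 853) (.w 0 1)) (.mul (.c 171) (.q 0)))))) (.w 1 2)) (.mul (.mul (.s 2 94 744 2) (.mul (.mul (.c 86) (.v 1)) (.mul (.c 86) (.v 1)))) (.w 0 2))))))))) (.mul (.mul (.mul (.c 33554432) (.add (.mul (.mul (.c 1024) (.mul (.mul (.add (.mul (.r 2 387 744 2) (.q 0)) (.mul (.r 2 388 744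 2) (.v 0))) (.mul (.mul (.c 86) (.v 1)) (.add (.mul (.mul (.c 1048576) (.r 2 2 744 2)) (.w 1 2)) (.mul (.mul (.c 86) (.v 1)) (.add (.mul (.mul (.c 1024) (.r 2 3 744 2)) (.w 1 1)) (.mul (.mul (.c 86) (.v 1)) (.r 2 4 744 2))))))) (.mul (.c 2) (.add (.mul (.mul (.c 767) (.w 0 1)) (.w 1 1)) (.add (.mul (.mul (.c 171) (.q 0)) (.w 1 1)) (.mul (.mul (.c 86) (.q 1)) (.w 0 1))))))) (.w 1 1)) (.add (.mul (.mul (.c 1024) (.mul (.mul (.add (.mul (.r 2 389 744 2) (.q 0)) (.mul (.r 2 390 744 2) (.v 0))) (.mul (.mul (.c 86) (.v 1)) (.add (.mul (.mul (.c 1048576) (.r 2 2 744 2)) (.w 1 2)) (.mul (.mul (.c 86) (.v 1)) (.add (.mul (.mul (.c 1024) (.r 2 3 744 2)) (.w 1 1)) (.mul (.mul (.c 86) (.v 1)) (.r 2 4 744 2))))))) (.add (.mul (.mul (.c 767) (.w 0 1)) (.w 1 1)) (.add (.mul (.mul (.c 171) (.q 0)) (.w 1 1)) (.mul (.mul (.c 86) (.q 1)) (.w 0 1)))))) (.w 1 1)) (.add (.mul (.mul (.c 1024) (.mul (.mul (.add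 (.mul (.r 2 395 744 2) (.q 0)) (.mul (.r 2 396 744 2) (.v 0))) (.mul (.mul (.c 86) (.v 1)) (.add (.mul (.mul (.c 1048576) (.r 2 2 744 2)) (.w 1 2)) (.mul (.mul (.c 86) (.v 1)) (.add (.mul (.mul (.c 1024) (.r 2 3 744 2)) (.w 1 1)) (.mul (.mul (.c 86) (.v 1)) (.r 2 4 744 2))))))) (.mul (.c 2) (.add (.mul (.mul (.c 767) (.w 0 1)) (.w 1 1)) (.add (.mul (.mul (.c 171) (.q 0)) (.w 1 1)) (.mul (.mul (.c 86) (.q 1)) (.w 0 1))))))) (.w 1 1)) (.add (.mul (.mul (.c 1024) (.mul (.mul (.add (.mul (.r 2 397 744 2) (.q 0)) (.mul (.r 2 398 744 2) (.v 0))) (.mul (.mul (.c 86) (.v 1)) (.add (.mul (.mul (.c 1048576) (.r 2 2 744 2)) (.w 1 2)) (.mul (.mul (.c 86) (.v 1)) (.add (.mul (.mul (.c 1024) (.r 2 3 744 2)) (.w 1 1)) (.mul (.mul (.c 86) (.v 1)) (.r 2 4 744 2))))))) (.mul (.c 2) (.add (.mul (.c 853) (.w 0 1)) (.mul (.c 171) (.q 0)))))) (.w 1 2)) (.add (.mul (.mul (.add (.mul (.r 2 399 744 2) (.q 0))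 (.mul (.r 2 400 744 2) (.v 0))) (.mul (.mul (.c 86) (.v 1)) (.add (.mul (.mul (.c 1048576) (.r 2 2 744 2)) (.w 1 2)) (.mul (.mul (.c 86) (.v 1)) (.add (.mul (.mul (.c 1024) (.r 2 3 744 2)) (.w 1 1)) (.mul (.mul (.c 86) (.v 1)) (.r 2 4 744 2))))))) (.sub (.mul (.mul (.c 1024) (.add (.mul (.c 853) (.w 0 1)) (.mul (.c 171) (.q 0)))) (.w 1 2)) (.mul (.mul (.c 12) (.mul (.mul (.c 86) (.v 1)) (.mul (.c 86) (.v 1)))) (.w 0 1)))) (.add (.mul (.mul (.mul (.add (.mul (.r 2 403 744 2) (.q 0)) (.mul (.r 2 404 744 2) (.v 0))) (.mul (.mul (.c 86) (.v 1)) (.add (.mul (.mul (.c 1048576) (.r 2 2 744 2)) (.w 1 2)) (.mul (.mul (.c 86) (.v 1)) (.add (.mul (.mul (.c 1024) (.r 2 3 744 2)) (.w 1 1)) (.mul (.mul (.c 86) (.v 1)) (.r 2 4 744 2))))))) (.mul (.c 2) (.mul (.mul (.c 86) (.v 1)) (.mul (.c 86) (.v 1))))) (.w 0 1)) (.add (.mul (.mul (.add (.mul (.r 2 405 744 2) (.q 0)) (.mul (.r 2 406 744 2) (.v 0)))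 (.mul (.mul (.c 86) (.v 1)) (.add (.mul (.mul (.c 1048576) (.r 2 2 744 2)) (.w 1 2)) (.mul (.mul (.c 86) (.v 1)) (.add (.mul (.mul (.c 1024) (.r 2 3 744 2)) (.w 1 1)) (.mul (.mul (.c 86) (.v 1)) (.r 2 4 744 2))))))) (.sub (.mul (.mul (.c 1024) (.mul (.c 2) (.add (.mul (.c 853) (.w 0 1)) (.mul (.c 171) (.q 0))))) (.w 1 2)) (.mul (.mul (.c 24) (.mul (.mul (.c 86) (.v 1)) (.mul (.c 86) (.v 1)))) (.w 0 1)))) (.mul (.mul (.mul (.c 1048576) (.mul (.mul (.add (.mul (.r 2 407 744 2) (.q 0)) (.mul (.r 2 408 744 2) (.v 0))) (.mul (.mul (.c 86) (.v 1)) (.add (.mul (.mul (.c 1048576) (.r 2 2 744 2)) (.w 1 2)) (.mul (.mul (.c 86) (.v 1)) (.add (.mul (.mul (.c 1024) (.r 2 3 744 2)) (.w 1 1)) (.mul (.mul (.c 86) (.v 1)) (.r 2 4 744 2))))))) (.c 2))) (.w 0 1)) (.w 1 2)))))))))) (.w 0 2)) (.w 2 1))), 155, 5, 6, 4, 1⟩,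
  ⟨(.sub (.sub (.mul (.mul (.mul (.c 0) (.w 0 3)) (.w 1 3)) (.w 2 3)) (.mul (.mul (.mul (.c 86) (.v 1)) (.add (.mul (.mul (.c 1048576) (.r 2 2 744 2)) (.w 1 2)) (.mul (.mul (.c 86) (.v 1)) (.add (.mul (.mul (.c 1024) (.r 2 3 744 2)) (.w 1 1)) (.mul (.mul (.c 86) (.v 1)) (.r 2 4 744 2)))))) (.mul (.add (.mul (.q 2) (.r 0 5 1 3)) (.mul (.v 2) (.r 0 749 1 3))) (.mul (.c 1) (.add (.mul (.add (.mul (.mul (.c 1024) (.s 2 93 744 2)) (.w 0 1)) (.mul (.mul (.c 171) (.v 0)) (.s 2 96 744 2))) (.c 1)) (.mul (.add (.mul (.mul (.c 1024) (.s 2 93 744 2)) (.w 0 1)) (.mul (.mul (.c 171) (.v 0)) (.s 2 96 744 2))) (.c 1))))))) (.mul (.mul (.mul (.c 34359738368) (.add (.mul (.mul (.add (.mul (.r 2 387 744 2) (.q 0)) (.mul (.r 2 388 744 2) (.v 0))) (.mul (.mul (.c 86) (.v 1)) (.add (.mul (.mul (.c 1048576) (.r 2 2 744 2)) (.w 1 2)) (.mul (.mul (.c 86) (.v 1)) (.add (.mul (.mul (.c 1024) (.r 2 3 744 2)) (.w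 1 1)) (.mul (.mul (.c 86) (.v 1)) (.r 2 4 744 2))))))) (.sub (.c 0) (.mul (.c 12) (.c 1)))) (.add (.mul (.mul (.add (.mul (.r 2 391 744 2) (.q 0)) (.mul (.r 2 392 744 2) (.v 0))) (.mul (.mul (.c 86) (.v 1)) (.add (.mul (.mul (.c 1048576) (.r 2 2 744 2)) (.w 1 2)) (.mul (.mul (.c 86) (.v 1)) (.add (.mul (.mul (.c 1024) (.r 2 3 744 2)) (.w 1 1)) (.mul (.mul (.c 86) (.v 1)) (.r 2 4 744 2))))))) (.c 1)) (.add (.mul (.mul (.add (.mul (.r 2 395 744 2) (.q 0)) (.mul (.r 2 396 744 2) (.v 0))) (.mul (.mul (.c 86) (.v 1)) (.add (.mul (.mul (.c 1048576) (.r 2 2 744 2)) (.w 1 2)) (.mul (.mul (.c 86) (.v 1)) (.add (.mul (.mul (.c 1024) (.r 2 3 744 2)) (.w 1 1)) (.mul (.mul (.c 86) (.v 1)) (.r 2 4 744 2))))))) (.sub (.c 0) (.mul (.c 12) (.c 1)))) (.add (.mul (.mul (.add (.mul (.r 2 397 744 2) (.q 0)) (.mul (.r 2 398 744 2) (.v 0))) (.mul (.mul (.c 86) (.v 1)) (.add (.mul (.mul (.c 1048576) (.r 2 2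 744 2)) (.w 1 2)) (.mul (.mul (.c 86) (.v 1)) (.add (.mul (.mul (.c 1024) (.r 2 3 744 2)) (.w 1 1)) (.mul (.mul (.c 86) (.v 1)) (.r 2 4 744 2))))))) (.sub (.c 0) (.mul (.c 12) (.c 1)))) (.add (.mul (.mul (.add (.mul (.r 2 401 744 2) (.q 0)) (.mul (.r 2 402 744 2) (.v 0))) (.mul (.mul (.c 86) (.v 1)) (.add (.mul (.mul (.c 1048576) (.r 2 2 744 2)) (.w 1 2)) (.mul (.mul (.c 86) (.v 1)) (.add (.mul (.mul (.c 1024) (.r 2 3 744 2)) (.w 1 1)) (.mul (.mul (.c 86) (.v 1)) (.r 2 4 744 2))))))) (.c 1)) (.mul (.mul (.add (.mul (.r 2 405 744 2) (.q 0)) (.mul (.r 2 406 744 2) (.v 0))) (.mul (.mul (.c 86) (.v 1)) (.add (.mul (.mul (.c 1048576) (.r 2 2 744 2)) (.w 1 2)) (.mul (.mul (.c 86) (.v 1)) (.add (.mul (.mul (.c 1024) (.r 2 3 744 2)) (.w 1 1)) (.mul (.mul (.c 86) (.v 1)) (.r 2 4 744 2))))))) (.sub (.c 0) (.mul (.c 12) (.c 1)))))))))) (.w 0 2)) (.w 2 1))), 142, 4, 4, 4, 1⟩,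
  ⟨(.sub (.sub (.mul (.mul (.mul (.c 0) (.w 0 2)) (.w 1 3)) (.w 2 3)) (.mul (.mul (.mul (.c 86) (.v 1)) (.add (.mul (.mul (.c 1048576) (.r 2 2 744 2)) (.w 1 2)) (.mul (.mul (.c 86) (.v 1)) (.add (.mul (.mul (.c 1024) (.r 2 3 744 2)) (.w 1 1)) (.mul (.mul (.c 86) (.v 1)) (.r 2 4 744 2)))))) (.mul (.add (.mul (.q 2) (.r 0 5 1 3)) (.mul (.v 2) (.r 0 749 1 3))) (.mul (.c 1) (.add (.mul (.s 2 94 744 2) (.c 1)) (.mul (.s 2 94 744 2) (.c 1))))))) (.mul (.mul (.mul (.c 33554432) (.add (.mul (.mul (.add (.mul (.r 2 389 744 2) (.q 0)) (.mul (.r 2 390 744 2) (.v 0))) (.mul (.mul (.c 86) (.v 1)) (.add (.mul (.mul (.c 1048576) (.r 2 2 744 2)) (.w 1 2)) (.mul (.mul (.c 86) (.v 1)) (.add (.mul (.mul (.c 1024) (.r 2 3 744 2)) (.w 1 1)) (.mul (.mul (.c 86) (.v 1)) (.r 2 4 744 2))))))) (.sub (.c 0) (.mul (.c 12) (.c 1)))) (.add (.mul (.mul (.add (.mul (.r 2 393 744 2) (.q 0)) (.mul (.r 2 394 744 2) (.v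 0))) (.mul (.mul (.c 86) (.v 1)) (.add (.mul (.mul (.c 1048576) (.r 2 2 744 2)) (.w 1 2)) (.mul (.mul (.c 86) (.v 1)) (.add (.mul (.mul (.c 1024) (.r 2 3 744 2)) (.w 1 1)) (.mul (.mul (.c 86) (.v 1)) (.r 2 4 744 2))))))) (.mul (.c 2) (.c 1))) (.add (.mul (.mul (.add (.mul (.r 2 395 744 2) (.q 0)) (.mul (.r 2 396 744 2) (.v 0))) (.mul (.mul (.c 86) (.v 1)) (.add (.mul (.mul (.c 1048576) (.r 2 2 744 2)) (.w 1 2)) (.mul (.mul (.c 86) (.v 1)) (.add (.mul (.mul (.c 1024) (.r 2 3 744 2)) (.w 1 1)) (.mul (.mul (.c 86) (.v 1)) (.r 2 4 744 2))))))) (.sub (.c 0) (.mul (.c 24) (.c 1)))) (.add (.mul (.mul (.add (.mul (.r 2 399 744 2) (.q 0)) (.mul (.r 2 400 744 2) (.v 0))) (.mul (.mul (.c 86) (.v 1)) (.add (.mul (.mul (.c 1048576) (.r 2 2 744 2)) (.w 1 2)) (.mul (.mul (.c 86) (.v 1)) (.add (.mul (.mul (.c 1024) (.r 2 3 744 2)) (.w 1 1)) (.mul (.mul (.c 86) (.v 1)) (.r 2 4 744 2))))))) (.sub (.c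 0) (.mul (.c 12) (.c 1)))) (.add (.mul (.mul (.add (.mul (.r 2 403 744 2) (.q 0)) (.mul (.r 2 404 744 2) (.v 0))) (.mul (.mul (.c 86) (.v 1)) (.add (.mul (.mul (.c 1048576) (.r 2 2 744 2)) (.w 1 2)) (.mul (.mul (.c 86) (.v 1)) (.add (.mul (.mul (.c 1024) (.r 2 3 744 2)) (.w 1 1)) (.mul (.mul (.c 86) (.v 1)) (.r 2 4 744 2))))))) (.mul (.c 2) (.c 1))) (.mul (.mul (.add (.mul (.r 2 405 744 2) (.q 0)) (.mul (.r 2 406 744 2) (.v 0))) (.mul (.mul (.c 86) (.v 1)) (.add (.mul (.mul (.c 1048576) (.r 2 2 744 2)) (.w 1 2)) (.mul (.mul (.c 86) (.v 1)) (.add (.mul (.mul (.c 1024) (.r 2 3 744 2)) (.w 1 1)) (.mul (.mul (.c 86) (.v 1)) (.r 2 4 744 2))))))) (.sub (.c 0) (.mul (.c 24) (.c 1)))))))))) (.w 0 1)) (.w 2 1))), 131, 3, 4, 4, 1⟩,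
  ⟨(.sub (.sub (.mul (.mul (.mul (.c 0) (.w 0 2)) (.w 1 3)) (.w 2 3)) (.mul (.mul (.mul (.c 86) (.v 1)) (.add (.mul (.mul (.c 1048576) (.r 2 2 744 2)) (.w 1 2)) (.mul (.mul (.c 86) (.v 1)) (.add (.mul (.mul (.c 1024) (.r 2 3 744 2)) (.w 1 1)) (.mul (.mul (.c 86) (.v 1)) (.r 2 4 744 2)))))) (.mul (.add (.mul (.q 2) (.r 0 5 1 3)) (.mul (.v 2) (.r 0 749 1 3))) (.mul (.c 1) (.add (.mul (.s 2 95 744 2) (.c 1)) (.mul (.s 2 95 744 2) (.c 1))))))) (.mul (.mul (.mul (.c 33554432) (.add (.mul (.mul (.add (.mul (.r 2 391 744 2) (.q 0)) (.mul (.r 2 392 744 2) (.v 0))) (.mul (.mul (.c 86) (.v 1)) (.add (.mul (.mul (.c 1048576) (.r 2 2 744 2)) (.w 1 2)) (.mul (.mul (.c 86) (.v 1)) (.add (.mul (.mul (.c 1024) (.r 2 3 744 2)) (.w 1 1)) (.mul (.mul (.c 86) (.v 1)) (.r 2 4 744 2))))))) (.sub (.c 0) (.mul (.c 12) (.c 1)))) (.add (.mul (.mul (.add (.mul (.r 2 393 744 2) (.q 0)) (.mul (.r 2 394 744 2) (.v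 0))) (.mul (.mul (.c 86) (.v 1)) (.add (.mul (.mul (.c 1048576) (.r 2 2 744 2)) (.w 1 2)) (.mul (.mul (.c 86) (.v 1)) (.add (.mul (.mul (.c 1024) (.r 2 3 744 2)) (.w 1 1)) (.mul (.mul (.c 86) (.v 1)) (.r 2 4 744 2))))))) (.sub (.c 0) (.mul (.c 12) (.c 1)))) (.add (.mul (.mul (.add (.mul (.r 2 395 744 2) (.q 0)) (.mul (.r 2 396 744 2) (.v 0))) (.mul (.mul (.c 86) (.v 1)) (.add (.mul (.mul (.c 1048576) (.r 2 2 744 2)) (.w 1 2)) (.mul (.mul (.c 86) (.v 1)) (.add (.mul (.mul (.c 1024) (.r 2 3 744 2)) (.w 1 1)) (.mul (.mul (.c 86) (.v 1)) (.r 2 4 744 2))))))) (.mul (.c 144) (.c 1))) (.add (.mul (.mul (.add (.mul (.r 2 401 744 2) (.q 0)) (.mul (.r 2 402 744 2) (.v 0))) (.mul (.mul (.c 86) (.v 1)) (.add (.mul (.mul (.c 1048576) (.r 2 2 744 2)) (.w 1 2)) (.mul (.mul (.c 86) (.v 1)) (.add (.mul (.mul (.c 1024) (.r 2 3 744 2)) (.w 1 1)) (.mul (.mul (.c 86) (.v 1)) (.r 2 4 744 2))))))) (.sub (.c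 0) (.mul (.c 12) (.c 1)))) (.add (.mul (.mul (.add (.mul (.r 2 403 744 2) (.q 0)) (.mul (.r 2 404 744 2) (.v 0))) (.mul (.mul (.c 86) (.v 1)) (.add (.mul (.mul (.c 1048576) (.r 2 2 744 2)) (.w 1 2)) (.mul (.mul (.c 86) (.v 1)) (.add (.mul (.mul (.c 1024) (.r 2 3 744 2)) (.w 1 1)) (.mul (.mul (.c 86) (.v 1)) (.r 2 4 744 2))))))) (.sub (.c 0) (.mul (.c 12) (.c 1)))) (.mul (.mul (.add (.mul (.r 2 405 744 2) (.q 0)) (.mul (.r 2 406 744 2) (.v 0))) (.mul (.mul (.c 86) (.v 1)) (.add (.mul (.mul (.c 1048576) (.r 2 2 744 2)) (.w 1 2)) (.mul (.mul (.c 86) (.v 1)) (.add (.mul (.mul (.c 1024) (.r 2 3 744 2)) (.w 1 1)) (.mul (.mul (.c 86) (.v 1)) (.r 2 4 744 2))))))) (.mul (.c 144) (.c 1))))))))) (.w 0 1)) (.w 2 1))), 132, 3, 4, 4, 1⟩,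
  ⟨(.sub (.sub (.mul (.mul (.mul (.c 0) (.w 0 3)) (.w 1 5)) (.w 2 3)) (.mul (.mul (.mul (.c 86) (.v 1)) (.add (.mul (.mul (.c 1048576) (.r 2 2 744 2)) (.w 1 2)) (.mul (.mul (.c 86) (.v 1)) (.add (.mul (.mul (.c 1024) (.r 2 3 744 2)) (.w 1 1)) (.mul (.mul (.c 86) (.v 1)) (.r 2 4 744 2)))))) (.mul (.add (.mul (.q 2) (.r 0 5 1 3)) (.mul (.v 2) (.r 0 749 1 3))) (.mul (.c 1) (.add (.mul (.mul (.add (.mul (.mul (.c 1024) (.s 2 93 744 2)) (.w 0 1)) (.mul (.mul (.c 171) (.v 0)) (.s 2 96 744 2))) (.mul (.c 86) (.v 1))) (.w 1 1)) (.mul (.mul (.s 2 95 744 2) (.mul (.mul (.c 86) (.v 1)) (.mul (.c 86) (.v 1)))) (.w 0 1))))))) (.mul (.mul (.mul (.c 33554432) (.add (.mul (.mul (.c 1024) (.mul (.mul (.add (.mul (.r 2 397 744 2) (.q 0)) (.mul (.r 2 398 744 2) (.v 0))) (.mul (.mul (.c 86) (.v 1)) (.add (.mul (.mul (.c 1048576) (.r 2 2 744 2)) (.w 1 2)) (.mul (.mul (.c 86) (.v 1)) (.add (.mul (.mul (.c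 1024) (.r 2 3 744 2)) (.w 1 1)) (.mul (.mul (.c 86) (.v 1)) (.r 2 4 744 2))))))) (.sub (.mul (.c 0) (.w 1 1)) (.mul (.c 12) (.mul (.c 86) (.v 1)))))) (.w 1 1)) (.add (.mul (.mul (.add (.mul (.r 2 401 744 2) (.q 0)) (.mul (.r 2 402 744 2) (.v 0))) (.mul (.mul (.c 86) (.v 1)) (.add (.mul (.mul (.c 1048576) (.r 2 2 744 2)) (.w 1 2)) (.mul (.mul (.c 86) (.v 1)) (.add (.mul (.mul (.c 1024) (.r 2 3 744 2)) (.w 1 1)) (.mul (.mul (.c 86) (.v 1)) (.r 2 4 744 2))))))) (.sub (.mul (.mul (.c 1024) (.mul (.c 86) (.v 1))) (.w 1 1)) (.mul (.c 12) (.mul (.mul (.c 86) (.v 1)) (.mul (.c 86) (.v 1)))))) (.add (.mul (.mul (.add (.mul (.r 2 403 744 2) (.q 0)) (.mul (.r 2 404 744 2) (.v 0))) (.mul (.mul (.c 86) (.v 1)) (.add (.mul (.mul (.c 1048576) (.r 2 2 744 2)) (.w 1 2)) (.mul (.mul (.c 86) (.v 1)) (.add (.mul (.mul (.c 1024) (.r 2 3 744 2)) (.w 1 1)) (.mul (.mul (.c 86) (.v 1)) (.r 2 4 744 2))))))) (.sub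 (.mul (.c 0) (.w 1 2)) (.mul (.c 12) (.mul (.mul (.c 86) (.v 1)) (.mul (.c 86) (.v 1)))))) (.add (.mul (.mul (.add (.mul (.r 2 405 744 2) (.q 0)) (.mul (.r 2 406 744 2) (.v 0))) (.mul (.mul (.c 86) (.v 1)) (.add (.mul (.mul (.c 1048576) (.r 2 2 744 2)) (.w 1 2)) (.mul (.mul (.c 86) (.v 1)) (.add (.mul (.mul (.c 1024) (.r 2 3 744 2)) (.w 1 1)) (.mul (.mul (.c 86) (.v 1)) (.r 2 4 744 2))))))) (.sub (.mul (.c 144) (.mul (.mul (.c 86) (.v 1)) (.mul (.c 86) (.v 1)))) (.mul (.mul (.c 1024) (.mul (.c 12) (.mul (.c 86) (.v 1)))) (.w 1 1)))) (.mul (.mul (.c 1048576) (.mul (.mul (.add (.mul (.r 2 407 744 2) (.q 0)) (.mul (.r 2 408 744 2) (.v 0))) (.mul (.mul (.c 86) (.v 1)) (.add (.mul (.mul (.c 1048576) (.r 2 2 744 2)) (.w 1 2)) (.mul (.mul (.c 86) (.v 1)) (.add (.mul (.mul (.c 1024) (.r 2 3 744 2)) (.w 1 1)) (.mul (.mul (.c 86) (.v 1)) (.r 2 4 744 2))))))) (.sub (.c 0) (.mul (.c 12) (.c 1)))))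 (.w 1 2))))))) (.w 0 2)) (.w 2 1))), 150, 4, 6, 4, 1⟩,
  ⟨(.sub (.mul (.sub (.mul (.mul (.mul (.c 16777216) (.add (.mul (.mul (.c 1024) (.mul (.s 2 67 744 2) (.add (.mul (.mul (.c 767) (.w 0 1)) (.w 1 1)) (.add (.mul (.mul (.c 171) (.q 0)) (.w 1 1)) (.mul (.mul (.c 86) (.q 1)) (.w 0 1)))))) (.w 0 1)) (.mul (.s 2 68 744 2) (.mul (.mul (.c 171) (.v 0)) (.add (.mul (.mul (.c 767) (.w 0 1)) (.w 1 1)) (.add (.mul (.mul (.c 171) (.q 0)) (.w 1 1)) (.mul (.mul (.c 86) (.q 1)) (.w 0 1)))))))) (.w 0 1)) (.w 2 1)) (.add (.mul (.c 1024) (.add (.mul (.mul (.mul (.c 16777216) (.mul (.s 2 139 744 2) (.add (.mul (.mul (.c 767) (.w 0 1)) (.w 1 1)) (.add (.mul (.mul (.c 171) (.q 0)) (.w 1 1)) (.mul (.mul (.c 86) (.q 1)) (.w 0 1)))))) (.w 0 2)) (.w 2 1)) (.mul (.sub (.add (.mul (.q 2) (.r 0 5 1 3)) (.mul (.v 2) (.r 0 749 1 3))) (.mul (.mul (.mul (.c 16777216) (.c 1)) (.w 0 2)) (.w 2 1))) (.mul (.s 2 143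 744 2) (.add (.mul (.mul (.c 767) (.w 0 1)) (.w 1 1)) (.add (.mul (.mul (.c 171) (.q 0)) (.w 1 1)) (.mul (.mul (.c 86) (.q 1)) (.w 0 1)))))))) (.mul (.add (.add (.mul (.r 2 47 744 2) (.add (.mul (.mul (.c 1024) (.mul (.s 2 55 744 2) (.add (.mul (.mul (.c 767) (.w 0 1)) (.w 1 1)) (.add (.mul (.mul (.c 171) (.q 0)) (.w 1 1)) (.mul (.mul (.c 86) (.q 1)) (.w 0 1)))))) (.w 0 1)) (.mul (.s 2 56 744 2) (.mul (.mul (.c 171) (.v 0)) (.add (.mul (.mul (.c 767) (.w 0 1)) (.w 1 1)) (.add (.mul (.mul (.c 171) (.q 0)) (.w 1 1)) (.mul (.mul (.c 86) (.q 1)) (.w 0 1)))))))) (.mul (.r 2 51 744 2) (.add (.mul (.mul (.c 1024) (.mul (.s 2 91 744 2) (.add (.mul (.mul (.c 767) (.w 0 1)) (.w 1 1)) (.add (.mul (.mul (.c 171) (.q 0)) (.w 1 1)) (.mul (.mul (.c 86) (.q 1)) (.w 0 1)))))) (.w 0 1)) (.mul (.s 2 92 744 2) (.mul (.mul (.c 171) (.v 0)) (.add (.mul (.mul (.c 767) (.w 0 1)) (.w 1 1)) (.add (.mul (.mul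 (.c 171) (.q 0)) (.w 1 1)) (.mul (.mul (.c 86) (.q 1)) (.w 0 1))))))))) (.add (.mul (.r 2 48 744 2) (.add (.mul (.mul (.c 1024) (.mul (.s 2 73 744 2) (.add (.mul (.mul (.c 767) (.w 0 1)) (.w 1 1)) (.add (.mul (.mul (.c 171) (.q 0)) (.w 1 1)) (.mul (.mul (.c 86) (.q 1)) (.w 0 1)))))) (.w 0 1)) (.mul (.s 2 74 744 2) (.mul (.mul (.c 171) (.v 0)) (.add (.mul (.mul (.c 767) (.w 0 1)) (.w 1 1)) (.add (.mul (.mul (.c 171) (.q 0)) (.w 1 1)) (.mul (.mul (.c 86) (.q 1)) (.w 0 1)))))))) (.mul (.r 2 52 744 2) (.add (.mul (.mul (.c 1024) (.mul (.s 2 109 744 2) (.add (.mul (.mul (.c 767) (.w 0 1)) (.w 1 1)) (.add (.mul (.mul (.c 171) (.q 0)) (.w 1 1)) (.mul (.mul (.c 86) (.q 1)) (.w 0 1)))))) (.w 0 1)) (.mul (.s 2 110 744 2) (.mul (.mul (.c 171) (.v 0)) (.add (.mul (.mul (.c 767) (.w 0 1)) (.w 1 1)) (.add (.mul (.mul (.c 171) (.q 0)) (.w 1 1)) (.mul (.mul (.c 86) (.q 1)) (.w 0 1)))))))))) (.w 0 1))))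 (.w 1 1)) (.mul (.mul (.mul (.c 16777216) (.add (.mul (.mul (.c 1024) (.mul (.add (.mul (.r 2 409 744 2) (.q 0)) (.mul (.r 2 410 744 2) (.v 0))) (.mul (.c 2) (.add (.mul (.mul (.c 767) (.w 0 1)) (.w 1 1)) (.add (.mul (.mul (.c 171) (.q 0)) (.w 1 1)) (.mul (.mul (.c 86) (.q 1)) (.w 0 1))))))) (.w 1 1)) (.add (.mul (.mul (.c 1024) (.mul (.add (.mul (.r 2 411 744 2) (.q 0)) (.mul (.r 2 412 744 2) (.v 0))) (.add (.mul (.mul (.c 767) (.w 0 1)) (.w 1 1)) (.add (.mul (.mul (.c 171) (.q 0)) (.w 1 1)) (.mul (.mul (.c 86) (.q 1)) (.w 0 1)))))) (.w 1 1)) (.add (.mul (.mul (.c 1024) (.mul (.add (.mul (.r 2 417 744 2) (.q 0)) (.mul (.r 2 418 744 2) (.v 0))) (.mul (.c 2) (.add (.mul (.mul (.c 767) (.w 0 1)) (.w 1 1)) (.add (.mul (.mul (.c 171) (.q 0)) (.w 1 1)) (.mul (.mul (.c 86) (.q 1)) (.w 0 1))))))) (.w 1 1)) (.add (.mul (.mul (.c 1024) (.mul (.add (.mul (.r 2 419 744 2) (.q 0)) (.mul (.r 2 420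 744 2) (.v 0))) (.mul (.c 2) (.add (.mul (.c 853) (.w 0 1)) (.mul (.c 171) (.q 0)))))) (.w 1 2)) (.add (.mul (.add (.mul (.r 2 421 744 2) (.q 0)) (.mul (.r 2 422 744 2) (.v 0))) (.sub (.mul (.mul (.c 1024) (.add (.mul (.c 853) (.w 0 1)) (.mul (.c 171) (.q 0)))) (.w 1 2)) (.mul (.mul (.c 12) (.mul (.mul (.c 86) (.v 1)) (.mul (.c 86) (.v 1)))) (.w 0 1)))) (.add (.mul (.mul (.add (.mul (.r 2 425 744 2) (.q 0)) (.mul (.r 2 426 744 2) (.v 0))) (.mul (.c 2) (.mul (.mul (.c 86) (.v 1)) (.mul (.c 86) (.v 1))))) (.w 0 1)) (.add (.mul (.add (.mul (.r 2 427 744 2) (.q 0)) (.mul (.r 2 428 744 2) (.v 0))) (.sub (.mul (.mul (.c 1024) (.mul (.c 2) (.add (.mul (.c 853) (.w 0 1)) (.mul (.c 171) (.q 0))))) (.w 1 2)) (.mul (.mul (.c 24) (.mul (.mul (.c 86) (.v 1)) (.mul (.c 86) (.v 1)))) (.w 0 1)))) (.mul (.mul (.mul (.c 1048576) (.mul (.add (.mul (.r 2 429 744 2) (.q 0)) (.mul (.r 2 430 744 2) (.v 0)))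 (.c 2))) (.w 0 1)) (.w 1 2)))))))))) (.w 0 1)) (.w 2 1))), 94, 4, 3, 3, 1⟩,
  ⟨(.sub (.sub (.mul (.mul (.mul (.c 16777216) (.mul (.add (.mul (.mul (.c 1024) (.s 2 69 744 2)) (.w 0 1)) (.mul (.mul (.c 171) (.v 0)) (.s 2 72 744 2))) (.c 1))) (.w 0 1)) (.w 2 1)) (.add (.mul (.c 1024) (.add (.mul (.mul (.mul (.c 16777216) (.mul (.s 2 140 744 2) (.c 1))) (.w 0 2)) (.w 2 1)) (.mul (.sub (.add (.mul (.q 2) (.r 0 5 1 3)) (.mul (.v 2) (.r 0 749 1 3))) (.mul (.mul (.mul (.c 16777216) (.c 1)) (.w 0 2)) (.w 2 1))) (.mul (.s 2 144 744 2) (.c 1))))) (.mul (.add (.add (.mul (.r 2 47 744 2) (.mul (.add (.mul (.mul (.c 1024) (.s 2 57 744 2)) (.w 0 1)) (.mul (.mul (.c 171) (.v 0)) (.s 2 60 744 2))) (.c 1))) (.mul (.r 2 51 744 2) (.mul (.add (.mul (.mul (.c 1024) (.s 2 93 744 2)) (.w 0 1)) (.mul (.mul (.c 171) (.v 0)) (.s 2 96 744 2))) (.c 1)))) (.add (.mul (.r 2 48 744 2) (.mul (.add (.mul (.mul (.c 1024)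 (.s 2 75 744 2)) (.w 0 1)) (.mul (.mul (.c 171) (.v 0)) (.s 2 78 744 2))) (.c 1))) (.mul (.r 2 52 744 2) (.mul (.add (.mul (.mul (.c 1024) (.s 2 111 744 2)) (.w 0 1)) (.mul (.mul (.c 171) (.v 0)) (.s 2 114 744 2))) (.c 1))))) (.w 0 1)))) (.mul (.mul (.mul (.c 17179869184) (.add (.mul (.add (.mul (.r 2 409 744 2) (.q 0)) (.mul (.r 2 410 744 2) (.v 0))) (.sub (.c 0) (.mul (.c 12) (.c 1)))) (.add (.mul (.add (.mul (.r 2 413 744 2) (.q 0)) (.mul (.r 2 414 744 2) (.v 0))) (.c 1)) (.add (.mul (.add (.mul (.r 2 417 744 2) (.q 0)) (.mul (.r 2 418 744 2) (.v 0))) (.sub (.c 0) (.mul (.c 12) (.c 1)))) (.add (.mul (.add (.mul (.r 2 419 744 2) (.q 0)) (.mul (.r 2 420 744 2) (.v 0))) (.sub (.c 0) (.mul (.c 12) (.c 1)))) (.add (.mul (.add (.mul (.r 2 423 744 2) (.q 0)) (.mul (.r 2 424 744 2) (.v 0))) (.c 1)) (.mul (.add (.mul (.r 2 427 744 2) (.q 0)) (.mul (.r 2 428 744 2) (.v 0))) (.sub (.c 0) (.mul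 (.c 12) (.c 1)))))))))) (.w 0 1)) (.w 2 1))), 81, 3, 1, 3, 1⟩,
  ⟨(.sub (.sub (.mul (.mul (.mul (.c 16777216) (.mul (.s 2 70 744 2) (.c 1))) (.w 0 2)) (.w 2 1)) (.add (.add (.mul (.mul (.mul (.c 16777216) (.mul (.s 2 141 744 2) (.c 1))) (.w 0 2)) (.w 2 1)) (.mul (.sub (.add (.mul (.q 2) (.r 0 5 1 3)) (.mul (.v 2) (.r 0 749 1 3))) (.mul (.mul (.mul (.c 16777216) (.c 1)) (.w 0 2)) (.w 2 1))) (.mul (.s 2 145 744 2) (.c 1)))) (.mul (.add (.add (.mul (.r 2 47 744 2) (.mul (.s 2 58 744 2) (.c 1))) (.mul (.r 2 51 744 2) (.mul (.s 2 94 744 2) (.c 1)))) (.add (.mul (.r 2 48 744 2) (.mul (.s 2 76 744 2) (.c 1))) (.mul (.r 2 52 744 2) (.mul (.s 2 112 744 2) (.c 1))))) (.w 0 2)))) (.mul (.mul (.mul (.c 16777216) (.add (.mul (.add (.mul (.r 2 411 744 2) (.q 0)) (.mul (.r 2 412 744 2) (.v 0))) (.sub (.c 0) (.mul (.c 12) (.c 1)))) (.add (.mul (.add (.mul (.r 2 415 744 2) (.q 0)) (.mul (.r 2 416 744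 2) (.v 0))) (.mul (.c 2) (.c 1))) (.add (.mul (.add (.mul (.r 2 417 744 2) (.q 0)) (.mul (.r 2 418 744 2) (.v 0))) (.sub (.c 0) (.mul (.c 24) (.c 1)))) (.add (.mul (.add (.mul (.r 2 421 744 2) (.q 0)) (.mul (.r 2 422 744 2) (.v 0))) (.sub (.c 0) (.mul (.c 12) (.c 1)))) (.add (.mul (.add (.mul (.r 2 425 744 2) (.q 0)) (.mul (.r 2 426 744 2) (.v 0))) (.mul (.c 2) (.c 1))) (.mul (.add (.mul (.r 2 427 744 2) (.q 0)) (.mul (.r 2 428 744 2) (.v 0))) (.sub (.c 0) (.mul (.c 24) (.c 1)))))))))) (.w 0 1)) (.w 2 1))), 71, 3, 1, 3, 1⟩,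
  ⟨(.sub (.sub (.mul (.mul (.mul (.c 16777216) (.mul (.s 2 71 744 2) (.c 1))) (.w 0 2)) (.w 2 1)) (.add (.add (.mul (.mul (.mul (.c 16777216) (.mul (.s 2 142 744 2) (.c 1))) (.w 0 2)) (.w 2 1)) (.mul (.sub (.add (.mul (.q 2) (.r 0 5 1 3)) (.mul (.v 2) (.r 0 749 1 3))) (.mul (.mul (.mul (.c 16777216) (.c 1)) (.w 0 2)) (.w 2 1))) (.mul (.s 2 146 744 2) (.c 1)))) (.mul (.add (.add (.mul (.r 2 47 744 2) (.mul (.s 2 59 744 2) (.c 1))) (.mul (.r 2 51 744 2) (.mul (.s 2 95 744 2) (.c 1)))) (.add (.mul (.r 2 48 744 2) (.mul (.s 2 77 744 2) (.c 1))) (.mul (.r 2 52 744 2) (.mul (.s 2 113 744 2) (.c 1))))) (.w 0 2)))) (.mul (.mul (.mul (.c 16777216) (.add (.mul (.add (.mul (.r 2 413 744 2) (.q 0)) (.mul (.r 2 414 744 2) (.v 0))) (.sub (.c 0) (.mul (.c 12) (.c 1)))) (.add (.mul (.add (.mul (.r 2 415 744 2) (.q 0)) (.mul (.r 2 416 744 2) (.v 0))) (.sub (.c 0) (.mul (.c 12) (.c 1)))) (.add (.mul (.add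 (.mul (.r 2 417 744 2) (.q 0)) (.mul (.r 2 418 744 2) (.v 0))) (.mul (.c 144) (.c 1))) (.add (.mul (.add (.mul (.r 2 423 744 2) (.q 0)) (.mul (.r 2 424 744 2) (.v 0))) (.sub (.c 0) (.mul (.c 12) (.c 1)))) (.add (.mul (.add (.mul (.r 2 425 744 2) (.q 0)) (.mul (.r 2 426 744 2) (.v 0))) (.sub (.c 0) (.mul (.c 12) (.c 1)))) (.mul (.add (.mul (.r 2 427 744 2) (.q 0)) (.mul (.r 2 428 744 2) (.v 0))) (.mul (.c 144) (.c 1))))))))) (.w 0 1)) (.w 2 1))), 71, 3, 1, 3, 1⟩,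
  ⟨(.sub (.mul (.mul (.mul (.c 0) (.w 0 1)) (.w 1 2)) (.w 2 1)) (.add (.mul (.mul (.c 1024) (.mul (.add (.mul (.r 2 419 744 2) (.q 0)) (.mul (.r 2 420 744 2) (.v 0))) (.sub (.mul (.c 0) (.w 1 1)) (.mul (.c 12) (.mul (.c 86) (.v 1)))))) (.w 1 1)) (.add (.mul (.add (.mul (.r 2 423 744 2) (.q 0)) (.mul (.r 2 424 744 2) (.v 0))) (.sub (.mul (.mul (.c 1024) (.mul (.c 86) (.v 1))) (.w 1 1)) (.mul (.c 12) (.mul (.mul (.c 86) (.v 1)) (.mul (.c 86) (.v 1)))))) (.add (.mul (.add (.mul (.r 2 425 744 2) (.q 0)) (.mul (.r 2 426 744 2) (.v 0))) (.sub (.mul (.c 0) (.w 1 2)) (.mul (.c 12) (.mul (.mul (.c 86) (.v 1)) (.mul (.c 86) (.v 1)))))) (.add (.mul (.add (.mul (.r 2 427 744 2) (.q 0)) (.mul (.r 2 428 744 2) (.v 0))) (.sub (.mul (.c 144) (.mul (.mul (.c 86) (.v 1)) (.mul (.c 86) (.v 1)))) (.mul (.mul (.c 1024) (.mul (.c 12) (.mul (.c 86) (.v 1)))) (.w 1 1)))) (.mul (.mul (.c 1048576) (.mul (.add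 (.mul (.r 2 429 744 2) (.q 0)) (.mul (.r 2 430 744 2) (.v 0))) (.sub (.c 0) (.mul (.c 12) (.c 1))))) (.w 1 2))))))), 60, 2, 3, 2, 1⟩,
  ⟨(.sub (.mul (.sub (.mul (.mul (.mul (.c 16777216) (.add (.mul (.mul (.c 1024) (.mul (.s 2 103 744 2) (.add (.mul (.mul (.c 767) (.w 0 1)) (.w 1 1)) (.add (.mul (.mul (.c 171) (.q 0)) (.w 1 1)) (.mul (.mul (.c 86) (.q 1)) (.w 0 1)))))) (.w 0 1)) (.mul (.s 2 104 744 2) (.mul (.mul (.c 171) (.v 0)) (.add (.mul (.mul (.c 767) (.w 0 1)) (.w 1 1)) (.add (.mul (.mul (.c 171) (.q 0)) (.w 1 1)) (.mul (.mul (.c 86) (.q 1)) (.w 0 1)))))))) (.w 0 1)) (.w 2 1)) (.add (.mul (.c 1024) (.add (.add (.mul (.mul (.mul (.c 16777216) (.mul (.s 2 147 744 2) (.add (.mul (.mul (.c 767) (.w 0 1)) (.w 1 1)) (.add (.mul (.mul (.c 171) (.q 0)) (.w 1 1)) (.mul (.mul (.c 86) (.q 1)) (.w 0 1)))))) (.w 0 2)) (.w 2 1)) (.mul (.add (.mul (.q 2) (.r 0 41 1 3)) (.mul (.v 2) (.r 0 785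 1 3))) (.mul (.s 2 151 744 2) (.add (.mul (.mul (.c 767) (.w 0 1)) (.w 1 1)) (.add (.mul (.mul (.c 171) (.q 0)) (.w 1 1)) (.mul (.mul (.c 86) (.q 1)) (.w 0 1))))))) (.mul (.sub (.add (.mul (.q 2) (.r 0 5 1 3)) (.mul (.v 2) (.r 0 749 1 3))) (.mul (.mul (.mul (.c 16777216) (.c 1)) (.w 0 2)) (.w 2 1))) (.mul (.s 2 155 744 2) (.add (.mul (.mul (.c 767) (.w 0 1)) (.w 1 1)) (.add (.mul (.mul (.c 171) (.q 0)) (.w 1 1)) (.mul (.mul (.c 86) (.q 1)) (.w 0 1)))))))) (.mul (.add (.add (.mul (.r 2 47 744 2) (.add (.mul (.mul (.c 1024) (.mul (.s 2 91 744 2) (.add (.mul (.mul (.c 767) (.w 0 1)) (.w 1 1)) (.add (.mul (.mul (.c 171) (.q 0)) (.w 1 1)) (.mul (.mul (.c 86) (.q 1)) (.w 0 1)))))) (.w 0 1)) (.mul (.s 2 92 744 2) (.mul (.mul (.c 171) (.v 0)) (.add (.mul (.mul (.c 767) (.w 0 1)) (.w 1 1)) (.add (.mul (.mul (.c 171) (.q 0)) (.w 1 1)) (.mul (.mul (.c 86) (.q 1)) (.w 0 1)))))))) (.mul (.r 2 51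 744 2) (.add (.mul (.mul (.c 1024) (.mul (.s 2 55 744 2) (.add (.mul (.mul (.c 767) (.w 0 1)) (.w 1 1)) (.add (.mul (.mul (.c 171) (.q 0)) (.w 1 1)) (.mul (.mul (.c 86) (.q 1)) (.w 0 1)))))) (.w 0 1)) (.mul (.s 2 56 744 2) (.mul (.mul (.c 171) (.v 0)) (.add (.mul (.mul (.c 767) (.w 0 1)) (.w 1 1)) (.add (.mul (.mul (.c 171) (.q 0)) (.w 1 1)) (.mul (.mul (.c 86) (.q 1)) (.w 0 1))))))))) (.add (.mul (.r 2 48 744 2) (.add (.mul (.mul (.c 1024) (.mul (.s 2 109 744 2) (.add (.mul (.mul (.c 767) (.w 0 1)) (.w 1 1)) (.add (.mul (.mul (.c 171) (.q 0)) (.w 1 1)) (.mul (.mul (.c 86) (.q 1)) (.w 0 1)))))) (.w 0 1)) (.mul (.s 2 110 744 2) (.mul (.mul (.c 171) (.v 0)) (.add (.mul (.mul (.c 767) (.w 0 1)) (.w 1 1)) (.add (.mul (.mul (.c 171) (.q 0)) (.w 1 1)) (.mul (.mul (.c 86) (.q 1)) (.w 0 1)))))))) (.mul (.r 2 52 744 2) (.add (.mul (.mul (.c 1024) (.mul (.s 2 73 744 2) (.add (.mul (.mul (.c 767)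 (.w 0 1)) (.w 1 1)) (.add (.mul (.mul (.c 171) (.q 0)) (.w 1 1)) (.mul (.mul (.c 86) (.q 1)) (.w 0 1)))))) (.w 0 1)) (.mul (.s 2 74 744 2) (.mul (.mul (.c 171) (.v 0)) (.add (.mul (.mul (.c 767) (.w 0 1)) (.w 1 1)) (.add (.mul (.mul (.c 171) (.q 0)) (.w 1 1)) (.mul (.mul (.c 86) (.q 1)) (.w 0 1)))))))))) (.w 0 1)))) (.w 1 1)) (.mul (.mul (.mul (.c 16777216) (.add (.mul (.mul (.c 1024) (.mul (.add (.mul (.r 2 431 744 2) (.q 0)) (.mul (.r 2 432 744 2) (.v 0))) (.mul (.c 2) (.add (.mul (.mul (.c 767) (.w 0 1)) (.w 1 1)) (.add (.mul (.mul (.c 171) (.q 0)) (.w 1 1)) (.mul (.mul (.c 86) (.q 1)) (.w 0 1))))))) (.w 1 1)) (.add (.mul (.mul (.c 1024) (.mul (.add (.mul (.r 2 433 744 2) (.q 0)) (.mul (.r 2 434 744 2) (.v 0))) (.add (.mul (.mul (.c 767) (.w 0 1)) (.w 1 1)) (.add (.mul (.mul (.c 171) (.q 0)) (.w 1 1)) (.mul (.mul (.c 86) (.q 1)) (.w 0 1)))))) (.w 1 1)) (.add (.mul (.mul (.c 1024)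 (.mul (.add (.mul (.r 2 439 744 2) (.q 0)) (.mul (.r 2 440 744 2) (.v 0))) (.mul (.c 2) (.add (.mul (.mul (.c 767) (.w 0 1)) (.w 1 1)) (.add (.mul (.mul (.c 171) (.q 0)) (.w 1 1)) (.mul (.mul (.c 86) (.q 1)) (.w 0 1))))))) (.w 1 1)) (.add (.mul (.mul (.c 1024) (.mul (.add (.mul (.r 2 441 744 2) (.q 0)) (.mul (.r 2 442 744 2) (.v 0))) (.mul (.c 2) (.add (.mul (.c 853) (.w 0 1)) (.mul (.c 171) (.q 0)))))) (.w 1 2)) (.add (.mul (.add (.mul (.r 2 443 744 2) (.q 0)) (.mul (.r 2 444 744 2) (.v 0))) (.sub (.mul (.mul (.c 1024) (.add (.mul (.c 853) (.w 0 1)) (.mul (.c 171) (.q 0)))) (.w 1 2)) (.mul (.mul (.c 12) (.mul (.mul (.c 86) (.v 1)) (.mul (.c 86) (.v 1)))) (.w 0 1)))) (.add (.mul (.mul (.add (.mul (.r 2 447 744 2) (.q 0)) (.mul (.r 2 448 744 2) (.v 0))) (.mul (.c 2) (.mul (.mul (.c 86) (.v 1)) (.mul (.c 86) (.v 1))))) (.w 0 1)) (.add (.mul (.add (.mul (.r 2 449 744 2) (.q 0)) (.mul (.r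 2 450 744 2) (.v 0))) (.sub (.mul (.mul (.c 1024) (.mul (.c 2) (.add (.mul (.c 853) (.w 0 1)) (.mul (.c 171) (.q 0))))) (.w 1 2)) (.mul (.mul (.c 24) (.mul (.mul (.c 86) (.v 1)) (.mul (.c 86) (.v 1)))) (.w 0 1)))) (.mul (.mul (.mul (.c 1048576) (.mul (.add (.mul (.r 2 451 744 2) (.q 0)) (.mul (.r 2 452 744 2) (.v 0))) (.c 2))) (.w 0 1)) (.w 1 2)))))))))) (.w 0 1)) (.w 2 1))), 94, 4, 3, 3, 1⟩,
  ⟨(.sub (.sub (.mul (.mul (.mul (.c 16777216) (.mul (.add (.mul (.mul (.c 1024) (.s 2 105 744 2)) (.w 0 1)) (.mul (.mul (.c 171) (.v 0)) (.s 2 108 744 2))) (.c 1))) (.w 0 1)) (.w 2 1)) (.add (.mul (.c 1024) (.add (.add (.mul (.mul (.mul (.c 16777216) (.mul (.s 2 148 744 2) (.c 1))) (.w 0 2)) (.w 2 1)) (.mul (.add (.mul (.q 2) (.r 0 41 1 3)) (.mul (.v 2) (.r 0 785 1 3))) (.mul (.s 2 152 744 2) (.c 1)))) (.mul (.sub (.add (.mul (.q 2) (.r 0 5 1 3)) (.mul (.v 2) (.r 0 749 1 3))) (.mul (.mul (.mul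 (.c 16777216) (.c 1)) (.w 0 2)) (.w 2 1))) (.mul (.s 2 156 744 2) (.c 1))))) (.mul (.add (.add (.mul (.r 2 47 744 2) (.mul (.add (.mul (.mul (.c 1024) (.s 2 93 744 2)) (.w 0 1)) (.mul (.mul (.c 171) (.v 0)) (.s 2 96 744 2))) (.c 1))) (.mul (.r 2 51 744 2) (.mul (.add (.mul (.mul (.c 1024) (.s 2 57 744 2)) (.w 0 1)) (.mul (.mul (.c 171) (.v 0)) (.s 2 60 744 2))) (.c 1)))) (.add (.mul (.r 2 48 744 2) (.mul (.add (.mul (.mul (.c 1024) (.s 2 111 744 2)) (.w 0 1)) (.mul (.mul (.c 171) (.v 0)) (.s 2 114 744 2))) (.c 1))) (.mul (.r 2 52 744 2) (.mul (.add (.mul (.mul (.c 1024) (.s 2 75 744 2)) (.w 0 1)) (.mul (.mul (.c 171) (.v 0)) (.s 2 78 744 2))) (.c 1))))) (.w 0 1)))) (.mul (.mul (.mul (.c 17179869184) (.add (.mul (.add (.mul (.r 2 431 744 2) (.q 0)) (.mul (.r 2 432 744 2) (.v 0))) (.sub (.c 0) (.mul (.c 12) (.c 1)))) (.add (.mul (.add (.mul (.r 2 435 744 2) (.q 0)) (.mul (.r 2 436 744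 2) (.v 0))) (.c 1)) (.add (.mul (.add (.mul (.r 2 439 744 2) (.q 0)) (.mul (.r 2 440 744 2) (.v 0))) (.sub (.c 0) (.mul (.c 12) (.c 1)))) (.add (.mul (.add (.mul (.r 2 441 744 2) (.q 0)) (.mul (.r 2 442 744 2) (.v 0))) (.sub (.c 0) (.mul (.c 12) (.c 1)))) (.add (.mul (.add (.mul (.r 2 445 744 2) (.q 0)) (.mul (.r 2 446 744 2) (.v 0))) (.c 1)) (.mul (.add (.mul (.r 2 449 744 2) (.q 0)) (.mul (.r 2 450 744 2) (.v 0))) (.sub (.c 0) (.mul (.c 12) (.c 1)))))))))) (.w 0 1)) (.w 2 1))), 81, 3, 1, 3, 1⟩,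
  ⟨(.sub (.sub (.mul (.mul (.mul (.c 16777216) (.mul (.s 2 106 744 2) (.c 1))) (.w 0 2)) (.w 2 1)) (.add (.add (.add (.mul (.mul (.mul (.c 16777216) (.mul (.s 2 149 744 2) (.c 1))) (.w 0 2)) (.w 2 1)) (.mul (.add (.mul (.q 2) (.r 0 41 1 3)) (.mul (.v 2) (.r 0 785 1 3))) (.mul (.s 2 153 744 2) (.c 1)))) (.mul (.sub (.add (.mul (.q 2) (.r 0 5 1 3)) (.mul (.v 2) (.r 0 749 1 3))) (.mul (.mul (.mul (.c 16777216) (.c 1)) (.w 0 2)) (.w 2 1))) (.mul (.s 2 157 744 2) (.c 1)))) (.mul (.add (.add (.mul (.r 2 47 744 2) (.mul (.s 2 94 744 2) (.c 1))) (.mul (.r 2 51 744 2) (.mul (.s 2 58 744 2) (.c 1)))) (.add (.mul (.r 2 48 744 2) (.mul (.s 2 112 744 2) (.c 1))) (.mul (.r 2 52 744 2) (.mul (.s 2 76 744 2) (.c 1))))) (.w 0 2)))) (.mul (.mul (.mul (.c 16777216) (.add (.mul (.add (.mul (.r 2 433 744 2) (.q 0)) (.mul (.r 2 434 744 2) (.v 0))) (.sub (.c 0) (.mul (.c 12) (.c 1)))) (.add (.mul (.add (.mul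 (.r 2 437 744 2) (.q 0)) (.mul (.r 2 438 744 2) (.v 0))) (.mul (.c 2) (.c 1))) (.add (.mul (.add (.mul (.r 2 439 744 2) (.q 0)) (.mul (.r 2 440 744 2) (.v 0))) (.sub (.c 0) (.mul (.c 24) (.c 1)))) (.add (.mul (.add (.mul (.r 2 443 744 2) (.q 0)) (.mul (.r 2 444 744 2) (.v 0))) (.sub (.c 0) (.mul (.c 12) (.c 1)))) (.add (.mul (.add (.mul (.r 2 447 744 2) (.q 0)) (.mul (.r 2 448 744 2) (.v 0))) (.mul (.c 2) (.c 1))) (.mul (.add (.mul (.r 2 449 744 2) (.q 0)) (.mul (.r 2 450 744 2) (.v 0))) (.sub (.c 0) (.mul (.c 24) (.c 1)))))))))) (.w 0 1)) (.w 2 1))), 71, 3, 1, 3, 1⟩,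
  ⟨(.sub (.sub (.mul (.mul (.mul (.c 16777216) (.mul (.s 2 107 744 2) (.c 1))) (.w 0 2)) (.w 2 1)) (.add (.add (.add (.mul (.mul (.mul (.c 16777216) (.mul (.s 2 150 744 2) (.c 1))) (.w 0 2)) (.w 2 1)) (.mul (.add (.mul (.q 2) (.r 0 41 1 3)) (.mul (.v 2) (.r 0 785 1 3))) (.mul (.s 2 154 744 2) (.c 1)))) (.mul (.sub (.add (.mul (.q 2) (.r 0 5 1 3)) (.mul (.v 2) (.r 0 749 1 3))) (.mul (.mul (.mul (.c 16777216) (.c 1)) (.w 0 2)) (.w 2 1))) (.mul (.s 2 158 744 2) (.c 1)))) (.mul (.add (.add (.mul (.r 2 47 744 2) (.mul (.s 2 95 744 2) (.c 1))) (.mul (.r 2 51 744 2) (.mul (.s 2 59 744 2) (.c 1)))) (.add (.mul (.r 2 48 744 2) (.mul (.s 2 113 744 2) (.c 1))) (.mul (.r 2 52 744 2) (.mul (.s 2 77 744 2) (.c 1))))) (.w 0 2)))) (.mul (.mul (.mul (.c 16777216) (.add (.mul (.add (.mul (.r 2 435 744 2) (.q 0)) (.mul (.r 2 436 744 2) (.v 0))) (.sub (.c 0) (.mul (.c 12) (.c 1)))) (.add (.mul (.add (.mul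 (.r 2 437 744 2) (.q 0)) (.mul (.r 2 438 744 2) (.v 0))) (.sub (.c 0) (.mul (.c 12) (.c 1)))) (.add (.mul (.add (.mul (.r 2 439 744 2) (.q 0)) (.mul (.r 2 440 744 2) (.v 0))) (.mul (.c 144) (.c 1))) (.add (.mul (.add (.mul (.r 2 445 744 2) (.q 0)) (.mul (.r 2 446 744 2) (.v 0))) (.sub (.c 0) (.mul (.c 12) (.c 1)))) (.add (.mul (.add (.mul (.r 2 447 744 2) (.q 0)) (.mul (.r 2 448 744 2) (.v 0))) (.sub (.c 0) (.mul (.c 12) (.c 1)))) (.mul (.add (.mul (.r 2 449 744 2) (.q 0)) (.mul (.r 2 450 744 2) (.v 0))) (.mul (.c 144) (.c 1))))))))) (.w 0 1)) (.w 2 1))), 71, 3, 1, 3, 1⟩,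
  ⟨(.sub (.mul (.mul (.mul (.c 0) (.w 0 1)) (.w 1 2)) (.w 2 1)) (.add (.mul (.mul (.c 1024) (.mul (.add (.mul (.r 2 441 744 2) (.q 0)) (.mul (.r 2 442 744 2) (.v 0))) (.sub (.mul (.c 0) (.w 1 1)) (.mul (.c 12) (.mul (.c 86) (.v 1)))))) (.w 1 1)) (.add (.mul (.add (.mul (.r 2 445 744 2) (.q 0)) (.mul (.r 2 446 744 2) (.v 0))) (.sub (.mul (.mul (.c 1024) (.mul (.c 86) (.v 1))) (.w 1 1)) (.mul (.c 12) (.mul (.mul (.c 86) (.v 1)) (.mul (.c 86) (.v 1)))))) (.add (.mul (.add (.mul (.r 2 447 744 2) (.q 0)) (.mul (.r 2 448 744 2) (.v 0))) (.sub (.mul (.c 0) (.w 1 2)) (.mul (.c 12) (.mul (.mul (.c 86) (.v 1)) (.mul (.c 86) (.v 1)))))) (.add (.mul (.add (.mul (.r 2 449 744 2) (.q 0)) (.mul (.r 2 450 744 2) (.v 0))) (.sub (.mul (.c 144) (.mul (.mul (.c 86) (.v 1)) (.mul (.c 86) (.v 1)))) (.mul (.mul (.c 1024) (.mul (.c 12) (.mul (.c 86) (.v 1)))) (.w 1 1)))) (.mul (.mul (.c 1048576) (.mul (.add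 (.mul (.r 2 451 744 2) (.q 0)) (.mul (.r 2 452 744 2) (.v 0))) (.sub (.c 0) (.mul (.c 12) (.c 1))))) (.w 1 2))))))), 60, 2, 3, 2, 1⟩,
  ⟨(.sub (.add (.mul (.mul (.c 1024) (.mul (.s 2 67 744 2) (.add (.mul (.mul (.c 767) (.w 0 1)) (.w 1 1)) (.add (.mul (.mul (.c 171) (.q 0)) (.w 1 1)) (.mul (.mul (.c 86) (.q 1)) (.w 0 1)))))) (.w 0 1)) (.mul (.s 2 68 744 2) (.mul (.mul (.c 171) (.v 0)) (.add (.mul (.mul (.c 767) (.w 0 1)) (.w 1 1)) (.add (.mul (.mul (.c 171) (.q 0)) (.w 1 1)) (.mul (.mul (.c 86) (.q 1)) (.w 0 1))))))) (.mul (.mul (.c 1024) (.add (.mul (.r 2 453 744 2) (.mul (.c 2) (.add (.mul (.mul (.c 767) (.w 0 1)) (.w 1 1)) (.add (.mul (.mul (.c 171) (.q 0)) (.w 1 1)) (.mul (.mul (.c 86) (.q 1)) (.w 0 1)))))) (.add (.mul (.r 2 454 744 2) (.add (.mul (.mul (.c 767) (.w 0 1)) (.w 1 1)) (.add (.mul (.mul (.c 171) (.q 0)) (.w 1 1)) (.mul (.mul (.c 86) (.q 1)) (.w 0 1))))) (.mul (.r 2 457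 744 2) (.mul (.c 2) (.add (.mul (.mul (.c 767) (.w 0 1)) (.w 1 1)) (.add (.mul (.mul (.c 171) (.q 0)) (.w 1 1)) (.mul (.mul (.c 86) (.q 1)) (.w 0 1))))))))) (.w 0 1))), 59, 3, 2, 2, 1⟩,
  ⟨(.sub (.mul (.add (.mul (.mul (.c 1024) (.s 2 69 744 2)) (.w 0 1)) (.mul (.mul (.c 171) (.v 0)) (.s 2 72 744 2))) (.c 1)) (.mul (.mul (.c 1024) (.add (.mul (.r 2 453 744 2) (.sub (.c 0) (.mul (.c 12) (.c 1)))) (.add (.mul (.r 2 455 744 2) (.c 1)) (.mul (.r 2 457 744 2) (.sub (.c 0) (.mul (.c 12) (.c 1))))))) (.w 0 1))), 49, 2, 1, 2, 1⟩,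
  ⟨(.sub (.mul (.s 2 70 744 2) (.c 1)) (.add (.mul (.r 2 454 744 2) (.sub (.c 0) (.mul (.c 12) (.c 1)))) (.add (.mul (.r 2 456 744 2) (.mul (.c 2) (.c 1))) (.mul (.r 2 457 744 2) (.sub (.c 0) (.mul (.c 24) (.c 1))))))), 39, 1, 1, 2, 1⟩,
  ⟨(.sub (.mul (.s 2 71 744 2) (.c 1)) (.add (.mul (.r 2 455 744 2) (.sub (.c 0) (.mul (.c 12) (.c 1)))) (.add (.mul (.r 2 456 744 2) (.sub (.c 0) (.mul (.c 12) (.c 1)))) (.mul (.r 2 457 744 2) (.mul (.c 144) (.c 1)))))), 41, 1, 1, 2, 1⟩,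
  ⟨(.sub (.add (.mul (.mul (.c 1024) (.mul (.s 2 103 744 2) (.add (.mul (.mul (.c 767) (.w 0 1)) (.w 1 1)) (.add (.mul (.mul (.c 171) (.q 0)) (.w 1 1)) (.mul (.mul (.c 86) (.q 1)) (.w 0 1)))))) (.w 0 1)) (.mul (.s 2 104 744 2) (.mul (.mul (.c 171) (.v 0)) (.add (.mul (.mul (.c 767) (.w 0 1)) (.w 1 1)) (.add (.mul (.mul (.c 171) (.q 0)) (.w 1 1)) (.mul (.mul (.c 86) (.q 1)) (.w 0 1))))))) (.mul (.mul (.c 1024) (.add (.mul (.r 2 458 744 2) (.mul (.c 2) (.add (.mul (.mul (.c 767) (.w 0 1)) (.w 1 1)) (.add (.mul (.mul (.c 171) (.q 0)) (.w 1 1)) (.mul (.mul (.c 86) (.q 1)) (.w 0 1)))))) (.add (.mul (.r 2 459 744 2) (.add (.mul (.mul (.c 767) (.w 0 1)) (.w 1 1)) (.add (.mul (.mul (.c 171) (.q 0)) (.w 1 1)) (.mul (.mul (.c 86) (.q 1)) (.w 0 1))))) (.mul (.r 2 462 744 2) (.mul (.c 2) (.add (.mul (.mul (.c 767) (.w 0 1)) (.w 1 1)) (.add (.mul (.mul (.c 171) (.q 0)) (.w 1 1)) (.mul (.mul (.c 86)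 (.q 1)) (.w 0 1))))))))) (.w 0 1))), 59, 3, 2, 2, 1⟩,
  ⟨(.sub (.mul (.add (.mul (.mul (.c 1024) (.s 2 105 744 2)) (.w 0 1)) (.mul (.mul (.c 171) (.v 0)) (.s 2 108 744 2))) (.c 1)) (.mul (.mul (.c 1024) (.add (.mul (.r 2 458 744 2) (.sub (.c 0) (.mul (.c 12) (.c 1)))) (.add (.mul (.r 2 460 744 2) (.c 1)) (.mul (.r 2 462 744 2) (.sub (.c 0) (.mul (.c 12) (.c 1))))))) (.w 0 1))), 49, 2, 1, 2, 1⟩,
  ⟨(.sub (.mul (.s 2 106 744 2) (.c 1)) (.add (.mul (.r 2 459 744 2) (.sub (.c 0) (.mul (.c 12) (.c 1)))) (.add (.mul (.r 2 461 744 2) (.mul (.c 2) (.c 1))) (.mul (.r 2 462 744 2) (.sub (.c 0) (.mul (.c 24) (.c 1))))))), 39, 1, 1, 2, 1⟩,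
  ⟨(.sub (.mul (.s 2 107 744 2) (.c 1)) (.add (.mul (.r 2 460 744 2) (.sub (.c 0) (.mul (.c 12) (.c 1)))) (.add (.mul (.r 2 461 744 2) (.sub (.c 0) (.mul (.c 12) (.c 1)))) (.mul (.r 2 462 744 2) (.mul (.c 144) (.c 1)))))), 41, 1, 1, 2, 1⟩,
  ⟨(.sub (.add (.mul (.mul (.c 1024) (.mul (.s 2 55 744 2) (.add (.mul (.mul (.c 767) (.w 0 1)) (.w 1 1)) (.add (.mul (.mul (.c 171) (.q 0)) (.w 1 1)) (.mul (.mul (.c 86) (.q 1)) (.w 0 1)))))) (.w 0 1)) (.mul (.s 2 56 744 2) (.mul (.mul (.c 171) (.v 0)) (.add (.mul (.mul (.c 767) (.w 0 1)) (.w 1 1)) (.add (.mul (.mul (.c 171) (.q 0)) (.w 1 1)) (.mul (.mul (.c 86) (.q 1)) (.w 0 1))))))) (.mul (.mul (.c 1024) (.add (.mul (.r 2 463 744 2) (.mul (.c 2) (.add (.mul (.mul (.c 767) (.w 0 1)) (.w 1 1)) (.add (.mul (.mul (.c 171) (.q 0)) (.w 1 1)) (.mul (.mul (.c 86) (.q 1)) (.w 0 1)))))) (.add (.mul (.r 2 464 744 2) (.add (.mul (.mul (.c 767) (.w 0 1)) (.w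 1 1)) (.add (.mul (.mul (.c 171) (.q 0)) (.w 1 1)) (.mul (.mul (.c 86) (.q 1)) (.w 0 1))))) (.mul (.r 2 467 744 2) (.mul (.c 2) (.add (.mul (.mul (.c 767) (.w 0 1)) (.w 1 1)) (.add (.mul (.mul (.c 171) (.q 0)) (.w 1 1)) (.mul (.mul (.c 86) (.q 1)) (.w 0 1))))))))) (.w 0 1))), 59, 3, 2, 2, 1⟩,
  ⟨(.sub (.mul (.add (.mul (.mul (.c 1024) (.s 2 57 744 2)) (.w 0 1)) (.mul (.mul (.c 171) (.v 0)) (.s 2 60 744 2))) (.c 1)) (.mul (.mul (.c 1024) (.add (.mul (.r 2 463 744 2) (.sub (.c 0) (.mul (.c 12) (.c 1)))) (.add (.mul (.r 2 465 744 2) (.c 1)) (.mul (.r 2 467 744 2) (.sub (.c 0) (.mul (.c 12) (.c 1))))))) (.w 0 1))), 49, 2, 1, 2, 1⟩,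
  ⟨(.sub (.mul (.s 2 58 744 2) (.c 1)) (.add (.mul (.r 2 464 744 2) (.sub (.c 0) (.mul (.c 12) (.c 1)))) (.add (.mul (.r 2 466 744 2) (.mul (.c 2) (.c 1))) (.mul (.r 2 467 744 2) (.sub (.c 0) (.mul (.c 24) (.c 1))))))), 39, 1, 1, 2, 1⟩,
  ⟨(.sub (.mul (.s 2 59 744 2) (.c 1)) (.add (.mul (.r 2 465 744 2) (.sub (.c 0) (.mul (.c 12) (.c 1)))) (.add (.mul (.r 2 466 744 2) (.sub (.c 0) (.mul (.c 12) (.c 1)))) (.mul (.r 2 467 744 2) (.mul (.c 144) (.c 1)))))), 41, 1, 1, 2, 1⟩,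
  ⟨(.sub (.add (.mul (.mul (.c 1024) (.mul (.s 2 91 744 2) (.add (.mul (.mul (.c 767) (.w 0 1)) (.w 1 1)) (.add (.mul (.mul (.c 171) (.q 0)) (.w 1 1)) (.mul (.mul (.c 86) (.q 1)) (.w 0 1)))))) (.w 0 1)) (.mul (.s 2 92 744 2) (.mul (.mul (.c 171) (.v 0)) (.add (.mul (.mul (.c 767) (.w 0 1)) (.w 1 1)) (.add (.mul (.mul (.c 171) (.q 0)) (.w 1 1)) (.mul (.mul (.c 86) (.q 1)) (.w 0 1))))))) (.mul (.mul (.c 1024) (.add (.mul (.r 2 468 744 2) (.mul (.c 2) (.add (.mul (.mul (.c 767) (.w 0 1)) (.w 1 1)) (.add (.mul (.mul (.c 171) (.q 0)) (.w 1 1)) (.mul (.mul (.c 86) (.q 1)) (.w 0 1)))))) (.add (.mul (.r 2 469 744 2) (.add (.mul (.mul (.c 767) (.w 0 1)) (.w 1 1)) (.add (.mul (.mul (.c 171) (.q 0)) (.w 1 1)) (.mul (.mul (.c 86) (.q 1)) (.w 0 1))))) (.mul (.r 2 472 744 2) (.mul (.c 2) (.add (.mul (.mul (.c 767) (.w 0 1)) (.w 1 1)) (.add (.mul (.mul (.c 171) (.q 0)) (.w 1 1)) (.mul (.mul (.c 86)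 (.q 1)) (.w 0 1))))))))) (.w 0 1))), 59, 3, 2, 2, 1⟩,
  ⟨(.sub (.mul (.add (.mul (.mul (.c 1024) (.s 2 93 744 2)) (.w 0 1)) (.mul (.mul (.c 171) (.v 0)) (.s 2 96 744 2))) (.c 1)) (.mul (.mul (.c 1024) (.add (.mul (.r 2 468 744 2) (.sub (.c 0) (.mul (.c 12) (.c 1)))) (.add (.mul (.r 2 470 744 2) (.c 1)) (.mul (.r 2 472 744 2) (.sub (.c 0) (.mul (.c 12) (.c 1))))))) (.w 0 1))), 49, 2, 1, 2, 1⟩,
  ⟨(.sub (.mul (.s 2 94 744 2) (.c 1)) (.add (.mul (.r 2 469 744 2) (.sub (.c 0) (.mul (.c 12) (.c 1)))) (.add (.mul (.r 2 471 744 2) (.mul (.c 2) (.c 1))) (.mul (.r 2 472 744 2) (.sub (.c 0) (.mul (.c 24) (.c 1))))))), 39, 1, 1, 2, 1⟩,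
  ⟨(.sub (.mul (.s 2 95 744 2) (.c 1)) (.add (.mul (.r 2 470 744 2) (.sub (.c 0) (.mul (.c 12) (.c 1)))) (.add (.mul (.r 2 471 744 2) (.sub (.c 0) (.mul (.c 12) (.c 1)))) (.mul (.r 2 472 744 2) (.mul (.c 144) (.c 1)))))), 41, 1, 1, 2, 1⟩,
  ⟨(.sub (.mul (.sub (.mul (.mul (.mul (.mul (.c 295147905179352825856) (.mul (.mul (.c 86) (.v 1)) (.add (.mul (.c 1024) (.add (.mul (.add (.mul (.mul (.c 1024) (.s 2 167 744 2)) (.w 0 1)) (.mul (.s 2 168 744 2) (.mul (.c 171) (.v 0)))) (.w 1 1)) (.mul (.mul (.s 2 169 744 2) (.mul (.c 86) (.v 1))) (.w 0 1)))) (.mul (.s 2 170 744 2) (.mul (.mul (.c 86) (.v 1)) (.mul (.c 171) (.v 0))))))) (.w 0 3)) (.w 1 2)) (.w 2 2)) (.mul (.mul (.mul (.c 86) (.v 1)) (.add (.mul (.mul (.c 1048576) (.r 2 2 744 2)) (.w 1 2)) (.mul (.mul (.c 86) (.v 1)) (.add (.mul (.mul (.c 1024) (.r 2 3 744 2)) (.w 1 1)) (.mul (.mul (.c 86) (.v 1)) (.r 2 4 744 2)))))) (.add (.mul (.mul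 (.mul (.mul (.c 17592186044416) (.mul (.sub (.add (.mul (.q 2) (.r 0 5 1 3)) (.mul (.v 2) (.r 0 749 1 3))) (.mul (.mul (.mul (.c 16777216) (.c 1)) (.w 0 2)) (.w 2 1))) (.u 0 [1]))) (.w 0 2)) (.w 1 1)) (.w 2 1)) (.mul (.add (.mul (.q 2) (.r 0 5 1 3)) (.mul (.v 2) (.r 0 749 1 3))) (.add (.mul (.mul (.c 1024) (.mul (.s 2 109 744 2) (.add (.mul (.mul (.c 767) (.w 0 1)) (.w 1 1)) (.add (.mul (.mul (.c 171) (.q 0)) (.w 1 1)) (.mul (.mul (.c 86) (.q 1)) (.w 0 1)))))) (.w 0 1)) (.mul (.s 2 110 744 2) (.mul (.mul (.c 171) (.v 0)) (.add (.mul (.mul (.c 767) (.w 0 1)) (.w 1 1)) (.add (.mul (.mul (.c 171) (.q 0)) (.w 1 1)) (.mul (.mul (.c 86) (.q 1)) (.w 0 1))))))))))) (.w 1 1)) (.mul (.mul (.mul (.c 16777216) (.add (.mul (.mul (.c 1024) (.mul (.mul (.add (.mul (.r 2 473 744 2) (.q 0)) (.mul (.r 2 474 744 2) (.v 0))) (.mul (.mul (.c 86) (.v 1)) (.add (.mul (.mul (.c 1048576) (.r 2 2 744 2)) (.w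 1 2)) (.mul (.mul (.c 86) (.v 1)) (.add (.mul (.mul (.c 1024) (.r 2 3 744 2)) (.w 1 1)) (.mul (.mul (.c 86) (.v 1)) (.r 2 4 744 2))))))) (.mul (.c 2) (.add (.mul (.mul (.c 767) (.w 0 1)) (.w 1 1)) (.add (.mul (.mul (.c 171) (.q 0)) (.w 1 1)) (.mul (.mul (.c 86) (.q 1)) (.w 0 1))))))) (.w 1 1)) (.add (.mul (.mul (.c 1024) (.mul (.mul (.add (.mul (.r 2 475 744 2) (.q 0)) (.mul (.r 2 476 744 2) (.v 0))) (.mul (.mul (.c 86) (.v 1)) (.add (.mul (.mul (.c 1048576) (.r 2 2 744 2)) (.w 1 2)) (.mul (.mul (.c 86) (.v 1)) (.add (.mul (.mul (.c 1024) (.r 2 3 744 2)) (.w 1 1)) (.mul (.mul (.c 86) (.v 1)) (.r 2 4 744 2))))))) (.add (.mul (.mul (.c 767) (.w 0 1)) (.w 1 1)) (.add (.mul (.mul (.c 171) (.q 0)) (.w 1 1)) (.mul (.mul (.c 86) (.q 1)) (.w 0 1)))))) (.w 1 1)) (.add (.mul (.mul (.c 1024) (.mul (.mul (.add (.mul (.r 2 481 744 2) (.q 0)) (.mul (.r 2 482 744 2) (.v 0))) (.mul (.mul (.c 86) (.v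 1)) (.add (.mul (.mul (.c 1048576) (.r 2 2 744 2)) (.w 1 2)) (.mul (.mul (.c 86) (.v 1)) (.add (.mul (.mul (.c 1024) (.r 2 3 744 2)) (.w 1 1)) (.mul (.mul (.c 86) (.v 1)) (.r 2 4 744 2))))))) (.mul (.c 2) (.add (.mul (.mul (.c 767) (.w 0 1)) (.w 1 1)) (.add (.mul (.mul (.c 171) (.q 0)) (.w 1 1)) (.mul (.mul (.c 86) (.q 1)) (.w 0 1))))))) (.w 1 1)) (.add (.mul (.mul (.c 1024) (.mul (.mul (.add (.mul (.r 2 483 744 2) (.q 0)) (.mul (.r 2 484 744 2) (.v 0))) (.mul (.mul (.c 86) (.v 1)) (.add (.mul (.mul (.c 1048576) (.r 2 2 744 2)) (.w 1 2)) (.mul (.mul (.c 86) (.v 1)) (.add (.mul (.mul (.c 1024) (.r 2 3 744 2)) (.w 1 1)) (.mul (.mul (.c 86) (.v 1)) (.r 2 4 744 2))))))) (.mul (.c 2) (.add (.mul (.c 853) (.w 0 1)) (.mul (.c 171) (.q 0)))))) (.w 1 2)) (.add (.mul (.mul (.add (.mul (.r 2 485 744 2) (.q 0)) (.mul (.r 2 486 744 2) (.v 0))) (.mul (.mul (.c 86) (.v 1)) (.add (.mul (.mul (.c 1048576)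 (.r 2 2 744 2)) (.w 1 2)) (.mul (.mul (.c 86) (.v 1)) (.add (.mul (.mul (.c 1024) (.r 2 3 744 2)) (.w 1 1)) (.mul (.mul (.c 86) (.v 1)) (.r 2 4 744 2))))))) (.sub (.mul (.mul (.c 1024) (.add (.mul (.c 853) (.w 0 1)) (.mul (.c 171) (.q 0)))) (.w 1 2)) (.mul (.mul (.c 12) (.mul (.mul (.c 86) (.v 1)) (.mul (.c 86) (.v 1)))) (.w 0 1)))) (.add (.mul (.mul (.mul (.add (.mul (.r 2 489 744 2) (.q 0)) (.mul (.r 2 490 744 2) (.v 0))) (.mul (.mul (.c 86) (.v 1)) (.add (.mul (.mul (.c 1048576) (.r 2 2 744 2)) (.w 1 2)) (.mul (.mul (.c 86) (.v 1)) (.add (.mul (.mul (.c 1024) (.r 2 3 744 2)) (.w 1 1)) (.mul (.mul (.c 86) (.v 1)) (.r 2 4 744 2))))))) (.mul (.c 2) (.mul (.mul (.c 86) (.v 1)) (.mul (.c 86) (.v 1))))) (.w 0 1)) (.add (.mul (.mul (.add (.mul (.r 2 491 744 2) (.q 0)) (.mul (.r 2 492 744 2) (.v 0))) (.mul (.mul (.c 86) (.v 1)) (.add (.mul (.mul (.c 1048576) (.r 2 2 744 2)) (.w 1 2)) (.mul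 (.mul (.c 86) (.v 1)) (.add (.mul (.mul (.c 1024) (.r 2 3 744 2)) (.w 1 1)) (.mul (.mul (.c 86) (.v 1)) (.r 2 4 744 2))))))) (.sub (.mul (.mul (.c 1024) (.mul (.c 2) (.add (.mul (.c 853) (.w 0 1)) (.mul (.c 171) (.q 0))))) (.w 1 2)) (.mul (.mul (.c 24) (.mul (.mul (.c 86) (.v 1)) (.mul (.c 86) (.v 1)))) (.w 0 1)))) (.mul (.mul (.mul (.c 1048576) (.mul (.mul (.add (.mul (.r 2 493 744 2) (.q 0)) (.mul (.r 2 494 744 2) (.v 0))) (.mul (.mul (.c 86) (.v 1)) (.add (.mul (.mul (.c 1048576) (.r 2 2 744 2)) (.w 1 2)) (.mul (.mul (.c 86) (.v 1)) (.add (.mul (.mul (.c 1024) (.r 2 3 744 2)) (.w 1 1)) (.mul (.mul (.c 86) (.v 1)) (.r 2 4 744 2))))))) (.c 2))) (.w 0 1)) (.w 1 2)))))))))) (.w 0 2)) (.w 2 1))), 154, 5, 6, 4, 1⟩,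
  ⟨(.sub (.sub (.mul (.mul (.mul (.c 0) (.w 0 3)) (.w 1 3)) (.w 2 3)) (.mul (.mul (.mul (.c 86) (.v 1)) (.add (.mul (.mul (.c 1048576) (.r 2 2 744 2)) (.w 1 2)) (.mul (.mul (.c 86) (.v 1)) (.add (.mul (.mul (.c 1024) (.r 2 3 744 2)) (.w 1 1)) (.mul (.mul (.c 86) (.v 1)) (.r 2 4 744 2)))))) (.mul (.add (.mul (.q 2) (.r 0 5 1 3)) (.mul (.v 2) (.r 0 749 1 3))) (.mul (.add (.mul (.mul (.c 1024) (.s 2 111 744 2)) (.w 0 1)) (.mul (.mul (.c 171) (.v 0)) (.s 2 114 744 2))) (.c 1))))) (.mul (.mul (.mul (.c 17179869184) (.add (.mul (.mul (.add (.mul (.r 2 473 744 2) (.q 0)) (.mul (.r 2 474 744 2) (.v 0))) (.mul (.mul (.c 86) (.v 1)) (.add (.mul (.mul (.c 1048576) (.r 2 2 744 2)) (.w 1 2)) (.mul (.mul (.c 86) (.v 1)) (.add (.mul (.mul (.c 1024) (.r 2 3 744 2)) (.w 1 1)) (.mul (.mul (.c 86) (.v 1)) (.r 2 4 744 2))))))) (.sub (.c 0) (.mul (.c 12) (.c 1)))) (.add (.mul (.mul (.add (.mul (.r 2 477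 744 2) (.q 0)) (.mul (.r 2 478 744 2) (.v 0))) (.mul (.mul (.c 86) (.v 1)) (.add (.mul (.mul (.c 1048576) (.r 2 2 744 2)) (.w 1 2)) (.mul (.mul (.c 86) (.v 1)) (.add (.mul (.mul (.c 1024) (.r 2 3 744 2)) (.w 1 1)) (.mul (.mul (.c 86) (.v 1)) (.r 2 4 744 2))))))) (.c 1)) (.add (.mul (.mul (.add (.mul (.r 2 481 744 2) (.q 0)) (.mul (.r 2 482 744 2) (.v 0))) (.mul (.mul (.c 86) (.v 1)) (.add (.mul (.mul (.c 1048576) (.r 2 2 744 2)) (.w 1 2)) (.mul (.mul (.c 86) (.v 1)) (.add (.mul (.mul (.c 1024) (.r 2 3 744 2)) (.w 1 1)) (.mul (.mul (.c 86) (.v 1)) (.r 2 4 744 2))))))) (.sub (.c 0) (.mul (.c 12) (.c 1)))) (.add (.mul (.mul (.add (.mul (.r 2 483 744 2) (.q 0)) (.mul (.r 2 484 744 2) (.v 0))) (.mul (.mul (.c 86) (.v 1)) (.add (.mul (.mul (.c 1048576) (.r 2 2 744 2)) (.w 1 2)) (.mul (.mul (.c 86) (.v 1)) (.add (.mul (.mul (.c 1024) (.r 2 3 744 2)) (.w 1 1)) (.mul (.mul (.c 86) (.v 1)) (.r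 2 4 744 2))))))) (.sub (.c 0) (.mul (.c 12) (.c 1)))) (.add (.mul (.mul (.add (.mul (.r 2 487 744 2) (.q 0)) (.mul (.r 2 488 744 2) (.v 0))) (.mul (.mul (.c 86) (.v 1)) (.add (.mul (.mul (.c 1048576) (.r 2 2 744 2)) (.w 1 2)) (.mul (.mul (.c 86) (.v 1)) (.add (.mul (.mul (.c 1024) (.r 2 3 744 2)) (.w 1 1)) (.mul (.mul (.c 86) (.v 1)) (.r 2 4 744 2))))))) (.c 1)) (.mul (.mul (.add (.mul (.r 2 491 744 2) (.q 0)) (.mul (.r 2 492 744 2) (.v 0))) (.mul (.mul (.c 86) (.v 1)) (.add (.mul (.mul (.c 1048576) (.r 2 2 744 2)) (.w 1 2)) (.mul (.mul (.c 86) (.v 1)) (.add (.mul (.mul (.c 1024) (.r 2 3 744 2)) (.w 1 1)) (.mul (.mul (.c 86) (.v 1)) (.r 2 4 744 2))))))) (.sub (.c 0) (.mul (.c 12) (.c 1)))))))))) (.w 0 2)) (.w 2 1))), 141, 4, 4, 4, 1⟩,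
  ⟨(.sub (.sub (.mul (.mul (.mul (.c 0) (.w 0 2)) (.w 1 3)) (.w 2 3)) (.mul (.mul (.mul (.c 86) (.v 1)) (.add (.mul (.mul (.c 1048576) (.r 2 2 744 2)) (.w 1 2)) (.mul (.mul (.c 86) (.v 1)) (.add (.mul (.mul (.c 1024) (.r 2 3 744 2)) (.w 1 1)) (.mul (.mul (.c 86) (.v 1)) (.r 2 4 744 2)))))) (.mul (.add (.mul (.q 2) (.r 0 5 1 3)) (.mul (.v 2) (.r 0 749 1 3))) (.mul (.s 2 112 744 2) (.c 1))))) (.mul (.mul (.mul (.c 16777216) (.add (.mul (.mul (.add (.mul (.r 2 475 744 2) (.q 0)) (.mul (.r 2 476 744 2) (.v 0))) (.mul (.mul (.c 86) (.v 1)) (.add (.mul (.mul (.c 1048576) (.r 2 2 744 2)) (.w 1 2)) (.mul (.mul (.c 86) (.v 1)) (.add (.mul (.mul (.c 1024) (.r 2 3 744 2)) (.w 1 1)) (.mul (.mul (.c 86) (.v 1)) (.r 2 4 744 2))))))) (.sub (.c 0) (.mul (.c 12) (.c 1)))) (.add (.mul (.mul (.add (.mul (.r 2 479 744 2) (.q 0)) (.mul (.r 2 480 744 2) (.v 0))) (.mul (.mul (.c 86) (.v 1)) (.add (.mul (.mul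 (.c 1048576) (.r 2 2 744 2)) (.w 1 2)) (.mul (.mul (.c 86) (.v 1)) (.add (.mul (.mul (.c 1024) (.r 2 3 744 2)) (.w 1 1)) (.mul (.mul (.c 86) (.v 1)) (.r 2 4 744 2))))))) (.mul (.c 2) (.c 1))) (.add (.mul (.mul (.add (.mul (.r 2 481 744 2) (.q 0)) (.mul (.r 2 482 744 2) (.v 0))) (.mul (.mul (.c 86) (.v 1)) (.add (.mul (.mul (.c 1048576) (.r 2 2 744 2)) (.w 1 2)) (.mul (.mul (.c 86) (.v 1)) (.add (.mul (.mul (.c 1024) (.r 2 3 744 2)) (.w 1 1)) (.mul (.mul (.c 86) (.v 1)) (.r 2 4 744 2))))))) (.sub (.c 0) (.mul (.c 24) (.c 1)))) (.add (.mul (.mul (.add (.mul (.r 2 485 744 2) (.q 0)) (.mul (.r 2 486 744 2) (.v 0))) (.mul (.mul (.c 86) (.v 1)) (.add (.mul (.mul (.c 1048576) (.r 2 2 744 2)) (.w 1 2)) (.mul (.mul (.c 86) (.v 1)) (.add (.mul (.mul (.c 1024) (.r 2 3 744 2)) (.w 1 1)) (.mul (.mul (.c 86) (.v 1)) (.r 2 4 744 2))))))) (.sub (.c 0) (.mul (.c 12) (.c 1)))) (.add (.mul (.mul (.add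 (.mul (.r 2 489 744 2) (.q 0)) (.mul (.r 2 490 744 2) (.v 0))) (.mul (.mul (.c 86) (.v 1)) (.add (.mul (.mul (.c 1048576) (.r 2 2 744 2)) (.w 1 2)) (.mul (.mul (.c 86) (.v 1)) (.add (.mul (.mul (.c 1024) (.r 2 3 744 2)) (.w 1 1)) (.mul (.mul (.c 86) (.v 1)) (.r 2 4 744 2))))))) (.mul (.c 2) (.c 1))) (.mul (.mul (.add (.mul (.r 2 491 744 2) (.q 0)) (.mul (.r 2 492 744 2) (.v 0))) (.mul (.mul (.c 86) (.v 1)) (.add (.mul (.mul (.c 1048576) (.r 2 2 744 2)) (.w 1 2)) (.mul (.mul (.c 86) (.v 1)) (.add (.mul (.mul (.c 1024) (.r 2 3 744 2)) (.w 1 1)) (.mul (.mul (.c 86) (.v 1)) (.r 2 4 744 2))))))) (.sub (.c 0) (.mul (.c 24) (.c 1)))))))))) (.w 0 1)) (.w 2 1))), 130, 3, 4, 4, 1⟩,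
  ⟨(.sub (.sub (.mul (.mul (.mul (.c 0) (.w 0 2)) (.w 1 3)) (.w 2 3)) (.mul (.mul (.mul (.c 86) (.v 1)) (.add (.mul (.mul (.c 1048576) (.r 2 2 744 2)) (.w 1 2)) (.mul (.mul (.c 86) (.v 1)) (.add (.mul (.mul (.c 1024) (.r 2 3 744 2)) (.w 1 1)) (.mul (.mul (.c 86) (.v 1)) (.r 2 4 744 2)))))) (.mul (.add (.mul (.q 2) (.r 0 5 1 3)) (.mul (.v 2) (.r 0 749 1 3))) (.mul (.s 2 113 744 2) (.c 1))))) (.mul (.mul (.mul (.c 16777216) (.add (.mul (.mul (.add (.mul (.r 2 477 744 2) (.q 0)) (.mul (.r 2 478 744 2) (.v 0))) (.mul (.mul (.c 86) (.v 1)) (.add (.mul (.mul (.c 1048576) (.r 2 2 744 2)) (.w 1 2)) (.mul (.mul (.c 86) (.v 1)) (.add (.mul (.mul (.c 1024) (.r 2 3 744 2)) (.w 1 1)) (.mul (.mul (.c 86) (.v 1)) (.r 2 4 744 2))))))) (.sub (.c 0) (.mul (.c 12) (.c 1)))) (.add (.mul (.mul (.add (.mul (.r 2 479 744 2) (.q 0)) (.mul (.r 2 480 744 2) (.v 0))) (.mul (.mul (.c 86) (.v 1)) (.add (.mul (.mul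 (.c 1048576) (.r 2 2 744 2)) (.w 1 2)) (.mul (.mul (.c 86) (.v 1)) (.add (.mul (.mul (.c 1024) (.r 2 3 744 2)) (.w 1 1)) (.mul (.mul (.c 86) (.v 1)) (.r 2 4 744 2))))))) (.sub (.c 0) (.mul (.c 12) (.c 1)))) (.add (.mul (.mul (.add (.mul (.r 2 481 744 2) (.q 0)) (.mul (.r 2 482 744 2) (.v 0))) (.mul (.mul (.c 86) (.v 1)) (.add (.mul (.mul (.c 1048576) (.r 2 2 744 2)) (.w 1 2)) (.mul (.mul (.c 86) (.v 1)) (.add (.mul (.mul (.c 1024) (.r 2 3 744 2)) (.w 1 1)) (.mul (.mul (.c 86) (.v 1)) (.r 2 4 744 2))))))) (.mul (.c 144) (.c 1))) (.add (.mul (.mul (.add (.mul (.r 2 487 744 2) (.q 0)) (.mul (.r 2 488 744 2) (.v 0))) (.mul (.mul (.c 86) (.v 1)) (.add (.mul (.mul (.c 1048576) (.r 2 2 744 2)) (.w 1 2)) (.mul (.mul (.c 86) (.v 1)) (.add (.mul (.mul (.c 1024) (.r 2 3 744 2)) (.w 1 1)) (.mul (.mul (.c 86) (.v 1)) (.r 2 4 744 2))))))) (.sub (.c 0) (.mul (.c 12) (.c 1)))) (.add (.mul (.mul (.add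 (.mul (.r 2 489 744 2) (.q 0)) (.mul (.r 2 490 744 2) (.v 0))) (.mul (.mul (.c 86) (.v 1)) (.add (.mul (.mul (.c 1048576) (.r 2 2 744 2)) (.w 1 2)) (.mul (.mul (.c 86) (.v 1)) (.add (.mul (.mul (.c 1024) (.r 2 3 744 2)) (.w 1 1)) (.mul (.mul (.c 86) (.v 1)) (.r 2 4 744 2))))))) (.sub (.c 0) (.mul (.c 12) (.c 1)))) (.mul (.mul (.add (.mul (.r 2 491 744 2) (.q 0)) (.mul (.r 2 492 744 2) (.v 0))) (.mul (.mul (.c 86) (.v 1)) (.add (.mul (.mul (.c 1048576) (.r 2 2 744 2)) (.w 1 2)) (.mul (.mul (.c 86) (.v 1)) (.add (.mul (.mul (.c 1024) (.r 2 3 744 2)) (.w 1 1)) (.mul (.mul (.c 86) (.v 1)) (.r 2 4 744 2))))))) (.mul (.c 144) (.c 1))))))))) (.w 0 1)) (.w 2 1))), 131, 3, 4, 4, 1⟩,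
  ⟨(.sub (.mul (.mul (.mul (.c 0) (.w 0 1)) (.w 1 5)) (.w 2 2)) (.add (.mul (.mul (.c 1024) (.mul (.mul (.add (.mul (.r 2 483 744 2) (.q 0)) (.mul (.r 2 484 744 2) (.v 0))) (.mul (.mul (.c 86) (.v 1)) (.add (.mul (.mul (.c 1048576) (.r 2 2 744 2)) (.w 1 2)) (.mul (.mul (.c 86) (.v 1)) (.add (.mul (.mul (.c 1024) (.r 2 3 744 2)) (.w 1 1)) (.mul (.mul (.c 86) (.v 1)) (.r 2 4 744 2))))))) (.sub (.mul (.c 0) (.w 1 1)) (.mul (.c 12) (.mul (.c 86) (.v 1)))))) (.w 1 1)) (.add (.mul (.mul (.add (.mul (.r 2 487 744 2) (.q 0)) (.mul (.r 2 488 744 2) (.v 0))) (.mul (.mul (.c 86) (.v 1)) (.add (.mul (.mul (.c 1048576) (.r 2 2 744 2)) (.w 1 2)) (.mul (.mul (.c 86) (.v 1)) (.add (.mul (.mul (.c 1024) (.r 2 3 744 2)) (.w 1 1)) (.mul (.mul (.c 86) (.v 1)) (.r 2 4 744 2))))))) (.sub (.mul (.mul (.c 1024) (.mul (.c 86) (.v 1))) (.w 1 1)) (.mul (.c 12) (.mul (.mul (.c 86) (.v 1)) (.mul (.c 86) (.v 1))))))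 (.add (.mul (.mul (.add (.mul (.r 2 489 744 2) (.q 0)) (.mul (.r 2 490 744 2) (.v 0))) (.mul (.mul (.c 86) (.v 1)) (.add (.mul (.mul (.c 1048576) (.r 2 2 744 2)) (.w 1 2)) (.mul (.mul (.c 86) (.v 1)) (.add (.mul (.mul (.c 1024) (.r 2 3 744 2)) (.w 1 1)) (.mul (.mul (.c 86) (.v 1)) (.r 2 4 744 2))))))) (.sub (.mul (.c 0) (.w 1 2)) (.mul (.c 12) (.mul (.mul (.c 86) (.v 1)) (.mul (.c 86) (.v 1)))))) (.add (.mul (.mul (.add (.mul (.r 2 491 744 2) (.q 0)) (.mul (.r 2 492 744 2) (.v 0))) (.mul (.mul (.c 86) (.v 1)) (.add (.mul (.mul (.c 1048576) (.r 2 2 744 2)) (.w 1 2)) (.mul (.mul (.c 86) (.v 1)) (.add (.mul (.mul (.c 1024) (.r 2 3 744 2)) (.w 1 1)) (.mul (.mul (.c 86) (.v 1)) (.r 2 4 744 2))))))) (.sub (.mul (.c 144) (.mul (.mul (.c 86) (.v 1)) (.mul (.c 86) (.v 1)))) (.mul (.mul (.c 1024) (.mul (.c 12) (.mul (.c 86) (.v 1)))) (.w 1 1)))) (.mul (.mul (.c 1048576) (.mul (.mul (.add (.mul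 (.r 2 493 744 2) (.q 0)) (.mul (.r 2 494 744 2) (.v 0))) (.mul (.mul (.c 86) (.v 1)) (.add (.mul (.mul (.c 1048576) (.r 2 2 744 2)) (.w 1 2)) (.mul (.mul (.c 86) (.v 1)) (.add (.mul (.mul (.c 1024) (.r 2 3 744 2)) (.w 1 1)) (.mul (.mul (.c 86) (.v 1)) (.r 2 4 744 2))))))) (.sub (.c 0) (.mul (.c 12) (.c 1))))) (.w 1 2))))))), 122, 2, 6, 3, 1⟩,
  ⟨(.sub (.mul (.sub (.mul (.mul (.mul (.mul (.c 295147905179352825856) (.mul (.mul (.c 86) (.v 1)) (.add (.mul (.c 1024) (.add (.mul (.add (.mul (.mul (.c 1024) (.s 2 171 744 2)) (.w 0 1)) (.mul (.s 2 172 744 2) (.mul (.c 171) (.v 0)))) (.w 1 1)) (.mul (.mul (.s 2 173 744 2) (.mul (.c 86) (.v 1))) (.w 0 1)))) (.mul (.s 2 174 744 2) (.mul (.mul (.c 86) (.v 1)) (.mul (.c 171) (.v 0))))))) (.w 0 3)) (.w 1 2)) (.w 2 2)) (.mul (.mul (.mul (.c 86) (.v 1)) (.add (.mul (.mul (.c 1048576) (.r 2 2 744 2)) (.w 1 2)) (.mul (.mul (.c 86) (.v 1)) (.add (.mul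 (.mul (.c 1024) (.r 2 3 744 2)) (.w 1 1)) (.mul (.mul (.c 86) (.v 1)) (.r 2 4 744 2)))))) (.mul (.add (.mul (.q 2) (.r 0 5 1 3)) (.mul (.v 2) (.r 0 749 1 3))) (.add (.mul (.mul (.mul (.mul (.c 17592186044416) (.u 0 [1])) (.w 0 2)) (.w 1 1)) (.w 2 1)) (.add (.mul (.mul (.c 1024) (.mul (.s 2 109 744 2) (.add (.mul (.mul (.c 767) (.w 0 1)) (.w 1 1)) (.add (.mul (.mul (.c 171) (.q 0)) (.w 1 1)) (.mul (.mul (.c 86) (.q 1)) (.w 0 1)))))) (.w 0 1)) (.mul (.s 2 110 744 2) (.mul (.mul (.c 171) (.v 0)) (.add (.mul (.mul (.c 767) (.w 0 1)) (.w 1 1)) (.add (.mul (.mul (.c 171) (.q 0)) (.w 1 1)) (.mul (.mul (.c 86) (.q 1)) (.w 0 1))))))))))) (.w 1 1)) (.mul (.mul (.mul (.c 16777216) (.add (.mul (.mul (.c 1024) (.mul (.mul (.add (.mul (.r 2 495 744 2) (.q 0)) (.mul (.r 2 496 744 2) (.v 0))) (.mul (.mul (.c 86) (.v 1)) (.add (.mul (.mul (.c 1048576) (.r 2 2 744 2)) (.w 1 2)) (.mul (.mul (.c 86) (.v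 1)) (.add (.mul (.mul (.c 1024) (.r 2 3 744 2)) (.w 1 1)) (.mul (.mul (.c 86) (.v 1)) (.r 2 4 744 2))))))) (.mul (.c 2) (.add (.mul (.mul (.c 767) (.w 0 1)) (.w 1 1)) (.add (.mul (.mul (.c 171) (.q 0)) (.w 1 1)) (.mul (.mul (.c 86) (.q 1)) (.w 0 1))))))) (.w 1 1)) (.add (.mul (.mul (.c 1024) (.mul (.mul (.add (.mul (.r 2 497 744 2) (.q 0)) (.mul (.r 2 498 744 2) (.v 0))) (.mul (.mul (.c 86) (.v 1)) (.add (.mul (.mul (.c 1048576) (.r 2 2 744 2)) (.w 1 2)) (.mul (.mul (.c 86) (.v 1)) (.add (.mul (.mul (.c 1024) (.r 2 3 744 2)) (.w 1 1)) (.mul (.mul (.c 86) (.v 1)) (.r 2 4 744 2))))))) (.add (.mul (.mul (.c 767) (.w 0 1)) (.w 1 1)) (.add (.mul (.mul (.c 171) (.q 0)) (.w 1 1)) (.mul (.mul (.c 86) (.q 1)) (.w 0 1)))))) (.w 1 1)) (.add (.mul (.mul (.c 1024) (.mul (.mul (.add (.mul (.r 2 503 744 2) (.q 0)) (.mul (.r 2 504 744 2) (.v 0))) (.mul (.mul (.c 86) (.v 1)) (.add (.mul (.mul (.c 1048576)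 (.r 2 2 744 2)) (.w 1 2)) (.mul (.mul (.c 86) (.v 1)) (.add (.mul (.mul (.c 1024) (.r 2 3 744 2)) (.w 1 1)) (.mul (.mul (.c 86) (.v 1)) (.r 2 4 744 2))))))) (.mul (.c 2) (.add (.mul (.mul (.c 767) (.w 0 1)) (.w 1 1)) (.add (.mul (.mul (.c 171) (.q 0)) (.w 1 1)) (.mul (.mul (.c 86) (.q 1)) (.w 0 1))))))) (.w 1 1)) (.add (.mul (.mul (.c 1024) (.mul (.mul (.add (.mul (.r 2 505 744 2) (.q 0)) (.mul (.r 2 506 744 2) (.v 0))) (.mul (.mul (.c 86) (.v 1)) (.add (.mul (.mul (.c 1048576) (.r 2 2 744 2)) (.w 1 2)) (.mul (.mul (.c 86) (.v 1)) (.add (.mul (.mul (.c 1024) (.r 2 3 744 2)) (.w 1 1)) (.mul (.mul (.c 86) (.v 1)) (.r 2 4 744 2))))))) (.mul (.c 2) (.add (.mul (.c 853) (.w 0 1)) (.mul (.c 171) (.q 0)))))) (.w 1 2)) (.add (.mul (.mul (.add (.mul (.r 2 507 744 2) (.q 0)) (.mul (.r 2 508 744 2) (.v 0))) (.mul (.mul (.c 86) (.v 1)) (.add (.mul (.mul (.c 1048576) (.r 2 2 744 2)) (.w 1 2)) (.mul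 (.mul (.c 86) (.v 1)) (.add (.mul (.mul (.c 1024) (.r 2 3 744 2)) (.w 1 1)) (.mul (.mul (.c 86) (.v 1)) (.r 2 4 744 2))))))) (.sub (.mul (.mul (.c 1024) (.add (.mul (.c 853) (.w 0 1)) (.mul (.c 171) (.q 0)))) (.w 1 2)) (.mul (.mul (.c 12) (.mul (.mul (.c 86) (.v 1)) (.mul (.c 86) (.v 1)))) (.w 0 1)))) (.add (.mul (.mul (.mul (.add (.mul (.r 2 511 744 2) (.q 0)) (.mul (.r 2 512 744 2) (.v 0))) (.mul (.mul (.c 86) (.v 1)) (.add (.mul (.mul (.c 1048576) (.r 2 2 744 2)) (.w 1 2)) (.mul (.mul (.c 86) (.v 1)) (.add (.mul (.mul (.c 1024) (.r 2 3 744 2)) (.w 1 1)) (.mul (.mul (.c 86) (.v 1)) (.r 2 4 744 2))))))) (.mul (.c 2) (.mul (.mul (.c 86) (.v 1)) (.mul (.c 86) (.v 1))))) (.w 0 1)) (.add (.mul (.mul (.add (.mul (.r 2 513 744 2) (.q 0)) (.mul (.r 2 514 744 2) (.v 0))) (.mul (.mul (.c 86) (.v 1)) (.add (.mul (.mul (.c 1048576) (.r 2 2 744 2)) (.w 1 2)) (.mul (.mul (.c 86) (.v 1)) (.add (.mul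 (.mul (.c 1024) (.r 2 3 744 2)) (.w 1 1)) (.mul (.mul (.c 86) (.v 1)) (.r 2 4 744 2))))))) (.sub (.mul (.mul (.c 1024) (.mul (.c 2) (.add (.mul (.c 853) (.w 0 1)) (.mul (.c 171) (.q 0))))) (.w 1 2)) (.mul (.mul (.c 24) (.mul (.mul (.c 86) (.v 1)) (.mul (.c 86) (.v 1)))) (.w 0 1)))) (.mul (.mul (.mul (.c 1048576) (.mul (.mul (.add (.mul (.r 2 515 744 2) (.q 0)) (.mul (.r 2 516 744 2) (.v 0))) (.mul (.mul (.c 86) (.v 1)) (.add (.mul (.mul (.c 1048576) (.r 2 2 744 2)) (.w 1 2)) (.mul (.mul (.c 86) (.v 1)) (.add (.mul (.mul (.c 1024) (.r 2 3 744 2)) (.w 1 1)) (.mul (.mul (.c 86) (.v 1)) (.r 2 4 744 2))))))) (.c 2))) (.w 0 1)) (.w 1 2)))))))))) (.w 0 2)) (.w 2 1))), 154, 5, 6, 4, 1⟩,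
  ⟨(.sub (.sub (.mul (.mul (.mul (.c 0) (.w 0 3)) (.w 1 3)) (.w 2 3)) (.mul (.mul (.mul (.c 86) (.v 1)) (.add (.mul (.mul (.c 1048576) (.r 2 2 744 2)) (.w 1 2)) (.mul (.mul (.c 86) (.v 1)) (.add (.mul (.mul (.c 1024) (.r 2 3 744 2)) (.w 1 1)) (.mul (.mul (.c 86) (.v 1)) (.r 2 4 744 2)))))) (.mul (.add (.mul (.q 2) (.r 0 5 1 3)) (.mul (.v 2) (.r 0 749 1 3))) (.mul (.add (.mul (.mul (.c 1024) (.s 2 111 744 2)) (.w 0 1)) (.mul (.mul (.c 171) (.v 0)) (.s 2 114 744 2))) (.c 1))))) (.mul (.mul (.mul (.c 17179869184) (.add (.mul (.mul (.add (.mul (.r 2 495 744 2) (.q 0)) (.mul (.r 2 496 744 2) (.v 0))) (.mul (.mul (.c 86) (.v 1)) (.add (.mul (.mul (.c 1048576) (.r 2 2 744 2)) (.w 1 2)) (.mul (.mul (.c 86) (.v 1)) (.add (.mul (.mul (.c 1024) (.r 2 3 744 2)) (.w 1 1)) (.mul (.mul (.c 86) (.v 1)) (.r 2 4 744 2))))))) (.sub (.c 0) (.mul (.c 12) (.c 1)))) (.add (.mul (.mul (.add (.mul (.r 2 499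 744 2) (.q 0)) (.mul (.r 2 500 744 2) (.v 0))) (.mul (.mul (.c 86) (.v 1)) (.add (.mul (.mul (.c 1048576) (.r 2 2 744 2)) (.w 1 2)) (.mul (.mul (.c 86) (.v 1)) (.add (.mul (.mul (.c 1024) (.r 2 3 744 2)) (.w 1 1)) (.mul (.mul (.c 86) (.v 1)) (.r 2 4 744 2))))))) (.c 1)) (.add (.mul (.mul (.add (.mul (.r 2 503 744 2) (.q 0)) (.mul (.r 2 504 744 2) (.v 0))) (.mul (.mul (.c 86) (.v 1)) (.add (.mul (.mul (.c 1048576) (.r 2 2 744 2)) (.w 1 2)) (.mul (.mul (.c 86) (.v 1)) (.add (.mul (.mul (.c 1024) (.r 2 3 744 2)) (.w 1 1)) (.mul (.mul (.c 86) (.v 1)) (.r 2 4 744 2))))))) (.sub (.c 0) (.mul (.c 12) (.c 1)))) (.add (.mul (.mul (.add (.mul (.r 2 505 744 2) (.q 0)) (.mul (.r 2 506 744 2) (.v 0))) (.mul (.mul (.c 86) (.v 1)) (.add (.mul (.mul (.c 1048576) (.r 2 2 744 2)) (.w 1 2)) (.mul (.mul (.c 86) (.v 1)) (.add (.mul (.mul (.c 1024) (.r 2 3 744 2)) (.w 1 1)) (.mul (.mul (.c 86) (.v 1)) (.r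 2 4 744 2))))))) (.sub (.c 0) (.mul (.c 12) (.c 1)))) (.add (.mul (.mul (.add (.mul (.r 2 509 744 2) (.q 0)) (.mul (.r 2 510 744 2) (.v 0))) (.mul (.mul (.c 86) (.v 1)) (.add (.mul (.mul (.c 1048576) (.r 2 2 744 2)) (.w 1 2)) (.mul (.mul (.c 86) (.v 1)) (.add (.mul (.mul (.c 1024) (.r 2 3 744 2)) (.w 1 1)) (.mul (.mul (.c 86) (.v 1)) (.r 2 4 744 2))))))) (.c 1)) (.mul (.mul (.add (.mul (.r 2 513 744 2) (.q 0)) (.mul (.r 2 514 744 2) (.v 0))) (.mul (.mul (.c 86) (.v 1)) (.add (.mul (.mul (.c 1048576) (.r 2 2 744 2)) (.w 1 2)) (.mul (.mul (.c 86) (.v 1)) (.add (.mul (.mul (.c 1024) (.r 2 3 744 2)) (.w 1 1)) (.mul (.mul (.c 86) (.v 1)) (.r 2 4 744 2))))))) (.sub (.c 0) (.mul (.c 12) (.c 1)))))))))) (.w 0 2)) (.w 2 1))), 141, 4, 4, 4, 1⟩,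
  ⟨(.sub (.sub (.mul (.mul (.mul (.c 0) (.w 0 2)) (.w 1 3)) (.w 2 3)) (.mul (.mul (.mul (.c 86) (.v 1)) (.add (.mul (.mul (.c 1048576) (.r 2 2 744 2)) (.w 1 2)) (.mul (.mul (.c 86) (.v 1)) (.add (.mul (.mul (.c 1024) (.r 2 3 744 2)) (.w 1 1)) (.mul (.mul (.c 86) (.v 1)) (.r 2 4 744 2)))))) (.mul (.add (.mul (.q 2) (.r 0 5 1 3)) (.mul (.v 2) (.r 0 749 1 3))) (.mul (.s 2 112 744 2) (.c 1))))) (.mul (.mul (.mul (.c 16777216) (.add (.mul (.mul (.add (.mul (.r 2 497 744 2) (.q 0)) (.mul (.r 2 498 744 2) (.v 0))) (.mul (.mul (.c 86) (.v 1)) (.add (.mul (.mul (.c 1048576) (.r 2 2 744 2)) (.w 1 2)) (.mul (.mul (.c 86) (.v 1)) (.add (.mul (.mul (.c 1024) (.r 2 3 744 2)) (.w 1 1)) (.mul (.mul (.c 86) (.v 1)) (.r 2 4 744 2))))))) (.sub (.c 0) (.mul (.c 12) (.c 1)))) (.add (.mul (.mul (.add (.mul (.r 2 501 744 2) (.q 0)) (.mul (.r 2 502 744 2) (.v 0))) (.mul (.mul (.c 86) (.v 1)) (.add (.mul (.mul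 (.c 1048576) (.r 2 2 744 2)) (.w 1 2)) (.mul (.mul (.c 86) (.v 1)) (.add (.mul (.mul (.c 1024) (.r 2 3 744 2)) (.w 1 1)) (.mul (.mul (.c 86) (.v 1)) (.r 2 4 744 2))))))) (.mul (.c 2) (.c 1))) (.add (.mul (.mul (.add (.mul (.r 2 503 744 2) (.q 0)) (.mul (.r 2 504 744 2) (.v 0))) (.mul (.mul (.c 86) (.v 1)) (.add (.mul (.mul (.c 1048576) (.r 2 2 744 2)) (.w 1 2)) (.mul (.mul (.c 86) (.v 1)) (.add (.mul (.mul (.c 1024) (.r 2 3 744 2)) (.w 1 1)) (.mul (.mul (.c 86) (.v 1)) (.r 2 4 744 2))))))) (.sub (.c 0) (.mul (.c 24) (.c 1)))) (.add (.mul (.mul (.add (.mul (.r 2 507 744 2) (.q 0)) (.mul (.r 2 508 744 2) (.v 0))) (.mul (.mul (.c 86) (.v 1)) (.add (.mul (.mul (.c 1048576) (.r 2 2 744 2)) (.w 1 2)) (.mul (.mul (.c 86) (.v 1)) (.add (.mul (.mul (.c 1024) (.r 2 3 744 2)) (.w 1 1)) (.mul (.mul (.c 86) (.v 1)) (.r 2 4 744 2))))))) (.sub (.c 0) (.mul (.c 12) (.c 1)))) (.add (.mul (.mul (.add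 (.mul (.r 2 511 744 2) (.q 0)) (.mul (.r 2 512 744 2) (.v 0))) (.mul (.mul (.c 86) (.v 1)) (.add (.mul (.mul (.c 1048576) (.r 2 2 744 2)) (.w 1 2)) (.mul (.mul (.c 86) (.v 1)) (.add (.mul (.mul (.c 1024) (.r 2 3 744 2)) (.w 1 1)) (.mul (.mul (.c 86) (.v 1)) (.r 2 4 744 2))))))) (.mul (.c 2) (.c 1))) (.mul (.mul (.add (.mul (.r 2 513 744 2) (.q 0)) (.mul (.r 2 514 744 2) (.v 0))) (.mul (.mul (.c 86) (.v 1)) (.add (.mul (.mul (.c 1048576) (.r 2 2 744 2)) (.w 1 2)) (.mul (.mul (.c 86) (.v 1)) (.add (.mul (.mul (.c 1024) (.r 2 3 744 2)) (.w 1 1)) (.mul (.mul (.c 86) (.v 1)) (.r 2 4 744 2))))))) (.sub (.c 0) (.mul (.c 24) (.c 1)))))))))) (.w 0 1)) (.w 2 1))), 130, 3, 4, 4, 1⟩,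
  ⟨(.sub (.sub (.mul (.mul (.mul (.c 0) (.w 0 2)) (.w 1 3)) (.w 2 3)) (.mul (.mul (.mul (.c 86) (.v 1)) (.add (.mul (.mul (.c 1048576) (.r 2 2 744 2)) (.w 1 2)) (.mul (.mul (.c 86) (.v 1)) (.add (.mul (.mul (.c 1024) (.r 2 3 744 2)) (.w 1 1)) (.mul (.mul (.c 86) (.v 1)) (.r 2 4 744 2)))))) (.mul (.add (.mul (.q 2) (.r 0 5 1 3)) (.mul (.v 2) (.r 0 749 1 3))) (.mul (.s 2 113 744 2) (.c 1))))) (.mul (.mul (.mul (.c 16777216) (.add (.mul (.mul (.add (.mul (.r 2 499 744 2) (.q 0)) (.mul (.r 2 500 744 2) (.v 0))) (.mul (.mul (.c 86) (.v 1)) (.add (.mul (.mul (.c 1048576) (.r 2 2 744 2)) (.w 1 2)) (.mul (.mul (.c 86) (.v 1)) (.add (.mul (.mul (.c 1024) (.r 2 3 744 2)) (.w 1 1)) (.mul (.mul (.c 86) (.v 1)) (.r 2 4 744 2))))))) (.sub (.c 0) (.mul (.c 12) (.c 1)))) (.add (.mul (.mul (.add (.mul (.r 2 501 744 2) (.q 0)) (.mul (.r 2 502 744 2) (.v 0))) (.mul (.mul (.c 86) (.v 1)) (.add (.mul (.mul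 (.c 1048576) (.r 2 2 744 2)) (.w 1 2)) (.mul (.mul (.c 86) (.v 1)) (.add (.mul (.mul (.c 1024) (.r 2 3 744 2)) (.w 1 1)) (.mul (.mul (.c 86) (.v 1)) (.r 2 4 744 2))))))) (.sub (.c 0) (.mul (.c 12) (.c 1)))) (.add (.mul (.mul (.add (.mul (.r 2 503 744 2) (.q 0)) (.mul (.r 2 504 744 2) (.v 0))) (.mul (.mul (.c 86) (.v 1)) (.add (.mul (.mul (.c 1048576) (.r 2 2 744 2)) (.w 1 2)) (.mul (.mul (.c 86) (.v 1)) (.add (.mul (.mul (.c 1024) (.r 2 3 744 2)) (.w 1 1)) (.mul (.mul (.c 86) (.v 1)) (.r 2 4 744 2))))))) (.mul (.c 144) (.c 1))) (.add (.mul (.mul (.add (.mul (.r 2 509 744 2) (.q 0)) (.mul (.r 2 510 744 2) (.v 0))) (.mul (.mul (.c 86) (.v 1)) (.add (.mul (.mul (.c 1048576) (.r 2 2 744 2)) (.w 1 2)) (.mul (.mul (.c 86) (.v 1)) (.add (.mul (.mul (.c 1024) (.r 2 3 744 2)) (.w 1 1)) (.mul (.mul (.c 86) (.v 1)) (.r 2 4 744 2))))))) (.sub (.c 0) (.mul (.c 12) (.c 1)))) (.add (.mul (.mul (.add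 (.mul (.r 2 511 744 2) (.q 0)) (.mul (.r 2 512 744 2) (.v 0))) (.mul (.mul (.c 86) (.v 1)) (.add (.mul (.mul (.c 1048576) (.r 2 2 744 2)) (.w 1 2)) (.mul (.mul (.c 86) (.v 1)) (.add (.mul (.mul (.c 1024) (.r 2 3 744 2)) (.w 1 1)) (.mul (.mul (.c 86) (.v 1)) (.r 2 4 744 2))))))) (.sub (.c 0) (.mul (.c 12) (.c 1)))) (.mul (.mul (.add (.mul (.r 2 513 744 2) (.q 0)) (.mul (.r 2 514 744 2) (.v 0))) (.mul (.mul (.c 86) (.v 1)) (.add (.mul (.mul (.c 1048576) (.r 2 2 744 2)) (.w 1 2)) (.mul (.mul (.c 86) (.v 1)) (.add (.mul (.mul (.c 1024) (.r 2 3 744 2)) (.w 1 1)) (.mul (.mul (.c 86) (.v 1)) (.r 2 4 744 2))))))) (.mul (.c 144) (.c 1))))))))) (.w 0 1)) (.w 2 1))), 131, 3, 4, 4, 1⟩,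
  ⟨(.sub (.mul (.mul (.mul (.c 0) (.w 0 1)) (.w 1 5)) (.w 2 2)) (.add (.mul (.mul (.c 1024) (.mul (.mul (.add (.mul (.r 2 505 744 2) (.q 0)) (.mul (.r 2 506 744 2) (.v 0))) (.mul (.mul (.c 86) (.v 1)) (.add (.mul (.mul (.c 1048576) (.r 2 2 744 2)) (.w 1 2)) (.mul (.mul (.c 86) (.v 1)) (.add (.mul (.mul (.c 1024) (.r 2 3 744 2)) (.w 1 1)) (.mul (.mul (.c 86) (.v 1)) (.r 2 4 744 2))))))) (.sub (.mul (.c 0) (.w 1 1)) (.mul (.c 12) (.mul (.c 86) (.v 1)))))) (.w 1 1)) (.add (.mul (.mul (.add (.mul (.r 2 509 744 2) (.q 0)) (.mul (.r 2 510 744 2) (.v 0))) (.mul (.mul (.c 86) (.v 1)) (.add (.mul (.mul (.c 1048576) (.r 2 2 744 2)) (.w 1 2)) (.mul (.mul (.c 86) (.v 1)) (.add (.mul (.mul (.c 1024) (.r 2 3 744 2)) (.w 1 1)) (.mul (.mul (.c 86) (.v 1)) (.r 2 4 744 2))))))) (.sub (.mul (.mul (.c 1024) (.mul (.c 86) (.v 1))) (.w 1 1)) (.mul (.c 12) (.mul (.mul (.c 86) (.v 1)) (.mul (.c 86) (.v 1))))))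 (.add (.mul (.mul (.add (.mul (.r 2 511 744 2) (.q 0)) (.mul (.r 2 512 744 2) (.v 0))) (.mul (.mul (.c 86) (.v 1)) (.add (.mul (.mul (.c 1048576) (.r 2 2 744 2)) (.w 1 2)) (.mul (.mul (.c 86) (.v 1)) (.add (.mul (.mul (.c 1024) (.r 2 3 744 2)) (.w 1 1)) (.mul (.mul (.c 86) (.v 1)) (.r 2 4 744 2))))))) (.sub (.mul (.c 0) (.w 1 2)) (.mul (.c 12) (.mul (.mul (.c 86) (.v 1)) (.mul (.c 86) (.v 1)))))) (.add (.mul (.mul (.add (.mul (.r 2 513 744 2) (.q 0)) (.mul (.r 2 514 744 2) (.v 0))) (.mul (.mul (.c 86) (.v 1)) (.add (.mul (.mul (.c 1048576) (.r 2 2 744 2)) (.w 1 2)) (.mul (.mul (.c 86) (.v 1)) (.add (.mul (.mul (.c 1024) (.r 2 3 744 2)) (.w 1 1)) (.mul (.mul (.c 86) (.v 1)) (.r 2 4 744 2))))))) (.sub (.mul (.c 144) (.mul (.mul (.c 86) (.v 1)) (.mul (.c 86) (.v 1)))) (.mul (.mul (.c 1024) (.mul (.c 12) (.mul (.c 86) (.v 1)))) (.w 1 1)))) (.mul (.mul (.c 1048576) (.mul (.mul (.add (.mul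 (.r 2 515 744 2) (.q 0)) (.mul (.r 2 516 744 2) (.v 0))) (.mul (.mul (.c 86) (.v 1)) (.add (.mul (.mul (.c 1048576) (.r 2 2 744 2)) (.w 1 2)) (.mul (.mul (.c 86) (.v 1)) (.add (.mul (.mul (.c 1024) (.r 2 3 744 2)) (.w 1 1)) (.mul (.mul (.c 86) (.v 1)) (.r 2 4 744 2))))))) (.sub (.c 0) (.mul (.c 12) (.c 1))))) (.w 1 2))))))), 122, 2, 6, 3, 1⟩,
  ⟨(.sub (.sub (.mul (.mul (.mul (.mul (.c 295147905179352825856) (.mul (.mul (.c 86) (.v 1)) (.add (.mul (.c 1024) (.add (.mul (.add (.mul (.mul (.c 1024) (.s 2 175 744 2)) (.w 0 1)) (.mul (.s 2 176 744 2) (.mul (.c 171) (.v 0)))) (.w 1 1)) (.mul (.mul (.s 2 177 744 2) (.mul (.c 86) (.v 1))) (.w 0 1)))) (.mul (.s 2 178 744 2) (.mul (.mul (.c 86) (.v 1)) (.mul (.c 171) (.v 0))))))) (.w 0 3)) (.w 1 3)) (.w 2 2)) (.mul (.mul (.mul (.c 86) (.v 1)) (.add (.mul (.mul (.c 1048576) (.r 2 2 744 2)) (.w 1 2)) (.mul (.mul (.c 86) (.v 1)) (.add (.mul (.mul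 (.c 1024) (.r 2 3 744 2)) (.w 1 1)) (.mul (.mul (.c 86) (.v 1)) (.r 2 4 744 2)))))) (.add (.mul (.mul (.mul (.c 16777216) (.mul (.u 0 [1]) (.add (.mul (.add (.mul (.mul (.c 1024) (.mul (.s 2 35 744 2) (.add (.mul (.c 853) (.w 0 1)) (.mul (.c 171) (.q 0))))) (.w 0 1)) (.mul (.s 2 36 744 2) (.mul (.mul (.c 171) (.v 0)) (.add (.mul (.c 853) (.w 0 1)) (.mul (.c 171) (.q 0)))))) (.w 1 2)) (.mul (.mul (.s 2 38 744 2) (.mul (.mul (.c 86) (.v 1)) (.mul (.c 86) (.v 1)))) (.w 0 2))))) (.w 0 2)) (.w 2 1)) (.mul (.mul (.add (.mul (.q 2) (.r 0 5 1 3)) (.mul (.v 2) (.r 0 749 1 3))) (.add (.mul (.mul (.c 1024) (.mul (.s 2 73 744 2) (.add (.mul (.mul (.c 767) (.w 0 1)) (.w 1 1)) (.add (.mul (.mul (.c 171) (.q 0)) (.w 1 1)) (.mul (.mul (.c 86) (.q 1)) (.w 0 1)))))) (.w 0 1)) (.mul (.s 2 74 744 2) (.mul (.mul (.c 171) (.v 0)) (.add (.mul (.mul (.c 767) (.w 0 1)) (.w 1 1)) (.add (.mul (.mul (.c 171) (.q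 0)) (.w 1 1)) (.mul (.mul (.c 86) (.q 1)) (.w 0 1)))))))) (.w 1 1))))) (.mul (.mul (.mul (.c 16777216) (.add (.mul (.mul (.c 1024) (.mul (.mul (.add (.mul (.r 2 517 744 2) (.q 0)) (.mul (.r 2 518 744 2) (.v 0))) (.mul (.mul (.c 86) (.v 1)) (.add (.mul (.mul (.c 1048576) (.r 2 2 744 2)) (.w 1 2)) (.mul (.mul (.c 86) (.v 1)) (.add (.mul (.mul (.c 1024) (.r 2 3 744 2)) (.w 1 1)) (.mul (.mul (.c 86) (.v 1)) (.r 2 4 744 2))))))) (.mul (.c 2) (.add (.mul (.mul (.c 767) (.w 0 1)) (.w 1 1)) (.add (.mul (.mul (.c 171) (.q 0)) (.w 1 1)) (.mul (.mul (.c 86) (.q 1)) (.w 0 1))))))) (.w 1 1)) (.add (.mul (.mul (.c 1024) (.mul (.mul (.add (.mul (.r 2 519 744 2) (.q 0)) (.mul (.r 2 520 744 2) (.v 0))) (.mul (.mul (.c 86) (.v 1)) (.add (.mul (.mul (.c 1048576) (.r 2 2 744 2)) (.w 1 2)) (.mul (.mul (.c 86) (.v 1)) (.add (.mul (.mul (.c 1024) (.r 2 3 744 2)) (.w 1 1)) (.mul (.mul (.c 86) (.v 1)) (.r 2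 4 744 2))))))) (.add (.mul (.mul (.c 767) (.w 0 1)) (.w 1 1)) (.add (.mul (.mul (.c 171) (.q 0)) (.w 1 1)) (.mul (.mul (.c 86) (.q 1)) (.w 0 1)))))) (.w 1 1)) (.add (.mul (.mul (.c 1024) (.mul (.mul (.add (.mul (.r 2 525 744 2) (.q 0)) (.mul (.r 2 526 744 2) (.v 0))) (.mul (.mul (.c 86) (.v 1)) (.add (.mul (.mul (.c 1048576) (.r 2 2 744 2)) (.w 1 2)) (.mul (.mul (.c 86) (.v 1)) (.add (.mul (.mul (.c 1024) (.r 2 3 744 2)) (.w 1 1)) (.mul (.mul (.c 86) (.v 1)) (.r 2 4 744 2))))))) (.mul (.c 2) (.add (.mul (.mul (.c 767) (.w 0 1)) (.w 1 1)) (.add (.mul (.mul (.c 171) (.q 0)) (.w 1 1)) (.mul (.mul (.c 86) (.q 1)) (.w 0 1))))))) (.w 1 1)) (.add (.mul (.mul (.c 1024) (.mul (.mul (.add (.mul (.r 2 527 744 2) (.q 0)) (.mul (.r 2 528 744 2) (.v 0))) (.mul (.mul (.c 86) (.v 1)) (.add (.mul (.mul (.c 1048576) (.r 2 2 744 2)) (.w 1 2)) (.mul (.mul (.c 86) (.v 1)) (.add (.mul (.mul (.c 1024) (.r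 2 3 744 2)) (.w 1 1)) (.mul (.mul (.c 86) (.v 1)) (.r 2 4 744 2))))))) (.mul (.c 2) (.add (.mul (.c 853) (.w 0 1)) (.mul (.c 171) (.q 0)))))) (.w 1 2)) (.add (.mul (.mul (.add (.mul (.r 2 529 744 2) (.q 0)) (.mul (.r 2 530 744 2) (.v 0))) (.mul (.mul (.c 86) (.v 1)) (.add (.mul (.mul (.c 1048576) (.r 2 2 744 2)) (.w 1 2)) (.mul (.mul (.c 86) (.v 1)) (.add (.mul (.mul (.c 1024) (.r 2 3 744 2)) (.w 1 1)) (.mul (.mul (.c 86) (.v 1)) (.r 2 4 744 2))))))) (.sub (.mul (.mul (.c 1024) (.add (.mul (.c 853) (.w 0 1)) (.mul (.c 171) (.q 0)))) (.w 1 2)) (.mul (.mul (.c 12) (.mul (.mul (.c 86) (.v 1)) (.mul (.c 86) (.v 1)))) (.w 0 1)))) (.add (.mul (.mul (.mul (.add (.mul (.r 2 533 744 2) (.q 0)) (.mul (.r 2 534 744 2) (.v 0))) (.mul (.mul (.c 86) (.v 1)) (.add (.mul (.mul (.c 1048576) (.r 2 2 744 2)) (.w 1 2)) (.mul (.mul (.c 86) (.v 1)) (.add (.mul (.mul (.c 1024) (.r 2 3 744 2)) (.w 1 1)) (.mul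 (.mul (.c 86) (.v 1)) (.r 2 4 744 2))))))) (.mul (.c 2) (.mul (.mul (.c 86) (.v 1)) (.mul (.c 86) (.v 1))))) (.w 0 1)) (.add (.mul (.mul (.add (.mul (.r 2 535 744 2) (.q 0)) (.mul (.r 2 536 744 2) (.v 0))) (.mul (.mul (.c 86) (.v 1)) (.add (.mul (.mul (.c 1048576) (.r 2 2 744 2)) (.w 1 2)) (.mul (.mul (.c 86) (.v 1)) (.add (.mul (.mul (.c 1024) (.r 2 3 744 2)) (.w 1 1)) (.mul (.mul (.c 86) (.v 1)) (.r 2 4 744 2))))))) (.sub (.mul (.mul (.c 1024) (.mul (.c 2) (.add (.mul (.c 853) (.w 0 1)) (.mul (.c 171) (.q 0))))) (.w 1 2)) (.mul (.mul (.c 24) (.mul (.mul (.c 86) (.v 1)) (.mul (.c 86) (.v 1)))) (.w 0 1)))) (.mul (.mul (.mul (.c 1048576) (.mul (.mul (.add (.mul (.r 2 537 744 2) (.q 0)) (.mul (.r 2 538 744 2) (.v 0))) (.mul (.mul (.c 86) (.v 1)) (.add (.mul (.mul (.c 1048576) (.r 2 2 744 2)) (.w 1 2)) (.mul (.mul (.c 86) (.v 1)) (.add (.mul (.mul (.c 1024) (.r 2 3 744 2)) (.w 1 1)) (.mul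 (.mul (.c 86) (.v 1)) (.r 2 4 744 2))))))) (.c 2))) (.w 0 1)) (.w 1 2)))))))))) (.w 0 2)) (.w 2 1))), 154, 5, 6, 4, 1⟩,
  ⟨(.sub (.sub (.mul (.mul (.mul (.c 0) (.w 0 3)) (.w 1 3)) (.w 2 3)) (.mul (.mul (.mul (.c 86) (.v 1)) (.add (.mul (.mul (.c 1048576) (.r 2 2 744 2)) (.w 1 2)) (.mul (.mul (.c 86) (.v 1)) (.add (.mul (.mul (.c 1024) (.r 2 3 744 2)) (.w 1 1)) (.mul (.mul (.c 86) (.v 1)) (.r 2 4 744 2)))))) (.add (.mul (.mul (.mul (.c 16777216) (.mul (.u 0 [1]) (.mul (.add (.mul (.mul (.c 1024) (.s 2 37 744 2)) (.w 0 1)) (.mul (.mul (.c 171) (.v 0)) (.s 2 40 744 2))) (.c 1)))) (.w 0 2)) (.w 2 1)) (.mul (.add (.mul (.q 2) (.r 0 5 1 3)) (.mul (.v 2) (.r 0 749 1 3))) (.mul (.add (.mul (.mul (.c 1024) (.s 2 75 744 2)) (.w 0 1)) (.mul (.mul (.c 171) (.v 0)) (.s 2 78 744 2))) (.c 1)))))) (.mul (.mul (.mul (.c 17179869184) (.add (.mul (.mul (.add (.mul (.r 2 517 744 2) (.q 0)) (.mul (.r 2 518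 744 2) (.v 0))) (.mul (.mul (.c 86) (.v 1)) (.add (.mul (.mul (.c 1048576) (.r 2 2 744 2)) (.w 1 2)) (.mul (.mul (.c 86) (.v 1)) (.add (.mul (.mul (.c 1024) (.r 2 3 744 2)) (.w 1 1)) (.mul (.mul (.c 86) (.v 1)) (.r 2 4 744 2))))))) (.sub (.c 0) (.mul (.c 12) (.c 1)))) (.add (.mul (.mul (.add (.mul (.r 2 521 744 2) (.q 0)) (.mul (.r 2 522 744 2) (.v 0))) (.mul (.mul (.c 86) (.v 1)) (.add (.mul (.mul (.c 1048576) (.r 2 2 744 2)) (.w 1 2)) (.mul (.mul (.c 86) (.v 1)) (.add (.mul (.mul (.c 1024) (.r 2 3 744 2)) (.w 1 1)) (.mul (.mul (.c 86) (.v 1)) (.r 2 4 744 2))))))) (.c 1)) (.add (.mul (.mul (.add (.mul (.r 2 525 744 2) (.q 0)) (.mul (.r 2 526 744 2) (.v 0))) (.mul (.mul (.c 86) (.v 1)) (.add (.mul (.mul (.c 1048576) (.r 2 2 744 2)) (.w 1 2)) (.mul (.mul (.c 86) (.v 1)) (.add (.mul (.mul (.c 1024) (.r 2 3 744 2)) (.w 1 1)) (.mul (.mul (.c 86) (.v 1)) (.r 2 4 744 2))))))) (.sub (.c 0)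 (.mul (.c 12) (.c 1)))) (.add (.mul (.mul (.add (.mul (.r 2 527 744 2) (.q 0)) (.mul (.r 2 528 744 2) (.v 0))) (.mul (.mul (.c 86) (.v 1)) (.add (.mul (.mul (.c 1048576) (.r 2 2 744 2)) (.w 1 2)) (.mul (.mul (.c 86) (.v 1)) (.add (.mul (.mul (.c 1024) (.r 2 3 744 2)) (.w 1 1)) (.mul (.mul (.c 86) (.v 1)) (.r 2 4 744 2))))))) (.sub (.c 0) (.mul (.c 12) (.c 1)))) (.add (.mul (.mul (.add (.mul (.r 2 531 744 2) (.q 0)) (.mul (.r 2 532 744 2) (.v 0))) (.mul (.mul (.c 86) (.v 1)) (.add (.mul (.mul (.c 1048576) (.r 2 2 744 2)) (.w 1 2)) (.mul (.mul (.c 86) (.v 1)) (.add (.mul (.mul (.c 1024) (.r 2 3 744 2)) (.w 1 1)) (.mul (.mul (.c 86) (.v 1)) (.r 2 4 744 2))))))) (.c 1)) (.mul (.mul (.add (.mul (.r 2 535 744 2) (.q 0)) (.mul (.r 2 536 744 2) (.v 0))) (.mul (.mul (.c 86) (.v 1)) (.add (.mul (.mul (.c 1048576) (.r 2 2 744 2)) (.w 1 2)) (.mul (.mul (.c 86) (.v 1)) (.add (.mul (.mul (.c 1024)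 (.r 2 3 744 2)) (.w 1 1)) (.mul (.mul (.c 86) (.v 1)) (.r 2 4 744 2))))))) (.sub (.c 0) (.mul (.c 12) (.c 1)))))))))) (.w 0 2)) (.w 2 1))), 141, 4, 4, 4, 1⟩,
  ⟨(.sub (.sub (.mul (.mul (.mul (.c 0) (.w 0 2)) (.w 1 3)) (.w 2 3)) (.mul (.mul (.mul (.c 86) (.v 1)) (.add (.mul (.mul (.c 1048576) (.r 2 2 744 2)) (.w 1 2)) (.mul (.mul (.c 86) (.v 1)) (.add (.mul (.mul (.c 1024) (.r 2 3 744 2)) (.w 1 1)) (.mul (.mul (.c 86) (.v 1)) (.r 2 4 744 2)))))) (.add (.mul (.mul (.mul (.c 16777216) (.mul (.u 0 [1]) (.mul (.s 2 38 744 2) (.c 1)))) (.w 0 2)) (.w 2 1)) (.mul (.add (.mul (.q 2) (.r 0 5 1 3)) (.mul (.v 2) (.r 0 749 1 3))) (.mul (.s 2 76 744 2) (.c 1)))))) (.mul (.mul (.mul (.c 16777216) (.add (.mul (.mul (.add (.mul (.r 2 519 744 2) (.q 0)) (.mul (.r 2 520 744 2) (.v 0))) (.mul (.mul (.c 86) (.v 1)) (.add (.mul (.mul (.c 1048576) (.r 2 2 744 2)) (.w 1 2)) (.mul (.mul (.c 86) (.v 1)) (.add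 (.mul (.mul (.c 1024) (.r 2 3 744 2)) (.w 1 1)) (.mul (.mul (.c 86) (.v 1)) (.r 2 4 744 2))))))) (.sub (.c 0) (.mul (.c 12) (.c 1)))) (.add (.mul (.mul (.add (.mul (.r 2 523 744 2) (.q 0)) (.mul (.r 2 524 744 2) (.v 0))) (.mul (.mul (.c 86) (.v 1)) (.add (.mul (.mul (.c 1048576) (.r 2 2 744 2)) (.w 1 2)) (.mul (.mul (.c 86) (.v 1)) (.add (.mul (.mul (.c 1024) (.r 2 3 744 2)) (.w 1 1)) (.mul (.mul (.c 86) (.v 1)) (.r 2 4 744 2))))))) (.mul (.c 2) (.c 1))) (.add (.mul (.mul (.add (.mul (.r 2 525 744 2) (.q 0)) (.mul (.r 2 526 744 2) (.v 0))) (.mul (.mul (.c 86) (.v 1)) (.add (.mul (.mul (.c 1048576) (.r 2 2 744 2)) (.w 1 2)) (.mul (.mul (.c 86) (.v 1)) (.add (.mul (.mul (.c 1024) (.r 2 3 744 2)) (.w 1 1)) (.mul (.mul (.c 86) (.v 1)) (.r 2 4 744 2))))))) (.sub (.c 0) (.mul (.c 24) (.c 1)))) (.add (.mul (.mul (.add (.mul (.r 2 529 744 2) (.q 0)) (.mul (.r 2 530 744 2) (.v 0))) (.mul (.mul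 (.c 86) (.v 1)) (.add (.mul (.mul (.c 1048576) (.r 2 2 744 2)) (.w 1 2)) (.mul (.mul (.c 86) (.v 1)) (.add (.mul (.mul (.c 1024) (.r 2 3 744 2)) (.w 1 1)) (.mul (.mul (.c 86) (.v 1)) (.r 2 4 744 2))))))) (.sub (.c 0) (.mul (.c 12) (.c 1)))) (.add (.mul (.mul (.add (.mul (.r 2 533 744 2) (.q 0)) (.mul (.r 2 534 744 2) (.v 0))) (.mul (.mul (.c 86) (.v 1)) (.add (.mul (.mul (.c 1048576) (.r 2 2 744 2)) (.w 1 2)) (.mul (.mul (.c 86) (.v 1)) (.add (.mul (.mul (.c 1024) (.r 2 3 744 2)) (.w 1 1)) (.mul (.mul (.c 86) (.v 1)) (.r 2 4 744 2))))))) (.mul (.c 2) (.c 1))) (.mul (.mul (.add (.mul (.r 2 535 744 2) (.q 0)) (.mul (.r 2 536 744 2) (.v 0))) (.mul (.mul (.c 86) (.v 1)) (.add (.mul (.mul (.c 1048576) (.r 2 2 744 2)) (.w 1 2)) (.mul (.mul (.c 86) (.v 1)) (.add (.mul (.mul (.c 1024) (.r 2 3 744 2)) (.w 1 1)) (.mul (.mul (.c 86) (.v 1)) (.r 2 4 744 2))))))) (.sub (.c 0) (.mul (.c 24) (.c 1))))))))))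 (.w 0 1)) (.w 2 1))), 130, 3, 4, 4, 1⟩,
  ⟨(.sub (.sub (.mul (.mul (.mul (.c 0) (.w 0 2)) (.w 1 3)) (.w 2 3)) (.mul (.mul (.mul (.c 86) (.v 1)) (.add (.mul (.mul (.c 1048576) (.r 2 2 744 2)) (.w 1 2)) (.mul (.mul (.c 86) (.v 1)) (.add (.mul (.mul (.c 1024) (.r 2 3 744 2)) (.w 1 1)) (.mul (.mul (.c 86) (.v 1)) (.r 2 4 744 2)))))) (.add (.mul (.mul (.mul (.c 16777216) (.mul (.u 0 [1]) (.mul (.s 2 39 744 2) (.c 1)))) (.w 0 2)) (.w 2 1)) (.mul (.add (.mul (.q 2) (.r 0 5 1 3)) (.mul (.v 2) (.r 0 749 1 3))) (.mul (.s 2 77 744 2) (.c 1)))))) (.mul (.mul (.mul (.c 16777216) (.add (.mul (.mul (.add (.mul (.r 2 521 744 2) (.q 0)) (.mul (.r 2 522 744 2) (.v 0))) (.mul (.mul (.c 86) (.v 1)) (.add (.mul (.mul (.c 1048576) (.r 2 2 744 2)) (.w 1 2)) (.mul (.mul (.c 86) (.v 1)) (.add (.mul (.mul (.c 1024) (.r 2 3 744 2)) (.w 1 1)) (.mul (.mul (.c 86) (.v 1)) (.r 2 4 744 2))))))) (.sub (.c 0) (.mul (.c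 12) (.c 1)))) (.add (.mul (.mul (.add (.mul (.r 2 523 744 2) (.q 0)) (.mul (.r 2 524 744 2) (.v 0))) (.mul (.mul (.c 86) (.v 1)) (.add (.mul (.mul (.c 1048576) (.r 2 2 744 2)) (.w 1 2)) (.mul (.mul (.c 86) (.v 1)) (.add (.mul (.mul (.c 1024) (.r 2 3 744 2)) (.w 1 1)) (.mul (.mul (.c 86) (.v 1)) (.r 2 4 744 2))))))) (.sub (.c 0) (.mul (.c 12) (.c 1)))) (.add (.mul (.mul (.add (.mul (.r 2 525 744 2) (.q 0)) (.mul (.r 2 526 744 2) (.v 0))) (.mul (.mul (.c 86) (.v 1)) (.add (.mul (.mul (.c 1048576) (.r 2 2 744 2)) (.w 1 2)) (.mul (.mul (.c 86) (.v 1)) (.add (.mul (.mul (.c 1024) (.r 2 3 744 2)) (.w 1 1)) (.mul (.mul (.c 86) (.v 1)) (.r 2 4 744 2))))))) (.mul (.c 144) (.c 1))) (.add (.mul (.mul (.add (.mul (.r 2 531 744 2) (.q 0)) (.mul (.r 2 532 744 2) (.v 0))) (.mul (.mul (.c 86) (.v 1)) (.add (.mul (.mul (.c 1048576) (.r 2 2 744 2)) (.w 1 2)) (.mul (.mul (.c 86) (.v 1)) (.add (.mul (.mul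 (.c 1024) (.r 2 3 744 2)) (.w 1 1)) (.mul (.mul (.c 86) (.v 1)) (.r 2 4 744 2))))))) (.sub (.c 0) (.mul (.c 12) (.c 1)))) (.add (.mul (.mul (.add (.mul (.r 2 533 744 2) (.q 0)) (.mul (.r 2 534 744 2) (.v 0))) (.mul (.mul (.c 86) (.v 1)) (.add (.mul (.mul (.c 1048576) (.r 2 2 744 2)) (.w 1 2)) (.mul (.mul (.c 86) (.v 1)) (.add (.mul (.mul (.c 1024) (.r 2 3 744 2)) (.w 1 1)) (.mul (.mul (.c 86) (.v 1)) (.r 2 4 744 2))))))) (.sub (.c 0) (.mul (.c 12) (.c 1)))) (.mul (.mul (.add (.mul (.r 2 535 744 2) (.q 0)) (.mul (.r 2 536 744 2) (.v 0))) (.mul (.mul (.c 86) (.v 1)) (.add (.mul (.mul (.c 1048576) (.r 2 2 744 2)) (.w 1 2)) (.mul (.mul (.c 86) (.v 1)) (.add (.mul (.mul (.c 1024) (.r 2 3 744 2)) (.w 1 1)) (.mul (.mul (.c 86) (.v 1)) (.r 2 4 744 2))))))) (.mul (.c 144) (.c 1))))))))) (.w 0 1)) (.w 2 1))), 131, 3, 4, 4, 1⟩,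
  ⟨(.sub (.sub (.mul (.mul (.mul (.c 0) (.w 0 1)) (.w 1 5)) (.w 2 2)) (.mul (.mul (.mul (.c 86) (.v 1)) (.add (.mul (.mul (.c 1048576) (.r 2 2 744 2)) (.w 1 2)) (.mul (.mul (.c 86) (.v 1)) (.add (.mul (.mul (.c 1024) (.r 2 3 744 2)) (.w 1 1)) (.mul (.mul (.c 86) (.v 1)) (.r 2 4 744 2)))))) (.mul (.u 0 [1]) (.add (.mul (.mul (.add (.mul (.mul (.c 1024) (.s 2 37 744 2)) (.w 0 1)) (.mul (.mul (.c 171) (.v 0)) (.s 2 40 744 2))) (.mul (.c 86) (.v 1))) (.w 1 1)) (.mul (.mul (.s 2 39 744 2) (.mul (.mul (.c 86) (.v 1)) (.mul (.c 86) (.v 1)))) (.w 0 1)))))) (.add (.mul (.mul (.c 1024) (.mul (.mul (.add (.mul (.r 2 527 744 2) (.q 0)) (.mul (.r 2 528 744 2) (.v 0))) (.mul (.mul (.c 86) (.v 1)) (.add (.mul (.mul (.c 1048576) (.r 2 2 744 2)) (.w 1 2)) (.mul (.mul (.c 86) (.v 1)) (.add (.mul (.mul (.c 1024) (.r 2 3 744 2)) (.w 1 1)) (.mul (.mul (.c 86) (.v 1)) (.r 2 4 744 2))))))) (.sub (.mul (.c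 0) (.w 1 1)) (.mul (.c 12) (.mul (.c 86) (.v 1)))))) (.w 1 1)) (.add (.mul (.mul (.add (.mul (.r 2 531 744 2) (.q 0)) (.mul (.r 2 532 744 2) (.v 0))) (.mul (.mul (.c 86) (.v 1)) (.add (.mul (.mul (.c 1048576) (.r 2 2 744 2)) (.w 1 2)) (.mul (.mul (.c 86) (.v 1)) (.add (.mul (.mul (.c 1024) (.r 2 3 744 2)) (.w 1 1)) (.mul (.mul (.c 86) (.v 1)) (.r 2 4 744 2))))))) (.sub (.mul (.mul (.c 1024) (.mul (.c 86) (.v 1))) (.w 1 1)) (.mul (.c 12) (.mul (.mul (.c 86) (.v 1)) (.mul (.c 86) (.v 1)))))) (.add (.mul (.mul (.add (.mul (.r 2 533 744 2) (.q 0)) (.mul (.r 2 534 744 2) (.v 0))) (.mul (.mul (.c 86) (.v 1)) (.add (.mul (.mul (.c 1048576) (.r 2 2 744 2)) (.w 1 2)) (.mul (.mul (.c 86) (.v 1)) (.add (.mul (.mul (.c 1024) (.r 2 3 744 2)) (.w 1 1)) (.mul (.mul (.c 86) (.v 1)) (.r 2 4 744 2))))))) (.sub (.mul (.c 0) (.w 1 2)) (.mul (.c 12) (.mul (.mul (.c 86) (.v 1)) (.mul (.c 86) (.v 1)))))) (.add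 (.mul (.mul (.add (.mul (.r 2 535 744 2) (.q 0)) (.mul (.r 2 536 744 2) (.v 0))) (.mul (.mul (.c 86) (.v 1)) (.add (.mul (.mul (.c 1048576) (.r 2 2 744 2)) (.w 1 2)) (.mul (.mul (.c 86) (.v 1)) (.add (.mul (.mul (.c 1024) (.r 2 3 744 2)) (.w 1 1)) (.mul (.mul (.c 86) (.v 1)) (.r 2 4 744 2))))))) (.sub (.mul (.c 144) (.mul (.mul (.c 86) (.v 1)) (.mul (.c 86) (.v 1)))) (.mul (.mul (.c 1024) (.mul (.c 12) (.mul (.c 86) (.v 1)))) (.w 1 1)))) (.mul (.mul (.c 1048576) (.mul (.mul (.add (.mul (.r 2 537 744 2) (.q 0)) (.mul (.r 2 538 744 2) (.v 0))) (.mul (.mul (.c 86) (.v 1)) (.add (.mul (.mul (.c 1048576) (.r 2 2 744 2)) (.w 1 2)) (.mul (.mul (.c 86) (.v 1)) (.add (.mul (.mul (.c 1024) (.r 2 3 744 2)) (.w 1 1)) (.mul (.mul (.c 86) (.v 1)) (.r 2 4 744 2))))))) (.sub (.c 0) (.mul (.c 12) (.c 1))))) (.w 1 2))))))), 122, 2, 6, 3, 1⟩,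
  ⟨(.sub (.mul (.mul (.mul (.c 86) (.v 1)) (.add (.mul (.c 1024) (.add (.mul (.add (.mul (.mul (.c 1024) (.s 2 179 744 2)) (.w 0 1)) (.mul (.s 2 180 744 2) (.mul (.c 171) (.v 0)))) (.w 1 1)) (.mul (.mul (.s 2 181 744 2) (.mul (.c 86) (.v 1))) (.w 0 1)))) (.mul (.s 2 182 744 2) (.mul (.mul (.c 86) (.v 1)) (.mul (.c 171) (.v 0)))))) (.w 1 1)) (.mul (.mul (.mul (.mul (.c 86) (.v 1)) (.add (.mul (.mul (.c 1048576) (.r 2 2 744 2)) (.w 1 2)) (.mul (.mul (.c 86) (.v 1)) (.add (.mul (.mul (.c 1024) (.r 2 3 744 2)) (.w 1 1)) (.mul (.mul (.c 86) (.v 1)) (.r 2 4 744 2)))))) (.u 0 [1])) (.w 0 1))), 64, 2, 4, 2, 1⟩,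
  ⟨(.sub (.mul (.sub (.mul (.mul (.mul (.mul (.c 295147905179352825856) (.mul (.mul (.c 86) (.v 1)) (.add (.mul (.c 1024) (.add (.mul (.add (.mul (.mul (.c 1024) (.s 2 183 744 2)) (.w 0 1)) (.mul (.s 2 184 744 2) (.mul (.c 171) (.v 0)))) (.w 1 1)) (.mul (.mul (.s 2 185 744 2) (.mul (.c 86) (.v 1))) (.w 0 1)))) (.mul (.s 2 186 744 2) (.mul (.mul (.c 86) (.v 1)) (.mul (.c 171) (.v 0))))))) (.w 0 3)) (.w 1 2)) (.w 2 2)) (.mul (.mul (.mul (.c 86) (.v 1)) (.add (.mul (.mul (.c 1048576) (.r 2 2 744 2)) (.w 1 2)) (.mul (.mul (.c 86) (.v 1)) (.add (.mul (.mul (.c 1024) (.r 2 3 744 2)) (.w 1 1)) (.mul (.mul (.c 86) (.v 1)) (.r 2 4 744 2)))))) (.mul (.add (.mul (.q 2) (.r 0 5 1 3)) (.mul (.v 2) (.r 0 749 1 3))) (.add (.mul (.mul (.c 1024) (.mul (.s 2 73 744 2) (.add (.mul (.mul (.c 767) (.w 0 1)) (.w 1 1)) (.add (.mul (.mul (.c 171) (.q 0)) (.w 1 1)) (.mul (.mul (.c 86) (.q 1)) (.w 0 1)))))) (.w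 0 1)) (.mul (.s 2 74 744 2) (.mul (.mul (.c 171) (.v 0)) (.add (.mul (.mul (.c 767) (.w 0 1)) (.w 1 1)) (.add (.mul (.mul (.c 171) (.q 0)) (.w 1 1)) (.mul (.mul (.c 86) (.q 1)) (.w 0 1)))))))))) (.w 1 1)) (.mul (.mul (.mul (.c 16777216) (.add (.mul (.mul (.c 1024) (.mul (.mul (.add (.mul (.r 2 539 744 2) (.q 0)) (.mul (.r 2 540 744 2) (.v 0))) (.mul (.mul (.c 86) (.v 1)) (.add (.mul (.mul (.c 1048576) (.r 2 2 744 2)) (.w 1 2)) (.mul (.mul (.c 86) (.v 1)) (.add (.mul (.mul (.c 1024) (.r 2 3 744 2)) (.w 1 1)) (.mul (.mul (.c 86) (.v 1)) (.r 2 4 744 2))))))) (.mul (.c 2) (.add (.mul (.mul (.c 767) (.w 0 1)) (.w 1 1)) (.add (.mul (.mul (.c 171) (.q 0)) (.w 1 1)) (.mul (.mul (.c 86) (.q 1)) (.w 0 1))))))) (.w 1 1)) (.add (.mul (.mul (.c 1024) (.mul (.mul (.add (.mul (.r 2 541 744 2) (.q 0)) (.mul (.r 2 542 744 2) (.v 0))) (.mul (.mul (.c 86) (.v 1)) (.add (.mul (.mul (.c 1048576) (.r 2 2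 744 2)) (.w 1 2)) (.mul (.mul (.c 86) (.v 1)) (.add (.mul (.mul (.c 1024) (.r 2 3 744 2)) (.w 1 1)) (.mul (.mul (.c 86) (.v 1)) (.r 2 4 744 2))))))) (.add (.mul (.mul (.c 767) (.w 0 1)) (.w 1 1)) (.add (.mul (.mul (.c 171) (.q 0)) (.w 1 1)) (.mul (.mul (.c 86) (.q 1)) (.w 0 1)))))) (.w 1 1)) (.add (.mul (.mul (.c 1024) (.mul (.mul (.add (.mul (.r 2 547 744 2) (.q 0)) (.mul (.r 2 548 744 2) (.v 0))) (.mul (.mul (.c 86) (.v 1)) (.add (.mul (.mul (.c 1048576) (.r 2 2 744 2)) (.w 1 2)) (.mul (.mul (.c 86) (.v 1)) (.add (.mul (.mul (.c 1024) (.r 2 3 744 2)) (.w 1 1)) (.mul (.mul (.c 86) (.v 1)) (.r 2 4 744 2))))))) (.mul (.c 2) (.add (.mul (.mul (.c 767) (.w 0 1)) (.w 1 1)) (.add (.mul (.mul (.c 171) (.q 0)) (.w 1 1)) (.mul (.mul (.c 86) (.q 1)) (.w 0 1))))))) (.w 1 1)) (.add (.mul (.mul (.c 1024) (.mul (.mul (.add (.mul (.r 2 549 744 2) (.q 0)) (.mul (.r 2 550 744 2) (.v 0))) (.mul (.mul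 (.c 86) (.v 1)) (.add (.mul (.mul (.c 1048576) (.r 2 2 744 2)) (.w 1 2)) (.mul (.mul (.c 86) (.v 1)) (.add (.mul (.mul (.c 1024) (.r 2 3 744 2)) (.w 1 1)) (.mul (.mul (.c 86) (.v 1)) (.r 2 4 744 2))))))) (.mul (.c 2) (.add (.mul (.c 853) (.w 0 1)) (.mul (.c 171) (.q 0)))))) (.w 1 2)) (.add (.mul (.mul (.add (.mul (.r 2 551 744 2) (.q 0)) (.mul (.r 2 552 744 2) (.v 0))) (.mul (.mul (.c 86) (.v 1)) (.add (.mul (.mul (.c 1048576) (.r 2 2 744 2)) (.w 1 2)) (.mul (.mul (.c 86) (.v 1)) (.add (.mul (.mul (.c 1024) (.r 2 3 744 2)) (.w 1 1)) (.mul (.mul (.c 86) (.v 1)) (.r 2 4 744 2))))))) (.sub (.mul (.mul (.c 1024) (.add (.mul (.c 853) (.w 0 1)) (.mul (.c 171) (.q 0)))) (.w 1 2)) (.mul (.mul (.c 12) (.mul (.mul (.c 86) (.v 1)) (.mul (.c 86) (.v 1)))) (.w 0 1)))) (.add (.mul (.mul (.mul (.add (.mul (.r 2 555 744 2) (.q 0)) (.mul (.r 2 556 744 2) (.v 0))) (.mul (.mul (.c 86) (.v 1)) (.add (.mul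 (.mul (.c 1048576) (.r 2 2 744 2)) (.w 1 2)) (.mul (.mul (.c 86) (.v 1)) (.add (.mul (.mul (.c 1024) (.r 2 3 744 2)) (.w 1 1)) (.mul (.mul (.c 86) (.v 1)) (.r 2 4 744 2))))))) (.mul (.c 2) (.mul (.mul (.c 86) (.v 1)) (.mul (.c 86) (.v 1))))) (.w 0 1)) (.add (.mul (.mul (.add (.mul (.r 2 557 744 2) (.q 0)) (.mul (.r 2 558 744 2) (.v 0))) (.mul (.mul (.c 86) (.v 1)) (.add (.mul (.mul (.c 1048576) (.r 2 2 744 2)) (.w 1 2)) (.mul (.mul (.c 86) (.v 1)) (.add (.mul (.mul (.c 1024) (.r 2 3 744 2)) (.w 1 1)) (.mul (.mul (.c 86) (.v 1)) (.r 2 4 744 2))))))) (.sub (.mul (.mul (.c 1024) (.mul (.c 2) (.add (.mul (.c 853) (.w 0 1)) (.mul (.c 171) (.q 0))))) (.w 1 2)) (.mul (.mul (.c 24) (.mul (.mul (.c 86) (.v 1)) (.mul (.c 86) (.v 1)))) (.w 0 1)))) (.mul (.mul (.mul (.c 1048576) (.mul (.mul (.add (.mul (.r 2 559 744 2) (.q 0)) (.mul (.r 2 560 744 2) (.v 0))) (.mul (.mul (.c 86) (.v 1)) (.add (.mul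 (.mul (.c 1048576) (.r 2 2 744 2)) (.w 1 2)) (.mul (.mul (.c 86) (.v 1)) (.add (.mul (.mul (.c 1024) (.r 2 3 744 2)) (.w 1 1)) (.mul (.mul (.c 86) (.v 1)) (.r 2 4 744 2))))))) (.c 2))) (.w 0 1)) (.w 1 2)))))))))) (.w 0 2)) (.w 2 1))), 154, 5, 6, 4, 1⟩,
  ⟨(.sub (.sub (.mul (.mul (.mul (.c 0) (.w 0 3)) (.w 1 3)) (.w 2 3)) (.mul (.mul (.mul (.c 86) (.v 1)) (.add (.mul (.mul (.c 1048576) (.r 2 2 744 2)) (.w 1 2)) (.mul (.mul (.c 86) (.v 1)) (.add (.mul (.mul (.c 1024) (.r 2 3 744 2)) (.w 1 1)) (.mul (.mul (.c 86) (.v 1)) (.r 2 4 744 2)))))) (.mul (.add (.mul (.q 2) (.r 0 5 1 3)) (.mul (.v 2) (.r 0 749 1 3))) (.mul (.add (.mul (.mul (.c 1024) (.s 2 75 744 2)) (.w 0 1)) (.mul (.mul (.c 171) (.v 0)) (.s 2 78 744 2))) (.c 1))))) (.mul (.mul (.mul (.c 17179869184) (.add (.mul (.mul (.add (.mul (.r 2 539 744 2) (.q 0)) (.mul (.r 2 540 744 2) (.v 0))) (.mul (.mul (.c 86) (.v 1)) (.add (.mul (.mul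 (.c 1048576) (.r 2 2 744 2)) (.w 1 2)) (.mul (.mul (.c 86) (.v 1)) (.add (.mul (.mul (.c 1024) (.r 2 3 744 2)) (.w 1 1)) (.mul (.mul (.c 86) (.v 1)) (.r 2 4 744 2))))))) (.sub (.c 0) (.mul (.c 12) (.c 1)))) (.add (.mul (.mul (.add (.mul (.r 2 543 744 2) (.q 0)) (.mul (.r 2 544 744 2) (.v 0))) (.mul (.mul (.c 86) (.v 1)) (.add (.mul (.mul (.c 1048576) (.r 2 2 744 2)) (.w 1 2)) (.mul (.mul (.c 86) (.v 1)) (.add (.mul (.mul (.c 1024) (.r 2 3 744 2)) (.w 1 1)) (.mul (.mul (.c 86) (.v 1)) (.r 2 4 744 2))))))) (.c 1)) (.add (.mul (.mul (.add (.mul (.r 2 547 744 2) (.q 0)) (.mul (.r 2 548 744 2) (.v 0))) (.mul (.mul (.c 86) (.v 1)) (.add (.mul (.mul (.c 1048576) (.r 2 2 744 2)) (.w 1 2)) (.mul (.mul (.c 86) (.v 1)) (.add (.mul (.mul (.c 1024) (.r 2 3 744 2)) (.w 1 1)) (.mul (.mul (.c 86) (.v 1)) (.r 2 4 744 2))))))) (.sub (.c 0) (.mul (.c 12) (.c 1)))) (.add (.mul (.mul (.add (.mul (.r 2 549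 744 2) (.q 0)) (.mul (.r 2 550 744 2) (.v 0))) (.mul (.mul (.c 86) (.v 1)) (.add (.mul (.mul (.c 1048576) (.r 2 2 744 2)) (.w 1 2)) (.mul (.mul (.c 86) (.v 1)) (.add (.mul (.mul (.c 1024) (.r 2 3 744 2)) (.w 1 1)) (.mul (.mul (.c 86) (.v 1)) (.r 2 4 744 2))))))) (.sub (.c 0) (.mul (.c 12) (.c 1)))) (.add (.mul (.mul (.add (.mul (.r 2 553 744 2) (.q 0)) (.mul (.r 2 554 744 2) (.v 0))) (.mul (.mul (.c 86) (.v 1)) (.add (.mul (.mul (.c 1048576) (.r 2 2 744 2)) (.w 1 2)) (.mul (.mul (.c 86) (.v 1)) (.add (.mul (.mul (.c 1024) (.r 2 3 744 2)) (.w 1 1)) (.mul (.mul (.c 86) (.v 1)) (.r 2 4 744 2))))))) (.c 1)) (.mul (.mul (.add (.mul (.r 2 557 744 2) (.q 0)) (.mul (.r 2 558 744 2) (.v 0))) (.mul (.mul (.c 86) (.v 1)) (.add (.mul (.mul (.c 1048576) (.r 2 2 744 2)) (.w 1 2)) (.mul (.mul (.c 86) (.v 1)) (.add (.mul (.mul (.c 1024) (.r 2 3 744 2)) (.w 1 1)) (.mul (.mul (.c 86) (.v 1)) (.r 2 4 744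 2))))))) (.sub (.c 0) (.mul (.c 12) (.c 1)))))))))) (.w 0 2)) (.w 2 1))), 141, 4, 4, 4, 1⟩,
  ⟨(.sub (.sub (.mul (.mul (.mul (.c 0) (.w 0 2)) (.w 1 3)) (.w 2 3)) (.mul (.mul (.mul (.c 86) (.v 1)) (.add (.mul (.mul (.c 1048576) (.r 2 2 744 2)) (.w 1 2)) (.mul (.mul (.c 86) (.v 1)) (.add (.mul (.mul (.c 1024) (.r 2 3 744 2)) (.w 1 1)) (.mul (.mul (.c 86) (.v 1)) (.r 2 4 744 2)))))) (.mul (.add (.mul (.q 2) (.r 0 5 1 3)) (.mul (.v 2) (.r 0 749 1 3))) (.mul (.s 2 76 744 2) (.c 1))))) (.mul (.mul (.mul (.c 16777216) (.add (.mul (.mul (.add (.mul (.r 2 541 744 2) (.q 0)) (.mul (.r 2 542 744 2) (.v 0))) (.mul (.mul (.c 86) (.v 1)) (.add (.mul (.mul (.c 1048576) (.r 2 2 744 2)) (.w 1 2)) (.mul (.mul (.c 86) (.v 1)) (.add (.mul (.mul (.c 1024) (.r 2 3 744 2)) (.w 1 1)) (.mul (.mul (.c 86) (.v 1)) (.r 2 4 744 2))))))) (.sub (.c 0) (.mul (.c 12) (.c 1)))) (.add (.mul (.mul (.add (.mul (.r 2 545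 744 2) (.q 0)) (.mul (.r 2 546 744 2) (.v 0))) (.mul (.mul (.c 86) (.v 1)) (.add (.mul (.mul (.c 1048576) (.r 2 2 744 2)) (.w 1 2)) (.mul (.mul (.c 86) (.v 1)) (.add (.mul (.mul (.c 1024) (.r 2 3 744 2)) (.w 1 1)) (.mul (.mul (.c 86) (.v 1)) (.r 2 4 744 2))))))) (.mul (.c 2) (.c 1))) (.add (.mul (.mul (.add (.mul (.r 2 547 744 2) (.q 0)) (.mul (.r 2 548 744 2) (.v 0))) (.mul (.mul (.c 86) (.v 1)) (.add (.mul (.mul (.c 1048576) (.r 2 2 744 2)) (.w 1 2)) (.mul (.mul (.c 86) (.v 1)) (.add (.mul (.mul (.c 1024) (.r 2 3 744 2)) (.w 1 1)) (.mul (.mul (.c 86) (.v 1)) (.r 2 4 744 2))))))) (.sub (.c 0) (.mul (.c 24) (.c 1)))) (.add (.mul (.mul (.add (.mul (.r 2 551 744 2) (.q 0)) (.mul (.r 2 552 744 2) (.v 0))) (.mul (.mul (.c 86) (.v 1)) (.add (.mul (.mul (.c 1048576) (.r 2 2 744 2)) (.w 1 2)) (.mul (.mul (.c 86) (.v 1)) (.add (.mul (.mul (.c 1024) (.r 2 3 744 2)) (.w 1 1)) (.mul (.mul (.c 86)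 (.v 1)) (.r 2 4 744 2))))))) (.sub (.c 0) (.mul (.c 12) (.c 1)))) (.add (.mul (.mul (.add (.mul (.r 2 555 744 2) (.q 0)) (.mul (.r 2 556 744 2) (.v 0))) (.mul (.mul (.c 86) (.v 1)) (.add (.mul (.mul (.c 1048576) (.r 2 2 744 2)) (.w 1 2)) (.mul (.mul (.c 86) (.v 1)) (.add (.mul (.mul (.c 1024) (.r 2 3 744 2)) (.w 1 1)) (.mul (.mul (.c 86) (.v 1)) (.r 2 4 744 2))))))) (.mul (.c 2) (.c 1))) (.mul (.mul (.add (.mul (.r 2 557 744 2) (.q 0)) (.mul (.r 2 558 744 2) (.v 0))) (.mul (.mul (.c 86) (.v 1)) (.add (.mul (.mul (.c 1048576) (.r 2 2 744 2)) (.w 1 2)) (.mul (.mul (.c 86) (.v 1)) (.add (.mul (.mul (.c 1024) (.r 2 3 744 2)) (.w 1 1)) (.mul (.mul (.c 86) (.v 1)) (.r 2 4 744 2))))))) (.sub (.c 0) (.mul (.c 24) (.c 1)))))))))) (.w 0 1)) (.w 2 1))), 130, 3, 4, 4, 1⟩,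
  ⟨(.sub (.sub (.mul (.mul (.mul (.c 0) (.w 0 2)) (.w 1 3)) (.w 2 3)) (.mul (.mul (.mul (.c 86) (.v 1)) (.add (.mul (.mul (.c 1048576) (.r 2 2 744 2)) (.w 1 2)) (.mul (.mul (.c 86) (.v 1)) (.add (.mul (.mul (.c 1024) (.r 2 3 744 2)) (.w 1 1)) (.mul (.mul (.c 86) (.v 1)) (.r 2 4 744 2)))))) (.mul (.add (.mul (.q 2) (.r 0 5 1 3)) (.mul (.v 2) (.r 0 749 1 3))) (.mul (.s 2 77 744 2) (.c 1))))) (.mul (.mul (.mul (.c 16777216) (.add (.mul (.mul (.add (.mul (.r 2 543 744 2) (.q 0)) (.mul (.r 2 544 744 2) (.v 0))) (.mul (.mul (.c 86) (.v 1)) (.add (.mul (.mul (.c 1048576) (.r 2 2 744 2)) (.w 1 2)) (.mul (.mul (.c 86) (.v 1)) (.add (.mul (.mul (.c 1024) (.r 2 3 744 2)) (.w 1 1)) (.mul (.mul (.c 86) (.v 1)) (.r 2 4 744 2))))))) (.sub (.c 0) (.mul (.c 12) (.c 1)))) (.add (.mul (.mul (.add (.mul (.r 2 545 744 2) (.q 0)) (.mul (.r 2 546 744 2) (.v 0))) (.mul (.mul (.c 86) (.v 1)) (.add (.mul (.mul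 (.c 1048576) (.r 2 2 744 2)) (.w 1 2)) (.mul (.mul (.c 86) (.v 1)) (.add (.mul (.mul (.c 1024) (.r 2 3 744 2)) (.w 1 1)) (.mul (.mul (.c 86) (.v 1)) (.r 2 4 744 2))))))) (.sub (.c 0) (.mul (.c 12) (.c 1)))) (.add (.mul (.mul (.add (.mul (.r 2 547 744 2) (.q 0)) (.mul (.r 2 548 744 2) (.v 0))) (.mul (.mul (.c 86) (.v 1)) (.add (.mul (.mul (.c 1048576) (.r 2 2 744 2)) (.w 1 2)) (.mul (.mul (.c 86) (.v 1)) (.add (.mul (.mul (.c 1024) (.r 2 3 744 2)) (.w 1 1)) (.mul (.mul (.c 86) (.v 1)) (.r 2 4 744 2))))))) (.mul (.c 144) (.c 1))) (.add (.mul (.mul (.add (.mul (.r 2 553 744 2) (.q 0)) (.mul (.r 2 554 744 2) (.v 0))) (.mul (.mul (.c 86) (.v 1)) (.add (.mul (.mul (.c 1048576) (.r 2 2 744 2)) (.w 1 2)) (.mul (.mul (.c 86) (.v 1)) (.add (.mul (.mul (.c 1024) (.r 2 3 744 2)) (.w 1 1)) (.mul (.mul (.c 86) (.v 1)) (.r 2 4 744 2))))))) (.sub (.c 0) (.mul (.c 12) (.c 1)))) (.add (.mul (.mul (.add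 (.mul (.r 2 555 744 2) (.q 0)) (.mul (.r 2 556 744 2) (.v 0))) (.mul (.mul (.c 86) (.v 1)) (.add (.mul (.mul (.c 1048576) (.r 2 2 744 2)) (.w 1 2)) (.mul (.mul (.c 86) (.v 1)) (.add (.mul (.mul (.c 1024) (.r 2 3 744 2)) (.w 1 1)) (.mul (.mul (.c 86) (.v 1)) (.r 2 4 744 2))))))) (.sub (.c 0) (.mul (.c 12) (.c 1)))) (.mul (.mul (.add (.mul (.r 2 557 744 2) (.q 0)) (.mul (.r 2 558 744 2) (.v 0))) (.mul (.mul (.c 86) (.v 1)) (.add (.mul (.mul (.c 1048576) (.r 2 2 744 2)) (.w 1 2)) (.mul (.mul (.c 86) (.v 1)) (.add (.mul (.mul (.c 1024) (.r 2 3 744 2)) (.w 1 1)) (.mul (.mul (.c 86) (.v 1)) (.r 2 4 744 2))))))) (.mul (.c 144) (.c 1))))))))) (.w 0 1)) (.w 2 1))), 131, 3, 4, 4, 1⟩,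
  ⟨(.sub (.mul (.mul (.mul (.c 0) (.w 0 1)) (.w 1 5)) (.w 2 2)) (.add (.mul (.mul (.c 1024) (.mul (.mul (.add (.mul (.r 2 549 744 2) (.q 0)) (.mul (.r 2 550 744 2) (.v 0))) (.mul (.mul (.c 86) (.v 1)) (.add (.mul (.mul (.c 1048576) (.r 2 2 744 2)) (.w 1 2)) (.mul (.mul (.c 86) (.v 1)) (.add (.mul (.mul (.c 1024) (.r 2 3 744 2)) (.w 1 1)) (.mul (.mul (.c 86) (.v 1)) (.r 2 4 744 2))))))) (.sub (.mul (.c 0) (.w 1 1)) (.mul (.c 12) (.mul (.c 86) (.v 1)))))) (.w 1 1)) (.add (.mul (.mul (.add (.mul (.r 2 553 744 2) (.q 0)) (.mul (.r 2 554 744 2) (.v 0))) (.mul (.mul (.c 86) (.v 1)) (.add (.mul (.mul (.c 1048576) (.r 2 2 744 2)) (.w 1 2)) (.mul (.mul (.c 86) (.v 1)) (.add (.mul (.mul (.c 1024) (.r 2 3 744 2)) (.w 1 1)) (.mul (.mul (.c 86) (.v 1)) (.r 2 4 744 2))))))) (.sub (.mul (.mul (.c 1024) (.mul (.c 86) (.v 1))) (.w 1 1)) (.mul (.c 12) (.mul (.mul (.c 86) (.v 1)) (.mul (.c 86) (.v 1))))))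 (.add (.mul (.mul (.add (.mul (.r 2 555 744 2) (.q 0)) (.mul (.r 2 556 744 2) (.v 0))) (.mul (.mul (.c 86) (.v 1)) (.add (.mul (.mul (.c 1048576) (.r 2 2 744 2)) (.w 1 2)) (.mul (.mul (.c 86) (.v 1)) (.add (.mul (.mul (.c 1024) (.r 2 3 744 2)) (.w 1 1)) (.mul (.mul (.c 86) (.v 1)) (.r 2 4 744 2))))))) (.sub (.mul (.c 0) (.w 1 2)) (.mul (.c 12) (.mul (.mul (.c 86) (.v 1)) (.mul (.c 86) (.v 1)))))) (.add (.mul (.mul (.add (.mul (.r 2 557 744 2) (.q 0)) (.mul (.r 2 558 744 2) (.v 0))) (.mul (.mul (.c 86) (.v 1)) (.add (.mul (.mul (.c 1048576) (.r 2 2 744 2)) (.w 1 2)) (.mul (.mul (.c 86) (.v 1)) (.add (.mul (.mul (.c 1024) (.r 2 3 744 2)) (.w 1 1)) (.mul (.mul (.c 86) (.v 1)) (.r 2 4 744 2))))))) (.sub (.mul (.c 144) (.mul (.mul (.c 86) (.v 1)) (.mul (.c 86) (.v 1)))) (.mul (.mul (.c 1024) (.mul (.c 12) (.mul (.c 86) (.v 1)))) (.w 1 1)))) (.mul (.mul (.c 1048576) (.mul (.mul (.add (.mul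 (.r 2 559 744 2) (.q 0)) (.mul (.r 2 560 744 2) (.v 0))) (.mul (.mul (.c 86) (.v 1)) (.add (.mul (.mul (.c 1048576) (.r 2 2 744 2)) (.w 1 2)) (.mul (.mul (.c 86) (.v 1)) (.add (.mul (.mul (.c 1024) (.r 2 3 744 2)) (.w 1 1)) (.mul (.mul (.c 86) (.v 1)) (.r 2 4 744 2))))))) (.sub (.c 0) (.mul (.c 12) (.c 1))))) (.w 1 2))))))), 122, 2, 6, 3, 1⟩,
  ⟨(.sub (.sub (.mul (.mul (.mul (.mul (.c 590295810358705651712) (.mul (.mul (.c 86) (.v 1)) (.add (.mul (.c 1024) (.add (.mul (.add (.mul (.mul (.c 1024) (.s 2 187 744 2)) (.w 0 1)) (.mul (.s 2 188 744 2) (.mul (.c 171) (.v 0)))) (.w 1 1)) (.mul (.mul (.s 2 189 744 2) (.mul (.c 86) (.v 1))) (.w 0 1)))) (.mul (.s 2 190 744 2) (.mul (.mul (.c 86) (.v 1)) (.mul (.c 171) (.v 0))))))) (.w 0 3)) (.w 1 3)) (.w 2 2)) (.mul (.mul (.mul (.c 86) (.v 1)) (.add (.mul (.mul (.c 1048576) (.r 2 2 744 2)) (.w 1 2)) (.mul (.mul (.c 86) (.v 1)) (.add (.mul (.mul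 (.c 1024) (.r 2 3 744 2)) (.w 1 1)) (.mul (.mul (.c 86) (.v 1)) (.r 2 4 744 2)))))) (.mul (.add (.mul (.q 2) (.r 0 5 1 3)) (.mul (.v 2) (.r 0 749 1 3))) (.mul (.c 1) (.add (.mul (.add (.mul (.mul (.c 1024) (.mul (.s 2 73 744 2) (.add (.mul (.mul (.c 767) (.w 0 1)) (.w 1 1)) (.add (.mul (.mul (.c 171) (.q 0)) (.w 1 1)) (.mul (.mul (.c 86) (.q 1)) (.w 0 1)))))) (.w 0 1)) (.mul (.s 2 74 744 2) (.mul (.mul (.c 171) (.v 0)) (.add (.mul (.mul (.c 767) (.w 0 1)) (.w 1 1)) (.add (.mul (.mul (.c 171) (.q 0)) (.w 1 1)) (.mul (.mul (.c 86) (.q 1)) (.w 0 1))))))) (.w 1 1)) (.add (.mul (.add (.mul (.mul (.c 1024) (.mul (.s 2 73 744 2) (.add (.mul (.c 853) (.w 0 1)) (.mul (.c 171) (.q 0))))) (.w 0 1)) (.mul (.s 2 74 744 2) (.mul (.mul (.c 171) (.v 0)) (.add (.mul (.c 853) (.w 0 1)) (.mul (.c 171) (.q 0)))))) (.w 1 2)) (.mul (.mul (.s 2 76 744 2) (.mul (.mul (.c 86) (.v 1)) (.mul (.c 86) (.v 1))))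 (.w 0 2)))))))) (.mul (.mul (.mul (.c 33554432) (.add (.mul (.mul (.c 1024) (.mul (.mul (.add (.mul (.r 2 561 744 2) (.q 0)) (.mul (.r 2 562 744 2) (.v 0))) (.mul (.mul (.c 86) (.v 1)) (.add (.mul (.mul (.c 1048576) (.r 2 2 744 2)) (.w 1 2)) (.mul (.mul (.c 86) (.v 1)) (.add (.mul (.mul (.c 1024) (.r 2 3 744 2)) (.w 1 1)) (.mul (.mul (.c 86) (.v 1)) (.r 2 4 744 2))))))) (.mul (.c 2) (.add (.mul (.mul (.c 767) (.w 0 1)) (.w 1 1)) (.add (.mul (.mul (.c 171) (.q 0)) (.w 1 1)) (.mul (.mul (.c 86) (.q 1)) (.w 0 1))))))) (.w 1 1)) (.add (.mul (.mul (.c 1024) (.mul (.mul (.add (.mul (.r 2 563 744 2) (.q 0)) (.mul (.r 2 564 744 2) (.v 0))) (.mul (.mul (.c 86) (.v 1)) (.add (.mul (.mul (.c 1048576) (.r 2 2 744 2)) (.w 1 2)) (.mul (.mul (.c 86) (.v 1)) (.add (.mul (.mul (.c 1024) (.r 2 3 744 2)) (.w 1 1)) (.mul (.mul (.c 86) (.v 1)) (.r 2 4 744 2))))))) (.add (.mul (.mul (.c 767) (.w 0 1)) (.w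 1 1)) (.add (.mul (.mul (.c 171) (.q 0)) (.w 1 1)) (.mul (.mul (.c 86) (.q 1)) (.w 0 1)))))) (.w 1 1)) (.add (.mul (.mul (.c 1024) (.mul (.mul (.add (.mul (.r 2 569 744 2) (.q 0)) (.mul (.r 2 570 744 2) (.v 0))) (.mul (.mul (.c 86) (.v 1)) (.add (.mul (.mul (.c 1048576) (.r 2 2 744 2)) (.w 1 2)) (.mul (.mul (.c 86) (.v 1)) (.add (.mul (.mul (.c 1024) (.r 2 3 744 2)) (.w 1 1)) (.mul (.mul (.c 86) (.v 1)) (.r 2 4 744 2))))))) (.mul (.c 2) (.add (.mul (.mul (.c 767) (.w 0 1)) (.w 1 1)) (.add (.mul (.mul (.c 171) (.q 0)) (.w 1 1)) (.mul (.mul (.c 86) (.q 1)) (.w 0 1))))))) (.w 1 1)) (.add (.mul (.mul (.c 1024) (.mul (.mul (.add (.mul (.r 2 571 744 2) (.q 0)) (.mul (.r 2 572 744 2) (.v 0))) (.mul (.mul (.c 86) (.v 1)) (.add (.mul (.mul (.c 1048576) (.r 2 2 744 2)) (.w 1 2)) (.mul (.mul (.c 86) (.v 1)) (.add (.mul (.mul (.c 1024) (.r 2 3 744 2)) (.w 1 1)) (.mul (.mul (.c 86) (.v 1)) (.r 2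 4 744 2))))))) (.mul (.c 2) (.add (.mul (.c 853) (.w 0 1)) (.mul (.c 171) (.q 0)))))) (.w 1 2)) (.add (.mul (.mul (.add (.mul (.r 2 573 744 2) (.q 0)) (.mul (.r 2 574 744 2) (.v 0))) (.mul (.mul (.c 86) (.v 1)) (.add (.mul (.mul (.c 1048576) (.r 2 2 744 2)) (.w 1 2)) (.mul (.mul (.c 86) (.v 1)) (.add (.mul (.mul (.c 1024) (.r 2 3 744 2)) (.w 1 1)) (.mul (.mul (.c 86) (.v 1)) (.r 2 4 744 2))))))) (.sub (.mul (.mul (.c 1024) (.add (.mul (.c 853) (.w 0 1)) (.mul (.c 171) (.q 0)))) (.w 1 2)) (.mul (.mul (.c 12) (.mul (.mul (.c 86) (.v 1)) (.mul (.c 86) (.v 1)))) (.w 0 1)))) (.add (.mul (.mul (.mul (.add (.mul (.r 2 577 744 2) (.q 0)) (.mul (.r 2 578 744 2) (.v 0))) (.mul (.mul (.c 86) (.v 1)) (.add (.mul (.mul (.c 1048576) (.r 2 2 744 2)) (.w 1 2)) (.mul (.mul (.c 86) (.v 1)) (.add (.mul (.mul (.c 1024) (.r 2 3 744 2)) (.w 1 1)) (.mul (.mul (.c 86) (.v 1)) (.r 2 4 744 2))))))) (.mul (.c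 2) (.mul (.mul (.c 86) (.v 1)) (.mul (.c 86) (.v 1))))) (.w 0 1)) (.add (.mul (.mul (.add (.mul (.r 2 579 744 2) (.q 0)) (.mul (.r 2 580 744 2) (.v 0))) (.mul (.mul (.c 86) (.v 1)) (.add (.mul (.mul (.c 1048576) (.r 2 2 744 2)) (.w 1 2)) (.mul (.mul (.c 86) (.v 1)) (.add (.mul (.mul (.c 1024) (.r 2 3 744 2)) (.w 1 1)) (.mul (.mul (.c 86) (.v 1)) (.r 2 4 744 2))))))) (.sub (.mul (.mul (.c 1024) (.mul (.c 2) (.add (.mul (.c 853) (.w 0 1)) (.mul (.c 171) (.q 0))))) (.w 1 2)) (.mul (.mul (.c 24) (.mul (.mul (.c 86) (.v 1)) (.mul (.c 86) (.v 1)))) (.w 0 1)))) (.mul (.mul (.mul (.c 1048576) (.mul (.mul (.add (.mul (.r 2 581 744 2) (.q 0)) (.mul (.r 2 582 744 2) (.v 0))) (.mul (.mul (.c 86) (.v 1)) (.add (.mul (.mul (.c 1048576) (.r 2 2 744 2)) (.w 1 2)) (.mul (.mul (.c 86) (.v 1)) (.add (.mul (.mul (.c 1024) (.r 2 3 744 2)) (.w 1 1)) (.mul (.mul (.c 86) (.v 1)) (.r 2 4 744 2))))))) (.c 2)))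 (.w 0 1)) (.w 1 2)))))))))) (.w 0 2)) (.w 2 1))), 155, 5, 6, 4, 1⟩,
  ⟨(.sub (.sub (.mul (.mul (.mul (.c 0) (.w 0 3)) (.w 1 3)) (.w 2 3)) (.mul (.mul (.mul (.c 86) (.v 1)) (.add (.mul (.mul (.c 1048576) (.r 2 2 744 2)) (.w 1 2)) (.mul (.mul (.c 86) (.v 1)) (.add (.mul (.mul (.c 1024) (.r 2 3 744 2)) (.w 1 1)) (.mul (.mul (.c 86) (.v 1)) (.r 2 4 744 2)))))) (.mul (.add (.mul (.q 2) (.r 0 5 1 3)) (.mul (.v 2) (.r 0 749 1 3))) (.mul (.c 1) (.add (.mul (.add (.mul (.mul (.c 1024) (.s 2 75 744 2)) (.w 0 1)) (.mul (.mul (.c 171) (.v 0)) (.s 2 78 744 2))) (.c 1)) (.mul (.add (.mul (.mul (.c 1024) (.s 2 75 744 2)) (.w 0 1)) (.mul (.mul (.c 171) (.v 0)) (.s 2 78 744 2))) (.c 1))))))) (.mul (.mul (.mul (.c 34359738368) (.add (.mul (.mul (.add (.mul (.r 2 561 744 2) (.q 0)) (.mul (.r 2 562 744 2) (.v 0))) (.mul (.mul (.c 86) (.v 1)) (.add (.mul (.mul (.c 1048576) (.r 2 2 744 2)) (.w 1 2)) (.mul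 (.mul (.c 86) (.v 1)) (.add (.mul (.mul (.c 1024) (.r 2 3 744 2)) (.w 1 1)) (.mul (.mul (.c 86) (.v 1)) (.r 2 4 744 2))))))) (.sub (.c 0) (.mul (.c 12) (.c 1)))) (.add (.mul (.mul (.add (.mul (.r 2 565 744 2) (.q 0)) (.mul (.r 2 566 744 2) (.v 0))) (.mul (.mul (.c 86) (.v 1)) (.add (.mul (.mul (.c 1048576) (.r 2 2 744 2)) (.w 1 2)) (.mul (.mul (.c 86) (.v 1)) (.add (.mul (.mul (.c 1024) (.r 2 3 744 2)) (.w 1 1)) (.mul (.mul (.c 86) (.v 1)) (.r 2 4 744 2))))))) (.c 1)) (.add (.mul (.mul (.add (.mul (.r 2 569 744 2) (.q 0)) (.mul (.r 2 570 744 2) (.v 0))) (.mul (.mul (.c 86) (.v 1)) (.add (.mul (.mul (.c 1048576) (.r 2 2 744 2)) (.w 1 2)) (.mul (.mul (.c 86) (.v 1)) (.add (.mul (.mul (.c 1024) (.r 2 3 744 2)) (.w 1 1)) (.mul (.mul (.c 86) (.v 1)) (.r 2 4 744 2))))))) (.sub (.c 0) (.mul (.c 12) (.c 1)))) (.add (.mul (.mul (.add (.mul (.r 2 571 744 2) (.q 0)) (.mul (.r 2 572 744 2) (.v 0)))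 (.mul (.mul (.c 86) (.v 1)) (.add (.mul (.mul (.c 1048576) (.r 2 2 744 2)) (.w 1 2)) (.mul (.mul (.c 86) (.v 1)) (.add (.mul (.mul (.c 1024) (.r 2 3 744 2)) (.w 1 1)) (.mul (.mul (.c 86) (.v 1)) (.r 2 4 744 2))))))) (.sub (.c 0) (.mul (.c 12) (.c 1)))) (.add (.mul (.mul (.add (.mul (.r 2 575 744 2) (.q 0)) (.mul (.r 2 576 744 2) (.v 0))) (.mul (.mul (.c 86) (.v 1)) (.add (.mul (.mul (.c 1048576) (.r 2 2 744 2)) (.w 1 2)) (.mul (.mul (.c 86) (.v 1)) (.add (.mul (.mul (.c 1024) (.r 2 3 744 2)) (.w 1 1)) (.mul (.mul (.c 86) (.v 1)) (.r 2 4 744 2))))))) (.c 1)) (.mul (.mul (.add (.mul (.r 2 579 744 2) (.q 0)) (.mul (.r 2 580 744 2) (.v 0))) (.mul (.mul (.c 86) (.v 1)) (.add (.mul (.mul (.c 1048576) (.r 2 2 744 2)) (.w 1 2)) (.mul (.mul (.c 86) (.v 1)) (.add (.mul (.mul (.c 1024) (.r 2 3 744 2)) (.w 1 1)) (.mul (.mul (.c 86) (.v 1)) (.r 2 4 744 2))))))) (.sub (.c 0) (.mul (.c 12) (.c 1))))))))))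 (.w 0 2)) (.w 2 1))), 142, 4, 4, 4, 1⟩,
  ⟨(.sub (.sub (.mul (.mul (.mul (.c 0) (.w 0 2)) (.w 1 3)) (.w 2 3)) (.mul (.mul (.mul (.c 86) (.v 1)) (.add (.mul (.mul (.c 1048576) (.r 2 2 744 2)) (.w 1 2)) (.mul (.mul (.c 86) (.v 1)) (.add (.mul (.mul (.c 1024) (.r 2 3 744 2)) (.w 1 1)) (.mul (.mul (.c 86) (.v 1)) (.r 2 4 744 2)))))) (.mul (.add (.mul (.q 2) (.r 0 5 1 3)) (.mul (.v 2) (.r 0 749 1 3))) (.mul (.c 1) (.add (.mul (.s 2 76 744 2) (.c 1)) (.mul (.s 2 76 744 2) (.c 1))))))) (.mul (.mul (.mul (.c 33554432) (.add (.mul (.mul (.add (.mul (.r 2 563 744 2) (.q 0)) (.mul (.r 2 564 744 2) (.v 0))) (.mul (.mul (.c 86) (.v 1)) (.add (.mul (.mul (.c 1048576) (.r 2 2 744 2)) (.w 1 2)) (.mul (.mul (.c 86) (.v 1)) (.add (.mul (.mul (.c 1024) (.r 2 3 744 2)) (.w 1 1)) (.mul (.mul (.c 86) (.v 1)) (.r 2 4 744 2))))))) (.sub (.c 0) (.mul (.c 12) (.c 1)))) (.add (.mul (.mul (.add (.mul (.r 2 567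 744 2) (.q 0)) (.mul (.r 2 568 744 2) (.v 0))) (.mul (.mul (.c 86) (.v 1)) (.add (.mul (.mul (.c 1048576) (.r 2 2 744 2)) (.w 1 2)) (.mul (.mul (.c 86) (.v 1)) (.add (.mul (.mul (.c 1024) (.r 2 3 744 2)) (.w 1 1)) (.mul (.mul (.c 86) (.v 1)) (.r 2 4 744 2))))))) (.mul (.c 2) (.c 1))) (.add (.mul (.mul (.add (.mul (.r 2 569 744 2) (.q 0)) (.mul (.r 2 570 744 2) (.v 0))) (.mul (.mul (.c 86) (.v 1)) (.add (.mul (.mul (.c 1048576) (.r 2 2 744 2)) (.w 1 2)) (.mul (.mul (.c 86) (.v 1)) (.add (.mul (.mul (.c 1024) (.r 2 3 744 2)) (.w 1 1)) (.mul (.mul (.c 86) (.v 1)) (.r 2 4 744 2))))))) (.sub (.c 0) (.mul (.c 24) (.c 1)))) (.add (.mul (.mul (.add (.mul (.r 2 573 744 2) (.q 0)) (.mul (.r 2 574 744 2) (.v 0))) (.mul (.mul (.c 86) (.v 1)) (.add (.mul (.mul (.c 1048576) (.r 2 2 744 2)) (.w 1 2)) (.mul (.mul (.c 86) (.v 1)) (.add (.mul (.mul (.c 1024) (.r 2 3 744 2)) (.w 1 1)) (.mul (.mul (.c 86)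 (.v 1)) (.r 2 4 744 2))))))) (.sub (.c 0) (.mul (.c 12) (.c 1)))) (.add (.mul (.mul (.add (.mul (.r 2 577 744 2) (.q 0)) (.mul (.r 2 578 744 2) (.v 0))) (.mul (.mul (.c 86) (.v 1)) (.add (.mul (.mul (.c 1048576) (.r 2 2 744 2)) (.w 1 2)) (.mul (.mul (.c 86) (.v 1)) (.add (.mul (.mul (.c 1024) (.r 2 3 744 2)) (.w 1 1)) (.mul (.mul (.c 86) (.v 1)) (.r 2 4 744 2))))))) (.mul (.c 2) (.c 1))) (.mul (.mul (.add (.mul (.r 2 579 744 2) (.q 0)) (.mul (.r 2 580 744 2) (.v 0))) (.mul (.mul (.c 86) (.v 1)) (.add (.mul (.mul (.c 1048576) (.r 2 2 744 2)) (.w 1 2)) (.mul (.mul (.c 86) (.v 1)) (.add (.mul (.mul (.c 1024) (.r 2 3 744 2)) (.w 1 1)) (.mul (.mul (.c 86) (.v 1)) (.r 2 4 744 2))))))) (.sub (.c 0) (.mul (.c 24) (.c 1)))))))))) (.w 0 1)) (.w 2 1))), 131, 3, 4, 4, 1⟩,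
  ⟨(.sub (.sub (.mul (.mul (.mul (.c 0) (.w 0 2)) (.w 1 3)) (.w 2 3)) (.mul (.mul (.mul (.c 86) (.v 1)) (.add (.mul (.mul (.c 1048576) (.r 2 2 744 2)) (.w 1 2)) (.mul (.mul (.c 86) (.v 1)) (.add (.mul (.mul (.c 1024) (.r 2 3 744 2)) (.w 1 1)) (.mul (.mul (.c 86) (.v 1)) (.r 2 4 744 2)))))) (.mul (.add (.mul (.q 2) (.r 0 5 1 3)) (.mul (.v 2) (.r 0 749 1 3))) (.mul (.c 1) (.add (.mul (.s 2 77 744 2) (.c 1)) (.mul (.s 2 77 744 2) (.c 1))))))) (.mul (.mul (.mul (.c 33554432) (.add (.mul (.mul (.add (.mul (.r 2 565 744 2) (.q 0)) (.mul (.r 2 566 744 2) (.v 0))) (.mul (.mul (.c 86) (.v 1)) (.add (.mul (.mul (.c 1048576) (.r 2 2 744 2)) (.w 1 2)) (.mul (.mul (.c 86) (.v 1)) (.add (.mul (.mul (.c 1024) (.r 2 3 744 2)) (.w 1 1)) (.mul (.mul (.c 86) (.v 1)) (.r 2 4 744 2))))))) (.sub (.c 0) (.mul (.c 12) (.c 1)))) (.add (.mul (.mul (.add (.mul (.r 2 567 744 2) (.q 0)) (.mul (.r 2 568 744 2) (.v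 0))) (.mul (.mul (.c 86) (.v 1)) (.add (.mul (.mul (.c 1048576) (.r 2 2 744 2)) (.w 1 2)) (.mul (.mul (.c 86) (.v 1)) (.add (.mul (.mul (.c 1024) (.r 2 3 744 2)) (.w 1 1)) (.mul (.mul (.c 86) (.v 1)) (.r 2 4 744 2))))))) (.sub (.c 0) (.mul (.c 12) (.c 1)))) (.add (.mul (.mul (.add (.mul (.r 2 569 744 2) (.q 0)) (.mul (.r 2 570 744 2) (.v 0))) (.mul (.mul (.c 86) (.v 1)) (.add (.mul (.mul (.c 1048576) (.r 2 2 744 2)) (.w 1 2)) (.mul (.mul (.c 86) (.v 1)) (.add (.mul (.mul (.c 1024) (.r 2 3 744 2)) (.w 1 1)) (.mul (.mul (.c 86) (.v 1)) (.r 2 4 744 2))))))) (.mul (.c 144) (.c 1))) (.add (.mul (.mul (.add (.mul (.r 2 575 744 2) (.q 0)) (.mul (.r 2 576 744 2) (.v 0))) (.mul (.mul (.c 86) (.v 1)) (.add (.mul (.mul (.c 1048576) (.r 2 2 744 2)) (.w 1 2)) (.mul (.mul (.c 86) (.v 1)) (.add (.mul (.mul (.c 1024) (.r 2 3 744 2)) (.w 1 1)) (.mul (.mul (.c 86) (.v 1)) (.r 2 4 744 2))))))) (.sub (.c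 0) (.mul (.c 12) (.c 1)))) (.add (.mul (.mul (.add (.mul (.r 2 577 744 2) (.q 0)) (.mul (.r 2 578 744 2) (.v 0))) (.mul (.mul (.c 86) (.v 1)) (.add (.mul (.mul (.c 1048576) (.r 2 2 744 2)) (.w 1 2)) (.mul (.mul (.c 86) (.v 1)) (.add (.mul (.mul (.c 1024) (.r 2 3 744 2)) (.w 1 1)) (.mul (.mul (.c 86) (.v 1)) (.r 2 4 744 2))))))) (.sub (.c 0) (.mul (.c 12) (.c 1)))) (.mul (.mul (.add (.mul (.r 2 579 744 2) (.q 0)) (.mul (.r 2 580 744 2) (.v 0))) (.mul (.mul (.c 86) (.v 1)) (.add (.mul (.mul (.c 1048576) (.r 2 2 744 2)) (.w 1 2)) (.mul (.mul (.c 86) (.v 1)) (.add (.mul (.mul (.c 1024) (.r 2 3 744 2)) (.w 1 1)) (.mul (.mul (.c 86) (.v 1)) (.r 2 4 744 2))))))) (.mul (.c 144) (.c 1))))))))) (.w 0 1)) (.w 2 1))), 132, 3, 4, 4, 1⟩,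
  ⟨(.sub (.sub (.mul (.mul (.mul (.c 0) (.w 0 3)) (.w 1 5)) (.w 2 3)) (.mul (.mul (.mul (.c 86) (.v 1)) (.add (.mul (.mul (.c 1048576) (.r 2 2 744 2)) (.w 1 2)) (.mul (.mul (.c 86) (.v 1)) (.add (.mul (.mul (.c 1024) (.r 2 3 744 2)) (.w 1 1)) (.mul (.mul (.c 86) (.v 1)) (.r 2 4 744 2)))))) (.mul (.add (.mul (.q 2) (.r 0 5 1 3)) (.mul (.v 2) (.r 0 749 1 3))) (.mul (.c 1) (.add (.mul (.mul (.add (.mul (.mul (.c 1024) (.s 2 75 744 2)) (.w 0 1)) (.mul (.mul (.c 171) (.v 0)) (.s 2 78 744 2))) (.mul (.c 86) (.v 1))) (.w 1 1)) (.mul (.mul (.s 2 77 744 2) (.mul (.mul (.c 86) (.v 1)) (.mul (.c 86) (.v 1)))) (.w 0 1))))))) (.mul (.mul (.mul (.c 33554432) (.add (.mul (.mul (.c 1024) (.mul (.mul (.add (.mul (.r 2 571 744 2) (.q 0)) (.mul (.r 2 572 744 2) (.v 0))) (.mul (.mul (.c 86) (.v 1)) (.add (.mul (.mul (.c 1048576) (.r 2 2 744 2)) (.w 1 2)) (.mul (.mul (.c 86) (.v 1)) (.add (.mul (.mul (.c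 1024) (.r 2 3 744 2)) (.w 1 1)) (.mul (.mul (.c 86) (.v 1)) (.r 2 4 744 2))))))) (.sub (.mul (.c 0) (.w 1 1)) (.mul (.c 12) (.mul (.c 86) (.v 1)))))) (.w 1 1)) (.add (.mul (.mul (.add (.mul (.r 2 575 744 2) (.q 0)) (.mul (.r 2 576 744 2) (.v 0))) (.mul (.mul (.c 86) (.v 1)) (.add (.mul (.mul (.c 1048576) (.r 2 2 744 2)) (.w 1 2)) (.mul (.mul (.c 86) (.v 1)) (.add (.mul (.mul (.c 1024) (.r 2 3 744 2)) (.w 1 1)) (.mul (.mul (.c 86) (.v 1)) (.r 2 4 744 2))))))) (.sub (.mul (.mul (.c 1024) (.mul (.c 86) (.v 1))) (.w 1 1)) (.mul (.c 12) (.mul (.mul (.c 86) (.v 1)) (.mul (.c 86) (.v 1)))))) (.add (.mul (.mul (.add (.mul (.r 2 577 744 2) (.q 0)) (.mul (.r 2 578 744 2) (.v 0))) (.mul (.mul (.c 86) (.v 1)) (.add (.mul (.mul (.c 1048576) (.r 2 2 744 2)) (.w 1 2)) (.mul (.mul (.c 86) (.v 1)) (.add (.mul (.mul (.c 1024) (.r 2 3 744 2)) (.w 1 1)) (.mul (.mul (.c 86) (.v 1)) (.r 2 4 744 2))))))) (.sub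 (.mul (.c 0) (.w 1 2)) (.mul (.c 12) (.mul (.mul (.c 86) (.v 1)) (.mul (.c 86) (.v 1)))))) (.add (.mul (.mul (.add (.mul (.r 2 579 744 2) (.q 0)) (.mul (.r 2 580 744 2) (.v 0))) (.mul (.mul (.c 86) (.v 1)) (.add (.mul (.mul (.c 1048576) (.r 2 2 744 2)) (.w 1 2)) (.mul (.mul (.c 86) (.v 1)) (.add (.mul (.mul (.c 1024) (.r 2 3 744 2)) (.w 1 1)) (.mul (.mul (.c 86) (.v 1)) (.r 2 4 744 2))))))) (.sub (.mul (.c 144) (.mul (.mul (.c 86) (.v 1)) (.mul (.c 86) (.v 1)))) (.mul (.mul (.c 1024) (.mul (.c 12) (.mul (.c 86) (.v 1)))) (.w 1 1)))) (.mul (.mul (.c 1048576) (.mul (.mul (.add (.mul (.r 2 581 744 2) (.q 0)) (.mul (.r 2 582 744 2) (.v 0))) (.mul (.mul (.c 86) (.v 1)) (.add (.mul (.mul (.c 1048576) (.r 2 2 744 2)) (.w 1 2)) (.mul (.mul (.c 86) (.v 1)) (.add (.mul (.mul (.c 1024) (.r 2 3 744 2)) (.w 1 1)) (.mul (.mul (.c 86) (.v 1)) (.r 2 4 744 2))))))) (.sub (.c 0) (.mul (.c 12) (.c 1)))))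 (.w 1 2))))))) (.w 0 2)) (.w 2 1))), 150, 4, 6, 4, 1⟩,
  ⟨(.sub (.sub (.mul (.mul (.mul (.mul (.c 590295810358705651712) (.mul (.mul (.c 86) (.v 1)) (.add (.mul (.c 1024) (.add (.mul (.add (.mul (.mul (.c 1024) (.s 2 191 744 2)) (.w 0 1)) (.mul (.s 2 192 744 2) (.mul (.c 171) (.v 0)))) (.w 1 1)) (.mul (.mul (.s 2 193 744 2) (.mul (.c 86) (.v 1))) (.w 0 1)))) (.mul (.s 2 194 744 2) (.mul (.mul (.c 86) (.v 1)) (.mul (.c 171) (.v 0))))))) (.w 0 3)) (.w 1 3)) (.w 2 2)) (.mul (.mul (.mul (.c 86) (.v 1)) (.add (.mul (.mul (.c 1048576) (.r 2 2 744 2)) (.w 1 2)) (.mul (.mul (.c 86) (.v 1)) (.add (.mul (.mul (.c 1024) (.r 2 3 744 2)) (.w 1 1)) (.mul (.mul (.c 86) (.v 1)) (.r 2 4 744 2)))))) (.mul (.add (.mul (.q 2) (.r 0 5 1 3)) (.mul (.v 2) (.r 0 749 1 3))) (.add (.mul (.mul (.mul (.mul (.c 35184372088832) (.u 0 [1])) (.w 0 2)) (.w 1 2)) (.w 2 1)) (.mul (.c 1) (.add (.mul (.add (.mul (.mul (.c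 1024) (.mul (.s 2 109 744 2) (.add (.mul (.mul (.c 767) (.w 0 1)) (.w 1 1)) (.add (.mul (.mul (.c 171) (.q 0)) (.w 1 1)) (.mul (.mul (.c 86) (.q 1)) (.w 0 1)))))) (.w 0 1)) (.mul (.s 2 110 744 2) (.mul (.mul (.c 171) (.v 0)) (.add (.mul (.mul (.c 767) (.w 0 1)) (.w 1 1)) (.add (.mul (.mul (.c 171) (.q 0)) (.w 1 1)) (.mul (.mul (.c 86) (.q 1)) (.w 0 1))))))) (.w 1 1)) (.add (.mul (.add (.mul (.mul (.c 1024) (.mul (.s 2 109 744 2) (.add (.mul (.c 853) (.w 0 1)) (.mul (.c 171) (.q 0))))) (.w 0 1)) (.mul (.s 2 110 744 2) (.mul (.mul (.c 171) (.v 0)) (.add (.mul (.c 853) (.w 0 1)) (.mul (.c 171) (.q 0)))))) (.w 1 2)) (.mul (.mul (.s 2 112 744 2) (.mul (.mul (.c 86) (.v 1)) (.mul (.c 86) (.v 1)))) (.w 0 2))))))))) (.mul (.mul (.mul (.c 33554432) (.add (.mul (.mul (.c 1024) (.mul (.mul (.add (.mul (.r 2 583 744 2) (.q 0)) (.mul (.r 2 584 744 2) (.v 0))) (.mul (.mul (.c 86) (.v 1)) (.add (.mul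 (.mul (.c 1048576) (.r 2 2 744 2)) (.w 1 2)) (.mul (.mul (.c 86) (.v 1)) (.add (.mul (.mul (.c 1024) (.r 2 3 744 2)) (.w 1 1)) (.mul (.mul (.c 86) (.v 1)) (.r 2 4 744 2))))))) (.mul (.c 2) (.add (.mul (.mul (.c 767) (.w 0 1)) (.w 1 1)) (.add (.mul (.mul (.c 171) (.q 0)) (.w 1 1)) (.mul (.mul (.c 86) (.q 1)) (.w 0 1))))))) (.w 1 1)) (.add (.mul (.mul (.c 1024) (.mul (.mul (.add (.mul (.r 2 585 744 2) (.q 0)) (.mul (.r 2 586 744 2) (.v 0))) (.mul (.mul (.c 86) (.v 1)) (.add (.mul (.mul (.c 1048576) (.r 2 2 744 2)) (.w 1 2)) (.mul (.mul (.c 86) (.v 1)) (.add (.mul (.mul (.c 1024) (.r 2 3 744 2)) (.w 1 1)) (.mul (.mul (.c 86) (.v 1)) (.r 2 4 744 2))))))) (.add (.mul (.mul (.c 767) (.w 0 1)) (.w 1 1)) (.add (.mul (.mul (.c 171) (.q 0)) (.w 1 1)) (.mul (.mul (.c 86) (.q 1)) (.w 0 1)))))) (.w 1 1)) (.add (.mul (.mul (.c 1024) (.mul (.mul (.add (.mul (.r 2 591 744 2) (.q 0)) (.mul (.r 2 592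 744 2) (.v 0))) (.mul (.mul (.c 86) (.v 1)) (.add (.mul (.mul (.c 1048576) (.r 2 2 744 2)) (.w 1 2)) (.mul (.mul (.c 86) (.v 1)) (.add (.mul (.mul (.c 1024) (.r 2 3 744 2)) (.w 1 1)) (.mul (.mul (.c 86) (.v 1)) (.r 2 4 744 2))))))) (.mul (.c 2) (.add (.mul (.mul (.c 767) (.w 0 1)) (.w 1 1)) (.add (.mul (.mul (.c 171) (.q 0)) (.w 1 1)) (.mul (.mul (.c 86) (.q 1)) (.w 0 1))))))) (.w 1 1)) (.add (.mul (.mul (.c 1024) (.mul (.mul (.add (.mul (.r 2 593 744 2) (.q 0)) (.mul (.r 2 594 744 2) (.v 0))) (.mul (.mul (.c 86) (.v 1)) (.add (.mul (.mul (.c 1048576) (.r 2 2 744 2)) (.w 1 2)) (.mul (.mul (.c 86) (.v 1)) (.add (.mul (.mul (.c 1024) (.r 2 3 744 2)) (.w 1 1)) (.mul (.mul (.c 86) (.v 1)) (.r 2 4 744 2))))))) (.mul (.c 2) (.add (.mul (.c 853) (.w 0 1)) (.mul (.c 171) (.q 0)))))) (.w 1 2)) (.add (.mul (.mul (.add (.mul (.r 2 595 744 2) (.q 0)) (.mul (.r 2 596 744 2) (.v 0))) (.mul (.mul (.c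 86) (.v 1)) (.add (.mul (.mul (.c 1048576) (.r 2 2 744 2)) (.w 1 2)) (.mul (.mul (.c 86) (.v 1)) (.add (.mul (.mul (.c 1024) (.r 2 3 744 2)) (.w 1 1)) (.mul (.mul (.c 86) (.v 1)) (.r 2 4 744 2))))))) (.sub (.mul (.mul (.c 1024) (.add (.mul (.c 853) (.w 0 1)) (.mul (.c 171) (.q 0)))) (.w 1 2)) (.mul (.mul (.c 12) (.mul (.mul (.c 86) (.v 1)) (.mul (.c 86) (.v 1)))) (.w 0 1)))) (.add (.mul (.mul (.mul (.add (.mul (.r 2 599 744 2) (.q 0)) (.mul (.r 2 600 744 2) (.v 0))) (.mul (.mul (.c 86) (.v 1)) (.add (.mul (.mul (.c 1048576) (.r 2 2 744 2)) (.w 1 2)) (.mul (.mul (.c 86) (.v 1)) (.add (.mul (.mul (.c 1024) (.r 2 3 744 2)) (.w 1 1)) (.mul (.mul (.c 86) (.v 1)) (.r 2 4 744 2))))))) (.mul (.c 2) (.mul (.mul (.c 86) (.v 1)) (.mul (.c 86) (.v 1))))) (.w 0 1)) (.add (.mul (.mul (.add (.mul (.r 2 601 744 2) (.q 0)) (.mul (.r 2 602 744 2) (.v 0))) (.mul (.mul (.c 86) (.v 1)) (.add (.mul (.mul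 (.c 1048576) (.r 2 2 744 2)) (.w 1 2)) (.mul (.mul (.c 86) (.v 1)) (.add (.mul (.mul (.c 1024) (.r 2 3 744 2)) (.w 1 1)) (.mul (.mul (.c 86) (.v 1)) (.r 2 4 744 2))))))) (.sub (.mul (.mul (.c 1024) (.mul (.c 2) (.add (.mul (.c 853) (.w 0 1)) (.mul (.c 171) (.q 0))))) (.w 1 2)) (.mul (.mul (.c 24) (.mul (.mul (.c 86) (.v 1)) (.mul (.c 86) (.v 1)))) (.w 0 1)))) (.mul (.mul (.mul (.c 1048576) (.mul (.mul (.add (.mul (.r 2 603 744 2) (.q 0)) (.mul (.r 2 604 744 2) (.v 0))) (.mul (.mul (.c 86) (.v 1)) (.add (.mul (.mul (.c 1048576) (.r 2 2 744 2)) (.w 1 2)) (.mul (.mul (.c 86) (.v 1)) (.add (.mul (.mul (.c 1024) (.r 2 3 744 2)) (.w 1 1)) (.mul (.mul (.c 86) (.v 1)) (.r 2 4 744 2))))))) (.c 2))) (.w 0 1)) (.w 1 2)))))))))) (.w 0 2)) (.w 2 1))), 155, 5, 6, 4, 1⟩,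
  ⟨(.sub (.sub (.mul (.mul (.mul (.c 0) (.w 0 3)) (.w 1 3)) (.w 2 3)) (.mul (.mul (.mul (.c 86) (.v 1)) (.add (.mul (.mul (.c 1048576) (.r 2 2 744 2)) (.w 1 2)) (.mul (.mul (.c 86) (.v 1)) (.add (.mul (.mul (.c 1024) (.r 2 3 744 2)) (.w 1 1)) (.mul (.mul (.c 86) (.v 1)) (.r 2 4 744 2)))))) (.mul (.add (.mul (.q 2) (.r 0 5 1 3)) (.mul (.v 2) (.r 0 749 1 3))) (.mul (.c 1) (.add (.mul (.add (.mul (.mul (.c 1024) (.s 2 111 744 2)) (.w 0 1)) (.mul (.mul (.c 171) (.v 0)) (.s 2 114 744 2))) (.c 1)) (.mul (.add (.mul (.mul (.c 1024) (.s 2 111 744 2)) (.w 0 1)) (.mul (.mul (.c 171) (.v 0)) (.s 2 114 744 2))) (.c 1))))))) (.mul (.mul (.mul (.c 34359738368) (.add (.mul (.mul (.add (.mul (.r 2 583 744 2) (.q 0)) (.mul (.r 2 584 744 2) (.v 0))) (.mul (.mul (.c 86) (.v 1)) (.add (.mul (.mul (.c 1048576) (.r 2 2 744 2)) (.w 1 2)) (.mul (.mul (.c 86) (.v 1)) (.add (.mul (.mul (.c 1024) (.r 2 3 744 2))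 (.w 1 1)) (.mul (.mul (.c 86) (.v 1)) (.r 2 4 744 2))))))) (.sub (.c 0) (.mul (.c 12) (.c 1)))) (.add (.mul (.mul (.add (.mul (.r 2 587 744 2) (.q 0)) (.mul (.r 2 588 744 2) (.v 0))) (.mul (.mul (.c 86) (.v 1)) (.add (.mul (.mul (.c 1048576) (.r 2 2 744 2)) (.w 1 2)) (.mul (.mul (.c 86) (.v 1)) (.add (.mul (.mul (.c 1024) (.r 2 3 744 2)) (.w 1 1)) (.mul (.mul (.c 86) (.v 1)) (.r 2 4 744 2))))))) (.c 1)) (.add (.mul (.mul (.add (.mul (.r 2 591 744 2) (.q 0)) (.mul (.r 2 592 744 2) (.v 0))) (.mul (.mul (.c 86) (.v 1)) (.add (.mul (.mul (.c 1048576) (.r 2 2 744 2)) (.w 1 2)) (.mul (.mul (.c 86) (.v 1)) (.add (.mul (.mul (.c 1024) (.r 2 3 744 2)) (.w 1 1)) (.mul (.mul (.c 86) (.v 1)) (.r 2 4 744 2))))))) (.sub (.c 0) (.mul (.c 12) (.c 1)))) (.add (.mul (.mul (.add (.mul (.r 2 593 744 2) (.q 0)) (.mul (.r 2 594 744 2) (.v 0))) (.mul (.mul (.c 86) (.v 1)) (.add (.mul (.mul (.c 1048576) (.r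 2 2 744 2)) (.w 1 2)) (.mul (.mul (.c 86) (.v 1)) (.add (.mul (.mul (.c 1024) (.r 2 3 744 2)) (.w 1 1)) (.mul (.mul (.c 86) (.v 1)) (.r 2 4 744 2))))))) (.sub (.c 0) (.mul (.c 12) (.c 1)))) (.add (.mul (.mul (.add (.mul (.r 2 597 744 2) (.q 0)) (.mul (.r 2 598 744 2) (.v 0))) (.mul (.mul (.c 86) (.v 1)) (.add (.mul (.mul (.c 1048576) (.r 2 2 744 2)) (.w 1 2)) (.mul (.mul (.c 86) (.v 1)) (.add (.mul (.mul (.c 1024) (.r 2 3 744 2)) (.w 1 1)) (.mul (.mul (.c 86) (.v 1)) (.r 2 4 744 2))))))) (.c 1)) (.mul (.mul (.add (.mul (.r 2 601 744 2) (.q 0)) (.mul (.r 2 602 744 2) (.v 0))) (.mul (.mul (.c 86) (.v 1)) (.add (.mul (.mul (.c 1048576) (.r 2 2 744 2)) (.w 1 2)) (.mul (.mul (.c 86) (.v 1)) (.add (.mul (.mul (.c 1024) (.r 2 3 744 2)) (.w 1 1)) (.mul (.mul (.c 86) (.v 1)) (.r 2 4 744 2))))))) (.sub (.c 0) (.mul (.c 12) (.c 1)))))))))) (.w 0 2)) (.w 2 1))), 142, 4, 4, 4, 1⟩,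
  ⟨(.sub (.sub (.mul (.mul (.mul (.c 0) (.w 0 2)) (.w 1 3)) (.w 2 3)) (.mul (.mul (.mul (.c 86) (.v 1)) (.add (.mul (.mul (.c 1048576) (.r 2 2 744 2)) (.w 1 2)) (.mul (.mul (.c 86) (.v 1)) (.add (.mul (.mul (.c 1024) (.r 2 3 744 2)) (.w 1 1)) (.mul (.mul (.c 86) (.v 1)) (.r 2 4 744 2)))))) (.mul (.add (.mul (.q 2) (.r 0 5 1 3)) (.mul (.v 2) (.r 0 749 1 3))) (.mul (.c 1) (.add (.mul (.s 2 112 744 2) (.c 1)) (.mul (.s 2 112 744 2) (.c 1))))))) (.mul (.mul (.mul (.c 33554432) (.add (.mul (.mul (.add (.mul (.r 2 585 744 2) (.q 0)) (.mul (.r 2 586 744 2) (.v 0))) (.mul (.mul (.c 86) (.v 1)) (.add (.mul (.mul (.c 1048576) (.r 2 2 744 2)) (.w 1 2)) (.mul (.mul (.c 86) (.v 1)) (.add (.mul (.mul (.c 1024) (.r 2 3 744 2)) (.w 1 1)) (.mul (.mul (.c 86) (.v 1)) (.r 2 4 744 2))))))) (.sub (.c 0) (.mul (.c 12) (.c 1)))) (.add (.mul (.mul (.add (.mul (.r 2 589 744 2) (.q 0)) (.mul (.r 2 590 744 2)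 (.v 0))) (.mul (.mul (.c 86) (.v 1)) (.add (.mul (.mul (.c 1048576) (.r 2 2 744 2)) (.w 1 2)) (.mul (.mul (.c 86) (.v 1)) (.add (.mul (.mul (.c 1024) (.r 2 3 744 2)) (.w 1 1)) (.mul (.mul (.c 86) (.v 1)) (.r 2 4 744 2))))))) (.mul (.c 2) (.c 1))) (.add (.mul (.mul (.add (.mul (.r 2 591 744 2) (.q 0)) (.mul (.r 2 592 744 2) (.v 0))) (.mul (.mul (.c 86) (.v 1)) (.add (.mul (.mul (.c 1048576) (.r 2 2 744 2)) (.w 1 2)) (.mul (.mul (.c 86) (.v 1)) (.add (.mul (.mul (.c 1024) (.r 2 3 744 2)) (.w 1 1)) (.mul (.mul (.c 86) (.v 1)) (.r 2 4 744 2))))))) (.sub (.c 0) (.mul (.c 24) (.c 1)))) (.add (.mul (.mul (.add (.mul (.r 2 595 744 2) (.q 0)) (.mul (.r 2 596 744 2) (.v 0))) (.mul (.mul (.c 86) (.v 1)) (.add (.mul (.mul (.c 1048576) (.r 2 2 744 2)) (.w 1 2)) (.mul (.mul (.c 86) (.v 1)) (.add (.mul (.mul (.c 1024) (.r 2 3 744 2)) (.w 1 1)) (.mul (.mul (.c 86) (.v 1)) (.r 2 4 744 2))))))) (.sub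 (.c 0) (.mul (.c 12) (.c 1)))) (.add (.mul (.mul (.add (.mul (.r 2 599 744 2) (.q 0)) (.mul (.r 2 600 744 2) (.v 0))) (.mul (.mul (.c 86) (.v 1)) (.add (.mul (.mul (.c 1048576) (.r 2 2 744 2)) (.w 1 2)) (.mul (.mul (.c 86) (.v 1)) (.add (.mul (.mul (.c 1024) (.r 2 3 744 2)) (.w 1 1)) (.mul (.mul (.c 86) (.v 1)) (.r 2 4 744 2))))))) (.mul (.c 2) (.c 1))) (.mul (.mul (.add (.mul (.r 2 601 744 2) (.q 0)) (.mul (.r 2 602 744 2) (.v 0))) (.mul (.mul (.c 86) (.v 1)) (.add (.mul (.mul (.c 1048576) (.r 2 2 744 2)) (.w 1 2)) (.mul (.mul (.c 86) (.v 1)) (.add (.mul (.mul (.c 1024) (.r 2 3 744 2)) (.w 1 1)) (.mul (.mul (.c 86) (.v 1)) (.r 2 4 744 2))))))) (.sub (.c 0) (.mul (.c 24) (.c 1)))))))))) (.w 0 1)) (.w 2 1))), 131, 3, 4, 4, 1⟩,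
  ⟨(.sub (.sub (.mul (.mul (.mul (.c 0) (.w 0 2)) (.w 1 3)) (.w 2 3)) (.mul (.mul (.mul (.c 86) (.v 1)) (.add (.mul (.mul (.c 1048576) (.r 2 2 744 2)) (.w 1 2)) (.mul (.mul (.c 86) (.v 1)) (.add (.mul (.mul (.c 1024) (.r 2 3 744 2)) (.w 1 1)) (.mul (.mul (.c 86) (.v 1)) (.r 2 4 744 2)))))) (.mul (.add (.mul (.q 2) (.r 0 5 1 3)) (.mul (.v 2) (.r 0 749 1 3))) (.mul (.c 1) (.add (.mul (.s 2 113 744 2) (.c 1)) (.mul (.s 2 113 744 2) (.c 1))))))) (.mul (.mul (.mul (.c 33554432) (.add (.mul (.mul (.add (.mul (.r 2 587 744 2) (.q 0)) (.mul (.r 2 588 744 2) (.v 0))) (.mul (.mul (.c 86) (.v 1)) (.add (.mul (.mul (.c 1048576) (.r 2 2 744 2)) (.w 1 2)) (.mul (.mul (.c 86) (.v 1)) (.add (.mul (.mul (.c 1024) (.r 2 3 744 2)) (.w 1 1)) (.mul (.mul (.c 86) (.v 1)) (.r 2 4 744 2))))))) (.sub (.c 0) (.mul (.c 12) (.c 1)))) (.add (.mul (.mul (.add (.mul (.r 2 589 744 2) (.q 0)) (.mul (.r 2 590 744 2)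 (.v 0))) (.mul (.mul (.c 86) (.v 1)) (.add (.mul (.mul (.c 1048576) (.r 2 2 744 2)) (.w 1 2)) (.mul (.mul (.c 86) (.v 1)) (.add (.mul (.mul (.c 1024) (.r 2 3 744 2)) (.w 1 1)) (.mul (.mul (.c 86) (.v 1)) (.r 2 4 744 2))))))) (.sub (.c 0) (.mul (.c 12) (.c 1)))) (.add (.mul (.mul (.add (.mul (.r 2 591 744 2) (.q 0)) (.mul (.r 2 592 744 2) (.v 0))) (.mul (.mul (.c 86) (.v 1)) (.add (.mul (.mul (.c 1048576) (.r 2 2 744 2)) (.w 1 2)) (.mul (.mul (.c 86) (.v 1)) (.add (.mul (.mul (.c 1024) (.r 2 3 744 2)) (.w 1 1)) (.mul (.mul (.c 86) (.v 1)) (.r 2 4 744 2))))))) (.mul (.c 144) (.c 1))) (.add (.mul (.mul (.add (.mul (.r 2 597 744 2) (.q 0)) (.mul (.r 2 598 744 2) (.v 0))) (.mul (.mul (.c 86) (.v 1)) (.add (.mul (.mul (.c 1048576) (.r 2 2 744 2)) (.w 1 2)) (.mul (.mul (.c 86) (.v 1)) (.add (.mul (.mul (.c 1024) (.r 2 3 744 2)) (.w 1 1)) (.mul (.mul (.c 86) (.v 1)) (.r 2 4 744 2))))))) (.sub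 (.c 0) (.mul (.c 12) (.c 1)))) (.add (.mul (.mul (.add (.mul (.r 2 599 744 2) (.q 0)) (.mul (.r 2 600 744 2) (.v 0))) (.mul (.mul (.c 86) (.v 1)) (.add (.mul (.mul (.c 1048576) (.r 2 2 744 2)) (.w 1 2)) (.mul (.mul (.c 86) (.v 1)) (.add (.mul (.mul (.c 1024) (.r 2 3 744 2)) (.w 1 1)) (.mul (.mul (.c 86) (.v 1)) (.r 2 4 744 2))))))) (.sub (.c 0) (.mul (.c 12) (.c 1)))) (.mul (.mul (.add (.mul (.r 2 601 744 2) (.q 0)) (.mul (.r 2 602 744 2) (.v 0))) (.mul (.mul (.c 86) (.v 1)) (.add (.mul (.mul (.c 1048576) (.r 2 2 744 2)) (.w 1 2)) (.mul (.mul (.c 86) (.v 1)) (.add (.mul (.mul (.c 1024) (.r 2 3 744 2)) (.w 1 1)) (.mul (.mul (.c 86) (.v 1)) (.r 2 4 744 2))))))) (.mul (.c 144) (.c 1))))))))) (.w 0 1)) (.w 2 1))), 132, 3, 4, 4, 1⟩,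
  ⟨(.sub (.sub (.mul (.mul (.mul (.c 0) (.w 0 3)) (.w 1 5)) (.w 2 3)) (.mul (.mul (.mul (.c 86) (.v 1)) (.add (.mul (.mul (.c 1048576) (.r 2 2 744 2)) (.w 1 2)) (.mul (.mul (.c 86) (.v 1)) (.add (.mul (.mul (.c 1024) (.r 2 3 744 2)) (.w 1 1)) (.mul (.mul (.c 86) (.v 1)) (.r 2 4 744 2)))))) (.mul (.add (.mul (.q 2) (.r 0 5 1 3)) (.mul (.v 2) (.r 0 749 1 3))) (.mul (.c 1) (.add (.mul (.mul (.add (.mul (.mul (.c 1024) (.s 2 111 744 2)) (.w 0 1)) (.mul (.mul (.c 171) (.v 0)) (.s 2 114 744 2))) (.mul (.c 86) (.v 1))) (.w 1 1)) (.mul (.mul (.s 2 113 744 2) (.mul (.mul (.c 86) (.v 1)) (.mul (.c 86) (.v 1)))) (.w 0 1))))))) (.mul (.mul (.mul (.c 33554432) (.add (.mul (.mul (.c 1024) (.mul (.mul (.add (.mul (.r 2 593 744 2) (.q 0)) (.mul (.r 2 594 744 2) (.v 0))) (.mul (.mul (.c 86) (.v 1)) (.add (.mul (.mul (.c 1048576) (.r 2 2 744 2)) (.w 1 2)) (.mul (.mul (.c 86) (.v 1)) (.add (.mul (.mul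 (.c 1024) (.r 2 3 744 2)) (.w 1 1)) (.mul (.mul (.c 86) (.v 1)) (.r 2 4 744 2))))))) (.sub (.mul (.c 0) (.w 1 1)) (.mul (.c 12) (.mul (.c 86) (.v 1)))))) (.w 1 1)) (.add (.mul (.mul (.add (.mul (.r 2 597 744 2) (.q 0)) (.mul (.r 2 598 744 2) (.v 0))) (.mul (.mul (.c 86) (.v 1)) (.add (.mul (.mul (.c 1048576) (.r 2 2 744 2)) (.w 1 2)) (.mul (.mul (.c 86) (.v 1)) (.add (.mul (.mul (.c 1024) (.r 2 3 744 2)) (.w 1 1)) (.mul (.mul (.c 86) (.v 1)) (.r 2 4 744 2))))))) (.sub (.mul (.mul (.c 1024) (.mul (.c 86) (.v 1))) (.w 1 1)) (.mul (.c 12) (.mul (.mul (.c 86) (.v 1)) (.mul (.c 86) (.v 1)))))) (.add (.mul (.mul (.add (.mul (.r 2 599 744 2) (.q 0)) (.mul (.r 2 600 744 2) (.v 0))) (.mul (.mul (.c 86) (.v 1)) (.add (.mul (.mul (.c 1048576) (.r 2 2 744 2)) (.w 1 2)) (.mul (.mul (.c 86) (.v 1)) (.add (.mul (.mul (.c 1024) (.r 2 3 744 2)) (.w 1 1)) (.mul (.mul (.c 86) (.v 1)) (.r 2 4 744 2)))))))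 (.sub (.mul (.c 0) (.w 1 2)) (.mul (.c 12) (.mul (.mul (.c 86) (.v 1)) (.mul (.c 86) (.v 1)))))) (.add (.mul (.mul (.add (.mul (.r 2 601 744 2) (.q 0)) (.mul (.r 2 602 744 2) (.v 0))) (.mul (.mul (.c 86) (.v 1)) (.add (.mul (.mul (.c 1048576) (.r 2 2 744 2)) (.w 1 2)) (.mul (.mul (.c 86) (.v 1)) (.add (.mul (.mul (.c 1024) (.r 2 3 744 2)) (.w 1 1)) (.mul (.mul (.c 86) (.v 1)) (.r 2 4 744 2))))))) (.sub (.mul (.c 144) (.mul (.mul (.c 86) (.v 1)) (.mul (.c 86) (.v 1)))) (.mul (.mul (.c 1024) (.mul (.c 12) (.mul (.c 86) (.v 1)))) (.w 1 1)))) (.mul (.mul (.c 1048576) (.mul (.mul (.add (.mul (.r 2 603 744 2) (.q 0)) (.mul (.r 2 604 744 2) (.v 0))) (.mul (.mul (.c 86) (.v 1)) (.add (.mul (.mul (.c 1048576) (.r 2 2 744 2)) (.w 1 2)) (.mul (.mul (.c 86) (.v 1)) (.add (.mul (.mul (.c 1024) (.r 2 3 744 2)) (.w 1 1)) (.mul (.mul (.c 86) (.v 1)) (.r 2 4 744 2))))))) (.sub (.c 0) (.mul (.c 12) (.c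 1))))) (.w 1 2))))))) (.w 0 2)) (.w 2 1))), 150, 4, 6, 4, 1⟩,
  ⟨(.sub (.mul (.sub (.mul (.mul (.mul (.c 16777216) (.add (.mul (.mul (.c 1024) (.mul (.s 2 85 744 2) (.add (.mul (.mul (.c 767) (.w 0 1)) (.w 1 1)) (.add (.mul (.mul (.c 171) (.q 0)) (.w 1 1)) (.mul (.mul (.c 86) (.q 1)) (.w 0 1)))))) (.w 0 1)) (.mul (.s 2 86 744 2) (.mul (.mul (.c 171) (.v 0)) (.add (.mul (.mul (.c 767) (.w 0 1)) (.w 1 1)) (.add (.mul (.mul (.c 171) (.q 0)) (.w 1 1)) (.mul (.mul (.c 86) (.q 1)) (.w 0 1)))))))) (.w 0 1)) (.w 2 1)) (.add (.mul (.c 1024) (.add (.mul (.mul (.mul (.c 16777216) (.mul (.s 2 167 744 2) (.add (.mul (.mul (.c 767) (.w 0 1)) (.w 1 1)) (.add (.mul (.mul (.c 171) (.q 0)) (.w 1 1)) (.mul (.mul (.c 86) (.q 1)) (.w 0 1)))))) (.w 0 2)) (.w 2 1)) (.mul (.sub (.add (.mul (.q 2) (.r 0 5 1 3)) (.mul (.v 2) (.r 0 749 1 3))) (.mul (.mul (.mul (.c 16777216) (.c 1)) (.w 0 2)) (.w 2 1))) (.mul (.s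 2 171 744 2) (.add (.mul (.mul (.c 767) (.w 0 1)) (.w 1 1)) (.add (.mul (.mul (.c 171) (.q 0)) (.w 1 1)) (.mul (.mul (.c 86) (.q 1)) (.w 0 1)))))))) (.mul (.add (.add (.mul (.r 2 49 744 2) (.add (.mul (.mul (.c 1024) (.mul (.s 2 55 744 2) (.add (.mul (.mul (.c 767) (.w 0 1)) (.w 1 1)) (.add (.mul (.mul (.c 171) (.q 0)) (.w 1 1)) (.mul (.mul (.c 86) (.q 1)) (.w 0 1)))))) (.w 0 1)) (.mul (.s 2 56 744 2) (.mul (.mul (.c 171) (.v 0)) (.add (.mul (.mul (.c 767) (.w 0 1)) (.w 1 1)) (.add (.mul (.mul (.c 171) (.q 0)) (.w 1 1)) (.mul (.mul (.c 86) (.q 1)) (.w 0 1)))))))) (.mul (.r 2 53 744 2) (.add (.mul (.mul (.c 1024) (.mul (.s 2 91 744 2) (.add (.mul (.mul (.c 767) (.w 0 1)) (.w 1 1)) (.add (.mul (.mul (.c 171) (.q 0)) (.w 1 1)) (.mul (.mul (.c 86) (.q 1)) (.w 0 1)))))) (.w 0 1)) (.mul (.s 2 92 744 2) (.mul (.mul (.c 171) (.v 0)) (.add (.mul (.mul (.c 767) (.w 0 1)) (.w 1 1)) (.add (.mul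 (.mul (.c 171) (.q 0)) (.w 1 1)) (.mul (.mul (.c 86) (.q 1)) (.w 0 1))))))))) (.add (.mul (.r 2 50 744 2) (.add (.mul (.mul (.c 1024) (.mul (.s 2 73 744 2) (.add (.mul (.mul (.c 767) (.w 0 1)) (.w 1 1)) (.add (.mul (.mul (.c 171) (.q 0)) (.w 1 1)) (.mul (.mul (.c 86) (.q 1)) (.w 0 1)))))) (.w 0 1)) (.mul (.s 2 74 744 2) (.mul (.mul (.c 171) (.v 0)) (.add (.mul (.mul (.c 767) (.w 0 1)) (.w 1 1)) (.add (.mul (.mul (.c 171) (.q 0)) (.w 1 1)) (.mul (.mul (.c 86) (.q 1)) (.w 0 1)))))))) (.mul (.r 2 54 744 2) (.add (.mul (.mul (.c 1024) (.mul (.s 2 109 744 2) (.add (.mul (.mul (.c 767) (.w 0 1)) (.w 1 1)) (.add (.mul (.mul (.c 171) (.q 0)) (.w 1 1)) (.mul (.mul (.c 86) (.q 1)) (.w 0 1)))))) (.w 0 1)) (.mul (.s 2 110 744 2) (.mul (.mul (.c 171) (.v 0)) (.add (.mul (.mul (.c 767) (.w 0 1)) (.w 1 1)) (.add (.mul (.mul (.c 171) (.q 0)) (.w 1 1)) (.mul (.mul (.c 86) (.q 1)) (.w 0 1)))))))))) (.w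 0 1)))) (.w 1 1)) (.mul (.mul (.mul (.c 16777216) (.add (.mul (.mul (.c 1024) (.mul (.add (.mul (.r 2 605 744 2) (.q 0)) (.mul (.r 2 606 744 2) (.v 0))) (.mul (.c 2) (.add (.mul (.mul (.c 767) (.w 0 1)) (.w 1 1)) (.add (.mul (.mul (.c 171) (.q 0)) (.w 1 1)) (.mul (.mul (.c 86) (.q 1)) (.w 0 1))))))) (.w 1 1)) (.add (.mul (.mul (.c 1024) (.mul (.add (.mul (.r 2 607 744 2) (.q 0)) (.mul (.r 2 608 744 2) (.v 0))) (.add (.mul (.mul (.c 767) (.w 0 1)) (.w 1 1)) (.add (.mul (.mul (.c 171) (.q 0)) (.w 1 1)) (.mul (.mul (.c 86) (.q 1)) (.w 0 1)))))) (.w 1 1)) (.add (.mul (.mul (.c 1024) (.mul (.add (.mul (.r 2 613 744 2) (.q 0)) (.mul (.r 2 614 744 2) (.v 0))) (.mul (.c 2) (.add (.mul (.mul (.c 767) (.w 0 1)) (.w 1 1)) (.add (.mul (.mul (.c 171) (.q 0)) (.w 1 1)) (.mul (.mul (.c 86) (.q 1)) (.w 0 1))))))) (.w 1 1)) (.add (.mul (.mul (.c 1024) (.mul (.add (.mul (.r 2 615 744 2) (.q 0)) (.mul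 (.r 2 616 744 2) (.v 0))) (.mul (.c 2) (.add (.mul (.c 853) (.w 0 1)) (.mul (.c 171) (.q 0)))))) (.w 1 2)) (.add (.mul (.add (.mul (.r 2 617 744 2) (.q 0)) (.mul (.r 2 618 744 2) (.v 0))) (.sub (.mul (.mul (.c 1024) (.add (.mul (.c 853) (.w 0 1)) (.mul (.c 171) (.q 0)))) (.w 1 2)) (.mul (.mul (.c 12) (.mul (.mul (.c 86) (.v 1)) (.mul (.c 86) (.v 1)))) (.w 0 1)))) (.add (.mul (.mul (.add (.mul (.r 2 621 744 2) (.q 0)) (.mul (.r 2 622 744 2) (.v 0))) (.mul (.c 2) (.mul (.mul (.c 86) (.v 1)) (.mul (.c 86) (.v 1))))) (.w 0 1)) (.add (.mul (.add (.mul (.r 2 623 744 2) (.q 0)) (.mul (.r 2 624 744 2) (.v 0))) (.sub (.mul (.mul (.c 1024) (.mul (.c 2) (.add (.mul (.c 853) (.w 0 1)) (.mul (.c 171) (.q 0))))) (.w 1 2)) (.mul (.mul (.c 24) (.mul (.mul (.c 86) (.v 1)) (.mul (.c 86) (.v 1)))) (.w 0 1)))) (.mul (.mul (.mul (.c 1048576) (.mul (.add (.mul (.r 2 625 744 2) (.q 0)) (.mul (.r 2 626 744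 2) (.v 0))) (.c 2))) (.w 0 1)) (.w 1 2)))))))))) (.w 0 1)) (.w 2 1))), 94, 4, 3, 3, 1⟩,
  ⟨(.sub (.sub (.mul (.mul (.mul (.c 16777216) (.mul (.add (.mul (.mul (.c 1024) (.s 2 87 744 2)) (.w 0 1)) (.mul (.mul (.c 171) (.v 0)) (.s 2 90 744 2))) (.c 1))) (.w 0 1)) (.w 2 1)) (.add (.mul (.c 1024) (.add (.mul (.mul (.mul (.c 16777216) (.mul (.s 2 168 744 2) (.c 1))) (.w 0 2)) (.w 2 1)) (.mul (.sub (.add (.mul (.q 2) (.r 0 5 1 3)) (.mul (.v 2) (.r 0 749 1 3))) (.mul (.mul (.mul (.c 16777216) (.c 1)) (.w 0 2)) (.w 2 1))) (.mul (.s 2 172 744 2) (.c 1))))) (.mul (.add (.add (.mul (.r 2 49 744 2) (.mul (.add (.mul (.mul (.c 1024) (.s 2 57 744 2)) (.w 0 1)) (.mul (.mul (.c 171) (.v 0)) (.s 2 60 744 2))) (.c 1))) (.mul (.r 2 53 744 2) (.mul (.add (.mul (.mul (.c 1024) (.s 2 93 744 2)) (.w 0 1)) (.mul (.mul (.c 171) (.v 0)) (.s 2 96 744 2))) (.c 1)))) (.add (.mul (.r 2 50 744 2) (.mul (.add (.mul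 (.mul (.c 1024) (.s 2 75 744 2)) (.w 0 1)) (.mul (.mul (.c 171) (.v 0)) (.s 2 78 744 2))) (.c 1))) (.mul (.r 2 54 744 2) (.mul (.add (.mul (.mul (.c 1024) (.s 2 111 744 2)) (.w 0 1)) (.mul (.mul (.c 171) (.v 0)) (.s 2 114 744 2))) (.c 1))))) (.w 0 1)))) (.mul (.mul (.mul (.c 17179869184) (.add (.mul (.add (.mul (.r 2 605 744 2) (.q 0)) (.mul (.r 2 606 744 2) (.v 0))) (.sub (.c 0) (.mul (.c 12) (.c 1)))) (.add (.mul (.add (.mul (.r 2 609 744 2) (.q 0)) (.mul (.r 2 610 744 2) (.v 0))) (.c 1)) (.add (.mul (.add (.mul (.r 2 613 744 2) (.q 0)) (.mul (.r 2 614 744 2) (.v 0))) (.sub (.c 0) (.mul (.c 12) (.c 1)))) (.add (.mul (.add (.mul (.r 2 615 744 2) (.q 0)) (.mul (.r 2 616 744 2) (.v 0))) (.sub (.c 0) (.mul (.c 12) (.c 1)))) (.add (.mul (.add (.mul (.r 2 619 744 2) (.q 0)) (.mul (.r 2 620 744 2) (.v 0))) (.c 1)) (.mul (.add (.mul (.r 2 623 744 2) (.q 0)) (.mul (.r 2 624 744 2) (.v 0)))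 (.sub (.c 0) (.mul (.c 12) (.c 1)))))))))) (.w 0 1)) (.w 2 1))), 81, 3, 1, 3, 1⟩,
  ⟨(.sub (.sub (.mul (.mul (.mul (.c 16777216) (.mul (.s 2 88 744 2) (.c 1))) (.w 0 2)) (.w 2 1)) (.add (.add (.mul (.mul (.mul (.c 16777216) (.mul (.s 2 169 744 2) (.c 1))) (.w 0 2)) (.w 2 1)) (.mul (.sub (.add (.mul (.q 2) (.r 0 5 1 3)) (.mul (.v 2) (.r 0 749 1 3))) (.mul (.mul (.mul (.c 16777216) (.c 1)) (.w 0 2)) (.w 2 1))) (.mul (.s 2 173 744 2) (.c 1)))) (.mul (.add (.add (.mul (.r 2 49 744 2) (.mul (.s 2 58 744 2) (.c 1))) (.mul (.r 2 53 744 2) (.mul (.s 2 94 744 2) (.c 1)))) (.add (.mul (.r 2 50 744 2) (.mul (.s 2 76 744 2) (.c 1))) (.mul (.r 2 54 744 2) (.mul (.s 2 112 744 2) (.c 1))))) (.w 0 2)))) (.mul (.mul (.mul (.c 16777216) (.add (.mul (.add (.mul (.r 2 607 744 2) (.q 0)) (.mul (.r 2 608 744 2) (.v 0))) (.sub (.c 0) (.mul (.c 12) (.c 1)))) (.add (.mul (.add (.mul (.r 2 611 744 2) (.q 0))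 (.mul (.r 2 612 744 2) (.v 0))) (.mul (.c 2) (.c 1))) (.add (.mul (.add (.mul (.r 2 613 744 2) (.q 0)) (.mul (.r 2 614 744 2) (.v 0))) (.sub (.c 0) (.mul (.c 24) (.c 1)))) (.add (.mul (.add (.mul (.r 2 617 744 2) (.q 0)) (.mul (.r 2 618 744 2) (.v 0))) (.sub (.c 0) (.mul (.c 12) (.c 1)))) (.add (.mul (.add (.mul (.r 2 621 744 2) (.q 0)) (.mul (.r 2 622 744 2) (.v 0))) (.mul (.c 2) (.c 1))) (.mul (.add (.mul (.r 2 623 744 2) (.q 0)) (.mul (.r 2 624 744 2) (.v 0))) (.sub (.c 0) (.mul (.c 24) (.c 1)))))))))) (.w 0 1)) (.w 2 1))), 71, 3, 1, 3, 1⟩,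
  ⟨(.sub (.sub (.mul (.mul (.mul (.c 16777216) (.mul (.s 2 89 744 2) (.c 1))) (.w 0 2)) (.w 2 1)) (.add (.add (.mul (.mul (.mul (.c 16777216) (.mul (.s 2 170 744 2) (.c 1))) (.w 0 2)) (.w 2 1)) (.mul (.sub (.add (.mul (.q 2) (.r 0 5 1 3)) (.mul (.v 2) (.r 0 749 1 3))) (.mul (.mul (.mul (.c 16777216) (.c 1)) (.w 0 2)) (.w 2 1))) (.mul (.s 2 174 744 2) (.c 1)))) (.mul (.add (.add (.mul (.r 2 49 744 2) (.mul (.s 2 59 744 2) (.c 1))) (.mul (.r 2 53 744 2) (.mul (.s 2 95 744 2) (.c 1)))) (.add (.mul (.r 2 50 744 2) (.mul (.s 2 77 744 2) (.c 1))) (.mul (.r 2 54 744 2) (.mul (.s 2 113 744 2) (.c 1))))) (.w 0 2)))) (.mul (.mul (.mul (.c 16777216) (.add (.mul (.add (.mul (.r 2 609 744 2) (.q 0)) (.mul (.r 2 610 744 2) (.v 0))) (.sub (.c 0) (.mul (.c 12) (.c 1)))) (.add (.mul (.add (.mul (.r 2 611 744 2) (.q 0)) (.mul (.r 2 612 744 2) (.v 0))) (.sub (.c 0) (.mul (.c 12) (.c 1)))) (.add (.mul (.add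 (.mul (.r 2 613 744 2) (.q 0)) (.mul (.r 2 614 744 2) (.v 0))) (.mul (.c 144) (.c 1))) (.add (.mul (.add (.mul (.r 2 619 744 2) (.q 0)) (.mul (.r 2 620 744 2) (.v 0))) (.sub (.c 0) (.mul (.c 12) (.c 1)))) (.add (.mul (.add (.mul (.r 2 621 744 2) (.q 0)) (.mul (.r 2 622 744 2) (.v 0))) (.sub (.c 0) (.mul (.c 12) (.c 1)))) (.mul (.add (.mul (.r 2 623 744 2) (.q 0)) (.mul (.r 2 624 744 2) (.v 0))) (.mul (.c 144) (.c 1))))))))) (.w 0 1)) (.w 2 1))), 71, 3, 1, 3, 1⟩,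
  ⟨(.sub (.mul (.mul (.mul (.c 0) (.w 0 1)) (.w 1 2)) (.w 2 1)) (.add (.mul (.mul (.c 1024) (.mul (.add (.mul (.r 2 615 744 2) (.q 0)) (.mul (.r 2 616 744 2) (.v 0))) (.sub (.mul (.c 0) (.w 1 1)) (.mul (.c 12) (.mul (.c 86) (.v 1)))))) (.w 1 1)) (.add (.mul (.add (.mul (.r 2 619 744 2) (.q 0)) (.mul (.r 2 620 744 2) (.v 0))) (.sub (.mul (.mul (.c 1024) (.mul (.c 86) (.v 1))) (.w 1 1)) (.mul (.c 12) (.mul (.mul (.c 86) (.v 1)) (.mul (.c 86) (.v 1)))))) (.add (.mul (.add (.mul (.r 2 621 744 2) (.q 0)) (.mul (.r 2 622 744 2) (.v 0))) (.sub (.mul (.c 0) (.w 1 2)) (.mul (.c 12) (.mul (.mul (.c 86) (.v 1)) (.mul (.c 86) (.v 1)))))) (.add (.mul (.add (.mul (.r 2 623 744 2) (.q 0)) (.mul (.r 2 624 744 2) (.v 0))) (.sub (.mul (.c 144) (.mul (.mul (.c 86) (.v 1)) (.mul (.c 86) (.v 1)))) (.mul (.mul (.c 1024) (.mul (.c 12) (.mul (.c 86) (.v 1)))) (.w 1 1)))) (.mul (.mul (.c 1048576) (.mul (.add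 (.mul (.r 2 625 744 2) (.q 0)) (.mul (.r 2 626 744 2) (.v 0))) (.sub (.c 0) (.mul (.c 12) (.c 1))))) (.w 1 2))))))), 60, 2, 3, 2, 1⟩,
  ⟨(.sub (.mul (.sub (.mul (.mul (.mul (.c 16777216) (.add (.mul (.mul (.c 1024) (.mul (.s 2 121 744 2) (.add (.mul (.mul (.c 767) (.w 0 1)) (.w 1 1)) (.add (.mul (.mul (.c 171) (.q 0)) (.w 1 1)) (.mul (.mul (.c 86) (.q 1)) (.w 0 1)))))) (.w 0 1)) (.mul (.s 2 122 744 2) (.mul (.mul (.c 171) (.v 0)) (.add (.mul (.mul (.c 767) (.w 0 1)) (.w 1 1)) (.add (.mul (.mul (.c 171) (.q 0)) (.w 1 1)) (.mul (.mul (.c 86) (.q 1)) (.w 0 1)))))))) (.w 0 1)) (.w 2 1)) (.add (.mul (.c 1024) (.add (.add (.mul (.mul (.mul (.c 16777216) (.mul (.s 2 175 744 2) (.add (.mul (.mul (.c 767) (.w 0 1)) (.w 1 1)) (.add (.mul (.mul (.c 171) (.q 0)) (.w 1 1)) (.mul (.mul (.c 86) (.q 1)) (.w 0 1)))))) (.w 0 2)) (.w 2 1)) (.mul (.add (.mul (.q 2) (.r 0 41 1 3)) (.mul (.v 2) (.r 0 785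 1 3))) (.mul (.s 2 179 744 2) (.add (.mul (.mul (.c 767) (.w 0 1)) (.w 1 1)) (.add (.mul (.mul (.c 171) (.q 0)) (.w 1 1)) (.mul (.mul (.c 86) (.q 1)) (.w 0 1))))))) (.mul (.sub (.add (.mul (.q 2) (.r 0 5 1 3)) (.mul (.v 2) (.r 0 749 1 3))) (.mul (.mul (.mul (.c 16777216) (.c 1)) (.w 0 2)) (.w 2 1))) (.mul (.s 2 183 744 2) (.add (.mul (.mul (.c 767) (.w 0 1)) (.w 1 1)) (.add (.mul (.mul (.c 171) (.q 0)) (.w 1 1)) (.mul (.mul (.c 86) (.q 1)) (.w 0 1)))))))) (.mul (.add (.add (.mul (.r 2 49 744 2) (.add (.mul (.mul (.c 1024) (.mul (.s 2 91 744 2) (.add (.mul (.mul (.c 767) (.w 0 1)) (.w 1 1)) (.add (.mul (.mul (.c 171) (.q 0)) (.w 1 1)) (.mul (.mul (.c 86) (.q 1)) (.w 0 1)))))) (.w 0 1)) (.mul (.s 2 92 744 2) (.mul (.mul (.c 171) (.v 0)) (.add (.mul (.mul (.c 767) (.w 0 1)) (.w 1 1)) (.add (.mul (.mul (.c 171) (.q 0)) (.w 1 1)) (.mul (.mul (.c 86) (.q 1)) (.w 0 1)))))))) (.mul (.r 2 53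 744 2) (.add (.mul (.mul (.c 1024) (.mul (.s 2 55 744 2) (.add (.mul (.mul (.c 767) (.w 0 1)) (.w 1 1)) (.add (.mul (.mul (.c 171) (.q 0)) (.w 1 1)) (.mul (.mul (.c 86) (.q 1)) (.w 0 1)))))) (.w 0 1)) (.mul (.s 2 56 744 2) (.mul (.mul (.c 171) (.v 0)) (.add (.mul (.mul (.c 767) (.w 0 1)) (.w 1 1)) (.add (.mul (.mul (.c 171) (.q 0)) (.w 1 1)) (.mul (.mul (.c 86) (.q 1)) (.w 0 1))))))))) (.add (.mul (.r 2 50 744 2) (.add (.mul (.mul (.c 1024) (.mul (.s 2 109 744 2) (.add (.mul (.mul (.c 767) (.w 0 1)) (.w 1 1)) (.add (.mul (.mul (.c 171) (.q 0)) (.w 1 1)) (.mul (.mul (.c 86) (.q 1)) (.w 0 1)))))) (.w 0 1)) (.mul (.s 2 110 744 2) (.mul (.mul (.c 171) (.v 0)) (.add (.mul (.mul (.c 767) (.w 0 1)) (.w 1 1)) (.add (.mul (.mul (.c 171) (.q 0)) (.w 1 1)) (.mul (.mul (.c 86) (.q 1)) (.w 0 1)))))))) (.mul (.r 2 54 744 2) (.add (.mul (.mul (.c 1024) (.mul (.s 2 73 744 2) (.add (.mul (.mul (.c 767)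 (.w 0 1)) (.w 1 1)) (.add (.mul (.mul (.c 171) (.q 0)) (.w 1 1)) (.mul (.mul (.c 86) (.q 1)) (.w 0 1)))))) (.w 0 1)) (.mul (.s 2 74 744 2) (.mul (.mul (.c 171) (.v 0)) (.add (.mul (.mul (.c 767) (.w 0 1)) (.w 1 1)) (.add (.mul (.mul (.c 171) (.q 0)) (.w 1 1)) (.mul (.mul (.c 86) (.q 1)) (.w 0 1)))))))))) (.w 0 1)))) (.w 1 1)) (.mul (.mul (.mul (.c 16777216) (.add (.mul (.mul (.c 1024) (.mul (.add (.mul (.r 2 627 744 2) (.q 0)) (.mul (.r 2 628 744 2) (.v 0))) (.mul (.c 2) (.add (.mul (.mul (.c 767) (.w 0 1)) (.w 1 1)) (.add (.mul (.mul (.c 171) (.q 0)) (.w 1 1)) (.mul (.mul (.c 86) (.q 1)) (.w 0 1))))))) (.w 1 1)) (.add (.mul (.mul (.c 1024) (.mul (.add (.mul (.r 2 629 744 2) (.q 0)) (.mul (.r 2 630 744 2) (.v 0))) (.add (.mul (.mul (.c 767) (.w 0 1)) (.w 1 1)) (.add (.mul (.mul (.c 171) (.q 0)) (.w 1 1)) (.mul (.mul (.c 86) (.q 1)) (.w 0 1)))))) (.w 1 1)) (.add (.mul (.mul (.c 1024)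 (.mul (.add (.mul (.r 2 635 744 2) (.q 0)) (.mul (.r 2 636 744 2) (.v 0))) (.mul (.c 2) (.add (.mul (.mul (.c 767) (.w 0 1)) (.w 1 1)) (.add (.mul (.mul (.c 171) (.q 0)) (.w 1 1)) (.mul (.mul (.c 86) (.q 1)) (.w 0 1))))))) (.w 1 1)) (.add (.mul (.mul (.c 1024) (.mul (.add (.mul (.r 2 637 744 2) (.q 0)) (.mul (.r 2 638 744 2) (.v 0))) (.mul (.c 2) (.add (.mul (.c 853) (.w 0 1)) (.mul (.c 171) (.q 0)))))) (.w 1 2)) (.add (.mul (.add (.mul (.r 2 639 744 2) (.q 0)) (.mul (.r 2 640 744 2) (.v 0))) (.sub (.mul (.mul (.c 1024) (.add (.mul (.c 853) (.w 0 1)) (.mul (.c 171) (.q 0)))) (.w 1 2)) (.mul (.mul (.c 12) (.mul (.mul (.c 86) (.v 1)) (.mul (.c 86) (.v 1)))) (.w 0 1)))) (.add (.mul (.mul (.add (.mul (.r 2 643 744 2) (.q 0)) (.mul (.r 2 644 744 2) (.v 0))) (.mul (.c 2) (.mul (.mul (.c 86) (.v 1)) (.mul (.c 86) (.v 1))))) (.w 0 1)) (.add (.mul (.add (.mul (.r 2 645 744 2) (.q 0)) (.mul (.r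 2 646 744 2) (.v 0))) (.sub (.mul (.mul (.c 1024) (.mul (.c 2) (.add (.mul (.c 853) (.w 0 1)) (.mul (.c 171) (.q 0))))) (.w 1 2)) (.mul (.mul (.c 24) (.mul (.mul (.c 86) (.v 1)) (.mul (.c 86) (.v 1)))) (.w 0 1)))) (.mul (.mul (.mul (.c 1048576) (.mul (.add (.mul (.r 2 647 744 2) (.q 0)) (.mul (.r 2 648 744 2) (.v 0))) (.c 2))) (.w 0 1)) (.w 1 2)))))))))) (.w 0 1)) (.w 2 1))), 94, 4, 3, 3, 1⟩,
  ⟨(.sub (.sub (.mul (.mul (.mul (.c 16777216) (.mul (.add (.mul (.mul (.c 1024) (.s 2 123 744 2)) (.w 0 1)) (.mul (.mul (.c 171) (.v 0)) (.s 2 126 744 2))) (.c 1))) (.w 0 1)) (.w 2 1)) (.add (.mul (.c 1024) (.add (.add (.mul (.mul (.mul (.c 16777216) (.mul (.s 2 176 744 2) (.c 1))) (.w 0 2)) (.w 2 1)) (.mul (.add (.mul (.q 2) (.r 0 41 1 3)) (.mul (.v 2) (.r 0 785 1 3))) (.mul (.s 2 180 744 2) (.c 1)))) (.mul (.sub (.add (.mul (.q 2) (.r 0 5 1 3)) (.mul (.v 2) (.r 0 749 1 3))) (.mul (.mul (.mul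 (.c 16777216) (.c 1)) (.w 0 2)) (.w 2 1))) (.mul (.s 2 184 744 2) (.c 1))))) (.mul (.add (.add (.mul (.r 2 49 744 2) (.mul (.add (.mul (.mul (.c 1024) (.s 2 93 744 2)) (.w 0 1)) (.mul (.mul (.c 171) (.v 0)) (.s 2 96 744 2))) (.c 1))) (.mul (.r 2 53 744 2) (.mul (.add (.mul (.mul (.c 1024) (.s 2 57 744 2)) (.w 0 1)) (.mul (.mul (.c 171) (.v 0)) (.s 2 60 744 2))) (.c 1)))) (.add (.mul (.r 2 50 744 2) (.mul (.add (.mul (.mul (.c 1024) (.s 2 111 744 2)) (.w 0 1)) (.mul (.mul (.c 171) (.v 0)) (.s 2 114 744 2))) (.c 1))) (.mul (.r 2 54 744 2) (.mul (.add (.mul (.mul (.c 1024) (.s 2 75 744 2)) (.w 0 1)) (.mul (.mul (.c 171) (.v 0)) (.s 2 78 744 2))) (.c 1))))) (.w 0 1)))) (.mul (.mul (.mul (.c 17179869184) (.add (.mul (.add (.mul (.r 2 627 744 2) (.q 0)) (.mul (.r 2 628 744 2) (.v 0))) (.sub (.c 0) (.mul (.c 12) (.c 1)))) (.add (.mul (.add (.mul (.r 2 631 744 2) (.q 0)) (.mul (.r 2 632 744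 2) (.v 0))) (.c 1)) (.add (.mul (.add (.mul (.r 2 635 744 2) (.q 0)) (.mul (.r 2 636 744 2) (.v 0))) (.sub (.c 0) (.mul (.c 12) (.c 1)))) (.add (.mul (.add (.mul (.r 2 637 744 2) (.q 0)) (.mul (.r 2 638 744 2) (.v 0))) (.sub (.c 0) (.mul (.c 12) (.c 1)))) (.add (.mul (.add (.mul (.r 2 641 744 2) (.q 0)) (.mul (.r 2 642 744 2) (.v 0))) (.c 1)) (.mul (.add (.mul (.r 2 645 744 2) (.q 0)) (.mul (.r 2 646 744 2) (.v 0))) (.sub (.c 0) (.mul (.c 12) (.c 1)))))))))) (.w 0 1)) (.w 2 1))), 81, 3, 1, 3, 1⟩,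
  ⟨(.sub (.sub (.mul (.mul (.mul (.c 16777216) (.mul (.s 2 124 744 2) (.c 1))) (.w 0 2)) (.w 2 1)) (.add (.add (.add (.mul (.mul (.mul (.c 16777216) (.mul (.s 2 177 744 2) (.c 1))) (.w 0 2)) (.w 2 1)) (.mul (.add (.mul (.q 2) (.r 0 41 1 3)) (.mul (.v 2) (.r 0 785 1 3))) (.mul (.s 2 181 744 2) (.c 1)))) (.mul (.sub (.add (.mul (.q 2) (.r 0 5 1 3)) (.mul (.v 2) (.r 0 749 1 3))) (.mul (.mul (.mul (.c 16777216) (.c 1)) (.w 0 2)) (.w 2 1))) (.mul (.s 2 185 744 2) (.c 1)))) (.mul (.add (.add (.mul (.r 2 49 744 2) (.mul (.s 2 94 744 2) (.c 1))) (.mul (.r 2 53 744 2) (.mul (.s 2 58 744 2) (.c 1)))) (.add (.mul (.r 2 50 744 2) (.mul (.s 2 112 744 2) (.c 1))) (.mul (.r 2 54 744 2) (.mul (.s 2 76 744 2) (.c 1))))) (.w 0 2)))) (.mul (.mul (.mul (.c 16777216) (.add (.mul (.add (.mul (.r 2 629 744 2) (.q 0)) (.mul (.r 2 630 744 2) (.v 0))) (.sub (.c 0) (.mul (.c 12) (.c 1)))) (.add (.mul (.add (.mul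 (.r 2 633 744 2) (.q 0)) (.mul (.r 2 634 744 2) (.v 0))) (.mul (.c 2) (.c 1))) (.add (.mul (.add (.mul (.r 2 635 744 2) (.q 0)) (.mul (.r 2 636 744 2) (.v 0))) (.sub (.c 0) (.mul (.c 24) (.c 1)))) (.add (.mul (.add (.mul (.r 2 639 744 2) (.q 0)) (.mul (.r 2 640 744 2) (.v 0))) (.sub (.c 0) (.mul (.c 12) (.c 1)))) (.add (.mul (.add (.mul (.r 2 643 744 2) (.q 0)) (.mul (.r 2 644 744 2) (.v 0))) (.mul (.c 2) (.c 1))) (.mul (.add (.mul (.r 2 645 744 2) (.q 0)) (.mul (.r 2 646 744 2) (.v 0))) (.sub (.c 0) (.mul (.c 24) (.c 1)))))))))) (.w 0 1)) (.w 2 1))), 71, 3, 1, 3, 1⟩,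
  ⟨(.sub (.sub (.mul (.mul (.mul (.c 16777216) (.mul (.s 2 125 744 2) (.c 1))) (.w 0 2)) (.w 2 1)) (.add (.add (.add (.mul (.mul (.mul (.c 16777216) (.mul (.s 2 178 744 2) (.c 1))) (.w 0 2)) (.w 2 1)) (.mul (.add (.mul (.q 2) (.r 0 41 1 3)) (.mul (.v 2) (.r 0 785 1 3))) (.mul (.s 2 182 744 2) (.c 1)))) (.mul (.sub (.add (.mul (.q 2) (.r 0 5 1 3)) (.mul (.v 2) (.r 0 749 1 3))) (.mul (.mul (.mul (.c 16777216) (.c 1)) (.w 0 2)) (.w 2 1))) (.mul (.s 2 186 744 2) (.c 1)))) (.mul (.add (.add (.mul (.r 2 49 744 2) (.mul (.s 2 95 744 2) (.c 1))) (.mul (.r 2 53 744 2) (.mul (.s 2 59 744 2) (.c 1)))) (.add (.mul (.r 2 50 744 2) (.mul (.s 2 113 744 2) (.c 1))) (.mul (.r 2 54 744 2) (.mul (.s 2 77 744 2) (.c 1))))) (.w 0 2)))) (.mul (.mul (.mul (.c 16777216) (.add (.mul (.add (.mul (.r 2 631 744 2) (.q 0)) (.mul (.r 2 632 744 2) (.v 0))) (.sub (.c 0) (.mul (.c 12) (.c 1)))) (.add (.mul (.add (.mul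 (.r 2 633 744 2) (.q 0)) (.mul (.r 2 634 744 2) (.v 0))) (.sub (.c 0) (.mul (.c 12) (.c 1)))) (.add (.mul (.add (.mul (.r 2 635 744 2) (.q 0)) (.mul (.r 2 636 744 2) (.v 0))) (.mul (.c 144) (.c 1))) (.add (.mul (.add (.mul (.r 2 641 744 2) (.q 0)) (.mul (.r 2 642 744 2) (.v 0))) (.sub (.c 0) (.mul (.c 12) (.c 1)))) (.add (.mul (.add (.mul (.r 2 643 744 2) (.q 0)) (.mul (.r 2 644 744 2) (.v 0))) (.sub (.c 0) (.mul (.c 12) (.c 1)))) (.mul (.add (.mul (.r 2 645 744 2) (.q 0)) (.mul (.r 2 646 744 2) (.v 0))) (.mul (.c 144) (.c 1))))))))) (.w 0 1)) (.w 2 1))), 71, 3, 1, 3, 1⟩,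
  ⟨(.sub (.mul (.mul (.mul (.c 0) (.w 0 1)) (.w 1 2)) (.w 2 1)) (.add (.mul (.mul (.c 1024) (.mul (.add (.mul (.r 2 637 744 2) (.q 0)) (.mul (.r 2 638 744 2) (.v 0))) (.sub (.mul (.c 0) (.w 1 1)) (.mul (.c 12) (.mul (.c 86) (.v 1)))))) (.w 1 1)) (.add (.mul (.add (.mul (.r 2 641 744 2) (.q 0)) (.mul (.r 2 642 744 2) (.v 0))) (.sub (.mul (.mul (.c 1024) (.mul (.c 86) (.v 1))) (.w 1 1)) (.mul (.c 12) (.mul (.mul (.c 86) (.v 1)) (.mul (.c 86) (.v 1)))))) (.add (.mul (.add (.mul (.r 2 643 744 2) (.q 0)) (.mul (.r 2 644 744 2) (.v 0))) (.sub (.mul (.c 0) (.w 1 2)) (.mul (.c 12) (.mul (.mul (.c 86) (.v 1)) (.mul (.c 86) (.v 1)))))) (.add (.mul (.add (.mul (.r 2 645 744 2) (.q 0)) (.mul (.r 2 646 744 2) (.v 0))) (.sub (.mul (.c 144) (.mul (.mul (.c 86) (.v 1)) (.mul (.c 86) (.v 1)))) (.mul (.mul (.c 1024) (.mul (.c 12) (.mul (.c 86) (.v 1)))) (.w 1 1)))) (.mul (.mul (.c 1048576) (.mul (.add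 (.mul (.r 2 647 744 2) (.q 0)) (.mul (.r 2 648 744 2) (.v 0))) (.sub (.c 0) (.mul (.c 12) (.c 1))))) (.w 1 2))))))), 60, 2, 3, 2, 1⟩,
  ⟨(.sub (.add (.mul (.mul (.c 1024) (.mul (.s 2 85 744 2) (.add (.mul (.mul (.c 767) (.w 0 1)) (.w 1 1)) (.add (.mul (.mul (.c 171) (.q 0)) (.w 1 1)) (.mul (.mul (.c 86) (.q 1)) (.w 0 1)))))) (.w 0 1)) (.mul (.s 2 86 744 2) (.mul (.mul (.c 171) (.v 0)) (.add (.mul (.mul (.c 767) (.w 0 1)) (.w 1 1)) (.add (.mul (.mul (.c 171) (.q 0)) (.w 1 1)) (.mul (.mul (.c 86) (.q 1)) (.w 0 1))))))) (.mul (.mul (.c 1024) (.add (.mul (.r 2 649 744 2) (.mul (.c 2) (.add (.mul (.mul (.c 767) (.w 0 1)) (.w 1 1)) (.add (.mul (.mul (.c 171) (.q 0)) (.w 1 1)) (.mul (.mul (.c 86) (.q 1)) (.w 0 1)))))) (.add (.mul (.r 2 650 744 2) (.add (.mul (.mul (.c 767) (.w 0 1)) (.w 1 1)) (.add (.mul (.mul (.c 171) (.q 0)) (.w 1 1)) (.mul (.mul (.c 86) (.q 1)) (.w 0 1))))) (.mul (.r 2 653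 744 2) (.mul (.c 2) (.add (.mul (.mul (.c 767) (.w 0 1)) (.w 1 1)) (.add (.mul (.mul (.c 171) (.q 0)) (.w 1 1)) (.mul (.mul (.c 86) (.q 1)) (.w 0 1))))))))) (.w 0 1))), 59, 3, 2, 2, 1⟩,
  ⟨(.sub (.mul (.add (.mul (.mul (.c 1024) (.s 2 87 744 2)) (.w 0 1)) (.mul (.mul (.c 171) (.v 0)) (.s 2 90 744 2))) (.c 1)) (.mul (.mul (.c 1024) (.add (.mul (.r 2 649 744 2) (.sub (.c 0) (.mul (.c 12) (.c 1)))) (.add (.mul (.r 2 651 744 2) (.c 1)) (.mul (.r 2 653 744 2) (.sub (.c 0) (.mul (.c 12) (.c 1))))))) (.w 0 1))), 49, 2, 1, 2, 1⟩,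
  ⟨(.sub (.mul (.s 2 88 744 2) (.c 1)) (.add (.mul (.r 2 650 744 2) (.sub (.c 0) (.mul (.c 12) (.c 1)))) (.add (.mul (.r 2 652 744 2) (.mul (.c 2) (.c 1))) (.mul (.r 2 653 744 2) (.sub (.c 0) (.mul (.c 24) (.c 1))))))), 39, 1, 1, 2, 1⟩,
  ⟨(.sub (.mul (.s 2 89 744 2) (.c 1)) (.add (.mul (.r 2 651 744 2) (.sub (.c 0) (.mul (.c 12) (.c 1)))) (.add (.mul (.r 2 652 744 2) (.sub (.c 0) (.mul (.c 12) (.c 1)))) (.mul (.r 2 653 744 2) (.mul (.c 144) (.c 1)))))), 41, 1, 1, 2, 1⟩,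
  ⟨(.sub (.add (.mul (.mul (.c 1024) (.mul (.s 2 121 744 2) (.add (.mul (.mul (.c 767) (.w 0 1)) (.w 1 1)) (.add (.mul (.mul (.c 171) (.q 0)) (.w 1 1)) (.mul (.mul (.c 86) (.q 1)) (.w 0 1)))))) (.w 0 1)) (.mul (.s 2 122 744 2) (.mul (.mul (.c 171) (.v 0)) (.add (.mul (.mul (.c 767) (.w 0 1)) (.w 1 1)) (.add (.mul (.mul (.c 171) (.q 0)) (.w 1 1)) (.mul (.mul (.c 86) (.q 1)) (.w 0 1))))))) (.mul (.mul (.c 1024) (.add (.mul (.r 2 654 744 2) (.mul (.c 2) (.add (.mul (.mul (.c 767) (.w 0 1)) (.w 1 1)) (.add (.mul (.mul (.c 171) (.q 0)) (.w 1 1)) (.mul (.mul (.c 86) (.q 1)) (.w 0 1)))))) (.add (.mul (.r 2 655 744 2) (.add (.mul (.mul (.c 767) (.w 0 1)) (.w 1 1)) (.add (.mul (.mul (.c 171) (.q 0)) (.w 1 1)) (.mul (.mul (.c 86) (.q 1)) (.w 0 1))))) (.mul (.r 2 658 744 2) (.mul (.c 2) (.add (.mul (.mul (.c 767) (.w 0 1)) (.w 1 1)) (.add (.mul (.mul (.c 171) (.q 0)) (.w 1 1)) (.mul (.mul (.c 86)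 (.q 1)) (.w 0 1))))))))) (.w 0 1))), 59, 3, 2, 2, 1⟩,
  ⟨(.sub (.mul (.add (.mul (.mul (.c 1024) (.s 2 123 744 2)) (.w 0 1)) (.mul (.mul (.c 171) (.v 0)) (.s 2 126 744 2))) (.c 1)) (.mul (.mul (.c 1024) (.add (.mul (.r 2 654 744 2) (.sub (.c 0) (.mul (.c 12) (.c 1)))) (.add (.mul (.r 2 656 744 2) (.c 1)) (.mul (.r 2 658 744 2) (.sub (.c 0) (.mul (.c 12) (.c 1))))))) (.w 0 1))), 49, 2, 1, 2, 1⟩,
  ⟨(.sub (.mul (.s 2 124 744 2) (.c 1)) (.add (.mul (.r 2 655 744 2) (.sub (.c 0) (.mul (.c 12) (.c 1)))) (.add (.mul (.r 2 657 744 2) (.mul (.c 2) (.c 1))) (.mul (.r 2 658 744 2) (.sub (.c 0) (.mul (.c 24) (.c 1))))))), 39, 1, 1, 2, 1⟩,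
  ⟨(.sub (.mul (.s 2 125 744 2) (.c 1)) (.add (.mul (.r 2 656 744 2) (.sub (.c 0) (.mul (.c 12) (.c 1)))) (.add (.mul (.r 2 657 744 2) (.sub (.c 0) (.mul (.c 12) (.c 1)))) (.mul (.r 2 658 744 2) (.mul (.c 144) (.c 1)))))), 41, 1, 1, 2, 1⟩,
  ⟨(.sub (.add (.mul (.mul (.c 1024) (.mul (.s 2 73 744 2) (.add (.mul (.mul (.c 767) (.w 0 1)) (.w 1 1)) (.add (.mul (.mul (.c 171) (.q 0)) (.w 1 1)) (.mul (.mul (.c 86) (.q 1)) (.w 0 1)))))) (.w 0 1)) (.mul (.s 2 74 744 2) (.mul (.mul (.c 171) (.v 0)) (.add (.mul (.mul (.c 767) (.w 0 1)) (.w 1 1)) (.add (.mul (.mul (.c 171) (.q 0)) (.w 1 1)) (.mul (.mul (.c 86) (.q 1)) (.w 0 1))))))) (.mul (.mul (.c 1024) (.add (.mul (.r 2 659 744 2) (.mul (.c 2) (.add (.mul (.mul (.c 767) (.w 0 1)) (.w 1 1)) (.add (.mul (.mul (.c 171) (.q 0)) (.w 1 1)) (.mul (.mul (.c 86) (.q 1)) (.w 0 1)))))) (.add (.mul (.r 2 660 744 2) (.add (.mul (.mul (.c 767) (.w 0 1)) (.w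 1 1)) (.add (.mul (.mul (.c 171) (.q 0)) (.w 1 1)) (.mul (.mul (.c 86) (.q 1)) (.w 0 1))))) (.mul (.r 2 663 744 2) (.mul (.c 2) (.add (.mul (.mul (.c 767) (.w 0 1)) (.w 1 1)) (.add (.mul (.mul (.c 171) (.q 0)) (.w 1 1)) (.mul (.mul (.c 86) (.q 1)) (.w 0 1))))))))) (.w 0 1))), 59, 3, 2, 2, 1⟩,
  ⟨(.sub (.mul (.add (.mul (.mul (.c 1024) (.s 2 75 744 2)) (.w 0 1)) (.mul (.mul (.c 171) (.v 0)) (.s 2 78 744 2))) (.c 1)) (.mul (.mul (.c 1024) (.add (.mul (.r 2 659 744 2) (.sub (.c 0) (.mul (.c 12) (.c 1)))) (.add (.mul (.r 2 661 744 2) (.c 1)) (.mul (.r 2 663 744 2) (.sub (.c 0) (.mul (.c 12) (.c 1))))))) (.w 0 1))), 49, 2, 1, 2, 1⟩,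
  ⟨(.sub (.mul (.s 2 76 744 2) (.c 1)) (.add (.mul (.r 2 660 744 2) (.sub (.c 0) (.mul (.c 12) (.c 1)))) (.add (.mul (.r 2 662 744 2) (.mul (.c 2) (.c 1))) (.mul (.r 2 663 744 2) (.sub (.c 0) (.mul (.c 24) (.c 1))))))), 39, 1, 1, 2, 1⟩,
  ⟨(.sub (.mul (.s 2 77 744 2) (.c 1)) (.add (.mul (.r 2 661 744 2) (.sub (.c 0) (.mul (.c 12) (.c 1)))) (.add (.mul (.r 2 662 744 2) (.sub (.c 0) (.mul (.c 12) (.c 1)))) (.mul (.r 2 663 744 2) (.mul (.c 144) (.c 1)))))), 41, 1, 1, 2, 1⟩,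
  ⟨(.sub (.add (.mul (.mul (.c 1024) (.mul (.s 2 109 744 2) (.add (.mul (.mul (.c 767) (.w 0 1)) (.w 1 1)) (.add (.mul (.mul (.c 171) (.q 0)) (.w 1 1)) (.mul (.mul (.c 86) (.q 1)) (.w 0 1)))))) (.w 0 1)) (.mul (.s 2 110 744 2) (.mul (.mul (.c 171) (.v 0)) (.add (.mul (.mul (.c 767) (.w 0 1)) (.w 1 1)) (.add (.mul (.mul (.c 171) (.q 0)) (.w 1 1)) (.mul (.mul (.c 86) (.q 1)) (.w 0 1))))))) (.mul (.mul (.c 1024) (.add (.mul (.r 2 664 744 2) (.mul (.c 2) (.add (.mul (.mul (.c 767) (.w 0 1)) (.w 1 1)) (.add (.mul (.mul (.c 171) (.q 0)) (.w 1 1)) (.mul (.mul (.c 86) (.q 1)) (.w 0 1)))))) (.add (.mul (.r 2 665 744 2) (.add (.mul (.mul (.c 767) (.w 0 1)) (.w 1 1)) (.add (.mul (.mul (.c 171) (.q 0)) (.w 1 1)) (.mul (.mul (.c 86) (.q 1)) (.w 0 1))))) (.mul (.r 2 668 744 2) (.mul (.c 2) (.add (.mul (.mul (.c 767) (.w 0 1)) (.w 1 1)) (.add (.mul (.mul (.c 171) (.q 0)) (.w 1 1)) (.mul (.mul (.c 86)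 (.q 1)) (.w 0 1))))))))) (.w 0 1))), 59, 3, 2, 2, 1⟩,
  ⟨(.sub (.mul (.add (.mul (.mul (.c 1024) (.s 2 111 744 2)) (.w 0 1)) (.mul (.mul (.c 171) (.v 0)) (.s 2 114 744 2))) (.c 1)) (.mul (.mul (.c 1024) (.add (.mul (.r 2 664 744 2) (.sub (.c 0) (.mul (.c 12) (.c 1)))) (.add (.mul (.r 2 666 744 2) (.c 1)) (.mul (.r 2 668 744 2) (.sub (.c 0) (.mul (.c 12) (.c 1))))))) (.w 0 1))), 49, 2, 1, 2, 1⟩,
  ⟨(.sub (.mul (.s 2 112 744 2) (.c 1)) (.add (.mul (.r 2 665 744 2) (.sub (.c 0) (.mul (.c 12) (.c 1)))) (.add (.mul (.r 2 667 744 2) (.mul (.c 2) (.c 1))) (.mul (.r 2 668 744 2) (.sub (.c 0) (.mul (.c 24) (.c 1))))))), 39, 1, 1, 2, 1⟩,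
  ⟨(.sub (.mul (.s 2 113 744 2) (.c 1)) (.add (.mul (.r 2 666 744 2) (.sub (.c 0) (.mul (.c 12) (.c 1)))) (.add (.mul (.r 2 667 744 2) (.sub (.c 0) (.mul (.c 12) (.c 1)))) (.mul (.r 2 668 744 2) (.mul (.c 144) (.c 1)))))), 41, 1, 1, 2, 1⟩,
  ⟨(.sub (.sub (.mul (.mul (.mul (.c 17592186044416) (.add (.mul (.q 2) (.r 0 11 1 3)) (.mul (.v 2) (.r 0 755 1 3)))) (.w 0 2)) (.w 2 1)) (.mul (.add (.mul (.q 2) (.r 0 5 1 3)) (.mul (.v 2) (.r 0 749 1 3))) (.add (.mul (.c 1048576) (.add (.mul (.q 2) (.r 0 14 1 3)) (.mul (.v 2) (.r 0 758 1 3)))) (.add (.mul (.mul (.c 1024) (.mul (.s 2 17 744 2) (.add (.mul (.c 853) (.w 0 1)) (.mul (.c 171) (.q 0))))) (.w 0 1)) (.mul (.s 2 18 744 2) (.mul (.mul (.c 171) (.v 0)) (.add (.mul (.c 853) (.w 0 1)) (.mul (.c 171) (.q 0))))))))) (.mul (.mul (.mul (.c 17179869184) (.add (.mul (.add (.mul (.r 2 217 744 2) (.q 0)) (.mul (.r 2 218 744 2) (.v 0))) (.mul (.c 2) (.add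 (.mul (.c 853) (.w 0 1)) (.mul (.c 171) (.q 0))))) (.add (.mul (.add (.mul (.r 2 219 744 2) (.q 0)) (.mul (.r 2 220 744 2) (.v 0))) (.add (.mul (.c 853) (.w 0 1)) (.mul (.c 171) (.q 0)))) (.mul (.add (.mul (.r 2 225 744 2) (.q 0)) (.mul (.r 2 226 744 2) (.v 0))) (.mul (.c 2) (.add (.mul (.c 853) (.w 0 1)) (.mul (.c 171) (.q 0)))))))) (.w 0 2)) (.w 2 1))), 91, 5, 1, 3, 1⟩,
  ⟨(.sub (.sub (.mul (.mul (.c 0) (.w 0 3)) (.w 2 2)) (.mul (.add (.mul (.q 2) (.r 0 5 1 3)) (.mul (.v 2) (.r 0 749 1 3))) (.mul (.add (.mul (.mul (.c 1024) (.s 2 19 744 2)) (.w 0 1)) (.mul (.mul (.c 171) (.v 0)) (.s 2 22 744 2))) (.c 1)))) (.mul (.mul (.mul (.c 17179869184) (.add (.mul (.add (.mul (.r 2 217 744 2) (.q 0)) (.mul (.r 2 218 744 2) (.v 0))) (.sub (.c 0) (.mul (.c 12) (.c 1)))) (.add (.mul (.add (.mul (.r 2 221 744 2) (.q 0)) (.mul (.r 2 222 744 2) (.v 0))) (.c 1)) (.mul (.add (.mul (.r 2 225 744 2) (.q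 0)) (.mul (.r 2 226 744 2) (.v 0))) (.sub (.c 0) (.mul (.c 12) (.c 1))))))) (.w 0 2)) (.w 2 1))), 79, 4, 1, 3, 1⟩,
  ⟨(.sub (.sub (.mul (.mul (.c 0) (.w 0 2)) (.w 2 2)) (.mul (.add (.mul (.q 2) (.r 0 5 1 3)) (.mul (.v 2) (.r 0 749 1 3))) (.mul (.s 2 20 744 2) (.c 1)))) (.mul (.mul (.mul (.c 16777216) (.add (.mul (.add (.mul (.r 2 219 744 2) (.q 0)) (.mul (.r 2 220 744 2) (.v 0))) (.sub (.c 0) (.mul (.c 12) (.c 1)))) (.add (.mul (.add (.mul (.r 2 223 744 2) (.q 0)) (.mul (.r 2 224 744 2) (.v 0))) (.mul (.c 2) (.c 1))) (.mul (.add (.mul (.r 2 225 744 2) (.q 0)) (.mul (.r 2 226 744 2) (.v 0))) (.sub (.c 0) (.mul (.c 24) (.c 1))))))) (.w 0 1)) (.w 2 1))), 68, 3, 1, 3, 1⟩,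
  ⟨(.sub (.sub (.mul (.mul (.c 0) (.w 0 2)) (.w 2 2)) (.mul (.add (.mul (.q 2) (.r 0 5 1 3)) (.mul (.v 2) (.r 0 749 1 3))) (.mul (.s 2 21 744 2) (.c 1)))) (.mul (.mul (.mul (.c 16777216) (.add (.mul (.add (.mul (.r 2 221 744 2) (.q 0)) (.mul (.r 2 222 744 2) (.v 0))) (.sub (.c 0) (.mul (.c 12) (.c 1)))) (.add (.mul (.add (.mul (.r 2 223 744 2) (.q 0)) (.mul (.r 2 224 744 2) (.v 0))) (.sub (.c 0) (.mul (.c 12) (.c 1)))) (.mul (.add (.mul (.r 2 225 744 2) (.q 0)) (.mul (.r 2 226 744 2) (.v 0))) (.mul (.c 144) (.c 1)))))) (.w 0 1)) (.w 2 1))), 69, 3, 1, 3, 1⟩,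
  ⟨(.sub (.add (.mul (.mul (.c 1024) (.mul (.s 2 17 744 2) (.add (.mul (.c 853) (.w 0 1)) (.mul (.c 171) (.q 0))))) (.w 0 1)) (.mul (.s 2 18 744 2) (.mul (.mul (.c 171) (.v 0)) (.add (.mul (.c 853) (.w 0 1)) (.mul (.c 171) (.q 0)))))) (.mul (.c 1024) (.add (.mul (.add (.mul (.r 2 227 744 2) (.q 0)) (.mul (.r 2 228 744 2) (.v 0))) (.mul (.c 2) (.add (.mul (.c 853) (.w 0 1)) (.mul (.c 171) (.q 0))))) (.add (.mul (.add (.mul (.r 2 229 744 2) (.q 0)) (.mul (.r 2 230 744 2) (.v 0))) (.add (.mul (.c 853) (.w 0 1)) (.mul (.c 171) (.q 0)))) (.mul (.add (.mul (.r 2 235 744 2) (.q 0)) (.mul (.r 2 236 744 2) (.v 0))) (.mul (.c 2) (.add (.mul (.c 853) (.w 0 1)) (.mul (.c 171) (.q 0))))))))), 58, 3, 1, 2, 1⟩,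
  ⟨(.sub (.mul (.add (.mul (.mul (.c 1024) (.s 2 19 744 2)) (.w 0 1)) (.mul (.mul (.c 171) (.v 0)) (.s 2 22 744 2))) (.c 1)) (.mul (.c 1024) (.add (.mul (.add (.mul (.r 2 227 744 2) (.q 0)) (.mul (.r 2 228 744 2) (.v 0))) (.sub (.c 0) (.mul (.c 12) (.c 1)))) (.add (.mul (.add (.mul (.r 2 231 744 2) (.q 0)) (.mul (.r 2 232 744 2) (.v 0))) (.c 1)) (.mul (.add (.mul (.r 2 235 744 2) (.q 0)) (.mul (.r 2 236 744 2) (.v 0))) (.sub (.c 0) (.mul (.c 12) (.c 1)))))))), 49, 2, 1, 2, 1⟩,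
  ⟨(.sub (.mul (.mul (.s 2 20 744 2) (.c 1)) (.w 0 1)) (.add (.mul (.add (.mul (.r 2 229 744 2) (.q 0)) (.mul (.r 2 230 744 2) (.v 0))) (.sub (.c 0) (.mul (.c 12) (.c 1)))) (.add (.mul (.add (.mul (.r 2 233 744 2) (.q 0)) (.mul (.r 2 234 744 2) (.v 0))) (.mul (.c 2) (.c 1))) (.mul (.add (.mul (.r 2 235 744 2) (.q 0)) (.mul (.r 2 236 744 2) (.v 0))) (.sub (.c 0) (.mul (.c 24) (.c 1))))))), 40, 2, 1, 2, 1⟩,
  ⟨(.sub (.mul (.mul (.s 2 21 744 2) (.c 1)) (.w 0 1)) (.add (.mul (.add (.mul (.r 2 231 744 2) (.q 0)) (.mul (.r 2 232 744 2) (.v 0))) (.sub (.c 0) (.mul (.c 12) (.c 1)))) (.add (.mul (.add (.mul (.r 2 233 744 2) (.q 0)) (.mul (.r 2 234 744 2) (.v 0))) (.sub (.c 0) (.mul (.c 12) (.c 1)))) (.mul (.add (.mul (.r 2 235 744 2) (.q 0)) (.mul (.r 2 236 744 2) (.v 0))) (.mul (.c 144) (.c 1)))))), 42, 2, 1, 2, 1⟩,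
  ⟨(.sub (.add (.mul (.mul (.c 1024) (.mul (.s 2 23 744 2) (.add (.mul (.c 853) (.w 0 1)) (.mul (.c 171) (.q 0))))) (.w 0 1)) (.mul (.s 2 24 744 2) (.mul (.mul (.c 171) (.v 0)) (.add (.mul (.c 853) (.w 0 1)) (.mul (.c 171) (.q 0)))))) (.mul (.c 1024) (.add (.mul (.add (.mul (.r 2 237 744 2) (.q 0)) (.mul (.r 2 238 744 2) (.v 0))) (.mul (.c 2) (.add (.mul (.c 853) (.w 0 1)) (.mul (.c 171) (.q 0))))) (.add (.mul (.add (.mul (.r 2 239 744 2) (.q 0)) (.mul (.r 2 240 744 2) (.v 0))) (.add (.mul (.c 853) (.w 0 1)) (.mul (.c 171) (.q 0)))) (.mul (.add (.mul (.r 2 245 744 2) (.q 0)) (.mul (.r 2 246 744 2) (.v 0))) (.mul (.c 2) (.add (.mul (.c 853) (.w 0 1)) (.mul (.c 171) (.q 0))))))))), 58, 3, 1, 2, 1⟩,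
  ⟨(.sub (.mul (.add (.mul (.mul (.c 1024) (.s 2 25 744 2)) (.w 0 1)) (.mul (.mul (.c 171) (.v 0)) (.s 2 28 744 2))) (.c 1)) (.mul (.c 1024) (.add (.mul (.add (.mul (.r 2 237 744 2) (.q 0)) (.mul (.r 2 238 744 2) (.v 0))) (.sub (.c 0) (.mul (.c 12) (.c 1)))) (.add (.mul (.add (.mul (.r 2 241 744 2) (.q 0)) (.mul (.r 2 242 744 2) (.v 0))) (.c 1)) (.mul (.add (.mul (.r 2 245 744 2) (.q 0)) (.mul (.r 2 246 744 2) (.v 0))) (.sub (.c 0) (.mul (.c 12) (.c 1)))))))), 49, 2, 1, 2, 1⟩,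
  ⟨(.sub (.mul (.mul (.s 2 26 744 2) (.c 1)) (.w 0 1)) (.add (.mul (.add (.mul (.r 2 239 744 2) (.q 0)) (.mul (.r 2 240 744 2) (.v 0))) (.sub (.c 0) (.mul (.c 12) (.c 1)))) (.add (.mul (.add (.mul (.r 2 243 744 2) (.q 0)) (.mul (.r 2 244 744 2) (.v 0))) (.mul (.c 2) (.c 1))) (.mul (.add (.mul (.r 2 245 744 2) (.q 0)) (.mul (.r 2 246 744 2) (.v 0))) (.sub (.c 0) (.mul (.c 24) (.c 1))))))), 40, 2, 1, 2, 1⟩,
  ⟨(.sub (.mul (.mul (.s 2 27 744 2) (.c 1)) (.w 0 1)) (.add (.mul (.add (.mul (.r 2 241 744 2) (.q 0)) (.mul (.r 2 242 744 2) (.v 0))) (.sub (.c 0) (.mul (.c 12) (.c 1)))) (.add (.mul (.add (.mul (.r 2 243 744 2) (.q 0)) (.mul (.r 2 244 744 2) (.v 0))) (.sub (.c 0) (.mul (.c 12) (.c 1)))) (.mul (.add (.mul (.r 2 245 744 2) (.q 0)) (.mul (.r 2 246 744 2) (.v 0))) (.mul (.c 144) (.c 1)))))), 42, 2, 1, 2, 1⟩,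
  ⟨(.sub (.sub (.mul (.mul (.mul (.c 17592186044416) (.c 1)) (.w 0 2)) (.w 2 1)) (.add (.mul (.mul (.c 1024) (.mul (.s 2 35 744 2) (.add (.mul (.c 853) (.w 0 1)) (.mul (.c 171) (.q 0))))) (.w 0 1)) (.mul (.s 2 36 744 2) (.mul (.mul (.c 171) (.v 0)) (.add (.mul (.c 853) (.w 0 1)) (.mul (.c 171) (.q 0))))))) (.mul (.c 1024) (.add (.mul (.add (.mul (.r 2 247 744 2) (.q 0)) (.mul (.r 2 248 744 2) (.v 0))) (.mul (.c 2) (.add (.mul (.c 853) (.w 0 1)) (.mul (.c 171) (.q 0))))) (.add (.mul (.add (.mul (.r 2 249 744 2) (.q 0)) (.mul (.r 2 250 744 2) (.v 0))) (.add (.mul (.c 853) (.w 0 1)) (.mul (.c 171) (.q 0)))) (.mul (.add (.mul (.r 2 255 744 2) (.q 0)) (.mul (.r 2 256 744 2) (.v 0))) (.mul (.c 2) (.add (.mul (.c 853) (.w 0 1)) (.mul (.c 171) (.q 0))))))))), 58, 3, 1, 2, 1⟩,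
  ⟨(.sub (.sub (.mul (.mul (.c 0) (.w 0 1)) (.w 2 1)) (.mul (.add (.mul (.mul (.c 1024) (.s 2 37 744 2)) (.w 0 1)) (.mul (.mul (.c 171) (.v 0)) (.s 2 40 744 2))) (.c 1))) (.mul (.c 1024) (.add (.mul (.add (.mul (.r 2 247 744 2) (.q 0)) (.mul (.r 2 248 744 2) (.v 0))) (.sub (.c 0) (.mul (.c 12) (.c 1)))) (.add (.mul (.add (.mul (.r 2 251 744 2) (.q 0)) (.mul (.r 2 252 744 2) (.v 0))) (.c 1)) (.mul (.add (.mul (.r 2 255 744 2) (.q 0)) (.mul (.r 2 256 744 2) (.v 0))) (.sub (.c 0) (.mul (.c 12) (.c 1)))))))), 49, 2, 1, 2, 1⟩,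
  ⟨(.sub (.mul (.sub (.mul (.c 0) (.w 2 1)) (.mul (.s 2 38 744 2) (.c 1))) (.w 0 1)) (.add (.mul (.add (.mul (.r 2 249 744 2) (.q 0)) (.mul (.r 2 250 744 2) (.v 0))) (.sub (.c 0) (.mul (.c 12) (.c 1)))) (.add (.mul (.add (.mul (.r 2 253 744 2) (.q 0)) (.mul (.r 2 254 744 2) (.v 0))) (.mul (.c 2) (.c 1))) (.mul (.add (.mul (.r 2 255 744 2) (.q 0)) (.mul (.r 2 256 744 2) (.v 0))) (.sub (.c 0) (.mul (.c 24) (.c 1))))))), 40, 2, 1, 2, 1⟩,
  ⟨(.sub (.mul (.sub (.mul (.c 0) (.w 2 1)) (.mul (.s 2 39 744 2) (.c 1))) (.w 0 1)) (.add (.mul (.add (.mul (.r 2 251 744 2) (.q 0)) (.mul (.r 2 252 744 2) (.v 0))) (.sub (.c 0) (.mul (.c 12) (.c 1)))) (.add (.mul (.add (.mul (.r 2 253 744 2) (.q 0)) (.mul (.r 2 254 744 2) (.v 0))) (.sub (.c 0) (.mul (.c 12) (.c 1)))) (.mul (.add (.mul (.r 2 255 744 2) (.q 0)) (.mul (.r 2 256 744 2) (.v 0))) (.mul (.c 144) (.c 1)))))), 42, 2, 1, 2, 1⟩,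
  ⟨(.sub (.sub (.add (.mul (.mul (.c 1024) (.mul (.s 2 23 744 2) (.add (.mul (.c 853) (.w 0 1)) (.mul (.c 171) (.q 0))))) (.w 0 1)) (.mul (.s 2 24 744 2) (.mul (.mul (.c 171) (.v 0)) (.add (.mul (.c 853) (.w 0 1)) (.mul (.c 171) (.q 0)))))) (.mul (.mul (.c 1024) (.mul (.s 2 127 744 2) (.add (.mul (.c 853) (.w 0 1)) (.mul (.c 171) (.q 0))))) (.w 0 1))) (.mul (.c 1024) (.add (.mul (.add (.mul (.r 2 257 744 2) (.q 0)) (.mul (.r 2 258 744 2) (.v 0))) (.mul (.c 2) (.add (.mul (.c 853) (.w 0 1)) (.mul (.c 171) (.q 0))))) (.add (.mul (.add (.mul (.r 2 259 744 2) (.q 0)) (.mul (.r 2 260 744 2) (.v 0))) (.add (.mul (.c 853) (.w 0 1)) (.mul (.c 171) (.q 0)))) (.mul (.add (.mul (.r 2 265 744 2) (.q 0)) (.mul (.r 2 266 744 2) (.v 0))) (.mul (.c 2) (.add (.mul (.c 853) (.w 0 1)) (.mul (.c 171) (.q 0))))))))), 58, 3, 1, 2, 1⟩,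
  ⟨(.sub (.sub (.mul (.add (.mul (.mul (.c 1024) (.s 2 25 744 2)) (.w 0 1)) (.mul (.mul (.c 171) (.v 0)) (.s 2 28 744 2))) (.c 1)) (.mul (.mul (.c 1024) (.mul (.s 2 128 744 2) (.c 1))) (.w 0 1))) (.mul (.c 1024) (.add (.mul (.add (.mul (.r 2 257 744 2) (.q 0)) (.mul (.r 2 258 744 2) (.v 0))) (.sub (.c 0) (.mul (.c 12) (.c 1)))) (.add (.mul (.add (.mul (.r 2 261 744 2) (.q 0)) (.mul (.r 2 262 744 2) (.v 0))) (.c 1)) (.mul (.add (.mul (.r 2 265 744 2) (.q 0)) (.mul (.r 2 266 744 2) (.v 0))) (.sub (.c 0) (.mul (.c 12) (.c 1)))))))), 49, 2, 1, 2, 1⟩,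
  ⟨(.sub (.mul (.sub (.mul (.s 2 26 744 2) (.c 1)) (.mul (.s 2 129 744 2) (.c 1))) (.w 0 1)) (.add (.mul (.add (.mul (.r 2 259 744 2) (.q 0)) (.mul (.r 2 260 744 2) (.v 0))) (.sub (.c 0) (.mul (.c 12) (.c 1)))) (.add (.mul (.add (.mul (.r 2 263 744 2) (.q 0)) (.mul (.r 2 264 744 2) (.v 0))) (.mul (.c 2) (.c 1))) (.mul (.add (.mul (.r 2 265 744 2) (.q 0)) (.mul (.r 2 266 744 2) (.v 0))) (.sub (.c 0) (.mul (.c 24) (.c 1))))))), 40, 2, 1, 2, 1⟩,
  ⟨(.sub (.mul (.sub (.mul (.s 2 27 744 2) (.c 1)) (.mul (.s 2 130 744 2) (.c 1))) (.w 0 1)) (.add (.mul (.add (.mul (.r 2 261 744 2) (.q 0)) (.mul (.r 2 262 744 2) (.v 0))) (.sub (.c 0) (.mul (.c 12) (.c 1)))) (.add (.mul (.add (.mul (.r 2 263 744 2) (.q 0)) (.mul (.r 2 264 744 2) (.v 0))) (.sub (.c 0) (.mul (.c 12) (.c 1)))) (.mul (.add (.mul (.r 2 265 744 2) (.q 0)) (.mul (.r 2 266 744 2) (.v 0))) (.mul (.c 144) (.c 1)))))), 42, 2, 1, 2, 1⟩,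
  ⟨(.sub (.sub (.add (.mul (.mul (.c 1024) (.mul (.s 2 17 744 2) (.add (.mul (.c 853) (.w 0 1)) (.mul (.c 171) (.q 0))))) (.w 0 1)) (.mul (.s 2 18 744 2) (.mul (.mul (.c 171) (.v 0)) (.add (.mul (.c 853) (.w 0 1)) (.mul (.c 171) (.q 0)))))) (.mul (.mul (.c 1024) (.mul (.s 2 131 744 2) (.add (.mul (.c 853) (.w 0 1)) (.mul (.c 171) (.q 0))))) (.w 0 1))) (.mul (.c 1024) (.add (.mul (.add (.mul (.r 2 267 744 2) (.q 0)) (.mul (.r 2 268 744 2) (.v 0))) (.mul (.c 2) (.add (.mul (.c 853) (.w 0 1)) (.mul (.c 171) (.q 0))))) (.add (.mul (.add (.mul (.r 2 269 744 2) (.q 0)) (.mul (.r 2 270 744 2) (.v 0))) (.add (.mul (.c 853) (.w 0 1)) (.mul (.c 171) (.q 0)))) (.mul (.add (.mul (.r 2 275 744 2) (.q 0)) (.mul (.r 2 276 744 2) (.v 0))) (.mul (.c 2) (.add (.mul (.c 853) (.w 0 1)) (.mul (.c 171) (.q 0))))))))), 58, 3, 1, 2, 1⟩,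
  ⟨(.sub (.sub (.mul (.add (.mul (.mul (.c 1024) (.s 2 19 744 2)) (.w 0 1)) (.mul (.mul (.c 171) (.v 0)) (.s 2 22 744 2))) (.c 1)) (.mul (.mul (.c 1024) (.mul (.s 2 132 744 2) (.c 1))) (.w 0 1))) (.mul (.c 1024) (.add (.mul (.add (.mul (.r 2 267 744 2) (.q 0)) (.mul (.r 2 268 744 2) (.v 0))) (.sub (.c 0) (.mul (.c 12) (.c 1)))) (.add (.mul (.add (.mul (.r 2 271 744 2) (.q 0)) (.mul (.r 2 272 744 2) (.v 0))) (.c 1)) (.mul (.add (.mul (.r 2 275 744 2) (.q 0)) (.mul (.r 2 276 744 2) (.v 0))) (.sub (.c 0) (.mul (.c 12) (.c 1)))))))), 49, 2, 1, 2, 1⟩,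
  ⟨(.sub (.mul (.sub (.mul (.s 2 20 744 2) (.c 1)) (.mul (.s 2 133 744 2) (.c 1))) (.w 0 1)) (.add (.mul (.add (.mul (.r 2 269 744 2) (.q 0)) (.mul (.r 2 270 744 2) (.v 0))) (.sub (.c 0) (.mul (.c 12) (.c 1)))) (.add (.mul (.add (.mul (.r 2 273 744 2) (.q 0)) (.mul (.r 2 274 744 2) (.v 0))) (.mul (.c 2) (.c 1))) (.mul (.add (.mul (.r 2 275 744 2) (.q 0)) (.mul (.r 2 276 744 2) (.v 0))) (.sub (.c 0) (.mul (.c 24) (.c 1))))))), 40, 2, 1, 2, 1⟩,
  ⟨(.sub (.mul (.sub (.mul (.s 2 21 744 2) (.c 1)) (.mul (.s 2 134 744 2) (.c 1))) (.w 0 1)) (.add (.mul (.add (.mul (.r 2 271 744 2) (.q 0)) (.mul (.r 2 272 744 2) (.v 0))) (.sub (.c 0) (.mul (.c 12) (.c 1)))) (.add (.mul (.add (.mul (.r 2 273 744 2) (.q 0)) (.mul (.r 2 274 744 2) (.v 0))) (.sub (.c 0) (.mul (.c 12) (.c 1)))) (.mul (.add (.mul (.r 2 275 744 2) (.q 0)) (.mul (.r 2 276 744 2) (.v 0))) (.mul (.c 144) (.c 1)))))), 42, 2, 1, 2, 1⟩,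
  ⟨(.sub (.sub (.mul (.c 1048576) (.add (.mul (.q 2) (.r 0 41 1 3)) (.mul (.v 2) (.r 0 785 1 3)))) (.add (.mul (.mul (.c 1024) (.mul (.s 2 35 744 2) (.add (.mul (.c 853) (.w 0 1)) (.mul (.c 171) (.q 0))))) (.w 0 1)) (.mul (.s 2 36 744 2) (.mul (.mul (.c 171) (.v 0)) (.add (.mul (.c 853) (.w 0 1)) (.mul (.c 171) (.q 0))))))) (.mul (.c 1024) (.add (.mul (.add (.mul (.r 2 669 744 2) (.q 0)) (.mul (.r 2 670 744 2) (.v 0))) (.mul (.c 2) (.add (.mul (.c 853) (.w 0 1)) (.mul (.c 171) (.q 0))))) (.add (.mul (.add (.mul (.r 2 671 744 2) (.q 0)) (.mul (.r 2 672 744 2) (.v 0))) (.add (.mul (.c 853) (.w 0 1)) (.mul (.c 171) (.q 0)))) (.mul (.add (.mul (.r 2 677 744 2) (.q 0)) (.mul (.r 2 678 744 2) (.v 0))) (.mul (.c 2) (.add (.mul (.c 853) (.w 0 1)) (.mul (.c 171) (.q 0))))))))), 58, 3, 1, 2, 1⟩,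
  ⟨(.sub (.sub (.mul (.mul (.c 0) (.w 0 1)) (.w 2 1)) (.mul (.add (.mul (.mul (.c 1024) (.s 2 37 744 2)) (.w 0 1)) (.mul (.mul (.c 171) (.v 0)) (.s 2 40 744 2))) (.c 1))) (.mul (.c 1024) (.add (.mul (.add (.mul (.r 2 669 744 2) (.q 0)) (.mul (.r 2 670 744 2) (.v 0))) (.sub (.c 0) (.mul (.c 12) (.c 1)))) (.add (.mul (.add (.mul (.r 2 673 744 2) (.q 0)) (.mul (.r 2 674 744 2) (.v 0))) (.c 1)) (.mul (.add (.mul (.r 2 677 744 2) (.q 0)) (.mul (.r 2 678 744 2) (.v 0))) (.sub (.c 0) (.mul (.c 12) (.c 1)))))))), 49, 2, 1, 2, 1⟩,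
  ⟨(.sub (.mul (.sub (.mul (.c 0) (.w 2 1)) (.mul (.s 2 38 744 2) (.c 1))) (.w 0 1)) (.add (.mul (.add (.mul (.r 2 671 744 2) (.q 0)) (.mul (.r 2 672 744 2) (.v 0))) (.sub (.c 0) (.mul (.c 12) (.c 1)))) (.add (.mul (.add (.mul (.r 2 675 744 2) (.q 0)) (.mul (.r 2 676 744 2) (.v 0))) (.mul (.c 2) (.c 1))) (.mul (.add (.mul (.r 2 677 744 2) (.q 0)) (.mul (.r 2 678 744 2) (.v 0))) (.sub (.c 0) (.mul (.c 24) (.c 1))))))), 40, 2, 1, 2, 1⟩,
  ⟨(.sub (.mul (.sub (.mul (.c 0) (.w 2 1)) (.mul (.s 2 39 744 2) (.c 1))) (.w 0 1)) (.add (.mul (.add (.mul (.r 2 673 744 2) (.q 0)) (.mul (.r 2 674 744 2) (.v 0))) (.sub (.c 0) (.mul (.c 12) (.c 1)))) (.add (.mul (.add (.mul (.r 2 675 744 2) (.q 0)) (.mul (.r 2 676 744 2) (.v 0))) (.sub (.c 0) (.mul (.c 12) (.c 1)))) (.mul (.add (.mul (.r 2 677 744 2) (.q 0)) (.mul (.r 2 678 744 2) (.v 0))) (.mul (.c 144) (.c 1)))))), 42, 2, 1, 2, 1⟩,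
  ⟨(.sub (.add (.mul (.mul (.c 1024) (.mul (.s 2 35 744 2) (.add (.mul (.c 853) (.w 0 1)) (.mul (.c 171) (.q 0))))) (.w 0 1)) (.mul (.s 2 36 744 2) (.mul (.mul (.c 171) (.v 0)) (.add (.mul (.c 853) (.w 0 1)) (.mul (.c 171) (.q 0)))))) (.mul (.c 1024) (.add (.mul (.add (.mul (.r 2 679 744 2) (.q 0)) (.mul (.r 2 680 744 2) (.v 0))) (.mul (.c 2) (.add (.mul (.c 853) (.w 0 1)) (.mul (.c 171) (.q 0))))) (.add (.mul (.add (.mul (.r 2 681 744 2) (.q 0)) (.mul (.r 2 682 744 2) (.v 0))) (.add (.mul (.c 853) (.w 0 1)) (.mul (.c 171) (.q 0)))) (.mul (.add (.mul (.r 2 687 744 2) (.q 0)) (.mul (.r 2 688 744 2) (.v 0))) (.mul (.c 2) (.add (.mul (.c 853) (.w 0 1)) (.mul (.c 171) (.q 0))))))))), 58, 3, 1, 2, 1⟩]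

noncomputable def f0 : List Tc :=
 [⟨fun A S X L P R M N m a b c d e f g h D => (A (L (X (L (X (L (X (L (X 16777216 (L (X (L (X 86 b) N) (A (L (X 1024 (A (L (X (A (L (X (L (X 1024 (A (A (L (R D 4064) 4294967295) (X c (L (R D 27872) 4294967295))) (S M (L (X 2147483648 (A 1 (X c 1))) N)))) N) e) N) (L (X (A (A (L (R D 4096) 4294967295) (X c (L (R D 27904) 4294967295))) (S M (L (X 2147483648 (A 1 (X c 1))) N))) (L (X 171 a) N)) N)) f) N) (L (X (L (X (A (A (L (R D 4128) 4294967295) (X c (L (R D 27936) 4294967295))) (S M (L (X 2147483648 (A 1 (X c 1))) N))) (L (X 86 b) N)) N) e) N))) N) (L (X (A (A (L (R D 4160) 4294967295) (X c (L (R D 27968) 4294967295))) (S M (L (X 2147483648 (A 1 (X c 1))) N))) (L (X (L (X 86 b) N) (L (X 171 a) N)) N)) N))) N)) N) e) N) f) N) g) N) (S M (L (L (X (L (X (L (X 86 b) N) (A (L (X (L (X 1048576 (A (L (R D 64) 4294967295) (X c (L (R D 23872) 4294967295))))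 N) (P f 2)) N) (L (X (L (X 86 b) N) (A (L (X (L (X 1024 (A (L (R D 96) 4294967295) (X c (L (R D 23904) 4294967295)))) N) f) N) (L (X (L (X 86 b) N) (A (L (R D 128) 4294967295) (X c (L (R D 23936) 4294967295)))) N))) N))) N) (A (A (L (X 1 (A (L (R D 160) 4294967295) (X a (A (L (R D 192) 4294967295) (X a (L (R D 224) 4294967295)))))) N) (L (X c (A (L (R D 23968) 4294967295) (X a (A (L (R D 24000) 4294967295) (X a (L (R D 24032) 4294967295)))))) N)) (S M (L (L (X (L (X (L (X 16777216 1) N) (P e 2)) N) g) N) N)))) N) N))), 97, 3, 4, 3, 1⟩,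
  ⟨fun A S X L P R M N m a b c d e f g h D => (A (A (L (X (L (X (L (X (L (X 17592186044416 (L (X (L (X 86 b) N) (A (L (X 1024 (A (L (X (A (L (X (L (X 1024 (A (A (L (R D 4192) 4294967295) (X c (L (R D 28000) 4294967295))) (S M (L (X 2147483648 (A 1 (X c 1))) N)))) N) e) N) (L (X (A (A (L (R D 4224) 4294967295) (X c (L (R D 28032) 4294967295))) (S M (L (X 2147483648 (A 1 (X c 1))) N))) (L (X 171 a) N)) N)) f) N) (L (X (L (X (A (A (L (R D 4256) 4294967295) (X c (L (R D 28064) 4294967295))) (S M (L (X 2147483648 (A 1 (X c 1))) N))) (L (X 86 b) N)) N) e) N))) N) (L (X (A (A (L (R D 4288) 4294967295) (X c (L (R D 28096) 4294967295))) (S M (L (X 2147483648 (A 1 (X c 1))) N))) (L (X (L (X 86 b) N) (L (X 171 a) N)) N)) N))) N)) N) e) N) (P f 3)) N) g) N) (S M (L (L (X (L (X (L (X 86 b) N) (A (L (X (L (X 1048576 (A (L (R D 64) 4294967295) (X c (L (R D 23872) 4294967295)))) N) (P f 2)) N) (L (X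 (L (X 86 b) N) (A (L (X (L (X 1024 (A (L (R D 96) 4294967295) (X c (L (R D 23904) 4294967295)))) N) f) N) (L (X (L (X 86 b) N) (A (L (R D 128) 4294967295) (X c (L (R D 23936) 4294967295)))) N))) N))) N) (A (L (X (A (L (X (L (X 1024 (L (X (A (A (L (R D 1120) 4294967295) (X c (L (R D 24928) 4294967295))) (S M (L (X 2147483648 (A 1 (X c 1))) N))) (A (L (X 853 e) N) (L (X 171 1) N))) N)) N) e) N) (L (X (A (A (L (R D 1152) 4294967295) (X c (L (R D 24960) 4294967295))) (S M (L (X 2147483648 (A 1 (X c 1))) N))) (L (X (L (X 171 a) N) (A (L (X 853 e) N) (L (X 171 1) N))) N)) N)) (P f 2)) N) (L (X (L (X (A (A (L (R D 1216) 4294967295) (X c (L (R D 25024) 4294967295))) (S M (L (X 2147483648 (A 1 (X c 1))) N))) (L (X (L (X 86 b) N) (L (X 86 b) N)) N)) N) (P e 2)) N))) N) N))) (S M (L (A (L (X (L (X 1024 (L (X (L (X (A (L (X (A (L (R D 6240) 4294967295) (X c (L (R D 30048) 4294967295))) 1) N) (L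 (X (A (L (R D 6272) 4294967295) (X c (L (R D 30080) 4294967295))) a) N)) (L (X (L (X 86 b) N) (A (L (X (L (X 1048576 (A (L (R D 64) 4294967295) (X c (L (R D 23872) 4294967295)))) N) (P f 2)) N) (L (X (L (X 86 b) N) (A (L (X (L (X 1024 (A (L (R D 96) 4294967295) (X c (L (R D 23904) 4294967295)))) N) f) N) (L (X (L (X 86 b) N) (A (L (R D 128) 4294967295) (X c (L (R D 23936) 4294967295)))) N))) N))) N)) N) (L (X 2 (A (L (X (L (X 767 e) N) f) N) (A (L (X (L (X 171 1) N) f) N) (L (X (L (X 86 1) N) e) N)))) N)) N)) N) f) N) (A (L (X (L (X 1024 (L (X (L (X (A (L (X (A (L (R D 6304) 4294967295) (X c (L (R D 30112) 4294967295))) 1) N) (L (X (A (L (R D 6336) 4294967295) (X c (L (R D 30144) 4294967295))) a) N)) (L (X (L (X 86 b) N) (A (L (X (L (X 1048576 (A (L (R D 64) 4294967295) (X c (L (R D 23872) 4294967295)))) N) (P f 2)) N) (L (X (L (X 86 b) N) (A (L (X (L (X 1024 (A (L (R D 96) 4294967295)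 (X c (L (R D 23904) 4294967295)))) N) f) N) (L (X (L (X 86 b) N) (A (L (R D 128) 4294967295) (X c (L (R D 23936) 4294967295)))) N))) N))) N)) N) (A (L (X (L (X 767 e) N) f) N) (A (L (X (L (X 171 1) N) f) N) (L (X (L (X 86 1) N) e) N)))) N)) N) f) N) (A (L (X (L (X 1024 (L (X (L (X (A (L (X (A (L (R D 6496) 4294967295) (X c (L (R D 30304) 4294967295))) 1) N) (L (X (A (L (R D 6528) 4294967295) (X c (L (R D 30336) 4294967295))) a) N)) (L (X (L (X 86 b) N) (A (L (X (L (X 1048576 (A (L (R D 64) 4294967295) (X c (L (R D 23872) 4294967295)))) N) (P f 2)) N) (L (X (L (X 86 b) N) (A (L (X (L (X 1024 (A (L (R D 96) 4294967295) (X c (L (R D 23904) 4294967295)))) N) f) N) (L (X (L (X 86 b) N) (A (L (R D 128) 4294967295) (X c (L (R D 23936) 4294967295)))) N))) N))) N)) N) (L (X 2 (A (L (X (L (X 767 e) N) f) N) (A (L (X (L (X 171 1) N) f) N) (L (X (L (X 86 1) N) e) N)))) N)) N)) N) f) N) (A (L (X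 (L (X 1024 (L (X (L (X (A (L (X (A (L (R D 6560) 4294967295) (X c (L (R D 30368) 4294967295))) 1) N) (L (X (A (L (R D 6592) 4294967295) (X c (L (R D 30400) 4294967295))) a) N)) (L (X (L (X 86 b) N) (A (L (X (L (X 1048576 (A (L (R D 64) 4294967295) (X c (L (R D 23872) 4294967295)))) N) (P f 2)) N) (L (X (L (X 86 b) N) (A (L (X (L (X 1024 (A (L (R D 96) 4294967295) (X c (L (R D 23904) 4294967295)))) N) f) N) (L (X (L (X 86 b) N) (A (L (R D 128) 4294967295) (X c (L (R D 23936) 4294967295)))) N))) N))) N)) N) (L (X 2 (A (L (X 853 e) N) (L (X 171 1) N))) N)) N)) N) (P f 2)) N) (A (L (X (L (X (A (L (X (A (L (R D 6624) 4294967295) (X c (L (R D 30432) 4294967295))) 1) N) (L (X (A (L (R D 6656) 4294967295) (X c (L (R D 30464) 4294967295))) a) N)) (L (X (L (X 86 b) N) (A (L (X (L (X 1048576 (A (L (R D 64) 4294967295) (X c (L (R D 23872) 4294967295)))) N) (P f 2)) N) (L (X (L (X 86 b) N) (A (L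 (X (L (X 1024 (A (L (R D 96) 4294967295) (X c (L (R D 23904) 4294967295)))) N) f) N) (L (X (L (X 86 b) N) (A (L (R D 128) 4294967295) (X c (L (R D 23936) 4294967295)))) N))) N))) N)) N) (A (L (X (L (X 1024 (A (L (X 853 e) N) (L (X 171 1) N))) N) (P f 2)) N) (S M (L (L (X (L (X 12 (L (X (L (X 86 b) N) (L (X 86 b) N)) N)) N) e) N) N)))) N) (A (L (X (L (X (L (X (A (L (X (A (L (R D 6752) 4294967295) (X c (L (R D 30560) 4294967295))) 1) N) (L (X (A (L (R D 6784) 4294967295) (X c (L (R D 30592) 4294967295))) a) N)) (L (X (L (X 86 b) N) (A (L (X (L (X 1048576 (A (L (R D 64) 4294967295) (X c (L (R D 23872) 4294967295)))) N) (P f 2)) N) (L (X (L (X 86 b) N) (A (L (X (L (X 1024 (A (L (R D 96) 4294967295) (X c (L (R D 23904) 4294967295)))) N) f) N) (L (X (L (X 86 b) N) (A (L (R D 128) 4294967295) (X c (L (R D 23936) 4294967295)))) N))) N))) N)) N) (L (X 2 (L (X (L (X 86 b) N) (L (X 86 b) N)) N))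 N)) N) e) N) (A (L (X (L (X (A (L (X (A (L (R D 6816) 4294967295) (X c (L (R D 30624) 4294967295))) 1) N) (L (X (A (L (R D 6848) 4294967295) (X c (L (R D 30656) 4294967295))) a) N)) (L (X (L (X 86 b) N) (A (L (X (L (X 1048576 (A (L (R D 64) 4294967295) (X c (L (R D 23872) 4294967295)))) N) (P f 2)) N) (L (X (L (X 86 b) N) (A (L (X (L (X 1024 (A (L (R D 96) 4294967295) (X c (L (R D 23904) 4294967295)))) N) f) N) (L (X (L (X 86 b) N) (A (L (R D 128) 4294967295) (X c (L (R D 23936) 4294967295)))) N))) N))) N)) N) (A (L (X (L (X 1024 (L (X 2 (A (L (X 853 e) N) (L (X 171 1) N))) N)) N) (P f 2)) N) (S M (L (L (X (L (X 24 (L (X (L (X 86 b) N) (L (X 86 b) N)) N)) N) e) N) N)))) N) (L (X (L (X (L (X 1048576 (L (X (L (X (A (L (X (A (L (R D 6880) 4294967295) (X c (L (R D 30688) 4294967295))) 1) N) (L (X (A (L (R D 6912) 4294967295) (X c (L (R D 30720) 4294967295))) a) N)) (L (X (L (X 86 b) N) (A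 (L (X (L (X 1048576 (A (L (R D 64) 4294967295) (X c (L (R D 23872) 4294967295)))) N) (P f 2)) N) (L (X (L (X 86 b) N) (A (L (X (L (X 1024 (A (L (R D 96) 4294967295) (X c (L (R D 23904) 4294967295)))) N) f) N) (L (X (L (X 86 b) N) (A (L (R D 128) 4294967295) (X c (L (R D 23936) 4294967295)))) N))) N))) N)) N) 2) N)) N) e) N) (P f 2)) N)))))))) N))), 123, 3, 6, 3, 1⟩,
  ⟨fun A S X L P R M N m a b c d e f g h D => (A (A (L (X (L (X (L (X 0 e) N) (P f 3)) N) (P g 2)) N) (S M (L (L (X (L (X (L (X 86 b) N) (A (L (X (L (X 1048576 (A (L (R D 64) 4294967295) (X c (L (R D 23872) 4294967295)))) N) (P f 2)) N) (L (X (L (X 86 b) N) (A (L (X (L (X 1024 (A (L (R D 96) 4294967295) (X c (L (R D 23904) 4294967295)))) N) f) N) (L (X (L (X 86 b) N) (A (L (R D 128) 4294967295) (X c (L (R D 23936) 4294967295)))) N))) N))) N) (L (X (A (L (X (L (X 1024 (A (A (L (R D 1184) 4294967295) (X c (L (R D 24992) 4294967295)))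 (S M (L (X 2147483648 (A 1 (X c 1))) N)))) N) e) N) (L (X (L (X 171 a) N) (A (A (L (R D 1280) 4294967295) (X c (L (R D 25088) 4294967295))) (S M (L (X 2147483648 (A 1 (X c 1))) N)))) N)) 1) N)) N) N))) (S M (L (L (X 1024 (A (L (X (L (X (A (L (X (A (L (R D 6240) 4294967295) (X c (L (R D 30048) 4294967295))) 1) N) (L (X (A (L (R D 6272) 4294967295) (X c (L (R D 30080) 4294967295))) a) N)) (L (X (L (X 86 b) N) (A (L (X (L (X 1048576 (A (L (R D 64) 4294967295) (X c (L (R D 23872) 4294967295)))) N) (P f 2)) N) (L (X (L (X 86 b) N) (A (L (X (L (X 1024 (A (L (R D 96) 4294967295) (X c (L (R D 23904) 4294967295)))) N) f) N) (L (X (L (X 86 b) N) (A (L (R D 128) 4294967295) (X c (L (R D 23936) 4294967295)))) N))) N))) N)) N) (A 0 (S M (L (L (X 12 1) N) N)))) N) (A (L (X (L (X (A (L (X (A (L (R D 6368) 4294967295) (X c (L (R D 30176) 4294967295))) 1) N) (L (X (A (L (R D 6400) 4294967295) (X c (L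 (R D 30208) 4294967295))) a) N)) (L (X (L (X 86 b) N) (A (L (X (L (X 1048576 (A (L (R D 64) 4294967295) (X c (L (R D 23872) 4294967295)))) N) (P f 2)) N) (L (X (L (X 86 b) N) (A (L (X (L (X 1024 (A (L (R D 96) 4294967295) (X c (L (R D 23904) 4294967295)))) N) f) N) (L (X (L (X 86 b) N) (A (L (R D 128) 4294967295) (X c (L (R D 23936) 4294967295)))) N))) N))) N)) N) 1) N) (A (L (X (L (X (A (L (X (A (L (R D 6496) 4294967295) (X c (L (R D 30304) 4294967295))) 1) N) (L (X (A (L (R D 6528) 4294967295) (X c (L (R D 30336) 4294967295))) a) N)) (L (X (L (X 86 b) N) (A (L (X (L (X 1048576 (A (L (R D 64) 4294967295) (X c (L (R D 23872) 4294967295)))) N) (P f 2)) N) (L (X (L (X 86 b) N) (A (L (X (L (X 1024 (A (L (R D 96) 4294967295) (X c (L (R D 23904) 4294967295)))) N) f) N) (L (X (L (X 86 b) N) (A (L (R D 128) 4294967295) (X c (L (R D 23936) 4294967295)))) N))) N))) N)) N) (A 0 (S M (L (L (X 12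 1) N) N)))) N) (A (L (X (L (X (A (L (X (A (L (R D 6560) 4294967295) (X c (L (R D 30368) 4294967295))) 1) N) (L (X (A (L (R D 6592) 4294967295) (X c (L (R D 30400) 4294967295))) a) N)) (L (X (L (X 86 b) N) (A (L (X (L (X 1048576 (A (L (R D 64) 4294967295) (X c (L (R D 23872) 4294967295)))) N) (P f 2)) N) (L (X (L (X 86 b) N) (A (L (X (L (X 1024 (A (L (R D 96) 4294967295) (X c (L (R D 23904) 4294967295)))) N) f) N) (L (X (L (X 86 b) N) (A (L (R D 128) 4294967295) (X c (L (R D 23936) 4294967295)))) N))) N))) N)) N) (A 0 (S M (L (L (X 12 1) N) N)))) N) (A (L (X (L (X (A (L (X (A (L (R D 6688) 4294967295) (X c (L (R D 30496) 4294967295))) 1) N) (L (X (A (L (R D 6720) 4294967295) (X c (L (R D 30528) 4294967295))) a) N)) (L (X (L (X 86 b) N) (A (L (X (L (X 1048576 (A (L (R D 64) 4294967295) (X c (L (R D 23872) 4294967295)))) N) (P f 2)) N) (L (X (L (X 86 b) N) (A (L (X (L (X 1024 (A (L (R D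 96) 4294967295) (X c (L (R D 23904) 4294967295)))) N) f) N) (L (X (L (X 86 b) N) (A (L (R D 128) 4294967295) (X c (L (R D 23936) 4294967295)))) N))) N))) N)) N) 1) N) (L (X (L (X (A (L (X (A (L (R D 6816) 4294967295) (X c (L (R D 30624) 4294967295))) 1) N) (L (X (A (L (R D 6848) 4294967295) (X c (L (R D 30656) 4294967295))) a) N)) (L (X (L (X 86 b) N) (A (L (X (L (X 1048576 (A (L (R D 64) 4294967295) (X c (L (R D 23872) 4294967295)))) N) (P f 2)) N) (L (X (L (X 86 b) N) (A (L (X (L (X 1024 (A (L (R D 96) 4294967295) (X c (L (R D 23904) 4294967295)))) N) f) N) (L (X (L (X 86 b) N) (A (L (R D 128) 4294967295) (X c (L (R D 23936) 4294967295)))) N))) N))) N)) N) (A 0 (S M (L (L (X 12 1) N) N)))) N))))))) N) N))), 112, 2, 4, 3, 1⟩,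
  ⟨fun A S X L P R M N m a b c d e f g h D => (A (L (X (A (L (X (L (X 0 (P f 3)) N) (P g 2)) N) (S M (L (L (X (L (X (L (X 86 b) N) (A (L (X (L (X 1048576 (A (L (R D 64) 4294967295) (X c (L (R D 23872) 4294967295)))) N) (P f 2)) N) (L (X (L (X 86 b) N) (A (L (X (L (X 1024 (A (L (R D 96) 4294967295) (X c (L (R D 23904) 4294967295)))) N) f) N) (L (X (L (X 86 b) N) (A (L (R D 128) 4294967295) (X c (L (R D 23936) 4294967295)))) N))) N))) N) (L (X (A (A (L (R D 1216) 4294967295) (X c (L (R D 25024) 4294967295))) (S M (L (X 2147483648 (A 1 (X c 1))) N))) 1) N)) N) N))) e) N) (S M (L (A (L (X (L (X (A (L (X (A (L (R D 6304) 4294967295) (X c (L (R D 30112) 4294967295))) 1) N) (L (X (A (L (R D 6336) 4294967295) (X c (L (R D 30144) 4294967295))) a) N)) (L (X (L (X 86 b) N) (A (L (X (L (X 1048576 (A (L (R D 64) 4294967295) (X c (L (R D 23872) 4294967295)))) N) (P f 2)) N) (L (X (L (X 86 b) N) (A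 (L (X (L (X 1024 (A (L (R D 96) 4294967295) (X c (L (R D 23904) 4294967295)))) N) f) N) (L (X (L (X 86 b) N) (A (L (R D 128) 4294967295) (X c (L (R D 23936) 4294967295)))) N))) N))) N)) N) (A 0 (S M (L (L (X 12 1) N) N)))) N) (A (L (X (L (X (A (L (X (A (L (R D 6432) 4294967295) (X c (L (R D 30240) 4294967295))) 1) N) (L (X (A (L (R D 6464) 4294967295) (X c (L (R D 30272) 4294967295))) a) N)) (L (X (L (X 86 b) N) (A (L (X (L (X 1048576 (A (L (R D 64) 4294967295) (X c (L (R D 23872) 4294967295)))) N) (P f 2)) N) (L (X (L (X 86 b) N) (A (L (X (L (X 1024 (A (L (R D 96) 4294967295) (X c (L (R D 23904) 4294967295)))) N) f) N) (L (X (L (X 86 b) N) (A (L (R D 128) 4294967295) (X c (L (R D 23936) 4294967295)))) N))) N))) N)) N) (L (X 2 1) N)) N) (A (L (X (L (X (A (L (X (A (L (R D 6496) 4294967295) (X c (L (R D 30304) 4294967295))) 1) N) (L (X (A (L (R D 6528) 4294967295) (X c (L (R D 30336) 4294967295)))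 a) N)) (L (X (L (X 86 b) N) (A (L (X (L (X 1048576 (A (L (R D 64) 4294967295) (X c (L (R D 23872) 4294967295)))) N) (P f 2)) N) (L (X (L (X 86 b) N) (A (L (X (L (X 1024 (A (L (R D 96) 4294967295) (X c (L (R D 23904) 4294967295)))) N) f) N) (L (X (L (X 86 b) N) (A (L (R D 128) 4294967295) (X c (L (R D 23936) 4294967295)))) N))) N))) N)) N) (A 0 (S M (L (L (X 24 1) N) N)))) N) (A (L (X (L (X (A (L (X (A (L (R D 6624) 4294967295) (X c (L (R D 30432) 4294967295))) 1) N) (L (X (A (L (R D 6656) 4294967295) (X c (L (R D 30464) 4294967295))) a) N)) (L (X (L (X 86 b) N) (A (L (X (L (X 1048576 (A (L (R D 64) 4294967295) (X c (L (R D 23872) 4294967295)))) N) (P f 2)) N) (L (X (L (X 86 b) N) (A (L (X (L (X 1024 (A (L (R D 96) 4294967295) (X c (L (R D 23904) 4294967295)))) N) f) N) (L (X (L (X 86 b) N) (A (L (R D 128) 4294967295) (X c (L (R D 23936) 4294967295)))) N))) N))) N)) N) (A 0 (S M (L (L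 (X 12 1) N) N)))) N) (A (L (X (L (X (A (L (X (A (L (R D 6752) 4294967295) (X c (L (R D 30560) 4294967295))) 1) N) (L (X (A (L (R D 6784) 4294967295) (X c (L (R D 30592) 4294967295))) a) N)) (L (X (L (X 86 b) N) (A (L (X (L (X 1048576 (A (L (R D 64) 4294967295) (X c (L (R D 23872) 4294967295)))) N) (P f 2)) N) (L (X (L (X 86 b) N) (A (L (X (L (X 1024 (A (L (R D 96) 4294967295) (X c (L (R D 23904) 4294967295)))) N) f) N) (L (X (L (X 86 b) N) (A (L (R D 128) 4294967295) (X c (L (R D 23936) 4294967295)))) N))) N))) N)) N) (L (X 2 1) N)) N) (L (X (L (X (A (L (X (A (L (R D 6816) 4294967295) (X c (L (R D 30624) 4294967295))) 1) N) (L (X (A (L (R D 6848) 4294967295) (X c (L (R D 30656) 4294967295))) a) N)) (L (X (L (X 86 b) N) (A (L (X (L (X 1048576 (A (L (R D 64) 4294967295) (X c (L (R D 23872) 4294967295)))) N) (P f 2)) N) (L (X (L (X 86 b) N) (A (L (X (L (X 1024 (A (L (R D 96) 4294967295)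 (X c (L (R D 23904) 4294967295)))) N) f) N) (L (X (L (X 86 b) N) (A (L (R D 128) 4294967295) (X c (L (R D 23936) 4294967295)))) N))) N))) N)) N) (A 0 (S M (L (L (X 24 1) N) N)))) N)))))) N))), 102, 2, 4, 3, 1⟩,
  ⟨fun A S X L P R M N m a b c d e f g h D => (A (L (X (A (L (X (L (X 0 (P f 3)) N) (P g 2)) N) (S M (L (L (X (L (X (L (X 86 b) N) (A (L (X (L (X 1048576 (A (L (R D 64) 4294967295) (X c (L (R D 23872) 4294967295)))) N) (P f 2)) N) (L (X (L (X 86 b) N) (A (L (X (L (X 1024 (A (L (R D 96) 4294967295) (X c (L (R D 23904) 4294967295)))) N) f) N) (L (X (L (X 86 b) N) (A (L (R D 128) 4294967295) (X c (L (R D 23936) 4294967295)))) N))) N))) N) (L (X (A (A (L (R D 1248) 4294967295) (X c (L (R D 25056) 4294967295))) (S M (L (X 2147483648 (A 1 (X c 1))) N))) 1) N)) N) N))) e) N) (S M (L (A (L (X (L (X (A (L (X (A (L (R D 6368) 4294967295) (X c (L (R D 30176) 4294967295))) 1) N) (L (X (A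 (L (R D 6400) 4294967295) (X c (L (R D 30208) 4294967295))) a) N)) (L (X (L (X 86 b) N) (A (L (X (L (X 1048576 (A (L (R D 64) 4294967295) (X c (L (R D 23872) 4294967295)))) N) (P f 2)) N) (L (X (L (X 86 b) N) (A (L (X (L (X 1024 (A (L (R D 96) 4294967295) (X c (L (R D 23904) 4294967295)))) N) f) N) (L (X (L (X 86 b) N) (A (L (R D 128) 4294967295) (X c (L (R D 23936) 4294967295)))) N))) N))) N)) N) (A 0 (S M (L (L (X 12 1) N) N)))) N) (A (L (X (L (X (A (L (X (A (L (R D 6432) 4294967295) (X c (L (R D 30240) 4294967295))) 1) N) (L (X (A (L (R D 6464) 4294967295) (X c (L (R D 30272) 4294967295))) a) N)) (L (X (L (X 86 b) N) (A (L (X (L (X 1048576 (A (L (R D 64) 4294967295) (X c (L (R D 23872) 4294967295)))) N) (P f 2)) N) (L (X (L (X 86 b) N) (A (L (X (L (X 1024 (A (L (R D 96) 4294967295) (X c (L (R D 23904) 4294967295)))) N) f) N) (L (X (L (X 86 b) N) (A (L (R D 128) 4294967295) (X c (L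 (R D 23936) 4294967295)))) N))) N))) N)) N) (A 0 (S M (L (L (X 12 1) N) N)))) N) (A (L (X (L (X (A (L (X (A (L (R D 6496) 4294967295) (X c (L (R D 30304) 4294967295))) 1) N) (L (X (A (L (R D 6528) 4294967295) (X c (L (R D 30336) 4294967295))) a) N)) (L (X (L (X 86 b) N) (A (L (X (L (X 1048576 (A (L (R D 64) 4294967295) (X c (L (R D 23872) 4294967295)))) N) (P f 2)) N) (L (X (L (X 86 b) N) (A (L (X (L (X 1024 (A (L (R D 96) 4294967295) (X c (L (R D 23904) 4294967295)))) N) f) N) (L (X (L (X 86 b) N) (A (L (R D 128) 4294967295) (X c (L (R D 23936) 4294967295)))) N))) N))) N)) N) (L (X 144 1) N)) N) (A (L (X (L (X (A (L (X (A (L (R D 6688) 4294967295) (X c (L (R D 30496) 4294967295))) 1) N) (L (X (A (L (R D 6720) 4294967295) (X c (L (R D 30528) 4294967295))) a) N)) (L (X (L (X 86 b) N) (A (L (X (L (X 1048576 (A (L (R D 64) 4294967295) (X c (L (R D 23872) 4294967295)))) N) (P f 2)) N) (L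 (X (L (X 86 b) N) (A (L (X (L (X 1024 (A (L (R D 96) 4294967295) (X c (L (R D 23904) 4294967295)))) N) f) N) (L (X (L (X 86 b) N) (A (L (R D 128) 4294967295) (X c (L (R D 23936) 4294967295)))) N))) N))) N)) N) (A 0 (S M (L (L (X 12 1) N) N)))) N) (A (L (X (L (X (A (L (X (A (L (R D 6752) 4294967295) (X c (L (R D 30560) 4294967295))) 1) N) (L (X (A (L (R D 6784) 4294967295) (X c (L (R D 30592) 4294967295))) a) N)) (L (X (L (X 86 b) N) (A (L (X (L (X 1048576 (A (L (R D 64) 4294967295) (X c (L (R D 23872) 4294967295)))) N) (P f 2)) N) (L (X (L (X 86 b) N) (A (L (X (L (X 1024 (A (L (R D 96) 4294967295) (X c (L (R D 23904) 4294967295)))) N) f) N) (L (X (L (X 86 b) N) (A (L (R D 128) 4294967295) (X c (L (R D 23936) 4294967295)))) N))) N))) N)) N) (A 0 (S M (L (L (X 12 1) N) N)))) N) (L (X (L (X (A (L (X (A (L (R D 6816) 4294967295) (X c (L (R D 30624) 4294967295))) 1) N) (L (X (A (L (R D 6848)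 4294967295) (X c (L (R D 30656) 4294967295))) a) N)) (L (X (L (X 86 b) N) (A (L (X (L (X 1048576 (A (L (R D 64) 4294967295) (X c (L (R D 23872) 4294967295)))) N) (P f 2)) N) (L (X (L (X 86 b) N) (A (L (X (L (X 1024 (A (L (R D 96) 4294967295) (X c (L (R D 23904) 4294967295)))) N) f) N) (L (X (L (X 86 b) N) (A (L (R D 128) 4294967295) (X c (L (R D 23936) 4294967295)))) N))) N))) N)) N) (L (X 144 1) N)) N)))))) N))), 104, 2, 4, 3, 1⟩,
  ⟨fun A S X L P R M N m a b c d e f g h D => (A (A (L (X (L (X (L (X 0 e) N) (P f 5)) N) (P g 2)) N) (S M (L (L (X (L (X (L (X 86 b) N) (A (L (X (L (X 1048576 (A (L (R D 64) 4294967295) (X c (L (R D 23872) 4294967295)))) N) (P f 2)) N) (L (X (L (X 86 b) N) (A (L (X (L (X 1024 (A (L (R D 96) 4294967295) (X c (L (R D 23904) 4294967295)))) N) f) N) (L (X (L (X 86 b) N) (A (L (R D 128) 4294967295) (X c (L (R D 23936) 4294967295)))) N))) N))) N) (A (L (X (L (X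 (A (L (X (L (X 1024 (A (A (L (R D 1184) 4294967295) (X c (L (R D 24992) 4294967295))) (S M (L (X 2147483648 (A 1 (X c 1))) N)))) N) e) N) (L (X (L (X 171 a) N) (A (A (L (R D 1280) 4294967295) (X c (L (R D 25088) 4294967295))) (S M (L (X 2147483648 (A 1 (X c 1))) N)))) N)) (L (X 86 b) N)) N) f) N) (L (X (L (X (A (A (L (R D 1248) 4294967295) (X c (L (R D 25056) 4294967295))) (S M (L (X 2147483648 (A 1 (X c 1))) N))) (L (X (L (X 86 b) N) (L (X 86 b) N)) N)) N) e) N))) N) N))) (S M (L (A (L (X (L (X 1024 (L (X (L (X (A (L (X (A (L (R D 6560) 4294967295) (X c (L (R D 30368) 4294967295))) 1) N) (L (X (A (L (R D 6592) 4294967295) (X c (L (R D 30400) 4294967295))) a) N)) (L (X (L (X 86 b) N) (A (L (X (L (X 1048576 (A (L (R D 64) 4294967295) (X c (L (R D 23872) 4294967295)))) N) (P f 2)) N) (L (X (L (X 86 b) N) (A (L (X (L (X 1024 (A (L (R D 96) 4294967295) (X c (L (R D 23904) 4294967295))))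 N) f) N) (L (X (L (X 86 b) N) (A (L (R D 128) 4294967295) (X c (L (R D 23936) 4294967295)))) N))) N))) N)) N) (A (L (X 0 f) N) (S M (L (L (X 12 (L (X 86 b) N)) N) N)))) N)) N) f) N) (A (L (X (L (X (A (L (X (A (L (R D 6688) 4294967295) (X c (L (R D 30496) 4294967295))) 1) N) (L (X (A (L (R D 6720) 4294967295) (X c (L (R D 30528) 4294967295))) a) N)) (L (X (L (X 86 b) N) (A (L (X (L (X 1048576 (A (L (R D 64) 4294967295) (X c (L (R D 23872) 4294967295)))) N) (P f 2)) N) (L (X (L (X 86 b) N) (A (L (X (L (X 1024 (A (L (R D 96) 4294967295) (X c (L (R D 23904) 4294967295)))) N) f) N) (L (X (L (X 86 b) N) (A (L (R D 128) 4294967295) (X c (L (R D 23936) 4294967295)))) N))) N))) N)) N) (A (L (X (L (X 1024 (L (X 86 b) N)) N) f) N) (S M (L (L (X 12 (L (X (L (X 86 b) N) (L (X 86 b) N)) N)) N) N)))) N) (A (L (X (L (X (A (L (X (A (L (R D 6752) 4294967295) (X c (L (R D 30560) 4294967295))) 1) N) (L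 (X (A (L (R D 6784) 4294967295) (X c (L (R D 30592) 4294967295))) a) N)) (L (X (L (X 86 b) N) (A (L (X (L (X 1048576 (A (L (R D 64) 4294967295) (X c (L (R D 23872) 4294967295)))) N) (P f 2)) N) (L (X (L (X 86 b) N) (A (L (X (L (X 1024 (A (L (R D 96) 4294967295) (X c (L (R D 23904) 4294967295)))) N) f) N) (L (X (L (X 86 b) N) (A (L (R D 128) 4294967295) (X c (L (R D 23936) 4294967295)))) N))) N))) N)) N) (A (L (X 0 (P f 2)) N) (S M (L (L (X 12 (L (X (L (X 86 b) N) (L (X 86 b) N)) N)) N) N)))) N) (A (L (X (L (X (A (L (X (A (L (R D 6816) 4294967295) (X c (L (R D 30624) 4294967295))) 1) N) (L (X (A (L (R D 6848) 4294967295) (X c (L (R D 30656) 4294967295))) a) N)) (L (X (L (X 86 b) N) (A (L (X (L (X 1048576 (A (L (R D 64) 4294967295) (X c (L (R D 23872) 4294967295)))) N) (P f 2)) N) (L (X (L (X 86 b) N) (A (L (X (L (X 1024 (A (L (R D 96) 4294967295) (X c (L (R D 23904) 4294967295)))) N)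 f) N) (L (X (L (X 86 b) N) (A (L (R D 128) 4294967295) (X c (L (R D 23936) 4294967295)))) N))) N))) N)) N) (A (L (X 144 (L (X (L (X 86 b) N) (L (X 86 b) N)) N)) N) (S M (L (L (X (L (X 1024 (L (X 12 (L (X 86 b) N)) N)) N) f) N) N)))) N) (L (X (L (X 1048576 (L (X (L (X (A (L (X (A (L (R D 6880) 4294967295) (X c (L (R D 30688) 4294967295))) 1) N) (L (X (A (L (R D 6912) 4294967295) (X c (L (R D 30720) 4294967295))) a) N)) (L (X (L (X 86 b) N) (A (L (X (L (X 1048576 (A (L (R D 64) 4294967295) (X c (L (R D 23872) 4294967295)))) N) (P f 2)) N) (L (X (L (X 86 b) N) (A (L (X (L (X 1024 (A (L (R D 96) 4294967295) (X c (L (R D 23904) 4294967295)))) N) f) N) (L (X (L (X 86 b) N) (A (L (R D 128) 4294967295) (X c (L (R D 23936) 4294967295)))) N))) N))) N)) N) (A 0 (S M (L (L (X 12 1) N) N)))) N)) N) (P f 2)) N))))) N))), 122, 2, 6, 3, 1⟩,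
  ⟨fun A S X L P R M N m a b c d e f g h D => (A (L (X (L (X (L (X (L (X 16777216 (L (X (L (X 86 b) N) (A (L (X 1024 (A (L (X (A (L (X (L (X 1024 (A (A (L (R D 4320) 4294967295) (X c (L (R D 28128) 4294967295))) (S M (L (X 2147483648 (A 1 (X c 1))) N)))) N) e) N) (L (X (A (A (L (R D 4352) 4294967295) (X c (L (R D 28160) 4294967295))) (S M (L (X 2147483648 (A 1 (X c 1))) N))) (L (X 171 a) N)) N)) f) N) (L (X (L (X (A (A (L (R D 4384) 4294967295) (X c (L (R D 28192) 4294967295))) (S M (L (X 2147483648 (A 1 (X c 1))) N))) (L (X 86 b) N)) N) e) N))) N) (L (X (A (A (L (R D 4416) 4294967295) (X c (L (R D 28224) 4294967295))) (S M (L (X 2147483648 (A 1 (X c 1))) N))) (L (X (L (X 86 b) N) (L (X 171 a) N)) N)) N))) N)) N) e) N) f) N) g) N) (S M (L (L (X (L (X (L (X 86 b) N) (A (L (X (L (X 1048576 (A (L (R D 64) 4294967295) (X c (L (R D 23872) 4294967295)))) N) (P f 2)) N) (L (X (L (X 86 b) N)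 (A (L (X (L (X 1024 (A (L (R D 96) 4294967295) (X c (L (R D 23904) 4294967295)))) N) f) N) (L (X (L (X 86 b) N) (A (L (R D 128) 4294967295) (X c (L (R D 23936) 4294967295)))) N))) N))) N) (A (L (X 1 (A (L (R D 160) 4294967295) (X a (A (L (R D 192) 4294967295) (X a (L (R D 224) 4294967295)))))) N) (L (X c (A (L (R D 23968) 4294967295) (X a (A (L (R D 24000) 4294967295) (X a (L (R D 24032) 4294967295)))))) N))) N) N))), 97, 3, 4, 3, 1⟩,
  ⟨fun A S X L P R M N m a b c d e f g h D => (A (L (X (A (L (X (L (X (L (X (L (X 295147905179352825856 (L (X (L (X 86 b) N) (A (L (X 1024 (A (L (X (A (L (X (L (X 1024 (A (A (L (R D 4448) 4294967295) (X c (L (R D 28256) 4294967295))) (S M (L (X 2147483648 (A 1 (X c 1))) N)))) N) e) N) (L (X (A (A (L (R D 4480) 4294967295) (X c (L (R D 28288) 4294967295))) (S M (L (X 2147483648 (A 1 (X c 1))) N))) (L (X 171 a) N)) N)) f) N) (L (X (L (X (A (A (L (R D 4512)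 4294967295) (X c (L (R D 28320) 4294967295))) (S M (L (X 2147483648 (A 1 (X c 1))) N))) (L (X 86 b) N)) N) e) N))) N) (L (X (A (A (L (R D 4544) 4294967295) (X c (L (R D 28352) 4294967295))) (S M (L (X 2147483648 (A 1 (X c 1))) N))) (L (X (L (X 86 b) N) (L (X 171 a) N)) N)) N))) N)) N) (P e 3)) N) (P f 2)) N) (P g 2)) N) (S M (L (L (X (L (X (L (X 86 b) N) (A (L (X (L (X 1048576 (A (L (R D 64) 4294967295) (X c (L (R D 23872) 4294967295)))) N) (P f 2)) N) (L (X (L (X 86 b) N) (A (L (X (L (X 1024 (A (L (R D 96) 4294967295) (X c (L (R D 23904) 4294967295)))) N) f) N) (L (X (L (X 86 b) N) (A (L (R D 128) 4294967295) (X c (L (R D 23936) 4294967295)))) N))) N))) N) (A (L (X (L (X (L (X (L (X 17179869184 (L (X (A (A (L (X 1 (A (L (R D 160) 4294967295) (X a (A (L (R D 192) 4294967295) (X a (L (R D 224) 4294967295)))))) N) (L (X c (A (L (R D 23968) 4294967295) (X a (A (L (R D 24000) 4294967295)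 (X a (L (R D 24032) 4294967295)))))) N)) (S M (L (L (X (L (X (L (X 16777216 1) N) (P e 2)) N) g) N) N))) (L (X 1 (A (L (X 853 e) N) (L (X 171 1) N))) N)) N)) N) e) N) f) N) g) N) (L (X (A (L (X 1 (A (L (R D 160) 4294967295) (X a (A (L (R D 192) 4294967295) (X a (L (R D 224) 4294967295)))))) N) (L (X c (A (L (R D 23968) 4294967295) (X a (A (L (R D 24000) 4294967295) (X a (L (R D 24032) 4294967295)))))) N)) (A (L (X (L (X 1024 (L (X (A (A (L (R D 2912) 4294967295) (X c (L (R D 26720) 4294967295))) (S M (L (X 2147483648 (A 1 (X c 1))) N))) (A (L (X (L (X 767 e) N) f) N) (A (L (X (L (X 171 1) N) f) N) (L (X (L (X 86 1) N) e) N)))) N)) N) e) N) (L (X (A (A (L (R D 2944) 4294967295) (X c (L (R D 26752) 4294967295))) (S M (L (X 2147483648 (A 1 (X c 1))) N))) (L (X (L (X 171 a) N) (A (L (X (L (X 767 e) N) f) N) (A (L (X (L (X 171 1) N) f) N) (L (X (L (X 86 1) N) e) N)))) N)) N))) N))) N) N)))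 f) N) (S M (L (L (X (L (X (L (X 16777216 (A (L (X (L (X 1024 (L (X (L (X (A (L (X (A (L (R D 8864) 4294967295) (X c (L (R D 32672) 4294967295))) 1) N) (L (X (A (L (R D 8896) 4294967295) (X c (L (R D 32704) 4294967295))) a) N)) (L (X (L (X 86 b) N) (A (L (X (L (X 1048576 (A (L (R D 64) 4294967295) (X c (L (R D 23872) 4294967295)))) N) (P f 2)) N) (L (X (L (X 86 b) N) (A (L (X (L (X 1024 (A (L (R D 96) 4294967295) (X c (L (R D 23904) 4294967295)))) N) f) N) (L (X (L (X 86 b) N) (A (L (R D 128) 4294967295) (X c (L (R D 23936) 4294967295)))) N))) N))) N)) N) (L (X 2 (A (L (X (L (X 767 e) N) f) N) (A (L (X (L (X 171 1) N) f) N) (L (X (L (X 86 1) N) e) N)))) N)) N)) N) f) N) (A (L (X (L (X 1024 (L (X (L (X (A (L (X (A (L (R D 8928) 4294967295) (X c (L (R D 32736) 4294967295))) 1) N) (L (X (A (L (R D 8960) 4294967295) (X c (L (R D 32768) 4294967295))) a) N)) (L (X (L (X 86 b) N) (A (L (X (L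 (X 1048576 (A (L (R D 64) 4294967295) (X c (L (R D 23872) 4294967295)))) N) (P f 2)) N) (L (X (L (X 86 b) N) (A (L (X (L (X 1024 (A (L (R D 96) 4294967295) (X c (L (R D 23904) 4294967295)))) N) f) N) (L (X (L (X 86 b) N) (A (L (R D 128) 4294967295) (X c (L (R D 23936) 4294967295)))) N))) N))) N)) N) (A (L (X (L (X 767 e) N) f) N) (A (L (X (L (X 171 1) N) f) N) (L (X (L (X 86 1) N) e) N)))) N)) N) f) N) (A (L (X (L (X 1024 (L (X (L (X (A (L (X (A (L (R D 9120) 4294967295) (X c (L (R D 32928) 4294967295))) 1) N) (L (X (A (L (R D 9152) 4294967295) (X c (L (R D 32960) 4294967295))) a) N)) (L (X (L (X 86 b) N) (A (L (X (L (X 1048576 (A (L (R D 64) 4294967295) (X c (L (R D 23872) 4294967295)))) N) (P f 2)) N) (L (X (L (X 86 b) N) (A (L (X (L (X 1024 (A (L (R D 96) 4294967295) (X c (L (R D 23904) 4294967295)))) N) f) N) (L (X (L (X 86 b) N) (A (L (R D 128) 4294967295) (X c (L (R D 23936) 4294967295))))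 N))) N))) N)) N) (L (X 2 (A (L (X (L (X 767 e) N) f) N) (A (L (X (L (X 171 1) N) f) N) (L (X (L (X 86 1) N) e) N)))) N)) N)) N) f) N) (A (L (X (L (X 1024 (L (X (L (X (A (L (X (A (L (R D 9184) 4294967295) (X c (L (R D 32992) 4294967295))) 1) N) (L (X (A (L (R D 9216) 4294967295) (X c (L (R D 33024) 4294967295))) a) N)) (L (X (L (X 86 b) N) (A (L (X (L (X 1048576 (A (L (R D 64) 4294967295) (X c (L (R D 23872) 4294967295)))) N) (P f 2)) N) (L (X (L (X 86 b) N) (A (L (X (L (X 1024 (A (L (R D 96) 4294967295) (X c (L (R D 23904) 4294967295)))) N) f) N) (L (X (L (X 86 b) N) (A (L (R D 128) 4294967295) (X c (L (R D 23936) 4294967295)))) N))) N))) N)) N) (L (X 2 (A (L (X 853 e) N) (L (X 171 1) N))) N)) N)) N) (P f 2)) N) (A (L (X (L (X (A (L (X (A (L (R D 9248) 4294967295) (X c (L (R D 33056) 4294967295))) 1) N) (L (X (A (L (R D 9280) 4294967295) (X c (L (R D 33088) 4294967295))) a) N)) (L (X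 (L (X 86 b) N) (A (L (X (L (X 1048576 (A (L (R D 64) 4294967295) (X c (L (R D 23872) 4294967295)))) N) (P f 2)) N) (L (X (L (X 86 b) N) (A (L (X (L (X 1024 (A (L (R D 96) 4294967295) (X c (L (R D 23904) 4294967295)))) N) f) N) (L (X (L (X 86 b) N) (A (L (R D 128) 4294967295) (X c (L (R D 23936) 4294967295)))) N))) N))) N)) N) (A (L (X (L (X 1024 (A (L (X 853 e) N) (L (X 171 1) N))) N) (P f 2)) N) (S M (L (L (X (L (X 12 (L (X (L (X 86 b) N) (L (X 86 b) N)) N)) N) e) N) N)))) N) (A (L (X (L (X (L (X (A (L (X (A (L (R D 9376) 4294967295) (X c (L (R D 33184) 4294967295))) 1) N) (L (X (A (L (R D 9408) 4294967295) (X c (L (R D 33216) 4294967295))) a) N)) (L (X (L (X 86 b) N) (A (L (X (L (X 1048576 (A (L (R D 64) 4294967295) (X c (L (R D 23872) 4294967295)))) N) (P f 2)) N) (L (X (L (X 86 b) N) (A (L (X (L (X 1024 (A (L (R D 96) 4294967295) (X c (L (R D 23904) 4294967295)))) N) f) N) (L (X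 (L (X 86 b) N) (A (L (R D 128) 4294967295) (X c (L (R D 23936) 4294967295)))) N))) N))) N)) N) (L (X 2 (L (X (L (X 86 b) N) (L (X 86 b) N)) N)) N)) N) e) N) (A (L (X (L (X (A (L (X (A (L (R D 9440) 4294967295) (X c (L (R D 33248) 4294967295))) 1) N) (L (X (A (L (R D 9472) 4294967295) (X c (L (R D 33280) 4294967295))) a) N)) (L (X (L (X 86 b) N) (A (L (X (L (X 1048576 (A (L (R D 64) 4294967295) (X c (L (R D 23872) 4294967295)))) N) (P f 2)) N) (L (X (L (X 86 b) N) (A (L (X (L (X 1024 (A (L (R D 96) 4294967295) (X c (L (R D 23904) 4294967295)))) N) f) N) (L (X (L (X 86 b) N) (A (L (R D 128) 4294967295) (X c (L (R D 23936) 4294967295)))) N))) N))) N)) N) (A (L (X (L (X 1024 (L (X 2 (A (L (X 853 e) N) (L (X 171 1) N))) N)) N) (P f 2)) N) (S M (L (L (X (L (X 24 (L (X (L (X 86 b) N) (L (X 86 b) N)) N)) N) e) N) N)))) N) (L (X (L (X (L (X 1048576 (L (X (L (X (A (L (X (A (L (R D 9504) 4294967295)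 (X c (L (R D 33312) 4294967295))) 1) N) (L (X (A (L (R D 9536) 4294967295) (X c (L (R D 33344) 4294967295))) a) N)) (L (X (L (X 86 b) N) (A (L (X (L (X 1048576 (A (L (R D 64) 4294967295) (X c (L (R D 23872) 4294967295)))) N) (P f 2)) N) (L (X (L (X 86 b) N) (A (L (X (L (X 1024 (A (L (R D 96) 4294967295) (X c (L (R D 23904) 4294967295)))) N) f) N) (L (X (L (X 86 b) N) (A (L (R D 128) 4294967295) (X c (L (R D 23936) 4294967295)))) N))) N))) N)) N) 2) N)) N) e) N) (P f 2)) N))))))))) N) (P e 2)) N) g) N) N))), 154, 5, 6, 4, 1⟩,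
  ⟨fun A S X L P R M N m a b c d e f g h D => (A (A (L (X (L (X (L (X 0 (P e 3)) N) (P f 3)) N) (P g 3)) N) (S M (L (L (X (L (X (L (X 86 b) N) (A (L (X (L (X 1048576 (A (L (R D 64) 4294967295) (X c (L (R D 23872) 4294967295)))) N) (P f 2)) N) (L (X (L (X 86 b) N) (A (L (X (L (X 1024 (A (L (R D 96) 4294967295) (X c (L (R D 23904) 4294967295)))) N) f) N) (L (X (L (X 86 b) N) (A (L (R D 128) 4294967295) (X c (L (R D 23936) 4294967295)))) N))) N))) N) (L (X (A (L (X 1 (A (L (R D 160) 4294967295) (X a (A (L (R D 192) 4294967295) (X a (L (R D 224) 4294967295)))))) N) (L (X c (A (L (R D 23968) 4294967295) (X a (A (L (R D 24000) 4294967295) (X a (L (R D 24032) 4294967295)))))) N)) (L (X (A (L (X (L (X 1024 (A (A (L (R D 2976) 4294967295) (X c (L (R D 26784) 4294967295))) (S M (L (X 2147483648 (A 1 (X c 1))) N)))) N) e) N) (L (X (L (X 171 a) N) (A (A (L (R D 3072) 4294967295) (X c (L (R D 26880)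 4294967295))) (S M (L (X 2147483648 (A 1 (X c 1))) N)))) N)) 1) N)) N)) N) N))) (S M (L (L (X (L (X (L (X 17179869184 (A (L (X (L (X (A (L (X (A (L (R D 8864) 4294967295) (X c (L (R D 32672) 4294967295))) 1) N) (L (X (A (L (R D 8896) 4294967295) (X c (L (R D 32704) 4294967295))) a) N)) (L (X (L (X 86 b) N) (A (L (X (L (X 1048576 (A (L (R D 64) 4294967295) (X c (L (R D 23872) 4294967295)))) N) (P f 2)) N) (L (X (L (X 86 b) N) (A (L (X (L (X 1024 (A (L (R D 96) 4294967295) (X c (L (R D 23904) 4294967295)))) N) f) N) (L (X (L (X 86 b) N) (A (L (R D 128) 4294967295) (X c (L (R D 23936) 4294967295)))) N))) N))) N)) N) (A 0 (S M (L (L (X 12 1) N) N)))) N) (A (L (X (L (X (A (L (X (A (L (R D 8992) 4294967295) (X c (L (R D 32800) 4294967295))) 1) N) (L (X (A (L (R D 9024) 4294967295) (X c (L (R D 32832) 4294967295))) a) N)) (L (X (L (X 86 b) N) (A (L (X (L (X 1048576 (A (L (R D 64) 4294967295)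 (X c (L (R D 23872) 4294967295)))) N) (P f 2)) N) (L (X (L (X 86 b) N) (A (L (X (L (X 1024 (A (L (R D 96) 4294967295) (X c (L (R D 23904) 4294967295)))) N) f) N) (L (X (L (X 86 b) N) (A (L (R D 128) 4294967295) (X c (L (R D 23936) 4294967295)))) N))) N))) N)) N) 1) N) (A (L (X (L (X (A (L (X (A (L (R D 9120) 4294967295) (X c (L (R D 32928) 4294967295))) 1) N) (L (X (A (L (R D 9152) 4294967295) (X c (L (R D 32960) 4294967295))) a) N)) (L (X (L (X 86 b) N) (A (L (X (L (X 1048576 (A (L (R D 64) 4294967295) (X c (L (R D 23872) 4294967295)))) N) (P f 2)) N) (L (X (L (X 86 b) N) (A (L (X (L (X 1024 (A (L (R D 96) 4294967295) (X c (L (R D 23904) 4294967295)))) N) f) N) (L (X (L (X 86 b) N) (A (L (R D 128) 4294967295) (X c (L (R D 23936) 4294967295)))) N))) N))) N)) N) (A 0 (S M (L (L (X 12 1) N) N)))) N) (A (L (X (L (X (A (L (X (A (L (R D 9184) 4294967295) (X c (L (R D 32992) 4294967295)))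 1) N) (L (X (A (L (R D 9216) 4294967295) (X c (L (R D 33024) 4294967295))) a) N)) (L (X (L (X 86 b) N) (A (L (X (L (X 1048576 (A (L (R D 64) 4294967295) (X c (L (R D 23872) 4294967295)))) N) (P f 2)) N) (L (X (L (X 86 b) N) (A (L (X (L (X 1024 (A (L (R D 96) 4294967295) (X c (L (R D 23904) 4294967295)))) N) f) N) (L (X (L (X 86 b) N) (A (L (R D 128) 4294967295) (X c (L (R D 23936) 4294967295)))) N))) N))) N)) N) (A 0 (S M (L (L (X 12 1) N) N)))) N) (A (L (X (L (X (A (L (X (A (L (R D 9312) 4294967295) (X c (L (R D 33120) 4294967295))) 1) N) (L (X (A (L (R D 9344) 4294967295) (X c (L (R D 33152) 4294967295))) a) N)) (L (X (L (X 86 b) N) (A (L (X (L (X 1048576 (A (L (R D 64) 4294967295) (X c (L (R D 23872) 4294967295)))) N) (P f 2)) N) (L (X (L (X 86 b) N) (A (L (X (L (X 1024 (A (L (R D 96) 4294967295) (X c (L (R D 23904) 4294967295)))) N) f) N) (L (X (L (X 86 b) N) (A (L (R D 128) 4294967295)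 (X c (L (R D 23936) 4294967295)))) N))) N))) N)) N) 1) N) (L (X (L (X (A (L (X (A (L (R D 9440) 4294967295) (X c (L (R D 33248) 4294967295))) 1) N) (L (X (A (L (R D 9472) 4294967295) (X c (L (R D 33280) 4294967295))) a) N)) (L (X (L (X 86 b) N) (A (L (X (L (X 1048576 (A (L (R D 64) 4294967295) (X c (L (R D 23872) 4294967295)))) N) (P f 2)) N) (L (X (L (X 86 b) N) (A (L (X (L (X 1024 (A (L (R D 96) 4294967295) (X c (L (R D 23904) 4294967295)))) N) f) N) (L (X (L (X 86 b) N) (A (L (R D 128) 4294967295) (X c (L (R D 23936) 4294967295)))) N))) N))) N)) N) (A 0 (S M (L (L (X 12 1) N) N)))) N))))))) N) (P e 2)) N) g) N) N))), 141, 4, 4, 4, 1⟩,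
  ⟨fun A S X L P R M N m a b c d e f g h D => (A (A (L (X (L (X (L (X 0 (P e 2)) N) (P f 3)) N) (P g 3)) N) (S M (L (L (X (L (X (L (X 86 b) N) (A (L (X (L (X 1048576 (A (L (R D 64) 4294967295) (X c (L (R D 23872) 4294967295)))) N) (P f 2)) N) (L (X (L (X 86 b) N) (A (L (X (L (X 1024 (A (L (R D 96) 4294967295) (X c (L (R D 23904) 4294967295)))) N) f) N) (L (X (L (X 86 b) N) (A (L (R D 128) 4294967295) (X c (L (R D 23936) 4294967295)))) N))) N))) N) (L (X (A (L (X 1 (A (L (R D 160) 4294967295) (X a (A (L (R D 192) 4294967295) (X a (L (R D 224) 4294967295)))))) N) (L (X c (A (L (R D 23968) 4294967295) (X a (A (L (R D 24000) 4294967295) (X a (L (R D 24032) 4294967295)))))) N)) (L (X (A (A (L (R D 3008) 4294967295) (X c (L (R D 26816) 4294967295))) (S M (L (X 2147483648 (A 1 (X c 1))) N))) 1) N)) N)) N) N))) (S M (L (L (X (L (X (L (X 16777216 (A (L (X (L (X (A (L (X (A (L (R D 8928) 4294967295)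 (X c (L (R D 32736) 4294967295))) 1) N) (L (X (A (L (R D 8960) 4294967295) (X c (L (R D 32768) 4294967295))) a) N)) (L (X (L (X 86 b) N) (A (L (X (L (X 1048576 (A (L (R D 64) 4294967295) (X c (L (R D 23872) 4294967295)))) N) (P f 2)) N) (L (X (L (X 86 b) N) (A (L (X (L (X 1024 (A (L (R D 96) 4294967295) (X c (L (R D 23904) 4294967295)))) N) f) N) (L (X (L (X 86 b) N) (A (L (R D 128) 4294967295) (X c (L (R D 23936) 4294967295)))) N))) N))) N)) N) (A 0 (S M (L (L (X 12 1) N) N)))) N) (A (L (X (L (X (A (L (X (A (L (R D 9056) 4294967295) (X c (L (R D 32864) 4294967295))) 1) N) (L (X (A (L (R D 9088) 4294967295) (X c (L (R D 32896) 4294967295))) a) N)) (L (X (L (X 86 b) N) (A (L (X (L (X 1048576 (A (L (R D 64) 4294967295) (X c (L (R D 23872) 4294967295)))) N) (P f 2)) N) (L (X (L (X 86 b) N) (A (L (X (L (X 1024 (A (L (R D 96) 4294967295) (X c (L (R D 23904) 4294967295)))) N) f) N) (L (X (L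 (X 86 b) N) (A (L (R D 128) 4294967295) (X c (L (R D 23936) 4294967295)))) N))) N))) N)) N) (L (X 2 1) N)) N) (A (L (X (L (X (A (L (X (A (L (R D 9120) 4294967295) (X c (L (R D 32928) 4294967295))) 1) N) (L (X (A (L (R D 9152) 4294967295) (X c (L (R D 32960) 4294967295))) a) N)) (L (X (L (X 86 b) N) (A (L (X (L (X 1048576 (A (L (R D 64) 4294967295) (X c (L (R D 23872) 4294967295)))) N) (P f 2)) N) (L (X (L (X 86 b) N) (A (L (X (L (X 1024 (A (L (R D 96) 4294967295) (X c (L (R D 23904) 4294967295)))) N) f) N) (L (X (L (X 86 b) N) (A (L (R D 128) 4294967295) (X c (L (R D 23936) 4294967295)))) N))) N))) N)) N) (A 0 (S M (L (L (X 24 1) N) N)))) N) (A (L (X (L (X (A (L (X (A (L (R D 9248) 4294967295) (X c (L (R D 33056) 4294967295))) 1) N) (L (X (A (L (R D 9280) 4294967295) (X c (L (R D 33088) 4294967295))) a) N)) (L (X (L (X 86 b) N) (A (L (X (L (X 1048576 (A (L (R D 64) 4294967295) (X c (L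 (R D 23872) 4294967295)))) N) (P f 2)) N) (L (X (L (X 86 b) N) (A (L (X (L (X 1024 (A (L (R D 96) 4294967295) (X c (L (R D 23904) 4294967295)))) N) f) N) (L (X (L (X 86 b) N) (A (L (R D 128) 4294967295) (X c (L (R D 23936) 4294967295)))) N))) N))) N)) N) (A 0 (S M (L (L (X 12 1) N) N)))) N) (A (L (X (L (X (A (L (X (A (L (R D 9376) 4294967295) (X c (L (R D 33184) 4294967295))) 1) N) (L (X (A (L (R D 9408) 4294967295) (X c (L (R D 33216) 4294967295))) a) N)) (L (X (L (X 86 b) N) (A (L (X (L (X 1048576 (A (L (R D 64) 4294967295) (X c (L (R D 23872) 4294967295)))) N) (P f 2)) N) (L (X (L (X 86 b) N) (A (L (X (L (X 1024 (A (L (R D 96) 4294967295) (X c (L (R D 23904) 4294967295)))) N) f) N) (L (X (L (X 86 b) N) (A (L (R D 128) 4294967295) (X c (L (R D 23936) 4294967295)))) N))) N))) N)) N) (L (X 2 1) N)) N) (L (X (L (X (A (L (X (A (L (R D 9440) 4294967295) (X c (L (R D 33248) 4294967295)))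 1) N) (L (X (A (L (R D 9472) 4294967295) (X c (L (R D 33280) 4294967295))) a) N)) (L (X (L (X 86 b) N) (A (L (X (L (X 1048576 (A (L (R D 64) 4294967295) (X c (L (R D 23872) 4294967295)))) N) (P f 2)) N) (L (X (L (X 86 b) N) (A (L (X (L (X 1024 (A (L (R D 96) 4294967295) (X c (L (R D 23904) 4294967295)))) N) f) N) (L (X (L (X 86 b) N) (A (L (R D 128) 4294967295) (X c (L (R D 23936) 4294967295)))) N))) N))) N)) N) (A 0 (S M (L (L (X 24 1) N) N)))) N))))))) N) e) N) g) N) N))), 130, 3, 4, 4, 1⟩,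
  ⟨fun A S X L P R M N m a b c d e f g h D => (A (A (L (X (L (X (L (X 0 (P e 2)) N) (P f 3)) N) (P g 3)) N) (S M (L (L (X (L (X (L (X 86 b) N) (A (L (X (L (X 1048576 (A (L (R D 64) 4294967295) (X c (L (R D 23872) 4294967295)))) N) (P f 2)) N) (L (X (L (X 86 b) N) (A (L (X (L (X 1024 (A (L (R D 96) 4294967295) (X c (L (R D 23904) 4294967295)))) N) f) N) (L (X (L (X 86 b) N) (A (L (R D 128) 4294967295) (X c (L (R D 23936) 4294967295)))) N))) N))) N) (L (X (A (L (X 1 (A (L (R D 160) 4294967295) (X a (A (L (R D 192) 4294967295) (X a (L (R D 224) 4294967295)))))) N) (L (X c (A (L (R D 23968) 4294967295) (X a (A (L (R D 24000) 4294967295) (X a (L (R D 24032) 4294967295)))))) N)) (L (X (A (A (L (R D 3040) 4294967295) (X c (L (R D 26848) 4294967295))) (S M (L (X 2147483648 (A 1 (X c 1))) N))) 1) N)) N)) N) N))) (S M (L (L (X (L (X (L (X 16777216 (A (L (X (L (X (A (L (X (A (L (R D 8992) 4294967295)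 (X c (L (R D 32800) 4294967295))) 1) N) (L (X (A (L (R D 9024) 4294967295) (X c (L (R D 32832) 4294967295))) a) N)) (L (X (L (X 86 b) N) (A (L (X (L (X 1048576 (A (L (R D 64) 4294967295) (X c (L (R D 23872) 4294967295)))) N) (P f 2)) N) (L (X (L (X 86 b) N) (A (L (X (L (X 1024 (A (L (R D 96) 4294967295) (X c (L (R D 23904) 4294967295)))) N) f) N) (L (X (L (X 86 b) N) (A (L (R D 128) 4294967295) (X c (L (R D 23936) 4294967295)))) N))) N))) N)) N) (A 0 (S M (L (L (X 12 1) N) N)))) N) (A (L (X (L (X (A (L (X (A (L (R D 9056) 4294967295) (X c (L (R D 32864) 4294967295))) 1) N) (L (X (A (L (R D 9088) 4294967295) (X c (L (R D 32896) 4294967295))) a) N)) (L (X (L (X 86 b) N) (A (L (X (L (X 1048576 (A (L (R D 64) 4294967295) (X c (L (R D 23872) 4294967295)))) N) (P f 2)) N) (L (X (L (X 86 b) N) (A (L (X (L (X 1024 (A (L (R D 96) 4294967295) (X c (L (R D 23904) 4294967295)))) N) f) N) (L (X (L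 (X 86 b) N) (A (L (R D 128) 4294967295) (X c (L (R D 23936) 4294967295)))) N))) N))) N)) N) (A 0 (S M (L (L (X 12 1) N) N)))) N) (A (L (X (L (X (A (L (X (A (L (R D 9120) 4294967295) (X c (L (R D 32928) 4294967295))) 1) N) (L (X (A (L (R D 9152) 4294967295) (X c (L (R D 32960) 4294967295))) a) N)) (L (X (L (X 86 b) N) (A (L (X (L (X 1048576 (A (L (R D 64) 4294967295) (X c (L (R D 23872) 4294967295)))) N) (P f 2)) N) (L (X (L (X 86 b) N) (A (L (X (L (X 1024 (A (L (R D 96) 4294967295) (X c (L (R D 23904) 4294967295)))) N) f) N) (L (X (L (X 86 b) N) (A (L (R D 128) 4294967295) (X c (L (R D 23936) 4294967295)))) N))) N))) N)) N) (L (X 144 1) N)) N) (A (L (X (L (X (A (L (X (A (L (R D 9312) 4294967295) (X c (L (R D 33120) 4294967295))) 1) N) (L (X (A (L (R D 9344) 4294967295) (X c (L (R D 33152) 4294967295))) a) N)) (L (X (L (X 86 b) N) (A (L (X (L (X 1048576 (A (L (R D 64) 4294967295) (X c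 (L (R D 23872) 4294967295)))) N) (P f 2)) N) (L (X (L (X 86 b) N) (A (L (X (L (X 1024 (A (L (R D 96) 4294967295) (X c (L (R D 23904) 4294967295)))) N) f) N) (L (X (L (X 86 b) N) (A (L (R D 128) 4294967295) (X c (L (R D 23936) 4294967295)))) N))) N))) N)) N) (A 0 (S M (L (L (X 12 1) N) N)))) N) (A (L (X (L (X (A (L (X (A (L (R D 9376) 4294967295) (X c (L (R D 33184) 4294967295))) 1) N) (L (X (A (L (R D 9408) 4294967295) (X c (L (R D 33216) 4294967295))) a) N)) (L (X (L (X 86 b) N) (A (L (X (L (X 1048576 (A (L (R D 64) 4294967295) (X c (L (R D 23872) 4294967295)))) N) (P f 2)) N) (L (X (L (X 86 b) N) (A (L (X (L (X 1024 (A (L (R D 96) 4294967295) (X c (L (R D 23904) 4294967295)))) N) f) N) (L (X (L (X 86 b) N) (A (L (R D 128) 4294967295) (X c (L (R D 23936) 4294967295)))) N))) N))) N)) N) (A 0 (S M (L (L (X 12 1) N) N)))) N) (L (X (L (X (A (L (X (A (L (R D 9440) 4294967295) (X c (L (R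 D 33248) 4294967295))) 1) N) (L (X (A (L (R D 9472) 4294967295) (X c (L (R D 33280) 4294967295))) a) N)) (L (X (L (X 86 b) N) (A (L (X (L (X 1048576 (A (L (R D 64) 4294967295) (X c (L (R D 23872) 4294967295)))) N) (P f 2)) N) (L (X (L (X 86 b) N) (A (L (X (L (X 1024 (A (L (R D 96) 4294967295) (X c (L (R D 23904) 4294967295)))) N) f) N) (L (X (L (X 86 b) N) (A (L (R D 128) 4294967295) (X c (L (R D 23936) 4294967295)))) N))) N))) N)) N) (L (X 144 1) N)) N))))))) N) e) N) g) N) N))), 131, 3, 4, 4, 1⟩,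
  ⟨fun A S X L P R M N m a b c d e f g h D => (A (L (X (L (X (L (X 0 e) N) (P f 5)) N) (P g 2)) N) (S M (L (A (L (X (L (X 1024 (L (X (L (X (A (L (X (A (L (R D 9184) 4294967295) (X c (L (R D 32992) 4294967295))) 1) N) (L (X (A (L (R D 9216) 4294967295) (X c (L (R D 33024) 4294967295))) a) N)) (L (X (L (X 86 b) N) (A (L (X (L (X 1048576 (A (L (R D 64) 4294967295) (X c (L (R D 23872) 4294967295)))) N) (P f 2)) N) (L (X (L (X 86 b) N) (A (L (X (L (X 1024 (A (L (R D 96) 4294967295) (X c (L (R D 23904) 4294967295)))) N) f) N) (L (X (L (X 86 b) N) (A (L (R D 128) 4294967295) (X c (L (R D 23936) 4294967295)))) N))) N))) N)) N) (A (L (X 0 f) N) (S M (L (L (X 12 (L (X 86 b) N)) N) N)))) N)) N) f) N) (A (L (X (L (X (A (L (X (A (L (R D 9312) 4294967295) (X c (L (R D 33120) 4294967295))) 1) N) (L (X (A (L (R D 9344) 4294967295) (X c (L (R D 33152) 4294967295))) a) N)) (L (X (L (X 86 b) N) (A (L (X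 (L (X 1048576 (A (L (R D 64) 4294967295) (X c (L (R D 23872) 4294967295)))) N) (P f 2)) N) (L (X (L (X 86 b) N) (A (L (X (L (X 1024 (A (L (R D 96) 4294967295) (X c (L (R D 23904) 4294967295)))) N) f) N) (L (X (L (X 86 b) N) (A (L (R D 128) 4294967295) (X c (L (R D 23936) 4294967295)))) N))) N))) N)) N) (A (L (X (L (X 1024 (L (X 86 b) N)) N) f) N) (S M (L (L (X 12 (L (X (L (X 86 b) N) (L (X 86 b) N)) N)) N) N)))) N) (A (L (X (L (X (A (L (X (A (L (R D 9376) 4294967295) (X c (L (R D 33184) 4294967295))) 1) N) (L (X (A (L (R D 9408) 4294967295) (X c (L (R D 33216) 4294967295))) a) N)) (L (X (L (X 86 b) N) (A (L (X (L (X 1048576 (A (L (R D 64) 4294967295) (X c (L (R D 23872) 4294967295)))) N) (P f 2)) N) (L (X (L (X 86 b) N) (A (L (X (L (X 1024 (A (L (R D 96) 4294967295) (X c (L (R D 23904) 4294967295)))) N) f) N) (L (X (L (X 86 b) N) (A (L (R D 128) 4294967295) (X c (L (R D 23936) 4294967295))))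 N))) N))) N)) N) (A (L (X 0 (P f 2)) N) (S M (L (L (X 12 (L (X (L (X 86 b) N) (L (X 86 b) N)) N)) N) N)))) N) (A (L (X (L (X (A (L (X (A (L (R D 9440) 4294967295) (X c (L (R D 33248) 4294967295))) 1) N) (L (X (A (L (R D 9472) 4294967295) (X c (L (R D 33280) 4294967295))) a) N)) (L (X (L (X 86 b) N) (A (L (X (L (X 1048576 (A (L (R D 64) 4294967295) (X c (L (R D 23872) 4294967295)))) N) (P f 2)) N) (L (X (L (X 86 b) N) (A (L (X (L (X 1024 (A (L (R D 96) 4294967295) (X c (L (R D 23904) 4294967295)))) N) f) N) (L (X (L (X 86 b) N) (A (L (R D 128) 4294967295) (X c (L (R D 23936) 4294967295)))) N))) N))) N)) N) (A (L (X 144 (L (X (L (X 86 b) N) (L (X 86 b) N)) N)) N) (S M (L (L (X (L (X 1024 (L (X 12 (L (X 86 b) N)) N)) N) f) N) N)))) N) (L (X (L (X 1048576 (L (X (L (X (A (L (X (A (L (R D 9504) 4294967295) (X c (L (R D 33312) 4294967295))) 1) N) (L (X (A (L (R D 9536) 4294967295) (X c (L (R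 D 33344) 4294967295))) a) N)) (L (X (L (X 86 b) N) (A (L (X (L (X 1048576 (A (L (R D 64) 4294967295) (X c (L (R D 23872) 4294967295)))) N) (P f 2)) N) (L (X (L (X 86 b) N) (A (L (X (L (X 1024 (A (L (R D 96) 4294967295) (X c (L (R D 23904) 4294967295)))) N) f) N) (L (X (L (X 86 b) N) (A (L (R D 128) 4294967295) (X c (L (R D 23936) 4294967295)))) N))) N))) N)) N) (A 0 (S M (L (L (X 12 1) N) N)))) N)) N) (P f 2)) N))))) N))), 122, 2, 6, 3, 1⟩,
  ⟨fun A S X L P R M N m a b c d e f g h D => (A (L (X (A (L (X (L (X (L (X (L (X 295147905179352825856 (L (X (L (X 86 b) N) (A (L (X 1024 (A (L (X (A (L (X (L (X 1024 (A (A (L (R D 4576) 4294967295) (X c (L (R D 28384) 4294967295))) (S M (L (X 2147483648 (A 1 (X c 1))) N)))) N) e) N) (L (X (A (A (L (R D 4608) 4294967295) (X c (L (R D 28416) 4294967295))) (S M (L (X 2147483648 (A 1 (X c 1))) N))) (L (X 171 a) N)) N)) f) N) (L (X (L (X (A (A (L (R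 D 4640) 4294967295) (X c (L (R D 28448) 4294967295))) (S M (L (X 2147483648 (A 1 (X c 1))) N))) (L (X 86 b) N)) N) e) N))) N) (L (X (A (A (L (R D 4672) 4294967295) (X c (L (R D 28480) 4294967295))) (S M (L (X 2147483648 (A 1 (X c 1))) N))) (L (X (L (X 86 b) N) (L (X 171 a) N)) N)) N))) N)) N) (P e 3)) N) (P f 2)) N) (P g 2)) N) (S M (L (L (X (L (X (L (X 86 b) N) (A (L (X (L (X 1048576 (A (L (R D 64) 4294967295) (X c (L (R D 23872) 4294967295)))) N) (P f 2)) N) (L (X (L (X 86 b) N) (A (L (X (L (X 1024 (A (L (R D 96) 4294967295) (X c (L (R D 23904) 4294967295)))) N) f) N) (L (X (L (X 86 b) N) (A (L (R D 128) 4294967295) (X c (L (R D 23936) 4294967295)))) N))) N))) N) (L (X (A (L (X 1 (A (L (R D 160) 4294967295) (X a (A (L (R D 192) 4294967295) (X a (L (R D 224) 4294967295)))))) N) (L (X c (A (L (R D 23968) 4294967295) (X a (A (L (R D 24000) 4294967295) (X a (L (R D 24032) 4294967295))))))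 N)) (A (L (X (L (X (L (X (L (X 17179869184 (L (X 1 (A (L (X 853 e) N) (L (X 171 1) N))) N)) N) e) N) f) N) g) N) (A (L (X (L (X 1024 (L (X (A (A (L (R D 2912) 4294967295) (X c (L (R D 26720) 4294967295))) (S M (L (X 2147483648 (A 1 (X c 1))) N))) (A (L (X (L (X 767 e) N) f) N) (A (L (X (L (X 171 1) N) f) N) (L (X (L (X 86 1) N) e) N)))) N)) N) e) N) (L (X (A (A (L (R D 2944) 4294967295) (X c (L (R D 26752) 4294967295))) (S M (L (X 2147483648 (A 1 (X c 1))) N))) (L (X (L (X 171 a) N) (A (L (X (L (X 767 e) N) f) N) (A (L (X (L (X 171 1) N) f) N) (L (X (L (X 86 1) N) e) N)))) N)) N)))) N)) N) N))) f) N) (S M (L (L (X (L (X (L (X 16777216 (A (L (X (L (X 1024 (L (X (L (X (A (L (X (A (L (R D 9568) 4294967295) (X c (L (R D 33376) 4294967295))) 1) N) (L (X (A (L (R D 9600) 4294967295) (X c (L (R D 33408) 4294967295))) a) N)) (L (X (L (X 86 b) N) (A (L (X (L (X 1048576 (A (L (R D 64) 4294967295)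 (X c (L (R D 23872) 4294967295)))) N) (P f 2)) N) (L (X (L (X 86 b) N) (A (L (X (L (X 1024 (A (L (R D 96) 4294967295) (X c (L (R D 23904) 4294967295)))) N) f) N) (L (X (L (X 86 b) N) (A (L (R D 128) 4294967295) (X c (L (R D 23936) 4294967295)))) N))) N))) N)) N) (L (X 2 (A (L (X (L (X 767 e) N) f) N) (A (L (X (L (X 171 1) N) f) N) (L (X (L (X 86 1) N) e) N)))) N)) N)) N) f) N) (A (L (X (L (X 1024 (L (X (L (X (A (L (X (A (L (R D 9632) 4294967295) (X c (L (R D 33440) 4294967295))) 1) N) (L (X (A (L (R D 9664) 4294967295) (X c (L (R D 33472) 4294967295))) a) N)) (L (X (L (X 86 b) N) (A (L (X (L (X 1048576 (A (L (R D 64) 4294967295) (X c (L (R D 23872) 4294967295)))) N) (P f 2)) N) (L (X (L (X 86 b) N) (A (L (X (L (X 1024 (A (L (R D 96) 4294967295) (X c (L (R D 23904) 4294967295)))) N) f) N) (L (X (L (X 86 b) N) (A (L (R D 128) 4294967295) (X c (L (R D 23936) 4294967295)))) N))) N))) N))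 N) (A (L (X (L (X 767 e) N) f) N) (A (L (X (L (X 171 1) N) f) N) (L (X (L (X 86 1) N) e) N)))) N)) N) f) N) (A (L (X (L (X 1024 (L (X (L (X (A (L (X (A (L (R D 9824) 4294967295) (X c (L (R D 33632) 4294967295))) 1) N) (L (X (A (L (R D 9856) 4294967295) (X c (L (R D 33664) 4294967295))) a) N)) (L (X (L (X 86 b) N) (A (L (X (L (X 1048576 (A (L (R D 64) 4294967295) (X c (L (R D 23872) 4294967295)))) N) (P f 2)) N) (L (X (L (X 86 b) N) (A (L (X (L (X 1024 (A (L (R D 96) 4294967295) (X c (L (R D 23904) 4294967295)))) N) f) N) (L (X (L (X 86 b) N) (A (L (R D 128) 4294967295) (X c (L (R D 23936) 4294967295)))) N))) N))) N)) N) (L (X 2 (A (L (X (L (X 767 e) N) f) N) (A (L (X (L (X 171 1) N) f) N) (L (X (L (X 86 1) N) e) N)))) N)) N)) N) f) N) (A (L (X (L (X 1024 (L (X (L (X (A (L (X (A (L (R D 9888) 4294967295) (X c (L (R D 33696) 4294967295))) 1) N) (L (X (A (L (R D 9920) 4294967295) (X c (L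 (R D 33728) 4294967295))) a) N)) (L (X (L (X 86 b) N) (A (L (X (L (X 1048576 (A (L (R D 64) 4294967295) (X c (L (R D 23872) 4294967295)))) N) (P f 2)) N) (L (X (L (X 86 b) N) (A (L (X (L (X 1024 (A (L (R D 96) 4294967295) (X c (L (R D 23904) 4294967295)))) N) f) N) (L (X (L (X 86 b) N) (A (L (R D 128) 4294967295) (X c (L (R D 23936) 4294967295)))) N))) N))) N)) N) (L (X 2 (A (L (X 853 e) N) (L (X 171 1) N))) N)) N)) N) (P f 2)) N) (A (L (X (L (X (A (L (X (A (L (R D 9952) 4294967295) (X c (L (R D 33760) 4294967295))) 1) N) (L (X (A (L (R D 9984) 4294967295) (X c (L (R D 33792) 4294967295))) a) N)) (L (X (L (X 86 b) N) (A (L (X (L (X 1048576 (A (L (R D 64) 4294967295) (X c (L (R D 23872) 4294967295)))) N) (P f 2)) N) (L (X (L (X 86 b) N) (A (L (X (L (X 1024 (A (L (R D 96) 4294967295) (X c (L (R D 23904) 4294967295)))) N) f) N) (L (X (L (X 86 b) N) (A (L (R D 128) 4294967295) (X c (L (R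 D 23936) 4294967295)))) N))) N))) N)) N) (A (L (X (L (X 1024 (A (L (X 853 e) N) (L (X 171 1) N))) N) (P f 2)) N) (S M (L (L (X (L (X 12 (L (X (L (X 86 b) N) (L (X 86 b) N)) N)) N) e) N) N)))) N) (A (L (X (L (X (L (X (A (L (X (A (L (R D 10080) 4294967295) (X c (L (R D 33888) 4294967295))) 1) N) (L (X (A (L (R D 10112) 4294967295) (X c (L (R D 33920) 4294967295))) a) N)) (L (X (L (X 86 b) N) (A (L (X (L (X 1048576 (A (L (R D 64) 4294967295) (X c (L (R D 23872) 4294967295)))) N) (P f 2)) N) (L (X (L (X 86 b) N) (A (L (X (L (X 1024 (A (L (R D 96) 4294967295) (X c (L (R D 23904) 4294967295)))) N) f) N) (L (X (L (X 86 b) N) (A (L (R D 128) 4294967295) (X c (L (R D 23936) 4294967295)))) N))) N))) N)) N) (L (X 2 (L (X (L (X 86 b) N) (L (X 86 b) N)) N)) N)) N) e) N) (A (L (X (L (X (A (L (X (A (L (R D 10144) 4294967295) (X c (L (R D 33952) 4294967295))) 1) N) (L (X (A (L (R D 10176) 4294967295)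 (X c (L (R D 33984) 4294967295))) a) N)) (L (X (L (X 86 b) N) (A (L (X (L (X 1048576 (A (L (R D 64) 4294967295) (X c (L (R D 23872) 4294967295)))) N) (P f 2)) N) (L (X (L (X 86 b) N) (A (L (X (L (X 1024 (A (L (R D 96) 4294967295) (X c (L (R D 23904) 4294967295)))) N) f) N) (L (X (L (X 86 b) N) (A (L (R D 128) 4294967295) (X c (L (R D 23936) 4294967295)))) N))) N))) N)) N) (A (L (X (L (X 1024 (L (X 2 (A (L (X 853 e) N) (L (X 171 1) N))) N)) N) (P f 2)) N) (S M (L (L (X (L (X 24 (L (X (L (X 86 b) N) (L (X 86 b) N)) N)) N) e) N) N)))) N) (L (X (L (X (L (X 1048576 (L (X (L (X (A (L (X (A (L (R D 10208) 4294967295) (X c (L (R D 34016) 4294967295))) 1) N) (L (X (A (L (R D 10240) 4294967295) (X c (L (R D 34048) 4294967295))) a) N)) (L (X (L (X 86 b) N) (A (L (X (L (X 1048576 (A (L (R D 64) 4294967295) (X c (L (R D 23872) 4294967295)))) N) (P f 2)) N) (L (X (L (X 86 b) N) (A (L (X (L (X 1024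 (A (L (R D 96) 4294967295) (X c (L (R D 23904) 4294967295)))) N) f) N) (L (X (L (X 86 b) N) (A (L (R D 128) 4294967295) (X c (L (R D 23936) 4294967295)))) N))) N))) N)) N) 2) N)) N) e) N) (P f 2)) N))))))))) N) (P e 2)) N) g) N) N))), 154, 5, 6, 4, 1⟩,
  ⟨fun A S X L P R M N m a b c d e f g h D => (A (A (L (X (L (X (L (X 0 (P e 3)) N) (P f 3)) N) (P g 3)) N) (S M (L (L (X (L (X (L (X 86 b) N) (A (L (X (L (X 1048576 (A (L (R D 64) 4294967295) (X c (L (R D 23872) 4294967295)))) N) (P f 2)) N) (L (X (L (X 86 b) N) (A (L (X (L (X 1024 (A (L (R D 96) 4294967295) (X c (L (R D 23904) 4294967295)))) N) f) N) (L (X (L (X 86 b) N) (A (L (R D 128) 4294967295) (X c (L (R D 23936) 4294967295)))) N))) N))) N) (L (X (A (L (X 1 (A (L (R D 160) 4294967295) (X a (A (L (R D 192) 4294967295) (X a (L (R D 224) 4294967295)))))) N) (L (X c (A (L (R D 23968) 4294967295) (X a (A (L (R D 24000) 4294967295) (X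 a (L (R D 24032) 4294967295)))))) N)) (L (X (A (L (X (L (X 1024 (A (A (L (R D 2976) 4294967295) (X c (L (R D 26784) 4294967295))) (S M (L (X 2147483648 (A 1 (X c 1))) N)))) N) e) N) (L (X (L (X 171 a) N) (A (A (L (R D 3072) 4294967295) (X c (L (R D 26880) 4294967295))) (S M (L (X 2147483648 (A 1 (X c 1))) N)))) N)) 1) N)) N)) N) N))) (S M (L (L (X (L (X (L (X 17179869184 (A (L (X (L (X (A (L (X (A (L (R D 9568) 4294967295) (X c (L (R D 33376) 4294967295))) 1) N) (L (X (A (L (R D 9600) 4294967295) (X c (L (R D 33408) 4294967295))) a) N)) (L (X (L (X 86 b) N) (A (L (X (L (X 1048576 (A (L (R D 64) 4294967295) (X c (L (R D 23872) 4294967295)))) N) (P f 2)) N) (L (X (L (X 86 b) N) (A (L (X (L (X 1024 (A (L (R D 96) 4294967295) (X c (L (R D 23904) 4294967295)))) N) f) N) (L (X (L (X 86 b) N) (A (L (R D 128) 4294967295) (X c (L (R D 23936) 4294967295)))) N))) N))) N)) N) (A 0 (S M (L (L (X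 12 1) N) N)))) N) (A (L (X (L (X (A (L (X (A (L (R D 9696) 4294967295) (X c (L (R D 33504) 4294967295))) 1) N) (L (X (A (L (R D 9728) 4294967295) (X c (L (R D 33536) 4294967295))) a) N)) (L (X (L (X 86 b) N) (A (L (X (L (X 1048576 (A (L (R D 64) 4294967295) (X c (L (R D 23872) 4294967295)))) N) (P f 2)) N) (L (X (L (X 86 b) N) (A (L (X (L (X 1024 (A (L (R D 96) 4294967295) (X c (L (R D 23904) 4294967295)))) N) f) N) (L (X (L (X 86 b) N) (A (L (R D 128) 4294967295) (X c (L (R D 23936) 4294967295)))) N))) N))) N)) N) 1) N) (A (L (X (L (X (A (L (X (A (L (R D 9824) 4294967295) (X c (L (R D 33632) 4294967295))) 1) N) (L (X (A (L (R D 9856) 4294967295) (X c (L (R D 33664) 4294967295))) a) N)) (L (X (L (X 86 b) N) (A (L (X (L (X 1048576 (A (L (R D 64) 4294967295) (X c (L (R D 23872) 4294967295)))) N) (P f 2)) N) (L (X (L (X 86 b) N) (A (L (X (L (X 1024 (A (L (R D 96) 4294967295) (X c (L (R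 D 23904) 4294967295)))) N) f) N) (L (X (L (X 86 b) N) (A (L (R D 128) 4294967295) (X c (L (R D 23936) 4294967295)))) N))) N))) N)) N) (A 0 (S M (L (L (X 12 1) N) N)))) N) (A (L (X (L (X (A (L (X (A (L (R D 9888) 4294967295) (X c (L (R D 33696) 4294967295))) 1) N) (L (X (A (L (R D 9920) 4294967295) (X c (L (R D 33728) 4294967295))) a) N)) (L (X (L (X 86 b) N) (A (L (X (L (X 1048576 (A (L (R D 64) 4294967295) (X c (L (R D 23872) 4294967295)))) N) (P f 2)) N) (L (X (L (X 86 b) N) (A (L (X (L (X 1024 (A (L (R D 96) 4294967295) (X c (L (R D 23904) 4294967295)))) N) f) N) (L (X (L (X 86 b) N) (A (L (R D 128) 4294967295) (X c (L (R D 23936) 4294967295)))) N))) N))) N)) N) (A 0 (S M (L (L (X 12 1) N) N)))) N) (A (L (X (L (X (A (L (X (A (L (R D 10016) 4294967295) (X c (L (R D 33824) 4294967295))) 1) N) (L (X (A (L (R D 10048) 4294967295) (X c (L (R D 33856) 4294967295))) a) N)) (L (X (L (X 86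 b) N) (A (L (X (L (X 1048576 (A (L (R D 64) 4294967295) (X c (L (R D 23872) 4294967295)))) N) (P f 2)) N) (L (X (L (X 86 b) N) (A (L (X (L (X 1024 (A (L (R D 96) 4294967295) (X c (L (R D 23904) 4294967295)))) N) f) N) (L (X (L (X 86 b) N) (A (L (R D 128) 4294967295) (X c (L (R D 23936) 4294967295)))) N))) N))) N)) N) 1) N) (L (X (L (X (A (L (X (A (L (R D 10144) 4294967295) (X c (L (R D 33952) 4294967295))) 1) N) (L (X (A (L (R D 10176) 4294967295) (X c (L (R D 33984) 4294967295))) a) N)) (L (X (L (X 86 b) N) (A (L (X (L (X 1048576 (A (L (R D 64) 4294967295) (X c (L (R D 23872) 4294967295)))) N) (P f 2)) N) (L (X (L (X 86 b) N) (A (L (X (L (X 1024 (A (L (R D 96) 4294967295) (X c (L (R D 23904) 4294967295)))) N) f) N) (L (X (L (X 86 b) N) (A (L (R D 128) 4294967295) (X c (L (R D 23936) 4294967295)))) N))) N))) N)) N) (A 0 (S M (L (L (X 12 1) N) N)))) N))))))) N) (P e 2)) N) g) N) N))),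 141, 4, 4, 4, 1⟩,
  ⟨fun A S X L P R M N m a b c d e f g h D => (A (A (L (X (L (X (L (X 0 (P e 2)) N) (P f 3)) N) (P g 3)) N) (S M (L (L (X (L (X (L (X 86 b) N) (A (L (X (L (X 1048576 (A (L (R D 64) 4294967295) (X c (L (R D 23872) 4294967295)))) N) (P f 2)) N) (L (X (L (X 86 b) N) (A (L (X (L (X 1024 (A (L (R D 96) 4294967295) (X c (L (R D 23904) 4294967295)))) N) f) N) (L (X (L (X 86 b) N) (A (L (R D 128) 4294967295) (X c (L (R D 23936) 4294967295)))) N))) N))) N) (L (X (A (L (X 1 (A (L (R D 160) 4294967295) (X a (A (L (R D 192) 4294967295) (X a (L (R D 224) 4294967295)))))) N) (L (X c (A (L (R D 23968) 4294967295) (X a (A (L (R D 24000) 4294967295) (X a (L (R D 24032) 4294967295)))))) N)) (L (X (A (A (L (R D 3008) 4294967295) (X c (L (R D 26816) 4294967295))) (S M (L (X 2147483648 (A 1 (X c 1))) N))) 1) N)) N)) N) N))) (S M (L (L (X (L (X (L (X 16777216 (A (L (X (L (X (A (L (X (A (L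 (R D 9632) 4294967295) (X c (L (R D 33440) 4294967295))) 1) N) (L (X (A (L (R D 9664) 4294967295) (X c (L (R D 33472) 4294967295))) a) N)) (L (X (L (X 86 b) N) (A (L (X (L (X 1048576 (A (L (R D 64) 4294967295) (X c (L (R D 23872) 4294967295)))) N) (P f 2)) N) (L (X (L (X 86 b) N) (A (L (X (L (X 1024 (A (L (R D 96) 4294967295) (X c (L (R D 23904) 4294967295)))) N) f) N) (L (X (L (X 86 b) N) (A (L (R D 128) 4294967295) (X c (L (R D 23936) 4294967295)))) N))) N))) N)) N) (A 0 (S M (L (L (X 12 1) N) N)))) N) (A (L (X (L (X (A (L (X (A (L (R D 9760) 4294967295) (X c (L (R D 33568) 4294967295))) 1) N) (L (X (A (L (R D 9792) 4294967295) (X c (L (R D 33600) 4294967295))) a) N)) (L (X (L (X 86 b) N) (A (L (X (L (X 1048576 (A (L (R D 64) 4294967295) (X c (L (R D 23872) 4294967295)))) N) (P f 2)) N) (L (X (L (X 86 b) N) (A (L (X (L (X 1024 (A (L (R D 96) 4294967295) (X c (L (R D 23904) 4294967295))))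 N) f) N) (L (X (L (X 86 b) N) (A (L (R D 128) 4294967295) (X c (L (R D 23936) 4294967295)))) N))) N))) N)) N) (L (X 2 1) N)) N) (A (L (X (L (X (A (L (X (A (L (R D 9824) 4294967295) (X c (L (R D 33632) 4294967295))) 1) N) (L (X (A (L (R D 9856) 4294967295) (X c (L (R D 33664) 4294967295))) a) N)) (L (X (L (X 86 b) N) (A (L (X (L (X 1048576 (A (L (R D 64) 4294967295) (X c (L (R D 23872) 4294967295)))) N) (P f 2)) N) (L (X (L (X 86 b) N) (A (L (X (L (X 1024 (A (L (R D 96) 4294967295) (X c (L (R D 23904) 4294967295)))) N) f) N) (L (X (L (X 86 b) N) (A (L (R D 128) 4294967295) (X c (L (R D 23936) 4294967295)))) N))) N))) N)) N) (A 0 (S M (L (L (X 24 1) N) N)))) N) (A (L (X (L (X (A (L (X (A (L (R D 9952) 4294967295) (X c (L (R D 33760) 4294967295))) 1) N) (L (X (A (L (R D 9984) 4294967295) (X c (L (R D 33792) 4294967295))) a) N)) (L (X (L (X 86 b) N) (A (L (X (L (X 1048576 (A (L (R D 64)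 4294967295) (X c (L (R D 23872) 4294967295)))) N) (P f 2)) N) (L (X (L (X 86 b) N) (A (L (X (L (X 1024 (A (L (R D 96) 4294967295) (X c (L (R D 23904) 4294967295)))) N) f) N) (L (X (L (X 86 b) N) (A (L (R D 128) 4294967295) (X c (L (R D 23936) 4294967295)))) N))) N))) N)) N) (A 0 (S M (L (L (X 12 1) N) N)))) N) (A (L (X (L (X (A (L (X (A (L (R D 10080) 4294967295) (X c (L (R D 33888) 4294967295))) 1) N) (L (X (A (L (R D 10112) 4294967295) (X c (L (R D 33920) 4294967295))) a) N)) (L (X (L (X 86 b) N) (A (L (X (L (X 1048576 (A (L (R D 64) 4294967295) (X c (L (R D 23872) 4294967295)))) N) (P f 2)) N) (L (X (L (X 86 b) N) (A (L (X (L (X 1024 (A (L (R D 96) 4294967295) (X c (L (R D 23904) 4294967295)))) N) f) N) (L (X (L (X 86 b) N) (A (L (R D 128) 4294967295) (X c (L (R D 23936) 4294967295)))) N))) N))) N)) N) (L (X 2 1) N)) N) (L (X (L (X (A (L (X (A (L (R D 10144) 4294967295) (X c (L (R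 D 33952) 4294967295))) 1) N) (L (X (A (L (R D 10176) 4294967295) (X c (L (R D 33984) 4294967295))) a) N)) (L (X (L (X 86 b) N) (A (L (X (L (X 1048576 (A (L (R D 64) 4294967295) (X c (L (R D 23872) 4294967295)))) N) (P f 2)) N) (L (X (L (X 86 b) N) (A (L (X (L (X 1024 (A (L (R D 96) 4294967295) (X c (L (R D 23904) 4294967295)))) N) f) N) (L (X (L (X 86 b) N) (A (L (R D 128) 4294967295) (X c (L (R D 23936) 4294967295)))) N))) N))) N)) N) (A 0 (S M (L (L (X 24 1) N) N)))) N))))))) N) e) N) g) N) N))), 130, 3, 4, 4, 1⟩,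
  ⟨fun A S X L P R M N m a b c d e f g h D => (A (A (L (X (L (X (L (X 0 (P e 2)) N) (P f 3)) N) (P g 3)) N) (S M (L (L (X (L (X (L (X 86 b) N) (A (L (X (L (X 1048576 (A (L (R D 64) 4294967295) (X c (L (R D 23872) 4294967295)))) N) (P f 2)) N) (L (X (L (X 86 b) N) (A (L (X (L (X 1024 (A (L (R D 96) 4294967295) (X c (L (R D 23904) 4294967295)))) N) f) N) (L (X (L (X 86 b) N) (A (L (R D 128) 4294967295) (X c (L (R D 23936) 4294967295)))) N))) N))) N) (L (X (A (L (X 1 (A (L (R D 160) 4294967295) (X a (A (L (R D 192) 4294967295) (X a (L (R D 224) 4294967295)))))) N) (L (X c (A (L (R D 23968) 4294967295) (X a (A (L (R D 24000) 4294967295) (X a (L (R D 24032) 4294967295)))))) N)) (L (X (A (A (L (R D 3040) 4294967295) (X c (L (R D 26848) 4294967295))) (S M (L (X 2147483648 (A 1 (X c 1))) N))) 1) N)) N)) N) N))) (S M (L (L (X (L (X (L (X 16777216 (A (L (X (L (X (A (L (X (A (L (R D 9696) 4294967295)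 (X c (L (R D 33504) 4294967295))) 1) N) (L (X (A (L (R D 9728) 4294967295) (X c (L (R D 33536) 4294967295))) a) N)) (L (X (L (X 86 b) N) (A (L (X (L (X 1048576 (A (L (R D 64) 4294967295) (X c (L (R D 23872) 4294967295)))) N) (P f 2)) N) (L (X (L (X 86 b) N) (A (L (X (L (X 1024 (A (L (R D 96) 4294967295) (X c (L (R D 23904) 4294967295)))) N) f) N) (L (X (L (X 86 b) N) (A (L (R D 128) 4294967295) (X c (L (R D 23936) 4294967295)))) N))) N))) N)) N) (A 0 (S M (L (L (X 12 1) N) N)))) N) (A (L (X (L (X (A (L (X (A (L (R D 9760) 4294967295) (X c (L (R D 33568) 4294967295))) 1) N) (L (X (A (L (R D 9792) 4294967295) (X c (L (R D 33600) 4294967295))) a) N)) (L (X (L (X 86 b) N) (A (L (X (L (X 1048576 (A (L (R D 64) 4294967295) (X c (L (R D 23872) 4294967295)))) N) (P f 2)) N) (L (X (L (X 86 b) N) (A (L (X (L (X 1024 (A (L (R D 96) 4294967295) (X c (L (R D 23904) 4294967295)))) N) f) N) (L (X (L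 (X 86 b) N) (A (L (R D 128) 4294967295) (X c (L (R D 23936) 4294967295)))) N))) N))) N)) N) (A 0 (S M (L (L (X 12 1) N) N)))) N) (A (L (X (L (X (A (L (X (A (L (R D 9824) 4294967295) (X c (L (R D 33632) 4294967295))) 1) N) (L (X (A (L (R D 9856) 4294967295) (X c (L (R D 33664) 4294967295))) a) N)) (L (X (L (X 86 b) N) (A (L (X (L (X 1048576 (A (L (R D 64) 4294967295) (X c (L (R D 23872) 4294967295)))) N) (P f 2)) N) (L (X (L (X 86 b) N) (A (L (X (L (X 1024 (A (L (R D 96) 4294967295) (X c (L (R D 23904) 4294967295)))) N) f) N) (L (X (L (X 86 b) N) (A (L (R D 128) 4294967295) (X c (L (R D 23936) 4294967295)))) N))) N))) N)) N) (L (X 144 1) N)) N) (A (L (X (L (X (A (L (X (A (L (R D 10016) 4294967295) (X c (L (R D 33824) 4294967295))) 1) N) (L (X (A (L (R D 10048) 4294967295) (X c (L (R D 33856) 4294967295))) a) N)) (L (X (L (X 86 b) N) (A (L (X (L (X 1048576 (A (L (R D 64) 4294967295) (X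 c (L (R D 23872) 4294967295)))) N) (P f 2)) N) (L (X (L (X 86 b) N) (A (L (X (L (X 1024 (A (L (R D 96) 4294967295) (X c (L (R D 23904) 4294967295)))) N) f) N) (L (X (L (X 86 b) N) (A (L (R D 128) 4294967295) (X c (L (R D 23936) 4294967295)))) N))) N))) N)) N) (A 0 (S M (L (L (X 12 1) N) N)))) N) (A (L (X (L (X (A (L (X (A (L (R D 10080) 4294967295) (X c (L (R D 33888) 4294967295))) 1) N) (L (X (A (L (R D 10112) 4294967295) (X c (L (R D 33920) 4294967295))) a) N)) (L (X (L (X 86 b) N) (A (L (X (L (X 1048576 (A (L (R D 64) 4294967295) (X c (L (R D 23872) 4294967295)))) N) (P f 2)) N) (L (X (L (X 86 b) N) (A (L (X (L (X 1024 (A (L (R D 96) 4294967295) (X c (L (R D 23904) 4294967295)))) N) f) N) (L (X (L (X 86 b) N) (A (L (R D 128) 4294967295) (X c (L (R D 23936) 4294967295)))) N))) N))) N)) N) (A 0 (S M (L (L (X 12 1) N) N)))) N) (L (X (L (X (A (L (X (A (L (R D 10144) 4294967295) (X c (L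 (R D 33952) 4294967295))) 1) N) (L (X (A (L (R D 10176) 4294967295) (X c (L (R D 33984) 4294967295))) a) N)) (L (X (L (X 86 b) N) (A (L (X (L (X 1048576 (A (L (R D 64) 4294967295) (X c (L (R D 23872) 4294967295)))) N) (P f 2)) N) (L (X (L (X 86 b) N) (A (L (X (L (X 1024 (A (L (R D 96) 4294967295) (X c (L (R D 23904) 4294967295)))) N) f) N) (L (X (L (X 86 b) N) (A (L (R D 128) 4294967295) (X c (L (R D 23936) 4294967295)))) N))) N))) N)) N) (L (X 144 1) N)) N))))))) N) e) N) g) N) N))), 131, 3, 4, 4, 1⟩,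
  ⟨fun A S X L P R M N m a b c d e f g h D => (A (L (X (L (X (L (X 0 e) N) (P f 5)) N) (P g 2)) N) (S M (L (A (L (X (L (X 1024 (L (X (L (X (A (L (X (A (L (R D 9888) 4294967295) (X c (L (R D 33696) 4294967295))) 1) N) (L (X (A (L (R D 9920) 4294967295) (X c (L (R D 33728) 4294967295))) a) N)) (L (X (L (X 86 b) N) (A (L (X (L (X 1048576 (A (L (R D 64) 4294967295) (X c (L (R D 23872) 4294967295)))) N) (P f 2)) N) (L (X (L (X 86 b) N) (A (L (X (L (X 1024 (A (L (R D 96) 4294967295) (X c (L (R D 23904) 4294967295)))) N) f) N) (L (X (L (X 86 b) N) (A (L (R D 128) 4294967295) (X c (L (R D 23936) 4294967295)))) N))) N))) N)) N) (A (L (X 0 f) N) (S M (L (L (X 12 (L (X 86 b) N)) N) N)))) N)) N) f) N) (A (L (X (L (X (A (L (X (A (L (R D 10016) 4294967295) (X c (L (R D 33824) 4294967295))) 1) N) (L (X (A (L (R D 10048) 4294967295) (X c (L (R D 33856) 4294967295))) a) N)) (L (X (L (X 86 b) N) (A (L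 (X (L (X 1048576 (A (L (R D 64) 4294967295) (X c (L (R D 23872) 4294967295)))) N) (P f 2)) N) (L (X (L (X 86 b) N) (A (L (X (L (X 1024 (A (L (R D 96) 4294967295) (X c (L (R D 23904) 4294967295)))) N) f) N) (L (X (L (X 86 b) N) (A (L (R D 128) 4294967295) (X c (L (R D 23936) 4294967295)))) N))) N))) N)) N) (A (L (X (L (X 1024 (L (X 86 b) N)) N) f) N) (S M (L (L (X 12 (L (X (L (X 86 b) N) (L (X 86 b) N)) N)) N) N)))) N) (A (L (X (L (X (A (L (X (A (L (R D 10080) 4294967295) (X c (L (R D 33888) 4294967295))) 1) N) (L (X (A (L (R D 10112) 4294967295) (X c (L (R D 33920) 4294967295))) a) N)) (L (X (L (X 86 b) N) (A (L (X (L (X 1048576 (A (L (R D 64) 4294967295) (X c (L (R D 23872) 4294967295)))) N) (P f 2)) N) (L (X (L (X 86 b) N) (A (L (X (L (X 1024 (A (L (R D 96) 4294967295) (X c (L (R D 23904) 4294967295)))) N) f) N) (L (X (L (X 86 b) N) (A (L (R D 128) 4294967295) (X c (L (R D 23936) 4294967295))))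 N))) N))) N)) N) (A (L (X 0 (P f 2)) N) (S M (L (L (X 12 (L (X (L (X 86 b) N) (L (X 86 b) N)) N)) N) N)))) N) (A (L (X (L (X (A (L (X (A (L (R D 10144) 4294967295) (X c (L (R D 33952) 4294967295))) 1) N) (L (X (A (L (R D 10176) 4294967295) (X c (L (R D 33984) 4294967295))) a) N)) (L (X (L (X 86 b) N) (A (L (X (L (X 1048576 (A (L (R D 64) 4294967295) (X c (L (R D 23872) 4294967295)))) N) (P f 2)) N) (L (X (L (X 86 b) N) (A (L (X (L (X 1024 (A (L (R D 96) 4294967295) (X c (L (R D 23904) 4294967295)))) N) f) N) (L (X (L (X 86 b) N) (A (L (R D 128) 4294967295) (X c (L (R D 23936) 4294967295)))) N))) N))) N)) N) (A (L (X 144 (L (X (L (X 86 b) N) (L (X 86 b) N)) N)) N) (S M (L (L (X (L (X 1024 (L (X 12 (L (X 86 b) N)) N)) N) f) N) N)))) N) (L (X (L (X 1048576 (L (X (L (X (A (L (X (A (L (R D 10208) 4294967295) (X c (L (R D 34016) 4294967295))) 1) N) (L (X (A (L (R D 10240) 4294967295) (X c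 (L (R D 34048) 4294967295))) a) N)) (L (X (L (X 86 b) N) (A (L (X (L (X 1048576 (A (L (R D 64) 4294967295) (X c (L (R D 23872) 4294967295)))) N) (P f 2)) N) (L (X (L (X 86 b) N) (A (L (X (L (X 1024 (A (L (R D 96) 4294967295) (X c (L (R D 23904) 4294967295)))) N) f) N) (L (X (L (X 86 b) N) (A (L (R D 128) 4294967295) (X c (L (R D 23936) 4294967295)))) N))) N))) N)) N) (A 0 (S M (L (L (X 12 1) N) N)))) N)) N) (P f 2)) N))))) N))), 122, 2, 6, 3, 1⟩,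
  ⟨fun A S X L P R M N m a b c d e f g h D => (A (A (L (X (L (X (L (X (L (X 295147905179352825856 (L (X (L (X 86 b) N) (A (L (X 1024 (A (L (X (A (L (X (L (X 1024 (A (A (L (R D 4704) 4294967295) (X c (L (R D 28512) 4294967295))) (S M (L (X 2147483648 (A 1 (X c 1))) N)))) N) e) N) (L (X (A (A (L (R D 4736) 4294967295) (X c (L (R D 28544) 4294967295))) (S M (L (X 2147483648 (A 1 (X c 1))) N))) (L (X 171 a) N)) N)) f) N) (L (X (L (X (A (A (L (R D 4768) 4294967295) (X c (L (R D 28576) 4294967295))) (S M (L (X 2147483648 (A 1 (X c 1))) N))) (L (X 86 b) N)) N) e) N))) N) (L (X (A (A (L (R D 4800) 4294967295) (X c (L (R D 28608) 4294967295))) (S M (L (X 2147483648 (A 1 (X c 1))) N))) (L (X (L (X 86 b) N) (L (X 171 a) N)) N)) N))) N)) N) (P e 3)) N) (P f 3)) N) (P g 2)) N) (S M (L (L (X (L (X (L (X 86 b) N) (A (L (X (L (X 1048576 (A (L (R D 64) 4294967295) (X c (L (R D 23872) 4294967295)))) N)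 (P f 2)) N) (L (X (L (X 86 b) N) (A (L (X (L (X 1024 (A (L (R D 96) 4294967295) (X c (L (R D 23904) 4294967295)))) N) f) N) (L (X (L (X 86 b) N) (A (L (R D 128) 4294967295) (X c (L (R D 23936) 4294967295)))) N))) N))) N) (A (L (X (L (X (L (X 16384 (L (X (L (X 1 (A (L (X 853 e) N) (L (X 171 1) N))) N) (A (L (X (A (L (X (L (X 1024 (L (X (A (A (L (R D 1120) 4294967295) (X c (L (R D 24928) 4294967295))) (S M (L (X 2147483648 (A 1 (X c 1))) N))) (A (L (X 853 e) N) (L (X 171 1) N))) N)) N) e) N) (L (X (A (A (L (R D 1152) 4294967295) (X c (L (R D 24960) 4294967295))) (S M (L (X 2147483648 (A 1 (X c 1))) N))) (L (X (L (X 171 a) N) (A (L (X 853 e) N) (L (X 171 1) N))) N)) N)) (P f 2)) N) (L (X (L (X (A (A (L (R D 1216) 4294967295) (X c (L (R D 25024) 4294967295))) (S M (L (X 2147483648 (A 1 (X c 1))) N))) (L (X (L (X 86 b) N) (L (X 86 b) N)) N)) N) (P e 2)) N))) N)) N) e) N) g) N) (L (X (L (X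 (A (L (X 1 (A (L (R D 160) 4294967295) (X a (A (L (R D 192) 4294967295) (X a (L (R D 224) 4294967295)))))) N) (L (X c (A (L (R D 23968) 4294967295) (X a (A (L (R D 24000) 4294967295) (X a (L (R D 24032) 4294967295)))))) N)) (A (L (X (L (X 1024 (L (X (A (A (L (R D 1760) 4294967295) (X c (L (R D 25568) 4294967295))) (S M (L (X 2147483648 (A 1 (X c 1))) N))) (A (L (X (L (X 767 e) N) f) N) (A (L (X (L (X 171 1) N) f) N) (L (X (L (X 86 1) N) e) N)))) N)) N) e) N) (L (X (A (A (L (R D 1792) 4294967295) (X c (L (R D 25600) 4294967295))) (S M (L (X 2147483648 (A 1 (X c 1))) N))) (L (X (L (X 171 a) N) (A (L (X (L (X 767 e) N) f) N) (A (L (X (L (X 171 1) N) f) N) (L (X (L (X 86 1) N) e) N)))) N)) N))) N) f) N))) N) N))) (S M (L (L (X (L (X (L (X 16777216 (A (L (X (L (X 1024 (L (X (L (X (A (L (X (A (L (R D 10272) 4294967295) (X c (L (R D 34080) 4294967295))) 1) N) (L (X (A (L (R D 10304) 4294967295)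 (X c (L (R D 34112) 4294967295))) a) N)) (L (X (L (X 86 b) N) (A (L (X (L (X 1048576 (A (L (R D 64) 4294967295) (X c (L (R D 23872) 4294967295)))) N) (P f 2)) N) (L (X (L (X 86 b) N) (A (L (X (L (X 1024 (A (L (R D 96) 4294967295) (X c (L (R D 23904) 4294967295)))) N) f) N) (L (X (L (X 86 b) N) (A (L (R D 128) 4294967295) (X c (L (R D 23936) 4294967295)))) N))) N))) N)) N) (L (X 2 (A (L (X (L (X 767 e) N) f) N) (A (L (X (L (X 171 1) N) f) N) (L (X (L (X 86 1) N) e) N)))) N)) N)) N) f) N) (A (L (X (L (X 1024 (L (X (L (X (A (L (X (A (L (R D 10336) 4294967295) (X c (L (R D 34144) 4294967295))) 1) N) (L (X (A (L (R D 10368) 4294967295) (X c (L (R D 34176) 4294967295))) a) N)) (L (X (L (X 86 b) N) (A (L (X (L (X 1048576 (A (L (R D 64) 4294967295) (X c (L (R D 23872) 4294967295)))) N) (P f 2)) N) (L (X (L (X 86 b) N) (A (L (X (L (X 1024 (A (L (R D 96) 4294967295) (X c (L (R D 23904) 4294967295))))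 N) f) N) (L (X (L (X 86 b) N) (A (L (R D 128) 4294967295) (X c (L (R D 23936) 4294967295)))) N))) N))) N)) N) (A (L (X (L (X 767 e) N) f) N) (A (L (X (L (X 171 1) N) f) N) (L (X (L (X 86 1) N) e) N)))) N)) N) f) N) (A (L (X (L (X 1024 (L (X (L (X (A (L (X (A (L (R D 10528) 4294967295) (X c (L (R D 34336) 4294967295))) 1) N) (L (X (A (L (R D 10560) 4294967295) (X c (L (R D 34368) 4294967295))) a) N)) (L (X (L (X 86 b) N) (A (L (X (L (X 1048576 (A (L (R D 64) 4294967295) (X c (L (R D 23872) 4294967295)))) N) (P f 2)) N) (L (X (L (X 86 b) N) (A (L (X (L (X 1024 (A (L (R D 96) 4294967295) (X c (L (R D 23904) 4294967295)))) N) f) N) (L (X (L (X 86 b) N) (A (L (R D 128) 4294967295) (X c (L (R D 23936) 4294967295)))) N))) N))) N)) N) (L (X 2 (A (L (X (L (X 767 e) N) f) N) (A (L (X (L (X 171 1) N) f) N) (L (X (L (X 86 1) N) e) N)))) N)) N)) N) f) N) (A (L (X (L (X 1024 (L (X (L (X (A (L (X (A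 (L (R D 10592) 4294967295) (X c (L (R D 34400) 4294967295))) 1) N) (L (X (A (L (R D 10624) 4294967295) (X c (L (R D 34432) 4294967295))) a) N)) (L (X (L (X 86 b) N) (A (L (X (L (X 1048576 (A (L (R D 64) 4294967295) (X c (L (R D 23872) 4294967295)))) N) (P f 2)) N) (L (X (L (X 86 b) N) (A (L (X (L (X 1024 (A (L (R D 96) 4294967295) (X c (L (R D 23904) 4294967295)))) N) f) N) (L (X (L (X 86 b) N) (A (L (R D 128) 4294967295) (X c (L (R D 23936) 4294967295)))) N))) N))) N)) N) (L (X 2 (A (L (X 853 e) N) (L (X 171 1) N))) N)) N)) N) (P f 2)) N) (A (L (X (L (X (A (L (X (A (L (R D 10656) 4294967295) (X c (L (R D 34464) 4294967295))) 1) N) (L (X (A (L (R D 10688) 4294967295) (X c (L (R D 34496) 4294967295))) a) N)) (L (X (L (X 86 b) N) (A (L (X (L (X 1048576 (A (L (R D 64) 4294967295) (X c (L (R D 23872) 4294967295)))) N) (P f 2)) N) (L (X (L (X 86 b) N) (A (L (X (L (X 1024 (A (L (R D 96) 4294967295)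 (X c (L (R D 23904) 4294967295)))) N) f) N) (L (X (L (X 86 b) N) (A (L (R D 128) 4294967295) (X c (L (R D 23936) 4294967295)))) N))) N))) N)) N) (A (L (X (L (X 1024 (A (L (X 853 e) N) (L (X 171 1) N))) N) (P f 2)) N) (S M (L (L (X (L (X 12 (L (X (L (X 86 b) N) (L (X 86 b) N)) N)) N) e) N) N)))) N) (A (L (X (L (X (L (X (A (L (X (A (L (R D 10784) 4294967295) (X c (L (R D 34592) 4294967295))) 1) N) (L (X (A (L (R D 10816) 4294967295) (X c (L (R D 34624) 4294967295))) a) N)) (L (X (L (X 86 b) N) (A (L (X (L (X 1048576 (A (L (R D 64) 4294967295) (X c (L (R D 23872) 4294967295)))) N) (P f 2)) N) (L (X (L (X 86 b) N) (A (L (X (L (X 1024 (A (L (R D 96) 4294967295) (X c (L (R D 23904) 4294967295)))) N) f) N) (L (X (L (X 86 b) N) (A (L (R D 128) 4294967295) (X c (L (R D 23936) 4294967295)))) N))) N))) N)) N) (L (X 2 (L (X (L (X 86 b) N) (L (X 86 b) N)) N)) N)) N) e) N) (A (L (X (L (X (A (L (X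 (A (L (R D 10848) 4294967295) (X c (L (R D 34656) 4294967295))) 1) N) (L (X (A (L (R D 10880) 4294967295) (X c (L (R D 34688) 4294967295))) a) N)) (L (X (L (X 86 b) N) (A (L (X (L (X 1048576 (A (L (R D 64) 4294967295) (X c (L (R D 23872) 4294967295)))) N) (P f 2)) N) (L (X (L (X 86 b) N) (A (L (X (L (X 1024 (A (L (R D 96) 4294967295) (X c (L (R D 23904) 4294967295)))) N) f) N) (L (X (L (X 86 b) N) (A (L (R D 128) 4294967295) (X c (L (R D 23936) 4294967295)))) N))) N))) N)) N) (A (L (X (L (X 1024 (L (X 2 (A (L (X 853 e) N) (L (X 171 1) N))) N)) N) (P f 2)) N) (S M (L (L (X (L (X 24 (L (X (L (X 86 b) N) (L (X 86 b) N)) N)) N) e) N) N)))) N) (L (X (L (X (L (X 1048576 (L (X (L (X (A (L (X (A (L (R D 10912) 4294967295) (X c (L (R D 34720) 4294967295))) 1) N) (L (X (A (L (R D 10944) 4294967295) (X c (L (R D 34752) 4294967295))) a) N)) (L (X (L (X 86 b) N) (A (L (X (L (X 1048576 (A (L (R D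 64) 4294967295) (X c (L (R D 23872) 4294967295)))) N) (P f 2)) N) (L (X (L (X 86 b) N) (A (L (X (L (X 1024 (A (L (R D 96) 4294967295) (X c (L (R D 23904) 4294967295)))) N) f) N) (L (X (L (X 86 b) N) (A (L (R D 128) 4294967295) (X c (L (R D 23936) 4294967295)))) N))) N))) N)) N) 2) N)) N) e) N) (P f 2)) N))))))))) N) (P e 2)) N) g) N) N))), 154, 5, 6, 4, 1⟩,
  ⟨fun A S X L P R M N m a b c d e f g h D => (A (A (L (X (L (X (L (X 0 (P e 3)) N) (P f 3)) N) (P g 3)) N) (S M (L (L (X (L (X (L (X 86 b) N) (A (L (X (L (X 1048576 (A (L (R D 64) 4294967295) (X c (L (R D 23872) 4294967295)))) N) (P f 2)) N) (L (X (L (X 86 b) N) (A (L (X (L (X 1024 (A (L (R D 96) 4294967295) (X c (L (R D 23904) 4294967295)))) N) f) N) (L (X (L (X 86 b) N) (A (L (R D 128) 4294967295) (X c (L (R D 23936) 4294967295)))) N))) N))) N) (A (L (X (L (X (L (X 16384 (L (X (L (X 1 (A (L (X 853 e) N) (L (X 171 1) N))) N) (L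 (X (A (L (X (L (X 1024 (A (A (L (R D 1184) 4294967295) (X c (L (R D 24992) 4294967295))) (S M (L (X 2147483648 (A 1 (X c 1))) N)))) N) e) N) (L (X (L (X 171 a) N) (A (A (L (R D 1280) 4294967295) (X c (L (R D 25088) 4294967295))) (S M (L (X 2147483648 (A 1 (X c 1))) N)))) N)) 1) N)) N)) N) e) N) g) N) (L (X (A (L (X 1 (A (L (R D 160) 4294967295) (X a (A (L (R D 192) 4294967295) (X a (L (R D 224) 4294967295)))))) N) (L (X c (A (L (R D 23968) 4294967295) (X a (A (L (R D 24000) 4294967295) (X a (L (R D 24032) 4294967295)))))) N)) (L (X (A (L (X (L (X 1024 (A (A (L (R D 1824) 4294967295) (X c (L (R D 25632) 4294967295))) (S M (L (X 2147483648 (A 1 (X c 1))) N)))) N) e) N) (L (X (L (X 171 a) N) (A (A (L (R D 1920) 4294967295) (X c (L (R D 25728) 4294967295))) (S M (L (X 2147483648 (A 1 (X c 1))) N)))) N)) 1) N)) N))) N) N))) (S M (L (L (X (L (X (L (X 17179869184 (A (L (X (L (X (A (L (X (A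 (L (R D 10272) 4294967295) (X c (L (R D 34080) 4294967295))) 1) N) (L (X (A (L (R D 10304) 4294967295) (X c (L (R D 34112) 4294967295))) a) N)) (L (X (L (X 86 b) N) (A (L (X (L (X 1048576 (A (L (R D 64) 4294967295) (X c (L (R D 23872) 4294967295)))) N) (P f 2)) N) (L (X (L (X 86 b) N) (A (L (X (L (X 1024 (A (L (R D 96) 4294967295) (X c (L (R D 23904) 4294967295)))) N) f) N) (L (X (L (X 86 b) N) (A (L (R D 128) 4294967295) (X c (L (R D 23936) 4294967295)))) N))) N))) N)) N) (A 0 (S M (L (L (X 12 1) N) N)))) N) (A (L (X (L (X (A (L (X (A (L (R D 10400) 4294967295) (X c (L (R D 34208) 4294967295))) 1) N) (L (X (A (L (R D 10432) 4294967295) (X c (L (R D 34240) 4294967295))) a) N)) (L (X (L (X 86 b) N) (A (L (X (L (X 1048576 (A (L (R D 64) 4294967295) (X c (L (R D 23872) 4294967295)))) N) (P f 2)) N) (L (X (L (X 86 b) N) (A (L (X (L (X 1024 (A (L (R D 96) 4294967295) (X c (L (R D 23904) 4294967295))))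 N) f) N) (L (X (L (X 86 b) N) (A (L (R D 128) 4294967295) (X c (L (R D 23936) 4294967295)))) N))) N))) N)) N) 1) N) (A (L (X (L (X (A (L (X (A (L (R D 10528) 4294967295) (X c (L (R D 34336) 4294967295))) 1) N) (L (X (A (L (R D 10560) 4294967295) (X c (L (R D 34368) 4294967295))) a) N)) (L (X (L (X 86 b) N) (A (L (X (L (X 1048576 (A (L (R D 64) 4294967295) (X c (L (R D 23872) 4294967295)))) N) (P f 2)) N) (L (X (L (X 86 b) N) (A (L (X (L (X 1024 (A (L (R D 96) 4294967295) (X c (L (R D 23904) 4294967295)))) N) f) N) (L (X (L (X 86 b) N) (A (L (R D 128) 4294967295) (X c (L (R D 23936) 4294967295)))) N))) N))) N)) N) (A 0 (S M (L (L (X 12 1) N) N)))) N) (A (L (X (L (X (A (L (X (A (L (R D 10592) 4294967295) (X c (L (R D 34400) 4294967295))) 1) N) (L (X (A (L (R D 10624) 4294967295) (X c (L (R D 34432) 4294967295))) a) N)) (L (X (L (X 86 b) N) (A (L (X (L (X 1048576 (A (L (R D 64) 4294967295)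 (X c (L (R D 23872) 4294967295)))) N) (P f 2)) N) (L (X (L (X 86 b) N) (A (L (X (L (X 1024 (A (L (R D 96) 4294967295) (X c (L (R D 23904) 4294967295)))) N) f) N) (L (X (L (X 86 b) N) (A (L (R D 128) 4294967295) (X c (L (R D 23936) 4294967295)))) N))) N))) N)) N) (A 0 (S M (L (L (X 12 1) N) N)))) N) (A (L (X (L (X (A (L (X (A (L (R D 10720) 4294967295) (X c (L (R D 34528) 4294967295))) 1) N) (L (X (A (L (R D 10752) 4294967295) (X c (L (R D 34560) 4294967295))) a) N)) (L (X (L (X 86 b) N) (A (L (X (L (X 1048576 (A (L (R D 64) 4294967295) (X c (L (R D 23872) 4294967295)))) N) (P f 2)) N) (L (X (L (X 86 b) N) (A (L (X (L (X 1024 (A (L (R D 96) 4294967295) (X c (L (R D 23904) 4294967295)))) N) f) N) (L (X (L (X 86 b) N) (A (L (R D 128) 4294967295) (X c (L (R D 23936) 4294967295)))) N))) N))) N)) N) 1) N) (L (X (L (X (A (L (X (A (L (R D 10848) 4294967295) (X c (L (R D 34656) 4294967295)))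 1) N) (L (X (A (L (R D 10880) 4294967295) (X c (L (R D 34688) 4294967295))) a) N)) (L (X (L (X 86 b) N) (A (L (X (L (X 1048576 (A (L (R D 64) 4294967295) (X c (L (R D 23872) 4294967295)))) N) (P f 2)) N) (L (X (L (X 86 b) N) (A (L (X (L (X 1024 (A (L (R D 96) 4294967295) (X c (L (R D 23904) 4294967295)))) N) f) N) (L (X (L (X 86 b) N) (A (L (R D 128) 4294967295) (X c (L (R D 23936) 4294967295)))) N))) N))) N)) N) (A 0 (S M (L (L (X 12 1) N) N)))) N))))))) N) (P e 2)) N) g) N) N))), 141, 4, 4, 4, 1⟩,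
  ⟨fun A S X L P R M N m a b c d e f g h D => (A (A (L (X (L (X (L (X 0 (P e 2)) N) (P f 3)) N) (P g 3)) N) (S M (L (L (X (L (X (L (X 86 b) N) (A (L (X (L (X 1048576 (A (L (R D 64) 4294967295) (X c (L (R D 23872) 4294967295)))) N) (P f 2)) N) (L (X (L (X 86 b) N) (A (L (X (L (X 1024 (A (L (R D 96) 4294967295) (X c (L (R D 23904) 4294967295)))) N) f) N) (L (X (L (X 86 b) N) (A (L (R D 128) 4294967295) (X c (L (R D 23936) 4294967295)))) N))) N))) N) (A (L (X (L (X (L (X 16384 (L (X (L (X 1 (A (L (X 853 e) N) (L (X 171 1) N))) N) (L (X (A (A (L (R D 1216) 4294967295) (X c (L (R D 25024) 4294967295))) (S M (L (X 2147483648 (A 1 (X c 1))) N))) 1) N)) N)) N) e) N) g) N) (L (X (A (L (X 1 (A (L (R D 160) 4294967295) (X a (A (L (R D 192) 4294967295) (X a (L (R D 224) 4294967295)))))) N) (L (X c (A (L (R D 23968) 4294967295) (X a (A (L (R D 24000) 4294967295) (X a (L (R D 24032) 4294967295))))))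 N)) (L (X (A (A (L (R D 1856) 4294967295) (X c (L (R D 25664) 4294967295))) (S M (L (X 2147483648 (A 1 (X c 1))) N))) 1) N)) N))) N) N))) (S M (L (L (X (L (X (L (X 16777216 (A (L (X (L (X (A (L (X (A (L (R D 10336) 4294967295) (X c (L (R D 34144) 4294967295))) 1) N) (L (X (A (L (R D 10368) 4294967295) (X c (L (R D 34176) 4294967295))) a) N)) (L (X (L (X 86 b) N) (A (L (X (L (X 1048576 (A (L (R D 64) 4294967295) (X c (L (R D 23872) 4294967295)))) N) (P f 2)) N) (L (X (L (X 86 b) N) (A (L (X (L (X 1024 (A (L (R D 96) 4294967295) (X c (L (R D 23904) 4294967295)))) N) f) N) (L (X (L (X 86 b) N) (A (L (R D 128) 4294967295) (X c (L (R D 23936) 4294967295)))) N))) N))) N)) N) (A 0 (S M (L (L (X 12 1) N) N)))) N) (A (L (X (L (X (A (L (X (A (L (R D 10464) 4294967295) (X c (L (R D 34272) 4294967295))) 1) N) (L (X (A (L (R D 10496) 4294967295) (X c (L (R D 34304) 4294967295))) a) N)) (L (X (L (X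 86 b) N) (A (L (X (L (X 1048576 (A (L (R D 64) 4294967295) (X c (L (R D 23872) 4294967295)))) N) (P f 2)) N) (L (X (L (X 86 b) N) (A (L (X (L (X 1024 (A (L (R D 96) 4294967295) (X c (L (R D 23904) 4294967295)))) N) f) N) (L (X (L (X 86 b) N) (A (L (R D 128) 4294967295) (X c (L (R D 23936) 4294967295)))) N))) N))) N)) N) (L (X 2 1) N)) N) (A (L (X (L (X (A (L (X (A (L (R D 10528) 4294967295) (X c (L (R D 34336) 4294967295))) 1) N) (L (X (A (L (R D 10560) 4294967295) (X c (L (R D 34368) 4294967295))) a) N)) (L (X (L (X 86 b) N) (A (L (X (L (X 1048576 (A (L (R D 64) 4294967295) (X c (L (R D 23872) 4294967295)))) N) (P f 2)) N) (L (X (L (X 86 b) N) (A (L (X (L (X 1024 (A (L (R D 96) 4294967295) (X c (L (R D 23904) 4294967295)))) N) f) N) (L (X (L (X 86 b) N) (A (L (R D 128) 4294967295) (X c (L (R D 23936) 4294967295)))) N))) N))) N)) N) (A 0 (S M (L (L (X 24 1) N) N)))) N) (A (L (X (L (X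 (A (L (X (A (L (R D 10656) 4294967295) (X c (L (R D 34464) 4294967295))) 1) N) (L (X (A (L (R D 10688) 4294967295) (X c (L (R D 34496) 4294967295))) a) N)) (L (X (L (X 86 b) N) (A (L (X (L (X 1048576 (A (L (R D 64) 4294967295) (X c (L (R D 23872) 4294967295)))) N) (P f 2)) N) (L (X (L (X 86 b) N) (A (L (X (L (X 1024 (A (L (R D 96) 4294967295) (X c (L (R D 23904) 4294967295)))) N) f) N) (L (X (L (X 86 b) N) (A (L (R D 128) 4294967295) (X c (L (R D 23936) 4294967295)))) N))) N))) N)) N) (A 0 (S M (L (L (X 12 1) N) N)))) N) (A (L (X (L (X (A (L (X (A (L (R D 10784) 4294967295) (X c (L (R D 34592) 4294967295))) 1) N) (L (X (A (L (R D 10816) 4294967295) (X c (L (R D 34624) 4294967295))) a) N)) (L (X (L (X 86 b) N) (A (L (X (L (X 1048576 (A (L (R D 64) 4294967295) (X c (L (R D 23872) 4294967295)))) N) (P f 2)) N) (L (X (L (X 86 b) N) (A (L (X (L (X 1024 (A (L (R D 96) 4294967295) (X c (L (R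 D 23904) 4294967295)))) N) f) N) (L (X (L (X 86 b) N) (A (L (R D 128) 4294967295) (X c (L (R D 23936) 4294967295)))) N))) N))) N)) N) (L (X 2 1) N)) N) (L (X (L (X (A (L (X (A (L (R D 10848) 4294967295) (X c (L (R D 34656) 4294967295))) 1) N) (L (X (A (L (R D 10880) 4294967295) (X c (L (R D 34688) 4294967295))) a) N)) (L (X (L (X 86 b) N) (A (L (X (L (X 1048576 (A (L (R D 64) 4294967295) (X c (L (R D 23872) 4294967295)))) N) (P f 2)) N) (L (X (L (X 86 b) N) (A (L (X (L (X 1024 (A (L (R D 96) 4294967295) (X c (L (R D 23904) 4294967295)))) N) f) N) (L (X (L (X 86 b) N) (A (L (R D 128) 4294967295) (X c (L (R D 23936) 4294967295)))) N))) N))) N)) N) (A 0 (S M (L (L (X 24 1) N) N)))) N))))))) N) e) N) g) N) N))), 130, 3, 4, 4, 1⟩,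
  ⟨fun A S X L P R M N m a b c d e f g h D => (A (A (L (X (L (X (L (X 0 (P e 2)) N) (P f 3)) N) (P g 3)) N) (S M (L (L (X (L (X (L (X 86 b) N) (A (L (X (L (X 1048576 (A (L (R D 64) 4294967295) (X c (L (R D 23872) 4294967295)))) N) (P f 2)) N) (L (X (L (X 86 b) N) (A (L (X (L (X 1024 (A (L (R D 96) 4294967295) (X c (L (R D 23904) 4294967295)))) N) f) N) (L (X (L (X 86 b) N) (A (L (R D 128) 4294967295) (X c (L (R D 23936) 4294967295)))) N))) N))) N) (A (L (X (L (X (L (X 16384 (L (X (L (X 1 (A (L (X 853 e) N) (L (X 171 1) N))) N) (L (X (A (A (L (R D 1248) 4294967295) (X c (L (R D 25056) 4294967295))) (S M (L (X 2147483648 (A 1 (X c 1))) N))) 1) N)) N)) N) e) N) g) N) (L (X (A (L (X 1 (A (L (R D 160) 4294967295) (X a (A (L (R D 192) 4294967295) (X a (L (R D 224) 4294967295)))))) N) (L (X c (A (L (R D 23968) 4294967295) (X a (A (L (R D 24000) 4294967295) (X a (L (R D 24032) 4294967295))))))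 N)) (L (X (A (A (L (R D 1888) 4294967295) (X c (L (R D 25696) 4294967295))) (S M (L (X 2147483648 (A 1 (X c 1))) N))) 1) N)) N))) N) N))) (S M (L (L (X (L (X (L (X 16777216 (A (L (X (L (X (A (L (X (A (L (R D 10400) 4294967295) (X c (L (R D 34208) 4294967295))) 1) N) (L (X (A (L (R D 10432) 4294967295) (X c (L (R D 34240) 4294967295))) a) N)) (L (X (L (X 86 b) N) (A (L (X (L (X 1048576 (A (L (R D 64) 4294967295) (X c (L (R D 23872) 4294967295)))) N) (P f 2)) N) (L (X (L (X 86 b) N) (A (L (X (L (X 1024 (A (L (R D 96) 4294967295) (X c (L (R D 23904) 4294967295)))) N) f) N) (L (X (L (X 86 b) N) (A (L (R D 128) 4294967295) (X c (L (R D 23936) 4294967295)))) N))) N))) N)) N) (A 0 (S M (L (L (X 12 1) N) N)))) N) (A (L (X (L (X (A (L (X (A (L (R D 10464) 4294967295) (X c (L (R D 34272) 4294967295))) 1) N) (L (X (A (L (R D 10496) 4294967295) (X c (L (R D 34304) 4294967295))) a) N)) (L (X (L (X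 86 b) N) (A (L (X (L (X 1048576 (A (L (R D 64) 4294967295) (X c (L (R D 23872) 4294967295)))) N) (P f 2)) N) (L (X (L (X 86 b) N) (A (L (X (L (X 1024 (A (L (R D 96) 4294967295) (X c (L (R D 23904) 4294967295)))) N) f) N) (L (X (L (X 86 b) N) (A (L (R D 128) 4294967295) (X c (L (R D 23936) 4294967295)))) N))) N))) N)) N) (A 0 (S M (L (L (X 12 1) N) N)))) N) (A (L (X (L (X (A (L (X (A (L (R D 10528) 4294967295) (X c (L (R D 34336) 4294967295))) 1) N) (L (X (A (L (R D 10560) 4294967295) (X c (L (R D 34368) 4294967295))) a) N)) (L (X (L (X 86 b) N) (A (L (X (L (X 1048576 (A (L (R D 64) 4294967295) (X c (L (R D 23872) 4294967295)))) N) (P f 2)) N) (L (X (L (X 86 b) N) (A (L (X (L (X 1024 (A (L (R D 96) 4294967295) (X c (L (R D 23904) 4294967295)))) N) f) N) (L (X (L (X 86 b) N) (A (L (R D 128) 4294967295) (X c (L (R D 23936) 4294967295)))) N))) N))) N)) N) (L (X 144 1) N)) N) (A (L (X (L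 (X (A (L (X (A (L (R D 10720) 4294967295) (X c (L (R D 34528) 4294967295))) 1) N) (L (X (A (L (R D 10752) 4294967295) (X c (L (R D 34560) 4294967295))) a) N)) (L (X (L (X 86 b) N) (A (L (X (L (X 1048576 (A (L (R D 64) 4294967295) (X c (L (R D 23872) 4294967295)))) N) (P f 2)) N) (L (X (L (X 86 b) N) (A (L (X (L (X 1024 (A (L (R D 96) 4294967295) (X c (L (R D 23904) 4294967295)))) N) f) N) (L (X (L (X 86 b) N) (A (L (R D 128) 4294967295) (X c (L (R D 23936) 4294967295)))) N))) N))) N)) N) (A 0 (S M (L (L (X 12 1) N) N)))) N) (A (L (X (L (X (A (L (X (A (L (R D 10784) 4294967295) (X c (L (R D 34592) 4294967295))) 1) N) (L (X (A (L (R D 10816) 4294967295) (X c (L (R D 34624) 4294967295))) a) N)) (L (X (L (X 86 b) N) (A (L (X (L (X 1048576 (A (L (R D 64) 4294967295) (X c (L (R D 23872) 4294967295)))) N) (P f 2)) N) (L (X (L (X 86 b) N) (A (L (X (L (X 1024 (A (L (R D 96) 4294967295) (X c (L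 (R D 23904) 4294967295)))) N) f) N) (L (X (L (X 86 b) N) (A (L (R D 128) 4294967295) (X c (L (R D 23936) 4294967295)))) N))) N))) N)) N) (A 0 (S M (L (L (X 12 1) N) N)))) N) (L (X (L (X (A (L (X (A (L (R D 10848) 4294967295) (X c (L (R D 34656) 4294967295))) 1) N) (L (X (A (L (R D 10880) 4294967295) (X c (L (R D 34688) 4294967295))) a) N)) (L (X (L (X 86 b) N) (A (L (X (L (X 1048576 (A (L (R D 64) 4294967295) (X c (L (R D 23872) 4294967295)))) N) (P f 2)) N) (L (X (L (X 86 b) N) (A (L (X (L (X 1024 (A (L (R D 96) 4294967295) (X c (L (R D 23904) 4294967295)))) N) f) N) (L (X (L (X 86 b) N) (A (L (R D 128) 4294967295) (X c (L (R D 23936) 4294967295)))) N))) N))) N)) N) (L (X 144 1) N)) N))))))) N) e) N) g) N) N))), 131, 3, 4, 4, 1⟩,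
  ⟨fun A S X L P R M N m a b c d e f g h D => (A (A (L (X (L (X (L (X 0 (P e 2)) N) (P f 5)) N) (P g 2)) N) (S M (L (L (X (L (X (L (X 86 b) N) (A (L (X (L (X 1048576 (A (L (R D 64) 4294967295) (X c (L (R D 23872) 4294967295)))) N) (P f 2)) N) (L (X (L (X 86 b) N) (A (L (X (L (X 1024 (A (L (R D 96) 4294967295) (X c (L (R D 23904) 4294967295)))) N) f) N) (L (X (L (X 86 b) N) (A (L (R D 128) 4294967295) (X c (L (R D 23936) 4294967295)))) N))) N))) N) (L (X (L (X 1 (A (L (X 853 e) N) (L (X 171 1) N))) N) (A (L (X (L (X (A (L (X (L (X 1024 (A (A (L (R D 1184) 4294967295) (X c (L (R D 24992) 4294967295))) (S M (L (X 2147483648 (A 1 (X c 1))) N)))) N) e) N) (L (X (L (X 171 a) N) (A (A (L (R D 1280) 4294967295) (X c (L (R D 25088) 4294967295))) (S M (L (X 2147483648 (A 1 (X c 1))) N)))) N)) (L (X 86 b) N)) N) f) N) (L (X (L (X (A (A (L (R D 1248) 4294967295) (X c (L (R D 25056) 4294967295)))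 (S M (L (X 2147483648 (A 1 (X c 1))) N))) (L (X (L (X 86 b) N) (L (X 86 b) N)) N)) N) e) N))) N)) N) N))) (S M (L (L (X (L (X 1024 (A (L (X (L (X 1024 (L (X (L (X (A (L (X (A (L (R D 10592) 4294967295) (X c (L (R D 34400) 4294967295))) 1) N) (L (X (A (L (R D 10624) 4294967295) (X c (L (R D 34432) 4294967295))) a) N)) (L (X (L (X 86 b) N) (A (L (X (L (X 1048576 (A (L (R D 64) 4294967295) (X c (L (R D 23872) 4294967295)))) N) (P f 2)) N) (L (X (L (X 86 b) N) (A (L (X (L (X 1024 (A (L (R D 96) 4294967295) (X c (L (R D 23904) 4294967295)))) N) f) N) (L (X (L (X 86 b) N) (A (L (R D 128) 4294967295) (X c (L (R D 23936) 4294967295)))) N))) N))) N)) N) (A (L (X 0 f) N) (S M (L (L (X 12 (L (X 86 b) N)) N) N)))) N)) N) f) N) (A (L (X (L (X (A (L (X (A (L (R D 10720) 4294967295) (X c (L (R D 34528) 4294967295))) 1) N) (L (X (A (L (R D 10752) 4294967295) (X c (L (R D 34560) 4294967295))) a) N))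 (L (X (L (X 86 b) N) (A (L (X (L (X 1048576 (A (L (R D 64) 4294967295) (X c (L (R D 23872) 4294967295)))) N) (P f 2)) N) (L (X (L (X 86 b) N) (A (L (X (L (X 1024 (A (L (R D 96) 4294967295) (X c (L (R D 23904) 4294967295)))) N) f) N) (L (X (L (X 86 b) N) (A (L (R D 128) 4294967295) (X c (L (R D 23936) 4294967295)))) N))) N))) N)) N) (A (L (X (L (X 1024 (L (X 86 b) N)) N) f) N) (S M (L (L (X 12 (L (X (L (X 86 b) N) (L (X 86 b) N)) N)) N) N)))) N) (A (L (X (L (X (A (L (X (A (L (R D 10784) 4294967295) (X c (L (R D 34592) 4294967295))) 1) N) (L (X (A (L (R D 10816) 4294967295) (X c (L (R D 34624) 4294967295))) a) N)) (L (X (L (X 86 b) N) (A (L (X (L (X 1048576 (A (L (R D 64) 4294967295) (X c (L (R D 23872) 4294967295)))) N) (P f 2)) N) (L (X (L (X 86 b) N) (A (L (X (L (X 1024 (A (L (R D 96) 4294967295) (X c (L (R D 23904) 4294967295)))) N) f) N) (L (X (L (X 86 b) N) (A (L (R D 128) 4294967295)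 (X c (L (R D 23936) 4294967295)))) N))) N))) N)) N) (A (L (X 0 (P f 2)) N) (S M (L (L (X 12 (L (X (L (X 86 b) N) (L (X 86 b) N)) N)) N) N)))) N) (A (L (X (L (X (A (L (X (A (L (R D 10848) 4294967295) (X c (L (R D 34656) 4294967295))) 1) N) (L (X (A (L (R D 10880) 4294967295) (X c (L (R D 34688) 4294967295))) a) N)) (L (X (L (X 86 b) N) (A (L (X (L (X 1048576 (A (L (R D 64) 4294967295) (X c (L (R D 23872) 4294967295)))) N) (P f 2)) N) (L (X (L (X 86 b) N) (A (L (X (L (X 1024 (A (L (R D 96) 4294967295) (X c (L (R D 23904) 4294967295)))) N) f) N) (L (X (L (X 86 b) N) (A (L (R D 128) 4294967295) (X c (L (R D 23936) 4294967295)))) N))) N))) N)) N) (A (L (X 144 (L (X (L (X 86 b) N) (L (X 86 b) N)) N)) N) (S M (L (L (X (L (X 1024 (L (X 12 (L (X 86 b) N)) N)) N) f) N) N)))) N) (L (X (L (X 1048576 (L (X (L (X (A (L (X (A (L (R D 10912) 4294967295) (X c (L (R D 34720) 4294967295))) 1) N) (L (X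 (A (L (R D 10944) 4294967295) (X c (L (R D 34752) 4294967295))) a) N)) (L (X (L (X 86 b) N) (A (L (X (L (X 1048576 (A (L (R D 64) 4294967295) (X c (L (R D 23872) 4294967295)))) N) (P f 2)) N) (L (X (L (X 86 b) N) (A (L (X (L (X 1024 (A (L (R D 96) 4294967295) (X c (L (R D 23904) 4294967295)))) N) f) N) (L (X (L (X 86 b) N) (A (L (R D 128) 4294967295) (X c (L (R D 23936) 4294967295)))) N))) N))) N)) N) (A 0 (S M (L (L (X 12 1) N) N)))) N)) N) (P f 2)) N)))))) N) e) N) N))), 133, 3, 6, 3, 1⟩,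
  ⟨fun A S X L P R M N m a b c d e f g h D => (A (L (X (L (X 1024 (L (X (L (X 86 b) N) (A (L (X 1024 (A (L (X (A (L (X (L (X 1024 (A (A (L (R D 4832) 4294967295) (X c (L (R D 28640) 4294967295))) (S M (L (X 2147483648 (A 1 (X c 1))) N)))) N) e) N) (L (X (A (A (L (R D 4864) 4294967295) (X c (L (R D 28672) 4294967295))) (S M (L (X 2147483648 (A 1 (X c 1))) N))) (L (X 171 a) N)) N)) f) N) (L (X (L (X (A (A (L (R D 4896) 4294967295) (X c (L (R D 28704) 4294967295))) (S M (L (X 2147483648 (A 1 (X c 1))) N))) (L (X 86 b) N)) N) e) N))) N) (L (X (A (A (L (R D 4928) 4294967295) (X c (L (R D 28736) 4294967295))) (S M (L (X 2147483648 (A 1 (X c 1))) N))) (L (X (L (X 86 b) N) (L (X 171 a) N)) N)) N))) N)) N) f) N) (S M (L (L (X (L (X (L (X 86 b) N) (A (L (X (L (X 1048576 (A (L (R D 64) 4294967295) (X c (L (R D 23872) 4294967295)))) N) (P f 2)) N) (L (X (L (X 86 b) N) (A (L (X (L (X 1024 (A (L (R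 D 96) 4294967295) (X c (L (R D 23904) 4294967295)))) N) f) N) (L (X (L (X 86 b) N) (A (L (R D 128) 4294967295) (X c (L (R D 23936) 4294967295)))) N))) N))) N) (L (X 1 (A (L (X 853 e) N) (L (X 171 1) N))) N)) N) N))), 74, 2, 4, 2, 1⟩,
  ⟨fun A S X L P R M N m a b c d e f g h D => (A (L (X (A (L (X (L (X (L (X (L (X 295147905179352825856 (L (X (L (X 86 b) N) (A (L (X 1024 (A (L (X (A (L (X (L (X 1024 (A (A (L (R D 4960) 4294967295) (X c (L (R D 28768) 4294967295))) (S M (L (X 2147483648 (A 1 (X c 1))) N)))) N) e) N) (L (X (A (A (L (R D 4992) 4294967295) (X c (L (R D 28800) 4294967295))) (S M (L (X 2147483648 (A 1 (X c 1))) N))) (L (X 171 a) N)) N)) f) N) (L (X (L (X (A (A (L (R D 5024) 4294967295) (X c (L (R D 28832) 4294967295))) (S M (L (X 2147483648 (A 1 (X c 1))) N))) (L (X 86 b) N)) N) e) N))) N) (L (X (A (A (L (R D 5056) 4294967295) (X c (L (R D 28864) 4294967295))) (S M (L (X 2147483648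 (A 1 (X c 1))) N))) (L (X (L (X 86 b) N) (L (X 171 a) N)) N)) N))) N)) N) (P e 3)) N) (P f 2)) N) (P g 2)) N) (S M (L (L (X (L (X (L (X 86 b) N) (A (L (X (L (X 1048576 (A (L (R D 64) 4294967295) (X c (L (R D 23872) 4294967295)))) N) (P f 2)) N) (L (X (L (X 86 b) N) (A (L (X (L (X 1024 (A (L (R D 96) 4294967295) (X c (L (R D 23904) 4294967295)))) N) f) N) (L (X (L (X 86 b) N) (A (L (R D 128) 4294967295) (X c (L (R D 23936) 4294967295)))) N))) N))) N) (L (X (A (L (X 1 (A (L (R D 160) 4294967295) (X a (A (L (R D 192) 4294967295) (X a (L (R D 224) 4294967295)))))) N) (L (X c (A (L (R D 23968) 4294967295) (X a (A (L (R D 24000) 4294967295) (X a (L (R D 24032) 4294967295)))))) N)) (A (L (X (L (X 1024 (L (X (A (A (L (R D 1760) 4294967295) (X c (L (R D 25568) 4294967295))) (S M (L (X 2147483648 (A 1 (X c 1))) N))) (A (L (X (L (X 767 e) N) f) N) (A (L (X (L (X 171 1) N) f) N) (L (X (L (X 86 1)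 N) e) N)))) N)) N) e) N) (L (X (A (A (L (R D 1792) 4294967295) (X c (L (R D 25600) 4294967295))) (S M (L (X 2147483648 (A 1 (X c 1))) N))) (L (X (L (X 171 a) N) (A (L (X (L (X 767 e) N) f) N) (A (L (X (L (X 171 1) N) f) N) (L (X (L (X 86 1) N) e) N)))) N)) N))) N)) N) N))) f) N) (S M (L (L (X (L (X (L (X 16777216 (A (L (X (L (X 1024 (L (X (L (X (A (L (X (A (L (R D 10976) 4294967295) (X c (L (R D 34784) 4294967295))) 1) N) (L (X (A (L (R D 11008) 4294967295) (X c (L (R D 34816) 4294967295))) a) N)) (L (X (L (X 86 b) N) (A (L (X (L (X 1048576 (A (L (R D 64) 4294967295) (X c (L (R D 23872) 4294967295)))) N) (P f 2)) N) (L (X (L (X 86 b) N) (A (L (X (L (X 1024 (A (L (R D 96) 4294967295) (X c (L (R D 23904) 4294967295)))) N) f) N) (L (X (L (X 86 b) N) (A (L (R D 128) 4294967295) (X c (L (R D 23936) 4294967295)))) N))) N))) N)) N) (L (X 2 (A (L (X (L (X 767 e) N) f) N) (A (L (X (L (X 171 1)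 N) f) N) (L (X (L (X 86 1) N) e) N)))) N)) N)) N) f) N) (A (L (X (L (X 1024 (L (X (L (X (A (L (X (A (L (R D 11040) 4294967295) (X c (L (R D 34848) 4294967295))) 1) N) (L (X (A (L (R D 11072) 4294967295) (X c (L (R D 34880) 4294967295))) a) N)) (L (X (L (X 86 b) N) (A (L (X (L (X 1048576 (A (L (R D 64) 4294967295) (X c (L (R D 23872) 4294967295)))) N) (P f 2)) N) (L (X (L (X 86 b) N) (A (L (X (L (X 1024 (A (L (R D 96) 4294967295) (X c (L (R D 23904) 4294967295)))) N) f) N) (L (X (L (X 86 b) N) (A (L (R D 128) 4294967295) (X c (L (R D 23936) 4294967295)))) N))) N))) N)) N) (A (L (X (L (X 767 e) N) f) N) (A (L (X (L (X 171 1) N) f) N) (L (X (L (X 86 1) N) e) N)))) N)) N) f) N) (A (L (X (L (X 1024 (L (X (L (X (A (L (X (A (L (R D 11232) 4294967295) (X c (L (R D 35040) 4294967295))) 1) N) (L (X (A (L (R D 11264) 4294967295) (X c (L (R D 35072) 4294967295))) a) N)) (L (X (L (X 86 b) N) (A (L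 (X (L (X 1048576 (A (L (R D 64) 4294967295) (X c (L (R D 23872) 4294967295)))) N) (P f 2)) N) (L (X (L (X 86 b) N) (A (L (X (L (X 1024 (A (L (R D 96) 4294967295) (X c (L (R D 23904) 4294967295)))) N) f) N) (L (X (L (X 86 b) N) (A (L (R D 128) 4294967295) (X c (L (R D 23936) 4294967295)))) N))) N))) N)) N) (L (X 2 (A (L (X (L (X 767 e) N) f) N) (A (L (X (L (X 171 1) N) f) N) (L (X (L (X 86 1) N) e) N)))) N)) N)) N) f) N) (A (L (X (L (X 1024 (L (X (L (X (A (L (X (A (L (R D 11296) 4294967295) (X c (L (R D 35104) 4294967295))) 1) N) (L (X (A (L (R D 11328) 4294967295) (X c (L (R D 35136) 4294967295))) a) N)) (L (X (L (X 86 b) N) (A (L (X (L (X 1048576 (A (L (R D 64) 4294967295) (X c (L (R D 23872) 4294967295)))) N) (P f 2)) N) (L (X (L (X 86 b) N) (A (L (X (L (X 1024 (A (L (R D 96) 4294967295) (X c (L (R D 23904) 4294967295)))) N) f) N) (L (X (L (X 86 b) N) (A (L (R D 128) 4294967295) (X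 c (L (R D 23936) 4294967295)))) N))) N))) N)) N) (L (X 2 (A (L (X 853 e) N) (L (X 171 1) N))) N)) N)) N) (P f 2)) N) (A (L (X (L (X (A (L (X (A (L (R D 11360) 4294967295) (X c (L (R D 35168) 4294967295))) 1) N) (L (X (A (L (R D 11392) 4294967295) (X c (L (R D 35200) 4294967295))) a) N)) (L (X (L (X 86 b) N) (A (L (X (L (X 1048576 (A (L (R D 64) 4294967295) (X c (L (R D 23872) 4294967295)))) N) (P f 2)) N) (L (X (L (X 86 b) N) (A (L (X (L (X 1024 (A (L (R D 96) 4294967295) (X c (L (R D 23904) 4294967295)))) N) f) N) (L (X (L (X 86 b) N) (A (L (R D 128) 4294967295) (X c (L (R D 23936) 4294967295)))) N))) N))) N)) N) (A (L (X (L (X 1024 (A (L (X 853 e) N) (L (X 171 1) N))) N) (P f 2)) N) (S M (L (L (X (L (X 12 (L (X (L (X 86 b) N) (L (X 86 b) N)) N)) N) e) N) N)))) N) (A (L (X (L (X (L (X (A (L (X (A (L (R D 11488) 4294967295) (X c (L (R D 35296) 4294967295))) 1) N) (L (X (A (L (R D 11520)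 4294967295) (X c (L (R D 35328) 4294967295))) a) N)) (L (X (L (X 86 b) N) (A (L (X (L (X 1048576 (A (L (R D 64) 4294967295) (X c (L (R D 23872) 4294967295)))) N) (P f 2)) N) (L (X (L (X 86 b) N) (A (L (X (L (X 1024 (A (L (R D 96) 4294967295) (X c (L (R D 23904) 4294967295)))) N) f) N) (L (X (L (X 86 b) N) (A (L (R D 128) 4294967295) (X c (L (R D 23936) 4294967295)))) N))) N))) N)) N) (L (X 2 (L (X (L (X 86 b) N) (L (X 86 b) N)) N)) N)) N) e) N) (A (L (X (L (X (A (L (X (A (L (R D 11552) 4294967295) (X c (L (R D 35360) 4294967295))) 1) N) (L (X (A (L (R D 11584) 4294967295) (X c (L (R D 35392) 4294967295))) a) N)) (L (X (L (X 86 b) N) (A (L (X (L (X 1048576 (A (L (R D 64) 4294967295) (X c (L (R D 23872) 4294967295)))) N) (P f 2)) N) (L (X (L (X 86 b) N) (A (L (X (L (X 1024 (A (L (R D 96) 4294967295) (X c (L (R D 23904) 4294967295)))) N) f) N) (L (X (L (X 86 b) N) (A (L (R D 128) 4294967295)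 (X c (L (R D 23936) 4294967295)))) N))) N))) N)) N) (A (L (X (L (X 1024 (L (X 2 (A (L (X 853 e) N) (L (X 171 1) N))) N)) N) (P f 2)) N) (S M (L (L (X (L (X 24 (L (X (L (X 86 b) N) (L (X 86 b) N)) N)) N) e) N) N)))) N) (L (X (L (X (L (X 1048576 (L (X (L (X (A (L (X (A (L (R D 11616) 4294967295) (X c (L (R D 35424) 4294967295))) 1) N) (L (X (A (L (R D 11648) 4294967295) (X c (L (R D 35456) 4294967295))) a) N)) (L (X (L (X 86 b) N) (A (L (X (L (X 1048576 (A (L (R D 64) 4294967295) (X c (L (R D 23872) 4294967295)))) N) (P f 2)) N) (L (X (L (X 86 b) N) (A (L (X (L (X 1024 (A (L (R D 96) 4294967295) (X c (L (R D 23904) 4294967295)))) N) f) N) (L (X (L (X 86 b) N) (A (L (R D 128) 4294967295) (X c (L (R D 23936) 4294967295)))) N))) N))) N)) N) 2) N)) N) e) N) (P f 2)) N))))))))) N) (P e 2)) N) g) N) N))), 154, 5, 6, 4, 1⟩,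
  ⟨fun A S X L P R M N m a b c d e f g h D => (A (A (L (X (L (X (L (X 0 (P e 3)) N) (P f 3)) N) (P g 3)) N) (S M (L (L (X (L (X (L (X 86 b) N) (A (L (X (L (X 1048576 (A (L (R D 64) 4294967295) (X c (L (R D 23872) 4294967295)))) N) (P f 2)) N) (L (X (L (X 86 b) N) (A (L (X (L (X 1024 (A (L (R D 96) 4294967295) (X c (L (R D 23904) 4294967295)))) N) f) N) (L (X (L (X 86 b) N) (A (L (R D 128) 4294967295) (X c (L (R D 23936) 4294967295)))) N))) N))) N) (L (X (A (L (X 1 (A (L (R D 160) 4294967295) (X a (A (L (R D 192) 4294967295) (X a (L (R D 224) 4294967295)))))) N) (L (X c (A (L (R D 23968) 4294967295) (X a (A (L (R D 24000) 4294967295) (X a (L (R D 24032) 4294967295)))))) N)) (L (X (A (L (X (L (X 1024 (A (A (L (R D 1824) 4294967295) (X c (L (R D 25632) 4294967295))) (S M (L (X 2147483648 (A 1 (X c 1))) N)))) N) e) N) (L (X (L (X 171 a) N) (A (A (L (R D 1920) 4294967295) (X c (L (R D 25728)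 4294967295))) (S M (L (X 2147483648 (A 1 (X c 1))) N)))) N)) 1) N)) N)) N) N))) (S M (L (L (X (L (X (L (X 17179869184 (A (L (X (L (X (A (L (X (A (L (R D 10976) 4294967295) (X c (L (R D 34784) 4294967295))) 1) N) (L (X (A (L (R D 11008) 4294967295) (X c (L (R D 34816) 4294967295))) a) N)) (L (X (L (X 86 b) N) (A (L (X (L (X 1048576 (A (L (R D 64) 4294967295) (X c (L (R D 23872) 4294967295)))) N) (P f 2)) N) (L (X (L (X 86 b) N) (A (L (X (L (X 1024 (A (L (R D 96) 4294967295) (X c (L (R D 23904) 4294967295)))) N) f) N) (L (X (L (X 86 b) N) (A (L (R D 128) 4294967295) (X c (L (R D 23936) 4294967295)))) N))) N))) N)) N) (A 0 (S M (L (L (X 12 1) N) N)))) N) (A (L (X (L (X (A (L (X (A (L (R D 11104) 4294967295) (X c (L (R D 34912) 4294967295))) 1) N) (L (X (A (L (R D 11136) 4294967295) (X c (L (R D 34944) 4294967295))) a) N)) (L (X (L (X 86 b) N) (A (L (X (L (X 1048576 (A (L (R D 64) 4294967295)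 (X c (L (R D 23872) 4294967295)))) N) (P f 2)) N) (L (X (L (X 86 b) N) (A (L (X (L (X 1024 (A (L (R D 96) 4294967295) (X c (L (R D 23904) 4294967295)))) N) f) N) (L (X (L (X 86 b) N) (A (L (R D 128) 4294967295) (X c (L (R D 23936) 4294967295)))) N))) N))) N)) N) 1) N) (A (L (X (L (X (A (L (X (A (L (R D 11232) 4294967295) (X c (L (R D 35040) 4294967295))) 1) N) (L (X (A (L (R D 11264) 4294967295) (X c (L (R D 35072) 4294967295))) a) N)) (L (X (L (X 86 b) N) (A (L (X (L (X 1048576 (A (L (R D 64) 4294967295) (X c (L (R D 23872) 4294967295)))) N) (P f 2)) N) (L (X (L (X 86 b) N) (A (L (X (L (X 1024 (A (L (R D 96) 4294967295) (X c (L (R D 23904) 4294967295)))) N) f) N) (L (X (L (X 86 b) N) (A (L (R D 128) 4294967295) (X c (L (R D 23936) 4294967295)))) N))) N))) N)) N) (A 0 (S M (L (L (X 12 1) N) N)))) N) (A (L (X (L (X (A (L (X (A (L (R D 11296) 4294967295) (X c (L (R D 35104) 4294967295)))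 1) N) (L (X (A (L (R D 11328) 4294967295) (X c (L (R D 35136) 4294967295))) a) N)) (L (X (L (X 86 b) N) (A (L (X (L (X 1048576 (A (L (R D 64) 4294967295) (X c (L (R D 23872) 4294967295)))) N) (P f 2)) N) (L (X (L (X 86 b) N) (A (L (X (L (X 1024 (A (L (R D 96) 4294967295) (X c (L (R D 23904) 4294967295)))) N) f) N) (L (X (L (X 86 b) N) (A (L (R D 128) 4294967295) (X c (L (R D 23936) 4294967295)))) N))) N))) N)) N) (A 0 (S M (L (L (X 12 1) N) N)))) N) (A (L (X (L (X (A (L (X (A (L (R D 11424) 4294967295) (X c (L (R D 35232) 4294967295))) 1) N) (L (X (A (L (R D 11456) 4294967295) (X c (L (R D 35264) 4294967295))) a) N)) (L (X (L (X 86 b) N) (A (L (X (L (X 1048576 (A (L (R D 64) 4294967295) (X c (L (R D 23872) 4294967295)))) N) (P f 2)) N) (L (X (L (X 86 b) N) (A (L (X (L (X 1024 (A (L (R D 96) 4294967295) (X c (L (R D 23904) 4294967295)))) N) f) N) (L (X (L (X 86 b) N) (A (L (R D 128) 4294967295)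 (X c (L (R D 23936) 4294967295)))) N))) N))) N)) N) 1) N) (L (X (L (X (A (L (X (A (L (R D 11552) 4294967295) (X c (L (R D 35360) 4294967295))) 1) N) (L (X (A (L (R D 11584) 4294967295) (X c (L (R D 35392) 4294967295))) a) N)) (L (X (L (X 86 b) N) (A (L (X (L (X 1048576 (A (L (R D 64) 4294967295) (X c (L (R D 23872) 4294967295)))) N) (P f 2)) N) (L (X (L (X 86 b) N) (A (L (X (L (X 1024 (A (L (R D 96) 4294967295) (X c (L (R D 23904) 4294967295)))) N) f) N) (L (X (L (X 86 b) N) (A (L (R D 128) 4294967295) (X c (L (R D 23936) 4294967295)))) N))) N))) N)) N) (A 0 (S M (L (L (X 12 1) N) N)))) N))))))) N) (P e 2)) N) g) N) N))), 141, 4, 4, 4, 1⟩,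
  ⟨fun A S X L P R M N m a b c d e f g h D => (A (A (L (X (L (X (L (X 0 (P e 2)) N) (P f 3)) N) (P g 3)) N) (S M (L (L (X (L (X (L (X 86 b) N) (A (L (X (L (X 1048576 (A (L (R D 64) 4294967295) (X c (L (R D 23872) 4294967295)))) N) (P f 2)) N) (L (X (L (X 86 b) N) (A (L (X (L (X 1024 (A (L (R D 96) 4294967295) (X c (L (R D 23904) 4294967295)))) N) f) N) (L (X (L (X 86 b) N) (A (L (R D 128) 4294967295) (X c (L (R D 23936) 4294967295)))) N))) N))) N) (L (X (A (L (X 1 (A (L (R D 160) 4294967295) (X a (A (L (R D 192) 4294967295) (X a (L (R D 224) 4294967295)))))) N) (L (X c (A (L (R D 23968) 4294967295) (X a (A (L (R D 24000) 4294967295) (X a (L (R D 24032) 4294967295)))))) N)) (L (X (A (A (L (R D 1856) 4294967295) (X c (L (R D 25664) 4294967295))) (S M (L (X 2147483648 (A 1 (X c 1))) N))) 1) N)) N)) N) N))) (S M (L (L (X (L (X (L (X 16777216 (A (L (X (L (X (A (L (X (A (L (R D 11040) 4294967295)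 (X c (L (R D 34848) 4294967295))) 1) N) (L (X (A (L (R D 11072) 4294967295) (X c (L (R D 34880) 4294967295))) a) N)) (L (X (L (X 86 b) N) (A (L (X (L (X 1048576 (A (L (R D 64) 4294967295) (X c (L (R D 23872) 4294967295)))) N) (P f 2)) N) (L (X (L (X 86 b) N) (A (L (X (L (X 1024 (A (L (R D 96) 4294967295) (X c (L (R D 23904) 4294967295)))) N) f) N) (L (X (L (X 86 b) N) (A (L (R D 128) 4294967295) (X c (L (R D 23936) 4294967295)))) N))) N))) N)) N) (A 0 (S M (L (L (X 12 1) N) N)))) N) (A (L (X (L (X (A (L (X (A (L (R D 11168) 4294967295) (X c (L (R D 34976) 4294967295))) 1) N) (L (X (A (L (R D 11200) 4294967295) (X c (L (R D 35008) 4294967295))) a) N)) (L (X (L (X 86 b) N) (A (L (X (L (X 1048576 (A (L (R D 64) 4294967295) (X c (L (R D 23872) 4294967295)))) N) (P f 2)) N) (L (X (L (X 86 b) N) (A (L (X (L (X 1024 (A (L (R D 96) 4294967295) (X c (L (R D 23904) 4294967295)))) N) f) N) (L (X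 (L (X 86 b) N) (A (L (R D 128) 4294967295) (X c (L (R D 23936) 4294967295)))) N))) N))) N)) N) (L (X 2 1) N)) N) (A (L (X (L (X (A (L (X (A (L (R D 11232) 4294967295) (X c (L (R D 35040) 4294967295))) 1) N) (L (X (A (L (R D 11264) 4294967295) (X c (L (R D 35072) 4294967295))) a) N)) (L (X (L (X 86 b) N) (A (L (X (L (X 1048576 (A (L (R D 64) 4294967295) (X c (L (R D 23872) 4294967295)))) N) (P f 2)) N) (L (X (L (X 86 b) N) (A (L (X (L (X 1024 (A (L (R D 96) 4294967295) (X c (L (R D 23904) 4294967295)))) N) f) N) (L (X (L (X 86 b) N) (A (L (R D 128) 4294967295) (X c (L (R D 23936) 4294967295)))) N))) N))) N)) N) (A 0 (S M (L (L (X 24 1) N) N)))) N) (A (L (X (L (X (A (L (X (A (L (R D 11360) 4294967295) (X c (L (R D 35168) 4294967295))) 1) N) (L (X (A (L (R D 11392) 4294967295) (X c (L (R D 35200) 4294967295))) a) N)) (L (X (L (X 86 b) N) (A (L (X (L (X 1048576 (A (L (R D 64) 4294967295)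 (X c (L (R D 23872) 4294967295)))) N) (P f 2)) N) (L (X (L (X 86 b) N) (A (L (X (L (X 1024 (A (L (R D 96) 4294967295) (X c (L (R D 23904) 4294967295)))) N) f) N) (L (X (L (X 86 b) N) (A (L (R D 128) 4294967295) (X c (L (R D 23936) 4294967295)))) N))) N))) N)) N) (A 0 (S M (L (L (X 12 1) N) N)))) N) (A (L (X (L (X (A (L (X (A (L (R D 11488) 4294967295) (X c (L (R D 35296) 4294967295))) 1) N) (L (X (A (L (R D 11520) 4294967295) (X c (L (R D 35328) 4294967295))) a) N)) (L (X (L (X 86 b) N) (A (L (X (L (X 1048576 (A (L (R D 64) 4294967295) (X c (L (R D 23872) 4294967295)))) N) (P f 2)) N) (L (X (L (X 86 b) N) (A (L (X (L (X 1024 (A (L (R D 96) 4294967295) (X c (L (R D 23904) 4294967295)))) N) f) N) (L (X (L (X 86 b) N) (A (L (R D 128) 4294967295) (X c (L (R D 23936) 4294967295)))) N))) N))) N)) N) (L (X 2 1) N)) N) (L (X (L (X (A (L (X (A (L (R D 11552) 4294967295) (X c (L (R D 35360) 4294967295)))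 1) N) (L (X (A (L (R D 11584) 4294967295) (X c (L (R D 35392) 4294967295))) a) N)) (L (X (L (X 86 b) N) (A (L (X (L (X 1048576 (A (L (R D 64) 4294967295) (X c (L (R D 23872) 4294967295)))) N) (P f 2)) N) (L (X (L (X 86 b) N) (A (L (X (L (X 1024 (A (L (R D 96) 4294967295) (X c (L (R D 23904) 4294967295)))) N) f) N) (L (X (L (X 86 b) N) (A (L (R D 128) 4294967295) (X c (L (R D 23936) 4294967295)))) N))) N))) N)) N) (A 0 (S M (L (L (X 24 1) N) N)))) N))))))) N) e) N) g) N) N))), 130, 3, 4, 4, 1⟩,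
  ⟨fun A S X L P R M N m a b c d e f g h D => (A (A (L (X (L (X (L (X 0 (P e 2)) N) (P f 3)) N) (P g 3)) N) (S M (L (L (X (L (X (L (X 86 b) N) (A (L (X (L (X 1048576 (A (L (R D 64) 4294967295) (X c (L (R D 23872) 4294967295)))) N) (P f 2)) N) (L (X (L (X 86 b) N) (A (L (X (L (X 1024 (A (L (R D 96) 4294967295) (X c (L (R D 23904) 4294967295)))) N) f) N) (L (X (L (X 86 b) N) (A (L (R D 128) 4294967295) (X c (L (R D 23936) 4294967295)))) N))) N))) N) (L (X (A (L (X 1 (A (L (R D 160) 4294967295) (X a (A (L (R D 192) 4294967295) (X a (L (R D 224) 4294967295)))))) N) (L (X c (A (L (R D 23968) 4294967295) (X a (A (L (R D 24000) 4294967295) (X a (L (R D 24032) 4294967295)))))) N)) (L (X (A (A (L (R D 1888) 4294967295) (X c (L (R D 25696) 4294967295))) (S M (L (X 2147483648 (A 1 (X c 1))) N))) 1) N)) N)) N) N))) (S M (L (L (X (L (X (L (X 16777216 (A (L (X (L (X (A (L (X (A (L (R D 11104) 4294967295)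 (X c (L (R D 34912) 4294967295))) 1) N) (L (X (A (L (R D 11136) 4294967295) (X c (L (R D 34944) 4294967295))) a) N)) (L (X (L (X 86 b) N) (A (L (X (L (X 1048576 (A (L (R D 64) 4294967295) (X c (L (R D 23872) 4294967295)))) N) (P f 2)) N) (L (X (L (X 86 b) N) (A (L (X (L (X 1024 (A (L (R D 96) 4294967295) (X c (L (R D 23904) 4294967295)))) N) f) N) (L (X (L (X 86 b) N) (A (L (R D 128) 4294967295) (X c (L (R D 23936) 4294967295)))) N))) N))) N)) N) (A 0 (S M (L (L (X 12 1) N) N)))) N) (A (L (X (L (X (A (L (X (A (L (R D 11168) 4294967295) (X c (L (R D 34976) 4294967295))) 1) N) (L (X (A (L (R D 11200) 4294967295) (X c (L (R D 35008) 4294967295))) a) N)) (L (X (L (X 86 b) N) (A (L (X (L (X 1048576 (A (L (R D 64) 4294967295) (X c (L (R D 23872) 4294967295)))) N) (P f 2)) N) (L (X (L (X 86 b) N) (A (L (X (L (X 1024 (A (L (R D 96) 4294967295) (X c (L (R D 23904) 4294967295)))) N) f) N) (L (X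 (L (X 86 b) N) (A (L (R D 128) 4294967295) (X c (L (R D 23936) 4294967295)))) N))) N))) N)) N) (A 0 (S M (L (L (X 12 1) N) N)))) N) (A (L (X (L (X (A (L (X (A (L (R D 11232) 4294967295) (X c (L (R D 35040) 4294967295))) 1) N) (L (X (A (L (R D 11264) 4294967295) (X c (L (R D 35072) 4294967295))) a) N)) (L (X (L (X 86 b) N) (A (L (X (L (X 1048576 (A (L (R D 64) 4294967295) (X c (L (R D 23872) 4294967295)))) N) (P f 2)) N) (L (X (L (X 86 b) N) (A (L (X (L (X 1024 (A (L (R D 96) 4294967295) (X c (L (R D 23904) 4294967295)))) N) f) N) (L (X (L (X 86 b) N) (A (L (R D 128) 4294967295) (X c (L (R D 23936) 4294967295)))) N))) N))) N)) N) (L (X 144 1) N)) N) (A (L (X (L (X (A (L (X (A (L (R D 11424) 4294967295) (X c (L (R D 35232) 4294967295))) 1) N) (L (X (A (L (R D 11456) 4294967295) (X c (L (R D 35264) 4294967295))) a) N)) (L (X (L (X 86 b) N) (A (L (X (L (X 1048576 (A (L (R D 64) 4294967295)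 (X c (L (R D 23872) 4294967295)))) N) (P f 2)) N) (L (X (L (X 86 b) N) (A (L (X (L (X 1024 (A (L (R D 96) 4294967295) (X c (L (R D 23904) 4294967295)))) N) f) N) (L (X (L (X 86 b) N) (A (L (R D 128) 4294967295) (X c (L (R D 23936) 4294967295)))) N))) N))) N)) N) (A 0 (S M (L (L (X 12 1) N) N)))) N) (A (L (X (L (X (A (L (X (A (L (R D 11488) 4294967295) (X c (L (R D 35296) 4294967295))) 1) N) (L (X (A (L (R D 11520) 4294967295) (X c (L (R D 35328) 4294967295))) a) N)) (L (X (L (X 86 b) N) (A (L (X (L (X 1048576 (A (L (R D 64) 4294967295) (X c (L (R D 23872) 4294967295)))) N) (P f 2)) N) (L (X (L (X 86 b) N) (A (L (X (L (X 1024 (A (L (R D 96) 4294967295) (X c (L (R D 23904) 4294967295)))) N) f) N) (L (X (L (X 86 b) N) (A (L (R D 128) 4294967295) (X c (L (R D 23936) 4294967295)))) N))) N))) N)) N) (A 0 (S M (L (L (X 12 1) N) N)))) N) (L (X (L (X (A (L (X (A (L (R D 11552) 4294967295) (X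 c (L (R D 35360) 4294967295))) 1) N) (L (X (A (L (R D 11584) 4294967295) (X c (L (R D 35392) 4294967295))) a) N)) (L (X (L (X 86 b) N) (A (L (X (L (X 1048576 (A (L (R D 64) 4294967295) (X c (L (R D 23872) 4294967295)))) N) (P f 2)) N) (L (X (L (X 86 b) N) (A (L (X (L (X 1024 (A (L (R D 96) 4294967295) (X c (L (R D 23904) 4294967295)))) N) f) N) (L (X (L (X 86 b) N) (A (L (R D 128) 4294967295) (X c (L (R D 23936) 4294967295)))) N))) N))) N)) N) (L (X 144 1) N)) N))))))) N) e) N) g) N) N))), 131, 3, 4, 4, 1⟩,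
  ⟨fun A S X L P R M N m a b c d e f g h D => (A (L (X (L (X (L (X 0 e) N) (P f 5)) N) (P g 2)) N) (S M (L (A (L (X (L (X 1024 (L (X (L (X (A (L (X (A (L (R D 11296) 4294967295) (X c (L (R D 35104) 4294967295))) 1) N) (L (X (A (L (R D 11328) 4294967295) (X c (L (R D 35136) 4294967295))) a) N)) (L (X (L (X 86 b) N) (A (L (X (L (X 1048576 (A (L (R D 64) 4294967295) (X c (L (R D 23872) 4294967295)))) N) (P f 2)) N) (L (X (L (X 86 b) N) (A (L (X (L (X 1024 (A (L (R D 96) 4294967295) (X c (L (R D 23904) 4294967295)))) N) f) N) (L (X (L (X 86 b) N) (A (L (R D 128) 4294967295) (X c (L (R D 23936) 4294967295)))) N))) N))) N)) N) (A (L (X 0 f) N) (S M (L (L (X 12 (L (X 86 b) N)) N) N)))) N)) N) f) N) (A (L (X (L (X (A (L (X (A (L (R D 11424) 4294967295) (X c (L (R D 35232) 4294967295))) 1) N) (L (X (A (L (R D 11456) 4294967295) (X c (L (R D 35264) 4294967295))) a) N)) (L (X (L (X 86 b) N) (A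 (L (X (L (X 1048576 (A (L (R D 64) 4294967295) (X c (L (R D 23872) 4294967295)))) N) (P f 2)) N) (L (X (L (X 86 b) N) (A (L (X (L (X 1024 (A (L (R D 96) 4294967295) (X c (L (R D 23904) 4294967295)))) N) f) N) (L (X (L (X 86 b) N) (A (L (R D 128) 4294967295) (X c (L (R D 23936) 4294967295)))) N))) N))) N)) N) (A (L (X (L (X 1024 (L (X 86 b) N)) N) f) N) (S M (L (L (X 12 (L (X (L (X 86 b) N) (L (X 86 b) N)) N)) N) N)))) N) (A (L (X (L (X (A (L (X (A (L (R D 11488) 4294967295) (X c (L (R D 35296) 4294967295))) 1) N) (L (X (A (L (R D 11520) 4294967295) (X c (L (R D 35328) 4294967295))) a) N)) (L (X (L (X 86 b) N) (A (L (X (L (X 1048576 (A (L (R D 64) 4294967295) (X c (L (R D 23872) 4294967295)))) N) (P f 2)) N) (L (X (L (X 86 b) N) (A (L (X (L (X 1024 (A (L (R D 96) 4294967295) (X c (L (R D 23904) 4294967295)))) N) f) N) (L (X (L (X 86 b) N) (A (L (R D 128) 4294967295) (X c (L (R D 23936)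 4294967295)))) N))) N))) N)) N) (A (L (X 0 (P f 2)) N) (S M (L (L (X 12 (L (X (L (X 86 b) N) (L (X 86 b) N)) N)) N) N)))) N) (A (L (X (L (X (A (L (X (A (L (R D 11552) 4294967295) (X c (L (R D 35360) 4294967295))) 1) N) (L (X (A (L (R D 11584) 4294967295) (X c (L (R D 35392) 4294967295))) a) N)) (L (X (L (X 86 b) N) (A (L (X (L (X 1048576 (A (L (R D 64) 4294967295) (X c (L (R D 23872) 4294967295)))) N) (P f 2)) N) (L (X (L (X 86 b) N) (A (L (X (L (X 1024 (A (L (R D 96) 4294967295) (X c (L (R D 23904) 4294967295)))) N) f) N) (L (X (L (X 86 b) N) (A (L (R D 128) 4294967295) (X c (L (R D 23936) 4294967295)))) N))) N))) N)) N) (A (L (X 144 (L (X (L (X 86 b) N) (L (X 86 b) N)) N)) N) (S M (L (L (X (L (X 1024 (L (X 12 (L (X 86 b) N)) N)) N) f) N) N)))) N) (L (X (L (X 1048576 (L (X (L (X (A (L (X (A (L (R D 11616) 4294967295) (X c (L (R D 35424) 4294967295))) 1) N) (L (X (A (L (R D 11648) 4294967295)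 (X c (L (R D 35456) 4294967295))) a) N)) (L (X (L (X 86 b) N) (A (L (X (L (X 1048576 (A (L (R D 64) 4294967295) (X c (L (R D 23872) 4294967295)))) N) (P f 2)) N) (L (X (L (X 86 b) N) (A (L (X (L (X 1024 (A (L (R D 96) 4294967295) (X c (L (R D 23904) 4294967295)))) N) f) N) (L (X (L (X 86 b) N) (A (L (R D 128) 4294967295) (X c (L (R D 23936) 4294967295)))) N))) N))) N)) N) (A 0 (S M (L (L (X 12 1) N) N)))) N)) N) (P f 2)) N))))) N))), 122, 2, 6, 3, 1⟩,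
  ⟨fun A S X L P R M N m a b c d e f g h D => (A (A (L (X (L (X (L (X (L (X 590295810358705651712 (L (X (L (X 86 b) N) (A (L (X 1024 (A (L (X (A (L (X (L (X 1024 (A (A (L (R D 5088) 4294967295) (X c (L (R D 28896) 4294967295))) (S M (L (X 2147483648 (A 1 (X c 1))) N)))) N) e) N) (L (X (A (A (L (R D 5120) 4294967295) (X c (L (R D 28928) 4294967295))) (S M (L (X 2147483648 (A 1 (X c 1))) N))) (L (X 171 a) N)) N)) f) N) (L (X (L (X (A (A (L (R D 5152) 4294967295) (X c (L (R D 28960) 4294967295))) (S M (L (X 2147483648 (A 1 (X c 1))) N))) (L (X 86 b) N)) N) e) N))) N) (L (X (A (A (L (R D 5184) 4294967295) (X c (L (R D 28992) 4294967295))) (S M (L (X 2147483648 (A 1 (X c 1))) N))) (L (X (L (X 86 b) N) (L (X 171 a) N)) N)) N))) N)) N) (P e 3)) N) (P f 3)) N) (P g 2)) N) (S M (L (L (X (L (X (L (X 86 b) N) (A (L (X (L (X 1048576 (A (L (R D 64) 4294967295) (X c (L (R D 23872) 4294967295)))) N)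 (P f 2)) N) (L (X (L (X 86 b) N) (A (L (X (L (X 1024 (A (L (R D 96) 4294967295) (X c (L (R D 23904) 4294967295)))) N) f) N) (L (X (L (X 86 b) N) (A (L (R D 128) 4294967295) (X c (L (R D 23936) 4294967295)))) N))) N))) N) (L (X (A (L (X 1 (A (L (R D 160) 4294967295) (X a (A (L (R D 192) 4294967295) (X a (L (R D 224) 4294967295)))))) N) (L (X c (A (L (R D 23968) 4294967295) (X a (A (L (R D 24000) 4294967295) (X a (L (R D 24032) 4294967295)))))) N)) (L (X 1 (A (L (X (A (L (X (L (X 1024 (L (X (A (A (L (R D 1760) 4294967295) (X c (L (R D 25568) 4294967295))) (S M (L (X 2147483648 (A 1 (X c 1))) N))) (A (L (X (L (X 767 e) N) f) N) (A (L (X (L (X 171 1) N) f) N) (L (X (L (X 86 1) N) e) N)))) N)) N) e) N) (L (X (A (A (L (R D 1792) 4294967295) (X c (L (R D 25600) 4294967295))) (S M (L (X 2147483648 (A 1 (X c 1))) N))) (L (X (L (X 171 a) N) (A (L (X (L (X 767 e) N) f) N) (A (L (X (L (X 171 1)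 N) f) N) (L (X (L (X 86 1) N) e) N)))) N)) N)) f) N) (A (L (X (A (L (X (L (X 1024 (L (X (A (A (L (R D 1760) 4294967295) (X c (L (R D 25568) 4294967295))) (S M (L (X 2147483648 (A 1 (X c 1))) N))) (A (L (X 853 e) N) (L (X 171 1) N))) N)) N) e) N) (L (X (A (A (L (R D 1792) 4294967295) (X c (L (R D 25600) 4294967295))) (S M (L (X 2147483648 (A 1 (X c 1))) N))) (L (X (L (X 171 a) N) (A (L (X 853 e) N) (L (X 171 1) N))) N)) N)) (P f 2)) N) (L (X (L (X (A (A (L (R D 1856) 4294967295) (X c (L (R D 25664) 4294967295))) (S M (L (X 2147483648 (A 1 (X c 1))) N))) (L (X (L (X 86 b) N) (L (X 86 b) N)) N)) N) (P e 2)) N)))) N)) N)) N) N))) (S M (L (L (X (L (X (L (X 33554432 (A (L (X (L (X 1024 (L (X (L (X (A (L (X (A (L (R D 11680) 4294967295) (X c (L (R D 35488) 4294967295))) 1) N) (L (X (A (L (R D 11712) 4294967295) (X c (L (R D 35520) 4294967295))) a) N)) (L (X (L (X 86 b) N) (A (L (X (L (X 1048576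 (A (L (R D 64) 4294967295) (X c (L (R D 23872) 4294967295)))) N) (P f 2)) N) (L (X (L (X 86 b) N) (A (L (X (L (X 1024 (A (L (R D 96) 4294967295) (X c (L (R D 23904) 4294967295)))) N) f) N) (L (X (L (X 86 b) N) (A (L (R D 128) 4294967295) (X c (L (R D 23936) 4294967295)))) N))) N))) N)) N) (L (X 2 (A (L (X (L (X 767 e) N) f) N) (A (L (X (L (X 171 1) N) f) N) (L (X (L (X 86 1) N) e) N)))) N)) N)) N) f) N) (A (L (X (L (X 1024 (L (X (L (X (A (L (X (A (L (R D 11744) 4294967295) (X c (L (R D 35552) 4294967295))) 1) N) (L (X (A (L (R D 11776) 4294967295) (X c (L (R D 35584) 4294967295))) a) N)) (L (X (L (X 86 b) N) (A (L (X (L (X 1048576 (A (L (R D 64) 4294967295) (X c (L (R D 23872) 4294967295)))) N) (P f 2)) N) (L (X (L (X 86 b) N) (A (L (X (L (X 1024 (A (L (R D 96) 4294967295) (X c (L (R D 23904) 4294967295)))) N) f) N) (L (X (L (X 86 b) N) (A (L (R D 128) 4294967295) (X c (L (R D 23936)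 4294967295)))) N))) N))) N)) N) (A (L (X (L (X 767 e) N) f) N) (A (L (X (L (X 171 1) N) f) N) (L (X (L (X 86 1) N) e) N)))) N)) N) f) N) (A (L (X (L (X 1024 (L (X (L (X (A (L (X (A (L (R D 11936) 4294967295) (X c (L (R D 35744) 4294967295))) 1) N) (L (X (A (L (R D 11968) 4294967295) (X c (L (R D 35776) 4294967295))) a) N)) (L (X (L (X 86 b) N) (A (L (X (L (X 1048576 (A (L (R D 64) 4294967295) (X c (L (R D 23872) 4294967295)))) N) (P f 2)) N) (L (X (L (X 86 b) N) (A (L (X (L (X 1024 (A (L (R D 96) 4294967295) (X c (L (R D 23904) 4294967295)))) N) f) N) (L (X (L (X 86 b) N) (A (L (R D 128) 4294967295) (X c (L (R D 23936) 4294967295)))) N))) N))) N)) N) (L (X 2 (A (L (X (L (X 767 e) N) f) N) (A (L (X (L (X 171 1) N) f) N) (L (X (L (X 86 1) N) e) N)))) N)) N)) N) f) N) (A (L (X (L (X 1024 (L (X (L (X (A (L (X (A (L (R D 12000) 4294967295) (X c (L (R D 35808) 4294967295))) 1) N) (L (X (A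 (L (R D 12032) 4294967295) (X c (L (R D 35840) 4294967295))) a) N)) (L (X (L (X 86 b) N) (A (L (X (L (X 1048576 (A (L (R D 64) 4294967295) (X c (L (R D 23872) 4294967295)))) N) (P f 2)) N) (L (X (L (X 86 b) N) (A (L (X (L (X 1024 (A (L (R D 96) 4294967295) (X c (L (R D 23904) 4294967295)))) N) f) N) (L (X (L (X 86 b) N) (A (L (R D 128) 4294967295) (X c (L (R D 23936) 4294967295)))) N))) N))) N)) N) (L (X 2 (A (L (X 853 e) N) (L (X 171 1) N))) N)) N)) N) (P f 2)) N) (A (L (X (L (X (A (L (X (A (L (R D 12064) 4294967295) (X c (L (R D 35872) 4294967295))) 1) N) (L (X (A (L (R D 12096) 4294967295) (X c (L (R D 35904) 4294967295))) a) N)) (L (X (L (X 86 b) N) (A (L (X (L (X 1048576 (A (L (R D 64) 4294967295) (X c (L (R D 23872) 4294967295)))) N) (P f 2)) N) (L (X (L (X 86 b) N) (A (L (X (L (X 1024 (A (L (R D 96) 4294967295) (X c (L (R D 23904) 4294967295)))) N) f) N) (L (X (L (X 86 b) N) (A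 (L (R D 128) 4294967295) (X c (L (R D 23936) 4294967295)))) N))) N))) N)) N) (A (L (X (L (X 1024 (A (L (X 853 e) N) (L (X 171 1) N))) N) (P f 2)) N) (S M (L (L (X (L (X 12 (L (X (L (X 86 b) N) (L (X 86 b) N)) N)) N) e) N) N)))) N) (A (L (X (L (X (L (X (A (L (X (A (L (R D 12192) 4294967295) (X c (L (R D 36000) 4294967295))) 1) N) (L (X (A (L (R D 12224) 4294967295) (X c (L (R D 36032) 4294967295))) a) N)) (L (X (L (X 86 b) N) (A (L (X (L (X 1048576 (A (L (R D 64) 4294967295) (X c (L (R D 23872) 4294967295)))) N) (P f 2)) N) (L (X (L (X 86 b) N) (A (L (X (L (X 1024 (A (L (R D 96) 4294967295) (X c (L (R D 23904) 4294967295)))) N) f) N) (L (X (L (X 86 b) N) (A (L (R D 128) 4294967295) (X c (L (R D 23936) 4294967295)))) N))) N))) N)) N) (L (X 2 (L (X (L (X 86 b) N) (L (X 86 b) N)) N)) N)) N) e) N) (A (L (X (L (X (A (L (X (A (L (R D 12256) 4294967295) (X c (L (R D 36064) 4294967295))) 1) N)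 (L (X (A (L (R D 12288) 4294967295) (X c (L (R D 36096) 4294967295))) a) N)) (L (X (L (X 86 b) N) (A (L (X (L (X 1048576 (A (L (R D 64) 4294967295) (X c (L (R D 23872) 4294967295)))) N) (P f 2)) N) (L (X (L (X 86 b) N) (A (L (X (L (X 1024 (A (L (R D 96) 4294967295) (X c (L (R D 23904) 4294967295)))) N) f) N) (L (X (L (X 86 b) N) (A (L (R D 128) 4294967295) (X c (L (R D 23936) 4294967295)))) N))) N))) N)) N) (A (L (X (L (X 1024 (L (X 2 (A (L (X 853 e) N) (L (X 171 1) N))) N)) N) (P f 2)) N) (S M (L (L (X (L (X 24 (L (X (L (X 86 b) N) (L (X 86 b) N)) N)) N) e) N) N)))) N) (L (X (L (X (L (X 1048576 (L (X (L (X (A (L (X (A (L (R D 12320) 4294967295) (X c (L (R D 36128) 4294967295))) 1) N) (L (X (A (L (R D 12352) 4294967295) (X c (L (R D 36160) 4294967295))) a) N)) (L (X (L (X 86 b) N) (A (L (X (L (X 1048576 (A (L (R D 64) 4294967295) (X c (L (R D 23872) 4294967295)))) N) (P f 2)) N) (L (X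 (L (X 86 b) N) (A (L (X (L (X 1024 (A (L (R D 96) 4294967295) (X c (L (R D 23904) 4294967295)))) N) f) N) (L (X (L (X 86 b) N) (A (L (R D 128) 4294967295) (X c (L (R D 23936) 4294967295)))) N))) N))) N)) N) 2) N)) N) e) N) (P f 2)) N))))))))) N) (P e 2)) N) g) N) N))), 155, 5, 6, 4, 1⟩,
  ⟨fun A S X L P R M N m a b c d e f g h D => (A (A (L (X (L (X (L (X 0 (P e 3)) N) (P f 3)) N) (P g 3)) N) (S M (L (L (X (L (X (L (X 86 b) N) (A (L (X (L (X 1048576 (A (L (R D 64) 4294967295) (X c (L (R D 23872) 4294967295)))) N) (P f 2)) N) (L (X (L (X 86 b) N) (A (L (X (L (X 1024 (A (L (R D 96) 4294967295) (X c (L (R D 23904) 4294967295)))) N) f) N) (L (X (L (X 86 b) N) (A (L (R D 128) 4294967295) (X c (L (R D 23936) 4294967295)))) N))) N))) N) (L (X (A (L (X 1 (A (L (R D 160) 4294967295) (X a (A (L (R D 192) 4294967295) (X a (L (R D 224) 4294967295)))))) N) (L (X c (A (L (R D 23968) 4294967295) (X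 a (A (L (R D 24000) 4294967295) (X a (L (R D 24032) 4294967295)))))) N)) (L (X 1 (A (L (X (A (L (X (L (X 1024 (A (A (L (R D 1824) 4294967295) (X c (L (R D 25632) 4294967295))) (S M (L (X 2147483648 (A 1 (X c 1))) N)))) N) e) N) (L (X (L (X 171 a) N) (A (A (L (R D 1920) 4294967295) (X c (L (R D 25728) 4294967295))) (S M (L (X 2147483648 (A 1 (X c 1))) N)))) N)) 1) N) (L (X (A (L (X (L (X 1024 (A (A (L (R D 1824) 4294967295) (X c (L (R D 25632) 4294967295))) (S M (L (X 2147483648 (A 1 (X c 1))) N)))) N) e) N) (L (X (L (X 171 a) N) (A (A (L (R D 1920) 4294967295) (X c (L (R D 25728) 4294967295))) (S M (L (X 2147483648 (A 1 (X c 1))) N)))) N)) 1) N))) N)) N)) N) N))) (S M (L (L (X (L (X (L (X 34359738368 (A (L (X (L (X (A (L (X (A (L (R D 11680) 4294967295) (X c (L (R D 35488) 4294967295))) 1) N) (L (X (A (L (R D 11712) 4294967295) (X c (L (R D 35520) 4294967295))) a) N)) (L (X (L (X 86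 b) N) (A (L (X (L (X 1048576 (A (L (R D 64) 4294967295) (X c (L (R D 23872) 4294967295)))) N) (P f 2)) N) (L (X (L (X 86 b) N) (A (L (X (L (X 1024 (A (L (R D 96) 4294967295) (X c (L (R D 23904) 4294967295)))) N) f) N) (L (X (L (X 86 b) N) (A (L (R D 128) 4294967295) (X c (L (R D 23936) 4294967295)))) N))) N))) N)) N) (A 0 (S M (L (L (X 12 1) N) N)))) N) (A (L (X (L (X (A (L (X (A (L (R D 11808) 4294967295) (X c (L (R D 35616) 4294967295))) 1) N) (L (X (A (L (R D 11840) 4294967295) (X c (L (R D 35648) 4294967295))) a) N)) (L (X (L (X 86 b) N) (A (L (X (L (X 1048576 (A (L (R D 64) 4294967295) (X c (L (R D 23872) 4294967295)))) N) (P f 2)) N) (L (X (L (X 86 b) N) (A (L (X (L (X 1024 (A (L (R D 96) 4294967295) (X c (L (R D 23904) 4294967295)))) N) f) N) (L (X (L (X 86 b) N) (A (L (R D 128) 4294967295) (X c (L (R D 23936) 4294967295)))) N))) N))) N)) N) 1) N) (A (L (X (L (X (A (L (X (A (L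 (R D 11936) 4294967295) (X c (L (R D 35744) 4294967295))) 1) N) (L (X (A (L (R D 11968) 4294967295) (X c (L (R D 35776) 4294967295))) a) N)) (L (X (L (X 86 b) N) (A (L (X (L (X 1048576 (A (L (R D 64) 4294967295) (X c (L (R D 23872) 4294967295)))) N) (P f 2)) N) (L (X (L (X 86 b) N) (A (L (X (L (X 1024 (A (L (R D 96) 4294967295) (X c (L (R D 23904) 4294967295)))) N) f) N) (L (X (L (X 86 b) N) (A (L (R D 128) 4294967295) (X c (L (R D 23936) 4294967295)))) N))) N))) N)) N) (A 0 (S M (L (L (X 12 1) N) N)))) N) (A (L (X (L (X (A (L (X (A (L (R D 12000) 4294967295) (X c (L (R D 35808) 4294967295))) 1) N) (L (X (A (L (R D 12032) 4294967295) (X c (L (R D 35840) 4294967295))) a) N)) (L (X (L (X 86 b) N) (A (L (X (L (X 1048576 (A (L (R D 64) 4294967295) (X c (L (R D 23872) 4294967295)))) N) (P f 2)) N) (L (X (L (X 86 b) N) (A (L (X (L (X 1024 (A (L (R D 96) 4294967295) (X c (L (R D 23904) 4294967295))))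 N) f) N) (L (X (L (X 86 b) N) (A (L (R D 128) 4294967295) (X c (L (R D 23936) 4294967295)))) N))) N))) N)) N) (A 0 (S M (L (L (X 12 1) N) N)))) N) (A (L (X (L (X (A (L (X (A (L (R D 12128) 4294967295) (X c (L (R D 35936) 4294967295))) 1) N) (L (X (A (L (R D 12160) 4294967295) (X c (L (R D 35968) 4294967295))) a) N)) (L (X (L (X 86 b) N) (A (L (X (L (X 1048576 (A (L (R D 64) 4294967295) (X c (L (R D 23872) 4294967295)))) N) (P f 2)) N) (L (X (L (X 86 b) N) (A (L (X (L (X 1024 (A (L (R D 96) 4294967295) (X c (L (R D 23904) 4294967295)))) N) f) N) (L (X (L (X 86 b) N) (A (L (R D 128) 4294967295) (X c (L (R D 23936) 4294967295)))) N))) N))) N)) N) 1) N) (L (X (L (X (A (L (X (A (L (R D 12256) 4294967295) (X c (L (R D 36064) 4294967295))) 1) N) (L (X (A (L (R D 12288) 4294967295) (X c (L (R D 36096) 4294967295))) a) N)) (L (X (L (X 86 b) N) (A (L (X (L (X 1048576 (A (L (R D 64) 4294967295)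 (X c (L (R D 23872) 4294967295)))) N) (P f 2)) N) (L (X (L (X 86 b) N) (A (L (X (L (X 1024 (A (L (R D 96) 4294967295) (X c (L (R D 23904) 4294967295)))) N) f) N) (L (X (L (X 86 b) N) (A (L (R D 128) 4294967295) (X c (L (R D 23936) 4294967295)))) N))) N))) N)) N) (A 0 (S M (L (L (X 12 1) N) N)))) N))))))) N) (P e 2)) N) g) N) N))), 142, 4, 4, 4, 1⟩,
  ⟨fun A S X L P R M N m a b c d e f g h D => (A (A (L (X (L (X (L (X 0 (P e 2)) N) (P f 3)) N) (P g 3)) N) (S M (L (L (X (L (X (L (X 86 b) N) (A (L (X (L (X 1048576 (A (L (R D 64) 4294967295) (X c (L (R D 23872) 4294967295)))) N) (P f 2)) N) (L (X (L (X 86 b) N) (A (L (X (L (X 1024 (A (L (R D 96) 4294967295) (X c (L (R D 23904) 4294967295)))) N) f) N) (L (X (L (X 86 b) N) (A (L (R D 128) 4294967295) (X c (L (R D 23936) 4294967295)))) N))) N))) N) (L (X (A (L (X 1 (A (L (R D 160) 4294967295) (X a (A (L (R D 192) 4294967295) (X a (L (R D 224)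 4294967295)))))) N) (L (X c (A (L (R D 23968) 4294967295) (X a (A (L (R D 24000) 4294967295) (X a (L (R D 24032) 4294967295)))))) N)) (L (X 1 (A (L (X (A (A (L (R D 1856) 4294967295) (X c (L (R D 25664) 4294967295))) (S M (L (X 2147483648 (A 1 (X c 1))) N))) 1) N) (L (X (A (A (L (R D 1856) 4294967295) (X c (L (R D 25664) 4294967295))) (S M (L (X 2147483648 (A 1 (X c 1))) N))) 1) N))) N)) N)) N) N))) (S M (L (L (X (L (X (L (X 33554432 (A (L (X (L (X (A (L (X (A (L (R D 11744) 4294967295) (X c (L (R D 35552) 4294967295))) 1) N) (L (X (A (L (R D 11776) 4294967295) (X c (L (R D 35584) 4294967295))) a) N)) (L (X (L (X 86 b) N) (A (L (X (L (X 1048576 (A (L (R D 64) 4294967295) (X c (L (R D 23872) 4294967295)))) N) (P f 2)) N) (L (X (L (X 86 b) N) (A (L (X (L (X 1024 (A (L (R D 96) 4294967295) (X c (L (R D 23904) 4294967295)))) N) f) N) (L (X (L (X 86 b) N) (A (L (R D 128) 4294967295) (X c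 (L (R D 23936) 4294967295)))) N))) N))) N)) N) (A 0 (S M (L (L (X 12 1) N) N)))) N) (A (L (X (L (X (A (L (X (A (L (R D 11872) 4294967295) (X c (L (R D 35680) 4294967295))) 1) N) (L (X (A (L (R D 11904) 4294967295) (X c (L (R D 35712) 4294967295))) a) N)) (L (X (L (X 86 b) N) (A (L (X (L (X 1048576 (A (L (R D 64) 4294967295) (X c (L (R D 23872) 4294967295)))) N) (P f 2)) N) (L (X (L (X 86 b) N) (A (L (X (L (X 1024 (A (L (R D 96) 4294967295) (X c (L (R D 23904) 4294967295)))) N) f) N) (L (X (L (X 86 b) N) (A (L (R D 128) 4294967295) (X c (L (R D 23936) 4294967295)))) N))) N))) N)) N) (L (X 2 1) N)) N) (A (L (X (L (X (A (L (X (A (L (R D 11936) 4294967295) (X c (L (R D 35744) 4294967295))) 1) N) (L (X (A (L (R D 11968) 4294967295) (X c (L (R D 35776) 4294967295))) a) N)) (L (X (L (X 86 b) N) (A (L (X (L (X 1048576 (A (L (R D 64) 4294967295) (X c (L (R D 23872) 4294967295)))) N) (P f 2))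 N) (L (X (L (X 86 b) N) (A (L (X (L (X 1024 (A (L (R D 96) 4294967295) (X c (L (R D 23904) 4294967295)))) N) f) N) (L (X (L (X 86 b) N) (A (L (R D 128) 4294967295) (X c (L (R D 23936) 4294967295)))) N))) N))) N)) N) (A 0 (S M (L (L (X 24 1) N) N)))) N) (A (L (X (L (X (A (L (X (A (L (R D 12064) 4294967295) (X c (L (R D 35872) 4294967295))) 1) N) (L (X (A (L (R D 12096) 4294967295) (X c (L (R D 35904) 4294967295))) a) N)) (L (X (L (X 86 b) N) (A (L (X (L (X 1048576 (A (L (R D 64) 4294967295) (X c (L (R D 23872) 4294967295)))) N) (P f 2)) N) (L (X (L (X 86 b) N) (A (L (X (L (X 1024 (A (L (R D 96) 4294967295) (X c (L (R D 23904) 4294967295)))) N) f) N) (L (X (L (X 86 b) N) (A (L (R D 128) 4294967295) (X c (L (R D 23936) 4294967295)))) N))) N))) N)) N) (A 0 (S M (L (L (X 12 1) N) N)))) N) (A (L (X (L (X (A (L (X (A (L (R D 12192) 4294967295) (X c (L (R D 36000) 4294967295))) 1) N) (L (X (A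 (L (R D 12224) 4294967295) (X c (L (R D 36032) 4294967295))) a) N)) (L (X (L (X 86 b) N) (A (L (X (L (X 1048576 (A (L (R D 64) 4294967295) (X c (L (R D 23872) 4294967295)))) N) (P f 2)) N) (L (X (L (X 86 b) N) (A (L (X (L (X 1024 (A (L (R D 96) 4294967295) (X c (L (R D 23904) 4294967295)))) N) f) N) (L (X (L (X 86 b) N) (A (L (R D 128) 4294967295) (X c (L (R D 23936) 4294967295)))) N))) N))) N)) N) (L (X 2 1) N)) N) (L (X (L (X (A (L (X (A (L (R D 12256) 4294967295) (X c (L (R D 36064) 4294967295))) 1) N) (L (X (A (L (R D 12288) 4294967295) (X c (L (R D 36096) 4294967295))) a) N)) (L (X (L (X 86 b) N) (A (L (X (L (X 1048576 (A (L (R D 64) 4294967295) (X c (L (R D 23872) 4294967295)))) N) (P f 2)) N) (L (X (L (X 86 b) N) (A (L (X (L (X 1024 (A (L (R D 96) 4294967295) (X c (L (R D 23904) 4294967295)))) N) f) N) (L (X (L (X 86 b) N) (A (L (R D 128) 4294967295) (X c (L (R D 23936) 4294967295))))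 N))) N))) N)) N) (A 0 (S M (L (L (X 24 1) N) N)))) N))))))) N) e) N) g) N) N))), 131, 3, 4, 4, 1⟩,
  ⟨fun A S X L P R M N m a b c d e f g h D => (A (A (L (X (L (X (L (X 0 (P e 2)) N) (P f 3)) N) (P g 3)) N) (S M (L (L (X (L (X (L (X 86 b) N) (A (L (X (L (X 1048576 (A (L (R D 64) 4294967295) (X c (L (R D 23872) 4294967295)))) N) (P f 2)) N) (L (X (L (X 86 b) N) (A (L (X (L (X 1024 (A (L (R D 96) 4294967295) (X c (L (R D 23904) 4294967295)))) N) f) N) (L (X (L (X 86 b) N) (A (L (R D 128) 4294967295) (X c (L (R D 23936) 4294967295)))) N))) N))) N) (L (X (A (L (X 1 (A (L (R D 160) 4294967295) (X a (A (L (R D 192) 4294967295) (X a (L (R D 224) 4294967295)))))) N) (L (X c (A (L (R D 23968) 4294967295) (X a (A (L (R D 24000) 4294967295) (X a (L (R D 24032) 4294967295)))))) N)) (L (X 1 (A (L (X (A (A (L (R D 1888) 4294967295) (X c (L (R D 25696) 4294967295))) (S M (L (X 2147483648 (A 1 (X c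 1))) N))) 1) N) (L (X (A (A (L (R D 1888) 4294967295) (X c (L (R D 25696) 4294967295))) (S M (L (X 2147483648 (A 1 (X c 1))) N))) 1) N))) N)) N)) N) N))) (S M (L (L (X (L (X (L (X 33554432 (A (L (X (L (X (A (L (X (A (L (R D 11808) 4294967295) (X c (L (R D 35616) 4294967295))) 1) N) (L (X (A (L (R D 11840) 4294967295) (X c (L (R D 35648) 4294967295))) a) N)) (L (X (L (X 86 b) N) (A (L (X (L (X 1048576 (A (L (R D 64) 4294967295) (X c (L (R D 23872) 4294967295)))) N) (P f 2)) N) (L (X (L (X 86 b) N) (A (L (X (L (X 1024 (A (L (R D 96) 4294967295) (X c (L (R D 23904) 4294967295)))) N) f) N) (L (X (L (X 86 b) N) (A (L (R D 128) 4294967295) (X c (L (R D 23936) 4294967295)))) N))) N))) N)) N) (A 0 (S M (L (L (X 12 1) N) N)))) N) (A (L (X (L (X (A (L (X (A (L (R D 11872) 4294967295) (X c (L (R D 35680) 4294967295))) 1) N) (L (X (A (L (R D 11904) 4294967295) (X c (L (R D 35712) 4294967295))) a)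 N)) (L (X (L (X 86 b) N) (A (L (X (L (X 1048576 (A (L (R D 64) 4294967295) (X c (L (R D 23872) 4294967295)))) N) (P f 2)) N) (L (X (L (X 86 b) N) (A (L (X (L (X 1024 (A (L (R D 96) 4294967295) (X c (L (R D 23904) 4294967295)))) N) f) N) (L (X (L (X 86 b) N) (A (L (R D 128) 4294967295) (X c (L (R D 23936) 4294967295)))) N))) N))) N)) N) (A 0 (S M (L (L (X 12 1) N) N)))) N) (A (L (X (L (X (A (L (X (A (L (R D 11936) 4294967295) (X c (L (R D 35744) 4294967295))) 1) N) (L (X (A (L (R D 11968) 4294967295) (X c (L (R D 35776) 4294967295))) a) N)) (L (X (L (X 86 b) N) (A (L (X (L (X 1048576 (A (L (R D 64) 4294967295) (X c (L (R D 23872) 4294967295)))) N) (P f 2)) N) (L (X (L (X 86 b) N) (A (L (X (L (X 1024 (A (L (R D 96) 4294967295) (X c (L (R D 23904) 4294967295)))) N) f) N) (L (X (L (X 86 b) N) (A (L (R D 128) 4294967295) (X c (L (R D 23936) 4294967295)))) N))) N))) N)) N) (L (X 144 1) N))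 N) (A (L (X (L (X (A (L (X (A (L (R D 12128) 4294967295) (X c (L (R D 35936) 4294967295))) 1) N) (L (X (A (L (R D 12160) 4294967295) (X c (L (R D 35968) 4294967295))) a) N)) (L (X (L (X 86 b) N) (A (L (X (L (X 1048576 (A (L (R D 64) 4294967295) (X c (L (R D 23872) 4294967295)))) N) (P f 2)) N) (L (X (L (X 86 b) N) (A (L (X (L (X 1024 (A (L (R D 96) 4294967295) (X c (L (R D 23904) 4294967295)))) N) f) N) (L (X (L (X 86 b) N) (A (L (R D 128) 4294967295) (X c (L (R D 23936) 4294967295)))) N))) N))) N)) N) (A 0 (S M (L (L (X 12 1) N) N)))) N) (A (L (X (L (X (A (L (X (A (L (R D 12192) 4294967295) (X c (L (R D 36000) 4294967295))) 1) N) (L (X (A (L (R D 12224) 4294967295) (X c (L (R D 36032) 4294967295))) a) N)) (L (X (L (X 86 b) N) (A (L (X (L (X 1048576 (A (L (R D 64) 4294967295) (X c (L (R D 23872) 4294967295)))) N) (P f 2)) N) (L (X (L (X 86 b) N) (A (L (X (L (X 1024 (A (L (R D 96) 4294967295)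 (X c (L (R D 23904) 4294967295)))) N) f) N) (L (X (L (X 86 b) N) (A (L (R D 128) 4294967295) (X c (L (R D 23936) 4294967295)))) N))) N))) N)) N) (A 0 (S M (L (L (X 12 1) N) N)))) N) (L (X (L (X (A (L (X (A (L (R D 12256) 4294967295) (X c (L (R D 36064) 4294967295))) 1) N) (L (X (A (L (R D 12288) 4294967295) (X c (L (R D 36096) 4294967295))) a) N)) (L (X (L (X 86 b) N) (A (L (X (L (X 1048576 (A (L (R D 64) 4294967295) (X c (L (R D 23872) 4294967295)))) N) (P f 2)) N) (L (X (L (X 86 b) N) (A (L (X (L (X 1024 (A (L (R D 96) 4294967295) (X c (L (R D 23904) 4294967295)))) N) f) N) (L (X (L (X 86 b) N) (A (L (R D 128) 4294967295) (X c (L (R D 23936) 4294967295)))) N))) N))) N)) N) (L (X 144 1) N)) N))))))) N) e) N) g) N) N))), 132, 3, 4, 4, 1⟩,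
  ⟨fun A S X L P R M N m a b c d e f g h D => (A (A (L (X (L (X (L (X 0 (P e 3)) N) (P f 5)) N) (P g 3)) N) (S M (L (L (X (L (X (L (X 86 b) N) (A (L (X (L (X 1048576 (A (L (R D 64) 4294967295) (X c (L (R D 23872) 4294967295)))) N) (P f 2)) N) (L (X (L (X 86 b) N) (A (L (X (L (X 1024 (A (L (R D 96) 4294967295) (X c (L (R D 23904) 4294967295)))) N) f) N) (L (X (L (X 86 b) N) (A (L (R D 128) 4294967295) (X c (L (R D 23936) 4294967295)))) N))) N))) N) (L (X (A (L (X 1 (A (L (R D 160) 4294967295) (X a (A (L (R D 192) 4294967295) (X a (L (R D 224) 4294967295)))))) N) (L (X c (A (L (R D 23968) 4294967295) (X a (A (L (R D 24000) 4294967295) (X a (L (R D 24032) 4294967295)))))) N)) (L (X 1 (A (L (X (L (X (A (L (X (L (X 1024 (A (A (L (R D 1824) 4294967295) (X c (L (R D 25632) 4294967295))) (S M (L (X 2147483648 (A 1 (X c 1))) N)))) N) e) N) (L (X (L (X 171 a) N) (A (A (L (R D 1920) 4294967295)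 (X c (L (R D 25728) 4294967295))) (S M (L (X 2147483648 (A 1 (X c 1))) N)))) N)) (L (X 86 b) N)) N) f) N) (L (X (L (X (A (A (L (R D 1888) 4294967295) (X c (L (R D 25696) 4294967295))) (S M (L (X 2147483648 (A 1 (X c 1))) N))) (L (X (L (X 86 b) N) (L (X 86 b) N)) N)) N) e) N))) N)) N)) N) N))) (S M (L (L (X (L (X (L (X 33554432 (A (L (X (L (X 1024 (L (X (L (X (A (L (X (A (L (R D 12000) 4294967295) (X c (L (R D 35808) 4294967295))) 1) N) (L (X (A (L (R D 12032) 4294967295) (X c (L (R D 35840) 4294967295))) a) N)) (L (X (L (X 86 b) N) (A (L (X (L (X 1048576 (A (L (R D 64) 4294967295) (X c (L (R D 23872) 4294967295)))) N) (P f 2)) N) (L (X (L (X 86 b) N) (A (L (X (L (X 1024 (A (L (R D 96) 4294967295) (X c (L (R D 23904) 4294967295)))) N) f) N) (L (X (L (X 86 b) N) (A (L (R D 128) 4294967295) (X c (L (R D 23936) 4294967295)))) N))) N))) N)) N) (A (L (X 0 f) N) (S M (L (L (X 12 (L (X 86 b)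 N)) N) N)))) N)) N) f) N) (A (L (X (L (X (A (L (X (A (L (R D 12128) 4294967295) (X c (L (R D 35936) 4294967295))) 1) N) (L (X (A (L (R D 12160) 4294967295) (X c (L (R D 35968) 4294967295))) a) N)) (L (X (L (X 86 b) N) (A (L (X (L (X 1048576 (A (L (R D 64) 4294967295) (X c (L (R D 23872) 4294967295)))) N) (P f 2)) N) (L (X (L (X 86 b) N) (A (L (X (L (X 1024 (A (L (R D 96) 4294967295) (X c (L (R D 23904) 4294967295)))) N) f) N) (L (X (L (X 86 b) N) (A (L (R D 128) 4294967295) (X c (L (R D 23936) 4294967295)))) N))) N))) N)) N) (A (L (X (L (X 1024 (L (X 86 b) N)) N) f) N) (S M (L (L (X 12 (L (X (L (X 86 b) N) (L (X 86 b) N)) N)) N) N)))) N) (A (L (X (L (X (A (L (X (A (L (R D 12192) 4294967295) (X c (L (R D 36000) 4294967295))) 1) N) (L (X (A (L (R D 12224) 4294967295) (X c (L (R D 36032) 4294967295))) a) N)) (L (X (L (X 86 b) N) (A (L (X (L (X 1048576 (A (L (R D 64) 4294967295) (X c (L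 (R D 23872) 4294967295)))) N) (P f 2)) N) (L (X (L (X 86 b) N) (A (L (X (L (X 1024 (A (L (R D 96) 4294967295) (X c (L (R D 23904) 4294967295)))) N) f) N) (L (X (L (X 86 b) N) (A (L (R D 128) 4294967295) (X c (L (R D 23936) 4294967295)))) N))) N))) N)) N) (A (L (X 0 (P f 2)) N) (S M (L (L (X 12 (L (X (L (X 86 b) N) (L (X 86 b) N)) N)) N) N)))) N) (A (L (X (L (X (A (L (X (A (L (R D 12256) 4294967295) (X c (L (R D 36064) 4294967295))) 1) N) (L (X (A (L (R D 12288) 4294967295) (X c (L (R D 36096) 4294967295))) a) N)) (L (X (L (X 86 b) N) (A (L (X (L (X 1048576 (A (L (R D 64) 4294967295) (X c (L (R D 23872) 4294967295)))) N) (P f 2)) N) (L (X (L (X 86 b) N) (A (L (X (L (X 1024 (A (L (R D 96) 4294967295) (X c (L (R D 23904) 4294967295)))) N) f) N) (L (X (L (X 86 b) N) (A (L (R D 128) 4294967295) (X c (L (R D 23936) 4294967295)))) N))) N))) N)) N) (A (L (X 144 (L (X (L (X 86 b) N) (L (X 86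 b) N)) N)) N) (S M (L (L (X (L (X 1024 (L (X 12 (L (X 86 b) N)) N)) N) f) N) N)))) N) (L (X (L (X 1048576 (L (X (L (X (A (L (X (A (L (R D 12320) 4294967295) (X c (L (R D 36128) 4294967295))) 1) N) (L (X (A (L (R D 12352) 4294967295) (X c (L (R D 36160) 4294967295))) a) N)) (L (X (L (X 86 b) N) (A (L (X (L (X 1048576 (A (L (R D 64) 4294967295) (X c (L (R D 23872) 4294967295)))) N) (P f 2)) N) (L (X (L (X 86 b) N) (A (L (X (L (X 1024 (A (L (R D 96) 4294967295) (X c (L (R D 23904) 4294967295)))) N) f) N) (L (X (L (X 86 b) N) (A (L (R D 128) 4294967295) (X c (L (R D 23936) 4294967295)))) N))) N))) N)) N) (A 0 (S M (L (L (X 12 1) N) N)))) N)) N) (P f 2)) N)))))) N) (P e 2)) N) g) N) N))), 150, 4, 6, 4, 1⟩,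
  ⟨fun A S X L P R M N m a b c d e f g h D => (A (A (L (X (L (X (L (X (L (X 590295810358705651712 (L (X (L (X 86 b) N) (A (L (X 1024 (A (L (X (A (L (X (L (X 1024 (A (A (L (R D 5216) 4294967295) (X c (L (R D 29024) 4294967295))) (S M (L (X 2147483648 (A 1 (X c 1))) N)))) N) e) N) (L (X (A (A (L (R D 5248) 4294967295) (X c (L (R D 29056) 4294967295))) (S M (L (X 2147483648 (A 1 (X c 1))) N))) (L (X 171 a) N)) N)) f) N) (L (X (L (X (A (A (L (R D 5280) 4294967295) (X c (L (R D 29088) 4294967295))) (S M (L (X 2147483648 (A 1 (X c 1))) N))) (L (X 86 b) N)) N) e) N))) N) (L (X (A (A (L (R D 5312) 4294967295) (X c (L (R D 29120) 4294967295))) (S M (L (X 2147483648 (A 1 (X c 1))) N))) (L (X (L (X 86 b) N) (L (X 171 a) N)) N)) N))) N)) N) (P e 3)) N) (P f 3)) N) (P g 2)) N) (S M (L (L (X (L (X (L (X 86 b) N) (A (L (X (L (X 1048576 (A (L (R D 64) 4294967295) (X c (L (R D 23872) 4294967295)))) N)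 (P f 2)) N) (L (X (L (X 86 b) N) (A (L (X (L (X 1024 (A (L (R D 96) 4294967295) (X c (L (R D 23904) 4294967295)))) N) f) N) (L (X (L (X 86 b) N) (A (L (R D 128) 4294967295) (X c (L (R D 23936) 4294967295)))) N))) N))) N) (L (X (A (L (X 1 (A (L (R D 160) 4294967295) (X a (A (L (R D 192) 4294967295) (X a (L (R D 224) 4294967295)))))) N) (L (X c (A (L (R D 23968) 4294967295) (X a (A (L (R D 24000) 4294967295) (X a (L (R D 24032) 4294967295)))))) N)) (A (L (X (L (X (L (X (L (X 34359738368 (L (X 1 (A (L (X 853 e) N) (L (X 171 1) N))) N)) N) e) N) (P f 2)) N) g) N) (L (X 1 (A (L (X (A (L (X (L (X 1024 (L (X (A (A (L (R D 2912) 4294967295) (X c (L (R D 26720) 4294967295))) (S M (L (X 2147483648 (A 1 (X c 1))) N))) (A (L (X (L (X 767 e) N) f) N) (A (L (X (L (X 171 1) N) f) N) (L (X (L (X 86 1) N) e) N)))) N)) N) e) N) (L (X (A (A (L (R D 2944) 4294967295) (X c (L (R D 26752) 4294967295))) (S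 M (L (X 2147483648 (A 1 (X c 1))) N))) (L (X (L (X 171 a) N) (A (L (X (L (X 767 e) N) f) N) (A (L (X (L (X 171 1) N) f) N) (L (X (L (X 86 1) N) e) N)))) N)) N)) f) N) (A (L (X (A (L (X (L (X 1024 (L (X (A (A (L (R D 2912) 4294967295) (X c (L (R D 26720) 4294967295))) (S M (L (X 2147483648 (A 1 (X c 1))) N))) (A (L (X 853 e) N) (L (X 171 1) N))) N)) N) e) N) (L (X (A (A (L (R D 2944) 4294967295) (X c (L (R D 26752) 4294967295))) (S M (L (X 2147483648 (A 1 (X c 1))) N))) (L (X (L (X 171 a) N) (A (L (X 853 e) N) (L (X 171 1) N))) N)) N)) (P f 2)) N) (L (X (L (X (A (A (L (R D 3008) 4294967295) (X c (L (R D 26816) 4294967295))) (S M (L (X 2147483648 (A 1 (X c 1))) N))) (L (X (L (X 86 b) N) (L (X 86 b) N)) N)) N) (P e 2)) N)))) N))) N)) N) N))) (S M (L (L (X (L (X (L (X 33554432 (A (L (X (L (X 1024 (L (X (L (X (A (L (X (A (L (R D 12384) 4294967295) (X c (L (R D 36192) 4294967295))) 1) N) (L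 (X (A (L (R D 12416) 4294967295) (X c (L (R D 36224) 4294967295))) a) N)) (L (X (L (X 86 b) N) (A (L (X (L (X 1048576 (A (L (R D 64) 4294967295) (X c (L (R D 23872) 4294967295)))) N) (P f 2)) N) (L (X (L (X 86 b) N) (A (L (X (L (X 1024 (A (L (R D 96) 4294967295) (X c (L (R D 23904) 4294967295)))) N) f) N) (L (X (L (X 86 b) N) (A (L (R D 128) 4294967295) (X c (L (R D 23936) 4294967295)))) N))) N))) N)) N) (L (X 2 (A (L (X (L (X 767 e) N) f) N) (A (L (X (L (X 171 1) N) f) N) (L (X (L (X 86 1) N) e) N)))) N)) N)) N) f) N) (A (L (X (L (X 1024 (L (X (L (X (A (L (X (A (L (R D 12448) 4294967295) (X c (L (R D 36256) 4294967295))) 1) N) (L (X (A (L (R D 12480) 4294967295) (X c (L (R D 36288) 4294967295))) a) N)) (L (X (L (X 86 b) N) (A (L (X (L (X 1048576 (A (L (R D 64) 4294967295) (X c (L (R D 23872) 4294967295)))) N) (P f 2)) N) (L (X (L (X 86 b) N) (A (L (X (L (X 1024 (A (L (R D 96) 4294967295)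 (X c (L (R D 23904) 4294967295)))) N) f) N) (L (X (L (X 86 b) N) (A (L (R D 128) 4294967295) (X c (L (R D 23936) 4294967295)))) N))) N))) N)) N) (A (L (X (L (X 767 e) N) f) N) (A (L (X (L (X 171 1) N) f) N) (L (X (L (X 86 1) N) e) N)))) N)) N) f) N) (A (L (X (L (X 1024 (L (X (L (X (A (L (X (A (L (R D 12640) 4294967295) (X c (L (R D 36448) 4294967295))) 1) N) (L (X (A (L (R D 12672) 4294967295) (X c (L (R D 36480) 4294967295))) a) N)) (L (X (L (X 86 b) N) (A (L (X (L (X 1048576 (A (L (R D 64) 4294967295) (X c (L (R D 23872) 4294967295)))) N) (P f 2)) N) (L (X (L (X 86 b) N) (A (L (X (L (X 1024 (A (L (R D 96) 4294967295) (X c (L (R D 23904) 4294967295)))) N) f) N) (L (X (L (X 86 b) N) (A (L (R D 128) 4294967295) (X c (L (R D 23936) 4294967295)))) N))) N))) N)) N) (L (X 2 (A (L (X (L (X 767 e) N) f) N) (A (L (X (L (X 171 1) N) f) N) (L (X (L (X 86 1) N) e) N)))) N)) N)) N) f) N) (A (L (X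 (L (X 1024 (L (X (L (X (A (L (X (A (L (R D 12704) 4294967295) (X c (L (R D 36512) 4294967295))) 1) N) (L (X (A (L (R D 12736) 4294967295) (X c (L (R D 36544) 4294967295))) a) N)) (L (X (L (X 86 b) N) (A (L (X (L (X 1048576 (A (L (R D 64) 4294967295) (X c (L (R D 23872) 4294967295)))) N) (P f 2)) N) (L (X (L (X 86 b) N) (A (L (X (L (X 1024 (A (L (R D 96) 4294967295) (X c (L (R D 23904) 4294967295)))) N) f) N) (L (X (L (X 86 b) N) (A (L (R D 128) 4294967295) (X c (L (R D 23936) 4294967295)))) N))) N))) N)) N) (L (X 2 (A (L (X 853 e) N) (L (X 171 1) N))) N)) N)) N) (P f 2)) N) (A (L (X (L (X (A (L (X (A (L (R D 12768) 4294967295) (X c (L (R D 36576) 4294967295))) 1) N) (L (X (A (L (R D 12800) 4294967295) (X c (L (R D 36608) 4294967295))) a) N)) (L (X (L (X 86 b) N) (A (L (X (L (X 1048576 (A (L (R D 64) 4294967295) (X c (L (R D 23872) 4294967295)))) N) (P f 2)) N) (L (X (L (X 86 b) N) (A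 (L (X (L (X 1024 (A (L (R D 96) 4294967295) (X c (L (R D 23904) 4294967295)))) N) f) N) (L (X (L (X 86 b) N) (A (L (R D 128) 4294967295) (X c (L (R D 23936) 4294967295)))) N))) N))) N)) N) (A (L (X (L (X 1024 (A (L (X 853 e) N) (L (X 171 1) N))) N) (P f 2)) N) (S M (L (L (X (L (X 12 (L (X (L (X 86 b) N) (L (X 86 b) N)) N)) N) e) N) N)))) N) (A (L (X (L (X (L (X (A (L (X (A (L (R D 12896) 4294967295) (X c (L (R D 36704) 4294967295))) 1) N) (L (X (A (L (R D 12928) 4294967295) (X c (L (R D 36736) 4294967295))) a) N)) (L (X (L (X 86 b) N) (A (L (X (L (X 1048576 (A (L (R D 64) 4294967295) (X c (L (R D 23872) 4294967295)))) N) (P f 2)) N) (L (X (L (X 86 b) N) (A (L (X (L (X 1024 (A (L (R D 96) 4294967295) (X c (L (R D 23904) 4294967295)))) N) f) N) (L (X (L (X 86 b) N) (A (L (R D 128) 4294967295) (X c (L (R D 23936) 4294967295)))) N))) N))) N)) N) (L (X 2 (L (X (L (X 86 b) N) (L (X 86 b) N))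 N)) N)) N) e) N) (A (L (X (L (X (A (L (X (A (L (R D 12960) 4294967295) (X c (L (R D 36768) 4294967295))) 1) N) (L (X (A (L (R D 12992) 4294967295) (X c (L (R D 36800) 4294967295))) a) N)) (L (X (L (X 86 b) N) (A (L (X (L (X 1048576 (A (L (R D 64) 4294967295) (X c (L (R D 23872) 4294967295)))) N) (P f 2)) N) (L (X (L (X 86 b) N) (A (L (X (L (X 1024 (A (L (R D 96) 4294967295) (X c (L (R D 23904) 4294967295)))) N) f) N) (L (X (L (X 86 b) N) (A (L (R D 128) 4294967295) (X c (L (R D 23936) 4294967295)))) N))) N))) N)) N) (A (L (X (L (X 1024 (L (X 2 (A (L (X 853 e) N) (L (X 171 1) N))) N)) N) (P f 2)) N) (S M (L (L (X (L (X 24 (L (X (L (X 86 b) N) (L (X 86 b) N)) N)) N) e) N) N)))) N) (L (X (L (X (L (X 1048576 (L (X (L (X (A (L (X (A (L (R D 13024) 4294967295) (X c (L (R D 36832) 4294967295))) 1) N) (L (X (A (L (R D 13056) 4294967295) (X c (L (R D 36864) 4294967295))) a) N)) (L (X (L (X 86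 b) N) (A (L (X (L (X 1048576 (A (L (R D 64) 4294967295) (X c (L (R D 23872) 4294967295)))) N) (P f 2)) N) (L (X (L (X 86 b) N) (A (L (X (L (X 1024 (A (L (R D 96) 4294967295) (X c (L (R D 23904) 4294967295)))) N) f) N) (L (X (L (X 86 b) N) (A (L (R D 128) 4294967295) (X c (L (R D 23936) 4294967295)))) N))) N))) N)) N) 2) N)) N) e) N) (P f 2)) N))))))))) N) (P e 2)) N) g) N) N))), 155, 5, 6, 4, 1⟩,
  ⟨fun A S X L P R M N m a b c d e f g h D => (A (A (L (X (L (X (L (X 0 (P e 3)) N) (P f 3)) N) (P g 3)) N) (S M (L (L (X (L (X (L (X 86 b) N) (A (L (X (L (X 1048576 (A (L (R D 64) 4294967295) (X c (L (R D 23872) 4294967295)))) N) (P f 2)) N) (L (X (L (X 86 b) N) (A (L (X (L (X 1024 (A (L (R D 96) 4294967295) (X c (L (R D 23904) 4294967295)))) N) f) N) (L (X (L (X 86 b) N) (A (L (R D 128) 4294967295) (X c (L (R D 23936) 4294967295)))) N))) N))) N) (L (X (A (L (X 1 (A (L (R D 160) 4294967295)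 (X a (A (L (R D 192) 4294967295) (X a (L (R D 224) 4294967295)))))) N) (L (X c (A (L (R D 23968) 4294967295) (X a (A (L (R D 24000) 4294967295) (X a (L (R D 24032) 4294967295)))))) N)) (L (X 1 (A (L (X (A (L (X (L (X 1024 (A (A (L (R D 2976) 4294967295) (X c (L (R D 26784) 4294967295))) (S M (L (X 2147483648 (A 1 (X c 1))) N)))) N) e) N) (L (X (L (X 171 a) N) (A (A (L (R D 3072) 4294967295) (X c (L (R D 26880) 4294967295))) (S M (L (X 2147483648 (A 1 (X c 1))) N)))) N)) 1) N) (L (X (A (L (X (L (X 1024 (A (A (L (R D 2976) 4294967295) (X c (L (R D 26784) 4294967295))) (S M (L (X 2147483648 (A 1 (X c 1))) N)))) N) e) N) (L (X (L (X 171 a) N) (A (A (L (R D 3072) 4294967295) (X c (L (R D 26880) 4294967295))) (S M (L (X 2147483648 (A 1 (X c 1))) N)))) N)) 1) N))) N)) N)) N) N))) (S M (L (L (X (L (X (L (X 34359738368 (A (L (X (L (X (A (L (X (A (L (R D 12384) 4294967295) (X c (L (R D 36192)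 4294967295))) 1) N) (L (X (A (L (R D 12416) 4294967295) (X c (L (R D 36224) 4294967295))) a) N)) (L (X (L (X 86 b) N) (A (L (X (L (X 1048576 (A (L (R D 64) 4294967295) (X c (L (R D 23872) 4294967295)))) N) (P f 2)) N) (L (X (L (X 86 b) N) (A (L (X (L (X 1024 (A (L (R D 96) 4294967295) (X c (L (R D 23904) 4294967295)))) N) f) N) (L (X (L (X 86 b) N) (A (L (R D 128) 4294967295) (X c (L (R D 23936) 4294967295)))) N))) N))) N)) N) (A 0 (S M (L (L (X 12 1) N) N)))) N) (A (L (X (L (X (A (L (X (A (L (R D 12512) 4294967295) (X c (L (R D 36320) 4294967295))) 1) N) (L (X (A (L (R D 12544) 4294967295) (X c (L (R D 36352) 4294967295))) a) N)) (L (X (L (X 86 b) N) (A (L (X (L (X 1048576 (A (L (R D 64) 4294967295) (X c (L (R D 23872) 4294967295)))) N) (P f 2)) N) (L (X (L (X 86 b) N) (A (L (X (L (X 1024 (A (L (R D 96) 4294967295) (X c (L (R D 23904) 4294967295)))) N) f) N) (L (X (L (X 86 b) N) (A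 (L (R D 128) 4294967295) (X c (L (R D 23936) 4294967295)))) N))) N))) N)) N) 1) N) (A (L (X (L (X (A (L (X (A (L (R D 12640) 4294967295) (X c (L (R D 36448) 4294967295))) 1) N) (L (X (A (L (R D 12672) 4294967295) (X c (L (R D 36480) 4294967295))) a) N)) (L (X (L (X 86 b) N) (A (L (X (L (X 1048576 (A (L (R D 64) 4294967295) (X c (L (R D 23872) 4294967295)))) N) (P f 2)) N) (L (X (L (X 86 b) N) (A (L (X (L (X 1024 (A (L (R D 96) 4294967295) (X c (L (R D 23904) 4294967295)))) N) f) N) (L (X (L (X 86 b) N) (A (L (R D 128) 4294967295) (X c (L (R D 23936) 4294967295)))) N))) N))) N)) N) (A 0 (S M (L (L (X 12 1) N) N)))) N) (A (L (X (L (X (A (L (X (A (L (R D 12704) 4294967295) (X c (L (R D 36512) 4294967295))) 1) N) (L (X (A (L (R D 12736) 4294967295) (X c (L (R D 36544) 4294967295))) a) N)) (L (X (L (X 86 b) N) (A (L (X (L (X 1048576 (A (L (R D 64) 4294967295) (X c (L (R D 23872) 4294967295))))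 N) (P f 2)) N) (L (X (L (X 86 b) N) (A (L (X (L (X 1024 (A (L (R D 96) 4294967295) (X c (L (R D 23904) 4294967295)))) N) f) N) (L (X (L (X 86 b) N) (A (L (R D 128) 4294967295) (X c (L (R D 23936) 4294967295)))) N))) N))) N)) N) (A 0 (S M (L (L (X 12 1) N) N)))) N) (A (L (X (L (X (A (L (X (A (L (R D 12832) 4294967295) (X c (L (R D 36640) 4294967295))) 1) N) (L (X (A (L (R D 12864) 4294967295) (X c (L (R D 36672) 4294967295))) a) N)) (L (X (L (X 86 b) N) (A (L (X (L (X 1048576 (A (L (R D 64) 4294967295) (X c (L (R D 23872) 4294967295)))) N) (P f 2)) N) (L (X (L (X 86 b) N) (A (L (X (L (X 1024 (A (L (R D 96) 4294967295) (X c (L (R D 23904) 4294967295)))) N) f) N) (L (X (L (X 86 b) N) (A (L (R D 128) 4294967295) (X c (L (R D 23936) 4294967295)))) N))) N))) N)) N) 1) N) (L (X (L (X (A (L (X (A (L (R D 12960) 4294967295) (X c (L (R D 36768) 4294967295))) 1) N) (L (X (A (L (R D 12992) 4294967295)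 (X c (L (R D 36800) 4294967295))) a) N)) (L (X (L (X 86 b) N) (A (L (X (L (X 1048576 (A (L (R D 64) 4294967295) (X c (L (R D 23872) 4294967295)))) N) (P f 2)) N) (L (X (L (X 86 b) N) (A (L (X (L (X 1024 (A (L (R D 96) 4294967295) (X c (L (R D 23904) 4294967295)))) N) f) N) (L (X (L (X 86 b) N) (A (L (R D 128) 4294967295) (X c (L (R D 23936) 4294967295)))) N))) N))) N)) N) (A 0 (S M (L (L (X 12 1) N) N)))) N))))))) N) (P e 2)) N) g) N) N))), 142, 4, 4, 4, 1⟩,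
  ⟨fun A S X L P R M N m a b c d e f g h D => (A (A (L (X (L (X (L (X 0 (P e 2)) N) (P f 3)) N) (P g 3)) N) (S M (L (L (X (L (X (L (X 86 b) N) (A (L (X (L (X 1048576 (A (L (R D 64) 4294967295) (X c (L (R D 23872) 4294967295)))) N) (P f 2)) N) (L (X (L (X 86 b) N) (A (L (X (L (X 1024 (A (L (R D 96) 4294967295) (X c (L (R D 23904) 4294967295)))) N) f) N) (L (X (L (X 86 b) N) (A (L (R D 128) 4294967295) (X c (L (R D 23936) 4294967295)))) N))) N))) N) (L (X (A (L (X 1 (A (L (R D 160) 4294967295) (X a (A (L (R D 192) 4294967295) (X a (L (R D 224) 4294967295)))))) N) (L (X c (A (L (R D 23968) 4294967295) (X a (A (L (R D 24000) 4294967295) (X a (L (R D 24032) 4294967295)))))) N)) (L (X 1 (A (L (X (A (A (L (R D 3008) 4294967295) (X c (L (R D 26816) 4294967295))) (S M (L (X 2147483648 (A 1 (X c 1))) N))) 1) N) (L (X (A (A (L (R D 3008) 4294967295) (X c (L (R D 26816) 4294967295))) (S M (L (X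 2147483648 (A 1 (X c 1))) N))) 1) N))) N)) N)) N) N))) (S M (L (L (X (L (X (L (X 33554432 (A (L (X (L (X (A (L (X (A (L (R D 12448) 4294967295) (X c (L (R D 36256) 4294967295))) 1) N) (L (X (A (L (R D 12480) 4294967295) (X c (L (R D 36288) 4294967295))) a) N)) (L (X (L (X 86 b) N) (A (L (X (L (X 1048576 (A (L (R D 64) 4294967295) (X c (L (R D 23872) 4294967295)))) N) (P f 2)) N) (L (X (L (X 86 b) N) (A (L (X (L (X 1024 (A (L (R D 96) 4294967295) (X c (L (R D 23904) 4294967295)))) N) f) N) (L (X (L (X 86 b) N) (A (L (R D 128) 4294967295) (X c (L (R D 23936) 4294967295)))) N))) N))) N)) N) (A 0 (S M (L (L (X 12 1) N) N)))) N) (A (L (X (L (X (A (L (X (A (L (R D 12576) 4294967295) (X c (L (R D 36384) 4294967295))) 1) N) (L (X (A (L (R D 12608) 4294967295) (X c (L (R D 36416) 4294967295))) a) N)) (L (X (L (X 86 b) N) (A (L (X (L (X 1048576 (A (L (R D 64) 4294967295) (X c (L (R D 23872) 4294967295))))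 N) (P f 2)) N) (L (X (L (X 86 b) N) (A (L (X (L (X 1024 (A (L (R D 96) 4294967295) (X c (L (R D 23904) 4294967295)))) N) f) N) (L (X (L (X 86 b) N) (A (L (R D 128) 4294967295) (X c (L (R D 23936) 4294967295)))) N))) N))) N)) N) (L (X 2 1) N)) N) (A (L (X (L (X (A (L (X (A (L (R D 12640) 4294967295) (X c (L (R D 36448) 4294967295))) 1) N) (L (X (A (L (R D 12672) 4294967295) (X c (L (R D 36480) 4294967295))) a) N)) (L (X (L (X 86 b) N) (A (L (X (L (X 1048576 (A (L (R D 64) 4294967295) (X c (L (R D 23872) 4294967295)))) N) (P f 2)) N) (L (X (L (X 86 b) N) (A (L (X (L (X 1024 (A (L (R D 96) 4294967295) (X c (L (R D 23904) 4294967295)))) N) f) N) (L (X (L (X 86 b) N) (A (L (R D 128) 4294967295) (X c (L (R D 23936) 4294967295)))) N))) N))) N)) N) (A 0 (S M (L (L (X 24 1) N) N)))) N) (A (L (X (L (X (A (L (X (A (L (R D 12768) 4294967295) (X c (L (R D 36576) 4294967295))) 1) N) (L (X (A (L (R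 D 12800) 4294967295) (X c (L (R D 36608) 4294967295))) a) N)) (L (X (L (X 86 b) N) (A (L (X (L (X 1048576 (A (L (R D 64) 4294967295) (X c (L (R D 23872) 4294967295)))) N) (P f 2)) N) (L (X (L (X 86 b) N) (A (L (X (L (X 1024 (A (L (R D 96) 4294967295) (X c (L (R D 23904) 4294967295)))) N) f) N) (L (X (L (X 86 b) N) (A (L (R D 128) 4294967295) (X c (L (R D 23936) 4294967295)))) N))) N))) N)) N) (A 0 (S M (L (L (X 12 1) N) N)))) N) (A (L (X (L (X (A (L (X (A (L (R D 12896) 4294967295) (X c (L (R D 36704) 4294967295))) 1) N) (L (X (A (L (R D 12928) 4294967295) (X c (L (R D 36736) 4294967295))) a) N)) (L (X (L (X 86 b) N) (A (L (X (L (X 1048576 (A (L (R D 64) 4294967295) (X c (L (R D 23872) 4294967295)))) N) (P f 2)) N) (L (X (L (X 86 b) N) (A (L (X (L (X 1024 (A (L (R D 96) 4294967295) (X c (L (R D 23904) 4294967295)))) N) f) N) (L (X (L (X 86 b) N) (A (L (R D 128) 4294967295) (X c (L (R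 D 23936) 4294967295)))) N))) N))) N)) N) (L (X 2 1) N)) N) (L (X (L (X (A (L (X (A (L (R D 12960) 4294967295) (X c (L (R D 36768) 4294967295))) 1) N) (L (X (A (L (R D 12992) 4294967295) (X c (L (R D 36800) 4294967295))) a) N)) (L (X (L (X 86 b) N) (A (L (X (L (X 1048576 (A (L (R D 64) 4294967295) (X c (L (R D 23872) 4294967295)))) N) (P f 2)) N) (L (X (L (X 86 b) N) (A (L (X (L (X 1024 (A (L (R D 96) 4294967295) (X c (L (R D 23904) 4294967295)))) N) f) N) (L (X (L (X 86 b) N) (A (L (R D 128) 4294967295) (X c (L (R D 23936) 4294967295)))) N))) N))) N)) N) (A 0 (S M (L (L (X 24 1) N) N)))) N))))))) N) e) N) g) N) N))), 131, 3, 4, 4, 1⟩,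
  ⟨fun A S X L P R M N m a b c d e f g h D => (A (A (L (X (L (X (L (X 0 (P e 2)) N) (P f 3)) N) (P g 3)) N) (S M (L (L (X (L (X (L (X 86 b) N) (A (L (X (L (X 1048576 (A (L (R D 64) 4294967295) (X c (L (R D 23872) 4294967295)))) N) (P f 2)) N) (L (X (L (X 86 b) N) (A (L (X (L (X 1024 (A (L (R D 96) 4294967295) (X c (L (R D 23904) 4294967295)))) N) f) N) (L (X (L (X 86 b) N) (A (L (R D 128) 4294967295) (X c (L (R D 23936) 4294967295)))) N))) N))) N) (L (X (A (L (X 1 (A (L (R D 160) 4294967295) (X a (A (L (R D 192) 4294967295) (X a (L (R D 224) 4294967295)))))) N) (L (X c (A (L (R D 23968) 4294967295) (X a (A (L (R D 24000) 4294967295) (X a (L (R D 24032) 4294967295)))))) N)) (L (X 1 (A (L (X (A (A (L (R D 3040) 4294967295) (X c (L (R D 26848) 4294967295))) (S M (L (X 2147483648 (A 1 (X c 1))) N))) 1) N) (L (X (A (A (L (R D 3040) 4294967295) (X c (L (R D 26848) 4294967295))) (S M (L (X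 2147483648 (A 1 (X c 1))) N))) 1) N))) N)) N)) N) N))) (S M (L (L (X (L (X (L (X 33554432 (A (L (X (L (X (A (L (X (A (L (R D 12512) 4294967295) (X c (L (R D 36320) 4294967295))) 1) N) (L (X (A (L (R D 12544) 4294967295) (X c (L (R D 36352) 4294967295))) a) N)) (L (X (L (X 86 b) N) (A (L (X (L (X 1048576 (A (L (R D 64) 4294967295) (X c (L (R D 23872) 4294967295)))) N) (P f 2)) N) (L (X (L (X 86 b) N) (A (L (X (L (X 1024 (A (L (R D 96) 4294967295) (X c (L (R D 23904) 4294967295)))) N) f) N) (L (X (L (X 86 b) N) (A (L (R D 128) 4294967295) (X c (L (R D 23936) 4294967295)))) N))) N))) N)) N) (A 0 (S M (L (L (X 12 1) N) N)))) N) (A (L (X (L (X (A (L (X (A (L (R D 12576) 4294967295) (X c (L (R D 36384) 4294967295))) 1) N) (L (X (A (L (R D 12608) 4294967295) (X c (L (R D 36416) 4294967295))) a) N)) (L (X (L (X 86 b) N) (A (L (X (L (X 1048576 (A (L (R D 64) 4294967295) (X c (L (R D 23872) 4294967295))))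 N) (P f 2)) N) (L (X (L (X 86 b) N) (A (L (X (L (X 1024 (A (L (R D 96) 4294967295) (X c (L (R D 23904) 4294967295)))) N) f) N) (L (X (L (X 86 b) N) (A (L (R D 128) 4294967295) (X c (L (R D 23936) 4294967295)))) N))) N))) N)) N) (A 0 (S M (L (L (X 12 1) N) N)))) N) (A (L (X (L (X (A (L (X (A (L (R D 12640) 4294967295) (X c (L (R D 36448) 4294967295))) 1) N) (L (X (A (L (R D 12672) 4294967295) (X c (L (R D 36480) 4294967295))) a) N)) (L (X (L (X 86 b) N) (A (L (X (L (X 1048576 (A (L (R D 64) 4294967295) (X c (L (R D 23872) 4294967295)))) N) (P f 2)) N) (L (X (L (X 86 b) N) (A (L (X (L (X 1024 (A (L (R D 96) 4294967295) (X c (L (R D 23904) 4294967295)))) N) f) N) (L (X (L (X 86 b) N) (A (L (R D 128) 4294967295) (X c (L (R D 23936) 4294967295)))) N))) N))) N)) N) (L (X 144 1) N)) N) (A (L (X (L (X (A (L (X (A (L (R D 12832) 4294967295) (X c (L (R D 36640) 4294967295))) 1) N) (L (X (A (L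 (R D 12864) 4294967295) (X c (L (R D 36672) 4294967295))) a) N)) (L (X (L (X 86 b) N) (A (L (X (L (X 1048576 (A (L (R D 64) 4294967295) (X c (L (R D 23872) 4294967295)))) N) (P f 2)) N) (L (X (L (X 86 b) N) (A (L (X (L (X 1024 (A (L (R D 96) 4294967295) (X c (L (R D 23904) 4294967295)))) N) f) N) (L (X (L (X 86 b) N) (A (L (R D 128) 4294967295) (X c (L (R D 23936) 4294967295)))) N))) N))) N)) N) (A 0 (S M (L (L (X 12 1) N) N)))) N) (A (L (X (L (X (A (L (X (A (L (R D 12896) 4294967295) (X c (L (R D 36704) 4294967295))) 1) N) (L (X (A (L (R D 12928) 4294967295) (X c (L (R D 36736) 4294967295))) a) N)) (L (X (L (X 86 b) N) (A (L (X (L (X 1048576 (A (L (R D 64) 4294967295) (X c (L (R D 23872) 4294967295)))) N) (P f 2)) N) (L (X (L (X 86 b) N) (A (L (X (L (X 1024 (A (L (R D 96) 4294967295) (X c (L (R D 23904) 4294967295)))) N) f) N) (L (X (L (X 86 b) N) (A (L (R D 128) 4294967295) (X c (L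 (R D 23936) 4294967295)))) N))) N))) N)) N) (A 0 (S M (L (L (X 12 1) N) N)))) N) (L (X (L (X (A (L (X (A (L (R D 12960) 4294967295) (X c (L (R D 36768) 4294967295))) 1) N) (L (X (A (L (R D 12992) 4294967295) (X c (L (R D 36800) 4294967295))) a) N)) (L (X (L (X 86 b) N) (A (L (X (L (X 1048576 (A (L (R D 64) 4294967295) (X c (L (R D 23872) 4294967295)))) N) (P f 2)) N) (L (X (L (X 86 b) N) (A (L (X (L (X 1024 (A (L (R D 96) 4294967295) (X c (L (R D 23904) 4294967295)))) N) f) N) (L (X (L (X 86 b) N) (A (L (R D 128) 4294967295) (X c (L (R D 23936) 4294967295)))) N))) N))) N)) N) (L (X 144 1) N)) N))))))) N) e) N) g) N) N))), 132, 3, 4, 4, 1⟩,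
  ⟨fun A S X L P R M N m a b c d e f g h D => (A (A (L (X (L (X (L (X 0 (P e 3)) N) (P f 5)) N) (P g 3)) N) (S M (L (L (X (L (X (L (X 86 b) N) (A (L (X (L (X 1048576 (A (L (R D 64) 4294967295) (X c (L (R D 23872) 4294967295)))) N) (P f 2)) N) (L (X (L (X 86 b) N) (A (L (X (L (X 1024 (A (L (R D 96) 4294967295) (X c (L (R D 23904) 4294967295)))) N) f) N) (L (X (L (X 86 b) N) (A (L (R D 128) 4294967295) (X c (L (R D 23936) 4294967295)))) N))) N))) N) (L (X (A (L (X 1 (A (L (R D 160) 4294967295) (X a (A (L (R D 192) 4294967295) (X a (L (R D 224) 4294967295)))))) N) (L (X c (A (L (R D 23968) 4294967295) (X a (A (L (R D 24000) 4294967295) (X a (L (R D 24032) 4294967295)))))) N)) (L (X 1 (A (L (X (L (X (A (L (X (L (X 1024 (A (A (L (R D 2976) 4294967295) (X c (L (R D 26784) 4294967295))) (S M (L (X 2147483648 (A 1 (X c 1))) N)))) N) e) N) (L (X (L (X 171 a) N) (A (A (L (R D 3072) 4294967295)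 (X c (L (R D 26880) 4294967295))) (S M (L (X 2147483648 (A 1 (X c 1))) N)))) N)) (L (X 86 b) N)) N) f) N) (L (X (L (X (A (A (L (R D 3040) 4294967295) (X c (L (R D 26848) 4294967295))) (S M (L (X 2147483648 (A 1 (X c 1))) N))) (L (X (L (X 86 b) N) (L (X 86 b) N)) N)) N) e) N))) N)) N)) N) N))) (S M (L (L (X (L (X (L (X 33554432 (A (L (X (L (X 1024 (L (X (L (X (A (L (X (A (L (R D 12704) 4294967295) (X c (L (R D 36512) 4294967295))) 1) N) (L (X (A (L (R D 12736) 4294967295) (X c (L (R D 36544) 4294967295))) a) N)) (L (X (L (X 86 b) N) (A (L (X (L (X 1048576 (A (L (R D 64) 4294967295) (X c (L (R D 23872) 4294967295)))) N) (P f 2)) N) (L (X (L (X 86 b) N) (A (L (X (L (X 1024 (A (L (R D 96) 4294967295) (X c (L (R D 23904) 4294967295)))) N) f) N) (L (X (L (X 86 b) N) (A (L (R D 128) 4294967295) (X c (L (R D 23936) 4294967295)))) N))) N))) N)) N) (A (L (X 0 f) N) (S M (L (L (X 12 (L (X 86 b)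 N)) N) N)))) N)) N) f) N) (A (L (X (L (X (A (L (X (A (L (R D 12832) 4294967295) (X c (L (R D 36640) 4294967295))) 1) N) (L (X (A (L (R D 12864) 4294967295) (X c (L (R D 36672) 4294967295))) a) N)) (L (X (L (X 86 b) N) (A (L (X (L (X 1048576 (A (L (R D 64) 4294967295) (X c (L (R D 23872) 4294967295)))) N) (P f 2)) N) (L (X (L (X 86 b) N) (A (L (X (L (X 1024 (A (L (R D 96) 4294967295) (X c (L (R D 23904) 4294967295)))) N) f) N) (L (X (L (X 86 b) N) (A (L (R D 128) 4294967295) (X c (L (R D 23936) 4294967295)))) N))) N))) N)) N) (A (L (X (L (X 1024 (L (X 86 b) N)) N) f) N) (S M (L (L (X 12 (L (X (L (X 86 b) N) (L (X 86 b) N)) N)) N) N)))) N) (A (L (X (L (X (A (L (X (A (L (R D 12896) 4294967295) (X c (L (R D 36704) 4294967295))) 1) N) (L (X (A (L (R D 12928) 4294967295) (X c (L (R D 36736) 4294967295))) a) N)) (L (X (L (X 86 b) N) (A (L (X (L (X 1048576 (A (L (R D 64) 4294967295) (X c (L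 (R D 23872) 4294967295)))) N) (P f 2)) N) (L (X (L (X 86 b) N) (A (L (X (L (X 1024 (A (L (R D 96) 4294967295) (X c (L (R D 23904) 4294967295)))) N) f) N) (L (X (L (X 86 b) N) (A (L (R D 128) 4294967295) (X c (L (R D 23936) 4294967295)))) N))) N))) N)) N) (A (L (X 0 (P f 2)) N) (S M (L (L (X 12 (L (X (L (X 86 b) N) (L (X 86 b) N)) N)) N) N)))) N) (A (L (X (L (X (A (L (X (A (L (R D 12960) 4294967295) (X c (L (R D 36768) 4294967295))) 1) N) (L (X (A (L (R D 12992) 4294967295) (X c (L (R D 36800) 4294967295))) a) N)) (L (X (L (X 86 b) N) (A (L (X (L (X 1048576 (A (L (R D 64) 4294967295) (X c (L (R D 23872) 4294967295)))) N) (P f 2)) N) (L (X (L (X 86 b) N) (A (L (X (L (X 1024 (A (L (R D 96) 4294967295) (X c (L (R D 23904) 4294967295)))) N) f) N) (L (X (L (X 86 b) N) (A (L (R D 128) 4294967295) (X c (L (R D 23936) 4294967295)))) N))) N))) N)) N) (A (L (X 144 (L (X (L (X 86 b) N) (L (X 86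 b) N)) N)) N) (S M (L (L (X (L (X 1024 (L (X 12 (L (X 86 b) N)) N)) N) f) N) N)))) N) (L (X (L (X 1048576 (L (X (L (X (A (L (X (A (L (R D 13024) 4294967295) (X c (L (R D 36832) 4294967295))) 1) N) (L (X (A (L (R D 13056) 4294967295) (X c (L (R D 36864) 4294967295))) a) N)) (L (X (L (X 86 b) N) (A (L (X (L (X 1048576 (A (L (R D 64) 4294967295) (X c (L (R D 23872) 4294967295)))) N) (P f 2)) N) (L (X (L (X 86 b) N) (A (L (X (L (X 1024 (A (L (R D 96) 4294967295) (X c (L (R D 23904) 4294967295)))) N) f) N) (L (X (L (X 86 b) N) (A (L (R D 128) 4294967295) (X c (L (R D 23936) 4294967295)))) N))) N))) N)) N) (A 0 (S M (L (L (X 12 1) N) N)))) N)) N) (P f 2)) N)))))) N) (P e 2)) N) g) N) N))), 150, 4, 6, 4, 1⟩,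
  ⟨fun A S X L P R M N m a b c d e f g h D => (A (L (X (A (L (X (L (X (L (X 16777216 (A (L (X (L (X 1024 (L (X (A (A (L (R D 2144) 4294967295) (X c (L (R D 25952) 4294967295))) (S M (L (X 2147483648 (A 1 (X c 1))) N))) (A (L (X (L (X 767 e) N) f) N) (A (L (X (L (X 171 1) N) f) N) (L (X (L (X 86 1) N) e) N)))) N)) N) e) N) (L (X (A (A (L (R D 2176) 4294967295) (X c (L (R D 25984) 4294967295))) (S M (L (X 2147483648 (A 1 (X c 1))) N))) (L (X (L (X 171 a) N) (A (L (X (L (X 767 e) N) f) N) (A (L (X (L (X 171 1) N) f) N) (L (X (L (X 86 1) N) e) N)))) N)) N))) N) e) N) g) N) (S M (L (A (L (X 1024 (A (L (X (L (X (L (X 16777216 (L (X (A (A (L (R D 4448) 4294967295) (X c (L (R D 28256) 4294967295))) (S M (L (X 2147483648 (A 1 (X c 1))) N))) (A (L (X (L (X 767 e) N) f) N) (A (L (X (L (X 171 1) N) f) N) (L (X (L (X 86 1) N) e) N)))) N)) N) (P e 2)) N) g) N) (L (X (A (A (L (X 1 (A (L (R D 160) 4294967295)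 (X a (A (L (R D 192) 4294967295) (X a (L (R D 224) 4294967295)))))) N) (L (X c (A (L (R D 23968) 4294967295) (X a (A (L (R D 24000) 4294967295) (X a (L (R D 24032) 4294967295)))))) N)) (S M (L (L (X (L (X (L (X 16777216 1) N) (P e 2)) N) g) N) N))) (L (X (A (A (L (R D 4576) 4294967295) (X c (L (R D 28384) 4294967295))) (S M (L (X 2147483648 (A 1 (X c 1))) N))) (A (L (X (L (X 767 e) N) f) N) (A (L (X (L (X 171 1) N) f) N) (L (X (L (X 86 1) N) e) N)))) N)) N))) N) (L (X (A (A (L (X (A (L (R D 1504) 4294967295) (X c (L (R D 25312) 4294967295))) (A (L (X (L (X 1024 (L (X (A (A (L (R D 1760) 4294967295) (X c (L (R D 25568) 4294967295))) (S M (L (X 2147483648 (A 1 (X c 1))) N))) (A (L (X (L (X 767 e) N) f) N) (A (L (X (L (X 171 1) N) f) N) (L (X (L (X 86 1) N) e) N)))) N)) N) e) N) (L (X (A (A (L (R D 1792) 4294967295) (X c (L (R D 25600) 4294967295))) (S M (L (X 2147483648 (A 1 (X c 1)))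 N))) (L (X (L (X 171 a) N) (A (L (X (L (X 767 e) N) f) N) (A (L (X (L (X 171 1) N) f) N) (L (X (L (X 86 1) N) e) N)))) N)) N))) N) (L (X (A (L (R D 1632) 4294967295) (X c (L (R D 25440) 4294967295))) (A (L (X (L (X 1024 (L (X (A (A (L (R D 2912) 4294967295) (X c (L (R D 26720) 4294967295))) (S M (L (X 2147483648 (A 1 (X c 1))) N))) (A (L (X (L (X 767 e) N) f) N) (A (L (X (L (X 171 1) N) f) N) (L (X (L (X 86 1) N) e) N)))) N)) N) e) N) (L (X (A (A (L (R D 2944) 4294967295) (X c (L (R D 26752) 4294967295))) (S M (L (X 2147483648 (A 1 (X c 1))) N))) (L (X (L (X 171 a) N) (A (L (X (L (X 767 e) N) f) N) (A (L (X (L (X 171 1) N) f) N) (L (X (L (X 86 1) N) e) N)))) N)) N))) N)) (A (L (X (A (L (R D 1536) 4294967295) (X c (L (R D 25344) 4294967295))) (A (L (X (L (X 1024 (L (X (A (A (L (R D 2336) 4294967295) (X c (L (R D 26144) 4294967295))) (S M (L (X 2147483648 (A 1 (X c 1))) N))) (A (L (X (L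 (X 767 e) N) f) N) (A (L (X (L (X 171 1) N) f) N) (L (X (L (X 86 1) N) e) N)))) N)) N) e) N) (L (X (A (A (L (R D 2368) 4294967295) (X c (L (R D 26176) 4294967295))) (S M (L (X 2147483648 (A 1 (X c 1))) N))) (L (X (L (X 171 a) N) (A (L (X (L (X 767 e) N) f) N) (A (L (X (L (X 171 1) N) f) N) (L (X (L (X 86 1) N) e) N)))) N)) N))) N) (L (X (A (L (R D 1664) 4294967295) (X c (L (R D 25472) 4294967295))) (A (L (X (L (X 1024 (L (X (A (A (L (R D 3488) 4294967295) (X c (L (R D 27296) 4294967295))) (S M (L (X 2147483648 (A 1 (X c 1))) N))) (A (L (X (L (X 767 e) N) f) N) (A (L (X (L (X 171 1) N) f) N) (L (X (L (X 86 1) N) e) N)))) N)) N) e) N) (L (X (A (A (L (R D 3520) 4294967295) (X c (L (R D 27328) 4294967295))) (S M (L (X 2147483648 (A 1 (X c 1))) N))) (L (X (L (X 171 a) N) (A (L (X (L (X 767 e) N) f) N) (A (L (X (L (X 171 1) N) f) N) (L (X (L (X 86 1) N) e) N)))) N)) N))) N))) e) N)) N))) f)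 N) (S M (L (L (X (L (X (L (X 16777216 (A (L (X (L (X 1024 (L (X (A (L (X (A (L (R D 13088) 4294967295) (X c (L (R D 36896) 4294967295))) 1) N) (L (X (A (L (R D 13120) 4294967295) (X c (L (R D 36928) 4294967295))) a) N)) (L (X 2 (A (L (X (L (X 767 e) N) f) N) (A (L (X (L (X 171 1) N) f) N) (L (X (L (X 86 1) N) e) N)))) N)) N)) N) f) N) (A (L (X (L (X 1024 (L (X (A (L (X (A (L (R D 13152) 4294967295) (X c (L (R D 36960) 4294967295))) 1) N) (L (X (A (L (R D 13184) 4294967295) (X c (L (R D 36992) 4294967295))) a) N)) (A (L (X (L (X 767 e) N) f) N) (A (L (X (L (X 171 1) N) f) N) (L (X (L (X 86 1) N) e) N)))) N)) N) f) N) (A (L (X (L (X 1024 (L (X (A (L (X (A (L (R D 13344) 4294967295) (X c (L (R D 37152) 4294967295))) 1) N) (L (X (A (L (R D 13376) 4294967295) (X c (L (R D 37184) 4294967295))) a) N)) (L (X 2 (A (L (X (L (X 767 e) N) f) N) (A (L (X (L (X 171 1) N) f) N) (L (X (L (X 86 1) N)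 e) N)))) N)) N)) N) f) N) (A (L (X (L (X 1024 (L (X (A (L (X (A (L (R D 13408) 4294967295) (X c (L (R D 37216) 4294967295))) 1) N) (L (X (A (L (R D 13440) 4294967295) (X c (L (R D 37248) 4294967295))) a) N)) (L (X 2 (A (L (X 853 e) N) (L (X 171 1) N))) N)) N)) N) (P f 2)) N) (A (L (X (A (L (X (A (L (R D 13472) 4294967295) (X c (L (R D 37280) 4294967295))) 1) N) (L (X (A (L (R D 13504) 4294967295) (X c (L (R D 37312) 4294967295))) a) N)) (A (L (X (L (X 1024 (A (L (X 853 e) N) (L (X 171 1) N))) N) (P f 2)) N) (S M (L (L (X (L (X 12 (L (X (L (X 86 b) N) (L (X 86 b) N)) N)) N) e) N) N)))) N) (A (L (X (L (X (A (L (X (A (L (R D 13600) 4294967295) (X c (L (R D 37408) 4294967295))) 1) N) (L (X (A (L (R D 13632) 4294967295) (X c (L (R D 37440) 4294967295))) a) N)) (L (X 2 (L (X (L (X 86 b) N) (L (X 86 b) N)) N)) N)) N) e) N) (A (L (X (A (L (X (A (L (R D 13664) 4294967295) (X c (L (R D 37472)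 4294967295))) 1) N) (L (X (A (L (R D 13696) 4294967295) (X c (L (R D 37504) 4294967295))) a) N)) (A (L (X (L (X 1024 (L (X 2 (A (L (X 853 e) N) (L (X 171 1) N))) N)) N) (P f 2)) N) (S M (L (L (X (L (X 24 (L (X (L (X 86 b) N) (L (X 86 b) N)) N)) N) e) N) N)))) N) (L (X (L (X (L (X 1048576 (L (X (A (L (X (A (L (R D 13728) 4294967295) (X c (L (R D 37536) 4294967295))) 1) N) (L (X (A (L (R D 13760) 4294967295) (X c (L (R D 37568) 4294967295))) a) N)) 2) N)) N) e) N) (P f 2)) N))))))))) N) e) N) g) N) N))), 94, 4, 3, 3, 1⟩,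
  ⟨fun A S X L P R M N m a b c d e f g h D => (A (A (L (X (L (X (L (X 16777216 (L (X (A (L (X (L (X 1024 (A (A (L (R D 2208) 4294967295) (X c (L (R D 26016) 4294967295))) (S M (L (X 2147483648 (A 1 (X c 1))) N)))) N) e) N) (L (X (L (X 171 a) N) (A (A (L (R D 2304) 4294967295) (X c (L (R D 26112) 4294967295))) (S M (L (X 2147483648 (A 1 (X c 1))) N)))) N)) 1) N)) N) e) N) g) N) (S M (L (A (L (X 1024 (A (L (X (L (X (L (X 16777216 (L (X (A (A (L (R D 4480) 4294967295) (X c (L (R D 28288) 4294967295))) (S M (L (X 2147483648 (A 1 (X c 1))) N))) 1) N)) N) (P e 2)) N) g) N) (L (X (A (A (L (X 1 (A (L (R D 160) 4294967295) (X a (A (L (R D 192) 4294967295) (X a (L (R D 224) 4294967295)))))) N) (L (X c (A (L (R D 23968) 4294967295) (X a (A (L (R D 24000) 4294967295) (X a (L (R D 24032) 4294967295)))))) N)) (S M (L (L (X (L (X (L (X 16777216 1) N) (P e 2)) N) g) N) N))) (L (X (A (A (L (R D 4608)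 4294967295) (X c (L (R D 28416) 4294967295))) (S M (L (X 2147483648 (A 1 (X c 1))) N))) 1) N)) N))) N) (L (X (A (A (L (X (A (L (R D 1504) 4294967295) (X c (L (R D 25312) 4294967295))) (L (X (A (L (X (L (X 1024 (A (A (L (R D 1824) 4294967295) (X c (L (R D 25632) 4294967295))) (S M (L (X 2147483648 (A 1 (X c 1))) N)))) N) e) N) (L (X (L (X 171 a) N) (A (A (L (R D 1920) 4294967295) (X c (L (R D 25728) 4294967295))) (S M (L (X 2147483648 (A 1 (X c 1))) N)))) N)) 1) N)) N) (L (X (A (L (R D 1632) 4294967295) (X c (L (R D 25440) 4294967295))) (L (X (A (L (X (L (X 1024 (A (A (L (R D 2976) 4294967295) (X c (L (R D 26784) 4294967295))) (S M (L (X 2147483648 (A 1 (X c 1))) N)))) N) e) N) (L (X (L (X 171 a) N) (A (A (L (R D 3072) 4294967295) (X c (L (R D 26880) 4294967295))) (S M (L (X 2147483648 (A 1 (X c 1))) N)))) N)) 1) N)) N)) (A (L (X (A (L (R D 1536) 4294967295) (X c (L (R D 25344) 4294967295)))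 (L (X (A (L (X (L (X 1024 (A (A (L (R D 2400) 4294967295) (X c (L (R D 26208) 4294967295))) (S M (L (X 2147483648 (A 1 (X c 1))) N)))) N) e) N) (L (X (L (X 171 a) N) (A (A (L (R D 2496) 4294967295) (X c (L (R D 26304) 4294967295))) (S M (L (X 2147483648 (A 1 (X c 1))) N)))) N)) 1) N)) N) (L (X (A (L (R D 1664) 4294967295) (X c (L (R D 25472) 4294967295))) (L (X (A (L (X (L (X 1024 (A (A (L (R D 3552) 4294967295) (X c (L (R D 27360) 4294967295))) (S M (L (X 2147483648 (A 1 (X c 1))) N)))) N) e) N) (L (X (L (X 171 a) N) (A (A (L (R D 3648) 4294967295) (X c (L (R D 27456) 4294967295))) (S M (L (X 2147483648 (A 1 (X c 1))) N)))) N)) 1) N)) N))) e) N)) N))) (S M (L (L (X (L (X (L (X 17179869184 (A (L (X (A (L (X (A (L (R D 13088) 4294967295) (X c (L (R D 36896) 4294967295))) 1) N) (L (X (A (L (R D 13120) 4294967295) (X c (L (R D 36928) 4294967295))) a) N)) (A 0 (S M (L (L (X 12 1) N) N))))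 N) (A (L (X (A (L (X (A (L (R D 13216) 4294967295) (X c (L (R D 37024) 4294967295))) 1) N) (L (X (A (L (R D 13248) 4294967295) (X c (L (R D 37056) 4294967295))) a) N)) 1) N) (A (L (X (A (L (X (A (L (R D 13344) 4294967295) (X c (L (R D 37152) 4294967295))) 1) N) (L (X (A (L (R D 13376) 4294967295) (X c (L (R D 37184) 4294967295))) a) N)) (A 0 (S M (L (L (X 12 1) N) N)))) N) (A (L (X (A (L (X (A (L (R D 13408) 4294967295) (X c (L (R D 37216) 4294967295))) 1) N) (L (X (A (L (R D 13440) 4294967295) (X c (L (R D 37248) 4294967295))) a) N)) (A 0 (S M (L (L (X 12 1) N) N)))) N) (A (L (X (A (L (X (A (L (R D 13536) 4294967295) (X c (L (R D 37344) 4294967295))) 1) N) (L (X (A (L (R D 13568) 4294967295) (X c (L (R D 37376) 4294967295))) a) N)) 1) N) (L (X (A (L (X (A (L (R D 13664) 4294967295) (X c (L (R D 37472) 4294967295))) 1) N) (L (X (A (L (R D 13696) 4294967295) (X c (L (R D 37504) 4294967295)))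 a) N)) (A 0 (S M (L (L (X 12 1) N) N)))) N))))))) N) e) N) g) N) N))), 81, 3, 1, 3, 1⟩,
  ⟨fun A S X L P R M N m a b c d e f g h D => (A (A (L (X (L (X (L (X 16777216 (L (X (A (A (L (R D 2240) 4294967295) (X c (L (R D 26048) 4294967295))) (S M (L (X 2147483648 (A 1 (X c 1))) N))) 1) N)) N) (P e 2)) N) g) N) (S M (L (A (A (L (X (L (X (L (X 16777216 (L (X (A (A (L (R D 4512) 4294967295) (X c (L (R D 28320) 4294967295))) (S M (L (X 2147483648 (A 1 (X c 1))) N))) 1) N)) N) (P e 2)) N) g) N) (L (X (A (A (L (X 1 (A (L (R D 160) 4294967295) (X a (A (L (R D 192) 4294967295) (X a (L (R D 224) 4294967295)))))) N) (L (X c (A (L (R D 23968) 4294967295) (X a (A (L (R D 24000) 4294967295) (X a (L (R D 24032) 4294967295)))))) N)) (S M (L (L (X (L (X (L (X 16777216 1) N) (P e 2)) N) g) N) N))) (L (X (A (A (L (R D 4640) 4294967295) (X c (L (R D 28448) 4294967295))) (S M (L (X 2147483648 (A 1 (X c 1)))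 N))) 1) N)) N)) (L (X (A (A (L (X (A (L (R D 1504) 4294967295) (X c (L (R D 25312) 4294967295))) (L (X (A (A (L (R D 1856) 4294967295) (X c (L (R D 25664) 4294967295))) (S M (L (X 2147483648 (A 1 (X c 1))) N))) 1) N)) N) (L (X (A (L (R D 1632) 4294967295) (X c (L (R D 25440) 4294967295))) (L (X (A (A (L (R D 3008) 4294967295) (X c (L (R D 26816) 4294967295))) (S M (L (X 2147483648 (A 1 (X c 1))) N))) 1) N)) N)) (A (L (X (A (L (R D 1536) 4294967295) (X c (L (R D 25344) 4294967295))) (L (X (A (A (L (R D 2432) 4294967295) (X c (L (R D 26240) 4294967295))) (S M (L (X 2147483648 (A 1 (X c 1))) N))) 1) N)) N) (L (X (A (L (R D 1664) 4294967295) (X c (L (R D 25472) 4294967295))) (L (X (A (A (L (R D 3584) 4294967295) (X c (L (R D 27392) 4294967295))) (S M (L (X 2147483648 (A 1 (X c 1))) N))) 1) N)) N))) (P e 2)) N)) N))) (S M (L (L (X (L (X (L (X 16777216 (A (L (X (A (L (X (A (L (R D 13152) 4294967295)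 (X c (L (R D 36960) 4294967295))) 1) N) (L (X (A (L (R D 13184) 4294967295) (X c (L (R D 36992) 4294967295))) a) N)) (A 0 (S M (L (L (X 12 1) N) N)))) N) (A (L (X (A (L (X (A (L (R D 13280) 4294967295) (X c (L (R D 37088) 4294967295))) 1) N) (L (X (A (L (R D 13312) 4294967295) (X c (L (R D 37120) 4294967295))) a) N)) (L (X 2 1) N)) N) (A (L (X (A (L (X (A (L (R D 13344) 4294967295) (X c (L (R D 37152) 4294967295))) 1) N) (L (X (A (L (R D 13376) 4294967295) (X c (L (R D 37184) 4294967295))) a) N)) (A 0 (S M (L (L (X 24 1) N) N)))) N) (A (L (X (A (L (X (A (L (R D 13472) 4294967295) (X c (L (R D 37280) 4294967295))) 1) N) (L (X (A (L (R D 13504) 4294967295) (X c (L (R D 37312) 4294967295))) a) N)) (A 0 (S M (L (L (X 12 1) N) N)))) N) (A (L (X (A (L (X (A (L (R D 13600) 4294967295) (X c (L (R D 37408) 4294967295))) 1) N) (L (X (A (L (R D 13632) 4294967295) (X c (L (R D 37440) 4294967295)))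 a) N)) (L (X 2 1) N)) N) (L (X (A (L (X (A (L (R D 13664) 4294967295) (X c (L (R D 37472) 4294967295))) 1) N) (L (X (A (L (R D 13696) 4294967295) (X c (L (R D 37504) 4294967295))) a) N)) (A 0 (S M (L (L (X 24 1) N) N)))) N))))))) N) e) N) g) N) N))), 71, 3, 1, 3, 1⟩,
  ⟨fun A S X L P R M N m a b c d e f g h D => (A (A (L (X (L (X (L (X 16777216 (L (X (A (A (L (R D 2272) 4294967295) (X c (L (R D 26080) 4294967295))) (S M (L (X 2147483648 (A 1 (X c 1))) N))) 1) N)) N) (P e 2)) N) g) N) (S M (L (A (A (L (X (L (X (L (X 16777216 (L (X (A (A (L (R D 4544) 4294967295) (X c (L (R D 28352) 4294967295))) (S M (L (X 2147483648 (A 1 (X c 1))) N))) 1) N)) N) (P e 2)) N) g) N) (L (X (A (A (L (X 1 (A (L (R D 160) 4294967295) (X a (A (L (R D 192) 4294967295) (X a (L (R D 224) 4294967295)))))) N) (L (X c (A (L (R D 23968) 4294967295) (X a (A (L (R D 24000) 4294967295) (X a (L (R D 24032) 4294967295))))))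 N)) (S M (L (L (X (L (X (L (X 16777216 1) N) (P e 2)) N) g) N) N))) (L (X (A (A (L (R D 4672) 4294967295) (X c (L (R D 28480) 4294967295))) (S M (L (X 2147483648 (A 1 (X c 1))) N))) 1) N)) N)) (L (X (A (A (L (X (A (L (R D 1504) 4294967295) (X c (L (R D 25312) 4294967295))) (L (X (A (A (L (R D 1888) 4294967295) (X c (L (R D 25696) 4294967295))) (S M (L (X 2147483648 (A 1 (X c 1))) N))) 1) N)) N) (L (X (A (L (R D 1632) 4294967295) (X c (L (R D 25440) 4294967295))) (L (X (A (A (L (R D 3040) 4294967295) (X c (L (R D 26848) 4294967295))) (S M (L (X 2147483648 (A 1 (X c 1))) N))) 1) N)) N)) (A (L (X (A (L (R D 1536) 4294967295) (X c (L (R D 25344) 4294967295))) (L (X (A (A (L (R D 2464) 4294967295) (X c (L (R D 26272) 4294967295))) (S M (L (X 2147483648 (A 1 (X c 1))) N))) 1) N)) N) (L (X (A (L (R D 1664) 4294967295) (X c (L (R D 25472) 4294967295))) (L (X (A (A (L (R D 3616) 4294967295) (X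 c (L (R D 27424) 4294967295))) (S M (L (X 2147483648 (A 1 (X c 1))) N))) 1) N)) N))) (P e 2)) N)) N))) (S M (L (L (X (L (X (L (X 16777216 (A (L (X (A (L (X (A (L (R D 13216) 4294967295) (X c (L (R D 37024) 4294967295))) 1) N) (L (X (A (L (R D 13248) 4294967295) (X c (L (R D 37056) 4294967295))) a) N)) (A 0 (S M (L (L (X 12 1) N) N)))) N) (A (L (X (A (L (X (A (L (R D 13280) 4294967295) (X c (L (R D 37088) 4294967295))) 1) N) (L (X (A (L (R D 13312) 4294967295) (X c (L (R D 37120) 4294967295))) a) N)) (A 0 (S M (L (L (X 12 1) N) N)))) N) (A (L (X (A (L (X (A (L (R D 13344) 4294967295) (X c (L (R D 37152) 4294967295))) 1) N) (L (X (A (L (R D 13376) 4294967295) (X c (L (R D 37184) 4294967295))) a) N)) (L (X 144 1) N)) N) (A (L (X (A (L (X (A (L (R D 13536) 4294967295) (X c (L (R D 37344) 4294967295))) 1) N) (L (X (A (L (R D 13568) 4294967295) (X c (L (R D 37376) 4294967295))) a) N)) (A 0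 (S M (L (L (X 12 1) N) N)))) N) (A (L (X (A (L (X (A (L (R D 13600) 4294967295) (X c (L (R D 37408) 4294967295))) 1) N) (L (X (A (L (R D 13632) 4294967295) (X c (L (R D 37440) 4294967295))) a) N)) (A 0 (S M (L (L (X 12 1) N) N)))) N) (L (X (A (L (X (A (L (R D 13664) 4294967295) (X c (L (R D 37472) 4294967295))) 1) N) (L (X (A (L (R D 13696) 4294967295) (X c (L (R D 37504) 4294967295))) a) N)) (L (X 144 1) N)) N))))))) N) e) N) g) N) N))), 71, 3, 1, 3, 1⟩,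
  ⟨fun A S X L P R M N m a b c d e f g h D => (A (L (X (L (X (L (X 0 e) N) (P f 2)) N) g) N) (S M (L (A (L (X (L (X 1024 (L (X (A (L (X (A (L (R D 13408) 4294967295) (X c (L (R D 37216) 4294967295))) 1) N) (L (X (A (L (R D 13440) 4294967295) (X c (L (R D 37248) 4294967295))) a) N)) (A (L (X 0 f) N) (S M (L (L (X 12 (L (X 86 b) N)) N) N)))) N)) N) f) N) (A (L (X (A (L (X (A (L (R D 13536) 4294967295) (X c (L (R D 37344) 4294967295))) 1) N) (L (X (A (L (R D 13568) 4294967295) (X c (L (R D 37376) 4294967295))) a) N)) (A (L (X (L (X 1024 (L (X 86 b) N)) N) f) N) (S M (L (L (X 12 (L (X (L (X 86 b) N) (L (X 86 b) N)) N)) N) N)))) N) (A (L (X (A (L (X (A (L (R D 13600) 4294967295) (X c (L (R D 37408) 4294967295))) 1) N) (L (X (A (L (R D 13632) 4294967295) (X c (L (R D 37440) 4294967295))) a) N)) (A (L (X 0 (P f 2)) N) (S M (L (L (X 12 (L (X (L (X 86 b) N) (L (X 86 b) N)) N)) N) N)))) N) (A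 (L (X (A (L (X (A (L (R D 13664) 4294967295) (X c (L (R D 37472) 4294967295))) 1) N) (L (X (A (L (R D 13696) 4294967295) (X c (L (R D 37504) 4294967295))) a) N)) (A (L (X 144 (L (X (L (X 86 b) N) (L (X 86 b) N)) N)) N) (S M (L (L (X (L (X 1024 (L (X 12 (L (X 86 b) N)) N)) N) f) N) N)))) N) (L (X (L (X 1048576 (L (X (A (L (X (A (L (R D 13728) 4294967295) (X c (L (R D 37536) 4294967295))) 1) N) (L (X (A (L (R D 13760) 4294967295) (X c (L (R D 37568) 4294967295))) a) N)) (A 0 (S M (L (L (X 12 1) N) N)))) N)) N) (P f 2)) N))))) N))), 60, 2, 3, 2, 1⟩,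
  ⟨fun A S X L P R M N m a b c d e f g h D => (A (L (X (A (L (X (L (X (L (X 16777216 (A (L (X (L (X 1024 (L (X (A (A (L (R D 3296) 4294967295) (X c (L (R D 27104) 4294967295))) (S M (L (X 2147483648 (A 1 (X c 1))) N))) (A (L (X (L (X 767 e) N) f) N) (A (L (X (L (X 171 1) N) f) N) (L (X (L (X 86 1) N) e) N)))) N)) N) e) N) (L (X (A (A (L (R D 3328) 4294967295) (X c (L (R D 27136) 4294967295))) (S M (L (X 2147483648 (A 1 (X c 1))) N))) (L (X (L (X 171 a) N) (A (L (X (L (X 767 e) N) f) N) (A (L (X (L (X 171 1) N) f) N) (L (X (L (X 86 1) N) e) N)))) N)) N))) N) e) N) g) N) (S M (L (A (L (X 1024 (A (A (L (X (L (X (L (X 16777216 (L (X (A (A (L (R D 4704) 4294967295) (X c (L (R D 28512) 4294967295))) (S M (L (X 2147483648 (A 1 (X c 1))) N))) (A (L (X (L (X 767 e) N) f) N) (A (L (X (L (X 171 1) N) f) N) (L (X (L (X 86 1) N) e) N)))) N)) N) (P e 2)) N) g) N) (L (X (A (L (X 1 (A (L (R D 1312)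 4294967295) (X a (A (L (R D 1344) 4294967295) (X a (L (R D 1376) 4294967295)))))) N) (L (X c (A (L (R D 25120) 4294967295) (X a (A (L (R D 25152) 4294967295) (X a (L (R D 25184) 4294967295)))))) N)) (L (X (A (A (L (R D 4832) 4294967295) (X c (L (R D 28640) 4294967295))) (S M (L (X 2147483648 (A 1 (X c 1))) N))) (A (L (X (L (X 767 e) N) f) N) (A (L (X (L (X 171 1) N) f) N) (L (X (L (X 86 1) N) e) N)))) N)) N)) (L (X (A (A (L (X 1 (A (L (R D 160) 4294967295) (X a (A (L (R D 192) 4294967295) (X a (L (R D 224) 4294967295)))))) N) (L (X c (A (L (R D 23968) 4294967295) (X a (A (L (R D 24000) 4294967295) (X a (L (R D 24032) 4294967295)))))) N)) (S M (L (L (X (L (X (L (X 16777216 1) N) (P e 2)) N) g) N) N))) (L (X (A (A (L (R D 4960) 4294967295) (X c (L (R D 28768) 4294967295))) (S M (L (X 2147483648 (A 1 (X c 1))) N))) (A (L (X (L (X 767 e) N) f) N) (A (L (X (L (X 171 1) N) f) N) (L (X (L (X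 86 1) N) e) N)))) N)) N))) N) (L (X (A (A (L (X (A (L (R D 1504) 4294967295) (X c (L (R D 25312) 4294967295))) (A (L (X (L (X 1024 (L (X (A (A (L (R D 2912) 4294967295) (X c (L (R D 26720) 4294967295))) (S M (L (X 2147483648 (A 1 (X c 1))) N))) (A (L (X (L (X 767 e) N) f) N) (A (L (X (L (X 171 1) N) f) N) (L (X (L (X 86 1) N) e) N)))) N)) N) e) N) (L (X (A (A (L (R D 2944) 4294967295) (X c (L (R D 26752) 4294967295))) (S M (L (X 2147483648 (A 1 (X c 1))) N))) (L (X (L (X 171 a) N) (A (L (X (L (X 767 e) N) f) N) (A (L (X (L (X 171 1) N) f) N) (L (X (L (X 86 1) N) e) N)))) N)) N))) N) (L (X (A (L (R D 1632) 4294967295) (X c (L (R D 25440) 4294967295))) (A (L (X (L (X 1024 (L (X (A (A (L (R D 1760) 4294967295) (X c (L (R D 25568) 4294967295))) (S M (L (X 2147483648 (A 1 (X c 1))) N))) (A (L (X (L (X 767 e) N) f) N) (A (L (X (L (X 171 1) N) f) N) (L (X (L (X 86 1) N) e) N)))) N)) N) e) N)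 (L (X (A (A (L (R D 1792) 4294967295) (X c (L (R D 25600) 4294967295))) (S M (L (X 2147483648 (A 1 (X c 1))) N))) (L (X (L (X 171 a) N) (A (L (X (L (X 767 e) N) f) N) (A (L (X (L (X 171 1) N) f) N) (L (X (L (X 86 1) N) e) N)))) N)) N))) N)) (A (L (X (A (L (R D 1536) 4294967295) (X c (L (R D 25344) 4294967295))) (A (L (X (L (X 1024 (L (X (A (A (L (R D 3488) 4294967295) (X c (L (R D 27296) 4294967295))) (S M (L (X 2147483648 (A 1 (X c 1))) N))) (A (L (X (L (X 767 e) N) f) N) (A (L (X (L (X 171 1) N) f) N) (L (X (L (X 86 1) N) e) N)))) N)) N) e) N) (L (X (A (A (L (R D 3520) 4294967295) (X c (L (R D 27328) 4294967295))) (S M (L (X 2147483648 (A 1 (X c 1))) N))) (L (X (L (X 171 a) N) (A (L (X (L (X 767 e) N) f) N) (A (L (X (L (X 171 1) N) f) N) (L (X (L (X 86 1) N) e) N)))) N)) N))) N) (L (X (A (L (R D 1664) 4294967295) (X c (L (R D 25472) 4294967295))) (A (L (X (L (X 1024 (L (X (A (A (L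 (R D 2336) 4294967295) (X c (L (R D 26144) 4294967295))) (S M (L (X 2147483648 (A 1 (X c 1))) N))) (A (L (X (L (X 767 e) N) f) N) (A (L (X (L (X 171 1) N) f) N) (L (X (L (X 86 1) N) e) N)))) N)) N) e) N) (L (X (A (A (L (R D 2368) 4294967295) (X c (L (R D 26176) 4294967295))) (S M (L (X 2147483648 (A 1 (X c 1))) N))) (L (X (L (X 171 a) N) (A (L (X (L (X 767 e) N) f) N) (A (L (X (L (X 171 1) N) f) N) (L (X (L (X 86 1) N) e) N)))) N)) N))) N))) e) N)) N))) f) N) (S M (L (L (X (L (X (L (X 16777216 (A (L (X (L (X 1024 (L (X (A (L (X (A (L (R D 13792) 4294967295) (X c (L (R D 37600) 4294967295))) 1) N) (L (X (A (L (R D 13824) 4294967295) (X c (L (R D 37632) 4294967295))) a) N)) (L (X 2 (A (L (X (L (X 767 e) N) f) N) (A (L (X (L (X 171 1) N) f) N) (L (X (L (X 86 1) N) e) N)))) N)) N)) N) f) N) (A (L (X (L (X 1024 (L (X (A (L (X (A (L (R D 13856) 4294967295) (X c (L (R D 37664) 4294967295)))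 1) N) (L (X (A (L (R D 13888) 4294967295) (X c (L (R D 37696) 4294967295))) a) N)) (A (L (X (L (X 767 e) N) f) N) (A (L (X (L (X 171 1) N) f) N) (L (X (L (X 86 1) N) e) N)))) N)) N) f) N) (A (L (X (L (X 1024 (L (X (A (L (X (A (L (R D 14048) 4294967295) (X c (L (R D 37856) 4294967295))) 1) N) (L (X (A (L (R D 14080) 4294967295) (X c (L (R D 37888) 4294967295))) a) N)) (L (X 2 (A (L (X (L (X 767 e) N) f) N) (A (L (X (L (X 171 1) N) f) N) (L (X (L (X 86 1) N) e) N)))) N)) N)) N) f) N) (A (L (X (L (X 1024 (L (X (A (L (X (A (L (R D 14112) 4294967295) (X c (L (R D 37920) 4294967295))) 1) N) (L (X (A (L (R D 14144) 4294967295) (X c (L (R D 37952) 4294967295))) a) N)) (L (X 2 (A (L (X 853 e) N) (L (X 171 1) N))) N)) N)) N) (P f 2)) N) (A (L (X (A (L (X (A (L (R D 14176) 4294967295) (X c (L (R D 37984) 4294967295))) 1) N) (L (X (A (L (R D 14208) 4294967295) (X c (L (R D 38016) 4294967295))) a)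 N)) (A (L (X (L (X 1024 (A (L (X 853 e) N) (L (X 171 1) N))) N) (P f 2)) N) (S M (L (L (X (L (X 12 (L (X (L (X 86 b) N) (L (X 86 b) N)) N)) N) e) N) N)))) N) (A (L (X (L (X (A (L (X (A (L (R D 14304) 4294967295) (X c (L (R D 38112) 4294967295))) 1) N) (L (X (A (L (R D 14336) 4294967295) (X c (L (R D 38144) 4294967295))) a) N)) (L (X 2 (L (X (L (X 86 b) N) (L (X 86 b) N)) N)) N)) N) e) N) (A (L (X (A (L (X (A (L (R D 14368) 4294967295) (X c (L (R D 38176) 4294967295))) 1) N) (L (X (A (L (R D 14400) 4294967295) (X c (L (R D 38208) 4294967295))) a) N)) (A (L (X (L (X 1024 (L (X 2 (A (L (X 853 e) N) (L (X 171 1) N))) N)) N) (P f 2)) N) (S M (L (L (X (L (X 24 (L (X (L (X 86 b) N) (L (X 86 b) N)) N)) N) e) N) N)))) N) (L (X (L (X (L (X 1048576 (L (X (A (L (X (A (L (R D 14432) 4294967295) (X c (L (R D 38240) 4294967295))) 1) N) (L (X (A (L (R D 14464) 4294967295) (X c (L (R D 38272) 4294967295)))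 a) N)) 2) N)) N) e) N) (P f 2)) N))))))))) N) e) N) g) N) N))), 94, 4, 3, 3, 1⟩,
  ⟨fun A S X L P R M N m a b c d e f g h D => (A (A (L (X (L (X (L (X 16777216 (L (X (A (L (X (L (X 1024 (A (A (L (R D 3360) 4294967295) (X c (L (R D 27168) 4294967295))) (S M (L (X 2147483648 (A 1 (X c 1))) N)))) N) e) N) (L (X (L (X 171 a) N) (A (A (L (R D 3456) 4294967295) (X c (L (R D 27264) 4294967295))) (S M (L (X 2147483648 (A 1 (X c 1))) N)))) N)) 1) N)) N) e) N) g) N) (S M (L (A (L (X 1024 (A (A (L (X (L (X (L (X 16777216 (L (X (A (A (L (R D 4736) 4294967295) (X c (L (R D 28544) 4294967295))) (S M (L (X 2147483648 (A 1 (X c 1))) N))) 1) N)) N) (P e 2)) N) g) N) (L (X (A (L (X 1 (A (L (R D 1312) 4294967295) (X a (A (L (R D 1344) 4294967295) (X a (L (R D 1376) 4294967295)))))) N) (L (X c (A (L (R D 25120) 4294967295) (X a (A (L (R D 25152) 4294967295) (X a (L (R D 25184) 4294967295)))))) N)) (L (X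 (A (A (L (R D 4864) 4294967295) (X c (L (R D 28672) 4294967295))) (S M (L (X 2147483648 (A 1 (X c 1))) N))) 1) N)) N)) (L (X (A (A (L (X 1 (A (L (R D 160) 4294967295) (X a (A (L (R D 192) 4294967295) (X a (L (R D 224) 4294967295)))))) N) (L (X c (A (L (R D 23968) 4294967295) (X a (A (L (R D 24000) 4294967295) (X a (L (R D 24032) 4294967295)))))) N)) (S M (L (L (X (L (X (L (X 16777216 1) N) (P e 2)) N) g) N) N))) (L (X (A (A (L (R D 4992) 4294967295) (X c (L (R D 28800) 4294967295))) (S M (L (X 2147483648 (A 1 (X c 1))) N))) 1) N)) N))) N) (L (X (A (A (L (X (A (L (R D 1504) 4294967295) (X c (L (R D 25312) 4294967295))) (L (X (A (L (X (L (X 1024 (A (A (L (R D 2976) 4294967295) (X c (L (R D 26784) 4294967295))) (S M (L (X 2147483648 (A 1 (X c 1))) N)))) N) e) N) (L (X (L (X 171 a) N) (A (A (L (R D 3072) 4294967295) (X c (L (R D 26880) 4294967295))) (S M (L (X 2147483648 (A 1 (X c 1))) N))))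 N)) 1) N)) N) (L (X (A (L (R D 1632) 4294967295) (X c (L (R D 25440) 4294967295))) (L (X (A (L (X (L (X 1024 (A (A (L (R D 1824) 4294967295) (X c (L (R D 25632) 4294967295))) (S M (L (X 2147483648 (A 1 (X c 1))) N)))) N) e) N) (L (X (L (X 171 a) N) (A (A (L (R D 1920) 4294967295) (X c (L (R D 25728) 4294967295))) (S M (L (X 2147483648 (A 1 (X c 1))) N)))) N)) 1) N)) N)) (A (L (X (A (L (R D 1536) 4294967295) (X c (L (R D 25344) 4294967295))) (L (X (A (L (X (L (X 1024 (A (A (L (R D 3552) 4294967295) (X c (L (R D 27360) 4294967295))) (S M (L (X 2147483648 (A 1 (X c 1))) N)))) N) e) N) (L (X (L (X 171 a) N) (A (A (L (R D 3648) 4294967295) (X c (L (R D 27456) 4294967295))) (S M (L (X 2147483648 (A 1 (X c 1))) N)))) N)) 1) N)) N) (L (X (A (L (R D 1664) 4294967295) (X c (L (R D 25472) 4294967295))) (L (X (A (L (X (L (X 1024 (A (A (L (R D 2400) 4294967295) (X c (L (R D 26208) 4294967295))) (S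 M (L (X 2147483648 (A 1 (X c 1))) N)))) N) e) N) (L (X (L (X 171 a) N) (A (A (L (R D 2496) 4294967295) (X c (L (R D 26304) 4294967295))) (S M (L (X 2147483648 (A 1 (X c 1))) N)))) N)) 1) N)) N))) e) N)) N))) (S M (L (L (X (L (X (L (X 17179869184 (A (L (X (A (L (X (A (L (R D 13792) 4294967295) (X c (L (R D 37600) 4294967295))) 1) N) (L (X (A (L (R D 13824) 4294967295) (X c (L (R D 37632) 4294967295))) a) N)) (A 0 (S M (L (L (X 12 1) N) N)))) N) (A (L (X (A (L (X (A (L (R D 13920) 4294967295) (X c (L (R D 37728) 4294967295))) 1) N) (L (X (A (L (R D 13952) 4294967295) (X c (L (R D 37760) 4294967295))) a) N)) 1) N) (A (L (X (A (L (X (A (L (R D 14048) 4294967295) (X c (L (R D 37856) 4294967295))) 1) N) (L (X (A (L (R D 14080) 4294967295) (X c (L (R D 37888) 4294967295))) a) N)) (A 0 (S M (L (L (X 12 1) N) N)))) N) (A (L (X (A (L (X (A (L (R D 14112) 4294967295) (X c (L (R D 37920) 4294967295)))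 1) N) (L (X (A (L (R D 14144) 4294967295) (X c (L (R D 37952) 4294967295))) a) N)) (A 0 (S M (L (L (X 12 1) N) N)))) N) (A (L (X (A (L (X (A (L (R D 14240) 4294967295) (X c (L (R D 38048) 4294967295))) 1) N) (L (X (A (L (R D 14272) 4294967295) (X c (L (R D 38080) 4294967295))) a) N)) 1) N) (L (X (A (L (X (A (L (R D 14368) 4294967295) (X c (L (R D 38176) 4294967295))) 1) N) (L (X (A (L (R D 14400) 4294967295) (X c (L (R D 38208) 4294967295))) a) N)) (A 0 (S M (L (L (X 12 1) N) N)))) N))))))) N) e) N) g) N) N))), 81, 3, 1, 3, 1⟩,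
  ⟨fun A S X L P R M N m a b c d e f g h D => (A (A (L (X (L (X (L (X 16777216 (L (X (A (A (L (R D 3392) 4294967295) (X c (L (R D 27200) 4294967295))) (S M (L (X 2147483648 (A 1 (X c 1))) N))) 1) N)) N) (P e 2)) N) g) N) (S M (L (A (A (A (L (X (L (X (L (X 16777216 (L (X (A (A (L (R D 4768) 4294967295) (X c (L (R D 28576) 4294967295))) (S M (L (X 2147483648 (A 1 (X c 1))) N))) 1) N)) N) (P e 2)) N) g) N) (L (X (A (L (X 1 (A (L (R D 1312) 4294967295) (X a (A (L (R D 1344) 4294967295) (X a (L (R D 1376) 4294967295)))))) N) (L (X c (A (L (R D 25120) 4294967295) (X a (A (L (R D 25152) 4294967295) (X a (L (R D 25184) 4294967295)))))) N)) (L (X (A (A (L (R D 4896) 4294967295) (X c (L (R D 28704) 4294967295))) (S M (L (X 2147483648 (A 1 (X c 1))) N))) 1) N)) N)) (L (X (A (A (L (X 1 (A (L (R D 160) 4294967295) (X a (A (L (R D 192) 4294967295) (X a (L (R D 224) 4294967295)))))) N) (L (X c (A (L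 (R D 23968) 4294967295) (X a (A (L (R D 24000) 4294967295) (X a (L (R D 24032) 4294967295)))))) N)) (S M (L (L (X (L (X (L (X 16777216 1) N) (P e 2)) N) g) N) N))) (L (X (A (A (L (R D 5024) 4294967295) (X c (L (R D 28832) 4294967295))) (S M (L (X 2147483648 (A 1 (X c 1))) N))) 1) N)) N)) (L (X (A (A (L (X (A (L (R D 1504) 4294967295) (X c (L (R D 25312) 4294967295))) (L (X (A (A (L (R D 3008) 4294967295) (X c (L (R D 26816) 4294967295))) (S M (L (X 2147483648 (A 1 (X c 1))) N))) 1) N)) N) (L (X (A (L (R D 1632) 4294967295) (X c (L (R D 25440) 4294967295))) (L (X (A (A (L (R D 1856) 4294967295) (X c (L (R D 25664) 4294967295))) (S M (L (X 2147483648 (A 1 (X c 1))) N))) 1) N)) N)) (A (L (X (A (L (R D 1536) 4294967295) (X c (L (R D 25344) 4294967295))) (L (X (A (A (L (R D 3584) 4294967295) (X c (L (R D 27392) 4294967295))) (S M (L (X 2147483648 (A 1 (X c 1))) N))) 1) N)) N) (L (X (A (L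 (R D 1664) 4294967295) (X c (L (R D 25472) 4294967295))) (L (X (A (A (L (R D 2432) 4294967295) (X c (L (R D 26240) 4294967295))) (S M (L (X 2147483648 (A 1 (X c 1))) N))) 1) N)) N))) (P e 2)) N)) N))) (S M (L (L (X (L (X (L (X 16777216 (A (L (X (A (L (X (A (L (R D 13856) 4294967295) (X c (L (R D 37664) 4294967295))) 1) N) (L (X (A (L (R D 13888) 4294967295) (X c (L (R D 37696) 4294967295))) a) N)) (A 0 (S M (L (L (X 12 1) N) N)))) N) (A (L (X (A (L (X (A (L (R D 13984) 4294967295) (X c (L (R D 37792) 4294967295))) 1) N) (L (X (A (L (R D 14016) 4294967295) (X c (L (R D 37824) 4294967295))) a) N)) (L (X 2 1) N)) N) (A (L (X (A (L (X (A (L (R D 14048) 4294967295) (X c (L (R D 37856) 4294967295))) 1) N) (L (X (A (L (R D 14080) 4294967295) (X c (L (R D 37888) 4294967295))) a) N)) (A 0 (S M (L (L (X 24 1) N) N)))) N) (A (L (X (A (L (X (A (L (R D 14176) 4294967295) (X c (L (R D 37984) 4294967295)))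 1) N) (L (X (A (L (R D 14208) 4294967295) (X c (L (R D 38016) 4294967295))) a) N)) (A 0 (S M (L (L (X 12 1) N) N)))) N) (A (L (X (A (L (X (A (L (R D 14304) 4294967295) (X c (L (R D 38112) 4294967295))) 1) N) (L (X (A (L (R D 14336) 4294967295) (X c (L (R D 38144) 4294967295))) a) N)) (L (X 2 1) N)) N) (L (X (A (L (X (A (L (R D 14368) 4294967295) (X c (L (R D 38176) 4294967295))) 1) N) (L (X (A (L (R D 14400) 4294967295) (X c (L (R D 38208) 4294967295))) a) N)) (A 0 (S M (L (L (X 24 1) N) N)))) N))))))) N) e) N) g) N) N))), 71, 3, 1, 3, 1⟩,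
  ⟨fun A S X L P R M N m a b c d e f g h D => (A (A (L (X (L (X (L (X 16777216 (L (X (A (A (L (R D 3424) 4294967295) (X c (L (R D 27232) 4294967295))) (S M (L (X 2147483648 (A 1 (X c 1))) N))) 1) N)) N) (P e 2)) N) g) N) (S M (L (A (A (A (L (X (L (X (L (X 16777216 (L (X (A (A (L (R D 4800) 4294967295) (X c (L (R D 28608) 4294967295))) (S M (L (X 2147483648 (A 1 (X c 1))) N))) 1) N)) N) (P e 2)) N) g) N) (L (X (A (L (X 1 (A (L (R D 1312) 4294967295) (X a (A (L (R D 1344) 4294967295) (X a (L (R D 1376) 4294967295)))))) N) (L (X c (A (L (R D 25120) 4294967295) (X a (A (L (R D 25152) 4294967295) (X a (L (R D 25184) 4294967295)))))) N)) (L (X (A (A (L (R D 4928) 4294967295) (X c (L (R D 28736) 4294967295))) (S M (L (X 2147483648 (A 1 (X c 1))) N))) 1) N)) N)) (L (X (A (A (L (X 1 (A (L (R D 160) 4294967295) (X a (A (L (R D 192) 4294967295) (X a (L (R D 224) 4294967295)))))) N) (L (X c (A (L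 (R D 23968) 4294967295) (X a (A (L (R D 24000) 4294967295) (X a (L (R D 24032) 4294967295)))))) N)) (S M (L (L (X (L (X (L (X 16777216 1) N) (P e 2)) N) g) N) N))) (L (X (A (A (L (R D 5056) 4294967295) (X c (L (R D 28864) 4294967295))) (S M (L (X 2147483648 (A 1 (X c 1))) N))) 1) N)) N)) (L (X (A (A (L (X (A (L (R D 1504) 4294967295) (X c (L (R D 25312) 4294967295))) (L (X (A (A (L (R D 3040) 4294967295) (X c (L (R D 26848) 4294967295))) (S M (L (X 2147483648 (A 1 (X c 1))) N))) 1) N)) N) (L (X (A (L (R D 1632) 4294967295) (X c (L (R D 25440) 4294967295))) (L (X (A (A (L (R D 1888) 4294967295) (X c (L (R D 25696) 4294967295))) (S M (L (X 2147483648 (A 1 (X c 1))) N))) 1) N)) N)) (A (L (X (A (L (R D 1536) 4294967295) (X c (L (R D 25344) 4294967295))) (L (X (A (A (L (R D 3616) 4294967295) (X c (L (R D 27424) 4294967295))) (S M (L (X 2147483648 (A 1 (X c 1))) N))) 1) N)) N) (L (X (A (L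 (R D 1664) 4294967295) (X c (L (R D 25472) 4294967295))) (L (X (A (A (L (R D 2464) 4294967295) (X c (L (R D 26272) 4294967295))) (S M (L (X 2147483648 (A 1 (X c 1))) N))) 1) N)) N))) (P e 2)) N)) N))) (S M (L (L (X (L (X (L (X 16777216 (A (L (X (A (L (X (A (L (R D 13920) 4294967295) (X c (L (R D 37728) 4294967295))) 1) N) (L (X (A (L (R D 13952) 4294967295) (X c (L (R D 37760) 4294967295))) a) N)) (A 0 (S M (L (L (X 12 1) N) N)))) N) (A (L (X (A (L (X (A (L (R D 13984) 4294967295) (X c (L (R D 37792) 4294967295))) 1) N) (L (X (A (L (R D 14016) 4294967295) (X c (L (R D 37824) 4294967295))) a) N)) (A 0 (S M (L (L (X 12 1) N) N)))) N) (A (L (X (A (L (X (A (L (R D 14048) 4294967295) (X c (L (R D 37856) 4294967295))) 1) N) (L (X (A (L (R D 14080) 4294967295) (X c (L (R D 37888) 4294967295))) a) N)) (L (X 144 1) N)) N) (A (L (X (A (L (X (A (L (R D 14240) 4294967295) (X c (L (R D 38048) 4294967295)))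 1) N) (L (X (A (L (R D 14272) 4294967295) (X c (L (R D 38080) 4294967295))) a) N)) (A 0 (S M (L (L (X 12 1) N) N)))) N) (A (L (X (A (L (X (A (L (R D 14304) 4294967295) (X c (L (R D 38112) 4294967295))) 1) N) (L (X (A (L (R D 14336) 4294967295) (X c (L (R D 38144) 4294967295))) a) N)) (A 0 (S M (L (L (X 12 1) N) N)))) N) (L (X (A (L (X (A (L (R D 14368) 4294967295) (X c (L (R D 38176) 4294967295))) 1) N) (L (X (A (L (R D 14400) 4294967295) (X c (L (R D 38208) 4294967295))) a) N)) (L (X 144 1) N)) N))))))) N) e) N) g) N) N))), 71, 3, 1, 3, 1⟩,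
  ⟨fun A S X L P R M N m a b c d e f g h D => (A (L (X (L (X (L (X 0 e) N) (P f 2)) N) g) N) (S M (L (A (L (X (L (X 1024 (L (X (A (L (X (A (L (R D 14112) 4294967295) (X c (L (R D 37920) 4294967295))) 1) N) (L (X (A (L (R D 14144) 4294967295) (X c (L (R D 37952) 4294967295))) a) N)) (A (L (X 0 f) N) (S M (L (L (X 12 (L (X 86 b) N)) N) N)))) N)) N) f) N) (A (L (X (A (L (X (A (L (R D 14240) 4294967295) (X c (L (R D 38048) 4294967295))) 1) N) (L (X (A (L (R D 14272) 4294967295) (X c (L (R D 38080) 4294967295))) a) N)) (A (L (X (L (X 1024 (L (X 86 b) N)) N) f) N) (S M (L (L (X 12 (L (X (L (X 86 b) N) (L (X 86 b) N)) N)) N) N)))) N) (A (L (X (A (L (X (A (L (R D 14304) 4294967295) (X c (L (R D 38112) 4294967295))) 1) N) (L (X (A (L (R D 14336) 4294967295) (X c (L (R D 38144) 4294967295))) a) N)) (A (L (X 0 (P f 2)) N) (S M (L (L (X 12 (L (X (L (X 86 b) N) (L (X 86 b) N)) N)) N) N)))) N) (A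 (L (X (A (L (X (A (L (R D 14368) 4294967295) (X c (L (R D 38176) 4294967295))) 1) N) (L (X (A (L (R D 14400) 4294967295) (X c (L (R D 38208) 4294967295))) a) N)) (A (L (X 144 (L (X (L (X 86 b) N) (L (X 86 b) N)) N)) N) (S M (L (L (X (L (X 1024 (L (X 12 (L (X 86 b) N)) N)) N) f) N) N)))) N) (L (X (L (X 1048576 (L (X (A (L (X (A (L (R D 14432) 4294967295) (X c (L (R D 38240) 4294967295))) 1) N) (L (X (A (L (R D 14464) 4294967295) (X c (L (R D 38272) 4294967295))) a) N)) (A 0 (S M (L (L (X 12 1) N) N)))) N)) N) (P f 2)) N))))) N))), 60, 2, 3, 2, 1⟩,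
  ⟨fun A S X L P R M N m a b c d e f g h D => (A (A (L (X (L (X 1024 (L (X (A (A (L (R D 2144) 4294967295) (X c (L (R D 25952) 4294967295))) (S M (L (X 2147483648 (A 1 (X c 1))) N))) (A (L (X (L (X 767 e) N) f) N) (A (L (X (L (X 171 1) N) f) N) (L (X (L (X 86 1) N) e) N)))) N)) N) e) N) (L (X (A (A (L (R D 2176) 4294967295) (X c (L (R D 25984) 4294967295))) (S M (L (X 2147483648 (A 1 (X c 1))) N))) (L (X (L (X 171 a) N) (A (L (X (L (X 767 e) N) f) N) (A (L (X (L (X 171 1) N) f) N) (L (X (L (X 86 1) N) e) N)))) N)) N)) (S M (L (L (X (L (X 1024 (A (L (X (A (L (R D 14496) 4294967295) (X c (L (R D 38304) 4294967295))) (L (X 2 (A (L (X (L (X 767 e) N) f) N) (A (L (X (L (X 171 1) N) f) N) (L (X (L (X 86 1) N) e) N)))) N)) N) (A (L (X (A (L (R D 14528) 4294967295) (X c (L (R D 38336) 4294967295))) (A (L (X (L (X 767 e) N) f) N) (A (L (X (L (X 171 1) N) f) N) (L (X (L (X 86 1) N) e) N)))) N)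 (L (X (A (L (R D 14624) 4294967295) (X c (L (R D 38432) 4294967295))) (L (X 2 (A (L (X (L (X 767 e) N) f) N) (A (L (X (L (X 171 1) N) f) N) (L (X (L (X 86 1) N) e) N)))) N)) N)))) N) e) N) N))), 59, 3, 2, 2, 1⟩,
  ⟨fun A S X L P R M N m a b c d e f g h D => (A (L (X (A (L (X (L (X 1024 (A (A (L (R D 2208) 4294967295) (X c (L (R D 26016) 4294967295))) (S M (L (X 2147483648 (A 1 (X c 1))) N)))) N) e) N) (L (X (L (X 171 a) N) (A (A (L (R D 2304) 4294967295) (X c (L (R D 26112) 4294967295))) (S M (L (X 2147483648 (A 1 (X c 1))) N)))) N)) 1) N) (S M (L (L (X (L (X 1024 (A (L (X (A (L (R D 14496) 4294967295) (X c (L (R D 38304) 4294967295))) (A 0 (S M (L (L (X 12 1) N) N)))) N) (A (L (X (A (L (R D 14560) 4294967295) (X c (L (R D 38368) 4294967295))) 1) N) (L (X (A (L (R D 14624) 4294967295) (X c (L (R D 38432) 4294967295))) (A 0 (S M (L (L (X 12 1) N) N)))) N)))) N) e) N) N))), 49, 2, 1, 2,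 1⟩,
  ⟨fun A S X L P R M N m a b c d e f g h D => (A (L (X (A (A (L (R D 2240) 4294967295) (X c (L (R D 26048) 4294967295))) (S M (L (X 2147483648 (A 1 (X c 1))) N))) 1) N) (S M (L (A (L (X (A (L (R D 14528) 4294967295) (X c (L (R D 38336) 4294967295))) (A 0 (S M (L (L (X 12 1) N) N)))) N) (A (L (X (A (L (R D 14592) 4294967295) (X c (L (R D 38400) 4294967295))) (L (X 2 1) N)) N) (L (X (A (L (R D 14624) 4294967295) (X c (L (R D 38432) 4294967295))) (A 0 (S M (L (L (X 24 1) N) N)))) N))) N))), 39, 1, 1, 2, 1⟩,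
  ⟨fun A S X L P R M N m a b c d e f g h D => (A (L (X (A (A (L (R D 2272) 4294967295) (X c (L (R D 26080) 4294967295))) (S M (L (X 2147483648 (A 1 (X c 1))) N))) 1) N) (S M (L (A (L (X (A (L (R D 14560) 4294967295) (X c (L (R D 38368) 4294967295))) (A 0 (S M (L (L (X 12 1) N) N)))) N) (A (L (X (A (L (R D 14592) 4294967295) (X c (L (R D 38400) 4294967295))) (A 0 (S M (L (L (X 12 1) N) N)))) N) (L (X (A (L (R D 14624) 4294967295) (X c (L (R D 38432) 4294967295))) (L (X 144 1) N)) N))) N))), 41, 1, 1, 2, 1⟩,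
  ⟨fun A S X L P R M N m a b c d e f g h D => (A (A (L (X (L (X 1024 (L (X (A (A (L (R D 3296) 4294967295) (X c (L (R D 27104) 4294967295))) (S M (L (X 2147483648 (A 1 (X c 1))) N))) (A (L (X (L (X 767 e) N) f) N) (A (L (X (L (X 171 1) N) f) N) (L (X (L (X 86 1) N) e) N)))) N)) N) e) N) (L (X (A (A (L (R D 3328) 4294967295) (X c (L (R D 27136) 4294967295))) (S M (L (X 2147483648 (A 1 (X c 1))) N))) (L (X (L (X 171 a) N) (A (L (X (L (X 767 e) N) f) N) (A (L (X (L (X 171 1) N) f) N) (L (X (L (X 86 1) N) e) N)))) N)) N)) (S M (L (L (X (L (X 1024 (A (L (X (A (L (R D 14656) 4294967295) (X c (L (R D 38464) 4294967295))) (L (X 2 (A (L (X (L (X 767 e) N) f) N) (A (L (X (L (X 171 1) N) f) N) (L (X (L (X 86 1) N) e) N)))) N)) N) (A (L (X (A (L (R D 14688) 4294967295) (X c (L (R D 38496) 4294967295))) (A (L (X (L (X 767 e) N) f) N) (A (L (X (L (X 171 1) N) f) N) (L (X (L (X 86 1) N) e) N)))) N)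 (L (X (A (L (R D 14784) 4294967295) (X c (L (R D 38592) 4294967295))) (L (X 2 (A (L (X (L (X 767 e) N) f) N) (A (L (X (L (X 171 1) N) f) N) (L (X (L (X 86 1) N) e) N)))) N)) N)))) N) e) N) N))), 59, 3, 2, 2, 1⟩,
  ⟨fun A S X L P R M N m a b c d e f g h D => (A (L (X (A (L (X (L (X 1024 (A (A (L (R D 3360) 4294967295) (X c (L (R D 27168) 4294967295))) (S M (L (X 2147483648 (A 1 (X c 1))) N)))) N) e) N) (L (X (L (X 171 a) N) (A (A (L (R D 3456) 4294967295) (X c (L (R D 27264) 4294967295))) (S M (L (X 2147483648 (A 1 (X c 1))) N)))) N)) 1) N) (S M (L (L (X (L (X 1024 (A (L (X (A (L (R D 14656) 4294967295) (X c (L (R D 38464) 4294967295))) (A 0 (S M (L (L (X 12 1) N) N)))) N) (A (L (X (A (L (R D 14720) 4294967295) (X c (L (R D 38528) 4294967295))) 1) N) (L (X (A (L (R D 14784) 4294967295) (X c (L (R D 38592) 4294967295))) (A 0 (S M (L (L (X 12 1) N) N)))) N)))) N) e) N) N))), 49, 2, 1, 2,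 1⟩,
  ⟨fun A S X L P R M N m a b c d e f g h D => (A (L (X (A (A (L (R D 3392) 4294967295) (X c (L (R D 27200) 4294967295))) (S M (L (X 2147483648 (A 1 (X c 1))) N))) 1) N) (S M (L (A (L (X (A (L (R D 14688) 4294967295) (X c (L (R D 38496) 4294967295))) (A 0 (S M (L (L (X 12 1) N) N)))) N) (A (L (X (A (L (R D 14752) 4294967295) (X c (L (R D 38560) 4294967295))) (L (X 2 1) N)) N) (L (X (A (L (R D 14784) 4294967295) (X c (L (R D 38592) 4294967295))) (A 0 (S M (L (L (X 24 1) N) N)))) N))) N))), 39, 1, 1, 2, 1⟩,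
  ⟨fun A S X L P R M N m a b c d e f g h D => (A (L (X (A (A (L (R D 3424) 4294967295) (X c (L (R D 27232) 4294967295))) (S M (L (X 2147483648 (A 1 (X c 1))) N))) 1) N) (S M (L (A (L (X (A (L (R D 14720) 4294967295) (X c (L (R D 38528) 4294967295))) (A 0 (S M (L (L (X 12 1) N) N)))) N) (A (L (X (A (L (R D 14752) 4294967295) (X c (L (R D 38560) 4294967295))) (A 0 (S M (L (L (X 12 1) N) N)))) N) (L (X (A (L (R D 14784) 4294967295) (X c (L (R D 38592) 4294967295))) (L (X 144 1) N)) N))) N))), 41, 1, 1, 2, 1⟩,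
  ⟨fun A S X L P R M N m a b c d e f g h D => (A (A (L (X (L (X 1024 (L (X (A (A (L (R D 1760) 4294967295) (X c (L (R D 25568) 4294967295))) (S M (L (X 2147483648 (A 1 (X c 1))) N))) (A (L (X (L (X 767 e) N) f) N) (A (L (X (L (X 171 1) N) f) N) (L (X (L (X 86 1) N) e) N)))) N)) N) e) N) (L (X (A (A (L (R D 1792) 4294967295) (X c (L (R D 25600) 4294967295))) (S M (L (X 2147483648 (A 1 (X c 1))) N))) (L (X (L (X 171 a) N) (A (L (X (L (X 767 e) N) f) N) (A (L (X (L (X 171 1) N) f) N) (L (X (L (X 86 1) N) e) N)))) N)) N)) (S M (L (L (X (L (X 1024 (A (L (X (A (L (R D 14816) 4294967295) (X c (L (R D 38624) 4294967295))) (L (X 2 (A (L (X (L (X 767 e) N) f) N) (A (L (X (L (X 171 1) N) f) N) (L (X (L (X 86 1) N) e) N)))) N)) N) (A (L (X (A (L (R D 14848) 4294967295) (X c (L (R D 38656) 4294967295))) (A (L (X (L (X 767 e) N) f) N) (A (L (X (L (X 171 1) N) f) N) (L (X (L (X 86 1) N) e) N)))) N)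 (L (X (A (L (R D 14944) 4294967295) (X c (L (R D 38752) 4294967295))) (L (X 2 (A (L (X (L (X 767 e) N) f) N) (A (L (X (L (X 171 1) N) f) N) (L (X (L (X 86 1) N) e) N)))) N)) N)))) N) e) N) N))), 59, 3, 2, 2, 1⟩,
  ⟨fun A S X L P R M N m a b c d e f g h D => (A (L (X (A (L (X (L (X 1024 (A (A (L (R D 1824) 4294967295) (X c (L (R D 25632) 4294967295))) (S M (L (X 2147483648 (A 1 (X c 1))) N)))) N) e) N) (L (X (L (X 171 a) N) (A (A (L (R D 1920) 4294967295) (X c (L (R D 25728) 4294967295))) (S M (L (X 2147483648 (A 1 (X c 1))) N)))) N)) 1) N) (S M (L (L (X (L (X 1024 (A (L (X (A (L (R D 14816) 4294967295) (X c (L (R D 38624) 4294967295))) (A 0 (S M (L (L (X 12 1) N) N)))) N) (A (L (X (A (L (R D 14880) 4294967295) (X c (L (R D 38688) 4294967295))) 1) N) (L (X (A (L (R D 14944) 4294967295) (X c (L (R D 38752) 4294967295))) (A 0 (S M (L (L (X 12 1) N) N)))) N)))) N) e) N) N))), 49, 2, 1, 2,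 1⟩,
  ⟨fun A S X L P R M N m a b c d e f g h D => (A (L (X (A (A (L (R D 1856) 4294967295) (X c (L (R D 25664) 4294967295))) (S M (L (X 2147483648 (A 1 (X c 1))) N))) 1) N) (S M (L (A (L (X (A (L (R D 14848) 4294967295) (X c (L (R D 38656) 4294967295))) (A 0 (S M (L (L (X 12 1) N) N)))) N) (A (L (X (A (L (R D 14912) 4294967295) (X c (L (R D 38720) 4294967295))) (L (X 2 1) N)) N) (L (X (A (L (R D 14944) 4294967295) (X c (L (R D 38752) 4294967295))) (A 0 (S M (L (L (X 24 1) N) N)))) N))) N))), 39, 1, 1, 2, 1⟩,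
  ⟨fun A S X L P R M N m a b c d e f g h D => (A (L (X (A (A (L (R D 1888) 4294967295) (X c (L (R D 25696) 4294967295))) (S M (L (X 2147483648 (A 1 (X c 1))) N))) 1) N) (S M (L (A (L (X (A (L (R D 14880) 4294967295) (X c (L (R D 38688) 4294967295))) (A 0 (S M (L (L (X 12 1) N) N)))) N) (A (L (X (A (L (R D 14912) 4294967295) (X c (L (R D 38720) 4294967295))) (A 0 (S M (L (L (X 12 1) N) N)))) N) (L (X (A (L (R D 14944) 4294967295) (X c (L (R D 38752) 4294967295))) (L (X 144 1) N)) N))) N))), 41, 1, 1, 2, 1⟩,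
  ⟨fun A S X L P R M N m a b c d e f g h D => (A (A (L (X (L (X 1024 (L (X (A (A (L (R D 2912) 4294967295) (X c (L (R D 26720) 4294967295))) (S M (L (X 2147483648 (A 1 (X c 1))) N))) (A (L (X (L (X 767 e) N) f) N) (A (L (X (L (X 171 1) N) f) N) (L (X (L (X 86 1) N) e) N)))) N)) N) e) N) (L (X (A (A (L (R D 2944) 4294967295) (X c (L (R D 26752) 4294967295))) (S M (L (X 2147483648 (A 1 (X c 1))) N))) (L (X (L (X 171 a) N) (A (L (X (L (X 767 e) N) f) N) (A (L (X (L (X 171 1) N) f) N) (L (X (L (X 86 1) N) e) N)))) N)) N)) (S M (L (L (X (L (X 1024 (A (L (X (A (L (R D 14976) 4294967295) (X c (L (R D 38784) 4294967295))) (L (X 2 (A (L (X (L (X 767 e) N) f) N) (A (L (X (L (X 171 1) N) f) N) (L (X (L (X 86 1) N) e) N)))) N)) N) (A (L (X (A (L (R D 15008) 4294967295) (X c (L (R D 38816) 4294967295))) (A (L (X (L (X 767 e) N) f) N) (A (L (X (L (X 171 1) N) f) N) (L (X (L (X 86 1) N) e) N)))) N)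 (L (X (A (L (R D 15104) 4294967295) (X c (L (R D 38912) 4294967295))) (L (X 2 (A (L (X (L (X 767 e) N) f) N) (A (L (X (L (X 171 1) N) f) N) (L (X (L (X 86 1) N) e) N)))) N)) N)))) N) e) N) N))), 59, 3, 2, 2, 1⟩,
  ⟨fun A S X L P R M N m a b c d e f g h D => (A (L (X (A (L (X (L (X 1024 (A (A (L (R D 2976) 4294967295) (X c (L (R D 26784) 4294967295))) (S M (L (X 2147483648 (A 1 (X c 1))) N)))) N) e) N) (L (X (L (X 171 a) N) (A (A (L (R D 3072) 4294967295) (X c (L (R D 26880) 4294967295))) (S M (L (X 2147483648 (A 1 (X c 1))) N)))) N)) 1) N) (S M (L (L (X (L (X 1024 (A (L (X (A (L (R D 14976) 4294967295) (X c (L (R D 38784) 4294967295))) (A 0 (S M (L (L (X 12 1) N) N)))) N) (A (L (X (A (L (R D 15040) 4294967295) (X c (L (R D 38848) 4294967295))) 1) N) (L (X (A (L (R D 15104) 4294967295) (X c (L (R D 38912) 4294967295))) (A 0 (S M (L (L (X 12 1) N) N)))) N)))) N) e) N) N))), 49, 2, 1, 2,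 1⟩,
  ⟨fun A S X L P R M N m a b c d e f g h D => (A (L (X (A (A (L (R D 3008) 4294967295) (X c (L (R D 26816) 4294967295))) (S M (L (X 2147483648 (A 1 (X c 1))) N))) 1) N) (S M (L (A (L (X (A (L (R D 15008) 4294967295) (X c (L (R D 38816) 4294967295))) (A 0 (S M (L (L (X 12 1) N) N)))) N) (A (L (X (A (L (R D 15072) 4294967295) (X c (L (R D 38880) 4294967295))) (L (X 2 1) N)) N) (L (X (A (L (R D 15104) 4294967295) (X c (L (R D 38912) 4294967295))) (A 0 (S M (L (L (X 24 1) N) N)))) N))) N))), 39, 1, 1, 2, 1⟩,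
  ⟨fun A S X L P R M N m a b c d e f g h D => (A (L (X (A (A (L (R D 3040) 4294967295) (X c (L (R D 26848) 4294967295))) (S M (L (X 2147483648 (A 1 (X c 1))) N))) 1) N) (S M (L (A (L (X (A (L (R D 15040) 4294967295) (X c (L (R D 38848) 4294967295))) (A 0 (S M (L (L (X 12 1) N) N)))) N) (A (L (X (A (L (R D 15072) 4294967295) (X c (L (R D 38880) 4294967295))) (A 0 (S M (L (L (X 12 1) N) N)))) N) (L (X (A (L (R D 15104) 4294967295) (X c (L (R D 38912) 4294967295))) (L (X 144 1) N)) N))) N))), 41, 1, 1, 2, 1⟩,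
  ⟨fun A S X L P R M N m a b c d e f g h D => (A (L (X (A (L (X (L (X (L (X (L (X 295147905179352825856 (L (X (L (X 86 b) N) (A (L (X 1024 (A (L (X (A (L (X (L (X 1024 (A (A (L (R D 5344) 4294967295) (X c (L (R D 29152) 4294967295))) (S M (L (X 2147483648 (A 1 (X c 1))) N)))) N) e) N) (L (X (A (A (L (R D 5376) 4294967295) (X c (L (R D 29184) 4294967295))) (S M (L (X 2147483648 (A 1 (X c 1))) N))) (L (X 171 a) N)) N)) f) N) (L (X (L (X (A (A (L (R D 5408) 4294967295) (X c (L (R D 29216) 4294967295))) (S M (L (X 2147483648 (A 1 (X c 1))) N))) (L (X 86 b) N)) N) e) N))) N) (L (X (A (A (L (R D 5440) 4294967295) (X c (L (R D 29248) 4294967295))) (S M (L (X 2147483648 (A 1 (X c 1))) N))) (L (X (L (X 86 b) N) (L (X 171 a) N)) N)) N))) N)) N) (P e 3)) N) (P f 2)) N) (P g 2)) N) (S M (L (L (X (L (X (L (X 86 b) N) (A (L (X (L (X 1048576 (A (L (R D 64) 4294967295) (X c (L (R D 23872) 4294967295))))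 N) (P f 2)) N) (L (X (L (X 86 b) N) (A (L (X (L (X 1024 (A (L (R D 96) 4294967295) (X c (L (R D 23904) 4294967295)))) N) f) N) (L (X (L (X 86 b) N) (A (L (R D 128) 4294967295) (X c (L (R D 23936) 4294967295)))) N))) N))) N) (A (L (X (L (X (L (X (L (X 17592186044416 (L (X (A (A (L (X 1 (A (L (R D 160) 4294967295) (X a (A (L (R D 192) 4294967295) (X a (L (R D 224) 4294967295)))))) N) (L (X c (A (L (R D 23968) 4294967295) (X a (A (L (R D 24000) 4294967295) (X a (L (R D 24032) 4294967295)))))) N)) (S M (L (L (X (L (X (L (X 16777216 1) N) (P e 2)) N) g) N) N))) 1) N)) N) (P e 2)) N) f) N) g) N) (L (X (A (L (X 1 (A (L (R D 160) 4294967295) (X a (A (L (R D 192) 4294967295) (X a (L (R D 224) 4294967295)))))) N) (L (X c (A (L (R D 23968) 4294967295) (X a (A (L (R D 24000) 4294967295) (X a (L (R D 24032) 4294967295)))))) N)) (A (L (X (L (X 1024 (L (X (A (A (L (R D 3488) 4294967295) (X c (L (R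 D 27296) 4294967295))) (S M (L (X 2147483648 (A 1 (X c 1))) N))) (A (L (X (L (X 767 e) N) f) N) (A (L (X (L (X 171 1) N) f) N) (L (X (L (X 86 1) N) e) N)))) N)) N) e) N) (L (X (A (A (L (R D 3520) 4294967295) (X c (L (R D 27328) 4294967295))) (S M (L (X 2147483648 (A 1 (X c 1))) N))) (L (X (L (X 171 a) N) (A (L (X (L (X 767 e) N) f) N) (A (L (X (L (X 171 1) N) f) N) (L (X (L (X 86 1) N) e) N)))) N)) N))) N))) N) N))) f) N) (S M (L (L (X (L (X (L (X 16777216 (A (L (X (L (X 1024 (L (X (L (X (A (L (X (A (L (R D 15136) 4294967295) (X c (L (R D 38944) 4294967295))) 1) N) (L (X (A (L (R D 15168) 4294967295) (X c (L (R D 38976) 4294967295))) a) N)) (L (X (L (X 86 b) N) (A (L (X (L (X 1048576 (A (L (R D 64) 4294967295) (X c (L (R D 23872) 4294967295)))) N) (P f 2)) N) (L (X (L (X 86 b) N) (A (L (X (L (X 1024 (A (L (R D 96) 4294967295) (X c (L (R D 23904) 4294967295)))) N) f) N) (L (X (L (X 86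 b) N) (A (L (R D 128) 4294967295) (X c (L (R D 23936) 4294967295)))) N))) N))) N)) N) (L (X 2 (A (L (X (L (X 767 e) N) f) N) (A (L (X (L (X 171 1) N) f) N) (L (X (L (X 86 1) N) e) N)))) N)) N)) N) f) N) (A (L (X (L (X 1024 (L (X (L (X (A (L (X (A (L (R D 15200) 4294967295) (X c (L (R D 39008) 4294967295))) 1) N) (L (X (A (L (R D 15232) 4294967295) (X c (L (R D 39040) 4294967295))) a) N)) (L (X (L (X 86 b) N) (A (L (X (L (X 1048576 (A (L (R D 64) 4294967295) (X c (L (R D 23872) 4294967295)))) N) (P f 2)) N) (L (X (L (X 86 b) N) (A (L (X (L (X 1024 (A (L (R D 96) 4294967295) (X c (L (R D 23904) 4294967295)))) N) f) N) (L (X (L (X 86 b) N) (A (L (R D 128) 4294967295) (X c (L (R D 23936) 4294967295)))) N))) N))) N)) N) (A (L (X (L (X 767 e) N) f) N) (A (L (X (L (X 171 1) N) f) N) (L (X (L (X 86 1) N) e) N)))) N)) N) f) N) (A (L (X (L (X 1024 (L (X (L (X (A (L (X (A (L (R D 15392) 4294967295)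 (X c (L (R D 39200) 4294967295))) 1) N) (L (X (A (L (R D 15424) 4294967295) (X c (L (R D 39232) 4294967295))) a) N)) (L (X (L (X 86 b) N) (A (L (X (L (X 1048576 (A (L (R D 64) 4294967295) (X c (L (R D 23872) 4294967295)))) N) (P f 2)) N) (L (X (L (X 86 b) N) (A (L (X (L (X 1024 (A (L (R D 96) 4294967295) (X c (L (R D 23904) 4294967295)))) N) f) N) (L (X (L (X 86 b) N) (A (L (R D 128) 4294967295) (X c (L (R D 23936) 4294967295)))) N))) N))) N)) N) (L (X 2 (A (L (X (L (X 767 e) N) f) N) (A (L (X (L (X 171 1) N) f) N) (L (X (L (X 86 1) N) e) N)))) N)) N)) N) f) N) (A (L (X (L (X 1024 (L (X (L (X (A (L (X (A (L (R D 15456) 4294967295) (X c (L (R D 39264) 4294967295))) 1) N) (L (X (A (L (R D 15488) 4294967295) (X c (L (R D 39296) 4294967295))) a) N)) (L (X (L (X 86 b) N) (A (L (X (L (X 1048576 (A (L (R D 64) 4294967295) (X c (L (R D 23872) 4294967295)))) N) (P f 2)) N) (L (X (L (X 86 b) N)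 (A (L (X (L (X 1024 (A (L (R D 96) 4294967295) (X c (L (R D 23904) 4294967295)))) N) f) N) (L (X (L (X 86 b) N) (A (L (R D 128) 4294967295) (X c (L (R D 23936) 4294967295)))) N))) N))) N)) N) (L (X 2 (A (L (X 853 e) N) (L (X 171 1) N))) N)) N)) N) (P f 2)) N) (A (L (X (L (X (A (L (X (A (L (R D 15520) 4294967295) (X c (L (R D 39328) 4294967295))) 1) N) (L (X (A (L (R D 15552) 4294967295) (X c (L (R D 39360) 4294967295))) a) N)) (L (X (L (X 86 b) N) (A (L (X (L (X 1048576 (A (L (R D 64) 4294967295) (X c (L (R D 23872) 4294967295)))) N) (P f 2)) N) (L (X (L (X 86 b) N) (A (L (X (L (X 1024 (A (L (R D 96) 4294967295) (X c (L (R D 23904) 4294967295)))) N) f) N) (L (X (L (X 86 b) N) (A (L (R D 128) 4294967295) (X c (L (R D 23936) 4294967295)))) N))) N))) N)) N) (A (L (X (L (X 1024 (A (L (X 853 e) N) (L (X 171 1) N))) N) (P f 2)) N) (S M (L (L (X (L (X 12 (L (X (L (X 86 b) N) (L (X 86 b) N))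 N)) N) e) N) N)))) N) (A (L (X (L (X (L (X (A (L (X (A (L (R D 15648) 4294967295) (X c (L (R D 39456) 4294967295))) 1) N) (L (X (A (L (R D 15680) 4294967295) (X c (L (R D 39488) 4294967295))) a) N)) (L (X (L (X 86 b) N) (A (L (X (L (X 1048576 (A (L (R D 64) 4294967295) (X c (L (R D 23872) 4294967295)))) N) (P f 2)) N) (L (X (L (X 86 b) N) (A (L (X (L (X 1024 (A (L (R D 96) 4294967295) (X c (L (R D 23904) 4294967295)))) N) f) N) (L (X (L (X 86 b) N) (A (L (R D 128) 4294967295) (X c (L (R D 23936) 4294967295)))) N))) N))) N)) N) (L (X 2 (L (X (L (X 86 b) N) (L (X 86 b) N)) N)) N)) N) e) N) (A (L (X (L (X (A (L (X (A (L (R D 15712) 4294967295) (X c (L (R D 39520) 4294967295))) 1) N) (L (X (A (L (R D 15744) 4294967295) (X c (L (R D 39552) 4294967295))) a) N)) (L (X (L (X 86 b) N) (A (L (X (L (X 1048576 (A (L (R D 64) 4294967295) (X c (L (R D 23872) 4294967295)))) N) (P f 2)) N) (L (X (L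 (X 86 b) N) (A (L (X (L (X 1024 (A (L (R D 96) 4294967295) (X c (L (R D 23904) 4294967295)))) N) f) N) (L (X (L (X 86 b) N) (A (L (R D 128) 4294967295) (X c (L (R D 23936) 4294967295)))) N))) N))) N)) N) (A (L (X (L (X 1024 (L (X 2 (A (L (X 853 e) N) (L (X 171 1) N))) N)) N) (P f 2)) N) (S M (L (L (X (L (X 24 (L (X (L (X 86 b) N) (L (X 86 b) N)) N)) N) e) N) N)))) N) (L (X (L (X (L (X 1048576 (L (X (L (X (A (L (X (A (L (R D 15776) 4294967295) (X c (L (R D 39584) 4294967295))) 1) N) (L (X (A (L (R D 15808) 4294967295) (X c (L (R D 39616) 4294967295))) a) N)) (L (X (L (X 86 b) N) (A (L (X (L (X 1048576 (A (L (R D 64) 4294967295) (X c (L (R D 23872) 4294967295)))) N) (P f 2)) N) (L (X (L (X 86 b) N) (A (L (X (L (X 1024 (A (L (R D 96) 4294967295) (X c (L (R D 23904) 4294967295)))) N) f) N) (L (X (L (X 86 b) N) (A (L (R D 128) 4294967295) (X c (L (R D 23936) 4294967295)))) N))) N))) N)) N)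 2) N)) N) e) N) (P f 2)) N))))))))) N) (P e 2)) N) g) N) N))), 154, 5, 6, 4, 1⟩,
  ⟨fun A S X L P R M N m a b c d e f g h D => (A (A (L (X (L (X (L (X 0 (P e 3)) N) (P f 3)) N) (P g 3)) N) (S M (L (L (X (L (X (L (X 86 b) N) (A (L (X (L (X 1048576 (A (L (R D 64) 4294967295) (X c (L (R D 23872) 4294967295)))) N) (P f 2)) N) (L (X (L (X 86 b) N) (A (L (X (L (X 1024 (A (L (R D 96) 4294967295) (X c (L (R D 23904) 4294967295)))) N) f) N) (L (X (L (X 86 b) N) (A (L (R D 128) 4294967295) (X c (L (R D 23936) 4294967295)))) N))) N))) N) (L (X (A (L (X 1 (A (L (R D 160) 4294967295) (X a (A (L (R D 192) 4294967295) (X a (L (R D 224) 4294967295)))))) N) (L (X c (A (L (R D 23968) 4294967295) (X a (A (L (R D 24000) 4294967295) (X a (L (R D 24032) 4294967295)))))) N)) (L (X (A (L (X (L (X 1024 (A (A (L (R D 3552) 4294967295) (X c (L (R D 27360) 4294967295))) (S M (L (X 2147483648 (A 1 (X c 1))) N))))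 N) e) N) (L (X (L (X 171 a) N) (A (A (L (R D 3648) 4294967295) (X c (L (R D 27456) 4294967295))) (S M (L (X 2147483648 (A 1 (X c 1))) N)))) N)) 1) N)) N)) N) N))) (S M (L (L (X (L (X (L (X 17179869184 (A (L (X (L (X (A (L (X (A (L (R D 15136) 4294967295) (X c (L (R D 38944) 4294967295))) 1) N) (L (X (A (L (R D 15168) 4294967295) (X c (L (R D 38976) 4294967295))) a) N)) (L (X (L (X 86 b) N) (A (L (X (L (X 1048576 (A (L (R D 64) 4294967295) (X c (L (R D 23872) 4294967295)))) N) (P f 2)) N) (L (X (L (X 86 b) N) (A (L (X (L (X 1024 (A (L (R D 96) 4294967295) (X c (L (R D 23904) 4294967295)))) N) f) N) (L (X (L (X 86 b) N) (A (L (R D 128) 4294967295) (X c (L (R D 23936) 4294967295)))) N))) N))) N)) N) (A 0 (S M (L (L (X 12 1) N) N)))) N) (A (L (X (L (X (A (L (X (A (L (R D 15264) 4294967295) (X c (L (R D 39072) 4294967295))) 1) N) (L (X (A (L (R D 15296) 4294967295) (X c (L (R D 39104) 4294967295)))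 a) N)) (L (X (L (X 86 b) N) (A (L (X (L (X 1048576 (A (L (R D 64) 4294967295) (X c (L (R D 23872) 4294967295)))) N) (P f 2)) N) (L (X (L (X 86 b) N) (A (L (X (L (X 1024 (A (L (R D 96) 4294967295) (X c (L (R D 23904) 4294967295)))) N) f) N) (L (X (L (X 86 b) N) (A (L (R D 128) 4294967295) (X c (L (R D 23936) 4294967295)))) N))) N))) N)) N) 1) N) (A (L (X (L (X (A (L (X (A (L (R D 15392) 4294967295) (X c (L (R D 39200) 4294967295))) 1) N) (L (X (A (L (R D 15424) 4294967295) (X c (L (R D 39232) 4294967295))) a) N)) (L (X (L (X 86 b) N) (A (L (X (L (X 1048576 (A (L (R D 64) 4294967295) (X c (L (R D 23872) 4294967295)))) N) (P f 2)) N) (L (X (L (X 86 b) N) (A (L (X (L (X 1024 (A (L (R D 96) 4294967295) (X c (L (R D 23904) 4294967295)))) N) f) N) (L (X (L (X 86 b) N) (A (L (R D 128) 4294967295) (X c (L (R D 23936) 4294967295)))) N))) N))) N)) N) (A 0 (S M (L (L (X 12 1) N) N)))) N) (A (L (X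 (L (X (A (L (X (A (L (R D 15456) 4294967295) (X c (L (R D 39264) 4294967295))) 1) N) (L (X (A (L (R D 15488) 4294967295) (X c (L (R D 39296) 4294967295))) a) N)) (L (X (L (X 86 b) N) (A (L (X (L (X 1048576 (A (L (R D 64) 4294967295) (X c (L (R D 23872) 4294967295)))) N) (P f 2)) N) (L (X (L (X 86 b) N) (A (L (X (L (X 1024 (A (L (R D 96) 4294967295) (X c (L (R D 23904) 4294967295)))) N) f) N) (L (X (L (X 86 b) N) (A (L (R D 128) 4294967295) (X c (L (R D 23936) 4294967295)))) N))) N))) N)) N) (A 0 (S M (L (L (X 12 1) N) N)))) N) (A (L (X (L (X (A (L (X (A (L (R D 15584) 4294967295) (X c (L (R D 39392) 4294967295))) 1) N) (L (X (A (L (R D 15616) 4294967295) (X c (L (R D 39424) 4294967295))) a) N)) (L (X (L (X 86 b) N) (A (L (X (L (X 1048576 (A (L (R D 64) 4294967295) (X c (L (R D 23872) 4294967295)))) N) (P f 2)) N) (L (X (L (X 86 b) N) (A (L (X (L (X 1024 (A (L (R D 96) 4294967295) (X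 c (L (R D 23904) 4294967295)))) N) f) N) (L (X (L (X 86 b) N) (A (L (R D 128) 4294967295) (X c (L (R D 23936) 4294967295)))) N))) N))) N)) N) 1) N) (L (X (L (X (A (L (X (A (L (R D 15712) 4294967295) (X c (L (R D 39520) 4294967295))) 1) N) (L (X (A (L (R D 15744) 4294967295) (X c (L (R D 39552) 4294967295))) a) N)) (L (X (L (X 86 b) N) (A (L (X (L (X 1048576 (A (L (R D 64) 4294967295) (X c (L (R D 23872) 4294967295)))) N) (P f 2)) N) (L (X (L (X 86 b) N) (A (L (X (L (X 1024 (A (L (R D 96) 4294967295) (X c (L (R D 23904) 4294967295)))) N) f) N) (L (X (L (X 86 b) N) (A (L (R D 128) 4294967295) (X c (L (R D 23936) 4294967295)))) N))) N))) N)) N) (A 0 (S M (L (L (X 12 1) N) N)))) N))))))) N) (P e 2)) N) g) N) N))), 141, 4, 4, 4, 1⟩,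
  ⟨fun A S X L P R M N m a b c d e f g h D => (A (A (L (X (L (X (L (X 0 (P e 2)) N) (P f 3)) N) (P g 3)) N) (S M (L (L (X (L (X (L (X 86 b) N) (A (L (X (L (X 1048576 (A (L (R D 64) 4294967295) (X c (L (R D 23872) 4294967295)))) N) (P f 2)) N) (L (X (L (X 86 b) N) (A (L (X (L (X 1024 (A (L (R D 96) 4294967295) (X c (L (R D 23904) 4294967295)))) N) f) N) (L (X (L (X 86 b) N) (A (L (R D 128) 4294967295) (X c (L (R D 23936) 4294967295)))) N))) N))) N) (L (X (A (L (X 1 (A (L (R D 160) 4294967295) (X a (A (L (R D 192) 4294967295) (X a (L (R D 224) 4294967295)))))) N) (L (X c (A (L (R D 23968) 4294967295) (X a (A (L (R D 24000) 4294967295) (X a (L (R D 24032) 4294967295)))))) N)) (L (X (A (A (L (R D 3584) 4294967295) (X c (L (R D 27392) 4294967295))) (S M (L (X 2147483648 (A 1 (X c 1))) N))) 1) N)) N)) N) N))) (S M (L (L (X (L (X (L (X 16777216 (A (L (X (L (X (A (L (X (A (L (R D 15200) 4294967295)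 (X c (L (R D 39008) 4294967295))) 1) N) (L (X (A (L (R D 15232) 4294967295) (X c (L (R D 39040) 4294967295))) a) N)) (L (X (L (X 86 b) N) (A (L (X (L (X 1048576 (A (L (R D 64) 4294967295) (X c (L (R D 23872) 4294967295)))) N) (P f 2)) N) (L (X (L (X 86 b) N) (A (L (X (L (X 1024 (A (L (R D 96) 4294967295) (X c (L (R D 23904) 4294967295)))) N) f) N) (L (X (L (X 86 b) N) (A (L (R D 128) 4294967295) (X c (L (R D 23936) 4294967295)))) N))) N))) N)) N) (A 0 (S M (L (L (X 12 1) N) N)))) N) (A (L (X (L (X (A (L (X (A (L (R D 15328) 4294967295) (X c (L (R D 39136) 4294967295))) 1) N) (L (X (A (L (R D 15360) 4294967295) (X c (L (R D 39168) 4294967295))) a) N)) (L (X (L (X 86 b) N) (A (L (X (L (X 1048576 (A (L (R D 64) 4294967295) (X c (L (R D 23872) 4294967295)))) N) (P f 2)) N) (L (X (L (X 86 b) N) (A (L (X (L (X 1024 (A (L (R D 96) 4294967295) (X c (L (R D 23904) 4294967295)))) N) f) N) (L (X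 (L (X 86 b) N) (A (L (R D 128) 4294967295) (X c (L (R D 23936) 4294967295)))) N))) N))) N)) N) (L (X 2 1) N)) N) (A (L (X (L (X (A (L (X (A (L (R D 15392) 4294967295) (X c (L (R D 39200) 4294967295))) 1) N) (L (X (A (L (R D 15424) 4294967295) (X c (L (R D 39232) 4294967295))) a) N)) (L (X (L (X 86 b) N) (A (L (X (L (X 1048576 (A (L (R D 64) 4294967295) (X c (L (R D 23872) 4294967295)))) N) (P f 2)) N) (L (X (L (X 86 b) N) (A (L (X (L (X 1024 (A (L (R D 96) 4294967295) (X c (L (R D 23904) 4294967295)))) N) f) N) (L (X (L (X 86 b) N) (A (L (R D 128) 4294967295) (X c (L (R D 23936) 4294967295)))) N))) N))) N)) N) (A 0 (S M (L (L (X 24 1) N) N)))) N) (A (L (X (L (X (A (L (X (A (L (R D 15520) 4294967295) (X c (L (R D 39328) 4294967295))) 1) N) (L (X (A (L (R D 15552) 4294967295) (X c (L (R D 39360) 4294967295))) a) N)) (L (X (L (X 86 b) N) (A (L (X (L (X 1048576 (A (L (R D 64) 4294967295)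 (X c (L (R D 23872) 4294967295)))) N) (P f 2)) N) (L (X (L (X 86 b) N) (A (L (X (L (X 1024 (A (L (R D 96) 4294967295) (X c (L (R D 23904) 4294967295)))) N) f) N) (L (X (L (X 86 b) N) (A (L (R D 128) 4294967295) (X c (L (R D 23936) 4294967295)))) N))) N))) N)) N) (A 0 (S M (L (L (X 12 1) N) N)))) N) (A (L (X (L (X (A (L (X (A (L (R D 15648) 4294967295) (X c (L (R D 39456) 4294967295))) 1) N) (L (X (A (L (R D 15680) 4294967295) (X c (L (R D 39488) 4294967295))) a) N)) (L (X (L (X 86 b) N) (A (L (X (L (X 1048576 (A (L (R D 64) 4294967295) (X c (L (R D 23872) 4294967295)))) N) (P f 2)) N) (L (X (L (X 86 b) N) (A (L (X (L (X 1024 (A (L (R D 96) 4294967295) (X c (L (R D 23904) 4294967295)))) N) f) N) (L (X (L (X 86 b) N) (A (L (R D 128) 4294967295) (X c (L (R D 23936) 4294967295)))) N))) N))) N)) N) (L (X 2 1) N)) N) (L (X (L (X (A (L (X (A (L (R D 15712) 4294967295) (X c (L (R D 39520) 4294967295)))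 1) N) (L (X (A (L (R D 15744) 4294967295) (X c (L (R D 39552) 4294967295))) a) N)) (L (X (L (X 86 b) N) (A (L (X (L (X 1048576 (A (L (R D 64) 4294967295) (X c (L (R D 23872) 4294967295)))) N) (P f 2)) N) (L (X (L (X 86 b) N) (A (L (X (L (X 1024 (A (L (R D 96) 4294967295) (X c (L (R D 23904) 4294967295)))) N) f) N) (L (X (L (X 86 b) N) (A (L (R D 128) 4294967295) (X c (L (R D 23936) 4294967295)))) N))) N))) N)) N) (A 0 (S M (L (L (X 24 1) N) N)))) N))))))) N) e) N) g) N) N))), 130, 3, 4, 4, 1⟩,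
  ⟨fun A S X L P R M N m a b c d e f g h D => (A (A (L (X (L (X (L (X 0 (P e 2)) N) (P f 3)) N) (P g 3)) N) (S M (L (L (X (L (X (L (X 86 b) N) (A (L (X (L (X 1048576 (A (L (R D 64) 4294967295) (X c (L (R D 23872) 4294967295)))) N) (P f 2)) N) (L (X (L (X 86 b) N) (A (L (X (L (X 1024 (A (L (R D 96) 4294967295) (X c (L (R D 23904) 4294967295)))) N) f) N) (L (X (L (X 86 b) N) (A (L (R D 128) 4294967295) (X c (L (R D 23936) 4294967295)))) N))) N))) N) (L (X (A (L (X 1 (A (L (R D 160) 4294967295) (X a (A (L (R D 192) 4294967295) (X a (L (R D 224) 4294967295)))))) N) (L (X c (A (L (R D 23968) 4294967295) (X a (A (L (R D 24000) 4294967295) (X a (L (R D 24032) 4294967295)))))) N)) (L (X (A (A (L (R D 3616) 4294967295) (X c (L (R D 27424) 4294967295))) (S M (L (X 2147483648 (A 1 (X c 1))) N))) 1) N)) N)) N) N))) (S M (L (L (X (L (X (L (X 16777216 (A (L (X (L (X (A (L (X (A (L (R D 15264) 4294967295)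 (X c (L (R D 39072) 4294967295))) 1) N) (L (X (A (L (R D 15296) 4294967295) (X c (L (R D 39104) 4294967295))) a) N)) (L (X (L (X 86 b) N) (A (L (X (L (X 1048576 (A (L (R D 64) 4294967295) (X c (L (R D 23872) 4294967295)))) N) (P f 2)) N) (L (X (L (X 86 b) N) (A (L (X (L (X 1024 (A (L (R D 96) 4294967295) (X c (L (R D 23904) 4294967295)))) N) f) N) (L (X (L (X 86 b) N) (A (L (R D 128) 4294967295) (X c (L (R D 23936) 4294967295)))) N))) N))) N)) N) (A 0 (S M (L (L (X 12 1) N) N)))) N) (A (L (X (L (X (A (L (X (A (L (R D 15328) 4294967295) (X c (L (R D 39136) 4294967295))) 1) N) (L (X (A (L (R D 15360) 4294967295) (X c (L (R D 39168) 4294967295))) a) N)) (L (X (L (X 86 b) N) (A (L (X (L (X 1048576 (A (L (R D 64) 4294967295) (X c (L (R D 23872) 4294967295)))) N) (P f 2)) N) (L (X (L (X 86 b) N) (A (L (X (L (X 1024 (A (L (R D 96) 4294967295) (X c (L (R D 23904) 4294967295)))) N) f) N) (L (X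 (L (X 86 b) N) (A (L (R D 128) 4294967295) (X c (L (R D 23936) 4294967295)))) N))) N))) N)) N) (A 0 (S M (L (L (X 12 1) N) N)))) N) (A (L (X (L (X (A (L (X (A (L (R D 15392) 4294967295) (X c (L (R D 39200) 4294967295))) 1) N) (L (X (A (L (R D 15424) 4294967295) (X c (L (R D 39232) 4294967295))) a) N)) (L (X (L (X 86 b) N) (A (L (X (L (X 1048576 (A (L (R D 64) 4294967295) (X c (L (R D 23872) 4294967295)))) N) (P f 2)) N) (L (X (L (X 86 b) N) (A (L (X (L (X 1024 (A (L (R D 96) 4294967295) (X c (L (R D 23904) 4294967295)))) N) f) N) (L (X (L (X 86 b) N) (A (L (R D 128) 4294967295) (X c (L (R D 23936) 4294967295)))) N))) N))) N)) N) (L (X 144 1) N)) N) (A (L (X (L (X (A (L (X (A (L (R D 15584) 4294967295) (X c (L (R D 39392) 4294967295))) 1) N) (L (X (A (L (R D 15616) 4294967295) (X c (L (R D 39424) 4294967295))) a) N)) (L (X (L (X 86 b) N) (A (L (X (L (X 1048576 (A (L (R D 64) 4294967295)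 (X c (L (R D 23872) 4294967295)))) N) (P f 2)) N) (L (X (L (X 86 b) N) (A (L (X (L (X 1024 (A (L (R D 96) 4294967295) (X c (L (R D 23904) 4294967295)))) N) f) N) (L (X (L (X 86 b) N) (A (L (R D 128) 4294967295) (X c (L (R D 23936) 4294967295)))) N))) N))) N)) N) (A 0 (S M (L (L (X 12 1) N) N)))) N) (A (L (X (L (X (A (L (X (A (L (R D 15648) 4294967295) (X c (L (R D 39456) 4294967295))) 1) N) (L (X (A (L (R D 15680) 4294967295) (X c (L (R D 39488) 4294967295))) a) N)) (L (X (L (X 86 b) N) (A (L (X (L (X 1048576 (A (L (R D 64) 4294967295) (X c (L (R D 23872) 4294967295)))) N) (P f 2)) N) (L (X (L (X 86 b) N) (A (L (X (L (X 1024 (A (L (R D 96) 4294967295) (X c (L (R D 23904) 4294967295)))) N) f) N) (L (X (L (X 86 b) N) (A (L (R D 128) 4294967295) (X c (L (R D 23936) 4294967295)))) N))) N))) N)) N) (A 0 (S M (L (L (X 12 1) N) N)))) N) (L (X (L (X (A (L (X (A (L (R D 15712) 4294967295) (X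 c (L (R D 39520) 4294967295))) 1) N) (L (X (A (L (R D 15744) 4294967295) (X c (L (R D 39552) 4294967295))) a) N)) (L (X (L (X 86 b) N) (A (L (X (L (X 1048576 (A (L (R D 64) 4294967295) (X c (L (R D 23872) 4294967295)))) N) (P f 2)) N) (L (X (L (X 86 b) N) (A (L (X (L (X 1024 (A (L (R D 96) 4294967295) (X c (L (R D 23904) 4294967295)))) N) f) N) (L (X (L (X 86 b) N) (A (L (R D 128) 4294967295) (X c (L (R D 23936) 4294967295)))) N))) N))) N)) N) (L (X 144 1) N)) N))))))) N) e) N) g) N) N))), 131, 3, 4, 4, 1⟩,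
  ⟨fun A S X L P R M N m a b c d e f g h D => (A (L (X (L (X (L (X 0 e) N) (P f 5)) N) (P g 2)) N) (S M (L (A (L (X (L (X 1024 (L (X (L (X (A (L (X (A (L (R D 15456) 4294967295) (X c (L (R D 39264) 4294967295))) 1) N) (L (X (A (L (R D 15488) 4294967295) (X c (L (R D 39296) 4294967295))) a) N)) (L (X (L (X 86 b) N) (A (L (X (L (X 1048576 (A (L (R D 64) 4294967295) (X c (L (R D 23872) 4294967295)))) N) (P f 2)) N) (L (X (L (X 86 b) N) (A (L (X (L (X 1024 (A (L (R D 96) 4294967295) (X c (L (R D 23904) 4294967295)))) N) f) N) (L (X (L (X 86 b) N) (A (L (R D 128) 4294967295) (X c (L (R D 23936) 4294967295)))) N))) N))) N)) N) (A (L (X 0 f) N) (S M (L (L (X 12 (L (X 86 b) N)) N) N)))) N)) N) f) N) (A (L (X (L (X (A (L (X (A (L (R D 15584) 4294967295) (X c (L (R D 39392) 4294967295))) 1) N) (L (X (A (L (R D 15616) 4294967295) (X c (L (R D 39424) 4294967295))) a) N)) (L (X (L (X 86 b) N) (A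 (L (X (L (X 1048576 (A (L (R D 64) 4294967295) (X c (L (R D 23872) 4294967295)))) N) (P f 2)) N) (L (X (L (X 86 b) N) (A (L (X (L (X 1024 (A (L (R D 96) 4294967295) (X c (L (R D 23904) 4294967295)))) N) f) N) (L (X (L (X 86 b) N) (A (L (R D 128) 4294967295) (X c (L (R D 23936) 4294967295)))) N))) N))) N)) N) (A (L (X (L (X 1024 (L (X 86 b) N)) N) f) N) (S M (L (L (X 12 (L (X (L (X 86 b) N) (L (X 86 b) N)) N)) N) N)))) N) (A (L (X (L (X (A (L (X (A (L (R D 15648) 4294967295) (X c (L (R D 39456) 4294967295))) 1) N) (L (X (A (L (R D 15680) 4294967295) (X c (L (R D 39488) 4294967295))) a) N)) (L (X (L (X 86 b) N) (A (L (X (L (X 1048576 (A (L (R D 64) 4294967295) (X c (L (R D 23872) 4294967295)))) N) (P f 2)) N) (L (X (L (X 86 b) N) (A (L (X (L (X 1024 (A (L (R D 96) 4294967295) (X c (L (R D 23904) 4294967295)))) N) f) N) (L (X (L (X 86 b) N) (A (L (R D 128) 4294967295) (X c (L (R D 23936)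 4294967295)))) N))) N))) N)) N) (A (L (X 0 (P f 2)) N) (S M (L (L (X 12 (L (X (L (X 86 b) N) (L (X 86 b) N)) N)) N) N)))) N) (A (L (X (L (X (A (L (X (A (L (R D 15712) 4294967295) (X c (L (R D 39520) 4294967295))) 1) N) (L (X (A (L (R D 15744) 4294967295) (X c (L (R D 39552) 4294967295))) a) N)) (L (X (L (X 86 b) N) (A (L (X (L (X 1048576 (A (L (R D 64) 4294967295) (X c (L (R D 23872) 4294967295)))) N) (P f 2)) N) (L (X (L (X 86 b) N) (A (L (X (L (X 1024 (A (L (R D 96) 4294967295) (X c (L (R D 23904) 4294967295)))) N) f) N) (L (X (L (X 86 b) N) (A (L (R D 128) 4294967295) (X c (L (R D 23936) 4294967295)))) N))) N))) N)) N) (A (L (X 144 (L (X (L (X 86 b) N) (L (X 86 b) N)) N)) N) (S M (L (L (X (L (X 1024 (L (X 12 (L (X 86 b) N)) N)) N) f) N) N)))) N) (L (X (L (X 1048576 (L (X (L (X (A (L (X (A (L (R D 15776) 4294967295) (X c (L (R D 39584) 4294967295))) 1) N) (L (X (A (L (R D 15808) 4294967295)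 (X c (L (R D 39616) 4294967295))) a) N)) (L (X (L (X 86 b) N) (A (L (X (L (X 1048576 (A (L (R D 64) 4294967295) (X c (L (R D 23872) 4294967295)))) N) (P f 2)) N) (L (X (L (X 86 b) N) (A (L (X (L (X 1024 (A (L (R D 96) 4294967295) (X c (L (R D 23904) 4294967295)))) N) f) N) (L (X (L (X 86 b) N) (A (L (R D 128) 4294967295) (X c (L (R D 23936) 4294967295)))) N))) N))) N)) N) (A 0 (S M (L (L (X 12 1) N) N)))) N)) N) (P f 2)) N))))) N))), 122, 2, 6, 3, 1⟩,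
  ⟨fun A S X L P R M N m a b c d e f g h D => (A (L (X (A (L (X (L (X (L (X (L (X 295147905179352825856 (L (X (L (X 86 b) N) (A (L (X 1024 (A (L (X (A (L (X (L (X 1024 (A (A (L (R D 5472) 4294967295) (X c (L (R D 29280) 4294967295))) (S M (L (X 2147483648 (A 1 (X c 1))) N)))) N) e) N) (L (X (A (A (L (R D 5504) 4294967295) (X c (L (R D 29312) 4294967295))) (S M (L (X 2147483648 (A 1 (X c 1))) N))) (L (X 171 a) N)) N)) f) N) (L (X (L (X (A (A (L (R D 5536) 4294967295) (X c (L (R D 29344) 4294967295))) (S M (L (X 2147483648 (A 1 (X c 1))) N))) (L (X 86 b) N)) N) e) N))) N) (L (X (A (A (L (R D 5568) 4294967295) (X c (L (R D 29376) 4294967295))) (S M (L (X 2147483648 (A 1 (X c 1))) N))) (L (X (L (X 86 b) N) (L (X 171 a) N)) N)) N))) N)) N) (P e 3)) N) (P f 2)) N) (P g 2)) N) (S M (L (L (X (L (X (L (X 86 b) N) (A (L (X (L (X 1048576 (A (L (R D 64) 4294967295) (X c (L (R D 23872) 4294967295))))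 N) (P f 2)) N) (L (X (L (X 86 b) N) (A (L (X (L (X 1024 (A (L (R D 96) 4294967295) (X c (L (R D 23904) 4294967295)))) N) f) N) (L (X (L (X 86 b) N) (A (L (R D 128) 4294967295) (X c (L (R D 23936) 4294967295)))) N))) N))) N) (L (X (A (L (X 1 (A (L (R D 160) 4294967295) (X a (A (L (R D 192) 4294967295) (X a (L (R D 224) 4294967295)))))) N) (L (X c (A (L (R D 23968) 4294967295) (X a (A (L (R D 24000) 4294967295) (X a (L (R D 24032) 4294967295)))))) N)) (A (L (X (L (X (L (X (L (X 17592186044416 1) N) (P e 2)) N) f) N) g) N) (A (L (X (L (X 1024 (L (X (A (A (L (R D 3488) 4294967295) (X c (L (R D 27296) 4294967295))) (S M (L (X 2147483648 (A 1 (X c 1))) N))) (A (L (X (L (X 767 e) N) f) N) (A (L (X (L (X 171 1) N) f) N) (L (X (L (X 86 1) N) e) N)))) N)) N) e) N) (L (X (A (A (L (R D 3520) 4294967295) (X c (L (R D 27328) 4294967295))) (S M (L (X 2147483648 (A 1 (X c 1))) N))) (L (X (L (X 171 a)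 N) (A (L (X (L (X 767 e) N) f) N) (A (L (X (L (X 171 1) N) f) N) (L (X (L (X 86 1) N) e) N)))) N)) N)))) N)) N) N))) f) N) (S M (L (L (X (L (X (L (X 16777216 (A (L (X (L (X 1024 (L (X (L (X (A (L (X (A (L (R D 15840) 4294967295) (X c (L (R D 39648) 4294967295))) 1) N) (L (X (A (L (R D 15872) 4294967295) (X c (L (R D 39680) 4294967295))) a) N)) (L (X (L (X 86 b) N) (A (L (X (L (X 1048576 (A (L (R D 64) 4294967295) (X c (L (R D 23872) 4294967295)))) N) (P f 2)) N) (L (X (L (X 86 b) N) (A (L (X (L (X 1024 (A (L (R D 96) 4294967295) (X c (L (R D 23904) 4294967295)))) N) f) N) (L (X (L (X 86 b) N) (A (L (R D 128) 4294967295) (X c (L (R D 23936) 4294967295)))) N))) N))) N)) N) (L (X 2 (A (L (X (L (X 767 e) N) f) N) (A (L (X (L (X 171 1) N) f) N) (L (X (L (X 86 1) N) e) N)))) N)) N)) N) f) N) (A (L (X (L (X 1024 (L (X (L (X (A (L (X (A (L (R D 15904) 4294967295) (X c (L (R D 39712) 4294967295)))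 1) N) (L (X (A (L (R D 15936) 4294967295) (X c (L (R D 39744) 4294967295))) a) N)) (L (X (L (X 86 b) N) (A (L (X (L (X 1048576 (A (L (R D 64) 4294967295) (X c (L (R D 23872) 4294967295)))) N) (P f 2)) N) (L (X (L (X 86 b) N) (A (L (X (L (X 1024 (A (L (R D 96) 4294967295) (X c (L (R D 23904) 4294967295)))) N) f) N) (L (X (L (X 86 b) N) (A (L (R D 128) 4294967295) (X c (L (R D 23936) 4294967295)))) N))) N))) N)) N) (A (L (X (L (X 767 e) N) f) N) (A (L (X (L (X 171 1) N) f) N) (L (X (L (X 86 1) N) e) N)))) N)) N) f) N) (A (L (X (L (X 1024 (L (X (L (X (A (L (X (A (L (R D 16096) 4294967295) (X c (L (R D 39904) 4294967295))) 1) N) (L (X (A (L (R D 16128) 4294967295) (X c (L (R D 39936) 4294967295))) a) N)) (L (X (L (X 86 b) N) (A (L (X (L (X 1048576 (A (L (R D 64) 4294967295) (X c (L (R D 23872) 4294967295)))) N) (P f 2)) N) (L (X (L (X 86 b) N) (A (L (X (L (X 1024 (A (L (R D 96) 4294967295)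 (X c (L (R D 23904) 4294967295)))) N) f) N) (L (X (L (X 86 b) N) (A (L (R D 128) 4294967295) (X c (L (R D 23936) 4294967295)))) N))) N))) N)) N) (L (X 2 (A (L (X (L (X 767 e) N) f) N) (A (L (X (L (X 171 1) N) f) N) (L (X (L (X 86 1) N) e) N)))) N)) N)) N) f) N) (A (L (X (L (X 1024 (L (X (L (X (A (L (X (A (L (R D 16160) 4294967295) (X c (L (R D 39968) 4294967295))) 1) N) (L (X (A (L (R D 16192) 4294967295) (X c (L (R D 40000) 4294967295))) a) N)) (L (X (L (X 86 b) N) (A (L (X (L (X 1048576 (A (L (R D 64) 4294967295) (X c (L (R D 23872) 4294967295)))) N) (P f 2)) N) (L (X (L (X 86 b) N) (A (L (X (L (X 1024 (A (L (R D 96) 4294967295) (X c (L (R D 23904) 4294967295)))) N) f) N) (L (X (L (X 86 b) N) (A (L (R D 128) 4294967295) (X c (L (R D 23936) 4294967295)))) N))) N))) N)) N) (L (X 2 (A (L (X 853 e) N) (L (X 171 1) N))) N)) N)) N) (P f 2)) N) (A (L (X (L (X (A (L (X (A (L (R D 16224) 4294967295)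 (X c (L (R D 40032) 4294967295))) 1) N) (L (X (A (L (R D 16256) 4294967295) (X c (L (R D 40064) 4294967295))) a) N)) (L (X (L (X 86 b) N) (A (L (X (L (X 1048576 (A (L (R D 64) 4294967295) (X c (L (R D 23872) 4294967295)))) N) (P f 2)) N) (L (X (L (X 86 b) N) (A (L (X (L (X 1024 (A (L (R D 96) 4294967295) (X c (L (R D 23904) 4294967295)))) N) f) N) (L (X (L (X 86 b) N) (A (L (R D 128) 4294967295) (X c (L (R D 23936) 4294967295)))) N))) N))) N)) N) (A (L (X (L (X 1024 (A (L (X 853 e) N) (L (X 171 1) N))) N) (P f 2)) N) (S M (L (L (X (L (X 12 (L (X (L (X 86 b) N) (L (X 86 b) N)) N)) N) e) N) N)))) N) (A (L (X (L (X (L (X (A (L (X (A (L (R D 16352) 4294967295) (X c (L (R D 40160) 4294967295))) 1) N) (L (X (A (L (R D 16384) 4294967295) (X c (L (R D 40192) 4294967295))) a) N)) (L (X (L (X 86 b) N) (A (L (X (L (X 1048576 (A (L (R D 64) 4294967295) (X c (L (R D 23872) 4294967295)))) N) (P f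 2)) N) (L (X (L (X 86 b) N) (A (L (X (L (X 1024 (A (L (R D 96) 4294967295) (X c (L (R D 23904) 4294967295)))) N) f) N) (L (X (L (X 86 b) N) (A (L (R D 128) 4294967295) (X c (L (R D 23936) 4294967295)))) N))) N))) N)) N) (L (X 2 (L (X (L (X 86 b) N) (L (X 86 b) N)) N)) N)) N) e) N) (A (L (X (L (X (A (L (X (A (L (R D 16416) 4294967295) (X c (L (R D 40224) 4294967295))) 1) N) (L (X (A (L (R D 16448) 4294967295) (X c (L (R D 40256) 4294967295))) a) N)) (L (X (L (X 86 b) N) (A (L (X (L (X 1048576 (A (L (R D 64) 4294967295) (X c (L (R D 23872) 4294967295)))) N) (P f 2)) N) (L (X (L (X 86 b) N) (A (L (X (L (X 1024 (A (L (R D 96) 4294967295) (X c (L (R D 23904) 4294967295)))) N) f) N) (L (X (L (X 86 b) N) (A (L (R D 128) 4294967295) (X c (L (R D 23936) 4294967295)))) N))) N))) N)) N) (A (L (X (L (X 1024 (L (X 2 (A (L (X 853 e) N) (L (X 171 1) N))) N)) N) (P f 2)) N) (S M (L (L (X (L (X 24 (L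 (X (L (X 86 b) N) (L (X 86 b) N)) N)) N) e) N) N)))) N) (L (X (L (X (L (X 1048576 (L (X (L (X (A (L (X (A (L (R D 16480) 4294967295) (X c (L (R D 40288) 4294967295))) 1) N) (L (X (A (L (R D 16512) 4294967295) (X c (L (R D 40320) 4294967295))) a) N)) (L (X (L (X 86 b) N) (A (L (X (L (X 1048576 (A (L (R D 64) 4294967295) (X c (L (R D 23872) 4294967295)))) N) (P f 2)) N) (L (X (L (X 86 b) N) (A (L (X (L (X 1024 (A (L (R D 96) 4294967295) (X c (L (R D 23904) 4294967295)))) N) f) N) (L (X (L (X 86 b) N) (A (L (R D 128) 4294967295) (X c (L (R D 23936) 4294967295)))) N))) N))) N)) N) 2) N)) N) e) N) (P f 2)) N))))))))) N) (P e 2)) N) g) N) N))), 154, 5, 6, 4, 1⟩,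
  ⟨fun A S X L P R M N m a b c d e f g h D => (A (A (L (X (L (X (L (X 0 (P e 3)) N) (P f 3)) N) (P g 3)) N) (S M (L (L (X (L (X (L (X 86 b) N) (A (L (X (L (X 1048576 (A (L (R D 64) 4294967295) (X c (L (R D 23872) 4294967295)))) N) (P f 2)) N) (L (X (L (X 86 b) N) (A (L (X (L (X 1024 (A (L (R D 96) 4294967295) (X c (L (R D 23904) 4294967295)))) N) f) N) (L (X (L (X 86 b) N) (A (L (R D 128) 4294967295) (X c (L (R D 23936) 4294967295)))) N))) N))) N) (L (X (A (L (X 1 (A (L (R D 160) 4294967295) (X a (A (L (R D 192) 4294967295) (X a (L (R D 224) 4294967295)))))) N) (L (X c (A (L (R D 23968) 4294967295) (X a (A (L (R D 24000) 4294967295) (X a (L (R D 24032) 4294967295)))))) N)) (L (X (A (L (X (L (X 1024 (A (A (L (R D 3552) 4294967295) (X c (L (R D 27360) 4294967295))) (S M (L (X 2147483648 (A 1 (X c 1))) N)))) N) e) N) (L (X (L (X 171 a) N) (A (A (L (R D 3648) 4294967295) (X c (L (R D 27456)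 4294967295))) (S M (L (X 2147483648 (A 1 (X c 1))) N)))) N)) 1) N)) N)) N) N))) (S M (L (L (X (L (X (L (X 17179869184 (A (L (X (L (X (A (L (X (A (L (R D 15840) 4294967295) (X c (L (R D 39648) 4294967295))) 1) N) (L (X (A (L (R D 15872) 4294967295) (X c (L (R D 39680) 4294967295))) a) N)) (L (X (L (X 86 b) N) (A (L (X (L (X 1048576 (A (L (R D 64) 4294967295) (X c (L (R D 23872) 4294967295)))) N) (P f 2)) N) (L (X (L (X 86 b) N) (A (L (X (L (X 1024 (A (L (R D 96) 4294967295) (X c (L (R D 23904) 4294967295)))) N) f) N) (L (X (L (X 86 b) N) (A (L (R D 128) 4294967295) (X c (L (R D 23936) 4294967295)))) N))) N))) N)) N) (A 0 (S M (L (L (X 12 1) N) N)))) N) (A (L (X (L (X (A (L (X (A (L (R D 15968) 4294967295) (X c (L (R D 39776) 4294967295))) 1) N) (L (X (A (L (R D 16000) 4294967295) (X c (L (R D 39808) 4294967295))) a) N)) (L (X (L (X 86 b) N) (A (L (X (L (X 1048576 (A (L (R D 64) 4294967295)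 (X c (L (R D 23872) 4294967295)))) N) (P f 2)) N) (L (X (L (X 86 b) N) (A (L (X (L (X 1024 (A (L (R D 96) 4294967295) (X c (L (R D 23904) 4294967295)))) N) f) N) (L (X (L (X 86 b) N) (A (L (R D 128) 4294967295) (X c (L (R D 23936) 4294967295)))) N))) N))) N)) N) 1) N) (A (L (X (L (X (A (L (X (A (L (R D 16096) 4294967295) (X c (L (R D 39904) 4294967295))) 1) N) (L (X (A (L (R D 16128) 4294967295) (X c (L (R D 39936) 4294967295))) a) N)) (L (X (L (X 86 b) N) (A (L (X (L (X 1048576 (A (L (R D 64) 4294967295) (X c (L (R D 23872) 4294967295)))) N) (P f 2)) N) (L (X (L (X 86 b) N) (A (L (X (L (X 1024 (A (L (R D 96) 4294967295) (X c (L (R D 23904) 4294967295)))) N) f) N) (L (X (L (X 86 b) N) (A (L (R D 128) 4294967295) (X c (L (R D 23936) 4294967295)))) N))) N))) N)) N) (A 0 (S M (L (L (X 12 1) N) N)))) N) (A (L (X (L (X (A (L (X (A (L (R D 16160) 4294967295) (X c (L (R D 39968) 4294967295)))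 1) N) (L (X (A (L (R D 16192) 4294967295) (X c (L (R D 40000) 4294967295))) a) N)) (L (X (L (X 86 b) N) (A (L (X (L (X 1048576 (A (L (R D 64) 4294967295) (X c (L (R D 23872) 4294967295)))) N) (P f 2)) N) (L (X (L (X 86 b) N) (A (L (X (L (X 1024 (A (L (R D 96) 4294967295) (X c (L (R D 23904) 4294967295)))) N) f) N) (L (X (L (X 86 b) N) (A (L (R D 128) 4294967295) (X c (L (R D 23936) 4294967295)))) N))) N))) N)) N) (A 0 (S M (L (L (X 12 1) N) N)))) N) (A (L (X (L (X (A (L (X (A (L (R D 16288) 4294967295) (X c (L (R D 40096) 4294967295))) 1) N) (L (X (A (L (R D 16320) 4294967295) (X c (L (R D 40128) 4294967295))) a) N)) (L (X (L (X 86 b) N) (A (L (X (L (X 1048576 (A (L (R D 64) 4294967295) (X c (L (R D 23872) 4294967295)))) N) (P f 2)) N) (L (X (L (X 86 b) N) (A (L (X (L (X 1024 (A (L (R D 96) 4294967295) (X c (L (R D 23904) 4294967295)))) N) f) N) (L (X (L (X 86 b) N) (A (L (R D 128) 4294967295)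 (X c (L (R D 23936) 4294967295)))) N))) N))) N)) N) 1) N) (L (X (L (X (A (L (X (A (L (R D 16416) 4294967295) (X c (L (R D 40224) 4294967295))) 1) N) (L (X (A (L (R D 16448) 4294967295) (X c (L (R D 40256) 4294967295))) a) N)) (L (X (L (X 86 b) N) (A (L (X (L (X 1048576 (A (L (R D 64) 4294967295) (X c (L (R D 23872) 4294967295)))) N) (P f 2)) N) (L (X (L (X 86 b) N) (A (L (X (L (X 1024 (A (L (R D 96) 4294967295) (X c (L (R D 23904) 4294967295)))) N) f) N) (L (X (L (X 86 b) N) (A (L (R D 128) 4294967295) (X c (L (R D 23936) 4294967295)))) N))) N))) N)) N) (A 0 (S M (L (L (X 12 1) N) N)))) N))))))) N) (P e 2)) N) g) N) N))), 141, 4, 4, 4, 1⟩,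
  ⟨fun A S X L P R M N m a b c d e f g h D => (A (A (L (X (L (X (L (X 0 (P e 2)) N) (P f 3)) N) (P g 3)) N) (S M (L (L (X (L (X (L (X 86 b) N) (A (L (X (L (X 1048576 (A (L (R D 64) 4294967295) (X c (L (R D 23872) 4294967295)))) N) (P f 2)) N) (L (X (L (X 86 b) N) (A (L (X (L (X 1024 (A (L (R D 96) 4294967295) (X c (L (R D 23904) 4294967295)))) N) f) N) (L (X (L (X 86 b) N) (A (L (R D 128) 4294967295) (X c (L (R D 23936) 4294967295)))) N))) N))) N) (L (X (A (L (X 1 (A (L (R D 160) 4294967295) (X a (A (L (R D 192) 4294967295) (X a (L (R D 224) 4294967295)))))) N) (L (X c (A (L (R D 23968) 4294967295) (X a (A (L (R D 24000) 4294967295) (X a (L (R D 24032) 4294967295)))))) N)) (L (X (A (A (L (R D 3584) 4294967295) (X c (L (R D 27392) 4294967295))) (S M (L (X 2147483648 (A 1 (X c 1))) N))) 1) N)) N)) N) N))) (S M (L (L (X (L (X (L (X 16777216 (A (L (X (L (X (A (L (X (A (L (R D 15904) 4294967295)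 (X c (L (R D 39712) 4294967295))) 1) N) (L (X (A (L (R D 15936) 4294967295) (X c (L (R D 39744) 4294967295))) a) N)) (L (X (L (X 86 b) N) (A (L (X (L (X 1048576 (A (L (R D 64) 4294967295) (X c (L (R D 23872) 4294967295)))) N) (P f 2)) N) (L (X (L (X 86 b) N) (A (L (X (L (X 1024 (A (L (R D 96) 4294967295) (X c (L (R D 23904) 4294967295)))) N) f) N) (L (X (L (X 86 b) N) (A (L (R D 128) 4294967295) (X c (L (R D 23936) 4294967295)))) N))) N))) N)) N) (A 0 (S M (L (L (X 12 1) N) N)))) N) (A (L (X (L (X (A (L (X (A (L (R D 16032) 4294967295) (X c (L (R D 39840) 4294967295))) 1) N) (L (X (A (L (R D 16064) 4294967295) (X c (L (R D 39872) 4294967295))) a) N)) (L (X (L (X 86 b) N) (A (L (X (L (X 1048576 (A (L (R D 64) 4294967295) (X c (L (R D 23872) 4294967295)))) N) (P f 2)) N) (L (X (L (X 86 b) N) (A (L (X (L (X 1024 (A (L (R D 96) 4294967295) (X c (L (R D 23904) 4294967295)))) N) f) N) (L (X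 (L (X 86 b) N) (A (L (R D 128) 4294967295) (X c (L (R D 23936) 4294967295)))) N))) N))) N)) N) (L (X 2 1) N)) N) (A (L (X (L (X (A (L (X (A (L (R D 16096) 4294967295) (X c (L (R D 39904) 4294967295))) 1) N) (L (X (A (L (R D 16128) 4294967295) (X c (L (R D 39936) 4294967295))) a) N)) (L (X (L (X 86 b) N) (A (L (X (L (X 1048576 (A (L (R D 64) 4294967295) (X c (L (R D 23872) 4294967295)))) N) (P f 2)) N) (L (X (L (X 86 b) N) (A (L (X (L (X 1024 (A (L (R D 96) 4294967295) (X c (L (R D 23904) 4294967295)))) N) f) N) (L (X (L (X 86 b) N) (A (L (R D 128) 4294967295) (X c (L (R D 23936) 4294967295)))) N))) N))) N)) N) (A 0 (S M (L (L (X 24 1) N) N)))) N) (A (L (X (L (X (A (L (X (A (L (R D 16224) 4294967295) (X c (L (R D 40032) 4294967295))) 1) N) (L (X (A (L (R D 16256) 4294967295) (X c (L (R D 40064) 4294967295))) a) N)) (L (X (L (X 86 b) N) (A (L (X (L (X 1048576 (A (L (R D 64) 4294967295)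 (X c (L (R D 23872) 4294967295)))) N) (P f 2)) N) (L (X (L (X 86 b) N) (A (L (X (L (X 1024 (A (L (R D 96) 4294967295) (X c (L (R D 23904) 4294967295)))) N) f) N) (L (X (L (X 86 b) N) (A (L (R D 128) 4294967295) (X c (L (R D 23936) 4294967295)))) N))) N))) N)) N) (A 0 (S M (L (L (X 12 1) N) N)))) N) (A (L (X (L (X (A (L (X (A (L (R D 16352) 4294967295) (X c (L (R D 40160) 4294967295))) 1) N) (L (X (A (L (R D 16384) 4294967295) (X c (L (R D 40192) 4294967295))) a) N)) (L (X (L (X 86 b) N) (A (L (X (L (X 1048576 (A (L (R D 64) 4294967295) (X c (L (R D 23872) 4294967295)))) N) (P f 2)) N) (L (X (L (X 86 b) N) (A (L (X (L (X 1024 (A (L (R D 96) 4294967295) (X c (L (R D 23904) 4294967295)))) N) f) N) (L (X (L (X 86 b) N) (A (L (R D 128) 4294967295) (X c (L (R D 23936) 4294967295)))) N))) N))) N)) N) (L (X 2 1) N)) N) (L (X (L (X (A (L (X (A (L (R D 16416) 4294967295) (X c (L (R D 40224) 4294967295)))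 1) N) (L (X (A (L (R D 16448) 4294967295) (X c (L (R D 40256) 4294967295))) a) N)) (L (X (L (X 86 b) N) (A (L (X (L (X 1048576 (A (L (R D 64) 4294967295) (X c (L (R D 23872) 4294967295)))) N) (P f 2)) N) (L (X (L (X 86 b) N) (A (L (X (L (X 1024 (A (L (R D 96) 4294967295) (X c (L (R D 23904) 4294967295)))) N) f) N) (L (X (L (X 86 b) N) (A (L (R D 128) 4294967295) (X c (L (R D 23936) 4294967295)))) N))) N))) N)) N) (A 0 (S M (L (L (X 24 1) N) N)))) N))))))) N) e) N) g) N) N))), 130, 3, 4, 4, 1⟩,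
  ⟨fun A S X L P R M N m a b c d e f g h D => (A (A (L (X (L (X (L (X 0 (P e 2)) N) (P f 3)) N) (P g 3)) N) (S M (L (L (X (L (X (L (X 86 b) N) (A (L (X (L (X 1048576 (A (L (R D 64) 4294967295) (X c (L (R D 23872) 4294967295)))) N) (P f 2)) N) (L (X (L (X 86 b) N) (A (L (X (L (X 1024 (A (L (R D 96) 4294967295) (X c (L (R D 23904) 4294967295)))) N) f) N) (L (X (L (X 86 b) N) (A (L (R D 128) 4294967295) (X c (L (R D 23936) 4294967295)))) N))) N))) N) (L (X (A (L (X 1 (A (L (R D 160) 4294967295) (X a (A (L (R D 192) 4294967295) (X a (L (R D 224) 4294967295)))))) N) (L (X c (A (L (R D 23968) 4294967295) (X a (A (L (R D 24000) 4294967295) (X a (L (R D 24032) 4294967295)))))) N)) (L (X (A (A (L (R D 3616) 4294967295) (X c (L (R D 27424) 4294967295))) (S M (L (X 2147483648 (A 1 (X c 1))) N))) 1) N)) N)) N) N))) (S M (L (L (X (L (X (L (X 16777216 (A (L (X (L (X (A (L (X (A (L (R D 15968) 4294967295)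 (X c (L (R D 39776) 4294967295))) 1) N) (L (X (A (L (R D 16000) 4294967295) (X c (L (R D 39808) 4294967295))) a) N)) (L (X (L (X 86 b) N) (A (L (X (L (X 1048576 (A (L (R D 64) 4294967295) (X c (L (R D 23872) 4294967295)))) N) (P f 2)) N) (L (X (L (X 86 b) N) (A (L (X (L (X 1024 (A (L (R D 96) 4294967295) (X c (L (R D 23904) 4294967295)))) N) f) N) (L (X (L (X 86 b) N) (A (L (R D 128) 4294967295) (X c (L (R D 23936) 4294967295)))) N))) N))) N)) N) (A 0 (S M (L (L (X 12 1) N) N)))) N) (A (L (X (L (X (A (L (X (A (L (R D 16032) 4294967295) (X c (L (R D 39840) 4294967295))) 1) N) (L (X (A (L (R D 16064) 4294967295) (X c (L (R D 39872) 4294967295))) a) N)) (L (X (L (X 86 b) N) (A (L (X (L (X 1048576 (A (L (R D 64) 4294967295) (X c (L (R D 23872) 4294967295)))) N) (P f 2)) N) (L (X (L (X 86 b) N) (A (L (X (L (X 1024 (A (L (R D 96) 4294967295) (X c (L (R D 23904) 4294967295)))) N) f) N) (L (X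 (L (X 86 b) N) (A (L (R D 128) 4294967295) (X c (L (R D 23936) 4294967295)))) N))) N))) N)) N) (A 0 (S M (L (L (X 12 1) N) N)))) N) (A (L (X (L (X (A (L (X (A (L (R D 16096) 4294967295) (X c (L (R D 39904) 4294967295))) 1) N) (L (X (A (L (R D 16128) 4294967295) (X c (L (R D 39936) 4294967295))) a) N)) (L (X (L (X 86 b) N) (A (L (X (L (X 1048576 (A (L (R D 64) 4294967295) (X c (L (R D 23872) 4294967295)))) N) (P f 2)) N) (L (X (L (X 86 b) N) (A (L (X (L (X 1024 (A (L (R D 96) 4294967295) (X c (L (R D 23904) 4294967295)))) N) f) N) (L (X (L (X 86 b) N) (A (L (R D 128) 4294967295) (X c (L (R D 23936) 4294967295)))) N))) N))) N)) N) (L (X 144 1) N)) N) (A (L (X (L (X (A (L (X (A (L (R D 16288) 4294967295) (X c (L (R D 40096) 4294967295))) 1) N) (L (X (A (L (R D 16320) 4294967295) (X c (L (R D 40128) 4294967295))) a) N)) (L (X (L (X 86 b) N) (A (L (X (L (X 1048576 (A (L (R D 64) 4294967295)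 (X c (L (R D 23872) 4294967295)))) N) (P f 2)) N) (L (X (L (X 86 b) N) (A (L (X (L (X 1024 (A (L (R D 96) 4294967295) (X c (L (R D 23904) 4294967295)))) N) f) N) (L (X (L (X 86 b) N) (A (L (R D 128) 4294967295) (X c (L (R D 23936) 4294967295)))) N))) N))) N)) N) (A 0 (S M (L (L (X 12 1) N) N)))) N) (A (L (X (L (X (A (L (X (A (L (R D 16352) 4294967295) (X c (L (R D 40160) 4294967295))) 1) N) (L (X (A (L (R D 16384) 4294967295) (X c (L (R D 40192) 4294967295))) a) N)) (L (X (L (X 86 b) N) (A (L (X (L (X 1048576 (A (L (R D 64) 4294967295) (X c (L (R D 23872) 4294967295)))) N) (P f 2)) N) (L (X (L (X 86 b) N) (A (L (X (L (X 1024 (A (L (R D 96) 4294967295) (X c (L (R D 23904) 4294967295)))) N) f) N) (L (X (L (X 86 b) N) (A (L (R D 128) 4294967295) (X c (L (R D 23936) 4294967295)))) N))) N))) N)) N) (A 0 (S M (L (L (X 12 1) N) N)))) N) (L (X (L (X (A (L (X (A (L (R D 16416) 4294967295) (X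 c (L (R D 40224) 4294967295))) 1) N) (L (X (A (L (R D 16448) 4294967295) (X c (L (R D 40256) 4294967295))) a) N)) (L (X (L (X 86 b) N) (A (L (X (L (X 1048576 (A (L (R D 64) 4294967295) (X c (L (R D 23872) 4294967295)))) N) (P f 2)) N) (L (X (L (X 86 b) N) (A (L (X (L (X 1024 (A (L (R D 96) 4294967295) (X c (L (R D 23904) 4294967295)))) N) f) N) (L (X (L (X 86 b) N) (A (L (R D 128) 4294967295) (X c (L (R D 23936) 4294967295)))) N))) N))) N)) N) (L (X 144 1) N)) N))))))) N) e) N) g) N) N))), 131, 3, 4, 4, 1⟩,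
  ⟨fun A S X L P R M N m a b c d e f g h D => (A (L (X (L (X (L (X 0 e) N) (P f 5)) N) (P g 2)) N) (S M (L (A (L (X (L (X 1024 (L (X (L (X (A (L (X (A (L (R D 16160) 4294967295) (X c (L (R D 39968) 4294967295))) 1) N) (L (X (A (L (R D 16192) 4294967295) (X c (L (R D 40000) 4294967295))) a) N)) (L (X (L (X 86 b) N) (A (L (X (L (X 1048576 (A (L (R D 64) 4294967295) (X c (L (R D 23872) 4294967295)))) N) (P f 2)) N) (L (X (L (X 86 b) N) (A (L (X (L (X 1024 (A (L (R D 96) 4294967295) (X c (L (R D 23904) 4294967295)))) N) f) N) (L (X (L (X 86 b) N) (A (L (R D 128) 4294967295) (X c (L (R D 23936) 4294967295)))) N))) N))) N)) N) (A (L (X 0 f) N) (S M (L (L (X 12 (L (X 86 b) N)) N) N)))) N)) N) f) N) (A (L (X (L (X (A (L (X (A (L (R D 16288) 4294967295) (X c (L (R D 40096) 4294967295))) 1) N) (L (X (A (L (R D 16320) 4294967295) (X c (L (R D 40128) 4294967295))) a) N)) (L (X (L (X 86 b) N) (A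 (L (X (L (X 1048576 (A (L (R D 64) 4294967295) (X c (L (R D 23872) 4294967295)))) N) (P f 2)) N) (L (X (L (X 86 b) N) (A (L (X (L (X 1024 (A (L (R D 96) 4294967295) (X c (L (R D 23904) 4294967295)))) N) f) N) (L (X (L (X 86 b) N) (A (L (R D 128) 4294967295) (X c (L (R D 23936) 4294967295)))) N))) N))) N)) N) (A (L (X (L (X 1024 (L (X 86 b) N)) N) f) N) (S M (L (L (X 12 (L (X (L (X 86 b) N) (L (X 86 b) N)) N)) N) N)))) N) (A (L (X (L (X (A (L (X (A (L (R D 16352) 4294967295) (X c (L (R D 40160) 4294967295))) 1) N) (L (X (A (L (R D 16384) 4294967295) (X c (L (R D 40192) 4294967295))) a) N)) (L (X (L (X 86 b) N) (A (L (X (L (X 1048576 (A (L (R D 64) 4294967295) (X c (L (R D 23872) 4294967295)))) N) (P f 2)) N) (L (X (L (X 86 b) N) (A (L (X (L (X 1024 (A (L (R D 96) 4294967295) (X c (L (R D 23904) 4294967295)))) N) f) N) (L (X (L (X 86 b) N) (A (L (R D 128) 4294967295) (X c (L (R D 23936)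 4294967295)))) N))) N))) N)) N) (A (L (X 0 (P f 2)) N) (S M (L (L (X 12 (L (X (L (X 86 b) N) (L (X 86 b) N)) N)) N) N)))) N) (A (L (X (L (X (A (L (X (A (L (R D 16416) 4294967295) (X c (L (R D 40224) 4294967295))) 1) N) (L (X (A (L (R D 16448) 4294967295) (X c (L (R D 40256) 4294967295))) a) N)) (L (X (L (X 86 b) N) (A (L (X (L (X 1048576 (A (L (R D 64) 4294967295) (X c (L (R D 23872) 4294967295)))) N) (P f 2)) N) (L (X (L (X 86 b) N) (A (L (X (L (X 1024 (A (L (R D 96) 4294967295) (X c (L (R D 23904) 4294967295)))) N) f) N) (L (X (L (X 86 b) N) (A (L (R D 128) 4294967295) (X c (L (R D 23936) 4294967295)))) N))) N))) N)) N) (A (L (X 144 (L (X (L (X 86 b) N) (L (X 86 b) N)) N)) N) (S M (L (L (X (L (X 1024 (L (X 12 (L (X 86 b) N)) N)) N) f) N) N)))) N) (L (X (L (X 1048576 (L (X (L (X (A (L (X (A (L (R D 16480) 4294967295) (X c (L (R D 40288) 4294967295))) 1) N) (L (X (A (L (R D 16512) 4294967295)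 (X c (L (R D 40320) 4294967295))) a) N)) (L (X (L (X 86 b) N) (A (L (X (L (X 1048576 (A (L (R D 64) 4294967295) (X c (L (R D 23872) 4294967295)))) N) (P f 2)) N) (L (X (L (X 86 b) N) (A (L (X (L (X 1024 (A (L (R D 96) 4294967295) (X c (L (R D 23904) 4294967295)))) N) f) N) (L (X (L (X 86 b) N) (A (L (R D 128) 4294967295) (X c (L (R D 23936) 4294967295)))) N))) N))) N)) N) (A 0 (S M (L (L (X 12 1) N) N)))) N)) N) (P f 2)) N))))) N))), 122, 2, 6, 3, 1⟩,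
  ⟨fun A S X L P R M N m a b c d e f g h D => (A (A (L (X (L (X (L (X (L (X 295147905179352825856 (L (X (L (X 86 b) N) (A (L (X 1024 (A (L (X (A (L (X (L (X 1024 (A (A (L (R D 5600) 4294967295) (X c (L (R D 29408) 4294967295))) (S M (L (X 2147483648 (A 1 (X c 1))) N)))) N) e) N) (L (X (A (A (L (R D 5632) 4294967295) (X c (L (R D 29440) 4294967295))) (S M (L (X 2147483648 (A 1 (X c 1))) N))) (L (X 171 a) N)) N)) f) N) (L (X (L (X (A (A (L (R D 5664) 4294967295) (X c (L (R D 29472) 4294967295))) (S M (L (X 2147483648 (A 1 (X c 1))) N))) (L (X 86 b) N)) N) e) N))) N) (L (X (A (A (L (R D 5696) 4294967295) (X c (L (R D 29504) 4294967295))) (S M (L (X 2147483648 (A 1 (X c 1))) N))) (L (X (L (X 86 b) N) (L (X 171 a) N)) N)) N))) N)) N) (P e 3)) N) (P f 3)) N) (P g 2)) N) (S M (L (L (X (L (X (L (X 86 b) N) (A (L (X (L (X 1048576 (A (L (R D 64) 4294967295) (X c (L (R D 23872) 4294967295)))) N)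 (P f 2)) N) (L (X (L (X 86 b) N) (A (L (X (L (X 1024 (A (L (R D 96) 4294967295) (X c (L (R D 23904) 4294967295)))) N) f) N) (L (X (L (X 86 b) N) (A (L (R D 128) 4294967295) (X c (L (R D 23936) 4294967295)))) N))) N))) N) (A (L (X (L (X (L (X 16777216 (L (X 1 (A (L (X (A (L (X (L (X 1024 (L (X (A (A (L (R D 1120) 4294967295) (X c (L (R D 24928) 4294967295))) (S M (L (X 2147483648 (A 1 (X c 1))) N))) (A (L (X 853 e) N) (L (X 171 1) N))) N)) N) e) N) (L (X (A (A (L (R D 1152) 4294967295) (X c (L (R D 24960) 4294967295))) (S M (L (X 2147483648 (A 1 (X c 1))) N))) (L (X (L (X 171 a) N) (A (L (X 853 e) N) (L (X 171 1) N))) N)) N)) (P f 2)) N) (L (X (L (X (A (A (L (R D 1216) 4294967295) (X c (L (R D 25024) 4294967295))) (S M (L (X 2147483648 (A 1 (X c 1))) N))) (L (X (L (X 86 b) N) (L (X 86 b) N)) N)) N) (P e 2)) N))) N)) N) (P e 2)) N) g) N) (L (X (L (X (A (L (X 1 (A (L (R D 160) 4294967295)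 (X a (A (L (R D 192) 4294967295) (X a (L (R D 224) 4294967295)))))) N) (L (X c (A (L (R D 23968) 4294967295) (X a (A (L (R D 24000) 4294967295) (X a (L (R D 24032) 4294967295)))))) N)) (A (L (X (L (X 1024 (L (X (A (A (L (R D 2336) 4294967295) (X c (L (R D 26144) 4294967295))) (S M (L (X 2147483648 (A 1 (X c 1))) N))) (A (L (X (L (X 767 e) N) f) N) (A (L (X (L (X 171 1) N) f) N) (L (X (L (X 86 1) N) e) N)))) N)) N) e) N) (L (X (A (A (L (R D 2368) 4294967295) (X c (L (R D 26176) 4294967295))) (S M (L (X 2147483648 (A 1 (X c 1))) N))) (L (X (L (X 171 a) N) (A (L (X (L (X 767 e) N) f) N) (A (L (X (L (X 171 1) N) f) N) (L (X (L (X 86 1) N) e) N)))) N)) N))) N) f) N))) N) N))) (S M (L (L (X (L (X (L (X 16777216 (A (L (X (L (X 1024 (L (X (L (X (A (L (X (A (L (R D 16544) 4294967295) (X c (L (R D 40352) 4294967295))) 1) N) (L (X (A (L (R D 16576) 4294967295) (X c (L (R D 40384) 4294967295)))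 a) N)) (L (X (L (X 86 b) N) (A (L (X (L (X 1048576 (A (L (R D 64) 4294967295) (X c (L (R D 23872) 4294967295)))) N) (P f 2)) N) (L (X (L (X 86 b) N) (A (L (X (L (X 1024 (A (L (R D 96) 4294967295) (X c (L (R D 23904) 4294967295)))) N) f) N) (L (X (L (X 86 b) N) (A (L (R D 128) 4294967295) (X c (L (R D 23936) 4294967295)))) N))) N))) N)) N) (L (X 2 (A (L (X (L (X 767 e) N) f) N) (A (L (X (L (X 171 1) N) f) N) (L (X (L (X 86 1) N) e) N)))) N)) N)) N) f) N) (A (L (X (L (X 1024 (L (X (L (X (A (L (X (A (L (R D 16608) 4294967295) (X c (L (R D 40416) 4294967295))) 1) N) (L (X (A (L (R D 16640) 4294967295) (X c (L (R D 40448) 4294967295))) a) N)) (L (X (L (X 86 b) N) (A (L (X (L (X 1048576 (A (L (R D 64) 4294967295) (X c (L (R D 23872) 4294967295)))) N) (P f 2)) N) (L (X (L (X 86 b) N) (A (L (X (L (X 1024 (A (L (R D 96) 4294967295) (X c (L (R D 23904) 4294967295)))) N) f) N) (L (X (L (X 86 b)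 N) (A (L (R D 128) 4294967295) (X c (L (R D 23936) 4294967295)))) N))) N))) N)) N) (A (L (X (L (X 767 e) N) f) N) (A (L (X (L (X 171 1) N) f) N) (L (X (L (X 86 1) N) e) N)))) N)) N) f) N) (A (L (X (L (X 1024 (L (X (L (X (A (L (X (A (L (R D 16800) 4294967295) (X c (L (R D 40608) 4294967295))) 1) N) (L (X (A (L (R D 16832) 4294967295) (X c (L (R D 40640) 4294967295))) a) N)) (L (X (L (X 86 b) N) (A (L (X (L (X 1048576 (A (L (R D 64) 4294967295) (X c (L (R D 23872) 4294967295)))) N) (P f 2)) N) (L (X (L (X 86 b) N) (A (L (X (L (X 1024 (A (L (R D 96) 4294967295) (X c (L (R D 23904) 4294967295)))) N) f) N) (L (X (L (X 86 b) N) (A (L (R D 128) 4294967295) (X c (L (R D 23936) 4294967295)))) N))) N))) N)) N) (L (X 2 (A (L (X (L (X 767 e) N) f) N) (A (L (X (L (X 171 1) N) f) N) (L (X (L (X 86 1) N) e) N)))) N)) N)) N) f) N) (A (L (X (L (X 1024 (L (X (L (X (A (L (X (A (L (R D 16864) 4294967295)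 (X c (L (R D 40672) 4294967295))) 1) N) (L (X (A (L (R D 16896) 4294967295) (X c (L (R D 40704) 4294967295))) a) N)) (L (X (L (X 86 b) N) (A (L (X (L (X 1048576 (A (L (R D 64) 4294967295) (X c (L (R D 23872) 4294967295)))) N) (P f 2)) N) (L (X (L (X 86 b) N) (A (L (X (L (X 1024 (A (L (R D 96) 4294967295) (X c (L (R D 23904) 4294967295)))) N) f) N) (L (X (L (X 86 b) N) (A (L (R D 128) 4294967295) (X c (L (R D 23936) 4294967295)))) N))) N))) N)) N) (L (X 2 (A (L (X 853 e) N) (L (X 171 1) N))) N)) N)) N) (P f 2)) N) (A (L (X (L (X (A (L (X (A (L (R D 16928) 4294967295) (X c (L (R D 40736) 4294967295))) 1) N) (L (X (A (L (R D 16960) 4294967295) (X c (L (R D 40768) 4294967295))) a) N)) (L (X (L (X 86 b) N) (A (L (X (L (X 1048576 (A (L (R D 64) 4294967295) (X c (L (R D 23872) 4294967295)))) N) (P f 2)) N) (L (X (L (X 86 b) N) (A (L (X (L (X 1024 (A (L (R D 96) 4294967295) (X c (L (R D 23904)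 4294967295)))) N) f) N) (L (X (L (X 86 b) N) (A (L (R D 128) 4294967295) (X c (L (R D 23936) 4294967295)))) N))) N))) N)) N) (A (L (X (L (X 1024 (A (L (X 853 e) N) (L (X 171 1) N))) N) (P f 2)) N) (S M (L (L (X (L (X 12 (L (X (L (X 86 b) N) (L (X 86 b) N)) N)) N) e) N) N)))) N) (A (L (X (L (X (L (X (A (L (X (A (L (R D 17056) 4294967295) (X c (L (R D 40864) 4294967295))) 1) N) (L (X (A (L (R D 17088) 4294967295) (X c (L (R D 40896) 4294967295))) a) N)) (L (X (L (X 86 b) N) (A (L (X (L (X 1048576 (A (L (R D 64) 4294967295) (X c (L (R D 23872) 4294967295)))) N) (P f 2)) N) (L (X (L (X 86 b) N) (A (L (X (L (X 1024 (A (L (R D 96) 4294967295) (X c (L (R D 23904) 4294967295)))) N) f) N) (L (X (L (X 86 b) N) (A (L (R D 128) 4294967295) (X c (L (R D 23936) 4294967295)))) N))) N))) N)) N) (L (X 2 (L (X (L (X 86 b) N) (L (X 86 b) N)) N)) N)) N) e) N) (A (L (X (L (X (A (L (X (A (L (R D 17120) 4294967295)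 (X c (L (R D 40928) 4294967295))) 1) N) (L (X (A (L (R D 17152) 4294967295) (X c (L (R D 40960) 4294967295))) a) N)) (L (X (L (X 86 b) N) (A (L (X (L (X 1048576 (A (L (R D 64) 4294967295) (X c (L (R D 23872) 4294967295)))) N) (P f 2)) N) (L (X (L (X 86 b) N) (A (L (X (L (X 1024 (A (L (R D 96) 4294967295) (X c (L (R D 23904) 4294967295)))) N) f) N) (L (X (L (X 86 b) N) (A (L (R D 128) 4294967295) (X c (L (R D 23936) 4294967295)))) N))) N))) N)) N) (A (L (X (L (X 1024 (L (X 2 (A (L (X 853 e) N) (L (X 171 1) N))) N)) N) (P f 2)) N) (S M (L (L (X (L (X 24 (L (X (L (X 86 b) N) (L (X 86 b) N)) N)) N) e) N) N)))) N) (L (X (L (X (L (X 1048576 (L (X (L (X (A (L (X (A (L (R D 17184) 4294967295) (X c (L (R D 40992) 4294967295))) 1) N) (L (X (A (L (R D 17216) 4294967295) (X c (L (R D 41024) 4294967295))) a) N)) (L (X (L (X 86 b) N) (A (L (X (L (X 1048576 (A (L (R D 64) 4294967295) (X c (L (R D 23872)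 4294967295)))) N) (P f 2)) N) (L (X (L (X 86 b) N) (A (L (X (L (X 1024 (A (L (R D 96) 4294967295) (X c (L (R D 23904) 4294967295)))) N) f) N) (L (X (L (X 86 b) N) (A (L (R D 128) 4294967295) (X c (L (R D 23936) 4294967295)))) N))) N))) N)) N) 2) N)) N) e) N) (P f 2)) N))))))))) N) (P e 2)) N) g) N) N))), 154, 5, 6, 4, 1⟩,
  ⟨fun A S X L P R M N m a b c d e f g h D => (A (A (L (X (L (X (L (X 0 (P e 3)) N) (P f 3)) N) (P g 3)) N) (S M (L (L (X (L (X (L (X 86 b) N) (A (L (X (L (X 1048576 (A (L (R D 64) 4294967295) (X c (L (R D 23872) 4294967295)))) N) (P f 2)) N) (L (X (L (X 86 b) N) (A (L (X (L (X 1024 (A (L (R D 96) 4294967295) (X c (L (R D 23904) 4294967295)))) N) f) N) (L (X (L (X 86 b) N) (A (L (R D 128) 4294967295) (X c (L (R D 23936) 4294967295)))) N))) N))) N) (A (L (X (L (X (L (X 16777216 (L (X 1 (L (X (A (L (X (L (X 1024 (A (A (L (R D 1184) 4294967295) (X c (L (R D 24992) 4294967295)))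 (S M (L (X 2147483648 (A 1 (X c 1))) N)))) N) e) N) (L (X (L (X 171 a) N) (A (A (L (R D 1280) 4294967295) (X c (L (R D 25088) 4294967295))) (S M (L (X 2147483648 (A 1 (X c 1))) N)))) N)) 1) N)) N)) N) (P e 2)) N) g) N) (L (X (A (L (X 1 (A (L (R D 160) 4294967295) (X a (A (L (R D 192) 4294967295) (X a (L (R D 224) 4294967295)))))) N) (L (X c (A (L (R D 23968) 4294967295) (X a (A (L (R D 24000) 4294967295) (X a (L (R D 24032) 4294967295)))))) N)) (L (X (A (L (X (L (X 1024 (A (A (L (R D 2400) 4294967295) (X c (L (R D 26208) 4294967295))) (S M (L (X 2147483648 (A 1 (X c 1))) N)))) N) e) N) (L (X (L (X 171 a) N) (A (A (L (R D 2496) 4294967295) (X c (L (R D 26304) 4294967295))) (S M (L (X 2147483648 (A 1 (X c 1))) N)))) N)) 1) N)) N))) N) N))) (S M (L (L (X (L (X (L (X 17179869184 (A (L (X (L (X (A (L (X (A (L (R D 16544) 4294967295) (X c (L (R D 40352) 4294967295))) 1) N) (L (X (A (L (R D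 16576) 4294967295) (X c (L (R D 40384) 4294967295))) a) N)) (L (X (L (X 86 b) N) (A (L (X (L (X 1048576 (A (L (R D 64) 4294967295) (X c (L (R D 23872) 4294967295)))) N) (P f 2)) N) (L (X (L (X 86 b) N) (A (L (X (L (X 1024 (A (L (R D 96) 4294967295) (X c (L (R D 23904) 4294967295)))) N) f) N) (L (X (L (X 86 b) N) (A (L (R D 128) 4294967295) (X c (L (R D 23936) 4294967295)))) N))) N))) N)) N) (A 0 (S M (L (L (X 12 1) N) N)))) N) (A (L (X (L (X (A (L (X (A (L (R D 16672) 4294967295) (X c (L (R D 40480) 4294967295))) 1) N) (L (X (A (L (R D 16704) 4294967295) (X c (L (R D 40512) 4294967295))) a) N)) (L (X (L (X 86 b) N) (A (L (X (L (X 1048576 (A (L (R D 64) 4294967295) (X c (L (R D 23872) 4294967295)))) N) (P f 2)) N) (L (X (L (X 86 b) N) (A (L (X (L (X 1024 (A (L (R D 96) 4294967295) (X c (L (R D 23904) 4294967295)))) N) f) N) (L (X (L (X 86 b) N) (A (L (R D 128) 4294967295) (X c (L (R D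 23936) 4294967295)))) N))) N))) N)) N) 1) N) (A (L (X (L (X (A (L (X (A (L (R D 16800) 4294967295) (X c (L (R D 40608) 4294967295))) 1) N) (L (X (A (L (R D 16832) 4294967295) (X c (L (R D 40640) 4294967295))) a) N)) (L (X (L (X 86 b) N) (A (L (X (L (X 1048576 (A (L (R D 64) 4294967295) (X c (L (R D 23872) 4294967295)))) N) (P f 2)) N) (L (X (L (X 86 b) N) (A (L (X (L (X 1024 (A (L (R D 96) 4294967295) (X c (L (R D 23904) 4294967295)))) N) f) N) (L (X (L (X 86 b) N) (A (L (R D 128) 4294967295) (X c (L (R D 23936) 4294967295)))) N))) N))) N)) N) (A 0 (S M (L (L (X 12 1) N) N)))) N) (A (L (X (L (X (A (L (X (A (L (R D 16864) 4294967295) (X c (L (R D 40672) 4294967295))) 1) N) (L (X (A (L (R D 16896) 4294967295) (X c (L (R D 40704) 4294967295))) a) N)) (L (X (L (X 86 b) N) (A (L (X (L (X 1048576 (A (L (R D 64) 4294967295) (X c (L (R D 23872) 4294967295)))) N) (P f 2)) N) (L (X (L (X 86 b)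 N) (A (L (X (L (X 1024 (A (L (R D 96) 4294967295) (X c (L (R D 23904) 4294967295)))) N) f) N) (L (X (L (X 86 b) N) (A (L (R D 128) 4294967295) (X c (L (R D 23936) 4294967295)))) N))) N))) N)) N) (A 0 (S M (L (L (X 12 1) N) N)))) N) (A (L (X (L (X (A (L (X (A (L (R D 16992) 4294967295) (X c (L (R D 40800) 4294967295))) 1) N) (L (X (A (L (R D 17024) 4294967295) (X c (L (R D 40832) 4294967295))) a) N)) (L (X (L (X 86 b) N) (A (L (X (L (X 1048576 (A (L (R D 64) 4294967295) (X c (L (R D 23872) 4294967295)))) N) (P f 2)) N) (L (X (L (X 86 b) N) (A (L (X (L (X 1024 (A (L (R D 96) 4294967295) (X c (L (R D 23904) 4294967295)))) N) f) N) (L (X (L (X 86 b) N) (A (L (R D 128) 4294967295) (X c (L (R D 23936) 4294967295)))) N))) N))) N)) N) 1) N) (L (X (L (X (A (L (X (A (L (R D 17120) 4294967295) (X c (L (R D 40928) 4294967295))) 1) N) (L (X (A (L (R D 17152) 4294967295) (X c (L (R D 40960) 4294967295)))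 a) N)) (L (X (L (X 86 b) N) (A (L (X (L (X 1048576 (A (L (R D 64) 4294967295) (X c (L (R D 23872) 4294967295)))) N) (P f 2)) N) (L (X (L (X 86 b) N) (A (L (X (L (X 1024 (A (L (R D 96) 4294967295) (X c (L (R D 23904) 4294967295)))) N) f) N) (L (X (L (X 86 b) N) (A (L (R D 128) 4294967295) (X c (L (R D 23936) 4294967295)))) N))) N))) N)) N) (A 0 (S M (L (L (X 12 1) N) N)))) N))))))) N) (P e 2)) N) g) N) N))), 141, 4, 4, 4, 1⟩,
  ⟨fun A S X L P R M N m a b c d e f g h D => (A (A (L (X (L (X (L (X 0 (P e 2)) N) (P f 3)) N) (P g 3)) N) (S M (L (L (X (L (X (L (X 86 b) N) (A (L (X (L (X 1048576 (A (L (R D 64) 4294967295) (X c (L (R D 23872) 4294967295)))) N) (P f 2)) N) (L (X (L (X 86 b) N) (A (L (X (L (X 1024 (A (L (R D 96) 4294967295) (X c (L (R D 23904) 4294967295)))) N) f) N) (L (X (L (X 86 b) N) (A (L (R D 128) 4294967295) (X c (L (R D 23936) 4294967295)))) N))) N))) N) (A (L (X (L (X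 (L (X 16777216 (L (X 1 (L (X (A (A (L (R D 1216) 4294967295) (X c (L (R D 25024) 4294967295))) (S M (L (X 2147483648 (A 1 (X c 1))) N))) 1) N)) N)) N) (P e 2)) N) g) N) (L (X (A (L (X 1 (A (L (R D 160) 4294967295) (X a (A (L (R D 192) 4294967295) (X a (L (R D 224) 4294967295)))))) N) (L (X c (A (L (R D 23968) 4294967295) (X a (A (L (R D 24000) 4294967295) (X a (L (R D 24032) 4294967295)))))) N)) (L (X (A (A (L (R D 2432) 4294967295) (X c (L (R D 26240) 4294967295))) (S M (L (X 2147483648 (A 1 (X c 1))) N))) 1) N)) N))) N) N))) (S M (L (L (X (L (X (L (X 16777216 (A (L (X (L (X (A (L (X (A (L (R D 16608) 4294967295) (X c (L (R D 40416) 4294967295))) 1) N) (L (X (A (L (R D 16640) 4294967295) (X c (L (R D 40448) 4294967295))) a) N)) (L (X (L (X 86 b) N) (A (L (X (L (X 1048576 (A (L (R D 64) 4294967295) (X c (L (R D 23872) 4294967295)))) N) (P f 2)) N) (L (X (L (X 86 b) N) (A (L (X (L (X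 1024 (A (L (R D 96) 4294967295) (X c (L (R D 23904) 4294967295)))) N) f) N) (L (X (L (X 86 b) N) (A (L (R D 128) 4294967295) (X c (L (R D 23936) 4294967295)))) N))) N))) N)) N) (A 0 (S M (L (L (X 12 1) N) N)))) N) (A (L (X (L (X (A (L (X (A (L (R D 16736) 4294967295) (X c (L (R D 40544) 4294967295))) 1) N) (L (X (A (L (R D 16768) 4294967295) (X c (L (R D 40576) 4294967295))) a) N)) (L (X (L (X 86 b) N) (A (L (X (L (X 1048576 (A (L (R D 64) 4294967295) (X c (L (R D 23872) 4294967295)))) N) (P f 2)) N) (L (X (L (X 86 b) N) (A (L (X (L (X 1024 (A (L (R D 96) 4294967295) (X c (L (R D 23904) 4294967295)))) N) f) N) (L (X (L (X 86 b) N) (A (L (R D 128) 4294967295) (X c (L (R D 23936) 4294967295)))) N))) N))) N)) N) (L (X 2 1) N)) N) (A (L (X (L (X (A (L (X (A (L (R D 16800) 4294967295) (X c (L (R D 40608) 4294967295))) 1) N) (L (X (A (L (R D 16832) 4294967295) (X c (L (R D 40640) 4294967295)))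 a) N)) (L (X (L (X 86 b) N) (A (L (X (L (X 1048576 (A (L (R D 64) 4294967295) (X c (L (R D 23872) 4294967295)))) N) (P f 2)) N) (L (X (L (X 86 b) N) (A (L (X (L (X 1024 (A (L (R D 96) 4294967295) (X c (L (R D 23904) 4294967295)))) N) f) N) (L (X (L (X 86 b) N) (A (L (R D 128) 4294967295) (X c (L (R D 23936) 4294967295)))) N))) N))) N)) N) (A 0 (S M (L (L (X 24 1) N) N)))) N) (A (L (X (L (X (A (L (X (A (L (R D 16928) 4294967295) (X c (L (R D 40736) 4294967295))) 1) N) (L (X (A (L (R D 16960) 4294967295) (X c (L (R D 40768) 4294967295))) a) N)) (L (X (L (X 86 b) N) (A (L (X (L (X 1048576 (A (L (R D 64) 4294967295) (X c (L (R D 23872) 4294967295)))) N) (P f 2)) N) (L (X (L (X 86 b) N) (A (L (X (L (X 1024 (A (L (R D 96) 4294967295) (X c (L (R D 23904) 4294967295)))) N) f) N) (L (X (L (X 86 b) N) (A (L (R D 128) 4294967295) (X c (L (R D 23936) 4294967295)))) N))) N))) N)) N) (A 0 (S M (L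 (L (X 12 1) N) N)))) N) (A (L (X (L (X (A (L (X (A (L (R D 17056) 4294967295) (X c (L (R D 40864) 4294967295))) 1) N) (L (X (A (L (R D 17088) 4294967295) (X c (L (R D 40896) 4294967295))) a) N)) (L (X (L (X 86 b) N) (A (L (X (L (X 1048576 (A (L (R D 64) 4294967295) (X c (L (R D 23872) 4294967295)))) N) (P f 2)) N) (L (X (L (X 86 b) N) (A (L (X (L (X 1024 (A (L (R D 96) 4294967295) (X c (L (R D 23904) 4294967295)))) N) f) N) (L (X (L (X 86 b) N) (A (L (R D 128) 4294967295) (X c (L (R D 23936) 4294967295)))) N))) N))) N)) N) (L (X 2 1) N)) N) (L (X (L (X (A (L (X (A (L (R D 17120) 4294967295) (X c (L (R D 40928) 4294967295))) 1) N) (L (X (A (L (R D 17152) 4294967295) (X c (L (R D 40960) 4294967295))) a) N)) (L (X (L (X 86 b) N) (A (L (X (L (X 1048576 (A (L (R D 64) 4294967295) (X c (L (R D 23872) 4294967295)))) N) (P f 2)) N) (L (X (L (X 86 b) N) (A (L (X (L (X 1024 (A (L (R D 96) 4294967295)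 (X c (L (R D 23904) 4294967295)))) N) f) N) (L (X (L (X 86 b) N) (A (L (R D 128) 4294967295) (X c (L (R D 23936) 4294967295)))) N))) N))) N)) N) (A 0 (S M (L (L (X 24 1) N) N)))) N))))))) N) e) N) g) N) N))), 130, 3, 4, 4, 1⟩,
  ⟨fun A S X L P R M N m a b c d e f g h D => (A (A (L (X (L (X (L (X 0 (P e 2)) N) (P f 3)) N) (P g 3)) N) (S M (L (L (X (L (X (L (X 86 b) N) (A (L (X (L (X 1048576 (A (L (R D 64) 4294967295) (X c (L (R D 23872) 4294967295)))) N) (P f 2)) N) (L (X (L (X 86 b) N) (A (L (X (L (X 1024 (A (L (R D 96) 4294967295) (X c (L (R D 23904) 4294967295)))) N) f) N) (L (X (L (X 86 b) N) (A (L (R D 128) 4294967295) (X c (L (R D 23936) 4294967295)))) N))) N))) N) (A (L (X (L (X (L (X 16777216 (L (X 1 (L (X (A (A (L (R D 1248) 4294967295) (X c (L (R D 25056) 4294967295))) (S M (L (X 2147483648 (A 1 (X c 1))) N))) 1) N)) N)) N) (P e 2)) N) g) N) (L (X (A (L (X 1 (A (L (R D 160)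 4294967295) (X a (A (L (R D 192) 4294967295) (X a (L (R D 224) 4294967295)))))) N) (L (X c (A (L (R D 23968) 4294967295) (X a (A (L (R D 24000) 4294967295) (X a (L (R D 24032) 4294967295)))))) N)) (L (X (A (A (L (R D 2464) 4294967295) (X c (L (R D 26272) 4294967295))) (S M (L (X 2147483648 (A 1 (X c 1))) N))) 1) N)) N))) N) N))) (S M (L (L (X (L (X (L (X 16777216 (A (L (X (L (X (A (L (X (A (L (R D 16672) 4294967295) (X c (L (R D 40480) 4294967295))) 1) N) (L (X (A (L (R D 16704) 4294967295) (X c (L (R D 40512) 4294967295))) a) N)) (L (X (L (X 86 b) N) (A (L (X (L (X 1048576 (A (L (R D 64) 4294967295) (X c (L (R D 23872) 4294967295)))) N) (P f 2)) N) (L (X (L (X 86 b) N) (A (L (X (L (X 1024 (A (L (R D 96) 4294967295) (X c (L (R D 23904) 4294967295)))) N) f) N) (L (X (L (X 86 b) N) (A (L (R D 128) 4294967295) (X c (L (R D 23936) 4294967295)))) N))) N))) N)) N) (A 0 (S M (L (L (X 12 1)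 N) N)))) N) (A (L (X (L (X (A (L (X (A (L (R D 16736) 4294967295) (X c (L (R D 40544) 4294967295))) 1) N) (L (X (A (L (R D 16768) 4294967295) (X c (L (R D 40576) 4294967295))) a) N)) (L (X (L (X 86 b) N) (A (L (X (L (X 1048576 (A (L (R D 64) 4294967295) (X c (L (R D 23872) 4294967295)))) N) (P f 2)) N) (L (X (L (X 86 b) N) (A (L (X (L (X 1024 (A (L (R D 96) 4294967295) (X c (L (R D 23904) 4294967295)))) N) f) N) (L (X (L (X 86 b) N) (A (L (R D 128) 4294967295) (X c (L (R D 23936) 4294967295)))) N))) N))) N)) N) (A 0 (S M (L (L (X 12 1) N) N)))) N) (A (L (X (L (X (A (L (X (A (L (R D 16800) 4294967295) (X c (L (R D 40608) 4294967295))) 1) N) (L (X (A (L (R D 16832) 4294967295) (X c (L (R D 40640) 4294967295))) a) N)) (L (X (L (X 86 b) N) (A (L (X (L (X 1048576 (A (L (R D 64) 4294967295) (X c (L (R D 23872) 4294967295)))) N) (P f 2)) N) (L (X (L (X 86 b) N) (A (L (X (L (X 1024 (A (L (R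 D 96) 4294967295) (X c (L (R D 23904) 4294967295)))) N) f) N) (L (X (L (X 86 b) N) (A (L (R D 128) 4294967295) (X c (L (R D 23936) 4294967295)))) N))) N))) N)) N) (L (X 144 1) N)) N) (A (L (X (L (X (A (L (X (A (L (R D 16992) 4294967295) (X c (L (R D 40800) 4294967295))) 1) N) (L (X (A (L (R D 17024) 4294967295) (X c (L (R D 40832) 4294967295))) a) N)) (L (X (L (X 86 b) N) (A (L (X (L (X 1048576 (A (L (R D 64) 4294967295) (X c (L (R D 23872) 4294967295)))) N) (P f 2)) N) (L (X (L (X 86 b) N) (A (L (X (L (X 1024 (A (L (R D 96) 4294967295) (X c (L (R D 23904) 4294967295)))) N) f) N) (L (X (L (X 86 b) N) (A (L (R D 128) 4294967295) (X c (L (R D 23936) 4294967295)))) N))) N))) N)) N) (A 0 (S M (L (L (X 12 1) N) N)))) N) (A (L (X (L (X (A (L (X (A (L (R D 17056) 4294967295) (X c (L (R D 40864) 4294967295))) 1) N) (L (X (A (L (R D 17088) 4294967295) (X c (L (R D 40896) 4294967295))) a) N))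 (L (X (L (X 86 b) N) (A (L (X (L (X 1048576 (A (L (R D 64) 4294967295) (X c (L (R D 23872) 4294967295)))) N) (P f 2)) N) (L (X (L (X 86 b) N) (A (L (X (L (X 1024 (A (L (R D 96) 4294967295) (X c (L (R D 23904) 4294967295)))) N) f) N) (L (X (L (X 86 b) N) (A (L (R D 128) 4294967295) (X c (L (R D 23936) 4294967295)))) N))) N))) N)) N) (A 0 (S M (L (L (X 12 1) N) N)))) N) (L (X (L (X (A (L (X (A (L (R D 17120) 4294967295) (X c (L (R D 40928) 4294967295))) 1) N) (L (X (A (L (R D 17152) 4294967295) (X c (L (R D 40960) 4294967295))) a) N)) (L (X (L (X 86 b) N) (A (L (X (L (X 1048576 (A (L (R D 64) 4294967295) (X c (L (R D 23872) 4294967295)))) N) (P f 2)) N) (L (X (L (X 86 b) N) (A (L (X (L (X 1024 (A (L (R D 96) 4294967295) (X c (L (R D 23904) 4294967295)))) N) f) N) (L (X (L (X 86 b) N) (A (L (R D 128) 4294967295) (X c (L (R D 23936) 4294967295)))) N))) N))) N)) N) (L (X 144 1) N)) N)))))))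 N) e) N) g) N) N))), 131, 3, 4, 4, 1⟩,
  ⟨fun A S X L P R M N m a b c d e f g h D => (A (A (L (X (L (X (L (X 0 e) N) (P f 5)) N) (P g 2)) N) (S M (L (L (X (L (X (L (X 86 b) N) (A (L (X (L (X 1048576 (A (L (R D 64) 4294967295) (X c (L (R D 23872) 4294967295)))) N) (P f 2)) N) (L (X (L (X 86 b) N) (A (L (X (L (X 1024 (A (L (R D 96) 4294967295) (X c (L (R D 23904) 4294967295)))) N) f) N) (L (X (L (X 86 b) N) (A (L (R D 128) 4294967295) (X c (L (R D 23936) 4294967295)))) N))) N))) N) (L (X 1 (A (L (X (L (X (A (L (X (L (X 1024 (A (A (L (R D 1184) 4294967295) (X c (L (R D 24992) 4294967295))) (S M (L (X 2147483648 (A 1 (X c 1))) N)))) N) e) N) (L (X (L (X 171 a) N) (A (A (L (R D 1280) 4294967295) (X c (L (R D 25088) 4294967295))) (S M (L (X 2147483648 (A 1 (X c 1))) N)))) N)) (L (X 86 b) N)) N) f) N) (L (X (L (X (A (A (L (R D 1248) 4294967295) (X c (L (R D 25056) 4294967295))) (S M (L (X 2147483648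 (A 1 (X c 1))) N))) (L (X (L (X 86 b) N) (L (X 86 b) N)) N)) N) e) N))) N)) N) N))) (S M (L (A (L (X (L (X 1024 (L (X (L (X (A (L (X (A (L (R D 16864) 4294967295) (X c (L (R D 40672) 4294967295))) 1) N) (L (X (A (L (R D 16896) 4294967295) (X c (L (R D 40704) 4294967295))) a) N)) (L (X (L (X 86 b) N) (A (L (X (L (X 1048576 (A (L (R D 64) 4294967295) (X c (L (R D 23872) 4294967295)))) N) (P f 2)) N) (L (X (L (X 86 b) N) (A (L (X (L (X 1024 (A (L (R D 96) 4294967295) (X c (L (R D 23904) 4294967295)))) N) f) N) (L (X (L (X 86 b) N) (A (L (R D 128) 4294967295) (X c (L (R D 23936) 4294967295)))) N))) N))) N)) N) (A (L (X 0 f) N) (S M (L (L (X 12 (L (X 86 b) N)) N) N)))) N)) N) f) N) (A (L (X (L (X (A (L (X (A (L (R D 16992) 4294967295) (X c (L (R D 40800) 4294967295))) 1) N) (L (X (A (L (R D 17024) 4294967295) (X c (L (R D 40832) 4294967295))) a) N)) (L (X (L (X 86 b) N) (A (L (X (L (X 1048576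 (A (L (R D 64) 4294967295) (X c (L (R D 23872) 4294967295)))) N) (P f 2)) N) (L (X (L (X 86 b) N) (A (L (X (L (X 1024 (A (L (R D 96) 4294967295) (X c (L (R D 23904) 4294967295)))) N) f) N) (L (X (L (X 86 b) N) (A (L (R D 128) 4294967295) (X c (L (R D 23936) 4294967295)))) N))) N))) N)) N) (A (L (X (L (X 1024 (L (X 86 b) N)) N) f) N) (S M (L (L (X 12 (L (X (L (X 86 b) N) (L (X 86 b) N)) N)) N) N)))) N) (A (L (X (L (X (A (L (X (A (L (R D 17056) 4294967295) (X c (L (R D 40864) 4294967295))) 1) N) (L (X (A (L (R D 17088) 4294967295) (X c (L (R D 40896) 4294967295))) a) N)) (L (X (L (X 86 b) N) (A (L (X (L (X 1048576 (A (L (R D 64) 4294967295) (X c (L (R D 23872) 4294967295)))) N) (P f 2)) N) (L (X (L (X 86 b) N) (A (L (X (L (X 1024 (A (L (R D 96) 4294967295) (X c (L (R D 23904) 4294967295)))) N) f) N) (L (X (L (X 86 b) N) (A (L (R D 128) 4294967295) (X c (L (R D 23936) 4294967295)))) N)))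 N))) N)) N) (A (L (X 0 (P f 2)) N) (S M (L (L (X 12 (L (X (L (X 86 b) N) (L (X 86 b) N)) N)) N) N)))) N) (A (L (X (L (X (A (L (X (A (L (R D 17120) 4294967295) (X c (L (R D 40928) 4294967295))) 1) N) (L (X (A (L (R D 17152) 4294967295) (X c (L (R D 40960) 4294967295))) a) N)) (L (X (L (X 86 b) N) (A (L (X (L (X 1048576 (A (L (R D 64) 4294967295) (X c (L (R D 23872) 4294967295)))) N) (P f 2)) N) (L (X (L (X 86 b) N) (A (L (X (L (X 1024 (A (L (R D 96) 4294967295) (X c (L (R D 23904) 4294967295)))) N) f) N) (L (X (L (X 86 b) N) (A (L (R D 128) 4294967295) (X c (L (R D 23936) 4294967295)))) N))) N))) N)) N) (A (L (X 144 (L (X (L (X 86 b) N) (L (X 86 b) N)) N)) N) (S M (L (L (X (L (X 1024 (L (X 12 (L (X 86 b) N)) N)) N) f) N) N)))) N) (L (X (L (X 1048576 (L (X (L (X (A (L (X (A (L (R D 17184) 4294967295) (X c (L (R D 40992) 4294967295))) 1) N) (L (X (A (L (R D 17216) 4294967295) (X c (L (R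 D 41024) 4294967295))) a) N)) (L (X (L (X 86 b) N) (A (L (X (L (X 1048576 (A (L (R D 64) 4294967295) (X c (L (R D 23872) 4294967295)))) N) (P f 2)) N) (L (X (L (X 86 b) N) (A (L (X (L (X 1024 (A (L (R D 96) 4294967295) (X c (L (R D 23904) 4294967295)))) N) f) N) (L (X (L (X 86 b) N) (A (L (R D 128) 4294967295) (X c (L (R D 23936) 4294967295)))) N))) N))) N)) N) (A 0 (S M (L (L (X 12 1) N) N)))) N)) N) (P f 2)) N))))) N))), 122, 2, 6, 3, 1⟩,
  ⟨fun A S X L P R M N m a b c d e f g h D => (A (L (X (L (X (L (X 86 b) N) (A (L (X 1024 (A (L (X (A (L (X (L (X 1024 (A (A (L (R D 5728) 4294967295) (X c (L (R D 29536) 4294967295))) (S M (L (X 2147483648 (A 1 (X c 1))) N)))) N) e) N) (L (X (A (A (L (R D 5760) 4294967295) (X c (L (R D 29568) 4294967295))) (S M (L (X 2147483648 (A 1 (X c 1))) N))) (L (X 171 a) N)) N)) f) N) (L (X (L (X (A (A (L (R D 5792) 4294967295) (X c (L (R D 29600) 4294967295)))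 (S M (L (X 2147483648 (A 1 (X c 1))) N))) (L (X 86 b) N)) N) e) N))) N) (L (X (A (A (L (R D 5824) 4294967295) (X c (L (R D 29632) 4294967295))) (S M (L (X 2147483648 (A 1 (X c 1))) N))) (L (X (L (X 86 b) N) (L (X 171 a) N)) N)) N))) N) f) N) (S M (L (L (X (L (X (L (X (L (X 86 b) N) (A (L (X (L (X 1048576 (A (L (R D 64) 4294967295) (X c (L (R D 23872) 4294967295)))) N) (P f 2)) N) (L (X (L (X 86 b) N) (A (L (X (L (X 1024 (A (L (R D 96) 4294967295) (X c (L (R D 23904) 4294967295)))) N) f) N) (L (X (L (X 86 b) N) (A (L (R D 128) 4294967295) (X c (L (R D 23936) 4294967295)))) N))) N))) N) 1) N) e) N) N))), 64, 2, 4, 2, 1⟩,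
  ⟨fun A S X L P R M N m a b c d e f g h D => (A (L (X (A (L (X (L (X (L (X (L (X 295147905179352825856 (L (X (L (X 86 b) N) (A (L (X 1024 (A (L (X (A (L (X (L (X 1024 (A (A (L (R D 5856) 4294967295) (X c (L (R D 29664) 4294967295))) (S M (L (X 2147483648 (A 1 (X c 1))) N)))) N) e) N) (L (X (A (A (L (R D 5888) 4294967295) (X c (L (R D 29696) 4294967295))) (S M (L (X 2147483648 (A 1 (X c 1))) N))) (L (X 171 a) N)) N)) f) N) (L (X (L (X (A (A (L (R D 5920) 4294967295) (X c (L (R D 29728) 4294967295))) (S M (L (X 2147483648 (A 1 (X c 1))) N))) (L (X 86 b) N)) N) e) N))) N) (L (X (A (A (L (R D 5952) 4294967295) (X c (L (R D 29760) 4294967295))) (S M (L (X 2147483648 (A 1 (X c 1))) N))) (L (X (L (X 86 b) N) (L (X 171 a) N)) N)) N))) N)) N) (P e 3)) N) (P f 2)) N) (P g 2)) N) (S M (L (L (X (L (X (L (X 86 b) N) (A (L (X (L (X 1048576 (A (L (R D 64) 4294967295) (X c (L (R D 23872) 4294967295))))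 N) (P f 2)) N) (L (X (L (X 86 b) N) (A (L (X (L (X 1024 (A (L (R D 96) 4294967295) (X c (L (R D 23904) 4294967295)))) N) f) N) (L (X (L (X 86 b) N) (A (L (R D 128) 4294967295) (X c (L (R D 23936) 4294967295)))) N))) N))) N) (L (X (A (L (X 1 (A (L (R D 160) 4294967295) (X a (A (L (R D 192) 4294967295) (X a (L (R D 224) 4294967295)))))) N) (L (X c (A (L (R D 23968) 4294967295) (X a (A (L (R D 24000) 4294967295) (X a (L (R D 24032) 4294967295)))))) N)) (A (L (X (L (X 1024 (L (X (A (A (L (R D 2336) 4294967295) (X c (L (R D 26144) 4294967295))) (S M (L (X 2147483648 (A 1 (X c 1))) N))) (A (L (X (L (X 767 e) N) f) N) (A (L (X (L (X 171 1) N) f) N) (L (X (L (X 86 1) N) e) N)))) N)) N) e) N) (L (X (A (A (L (R D 2368) 4294967295) (X c (L (R D 26176) 4294967295))) (S M (L (X 2147483648 (A 1 (X c 1))) N))) (L (X (L (X 171 a) N) (A (L (X (L (X 767 e) N) f) N) (A (L (X (L (X 171 1) N) f) N) (L (X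 (L (X 86 1) N) e) N)))) N)) N))) N)) N) N))) f) N) (S M (L (L (X (L (X (L (X 16777216 (A (L (X (L (X 1024 (L (X (L (X (A (L (X (A (L (R D 17248) 4294967295) (X c (L (R D 41056) 4294967295))) 1) N) (L (X (A (L (R D 17280) 4294967295) (X c (L (R D 41088) 4294967295))) a) N)) (L (X (L (X 86 b) N) (A (L (X (L (X 1048576 (A (L (R D 64) 4294967295) (X c (L (R D 23872) 4294967295)))) N) (P f 2)) N) (L (X (L (X 86 b) N) (A (L (X (L (X 1024 (A (L (R D 96) 4294967295) (X c (L (R D 23904) 4294967295)))) N) f) N) (L (X (L (X 86 b) N) (A (L (R D 128) 4294967295) (X c (L (R D 23936) 4294967295)))) N))) N))) N)) N) (L (X 2 (A (L (X (L (X 767 e) N) f) N) (A (L (X (L (X 171 1) N) f) N) (L (X (L (X 86 1) N) e) N)))) N)) N)) N) f) N) (A (L (X (L (X 1024 (L (X (L (X (A (L (X (A (L (R D 17312) 4294967295) (X c (L (R D 41120) 4294967295))) 1) N) (L (X (A (L (R D 17344) 4294967295) (X c (L (R D 41152) 4294967295)))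 a) N)) (L (X (L (X 86 b) N) (A (L (X (L (X 1048576 (A (L (R D 64) 4294967295) (X c (L (R D 23872) 4294967295)))) N) (P f 2)) N) (L (X (L (X 86 b) N) (A (L (X (L (X 1024 (A (L (R D 96) 4294967295) (X c (L (R D 23904) 4294967295)))) N) f) N) (L (X (L (X 86 b) N) (A (L (R D 128) 4294967295) (X c (L (R D 23936) 4294967295)))) N))) N))) N)) N) (A (L (X (L (X 767 e) N) f) N) (A (L (X (L (X 171 1) N) f) N) (L (X (L (X 86 1) N) e) N)))) N)) N) f) N) (A (L (X (L (X 1024 (L (X (L (X (A (L (X (A (L (R D 17504) 4294967295) (X c (L (R D 41312) 4294967295))) 1) N) (L (X (A (L (R D 17536) 4294967295) (X c (L (R D 41344) 4294967295))) a) N)) (L (X (L (X 86 b) N) (A (L (X (L (X 1048576 (A (L (R D 64) 4294967295) (X c (L (R D 23872) 4294967295)))) N) (P f 2)) N) (L (X (L (X 86 b) N) (A (L (X (L (X 1024 (A (L (R D 96) 4294967295) (X c (L (R D 23904) 4294967295)))) N) f) N) (L (X (L (X 86 b) N) (A (L (R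 D 128) 4294967295) (X c (L (R D 23936) 4294967295)))) N))) N))) N)) N) (L (X 2 (A (L (X (L (X 767 e) N) f) N) (A (L (X (L (X 171 1) N) f) N) (L (X (L (X 86 1) N) e) N)))) N)) N)) N) f) N) (A (L (X (L (X 1024 (L (X (L (X (A (L (X (A (L (R D 17568) 4294967295) (X c (L (R D 41376) 4294967295))) 1) N) (L (X (A (L (R D 17600) 4294967295) (X c (L (R D 41408) 4294967295))) a) N)) (L (X (L (X 86 b) N) (A (L (X (L (X 1048576 (A (L (R D 64) 4294967295) (X c (L (R D 23872) 4294967295)))) N) (P f 2)) N) (L (X (L (X 86 b) N) (A (L (X (L (X 1024 (A (L (R D 96) 4294967295) (X c (L (R D 23904) 4294967295)))) N) f) N) (L (X (L (X 86 b) N) (A (L (R D 128) 4294967295) (X c (L (R D 23936) 4294967295)))) N))) N))) N)) N) (L (X 2 (A (L (X 853 e) N) (L (X 171 1) N))) N)) N)) N) (P f 2)) N) (A (L (X (L (X (A (L (X (A (L (R D 17632) 4294967295) (X c (L (R D 41440) 4294967295))) 1) N) (L (X (A (L (R D 17664)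 4294967295) (X c (L (R D 41472) 4294967295))) a) N)) (L (X (L (X 86 b) N) (A (L (X (L (X 1048576 (A (L (R D 64) 4294967295) (X c (L (R D 23872) 4294967295)))) N) (P f 2)) N) (L (X (L (X 86 b) N) (A (L (X (L (X 1024 (A (L (R D 96) 4294967295) (X c (L (R D 23904) 4294967295)))) N) f) N) (L (X (L (X 86 b) N) (A (L (R D 128) 4294967295) (X c (L (R D 23936) 4294967295)))) N))) N))) N)) N) (A (L (X (L (X 1024 (A (L (X 853 e) N) (L (X 171 1) N))) N) (P f 2)) N) (S M (L (L (X (L (X 12 (L (X (L (X 86 b) N) (L (X 86 b) N)) N)) N) e) N) N)))) N) (A (L (X (L (X (L (X (A (L (X (A (L (R D 17760) 4294967295) (X c (L (R D 41568) 4294967295))) 1) N) (L (X (A (L (R D 17792) 4294967295) (X c (L (R D 41600) 4294967295))) a) N)) (L (X (L (X 86 b) N) (A (L (X (L (X 1048576 (A (L (R D 64) 4294967295) (X c (L (R D 23872) 4294967295)))) N) (P f 2)) N) (L (X (L (X 86 b) N) (A (L (X (L (X 1024 (A (L (R D 96) 4294967295)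 (X c (L (R D 23904) 4294967295)))) N) f) N) (L (X (L (X 86 b) N) (A (L (R D 128) 4294967295) (X c (L (R D 23936) 4294967295)))) N))) N))) N)) N) (L (X 2 (L (X (L (X 86 b) N) (L (X 86 b) N)) N)) N)) N) e) N) (A (L (X (L (X (A (L (X (A (L (R D 17824) 4294967295) (X c (L (R D 41632) 4294967295))) 1) N) (L (X (A (L (R D 17856) 4294967295) (X c (L (R D 41664) 4294967295))) a) N)) (L (X (L (X 86 b) N) (A (L (X (L (X 1048576 (A (L (R D 64) 4294967295) (X c (L (R D 23872) 4294967295)))) N) (P f 2)) N) (L (X (L (X 86 b) N) (A (L (X (L (X 1024 (A (L (R D 96) 4294967295) (X c (L (R D 23904) 4294967295)))) N) f) N) (L (X (L (X 86 b) N) (A (L (R D 128) 4294967295) (X c (L (R D 23936) 4294967295)))) N))) N))) N)) N) (A (L (X (L (X 1024 (L (X 2 (A (L (X 853 e) N) (L (X 171 1) N))) N)) N) (P f 2)) N) (S M (L (L (X (L (X 24 (L (X (L (X 86 b) N) (L (X 86 b) N)) N)) N) e) N) N)))) N) (L (X (L (X (L (X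 1048576 (L (X (L (X (A (L (X (A (L (R D 17888) 4294967295) (X c (L (R D 41696) 4294967295))) 1) N) (L (X (A (L (R D 17920) 4294967295) (X c (L (R D 41728) 4294967295))) a) N)) (L (X (L (X 86 b) N) (A (L (X (L (X 1048576 (A (L (R D 64) 4294967295) (X c (L (R D 23872) 4294967295)))) N) (P f 2)) N) (L (X (L (X 86 b) N) (A (L (X (L (X 1024 (A (L (R D 96) 4294967295) (X c (L (R D 23904) 4294967295)))) N) f) N) (L (X (L (X 86 b) N) (A (L (R D 128) 4294967295) (X c (L (R D 23936) 4294967295)))) N))) N))) N)) N) 2) N)) N) e) N) (P f 2)) N))))))))) N) (P e 2)) N) g) N) N))), 154, 5, 6, 4, 1⟩,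
  ⟨fun A S X L P R M N m a b c d e f g h D => (A (A (L (X (L (X (L (X 0 (P e 3)) N) (P f 3)) N) (P g 3)) N) (S M (L (L (X (L (X (L (X 86 b) N) (A (L (X (L (X 1048576 (A (L (R D 64) 4294967295) (X c (L (R D 23872) 4294967295)))) N) (P f 2)) N) (L (X (L (X 86 b) N) (A (L (X (L (X 1024 (A (L (R D 96) 4294967295) (X c (L (R D 23904) 4294967295)))) N) f) N) (L (X (L (X 86 b) N) (A (L (R D 128) 4294967295) (X c (L (R D 23936) 4294967295)))) N))) N))) N) (L (X (A (L (X 1 (A (L (R D 160) 4294967295) (X a (A (L (R D 192) 4294967295) (X a (L (R D 224) 4294967295)))))) N) (L (X c (A (L (R D 23968) 4294967295) (X a (A (L (R D 24000) 4294967295) (X a (L (R D 24032) 4294967295)))))) N)) (L (X (A (L (X (L (X 1024 (A (A (L (R D 2400) 4294967295) (X c (L (R D 26208) 4294967295))) (S M (L (X 2147483648 (A 1 (X c 1))) N)))) N) e) N) (L (X (L (X 171 a) N) (A (A (L (R D 2496) 4294967295) (X c (L (R D 26304)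 4294967295))) (S M (L (X 2147483648 (A 1 (X c 1))) N)))) N)) 1) N)) N)) N) N))) (S M (L (L (X (L (X (L (X 17179869184 (A (L (X (L (X (A (L (X (A (L (R D 17248) 4294967295) (X c (L (R D 41056) 4294967295))) 1) N) (L (X (A (L (R D 17280) 4294967295) (X c (L (R D 41088) 4294967295))) a) N)) (L (X (L (X 86 b) N) (A (L (X (L (X 1048576 (A (L (R D 64) 4294967295) (X c (L (R D 23872) 4294967295)))) N) (P f 2)) N) (L (X (L (X 86 b) N) (A (L (X (L (X 1024 (A (L (R D 96) 4294967295) (X c (L (R D 23904) 4294967295)))) N) f) N) (L (X (L (X 86 b) N) (A (L (R D 128) 4294967295) (X c (L (R D 23936) 4294967295)))) N))) N))) N)) N) (A 0 (S M (L (L (X 12 1) N) N)))) N) (A (L (X (L (X (A (L (X (A (L (R D 17376) 4294967295) (X c (L (R D 41184) 4294967295))) 1) N) (L (X (A (L (R D 17408) 4294967295) (X c (L (R D 41216) 4294967295))) a) N)) (L (X (L (X 86 b) N) (A (L (X (L (X 1048576 (A (L (R D 64) 4294967295)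 (X c (L (R D 23872) 4294967295)))) N) (P f 2)) N) (L (X (L (X 86 b) N) (A (L (X (L (X 1024 (A (L (R D 96) 4294967295) (X c (L (R D 23904) 4294967295)))) N) f) N) (L (X (L (X 86 b) N) (A (L (R D 128) 4294967295) (X c (L (R D 23936) 4294967295)))) N))) N))) N)) N) 1) N) (A (L (X (L (X (A (L (X (A (L (R D 17504) 4294967295) (X c (L (R D 41312) 4294967295))) 1) N) (L (X (A (L (R D 17536) 4294967295) (X c (L (R D 41344) 4294967295))) a) N)) (L (X (L (X 86 b) N) (A (L (X (L (X 1048576 (A (L (R D 64) 4294967295) (X c (L (R D 23872) 4294967295)))) N) (P f 2)) N) (L (X (L (X 86 b) N) (A (L (X (L (X 1024 (A (L (R D 96) 4294967295) (X c (L (R D 23904) 4294967295)))) N) f) N) (L (X (L (X 86 b) N) (A (L (R D 128) 4294967295) (X c (L (R D 23936) 4294967295)))) N))) N))) N)) N) (A 0 (S M (L (L (X 12 1) N) N)))) N) (A (L (X (L (X (A (L (X (A (L (R D 17568) 4294967295) (X c (L (R D 41376) 4294967295)))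 1) N) (L (X (A (L (R D 17600) 4294967295) (X c (L (R D 41408) 4294967295))) a) N)) (L (X (L (X 86 b) N) (A (L (X (L (X 1048576 (A (L (R D 64) 4294967295) (X c (L (R D 23872) 4294967295)))) N) (P f 2)) N) (L (X (L (X 86 b) N) (A (L (X (L (X 1024 (A (L (R D 96) 4294967295) (X c (L (R D 23904) 4294967295)))) N) f) N) (L (X (L (X 86 b) N) (A (L (R D 128) 4294967295) (X c (L (R D 23936) 4294967295)))) N))) N))) N)) N) (A 0 (S M (L (L (X 12 1) N) N)))) N) (A (L (X (L (X (A (L (X (A (L (R D 17696) 4294967295) (X c (L (R D 41504) 4294967295))) 1) N) (L (X (A (L (R D 17728) 4294967295) (X c (L (R D 41536) 4294967295))) a) N)) (L (X (L (X 86 b) N) (A (L (X (L (X 1048576 (A (L (R D 64) 4294967295) (X c (L (R D 23872) 4294967295)))) N) (P f 2)) N) (L (X (L (X 86 b) N) (A (L (X (L (X 1024 (A (L (R D 96) 4294967295) (X c (L (R D 23904) 4294967295)))) N) f) N) (L (X (L (X 86 b) N) (A (L (R D 128) 4294967295)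 (X c (L (R D 23936) 4294967295)))) N))) N))) N)) N) 1) N) (L (X (L (X (A (L (X (A (L (R D 17824) 4294967295) (X c (L (R D 41632) 4294967295))) 1) N) (L (X (A (L (R D 17856) 4294967295) (X c (L (R D 41664) 4294967295))) a) N)) (L (X (L (X 86 b) N) (A (L (X (L (X 1048576 (A (L (R D 64) 4294967295) (X c (L (R D 23872) 4294967295)))) N) (P f 2)) N) (L (X (L (X 86 b) N) (A (L (X (L (X 1024 (A (L (R D 96) 4294967295) (X c (L (R D 23904) 4294967295)))) N) f) N) (L (X (L (X 86 b) N) (A (L (R D 128) 4294967295) (X c (L (R D 23936) 4294967295)))) N))) N))) N)) N) (A 0 (S M (L (L (X 12 1) N) N)))) N))))))) N) (P e 2)) N) g) N) N))), 141, 4, 4, 4, 1⟩,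
  ⟨fun A S X L P R M N m a b c d e f g h D => (A (A (L (X (L (X (L (X 0 (P e 2)) N) (P f 3)) N) (P g 3)) N) (S M (L (L (X (L (X (L (X 86 b) N) (A (L (X (L (X 1048576 (A (L (R D 64) 4294967295) (X c (L (R D 23872) 4294967295)))) N) (P f 2)) N) (L (X (L (X 86 b) N) (A (L (X (L (X 1024 (A (L (R D 96) 4294967295) (X c (L (R D 23904) 4294967295)))) N) f) N) (L (X (L (X 86 b) N) (A (L (R D 128) 4294967295) (X c (L (R D 23936) 4294967295)))) N))) N))) N) (L (X (A (L (X 1 (A (L (R D 160) 4294967295) (X a (A (L (R D 192) 4294967295) (X a (L (R D 224) 4294967295)))))) N) (L (X c (A (L (R D 23968) 4294967295) (X a (A (L (R D 24000) 4294967295) (X a (L (R D 24032) 4294967295)))))) N)) (L (X (A (A (L (R D 2432) 4294967295) (X c (L (R D 26240) 4294967295))) (S M (L (X 2147483648 (A 1 (X c 1))) N))) 1) N)) N)) N) N))) (S M (L (L (X (L (X (L (X 16777216 (A (L (X (L (X (A (L (X (A (L (R D 17312) 4294967295)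 (X c (L (R D 41120) 4294967295))) 1) N) (L (X (A (L (R D 17344) 4294967295) (X c (L (R D 41152) 4294967295))) a) N)) (L (X (L (X 86 b) N) (A (L (X (L (X 1048576 (A (L (R D 64) 4294967295) (X c (L (R D 23872) 4294967295)))) N) (P f 2)) N) (L (X (L (X 86 b) N) (A (L (X (L (X 1024 (A (L (R D 96) 4294967295) (X c (L (R D 23904) 4294967295)))) N) f) N) (L (X (L (X 86 b) N) (A (L (R D 128) 4294967295) (X c (L (R D 23936) 4294967295)))) N))) N))) N)) N) (A 0 (S M (L (L (X 12 1) N) N)))) N) (A (L (X (L (X (A (L (X (A (L (R D 17440) 4294967295) (X c (L (R D 41248) 4294967295))) 1) N) (L (X (A (L (R D 17472) 4294967295) (X c (L (R D 41280) 4294967295))) a) N)) (L (X (L (X 86 b) N) (A (L (X (L (X 1048576 (A (L (R D 64) 4294967295) (X c (L (R D 23872) 4294967295)))) N) (P f 2)) N) (L (X (L (X 86 b) N) (A (L (X (L (X 1024 (A (L (R D 96) 4294967295) (X c (L (R D 23904) 4294967295)))) N) f) N) (L (X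 (L (X 86 b) N) (A (L (R D 128) 4294967295) (X c (L (R D 23936) 4294967295)))) N))) N))) N)) N) (L (X 2 1) N)) N) (A (L (X (L (X (A (L (X (A (L (R D 17504) 4294967295) (X c (L (R D 41312) 4294967295))) 1) N) (L (X (A (L (R D 17536) 4294967295) (X c (L (R D 41344) 4294967295))) a) N)) (L (X (L (X 86 b) N) (A (L (X (L (X 1048576 (A (L (R D 64) 4294967295) (X c (L (R D 23872) 4294967295)))) N) (P f 2)) N) (L (X (L (X 86 b) N) (A (L (X (L (X 1024 (A (L (R D 96) 4294967295) (X c (L (R D 23904) 4294967295)))) N) f) N) (L (X (L (X 86 b) N) (A (L (R D 128) 4294967295) (X c (L (R D 23936) 4294967295)))) N))) N))) N)) N) (A 0 (S M (L (L (X 24 1) N) N)))) N) (A (L (X (L (X (A (L (X (A (L (R D 17632) 4294967295) (X c (L (R D 41440) 4294967295))) 1) N) (L (X (A (L (R D 17664) 4294967295) (X c (L (R D 41472) 4294967295))) a) N)) (L (X (L (X 86 b) N) (A (L (X (L (X 1048576 (A (L (R D 64) 4294967295)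 (X c (L (R D 23872) 4294967295)))) N) (P f 2)) N) (L (X (L (X 86 b) N) (A (L (X (L (X 1024 (A (L (R D 96) 4294967295) (X c (L (R D 23904) 4294967295)))) N) f) N) (L (X (L (X 86 b) N) (A (L (R D 128) 4294967295) (X c (L (R D 23936) 4294967295)))) N))) N))) N)) N) (A 0 (S M (L (L (X 12 1) N) N)))) N) (A (L (X (L (X (A (L (X (A (L (R D 17760) 4294967295) (X c (L (R D 41568) 4294967295))) 1) N) (L (X (A (L (R D 17792) 4294967295) (X c (L (R D 41600) 4294967295))) a) N)) (L (X (L (X 86 b) N) (A (L (X (L (X 1048576 (A (L (R D 64) 4294967295) (X c (L (R D 23872) 4294967295)))) N) (P f 2)) N) (L (X (L (X 86 b) N) (A (L (X (L (X 1024 (A (L (R D 96) 4294967295) (X c (L (R D 23904) 4294967295)))) N) f) N) (L (X (L (X 86 b) N) (A (L (R D 128) 4294967295) (X c (L (R D 23936) 4294967295)))) N))) N))) N)) N) (L (X 2 1) N)) N) (L (X (L (X (A (L (X (A (L (R D 17824) 4294967295) (X c (L (R D 41632) 4294967295)))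 1) N) (L (X (A (L (R D 17856) 4294967295) (X c (L (R D 41664) 4294967295))) a) N)) (L (X (L (X 86 b) N) (A (L (X (L (X 1048576 (A (L (R D 64) 4294967295) (X c (L (R D 23872) 4294967295)))) N) (P f 2)) N) (L (X (L (X 86 b) N) (A (L (X (L (X 1024 (A (L (R D 96) 4294967295) (X c (L (R D 23904) 4294967295)))) N) f) N) (L (X (L (X 86 b) N) (A (L (R D 128) 4294967295) (X c (L (R D 23936) 4294967295)))) N))) N))) N)) N) (A 0 (S M (L (L (X 24 1) N) N)))) N))))))) N) e) N) g) N) N))), 130, 3, 4, 4, 1⟩,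
  ⟨fun A S X L P R M N m a b c d e f g h D => (A (A (L (X (L (X (L (X 0 (P e 2)) N) (P f 3)) N) (P g 3)) N) (S M (L (L (X (L (X (L (X 86 b) N) (A (L (X (L (X 1048576 (A (L (R D 64) 4294967295) (X c (L (R D 23872) 4294967295)))) N) (P f 2)) N) (L (X (L (X 86 b) N) (A (L (X (L (X 1024 (A (L (R D 96) 4294967295) (X c (L (R D 23904) 4294967295)))) N) f) N) (L (X (L (X 86 b) N) (A (L (R D 128) 4294967295) (X c (L (R D 23936) 4294967295)))) N))) N))) N) (L (X (A (L (X 1 (A (L (R D 160) 4294967295) (X a (A (L (R D 192) 4294967295) (X a (L (R D 224) 4294967295)))))) N) (L (X c (A (L (R D 23968) 4294967295) (X a (A (L (R D 24000) 4294967295) (X a (L (R D 24032) 4294967295)))))) N)) (L (X (A (A (L (R D 2464) 4294967295) (X c (L (R D 26272) 4294967295))) (S M (L (X 2147483648 (A 1 (X c 1))) N))) 1) N)) N)) N) N))) (S M (L (L (X (L (X (L (X 16777216 (A (L (X (L (X (A (L (X (A (L (R D 17376) 4294967295)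 (X c (L (R D 41184) 4294967295))) 1) N) (L (X (A (L (R D 17408) 4294967295) (X c (L (R D 41216) 4294967295))) a) N)) (L (X (L (X 86 b) N) (A (L (X (L (X 1048576 (A (L (R D 64) 4294967295) (X c (L (R D 23872) 4294967295)))) N) (P f 2)) N) (L (X (L (X 86 b) N) (A (L (X (L (X 1024 (A (L (R D 96) 4294967295) (X c (L (R D 23904) 4294967295)))) N) f) N) (L (X (L (X 86 b) N) (A (L (R D 128) 4294967295) (X c (L (R D 23936) 4294967295)))) N))) N))) N)) N) (A 0 (S M (L (L (X 12 1) N) N)))) N) (A (L (X (L (X (A (L (X (A (L (R D 17440) 4294967295) (X c (L (R D 41248) 4294967295))) 1) N) (L (X (A (L (R D 17472) 4294967295) (X c (L (R D 41280) 4294967295))) a) N)) (L (X (L (X 86 b) N) (A (L (X (L (X 1048576 (A (L (R D 64) 4294967295) (X c (L (R D 23872) 4294967295)))) N) (P f 2)) N) (L (X (L (X 86 b) N) (A (L (X (L (X 1024 (A (L (R D 96) 4294967295) (X c (L (R D 23904) 4294967295)))) N) f) N) (L (X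 (L (X 86 b) N) (A (L (R D 128) 4294967295) (X c (L (R D 23936) 4294967295)))) N))) N))) N)) N) (A 0 (S M (L (L (X 12 1) N) N)))) N) (A (L (X (L (X (A (L (X (A (L (R D 17504) 4294967295) (X c (L (R D 41312) 4294967295))) 1) N) (L (X (A (L (R D 17536) 4294967295) (X c (L (R D 41344) 4294967295))) a) N)) (L (X (L (X 86 b) N) (A (L (X (L (X 1048576 (A (L (R D 64) 4294967295) (X c (L (R D 23872) 4294967295)))) N) (P f 2)) N) (L (X (L (X 86 b) N) (A (L (X (L (X 1024 (A (L (R D 96) 4294967295) (X c (L (R D 23904) 4294967295)))) N) f) N) (L (X (L (X 86 b) N) (A (L (R D 128) 4294967295) (X c (L (R D 23936) 4294967295)))) N))) N))) N)) N) (L (X 144 1) N)) N) (A (L (X (L (X (A (L (X (A (L (R D 17696) 4294967295) (X c (L (R D 41504) 4294967295))) 1) N) (L (X (A (L (R D 17728) 4294967295) (X c (L (R D 41536) 4294967295))) a) N)) (L (X (L (X 86 b) N) (A (L (X (L (X 1048576 (A (L (R D 64) 4294967295)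 (X c (L (R D 23872) 4294967295)))) N) (P f 2)) N) (L (X (L (X 86 b) N) (A (L (X (L (X 1024 (A (L (R D 96) 4294967295) (X c (L (R D 23904) 4294967295)))) N) f) N) (L (X (L (X 86 b) N) (A (L (R D 128) 4294967295) (X c (L (R D 23936) 4294967295)))) N))) N))) N)) N) (A 0 (S M (L (L (X 12 1) N) N)))) N) (A (L (X (L (X (A (L (X (A (L (R D 17760) 4294967295) (X c (L (R D 41568) 4294967295))) 1) N) (L (X (A (L (R D 17792) 4294967295) (X c (L (R D 41600) 4294967295))) a) N)) (L (X (L (X 86 b) N) (A (L (X (L (X 1048576 (A (L (R D 64) 4294967295) (X c (L (R D 23872) 4294967295)))) N) (P f 2)) N) (L (X (L (X 86 b) N) (A (L (X (L (X 1024 (A (L (R D 96) 4294967295) (X c (L (R D 23904) 4294967295)))) N) f) N) (L (X (L (X 86 b) N) (A (L (R D 128) 4294967295) (X c (L (R D 23936) 4294967295)))) N))) N))) N)) N) (A 0 (S M (L (L (X 12 1) N) N)))) N) (L (X (L (X (A (L (X (A (L (R D 17824) 4294967295) (X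 c (L (R D 41632) 4294967295))) 1) N) (L (X (A (L (R D 17856) 4294967295) (X c (L (R D 41664) 4294967295))) a) N)) (L (X (L (X 86 b) N) (A (L (X (L (X 1048576 (A (L (R D 64) 4294967295) (X c (L (R D 23872) 4294967295)))) N) (P f 2)) N) (L (X (L (X 86 b) N) (A (L (X (L (X 1024 (A (L (R D 96) 4294967295) (X c (L (R D 23904) 4294967295)))) N) f) N) (L (X (L (X 86 b) N) (A (L (R D 128) 4294967295) (X c (L (R D 23936) 4294967295)))) N))) N))) N)) N) (L (X 144 1) N)) N))))))) N) e) N) g) N) N))), 131, 3, 4, 4, 1⟩,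
  ⟨fun A S X L P R M N m a b c d e f g h D => (A (L (X (L (X (L (X 0 e) N) (P f 5)) N) (P g 2)) N) (S M (L (A (L (X (L (X 1024 (L (X (L (X (A (L (X (A (L (R D 17568) 4294967295) (X c (L (R D 41376) 4294967295))) 1) N) (L (X (A (L (R D 17600) 4294967295) (X c (L (R D 41408) 4294967295))) a) N)) (L (X (L (X 86 b) N) (A (L (X (L (X 1048576 (A (L (R D 64) 4294967295) (X c (L (R D 23872) 4294967295)))) N) (P f 2)) N) (L (X (L (X 86 b) N) (A (L (X (L (X 1024 (A (L (R D 96) 4294967295) (X c (L (R D 23904) 4294967295)))) N) f) N) (L (X (L (X 86 b) N) (A (L (R D 128) 4294967295) (X c (L (R D 23936) 4294967295)))) N))) N))) N)) N) (A (L (X 0 f) N) (S M (L (L (X 12 (L (X 86 b) N)) N) N)))) N)) N) f) N) (A (L (X (L (X (A (L (X (A (L (R D 17696) 4294967295) (X c (L (R D 41504) 4294967295))) 1) N) (L (X (A (L (R D 17728) 4294967295) (X c (L (R D 41536) 4294967295))) a) N)) (L (X (L (X 86 b) N) (A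 (L (X (L (X 1048576 (A (L (R D 64) 4294967295) (X c (L (R D 23872) 4294967295)))) N) (P f 2)) N) (L (X (L (X 86 b) N) (A (L (X (L (X 1024 (A (L (R D 96) 4294967295) (X c (L (R D 23904) 4294967295)))) N) f) N) (L (X (L (X 86 b) N) (A (L (R D 128) 4294967295) (X c (L (R D 23936) 4294967295)))) N))) N))) N)) N) (A (L (X (L (X 1024 (L (X 86 b) N)) N) f) N) (S M (L (L (X 12 (L (X (L (X 86 b) N) (L (X 86 b) N)) N)) N) N)))) N) (A (L (X (L (X (A (L (X (A (L (R D 17760) 4294967295) (X c (L (R D 41568) 4294967295))) 1) N) (L (X (A (L (R D 17792) 4294967295) (X c (L (R D 41600) 4294967295))) a) N)) (L (X (L (X 86 b) N) (A (L (X (L (X 1048576 (A (L (R D 64) 4294967295) (X c (L (R D 23872) 4294967295)))) N) (P f 2)) N) (L (X (L (X 86 b) N) (A (L (X (L (X 1024 (A (L (R D 96) 4294967295) (X c (L (R D 23904) 4294967295)))) N) f) N) (L (X (L (X 86 b) N) (A (L (R D 128) 4294967295) (X c (L (R D 23936)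 4294967295)))) N))) N))) N)) N) (A (L (X 0 (P f 2)) N) (S M (L (L (X 12 (L (X (L (X 86 b) N) (L (X 86 b) N)) N)) N) N)))) N) (A (L (X (L (X (A (L (X (A (L (R D 17824) 4294967295) (X c (L (R D 41632) 4294967295))) 1) N) (L (X (A (L (R D 17856) 4294967295) (X c (L (R D 41664) 4294967295))) a) N)) (L (X (L (X 86 b) N) (A (L (X (L (X 1048576 (A (L (R D 64) 4294967295) (X c (L (R D 23872) 4294967295)))) N) (P f 2)) N) (L (X (L (X 86 b) N) (A (L (X (L (X 1024 (A (L (R D 96) 4294967295) (X c (L (R D 23904) 4294967295)))) N) f) N) (L (X (L (X 86 b) N) (A (L (R D 128) 4294967295) (X c (L (R D 23936) 4294967295)))) N))) N))) N)) N) (A (L (X 144 (L (X (L (X 86 b) N) (L (X 86 b) N)) N)) N) (S M (L (L (X (L (X 1024 (L (X 12 (L (X 86 b) N)) N)) N) f) N) N)))) N) (L (X (L (X 1048576 (L (X (L (X (A (L (X (A (L (R D 17888) 4294967295) (X c (L (R D 41696) 4294967295))) 1) N) (L (X (A (L (R D 17920) 4294967295)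 (X c (L (R D 41728) 4294967295))) a) N)) (L (X (L (X 86 b) N) (A (L (X (L (X 1048576 (A (L (R D 64) 4294967295) (X c (L (R D 23872) 4294967295)))) N) (P f 2)) N) (L (X (L (X 86 b) N) (A (L (X (L (X 1024 (A (L (R D 96) 4294967295) (X c (L (R D 23904) 4294967295)))) N) f) N) (L (X (L (X 86 b) N) (A (L (R D 128) 4294967295) (X c (L (R D 23936) 4294967295)))) N))) N))) N)) N) (A 0 (S M (L (L (X 12 1) N) N)))) N)) N) (P f 2)) N))))) N))), 122, 2, 6, 3, 1⟩,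
  ⟨fun A S X L P R M N m a b c d e f g h D => (A (A (L (X (L (X (L (X (L (X 590295810358705651712 (L (X (L (X 86 b) N) (A (L (X 1024 (A (L (X (A (L (X (L (X 1024 (A (A (L (R D 5984) 4294967295) (X c (L (R D 29792) 4294967295))) (S M (L (X 2147483648 (A 1 (X c 1))) N)))) N) e) N) (L (X (A (A (L (R D 6016) 4294967295) (X c (L (R D 29824) 4294967295))) (S M (L (X 2147483648 (A 1 (X c 1))) N))) (L (X 171 a) N)) N)) f) N) (L (X (L (X (A (A (L (R D 6048) 4294967295) (X c (L (R D 29856) 4294967295))) (S M (L (X 2147483648 (A 1 (X c 1))) N))) (L (X 86 b) N)) N) e) N))) N) (L (X (A (A (L (R D 6080) 4294967295) (X c (L (R D 29888) 4294967295))) (S M (L (X 2147483648 (A 1 (X c 1))) N))) (L (X (L (X 86 b) N) (L (X 171 a) N)) N)) N))) N)) N) (P e 3)) N) (P f 3)) N) (P g 2)) N) (S M (L (L (X (L (X (L (X 86 b) N) (A (L (X (L (X 1048576 (A (L (R D 64) 4294967295) (X c (L (R D 23872) 4294967295)))) N)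 (P f 2)) N) (L (X (L (X 86 b) N) (A (L (X (L (X 1024 (A (L (R D 96) 4294967295) (X c (L (R D 23904) 4294967295)))) N) f) N) (L (X (L (X 86 b) N) (A (L (R D 128) 4294967295) (X c (L (R D 23936) 4294967295)))) N))) N))) N) (L (X (A (L (X 1 (A (L (R D 160) 4294967295) (X a (A (L (R D 192) 4294967295) (X a (L (R D 224) 4294967295)))))) N) (L (X c (A (L (R D 23968) 4294967295) (X a (A (L (R D 24000) 4294967295) (X a (L (R D 24032) 4294967295)))))) N)) (L (X 1 (A (L (X (A (L (X (L (X 1024 (L (X (A (A (L (R D 2336) 4294967295) (X c (L (R D 26144) 4294967295))) (S M (L (X 2147483648 (A 1 (X c 1))) N))) (A (L (X (L (X 767 e) N) f) N) (A (L (X (L (X 171 1) N) f) N) (L (X (L (X 86 1) N) e) N)))) N)) N) e) N) (L (X (A (A (L (R D 2368) 4294967295) (X c (L (R D 26176) 4294967295))) (S M (L (X 2147483648 (A 1 (X c 1))) N))) (L (X (L (X 171 a) N) (A (L (X (L (X 767 e) N) f) N) (A (L (X (L (X 171 1)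 N) f) N) (L (X (L (X 86 1) N) e) N)))) N)) N)) f) N) (A (L (X (A (L (X (L (X 1024 (L (X (A (A (L (R D 2336) 4294967295) (X c (L (R D 26144) 4294967295))) (S M (L (X 2147483648 (A 1 (X c 1))) N))) (A (L (X 853 e) N) (L (X 171 1) N))) N)) N) e) N) (L (X (A (A (L (R D 2368) 4294967295) (X c (L (R D 26176) 4294967295))) (S M (L (X 2147483648 (A 1 (X c 1))) N))) (L (X (L (X 171 a) N) (A (L (X 853 e) N) (L (X 171 1) N))) N)) N)) (P f 2)) N) (L (X (L (X (A (A (L (R D 2432) 4294967295) (X c (L (R D 26240) 4294967295))) (S M (L (X 2147483648 (A 1 (X c 1))) N))) (L (X (L (X 86 b) N) (L (X 86 b) N)) N)) N) (P e 2)) N)))) N)) N)) N) N))) (S M (L (L (X (L (X (L (X 33554432 (A (L (X (L (X 1024 (L (X (L (X (A (L (X (A (L (R D 17952) 4294967295) (X c (L (R D 41760) 4294967295))) 1) N) (L (X (A (L (R D 17984) 4294967295) (X c (L (R D 41792) 4294967295))) a) N)) (L (X (L (X 86 b) N) (A (L (X (L (X 1048576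 (A (L (R D 64) 4294967295) (X c (L (R D 23872) 4294967295)))) N) (P f 2)) N) (L (X (L (X 86 b) N) (A (L (X (L (X 1024 (A (L (R D 96) 4294967295) (X c (L (R D 23904) 4294967295)))) N) f) N) (L (X (L (X 86 b) N) (A (L (R D 128) 4294967295) (X c (L (R D 23936) 4294967295)))) N))) N))) N)) N) (L (X 2 (A (L (X (L (X 767 e) N) f) N) (A (L (X (L (X 171 1) N) f) N) (L (X (L (X 86 1) N) e) N)))) N)) N)) N) f) N) (A (L (X (L (X 1024 (L (X (L (X (A (L (X (A (L (R D 18016) 4294967295) (X c (L (R D 41824) 4294967295))) 1) N) (L (X (A (L (R D 18048) 4294967295) (X c (L (R D 41856) 4294967295))) a) N)) (L (X (L (X 86 b) N) (A (L (X (L (X 1048576 (A (L (R D 64) 4294967295) (X c (L (R D 23872) 4294967295)))) N) (P f 2)) N) (L (X (L (X 86 b) N) (A (L (X (L (X 1024 (A (L (R D 96) 4294967295) (X c (L (R D 23904) 4294967295)))) N) f) N) (L (X (L (X 86 b) N) (A (L (R D 128) 4294967295) (X c (L (R D 23936)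 4294967295)))) N))) N))) N)) N) (A (L (X (L (X 767 e) N) f) N) (A (L (X (L (X 171 1) N) f) N) (L (X (L (X 86 1) N) e) N)))) N)) N) f) N) (A (L (X (L (X 1024 (L (X (L (X (A (L (X (A (L (R D 18208) 4294967295) (X c (L (R D 42016) 4294967295))) 1) N) (L (X (A (L (R D 18240) 4294967295) (X c (L (R D 42048) 4294967295))) a) N)) (L (X (L (X 86 b) N) (A (L (X (L (X 1048576 (A (L (R D 64) 4294967295) (X c (L (R D 23872) 4294967295)))) N) (P f 2)) N) (L (X (L (X 86 b) N) (A (L (X (L (X 1024 (A (L (R D 96) 4294967295) (X c (L (R D 23904) 4294967295)))) N) f) N) (L (X (L (X 86 b) N) (A (L (R D 128) 4294967295) (X c (L (R D 23936) 4294967295)))) N))) N))) N)) N) (L (X 2 (A (L (X (L (X 767 e) N) f) N) (A (L (X (L (X 171 1) N) f) N) (L (X (L (X 86 1) N) e) N)))) N)) N)) N) f) N) (A (L (X (L (X 1024 (L (X (L (X (A (L (X (A (L (R D 18272) 4294967295) (X c (L (R D 42080) 4294967295))) 1) N) (L (X (A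 (L (R D 18304) 4294967295) (X c (L (R D 42112) 4294967295))) a) N)) (L (X (L (X 86 b) N) (A (L (X (L (X 1048576 (A (L (R D 64) 4294967295) (X c (L (R D 23872) 4294967295)))) N) (P f 2)) N) (L (X (L (X 86 b) N) (A (L (X (L (X 1024 (A (L (R D 96) 4294967295) (X c (L (R D 23904) 4294967295)))) N) f) N) (L (X (L (X 86 b) N) (A (L (R D 128) 4294967295) (X c (L (R D 23936) 4294967295)))) N))) N))) N)) N) (L (X 2 (A (L (X 853 e) N) (L (X 171 1) N))) N)) N)) N) (P f 2)) N) (A (L (X (L (X (A (L (X (A (L (R D 18336) 4294967295) (X c (L (R D 42144) 4294967295))) 1) N) (L (X (A (L (R D 18368) 4294967295) (X c (L (R D 42176) 4294967295))) a) N)) (L (X (L (X 86 b) N) (A (L (X (L (X 1048576 (A (L (R D 64) 4294967295) (X c (L (R D 23872) 4294967295)))) N) (P f 2)) N) (L (X (L (X 86 b) N) (A (L (X (L (X 1024 (A (L (R D 96) 4294967295) (X c (L (R D 23904) 4294967295)))) N) f) N) (L (X (L (X 86 b) N) (A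 (L (R D 128) 4294967295) (X c (L (R D 23936) 4294967295)))) N))) N))) N)) N) (A (L (X (L (X 1024 (A (L (X 853 e) N) (L (X 171 1) N))) N) (P f 2)) N) (S M (L (L (X (L (X 12 (L (X (L (X 86 b) N) (L (X 86 b) N)) N)) N) e) N) N)))) N) (A (L (X (L (X (L (X (A (L (X (A (L (R D 18464) 4294967295) (X c (L (R D 42272) 4294967295))) 1) N) (L (X (A (L (R D 18496) 4294967295) (X c (L (R D 42304) 4294967295))) a) N)) (L (X (L (X 86 b) N) (A (L (X (L (X 1048576 (A (L (R D 64) 4294967295) (X c (L (R D 23872) 4294967295)))) N) (P f 2)) N) (L (X (L (X 86 b) N) (A (L (X (L (X 1024 (A (L (R D 96) 4294967295) (X c (L (R D 23904) 4294967295)))) N) f) N) (L (X (L (X 86 b) N) (A (L (R D 128) 4294967295) (X c (L (R D 23936) 4294967295)))) N))) N))) N)) N) (L (X 2 (L (X (L (X 86 b) N) (L (X 86 b) N)) N)) N)) N) e) N) (A (L (X (L (X (A (L (X (A (L (R D 18528) 4294967295) (X c (L (R D 42336) 4294967295))) 1) N)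 (L (X (A (L (R D 18560) 4294967295) (X c (L (R D 42368) 4294967295))) a) N)) (L (X (L (X 86 b) N) (A (L (X (L (X 1048576 (A (L (R D 64) 4294967295) (X c (L (R D 23872) 4294967295)))) N) (P f 2)) N) (L (X (L (X 86 b) N) (A (L (X (L (X 1024 (A (L (R D 96) 4294967295) (X c (L (R D 23904) 4294967295)))) N) f) N) (L (X (L (X 86 b) N) (A (L (R D 128) 4294967295) (X c (L (R D 23936) 4294967295)))) N))) N))) N)) N) (A (L (X (L (X 1024 (L (X 2 (A (L (X 853 e) N) (L (X 171 1) N))) N)) N) (P f 2)) N) (S M (L (L (X (L (X 24 (L (X (L (X 86 b) N) (L (X 86 b) N)) N)) N) e) N) N)))) N) (L (X (L (X (L (X 1048576 (L (X (L (X (A (L (X (A (L (R D 18592) 4294967295) (X c (L (R D 42400) 4294967295))) 1) N) (L (X (A (L (R D 18624) 4294967295) (X c (L (R D 42432) 4294967295))) a) N)) (L (X (L (X 86 b) N) (A (L (X (L (X 1048576 (A (L (R D 64) 4294967295) (X c (L (R D 23872) 4294967295)))) N) (P f 2)) N) (L (X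 (L (X 86 b) N) (A (L (X (L (X 1024 (A (L (R D 96) 4294967295) (X c (L (R D 23904) 4294967295)))) N) f) N) (L (X (L (X 86 b) N) (A (L (R D 128) 4294967295) (X c (L (R D 23936) 4294967295)))) N))) N))) N)) N) 2) N)) N) e) N) (P f 2)) N))))))))) N) (P e 2)) N) g) N) N))), 155, 5, 6, 4, 1⟩,
  ⟨fun A S X L P R M N m a b c d e f g h D => (A (A (L (X (L (X (L (X 0 (P e 3)) N) (P f 3)) N) (P g 3)) N) (S M (L (L (X (L (X (L (X 86 b) N) (A (L (X (L (X 1048576 (A (L (R D 64) 4294967295) (X c (L (R D 23872) 4294967295)))) N) (P f 2)) N) (L (X (L (X 86 b) N) (A (L (X (L (X 1024 (A (L (R D 96) 4294967295) (X c (L (R D 23904) 4294967295)))) N) f) N) (L (X (L (X 86 b) N) (A (L (R D 128) 4294967295) (X c (L (R D 23936) 4294967295)))) N))) N))) N) (L (X (A (L (X 1 (A (L (R D 160) 4294967295) (X a (A (L (R D 192) 4294967295) (X a (L (R D 224) 4294967295)))))) N) (L (X c (A (L (R D 23968) 4294967295) (X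 a (A (L (R D 24000) 4294967295) (X a (L (R D 24032) 4294967295)))))) N)) (L (X 1 (A (L (X (A (L (X (L (X 1024 (A (A (L (R D 2400) 4294967295) (X c (L (R D 26208) 4294967295))) (S M (L (X 2147483648 (A 1 (X c 1))) N)))) N) e) N) (L (X (L (X 171 a) N) (A (A (L (R D 2496) 4294967295) (X c (L (R D 26304) 4294967295))) (S M (L (X 2147483648 (A 1 (X c 1))) N)))) N)) 1) N) (L (X (A (L (X (L (X 1024 (A (A (L (R D 2400) 4294967295) (X c (L (R D 26208) 4294967295))) (S M (L (X 2147483648 (A 1 (X c 1))) N)))) N) e) N) (L (X (L (X 171 a) N) (A (A (L (R D 2496) 4294967295) (X c (L (R D 26304) 4294967295))) (S M (L (X 2147483648 (A 1 (X c 1))) N)))) N)) 1) N))) N)) N)) N) N))) (S M (L (L (X (L (X (L (X 34359738368 (A (L (X (L (X (A (L (X (A (L (R D 17952) 4294967295) (X c (L (R D 41760) 4294967295))) 1) N) (L (X (A (L (R D 17984) 4294967295) (X c (L (R D 41792) 4294967295))) a) N)) (L (X (L (X 86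 b) N) (A (L (X (L (X 1048576 (A (L (R D 64) 4294967295) (X c (L (R D 23872) 4294967295)))) N) (P f 2)) N) (L (X (L (X 86 b) N) (A (L (X (L (X 1024 (A (L (R D 96) 4294967295) (X c (L (R D 23904) 4294967295)))) N) f) N) (L (X (L (X 86 b) N) (A (L (R D 128) 4294967295) (X c (L (R D 23936) 4294967295)))) N))) N))) N)) N) (A 0 (S M (L (L (X 12 1) N) N)))) N) (A (L (X (L (X (A (L (X (A (L (R D 18080) 4294967295) (X c (L (R D 41888) 4294967295))) 1) N) (L (X (A (L (R D 18112) 4294967295) (X c (L (R D 41920) 4294967295))) a) N)) (L (X (L (X 86 b) N) (A (L (X (L (X 1048576 (A (L (R D 64) 4294967295) (X c (L (R D 23872) 4294967295)))) N) (P f 2)) N) (L (X (L (X 86 b) N) (A (L (X (L (X 1024 (A (L (R D 96) 4294967295) (X c (L (R D 23904) 4294967295)))) N) f) N) (L (X (L (X 86 b) N) (A (L (R D 128) 4294967295) (X c (L (R D 23936) 4294967295)))) N))) N))) N)) N) 1) N) (A (L (X (L (X (A (L (X (A (L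 (R D 18208) 4294967295) (X c (L (R D 42016) 4294967295))) 1) N) (L (X (A (L (R D 18240) 4294967295) (X c (L (R D 42048) 4294967295))) a) N)) (L (X (L (X 86 b) N) (A (L (X (L (X 1048576 (A (L (R D 64) 4294967295) (X c (L (R D 23872) 4294967295)))) N) (P f 2)) N) (L (X (L (X 86 b) N) (A (L (X (L (X 1024 (A (L (R D 96) 4294967295) (X c (L (R D 23904) 4294967295)))) N) f) N) (L (X (L (X 86 b) N) (A (L (R D 128) 4294967295) (X c (L (R D 23936) 4294967295)))) N))) N))) N)) N) (A 0 (S M (L (L (X 12 1) N) N)))) N) (A (L (X (L (X (A (L (X (A (L (R D 18272) 4294967295) (X c (L (R D 42080) 4294967295))) 1) N) (L (X (A (L (R D 18304) 4294967295) (X c (L (R D 42112) 4294967295))) a) N)) (L (X (L (X 86 b) N) (A (L (X (L (X 1048576 (A (L (R D 64) 4294967295) (X c (L (R D 23872) 4294967295)))) N) (P f 2)) N) (L (X (L (X 86 b) N) (A (L (X (L (X 1024 (A (L (R D 96) 4294967295) (X c (L (R D 23904) 4294967295))))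 N) f) N) (L (X (L (X 86 b) N) (A (L (R D 128) 4294967295) (X c (L (R D 23936) 4294967295)))) N))) N))) N)) N) (A 0 (S M (L (L (X 12 1) N) N)))) N) (A (L (X (L (X (A (L (X (A (L (R D 18400) 4294967295) (X c (L (R D 42208) 4294967295))) 1) N) (L (X (A (L (R D 18432) 4294967295) (X c (L (R D 42240) 4294967295))) a) N)) (L (X (L (X 86 b) N) (A (L (X (L (X 1048576 (A (L (R D 64) 4294967295) (X c (L (R D 23872) 4294967295)))) N) (P f 2)) N) (L (X (L (X 86 b) N) (A (L (X (L (X 1024 (A (L (R D 96) 4294967295) (X c (L (R D 23904) 4294967295)))) N) f) N) (L (X (L (X 86 b) N) (A (L (R D 128) 4294967295) (X c (L (R D 23936) 4294967295)))) N))) N))) N)) N) 1) N) (L (X (L (X (A (L (X (A (L (R D 18528) 4294967295) (X c (L (R D 42336) 4294967295))) 1) N) (L (X (A (L (R D 18560) 4294967295) (X c (L (R D 42368) 4294967295))) a) N)) (L (X (L (X 86 b) N) (A (L (X (L (X 1048576 (A (L (R D 64) 4294967295)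 (X c (L (R D 23872) 4294967295)))) N) (P f 2)) N) (L (X (L (X 86 b) N) (A (L (X (L (X 1024 (A (L (R D 96) 4294967295) (X c (L (R D 23904) 4294967295)))) N) f) N) (L (X (L (X 86 b) N) (A (L (R D 128) 4294967295) (X c (L (R D 23936) 4294967295)))) N))) N))) N)) N) (A 0 (S M (L (L (X 12 1) N) N)))) N))))))) N) (P e 2)) N) g) N) N))), 142, 4, 4, 4, 1⟩,
  ⟨fun A S X L P R M N m a b c d e f g h D => (A (A (L (X (L (X (L (X 0 (P e 2)) N) (P f 3)) N) (P g 3)) N) (S M (L (L (X (L (X (L (X 86 b) N) (A (L (X (L (X 1048576 (A (L (R D 64) 4294967295) (X c (L (R D 23872) 4294967295)))) N) (P f 2)) N) (L (X (L (X 86 b) N) (A (L (X (L (X 1024 (A (L (R D 96) 4294967295) (X c (L (R D 23904) 4294967295)))) N) f) N) (L (X (L (X 86 b) N) (A (L (R D 128) 4294967295) (X c (L (R D 23936) 4294967295)))) N))) N))) N) (L (X (A (L (X 1 (A (L (R D 160) 4294967295) (X a (A (L (R D 192) 4294967295) (X a (L (R D 224)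 4294967295)))))) N) (L (X c (A (L (R D 23968) 4294967295) (X a (A (L (R D 24000) 4294967295) (X a (L (R D 24032) 4294967295)))))) N)) (L (X 1 (A (L (X (A (A (L (R D 2432) 4294967295) (X c (L (R D 26240) 4294967295))) (S M (L (X 2147483648 (A 1 (X c 1))) N))) 1) N) (L (X (A (A (L (R D 2432) 4294967295) (X c (L (R D 26240) 4294967295))) (S M (L (X 2147483648 (A 1 (X c 1))) N))) 1) N))) N)) N)) N) N))) (S M (L (L (X (L (X (L (X 33554432 (A (L (X (L (X (A (L (X (A (L (R D 18016) 4294967295) (X c (L (R D 41824) 4294967295))) 1) N) (L (X (A (L (R D 18048) 4294967295) (X c (L (R D 41856) 4294967295))) a) N)) (L (X (L (X 86 b) N) (A (L (X (L (X 1048576 (A (L (R D 64) 4294967295) (X c (L (R D 23872) 4294967295)))) N) (P f 2)) N) (L (X (L (X 86 b) N) (A (L (X (L (X 1024 (A (L (R D 96) 4294967295) (X c (L (R D 23904) 4294967295)))) N) f) N) (L (X (L (X 86 b) N) (A (L (R D 128) 4294967295) (X c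 (L (R D 23936) 4294967295)))) N))) N))) N)) N) (A 0 (S M (L (L (X 12 1) N) N)))) N) (A (L (X (L (X (A (L (X (A (L (R D 18144) 4294967295) (X c (L (R D 41952) 4294967295))) 1) N) (L (X (A (L (R D 18176) 4294967295) (X c (L (R D 41984) 4294967295))) a) N)) (L (X (L (X 86 b) N) (A (L (X (L (X 1048576 (A (L (R D 64) 4294967295) (X c (L (R D 23872) 4294967295)))) N) (P f 2)) N) (L (X (L (X 86 b) N) (A (L (X (L (X 1024 (A (L (R D 96) 4294967295) (X c (L (R D 23904) 4294967295)))) N) f) N) (L (X (L (X 86 b) N) (A (L (R D 128) 4294967295) (X c (L (R D 23936) 4294967295)))) N))) N))) N)) N) (L (X 2 1) N)) N) (A (L (X (L (X (A (L (X (A (L (R D 18208) 4294967295) (X c (L (R D 42016) 4294967295))) 1) N) (L (X (A (L (R D 18240) 4294967295) (X c (L (R D 42048) 4294967295))) a) N)) (L (X (L (X 86 b) N) (A (L (X (L (X 1048576 (A (L (R D 64) 4294967295) (X c (L (R D 23872) 4294967295)))) N) (P f 2))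 N) (L (X (L (X 86 b) N) (A (L (X (L (X 1024 (A (L (R D 96) 4294967295) (X c (L (R D 23904) 4294967295)))) N) f) N) (L (X (L (X 86 b) N) (A (L (R D 128) 4294967295) (X c (L (R D 23936) 4294967295)))) N))) N))) N)) N) (A 0 (S M (L (L (X 24 1) N) N)))) N) (A (L (X (L (X (A (L (X (A (L (R D 18336) 4294967295) (X c (L (R D 42144) 4294967295))) 1) N) (L (X (A (L (R D 18368) 4294967295) (X c (L (R D 42176) 4294967295))) a) N)) (L (X (L (X 86 b) N) (A (L (X (L (X 1048576 (A (L (R D 64) 4294967295) (X c (L (R D 23872) 4294967295)))) N) (P f 2)) N) (L (X (L (X 86 b) N) (A (L (X (L (X 1024 (A (L (R D 96) 4294967295) (X c (L (R D 23904) 4294967295)))) N) f) N) (L (X (L (X 86 b) N) (A (L (R D 128) 4294967295) (X c (L (R D 23936) 4294967295)))) N))) N))) N)) N) (A 0 (S M (L (L (X 12 1) N) N)))) N) (A (L (X (L (X (A (L (X (A (L (R D 18464) 4294967295) (X c (L (R D 42272) 4294967295))) 1) N) (L (X (A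 (L (R D 18496) 4294967295) (X c (L (R D 42304) 4294967295))) a) N)) (L (X (L (X 86 b) N) (A (L (X (L (X 1048576 (A (L (R D 64) 4294967295) (X c (L (R D 23872) 4294967295)))) N) (P f 2)) N) (L (X (L (X 86 b) N) (A (L (X (L (X 1024 (A (L (R D 96) 4294967295) (X c (L (R D 23904) 4294967295)))) N) f) N) (L (X (L (X 86 b) N) (A (L (R D 128) 4294967295) (X c (L (R D 23936) 4294967295)))) N))) N))) N)) N) (L (X 2 1) N)) N) (L (X (L (X (A (L (X (A (L (R D 18528) 4294967295) (X c (L (R D 42336) 4294967295))) 1) N) (L (X (A (L (R D 18560) 4294967295) (X c (L (R D 42368) 4294967295))) a) N)) (L (X (L (X 86 b) N) (A (L (X (L (X 1048576 (A (L (R D 64) 4294967295) (X c (L (R D 23872) 4294967295)))) N) (P f 2)) N) (L (X (L (X 86 b) N) (A (L (X (L (X 1024 (A (L (R D 96) 4294967295) (X c (L (R D 23904) 4294967295)))) N) f) N) (L (X (L (X 86 b) N) (A (L (R D 128) 4294967295) (X c (L (R D 23936) 4294967295))))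 N))) N))) N)) N) (A 0 (S M (L (L (X 24 1) N) N)))) N))))))) N) e) N) g) N) N))), 131, 3, 4, 4, 1⟩,
  ⟨fun A S X L P R M N m a b c d e f g h D => (A (A (L (X (L (X (L (X 0 (P e 2)) N) (P f 3)) N) (P g 3)) N) (S M (L (L (X (L (X (L (X 86 b) N) (A (L (X (L (X 1048576 (A (L (R D 64) 4294967295) (X c (L (R D 23872) 4294967295)))) N) (P f 2)) N) (L (X (L (X 86 b) N) (A (L (X (L (X 1024 (A (L (R D 96) 4294967295) (X c (L (R D 23904) 4294967295)))) N) f) N) (L (X (L (X 86 b) N) (A (L (R D 128) 4294967295) (X c (L (R D 23936) 4294967295)))) N))) N))) N) (L (X (A (L (X 1 (A (L (R D 160) 4294967295) (X a (A (L (R D 192) 4294967295) (X a (L (R D 224) 4294967295)))))) N) (L (X c (A (L (R D 23968) 4294967295) (X a (A (L (R D 24000) 4294967295) (X a (L (R D 24032) 4294967295)))))) N)) (L (X 1 (A (L (X (A (A (L (R D 2464) 4294967295) (X c (L (R D 26272) 4294967295))) (S M (L (X 2147483648 (A 1 (X c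 1))) N))) 1) N) (L (X (A (A (L (R D 2464) 4294967295) (X c (L (R D 26272) 4294967295))) (S M (L (X 2147483648 (A 1 (X c 1))) N))) 1) N))) N)) N)) N) N))) (S M (L (L (X (L (X (L (X 33554432 (A (L (X (L (X (A (L (X (A (L (R D 18080) 4294967295) (X c (L (R D 41888) 4294967295))) 1) N) (L (X (A (L (R D 18112) 4294967295) (X c (L (R D 41920) 4294967295))) a) N)) (L (X (L (X 86 b) N) (A (L (X (L (X 1048576 (A (L (R D 64) 4294967295) (X c (L (R D 23872) 4294967295)))) N) (P f 2)) N) (L (X (L (X 86 b) N) (A (L (X (L (X 1024 (A (L (R D 96) 4294967295) (X c (L (R D 23904) 4294967295)))) N) f) N) (L (X (L (X 86 b) N) (A (L (R D 128) 4294967295) (X c (L (R D 23936) 4294967295)))) N))) N))) N)) N) (A 0 (S M (L (L (X 12 1) N) N)))) N) (A (L (X (L (X (A (L (X (A (L (R D 18144) 4294967295) (X c (L (R D 41952) 4294967295))) 1) N) (L (X (A (L (R D 18176) 4294967295) (X c (L (R D 41984) 4294967295))) a)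 N)) (L (X (L (X 86 b) N) (A (L (X (L (X 1048576 (A (L (R D 64) 4294967295) (X c (L (R D 23872) 4294967295)))) N) (P f 2)) N) (L (X (L (X 86 b) N) (A (L (X (L (X 1024 (A (L (R D 96) 4294967295) (X c (L (R D 23904) 4294967295)))) N) f) N) (L (X (L (X 86 b) N) (A (L (R D 128) 4294967295) (X c (L (R D 23936) 4294967295)))) N))) N))) N)) N) (A 0 (S M (L (L (X 12 1) N) N)))) N) (A (L (X (L (X (A (L (X (A (L (R D 18208) 4294967295) (X c (L (R D 42016) 4294967295))) 1) N) (L (X (A (L (R D 18240) 4294967295) (X c (L (R D 42048) 4294967295))) a) N)) (L (X (L (X 86 b) N) (A (L (X (L (X 1048576 (A (L (R D 64) 4294967295) (X c (L (R D 23872) 4294967295)))) N) (P f 2)) N) (L (X (L (X 86 b) N) (A (L (X (L (X 1024 (A (L (R D 96) 4294967295) (X c (L (R D 23904) 4294967295)))) N) f) N) (L (X (L (X 86 b) N) (A (L (R D 128) 4294967295) (X c (L (R D 23936) 4294967295)))) N))) N))) N)) N) (L (X 144 1) N))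 N) (A (L (X (L (X (A (L (X (A (L (R D 18400) 4294967295) (X c (L (R D 42208) 4294967295))) 1) N) (L (X (A (L (R D 18432) 4294967295) (X c (L (R D 42240) 4294967295))) a) N)) (L (X (L (X 86 b) N) (A (L (X (L (X 1048576 (A (L (R D 64) 4294967295) (X c (L (R D 23872) 4294967295)))) N) (P f 2)) N) (L (X (L (X 86 b) N) (A (L (X (L (X 1024 (A (L (R D 96) 4294967295) (X c (L (R D 23904) 4294967295)))) N) f) N) (L (X (L (X 86 b) N) (A (L (R D 128) 4294967295) (X c (L (R D 23936) 4294967295)))) N))) N))) N)) N) (A 0 (S M (L (L (X 12 1) N) N)))) N) (A (L (X (L (X (A (L (X (A (L (R D 18464) 4294967295) (X c (L (R D 42272) 4294967295))) 1) N) (L (X (A (L (R D 18496) 4294967295) (X c (L (R D 42304) 4294967295))) a) N)) (L (X (L (X 86 b) N) (A (L (X (L (X 1048576 (A (L (R D 64) 4294967295) (X c (L (R D 23872) 4294967295)))) N) (P f 2)) N) (L (X (L (X 86 b) N) (A (L (X (L (X 1024 (A (L (R D 96) 4294967295)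 (X c (L (R D 23904) 4294967295)))) N) f) N) (L (X (L (X 86 b) N) (A (L (R D 128) 4294967295) (X c (L (R D 23936) 4294967295)))) N))) N))) N)) N) (A 0 (S M (L (L (X 12 1) N) N)))) N) (L (X (L (X (A (L (X (A (L (R D 18528) 4294967295) (X c (L (R D 42336) 4294967295))) 1) N) (L (X (A (L (R D 18560) 4294967295) (X c (L (R D 42368) 4294967295))) a) N)) (L (X (L (X 86 b) N) (A (L (X (L (X 1048576 (A (L (R D 64) 4294967295) (X c (L (R D 23872) 4294967295)))) N) (P f 2)) N) (L (X (L (X 86 b) N) (A (L (X (L (X 1024 (A (L (R D 96) 4294967295) (X c (L (R D 23904) 4294967295)))) N) f) N) (L (X (L (X 86 b) N) (A (L (R D 128) 4294967295) (X c (L (R D 23936) 4294967295)))) N))) N))) N)) N) (L (X 144 1) N)) N))))))) N) e) N) g) N) N))), 132, 3, 4, 4, 1⟩,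
  ⟨fun A S X L P R M N m a b c d e f g h D => (A (A (L (X (L (X (L (X 0 (P e 3)) N) (P f 5)) N) (P g 3)) N) (S M (L (L (X (L (X (L (X 86 b) N) (A (L (X (L (X 1048576 (A (L (R D 64) 4294967295) (X c (L (R D 23872) 4294967295)))) N) (P f 2)) N) (L (X (L (X 86 b) N) (A (L (X (L (X 1024 (A (L (R D 96) 4294967295) (X c (L (R D 23904) 4294967295)))) N) f) N) (L (X (L (X 86 b) N) (A (L (R D 128) 4294967295) (X c (L (R D 23936) 4294967295)))) N))) N))) N) (L (X (A (L (X 1 (A (L (R D 160) 4294967295) (X a (A (L (R D 192) 4294967295) (X a (L (R D 224) 4294967295)))))) N) (L (X c (A (L (R D 23968) 4294967295) (X a (A (L (R D 24000) 4294967295) (X a (L (R D 24032) 4294967295)))))) N)) (L (X 1 (A (L (X (L (X (A (L (X (L (X 1024 (A (A (L (R D 2400) 4294967295) (X c (L (R D 26208) 4294967295))) (S M (L (X 2147483648 (A 1 (X c 1))) N)))) N) e) N) (L (X (L (X 171 a) N) (A (A (L (R D 2496) 4294967295)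 (X c (L (R D 26304) 4294967295))) (S M (L (X 2147483648 (A 1 (X c 1))) N)))) N)) (L (X 86 b) N)) N) f) N) (L (X (L (X (A (A (L (R D 2464) 4294967295) (X c (L (R D 26272) 4294967295))) (S M (L (X 2147483648 (A 1 (X c 1))) N))) (L (X (L (X 86 b) N) (L (X 86 b) N)) N)) N) e) N))) N)) N)) N) N))) (S M (L (L (X (L (X (L (X 33554432 (A (L (X (L (X 1024 (L (X (L (X (A (L (X (A (L (R D 18272) 4294967295) (X c (L (R D 42080) 4294967295))) 1) N) (L (X (A (L (R D 18304) 4294967295) (X c (L (R D 42112) 4294967295))) a) N)) (L (X (L (X 86 b) N) (A (L (X (L (X 1048576 (A (L (R D 64) 4294967295) (X c (L (R D 23872) 4294967295)))) N) (P f 2)) N) (L (X (L (X 86 b) N) (A (L (X (L (X 1024 (A (L (R D 96) 4294967295) (X c (L (R D 23904) 4294967295)))) N) f) N) (L (X (L (X 86 b) N) (A (L (R D 128) 4294967295) (X c (L (R D 23936) 4294967295)))) N))) N))) N)) N) (A (L (X 0 f) N) (S M (L (L (X 12 (L (X 86 b)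 N)) N) N)))) N)) N) f) N) (A (L (X (L (X (A (L (X (A (L (R D 18400) 4294967295) (X c (L (R D 42208) 4294967295))) 1) N) (L (X (A (L (R D 18432) 4294967295) (X c (L (R D 42240) 4294967295))) a) N)) (L (X (L (X 86 b) N) (A (L (X (L (X 1048576 (A (L (R D 64) 4294967295) (X c (L (R D 23872) 4294967295)))) N) (P f 2)) N) (L (X (L (X 86 b) N) (A (L (X (L (X 1024 (A (L (R D 96) 4294967295) (X c (L (R D 23904) 4294967295)))) N) f) N) (L (X (L (X 86 b) N) (A (L (R D 128) 4294967295) (X c (L (R D 23936) 4294967295)))) N))) N))) N)) N) (A (L (X (L (X 1024 (L (X 86 b) N)) N) f) N) (S M (L (L (X 12 (L (X (L (X 86 b) N) (L (X 86 b) N)) N)) N) N)))) N) (A (L (X (L (X (A (L (X (A (L (R D 18464) 4294967295) (X c (L (R D 42272) 4294967295))) 1) N) (L (X (A (L (R D 18496) 4294967295) (X c (L (R D 42304) 4294967295))) a) N)) (L (X (L (X 86 b) N) (A (L (X (L (X 1048576 (A (L (R D 64) 4294967295) (X c (L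 (R D 23872) 4294967295)))) N) (P f 2)) N) (L (X (L (X 86 b) N) (A (L (X (L (X 1024 (A (L (R D 96) 4294967295) (X c (L (R D 23904) 4294967295)))) N) f) N) (L (X (L (X 86 b) N) (A (L (R D 128) 4294967295) (X c (L (R D 23936) 4294967295)))) N))) N))) N)) N) (A (L (X 0 (P f 2)) N) (S M (L (L (X 12 (L (X (L (X 86 b) N) (L (X 86 b) N)) N)) N) N)))) N) (A (L (X (L (X (A (L (X (A (L (R D 18528) 4294967295) (X c (L (R D 42336) 4294967295))) 1) N) (L (X (A (L (R D 18560) 4294967295) (X c (L (R D 42368) 4294967295))) a) N)) (L (X (L (X 86 b) N) (A (L (X (L (X 1048576 (A (L (R D 64) 4294967295) (X c (L (R D 23872) 4294967295)))) N) (P f 2)) N) (L (X (L (X 86 b) N) (A (L (X (L (X 1024 (A (L (R D 96) 4294967295) (X c (L (R D 23904) 4294967295)))) N) f) N) (L (X (L (X 86 b) N) (A (L (R D 128) 4294967295) (X c (L (R D 23936) 4294967295)))) N))) N))) N)) N) (A (L (X 144 (L (X (L (X 86 b) N) (L (X 86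 b) N)) N)) N) (S M (L (L (X (L (X 1024 (L (X 12 (L (X 86 b) N)) N)) N) f) N) N)))) N) (L (X (L (X 1048576 (L (X (L (X (A (L (X (A (L (R D 18592) 4294967295) (X c (L (R D 42400) 4294967295))) 1) N) (L (X (A (L (R D 18624) 4294967295) (X c (L (R D 42432) 4294967295))) a) N)) (L (X (L (X 86 b) N) (A (L (X (L (X 1048576 (A (L (R D 64) 4294967295) (X c (L (R D 23872) 4294967295)))) N) (P f 2)) N) (L (X (L (X 86 b) N) (A (L (X (L (X 1024 (A (L (R D 96) 4294967295) (X c (L (R D 23904) 4294967295)))) N) f) N) (L (X (L (X 86 b) N) (A (L (R D 128) 4294967295) (X c (L (R D 23936) 4294967295)))) N))) N))) N)) N) (A 0 (S M (L (L (X 12 1) N) N)))) N)) N) (P f 2)) N)))))) N) (P e 2)) N) g) N) N))), 150, 4, 6, 4, 1⟩,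
  ⟨fun A S X L P R M N m a b c d e f g h D => (A (A (L (X (L (X (L (X (L (X 590295810358705651712 (L (X (L (X 86 b) N) (A (L (X 1024 (A (L (X (A (L (X (L (X 1024 (A (A (L (R D 6112) 4294967295) (X c (L (R D 29920) 4294967295))) (S M (L (X 2147483648 (A 1 (X c 1))) N)))) N) e) N) (L (X (A (A (L (R D 6144) 4294967295) (X c (L (R D 29952) 4294967295))) (S M (L (X 2147483648 (A 1 (X c 1))) N))) (L (X 171 a) N)) N)) f) N) (L (X (L (X (A (A (L (R D 6176) 4294967295) (X c (L (R D 29984) 4294967295))) (S M (L (X 2147483648 (A 1 (X c 1))) N))) (L (X 86 b) N)) N) e) N))) N) (L (X (A (A (L (R D 6208) 4294967295) (X c (L (R D 30016) 4294967295))) (S M (L (X 2147483648 (A 1 (X c 1))) N))) (L (X (L (X 86 b) N) (L (X 171 a) N)) N)) N))) N)) N) (P e 3)) N) (P f 3)) N) (P g 2)) N) (S M (L (L (X (L (X (L (X 86 b) N) (A (L (X (L (X 1048576 (A (L (R D 64) 4294967295) (X c (L (R D 23872) 4294967295)))) N)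 (P f 2)) N) (L (X (L (X 86 b) N) (A (L (X (L (X 1024 (A (L (R D 96) 4294967295) (X c (L (R D 23904) 4294967295)))) N) f) N) (L (X (L (X 86 b) N) (A (L (R D 128) 4294967295) (X c (L (R D 23936) 4294967295)))) N))) N))) N) (L (X (A (L (X 1 (A (L (R D 160) 4294967295) (X a (A (L (R D 192) 4294967295) (X a (L (R D 224) 4294967295)))))) N) (L (X c (A (L (R D 23968) 4294967295) (X a (A (L (R D 24000) 4294967295) (X a (L (R D 24032) 4294967295)))))) N)) (A (L (X (L (X (L (X (L (X 35184372088832 1) N) (P e 2)) N) (P f 2)) N) g) N) (L (X 1 (A (L (X (A (L (X (L (X 1024 (L (X (A (A (L (R D 3488) 4294967295) (X c (L (R D 27296) 4294967295))) (S M (L (X 2147483648 (A 1 (X c 1))) N))) (A (L (X (L (X 767 e) N) f) N) (A (L (X (L (X 171 1) N) f) N) (L (X (L (X 86 1) N) e) N)))) N)) N) e) N) (L (X (A (A (L (R D 3520) 4294967295) (X c (L (R D 27328) 4294967295))) (S M (L (X 2147483648 (A 1 (X c 1))) N)))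 (L (X (L (X 171 a) N) (A (L (X (L (X 767 e) N) f) N) (A (L (X (L (X 171 1) N) f) N) (L (X (L (X 86 1) N) e) N)))) N)) N)) f) N) (A (L (X (A (L (X (L (X 1024 (L (X (A (A (L (R D 3488) 4294967295) (X c (L (R D 27296) 4294967295))) (S M (L (X 2147483648 (A 1 (X c 1))) N))) (A (L (X 853 e) N) (L (X 171 1) N))) N)) N) e) N) (L (X (A (A (L (R D 3520) 4294967295) (X c (L (R D 27328) 4294967295))) (S M (L (X 2147483648 (A 1 (X c 1))) N))) (L (X (L (X 171 a) N) (A (L (X 853 e) N) (L (X 171 1) N))) N)) N)) (P f 2)) N) (L (X (L (X (A (A (L (R D 3584) 4294967295) (X c (L (R D 27392) 4294967295))) (S M (L (X 2147483648 (A 1 (X c 1))) N))) (L (X (L (X 86 b) N) (L (X 86 b) N)) N)) N) (P e 2)) N)))) N))) N)) N) N))) (S M (L (L (X (L (X (L (X 33554432 (A (L (X (L (X 1024 (L (X (L (X (A (L (X (A (L (R D 18656) 4294967295) (X c (L (R D 42464) 4294967295))) 1) N) (L (X (A (L (R D 18688) 4294967295) (X c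 (L (R D 42496) 4294967295))) a) N)) (L (X (L (X 86 b) N) (A (L (X (L (X 1048576 (A (L (R D 64) 4294967295) (X c (L (R D 23872) 4294967295)))) N) (P f 2)) N) (L (X (L (X 86 b) N) (A (L (X (L (X 1024 (A (L (R D 96) 4294967295) (X c (L (R D 23904) 4294967295)))) N) f) N) (L (X (L (X 86 b) N) (A (L (R D 128) 4294967295) (X c (L (R D 23936) 4294967295)))) N))) N))) N)) N) (L (X 2 (A (L (X (L (X 767 e) N) f) N) (A (L (X (L (X 171 1) N) f) N) (L (X (L (X 86 1) N) e) N)))) N)) N)) N) f) N) (A (L (X (L (X 1024 (L (X (L (X (A (L (X (A (L (R D 18720) 4294967295) (X c (L (R D 42528) 4294967295))) 1) N) (L (X (A (L (R D 18752) 4294967295) (X c (L (R D 42560) 4294967295))) a) N)) (L (X (L (X 86 b) N) (A (L (X (L (X 1048576 (A (L (R D 64) 4294967295) (X c (L (R D 23872) 4294967295)))) N) (P f 2)) N) (L (X (L (X 86 b) N) (A (L (X (L (X 1024 (A (L (R D 96) 4294967295) (X c (L (R D 23904) 4294967295))))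 N) f) N) (L (X (L (X 86 b) N) (A (L (R D 128) 4294967295) (X c (L (R D 23936) 4294967295)))) N))) N))) N)) N) (A (L (X (L (X 767 e) N) f) N) (A (L (X (L (X 171 1) N) f) N) (L (X (L (X 86 1) N) e) N)))) N)) N) f) N) (A (L (X (L (X 1024 (L (X (L (X (A (L (X (A (L (R D 18912) 4294967295) (X c (L (R D 42720) 4294967295))) 1) N) (L (X (A (L (R D 18944) 4294967295) (X c (L (R D 42752) 4294967295))) a) N)) (L (X (L (X 86 b) N) (A (L (X (L (X 1048576 (A (L (R D 64) 4294967295) (X c (L (R D 23872) 4294967295)))) N) (P f 2)) N) (L (X (L (X 86 b) N) (A (L (X (L (X 1024 (A (L (R D 96) 4294967295) (X c (L (R D 23904) 4294967295)))) N) f) N) (L (X (L (X 86 b) N) (A (L (R D 128) 4294967295) (X c (L (R D 23936) 4294967295)))) N))) N))) N)) N) (L (X 2 (A (L (X (L (X 767 e) N) f) N) (A (L (X (L (X 171 1) N) f) N) (L (X (L (X 86 1) N) e) N)))) N)) N)) N) f) N) (A (L (X (L (X 1024 (L (X (L (X (A (L (X (A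 (L (R D 18976) 4294967295) (X c (L (R D 42784) 4294967295))) 1) N) (L (X (A (L (R D 19008) 4294967295) (X c (L (R D 42816) 4294967295))) a) N)) (L (X (L (X 86 b) N) (A (L (X (L (X 1048576 (A (L (R D 64) 4294967295) (X c (L (R D 23872) 4294967295)))) N) (P f 2)) N) (L (X (L (X 86 b) N) (A (L (X (L (X 1024 (A (L (R D 96) 4294967295) (X c (L (R D 23904) 4294967295)))) N) f) N) (L (X (L (X 86 b) N) (A (L (R D 128) 4294967295) (X c (L (R D 23936) 4294967295)))) N))) N))) N)) N) (L (X 2 (A (L (X 853 e) N) (L (X 171 1) N))) N)) N)) N) (P f 2)) N) (A (L (X (L (X (A (L (X (A (L (R D 19040) 4294967295) (X c (L (R D 42848) 4294967295))) 1) N) (L (X (A (L (R D 19072) 4294967295) (X c (L (R D 42880) 4294967295))) a) N)) (L (X (L (X 86 b) N) (A (L (X (L (X 1048576 (A (L (R D 64) 4294967295) (X c (L (R D 23872) 4294967295)))) N) (P f 2)) N) (L (X (L (X 86 b) N) (A (L (X (L (X 1024 (A (L (R D 96) 4294967295)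 (X c (L (R D 23904) 4294967295)))) N) f) N) (L (X (L (X 86 b) N) (A (L (R D 128) 4294967295) (X c (L (R D 23936) 4294967295)))) N))) N))) N)) N) (A (L (X (L (X 1024 (A (L (X 853 e) N) (L (X 171 1) N))) N) (P f 2)) N) (S M (L (L (X (L (X 12 (L (X (L (X 86 b) N) (L (X 86 b) N)) N)) N) e) N) N)))) N) (A (L (X (L (X (L (X (A (L (X (A (L (R D 19168) 4294967295) (X c (L (R D 42976) 4294967295))) 1) N) (L (X (A (L (R D 19200) 4294967295) (X c (L (R D 43008) 4294967295))) a) N)) (L (X (L (X 86 b) N) (A (L (X (L (X 1048576 (A (L (R D 64) 4294967295) (X c (L (R D 23872) 4294967295)))) N) (P f 2)) N) (L (X (L (X 86 b) N) (A (L (X (L (X 1024 (A (L (R D 96) 4294967295) (X c (L (R D 23904) 4294967295)))) N) f) N) (L (X (L (X 86 b) N) (A (L (R D 128) 4294967295) (X c (L (R D 23936) 4294967295)))) N))) N))) N)) N) (L (X 2 (L (X (L (X 86 b) N) (L (X 86 b) N)) N)) N)) N) e) N) (A (L (X (L (X (A (L (X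 (A (L (R D 19232) 4294967295) (X c (L (R D 43040) 4294967295))) 1) N) (L (X (A (L (R D 19264) 4294967295) (X c (L (R D 43072) 4294967295))) a) N)) (L (X (L (X 86 b) N) (A (L (X (L (X 1048576 (A (L (R D 64) 4294967295) (X c (L (R D 23872) 4294967295)))) N) (P f 2)) N) (L (X (L (X 86 b) N) (A (L (X (L (X 1024 (A (L (R D 96) 4294967295) (X c (L (R D 23904) 4294967295)))) N) f) N) (L (X (L (X 86 b) N) (A (L (R D 128) 4294967295) (X c (L (R D 23936) 4294967295)))) N))) N))) N)) N) (A (L (X (L (X 1024 (L (X 2 (A (L (X 853 e) N) (L (X 171 1) N))) N)) N) (P f 2)) N) (S M (L (L (X (L (X 24 (L (X (L (X 86 b) N) (L (X 86 b) N)) N)) N) e) N) N)))) N) (L (X (L (X (L (X 1048576 (L (X (L (X (A (L (X (A (L (R D 19296) 4294967295) (X c (L (R D 43104) 4294967295))) 1) N) (L (X (A (L (R D 19328) 4294967295) (X c (L (R D 43136) 4294967295))) a) N)) (L (X (L (X 86 b) N) (A (L (X (L (X 1048576 (A (L (R D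 64) 4294967295) (X c (L (R D 23872) 4294967295)))) N) (P f 2)) N) (L (X (L (X 86 b) N) (A (L (X (L (X 1024 (A (L (R D 96) 4294967295) (X c (L (R D 23904) 4294967295)))) N) f) N) (L (X (L (X 86 b) N) (A (L (R D 128) 4294967295) (X c (L (R D 23936) 4294967295)))) N))) N))) N)) N) 2) N)) N) e) N) (P f 2)) N))))))))) N) (P e 2)) N) g) N) N))), 155, 5, 6, 4, 1⟩,
  ⟨fun A S X L P R M N m a b c d e f g h D => (A (A (L (X (L (X (L (X 0 (P e 3)) N) (P f 3)) N) (P g 3)) N) (S M (L (L (X (L (X (L (X 86 b) N) (A (L (X (L (X 1048576 (A (L (R D 64) 4294967295) (X c (L (R D 23872) 4294967295)))) N) (P f 2)) N) (L (X (L (X 86 b) N) (A (L (X (L (X 1024 (A (L (R D 96) 4294967295) (X c (L (R D 23904) 4294967295)))) N) f) N) (L (X (L (X 86 b) N) (A (L (R D 128) 4294967295) (X c (L (R D 23936) 4294967295)))) N))) N))) N) (L (X (A (L (X 1 (A (L (R D 160) 4294967295) (X a (A (L (R D 192) 4294967295) (X a (L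 (R D 224) 4294967295)))))) N) (L (X c (A (L (R D 23968) 4294967295) (X a (A (L (R D 24000) 4294967295) (X a (L (R D 24032) 4294967295)))))) N)) (L (X 1 (A (L (X (A (L (X (L (X 1024 (A (A (L (R D 3552) 4294967295) (X c (L (R D 27360) 4294967295))) (S M (L (X 2147483648 (A 1 (X c 1))) N)))) N) e) N) (L (X (L (X 171 a) N) (A (A (L (R D 3648) 4294967295) (X c (L (R D 27456) 4294967295))) (S M (L (X 2147483648 (A 1 (X c 1))) N)))) N)) 1) N) (L (X (A (L (X (L (X 1024 (A (A (L (R D 3552) 4294967295) (X c (L (R D 27360) 4294967295))) (S M (L (X 2147483648 (A 1 (X c 1))) N)))) N) e) N) (L (X (L (X 171 a) N) (A (A (L (R D 3648) 4294967295) (X c (L (R D 27456) 4294967295))) (S M (L (X 2147483648 (A 1 (X c 1))) N)))) N)) 1) N))) N)) N)) N) N))) (S M (L (L (X (L (X (L (X 34359738368 (A (L (X (L (X (A (L (X (A (L (R D 18656) 4294967295) (X c (L (R D 42464) 4294967295))) 1) N) (L (X (A (L (R D 18688)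 4294967295) (X c (L (R D 42496) 4294967295))) a) N)) (L (X (L (X 86 b) N) (A (L (X (L (X 1048576 (A (L (R D 64) 4294967295) (X c (L (R D 23872) 4294967295)))) N) (P f 2)) N) (L (X (L (X 86 b) N) (A (L (X (L (X 1024 (A (L (R D 96) 4294967295) (X c (L (R D 23904) 4294967295)))) N) f) N) (L (X (L (X 86 b) N) (A (L (R D 128) 4294967295) (X c (L (R D 23936) 4294967295)))) N))) N))) N)) N) (A 0 (S M (L (L (X 12 1) N) N)))) N) (A (L (X (L (X (A (L (X (A (L (R D 18784) 4294967295) (X c (L (R D 42592) 4294967295))) 1) N) (L (X (A (L (R D 18816) 4294967295) (X c (L (R D 42624) 4294967295))) a) N)) (L (X (L (X 86 b) N) (A (L (X (L (X 1048576 (A (L (R D 64) 4294967295) (X c (L (R D 23872) 4294967295)))) N) (P f 2)) N) (L (X (L (X 86 b) N) (A (L (X (L (X 1024 (A (L (R D 96) 4294967295) (X c (L (R D 23904) 4294967295)))) N) f) N) (L (X (L (X 86 b) N) (A (L (R D 128) 4294967295) (X c (L (R D 23936)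 4294967295)))) N))) N))) N)) N) 1) N) (A (L (X (L (X (A (L (X (A (L (R D 18912) 4294967295) (X c (L (R D 42720) 4294967295))) 1) N) (L (X (A (L (R D 18944) 4294967295) (X c (L (R D 42752) 4294967295))) a) N)) (L (X (L (X 86 b) N) (A (L (X (L (X 1048576 (A (L (R D 64) 4294967295) (X c (L (R D 23872) 4294967295)))) N) (P f 2)) N) (L (X (L (X 86 b) N) (A (L (X (L (X 1024 (A (L (R D 96) 4294967295) (X c (L (R D 23904) 4294967295)))) N) f) N) (L (X (L (X 86 b) N) (A (L (R D 128) 4294967295) (X c (L (R D 23936) 4294967295)))) N))) N))) N)) N) (A 0 (S M (L (L (X 12 1) N) N)))) N) (A (L (X (L (X (A (L (X (A (L (R D 18976) 4294967295) (X c (L (R D 42784) 4294967295))) 1) N) (L (X (A (L (R D 19008) 4294967295) (X c (L (R D 42816) 4294967295))) a) N)) (L (X (L (X 86 b) N) (A (L (X (L (X 1048576 (A (L (R D 64) 4294967295) (X c (L (R D 23872) 4294967295)))) N) (P f 2)) N) (L (X (L (X 86 b) N) (A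 (L (X (L (X 1024 (A (L (R D 96) 4294967295) (X c (L (R D 23904) 4294967295)))) N) f) N) (L (X (L (X 86 b) N) (A (L (R D 128) 4294967295) (X c (L (R D 23936) 4294967295)))) N))) N))) N)) N) (A 0 (S M (L (L (X 12 1) N) N)))) N) (A (L (X (L (X (A (L (X (A (L (R D 19104) 4294967295) (X c (L (R D 42912) 4294967295))) 1) N) (L (X (A (L (R D 19136) 4294967295) (X c (L (R D 42944) 4294967295))) a) N)) (L (X (L (X 86 b) N) (A (L (X (L (X 1048576 (A (L (R D 64) 4294967295) (X c (L (R D 23872) 4294967295)))) N) (P f 2)) N) (L (X (L (X 86 b) N) (A (L (X (L (X 1024 (A (L (R D 96) 4294967295) (X c (L (R D 23904) 4294967295)))) N) f) N) (L (X (L (X 86 b) N) (A (L (R D 128) 4294967295) (X c (L (R D 23936) 4294967295)))) N))) N))) N)) N) 1) N) (L (X (L (X (A (L (X (A (L (R D 19232) 4294967295) (X c (L (R D 43040) 4294967295))) 1) N) (L (X (A (L (R D 19264) 4294967295) (X c (L (R D 43072) 4294967295)))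 a) N)) (L (X (L (X 86 b) N) (A (L (X (L (X 1048576 (A (L (R D 64) 4294967295) (X c (L (R D 23872) 4294967295)))) N) (P f 2)) N) (L (X (L (X 86 b) N) (A (L (X (L (X 1024 (A (L (R D 96) 4294967295) (X c (L (R D 23904) 4294967295)))) N) f) N) (L (X (L (X 86 b) N) (A (L (R D 128) 4294967295) (X c (L (R D 23936) 4294967295)))) N))) N))) N)) N) (A 0 (S M (L (L (X 12 1) N) N)))) N))))))) N) (P e 2)) N) g) N) N))), 142, 4, 4, 4, 1⟩,
  ⟨fun A S X L P R M N m a b c d e f g h D => (A (A (L (X (L (X (L (X 0 (P e 2)) N) (P f 3)) N) (P g 3)) N) (S M (L (L (X (L (X (L (X 86 b) N) (A (L (X (L (X 1048576 (A (L (R D 64) 4294967295) (X c (L (R D 23872) 4294967295)))) N) (P f 2)) N) (L (X (L (X 86 b) N) (A (L (X (L (X 1024 (A (L (R D 96) 4294967295) (X c (L (R D 23904) 4294967295)))) N) f) N) (L (X (L (X 86 b) N) (A (L (R D 128) 4294967295) (X c (L (R D 23936) 4294967295)))) N))) N))) N) (L (X (A (L (X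 1 (A (L (R D 160) 4294967295) (X a (A (L (R D 192) 4294967295) (X a (L (R D 224) 4294967295)))))) N) (L (X c (A (L (R D 23968) 4294967295) (X a (A (L (R D 24000) 4294967295) (X a (L (R D 24032) 4294967295)))))) N)) (L (X 1 (A (L (X (A (A (L (R D 3584) 4294967295) (X c (L (R D 27392) 4294967295))) (S M (L (X 2147483648 (A 1 (X c 1))) N))) 1) N) (L (X (A (A (L (R D 3584) 4294967295) (X c (L (R D 27392) 4294967295))) (S M (L (X 2147483648 (A 1 (X c 1))) N))) 1) N))) N)) N)) N) N))) (S M (L (L (X (L (X (L (X 33554432 (A (L (X (L (X (A (L (X (A (L (R D 18720) 4294967295) (X c (L (R D 42528) 4294967295))) 1) N) (L (X (A (L (R D 18752) 4294967295) (X c (L (R D 42560) 4294967295))) a) N)) (L (X (L (X 86 b) N) (A (L (X (L (X 1048576 (A (L (R D 64) 4294967295) (X c (L (R D 23872) 4294967295)))) N) (P f 2)) N) (L (X (L (X 86 b) N) (A (L (X (L (X 1024 (A (L (R D 96) 4294967295) (X c (L (R D 23904)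 4294967295)))) N) f) N) (L (X (L (X 86 b) N) (A (L (R D 128) 4294967295) (X c (L (R D 23936) 4294967295)))) N))) N))) N)) N) (A 0 (S M (L (L (X 12 1) N) N)))) N) (A (L (X (L (X (A (L (X (A (L (R D 18848) 4294967295) (X c (L (R D 42656) 4294967295))) 1) N) (L (X (A (L (R D 18880) 4294967295) (X c (L (R D 42688) 4294967295))) a) N)) (L (X (L (X 86 b) N) (A (L (X (L (X 1048576 (A (L (R D 64) 4294967295) (X c (L (R D 23872) 4294967295)))) N) (P f 2)) N) (L (X (L (X 86 b) N) (A (L (X (L (X 1024 (A (L (R D 96) 4294967295) (X c (L (R D 23904) 4294967295)))) N) f) N) (L (X (L (X 86 b) N) (A (L (R D 128) 4294967295) (X c (L (R D 23936) 4294967295)))) N))) N))) N)) N) (L (X 2 1) N)) N) (A (L (X (L (X (A (L (X (A (L (R D 18912) 4294967295) (X c (L (R D 42720) 4294967295))) 1) N) (L (X (A (L (R D 18944) 4294967295) (X c (L (R D 42752) 4294967295))) a) N)) (L (X (L (X 86 b) N) (A (L (X (L (X 1048576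 (A (L (R D 64) 4294967295) (X c (L (R D 23872) 4294967295)))) N) (P f 2)) N) (L (X (L (X 86 b) N) (A (L (X (L (X 1024 (A (L (R D 96) 4294967295) (X c (L (R D 23904) 4294967295)))) N) f) N) (L (X (L (X 86 b) N) (A (L (R D 128) 4294967295) (X c (L (R D 23936) 4294967295)))) N))) N))) N)) N) (A 0 (S M (L (L (X 24 1) N) N)))) N) (A (L (X (L (X (A (L (X (A (L (R D 19040) 4294967295) (X c (L (R D 42848) 4294967295))) 1) N) (L (X (A (L (R D 19072) 4294967295) (X c (L (R D 42880) 4294967295))) a) N)) (L (X (L (X 86 b) N) (A (L (X (L (X 1048576 (A (L (R D 64) 4294967295) (X c (L (R D 23872) 4294967295)))) N) (P f 2)) N) (L (X (L (X 86 b) N) (A (L (X (L (X 1024 (A (L (R D 96) 4294967295) (X c (L (R D 23904) 4294967295)))) N) f) N) (L (X (L (X 86 b) N) (A (L (R D 128) 4294967295) (X c (L (R D 23936) 4294967295)))) N))) N))) N)) N) (A 0 (S M (L (L (X 12 1) N) N)))) N) (A (L (X (L (X (A (L (X (A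 (L (R D 19168) 4294967295) (X c (L (R D 42976) 4294967295))) 1) N) (L (X (A (L (R D 19200) 4294967295) (X c (L (R D 43008) 4294967295))) a) N)) (L (X (L (X 86 b) N) (A (L (X (L (X 1048576 (A (L (R D 64) 4294967295) (X c (L (R D 23872) 4294967295)))) N) (P f 2)) N) (L (X (L (X 86 b) N) (A (L (X (L (X 1024 (A (L (R D 96) 4294967295) (X c (L (R D 23904) 4294967295)))) N) f) N) (L (X (L (X 86 b) N) (A (L (R D 128) 4294967295) (X c (L (R D 23936) 4294967295)))) N))) N))) N)) N) (L (X 2 1) N)) N) (L (X (L (X (A (L (X (A (L (R D 19232) 4294967295) (X c (L (R D 43040) 4294967295))) 1) N) (L (X (A (L (R D 19264) 4294967295) (X c (L (R D 43072) 4294967295))) a) N)) (L (X (L (X 86 b) N) (A (L (X (L (X 1048576 (A (L (R D 64) 4294967295) (X c (L (R D 23872) 4294967295)))) N) (P f 2)) N) (L (X (L (X 86 b) N) (A (L (X (L (X 1024 (A (L (R D 96) 4294967295) (X c (L (R D 23904) 4294967295)))) N) f) N)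 (L (X (L (X 86 b) N) (A (L (R D 128) 4294967295) (X c (L (R D 23936) 4294967295)))) N))) N))) N)) N) (A 0 (S M (L (L (X 24 1) N) N)))) N))))))) N) e) N) g) N) N))), 131, 3, 4, 4, 1⟩,
  ⟨fun A S X L P R M N m a b c d e f g h D => (A (A (L (X (L (X (L (X 0 (P e 2)) N) (P f 3)) N) (P g 3)) N) (S M (L (L (X (L (X (L (X 86 b) N) (A (L (X (L (X 1048576 (A (L (R D 64) 4294967295) (X c (L (R D 23872) 4294967295)))) N) (P f 2)) N) (L (X (L (X 86 b) N) (A (L (X (L (X 1024 (A (L (R D 96) 4294967295) (X c (L (R D 23904) 4294967295)))) N) f) N) (L (X (L (X 86 b) N) (A (L (R D 128) 4294967295) (X c (L (R D 23936) 4294967295)))) N))) N))) N) (L (X (A (L (X 1 (A (L (R D 160) 4294967295) (X a (A (L (R D 192) 4294967295) (X a (L (R D 224) 4294967295)))))) N) (L (X c (A (L (R D 23968) 4294967295) (X a (A (L (R D 24000) 4294967295) (X a (L (R D 24032) 4294967295)))))) N)) (L (X 1 (A (L (X (A (A (L (R D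 3616) 4294967295) (X c (L (R D 27424) 4294967295))) (S M (L (X 2147483648 (A 1 (X c 1))) N))) 1) N) (L (X (A (A (L (R D 3616) 4294967295) (X c (L (R D 27424) 4294967295))) (S M (L (X 2147483648 (A 1 (X c 1))) N))) 1) N))) N)) N)) N) N))) (S M (L (L (X (L (X (L (X 33554432 (A (L (X (L (X (A (L (X (A (L (R D 18784) 4294967295) (X c (L (R D 42592) 4294967295))) 1) N) (L (X (A (L (R D 18816) 4294967295) (X c (L (R D 42624) 4294967295))) a) N)) (L (X (L (X 86 b) N) (A (L (X (L (X 1048576 (A (L (R D 64) 4294967295) (X c (L (R D 23872) 4294967295)))) N) (P f 2)) N) (L (X (L (X 86 b) N) (A (L (X (L (X 1024 (A (L (R D 96) 4294967295) (X c (L (R D 23904) 4294967295)))) N) f) N) (L (X (L (X 86 b) N) (A (L (R D 128) 4294967295) (X c (L (R D 23936) 4294967295)))) N))) N))) N)) N) (A 0 (S M (L (L (X 12 1) N) N)))) N) (A (L (X (L (X (A (L (X (A (L (R D 18848) 4294967295) (X c (L (R D 42656) 4294967295)))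 1) N) (L (X (A (L (R D 18880) 4294967295) (X c (L (R D 42688) 4294967295))) a) N)) (L (X (L (X 86 b) N) (A (L (X (L (X 1048576 (A (L (R D 64) 4294967295) (X c (L (R D 23872) 4294967295)))) N) (P f 2)) N) (L (X (L (X 86 b) N) (A (L (X (L (X 1024 (A (L (R D 96) 4294967295) (X c (L (R D 23904) 4294967295)))) N) f) N) (L (X (L (X 86 b) N) (A (L (R D 128) 4294967295) (X c (L (R D 23936) 4294967295)))) N))) N))) N)) N) (A 0 (S M (L (L (X 12 1) N) N)))) N) (A (L (X (L (X (A (L (X (A (L (R D 18912) 4294967295) (X c (L (R D 42720) 4294967295))) 1) N) (L (X (A (L (R D 18944) 4294967295) (X c (L (R D 42752) 4294967295))) a) N)) (L (X (L (X 86 b) N) (A (L (X (L (X 1048576 (A (L (R D 64) 4294967295) (X c (L (R D 23872) 4294967295)))) N) (P f 2)) N) (L (X (L (X 86 b) N) (A (L (X (L (X 1024 (A (L (R D 96) 4294967295) (X c (L (R D 23904) 4294967295)))) N) f) N) (L (X (L (X 86 b) N) (A (L (R D 128) 4294967295)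 (X c (L (R D 23936) 4294967295)))) N))) N))) N)) N) (L (X 144 1) N)) N) (A (L (X (L (X (A (L (X (A (L (R D 19104) 4294967295) (X c (L (R D 42912) 4294967295))) 1) N) (L (X (A (L (R D 19136) 4294967295) (X c (L (R D 42944) 4294967295))) a) N)) (L (X (L (X 86 b) N) (A (L (X (L (X 1048576 (A (L (R D 64) 4294967295) (X c (L (R D 23872) 4294967295)))) N) (P f 2)) N) (L (X (L (X 86 b) N) (A (L (X (L (X 1024 (A (L (R D 96) 4294967295) (X c (L (R D 23904) 4294967295)))) N) f) N) (L (X (L (X 86 b) N) (A (L (R D 128) 4294967295) (X c (L (R D 23936) 4294967295)))) N))) N))) N)) N) (A 0 (S M (L (L (X 12 1) N) N)))) N) (A (L (X (L (X (A (L (X (A (L (R D 19168) 4294967295) (X c (L (R D 42976) 4294967295))) 1) N) (L (X (A (L (R D 19200) 4294967295) (X c (L (R D 43008) 4294967295))) a) N)) (L (X (L (X 86 b) N) (A (L (X (L (X 1048576 (A (L (R D 64) 4294967295) (X c (L (R D 23872) 4294967295)))) N) (P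 f 2)) N) (L (X (L (X 86 b) N) (A (L (X (L (X 1024 (A (L (R D 96) 4294967295) (X c (L (R D 23904) 4294967295)))) N) f) N) (L (X (L (X 86 b) N) (A (L (R D 128) 4294967295) (X c (L (R D 23936) 4294967295)))) N))) N))) N)) N) (A 0 (S M (L (L (X 12 1) N) N)))) N) (L (X (L (X (A (L (X (A (L (R D 19232) 4294967295) (X c (L (R D 43040) 4294967295))) 1) N) (L (X (A (L (R D 19264) 4294967295) (X c (L (R D 43072) 4294967295))) a) N)) (L (X (L (X 86 b) N) (A (L (X (L (X 1048576 (A (L (R D 64) 4294967295) (X c (L (R D 23872) 4294967295)))) N) (P f 2)) N) (L (X (L (X 86 b) N) (A (L (X (L (X 1024 (A (L (R D 96) 4294967295) (X c (L (R D 23904) 4294967295)))) N) f) N) (L (X (L (X 86 b) N) (A (L (R D 128) 4294967295) (X c (L (R D 23936) 4294967295)))) N))) N))) N)) N) (L (X 144 1) N)) N))))))) N) e) N) g) N) N))), 132, 3, 4, 4, 1⟩,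
  ⟨fun A S X L P R M N m a b c d e f g h D => (A (A (L (X (L (X (L (X 0 (P e 3)) N) (P f 5)) N) (P g 3)) N) (S M (L (L (X (L (X (L (X 86 b) N) (A (L (X (L (X 1048576 (A (L (R D 64) 4294967295) (X c (L (R D 23872) 4294967295)))) N) (P f 2)) N) (L (X (L (X 86 b) N) (A (L (X (L (X 1024 (A (L (R D 96) 4294967295) (X c (L (R D 23904) 4294967295)))) N) f) N) (L (X (L (X 86 b) N) (A (L (R D 128) 4294967295) (X c (L (R D 23936) 4294967295)))) N))) N))) N) (L (X (A (L (X 1 (A (L (R D 160) 4294967295) (X a (A (L (R D 192) 4294967295) (X a (L (R D 224) 4294967295)))))) N) (L (X c (A (L (R D 23968) 4294967295) (X a (A (L (R D 24000) 4294967295) (X a (L (R D 24032) 4294967295)))))) N)) (L (X 1 (A (L (X (L (X (A (L (X (L (X 1024 (A (A (L (R D 3552) 4294967295) (X c (L (R D 27360) 4294967295))) (S M (L (X 2147483648 (A 1 (X c 1))) N)))) N) e) N) (L (X (L (X 171 a) N) (A (A (L (R D 3648) 4294967295)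 (X c (L (R D 27456) 4294967295))) (S M (L (X 2147483648 (A 1 (X c 1))) N)))) N)) (L (X 86 b) N)) N) f) N) (L (X (L (X (A (A (L (R D 3616) 4294967295) (X c (L (R D 27424) 4294967295))) (S M (L (X 2147483648 (A 1 (X c 1))) N))) (L (X (L (X 86 b) N) (L (X 86 b) N)) N)) N) e) N))) N)) N)) N) N))) (S M (L (L (X (L (X (L (X 33554432 (A (L (X (L (X 1024 (L (X (L (X (A (L (X (A (L (R D 18976) 4294967295) (X c (L (R D 42784) 4294967295))) 1) N) (L (X (A (L (R D 19008) 4294967295) (X c (L (R D 42816) 4294967295))) a) N)) (L (X (L (X 86 b) N) (A (L (X (L (X 1048576 (A (L (R D 64) 4294967295) (X c (L (R D 23872) 4294967295)))) N) (P f 2)) N) (L (X (L (X 86 b) N) (A (L (X (L (X 1024 (A (L (R D 96) 4294967295) (X c (L (R D 23904) 4294967295)))) N) f) N) (L (X (L (X 86 b) N) (A (L (R D 128) 4294967295) (X c (L (R D 23936) 4294967295)))) N))) N))) N)) N) (A (L (X 0 f) N) (S M (L (L (X 12 (L (X 86 b)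 N)) N) N)))) N)) N) f) N) (A (L (X (L (X (A (L (X (A (L (R D 19104) 4294967295) (X c (L (R D 42912) 4294967295))) 1) N) (L (X (A (L (R D 19136) 4294967295) (X c (L (R D 42944) 4294967295))) a) N)) (L (X (L (X 86 b) N) (A (L (X (L (X 1048576 (A (L (R D 64) 4294967295) (X c (L (R D 23872) 4294967295)))) N) (P f 2)) N) (L (X (L (X 86 b) N) (A (L (X (L (X 1024 (A (L (R D 96) 4294967295) (X c (L (R D 23904) 4294967295)))) N) f) N) (L (X (L (X 86 b) N) (A (L (R D 128) 4294967295) (X c (L (R D 23936) 4294967295)))) N))) N))) N)) N) (A (L (X (L (X 1024 (L (X 86 b) N)) N) f) N) (S M (L (L (X 12 (L (X (L (X 86 b) N) (L (X 86 b) N)) N)) N) N)))) N) (A (L (X (L (X (A (L (X (A (L (R D 19168) 4294967295) (X c (L (R D 42976) 4294967295))) 1) N) (L (X (A (L (R D 19200) 4294967295) (X c (L (R D 43008) 4294967295))) a) N)) (L (X (L (X 86 b) N) (A (L (X (L (X 1048576 (A (L (R D 64) 4294967295) (X c (L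 (R D 23872) 4294967295)))) N) (P f 2)) N) (L (X (L (X 86 b) N) (A (L (X (L (X 1024 (A (L (R D 96) 4294967295) (X c (L (R D 23904) 4294967295)))) N) f) N) (L (X (L (X 86 b) N) (A (L (R D 128) 4294967295) (X c (L (R D 23936) 4294967295)))) N))) N))) N)) N) (A (L (X 0 (P f 2)) N) (S M (L (L (X 12 (L (X (L (X 86 b) N) (L (X 86 b) N)) N)) N) N)))) N) (A (L (X (L (X (A (L (X (A (L (R D 19232) 4294967295) (X c (L (R D 43040) 4294967295))) 1) N) (L (X (A (L (R D 19264) 4294967295) (X c (L (R D 43072) 4294967295))) a) N)) (L (X (L (X 86 b) N) (A (L (X (L (X 1048576 (A (L (R D 64) 4294967295) (X c (L (R D 23872) 4294967295)))) N) (P f 2)) N) (L (X (L (X 86 b) N) (A (L (X (L (X 1024 (A (L (R D 96) 4294967295) (X c (L (R D 23904) 4294967295)))) N) f) N) (L (X (L (X 86 b) N) (A (L (R D 128) 4294967295) (X c (L (R D 23936) 4294967295)))) N))) N))) N)) N) (A (L (X 144 (L (X (L (X 86 b) N) (L (X 86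 b) N)) N)) N) (S M (L (L (X (L (X 1024 (L (X 12 (L (X 86 b) N)) N)) N) f) N) N)))) N) (L (X (L (X 1048576 (L (X (L (X (A (L (X (A (L (R D 19296) 4294967295) (X c (L (R D 43104) 4294967295))) 1) N) (L (X (A (L (R D 19328) 4294967295) (X c (L (R D 43136) 4294967295))) a) N)) (L (X (L (X 86 b) N) (A (L (X (L (X 1048576 (A (L (R D 64) 4294967295) (X c (L (R D 23872) 4294967295)))) N) (P f 2)) N) (L (X (L (X 86 b) N) (A (L (X (L (X 1024 (A (L (R D 96) 4294967295) (X c (L (R D 23904) 4294967295)))) N) f) N) (L (X (L (X 86 b) N) (A (L (R D 128) 4294967295) (X c (L (R D 23936) 4294967295)))) N))) N))) N)) N) (A 0 (S M (L (L (X 12 1) N) N)))) N)) N) (P f 2)) N)))))) N) (P e 2)) N) g) N) N))), 150, 4, 6, 4, 1⟩,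
  ⟨fun A S X L P R M N m a b c d e f g h D => (A (L (X (A (L (X (L (X (L (X 16777216 (A (L (X (L (X 1024 (L (X (A (A (L (R D 2720) 4294967295) (X c (L (R D 26528) 4294967295))) (S M (L (X 2147483648 (A 1 (X c 1))) N))) (A (L (X (L (X 767 e) N) f) N) (A (L (X (L (X 171 1) N) f) N) (L (X (L (X 86 1) N) e) N)))) N)) N) e) N) (L (X (A (A (L (R D 2752) 4294967295) (X c (L (R D 26560) 4294967295))) (S M (L (X 2147483648 (A 1 (X c 1))) N))) (L (X (L (X 171 a) N) (A (L (X (L (X 767 e) N) f) N) (A (L (X (L (X 171 1) N) f) N) (L (X (L (X 86 1) N) e) N)))) N)) N))) N) e) N) g) N) (S M (L (A (L (X 1024 (A (L (X (L (X (L (X 16777216 (L (X (A (A (L (R D 5344) 4294967295) (X c (L (R D 29152) 4294967295))) (S M (L (X 2147483648 (A 1 (X c 1))) N))) (A (L (X (L (X 767 e) N) f) N) (A (L (X (L (X 171 1) N) f) N) (L (X (L (X 86 1) N) e) N)))) N)) N) (P e 2)) N) g) N) (L (X (A (A (L (X 1 (A (L (R D 160) 4294967295)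 (X a (A (L (R D 192) 4294967295) (X a (L (R D 224) 4294967295)))))) N) (L (X c (A (L (R D 23968) 4294967295) (X a (A (L (R D 24000) 4294967295) (X a (L (R D 24032) 4294967295)))))) N)) (S M (L (L (X (L (X (L (X 16777216 1) N) (P e 2)) N) g) N) N))) (L (X (A (A (L (R D 5472) 4294967295) (X c (L (R D 29280) 4294967295))) (S M (L (X 2147483648 (A 1 (X c 1))) N))) (A (L (X (L (X 767 e) N) f) N) (A (L (X (L (X 171 1) N) f) N) (L (X (L (X 86 1) N) e) N)))) N)) N))) N) (L (X (A (A (L (X (A (L (R D 1568) 4294967295) (X c (L (R D 25376) 4294967295))) (A (L (X (L (X 1024 (L (X (A (A (L (R D 1760) 4294967295) (X c (L (R D 25568) 4294967295))) (S M (L (X 2147483648 (A 1 (X c 1))) N))) (A (L (X (L (X 767 e) N) f) N) (A (L (X (L (X 171 1) N) f) N) (L (X (L (X 86 1) N) e) N)))) N)) N) e) N) (L (X (A (A (L (R D 1792) 4294967295) (X c (L (R D 25600) 4294967295))) (S M (L (X 2147483648 (A 1 (X c 1)))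 N))) (L (X (L (X 171 a) N) (A (L (X (L (X 767 e) N) f) N) (A (L (X (L (X 171 1) N) f) N) (L (X (L (X 86 1) N) e) N)))) N)) N))) N) (L (X (A (L (R D 1696) 4294967295) (X c (L (R D 25504) 4294967295))) (A (L (X (L (X 1024 (L (X (A (A (L (R D 2912) 4294967295) (X c (L (R D 26720) 4294967295))) (S M (L (X 2147483648 (A 1 (X c 1))) N))) (A (L (X (L (X 767 e) N) f) N) (A (L (X (L (X 171 1) N) f) N) (L (X (L (X 86 1) N) e) N)))) N)) N) e) N) (L (X (A (A (L (R D 2944) 4294967295) (X c (L (R D 26752) 4294967295))) (S M (L (X 2147483648 (A 1 (X c 1))) N))) (L (X (L (X 171 a) N) (A (L (X (L (X 767 e) N) f) N) (A (L (X (L (X 171 1) N) f) N) (L (X (L (X 86 1) N) e) N)))) N)) N))) N)) (A (L (X (A (L (R D 1600) 4294967295) (X c (L (R D 25408) 4294967295))) (A (L (X (L (X 1024 (L (X (A (A (L (R D 2336) 4294967295) (X c (L (R D 26144) 4294967295))) (S M (L (X 2147483648 (A 1 (X c 1))) N))) (A (L (X (L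 (X 767 e) N) f) N) (A (L (X (L (X 171 1) N) f) N) (L (X (L (X 86 1) N) e) N)))) N)) N) e) N) (L (X (A (A (L (R D 2368) 4294967295) (X c (L (R D 26176) 4294967295))) (S M (L (X 2147483648 (A 1 (X c 1))) N))) (L (X (L (X 171 a) N) (A (L (X (L (X 767 e) N) f) N) (A (L (X (L (X 171 1) N) f) N) (L (X (L (X 86 1) N) e) N)))) N)) N))) N) (L (X (A (L (R D 1728) 4294967295) (X c (L (R D 25536) 4294967295))) (A (L (X (L (X 1024 (L (X (A (A (L (R D 3488) 4294967295) (X c (L (R D 27296) 4294967295))) (S M (L (X 2147483648 (A 1 (X c 1))) N))) (A (L (X (L (X 767 e) N) f) N) (A (L (X (L (X 171 1) N) f) N) (L (X (L (X 86 1) N) e) N)))) N)) N) e) N) (L (X (A (A (L (R D 3520) 4294967295) (X c (L (R D 27328) 4294967295))) (S M (L (X 2147483648 (A 1 (X c 1))) N))) (L (X (L (X 171 a) N) (A (L (X (L (X 767 e) N) f) N) (A (L (X (L (X 171 1) N) f) N) (L (X (L (X 86 1) N) e) N)))) N)) N))) N))) e) N)) N))) f)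 N) (S M (L (L (X (L (X (L (X 16777216 (A (L (X (L (X 1024 (L (X (A (L (X (A (L (R D 19360) 4294967295) (X c (L (R D 43168) 4294967295))) 1) N) (L (X (A (L (R D 19392) 4294967295) (X c (L (R D 43200) 4294967295))) a) N)) (L (X 2 (A (L (X (L (X 767 e) N) f) N) (A (L (X (L (X 171 1) N) f) N) (L (X (L (X 86 1) N) e) N)))) N)) N)) N) f) N) (A (L (X (L (X 1024 (L (X (A (L (X (A (L (R D 19424) 4294967295) (X c (L (R D 43232) 4294967295))) 1) N) (L (X (A (L (R D 19456) 4294967295) (X c (L (R D 43264) 4294967295))) a) N)) (A (L (X (L (X 767 e) N) f) N) (A (L (X (L (X 171 1) N) f) N) (L (X (L (X 86 1) N) e) N)))) N)) N) f) N) (A (L (X (L (X 1024 (L (X (A (L (X (A (L (R D 19616) 4294967295) (X c (L (R D 43424) 4294967295))) 1) N) (L (X (A (L (R D 19648) 4294967295) (X c (L (R D 43456) 4294967295))) a) N)) (L (X 2 (A (L (X (L (X 767 e) N) f) N) (A (L (X (L (X 171 1) N) f) N) (L (X (L (X 86 1) N)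 e) N)))) N)) N)) N) f) N) (A (L (X (L (X 1024 (L (X (A (L (X (A (L (R D 19680) 4294967295) (X c (L (R D 43488) 4294967295))) 1) N) (L (X (A (L (R D 19712) 4294967295) (X c (L (R D 43520) 4294967295))) a) N)) (L (X 2 (A (L (X 853 e) N) (L (X 171 1) N))) N)) N)) N) (P f 2)) N) (A (L (X (A (L (X (A (L (R D 19744) 4294967295) (X c (L (R D 43552) 4294967295))) 1) N) (L (X (A (L (R D 19776) 4294967295) (X c (L (R D 43584) 4294967295))) a) N)) (A (L (X (L (X 1024 (A (L (X 853 e) N) (L (X 171 1) N))) N) (P f 2)) N) (S M (L (L (X (L (X 12 (L (X (L (X 86 b) N) (L (X 86 b) N)) N)) N) e) N) N)))) N) (A (L (X (L (X (A (L (X (A (L (R D 19872) 4294967295) (X c (L (R D 43680) 4294967295))) 1) N) (L (X (A (L (R D 19904) 4294967295) (X c (L (R D 43712) 4294967295))) a) N)) (L (X 2 (L (X (L (X 86 b) N) (L (X 86 b) N)) N)) N)) N) e) N) (A (L (X (A (L (X (A (L (R D 19936) 4294967295) (X c (L (R D 43744)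 4294967295))) 1) N) (L (X (A (L (R D 19968) 4294967295) (X c (L (R D 43776) 4294967295))) a) N)) (A (L (X (L (X 1024 (L (X 2 (A (L (X 853 e) N) (L (X 171 1) N))) N)) N) (P f 2)) N) (S M (L (L (X (L (X 24 (L (X (L (X 86 b) N) (L (X 86 b) N)) N)) N) e) N) N)))) N) (L (X (L (X (L (X 1048576 (L (X (A (L (X (A (L (R D 20000) 4294967295) (X c (L (R D 43808) 4294967295))) 1) N) (L (X (A (L (R D 20032) 4294967295) (X c (L (R D 43840) 4294967295))) a) N)) 2) N)) N) e) N) (P f 2)) N))))))))) N) e) N) g) N) N))), 94, 4, 3, 3, 1⟩,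
  ⟨fun A S X L P R M N m a b c d e f g h D => (A (A (L (X (L (X (L (X 16777216 (L (X (A (L (X (L (X 1024 (A (A (L (R D 2784) 4294967295) (X c (L (R D 26592) 4294967295))) (S M (L (X 2147483648 (A 1 (X c 1))) N)))) N) e) N) (L (X (L (X 171 a) N) (A (A (L (R D 2880) 4294967295) (X c (L (R D 26688) 4294967295))) (S M (L (X 2147483648 (A 1 (X c 1))) N)))) N)) 1) N)) N) e) N) g) N) (S M (L (A (L (X 1024 (A (L (X (L (X (L (X 16777216 (L (X (A (A (L (R D 5376) 4294967295) (X c (L (R D 29184) 4294967295))) (S M (L (X 2147483648 (A 1 (X c 1))) N))) 1) N)) N) (P e 2)) N) g) N) (L (X (A (A (L (X 1 (A (L (R D 160) 4294967295) (X a (A (L (R D 192) 4294967295) (X a (L (R D 224) 4294967295)))))) N) (L (X c (A (L (R D 23968) 4294967295) (X a (A (L (R D 24000) 4294967295) (X a (L (R D 24032) 4294967295)))))) N)) (S M (L (L (X (L (X (L (X 16777216 1) N) (P e 2)) N) g) N) N))) (L (X (A (A (L (R D 5504)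 4294967295) (X c (L (R D 29312) 4294967295))) (S M (L (X 2147483648 (A 1 (X c 1))) N))) 1) N)) N))) N) (L (X (A (A (L (X (A (L (R D 1568) 4294967295) (X c (L (R D 25376) 4294967295))) (L (X (A (L (X (L (X 1024 (A (A (L (R D 1824) 4294967295) (X c (L (R D 25632) 4294967295))) (S M (L (X 2147483648 (A 1 (X c 1))) N)))) N) e) N) (L (X (L (X 171 a) N) (A (A (L (R D 1920) 4294967295) (X c (L (R D 25728) 4294967295))) (S M (L (X 2147483648 (A 1 (X c 1))) N)))) N)) 1) N)) N) (L (X (A (L (R D 1696) 4294967295) (X c (L (R D 25504) 4294967295))) (L (X (A (L (X (L (X 1024 (A (A (L (R D 2976) 4294967295) (X c (L (R D 26784) 4294967295))) (S M (L (X 2147483648 (A 1 (X c 1))) N)))) N) e) N) (L (X (L (X 171 a) N) (A (A (L (R D 3072) 4294967295) (X c (L (R D 26880) 4294967295))) (S M (L (X 2147483648 (A 1 (X c 1))) N)))) N)) 1) N)) N)) (A (L (X (A (L (R D 1600) 4294967295) (X c (L (R D 25408) 4294967295)))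 (L (X (A (L (X (L (X 1024 (A (A (L (R D 2400) 4294967295) (X c (L (R D 26208) 4294967295))) (S M (L (X 2147483648 (A 1 (X c 1))) N)))) N) e) N) (L (X (L (X 171 a) N) (A (A (L (R D 2496) 4294967295) (X c (L (R D 26304) 4294967295))) (S M (L (X 2147483648 (A 1 (X c 1))) N)))) N)) 1) N)) N) (L (X (A (L (R D 1728) 4294967295) (X c (L (R D 25536) 4294967295))) (L (X (A (L (X (L (X 1024 (A (A (L (R D 3552) 4294967295) (X c (L (R D 27360) 4294967295))) (S M (L (X 2147483648 (A 1 (X c 1))) N)))) N) e) N) (L (X (L (X 171 a) N) (A (A (L (R D 3648) 4294967295) (X c (L (R D 27456) 4294967295))) (S M (L (X 2147483648 (A 1 (X c 1))) N)))) N)) 1) N)) N))) e) N)) N))) (S M (L (L (X (L (X (L (X 17179869184 (A (L (X (A (L (X (A (L (R D 19360) 4294967295) (X c (L (R D 43168) 4294967295))) 1) N) (L (X (A (L (R D 19392) 4294967295) (X c (L (R D 43200) 4294967295))) a) N)) (A 0 (S M (L (L (X 12 1) N) N))))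 N) (A (L (X (A (L (X (A (L (R D 19488) 4294967295) (X c (L (R D 43296) 4294967295))) 1) N) (L (X (A (L (R D 19520) 4294967295) (X c (L (R D 43328) 4294967295))) a) N)) 1) N) (A (L (X (A (L (X (A (L (R D 19616) 4294967295) (X c (L (R D 43424) 4294967295))) 1) N) (L (X (A (L (R D 19648) 4294967295) (X c (L (R D 43456) 4294967295))) a) N)) (A 0 (S M (L (L (X 12 1) N) N)))) N) (A (L (X (A (L (X (A (L (R D 19680) 4294967295) (X c (L (R D 43488) 4294967295))) 1) N) (L (X (A (L (R D 19712) 4294967295) (X c (L (R D 43520) 4294967295))) a) N)) (A 0 (S M (L (L (X 12 1) N) N)))) N) (A (L (X (A (L (X (A (L (R D 19808) 4294967295) (X c (L (R D 43616) 4294967295))) 1) N) (L (X (A (L (R D 19840) 4294967295) (X c (L (R D 43648) 4294967295))) a) N)) 1) N) (L (X (A (L (X (A (L (R D 19936) 4294967295) (X c (L (R D 43744) 4294967295))) 1) N) (L (X (A (L (R D 19968) 4294967295) (X c (L (R D 43776) 4294967295)))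 a) N)) (A 0 (S M (L (L (X 12 1) N) N)))) N))))))) N) e) N) g) N) N))), 81, 3, 1, 3, 1⟩,
  ⟨fun A S X L P R M N m a b c d e f g h D => (A (A (L (X (L (X (L (X 16777216 (L (X (A (A (L (R D 2816) 4294967295) (X c (L (R D 26624) 4294967295))) (S M (L (X 2147483648 (A 1 (X c 1))) N))) 1) N)) N) (P e 2)) N) g) N) (S M (L (A (A (L (X (L (X (L (X 16777216 (L (X (A (A (L (R D 5408) 4294967295) (X c (L (R D 29216) 4294967295))) (S M (L (X 2147483648 (A 1 (X c 1))) N))) 1) N)) N) (P e 2)) N) g) N) (L (X (A (A (L (X 1 (A (L (R D 160) 4294967295) (X a (A (L (R D 192) 4294967295) (X a (L (R D 224) 4294967295)))))) N) (L (X c (A (L (R D 23968) 4294967295) (X a (A (L (R D 24000) 4294967295) (X a (L (R D 24032) 4294967295)))))) N)) (S M (L (L (X (L (X (L (X 16777216 1) N) (P e 2)) N) g) N) N))) (L (X (A (A (L (R D 5536) 4294967295) (X c (L (R D 29344) 4294967295))) (S M (L (X 2147483648 (A 1 (X c 1)))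 N))) 1) N)) N)) (L (X (A (A (L (X (A (L (R D 1568) 4294967295) (X c (L (R D 25376) 4294967295))) (L (X (A (A (L (R D 1856) 4294967295) (X c (L (R D 25664) 4294967295))) (S M (L (X 2147483648 (A 1 (X c 1))) N))) 1) N)) N) (L (X (A (L (R D 1696) 4294967295) (X c (L (R D 25504) 4294967295))) (L (X (A (A (L (R D 3008) 4294967295) (X c (L (R D 26816) 4294967295))) (S M (L (X 2147483648 (A 1 (X c 1))) N))) 1) N)) N)) (A (L (X (A (L (R D 1600) 4294967295) (X c (L (R D 25408) 4294967295))) (L (X (A (A (L (R D 2432) 4294967295) (X c (L (R D 26240) 4294967295))) (S M (L (X 2147483648 (A 1 (X c 1))) N))) 1) N)) N) (L (X (A (L (R D 1728) 4294967295) (X c (L (R D 25536) 4294967295))) (L (X (A (A (L (R D 3584) 4294967295) (X c (L (R D 27392) 4294967295))) (S M (L (X 2147483648 (A 1 (X c 1))) N))) 1) N)) N))) (P e 2)) N)) N))) (S M (L (L (X (L (X (L (X 16777216 (A (L (X (A (L (X (A (L (R D 19424) 4294967295)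 (X c (L (R D 43232) 4294967295))) 1) N) (L (X (A (L (R D 19456) 4294967295) (X c (L (R D 43264) 4294967295))) a) N)) (A 0 (S M (L (L (X 12 1) N) N)))) N) (A (L (X (A (L (X (A (L (R D 19552) 4294967295) (X c (L (R D 43360) 4294967295))) 1) N) (L (X (A (L (R D 19584) 4294967295) (X c (L (R D 43392) 4294967295))) a) N)) (L (X 2 1) N)) N) (A (L (X (A (L (X (A (L (R D 19616) 4294967295) (X c (L (R D 43424) 4294967295))) 1) N) (L (X (A (L (R D 19648) 4294967295) (X c (L (R D 43456) 4294967295))) a) N)) (A 0 (S M (L (L (X 24 1) N) N)))) N) (A (L (X (A (L (X (A (L (R D 19744) 4294967295) (X c (L (R D 43552) 4294967295))) 1) N) (L (X (A (L (R D 19776) 4294967295) (X c (L (R D 43584) 4294967295))) a) N)) (A 0 (S M (L (L (X 12 1) N) N)))) N) (A (L (X (A (L (X (A (L (R D 19872) 4294967295) (X c (L (R D 43680) 4294967295))) 1) N) (L (X (A (L (R D 19904) 4294967295) (X c (L (R D 43712) 4294967295)))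 a) N)) (L (X 2 1) N)) N) (L (X (A (L (X (A (L (R D 19936) 4294967295) (X c (L (R D 43744) 4294967295))) 1) N) (L (X (A (L (R D 19968) 4294967295) (X c (L (R D 43776) 4294967295))) a) N)) (A 0 (S M (L (L (X 24 1) N) N)))) N))))))) N) e) N) g) N) N))), 71, 3, 1, 3, 1⟩,
  ⟨fun A S X L P R M N m a b c d e f g h D => (A (A (L (X (L (X (L (X 16777216 (L (X (A (A (L (R D 2848) 4294967295) (X c (L (R D 26656) 4294967295))) (S M (L (X 2147483648 (A 1 (X c 1))) N))) 1) N)) N) (P e 2)) N) g) N) (S M (L (A (A (L (X (L (X (L (X 16777216 (L (X (A (A (L (R D 5440) 4294967295) (X c (L (R D 29248) 4294967295))) (S M (L (X 2147483648 (A 1 (X c 1))) N))) 1) N)) N) (P e 2)) N) g) N) (L (X (A (A (L (X 1 (A (L (R D 160) 4294967295) (X a (A (L (R D 192) 4294967295) (X a (L (R D 224) 4294967295)))))) N) (L (X c (A (L (R D 23968) 4294967295) (X a (A (L (R D 24000) 4294967295) (X a (L (R D 24032) 4294967295))))))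 N)) (S M (L (L (X (L (X (L (X 16777216 1) N) (P e 2)) N) g) N) N))) (L (X (A (A (L (R D 5568) 4294967295) (X c (L (R D 29376) 4294967295))) (S M (L (X 2147483648 (A 1 (X c 1))) N))) 1) N)) N)) (L (X (A (A (L (X (A (L (R D 1568) 4294967295) (X c (L (R D 25376) 4294967295))) (L (X (A (A (L (R D 1888) 4294967295) (X c (L (R D 25696) 4294967295))) (S M (L (X 2147483648 (A 1 (X c 1))) N))) 1) N)) N) (L (X (A (L (R D 1696) 4294967295) (X c (L (R D 25504) 4294967295))) (L (X (A (A (L (R D 3040) 4294967295) (X c (L (R D 26848) 4294967295))) (S M (L (X 2147483648 (A 1 (X c 1))) N))) 1) N)) N)) (A (L (X (A (L (R D 1600) 4294967295) (X c (L (R D 25408) 4294967295))) (L (X (A (A (L (R D 2464) 4294967295) (X c (L (R D 26272) 4294967295))) (S M (L (X 2147483648 (A 1 (X c 1))) N))) 1) N)) N) (L (X (A (L (R D 1728) 4294967295) (X c (L (R D 25536) 4294967295))) (L (X (A (A (L (R D 3616) 4294967295) (X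 c (L (R D 27424) 4294967295))) (S M (L (X 2147483648 (A 1 (X c 1))) N))) 1) N)) N))) (P e 2)) N)) N))) (S M (L (L (X (L (X (L (X 16777216 (A (L (X (A (L (X (A (L (R D 19488) 4294967295) (X c (L (R D 43296) 4294967295))) 1) N) (L (X (A (L (R D 19520) 4294967295) (X c (L (R D 43328) 4294967295))) a) N)) (A 0 (S M (L (L (X 12 1) N) N)))) N) (A (L (X (A (L (X (A (L (R D 19552) 4294967295) (X c (L (R D 43360) 4294967295))) 1) N) (L (X (A (L (R D 19584) 4294967295) (X c (L (R D 43392) 4294967295))) a) N)) (A 0 (S M (L (L (X 12 1) N) N)))) N) (A (L (X (A (L (X (A (L (R D 19616) 4294967295) (X c (L (R D 43424) 4294967295))) 1) N) (L (X (A (L (R D 19648) 4294967295) (X c (L (R D 43456) 4294967295))) a) N)) (L (X 144 1) N)) N) (A (L (X (A (L (X (A (L (R D 19808) 4294967295) (X c (L (R D 43616) 4294967295))) 1) N) (L (X (A (L (R D 19840) 4294967295) (X c (L (R D 43648) 4294967295))) a) N)) (A 0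 (S M (L (L (X 12 1) N) N)))) N) (A (L (X (A (L (X (A (L (R D 19872) 4294967295) (X c (L (R D 43680) 4294967295))) 1) N) (L (X (A (L (R D 19904) 4294967295) (X c (L (R D 43712) 4294967295))) a) N)) (A 0 (S M (L (L (X 12 1) N) N)))) N) (L (X (A (L (X (A (L (R D 19936) 4294967295) (X c (L (R D 43744) 4294967295))) 1) N) (L (X (A (L (R D 19968) 4294967295) (X c (L (R D 43776) 4294967295))) a) N)) (L (X 144 1) N)) N))))))) N) e) N) g) N) N))), 71, 3, 1, 3, 1⟩,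
  ⟨fun A S X L P R M N m a b c d e f g h D => (A (L (X (L (X (L (X 0 e) N) (P f 2)) N) g) N) (S M (L (A (L (X (L (X 1024 (L (X (A (L (X (A (L (R D 19680) 4294967295) (X c (L (R D 43488) 4294967295))) 1) N) (L (X (A (L (R D 19712) 4294967295) (X c (L (R D 43520) 4294967295))) a) N)) (A (L (X 0 f) N) (S M (L (L (X 12 (L (X 86 b) N)) N) N)))) N)) N) f) N) (A (L (X (A (L (X (A (L (R D 19808) 4294967295) (X c (L (R D 43616) 4294967295))) 1) N) (L (X (A (L (R D 19840) 4294967295) (X c (L (R D 43648) 4294967295))) a) N)) (A (L (X (L (X 1024 (L (X 86 b) N)) N) f) N) (S M (L (L (X 12 (L (X (L (X 86 b) N) (L (X 86 b) N)) N)) N) N)))) N) (A (L (X (A (L (X (A (L (R D 19872) 4294967295) (X c (L (R D 43680) 4294967295))) 1) N) (L (X (A (L (R D 19904) 4294967295) (X c (L (R D 43712) 4294967295))) a) N)) (A (L (X 0 (P f 2)) N) (S M (L (L (X 12 (L (X (L (X 86 b) N) (L (X 86 b) N)) N)) N) N)))) N) (A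 (L (X (A (L (X (A (L (R D 19936) 4294967295) (X c (L (R D 43744) 4294967295))) 1) N) (L (X (A (L (R D 19968) 4294967295) (X c (L (R D 43776) 4294967295))) a) N)) (A (L (X 144 (L (X (L (X 86 b) N) (L (X 86 b) N)) N)) N) (S M (L (L (X (L (X 1024 (L (X 12 (L (X 86 b) N)) N)) N) f) N) N)))) N) (L (X (L (X 1048576 (L (X (A (L (X (A (L (R D 20000) 4294967295) (X c (L (R D 43808) 4294967295))) 1) N) (L (X (A (L (R D 20032) 4294967295) (X c (L (R D 43840) 4294967295))) a) N)) (A 0 (S M (L (L (X 12 1) N) N)))) N)) N) (P f 2)) N))))) N))), 60, 2, 3, 2, 1⟩,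
  ⟨fun A S X L P R M N m a b c d e f g h D => (A (L (X (A (L (X (L (X (L (X 16777216 (A (L (X (L (X 1024 (L (X (A (A (L (R D 3872) 4294967295) (X c (L (R D 27680) 4294967295))) (S M (L (X 2147483648 (A 1 (X c 1))) N))) (A (L (X (L (X 767 e) N) f) N) (A (L (X (L (X 171 1) N) f) N) (L (X (L (X 86 1) N) e) N)))) N)) N) e) N) (L (X (A (A (L (R D 3904) 4294967295) (X c (L (R D 27712) 4294967295))) (S M (L (X 2147483648 (A 1 (X c 1))) N))) (L (X (L (X 171 a) N) (A (L (X (L (X 767 e) N) f) N) (A (L (X (L (X 171 1) N) f) N) (L (X (L (X 86 1) N) e) N)))) N)) N))) N) e) N) g) N) (S M (L (A (L (X 1024 (A (A (L (X (L (X (L (X 16777216 (L (X (A (A (L (R D 5600) 4294967295) (X c (L (R D 29408) 4294967295))) (S M (L (X 2147483648 (A 1 (X c 1))) N))) (A (L (X (L (X 767 e) N) f) N) (A (L (X (L (X 171 1) N) f) N) (L (X (L (X 86 1) N) e) N)))) N)) N) (P e 2)) N) g) N) (L (X (A (L (X 1 (A (L (R D 1312)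 4294967295) (X a (A (L (R D 1344) 4294967295) (X a (L (R D 1376) 4294967295)))))) N) (L (X c (A (L (R D 25120) 4294967295) (X a (A (L (R D 25152) 4294967295) (X a (L (R D 25184) 4294967295)))))) N)) (L (X (A (A (L (R D 5728) 4294967295) (X c (L (R D 29536) 4294967295))) (S M (L (X 2147483648 (A 1 (X c 1))) N))) (A (L (X (L (X 767 e) N) f) N) (A (L (X (L (X 171 1) N) f) N) (L (X (L (X 86 1) N) e) N)))) N)) N)) (L (X (A (A (L (X 1 (A (L (R D 160) 4294967295) (X a (A (L (R D 192) 4294967295) (X a (L (R D 224) 4294967295)))))) N) (L (X c (A (L (R D 23968) 4294967295) (X a (A (L (R D 24000) 4294967295) (X a (L (R D 24032) 4294967295)))))) N)) (S M (L (L (X (L (X (L (X 16777216 1) N) (P e 2)) N) g) N) N))) (L (X (A (A (L (R D 5856) 4294967295) (X c (L (R D 29664) 4294967295))) (S M (L (X 2147483648 (A 1 (X c 1))) N))) (A (L (X (L (X 767 e) N) f) N) (A (L (X (L (X 171 1) N) f) N) (L (X (L (X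 86 1) N) e) N)))) N)) N))) N) (L (X (A (A (L (X (A (L (R D 1568) 4294967295) (X c (L (R D 25376) 4294967295))) (A (L (X (L (X 1024 (L (X (A (A (L (R D 2912) 4294967295) (X c (L (R D 26720) 4294967295))) (S M (L (X 2147483648 (A 1 (X c 1))) N))) (A (L (X (L (X 767 e) N) f) N) (A (L (X (L (X 171 1) N) f) N) (L (X (L (X 86 1) N) e) N)))) N)) N) e) N) (L (X (A (A (L (R D 2944) 4294967295) (X c (L (R D 26752) 4294967295))) (S M (L (X 2147483648 (A 1 (X c 1))) N))) (L (X (L (X 171 a) N) (A (L (X (L (X 767 e) N) f) N) (A (L (X (L (X 171 1) N) f) N) (L (X (L (X 86 1) N) e) N)))) N)) N))) N) (L (X (A (L (R D 1696) 4294967295) (X c (L (R D 25504) 4294967295))) (A (L (X (L (X 1024 (L (X (A (A (L (R D 1760) 4294967295) (X c (L (R D 25568) 4294967295))) (S M (L (X 2147483648 (A 1 (X c 1))) N))) (A (L (X (L (X 767 e) N) f) N) (A (L (X (L (X 171 1) N) f) N) (L (X (L (X 86 1) N) e) N)))) N)) N) e) N)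 (L (X (A (A (L (R D 1792) 4294967295) (X c (L (R D 25600) 4294967295))) (S M (L (X 2147483648 (A 1 (X c 1))) N))) (L (X (L (X 171 a) N) (A (L (X (L (X 767 e) N) f) N) (A (L (X (L (X 171 1) N) f) N) (L (X (L (X 86 1) N) e) N)))) N)) N))) N)) (A (L (X (A (L (R D 1600) 4294967295) (X c (L (R D 25408) 4294967295))) (A (L (X (L (X 1024 (L (X (A (A (L (R D 3488) 4294967295) (X c (L (R D 27296) 4294967295))) (S M (L (X 2147483648 (A 1 (X c 1))) N))) (A (L (X (L (X 767 e) N) f) N) (A (L (X (L (X 171 1) N) f) N) (L (X (L (X 86 1) N) e) N)))) N)) N) e) N) (L (X (A (A (L (R D 3520) 4294967295) (X c (L (R D 27328) 4294967295))) (S M (L (X 2147483648 (A 1 (X c 1))) N))) (L (X (L (X 171 a) N) (A (L (X (L (X 767 e) N) f) N) (A (L (X (L (X 171 1) N) f) N) (L (X (L (X 86 1) N) e) N)))) N)) N))) N) (L (X (A (L (R D 1728) 4294967295) (X c (L (R D 25536) 4294967295))) (A (L (X (L (X 1024 (L (X (A (A (L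 (R D 2336) 4294967295) (X c (L (R D 26144) 4294967295))) (S M (L (X 2147483648 (A 1 (X c 1))) N))) (A (L (X (L (X 767 e) N) f) N) (A (L (X (L (X 171 1) N) f) N) (L (X (L (X 86 1) N) e) N)))) N)) N) e) N) (L (X (A (A (L (R D 2368) 4294967295) (X c (L (R D 26176) 4294967295))) (S M (L (X 2147483648 (A 1 (X c 1))) N))) (L (X (L (X 171 a) N) (A (L (X (L (X 767 e) N) f) N) (A (L (X (L (X 171 1) N) f) N) (L (X (L (X 86 1) N) e) N)))) N)) N))) N))) e) N)) N))) f) N) (S M (L (L (X (L (X (L (X 16777216 (A (L (X (L (X 1024 (L (X (A (L (X (A (L (R D 20064) 4294967295) (X c (L (R D 43872) 4294967295))) 1) N) (L (X (A (L (R D 20096) 4294967295) (X c (L (R D 43904) 4294967295))) a) N)) (L (X 2 (A (L (X (L (X 767 e) N) f) N) (A (L (X (L (X 171 1) N) f) N) (L (X (L (X 86 1) N) e) N)))) N)) N)) N) f) N) (A (L (X (L (X 1024 (L (X (A (L (X (A (L (R D 20128) 4294967295) (X c (L (R D 43936) 4294967295)))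 1) N) (L (X (A (L (R D 20160) 4294967295) (X c (L (R D 43968) 4294967295))) a) N)) (A (L (X (L (X 767 e) N) f) N) (A (L (X (L (X 171 1) N) f) N) (L (X (L (X 86 1) N) e) N)))) N)) N) f) N) (A (L (X (L (X 1024 (L (X (A (L (X (A (L (R D 20320) 4294967295) (X c (L (R D 44128) 4294967295))) 1) N) (L (X (A (L (R D 20352) 4294967295) (X c (L (R D 44160) 4294967295))) a) N)) (L (X 2 (A (L (X (L (X 767 e) N) f) N) (A (L (X (L (X 171 1) N) f) N) (L (X (L (X 86 1) N) e) N)))) N)) N)) N) f) N) (A (L (X (L (X 1024 (L (X (A (L (X (A (L (R D 20384) 4294967295) (X c (L (R D 44192) 4294967295))) 1) N) (L (X (A (L (R D 20416) 4294967295) (X c (L (R D 44224) 4294967295))) a) N)) (L (X 2 (A (L (X 853 e) N) (L (X 171 1) N))) N)) N)) N) (P f 2)) N) (A (L (X (A (L (X (A (L (R D 20448) 4294967295) (X c (L (R D 44256) 4294967295))) 1) N) (L (X (A (L (R D 20480) 4294967295) (X c (L (R D 44288) 4294967295))) a)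 N)) (A (L (X (L (X 1024 (A (L (X 853 e) N) (L (X 171 1) N))) N) (P f 2)) N) (S M (L (L (X (L (X 12 (L (X (L (X 86 b) N) (L (X 86 b) N)) N)) N) e) N) N)))) N) (A (L (X (L (X (A (L (X (A (L (R D 20576) 4294967295) (X c (L (R D 44384) 4294967295))) 1) N) (L (X (A (L (R D 20608) 4294967295) (X c (L (R D 44416) 4294967295))) a) N)) (L (X 2 (L (X (L (X 86 b) N) (L (X 86 b) N)) N)) N)) N) e) N) (A (L (X (A (L (X (A (L (R D 20640) 4294967295) (X c (L (R D 44448) 4294967295))) 1) N) (L (X (A (L (R D 20672) 4294967295) (X c (L (R D 44480) 4294967295))) a) N)) (A (L (X (L (X 1024 (L (X 2 (A (L (X 853 e) N) (L (X 171 1) N))) N)) N) (P f 2)) N) (S M (L (L (X (L (X 24 (L (X (L (X 86 b) N) (L (X 86 b) N)) N)) N) e) N) N)))) N) (L (X (L (X (L (X 1048576 (L (X (A (L (X (A (L (R D 20704) 4294967295) (X c (L (R D 44512) 4294967295))) 1) N) (L (X (A (L (R D 20736) 4294967295) (X c (L (R D 44544) 4294967295)))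 a) N)) 2) N)) N) e) N) (P f 2)) N))))))))) N) e) N) g) N) N))), 94, 4, 3, 3, 1⟩,
  ⟨fun A S X L P R M N m a b c d e f g h D => (A (A (L (X (L (X (L (X 16777216 (L (X (A (L (X (L (X 1024 (A (A (L (R D 3936) 4294967295) (X c (L (R D 27744) 4294967295))) (S M (L (X 2147483648 (A 1 (X c 1))) N)))) N) e) N) (L (X (L (X 171 a) N) (A (A (L (R D 4032) 4294967295) (X c (L (R D 27840) 4294967295))) (S M (L (X 2147483648 (A 1 (X c 1))) N)))) N)) 1) N)) N) e) N) g) N) (S M (L (A (L (X 1024 (A (A (L (X (L (X (L (X 16777216 (L (X (A (A (L (R D 5632) 4294967295) (X c (L (R D 29440) 4294967295))) (S M (L (X 2147483648 (A 1 (X c 1))) N))) 1) N)) N) (P e 2)) N) g) N) (L (X (A (L (X 1 (A (L (R D 1312) 4294967295) (X a (A (L (R D 1344) 4294967295) (X a (L (R D 1376) 4294967295)))))) N) (L (X c (A (L (R D 25120) 4294967295) (X a (A (L (R D 25152) 4294967295) (X a (L (R D 25184) 4294967295)))))) N)) (L (X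 (A (A (L (R D 5760) 4294967295) (X c (L (R D 29568) 4294967295))) (S M (L (X 2147483648 (A 1 (X c 1))) N))) 1) N)) N)) (L (X (A (A (L (X 1 (A (L (R D 160) 4294967295) (X a (A (L (R D 192) 4294967295) (X a (L (R D 224) 4294967295)))))) N) (L (X c (A (L (R D 23968) 4294967295) (X a (A (L (R D 24000) 4294967295) (X a (L (R D 24032) 4294967295)))))) N)) (S M (L (L (X (L (X (L (X 16777216 1) N) (P e 2)) N) g) N) N))) (L (X (A (A (L (R D 5888) 4294967295) (X c (L (R D 29696) 4294967295))) (S M (L (X 2147483648 (A 1 (X c 1))) N))) 1) N)) N))) N) (L (X (A (A (L (X (A (L (R D 1568) 4294967295) (X c (L (R D 25376) 4294967295))) (L (X (A (L (X (L (X 1024 (A (A (L (R D 2976) 4294967295) (X c (L (R D 26784) 4294967295))) (S M (L (X 2147483648 (A 1 (X c 1))) N)))) N) e) N) (L (X (L (X 171 a) N) (A (A (L (R D 3072) 4294967295) (X c (L (R D 26880) 4294967295))) (S M (L (X 2147483648 (A 1 (X c 1))) N))))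 N)) 1) N)) N) (L (X (A (L (R D 1696) 4294967295) (X c (L (R D 25504) 4294967295))) (L (X (A (L (X (L (X 1024 (A (A (L (R D 1824) 4294967295) (X c (L (R D 25632) 4294967295))) (S M (L (X 2147483648 (A 1 (X c 1))) N)))) N) e) N) (L (X (L (X 171 a) N) (A (A (L (R D 1920) 4294967295) (X c (L (R D 25728) 4294967295))) (S M (L (X 2147483648 (A 1 (X c 1))) N)))) N)) 1) N)) N)) (A (L (X (A (L (R D 1600) 4294967295) (X c (L (R D 25408) 4294967295))) (L (X (A (L (X (L (X 1024 (A (A (L (R D 3552) 4294967295) (X c (L (R D 27360) 4294967295))) (S M (L (X 2147483648 (A 1 (X c 1))) N)))) N) e) N) (L (X (L (X 171 a) N) (A (A (L (R D 3648) 4294967295) (X c (L (R D 27456) 4294967295))) (S M (L (X 2147483648 (A 1 (X c 1))) N)))) N)) 1) N)) N) (L (X (A (L (R D 1728) 4294967295) (X c (L (R D 25536) 4294967295))) (L (X (A (L (X (L (X 1024 (A (A (L (R D 2400) 4294967295) (X c (L (R D 26208) 4294967295))) (S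 M (L (X 2147483648 (A 1 (X c 1))) N)))) N) e) N) (L (X (L (X 171 a) N) (A (A (L (R D 2496) 4294967295) (X c (L (R D 26304) 4294967295))) (S M (L (X 2147483648 (A 1 (X c 1))) N)))) N)) 1) N)) N))) e) N)) N))) (S M (L (L (X (L (X (L (X 17179869184 (A (L (X (A (L (X (A (L (R D 20064) 4294967295) (X c (L (R D 43872) 4294967295))) 1) N) (L (X (A (L (R D 20096) 4294967295) (X c (L (R D 43904) 4294967295))) a) N)) (A 0 (S M (L (L (X 12 1) N) N)))) N) (A (L (X (A (L (X (A (L (R D 20192) 4294967295) (X c (L (R D 44000) 4294967295))) 1) N) (L (X (A (L (R D 20224) 4294967295) (X c (L (R D 44032) 4294967295))) a) N)) 1) N) (A (L (X (A (L (X (A (L (R D 20320) 4294967295) (X c (L (R D 44128) 4294967295))) 1) N) (L (X (A (L (R D 20352) 4294967295) (X c (L (R D 44160) 4294967295))) a) N)) (A 0 (S M (L (L (X 12 1) N) N)))) N) (A (L (X (A (L (X (A (L (R D 20384) 4294967295) (X c (L (R D 44192) 4294967295)))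 1) N) (L (X (A (L (R D 20416) 4294967295) (X c (L (R D 44224) 4294967295))) a) N)) (A 0 (S M (L (L (X 12 1) N) N)))) N) (A (L (X (A (L (X (A (L (R D 20512) 4294967295) (X c (L (R D 44320) 4294967295))) 1) N) (L (X (A (L (R D 20544) 4294967295) (X c (L (R D 44352) 4294967295))) a) N)) 1) N) (L (X (A (L (X (A (L (R D 20640) 4294967295) (X c (L (R D 44448) 4294967295))) 1) N) (L (X (A (L (R D 20672) 4294967295) (X c (L (R D 44480) 4294967295))) a) N)) (A 0 (S M (L (L (X 12 1) N) N)))) N))))))) N) e) N) g) N) N))), 81, 3, 1, 3, 1⟩,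
  ⟨fun A S X L P R M N m a b c d e f g h D => (A (A (L (X (L (X (L (X 16777216 (L (X (A (A (L (R D 3968) 4294967295) (X c (L (R D 27776) 4294967295))) (S M (L (X 2147483648 (A 1 (X c 1))) N))) 1) N)) N) (P e 2)) N) g) N) (S M (L (A (A (A (L (X (L (X (L (X 16777216 (L (X (A (A (L (R D 5664) 4294967295) (X c (L (R D 29472) 4294967295))) (S M (L (X 2147483648 (A 1 (X c 1))) N))) 1) N)) N) (P e 2)) N) g) N) (L (X (A (L (X 1 (A (L (R D 1312) 4294967295) (X a (A (L (R D 1344) 4294967295) (X a (L (R D 1376) 4294967295)))))) N) (L (X c (A (L (R D 25120) 4294967295) (X a (A (L (R D 25152) 4294967295) (X a (L (R D 25184) 4294967295)))))) N)) (L (X (A (A (L (R D 5792) 4294967295) (X c (L (R D 29600) 4294967295))) (S M (L (X 2147483648 (A 1 (X c 1))) N))) 1) N)) N)) (L (X (A (A (L (X 1 (A (L (R D 160) 4294967295) (X a (A (L (R D 192) 4294967295) (X a (L (R D 224) 4294967295)))))) N) (L (X c (A (L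 (R D 23968) 4294967295) (X a (A (L (R D 24000) 4294967295) (X a (L (R D 24032) 4294967295)))))) N)) (S M (L (L (X (L (X (L (X 16777216 1) N) (P e 2)) N) g) N) N))) (L (X (A (A (L (R D 5920) 4294967295) (X c (L (R D 29728) 4294967295))) (S M (L (X 2147483648 (A 1 (X c 1))) N))) 1) N)) N)) (L (X (A (A (L (X (A (L (R D 1568) 4294967295) (X c (L (R D 25376) 4294967295))) (L (X (A (A (L (R D 3008) 4294967295) (X c (L (R D 26816) 4294967295))) (S M (L (X 2147483648 (A 1 (X c 1))) N))) 1) N)) N) (L (X (A (L (R D 1696) 4294967295) (X c (L (R D 25504) 4294967295))) (L (X (A (A (L (R D 1856) 4294967295) (X c (L (R D 25664) 4294967295))) (S M (L (X 2147483648 (A 1 (X c 1))) N))) 1) N)) N)) (A (L (X (A (L (R D 1600) 4294967295) (X c (L (R D 25408) 4294967295))) (L (X (A (A (L (R D 3584) 4294967295) (X c (L (R D 27392) 4294967295))) (S M (L (X 2147483648 (A 1 (X c 1))) N))) 1) N)) N) (L (X (A (L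 (R D 1728) 4294967295) (X c (L (R D 25536) 4294967295))) (L (X (A (A (L (R D 2432) 4294967295) (X c (L (R D 26240) 4294967295))) (S M (L (X 2147483648 (A 1 (X c 1))) N))) 1) N)) N))) (P e 2)) N)) N))) (S M (L (L (X (L (X (L (X 16777216 (A (L (X (A (L (X (A (L (R D 20128) 4294967295) (X c (L (R D 43936) 4294967295))) 1) N) (L (X (A (L (R D 20160) 4294967295) (X c (L (R D 43968) 4294967295))) a) N)) (A 0 (S M (L (L (X 12 1) N) N)))) N) (A (L (X (A (L (X (A (L (R D 20256) 4294967295) (X c (L (R D 44064) 4294967295))) 1) N) (L (X (A (L (R D 20288) 4294967295) (X c (L (R D 44096) 4294967295))) a) N)) (L (X 2 1) N)) N) (A (L (X (A (L (X (A (L (R D 20320) 4294967295) (X c (L (R D 44128) 4294967295))) 1) N) (L (X (A (L (R D 20352) 4294967295) (X c (L (R D 44160) 4294967295))) a) N)) (A 0 (S M (L (L (X 24 1) N) N)))) N) (A (L (X (A (L (X (A (L (R D 20448) 4294967295) (X c (L (R D 44256) 4294967295)))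 1) N) (L (X (A (L (R D 20480) 4294967295) (X c (L (R D 44288) 4294967295))) a) N)) (A 0 (S M (L (L (X 12 1) N) N)))) N) (A (L (X (A (L (X (A (L (R D 20576) 4294967295) (X c (L (R D 44384) 4294967295))) 1) N) (L (X (A (L (R D 20608) 4294967295) (X c (L (R D 44416) 4294967295))) a) N)) (L (X 2 1) N)) N) (L (X (A (L (X (A (L (R D 20640) 4294967295) (X c (L (R D 44448) 4294967295))) 1) N) (L (X (A (L (R D 20672) 4294967295) (X c (L (R D 44480) 4294967295))) a) N)) (A 0 (S M (L (L (X 24 1) N) N)))) N))))))) N) e) N) g) N) N))), 71, 3, 1, 3, 1⟩,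
  ⟨fun A S X L P R M N m a b c d e f g h D => (A (A (L (X (L (X (L (X 16777216 (L (X (A (A (L (R D 4000) 4294967295) (X c (L (R D 27808) 4294967295))) (S M (L (X 2147483648 (A 1 (X c 1))) N))) 1) N)) N) (P e 2)) N) g) N) (S M (L (A (A (A (L (X (L (X (L (X 16777216 (L (X (A (A (L (R D 5696) 4294967295) (X c (L (R D 29504) 4294967295))) (S M (L (X 2147483648 (A 1 (X c 1))) N))) 1) N)) N) (P e 2)) N) g) N) (L (X (A (L (X 1 (A (L (R D 1312) 4294967295) (X a (A (L (R D 1344) 4294967295) (X a (L (R D 1376) 4294967295)))))) N) (L (X c (A (L (R D 25120) 4294967295) (X a (A (L (R D 25152) 4294967295) (X a (L (R D 25184) 4294967295)))))) N)) (L (X (A (A (L (R D 5824) 4294967295) (X c (L (R D 29632) 4294967295))) (S M (L (X 2147483648 (A 1 (X c 1))) N))) 1) N)) N)) (L (X (A (A (L (X 1 (A (L (R D 160) 4294967295) (X a (A (L (R D 192) 4294967295) (X a (L (R D 224) 4294967295)))))) N) (L (X c (A (L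 (R D 23968) 4294967295) (X a (A (L (R D 24000) 4294967295) (X a (L (R D 24032) 4294967295)))))) N)) (S M (L (L (X (L (X (L (X 16777216 1) N) (P e 2)) N) g) N) N))) (L (X (A (A (L (R D 5952) 4294967295) (X c (L (R D 29760) 4294967295))) (S M (L (X 2147483648 (A 1 (X c 1))) N))) 1) N)) N)) (L (X (A (A (L (X (A (L (R D 1568) 4294967295) (X c (L (R D 25376) 4294967295))) (L (X (A (A (L (R D 3040) 4294967295) (X c (L (R D 26848) 4294967295))) (S M (L (X 2147483648 (A 1 (X c 1))) N))) 1) N)) N) (L (X (A (L (R D 1696) 4294967295) (X c (L (R D 25504) 4294967295))) (L (X (A (A (L (R D 1888) 4294967295) (X c (L (R D 25696) 4294967295))) (S M (L (X 2147483648 (A 1 (X c 1))) N))) 1) N)) N)) (A (L (X (A (L (R D 1600) 4294967295) (X c (L (R D 25408) 4294967295))) (L (X (A (A (L (R D 3616) 4294967295) (X c (L (R D 27424) 4294967295))) (S M (L (X 2147483648 (A 1 (X c 1))) N))) 1) N)) N) (L (X (A (L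 (R D 1728) 4294967295) (X c (L (R D 25536) 4294967295))) (L (X (A (A (L (R D 2464) 4294967295) (X c (L (R D 26272) 4294967295))) (S M (L (X 2147483648 (A 1 (X c 1))) N))) 1) N)) N))) (P e 2)) N)) N))) (S M (L (L (X (L (X (L (X 16777216 (A (L (X (A (L (X (A (L (R D 20192) 4294967295) (X c (L (R D 44000) 4294967295))) 1) N) (L (X (A (L (R D 20224) 4294967295) (X c (L (R D 44032) 4294967295))) a) N)) (A 0 (S M (L (L (X 12 1) N) N)))) N) (A (L (X (A (L (X (A (L (R D 20256) 4294967295) (X c (L (R D 44064) 4294967295))) 1) N) (L (X (A (L (R D 20288) 4294967295) (X c (L (R D 44096) 4294967295))) a) N)) (A 0 (S M (L (L (X 12 1) N) N)))) N) (A (L (X (A (L (X (A (L (R D 20320) 4294967295) (X c (L (R D 44128) 4294967295))) 1) N) (L (X (A (L (R D 20352) 4294967295) (X c (L (R D 44160) 4294967295))) a) N)) (L (X 144 1) N)) N) (A (L (X (A (L (X (A (L (R D 20512) 4294967295) (X c (L (R D 44320) 4294967295)))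 1) N) (L (X (A (L (R D 20544) 4294967295) (X c (L (R D 44352) 4294967295))) a) N)) (A 0 (S M (L (L (X 12 1) N) N)))) N) (A (L (X (A (L (X (A (L (R D 20576) 4294967295) (X c (L (R D 44384) 4294967295))) 1) N) (L (X (A (L (R D 20608) 4294967295) (X c (L (R D 44416) 4294967295))) a) N)) (A 0 (S M (L (L (X 12 1) N) N)))) N) (L (X (A (L (X (A (L (R D 20640) 4294967295) (X c (L (R D 44448) 4294967295))) 1) N) (L (X (A (L (R D 20672) 4294967295) (X c (L (R D 44480) 4294967295))) a) N)) (L (X 144 1) N)) N))))))) N) e) N) g) N) N))), 71, 3, 1, 3, 1⟩,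
  ⟨fun A S X L P R M N m a b c d e f g h D => (A (L (X (L (X (L (X 0 e) N) (P f 2)) N) g) N) (S M (L (A (L (X (L (X 1024 (L (X (A (L (X (A (L (R D 20384) 4294967295) (X c (L (R D 44192) 4294967295))) 1) N) (L (X (A (L (R D 20416) 4294967295) (X c (L (R D 44224) 4294967295))) a) N)) (A (L (X 0 f) N) (S M (L (L (X 12 (L (X 86 b) N)) N) N)))) N)) N) f) N) (A (L (X (A (L (X (A (L (R D 20512) 4294967295) (X c (L (R D 44320) 4294967295))) 1) N) (L (X (A (L (R D 20544) 4294967295) (X c (L (R D 44352) 4294967295))) a) N)) (A (L (X (L (X 1024 (L (X 86 b) N)) N) f) N) (S M (L (L (X 12 (L (X (L (X 86 b) N) (L (X 86 b) N)) N)) N) N)))) N) (A (L (X (A (L (X (A (L (R D 20576) 4294967295) (X c (L (R D 44384) 4294967295))) 1) N) (L (X (A (L (R D 20608) 4294967295) (X c (L (R D 44416) 4294967295))) a) N)) (A (L (X 0 (P f 2)) N) (S M (L (L (X 12 (L (X (L (X 86 b) N) (L (X 86 b) N)) N)) N) N)))) N) (A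 (L (X (A (L (X (A (L (R D 20640) 4294967295) (X c (L (R D 44448) 4294967295))) 1) N) (L (X (A (L (R D 20672) 4294967295) (X c (L (R D 44480) 4294967295))) a) N)) (A (L (X 144 (L (X (L (X 86 b) N) (L (X 86 b) N)) N)) N) (S M (L (L (X (L (X 1024 (L (X 12 (L (X 86 b) N)) N)) N) f) N) N)))) N) (L (X (L (X 1048576 (L (X (A (L (X (A (L (R D 20704) 4294967295) (X c (L (R D 44512) 4294967295))) 1) N) (L (X (A (L (R D 20736) 4294967295) (X c (L (R D 44544) 4294967295))) a) N)) (A 0 (S M (L (L (X 12 1) N) N)))) N)) N) (P f 2)) N))))) N))), 60, 2, 3, 2, 1⟩,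
  ⟨fun A S X L P R M N m a b c d e f g h D => (A (A (L (X (L (X 1024 (L (X (A (A (L (R D 2720) 4294967295) (X c (L (R D 26528) 4294967295))) (S M (L (X 2147483648 (A 1 (X c 1))) N))) (A (L (X (L (X 767 e) N) f) N) (A (L (X (L (X 171 1) N) f) N) (L (X (L (X 86 1) N) e) N)))) N)) N) e) N) (L (X (A (A (L (R D 2752) 4294967295) (X c (L (R D 26560) 4294967295))) (S M (L (X 2147483648 (A 1 (X c 1))) N))) (L (X (L (X 171 a) N) (A (L (X (L (X 767 e) N) f) N) (A (L (X (L (X 171 1) N) f) N) (L (X (L (X 86 1) N) e) N)))) N)) N)) (S M (L (L (X (L (X 1024 (A (L (X (A (L (R D 20768) 4294967295) (X c (L (R D 44576) 4294967295))) (L (X 2 (A (L (X (L (X 767 e) N) f) N) (A (L (X (L (X 171 1) N) f) N) (L (X (L (X 86 1) N) e) N)))) N)) N) (A (L (X (A (L (R D 20800) 4294967295) (X c (L (R D 44608) 4294967295))) (A (L (X (L (X 767 e) N) f) N) (A (L (X (L (X 171 1) N) f) N) (L (X (L (X 86 1) N) e) N)))) N)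 (L (X (A (L (R D 20896) 4294967295) (X c (L (R D 44704) 4294967295))) (L (X 2 (A (L (X (L (X 767 e) N) f) N) (A (L (X (L (X 171 1) N) f) N) (L (X (L (X 86 1) N) e) N)))) N)) N)))) N) e) N) N))), 59, 3, 2, 2, 1⟩,
  ⟨fun A S X L P R M N m a b c d e f g h D => (A (L (X (A (L (X (L (X 1024 (A (A (L (R D 2784) 4294967295) (X c (L (R D 26592) 4294967295))) (S M (L (X 2147483648 (A 1 (X c 1))) N)))) N) e) N) (L (X (L (X 171 a) N) (A (A (L (R D 2880) 4294967295) (X c (L (R D 26688) 4294967295))) (S M (L (X 2147483648 (A 1 (X c 1))) N)))) N)) 1) N) (S M (L (L (X (L (X 1024 (A (L (X (A (L (R D 20768) 4294967295) (X c (L (R D 44576) 4294967295))) (A 0 (S M (L (L (X 12 1) N) N)))) N) (A (L (X (A (L (R D 20832) 4294967295) (X c (L (R D 44640) 4294967295))) 1) N) (L (X (A (L (R D 20896) 4294967295) (X c (L (R D 44704) 4294967295))) (A 0 (S M (L (L (X 12 1) N) N)))) N)))) N) e) N) N))), 49, 2, 1, 2,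 1⟩,
  ⟨fun A S X L P R M N m a b c d e f g h D => (A (L (X (A (A (L (R D 2816) 4294967295) (X c (L (R D 26624) 4294967295))) (S M (L (X 2147483648 (A 1 (X c 1))) N))) 1) N) (S M (L (A (L (X (A (L (R D 20800) 4294967295) (X c (L (R D 44608) 4294967295))) (A 0 (S M (L (L (X 12 1) N) N)))) N) (A (L (X (A (L (R D 20864) 4294967295) (X c (L (R D 44672) 4294967295))) (L (X 2 1) N)) N) (L (X (A (L (R D 20896) 4294967295) (X c (L (R D 44704) 4294967295))) (A 0 (S M (L (L (X 24 1) N) N)))) N))) N))), 39, 1, 1, 2, 1⟩,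
  ⟨fun A S X L P R M N m a b c d e f g h D => (A (L (X (A (A (L (R D 2848) 4294967295) (X c (L (R D 26656) 4294967295))) (S M (L (X 2147483648 (A 1 (X c 1))) N))) 1) N) (S M (L (A (L (X (A (L (R D 20832) 4294967295) (X c (L (R D 44640) 4294967295))) (A 0 (S M (L (L (X 12 1) N) N)))) N) (A (L (X (A (L (R D 20864) 4294967295) (X c (L (R D 44672) 4294967295))) (A 0 (S M (L (L (X 12 1) N) N)))) N) (L (X (A (L (R D 20896) 4294967295) (X c (L (R D 44704) 4294967295))) (L (X 144 1) N)) N))) N))), 41, 1, 1, 2, 1⟩,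
  ⟨fun A S X L P R M N m a b c d e f g h D => (A (A (L (X (L (X 1024 (L (X (A (A (L (R D 3872) 4294967295) (X c (L (R D 27680) 4294967295))) (S M (L (X 2147483648 (A 1 (X c 1))) N))) (A (L (X (L (X 767 e) N) f) N) (A (L (X (L (X 171 1) N) f) N) (L (X (L (X 86 1) N) e) N)))) N)) N) e) N) (L (X (A (A (L (R D 3904) 4294967295) (X c (L (R D 27712) 4294967295))) (S M (L (X 2147483648 (A 1 (X c 1))) N))) (L (X (L (X 171 a) N) (A (L (X (L (X 767 e) N) f) N) (A (L (X (L (X 171 1) N) f) N) (L (X (L (X 86 1) N) e) N)))) N)) N)) (S M (L (L (X (L (X 1024 (A (L (X (A (L (R D 20928) 4294967295) (X c (L (R D 44736) 4294967295))) (L (X 2 (A (L (X (L (X 767 e) N) f) N) (A (L (X (L (X 171 1) N) f) N) (L (X (L (X 86 1) N) e) N)))) N)) N) (A (L (X (A (L (R D 20960) 4294967295) (X c (L (R D 44768) 4294967295))) (A (L (X (L (X 767 e) N) f) N) (A (L (X (L (X 171 1) N) f) N) (L (X (L (X 86 1) N) e) N)))) N)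 (L (X (A (L (R D 21056) 4294967295) (X c (L (R D 44864) 4294967295))) (L (X 2 (A (L (X (L (X 767 e) N) f) N) (A (L (X (L (X 171 1) N) f) N) (L (X (L (X 86 1) N) e) N)))) N)) N)))) N) e) N) N))), 59, 3, 2, 2, 1⟩,
  ⟨fun A S X L P R M N m a b c d e f g h D => (A (L (X (A (L (X (L (X 1024 (A (A (L (R D 3936) 4294967295) (X c (L (R D 27744) 4294967295))) (S M (L (X 2147483648 (A 1 (X c 1))) N)))) N) e) N) (L (X (L (X 171 a) N) (A (A (L (R D 4032) 4294967295) (X c (L (R D 27840) 4294967295))) (S M (L (X 2147483648 (A 1 (X c 1))) N)))) N)) 1) N) (S M (L (L (X (L (X 1024 (A (L (X (A (L (R D 20928) 4294967295) (X c (L (R D 44736) 4294967295))) (A 0 (S M (L (L (X 12 1) N) N)))) N) (A (L (X (A (L (R D 20992) 4294967295) (X c (L (R D 44800) 4294967295))) 1) N) (L (X (A (L (R D 21056) 4294967295) (X c (L (R D 44864) 4294967295))) (A 0 (S M (L (L (X 12 1) N) N)))) N)))) N) e) N) N))), 49, 2, 1, 2,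 1⟩,
  ⟨fun A S X L P R M N m a b c d e f g h D => (A (L (X (A (A (L (R D 3968) 4294967295) (X c (L (R D 27776) 4294967295))) (S M (L (X 2147483648 (A 1 (X c 1))) N))) 1) N) (S M (L (A (L (X (A (L (R D 20960) 4294967295) (X c (L (R D 44768) 4294967295))) (A 0 (S M (L (L (X 12 1) N) N)))) N) (A (L (X (A (L (R D 21024) 4294967295) (X c (L (R D 44832) 4294967295))) (L (X 2 1) N)) N) (L (X (A (L (R D 21056) 4294967295) (X c (L (R D 44864) 4294967295))) (A 0 (S M (L (L (X 24 1) N) N)))) N))) N))), 39, 1, 1, 2, 1⟩,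
  ⟨fun A S X L P R M N m a b c d e f g h D => (A (L (X (A (A (L (R D 4000) 4294967295) (X c (L (R D 27808) 4294967295))) (S M (L (X 2147483648 (A 1 (X c 1))) N))) 1) N) (S M (L (A (L (X (A (L (R D 20992) 4294967295) (X c (L (R D 44800) 4294967295))) (A 0 (S M (L (L (X 12 1) N) N)))) N) (A (L (X (A (L (R D 21024) 4294967295) (X c (L (R D 44832) 4294967295))) (A 0 (S M (L (L (X 12 1) N) N)))) N) (L (X (A (L (R D 21056) 4294967295) (X c (L (R D 44864) 4294967295))) (L (X 144 1) N)) N))) N))), 41, 1, 1, 2, 1⟩,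
  ⟨fun A S X L P R M N m a b c d e f g h D => (A (A (L (X (L (X 1024 (L (X (A (A (L (R D 2336) 4294967295) (X c (L (R D 26144) 4294967295))) (S M (L (X 2147483648 (A 1 (X c 1))) N))) (A (L (X (L (X 767 e) N) f) N) (A (L (X (L (X 171 1) N) f) N) (L (X (L (X 86 1) N) e) N)))) N)) N) e) N) (L (X (A (A (L (R D 2368) 4294967295) (X c (L (R D 26176) 4294967295))) (S M (L (X 2147483648 (A 1 (X c 1))) N))) (L (X (L (X 171 a) N) (A (L (X (L (X 767 e) N) f) N) (A (L (X (L (X 171 1) N) f) N) (L (X (L (X 86 1) N) e) N)))) N)) N)) (S M (L (L (X (L (X 1024 (A (L (X (A (L (R D 21088) 4294967295) (X c (L (R D 44896) 4294967295))) (L (X 2 (A (L (X (L (X 767 e) N) f) N) (A (L (X (L (X 171 1) N) f) N) (L (X (L (X 86 1) N) e) N)))) N)) N) (A (L (X (A (L (R D 21120) 4294967295) (X c (L (R D 44928) 4294967295))) (A (L (X (L (X 767 e) N) f) N) (A (L (X (L (X 171 1) N) f) N) (L (X (L (X 86 1) N) e) N)))) N)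 (L (X (A (L (R D 21216) 4294967295) (X c (L (R D 45024) 4294967295))) (L (X 2 (A (L (X (L (X 767 e) N) f) N) (A (L (X (L (X 171 1) N) f) N) (L (X (L (X 86 1) N) e) N)))) N)) N)))) N) e) N) N))), 59, 3, 2, 2, 1⟩,
  ⟨fun A S X L P R M N m a b c d e f g h D => (A (L (X (A (L (X (L (X 1024 (A (A (L (R D 2400) 4294967295) (X c (L (R D 26208) 4294967295))) (S M (L (X 2147483648 (A 1 (X c 1))) N)))) N) e) N) (L (X (L (X 171 a) N) (A (A (L (R D 2496) 4294967295) (X c (L (R D 26304) 4294967295))) (S M (L (X 2147483648 (A 1 (X c 1))) N)))) N)) 1) N) (S M (L (L (X (L (X 1024 (A (L (X (A (L (R D 21088) 4294967295) (X c (L (R D 44896) 4294967295))) (A 0 (S M (L (L (X 12 1) N) N)))) N) (A (L (X (A (L (R D 21152) 4294967295) (X c (L (R D 44960) 4294967295))) 1) N) (L (X (A (L (R D 21216) 4294967295) (X c (L (R D 45024) 4294967295))) (A 0 (S M (L (L (X 12 1) N) N)))) N)))) N) e) N) N))), 49, 2, 1, 2,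 1⟩,
  ⟨fun A S X L P R M N m a b c d e f g h D => (A (L (X (A (A (L (R D 2432) 4294967295) (X c (L (R D 26240) 4294967295))) (S M (L (X 2147483648 (A 1 (X c 1))) N))) 1) N) (S M (L (A (L (X (A (L (R D 21120) 4294967295) (X c (L (R D 44928) 4294967295))) (A 0 (S M (L (L (X 12 1) N) N)))) N) (A (L (X (A (L (R D 21184) 4294967295) (X c (L (R D 44992) 4294967295))) (L (X 2 1) N)) N) (L (X (A (L (R D 21216) 4294967295) (X c (L (R D 45024) 4294967295))) (A 0 (S M (L (L (X 24 1) N) N)))) N))) N))), 39, 1, 1, 2, 1⟩,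
  ⟨fun A S X L P R M N m a b c d e f g h D => (A (L (X (A (A (L (R D 2464) 4294967295) (X c (L (R D 26272) 4294967295))) (S M (L (X 2147483648 (A 1 (X c 1))) N))) 1) N) (S M (L (A (L (X (A (L (R D 21152) 4294967295) (X c (L (R D 44960) 4294967295))) (A 0 (S M (L (L (X 12 1) N) N)))) N) (A (L (X (A (L (R D 21184) 4294967295) (X c (L (R D 44992) 4294967295))) (A 0 (S M (L (L (X 12 1) N) N)))) N) (L (X (A (L (R D 21216) 4294967295) (X c (L (R D 45024) 4294967295))) (L (X 144 1) N)) N))) N))), 41, 1, 1, 2, 1⟩,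
  ⟨fun A S X L P R M N m a b c d e f g h D => (A (A (L (X (L (X 1024 (L (X (A (A (L (R D 3488) 4294967295) (X c (L (R D 27296) 4294967295))) (S M (L (X 2147483648 (A 1 (X c 1))) N))) (A (L (X (L (X 767 e) N) f) N) (A (L (X (L (X 171 1) N) f) N) (L (X (L (X 86 1) N) e) N)))) N)) N) e) N) (L (X (A (A (L (R D 3520) 4294967295) (X c (L (R D 27328) 4294967295))) (S M (L (X 2147483648 (A 1 (X c 1))) N))) (L (X (L (X 171 a) N) (A (L (X (L (X 767 e) N) f) N) (A (L (X (L (X 171 1) N) f) N) (L (X (L (X 86 1) N) e) N)))) N)) N)) (S M (L (L (X (L (X 1024 (A (L (X (A (L (R D 21248) 4294967295) (X c (L (R D 45056) 4294967295))) (L (X 2 (A (L (X (L (X 767 e) N) f) N) (A (L (X (L (X 171 1) N) f) N) (L (X (L (X 86 1) N) e) N)))) N)) N) (A (L (X (A (L (R D 21280) 4294967295) (X c (L (R D 45088) 4294967295))) (A (L (X (L (X 767 e) N) f) N) (A (L (X (L (X 171 1) N) f) N) (L (X (L (X 86 1) N) e) N)))) N)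 (L (X (A (L (R D 21376) 4294967295) (X c (L (R D 45184) 4294967295))) (L (X 2 (A (L (X (L (X 767 e) N) f) N) (A (L (X (L (X 171 1) N) f) N) (L (X (L (X 86 1) N) e) N)))) N)) N)))) N) e) N) N))), 59, 3, 2, 2, 1⟩,
  ⟨fun A S X L P R M N m a b c d e f g h D => (A (L (X (A (L (X (L (X 1024 (A (A (L (R D 3552) 4294967295) (X c (L (R D 27360) 4294967295))) (S M (L (X 2147483648 (A 1 (X c 1))) N)))) N) e) N) (L (X (L (X 171 a) N) (A (A (L (R D 3648) 4294967295) (X c (L (R D 27456) 4294967295))) (S M (L (X 2147483648 (A 1 (X c 1))) N)))) N)) 1) N) (S M (L (L (X (L (X 1024 (A (L (X (A (L (R D 21248) 4294967295) (X c (L (R D 45056) 4294967295))) (A 0 (S M (L (L (X 12 1) N) N)))) N) (A (L (X (A (L (R D 21312) 4294967295) (X c (L (R D 45120) 4294967295))) 1) N) (L (X (A (L (R D 21376) 4294967295) (X c (L (R D 45184) 4294967295))) (A 0 (S M (L (L (X 12 1) N) N)))) N)))) N) e) N) N))), 49, 2, 1, 2,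 1⟩,
  ⟨fun A S X L P R M N m a b c d e f g h D => (A (L (X (A (A (L (R D 3584) 4294967295) (X c (L (R D 27392) 4294967295))) (S M (L (X 2147483648 (A 1 (X c 1))) N))) 1) N) (S M (L (A (L (X (A (L (R D 21280) 4294967295) (X c (L (R D 45088) 4294967295))) (A 0 (S M (L (L (X 12 1) N) N)))) N) (A (L (X (A (L (R D 21344) 4294967295) (X c (L (R D 45152) 4294967295))) (L (X 2 1) N)) N) (L (X (A (L (R D 21376) 4294967295) (X c (L (R D 45184) 4294967295))) (A 0 (S M (L (L (X 24 1) N) N)))) N))) N))), 39, 1, 1, 2, 1⟩,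
  ⟨fun A S X L P R M N m a b c d e f g h D => (A (L (X (A (A (L (R D 3616) 4294967295) (X c (L (R D 27424) 4294967295))) (S M (L (X 2147483648 (A 1 (X c 1))) N))) 1) N) (S M (L (A (L (X (A (L (R D 21312) 4294967295) (X c (L (R D 45120) 4294967295))) (A 0 (S M (L (L (X 12 1) N) N)))) N) (A (L (X (A (L (R D 21344) 4294967295) (X c (L (R D 45152) 4294967295))) (A 0 (S M (L (L (X 12 1) N) N)))) N) (L (X (A (L (R D 21376) 4294967295) (X c (L (R D 45184) 4294967295))) (L (X 144 1) N)) N))) N))), 41, 1, 1, 2, 1⟩,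
  ⟨fun A S X L P R M N m a b c d e f g h D => (A (A (L (X (L (X (L (X 17592186044416 (A (L (X 1 (A (L (R D 352) 4294967295) (X a (A (L (R D 384) 4294967295) (X a (L (R D 416) 4294967295)))))) N) (L (X c (A (L (R D 24160) 4294967295) (X a (A (L (R D 24192) 4294967295) (X a (L (R D 24224) 4294967295)))))) N))) N) (P e 2)) N) g) N) (S M (L (L (X (A (L (X 1 (A (L (R D 160) 4294967295) (X a (A (L (R D 192) 4294967295) (X a (L (R D 224) 4294967295)))))) N) (L (X c (A (L (R D 23968) 4294967295) (X a (A (L (R D 24000) 4294967295) (X a (L (R D 24032) 4294967295)))))) N)) (A (L (X 1048576 (A (L (X 1 (A (L (R D 448) 4294967295) (X a (A (L (R D 480) 4294967295) (X a (L (R D 512) 4294967295)))))) N) (L (X c (A (L (R D 24256) 4294967295) (X a (A (L (R D 24288) 4294967295) (X a (L (R D 24320) 4294967295)))))) N))) N) (A (L (X (L (X 1024 (L (X (A (A (L (R D 544) 4294967295) (X c (L (R D 24352) 4294967295)))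 (S M (L (X 2147483648 (A 1 (X c 1))) N))) (A (L (X 853 e) N) (L (X 171 1) N))) N)) N) e) N) (L (X (A (A (L (R D 576) 4294967295) (X c (L (R D 24384) 4294967295))) (S M (L (X 2147483648 (A 1 (X c 1))) N))) (L (X (L (X 171 a) N) (A (L (X 853 e) N) (L (X 171 1) N))) N)) N)))) N) N))) (S M (L (L (X (L (X (L (X 17179869184 (A (L (X (A (L (X (A (L (R D 6944) 4294967295) (X c (L (R D 30752) 4294967295))) 1) N) (L (X (A (L (R D 6976) 4294967295) (X c (L (R D 30784) 4294967295))) a) N)) (L (X 2 (A (L (X 853 e) N) (L (X 171 1) N))) N)) N) (A (L (X (A (L (X (A (L (R D 7008) 4294967295) (X c (L (R D 30816) 4294967295))) 1) N) (L (X (A (L (R D 7040) 4294967295) (X c (L (R D 30848) 4294967295))) a) N)) (A (L (X 853 e) N) (L (X 171 1) N))) N) (L (X (A (L (X (A (L (R D 7200) 4294967295) (X c (L (R D 31008) 4294967295))) 1) N) (L (X (A (L (R D 7232) 4294967295) (X c (L (R D 31040) 4294967295))) a) N))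 (L (X 2 (A (L (X 853 e) N) (L (X 171 1) N))) N)) N)))) N) (P e 2)) N) g) N) N))), 91, 5, 1, 3, 1⟩,
  ⟨fun A S X L P R M N m a b c d e f g h D => (A (A (L (X (L (X 0 (P e 3)) N) (P g 2)) N) (S M (L (L (X (A (L (X 1 (A (L (R D 160) 4294967295) (X a (A (L (R D 192) 4294967295) (X a (L (R D 224) 4294967295)))))) N) (L (X c (A (L (R D 23968) 4294967295) (X a (A (L (R D 24000) 4294967295) (X a (L (R D 24032) 4294967295)))))) N)) (L (X (A (L (X (L (X 1024 (A (A (L (R D 608) 4294967295) (X c (L (R D 24416) 4294967295))) (S M (L (X 2147483648 (A 1 (X c 1))) N)))) N) e) N) (L (X (L (X 171 a) N) (A (A (L (R D 704) 4294967295) (X c (L (R D 24512) 4294967295))) (S M (L (X 2147483648 (A 1 (X c 1))) N)))) N)) 1) N)) N) N))) (S M (L (L (X (L (X (L (X 17179869184 (A (L (X (A (L (X (A (L (R D 6944) 4294967295) (X c (L (R D 30752) 4294967295))) 1) N) (L (X (A (L (R D 6976) 4294967295) (X c (L (R D 30784)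 4294967295))) a) N)) (A 0 (S M (L (L (X 12 1) N) N)))) N) (A (L (X (A (L (X (A (L (R D 7072) 4294967295) (X c (L (R D 30880) 4294967295))) 1) N) (L (X (A (L (R D 7104) 4294967295) (X c (L (R D 30912) 4294967295))) a) N)) 1) N) (L (X (A (L (X (A (L (R D 7200) 4294967295) (X c (L (R D 31008) 4294967295))) 1) N) (L (X (A (L (R D 7232) 4294967295) (X c (L (R D 31040) 4294967295))) a) N)) (A 0 (S M (L (L (X 12 1) N) N)))) N)))) N) (P e 2)) N) g) N) N))), 79, 4, 1, 3, 1⟩,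
  ⟨fun A S X L P R M N m a b c d e f g h D => (A (A (L (X (L (X 0 (P e 2)) N) (P g 2)) N) (S M (L (L (X (A (L (X 1 (A (L (R D 160) 4294967295) (X a (A (L (R D 192) 4294967295) (X a (L (R D 224) 4294967295)))))) N) (L (X c (A (L (R D 23968) 4294967295) (X a (A (L (R D 24000) 4294967295) (X a (L (R D 24032) 4294967295)))))) N)) (L (X (A (A (L (R D 640) 4294967295) (X c (L (R D 24448) 4294967295))) (S M (L (X 2147483648 (A 1 (X c 1))) N))) 1) N)) N) N))) (S M (L (L (X (L (X (L (X 16777216 (A (L (X (A (L (X (A (L (R D 7008) 4294967295) (X c (L (R D 30816) 4294967295))) 1) N) (L (X (A (L (R D 7040) 4294967295) (X c (L (R D 30848) 4294967295))) a) N)) (A 0 (S M (L (L (X 12 1) N) N)))) N) (A (L (X (A (L (X (A (L (R D 7136) 4294967295) (X c (L (R D 30944) 4294967295))) 1) N) (L (X (A (L (R D 7168) 4294967295) (X c (L (R D 30976) 4294967295))) a) N)) (L (X 2 1) N)) N) (L (X (A (L (X (A (L (R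 D 7200) 4294967295) (X c (L (R D 31008) 4294967295))) 1) N) (L (X (A (L (R D 7232) 4294967295) (X c (L (R D 31040) 4294967295))) a) N)) (A 0 (S M (L (L (X 24 1) N) N)))) N)))) N) e) N) g) N) N))), 68, 3, 1, 3, 1⟩,
  ⟨fun A S X L P R M N m a b c d e f g h D => (A (A (L (X (L (X 0 (P e 2)) N) (P g 2)) N) (S M (L (L (X (A (L (X 1 (A (L (R D 160) 4294967295) (X a (A (L (R D 192) 4294967295) (X a (L (R D 224) 4294967295)))))) N) (L (X c (A (L (R D 23968) 4294967295) (X a (A (L (R D 24000) 4294967295) (X a (L (R D 24032) 4294967295)))))) N)) (L (X (A (A (L (R D 672) 4294967295) (X c (L (R D 24480) 4294967295))) (S M (L (X 2147483648 (A 1 (X c 1))) N))) 1) N)) N) N))) (S M (L (L (X (L (X (L (X 16777216 (A (L (X (A (L (X (A (L (R D 7072) 4294967295) (X c (L (R D 30880) 4294967295))) 1) N) (L (X (A (L (R D 7104) 4294967295) (X c (L (R D 30912) 4294967295))) a) N)) (A 0 (S M (L (L (X 12 1) N)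 N)))) N) (A (L (X (A (L (X (A (L (R D 7136) 4294967295) (X c (L (R D 30944) 4294967295))) 1) N) (L (X (A (L (R D 7168) 4294967295) (X c (L (R D 30976) 4294967295))) a) N)) (A 0 (S M (L (L (X 12 1) N) N)))) N) (L (X (A (L (X (A (L (R D 7200) 4294967295) (X c (L (R D 31008) 4294967295))) 1) N) (L (X (A (L (R D 7232) 4294967295) (X c (L (R D 31040) 4294967295))) a) N)) (L (X 144 1) N)) N)))) N) e) N) g) N) N))), 69, 3, 1, 3, 1⟩,
  ⟨fun A S X L P R M N m a b c d e f g h D => (A (A (L (X (L (X 1024 (L (X (A (A (L (R D 544) 4294967295) (X c (L (R D 24352) 4294967295))) (S M (L (X 2147483648 (A 1 (X c 1))) N))) (A (L (X 853 e) N) (L (X 171 1) N))) N)) N) e) N) (L (X (A (A (L (R D 576) 4294967295) (X c (L (R D 24384) 4294967295))) (S M (L (X 2147483648 (A 1 (X c 1))) N))) (L (X (L (X 171 a) N) (A (L (X 853 e) N) (L (X 171 1) N))) N)) N)) (S M (L (L (X 1024 (A (L (X (A (L (X (A (L (R D 7264)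 4294967295) (X c (L (R D 31072) 4294967295))) 1) N) (L (X (A (L (R D 7296) 4294967295) (X c (L (R D 31104) 4294967295))) a) N)) (L (X 2 (A (L (X 853 e) N) (L (X 171 1) N))) N)) N) (A (L (X (A (L (X (A (L (R D 7328) 4294967295) (X c (L (R D 31136) 4294967295))) 1) N) (L (X (A (L (R D 7360) 4294967295) (X c (L (R D 31168) 4294967295))) a) N)) (A (L (X 853 e) N) (L (X 171 1) N))) N) (L (X (A (L (X (A (L (R D 7520) 4294967295) (X c (L (R D 31328) 4294967295))) 1) N) (L (X (A (L (R D 7552) 4294967295) (X c (L (R D 31360) 4294967295))) a) N)) (L (X 2 (A (L (X 853 e) N) (L (X 171 1) N))) N)) N)))) N) N))), 58, 3, 1, 2, 1⟩,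
  ⟨fun A S X L P R M N m a b c d e f g h D => (A (L (X (A (L (X (L (X 1024 (A (A (L (R D 608) 4294967295) (X c (L (R D 24416) 4294967295))) (S M (L (X 2147483648 (A 1 (X c 1))) N)))) N) e) N) (L (X (L (X 171 a) N) (A (A (L (R D 704) 4294967295) (X c (L (R D 24512) 4294967295))) (S M (L (X 2147483648 (A 1 (X c 1))) N)))) N)) 1) N) (S M (L (L (X 1024 (A (L (X (A (L (X (A (L (R D 7264) 4294967295) (X c (L (R D 31072) 4294967295))) 1) N) (L (X (A (L (R D 7296) 4294967295) (X c (L (R D 31104) 4294967295))) a) N)) (A 0 (S M (L (L (X 12 1) N) N)))) N) (A (L (X (A (L (X (A (L (R D 7392) 4294967295) (X c (L (R D 31200) 4294967295))) 1) N) (L (X (A (L (R D 7424) 4294967295) (X c (L (R D 31232) 4294967295))) a) N)) 1) N) (L (X (A (L (X (A (L (R D 7520) 4294967295) (X c (L (R D 31328) 4294967295))) 1) N) (L (X (A (L (R D 7552) 4294967295) (X c (L (R D 31360) 4294967295))) a) N)) (A 0 (S M (L (L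 (X 12 1) N) N)))) N)))) N) N))), 49, 2, 1, 2, 1⟩,
  ⟨fun A S X L P R M N m a b c d e f g h D => (A (L (X (L (X (A (A (L (R D 640) 4294967295) (X c (L (R D 24448) 4294967295))) (S M (L (X 2147483648 (A 1 (X c 1))) N))) 1) N) e) N) (S M (L (A (L (X (A (L (X (A (L (R D 7328) 4294967295) (X c (L (R D 31136) 4294967295))) 1) N) (L (X (A (L (R D 7360) 4294967295) (X c (L (R D 31168) 4294967295))) a) N)) (A 0 (S M (L (L (X 12 1) N) N)))) N) (A (L (X (A (L (X (A (L (R D 7456) 4294967295) (X c (L (R D 31264) 4294967295))) 1) N) (L (X (A (L (R D 7488) 4294967295) (X c (L (R D 31296) 4294967295))) a) N)) (L (X 2 1) N)) N) (L (X (A (L (X (A (L (R D 7520) 4294967295) (X c (L (R D 31328) 4294967295))) 1) N) (L (X (A (L (R D 7552) 4294967295) (X c (L (R D 31360) 4294967295))) a) N)) (A 0 (S M (L (L (X 24 1) N) N)))) N))) N))), 40, 2, 1, 2, 1⟩,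
  ⟨fun A S X L P R M N m a b c d e f g h D => (A (L (X (L (X (A (A (L (R D 672) 4294967295) (X c (L (R D 24480) 4294967295))) (S M (L (X 2147483648 (A 1 (X c 1))) N))) 1) N) e) N) (S M (L (A (L (X (A (L (X (A (L (R D 7392) 4294967295) (X c (L (R D 31200) 4294967295))) 1) N) (L (X (A (L (R D 7424) 4294967295) (X c (L (R D 31232) 4294967295))) a) N)) (A 0 (S M (L (L (X 12 1) N) N)))) N) (A (L (X (A (L (X (A (L (R D 7456) 4294967295) (X c (L (R D 31264) 4294967295))) 1) N) (L (X (A (L (R D 7488) 4294967295) (X c (L (R D 31296) 4294967295))) a) N)) (A 0 (S M (L (L (X 12 1) N) N)))) N) (L (X (A (L (X (A (L (R D 7520) 4294967295) (X c (L (R D 31328) 4294967295))) 1) N) (L (X (A (L (R D 7552) 4294967295) (X c (L (R D 31360) 4294967295))) a) N)) (L (X 144 1) N)) N))) N))), 42, 2, 1, 2, 1⟩,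
  ⟨fun A S X L P R M N m a b c d e f g h D => (A (A (L (X (L (X 1024 (L (X (A (A (L (R D 736) 4294967295) (X c (L (R D 24544) 4294967295))) (S M (L (X 2147483648 (A 1 (X c 1))) N))) (A (L (X 853 e) N) (L (X 171 1) N))) N)) N) e) N) (L (X (A (A (L (R D 768) 4294967295) (X c (L (R D 24576) 4294967295))) (S M (L (X 2147483648 (A 1 (X c 1))) N))) (L (X (L (X 171 a) N) (A (L (X 853 e) N) (L (X 171 1) N))) N)) N)) (S M (L (L (X 1024 (A (L (X (A (L (X (A (L (R D 7584) 4294967295) (X c (L (R D 31392) 4294967295))) 1) N) (L (X (A (L (R D 7616) 4294967295) (X c (L (R D 31424) 4294967295))) a) N)) (L (X 2 (A (L (X 853 e) N) (L (X 171 1) N))) N)) N) (A (L (X (A (L (X (A (L (R D 7648) 4294967295) (X c (L (R D 31456) 4294967295))) 1) N) (L (X (A (L (R D 7680) 4294967295) (X c (L (R D 31488) 4294967295))) a) N)) (A (L (X 853 e) N) (L (X 171 1) N))) N) (L (X (A (L (X (A (L (R D 7840) 4294967295) (X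 c (L (R D 31648) 4294967295))) 1) N) (L (X (A (L (R D 7872) 4294967295) (X c (L (R D 31680) 4294967295))) a) N)) (L (X 2 (A (L (X 853 e) N) (L (X 171 1) N))) N)) N)))) N) N))), 58, 3, 1, 2, 1⟩,
  ⟨fun A S X L P R M N m a b c d e f g h D => (A (L (X (A (L (X (L (X 1024 (A (A (L (R D 800) 4294967295) (X c (L (R D 24608) 4294967295))) (S M (L (X 2147483648 (A 1 (X c 1))) N)))) N) e) N) (L (X (L (X 171 a) N) (A (A (L (R D 896) 4294967295) (X c (L (R D 24704) 4294967295))) (S M (L (X 2147483648 (A 1 (X c 1))) N)))) N)) 1) N) (S M (L (L (X 1024 (A (L (X (A (L (X (A (L (R D 7584) 4294967295) (X c (L (R D 31392) 4294967295))) 1) N) (L (X (A (L (R D 7616) 4294967295) (X c (L (R D 31424) 4294967295))) a) N)) (A 0 (S M (L (L (X 12 1) N) N)))) N) (A (L (X (A (L (X (A (L (R D 7712) 4294967295) (X c (L (R D 31520) 4294967295))) 1) N) (L (X (A (L (R D 7744) 4294967295) (X c (L (R D 31552) 4294967295)))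 a) N)) 1) N) (L (X (A (L (X (A (L (R D 7840) 4294967295) (X c (L (R D 31648) 4294967295))) 1) N) (L (X (A (L (R D 7872) 4294967295) (X c (L (R D 31680) 4294967295))) a) N)) (A 0 (S M (L (L (X 12 1) N) N)))) N)))) N) N))), 49, 2, 1, 2, 1⟩,
  ⟨fun A S X L P R M N m a b c d e f g h D => (A (L (X (L (X (A (A (L (R D 832) 4294967295) (X c (L (R D 24640) 4294967295))) (S M (L (X 2147483648 (A 1 (X c 1))) N))) 1) N) e) N) (S M (L (A (L (X (A (L (X (A (L (R D 7648) 4294967295) (X c (L (R D 31456) 4294967295))) 1) N) (L (X (A (L (R D 7680) 4294967295) (X c (L (R D 31488) 4294967295))) a) N)) (A 0 (S M (L (L (X 12 1) N) N)))) N) (A (L (X (A (L (X (A (L (R D 7776) 4294967295) (X c (L (R D 31584) 4294967295))) 1) N) (L (X (A (L (R D 7808) 4294967295) (X c (L (R D 31616) 4294967295))) a) N)) (L (X 2 1) N)) N) (L (X (A (L (X (A (L (R D 7840) 4294967295) (X c (L (R D 31648) 4294967295))) 1) N) (L (X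 (A (L (R D 7872) 4294967295) (X c (L (R D 31680) 4294967295))) a) N)) (A 0 (S M (L (L (X 24 1) N) N)))) N))) N))), 40, 2, 1, 2, 1⟩,
  ⟨fun A S X L P R M N m a b c d e f g h D => (A (L (X (L (X (A (A (L (R D 864) 4294967295) (X c (L (R D 24672) 4294967295))) (S M (L (X 2147483648 (A 1 (X c 1))) N))) 1) N) e) N) (S M (L (A (L (X (A (L (X (A (L (R D 7712) 4294967295) (X c (L (R D 31520) 4294967295))) 1) N) (L (X (A (L (R D 7744) 4294967295) (X c (L (R D 31552) 4294967295))) a) N)) (A 0 (S M (L (L (X 12 1) N) N)))) N) (A (L (X (A (L (X (A (L (R D 7776) 4294967295) (X c (L (R D 31584) 4294967295))) 1) N) (L (X (A (L (R D 7808) 4294967295) (X c (L (R D 31616) 4294967295))) a) N)) (A 0 (S M (L (L (X 12 1) N) N)))) N) (L (X (A (L (X (A (L (R D 7840) 4294967295) (X c (L (R D 31648) 4294967295))) 1) N) (L (X (A (L (R D 7872) 4294967295) (X c (L (R D 31680) 4294967295))) a) N)) (L (X 144 1) N))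 N))) N))), 42, 2, 1, 2, 1⟩,
  ⟨fun A S X L P R M N m a b c d e f g h D => (A (A (L (X (L (X (L (X 17592186044416 1) N) (P e 2)) N) g) N) (S M (L (A (L (X (L (X 1024 (L (X (A (A (L (R D 1120) 4294967295) (X c (L (R D 24928) 4294967295))) (S M (L (X 2147483648 (A 1 (X c 1))) N))) (A (L (X 853 e) N) (L (X 171 1) N))) N)) N) e) N) (L (X (A (A (L (R D 1152) 4294967295) (X c (L (R D 24960) 4294967295))) (S M (L (X 2147483648 (A 1 (X c 1))) N))) (L (X (L (X 171 a) N) (A (L (X 853 e) N) (L (X 171 1) N))) N)) N)) N))) (S M (L (L (X 1024 (A (L (X (A (L (X (A (L (R D 7904) 4294967295) (X c (L (R D 31712) 4294967295))) 1) N) (L (X (A (L (R D 7936) 4294967295) (X c (L (R D 31744) 4294967295))) a) N)) (L (X 2 (A (L (X 853 e) N) (L (X 171 1) N))) N)) N) (A (L (X (A (L (X (A (L (R D 7968) 4294967295) (X c (L (R D 31776) 4294967295))) 1) N) (L (X (A (L (R D 8000) 4294967295) (X c (L (R D 31808) 4294967295)))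 a) N)) (A (L (X 853 e) N) (L (X 171 1) N))) N) (L (X (A (L (X (A (L (R D 8160) 4294967295) (X c (L (R D 31968) 4294967295))) 1) N) (L (X (A (L (R D 8192) 4294967295) (X c (L (R D 32000) 4294967295))) a) N)) (L (X 2 (A (L (X 853 e) N) (L (X 171 1) N))) N)) N)))) N) N))), 58, 3, 1, 2, 1⟩,
  ⟨fun A S X L P R M N m a b c d e f g h D => (A (A (L (X (L (X 0 e) N) g) N) (S M (L (L (X (A (L (X (L (X 1024 (A (A (L (R D 1184) 4294967295) (X c (L (R D 24992) 4294967295))) (S M (L (X 2147483648 (A 1 (X c 1))) N)))) N) e) N) (L (X (L (X 171 a) N) (A (A (L (R D 1280) 4294967295) (X c (L (R D 25088) 4294967295))) (S M (L (X 2147483648 (A 1 (X c 1))) N)))) N)) 1) N) N))) (S M (L (L (X 1024 (A (L (X (A (L (X (A (L (R D 7904) 4294967295) (X c (L (R D 31712) 4294967295))) 1) N) (L (X (A (L (R D 7936) 4294967295) (X c (L (R D 31744) 4294967295))) a) N)) (A 0 (S M (L (L (X 12 1) N) N)))) N) (A (L (X (A (L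 (X (A (L (R D 8032) 4294967295) (X c (L (R D 31840) 4294967295))) 1) N) (L (X (A (L (R D 8064) 4294967295) (X c (L (R D 31872) 4294967295))) a) N)) 1) N) (L (X (A (L (X (A (L (R D 8160) 4294967295) (X c (L (R D 31968) 4294967295))) 1) N) (L (X (A (L (R D 8192) 4294967295) (X c (L (R D 32000) 4294967295))) a) N)) (A 0 (S M (L (L (X 12 1) N) N)))) N)))) N) N))), 49, 2, 1, 2, 1⟩,
  ⟨fun A S X L P R M N m a b c d e f g h D => (A (L (X (A (L (X 0 g) N) (S M (L (L (X (A (A (L (R D 1216) 4294967295) (X c (L (R D 25024) 4294967295))) (S M (L (X 2147483648 (A 1 (X c 1))) N))) 1) N) N))) e) N) (S M (L (A (L (X (A (L (X (A (L (R D 7968) 4294967295) (X c (L (R D 31776) 4294967295))) 1) N) (L (X (A (L (R D 8000) 4294967295) (X c (L (R D 31808) 4294967295))) a) N)) (A 0 (S M (L (L (X 12 1) N) N)))) N) (A (L (X (A (L (X (A (L (R D 8096) 4294967295) (X c (L (R D 31904) 4294967295))) 1) N) (L (X (A (L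 (R D 8128) 4294967295) (X c (L (R D 31936) 4294967295))) a) N)) (L (X 2 1) N)) N) (L (X (A (L (X (A (L (R D 8160) 4294967295) (X c (L (R D 31968) 4294967295))) 1) N) (L (X (A (L (R D 8192) 4294967295) (X c (L (R D 32000) 4294967295))) a) N)) (A 0 (S M (L (L (X 24 1) N) N)))) N))) N))), 40, 2, 1, 2, 1⟩,
  ⟨fun A S X L P R M N m a b c d e f g h D => (A (L (X (A (L (X 0 g) N) (S M (L (L (X (A (A (L (R D 1248) 4294967295) (X c (L (R D 25056) 4294967295))) (S M (L (X 2147483648 (A 1 (X c 1))) N))) 1) N) N))) e) N) (S M (L (A (L (X (A (L (X (A (L (R D 8032) 4294967295) (X c (L (R D 31840) 4294967295))) 1) N) (L (X (A (L (R D 8064) 4294967295) (X c (L (R D 31872) 4294967295))) a) N)) (A 0 (S M (L (L (X 12 1) N) N)))) N) (A (L (X (A (L (X (A (L (R D 8096) 4294967295) (X c (L (R D 31904) 4294967295))) 1) N) (L (X (A (L (R D 8128) 4294967295) (X c (L (R D 31936) 4294967295))) a) N)) (A 0 (S M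 (L (L (X 12 1) N) N)))) N) (L (X (A (L (X (A (L (R D 8160) 4294967295) (X c (L (R D 31968) 4294967295))) 1) N) (L (X (A (L (R D 8192) 4294967295) (X c (L (R D 32000) 4294967295))) a) N)) (L (X 144 1) N)) N))) N))), 42, 2, 1, 2, 1⟩,
  ⟨fun A S X L P R M N m a b c d e f g h D => (A (A (A (L (X (L (X 1024 (L (X (A (A (L (R D 736) 4294967295) (X c (L (R D 24544) 4294967295))) (S M (L (X 2147483648 (A 1 (X c 1))) N))) (A (L (X 853 e) N) (L (X 171 1) N))) N)) N) e) N) (L (X (A (A (L (R D 768) 4294967295) (X c (L (R D 24576) 4294967295))) (S M (L (X 2147483648 (A 1 (X c 1))) N))) (L (X (L (X 171 a) N) (A (L (X 853 e) N) (L (X 171 1) N))) N)) N)) (S M (L (L (X (L (X 1024 (L (X (A (A (L (R D 4064) 4294967295) (X c (L (R D 27872) 4294967295))) (S M (L (X 2147483648 (A 1 (X c 1))) N))) (A (L (X 853 e) N) (L (X 171 1) N))) N)) N) e) N) N))) (S M (L (L (X 1024 (A (L (X (A (L (X (A (L (R D 8224) 4294967295)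 (X c (L (R D 32032) 4294967295))) 1) N) (L (X (A (L (R D 8256) 4294967295) (X c (L (R D 32064) 4294967295))) a) N)) (L (X 2 (A (L (X 853 e) N) (L (X 171 1) N))) N)) N) (A (L (X (A (L (X (A (L (R D 8288) 4294967295) (X c (L (R D 32096) 4294967295))) 1) N) (L (X (A (L (R D 8320) 4294967295) (X c (L (R D 32128) 4294967295))) a) N)) (A (L (X 853 e) N) (L (X 171 1) N))) N) (L (X (A (L (X (A (L (R D 8480) 4294967295) (X c (L (R D 32288) 4294967295))) 1) N) (L (X (A (L (R D 8512) 4294967295) (X c (L (R D 32320) 4294967295))) a) N)) (L (X 2 (A (L (X 853 e) N) (L (X 171 1) N))) N)) N)))) N) N))), 58, 3, 1, 2, 1⟩,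
  ⟨fun A S X L P R M N m a b c d e f g h D => (A (A (L (X (A (L (X (L (X 1024 (A (A (L (R D 800) 4294967295) (X c (L (R D 24608) 4294967295))) (S M (L (X 2147483648 (A 1 (X c 1))) N)))) N) e) N) (L (X (L (X 171 a) N) (A (A (L (R D 896) 4294967295) (X c (L (R D 24704) 4294967295))) (S M (L (X 2147483648 (A 1 (X c 1))) N)))) N)) 1) N) (S M (L (L (X (L (X 1024 (L (X (A (A (L (R D 4096) 4294967295) (X c (L (R D 27904) 4294967295))) (S M (L (X 2147483648 (A 1 (X c 1))) N))) 1) N)) N) e) N) N))) (S M (L (L (X 1024 (A (L (X (A (L (X (A (L (R D 8224) 4294967295) (X c (L (R D 32032) 4294967295))) 1) N) (L (X (A (L (R D 8256) 4294967295) (X c (L (R D 32064) 4294967295))) a) N)) (A 0 (S M (L (L (X 12 1) N) N)))) N) (A (L (X (A (L (X (A (L (R D 8352) 4294967295) (X c (L (R D 32160) 4294967295))) 1) N) (L (X (A (L (R D 8384) 4294967295) (X c (L (R D 32192) 4294967295))) a) N)) 1) N) (L (X (A (L (X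 (A (L (R D 8480) 4294967295) (X c (L (R D 32288) 4294967295))) 1) N) (L (X (A (L (R D 8512) 4294967295) (X c (L (R D 32320) 4294967295))) a) N)) (A 0 (S M (L (L (X 12 1) N) N)))) N)))) N) N))), 49, 2, 1, 2, 1⟩,
  ⟨fun A S X L P R M N m a b c d e f g h D => (A (L (X (A (L (X (A (A (L (R D 832) 4294967295) (X c (L (R D 24640) 4294967295))) (S M (L (X 2147483648 (A 1 (X c 1))) N))) 1) N) (S M (L (L (X (A (A (L (R D 4128) 4294967295) (X c (L (R D 27936) 4294967295))) (S M (L (X 2147483648 (A 1 (X c 1))) N))) 1) N) N))) e) N) (S M (L (A (L (X (A (L (X (A (L (R D 8288) 4294967295) (X c (L (R D 32096) 4294967295))) 1) N) (L (X (A (L (R D 8320) 4294967295) (X c (L (R D 32128) 4294967295))) a) N)) (A 0 (S M (L (L (X 12 1) N) N)))) N) (A (L (X (A (L (X (A (L (R D 8416) 4294967295) (X c (L (R D 32224) 4294967295))) 1) N) (L (X (A (L (R D 8448) 4294967295) (X c (L (R D 32256) 4294967295))) a) N))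 (L (X 2 1) N)) N) (L (X (A (L (X (A (L (R D 8480) 4294967295) (X c (L (R D 32288) 4294967295))) 1) N) (L (X (A (L (R D 8512) 4294967295) (X c (L (R D 32320) 4294967295))) a) N)) (A 0 (S M (L (L (X 24 1) N) N)))) N))) N))), 40, 2, 1, 2, 1⟩,
  ⟨fun A S X L P R M N m a b c d e f g h D => (A (L (X (A (L (X (A (A (L (R D 864) 4294967295) (X c (L (R D 24672) 4294967295))) (S M (L (X 2147483648 (A 1 (X c 1))) N))) 1) N) (S M (L (L (X (A (A (L (R D 4160) 4294967295) (X c (L (R D 27968) 4294967295))) (S M (L (X 2147483648 (A 1 (X c 1))) N))) 1) N) N))) e) N) (S M (L (A (L (X (A (L (X (A (L (R D 8352) 4294967295) (X c (L (R D 32160) 4294967295))) 1) N) (L (X (A (L (R D 8384) 4294967295) (X c (L (R D 32192) 4294967295))) a) N)) (A 0 (S M (L (L (X 12 1) N) N)))) N) (A (L (X (A (L (X (A (L (R D 8416) 4294967295) (X c (L (R D 32224) 4294967295))) 1) N) (L (X (A (L (R D 8448) 4294967295) (X c (L (R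 D 32256) 4294967295))) a) N)) (A 0 (S M (L (L (X 12 1) N) N)))) N) (L (X (A (L (X (A (L (R D 8480) 4294967295) (X c (L (R D 32288) 4294967295))) 1) N) (L (X (A (L (R D 8512) 4294967295) (X c (L (R D 32320) 4294967295))) a) N)) (L (X 144 1) N)) N))) N))), 42, 2, 1, 2, 1⟩,
  ⟨fun A S X L P R M N m a b c d e f g h D => (A (A (A (L (X (L (X 1024 (L (X (A (A (L (R D 544) 4294967295) (X c (L (R D 24352) 4294967295))) (S M (L (X 2147483648 (A 1 (X c 1))) N))) (A (L (X 853 e) N) (L (X 171 1) N))) N)) N) e) N) (L (X (A (A (L (R D 576) 4294967295) (X c (L (R D 24384) 4294967295))) (S M (L (X 2147483648 (A 1 (X c 1))) N))) (L (X (L (X 171 a) N) (A (L (X 853 e) N) (L (X 171 1) N))) N)) N)) (S M (L (L (X (L (X 1024 (L (X (A (A (L (R D 4192) 4294967295) (X c (L (R D 28000) 4294967295))) (S M (L (X 2147483648 (A 1 (X c 1))) N))) (A (L (X 853 e) N) (L (X 171 1) N))) N)) N) e) N) N))) (S M (L (L (X 1024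 (A (L (X (A (L (X (A (L (R D 8544) 4294967295) (X c (L (R D 32352) 4294967295))) 1) N) (L (X (A (L (R D 8576) 4294967295) (X c (L (R D 32384) 4294967295))) a) N)) (L (X 2 (A (L (X 853 e) N) (L (X 171 1) N))) N)) N) (A (L (X (A (L (X (A (L (R D 8608) 4294967295) (X c (L (R D 32416) 4294967295))) 1) N) (L (X (A (L (R D 8640) 4294967295) (X c (L (R D 32448) 4294967295))) a) N)) (A (L (X 853 e) N) (L (X 171 1) N))) N) (L (X (A (L (X (A (L (R D 8800) 4294967295) (X c (L (R D 32608) 4294967295))) 1) N) (L (X (A (L (R D 8832) 4294967295) (X c (L (R D 32640) 4294967295))) a) N)) (L (X 2 (A (L (X 853 e) N) (L (X 171 1) N))) N)) N)))) N) N))), 58, 3, 1, 2, 1⟩,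
  ⟨fun A S X L P R M N m a b c d e f g h D => (A (A (L (X (A (L (X (L (X 1024 (A (A (L (R D 608) 4294967295) (X c (L (R D 24416) 4294967295))) (S M (L (X 2147483648 (A 1 (X c 1))) N)))) N) e) N) (L (X (L (X 171 a) N) (A (A (L (R D 704) 4294967295) (X c (L (R D 24512) 4294967295))) (S M (L (X 2147483648 (A 1 (X c 1))) N)))) N)) 1) N) (S M (L (L (X (L (X 1024 (L (X (A (A (L (R D 4224) 4294967295) (X c (L (R D 28032) 4294967295))) (S M (L (X 2147483648 (A 1 (X c 1))) N))) 1) N)) N) e) N) N))) (S M (L (L (X 1024 (A (L (X (A (L (X (A (L (R D 8544) 4294967295) (X c (L (R D 32352) 4294967295))) 1) N) (L (X (A (L (R D 8576) 4294967295) (X c (L (R D 32384) 4294967295))) a) N)) (A 0 (S M (L (L (X 12 1) N) N)))) N) (A (L (X (A (L (X (A (L (R D 8672) 4294967295) (X c (L (R D 32480) 4294967295))) 1) N) (L (X (A (L (R D 8704) 4294967295) (X c (L (R D 32512) 4294967295))) a) N)) 1) N) (L (X (A (L (X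 (A (L (R D 8800) 4294967295) (X c (L (R D 32608) 4294967295))) 1) N) (L (X (A (L (R D 8832) 4294967295) (X c (L (R D 32640) 4294967295))) a) N)) (A 0 (S M (L (L (X 12 1) N) N)))) N)))) N) N))), 49, 2, 1, 2, 1⟩,
  ⟨fun A S X L P R M N m a b c d e f g h D => (A (L (X (A (L (X (A (A (L (R D 640) 4294967295) (X c (L (R D 24448) 4294967295))) (S M (L (X 2147483648 (A 1 (X c 1))) N))) 1) N) (S M (L (L (X (A (A (L (R D 4256) 4294967295) (X c (L (R D 28064) 4294967295))) (S M (L (X 2147483648 (A 1 (X c 1))) N))) 1) N) N))) e) N) (S M (L (A (L (X (A (L (X (A (L (R D 8608) 4294967295) (X c (L (R D 32416) 4294967295))) 1) N) (L (X (A (L (R D 8640) 4294967295) (X c (L (R D 32448) 4294967295))) a) N)) (A 0 (S M (L (L (X 12 1) N) N)))) N) (A (L (X (A (L (X (A (L (R D 8736) 4294967295) (X c (L (R D 32544) 4294967295))) 1) N) (L (X (A (L (R D 8768) 4294967295) (X c (L (R D 32576) 4294967295))) a) N))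 (L (X 2 1) N)) N) (L (X (A (L (X (A (L (R D 8800) 4294967295) (X c (L (R D 32608) 4294967295))) 1) N) (L (X (A (L (R D 8832) 4294967295) (X c (L (R D 32640) 4294967295))) a) N)) (A 0 (S M (L (L (X 24 1) N) N)))) N))) N))), 40, 2, 1, 2, 1⟩,
  ⟨fun A S X L P R M N m a b c d e f g h D => (A (L (X (A (L (X (A (A (L (R D 672) 4294967295) (X c (L (R D 24480) 4294967295))) (S M (L (X 2147483648 (A 1 (X c 1))) N))) 1) N) (S M (L (L (X (A (A (L (R D 4288) 4294967295) (X c (L (R D 28096) 4294967295))) (S M (L (X 2147483648 (A 1 (X c 1))) N))) 1) N) N))) e) N) (S M (L (A (L (X (A (L (X (A (L (R D 8672) 4294967295) (X c (L (R D 32480) 4294967295))) 1) N) (L (X (A (L (R D 8704) 4294967295) (X c (L (R D 32512) 4294967295))) a) N)) (A 0 (S M (L (L (X 12 1) N) N)))) N) (A (L (X (A (L (X (A (L (R D 8736) 4294967295) (X c (L (R D 32544) 4294967295))) 1) N) (L (X (A (L (R D 8768) 4294967295) (X c (L (R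 D 32576) 4294967295))) a) N)) (A 0 (S M (L (L (X 12 1) N) N)))) N) (L (X (A (L (X (A (L (R D 8800) 4294967295) (X c (L (R D 32608) 4294967295))) 1) N) (L (X (A (L (R D 8832) 4294967295) (X c (L (R D 32640) 4294967295))) a) N)) (L (X 144 1) N)) N))) N))), 42, 2, 1, 2, 1⟩,
  ⟨fun A S X L P R M N m a b c d e f g h D => (A (A (L (X 1048576 (A (L (X 1 (A (L (R D 1312) 4294967295) (X a (A (L (R D 1344) 4294967295) (X a (L (R D 1376) 4294967295)))))) N) (L (X c (A (L (R D 25120) 4294967295) (X a (A (L (R D 25152) 4294967295) (X a (L (R D 25184) 4294967295)))))) N))) N) (S M (L (A (L (X (L (X 1024 (L (X (A (A (L (R D 1120) 4294967295) (X c (L (R D 24928) 4294967295))) (S M (L (X 2147483648 (A 1 (X c 1))) N))) (A (L (X 853 e) N) (L (X 171 1) N))) N)) N) e) N) (L (X (A (A (L (R D 1152) 4294967295) (X c (L (R D 24960) 4294967295))) (S M (L (X 2147483648 (A 1 (X c 1))) N))) (L (X (L (X 171 a) N)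 (A (L (X 853 e) N) (L (X 171 1) N))) N)) N)) N))) (S M (L (L (X 1024 (A (L (X (A (L (X (A (L (R D 21408) 4294967295) (X c (L (R D 45216) 4294967295))) 1) N) (L (X (A (L (R D 21440) 4294967295) (X c (L (R D 45248) 4294967295))) a) N)) (L (X 2 (A (L (X 853 e) N) (L (X 171 1) N))) N)) N) (A (L (X (A (L (X (A (L (R D 21472) 4294967295) (X c (L (R D 45280) 4294967295))) 1) N) (L (X (A (L (R D 21504) 4294967295) (X c (L (R D 45312) 4294967295))) a) N)) (A (L (X 853 e) N) (L (X 171 1) N))) N) (L (X (A (L (X (A (L (R D 21664) 4294967295) (X c (L (R D 45472) 4294967295))) 1) N) (L (X (A (L (R D 21696) 4294967295) (X c (L (R D 45504) 4294967295))) a) N)) (L (X 2 (A (L (X 853 e) N) (L (X 171 1) N))) N)) N)))) N) N))), 58, 3, 1, 2, 1⟩,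
  ⟨fun A S X L P R M N m a b c d e f g h D => (A (A (L (X (L (X 0 e) N) g) N) (S M (L (L (X (A (L (X (L (X 1024 (A (A (L (R D 1184) 4294967295) (X c (L (R D 24992) 4294967295))) (S M (L (X 2147483648 (A 1 (X c 1))) N)))) N) e) N) (L (X (L (X 171 a) N) (A (A (L (R D 1280) 4294967295) (X c (L (R D 25088) 4294967295))) (S M (L (X 2147483648 (A 1 (X c 1))) N)))) N)) 1) N) N))) (S M (L (L (X 1024 (A (L (X (A (L (X (A (L (R D 21408) 4294967295) (X c (L (R D 45216) 4294967295))) 1) N) (L (X (A (L (R D 21440) 4294967295) (X c (L (R D 45248) 4294967295))) a) N)) (A 0 (S M (L (L (X 12 1) N) N)))) N) (A (L (X (A (L (X (A (L (R D 21536) 4294967295) (X c (L (R D 45344) 4294967295))) 1) N) (L (X (A (L (R D 21568) 4294967295) (X c (L (R D 45376) 4294967295))) a) N)) 1) N) (L (X (A (L (X (A (L (R D 21664) 4294967295) (X c (L (R D 45472) 4294967295))) 1) N) (L (X (A (L (R D 21696) 4294967295) (X c (L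 (R D 45504) 4294967295))) a) N)) (A 0 (S M (L (L (X 12 1) N) N)))) N)))) N) N))), 49, 2, 1, 2, 1⟩,
  ⟨fun A S X L P R M N m a b c d e f g h D => (A (L (X (A (L (X 0 g) N) (S M (L (L (X (A (A (L (R D 1216) 4294967295) (X c (L (R D 25024) 4294967295))) (S M (L (X 2147483648 (A 1 (X c 1))) N))) 1) N) N))) e) N) (S M (L (A (L (X (A (L (X (A (L (R D 21472) 4294967295) (X c (L (R D 45280) 4294967295))) 1) N) (L (X (A (L (R D 21504) 4294967295) (X c (L (R D 45312) 4294967295))) a) N)) (A 0 (S M (L (L (X 12 1) N) N)))) N) (A (L (X (A (L (X (A (L (R D 21600) 4294967295) (X c (L (R D 45408) 4294967295))) 1) N) (L (X (A (L (R D 21632) 4294967295) (X c (L (R D 45440) 4294967295))) a) N)) (L (X 2 1) N)) N) (L (X (A (L (X (A (L (R D 21664) 4294967295) (X c (L (R D 45472) 4294967295))) 1) N) (L (X (A (L (R D 21696) 4294967295) (X c (L (R D 45504) 4294967295))) a) N)) (A 0 (S M (L (L (X 24 1) N) N))))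 N))) N))), 40, 2, 1, 2, 1⟩,
  ⟨fun A S X L P R M N m a b c d e f g h D => (A (L (X (A (L (X 0 g) N) (S M (L (L (X (A (A (L (R D 1248) 4294967295) (X c (L (R D 25056) 4294967295))) (S M (L (X 2147483648 (A 1 (X c 1))) N))) 1) N) N))) e) N) (S M (L (A (L (X (A (L (X (A (L (R D 21536) 4294967295) (X c (L (R D 45344) 4294967295))) 1) N) (L (X (A (L (R D 21568) 4294967295) (X c (L (R D 45376) 4294967295))) a) N)) (A 0 (S M (L (L (X 12 1) N) N)))) N) (A (L (X (A (L (X (A (L (R D 21600) 4294967295) (X c (L (R D 45408) 4294967295))) 1) N) (L (X (A (L (R D 21632) 4294967295) (X c (L (R D 45440) 4294967295))) a) N)) (A 0 (S M (L (L (X 12 1) N) N)))) N) (L (X (A (L (X (A (L (R D 21664) 4294967295) (X c (L (R D 45472) 4294967295))) 1) N) (L (X (A (L (R D 21696) 4294967295) (X c (L (R D 45504) 4294967295))) a) N)) (L (X 144 1) N)) N))) N))), 42, 2, 1, 2, 1⟩,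
  ⟨fun A S X L P R M N m a b c d e f g h D => (A (A (L (X (L (X 1024 (L (X (A (A (L (R D 1120) 4294967295) (X c (L (R D 24928) 4294967295))) (S M (L (X 2147483648 (A 1 (X c 1))) N))) (A (L (X 853 e) N) (L (X 171 1) N))) N)) N) e) N) (L (X (A (A (L (R D 1152) 4294967295) (X c (L (R D 24960) 4294967295))) (S M (L (X 2147483648 (A 1 (X c 1))) N))) (L (X (L (X 171 a) N) (A (L (X 853 e) N) (L (X 171 1) N))) N)) N)) (S M (L (L (X 1024 (A (L (X (A (L (X (A (L (R D 21728) 4294967295) (X c (L (R D 45536) 4294967295))) 1) N) (L (X (A (L (R D 21760) 4294967295) (X c (L (R D 45568) 4294967295))) a) N)) (L (X 2 (A (L (X 853 e) N) (L (X 171 1) N))) N)) N) (A (L (X (A (L (X (A (L (R D 21792) 4294967295) (X c (L (R D 45600) 4294967295))) 1) N) (L (X (A (L (R D 21824) 4294967295) (X c (L (R D 45632) 4294967295))) a) N)) (A (L (X 853 e) N) (L (X 171 1) N))) N) (L (X (A (L (X (A (L (R D 21984) 4294967295)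 (X c (L (R D 45792) 4294967295))) 1) N) (L (X (A (L (R D 22016) 4294967295) (X c (L (R D 45824) 4294967295))) a) N)) (L (X 2 (A (L (X 853 e) N) (L (X 171 1) N))) N)) N)))) N) N))), 58, 3, 1, 2, 1⟩]

end Pool.Agent.RZ.RCO.SAL
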