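import Pool.Agent.RZ.RCO.SAdE
import Pool.Agent.RZ.RCO.SAs
import Pool.Agent.RZ.RCO.SAsdE_1

/-! Tables (MP_73ccd0_lc). -/

set_option autoImplicit false
set_option maxRecDepth 100000

open Pool.Agent.RZ.RCO Pool.Agent.RZ.RCO.Sg

namespace Pool.Agent.RZ.RCO.SAs16

theorem okE : SAs.x.okE D 24 = true := by decide +kernel
theorem okH : SAs.xh.okE D 24 = true := by decide +kernel
theorem sok : sOk SA.x0 SA16.D SAs.s0 D 24 = true := by decide +kernel

end Pool.Agent.RZ.RCO.SAs16

namespace Pool.Agent.RZ.RCO.SAs17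

theorem okE : SAs.x.okE D 24 = true := by decide +kernel
theorem okH : SAs.xh.okE D 24 = true := by decide +kernel
theorem sok : sOk SA.x0 SA17.D SAs.s0 D 24 = true := by decide +kernel

end Pool.Agent.RZ.RCO.SAs17

namespace Pool.Agent.RZ.RCO.SAs18

theorem okE : SAs.x.okE D 24 = true := by decide +kernel
theorem okH : SAs.xh.okE D 24 = true := by decide +kernel
theorem sok : sOk SA.x0 SA18.D SAs.s0 D 24 = true := by decide +kernel

end Pool.Agent.RZ.RCO.SAs18

namespace Pool.Agent.RZ.RCO.SAs19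

theorem okE : SAs.x.okE D 24 = true := by decide +kernel
theorem okH : SAs.xh.okE D 24 = true := by decide +kernel
theorem sok : sOk SA.x0 SA19.D SAs.s0 D 24 = true := by decide +kernel

end Pool.Agent.RZ.RCO.SAs19
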