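import Pool.Agent.RZ.RCO.Gk13
import Pool.Agent.RZ.RCO.SBk
import Pool.Agent.RZ.RCO.SBkLt0_1

/-! Types of a sheet, piece 0 (MP_73ccd0_lc). -/

set_option autoImplicit false
set_option maxRecDepth 100000
set_option linter.all false

namespace Pool.Agent.RZ.RCO.SBkL

open Sg

theorem p0 : Pce Pool.Agent.RZ.RCO.SBk.sh 1200 150 0 (t0, f0) :=
  ⟨by decide +kernel, rfl, by decide +kernel⟩

end Pool.Agent.RZ.RCO.SBkL
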