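import Pool.Agent.RZ.RCO.Sg5

/-! Types of a sheet, piece 0 (MP_73ccd0_lc). -/

set_option autoImplicit false
set_option maxRecDepth 100000
set_option linter.all false

namespace Pool.Agent.RZ.RCO.SBrL

open Sg

noncomputable def t0 : List Ty :=
 [⟨(.sub (.mul (.mul (.mul (.mul (.c 16777216) (.mul (.mul (.c 86) (.v 1)) (.add (.mul (.c 1024) (.add (.mul (.add (.mul (.mul (.c 1024) (.s 2 34 632 2)) (.w 0 1)) (.mul (.s 2 35 632 2) (.mul (.c 171) (.v 0)))) (.w 1 1)) (.mul (.mul (.s 2 36 632 2) (.mul (.c 86) (.v 1))) (.w 0 1)))) (.mul (.s 2 37 632 2) (.mul (.mul (.c 86) (.v 1)) (.mul (.c 171) (.v 0))))))) (.w 0 1)) (.w 1 1)) (.w 2 1)) (.mul (.mul (.mul (.c 86) (.v 1)) (.add (.mul (.mul (.c 1048576) (.r 2 1 632 2)) (.w 1 2)) (.mul (.mul (.c 86) (.v 1)) (.add (.mul (.mul (.c 1024) (.r 2 2 632 2)) (.w 1 1)) (.mul (.mul (.c 86) (.v 1)) (.r 2 3 632 2)))))) (.add (.mul (.q 2) (.r 0 4 1 3)) (.mul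 (.v 2) (.r 0 636 1 3))))), 97, 3, 4, 3, 1⟩,
  ⟨(.sub (.sub (.mul (.mul (.mul (.mul (.c 295147905179352825856) (.mul (.mul (.c 86) (.v 1)) (.add (.mul (.c 1024) (.add (.mul (.add (.mul (.mul (.c 1024) (.s 2 119 632 2)) (.w 0 1)) (.mul (.s 2 120 632 2) (.mul (.c 171) (.v 0)))) (.w 1 1)) (.mul (.mul (.s 2 121 632 2) (.mul (.c 86) (.v 1))) (.w 0 1)))) (.mul (.s 2 122 632 2) (.mul (.mul (.c 86) (.v 1)) (.mul (.c 171) (.v 0))))))) (.w 0 3)) (.w 1 2)) (.w 2 2)) (.mul (.mul (.mul (.c 86) (.v 1)) (.add (.mul (.mul (.c 1048576) (.r 2 1 632 2)) (.w 1 2)) (.mul (.mul (.c 86) (.v 1)) (.add (.mul (.mul (.c 1024) (.r 2 2 632 2)) (.w 1 1)) (.mul (.mul (.c 86) (.v 1)) (.r 2 3 632 2)))))) (.mul (.add (.mul (.q 2) (.r 0 4 1 3)) (.mul (.v 2) (.r 0 636 1 3))) (.add (.mul (.mul (.c 1024) (.mul (.s 2 97 632 2) (.add (.mul (.mul (.c 767) (.w 0 1)) (.w 1 1)) (.add (.mul (.mul (.c 171) (.q 0)) (.w 1 1)) (.mul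 (.mul (.c 86) (.q 1)) (.w 0 1)))))) (.w 0 1)) (.mul (.s 2 98 632 2) (.mul (.mul (.c 171) (.v 0)) (.add (.mul (.mul (.c 767) (.w 0 1)) (.w 1 1)) (.add (.mul (.mul (.c 171) (.q 0)) (.w 1 1)) (.mul (.mul (.c 86) (.q 1)) (.w 0 1)))))))))) (.mul (.mul (.mul (.c 17179869184) (.add (.mul (.mul (.r 2 179 632 2) (.mul (.mul (.c 86) (.v 1)) (.add (.mul (.mul (.c 1048576) (.r 2 1 632 2)) (.w 1 2)) (.mul (.mul (.c 86) (.v 1)) (.add (.mul (.mul (.c 1024) (.r 2 2 632 2)) (.w 1 1)) (.mul (.mul (.c 86) (.v 1)) (.r 2 3 632 2))))))) (.mul (.c 2) (.add (.mul (.mul (.c 767) (.w 0 1)) (.w 1 1)) (.add (.mul (.mul (.c 171) (.q 0)) (.w 1 1)) (.mul (.mul (.c 86) (.q 1)) (.w 0 1)))))) (.add (.mul (.mul (.r 2 180 632 2) (.mul (.mul (.c 86) (.v 1)) (.add (.mul (.mul (.c 1048576) (.r 2 1 632 2)) (.w 1 2)) (.mul (.mul (.c 86) (.v 1)) (.add (.mul (.mul (.c 1024) (.r 2 2 632 2)) (.w 1 1)) (.mul (.mul (.c 86) (.v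 1)) (.r 2 3 632 2))))))) (.add (.mul (.mul (.c 767) (.w 0 1)) (.w 1 1)) (.add (.mul (.mul (.c 171) (.q 0)) (.w 1 1)) (.mul (.mul (.c 86) (.q 1)) (.w 0 1))))) (.mul (.mul (.r 2 183 632 2) (.mul (.mul (.c 86) (.v 1)) (.add (.mul (.mul (.c 1048576) (.r 2 1 632 2)) (.w 1 2)) (.mul (.mul (.c 86) (.v 1)) (.add (.mul (.mul (.c 1024) (.r 2 2 632 2)) (.w 1 1)) (.mul (.mul (.c 86) (.v 1)) (.r 2 3 632 2))))))) (.mul (.c 2) (.add (.mul (.mul (.c 767) (.w 0 1)) (.w 1 1)) (.add (.mul (.mul (.c 171) (.q 0)) (.w 1 1)) (.mul (.mul (.c 86) (.q 1)) (.w 0 1))))))))) (.w 0 3)) (.w 2 1))), 153, 5, 5, 4, 1⟩,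
  ⟨(.sub (.sub (.mul (.mul (.mul (.c 0) (.w 0 3)) (.w 1 3)) (.w 2 3)) (.mul (.mul (.mul (.c 86) (.v 1)) (.add (.mul (.mul (.c 1048576) (.r 2 1 632 2)) (.w 1 2)) (.mul (.mul (.c 86) (.v 1)) (.add (.mul (.mul (.c 1024) (.r 2 2 632 2)) (.w 1 1)) (.mul (.mul (.c 86) (.v 1)) (.r 2 3 632 2)))))) (.mul (.add (.mul (.q 2) (.r 0 4 1 3)) (.mul (.v 2) (.r 0 636 1 3))) (.mul (.add (.mul (.mul (.c 1024) (.s 2 99 632 2)) (.w 0 1)) (.mul (.mul (.c 171) (.v 0)) (.s 2 102 632 2))) (.c 1))))) (.mul (.mul (.mul (.c 17179869184) (.add (.mul (.mul (.r 2 179 632 2) (.mul (.mul (.c 86) (.v 1)) (.add (.mul (.mul (.c 1048576) (.r 2 1 632 2)) (.w 1 2)) (.mul (.mul (.c 86) (.v 1)) (.add (.mul (.mul (.c 1024) (.r 2 2 632 2)) (.w 1 1)) (.mul (.mul (.c 86) (.v 1)) (.r 2 3 632 2))))))) (.sub (.c 0) (.mul (.c 12) (.c 1)))) (.add (.mul (.mul (.r 2 181 632 2) (.mul (.mul (.c 86) (.v 1)) (.add (.mul (.mul (.c 1048576)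 (.r 2 1 632 2)) (.w 1 2)) (.mul (.mul (.c 86) (.v 1)) (.add (.mul (.mul (.c 1024) (.r 2 2 632 2)) (.w 1 1)) (.mul (.mul (.c 86) (.v 1)) (.r 2 3 632 2))))))) (.c 1)) (.mul (.mul (.r 2 183 632 2) (.mul (.mul (.c 86) (.v 1)) (.add (.mul (.mul (.c 1048576) (.r 2 1 632 2)) (.w 1 2)) (.mul (.mul (.c 86) (.v 1)) (.add (.mul (.mul (.c 1024) (.r 2 2 632 2)) (.w 1 1)) (.mul (.mul (.c 86) (.v 1)) (.r 2 3 632 2))))))) (.sub (.c 0) (.mul (.c 12) (.c 1))))))) (.w 0 3)) (.w 2 1))), 141, 4, 4, 4, 1⟩,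
  ⟨(.sub (.sub (.mul (.mul (.mul (.c 0) (.w 0 2)) (.w 1 3)) (.w 2 3)) (.mul (.mul (.mul (.c 86) (.v 1)) (.add (.mul (.mul (.c 1048576) (.r 2 1 632 2)) (.w 1 2)) (.mul (.mul (.c 86) (.v 1)) (.add (.mul (.mul (.c 1024) (.r 2 2 632 2)) (.w 1 1)) (.mul (.mul (.c 86) (.v 1)) (.r 2 3 632 2)))))) (.mul (.add (.mul (.q 2) (.r 0 4 1 3)) (.mul (.v 2) (.r 0 636 1 3))) (.mul (.s 2 100 632 2) (.c 1))))) (.mul (.mul (.mul (.c 16777216) (.add (.mul (.mul (.r 2 180 632 2) (.mul (.mul (.c 86) (.v 1)) (.add (.mul (.mul (.c 1048576) (.r 2 1 632 2)) (.w 1 2)) (.mul (.mul (.c 86) (.v 1)) (.add (.mul (.mul (.c 1024) (.r 2 2 632 2)) (.w 1 1)) (.mul (.mul (.c 86) (.v 1)) (.r 2 3 632 2))))))) (.sub (.c 0) (.mul (.c 12) (.c 1)))) (.add (.mul (.mul (.r 2 182 632 2) (.mul (.mul (.c 86) (.v 1)) (.add (.mul (.mul (.c 1048576) (.r 2 1 632 2)) (.w 1 2)) (.mul (.mul (.c 86) (.v 1)) (.add (.mul (.mul (.c 1024) (.r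 2 2 632 2)) (.w 1 1)) (.mul (.mul (.c 86) (.v 1)) (.r 2 3 632 2))))))) (.mul (.c 2) (.c 1))) (.mul (.mul (.r 2 183 632 2) (.mul (.mul (.c 86) (.v 1)) (.add (.mul (.mul (.c 1048576) (.r 2 1 632 2)) (.w 1 2)) (.mul (.mul (.c 86) (.v 1)) (.add (.mul (.mul (.c 1024) (.r 2 2 632 2)) (.w 1 1)) (.mul (.mul (.c 86) (.v 1)) (.r 2 3 632 2))))))) (.sub (.c 0) (.mul (.c 24) (.c 1))))))) (.w 0 2)) (.w 2 1))), 130, 3, 4, 4, 1⟩,
  ⟨(.sub (.sub (.mul (.mul (.mul (.c 0) (.w 0 2)) (.w 1 3)) (.w 2 3)) (.mul (.mul (.mul (.c 86) (.v 1)) (.add (.mul (.mul (.c 1048576) (.r 2 1 632 2)) (.w 1 2)) (.mul (.mul (.c 86) (.v 1)) (.add (.mul (.mul (.c 1024) (.r 2 2 632 2)) (.w 1 1)) (.mul (.mul (.c 86) (.v 1)) (.r 2 3 632 2)))))) (.mul (.add (.mul (.q 2) (.r 0 4 1 3)) (.mul (.v 2) (.r 0 636 1 3))) (.mul (.s 2 101 632 2) (.c 1))))) (.mul (.mul (.mul (.c 16777216) (.add (.mul (.mul (.r 2 181 632 2) (.mul (.mul (.c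 86) (.v 1)) (.add (.mul (.mul (.c 1048576) (.r 2 1 632 2)) (.w 1 2)) (.mul (.mul (.c 86) (.v 1)) (.add (.mul (.mul (.c 1024) (.r 2 2 632 2)) (.w 1 1)) (.mul (.mul (.c 86) (.v 1)) (.r 2 3 632 2))))))) (.sub (.c 0) (.mul (.c 12) (.c 1)))) (.add (.mul (.mul (.r 2 182 632 2) (.mul (.mul (.c 86) (.v 1)) (.add (.mul (.mul (.c 1048576) (.r 2 1 632 2)) (.w 1 2)) (.mul (.mul (.c 86) (.v 1)) (.add (.mul (.mul (.c 1024) (.r 2 2 632 2)) (.w 1 1)) (.mul (.mul (.c 86) (.v 1)) (.r 2 3 632 2))))))) (.sub (.c 0) (.mul (.c 12) (.c 1)))) (.mul (.mul (.r 2 183 632 2) (.mul (.mul (.c 86) (.v 1)) (.add (.mul (.mul (.c 1048576) (.r 2 1 632 2)) (.w 1 2)) (.mul (.mul (.c 86) (.v 1)) (.add (.mul (.mul (.c 1024) (.r 2 2 632 2)) (.w 1 1)) (.mul (.mul (.c 86) (.v 1)) (.r 2 3 632 2))))))) (.mul (.c 144) (.c 1)))))) (.w 0 2)) (.w 2 1))), 130, 3, 4, 4, 1⟩,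
  ⟨(.sub (.sub (.mul (.mul (.mul (.mul (.c 295147905179352825856) (.mul (.mul (.c 86) (.v 1)) (.add (.mul (.c 1024) (.add (.mul (.add (.mul (.mul (.c 1024) (.s 2 123 632 2)) (.w 0 1)) (.mul (.s 2 124 632 2) (.mul (.c 171) (.v 0)))) (.w 1 1)) (.mul (.mul (.s 2 125 632 2) (.mul (.c 86) (.v 1))) (.w 0 1)))) (.mul (.s 2 126 632 2) (.mul (.mul (.c 86) (.v 1)) (.mul (.c 171) (.v 0))))))) (.w 0 3)) (.w 1 2)) (.w 2 2)) (.mul (.mul (.mul (.c 86) (.v 1)) (.add (.mul (.mul (.c 1048576) (.r 2 1 632 2)) (.w 1 2)) (.mul (.mul (.c 86) (.v 1)) (.add (.mul (.mul (.c 1024) (.r 2 2 632 2)) (.w 1 1)) (.mul (.mul (.c 86) (.v 1)) (.r 2 3 632 2)))))) (.mul (.add (.mul (.q 2) (.r 0 4 1 3)) (.mul (.v 2) (.r 0 636 1 3))) (.add (.mul (.mul (.c 1024) (.mul (.s 2 103 632 2) (.add (.mul (.mul (.c 767) (.w 0 1)) (.w 1 1)) (.add (.mul (.mul (.c 171) (.q 0)) (.w 1 1)) (.mul (.mul (.c 86) (.q 1)) (.w 0 1)))))) (.w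 0 1)) (.mul (.s 2 104 632 2) (.mul (.mul (.c 171) (.v 0)) (.add (.mul (.mul (.c 767) (.w 0 1)) (.w 1 1)) (.add (.mul (.mul (.c 171) (.q 0)) (.w 1 1)) (.mul (.mul (.c 86) (.q 1)) (.w 0 1)))))))))) (.mul (.mul (.mul (.c 17179869184) (.add (.mul (.mul (.r 2 184 632 2) (.mul (.mul (.c 86) (.v 1)) (.add (.mul (.mul (.c 1048576) (.r 2 1 632 2)) (.w 1 2)) (.mul (.mul (.c 86) (.v 1)) (.add (.mul (.mul (.c 1024) (.r 2 2 632 2)) (.w 1 1)) (.mul (.mul (.c 86) (.v 1)) (.r 2 3 632 2))))))) (.mul (.c 2) (.add (.mul (.mul (.c 767) (.w 0 1)) (.w 1 1)) (.add (.mul (.mul (.c 171) (.q 0)) (.w 1 1)) (.mul (.mul (.c 86) (.q 1)) (.w 0 1)))))) (.add (.mul (.mul (.r 2 185 632 2) (.mul (.mul (.c 86) (.v 1)) (.add (.mul (.mul (.c 1048576) (.r 2 1 632 2)) (.w 1 2)) (.mul (.mul (.c 86) (.v 1)) (.add (.mul (.mul (.c 1024) (.r 2 2 632 2)) (.w 1 1)) (.mul (.mul (.c 86) (.v 1)) (.r 2 3 632 2))))))) (.add (.mul (.mul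 (.c 767) (.w 0 1)) (.w 1 1)) (.add (.mul (.mul (.c 171) (.q 0)) (.w 1 1)) (.mul (.mul (.c 86) (.q 1)) (.w 0 1))))) (.mul (.mul (.r 2 188 632 2) (.mul (.mul (.c 86) (.v 1)) (.add (.mul (.mul (.c 1048576) (.r 2 1 632 2)) (.w 1 2)) (.mul (.mul (.c 86) (.v 1)) (.add (.mul (.mul (.c 1024) (.r 2 2 632 2)) (.w 1 1)) (.mul (.mul (.c 86) (.v 1)) (.r 2 3 632 2))))))) (.mul (.c 2) (.add (.mul (.mul (.c 767) (.w 0 1)) (.w 1 1)) (.add (.mul (.mul (.c 171) (.q 0)) (.w 1 1)) (.mul (.mul (.c 86) (.q 1)) (.w 0 1))))))))) (.w 0 3)) (.w 2 1))), 153, 5, 5, 4, 1⟩,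
  ⟨(.sub (.sub (.mul (.mul (.mul (.c 0) (.w 0 3)) (.w 1 3)) (.w 2 3)) (.mul (.mul (.mul (.c 86) (.v 1)) (.add (.mul (.mul (.c 1048576) (.r 2 1 632 2)) (.w 1 2)) (.mul (.mul (.c 86) (.v 1)) (.add (.mul (.mul (.c 1024) (.r 2 2 632 2)) (.w 1 1)) (.mul (.mul (.c 86) (.v 1)) (.r 2 3 632 2)))))) (.mul (.add (.mul (.q 2) (.r 0 4 1 3)) (.mul (.v 2) (.r 0 636 1 3))) (.mul (.add (.mul (.mul (.c 1024) (.s 2 105 632 2)) (.w 0 1)) (.mul (.mul (.c 171) (.v 0)) (.s 2 108 632 2))) (.c 1))))) (.mul (.mul (.mul (.c 17179869184) (.add (.mul (.mul (.r 2 184 632 2) (.mul (.mul (.c 86) (.v 1)) (.add (.mul (.mul (.c 1048576) (.r 2 1 632 2)) (.w 1 2)) (.mul (.mul (.c 86) (.v 1)) (.add (.mul (.mul (.c 1024) (.r 2 2 632 2)) (.w 1 1)) (.mul (.mul (.c 86) (.v 1)) (.r 2 3 632 2))))))) (.sub (.c 0) (.mul (.c 12) (.c 1)))) (.add (.mul (.mul (.r 2 186 632 2) (.mul (.mul (.c 86) (.v 1)) (.add (.mul (.mul (.c 1048576)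 (.r 2 1 632 2)) (.w 1 2)) (.mul (.mul (.c 86) (.v 1)) (.add (.mul (.mul (.c 1024) (.r 2 2 632 2)) (.w 1 1)) (.mul (.mul (.c 86) (.v 1)) (.r 2 3 632 2))))))) (.c 1)) (.mul (.mul (.r 2 188 632 2) (.mul (.mul (.c 86) (.v 1)) (.add (.mul (.mul (.c 1048576) (.r 2 1 632 2)) (.w 1 2)) (.mul (.mul (.c 86) (.v 1)) (.add (.mul (.mul (.c 1024) (.r 2 2 632 2)) (.w 1 1)) (.mul (.mul (.c 86) (.v 1)) (.r 2 3 632 2))))))) (.sub (.c 0) (.mul (.c 12) (.c 1))))))) (.w 0 3)) (.w 2 1))), 141, 4, 4, 4, 1⟩,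
  ⟨(.sub (.sub (.mul (.mul (.mul (.c 0) (.w 0 2)) (.w 1 3)) (.w 2 3)) (.mul (.mul (.mul (.c 86) (.v 1)) (.add (.mul (.mul (.c 1048576) (.r 2 1 632 2)) (.w 1 2)) (.mul (.mul (.c 86) (.v 1)) (.add (.mul (.mul (.c 1024) (.r 2 2 632 2)) (.w 1 1)) (.mul (.mul (.c 86) (.v 1)) (.r 2 3 632 2)))))) (.mul (.add (.mul (.q 2) (.r 0 4 1 3)) (.mul (.v 2) (.r 0 636 1 3))) (.mul (.s 2 106 632 2) (.c 1))))) (.mul (.mul (.mul (.c 16777216) (.add (.mul (.mul (.r 2 185 632 2) (.mul (.mul (.c 86) (.v 1)) (.add (.mul (.mul (.c 1048576) (.r 2 1 632 2)) (.w 1 2)) (.mul (.mul (.c 86) (.v 1)) (.add (.mul (.mul (.c 1024) (.r 2 2 632 2)) (.w 1 1)) (.mul (.mul (.c 86) (.v 1)) (.r 2 3 632 2))))))) (.sub (.c 0) (.mul (.c 12) (.c 1)))) (.add (.mul (.mul (.r 2 187 632 2) (.mul (.mul (.c 86) (.v 1)) (.add (.mul (.mul (.c 1048576) (.r 2 1 632 2)) (.w 1 2)) (.mul (.mul (.c 86) (.v 1)) (.add (.mul (.mul (.c 1024) (.r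 2 2 632 2)) (.w 1 1)) (.mul (.mul (.c 86) (.v 1)) (.r 2 3 632 2))))))) (.mul (.c 2) (.c 1))) (.mul (.mul (.r 2 188 632 2) (.mul (.mul (.c 86) (.v 1)) (.add (.mul (.mul (.c 1048576) (.r 2 1 632 2)) (.w 1 2)) (.mul (.mul (.c 86) (.v 1)) (.add (.mul (.mul (.c 1024) (.r 2 2 632 2)) (.w 1 1)) (.mul (.mul (.c 86) (.v 1)) (.r 2 3 632 2))))))) (.sub (.c 0) (.mul (.c 24) (.c 1))))))) (.w 0 2)) (.w 2 1))), 130, 3, 4, 4, 1⟩,
  ⟨(.sub (.sub (.mul (.mul (.mul (.c 0) (.w 0 2)) (.w 1 3)) (.w 2 3)) (.mul (.mul (.mul (.c 86) (.v 1)) (.add (.mul (.mul (.c 1048576) (.r 2 1 632 2)) (.w 1 2)) (.mul (.mul (.c 86) (.v 1)) (.add (.mul (.mul (.c 1024) (.r 2 2 632 2)) (.w 1 1)) (.mul (.mul (.c 86) (.v 1)) (.r 2 3 632 2)))))) (.mul (.add (.mul (.q 2) (.r 0 4 1 3)) (.mul (.v 2) (.r 0 636 1 3))) (.mul (.s 2 107 632 2) (.c 1))))) (.mul (.mul (.mul (.c 16777216) (.add (.mul (.mul (.r 2 186 632 2) (.mul (.mul (.c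 86) (.v 1)) (.add (.mul (.mul (.c 1048576) (.r 2 1 632 2)) (.w 1 2)) (.mul (.mul (.c 86) (.v 1)) (.add (.mul (.mul (.c 1024) (.r 2 2 632 2)) (.w 1 1)) (.mul (.mul (.c 86) (.v 1)) (.r 2 3 632 2))))))) (.sub (.c 0) (.mul (.c 12) (.c 1)))) (.add (.mul (.mul (.r 2 187 632 2) (.mul (.mul (.c 86) (.v 1)) (.add (.mul (.mul (.c 1048576) (.r 2 1 632 2)) (.w 1 2)) (.mul (.mul (.c 86) (.v 1)) (.add (.mul (.mul (.c 1024) (.r 2 2 632 2)) (.w 1 1)) (.mul (.mul (.c 86) (.v 1)) (.r 2 3 632 2))))))) (.sub (.c 0) (.mul (.c 12) (.c 1)))) (.mul (.mul (.r 2 188 632 2) (.mul (.mul (.c 86) (.v 1)) (.add (.mul (.mul (.c 1048576) (.r 2 1 632 2)) (.w 1 2)) (.mul (.mul (.c 86) (.v 1)) (.add (.mul (.mul (.c 1024) (.r 2 2 632 2)) (.w 1 1)) (.mul (.mul (.c 86) (.v 1)) (.r 2 3 632 2))))))) (.mul (.c 144) (.c 1)))))) (.w 0 2)) (.w 2 1))), 130, 3, 4, 4, 1⟩,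
  ⟨(.sub (.sub (.mul (.mul (.mul (.mul (.c 590295810358705651712) (.mul (.mul (.c 86) (.v 1)) (.add (.mul (.c 1024) (.add (.mul (.add (.mul (.mul (.c 1024) (.s 2 127 632 2)) (.w 0 1)) (.mul (.s 2 128 632 2) (.mul (.c 171) (.v 0)))) (.w 1 1)) (.mul (.mul (.s 2 129 632 2) (.mul (.c 86) (.v 1))) (.w 0 1)))) (.mul (.s 2 130 632 2) (.mul (.mul (.c 86) (.v 1)) (.mul (.c 171) (.v 0))))))) (.w 0 3)) (.w 1 3)) (.w 2 2)) (.mul (.mul (.mul (.c 86) (.v 1)) (.add (.mul (.mul (.c 1048576) (.r 2 1 632 2)) (.w 1 2)) (.mul (.mul (.c 86) (.v 1)) (.add (.mul (.mul (.c 1024) (.r 2 2 632 2)) (.w 1 1)) (.mul (.mul (.c 86) (.v 1)) (.r 2 3 632 2)))))) (.mul (.add (.mul (.q 2) (.r 0 4 1 3)) (.mul (.v 2) (.r 0 636 1 3))) (.mul (.c 1) (.add (.mul (.add (.mul (.mul (.c 1024) (.mul (.s 2 97 632 2) (.add (.mul (.mul (.c 767) (.w 0 1)) (.w 1 1)) (.add (.mul (.mul (.c 171) (.q 0)) (.w 1 1)) (.mul (.mul (.c 86) (.q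 1)) (.w 0 1)))))) (.w 0 1)) (.mul (.s 2 98 632 2) (.mul (.mul (.c 171) (.v 0)) (.add (.mul (.mul (.c 767) (.w 0 1)) (.w 1 1)) (.add (.mul (.mul (.c 171) (.q 0)) (.w 1 1)) (.mul (.mul (.c 86) (.q 1)) (.w 0 1))))))) (.w 1 1)) (.add (.mul (.add (.mul (.mul (.c 1024) (.mul (.s 2 97 632 2) (.add (.mul (.c 853) (.w 0 1)) (.mul (.c 171) (.q 0))))) (.w 0 1)) (.mul (.s 2 98 632 2) (.mul (.mul (.c 171) (.v 0)) (.add (.mul (.c 853) (.w 0 1)) (.mul (.c 171) (.q 0)))))) (.w 1 2)) (.mul (.mul (.s 2 100 632 2) (.mul (.mul (.c 86) (.v 1)) (.mul (.c 86) (.v 1)))) (.w 0 2)))))))) (.mul (.mul (.mul (.c 33554432) (.add (.mul (.mul (.c 1024) (.mul (.mul (.r 2 189 632 2) (.mul (.mul (.c 86) (.v 1)) (.add (.mul (.mul (.c 1048576) (.r 2 1 632 2)) (.w 1 2)) (.mul (.mul (.c 86) (.v 1)) (.add (.mul (.mul (.c 1024) (.r 2 2 632 2)) (.w 1 1)) (.mul (.mul (.c 86) (.v 1)) (.r 2 3 632 2))))))) (.mul (.c 2) (.add (.mul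 (.mul (.c 767) (.w 0 1)) (.w 1 1)) (.add (.mul (.mul (.c 171) (.q 0)) (.w 1 1)) (.mul (.mul (.c 86) (.q 1)) (.w 0 1))))))) (.w 1 1)) (.add (.mul (.mul (.c 1024) (.mul (.mul (.r 2 190 632 2) (.mul (.mul (.c 86) (.v 1)) (.add (.mul (.mul (.c 1048576) (.r 2 1 632 2)) (.w 1 2)) (.mul (.mul (.c 86) (.v 1)) (.add (.mul (.mul (.c 1024) (.r 2 2 632 2)) (.w 1 1)) (.mul (.mul (.c 86) (.v 1)) (.r 2 3 632 2))))))) (.add (.mul (.mul (.c 767) (.w 0 1)) (.w 1 1)) (.add (.mul (.mul (.c 171) (.q 0)) (.w 1 1)) (.mul (.mul (.c 86) (.q 1)) (.w 0 1)))))) (.w 1 1)) (.add (.mul (.mul (.c 1024) (.mul (.mul (.r 2 193 632 2) (.mul (.mul (.c 86) (.v 1)) (.add (.mul (.mul (.c 1048576) (.r 2 1 632 2)) (.w 1 2)) (.mul (.mul (.c 86) (.v 1)) (.add (.mul (.mul (.c 1024) (.r 2 2 632 2)) (.w 1 1)) (.mul (.mul (.c 86) (.v 1)) (.r 2 3 632 2))))))) (.mul (.c 2) (.add (.mul (.mul (.c 767) (.w 0 1)) (.w 1 1)) (.add (.mul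 (.mul (.c 171) (.q 0)) (.w 1 1)) (.mul (.mul (.c 86) (.q 1)) (.w 0 1))))))) (.w 1 1)) (.add (.mul (.mul (.c 1024) (.mul (.mul (.r 2 194 632 2) (.mul (.mul (.c 86) (.v 1)) (.add (.mul (.mul (.c 1048576) (.r 2 1 632 2)) (.w 1 2)) (.mul (.mul (.c 86) (.v 1)) (.add (.mul (.mul (.c 1024) (.r 2 2 632 2)) (.w 1 1)) (.mul (.mul (.c 86) (.v 1)) (.r 2 3 632 2))))))) (.mul (.c 2) (.add (.mul (.c 853) (.w 0 1)) (.mul (.c 171) (.q 0)))))) (.w 1 2)) (.add (.mul (.mul (.r 2 195 632 2) (.mul (.mul (.c 86) (.v 1)) (.add (.mul (.mul (.c 1048576) (.r 2 1 632 2)) (.w 1 2)) (.mul (.mul (.c 86) (.v 1)) (.add (.mul (.mul (.c 1024) (.r 2 2 632 2)) (.w 1 1)) (.mul (.mul (.c 86) (.v 1)) (.r 2 3 632 2))))))) (.sub (.mul (.mul (.c 1024) (.add (.mul (.c 853) (.w 0 1)) (.mul (.c 171) (.q 0)))) (.w 1 2)) (.mul (.mul (.c 12) (.mul (.mul (.c 86) (.v 1)) (.mul (.c 86) (.v 1)))) (.w 0 1)))) (.add (.mul (.mul (.mul (.r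 2 197 632 2) (.mul (.mul (.c 86) (.v 1)) (.add (.mul (.mul (.c 1048576) (.r 2 1 632 2)) (.w 1 2)) (.mul (.mul (.c 86) (.v 1)) (.add (.mul (.mul (.c 1024) (.r 2 2 632 2)) (.w 1 1)) (.mul (.mul (.c 86) (.v 1)) (.r 2 3 632 2))))))) (.mul (.c 2) (.mul (.mul (.c 86) (.v 1)) (.mul (.c 86) (.v 1))))) (.w 0 1)) (.add (.mul (.mul (.r 2 198 632 2) (.mul (.mul (.c 86) (.v 1)) (.add (.mul (.mul (.c 1048576) (.r 2 1 632 2)) (.w 1 2)) (.mul (.mul (.c 86) (.v 1)) (.add (.mul (.mul (.c 1024) (.r 2 2 632 2)) (.w 1 1)) (.mul (.mul (.c 86) (.v 1)) (.r 2 3 632 2))))))) (.sub (.mul (.mul (.c 1024) (.mul (.c 2) (.add (.mul (.c 853) (.w 0 1)) (.mul (.c 171) (.q 0))))) (.w 1 2)) (.mul (.mul (.c 24) (.mul (.mul (.c 86) (.v 1)) (.mul (.c 86) (.v 1)))) (.w 0 1)))) (.mul (.mul (.mul (.c 1048576) (.mul (.mul (.r 2 199 632 2) (.mul (.mul (.c 86) (.v 1)) (.add (.mul (.mul (.c 1048576) (.r 2 1 632 2)) (.w 1 2)) (.mul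 (.mul (.c 86) (.v 1)) (.add (.mul (.mul (.c 1024) (.r 2 2 632 2)) (.w 1 1)) (.mul (.mul (.c 86) (.v 1)) (.r 2 3 632 2))))))) (.c 2))) (.w 0 1)) (.w 1 2)))))))))) (.w 0 3)) (.w 2 1))), 155, 5, 6, 4, 1⟩,
  ⟨(.sub (.sub (.mul (.mul (.mul (.c 0) (.w 0 3)) (.w 1 3)) (.w 2 3)) (.mul (.mul (.mul (.c 86) (.v 1)) (.add (.mul (.mul (.c 1048576) (.r 2 1 632 2)) (.w 1 2)) (.mul (.mul (.c 86) (.v 1)) (.add (.mul (.mul (.c 1024) (.r 2 2 632 2)) (.w 1 1)) (.mul (.mul (.c 86) (.v 1)) (.r 2 3 632 2)))))) (.mul (.add (.mul (.q 2) (.r 0 4 1 3)) (.mul (.v 2) (.r 0 636 1 3))) (.mul (.c 1) (.add (.mul (.add (.mul (.mul (.c 1024) (.s 2 99 632 2)) (.w 0 1)) (.mul (.mul (.c 171) (.v 0)) (.s 2 102 632 2))) (.c 1)) (.mul (.add (.mul (.mul (.c 1024) (.s 2 99 632 2)) (.w 0 1)) (.mul (.mul (.c 171) (.v 0)) (.s 2 102 632 2))) (.c 1))))))) (.mul (.mul (.mul (.c 34359738368) (.add (.mul (.mul (.r 2 189 632 2) (.mul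 (.mul (.c 86) (.v 1)) (.add (.mul (.mul (.c 1048576) (.r 2 1 632 2)) (.w 1 2)) (.mul (.mul (.c 86) (.v 1)) (.add (.mul (.mul (.c 1024) (.r 2 2 632 2)) (.w 1 1)) (.mul (.mul (.c 86) (.v 1)) (.r 2 3 632 2))))))) (.sub (.c 0) (.mul (.c 12) (.c 1)))) (.add (.mul (.mul (.r 2 191 632 2) (.mul (.mul (.c 86) (.v 1)) (.add (.mul (.mul (.c 1048576) (.r 2 1 632 2)) (.w 1 2)) (.mul (.mul (.c 86) (.v 1)) (.add (.mul (.mul (.c 1024) (.r 2 2 632 2)) (.w 1 1)) (.mul (.mul (.c 86) (.v 1)) (.r 2 3 632 2))))))) (.c 1)) (.add (.mul (.mul (.r 2 193 632 2) (.mul (.mul (.c 86) (.v 1)) (.add (.mul (.mul (.c 1048576) (.r 2 1 632 2)) (.w 1 2)) (.mul (.mul (.c 86) (.v 1)) (.add (.mul (.mul (.c 1024) (.r 2 2 632 2)) (.w 1 1)) (.mul (.mul (.c 86) (.v 1)) (.r 2 3 632 2))))))) (.sub (.c 0) (.mul (.c 12) (.c 1)))) (.add (.mul (.mul (.r 2 194 632 2) (.mul (.mul (.c 86) (.v 1)) (.add (.mul (.mul (.c 1048576) (.r 2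 1 632 2)) (.w 1 2)) (.mul (.mul (.c 86) (.v 1)) (.add (.mul (.mul (.c 1024) (.r 2 2 632 2)) (.w 1 1)) (.mul (.mul (.c 86) (.v 1)) (.r 2 3 632 2))))))) (.sub (.c 0) (.mul (.c 12) (.c 1)))) (.add (.mul (.mul (.r 2 196 632 2) (.mul (.mul (.c 86) (.v 1)) (.add (.mul (.mul (.c 1048576) (.r 2 1 632 2)) (.w 1 2)) (.mul (.mul (.c 86) (.v 1)) (.add (.mul (.mul (.c 1024) (.r 2 2 632 2)) (.w 1 1)) (.mul (.mul (.c 86) (.v 1)) (.r 2 3 632 2))))))) (.c 1)) (.mul (.mul (.r 2 198 632 2) (.mul (.mul (.c 86) (.v 1)) (.add (.mul (.mul (.c 1048576) (.r 2 1 632 2)) (.w 1 2)) (.mul (.mul (.c 86) (.v 1)) (.add (.mul (.mul (.c 1024) (.r 2 2 632 2)) (.w 1 1)) (.mul (.mul (.c 86) (.v 1)) (.r 2 3 632 2))))))) (.sub (.c 0) (.mul (.c 12) (.c 1)))))))))) (.w 0 3)) (.w 2 1))), 142, 4, 4, 4, 1⟩,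
  ⟨(.sub (.sub (.mul (.mul (.mul (.c 0) (.w 0 2)) (.w 1 3)) (.w 2 3)) (.mul (.mul (.mul (.c 86) (.v 1)) (.add (.mul (.mul (.c 1048576) (.r 2 1 632 2)) (.w 1 2)) (.mul (.mul (.c 86) (.v 1)) (.add (.mul (.mul (.c 1024) (.r 2 2 632 2)) (.w 1 1)) (.mul (.mul (.c 86) (.v 1)) (.r 2 3 632 2)))))) (.mul (.add (.mul (.q 2) (.r 0 4 1 3)) (.mul (.v 2) (.r 0 636 1 3))) (.mul (.c 1) (.add (.mul (.s 2 100 632 2) (.c 1)) (.mul (.s 2 100 632 2) (.c 1))))))) (.mul (.mul (.mul (.c 33554432) (.add (.mul (.mul (.r 2 190 632 2) (.mul (.mul (.c 86) (.v 1)) (.add (.mul (.mul (.c 1048576) (.r 2 1 632 2)) (.w 1 2)) (.mul (.mul (.c 86) (.v 1)) (.add (.mul (.mul (.c 1024) (.r 2 2 632 2)) (.w 1 1)) (.mul (.mul (.c 86) (.v 1)) (.r 2 3 632 2))))))) (.sub (.c 0) (.mul (.c 12) (.c 1)))) (.add (.mul (.mul (.r 2 192 632 2) (.mul (.mul (.c 86) (.v 1)) (.add (.mul (.mul (.c 1048576) (.r 2 1 632 2)) (.w 1 2)) (.mul (.mul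 (.c 86) (.v 1)) (.add (.mul (.mul (.c 1024) (.r 2 2 632 2)) (.w 1 1)) (.mul (.mul (.c 86) (.v 1)) (.r 2 3 632 2))))))) (.mul (.c 2) (.c 1))) (.add (.mul (.mul (.r 2 193 632 2) (.mul (.mul (.c 86) (.v 1)) (.add (.mul (.mul (.c 1048576) (.r 2 1 632 2)) (.w 1 2)) (.mul (.mul (.c 86) (.v 1)) (.add (.mul (.mul (.c 1024) (.r 2 2 632 2)) (.w 1 1)) (.mul (.mul (.c 86) (.v 1)) (.r 2 3 632 2))))))) (.sub (.c 0) (.mul (.c 24) (.c 1)))) (.add (.mul (.mul (.r 2 195 632 2) (.mul (.mul (.c 86) (.v 1)) (.add (.mul (.mul (.c 1048576) (.r 2 1 632 2)) (.w 1 2)) (.mul (.mul (.c 86) (.v 1)) (.add (.mul (.mul (.c 1024) (.r 2 2 632 2)) (.w 1 1)) (.mul (.mul (.c 86) (.v 1)) (.r 2 3 632 2))))))) (.sub (.c 0) (.mul (.c 12) (.c 1)))) (.add (.mul (.mul (.r 2 197 632 2) (.mul (.mul (.c 86) (.v 1)) (.add (.mul (.mul (.c 1048576) (.r 2 1 632 2)) (.w 1 2)) (.mul (.mul (.c 86) (.v 1)) (.add (.mul (.mul (.c 1024) (.r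 2 2 632 2)) (.w 1 1)) (.mul (.mul (.c 86) (.v 1)) (.r 2 3 632 2))))))) (.mul (.c 2) (.c 1))) (.mul (.mul (.r 2 198 632 2) (.mul (.mul (.c 86) (.v 1)) (.add (.mul (.mul (.c 1048576) (.r 2 1 632 2)) (.w 1 2)) (.mul (.mul (.c 86) (.v 1)) (.add (.mul (.mul (.c 1024) (.r 2 2 632 2)) (.w 1 1)) (.mul (.mul (.c 86) (.v 1)) (.r 2 3 632 2))))))) (.sub (.c 0) (.mul (.c 24) (.c 1)))))))))) (.w 0 2)) (.w 2 1))), 131, 3, 4, 4, 1⟩,
  ⟨(.sub (.sub (.mul (.mul (.mul (.c 0) (.w 0 2)) (.w 1 3)) (.w 2 3)) (.mul (.mul (.mul (.c 86) (.v 1)) (.add (.mul (.mul (.c 1048576) (.r 2 1 632 2)) (.w 1 2)) (.mul (.mul (.c 86) (.v 1)) (.add (.mul (.mul (.c 1024) (.r 2 2 632 2)) (.w 1 1)) (.mul (.mul (.c 86) (.v 1)) (.r 2 3 632 2)))))) (.mul (.add (.mul (.q 2) (.r 0 4 1 3)) (.mul (.v 2) (.r 0 636 1 3))) (.mul (.c 1) (.add (.mul (.s 2 101 632 2) (.c 1)) (.mul (.s 2 101 632 2) (.c 1))))))) (.mul (.mul (.mul (.c 33554432)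 (.add (.mul (.mul (.r 2 191 632 2) (.mul (.mul (.c 86) (.v 1)) (.add (.mul (.mul (.c 1048576) (.r 2 1 632 2)) (.w 1 2)) (.mul (.mul (.c 86) (.v 1)) (.add (.mul (.mul (.c 1024) (.r 2 2 632 2)) (.w 1 1)) (.mul (.mul (.c 86) (.v 1)) (.r 2 3 632 2))))))) (.sub (.c 0) (.mul (.c 12) (.c 1)))) (.add (.mul (.mul (.r 2 192 632 2) (.mul (.mul (.c 86) (.v 1)) (.add (.mul (.mul (.c 1048576) (.r 2 1 632 2)) (.w 1 2)) (.mul (.mul (.c 86) (.v 1)) (.add (.mul (.mul (.c 1024) (.r 2 2 632 2)) (.w 1 1)) (.mul (.mul (.c 86) (.v 1)) (.r 2 3 632 2))))))) (.sub (.c 0) (.mul (.c 12) (.c 1)))) (.add (.mul (.mul (.r 2 193 632 2) (.mul (.mul (.c 86) (.v 1)) (.add (.mul (.mul (.c 1048576) (.r 2 1 632 2)) (.w 1 2)) (.mul (.mul (.c 86) (.v 1)) (.add (.mul (.mul (.c 1024) (.r 2 2 632 2)) (.w 1 1)) (.mul (.mul (.c 86) (.v 1)) (.r 2 3 632 2))))))) (.mul (.c 144) (.c 1))) (.add (.mul (.mul (.r 2 196 632 2) (.mul (.mul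 (.c 86) (.v 1)) (.add (.mul (.mul (.c 1048576) (.r 2 1 632 2)) (.w 1 2)) (.mul (.mul (.c 86) (.v 1)) (.add (.mul (.mul (.c 1024) (.r 2 2 632 2)) (.w 1 1)) (.mul (.mul (.c 86) (.v 1)) (.r 2 3 632 2))))))) (.sub (.c 0) (.mul (.c 12) (.c 1)))) (.add (.mul (.mul (.r 2 197 632 2) (.mul (.mul (.c 86) (.v 1)) (.add (.mul (.mul (.c 1048576) (.r 2 1 632 2)) (.w 1 2)) (.mul (.mul (.c 86) (.v 1)) (.add (.mul (.mul (.c 1024) (.r 2 2 632 2)) (.w 1 1)) (.mul (.mul (.c 86) (.v 1)) (.r 2 3 632 2))))))) (.sub (.c 0) (.mul (.c 12) (.c 1)))) (.mul (.mul (.r 2 198 632 2) (.mul (.mul (.c 86) (.v 1)) (.add (.mul (.mul (.c 1048576) (.r 2 1 632 2)) (.w 1 2)) (.mul (.mul (.c 86) (.v 1)) (.add (.mul (.mul (.c 1024) (.r 2 2 632 2)) (.w 1 1)) (.mul (.mul (.c 86) (.v 1)) (.r 2 3 632 2))))))) (.mul (.c 144) (.c 1))))))))) (.w 0 2)) (.w 2 1))), 132, 3, 4, 4, 1⟩,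
  ⟨(.sub (.sub (.mul (.mul (.mul (.c 0) (.w 0 3)) (.w 1 5)) (.w 2 3)) (.mul (.mul (.mul (.c 86) (.v 1)) (.add (.mul (.mul (.c 1048576) (.r 2 1 632 2)) (.w 1 2)) (.mul (.mul (.c 86) (.v 1)) (.add (.mul (.mul (.c 1024) (.r 2 2 632 2)) (.w 1 1)) (.mul (.mul (.c 86) (.v 1)) (.r 2 3 632 2)))))) (.mul (.add (.mul (.q 2) (.r 0 4 1 3)) (.mul (.v 2) (.r 0 636 1 3))) (.mul (.c 1) (.add (.mul (.mul (.add (.mul (.mul (.c 1024) (.s 2 99 632 2)) (.w 0 1)) (.mul (.mul (.c 171) (.v 0)) (.s 2 102 632 2))) (.mul (.c 86) (.v 1))) (.w 1 1)) (.mul (.mul (.s 2 101 632 2) (.mul (.mul (.c 86) (.v 1)) (.mul (.c 86) (.v 1)))) (.w 0 1))))))) (.mul (.mul (.mul (.c 33554432) (.add (.mul (.mul (.c 1024) (.mul (.mul (.r 2 194 632 2) (.mul (.mul (.c 86) (.v 1)) (.add (.mul (.mul (.c 1048576) (.r 2 1 632 2)) (.w 1 2)) (.mul (.mul (.c 86) (.v 1)) (.add (.mul (.mul (.c 1024) (.r 2 2 632 2)) (.w 1 1)) (.mul (.mul (.c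 86) (.v 1)) (.r 2 3 632 2))))))) (.sub (.mul (.c 0) (.w 1 1)) (.mul (.c 12) (.mul (.c 86) (.v 1)))))) (.w 1 1)) (.add (.mul (.mul (.r 2 196 632 2) (.mul (.mul (.c 86) (.v 1)) (.add (.mul (.mul (.c 1048576) (.r 2 1 632 2)) (.w 1 2)) (.mul (.mul (.c 86) (.v 1)) (.add (.mul (.mul (.c 1024) (.r 2 2 632 2)) (.w 1 1)) (.mul (.mul (.c 86) (.v 1)) (.r 2 3 632 2))))))) (.sub (.mul (.mul (.c 1024) (.mul (.c 86) (.v 1))) (.w 1 1)) (.mul (.c 12) (.mul (.mul (.c 86) (.v 1)) (.mul (.c 86) (.v 1)))))) (.add (.mul (.mul (.r 2 197 632 2) (.mul (.mul (.c 86) (.v 1)) (.add (.mul (.mul (.c 1048576) (.r 2 1 632 2)) (.w 1 2)) (.mul (.mul (.c 86) (.v 1)) (.add (.mul (.mul (.c 1024) (.r 2 2 632 2)) (.w 1 1)) (.mul (.mul (.c 86) (.v 1)) (.r 2 3 632 2))))))) (.sub (.mul (.c 0) (.w 1 2)) (.mul (.c 12) (.mul (.mul (.c 86) (.v 1)) (.mul (.c 86) (.v 1)))))) (.add (.mul (.mul (.r 2 198 632 2) (.mul (.mul (.c 86)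 (.v 1)) (.add (.mul (.mul (.c 1048576) (.r 2 1 632 2)) (.w 1 2)) (.mul (.mul (.c 86) (.v 1)) (.add (.mul (.mul (.c 1024) (.r 2 2 632 2)) (.w 1 1)) (.mul (.mul (.c 86) (.v 1)) (.r 2 3 632 2))))))) (.sub (.mul (.c 144) (.mul (.mul (.c 86) (.v 1)) (.mul (.c 86) (.v 1)))) (.mul (.mul (.c 1024) (.mul (.c 12) (.mul (.c 86) (.v 1)))) (.w 1 1)))) (.mul (.mul (.c 1048576) (.mul (.mul (.r 2 199 632 2) (.mul (.mul (.c 86) (.v 1)) (.add (.mul (.mul (.c 1048576) (.r 2 1 632 2)) (.w 1 2)) (.mul (.mul (.c 86) (.v 1)) (.add (.mul (.mul (.c 1024) (.r 2 2 632 2)) (.w 1 1)) (.mul (.mul (.c 86) (.v 1)) (.r 2 3 632 2))))))) (.sub (.c 0) (.mul (.c 12) (.c 1))))) (.w 1 2))))))) (.w 0 3)) (.w 2 1))), 150, 4, 6, 4, 1⟩,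
  ⟨(.sub (.sub (.mul (.mul (.mul (.mul (.c 590295810358705651712) (.mul (.mul (.c 86) (.v 1)) (.add (.mul (.c 1024) (.add (.mul (.add (.mul (.mul (.c 1024) (.s 2 131 632 2)) (.w 0 1)) (.mul (.s 2 132 632 2) (.mul (.c 171) (.v 0)))) (.w 1 1)) (.mul (.mul (.s 2 133 632 2) (.mul (.c 86) (.v 1))) (.w 0 1)))) (.mul (.s 2 134 632 2) (.mul (.mul (.c 86) (.v 1)) (.mul (.c 171) (.v 0))))))) (.w 0 3)) (.w 1 3)) (.w 2 2)) (.mul (.mul (.mul (.c 86) (.v 1)) (.add (.mul (.mul (.c 1048576) (.r 2 1 632 2)) (.w 1 2)) (.mul (.mul (.c 86) (.v 1)) (.add (.mul (.mul (.c 1024) (.r 2 2 632 2)) (.w 1 1)) (.mul (.mul (.c 86) (.v 1)) (.r 2 3 632 2)))))) (.mul (.add (.mul (.q 2) (.r 0 4 1 3)) (.mul (.v 2) (.r 0 636 1 3))) (.mul (.c 1) (.add (.mul (.add (.mul (.mul (.c 1024) (.mul (.s 2 109 632 2) (.add (.mul (.mul (.c 767) (.w 0 1)) (.w 1 1)) (.add (.mul (.mul (.c 171) (.q 0)) (.w 1 1)) (.mul (.mul (.c 86) (.q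 1)) (.w 0 1)))))) (.w 0 1)) (.mul (.s 2 110 632 2) (.mul (.mul (.c 171) (.v 0)) (.add (.mul (.mul (.c 767) (.w 0 1)) (.w 1 1)) (.add (.mul (.mul (.c 171) (.q 0)) (.w 1 1)) (.mul (.mul (.c 86) (.q 1)) (.w 0 1))))))) (.w 1 1)) (.add (.mul (.add (.mul (.mul (.c 1024) (.mul (.s 2 109 632 2) (.add (.mul (.c 853) (.w 0 1)) (.mul (.c 171) (.q 0))))) (.w 0 1)) (.mul (.s 2 110 632 2) (.mul (.mul (.c 171) (.v 0)) (.add (.mul (.c 853) (.w 0 1)) (.mul (.c 171) (.q 0)))))) (.w 1 2)) (.mul (.mul (.s 2 112 632 2) (.mul (.mul (.c 86) (.v 1)) (.mul (.c 86) (.v 1)))) (.w 0 2)))))))) (.mul (.mul (.mul (.c 33554432) (.add (.mul (.mul (.c 1024) (.mul (.mul (.r 2 200 632 2) (.mul (.mul (.c 86) (.v 1)) (.add (.mul (.mul (.c 1048576) (.r 2 1 632 2)) (.w 1 2)) (.mul (.mul (.c 86) (.v 1)) (.add (.mul (.mul (.c 1024) (.r 2 2 632 2)) (.w 1 1)) (.mul (.mul (.c 86) (.v 1)) (.r 2 3 632 2))))))) (.mul (.c 2) (.add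 (.mul (.mul (.c 767) (.w 0 1)) (.w 1 1)) (.add (.mul (.mul (.c 171) (.q 0)) (.w 1 1)) (.mul (.mul (.c 86) (.q 1)) (.w 0 1))))))) (.w 1 1)) (.add (.mul (.mul (.c 1024) (.mul (.mul (.r 2 201 632 2) (.mul (.mul (.c 86) (.v 1)) (.add (.mul (.mul (.c 1048576) (.r 2 1 632 2)) (.w 1 2)) (.mul (.mul (.c 86) (.v 1)) (.add (.mul (.mul (.c 1024) (.r 2 2 632 2)) (.w 1 1)) (.mul (.mul (.c 86) (.v 1)) (.r 2 3 632 2))))))) (.add (.mul (.mul (.c 767) (.w 0 1)) (.w 1 1)) (.add (.mul (.mul (.c 171) (.q 0)) (.w 1 1)) (.mul (.mul (.c 86) (.q 1)) (.w 0 1)))))) (.w 1 1)) (.add (.mul (.mul (.c 1024) (.mul (.mul (.r 2 204 632 2) (.mul (.mul (.c 86) (.v 1)) (.add (.mul (.mul (.c 1048576) (.r 2 1 632 2)) (.w 1 2)) (.mul (.mul (.c 86) (.v 1)) (.add (.mul (.mul (.c 1024) (.r 2 2 632 2)) (.w 1 1)) (.mul (.mul (.c 86) (.v 1)) (.r 2 3 632 2))))))) (.mul (.c 2) (.add (.mul (.mul (.c 767) (.w 0 1)) (.w 1 1)) (.add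 (.mul (.mul (.c 171) (.q 0)) (.w 1 1)) (.mul (.mul (.c 86) (.q 1)) (.w 0 1))))))) (.w 1 1)) (.add (.mul (.mul (.c 1024) (.mul (.mul (.r 2 205 632 2) (.mul (.mul (.c 86) (.v 1)) (.add (.mul (.mul (.c 1048576) (.r 2 1 632 2)) (.w 1 2)) (.mul (.mul (.c 86) (.v 1)) (.add (.mul (.mul (.c 1024) (.r 2 2 632 2)) (.w 1 1)) (.mul (.mul (.c 86) (.v 1)) (.r 2 3 632 2))))))) (.mul (.c 2) (.add (.mul (.c 853) (.w 0 1)) (.mul (.c 171) (.q 0)))))) (.w 1 2)) (.add (.mul (.mul (.r 2 206 632 2) (.mul (.mul (.c 86) (.v 1)) (.add (.mul (.mul (.c 1048576) (.r 2 1 632 2)) (.w 1 2)) (.mul (.mul (.c 86) (.v 1)) (.add (.mul (.mul (.c 1024) (.r 2 2 632 2)) (.w 1 1)) (.mul (.mul (.c 86) (.v 1)) (.r 2 3 632 2))))))) (.sub (.mul (.mul (.c 1024) (.add (.mul (.c 853) (.w 0 1)) (.mul (.c 171) (.q 0)))) (.w 1 2)) (.mul (.mul (.c 12) (.mul (.mul (.c 86) (.v 1)) (.mul (.c 86) (.v 1)))) (.w 0 1)))) (.add (.mul (.mul (.mul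 (.r 2 208 632 2) (.mul (.mul (.c 86) (.v 1)) (.add (.mul (.mul (.c 1048576) (.r 2 1 632 2)) (.w 1 2)) (.mul (.mul (.c 86) (.v 1)) (.add (.mul (.mul (.c 1024) (.r 2 2 632 2)) (.w 1 1)) (.mul (.mul (.c 86) (.v 1)) (.r 2 3 632 2))))))) (.mul (.c 2) (.mul (.mul (.c 86) (.v 1)) (.mul (.c 86) (.v 1))))) (.w 0 1)) (.add (.mul (.mul (.r 2 209 632 2) (.mul (.mul (.c 86) (.v 1)) (.add (.mul (.mul (.c 1048576) (.r 2 1 632 2)) (.w 1 2)) (.mul (.mul (.c 86) (.v 1)) (.add (.mul (.mul (.c 1024) (.r 2 2 632 2)) (.w 1 1)) (.mul (.mul (.c 86) (.v 1)) (.r 2 3 632 2))))))) (.sub (.mul (.mul (.c 1024) (.mul (.c 2) (.add (.mul (.c 853) (.w 0 1)) (.mul (.c 171) (.q 0))))) (.w 1 2)) (.mul (.mul (.c 24) (.mul (.mul (.c 86) (.v 1)) (.mul (.c 86) (.v 1)))) (.w 0 1)))) (.mul (.mul (.mul (.c 1048576) (.mul (.mul (.r 2 210 632 2) (.mul (.mul (.c 86) (.v 1)) (.add (.mul (.mul (.c 1048576) (.r 2 1 632 2)) (.w 1 2))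 (.mul (.mul (.c 86) (.v 1)) (.add (.mul (.mul (.c 1024) (.r 2 2 632 2)) (.w 1 1)) (.mul (.mul (.c 86) (.v 1)) (.r 2 3 632 2))))))) (.c 2))) (.w 0 1)) (.w 1 2)))))))))) (.w 0 3)) (.w 2 1))), 155, 5, 6, 4, 1⟩,
  ⟨(.sub (.sub (.mul (.mul (.mul (.c 0) (.w 0 3)) (.w 1 3)) (.w 2 3)) (.mul (.mul (.mul (.c 86) (.v 1)) (.add (.mul (.mul (.c 1048576) (.r 2 1 632 2)) (.w 1 2)) (.mul (.mul (.c 86) (.v 1)) (.add (.mul (.mul (.c 1024) (.r 2 2 632 2)) (.w 1 1)) (.mul (.mul (.c 86) (.v 1)) (.r 2 3 632 2)))))) (.mul (.add (.mul (.q 2) (.r 0 4 1 3)) (.mul (.v 2) (.r 0 636 1 3))) (.mul (.c 1) (.add (.mul (.add (.mul (.mul (.c 1024) (.s 2 111 632 2)) (.w 0 1)) (.mul (.mul (.c 171) (.v 0)) (.s 2 114 632 2))) (.c 1)) (.mul (.add (.mul (.mul (.c 1024) (.s 2 111 632 2)) (.w 0 1)) (.mul (.mul (.c 171) (.v 0)) (.s 2 114 632 2))) (.c 1))))))) (.mul (.mul (.mul (.c 34359738368) (.add (.mul (.mul (.r 2 200 632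 2) (.mul (.mul (.c 86) (.v 1)) (.add (.mul (.mul (.c 1048576) (.r 2 1 632 2)) (.w 1 2)) (.mul (.mul (.c 86) (.v 1)) (.add (.mul (.mul (.c 1024) (.r 2 2 632 2)) (.w 1 1)) (.mul (.mul (.c 86) (.v 1)) (.r 2 3 632 2))))))) (.sub (.c 0) (.mul (.c 12) (.c 1)))) (.add (.mul (.mul (.r 2 202 632 2) (.mul (.mul (.c 86) (.v 1)) (.add (.mul (.mul (.c 1048576) (.r 2 1 632 2)) (.w 1 2)) (.mul (.mul (.c 86) (.v 1)) (.add (.mul (.mul (.c 1024) (.r 2 2 632 2)) (.w 1 1)) (.mul (.mul (.c 86) (.v 1)) (.r 2 3 632 2))))))) (.c 1)) (.add (.mul (.mul (.r 2 204 632 2) (.mul (.mul (.c 86) (.v 1)) (.add (.mul (.mul (.c 1048576) (.r 2 1 632 2)) (.w 1 2)) (.mul (.mul (.c 86) (.v 1)) (.add (.mul (.mul (.c 1024) (.r 2 2 632 2)) (.w 1 1)) (.mul (.mul (.c 86) (.v 1)) (.r 2 3 632 2))))))) (.sub (.c 0) (.mul (.c 12) (.c 1)))) (.add (.mul (.mul (.r 2 205 632 2) (.mul (.mul (.c 86) (.v 1)) (.add (.mul (.mul (.c 1048576)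 (.r 2 1 632 2)) (.w 1 2)) (.mul (.mul (.c 86) (.v 1)) (.add (.mul (.mul (.c 1024) (.r 2 2 632 2)) (.w 1 1)) (.mul (.mul (.c 86) (.v 1)) (.r 2 3 632 2))))))) (.sub (.c 0) (.mul (.c 12) (.c 1)))) (.add (.mul (.mul (.r 2 207 632 2) (.mul (.mul (.c 86) (.v 1)) (.add (.mul (.mul (.c 1048576) (.r 2 1 632 2)) (.w 1 2)) (.mul (.mul (.c 86) (.v 1)) (.add (.mul (.mul (.c 1024) (.r 2 2 632 2)) (.w 1 1)) (.mul (.mul (.c 86) (.v 1)) (.r 2 3 632 2))))))) (.c 1)) (.mul (.mul (.r 2 209 632 2) (.mul (.mul (.c 86) (.v 1)) (.add (.mul (.mul (.c 1048576) (.r 2 1 632 2)) (.w 1 2)) (.mul (.mul (.c 86) (.v 1)) (.add (.mul (.mul (.c 1024) (.r 2 2 632 2)) (.w 1 1)) (.mul (.mul (.c 86) (.v 1)) (.r 2 3 632 2))))))) (.sub (.c 0) (.mul (.c 12) (.c 1)))))))))) (.w 0 3)) (.w 2 1))), 142, 4, 4, 4, 1⟩,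
  ⟨(.sub (.sub (.mul (.mul (.mul (.c 0) (.w 0 2)) (.w 1 3)) (.w 2 3)) (.mul (.mul (.mul (.c 86) (.v 1)) (.add (.mul (.mul (.c 1048576) (.r 2 1 632 2)) (.w 1 2)) (.mul (.mul (.c 86) (.v 1)) (.add (.mul (.mul (.c 1024) (.r 2 2 632 2)) (.w 1 1)) (.mul (.mul (.c 86) (.v 1)) (.r 2 3 632 2)))))) (.mul (.add (.mul (.q 2) (.r 0 4 1 3)) (.mul (.v 2) (.r 0 636 1 3))) (.mul (.c 1) (.add (.mul (.s 2 112 632 2) (.c 1)) (.mul (.s 2 112 632 2) (.c 1))))))) (.mul (.mul (.mul (.c 33554432) (.add (.mul (.mul (.r 2 201 632 2) (.mul (.mul (.c 86) (.v 1)) (.add (.mul (.mul (.c 1048576) (.r 2 1 632 2)) (.w 1 2)) (.mul (.mul (.c 86) (.v 1)) (.add (.mul (.mul (.c 1024) (.r 2 2 632 2)) (.w 1 1)) (.mul (.mul (.c 86) (.v 1)) (.r 2 3 632 2))))))) (.sub (.c 0) (.mul (.c 12) (.c 1)))) (.add (.mul (.mul (.r 2 203 632 2) (.mul (.mul (.c 86) (.v 1)) (.add (.mul (.mul (.c 1048576) (.r 2 1 632 2)) (.w 1 2)) (.mul (.mul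 (.c 86) (.v 1)) (.add (.mul (.mul (.c 1024) (.r 2 2 632 2)) (.w 1 1)) (.mul (.mul (.c 86) (.v 1)) (.r 2 3 632 2))))))) (.mul (.c 2) (.c 1))) (.add (.mul (.mul (.r 2 204 632 2) (.mul (.mul (.c 86) (.v 1)) (.add (.mul (.mul (.c 1048576) (.r 2 1 632 2)) (.w 1 2)) (.mul (.mul (.c 86) (.v 1)) (.add (.mul (.mul (.c 1024) (.r 2 2 632 2)) (.w 1 1)) (.mul (.mul (.c 86) (.v 1)) (.r 2 3 632 2))))))) (.sub (.c 0) (.mul (.c 24) (.c 1)))) (.add (.mul (.mul (.r 2 206 632 2) (.mul (.mul (.c 86) (.v 1)) (.add (.mul (.mul (.c 1048576) (.r 2 1 632 2)) (.w 1 2)) (.mul (.mul (.c 86) (.v 1)) (.add (.mul (.mul (.c 1024) (.r 2 2 632 2)) (.w 1 1)) (.mul (.mul (.c 86) (.v 1)) (.r 2 3 632 2))))))) (.sub (.c 0) (.mul (.c 12) (.c 1)))) (.add (.mul (.mul (.r 2 208 632 2) (.mul (.mul (.c 86) (.v 1)) (.add (.mul (.mul (.c 1048576) (.r 2 1 632 2)) (.w 1 2)) (.mul (.mul (.c 86) (.v 1)) (.add (.mul (.mul (.c 1024) (.r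 2 2 632 2)) (.w 1 1)) (.mul (.mul (.c 86) (.v 1)) (.r 2 3 632 2))))))) (.mul (.c 2) (.c 1))) (.mul (.mul (.r 2 209 632 2) (.mul (.mul (.c 86) (.v 1)) (.add (.mul (.mul (.c 1048576) (.r 2 1 632 2)) (.w 1 2)) (.mul (.mul (.c 86) (.v 1)) (.add (.mul (.mul (.c 1024) (.r 2 2 632 2)) (.w 1 1)) (.mul (.mul (.c 86) (.v 1)) (.r 2 3 632 2))))))) (.sub (.c 0) (.mul (.c 24) (.c 1)))))))))) (.w 0 2)) (.w 2 1))), 131, 3, 4, 4, 1⟩,
  ⟨(.sub (.sub (.mul (.mul (.mul (.c 0) (.w 0 2)) (.w 1 3)) (.w 2 3)) (.mul (.mul (.mul (.c 86) (.v 1)) (.add (.mul (.mul (.c 1048576) (.r 2 1 632 2)) (.w 1 2)) (.mul (.mul (.c 86) (.v 1)) (.add (.mul (.mul (.c 1024) (.r 2 2 632 2)) (.w 1 1)) (.mul (.mul (.c 86) (.v 1)) (.r 2 3 632 2)))))) (.mul (.add (.mul (.q 2) (.r 0 4 1 3)) (.mul (.v 2) (.r 0 636 1 3))) (.mul (.c 1) (.add (.mul (.s 2 113 632 2) (.c 1)) (.mul (.s 2 113 632 2) (.c 1))))))) (.mul (.mul (.mul (.c 33554432)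 (.add (.mul (.mul (.r 2 202 632 2) (.mul (.mul (.c 86) (.v 1)) (.add (.mul (.mul (.c 1048576) (.r 2 1 632 2)) (.w 1 2)) (.mul (.mul (.c 86) (.v 1)) (.add (.mul (.mul (.c 1024) (.r 2 2 632 2)) (.w 1 1)) (.mul (.mul (.c 86) (.v 1)) (.r 2 3 632 2))))))) (.sub (.c 0) (.mul (.c 12) (.c 1)))) (.add (.mul (.mul (.r 2 203 632 2) (.mul (.mul (.c 86) (.v 1)) (.add (.mul (.mul (.c 1048576) (.r 2 1 632 2)) (.w 1 2)) (.mul (.mul (.c 86) (.v 1)) (.add (.mul (.mul (.c 1024) (.r 2 2 632 2)) (.w 1 1)) (.mul (.mul (.c 86) (.v 1)) (.r 2 3 632 2))))))) (.sub (.c 0) (.mul (.c 12) (.c 1)))) (.add (.mul (.mul (.r 2 204 632 2) (.mul (.mul (.c 86) (.v 1)) (.add (.mul (.mul (.c 1048576) (.r 2 1 632 2)) (.w 1 2)) (.mul (.mul (.c 86) (.v 1)) (.add (.mul (.mul (.c 1024) (.r 2 2 632 2)) (.w 1 1)) (.mul (.mul (.c 86) (.v 1)) (.r 2 3 632 2))))))) (.mul (.c 144) (.c 1))) (.add (.mul (.mul (.r 2 207 632 2) (.mul (.mul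 (.c 86) (.v 1)) (.add (.mul (.mul (.c 1048576) (.r 2 1 632 2)) (.w 1 2)) (.mul (.mul (.c 86) (.v 1)) (.add (.mul (.mul (.c 1024) (.r 2 2 632 2)) (.w 1 1)) (.mul (.mul (.c 86) (.v 1)) (.r 2 3 632 2))))))) (.sub (.c 0) (.mul (.c 12) (.c 1)))) (.add (.mul (.mul (.r 2 208 632 2) (.mul (.mul (.c 86) (.v 1)) (.add (.mul (.mul (.c 1048576) (.r 2 1 632 2)) (.w 1 2)) (.mul (.mul (.c 86) (.v 1)) (.add (.mul (.mul (.c 1024) (.r 2 2 632 2)) (.w 1 1)) (.mul (.mul (.c 86) (.v 1)) (.r 2 3 632 2))))))) (.sub (.c 0) (.mul (.c 12) (.c 1)))) (.mul (.mul (.r 2 209 632 2) (.mul (.mul (.c 86) (.v 1)) (.add (.mul (.mul (.c 1048576) (.r 2 1 632 2)) (.w 1 2)) (.mul (.mul (.c 86) (.v 1)) (.add (.mul (.mul (.c 1024) (.r 2 2 632 2)) (.w 1 1)) (.mul (.mul (.c 86) (.v 1)) (.r 2 3 632 2))))))) (.mul (.c 144) (.c 1))))))))) (.w 0 2)) (.w 2 1))), 132, 3, 4, 4, 1⟩,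
  ⟨(.sub (.sub (.mul (.mul (.mul (.c 0) (.w 0 3)) (.w 1 5)) (.w 2 3)) (.mul (.mul (.mul (.c 86) (.v 1)) (.add (.mul (.mul (.c 1048576) (.r 2 1 632 2)) (.w 1 2)) (.mul (.mul (.c 86) (.v 1)) (.add (.mul (.mul (.c 1024) (.r 2 2 632 2)) (.w 1 1)) (.mul (.mul (.c 86) (.v 1)) (.r 2 3 632 2)))))) (.mul (.add (.mul (.q 2) (.r 0 4 1 3)) (.mul (.v 2) (.r 0 636 1 3))) (.mul (.c 1) (.add (.mul (.mul (.add (.mul (.mul (.c 1024) (.s 2 111 632 2)) (.w 0 1)) (.mul (.mul (.c 171) (.v 0)) (.s 2 114 632 2))) (.mul (.c 86) (.v 1))) (.w 1 1)) (.mul (.mul (.s 2 113 632 2) (.mul (.mul (.c 86) (.v 1)) (.mul (.c 86) (.v 1)))) (.w 0 1))))))) (.mul (.mul (.mul (.c 33554432) (.add (.mul (.mul (.c 1024) (.mul (.mul (.r 2 205 632 2) (.mul (.mul (.c 86) (.v 1)) (.add (.mul (.mul (.c 1048576) (.r 2 1 632 2)) (.w 1 2)) (.mul (.mul (.c 86) (.v 1)) (.add (.mul (.mul (.c 1024) (.r 2 2 632 2)) (.w 1 1)) (.mul (.mul (.c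 86) (.v 1)) (.r 2 3 632 2))))))) (.sub (.mul (.c 0) (.w 1 1)) (.mul (.c 12) (.mul (.c 86) (.v 1)))))) (.w 1 1)) (.add (.mul (.mul (.r 2 207 632 2) (.mul (.mul (.c 86) (.v 1)) (.add (.mul (.mul (.c 1048576) (.r 2 1 632 2)) (.w 1 2)) (.mul (.mul (.c 86) (.v 1)) (.add (.mul (.mul (.c 1024) (.r 2 2 632 2)) (.w 1 1)) (.mul (.mul (.c 86) (.v 1)) (.r 2 3 632 2))))))) (.sub (.mul (.mul (.c 1024) (.mul (.c 86) (.v 1))) (.w 1 1)) (.mul (.c 12) (.mul (.mul (.c 86) (.v 1)) (.mul (.c 86) (.v 1)))))) (.add (.mul (.mul (.r 2 208 632 2) (.mul (.mul (.c 86) (.v 1)) (.add (.mul (.mul (.c 1048576) (.r 2 1 632 2)) (.w 1 2)) (.mul (.mul (.c 86) (.v 1)) (.add (.mul (.mul (.c 1024) (.r 2 2 632 2)) (.w 1 1)) (.mul (.mul (.c 86) (.v 1)) (.r 2 3 632 2))))))) (.sub (.mul (.c 0) (.w 1 2)) (.mul (.c 12) (.mul (.mul (.c 86) (.v 1)) (.mul (.c 86) (.v 1)))))) (.add (.mul (.mul (.r 2 209 632 2) (.mul (.mul (.c 86)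 (.v 1)) (.add (.mul (.mul (.c 1048576) (.r 2 1 632 2)) (.w 1 2)) (.mul (.mul (.c 86) (.v 1)) (.add (.mul (.mul (.c 1024) (.r 2 2 632 2)) (.w 1 1)) (.mul (.mul (.c 86) (.v 1)) (.r 2 3 632 2))))))) (.sub (.mul (.c 144) (.mul (.mul (.c 86) (.v 1)) (.mul (.c 86) (.v 1)))) (.mul (.mul (.c 1024) (.mul (.c 12) (.mul (.c 86) (.v 1)))) (.w 1 1)))) (.mul (.mul (.c 1048576) (.mul (.mul (.r 2 210 632 2) (.mul (.mul (.c 86) (.v 1)) (.add (.mul (.mul (.c 1048576) (.r 2 1 632 2)) (.w 1 2)) (.mul (.mul (.c 86) (.v 1)) (.add (.mul (.mul (.c 1024) (.r 2 2 632 2)) (.w 1 1)) (.mul (.mul (.c 86) (.v 1)) (.r 2 3 632 2))))))) (.sub (.c 0) (.mul (.c 12) (.c 1))))) (.w 1 2))))))) (.w 0 3)) (.w 2 1))), 150, 4, 6, 4, 1⟩,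
  ⟨(.sub (.mul (.mul (.mul (.c 86) (.v 1)) (.add (.mul (.c 1024) (.add (.mul (.add (.mul (.mul (.c 1024) (.s 2 135 632 2)) (.w 0 1)) (.mul (.s 2 136 632 2) (.mul (.c 171) (.v 0)))) (.w 1 1)) (.mul (.mul (.s 2 137 632 2) (.mul (.c 86) (.v 1))) (.w 0 1)))) (.mul (.s 2 138 632 2) (.mul (.mul (.c 86) (.v 1)) (.mul (.c 171) (.v 0)))))) (.w 1 1)) (.mul (.mul (.mul (.mul (.c 86) (.v 1)) (.add (.mul (.mul (.c 1048576) (.r 2 56 632 2)) (.w 1 2)) (.mul (.mul (.c 86) (.v 1)) (.add (.mul (.mul (.c 1024) (.r 2 57 632 2)) (.w 1 1)) (.mul (.mul (.c 86) (.v 1)) (.r 2 58 632 2)))))) (.c 1)) (.w 0 1))), 64, 2, 4, 2, 1⟩,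
  ⟨(.sub (.mul (.mul (.mul (.c 86) (.v 1)) (.add (.mul (.c 1024) (.add (.mul (.add (.mul (.mul (.c 1024) (.s 2 139 632 2)) (.w 0 1)) (.mul (.s 2 140 632 2) (.mul (.c 171) (.v 0)))) (.w 1 1)) (.mul (.mul (.s 2 141 632 2) (.mul (.c 86) (.v 1))) (.w 0 1)))) (.mul (.s 2 142 632 2) (.mul (.mul (.c 86) (.v 1)) (.mul (.c 171) (.v 0)))))) (.w 1 1)) (.mul (.mul (.mul (.mul (.c 86) (.v 1)) (.add (.mul (.mul (.c 1048576) (.r 2 59 632 2)) (.w 1 2)) (.mul (.mul (.c 86) (.v 1)) (.add (.mul (.mul (.c 1024) (.r 2 60 632 2)) (.w 1 1)) (.mul (.mul (.c 86) (.v 1)) (.r 2 61 632 2)))))) (.c 1)) (.w 0 1))), 64, 2, 4, 2, 1⟩,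
  ⟨(.sub (.sub (.add (.mul (.mul (.c 1024) (.mul (.s 2 97 632 2) (.add (.mul (.mul (.c 767) (.w 0 1)) (.w 1 1)) (.add (.mul (.mul (.c 171) (.q 0)) (.w 1 1)) (.mul (.mul (.c 86) (.q 1)) (.w 0 1)))))) (.w 0 1)) (.mul (.s 2 98 632 2) (.mul (.mul (.c 171) (.v 0)) (.add (.mul (.mul (.c 767) (.w 0 1)) (.w 1 1)) (.add (.mul (.mul (.c 171) (.q 0)) (.w 1 1)) (.mul (.mul (.c 86) (.q 1)) (.w 0 1))))))) (.add (.add (.mul (.mul (.c 1024) (.mul (.s 2 79 632 2) (.add (.mul (.mul (.c 767) (.w 0 1)) (.w 1 1)) (.add (.mul (.mul (.c 171) (.q 0)) (.w 1 1)) (.mul (.mul (.c 86) (.q 1)) (.w 0 1)))))) (.w 0 1)) (.mul (.s 2 80 632 2) (.mul (.mul (.c 171) (.v 0)) (.add (.mul (.mul (.c 767) (.w 0 1)) (.w 1 1)) (.add (.mul (.mul (.c 171) (.q 0)) (.w 1 1)) (.mul (.mul (.c 86) (.q 1)) (.w 0 1))))))) (.add (.mul (.mul (.c 1024) (.mul (.mul (.c 1) (.s 2 163 632 2)) (.add (.mul (.mul (.c 767) (.w 0 1)) (.w 1 1)) (.add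 (.mul (.mul (.c 171) (.q 0)) (.w 1 1)) (.mul (.mul (.c 86) (.q 1)) (.w 0 1)))))) (.w 0 1)) (.mul (.mul (.c 1) (.s 2 166 632 2)) (.mul (.mul (.c 171) (.v 0)) (.add (.mul (.mul (.c 767) (.w 0 1)) (.w 1 1)) (.add (.mul (.mul (.c 171) (.q 0)) (.w 1 1)) (.mul (.mul (.c 86) (.q 1)) (.w 0 1))))))))) (.mul (.mul (.c 1024) (.add (.mul (.r 2 221 632 2) (.mul (.c 2) (.add (.mul (.mul (.c 767) (.w 0 1)) (.w 1 1)) (.add (.mul (.mul (.c 171) (.q 0)) (.w 1 1)) (.mul (.mul (.c 86) (.q 1)) (.w 0 1)))))) (.add (.mul (.r 2 222 632 2) (.add (.mul (.mul (.c 767) (.w 0 1)) (.w 1 1)) (.add (.mul (.mul (.c 171) (.q 0)) (.w 1 1)) (.mul (.mul (.c 86) (.q 1)) (.w 0 1))))) (.mul (.r 2 225 632 2) (.mul (.c 2) (.add (.mul (.mul (.c 767) (.w 0 1)) (.w 1 1)) (.add (.mul (.mul (.c 171) (.q 0)) (.w 1 1)) (.mul (.mul (.c 86) (.q 1)) (.w 0 1))))))))) (.w 0 1))), 59, 3, 2, 2, 1⟩,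
  ⟨(.sub (.sub (.mul (.add (.mul (.mul (.c 1024) (.s 2 99 632 2)) (.w 0 1)) (.mul (.mul (.c 171) (.v 0)) (.s 2 102 632 2))) (.c 1)) (.add (.mul (.add (.mul (.mul (.c 1024) (.s 2 81 632 2)) (.w 0 1)) (.mul (.mul (.c 171) (.v 0)) (.s 2 84 632 2))) (.c 1)) (.mul (.mul (.c 1) (.add (.mul (.mul (.c 1024) (.s 2 169 632 2)) (.w 0 1)) (.mul (.mul (.c 171) (.v 0)) (.s 2 178 632 2)))) (.c 1)))) (.mul (.mul (.c 1024) (.add (.mul (.r 2 221 632 2) (.sub (.c 0) (.mul (.c 12) (.c 1)))) (.add (.mul (.r 2 223 632 2) (.c 1)) (.mul (.r 2 225 632 2) (.sub (.c 0) (.mul (.c 12) (.c 1))))))) (.w 0 1))), 49, 2, 1, 2, 1⟩,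
  ⟨(.sub (.sub (.mul (.s 2 100 632 2) (.c 1)) (.add (.mul (.s 2 82 632 2) (.c 1)) (.mul (.mul (.c 1) (.s 2 172 632 2)) (.c 1)))) (.add (.mul (.r 2 222 632 2) (.sub (.c 0) (.mul (.c 12) (.c 1)))) (.add (.mul (.r 2 224 632 2) (.mul (.c 2) (.c 1))) (.mul (.r 2 225 632 2) (.sub (.c 0) (.mul (.c 24) (.c 1))))))), 39, 1, 1, 2, 1⟩,
  ⟨(.sub (.sub (.mul (.s 2 101 632 2) (.c 1)) (.add (.mul (.s 2 83 632 2) (.c 1)) (.mul (.mul (.c 1) (.s 2 175 632 2)) (.c 1)))) (.add (.mul (.r 2 223 632 2) (.sub (.c 0) (.mul (.c 12) (.c 1)))) (.add (.mul (.r 2 224 632 2) (.sub (.c 0) (.mul (.c 12) (.c 1)))) (.mul (.r 2 225 632 2) (.mul (.c 144) (.c 1)))))), 41, 1, 1, 2, 1⟩,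
  ⟨(.sub (.sub (.mul (.mul (.c 16777216) (.add (.mul (.mul (.c 1024) (.mul (.s 2 103 632 2) (.add (.mul (.mul (.c 767) (.w 0 1)) (.w 1 1)) (.add (.mul (.mul (.c 171) (.q 0)) (.w 1 1)) (.mul (.mul (.c 86) (.q 1)) (.w 0 1)))))) (.w 0 1)) (.mul (.s 2 104 632 2) (.mul (.mul (.c 171) (.v 0)) (.add (.mul (.mul (.c 767) (.w 0 1)) (.w 1 1)) (.add (.mul (.mul (.c 171) (.q 0)) (.w 1 1)) (.mul (.mul (.c 86) (.q 1)) (.w 0 1)))))))) (.w 2 1)) (.add (.add (.mul (.mul (.mul (.c 17179869184) (.mul (.s 2 139 632 2) (.add (.mul (.mul (.c 767) (.w 0 1)) (.w 1 1)) (.add (.mul (.mul (.c 171) (.q 0)) (.w 1 1)) (.mul (.mul (.c 86) (.q 1)) (.w 0 1)))))) (.w 0 1)) (.w 2 1)) (.mul (.r 2 63 632 2) (.add (.mul (.mul (.c 1024) (.mul (.s 2 91 632 2) (.add (.mul (.mul (.c 767) (.w 0 1)) (.w 1 1)) (.add (.mul (.mul (.c 171) (.q 0)) (.w 1 1)) (.mul (.mul (.c 86) (.q 1)) (.w 0 1)))))) (.w 0 1)) (.mul (.s 2 92 632 2)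 (.mul (.mul (.c 171) (.v 0)) (.add (.mul (.mul (.c 767) (.w 0 1)) (.w 1 1)) (.add (.mul (.mul (.c 171) (.q 0)) (.w 1 1)) (.mul (.mul (.c 86) (.q 1)) (.w 0 1))))))))) (.mul (.r 2 64 632 2) (.add (.mul (.mul (.c 1024) (.mul (.mul (.c 1) (.s 2 145 632 2)) (.add (.mul (.mul (.c 767) (.w 0 1)) (.w 1 1)) (.add (.mul (.mul (.c 171) (.q 0)) (.w 1 1)) (.mul (.mul (.c 86) (.q 1)) (.w 0 1)))))) (.w 0 1)) (.mul (.mul (.c 1) (.s 2 148 632 2)) (.mul (.mul (.c 171) (.v 0)) (.add (.mul (.mul (.c 767) (.w 0 1)) (.w 1 1)) (.add (.mul (.mul (.c 171) (.q 0)) (.w 1 1)) (.mul (.mul (.c 86) (.q 1)) (.w 0 1)))))))))) (.mul (.mul (.mul (.c 17179869184) (.add (.mul (.r 2 226 632 2) (.mul (.c 2) (.add (.mul (.mul (.c 767) (.w 0 1)) (.w 1 1)) (.add (.mul (.mul (.c 171) (.q 0)) (.w 1 1)) (.mul (.mul (.c 86) (.q 1)) (.w 0 1)))))) (.add (.mul (.r 2 227 632 2) (.add (.mul (.mul (.c 767) (.w 0 1)) (.w 1 1)) (.add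 (.mul (.mul (.c 171) (.q 0)) (.w 1 1)) (.mul (.mul (.c 86) (.q 1)) (.w 0 1))))) (.mul (.r 2 230 632 2) (.mul (.c 2) (.add (.mul (.mul (.c 767) (.w 0 1)) (.w 1 1)) (.add (.mul (.mul (.c 171) (.q 0)) (.w 1 1)) (.mul (.mul (.c 86) (.q 1)) (.w 0 1))))))))) (.w 0 1)) (.w 2 1))), 90, 3, 2, 3, 1⟩,
  ⟨(.sub (.sub (.mul (.mul (.c 16777216) (.mul (.add (.mul (.mul (.c 1024) (.s 2 105 632 2)) (.w 0 1)) (.mul (.mul (.c 171) (.v 0)) (.s 2 108 632 2))) (.c 1))) (.w 2 1)) (.add (.add (.mul (.mul (.mul (.c 17179869184) (.mul (.s 2 140 632 2) (.c 1))) (.w 0 1)) (.w 2 1)) (.mul (.r 2 63 632 2) (.mul (.add (.mul (.mul (.c 1024) (.s 2 93 632 2)) (.w 0 1)) (.mul (.mul (.c 171) (.v 0)) (.s 2 96 632 2))) (.c 1)))) (.mul (.r 2 64 632 2) (.mul (.mul (.c 1) (.add (.mul (.mul (.c 1024) (.s 2 151 632 2)) (.w 0 1)) (.mul (.mul (.c 171) (.v 0)) (.s 2 160 632 2)))) (.c 1))))) (.mul (.mul (.mul (.c 17179869184) (.add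 (.mul (.r 2 226 632 2) (.sub (.c 0) (.mul (.c 12) (.c 1)))) (.add (.mul (.r 2 228 632 2) (.c 1)) (.mul (.r 2 230 632 2) (.sub (.c 0) (.mul (.c 12) (.c 1))))))) (.w 0 1)) (.w 2 1))), 79, 2, 1, 3, 1⟩,
  ⟨(.sub (.sub (.mul (.mul (.c 16777216) (.mul (.s 2 106 632 2) (.c 1))) (.w 2 1)) (.add (.add (.mul (.mul (.c 16777216) (.mul (.s 2 141 632 2) (.c 1))) (.w 2 1)) (.mul (.r 2 63 632 2) (.mul (.s 2 94 632 2) (.c 1)))) (.mul (.r 2 64 632 2) (.mul (.mul (.c 1) (.s 2 154 632 2)) (.c 1))))) (.mul (.mul (.c 16777216) (.add (.mul (.r 2 227 632 2) (.sub (.c 0) (.mul (.c 12) (.c 1)))) (.add (.mul (.r 2 229 632 2) (.mul (.c 2) (.c 1))) (.mul (.r 2 230 632 2) (.sub (.c 0) (.mul (.c 24) (.c 1))))))) (.w 2 1))), 68, 1, 1, 3, 1⟩,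
  ⟨(.sub (.sub (.mul (.mul (.c 16777216) (.mul (.s 2 107 632 2) (.c 1))) (.w 2 1)) (.add (.add (.mul (.mul (.c 16777216) (.mul (.s 2 142 632 2) (.c 1))) (.w 2 1)) (.mul (.r 2 63 632 2) (.mul (.s 2 95 632 2) (.c 1)))) (.mul (.r 2 64 632 2) (.mul (.mul (.c 1) (.s 2 157 632 2)) (.c 1))))) (.mul (.mul (.c 16777216) (.add (.mul (.r 2 228 632 2) (.sub (.c 0) (.mul (.c 12) (.c 1)))) (.add (.mul (.r 2 229 632 2) (.sub (.c 0) (.mul (.c 12) (.c 1)))) (.mul (.r 2 230 632 2) (.mul (.c 144) (.c 1)))))) (.w 2 1))), 68, 1, 1, 3, 1⟩,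
  ⟨(.sub (.sub (.mul (.mul (.c 16777216) (.add (.mul (.mul (.c 1024) (.mul (.s 2 109 632 2) (.add (.mul (.mul (.c 767) (.w 0 1)) (.w 1 1)) (.add (.mul (.mul (.c 171) (.q 0)) (.w 1 1)) (.mul (.mul (.c 86) (.q 1)) (.w 0 1)))))) (.w 0 1)) (.mul (.s 2 110 632 2) (.mul (.mul (.c 171) (.v 0)) (.add (.mul (.mul (.c 767) (.w 0 1)) (.w 1 1)) (.add (.mul (.mul (.c 171) (.q 0)) (.w 1 1)) (.mul (.mul (.c 86) (.q 1)) (.w 0 1)))))))) (.w 2 1)) (.add (.add (.mul (.mul (.mul (.c 17179869184) (.mul (.s 2 135 632 2) (.add (.mul (.mul (.c 767) (.w 0 1)) (.w 1 1)) (.add (.mul (.mul (.c 171) (.q 0)) (.w 1 1)) (.mul (.mul (.c 86) (.q 1)) (.w 0 1)))))) (.w 0 1)) (.w 2 1)) (.mul (.r 2 62 632 2) (.add (.mul (.mul (.c 1024) (.mul (.s 2 91 632 2) (.add (.mul (.mul (.c 767) (.w 0 1)) (.w 1 1)) (.add (.mul (.mul (.c 171) (.q 0)) (.w 1 1)) (.mul (.mul (.c 86) (.q 1)) (.w 0 1)))))) (.w 0 1)) (.mul (.s 2 92 632 2)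 (.mul (.mul (.c 171) (.v 0)) (.add (.mul (.mul (.c 767) (.w 0 1)) (.w 1 1)) (.add (.mul (.mul (.c 171) (.q 0)) (.w 1 1)) (.mul (.mul (.c 86) (.q 1)) (.w 0 1))))))))) (.mul (.r 2 65 632 2) (.add (.mul (.mul (.c 1024) (.mul (.mul (.c 1) (.s 2 145 632 2)) (.add (.mul (.mul (.c 767) (.w 0 1)) (.w 1 1)) (.add (.mul (.mul (.c 171) (.q 0)) (.w 1 1)) (.mul (.mul (.c 86) (.q 1)) (.w 0 1)))))) (.w 0 1)) (.mul (.mul (.c 1) (.s 2 148 632 2)) (.mul (.mul (.c 171) (.v 0)) (.add (.mul (.mul (.c 767) (.w 0 1)) (.w 1 1)) (.add (.mul (.mul (.c 171) (.q 0)) (.w 1 1)) (.mul (.mul (.c 86) (.q 1)) (.w 0 1)))))))))) (.mul (.mul (.mul (.c 17179869184) (.add (.mul (.r 2 231 632 2) (.mul (.c 2) (.add (.mul (.mul (.c 767) (.w 0 1)) (.w 1 1)) (.add (.mul (.mul (.c 171) (.q 0)) (.w 1 1)) (.mul (.mul (.c 86) (.q 1)) (.w 0 1)))))) (.add (.mul (.r 2 232 632 2) (.add (.mul (.mul (.c 767) (.w 0 1)) (.w 1 1)) (.add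 (.mul (.mul (.c 171) (.q 0)) (.w 1 1)) (.mul (.mul (.c 86) (.q 1)) (.w 0 1))))) (.mul (.r 2 235 632 2) (.mul (.c 2) (.add (.mul (.mul (.c 767) (.w 0 1)) (.w 1 1)) (.add (.mul (.mul (.c 171) (.q 0)) (.w 1 1)) (.mul (.mul (.c 86) (.q 1)) (.w 0 1))))))))) (.w 0 1)) (.w 2 1))), 90, 3, 2, 3, 1⟩,
  ⟨(.sub (.sub (.mul (.mul (.c 16777216) (.mul (.add (.mul (.mul (.c 1024) (.s 2 111 632 2)) (.w 0 1)) (.mul (.mul (.c 171) (.v 0)) (.s 2 114 632 2))) (.c 1))) (.w 2 1)) (.add (.add (.mul (.mul (.mul (.c 17179869184) (.mul (.s 2 136 632 2) (.c 1))) (.w 0 1)) (.w 2 1)) (.mul (.r 2 62 632 2) (.mul (.add (.mul (.mul (.c 1024) (.s 2 93 632 2)) (.w 0 1)) (.mul (.mul (.c 171) (.v 0)) (.s 2 96 632 2))) (.c 1)))) (.mul (.r 2 65 632 2) (.mul (.mul (.c 1) (.add (.mul (.mul (.c 1024) (.s 2 151 632 2)) (.w 0 1)) (.mul (.mul (.c 171) (.v 0)) (.s 2 160 632 2)))) (.c 1))))) (.mul (.mul (.mul (.c 17179869184) (.add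 (.mul (.r 2 231 632 2) (.sub (.c 0) (.mul (.c 12) (.c 1)))) (.add (.mul (.r 2 233 632 2) (.c 1)) (.mul (.r 2 235 632 2) (.sub (.c 0) (.mul (.c 12) (.c 1))))))) (.w 0 1)) (.w 2 1))), 79, 2, 1, 3, 1⟩,
  ⟨(.sub (.sub (.mul (.mul (.c 16777216) (.mul (.s 2 112 632 2) (.c 1))) (.w 2 1)) (.add (.add (.mul (.mul (.c 16777216) (.mul (.s 2 137 632 2) (.c 1))) (.w 2 1)) (.mul (.r 2 62 632 2) (.mul (.s 2 94 632 2) (.c 1)))) (.mul (.r 2 65 632 2) (.mul (.mul (.c 1) (.s 2 154 632 2)) (.c 1))))) (.mul (.mul (.c 16777216) (.add (.mul (.r 2 232 632 2) (.sub (.c 0) (.mul (.c 12) (.c 1)))) (.add (.mul (.r 2 234 632 2) (.mul (.c 2) (.c 1))) (.mul (.r 2 235 632 2) (.sub (.c 0) (.mul (.c 24) (.c 1))))))) (.w 2 1))), 68, 1, 1, 3, 1⟩,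
  ⟨(.sub (.sub (.mul (.mul (.c 16777216) (.mul (.s 2 113 632 2) (.c 1))) (.w 2 1)) (.add (.add (.mul (.mul (.c 16777216) (.mul (.s 2 138 632 2) (.c 1))) (.w 2 1)) (.mul (.r 2 62 632 2) (.mul (.s 2 95 632 2) (.c 1)))) (.mul (.r 2 65 632 2) (.mul (.mul (.c 1) (.s 2 157 632 2)) (.c 1))))) (.mul (.mul (.c 16777216) (.add (.mul (.r 2 233 632 2) (.sub (.c 0) (.mul (.c 12) (.c 1)))) (.add (.mul (.r 2 234 632 2) (.sub (.c 0) (.mul (.c 12) (.c 1)))) (.mul (.r 2 235 632 2) (.mul (.c 144) (.c 1)))))) (.w 2 1))), 68, 1, 1, 3, 1⟩,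
  ⟨(.sub (.sub (.mul (.mul (.mul (.c 16777216) (.add (.mul (.mul (.c 1024) (.mul (.s 2 143 632 2) (.add (.mul (.mul (.c 767) (.w 0 1)) (.w 1 1)) (.add (.mul (.mul (.c 171) (.q 0)) (.w 1 1)) (.mul (.mul (.c 86) (.q 1)) (.w 0 1)))))) (.w 0 1)) (.mul (.s 2 146 632 2) (.mul (.mul (.c 171) (.v 0)) (.add (.mul (.mul (.c 767) (.w 0 1)) (.w 1 1)) (.add (.mul (.mul (.c 171) (.q 0)) (.w 1 1)) (.mul (.mul (.c 86) (.q 1)) (.w 0 1)))))))) (.w 0 1)) (.w 2 1)) (.add (.mul (.c 1024) (.mul (.add (.mul (.q 2) (.r 0 4 1 3)) (.mul (.v 2) (.r 0 636 1 3))) (.mul (.s 2 119 632 2) (.add (.mul (.mul (.c 767) (.w 0 1)) (.w 1 1)) (.add (.mul (.mul (.c 171) (.q 0)) (.w 1 1)) (.mul (.mul (.c 86) (.q 1)) (.w 0 1))))))) (.mul (.add (.add (.mul (.r 2 115 632 2) (.add (.mul (.mul (.c 1024) (.mul (.s 2 16 632 2) (.add (.mul (.mul (.c 767) (.w 0 1)) (.w 1 1)) (.add (.mul (.mul (.c 171) (.q 0)) (.w 1 1)) (.mul (.mul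 (.c 86) (.q 1)) (.w 0 1)))))) (.w 0 1)) (.mul (.s 2 17 632 2) (.mul (.mul (.c 171) (.v 0)) (.add (.mul (.mul (.c 767) (.w 0 1)) (.w 1 1)) (.add (.mul (.mul (.c 171) (.q 0)) (.w 1 1)) (.mul (.mul (.c 86) (.q 1)) (.w 0 1)))))))) (.mul (.r 2 117 632 2) (.add (.mul (.mul (.c 1024) (.mul (.s 2 10 632 2) (.add (.mul (.mul (.c 767) (.w 0 1)) (.w 1 1)) (.add (.mul (.mul (.c 171) (.q 0)) (.w 1 1)) (.mul (.mul (.c 86) (.q 1)) (.w 0 1)))))) (.w 0 1)) (.mul (.s 2 11 632 2) (.mul (.mul (.c 171) (.v 0)) (.add (.mul (.mul (.c 767) (.w 0 1)) (.w 1 1)) (.add (.mul (.mul (.c 171) (.q 0)) (.w 1 1)) (.mul (.mul (.c 86) (.q 1)) (.w 0 1))))))))) (.add (.mul (.r 2 116 632 2) (.add (.mul (.mul (.c 1024) (.mul (.s 2 28 632 2) (.add (.mul (.mul (.c 767) (.w 0 1)) (.w 1 1)) (.add (.mul (.mul (.c 171) (.q 0)) (.w 1 1)) (.mul (.mul (.c 86) (.q 1)) (.w 0 1)))))) (.w 0 1)) (.mul (.s 2 29 632 2) (.mul (.mul (.c 171)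 (.v 0)) (.add (.mul (.mul (.c 767) (.w 0 1)) (.w 1 1)) (.add (.mul (.mul (.c 171) (.q 0)) (.w 1 1)) (.mul (.mul (.c 86) (.q 1)) (.w 0 1)))))))) (.mul (.r 2 118 632 2) (.add (.mul (.mul (.c 1024) (.mul (.s 2 22 632 2) (.add (.mul (.mul (.c 767) (.w 0 1)) (.w 1 1)) (.add (.mul (.mul (.c 171) (.q 0)) (.w 1 1)) (.mul (.mul (.c 86) (.q 1)) (.w 0 1)))))) (.w 0 1)) (.mul (.s 2 23 632 2) (.mul (.mul (.c 171) (.v 0)) (.add (.mul (.mul (.c 767) (.w 0 1)) (.w 1 1)) (.add (.mul (.mul (.c 171) (.q 0)) (.w 1 1)) (.mul (.mul (.c 86) (.q 1)) (.w 0 1)))))))))) (.w 0 1)))) (.mul (.mul (.mul (.c 17179869184) (.add (.mul (.r 2 211 632 2) (.mul (.c 2) (.add (.mul (.mul (.c 767) (.w 0 1)) (.w 1 1)) (.add (.mul (.mul (.c 171) (.q 0)) (.w 1 1)) (.mul (.mul (.c 86) (.q 1)) (.w 0 1)))))) (.add (.mul (.r 2 212 632 2) (.add (.mul (.mul (.c 767) (.w 0 1)) (.w 1 1)) (.add (.mul (.mul (.c 171) (.q 0)) (.w 1 1))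 (.mul (.mul (.c 86) (.q 1)) (.w 0 1))))) (.mul (.r 2 215 632 2) (.mul (.c 2) (.add (.mul (.mul (.c 767) (.w 0 1)) (.w 1 1)) (.add (.mul (.mul (.c 171) (.q 0)) (.w 1 1)) (.mul (.mul (.c 86) (.q 1)) (.w 0 1))))))))) (.w 0 2)) (.w 2 1))), 93, 4, 2, 3, 1⟩,
  ⟨(.sub (.sub (.mul (.mul (.mul (.c 16777216) (.mul (.add (.mul (.mul (.c 1024) (.s 2 149 632 2)) (.w 0 1)) (.mul (.mul (.c 171) (.v 0)) (.s 2 158 632 2))) (.c 1))) (.w 0 1)) (.w 2 1)) (.add (.mul (.c 1024) (.mul (.add (.mul (.q 2) (.r 0 4 1 3)) (.mul (.v 2) (.r 0 636 1 3))) (.mul (.s 2 120 632 2) (.c 1)))) (.mul (.add (.add (.mul (.r 2 115 632 2) (.mul (.add (.mul (.mul (.c 1024) (.s 2 18 632 2)) (.w 0 1)) (.mul (.mul (.c 171) (.v 0)) (.s 2 21 632 2))) (.c 1))) (.mul (.r 2 117 632 2) (.mul (.add (.mul (.mul (.c 1024) (.s 2 12 632 2)) (.w 0 1)) (.mul (.mul (.c 171) (.v 0)) (.s 2 15 632 2))) (.c 1)))) (.add (.mul (.r 2 116 632 2) (.mul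 (.add (.mul (.mul (.c 1024) (.s 2 30 632 2)) (.w 0 1)) (.mul (.mul (.c 171) (.v 0)) (.s 2 33 632 2))) (.c 1))) (.mul (.r 2 118 632 2) (.mul (.add (.mul (.mul (.c 1024) (.s 2 24 632 2)) (.w 0 1)) (.mul (.mul (.c 171) (.v 0)) (.s 2 27 632 2))) (.c 1))))) (.w 0 1)))) (.mul (.mul (.mul (.c 17179869184) (.add (.mul (.r 2 211 632 2) (.sub (.c 0) (.mul (.c 12) (.c 1)))) (.add (.mul (.r 2 213 632 2) (.c 1)) (.mul (.r 2 215 632 2) (.sub (.c 0) (.mul (.c 12) (.c 1))))))) (.w 0 2)) (.w 2 1))), 81, 3, 1, 3, 1⟩,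
  ⟨(.sub (.sub (.mul (.mul (.mul (.c 16777216) (.mul (.s 2 152 632 2) (.c 1))) (.w 0 2)) (.w 2 1)) (.add (.mul (.add (.mul (.q 2) (.r 0 4 1 3)) (.mul (.v 2) (.r 0 636 1 3))) (.mul (.s 2 121 632 2) (.c 1))) (.mul (.add (.add (.mul (.r 2 115 632 2) (.mul (.s 2 19 632 2) (.c 1))) (.mul (.r 2 117 632 2) (.mul (.s 2 13 632 2) (.c 1)))) (.add (.mul (.r 2 116 632 2) (.mul (.s 2 31 632 2) (.c 1))) (.mul (.r 2 118 632 2) (.mul (.s 2 25 632 2) (.c 1))))) (.w 0 2)))) (.mul (.mul (.mul (.c 16777216) (.add (.mul (.r 2 212 632 2) (.sub (.c 0) (.mul (.c 12) (.c 1)))) (.add (.mul (.r 2 214 632 2) (.mul (.c 2) (.c 1))) (.mul (.r 2 215 632 2) (.sub (.c 0) (.mul (.c 24) (.c 1))))))) (.w 0 2)) (.w 2 1))), 71, 3, 1, 3, 1⟩,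
  ⟨(.sub (.sub (.mul (.mul (.mul (.c 16777216) (.mul (.s 2 155 632 2) (.c 1))) (.w 0 2)) (.w 2 1)) (.add (.mul (.add (.mul (.q 2) (.r 0 4 1 3)) (.mul (.v 2) (.r 0 636 1 3))) (.mul (.s 2 122 632 2) (.c 1))) (.mul (.add (.add (.mul (.r 2 115 632 2) (.mul (.s 2 20 632 2) (.c 1))) (.mul (.r 2 117 632 2) (.mul (.s 2 14 632 2) (.c 1)))) (.add (.mul (.r 2 116 632 2) (.mul (.s 2 32 632 2) (.c 1))) (.mul (.r 2 118 632 2) (.mul (.s 2 26 632 2) (.c 1))))) (.w 0 2)))) (.mul (.mul (.mul (.c 16777216) (.add (.mul (.r 2 213 632 2) (.sub (.c 0) (.mul (.c 12) (.c 1)))) (.add (.mul (.r 2 214 632 2) (.sub (.c 0) (.mul (.c 12) (.c 1)))) (.mul (.r 2 215 632 2) (.mul (.c 144) (.c 1)))))) (.w 0 2)) (.w 2 1))), 71, 3, 1, 3, 1⟩,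
  ⟨(.sub (.sub (.mul (.mul (.mul (.c 16777216) (.add (.mul (.mul (.c 1024) (.mul (.s 2 161 632 2) (.add (.mul (.mul (.c 767) (.w 0 1)) (.w 1 1)) (.add (.mul (.mul (.c 171) (.q 0)) (.w 1 1)) (.mul (.mul (.c 86) (.q 1)) (.w 0 1)))))) (.w 0 1)) (.mul (.s 2 164 632 2) (.mul (.mul (.c 171) (.v 0)) (.add (.mul (.mul (.c 767) (.w 0 1)) (.w 1 1)) (.add (.mul (.mul (.c 171) (.q 0)) (.w 1 1)) (.mul (.mul (.c 86) (.q 1)) (.w 0 1)))))))) (.w 0 1)) (.w 2 1)) (.add (.mul (.c 1024) (.mul (.add (.mul (.q 2) (.r 0 4 1 3)) (.mul (.v 2) (.r 0 636 1 3))) (.mul (.s 2 123 632 2) (.add (.mul (.mul (.c 767) (.w 0 1)) (.w 1 1)) (.add (.mul (.mul (.c 171) (.q 0)) (.w 1 1)) (.mul (.mul (.c 86) (.q 1)) (.w 0 1))))))) (.mul (.add (.add (.mul (.r 2 115 632 2) (.add (.mul (.mul (.c 1024) (.mul (.s 2 10 632 2) (.add (.mul (.mul (.c 767) (.w 0 1)) (.w 1 1)) (.add (.mul (.mul (.c 171) (.q 0)) (.w 1 1)) (.mul (.mul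 (.c 86) (.q 1)) (.w 0 1)))))) (.w 0 1)) (.mul (.s 2 11 632 2) (.mul (.mul (.c 171) (.v 0)) (.add (.mul (.mul (.c 767) (.w 0 1)) (.w 1 1)) (.add (.mul (.mul (.c 171) (.q 0)) (.w 1 1)) (.mul (.mul (.c 86) (.q 1)) (.w 0 1)))))))) (.mul (.r 2 117 632 2) (.add (.mul (.mul (.c 1024) (.mul (.s 2 16 632 2) (.add (.mul (.mul (.c 767) (.w 0 1)) (.w 1 1)) (.add (.mul (.mul (.c 171) (.q 0)) (.w 1 1)) (.mul (.mul (.c 86) (.q 1)) (.w 0 1)))))) (.w 0 1)) (.mul (.s 2 17 632 2) (.mul (.mul (.c 171) (.v 0)) (.add (.mul (.mul (.c 767) (.w 0 1)) (.w 1 1)) (.add (.mul (.mul (.c 171) (.q 0)) (.w 1 1)) (.mul (.mul (.c 86) (.q 1)) (.w 0 1))))))))) (.add (.mul (.r 2 116 632 2) (.add (.mul (.mul (.c 1024) (.mul (.s 2 22 632 2) (.add (.mul (.mul (.c 767) (.w 0 1)) (.w 1 1)) (.add (.mul (.mul (.c 171) (.q 0)) (.w 1 1)) (.mul (.mul (.c 86) (.q 1)) (.w 0 1)))))) (.w 0 1)) (.mul (.s 2 23 632 2) (.mul (.mul (.c 171)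 (.v 0)) (.add (.mul (.mul (.c 767) (.w 0 1)) (.w 1 1)) (.add (.mul (.mul (.c 171) (.q 0)) (.w 1 1)) (.mul (.mul (.c 86) (.q 1)) (.w 0 1)))))))) (.mul (.r 2 118 632 2) (.add (.mul (.mul (.c 1024) (.mul (.s 2 28 632 2) (.add (.mul (.mul (.c 767) (.w 0 1)) (.w 1 1)) (.add (.mul (.mul (.c 171) (.q 0)) (.w 1 1)) (.mul (.mul (.c 86) (.q 1)) (.w 0 1)))))) (.w 0 1)) (.mul (.s 2 29 632 2) (.mul (.mul (.c 171) (.v 0)) (.add (.mul (.mul (.c 767) (.w 0 1)) (.w 1 1)) (.add (.mul (.mul (.c 171) (.q 0)) (.w 1 1)) (.mul (.mul (.c 86) (.q 1)) (.w 0 1)))))))))) (.w 0 1)))) (.mul (.mul (.mul (.c 17179869184) (.add (.mul (.r 2 216 632 2) (.mul (.c 2) (.add (.mul (.mul (.c 767) (.w 0 1)) (.w 1 1)) (.add (.mul (.mul (.c 171) (.q 0)) (.w 1 1)) (.mul (.mul (.c 86) (.q 1)) (.w 0 1)))))) (.add (.mul (.r 2 217 632 2) (.add (.mul (.mul (.c 767) (.w 0 1)) (.w 1 1)) (.add (.mul (.mul (.c 171) (.q 0)) (.w 1 1))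 (.mul (.mul (.c 86) (.q 1)) (.w 0 1))))) (.mul (.r 2 220 632 2) (.mul (.c 2) (.add (.mul (.mul (.c 767) (.w 0 1)) (.w 1 1)) (.add (.mul (.mul (.c 171) (.q 0)) (.w 1 1)) (.mul (.mul (.c 86) (.q 1)) (.w 0 1))))))))) (.w 0 2)) (.w 2 1))), 93, 4, 2, 3, 1⟩,
  ⟨(.sub (.sub (.mul (.mul (.mul (.c 16777216) (.mul (.add (.mul (.mul (.c 1024) (.s 2 167 632 2)) (.w 0 1)) (.mul (.mul (.c 171) (.v 0)) (.s 2 176 632 2))) (.c 1))) (.w 0 1)) (.w 2 1)) (.add (.mul (.c 1024) (.mul (.add (.mul (.q 2) (.r 0 4 1 3)) (.mul (.v 2) (.r 0 636 1 3))) (.mul (.s 2 124 632 2) (.c 1)))) (.mul (.add (.add (.mul (.r 2 115 632 2) (.mul (.add (.mul (.mul (.c 1024) (.s 2 12 632 2)) (.w 0 1)) (.mul (.mul (.c 171) (.v 0)) (.s 2 15 632 2))) (.c 1))) (.mul (.r 2 117 632 2) (.mul (.add (.mul (.mul (.c 1024) (.s 2 18 632 2)) (.w 0 1)) (.mul (.mul (.c 171) (.v 0)) (.s 2 21 632 2))) (.c 1)))) (.add (.mul (.r 2 116 632 2) (.mul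 (.add (.mul (.mul (.c 1024) (.s 2 24 632 2)) (.w 0 1)) (.mul (.mul (.c 171) (.v 0)) (.s 2 27 632 2))) (.c 1))) (.mul (.r 2 118 632 2) (.mul (.add (.mul (.mul (.c 1024) (.s 2 30 632 2)) (.w 0 1)) (.mul (.mul (.c 171) (.v 0)) (.s 2 33 632 2))) (.c 1))))) (.w 0 1)))) (.mul (.mul (.mul (.c 17179869184) (.add (.mul (.r 2 216 632 2) (.sub (.c 0) (.mul (.c 12) (.c 1)))) (.add (.mul (.r 2 218 632 2) (.c 1)) (.mul (.r 2 220 632 2) (.sub (.c 0) (.mul (.c 12) (.c 1))))))) (.w 0 2)) (.w 2 1))), 81, 3, 1, 3, 1⟩,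
  ⟨(.sub (.sub (.mul (.mul (.mul (.c 16777216) (.mul (.s 2 170 632 2) (.c 1))) (.w 0 2)) (.w 2 1)) (.add (.mul (.add (.mul (.q 2) (.r 0 4 1 3)) (.mul (.v 2) (.r 0 636 1 3))) (.mul (.s 2 125 632 2) (.c 1))) (.mul (.add (.add (.mul (.r 2 115 632 2) (.mul (.s 2 13 632 2) (.c 1))) (.mul (.r 2 117 632 2) (.mul (.s 2 19 632 2) (.c 1)))) (.add (.mul (.r 2 116 632 2) (.mul (.s 2 25 632 2) (.c 1))) (.mul (.r 2 118 632 2) (.mul (.s 2 31 632 2) (.c 1))))) (.w 0 2)))) (.mul (.mul (.mul (.c 16777216) (.add (.mul (.r 2 217 632 2) (.sub (.c 0) (.mul (.c 12) (.c 1)))) (.add (.mul (.r 2 219 632 2) (.mul (.c 2) (.c 1))) (.mul (.r 2 220 632 2) (.sub (.c 0) (.mul (.c 24) (.c 1))))))) (.w 0 2)) (.w 2 1))), 71, 3, 1, 3, 1⟩,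
  ⟨(.sub (.sub (.mul (.mul (.mul (.c 16777216) (.mul (.s 2 173 632 2) (.c 1))) (.w 0 2)) (.w 2 1)) (.add (.mul (.add (.mul (.q 2) (.r 0 4 1 3)) (.mul (.v 2) (.r 0 636 1 3))) (.mul (.s 2 126 632 2) (.c 1))) (.mul (.add (.add (.mul (.r 2 115 632 2) (.mul (.s 2 14 632 2) (.c 1))) (.mul (.r 2 117 632 2) (.mul (.s 2 20 632 2) (.c 1)))) (.add (.mul (.r 2 116 632 2) (.mul (.s 2 26 632 2) (.c 1))) (.mul (.r 2 118 632 2) (.mul (.s 2 32 632 2) (.c 1))))) (.w 0 2)))) (.mul (.mul (.mul (.c 16777216) (.add (.mul (.r 2 218 632 2) (.sub (.c 0) (.mul (.c 12) (.c 1)))) (.add (.mul (.r 2 219 632 2) (.sub (.c 0) (.mul (.c 12) (.c 1)))) (.mul (.r 2 220 632 2) (.mul (.c 144) (.c 1)))))) (.w 0 2)) (.w 2 1))), 71, 3, 1, 3, 1⟩,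
  ⟨(.sub (.add (.mul (.mul (.c 1024) (.mul (.s 2 143 632 2) (.add (.mul (.mul (.c 767) (.w 0 1)) (.w 1 1)) (.add (.mul (.mul (.c 171) (.q 0)) (.w 1 1)) (.mul (.mul (.c 86) (.q 1)) (.w 0 1)))))) (.w 0 1)) (.mul (.s 2 146 632 2) (.mul (.mul (.c 171) (.v 0)) (.add (.mul (.mul (.c 767) (.w 0 1)) (.w 1 1)) (.add (.mul (.mul (.c 171) (.q 0)) (.w 1 1)) (.mul (.mul (.c 86) (.q 1)) (.w 0 1))))))) (.mul (.mul (.c 1024) (.add (.mul (.r 2 236 632 2) (.mul (.c 2) (.add (.mul (.mul (.c 767) (.w 0 1)) (.w 1 1)) (.add (.mul (.mul (.c 171) (.q 0)) (.w 1 1)) (.mul (.mul (.c 86) (.q 1)) (.w 0 1)))))) (.add (.mul (.r 2 237 632 2) (.add (.mul (.mul (.c 767) (.w 0 1)) (.w 1 1)) (.add (.mul (.mul (.c 171) (.q 0)) (.w 1 1)) (.mul (.mul (.c 86) (.q 1)) (.w 0 1))))) (.mul (.r 2 240 632 2) (.mul (.c 2) (.add (.mul (.mul (.c 767) (.w 0 1)) (.w 1 1)) (.add (.mul (.mul (.c 171) (.q 0)) (.w 1 1)) (.mul (.mul (.c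 86) (.q 1)) (.w 0 1))))))))) (.w 0 1))), 59, 3, 2, 2, 1⟩,
  ⟨(.sub (.mul (.add (.mul (.mul (.c 1024) (.s 2 149 632 2)) (.w 0 1)) (.mul (.mul (.c 171) (.v 0)) (.s 2 158 632 2))) (.c 1)) (.mul (.mul (.c 1024) (.add (.mul (.r 2 236 632 2) (.sub (.c 0) (.mul (.c 12) (.c 1)))) (.add (.mul (.r 2 238 632 2) (.c 1)) (.mul (.r 2 240 632 2) (.sub (.c 0) (.mul (.c 12) (.c 1))))))) (.w 0 1))), 49, 2, 1, 2, 1⟩,
  ⟨(.sub (.mul (.s 2 152 632 2) (.c 1)) (.add (.mul (.r 2 237 632 2) (.sub (.c 0) (.mul (.c 12) (.c 1)))) (.add (.mul (.r 2 239 632 2) (.mul (.c 2) (.c 1))) (.mul (.r 2 240 632 2) (.sub (.c 0) (.mul (.c 24) (.c 1))))))), 39, 1, 1, 2, 1⟩,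
  ⟨(.sub (.mul (.s 2 155 632 2) (.c 1)) (.add (.mul (.r 2 238 632 2) (.sub (.c 0) (.mul (.c 12) (.c 1)))) (.add (.mul (.r 2 239 632 2) (.sub (.c 0) (.mul (.c 12) (.c 1)))) (.mul (.r 2 240 632 2) (.mul (.c 144) (.c 1)))))), 41, 1, 1, 2, 1⟩,
  ⟨(.sub (.add (.mul (.mul (.c 1024) (.mul (.s 2 161 632 2) (.add (.mul (.mul (.c 767) (.w 0 1)) (.w 1 1)) (.add (.mul (.mul (.c 171) (.q 0)) (.w 1 1)) (.mul (.mul (.c 86) (.q 1)) (.w 0 1)))))) (.w 0 1)) (.mul (.s 2 164 632 2) (.mul (.mul (.c 171) (.v 0)) (.add (.mul (.mul (.c 767) (.w 0 1)) (.w 1 1)) (.add (.mul (.mul (.c 171) (.q 0)) (.w 1 1)) (.mul (.mul (.c 86) (.q 1)) (.w 0 1))))))) (.mul (.mul (.c 1024) (.add (.mul (.r 2 241 632 2) (.mul (.c 2) (.add (.mul (.mul (.c 767) (.w 0 1)) (.w 1 1)) (.add (.mul (.mul (.c 171) (.q 0)) (.w 1 1)) (.mul (.mul (.c 86) (.q 1)) (.w 0 1)))))) (.add (.mul (.r 2 242 632 2) (.add (.mul (.mul (.c 767) (.w 0 1))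 (.w 1 1)) (.add (.mul (.mul (.c 171) (.q 0)) (.w 1 1)) (.mul (.mul (.c 86) (.q 1)) (.w 0 1))))) (.mul (.r 2 245 632 2) (.mul (.c 2) (.add (.mul (.mul (.c 767) (.w 0 1)) (.w 1 1)) (.add (.mul (.mul (.c 171) (.q 0)) (.w 1 1)) (.mul (.mul (.c 86) (.q 1)) (.w 0 1))))))))) (.w 0 1))), 59, 3, 2, 2, 1⟩,
  ⟨(.sub (.mul (.add (.mul (.mul (.c 1024) (.s 2 167 632 2)) (.w 0 1)) (.mul (.mul (.c 171) (.v 0)) (.s 2 176 632 2))) (.c 1)) (.mul (.mul (.c 1024) (.add (.mul (.r 2 241 632 2) (.sub (.c 0) (.mul (.c 12) (.c 1)))) (.add (.mul (.r 2 243 632 2) (.c 1)) (.mul (.r 2 245 632 2) (.sub (.c 0) (.mul (.c 12) (.c 1))))))) (.w 0 1))), 49, 2, 1, 2, 1⟩,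
  ⟨(.sub (.mul (.s 2 170 632 2) (.c 1)) (.add (.mul (.r 2 242 632 2) (.sub (.c 0) (.mul (.c 12) (.c 1)))) (.add (.mul (.r 2 244 632 2) (.mul (.c 2) (.c 1))) (.mul (.r 2 245 632 2) (.sub (.c 0) (.mul (.c 24) (.c 1))))))), 39, 1, 1, 2, 1⟩,
  ⟨(.sub (.mul (.s 2 173 632 2) (.c 1)) (.add (.mul (.r 2 243 632 2) (.sub (.c 0) (.mul (.c 12) (.c 1)))) (.add (.mul (.r 2 244 632 2) (.sub (.c 0) (.mul (.c 12) (.c 1)))) (.mul (.r 2 245 632 2) (.mul (.c 144) (.c 1)))))), 41, 1, 1, 2, 1⟩,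
  ⟨(.sub (.mul (.mul (.mul (.mul (.c 16777216) (.mul (.mul (.c 86) (.v 1)) (.add (.mul (.c 1024) (.add (.mul (.add (.mul (.mul (.c 1024) (.s 2 34 632 2)) (.w 0 1)) (.mul (.s 2 35 632 2) (.mul (.c 171) (.v 0)))) (.w 1 1)) (.mul (.mul (.s 2 36 632 2) (.mul (.c 86) (.v 1))) (.w 0 1)))) (.mul (.s 2 37 632 2) (.mul (.mul (.c 86) (.v 1)) (.mul (.c 171) (.v 0))))))) (.w 0 1)) (.w 1 1)) (.w 2 1)) (.mul (.mul (.mul (.c 86) (.v 1)) (.add (.mul (.mul (.c 1048576) (.r 2 1 632 2)) (.w 1 2)) (.mul (.mul (.c 86) (.v 1)) (.add (.mul (.mul (.c 1024) (.r 2 2 632 2)) (.w 1 1)) (.mul (.mul (.c 86) (.v 1)) (.r 2 3 632 2)))))) (.add (.mul (.q 2) (.r 0 4 1 3)) (.mul (.v 2) (.r 0 636 1 3))))), 97, 3, 4, 3, 1⟩,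
  ⟨(.sub (.sub (.mul (.mul (.mul (.mul (.c 590295810358705651712) (.mul (.mul (.c 86) (.v 1)) (.add (.mul (.c 1024) (.add (.mul (.add (.mul (.mul (.c 1024) (.s 2 299 632 2)) (.w 0 1)) (.mul (.s 2 300 632 2) (.mul (.c 171) (.v 0)))) (.w 1 1)) (.mul (.mul (.s 2 301 632 2) (.mul (.c 86) (.v 1))) (.w 0 1)))) (.mul (.s 2 302 632 2) (.mul (.mul (.c 86) (.v 1)) (.mul (.c 171) (.v 0))))))) (.w 0 3)) (.w 1 3)) (.w 2 2)) (.mul (.mul (.mul (.c 86) (.v 1)) (.add (.mul (.mul (.c 1048576) (.r 2 1 632 2)) (.w 1 2)) (.mul (.mul (.c 86) (.v 1)) (.add (.mul (.mul (.c 1024) (.r 2 2 632 2)) (.w 1 1)) (.mul (.mul (.c 86) (.v 1)) (.r 2 3 632 2)))))) (.mul (.add (.mul (.q 2) (.r 0 4 1 3)) (.mul (.v 2) (.r 0 636 1 3))) (.add (.mul (.mul (.mul (.mul (.c 34359738368) (.mul (.c 1) (.add (.mul (.c 853) (.w 0 1)) (.mul (.c 171) (.q 0))))) (.w 0 1)) (.w 1 2)) (.w 2 1)) (.mul (.c 1) (.add (.mul (.add (.mul (.mul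 (.c 1024) (.mul (.s 2 16 632 2) (.add (.mul (.mul (.c 767) (.w 0 1)) (.w 1 1)) (.add (.mul (.mul (.c 171) (.q 0)) (.w 1 1)) (.mul (.mul (.c 86) (.q 1)) (.w 0 1)))))) (.w 0 1)) (.mul (.s 2 17 632 2) (.mul (.mul (.c 171) (.v 0)) (.add (.mul (.mul (.c 767) (.w 0 1)) (.w 1 1)) (.add (.mul (.mul (.c 171) (.q 0)) (.w 1 1)) (.mul (.mul (.c 86) (.q 1)) (.w 0 1))))))) (.w 1 1)) (.add (.mul (.add (.mul (.mul (.c 1024) (.mul (.s 2 16 632 2) (.add (.mul (.c 853) (.w 0 1)) (.mul (.c 171) (.q 0))))) (.w 0 1)) (.mul (.s 2 17 632 2) (.mul (.mul (.c 171) (.v 0)) (.add (.mul (.c 853) (.w 0 1)) (.mul (.c 171) (.q 0)))))) (.w 1 2)) (.mul (.mul (.s 2 19 632 2) (.mul (.mul (.c 86) (.v 1)) (.mul (.c 86) (.v 1)))) (.w 0 2))))))))) (.mul (.mul (.mul (.c 33554432) (.add (.mul (.mul (.c 1024) (.mul (.mul (.r 2 419 632 2) (.mul (.mul (.c 86) (.v 1)) (.add (.mul (.mul (.c 1048576) (.r 2 1 632 2)) (.w 1 2)) (.mul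 (.mul (.c 86) (.v 1)) (.add (.mul (.mul (.c 1024) (.r 2 2 632 2)) (.w 1 1)) (.mul (.mul (.c 86) (.v 1)) (.r 2 3 632 2))))))) (.mul (.c 2) (.add (.mul (.mul (.c 767) (.w 0 1)) (.w 1 1)) (.add (.mul (.mul (.c 171) (.q 0)) (.w 1 1)) (.mul (.mul (.c 86) (.q 1)) (.w 0 1))))))) (.w 1 1)) (.add (.mul (.mul (.c 1024) (.mul (.mul (.r 2 420 632 2) (.mul (.mul (.c 86) (.v 1)) (.add (.mul (.mul (.c 1048576) (.r 2 1 632 2)) (.w 1 2)) (.mul (.mul (.c 86) (.v 1)) (.add (.mul (.mul (.c 1024) (.r 2 2 632 2)) (.w 1 1)) (.mul (.mul (.c 86) (.v 1)) (.r 2 3 632 2))))))) (.add (.mul (.mul (.c 767) (.w 0 1)) (.w 1 1)) (.add (.mul (.mul (.c 171) (.q 0)) (.w 1 1)) (.mul (.mul (.c 86) (.q 1)) (.w 0 1)))))) (.w 1 1)) (.add (.mul (.mul (.c 1024) (.mul (.mul (.r 2 423 632 2) (.mul (.mul (.c 86) (.v 1)) (.add (.mul (.mul (.c 1048576) (.r 2 1 632 2)) (.w 1 2)) (.mul (.mul (.c 86) (.v 1)) (.add (.mul (.mul (.c 1024)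 (.r 2 2 632 2)) (.w 1 1)) (.mul (.mul (.c 86) (.v 1)) (.r 2 3 632 2))))))) (.mul (.c 2) (.add (.mul (.mul (.c 767) (.w 0 1)) (.w 1 1)) (.add (.mul (.mul (.c 171) (.q 0)) (.w 1 1)) (.mul (.mul (.c 86) (.q 1)) (.w 0 1))))))) (.w 1 1)) (.add (.mul (.mul (.c 1024) (.mul (.mul (.r 2 424 632 2) (.mul (.mul (.c 86) (.v 1)) (.add (.mul (.mul (.c 1048576) (.r 2 1 632 2)) (.w 1 2)) (.mul (.mul (.c 86) (.v 1)) (.add (.mul (.mul (.c 1024) (.r 2 2 632 2)) (.w 1 1)) (.mul (.mul (.c 86) (.v 1)) (.r 2 3 632 2))))))) (.mul (.c 2) (.add (.mul (.c 853) (.w 0 1)) (.mul (.c 171) (.q 0)))))) (.w 1 2)) (.add (.mul (.mul (.r 2 425 632 2) (.mul (.mul (.c 86) (.v 1)) (.add (.mul (.mul (.c 1048576) (.r 2 1 632 2)) (.w 1 2)) (.mul (.mul (.c 86) (.v 1)) (.add (.mul (.mul (.c 1024) (.r 2 2 632 2)) (.w 1 1)) (.mul (.mul (.c 86) (.v 1)) (.r 2 3 632 2))))))) (.sub (.mul (.mul (.c 1024) (.add (.mul (.c 853) (.w 0 1))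 (.mul (.c 171) (.q 0)))) (.w 1 2)) (.mul (.mul (.c 12) (.mul (.mul (.c 86) (.v 1)) (.mul (.c 86) (.v 1)))) (.w 0 1)))) (.add (.mul (.mul (.mul (.r 2 427 632 2) (.mul (.mul (.c 86) (.v 1)) (.add (.mul (.mul (.c 1048576) (.r 2 1 632 2)) (.w 1 2)) (.mul (.mul (.c 86) (.v 1)) (.add (.mul (.mul (.c 1024) (.r 2 2 632 2)) (.w 1 1)) (.mul (.mul (.c 86) (.v 1)) (.r 2 3 632 2))))))) (.mul (.c 2) (.mul (.mul (.c 86) (.v 1)) (.mul (.c 86) (.v 1))))) (.w 0 1)) (.add (.mul (.mul (.r 2 428 632 2) (.mul (.mul (.c 86) (.v 1)) (.add (.mul (.mul (.c 1048576) (.r 2 1 632 2)) (.w 1 2)) (.mul (.mul (.c 86) (.v 1)) (.add (.mul (.mul (.c 1024) (.r 2 2 632 2)) (.w 1 1)) (.mul (.mul (.c 86) (.v 1)) (.r 2 3 632 2))))))) (.sub (.mul (.mul (.c 1024) (.mul (.c 2) (.add (.mul (.c 853) (.w 0 1)) (.mul (.c 171) (.q 0))))) (.w 1 2)) (.mul (.mul (.c 24) (.mul (.mul (.c 86) (.v 1)) (.mul (.c 86) (.v 1)))) (.w 0 1))))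 (.mul (.mul (.mul (.c 1048576) (.mul (.mul (.r 2 429 632 2) (.mul (.mul (.c 86) (.v 1)) (.add (.mul (.mul (.c 1048576) (.r 2 1 632 2)) (.w 1 2)) (.mul (.mul (.c 86) (.v 1)) (.add (.mul (.mul (.c 1024) (.r 2 2 632 2)) (.w 1 1)) (.mul (.mul (.c 86) (.v 1)) (.r 2 3 632 2))))))) (.c 2))) (.w 0 1)) (.w 1 2)))))))))) (.w 0 3)) (.w 2 1))), 155, 5, 6, 4, 1⟩,
  ⟨(.sub (.sub (.mul (.mul (.mul (.c 0) (.w 0 3)) (.w 1 3)) (.w 2 3)) (.mul (.mul (.mul (.c 86) (.v 1)) (.add (.mul (.mul (.c 1048576) (.r 2 1 632 2)) (.w 1 2)) (.mul (.mul (.c 86) (.v 1)) (.add (.mul (.mul (.c 1024) (.r 2 2 632 2)) (.w 1 1)) (.mul (.mul (.c 86) (.v 1)) (.r 2 3 632 2)))))) (.mul (.add (.mul (.q 2) (.r 0 4 1 3)) (.mul (.v 2) (.r 0 636 1 3))) (.mul (.c 1) (.add (.mul (.add (.mul (.mul (.c 1024) (.s 2 18 632 2)) (.w 0 1)) (.mul (.mul (.c 171) (.v 0)) (.s 2 21 632 2))) (.c 1)) (.mul (.add (.mul (.mul (.c 1024) (.s 2 18 632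 2)) (.w 0 1)) (.mul (.mul (.c 171) (.v 0)) (.s 2 21 632 2))) (.c 1))))))) (.mul (.mul (.mul (.c 34359738368) (.add (.mul (.mul (.r 2 419 632 2) (.mul (.mul (.c 86) (.v 1)) (.add (.mul (.mul (.c 1048576) (.r 2 1 632 2)) (.w 1 2)) (.mul (.mul (.c 86) (.v 1)) (.add (.mul (.mul (.c 1024) (.r 2 2 632 2)) (.w 1 1)) (.mul (.mul (.c 86) (.v 1)) (.r 2 3 632 2))))))) (.sub (.c 0) (.mul (.c 12) (.c 1)))) (.add (.mul (.mul (.r 2 421 632 2) (.mul (.mul (.c 86) (.v 1)) (.add (.mul (.mul (.c 1048576) (.r 2 1 632 2)) (.w 1 2)) (.mul (.mul (.c 86) (.v 1)) (.add (.mul (.mul (.c 1024) (.r 2 2 632 2)) (.w 1 1)) (.mul (.mul (.c 86) (.v 1)) (.r 2 3 632 2))))))) (.c 1)) (.add (.mul (.mul (.r 2 423 632 2) (.mul (.mul (.c 86) (.v 1)) (.add (.mul (.mul (.c 1048576) (.r 2 1 632 2)) (.w 1 2)) (.mul (.mul (.c 86) (.v 1)) (.add (.mul (.mul (.c 1024) (.r 2 2 632 2)) (.w 1 1)) (.mul (.mul (.c 86) (.v 1)) (.r 2 3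 632 2))))))) (.sub (.c 0) (.mul (.c 12) (.c 1)))) (.add (.mul (.mul (.r 2 424 632 2) (.mul (.mul (.c 86) (.v 1)) (.add (.mul (.mul (.c 1048576) (.r 2 1 632 2)) (.w 1 2)) (.mul (.mul (.c 86) (.v 1)) (.add (.mul (.mul (.c 1024) (.r 2 2 632 2)) (.w 1 1)) (.mul (.mul (.c 86) (.v 1)) (.r 2 3 632 2))))))) (.sub (.c 0) (.mul (.c 12) (.c 1)))) (.add (.mul (.mul (.r 2 426 632 2) (.mul (.mul (.c 86) (.v 1)) (.add (.mul (.mul (.c 1048576) (.r 2 1 632 2)) (.w 1 2)) (.mul (.mul (.c 86) (.v 1)) (.add (.mul (.mul (.c 1024) (.r 2 2 632 2)) (.w 1 1)) (.mul (.mul (.c 86) (.v 1)) (.r 2 3 632 2))))))) (.c 1)) (.mul (.mul (.r 2 428 632 2) (.mul (.mul (.c 86) (.v 1)) (.add (.mul (.mul (.c 1048576) (.r 2 1 632 2)) (.w 1 2)) (.mul (.mul (.c 86) (.v 1)) (.add (.mul (.mul (.c 1024) (.r 2 2 632 2)) (.w 1 1)) (.mul (.mul (.c 86) (.v 1)) (.r 2 3 632 2))))))) (.sub (.c 0) (.mul (.c 12) (.c 1)))))))))) (.w 0 3))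 (.w 2 1))), 142, 4, 4, 4, 1⟩,
  ⟨(.sub (.sub (.mul (.mul (.mul (.c 0) (.w 0 2)) (.w 1 3)) (.w 2 3)) (.mul (.mul (.mul (.c 86) (.v 1)) (.add (.mul (.mul (.c 1048576) (.r 2 1 632 2)) (.w 1 2)) (.mul (.mul (.c 86) (.v 1)) (.add (.mul (.mul (.c 1024) (.r 2 2 632 2)) (.w 1 1)) (.mul (.mul (.c 86) (.v 1)) (.r 2 3 632 2)))))) (.mul (.add (.mul (.q 2) (.r 0 4 1 3)) (.mul (.v 2) (.r 0 636 1 3))) (.mul (.c 1) (.add (.mul (.s 2 19 632 2) (.c 1)) (.mul (.s 2 19 632 2) (.c 1))))))) (.mul (.mul (.mul (.c 33554432) (.add (.mul (.mul (.r 2 420 632 2) (.mul (.mul (.c 86) (.v 1)) (.add (.mul (.mul (.c 1048576) (.r 2 1 632 2)) (.w 1 2)) (.mul (.mul (.c 86) (.v 1)) (.add (.mul (.mul (.c 1024) (.r 2 2 632 2)) (.w 1 1)) (.mul (.mul (.c 86) (.v 1)) (.r 2 3 632 2))))))) (.sub (.c 0) (.mul (.c 12) (.c 1)))) (.add (.mul (.mul (.r 2 422 632 2) (.mul (.mul (.c 86) (.v 1)) (.add (.mul (.mul (.c 1048576) (.r 2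 1 632 2)) (.w 1 2)) (.mul (.mul (.c 86) (.v 1)) (.add (.mul (.mul (.c 1024) (.r 2 2 632 2)) (.w 1 1)) (.mul (.mul (.c 86) (.v 1)) (.r 2 3 632 2))))))) (.mul (.c 2) (.c 1))) (.add (.mul (.mul (.r 2 423 632 2) (.mul (.mul (.c 86) (.v 1)) (.add (.mul (.mul (.c 1048576) (.r 2 1 632 2)) (.w 1 2)) (.mul (.mul (.c 86) (.v 1)) (.add (.mul (.mul (.c 1024) (.r 2 2 632 2)) (.w 1 1)) (.mul (.mul (.c 86) (.v 1)) (.r 2 3 632 2))))))) (.sub (.c 0) (.mul (.c 24) (.c 1)))) (.add (.mul (.mul (.r 2 425 632 2) (.mul (.mul (.c 86) (.v 1)) (.add (.mul (.mul (.c 1048576) (.r 2 1 632 2)) (.w 1 2)) (.mul (.mul (.c 86) (.v 1)) (.add (.mul (.mul (.c 1024) (.r 2 2 632 2)) (.w 1 1)) (.mul (.mul (.c 86) (.v 1)) (.r 2 3 632 2))))))) (.sub (.c 0) (.mul (.c 12) (.c 1)))) (.add (.mul (.mul (.r 2 427 632 2) (.mul (.mul (.c 86) (.v 1)) (.add (.mul (.mul (.c 1048576) (.r 2 1 632 2)) (.w 1 2)) (.mul (.mul (.c 86) (.v 1))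 (.add (.mul (.mul (.c 1024) (.r 2 2 632 2)) (.w 1 1)) (.mul (.mul (.c 86) (.v 1)) (.r 2 3 632 2))))))) (.mul (.c 2) (.c 1))) (.mul (.mul (.r 2 428 632 2) (.mul (.mul (.c 86) (.v 1)) (.add (.mul (.mul (.c 1048576) (.r 2 1 632 2)) (.w 1 2)) (.mul (.mul (.c 86) (.v 1)) (.add (.mul (.mul (.c 1024) (.r 2 2 632 2)) (.w 1 1)) (.mul (.mul (.c 86) (.v 1)) (.r 2 3 632 2))))))) (.sub (.c 0) (.mul (.c 24) (.c 1)))))))))) (.w 0 2)) (.w 2 1))), 131, 3, 4, 4, 1⟩,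
  ⟨(.sub (.sub (.mul (.mul (.mul (.c 0) (.w 0 2)) (.w 1 3)) (.w 2 3)) (.mul (.mul (.mul (.c 86) (.v 1)) (.add (.mul (.mul (.c 1048576) (.r 2 1 632 2)) (.w 1 2)) (.mul (.mul (.c 86) (.v 1)) (.add (.mul (.mul (.c 1024) (.r 2 2 632 2)) (.w 1 1)) (.mul (.mul (.c 86) (.v 1)) (.r 2 3 632 2)))))) (.mul (.add (.mul (.q 2) (.r 0 4 1 3)) (.mul (.v 2) (.r 0 636 1 3))) (.mul (.c 1) (.add (.mul (.s 2 20 632 2) (.c 1)) (.mul (.s 2 20 632 2) (.c 1))))))) (.mul (.mul (.mul (.c 33554432) (.add (.mul (.mul (.r 2 421 632 2) (.mul (.mul (.c 86) (.v 1)) (.add (.mul (.mul (.c 1048576) (.r 2 1 632 2)) (.w 1 2)) (.mul (.mul (.c 86) (.v 1)) (.add (.mul (.mul (.c 1024) (.r 2 2 632 2)) (.w 1 1)) (.mul (.mul (.c 86) (.v 1)) (.r 2 3 632 2))))))) (.sub (.c 0) (.mul (.c 12) (.c 1)))) (.add (.mul (.mul (.r 2 422 632 2) (.mul (.mul (.c 86) (.v 1)) (.add (.mul (.mul (.c 1048576) (.r 2 1 632 2)) (.w 1 2)) (.mul (.mul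 (.c 86) (.v 1)) (.add (.mul (.mul (.c 1024) (.r 2 2 632 2)) (.w 1 1)) (.mul (.mul (.c 86) (.v 1)) (.r 2 3 632 2))))))) (.sub (.c 0) (.mul (.c 12) (.c 1)))) (.add (.mul (.mul (.r 2 423 632 2) (.mul (.mul (.c 86) (.v 1)) (.add (.mul (.mul (.c 1048576) (.r 2 1 632 2)) (.w 1 2)) (.mul (.mul (.c 86) (.v 1)) (.add (.mul (.mul (.c 1024) (.r 2 2 632 2)) (.w 1 1)) (.mul (.mul (.c 86) (.v 1)) (.r 2 3 632 2))))))) (.mul (.c 144) (.c 1))) (.add (.mul (.mul (.r 2 426 632 2) (.mul (.mul (.c 86) (.v 1)) (.add (.mul (.mul (.c 1048576) (.r 2 1 632 2)) (.w 1 2)) (.mul (.mul (.c 86) (.v 1)) (.add (.mul (.mul (.c 1024) (.r 2 2 632 2)) (.w 1 1)) (.mul (.mul (.c 86) (.v 1)) (.r 2 3 632 2))))))) (.sub (.c 0) (.mul (.c 12) (.c 1)))) (.add (.mul (.mul (.r 2 427 632 2) (.mul (.mul (.c 86) (.v 1)) (.add (.mul (.mul (.c 1048576) (.r 2 1 632 2)) (.w 1 2)) (.mul (.mul (.c 86) (.v 1)) (.add (.mul (.mul (.c 1024)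 (.r 2 2 632 2)) (.w 1 1)) (.mul (.mul (.c 86) (.v 1)) (.r 2 3 632 2))))))) (.sub (.c 0) (.mul (.c 12) (.c 1)))) (.mul (.mul (.r 2 428 632 2) (.mul (.mul (.c 86) (.v 1)) (.add (.mul (.mul (.c 1048576) (.r 2 1 632 2)) (.w 1 2)) (.mul (.mul (.c 86) (.v 1)) (.add (.mul (.mul (.c 1024) (.r 2 2 632 2)) (.w 1 1)) (.mul (.mul (.c 86) (.v 1)) (.r 2 3 632 2))))))) (.mul (.c 144) (.c 1))))))))) (.w 0 2)) (.w 2 1))), 132, 3, 4, 4, 1⟩,
  ⟨(.sub (.sub (.mul (.mul (.mul (.c 0) (.w 0 3)) (.w 1 5)) (.w 2 3)) (.mul (.mul (.mul (.c 86) (.v 1)) (.add (.mul (.mul (.c 1048576) (.r 2 1 632 2)) (.w 1 2)) (.mul (.mul (.c 86) (.v 1)) (.add (.mul (.mul (.c 1024) (.r 2 2 632 2)) (.w 1 1)) (.mul (.mul (.c 86) (.v 1)) (.r 2 3 632 2)))))) (.mul (.add (.mul (.q 2) (.r 0 4 1 3)) (.mul (.v 2) (.r 0 636 1 3))) (.mul (.c 1) (.add (.mul (.mul (.add (.mul (.mul (.c 1024) (.s 2 18 632 2)) (.w 0 1)) (.mul (.mul (.c 171)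 (.v 0)) (.s 2 21 632 2))) (.mul (.c 86) (.v 1))) (.w 1 1)) (.mul (.mul (.s 2 20 632 2) (.mul (.mul (.c 86) (.v 1)) (.mul (.c 86) (.v 1)))) (.w 0 1))))))) (.mul (.mul (.mul (.c 33554432) (.add (.mul (.mul (.c 1024) (.mul (.mul (.r 2 424 632 2) (.mul (.mul (.c 86) (.v 1)) (.add (.mul (.mul (.c 1048576) (.r 2 1 632 2)) (.w 1 2)) (.mul (.mul (.c 86) (.v 1)) (.add (.mul (.mul (.c 1024) (.r 2 2 632 2)) (.w 1 1)) (.mul (.mul (.c 86) (.v 1)) (.r 2 3 632 2))))))) (.sub (.mul (.c 0) (.w 1 1)) (.mul (.c 12) (.mul (.c 86) (.v 1)))))) (.w 1 1)) (.add (.mul (.mul (.r 2 426 632 2) (.mul (.mul (.c 86) (.v 1)) (.add (.mul (.mul (.c 1048576) (.r 2 1 632 2)) (.w 1 2)) (.mul (.mul (.c 86) (.v 1)) (.add (.mul (.mul (.c 1024) (.r 2 2 632 2)) (.w 1 1)) (.mul (.mul (.c 86) (.v 1)) (.r 2 3 632 2))))))) (.sub (.mul (.mul (.c 1024) (.mul (.c 86) (.v 1))) (.w 1 1)) (.mul (.c 12) (.mul (.mul (.c 86) (.v 1)) (.mul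 (.c 86) (.v 1)))))) (.add (.mul (.mul (.r 2 427 632 2) (.mul (.mul (.c 86) (.v 1)) (.add (.mul (.mul (.c 1048576) (.r 2 1 632 2)) (.w 1 2)) (.mul (.mul (.c 86) (.v 1)) (.add (.mul (.mul (.c 1024) (.r 2 2 632 2)) (.w 1 1)) (.mul (.mul (.c 86) (.v 1)) (.r 2 3 632 2))))))) (.sub (.mul (.c 0) (.w 1 2)) (.mul (.c 12) (.mul (.mul (.c 86) (.v 1)) (.mul (.c 86) (.v 1)))))) (.add (.mul (.mul (.r 2 428 632 2) (.mul (.mul (.c 86) (.v 1)) (.add (.mul (.mul (.c 1048576) (.r 2 1 632 2)) (.w 1 2)) (.mul (.mul (.c 86) (.v 1)) (.add (.mul (.mul (.c 1024) (.r 2 2 632 2)) (.w 1 1)) (.mul (.mul (.c 86) (.v 1)) (.r 2 3 632 2))))))) (.sub (.mul (.c 144) (.mul (.mul (.c 86) (.v 1)) (.mul (.c 86) (.v 1)))) (.mul (.mul (.c 1024) (.mul (.c 12) (.mul (.c 86) (.v 1)))) (.w 1 1)))) (.mul (.mul (.c 1048576) (.mul (.mul (.r 2 429 632 2) (.mul (.mul (.c 86) (.v 1)) (.add (.mul (.mul (.c 1048576) (.r 2 1 632 2)) (.w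 1 2)) (.mul (.mul (.c 86) (.v 1)) (.add (.mul (.mul (.c 1024) (.r 2 2 632 2)) (.w 1 1)) (.mul (.mul (.c 86) (.v 1)) (.r 2 3 632 2))))))) (.sub (.c 0) (.mul (.c 12) (.c 1))))) (.w 1 2))))))) (.w 0 3)) (.w 2 1))), 150, 4, 6, 4, 1⟩,
  ⟨(.sub (.sub (.mul (.mul (.mul (.mul (.c 590295810358705651712) (.mul (.mul (.c 86) (.v 1)) (.add (.mul (.c 1024) (.add (.mul (.add (.mul (.mul (.c 1024) (.s 2 307 632 2)) (.w 0 1)) (.mul (.s 2 308 632 2) (.mul (.c 171) (.v 0)))) (.w 1 1)) (.mul (.mul (.s 2 309 632 2) (.mul (.c 86) (.v 1))) (.w 0 1)))) (.mul (.s 2 310 632 2) (.mul (.mul (.c 86) (.v 1)) (.mul (.c 171) (.v 0))))))) (.w 0 3)) (.w 1 3)) (.w 2 2)) (.mul (.mul (.mul (.c 86) (.v 1)) (.add (.mul (.mul (.c 1048576) (.r 2 1 632 2)) (.w 1 2)) (.mul (.mul (.c 86) (.v 1)) (.add (.mul (.mul (.c 1024) (.r 2 2 632 2)) (.w 1 1)) (.mul (.mul (.c 86) (.v 1)) (.r 2 3 632 2)))))) (.mul (.add (.mul (.q 2) (.r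 0 4 1 3)) (.mul (.v 2) (.r 0 636 1 3))) (.mul (.c 1) (.add (.mul (.add (.mul (.mul (.c 1024) (.mul (.s 2 10 632 2) (.add (.mul (.mul (.c 767) (.w 0 1)) (.w 1 1)) (.add (.mul (.mul (.c 171) (.q 0)) (.w 1 1)) (.mul (.mul (.c 86) (.q 1)) (.w 0 1)))))) (.w 0 1)) (.mul (.s 2 11 632 2) (.mul (.mul (.c 171) (.v 0)) (.add (.mul (.mul (.c 767) (.w 0 1)) (.w 1 1)) (.add (.mul (.mul (.c 171) (.q 0)) (.w 1 1)) (.mul (.mul (.c 86) (.q 1)) (.w 0 1))))))) (.w 1 1)) (.add (.mul (.add (.mul (.mul (.c 1024) (.mul (.s 2 10 632 2) (.add (.mul (.c 853) (.w 0 1)) (.mul (.c 171) (.q 0))))) (.w 0 1)) (.mul (.s 2 11 632 2) (.mul (.mul (.c 171) (.v 0)) (.add (.mul (.c 853) (.w 0 1)) (.mul (.c 171) (.q 0)))))) (.w 1 2)) (.mul (.mul (.s 2 13 632 2) (.mul (.mul (.c 86) (.v 1)) (.mul (.c 86) (.v 1)))) (.w 0 2)))))))) (.mul (.mul (.mul (.c 33554432) (.add (.mul (.mul (.c 1024) (.mul (.mul (.r 2 441 632 2) (.mul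 (.mul (.c 86) (.v 1)) (.add (.mul (.mul (.c 1048576) (.r 2 1 632 2)) (.w 1 2)) (.mul (.mul (.c 86) (.v 1)) (.add (.mul (.mul (.c 1024) (.r 2 2 632 2)) (.w 1 1)) (.mul (.mul (.c 86) (.v 1)) (.r 2 3 632 2))))))) (.mul (.c 2) (.add (.mul (.mul (.c 767) (.w 0 1)) (.w 1 1)) (.add (.mul (.mul (.c 171) (.q 0)) (.w 1 1)) (.mul (.mul (.c 86) (.q 1)) (.w 0 1))))))) (.w 1 1)) (.add (.mul (.mul (.c 1024) (.mul (.mul (.r 2 442 632 2) (.mul (.mul (.c 86) (.v 1)) (.add (.mul (.mul (.c 1048576) (.r 2 1 632 2)) (.w 1 2)) (.mul (.mul (.c 86) (.v 1)) (.add (.mul (.mul (.c 1024) (.r 2 2 632 2)) (.w 1 1)) (.mul (.mul (.c 86) (.v 1)) (.r 2 3 632 2))))))) (.add (.mul (.mul (.c 767) (.w 0 1)) (.w 1 1)) (.add (.mul (.mul (.c 171) (.q 0)) (.w 1 1)) (.mul (.mul (.c 86) (.q 1)) (.w 0 1)))))) (.w 1 1)) (.add (.mul (.mul (.c 1024) (.mul (.mul (.r 2 445 632 2) (.mul (.mul (.c 86) (.v 1)) (.add (.mul (.mul (.c 1048576)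 (.r 2 1 632 2)) (.w 1 2)) (.mul (.mul (.c 86) (.v 1)) (.add (.mul (.mul (.c 1024) (.r 2 2 632 2)) (.w 1 1)) (.mul (.mul (.c 86) (.v 1)) (.r 2 3 632 2))))))) (.mul (.c 2) (.add (.mul (.mul (.c 767) (.w 0 1)) (.w 1 1)) (.add (.mul (.mul (.c 171) (.q 0)) (.w 1 1)) (.mul (.mul (.c 86) (.q 1)) (.w 0 1))))))) (.w 1 1)) (.add (.mul (.mul (.c 1024) (.mul (.mul (.r 2 446 632 2) (.mul (.mul (.c 86) (.v 1)) (.add (.mul (.mul (.c 1048576) (.r 2 1 632 2)) (.w 1 2)) (.mul (.mul (.c 86) (.v 1)) (.add (.mul (.mul (.c 1024) (.r 2 2 632 2)) (.w 1 1)) (.mul (.mul (.c 86) (.v 1)) (.r 2 3 632 2))))))) (.mul (.c 2) (.add (.mul (.c 853) (.w 0 1)) (.mul (.c 171) (.q 0)))))) (.w 1 2)) (.add (.mul (.mul (.r 2 447 632 2) (.mul (.mul (.c 86) (.v 1)) (.add (.mul (.mul (.c 1048576) (.r 2 1 632 2)) (.w 1 2)) (.mul (.mul (.c 86) (.v 1)) (.add (.mul (.mul (.c 1024) (.r 2 2 632 2)) (.w 1 1)) (.mul (.mul (.c 86) (.v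 1)) (.r 2 3 632 2))))))) (.sub (.mul (.mul (.c 1024) (.add (.mul (.c 853) (.w 0 1)) (.mul (.c 171) (.q 0)))) (.w 1 2)) (.mul (.mul (.c 12) (.mul (.mul (.c 86) (.v 1)) (.mul (.c 86) (.v 1)))) (.w 0 1)))) (.add (.mul (.mul (.mul (.r 2 449 632 2) (.mul (.mul (.c 86) (.v 1)) (.add (.mul (.mul (.c 1048576) (.r 2 1 632 2)) (.w 1 2)) (.mul (.mul (.c 86) (.v 1)) (.add (.mul (.mul (.c 1024) (.r 2 2 632 2)) (.w 1 1)) (.mul (.mul (.c 86) (.v 1)) (.r 2 3 632 2))))))) (.mul (.c 2) (.mul (.mul (.c 86) (.v 1)) (.mul (.c 86) (.v 1))))) (.w 0 1)) (.add (.mul (.mul (.r 2 450 632 2) (.mul (.mul (.c 86) (.v 1)) (.add (.mul (.mul (.c 1048576) (.r 2 1 632 2)) (.w 1 2)) (.mul (.mul (.c 86) (.v 1)) (.add (.mul (.mul (.c 1024) (.r 2 2 632 2)) (.w 1 1)) (.mul (.mul (.c 86) (.v 1)) (.r 2 3 632 2))))))) (.sub (.mul (.mul (.c 1024) (.mul (.c 2) (.add (.mul (.c 853) (.w 0 1)) (.mul (.c 171) (.q 0))))) (.w 1 2))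 (.mul (.mul (.c 24) (.mul (.mul (.c 86) (.v 1)) (.mul (.c 86) (.v 1)))) (.w 0 1)))) (.mul (.mul (.mul (.c 1048576) (.mul (.mul (.r 2 451 632 2) (.mul (.mul (.c 86) (.v 1)) (.add (.mul (.mul (.c 1048576) (.r 2 1 632 2)) (.w 1 2)) (.mul (.mul (.c 86) (.v 1)) (.add (.mul (.mul (.c 1024) (.r 2 2 632 2)) (.w 1 1)) (.mul (.mul (.c 86) (.v 1)) (.r 2 3 632 2))))))) (.c 2))) (.w 0 1)) (.w 1 2)))))))))) (.w 0 3)) (.w 2 1))), 155, 5, 6, 4, 1⟩,
  ⟨(.sub (.sub (.mul (.mul (.mul (.c 0) (.w 0 3)) (.w 1 3)) (.w 2 3)) (.mul (.mul (.mul (.c 86) (.v 1)) (.add (.mul (.mul (.c 1048576) (.r 2 1 632 2)) (.w 1 2)) (.mul (.mul (.c 86) (.v 1)) (.add (.mul (.mul (.c 1024) (.r 2 2 632 2)) (.w 1 1)) (.mul (.mul (.c 86) (.v 1)) (.r 2 3 632 2)))))) (.mul (.add (.mul (.q 2) (.r 0 4 1 3)) (.mul (.v 2) (.r 0 636 1 3))) (.mul (.c 1) (.add (.mul (.add (.mul (.mul (.c 1024) (.s 2 12 632 2)) (.w 0 1)) (.mul (.mul (.c 171)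 (.v 0)) (.s 2 15 632 2))) (.c 1)) (.mul (.add (.mul (.mul (.c 1024) (.s 2 12 632 2)) (.w 0 1)) (.mul (.mul (.c 171) (.v 0)) (.s 2 15 632 2))) (.c 1))))))) (.mul (.mul (.mul (.c 34359738368) (.add (.mul (.mul (.r 2 441 632 2) (.mul (.mul (.c 86) (.v 1)) (.add (.mul (.mul (.c 1048576) (.r 2 1 632 2)) (.w 1 2)) (.mul (.mul (.c 86) (.v 1)) (.add (.mul (.mul (.c 1024) (.r 2 2 632 2)) (.w 1 1)) (.mul (.mul (.c 86) (.v 1)) (.r 2 3 632 2))))))) (.sub (.c 0) (.mul (.c 12) (.c 1)))) (.add (.mul (.mul (.r 2 443 632 2) (.mul (.mul (.c 86) (.v 1)) (.add (.mul (.mul (.c 1048576) (.r 2 1 632 2)) (.w 1 2)) (.mul (.mul (.c 86) (.v 1)) (.add (.mul (.mul (.c 1024) (.r 2 2 632 2)) (.w 1 1)) (.mul (.mul (.c 86) (.v 1)) (.r 2 3 632 2))))))) (.c 1)) (.add (.mul (.mul (.r 2 445 632 2) (.mul (.mul (.c 86) (.v 1)) (.add (.mul (.mul (.c 1048576) (.r 2 1 632 2)) (.w 1 2)) (.mul (.mul (.c 86) (.v 1)) (.add (.mul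 (.mul (.c 1024) (.r 2 2 632 2)) (.w 1 1)) (.mul (.mul (.c 86) (.v 1)) (.r 2 3 632 2))))))) (.sub (.c 0) (.mul (.c 12) (.c 1)))) (.add (.mul (.mul (.r 2 446 632 2) (.mul (.mul (.c 86) (.v 1)) (.add (.mul (.mul (.c 1048576) (.r 2 1 632 2)) (.w 1 2)) (.mul (.mul (.c 86) (.v 1)) (.add (.mul (.mul (.c 1024) (.r 2 2 632 2)) (.w 1 1)) (.mul (.mul (.c 86) (.v 1)) (.r 2 3 632 2))))))) (.sub (.c 0) (.mul (.c 12) (.c 1)))) (.add (.mul (.mul (.r 2 448 632 2) (.mul (.mul (.c 86) (.v 1)) (.add (.mul (.mul (.c 1048576) (.r 2 1 632 2)) (.w 1 2)) (.mul (.mul (.c 86) (.v 1)) (.add (.mul (.mul (.c 1024) (.r 2 2 632 2)) (.w 1 1)) (.mul (.mul (.c 86) (.v 1)) (.r 2 3 632 2))))))) (.c 1)) (.mul (.mul (.r 2 450 632 2) (.mul (.mul (.c 86) (.v 1)) (.add (.mul (.mul (.c 1048576) (.r 2 1 632 2)) (.w 1 2)) (.mul (.mul (.c 86) (.v 1)) (.add (.mul (.mul (.c 1024) (.r 2 2 632 2)) (.w 1 1)) (.mul (.mul (.c 86) (.v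 1)) (.r 2 3 632 2))))))) (.sub (.c 0) (.mul (.c 12) (.c 1)))))))))) (.w 0 3)) (.w 2 1))), 142, 4, 4, 4, 1⟩,
  ⟨(.sub (.sub (.mul (.mul (.mul (.c 0) (.w 0 2)) (.w 1 3)) (.w 2 3)) (.mul (.mul (.mul (.c 86) (.v 1)) (.add (.mul (.mul (.c 1048576) (.r 2 1 632 2)) (.w 1 2)) (.mul (.mul (.c 86) (.v 1)) (.add (.mul (.mul (.c 1024) (.r 2 2 632 2)) (.w 1 1)) (.mul (.mul (.c 86) (.v 1)) (.r 2 3 632 2)))))) (.mul (.add (.mul (.q 2) (.r 0 4 1 3)) (.mul (.v 2) (.r 0 636 1 3))) (.mul (.c 1) (.add (.mul (.s 2 13 632 2) (.c 1)) (.mul (.s 2 13 632 2) (.c 1))))))) (.mul (.mul (.mul (.c 33554432) (.add (.mul (.mul (.r 2 442 632 2) (.mul (.mul (.c 86) (.v 1)) (.add (.mul (.mul (.c 1048576) (.r 2 1 632 2)) (.w 1 2)) (.mul (.mul (.c 86) (.v 1)) (.add (.mul (.mul (.c 1024) (.r 2 2 632 2)) (.w 1 1)) (.mul (.mul (.c 86) (.v 1)) (.r 2 3 632 2))))))) (.sub (.c 0) (.mul (.c 12) (.c 1)))) (.add (.mul (.mul (.r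 2 444 632 2) (.mul (.mul (.c 86) (.v 1)) (.add (.mul (.mul (.c 1048576) (.r 2 1 632 2)) (.w 1 2)) (.mul (.mul (.c 86) (.v 1)) (.add (.mul (.mul (.c 1024) (.r 2 2 632 2)) (.w 1 1)) (.mul (.mul (.c 86) (.v 1)) (.r 2 3 632 2))))))) (.mul (.c 2) (.c 1))) (.add (.mul (.mul (.r 2 445 632 2) (.mul (.mul (.c 86) (.v 1)) (.add (.mul (.mul (.c 1048576) (.r 2 1 632 2)) (.w 1 2)) (.mul (.mul (.c 86) (.v 1)) (.add (.mul (.mul (.c 1024) (.r 2 2 632 2)) (.w 1 1)) (.mul (.mul (.c 86) (.v 1)) (.r 2 3 632 2))))))) (.sub (.c 0) (.mul (.c 24) (.c 1)))) (.add (.mul (.mul (.r 2 447 632 2) (.mul (.mul (.c 86) (.v 1)) (.add (.mul (.mul (.c 1048576) (.r 2 1 632 2)) (.w 1 2)) (.mul (.mul (.c 86) (.v 1)) (.add (.mul (.mul (.c 1024) (.r 2 2 632 2)) (.w 1 1)) (.mul (.mul (.c 86) (.v 1)) (.r 2 3 632 2))))))) (.sub (.c 0) (.mul (.c 12) (.c 1)))) (.add (.mul (.mul (.r 2 449 632 2) (.mul (.mul (.c 86) (.v 1)) (.add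 (.mul (.mul (.c 1048576) (.r 2 1 632 2)) (.w 1 2)) (.mul (.mul (.c 86) (.v 1)) (.add (.mul (.mul (.c 1024) (.r 2 2 632 2)) (.w 1 1)) (.mul (.mul (.c 86) (.v 1)) (.r 2 3 632 2))))))) (.mul (.c 2) (.c 1))) (.mul (.mul (.r 2 450 632 2) (.mul (.mul (.c 86) (.v 1)) (.add (.mul (.mul (.c 1048576) (.r 2 1 632 2)) (.w 1 2)) (.mul (.mul (.c 86) (.v 1)) (.add (.mul (.mul (.c 1024) (.r 2 2 632 2)) (.w 1 1)) (.mul (.mul (.c 86) (.v 1)) (.r 2 3 632 2))))))) (.sub (.c 0) (.mul (.c 24) (.c 1)))))))))) (.w 0 2)) (.w 2 1))), 131, 3, 4, 4, 1⟩,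
  ⟨(.sub (.sub (.mul (.mul (.mul (.c 0) (.w 0 2)) (.w 1 3)) (.w 2 3)) (.mul (.mul (.mul (.c 86) (.v 1)) (.add (.mul (.mul (.c 1048576) (.r 2 1 632 2)) (.w 1 2)) (.mul (.mul (.c 86) (.v 1)) (.add (.mul (.mul (.c 1024) (.r 2 2 632 2)) (.w 1 1)) (.mul (.mul (.c 86) (.v 1)) (.r 2 3 632 2)))))) (.mul (.add (.mul (.q 2) (.r 0 4 1 3)) (.mul (.v 2) (.r 0 636 1 3))) (.mul (.c 1) (.add (.mul (.s 2 14 632 2) (.c 1)) (.mul (.s 2 14 632 2) (.c 1))))))) (.mul (.mul (.mul (.c 33554432) (.add (.mul (.mul (.r 2 443 632 2) (.mul (.mul (.c 86) (.v 1)) (.add (.mul (.mul (.c 1048576) (.r 2 1 632 2)) (.w 1 2)) (.mul (.mul (.c 86) (.v 1)) (.add (.mul (.mul (.c 1024) (.r 2 2 632 2)) (.w 1 1)) (.mul (.mul (.c 86) (.v 1)) (.r 2 3 632 2))))))) (.sub (.c 0) (.mul (.c 12) (.c 1)))) (.add (.mul (.mul (.r 2 444 632 2) (.mul (.mul (.c 86) (.v 1)) (.add (.mul (.mul (.c 1048576) (.r 2 1 632 2)) (.w 1 2)) (.mul (.mul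 (.c 86) (.v 1)) (.add (.mul (.mul (.c 1024) (.r 2 2 632 2)) (.w 1 1)) (.mul (.mul (.c 86) (.v 1)) (.r 2 3 632 2))))))) (.sub (.c 0) (.mul (.c 12) (.c 1)))) (.add (.mul (.mul (.r 2 445 632 2) (.mul (.mul (.c 86) (.v 1)) (.add (.mul (.mul (.c 1048576) (.r 2 1 632 2)) (.w 1 2)) (.mul (.mul (.c 86) (.v 1)) (.add (.mul (.mul (.c 1024) (.r 2 2 632 2)) (.w 1 1)) (.mul (.mul (.c 86) (.v 1)) (.r 2 3 632 2))))))) (.mul (.c 144) (.c 1))) (.add (.mul (.mul (.r 2 448 632 2) (.mul (.mul (.c 86) (.v 1)) (.add (.mul (.mul (.c 1048576) (.r 2 1 632 2)) (.w 1 2)) (.mul (.mul (.c 86) (.v 1)) (.add (.mul (.mul (.c 1024) (.r 2 2 632 2)) (.w 1 1)) (.mul (.mul (.c 86) (.v 1)) (.r 2 3 632 2))))))) (.sub (.c 0) (.mul (.c 12) (.c 1)))) (.add (.mul (.mul (.r 2 449 632 2) (.mul (.mul (.c 86) (.v 1)) (.add (.mul (.mul (.c 1048576) (.r 2 1 632 2)) (.w 1 2)) (.mul (.mul (.c 86) (.v 1)) (.add (.mul (.mul (.c 1024)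 (.r 2 2 632 2)) (.w 1 1)) (.mul (.mul (.c 86) (.v 1)) (.r 2 3 632 2))))))) (.sub (.c 0) (.mul (.c 12) (.c 1)))) (.mul (.mul (.r 2 450 632 2) (.mul (.mul (.c 86) (.v 1)) (.add (.mul (.mul (.c 1048576) (.r 2 1 632 2)) (.w 1 2)) (.mul (.mul (.c 86) (.v 1)) (.add (.mul (.mul (.c 1024) (.r 2 2 632 2)) (.w 1 1)) (.mul (.mul (.c 86) (.v 1)) (.r 2 3 632 2))))))) (.mul (.c 144) (.c 1))))))))) (.w 0 2)) (.w 2 1))), 132, 3, 4, 4, 1⟩,
  ⟨(.sub (.sub (.mul (.mul (.mul (.c 0) (.w 0 3)) (.w 1 5)) (.w 2 3)) (.mul (.mul (.mul (.c 86) (.v 1)) (.add (.mul (.mul (.c 1048576) (.r 2 1 632 2)) (.w 1 2)) (.mul (.mul (.c 86) (.v 1)) (.add (.mul (.mul (.c 1024) (.r 2 2 632 2)) (.w 1 1)) (.mul (.mul (.c 86) (.v 1)) (.r 2 3 632 2)))))) (.mul (.add (.mul (.q 2) (.r 0 4 1 3)) (.mul (.v 2) (.r 0 636 1 3))) (.mul (.c 1) (.add (.mul (.mul (.add (.mul (.mul (.c 1024) (.s 2 12 632 2)) (.w 0 1)) (.mul (.mul (.c 171)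 (.v 0)) (.s 2 15 632 2))) (.mul (.c 86) (.v 1))) (.w 1 1)) (.mul (.mul (.s 2 14 632 2) (.mul (.mul (.c 86) (.v 1)) (.mul (.c 86) (.v 1)))) (.w 0 1))))))) (.mul (.mul (.mul (.c 33554432) (.add (.mul (.mul (.c 1024) (.mul (.mul (.r 2 446 632 2) (.mul (.mul (.c 86) (.v 1)) (.add (.mul (.mul (.c 1048576) (.r 2 1 632 2)) (.w 1 2)) (.mul (.mul (.c 86) (.v 1)) (.add (.mul (.mul (.c 1024) (.r 2 2 632 2)) (.w 1 1)) (.mul (.mul (.c 86) (.v 1)) (.r 2 3 632 2))))))) (.sub (.mul (.c 0) (.w 1 1)) (.mul (.c 12) (.mul (.c 86) (.v 1)))))) (.w 1 1)) (.add (.mul (.mul (.r 2 448 632 2) (.mul (.mul (.c 86) (.v 1)) (.add (.mul (.mul (.c 1048576) (.r 2 1 632 2)) (.w 1 2)) (.mul (.mul (.c 86) (.v 1)) (.add (.mul (.mul (.c 1024) (.r 2 2 632 2)) (.w 1 1)) (.mul (.mul (.c 86) (.v 1)) (.r 2 3 632 2))))))) (.sub (.mul (.mul (.c 1024) (.mul (.c 86) (.v 1))) (.w 1 1)) (.mul (.c 12) (.mul (.mul (.c 86) (.v 1)) (.mul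 (.c 86) (.v 1)))))) (.add (.mul (.mul (.r 2 449 632 2) (.mul (.mul (.c 86) (.v 1)) (.add (.mul (.mul (.c 1048576) (.r 2 1 632 2)) (.w 1 2)) (.mul (.mul (.c 86) (.v 1)) (.add (.mul (.mul (.c 1024) (.r 2 2 632 2)) (.w 1 1)) (.mul (.mul (.c 86) (.v 1)) (.r 2 3 632 2))))))) (.sub (.mul (.c 0) (.w 1 2)) (.mul (.c 12) (.mul (.mul (.c 86) (.v 1)) (.mul (.c 86) (.v 1)))))) (.add (.mul (.mul (.r 2 450 632 2) (.mul (.mul (.c 86) (.v 1)) (.add (.mul (.mul (.c 1048576) (.r 2 1 632 2)) (.w 1 2)) (.mul (.mul (.c 86) (.v 1)) (.add (.mul (.mul (.c 1024) (.r 2 2 632 2)) (.w 1 1)) (.mul (.mul (.c 86) (.v 1)) (.r 2 3 632 2))))))) (.sub (.mul (.c 144) (.mul (.mul (.c 86) (.v 1)) (.mul (.c 86) (.v 1)))) (.mul (.mul (.c 1024) (.mul (.c 12) (.mul (.c 86) (.v 1)))) (.w 1 1)))) (.mul (.mul (.c 1048576) (.mul (.mul (.r 2 451 632 2) (.mul (.mul (.c 86) (.v 1)) (.add (.mul (.mul (.c 1048576) (.r 2 1 632 2)) (.w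 1 2)) (.mul (.mul (.c 86) (.v 1)) (.add (.mul (.mul (.c 1024) (.r 2 2 632 2)) (.w 1 1)) (.mul (.mul (.c 86) (.v 1)) (.r 2 3 632 2))))))) (.sub (.c 0) (.mul (.c 12) (.c 1))))) (.w 1 2))))))) (.w 0 3)) (.w 2 1))), 150, 4, 6, 4, 1⟩,
  ⟨(.sub (.sub (.mul (.mul (.mul (.mul (.c 590295810358705651712) (.mul (.mul (.c 86) (.v 1)) (.add (.mul (.c 1024) (.add (.mul (.add (.mul (.mul (.c 1024) (.s 2 315 632 2)) (.w 0 1)) (.mul (.s 2 316 632 2) (.mul (.c 171) (.v 0)))) (.w 1 1)) (.mul (.mul (.s 2 317 632 2) (.mul (.c 86) (.v 1))) (.w 0 1)))) (.mul (.s 2 318 632 2) (.mul (.mul (.c 86) (.v 1)) (.mul (.c 171) (.v 0))))))) (.w 0 3)) (.w 1 3)) (.w 2 2)) (.mul (.mul (.mul (.c 86) (.v 1)) (.add (.mul (.mul (.c 1048576) (.r 2 1 632 2)) (.w 1 2)) (.mul (.mul (.c 86) (.v 1)) (.add (.mul (.mul (.c 1024) (.r 2 2 632 2)) (.w 1 1)) (.mul (.mul (.c 86) (.v 1)) (.r 2 3 632 2)))))) (.mul (.add (.mul (.q 2) (.r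 0 4 1 3)) (.mul (.v 2) (.r 0 636 1 3))) (.mul (.c 1) (.add (.mul (.add (.mul (.mul (.c 1024) (.mul (.s 2 16 632 2) (.add (.mul (.mul (.c 767) (.w 0 1)) (.w 1 1)) (.add (.mul (.mul (.c 171) (.q 0)) (.w 1 1)) (.mul (.mul (.c 86) (.q 1)) (.w 0 1)))))) (.w 0 1)) (.mul (.s 2 17 632 2) (.mul (.mul (.c 171) (.v 0)) (.add (.mul (.mul (.c 767) (.w 0 1)) (.w 1 1)) (.add (.mul (.mul (.c 171) (.q 0)) (.w 1 1)) (.mul (.mul (.c 86) (.q 1)) (.w 0 1))))))) (.w 1 1)) (.add (.mul (.add (.mul (.mul (.c 1024) (.mul (.s 2 16 632 2) (.add (.mul (.c 853) (.w 0 1)) (.mul (.c 171) (.q 0))))) (.w 0 1)) (.mul (.s 2 17 632 2) (.mul (.mul (.c 171) (.v 0)) (.add (.mul (.c 853) (.w 0 1)) (.mul (.c 171) (.q 0)))))) (.w 1 2)) (.mul (.mul (.s 2 19 632 2) (.mul (.mul (.c 86) (.v 1)) (.mul (.c 86) (.v 1)))) (.w 0 2)))))))) (.mul (.mul (.mul (.c 33554432) (.add (.mul (.mul (.c 1024) (.mul (.mul (.r 2 463 632 2) (.mul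 (.mul (.c 86) (.v 1)) (.add (.mul (.mul (.c 1048576) (.r 2 1 632 2)) (.w 1 2)) (.mul (.mul (.c 86) (.v 1)) (.add (.mul (.mul (.c 1024) (.r 2 2 632 2)) (.w 1 1)) (.mul (.mul (.c 86) (.v 1)) (.r 2 3 632 2))))))) (.mul (.c 2) (.add (.mul (.mul (.c 767) (.w 0 1)) (.w 1 1)) (.add (.mul (.mul (.c 171) (.q 0)) (.w 1 1)) (.mul (.mul (.c 86) (.q 1)) (.w 0 1))))))) (.w 1 1)) (.add (.mul (.mul (.c 1024) (.mul (.mul (.r 2 464 632 2) (.mul (.mul (.c 86) (.v 1)) (.add (.mul (.mul (.c 1048576) (.r 2 1 632 2)) (.w 1 2)) (.mul (.mul (.c 86) (.v 1)) (.add (.mul (.mul (.c 1024) (.r 2 2 632 2)) (.w 1 1)) (.mul (.mul (.c 86) (.v 1)) (.r 2 3 632 2))))))) (.add (.mul (.mul (.c 767) (.w 0 1)) (.w 1 1)) (.add (.mul (.mul (.c 171) (.q 0)) (.w 1 1)) (.mul (.mul (.c 86) (.q 1)) (.w 0 1)))))) (.w 1 1)) (.add (.mul (.mul (.c 1024) (.mul (.mul (.r 2 467 632 2) (.mul (.mul (.c 86) (.v 1)) (.add (.mul (.mul (.c 1048576)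 (.r 2 1 632 2)) (.w 1 2)) (.mul (.mul (.c 86) (.v 1)) (.add (.mul (.mul (.c 1024) (.r 2 2 632 2)) (.w 1 1)) (.mul (.mul (.c 86) (.v 1)) (.r 2 3 632 2))))))) (.mul (.c 2) (.add (.mul (.mul (.c 767) (.w 0 1)) (.w 1 1)) (.add (.mul (.mul (.c 171) (.q 0)) (.w 1 1)) (.mul (.mul (.c 86) (.q 1)) (.w 0 1))))))) (.w 1 1)) (.add (.mul (.mul (.c 1024) (.mul (.mul (.r 2 468 632 2) (.mul (.mul (.c 86) (.v 1)) (.add (.mul (.mul (.c 1048576) (.r 2 1 632 2)) (.w 1 2)) (.mul (.mul (.c 86) (.v 1)) (.add (.mul (.mul (.c 1024) (.r 2 2 632 2)) (.w 1 1)) (.mul (.mul (.c 86) (.v 1)) (.r 2 3 632 2))))))) (.mul (.c 2) (.add (.mul (.c 853) (.w 0 1)) (.mul (.c 171) (.q 0)))))) (.w 1 2)) (.add (.mul (.mul (.r 2 469 632 2) (.mul (.mul (.c 86) (.v 1)) (.add (.mul (.mul (.c 1048576) (.r 2 1 632 2)) (.w 1 2)) (.mul (.mul (.c 86) (.v 1)) (.add (.mul (.mul (.c 1024) (.r 2 2 632 2)) (.w 1 1)) (.mul (.mul (.c 86) (.v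 1)) (.r 2 3 632 2))))))) (.sub (.mul (.mul (.c 1024) (.add (.mul (.c 853) (.w 0 1)) (.mul (.c 171) (.q 0)))) (.w 1 2)) (.mul (.mul (.c 12) (.mul (.mul (.c 86) (.v 1)) (.mul (.c 86) (.v 1)))) (.w 0 1)))) (.add (.mul (.mul (.mul (.r 2 471 632 2) (.mul (.mul (.c 86) (.v 1)) (.add (.mul (.mul (.c 1048576) (.r 2 1 632 2)) (.w 1 2)) (.mul (.mul (.c 86) (.v 1)) (.add (.mul (.mul (.c 1024) (.r 2 2 632 2)) (.w 1 1)) (.mul (.mul (.c 86) (.v 1)) (.r 2 3 632 2))))))) (.mul (.c 2) (.mul (.mul (.c 86) (.v 1)) (.mul (.c 86) (.v 1))))) (.w 0 1)) (.add (.mul (.mul (.r 2 472 632 2) (.mul (.mul (.c 86) (.v 1)) (.add (.mul (.mul (.c 1048576) (.r 2 1 632 2)) (.w 1 2)) (.mul (.mul (.c 86) (.v 1)) (.add (.mul (.mul (.c 1024) (.r 2 2 632 2)) (.w 1 1)) (.mul (.mul (.c 86) (.v 1)) (.r 2 3 632 2))))))) (.sub (.mul (.mul (.c 1024) (.mul (.c 2) (.add (.mul (.c 853) (.w 0 1)) (.mul (.c 171) (.q 0))))) (.w 1 2))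 (.mul (.mul (.c 24) (.mul (.mul (.c 86) (.v 1)) (.mul (.c 86) (.v 1)))) (.w 0 1)))) (.mul (.mul (.mul (.c 1048576) (.mul (.mul (.r 2 473 632 2) (.mul (.mul (.c 86) (.v 1)) (.add (.mul (.mul (.c 1048576) (.r 2 1 632 2)) (.w 1 2)) (.mul (.mul (.c 86) (.v 1)) (.add (.mul (.mul (.c 1024) (.r 2 2 632 2)) (.w 1 1)) (.mul (.mul (.c 86) (.v 1)) (.r 2 3 632 2))))))) (.c 2))) (.w 0 1)) (.w 1 2)))))))))) (.w 0 3)) (.w 2 1))), 155, 5, 6, 4, 1⟩,
  ⟨(.sub (.sub (.mul (.mul (.mul (.c 0) (.w 0 3)) (.w 1 3)) (.w 2 3)) (.mul (.mul (.mul (.c 86) (.v 1)) (.add (.mul (.mul (.c 1048576) (.r 2 1 632 2)) (.w 1 2)) (.mul (.mul (.c 86) (.v 1)) (.add (.mul (.mul (.c 1024) (.r 2 2 632 2)) (.w 1 1)) (.mul (.mul (.c 86) (.v 1)) (.r 2 3 632 2)))))) (.mul (.add (.mul (.q 2) (.r 0 4 1 3)) (.mul (.v 2) (.r 0 636 1 3))) (.mul (.c 1) (.add (.mul (.add (.mul (.mul (.c 1024) (.s 2 18 632 2)) (.w 0 1)) (.mul (.mul (.c 171)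 (.v 0)) (.s 2 21 632 2))) (.c 1)) (.mul (.add (.mul (.mul (.c 1024) (.s 2 18 632 2)) (.w 0 1)) (.mul (.mul (.c 171) (.v 0)) (.s 2 21 632 2))) (.c 1))))))) (.mul (.mul (.mul (.c 34359738368) (.add (.mul (.mul (.r 2 463 632 2) (.mul (.mul (.c 86) (.v 1)) (.add (.mul (.mul (.c 1048576) (.r 2 1 632 2)) (.w 1 2)) (.mul (.mul (.c 86) (.v 1)) (.add (.mul (.mul (.c 1024) (.r 2 2 632 2)) (.w 1 1)) (.mul (.mul (.c 86) (.v 1)) (.r 2 3 632 2))))))) (.sub (.c 0) (.mul (.c 12) (.c 1)))) (.add (.mul (.mul (.r 2 465 632 2) (.mul (.mul (.c 86) (.v 1)) (.add (.mul (.mul (.c 1048576) (.r 2 1 632 2)) (.w 1 2)) (.mul (.mul (.c 86) (.v 1)) (.add (.mul (.mul (.c 1024) (.r 2 2 632 2)) (.w 1 1)) (.mul (.mul (.c 86) (.v 1)) (.r 2 3 632 2))))))) (.c 1)) (.add (.mul (.mul (.r 2 467 632 2) (.mul (.mul (.c 86) (.v 1)) (.add (.mul (.mul (.c 1048576) (.r 2 1 632 2)) (.w 1 2)) (.mul (.mul (.c 86) (.v 1)) (.add (.mul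 (.mul (.c 1024) (.r 2 2 632 2)) (.w 1 1)) (.mul (.mul (.c 86) (.v 1)) (.r 2 3 632 2))))))) (.sub (.c 0) (.mul (.c 12) (.c 1)))) (.add (.mul (.mul (.r 2 468 632 2) (.mul (.mul (.c 86) (.v 1)) (.add (.mul (.mul (.c 1048576) (.r 2 1 632 2)) (.w 1 2)) (.mul (.mul (.c 86) (.v 1)) (.add (.mul (.mul (.c 1024) (.r 2 2 632 2)) (.w 1 1)) (.mul (.mul (.c 86) (.v 1)) (.r 2 3 632 2))))))) (.sub (.c 0) (.mul (.c 12) (.c 1)))) (.add (.mul (.mul (.r 2 470 632 2) (.mul (.mul (.c 86) (.v 1)) (.add (.mul (.mul (.c 1048576) (.r 2 1 632 2)) (.w 1 2)) (.mul (.mul (.c 86) (.v 1)) (.add (.mul (.mul (.c 1024) (.r 2 2 632 2)) (.w 1 1)) (.mul (.mul (.c 86) (.v 1)) (.r 2 3 632 2))))))) (.c 1)) (.mul (.mul (.r 2 472 632 2) (.mul (.mul (.c 86) (.v 1)) (.add (.mul (.mul (.c 1048576) (.r 2 1 632 2)) (.w 1 2)) (.mul (.mul (.c 86) (.v 1)) (.add (.mul (.mul (.c 1024) (.r 2 2 632 2)) (.w 1 1)) (.mul (.mul (.c 86) (.v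 1)) (.r 2 3 632 2))))))) (.sub (.c 0) (.mul (.c 12) (.c 1)))))))))) (.w 0 3)) (.w 2 1))), 142, 4, 4, 4, 1⟩,
  ⟨(.sub (.sub (.mul (.mul (.mul (.c 0) (.w 0 2)) (.w 1 3)) (.w 2 3)) (.mul (.mul (.mul (.c 86) (.v 1)) (.add (.mul (.mul (.c 1048576) (.r 2 1 632 2)) (.w 1 2)) (.mul (.mul (.c 86) (.v 1)) (.add (.mul (.mul (.c 1024) (.r 2 2 632 2)) (.w 1 1)) (.mul (.mul (.c 86) (.v 1)) (.r 2 3 632 2)))))) (.mul (.add (.mul (.q 2) (.r 0 4 1 3)) (.mul (.v 2) (.r 0 636 1 3))) (.mul (.c 1) (.add (.mul (.s 2 19 632 2) (.c 1)) (.mul (.s 2 19 632 2) (.c 1))))))) (.mul (.mul (.mul (.c 33554432) (.add (.mul (.mul (.r 2 464 632 2) (.mul (.mul (.c 86) (.v 1)) (.add (.mul (.mul (.c 1048576) (.r 2 1 632 2)) (.w 1 2)) (.mul (.mul (.c 86) (.v 1)) (.add (.mul (.mul (.c 1024) (.r 2 2 632 2)) (.w 1 1)) (.mul (.mul (.c 86) (.v 1)) (.r 2 3 632 2))))))) (.sub (.c 0) (.mul (.c 12) (.c 1)))) (.add (.mul (.mul (.r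 2 466 632 2) (.mul (.mul (.c 86) (.v 1)) (.add (.mul (.mul (.c 1048576) (.r 2 1 632 2)) (.w 1 2)) (.mul (.mul (.c 86) (.v 1)) (.add (.mul (.mul (.c 1024) (.r 2 2 632 2)) (.w 1 1)) (.mul (.mul (.c 86) (.v 1)) (.r 2 3 632 2))))))) (.mul (.c 2) (.c 1))) (.add (.mul (.mul (.r 2 467 632 2) (.mul (.mul (.c 86) (.v 1)) (.add (.mul (.mul (.c 1048576) (.r 2 1 632 2)) (.w 1 2)) (.mul (.mul (.c 86) (.v 1)) (.add (.mul (.mul (.c 1024) (.r 2 2 632 2)) (.w 1 1)) (.mul (.mul (.c 86) (.v 1)) (.r 2 3 632 2))))))) (.sub (.c 0) (.mul (.c 24) (.c 1)))) (.add (.mul (.mul (.r 2 469 632 2) (.mul (.mul (.c 86) (.v 1)) (.add (.mul (.mul (.c 1048576) (.r 2 1 632 2)) (.w 1 2)) (.mul (.mul (.c 86) (.v 1)) (.add (.mul (.mul (.c 1024) (.r 2 2 632 2)) (.w 1 1)) (.mul (.mul (.c 86) (.v 1)) (.r 2 3 632 2))))))) (.sub (.c 0) (.mul (.c 12) (.c 1)))) (.add (.mul (.mul (.r 2 471 632 2) (.mul (.mul (.c 86) (.v 1)) (.add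 (.mul (.mul (.c 1048576) (.r 2 1 632 2)) (.w 1 2)) (.mul (.mul (.c 86) (.v 1)) (.add (.mul (.mul (.c 1024) (.r 2 2 632 2)) (.w 1 1)) (.mul (.mul (.c 86) (.v 1)) (.r 2 3 632 2))))))) (.mul (.c 2) (.c 1))) (.mul (.mul (.r 2 472 632 2) (.mul (.mul (.c 86) (.v 1)) (.add (.mul (.mul (.c 1048576) (.r 2 1 632 2)) (.w 1 2)) (.mul (.mul (.c 86) (.v 1)) (.add (.mul (.mul (.c 1024) (.r 2 2 632 2)) (.w 1 1)) (.mul (.mul (.c 86) (.v 1)) (.r 2 3 632 2))))))) (.sub (.c 0) (.mul (.c 24) (.c 1)))))))))) (.w 0 2)) (.w 2 1))), 131, 3, 4, 4, 1⟩,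
  ⟨(.sub (.sub (.mul (.mul (.mul (.c 0) (.w 0 2)) (.w 1 3)) (.w 2 3)) (.mul (.mul (.mul (.c 86) (.v 1)) (.add (.mul (.mul (.c 1048576) (.r 2 1 632 2)) (.w 1 2)) (.mul (.mul (.c 86) (.v 1)) (.add (.mul (.mul (.c 1024) (.r 2 2 632 2)) (.w 1 1)) (.mul (.mul (.c 86) (.v 1)) (.r 2 3 632 2)))))) (.mul (.add (.mul (.q 2) (.r 0 4 1 3)) (.mul (.v 2) (.r 0 636 1 3))) (.mul (.c 1) (.add (.mul (.s 2 20 632 2) (.c 1)) (.mul (.s 2 20 632 2) (.c 1))))))) (.mul (.mul (.mul (.c 33554432) (.add (.mul (.mul (.r 2 465 632 2) (.mul (.mul (.c 86) (.v 1)) (.add (.mul (.mul (.c 1048576) (.r 2 1 632 2)) (.w 1 2)) (.mul (.mul (.c 86) (.v 1)) (.add (.mul (.mul (.c 1024) (.r 2 2 632 2)) (.w 1 1)) (.mul (.mul (.c 86) (.v 1)) (.r 2 3 632 2))))))) (.sub (.c 0) (.mul (.c 12) (.c 1)))) (.add (.mul (.mul (.r 2 466 632 2) (.mul (.mul (.c 86) (.v 1)) (.add (.mul (.mul (.c 1048576) (.r 2 1 632 2)) (.w 1 2)) (.mul (.mul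 (.c 86) (.v 1)) (.add (.mul (.mul (.c 1024) (.r 2 2 632 2)) (.w 1 1)) (.mul (.mul (.c 86) (.v 1)) (.r 2 3 632 2))))))) (.sub (.c 0) (.mul (.c 12) (.c 1)))) (.add (.mul (.mul (.r 2 467 632 2) (.mul (.mul (.c 86) (.v 1)) (.add (.mul (.mul (.c 1048576) (.r 2 1 632 2)) (.w 1 2)) (.mul (.mul (.c 86) (.v 1)) (.add (.mul (.mul (.c 1024) (.r 2 2 632 2)) (.w 1 1)) (.mul (.mul (.c 86) (.v 1)) (.r 2 3 632 2))))))) (.mul (.c 144) (.c 1))) (.add (.mul (.mul (.r 2 470 632 2) (.mul (.mul (.c 86) (.v 1)) (.add (.mul (.mul (.c 1048576) (.r 2 1 632 2)) (.w 1 2)) (.mul (.mul (.c 86) (.v 1)) (.add (.mul (.mul (.c 1024) (.r 2 2 632 2)) (.w 1 1)) (.mul (.mul (.c 86) (.v 1)) (.r 2 3 632 2))))))) (.sub (.c 0) (.mul (.c 12) (.c 1)))) (.add (.mul (.mul (.r 2 471 632 2) (.mul (.mul (.c 86) (.v 1)) (.add (.mul (.mul (.c 1048576) (.r 2 1 632 2)) (.w 1 2)) (.mul (.mul (.c 86) (.v 1)) (.add (.mul (.mul (.c 1024)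 (.r 2 2 632 2)) (.w 1 1)) (.mul (.mul (.c 86) (.v 1)) (.r 2 3 632 2))))))) (.sub (.c 0) (.mul (.c 12) (.c 1)))) (.mul (.mul (.r 2 472 632 2) (.mul (.mul (.c 86) (.v 1)) (.add (.mul (.mul (.c 1048576) (.r 2 1 632 2)) (.w 1 2)) (.mul (.mul (.c 86) (.v 1)) (.add (.mul (.mul (.c 1024) (.r 2 2 632 2)) (.w 1 1)) (.mul (.mul (.c 86) (.v 1)) (.r 2 3 632 2))))))) (.mul (.c 144) (.c 1))))))))) (.w 0 2)) (.w 2 1))), 132, 3, 4, 4, 1⟩,
  ⟨(.sub (.sub (.mul (.mul (.mul (.c 0) (.w 0 3)) (.w 1 5)) (.w 2 3)) (.mul (.mul (.mul (.c 86) (.v 1)) (.add (.mul (.mul (.c 1048576) (.r 2 1 632 2)) (.w 1 2)) (.mul (.mul (.c 86) (.v 1)) (.add (.mul (.mul (.c 1024) (.r 2 2 632 2)) (.w 1 1)) (.mul (.mul (.c 86) (.v 1)) (.r 2 3 632 2)))))) (.mul (.add (.mul (.q 2) (.r 0 4 1 3)) (.mul (.v 2) (.r 0 636 1 3))) (.mul (.c 1) (.add (.mul (.mul (.add (.mul (.mul (.c 1024) (.s 2 18 632 2)) (.w 0 1)) (.mul (.mul (.c 171)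 (.v 0)) (.s 2 21 632 2))) (.mul (.c 86) (.v 1))) (.w 1 1)) (.mul (.mul (.s 2 20 632 2) (.mul (.mul (.c 86) (.v 1)) (.mul (.c 86) (.v 1)))) (.w 0 1))))))) (.mul (.mul (.mul (.c 33554432) (.add (.mul (.mul (.c 1024) (.mul (.mul (.r 2 468 632 2) (.mul (.mul (.c 86) (.v 1)) (.add (.mul (.mul (.c 1048576) (.r 2 1 632 2)) (.w 1 2)) (.mul (.mul (.c 86) (.v 1)) (.add (.mul (.mul (.c 1024) (.r 2 2 632 2)) (.w 1 1)) (.mul (.mul (.c 86) (.v 1)) (.r 2 3 632 2))))))) (.sub (.mul (.c 0) (.w 1 1)) (.mul (.c 12) (.mul (.c 86) (.v 1)))))) (.w 1 1)) (.add (.mul (.mul (.r 2 470 632 2) (.mul (.mul (.c 86) (.v 1)) (.add (.mul (.mul (.c 1048576) (.r 2 1 632 2)) (.w 1 2)) (.mul (.mul (.c 86) (.v 1)) (.add (.mul (.mul (.c 1024) (.r 2 2 632 2)) (.w 1 1)) (.mul (.mul (.c 86) (.v 1)) (.r 2 3 632 2))))))) (.sub (.mul (.mul (.c 1024) (.mul (.c 86) (.v 1))) (.w 1 1)) (.mul (.c 12) (.mul (.mul (.c 86) (.v 1)) (.mul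 (.c 86) (.v 1)))))) (.add (.mul (.mul (.r 2 471 632 2) (.mul (.mul (.c 86) (.v 1)) (.add (.mul (.mul (.c 1048576) (.r 2 1 632 2)) (.w 1 2)) (.mul (.mul (.c 86) (.v 1)) (.add (.mul (.mul (.c 1024) (.r 2 2 632 2)) (.w 1 1)) (.mul (.mul (.c 86) (.v 1)) (.r 2 3 632 2))))))) (.sub (.mul (.c 0) (.w 1 2)) (.mul (.c 12) (.mul (.mul (.c 86) (.v 1)) (.mul (.c 86) (.v 1)))))) (.add (.mul (.mul (.r 2 472 632 2) (.mul (.mul (.c 86) (.v 1)) (.add (.mul (.mul (.c 1048576) (.r 2 1 632 2)) (.w 1 2)) (.mul (.mul (.c 86) (.v 1)) (.add (.mul (.mul (.c 1024) (.r 2 2 632 2)) (.w 1 1)) (.mul (.mul (.c 86) (.v 1)) (.r 2 3 632 2))))))) (.sub (.mul (.c 144) (.mul (.mul (.c 86) (.v 1)) (.mul (.c 86) (.v 1)))) (.mul (.mul (.c 1024) (.mul (.c 12) (.mul (.c 86) (.v 1)))) (.w 1 1)))) (.mul (.mul (.c 1048576) (.mul (.mul (.r 2 473 632 2) (.mul (.mul (.c 86) (.v 1)) (.add (.mul (.mul (.c 1048576) (.r 2 1 632 2)) (.w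 1 2)) (.mul (.mul (.c 86) (.v 1)) (.add (.mul (.mul (.c 1024) (.r 2 2 632 2)) (.w 1 1)) (.mul (.mul (.c 86) (.v 1)) (.r 2 3 632 2))))))) (.sub (.c 0) (.mul (.c 12) (.c 1))))) (.w 1 2))))))) (.w 0 3)) (.w 2 1))), 150, 4, 6, 4, 1⟩,
  ⟨(.sub (.mul (.mul (.mul (.mul (.c 17179869184) (.mul (.mul (.c 86) (.v 1)) (.add (.mul (.c 1024) (.add (.mul (.add (.mul (.mul (.c 1024) (.s 2 323 632 2)) (.w 0 1)) (.mul (.s 2 324 632 2) (.mul (.c 171) (.v 0)))) (.w 1 1)) (.mul (.mul (.s 2 325 632 2) (.mul (.c 86) (.v 1))) (.w 0 1)))) (.mul (.s 2 326 632 2) (.mul (.mul (.c 86) (.v 1)) (.mul (.c 171) (.v 0))))))) (.w 0 2)) (.w 1 1)) (.w 2 1)) (.mul (.mul (.mul (.c 86) (.v 1)) (.add (.mul (.mul (.c 1048576) (.r 2 1 632 2)) (.w 1 2)) (.mul (.mul (.c 86) (.v 1)) (.add (.mul (.mul (.c 1024) (.r 2 2 632 2)) (.w 1 1)) (.mul (.mul (.c 86) (.v 1)) (.r 2 3 632 2)))))) (.mul (.add (.mul (.q 2) (.r 0 4 1 3)) (.mul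 (.v 2) (.r 0 636 1 3))) (.mul (.c 1) (.add (.mul (.c 853) (.w 0 1)) (.mul (.c 171) (.q 0))))))), 107, 4, 4, 3, 1⟩,
  ⟨(.sub (.mul (.mul (.mul (.c 17179869184) (.mul (.mul (.c 86) (.v 1)) (.add (.mul (.c 1024) (.add (.mul (.add (.mul (.mul (.c 1024) (.s 2 331 632 2)) (.w 0 1)) (.mul (.s 2 332 632 2) (.mul (.c 171) (.v 0)))) (.w 1 1)) (.mul (.mul (.s 2 333 632 2) (.mul (.c 86) (.v 1))) (.w 0 1)))) (.mul (.s 2 334 632 2) (.mul (.mul (.c 86) (.v 1)) (.mul (.c 171) (.v 0))))))) (.w 1 1)) (.w 2 1)) (.mul (.mul (.mul (.c 86) (.v 1)) (.add (.mul (.mul (.c 1048576) (.r 2 56 632 2)) (.w 1 2)) (.mul (.mul (.c 86) (.v 1)) (.add (.mul (.mul (.c 1024) (.r 2 57 632 2)) (.w 1 1)) (.mul (.mul (.c 86) (.v 1)) (.r 2 58 632 2)))))) (.add (.mul (.r 2 287 632 2) (.mul (.c 1) (.add (.mul (.c 853) (.w 0 1)) (.mul (.c 171) (.q 0))))) (.mul (.mul (.c 1024) (.mul (.r 2 288 632 2) (.u 0 [1]))) (.w 0 1))))), 107,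 2, 4, 3, 1⟩,
  ⟨(.sub (.sub (.mul (.mul (.mul (.mul (.c 17592186044416) (.mul (.mul (.c 86) (.v 1)) (.add (.mul (.c 1024) (.add (.mul (.add (.mul (.mul (.c 1024) (.s 2 339 632 2)) (.w 0 1)) (.mul (.s 2 340 632 2) (.mul (.c 171) (.v 0)))) (.w 1 1)) (.mul (.mul (.s 2 341 632 2) (.mul (.c 86) (.v 1))) (.w 0 1)))) (.mul (.s 2 342 632 2) (.mul (.mul (.c 86) (.v 1)) (.mul (.c 171) (.v 0))))))) (.w 0 1)) (.w 1 2)) (.w 2 1)) (.add (.mul (.mul (.mul (.c 86) (.v 1)) (.add (.mul (.mul (.c 1048576) (.r 2 59 632 2)) (.w 1 2)) (.mul (.mul (.c 86) (.v 1)) (.add (.mul (.mul (.c 1024) (.r 2 60 632 2)) (.w 1 1)) (.mul (.mul (.c 86) (.v 1)) (.r 2 61 632 2)))))) (.add (.mul (.mul (.c 1024) (.mul (.s 2 271 632 2) (.add (.mul (.mul (.c 767) (.w 0 1)) (.w 1 1)) (.add (.mul (.mul (.c 171) (.q 0)) (.w 1 1)) (.mul (.mul (.c 86) (.q 1)) (.w 0 1)))))) (.w 0 1)) (.mul (.s 2 272 632 2) (.mul (.mul (.c 171) (.v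 0)) (.add (.mul (.mul (.c 767) (.w 0 1)) (.w 1 1)) (.add (.mul (.mul (.c 171) (.q 0)) (.w 1 1)) (.mul (.mul (.c 86) (.q 1)) (.w 0 1)))))))) (.mul (.mul (.mul (.c 1024) (.mul (.mul (.mul (.c 86) (.v 1)) (.add (.mul (.mul (.c 1048576) (.r 2 56 632 2)) (.w 1 2)) (.mul (.mul (.c 86) (.v 1)) (.add (.mul (.mul (.c 1024) (.r 2 57 632 2)) (.w 1 1)) (.mul (.mul (.c 86) (.v 1)) (.r 2 58 632 2)))))) (.add (.mul (.r 2 295 632 2) (.mul (.c 1) (.add (.mul (.c 853) (.w 0 1)) (.mul (.c 171) (.q 0))))) (.mul (.mul (.c 1024) (.mul (.r 2 296 632 2) (.u 0 [1]))) (.w 0 1))))) (.w 0 1)) (.w 1 1)))) (.mul (.mul (.mul (.mul (.c 18014398509481984) (.add (.mul (.mul (.r 2 485 632 2) (.mul (.c 86) (.v 1))) (.mul (.c 2) (.add (.mul (.mul (.c 767) (.w 0 1)) (.w 1 1)) (.add (.mul (.mul (.c 171) (.q 0)) (.w 1 1)) (.mul (.mul (.c 86) (.q 1)) (.w 0 1)))))) (.add (.mul (.mul (.r 2 486 632 2) (.mul (.c 86) (.v 1)))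 (.add (.mul (.mul (.c 767) (.w 0 1)) (.w 1 1)) (.add (.mul (.mul (.c 171) (.q 0)) (.w 1 1)) (.mul (.mul (.c 86) (.q 1)) (.w 0 1))))) (.mul (.mul (.r 2 489 632 2) (.mul (.c 86) (.v 1))) (.mul (.c 2) (.add (.mul (.mul (.c 767) (.w 0 1)) (.w 1 1)) (.add (.mul (.mul (.c 171) (.q 0)) (.w 1 1)) (.mul (.mul (.c 86) (.q 1)) (.w 0 1))))))))) (.w 0 1)) (.w 1 2)) (.w 2 1))), 120, 3, 5, 3, 1⟩,
  ⟨(.sub (.sub (.mul (.mul (.mul (.c 0) (.w 0 1)) (.w 1 3)) (.w 2 2)) (.mul (.mul (.mul (.c 86) (.v 1)) (.add (.mul (.mul (.c 1048576) (.r 2 59 632 2)) (.w 1 2)) (.mul (.mul (.c 86) (.v 1)) (.add (.mul (.mul (.c 1024) (.r 2 60 632 2)) (.w 1 1)) (.mul (.mul (.c 86) (.v 1)) (.r 2 61 632 2)))))) (.mul (.add (.mul (.mul (.c 1024) (.s 2 273 632 2)) (.w 0 1)) (.mul (.mul (.c 171) (.v 0)) (.s 2 276 632 2))) (.c 1)))) (.mul (.mul (.mul (.mul (.c 18014398509481984) (.add (.mul (.mul (.r 2 485 632 2) (.mul (.c 86)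 (.v 1))) (.sub (.c 0) (.mul (.c 12) (.c 1)))) (.add (.mul (.mul (.r 2 487 632 2) (.mul (.c 86) (.v 1))) (.c 1)) (.mul (.mul (.r 2 489 632 2) (.mul (.c 86) (.v 1))) (.sub (.c 0) (.mul (.c 12) (.c 1))))))) (.w 0 1)) (.w 1 2)) (.w 2 1))), 106, 2, 4, 3, 1⟩,
  ⟨(.sub (.sub (.mul (.mul (.c 0) (.w 1 3)) (.w 2 2)) (.mul (.mul (.mul (.c 86) (.v 1)) (.add (.mul (.mul (.c 1048576) (.r 2 59 632 2)) (.w 1 2)) (.mul (.mul (.c 86) (.v 1)) (.add (.mul (.mul (.c 1024) (.r 2 60 632 2)) (.w 1 1)) (.mul (.mul (.c 86) (.v 1)) (.r 2 61 632 2)))))) (.mul (.s 2 274 632 2) (.c 1)))) (.mul (.mul (.mul (.c 17592186044416) (.add (.mul (.mul (.r 2 486 632 2) (.mul (.c 86) (.v 1))) (.sub (.c 0) (.mul (.c 12) (.c 1)))) (.add (.mul (.mul (.r 2 488 632 2) (.mul (.c 86) (.v 1))) (.mul (.c 2) (.c 1))) (.mul (.mul (.r 2 489 632 2) (.mul (.c 86) (.v 1))) (.sub (.c 0) (.mul (.c 24) (.c 1))))))) (.w 1 2)) (.w 2 1))), 95,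 1, 4, 3, 1⟩,
  ⟨(.sub (.sub (.mul (.mul (.c 0) (.w 1 3)) (.w 2 2)) (.mul (.mul (.mul (.c 86) (.v 1)) (.add (.mul (.mul (.c 1048576) (.r 2 59 632 2)) (.w 1 2)) (.mul (.mul (.c 86) (.v 1)) (.add (.mul (.mul (.c 1024) (.r 2 60 632 2)) (.w 1 1)) (.mul (.mul (.c 86) (.v 1)) (.r 2 61 632 2)))))) (.mul (.s 2 275 632 2) (.c 1)))) (.mul (.mul (.mul (.c 17592186044416) (.add (.mul (.mul (.r 2 487 632 2) (.mul (.c 86) (.v 1))) (.sub (.c 0) (.mul (.c 12) (.c 1)))) (.add (.mul (.mul (.r 2 488 632 2) (.mul (.c 86) (.v 1))) (.sub (.c 0) (.mul (.c 12) (.c 1)))) (.mul (.mul (.r 2 489 632 2) (.mul (.c 86) (.v 1))) (.mul (.c 144) (.c 1)))))) (.w 1 2)) (.w 2 1))), 96, 1, 4, 3, 1⟩,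
  ⟨(.sub (.sub (.mul (.mul (.mul (.c 16384) (.add (.mul (.mul (.c 1024) (.mul (.s 2 271 632 2) (.add (.mul (.mul (.c 767) (.w 0 1)) (.w 1 1)) (.add (.mul (.mul (.c 171) (.q 0)) (.w 1 1)) (.mul (.mul (.c 86) (.q 1)) (.w 0 1)))))) (.w 0 1)) (.mul (.s 2 272 632 2) (.mul (.mul (.c 171) (.v 0)) (.add (.mul (.mul (.c 767) (.w 0 1)) (.w 1 1)) (.add (.mul (.mul (.c 171) (.q 0)) (.w 1 1)) (.mul (.mul (.c 86) (.q 1)) (.w 0 1)))))))) (.w 0 1)) (.w 2 1)) (.mul (.add (.mul (.q 2) (.r 0 4 1 3)) (.mul (.v 2) (.r 0 636 1 3))) (.mul (.s 2 323 632 2) (.add (.mul (.mul (.c 767) (.w 0 1)) (.w 1 1)) (.add (.mul (.mul (.c 171) (.q 0)) (.w 1 1)) (.mul (.mul (.c 86) (.q 1)) (.w 0 1))))))) (.mul (.mul (.mul (.c 16777216) (.add (.mul (.r 2 495 632 2) (.mul (.c 2) (.add (.mul (.mul (.c 767) (.w 0 1)) (.w 1 1)) (.add (.mul (.mul (.c 171) (.q 0)) (.w 1 1)) (.mul (.mul (.c 86) (.q 1)) (.w 0 1)))))) (.add (.mul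 (.r 2 496 632 2) (.add (.mul (.mul (.c 767) (.w 0 1)) (.w 1 1)) (.add (.mul (.mul (.c 171) (.q 0)) (.w 1 1)) (.mul (.mul (.c 86) (.q 1)) (.w 0 1))))) (.mul (.r 2 499 632 2) (.mul (.c 2) (.add (.mul (.mul (.c 767) (.w 0 1)) (.w 1 1)) (.add (.mul (.mul (.c 171) (.q 0)) (.w 1 1)) (.mul (.mul (.c 86) (.q 1)) (.w 0 1))))))))) (.w 0 2)) (.w 2 1))), 80, 4, 2, 3, 1⟩,
  ⟨(.sub (.sub (.mul (.mul (.mul (.c 16384) (.mul (.add (.mul (.mul (.c 1024) (.s 2 273 632 2)) (.w 0 1)) (.mul (.mul (.c 171) (.v 0)) (.s 2 276 632 2))) (.c 1))) (.w 0 1)) (.w 2 1)) (.mul (.add (.mul (.q 2) (.r 0 4 1 3)) (.mul (.v 2) (.r 0 636 1 3))) (.mul (.s 2 324 632 2) (.c 1)))) (.mul (.mul (.mul (.c 16777216) (.add (.mul (.r 2 495 632 2) (.sub (.c 0) (.mul (.c 12) (.c 1)))) (.add (.mul (.r 2 497 632 2) (.c 1)) (.mul (.r 2 499 632 2) (.sub (.c 0) (.mul (.c 12) (.c 1))))))) (.w 0 2)) (.w 2 1))), 68, 3, 1, 3, 1⟩,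
  ⟨(.sub (.sub (.mul (.mul (.mul (.c 16777216) (.mul (.s 2 274 632 2) (.c 1))) (.w 0 2)) (.w 2 1)) (.mul (.add (.mul (.q 2) (.r 0 4 1 3)) (.mul (.v 2) (.r 0 636 1 3))) (.mul (.s 2 325 632 2) (.c 1)))) (.mul (.mul (.mul (.c 16777216) (.add (.mul (.r 2 496 632 2) (.sub (.c 0) (.mul (.c 12) (.c 1)))) (.add (.mul (.r 2 498 632 2) (.mul (.c 2) (.c 1))) (.mul (.r 2 499 632 2) (.sub (.c 0) (.mul (.c 24) (.c 1))))))) (.w 0 2)) (.w 2 1))), 68, 3, 1, 3, 1⟩,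
  ⟨(.sub (.sub (.mul (.mul (.mul (.c 16777216) (.mul (.s 2 275 632 2) (.c 1))) (.w 0 2)) (.w 2 1)) (.mul (.add (.mul (.q 2) (.r 0 4 1 3)) (.mul (.v 2) (.r 0 636 1 3))) (.mul (.s 2 326 632 2) (.c 1)))) (.mul (.mul (.mul (.c 16777216) (.add (.mul (.r 2 497 632 2) (.sub (.c 0) (.mul (.c 12) (.c 1)))) (.add (.mul (.r 2 498 632 2) (.sub (.c 0) (.mul (.c 12) (.c 1)))) (.mul (.r 2 499 632 2) (.mul (.c 144) (.c 1)))))) (.w 0 2)) (.w 2 1))), 69, 3, 1, 3, 1⟩,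
  ⟨(.sub (.sub (.mul (.mul (.c 281474976710656) (.add (.mul (.mul (.c 1024) (.mul (.s 2 347 632 2) (.add (.mul (.mul (.c 767) (.w 0 1)) (.w 1 1)) (.add (.mul (.mul (.c 171) (.q 0)) (.w 1 1)) (.mul (.mul (.c 86) (.q 1)) (.w 0 1)))))) (.w 0 1)) (.mul (.s 2 350 632 2) (.mul (.mul (.c 171) (.v 0)) (.add (.mul (.mul (.c 767) (.w 0 1)) (.w 1 1)) (.add (.mul (.mul (.c 171) (.q 0)) (.w 1 1)) (.mul (.mul (.c 86) (.q 1)) (.w 0 1)))))))) (.w 2 2)) (.add (.mul (.mul (.mul (.c 288230376151711744) (.mul (.s 2 331 632 2) (.add (.mul (.mul (.c 767) (.w 0 1)) (.w 1 1)) (.add (.mul (.mul (.c 171) (.q 0)) (.w 1 1)) (.mul (.mul (.c 86) (.q 1)) (.w 0 1)))))) (.w 0 1)) (.w 2 2)) (.add (.add (.mul (.mul (.c 16777216) (.mul (.r 2 283 632 2) (.add (.add (.mul (.mul (.c 1024) (.mul (.s 2 73 632 2) (.add (.mul (.mul (.c 767) (.w 0 1)) (.w 1 1)) (.add (.mul (.mul (.c 171) (.q 0)) (.w 1 1)) (.mul (.mul (.c 86)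 (.q 1)) (.w 0 1)))))) (.w 0 1)) (.mul (.s 2 74 632 2) (.mul (.mul (.c 171) (.v 0)) (.add (.mul (.mul (.c 767) (.w 0 1)) (.w 1 1)) (.add (.mul (.mul (.c 171) (.q 0)) (.w 1 1)) (.mul (.mul (.c 86) (.q 1)) (.w 0 1))))))) (.add (.mul (.mul (.c 1024) (.mul (.s 2 385 632 2) (.add (.mul (.mul (.c 767) (.w 0 1)) (.w 1 1)) (.add (.mul (.mul (.c 171) (.q 0)) (.w 1 1)) (.mul (.mul (.c 86) (.q 1)) (.w 0 1)))))) (.w 0 1)) (.mul (.s 2 388 632 2) (.mul (.mul (.c 171) (.v 0)) (.add (.mul (.mul (.c 767) (.w 0 1)) (.w 1 1)) (.add (.mul (.mul (.c 171) (.q 0)) (.w 1 1)) (.mul (.mul (.c 86) (.q 1)) (.w 0 1)))))))))) (.w 2 1)) (.mul (.r 2 287 632 2) (.add (.mul (.r 2 62 632 2) (.add (.mul (.mul (.c 1024) (.mul (.s 2 85 632 2) (.add (.mul (.mul (.c 767) (.w 0 1)) (.w 1 1)) (.add (.mul (.mul (.c 171) (.q 0)) (.w 1 1)) (.mul (.mul (.c 86) (.q 1)) (.w 0 1)))))) (.w 0 1)) (.mul (.s 2 86 632 2) (.mul (.mul (.c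 171) (.v 0)) (.add (.mul (.mul (.c 767) (.w 0 1)) (.w 1 1)) (.add (.mul (.mul (.c 171) (.q 0)) (.w 1 1)) (.mul (.mul (.c 86) (.q 1)) (.w 0 1)))))))) (.mul (.r 2 65 632 2) (.add (.mul (.mul (.c 1024) (.mul (.s 2 349 632 2) (.add (.mul (.mul (.c 767) (.w 0 1)) (.w 1 1)) (.add (.mul (.mul (.c 171) (.q 0)) (.w 1 1)) (.mul (.mul (.c 86) (.q 1)) (.w 0 1)))))) (.w 0 1)) (.mul (.s 2 352 632 2) (.mul (.mul (.c 171) (.v 0)) (.add (.mul (.mul (.c 767) (.w 0 1)) (.w 1 1)) (.add (.mul (.mul (.c 171) (.q 0)) (.w 1 1)) (.mul (.mul (.c 86) (.q 1)) (.w 0 1))))))))))) (.add (.mul (.mul (.c 16777216) (.mul (.r 2 284 632 2) (.add (.add (.mul (.mul (.c 1024) (.mul (.s 2 79 632 2) (.add (.mul (.mul (.c 767) (.w 0 1)) (.w 1 1)) (.add (.mul (.mul (.c 171) (.q 0)) (.w 1 1)) (.mul (.mul (.c 86) (.q 1)) (.w 0 1)))))) (.w 0 1)) (.mul (.s 2 80 632 2) (.mul (.mul (.c 171) (.v 0)) (.add (.mul (.mul (.c 767) (.w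 0 1)) (.w 1 1)) (.add (.mul (.mul (.c 171) (.q 0)) (.w 1 1)) (.mul (.mul (.c 86) (.q 1)) (.w 0 1))))))) (.add (.mul (.mul (.c 1024) (.mul (.s 2 403 632 2) (.add (.mul (.mul (.c 767) (.w 0 1)) (.w 1 1)) (.add (.mul (.mul (.c 171) (.q 0)) (.w 1 1)) (.mul (.mul (.c 86) (.q 1)) (.w 0 1)))))) (.w 0 1)) (.mul (.s 2 406 632 2) (.mul (.mul (.c 171) (.v 0)) (.add (.mul (.mul (.c 767) (.w 0 1)) (.w 1 1)) (.add (.mul (.mul (.c 171) (.q 0)) (.w 1 1)) (.mul (.mul (.c 86) (.q 1)) (.w 0 1)))))))))) (.w 2 1)) (.mul (.r 2 288 632 2) (.add (.mul (.r 2 62 632 2) (.add (.mul (.mul (.c 1024) (.mul (.s 2 91 632 2) (.add (.mul (.mul (.c 767) (.w 0 1)) (.w 1 1)) (.add (.mul (.mul (.c 171) (.q 0)) (.w 1 1)) (.mul (.mul (.c 86) (.q 1)) (.w 0 1)))))) (.w 0 1)) (.mul (.s 2 92 632 2) (.mul (.mul (.c 171) (.v 0)) (.add (.mul (.mul (.c 767) (.w 0 1)) (.w 1 1)) (.add (.mul (.mul (.c 171) (.q 0)) (.w 1 1)) (.mul (.mul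 (.c 86) (.q 1)) (.w 0 1)))))))) (.mul (.r 2 65 632 2) (.add (.mul (.mul (.c 1024) (.mul (.s 2 367 632 2) (.add (.mul (.mul (.c 767) (.w 0 1)) (.w 1 1)) (.add (.mul (.mul (.c 171) (.q 0)) (.w 1 1)) (.mul (.mul (.c 86) (.q 1)) (.w 0 1)))))) (.w 0 1)) (.mul (.s 2 370 632 2) (.mul (.mul (.c 171) (.v 0)) (.add (.mul (.mul (.c 767) (.w 0 1)) (.w 1 1)) (.add (.mul (.mul (.c 171) (.q 0)) (.w 1 1)) (.mul (.mul (.c 86) (.q 1)) (.w 0 1)))))))))))))) (.mul (.mul (.mul (.c 288230376151711744) (.add (.mul (.r 2 505 632 2) (.mul (.c 2) (.add (.mul (.mul (.c 767) (.w 0 1)) (.w 1 1)) (.add (.mul (.mul (.c 171) (.q 0)) (.w 1 1)) (.mul (.mul (.c 86) (.q 1)) (.w 0 1)))))) (.add (.mul (.r 2 506 632 2) (.add (.mul (.mul (.c 767) (.w 0 1)) (.w 1 1)) (.add (.mul (.mul (.c 171) (.q 0)) (.w 1 1)) (.mul (.mul (.c 86) (.q 1)) (.w 0 1))))) (.mul (.r 2 509 632 2) (.mul (.c 2) (.add (.mul (.mul (.c 767) (.w 0 1))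 (.w 1 1)) (.add (.mul (.mul (.c 171) (.q 0)) (.w 1 1)) (.mul (.mul (.c 86) (.q 1)) (.w 0 1))))))))) (.w 0 1)) (.w 2 2))), 124, 3, 2, 4, 1⟩,
  ⟨(.sub (.sub (.mul (.mul (.c 281474976710656) (.mul (.add (.mul (.mul (.c 1024) (.s 2 353 632 2)) (.w 0 1)) (.mul (.mul (.c 171) (.v 0)) (.s 2 362 632 2))) (.c 1))) (.w 2 2)) (.add (.mul (.mul (.mul (.c 288230376151711744) (.mul (.s 2 332 632 2) (.c 1))) (.w 0 1)) (.w 2 2)) (.add (.add (.mul (.mul (.c 16777216) (.mul (.r 2 283 632 2) (.add (.mul (.add (.mul (.mul (.c 1024) (.s 2 75 632 2)) (.w 0 1)) (.mul (.mul (.c 171) (.v 0)) (.s 2 78 632 2))) (.c 1)) (.mul (.add (.mul (.mul (.c 1024) (.s 2 391 632 2)) (.w 0 1)) (.mul (.mul (.c 171) (.v 0)) (.s 2 400 632 2))) (.c 1))))) (.w 2 1)) (.mul (.r 2 287 632 2) (.add (.mul (.r 2 62 632 2) (.mul (.add (.mul (.mul (.c 1024) (.s 2 87 632 2)) (.w 0 1)) (.mul (.mul (.c 171) (.v 0)) (.s 2 90 632 2))) (.c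 1))) (.mul (.r 2 65 632 2) (.mul (.add (.mul (.mul (.c 1024) (.s 2 355 632 2)) (.w 0 1)) (.mul (.mul (.c 171) (.v 0)) (.s 2 364 632 2))) (.c 1)))))) (.add (.mul (.mul (.c 16777216) (.mul (.r 2 284 632 2) (.add (.mul (.add (.mul (.mul (.c 1024) (.s 2 81 632 2)) (.w 0 1)) (.mul (.mul (.c 171) (.v 0)) (.s 2 84 632 2))) (.c 1)) (.mul (.add (.mul (.mul (.c 1024) (.s 2 409 632 2)) (.w 0 1)) (.mul (.mul (.c 171) (.v 0)) (.s 2 418 632 2))) (.c 1))))) (.w 2 1)) (.mul (.r 2 288 632 2) (.add (.mul (.r 2 62 632 2) (.mul (.add (.mul (.mul (.c 1024) (.s 2 93 632 2)) (.w 0 1)) (.mul (.mul (.c 171) (.v 0)) (.s 2 96 632 2))) (.c 1))) (.mul (.r 2 65 632 2) (.mul (.add (.mul (.mul (.c 1024) (.s 2 373 632 2)) (.w 0 1)) (.mul (.mul (.c 171) (.v 0)) (.s 2 382 632 2))) (.c 1))))))))) (.mul (.mul (.mul (.c 288230376151711744) (.add (.mul (.r 2 505 632 2) (.sub (.c 0) (.mul (.c 12) (.c 1)))) (.add (.mul (.r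 2 507 632 2) (.c 1)) (.mul (.r 2 509 632 2) (.sub (.c 0) (.mul (.c 12) (.c 1))))))) (.w 0 1)) (.w 2 2))), 113, 2, 1, 4, 1⟩,
  ⟨(.sub (.sub (.mul (.mul (.c 281474976710656) (.mul (.s 2 356 632 2) (.c 1))) (.w 2 2)) (.add (.mul (.mul (.c 281474976710656) (.mul (.s 2 333 632 2) (.c 1))) (.w 2 2)) (.add (.add (.mul (.mul (.c 16777216) (.mul (.r 2 283 632 2) (.add (.mul (.s 2 76 632 2) (.c 1)) (.mul (.s 2 394 632 2) (.c 1))))) (.w 2 1)) (.mul (.r 2 287 632 2) (.add (.mul (.r 2 62 632 2) (.mul (.s 2 88 632 2) (.c 1))) (.mul (.r 2 65 632 2) (.mul (.s 2 358 632 2) (.c 1)))))) (.add (.mul (.mul (.c 16777216) (.mul (.r 2 284 632 2) (.add (.mul (.s 2 82 632 2) (.c 1)) (.mul (.s 2 412 632 2) (.c 1))))) (.w 2 1)) (.mul (.r 2 288 632 2) (.add (.mul (.r 2 62 632 2) (.mul (.s 2 94 632 2) (.c 1))) (.mul (.r 2 65 632 2) (.mul (.s 2 376 632 2) (.c 1))))))))) (.mul (.mul (.c 281474976710656) (.add (.mul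 (.r 2 506 632 2) (.sub (.c 0) (.mul (.c 12) (.c 1)))) (.add (.mul (.r 2 508 632 2) (.mul (.c 2) (.c 1))) (.mul (.r 2 509 632 2) (.sub (.c 0) (.mul (.c 24) (.c 1))))))) (.w 2 2))), 102, 1, 1, 4, 1⟩,
  ⟨(.sub (.sub (.mul (.mul (.c 281474976710656) (.mul (.s 2 359 632 2) (.c 1))) (.w 2 2)) (.add (.mul (.mul (.c 281474976710656) (.mul (.s 2 334 632 2) (.c 1))) (.w 2 2)) (.add (.add (.mul (.mul (.c 16777216) (.mul (.r 2 283 632 2) (.add (.mul (.s 2 77 632 2) (.c 1)) (.mul (.s 2 397 632 2) (.c 1))))) (.w 2 1)) (.mul (.r 2 287 632 2) (.add (.mul (.r 2 62 632 2) (.mul (.s 2 89 632 2) (.c 1))) (.mul (.r 2 65 632 2) (.mul (.s 2 361 632 2) (.c 1)))))) (.add (.mul (.mul (.c 16777216) (.mul (.r 2 284 632 2) (.add (.mul (.s 2 83 632 2) (.c 1)) (.mul (.s 2 415 632 2) (.c 1))))) (.w 2 1)) (.mul (.r 2 288 632 2) (.add (.mul (.r 2 62 632 2) (.mul (.s 2 95 632 2) (.c 1))) (.mul (.r 2 65 632 2) (.mul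 (.s 2 379 632 2) (.c 1))))))))) (.mul (.mul (.c 281474976710656) (.add (.mul (.r 2 507 632 2) (.sub (.c 0) (.mul (.c 12) (.c 1)))) (.add (.mul (.r 2 508 632 2) (.sub (.c 0) (.mul (.c 12) (.c 1)))) (.mul (.r 2 509 632 2) (.mul (.c 144) (.c 1)))))) (.w 2 2))), 102, 1, 1, 4, 1⟩,
  ⟨(.sub (.sub (.mul (.mul (.c 281474976710656) (.add (.mul (.mul (.c 1024) (.mul (.s 2 383 632 2) (.add (.mul (.mul (.c 767) (.w 0 1)) (.w 1 1)) (.add (.mul (.mul (.c 171) (.q 0)) (.w 1 1)) (.mul (.mul (.c 86) (.q 1)) (.w 0 1)))))) (.w 0 1)) (.mul (.s 2 386 632 2) (.mul (.mul (.c 171) (.v 0)) (.add (.mul (.mul (.c 767) (.w 0 1)) (.w 1 1)) (.add (.mul (.mul (.c 171) (.q 0)) (.w 1 1)) (.mul (.mul (.c 86) (.q 1)) (.w 0 1)))))))) (.w 2 2)) (.add (.mul (.mul (.mul (.c 288230376151711744) (.mul (.s 2 339 632 2) (.add (.mul (.mul (.c 767) (.w 0 1)) (.w 1 1)) (.add (.mul (.mul (.c 171) (.q 0)) (.w 1 1)) (.mul (.mul (.c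 86) (.q 1)) (.w 0 1)))))) (.w 0 1)) (.w 2 2)) (.add (.add (.mul (.r 2 291 632 2) (.add (.mul (.r 2 63 632 2) (.add (.mul (.mul (.c 1024) (.mul (.s 2 85 632 2) (.add (.mul (.mul (.c 767) (.w 0 1)) (.w 1 1)) (.add (.mul (.mul (.c 171) (.q 0)) (.w 1 1)) (.mul (.mul (.c 86) (.q 1)) (.w 0 1)))))) (.w 0 1)) (.mul (.s 2 86 632 2) (.mul (.mul (.c 171) (.v 0)) (.add (.mul (.mul (.c 767) (.w 0 1)) (.w 1 1)) (.add (.mul (.mul (.c 171) (.q 0)) (.w 1 1)) (.mul (.mul (.c 86) (.q 1)) (.w 0 1)))))))) (.mul (.r 2 64 632 2) (.add (.mul (.mul (.c 1024) (.mul (.s 2 349 632 2) (.add (.mul (.mul (.c 767) (.w 0 1)) (.w 1 1)) (.add (.mul (.mul (.c 171) (.q 0)) (.w 1 1)) (.mul (.mul (.c 86) (.q 1)) (.w 0 1)))))) (.w 0 1)) (.mul (.s 2 352 632 2) (.mul (.mul (.c 171) (.v 0)) (.add (.mul (.mul (.c 767) (.w 0 1)) (.w 1 1)) (.add (.mul (.mul (.c 171) (.q 0)) (.w 1 1)) (.mul (.mul (.c 86) (.q 1)) (.w 0 1))))))))))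 (.add (.mul (.mul (.c 16777216) (.mul (.r 2 287 632 2) (.add (.add (.mul (.mul (.c 1024) (.mul (.s 2 73 632 2) (.add (.mul (.mul (.c 767) (.w 0 1)) (.w 1 1)) (.add (.mul (.mul (.c 171) (.q 0)) (.w 1 1)) (.mul (.mul (.c 86) (.q 1)) (.w 0 1)))))) (.w 0 1)) (.mul (.s 2 74 632 2) (.mul (.mul (.c 171) (.v 0)) (.add (.mul (.mul (.c 767) (.w 0 1)) (.w 1 1)) (.add (.mul (.mul (.c 171) (.q 0)) (.w 1 1)) (.mul (.mul (.c 86) (.q 1)) (.w 0 1))))))) (.add (.mul (.mul (.c 1024) (.mul (.s 2 385 632 2) (.add (.mul (.mul (.c 767) (.w 0 1)) (.w 1 1)) (.add (.mul (.mul (.c 171) (.q 0)) (.w 1 1)) (.mul (.mul (.c 86) (.q 1)) (.w 0 1)))))) (.w 0 1)) (.mul (.s 2 388 632 2) (.mul (.mul (.c 171) (.v 0)) (.add (.mul (.mul (.c 767) (.w 0 1)) (.w 1 1)) (.add (.mul (.mul (.c 171) (.q 0)) (.w 1 1)) (.mul (.mul (.c 86) (.q 1)) (.w 0 1)))))))))) (.w 2 1)) (.mul (.r 2 295 632 2) (.add (.mul (.r 2 62 632 2) (.add (.mul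 (.mul (.c 1024) (.mul (.s 2 85 632 2) (.add (.mul (.mul (.c 767) (.w 0 1)) (.w 1 1)) (.add (.mul (.mul (.c 171) (.q 0)) (.w 1 1)) (.mul (.mul (.c 86) (.q 1)) (.w 0 1)))))) (.w 0 1)) (.mul (.s 2 86 632 2) (.mul (.mul (.c 171) (.v 0)) (.add (.mul (.mul (.c 767) (.w 0 1)) (.w 1 1)) (.add (.mul (.mul (.c 171) (.q 0)) (.w 1 1)) (.mul (.mul (.c 86) (.q 1)) (.w 0 1)))))))) (.mul (.r 2 65 632 2) (.add (.mul (.mul (.c 1024) (.mul (.s 2 349 632 2) (.add (.mul (.mul (.c 767) (.w 0 1)) (.w 1 1)) (.add (.mul (.mul (.c 171) (.q 0)) (.w 1 1)) (.mul (.mul (.c 86) (.q 1)) (.w 0 1)))))) (.w 0 1)) (.mul (.s 2 352 632 2) (.mul (.mul (.c 171) (.v 0)) (.add (.mul (.mul (.c 767) (.w 0 1)) (.w 1 1)) (.add (.mul (.mul (.c 171) (.q 0)) (.w 1 1)) (.mul (.mul (.c 86) (.q 1)) (.w 0 1)))))))))))) (.add (.mul (.r 2 292 632 2) (.add (.mul (.r 2 63 632 2) (.add (.mul (.mul (.c 1024) (.mul (.s 2 91 632 2) (.add (.mul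 (.mul (.c 767) (.w 0 1)) (.w 1 1)) (.add (.mul (.mul (.c 171) (.q 0)) (.w 1 1)) (.mul (.mul (.c 86) (.q 1)) (.w 0 1)))))) (.w 0 1)) (.mul (.s 2 92 632 2) (.mul (.mul (.c 171) (.v 0)) (.add (.mul (.mul (.c 767) (.w 0 1)) (.w 1 1)) (.add (.mul (.mul (.c 171) (.q 0)) (.w 1 1)) (.mul (.mul (.c 86) (.q 1)) (.w 0 1)))))))) (.mul (.r 2 64 632 2) (.add (.mul (.mul (.c 1024) (.mul (.s 2 367 632 2) (.add (.mul (.mul (.c 767) (.w 0 1)) (.w 1 1)) (.add (.mul (.mul (.c 171) (.q 0)) (.w 1 1)) (.mul (.mul (.c 86) (.q 1)) (.w 0 1)))))) (.w 0 1)) (.mul (.s 2 370 632 2) (.mul (.mul (.c 171) (.v 0)) (.add (.mul (.mul (.c 767) (.w 0 1)) (.w 1 1)) (.add (.mul (.mul (.c 171) (.q 0)) (.w 1 1)) (.mul (.mul (.c 86) (.q 1)) (.w 0 1)))))))))) (.add (.mul (.mul (.c 16777216) (.mul (.r 2 288 632 2) (.add (.add (.mul (.mul (.c 1024) (.mul (.s 2 79 632 2) (.add (.mul (.mul (.c 767) (.w 0 1)) (.w 1 1)) (.add (.mul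 (.mul (.c 171) (.q 0)) (.w 1 1)) (.mul (.mul (.c 86) (.q 1)) (.w 0 1)))))) (.w 0 1)) (.mul (.s 2 80 632 2) (.mul (.mul (.c 171) (.v 0)) (.add (.mul (.mul (.c 767) (.w 0 1)) (.w 1 1)) (.add (.mul (.mul (.c 171) (.q 0)) (.w 1 1)) (.mul (.mul (.c 86) (.q 1)) (.w 0 1))))))) (.add (.mul (.mul (.c 1024) (.mul (.s 2 403 632 2) (.add (.mul (.mul (.c 767) (.w 0 1)) (.w 1 1)) (.add (.mul (.mul (.c 171) (.q 0)) (.w 1 1)) (.mul (.mul (.c 86) (.q 1)) (.w 0 1)))))) (.w 0 1)) (.mul (.s 2 406 632 2) (.mul (.mul (.c 171) (.v 0)) (.add (.mul (.mul (.c 767) (.w 0 1)) (.w 1 1)) (.add (.mul (.mul (.c 171) (.q 0)) (.w 1 1)) (.mul (.mul (.c 86) (.q 1)) (.w 0 1)))))))))) (.w 2 1)) (.mul (.r 2 296 632 2) (.add (.mul (.r 2 62 632 2) (.add (.mul (.mul (.c 1024) (.mul (.s 2 91 632 2) (.add (.mul (.mul (.c 767) (.w 0 1)) (.w 1 1)) (.add (.mul (.mul (.c 171) (.q 0)) (.w 1 1)) (.mul (.mul (.c 86) (.q 1)) (.w 0 1))))))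 (.w 0 1)) (.mul (.s 2 92 632 2) (.mul (.mul (.c 171) (.v 0)) (.add (.mul (.mul (.c 767) (.w 0 1)) (.w 1 1)) (.add (.mul (.mul (.c 171) (.q 0)) (.w 1 1)) (.mul (.mul (.c 86) (.q 1)) (.w 0 1)))))))) (.mul (.r 2 65 632 2) (.add (.mul (.mul (.c 1024) (.mul (.s 2 367 632 2) (.add (.mul (.mul (.c 767) (.w 0 1)) (.w 1 1)) (.add (.mul (.mul (.c 171) (.q 0)) (.w 1 1)) (.mul (.mul (.c 86) (.q 1)) (.w 0 1)))))) (.w 0 1)) (.mul (.s 2 370 632 2) (.mul (.mul (.c 171) (.v 0)) (.add (.mul (.mul (.c 767) (.w 0 1)) (.w 1 1)) (.add (.mul (.mul (.c 171) (.q 0)) (.w 1 1)) (.mul (.mul (.c 86) (.q 1)) (.w 0 1))))))))))))))) (.mul (.mul (.mul (.c 288230376151711744) (.add (.mul (.r 2 515 632 2) (.mul (.c 2) (.add (.mul (.mul (.c 767) (.w 0 1)) (.w 1 1)) (.add (.mul (.mul (.c 171) (.q 0)) (.w 1 1)) (.mul (.mul (.c 86) (.q 1)) (.w 0 1)))))) (.add (.mul (.r 2 516 632 2) (.add (.mul (.mul (.c 767) (.w 0 1)) (.w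 1 1)) (.add (.mul (.mul (.c 171) (.q 0)) (.w 1 1)) (.mul (.mul (.c 86) (.q 1)) (.w 0 1))))) (.mul (.r 2 519 632 2) (.mul (.c 2) (.add (.mul (.mul (.c 767) (.w 0 1)) (.w 1 1)) (.add (.mul (.mul (.c 171) (.q 0)) (.w 1 1)) (.mul (.mul (.c 86) (.q 1)) (.w 0 1))))))))) (.w 0 1)) (.w 2 2))), 125, 3, 2, 4, 1⟩,
  ⟨(.sub (.sub (.mul (.mul (.c 281474976710656) (.mul (.add (.mul (.mul (.c 1024) (.s 2 389 632 2)) (.w 0 1)) (.mul (.mul (.c 171) (.v 0)) (.s 2 398 632 2))) (.c 1))) (.w 2 2)) (.add (.mul (.mul (.mul (.c 288230376151711744) (.mul (.s 2 340 632 2) (.c 1))) (.w 0 1)) (.w 2 2)) (.add (.add (.mul (.r 2 291 632 2) (.add (.mul (.r 2 63 632 2) (.mul (.add (.mul (.mul (.c 1024) (.s 2 87 632 2)) (.w 0 1)) (.mul (.mul (.c 171) (.v 0)) (.s 2 90 632 2))) (.c 1))) (.mul (.r 2 64 632 2) (.mul (.add (.mul (.mul (.c 1024) (.s 2 355 632 2)) (.w 0 1)) (.mul (.mul (.c 171) (.v 0)) (.s 2 364 632 2)))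 (.c 1))))) (.add (.mul (.mul (.c 16777216) (.mul (.r 2 287 632 2) (.add (.mul (.add (.mul (.mul (.c 1024) (.s 2 75 632 2)) (.w 0 1)) (.mul (.mul (.c 171) (.v 0)) (.s 2 78 632 2))) (.c 1)) (.mul (.add (.mul (.mul (.c 1024) (.s 2 391 632 2)) (.w 0 1)) (.mul (.mul (.c 171) (.v 0)) (.s 2 400 632 2))) (.c 1))))) (.w 2 1)) (.mul (.r 2 295 632 2) (.add (.mul (.r 2 62 632 2) (.mul (.add (.mul (.mul (.c 1024) (.s 2 87 632 2)) (.w 0 1)) (.mul (.mul (.c 171) (.v 0)) (.s 2 90 632 2))) (.c 1))) (.mul (.r 2 65 632 2) (.mul (.add (.mul (.mul (.c 1024) (.s 2 355 632 2)) (.w 0 1)) (.mul (.mul (.c 171) (.v 0)) (.s 2 364 632 2))) (.c 1))))))) (.add (.mul (.r 2 292 632 2) (.add (.mul (.r 2 63 632 2) (.mul (.add (.mul (.mul (.c 1024) (.s 2 93 632 2)) (.w 0 1)) (.mul (.mul (.c 171) (.v 0)) (.s 2 96 632 2))) (.c 1))) (.mul (.r 2 64 632 2) (.mul (.add (.mul (.mul (.c 1024) (.s 2 373 632 2)) (.w 0 1)) (.mul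 (.mul (.c 171) (.v 0)) (.s 2 382 632 2))) (.c 1))))) (.add (.mul (.mul (.c 16777216) (.mul (.r 2 288 632 2) (.add (.mul (.add (.mul (.mul (.c 1024) (.s 2 81 632 2)) (.w 0 1)) (.mul (.mul (.c 171) (.v 0)) (.s 2 84 632 2))) (.c 1)) (.mul (.add (.mul (.mul (.c 1024) (.s 2 409 632 2)) (.w 0 1)) (.mul (.mul (.c 171) (.v 0)) (.s 2 418 632 2))) (.c 1))))) (.w 2 1)) (.mul (.r 2 296 632 2) (.add (.mul (.r 2 62 632 2) (.mul (.add (.mul (.mul (.c 1024) (.s 2 93 632 2)) (.w 0 1)) (.mul (.mul (.c 171) (.v 0)) (.s 2 96 632 2))) (.c 1))) (.mul (.r 2 65 632 2) (.mul (.add (.mul (.mul (.c 1024) (.s 2 373 632 2)) (.w 0 1)) (.mul (.mul (.c 171) (.v 0)) (.s 2 382 632 2))) (.c 1)))))))))) (.mul (.mul (.mul (.c 288230376151711744) (.add (.mul (.r 2 515 632 2) (.sub (.c 0) (.mul (.c 12) (.c 1)))) (.add (.mul (.r 2 517 632 2) (.c 1)) (.mul (.r 2 519 632 2) (.sub (.c 0) (.mul (.c 12) (.c 1))))))) (.w 0 1))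 (.w 2 2))), 114, 2, 1, 4, 1⟩,
  ⟨(.sub (.sub (.mul (.mul (.c 281474976710656) (.mul (.s 2 392 632 2) (.c 1))) (.w 2 2)) (.add (.mul (.mul (.c 281474976710656) (.mul (.s 2 341 632 2) (.c 1))) (.w 2 2)) (.add (.add (.mul (.r 2 291 632 2) (.add (.mul (.r 2 63 632 2) (.mul (.s 2 88 632 2) (.c 1))) (.mul (.r 2 64 632 2) (.mul (.s 2 358 632 2) (.c 1))))) (.add (.mul (.mul (.c 16777216) (.mul (.r 2 287 632 2) (.add (.mul (.s 2 76 632 2) (.c 1)) (.mul (.s 2 394 632 2) (.c 1))))) (.w 2 1)) (.mul (.r 2 295 632 2) (.add (.mul (.r 2 62 632 2) (.mul (.s 2 88 632 2) (.c 1))) (.mul (.r 2 65 632 2) (.mul (.s 2 358 632 2) (.c 1))))))) (.add (.mul (.r 2 292 632 2) (.add (.mul (.r 2 63 632 2) (.mul (.s 2 94 632 2) (.c 1))) (.mul (.r 2 64 632 2) (.mul (.s 2 376 632 2) (.c 1))))) (.add (.mul (.mul (.c 16777216) (.mul (.r 2 288 632 2) (.add (.mul (.s 2 82 632 2) (.c 1)) (.mul (.s 2 412 632 2) (.c 1)))))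 (.w 2 1)) (.mul (.r 2 296 632 2) (.add (.mul (.r 2 62 632 2) (.mul (.s 2 94 632 2) (.c 1))) (.mul (.r 2 65 632 2) (.mul (.s 2 376 632 2) (.c 1)))))))))) (.mul (.mul (.c 281474976710656) (.add (.mul (.r 2 516 632 2) (.sub (.c 0) (.mul (.c 12) (.c 1)))) (.add (.mul (.r 2 518 632 2) (.mul (.c 2) (.c 1))) (.mul (.r 2 519 632 2) (.sub (.c 0) (.mul (.c 24) (.c 1))))))) (.w 2 2))), 103, 1, 1, 4, 1⟩,
  ⟨(.sub (.sub (.mul (.mul (.c 281474976710656) (.mul (.s 2 395 632 2) (.c 1))) (.w 2 2)) (.add (.mul (.mul (.c 281474976710656) (.mul (.s 2 342 632 2) (.c 1))) (.w 2 2)) (.add (.add (.mul (.r 2 291 632 2) (.add (.mul (.r 2 63 632 2) (.mul (.s 2 89 632 2) (.c 1))) (.mul (.r 2 64 632 2) (.mul (.s 2 361 632 2) (.c 1))))) (.add (.mul (.mul (.c 16777216) (.mul (.r 2 287 632 2) (.add (.mul (.s 2 77 632 2) (.c 1)) (.mul (.s 2 397 632 2) (.c 1))))) (.w 2 1)) (.mul (.r 2 295 632 2) (.add (.mul (.r 2 62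 632 2) (.mul (.s 2 89 632 2) (.c 1))) (.mul (.r 2 65 632 2) (.mul (.s 2 361 632 2) (.c 1))))))) (.add (.mul (.r 2 292 632 2) (.add (.mul (.r 2 63 632 2) (.mul (.s 2 95 632 2) (.c 1))) (.mul (.r 2 64 632 2) (.mul (.s 2 379 632 2) (.c 1))))) (.add (.mul (.mul (.c 16777216) (.mul (.r 2 288 632 2) (.add (.mul (.s 2 83 632 2) (.c 1)) (.mul (.s 2 415 632 2) (.c 1))))) (.w 2 1)) (.mul (.r 2 296 632 2) (.add (.mul (.r 2 62 632 2) (.mul (.s 2 95 632 2) (.c 1))) (.mul (.r 2 65 632 2) (.mul (.s 2 379 632 2) (.c 1)))))))))) (.mul (.mul (.c 281474976710656) (.add (.mul (.r 2 517 632 2) (.sub (.c 0) (.mul (.c 12) (.c 1)))) (.add (.mul (.r 2 518 632 2) (.sub (.c 0) (.mul (.c 12) (.c 1)))) (.mul (.r 2 519 632 2) (.mul (.c 144) (.c 1)))))) (.w 2 2))), 103, 1, 1, 4, 1⟩,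
  ⟨(.sub (.add (.mul (.mul (.c 1024) (.mul (.s 2 347 632 2) (.add (.mul (.mul (.c 767) (.w 0 1)) (.w 1 1)) (.add (.mul (.mul (.c 171) (.q 0)) (.w 1 1)) (.mul (.mul (.c 86) (.q 1)) (.w 0 1)))))) (.w 0 1)) (.mul (.s 2 350 632 2) (.mul (.mul (.c 171) (.v 0)) (.add (.mul (.mul (.c 767) (.w 0 1)) (.w 1 1)) (.add (.mul (.mul (.c 171) (.q 0)) (.w 1 1)) (.mul (.mul (.c 86) (.q 1)) (.w 0 1))))))) (.mul (.mul (.c 1024) (.add (.mul (.r 2 525 632 2) (.mul (.c 2) (.add (.mul (.mul (.c 767) (.w 0 1)) (.w 1 1)) (.add (.mul (.mul (.c 171) (.q 0)) (.w 1 1)) (.mul (.mul (.c 86) (.q 1)) (.w 0 1)))))) (.add (.mul (.r 2 526 632 2) (.add (.mul (.mul (.c 767) (.w 0 1)) (.w 1 1)) (.add (.mul (.mul (.c 171) (.q 0)) (.w 1 1)) (.mul (.mul (.c 86) (.q 1)) (.w 0 1))))) (.mul (.r 2 529 632 2) (.mul (.c 2) (.add (.mul (.mul (.c 767) (.w 0 1)) (.w 1 1)) (.add (.mul (.mul (.c 171) (.q 0)) (.w 1 1)) (.mul (.mul (.c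 86) (.q 1)) (.w 0 1))))))))) (.w 0 1))), 59, 3, 2, 2, 1⟩,
  ⟨(.sub (.mul (.add (.mul (.mul (.c 1024) (.s 2 353 632 2)) (.w 0 1)) (.mul (.mul (.c 171) (.v 0)) (.s 2 362 632 2))) (.c 1)) (.mul (.mul (.c 1024) (.add (.mul (.r 2 525 632 2) (.sub (.c 0) (.mul (.c 12) (.c 1)))) (.add (.mul (.r 2 527 632 2) (.c 1)) (.mul (.r 2 529 632 2) (.sub (.c 0) (.mul (.c 12) (.c 1))))))) (.w 0 1))), 49, 2, 1, 2, 1⟩,
  ⟨(.sub (.mul (.s 2 356 632 2) (.c 1)) (.add (.mul (.r 2 526 632 2) (.sub (.c 0) (.mul (.c 12) (.c 1)))) (.add (.mul (.r 2 528 632 2) (.mul (.c 2) (.c 1))) (.mul (.r 2 529 632 2) (.sub (.c 0) (.mul (.c 24) (.c 1))))))), 39, 1, 1, 2, 1⟩,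
  ⟨(.sub (.mul (.s 2 359 632 2) (.c 1)) (.add (.mul (.r 2 527 632 2) (.sub (.c 0) (.mul (.c 12) (.c 1)))) (.add (.mul (.r 2 528 632 2) (.sub (.c 0) (.mul (.c 12) (.c 1)))) (.mul (.r 2 529 632 2) (.mul (.c 144) (.c 1)))))), 41, 1, 1, 2, 1⟩,
  ⟨(.sub (.add (.mul (.mul (.c 1024) (.mul (.s 2 383 632 2) (.add (.mul (.mul (.c 767) (.w 0 1)) (.w 1 1)) (.add (.mul (.mul (.c 171) (.q 0)) (.w 1 1)) (.mul (.mul (.c 86) (.q 1)) (.w 0 1)))))) (.w 0 1)) (.mul (.s 2 386 632 2) (.mul (.mul (.c 171) (.v 0)) (.add (.mul (.mul (.c 767) (.w 0 1)) (.w 1 1)) (.add (.mul (.mul (.c 171) (.q 0)) (.w 1 1)) (.mul (.mul (.c 86) (.q 1)) (.w 0 1))))))) (.mul (.mul (.c 1024) (.add (.mul (.r 2 535 632 2) (.mul (.c 2) (.add (.mul (.mul (.c 767) (.w 0 1)) (.w 1 1)) (.add (.mul (.mul (.c 171) (.q 0)) (.w 1 1)) (.mul (.mul (.c 86) (.q 1)) (.w 0 1)))))) (.add (.mul (.r 2 536 632 2) (.add (.mul (.mul (.c 767) (.w 0 1))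 (.w 1 1)) (.add (.mul (.mul (.c 171) (.q 0)) (.w 1 1)) (.mul (.mul (.c 86) (.q 1)) (.w 0 1))))) (.mul (.r 2 539 632 2) (.mul (.c 2) (.add (.mul (.mul (.c 767) (.w 0 1)) (.w 1 1)) (.add (.mul (.mul (.c 171) (.q 0)) (.w 1 1)) (.mul (.mul (.c 86) (.q 1)) (.w 0 1))))))))) (.w 0 1))), 59, 3, 2, 2, 1⟩,
  ⟨(.sub (.mul (.add (.mul (.mul (.c 1024) (.s 2 389 632 2)) (.w 0 1)) (.mul (.mul (.c 171) (.v 0)) (.s 2 398 632 2))) (.c 1)) (.mul (.mul (.c 1024) (.add (.mul (.r 2 535 632 2) (.sub (.c 0) (.mul (.c 12) (.c 1)))) (.add (.mul (.r 2 537 632 2) (.c 1)) (.mul (.r 2 539 632 2) (.sub (.c 0) (.mul (.c 12) (.c 1))))))) (.w 0 1))), 49, 2, 1, 2, 1⟩,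
  ⟨(.sub (.mul (.s 2 392 632 2) (.c 1)) (.add (.mul (.r 2 536 632 2) (.sub (.c 0) (.mul (.c 12) (.c 1)))) (.add (.mul (.r 2 538 632 2) (.mul (.c 2) (.c 1))) (.mul (.r 2 539 632 2) (.sub (.c 0) (.mul (.c 24) (.c 1))))))), 39, 1, 1, 2, 1⟩,
  ⟨(.sub (.mul (.s 2 395 632 2) (.c 1)) (.add (.mul (.r 2 537 632 2) (.sub (.c 0) (.mul (.c 12) (.c 1)))) (.add (.mul (.r 2 538 632 2) (.sub (.c 0) (.mul (.c 12) (.c 1)))) (.mul (.r 2 539 632 2) (.mul (.c 144) (.c 1)))))), 41, 1, 1, 2, 1⟩,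
  ⟨(.sub (.sub (.mul (.mul (.mul (.mul (.c 590295810358705651712) (.mul (.mul (.c 86) (.v 1)) (.add (.mul (.c 1024) (.add (.mul (.add (.mul (.mul (.c 1024) (.s 2 303 632 2)) (.w 0 1)) (.mul (.s 2 304 632 2) (.mul (.c 171) (.v 0)))) (.w 1 1)) (.mul (.mul (.s 2 305 632 2) (.mul (.c 86) (.v 1))) (.w 0 1)))) (.mul (.s 2 306 632 2) (.mul (.mul (.c 86) (.v 1)) (.mul (.c 171) (.v 0))))))) (.w 0 3)) (.w 1 3)) (.w 2 2)) (.mul (.mul (.mul (.c 86) (.v 1)) (.add (.mul (.mul (.c 1048576) (.r 2 1 632 2)) (.w 1 2)) (.mul (.mul (.c 86) (.v 1)) (.add (.mul (.mul (.c 1024) (.r 2 2 632 2)) (.w 1 1)) (.mul (.mul (.c 86) (.v 1)) (.r 2 3 632 2)))))) (.mul (.add (.mul (.q 2) (.r 0 4 1 3)) (.mul (.v 2) (.r 0 636 1 3))) (.add (.mul (.mul (.mul (.mul (.c 35184372088832) (.u 0 [1])) (.w 0 2)) (.w 1 2)) (.w 2 1)) (.mul (.c 1) (.add (.mul (.add (.mul (.mul (.c 1024) (.mul (.s 2 28 632 2) (.add (.mul (.mul (.c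 767) (.w 0 1)) (.w 1 1)) (.add (.mul (.mul (.c 171) (.q 0)) (.w 1 1)) (.mul (.mul (.c 86) (.q 1)) (.w 0 1)))))) (.w 0 1)) (.mul (.s 2 29 632 2) (.mul (.mul (.c 171) (.v 0)) (.add (.mul (.mul (.c 767) (.w 0 1)) (.w 1 1)) (.add (.mul (.mul (.c 171) (.q 0)) (.w 1 1)) (.mul (.mul (.c 86) (.q 1)) (.w 0 1))))))) (.w 1 1)) (.add (.mul (.add (.mul (.mul (.c 1024) (.mul (.s 2 28 632 2) (.add (.mul (.c 853) (.w 0 1)) (.mul (.c 171) (.q 0))))) (.w 0 1)) (.mul (.s 2 29 632 2) (.mul (.mul (.c 171) (.v 0)) (.add (.mul (.c 853) (.w 0 1)) (.mul (.c 171) (.q 0)))))) (.w 1 2)) (.mul (.mul (.s 2 31 632 2) (.mul (.mul (.c 86) (.v 1)) (.mul (.c 86) (.v 1)))) (.w 0 2))))))))) (.mul (.mul (.mul (.c 33554432) (.add (.mul (.mul (.c 1024) (.mul (.mul (.r 2 430 632 2) (.mul (.mul (.c 86) (.v 1)) (.add (.mul (.mul (.c 1048576) (.r 2 1 632 2)) (.w 1 2)) (.mul (.mul (.c 86) (.v 1)) (.add (.mul (.mul (.c 1024) (.r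 2 2 632 2)) (.w 1 1)) (.mul (.mul (.c 86) (.v 1)) (.r 2 3 632 2))))))) (.mul (.c 2) (.add (.mul (.mul (.c 767) (.w 0 1)) (.w 1 1)) (.add (.mul (.mul (.c 171) (.q 0)) (.w 1 1)) (.mul (.mul (.c 86) (.q 1)) (.w 0 1))))))) (.w 1 1)) (.add (.mul (.mul (.c 1024) (.mul (.mul (.r 2 431 632 2) (.mul (.mul (.c 86) (.v 1)) (.add (.mul (.mul (.c 1048576) (.r 2 1 632 2)) (.w 1 2)) (.mul (.mul (.c 86) (.v 1)) (.add (.mul (.mul (.c 1024) (.r 2 2 632 2)) (.w 1 1)) (.mul (.mul (.c 86) (.v 1)) (.r 2 3 632 2))))))) (.add (.mul (.mul (.c 767) (.w 0 1)) (.w 1 1)) (.add (.mul (.mul (.c 171) (.q 0)) (.w 1 1)) (.mul (.mul (.c 86) (.q 1)) (.w 0 1)))))) (.w 1 1)) (.add (.mul (.mul (.c 1024) (.mul (.mul (.r 2 434 632 2) (.mul (.mul (.c 86) (.v 1)) (.add (.mul (.mul (.c 1048576) (.r 2 1 632 2)) (.w 1 2)) (.mul (.mul (.c 86) (.v 1)) (.add (.mul (.mul (.c 1024) (.r 2 2 632 2)) (.w 1 1)) (.mul (.mul (.c 86) (.v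 1)) (.r 2 3 632 2))))))) (.mul (.c 2) (.add (.mul (.mul (.c 767) (.w 0 1)) (.w 1 1)) (.add (.mul (.mul (.c 171) (.q 0)) (.w 1 1)) (.mul (.mul (.c 86) (.q 1)) (.w 0 1))))))) (.w 1 1)) (.add (.mul (.mul (.c 1024) (.mul (.mul (.r 2 435 632 2) (.mul (.mul (.c 86) (.v 1)) (.add (.mul (.mul (.c 1048576) (.r 2 1 632 2)) (.w 1 2)) (.mul (.mul (.c 86) (.v 1)) (.add (.mul (.mul (.c 1024) (.r 2 2 632 2)) (.w 1 1)) (.mul (.mul (.c 86) (.v 1)) (.r 2 3 632 2))))))) (.mul (.c 2) (.add (.mul (.c 853) (.w 0 1)) (.mul (.c 171) (.q 0)))))) (.w 1 2)) (.add (.mul (.mul (.r 2 436 632 2) (.mul (.mul (.c 86) (.v 1)) (.add (.mul (.mul (.c 1048576) (.r 2 1 632 2)) (.w 1 2)) (.mul (.mul (.c 86) (.v 1)) (.add (.mul (.mul (.c 1024) (.r 2 2 632 2)) (.w 1 1)) (.mul (.mul (.c 86) (.v 1)) (.r 2 3 632 2))))))) (.sub (.mul (.mul (.c 1024) (.add (.mul (.c 853) (.w 0 1)) (.mul (.c 171) (.q 0)))) (.w 1 2)) (.mul (.mul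 (.c 12) (.mul (.mul (.c 86) (.v 1)) (.mul (.c 86) (.v 1)))) (.w 0 1)))) (.add (.mul (.mul (.mul (.r 2 438 632 2) (.mul (.mul (.c 86) (.v 1)) (.add (.mul (.mul (.c 1048576) (.r 2 1 632 2)) (.w 1 2)) (.mul (.mul (.c 86) (.v 1)) (.add (.mul (.mul (.c 1024) (.r 2 2 632 2)) (.w 1 1)) (.mul (.mul (.c 86) (.v 1)) (.r 2 3 632 2))))))) (.mul (.c 2) (.mul (.mul (.c 86) (.v 1)) (.mul (.c 86) (.v 1))))) (.w 0 1)) (.add (.mul (.mul (.r 2 439 632 2) (.mul (.mul (.c 86) (.v 1)) (.add (.mul (.mul (.c 1048576) (.r 2 1 632 2)) (.w 1 2)) (.mul (.mul (.c 86) (.v 1)) (.add (.mul (.mul (.c 1024) (.r 2 2 632 2)) (.w 1 1)) (.mul (.mul (.c 86) (.v 1)) (.r 2 3 632 2))))))) (.sub (.mul (.mul (.c 1024) (.mul (.c 2) (.add (.mul (.c 853) (.w 0 1)) (.mul (.c 171) (.q 0))))) (.w 1 2)) (.mul (.mul (.c 24) (.mul (.mul (.c 86) (.v 1)) (.mul (.c 86) (.v 1)))) (.w 0 1)))) (.mul (.mul (.mul (.c 1048576) (.mul (.mul (.r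 2 440 632 2) (.mul (.mul (.c 86) (.v 1)) (.add (.mul (.mul (.c 1048576) (.r 2 1 632 2)) (.w 1 2)) (.mul (.mul (.c 86) (.v 1)) (.add (.mul (.mul (.c 1024) (.r 2 2 632 2)) (.w 1 1)) (.mul (.mul (.c 86) (.v 1)) (.r 2 3 632 2))))))) (.c 2))) (.w 0 1)) (.w 1 2)))))))))) (.w 0 3)) (.w 2 1))), 155, 5, 6, 4, 1⟩,
  ⟨(.sub (.sub (.mul (.mul (.mul (.c 0) (.w 0 3)) (.w 1 3)) (.w 2 3)) (.mul (.mul (.mul (.c 86) (.v 1)) (.add (.mul (.mul (.c 1048576) (.r 2 1 632 2)) (.w 1 2)) (.mul (.mul (.c 86) (.v 1)) (.add (.mul (.mul (.c 1024) (.r 2 2 632 2)) (.w 1 1)) (.mul (.mul (.c 86) (.v 1)) (.r 2 3 632 2)))))) (.mul (.add (.mul (.q 2) (.r 0 4 1 3)) (.mul (.v 2) (.r 0 636 1 3))) (.mul (.c 1) (.add (.mul (.add (.mul (.mul (.c 1024) (.s 2 30 632 2)) (.w 0 1)) (.mul (.mul (.c 171) (.v 0)) (.s 2 33 632 2))) (.c 1)) (.mul (.add (.mul (.mul (.c 1024) (.s 2 30 632 2)) (.w 0 1)) (.mul (.mul (.c 171) (.v 0)) (.s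 2 33 632 2))) (.c 1))))))) (.mul (.mul (.mul (.c 34359738368) (.add (.mul (.mul (.r 2 430 632 2) (.mul (.mul (.c 86) (.v 1)) (.add (.mul (.mul (.c 1048576) (.r 2 1 632 2)) (.w 1 2)) (.mul (.mul (.c 86) (.v 1)) (.add (.mul (.mul (.c 1024) (.r 2 2 632 2)) (.w 1 1)) (.mul (.mul (.c 86) (.v 1)) (.r 2 3 632 2))))))) (.sub (.c 0) (.mul (.c 12) (.c 1)))) (.add (.mul (.mul (.r 2 432 632 2) (.mul (.mul (.c 86) (.v 1)) (.add (.mul (.mul (.c 1048576) (.r 2 1 632 2)) (.w 1 2)) (.mul (.mul (.c 86) (.v 1)) (.add (.mul (.mul (.c 1024) (.r 2 2 632 2)) (.w 1 1)) (.mul (.mul (.c 86) (.v 1)) (.r 2 3 632 2))))))) (.c 1)) (.add (.mul (.mul (.r 2 434 632 2) (.mul (.mul (.c 86) (.v 1)) (.add (.mul (.mul (.c 1048576) (.r 2 1 632 2)) (.w 1 2)) (.mul (.mul (.c 86) (.v 1)) (.add (.mul (.mul (.c 1024) (.r 2 2 632 2)) (.w 1 1)) (.mul (.mul (.c 86) (.v 1)) (.r 2 3 632 2))))))) (.sub (.c 0) (.mul (.c 12) (.c 1))))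 (.add (.mul (.mul (.r 2 435 632 2) (.mul (.mul (.c 86) (.v 1)) (.add (.mul (.mul (.c 1048576) (.r 2 1 632 2)) (.w 1 2)) (.mul (.mul (.c 86) (.v 1)) (.add (.mul (.mul (.c 1024) (.r 2 2 632 2)) (.w 1 1)) (.mul (.mul (.c 86) (.v 1)) (.r 2 3 632 2))))))) (.sub (.c 0) (.mul (.c 12) (.c 1)))) (.add (.mul (.mul (.r 2 437 632 2) (.mul (.mul (.c 86) (.v 1)) (.add (.mul (.mul (.c 1048576) (.r 2 1 632 2)) (.w 1 2)) (.mul (.mul (.c 86) (.v 1)) (.add (.mul (.mul (.c 1024) (.r 2 2 632 2)) (.w 1 1)) (.mul (.mul (.c 86) (.v 1)) (.r 2 3 632 2))))))) (.c 1)) (.mul (.mul (.r 2 439 632 2) (.mul (.mul (.c 86) (.v 1)) (.add (.mul (.mul (.c 1048576) (.r 2 1 632 2)) (.w 1 2)) (.mul (.mul (.c 86) (.v 1)) (.add (.mul (.mul (.c 1024) (.r 2 2 632 2)) (.w 1 1)) (.mul (.mul (.c 86) (.v 1)) (.r 2 3 632 2))))))) (.sub (.c 0) (.mul (.c 12) (.c 1)))))))))) (.w 0 3)) (.w 2 1))), 142, 4, 4, 4, 1⟩,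
  ⟨(.sub (.sub (.mul (.mul (.mul (.c 0) (.w 0 2)) (.w 1 3)) (.w 2 3)) (.mul (.mul (.mul (.c 86) (.v 1)) (.add (.mul (.mul (.c 1048576) (.r 2 1 632 2)) (.w 1 2)) (.mul (.mul (.c 86) (.v 1)) (.add (.mul (.mul (.c 1024) (.r 2 2 632 2)) (.w 1 1)) (.mul (.mul (.c 86) (.v 1)) (.r 2 3 632 2)))))) (.mul (.add (.mul (.q 2) (.r 0 4 1 3)) (.mul (.v 2) (.r 0 636 1 3))) (.mul (.c 1) (.add (.mul (.s 2 31 632 2) (.c 1)) (.mul (.s 2 31 632 2) (.c 1))))))) (.mul (.mul (.mul (.c 33554432) (.add (.mul (.mul (.r 2 431 632 2) (.mul (.mul (.c 86) (.v 1)) (.add (.mul (.mul (.c 1048576) (.r 2 1 632 2)) (.w 1 2)) (.mul (.mul (.c 86) (.v 1)) (.add (.mul (.mul (.c 1024) (.r 2 2 632 2)) (.w 1 1)) (.mul (.mul (.c 86) (.v 1)) (.r 2 3 632 2))))))) (.sub (.c 0) (.mul (.c 12) (.c 1)))) (.add (.mul (.mul (.r 2 433 632 2) (.mul (.mul (.c 86) (.v 1)) (.add (.mul (.mul (.c 1048576) (.r 2 1 632 2)) (.w 1 2)) (.mul (.mul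 (.c 86) (.v 1)) (.add (.mul (.mul (.c 1024) (.r 2 2 632 2)) (.w 1 1)) (.mul (.mul (.c 86) (.v 1)) (.r 2 3 632 2))))))) (.mul (.c 2) (.c 1))) (.add (.mul (.mul (.r 2 434 632 2) (.mul (.mul (.c 86) (.v 1)) (.add (.mul (.mul (.c 1048576) (.r 2 1 632 2)) (.w 1 2)) (.mul (.mul (.c 86) (.v 1)) (.add (.mul (.mul (.c 1024) (.r 2 2 632 2)) (.w 1 1)) (.mul (.mul (.c 86) (.v 1)) (.r 2 3 632 2))))))) (.sub (.c 0) (.mul (.c 24) (.c 1)))) (.add (.mul (.mul (.r 2 436 632 2) (.mul (.mul (.c 86) (.v 1)) (.add (.mul (.mul (.c 1048576) (.r 2 1 632 2)) (.w 1 2)) (.mul (.mul (.c 86) (.v 1)) (.add (.mul (.mul (.c 1024) (.r 2 2 632 2)) (.w 1 1)) (.mul (.mul (.c 86) (.v 1)) (.r 2 3 632 2))))))) (.sub (.c 0) (.mul (.c 12) (.c 1)))) (.add (.mul (.mul (.r 2 438 632 2) (.mul (.mul (.c 86) (.v 1)) (.add (.mul (.mul (.c 1048576) (.r 2 1 632 2)) (.w 1 2)) (.mul (.mul (.c 86) (.v 1)) (.add (.mul (.mul (.c 1024) (.r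 2 2 632 2)) (.w 1 1)) (.mul (.mul (.c 86) (.v 1)) (.r 2 3 632 2))))))) (.mul (.c 2) (.c 1))) (.mul (.mul (.r 2 439 632 2) (.mul (.mul (.c 86) (.v 1)) (.add (.mul (.mul (.c 1048576) (.r 2 1 632 2)) (.w 1 2)) (.mul (.mul (.c 86) (.v 1)) (.add (.mul (.mul (.c 1024) (.r 2 2 632 2)) (.w 1 1)) (.mul (.mul (.c 86) (.v 1)) (.r 2 3 632 2))))))) (.sub (.c 0) (.mul (.c 24) (.c 1)))))))))) (.w 0 2)) (.w 2 1))), 131, 3, 4, 4, 1⟩,
  ⟨(.sub (.sub (.mul (.mul (.mul (.c 0) (.w 0 2)) (.w 1 3)) (.w 2 3)) (.mul (.mul (.mul (.c 86) (.v 1)) (.add (.mul (.mul (.c 1048576) (.r 2 1 632 2)) (.w 1 2)) (.mul (.mul (.c 86) (.v 1)) (.add (.mul (.mul (.c 1024) (.r 2 2 632 2)) (.w 1 1)) (.mul (.mul (.c 86) (.v 1)) (.r 2 3 632 2)))))) (.mul (.add (.mul (.q 2) (.r 0 4 1 3)) (.mul (.v 2) (.r 0 636 1 3))) (.mul (.c 1) (.add (.mul (.s 2 32 632 2) (.c 1)) (.mul (.s 2 32 632 2) (.c 1))))))) (.mul (.mul (.mul (.c 33554432)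 (.add (.mul (.mul (.r 2 432 632 2) (.mul (.mul (.c 86) (.v 1)) (.add (.mul (.mul (.c 1048576) (.r 2 1 632 2)) (.w 1 2)) (.mul (.mul (.c 86) (.v 1)) (.add (.mul (.mul (.c 1024) (.r 2 2 632 2)) (.w 1 1)) (.mul (.mul (.c 86) (.v 1)) (.r 2 3 632 2))))))) (.sub (.c 0) (.mul (.c 12) (.c 1)))) (.add (.mul (.mul (.r 2 433 632 2) (.mul (.mul (.c 86) (.v 1)) (.add (.mul (.mul (.c 1048576) (.r 2 1 632 2)) (.w 1 2)) (.mul (.mul (.c 86) (.v 1)) (.add (.mul (.mul (.c 1024) (.r 2 2 632 2)) (.w 1 1)) (.mul (.mul (.c 86) (.v 1)) (.r 2 3 632 2))))))) (.sub (.c 0) (.mul (.c 12) (.c 1)))) (.add (.mul (.mul (.r 2 434 632 2) (.mul (.mul (.c 86) (.v 1)) (.add (.mul (.mul (.c 1048576) (.r 2 1 632 2)) (.w 1 2)) (.mul (.mul (.c 86) (.v 1)) (.add (.mul (.mul (.c 1024) (.r 2 2 632 2)) (.w 1 1)) (.mul (.mul (.c 86) (.v 1)) (.r 2 3 632 2))))))) (.mul (.c 144) (.c 1))) (.add (.mul (.mul (.r 2 437 632 2) (.mul (.mul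 (.c 86) (.v 1)) (.add (.mul (.mul (.c 1048576) (.r 2 1 632 2)) (.w 1 2)) (.mul (.mul (.c 86) (.v 1)) (.add (.mul (.mul (.c 1024) (.r 2 2 632 2)) (.w 1 1)) (.mul (.mul (.c 86) (.v 1)) (.r 2 3 632 2))))))) (.sub (.c 0) (.mul (.c 12) (.c 1)))) (.add (.mul (.mul (.r 2 438 632 2) (.mul (.mul (.c 86) (.v 1)) (.add (.mul (.mul (.c 1048576) (.r 2 1 632 2)) (.w 1 2)) (.mul (.mul (.c 86) (.v 1)) (.add (.mul (.mul (.c 1024) (.r 2 2 632 2)) (.w 1 1)) (.mul (.mul (.c 86) (.v 1)) (.r 2 3 632 2))))))) (.sub (.c 0) (.mul (.c 12) (.c 1)))) (.mul (.mul (.r 2 439 632 2) (.mul (.mul (.c 86) (.v 1)) (.add (.mul (.mul (.c 1048576) (.r 2 1 632 2)) (.w 1 2)) (.mul (.mul (.c 86) (.v 1)) (.add (.mul (.mul (.c 1024) (.r 2 2 632 2)) (.w 1 1)) (.mul (.mul (.c 86) (.v 1)) (.r 2 3 632 2))))))) (.mul (.c 144) (.c 1))))))))) (.w 0 2)) (.w 2 1))), 132, 3, 4, 4, 1⟩,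
  ⟨(.sub (.sub (.mul (.mul (.mul (.c 0) (.w 0 3)) (.w 1 5)) (.w 2 3)) (.mul (.mul (.mul (.c 86) (.v 1)) (.add (.mul (.mul (.c 1048576) (.r 2 1 632 2)) (.w 1 2)) (.mul (.mul (.c 86) (.v 1)) (.add (.mul (.mul (.c 1024) (.r 2 2 632 2)) (.w 1 1)) (.mul (.mul (.c 86) (.v 1)) (.r 2 3 632 2)))))) (.mul (.add (.mul (.q 2) (.r 0 4 1 3)) (.mul (.v 2) (.r 0 636 1 3))) (.mul (.c 1) (.add (.mul (.mul (.add (.mul (.mul (.c 1024) (.s 2 30 632 2)) (.w 0 1)) (.mul (.mul (.c 171) (.v 0)) (.s 2 33 632 2))) (.mul (.c 86) (.v 1))) (.w 1 1)) (.mul (.mul (.s 2 32 632 2) (.mul (.mul (.c 86) (.v 1)) (.mul (.c 86) (.v 1)))) (.w 0 1))))))) (.mul (.mul (.mul (.c 33554432) (.add (.mul (.mul (.c 1024) (.mul (.mul (.r 2 435 632 2) (.mul (.mul (.c 86) (.v 1)) (.add (.mul (.mul (.c 1048576) (.r 2 1 632 2)) (.w 1 2)) (.mul (.mul (.c 86) (.v 1)) (.add (.mul (.mul (.c 1024) (.r 2 2 632 2)) (.w 1 1)) (.mul (.mul (.c 86)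 (.v 1)) (.r 2 3 632 2))))))) (.sub (.mul (.c 0) (.w 1 1)) (.mul (.c 12) (.mul (.c 86) (.v 1)))))) (.w 1 1)) (.add (.mul (.mul (.r 2 437 632 2) (.mul (.mul (.c 86) (.v 1)) (.add (.mul (.mul (.c 1048576) (.r 2 1 632 2)) (.w 1 2)) (.mul (.mul (.c 86) (.v 1)) (.add (.mul (.mul (.c 1024) (.r 2 2 632 2)) (.w 1 1)) (.mul (.mul (.c 86) (.v 1)) (.r 2 3 632 2))))))) (.sub (.mul (.mul (.c 1024) (.mul (.c 86) (.v 1))) (.w 1 1)) (.mul (.c 12) (.mul (.mul (.c 86) (.v 1)) (.mul (.c 86) (.v 1)))))) (.add (.mul (.mul (.r 2 438 632 2) (.mul (.mul (.c 86) (.v 1)) (.add (.mul (.mul (.c 1048576) (.r 2 1 632 2)) (.w 1 2)) (.mul (.mul (.c 86) (.v 1)) (.add (.mul (.mul (.c 1024) (.r 2 2 632 2)) (.w 1 1)) (.mul (.mul (.c 86) (.v 1)) (.r 2 3 632 2))))))) (.sub (.mul (.c 0) (.w 1 2)) (.mul (.c 12) (.mul (.mul (.c 86) (.v 1)) (.mul (.c 86) (.v 1)))))) (.add (.mul (.mul (.r 2 439 632 2) (.mul (.mul (.c 86) (.v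 1)) (.add (.mul (.mul (.c 1048576) (.r 2 1 632 2)) (.w 1 2)) (.mul (.mul (.c 86) (.v 1)) (.add (.mul (.mul (.c 1024) (.r 2 2 632 2)) (.w 1 1)) (.mul (.mul (.c 86) (.v 1)) (.r 2 3 632 2))))))) (.sub (.mul (.c 144) (.mul (.mul (.c 86) (.v 1)) (.mul (.c 86) (.v 1)))) (.mul (.mul (.c 1024) (.mul (.c 12) (.mul (.c 86) (.v 1)))) (.w 1 1)))) (.mul (.mul (.c 1048576) (.mul (.mul (.r 2 440 632 2) (.mul (.mul (.c 86) (.v 1)) (.add (.mul (.mul (.c 1048576) (.r 2 1 632 2)) (.w 1 2)) (.mul (.mul (.c 86) (.v 1)) (.add (.mul (.mul (.c 1024) (.r 2 2 632 2)) (.w 1 1)) (.mul (.mul (.c 86) (.v 1)) (.r 2 3 632 2))))))) (.sub (.c 0) (.mul (.c 12) (.c 1))))) (.w 1 2))))))) (.w 0 3)) (.w 2 1))), 150, 4, 6, 4, 1⟩,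
  ⟨(.sub (.sub (.mul (.mul (.mul (.mul (.c 590295810358705651712) (.mul (.mul (.c 86) (.v 1)) (.add (.mul (.c 1024) (.add (.mul (.add (.mul (.mul (.c 1024) (.s 2 311 632 2)) (.w 0 1)) (.mul (.s 2 312 632 2) (.mul (.c 171) (.v 0)))) (.w 1 1)) (.mul (.mul (.s 2 313 632 2) (.mul (.c 86) (.v 1))) (.w 0 1)))) (.mul (.s 2 314 632 2) (.mul (.mul (.c 86) (.v 1)) (.mul (.c 171) (.v 0))))))) (.w 0 3)) (.w 1 3)) (.w 2 2)) (.mul (.mul (.mul (.c 86) (.v 1)) (.add (.mul (.mul (.c 1048576) (.r 2 1 632 2)) (.w 1 2)) (.mul (.mul (.c 86) (.v 1)) (.add (.mul (.mul (.c 1024) (.r 2 2 632 2)) (.w 1 1)) (.mul (.mul (.c 86) (.v 1)) (.r 2 3 632 2)))))) (.mul (.add (.mul (.q 2) (.r 0 4 1 3)) (.mul (.v 2) (.r 0 636 1 3))) (.mul (.c 1) (.add (.mul (.add (.mul (.mul (.c 1024) (.mul (.s 2 22 632 2) (.add (.mul (.mul (.c 767) (.w 0 1)) (.w 1 1)) (.add (.mul (.mul (.c 171) (.q 0)) (.w 1 1)) (.mul (.mul (.c 86) (.q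 1)) (.w 0 1)))))) (.w 0 1)) (.mul (.s 2 23 632 2) (.mul (.mul (.c 171) (.v 0)) (.add (.mul (.mul (.c 767) (.w 0 1)) (.w 1 1)) (.add (.mul (.mul (.c 171) (.q 0)) (.w 1 1)) (.mul (.mul (.c 86) (.q 1)) (.w 0 1))))))) (.w 1 1)) (.add (.mul (.add (.mul (.mul (.c 1024) (.mul (.s 2 22 632 2) (.add (.mul (.c 853) (.w 0 1)) (.mul (.c 171) (.q 0))))) (.w 0 1)) (.mul (.s 2 23 632 2) (.mul (.mul (.c 171) (.v 0)) (.add (.mul (.c 853) (.w 0 1)) (.mul (.c 171) (.q 0)))))) (.w 1 2)) (.mul (.mul (.s 2 25 632 2) (.mul (.mul (.c 86) (.v 1)) (.mul (.c 86) (.v 1)))) (.w 0 2)))))))) (.mul (.mul (.mul (.c 33554432) (.add (.mul (.mul (.c 1024) (.mul (.mul (.r 2 452 632 2) (.mul (.mul (.c 86) (.v 1)) (.add (.mul (.mul (.c 1048576) (.r 2 1 632 2)) (.w 1 2)) (.mul (.mul (.c 86) (.v 1)) (.add (.mul (.mul (.c 1024) (.r 2 2 632 2)) (.w 1 1)) (.mul (.mul (.c 86) (.v 1)) (.r 2 3 632 2))))))) (.mul (.c 2) (.add (.mul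 (.mul (.c 767) (.w 0 1)) (.w 1 1)) (.add (.mul (.mul (.c 171) (.q 0)) (.w 1 1)) (.mul (.mul (.c 86) (.q 1)) (.w 0 1))))))) (.w 1 1)) (.add (.mul (.mul (.c 1024) (.mul (.mul (.r 2 453 632 2) (.mul (.mul (.c 86) (.v 1)) (.add (.mul (.mul (.c 1048576) (.r 2 1 632 2)) (.w 1 2)) (.mul (.mul (.c 86) (.v 1)) (.add (.mul (.mul (.c 1024) (.r 2 2 632 2)) (.w 1 1)) (.mul (.mul (.c 86) (.v 1)) (.r 2 3 632 2))))))) (.add (.mul (.mul (.c 767) (.w 0 1)) (.w 1 1)) (.add (.mul (.mul (.c 171) (.q 0)) (.w 1 1)) (.mul (.mul (.c 86) (.q 1)) (.w 0 1)))))) (.w 1 1)) (.add (.mul (.mul (.c 1024) (.mul (.mul (.r 2 456 632 2) (.mul (.mul (.c 86) (.v 1)) (.add (.mul (.mul (.c 1048576) (.r 2 1 632 2)) (.w 1 2)) (.mul (.mul (.c 86) (.v 1)) (.add (.mul (.mul (.c 1024) (.r 2 2 632 2)) (.w 1 1)) (.mul (.mul (.c 86) (.v 1)) (.r 2 3 632 2))))))) (.mul (.c 2) (.add (.mul (.mul (.c 767) (.w 0 1)) (.w 1 1)) (.add (.mul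 (.mul (.c 171) (.q 0)) (.w 1 1)) (.mul (.mul (.c 86) (.q 1)) (.w 0 1))))))) (.w 1 1)) (.add (.mul (.mul (.c 1024) (.mul (.mul (.r 2 457 632 2) (.mul (.mul (.c 86) (.v 1)) (.add (.mul (.mul (.c 1048576) (.r 2 1 632 2)) (.w 1 2)) (.mul (.mul (.c 86) (.v 1)) (.add (.mul (.mul (.c 1024) (.r 2 2 632 2)) (.w 1 1)) (.mul (.mul (.c 86) (.v 1)) (.r 2 3 632 2))))))) (.mul (.c 2) (.add (.mul (.c 853) (.w 0 1)) (.mul (.c 171) (.q 0)))))) (.w 1 2)) (.add (.mul (.mul (.r 2 458 632 2) (.mul (.mul (.c 86) (.v 1)) (.add (.mul (.mul (.c 1048576) (.r 2 1 632 2)) (.w 1 2)) (.mul (.mul (.c 86) (.v 1)) (.add (.mul (.mul (.c 1024) (.r 2 2 632 2)) (.w 1 1)) (.mul (.mul (.c 86) (.v 1)) (.r 2 3 632 2))))))) (.sub (.mul (.mul (.c 1024) (.add (.mul (.c 853) (.w 0 1)) (.mul (.c 171) (.q 0)))) (.w 1 2)) (.mul (.mul (.c 12) (.mul (.mul (.c 86) (.v 1)) (.mul (.c 86) (.v 1)))) (.w 0 1)))) (.add (.mul (.mul (.mul (.r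 2 460 632 2) (.mul (.mul (.c 86) (.v 1)) (.add (.mul (.mul (.c 1048576) (.r 2 1 632 2)) (.w 1 2)) (.mul (.mul (.c 86) (.v 1)) (.add (.mul (.mul (.c 1024) (.r 2 2 632 2)) (.w 1 1)) (.mul (.mul (.c 86) (.v 1)) (.r 2 3 632 2))))))) (.mul (.c 2) (.mul (.mul (.c 86) (.v 1)) (.mul (.c 86) (.v 1))))) (.w 0 1)) (.add (.mul (.mul (.r 2 461 632 2) (.mul (.mul (.c 86) (.v 1)) (.add (.mul (.mul (.c 1048576) (.r 2 1 632 2)) (.w 1 2)) (.mul (.mul (.c 86) (.v 1)) (.add (.mul (.mul (.c 1024) (.r 2 2 632 2)) (.w 1 1)) (.mul (.mul (.c 86) (.v 1)) (.r 2 3 632 2))))))) (.sub (.mul (.mul (.c 1024) (.mul (.c 2) (.add (.mul (.c 853) (.w 0 1)) (.mul (.c 171) (.q 0))))) (.w 1 2)) (.mul (.mul (.c 24) (.mul (.mul (.c 86) (.v 1)) (.mul (.c 86) (.v 1)))) (.w 0 1)))) (.mul (.mul (.mul (.c 1048576) (.mul (.mul (.r 2 462 632 2) (.mul (.mul (.c 86) (.v 1)) (.add (.mul (.mul (.c 1048576) (.r 2 1 632 2)) (.w 1 2)) (.mul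 (.mul (.c 86) (.v 1)) (.add (.mul (.mul (.c 1024) (.r 2 2 632 2)) (.w 1 1)) (.mul (.mul (.c 86) (.v 1)) (.r 2 3 632 2))))))) (.c 2))) (.w 0 1)) (.w 1 2)))))))))) (.w 0 3)) (.w 2 1))), 155, 5, 6, 4, 1⟩,
  ⟨(.sub (.sub (.mul (.mul (.mul (.c 0) (.w 0 3)) (.w 1 3)) (.w 2 3)) (.mul (.mul (.mul (.c 86) (.v 1)) (.add (.mul (.mul (.c 1048576) (.r 2 1 632 2)) (.w 1 2)) (.mul (.mul (.c 86) (.v 1)) (.add (.mul (.mul (.c 1024) (.r 2 2 632 2)) (.w 1 1)) (.mul (.mul (.c 86) (.v 1)) (.r 2 3 632 2)))))) (.mul (.add (.mul (.q 2) (.r 0 4 1 3)) (.mul (.v 2) (.r 0 636 1 3))) (.mul (.c 1) (.add (.mul (.add (.mul (.mul (.c 1024) (.s 2 24 632 2)) (.w 0 1)) (.mul (.mul (.c 171) (.v 0)) (.s 2 27 632 2))) (.c 1)) (.mul (.add (.mul (.mul (.c 1024) (.s 2 24 632 2)) (.w 0 1)) (.mul (.mul (.c 171) (.v 0)) (.s 2 27 632 2))) (.c 1))))))) (.mul (.mul (.mul (.c 34359738368) (.add (.mul (.mul (.r 2 452 632 2) (.mul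 (.mul (.c 86) (.v 1)) (.add (.mul (.mul (.c 1048576) (.r 2 1 632 2)) (.w 1 2)) (.mul (.mul (.c 86) (.v 1)) (.add (.mul (.mul (.c 1024) (.r 2 2 632 2)) (.w 1 1)) (.mul (.mul (.c 86) (.v 1)) (.r 2 3 632 2))))))) (.sub (.c 0) (.mul (.c 12) (.c 1)))) (.add (.mul (.mul (.r 2 454 632 2) (.mul (.mul (.c 86) (.v 1)) (.add (.mul (.mul (.c 1048576) (.r 2 1 632 2)) (.w 1 2)) (.mul (.mul (.c 86) (.v 1)) (.add (.mul (.mul (.c 1024) (.r 2 2 632 2)) (.w 1 1)) (.mul (.mul (.c 86) (.v 1)) (.r 2 3 632 2))))))) (.c 1)) (.add (.mul (.mul (.r 2 456 632 2) (.mul (.mul (.c 86) (.v 1)) (.add (.mul (.mul (.c 1048576) (.r 2 1 632 2)) (.w 1 2)) (.mul (.mul (.c 86) (.v 1)) (.add (.mul (.mul (.c 1024) (.r 2 2 632 2)) (.w 1 1)) (.mul (.mul (.c 86) (.v 1)) (.r 2 3 632 2))))))) (.sub (.c 0) (.mul (.c 12) (.c 1)))) (.add (.mul (.mul (.r 2 457 632 2) (.mul (.mul (.c 86) (.v 1)) (.add (.mul (.mul (.c 1048576) (.r 2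 1 632 2)) (.w 1 2)) (.mul (.mul (.c 86) (.v 1)) (.add (.mul (.mul (.c 1024) (.r 2 2 632 2)) (.w 1 1)) (.mul (.mul (.c 86) (.v 1)) (.r 2 3 632 2))))))) (.sub (.c 0) (.mul (.c 12) (.c 1)))) (.add (.mul (.mul (.r 2 459 632 2) (.mul (.mul (.c 86) (.v 1)) (.add (.mul (.mul (.c 1048576) (.r 2 1 632 2)) (.w 1 2)) (.mul (.mul (.c 86) (.v 1)) (.add (.mul (.mul (.c 1024) (.r 2 2 632 2)) (.w 1 1)) (.mul (.mul (.c 86) (.v 1)) (.r 2 3 632 2))))))) (.c 1)) (.mul (.mul (.r 2 461 632 2) (.mul (.mul (.c 86) (.v 1)) (.add (.mul (.mul (.c 1048576) (.r 2 1 632 2)) (.w 1 2)) (.mul (.mul (.c 86) (.v 1)) (.add (.mul (.mul (.c 1024) (.r 2 2 632 2)) (.w 1 1)) (.mul (.mul (.c 86) (.v 1)) (.r 2 3 632 2))))))) (.sub (.c 0) (.mul (.c 12) (.c 1)))))))))) (.w 0 3)) (.w 2 1))), 142, 4, 4, 4, 1⟩,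
  ⟨(.sub (.sub (.mul (.mul (.mul (.c 0) (.w 0 2)) (.w 1 3)) (.w 2 3)) (.mul (.mul (.mul (.c 86) (.v 1)) (.add (.mul (.mul (.c 1048576) (.r 2 1 632 2)) (.w 1 2)) (.mul (.mul (.c 86) (.v 1)) (.add (.mul (.mul (.c 1024) (.r 2 2 632 2)) (.w 1 1)) (.mul (.mul (.c 86) (.v 1)) (.r 2 3 632 2)))))) (.mul (.add (.mul (.q 2) (.r 0 4 1 3)) (.mul (.v 2) (.r 0 636 1 3))) (.mul (.c 1) (.add (.mul (.s 2 25 632 2) (.c 1)) (.mul (.s 2 25 632 2) (.c 1))))))) (.mul (.mul (.mul (.c 33554432) (.add (.mul (.mul (.r 2 453 632 2) (.mul (.mul (.c 86) (.v 1)) (.add (.mul (.mul (.c 1048576) (.r 2 1 632 2)) (.w 1 2)) (.mul (.mul (.c 86) (.v 1)) (.add (.mul (.mul (.c 1024) (.r 2 2 632 2)) (.w 1 1)) (.mul (.mul (.c 86) (.v 1)) (.r 2 3 632 2))))))) (.sub (.c 0) (.mul (.c 12) (.c 1)))) (.add (.mul (.mul (.r 2 455 632 2) (.mul (.mul (.c 86) (.v 1)) (.add (.mul (.mul (.c 1048576) (.r 2 1 632 2)) (.w 1 2)) (.mul (.mul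 (.c 86) (.v 1)) (.add (.mul (.mul (.c 1024) (.r 2 2 632 2)) (.w 1 1)) (.mul (.mul (.c 86) (.v 1)) (.r 2 3 632 2))))))) (.mul (.c 2) (.c 1))) (.add (.mul (.mul (.r 2 456 632 2) (.mul (.mul (.c 86) (.v 1)) (.add (.mul (.mul (.c 1048576) (.r 2 1 632 2)) (.w 1 2)) (.mul (.mul (.c 86) (.v 1)) (.add (.mul (.mul (.c 1024) (.r 2 2 632 2)) (.w 1 1)) (.mul (.mul (.c 86) (.v 1)) (.r 2 3 632 2))))))) (.sub (.c 0) (.mul (.c 24) (.c 1)))) (.add (.mul (.mul (.r 2 458 632 2) (.mul (.mul (.c 86) (.v 1)) (.add (.mul (.mul (.c 1048576) (.r 2 1 632 2)) (.w 1 2)) (.mul (.mul (.c 86) (.v 1)) (.add (.mul (.mul (.c 1024) (.r 2 2 632 2)) (.w 1 1)) (.mul (.mul (.c 86) (.v 1)) (.r 2 3 632 2))))))) (.sub (.c 0) (.mul (.c 12) (.c 1)))) (.add (.mul (.mul (.r 2 460 632 2) (.mul (.mul (.c 86) (.v 1)) (.add (.mul (.mul (.c 1048576) (.r 2 1 632 2)) (.w 1 2)) (.mul (.mul (.c 86) (.v 1)) (.add (.mul (.mul (.c 1024) (.r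 2 2 632 2)) (.w 1 1)) (.mul (.mul (.c 86) (.v 1)) (.r 2 3 632 2))))))) (.mul (.c 2) (.c 1))) (.mul (.mul (.r 2 461 632 2) (.mul (.mul (.c 86) (.v 1)) (.add (.mul (.mul (.c 1048576) (.r 2 1 632 2)) (.w 1 2)) (.mul (.mul (.c 86) (.v 1)) (.add (.mul (.mul (.c 1024) (.r 2 2 632 2)) (.w 1 1)) (.mul (.mul (.c 86) (.v 1)) (.r 2 3 632 2))))))) (.sub (.c 0) (.mul (.c 24) (.c 1)))))))))) (.w 0 2)) (.w 2 1))), 131, 3, 4, 4, 1⟩,
  ⟨(.sub (.sub (.mul (.mul (.mul (.c 0) (.w 0 2)) (.w 1 3)) (.w 2 3)) (.mul (.mul (.mul (.c 86) (.v 1)) (.add (.mul (.mul (.c 1048576) (.r 2 1 632 2)) (.w 1 2)) (.mul (.mul (.c 86) (.v 1)) (.add (.mul (.mul (.c 1024) (.r 2 2 632 2)) (.w 1 1)) (.mul (.mul (.c 86) (.v 1)) (.r 2 3 632 2)))))) (.mul (.add (.mul (.q 2) (.r 0 4 1 3)) (.mul (.v 2) (.r 0 636 1 3))) (.mul (.c 1) (.add (.mul (.s 2 26 632 2) (.c 1)) (.mul (.s 2 26 632 2) (.c 1))))))) (.mul (.mul (.mul (.c 33554432)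 (.add (.mul (.mul (.r 2 454 632 2) (.mul (.mul (.c 86) (.v 1)) (.add (.mul (.mul (.c 1048576) (.r 2 1 632 2)) (.w 1 2)) (.mul (.mul (.c 86) (.v 1)) (.add (.mul (.mul (.c 1024) (.r 2 2 632 2)) (.w 1 1)) (.mul (.mul (.c 86) (.v 1)) (.r 2 3 632 2))))))) (.sub (.c 0) (.mul (.c 12) (.c 1)))) (.add (.mul (.mul (.r 2 455 632 2) (.mul (.mul (.c 86) (.v 1)) (.add (.mul (.mul (.c 1048576) (.r 2 1 632 2)) (.w 1 2)) (.mul (.mul (.c 86) (.v 1)) (.add (.mul (.mul (.c 1024) (.r 2 2 632 2)) (.w 1 1)) (.mul (.mul (.c 86) (.v 1)) (.r 2 3 632 2))))))) (.sub (.c 0) (.mul (.c 12) (.c 1)))) (.add (.mul (.mul (.r 2 456 632 2) (.mul (.mul (.c 86) (.v 1)) (.add (.mul (.mul (.c 1048576) (.r 2 1 632 2)) (.w 1 2)) (.mul (.mul (.c 86) (.v 1)) (.add (.mul (.mul (.c 1024) (.r 2 2 632 2)) (.w 1 1)) (.mul (.mul (.c 86) (.v 1)) (.r 2 3 632 2))))))) (.mul (.c 144) (.c 1))) (.add (.mul (.mul (.r 2 459 632 2) (.mul (.mul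 (.c 86) (.v 1)) (.add (.mul (.mul (.c 1048576) (.r 2 1 632 2)) (.w 1 2)) (.mul (.mul (.c 86) (.v 1)) (.add (.mul (.mul (.c 1024) (.r 2 2 632 2)) (.w 1 1)) (.mul (.mul (.c 86) (.v 1)) (.r 2 3 632 2))))))) (.sub (.c 0) (.mul (.c 12) (.c 1)))) (.add (.mul (.mul (.r 2 460 632 2) (.mul (.mul (.c 86) (.v 1)) (.add (.mul (.mul (.c 1048576) (.r 2 1 632 2)) (.w 1 2)) (.mul (.mul (.c 86) (.v 1)) (.add (.mul (.mul (.c 1024) (.r 2 2 632 2)) (.w 1 1)) (.mul (.mul (.c 86) (.v 1)) (.r 2 3 632 2))))))) (.sub (.c 0) (.mul (.c 12) (.c 1)))) (.mul (.mul (.r 2 461 632 2) (.mul (.mul (.c 86) (.v 1)) (.add (.mul (.mul (.c 1048576) (.r 2 1 632 2)) (.w 1 2)) (.mul (.mul (.c 86) (.v 1)) (.add (.mul (.mul (.c 1024) (.r 2 2 632 2)) (.w 1 1)) (.mul (.mul (.c 86) (.v 1)) (.r 2 3 632 2))))))) (.mul (.c 144) (.c 1))))))))) (.w 0 2)) (.w 2 1))), 132, 3, 4, 4, 1⟩,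
  ⟨(.sub (.sub (.mul (.mul (.mul (.c 0) (.w 0 3)) (.w 1 5)) (.w 2 3)) (.mul (.mul (.mul (.c 86) (.v 1)) (.add (.mul (.mul (.c 1048576) (.r 2 1 632 2)) (.w 1 2)) (.mul (.mul (.c 86) (.v 1)) (.add (.mul (.mul (.c 1024) (.r 2 2 632 2)) (.w 1 1)) (.mul (.mul (.c 86) (.v 1)) (.r 2 3 632 2)))))) (.mul (.add (.mul (.q 2) (.r 0 4 1 3)) (.mul (.v 2) (.r 0 636 1 3))) (.mul (.c 1) (.add (.mul (.mul (.add (.mul (.mul (.c 1024) (.s 2 24 632 2)) (.w 0 1)) (.mul (.mul (.c 171) (.v 0)) (.s 2 27 632 2))) (.mul (.c 86) (.v 1))) (.w 1 1)) (.mul (.mul (.s 2 26 632 2) (.mul (.mul (.c 86) (.v 1)) (.mul (.c 86) (.v 1)))) (.w 0 1))))))) (.mul (.mul (.mul (.c 33554432) (.add (.mul (.mul (.c 1024) (.mul (.mul (.r 2 457 632 2) (.mul (.mul (.c 86) (.v 1)) (.add (.mul (.mul (.c 1048576) (.r 2 1 632 2)) (.w 1 2)) (.mul (.mul (.c 86) (.v 1)) (.add (.mul (.mul (.c 1024) (.r 2 2 632 2)) (.w 1 1)) (.mul (.mul (.c 86)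 (.v 1)) (.r 2 3 632 2))))))) (.sub (.mul (.c 0) (.w 1 1)) (.mul (.c 12) (.mul (.c 86) (.v 1)))))) (.w 1 1)) (.add (.mul (.mul (.r 2 459 632 2) (.mul (.mul (.c 86) (.v 1)) (.add (.mul (.mul (.c 1048576) (.r 2 1 632 2)) (.w 1 2)) (.mul (.mul (.c 86) (.v 1)) (.add (.mul (.mul (.c 1024) (.r 2 2 632 2)) (.w 1 1)) (.mul (.mul (.c 86) (.v 1)) (.r 2 3 632 2))))))) (.sub (.mul (.mul (.c 1024) (.mul (.c 86) (.v 1))) (.w 1 1)) (.mul (.c 12) (.mul (.mul (.c 86) (.v 1)) (.mul (.c 86) (.v 1)))))) (.add (.mul (.mul (.r 2 460 632 2) (.mul (.mul (.c 86) (.v 1)) (.add (.mul (.mul (.c 1048576) (.r 2 1 632 2)) (.w 1 2)) (.mul (.mul (.c 86) (.v 1)) (.add (.mul (.mul (.c 1024) (.r 2 2 632 2)) (.w 1 1)) (.mul (.mul (.c 86) (.v 1)) (.r 2 3 632 2))))))) (.sub (.mul (.c 0) (.w 1 2)) (.mul (.c 12) (.mul (.mul (.c 86) (.v 1)) (.mul (.c 86) (.v 1)))))) (.add (.mul (.mul (.r 2 461 632 2) (.mul (.mul (.c 86) (.v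 1)) (.add (.mul (.mul (.c 1048576) (.r 2 1 632 2)) (.w 1 2)) (.mul (.mul (.c 86) (.v 1)) (.add (.mul (.mul (.c 1024) (.r 2 2 632 2)) (.w 1 1)) (.mul (.mul (.c 86) (.v 1)) (.r 2 3 632 2))))))) (.sub (.mul (.c 144) (.mul (.mul (.c 86) (.v 1)) (.mul (.c 86) (.v 1)))) (.mul (.mul (.c 1024) (.mul (.c 12) (.mul (.c 86) (.v 1)))) (.w 1 1)))) (.mul (.mul (.c 1048576) (.mul (.mul (.r 2 462 632 2) (.mul (.mul (.c 86) (.v 1)) (.add (.mul (.mul (.c 1048576) (.r 2 1 632 2)) (.w 1 2)) (.mul (.mul (.c 86) (.v 1)) (.add (.mul (.mul (.c 1024) (.r 2 2 632 2)) (.w 1 1)) (.mul (.mul (.c 86) (.v 1)) (.r 2 3 632 2))))))) (.sub (.c 0) (.mul (.c 12) (.c 1))))) (.w 1 2))))))) (.w 0 3)) (.w 2 1))), 150, 4, 6, 4, 1⟩,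
  ⟨(.sub (.sub (.mul (.mul (.mul (.mul (.c 590295810358705651712) (.mul (.mul (.c 86) (.v 1)) (.add (.mul (.c 1024) (.add (.mul (.add (.mul (.mul (.c 1024) (.s 2 319 632 2)) (.w 0 1)) (.mul (.s 2 320 632 2) (.mul (.c 171) (.v 0)))) (.w 1 1)) (.mul (.mul (.s 2 321 632 2) (.mul (.c 86) (.v 1))) (.w 0 1)))) (.mul (.s 2 322 632 2) (.mul (.mul (.c 86) (.v 1)) (.mul (.c 171) (.v 0))))))) (.w 0 3)) (.w 1 3)) (.w 2 2)) (.mul (.mul (.mul (.c 86) (.v 1)) (.add (.mul (.mul (.c 1048576) (.r 2 1 632 2)) (.w 1 2)) (.mul (.mul (.c 86) (.v 1)) (.add (.mul (.mul (.c 1024) (.r 2 2 632 2)) (.w 1 1)) (.mul (.mul (.c 86) (.v 1)) (.r 2 3 632 2)))))) (.mul (.add (.mul (.q 2) (.r 0 4 1 3)) (.mul (.v 2) (.r 0 636 1 3))) (.mul (.c 1) (.add (.mul (.add (.mul (.mul (.c 1024) (.mul (.s 2 28 632 2) (.add (.mul (.mul (.c 767) (.w 0 1)) (.w 1 1)) (.add (.mul (.mul (.c 171) (.q 0)) (.w 1 1)) (.mul (.mul (.c 86) (.q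 1)) (.w 0 1)))))) (.w 0 1)) (.mul (.s 2 29 632 2) (.mul (.mul (.c 171) (.v 0)) (.add (.mul (.mul (.c 767) (.w 0 1)) (.w 1 1)) (.add (.mul (.mul (.c 171) (.q 0)) (.w 1 1)) (.mul (.mul (.c 86) (.q 1)) (.w 0 1))))))) (.w 1 1)) (.add (.mul (.add (.mul (.mul (.c 1024) (.mul (.s 2 28 632 2) (.add (.mul (.c 853) (.w 0 1)) (.mul (.c 171) (.q 0))))) (.w 0 1)) (.mul (.s 2 29 632 2) (.mul (.mul (.c 171) (.v 0)) (.add (.mul (.c 853) (.w 0 1)) (.mul (.c 171) (.q 0)))))) (.w 1 2)) (.mul (.mul (.s 2 31 632 2) (.mul (.mul (.c 86) (.v 1)) (.mul (.c 86) (.v 1)))) (.w 0 2)))))))) (.mul (.mul (.mul (.c 33554432) (.add (.mul (.mul (.c 1024) (.mul (.mul (.r 2 474 632 2) (.mul (.mul (.c 86) (.v 1)) (.add (.mul (.mul (.c 1048576) (.r 2 1 632 2)) (.w 1 2)) (.mul (.mul (.c 86) (.v 1)) (.add (.mul (.mul (.c 1024) (.r 2 2 632 2)) (.w 1 1)) (.mul (.mul (.c 86) (.v 1)) (.r 2 3 632 2))))))) (.mul (.c 2) (.add (.mul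 (.mul (.c 767) (.w 0 1)) (.w 1 1)) (.add (.mul (.mul (.c 171) (.q 0)) (.w 1 1)) (.mul (.mul (.c 86) (.q 1)) (.w 0 1))))))) (.w 1 1)) (.add (.mul (.mul (.c 1024) (.mul (.mul (.r 2 475 632 2) (.mul (.mul (.c 86) (.v 1)) (.add (.mul (.mul (.c 1048576) (.r 2 1 632 2)) (.w 1 2)) (.mul (.mul (.c 86) (.v 1)) (.add (.mul (.mul (.c 1024) (.r 2 2 632 2)) (.w 1 1)) (.mul (.mul (.c 86) (.v 1)) (.r 2 3 632 2))))))) (.add (.mul (.mul (.c 767) (.w 0 1)) (.w 1 1)) (.add (.mul (.mul (.c 171) (.q 0)) (.w 1 1)) (.mul (.mul (.c 86) (.q 1)) (.w 0 1)))))) (.w 1 1)) (.add (.mul (.mul (.c 1024) (.mul (.mul (.r 2 478 632 2) (.mul (.mul (.c 86) (.v 1)) (.add (.mul (.mul (.c 1048576) (.r 2 1 632 2)) (.w 1 2)) (.mul (.mul (.c 86) (.v 1)) (.add (.mul (.mul (.c 1024) (.r 2 2 632 2)) (.w 1 1)) (.mul (.mul (.c 86) (.v 1)) (.r 2 3 632 2))))))) (.mul (.c 2) (.add (.mul (.mul (.c 767) (.w 0 1)) (.w 1 1)) (.add (.mul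 (.mul (.c 171) (.q 0)) (.w 1 1)) (.mul (.mul (.c 86) (.q 1)) (.w 0 1))))))) (.w 1 1)) (.add (.mul (.mul (.c 1024) (.mul (.mul (.r 2 479 632 2) (.mul (.mul (.c 86) (.v 1)) (.add (.mul (.mul (.c 1048576) (.r 2 1 632 2)) (.w 1 2)) (.mul (.mul (.c 86) (.v 1)) (.add (.mul (.mul (.c 1024) (.r 2 2 632 2)) (.w 1 1)) (.mul (.mul (.c 86) (.v 1)) (.r 2 3 632 2))))))) (.mul (.c 2) (.add (.mul (.c 853) (.w 0 1)) (.mul (.c 171) (.q 0)))))) (.w 1 2)) (.add (.mul (.mul (.r 2 480 632 2) (.mul (.mul (.c 86) (.v 1)) (.add (.mul (.mul (.c 1048576) (.r 2 1 632 2)) (.w 1 2)) (.mul (.mul (.c 86) (.v 1)) (.add (.mul (.mul (.c 1024) (.r 2 2 632 2)) (.w 1 1)) (.mul (.mul (.c 86) (.v 1)) (.r 2 3 632 2))))))) (.sub (.mul (.mul (.c 1024) (.add (.mul (.c 853) (.w 0 1)) (.mul (.c 171) (.q 0)))) (.w 1 2)) (.mul (.mul (.c 12) (.mul (.mul (.c 86) (.v 1)) (.mul (.c 86) (.v 1)))) (.w 0 1)))) (.add (.mul (.mul (.mul (.r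 2 482 632 2) (.mul (.mul (.c 86) (.v 1)) (.add (.mul (.mul (.c 1048576) (.r 2 1 632 2)) (.w 1 2)) (.mul (.mul (.c 86) (.v 1)) (.add (.mul (.mul (.c 1024) (.r 2 2 632 2)) (.w 1 1)) (.mul (.mul (.c 86) (.v 1)) (.r 2 3 632 2))))))) (.mul (.c 2) (.mul (.mul (.c 86) (.v 1)) (.mul (.c 86) (.v 1))))) (.w 0 1)) (.add (.mul (.mul (.r 2 483 632 2) (.mul (.mul (.c 86) (.v 1)) (.add (.mul (.mul (.c 1048576) (.r 2 1 632 2)) (.w 1 2)) (.mul (.mul (.c 86) (.v 1)) (.add (.mul (.mul (.c 1024) (.r 2 2 632 2)) (.w 1 1)) (.mul (.mul (.c 86) (.v 1)) (.r 2 3 632 2))))))) (.sub (.mul (.mul (.c 1024) (.mul (.c 2) (.add (.mul (.c 853) (.w 0 1)) (.mul (.c 171) (.q 0))))) (.w 1 2)) (.mul (.mul (.c 24) (.mul (.mul (.c 86) (.v 1)) (.mul (.c 86) (.v 1)))) (.w 0 1)))) (.mul (.mul (.mul (.c 1048576) (.mul (.mul (.r 2 484 632 2) (.mul (.mul (.c 86) (.v 1)) (.add (.mul (.mul (.c 1048576) (.r 2 1 632 2)) (.w 1 2)) (.mul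 (.mul (.c 86) (.v 1)) (.add (.mul (.mul (.c 1024) (.r 2 2 632 2)) (.w 1 1)) (.mul (.mul (.c 86) (.v 1)) (.r 2 3 632 2))))))) (.c 2))) (.w 0 1)) (.w 1 2)))))))))) (.w 0 3)) (.w 2 1))), 155, 5, 6, 4, 1⟩,
  ⟨(.sub (.sub (.mul (.mul (.mul (.c 0) (.w 0 3)) (.w 1 3)) (.w 2 3)) (.mul (.mul (.mul (.c 86) (.v 1)) (.add (.mul (.mul (.c 1048576) (.r 2 1 632 2)) (.w 1 2)) (.mul (.mul (.c 86) (.v 1)) (.add (.mul (.mul (.c 1024) (.r 2 2 632 2)) (.w 1 1)) (.mul (.mul (.c 86) (.v 1)) (.r 2 3 632 2)))))) (.mul (.add (.mul (.q 2) (.r 0 4 1 3)) (.mul (.v 2) (.r 0 636 1 3))) (.mul (.c 1) (.add (.mul (.add (.mul (.mul (.c 1024) (.s 2 30 632 2)) (.w 0 1)) (.mul (.mul (.c 171) (.v 0)) (.s 2 33 632 2))) (.c 1)) (.mul (.add (.mul (.mul (.c 1024) (.s 2 30 632 2)) (.w 0 1)) (.mul (.mul (.c 171) (.v 0)) (.s 2 33 632 2))) (.c 1))))))) (.mul (.mul (.mul (.c 34359738368) (.add (.mul (.mul (.r 2 474 632 2) (.mul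 (.mul (.c 86) (.v 1)) (.add (.mul (.mul (.c 1048576) (.r 2 1 632 2)) (.w 1 2)) (.mul (.mul (.c 86) (.v 1)) (.add (.mul (.mul (.c 1024) (.r 2 2 632 2)) (.w 1 1)) (.mul (.mul (.c 86) (.v 1)) (.r 2 3 632 2))))))) (.sub (.c 0) (.mul (.c 12) (.c 1)))) (.add (.mul (.mul (.r 2 476 632 2) (.mul (.mul (.c 86) (.v 1)) (.add (.mul (.mul (.c 1048576) (.r 2 1 632 2)) (.w 1 2)) (.mul (.mul (.c 86) (.v 1)) (.add (.mul (.mul (.c 1024) (.r 2 2 632 2)) (.w 1 1)) (.mul (.mul (.c 86) (.v 1)) (.r 2 3 632 2))))))) (.c 1)) (.add (.mul (.mul (.r 2 478 632 2) (.mul (.mul (.c 86) (.v 1)) (.add (.mul (.mul (.c 1048576) (.r 2 1 632 2)) (.w 1 2)) (.mul (.mul (.c 86) (.v 1)) (.add (.mul (.mul (.c 1024) (.r 2 2 632 2)) (.w 1 1)) (.mul (.mul (.c 86) (.v 1)) (.r 2 3 632 2))))))) (.sub (.c 0) (.mul (.c 12) (.c 1)))) (.add (.mul (.mul (.r 2 479 632 2) (.mul (.mul (.c 86) (.v 1)) (.add (.mul (.mul (.c 1048576) (.r 2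 1 632 2)) (.w 1 2)) (.mul (.mul (.c 86) (.v 1)) (.add (.mul (.mul (.c 1024) (.r 2 2 632 2)) (.w 1 1)) (.mul (.mul (.c 86) (.v 1)) (.r 2 3 632 2))))))) (.sub (.c 0) (.mul (.c 12) (.c 1)))) (.add (.mul (.mul (.r 2 481 632 2) (.mul (.mul (.c 86) (.v 1)) (.add (.mul (.mul (.c 1048576) (.r 2 1 632 2)) (.w 1 2)) (.mul (.mul (.c 86) (.v 1)) (.add (.mul (.mul (.c 1024) (.r 2 2 632 2)) (.w 1 1)) (.mul (.mul (.c 86) (.v 1)) (.r 2 3 632 2))))))) (.c 1)) (.mul (.mul (.r 2 483 632 2) (.mul (.mul (.c 86) (.v 1)) (.add (.mul (.mul (.c 1048576) (.r 2 1 632 2)) (.w 1 2)) (.mul (.mul (.c 86) (.v 1)) (.add (.mul (.mul (.c 1024) (.r 2 2 632 2)) (.w 1 1)) (.mul (.mul (.c 86) (.v 1)) (.r 2 3 632 2))))))) (.sub (.c 0) (.mul (.c 12) (.c 1)))))))))) (.w 0 3)) (.w 2 1))), 142, 4, 4, 4, 1⟩,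
  ⟨(.sub (.sub (.mul (.mul (.mul (.c 0) (.w 0 2)) (.w 1 3)) (.w 2 3)) (.mul (.mul (.mul (.c 86) (.v 1)) (.add (.mul (.mul (.c 1048576) (.r 2 1 632 2)) (.w 1 2)) (.mul (.mul (.c 86) (.v 1)) (.add (.mul (.mul (.c 1024) (.r 2 2 632 2)) (.w 1 1)) (.mul (.mul (.c 86) (.v 1)) (.r 2 3 632 2)))))) (.mul (.add (.mul (.q 2) (.r 0 4 1 3)) (.mul (.v 2) (.r 0 636 1 3))) (.mul (.c 1) (.add (.mul (.s 2 31 632 2) (.c 1)) (.mul (.s 2 31 632 2) (.c 1))))))) (.mul (.mul (.mul (.c 33554432) (.add (.mul (.mul (.r 2 475 632 2) (.mul (.mul (.c 86) (.v 1)) (.add (.mul (.mul (.c 1048576) (.r 2 1 632 2)) (.w 1 2)) (.mul (.mul (.c 86) (.v 1)) (.add (.mul (.mul (.c 1024) (.r 2 2 632 2)) (.w 1 1)) (.mul (.mul (.c 86) (.v 1)) (.r 2 3 632 2))))))) (.sub (.c 0) (.mul (.c 12) (.c 1)))) (.add (.mul (.mul (.r 2 477 632 2) (.mul (.mul (.c 86) (.v 1)) (.add (.mul (.mul (.c 1048576) (.r 2 1 632 2)) (.w 1 2)) (.mul (.mul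 (.c 86) (.v 1)) (.add (.mul (.mul (.c 1024) (.r 2 2 632 2)) (.w 1 1)) (.mul (.mul (.c 86) (.v 1)) (.r 2 3 632 2))))))) (.mul (.c 2) (.c 1))) (.add (.mul (.mul (.r 2 478 632 2) (.mul (.mul (.c 86) (.v 1)) (.add (.mul (.mul (.c 1048576) (.r 2 1 632 2)) (.w 1 2)) (.mul (.mul (.c 86) (.v 1)) (.add (.mul (.mul (.c 1024) (.r 2 2 632 2)) (.w 1 1)) (.mul (.mul (.c 86) (.v 1)) (.r 2 3 632 2))))))) (.sub (.c 0) (.mul (.c 24) (.c 1)))) (.add (.mul (.mul (.r 2 480 632 2) (.mul (.mul (.c 86) (.v 1)) (.add (.mul (.mul (.c 1048576) (.r 2 1 632 2)) (.w 1 2)) (.mul (.mul (.c 86) (.v 1)) (.add (.mul (.mul (.c 1024) (.r 2 2 632 2)) (.w 1 1)) (.mul (.mul (.c 86) (.v 1)) (.r 2 3 632 2))))))) (.sub (.c 0) (.mul (.c 12) (.c 1)))) (.add (.mul (.mul (.r 2 482 632 2) (.mul (.mul (.c 86) (.v 1)) (.add (.mul (.mul (.c 1048576) (.r 2 1 632 2)) (.w 1 2)) (.mul (.mul (.c 86) (.v 1)) (.add (.mul (.mul (.c 1024) (.r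 2 2 632 2)) (.w 1 1)) (.mul (.mul (.c 86) (.v 1)) (.r 2 3 632 2))))))) (.mul (.c 2) (.c 1))) (.mul (.mul (.r 2 483 632 2) (.mul (.mul (.c 86) (.v 1)) (.add (.mul (.mul (.c 1048576) (.r 2 1 632 2)) (.w 1 2)) (.mul (.mul (.c 86) (.v 1)) (.add (.mul (.mul (.c 1024) (.r 2 2 632 2)) (.w 1 1)) (.mul (.mul (.c 86) (.v 1)) (.r 2 3 632 2))))))) (.sub (.c 0) (.mul (.c 24) (.c 1)))))))))) (.w 0 2)) (.w 2 1))), 131, 3, 4, 4, 1⟩,
  ⟨(.sub (.sub (.mul (.mul (.mul (.c 0) (.w 0 2)) (.w 1 3)) (.w 2 3)) (.mul (.mul (.mul (.c 86) (.v 1)) (.add (.mul (.mul (.c 1048576) (.r 2 1 632 2)) (.w 1 2)) (.mul (.mul (.c 86) (.v 1)) (.add (.mul (.mul (.c 1024) (.r 2 2 632 2)) (.w 1 1)) (.mul (.mul (.c 86) (.v 1)) (.r 2 3 632 2)))))) (.mul (.add (.mul (.q 2) (.r 0 4 1 3)) (.mul (.v 2) (.r 0 636 1 3))) (.mul (.c 1) (.add (.mul (.s 2 32 632 2) (.c 1)) (.mul (.s 2 32 632 2) (.c 1))))))) (.mul (.mul (.mul (.c 33554432)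 (.add (.mul (.mul (.r 2 476 632 2) (.mul (.mul (.c 86) (.v 1)) (.add (.mul (.mul (.c 1048576) (.r 2 1 632 2)) (.w 1 2)) (.mul (.mul (.c 86) (.v 1)) (.add (.mul (.mul (.c 1024) (.r 2 2 632 2)) (.w 1 1)) (.mul (.mul (.c 86) (.v 1)) (.r 2 3 632 2))))))) (.sub (.c 0) (.mul (.c 12) (.c 1)))) (.add (.mul (.mul (.r 2 477 632 2) (.mul (.mul (.c 86) (.v 1)) (.add (.mul (.mul (.c 1048576) (.r 2 1 632 2)) (.w 1 2)) (.mul (.mul (.c 86) (.v 1)) (.add (.mul (.mul (.c 1024) (.r 2 2 632 2)) (.w 1 1)) (.mul (.mul (.c 86) (.v 1)) (.r 2 3 632 2))))))) (.sub (.c 0) (.mul (.c 12) (.c 1)))) (.add (.mul (.mul (.r 2 478 632 2) (.mul (.mul (.c 86) (.v 1)) (.add (.mul (.mul (.c 1048576) (.r 2 1 632 2)) (.w 1 2)) (.mul (.mul (.c 86) (.v 1)) (.add (.mul (.mul (.c 1024) (.r 2 2 632 2)) (.w 1 1)) (.mul (.mul (.c 86) (.v 1)) (.r 2 3 632 2))))))) (.mul (.c 144) (.c 1))) (.add (.mul (.mul (.r 2 481 632 2) (.mul (.mul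 (.c 86) (.v 1)) (.add (.mul (.mul (.c 1048576) (.r 2 1 632 2)) (.w 1 2)) (.mul (.mul (.c 86) (.v 1)) (.add (.mul (.mul (.c 1024) (.r 2 2 632 2)) (.w 1 1)) (.mul (.mul (.c 86) (.v 1)) (.r 2 3 632 2))))))) (.sub (.c 0) (.mul (.c 12) (.c 1)))) (.add (.mul (.mul (.r 2 482 632 2) (.mul (.mul (.c 86) (.v 1)) (.add (.mul (.mul (.c 1048576) (.r 2 1 632 2)) (.w 1 2)) (.mul (.mul (.c 86) (.v 1)) (.add (.mul (.mul (.c 1024) (.r 2 2 632 2)) (.w 1 1)) (.mul (.mul (.c 86) (.v 1)) (.r 2 3 632 2))))))) (.sub (.c 0) (.mul (.c 12) (.c 1)))) (.mul (.mul (.r 2 483 632 2) (.mul (.mul (.c 86) (.v 1)) (.add (.mul (.mul (.c 1048576) (.r 2 1 632 2)) (.w 1 2)) (.mul (.mul (.c 86) (.v 1)) (.add (.mul (.mul (.c 1024) (.r 2 2 632 2)) (.w 1 1)) (.mul (.mul (.c 86) (.v 1)) (.r 2 3 632 2))))))) (.mul (.c 144) (.c 1))))))))) (.w 0 2)) (.w 2 1))), 132, 3, 4, 4, 1⟩,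
  ⟨(.sub (.sub (.mul (.mul (.mul (.c 0) (.w 0 3)) (.w 1 5)) (.w 2 3)) (.mul (.mul (.mul (.c 86) (.v 1)) (.add (.mul (.mul (.c 1048576) (.r 2 1 632 2)) (.w 1 2)) (.mul (.mul (.c 86) (.v 1)) (.add (.mul (.mul (.c 1024) (.r 2 2 632 2)) (.w 1 1)) (.mul (.mul (.c 86) (.v 1)) (.r 2 3 632 2)))))) (.mul (.add (.mul (.q 2) (.r 0 4 1 3)) (.mul (.v 2) (.r 0 636 1 3))) (.mul (.c 1) (.add (.mul (.mul (.add (.mul (.mul (.c 1024) (.s 2 30 632 2)) (.w 0 1)) (.mul (.mul (.c 171) (.v 0)) (.s 2 33 632 2))) (.mul (.c 86) (.v 1))) (.w 1 1)) (.mul (.mul (.s 2 32 632 2) (.mul (.mul (.c 86) (.v 1)) (.mul (.c 86) (.v 1)))) (.w 0 1))))))) (.mul (.mul (.mul (.c 33554432) (.add (.mul (.mul (.c 1024) (.mul (.mul (.r 2 479 632 2) (.mul (.mul (.c 86) (.v 1)) (.add (.mul (.mul (.c 1048576) (.r 2 1 632 2)) (.w 1 2)) (.mul (.mul (.c 86) (.v 1)) (.add (.mul (.mul (.c 1024) (.r 2 2 632 2)) (.w 1 1)) (.mul (.mul (.c 86)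 (.v 1)) (.r 2 3 632 2))))))) (.sub (.mul (.c 0) (.w 1 1)) (.mul (.c 12) (.mul (.c 86) (.v 1)))))) (.w 1 1)) (.add (.mul (.mul (.r 2 481 632 2) (.mul (.mul (.c 86) (.v 1)) (.add (.mul (.mul (.c 1048576) (.r 2 1 632 2)) (.w 1 2)) (.mul (.mul (.c 86) (.v 1)) (.add (.mul (.mul (.c 1024) (.r 2 2 632 2)) (.w 1 1)) (.mul (.mul (.c 86) (.v 1)) (.r 2 3 632 2))))))) (.sub (.mul (.mul (.c 1024) (.mul (.c 86) (.v 1))) (.w 1 1)) (.mul (.c 12) (.mul (.mul (.c 86) (.v 1)) (.mul (.c 86) (.v 1)))))) (.add (.mul (.mul (.r 2 482 632 2) (.mul (.mul (.c 86) (.v 1)) (.add (.mul (.mul (.c 1048576) (.r 2 1 632 2)) (.w 1 2)) (.mul (.mul (.c 86) (.v 1)) (.add (.mul (.mul (.c 1024) (.r 2 2 632 2)) (.w 1 1)) (.mul (.mul (.c 86) (.v 1)) (.r 2 3 632 2))))))) (.sub (.mul (.c 0) (.w 1 2)) (.mul (.c 12) (.mul (.mul (.c 86) (.v 1)) (.mul (.c 86) (.v 1)))))) (.add (.mul (.mul (.r 2 483 632 2) (.mul (.mul (.c 86) (.v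 1)) (.add (.mul (.mul (.c 1048576) (.r 2 1 632 2)) (.w 1 2)) (.mul (.mul (.c 86) (.v 1)) (.add (.mul (.mul (.c 1024) (.r 2 2 632 2)) (.w 1 1)) (.mul (.mul (.c 86) (.v 1)) (.r 2 3 632 2))))))) (.sub (.mul (.c 144) (.mul (.mul (.c 86) (.v 1)) (.mul (.c 86) (.v 1)))) (.mul (.mul (.c 1024) (.mul (.c 12) (.mul (.c 86) (.v 1)))) (.w 1 1)))) (.mul (.mul (.c 1048576) (.mul (.mul (.r 2 484 632 2) (.mul (.mul (.c 86) (.v 1)) (.add (.mul (.mul (.c 1048576) (.r 2 1 632 2)) (.w 1 2)) (.mul (.mul (.c 86) (.v 1)) (.add (.mul (.mul (.c 1024) (.r 2 2 632 2)) (.w 1 1)) (.mul (.mul (.c 86) (.v 1)) (.r 2 3 632 2))))))) (.sub (.c 0) (.mul (.c 12) (.c 1))))) (.w 1 2))))))) (.w 0 3)) (.w 2 1))), 150, 4, 6, 4, 1⟩,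
  ⟨(.sub (.mul (.mul (.mul (.mul (.c 16777216) (.mul (.mul (.c 86) (.v 1)) (.add (.mul (.c 1024) (.add (.mul (.add (.mul (.mul (.c 1024) (.s 2 327 632 2)) (.w 0 1)) (.mul (.s 2 328 632 2) (.mul (.c 171) (.v 0)))) (.w 1 1)) (.mul (.mul (.s 2 329 632 2) (.mul (.c 86) (.v 1))) (.w 0 1)))) (.mul (.s 2 330 632 2) (.mul (.mul (.c 86) (.v 1)) (.mul (.c 171) (.v 0))))))) (.w 0 1)) (.w 1 1)) (.w 2 1)) (.mul (.mul (.mul (.c 86) (.v 1)) (.add (.mul (.mul (.c 1048576) (.r 2 1 632 2)) (.w 1 2)) (.mul (.mul (.c 86) (.v 1)) (.add (.mul (.mul (.c 1024) (.r 2 2 632 2)) (.w 1 1)) (.mul (.mul (.c 86) (.v 1)) (.r 2 3 632 2)))))) (.mul (.add (.mul (.q 2) (.r 0 4 1 3)) (.mul (.v 2) (.r 0 636 1 3))) (.u 0 [1])))), 97, 3, 4, 3, 1⟩,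
  ⟨(.sub (.mul (.mul (.mul (.c 17179869184) (.mul (.mul (.c 86) (.v 1)) (.add (.mul (.c 1024) (.add (.mul (.add (.mul (.mul (.c 1024) (.s 2 335 632 2)) (.w 0 1)) (.mul (.s 2 336 632 2) (.mul (.c 171) (.v 0)))) (.w 1 1)) (.mul (.mul (.s 2 337 632 2) (.mul (.c 86) (.v 1))) (.w 0 1)))) (.mul (.s 2 338 632 2) (.mul (.mul (.c 86) (.v 1)) (.mul (.c 171) (.v 0))))))) (.w 1 1)) (.w 2 1)) (.mul (.mul (.mul (.c 86) (.v 1)) (.add (.mul (.mul (.c 1048576) (.r 2 56 632 2)) (.w 1 2)) (.mul (.mul (.c 86) (.v 1)) (.add (.mul (.mul (.c 1024) (.r 2 57 632 2)) (.w 1 1)) (.mul (.mul (.c 86) (.v 1)) (.r 2 58 632 2)))))) (.add (.mul (.r 2 289 632 2) (.mul (.c 1) (.add (.mul (.c 853) (.w 0 1)) (.mul (.c 171) (.q 0))))) (.mul (.mul (.c 1024) (.mul (.r 2 290 632 2) (.u 0 [1]))) (.w 0 1))))), 107, 2, 4, 3, 1⟩,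
  ⟨(.sub (.sub (.mul (.mul (.mul (.mul (.c 17592186044416) (.mul (.mul (.c 86) (.v 1)) (.add (.mul (.c 1024) (.add (.mul (.add (.mul (.mul (.c 1024) (.s 2 343 632 2)) (.w 0 1)) (.mul (.s 2 344 632 2) (.mul (.c 171) (.v 0)))) (.w 1 1)) (.mul (.mul (.s 2 345 632 2) (.mul (.c 86) (.v 1))) (.w 0 1)))) (.mul (.s 2 346 632 2) (.mul (.mul (.c 86) (.v 1)) (.mul (.c 171) (.v 0))))))) (.w 0 1)) (.w 1 2)) (.w 2 1)) (.add (.mul (.mul (.mul (.c 86) (.v 1)) (.add (.mul (.mul (.c 1048576) (.r 2 59 632 2)) (.w 1 2)) (.mul (.mul (.c 86) (.v 1)) (.add (.mul (.mul (.c 1024) (.r 2 60 632 2)) (.w 1 1)) (.mul (.mul (.c 86) (.v 1)) (.r 2 61 632 2)))))) (.add (.mul (.mul (.c 1024) (.mul (.s 2 277 632 2) (.add (.mul (.mul (.c 767) (.w 0 1)) (.w 1 1)) (.add (.mul (.mul (.c 171) (.q 0)) (.w 1 1)) (.mul (.mul (.c 86) (.q 1)) (.w 0 1)))))) (.w 0 1)) (.mul (.s 2 278 632 2) (.mul (.mul (.c 171) (.v 0)) (.add (.mul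 (.mul (.c 767) (.w 0 1)) (.w 1 1)) (.add (.mul (.mul (.c 171) (.q 0)) (.w 1 1)) (.mul (.mul (.c 86) (.q 1)) (.w 0 1)))))))) (.mul (.mul (.mul (.c 1024) (.mul (.mul (.mul (.c 86) (.v 1)) (.add (.mul (.mul (.c 1048576) (.r 2 56 632 2)) (.w 1 2)) (.mul (.mul (.c 86) (.v 1)) (.add (.mul (.mul (.c 1024) (.r 2 57 632 2)) (.w 1 1)) (.mul (.mul (.c 86) (.v 1)) (.r 2 58 632 2)))))) (.add (.mul (.r 2 297 632 2) (.mul (.c 1) (.add (.mul (.c 853) (.w 0 1)) (.mul (.c 171) (.q 0))))) (.mul (.mul (.c 1024) (.mul (.r 2 298 632 2) (.u 0 [1]))) (.w 0 1))))) (.w 0 1)) (.w 1 1)))) (.mul (.mul (.mul (.mul (.c 18014398509481984) (.add (.mul (.mul (.r 2 490 632 2) (.mul (.c 86) (.v 1))) (.mul (.c 2) (.add (.mul (.mul (.c 767) (.w 0 1)) (.w 1 1)) (.add (.mul (.mul (.c 171) (.q 0)) (.w 1 1)) (.mul (.mul (.c 86) (.q 1)) (.w 0 1)))))) (.add (.mul (.mul (.r 2 491 632 2) (.mul (.c 86) (.v 1))) (.add (.mul (.mul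 (.c 767) (.w 0 1)) (.w 1 1)) (.add (.mul (.mul (.c 171) (.q 0)) (.w 1 1)) (.mul (.mul (.c 86) (.q 1)) (.w 0 1))))) (.mul (.mul (.r 2 494 632 2) (.mul (.c 86) (.v 1))) (.mul (.c 2) (.add (.mul (.mul (.c 767) (.w 0 1)) (.w 1 1)) (.add (.mul (.mul (.c 171) (.q 0)) (.w 1 1)) (.mul (.mul (.c 86) (.q 1)) (.w 0 1))))))))) (.w 0 1)) (.w 1 2)) (.w 2 1))), 120, 3, 5, 3, 1⟩,
  ⟨(.sub (.sub (.mul (.mul (.mul (.c 0) (.w 0 1)) (.w 1 3)) (.w 2 2)) (.mul (.mul (.mul (.c 86) (.v 1)) (.add (.mul (.mul (.c 1048576) (.r 2 59 632 2)) (.w 1 2)) (.mul (.mul (.c 86) (.v 1)) (.add (.mul (.mul (.c 1024) (.r 2 60 632 2)) (.w 1 1)) (.mul (.mul (.c 86) (.v 1)) (.r 2 61 632 2)))))) (.mul (.add (.mul (.mul (.c 1024) (.s 2 279 632 2)) (.w 0 1)) (.mul (.mul (.c 171) (.v 0)) (.s 2 282 632 2))) (.c 1)))) (.mul (.mul (.mul (.mul (.c 18014398509481984) (.add (.mul (.mul (.r 2 490 632 2) (.mul (.c 86) (.v 1))) (.sub (.c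 0) (.mul (.c 12) (.c 1)))) (.add (.mul (.mul (.r 2 492 632 2) (.mul (.c 86) (.v 1))) (.c 1)) (.mul (.mul (.r 2 494 632 2) (.mul (.c 86) (.v 1))) (.sub (.c 0) (.mul (.c 12) (.c 1))))))) (.w 0 1)) (.w 1 2)) (.w 2 1))), 106, 2, 4, 3, 1⟩,
  ⟨(.sub (.sub (.mul (.mul (.c 0) (.w 1 3)) (.w 2 2)) (.mul (.mul (.mul (.c 86) (.v 1)) (.add (.mul (.mul (.c 1048576) (.r 2 59 632 2)) (.w 1 2)) (.mul (.mul (.c 86) (.v 1)) (.add (.mul (.mul (.c 1024) (.r 2 60 632 2)) (.w 1 1)) (.mul (.mul (.c 86) (.v 1)) (.r 2 61 632 2)))))) (.mul (.s 2 280 632 2) (.c 1)))) (.mul (.mul (.mul (.c 17592186044416) (.add (.mul (.mul (.r 2 491 632 2) (.mul (.c 86) (.v 1))) (.sub (.c 0) (.mul (.c 12) (.c 1)))) (.add (.mul (.mul (.r 2 493 632 2) (.mul (.c 86) (.v 1))) (.mul (.c 2) (.c 1))) (.mul (.mul (.r 2 494 632 2) (.mul (.c 86) (.v 1))) (.sub (.c 0) (.mul (.c 24) (.c 1))))))) (.w 1 2)) (.w 2 1))), 95, 1, 4, 3, 1⟩,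
  ⟨(.sub (.sub (.mul (.mul (.c 0) (.w 1 3)) (.w 2 2)) (.mul (.mul (.mul (.c 86) (.v 1)) (.add (.mul (.mul (.c 1048576) (.r 2 59 632 2)) (.w 1 2)) (.mul (.mul (.c 86) (.v 1)) (.add (.mul (.mul (.c 1024) (.r 2 60 632 2)) (.w 1 1)) (.mul (.mul (.c 86) (.v 1)) (.r 2 61 632 2)))))) (.mul (.s 2 281 632 2) (.c 1)))) (.mul (.mul (.mul (.c 17592186044416) (.add (.mul (.mul (.r 2 492 632 2) (.mul (.c 86) (.v 1))) (.sub (.c 0) (.mul (.c 12) (.c 1)))) (.add (.mul (.mul (.r 2 493 632 2) (.mul (.c 86) (.v 1))) (.sub (.c 0) (.mul (.c 12) (.c 1)))) (.mul (.mul (.r 2 494 632 2) (.mul (.c 86) (.v 1))) (.mul (.c 144) (.c 1)))))) (.w 1 2)) (.w 2 1))), 96, 1, 4, 3, 1⟩,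
  ⟨(.sub (.sub (.mul (.mul (.mul (.c 16384) (.add (.mul (.mul (.c 1024) (.mul (.s 2 277 632 2) (.add (.mul (.mul (.c 767) (.w 0 1)) (.w 1 1)) (.add (.mul (.mul (.c 171) (.q 0)) (.w 1 1)) (.mul (.mul (.c 86) (.q 1)) (.w 0 1)))))) (.w 0 1)) (.mul (.s 2 278 632 2) (.mul (.mul (.c 171) (.v 0)) (.add (.mul (.mul (.c 767) (.w 0 1)) (.w 1 1)) (.add (.mul (.mul (.c 171) (.q 0)) (.w 1 1)) (.mul (.mul (.c 86) (.q 1)) (.w 0 1)))))))) (.w 0 1)) (.w 2 1)) (.mul (.add (.mul (.q 2) (.r 0 4 1 3)) (.mul (.v 2) (.r 0 636 1 3))) (.mul (.s 2 327 632 2) (.add (.mul (.mul (.c 767) (.w 0 1)) (.w 1 1)) (.add (.mul (.mul (.c 171) (.q 0)) (.w 1 1)) (.mul (.mul (.c 86) (.q 1)) (.w 0 1))))))) (.mul (.mul (.mul (.c 16777216) (.add (.mul (.r 2 500 632 2) (.mul (.c 2) (.add (.mul (.mul (.c 767) (.w 0 1)) (.w 1 1)) (.add (.mul (.mul (.c 171) (.q 0)) (.w 1 1)) (.mul (.mul (.c 86) (.q 1)) (.w 0 1)))))) (.add (.mul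 (.r 2 501 632 2) (.add (.mul (.mul (.c 767) (.w 0 1)) (.w 1 1)) (.add (.mul (.mul (.c 171) (.q 0)) (.w 1 1)) (.mul (.mul (.c 86) (.q 1)) (.w 0 1))))) (.mul (.r 2 504 632 2) (.mul (.c 2) (.add (.mul (.mul (.c 767) (.w 0 1)) (.w 1 1)) (.add (.mul (.mul (.c 171) (.q 0)) (.w 1 1)) (.mul (.mul (.c 86) (.q 1)) (.w 0 1))))))))) (.w 0 2)) (.w 2 1))), 80, 4, 2, 3, 1⟩,
  ⟨(.sub (.sub (.mul (.mul (.mul (.c 16384) (.mul (.add (.mul (.mul (.c 1024) (.s 2 279 632 2)) (.w 0 1)) (.mul (.mul (.c 171) (.v 0)) (.s 2 282 632 2))) (.c 1))) (.w 0 1)) (.w 2 1)) (.mul (.add (.mul (.q 2) (.r 0 4 1 3)) (.mul (.v 2) (.r 0 636 1 3))) (.mul (.s 2 328 632 2) (.c 1)))) (.mul (.mul (.mul (.c 16777216) (.add (.mul (.r 2 500 632 2) (.sub (.c 0) (.mul (.c 12) (.c 1)))) (.add (.mul (.r 2 502 632 2) (.c 1)) (.mul (.r 2 504 632 2) (.sub (.c 0) (.mul (.c 12) (.c 1))))))) (.w 0 2)) (.w 2 1))), 68, 3, 1, 3, 1⟩,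
  ⟨(.sub (.sub (.mul (.mul (.mul (.c 16777216) (.mul (.s 2 280 632 2) (.c 1))) (.w 0 2)) (.w 2 1)) (.mul (.add (.mul (.q 2) (.r 0 4 1 3)) (.mul (.v 2) (.r 0 636 1 3))) (.mul (.s 2 329 632 2) (.c 1)))) (.mul (.mul (.mul (.c 16777216) (.add (.mul (.r 2 501 632 2) (.sub (.c 0) (.mul (.c 12) (.c 1)))) (.add (.mul (.r 2 503 632 2) (.mul (.c 2) (.c 1))) (.mul (.r 2 504 632 2) (.sub (.c 0) (.mul (.c 24) (.c 1))))))) (.w 0 2)) (.w 2 1))), 68, 3, 1, 3, 1⟩,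
  ⟨(.sub (.sub (.mul (.mul (.mul (.c 16777216) (.mul (.s 2 281 632 2) (.c 1))) (.w 0 2)) (.w 2 1)) (.mul (.add (.mul (.q 2) (.r 0 4 1 3)) (.mul (.v 2) (.r 0 636 1 3))) (.mul (.s 2 330 632 2) (.c 1)))) (.mul (.mul (.mul (.c 16777216) (.add (.mul (.r 2 502 632 2) (.sub (.c 0) (.mul (.c 12) (.c 1)))) (.add (.mul (.r 2 503 632 2) (.sub (.c 0) (.mul (.c 12) (.c 1)))) (.mul (.r 2 504 632 2) (.mul (.c 144) (.c 1)))))) (.w 0 2)) (.w 2 1))), 69, 3, 1, 3, 1⟩,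
  ⟨(.sub (.sub (.mul (.mul (.c 281474976710656) (.add (.mul (.mul (.c 1024) (.mul (.s 2 365 632 2) (.add (.mul (.mul (.c 767) (.w 0 1)) (.w 1 1)) (.add (.mul (.mul (.c 171) (.q 0)) (.w 1 1)) (.mul (.mul (.c 86) (.q 1)) (.w 0 1)))))) (.w 0 1)) (.mul (.s 2 368 632 2) (.mul (.mul (.c 171) (.v 0)) (.add (.mul (.mul (.c 767) (.w 0 1)) (.w 1 1)) (.add (.mul (.mul (.c 171) (.q 0)) (.w 1 1)) (.mul (.mul (.c 86) (.q 1)) (.w 0 1)))))))) (.w 2 2)) (.add (.mul (.mul (.mul (.c 288230376151711744) (.mul (.s 2 335 632 2) (.add (.mul (.mul (.c 767) (.w 0 1)) (.w 1 1)) (.add (.mul (.mul (.c 171) (.q 0)) (.w 1 1)) (.mul (.mul (.c 86) (.q 1)) (.w 0 1)))))) (.w 0 1)) (.w 2 2)) (.add (.add (.mul (.mul (.c 16777216) (.mul (.r 2 285 632 2) (.add (.add (.mul (.mul (.c 1024) (.mul (.s 2 73 632 2) (.add (.mul (.mul (.c 767) (.w 0 1)) (.w 1 1)) (.add (.mul (.mul (.c 171) (.q 0)) (.w 1 1)) (.mul (.mul (.c 86)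 (.q 1)) (.w 0 1)))))) (.w 0 1)) (.mul (.s 2 74 632 2) (.mul (.mul (.c 171) (.v 0)) (.add (.mul (.mul (.c 767) (.w 0 1)) (.w 1 1)) (.add (.mul (.mul (.c 171) (.q 0)) (.w 1 1)) (.mul (.mul (.c 86) (.q 1)) (.w 0 1))))))) (.add (.mul (.mul (.c 1024) (.mul (.s 2 385 632 2) (.add (.mul (.mul (.c 767) (.w 0 1)) (.w 1 1)) (.add (.mul (.mul (.c 171) (.q 0)) (.w 1 1)) (.mul (.mul (.c 86) (.q 1)) (.w 0 1)))))) (.w 0 1)) (.mul (.s 2 388 632 2) (.mul (.mul (.c 171) (.v 0)) (.add (.mul (.mul (.c 767) (.w 0 1)) (.w 1 1)) (.add (.mul (.mul (.c 171) (.q 0)) (.w 1 1)) (.mul (.mul (.c 86) (.q 1)) (.w 0 1)))))))))) (.w 2 1)) (.mul (.r 2 289 632 2) (.add (.mul (.r 2 62 632 2) (.add (.mul (.mul (.c 1024) (.mul (.s 2 85 632 2) (.add (.mul (.mul (.c 767) (.w 0 1)) (.w 1 1)) (.add (.mul (.mul (.c 171) (.q 0)) (.w 1 1)) (.mul (.mul (.c 86) (.q 1)) (.w 0 1)))))) (.w 0 1)) (.mul (.s 2 86 632 2) (.mul (.mul (.c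 171) (.v 0)) (.add (.mul (.mul (.c 767) (.w 0 1)) (.w 1 1)) (.add (.mul (.mul (.c 171) (.q 0)) (.w 1 1)) (.mul (.mul (.c 86) (.q 1)) (.w 0 1)))))))) (.mul (.r 2 65 632 2) (.add (.mul (.mul (.c 1024) (.mul (.s 2 349 632 2) (.add (.mul (.mul (.c 767) (.w 0 1)) (.w 1 1)) (.add (.mul (.mul (.c 171) (.q 0)) (.w 1 1)) (.mul (.mul (.c 86) (.q 1)) (.w 0 1)))))) (.w 0 1)) (.mul (.s 2 352 632 2) (.mul (.mul (.c 171) (.v 0)) (.add (.mul (.mul (.c 767) (.w 0 1)) (.w 1 1)) (.add (.mul (.mul (.c 171) (.q 0)) (.w 1 1)) (.mul (.mul (.c 86) (.q 1)) (.w 0 1))))))))))) (.add (.mul (.mul (.c 16777216) (.mul (.r 2 286 632 2) (.add (.add (.mul (.mul (.c 1024) (.mul (.s 2 79 632 2) (.add (.mul (.mul (.c 767) (.w 0 1)) (.w 1 1)) (.add (.mul (.mul (.c 171) (.q 0)) (.w 1 1)) (.mul (.mul (.c 86) (.q 1)) (.w 0 1)))))) (.w 0 1)) (.mul (.s 2 80 632 2) (.mul (.mul (.c 171) (.v 0)) (.add (.mul (.mul (.c 767) (.w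 0 1)) (.w 1 1)) (.add (.mul (.mul (.c 171) (.q 0)) (.w 1 1)) (.mul (.mul (.c 86) (.q 1)) (.w 0 1))))))) (.add (.mul (.mul (.c 1024) (.mul (.s 2 403 632 2) (.add (.mul (.mul (.c 767) (.w 0 1)) (.w 1 1)) (.add (.mul (.mul (.c 171) (.q 0)) (.w 1 1)) (.mul (.mul (.c 86) (.q 1)) (.w 0 1)))))) (.w 0 1)) (.mul (.s 2 406 632 2) (.mul (.mul (.c 171) (.v 0)) (.add (.mul (.mul (.c 767) (.w 0 1)) (.w 1 1)) (.add (.mul (.mul (.c 171) (.q 0)) (.w 1 1)) (.mul (.mul (.c 86) (.q 1)) (.w 0 1)))))))))) (.w 2 1)) (.mul (.r 2 290 632 2) (.add (.mul (.r 2 62 632 2) (.add (.mul (.mul (.c 1024) (.mul (.s 2 91 632 2) (.add (.mul (.mul (.c 767) (.w 0 1)) (.w 1 1)) (.add (.mul (.mul (.c 171) (.q 0)) (.w 1 1)) (.mul (.mul (.c 86) (.q 1)) (.w 0 1)))))) (.w 0 1)) (.mul (.s 2 92 632 2) (.mul (.mul (.c 171) (.v 0)) (.add (.mul (.mul (.c 767) (.w 0 1)) (.w 1 1)) (.add (.mul (.mul (.c 171) (.q 0)) (.w 1 1)) (.mul (.mul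 (.c 86) (.q 1)) (.w 0 1)))))))) (.mul (.r 2 65 632 2) (.add (.mul (.mul (.c 1024) (.mul (.s 2 367 632 2) (.add (.mul (.mul (.c 767) (.w 0 1)) (.w 1 1)) (.add (.mul (.mul (.c 171) (.q 0)) (.w 1 1)) (.mul (.mul (.c 86) (.q 1)) (.w 0 1)))))) (.w 0 1)) (.mul (.s 2 370 632 2) (.mul (.mul (.c 171) (.v 0)) (.add (.mul (.mul (.c 767) (.w 0 1)) (.w 1 1)) (.add (.mul (.mul (.c 171) (.q 0)) (.w 1 1)) (.mul (.mul (.c 86) (.q 1)) (.w 0 1)))))))))))))) (.mul (.mul (.mul (.c 288230376151711744) (.add (.mul (.r 2 510 632 2) (.mul (.c 2) (.add (.mul (.mul (.c 767) (.w 0 1)) (.w 1 1)) (.add (.mul (.mul (.c 171) (.q 0)) (.w 1 1)) (.mul (.mul (.c 86) (.q 1)) (.w 0 1)))))) (.add (.mul (.r 2 511 632 2) (.add (.mul (.mul (.c 767) (.w 0 1)) (.w 1 1)) (.add (.mul (.mul (.c 171) (.q 0)) (.w 1 1)) (.mul (.mul (.c 86) (.q 1)) (.w 0 1))))) (.mul (.r 2 514 632 2) (.mul (.c 2) (.add (.mul (.mul (.c 767) (.w 0 1))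 (.w 1 1)) (.add (.mul (.mul (.c 171) (.q 0)) (.w 1 1)) (.mul (.mul (.c 86) (.q 1)) (.w 0 1))))))))) (.w 0 1)) (.w 2 2))), 124, 3, 2, 4, 1⟩,
  ⟨(.sub (.sub (.mul (.mul (.c 281474976710656) (.mul (.add (.mul (.mul (.c 1024) (.s 2 371 632 2)) (.w 0 1)) (.mul (.mul (.c 171) (.v 0)) (.s 2 380 632 2))) (.c 1))) (.w 2 2)) (.add (.mul (.mul (.mul (.c 288230376151711744) (.mul (.s 2 336 632 2) (.c 1))) (.w 0 1)) (.w 2 2)) (.add (.add (.mul (.mul (.c 16777216) (.mul (.r 2 285 632 2) (.add (.mul (.add (.mul (.mul (.c 1024) (.s 2 75 632 2)) (.w 0 1)) (.mul (.mul (.c 171) (.v 0)) (.s 2 78 632 2))) (.c 1)) (.mul (.add (.mul (.mul (.c 1024) (.s 2 391 632 2)) (.w 0 1)) (.mul (.mul (.c 171) (.v 0)) (.s 2 400 632 2))) (.c 1))))) (.w 2 1)) (.mul (.r 2 289 632 2) (.add (.mul (.r 2 62 632 2) (.mul (.add (.mul (.mul (.c 1024) (.s 2 87 632 2)) (.w 0 1)) (.mul (.mul (.c 171) (.v 0)) (.s 2 90 632 2))) (.c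 1))) (.mul (.r 2 65 632 2) (.mul (.add (.mul (.mul (.c 1024) (.s 2 355 632 2)) (.w 0 1)) (.mul (.mul (.c 171) (.v 0)) (.s 2 364 632 2))) (.c 1)))))) (.add (.mul (.mul (.c 16777216) (.mul (.r 2 286 632 2) (.add (.mul (.add (.mul (.mul (.c 1024) (.s 2 81 632 2)) (.w 0 1)) (.mul (.mul (.c 171) (.v 0)) (.s 2 84 632 2))) (.c 1)) (.mul (.add (.mul (.mul (.c 1024) (.s 2 409 632 2)) (.w 0 1)) (.mul (.mul (.c 171) (.v 0)) (.s 2 418 632 2))) (.c 1))))) (.w 2 1)) (.mul (.r 2 290 632 2) (.add (.mul (.r 2 62 632 2) (.mul (.add (.mul (.mul (.c 1024) (.s 2 93 632 2)) (.w 0 1)) (.mul (.mul (.c 171) (.v 0)) (.s 2 96 632 2))) (.c 1))) (.mul (.r 2 65 632 2) (.mul (.add (.mul (.mul (.c 1024) (.s 2 373 632 2)) (.w 0 1)) (.mul (.mul (.c 171) (.v 0)) (.s 2 382 632 2))) (.c 1))))))))) (.mul (.mul (.mul (.c 288230376151711744) (.add (.mul (.r 2 510 632 2) (.sub (.c 0) (.mul (.c 12) (.c 1)))) (.add (.mul (.r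 2 512 632 2) (.c 1)) (.mul (.r 2 514 632 2) (.sub (.c 0) (.mul (.c 12) (.c 1))))))) (.w 0 1)) (.w 2 2))), 113, 2, 1, 4, 1⟩,
  ⟨(.sub (.sub (.mul (.mul (.c 281474976710656) (.mul (.s 2 374 632 2) (.c 1))) (.w 2 2)) (.add (.mul (.mul (.c 281474976710656) (.mul (.s 2 337 632 2) (.c 1))) (.w 2 2)) (.add (.add (.mul (.mul (.c 16777216) (.mul (.r 2 285 632 2) (.add (.mul (.s 2 76 632 2) (.c 1)) (.mul (.s 2 394 632 2) (.c 1))))) (.w 2 1)) (.mul (.r 2 289 632 2) (.add (.mul (.r 2 62 632 2) (.mul (.s 2 88 632 2) (.c 1))) (.mul (.r 2 65 632 2) (.mul (.s 2 358 632 2) (.c 1)))))) (.add (.mul (.mul (.c 16777216) (.mul (.r 2 286 632 2) (.add (.mul (.s 2 82 632 2) (.c 1)) (.mul (.s 2 412 632 2) (.c 1))))) (.w 2 1)) (.mul (.r 2 290 632 2) (.add (.mul (.r 2 62 632 2) (.mul (.s 2 94 632 2) (.c 1))) (.mul (.r 2 65 632 2) (.mul (.s 2 376 632 2) (.c 1))))))))) (.mul (.mul (.c 281474976710656) (.add (.mul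 (.r 2 511 632 2) (.sub (.c 0) (.mul (.c 12) (.c 1)))) (.add (.mul (.r 2 513 632 2) (.mul (.c 2) (.c 1))) (.mul (.r 2 514 632 2) (.sub (.c 0) (.mul (.c 24) (.c 1))))))) (.w 2 2))), 102, 1, 1, 4, 1⟩,
  ⟨(.sub (.sub (.mul (.mul (.c 281474976710656) (.mul (.s 2 377 632 2) (.c 1))) (.w 2 2)) (.add (.mul (.mul (.c 281474976710656) (.mul (.s 2 338 632 2) (.c 1))) (.w 2 2)) (.add (.add (.mul (.mul (.c 16777216) (.mul (.r 2 285 632 2) (.add (.mul (.s 2 77 632 2) (.c 1)) (.mul (.s 2 397 632 2) (.c 1))))) (.w 2 1)) (.mul (.r 2 289 632 2) (.add (.mul (.r 2 62 632 2) (.mul (.s 2 89 632 2) (.c 1))) (.mul (.r 2 65 632 2) (.mul (.s 2 361 632 2) (.c 1)))))) (.add (.mul (.mul (.c 16777216) (.mul (.r 2 286 632 2) (.add (.mul (.s 2 83 632 2) (.c 1)) (.mul (.s 2 415 632 2) (.c 1))))) (.w 2 1)) (.mul (.r 2 290 632 2) (.add (.mul (.r 2 62 632 2) (.mul (.s 2 95 632 2) (.c 1))) (.mul (.r 2 65 632 2) (.mul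 (.s 2 379 632 2) (.c 1))))))))) (.mul (.mul (.c 281474976710656) (.add (.mul (.r 2 512 632 2) (.sub (.c 0) (.mul (.c 12) (.c 1)))) (.add (.mul (.r 2 513 632 2) (.sub (.c 0) (.mul (.c 12) (.c 1)))) (.mul (.r 2 514 632 2) (.mul (.c 144) (.c 1)))))) (.w 2 2))), 102, 1, 1, 4, 1⟩,
  ⟨(.sub (.sub (.mul (.mul (.c 281474976710656) (.add (.mul (.mul (.c 1024) (.mul (.s 2 401 632 2) (.add (.mul (.mul (.c 767) (.w 0 1)) (.w 1 1)) (.add (.mul (.mul (.c 171) (.q 0)) (.w 1 1)) (.mul (.mul (.c 86) (.q 1)) (.w 0 1)))))) (.w 0 1)) (.mul (.s 2 404 632 2) (.mul (.mul (.c 171) (.v 0)) (.add (.mul (.mul (.c 767) (.w 0 1)) (.w 1 1)) (.add (.mul (.mul (.c 171) (.q 0)) (.w 1 1)) (.mul (.mul (.c 86) (.q 1)) (.w 0 1)))))))) (.w 2 2)) (.add (.mul (.mul (.mul (.c 288230376151711744) (.mul (.s 2 343 632 2) (.add (.mul (.mul (.c 767) (.w 0 1)) (.w 1 1)) (.add (.mul (.mul (.c 171) (.q 0)) (.w 1 1)) (.mul (.mul (.c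 86) (.q 1)) (.w 0 1)))))) (.w 0 1)) (.w 2 2)) (.add (.add (.mul (.r 2 293 632 2) (.add (.mul (.r 2 63 632 2) (.add (.mul (.mul (.c 1024) (.mul (.s 2 85 632 2) (.add (.mul (.mul (.c 767) (.w 0 1)) (.w 1 1)) (.add (.mul (.mul (.c 171) (.q 0)) (.w 1 1)) (.mul (.mul (.c 86) (.q 1)) (.w 0 1)))))) (.w 0 1)) (.mul (.s 2 86 632 2) (.mul (.mul (.c 171) (.v 0)) (.add (.mul (.mul (.c 767) (.w 0 1)) (.w 1 1)) (.add (.mul (.mul (.c 171) (.q 0)) (.w 1 1)) (.mul (.mul (.c 86) (.q 1)) (.w 0 1)))))))) (.mul (.r 2 64 632 2) (.add (.mul (.mul (.c 1024) (.mul (.s 2 349 632 2) (.add (.mul (.mul (.c 767) (.w 0 1)) (.w 1 1)) (.add (.mul (.mul (.c 171) (.q 0)) (.w 1 1)) (.mul (.mul (.c 86) (.q 1)) (.w 0 1)))))) (.w 0 1)) (.mul (.s 2 352 632 2) (.mul (.mul (.c 171) (.v 0)) (.add (.mul (.mul (.c 767) (.w 0 1)) (.w 1 1)) (.add (.mul (.mul (.c 171) (.q 0)) (.w 1 1)) (.mul (.mul (.c 86) (.q 1)) (.w 0 1))))))))))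 (.add (.mul (.mul (.c 16777216) (.mul (.r 2 289 632 2) (.add (.add (.mul (.mul (.c 1024) (.mul (.s 2 73 632 2) (.add (.mul (.mul (.c 767) (.w 0 1)) (.w 1 1)) (.add (.mul (.mul (.c 171) (.q 0)) (.w 1 1)) (.mul (.mul (.c 86) (.q 1)) (.w 0 1)))))) (.w 0 1)) (.mul (.s 2 74 632 2) (.mul (.mul (.c 171) (.v 0)) (.add (.mul (.mul (.c 767) (.w 0 1)) (.w 1 1)) (.add (.mul (.mul (.c 171) (.q 0)) (.w 1 1)) (.mul (.mul (.c 86) (.q 1)) (.w 0 1))))))) (.add (.mul (.mul (.c 1024) (.mul (.s 2 385 632 2) (.add (.mul (.mul (.c 767) (.w 0 1)) (.w 1 1)) (.add (.mul (.mul (.c 171) (.q 0)) (.w 1 1)) (.mul (.mul (.c 86) (.q 1)) (.w 0 1)))))) (.w 0 1)) (.mul (.s 2 388 632 2) (.mul (.mul (.c 171) (.v 0)) (.add (.mul (.mul (.c 767) (.w 0 1)) (.w 1 1)) (.add (.mul (.mul (.c 171) (.q 0)) (.w 1 1)) (.mul (.mul (.c 86) (.q 1)) (.w 0 1)))))))))) (.w 2 1)) (.mul (.r 2 297 632 2) (.add (.mul (.r 2 62 632 2) (.add (.mul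 (.mul (.c 1024) (.mul (.s 2 85 632 2) (.add (.mul (.mul (.c 767) (.w 0 1)) (.w 1 1)) (.add (.mul (.mul (.c 171) (.q 0)) (.w 1 1)) (.mul (.mul (.c 86) (.q 1)) (.w 0 1)))))) (.w 0 1)) (.mul (.s 2 86 632 2) (.mul (.mul (.c 171) (.v 0)) (.add (.mul (.mul (.c 767) (.w 0 1)) (.w 1 1)) (.add (.mul (.mul (.c 171) (.q 0)) (.w 1 1)) (.mul (.mul (.c 86) (.q 1)) (.w 0 1)))))))) (.mul (.r 2 65 632 2) (.add (.mul (.mul (.c 1024) (.mul (.s 2 349 632 2) (.add (.mul (.mul (.c 767) (.w 0 1)) (.w 1 1)) (.add (.mul (.mul (.c 171) (.q 0)) (.w 1 1)) (.mul (.mul (.c 86) (.q 1)) (.w 0 1)))))) (.w 0 1)) (.mul (.s 2 352 632 2) (.mul (.mul (.c 171) (.v 0)) (.add (.mul (.mul (.c 767) (.w 0 1)) (.w 1 1)) (.add (.mul (.mul (.c 171) (.q 0)) (.w 1 1)) (.mul (.mul (.c 86) (.q 1)) (.w 0 1)))))))))))) (.add (.mul (.r 2 294 632 2) (.add (.mul (.r 2 63 632 2) (.add (.mul (.mul (.c 1024) (.mul (.s 2 91 632 2) (.add (.mul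 (.mul (.c 767) (.w 0 1)) (.w 1 1)) (.add (.mul (.mul (.c 171) (.q 0)) (.w 1 1)) (.mul (.mul (.c 86) (.q 1)) (.w 0 1)))))) (.w 0 1)) (.mul (.s 2 92 632 2) (.mul (.mul (.c 171) (.v 0)) (.add (.mul (.mul (.c 767) (.w 0 1)) (.w 1 1)) (.add (.mul (.mul (.c 171) (.q 0)) (.w 1 1)) (.mul (.mul (.c 86) (.q 1)) (.w 0 1)))))))) (.mul (.r 2 64 632 2) (.add (.mul (.mul (.c 1024) (.mul (.s 2 367 632 2) (.add (.mul (.mul (.c 767) (.w 0 1)) (.w 1 1)) (.add (.mul (.mul (.c 171) (.q 0)) (.w 1 1)) (.mul (.mul (.c 86) (.q 1)) (.w 0 1)))))) (.w 0 1)) (.mul (.s 2 370 632 2) (.mul (.mul (.c 171) (.v 0)) (.add (.mul (.mul (.c 767) (.w 0 1)) (.w 1 1)) (.add (.mul (.mul (.c 171) (.q 0)) (.w 1 1)) (.mul (.mul (.c 86) (.q 1)) (.w 0 1)))))))))) (.add (.mul (.mul (.c 16777216) (.mul (.r 2 290 632 2) (.add (.add (.mul (.mul (.c 1024) (.mul (.s 2 79 632 2) (.add (.mul (.mul (.c 767) (.w 0 1)) (.w 1 1)) (.add (.mul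 (.mul (.c 171) (.q 0)) (.w 1 1)) (.mul (.mul (.c 86) (.q 1)) (.w 0 1)))))) (.w 0 1)) (.mul (.s 2 80 632 2) (.mul (.mul (.c 171) (.v 0)) (.add (.mul (.mul (.c 767) (.w 0 1)) (.w 1 1)) (.add (.mul (.mul (.c 171) (.q 0)) (.w 1 1)) (.mul (.mul (.c 86) (.q 1)) (.w 0 1))))))) (.add (.mul (.mul (.c 1024) (.mul (.s 2 403 632 2) (.add (.mul (.mul (.c 767) (.w 0 1)) (.w 1 1)) (.add (.mul (.mul (.c 171) (.q 0)) (.w 1 1)) (.mul (.mul (.c 86) (.q 1)) (.w 0 1)))))) (.w 0 1)) (.mul (.s 2 406 632 2) (.mul (.mul (.c 171) (.v 0)) (.add (.mul (.mul (.c 767) (.w 0 1)) (.w 1 1)) (.add (.mul (.mul (.c 171) (.q 0)) (.w 1 1)) (.mul (.mul (.c 86) (.q 1)) (.w 0 1)))))))))) (.w 2 1)) (.mul (.r 2 298 632 2) (.add (.mul (.r 2 62 632 2) (.add (.mul (.mul (.c 1024) (.mul (.s 2 91 632 2) (.add (.mul (.mul (.c 767) (.w 0 1)) (.w 1 1)) (.add (.mul (.mul (.c 171) (.q 0)) (.w 1 1)) (.mul (.mul (.c 86) (.q 1)) (.w 0 1))))))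 (.w 0 1)) (.mul (.s 2 92 632 2) (.mul (.mul (.c 171) (.v 0)) (.add (.mul (.mul (.c 767) (.w 0 1)) (.w 1 1)) (.add (.mul (.mul (.c 171) (.q 0)) (.w 1 1)) (.mul (.mul (.c 86) (.q 1)) (.w 0 1)))))))) (.mul (.r 2 65 632 2) (.add (.mul (.mul (.c 1024) (.mul (.s 2 367 632 2) (.add (.mul (.mul (.c 767) (.w 0 1)) (.w 1 1)) (.add (.mul (.mul (.c 171) (.q 0)) (.w 1 1)) (.mul (.mul (.c 86) (.q 1)) (.w 0 1)))))) (.w 0 1)) (.mul (.s 2 370 632 2) (.mul (.mul (.c 171) (.v 0)) (.add (.mul (.mul (.c 767) (.w 0 1)) (.w 1 1)) (.add (.mul (.mul (.c 171) (.q 0)) (.w 1 1)) (.mul (.mul (.c 86) (.q 1)) (.w 0 1))))))))))))))) (.mul (.mul (.mul (.c 288230376151711744) (.add (.mul (.r 2 520 632 2) (.mul (.c 2) (.add (.mul (.mul (.c 767) (.w 0 1)) (.w 1 1)) (.add (.mul (.mul (.c 171) (.q 0)) (.w 1 1)) (.mul (.mul (.c 86) (.q 1)) (.w 0 1)))))) (.add (.mul (.r 2 521 632 2) (.add (.mul (.mul (.c 767) (.w 0 1)) (.w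 1 1)) (.add (.mul (.mul (.c 171) (.q 0)) (.w 1 1)) (.mul (.mul (.c 86) (.q 1)) (.w 0 1))))) (.mul (.r 2 524 632 2) (.mul (.c 2) (.add (.mul (.mul (.c 767) (.w 0 1)) (.w 1 1)) (.add (.mul (.mul (.c 171) (.q 0)) (.w 1 1)) (.mul (.mul (.c 86) (.q 1)) (.w 0 1))))))))) (.w 0 1)) (.w 2 2))), 125, 3, 2, 4, 1⟩,
  ⟨(.sub (.sub (.mul (.mul (.c 281474976710656) (.mul (.add (.mul (.mul (.c 1024) (.s 2 407 632 2)) (.w 0 1)) (.mul (.mul (.c 171) (.v 0)) (.s 2 416 632 2))) (.c 1))) (.w 2 2)) (.add (.mul (.mul (.mul (.c 288230376151711744) (.mul (.s 2 344 632 2) (.c 1))) (.w 0 1)) (.w 2 2)) (.add (.add (.mul (.r 2 293 632 2) (.add (.mul (.r 2 63 632 2) (.mul (.add (.mul (.mul (.c 1024) (.s 2 87 632 2)) (.w 0 1)) (.mul (.mul (.c 171) (.v 0)) (.s 2 90 632 2))) (.c 1))) (.mul (.r 2 64 632 2) (.mul (.add (.mul (.mul (.c 1024) (.s 2 355 632 2)) (.w 0 1)) (.mul (.mul (.c 171) (.v 0)) (.s 2 364 632 2)))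 (.c 1))))) (.add (.mul (.mul (.c 16777216) (.mul (.r 2 289 632 2) (.add (.mul (.add (.mul (.mul (.c 1024) (.s 2 75 632 2)) (.w 0 1)) (.mul (.mul (.c 171) (.v 0)) (.s 2 78 632 2))) (.c 1)) (.mul (.add (.mul (.mul (.c 1024) (.s 2 391 632 2)) (.w 0 1)) (.mul (.mul (.c 171) (.v 0)) (.s 2 400 632 2))) (.c 1))))) (.w 2 1)) (.mul (.r 2 297 632 2) (.add (.mul (.r 2 62 632 2) (.mul (.add (.mul (.mul (.c 1024) (.s 2 87 632 2)) (.w 0 1)) (.mul (.mul (.c 171) (.v 0)) (.s 2 90 632 2))) (.c 1))) (.mul (.r 2 65 632 2) (.mul (.add (.mul (.mul (.c 1024) (.s 2 355 632 2)) (.w 0 1)) (.mul (.mul (.c 171) (.v 0)) (.s 2 364 632 2))) (.c 1))))))) (.add (.mul (.r 2 294 632 2) (.add (.mul (.r 2 63 632 2) (.mul (.add (.mul (.mul (.c 1024) (.s 2 93 632 2)) (.w 0 1)) (.mul (.mul (.c 171) (.v 0)) (.s 2 96 632 2))) (.c 1))) (.mul (.r 2 64 632 2) (.mul (.add (.mul (.mul (.c 1024) (.s 2 373 632 2)) (.w 0 1)) (.mul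 (.mul (.c 171) (.v 0)) (.s 2 382 632 2))) (.c 1))))) (.add (.mul (.mul (.c 16777216) (.mul (.r 2 290 632 2) (.add (.mul (.add (.mul (.mul (.c 1024) (.s 2 81 632 2)) (.w 0 1)) (.mul (.mul (.c 171) (.v 0)) (.s 2 84 632 2))) (.c 1)) (.mul (.add (.mul (.mul (.c 1024) (.s 2 409 632 2)) (.w 0 1)) (.mul (.mul (.c 171) (.v 0)) (.s 2 418 632 2))) (.c 1))))) (.w 2 1)) (.mul (.r 2 298 632 2) (.add (.mul (.r 2 62 632 2) (.mul (.add (.mul (.mul (.c 1024) (.s 2 93 632 2)) (.w 0 1)) (.mul (.mul (.c 171) (.v 0)) (.s 2 96 632 2))) (.c 1))) (.mul (.r 2 65 632 2) (.mul (.add (.mul (.mul (.c 1024) (.s 2 373 632 2)) (.w 0 1)) (.mul (.mul (.c 171) (.v 0)) (.s 2 382 632 2))) (.c 1)))))))))) (.mul (.mul (.mul (.c 288230376151711744) (.add (.mul (.r 2 520 632 2) (.sub (.c 0) (.mul (.c 12) (.c 1)))) (.add (.mul (.r 2 522 632 2) (.c 1)) (.mul (.r 2 524 632 2) (.sub (.c 0) (.mul (.c 12) (.c 1))))))) (.w 0 1))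 (.w 2 2))), 114, 2, 1, 4, 1⟩,
  ⟨(.sub (.sub (.mul (.mul (.c 281474976710656) (.mul (.s 2 410 632 2) (.c 1))) (.w 2 2)) (.add (.mul (.mul (.c 281474976710656) (.mul (.s 2 345 632 2) (.c 1))) (.w 2 2)) (.add (.add (.mul (.r 2 293 632 2) (.add (.mul (.r 2 63 632 2) (.mul (.s 2 88 632 2) (.c 1))) (.mul (.r 2 64 632 2) (.mul (.s 2 358 632 2) (.c 1))))) (.add (.mul (.mul (.c 16777216) (.mul (.r 2 289 632 2) (.add (.mul (.s 2 76 632 2) (.c 1)) (.mul (.s 2 394 632 2) (.c 1))))) (.w 2 1)) (.mul (.r 2 297 632 2) (.add (.mul (.r 2 62 632 2) (.mul (.s 2 88 632 2) (.c 1))) (.mul (.r 2 65 632 2) (.mul (.s 2 358 632 2) (.c 1))))))) (.add (.mul (.r 2 294 632 2) (.add (.mul (.r 2 63 632 2) (.mul (.s 2 94 632 2) (.c 1))) (.mul (.r 2 64 632 2) (.mul (.s 2 376 632 2) (.c 1))))) (.add (.mul (.mul (.c 16777216) (.mul (.r 2 290 632 2) (.add (.mul (.s 2 82 632 2) (.c 1)) (.mul (.s 2 412 632 2) (.c 1)))))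 (.w 2 1)) (.mul (.r 2 298 632 2) (.add (.mul (.r 2 62 632 2) (.mul (.s 2 94 632 2) (.c 1))) (.mul (.r 2 65 632 2) (.mul (.s 2 376 632 2) (.c 1)))))))))) (.mul (.mul (.c 281474976710656) (.add (.mul (.r 2 521 632 2) (.sub (.c 0) (.mul (.c 12) (.c 1)))) (.add (.mul (.r 2 523 632 2) (.mul (.c 2) (.c 1))) (.mul (.r 2 524 632 2) (.sub (.c 0) (.mul (.c 24) (.c 1))))))) (.w 2 2))), 103, 1, 1, 4, 1⟩,
  ⟨(.sub (.sub (.mul (.mul (.c 281474976710656) (.mul (.s 2 413 632 2) (.c 1))) (.w 2 2)) (.add (.mul (.mul (.c 281474976710656) (.mul (.s 2 346 632 2) (.c 1))) (.w 2 2)) (.add (.add (.mul (.r 2 293 632 2) (.add (.mul (.r 2 63 632 2) (.mul (.s 2 89 632 2) (.c 1))) (.mul (.r 2 64 632 2) (.mul (.s 2 361 632 2) (.c 1))))) (.add (.mul (.mul (.c 16777216) (.mul (.r 2 289 632 2) (.add (.mul (.s 2 77 632 2) (.c 1)) (.mul (.s 2 397 632 2) (.c 1))))) (.w 2 1)) (.mul (.r 2 297 632 2) (.add (.mul (.r 2 62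 632 2) (.mul (.s 2 89 632 2) (.c 1))) (.mul (.r 2 65 632 2) (.mul (.s 2 361 632 2) (.c 1))))))) (.add (.mul (.r 2 294 632 2) (.add (.mul (.r 2 63 632 2) (.mul (.s 2 95 632 2) (.c 1))) (.mul (.r 2 64 632 2) (.mul (.s 2 379 632 2) (.c 1))))) (.add (.mul (.mul (.c 16777216) (.mul (.r 2 290 632 2) (.add (.mul (.s 2 83 632 2) (.c 1)) (.mul (.s 2 415 632 2) (.c 1))))) (.w 2 1)) (.mul (.r 2 298 632 2) (.add (.mul (.r 2 62 632 2) (.mul (.s 2 95 632 2) (.c 1))) (.mul (.r 2 65 632 2) (.mul (.s 2 379 632 2) (.c 1)))))))))) (.mul (.mul (.c 281474976710656) (.add (.mul (.r 2 522 632 2) (.sub (.c 0) (.mul (.c 12) (.c 1)))) (.add (.mul (.r 2 523 632 2) (.sub (.c 0) (.mul (.c 12) (.c 1)))) (.mul (.r 2 524 632 2) (.mul (.c 144) (.c 1)))))) (.w 2 2))), 103, 1, 1, 4, 1⟩,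
  ⟨(.sub (.add (.mul (.mul (.c 1024) (.mul (.s 2 365 632 2) (.add (.mul (.mul (.c 767) (.w 0 1)) (.w 1 1)) (.add (.mul (.mul (.c 171) (.q 0)) (.w 1 1)) (.mul (.mul (.c 86) (.q 1)) (.w 0 1)))))) (.w 0 1)) (.mul (.s 2 368 632 2) (.mul (.mul (.c 171) (.v 0)) (.add (.mul (.mul (.c 767) (.w 0 1)) (.w 1 1)) (.add (.mul (.mul (.c 171) (.q 0)) (.w 1 1)) (.mul (.mul (.c 86) (.q 1)) (.w 0 1))))))) (.mul (.mul (.c 1024) (.add (.mul (.r 2 530 632 2) (.mul (.c 2) (.add (.mul (.mul (.c 767) (.w 0 1)) (.w 1 1)) (.add (.mul (.mul (.c 171) (.q 0)) (.w 1 1)) (.mul (.mul (.c 86) (.q 1)) (.w 0 1)))))) (.add (.mul (.r 2 531 632 2) (.add (.mul (.mul (.c 767) (.w 0 1)) (.w 1 1)) (.add (.mul (.mul (.c 171) (.q 0)) (.w 1 1)) (.mul (.mul (.c 86) (.q 1)) (.w 0 1))))) (.mul (.r 2 534 632 2) (.mul (.c 2) (.add (.mul (.mul (.c 767) (.w 0 1)) (.w 1 1)) (.add (.mul (.mul (.c 171) (.q 0)) (.w 1 1)) (.mul (.mul (.c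 86) (.q 1)) (.w 0 1))))))))) (.w 0 1))), 59, 3, 2, 2, 1⟩,
  ⟨(.sub (.mul (.add (.mul (.mul (.c 1024) (.s 2 371 632 2)) (.w 0 1)) (.mul (.mul (.c 171) (.v 0)) (.s 2 380 632 2))) (.c 1)) (.mul (.mul (.c 1024) (.add (.mul (.r 2 530 632 2) (.sub (.c 0) (.mul (.c 12) (.c 1)))) (.add (.mul (.r 2 532 632 2) (.c 1)) (.mul (.r 2 534 632 2) (.sub (.c 0) (.mul (.c 12) (.c 1))))))) (.w 0 1))), 49, 2, 1, 2, 1⟩,
  ⟨(.sub (.mul (.s 2 374 632 2) (.c 1)) (.add (.mul (.r 2 531 632 2) (.sub (.c 0) (.mul (.c 12) (.c 1)))) (.add (.mul (.r 2 533 632 2) (.mul (.c 2) (.c 1))) (.mul (.r 2 534 632 2) (.sub (.c 0) (.mul (.c 24) (.c 1))))))), 39, 1, 1, 2, 1⟩,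
  ⟨(.sub (.mul (.s 2 377 632 2) (.c 1)) (.add (.mul (.r 2 532 632 2) (.sub (.c 0) (.mul (.c 12) (.c 1)))) (.add (.mul (.r 2 533 632 2) (.sub (.c 0) (.mul (.c 12) (.c 1)))) (.mul (.r 2 534 632 2) (.mul (.c 144) (.c 1)))))), 41, 1, 1, 2, 1⟩,
  ⟨(.sub (.add (.mul (.mul (.c 1024) (.mul (.s 2 401 632 2) (.add (.mul (.mul (.c 767) (.w 0 1)) (.w 1 1)) (.add (.mul (.mul (.c 171) (.q 0)) (.w 1 1)) (.mul (.mul (.c 86) (.q 1)) (.w 0 1)))))) (.w 0 1)) (.mul (.s 2 404 632 2) (.mul (.mul (.c 171) (.v 0)) (.add (.mul (.mul (.c 767) (.w 0 1)) (.w 1 1)) (.add (.mul (.mul (.c 171) (.q 0)) (.w 1 1)) (.mul (.mul (.c 86) (.q 1)) (.w 0 1))))))) (.mul (.mul (.c 1024) (.add (.mul (.r 2 540 632 2) (.mul (.c 2) (.add (.mul (.mul (.c 767) (.w 0 1)) (.w 1 1)) (.add (.mul (.mul (.c 171) (.q 0)) (.w 1 1)) (.mul (.mul (.c 86) (.q 1)) (.w 0 1)))))) (.add (.mul (.r 2 541 632 2) (.add (.mul (.mul (.c 767) (.w 0 1))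 (.w 1 1)) (.add (.mul (.mul (.c 171) (.q 0)) (.w 1 1)) (.mul (.mul (.c 86) (.q 1)) (.w 0 1))))) (.mul (.r 2 544 632 2) (.mul (.c 2) (.add (.mul (.mul (.c 767) (.w 0 1)) (.w 1 1)) (.add (.mul (.mul (.c 171) (.q 0)) (.w 1 1)) (.mul (.mul (.c 86) (.q 1)) (.w 0 1))))))))) (.w 0 1))), 59, 3, 2, 2, 1⟩,
  ⟨(.sub (.mul (.add (.mul (.mul (.c 1024) (.s 2 407 632 2)) (.w 0 1)) (.mul (.mul (.c 171) (.v 0)) (.s 2 416 632 2))) (.c 1)) (.mul (.mul (.c 1024) (.add (.mul (.r 2 540 632 2) (.sub (.c 0) (.mul (.c 12) (.c 1)))) (.add (.mul (.r 2 542 632 2) (.c 1)) (.mul (.r 2 544 632 2) (.sub (.c 0) (.mul (.c 12) (.c 1))))))) (.w 0 1))), 49, 2, 1, 2, 1⟩,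
  ⟨(.sub (.mul (.s 2 410 632 2) (.c 1)) (.add (.mul (.r 2 541 632 2) (.sub (.c 0) (.mul (.c 12) (.c 1)))) (.add (.mul (.r 2 543 632 2) (.mul (.c 2) (.c 1))) (.mul (.r 2 544 632 2) (.sub (.c 0) (.mul (.c 24) (.c 1))))))), 39, 1, 1, 2, 1⟩,
  ⟨(.sub (.mul (.s 2 413 632 2) (.c 1)) (.add (.mul (.r 2 542 632 2) (.sub (.c 0) (.mul (.c 12) (.c 1)))) (.add (.mul (.r 2 543 632 2) (.sub (.c 0) (.mul (.c 12) (.c 1)))) (.mul (.r 2 544 632 2) (.mul (.c 144) (.c 1)))))), 41, 1, 1, 2, 1⟩,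
  ⟨(.sub (.sub (.mul (.mul (.mul (.c 1048576) (.r 2 66 632 2)) (.w 0 2)) (.w 1 1)) (.add (.mul (.mul (.c 1024) (.mul (.s 2 145 632 2) (.add (.mul (.mul (.c 767) (.w 0 1)) (.w 1 1)) (.add (.mul (.mul (.c 171) (.q 0)) (.w 1 1)) (.mul (.mul (.c 86) (.q 1)) (.w 0 1)))))) (.w 0 1)) (.mul (.s 2 148 632 2) (.mul (.mul (.c 171) (.v 0)) (.add (.mul (.mul (.c 767) (.w 0 1)) (.w 1 1)) (.add (.mul (.mul (.c 171) (.q 0)) (.w 1 1)) (.mul (.mul (.c 86) (.q 1)) (.w 0 1)))))))) (.mul (.mul (.c 1024) (.add (.mul (.r 2 610 632 2) (.mul (.c 2) (.add (.mul (.mul (.c 767) (.w 0 1)) (.w 1 1)) (.add (.mul (.mul (.c 171) (.q 0)) (.w 1 1)) (.mul (.mul (.c 86) (.q 1)) (.w 0 1)))))) (.add (.mul (.r 2 611 632 2) (.add (.mul (.mul (.c 767) (.w 0 1)) (.w 1 1)) (.add (.mul (.mul (.c 171) (.q 0)) (.w 1 1)) (.mul (.mul (.c 86) (.q 1)) (.w 0 1))))) (.mul (.r 2 614 632 2) (.mul (.c 2) (.add (.mul (.mul (.c 767) (.w 0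 1)) (.w 1 1)) (.add (.mul (.mul (.c 171) (.q 0)) (.w 1 1)) (.mul (.mul (.c 86) (.q 1)) (.w 0 1))))))))) (.w 0 1))), 59, 3, 2, 2, 1⟩,
  ⟨(.sub (.sub (.mul (.mul (.c 0) (.w 0 1)) (.w 2 1)) (.mul (.add (.mul (.mul (.c 1024) (.s 2 151 632 2)) (.w 0 1)) (.mul (.mul (.c 171) (.v 0)) (.s 2 160 632 2))) (.c 1))) (.mul (.mul (.c 1024) (.add (.mul (.r 2 610 632 2) (.sub (.c 0) (.mul (.c 12) (.c 1)))) (.add (.mul (.r 2 612 632 2) (.c 1)) (.mul (.r 2 614 632 2) (.sub (.c 0) (.mul (.c 12) (.c 1))))))) (.w 0 1))), 49, 2, 1, 2, 1⟩,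
  ⟨(.sub (.sub (.mul (.c 0) (.w 2 1)) (.mul (.s 2 154 632 2) (.c 1))) (.add (.mul (.r 2 611 632 2) (.sub (.c 0) (.mul (.c 12) (.c 1)))) (.add (.mul (.r 2 613 632 2) (.mul (.c 2) (.c 1))) (.mul (.r 2 614 632 2) (.sub (.c 0) (.mul (.c 24) (.c 1))))))), 39, 1, 1, 2, 1⟩,
  ⟨(.sub (.sub (.mul (.c 0) (.w 2 1)) (.mul (.s 2 157 632 2) (.c 1))) (.add (.mul (.r 2 612 632 2) (.sub (.c 0) (.mul (.c 12) (.c 1)))) (.add (.mul (.r 2 613 632 2) (.sub (.c 0) (.mul (.c 12) (.c 1)))) (.mul (.r 2 614 632 2) (.mul (.c 144) (.c 1)))))), 41, 1, 1, 2, 1⟩,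
  ⟨(.sub (.sub (.mul (.mul (.mul (.c 1048576) (.r 2 67 632 2)) (.w 0 2)) (.w 1 1)) (.add (.mul (.mul (.c 1024) (.mul (.s 2 367 632 2) (.add (.mul (.mul (.c 767) (.w 0 1)) (.w 1 1)) (.add (.mul (.mul (.c 171) (.q 0)) (.w 1 1)) (.mul (.mul (.c 86) (.q 1)) (.w 0 1)))))) (.w 0 1)) (.mul (.s 2 370 632 2) (.mul (.mul (.c 171) (.v 0)) (.add (.mul (.mul (.c 767) (.w 0 1)) (.w 1 1)) (.add (.mul (.mul (.c 171) (.q 0)) (.w 1 1)) (.mul (.mul (.c 86) (.q 1)) (.w 0 1)))))))) (.mul (.mul (.c 1024) (.add (.mul (.r 2 615 632 2) (.mul (.c 2) (.add (.mul (.mul (.c 767) (.w 0 1)) (.w 1 1)) (.add (.mul (.mul (.c 171) (.q 0)) (.w 1 1)) (.mul (.mul (.c 86) (.q 1)) (.w 0 1)))))) (.add (.mul (.r 2 616 632 2) (.add (.mul (.mul (.c 767) (.w 0 1)) (.w 1 1)) (.add (.mul (.mul (.c 171) (.q 0)) (.w 1 1)) (.mul (.mul (.c 86) (.q 1)) (.w 0 1))))) (.mul (.r 2 619 632 2) (.mul (.c 2) (.add (.mul (.mul (.c 767) (.w 0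 1)) (.w 1 1)) (.add (.mul (.mul (.c 171) (.q 0)) (.w 1 1)) (.mul (.mul (.c 86) (.q 1)) (.w 0 1))))))))) (.w 0 1))), 59, 3, 2, 2, 1⟩,
  ⟨(.sub (.sub (.mul (.mul (.c 0) (.w 0 1)) (.w 2 1)) (.mul (.add (.mul (.mul (.c 1024) (.s 2 373 632 2)) (.w 0 1)) (.mul (.mul (.c 171) (.v 0)) (.s 2 382 632 2))) (.c 1))) (.mul (.mul (.c 1024) (.add (.mul (.r 2 615 632 2) (.sub (.c 0) (.mul (.c 12) (.c 1)))) (.add (.mul (.r 2 617 632 2) (.c 1)) (.mul (.r 2 619 632 2) (.sub (.c 0) (.mul (.c 12) (.c 1))))))) (.w 0 1))), 49, 2, 1, 2, 1⟩,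
  ⟨(.sub (.sub (.mul (.c 0) (.w 2 1)) (.mul (.s 2 376 632 2) (.c 1))) (.add (.mul (.r 2 616 632 2) (.sub (.c 0) (.mul (.c 12) (.c 1)))) (.add (.mul (.r 2 618 632 2) (.mul (.c 2) (.c 1))) (.mul (.r 2 619 632 2) (.sub (.c 0) (.mul (.c 24) (.c 1))))))), 39, 1, 1, 2, 1⟩,
  ⟨(.sub (.sub (.mul (.c 0) (.w 2 1)) (.mul (.s 2 379 632 2) (.c 1))) (.add (.mul (.r 2 617 632 2) (.sub (.c 0) (.mul (.c 12) (.c 1)))) (.add (.mul (.r 2 618 632 2) (.sub (.c 0) (.mul (.c 12) (.c 1)))) (.mul (.r 2 619 632 2) (.mul (.c 144) (.c 1)))))), 41, 1, 1, 2, 1⟩,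
  ⟨(.sub (.sub (.mul (.mul (.mul (.mul (.c 1048576) (.r 0 72 1 1)) (.w 0 2)) (.w 1 1)) (.w 2 1)) (.add (.mul (.mul (.c 1024) (.mul (.s 2 91 632 2) (.add (.mul (.mul (.c 767) (.w 0 1)) (.w 1 1)) (.add (.mul (.mul (.c 171) (.q 0)) (.w 1 1)) (.mul (.mul (.c 86) (.q 1)) (.w 0 1)))))) (.w 0 1)) (.mul (.s 2 92 632 2) (.mul (.mul (.c 171) (.v 0)) (.add (.mul (.mul (.c 767) (.w 0 1)) (.w 1 1)) (.add (.mul (.mul (.c 171) (.q 0)) (.w 1 1)) (.mul (.mul (.c 86) (.q 1)) (.w 0 1)))))))) (.mul (.mul (.c 1024) (.add (.mul (.r 2 620 632 2) (.mul (.c 2) (.add (.mul (.mul (.c 767) (.w 0 1)) (.w 1 1)) (.add (.mul (.mul (.c 171) (.q 0)) (.w 1 1)) (.mul (.mul (.c 86) (.q 1)) (.w 0 1)))))) (.add (.mul (.r 2 621 632 2) (.add (.mul (.mul (.c 767) (.w 0 1)) (.w 1 1)) (.add (.mul (.mul (.c 171) (.q 0)) (.w 1 1)) (.mul (.mul (.c 86) (.q 1)) (.w 0 1))))) (.mul (.r 2 624 632 2) (.mul (.c 2) (.add (.mul (.mul (.c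 767) (.w 0 1)) (.w 1 1)) (.add (.mul (.mul (.c 171) (.q 0)) (.w 1 1)) (.mul (.mul (.c 86) (.q 1)) (.w 0 1))))))))) (.w 0 1))), 59, 3, 2, 2, 1⟩,
  ⟨(.sub (.sub (.mul (.mul (.c 0) (.w 0 1)) (.w 2 1)) (.mul (.add (.mul (.mul (.c 1024) (.s 2 93 632 2)) (.w 0 1)) (.mul (.mul (.c 171) (.v 0)) (.s 2 96 632 2))) (.c 1))) (.mul (.mul (.c 1024) (.add (.mul (.r 2 620 632 2) (.sub (.c 0) (.mul (.c 12) (.c 1)))) (.add (.mul (.r 2 622 632 2) (.c 1)) (.mul (.r 2 624 632 2) (.sub (.c 0) (.mul (.c 12) (.c 1))))))) (.w 0 1))), 49, 2, 1, 2, 1⟩,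
  ⟨(.sub (.sub (.mul (.c 0) (.w 2 1)) (.mul (.s 2 94 632 2) (.c 1))) (.add (.mul (.r 2 621 632 2) (.sub (.c 0) (.mul (.c 12) (.c 1)))) (.add (.mul (.r 2 623 632 2) (.mul (.c 2) (.c 1))) (.mul (.r 2 624 632 2) (.sub (.c 0) (.mul (.c 24) (.c 1))))))), 39, 1, 1, 2, 1⟩,
  ⟨(.sub (.sub (.mul (.c 0) (.w 2 1)) (.mul (.s 2 95 632 2) (.c 1))) (.add (.mul (.r 2 622 632 2) (.sub (.c 0) (.mul (.c 12) (.c 1)))) (.add (.mul (.r 2 623 632 2) (.sub (.c 0) (.mul (.c 12) (.c 1)))) (.mul (.r 2 624 632 2) (.mul (.c 144) (.c 1)))))), 41, 1, 1, 2, 1⟩,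
  ⟨(.sub (.sub (.mul (.c 1024) (.add (.mul (.q 2) (.r 0 7 1 3)) (.mul (.v 2) (.r 0 639 1 3)))) (.mul (.mul (.s 2 34 632 2) (.add (.mul (.c 853) (.w 0 1)) (.mul (.c 171) (.q 0)))) (.w 0 1))) (.mul (.add (.mul (.r 2 246 632 2) (.mul (.c 2) (.add (.mul (.c 853) (.w 0 1)) (.mul (.c 171) (.q 0))))) (.add (.mul (.r 2 247 632 2) (.add (.mul (.c 853) (.w 0 1)) (.mul (.c 171) (.q 0)))) (.mul (.r 2 250 632 2) (.mul (.c 2) (.add (.mul (.c 853) (.w 0 1)) (.mul (.c 171) (.q 0))))))) (.w 0 1))), 48, 3, 1, 2, 1⟩,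
  ⟨(.sub (.sub (.mul (.c 0) (.w 2 1)) (.mul (.s 2 35 632 2) (.c 1))) (.add (.mul (.r 2 246 632 2) (.sub (.c 0) (.mul (.c 12) (.c 1)))) (.add (.mul (.r 2 248 632 2) (.c 1)) (.mul (.r 2 250 632 2) (.sub (.c 0) (.mul (.c 12) (.c 1))))))), 38, 1, 1, 2, 1⟩,
  ⟨(.sub (.sub (.mul (.c 0) (.w 2 1)) (.mul (.s 2 36 632 2) (.c 1))) (.add (.mul (.r 2 247 632 2) (.sub (.c 0) (.mul (.c 12) (.c 1)))) (.add (.mul (.r 2 249 632 2) (.mul (.c 2) (.c 1))) (.mul (.r 2 250 632 2) (.sub (.c 0) (.mul (.c 24) (.c 1))))))), 39, 1, 1, 2, 1⟩,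
  ⟨(.sub (.sub (.mul (.c 0) (.w 2 1)) (.mul (.s 2 37 632 2) (.c 1))) (.add (.mul (.r 2 248 632 2) (.sub (.c 0) (.mul (.c 12) (.c 1)))) (.add (.mul (.r 2 249 632 2) (.sub (.c 0) (.mul (.c 12) (.c 1)))) (.mul (.r 2 250 632 2) (.mul (.c 144) (.c 1)))))), 41, 1, 1, 2, 1⟩,
  ⟨(.sub (.add (.mul (.mul (.c 1024) (.mul (.s 2 97 632 2) (.add (.mul (.c 853) (.w 0 1)) (.mul (.c 171) (.q 0))))) (.w 0 1)) (.mul (.s 2 98 632 2) (.mul (.mul (.c 171) (.v 0)) (.add (.mul (.c 853) (.w 0 1)) (.mul (.c 171) (.q 0)))))) (.mul (.mul (.c 1024) (.add (.mul (.r 2 251 632 2) (.mul (.c 2) (.add (.mul (.c 853) (.w 0 1)) (.mul (.c 171) (.q 0))))) (.add (.mul (.r 2 252 632 2) (.add (.mul (.c 853) (.w 0 1)) (.mul (.c 171) (.q 0)))) (.mul (.r 2 255 632 2) (.mul (.c 2) (.add (.mul (.c 853) (.w 0 1)) (.mul (.c 171) (.q 0)))))))) (.w 0 1))), 58, 3, 1, 2, 1⟩,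
  ⟨(.sub (.mul (.add (.mul (.mul (.c 1024) (.s 2 99 632 2)) (.w 0 1)) (.mul (.mul (.c 171) (.v 0)) (.s 2 102 632 2))) (.c 1)) (.mul (.mul (.c 1024) (.add (.mul (.r 2 251 632 2) (.sub (.c 0) (.mul (.c 12) (.c 1)))) (.add (.mul (.r 2 253 632 2) (.c 1)) (.mul (.r 2 255 632 2) (.sub (.c 0) (.mul (.c 12) (.c 1))))))) (.w 0 1))), 49, 2, 1, 2, 1⟩]

noncomputable def f0 : List Tc :=
 [⟨fun A S X L P R M N m a b c d e f g h D => (A (L (X (L (X (L (X (L (X 16777216 (L (X (L (X 86 b) N) (A (L (X 1024 (A (L (X (A (L (X (L (X 1024 (A (A (L (R D 1088) 4294967295) (X c (L (R D 21312) 4294967295))) (S M (L (X 2147483648 (A 1 (X c 1))) N)))) N) e) N) (L (X (A (A (L (R D 1120) 4294967295) (X c (L (R D 21344) 4294967295))) (S M (L (X 2147483648 (A 1 (X c 1))) N))) (L (X 171 a) N)) N)) f) N) (L (X (L (X (A (A (L (R D 1152) 4294967295) (X c (L (R D 21376) 4294967295))) (S M (L (X 2147483648 (A 1 (X c 1)))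 N))) (L (X 86 b) N)) N) e) N))) N) (L (X (A (A (L (R D 1184) 4294967295) (X c (L (R D 21408) 4294967295))) (S M (L (X 2147483648 (A 1 (X c 1))) N))) (L (X (L (X 86 b) N) (L (X 171 a) N)) N)) N))) N)) N) e) N) f) N) g) N) (S M (L (L (X (L (X (L (X 86 b) N) (A (L (X (L (X 1048576 (A (L (R D 32) 4294967295) (X c (L (R D 20256) 4294967295)))) N) (P f 2)) N) (L (X (L (X 86 b) N) (A (L (X (L (X 1024 (A (L (R D 64) 4294967295) (X c (L (R D 20288) 4294967295)))) N) f) N) (L (X (L (X 86 b) N) (A (L (R D 96) 4294967295) (X c (L (R D 20320) 4294967295)))) N))) N))) N) (A (L (X 1 (A (L (R D 128) 4294967295) (X a (A (L (R D 160) 4294967295) (X a (L (R D 192) 4294967295)))))) N) (L (X c (A (L (R D 20352) 4294967295) (X a (A (L (R D 20384) 4294967295) (X a (L (R D 20416) 4294967295)))))) N))) N) N))), 97, 3, 4, 3, 1⟩,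
  ⟨fun A S X L P R M N m a b c d e f g h D => (A (A (L (X (L (X (L (X (L (X 295147905179352825856 (L (X (L (X 86 b) N) (A (L (X 1024 (A (L (X (A (L (X (L (X 1024 (A (A (L (R D 3808) 4294967295) (X c (L (R D 24032) 4294967295))) (S M (L (X 2147483648 (A 1 (X c 1))) N)))) N) e) N) (L (X (A (A (L (R D 3840) 4294967295) (X c (L (R D 24064) 4294967295))) (S M (L (X 2147483648 (A 1 (X c 1))) N))) (L (X 171 a) N)) N)) f) N) (L (X (L (X (A (A (L (R D 3872) 4294967295) (X c (L (R D 24096) 4294967295))) (S M (L (X 2147483648 (A 1 (X c 1))) N))) (L (X 86 b) N)) N) e) N))) N) (L (X (A (A (L (R D 3904) 4294967295) (X c (L (R D 24128) 4294967295))) (S M (L (X 2147483648 (A 1 (X c 1))) N))) (L (X (L (X 86 b) N) (L (X 171 a) N)) N)) N))) N)) N) (P e 3)) N) (P f 2)) N) (P g 2)) N) (S M (L (L (X (L (X (L (X 86 b) N) (A (L (X (L (X 1048576 (A (L (R D 32) 4294967295) (X c (L (R D 20256) 4294967295))))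 N) (P f 2)) N) (L (X (L (X 86 b) N) (A (L (X (L (X 1024 (A (L (R D 64) 4294967295) (X c (L (R D 20288) 4294967295)))) N) f) N) (L (X (L (X 86 b) N) (A (L (R D 96) 4294967295) (X c (L (R D 20320) 4294967295)))) N))) N))) N) (L (X (A (L (X 1 (A (L (R D 128) 4294967295) (X a (A (L (R D 160) 4294967295) (X a (L (R D 192) 4294967295)))))) N) (L (X c (A (L (R D 20352) 4294967295) (X a (A (L (R D 20384) 4294967295) (X a (L (R D 20416) 4294967295)))))) N)) (A (L (X (L (X 1024 (L (X (A (A (L (R D 3104) 4294967295) (X c (L (R D 23328) 4294967295))) (S M (L (X 2147483648 (A 1 (X c 1))) N))) (A (L (X (L (X 767 e) N) f) N) (A (L (X (L (X 171 1) N) f) N) (L (X (L (X 86 1) N) e) N)))) N)) N) e) N) (L (X (A (A (L (R D 3136) 4294967295) (X c (L (R D 23360) 4294967295))) (S M (L (X 2147483648 (A 1 (X c 1))) N))) (L (X (L (X 171 a) N) (A (L (X (L (X 767 e) N) f) N) (A (L (X (L (X 171 1) N) f) N) (L (X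 (L (X 86 1) N) e) N)))) N)) N))) N)) N) N))) (S M (L (L (X (L (X (L (X 17179869184 (A (L (X (L (X (A (L (R D 5728) 4294967295) (X c (L (R D 25952) 4294967295))) (L (X (L (X 86 b) N) (A (L (X (L (X 1048576 (A (L (R D 32) 4294967295) (X c (L (R D 20256) 4294967295)))) N) (P f 2)) N) (L (X (L (X 86 b) N) (A (L (X (L (X 1024 (A (L (R D 64) 4294967295) (X c (L (R D 20288) 4294967295)))) N) f) N) (L (X (L (X 86 b) N) (A (L (R D 96) 4294967295) (X c (L (R D 20320) 4294967295)))) N))) N))) N)) N) (L (X 2 (A (L (X (L (X 767 e) N) f) N) (A (L (X (L (X 171 1) N) f) N) (L (X (L (X 86 1) N) e) N)))) N)) N) (A (L (X (L (X (A (L (R D 5760) 4294967295) (X c (L (R D 25984) 4294967295))) (L (X (L (X 86 b) N) (A (L (X (L (X 1048576 (A (L (R D 32) 4294967295) (X c (L (R D 20256) 4294967295)))) N) (P f 2)) N) (L (X (L (X 86 b) N) (A (L (X (L (X 1024 (A (L (R D 64) 4294967295) (X c (L (R D 20288) 4294967295))))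 N) f) N) (L (X (L (X 86 b) N) (A (L (R D 96) 4294967295) (X c (L (R D 20320) 4294967295)))) N))) N))) N)) N) (A (L (X (L (X 767 e) N) f) N) (A (L (X (L (X 171 1) N) f) N) (L (X (L (X 86 1) N) e) N)))) N) (L (X (L (X (A (L (R D 5856) 4294967295) (X c (L (R D 26080) 4294967295))) (L (X (L (X 86 b) N) (A (L (X (L (X 1048576 (A (L (R D 32) 4294967295) (X c (L (R D 20256) 4294967295)))) N) (P f 2)) N) (L (X (L (X 86 b) N) (A (L (X (L (X 1024 (A (L (R D 64) 4294967295) (X c (L (R D 20288) 4294967295)))) N) f) N) (L (X (L (X 86 b) N) (A (L (R D 96) 4294967295) (X c (L (R D 20320) 4294967295)))) N))) N))) N)) N) (L (X 2 (A (L (X (L (X 767 e) N) f) N) (A (L (X (L (X 171 1) N) f) N) (L (X (L (X 86 1) N) e) N)))) N)) N)))) N) (P e 3)) N) g) N) N))), 153, 5, 5, 4, 1⟩,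
  ⟨fun A S X L P R M N m a b c d e f g h D => (A (A (L (X (L (X (L (X 0 (P e 3)) N) (P f 3)) N) (P g 3)) N) (S M (L (L (X (L (X (L (X 86 b) N) (A (L (X (L (X 1048576 (A (L (R D 32) 4294967295) (X c (L (R D 20256) 4294967295)))) N) (P f 2)) N) (L (X (L (X 86 b) N) (A (L (X (L (X 1024 (A (L (R D 64) 4294967295) (X c (L (R D 20288) 4294967295)))) N) f) N) (L (X (L (X 86 b) N) (A (L (R D 96) 4294967295) (X c (L (R D 20320) 4294967295)))) N))) N))) N) (L (X (A (L (X 1 (A (L (R D 128) 4294967295) (X a (A (L (R D 160) 4294967295) (X a (L (R D 192) 4294967295)))))) N) (L (X c (A (L (R D 20352) 4294967295) (X a (A (L (R D 20384) 4294967295) (X a (L (R D 20416) 4294967295)))))) N)) (L (X (A (L (X (L (X 1024 (A (A (L (R D 3168) 4294967295) (X c (L (R D 23392) 4294967295))) (S M (L (X 2147483648 (A 1 (X c 1))) N)))) N) e) N) (L (X (L (X 171 a) N) (A (A (L (R D 3264) 4294967295) (X c (L (R D 23488)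 4294967295))) (S M (L (X 2147483648 (A 1 (X c 1))) N)))) N)) 1) N)) N)) N) N))) (S M (L (L (X (L (X (L (X 17179869184 (A (L (X (L (X (A (L (R D 5728) 4294967295) (X c (L (R D 25952) 4294967295))) (L (X (L (X 86 b) N) (A (L (X (L (X 1048576 (A (L (R D 32) 4294967295) (X c (L (R D 20256) 4294967295)))) N) (P f 2)) N) (L (X (L (X 86 b) N) (A (L (X (L (X 1024 (A (L (R D 64) 4294967295) (X c (L (R D 20288) 4294967295)))) N) f) N) (L (X (L (X 86 b) N) (A (L (R D 96) 4294967295) (X c (L (R D 20320) 4294967295)))) N))) N))) N)) N) (A 0 (S M (L (L (X 12 1) N) N)))) N) (A (L (X (L (X (A (L (R D 5792) 4294967295) (X c (L (R D 26016) 4294967295))) (L (X (L (X 86 b) N) (A (L (X (L (X 1048576 (A (L (R D 32) 4294967295) (X c (L (R D 20256) 4294967295)))) N) (P f 2)) N) (L (X (L (X 86 b) N) (A (L (X (L (X 1024 (A (L (R D 64) 4294967295) (X c (L (R D 20288) 4294967295)))) N) f) N) (L (X (L (X 86 b)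 N) (A (L (R D 96) 4294967295) (X c (L (R D 20320) 4294967295)))) N))) N))) N)) N) 1) N) (L (X (L (X (A (L (R D 5856) 4294967295) (X c (L (R D 26080) 4294967295))) (L (X (L (X 86 b) N) (A (L (X (L (X 1048576 (A (L (R D 32) 4294967295) (X c (L (R D 20256) 4294967295)))) N) (P f 2)) N) (L (X (L (X 86 b) N) (A (L (X (L (X 1024 (A (L (R D 64) 4294967295) (X c (L (R D 20288) 4294967295)))) N) f) N) (L (X (L (X 86 b) N) (A (L (R D 96) 4294967295) (X c (L (R D 20320) 4294967295)))) N))) N))) N)) N) (A 0 (S M (L (L (X 12 1) N) N)))) N)))) N) (P e 3)) N) g) N) N))), 141, 4, 4, 4, 1⟩,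
  ⟨fun A S X L P R M N m a b c d e f g h D => (A (A (L (X (L (X (L (X 0 (P e 2)) N) (P f 3)) N) (P g 3)) N) (S M (L (L (X (L (X (L (X 86 b) N) (A (L (X (L (X 1048576 (A (L (R D 32) 4294967295) (X c (L (R D 20256) 4294967295)))) N) (P f 2)) N) (L (X (L (X 86 b) N) (A (L (X (L (X 1024 (A (L (R D 64) 4294967295) (X c (L (R D 20288) 4294967295)))) N) f) N) (L (X (L (X 86 b) N) (A (L (R D 96) 4294967295) (X c (L (R D 20320) 4294967295)))) N))) N))) N) (L (X (A (L (X 1 (A (L (R D 128) 4294967295) (X a (A (L (R D 160) 4294967295) (X a (L (R D 192) 4294967295)))))) N) (L (X c (A (L (R D 20352) 4294967295) (X a (A (L (R D 20384) 4294967295) (X a (L (R D 20416) 4294967295)))))) N)) (L (X (A (A (L (R D 3200) 4294967295) (X c (L (R D 23424) 4294967295))) (S M (L (X 2147483648 (A 1 (X c 1))) N))) 1) N)) N)) N) N))) (S M (L (L (X (L (X (L (X 16777216 (A (L (X (L (X (A (L (R D 5760) 4294967295) (X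 c (L (R D 25984) 4294967295))) (L (X (L (X 86 b) N) (A (L (X (L (X 1048576 (A (L (R D 32) 4294967295) (X c (L (R D 20256) 4294967295)))) N) (P f 2)) N) (L (X (L (X 86 b) N) (A (L (X (L (X 1024 (A (L (R D 64) 4294967295) (X c (L (R D 20288) 4294967295)))) N) f) N) (L (X (L (X 86 b) N) (A (L (R D 96) 4294967295) (X c (L (R D 20320) 4294967295)))) N))) N))) N)) N) (A 0 (S M (L (L (X 12 1) N) N)))) N) (A (L (X (L (X (A (L (R D 5824) 4294967295) (X c (L (R D 26048) 4294967295))) (L (X (L (X 86 b) N) (A (L (X (L (X 1048576 (A (L (R D 32) 4294967295) (X c (L (R D 20256) 4294967295)))) N) (P f 2)) N) (L (X (L (X 86 b) N) (A (L (X (L (X 1024 (A (L (R D 64) 4294967295) (X c (L (R D 20288) 4294967295)))) N) f) N) (L (X (L (X 86 b) N) (A (L (R D 96) 4294967295) (X c (L (R D 20320) 4294967295)))) N))) N))) N)) N) (L (X 2 1) N)) N) (L (X (L (X (A (L (R D 5856) 4294967295) (X c (L (R D 26080) 4294967295)))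 (L (X (L (X 86 b) N) (A (L (X (L (X 1048576 (A (L (R D 32) 4294967295) (X c (L (R D 20256) 4294967295)))) N) (P f 2)) N) (L (X (L (X 86 b) N) (A (L (X (L (X 1024 (A (L (R D 64) 4294967295) (X c (L (R D 20288) 4294967295)))) N) f) N) (L (X (L (X 86 b) N) (A (L (R D 96) 4294967295) (X c (L (R D 20320) 4294967295)))) N))) N))) N)) N) (A 0 (S M (L (L (X 24 1) N) N)))) N)))) N) (P e 2)) N) g) N) N))), 130, 3, 4, 4, 1⟩,
  ⟨fun A S X L P R M N m a b c d e f g h D => (A (A (L (X (L (X (L (X 0 (P e 2)) N) (P f 3)) N) (P g 3)) N) (S M (L (L (X (L (X (L (X 86 b) N) (A (L (X (L (X 1048576 (A (L (R D 32) 4294967295) (X c (L (R D 20256) 4294967295)))) N) (P f 2)) N) (L (X (L (X 86 b) N) (A (L (X (L (X 1024 (A (L (R D 64) 4294967295) (X c (L (R D 20288) 4294967295)))) N) f) N) (L (X (L (X 86 b) N) (A (L (R D 96) 4294967295) (X c (L (R D 20320) 4294967295)))) N))) N))) N) (L (X (A (L (X 1 (A (L (R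 D 128) 4294967295) (X a (A (L (R D 160) 4294967295) (X a (L (R D 192) 4294967295)))))) N) (L (X c (A (L (R D 20352) 4294967295) (X a (A (L (R D 20384) 4294967295) (X a (L (R D 20416) 4294967295)))))) N)) (L (X (A (A (L (R D 3232) 4294967295) (X c (L (R D 23456) 4294967295))) (S M (L (X 2147483648 (A 1 (X c 1))) N))) 1) N)) N)) N) N))) (S M (L (L (X (L (X (L (X 16777216 (A (L (X (L (X (A (L (R D 5792) 4294967295) (X c (L (R D 26016) 4294967295))) (L (X (L (X 86 b) N) (A (L (X (L (X 1048576 (A (L (R D 32) 4294967295) (X c (L (R D 20256) 4294967295)))) N) (P f 2)) N) (L (X (L (X 86 b) N) (A (L (X (L (X 1024 (A (L (R D 64) 4294967295) (X c (L (R D 20288) 4294967295)))) N) f) N) (L (X (L (X 86 b) N) (A (L (R D 96) 4294967295) (X c (L (R D 20320) 4294967295)))) N))) N))) N)) N) (A 0 (S M (L (L (X 12 1) N) N)))) N) (A (L (X (L (X (A (L (R D 5824) 4294967295) (X c (L (R D 26048) 4294967295)))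 (L (X (L (X 86 b) N) (A (L (X (L (X 1048576 (A (L (R D 32) 4294967295) (X c (L (R D 20256) 4294967295)))) N) (P f 2)) N) (L (X (L (X 86 b) N) (A (L (X (L (X 1024 (A (L (R D 64) 4294967295) (X c (L (R D 20288) 4294967295)))) N) f) N) (L (X (L (X 86 b) N) (A (L (R D 96) 4294967295) (X c (L (R D 20320) 4294967295)))) N))) N))) N)) N) (A 0 (S M (L (L (X 12 1) N) N)))) N) (L (X (L (X (A (L (R D 5856) 4294967295) (X c (L (R D 26080) 4294967295))) (L (X (L (X 86 b) N) (A (L (X (L (X 1048576 (A (L (R D 32) 4294967295) (X c (L (R D 20256) 4294967295)))) N) (P f 2)) N) (L (X (L (X 86 b) N) (A (L (X (L (X 1024 (A (L (R D 64) 4294967295) (X c (L (R D 20288) 4294967295)))) N) f) N) (L (X (L (X 86 b) N) (A (L (R D 96) 4294967295) (X c (L (R D 20320) 4294967295)))) N))) N))) N)) N) (L (X 144 1) N)) N)))) N) (P e 2)) N) g) N) N))), 130, 3, 4, 4, 1⟩,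
  ⟨fun A S X L P R M N m a b c d e f g h D => (A (A (L (X (L (X (L (X (L (X 295147905179352825856 (L (X (L (X 86 b) N) (A (L (X 1024 (A (L (X (A (L (X (L (X 1024 (A (A (L (R D 3936) 4294967295) (X c (L (R D 24160) 4294967295))) (S M (L (X 2147483648 (A 1 (X c 1))) N)))) N) e) N) (L (X (A (A (L (R D 3968) 4294967295) (X c (L (R D 24192) 4294967295))) (S M (L (X 2147483648 (A 1 (X c 1))) N))) (L (X 171 a) N)) N)) f) N) (L (X (L (X (A (A (L (R D 4000) 4294967295) (X c (L (R D 24224) 4294967295))) (S M (L (X 2147483648 (A 1 (X c 1))) N))) (L (X 86 b) N)) N) e) N))) N) (L (X (A (A (L (R D 4032) 4294967295) (X c (L (R D 24256) 4294967295))) (S M (L (X 2147483648 (A 1 (X c 1))) N))) (L (X (L (X 86 b) N) (L (X 171 a) N)) N)) N))) N)) N) (P e 3)) N) (P f 2)) N) (P g 2)) N) (S M (L (L (X (L (X (L (X 86 b) N) (A (L (X (L (X 1048576 (A (L (R D 32) 4294967295) (X c (L (R D 20256) 4294967295))))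 N) (P f 2)) N) (L (X (L (X 86 b) N) (A (L (X (L (X 1024 (A (L (R D 64) 4294967295) (X c (L (R D 20288) 4294967295)))) N) f) N) (L (X (L (X 86 b) N) (A (L (R D 96) 4294967295) (X c (L (R D 20320) 4294967295)))) N))) N))) N) (L (X (A (L (X 1 (A (L (R D 128) 4294967295) (X a (A (L (R D 160) 4294967295) (X a (L (R D 192) 4294967295)))))) N) (L (X c (A (L (R D 20352) 4294967295) (X a (A (L (R D 20384) 4294967295) (X a (L (R D 20416) 4294967295)))))) N)) (A (L (X (L (X 1024 (L (X (A (A (L (R D 3296) 4294967295) (X c (L (R D 23520) 4294967295))) (S M (L (X 2147483648 (A 1 (X c 1))) N))) (A (L (X (L (X 767 e) N) f) N) (A (L (X (L (X 171 1) N) f) N) (L (X (L (X 86 1) N) e) N)))) N)) N) e) N) (L (X (A (A (L (R D 3328) 4294967295) (X c (L (R D 23552) 4294967295))) (S M (L (X 2147483648 (A 1 (X c 1))) N))) (L (X (L (X 171 a) N) (A (L (X (L (X 767 e) N) f) N) (A (L (X (L (X 171 1) N) f) N) (L (X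 (L (X 86 1) N) e) N)))) N)) N))) N)) N) N))) (S M (L (L (X (L (X (L (X 17179869184 (A (L (X (L (X (A (L (R D 5888) 4294967295) (X c (L (R D 26112) 4294967295))) (L (X (L (X 86 b) N) (A (L (X (L (X 1048576 (A (L (R D 32) 4294967295) (X c (L (R D 20256) 4294967295)))) N) (P f 2)) N) (L (X (L (X 86 b) N) (A (L (X (L (X 1024 (A (L (R D 64) 4294967295) (X c (L (R D 20288) 4294967295)))) N) f) N) (L (X (L (X 86 b) N) (A (L (R D 96) 4294967295) (X c (L (R D 20320) 4294967295)))) N))) N))) N)) N) (L (X 2 (A (L (X (L (X 767 e) N) f) N) (A (L (X (L (X 171 1) N) f) N) (L (X (L (X 86 1) N) e) N)))) N)) N) (A (L (X (L (X (A (L (R D 5920) 4294967295) (X c (L (R D 26144) 4294967295))) (L (X (L (X 86 b) N) (A (L (X (L (X 1048576 (A (L (R D 32) 4294967295) (X c (L (R D 20256) 4294967295)))) N) (P f 2)) N) (L (X (L (X 86 b) N) (A (L (X (L (X 1024 (A (L (R D 64) 4294967295) (X c (L (R D 20288) 4294967295))))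 N) f) N) (L (X (L (X 86 b) N) (A (L (R D 96) 4294967295) (X c (L (R D 20320) 4294967295)))) N))) N))) N)) N) (A (L (X (L (X 767 e) N) f) N) (A (L (X (L (X 171 1) N) f) N) (L (X (L (X 86 1) N) e) N)))) N) (L (X (L (X (A (L (R D 6016) 4294967295) (X c (L (R D 26240) 4294967295))) (L (X (L (X 86 b) N) (A (L (X (L (X 1048576 (A (L (R D 32) 4294967295) (X c (L (R D 20256) 4294967295)))) N) (P f 2)) N) (L (X (L (X 86 b) N) (A (L (X (L (X 1024 (A (L (R D 64) 4294967295) (X c (L (R D 20288) 4294967295)))) N) f) N) (L (X (L (X 86 b) N) (A (L (R D 96) 4294967295) (X c (L (R D 20320) 4294967295)))) N))) N))) N)) N) (L (X 2 (A (L (X (L (X 767 e) N) f) N) (A (L (X (L (X 171 1) N) f) N) (L (X (L (X 86 1) N) e) N)))) N)) N)))) N) (P e 3)) N) g) N) N))), 153, 5, 5, 4, 1⟩,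
  ⟨fun A S X L P R M N m a b c d e f g h D => (A (A (L (X (L (X (L (X 0 (P e 3)) N) (P f 3)) N) (P g 3)) N) (S M (L (L (X (L (X (L (X 86 b) N) (A (L (X (L (X 1048576 (A (L (R D 32) 4294967295) (X c (L (R D 20256) 4294967295)))) N) (P f 2)) N) (L (X (L (X 86 b) N) (A (L (X (L (X 1024 (A (L (R D 64) 4294967295) (X c (L (R D 20288) 4294967295)))) N) f) N) (L (X (L (X 86 b) N) (A (L (R D 96) 4294967295) (X c (L (R D 20320) 4294967295)))) N))) N))) N) (L (X (A (L (X 1 (A (L (R D 128) 4294967295) (X a (A (L (R D 160) 4294967295) (X a (L (R D 192) 4294967295)))))) N) (L (X c (A (L (R D 20352) 4294967295) (X a (A (L (R D 20384) 4294967295) (X a (L (R D 20416) 4294967295)))))) N)) (L (X (A (L (X (L (X 1024 (A (A (L (R D 3360) 4294967295) (X c (L (R D 23584) 4294967295))) (S M (L (X 2147483648 (A 1 (X c 1))) N)))) N) e) N) (L (X (L (X 171 a) N) (A (A (L (R D 3456) 4294967295) (X c (L (R D 23680)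 4294967295))) (S M (L (X 2147483648 (A 1 (X c 1))) N)))) N)) 1) N)) N)) N) N))) (S M (L (L (X (L (X (L (X 17179869184 (A (L (X (L (X (A (L (R D 5888) 4294967295) (X c (L (R D 26112) 4294967295))) (L (X (L (X 86 b) N) (A (L (X (L (X 1048576 (A (L (R D 32) 4294967295) (X c (L (R D 20256) 4294967295)))) N) (P f 2)) N) (L (X (L (X 86 b) N) (A (L (X (L (X 1024 (A (L (R D 64) 4294967295) (X c (L (R D 20288) 4294967295)))) N) f) N) (L (X (L (X 86 b) N) (A (L (R D 96) 4294967295) (X c (L (R D 20320) 4294967295)))) N))) N))) N)) N) (A 0 (S M (L (L (X 12 1) N) N)))) N) (A (L (X (L (X (A (L (R D 5952) 4294967295) (X c (L (R D 26176) 4294967295))) (L (X (L (X 86 b) N) (A (L (X (L (X 1048576 (A (L (R D 32) 4294967295) (X c (L (R D 20256) 4294967295)))) N) (P f 2)) N) (L (X (L (X 86 b) N) (A (L (X (L (X 1024 (A (L (R D 64) 4294967295) (X c (L (R D 20288) 4294967295)))) N) f) N) (L (X (L (X 86 b)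 N) (A (L (R D 96) 4294967295) (X c (L (R D 20320) 4294967295)))) N))) N))) N)) N) 1) N) (L (X (L (X (A (L (R D 6016) 4294967295) (X c (L (R D 26240) 4294967295))) (L (X (L (X 86 b) N) (A (L (X (L (X 1048576 (A (L (R D 32) 4294967295) (X c (L (R D 20256) 4294967295)))) N) (P f 2)) N) (L (X (L (X 86 b) N) (A (L (X (L (X 1024 (A (L (R D 64) 4294967295) (X c (L (R D 20288) 4294967295)))) N) f) N) (L (X (L (X 86 b) N) (A (L (R D 96) 4294967295) (X c (L (R D 20320) 4294967295)))) N))) N))) N)) N) (A 0 (S M (L (L (X 12 1) N) N)))) N)))) N) (P e 3)) N) g) N) N))), 141, 4, 4, 4, 1⟩,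
  ⟨fun A S X L P R M N m a b c d e f g h D => (A (A (L (X (L (X (L (X 0 (P e 2)) N) (P f 3)) N) (P g 3)) N) (S M (L (L (X (L (X (L (X 86 b) N) (A (L (X (L (X 1048576 (A (L (R D 32) 4294967295) (X c (L (R D 20256) 4294967295)))) N) (P f 2)) N) (L (X (L (X 86 b) N) (A (L (X (L (X 1024 (A (L (R D 64) 4294967295) (X c (L (R D 20288) 4294967295)))) N) f) N) (L (X (L (X 86 b) N) (A (L (R D 96) 4294967295) (X c (L (R D 20320) 4294967295)))) N))) N))) N) (L (X (A (L (X 1 (A (L (R D 128) 4294967295) (X a (A (L (R D 160) 4294967295) (X a (L (R D 192) 4294967295)))))) N) (L (X c (A (L (R D 20352) 4294967295) (X a (A (L (R D 20384) 4294967295) (X a (L (R D 20416) 4294967295)))))) N)) (L (X (A (A (L (R D 3392) 4294967295) (X c (L (R D 23616) 4294967295))) (S M (L (X 2147483648 (A 1 (X c 1))) N))) 1) N)) N)) N) N))) (S M (L (L (X (L (X (L (X 16777216 (A (L (X (L (X (A (L (R D 5920) 4294967295) (X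 c (L (R D 26144) 4294967295))) (L (X (L (X 86 b) N) (A (L (X (L (X 1048576 (A (L (R D 32) 4294967295) (X c (L (R D 20256) 4294967295)))) N) (P f 2)) N) (L (X (L (X 86 b) N) (A (L (X (L (X 1024 (A (L (R D 64) 4294967295) (X c (L (R D 20288) 4294967295)))) N) f) N) (L (X (L (X 86 b) N) (A (L (R D 96) 4294967295) (X c (L (R D 20320) 4294967295)))) N))) N))) N)) N) (A 0 (S M (L (L (X 12 1) N) N)))) N) (A (L (X (L (X (A (L (R D 5984) 4294967295) (X c (L (R D 26208) 4294967295))) (L (X (L (X 86 b) N) (A (L (X (L (X 1048576 (A (L (R D 32) 4294967295) (X c (L (R D 20256) 4294967295)))) N) (P f 2)) N) (L (X (L (X 86 b) N) (A (L (X (L (X 1024 (A (L (R D 64) 4294967295) (X c (L (R D 20288) 4294967295)))) N) f) N) (L (X (L (X 86 b) N) (A (L (R D 96) 4294967295) (X c (L (R D 20320) 4294967295)))) N))) N))) N)) N) (L (X 2 1) N)) N) (L (X (L (X (A (L (R D 6016) 4294967295) (X c (L (R D 26240) 4294967295)))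 (L (X (L (X 86 b) N) (A (L (X (L (X 1048576 (A (L (R D 32) 4294967295) (X c (L (R D 20256) 4294967295)))) N) (P f 2)) N) (L (X (L (X 86 b) N) (A (L (X (L (X 1024 (A (L (R D 64) 4294967295) (X c (L (R D 20288) 4294967295)))) N) f) N) (L (X (L (X 86 b) N) (A (L (R D 96) 4294967295) (X c (L (R D 20320) 4294967295)))) N))) N))) N)) N) (A 0 (S M (L (L (X 24 1) N) N)))) N)))) N) (P e 2)) N) g) N) N))), 130, 3, 4, 4, 1⟩,
  ⟨fun A S X L P R M N m a b c d e f g h D => (A (A (L (X (L (X (L (X 0 (P e 2)) N) (P f 3)) N) (P g 3)) N) (S M (L (L (X (L (X (L (X 86 b) N) (A (L (X (L (X 1048576 (A (L (R D 32) 4294967295) (X c (L (R D 20256) 4294967295)))) N) (P f 2)) N) (L (X (L (X 86 b) N) (A (L (X (L (X 1024 (A (L (R D 64) 4294967295) (X c (L (R D 20288) 4294967295)))) N) f) N) (L (X (L (X 86 b) N) (A (L (R D 96) 4294967295) (X c (L (R D 20320) 4294967295)))) N))) N))) N) (L (X (A (L (X 1 (A (L (R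 D 128) 4294967295) (X a (A (L (R D 160) 4294967295) (X a (L (R D 192) 4294967295)))))) N) (L (X c (A (L (R D 20352) 4294967295) (X a (A (L (R D 20384) 4294967295) (X a (L (R D 20416) 4294967295)))))) N)) (L (X (A (A (L (R D 3424) 4294967295) (X c (L (R D 23648) 4294967295))) (S M (L (X 2147483648 (A 1 (X c 1))) N))) 1) N)) N)) N) N))) (S M (L (L (X (L (X (L (X 16777216 (A (L (X (L (X (A (L (R D 5952) 4294967295) (X c (L (R D 26176) 4294967295))) (L (X (L (X 86 b) N) (A (L (X (L (X 1048576 (A (L (R D 32) 4294967295) (X c (L (R D 20256) 4294967295)))) N) (P f 2)) N) (L (X (L (X 86 b) N) (A (L (X (L (X 1024 (A (L (R D 64) 4294967295) (X c (L (R D 20288) 4294967295)))) N) f) N) (L (X (L (X 86 b) N) (A (L (R D 96) 4294967295) (X c (L (R D 20320) 4294967295)))) N))) N))) N)) N) (A 0 (S M (L (L (X 12 1) N) N)))) N) (A (L (X (L (X (A (L (R D 5984) 4294967295) (X c (L (R D 26208) 4294967295)))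 (L (X (L (X 86 b) N) (A (L (X (L (X 1048576 (A (L (R D 32) 4294967295) (X c (L (R D 20256) 4294967295)))) N) (P f 2)) N) (L (X (L (X 86 b) N) (A (L (X (L (X 1024 (A (L (R D 64) 4294967295) (X c (L (R D 20288) 4294967295)))) N) f) N) (L (X (L (X 86 b) N) (A (L (R D 96) 4294967295) (X c (L (R D 20320) 4294967295)))) N))) N))) N)) N) (A 0 (S M (L (L (X 12 1) N) N)))) N) (L (X (L (X (A (L (R D 6016) 4294967295) (X c (L (R D 26240) 4294967295))) (L (X (L (X 86 b) N) (A (L (X (L (X 1048576 (A (L (R D 32) 4294967295) (X c (L (R D 20256) 4294967295)))) N) (P f 2)) N) (L (X (L (X 86 b) N) (A (L (X (L (X 1024 (A (L (R D 64) 4294967295) (X c (L (R D 20288) 4294967295)))) N) f) N) (L (X (L (X 86 b) N) (A (L (R D 96) 4294967295) (X c (L (R D 20320) 4294967295)))) N))) N))) N)) N) (L (X 144 1) N)) N)))) N) (P e 2)) N) g) N) N))), 130, 3, 4, 4, 1⟩,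
  ⟨fun A S X L P R M N m a b c d e f g h D => (A (A (L (X (L (X (L (X (L (X 590295810358705651712 (L (X (L (X 86 b) N) (A (L (X 1024 (A (L (X (A (L (X (L (X 1024 (A (A (L (R D 4064) 4294967295) (X c (L (R D 24288) 4294967295))) (S M (L (X 2147483648 (A 1 (X c 1))) N)))) N) e) N) (L (X (A (A (L (R D 4096) 4294967295) (X c (L (R D 24320) 4294967295))) (S M (L (X 2147483648 (A 1 (X c 1))) N))) (L (X 171 a) N)) N)) f) N) (L (X (L (X (A (A (L (R D 4128) 4294967295) (X c (L (R D 24352) 4294967295))) (S M (L (X 2147483648 (A 1 (X c 1))) N))) (L (X 86 b) N)) N) e) N))) N) (L (X (A (A (L (R D 4160) 4294967295) (X c (L (R D 24384) 4294967295))) (S M (L (X 2147483648 (A 1 (X c 1))) N))) (L (X (L (X 86 b) N) (L (X 171 a) N)) N)) N))) N)) N) (P e 3)) N) (P f 3)) N) (P g 2)) N) (S M (L (L (X (L (X (L (X 86 b) N) (A (L (X (L (X 1048576 (A (L (R D 32) 4294967295) (X c (L (R D 20256) 4294967295))))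 N) (P f 2)) N) (L (X (L (X 86 b) N) (A (L (X (L (X 1024 (A (L (R D 64) 4294967295) (X c (L (R D 20288) 4294967295)))) N) f) N) (L (X (L (X 86 b) N) (A (L (R D 96) 4294967295) (X c (L (R D 20320) 4294967295)))) N))) N))) N) (L (X (A (L (X 1 (A (L (R D 128) 4294967295) (X a (A (L (R D 160) 4294967295) (X a (L (R D 192) 4294967295)))))) N) (L (X c (A (L (R D 20352) 4294967295) (X a (A (L (R D 20384) 4294967295) (X a (L (R D 20416) 4294967295)))))) N)) (L (X 1 (A (L (X (A (L (X (L (X 1024 (L (X (A (A (L (R D 3104) 4294967295) (X c (L (R D 23328) 4294967295))) (S M (L (X 2147483648 (A 1 (X c 1))) N))) (A (L (X (L (X 767 e) N) f) N) (A (L (X (L (X 171 1) N) f) N) (L (X (L (X 86 1) N) e) N)))) N)) N) e) N) (L (X (A (A (L (R D 3136) 4294967295) (X c (L (R D 23360) 4294967295))) (S M (L (X 2147483648 (A 1 (X c 1))) N))) (L (X (L (X 171 a) N) (A (L (X (L (X 767 e) N) f) N) (A (L (X (L (X 171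 1) N) f) N) (L (X (L (X 86 1) N) e) N)))) N)) N)) f) N) (A (L (X (A (L (X (L (X 1024 (L (X (A (A (L (R D 3104) 4294967295) (X c (L (R D 23328) 4294967295))) (S M (L (X 2147483648 (A 1 (X c 1))) N))) (A (L (X 853 e) N) (L (X 171 1) N))) N)) N) e) N) (L (X (A (A (L (R D 3136) 4294967295) (X c (L (R D 23360) 4294967295))) (S M (L (X 2147483648 (A 1 (X c 1))) N))) (L (X (L (X 171 a) N) (A (L (X 853 e) N) (L (X 171 1) N))) N)) N)) (P f 2)) N) (L (X (L (X (A (A (L (R D 3200) 4294967295) (X c (L (R D 23424) 4294967295))) (S M (L (X 2147483648 (A 1 (X c 1))) N))) (L (X (L (X 86 b) N) (L (X 86 b) N)) N)) N) (P e 2)) N)))) N)) N)) N) N))) (S M (L (L (X (L (X (L (X 33554432 (A (L (X (L (X 1024 (L (X (L (X (A (L (R D 6048) 4294967295) (X c (L (R D 26272) 4294967295))) (L (X (L (X 86 b) N) (A (L (X (L (X 1048576 (A (L (R D 32) 4294967295) (X c (L (R D 20256) 4294967295)))) N) (P f 2)) N) (L (X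 (L (X 86 b) N) (A (L (X (L (X 1024 (A (L (R D 64) 4294967295) (X c (L (R D 20288) 4294967295)))) N) f) N) (L (X (L (X 86 b) N) (A (L (R D 96) 4294967295) (X c (L (R D 20320) 4294967295)))) N))) N))) N)) N) (L (X 2 (A (L (X (L (X 767 e) N) f) N) (A (L (X (L (X 171 1) N) f) N) (L (X (L (X 86 1) N) e) N)))) N)) N)) N) f) N) (A (L (X (L (X 1024 (L (X (L (X (A (L (R D 6080) 4294967295) (X c (L (R D 26304) 4294967295))) (L (X (L (X 86 b) N) (A (L (X (L (X 1048576 (A (L (R D 32) 4294967295) (X c (L (R D 20256) 4294967295)))) N) (P f 2)) N) (L (X (L (X 86 b) N) (A (L (X (L (X 1024 (A (L (R D 64) 4294967295) (X c (L (R D 20288) 4294967295)))) N) f) N) (L (X (L (X 86 b) N) (A (L (R D 96) 4294967295) (X c (L (R D 20320) 4294967295)))) N))) N))) N)) N) (A (L (X (L (X 767 e) N) f) N) (A (L (X (L (X 171 1) N) f) N) (L (X (L (X 86 1) N) e) N)))) N)) N) f) N) (A (L (X (L (X 1024 (L (X (L (X (A (L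 (R D 6176) 4294967295) (X c (L (R D 26400) 4294967295))) (L (X (L (X 86 b) N) (A (L (X (L (X 1048576 (A (L (R D 32) 4294967295) (X c (L (R D 20256) 4294967295)))) N) (P f 2)) N) (L (X (L (X 86 b) N) (A (L (X (L (X 1024 (A (L (R D 64) 4294967295) (X c (L (R D 20288) 4294967295)))) N) f) N) (L (X (L (X 86 b) N) (A (L (R D 96) 4294967295) (X c (L (R D 20320) 4294967295)))) N))) N))) N)) N) (L (X 2 (A (L (X (L (X 767 e) N) f) N) (A (L (X (L (X 171 1) N) f) N) (L (X (L (X 86 1) N) e) N)))) N)) N)) N) f) N) (A (L (X (L (X 1024 (L (X (L (X (A (L (R D 6208) 4294967295) (X c (L (R D 26432) 4294967295))) (L (X (L (X 86 b) N) (A (L (X (L (X 1048576 (A (L (R D 32) 4294967295) (X c (L (R D 20256) 4294967295)))) N) (P f 2)) N) (L (X (L (X 86 b) N) (A (L (X (L (X 1024 (A (L (R D 64) 4294967295) (X c (L (R D 20288) 4294967295)))) N) f) N) (L (X (L (X 86 b) N) (A (L (R D 96) 4294967295) (X c (L (R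 D 20320) 4294967295)))) N))) N))) N)) N) (L (X 2 (A (L (X 853 e) N) (L (X 171 1) N))) N)) N)) N) (P f 2)) N) (A (L (X (L (X (A (L (R D 6240) 4294967295) (X c (L (R D 26464) 4294967295))) (L (X (L (X 86 b) N) (A (L (X (L (X 1048576 (A (L (R D 32) 4294967295) (X c (L (R D 20256) 4294967295)))) N) (P f 2)) N) (L (X (L (X 86 b) N) (A (L (X (L (X 1024 (A (L (R D 64) 4294967295) (X c (L (R D 20288) 4294967295)))) N) f) N) (L (X (L (X 86 b) N) (A (L (R D 96) 4294967295) (X c (L (R D 20320) 4294967295)))) N))) N))) N)) N) (A (L (X (L (X 1024 (A (L (X 853 e) N) (L (X 171 1) N))) N) (P f 2)) N) (S M (L (L (X (L (X 12 (L (X (L (X 86 b) N) (L (X 86 b) N)) N)) N) e) N) N)))) N) (A (L (X (L (X (L (X (A (L (R D 6304) 4294967295) (X c (L (R D 26528) 4294967295))) (L (X (L (X 86 b) N) (A (L (X (L (X 1048576 (A (L (R D 32) 4294967295) (X c (L (R D 20256) 4294967295)))) N) (P f 2)) N) (L (X (L (X 86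 b) N) (A (L (X (L (X 1024 (A (L (R D 64) 4294967295) (X c (L (R D 20288) 4294967295)))) N) f) N) (L (X (L (X 86 b) N) (A (L (R D 96) 4294967295) (X c (L (R D 20320) 4294967295)))) N))) N))) N)) N) (L (X 2 (L (X (L (X 86 b) N) (L (X 86 b) N)) N)) N)) N) e) N) (A (L (X (L (X (A (L (R D 6336) 4294967295) (X c (L (R D 26560) 4294967295))) (L (X (L (X 86 b) N) (A (L (X (L (X 1048576 (A (L (R D 32) 4294967295) (X c (L (R D 20256) 4294967295)))) N) (P f 2)) N) (L (X (L (X 86 b) N) (A (L (X (L (X 1024 (A (L (R D 64) 4294967295) (X c (L (R D 20288) 4294967295)))) N) f) N) (L (X (L (X 86 b) N) (A (L (R D 96) 4294967295) (X c (L (R D 20320) 4294967295)))) N))) N))) N)) N) (A (L (X (L (X 1024 (L (X 2 (A (L (X 853 e) N) (L (X 171 1) N))) N)) N) (P f 2)) N) (S M (L (L (X (L (X 24 (L (X (L (X 86 b) N) (L (X 86 b) N)) N)) N) e) N) N)))) N) (L (X (L (X (L (X 1048576 (L (X (L (X (A (L (R D 6368) 4294967295)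 (X c (L (R D 26592) 4294967295))) (L (X (L (X 86 b) N) (A (L (X (L (X 1048576 (A (L (R D 32) 4294967295) (X c (L (R D 20256) 4294967295)))) N) (P f 2)) N) (L (X (L (X 86 b) N) (A (L (X (L (X 1024 (A (L (R D 64) 4294967295) (X c (L (R D 20288) 4294967295)))) N) f) N) (L (X (L (X 86 b) N) (A (L (R D 96) 4294967295) (X c (L (R D 20320) 4294967295)))) N))) N))) N)) N) 2) N)) N) e) N) (P f 2)) N))))))))) N) (P e 3)) N) g) N) N))), 155, 5, 6, 4, 1⟩,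
  ⟨fun A S X L P R M N m a b c d e f g h D => (A (A (L (X (L (X (L (X 0 (P e 3)) N) (P f 3)) N) (P g 3)) N) (S M (L (L (X (L (X (L (X 86 b) N) (A (L (X (L (X 1048576 (A (L (R D 32) 4294967295) (X c (L (R D 20256) 4294967295)))) N) (P f 2)) N) (L (X (L (X 86 b) N) (A (L (X (L (X 1024 (A (L (R D 64) 4294967295) (X c (L (R D 20288) 4294967295)))) N) f) N) (L (X (L (X 86 b) N) (A (L (R D 96) 4294967295) (X c (L (R D 20320) 4294967295)))) N))) N))) N) (L (X (A (L (X 1 (A (L (R D 128) 4294967295) (X a (A (L (R D 160) 4294967295) (X a (L (R D 192) 4294967295)))))) N) (L (X c (A (L (R D 20352) 4294967295) (X a (A (L (R D 20384) 4294967295) (X a (L (R D 20416) 4294967295)))))) N)) (L (X 1 (A (L (X (A (L (X (L (X 1024 (A (A (L (R D 3168) 4294967295) (X c (L (R D 23392) 4294967295))) (S M (L (X 2147483648 (A 1 (X c 1))) N)))) N) e) N) (L (X (L (X 171 a) N) (A (A (L (R D 3264) 4294967295) (X c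 (L (R D 23488) 4294967295))) (S M (L (X 2147483648 (A 1 (X c 1))) N)))) N)) 1) N) (L (X (A (L (X (L (X 1024 (A (A (L (R D 3168) 4294967295) (X c (L (R D 23392) 4294967295))) (S M (L (X 2147483648 (A 1 (X c 1))) N)))) N) e) N) (L (X (L (X 171 a) N) (A (A (L (R D 3264) 4294967295) (X c (L (R D 23488) 4294967295))) (S M (L (X 2147483648 (A 1 (X c 1))) N)))) N)) 1) N))) N)) N)) N) N))) (S M (L (L (X (L (X (L (X 34359738368 (A (L (X (L (X (A (L (R D 6048) 4294967295) (X c (L (R D 26272) 4294967295))) (L (X (L (X 86 b) N) (A (L (X (L (X 1048576 (A (L (R D 32) 4294967295) (X c (L (R D 20256) 4294967295)))) N) (P f 2)) N) (L (X (L (X 86 b) N) (A (L (X (L (X 1024 (A (L (R D 64) 4294967295) (X c (L (R D 20288) 4294967295)))) N) f) N) (L (X (L (X 86 b) N) (A (L (R D 96) 4294967295) (X c (L (R D 20320) 4294967295)))) N))) N))) N)) N) (A 0 (S M (L (L (X 12 1) N) N)))) N) (A (L (X (L (X (A (L (R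 D 6112) 4294967295) (X c (L (R D 26336) 4294967295))) (L (X (L (X 86 b) N) (A (L (X (L (X 1048576 (A (L (R D 32) 4294967295) (X c (L (R D 20256) 4294967295)))) N) (P f 2)) N) (L (X (L (X 86 b) N) (A (L (X (L (X 1024 (A (L (R D 64) 4294967295) (X c (L (R D 20288) 4294967295)))) N) f) N) (L (X (L (X 86 b) N) (A (L (R D 96) 4294967295) (X c (L (R D 20320) 4294967295)))) N))) N))) N)) N) 1) N) (A (L (X (L (X (A (L (R D 6176) 4294967295) (X c (L (R D 26400) 4294967295))) (L (X (L (X 86 b) N) (A (L (X (L (X 1048576 (A (L (R D 32) 4294967295) (X c (L (R D 20256) 4294967295)))) N) (P f 2)) N) (L (X (L (X 86 b) N) (A (L (X (L (X 1024 (A (L (R D 64) 4294967295) (X c (L (R D 20288) 4294967295)))) N) f) N) (L (X (L (X 86 b) N) (A (L (R D 96) 4294967295) (X c (L (R D 20320) 4294967295)))) N))) N))) N)) N) (A 0 (S M (L (L (X 12 1) N) N)))) N) (A (L (X (L (X (A (L (R D 6208) 4294967295) (X c (L (R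 D 26432) 4294967295))) (L (X (L (X 86 b) N) (A (L (X (L (X 1048576 (A (L (R D 32) 4294967295) (X c (L (R D 20256) 4294967295)))) N) (P f 2)) N) (L (X (L (X 86 b) N) (A (L (X (L (X 1024 (A (L (R D 64) 4294967295) (X c (L (R D 20288) 4294967295)))) N) f) N) (L (X (L (X 86 b) N) (A (L (R D 96) 4294967295) (X c (L (R D 20320) 4294967295)))) N))) N))) N)) N) (A 0 (S M (L (L (X 12 1) N) N)))) N) (A (L (X (L (X (A (L (R D 6272) 4294967295) (X c (L (R D 26496) 4294967295))) (L (X (L (X 86 b) N) (A (L (X (L (X 1048576 (A (L (R D 32) 4294967295) (X c (L (R D 20256) 4294967295)))) N) (P f 2)) N) (L (X (L (X 86 b) N) (A (L (X (L (X 1024 (A (L (R D 64) 4294967295) (X c (L (R D 20288) 4294967295)))) N) f) N) (L (X (L (X 86 b) N) (A (L (R D 96) 4294967295) (X c (L (R D 20320) 4294967295)))) N))) N))) N)) N) 1) N) (L (X (L (X (A (L (R D 6336) 4294967295) (X c (L (R D 26560) 4294967295))) (L (X (L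 (X 86 b) N) (A (L (X (L (X 1048576 (A (L (R D 32) 4294967295) (X c (L (R D 20256) 4294967295)))) N) (P f 2)) N) (L (X (L (X 86 b) N) (A (L (X (L (X 1024 (A (L (R D 64) 4294967295) (X c (L (R D 20288) 4294967295)))) N) f) N) (L (X (L (X 86 b) N) (A (L (R D 96) 4294967295) (X c (L (R D 20320) 4294967295)))) N))) N))) N)) N) (A 0 (S M (L (L (X 12 1) N) N)))) N))))))) N) (P e 3)) N) g) N) N))), 142, 4, 4, 4, 1⟩,
  ⟨fun A S X L P R M N m a b c d e f g h D => (A (A (L (X (L (X (L (X 0 (P e 2)) N) (P f 3)) N) (P g 3)) N) (S M (L (L (X (L (X (L (X 86 b) N) (A (L (X (L (X 1048576 (A (L (R D 32) 4294967295) (X c (L (R D 20256) 4294967295)))) N) (P f 2)) N) (L (X (L (X 86 b) N) (A (L (X (L (X 1024 (A (L (R D 64) 4294967295) (X c (L (R D 20288) 4294967295)))) N) f) N) (L (X (L (X 86 b) N) (A (L (R D 96) 4294967295) (X c (L (R D 20320) 4294967295)))) N))) N))) N) (L (X (A (L (X 1 (A (L (R D 128)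 4294967295) (X a (A (L (R D 160) 4294967295) (X a (L (R D 192) 4294967295)))))) N) (L (X c (A (L (R D 20352) 4294967295) (X a (A (L (R D 20384) 4294967295) (X a (L (R D 20416) 4294967295)))))) N)) (L (X 1 (A (L (X (A (A (L (R D 3200) 4294967295) (X c (L (R D 23424) 4294967295))) (S M (L (X 2147483648 (A 1 (X c 1))) N))) 1) N) (L (X (A (A (L (R D 3200) 4294967295) (X c (L (R D 23424) 4294967295))) (S M (L (X 2147483648 (A 1 (X c 1))) N))) 1) N))) N)) N)) N) N))) (S M (L (L (X (L (X (L (X 33554432 (A (L (X (L (X (A (L (R D 6080) 4294967295) (X c (L (R D 26304) 4294967295))) (L (X (L (X 86 b) N) (A (L (X (L (X 1048576 (A (L (R D 32) 4294967295) (X c (L (R D 20256) 4294967295)))) N) (P f 2)) N) (L (X (L (X 86 b) N) (A (L (X (L (X 1024 (A (L (R D 64) 4294967295) (X c (L (R D 20288) 4294967295)))) N) f) N) (L (X (L (X 86 b) N) (A (L (R D 96) 4294967295) (X c (L (R D 20320) 4294967295))))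 N))) N))) N)) N) (A 0 (S M (L (L (X 12 1) N) N)))) N) (A (L (X (L (X (A (L (R D 6144) 4294967295) (X c (L (R D 26368) 4294967295))) (L (X (L (X 86 b) N) (A (L (X (L (X 1048576 (A (L (R D 32) 4294967295) (X c (L (R D 20256) 4294967295)))) N) (P f 2)) N) (L (X (L (X 86 b) N) (A (L (X (L (X 1024 (A (L (R D 64) 4294967295) (X c (L (R D 20288) 4294967295)))) N) f) N) (L (X (L (X 86 b) N) (A (L (R D 96) 4294967295) (X c (L (R D 20320) 4294967295)))) N))) N))) N)) N) (L (X 2 1) N)) N) (A (L (X (L (X (A (L (R D 6176) 4294967295) (X c (L (R D 26400) 4294967295))) (L (X (L (X 86 b) N) (A (L (X (L (X 1048576 (A (L (R D 32) 4294967295) (X c (L (R D 20256) 4294967295)))) N) (P f 2)) N) (L (X (L (X 86 b) N) (A (L (X (L (X 1024 (A (L (R D 64) 4294967295) (X c (L (R D 20288) 4294967295)))) N) f) N) (L (X (L (X 86 b) N) (A (L (R D 96) 4294967295) (X c (L (R D 20320) 4294967295)))) N))) N))) N)) N)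 (A 0 (S M (L (L (X 24 1) N) N)))) N) (A (L (X (L (X (A (L (R D 6240) 4294967295) (X c (L (R D 26464) 4294967295))) (L (X (L (X 86 b) N) (A (L (X (L (X 1048576 (A (L (R D 32) 4294967295) (X c (L (R D 20256) 4294967295)))) N) (P f 2)) N) (L (X (L (X 86 b) N) (A (L (X (L (X 1024 (A (L (R D 64) 4294967295) (X c (L (R D 20288) 4294967295)))) N) f) N) (L (X (L (X 86 b) N) (A (L (R D 96) 4294967295) (X c (L (R D 20320) 4294967295)))) N))) N))) N)) N) (A 0 (S M (L (L (X 12 1) N) N)))) N) (A (L (X (L (X (A (L (R D 6304) 4294967295) (X c (L (R D 26528) 4294967295))) (L (X (L (X 86 b) N) (A (L (X (L (X 1048576 (A (L (R D 32) 4294967295) (X c (L (R D 20256) 4294967295)))) N) (P f 2)) N) (L (X (L (X 86 b) N) (A (L (X (L (X 1024 (A (L (R D 64) 4294967295) (X c (L (R D 20288) 4294967295)))) N) f) N) (L (X (L (X 86 b) N) (A (L (R D 96) 4294967295) (X c (L (R D 20320) 4294967295)))) N))) N))) N)) N)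 (L (X 2 1) N)) N) (L (X (L (X (A (L (R D 6336) 4294967295) (X c (L (R D 26560) 4294967295))) (L (X (L (X 86 b) N) (A (L (X (L (X 1048576 (A (L (R D 32) 4294967295) (X c (L (R D 20256) 4294967295)))) N) (P f 2)) N) (L (X (L (X 86 b) N) (A (L (X (L (X 1024 (A (L (R D 64) 4294967295) (X c (L (R D 20288) 4294967295)))) N) f) N) (L (X (L (X 86 b) N) (A (L (R D 96) 4294967295) (X c (L (R D 20320) 4294967295)))) N))) N))) N)) N) (A 0 (S M (L (L (X 24 1) N) N)))) N))))))) N) (P e 2)) N) g) N) N))), 131, 3, 4, 4, 1⟩,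
  ⟨fun A S X L P R M N m a b c d e f g h D => (A (A (L (X (L (X (L (X 0 (P e 2)) N) (P f 3)) N) (P g 3)) N) (S M (L (L (X (L (X (L (X 86 b) N) (A (L (X (L (X 1048576 (A (L (R D 32) 4294967295) (X c (L (R D 20256) 4294967295)))) N) (P f 2)) N) (L (X (L (X 86 b) N) (A (L (X (L (X 1024 (A (L (R D 64) 4294967295) (X c (L (R D 20288) 4294967295)))) N) f) N) (L (X (L (X 86 b) N) (A (L (R D 96) 4294967295) (X c (L (R D 20320) 4294967295)))) N))) N))) N) (L (X (A (L (X 1 (A (L (R D 128) 4294967295) (X a (A (L (R D 160) 4294967295) (X a (L (R D 192) 4294967295)))))) N) (L (X c (A (L (R D 20352) 4294967295) (X a (A (L (R D 20384) 4294967295) (X a (L (R D 20416) 4294967295)))))) N)) (L (X 1 (A (L (X (A (A (L (R D 3232) 4294967295) (X c (L (R D 23456) 4294967295))) (S M (L (X 2147483648 (A 1 (X c 1))) N))) 1) N) (L (X (A (A (L (R D 3232) 4294967295) (X c (L (R D 23456) 4294967295))) (S M (L (X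 2147483648 (A 1 (X c 1))) N))) 1) N))) N)) N)) N) N))) (S M (L (L (X (L (X (L (X 33554432 (A (L (X (L (X (A (L (R D 6112) 4294967295) (X c (L (R D 26336) 4294967295))) (L (X (L (X 86 b) N) (A (L (X (L (X 1048576 (A (L (R D 32) 4294967295) (X c (L (R D 20256) 4294967295)))) N) (P f 2)) N) (L (X (L (X 86 b) N) (A (L (X (L (X 1024 (A (L (R D 64) 4294967295) (X c (L (R D 20288) 4294967295)))) N) f) N) (L (X (L (X 86 b) N) (A (L (R D 96) 4294967295) (X c (L (R D 20320) 4294967295)))) N))) N))) N)) N) (A 0 (S M (L (L (X 12 1) N) N)))) N) (A (L (X (L (X (A (L (R D 6144) 4294967295) (X c (L (R D 26368) 4294967295))) (L (X (L (X 86 b) N) (A (L (X (L (X 1048576 (A (L (R D 32) 4294967295) (X c (L (R D 20256) 4294967295)))) N) (P f 2)) N) (L (X (L (X 86 b) N) (A (L (X (L (X 1024 (A (L (R D 64) 4294967295) (X c (L (R D 20288) 4294967295)))) N) f) N) (L (X (L (X 86 b) N) (A (L (R D 96) 4294967295)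 (X c (L (R D 20320) 4294967295)))) N))) N))) N)) N) (A 0 (S M (L (L (X 12 1) N) N)))) N) (A (L (X (L (X (A (L (R D 6176) 4294967295) (X c (L (R D 26400) 4294967295))) (L (X (L (X 86 b) N) (A (L (X (L (X 1048576 (A (L (R D 32) 4294967295) (X c (L (R D 20256) 4294967295)))) N) (P f 2)) N) (L (X (L (X 86 b) N) (A (L (X (L (X 1024 (A (L (R D 64) 4294967295) (X c (L (R D 20288) 4294967295)))) N) f) N) (L (X (L (X 86 b) N) (A (L (R D 96) 4294967295) (X c (L (R D 20320) 4294967295)))) N))) N))) N)) N) (L (X 144 1) N)) N) (A (L (X (L (X (A (L (R D 6272) 4294967295) (X c (L (R D 26496) 4294967295))) (L (X (L (X 86 b) N) (A (L (X (L (X 1048576 (A (L (R D 32) 4294967295) (X c (L (R D 20256) 4294967295)))) N) (P f 2)) N) (L (X (L (X 86 b) N) (A (L (X (L (X 1024 (A (L (R D 64) 4294967295) (X c (L (R D 20288) 4294967295)))) N) f) N) (L (X (L (X 86 b) N) (A (L (R D 96) 4294967295) (X c (L (R D 20320)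 4294967295)))) N))) N))) N)) N) (A 0 (S M (L (L (X 12 1) N) N)))) N) (A (L (X (L (X (A (L (R D 6304) 4294967295) (X c (L (R D 26528) 4294967295))) (L (X (L (X 86 b) N) (A (L (X (L (X 1048576 (A (L (R D 32) 4294967295) (X c (L (R D 20256) 4294967295)))) N) (P f 2)) N) (L (X (L (X 86 b) N) (A (L (X (L (X 1024 (A (L (R D 64) 4294967295) (X c (L (R D 20288) 4294967295)))) N) f) N) (L (X (L (X 86 b) N) (A (L (R D 96) 4294967295) (X c (L (R D 20320) 4294967295)))) N))) N))) N)) N) (A 0 (S M (L (L (X 12 1) N) N)))) N) (L (X (L (X (A (L (R D 6336) 4294967295) (X c (L (R D 26560) 4294967295))) (L (X (L (X 86 b) N) (A (L (X (L (X 1048576 (A (L (R D 32) 4294967295) (X c (L (R D 20256) 4294967295)))) N) (P f 2)) N) (L (X (L (X 86 b) N) (A (L (X (L (X 1024 (A (L (R D 64) 4294967295) (X c (L (R D 20288) 4294967295)))) N) f) N) (L (X (L (X 86 b) N) (A (L (R D 96) 4294967295) (X c (L (R D 20320) 4294967295))))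 N))) N))) N)) N) (L (X 144 1) N)) N))))))) N) (P e 2)) N) g) N) N))), 132, 3, 4, 4, 1⟩,
  ⟨fun A S X L P R M N m a b c d e f g h D => (A (A (L (X (L (X (L (X 0 (P e 3)) N) (P f 5)) N) (P g 3)) N) (S M (L (L (X (L (X (L (X 86 b) N) (A (L (X (L (X 1048576 (A (L (R D 32) 4294967295) (X c (L (R D 20256) 4294967295)))) N) (P f 2)) N) (L (X (L (X 86 b) N) (A (L (X (L (X 1024 (A (L (R D 64) 4294967295) (X c (L (R D 20288) 4294967295)))) N) f) N) (L (X (L (X 86 b) N) (A (L (R D 96) 4294967295) (X c (L (R D 20320) 4294967295)))) N))) N))) N) (L (X (A (L (X 1 (A (L (R D 128) 4294967295) (X a (A (L (R D 160) 4294967295) (X a (L (R D 192) 4294967295)))))) N) (L (X c (A (L (R D 20352) 4294967295) (X a (A (L (R D 20384) 4294967295) (X a (L (R D 20416) 4294967295)))))) N)) (L (X 1 (A (L (X (L (X (A (L (X (L (X 1024 (A (A (L (R D 3168) 4294967295) (X c (L (R D 23392) 4294967295))) (S M (L (X 2147483648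 (A 1 (X c 1))) N)))) N) e) N) (L (X (L (X 171 a) N) (A (A (L (R D 3264) 4294967295) (X c (L (R D 23488) 4294967295))) (S M (L (X 2147483648 (A 1 (X c 1))) N)))) N)) (L (X 86 b) N)) N) f) N) (L (X (L (X (A (A (L (R D 3232) 4294967295) (X c (L (R D 23456) 4294967295))) (S M (L (X 2147483648 (A 1 (X c 1))) N))) (L (X (L (X 86 b) N) (L (X 86 b) N)) N)) N) e) N))) N)) N)) N) N))) (S M (L (L (X (L (X (L (X 33554432 (A (L (X (L (X 1024 (L (X (L (X (A (L (R D 6208) 4294967295) (X c (L (R D 26432) 4294967295))) (L (X (L (X 86 b) N) (A (L (X (L (X 1048576 (A (L (R D 32) 4294967295) (X c (L (R D 20256) 4294967295)))) N) (P f 2)) N) (L (X (L (X 86 b) N) (A (L (X (L (X 1024 (A (L (R D 64) 4294967295) (X c (L (R D 20288) 4294967295)))) N) f) N) (L (X (L (X 86 b) N) (A (L (R D 96) 4294967295) (X c (L (R D 20320) 4294967295)))) N))) N))) N)) N) (A (L (X 0 f) N) (S M (L (L (X 12 (L (X 86 b) N)) N)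 N)))) N)) N) f) N) (A (L (X (L (X (A (L (R D 6272) 4294967295) (X c (L (R D 26496) 4294967295))) (L (X (L (X 86 b) N) (A (L (X (L (X 1048576 (A (L (R D 32) 4294967295) (X c (L (R D 20256) 4294967295)))) N) (P f 2)) N) (L (X (L (X 86 b) N) (A (L (X (L (X 1024 (A (L (R D 64) 4294967295) (X c (L (R D 20288) 4294967295)))) N) f) N) (L (X (L (X 86 b) N) (A (L (R D 96) 4294967295) (X c (L (R D 20320) 4294967295)))) N))) N))) N)) N) (A (L (X (L (X 1024 (L (X 86 b) N)) N) f) N) (S M (L (L (X 12 (L (X (L (X 86 b) N) (L (X 86 b) N)) N)) N) N)))) N) (A (L (X (L (X (A (L (R D 6304) 4294967295) (X c (L (R D 26528) 4294967295))) (L (X (L (X 86 b) N) (A (L (X (L (X 1048576 (A (L (R D 32) 4294967295) (X c (L (R D 20256) 4294967295)))) N) (P f 2)) N) (L (X (L (X 86 b) N) (A (L (X (L (X 1024 (A (L (R D 64) 4294967295) (X c (L (R D 20288) 4294967295)))) N) f) N) (L (X (L (X 86 b) N) (A (L (R D 96) 4294967295)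 (X c (L (R D 20320) 4294967295)))) N))) N))) N)) N) (A (L (X 0 (P f 2)) N) (S M (L (L (X 12 (L (X (L (X 86 b) N) (L (X 86 b) N)) N)) N) N)))) N) (A (L (X (L (X (A (L (R D 6336) 4294967295) (X c (L (R D 26560) 4294967295))) (L (X (L (X 86 b) N) (A (L (X (L (X 1048576 (A (L (R D 32) 4294967295) (X c (L (R D 20256) 4294967295)))) N) (P f 2)) N) (L (X (L (X 86 b) N) (A (L (X (L (X 1024 (A (L (R D 64) 4294967295) (X c (L (R D 20288) 4294967295)))) N) f) N) (L (X (L (X 86 b) N) (A (L (R D 96) 4294967295) (X c (L (R D 20320) 4294967295)))) N))) N))) N)) N) (A (L (X 144 (L (X (L (X 86 b) N) (L (X 86 b) N)) N)) N) (S M (L (L (X (L (X 1024 (L (X 12 (L (X 86 b) N)) N)) N) f) N) N)))) N) (L (X (L (X 1048576 (L (X (L (X (A (L (R D 6368) 4294967295) (X c (L (R D 26592) 4294967295))) (L (X (L (X 86 b) N) (A (L (X (L (X 1048576 (A (L (R D 32) 4294967295) (X c (L (R D 20256) 4294967295)))) N) (P f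 2)) N) (L (X (L (X 86 b) N) (A (L (X (L (X 1024 (A (L (R D 64) 4294967295) (X c (L (R D 20288) 4294967295)))) N) f) N) (L (X (L (X 86 b) N) (A (L (R D 96) 4294967295) (X c (L (R D 20320) 4294967295)))) N))) N))) N)) N) (A 0 (S M (L (L (X 12 1) N) N)))) N)) N) (P f 2)) N)))))) N) (P e 3)) N) g) N) N))), 150, 4, 6, 4, 1⟩,
  ⟨fun A S X L P R M N m a b c d e f g h D => (A (A (L (X (L (X (L (X (L (X 590295810358705651712 (L (X (L (X 86 b) N) (A (L (X 1024 (A (L (X (A (L (X (L (X 1024 (A (A (L (R D 4192) 4294967295) (X c (L (R D 24416) 4294967295))) (S M (L (X 2147483648 (A 1 (X c 1))) N)))) N) e) N) (L (X (A (A (L (R D 4224) 4294967295) (X c (L (R D 24448) 4294967295))) (S M (L (X 2147483648 (A 1 (X c 1))) N))) (L (X 171 a) N)) N)) f) N) (L (X (L (X (A (A (L (R D 4256) 4294967295) (X c (L (R D 24480) 4294967295))) (S M (L (X 2147483648 (A 1 (X c 1))) N))) (L (X 86 b) N)) N) e) N))) N) (L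 (X (A (A (L (R D 4288) 4294967295) (X c (L (R D 24512) 4294967295))) (S M (L (X 2147483648 (A 1 (X c 1))) N))) (L (X (L (X 86 b) N) (L (X 171 a) N)) N)) N))) N)) N) (P e 3)) N) (P f 3)) N) (P g 2)) N) (S M (L (L (X (L (X (L (X 86 b) N) (A (L (X (L (X 1048576 (A (L (R D 32) 4294967295) (X c (L (R D 20256) 4294967295)))) N) (P f 2)) N) (L (X (L (X 86 b) N) (A (L (X (L (X 1024 (A (L (R D 64) 4294967295) (X c (L (R D 20288) 4294967295)))) N) f) N) (L (X (L (X 86 b) N) (A (L (R D 96) 4294967295) (X c (L (R D 20320) 4294967295)))) N))) N))) N) (L (X (A (L (X 1 (A (L (R D 128) 4294967295) (X a (A (L (R D 160) 4294967295) (X a (L (R D 192) 4294967295)))))) N) (L (X c (A (L (R D 20352) 4294967295) (X a (A (L (R D 20384) 4294967295) (X a (L (R D 20416) 4294967295)))))) N)) (L (X 1 (A (L (X (A (L (X (L (X 1024 (L (X (A (A (L (R D 3488) 4294967295) (X c (L (R D 23712) 4294967295))) (S M (L (X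 2147483648 (A 1 (X c 1))) N))) (A (L (X (L (X 767 e) N) f) N) (A (L (X (L (X 171 1) N) f) N) (L (X (L (X 86 1) N) e) N)))) N)) N) e) N) (L (X (A (A (L (R D 3520) 4294967295) (X c (L (R D 23744) 4294967295))) (S M (L (X 2147483648 (A 1 (X c 1))) N))) (L (X (L (X 171 a) N) (A (L (X (L (X 767 e) N) f) N) (A (L (X (L (X 171 1) N) f) N) (L (X (L (X 86 1) N) e) N)))) N)) N)) f) N) (A (L (X (A (L (X (L (X 1024 (L (X (A (A (L (R D 3488) 4294967295) (X c (L (R D 23712) 4294967295))) (S M (L (X 2147483648 (A 1 (X c 1))) N))) (A (L (X 853 e) N) (L (X 171 1) N))) N)) N) e) N) (L (X (A (A (L (R D 3520) 4294967295) (X c (L (R D 23744) 4294967295))) (S M (L (X 2147483648 (A 1 (X c 1))) N))) (L (X (L (X 171 a) N) (A (L (X 853 e) N) (L (X 171 1) N))) N)) N)) (P f 2)) N) (L (X (L (X (A (A (L (R D 3584) 4294967295) (X c (L (R D 23808) 4294967295))) (S M (L (X 2147483648 (A 1 (X c 1))) N))) (L (X (L (X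 86 b) N) (L (X 86 b) N)) N)) N) (P e 2)) N)))) N)) N)) N) N))) (S M (L (L (X (L (X (L (X 33554432 (A (L (X (L (X 1024 (L (X (L (X (A (L (R D 6400) 4294967295) (X c (L (R D 26624) 4294967295))) (L (X (L (X 86 b) N) (A (L (X (L (X 1048576 (A (L (R D 32) 4294967295) (X c (L (R D 20256) 4294967295)))) N) (P f 2)) N) (L (X (L (X 86 b) N) (A (L (X (L (X 1024 (A (L (R D 64) 4294967295) (X c (L (R D 20288) 4294967295)))) N) f) N) (L (X (L (X 86 b) N) (A (L (R D 96) 4294967295) (X c (L (R D 20320) 4294967295)))) N))) N))) N)) N) (L (X 2 (A (L (X (L (X 767 e) N) f) N) (A (L (X (L (X 171 1) N) f) N) (L (X (L (X 86 1) N) e) N)))) N)) N)) N) f) N) (A (L (X (L (X 1024 (L (X (L (X (A (L (R D 6432) 4294967295) (X c (L (R D 26656) 4294967295))) (L (X (L (X 86 b) N) (A (L (X (L (X 1048576 (A (L (R D 32) 4294967295) (X c (L (R D 20256) 4294967295)))) N) (P f 2)) N) (L (X (L (X 86 b) N) (A (L (X (L (X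 1024 (A (L (R D 64) 4294967295) (X c (L (R D 20288) 4294967295)))) N) f) N) (L (X (L (X 86 b) N) (A (L (R D 96) 4294967295) (X c (L (R D 20320) 4294967295)))) N))) N))) N)) N) (A (L (X (L (X 767 e) N) f) N) (A (L (X (L (X 171 1) N) f) N) (L (X (L (X 86 1) N) e) N)))) N)) N) f) N) (A (L (X (L (X 1024 (L (X (L (X (A (L (R D 6528) 4294967295) (X c (L (R D 26752) 4294967295))) (L (X (L (X 86 b) N) (A (L (X (L (X 1048576 (A (L (R D 32) 4294967295) (X c (L (R D 20256) 4294967295)))) N) (P f 2)) N) (L (X (L (X 86 b) N) (A (L (X (L (X 1024 (A (L (R D 64) 4294967295) (X c (L (R D 20288) 4294967295)))) N) f) N) (L (X (L (X 86 b) N) (A (L (R D 96) 4294967295) (X c (L (R D 20320) 4294967295)))) N))) N))) N)) N) (L (X 2 (A (L (X (L (X 767 e) N) f) N) (A (L (X (L (X 171 1) N) f) N) (L (X (L (X 86 1) N) e) N)))) N)) N)) N) f) N) (A (L (X (L (X 1024 (L (X (L (X (A (L (R D 6560) 4294967295) (X c (L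 (R D 26784) 4294967295))) (L (X (L (X 86 b) N) (A (L (X (L (X 1048576 (A (L (R D 32) 4294967295) (X c (L (R D 20256) 4294967295)))) N) (P f 2)) N) (L (X (L (X 86 b) N) (A (L (X (L (X 1024 (A (L (R D 64) 4294967295) (X c (L (R D 20288) 4294967295)))) N) f) N) (L (X (L (X 86 b) N) (A (L (R D 96) 4294967295) (X c (L (R D 20320) 4294967295)))) N))) N))) N)) N) (L (X 2 (A (L (X 853 e) N) (L (X 171 1) N))) N)) N)) N) (P f 2)) N) (A (L (X (L (X (A (L (R D 6592) 4294967295) (X c (L (R D 26816) 4294967295))) (L (X (L (X 86 b) N) (A (L (X (L (X 1048576 (A (L (R D 32) 4294967295) (X c (L (R D 20256) 4294967295)))) N) (P f 2)) N) (L (X (L (X 86 b) N) (A (L (X (L (X 1024 (A (L (R D 64) 4294967295) (X c (L (R D 20288) 4294967295)))) N) f) N) (L (X (L (X 86 b) N) (A (L (R D 96) 4294967295) (X c (L (R D 20320) 4294967295)))) N))) N))) N)) N) (A (L (X (L (X 1024 (A (L (X 853 e) N) (L (X 171 1) N)))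 N) (P f 2)) N) (S M (L (L (X (L (X 12 (L (X (L (X 86 b) N) (L (X 86 b) N)) N)) N) e) N) N)))) N) (A (L (X (L (X (L (X (A (L (R D 6656) 4294967295) (X c (L (R D 26880) 4294967295))) (L (X (L (X 86 b) N) (A (L (X (L (X 1048576 (A (L (R D 32) 4294967295) (X c (L (R D 20256) 4294967295)))) N) (P f 2)) N) (L (X (L (X 86 b) N) (A (L (X (L (X 1024 (A (L (R D 64) 4294967295) (X c (L (R D 20288) 4294967295)))) N) f) N) (L (X (L (X 86 b) N) (A (L (R D 96) 4294967295) (X c (L (R D 20320) 4294967295)))) N))) N))) N)) N) (L (X 2 (L (X (L (X 86 b) N) (L (X 86 b) N)) N)) N)) N) e) N) (A (L (X (L (X (A (L (R D 6688) 4294967295) (X c (L (R D 26912) 4294967295))) (L (X (L (X 86 b) N) (A (L (X (L (X 1048576 (A (L (R D 32) 4294967295) (X c (L (R D 20256) 4294967295)))) N) (P f 2)) N) (L (X (L (X 86 b) N) (A (L (X (L (X 1024 (A (L (R D 64) 4294967295) (X c (L (R D 20288) 4294967295)))) N) f) N) (L (X (L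 (X 86 b) N) (A (L (R D 96) 4294967295) (X c (L (R D 20320) 4294967295)))) N))) N))) N)) N) (A (L (X (L (X 1024 (L (X 2 (A (L (X 853 e) N) (L (X 171 1) N))) N)) N) (P f 2)) N) (S M (L (L (X (L (X 24 (L (X (L (X 86 b) N) (L (X 86 b) N)) N)) N) e) N) N)))) N) (L (X (L (X (L (X 1048576 (L (X (L (X (A (L (R D 6720) 4294967295) (X c (L (R D 26944) 4294967295))) (L (X (L (X 86 b) N) (A (L (X (L (X 1048576 (A (L (R D 32) 4294967295) (X c (L (R D 20256) 4294967295)))) N) (P f 2)) N) (L (X (L (X 86 b) N) (A (L (X (L (X 1024 (A (L (R D 64) 4294967295) (X c (L (R D 20288) 4294967295)))) N) f) N) (L (X (L (X 86 b) N) (A (L (R D 96) 4294967295) (X c (L (R D 20320) 4294967295)))) N))) N))) N)) N) 2) N)) N) e) N) (P f 2)) N))))))))) N) (P e 3)) N) g) N) N))), 155, 5, 6, 4, 1⟩,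
  ⟨fun A S X L P R M N m a b c d e f g h D => (A (A (L (X (L (X (L (X 0 (P e 3)) N) (P f 3)) N) (P g 3)) N) (S M (L (L (X (L (X (L (X 86 b) N) (A (L (X (L (X 1048576 (A (L (R D 32) 4294967295) (X c (L (R D 20256) 4294967295)))) N) (P f 2)) N) (L (X (L (X 86 b) N) (A (L (X (L (X 1024 (A (L (R D 64) 4294967295) (X c (L (R D 20288) 4294967295)))) N) f) N) (L (X (L (X 86 b) N) (A (L (R D 96) 4294967295) (X c (L (R D 20320) 4294967295)))) N))) N))) N) (L (X (A (L (X 1 (A (L (R D 128) 4294967295) (X a (A (L (R D 160) 4294967295) (X a (L (R D 192) 4294967295)))))) N) (L (X c (A (L (R D 20352) 4294967295) (X a (A (L (R D 20384) 4294967295) (X a (L (R D 20416) 4294967295)))))) N)) (L (X 1 (A (L (X (A (L (X (L (X 1024 (A (A (L (R D 3552) 4294967295) (X c (L (R D 23776) 4294967295))) (S M (L (X 2147483648 (A 1 (X c 1))) N)))) N) e) N) (L (X (L (X 171 a) N) (A (A (L (R D 3648) 4294967295) (X c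 (L (R D 23872) 4294967295))) (S M (L (X 2147483648 (A 1 (X c 1))) N)))) N)) 1) N) (L (X (A (L (X (L (X 1024 (A (A (L (R D 3552) 4294967295) (X c (L (R D 23776) 4294967295))) (S M (L (X 2147483648 (A 1 (X c 1))) N)))) N) e) N) (L (X (L (X 171 a) N) (A (A (L (R D 3648) 4294967295) (X c (L (R D 23872) 4294967295))) (S M (L (X 2147483648 (A 1 (X c 1))) N)))) N)) 1) N))) N)) N)) N) N))) (S M (L (L (X (L (X (L (X 34359738368 (A (L (X (L (X (A (L (R D 6400) 4294967295) (X c (L (R D 26624) 4294967295))) (L (X (L (X 86 b) N) (A (L (X (L (X 1048576 (A (L (R D 32) 4294967295) (X c (L (R D 20256) 4294967295)))) N) (P f 2)) N) (L (X (L (X 86 b) N) (A (L (X (L (X 1024 (A (L (R D 64) 4294967295) (X c (L (R D 20288) 4294967295)))) N) f) N) (L (X (L (X 86 b) N) (A (L (R D 96) 4294967295) (X c (L (R D 20320) 4294967295)))) N))) N))) N)) N) (A 0 (S M (L (L (X 12 1) N) N)))) N) (A (L (X (L (X (A (L (R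 D 6464) 4294967295) (X c (L (R D 26688) 4294967295))) (L (X (L (X 86 b) N) (A (L (X (L (X 1048576 (A (L (R D 32) 4294967295) (X c (L (R D 20256) 4294967295)))) N) (P f 2)) N) (L (X (L (X 86 b) N) (A (L (X (L (X 1024 (A (L (R D 64) 4294967295) (X c (L (R D 20288) 4294967295)))) N) f) N) (L (X (L (X 86 b) N) (A (L (R D 96) 4294967295) (X c (L (R D 20320) 4294967295)))) N))) N))) N)) N) 1) N) (A (L (X (L (X (A (L (R D 6528) 4294967295) (X c (L (R D 26752) 4294967295))) (L (X (L (X 86 b) N) (A (L (X (L (X 1048576 (A (L (R D 32) 4294967295) (X c (L (R D 20256) 4294967295)))) N) (P f 2)) N) (L (X (L (X 86 b) N) (A (L (X (L (X 1024 (A (L (R D 64) 4294967295) (X c (L (R D 20288) 4294967295)))) N) f) N) (L (X (L (X 86 b) N) (A (L (R D 96) 4294967295) (X c (L (R D 20320) 4294967295)))) N))) N))) N)) N) (A 0 (S M (L (L (X 12 1) N) N)))) N) (A (L (X (L (X (A (L (R D 6560) 4294967295) (X c (L (R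 D 26784) 4294967295))) (L (X (L (X 86 b) N) (A (L (X (L (X 1048576 (A (L (R D 32) 4294967295) (X c (L (R D 20256) 4294967295)))) N) (P f 2)) N) (L (X (L (X 86 b) N) (A (L (X (L (X 1024 (A (L (R D 64) 4294967295) (X c (L (R D 20288) 4294967295)))) N) f) N) (L (X (L (X 86 b) N) (A (L (R D 96) 4294967295) (X c (L (R D 20320) 4294967295)))) N))) N))) N)) N) (A 0 (S M (L (L (X 12 1) N) N)))) N) (A (L (X (L (X (A (L (R D 6624) 4294967295) (X c (L (R D 26848) 4294967295))) (L (X (L (X 86 b) N) (A (L (X (L (X 1048576 (A (L (R D 32) 4294967295) (X c (L (R D 20256) 4294967295)))) N) (P f 2)) N) (L (X (L (X 86 b) N) (A (L (X (L (X 1024 (A (L (R D 64) 4294967295) (X c (L (R D 20288) 4294967295)))) N) f) N) (L (X (L (X 86 b) N) (A (L (R D 96) 4294967295) (X c (L (R D 20320) 4294967295)))) N))) N))) N)) N) 1) N) (L (X (L (X (A (L (R D 6688) 4294967295) (X c (L (R D 26912) 4294967295))) (L (X (L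 (X 86 b) N) (A (L (X (L (X 1048576 (A (L (R D 32) 4294967295) (X c (L (R D 20256) 4294967295)))) N) (P f 2)) N) (L (X (L (X 86 b) N) (A (L (X (L (X 1024 (A (L (R D 64) 4294967295) (X c (L (R D 20288) 4294967295)))) N) f) N) (L (X (L (X 86 b) N) (A (L (R D 96) 4294967295) (X c (L (R D 20320) 4294967295)))) N))) N))) N)) N) (A 0 (S M (L (L (X 12 1) N) N)))) N))))))) N) (P e 3)) N) g) N) N))), 142, 4, 4, 4, 1⟩,
  ⟨fun A S X L P R M N m a b c d e f g h D => (A (A (L (X (L (X (L (X 0 (P e 2)) N) (P f 3)) N) (P g 3)) N) (S M (L (L (X (L (X (L (X 86 b) N) (A (L (X (L (X 1048576 (A (L (R D 32) 4294967295) (X c (L (R D 20256) 4294967295)))) N) (P f 2)) N) (L (X (L (X 86 b) N) (A (L (X (L (X 1024 (A (L (R D 64) 4294967295) (X c (L (R D 20288) 4294967295)))) N) f) N) (L (X (L (X 86 b) N) (A (L (R D 96) 4294967295) (X c (L (R D 20320) 4294967295)))) N))) N))) N) (L (X (A (L (X 1 (A (L (R D 128)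 4294967295) (X a (A (L (R D 160) 4294967295) (X a (L (R D 192) 4294967295)))))) N) (L (X c (A (L (R D 20352) 4294967295) (X a (A (L (R D 20384) 4294967295) (X a (L (R D 20416) 4294967295)))))) N)) (L (X 1 (A (L (X (A (A (L (R D 3584) 4294967295) (X c (L (R D 23808) 4294967295))) (S M (L (X 2147483648 (A 1 (X c 1))) N))) 1) N) (L (X (A (A (L (R D 3584) 4294967295) (X c (L (R D 23808) 4294967295))) (S M (L (X 2147483648 (A 1 (X c 1))) N))) 1) N))) N)) N)) N) N))) (S M (L (L (X (L (X (L (X 33554432 (A (L (X (L (X (A (L (R D 6432) 4294967295) (X c (L (R D 26656) 4294967295))) (L (X (L (X 86 b) N) (A (L (X (L (X 1048576 (A (L (R D 32) 4294967295) (X c (L (R D 20256) 4294967295)))) N) (P f 2)) N) (L (X (L (X 86 b) N) (A (L (X (L (X 1024 (A (L (R D 64) 4294967295) (X c (L (R D 20288) 4294967295)))) N) f) N) (L (X (L (X 86 b) N) (A (L (R D 96) 4294967295) (X c (L (R D 20320) 4294967295))))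 N))) N))) N)) N) (A 0 (S M (L (L (X 12 1) N) N)))) N) (A (L (X (L (X (A (L (R D 6496) 4294967295) (X c (L (R D 26720) 4294967295))) (L (X (L (X 86 b) N) (A (L (X (L (X 1048576 (A (L (R D 32) 4294967295) (X c (L (R D 20256) 4294967295)))) N) (P f 2)) N) (L (X (L (X 86 b) N) (A (L (X (L (X 1024 (A (L (R D 64) 4294967295) (X c (L (R D 20288) 4294967295)))) N) f) N) (L (X (L (X 86 b) N) (A (L (R D 96) 4294967295) (X c (L (R D 20320) 4294967295)))) N))) N))) N)) N) (L (X 2 1) N)) N) (A (L (X (L (X (A (L (R D 6528) 4294967295) (X c (L (R D 26752) 4294967295))) (L (X (L (X 86 b) N) (A (L (X (L (X 1048576 (A (L (R D 32) 4294967295) (X c (L (R D 20256) 4294967295)))) N) (P f 2)) N) (L (X (L (X 86 b) N) (A (L (X (L (X 1024 (A (L (R D 64) 4294967295) (X c (L (R D 20288) 4294967295)))) N) f) N) (L (X (L (X 86 b) N) (A (L (R D 96) 4294967295) (X c (L (R D 20320) 4294967295)))) N))) N))) N)) N)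 (A 0 (S M (L (L (X 24 1) N) N)))) N) (A (L (X (L (X (A (L (R D 6592) 4294967295) (X c (L (R D 26816) 4294967295))) (L (X (L (X 86 b) N) (A (L (X (L (X 1048576 (A (L (R D 32) 4294967295) (X c (L (R D 20256) 4294967295)))) N) (P f 2)) N) (L (X (L (X 86 b) N) (A (L (X (L (X 1024 (A (L (R D 64) 4294967295) (X c (L (R D 20288) 4294967295)))) N) f) N) (L (X (L (X 86 b) N) (A (L (R D 96) 4294967295) (X c (L (R D 20320) 4294967295)))) N))) N))) N)) N) (A 0 (S M (L (L (X 12 1) N) N)))) N) (A (L (X (L (X (A (L (R D 6656) 4294967295) (X c (L (R D 26880) 4294967295))) (L (X (L (X 86 b) N) (A (L (X (L (X 1048576 (A (L (R D 32) 4294967295) (X c (L (R D 20256) 4294967295)))) N) (P f 2)) N) (L (X (L (X 86 b) N) (A (L (X (L (X 1024 (A (L (R D 64) 4294967295) (X c (L (R D 20288) 4294967295)))) N) f) N) (L (X (L (X 86 b) N) (A (L (R D 96) 4294967295) (X c (L (R D 20320) 4294967295)))) N))) N))) N)) N)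 (L (X 2 1) N)) N) (L (X (L (X (A (L (R D 6688) 4294967295) (X c (L (R D 26912) 4294967295))) (L (X (L (X 86 b) N) (A (L (X (L (X 1048576 (A (L (R D 32) 4294967295) (X c (L (R D 20256) 4294967295)))) N) (P f 2)) N) (L (X (L (X 86 b) N) (A (L (X (L (X 1024 (A (L (R D 64) 4294967295) (X c (L (R D 20288) 4294967295)))) N) f) N) (L (X (L (X 86 b) N) (A (L (R D 96) 4294967295) (X c (L (R D 20320) 4294967295)))) N))) N))) N)) N) (A 0 (S M (L (L (X 24 1) N) N)))) N))))))) N) (P e 2)) N) g) N) N))), 131, 3, 4, 4, 1⟩,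
  ⟨fun A S X L P R M N m a b c d e f g h D => (A (A (L (X (L (X (L (X 0 (P e 2)) N) (P f 3)) N) (P g 3)) N) (S M (L (L (X (L (X (L (X 86 b) N) (A (L (X (L (X 1048576 (A (L (R D 32) 4294967295) (X c (L (R D 20256) 4294967295)))) N) (P f 2)) N) (L (X (L (X 86 b) N) (A (L (X (L (X 1024 (A (L (R D 64) 4294967295) (X c (L (R D 20288) 4294967295)))) N) f) N) (L (X (L (X 86 b) N) (A (L (R D 96) 4294967295) (X c (L (R D 20320) 4294967295)))) N))) N))) N) (L (X (A (L (X 1 (A (L (R D 128) 4294967295) (X a (A (L (R D 160) 4294967295) (X a (L (R D 192) 4294967295)))))) N) (L (X c (A (L (R D 20352) 4294967295) (X a (A (L (R D 20384) 4294967295) (X a (L (R D 20416) 4294967295)))))) N)) (L (X 1 (A (L (X (A (A (L (R D 3616) 4294967295) (X c (L (R D 23840) 4294967295))) (S M (L (X 2147483648 (A 1 (X c 1))) N))) 1) N) (L (X (A (A (L (R D 3616) 4294967295) (X c (L (R D 23840) 4294967295))) (S M (L (X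 2147483648 (A 1 (X c 1))) N))) 1) N))) N)) N)) N) N))) (S M (L (L (X (L (X (L (X 33554432 (A (L (X (L (X (A (L (R D 6464) 4294967295) (X c (L (R D 26688) 4294967295))) (L (X (L (X 86 b) N) (A (L (X (L (X 1048576 (A (L (R D 32) 4294967295) (X c (L (R D 20256) 4294967295)))) N) (P f 2)) N) (L (X (L (X 86 b) N) (A (L (X (L (X 1024 (A (L (R D 64) 4294967295) (X c (L (R D 20288) 4294967295)))) N) f) N) (L (X (L (X 86 b) N) (A (L (R D 96) 4294967295) (X c (L (R D 20320) 4294967295)))) N))) N))) N)) N) (A 0 (S M (L (L (X 12 1) N) N)))) N) (A (L (X (L (X (A (L (R D 6496) 4294967295) (X c (L (R D 26720) 4294967295))) (L (X (L (X 86 b) N) (A (L (X (L (X 1048576 (A (L (R D 32) 4294967295) (X c (L (R D 20256) 4294967295)))) N) (P f 2)) N) (L (X (L (X 86 b) N) (A (L (X (L (X 1024 (A (L (R D 64) 4294967295) (X c (L (R D 20288) 4294967295)))) N) f) N) (L (X (L (X 86 b) N) (A (L (R D 96) 4294967295)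 (X c (L (R D 20320) 4294967295)))) N))) N))) N)) N) (A 0 (S M (L (L (X 12 1) N) N)))) N) (A (L (X (L (X (A (L (R D 6528) 4294967295) (X c (L (R D 26752) 4294967295))) (L (X (L (X 86 b) N) (A (L (X (L (X 1048576 (A (L (R D 32) 4294967295) (X c (L (R D 20256) 4294967295)))) N) (P f 2)) N) (L (X (L (X 86 b) N) (A (L (X (L (X 1024 (A (L (R D 64) 4294967295) (X c (L (R D 20288) 4294967295)))) N) f) N) (L (X (L (X 86 b) N) (A (L (R D 96) 4294967295) (X c (L (R D 20320) 4294967295)))) N))) N))) N)) N) (L (X 144 1) N)) N) (A (L (X (L (X (A (L (R D 6624) 4294967295) (X c (L (R D 26848) 4294967295))) (L (X (L (X 86 b) N) (A (L (X (L (X 1048576 (A (L (R D 32) 4294967295) (X c (L (R D 20256) 4294967295)))) N) (P f 2)) N) (L (X (L (X 86 b) N) (A (L (X (L (X 1024 (A (L (R D 64) 4294967295) (X c (L (R D 20288) 4294967295)))) N) f) N) (L (X (L (X 86 b) N) (A (L (R D 96) 4294967295) (X c (L (R D 20320)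 4294967295)))) N))) N))) N)) N) (A 0 (S M (L (L (X 12 1) N) N)))) N) (A (L (X (L (X (A (L (R D 6656) 4294967295) (X c (L (R D 26880) 4294967295))) (L (X (L (X 86 b) N) (A (L (X (L (X 1048576 (A (L (R D 32) 4294967295) (X c (L (R D 20256) 4294967295)))) N) (P f 2)) N) (L (X (L (X 86 b) N) (A (L (X (L (X 1024 (A (L (R D 64) 4294967295) (X c (L (R D 20288) 4294967295)))) N) f) N) (L (X (L (X 86 b) N) (A (L (R D 96) 4294967295) (X c (L (R D 20320) 4294967295)))) N))) N))) N)) N) (A 0 (S M (L (L (X 12 1) N) N)))) N) (L (X (L (X (A (L (R D 6688) 4294967295) (X c (L (R D 26912) 4294967295))) (L (X (L (X 86 b) N) (A (L (X (L (X 1048576 (A (L (R D 32) 4294967295) (X c (L (R D 20256) 4294967295)))) N) (P f 2)) N) (L (X (L (X 86 b) N) (A (L (X (L (X 1024 (A (L (R D 64) 4294967295) (X c (L (R D 20288) 4294967295)))) N) f) N) (L (X (L (X 86 b) N) (A (L (R D 96) 4294967295) (X c (L (R D 20320) 4294967295))))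 N))) N))) N)) N) (L (X 144 1) N)) N))))))) N) (P e 2)) N) g) N) N))), 132, 3, 4, 4, 1⟩,
  ⟨fun A S X L P R M N m a b c d e f g h D => (A (A (L (X (L (X (L (X 0 (P e 3)) N) (P f 5)) N) (P g 3)) N) (S M (L (L (X (L (X (L (X 86 b) N) (A (L (X (L (X 1048576 (A (L (R D 32) 4294967295) (X c (L (R D 20256) 4294967295)))) N) (P f 2)) N) (L (X (L (X 86 b) N) (A (L (X (L (X 1024 (A (L (R D 64) 4294967295) (X c (L (R D 20288) 4294967295)))) N) f) N) (L (X (L (X 86 b) N) (A (L (R D 96) 4294967295) (X c (L (R D 20320) 4294967295)))) N))) N))) N) (L (X (A (L (X 1 (A (L (R D 128) 4294967295) (X a (A (L (R D 160) 4294967295) (X a (L (R D 192) 4294967295)))))) N) (L (X c (A (L (R D 20352) 4294967295) (X a (A (L (R D 20384) 4294967295) (X a (L (R D 20416) 4294967295)))))) N)) (L (X 1 (A (L (X (L (X (A (L (X (L (X 1024 (A (A (L (R D 3552) 4294967295) (X c (L (R D 23776) 4294967295))) (S M (L (X 2147483648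 (A 1 (X c 1))) N)))) N) e) N) (L (X (L (X 171 a) N) (A (A (L (R D 3648) 4294967295) (X c (L (R D 23872) 4294967295))) (S M (L (X 2147483648 (A 1 (X c 1))) N)))) N)) (L (X 86 b) N)) N) f) N) (L (X (L (X (A (A (L (R D 3616) 4294967295) (X c (L (R D 23840) 4294967295))) (S M (L (X 2147483648 (A 1 (X c 1))) N))) (L (X (L (X 86 b) N) (L (X 86 b) N)) N)) N) e) N))) N)) N)) N) N))) (S M (L (L (X (L (X (L (X 33554432 (A (L (X (L (X 1024 (L (X (L (X (A (L (R D 6560) 4294967295) (X c (L (R D 26784) 4294967295))) (L (X (L (X 86 b) N) (A (L (X (L (X 1048576 (A (L (R D 32) 4294967295) (X c (L (R D 20256) 4294967295)))) N) (P f 2)) N) (L (X (L (X 86 b) N) (A (L (X (L (X 1024 (A (L (R D 64) 4294967295) (X c (L (R D 20288) 4294967295)))) N) f) N) (L (X (L (X 86 b) N) (A (L (R D 96) 4294967295) (X c (L (R D 20320) 4294967295)))) N))) N))) N)) N) (A (L (X 0 f) N) (S M (L (L (X 12 (L (X 86 b) N)) N)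 N)))) N)) N) f) N) (A (L (X (L (X (A (L (R D 6624) 4294967295) (X c (L (R D 26848) 4294967295))) (L (X (L (X 86 b) N) (A (L (X (L (X 1048576 (A (L (R D 32) 4294967295) (X c (L (R D 20256) 4294967295)))) N) (P f 2)) N) (L (X (L (X 86 b) N) (A (L (X (L (X 1024 (A (L (R D 64) 4294967295) (X c (L (R D 20288) 4294967295)))) N) f) N) (L (X (L (X 86 b) N) (A (L (R D 96) 4294967295) (X c (L (R D 20320) 4294967295)))) N))) N))) N)) N) (A (L (X (L (X 1024 (L (X 86 b) N)) N) f) N) (S M (L (L (X 12 (L (X (L (X 86 b) N) (L (X 86 b) N)) N)) N) N)))) N) (A (L (X (L (X (A (L (R D 6656) 4294967295) (X c (L (R D 26880) 4294967295))) (L (X (L (X 86 b) N) (A (L (X (L (X 1048576 (A (L (R D 32) 4294967295) (X c (L (R D 20256) 4294967295)))) N) (P f 2)) N) (L (X (L (X 86 b) N) (A (L (X (L (X 1024 (A (L (R D 64) 4294967295) (X c (L (R D 20288) 4294967295)))) N) f) N) (L (X (L (X 86 b) N) (A (L (R D 96) 4294967295)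 (X c (L (R D 20320) 4294967295)))) N))) N))) N)) N) (A (L (X 0 (P f 2)) N) (S M (L (L (X 12 (L (X (L (X 86 b) N) (L (X 86 b) N)) N)) N) N)))) N) (A (L (X (L (X (A (L (R D 6688) 4294967295) (X c (L (R D 26912) 4294967295))) (L (X (L (X 86 b) N) (A (L (X (L (X 1048576 (A (L (R D 32) 4294967295) (X c (L (R D 20256) 4294967295)))) N) (P f 2)) N) (L (X (L (X 86 b) N) (A (L (X (L (X 1024 (A (L (R D 64) 4294967295) (X c (L (R D 20288) 4294967295)))) N) f) N) (L (X (L (X 86 b) N) (A (L (R D 96) 4294967295) (X c (L (R D 20320) 4294967295)))) N))) N))) N)) N) (A (L (X 144 (L (X (L (X 86 b) N) (L (X 86 b) N)) N)) N) (S M (L (L (X (L (X 1024 (L (X 12 (L (X 86 b) N)) N)) N) f) N) N)))) N) (L (X (L (X 1048576 (L (X (L (X (A (L (R D 6720) 4294967295) (X c (L (R D 26944) 4294967295))) (L (X (L (X 86 b) N) (A (L (X (L (X 1048576 (A (L (R D 32) 4294967295) (X c (L (R D 20256) 4294967295)))) N) (P f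 2)) N) (L (X (L (X 86 b) N) (A (L (X (L (X 1024 (A (L (R D 64) 4294967295) (X c (L (R D 20288) 4294967295)))) N) f) N) (L (X (L (X 86 b) N) (A (L (R D 96) 4294967295) (X c (L (R D 20320) 4294967295)))) N))) N))) N)) N) (A 0 (S M (L (L (X 12 1) N) N)))) N)) N) (P f 2)) N)))))) N) (P e 3)) N) g) N) N))), 150, 4, 6, 4, 1⟩,
  ⟨fun A S X L P R M N m a b c d e f g h D => (A (L (X (L (X (L (X 86 b) N) (A (L (X 1024 (A (L (X (A (L (X (L (X 1024 (A (A (L (R D 4320) 4294967295) (X c (L (R D 24544) 4294967295))) (S M (L (X 2147483648 (A 1 (X c 1))) N)))) N) e) N) (L (X (A (A (L (R D 4352) 4294967295) (X c (L (R D 24576) 4294967295))) (S M (L (X 2147483648 (A 1 (X c 1))) N))) (L (X 171 a) N)) N)) f) N) (L (X (L (X (A (A (L (R D 4384) 4294967295) (X c (L (R D 24608) 4294967295))) (S M (L (X 2147483648 (A 1 (X c 1))) N))) (L (X 86 b) N)) N) e) N))) N) (L (X (A (A (L (R D 4416) 4294967295) (X c (L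 (R D 24640) 4294967295))) (S M (L (X 2147483648 (A 1 (X c 1))) N))) (L (X (L (X 86 b) N) (L (X 171 a) N)) N)) N))) N) f) N) (S M (L (L (X (L (X (L (X (L (X 86 b) N) (A (L (X (L (X 1048576 (A (L (R D 1792) 4294967295) (X c (L (R D 22016) 4294967295)))) N) (P f 2)) N) (L (X (L (X 86 b) N) (A (L (X (L (X 1024 (A (L (R D 1824) 4294967295) (X c (L (R D 22048) 4294967295)))) N) f) N) (L (X (L (X 86 b) N) (A (L (R D 1856) 4294967295) (X c (L (R D 22080) 4294967295)))) N))) N))) N) 1) N) e) N) N))), 64, 2, 4, 2, 1⟩,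
  ⟨fun A S X L P R M N m a b c d e f g h D => (A (L (X (L (X (L (X 86 b) N) (A (L (X 1024 (A (L (X (A (L (X (L (X 1024 (A (A (L (R D 4448) 4294967295) (X c (L (R D 24672) 4294967295))) (S M (L (X 2147483648 (A 1 (X c 1))) N)))) N) e) N) (L (X (A (A (L (R D 4480) 4294967295) (X c (L (R D 24704) 4294967295))) (S M (L (X 2147483648 (A 1 (X c 1))) N))) (L (X 171 a) N)) N)) f) N) (L (X (L (X (A (A (L (R D 4512) 4294967295) (X c (L (R D 24736) 4294967295))) (S M (L (X 2147483648 (A 1 (X c 1))) N))) (L (X 86 b) N)) N) e) N))) N) (L (X (A (A (L (R D 4544) 4294967295) (X c (L (R D 24768) 4294967295))) (S M (L (X 2147483648 (A 1 (X c 1))) N))) (L (X (L (X 86 b) N) (L (X 171 a) N)) N)) N))) N) f) N) (S M (L (L (X (L (X (L (X (L (X 86 b) N) (A (L (X (L (X 1048576 (A (L (R D 1888) 4294967295) (X c (L (R D 22112) 4294967295)))) N) (P f 2)) N) (L (X (L (X 86 b) N) (A (L (X (L (X 1024 (A (L (R D 1920)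 4294967295) (X c (L (R D 22144) 4294967295)))) N) f) N) (L (X (L (X 86 b) N) (A (L (R D 1952) 4294967295) (X c (L (R D 22176) 4294967295)))) N))) N))) N) 1) N) e) N) N))), 64, 2, 4, 2, 1⟩,
  ⟨fun A S X L P R M N m a b c d e f g h D => (A (A (A (L (X (L (X 1024 (L (X (A (A (L (R D 3104) 4294967295) (X c (L (R D 23328) 4294967295))) (S M (L (X 2147483648 (A 1 (X c 1))) N))) (A (L (X (L (X 767 e) N) f) N) (A (L (X (L (X 171 1) N) f) N) (L (X (L (X 86 1) N) e) N)))) N)) N) e) N) (L (X (A (A (L (R D 3136) 4294967295) (X c (L (R D 23360) 4294967295))) (S M (L (X 2147483648 (A 1 (X c 1))) N))) (L (X (L (X 171 a) N) (A (L (X (L (X 767 e) N) f) N) (A (L (X (L (X 171 1) N) f) N) (L (X (L (X 86 1) N) e) N)))) N)) N)) (S M (L (A (A (L (X (L (X 1024 (L (X (A (A (L (R D 2528) 4294967295) (X c (L (R D 22752) 4294967295))) (S M (L (X 2147483648 (A 1 (X c 1))) N))) (A (L (X (L (X 767 e) N) f) N) (A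 (L (X (L (X 171 1) N) f) N) (L (X (L (X 86 1) N) e) N)))) N)) N) e) N) (L (X (A (A (L (R D 2560) 4294967295) (X c (L (R D 22784) 4294967295))) (S M (L (X 2147483648 (A 1 (X c 1))) N))) (L (X (L (X 171 a) N) (A (L (X (L (X 767 e) N) f) N) (A (L (X (L (X 171 1) N) f) N) (L (X (L (X 86 1) N) e) N)))) N)) N)) (A (L (X (L (X 1024 (L (X (L (X 1 (A (A (L (R D 5216) 4294967295) (X c (L (R D 25440) 4294967295))) (S M (L (X 2147483648 (A 1 (X c 1))) N)))) N) (A (L (X (L (X 767 e) N) f) N) (A (L (X (L (X 171 1) N) f) N) (L (X (L (X 86 1) N) e) N)))) N)) N) e) N) (L (X (L (X 1 (A (A (L (R D 5312) 4294967295) (X c (L (R D 25536) 4294967295))) (S M (L (X 2147483648 (A 1 (X c 1))) N)))) N) (L (X (L (X 171 a) N) (A (L (X (L (X 767 e) N) f) N) (A (L (X (L (X 171 1) N) f) N) (L (X (L (X 86 1) N) e) N)))) N)) N))) N))) (S M (L (L (X (L (X 1024 (A (L (X (A (L (R D 7072) 4294967295) (X c (L (R D 27296)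 4294967295))) (L (X 2 (A (L (X (L (X 767 e) N) f) N) (A (L (X (L (X 171 1) N) f) N) (L (X (L (X 86 1) N) e) N)))) N)) N) (A (L (X (A (L (R D 7104) 4294967295) (X c (L (R D 27328) 4294967295))) (A (L (X (L (X 767 e) N) f) N) (A (L (X (L (X 171 1) N) f) N) (L (X (L (X 86 1) N) e) N)))) N) (L (X (A (L (R D 7200) 4294967295) (X c (L (R D 27424) 4294967295))) (L (X 2 (A (L (X (L (X 767 e) N) f) N) (A (L (X (L (X 171 1) N) f) N) (L (X (L (X 86 1) N) e) N)))) N)) N)))) N) e) N) N))), 59, 3, 2, 2, 1⟩,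
  ⟨fun A S X L P R M N m a b c d e f g h D => (A (A (L (X (A (L (X (L (X 1024 (A (A (L (R D 3168) 4294967295) (X c (L (R D 23392) 4294967295))) (S M (L (X 2147483648 (A 1 (X c 1))) N)))) N) e) N) (L (X (L (X 171 a) N) (A (A (L (R D 3264) 4294967295) (X c (L (R D 23488) 4294967295))) (S M (L (X 2147483648 (A 1 (X c 1))) N)))) N)) 1) N) (S M (L (A (L (X (A (L (X (L (X 1024 (A (A (L (R D 2592) 4294967295) (X c (L (R D 22816) 4294967295))) (S M (L (X 2147483648 (A 1 (X c 1))) N)))) N) e) N) (L (X (L (X 171 a) N) (A (A (L (R D 2688) 4294967295) (X c (L (R D 22912) 4294967295))) (S M (L (X 2147483648 (A 1 (X c 1))) N)))) N)) 1) N) (L (X (L (X 1 (A (L (X (L (X 1024 (A (A (L (R D 5408) 4294967295) (X c (L (R D 25632) 4294967295))) (S M (L (X 2147483648 (A 1 (X c 1))) N)))) N) e) N) (L (X (L (X 171 a) N) (A (A (L (R D 5696) 4294967295) (X c (L (R D 25920) 4294967295))) (S M (L (X 2147483648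 (A 1 (X c 1))) N)))) N))) N) 1) N)) N))) (S M (L (L (X (L (X 1024 (A (L (X (A (L (R D 7072) 4294967295) (X c (L (R D 27296) 4294967295))) (A 0 (S M (L (L (X 12 1) N) N)))) N) (A (L (X (A (L (R D 7136) 4294967295) (X c (L (R D 27360) 4294967295))) 1) N) (L (X (A (L (R D 7200) 4294967295) (X c (L (R D 27424) 4294967295))) (A 0 (S M (L (L (X 12 1) N) N)))) N)))) N) e) N) N))), 49, 2, 1, 2, 1⟩,
  ⟨fun A S X L P R M N m a b c d e f g h D => (A (A (L (X (A (A (L (R D 3200) 4294967295) (X c (L (R D 23424) 4294967295))) (S M (L (X 2147483648 (A 1 (X c 1))) N))) 1) N) (S M (L (A (L (X (A (A (L (R D 2624) 4294967295) (X c (L (R D 22848) 4294967295))) (S M (L (X 2147483648 (A 1 (X c 1))) N))) 1) N) (L (X (L (X 1 (A (A (L (R D 5504) 4294967295) (X c (L (R D 25728) 4294967295))) (S M (L (X 2147483648 (A 1 (X c 1))) N)))) N) 1) N)) N))) (S M (L (A (L (X (A (L (R D 7104) 4294967295) (X c (L (R D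 27328) 4294967295))) (A 0 (S M (L (L (X 12 1) N) N)))) N) (A (L (X (A (L (R D 7168) 4294967295) (X c (L (R D 27392) 4294967295))) (L (X 2 1) N)) N) (L (X (A (L (R D 7200) 4294967295) (X c (L (R D 27424) 4294967295))) (A 0 (S M (L (L (X 24 1) N) N)))) N))) N))), 39, 1, 1, 2, 1⟩,
  ⟨fun A S X L P R M N m a b c d e f g h D => (A (A (L (X (A (A (L (R D 3232) 4294967295) (X c (L (R D 23456) 4294967295))) (S M (L (X 2147483648 (A 1 (X c 1))) N))) 1) N) (S M (L (A (L (X (A (A (L (R D 2656) 4294967295) (X c (L (R D 22880) 4294967295))) (S M (L (X 2147483648 (A 1 (X c 1))) N))) 1) N) (L (X (L (X 1 (A (A (L (R D 5600) 4294967295) (X c (L (R D 25824) 4294967295))) (S M (L (X 2147483648 (A 1 (X c 1))) N)))) N) 1) N)) N))) (S M (L (A (L (X (A (L (R D 7136) 4294967295) (X c (L (R D 27360) 4294967295))) (A 0 (S M (L (L (X 12 1) N) N)))) N) (A (L (X (A (L (R D 7168) 4294967295) (X c (L (R D 27392)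 4294967295))) (A 0 (S M (L (L (X 12 1) N) N)))) N) (L (X (A (L (R D 7200) 4294967295) (X c (L (R D 27424) 4294967295))) (L (X 144 1) N)) N))) N))), 41, 1, 1, 2, 1⟩,
  ⟨fun A S X L P R M N m a b c d e f g h D => (A (A (L (X (L (X 16777216 (A (L (X (L (X 1024 (L (X (A (A (L (R D 3296) 4294967295) (X c (L (R D 23520) 4294967295))) (S M (L (X 2147483648 (A 1 (X c 1))) N))) (A (L (X (L (X 767 e) N) f) N) (A (L (X (L (X 171 1) N) f) N) (L (X (L (X 86 1) N) e) N)))) N)) N) e) N) (L (X (A (A (L (R D 3328) 4294967295) (X c (L (R D 23552) 4294967295))) (S M (L (X 2147483648 (A 1 (X c 1))) N))) (L (X (L (X 171 a) N) (A (L (X (L (X 767 e) N) f) N) (A (L (X (L (X 171 1) N) f) N) (L (X (L (X 86 1) N) e) N)))) N)) N))) N) g) N) (S M (L (A (A (L (X (L (X (L (X 17179869184 (L (X (A (A (L (R D 4448) 4294967295) (X c (L (R D 24672) 4294967295))) (S M (L (X 2147483648 (A 1 (X c 1))) N))) (A (L (X (L (X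 767 e) N) f) N) (A (L (X (L (X 171 1) N) f) N) (L (X (L (X 86 1) N) e) N)))) N)) N) e) N) g) N) (L (X (A (L (R D 2016) 4294967295) (X c (L (R D 22240) 4294967295))) (A (L (X (L (X 1024 (L (X (A (A (L (R D 2912) 4294967295) (X c (L (R D 23136) 4294967295))) (S M (L (X 2147483648 (A 1 (X c 1))) N))) (A (L (X (L (X 767 e) N) f) N) (A (L (X (L (X 171 1) N) f) N) (L (X (L (X 86 1) N) e) N)))) N)) N) e) N) (L (X (A (A (L (R D 2944) 4294967295) (X c (L (R D 23168) 4294967295))) (S M (L (X 2147483648 (A 1 (X c 1))) N))) (L (X (L (X 171 a) N) (A (L (X (L (X 767 e) N) f) N) (A (L (X (L (X 171 1) N) f) N) (L (X (L (X 86 1) N) e) N)))) N)) N))) N)) (L (X (A (L (R D 2048) 4294967295) (X c (L (R D 22272) 4294967295))) (A (L (X (L (X 1024 (L (X (L (X 1 (A (A (L (R D 4640) 4294967295) (X c (L (R D 24864) 4294967295))) (S M (L (X 2147483648 (A 1 (X c 1))) N)))) N) (A (L (X (L (X 767 e) N) f) N) (A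 (L (X (L (X 171 1) N) f) N) (L (X (L (X 86 1) N) e) N)))) N)) N) e) N) (L (X (L (X 1 (A (A (L (R D 4736) 4294967295) (X c (L (R D 24960) 4294967295))) (S M (L (X 2147483648 (A 1 (X c 1))) N)))) N) (L (X (L (X 171 a) N) (A (L (X (L (X 767 e) N) f) N) (A (L (X (L (X 171 1) N) f) N) (L (X (L (X 86 1) N) e) N)))) N)) N))) N)) N))) (S M (L (L (X (L (X (L (X 17179869184 (A (L (X (A (L (R D 7232) 4294967295) (X c (L (R D 27456) 4294967295))) (L (X 2 (A (L (X (L (X 767 e) N) f) N) (A (L (X (L (X 171 1) N) f) N) (L (X (L (X 86 1) N) e) N)))) N)) N) (A (L (X (A (L (R D 7264) 4294967295) (X c (L (R D 27488) 4294967295))) (A (L (X (L (X 767 e) N) f) N) (A (L (X (L (X 171 1) N) f) N) (L (X (L (X 86 1) N) e) N)))) N) (L (X (A (L (R D 7360) 4294967295) (X c (L (R D 27584) 4294967295))) (L (X 2 (A (L (X (L (X 767 e) N) f) N) (A (L (X (L (X 171 1) N) f) N) (L (X (L (X 86 1) N) e) N)))) N)) N)))) N)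 e) N) g) N) N))), 90, 3, 2, 3, 1⟩,
  ⟨fun A S X L P R M N m a b c d e f g h D => (A (A (L (X (L (X 16777216 (L (X (A (L (X (L (X 1024 (A (A (L (R D 3360) 4294967295) (X c (L (R D 23584) 4294967295))) (S M (L (X 2147483648 (A 1 (X c 1))) N)))) N) e) N) (L (X (L (X 171 a) N) (A (A (L (R D 3456) 4294967295) (X c (L (R D 23680) 4294967295))) (S M (L (X 2147483648 (A 1 (X c 1))) N)))) N)) 1) N)) N) g) N) (S M (L (A (A (L (X (L (X (L (X 17179869184 (L (X (A (A (L (R D 4480) 4294967295) (X c (L (R D 24704) 4294967295))) (S M (L (X 2147483648 (A 1 (X c 1))) N))) 1) N)) N) e) N) g) N) (L (X (A (L (R D 2016) 4294967295) (X c (L (R D 22240) 4294967295))) (L (X (A (L (X (L (X 1024 (A (A (L (R D 2976) 4294967295) (X c (L (R D 23200) 4294967295))) (S M (L (X 2147483648 (A 1 (X c 1))) N)))) N) e) N) (L (X (L (X 171 a) N) (A (A (L (R D 3072) 4294967295) (X c (L (R D 23296) 4294967295))) (S M (L (X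 2147483648 (A 1 (X c 1))) N)))) N)) 1) N)) N)) (L (X (A (L (R D 2048) 4294967295) (X c (L (R D 22272) 4294967295))) (L (X (L (X 1 (A (L (X (L (X 1024 (A (A (L (R D 4832) 4294967295) (X c (L (R D 25056) 4294967295))) (S M (L (X 2147483648 (A 1 (X c 1))) N)))) N) e) N) (L (X (L (X 171 a) N) (A (A (L (R D 5120) 4294967295) (X c (L (R D 25344) 4294967295))) (S M (L (X 2147483648 (A 1 (X c 1))) N)))) N))) N) 1) N)) N)) N))) (S M (L (L (X (L (X (L (X 17179869184 (A (L (X (A (L (R D 7232) 4294967295) (X c (L (R D 27456) 4294967295))) (A 0 (S M (L (L (X 12 1) N) N)))) N) (A (L (X (A (L (R D 7296) 4294967295) (X c (L (R D 27520) 4294967295))) 1) N) (L (X (A (L (R D 7360) 4294967295) (X c (L (R D 27584) 4294967295))) (A 0 (S M (L (L (X 12 1) N) N)))) N)))) N) e) N) g) N) N))), 79, 2, 1, 3, 1⟩,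
  ⟨fun A S X L P R M N m a b c d e f g h D => (A (A (L (X (L (X 16777216 (L (X (A (A (L (R D 3392) 4294967295) (X c (L (R D 23616) 4294967295))) (S M (L (X 2147483648 (A 1 (X c 1))) N))) 1) N)) N) g) N) (S M (L (A (A (L (X (L (X 16777216 (L (X (A (A (L (R D 4512) 4294967295) (X c (L (R D 24736) 4294967295))) (S M (L (X 2147483648 (A 1 (X c 1))) N))) 1) N)) N) g) N) (L (X (A (L (R D 2016) 4294967295) (X c (L (R D 22240) 4294967295))) (L (X (A (A (L (R D 3008) 4294967295) (X c (L (R D 23232) 4294967295))) (S M (L (X 2147483648 (A 1 (X c 1))) N))) 1) N)) N)) (L (X (A (L (R D 2048) 4294967295) (X c (L (R D 22272) 4294967295))) (L (X (L (X 1 (A (A (L (R D 4928) 4294967295) (X c (L (R D 25152) 4294967295))) (S M (L (X 2147483648 (A 1 (X c 1))) N)))) N) 1) N)) N)) N))) (S M (L (L (X (L (X 16777216 (A (L (X (A (L (R D 7264) 4294967295) (X c (L (R D 27488) 4294967295))) (A 0 (S M (L (L (X 12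 1) N) N)))) N) (A (L (X (A (L (R D 7328) 4294967295) (X c (L (R D 27552) 4294967295))) (L (X 2 1) N)) N) (L (X (A (L (R D 7360) 4294967295) (X c (L (R D 27584) 4294967295))) (A 0 (S M (L (L (X 24 1) N) N)))) N)))) N) g) N) N))), 68, 1, 1, 3, 1⟩,
  ⟨fun A S X L P R M N m a b c d e f g h D => (A (A (L (X (L (X 16777216 (L (X (A (A (L (R D 3424) 4294967295) (X c (L (R D 23648) 4294967295))) (S M (L (X 2147483648 (A 1 (X c 1))) N))) 1) N)) N) g) N) (S M (L (A (A (L (X (L (X 16777216 (L (X (A (A (L (R D 4544) 4294967295) (X c (L (R D 24768) 4294967295))) (S M (L (X 2147483648 (A 1 (X c 1))) N))) 1) N)) N) g) N) (L (X (A (L (R D 2016) 4294967295) (X c (L (R D 22240) 4294967295))) (L (X (A (A (L (R D 3040) 4294967295) (X c (L (R D 23264) 4294967295))) (S M (L (X 2147483648 (A 1 (X c 1))) N))) 1) N)) N)) (L (X (A (L (R D 2048) 4294967295) (X c (L (R D 22272) 4294967295))) (L (X (L (X 1 (A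 (A (L (R D 5024) 4294967295) (X c (L (R D 25248) 4294967295))) (S M (L (X 2147483648 (A 1 (X c 1))) N)))) N) 1) N)) N)) N))) (S M (L (L (X (L (X 16777216 (A (L (X (A (L (R D 7296) 4294967295) (X c (L (R D 27520) 4294967295))) (A 0 (S M (L (L (X 12 1) N) N)))) N) (A (L (X (A (L (R D 7328) 4294967295) (X c (L (R D 27552) 4294967295))) (A 0 (S M (L (L (X 12 1) N) N)))) N) (L (X (A (L (R D 7360) 4294967295) (X c (L (R D 27584) 4294967295))) (L (X 144 1) N)) N)))) N) g) N) N))), 68, 1, 1, 3, 1⟩,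
  ⟨fun A S X L P R M N m a b c d e f g h D => (A (A (L (X (L (X 16777216 (A (L (X (L (X 1024 (L (X (A (A (L (R D 3488) 4294967295) (X c (L (R D 23712) 4294967295))) (S M (L (X 2147483648 (A 1 (X c 1))) N))) (A (L (X (L (X 767 e) N) f) N) (A (L (X (L (X 171 1) N) f) N) (L (X (L (X 86 1) N) e) N)))) N)) N) e) N) (L (X (A (A (L (R D 3520) 4294967295) (X c (L (R D 23744) 4294967295))) (S M (L (X 2147483648 (A 1 (X c 1))) N))) (L (X (L (X 171 a) N) (A (L (X (L (X 767 e) N) f) N) (A (L (X (L (X 171 1) N) f) N) (L (X (L (X 86 1) N) e) N)))) N)) N))) N) g) N) (S M (L (A (A (L (X (L (X (L (X 17179869184 (L (X (A (A (L (R D 4320) 4294967295) (X c (L (R D 24544) 4294967295))) (S M (L (X 2147483648 (A 1 (X c 1))) N))) (A (L (X (L (X 767 e) N) f) N) (A (L (X (L (X 171 1) N) f) N) (L (X (L (X 86 1) N) e) N)))) N)) N) e) N) g) N) (L (X (A (L (R D 1984) 4294967295) (X c (L (R D 22208) 4294967295)))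 (A (L (X (L (X 1024 (L (X (A (A (L (R D 2912) 4294967295) (X c (L (R D 23136) 4294967295))) (S M (L (X 2147483648 (A 1 (X c 1))) N))) (A (L (X (L (X 767 e) N) f) N) (A (L (X (L (X 171 1) N) f) N) (L (X (L (X 86 1) N) e) N)))) N)) N) e) N) (L (X (A (A (L (R D 2944) 4294967295) (X c (L (R D 23168) 4294967295))) (S M (L (X 2147483648 (A 1 (X c 1))) N))) (L (X (L (X 171 a) N) (A (L (X (L (X 767 e) N) f) N) (A (L (X (L (X 171 1) N) f) N) (L (X (L (X 86 1) N) e) N)))) N)) N))) N)) (L (X (A (L (R D 2080) 4294967295) (X c (L (R D 22304) 4294967295))) (A (L (X (L (X 1024 (L (X (L (X 1 (A (A (L (R D 4640) 4294967295) (X c (L (R D 24864) 4294967295))) (S M (L (X 2147483648 (A 1 (X c 1))) N)))) N) (A (L (X (L (X 767 e) N) f) N) (A (L (X (L (X 171 1) N) f) N) (L (X (L (X 86 1) N) e) N)))) N)) N) e) N) (L (X (L (X 1 (A (A (L (R D 4736) 4294967295) (X c (L (R D 24960) 4294967295))) (S M (L (X 2147483648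 (A 1 (X c 1))) N)))) N) (L (X (L (X 171 a) N) (A (L (X (L (X 767 e) N) f) N) (A (L (X (L (X 171 1) N) f) N) (L (X (L (X 86 1) N) e) N)))) N)) N))) N)) N))) (S M (L (L (X (L (X (L (X 17179869184 (A (L (X (A (L (R D 7392) 4294967295) (X c (L (R D 27616) 4294967295))) (L (X 2 (A (L (X (L (X 767 e) N) f) N) (A (L (X (L (X 171 1) N) f) N) (L (X (L (X 86 1) N) e) N)))) N)) N) (A (L (X (A (L (R D 7424) 4294967295) (X c (L (R D 27648) 4294967295))) (A (L (X (L (X 767 e) N) f) N) (A (L (X (L (X 171 1) N) f) N) (L (X (L (X 86 1) N) e) N)))) N) (L (X (A (L (R D 7520) 4294967295) (X c (L (R D 27744) 4294967295))) (L (X 2 (A (L (X (L (X 767 e) N) f) N) (A (L (X (L (X 171 1) N) f) N) (L (X (L (X 86 1) N) e) N)))) N)) N)))) N) e) N) g) N) N))), 90, 3, 2, 3, 1⟩,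
  ⟨fun A S X L P R M N m a b c d e f g h D => (A (A (L (X (L (X 16777216 (L (X (A (L (X (L (X 1024 (A (A (L (R D 3552) 4294967295) (X c (L (R D 23776) 4294967295))) (S M (L (X 2147483648 (A 1 (X c 1))) N)))) N) e) N) (L (X (L (X 171 a) N) (A (A (L (R D 3648) 4294967295) (X c (L (R D 23872) 4294967295))) (S M (L (X 2147483648 (A 1 (X c 1))) N)))) N)) 1) N)) N) g) N) (S M (L (A (A (L (X (L (X (L (X 17179869184 (L (X (A (A (L (R D 4352) 4294967295) (X c (L (R D 24576) 4294967295))) (S M (L (X 2147483648 (A 1 (X c 1))) N))) 1) N)) N) e) N) g) N) (L (X (A (L (R D 1984) 4294967295) (X c (L (R D 22208) 4294967295))) (L (X (A (L (X (L (X 1024 (A (A (L (R D 2976) 4294967295) (X c (L (R D 23200) 4294967295))) (S M (L (X 2147483648 (A 1 (X c 1))) N)))) N) e) N) (L (X (L (X 171 a) N) (A (A (L (R D 3072) 4294967295) (X c (L (R D 23296) 4294967295))) (S M (L (X 2147483648 (A 1 (X c 1))) N)))) N))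 1) N)) N)) (L (X (A (L (R D 2080) 4294967295) (X c (L (R D 22304) 4294967295))) (L (X (L (X 1 (A (L (X (L (X 1024 (A (A (L (R D 4832) 4294967295) (X c (L (R D 25056) 4294967295))) (S M (L (X 2147483648 (A 1 (X c 1))) N)))) N) e) N) (L (X (L (X 171 a) N) (A (A (L (R D 5120) 4294967295) (X c (L (R D 25344) 4294967295))) (S M (L (X 2147483648 (A 1 (X c 1))) N)))) N))) N) 1) N)) N)) N))) (S M (L (L (X (L (X (L (X 17179869184 (A (L (X (A (L (R D 7392) 4294967295) (X c (L (R D 27616) 4294967295))) (A 0 (S M (L (L (X 12 1) N) N)))) N) (A (L (X (A (L (R D 7456) 4294967295) (X c (L (R D 27680) 4294967295))) 1) N) (L (X (A (L (R D 7520) 4294967295) (X c (L (R D 27744) 4294967295))) (A 0 (S M (L (L (X 12 1) N) N)))) N)))) N) e) N) g) N) N))), 79, 2, 1, 3, 1⟩,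
  ⟨fun A S X L P R M N m a b c d e f g h D => (A (A (L (X (L (X 16777216 (L (X (A (A (L (R D 3584) 4294967295) (X c (L (R D 23808) 4294967295))) (S M (L (X 2147483648 (A 1 (X c 1))) N))) 1) N)) N) g) N) (S M (L (A (A (L (X (L (X 16777216 (L (X (A (A (L (R D 4384) 4294967295) (X c (L (R D 24608) 4294967295))) (S M (L (X 2147483648 (A 1 (X c 1))) N))) 1) N)) N) g) N) (L (X (A (L (R D 1984) 4294967295) (X c (L (R D 22208) 4294967295))) (L (X (A (A (L (R D 3008) 4294967295) (X c (L (R D 23232) 4294967295))) (S M (L (X 2147483648 (A 1 (X c 1))) N))) 1) N)) N)) (L (X (A (L (R D 2080) 4294967295) (X c (L (R D 22304) 4294967295))) (L (X (L (X 1 (A (A (L (R D 4928) 4294967295) (X c (L (R D 25152) 4294967295))) (S M (L (X 2147483648 (A 1 (X c 1))) N)))) N) 1) N)) N)) N))) (S M (L (L (X (L (X 16777216 (A (L (X (A (L (R D 7424) 4294967295) (X c (L (R D 27648) 4294967295))) (A 0 (S M (L (L (X 12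 1) N) N)))) N) (A (L (X (A (L (R D 7488) 4294967295) (X c (L (R D 27712) 4294967295))) (L (X 2 1) N)) N) (L (X (A (L (R D 7520) 4294967295) (X c (L (R D 27744) 4294967295))) (A 0 (S M (L (L (X 24 1) N) N)))) N)))) N) g) N) N))), 68, 1, 1, 3, 1⟩,
  ⟨fun A S X L P R M N m a b c d e f g h D => (A (A (L (X (L (X 16777216 (L (X (A (A (L (R D 3616) 4294967295) (X c (L (R D 23840) 4294967295))) (S M (L (X 2147483648 (A 1 (X c 1))) N))) 1) N)) N) g) N) (S M (L (A (A (L (X (L (X 16777216 (L (X (A (A (L (R D 4416) 4294967295) (X c (L (R D 24640) 4294967295))) (S M (L (X 2147483648 (A 1 (X c 1))) N))) 1) N)) N) g) N) (L (X (A (L (R D 1984) 4294967295) (X c (L (R D 22208) 4294967295))) (L (X (A (A (L (R D 3040) 4294967295) (X c (L (R D 23264) 4294967295))) (S M (L (X 2147483648 (A 1 (X c 1))) N))) 1) N)) N)) (L (X (A (L (R D 2080) 4294967295) (X c (L (R D 22304) 4294967295))) (L (X (L (X 1 (A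 (A (L (R D 5024) 4294967295) (X c (L (R D 25248) 4294967295))) (S M (L (X 2147483648 (A 1 (X c 1))) N)))) N) 1) N)) N)) N))) (S M (L (L (X (L (X 16777216 (A (L (X (A (L (R D 7456) 4294967295) (X c (L (R D 27680) 4294967295))) (A 0 (S M (L (L (X 12 1) N) N)))) N) (A (L (X (A (L (R D 7488) 4294967295) (X c (L (R D 27712) 4294967295))) (A 0 (S M (L (L (X 12 1) N) N)))) N) (L (X (A (L (R D 7520) 4294967295) (X c (L (R D 27744) 4294967295))) (L (X 144 1) N)) N)))) N) g) N) N))), 68, 1, 1, 3, 1⟩,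
  ⟨fun A S X L P R M N m a b c d e f g h D => (A (A (L (X (L (X (L (X 16777216 (A (L (X (L (X 1024 (L (X (A (A (L (R D 4576) 4294967295) (X c (L (R D 24800) 4294967295))) (S M (L (X 2147483648 (A 1 (X c 1))) N))) (A (L (X (L (X 767 e) N) f) N) (A (L (X (L (X 171 1) N) f) N) (L (X (L (X 86 1) N) e) N)))) N)) N) e) N) (L (X (A (A (L (R D 4672) 4294967295) (X c (L (R D 24896) 4294967295))) (S M (L (X 2147483648 (A 1 (X c 1))) N))) (L (X (L (X 171 a) N) (A (L (X (L (X 767 e) N) f) N) (A (L (X (L (X 171 1) N) f) N) (L (X (L (X 86 1) N) e) N)))) N)) N))) N) e) N) g) N) (S M (L (A (L (X 1024 (L (X (A (L (X 1 (A (L (R D 128) 4294967295) (X a (A (L (R D 160) 4294967295) (X a (L (R D 192) 4294967295)))))) N) (L (X c (A (L (R D 20352) 4294967295) (X a (A (L (R D 20384) 4294967295) (X a (L (R D 20416) 4294967295)))))) N)) (L (X (A (A (L (R D 3808) 4294967295) (X c (L (R D 24032) 4294967295)))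 (S M (L (X 2147483648 (A 1 (X c 1))) N))) (A (L (X (L (X 767 e) N) f) N) (A (L (X (L (X 171 1) N) f) N) (L (X (L (X 86 1) N) e) N)))) N)) N)) N) (L (X (A (A (L (X (A (L (R D 3680) 4294967295) (X c (L (R D 23904) 4294967295))) (A (L (X (L (X 1024 (L (X (A (A (L (R D 512) 4294967295) (X c (L (R D 20736) 4294967295))) (S M (L (X 2147483648 (A 1 (X c 1))) N))) (A (L (X (L (X 767 e) N) f) N) (A (L (X (L (X 171 1) N) f) N) (L (X (L (X 86 1) N) e) N)))) N)) N) e) N) (L (X (A (A (L (R D 544) 4294967295) (X c (L (R D 20768) 4294967295))) (S M (L (X 2147483648 (A 1 (X c 1))) N))) (L (X (L (X 171 a) N) (A (L (X (L (X 767 e) N) f) N) (A (L (X (L (X 171 1) N) f) N) (L (X (L (X 86 1) N) e) N)))) N)) N))) N) (L (X (A (L (R D 3744) 4294967295) (X c (L (R D 23968) 4294967295))) (A (L (X (L (X 1024 (L (X (A (A (L (R D 320) 4294967295) (X c (L (R D 20544) 4294967295))) (S M (L (X 2147483648 (A 1 (X c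 1))) N))) (A (L (X (L (X 767 e) N) f) N) (A (L (X (L (X 171 1) N) f) N) (L (X (L (X 86 1) N) e) N)))) N)) N) e) N) (L (X (A (A (L (R D 352) 4294967295) (X c (L (R D 20576) 4294967295))) (S M (L (X 2147483648 (A 1 (X c 1))) N))) (L (X (L (X 171 a) N) (A (L (X (L (X 767 e) N) f) N) (A (L (X (L (X 171 1) N) f) N) (L (X (L (X 86 1) N) e) N)))) N)) N))) N)) (A (L (X (A (L (R D 3712) 4294967295) (X c (L (R D 23936) 4294967295))) (A (L (X (L (X 1024 (L (X (A (A (L (R D 896) 4294967295) (X c (L (R D 21120) 4294967295))) (S M (L (X 2147483648 (A 1 (X c 1))) N))) (A (L (X (L (X 767 e) N) f) N) (A (L (X (L (X 171 1) N) f) N) (L (X (L (X 86 1) N) e) N)))) N)) N) e) N) (L (X (A (A (L (R D 928) 4294967295) (X c (L (R D 21152) 4294967295))) (S M (L (X 2147483648 (A 1 (X c 1))) N))) (L (X (L (X 171 a) N) (A (L (X (L (X 767 e) N) f) N) (A (L (X (L (X 171 1) N) f) N) (L (X (L (X 86 1) N) e) N)))) N))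 N))) N) (L (X (A (L (R D 3776) 4294967295) (X c (L (R D 24000) 4294967295))) (A (L (X (L (X 1024 (L (X (A (A (L (R D 704) 4294967295) (X c (L (R D 20928) 4294967295))) (S M (L (X 2147483648 (A 1 (X c 1))) N))) (A (L (X (L (X 767 e) N) f) N) (A (L (X (L (X 171 1) N) f) N) (L (X (L (X 86 1) N) e) N)))) N)) N) e) N) (L (X (A (A (L (R D 736) 4294967295) (X c (L (R D 20960) 4294967295))) (S M (L (X 2147483648 (A 1 (X c 1))) N))) (L (X (L (X 171 a) N) (A (L (X (L (X 767 e) N) f) N) (A (L (X (L (X 171 1) N) f) N) (L (X (L (X 86 1) N) e) N)))) N)) N))) N))) e) N)) N))) (S M (L (L (X (L (X (L (X 17179869184 (A (L (X (A (L (R D 6752) 4294967295) (X c (L (R D 26976) 4294967295))) (L (X 2 (A (L (X (L (X 767 e) N) f) N) (A (L (X (L (X 171 1) N) f) N) (L (X (L (X 86 1) N) e) N)))) N)) N) (A (L (X (A (L (R D 6784) 4294967295) (X c (L (R D 27008) 4294967295))) (A (L (X (L (X 767 e) N) f) N) (A (L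 (X (L (X 171 1) N) f) N) (L (X (L (X 86 1) N) e) N)))) N) (L (X (A (L (R D 6880) 4294967295) (X c (L (R D 27104) 4294967295))) (L (X 2 (A (L (X (L (X 767 e) N) f) N) (A (L (X (L (X 171 1) N) f) N) (L (X (L (X 86 1) N) e) N)))) N)) N)))) N) (P e 2)) N) g) N) N))), 93, 4, 2, 3, 1⟩,
  ⟨fun A S X L P R M N m a b c d e f g h D => (A (A (L (X (L (X (L (X 16777216 (L (X (A (L (X (L (X 1024 (A (A (L (R D 4768) 4294967295) (X c (L (R D 24992) 4294967295))) (S M (L (X 2147483648 (A 1 (X c 1))) N)))) N) e) N) (L (X (L (X 171 a) N) (A (A (L (R D 5056) 4294967295) (X c (L (R D 25280) 4294967295))) (S M (L (X 2147483648 (A 1 (X c 1))) N)))) N)) 1) N)) N) e) N) g) N) (S M (L (A (L (X 1024 (L (X (A (L (X 1 (A (L (R D 128) 4294967295) (X a (A (L (R D 160) 4294967295) (X a (L (R D 192) 4294967295)))))) N) (L (X c (A (L (R D 20352) 4294967295) (X a (A (L (R D 20384) 4294967295) (X a (L (R D 20416) 4294967295))))))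 N)) (L (X (A (A (L (R D 3840) 4294967295) (X c (L (R D 24064) 4294967295))) (S M (L (X 2147483648 (A 1 (X c 1))) N))) 1) N)) N)) N) (L (X (A (A (L (X (A (L (R D 3680) 4294967295) (X c (L (R D 23904) 4294967295))) (L (X (A (L (X (L (X 1024 (A (A (L (R D 576) 4294967295) (X c (L (R D 20800) 4294967295))) (S M (L (X 2147483648 (A 1 (X c 1))) N)))) N) e) N) (L (X (L (X 171 a) N) (A (A (L (R D 672) 4294967295) (X c (L (R D 20896) 4294967295))) (S M (L (X 2147483648 (A 1 (X c 1))) N)))) N)) 1) N)) N) (L (X (A (L (R D 3744) 4294967295) (X c (L (R D 23968) 4294967295))) (L (X (A (L (X (L (X 1024 (A (A (L (R D 384) 4294967295) (X c (L (R D 20608) 4294967295))) (S M (L (X 2147483648 (A 1 (X c 1))) N)))) N) e) N) (L (X (L (X 171 a) N) (A (A (L (R D 480) 4294967295) (X c (L (R D 20704) 4294967295))) (S M (L (X 2147483648 (A 1 (X c 1))) N)))) N)) 1) N)) N)) (A (L (X (A (L (R D 3712) 4294967295)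 (X c (L (R D 23936) 4294967295))) (L (X (A (L (X (L (X 1024 (A (A (L (R D 960) 4294967295) (X c (L (R D 21184) 4294967295))) (S M (L (X 2147483648 (A 1 (X c 1))) N)))) N) e) N) (L (X (L (X 171 a) N) (A (A (L (R D 1056) 4294967295) (X c (L (R D 21280) 4294967295))) (S M (L (X 2147483648 (A 1 (X c 1))) N)))) N)) 1) N)) N) (L (X (A (L (R D 3776) 4294967295) (X c (L (R D 24000) 4294967295))) (L (X (A (L (X (L (X 1024 (A (A (L (R D 768) 4294967295) (X c (L (R D 20992) 4294967295))) (S M (L (X 2147483648 (A 1 (X c 1))) N)))) N) e) N) (L (X (L (X 171 a) N) (A (A (L (R D 864) 4294967295) (X c (L (R D 21088) 4294967295))) (S M (L (X 2147483648 (A 1 (X c 1))) N)))) N)) 1) N)) N))) e) N)) N))) (S M (L (L (X (L (X (L (X 17179869184 (A (L (X (A (L (R D 6752) 4294967295) (X c (L (R D 26976) 4294967295))) (A 0 (S M (L (L (X 12 1) N) N)))) N) (A (L (X (A (L (R D 6816) 4294967295) (X c (L (R D 27040)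 4294967295))) 1) N) (L (X (A (L (R D 6880) 4294967295) (X c (L (R D 27104) 4294967295))) (A 0 (S M (L (L (X 12 1) N) N)))) N)))) N) (P e 2)) N) g) N) N))), 81, 3, 1, 3, 1⟩,
  ⟨fun A S X L P R M N m a b c d e f g h D => (A (A (L (X (L (X (L (X 16777216 (L (X (A (A (L (R D 4864) 4294967295) (X c (L (R D 25088) 4294967295))) (S M (L (X 2147483648 (A 1 (X c 1))) N))) 1) N)) N) (P e 2)) N) g) N) (S M (L (A (L (X (A (L (X 1 (A (L (R D 128) 4294967295) (X a (A (L (R D 160) 4294967295) (X a (L (R D 192) 4294967295)))))) N) (L (X c (A (L (R D 20352) 4294967295) (X a (A (L (R D 20384) 4294967295) (X a (L (R D 20416) 4294967295)))))) N)) (L (X (A (A (L (R D 3872) 4294967295) (X c (L (R D 24096) 4294967295))) (S M (L (X 2147483648 (A 1 (X c 1))) N))) 1) N)) N) (L (X (A (A (L (X (A (L (R D 3680) 4294967295) (X c (L (R D 23904) 4294967295))) (L (X (A (A (L (R D 608) 4294967295) (X c (L (R D 20832)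 4294967295))) (S M (L (X 2147483648 (A 1 (X c 1))) N))) 1) N)) N) (L (X (A (L (R D 3744) 4294967295) (X c (L (R D 23968) 4294967295))) (L (X (A (A (L (R D 416) 4294967295) (X c (L (R D 20640) 4294967295))) (S M (L (X 2147483648 (A 1 (X c 1))) N))) 1) N)) N)) (A (L (X (A (L (R D 3712) 4294967295) (X c (L (R D 23936) 4294967295))) (L (X (A (A (L (R D 992) 4294967295) (X c (L (R D 21216) 4294967295))) (S M (L (X 2147483648 (A 1 (X c 1))) N))) 1) N)) N) (L (X (A (L (R D 3776) 4294967295) (X c (L (R D 24000) 4294967295))) (L (X (A (A (L (R D 800) 4294967295) (X c (L (R D 21024) 4294967295))) (S M (L (X 2147483648 (A 1 (X c 1))) N))) 1) N)) N))) (P e 2)) N)) N))) (S M (L (L (X (L (X (L (X 16777216 (A (L (X (A (L (R D 6784) 4294967295) (X c (L (R D 27008) 4294967295))) (A 0 (S M (L (L (X 12 1) N) N)))) N) (A (L (X (A (L (R D 6848) 4294967295) (X c (L (R D 27072) 4294967295))) (L (X 2 1) N))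 N) (L (X (A (L (R D 6880) 4294967295) (X c (L (R D 27104) 4294967295))) (A 0 (S M (L (L (X 24 1) N) N)))) N)))) N) (P e 2)) N) g) N) N))), 71, 3, 1, 3, 1⟩,
  ⟨fun A S X L P R M N m a b c d e f g h D => (A (A (L (X (L (X (L (X 16777216 (L (X (A (A (L (R D 4960) 4294967295) (X c (L (R D 25184) 4294967295))) (S M (L (X 2147483648 (A 1 (X c 1))) N))) 1) N)) N) (P e 2)) N) g) N) (S M (L (A (L (X (A (L (X 1 (A (L (R D 128) 4294967295) (X a (A (L (R D 160) 4294967295) (X a (L (R D 192) 4294967295)))))) N) (L (X c (A (L (R D 20352) 4294967295) (X a (A (L (R D 20384) 4294967295) (X a (L (R D 20416) 4294967295)))))) N)) (L (X (A (A (L (R D 3904) 4294967295) (X c (L (R D 24128) 4294967295))) (S M (L (X 2147483648 (A 1 (X c 1))) N))) 1) N)) N) (L (X (A (A (L (X (A (L (R D 3680) 4294967295) (X c (L (R D 23904) 4294967295))) (L (X (A (A (L (R D 640) 4294967295) (X c (L (R D 20864) 4294967295)))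 (S M (L (X 2147483648 (A 1 (X c 1))) N))) 1) N)) N) (L (X (A (L (R D 3744) 4294967295) (X c (L (R D 23968) 4294967295))) (L (X (A (A (L (R D 448) 4294967295) (X c (L (R D 20672) 4294967295))) (S M (L (X 2147483648 (A 1 (X c 1))) N))) 1) N)) N)) (A (L (X (A (L (R D 3712) 4294967295) (X c (L (R D 23936) 4294967295))) (L (X (A (A (L (R D 1024) 4294967295) (X c (L (R D 21248) 4294967295))) (S M (L (X 2147483648 (A 1 (X c 1))) N))) 1) N)) N) (L (X (A (L (R D 3776) 4294967295) (X c (L (R D 24000) 4294967295))) (L (X (A (A (L (R D 832) 4294967295) (X c (L (R D 21056) 4294967295))) (S M (L (X 2147483648 (A 1 (X c 1))) N))) 1) N)) N))) (P e 2)) N)) N))) (S M (L (L (X (L (X (L (X 16777216 (A (L (X (A (L (R D 6816) 4294967295) (X c (L (R D 27040) 4294967295))) (A 0 (S M (L (L (X 12 1) N) N)))) N) (A (L (X (A (L (R D 6848) 4294967295) (X c (L (R D 27072) 4294967295))) (A 0 (S M (L (L (X 12 1)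 N) N)))) N) (L (X (A (L (R D 6880) 4294967295) (X c (L (R D 27104) 4294967295))) (L (X 144 1) N)) N)))) N) (P e 2)) N) g) N) N))), 71, 3, 1, 3, 1⟩,
  ⟨fun A S X L P R M N m a b c d e f g h D => (A (A (L (X (L (X (L (X 16777216 (A (L (X (L (X 1024 (L (X (A (A (L (R D 5152) 4294967295) (X c (L (R D 25376) 4294967295))) (S M (L (X 2147483648 (A 1 (X c 1))) N))) (A (L (X (L (X 767 e) N) f) N) (A (L (X (L (X 171 1) N) f) N) (L (X (L (X 86 1) N) e) N)))) N)) N) e) N) (L (X (A (A (L (R D 5248) 4294967295) (X c (L (R D 25472) 4294967295))) (S M (L (X 2147483648 (A 1 (X c 1))) N))) (L (X (L (X 171 a) N) (A (L (X (L (X 767 e) N) f) N) (A (L (X (L (X 171 1) N) f) N) (L (X (L (X 86 1) N) e) N)))) N)) N))) N) e) N) g) N) (S M (L (A (L (X 1024 (L (X (A (L (X 1 (A (L (R D 128) 4294967295) (X a (A (L (R D 160) 4294967295) (X a (L (R D 192) 4294967295)))))) N) (L (X c (A (L (R D 20352) 4294967295)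 (X a (A (L (R D 20384) 4294967295) (X a (L (R D 20416) 4294967295)))))) N)) (L (X (A (A (L (R D 3936) 4294967295) (X c (L (R D 24160) 4294967295))) (S M (L (X 2147483648 (A 1 (X c 1))) N))) (A (L (X (L (X 767 e) N) f) N) (A (L (X (L (X 171 1) N) f) N) (L (X (L (X 86 1) N) e) N)))) N)) N)) N) (L (X (A (A (L (X (A (L (R D 3680) 4294967295) (X c (L (R D 23904) 4294967295))) (A (L (X (L (X 1024 (L (X (A (A (L (R D 320) 4294967295) (X c (L (R D 20544) 4294967295))) (S M (L (X 2147483648 (A 1 (X c 1))) N))) (A (L (X (L (X 767 e) N) f) N) (A (L (X (L (X 171 1) N) f) N) (L (X (L (X 86 1) N) e) N)))) N)) N) e) N) (L (X (A (A (L (R D 352) 4294967295) (X c (L (R D 20576) 4294967295))) (S M (L (X 2147483648 (A 1 (X c 1))) N))) (L (X (L (X 171 a) N) (A (L (X (L (X 767 e) N) f) N) (A (L (X (L (X 171 1) N) f) N) (L (X (L (X 86 1) N) e) N)))) N)) N))) N) (L (X (A (L (R D 3744) 4294967295) (X c (L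 (R D 23968) 4294967295))) (A (L (X (L (X 1024 (L (X (A (A (L (R D 512) 4294967295) (X c (L (R D 20736) 4294967295))) (S M (L (X 2147483648 (A 1 (X c 1))) N))) (A (L (X (L (X 767 e) N) f) N) (A (L (X (L (X 171 1) N) f) N) (L (X (L (X 86 1) N) e) N)))) N)) N) e) N) (L (X (A (A (L (R D 544) 4294967295) (X c (L (R D 20768) 4294967295))) (S M (L (X 2147483648 (A 1 (X c 1))) N))) (L (X (L (X 171 a) N) (A (L (X (L (X 767 e) N) f) N) (A (L (X (L (X 171 1) N) f) N) (L (X (L (X 86 1) N) e) N)))) N)) N))) N)) (A (L (X (A (L (R D 3712) 4294967295) (X c (L (R D 23936) 4294967295))) (A (L (X (L (X 1024 (L (X (A (A (L (R D 704) 4294967295) (X c (L (R D 20928) 4294967295))) (S M (L (X 2147483648 (A 1 (X c 1))) N))) (A (L (X (L (X 767 e) N) f) N) (A (L (X (L (X 171 1) N) f) N) (L (X (L (X 86 1) N) e) N)))) N)) N) e) N) (L (X (A (A (L (R D 736) 4294967295) (X c (L (R D 20960) 4294967295))) (S M (L (X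 2147483648 (A 1 (X c 1))) N))) (L (X (L (X 171 a) N) (A (L (X (L (X 767 e) N) f) N) (A (L (X (L (X 171 1) N) f) N) (L (X (L (X 86 1) N) e) N)))) N)) N))) N) (L (X (A (L (R D 3776) 4294967295) (X c (L (R D 24000) 4294967295))) (A (L (X (L (X 1024 (L (X (A (A (L (R D 896) 4294967295) (X c (L (R D 21120) 4294967295))) (S M (L (X 2147483648 (A 1 (X c 1))) N))) (A (L (X (L (X 767 e) N) f) N) (A (L (X (L (X 171 1) N) f) N) (L (X (L (X 86 1) N) e) N)))) N)) N) e) N) (L (X (A (A (L (R D 928) 4294967295) (X c (L (R D 21152) 4294967295))) (S M (L (X 2147483648 (A 1 (X c 1))) N))) (L (X (L (X 171 a) N) (A (L (X (L (X 767 e) N) f) N) (A (L (X (L (X 171 1) N) f) N) (L (X (L (X 86 1) N) e) N)))) N)) N))) N))) e) N)) N))) (S M (L (L (X (L (X (L (X 17179869184 (A (L (X (A (L (R D 6912) 4294967295) (X c (L (R D 27136) 4294967295))) (L (X 2 (A (L (X (L (X 767 e) N) f) N) (A (L (X (L (X 171 1) N) f)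 N) (L (X (L (X 86 1) N) e) N)))) N)) N) (A (L (X (A (L (R D 6944) 4294967295) (X c (L (R D 27168) 4294967295))) (A (L (X (L (X 767 e) N) f) N) (A (L (X (L (X 171 1) N) f) N) (L (X (L (X 86 1) N) e) N)))) N) (L (X (A (L (R D 7040) 4294967295) (X c (L (R D 27264) 4294967295))) (L (X 2 (A (L (X (L (X 767 e) N) f) N) (A (L (X (L (X 171 1) N) f) N) (L (X (L (X 86 1) N) e) N)))) N)) N)))) N) (P e 2)) N) g) N) N))), 93, 4, 2, 3, 1⟩,
  ⟨fun A S X L P R M N m a b c d e f g h D => (A (A (L (X (L (X (L (X 16777216 (L (X (A (L (X (L (X 1024 (A (A (L (R D 5344) 4294967295) (X c (L (R D 25568) 4294967295))) (S M (L (X 2147483648 (A 1 (X c 1))) N)))) N) e) N) (L (X (L (X 171 a) N) (A (A (L (R D 5632) 4294967295) (X c (L (R D 25856) 4294967295))) (S M (L (X 2147483648 (A 1 (X c 1))) N)))) N)) 1) N)) N) e) N) g) N) (S M (L (A (L (X 1024 (L (X (A (L (X 1 (A (L (R D 128) 4294967295) (X a (A (L (R D 160)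 4294967295) (X a (L (R D 192) 4294967295)))))) N) (L (X c (A (L (R D 20352) 4294967295) (X a (A (L (R D 20384) 4294967295) (X a (L (R D 20416) 4294967295)))))) N)) (L (X (A (A (L (R D 3968) 4294967295) (X c (L (R D 24192) 4294967295))) (S M (L (X 2147483648 (A 1 (X c 1))) N))) 1) N)) N)) N) (L (X (A (A (L (X (A (L (R D 3680) 4294967295) (X c (L (R D 23904) 4294967295))) (L (X (A (L (X (L (X 1024 (A (A (L (R D 384) 4294967295) (X c (L (R D 20608) 4294967295))) (S M (L (X 2147483648 (A 1 (X c 1))) N)))) N) e) N) (L (X (L (X 171 a) N) (A (A (L (R D 480) 4294967295) (X c (L (R D 20704) 4294967295))) (S M (L (X 2147483648 (A 1 (X c 1))) N)))) N)) 1) N)) N) (L (X (A (L (R D 3744) 4294967295) (X c (L (R D 23968) 4294967295))) (L (X (A (L (X (L (X 1024 (A (A (L (R D 576) 4294967295) (X c (L (R D 20800) 4294967295))) (S M (L (X 2147483648 (A 1 (X c 1))) N)))) N) e) N) (L (X (L (X 171 a) N)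 (A (A (L (R D 672) 4294967295) (X c (L (R D 20896) 4294967295))) (S M (L (X 2147483648 (A 1 (X c 1))) N)))) N)) 1) N)) N)) (A (L (X (A (L (R D 3712) 4294967295) (X c (L (R D 23936) 4294967295))) (L (X (A (L (X (L (X 1024 (A (A (L (R D 768) 4294967295) (X c (L (R D 20992) 4294967295))) (S M (L (X 2147483648 (A 1 (X c 1))) N)))) N) e) N) (L (X (L (X 171 a) N) (A (A (L (R D 864) 4294967295) (X c (L (R D 21088) 4294967295))) (S M (L (X 2147483648 (A 1 (X c 1))) N)))) N)) 1) N)) N) (L (X (A (L (R D 3776) 4294967295) (X c (L (R D 24000) 4294967295))) (L (X (A (L (X (L (X 1024 (A (A (L (R D 960) 4294967295) (X c (L (R D 21184) 4294967295))) (S M (L (X 2147483648 (A 1 (X c 1))) N)))) N) e) N) (L (X (L (X 171 a) N) (A (A (L (R D 1056) 4294967295) (X c (L (R D 21280) 4294967295))) (S M (L (X 2147483648 (A 1 (X c 1))) N)))) N)) 1) N)) N))) e) N)) N))) (S M (L (L (X (L (X (L (X 17179869184 (A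 (L (X (A (L (R D 6912) 4294967295) (X c (L (R D 27136) 4294967295))) (A 0 (S M (L (L (X 12 1) N) N)))) N) (A (L (X (A (L (R D 6976) 4294967295) (X c (L (R D 27200) 4294967295))) 1) N) (L (X (A (L (R D 7040) 4294967295) (X c (L (R D 27264) 4294967295))) (A 0 (S M (L (L (X 12 1) N) N)))) N)))) N) (P e 2)) N) g) N) N))), 81, 3, 1, 3, 1⟩,
  ⟨fun A S X L P R M N m a b c d e f g h D => (A (A (L (X (L (X (L (X 16777216 (L (X (A (A (L (R D 5440) 4294967295) (X c (L (R D 25664) 4294967295))) (S M (L (X 2147483648 (A 1 (X c 1))) N))) 1) N)) N) (P e 2)) N) g) N) (S M (L (A (L (X (A (L (X 1 (A (L (R D 128) 4294967295) (X a (A (L (R D 160) 4294967295) (X a (L (R D 192) 4294967295)))))) N) (L (X c (A (L (R D 20352) 4294967295) (X a (A (L (R D 20384) 4294967295) (X a (L (R D 20416) 4294967295)))))) N)) (L (X (A (A (L (R D 4000) 4294967295) (X c (L (R D 24224) 4294967295))) (S M (L (X 2147483648 (A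 1 (X c 1))) N))) 1) N)) N) (L (X (A (A (L (X (A (L (R D 3680) 4294967295) (X c (L (R D 23904) 4294967295))) (L (X (A (A (L (R D 416) 4294967295) (X c (L (R D 20640) 4294967295))) (S M (L (X 2147483648 (A 1 (X c 1))) N))) 1) N)) N) (L (X (A (L (R D 3744) 4294967295) (X c (L (R D 23968) 4294967295))) (L (X (A (A (L (R D 608) 4294967295) (X c (L (R D 20832) 4294967295))) (S M (L (X 2147483648 (A 1 (X c 1))) N))) 1) N)) N)) (A (L (X (A (L (R D 3712) 4294967295) (X c (L (R D 23936) 4294967295))) (L (X (A (A (L (R D 800) 4294967295) (X c (L (R D 21024) 4294967295))) (S M (L (X 2147483648 (A 1 (X c 1))) N))) 1) N)) N) (L (X (A (L (R D 3776) 4294967295) (X c (L (R D 24000) 4294967295))) (L (X (A (A (L (R D 992) 4294967295) (X c (L (R D 21216) 4294967295))) (S M (L (X 2147483648 (A 1 (X c 1))) N))) 1) N)) N))) (P e 2)) N)) N))) (S M (L (L (X (L (X (L (X 16777216 (A (L (X (A (L (R D 6944) 4294967295)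 (X c (L (R D 27168) 4294967295))) (A 0 (S M (L (L (X 12 1) N) N)))) N) (A (L (X (A (L (R D 7008) 4294967295) (X c (L (R D 27232) 4294967295))) (L (X 2 1) N)) N) (L (X (A (L (R D 7040) 4294967295) (X c (L (R D 27264) 4294967295))) (A 0 (S M (L (L (X 24 1) N) N)))) N)))) N) (P e 2)) N) g) N) N))), 71, 3, 1, 3, 1⟩,
  ⟨fun A S X L P R M N m a b c d e f g h D => (A (A (L (X (L (X (L (X 16777216 (L (X (A (A (L (R D 5536) 4294967295) (X c (L (R D 25760) 4294967295))) (S M (L (X 2147483648 (A 1 (X c 1))) N))) 1) N)) N) (P e 2)) N) g) N) (S M (L (A (L (X (A (L (X 1 (A (L (R D 128) 4294967295) (X a (A (L (R D 160) 4294967295) (X a (L (R D 192) 4294967295)))))) N) (L (X c (A (L (R D 20352) 4294967295) (X a (A (L (R D 20384) 4294967295) (X a (L (R D 20416) 4294967295)))))) N)) (L (X (A (A (L (R D 4032) 4294967295) (X c (L (R D 24256) 4294967295))) (S M (L (X 2147483648 (A 1 (X c 1))) N))) 1) N))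 N) (L (X (A (A (L (X (A (L (R D 3680) 4294967295) (X c (L (R D 23904) 4294967295))) (L (X (A (A (L (R D 448) 4294967295) (X c (L (R D 20672) 4294967295))) (S M (L (X 2147483648 (A 1 (X c 1))) N))) 1) N)) N) (L (X (A (L (R D 3744) 4294967295) (X c (L (R D 23968) 4294967295))) (L (X (A (A (L (R D 640) 4294967295) (X c (L (R D 20864) 4294967295))) (S M (L (X 2147483648 (A 1 (X c 1))) N))) 1) N)) N)) (A (L (X (A (L (R D 3712) 4294967295) (X c (L (R D 23936) 4294967295))) (L (X (A (A (L (R D 832) 4294967295) (X c (L (R D 21056) 4294967295))) (S M (L (X 2147483648 (A 1 (X c 1))) N))) 1) N)) N) (L (X (A (L (R D 3776) 4294967295) (X c (L (R D 24000) 4294967295))) (L (X (A (A (L (R D 1024) 4294967295) (X c (L (R D 21248) 4294967295))) (S M (L (X 2147483648 (A 1 (X c 1))) N))) 1) N)) N))) (P e 2)) N)) N))) (S M (L (L (X (L (X (L (X 16777216 (A (L (X (A (L (R D 6976) 4294967295) (X c (L (R D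 27200) 4294967295))) (A 0 (S M (L (L (X 12 1) N) N)))) N) (A (L (X (A (L (R D 7008) 4294967295) (X c (L (R D 27232) 4294967295))) (A 0 (S M (L (L (X 12 1) N) N)))) N) (L (X (A (L (R D 7040) 4294967295) (X c (L (R D 27264) 4294967295))) (L (X 144 1) N)) N)))) N) (P e 2)) N) g) N) N))), 71, 3, 1, 3, 1⟩,
  ⟨fun A S X L P R M N m a b c d e f g h D => (A (A (L (X (L (X 1024 (L (X (A (A (L (R D 4576) 4294967295) (X c (L (R D 24800) 4294967295))) (S M (L (X 2147483648 (A 1 (X c 1))) N))) (A (L (X (L (X 767 e) N) f) N) (A (L (X (L (X 171 1) N) f) N) (L (X (L (X 86 1) N) e) N)))) N)) N) e) N) (L (X (A (A (L (R D 4672) 4294967295) (X c (L (R D 24896) 4294967295))) (S M (L (X 2147483648 (A 1 (X c 1))) N))) (L (X (L (X 171 a) N) (A (L (X (L (X 767 e) N) f) N) (A (L (X (L (X 171 1) N) f) N) (L (X (L (X 86 1) N) e) N)))) N)) N)) (S M (L (L (X (L (X 1024 (A (L (X (A (L (R D 7552) 4294967295) (X c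 (L (R D 27776) 4294967295))) (L (X 2 (A (L (X (L (X 767 e) N) f) N) (A (L (X (L (X 171 1) N) f) N) (L (X (L (X 86 1) N) e) N)))) N)) N) (A (L (X (A (L (R D 7584) 4294967295) (X c (L (R D 27808) 4294967295))) (A (L (X (L (X 767 e) N) f) N) (A (L (X (L (X 171 1) N) f) N) (L (X (L (X 86 1) N) e) N)))) N) (L (X (A (L (R D 7680) 4294967295) (X c (L (R D 27904) 4294967295))) (L (X 2 (A (L (X (L (X 767 e) N) f) N) (A (L (X (L (X 171 1) N) f) N) (L (X (L (X 86 1) N) e) N)))) N)) N)))) N) e) N) N))), 59, 3, 2, 2, 1⟩,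
  ⟨fun A S X L P R M N m a b c d e f g h D => (A (L (X (A (L (X (L (X 1024 (A (A (L (R D 4768) 4294967295) (X c (L (R D 24992) 4294967295))) (S M (L (X 2147483648 (A 1 (X c 1))) N)))) N) e) N) (L (X (L (X 171 a) N) (A (A (L (R D 5056) 4294967295) (X c (L (R D 25280) 4294967295))) (S M (L (X 2147483648 (A 1 (X c 1))) N)))) N)) 1) N) (S M (L (L (X (L (X 1024 (A (L (X (A (L (R D 7552) 4294967295) (X c (L (R D 27776) 4294967295))) (A 0 (S M (L (L (X 12 1) N) N)))) N) (A (L (X (A (L (R D 7616) 4294967295) (X c (L (R D 27840) 4294967295))) 1) N) (L (X (A (L (R D 7680) 4294967295) (X c (L (R D 27904) 4294967295))) (A 0 (S M (L (L (X 12 1) N) N)))) N)))) N) e) N) N))), 49, 2, 1, 2, 1⟩,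
  ⟨fun A S X L P R M N m a b c d e f g h D => (A (L (X (A (A (L (R D 4864) 4294967295) (X c (L (R D 25088) 4294967295))) (S M (L (X 2147483648 (A 1 (X c 1))) N))) 1) N) (S M (L (A (L (X (A (L (R D 7584) 4294967295) (X c (L (R D 27808) 4294967295))) (A 0 (S M (L (L (X 12 1) N) N)))) N) (A (L (X (A (L (R D 7648) 4294967295) (X c (L (R D 27872) 4294967295))) (L (X 2 1) N)) N) (L (X (A (L (R D 7680) 4294967295) (X c (L (R D 27904) 4294967295))) (A 0 (S M (L (L (X 24 1) N) N)))) N))) N))), 39, 1, 1, 2, 1⟩,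
  ⟨fun A S X L P R M N m a b c d e f g h D => (A (L (X (A (A (L (R D 4960) 4294967295) (X c (L (R D 25184) 4294967295))) (S M (L (X 2147483648 (A 1 (X c 1))) N))) 1) N) (S M (L (A (L (X (A (L (R D 7616) 4294967295) (X c (L (R D 27840) 4294967295))) (A 0 (S M (L (L (X 12 1) N) N)))) N) (A (L (X (A (L (R D 7648) 4294967295) (X c (L (R D 27872) 4294967295))) (A 0 (S M (L (L (X 12 1) N) N)))) N) (L (X (A (L (R D 7680) 4294967295) (X c (L (R D 27904) 4294967295))) (L (X 144 1) N)) N))) N))), 41, 1, 1, 2, 1⟩,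
  ⟨fun A S X L P R M N m a b c d e f g h D => (A (A (L (X (L (X 1024 (L (X (A (A (L (R D 5152) 4294967295) (X c (L (R D 25376) 4294967295))) (S M (L (X 2147483648 (A 1 (X c 1))) N))) (A (L (X (L (X 767 e) N) f) N) (A (L (X (L (X 171 1) N) f) N) (L (X (L (X 86 1) N) e) N)))) N)) N) e) N) (L (X (A (A (L (R D 5248) 4294967295) (X c (L (R D 25472) 4294967295))) (S M (L (X 2147483648 (A 1 (X c 1))) N))) (L (X (L (X 171 a) N) (A (L (X (L (X 767 e) N) f) N) (A (L (X (L (X 171 1) N) f) N) (L (X (L (X 86 1) N) e) N)))) N)) N)) (S M (L (L (X (L (X 1024 (A (L (X (A (L (R D 7712) 4294967295) (X c (L (R D 27936) 4294967295))) (L (X 2 (A (L (X (L (X 767 e) N) f) N) (A (L (X (L (X 171 1) N) f) N) (L (X (L (X 86 1) N) e) N)))) N)) N) (A (L (X (A (L (R D 7744) 4294967295) (X c (L (R D 27968) 4294967295))) (A (L (X (L (X 767 e) N) f) N) (A (L (X (L (X 171 1) N) f) N) (L (X (L (X 86 1) N) e) N)))) N)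 (L (X (A (L (R D 7840) 4294967295) (X c (L (R D 28064) 4294967295))) (L (X 2 (A (L (X (L (X 767 e) N) f) N) (A (L (X (L (X 171 1) N) f) N) (L (X (L (X 86 1) N) e) N)))) N)) N)))) N) e) N) N))), 59, 3, 2, 2, 1⟩,
  ⟨fun A S X L P R M N m a b c d e f g h D => (A (L (X (A (L (X (L (X 1024 (A (A (L (R D 5344) 4294967295) (X c (L (R D 25568) 4294967295))) (S M (L (X 2147483648 (A 1 (X c 1))) N)))) N) e) N) (L (X (L (X 171 a) N) (A (A (L (R D 5632) 4294967295) (X c (L (R D 25856) 4294967295))) (S M (L (X 2147483648 (A 1 (X c 1))) N)))) N)) 1) N) (S M (L (L (X (L (X 1024 (A (L (X (A (L (R D 7712) 4294967295) (X c (L (R D 27936) 4294967295))) (A 0 (S M (L (L (X 12 1) N) N)))) N) (A (L (X (A (L (R D 7776) 4294967295) (X c (L (R D 28000) 4294967295))) 1) N) (L (X (A (L (R D 7840) 4294967295) (X c (L (R D 28064) 4294967295))) (A 0 (S M (L (L (X 12 1) N) N)))) N)))) N) e) N) N))), 49, 2, 1, 2,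 1⟩,
  ⟨fun A S X L P R M N m a b c d e f g h D => (A (L (X (A (A (L (R D 5440) 4294967295) (X c (L (R D 25664) 4294967295))) (S M (L (X 2147483648 (A 1 (X c 1))) N))) 1) N) (S M (L (A (L (X (A (L (R D 7744) 4294967295) (X c (L (R D 27968) 4294967295))) (A 0 (S M (L (L (X 12 1) N) N)))) N) (A (L (X (A (L (R D 7808) 4294967295) (X c (L (R D 28032) 4294967295))) (L (X 2 1) N)) N) (L (X (A (L (R D 7840) 4294967295) (X c (L (R D 28064) 4294967295))) (A 0 (S M (L (L (X 24 1) N) N)))) N))) N))), 39, 1, 1, 2, 1⟩,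
  ⟨fun A S X L P R M N m a b c d e f g h D => (A (L (X (A (A (L (R D 5536) 4294967295) (X c (L (R D 25760) 4294967295))) (S M (L (X 2147483648 (A 1 (X c 1))) N))) 1) N) (S M (L (A (L (X (A (L (R D 7776) 4294967295) (X c (L (R D 28000) 4294967295))) (A 0 (S M (L (L (X 12 1) N) N)))) N) (A (L (X (A (L (R D 7808) 4294967295) (X c (L (R D 28032) 4294967295))) (A 0 (S M (L (L (X 12 1) N) N)))) N) (L (X (A (L (R D 7840) 4294967295) (X c (L (R D 28064) 4294967295))) (L (X 144 1) N)) N))) N))), 41, 1, 1, 2, 1⟩,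
  ⟨fun A S X L P R M N m a b c d e f g h D => (A (L (X (L (X (L (X (L (X 16777216 (L (X (L (X 86 b) N) (A (L (X 1024 (A (L (X (A (L (X (L (X 1024 (A (A (L (R D 1088) 4294967295) (X c (L (R D 21312) 4294967295))) (S M (L (X 2147483648 (A 1 (X c 1))) N)))) N) e) N) (L (X (A (A (L (R D 1120) 4294967295) (X c (L (R D 21344) 4294967295))) (S M (L (X 2147483648 (A 1 (X c 1))) N))) (L (X 171 a) N)) N)) f) N) (L (X (L (X (A (A (L (R D 1152) 4294967295) (X c (L (R D 21376) 4294967295))) (S M (L (X 2147483648 (A 1 (X c 1))) N))) (L (X 86 b) N)) N) e) N))) N) (L (X (A (A (L (R D 1184) 4294967295) (X c (L (R D 21408) 4294967295))) (S M (L (X 2147483648 (A 1 (X c 1))) N))) (L (X (L (X 86 b) N) (L (X 171 a) N)) N)) N))) N)) N) e) N) f) N) g) N) (S M (L (L (X (L (X (L (X 86 b) N) (A (L (X (L (X 1048576 (A (L (R D 32) 4294967295) (X c (L (R D 20256) 4294967295)))) N) (P f 2)) N) (L (X (L (X 86 b)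 N) (A (L (X (L (X 1024 (A (L (R D 64) 4294967295) (X c (L (R D 20288) 4294967295)))) N) f) N) (L (X (L (X 86 b) N) (A (L (R D 96) 4294967295) (X c (L (R D 20320) 4294967295)))) N))) N))) N) (A (L (X 1 (A (L (R D 128) 4294967295) (X a (A (L (R D 160) 4294967295) (X a (L (R D 192) 4294967295)))))) N) (L (X c (A (L (R D 20352) 4294967295) (X a (A (L (R D 20384) 4294967295) (X a (L (R D 20416) 4294967295)))))) N))) N) N))), 97, 3, 4, 3, 1⟩,
  ⟨fun A S X L P R M N m a b c d e f g h D => (A (A (L (X (L (X (L (X (L (X 590295810358705651712 (L (X (L (X 86 b) N) (A (L (X 1024 (A (L (X (A (L (X (L (X 1024 (A (A (L (R D 9568) 4294967295) (X c (L (R D 29792) 4294967295))) (S M (L (X 2147483648 (A 1 (X c 1))) N)))) N) e) N) (L (X (A (A (L (R D 9600) 4294967295) (X c (L (R D 29824) 4294967295))) (S M (L (X 2147483648 (A 1 (X c 1))) N))) (L (X 171 a) N)) N)) f) N) (L (X (L (X (A (A (L (R D 9632)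 4294967295) (X c (L (R D 29856) 4294967295))) (S M (L (X 2147483648 (A 1 (X c 1))) N))) (L (X 86 b) N)) N) e) N))) N) (L (X (A (A (L (R D 9664) 4294967295) (X c (L (R D 29888) 4294967295))) (S M (L (X 2147483648 (A 1 (X c 1))) N))) (L (X (L (X 86 b) N) (L (X 171 a) N)) N)) N))) N)) N) (P e 3)) N) (P f 3)) N) (P g 2)) N) (S M (L (L (X (L (X (L (X 86 b) N) (A (L (X (L (X 1048576 (A (L (R D 32) 4294967295) (X c (L (R D 20256) 4294967295)))) N) (P f 2)) N) (L (X (L (X 86 b) N) (A (L (X (L (X 1024 (A (L (R D 64) 4294967295) (X c (L (R D 20288) 4294967295)))) N) f) N) (L (X (L (X 86 b) N) (A (L (R D 96) 4294967295) (X c (L (R D 20320) 4294967295)))) N))) N))) N) (L (X (A (L (X 1 (A (L (R D 128) 4294967295) (X a (A (L (R D 160) 4294967295) (X a (L (R D 192) 4294967295)))))) N) (L (X c (A (L (R D 20352) 4294967295) (X a (A (L (R D 20384) 4294967295) (X a (L (R D 20416) 4294967295)))))) N))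 (A (L (X (L (X (L (X (L (X 34359738368 (L (X 1 (A (L (X 853 e) N) (L (X 171 1) N))) N)) N) e) N) (P f 2)) N) g) N) (L (X 1 (A (L (X (A (L (X (L (X 1024 (L (X (A (A (L (R D 512) 4294967295) (X c (L (R D 20736) 4294967295))) (S M (L (X 2147483648 (A 1 (X c 1))) N))) (A (L (X (L (X 767 e) N) f) N) (A (L (X (L (X 171 1) N) f) N) (L (X (L (X 86 1) N) e) N)))) N)) N) e) N) (L (X (A (A (L (R D 544) 4294967295) (X c (L (R D 20768) 4294967295))) (S M (L (X 2147483648 (A 1 (X c 1))) N))) (L (X (L (X 171 a) N) (A (L (X (L (X 767 e) N) f) N) (A (L (X (L (X 171 1) N) f) N) (L (X (L (X 86 1) N) e) N)))) N)) N)) f) N) (A (L (X (A (L (X (L (X 1024 (L (X (A (A (L (R D 512) 4294967295) (X c (L (R D 20736) 4294967295))) (S M (L (X 2147483648 (A 1 (X c 1))) N))) (A (L (X 853 e) N) (L (X 171 1) N))) N)) N) e) N) (L (X (A (A (L (R D 544) 4294967295) (X c (L (R D 20768) 4294967295))) (S M (L (X 2147483648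 (A 1 (X c 1))) N))) (L (X (L (X 171 a) N) (A (L (X 853 e) N) (L (X 171 1) N))) N)) N)) (P f 2)) N) (L (X (L (X (A (A (L (R D 608) 4294967295) (X c (L (R D 20832) 4294967295))) (S M (L (X 2147483648 (A 1 (X c 1))) N))) (L (X (L (X 86 b) N) (L (X 86 b) N)) N)) N) (P e 2)) N)))) N))) N)) N) N))) (S M (L (L (X (L (X (L (X 33554432 (A (L (X (L (X 1024 (L (X (L (X (A (L (R D 13408) 4294967295) (X c (L (R D 33632) 4294967295))) (L (X (L (X 86 b) N) (A (L (X (L (X 1048576 (A (L (R D 32) 4294967295) (X c (L (R D 20256) 4294967295)))) N) (P f 2)) N) (L (X (L (X 86 b) N) (A (L (X (L (X 1024 (A (L (R D 64) 4294967295) (X c (L (R D 20288) 4294967295)))) N) f) N) (L (X (L (X 86 b) N) (A (L (R D 96) 4294967295) (X c (L (R D 20320) 4294967295)))) N))) N))) N)) N) (L (X 2 (A (L (X (L (X 767 e) N) f) N) (A (L (X (L (X 171 1) N) f) N) (L (X (L (X 86 1) N) e) N)))) N)) N)) N) f) N) (A (L (X (L (X 1024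 (L (X (L (X (A (L (R D 13440) 4294967295) (X c (L (R D 33664) 4294967295))) (L (X (L (X 86 b) N) (A (L (X (L (X 1048576 (A (L (R D 32) 4294967295) (X c (L (R D 20256) 4294967295)))) N) (P f 2)) N) (L (X (L (X 86 b) N) (A (L (X (L (X 1024 (A (L (R D 64) 4294967295) (X c (L (R D 20288) 4294967295)))) N) f) N) (L (X (L (X 86 b) N) (A (L (R D 96) 4294967295) (X c (L (R D 20320) 4294967295)))) N))) N))) N)) N) (A (L (X (L (X 767 e) N) f) N) (A (L (X (L (X 171 1) N) f) N) (L (X (L (X 86 1) N) e) N)))) N)) N) f) N) (A (L (X (L (X 1024 (L (X (L (X (A (L (R D 13536) 4294967295) (X c (L (R D 33760) 4294967295))) (L (X (L (X 86 b) N) (A (L (X (L (X 1048576 (A (L (R D 32) 4294967295) (X c (L (R D 20256) 4294967295)))) N) (P f 2)) N) (L (X (L (X 86 b) N) (A (L (X (L (X 1024 (A (L (R D 64) 4294967295) (X c (L (R D 20288) 4294967295)))) N) f) N) (L (X (L (X 86 b) N) (A (L (R D 96) 4294967295) (X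 c (L (R D 20320) 4294967295)))) N))) N))) N)) N) (L (X 2 (A (L (X (L (X 767 e) N) f) N) (A (L (X (L (X 171 1) N) f) N) (L (X (L (X 86 1) N) e) N)))) N)) N)) N) f) N) (A (L (X (L (X 1024 (L (X (L (X (A (L (R D 13568) 4294967295) (X c (L (R D 33792) 4294967295))) (L (X (L (X 86 b) N) (A (L (X (L (X 1048576 (A (L (R D 32) 4294967295) (X c (L (R D 20256) 4294967295)))) N) (P f 2)) N) (L (X (L (X 86 b) N) (A (L (X (L (X 1024 (A (L (R D 64) 4294967295) (X c (L (R D 20288) 4294967295)))) N) f) N) (L (X (L (X 86 b) N) (A (L (R D 96) 4294967295) (X c (L (R D 20320) 4294967295)))) N))) N))) N)) N) (L (X 2 (A (L (X 853 e) N) (L (X 171 1) N))) N)) N)) N) (P f 2)) N) (A (L (X (L (X (A (L (R D 13600) 4294967295) (X c (L (R D 33824) 4294967295))) (L (X (L (X 86 b) N) (A (L (X (L (X 1048576 (A (L (R D 32) 4294967295) (X c (L (R D 20256) 4294967295)))) N) (P f 2)) N) (L (X (L (X 86 b) N) (A (L (X (L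 (X 1024 (A (L (R D 64) 4294967295) (X c (L (R D 20288) 4294967295)))) N) f) N) (L (X (L (X 86 b) N) (A (L (R D 96) 4294967295) (X c (L (R D 20320) 4294967295)))) N))) N))) N)) N) (A (L (X (L (X 1024 (A (L (X 853 e) N) (L (X 171 1) N))) N) (P f 2)) N) (S M (L (L (X (L (X 12 (L (X (L (X 86 b) N) (L (X 86 b) N)) N)) N) e) N) N)))) N) (A (L (X (L (X (L (X (A (L (R D 13664) 4294967295) (X c (L (R D 33888) 4294967295))) (L (X (L (X 86 b) N) (A (L (X (L (X 1048576 (A (L (R D 32) 4294967295) (X c (L (R D 20256) 4294967295)))) N) (P f 2)) N) (L (X (L (X 86 b) N) (A (L (X (L (X 1024 (A (L (R D 64) 4294967295) (X c (L (R D 20288) 4294967295)))) N) f) N) (L (X (L (X 86 b) N) (A (L (R D 96) 4294967295) (X c (L (R D 20320) 4294967295)))) N))) N))) N)) N) (L (X 2 (L (X (L (X 86 b) N) (L (X 86 b) N)) N)) N)) N) e) N) (A (L (X (L (X (A (L (R D 13696) 4294967295) (X c (L (R D 33920) 4294967295))) (L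 (X (L (X 86 b) N) (A (L (X (L (X 1048576 (A (L (R D 32) 4294967295) (X c (L (R D 20256) 4294967295)))) N) (P f 2)) N) (L (X (L (X 86 b) N) (A (L (X (L (X 1024 (A (L (R D 64) 4294967295) (X c (L (R D 20288) 4294967295)))) N) f) N) (L (X (L (X 86 b) N) (A (L (R D 96) 4294967295) (X c (L (R D 20320) 4294967295)))) N))) N))) N)) N) (A (L (X (L (X 1024 (L (X 2 (A (L (X 853 e) N) (L (X 171 1) N))) N)) N) (P f 2)) N) (S M (L (L (X (L (X 24 (L (X (L (X 86 b) N) (L (X 86 b) N)) N)) N) e) N) N)))) N) (L (X (L (X (L (X 1048576 (L (X (L (X (A (L (R D 13728) 4294967295) (X c (L (R D 33952) 4294967295))) (L (X (L (X 86 b) N) (A (L (X (L (X 1048576 (A (L (R D 32) 4294967295) (X c (L (R D 20256) 4294967295)))) N) (P f 2)) N) (L (X (L (X 86 b) N) (A (L (X (L (X 1024 (A (L (R D 64) 4294967295) (X c (L (R D 20288) 4294967295)))) N) f) N) (L (X (L (X 86 b) N) (A (L (R D 96) 4294967295) (X c (L (R D 20320)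 4294967295)))) N))) N))) N)) N) 2) N)) N) e) N) (P f 2)) N))))))))) N) (P e 3)) N) g) N) N))), 155, 5, 6, 4, 1⟩,
  ⟨fun A S X L P R M N m a b c d e f g h D => (A (A (L (X (L (X (L (X 0 (P e 3)) N) (P f 3)) N) (P g 3)) N) (S M (L (L (X (L (X (L (X 86 b) N) (A (L (X (L (X 1048576 (A (L (R D 32) 4294967295) (X c (L (R D 20256) 4294967295)))) N) (P f 2)) N) (L (X (L (X 86 b) N) (A (L (X (L (X 1024 (A (L (R D 64) 4294967295) (X c (L (R D 20288) 4294967295)))) N) f) N) (L (X (L (X 86 b) N) (A (L (R D 96) 4294967295) (X c (L (R D 20320) 4294967295)))) N))) N))) N) (L (X (A (L (X 1 (A (L (R D 128) 4294967295) (X a (A (L (R D 160) 4294967295) (X a (L (R D 192) 4294967295)))))) N) (L (X c (A (L (R D 20352) 4294967295) (X a (A (L (R D 20384) 4294967295) (X a (L (R D 20416) 4294967295)))))) N)) (L (X 1 (A (L (X (A (L (X (L (X 1024 (A (A (L (R D 576) 4294967295) (X c (L (R D 20800) 4294967295)))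 (S M (L (X 2147483648 (A 1 (X c 1))) N)))) N) e) N) (L (X (L (X 171 a) N) (A (A (L (R D 672) 4294967295) (X c (L (R D 20896) 4294967295))) (S M (L (X 2147483648 (A 1 (X c 1))) N)))) N)) 1) N) (L (X (A (L (X (L (X 1024 (A (A (L (R D 576) 4294967295) (X c (L (R D 20800) 4294967295))) (S M (L (X 2147483648 (A 1 (X c 1))) N)))) N) e) N) (L (X (L (X 171 a) N) (A (A (L (R D 672) 4294967295) (X c (L (R D 20896) 4294967295))) (S M (L (X 2147483648 (A 1 (X c 1))) N)))) N)) 1) N))) N)) N)) N) N))) (S M (L (L (X (L (X (L (X 34359738368 (A (L (X (L (X (A (L (R D 13408) 4294967295) (X c (L (R D 33632) 4294967295))) (L (X (L (X 86 b) N) (A (L (X (L (X 1048576 (A (L (R D 32) 4294967295) (X c (L (R D 20256) 4294967295)))) N) (P f 2)) N) (L (X (L (X 86 b) N) (A (L (X (L (X 1024 (A (L (R D 64) 4294967295) (X c (L (R D 20288) 4294967295)))) N) f) N) (L (X (L (X 86 b) N) (A (L (R D 96) 4294967295) (X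 c (L (R D 20320) 4294967295)))) N))) N))) N)) N) (A 0 (S M (L (L (X 12 1) N) N)))) N) (A (L (X (L (X (A (L (R D 13472) 4294967295) (X c (L (R D 33696) 4294967295))) (L (X (L (X 86 b) N) (A (L (X (L (X 1048576 (A (L (R D 32) 4294967295) (X c (L (R D 20256) 4294967295)))) N) (P f 2)) N) (L (X (L (X 86 b) N) (A (L (X (L (X 1024 (A (L (R D 64) 4294967295) (X c (L (R D 20288) 4294967295)))) N) f) N) (L (X (L (X 86 b) N) (A (L (R D 96) 4294967295) (X c (L (R D 20320) 4294967295)))) N))) N))) N)) N) 1) N) (A (L (X (L (X (A (L (R D 13536) 4294967295) (X c (L (R D 33760) 4294967295))) (L (X (L (X 86 b) N) (A (L (X (L (X 1048576 (A (L (R D 32) 4294967295) (X c (L (R D 20256) 4294967295)))) N) (P f 2)) N) (L (X (L (X 86 b) N) (A (L (X (L (X 1024 (A (L (R D 64) 4294967295) (X c (L (R D 20288) 4294967295)))) N) f) N) (L (X (L (X 86 b) N) (A (L (R D 96) 4294967295) (X c (L (R D 20320) 4294967295))))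 N))) N))) N)) N) (A 0 (S M (L (L (X 12 1) N) N)))) N) (A (L (X (L (X (A (L (R D 13568) 4294967295) (X c (L (R D 33792) 4294967295))) (L (X (L (X 86 b) N) (A (L (X (L (X 1048576 (A (L (R D 32) 4294967295) (X c (L (R D 20256) 4294967295)))) N) (P f 2)) N) (L (X (L (X 86 b) N) (A (L (X (L (X 1024 (A (L (R D 64) 4294967295) (X c (L (R D 20288) 4294967295)))) N) f) N) (L (X (L (X 86 b) N) (A (L (R D 96) 4294967295) (X c (L (R D 20320) 4294967295)))) N))) N))) N)) N) (A 0 (S M (L (L (X 12 1) N) N)))) N) (A (L (X (L (X (A (L (R D 13632) 4294967295) (X c (L (R D 33856) 4294967295))) (L (X (L (X 86 b) N) (A (L (X (L (X 1048576 (A (L (R D 32) 4294967295) (X c (L (R D 20256) 4294967295)))) N) (P f 2)) N) (L (X (L (X 86 b) N) (A (L (X (L (X 1024 (A (L (R D 64) 4294967295) (X c (L (R D 20288) 4294967295)))) N) f) N) (L (X (L (X 86 b) N) (A (L (R D 96) 4294967295) (X c (L (R D 20320) 4294967295))))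 N))) N))) N)) N) 1) N) (L (X (L (X (A (L (R D 13696) 4294967295) (X c (L (R D 33920) 4294967295))) (L (X (L (X 86 b) N) (A (L (X (L (X 1048576 (A (L (R D 32) 4294967295) (X c (L (R D 20256) 4294967295)))) N) (P f 2)) N) (L (X (L (X 86 b) N) (A (L (X (L (X 1024 (A (L (R D 64) 4294967295) (X c (L (R D 20288) 4294967295)))) N) f) N) (L (X (L (X 86 b) N) (A (L (R D 96) 4294967295) (X c (L (R D 20320) 4294967295)))) N))) N))) N)) N) (A 0 (S M (L (L (X 12 1) N) N)))) N))))))) N) (P e 3)) N) g) N) N))), 142, 4, 4, 4, 1⟩,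
  ⟨fun A S X L P R M N m a b c d e f g h D => (A (A (L (X (L (X (L (X 0 (P e 2)) N) (P f 3)) N) (P g 3)) N) (S M (L (L (X (L (X (L (X 86 b) N) (A (L (X (L (X 1048576 (A (L (R D 32) 4294967295) (X c (L (R D 20256) 4294967295)))) N) (P f 2)) N) (L (X (L (X 86 b) N) (A (L (X (L (X 1024 (A (L (R D 64) 4294967295) (X c (L (R D 20288) 4294967295)))) N) f) N) (L (X (L (X 86 b) N) (A (L (R D 96) 4294967295) (X c (L (R D 20320) 4294967295)))) N))) N))) N) (L (X (A (L (X 1 (A (L (R D 128) 4294967295) (X a (A (L (R D 160) 4294967295) (X a (L (R D 192) 4294967295)))))) N) (L (X c (A (L (R D 20352) 4294967295) (X a (A (L (R D 20384) 4294967295) (X a (L (R D 20416) 4294967295)))))) N)) (L (X 1 (A (L (X (A (A (L (R D 608) 4294967295) (X c (L (R D 20832) 4294967295))) (S M (L (X 2147483648 (A 1 (X c 1))) N))) 1) N) (L (X (A (A (L (R D 608) 4294967295) (X c (L (R D 20832) 4294967295))) (S M (L (X 2147483648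 (A 1 (X c 1))) N))) 1) N))) N)) N)) N) N))) (S M (L (L (X (L (X (L (X 33554432 (A (L (X (L (X (A (L (R D 13440) 4294967295) (X c (L (R D 33664) 4294967295))) (L (X (L (X 86 b) N) (A (L (X (L (X 1048576 (A (L (R D 32) 4294967295) (X c (L (R D 20256) 4294967295)))) N) (P f 2)) N) (L (X (L (X 86 b) N) (A (L (X (L (X 1024 (A (L (R D 64) 4294967295) (X c (L (R D 20288) 4294967295)))) N) f) N) (L (X (L (X 86 b) N) (A (L (R D 96) 4294967295) (X c (L (R D 20320) 4294967295)))) N))) N))) N)) N) (A 0 (S M (L (L (X 12 1) N) N)))) N) (A (L (X (L (X (A (L (R D 13504) 4294967295) (X c (L (R D 33728) 4294967295))) (L (X (L (X 86 b) N) (A (L (X (L (X 1048576 (A (L (R D 32) 4294967295) (X c (L (R D 20256) 4294967295)))) N) (P f 2)) N) (L (X (L (X 86 b) N) (A (L (X (L (X 1024 (A (L (R D 64) 4294967295) (X c (L (R D 20288) 4294967295)))) N) f) N) (L (X (L (X 86 b) N) (A (L (R D 96) 4294967295) (X c (L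 (R D 20320) 4294967295)))) N))) N))) N)) N) (L (X 2 1) N)) N) (A (L (X (L (X (A (L (R D 13536) 4294967295) (X c (L (R D 33760) 4294967295))) (L (X (L (X 86 b) N) (A (L (X (L (X 1048576 (A (L (R D 32) 4294967295) (X c (L (R D 20256) 4294967295)))) N) (P f 2)) N) (L (X (L (X 86 b) N) (A (L (X (L (X 1024 (A (L (R D 64) 4294967295) (X c (L (R D 20288) 4294967295)))) N) f) N) (L (X (L (X 86 b) N) (A (L (R D 96) 4294967295) (X c (L (R D 20320) 4294967295)))) N))) N))) N)) N) (A 0 (S M (L (L (X 24 1) N) N)))) N) (A (L (X (L (X (A (L (R D 13600) 4294967295) (X c (L (R D 33824) 4294967295))) (L (X (L (X 86 b) N) (A (L (X (L (X 1048576 (A (L (R D 32) 4294967295) (X c (L (R D 20256) 4294967295)))) N) (P f 2)) N) (L (X (L (X 86 b) N) (A (L (X (L (X 1024 (A (L (R D 64) 4294967295) (X c (L (R D 20288) 4294967295)))) N) f) N) (L (X (L (X 86 b) N) (A (L (R D 96) 4294967295) (X c (L (R D 20320) 4294967295))))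 N))) N))) N)) N) (A 0 (S M (L (L (X 12 1) N) N)))) N) (A (L (X (L (X (A (L (R D 13664) 4294967295) (X c (L (R D 33888) 4294967295))) (L (X (L (X 86 b) N) (A (L (X (L (X 1048576 (A (L (R D 32) 4294967295) (X c (L (R D 20256) 4294967295)))) N) (P f 2)) N) (L (X (L (X 86 b) N) (A (L (X (L (X 1024 (A (L (R D 64) 4294967295) (X c (L (R D 20288) 4294967295)))) N) f) N) (L (X (L (X 86 b) N) (A (L (R D 96) 4294967295) (X c (L (R D 20320) 4294967295)))) N))) N))) N)) N) (L (X 2 1) N)) N) (L (X (L (X (A (L (R D 13696) 4294967295) (X c (L (R D 33920) 4294967295))) (L (X (L (X 86 b) N) (A (L (X (L (X 1048576 (A (L (R D 32) 4294967295) (X c (L (R D 20256) 4294967295)))) N) (P f 2)) N) (L (X (L (X 86 b) N) (A (L (X (L (X 1024 (A (L (R D 64) 4294967295) (X c (L (R D 20288) 4294967295)))) N) f) N) (L (X (L (X 86 b) N) (A (L (R D 96) 4294967295) (X c (L (R D 20320) 4294967295)))) N))) N))) N)) N) (A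 0 (S M (L (L (X 24 1) N) N)))) N))))))) N) (P e 2)) N) g) N) N))), 131, 3, 4, 4, 1⟩,
  ⟨fun A S X L P R M N m a b c d e f g h D => (A (A (L (X (L (X (L (X 0 (P e 2)) N) (P f 3)) N) (P g 3)) N) (S M (L (L (X (L (X (L (X 86 b) N) (A (L (X (L (X 1048576 (A (L (R D 32) 4294967295) (X c (L (R D 20256) 4294967295)))) N) (P f 2)) N) (L (X (L (X 86 b) N) (A (L (X (L (X 1024 (A (L (R D 64) 4294967295) (X c (L (R D 20288) 4294967295)))) N) f) N) (L (X (L (X 86 b) N) (A (L (R D 96) 4294967295) (X c (L (R D 20320) 4294967295)))) N))) N))) N) (L (X (A (L (X 1 (A (L (R D 128) 4294967295) (X a (A (L (R D 160) 4294967295) (X a (L (R D 192) 4294967295)))))) N) (L (X c (A (L (R D 20352) 4294967295) (X a (A (L (R D 20384) 4294967295) (X a (L (R D 20416) 4294967295)))))) N)) (L (X 1 (A (L (X (A (A (L (R D 640) 4294967295) (X c (L (R D 20864) 4294967295))) (S M (L (X 2147483648 (A 1 (X c 1))) N))) 1) N)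 (L (X (A (A (L (R D 640) 4294967295) (X c (L (R D 20864) 4294967295))) (S M (L (X 2147483648 (A 1 (X c 1))) N))) 1) N))) N)) N)) N) N))) (S M (L (L (X (L (X (L (X 33554432 (A (L (X (L (X (A (L (R D 13472) 4294967295) (X c (L (R D 33696) 4294967295))) (L (X (L (X 86 b) N) (A (L (X (L (X 1048576 (A (L (R D 32) 4294967295) (X c (L (R D 20256) 4294967295)))) N) (P f 2)) N) (L (X (L (X 86 b) N) (A (L (X (L (X 1024 (A (L (R D 64) 4294967295) (X c (L (R D 20288) 4294967295)))) N) f) N) (L (X (L (X 86 b) N) (A (L (R D 96) 4294967295) (X c (L (R D 20320) 4294967295)))) N))) N))) N)) N) (A 0 (S M (L (L (X 12 1) N) N)))) N) (A (L (X (L (X (A (L (R D 13504) 4294967295) (X c (L (R D 33728) 4294967295))) (L (X (L (X 86 b) N) (A (L (X (L (X 1048576 (A (L (R D 32) 4294967295) (X c (L (R D 20256) 4294967295)))) N) (P f 2)) N) (L (X (L (X 86 b) N) (A (L (X (L (X 1024 (A (L (R D 64) 4294967295) (X c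 (L (R D 20288) 4294967295)))) N) f) N) (L (X (L (X 86 b) N) (A (L (R D 96) 4294967295) (X c (L (R D 20320) 4294967295)))) N))) N))) N)) N) (A 0 (S M (L (L (X 12 1) N) N)))) N) (A (L (X (L (X (A (L (R D 13536) 4294967295) (X c (L (R D 33760) 4294967295))) (L (X (L (X 86 b) N) (A (L (X (L (X 1048576 (A (L (R D 32) 4294967295) (X c (L (R D 20256) 4294967295)))) N) (P f 2)) N) (L (X (L (X 86 b) N) (A (L (X (L (X 1024 (A (L (R D 64) 4294967295) (X c (L (R D 20288) 4294967295)))) N) f) N) (L (X (L (X 86 b) N) (A (L (R D 96) 4294967295) (X c (L (R D 20320) 4294967295)))) N))) N))) N)) N) (L (X 144 1) N)) N) (A (L (X (L (X (A (L (R D 13632) 4294967295) (X c (L (R D 33856) 4294967295))) (L (X (L (X 86 b) N) (A (L (X (L (X 1048576 (A (L (R D 32) 4294967295) (X c (L (R D 20256) 4294967295)))) N) (P f 2)) N) (L (X (L (X 86 b) N) (A (L (X (L (X 1024 (A (L (R D 64) 4294967295) (X c (L (R D 20288)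 4294967295)))) N) f) N) (L (X (L (X 86 b) N) (A (L (R D 96) 4294967295) (X c (L (R D 20320) 4294967295)))) N))) N))) N)) N) (A 0 (S M (L (L (X 12 1) N) N)))) N) (A (L (X (L (X (A (L (R D 13664) 4294967295) (X c (L (R D 33888) 4294967295))) (L (X (L (X 86 b) N) (A (L (X (L (X 1048576 (A (L (R D 32) 4294967295) (X c (L (R D 20256) 4294967295)))) N) (P f 2)) N) (L (X (L (X 86 b) N) (A (L (X (L (X 1024 (A (L (R D 64) 4294967295) (X c (L (R D 20288) 4294967295)))) N) f) N) (L (X (L (X 86 b) N) (A (L (R D 96) 4294967295) (X c (L (R D 20320) 4294967295)))) N))) N))) N)) N) (A 0 (S M (L (L (X 12 1) N) N)))) N) (L (X (L (X (A (L (R D 13696) 4294967295) (X c (L (R D 33920) 4294967295))) (L (X (L (X 86 b) N) (A (L (X (L (X 1048576 (A (L (R D 32) 4294967295) (X c (L (R D 20256) 4294967295)))) N) (P f 2)) N) (L (X (L (X 86 b) N) (A (L (X (L (X 1024 (A (L (R D 64) 4294967295) (X c (L (R D 20288)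 4294967295)))) N) f) N) (L (X (L (X 86 b) N) (A (L (R D 96) 4294967295) (X c (L (R D 20320) 4294967295)))) N))) N))) N)) N) (L (X 144 1) N)) N))))))) N) (P e 2)) N) g) N) N))), 132, 3, 4, 4, 1⟩,
  ⟨fun A S X L P R M N m a b c d e f g h D => (A (A (L (X (L (X (L (X 0 (P e 3)) N) (P f 5)) N) (P g 3)) N) (S M (L (L (X (L (X (L (X 86 b) N) (A (L (X (L (X 1048576 (A (L (R D 32) 4294967295) (X c (L (R D 20256) 4294967295)))) N) (P f 2)) N) (L (X (L (X 86 b) N) (A (L (X (L (X 1024 (A (L (R D 64) 4294967295) (X c (L (R D 20288) 4294967295)))) N) f) N) (L (X (L (X 86 b) N) (A (L (R D 96) 4294967295) (X c (L (R D 20320) 4294967295)))) N))) N))) N) (L (X (A (L (X 1 (A (L (R D 128) 4294967295) (X a (A (L (R D 160) 4294967295) (X a (L (R D 192) 4294967295)))))) N) (L (X c (A (L (R D 20352) 4294967295) (X a (A (L (R D 20384) 4294967295) (X a (L (R D 20416) 4294967295)))))) N)) (L (X 1 (A (L (X (L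 (X (A (L (X (L (X 1024 (A (A (L (R D 576) 4294967295) (X c (L (R D 20800) 4294967295))) (S M (L (X 2147483648 (A 1 (X c 1))) N)))) N) e) N) (L (X (L (X 171 a) N) (A (A (L (R D 672) 4294967295) (X c (L (R D 20896) 4294967295))) (S M (L (X 2147483648 (A 1 (X c 1))) N)))) N)) (L (X 86 b) N)) N) f) N) (L (X (L (X (A (A (L (R D 640) 4294967295) (X c (L (R D 20864) 4294967295))) (S M (L (X 2147483648 (A 1 (X c 1))) N))) (L (X (L (X 86 b) N) (L (X 86 b) N)) N)) N) e) N))) N)) N)) N) N))) (S M (L (L (X (L (X (L (X 33554432 (A (L (X (L (X 1024 (L (X (L (X (A (L (R D 13568) 4294967295) (X c (L (R D 33792) 4294967295))) (L (X (L (X 86 b) N) (A (L (X (L (X 1048576 (A (L (R D 32) 4294967295) (X c (L (R D 20256) 4294967295)))) N) (P f 2)) N) (L (X (L (X 86 b) N) (A (L (X (L (X 1024 (A (L (R D 64) 4294967295) (X c (L (R D 20288) 4294967295)))) N) f) N) (L (X (L (X 86 b) N) (A (L (R D 96) 4294967295)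 (X c (L (R D 20320) 4294967295)))) N))) N))) N)) N) (A (L (X 0 f) N) (S M (L (L (X 12 (L (X 86 b) N)) N) N)))) N)) N) f) N) (A (L (X (L (X (A (L (R D 13632) 4294967295) (X c (L (R D 33856) 4294967295))) (L (X (L (X 86 b) N) (A (L (X (L (X 1048576 (A (L (R D 32) 4294967295) (X c (L (R D 20256) 4294967295)))) N) (P f 2)) N) (L (X (L (X 86 b) N) (A (L (X (L (X 1024 (A (L (R D 64) 4294967295) (X c (L (R D 20288) 4294967295)))) N) f) N) (L (X (L (X 86 b) N) (A (L (R D 96) 4294967295) (X c (L (R D 20320) 4294967295)))) N))) N))) N)) N) (A (L (X (L (X 1024 (L (X 86 b) N)) N) f) N) (S M (L (L (X 12 (L (X (L (X 86 b) N) (L (X 86 b) N)) N)) N) N)))) N) (A (L (X (L (X (A (L (R D 13664) 4294967295) (X c (L (R D 33888) 4294967295))) (L (X (L (X 86 b) N) (A (L (X (L (X 1048576 (A (L (R D 32) 4294967295) (X c (L (R D 20256) 4294967295)))) N) (P f 2)) N) (L (X (L (X 86 b) N) (A (L (X (L (X 1024 (A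 (L (R D 64) 4294967295) (X c (L (R D 20288) 4294967295)))) N) f) N) (L (X (L (X 86 b) N) (A (L (R D 96) 4294967295) (X c (L (R D 20320) 4294967295)))) N))) N))) N)) N) (A (L (X 0 (P f 2)) N) (S M (L (L (X 12 (L (X (L (X 86 b) N) (L (X 86 b) N)) N)) N) N)))) N) (A (L (X (L (X (A (L (R D 13696) 4294967295) (X c (L (R D 33920) 4294967295))) (L (X (L (X 86 b) N) (A (L (X (L (X 1048576 (A (L (R D 32) 4294967295) (X c (L (R D 20256) 4294967295)))) N) (P f 2)) N) (L (X (L (X 86 b) N) (A (L (X (L (X 1024 (A (L (R D 64) 4294967295) (X c (L (R D 20288) 4294967295)))) N) f) N) (L (X (L (X 86 b) N) (A (L (R D 96) 4294967295) (X c (L (R D 20320) 4294967295)))) N))) N))) N)) N) (A (L (X 144 (L (X (L (X 86 b) N) (L (X 86 b) N)) N)) N) (S M (L (L (X (L (X 1024 (L (X 12 (L (X 86 b) N)) N)) N) f) N) N)))) N) (L (X (L (X 1048576 (L (X (L (X (A (L (R D 13728) 4294967295) (X c (L (R D 33952) 4294967295)))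 (L (X (L (X 86 b) N) (A (L (X (L (X 1048576 (A (L (R D 32) 4294967295) (X c (L (R D 20256) 4294967295)))) N) (P f 2)) N) (L (X (L (X 86 b) N) (A (L (X (L (X 1024 (A (L (R D 64) 4294967295) (X c (L (R D 20288) 4294967295)))) N) f) N) (L (X (L (X 86 b) N) (A (L (R D 96) 4294967295) (X c (L (R D 20320) 4294967295)))) N))) N))) N)) N) (A 0 (S M (L (L (X 12 1) N) N)))) N)) N) (P f 2)) N)))))) N) (P e 3)) N) g) N) N))), 150, 4, 6, 4, 1⟩,
  ⟨fun A S X L P R M N m a b c d e f g h D => (A (A (L (X (L (X (L (X (L (X 590295810358705651712 (L (X (L (X 86 b) N) (A (L (X 1024 (A (L (X (A (L (X (L (X 1024 (A (A (L (R D 9824) 4294967295) (X c (L (R D 30048) 4294967295))) (S M (L (X 2147483648 (A 1 (X c 1))) N)))) N) e) N) (L (X (A (A (L (R D 9856) 4294967295) (X c (L (R D 30080) 4294967295))) (S M (L (X 2147483648 (A 1 (X c 1))) N))) (L (X 171 a) N)) N)) f) N) (L (X (L (X (A (A (L (R D 9888) 4294967295)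 (X c (L (R D 30112) 4294967295))) (S M (L (X 2147483648 (A 1 (X c 1))) N))) (L (X 86 b) N)) N) e) N))) N) (L (X (A (A (L (R D 9920) 4294967295) (X c (L (R D 30144) 4294967295))) (S M (L (X 2147483648 (A 1 (X c 1))) N))) (L (X (L (X 86 b) N) (L (X 171 a) N)) N)) N))) N)) N) (P e 3)) N) (P f 3)) N) (P g 2)) N) (S M (L (L (X (L (X (L (X 86 b) N) (A (L (X (L (X 1048576 (A (L (R D 32) 4294967295) (X c (L (R D 20256) 4294967295)))) N) (P f 2)) N) (L (X (L (X 86 b) N) (A (L (X (L (X 1024 (A (L (R D 64) 4294967295) (X c (L (R D 20288) 4294967295)))) N) f) N) (L (X (L (X 86 b) N) (A (L (R D 96) 4294967295) (X c (L (R D 20320) 4294967295)))) N))) N))) N) (L (X (A (L (X 1 (A (L (R D 128) 4294967295) (X a (A (L (R D 160) 4294967295) (X a (L (R D 192) 4294967295)))))) N) (L (X c (A (L (R D 20352) 4294967295) (X a (A (L (R D 20384) 4294967295) (X a (L (R D 20416) 4294967295)))))) N)) (L (X 1 (A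 (L (X (A (L (X (L (X 1024 (L (X (A (A (L (R D 320) 4294967295) (X c (L (R D 20544) 4294967295))) (S M (L (X 2147483648 (A 1 (X c 1))) N))) (A (L (X (L (X 767 e) N) f) N) (A (L (X (L (X 171 1) N) f) N) (L (X (L (X 86 1) N) e) N)))) N)) N) e) N) (L (X (A (A (L (R D 352) 4294967295) (X c (L (R D 20576) 4294967295))) (S M (L (X 2147483648 (A 1 (X c 1))) N))) (L (X (L (X 171 a) N) (A (L (X (L (X 767 e) N) f) N) (A (L (X (L (X 171 1) N) f) N) (L (X (L (X 86 1) N) e) N)))) N)) N)) f) N) (A (L (X (A (L (X (L (X 1024 (L (X (A (A (L (R D 320) 4294967295) (X c (L (R D 20544) 4294967295))) (S M (L (X 2147483648 (A 1 (X c 1))) N))) (A (L (X 853 e) N) (L (X 171 1) N))) N)) N) e) N) (L (X (A (A (L (R D 352) 4294967295) (X c (L (R D 20576) 4294967295))) (S M (L (X 2147483648 (A 1 (X c 1))) N))) (L (X (L (X 171 a) N) (A (L (X 853 e) N) (L (X 171 1) N))) N)) N)) (P f 2)) N) (L (X (L (X (A (A (L (R D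 416) 4294967295) (X c (L (R D 20640) 4294967295))) (S M (L (X 2147483648 (A 1 (X c 1))) N))) (L (X (L (X 86 b) N) (L (X 86 b) N)) N)) N) (P e 2)) N)))) N)) N)) N) N))) (S M (L (L (X (L (X (L (X 33554432 (A (L (X (L (X 1024 (L (X (L (X (A (L (R D 14112) 4294967295) (X c (L (R D 34336) 4294967295))) (L (X (L (X 86 b) N) (A (L (X (L (X 1048576 (A (L (R D 32) 4294967295) (X c (L (R D 20256) 4294967295)))) N) (P f 2)) N) (L (X (L (X 86 b) N) (A (L (X (L (X 1024 (A (L (R D 64) 4294967295) (X c (L (R D 20288) 4294967295)))) N) f) N) (L (X (L (X 86 b) N) (A (L (R D 96) 4294967295) (X c (L (R D 20320) 4294967295)))) N))) N))) N)) N) (L (X 2 (A (L (X (L (X 767 e) N) f) N) (A (L (X (L (X 171 1) N) f) N) (L (X (L (X 86 1) N) e) N)))) N)) N)) N) f) N) (A (L (X (L (X 1024 (L (X (L (X (A (L (R D 14144) 4294967295) (X c (L (R D 34368) 4294967295))) (L (X (L (X 86 b) N) (A (L (X (L (X 1048576 (A (L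 (R D 32) 4294967295) (X c (L (R D 20256) 4294967295)))) N) (P f 2)) N) (L (X (L (X 86 b) N) (A (L (X (L (X 1024 (A (L (R D 64) 4294967295) (X c (L (R D 20288) 4294967295)))) N) f) N) (L (X (L (X 86 b) N) (A (L (R D 96) 4294967295) (X c (L (R D 20320) 4294967295)))) N))) N))) N)) N) (A (L (X (L (X 767 e) N) f) N) (A (L (X (L (X 171 1) N) f) N) (L (X (L (X 86 1) N) e) N)))) N)) N) f) N) (A (L (X (L (X 1024 (L (X (L (X (A (L (R D 14240) 4294967295) (X c (L (R D 34464) 4294967295))) (L (X (L (X 86 b) N) (A (L (X (L (X 1048576 (A (L (R D 32) 4294967295) (X c (L (R D 20256) 4294967295)))) N) (P f 2)) N) (L (X (L (X 86 b) N) (A (L (X (L (X 1024 (A (L (R D 64) 4294967295) (X c (L (R D 20288) 4294967295)))) N) f) N) (L (X (L (X 86 b) N) (A (L (R D 96) 4294967295) (X c (L (R D 20320) 4294967295)))) N))) N))) N)) N) (L (X 2 (A (L (X (L (X 767 e) N) f) N) (A (L (X (L (X 171 1) N) f) N) (L (X (L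 (X 86 1) N) e) N)))) N)) N)) N) f) N) (A (L (X (L (X 1024 (L (X (L (X (A (L (R D 14272) 4294967295) (X c (L (R D 34496) 4294967295))) (L (X (L (X 86 b) N) (A (L (X (L (X 1048576 (A (L (R D 32) 4294967295) (X c (L (R D 20256) 4294967295)))) N) (P f 2)) N) (L (X (L (X 86 b) N) (A (L (X (L (X 1024 (A (L (R D 64) 4294967295) (X c (L (R D 20288) 4294967295)))) N) f) N) (L (X (L (X 86 b) N) (A (L (R D 96) 4294967295) (X c (L (R D 20320) 4294967295)))) N))) N))) N)) N) (L (X 2 (A (L (X 853 e) N) (L (X 171 1) N))) N)) N)) N) (P f 2)) N) (A (L (X (L (X (A (L (R D 14304) 4294967295) (X c (L (R D 34528) 4294967295))) (L (X (L (X 86 b) N) (A (L (X (L (X 1048576 (A (L (R D 32) 4294967295) (X c (L (R D 20256) 4294967295)))) N) (P f 2)) N) (L (X (L (X 86 b) N) (A (L (X (L (X 1024 (A (L (R D 64) 4294967295) (X c (L (R D 20288) 4294967295)))) N) f) N) (L (X (L (X 86 b) N) (A (L (R D 96) 4294967295)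 (X c (L (R D 20320) 4294967295)))) N))) N))) N)) N) (A (L (X (L (X 1024 (A (L (X 853 e) N) (L (X 171 1) N))) N) (P f 2)) N) (S M (L (L (X (L (X 12 (L (X (L (X 86 b) N) (L (X 86 b) N)) N)) N) e) N) N)))) N) (A (L (X (L (X (L (X (A (L (R D 14368) 4294967295) (X c (L (R D 34592) 4294967295))) (L (X (L (X 86 b) N) (A (L (X (L (X 1048576 (A (L (R D 32) 4294967295) (X c (L (R D 20256) 4294967295)))) N) (P f 2)) N) (L (X (L (X 86 b) N) (A (L (X (L (X 1024 (A (L (R D 64) 4294967295) (X c (L (R D 20288) 4294967295)))) N) f) N) (L (X (L (X 86 b) N) (A (L (R D 96) 4294967295) (X c (L (R D 20320) 4294967295)))) N))) N))) N)) N) (L (X 2 (L (X (L (X 86 b) N) (L (X 86 b) N)) N)) N)) N) e) N) (A (L (X (L (X (A (L (R D 14400) 4294967295) (X c (L (R D 34624) 4294967295))) (L (X (L (X 86 b) N) (A (L (X (L (X 1048576 (A (L (R D 32) 4294967295) (X c (L (R D 20256) 4294967295)))) N) (P f 2)) N) (L (X (L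 (X 86 b) N) (A (L (X (L (X 1024 (A (L (R D 64) 4294967295) (X c (L (R D 20288) 4294967295)))) N) f) N) (L (X (L (X 86 b) N) (A (L (R D 96) 4294967295) (X c (L (R D 20320) 4294967295)))) N))) N))) N)) N) (A (L (X (L (X 1024 (L (X 2 (A (L (X 853 e) N) (L (X 171 1) N))) N)) N) (P f 2)) N) (S M (L (L (X (L (X 24 (L (X (L (X 86 b) N) (L (X 86 b) N)) N)) N) e) N) N)))) N) (L (X (L (X (L (X 1048576 (L (X (L (X (A (L (R D 14432) 4294967295) (X c (L (R D 34656) 4294967295))) (L (X (L (X 86 b) N) (A (L (X (L (X 1048576 (A (L (R D 32) 4294967295) (X c (L (R D 20256) 4294967295)))) N) (P f 2)) N) (L (X (L (X 86 b) N) (A (L (X (L (X 1024 (A (L (R D 64) 4294967295) (X c (L (R D 20288) 4294967295)))) N) f) N) (L (X (L (X 86 b) N) (A (L (R D 96) 4294967295) (X c (L (R D 20320) 4294967295)))) N))) N))) N)) N) 2) N)) N) e) N) (P f 2)) N))))))))) N) (P e 3)) N) g) N) N))), 155, 5, 6, 4, 1⟩,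
  ⟨fun A S X L P R M N m a b c d e f g h D => (A (A (L (X (L (X (L (X 0 (P e 3)) N) (P f 3)) N) (P g 3)) N) (S M (L (L (X (L (X (L (X 86 b) N) (A (L (X (L (X 1048576 (A (L (R D 32) 4294967295) (X c (L (R D 20256) 4294967295)))) N) (P f 2)) N) (L (X (L (X 86 b) N) (A (L (X (L (X 1024 (A (L (R D 64) 4294967295) (X c (L (R D 20288) 4294967295)))) N) f) N) (L (X (L (X 86 b) N) (A (L (R D 96) 4294967295) (X c (L (R D 20320) 4294967295)))) N))) N))) N) (L (X (A (L (X 1 (A (L (R D 128) 4294967295) (X a (A (L (R D 160) 4294967295) (X a (L (R D 192) 4294967295)))))) N) (L (X c (A (L (R D 20352) 4294967295) (X a (A (L (R D 20384) 4294967295) (X a (L (R D 20416) 4294967295)))))) N)) (L (X 1 (A (L (X (A (L (X (L (X 1024 (A (A (L (R D 384) 4294967295) (X c (L (R D 20608) 4294967295))) (S M (L (X 2147483648 (A 1 (X c 1))) N)))) N) e) N) (L (X (L (X 171 a) N) (A (A (L (R D 480) 4294967295) (X c (L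 (R D 20704) 4294967295))) (S M (L (X 2147483648 (A 1 (X c 1))) N)))) N)) 1) N) (L (X (A (L (X (L (X 1024 (A (A (L (R D 384) 4294967295) (X c (L (R D 20608) 4294967295))) (S M (L (X 2147483648 (A 1 (X c 1))) N)))) N) e) N) (L (X (L (X 171 a) N) (A (A (L (R D 480) 4294967295) (X c (L (R D 20704) 4294967295))) (S M (L (X 2147483648 (A 1 (X c 1))) N)))) N)) 1) N))) N)) N)) N) N))) (S M (L (L (X (L (X (L (X 34359738368 (A (L (X (L (X (A (L (R D 14112) 4294967295) (X c (L (R D 34336) 4294967295))) (L (X (L (X 86 b) N) (A (L (X (L (X 1048576 (A (L (R D 32) 4294967295) (X c (L (R D 20256) 4294967295)))) N) (P f 2)) N) (L (X (L (X 86 b) N) (A (L (X (L (X 1024 (A (L (R D 64) 4294967295) (X c (L (R D 20288) 4294967295)))) N) f) N) (L (X (L (X 86 b) N) (A (L (R D 96) 4294967295) (X c (L (R D 20320) 4294967295)))) N))) N))) N)) N) (A 0 (S M (L (L (X 12 1) N) N)))) N) (A (L (X (L (X (A (L (R D 14176)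 4294967295) (X c (L (R D 34400) 4294967295))) (L (X (L (X 86 b) N) (A (L (X (L (X 1048576 (A (L (R D 32) 4294967295) (X c (L (R D 20256) 4294967295)))) N) (P f 2)) N) (L (X (L (X 86 b) N) (A (L (X (L (X 1024 (A (L (R D 64) 4294967295) (X c (L (R D 20288) 4294967295)))) N) f) N) (L (X (L (X 86 b) N) (A (L (R D 96) 4294967295) (X c (L (R D 20320) 4294967295)))) N))) N))) N)) N) 1) N) (A (L (X (L (X (A (L (R D 14240) 4294967295) (X c (L (R D 34464) 4294967295))) (L (X (L (X 86 b) N) (A (L (X (L (X 1048576 (A (L (R D 32) 4294967295) (X c (L (R D 20256) 4294967295)))) N) (P f 2)) N) (L (X (L (X 86 b) N) (A (L (X (L (X 1024 (A (L (R D 64) 4294967295) (X c (L (R D 20288) 4294967295)))) N) f) N) (L (X (L (X 86 b) N) (A (L (R D 96) 4294967295) (X c (L (R D 20320) 4294967295)))) N))) N))) N)) N) (A 0 (S M (L (L (X 12 1) N) N)))) N) (A (L (X (L (X (A (L (R D 14272) 4294967295) (X c (L (R D 34496)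 4294967295))) (L (X (L (X 86 b) N) (A (L (X (L (X 1048576 (A (L (R D 32) 4294967295) (X c (L (R D 20256) 4294967295)))) N) (P f 2)) N) (L (X (L (X 86 b) N) (A (L (X (L (X 1024 (A (L (R D 64) 4294967295) (X c (L (R D 20288) 4294967295)))) N) f) N) (L (X (L (X 86 b) N) (A (L (R D 96) 4294967295) (X c (L (R D 20320) 4294967295)))) N))) N))) N)) N) (A 0 (S M (L (L (X 12 1) N) N)))) N) (A (L (X (L (X (A (L (R D 14336) 4294967295) (X c (L (R D 34560) 4294967295))) (L (X (L (X 86 b) N) (A (L (X (L (X 1048576 (A (L (R D 32) 4294967295) (X c (L (R D 20256) 4294967295)))) N) (P f 2)) N) (L (X (L (X 86 b) N) (A (L (X (L (X 1024 (A (L (R D 64) 4294967295) (X c (L (R D 20288) 4294967295)))) N) f) N) (L (X (L (X 86 b) N) (A (L (R D 96) 4294967295) (X c (L (R D 20320) 4294967295)))) N))) N))) N)) N) 1) N) (L (X (L (X (A (L (R D 14400) 4294967295) (X c (L (R D 34624) 4294967295))) (L (X (L (X 86 b)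 N) (A (L (X (L (X 1048576 (A (L (R D 32) 4294967295) (X c (L (R D 20256) 4294967295)))) N) (P f 2)) N) (L (X (L (X 86 b) N) (A (L (X (L (X 1024 (A (L (R D 64) 4294967295) (X c (L (R D 20288) 4294967295)))) N) f) N) (L (X (L (X 86 b) N) (A (L (R D 96) 4294967295) (X c (L (R D 20320) 4294967295)))) N))) N))) N)) N) (A 0 (S M (L (L (X 12 1) N) N)))) N))))))) N) (P e 3)) N) g) N) N))), 142, 4, 4, 4, 1⟩,
  ⟨fun A S X L P R M N m a b c d e f g h D => (A (A (L (X (L (X (L (X 0 (P e 2)) N) (P f 3)) N) (P g 3)) N) (S M (L (L (X (L (X (L (X 86 b) N) (A (L (X (L (X 1048576 (A (L (R D 32) 4294967295) (X c (L (R D 20256) 4294967295)))) N) (P f 2)) N) (L (X (L (X 86 b) N) (A (L (X (L (X 1024 (A (L (R D 64) 4294967295) (X c (L (R D 20288) 4294967295)))) N) f) N) (L (X (L (X 86 b) N) (A (L (R D 96) 4294967295) (X c (L (R D 20320) 4294967295)))) N))) N))) N) (L (X (A (L (X 1 (A (L (R D 128) 4294967295)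 (X a (A (L (R D 160) 4294967295) (X a (L (R D 192) 4294967295)))))) N) (L (X c (A (L (R D 20352) 4294967295) (X a (A (L (R D 20384) 4294967295) (X a (L (R D 20416) 4294967295)))))) N)) (L (X 1 (A (L (X (A (A (L (R D 416) 4294967295) (X c (L (R D 20640) 4294967295))) (S M (L (X 2147483648 (A 1 (X c 1))) N))) 1) N) (L (X (A (A (L (R D 416) 4294967295) (X c (L (R D 20640) 4294967295))) (S M (L (X 2147483648 (A 1 (X c 1))) N))) 1) N))) N)) N)) N) N))) (S M (L (L (X (L (X (L (X 33554432 (A (L (X (L (X (A (L (R D 14144) 4294967295) (X c (L (R D 34368) 4294967295))) (L (X (L (X 86 b) N) (A (L (X (L (X 1048576 (A (L (R D 32) 4294967295) (X c (L (R D 20256) 4294967295)))) N) (P f 2)) N) (L (X (L (X 86 b) N) (A (L (X (L (X 1024 (A (L (R D 64) 4294967295) (X c (L (R D 20288) 4294967295)))) N) f) N) (L (X (L (X 86 b) N) (A (L (R D 96) 4294967295) (X c (L (R D 20320) 4294967295)))) N))) N))) N))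 N) (A 0 (S M (L (L (X 12 1) N) N)))) N) (A (L (X (L (X (A (L (R D 14208) 4294967295) (X c (L (R D 34432) 4294967295))) (L (X (L (X 86 b) N) (A (L (X (L (X 1048576 (A (L (R D 32) 4294967295) (X c (L (R D 20256) 4294967295)))) N) (P f 2)) N) (L (X (L (X 86 b) N) (A (L (X (L (X 1024 (A (L (R D 64) 4294967295) (X c (L (R D 20288) 4294967295)))) N) f) N) (L (X (L (X 86 b) N) (A (L (R D 96) 4294967295) (X c (L (R D 20320) 4294967295)))) N))) N))) N)) N) (L (X 2 1) N)) N) (A (L (X (L (X (A (L (R D 14240) 4294967295) (X c (L (R D 34464) 4294967295))) (L (X (L (X 86 b) N) (A (L (X (L (X 1048576 (A (L (R D 32) 4294967295) (X c (L (R D 20256) 4294967295)))) N) (P f 2)) N) (L (X (L (X 86 b) N) (A (L (X (L (X 1024 (A (L (R D 64) 4294967295) (X c (L (R D 20288) 4294967295)))) N) f) N) (L (X (L (X 86 b) N) (A (L (R D 96) 4294967295) (X c (L (R D 20320) 4294967295)))) N))) N))) N)) N) (A 0 (S M (L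 (L (X 24 1) N) N)))) N) (A (L (X (L (X (A (L (R D 14304) 4294967295) (X c (L (R D 34528) 4294967295))) (L (X (L (X 86 b) N) (A (L (X (L (X 1048576 (A (L (R D 32) 4294967295) (X c (L (R D 20256) 4294967295)))) N) (P f 2)) N) (L (X (L (X 86 b) N) (A (L (X (L (X 1024 (A (L (R D 64) 4294967295) (X c (L (R D 20288) 4294967295)))) N) f) N) (L (X (L (X 86 b) N) (A (L (R D 96) 4294967295) (X c (L (R D 20320) 4294967295)))) N))) N))) N)) N) (A 0 (S M (L (L (X 12 1) N) N)))) N) (A (L (X (L (X (A (L (R D 14368) 4294967295) (X c (L (R D 34592) 4294967295))) (L (X (L (X 86 b) N) (A (L (X (L (X 1048576 (A (L (R D 32) 4294967295) (X c (L (R D 20256) 4294967295)))) N) (P f 2)) N) (L (X (L (X 86 b) N) (A (L (X (L (X 1024 (A (L (R D 64) 4294967295) (X c (L (R D 20288) 4294967295)))) N) f) N) (L (X (L (X 86 b) N) (A (L (R D 96) 4294967295) (X c (L (R D 20320) 4294967295)))) N))) N))) N)) N) (L (X 2 1)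 N)) N) (L (X (L (X (A (L (R D 14400) 4294967295) (X c (L (R D 34624) 4294967295))) (L (X (L (X 86 b) N) (A (L (X (L (X 1048576 (A (L (R D 32) 4294967295) (X c (L (R D 20256) 4294967295)))) N) (P f 2)) N) (L (X (L (X 86 b) N) (A (L (X (L (X 1024 (A (L (R D 64) 4294967295) (X c (L (R D 20288) 4294967295)))) N) f) N) (L (X (L (X 86 b) N) (A (L (R D 96) 4294967295) (X c (L (R D 20320) 4294967295)))) N))) N))) N)) N) (A 0 (S M (L (L (X 24 1) N) N)))) N))))))) N) (P e 2)) N) g) N) N))), 131, 3, 4, 4, 1⟩,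
  ⟨fun A S X L P R M N m a b c d e f g h D => (A (A (L (X (L (X (L (X 0 (P e 2)) N) (P f 3)) N) (P g 3)) N) (S M (L (L (X (L (X (L (X 86 b) N) (A (L (X (L (X 1048576 (A (L (R D 32) 4294967295) (X c (L (R D 20256) 4294967295)))) N) (P f 2)) N) (L (X (L (X 86 b) N) (A (L (X (L (X 1024 (A (L (R D 64) 4294967295) (X c (L (R D 20288) 4294967295)))) N) f) N) (L (X (L (X 86 b) N) (A (L (R D 96) 4294967295) (X c (L (R D 20320) 4294967295)))) N))) N))) N) (L (X (A (L (X 1 (A (L (R D 128) 4294967295) (X a (A (L (R D 160) 4294967295) (X a (L (R D 192) 4294967295)))))) N) (L (X c (A (L (R D 20352) 4294967295) (X a (A (L (R D 20384) 4294967295) (X a (L (R D 20416) 4294967295)))))) N)) (L (X 1 (A (L (X (A (A (L (R D 448) 4294967295) (X c (L (R D 20672) 4294967295))) (S M (L (X 2147483648 (A 1 (X c 1))) N))) 1) N) (L (X (A (A (L (R D 448) 4294967295) (X c (L (R D 20672) 4294967295))) (S M (L (X 2147483648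 (A 1 (X c 1))) N))) 1) N))) N)) N)) N) N))) (S M (L (L (X (L (X (L (X 33554432 (A (L (X (L (X (A (L (R D 14176) 4294967295) (X c (L (R D 34400) 4294967295))) (L (X (L (X 86 b) N) (A (L (X (L (X 1048576 (A (L (R D 32) 4294967295) (X c (L (R D 20256) 4294967295)))) N) (P f 2)) N) (L (X (L (X 86 b) N) (A (L (X (L (X 1024 (A (L (R D 64) 4294967295) (X c (L (R D 20288) 4294967295)))) N) f) N) (L (X (L (X 86 b) N) (A (L (R D 96) 4294967295) (X c (L (R D 20320) 4294967295)))) N))) N))) N)) N) (A 0 (S M (L (L (X 12 1) N) N)))) N) (A (L (X (L (X (A (L (R D 14208) 4294967295) (X c (L (R D 34432) 4294967295))) (L (X (L (X 86 b) N) (A (L (X (L (X 1048576 (A (L (R D 32) 4294967295) (X c (L (R D 20256) 4294967295)))) N) (P f 2)) N) (L (X (L (X 86 b) N) (A (L (X (L (X 1024 (A (L (R D 64) 4294967295) (X c (L (R D 20288) 4294967295)))) N) f) N) (L (X (L (X 86 b) N) (A (L (R D 96) 4294967295) (X c (L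 (R D 20320) 4294967295)))) N))) N))) N)) N) (A 0 (S M (L (L (X 12 1) N) N)))) N) (A (L (X (L (X (A (L (R D 14240) 4294967295) (X c (L (R D 34464) 4294967295))) (L (X (L (X 86 b) N) (A (L (X (L (X 1048576 (A (L (R D 32) 4294967295) (X c (L (R D 20256) 4294967295)))) N) (P f 2)) N) (L (X (L (X 86 b) N) (A (L (X (L (X 1024 (A (L (R D 64) 4294967295) (X c (L (R D 20288) 4294967295)))) N) f) N) (L (X (L (X 86 b) N) (A (L (R D 96) 4294967295) (X c (L (R D 20320) 4294967295)))) N))) N))) N)) N) (L (X 144 1) N)) N) (A (L (X (L (X (A (L (R D 14336) 4294967295) (X c (L (R D 34560) 4294967295))) (L (X (L (X 86 b) N) (A (L (X (L (X 1048576 (A (L (R D 32) 4294967295) (X c (L (R D 20256) 4294967295)))) N) (P f 2)) N) (L (X (L (X 86 b) N) (A (L (X (L (X 1024 (A (L (R D 64) 4294967295) (X c (L (R D 20288) 4294967295)))) N) f) N) (L (X (L (X 86 b) N) (A (L (R D 96) 4294967295) (X c (L (R D 20320) 4294967295))))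 N))) N))) N)) N) (A 0 (S M (L (L (X 12 1) N) N)))) N) (A (L (X (L (X (A (L (R D 14368) 4294967295) (X c (L (R D 34592) 4294967295))) (L (X (L (X 86 b) N) (A (L (X (L (X 1048576 (A (L (R D 32) 4294967295) (X c (L (R D 20256) 4294967295)))) N) (P f 2)) N) (L (X (L (X 86 b) N) (A (L (X (L (X 1024 (A (L (R D 64) 4294967295) (X c (L (R D 20288) 4294967295)))) N) f) N) (L (X (L (X 86 b) N) (A (L (R D 96) 4294967295) (X c (L (R D 20320) 4294967295)))) N))) N))) N)) N) (A 0 (S M (L (L (X 12 1) N) N)))) N) (L (X (L (X (A (L (R D 14400) 4294967295) (X c (L (R D 34624) 4294967295))) (L (X (L (X 86 b) N) (A (L (X (L (X 1048576 (A (L (R D 32) 4294967295) (X c (L (R D 20256) 4294967295)))) N) (P f 2)) N) (L (X (L (X 86 b) N) (A (L (X (L (X 1024 (A (L (R D 64) 4294967295) (X c (L (R D 20288) 4294967295)))) N) f) N) (L (X (L (X 86 b) N) (A (L (R D 96) 4294967295) (X c (L (R D 20320) 4294967295))))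 N))) N))) N)) N) (L (X 144 1) N)) N))))))) N) (P e 2)) N) g) N) N))), 132, 3, 4, 4, 1⟩,
  ⟨fun A S X L P R M N m a b c d e f g h D => (A (A (L (X (L (X (L (X 0 (P e 3)) N) (P f 5)) N) (P g 3)) N) (S M (L (L (X (L (X (L (X 86 b) N) (A (L (X (L (X 1048576 (A (L (R D 32) 4294967295) (X c (L (R D 20256) 4294967295)))) N) (P f 2)) N) (L (X (L (X 86 b) N) (A (L (X (L (X 1024 (A (L (R D 64) 4294967295) (X c (L (R D 20288) 4294967295)))) N) f) N) (L (X (L (X 86 b) N) (A (L (R D 96) 4294967295) (X c (L (R D 20320) 4294967295)))) N))) N))) N) (L (X (A (L (X 1 (A (L (R D 128) 4294967295) (X a (A (L (R D 160) 4294967295) (X a (L (R D 192) 4294967295)))))) N) (L (X c (A (L (R D 20352) 4294967295) (X a (A (L (R D 20384) 4294967295) (X a (L (R D 20416) 4294967295)))))) N)) (L (X 1 (A (L (X (L (X (A (L (X (L (X 1024 (A (A (L (R D 384) 4294967295) (X c (L (R D 20608) 4294967295))) (S M (L (X 2147483648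 (A 1 (X c 1))) N)))) N) e) N) (L (X (L (X 171 a) N) (A (A (L (R D 480) 4294967295) (X c (L (R D 20704) 4294967295))) (S M (L (X 2147483648 (A 1 (X c 1))) N)))) N)) (L (X 86 b) N)) N) f) N) (L (X (L (X (A (A (L (R D 448) 4294967295) (X c (L (R D 20672) 4294967295))) (S M (L (X 2147483648 (A 1 (X c 1))) N))) (L (X (L (X 86 b) N) (L (X 86 b) N)) N)) N) e) N))) N)) N)) N) N))) (S M (L (L (X (L (X (L (X 33554432 (A (L (X (L (X 1024 (L (X (L (X (A (L (R D 14272) 4294967295) (X c (L (R D 34496) 4294967295))) (L (X (L (X 86 b) N) (A (L (X (L (X 1048576 (A (L (R D 32) 4294967295) (X c (L (R D 20256) 4294967295)))) N) (P f 2)) N) (L (X (L (X 86 b) N) (A (L (X (L (X 1024 (A (L (R D 64) 4294967295) (X c (L (R D 20288) 4294967295)))) N) f) N) (L (X (L (X 86 b) N) (A (L (R D 96) 4294967295) (X c (L (R D 20320) 4294967295)))) N))) N))) N)) N) (A (L (X 0 f) N) (S M (L (L (X 12 (L (X 86 b) N)) N) N))))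 N)) N) f) N) (A (L (X (L (X (A (L (R D 14336) 4294967295) (X c (L (R D 34560) 4294967295))) (L (X (L (X 86 b) N) (A (L (X (L (X 1048576 (A (L (R D 32) 4294967295) (X c (L (R D 20256) 4294967295)))) N) (P f 2)) N) (L (X (L (X 86 b) N) (A (L (X (L (X 1024 (A (L (R D 64) 4294967295) (X c (L (R D 20288) 4294967295)))) N) f) N) (L (X (L (X 86 b) N) (A (L (R D 96) 4294967295) (X c (L (R D 20320) 4294967295)))) N))) N))) N)) N) (A (L (X (L (X 1024 (L (X 86 b) N)) N) f) N) (S M (L (L (X 12 (L (X (L (X 86 b) N) (L (X 86 b) N)) N)) N) N)))) N) (A (L (X (L (X (A (L (R D 14368) 4294967295) (X c (L (R D 34592) 4294967295))) (L (X (L (X 86 b) N) (A (L (X (L (X 1048576 (A (L (R D 32) 4294967295) (X c (L (R D 20256) 4294967295)))) N) (P f 2)) N) (L (X (L (X 86 b) N) (A (L (X (L (X 1024 (A (L (R D 64) 4294967295) (X c (L (R D 20288) 4294967295)))) N) f) N) (L (X (L (X 86 b) N) (A (L (R D 96) 4294967295)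 (X c (L (R D 20320) 4294967295)))) N))) N))) N)) N) (A (L (X 0 (P f 2)) N) (S M (L (L (X 12 (L (X (L (X 86 b) N) (L (X 86 b) N)) N)) N) N)))) N) (A (L (X (L (X (A (L (R D 14400) 4294967295) (X c (L (R D 34624) 4294967295))) (L (X (L (X 86 b) N) (A (L (X (L (X 1048576 (A (L (R D 32) 4294967295) (X c (L (R D 20256) 4294967295)))) N) (P f 2)) N) (L (X (L (X 86 b) N) (A (L (X (L (X 1024 (A (L (R D 64) 4294967295) (X c (L (R D 20288) 4294967295)))) N) f) N) (L (X (L (X 86 b) N) (A (L (R D 96) 4294967295) (X c (L (R D 20320) 4294967295)))) N))) N))) N)) N) (A (L (X 144 (L (X (L (X 86 b) N) (L (X 86 b) N)) N)) N) (S M (L (L (X (L (X 1024 (L (X 12 (L (X 86 b) N)) N)) N) f) N) N)))) N) (L (X (L (X 1048576 (L (X (L (X (A (L (R D 14432) 4294967295) (X c (L (R D 34656) 4294967295))) (L (X (L (X 86 b) N) (A (L (X (L (X 1048576 (A (L (R D 32) 4294967295) (X c (L (R D 20256) 4294967295)))) N) (P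 f 2)) N) (L (X (L (X 86 b) N) (A (L (X (L (X 1024 (A (L (R D 64) 4294967295) (X c (L (R D 20288) 4294967295)))) N) f) N) (L (X (L (X 86 b) N) (A (L (R D 96) 4294967295) (X c (L (R D 20320) 4294967295)))) N))) N))) N)) N) (A 0 (S M (L (L (X 12 1) N) N)))) N)) N) (P f 2)) N)))))) N) (P e 3)) N) g) N) N))), 150, 4, 6, 4, 1⟩,
  ⟨fun A S X L P R M N m a b c d e f g h D => (A (A (L (X (L (X (L (X (L (X 590295810358705651712 (L (X (L (X 86 b) N) (A (L (X 1024 (A (L (X (A (L (X (L (X 1024 (A (A (L (R D 10080) 4294967295) (X c (L (R D 30304) 4294967295))) (S M (L (X 2147483648 (A 1 (X c 1))) N)))) N) e) N) (L (X (A (A (L (R D 10112) 4294967295) (X c (L (R D 30336) 4294967295))) (S M (L (X 2147483648 (A 1 (X c 1))) N))) (L (X 171 a) N)) N)) f) N) (L (X (L (X (A (A (L (R D 10144) 4294967295) (X c (L (R D 30368) 4294967295))) (S M (L (X 2147483648 (A 1 (X c 1))) N))) (L (X 86 b) N)) N) e) N)))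 N) (L (X (A (A (L (R D 10176) 4294967295) (X c (L (R D 30400) 4294967295))) (S M (L (X 2147483648 (A 1 (X c 1))) N))) (L (X (L (X 86 b) N) (L (X 171 a) N)) N)) N))) N)) N) (P e 3)) N) (P f 3)) N) (P g 2)) N) (S M (L (L (X (L (X (L (X 86 b) N) (A (L (X (L (X 1048576 (A (L (R D 32) 4294967295) (X c (L (R D 20256) 4294967295)))) N) (P f 2)) N) (L (X (L (X 86 b) N) (A (L (X (L (X 1024 (A (L (R D 64) 4294967295) (X c (L (R D 20288) 4294967295)))) N) f) N) (L (X (L (X 86 b) N) (A (L (R D 96) 4294967295) (X c (L (R D 20320) 4294967295)))) N))) N))) N) (L (X (A (L (X 1 (A (L (R D 128) 4294967295) (X a (A (L (R D 160) 4294967295) (X a (L (R D 192) 4294967295)))))) N) (L (X c (A (L (R D 20352) 4294967295) (X a (A (L (R D 20384) 4294967295) (X a (L (R D 20416) 4294967295)))))) N)) (L (X 1 (A (L (X (A (L (X (L (X 1024 (L (X (A (A (L (R D 512) 4294967295) (X c (L (R D 20736) 4294967295))) (S M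 (L (X 2147483648 (A 1 (X c 1))) N))) (A (L (X (L (X 767 e) N) f) N) (A (L (X (L (X 171 1) N) f) N) (L (X (L (X 86 1) N) e) N)))) N)) N) e) N) (L (X (A (A (L (R D 544) 4294967295) (X c (L (R D 20768) 4294967295))) (S M (L (X 2147483648 (A 1 (X c 1))) N))) (L (X (L (X 171 a) N) (A (L (X (L (X 767 e) N) f) N) (A (L (X (L (X 171 1) N) f) N) (L (X (L (X 86 1) N) e) N)))) N)) N)) f) N) (A (L (X (A (L (X (L (X 1024 (L (X (A (A (L (R D 512) 4294967295) (X c (L (R D 20736) 4294967295))) (S M (L (X 2147483648 (A 1 (X c 1))) N))) (A (L (X 853 e) N) (L (X 171 1) N))) N)) N) e) N) (L (X (A (A (L (R D 544) 4294967295) (X c (L (R D 20768) 4294967295))) (S M (L (X 2147483648 (A 1 (X c 1))) N))) (L (X (L (X 171 a) N) (A (L (X 853 e) N) (L (X 171 1) N))) N)) N)) (P f 2)) N) (L (X (L (X (A (A (L (R D 608) 4294967295) (X c (L (R D 20832) 4294967295))) (S M (L (X 2147483648 (A 1 (X c 1))) N))) (L (X (L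 (X 86 b) N) (L (X 86 b) N)) N)) N) (P e 2)) N)))) N)) N)) N) N))) (S M (L (L (X (L (X (L (X 33554432 (A (L (X (L (X 1024 (L (X (L (X (A (L (R D 14816) 4294967295) (X c (L (R D 35040) 4294967295))) (L (X (L (X 86 b) N) (A (L (X (L (X 1048576 (A (L (R D 32) 4294967295) (X c (L (R D 20256) 4294967295)))) N) (P f 2)) N) (L (X (L (X 86 b) N) (A (L (X (L (X 1024 (A (L (R D 64) 4294967295) (X c (L (R D 20288) 4294967295)))) N) f) N) (L (X (L (X 86 b) N) (A (L (R D 96) 4294967295) (X c (L (R D 20320) 4294967295)))) N))) N))) N)) N) (L (X 2 (A (L (X (L (X 767 e) N) f) N) (A (L (X (L (X 171 1) N) f) N) (L (X (L (X 86 1) N) e) N)))) N)) N)) N) f) N) (A (L (X (L (X 1024 (L (X (L (X (A (L (R D 14848) 4294967295) (X c (L (R D 35072) 4294967295))) (L (X (L (X 86 b) N) (A (L (X (L (X 1048576 (A (L (R D 32) 4294967295) (X c (L (R D 20256) 4294967295)))) N) (P f 2)) N) (L (X (L (X 86 b) N) (A (L (X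 (L (X 1024 (A (L (R D 64) 4294967295) (X c (L (R D 20288) 4294967295)))) N) f) N) (L (X (L (X 86 b) N) (A (L (R D 96) 4294967295) (X c (L (R D 20320) 4294967295)))) N))) N))) N)) N) (A (L (X (L (X 767 e) N) f) N) (A (L (X (L (X 171 1) N) f) N) (L (X (L (X 86 1) N) e) N)))) N)) N) f) N) (A (L (X (L (X 1024 (L (X (L (X (A (L (R D 14944) 4294967295) (X c (L (R D 35168) 4294967295))) (L (X (L (X 86 b) N) (A (L (X (L (X 1048576 (A (L (R D 32) 4294967295) (X c (L (R D 20256) 4294967295)))) N) (P f 2)) N) (L (X (L (X 86 b) N) (A (L (X (L (X 1024 (A (L (R D 64) 4294967295) (X c (L (R D 20288) 4294967295)))) N) f) N) (L (X (L (X 86 b) N) (A (L (R D 96) 4294967295) (X c (L (R D 20320) 4294967295)))) N))) N))) N)) N) (L (X 2 (A (L (X (L (X 767 e) N) f) N) (A (L (X (L (X 171 1) N) f) N) (L (X (L (X 86 1) N) e) N)))) N)) N)) N) f) N) (A (L (X (L (X 1024 (L (X (L (X (A (L (R D 14976) 4294967295)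 (X c (L (R D 35200) 4294967295))) (L (X (L (X 86 b) N) (A (L (X (L (X 1048576 (A (L (R D 32) 4294967295) (X c (L (R D 20256) 4294967295)))) N) (P f 2)) N) (L (X (L (X 86 b) N) (A (L (X (L (X 1024 (A (L (R D 64) 4294967295) (X c (L (R D 20288) 4294967295)))) N) f) N) (L (X (L (X 86 b) N) (A (L (R D 96) 4294967295) (X c (L (R D 20320) 4294967295)))) N))) N))) N)) N) (L (X 2 (A (L (X 853 e) N) (L (X 171 1) N))) N)) N)) N) (P f 2)) N) (A (L (X (L (X (A (L (R D 15008) 4294967295) (X c (L (R D 35232) 4294967295))) (L (X (L (X 86 b) N) (A (L (X (L (X 1048576 (A (L (R D 32) 4294967295) (X c (L (R D 20256) 4294967295)))) N) (P f 2)) N) (L (X (L (X 86 b) N) (A (L (X (L (X 1024 (A (L (R D 64) 4294967295) (X c (L (R D 20288) 4294967295)))) N) f) N) (L (X (L (X 86 b) N) (A (L (R D 96) 4294967295) (X c (L (R D 20320) 4294967295)))) N))) N))) N)) N) (A (L (X (L (X 1024 (A (L (X 853 e) N) (L (X 171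 1) N))) N) (P f 2)) N) (S M (L (L (X (L (X 12 (L (X (L (X 86 b) N) (L (X 86 b) N)) N)) N) e) N) N)))) N) (A (L (X (L (X (L (X (A (L (R D 15072) 4294967295) (X c (L (R D 35296) 4294967295))) (L (X (L (X 86 b) N) (A (L (X (L (X 1048576 (A (L (R D 32) 4294967295) (X c (L (R D 20256) 4294967295)))) N) (P f 2)) N) (L (X (L (X 86 b) N) (A (L (X (L (X 1024 (A (L (R D 64) 4294967295) (X c (L (R D 20288) 4294967295)))) N) f) N) (L (X (L (X 86 b) N) (A (L (R D 96) 4294967295) (X c (L (R D 20320) 4294967295)))) N))) N))) N)) N) (L (X 2 (L (X (L (X 86 b) N) (L (X 86 b) N)) N)) N)) N) e) N) (A (L (X (L (X (A (L (R D 15104) 4294967295) (X c (L (R D 35328) 4294967295))) (L (X (L (X 86 b) N) (A (L (X (L (X 1048576 (A (L (R D 32) 4294967295) (X c (L (R D 20256) 4294967295)))) N) (P f 2)) N) (L (X (L (X 86 b) N) (A (L (X (L (X 1024 (A (L (R D 64) 4294967295) (X c (L (R D 20288) 4294967295)))) N) f)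 N) (L (X (L (X 86 b) N) (A (L (R D 96) 4294967295) (X c (L (R D 20320) 4294967295)))) N))) N))) N)) N) (A (L (X (L (X 1024 (L (X 2 (A (L (X 853 e) N) (L (X 171 1) N))) N)) N) (P f 2)) N) (S M (L (L (X (L (X 24 (L (X (L (X 86 b) N) (L (X 86 b) N)) N)) N) e) N) N)))) N) (L (X (L (X (L (X 1048576 (L (X (L (X (A (L (R D 15136) 4294967295) (X c (L (R D 35360) 4294967295))) (L (X (L (X 86 b) N) (A (L (X (L (X 1048576 (A (L (R D 32) 4294967295) (X c (L (R D 20256) 4294967295)))) N) (P f 2)) N) (L (X (L (X 86 b) N) (A (L (X (L (X 1024 (A (L (R D 64) 4294967295) (X c (L (R D 20288) 4294967295)))) N) f) N) (L (X (L (X 86 b) N) (A (L (R D 96) 4294967295) (X c (L (R D 20320) 4294967295)))) N))) N))) N)) N) 2) N)) N) e) N) (P f 2)) N))))))))) N) (P e 3)) N) g) N) N))), 155, 5, 6, 4, 1⟩,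
  ⟨fun A S X L P R M N m a b c d e f g h D => (A (A (L (X (L (X (L (X 0 (P e 3)) N) (P f 3)) N) (P g 3)) N) (S M (L (L (X (L (X (L (X 86 b) N) (A (L (X (L (X 1048576 (A (L (R D 32) 4294967295) (X c (L (R D 20256) 4294967295)))) N) (P f 2)) N) (L (X (L (X 86 b) N) (A (L (X (L (X 1024 (A (L (R D 64) 4294967295) (X c (L (R D 20288) 4294967295)))) N) f) N) (L (X (L (X 86 b) N) (A (L (R D 96) 4294967295) (X c (L (R D 20320) 4294967295)))) N))) N))) N) (L (X (A (L (X 1 (A (L (R D 128) 4294967295) (X a (A (L (R D 160) 4294967295) (X a (L (R D 192) 4294967295)))))) N) (L (X c (A (L (R D 20352) 4294967295) (X a (A (L (R D 20384) 4294967295) (X a (L (R D 20416) 4294967295)))))) N)) (L (X 1 (A (L (X (A (L (X (L (X 1024 (A (A (L (R D 576) 4294967295) (X c (L (R D 20800) 4294967295))) (S M (L (X 2147483648 (A 1 (X c 1))) N)))) N) e) N) (L (X (L (X 171 a) N) (A (A (L (R D 672) 4294967295) (X c (L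 (R D 20896) 4294967295))) (S M (L (X 2147483648 (A 1 (X c 1))) N)))) N)) 1) N) (L (X (A (L (X (L (X 1024 (A (A (L (R D 576) 4294967295) (X c (L (R D 20800) 4294967295))) (S M (L (X 2147483648 (A 1 (X c 1))) N)))) N) e) N) (L (X (L (X 171 a) N) (A (A (L (R D 672) 4294967295) (X c (L (R D 20896) 4294967295))) (S M (L (X 2147483648 (A 1 (X c 1))) N)))) N)) 1) N))) N)) N)) N) N))) (S M (L (L (X (L (X (L (X 34359738368 (A (L (X (L (X (A (L (R D 14816) 4294967295) (X c (L (R D 35040) 4294967295))) (L (X (L (X 86 b) N) (A (L (X (L (X 1048576 (A (L (R D 32) 4294967295) (X c (L (R D 20256) 4294967295)))) N) (P f 2)) N) (L (X (L (X 86 b) N) (A (L (X (L (X 1024 (A (L (R D 64) 4294967295) (X c (L (R D 20288) 4294967295)))) N) f) N) (L (X (L (X 86 b) N) (A (L (R D 96) 4294967295) (X c (L (R D 20320) 4294967295)))) N))) N))) N)) N) (A 0 (S M (L (L (X 12 1) N) N)))) N) (A (L (X (L (X (A (L (R D 14880)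 4294967295) (X c (L (R D 35104) 4294967295))) (L (X (L (X 86 b) N) (A (L (X (L (X 1048576 (A (L (R D 32) 4294967295) (X c (L (R D 20256) 4294967295)))) N) (P f 2)) N) (L (X (L (X 86 b) N) (A (L (X (L (X 1024 (A (L (R D 64) 4294967295) (X c (L (R D 20288) 4294967295)))) N) f) N) (L (X (L (X 86 b) N) (A (L (R D 96) 4294967295) (X c (L (R D 20320) 4294967295)))) N))) N))) N)) N) 1) N) (A (L (X (L (X (A (L (R D 14944) 4294967295) (X c (L (R D 35168) 4294967295))) (L (X (L (X 86 b) N) (A (L (X (L (X 1048576 (A (L (R D 32) 4294967295) (X c (L (R D 20256) 4294967295)))) N) (P f 2)) N) (L (X (L (X 86 b) N) (A (L (X (L (X 1024 (A (L (R D 64) 4294967295) (X c (L (R D 20288) 4294967295)))) N) f) N) (L (X (L (X 86 b) N) (A (L (R D 96) 4294967295) (X c (L (R D 20320) 4294967295)))) N))) N))) N)) N) (A 0 (S M (L (L (X 12 1) N) N)))) N) (A (L (X (L (X (A (L (R D 14976) 4294967295) (X c (L (R D 35200)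 4294967295))) (L (X (L (X 86 b) N) (A (L (X (L (X 1048576 (A (L (R D 32) 4294967295) (X c (L (R D 20256) 4294967295)))) N) (P f 2)) N) (L (X (L (X 86 b) N) (A (L (X (L (X 1024 (A (L (R D 64) 4294967295) (X c (L (R D 20288) 4294967295)))) N) f) N) (L (X (L (X 86 b) N) (A (L (R D 96) 4294967295) (X c (L (R D 20320) 4294967295)))) N))) N))) N)) N) (A 0 (S M (L (L (X 12 1) N) N)))) N) (A (L (X (L (X (A (L (R D 15040) 4294967295) (X c (L (R D 35264) 4294967295))) (L (X (L (X 86 b) N) (A (L (X (L (X 1048576 (A (L (R D 32) 4294967295) (X c (L (R D 20256) 4294967295)))) N) (P f 2)) N) (L (X (L (X 86 b) N) (A (L (X (L (X 1024 (A (L (R D 64) 4294967295) (X c (L (R D 20288) 4294967295)))) N) f) N) (L (X (L (X 86 b) N) (A (L (R D 96) 4294967295) (X c (L (R D 20320) 4294967295)))) N))) N))) N)) N) 1) N) (L (X (L (X (A (L (R D 15104) 4294967295) (X c (L (R D 35328) 4294967295))) (L (X (L (X 86 b)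 N) (A (L (X (L (X 1048576 (A (L (R D 32) 4294967295) (X c (L (R D 20256) 4294967295)))) N) (P f 2)) N) (L (X (L (X 86 b) N) (A (L (X (L (X 1024 (A (L (R D 64) 4294967295) (X c (L (R D 20288) 4294967295)))) N) f) N) (L (X (L (X 86 b) N) (A (L (R D 96) 4294967295) (X c (L (R D 20320) 4294967295)))) N))) N))) N)) N) (A 0 (S M (L (L (X 12 1) N) N)))) N))))))) N) (P e 3)) N) g) N) N))), 142, 4, 4, 4, 1⟩,
  ⟨fun A S X L P R M N m a b c d e f g h D => (A (A (L (X (L (X (L (X 0 (P e 2)) N) (P f 3)) N) (P g 3)) N) (S M (L (L (X (L (X (L (X 86 b) N) (A (L (X (L (X 1048576 (A (L (R D 32) 4294967295) (X c (L (R D 20256) 4294967295)))) N) (P f 2)) N) (L (X (L (X 86 b) N) (A (L (X (L (X 1024 (A (L (R D 64) 4294967295) (X c (L (R D 20288) 4294967295)))) N) f) N) (L (X (L (X 86 b) N) (A (L (R D 96) 4294967295) (X c (L (R D 20320) 4294967295)))) N))) N))) N) (L (X (A (L (X 1 (A (L (R D 128) 4294967295)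 (X a (A (L (R D 160) 4294967295) (X a (L (R D 192) 4294967295)))))) N) (L (X c (A (L (R D 20352) 4294967295) (X a (A (L (R D 20384) 4294967295) (X a (L (R D 20416) 4294967295)))))) N)) (L (X 1 (A (L (X (A (A (L (R D 608) 4294967295) (X c (L (R D 20832) 4294967295))) (S M (L (X 2147483648 (A 1 (X c 1))) N))) 1) N) (L (X (A (A (L (R D 608) 4294967295) (X c (L (R D 20832) 4294967295))) (S M (L (X 2147483648 (A 1 (X c 1))) N))) 1) N))) N)) N)) N) N))) (S M (L (L (X (L (X (L (X 33554432 (A (L (X (L (X (A (L (R D 14848) 4294967295) (X c (L (R D 35072) 4294967295))) (L (X (L (X 86 b) N) (A (L (X (L (X 1048576 (A (L (R D 32) 4294967295) (X c (L (R D 20256) 4294967295)))) N) (P f 2)) N) (L (X (L (X 86 b) N) (A (L (X (L (X 1024 (A (L (R D 64) 4294967295) (X c (L (R D 20288) 4294967295)))) N) f) N) (L (X (L (X 86 b) N) (A (L (R D 96) 4294967295) (X c (L (R D 20320) 4294967295)))) N))) N))) N))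 N) (A 0 (S M (L (L (X 12 1) N) N)))) N) (A (L (X (L (X (A (L (R D 14912) 4294967295) (X c (L (R D 35136) 4294967295))) (L (X (L (X 86 b) N) (A (L (X (L (X 1048576 (A (L (R D 32) 4294967295) (X c (L (R D 20256) 4294967295)))) N) (P f 2)) N) (L (X (L (X 86 b) N) (A (L (X (L (X 1024 (A (L (R D 64) 4294967295) (X c (L (R D 20288) 4294967295)))) N) f) N) (L (X (L (X 86 b) N) (A (L (R D 96) 4294967295) (X c (L (R D 20320) 4294967295)))) N))) N))) N)) N) (L (X 2 1) N)) N) (A (L (X (L (X (A (L (R D 14944) 4294967295) (X c (L (R D 35168) 4294967295))) (L (X (L (X 86 b) N) (A (L (X (L (X 1048576 (A (L (R D 32) 4294967295) (X c (L (R D 20256) 4294967295)))) N) (P f 2)) N) (L (X (L (X 86 b) N) (A (L (X (L (X 1024 (A (L (R D 64) 4294967295) (X c (L (R D 20288) 4294967295)))) N) f) N) (L (X (L (X 86 b) N) (A (L (R D 96) 4294967295) (X c (L (R D 20320) 4294967295)))) N))) N))) N)) N) (A 0 (S M (L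 (L (X 24 1) N) N)))) N) (A (L (X (L (X (A (L (R D 15008) 4294967295) (X c (L (R D 35232) 4294967295))) (L (X (L (X 86 b) N) (A (L (X (L (X 1048576 (A (L (R D 32) 4294967295) (X c (L (R D 20256) 4294967295)))) N) (P f 2)) N) (L (X (L (X 86 b) N) (A (L (X (L (X 1024 (A (L (R D 64) 4294967295) (X c (L (R D 20288) 4294967295)))) N) f) N) (L (X (L (X 86 b) N) (A (L (R D 96) 4294967295) (X c (L (R D 20320) 4294967295)))) N))) N))) N)) N) (A 0 (S M (L (L (X 12 1) N) N)))) N) (A (L (X (L (X (A (L (R D 15072) 4294967295) (X c (L (R D 35296) 4294967295))) (L (X (L (X 86 b) N) (A (L (X (L (X 1048576 (A (L (R D 32) 4294967295) (X c (L (R D 20256) 4294967295)))) N) (P f 2)) N) (L (X (L (X 86 b) N) (A (L (X (L (X 1024 (A (L (R D 64) 4294967295) (X c (L (R D 20288) 4294967295)))) N) f) N) (L (X (L (X 86 b) N) (A (L (R D 96) 4294967295) (X c (L (R D 20320) 4294967295)))) N))) N))) N)) N) (L (X 2 1)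 N)) N) (L (X (L (X (A (L (R D 15104) 4294967295) (X c (L (R D 35328) 4294967295))) (L (X (L (X 86 b) N) (A (L (X (L (X 1048576 (A (L (R D 32) 4294967295) (X c (L (R D 20256) 4294967295)))) N) (P f 2)) N) (L (X (L (X 86 b) N) (A (L (X (L (X 1024 (A (L (R D 64) 4294967295) (X c (L (R D 20288) 4294967295)))) N) f) N) (L (X (L (X 86 b) N) (A (L (R D 96) 4294967295) (X c (L (R D 20320) 4294967295)))) N))) N))) N)) N) (A 0 (S M (L (L (X 24 1) N) N)))) N))))))) N) (P e 2)) N) g) N) N))), 131, 3, 4, 4, 1⟩,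
  ⟨fun A S X L P R M N m a b c d e f g h D => (A (A (L (X (L (X (L (X 0 (P e 2)) N) (P f 3)) N) (P g 3)) N) (S M (L (L (X (L (X (L (X 86 b) N) (A (L (X (L (X 1048576 (A (L (R D 32) 4294967295) (X c (L (R D 20256) 4294967295)))) N) (P f 2)) N) (L (X (L (X 86 b) N) (A (L (X (L (X 1024 (A (L (R D 64) 4294967295) (X c (L (R D 20288) 4294967295)))) N) f) N) (L (X (L (X 86 b) N) (A (L (R D 96) 4294967295) (X c (L (R D 20320) 4294967295)))) N))) N))) N) (L (X (A (L (X 1 (A (L (R D 128) 4294967295) (X a (A (L (R D 160) 4294967295) (X a (L (R D 192) 4294967295)))))) N) (L (X c (A (L (R D 20352) 4294967295) (X a (A (L (R D 20384) 4294967295) (X a (L (R D 20416) 4294967295)))))) N)) (L (X 1 (A (L (X (A (A (L (R D 640) 4294967295) (X c (L (R D 20864) 4294967295))) (S M (L (X 2147483648 (A 1 (X c 1))) N))) 1) N) (L (X (A (A (L (R D 640) 4294967295) (X c (L (R D 20864) 4294967295))) (S M (L (X 2147483648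 (A 1 (X c 1))) N))) 1) N))) N)) N)) N) N))) (S M (L (L (X (L (X (L (X 33554432 (A (L (X (L (X (A (L (R D 14880) 4294967295) (X c (L (R D 35104) 4294967295))) (L (X (L (X 86 b) N) (A (L (X (L (X 1048576 (A (L (R D 32) 4294967295) (X c (L (R D 20256) 4294967295)))) N) (P f 2)) N) (L (X (L (X 86 b) N) (A (L (X (L (X 1024 (A (L (R D 64) 4294967295) (X c (L (R D 20288) 4294967295)))) N) f) N) (L (X (L (X 86 b) N) (A (L (R D 96) 4294967295) (X c (L (R D 20320) 4294967295)))) N))) N))) N)) N) (A 0 (S M (L (L (X 12 1) N) N)))) N) (A (L (X (L (X (A (L (R D 14912) 4294967295) (X c (L (R D 35136) 4294967295))) (L (X (L (X 86 b) N) (A (L (X (L (X 1048576 (A (L (R D 32) 4294967295) (X c (L (R D 20256) 4294967295)))) N) (P f 2)) N) (L (X (L (X 86 b) N) (A (L (X (L (X 1024 (A (L (R D 64) 4294967295) (X c (L (R D 20288) 4294967295)))) N) f) N) (L (X (L (X 86 b) N) (A (L (R D 96) 4294967295) (X c (L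 (R D 20320) 4294967295)))) N))) N))) N)) N) (A 0 (S M (L (L (X 12 1) N) N)))) N) (A (L (X (L (X (A (L (R D 14944) 4294967295) (X c (L (R D 35168) 4294967295))) (L (X (L (X 86 b) N) (A (L (X (L (X 1048576 (A (L (R D 32) 4294967295) (X c (L (R D 20256) 4294967295)))) N) (P f 2)) N) (L (X (L (X 86 b) N) (A (L (X (L (X 1024 (A (L (R D 64) 4294967295) (X c (L (R D 20288) 4294967295)))) N) f) N) (L (X (L (X 86 b) N) (A (L (R D 96) 4294967295) (X c (L (R D 20320) 4294967295)))) N))) N))) N)) N) (L (X 144 1) N)) N) (A (L (X (L (X (A (L (R D 15040) 4294967295) (X c (L (R D 35264) 4294967295))) (L (X (L (X 86 b) N) (A (L (X (L (X 1048576 (A (L (R D 32) 4294967295) (X c (L (R D 20256) 4294967295)))) N) (P f 2)) N) (L (X (L (X 86 b) N) (A (L (X (L (X 1024 (A (L (R D 64) 4294967295) (X c (L (R D 20288) 4294967295)))) N) f) N) (L (X (L (X 86 b) N) (A (L (R D 96) 4294967295) (X c (L (R D 20320) 4294967295))))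 N))) N))) N)) N) (A 0 (S M (L (L (X 12 1) N) N)))) N) (A (L (X (L (X (A (L (R D 15072) 4294967295) (X c (L (R D 35296) 4294967295))) (L (X (L (X 86 b) N) (A (L (X (L (X 1048576 (A (L (R D 32) 4294967295) (X c (L (R D 20256) 4294967295)))) N) (P f 2)) N) (L (X (L (X 86 b) N) (A (L (X (L (X 1024 (A (L (R D 64) 4294967295) (X c (L (R D 20288) 4294967295)))) N) f) N) (L (X (L (X 86 b) N) (A (L (R D 96) 4294967295) (X c (L (R D 20320) 4294967295)))) N))) N))) N)) N) (A 0 (S M (L (L (X 12 1) N) N)))) N) (L (X (L (X (A (L (R D 15104) 4294967295) (X c (L (R D 35328) 4294967295))) (L (X (L (X 86 b) N) (A (L (X (L (X 1048576 (A (L (R D 32) 4294967295) (X c (L (R D 20256) 4294967295)))) N) (P f 2)) N) (L (X (L (X 86 b) N) (A (L (X (L (X 1024 (A (L (R D 64) 4294967295) (X c (L (R D 20288) 4294967295)))) N) f) N) (L (X (L (X 86 b) N) (A (L (R D 96) 4294967295) (X c (L (R D 20320) 4294967295))))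 N))) N))) N)) N) (L (X 144 1) N)) N))))))) N) (P e 2)) N) g) N) N))), 132, 3, 4, 4, 1⟩,
  ⟨fun A S X L P R M N m a b c d e f g h D => (A (A (L (X (L (X (L (X 0 (P e 3)) N) (P f 5)) N) (P g 3)) N) (S M (L (L (X (L (X (L (X 86 b) N) (A (L (X (L (X 1048576 (A (L (R D 32) 4294967295) (X c (L (R D 20256) 4294967295)))) N) (P f 2)) N) (L (X (L (X 86 b) N) (A (L (X (L (X 1024 (A (L (R D 64) 4294967295) (X c (L (R D 20288) 4294967295)))) N) f) N) (L (X (L (X 86 b) N) (A (L (R D 96) 4294967295) (X c (L (R D 20320) 4294967295)))) N))) N))) N) (L (X (A (L (X 1 (A (L (R D 128) 4294967295) (X a (A (L (R D 160) 4294967295) (X a (L (R D 192) 4294967295)))))) N) (L (X c (A (L (R D 20352) 4294967295) (X a (A (L (R D 20384) 4294967295) (X a (L (R D 20416) 4294967295)))))) N)) (L (X 1 (A (L (X (L (X (A (L (X (L (X 1024 (A (A (L (R D 576) 4294967295) (X c (L (R D 20800) 4294967295))) (S M (L (X 2147483648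 (A 1 (X c 1))) N)))) N) e) N) (L (X (L (X 171 a) N) (A (A (L (R D 672) 4294967295) (X c (L (R D 20896) 4294967295))) (S M (L (X 2147483648 (A 1 (X c 1))) N)))) N)) (L (X 86 b) N)) N) f) N) (L (X (L (X (A (A (L (R D 640) 4294967295) (X c (L (R D 20864) 4294967295))) (S M (L (X 2147483648 (A 1 (X c 1))) N))) (L (X (L (X 86 b) N) (L (X 86 b) N)) N)) N) e) N))) N)) N)) N) N))) (S M (L (L (X (L (X (L (X 33554432 (A (L (X (L (X 1024 (L (X (L (X (A (L (R D 14976) 4294967295) (X c (L (R D 35200) 4294967295))) (L (X (L (X 86 b) N) (A (L (X (L (X 1048576 (A (L (R D 32) 4294967295) (X c (L (R D 20256) 4294967295)))) N) (P f 2)) N) (L (X (L (X 86 b) N) (A (L (X (L (X 1024 (A (L (R D 64) 4294967295) (X c (L (R D 20288) 4294967295)))) N) f) N) (L (X (L (X 86 b) N) (A (L (R D 96) 4294967295) (X c (L (R D 20320) 4294967295)))) N))) N))) N)) N) (A (L (X 0 f) N) (S M (L (L (X 12 (L (X 86 b) N)) N) N))))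 N)) N) f) N) (A (L (X (L (X (A (L (R D 15040) 4294967295) (X c (L (R D 35264) 4294967295))) (L (X (L (X 86 b) N) (A (L (X (L (X 1048576 (A (L (R D 32) 4294967295) (X c (L (R D 20256) 4294967295)))) N) (P f 2)) N) (L (X (L (X 86 b) N) (A (L (X (L (X 1024 (A (L (R D 64) 4294967295) (X c (L (R D 20288) 4294967295)))) N) f) N) (L (X (L (X 86 b) N) (A (L (R D 96) 4294967295) (X c (L (R D 20320) 4294967295)))) N))) N))) N)) N) (A (L (X (L (X 1024 (L (X 86 b) N)) N) f) N) (S M (L (L (X 12 (L (X (L (X 86 b) N) (L (X 86 b) N)) N)) N) N)))) N) (A (L (X (L (X (A (L (R D 15072) 4294967295) (X c (L (R D 35296) 4294967295))) (L (X (L (X 86 b) N) (A (L (X (L (X 1048576 (A (L (R D 32) 4294967295) (X c (L (R D 20256) 4294967295)))) N) (P f 2)) N) (L (X (L (X 86 b) N) (A (L (X (L (X 1024 (A (L (R D 64) 4294967295) (X c (L (R D 20288) 4294967295)))) N) f) N) (L (X (L (X 86 b) N) (A (L (R D 96) 4294967295)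 (X c (L (R D 20320) 4294967295)))) N))) N))) N)) N) (A (L (X 0 (P f 2)) N) (S M (L (L (X 12 (L (X (L (X 86 b) N) (L (X 86 b) N)) N)) N) N)))) N) (A (L (X (L (X (A (L (R D 15104) 4294967295) (X c (L (R D 35328) 4294967295))) (L (X (L (X 86 b) N) (A (L (X (L (X 1048576 (A (L (R D 32) 4294967295) (X c (L (R D 20256) 4294967295)))) N) (P f 2)) N) (L (X (L (X 86 b) N) (A (L (X (L (X 1024 (A (L (R D 64) 4294967295) (X c (L (R D 20288) 4294967295)))) N) f) N) (L (X (L (X 86 b) N) (A (L (R D 96) 4294967295) (X c (L (R D 20320) 4294967295)))) N))) N))) N)) N) (A (L (X 144 (L (X (L (X 86 b) N) (L (X 86 b) N)) N)) N) (S M (L (L (X (L (X 1024 (L (X 12 (L (X 86 b) N)) N)) N) f) N) N)))) N) (L (X (L (X 1048576 (L (X (L (X (A (L (R D 15136) 4294967295) (X c (L (R D 35360) 4294967295))) (L (X (L (X 86 b) N) (A (L (X (L (X 1048576 (A (L (R D 32) 4294967295) (X c (L (R D 20256) 4294967295)))) N) (P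 f 2)) N) (L (X (L (X 86 b) N) (A (L (X (L (X 1024 (A (L (R D 64) 4294967295) (X c (L (R D 20288) 4294967295)))) N) f) N) (L (X (L (X 86 b) N) (A (L (R D 96) 4294967295) (X c (L (R D 20320) 4294967295)))) N))) N))) N)) N) (A 0 (S M (L (L (X 12 1) N) N)))) N)) N) (P f 2)) N)))))) N) (P e 3)) N) g) N) N))), 150, 4, 6, 4, 1⟩,
  ⟨fun A S X L P R M N m a b c d e f g h D => (A (L (X (L (X (L (X (L (X 17179869184 (L (X (L (X 86 b) N) (A (L (X 1024 (A (L (X (A (L (X (L (X 1024 (A (A (L (R D 10336) 4294967295) (X c (L (R D 30560) 4294967295))) (S M (L (X 2147483648 (A 1 (X c 1))) N)))) N) e) N) (L (X (A (A (L (R D 10368) 4294967295) (X c (L (R D 30592) 4294967295))) (S M (L (X 2147483648 (A 1 (X c 1))) N))) (L (X 171 a) N)) N)) f) N) (L (X (L (X (A (A (L (R D 10400) 4294967295) (X c (L (R D 30624) 4294967295))) (S M (L (X 2147483648 (A 1 (X c 1))) N))) (L (X 86 b) N)) N) e) N))) N) (L (X (A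 (A (L (R D 10432) 4294967295) (X c (L (R D 30656) 4294967295))) (S M (L (X 2147483648 (A 1 (X c 1))) N))) (L (X (L (X 86 b) N) (L (X 171 a) N)) N)) N))) N)) N) (P e 2)) N) f) N) g) N) (S M (L (L (X (L (X (L (X 86 b) N) (A (L (X (L (X 1048576 (A (L (R D 32) 4294967295) (X c (L (R D 20256) 4294967295)))) N) (P f 2)) N) (L (X (L (X 86 b) N) (A (L (X (L (X 1024 (A (L (R D 64) 4294967295) (X c (L (R D 20288) 4294967295)))) N) f) N) (L (X (L (X 86 b) N) (A (L (R D 96) 4294967295) (X c (L (R D 20320) 4294967295)))) N))) N))) N) (L (X (A (L (X 1 (A (L (R D 128) 4294967295) (X a (A (L (R D 160) 4294967295) (X a (L (R D 192) 4294967295)))))) N) (L (X c (A (L (R D 20352) 4294967295) (X a (A (L (R D 20384) 4294967295) (X a (L (R D 20416) 4294967295)))))) N)) (L (X 1 (A (L (X 853 e) N) (L (X 171 1) N))) N)) N)) N) N))), 107, 4, 4, 3, 1⟩,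
  ⟨fun A S X L P R M N m a b c d e f g h D => (A (L (X (L (X (L (X 17179869184 (L (X (L (X 86 b) N) (A (L (X 1024 (A (L (X (A (L (X (L (X 1024 (A (A (L (R D 10592) 4294967295) (X c (L (R D 30816) 4294967295))) (S M (L (X 2147483648 (A 1 (X c 1))) N)))) N) e) N) (L (X (A (A (L (R D 10624) 4294967295) (X c (L (R D 30848) 4294967295))) (S M (L (X 2147483648 (A 1 (X c 1))) N))) (L (X 171 a) N)) N)) f) N) (L (X (L (X (A (A (L (R D 10656) 4294967295) (X c (L (R D 30880) 4294967295))) (S M (L (X 2147483648 (A 1 (X c 1))) N))) (L (X 86 b) N)) N) e) N))) N) (L (X (A (A (L (R D 10688) 4294967295) (X c (L (R D 30912) 4294967295))) (S M (L (X 2147483648 (A 1 (X c 1))) N))) (L (X (L (X 86 b) N) (L (X 171 a) N)) N)) N))) N)) N) f) N) g) N) (S M (L (L (X (L (X (L (X 86 b) N) (A (L (X (L (X 1048576 (A (L (R D 1792) 4294967295) (X c (L (R D 22016) 4294967295)))) N) (P f 2)) N) (L (X (L (X 86 b) N)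 (A (L (X (L (X 1024 (A (L (R D 1824) 4294967295) (X c (L (R D 22048) 4294967295)))) N) f) N) (L (X (L (X 86 b) N) (A (L (R D 1856) 4294967295) (X c (L (R D 22080) 4294967295)))) N))) N))) N) (A (L (X (A (L (R D 9184) 4294967295) (X c (L (R D 29408) 4294967295))) (L (X 1 (A (L (X 853 e) N) (L (X 171 1) N))) N)) N) (L (X (L (X 1024 (L (X (A (L (R D 9216) 4294967295) (X c (L (R D 29440) 4294967295))) 1) N)) N) e) N))) N) N))), 107, 2, 4, 3, 1⟩,
  ⟨fun A S X L P R M N m a b c d e f g h D => (A (A (L (X (L (X (L (X (L (X 17592186044416 (L (X (L (X 86 b) N) (A (L (X 1024 (A (L (X (A (L (X (L (X 1024 (A (A (L (R D 10848) 4294967295) (X c (L (R D 31072) 4294967295))) (S M (L (X 2147483648 (A 1 (X c 1))) N)))) N) e) N) (L (X (A (A (L (R D 10880) 4294967295) (X c (L (R D 31104) 4294967295))) (S M (L (X 2147483648 (A 1 (X c 1))) N))) (L (X 171 a) N)) N)) f) N) (L (X (L (X (A (A (L (R D 10912)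 4294967295) (X c (L (R D 31136) 4294967295))) (S M (L (X 2147483648 (A 1 (X c 1))) N))) (L (X 86 b) N)) N) e) N))) N) (L (X (A (A (L (R D 10944) 4294967295) (X c (L (R D 31168) 4294967295))) (S M (L (X 2147483648 (A 1 (X c 1))) N))) (L (X (L (X 86 b) N) (L (X 171 a) N)) N)) N))) N)) N) e) N) (P f 2)) N) g) N) (S M (L (A (L (X (L (X (L (X 86 b) N) (A (L (X (L (X 1048576 (A (L (R D 1888) 4294967295) (X c (L (R D 22112) 4294967295)))) N) (P f 2)) N) (L (X (L (X 86 b) N) (A (L (X (L (X 1024 (A (L (R D 1920) 4294967295) (X c (L (R D 22144) 4294967295)))) N) f) N) (L (X (L (X 86 b) N) (A (L (R D 1952) 4294967295) (X c (L (R D 22176) 4294967295)))) N))) N))) N) (A (L (X (L (X 1024 (L (X (A (A (L (R D 8672) 4294967295) (X c (L (R D 28896) 4294967295))) (S M (L (X 2147483648 (A 1 (X c 1))) N))) (A (L (X (L (X 767 e) N) f) N) (A (L (X (L (X 171 1) N) f) N) (L (X (L (X 86 1) N) e) N)))) N)) N)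 e) N) (L (X (A (A (L (R D 8704) 4294967295) (X c (L (R D 28928) 4294967295))) (S M (L (X 2147483648 (A 1 (X c 1))) N))) (L (X (L (X 171 a) N) (A (L (X (L (X 767 e) N) f) N) (A (L (X (L (X 171 1) N) f) N) (L (X (L (X 86 1) N) e) N)))) N)) N))) N) (L (X (L (X (L (X 1024 (L (X (L (X (L (X 86 b) N) (A (L (X (L (X 1048576 (A (L (R D 1792) 4294967295) (X c (L (R D 22016) 4294967295)))) N) (P f 2)) N) (L (X (L (X 86 b) N) (A (L (X (L (X 1024 (A (L (R D 1824) 4294967295) (X c (L (R D 22048) 4294967295)))) N) f) N) (L (X (L (X 86 b) N) (A (L (R D 1856) 4294967295) (X c (L (R D 22080) 4294967295)))) N))) N))) N) (A (L (X (A (L (R D 9440) 4294967295) (X c (L (R D 29664) 4294967295))) (L (X 1 (A (L (X 853 e) N) (L (X 171 1) N))) N)) N) (L (X (L (X 1024 (L (X (A (L (R D 9472) 4294967295) (X c (L (R D 29696) 4294967295))) 1) N)) N) e) N))) N)) N) e) N) f) N)) N))) (S M (L (L (X (L (X (L (X (L (X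 18014398509481984 (A (L (X (L (X (A (L (R D 15520) 4294967295) (X c (L (R D 35744) 4294967295))) (L (X 86 b) N)) N) (L (X 2 (A (L (X (L (X 767 e) N) f) N) (A (L (X (L (X 171 1) N) f) N) (L (X (L (X 86 1) N) e) N)))) N)) N) (A (L (X (L (X (A (L (R D 15552) 4294967295) (X c (L (R D 35776) 4294967295))) (L (X 86 b) N)) N) (A (L (X (L (X 767 e) N) f) N) (A (L (X (L (X 171 1) N) f) N) (L (X (L (X 86 1) N) e) N)))) N) (L (X (L (X (A (L (R D 15648) 4294967295) (X c (L (R D 35872) 4294967295))) (L (X 86 b) N)) N) (L (X 2 (A (L (X (L (X 767 e) N) f) N) (A (L (X (L (X 171 1) N) f) N) (L (X (L (X 86 1) N) e) N)))) N)) N)))) N) e) N) (P f 2)) N) g) N) N))), 120, 3, 5, 3, 1⟩,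
  ⟨fun A S X L P R M N m a b c d e f g h D => (A (A (L (X (L (X (L (X 0 e) N) (P f 3)) N) (P g 2)) N) (S M (L (L (X (L (X (L (X 86 b) N) (A (L (X (L (X 1048576 (A (L (R D 1888) 4294967295) (X c (L (R D 22112) 4294967295)))) N) (P f 2)) N) (L (X (L (X 86 b) N) (A (L (X (L (X 1024 (A (L (R D 1920) 4294967295) (X c (L (R D 22144) 4294967295)))) N) f) N) (L (X (L (X 86 b) N) (A (L (R D 1952) 4294967295) (X c (L (R D 22176) 4294967295)))) N))) N))) N) (L (X (A (L (X (L (X 1024 (A (A (L (R D 8736) 4294967295) (X c (L (R D 28960) 4294967295))) (S M (L (X 2147483648 (A 1 (X c 1))) N)))) N) e) N) (L (X (L (X 171 a) N) (A (A (L (R D 8832) 4294967295) (X c (L (R D 29056) 4294967295))) (S M (L (X 2147483648 (A 1 (X c 1))) N)))) N)) 1) N)) N) N))) (S M (L (L (X (L (X (L (X (L (X 18014398509481984 (A (L (X (L (X (A (L (R D 15520) 4294967295) (X c (L (R D 35744) 4294967295))) (L (X 86 b) N)) N) (A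 0 (S M (L (L (X 12 1) N) N)))) N) (A (L (X (L (X (A (L (R D 15584) 4294967295) (X c (L (R D 35808) 4294967295))) (L (X 86 b) N)) N) 1) N) (L (X (L (X (A (L (R D 15648) 4294967295) (X c (L (R D 35872) 4294967295))) (L (X 86 b) N)) N) (A 0 (S M (L (L (X 12 1) N) N)))) N)))) N) e) N) (P f 2)) N) g) N) N))), 106, 2, 4, 3, 1⟩,
  ⟨fun A S X L P R M N m a b c d e f g h D => (A (A (L (X (L (X 0 (P f 3)) N) (P g 2)) N) (S M (L (L (X (L (X (L (X 86 b) N) (A (L (X (L (X 1048576 (A (L (R D 1888) 4294967295) (X c (L (R D 22112) 4294967295)))) N) (P f 2)) N) (L (X (L (X 86 b) N) (A (L (X (L (X 1024 (A (L (R D 1920) 4294967295) (X c (L (R D 22144) 4294967295)))) N) f) N) (L (X (L (X 86 b) N) (A (L (R D 1952) 4294967295) (X c (L (R D 22176) 4294967295)))) N))) N))) N) (L (X (A (A (L (R D 8768) 4294967295) (X c (L (R D 28992) 4294967295))) (S M (L (X 2147483648 (A 1 (X c 1))) N))) 1) N)) N) N))) (S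 M (L (L (X (L (X (L (X 17592186044416 (A (L (X (L (X (A (L (R D 15552) 4294967295) (X c (L (R D 35776) 4294967295))) (L (X 86 b) N)) N) (A 0 (S M (L (L (X 12 1) N) N)))) N) (A (L (X (L (X (A (L (R D 15616) 4294967295) (X c (L (R D 35840) 4294967295))) (L (X 86 b) N)) N) (L (X 2 1) N)) N) (L (X (L (X (A (L (R D 15648) 4294967295) (X c (L (R D 35872) 4294967295))) (L (X 86 b) N)) N) (A 0 (S M (L (L (X 24 1) N) N)))) N)))) N) (P f 2)) N) g) N) N))), 95, 1, 4, 3, 1⟩,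
  ⟨fun A S X L P R M N m a b c d e f g h D => (A (A (L (X (L (X 0 (P f 3)) N) (P g 2)) N) (S M (L (L (X (L (X (L (X 86 b) N) (A (L (X (L (X 1048576 (A (L (R D 1888) 4294967295) (X c (L (R D 22112) 4294967295)))) N) (P f 2)) N) (L (X (L (X 86 b) N) (A (L (X (L (X 1024 (A (L (R D 1920) 4294967295) (X c (L (R D 22144) 4294967295)))) N) f) N) (L (X (L (X 86 b) N) (A (L (R D 1952) 4294967295) (X c (L (R D 22176) 4294967295)))) N))) N))) N) (L (X (A (A (L (R D 8800) 4294967295) (X c (L (R D 29024) 4294967295))) (S M (L (X 2147483648 (A 1 (X c 1))) N))) 1) N)) N) N))) (S M (L (L (X (L (X (L (X 17592186044416 (A (L (X (L (X (A (L (R D 15584) 4294967295) (X c (L (R D 35808) 4294967295))) (L (X 86 b) N)) N) (A 0 (S M (L (L (X 12 1) N) N)))) N) (A (L (X (L (X (A (L (R D 15616) 4294967295) (X c (L (R D 35840) 4294967295))) (L (X 86 b) N)) N) (A 0 (S M (L (L (X 12 1) N) N)))) N) (L (X (L (X (A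 (L (R D 15648) 4294967295) (X c (L (R D 35872) 4294967295))) (L (X 86 b) N)) N) (L (X 144 1) N)) N)))) N) (P f 2)) N) g) N) N))), 96, 1, 4, 3, 1⟩,
  ⟨fun A S X L P R M N m a b c d e f g h D => (A (A (L (X (L (X (L (X 16384 (A (L (X (L (X 1024 (L (X (A (A (L (R D 8672) 4294967295) (X c (L (R D 28896) 4294967295))) (S M (L (X 2147483648 (A 1 (X c 1))) N))) (A (L (X (L (X 767 e) N) f) N) (A (L (X (L (X 171 1) N) f) N) (L (X (L (X 86 1) N) e) N)))) N)) N) e) N) (L (X (A (A (L (R D 8704) 4294967295) (X c (L (R D 28928) 4294967295))) (S M (L (X 2147483648 (A 1 (X c 1))) N))) (L (X (L (X 171 a) N) (A (L (X (L (X 767 e) N) f) N) (A (L (X (L (X 171 1) N) f) N) (L (X (L (X 86 1) N) e) N)))) N)) N))) N) e) N) g) N) (S M (L (L (X (A (L (X 1 (A (L (R D 128) 4294967295) (X a (A (L (R D 160) 4294967295) (X a (L (R D 192) 4294967295)))))) N) (L (X c (A (L (R D 20352) 4294967295) (X a (A (L (R D 20384)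 4294967295) (X a (L (R D 20416) 4294967295)))))) N)) (L (X (A (A (L (R D 10336) 4294967295) (X c (L (R D 30560) 4294967295))) (S M (L (X 2147483648 (A 1 (X c 1))) N))) (A (L (X (L (X 767 e) N) f) N) (A (L (X (L (X 171 1) N) f) N) (L (X (L (X 86 1) N) e) N)))) N)) N) N))) (S M (L (L (X (L (X (L (X 16777216 (A (L (X (A (L (R D 15840) 4294967295) (X c (L (R D 36064) 4294967295))) (L (X 2 (A (L (X (L (X 767 e) N) f) N) (A (L (X (L (X 171 1) N) f) N) (L (X (L (X 86 1) N) e) N)))) N)) N) (A (L (X (A (L (R D 15872) 4294967295) (X c (L (R D 36096) 4294967295))) (A (L (X (L (X 767 e) N) f) N) (A (L (X (L (X 171 1) N) f) N) (L (X (L (X 86 1) N) e) N)))) N) (L (X (A (L (R D 15968) 4294967295) (X c (L (R D 36192) 4294967295))) (L (X 2 (A (L (X (L (X 767 e) N) f) N) (A (L (X (L (X 171 1) N) f) N) (L (X (L (X 86 1) N) e) N)))) N)) N)))) N) (P e 2)) N) g) N) N))), 80, 4, 2, 3, 1⟩,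
  ⟨fun A S X L P R M N m a b c d e f g h D => (A (A (L (X (L (X (L (X 16384 (L (X (A (L (X (L (X 1024 (A (A (L (R D 8736) 4294967295) (X c (L (R D 28960) 4294967295))) (S M (L (X 2147483648 (A 1 (X c 1))) N)))) N) e) N) (L (X (L (X 171 a) N) (A (A (L (R D 8832) 4294967295) (X c (L (R D 29056) 4294967295))) (S M (L (X 2147483648 (A 1 (X c 1))) N)))) N)) 1) N)) N) e) N) g) N) (S M (L (L (X (A (L (X 1 (A (L (R D 128) 4294967295) (X a (A (L (R D 160) 4294967295) (X a (L (R D 192) 4294967295)))))) N) (L (X c (A (L (R D 20352) 4294967295) (X a (A (L (R D 20384) 4294967295) (X a (L (R D 20416) 4294967295)))))) N)) (L (X (A (A (L (R D 10368) 4294967295) (X c (L (R D 30592) 4294967295))) (S M (L (X 2147483648 (A 1 (X c 1))) N))) 1) N)) N) N))) (S M (L (L (X (L (X (L (X 16777216 (A (L (X (A (L (R D 15840) 4294967295) (X c (L (R D 36064) 4294967295))) (A 0 (S M (L (L (X 12 1) N) N)))) N) (A (L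 (X (A (L (R D 15904) 4294967295) (X c (L (R D 36128) 4294967295))) 1) N) (L (X (A (L (R D 15968) 4294967295) (X c (L (R D 36192) 4294967295))) (A 0 (S M (L (L (X 12 1) N) N)))) N)))) N) (P e 2)) N) g) N) N))), 68, 3, 1, 3, 1⟩,
  ⟨fun A S X L P R M N m a b c d e f g h D => (A (A (L (X (L (X (L (X 16777216 (L (X (A (A (L (R D 8768) 4294967295) (X c (L (R D 28992) 4294967295))) (S M (L (X 2147483648 (A 1 (X c 1))) N))) 1) N)) N) (P e 2)) N) g) N) (S M (L (L (X (A (L (X 1 (A (L (R D 128) 4294967295) (X a (A (L (R D 160) 4294967295) (X a (L (R D 192) 4294967295)))))) N) (L (X c (A (L (R D 20352) 4294967295) (X a (A (L (R D 20384) 4294967295) (X a (L (R D 20416) 4294967295)))))) N)) (L (X (A (A (L (R D 10400) 4294967295) (X c (L (R D 30624) 4294967295))) (S M (L (X 2147483648 (A 1 (X c 1))) N))) 1) N)) N) N))) (S M (L (L (X (L (X (L (X 16777216 (A (L (X (A (L (R D 15872) 4294967295) (X c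 (L (R D 36096) 4294967295))) (A 0 (S M (L (L (X 12 1) N) N)))) N) (A (L (X (A (L (R D 15936) 4294967295) (X c (L (R D 36160) 4294967295))) (L (X 2 1) N)) N) (L (X (A (L (R D 15968) 4294967295) (X c (L (R D 36192) 4294967295))) (A 0 (S M (L (L (X 24 1) N) N)))) N)))) N) (P e 2)) N) g) N) N))), 68, 3, 1, 3, 1⟩,
  ⟨fun A S X L P R M N m a b c d e f g h D => (A (A (L (X (L (X (L (X 16777216 (L (X (A (A (L (R D 8800) 4294967295) (X c (L (R D 29024) 4294967295))) (S M (L (X 2147483648 (A 1 (X c 1))) N))) 1) N)) N) (P e 2)) N) g) N) (S M (L (L (X (A (L (X 1 (A (L (R D 128) 4294967295) (X a (A (L (R D 160) 4294967295) (X a (L (R D 192) 4294967295)))))) N) (L (X c (A (L (R D 20352) 4294967295) (X a (A (L (R D 20384) 4294967295) (X a (L (R D 20416) 4294967295)))))) N)) (L (X (A (A (L (R D 10432) 4294967295) (X c (L (R D 30656) 4294967295))) (S M (L (X 2147483648 (A 1 (X c 1))) N))) 1) N)) N)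 N))) (S M (L (L (X (L (X (L (X 16777216 (A (L (X (A (L (R D 15904) 4294967295) (X c (L (R D 36128) 4294967295))) (A 0 (S M (L (L (X 12 1) N) N)))) N) (A (L (X (A (L (R D 15936) 4294967295) (X c (L (R D 36160) 4294967295))) (A 0 (S M (L (L (X 12 1) N) N)))) N) (L (X (A (L (R D 15968) 4294967295) (X c (L (R D 36192) 4294967295))) (L (X 144 1) N)) N)))) N) (P e 2)) N) g) N) N))), 69, 3, 1, 3, 1⟩,
  ⟨fun A S X L P R M N m a b c d e f g h D => (A (A (L (X (L (X 281474976710656 (A (L (X (L (X 1024 (L (X (A (A (L (R D 11104) 4294967295) (X c (L (R D 31328) 4294967295))) (S M (L (X 2147483648 (A 1 (X c 1))) N))) (A (L (X (L (X 767 e) N) f) N) (A (L (X (L (X 171 1) N) f) N) (L (X (L (X 86 1) N) e) N)))) N)) N) e) N) (L (X (A (A (L (R D 11200) 4294967295) (X c (L (R D 31424) 4294967295))) (S M (L (X 2147483648 (A 1 (X c 1))) N))) (L (X (L (X 171 a) N) (A (L (X (L (X 767 e) N) f) N) (A (L (X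 (L (X 171 1) N) f) N) (L (X (L (X 86 1) N) e) N)))) N)) N))) N) (P g 2)) N) (S M (L (A (L (X (L (X (L (X 288230376151711744 (L (X (A (A (L (R D 10592) 4294967295) (X c (L (R D 30816) 4294967295))) (S M (L (X 2147483648 (A 1 (X c 1))) N))) (A (L (X (L (X 767 e) N) f) N) (A (L (X (L (X 171 1) N) f) N) (L (X (L (X 86 1) N) e) N)))) N)) N) e) N) (P g 2)) N) (A (A (L (X (L (X 16777216 (L (X (A (L (R D 9056) 4294967295) (X c (L (R D 29280) 4294967295))) (A (A (L (X (L (X 1024 (L (X (A (A (L (R D 2336) 4294967295) (X c (L (R D 22560) 4294967295))) (S M (L (X 2147483648 (A 1 (X c 1))) N))) (A (L (X (L (X 767 e) N) f) N) (A (L (X (L (X 171 1) N) f) N) (L (X (L (X 86 1) N) e) N)))) N)) N) e) N) (L (X (A (A (L (R D 2368) 4294967295) (X c (L (R D 22592) 4294967295))) (S M (L (X 2147483648 (A 1 (X c 1))) N))) (L (X (L (X 171 a) N) (A (L (X (L (X 767 e) N) f) N) (A (L (X (L (X 171 1) N) f) N) (L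 (X (L (X 86 1) N) e) N)))) N)) N)) (A (L (X (L (X 1024 (L (X (A (A (L (R D 12320) 4294967295) (X c (L (R D 32544) 4294967295))) (S M (L (X 2147483648 (A 1 (X c 1))) N))) (A (L (X (L (X 767 e) N) f) N) (A (L (X (L (X 171 1) N) f) N) (L (X (L (X 86 1) N) e) N)))) N)) N) e) N) (L (X (A (A (L (R D 12416) 4294967295) (X c (L (R D 32640) 4294967295))) (S M (L (X 2147483648 (A 1 (X c 1))) N))) (L (X (L (X 171 a) N) (A (L (X (L (X 767 e) N) f) N) (A (L (X (L (X 171 1) N) f) N) (L (X (L (X 86 1) N) e) N)))) N)) N)))) N)) N) g) N) (L (X (A (L (R D 9184) 4294967295) (X c (L (R D 29408) 4294967295))) (A (L (X (A (L (R D 1984) 4294967295) (X c (L (R D 22208) 4294967295))) (A (L (X (L (X 1024 (L (X (A (A (L (R D 2720) 4294967295) (X c (L (R D 22944) 4294967295))) (S M (L (X 2147483648 (A 1 (X c 1))) N))) (A (L (X (L (X 767 e) N) f) N) (A (L (X (L (X 171 1) N) f) N) (L (X (L (X 86 1) N) e) N))))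 N)) N) e) N) (L (X (A (A (L (R D 2752) 4294967295) (X c (L (R D 22976) 4294967295))) (S M (L (X 2147483648 (A 1 (X c 1))) N))) (L (X (L (X 171 a) N) (A (L (X (L (X 767 e) N) f) N) (A (L (X (L (X 171 1) N) f) N) (L (X (L (X 86 1) N) e) N)))) N)) N))) N) (L (X (A (L (R D 2080) 4294967295) (X c (L (R D 22304) 4294967295))) (A (L (X (L (X 1024 (L (X (A (A (L (R D 11168) 4294967295) (X c (L (R D 31392) 4294967295))) (S M (L (X 2147483648 (A 1 (X c 1))) N))) (A (L (X (L (X 767 e) N) f) N) (A (L (X (L (X 171 1) N) f) N) (L (X (L (X 86 1) N) e) N)))) N)) N) e) N) (L (X (A (A (L (R D 11264) 4294967295) (X c (L (R D 31488) 4294967295))) (S M (L (X 2147483648 (A 1 (X c 1))) N))) (L (X (L (X 171 a) N) (A (L (X (L (X 767 e) N) f) N) (A (L (X (L (X 171 1) N) f) N) (L (X (L (X 86 1) N) e) N)))) N)) N))) N))) N)) (A (L (X (L (X 16777216 (L (X (A (L (R D 9088) 4294967295) (X c (L (R D 29312) 4294967295)))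 (A (A (L (X (L (X 1024 (L (X (A (A (L (R D 2528) 4294967295) (X c (L (R D 22752) 4294967295))) (S M (L (X 2147483648 (A 1 (X c 1))) N))) (A (L (X (L (X 767 e) N) f) N) (A (L (X (L (X 171 1) N) f) N) (L (X (L (X 86 1) N) e) N)))) N)) N) e) N) (L (X (A (A (L (R D 2560) 4294967295) (X c (L (R D 22784) 4294967295))) (S M (L (X 2147483648 (A 1 (X c 1))) N))) (L (X (L (X 171 a) N) (A (L (X (L (X 767 e) N) f) N) (A (L (X (L (X 171 1) N) f) N) (L (X (L (X 86 1) N) e) N)))) N)) N)) (A (L (X (L (X 1024 (L (X (A (A (L (R D 12896) 4294967295) (X c (L (R D 33120) 4294967295))) (S M (L (X 2147483648 (A 1 (X c 1))) N))) (A (L (X (L (X 767 e) N) f) N) (A (L (X (L (X 171 1) N) f) N) (L (X (L (X 86 1) N) e) N)))) N)) N) e) N) (L (X (A (A (L (R D 12992) 4294967295) (X c (L (R D 33216) 4294967295))) (S M (L (X 2147483648 (A 1 (X c 1))) N))) (L (X (L (X 171 a) N) (A (L (X (L (X 767 e) N) f) N) (A (L (X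 (L (X 171 1) N) f) N) (L (X (L (X 86 1) N) e) N)))) N)) N)))) N)) N) g) N) (L (X (A (L (R D 9216) 4294967295) (X c (L (R D 29440) 4294967295))) (A (L (X (A (L (R D 1984) 4294967295) (X c (L (R D 22208) 4294967295))) (A (L (X (L (X 1024 (L (X (A (A (L (R D 2912) 4294967295) (X c (L (R D 23136) 4294967295))) (S M (L (X 2147483648 (A 1 (X c 1))) N))) (A (L (X (L (X 767 e) N) f) N) (A (L (X (L (X 171 1) N) f) N) (L (X (L (X 86 1) N) e) N)))) N)) N) e) N) (L (X (A (A (L (R D 2944) 4294967295) (X c (L (R D 23168) 4294967295))) (S M (L (X 2147483648 (A 1 (X c 1))) N))) (L (X (L (X 171 a) N) (A (L (X (L (X 767 e) N) f) N) (A (L (X (L (X 171 1) N) f) N) (L (X (L (X 86 1) N) e) N)))) N)) N))) N) (L (X (A (L (R D 2080) 4294967295) (X c (L (R D 22304) 4294967295))) (A (L (X (L (X 1024 (L (X (A (A (L (R D 11744) 4294967295) (X c (L (R D 31968) 4294967295))) (S M (L (X 2147483648 (A 1 (X c 1)))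 N))) (A (L (X (L (X 767 e) N) f) N) (A (L (X (L (X 171 1) N) f) N) (L (X (L (X 86 1) N) e) N)))) N)) N) e) N) (L (X (A (A (L (R D 11840) 4294967295) (X c (L (R D 32064) 4294967295))) (S M (L (X 2147483648 (A 1 (X c 1))) N))) (L (X (L (X 171 a) N) (A (L (X (L (X 767 e) N) f) N) (A (L (X (L (X 171 1) N) f) N) (L (X (L (X 86 1) N) e) N)))) N)) N))) N))) N)))) N))) (S M (L (L (X (L (X (L (X 288230376151711744 (A (L (X (A (L (R D 16160) 4294967295) (X c (L (R D 36384) 4294967295))) (L (X 2 (A (L (X (L (X 767 e) N) f) N) (A (L (X (L (X 171 1) N) f) N) (L (X (L (X 86 1) N) e) N)))) N)) N) (A (L (X (A (L (R D 16192) 4294967295) (X c (L (R D 36416) 4294967295))) (A (L (X (L (X 767 e) N) f) N) (A (L (X (L (X 171 1) N) f) N) (L (X (L (X 86 1) N) e) N)))) N) (L (X (A (L (R D 16288) 4294967295) (X c (L (R D 36512) 4294967295))) (L (X 2 (A (L (X (L (X 767 e) N) f) N) (A (L (X (L (X 171 1) N) f)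 N) (L (X (L (X 86 1) N) e) N)))) N)) N)))) N) e) N) (P g 2)) N) N))), 124, 3, 2, 4, 1⟩,
  ⟨fun A S X L P R M N m a b c d e f g h D => (A (A (L (X (L (X 281474976710656 (L (X (A (L (X (L (X 1024 (A (A (L (R D 11296) 4294967295) (X c (L (R D 31520) 4294967295))) (S M (L (X 2147483648 (A 1 (X c 1))) N)))) N) e) N) (L (X (L (X 171 a) N) (A (A (L (R D 11584) 4294967295) (X c (L (R D 31808) 4294967295))) (S M (L (X 2147483648 (A 1 (X c 1))) N)))) N)) 1) N)) N) (P g 2)) N) (S M (L (A (L (X (L (X (L (X 288230376151711744 (L (X (A (A (L (R D 10624) 4294967295) (X c (L (R D 30848) 4294967295))) (S M (L (X 2147483648 (A 1 (X c 1))) N))) 1) N)) N) e) N) (P g 2)) N) (A (A (L (X (L (X 16777216 (L (X (A (L (R D 9056) 4294967295) (X c (L (R D 29280) 4294967295))) (A (L (X (A (L (X (L (X 1024 (A (A (L (R D 2400) 4294967295) (X c (L (R D 22624) 4294967295))) (S M (L (X 2147483648 (A 1 (X c 1))) N))))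 N) e) N) (L (X (L (X 171 a) N) (A (A (L (R D 2496) 4294967295) (X c (L (R D 22720) 4294967295))) (S M (L (X 2147483648 (A 1 (X c 1))) N)))) N)) 1) N) (L (X (A (L (X (L (X 1024 (A (A (L (R D 12512) 4294967295) (X c (L (R D 32736) 4294967295))) (S M (L (X 2147483648 (A 1 (X c 1))) N)))) N) e) N) (L (X (L (X 171 a) N) (A (A (L (R D 12800) 4294967295) (X c (L (R D 33024) 4294967295))) (S M (L (X 2147483648 (A 1 (X c 1))) N)))) N)) 1) N))) N)) N) g) N) (L (X (A (L (R D 9184) 4294967295) (X c (L (R D 29408) 4294967295))) (A (L (X (A (L (R D 1984) 4294967295) (X c (L (R D 22208) 4294967295))) (L (X (A (L (X (L (X 1024 (A (A (L (R D 2784) 4294967295) (X c (L (R D 23008) 4294967295))) (S M (L (X 2147483648 (A 1 (X c 1))) N)))) N) e) N) (L (X (L (X 171 a) N) (A (A (L (R D 2880) 4294967295) (X c (L (R D 23104) 4294967295))) (S M (L (X 2147483648 (A 1 (X c 1))) N)))) N)) 1) N)) N) (L (X (A (L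 (R D 2080) 4294967295) (X c (L (R D 22304) 4294967295))) (L (X (A (L (X (L (X 1024 (A (A (L (R D 11360) 4294967295) (X c (L (R D 31584) 4294967295))) (S M (L (X 2147483648 (A 1 (X c 1))) N)))) N) e) N) (L (X (L (X 171 a) N) (A (A (L (R D 11648) 4294967295) (X c (L (R D 31872) 4294967295))) (S M (L (X 2147483648 (A 1 (X c 1))) N)))) N)) 1) N)) N))) N)) (A (L (X (L (X 16777216 (L (X (A (L (R D 9088) 4294967295) (X c (L (R D 29312) 4294967295))) (A (L (X (A (L (X (L (X 1024 (A (A (L (R D 2592) 4294967295) (X c (L (R D 22816) 4294967295))) (S M (L (X 2147483648 (A 1 (X c 1))) N)))) N) e) N) (L (X (L (X 171 a) N) (A (A (L (R D 2688) 4294967295) (X c (L (R D 22912) 4294967295))) (S M (L (X 2147483648 (A 1 (X c 1))) N)))) N)) 1) N) (L (X (A (L (X (L (X 1024 (A (A (L (R D 13088) 4294967295) (X c (L (R D 33312) 4294967295))) (S M (L (X 2147483648 (A 1 (X c 1))) N)))) N) e) N) (L (X (L (X 171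 a) N) (A (A (L (R D 13376) 4294967295) (X c (L (R D 33600) 4294967295))) (S M (L (X 2147483648 (A 1 (X c 1))) N)))) N)) 1) N))) N)) N) g) N) (L (X (A (L (R D 9216) 4294967295) (X c (L (R D 29440) 4294967295))) (A (L (X (A (L (R D 1984) 4294967295) (X c (L (R D 22208) 4294967295))) (L (X (A (L (X (L (X 1024 (A (A (L (R D 2976) 4294967295) (X c (L (R D 23200) 4294967295))) (S M (L (X 2147483648 (A 1 (X c 1))) N)))) N) e) N) (L (X (L (X 171 a) N) (A (A (L (R D 3072) 4294967295) (X c (L (R D 23296) 4294967295))) (S M (L (X 2147483648 (A 1 (X c 1))) N)))) N)) 1) N)) N) (L (X (A (L (R D 2080) 4294967295) (X c (L (R D 22304) 4294967295))) (L (X (A (L (X (L (X 1024 (A (A (L (R D 11936) 4294967295) (X c (L (R D 32160) 4294967295))) (S M (L (X 2147483648 (A 1 (X c 1))) N)))) N) e) N) (L (X (L (X 171 a) N) (A (A (L (R D 12224) 4294967295) (X c (L (R D 32448) 4294967295))) (S M (L (X 2147483648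 (A 1 (X c 1))) N)))) N)) 1) N)) N))) N)))) N))) (S M (L (L (X (L (X (L (X 288230376151711744 (A (L (X (A (L (R D 16160) 4294967295) (X c (L (R D 36384) 4294967295))) (A 0 (S M (L (L (X 12 1) N) N)))) N) (A (L (X (A (L (R D 16224) 4294967295) (X c (L (R D 36448) 4294967295))) 1) N) (L (X (A (L (R D 16288) 4294967295) (X c (L (R D 36512) 4294967295))) (A 0 (S M (L (L (X 12 1) N) N)))) N)))) N) e) N) (P g 2)) N) N))), 113, 2, 1, 4, 1⟩,
  ⟨fun A S X L P R M N m a b c d e f g h D => (A (A (L (X (L (X 281474976710656 (L (X (A (A (L (R D 11392) 4294967295) (X c (L (R D 31616) 4294967295))) (S M (L (X 2147483648 (A 1 (X c 1))) N))) 1) N)) N) (P g 2)) N) (S M (L (A (L (X (L (X 281474976710656 (L (X (A (A (L (R D 10656) 4294967295) (X c (L (R D 30880) 4294967295))) (S M (L (X 2147483648 (A 1 (X c 1))) N))) 1) N)) N) (P g 2)) N) (A (A (L (X (L (X 16777216 (L (X (A (L (R D 9056) 4294967295) (X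 c (L (R D 29280) 4294967295))) (A (L (X (A (A (L (R D 2432) 4294967295) (X c (L (R D 22656) 4294967295))) (S M (L (X 2147483648 (A 1 (X c 1))) N))) 1) N) (L (X (A (A (L (R D 12608) 4294967295) (X c (L (R D 32832) 4294967295))) (S M (L (X 2147483648 (A 1 (X c 1))) N))) 1) N))) N)) N) g) N) (L (X (A (L (R D 9184) 4294967295) (X c (L (R D 29408) 4294967295))) (A (L (X (A (L (R D 1984) 4294967295) (X c (L (R D 22208) 4294967295))) (L (X (A (A (L (R D 2816) 4294967295) (X c (L (R D 23040) 4294967295))) (S M (L (X 2147483648 (A 1 (X c 1))) N))) 1) N)) N) (L (X (A (L (R D 2080) 4294967295) (X c (L (R D 22304) 4294967295))) (L (X (A (A (L (R D 11456) 4294967295) (X c (L (R D 31680) 4294967295))) (S M (L (X 2147483648 (A 1 (X c 1))) N))) 1) N)) N))) N)) (A (L (X (L (X 16777216 (L (X (A (L (R D 9088) 4294967295) (X c (L (R D 29312) 4294967295))) (A (L (X (A (A (L (R D 2624) 4294967295) (X c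 (L (R D 22848) 4294967295))) (S M (L (X 2147483648 (A 1 (X c 1))) N))) 1) N) (L (X (A (A (L (R D 13184) 4294967295) (X c (L (R D 33408) 4294967295))) (S M (L (X 2147483648 (A 1 (X c 1))) N))) 1) N))) N)) N) g) N) (L (X (A (L (R D 9216) 4294967295) (X c (L (R D 29440) 4294967295))) (A (L (X (A (L (R D 1984) 4294967295) (X c (L (R D 22208) 4294967295))) (L (X (A (A (L (R D 3008) 4294967295) (X c (L (R D 23232) 4294967295))) (S M (L (X 2147483648 (A 1 (X c 1))) N))) 1) N)) N) (L (X (A (L (R D 2080) 4294967295) (X c (L (R D 22304) 4294967295))) (L (X (A (A (L (R D 12032) 4294967295) (X c (L (R D 32256) 4294967295))) (S M (L (X 2147483648 (A 1 (X c 1))) N))) 1) N)) N))) N)))) N))) (S M (L (L (X (L (X 281474976710656 (A (L (X (A (L (R D 16192) 4294967295) (X c (L (R D 36416) 4294967295))) (A 0 (S M (L (L (X 12 1) N) N)))) N) (A (L (X (A (L (R D 16256) 4294967295) (X c (L (R D 36480) 4294967295)))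 (L (X 2 1) N)) N) (L (X (A (L (R D 16288) 4294967295) (X c (L (R D 36512) 4294967295))) (A 0 (S M (L (L (X 24 1) N) N)))) N)))) N) (P g 2)) N) N))), 102, 1, 1, 4, 1⟩,
  ⟨fun A S X L P R M N m a b c d e f g h D => (A (A (L (X (L (X 281474976710656 (L (X (A (A (L (R D 11488) 4294967295) (X c (L (R D 31712) 4294967295))) (S M (L (X 2147483648 (A 1 (X c 1))) N))) 1) N)) N) (P g 2)) N) (S M (L (A (L (X (L (X 281474976710656 (L (X (A (A (L (R D 10688) 4294967295) (X c (L (R D 30912) 4294967295))) (S M (L (X 2147483648 (A 1 (X c 1))) N))) 1) N)) N) (P g 2)) N) (A (A (L (X (L (X 16777216 (L (X (A (L (R D 9056) 4294967295) (X c (L (R D 29280) 4294967295))) (A (L (X (A (A (L (R D 2464) 4294967295) (X c (L (R D 22688) 4294967295))) (S M (L (X 2147483648 (A 1 (X c 1))) N))) 1) N) (L (X (A (A (L (R D 12704) 4294967295) (X c (L (R D 32928) 4294967295))) (S M (L (X 2147483648 (A 1 (X c 1))) N)))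 1) N))) N)) N) g) N) (L (X (A (L (R D 9184) 4294967295) (X c (L (R D 29408) 4294967295))) (A (L (X (A (L (R D 1984) 4294967295) (X c (L (R D 22208) 4294967295))) (L (X (A (A (L (R D 2848) 4294967295) (X c (L (R D 23072) 4294967295))) (S M (L (X 2147483648 (A 1 (X c 1))) N))) 1) N)) N) (L (X (A (L (R D 2080) 4294967295) (X c (L (R D 22304) 4294967295))) (L (X (A (A (L (R D 11552) 4294967295) (X c (L (R D 31776) 4294967295))) (S M (L (X 2147483648 (A 1 (X c 1))) N))) 1) N)) N))) N)) (A (L (X (L (X 16777216 (L (X (A (L (R D 9088) 4294967295) (X c (L (R D 29312) 4294967295))) (A (L (X (A (A (L (R D 2656) 4294967295) (X c (L (R D 22880) 4294967295))) (S M (L (X 2147483648 (A 1 (X c 1))) N))) 1) N) (L (X (A (A (L (R D 13280) 4294967295) (X c (L (R D 33504) 4294967295))) (S M (L (X 2147483648 (A 1 (X c 1))) N))) 1) N))) N)) N) g) N) (L (X (A (L (R D 9216) 4294967295) (X c (L (R D 29440) 4294967295)))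 (A (L (X (A (L (R D 1984) 4294967295) (X c (L (R D 22208) 4294967295))) (L (X (A (A (L (R D 3040) 4294967295) (X c (L (R D 23264) 4294967295))) (S M (L (X 2147483648 (A 1 (X c 1))) N))) 1) N)) N) (L (X (A (L (R D 2080) 4294967295) (X c (L (R D 22304) 4294967295))) (L (X (A (A (L (R D 12128) 4294967295) (X c (L (R D 32352) 4294967295))) (S M (L (X 2147483648 (A 1 (X c 1))) N))) 1) N)) N))) N)))) N))) (S M (L (L (X (L (X 281474976710656 (A (L (X (A (L (R D 16224) 4294967295) (X c (L (R D 36448) 4294967295))) (A 0 (S M (L (L (X 12 1) N) N)))) N) (A (L (X (A (L (R D 16256) 4294967295) (X c (L (R D 36480) 4294967295))) (A 0 (S M (L (L (X 12 1) N) N)))) N) (L (X (A (L (R D 16288) 4294967295) (X c (L (R D 36512) 4294967295))) (L (X 144 1) N)) N)))) N) (P g 2)) N) N))), 102, 1, 1, 4, 1⟩,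
  ⟨fun A S X L P R M N m a b c d e f g h D => (A (A (L (X (L (X 281474976710656 (A (L (X (L (X 1024 (L (X (A (A (L (R D 12256) 4294967295) (X c (L (R D 32480) 4294967295))) (S M (L (X 2147483648 (A 1 (X c 1))) N))) (A (L (X (L (X 767 e) N) f) N) (A (L (X (L (X 171 1) N) f) N) (L (X (L (X 86 1) N) e) N)))) N)) N) e) N) (L (X (A (A (L (R D 12352) 4294967295) (X c (L (R D 32576) 4294967295))) (S M (L (X 2147483648 (A 1 (X c 1))) N))) (L (X (L (X 171 a) N) (A (L (X (L (X 767 e) N) f) N) (A (L (X (L (X 171 1) N) f) N) (L (X (L (X 86 1) N) e) N)))) N)) N))) N) (P g 2)) N) (S M (L (A (L (X (L (X (L (X 288230376151711744 (L (X (A (A (L (R D 10848) 4294967295) (X c (L (R D 31072) 4294967295))) (S M (L (X 2147483648 (A 1 (X c 1))) N))) (A (L (X (L (X 767 e) N) f) N) (A (L (X (L (X 171 1) N) f) N) (L (X (L (X 86 1) N) e) N)))) N)) N) e) N) (P g 2)) N) (A (A (L (X (A (L (R D 9312) 4294967295)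 (X c (L (R D 29536) 4294967295))) (A (L (X (A (L (R D 2016) 4294967295) (X c (L (R D 22240) 4294967295))) (A (L (X (L (X 1024 (L (X (A (A (L (R D 2720) 4294967295) (X c (L (R D 22944) 4294967295))) (S M (L (X 2147483648 (A 1 (X c 1))) N))) (A (L (X (L (X 767 e) N) f) N) (A (L (X (L (X 171 1) N) f) N) (L (X (L (X 86 1) N) e) N)))) N)) N) e) N) (L (X (A (A (L (R D 2752) 4294967295) (X c (L (R D 22976) 4294967295))) (S M (L (X 2147483648 (A 1 (X c 1))) N))) (L (X (L (X 171 a) N) (A (L (X (L (X 767 e) N) f) N) (A (L (X (L (X 171 1) N) f) N) (L (X (L (X 86 1) N) e) N)))) N)) N))) N) (L (X (A (L (R D 2048) 4294967295) (X c (L (R D 22272) 4294967295))) (A (L (X (L (X 1024 (L (X (A (A (L (R D 11168) 4294967295) (X c (L (R D 31392) 4294967295))) (S M (L (X 2147483648 (A 1 (X c 1))) N))) (A (L (X (L (X 767 e) N) f) N) (A (L (X (L (X 171 1) N) f) N) (L (X (L (X 86 1) N) e) N)))) N)) N) e) N)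 (L (X (A (A (L (R D 11264) 4294967295) (X c (L (R D 31488) 4294967295))) (S M (L (X 2147483648 (A 1 (X c 1))) N))) (L (X (L (X 171 a) N) (A (L (X (L (X 767 e) N) f) N) (A (L (X (L (X 171 1) N) f) N) (L (X (L (X 86 1) N) e) N)))) N)) N))) N))) N) (A (L (X (L (X 16777216 (L (X (A (L (R D 9184) 4294967295) (X c (L (R D 29408) 4294967295))) (A (A (L (X (L (X 1024 (L (X (A (A (L (R D 2336) 4294967295) (X c (L (R D 22560) 4294967295))) (S M (L (X 2147483648 (A 1 (X c 1))) N))) (A (L (X (L (X 767 e) N) f) N) (A (L (X (L (X 171 1) N) f) N) (L (X (L (X 86 1) N) e) N)))) N)) N) e) N) (L (X (A (A (L (R D 2368) 4294967295) (X c (L (R D 22592) 4294967295))) (S M (L (X 2147483648 (A 1 (X c 1))) N))) (L (X (L (X 171 a) N) (A (L (X (L (X 767 e) N) f) N) (A (L (X (L (X 171 1) N) f) N) (L (X (L (X 86 1) N) e) N)))) N)) N)) (A (L (X (L (X 1024 (L (X (A (A (L (R D 12320) 4294967295) (X c (L (R D 32544)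 4294967295))) (S M (L (X 2147483648 (A 1 (X c 1))) N))) (A (L (X (L (X 767 e) N) f) N) (A (L (X (L (X 171 1) N) f) N) (L (X (L (X 86 1) N) e) N)))) N)) N) e) N) (L (X (A (A (L (R D 12416) 4294967295) (X c (L (R D 32640) 4294967295))) (S M (L (X 2147483648 (A 1 (X c 1))) N))) (L (X (L (X 171 a) N) (A (L (X (L (X 767 e) N) f) N) (A (L (X (L (X 171 1) N) f) N) (L (X (L (X 86 1) N) e) N)))) N)) N)))) N)) N) g) N) (L (X (A (L (R D 9440) 4294967295) (X c (L (R D 29664) 4294967295))) (A (L (X (A (L (R D 1984) 4294967295) (X c (L (R D 22208) 4294967295))) (A (L (X (L (X 1024 (L (X (A (A (L (R D 2720) 4294967295) (X c (L (R D 22944) 4294967295))) (S M (L (X 2147483648 (A 1 (X c 1))) N))) (A (L (X (L (X 767 e) N) f) N) (A (L (X (L (X 171 1) N) f) N) (L (X (L (X 86 1) N) e) N)))) N)) N) e) N) (L (X (A (A (L (R D 2752) 4294967295) (X c (L (R D 22976) 4294967295))) (S M (L (X 2147483648 (A 1 (X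 c 1))) N))) (L (X (L (X 171 a) N) (A (L (X (L (X 767 e) N) f) N) (A (L (X (L (X 171 1) N) f) N) (L (X (L (X 86 1) N) e) N)))) N)) N))) N) (L (X (A (L (R D 2080) 4294967295) (X c (L (R D 22304) 4294967295))) (A (L (X (L (X 1024 (L (X (A (A (L (R D 11168) 4294967295) (X c (L (R D 31392) 4294967295))) (S M (L (X 2147483648 (A 1 (X c 1))) N))) (A (L (X (L (X 767 e) N) f) N) (A (L (X (L (X 171 1) N) f) N) (L (X (L (X 86 1) N) e) N)))) N)) N) e) N) (L (X (A (A (L (R D 11264) 4294967295) (X c (L (R D 31488) 4294967295))) (S M (L (X 2147483648 (A 1 (X c 1))) N))) (L (X (L (X 171 a) N) (A (L (X (L (X 767 e) N) f) N) (A (L (X (L (X 171 1) N) f) N) (L (X (L (X 86 1) N) e) N)))) N)) N))) N))) N))) (A (L (X (A (L (R D 9344) 4294967295) (X c (L (R D 29568) 4294967295))) (A (L (X (A (L (R D 2016) 4294967295) (X c (L (R D 22240) 4294967295))) (A (L (X (L (X 1024 (L (X (A (A (L (R D 2912) 4294967295)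 (X c (L (R D 23136) 4294967295))) (S M (L (X 2147483648 (A 1 (X c 1))) N))) (A (L (X (L (X 767 e) N) f) N) (A (L (X (L (X 171 1) N) f) N) (L (X (L (X 86 1) N) e) N)))) N)) N) e) N) (L (X (A (A (L (R D 2944) 4294967295) (X c (L (R D 23168) 4294967295))) (S M (L (X 2147483648 (A 1 (X c 1))) N))) (L (X (L (X 171 a) N) (A (L (X (L (X 767 e) N) f) N) (A (L (X (L (X 171 1) N) f) N) (L (X (L (X 86 1) N) e) N)))) N)) N))) N) (L (X (A (L (R D 2048) 4294967295) (X c (L (R D 22272) 4294967295))) (A (L (X (L (X 1024 (L (X (A (A (L (R D 11744) 4294967295) (X c (L (R D 31968) 4294967295))) (S M (L (X 2147483648 (A 1 (X c 1))) N))) (A (L (X (L (X 767 e) N) f) N) (A (L (X (L (X 171 1) N) f) N) (L (X (L (X 86 1) N) e) N)))) N)) N) e) N) (L (X (A (A (L (R D 11840) 4294967295) (X c (L (R D 32064) 4294967295))) (S M (L (X 2147483648 (A 1 (X c 1))) N))) (L (X (L (X 171 a) N) (A (L (X (L (X 767 e) N) f)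 N) (A (L (X (L (X 171 1) N) f) N) (L (X (L (X 86 1) N) e) N)))) N)) N))) N))) N) (A (L (X (L (X 16777216 (L (X (A (L (R D 9216) 4294967295) (X c (L (R D 29440) 4294967295))) (A (A (L (X (L (X 1024 (L (X (A (A (L (R D 2528) 4294967295) (X c (L (R D 22752) 4294967295))) (S M (L (X 2147483648 (A 1 (X c 1))) N))) (A (L (X (L (X 767 e) N) f) N) (A (L (X (L (X 171 1) N) f) N) (L (X (L (X 86 1) N) e) N)))) N)) N) e) N) (L (X (A (A (L (R D 2560) 4294967295) (X c (L (R D 22784) 4294967295))) (S M (L (X 2147483648 (A 1 (X c 1))) N))) (L (X (L (X 171 a) N) (A (L (X (L (X 767 e) N) f) N) (A (L (X (L (X 171 1) N) f) N) (L (X (L (X 86 1) N) e) N)))) N)) N)) (A (L (X (L (X 1024 (L (X (A (A (L (R D 12896) 4294967295) (X c (L (R D 33120) 4294967295))) (S M (L (X 2147483648 (A 1 (X c 1))) N))) (A (L (X (L (X 767 e) N) f) N) (A (L (X (L (X 171 1) N) f) N) (L (X (L (X 86 1) N) e) N)))) N)) N) e) N) (L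 (X (A (A (L (R D 12992) 4294967295) (X c (L (R D 33216) 4294967295))) (S M (L (X 2147483648 (A 1 (X c 1))) N))) (L (X (L (X 171 a) N) (A (L (X (L (X 767 e) N) f) N) (A (L (X (L (X 171 1) N) f) N) (L (X (L (X 86 1) N) e) N)))) N)) N)))) N)) N) g) N) (L (X (A (L (R D 9472) 4294967295) (X c (L (R D 29696) 4294967295))) (A (L (X (A (L (R D 1984) 4294967295) (X c (L (R D 22208) 4294967295))) (A (L (X (L (X 1024 (L (X (A (A (L (R D 2912) 4294967295) (X c (L (R D 23136) 4294967295))) (S M (L (X 2147483648 (A 1 (X c 1))) N))) (A (L (X (L (X 767 e) N) f) N) (A (L (X (L (X 171 1) N) f) N) (L (X (L (X 86 1) N) e) N)))) N)) N) e) N) (L (X (A (A (L (R D 2944) 4294967295) (X c (L (R D 23168) 4294967295))) (S M (L (X 2147483648 (A 1 (X c 1))) N))) (L (X (L (X 171 a) N) (A (L (X (L (X 767 e) N) f) N) (A (L (X (L (X 171 1) N) f) N) (L (X (L (X 86 1) N) e) N)))) N)) N))) N) (L (X (A (L (R D 2080) 4294967295)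 (X c (L (R D 22304) 4294967295))) (A (L (X (L (X 1024 (L (X (A (A (L (R D 11744) 4294967295) (X c (L (R D 31968) 4294967295))) (S M (L (X 2147483648 (A 1 (X c 1))) N))) (A (L (X (L (X 767 e) N) f) N) (A (L (X (L (X 171 1) N) f) N) (L (X (L (X 86 1) N) e) N)))) N)) N) e) N) (L (X (A (A (L (R D 11840) 4294967295) (X c (L (R D 32064) 4294967295))) (S M (L (X 2147483648 (A 1 (X c 1))) N))) (L (X (L (X 171 a) N) (A (L (X (L (X 767 e) N) f) N) (A (L (X (L (X 171 1) N) f) N) (L (X (L (X 86 1) N) e) N)))) N)) N))) N))) N))))) N))) (S M (L (L (X (L (X (L (X 288230376151711744 (A (L (X (A (L (R D 16480) 4294967295) (X c (L (R D 36704) 4294967295))) (L (X 2 (A (L (X (L (X 767 e) N) f) N) (A (L (X (L (X 171 1) N) f) N) (L (X (L (X 86 1) N) e) N)))) N)) N) (A (L (X (A (L (R D 16512) 4294967295) (X c (L (R D 36736) 4294967295))) (A (L (X (L (X 767 e) N) f) N) (A (L (X (L (X 171 1) N) f) N) (L (X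 (L (X 86 1) N) e) N)))) N) (L (X (A (L (R D 16608) 4294967295) (X c (L (R D 36832) 4294967295))) (L (X 2 (A (L (X (L (X 767 e) N) f) N) (A (L (X (L (X 171 1) N) f) N) (L (X (L (X 86 1) N) e) N)))) N)) N)))) N) e) N) (P g 2)) N) N))), 125, 3, 2, 4, 1⟩,
  ⟨fun A S X L P R M N m a b c d e f g h D => (A (A (L (X (L (X 281474976710656 (L (X (A (L (X (L (X 1024 (A (A (L (R D 12448) 4294967295) (X c (L (R D 32672) 4294967295))) (S M (L (X 2147483648 (A 1 (X c 1))) N)))) N) e) N) (L (X (L (X 171 a) N) (A (A (L (R D 12736) 4294967295) (X c (L (R D 32960) 4294967295))) (S M (L (X 2147483648 (A 1 (X c 1))) N)))) N)) 1) N)) N) (P g 2)) N) (S M (L (A (L (X (L (X (L (X 288230376151711744 (L (X (A (A (L (R D 10880) 4294967295) (X c (L (R D 31104) 4294967295))) (S M (L (X 2147483648 (A 1 (X c 1))) N))) 1) N)) N) e) N) (P g 2)) N) (A (A (L (X (A (L (R D 9312) 4294967295) (X c (L (R D 29536) 4294967295)))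 (A (L (X (A (L (R D 2016) 4294967295) (X c (L (R D 22240) 4294967295))) (L (X (A (L (X (L (X 1024 (A (A (L (R D 2784) 4294967295) (X c (L (R D 23008) 4294967295))) (S M (L (X 2147483648 (A 1 (X c 1))) N)))) N) e) N) (L (X (L (X 171 a) N) (A (A (L (R D 2880) 4294967295) (X c (L (R D 23104) 4294967295))) (S M (L (X 2147483648 (A 1 (X c 1))) N)))) N)) 1) N)) N) (L (X (A (L (R D 2048) 4294967295) (X c (L (R D 22272) 4294967295))) (L (X (A (L (X (L (X 1024 (A (A (L (R D 11360) 4294967295) (X c (L (R D 31584) 4294967295))) (S M (L (X 2147483648 (A 1 (X c 1))) N)))) N) e) N) (L (X (L (X 171 a) N) (A (A (L (R D 11648) 4294967295) (X c (L (R D 31872) 4294967295))) (S M (L (X 2147483648 (A 1 (X c 1))) N)))) N)) 1) N)) N))) N) (A (L (X (L (X 16777216 (L (X (A (L (R D 9184) 4294967295) (X c (L (R D 29408) 4294967295))) (A (L (X (A (L (X (L (X 1024 (A (A (L (R D 2400) 4294967295) (X c (L (R D 22624)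 4294967295))) (S M (L (X 2147483648 (A 1 (X c 1))) N)))) N) e) N) (L (X (L (X 171 a) N) (A (A (L (R D 2496) 4294967295) (X c (L (R D 22720) 4294967295))) (S M (L (X 2147483648 (A 1 (X c 1))) N)))) N)) 1) N) (L (X (A (L (X (L (X 1024 (A (A (L (R D 12512) 4294967295) (X c (L (R D 32736) 4294967295))) (S M (L (X 2147483648 (A 1 (X c 1))) N)))) N) e) N) (L (X (L (X 171 a) N) (A (A (L (R D 12800) 4294967295) (X c (L (R D 33024) 4294967295))) (S M (L (X 2147483648 (A 1 (X c 1))) N)))) N)) 1) N))) N)) N) g) N) (L (X (A (L (R D 9440) 4294967295) (X c (L (R D 29664) 4294967295))) (A (L (X (A (L (R D 1984) 4294967295) (X c (L (R D 22208) 4294967295))) (L (X (A (L (X (L (X 1024 (A (A (L (R D 2784) 4294967295) (X c (L (R D 23008) 4294967295))) (S M (L (X 2147483648 (A 1 (X c 1))) N)))) N) e) N) (L (X (L (X 171 a) N) (A (A (L (R D 2880) 4294967295) (X c (L (R D 23104) 4294967295))) (S M (L (X 2147483648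 (A 1 (X c 1))) N)))) N)) 1) N)) N) (L (X (A (L (R D 2080) 4294967295) (X c (L (R D 22304) 4294967295))) (L (X (A (L (X (L (X 1024 (A (A (L (R D 11360) 4294967295) (X c (L (R D 31584) 4294967295))) (S M (L (X 2147483648 (A 1 (X c 1))) N)))) N) e) N) (L (X (L (X 171 a) N) (A (A (L (R D 11648) 4294967295) (X c (L (R D 31872) 4294967295))) (S M (L (X 2147483648 (A 1 (X c 1))) N)))) N)) 1) N)) N))) N))) (A (L (X (A (L (R D 9344) 4294967295) (X c (L (R D 29568) 4294967295))) (A (L (X (A (L (R D 2016) 4294967295) (X c (L (R D 22240) 4294967295))) (L (X (A (L (X (L (X 1024 (A (A (L (R D 2976) 4294967295) (X c (L (R D 23200) 4294967295))) (S M (L (X 2147483648 (A 1 (X c 1))) N)))) N) e) N) (L (X (L (X 171 a) N) (A (A (L (R D 3072) 4294967295) (X c (L (R D 23296) 4294967295))) (S M (L (X 2147483648 (A 1 (X c 1))) N)))) N)) 1) N)) N) (L (X (A (L (R D 2048) 4294967295) (X c (L (R D 22272) 4294967295)))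 (L (X (A (L (X (L (X 1024 (A (A (L (R D 11936) 4294967295) (X c (L (R D 32160) 4294967295))) (S M (L (X 2147483648 (A 1 (X c 1))) N)))) N) e) N) (L (X (L (X 171 a) N) (A (A (L (R D 12224) 4294967295) (X c (L (R D 32448) 4294967295))) (S M (L (X 2147483648 (A 1 (X c 1))) N)))) N)) 1) N)) N))) N) (A (L (X (L (X 16777216 (L (X (A (L (R D 9216) 4294967295) (X c (L (R D 29440) 4294967295))) (A (L (X (A (L (X (L (X 1024 (A (A (L (R D 2592) 4294967295) (X c (L (R D 22816) 4294967295))) (S M (L (X 2147483648 (A 1 (X c 1))) N)))) N) e) N) (L (X (L (X 171 a) N) (A (A (L (R D 2688) 4294967295) (X c (L (R D 22912) 4294967295))) (S M (L (X 2147483648 (A 1 (X c 1))) N)))) N)) 1) N) (L (X (A (L (X (L (X 1024 (A (A (L (R D 13088) 4294967295) (X c (L (R D 33312) 4294967295))) (S M (L (X 2147483648 (A 1 (X c 1))) N)))) N) e) N) (L (X (L (X 171 a) N) (A (A (L (R D 13376) 4294967295) (X c (L (R D 33600)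 4294967295))) (S M (L (X 2147483648 (A 1 (X c 1))) N)))) N)) 1) N))) N)) N) g) N) (L (X (A (L (R D 9472) 4294967295) (X c (L (R D 29696) 4294967295))) (A (L (X (A (L (R D 1984) 4294967295) (X c (L (R D 22208) 4294967295))) (L (X (A (L (X (L (X 1024 (A (A (L (R D 2976) 4294967295) (X c (L (R D 23200) 4294967295))) (S M (L (X 2147483648 (A 1 (X c 1))) N)))) N) e) N) (L (X (L (X 171 a) N) (A (A (L (R D 3072) 4294967295) (X c (L (R D 23296) 4294967295))) (S M (L (X 2147483648 (A 1 (X c 1))) N)))) N)) 1) N)) N) (L (X (A (L (R D 2080) 4294967295) (X c (L (R D 22304) 4294967295))) (L (X (A (L (X (L (X 1024 (A (A (L (R D 11936) 4294967295) (X c (L (R D 32160) 4294967295))) (S M (L (X 2147483648 (A 1 (X c 1))) N)))) N) e) N) (L (X (L (X 171 a) N) (A (A (L (R D 12224) 4294967295) (X c (L (R D 32448) 4294967295))) (S M (L (X 2147483648 (A 1 (X c 1))) N)))) N)) 1) N)) N))) N))))) N))) (S M (L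 (L (X (L (X (L (X 288230376151711744 (A (L (X (A (L (R D 16480) 4294967295) (X c (L (R D 36704) 4294967295))) (A 0 (S M (L (L (X 12 1) N) N)))) N) (A (L (X (A (L (R D 16544) 4294967295) (X c (L (R D 36768) 4294967295))) 1) N) (L (X (A (L (R D 16608) 4294967295) (X c (L (R D 36832) 4294967295))) (A 0 (S M (L (L (X 12 1) N) N)))) N)))) N) e) N) (P g 2)) N) N))), 114, 2, 1, 4, 1⟩,
  ⟨fun A S X L P R M N m a b c d e f g h D => (A (A (L (X (L (X 281474976710656 (L (X (A (A (L (R D 12544) 4294967295) (X c (L (R D 32768) 4294967295))) (S M (L (X 2147483648 (A 1 (X c 1))) N))) 1) N)) N) (P g 2)) N) (S M (L (A (L (X (L (X 281474976710656 (L (X (A (A (L (R D 10912) 4294967295) (X c (L (R D 31136) 4294967295))) (S M (L (X 2147483648 (A 1 (X c 1))) N))) 1) N)) N) (P g 2)) N) (A (A (L (X (A (L (R D 9312) 4294967295) (X c (L (R D 29536) 4294967295))) (A (L (X (A (L (R D 2016) 4294967295) (X c (L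 (R D 22240) 4294967295))) (L (X (A (A (L (R D 2816) 4294967295) (X c (L (R D 23040) 4294967295))) (S M (L (X 2147483648 (A 1 (X c 1))) N))) 1) N)) N) (L (X (A (L (R D 2048) 4294967295) (X c (L (R D 22272) 4294967295))) (L (X (A (A (L (R D 11456) 4294967295) (X c (L (R D 31680) 4294967295))) (S M (L (X 2147483648 (A 1 (X c 1))) N))) 1) N)) N))) N) (A (L (X (L (X 16777216 (L (X (A (L (R D 9184) 4294967295) (X c (L (R D 29408) 4294967295))) (A (L (X (A (A (L (R D 2432) 4294967295) (X c (L (R D 22656) 4294967295))) (S M (L (X 2147483648 (A 1 (X c 1))) N))) 1) N) (L (X (A (A (L (R D 12608) 4294967295) (X c (L (R D 32832) 4294967295))) (S M (L (X 2147483648 (A 1 (X c 1))) N))) 1) N))) N)) N) g) N) (L (X (A (L (R D 9440) 4294967295) (X c (L (R D 29664) 4294967295))) (A (L (X (A (L (R D 1984) 4294967295) (X c (L (R D 22208) 4294967295))) (L (X (A (A (L (R D 2816) 4294967295) (X c (L (R D 23040)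 4294967295))) (S M (L (X 2147483648 (A 1 (X c 1))) N))) 1) N)) N) (L (X (A (L (R D 2080) 4294967295) (X c (L (R D 22304) 4294967295))) (L (X (A (A (L (R D 11456) 4294967295) (X c (L (R D 31680) 4294967295))) (S M (L (X 2147483648 (A 1 (X c 1))) N))) 1) N)) N))) N))) (A (L (X (A (L (R D 9344) 4294967295) (X c (L (R D 29568) 4294967295))) (A (L (X (A (L (R D 2016) 4294967295) (X c (L (R D 22240) 4294967295))) (L (X (A (A (L (R D 3008) 4294967295) (X c (L (R D 23232) 4294967295))) (S M (L (X 2147483648 (A 1 (X c 1))) N))) 1) N)) N) (L (X (A (L (R D 2048) 4294967295) (X c (L (R D 22272) 4294967295))) (L (X (A (A (L (R D 12032) 4294967295) (X c (L (R D 32256) 4294967295))) (S M (L (X 2147483648 (A 1 (X c 1))) N))) 1) N)) N))) N) (A (L (X (L (X 16777216 (L (X (A (L (R D 9216) 4294967295) (X c (L (R D 29440) 4294967295))) (A (L (X (A (A (L (R D 2624) 4294967295) (X c (L (R D 22848) 4294967295)))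 (S M (L (X 2147483648 (A 1 (X c 1))) N))) 1) N) (L (X (A (A (L (R D 13184) 4294967295) (X c (L (R D 33408) 4294967295))) (S M (L (X 2147483648 (A 1 (X c 1))) N))) 1) N))) N)) N) g) N) (L (X (A (L (R D 9472) 4294967295) (X c (L (R D 29696) 4294967295))) (A (L (X (A (L (R D 1984) 4294967295) (X c (L (R D 22208) 4294967295))) (L (X (A (A (L (R D 3008) 4294967295) (X c (L (R D 23232) 4294967295))) (S M (L (X 2147483648 (A 1 (X c 1))) N))) 1) N)) N) (L (X (A (L (R D 2080) 4294967295) (X c (L (R D 22304) 4294967295))) (L (X (A (A (L (R D 12032) 4294967295) (X c (L (R D 32256) 4294967295))) (S M (L (X 2147483648 (A 1 (X c 1))) N))) 1) N)) N))) N))))) N))) (S M (L (L (X (L (X 281474976710656 (A (L (X (A (L (R D 16512) 4294967295) (X c (L (R D 36736) 4294967295))) (A 0 (S M (L (L (X 12 1) N) N)))) N) (A (L (X (A (L (R D 16576) 4294967295) (X c (L (R D 36800) 4294967295))) (L (X 2 1) N)) N)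 (L (X (A (L (R D 16608) 4294967295) (X c (L (R D 36832) 4294967295))) (A 0 (S M (L (L (X 24 1) N) N)))) N)))) N) (P g 2)) N) N))), 103, 1, 1, 4, 1⟩,
  ⟨fun A S X L P R M N m a b c d e f g h D => (A (A (L (X (L (X 281474976710656 (L (X (A (A (L (R D 12640) 4294967295) (X c (L (R D 32864) 4294967295))) (S M (L (X 2147483648 (A 1 (X c 1))) N))) 1) N)) N) (P g 2)) N) (S M (L (A (L (X (L (X 281474976710656 (L (X (A (A (L (R D 10944) 4294967295) (X c (L (R D 31168) 4294967295))) (S M (L (X 2147483648 (A 1 (X c 1))) N))) 1) N)) N) (P g 2)) N) (A (A (L (X (A (L (R D 9312) 4294967295) (X c (L (R D 29536) 4294967295))) (A (L (X (A (L (R D 2016) 4294967295) (X c (L (R D 22240) 4294967295))) (L (X (A (A (L (R D 2848) 4294967295) (X c (L (R D 23072) 4294967295))) (S M (L (X 2147483648 (A 1 (X c 1))) N))) 1) N)) N) (L (X (A (L (R D 2048) 4294967295) (X c (L (R D 22272) 4294967295))) (L (X (A (A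 (L (R D 11552) 4294967295) (X c (L (R D 31776) 4294967295))) (S M (L (X 2147483648 (A 1 (X c 1))) N))) 1) N)) N))) N) (A (L (X (L (X 16777216 (L (X (A (L (R D 9184) 4294967295) (X c (L (R D 29408) 4294967295))) (A (L (X (A (A (L (R D 2464) 4294967295) (X c (L (R D 22688) 4294967295))) (S M (L (X 2147483648 (A 1 (X c 1))) N))) 1) N) (L (X (A (A (L (R D 12704) 4294967295) (X c (L (R D 32928) 4294967295))) (S M (L (X 2147483648 (A 1 (X c 1))) N))) 1) N))) N)) N) g) N) (L (X (A (L (R D 9440) 4294967295) (X c (L (R D 29664) 4294967295))) (A (L (X (A (L (R D 1984) 4294967295) (X c (L (R D 22208) 4294967295))) (L (X (A (A (L (R D 2848) 4294967295) (X c (L (R D 23072) 4294967295))) (S M (L (X 2147483648 (A 1 (X c 1))) N))) 1) N)) N) (L (X (A (L (R D 2080) 4294967295) (X c (L (R D 22304) 4294967295))) (L (X (A (A (L (R D 11552) 4294967295) (X c (L (R D 31776) 4294967295))) (S M (L (X 2147483648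 (A 1 (X c 1))) N))) 1) N)) N))) N))) (A (L (X (A (L (R D 9344) 4294967295) (X c (L (R D 29568) 4294967295))) (A (L (X (A (L (R D 2016) 4294967295) (X c (L (R D 22240) 4294967295))) (L (X (A (A (L (R D 3040) 4294967295) (X c (L (R D 23264) 4294967295))) (S M (L (X 2147483648 (A 1 (X c 1))) N))) 1) N)) N) (L (X (A (L (R D 2048) 4294967295) (X c (L (R D 22272) 4294967295))) (L (X (A (A (L (R D 12128) 4294967295) (X c (L (R D 32352) 4294967295))) (S M (L (X 2147483648 (A 1 (X c 1))) N))) 1) N)) N))) N) (A (L (X (L (X 16777216 (L (X (A (L (R D 9216) 4294967295) (X c (L (R D 29440) 4294967295))) (A (L (X (A (A (L (R D 2656) 4294967295) (X c (L (R D 22880) 4294967295))) (S M (L (X 2147483648 (A 1 (X c 1))) N))) 1) N) (L (X (A (A (L (R D 13280) 4294967295) (X c (L (R D 33504) 4294967295))) (S M (L (X 2147483648 (A 1 (X c 1))) N))) 1) N))) N)) N) g) N) (L (X (A (L (R D 9472) 4294967295) (X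 c (L (R D 29696) 4294967295))) (A (L (X (A (L (R D 1984) 4294967295) (X c (L (R D 22208) 4294967295))) (L (X (A (A (L (R D 3040) 4294967295) (X c (L (R D 23264) 4294967295))) (S M (L (X 2147483648 (A 1 (X c 1))) N))) 1) N)) N) (L (X (A (L (R D 2080) 4294967295) (X c (L (R D 22304) 4294967295))) (L (X (A (A (L (R D 12128) 4294967295) (X c (L (R D 32352) 4294967295))) (S M (L (X 2147483648 (A 1 (X c 1))) N))) 1) N)) N))) N))))) N))) (S M (L (L (X (L (X 281474976710656 (A (L (X (A (L (R D 16544) 4294967295) (X c (L (R D 36768) 4294967295))) (A 0 (S M (L (L (X 12 1) N) N)))) N) (A (L (X (A (L (R D 16576) 4294967295) (X c (L (R D 36800) 4294967295))) (A 0 (S M (L (L (X 12 1) N) N)))) N) (L (X (A (L (R D 16608) 4294967295) (X c (L (R D 36832) 4294967295))) (L (X 144 1) N)) N)))) N) (P g 2)) N) N))), 103, 1, 1, 4, 1⟩,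
  ⟨fun A S X L P R M N m a b c d e f g h D => (A (A (L (X (L (X 1024 (L (X (A (A (L (R D 11104) 4294967295) (X c (L (R D 31328) 4294967295))) (S M (L (X 2147483648 (A 1 (X c 1))) N))) (A (L (X (L (X 767 e) N) f) N) (A (L (X (L (X 171 1) N) f) N) (L (X (L (X 86 1) N) e) N)))) N)) N) e) N) (L (X (A (A (L (R D 11200) 4294967295) (X c (L (R D 31424) 4294967295))) (S M (L (X 2147483648 (A 1 (X c 1))) N))) (L (X (L (X 171 a) N) (A (L (X (L (X 767 e) N) f) N) (A (L (X (L (X 171 1) N) f) N) (L (X (L (X 86 1) N) e) N)))) N)) N)) (S M (L (L (X (L (X 1024 (A (L (X (A (L (R D 16800) 4294967295) (X c (L (R D 37024) 4294967295))) (L (X 2 (A (L (X (L (X 767 e) N) f) N) (A (L (X (L (X 171 1) N) f) N) (L (X (L (X 86 1) N) e) N)))) N)) N) (A (L (X (A (L (R D 16832) 4294967295) (X c (L (R D 37056) 4294967295))) (A (L (X (L (X 767 e) N) f) N) (A (L (X (L (X 171 1) N) f) N) (L (X (L (X 86 1) N) e) N))))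 N) (L (X (A (L (R D 16928) 4294967295) (X c (L (R D 37152) 4294967295))) (L (X 2 (A (L (X (L (X 767 e) N) f) N) (A (L (X (L (X 171 1) N) f) N) (L (X (L (X 86 1) N) e) N)))) N)) N)))) N) e) N) N))), 59, 3, 2, 2, 1⟩,
  ⟨fun A S X L P R M N m a b c d e f g h D => (A (L (X (A (L (X (L (X 1024 (A (A (L (R D 11296) 4294967295) (X c (L (R D 31520) 4294967295))) (S M (L (X 2147483648 (A 1 (X c 1))) N)))) N) e) N) (L (X (L (X 171 a) N) (A (A (L (R D 11584) 4294967295) (X c (L (R D 31808) 4294967295))) (S M (L (X 2147483648 (A 1 (X c 1))) N)))) N)) 1) N) (S M (L (L (X (L (X 1024 (A (L (X (A (L (R D 16800) 4294967295) (X c (L (R D 37024) 4294967295))) (A 0 (S M (L (L (X 12 1) N) N)))) N) (A (L (X (A (L (R D 16864) 4294967295) (X c (L (R D 37088) 4294967295))) 1) N) (L (X (A (L (R D 16928) 4294967295) (X c (L (R D 37152) 4294967295))) (A 0 (S M (L (L (X 12 1) N) N)))) N)))) N) e) N) N))), 49,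 2, 1, 2, 1⟩,
  ⟨fun A S X L P R M N m a b c d e f g h D => (A (L (X (A (A (L (R D 11392) 4294967295) (X c (L (R D 31616) 4294967295))) (S M (L (X 2147483648 (A 1 (X c 1))) N))) 1) N) (S M (L (A (L (X (A (L (R D 16832) 4294967295) (X c (L (R D 37056) 4294967295))) (A 0 (S M (L (L (X 12 1) N) N)))) N) (A (L (X (A (L (R D 16896) 4294967295) (X c (L (R D 37120) 4294967295))) (L (X 2 1) N)) N) (L (X (A (L (R D 16928) 4294967295) (X c (L (R D 37152) 4294967295))) (A 0 (S M (L (L (X 24 1) N) N)))) N))) N))), 39, 1, 1, 2, 1⟩,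
  ⟨fun A S X L P R M N m a b c d e f g h D => (A (L (X (A (A (L (R D 11488) 4294967295) (X c (L (R D 31712) 4294967295))) (S M (L (X 2147483648 (A 1 (X c 1))) N))) 1) N) (S M (L (A (L (X (A (L (R D 16864) 4294967295) (X c (L (R D 37088) 4294967295))) (A 0 (S M (L (L (X 12 1) N) N)))) N) (A (L (X (A (L (R D 16896) 4294967295) (X c (L (R D 37120) 4294967295))) (A 0 (S M (L (L (X 12 1) N) N)))) N) (L (X (A (L (R D 16928) 4294967295) (X c (L (R D 37152) 4294967295))) (L (X 144 1) N)) N))) N))), 41, 1, 1, 2, 1⟩,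
  ⟨fun A S X L P R M N m a b c d e f g h D => (A (A (L (X (L (X 1024 (L (X (A (A (L (R D 12256) 4294967295) (X c (L (R D 32480) 4294967295))) (S M (L (X 2147483648 (A 1 (X c 1))) N))) (A (L (X (L (X 767 e) N) f) N) (A (L (X (L (X 171 1) N) f) N) (L (X (L (X 86 1) N) e) N)))) N)) N) e) N) (L (X (A (A (L (R D 12352) 4294967295) (X c (L (R D 32576) 4294967295))) (S M (L (X 2147483648 (A 1 (X c 1))) N))) (L (X (L (X 171 a) N) (A (L (X (L (X 767 e) N) f) N) (A (L (X (L (X 171 1) N) f) N) (L (X (L (X 86 1) N) e) N)))) N)) N)) (S M (L (L (X (L (X 1024 (A (L (X (A (L (R D 17120) 4294967295) (X c (L (R D 37344) 4294967295))) (L (X 2 (A (L (X (L (X 767 e) N) f) N) (A (L (X (L (X 171 1) N) f) N) (L (X (L (X 86 1) N) e) N)))) N)) N) (A (L (X (A (L (R D 17152) 4294967295) (X c (L (R D 37376) 4294967295))) (A (L (X (L (X 767 e) N) f) N) (A (L (X (L (X 171 1) N) f) N) (L (X (L (X 86 1) N) e) N))))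 N) (L (X (A (L (R D 17248) 4294967295) (X c (L (R D 37472) 4294967295))) (L (X 2 (A (L (X (L (X 767 e) N) f) N) (A (L (X (L (X 171 1) N) f) N) (L (X (L (X 86 1) N) e) N)))) N)) N)))) N) e) N) N))), 59, 3, 2, 2, 1⟩,
  ⟨fun A S X L P R M N m a b c d e f g h D => (A (L (X (A (L (X (L (X 1024 (A (A (L (R D 12448) 4294967295) (X c (L (R D 32672) 4294967295))) (S M (L (X 2147483648 (A 1 (X c 1))) N)))) N) e) N) (L (X (L (X 171 a) N) (A (A (L (R D 12736) 4294967295) (X c (L (R D 32960) 4294967295))) (S M (L (X 2147483648 (A 1 (X c 1))) N)))) N)) 1) N) (S M (L (L (X (L (X 1024 (A (L (X (A (L (R D 17120) 4294967295) (X c (L (R D 37344) 4294967295))) (A 0 (S M (L (L (X 12 1) N) N)))) N) (A (L (X (A (L (R D 17184) 4294967295) (X c (L (R D 37408) 4294967295))) 1) N) (L (X (A (L (R D 17248) 4294967295) (X c (L (R D 37472) 4294967295))) (A 0 (S M (L (L (X 12 1) N) N)))) N)))) N) e) N) N))), 49,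 2, 1, 2, 1⟩,
  ⟨fun A S X L P R M N m a b c d e f g h D => (A (L (X (A (A (L (R D 12544) 4294967295) (X c (L (R D 32768) 4294967295))) (S M (L (X 2147483648 (A 1 (X c 1))) N))) 1) N) (S M (L (A (L (X (A (L (R D 17152) 4294967295) (X c (L (R D 37376) 4294967295))) (A 0 (S M (L (L (X 12 1) N) N)))) N) (A (L (X (A (L (R D 17216) 4294967295) (X c (L (R D 37440) 4294967295))) (L (X 2 1) N)) N) (L (X (A (L (R D 17248) 4294967295) (X c (L (R D 37472) 4294967295))) (A 0 (S M (L (L (X 24 1) N) N)))) N))) N))), 39, 1, 1, 2, 1⟩,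
  ⟨fun A S X L P R M N m a b c d e f g h D => (A (L (X (A (A (L (R D 12640) 4294967295) (X c (L (R D 32864) 4294967295))) (S M (L (X 2147483648 (A 1 (X c 1))) N))) 1) N) (S M (L (A (L (X (A (L (R D 17184) 4294967295) (X c (L (R D 37408) 4294967295))) (A 0 (S M (L (L (X 12 1) N) N)))) N) (A (L (X (A (L (R D 17216) 4294967295) (X c (L (R D 37440) 4294967295))) (A 0 (S M (L (L (X 12 1) N) N)))) N) (L (X (A (L (R D 17248) 4294967295) (X c (L (R D 37472) 4294967295))) (L (X 144 1) N)) N))) N))), 41, 1, 1, 2, 1⟩,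
  ⟨fun A S X L P R M N m a b c d e f g h D => (A (A (L (X (L (X (L (X (L (X 590295810358705651712 (L (X (L (X 86 b) N) (A (L (X 1024 (A (L (X (A (L (X (L (X 1024 (A (A (L (R D 9696) 4294967295) (X c (L (R D 29920) 4294967295))) (S M (L (X 2147483648 (A 1 (X c 1))) N)))) N) e) N) (L (X (A (A (L (R D 9728) 4294967295) (X c (L (R D 29952) 4294967295))) (S M (L (X 2147483648 (A 1 (X c 1))) N))) (L (X 171 a) N)) N)) f) N) (L (X (L (X (A (A (L (R D 9760) 4294967295) (X c (L (R D 29984) 4294967295))) (S M (L (X 2147483648 (A 1 (X c 1))) N))) (L (X 86 b) N)) N) e) N))) N) (L (X (A (A (L (R D 9792) 4294967295) (X c (L (R D 30016) 4294967295))) (S M (L (X 2147483648 (A 1 (X c 1))) N))) (L (X (L (X 86 b) N) (L (X 171 a) N)) N)) N))) N)) N) (P e 3)) N) (P f 3)) N) (P g 2)) N) (S M (L (L (X (L (X (L (X 86 b) N) (A (L (X (L (X 1048576 (A (L (R D 32) 4294967295) (X c (L (R D 20256) 4294967295))))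 N) (P f 2)) N) (L (X (L (X 86 b) N) (A (L (X (L (X 1024 (A (L (R D 64) 4294967295) (X c (L (R D 20288) 4294967295)))) N) f) N) (L (X (L (X 86 b) N) (A (L (R D 96) 4294967295) (X c (L (R D 20320) 4294967295)))) N))) N))) N) (L (X (A (L (X 1 (A (L (R D 128) 4294967295) (X a (A (L (R D 160) 4294967295) (X a (L (R D 192) 4294967295)))))) N) (L (X c (A (L (R D 20352) 4294967295) (X a (A (L (R D 20384) 4294967295) (X a (L (R D 20416) 4294967295)))))) N)) (A (L (X (L (X (L (X (L (X 35184372088832 1) N) (P e 2)) N) (P f 2)) N) g) N) (L (X 1 (A (L (X (A (L (X (L (X 1024 (L (X (A (A (L (R D 896) 4294967295) (X c (L (R D 21120) 4294967295))) (S M (L (X 2147483648 (A 1 (X c 1))) N))) (A (L (X (L (X 767 e) N) f) N) (A (L (X (L (X 171 1) N) f) N) (L (X (L (X 86 1) N) e) N)))) N)) N) e) N) (L (X (A (A (L (R D 928) 4294967295) (X c (L (R D 21152) 4294967295))) (S M (L (X 2147483648 (A 1 (X c 1)))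 N))) (L (X (L (X 171 a) N) (A (L (X (L (X 767 e) N) f) N) (A (L (X (L (X 171 1) N) f) N) (L (X (L (X 86 1) N) e) N)))) N)) N)) f) N) (A (L (X (A (L (X (L (X 1024 (L (X (A (A (L (R D 896) 4294967295) (X c (L (R D 21120) 4294967295))) (S M (L (X 2147483648 (A 1 (X c 1))) N))) (A (L (X 853 e) N) (L (X 171 1) N))) N)) N) e) N) (L (X (A (A (L (R D 928) 4294967295) (X c (L (R D 21152) 4294967295))) (S M (L (X 2147483648 (A 1 (X c 1))) N))) (L (X (L (X 171 a) N) (A (L (X 853 e) N) (L (X 171 1) N))) N)) N)) (P f 2)) N) (L (X (L (X (A (A (L (R D 992) 4294967295) (X c (L (R D 21216) 4294967295))) (S M (L (X 2147483648 (A 1 (X c 1))) N))) (L (X (L (X 86 b) N) (L (X 86 b) N)) N)) N) (P e 2)) N)))) N))) N)) N) N))) (S M (L (L (X (L (X (L (X 33554432 (A (L (X (L (X 1024 (L (X (L (X (A (L (R D 13760) 4294967295) (X c (L (R D 33984) 4294967295))) (L (X (L (X 86 b) N) (A (L (X (L (X 1048576 (A (L (R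 D 32) 4294967295) (X c (L (R D 20256) 4294967295)))) N) (P f 2)) N) (L (X (L (X 86 b) N) (A (L (X (L (X 1024 (A (L (R D 64) 4294967295) (X c (L (R D 20288) 4294967295)))) N) f) N) (L (X (L (X 86 b) N) (A (L (R D 96) 4294967295) (X c (L (R D 20320) 4294967295)))) N))) N))) N)) N) (L (X 2 (A (L (X (L (X 767 e) N) f) N) (A (L (X (L (X 171 1) N) f) N) (L (X (L (X 86 1) N) e) N)))) N)) N)) N) f) N) (A (L (X (L (X 1024 (L (X (L (X (A (L (R D 13792) 4294967295) (X c (L (R D 34016) 4294967295))) (L (X (L (X 86 b) N) (A (L (X (L (X 1048576 (A (L (R D 32) 4294967295) (X c (L (R D 20256) 4294967295)))) N) (P f 2)) N) (L (X (L (X 86 b) N) (A (L (X (L (X 1024 (A (L (R D 64) 4294967295) (X c (L (R D 20288) 4294967295)))) N) f) N) (L (X (L (X 86 b) N) (A (L (R D 96) 4294967295) (X c (L (R D 20320) 4294967295)))) N))) N))) N)) N) (A (L (X (L (X 767 e) N) f) N) (A (L (X (L (X 171 1) N) f) N) (L (X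 (L (X 86 1) N) e) N)))) N)) N) f) N) (A (L (X (L (X 1024 (L (X (L (X (A (L (R D 13888) 4294967295) (X c (L (R D 34112) 4294967295))) (L (X (L (X 86 b) N) (A (L (X (L (X 1048576 (A (L (R D 32) 4294967295) (X c (L (R D 20256) 4294967295)))) N) (P f 2)) N) (L (X (L (X 86 b) N) (A (L (X (L (X 1024 (A (L (R D 64) 4294967295) (X c (L (R D 20288) 4294967295)))) N) f) N) (L (X (L (X 86 b) N) (A (L (R D 96) 4294967295) (X c (L (R D 20320) 4294967295)))) N))) N))) N)) N) (L (X 2 (A (L (X (L (X 767 e) N) f) N) (A (L (X (L (X 171 1) N) f) N) (L (X (L (X 86 1) N) e) N)))) N)) N)) N) f) N) (A (L (X (L (X 1024 (L (X (L (X (A (L (R D 13920) 4294967295) (X c (L (R D 34144) 4294967295))) (L (X (L (X 86 b) N) (A (L (X (L (X 1048576 (A (L (R D 32) 4294967295) (X c (L (R D 20256) 4294967295)))) N) (P f 2)) N) (L (X (L (X 86 b) N) (A (L (X (L (X 1024 (A (L (R D 64) 4294967295) (X c (L (R D 20288) 4294967295))))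 N) f) N) (L (X (L (X 86 b) N) (A (L (R D 96) 4294967295) (X c (L (R D 20320) 4294967295)))) N))) N))) N)) N) (L (X 2 (A (L (X 853 e) N) (L (X 171 1) N))) N)) N)) N) (P f 2)) N) (A (L (X (L (X (A (L (R D 13952) 4294967295) (X c (L (R D 34176) 4294967295))) (L (X (L (X 86 b) N) (A (L (X (L (X 1048576 (A (L (R D 32) 4294967295) (X c (L (R D 20256) 4294967295)))) N) (P f 2)) N) (L (X (L (X 86 b) N) (A (L (X (L (X 1024 (A (L (R D 64) 4294967295) (X c (L (R D 20288) 4294967295)))) N) f) N) (L (X (L (X 86 b) N) (A (L (R D 96) 4294967295) (X c (L (R D 20320) 4294967295)))) N))) N))) N)) N) (A (L (X (L (X 1024 (A (L (X 853 e) N) (L (X 171 1) N))) N) (P f 2)) N) (S M (L (L (X (L (X 12 (L (X (L (X 86 b) N) (L (X 86 b) N)) N)) N) e) N) N)))) N) (A (L (X (L (X (L (X (A (L (R D 14016) 4294967295) (X c (L (R D 34240) 4294967295))) (L (X (L (X 86 b) N) (A (L (X (L (X 1048576 (A (L (R D 32) 4294967295)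 (X c (L (R D 20256) 4294967295)))) N) (P f 2)) N) (L (X (L (X 86 b) N) (A (L (X (L (X 1024 (A (L (R D 64) 4294967295) (X c (L (R D 20288) 4294967295)))) N) f) N) (L (X (L (X 86 b) N) (A (L (R D 96) 4294967295) (X c (L (R D 20320) 4294967295)))) N))) N))) N)) N) (L (X 2 (L (X (L (X 86 b) N) (L (X 86 b) N)) N)) N)) N) e) N) (A (L (X (L (X (A (L (R D 14048) 4294967295) (X c (L (R D 34272) 4294967295))) (L (X (L (X 86 b) N) (A (L (X (L (X 1048576 (A (L (R D 32) 4294967295) (X c (L (R D 20256) 4294967295)))) N) (P f 2)) N) (L (X (L (X 86 b) N) (A (L (X (L (X 1024 (A (L (R D 64) 4294967295) (X c (L (R D 20288) 4294967295)))) N) f) N) (L (X (L (X 86 b) N) (A (L (R D 96) 4294967295) (X c (L (R D 20320) 4294967295)))) N))) N))) N)) N) (A (L (X (L (X 1024 (L (X 2 (A (L (X 853 e) N) (L (X 171 1) N))) N)) N) (P f 2)) N) (S M (L (L (X (L (X 24 (L (X (L (X 86 b) N) (L (X 86 b) N)) N)) N) e) N) N))))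 N) (L (X (L (X (L (X 1048576 (L (X (L (X (A (L (R D 14080) 4294967295) (X c (L (R D 34304) 4294967295))) (L (X (L (X 86 b) N) (A (L (X (L (X 1048576 (A (L (R D 32) 4294967295) (X c (L (R D 20256) 4294967295)))) N) (P f 2)) N) (L (X (L (X 86 b) N) (A (L (X (L (X 1024 (A (L (R D 64) 4294967295) (X c (L (R D 20288) 4294967295)))) N) f) N) (L (X (L (X 86 b) N) (A (L (R D 96) 4294967295) (X c (L (R D 20320) 4294967295)))) N))) N))) N)) N) 2) N)) N) e) N) (P f 2)) N))))))))) N) (P e 3)) N) g) N) N))), 155, 5, 6, 4, 1⟩,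
  ⟨fun A S X L P R M N m a b c d e f g h D => (A (A (L (X (L (X (L (X 0 (P e 3)) N) (P f 3)) N) (P g 3)) N) (S M (L (L (X (L (X (L (X 86 b) N) (A (L (X (L (X 1048576 (A (L (R D 32) 4294967295) (X c (L (R D 20256) 4294967295)))) N) (P f 2)) N) (L (X (L (X 86 b) N) (A (L (X (L (X 1024 (A (L (R D 64) 4294967295) (X c (L (R D 20288) 4294967295)))) N) f) N) (L (X (L (X 86 b) N) (A (L (R D 96) 4294967295) (X c (L (R D 20320) 4294967295)))) N))) N))) N) (L (X (A (L (X 1 (A (L (R D 128) 4294967295) (X a (A (L (R D 160) 4294967295) (X a (L (R D 192) 4294967295)))))) N) (L (X c (A (L (R D 20352) 4294967295) (X a (A (L (R D 20384) 4294967295) (X a (L (R D 20416) 4294967295)))))) N)) (L (X 1 (A (L (X (A (L (X (L (X 1024 (A (A (L (R D 960) 4294967295) (X c (L (R D 21184) 4294967295))) (S M (L (X 2147483648 (A 1 (X c 1))) N)))) N) e) N) (L (X (L (X 171 a) N) (A (A (L (R D 1056) 4294967295) (X c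 (L (R D 21280) 4294967295))) (S M (L (X 2147483648 (A 1 (X c 1))) N)))) N)) 1) N) (L (X (A (L (X (L (X 1024 (A (A (L (R D 960) 4294967295) (X c (L (R D 21184) 4294967295))) (S M (L (X 2147483648 (A 1 (X c 1))) N)))) N) e) N) (L (X (L (X 171 a) N) (A (A (L (R D 1056) 4294967295) (X c (L (R D 21280) 4294967295))) (S M (L (X 2147483648 (A 1 (X c 1))) N)))) N)) 1) N))) N)) N)) N) N))) (S M (L (L (X (L (X (L (X 34359738368 (A (L (X (L (X (A (L (R D 13760) 4294967295) (X c (L (R D 33984) 4294967295))) (L (X (L (X 86 b) N) (A (L (X (L (X 1048576 (A (L (R D 32) 4294967295) (X c (L (R D 20256) 4294967295)))) N) (P f 2)) N) (L (X (L (X 86 b) N) (A (L (X (L (X 1024 (A (L (R D 64) 4294967295) (X c (L (R D 20288) 4294967295)))) N) f) N) (L (X (L (X 86 b) N) (A (L (R D 96) 4294967295) (X c (L (R D 20320) 4294967295)))) N))) N))) N)) N) (A 0 (S M (L (L (X 12 1) N) N)))) N) (A (L (X (L (X (A (L (R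 D 13824) 4294967295) (X c (L (R D 34048) 4294967295))) (L (X (L (X 86 b) N) (A (L (X (L (X 1048576 (A (L (R D 32) 4294967295) (X c (L (R D 20256) 4294967295)))) N) (P f 2)) N) (L (X (L (X 86 b) N) (A (L (X (L (X 1024 (A (L (R D 64) 4294967295) (X c (L (R D 20288) 4294967295)))) N) f) N) (L (X (L (X 86 b) N) (A (L (R D 96) 4294967295) (X c (L (R D 20320) 4294967295)))) N))) N))) N)) N) 1) N) (A (L (X (L (X (A (L (R D 13888) 4294967295) (X c (L (R D 34112) 4294967295))) (L (X (L (X 86 b) N) (A (L (X (L (X 1048576 (A (L (R D 32) 4294967295) (X c (L (R D 20256) 4294967295)))) N) (P f 2)) N) (L (X (L (X 86 b) N) (A (L (X (L (X 1024 (A (L (R D 64) 4294967295) (X c (L (R D 20288) 4294967295)))) N) f) N) (L (X (L (X 86 b) N) (A (L (R D 96) 4294967295) (X c (L (R D 20320) 4294967295)))) N))) N))) N)) N) (A 0 (S M (L (L (X 12 1) N) N)))) N) (A (L (X (L (X (A (L (R D 13920) 4294967295) (X c (L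 (R D 34144) 4294967295))) (L (X (L (X 86 b) N) (A (L (X (L (X 1048576 (A (L (R D 32) 4294967295) (X c (L (R D 20256) 4294967295)))) N) (P f 2)) N) (L (X (L (X 86 b) N) (A (L (X (L (X 1024 (A (L (R D 64) 4294967295) (X c (L (R D 20288) 4294967295)))) N) f) N) (L (X (L (X 86 b) N) (A (L (R D 96) 4294967295) (X c (L (R D 20320) 4294967295)))) N))) N))) N)) N) (A 0 (S M (L (L (X 12 1) N) N)))) N) (A (L (X (L (X (A (L (R D 13984) 4294967295) (X c (L (R D 34208) 4294967295))) (L (X (L (X 86 b) N) (A (L (X (L (X 1048576 (A (L (R D 32) 4294967295) (X c (L (R D 20256) 4294967295)))) N) (P f 2)) N) (L (X (L (X 86 b) N) (A (L (X (L (X 1024 (A (L (R D 64) 4294967295) (X c (L (R D 20288) 4294967295)))) N) f) N) (L (X (L (X 86 b) N) (A (L (R D 96) 4294967295) (X c (L (R D 20320) 4294967295)))) N))) N))) N)) N) 1) N) (L (X (L (X (A (L (R D 14048) 4294967295) (X c (L (R D 34272) 4294967295))) (L (X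 (L (X 86 b) N) (A (L (X (L (X 1048576 (A (L (R D 32) 4294967295) (X c (L (R D 20256) 4294967295)))) N) (P f 2)) N) (L (X (L (X 86 b) N) (A (L (X (L (X 1024 (A (L (R D 64) 4294967295) (X c (L (R D 20288) 4294967295)))) N) f) N) (L (X (L (X 86 b) N) (A (L (R D 96) 4294967295) (X c (L (R D 20320) 4294967295)))) N))) N))) N)) N) (A 0 (S M (L (L (X 12 1) N) N)))) N))))))) N) (P e 3)) N) g) N) N))), 142, 4, 4, 4, 1⟩,
  ⟨fun A S X L P R M N m a b c d e f g h D => (A (A (L (X (L (X (L (X 0 (P e 2)) N) (P f 3)) N) (P g 3)) N) (S M (L (L (X (L (X (L (X 86 b) N) (A (L (X (L (X 1048576 (A (L (R D 32) 4294967295) (X c (L (R D 20256) 4294967295)))) N) (P f 2)) N) (L (X (L (X 86 b) N) (A (L (X (L (X 1024 (A (L (R D 64) 4294967295) (X c (L (R D 20288) 4294967295)))) N) f) N) (L (X (L (X 86 b) N) (A (L (R D 96) 4294967295) (X c (L (R D 20320) 4294967295)))) N))) N))) N) (L (X (A (L (X 1 (A (L (R D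 128) 4294967295) (X a (A (L (R D 160) 4294967295) (X a (L (R D 192) 4294967295)))))) N) (L (X c (A (L (R D 20352) 4294967295) (X a (A (L (R D 20384) 4294967295) (X a (L (R D 20416) 4294967295)))))) N)) (L (X 1 (A (L (X (A (A (L (R D 992) 4294967295) (X c (L (R D 21216) 4294967295))) (S M (L (X 2147483648 (A 1 (X c 1))) N))) 1) N) (L (X (A (A (L (R D 992) 4294967295) (X c (L (R D 21216) 4294967295))) (S M (L (X 2147483648 (A 1 (X c 1))) N))) 1) N))) N)) N)) N) N))) (S M (L (L (X (L (X (L (X 33554432 (A (L (X (L (X (A (L (R D 13792) 4294967295) (X c (L (R D 34016) 4294967295))) (L (X (L (X 86 b) N) (A (L (X (L (X 1048576 (A (L (R D 32) 4294967295) (X c (L (R D 20256) 4294967295)))) N) (P f 2)) N) (L (X (L (X 86 b) N) (A (L (X (L (X 1024 (A (L (R D 64) 4294967295) (X c (L (R D 20288) 4294967295)))) N) f) N) (L (X (L (X 86 b) N) (A (L (R D 96) 4294967295) (X c (L (R D 20320) 4294967295))))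 N))) N))) N)) N) (A 0 (S M (L (L (X 12 1) N) N)))) N) (A (L (X (L (X (A (L (R D 13856) 4294967295) (X c (L (R D 34080) 4294967295))) (L (X (L (X 86 b) N) (A (L (X (L (X 1048576 (A (L (R D 32) 4294967295) (X c (L (R D 20256) 4294967295)))) N) (P f 2)) N) (L (X (L (X 86 b) N) (A (L (X (L (X 1024 (A (L (R D 64) 4294967295) (X c (L (R D 20288) 4294967295)))) N) f) N) (L (X (L (X 86 b) N) (A (L (R D 96) 4294967295) (X c (L (R D 20320) 4294967295)))) N))) N))) N)) N) (L (X 2 1) N)) N) (A (L (X (L (X (A (L (R D 13888) 4294967295) (X c (L (R D 34112) 4294967295))) (L (X (L (X 86 b) N) (A (L (X (L (X 1048576 (A (L (R D 32) 4294967295) (X c (L (R D 20256) 4294967295)))) N) (P f 2)) N) (L (X (L (X 86 b) N) (A (L (X (L (X 1024 (A (L (R D 64) 4294967295) (X c (L (R D 20288) 4294967295)))) N) f) N) (L (X (L (X 86 b) N) (A (L (R D 96) 4294967295) (X c (L (R D 20320) 4294967295)))) N))) N))) N)) N)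 (A 0 (S M (L (L (X 24 1) N) N)))) N) (A (L (X (L (X (A (L (R D 13952) 4294967295) (X c (L (R D 34176) 4294967295))) (L (X (L (X 86 b) N) (A (L (X (L (X 1048576 (A (L (R D 32) 4294967295) (X c (L (R D 20256) 4294967295)))) N) (P f 2)) N) (L (X (L (X 86 b) N) (A (L (X (L (X 1024 (A (L (R D 64) 4294967295) (X c (L (R D 20288) 4294967295)))) N) f) N) (L (X (L (X 86 b) N) (A (L (R D 96) 4294967295) (X c (L (R D 20320) 4294967295)))) N))) N))) N)) N) (A 0 (S M (L (L (X 12 1) N) N)))) N) (A (L (X (L (X (A (L (R D 14016) 4294967295) (X c (L (R D 34240) 4294967295))) (L (X (L (X 86 b) N) (A (L (X (L (X 1048576 (A (L (R D 32) 4294967295) (X c (L (R D 20256) 4294967295)))) N) (P f 2)) N) (L (X (L (X 86 b) N) (A (L (X (L (X 1024 (A (L (R D 64) 4294967295) (X c (L (R D 20288) 4294967295)))) N) f) N) (L (X (L (X 86 b) N) (A (L (R D 96) 4294967295) (X c (L (R D 20320) 4294967295)))) N))) N))) N))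 N) (L (X 2 1) N)) N) (L (X (L (X (A (L (R D 14048) 4294967295) (X c (L (R D 34272) 4294967295))) (L (X (L (X 86 b) N) (A (L (X (L (X 1048576 (A (L (R D 32) 4294967295) (X c (L (R D 20256) 4294967295)))) N) (P f 2)) N) (L (X (L (X 86 b) N) (A (L (X (L (X 1024 (A (L (R D 64) 4294967295) (X c (L (R D 20288) 4294967295)))) N) f) N) (L (X (L (X 86 b) N) (A (L (R D 96) 4294967295) (X c (L (R D 20320) 4294967295)))) N))) N))) N)) N) (A 0 (S M (L (L (X 24 1) N) N)))) N))))))) N) (P e 2)) N) g) N) N))), 131, 3, 4, 4, 1⟩,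
  ⟨fun A S X L P R M N m a b c d e f g h D => (A (A (L (X (L (X (L (X 0 (P e 2)) N) (P f 3)) N) (P g 3)) N) (S M (L (L (X (L (X (L (X 86 b) N) (A (L (X (L (X 1048576 (A (L (R D 32) 4294967295) (X c (L (R D 20256) 4294967295)))) N) (P f 2)) N) (L (X (L (X 86 b) N) (A (L (X (L (X 1024 (A (L (R D 64) 4294967295) (X c (L (R D 20288) 4294967295)))) N) f) N) (L (X (L (X 86 b) N) (A (L (R D 96) 4294967295) (X c (L (R D 20320) 4294967295)))) N))) N))) N) (L (X (A (L (X 1 (A (L (R D 128) 4294967295) (X a (A (L (R D 160) 4294967295) (X a (L (R D 192) 4294967295)))))) N) (L (X c (A (L (R D 20352) 4294967295) (X a (A (L (R D 20384) 4294967295) (X a (L (R D 20416) 4294967295)))))) N)) (L (X 1 (A (L (X (A (A (L (R D 1024) 4294967295) (X c (L (R D 21248) 4294967295))) (S M (L (X 2147483648 (A 1 (X c 1))) N))) 1) N) (L (X (A (A (L (R D 1024) 4294967295) (X c (L (R D 21248) 4294967295))) (S M (L (X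 2147483648 (A 1 (X c 1))) N))) 1) N))) N)) N)) N) N))) (S M (L (L (X (L (X (L (X 33554432 (A (L (X (L (X (A (L (R D 13824) 4294967295) (X c (L (R D 34048) 4294967295))) (L (X (L (X 86 b) N) (A (L (X (L (X 1048576 (A (L (R D 32) 4294967295) (X c (L (R D 20256) 4294967295)))) N) (P f 2)) N) (L (X (L (X 86 b) N) (A (L (X (L (X 1024 (A (L (R D 64) 4294967295) (X c (L (R D 20288) 4294967295)))) N) f) N) (L (X (L (X 86 b) N) (A (L (R D 96) 4294967295) (X c (L (R D 20320) 4294967295)))) N))) N))) N)) N) (A 0 (S M (L (L (X 12 1) N) N)))) N) (A (L (X (L (X (A (L (R D 13856) 4294967295) (X c (L (R D 34080) 4294967295))) (L (X (L (X 86 b) N) (A (L (X (L (X 1048576 (A (L (R D 32) 4294967295) (X c (L (R D 20256) 4294967295)))) N) (P f 2)) N) (L (X (L (X 86 b) N) (A (L (X (L (X 1024 (A (L (R D 64) 4294967295) (X c (L (R D 20288) 4294967295)))) N) f) N) (L (X (L (X 86 b) N) (A (L (R D 96) 4294967295)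 (X c (L (R D 20320) 4294967295)))) N))) N))) N)) N) (A 0 (S M (L (L (X 12 1) N) N)))) N) (A (L (X (L (X (A (L (R D 13888) 4294967295) (X c (L (R D 34112) 4294967295))) (L (X (L (X 86 b) N) (A (L (X (L (X 1048576 (A (L (R D 32) 4294967295) (X c (L (R D 20256) 4294967295)))) N) (P f 2)) N) (L (X (L (X 86 b) N) (A (L (X (L (X 1024 (A (L (R D 64) 4294967295) (X c (L (R D 20288) 4294967295)))) N) f) N) (L (X (L (X 86 b) N) (A (L (R D 96) 4294967295) (X c (L (R D 20320) 4294967295)))) N))) N))) N)) N) (L (X 144 1) N)) N) (A (L (X (L (X (A (L (R D 13984) 4294967295) (X c (L (R D 34208) 4294967295))) (L (X (L (X 86 b) N) (A (L (X (L (X 1048576 (A (L (R D 32) 4294967295) (X c (L (R D 20256) 4294967295)))) N) (P f 2)) N) (L (X (L (X 86 b) N) (A (L (X (L (X 1024 (A (L (R D 64) 4294967295) (X c (L (R D 20288) 4294967295)))) N) f) N) (L (X (L (X 86 b) N) (A (L (R D 96) 4294967295) (X c (L (R D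 20320) 4294967295)))) N))) N))) N)) N) (A 0 (S M (L (L (X 12 1) N) N)))) N) (A (L (X (L (X (A (L (R D 14016) 4294967295) (X c (L (R D 34240) 4294967295))) (L (X (L (X 86 b) N) (A (L (X (L (X 1048576 (A (L (R D 32) 4294967295) (X c (L (R D 20256) 4294967295)))) N) (P f 2)) N) (L (X (L (X 86 b) N) (A (L (X (L (X 1024 (A (L (R D 64) 4294967295) (X c (L (R D 20288) 4294967295)))) N) f) N) (L (X (L (X 86 b) N) (A (L (R D 96) 4294967295) (X c (L (R D 20320) 4294967295)))) N))) N))) N)) N) (A 0 (S M (L (L (X 12 1) N) N)))) N) (L (X (L (X (A (L (R D 14048) 4294967295) (X c (L (R D 34272) 4294967295))) (L (X (L (X 86 b) N) (A (L (X (L (X 1048576 (A (L (R D 32) 4294967295) (X c (L (R D 20256) 4294967295)))) N) (P f 2)) N) (L (X (L (X 86 b) N) (A (L (X (L (X 1024 (A (L (R D 64) 4294967295) (X c (L (R D 20288) 4294967295)))) N) f) N) (L (X (L (X 86 b) N) (A (L (R D 96) 4294967295) (X c (L (R D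 20320) 4294967295)))) N))) N))) N)) N) (L (X 144 1) N)) N))))))) N) (P e 2)) N) g) N) N))), 132, 3, 4, 4, 1⟩,
  ⟨fun A S X L P R M N m a b c d e f g h D => (A (A (L (X (L (X (L (X 0 (P e 3)) N) (P f 5)) N) (P g 3)) N) (S M (L (L (X (L (X (L (X 86 b) N) (A (L (X (L (X 1048576 (A (L (R D 32) 4294967295) (X c (L (R D 20256) 4294967295)))) N) (P f 2)) N) (L (X (L (X 86 b) N) (A (L (X (L (X 1024 (A (L (R D 64) 4294967295) (X c (L (R D 20288) 4294967295)))) N) f) N) (L (X (L (X 86 b) N) (A (L (R D 96) 4294967295) (X c (L (R D 20320) 4294967295)))) N))) N))) N) (L (X (A (L (X 1 (A (L (R D 128) 4294967295) (X a (A (L (R D 160) 4294967295) (X a (L (R D 192) 4294967295)))))) N) (L (X c (A (L (R D 20352) 4294967295) (X a (A (L (R D 20384) 4294967295) (X a (L (R D 20416) 4294967295)))))) N)) (L (X 1 (A (L (X (L (X (A (L (X (L (X 1024 (A (A (L (R D 960) 4294967295) (X c (L (R D 21184) 4294967295)))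 (S M (L (X 2147483648 (A 1 (X c 1))) N)))) N) e) N) (L (X (L (X 171 a) N) (A (A (L (R D 1056) 4294967295) (X c (L (R D 21280) 4294967295))) (S M (L (X 2147483648 (A 1 (X c 1))) N)))) N)) (L (X 86 b) N)) N) f) N) (L (X (L (X (A (A (L (R D 1024) 4294967295) (X c (L (R D 21248) 4294967295))) (S M (L (X 2147483648 (A 1 (X c 1))) N))) (L (X (L (X 86 b) N) (L (X 86 b) N)) N)) N) e) N))) N)) N)) N) N))) (S M (L (L (X (L (X (L (X 33554432 (A (L (X (L (X 1024 (L (X (L (X (A (L (R D 13920) 4294967295) (X c (L (R D 34144) 4294967295))) (L (X (L (X 86 b) N) (A (L (X (L (X 1048576 (A (L (R D 32) 4294967295) (X c (L (R D 20256) 4294967295)))) N) (P f 2)) N) (L (X (L (X 86 b) N) (A (L (X (L (X 1024 (A (L (R D 64) 4294967295) (X c (L (R D 20288) 4294967295)))) N) f) N) (L (X (L (X 86 b) N) (A (L (R D 96) 4294967295) (X c (L (R D 20320) 4294967295)))) N))) N))) N)) N) (A (L (X 0 f) N) (S M (L (L (X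 12 (L (X 86 b) N)) N) N)))) N)) N) f) N) (A (L (X (L (X (A (L (R D 13984) 4294967295) (X c (L (R D 34208) 4294967295))) (L (X (L (X 86 b) N) (A (L (X (L (X 1048576 (A (L (R D 32) 4294967295) (X c (L (R D 20256) 4294967295)))) N) (P f 2)) N) (L (X (L (X 86 b) N) (A (L (X (L (X 1024 (A (L (R D 64) 4294967295) (X c (L (R D 20288) 4294967295)))) N) f) N) (L (X (L (X 86 b) N) (A (L (R D 96) 4294967295) (X c (L (R D 20320) 4294967295)))) N))) N))) N)) N) (A (L (X (L (X 1024 (L (X 86 b) N)) N) f) N) (S M (L (L (X 12 (L (X (L (X 86 b) N) (L (X 86 b) N)) N)) N) N)))) N) (A (L (X (L (X (A (L (R D 14016) 4294967295) (X c (L (R D 34240) 4294967295))) (L (X (L (X 86 b) N) (A (L (X (L (X 1048576 (A (L (R D 32) 4294967295) (X c (L (R D 20256) 4294967295)))) N) (P f 2)) N) (L (X (L (X 86 b) N) (A (L (X (L (X 1024 (A (L (R D 64) 4294967295) (X c (L (R D 20288) 4294967295)))) N) f) N) (L (X (L (X 86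 b) N) (A (L (R D 96) 4294967295) (X c (L (R D 20320) 4294967295)))) N))) N))) N)) N) (A (L (X 0 (P f 2)) N) (S M (L (L (X 12 (L (X (L (X 86 b) N) (L (X 86 b) N)) N)) N) N)))) N) (A (L (X (L (X (A (L (R D 14048) 4294967295) (X c (L (R D 34272) 4294967295))) (L (X (L (X 86 b) N) (A (L (X (L (X 1048576 (A (L (R D 32) 4294967295) (X c (L (R D 20256) 4294967295)))) N) (P f 2)) N) (L (X (L (X 86 b) N) (A (L (X (L (X 1024 (A (L (R D 64) 4294967295) (X c (L (R D 20288) 4294967295)))) N) f) N) (L (X (L (X 86 b) N) (A (L (R D 96) 4294967295) (X c (L (R D 20320) 4294967295)))) N))) N))) N)) N) (A (L (X 144 (L (X (L (X 86 b) N) (L (X 86 b) N)) N)) N) (S M (L (L (X (L (X 1024 (L (X 12 (L (X 86 b) N)) N)) N) f) N) N)))) N) (L (X (L (X 1048576 (L (X (L (X (A (L (R D 14080) 4294967295) (X c (L (R D 34304) 4294967295))) (L (X (L (X 86 b) N) (A (L (X (L (X 1048576 (A (L (R D 32) 4294967295) (X c (L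 (R D 20256) 4294967295)))) N) (P f 2)) N) (L (X (L (X 86 b) N) (A (L (X (L (X 1024 (A (L (R D 64) 4294967295) (X c (L (R D 20288) 4294967295)))) N) f) N) (L (X (L (X 86 b) N) (A (L (R D 96) 4294967295) (X c (L (R D 20320) 4294967295)))) N))) N))) N)) N) (A 0 (S M (L (L (X 12 1) N) N)))) N)) N) (P f 2)) N)))))) N) (P e 3)) N) g) N) N))), 150, 4, 6, 4, 1⟩,
  ⟨fun A S X L P R M N m a b c d e f g h D => (A (A (L (X (L (X (L (X (L (X 590295810358705651712 (L (X (L (X 86 b) N) (A (L (X 1024 (A (L (X (A (L (X (L (X 1024 (A (A (L (R D 9952) 4294967295) (X c (L (R D 30176) 4294967295))) (S M (L (X 2147483648 (A 1 (X c 1))) N)))) N) e) N) (L (X (A (A (L (R D 9984) 4294967295) (X c (L (R D 30208) 4294967295))) (S M (L (X 2147483648 (A 1 (X c 1))) N))) (L (X 171 a) N)) N)) f) N) (L (X (L (X (A (A (L (R D 10016) 4294967295) (X c (L (R D 30240) 4294967295))) (S M (L (X 2147483648 (A 1 (X c 1)))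 N))) (L (X 86 b) N)) N) e) N))) N) (L (X (A (A (L (R D 10048) 4294967295) (X c (L (R D 30272) 4294967295))) (S M (L (X 2147483648 (A 1 (X c 1))) N))) (L (X (L (X 86 b) N) (L (X 171 a) N)) N)) N))) N)) N) (P e 3)) N) (P f 3)) N) (P g 2)) N) (S M (L (L (X (L (X (L (X 86 b) N) (A (L (X (L (X 1048576 (A (L (R D 32) 4294967295) (X c (L (R D 20256) 4294967295)))) N) (P f 2)) N) (L (X (L (X 86 b) N) (A (L (X (L (X 1024 (A (L (R D 64) 4294967295) (X c (L (R D 20288) 4294967295)))) N) f) N) (L (X (L (X 86 b) N) (A (L (R D 96) 4294967295) (X c (L (R D 20320) 4294967295)))) N))) N))) N) (L (X (A (L (X 1 (A (L (R D 128) 4294967295) (X a (A (L (R D 160) 4294967295) (X a (L (R D 192) 4294967295)))))) N) (L (X c (A (L (R D 20352) 4294967295) (X a (A (L (R D 20384) 4294967295) (X a (L (R D 20416) 4294967295)))))) N)) (L (X 1 (A (L (X (A (L (X (L (X 1024 (L (X (A (A (L (R D 704) 4294967295) (X c (L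 (R D 20928) 4294967295))) (S M (L (X 2147483648 (A 1 (X c 1))) N))) (A (L (X (L (X 767 e) N) f) N) (A (L (X (L (X 171 1) N) f) N) (L (X (L (X 86 1) N) e) N)))) N)) N) e) N) (L (X (A (A (L (R D 736) 4294967295) (X c (L (R D 20960) 4294967295))) (S M (L (X 2147483648 (A 1 (X c 1))) N))) (L (X (L (X 171 a) N) (A (L (X (L (X 767 e) N) f) N) (A (L (X (L (X 171 1) N) f) N) (L (X (L (X 86 1) N) e) N)))) N)) N)) f) N) (A (L (X (A (L (X (L (X 1024 (L (X (A (A (L (R D 704) 4294967295) (X c (L (R D 20928) 4294967295))) (S M (L (X 2147483648 (A 1 (X c 1))) N))) (A (L (X 853 e) N) (L (X 171 1) N))) N)) N) e) N) (L (X (A (A (L (R D 736) 4294967295) (X c (L (R D 20960) 4294967295))) (S M (L (X 2147483648 (A 1 (X c 1))) N))) (L (X (L (X 171 a) N) (A (L (X 853 e) N) (L (X 171 1) N))) N)) N)) (P f 2)) N) (L (X (L (X (A (A (L (R D 800) 4294967295) (X c (L (R D 21024) 4294967295))) (S M (L (X 2147483648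 (A 1 (X c 1))) N))) (L (X (L (X 86 b) N) (L (X 86 b) N)) N)) N) (P e 2)) N)))) N)) N)) N) N))) (S M (L (L (X (L (X (L (X 33554432 (A (L (X (L (X 1024 (L (X (L (X (A (L (R D 14464) 4294967295) (X c (L (R D 34688) 4294967295))) (L (X (L (X 86 b) N) (A (L (X (L (X 1048576 (A (L (R D 32) 4294967295) (X c (L (R D 20256) 4294967295)))) N) (P f 2)) N) (L (X (L (X 86 b) N) (A (L (X (L (X 1024 (A (L (R D 64) 4294967295) (X c (L (R D 20288) 4294967295)))) N) f) N) (L (X (L (X 86 b) N) (A (L (R D 96) 4294967295) (X c (L (R D 20320) 4294967295)))) N))) N))) N)) N) (L (X 2 (A (L (X (L (X 767 e) N) f) N) (A (L (X (L (X 171 1) N) f) N) (L (X (L (X 86 1) N) e) N)))) N)) N)) N) f) N) (A (L (X (L (X 1024 (L (X (L (X (A (L (R D 14496) 4294967295) (X c (L (R D 34720) 4294967295))) (L (X (L (X 86 b) N) (A (L (X (L (X 1048576 (A (L (R D 32) 4294967295) (X c (L (R D 20256) 4294967295)))) N) (P f 2)) N) (L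 (X (L (X 86 b) N) (A (L (X (L (X 1024 (A (L (R D 64) 4294967295) (X c (L (R D 20288) 4294967295)))) N) f) N) (L (X (L (X 86 b) N) (A (L (R D 96) 4294967295) (X c (L (R D 20320) 4294967295)))) N))) N))) N)) N) (A (L (X (L (X 767 e) N) f) N) (A (L (X (L (X 171 1) N) f) N) (L (X (L (X 86 1) N) e) N)))) N)) N) f) N) (A (L (X (L (X 1024 (L (X (L (X (A (L (R D 14592) 4294967295) (X c (L (R D 34816) 4294967295))) (L (X (L (X 86 b) N) (A (L (X (L (X 1048576 (A (L (R D 32) 4294967295) (X c (L (R D 20256) 4294967295)))) N) (P f 2)) N) (L (X (L (X 86 b) N) (A (L (X (L (X 1024 (A (L (R D 64) 4294967295) (X c (L (R D 20288) 4294967295)))) N) f) N) (L (X (L (X 86 b) N) (A (L (R D 96) 4294967295) (X c (L (R D 20320) 4294967295)))) N))) N))) N)) N) (L (X 2 (A (L (X (L (X 767 e) N) f) N) (A (L (X (L (X 171 1) N) f) N) (L (X (L (X 86 1) N) e) N)))) N)) N)) N) f) N) (A (L (X (L (X 1024 (L (X (L (X (A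 (L (R D 14624) 4294967295) (X c (L (R D 34848) 4294967295))) (L (X (L (X 86 b) N) (A (L (X (L (X 1048576 (A (L (R D 32) 4294967295) (X c (L (R D 20256) 4294967295)))) N) (P f 2)) N) (L (X (L (X 86 b) N) (A (L (X (L (X 1024 (A (L (R D 64) 4294967295) (X c (L (R D 20288) 4294967295)))) N) f) N) (L (X (L (X 86 b) N) (A (L (R D 96) 4294967295) (X c (L (R D 20320) 4294967295)))) N))) N))) N)) N) (L (X 2 (A (L (X 853 e) N) (L (X 171 1) N))) N)) N)) N) (P f 2)) N) (A (L (X (L (X (A (L (R D 14656) 4294967295) (X c (L (R D 34880) 4294967295))) (L (X (L (X 86 b) N) (A (L (X (L (X 1048576 (A (L (R D 32) 4294967295) (X c (L (R D 20256) 4294967295)))) N) (P f 2)) N) (L (X (L (X 86 b) N) (A (L (X (L (X 1024 (A (L (R D 64) 4294967295) (X c (L (R D 20288) 4294967295)))) N) f) N) (L (X (L (X 86 b) N) (A (L (R D 96) 4294967295) (X c (L (R D 20320) 4294967295)))) N))) N))) N)) N) (A (L (X (L (X 1024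 (A (L (X 853 e) N) (L (X 171 1) N))) N) (P f 2)) N) (S M (L (L (X (L (X 12 (L (X (L (X 86 b) N) (L (X 86 b) N)) N)) N) e) N) N)))) N) (A (L (X (L (X (L (X (A (L (R D 14720) 4294967295) (X c (L (R D 34944) 4294967295))) (L (X (L (X 86 b) N) (A (L (X (L (X 1048576 (A (L (R D 32) 4294967295) (X c (L (R D 20256) 4294967295)))) N) (P f 2)) N) (L (X (L (X 86 b) N) (A (L (X (L (X 1024 (A (L (R D 64) 4294967295) (X c (L (R D 20288) 4294967295)))) N) f) N) (L (X (L (X 86 b) N) (A (L (R D 96) 4294967295) (X c (L (R D 20320) 4294967295)))) N))) N))) N)) N) (L (X 2 (L (X (L (X 86 b) N) (L (X 86 b) N)) N)) N)) N) e) N) (A (L (X (L (X (A (L (R D 14752) 4294967295) (X c (L (R D 34976) 4294967295))) (L (X (L (X 86 b) N) (A (L (X (L (X 1048576 (A (L (R D 32) 4294967295) (X c (L (R D 20256) 4294967295)))) N) (P f 2)) N) (L (X (L (X 86 b) N) (A (L (X (L (X 1024 (A (L (R D 64) 4294967295) (X c (L (R D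 20288) 4294967295)))) N) f) N) (L (X (L (X 86 b) N) (A (L (R D 96) 4294967295) (X c (L (R D 20320) 4294967295)))) N))) N))) N)) N) (A (L (X (L (X 1024 (L (X 2 (A (L (X 853 e) N) (L (X 171 1) N))) N)) N) (P f 2)) N) (S M (L (L (X (L (X 24 (L (X (L (X 86 b) N) (L (X 86 b) N)) N)) N) e) N) N)))) N) (L (X (L (X (L (X 1048576 (L (X (L (X (A (L (R D 14784) 4294967295) (X c (L (R D 35008) 4294967295))) (L (X (L (X 86 b) N) (A (L (X (L (X 1048576 (A (L (R D 32) 4294967295) (X c (L (R D 20256) 4294967295)))) N) (P f 2)) N) (L (X (L (X 86 b) N) (A (L (X (L (X 1024 (A (L (R D 64) 4294967295) (X c (L (R D 20288) 4294967295)))) N) f) N) (L (X (L (X 86 b) N) (A (L (R D 96) 4294967295) (X c (L (R D 20320) 4294967295)))) N))) N))) N)) N) 2) N)) N) e) N) (P f 2)) N))))))))) N) (P e 3)) N) g) N) N))), 155, 5, 6, 4, 1⟩,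
  ⟨fun A S X L P R M N m a b c d e f g h D => (A (A (L (X (L (X (L (X 0 (P e 3)) N) (P f 3)) N) (P g 3)) N) (S M (L (L (X (L (X (L (X 86 b) N) (A (L (X (L (X 1048576 (A (L (R D 32) 4294967295) (X c (L (R D 20256) 4294967295)))) N) (P f 2)) N) (L (X (L (X 86 b) N) (A (L (X (L (X 1024 (A (L (R D 64) 4294967295) (X c (L (R D 20288) 4294967295)))) N) f) N) (L (X (L (X 86 b) N) (A (L (R D 96) 4294967295) (X c (L (R D 20320) 4294967295)))) N))) N))) N) (L (X (A (L (X 1 (A (L (R D 128) 4294967295) (X a (A (L (R D 160) 4294967295) (X a (L (R D 192) 4294967295)))))) N) (L (X c (A (L (R D 20352) 4294967295) (X a (A (L (R D 20384) 4294967295) (X a (L (R D 20416) 4294967295)))))) N)) (L (X 1 (A (L (X (A (L (X (L (X 1024 (A (A (L (R D 768) 4294967295) (X c (L (R D 20992) 4294967295))) (S M (L (X 2147483648 (A 1 (X c 1))) N)))) N) e) N) (L (X (L (X 171 a) N) (A (A (L (R D 864) 4294967295) (X c (L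 (R D 21088) 4294967295))) (S M (L (X 2147483648 (A 1 (X c 1))) N)))) N)) 1) N) (L (X (A (L (X (L (X 1024 (A (A (L (R D 768) 4294967295) (X c (L (R D 20992) 4294967295))) (S M (L (X 2147483648 (A 1 (X c 1))) N)))) N) e) N) (L (X (L (X 171 a) N) (A (A (L (R D 864) 4294967295) (X c (L (R D 21088) 4294967295))) (S M (L (X 2147483648 (A 1 (X c 1))) N)))) N)) 1) N))) N)) N)) N) N))) (S M (L (L (X (L (X (L (X 34359738368 (A (L (X (L (X (A (L (R D 14464) 4294967295) (X c (L (R D 34688) 4294967295))) (L (X (L (X 86 b) N) (A (L (X (L (X 1048576 (A (L (R D 32) 4294967295) (X c (L (R D 20256) 4294967295)))) N) (P f 2)) N) (L (X (L (X 86 b) N) (A (L (X (L (X 1024 (A (L (R D 64) 4294967295) (X c (L (R D 20288) 4294967295)))) N) f) N) (L (X (L (X 86 b) N) (A (L (R D 96) 4294967295) (X c (L (R D 20320) 4294967295)))) N))) N))) N)) N) (A 0 (S M (L (L (X 12 1) N) N)))) N) (A (L (X (L (X (A (L (R D 14528)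 4294967295) (X c (L (R D 34752) 4294967295))) (L (X (L (X 86 b) N) (A (L (X (L (X 1048576 (A (L (R D 32) 4294967295) (X c (L (R D 20256) 4294967295)))) N) (P f 2)) N) (L (X (L (X 86 b) N) (A (L (X (L (X 1024 (A (L (R D 64) 4294967295) (X c (L (R D 20288) 4294967295)))) N) f) N) (L (X (L (X 86 b) N) (A (L (R D 96) 4294967295) (X c (L (R D 20320) 4294967295)))) N))) N))) N)) N) 1) N) (A (L (X (L (X (A (L (R D 14592) 4294967295) (X c (L (R D 34816) 4294967295))) (L (X (L (X 86 b) N) (A (L (X (L (X 1048576 (A (L (R D 32) 4294967295) (X c (L (R D 20256) 4294967295)))) N) (P f 2)) N) (L (X (L (X 86 b) N) (A (L (X (L (X 1024 (A (L (R D 64) 4294967295) (X c (L (R D 20288) 4294967295)))) N) f) N) (L (X (L (X 86 b) N) (A (L (R D 96) 4294967295) (X c (L (R D 20320) 4294967295)))) N))) N))) N)) N) (A 0 (S M (L (L (X 12 1) N) N)))) N) (A (L (X (L (X (A (L (R D 14624) 4294967295) (X c (L (R D 34848)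 4294967295))) (L (X (L (X 86 b) N) (A (L (X (L (X 1048576 (A (L (R D 32) 4294967295) (X c (L (R D 20256) 4294967295)))) N) (P f 2)) N) (L (X (L (X 86 b) N) (A (L (X (L (X 1024 (A (L (R D 64) 4294967295) (X c (L (R D 20288) 4294967295)))) N) f) N) (L (X (L (X 86 b) N) (A (L (R D 96) 4294967295) (X c (L (R D 20320) 4294967295)))) N))) N))) N)) N) (A 0 (S M (L (L (X 12 1) N) N)))) N) (A (L (X (L (X (A (L (R D 14688) 4294967295) (X c (L (R D 34912) 4294967295))) (L (X (L (X 86 b) N) (A (L (X (L (X 1048576 (A (L (R D 32) 4294967295) (X c (L (R D 20256) 4294967295)))) N) (P f 2)) N) (L (X (L (X 86 b) N) (A (L (X (L (X 1024 (A (L (R D 64) 4294967295) (X c (L (R D 20288) 4294967295)))) N) f) N) (L (X (L (X 86 b) N) (A (L (R D 96) 4294967295) (X c (L (R D 20320) 4294967295)))) N))) N))) N)) N) 1) N) (L (X (L (X (A (L (R D 14752) 4294967295) (X c (L (R D 34976) 4294967295))) (L (X (L (X 86 b)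 N) (A (L (X (L (X 1048576 (A (L (R D 32) 4294967295) (X c (L (R D 20256) 4294967295)))) N) (P f 2)) N) (L (X (L (X 86 b) N) (A (L (X (L (X 1024 (A (L (R D 64) 4294967295) (X c (L (R D 20288) 4294967295)))) N) f) N) (L (X (L (X 86 b) N) (A (L (R D 96) 4294967295) (X c (L (R D 20320) 4294967295)))) N))) N))) N)) N) (A 0 (S M (L (L (X 12 1) N) N)))) N))))))) N) (P e 3)) N) g) N) N))), 142, 4, 4, 4, 1⟩,
  ⟨fun A S X L P R M N m a b c d e f g h D => (A (A (L (X (L (X (L (X 0 (P e 2)) N) (P f 3)) N) (P g 3)) N) (S M (L (L (X (L (X (L (X 86 b) N) (A (L (X (L (X 1048576 (A (L (R D 32) 4294967295) (X c (L (R D 20256) 4294967295)))) N) (P f 2)) N) (L (X (L (X 86 b) N) (A (L (X (L (X 1024 (A (L (R D 64) 4294967295) (X c (L (R D 20288) 4294967295)))) N) f) N) (L (X (L (X 86 b) N) (A (L (R D 96) 4294967295) (X c (L (R D 20320) 4294967295)))) N))) N))) N) (L (X (A (L (X 1 (A (L (R D 128) 4294967295)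 (X a (A (L (R D 160) 4294967295) (X a (L (R D 192) 4294967295)))))) N) (L (X c (A (L (R D 20352) 4294967295) (X a (A (L (R D 20384) 4294967295) (X a (L (R D 20416) 4294967295)))))) N)) (L (X 1 (A (L (X (A (A (L (R D 800) 4294967295) (X c (L (R D 21024) 4294967295))) (S M (L (X 2147483648 (A 1 (X c 1))) N))) 1) N) (L (X (A (A (L (R D 800) 4294967295) (X c (L (R D 21024) 4294967295))) (S M (L (X 2147483648 (A 1 (X c 1))) N))) 1) N))) N)) N)) N) N))) (S M (L (L (X (L (X (L (X 33554432 (A (L (X (L (X (A (L (R D 14496) 4294967295) (X c (L (R D 34720) 4294967295))) (L (X (L (X 86 b) N) (A (L (X (L (X 1048576 (A (L (R D 32) 4294967295) (X c (L (R D 20256) 4294967295)))) N) (P f 2)) N) (L (X (L (X 86 b) N) (A (L (X (L (X 1024 (A (L (R D 64) 4294967295) (X c (L (R D 20288) 4294967295)))) N) f) N) (L (X (L (X 86 b) N) (A (L (R D 96) 4294967295) (X c (L (R D 20320) 4294967295)))) N))) N))) N))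 N) (A 0 (S M (L (L (X 12 1) N) N)))) N) (A (L (X (L (X (A (L (R D 14560) 4294967295) (X c (L (R D 34784) 4294967295))) (L (X (L (X 86 b) N) (A (L (X (L (X 1048576 (A (L (R D 32) 4294967295) (X c (L (R D 20256) 4294967295)))) N) (P f 2)) N) (L (X (L (X 86 b) N) (A (L (X (L (X 1024 (A (L (R D 64) 4294967295) (X c (L (R D 20288) 4294967295)))) N) f) N) (L (X (L (X 86 b) N) (A (L (R D 96) 4294967295) (X c (L (R D 20320) 4294967295)))) N))) N))) N)) N) (L (X 2 1) N)) N) (A (L (X (L (X (A (L (R D 14592) 4294967295) (X c (L (R D 34816) 4294967295))) (L (X (L (X 86 b) N) (A (L (X (L (X 1048576 (A (L (R D 32) 4294967295) (X c (L (R D 20256) 4294967295)))) N) (P f 2)) N) (L (X (L (X 86 b) N) (A (L (X (L (X 1024 (A (L (R D 64) 4294967295) (X c (L (R D 20288) 4294967295)))) N) f) N) (L (X (L (X 86 b) N) (A (L (R D 96) 4294967295) (X c (L (R D 20320) 4294967295)))) N))) N))) N)) N) (A 0 (S M (L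 (L (X 24 1) N) N)))) N) (A (L (X (L (X (A (L (R D 14656) 4294967295) (X c (L (R D 34880) 4294967295))) (L (X (L (X 86 b) N) (A (L (X (L (X 1048576 (A (L (R D 32) 4294967295) (X c (L (R D 20256) 4294967295)))) N) (P f 2)) N) (L (X (L (X 86 b) N) (A (L (X (L (X 1024 (A (L (R D 64) 4294967295) (X c (L (R D 20288) 4294967295)))) N) f) N) (L (X (L (X 86 b) N) (A (L (R D 96) 4294967295) (X c (L (R D 20320) 4294967295)))) N))) N))) N)) N) (A 0 (S M (L (L (X 12 1) N) N)))) N) (A (L (X (L (X (A (L (R D 14720) 4294967295) (X c (L (R D 34944) 4294967295))) (L (X (L (X 86 b) N) (A (L (X (L (X 1048576 (A (L (R D 32) 4294967295) (X c (L (R D 20256) 4294967295)))) N) (P f 2)) N) (L (X (L (X 86 b) N) (A (L (X (L (X 1024 (A (L (R D 64) 4294967295) (X c (L (R D 20288) 4294967295)))) N) f) N) (L (X (L (X 86 b) N) (A (L (R D 96) 4294967295) (X c (L (R D 20320) 4294967295)))) N))) N))) N)) N) (L (X 2 1)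 N)) N) (L (X (L (X (A (L (R D 14752) 4294967295) (X c (L (R D 34976) 4294967295))) (L (X (L (X 86 b) N) (A (L (X (L (X 1048576 (A (L (R D 32) 4294967295) (X c (L (R D 20256) 4294967295)))) N) (P f 2)) N) (L (X (L (X 86 b) N) (A (L (X (L (X 1024 (A (L (R D 64) 4294967295) (X c (L (R D 20288) 4294967295)))) N) f) N) (L (X (L (X 86 b) N) (A (L (R D 96) 4294967295) (X c (L (R D 20320) 4294967295)))) N))) N))) N)) N) (A 0 (S M (L (L (X 24 1) N) N)))) N))))))) N) (P e 2)) N) g) N) N))), 131, 3, 4, 4, 1⟩,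
  ⟨fun A S X L P R M N m a b c d e f g h D => (A (A (L (X (L (X (L (X 0 (P e 2)) N) (P f 3)) N) (P g 3)) N) (S M (L (L (X (L (X (L (X 86 b) N) (A (L (X (L (X 1048576 (A (L (R D 32) 4294967295) (X c (L (R D 20256) 4294967295)))) N) (P f 2)) N) (L (X (L (X 86 b) N) (A (L (X (L (X 1024 (A (L (R D 64) 4294967295) (X c (L (R D 20288) 4294967295)))) N) f) N) (L (X (L (X 86 b) N) (A (L (R D 96) 4294967295) (X c (L (R D 20320) 4294967295)))) N))) N))) N) (L (X (A (L (X 1 (A (L (R D 128) 4294967295) (X a (A (L (R D 160) 4294967295) (X a (L (R D 192) 4294967295)))))) N) (L (X c (A (L (R D 20352) 4294967295) (X a (A (L (R D 20384) 4294967295) (X a (L (R D 20416) 4294967295)))))) N)) (L (X 1 (A (L (X (A (A (L (R D 832) 4294967295) (X c (L (R D 21056) 4294967295))) (S M (L (X 2147483648 (A 1 (X c 1))) N))) 1) N) (L (X (A (A (L (R D 832) 4294967295) (X c (L (R D 21056) 4294967295))) (S M (L (X 2147483648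 (A 1 (X c 1))) N))) 1) N))) N)) N)) N) N))) (S M (L (L (X (L (X (L (X 33554432 (A (L (X (L (X (A (L (R D 14528) 4294967295) (X c (L (R D 34752) 4294967295))) (L (X (L (X 86 b) N) (A (L (X (L (X 1048576 (A (L (R D 32) 4294967295) (X c (L (R D 20256) 4294967295)))) N) (P f 2)) N) (L (X (L (X 86 b) N) (A (L (X (L (X 1024 (A (L (R D 64) 4294967295) (X c (L (R D 20288) 4294967295)))) N) f) N) (L (X (L (X 86 b) N) (A (L (R D 96) 4294967295) (X c (L (R D 20320) 4294967295)))) N))) N))) N)) N) (A 0 (S M (L (L (X 12 1) N) N)))) N) (A (L (X (L (X (A (L (R D 14560) 4294967295) (X c (L (R D 34784) 4294967295))) (L (X (L (X 86 b) N) (A (L (X (L (X 1048576 (A (L (R D 32) 4294967295) (X c (L (R D 20256) 4294967295)))) N) (P f 2)) N) (L (X (L (X 86 b) N) (A (L (X (L (X 1024 (A (L (R D 64) 4294967295) (X c (L (R D 20288) 4294967295)))) N) f) N) (L (X (L (X 86 b) N) (A (L (R D 96) 4294967295) (X c (L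 (R D 20320) 4294967295)))) N))) N))) N)) N) (A 0 (S M (L (L (X 12 1) N) N)))) N) (A (L (X (L (X (A (L (R D 14592) 4294967295) (X c (L (R D 34816) 4294967295))) (L (X (L (X 86 b) N) (A (L (X (L (X 1048576 (A (L (R D 32) 4294967295) (X c (L (R D 20256) 4294967295)))) N) (P f 2)) N) (L (X (L (X 86 b) N) (A (L (X (L (X 1024 (A (L (R D 64) 4294967295) (X c (L (R D 20288) 4294967295)))) N) f) N) (L (X (L (X 86 b) N) (A (L (R D 96) 4294967295) (X c (L (R D 20320) 4294967295)))) N))) N))) N)) N) (L (X 144 1) N)) N) (A (L (X (L (X (A (L (R D 14688) 4294967295) (X c (L (R D 34912) 4294967295))) (L (X (L (X 86 b) N) (A (L (X (L (X 1048576 (A (L (R D 32) 4294967295) (X c (L (R D 20256) 4294967295)))) N) (P f 2)) N) (L (X (L (X 86 b) N) (A (L (X (L (X 1024 (A (L (R D 64) 4294967295) (X c (L (R D 20288) 4294967295)))) N) f) N) (L (X (L (X 86 b) N) (A (L (R D 96) 4294967295) (X c (L (R D 20320) 4294967295))))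 N))) N))) N)) N) (A 0 (S M (L (L (X 12 1) N) N)))) N) (A (L (X (L (X (A (L (R D 14720) 4294967295) (X c (L (R D 34944) 4294967295))) (L (X (L (X 86 b) N) (A (L (X (L (X 1048576 (A (L (R D 32) 4294967295) (X c (L (R D 20256) 4294967295)))) N) (P f 2)) N) (L (X (L (X 86 b) N) (A (L (X (L (X 1024 (A (L (R D 64) 4294967295) (X c (L (R D 20288) 4294967295)))) N) f) N) (L (X (L (X 86 b) N) (A (L (R D 96) 4294967295) (X c (L (R D 20320) 4294967295)))) N))) N))) N)) N) (A 0 (S M (L (L (X 12 1) N) N)))) N) (L (X (L (X (A (L (R D 14752) 4294967295) (X c (L (R D 34976) 4294967295))) (L (X (L (X 86 b) N) (A (L (X (L (X 1048576 (A (L (R D 32) 4294967295) (X c (L (R D 20256) 4294967295)))) N) (P f 2)) N) (L (X (L (X 86 b) N) (A (L (X (L (X 1024 (A (L (R D 64) 4294967295) (X c (L (R D 20288) 4294967295)))) N) f) N) (L (X (L (X 86 b) N) (A (L (R D 96) 4294967295) (X c (L (R D 20320) 4294967295))))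 N))) N))) N)) N) (L (X 144 1) N)) N))))))) N) (P e 2)) N) g) N) N))), 132, 3, 4, 4, 1⟩,
  ⟨fun A S X L P R M N m a b c d e f g h D => (A (A (L (X (L (X (L (X 0 (P e 3)) N) (P f 5)) N) (P g 3)) N) (S M (L (L (X (L (X (L (X 86 b) N) (A (L (X (L (X 1048576 (A (L (R D 32) 4294967295) (X c (L (R D 20256) 4294967295)))) N) (P f 2)) N) (L (X (L (X 86 b) N) (A (L (X (L (X 1024 (A (L (R D 64) 4294967295) (X c (L (R D 20288) 4294967295)))) N) f) N) (L (X (L (X 86 b) N) (A (L (R D 96) 4294967295) (X c (L (R D 20320) 4294967295)))) N))) N))) N) (L (X (A (L (X 1 (A (L (R D 128) 4294967295) (X a (A (L (R D 160) 4294967295) (X a (L (R D 192) 4294967295)))))) N) (L (X c (A (L (R D 20352) 4294967295) (X a (A (L (R D 20384) 4294967295) (X a (L (R D 20416) 4294967295)))))) N)) (L (X 1 (A (L (X (L (X (A (L (X (L (X 1024 (A (A (L (R D 768) 4294967295) (X c (L (R D 20992) 4294967295))) (S M (L (X 2147483648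 (A 1 (X c 1))) N)))) N) e) N) (L (X (L (X 171 a) N) (A (A (L (R D 864) 4294967295) (X c (L (R D 21088) 4294967295))) (S M (L (X 2147483648 (A 1 (X c 1))) N)))) N)) (L (X 86 b) N)) N) f) N) (L (X (L (X (A (A (L (R D 832) 4294967295) (X c (L (R D 21056) 4294967295))) (S M (L (X 2147483648 (A 1 (X c 1))) N))) (L (X (L (X 86 b) N) (L (X 86 b) N)) N)) N) e) N))) N)) N)) N) N))) (S M (L (L (X (L (X (L (X 33554432 (A (L (X (L (X 1024 (L (X (L (X (A (L (R D 14624) 4294967295) (X c (L (R D 34848) 4294967295))) (L (X (L (X 86 b) N) (A (L (X (L (X 1048576 (A (L (R D 32) 4294967295) (X c (L (R D 20256) 4294967295)))) N) (P f 2)) N) (L (X (L (X 86 b) N) (A (L (X (L (X 1024 (A (L (R D 64) 4294967295) (X c (L (R D 20288) 4294967295)))) N) f) N) (L (X (L (X 86 b) N) (A (L (R D 96) 4294967295) (X c (L (R D 20320) 4294967295)))) N))) N))) N)) N) (A (L (X 0 f) N) (S M (L (L (X 12 (L (X 86 b) N)) N) N))))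 N)) N) f) N) (A (L (X (L (X (A (L (R D 14688) 4294967295) (X c (L (R D 34912) 4294967295))) (L (X (L (X 86 b) N) (A (L (X (L (X 1048576 (A (L (R D 32) 4294967295) (X c (L (R D 20256) 4294967295)))) N) (P f 2)) N) (L (X (L (X 86 b) N) (A (L (X (L (X 1024 (A (L (R D 64) 4294967295) (X c (L (R D 20288) 4294967295)))) N) f) N) (L (X (L (X 86 b) N) (A (L (R D 96) 4294967295) (X c (L (R D 20320) 4294967295)))) N))) N))) N)) N) (A (L (X (L (X 1024 (L (X 86 b) N)) N) f) N) (S M (L (L (X 12 (L (X (L (X 86 b) N) (L (X 86 b) N)) N)) N) N)))) N) (A (L (X (L (X (A (L (R D 14720) 4294967295) (X c (L (R D 34944) 4294967295))) (L (X (L (X 86 b) N) (A (L (X (L (X 1048576 (A (L (R D 32) 4294967295) (X c (L (R D 20256) 4294967295)))) N) (P f 2)) N) (L (X (L (X 86 b) N) (A (L (X (L (X 1024 (A (L (R D 64) 4294967295) (X c (L (R D 20288) 4294967295)))) N) f) N) (L (X (L (X 86 b) N) (A (L (R D 96) 4294967295)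 (X c (L (R D 20320) 4294967295)))) N))) N))) N)) N) (A (L (X 0 (P f 2)) N) (S M (L (L (X 12 (L (X (L (X 86 b) N) (L (X 86 b) N)) N)) N) N)))) N) (A (L (X (L (X (A (L (R D 14752) 4294967295) (X c (L (R D 34976) 4294967295))) (L (X (L (X 86 b) N) (A (L (X (L (X 1048576 (A (L (R D 32) 4294967295) (X c (L (R D 20256) 4294967295)))) N) (P f 2)) N) (L (X (L (X 86 b) N) (A (L (X (L (X 1024 (A (L (R D 64) 4294967295) (X c (L (R D 20288) 4294967295)))) N) f) N) (L (X (L (X 86 b) N) (A (L (R D 96) 4294967295) (X c (L (R D 20320) 4294967295)))) N))) N))) N)) N) (A (L (X 144 (L (X (L (X 86 b) N) (L (X 86 b) N)) N)) N) (S M (L (L (X (L (X 1024 (L (X 12 (L (X 86 b) N)) N)) N) f) N) N)))) N) (L (X (L (X 1048576 (L (X (L (X (A (L (R D 14784) 4294967295) (X c (L (R D 35008) 4294967295))) (L (X (L (X 86 b) N) (A (L (X (L (X 1048576 (A (L (R D 32) 4294967295) (X c (L (R D 20256) 4294967295)))) N) (P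 f 2)) N) (L (X (L (X 86 b) N) (A (L (X (L (X 1024 (A (L (R D 64) 4294967295) (X c (L (R D 20288) 4294967295)))) N) f) N) (L (X (L (X 86 b) N) (A (L (R D 96) 4294967295) (X c (L (R D 20320) 4294967295)))) N))) N))) N)) N) (A 0 (S M (L (L (X 12 1) N) N)))) N)) N) (P f 2)) N)))))) N) (P e 3)) N) g) N) N))), 150, 4, 6, 4, 1⟩,
  ⟨fun A S X L P R M N m a b c d e f g h D => (A (A (L (X (L (X (L (X (L (X 590295810358705651712 (L (X (L (X 86 b) N) (A (L (X 1024 (A (L (X (A (L (X (L (X 1024 (A (A (L (R D 10208) 4294967295) (X c (L (R D 30432) 4294967295))) (S M (L (X 2147483648 (A 1 (X c 1))) N)))) N) e) N) (L (X (A (A (L (R D 10240) 4294967295) (X c (L (R D 30464) 4294967295))) (S M (L (X 2147483648 (A 1 (X c 1))) N))) (L (X 171 a) N)) N)) f) N) (L (X (L (X (A (A (L (R D 10272) 4294967295) (X c (L (R D 30496) 4294967295))) (S M (L (X 2147483648 (A 1 (X c 1))) N))) (L (X 86 b) N)) N) e) N)))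 N) (L (X (A (A (L (R D 10304) 4294967295) (X c (L (R D 30528) 4294967295))) (S M (L (X 2147483648 (A 1 (X c 1))) N))) (L (X (L (X 86 b) N) (L (X 171 a) N)) N)) N))) N)) N) (P e 3)) N) (P f 3)) N) (P g 2)) N) (S M (L (L (X (L (X (L (X 86 b) N) (A (L (X (L (X 1048576 (A (L (R D 32) 4294967295) (X c (L (R D 20256) 4294967295)))) N) (P f 2)) N) (L (X (L (X 86 b) N) (A (L (X (L (X 1024 (A (L (R D 64) 4294967295) (X c (L (R D 20288) 4294967295)))) N) f) N) (L (X (L (X 86 b) N) (A (L (R D 96) 4294967295) (X c (L (R D 20320) 4294967295)))) N))) N))) N) (L (X (A (L (X 1 (A (L (R D 128) 4294967295) (X a (A (L (R D 160) 4294967295) (X a (L (R D 192) 4294967295)))))) N) (L (X c (A (L (R D 20352) 4294967295) (X a (A (L (R D 20384) 4294967295) (X a (L (R D 20416) 4294967295)))))) N)) (L (X 1 (A (L (X (A (L (X (L (X 1024 (L (X (A (A (L (R D 896) 4294967295) (X c (L (R D 21120) 4294967295))) (S M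 (L (X 2147483648 (A 1 (X c 1))) N))) (A (L (X (L (X 767 e) N) f) N) (A (L (X (L (X 171 1) N) f) N) (L (X (L (X 86 1) N) e) N)))) N)) N) e) N) (L (X (A (A (L (R D 928) 4294967295) (X c (L (R D 21152) 4294967295))) (S M (L (X 2147483648 (A 1 (X c 1))) N))) (L (X (L (X 171 a) N) (A (L (X (L (X 767 e) N) f) N) (A (L (X (L (X 171 1) N) f) N) (L (X (L (X 86 1) N) e) N)))) N)) N)) f) N) (A (L (X (A (L (X (L (X 1024 (L (X (A (A (L (R D 896) 4294967295) (X c (L (R D 21120) 4294967295))) (S M (L (X 2147483648 (A 1 (X c 1))) N))) (A (L (X 853 e) N) (L (X 171 1) N))) N)) N) e) N) (L (X (A (A (L (R D 928) 4294967295) (X c (L (R D 21152) 4294967295))) (S M (L (X 2147483648 (A 1 (X c 1))) N))) (L (X (L (X 171 a) N) (A (L (X 853 e) N) (L (X 171 1) N))) N)) N)) (P f 2)) N) (L (X (L (X (A (A (L (R D 992) 4294967295) (X c (L (R D 21216) 4294967295))) (S M (L (X 2147483648 (A 1 (X c 1))) N))) (L (X (L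 (X 86 b) N) (L (X 86 b) N)) N)) N) (P e 2)) N)))) N)) N)) N) N))) (S M (L (L (X (L (X (L (X 33554432 (A (L (X (L (X 1024 (L (X (L (X (A (L (R D 15168) 4294967295) (X c (L (R D 35392) 4294967295))) (L (X (L (X 86 b) N) (A (L (X (L (X 1048576 (A (L (R D 32) 4294967295) (X c (L (R D 20256) 4294967295)))) N) (P f 2)) N) (L (X (L (X 86 b) N) (A (L (X (L (X 1024 (A (L (R D 64) 4294967295) (X c (L (R D 20288) 4294967295)))) N) f) N) (L (X (L (X 86 b) N) (A (L (R D 96) 4294967295) (X c (L (R D 20320) 4294967295)))) N))) N))) N)) N) (L (X 2 (A (L (X (L (X 767 e) N) f) N) (A (L (X (L (X 171 1) N) f) N) (L (X (L (X 86 1) N) e) N)))) N)) N)) N) f) N) (A (L (X (L (X 1024 (L (X (L (X (A (L (R D 15200) 4294967295) (X c (L (R D 35424) 4294967295))) (L (X (L (X 86 b) N) (A (L (X (L (X 1048576 (A (L (R D 32) 4294967295) (X c (L (R D 20256) 4294967295)))) N) (P f 2)) N) (L (X (L (X 86 b) N) (A (L (X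 (L (X 1024 (A (L (R D 64) 4294967295) (X c (L (R D 20288) 4294967295)))) N) f) N) (L (X (L (X 86 b) N) (A (L (R D 96) 4294967295) (X c (L (R D 20320) 4294967295)))) N))) N))) N)) N) (A (L (X (L (X 767 e) N) f) N) (A (L (X (L (X 171 1) N) f) N) (L (X (L (X 86 1) N) e) N)))) N)) N) f) N) (A (L (X (L (X 1024 (L (X (L (X (A (L (R D 15296) 4294967295) (X c (L (R D 35520) 4294967295))) (L (X (L (X 86 b) N) (A (L (X (L (X 1048576 (A (L (R D 32) 4294967295) (X c (L (R D 20256) 4294967295)))) N) (P f 2)) N) (L (X (L (X 86 b) N) (A (L (X (L (X 1024 (A (L (R D 64) 4294967295) (X c (L (R D 20288) 4294967295)))) N) f) N) (L (X (L (X 86 b) N) (A (L (R D 96) 4294967295) (X c (L (R D 20320) 4294967295)))) N))) N))) N)) N) (L (X 2 (A (L (X (L (X 767 e) N) f) N) (A (L (X (L (X 171 1) N) f) N) (L (X (L (X 86 1) N) e) N)))) N)) N)) N) f) N) (A (L (X (L (X 1024 (L (X (L (X (A (L (R D 15328) 4294967295)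 (X c (L (R D 35552) 4294967295))) (L (X (L (X 86 b) N) (A (L (X (L (X 1048576 (A (L (R D 32) 4294967295) (X c (L (R D 20256) 4294967295)))) N) (P f 2)) N) (L (X (L (X 86 b) N) (A (L (X (L (X 1024 (A (L (R D 64) 4294967295) (X c (L (R D 20288) 4294967295)))) N) f) N) (L (X (L (X 86 b) N) (A (L (R D 96) 4294967295) (X c (L (R D 20320) 4294967295)))) N))) N))) N)) N) (L (X 2 (A (L (X 853 e) N) (L (X 171 1) N))) N)) N)) N) (P f 2)) N) (A (L (X (L (X (A (L (R D 15360) 4294967295) (X c (L (R D 35584) 4294967295))) (L (X (L (X 86 b) N) (A (L (X (L (X 1048576 (A (L (R D 32) 4294967295) (X c (L (R D 20256) 4294967295)))) N) (P f 2)) N) (L (X (L (X 86 b) N) (A (L (X (L (X 1024 (A (L (R D 64) 4294967295) (X c (L (R D 20288) 4294967295)))) N) f) N) (L (X (L (X 86 b) N) (A (L (R D 96) 4294967295) (X c (L (R D 20320) 4294967295)))) N))) N))) N)) N) (A (L (X (L (X 1024 (A (L (X 853 e) N) (L (X 171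 1) N))) N) (P f 2)) N) (S M (L (L (X (L (X 12 (L (X (L (X 86 b) N) (L (X 86 b) N)) N)) N) e) N) N)))) N) (A (L (X (L (X (L (X (A (L (R D 15424) 4294967295) (X c (L (R D 35648) 4294967295))) (L (X (L (X 86 b) N) (A (L (X (L (X 1048576 (A (L (R D 32) 4294967295) (X c (L (R D 20256) 4294967295)))) N) (P f 2)) N) (L (X (L (X 86 b) N) (A (L (X (L (X 1024 (A (L (R D 64) 4294967295) (X c (L (R D 20288) 4294967295)))) N) f) N) (L (X (L (X 86 b) N) (A (L (R D 96) 4294967295) (X c (L (R D 20320) 4294967295)))) N))) N))) N)) N) (L (X 2 (L (X (L (X 86 b) N) (L (X 86 b) N)) N)) N)) N) e) N) (A (L (X (L (X (A (L (R D 15456) 4294967295) (X c (L (R D 35680) 4294967295))) (L (X (L (X 86 b) N) (A (L (X (L (X 1048576 (A (L (R D 32) 4294967295) (X c (L (R D 20256) 4294967295)))) N) (P f 2)) N) (L (X (L (X 86 b) N) (A (L (X (L (X 1024 (A (L (R D 64) 4294967295) (X c (L (R D 20288) 4294967295)))) N) f)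 N) (L (X (L (X 86 b) N) (A (L (R D 96) 4294967295) (X c (L (R D 20320) 4294967295)))) N))) N))) N)) N) (A (L (X (L (X 1024 (L (X 2 (A (L (X 853 e) N) (L (X 171 1) N))) N)) N) (P f 2)) N) (S M (L (L (X (L (X 24 (L (X (L (X 86 b) N) (L (X 86 b) N)) N)) N) e) N) N)))) N) (L (X (L (X (L (X 1048576 (L (X (L (X (A (L (R D 15488) 4294967295) (X c (L (R D 35712) 4294967295))) (L (X (L (X 86 b) N) (A (L (X (L (X 1048576 (A (L (R D 32) 4294967295) (X c (L (R D 20256) 4294967295)))) N) (P f 2)) N) (L (X (L (X 86 b) N) (A (L (X (L (X 1024 (A (L (R D 64) 4294967295) (X c (L (R D 20288) 4294967295)))) N) f) N) (L (X (L (X 86 b) N) (A (L (R D 96) 4294967295) (X c (L (R D 20320) 4294967295)))) N))) N))) N)) N) 2) N)) N) e) N) (P f 2)) N))))))))) N) (P e 3)) N) g) N) N))), 155, 5, 6, 4, 1⟩,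
  ⟨fun A S X L P R M N m a b c d e f g h D => (A (A (L (X (L (X (L (X 0 (P e 3)) N) (P f 3)) N) (P g 3)) N) (S M (L (L (X (L (X (L (X 86 b) N) (A (L (X (L (X 1048576 (A (L (R D 32) 4294967295) (X c (L (R D 20256) 4294967295)))) N) (P f 2)) N) (L (X (L (X 86 b) N) (A (L (X (L (X 1024 (A (L (R D 64) 4294967295) (X c (L (R D 20288) 4294967295)))) N) f) N) (L (X (L (X 86 b) N) (A (L (R D 96) 4294967295) (X c (L (R D 20320) 4294967295)))) N))) N))) N) (L (X (A (L (X 1 (A (L (R D 128) 4294967295) (X a (A (L (R D 160) 4294967295) (X a (L (R D 192) 4294967295)))))) N) (L (X c (A (L (R D 20352) 4294967295) (X a (A (L (R D 20384) 4294967295) (X a (L (R D 20416) 4294967295)))))) N)) (L (X 1 (A (L (X (A (L (X (L (X 1024 (A (A (L (R D 960) 4294967295) (X c (L (R D 21184) 4294967295))) (S M (L (X 2147483648 (A 1 (X c 1))) N)))) N) e) N) (L (X (L (X 171 a) N) (A (A (L (R D 1056) 4294967295) (X c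 (L (R D 21280) 4294967295))) (S M (L (X 2147483648 (A 1 (X c 1))) N)))) N)) 1) N) (L (X (A (L (X (L (X 1024 (A (A (L (R D 960) 4294967295) (X c (L (R D 21184) 4294967295))) (S M (L (X 2147483648 (A 1 (X c 1))) N)))) N) e) N) (L (X (L (X 171 a) N) (A (A (L (R D 1056) 4294967295) (X c (L (R D 21280) 4294967295))) (S M (L (X 2147483648 (A 1 (X c 1))) N)))) N)) 1) N))) N)) N)) N) N))) (S M (L (L (X (L (X (L (X 34359738368 (A (L (X (L (X (A (L (R D 15168) 4294967295) (X c (L (R D 35392) 4294967295))) (L (X (L (X 86 b) N) (A (L (X (L (X 1048576 (A (L (R D 32) 4294967295) (X c (L (R D 20256) 4294967295)))) N) (P f 2)) N) (L (X (L (X 86 b) N) (A (L (X (L (X 1024 (A (L (R D 64) 4294967295) (X c (L (R D 20288) 4294967295)))) N) f) N) (L (X (L (X 86 b) N) (A (L (R D 96) 4294967295) (X c (L (R D 20320) 4294967295)))) N))) N))) N)) N) (A 0 (S M (L (L (X 12 1) N) N)))) N) (A (L (X (L (X (A (L (R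 D 15232) 4294967295) (X c (L (R D 35456) 4294967295))) (L (X (L (X 86 b) N) (A (L (X (L (X 1048576 (A (L (R D 32) 4294967295) (X c (L (R D 20256) 4294967295)))) N) (P f 2)) N) (L (X (L (X 86 b) N) (A (L (X (L (X 1024 (A (L (R D 64) 4294967295) (X c (L (R D 20288) 4294967295)))) N) f) N) (L (X (L (X 86 b) N) (A (L (R D 96) 4294967295) (X c (L (R D 20320) 4294967295)))) N))) N))) N)) N) 1) N) (A (L (X (L (X (A (L (R D 15296) 4294967295) (X c (L (R D 35520) 4294967295))) (L (X (L (X 86 b) N) (A (L (X (L (X 1048576 (A (L (R D 32) 4294967295) (X c (L (R D 20256) 4294967295)))) N) (P f 2)) N) (L (X (L (X 86 b) N) (A (L (X (L (X 1024 (A (L (R D 64) 4294967295) (X c (L (R D 20288) 4294967295)))) N) f) N) (L (X (L (X 86 b) N) (A (L (R D 96) 4294967295) (X c (L (R D 20320) 4294967295)))) N))) N))) N)) N) (A 0 (S M (L (L (X 12 1) N) N)))) N) (A (L (X (L (X (A (L (R D 15328) 4294967295) (X c (L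 (R D 35552) 4294967295))) (L (X (L (X 86 b) N) (A (L (X (L (X 1048576 (A (L (R D 32) 4294967295) (X c (L (R D 20256) 4294967295)))) N) (P f 2)) N) (L (X (L (X 86 b) N) (A (L (X (L (X 1024 (A (L (R D 64) 4294967295) (X c (L (R D 20288) 4294967295)))) N) f) N) (L (X (L (X 86 b) N) (A (L (R D 96) 4294967295) (X c (L (R D 20320) 4294967295)))) N))) N))) N)) N) (A 0 (S M (L (L (X 12 1) N) N)))) N) (A (L (X (L (X (A (L (R D 15392) 4294967295) (X c (L (R D 35616) 4294967295))) (L (X (L (X 86 b) N) (A (L (X (L (X 1048576 (A (L (R D 32) 4294967295) (X c (L (R D 20256) 4294967295)))) N) (P f 2)) N) (L (X (L (X 86 b) N) (A (L (X (L (X 1024 (A (L (R D 64) 4294967295) (X c (L (R D 20288) 4294967295)))) N) f) N) (L (X (L (X 86 b) N) (A (L (R D 96) 4294967295) (X c (L (R D 20320) 4294967295)))) N))) N))) N)) N) 1) N) (L (X (L (X (A (L (R D 15456) 4294967295) (X c (L (R D 35680) 4294967295))) (L (X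 (L (X 86 b) N) (A (L (X (L (X 1048576 (A (L (R D 32) 4294967295) (X c (L (R D 20256) 4294967295)))) N) (P f 2)) N) (L (X (L (X 86 b) N) (A (L (X (L (X 1024 (A (L (R D 64) 4294967295) (X c (L (R D 20288) 4294967295)))) N) f) N) (L (X (L (X 86 b) N) (A (L (R D 96) 4294967295) (X c (L (R D 20320) 4294967295)))) N))) N))) N)) N) (A 0 (S M (L (L (X 12 1) N) N)))) N))))))) N) (P e 3)) N) g) N) N))), 142, 4, 4, 4, 1⟩,
  ⟨fun A S X L P R M N m a b c d e f g h D => (A (A (L (X (L (X (L (X 0 (P e 2)) N) (P f 3)) N) (P g 3)) N) (S M (L (L (X (L (X (L (X 86 b) N) (A (L (X (L (X 1048576 (A (L (R D 32) 4294967295) (X c (L (R D 20256) 4294967295)))) N) (P f 2)) N) (L (X (L (X 86 b) N) (A (L (X (L (X 1024 (A (L (R D 64) 4294967295) (X c (L (R D 20288) 4294967295)))) N) f) N) (L (X (L (X 86 b) N) (A (L (R D 96) 4294967295) (X c (L (R D 20320) 4294967295)))) N))) N))) N) (L (X (A (L (X 1 (A (L (R D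 128) 4294967295) (X a (A (L (R D 160) 4294967295) (X a (L (R D 192) 4294967295)))))) N) (L (X c (A (L (R D 20352) 4294967295) (X a (A (L (R D 20384) 4294967295) (X a (L (R D 20416) 4294967295)))))) N)) (L (X 1 (A (L (X (A (A (L (R D 992) 4294967295) (X c (L (R D 21216) 4294967295))) (S M (L (X 2147483648 (A 1 (X c 1))) N))) 1) N) (L (X (A (A (L (R D 992) 4294967295) (X c (L (R D 21216) 4294967295))) (S M (L (X 2147483648 (A 1 (X c 1))) N))) 1) N))) N)) N)) N) N))) (S M (L (L (X (L (X (L (X 33554432 (A (L (X (L (X (A (L (R D 15200) 4294967295) (X c (L (R D 35424) 4294967295))) (L (X (L (X 86 b) N) (A (L (X (L (X 1048576 (A (L (R D 32) 4294967295) (X c (L (R D 20256) 4294967295)))) N) (P f 2)) N) (L (X (L (X 86 b) N) (A (L (X (L (X 1024 (A (L (R D 64) 4294967295) (X c (L (R D 20288) 4294967295)))) N) f) N) (L (X (L (X 86 b) N) (A (L (R D 96) 4294967295) (X c (L (R D 20320) 4294967295))))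 N))) N))) N)) N) (A 0 (S M (L (L (X 12 1) N) N)))) N) (A (L (X (L (X (A (L (R D 15264) 4294967295) (X c (L (R D 35488) 4294967295))) (L (X (L (X 86 b) N) (A (L (X (L (X 1048576 (A (L (R D 32) 4294967295) (X c (L (R D 20256) 4294967295)))) N) (P f 2)) N) (L (X (L (X 86 b) N) (A (L (X (L (X 1024 (A (L (R D 64) 4294967295) (X c (L (R D 20288) 4294967295)))) N) f) N) (L (X (L (X 86 b) N) (A (L (R D 96) 4294967295) (X c (L (R D 20320) 4294967295)))) N))) N))) N)) N) (L (X 2 1) N)) N) (A (L (X (L (X (A (L (R D 15296) 4294967295) (X c (L (R D 35520) 4294967295))) (L (X (L (X 86 b) N) (A (L (X (L (X 1048576 (A (L (R D 32) 4294967295) (X c (L (R D 20256) 4294967295)))) N) (P f 2)) N) (L (X (L (X 86 b) N) (A (L (X (L (X 1024 (A (L (R D 64) 4294967295) (X c (L (R D 20288) 4294967295)))) N) f) N) (L (X (L (X 86 b) N) (A (L (R D 96) 4294967295) (X c (L (R D 20320) 4294967295)))) N))) N))) N)) N)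 (A 0 (S M (L (L (X 24 1) N) N)))) N) (A (L (X (L (X (A (L (R D 15360) 4294967295) (X c (L (R D 35584) 4294967295))) (L (X (L (X 86 b) N) (A (L (X (L (X 1048576 (A (L (R D 32) 4294967295) (X c (L (R D 20256) 4294967295)))) N) (P f 2)) N) (L (X (L (X 86 b) N) (A (L (X (L (X 1024 (A (L (R D 64) 4294967295) (X c (L (R D 20288) 4294967295)))) N) f) N) (L (X (L (X 86 b) N) (A (L (R D 96) 4294967295) (X c (L (R D 20320) 4294967295)))) N))) N))) N)) N) (A 0 (S M (L (L (X 12 1) N) N)))) N) (A (L (X (L (X (A (L (R D 15424) 4294967295) (X c (L (R D 35648) 4294967295))) (L (X (L (X 86 b) N) (A (L (X (L (X 1048576 (A (L (R D 32) 4294967295) (X c (L (R D 20256) 4294967295)))) N) (P f 2)) N) (L (X (L (X 86 b) N) (A (L (X (L (X 1024 (A (L (R D 64) 4294967295) (X c (L (R D 20288) 4294967295)))) N) f) N) (L (X (L (X 86 b) N) (A (L (R D 96) 4294967295) (X c (L (R D 20320) 4294967295)))) N))) N))) N))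 N) (L (X 2 1) N)) N) (L (X (L (X (A (L (R D 15456) 4294967295) (X c (L (R D 35680) 4294967295))) (L (X (L (X 86 b) N) (A (L (X (L (X 1048576 (A (L (R D 32) 4294967295) (X c (L (R D 20256) 4294967295)))) N) (P f 2)) N) (L (X (L (X 86 b) N) (A (L (X (L (X 1024 (A (L (R D 64) 4294967295) (X c (L (R D 20288) 4294967295)))) N) f) N) (L (X (L (X 86 b) N) (A (L (R D 96) 4294967295) (X c (L (R D 20320) 4294967295)))) N))) N))) N)) N) (A 0 (S M (L (L (X 24 1) N) N)))) N))))))) N) (P e 2)) N) g) N) N))), 131, 3, 4, 4, 1⟩,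
  ⟨fun A S X L P R M N m a b c d e f g h D => (A (A (L (X (L (X (L (X 0 (P e 2)) N) (P f 3)) N) (P g 3)) N) (S M (L (L (X (L (X (L (X 86 b) N) (A (L (X (L (X 1048576 (A (L (R D 32) 4294967295) (X c (L (R D 20256) 4294967295)))) N) (P f 2)) N) (L (X (L (X 86 b) N) (A (L (X (L (X 1024 (A (L (R D 64) 4294967295) (X c (L (R D 20288) 4294967295)))) N) f) N) (L (X (L (X 86 b) N) (A (L (R D 96) 4294967295) (X c (L (R D 20320) 4294967295)))) N))) N))) N) (L (X (A (L (X 1 (A (L (R D 128) 4294967295) (X a (A (L (R D 160) 4294967295) (X a (L (R D 192) 4294967295)))))) N) (L (X c (A (L (R D 20352) 4294967295) (X a (A (L (R D 20384) 4294967295) (X a (L (R D 20416) 4294967295)))))) N)) (L (X 1 (A (L (X (A (A (L (R D 1024) 4294967295) (X c (L (R D 21248) 4294967295))) (S M (L (X 2147483648 (A 1 (X c 1))) N))) 1) N) (L (X (A (A (L (R D 1024) 4294967295) (X c (L (R D 21248) 4294967295))) (S M (L (X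 2147483648 (A 1 (X c 1))) N))) 1) N))) N)) N)) N) N))) (S M (L (L (X (L (X (L (X 33554432 (A (L (X (L (X (A (L (R D 15232) 4294967295) (X c (L (R D 35456) 4294967295))) (L (X (L (X 86 b) N) (A (L (X (L (X 1048576 (A (L (R D 32) 4294967295) (X c (L (R D 20256) 4294967295)))) N) (P f 2)) N) (L (X (L (X 86 b) N) (A (L (X (L (X 1024 (A (L (R D 64) 4294967295) (X c (L (R D 20288) 4294967295)))) N) f) N) (L (X (L (X 86 b) N) (A (L (R D 96) 4294967295) (X c (L (R D 20320) 4294967295)))) N))) N))) N)) N) (A 0 (S M (L (L (X 12 1) N) N)))) N) (A (L (X (L (X (A (L (R D 15264) 4294967295) (X c (L (R D 35488) 4294967295))) (L (X (L (X 86 b) N) (A (L (X (L (X 1048576 (A (L (R D 32) 4294967295) (X c (L (R D 20256) 4294967295)))) N) (P f 2)) N) (L (X (L (X 86 b) N) (A (L (X (L (X 1024 (A (L (R D 64) 4294967295) (X c (L (R D 20288) 4294967295)))) N) f) N) (L (X (L (X 86 b) N) (A (L (R D 96) 4294967295)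 (X c (L (R D 20320) 4294967295)))) N))) N))) N)) N) (A 0 (S M (L (L (X 12 1) N) N)))) N) (A (L (X (L (X (A (L (R D 15296) 4294967295) (X c (L (R D 35520) 4294967295))) (L (X (L (X 86 b) N) (A (L (X (L (X 1048576 (A (L (R D 32) 4294967295) (X c (L (R D 20256) 4294967295)))) N) (P f 2)) N) (L (X (L (X 86 b) N) (A (L (X (L (X 1024 (A (L (R D 64) 4294967295) (X c (L (R D 20288) 4294967295)))) N) f) N) (L (X (L (X 86 b) N) (A (L (R D 96) 4294967295) (X c (L (R D 20320) 4294967295)))) N))) N))) N)) N) (L (X 144 1) N)) N) (A (L (X (L (X (A (L (R D 15392) 4294967295) (X c (L (R D 35616) 4294967295))) (L (X (L (X 86 b) N) (A (L (X (L (X 1048576 (A (L (R D 32) 4294967295) (X c (L (R D 20256) 4294967295)))) N) (P f 2)) N) (L (X (L (X 86 b) N) (A (L (X (L (X 1024 (A (L (R D 64) 4294967295) (X c (L (R D 20288) 4294967295)))) N) f) N) (L (X (L (X 86 b) N) (A (L (R D 96) 4294967295) (X c (L (R D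 20320) 4294967295)))) N))) N))) N)) N) (A 0 (S M (L (L (X 12 1) N) N)))) N) (A (L (X (L (X (A (L (R D 15424) 4294967295) (X c (L (R D 35648) 4294967295))) (L (X (L (X 86 b) N) (A (L (X (L (X 1048576 (A (L (R D 32) 4294967295) (X c (L (R D 20256) 4294967295)))) N) (P f 2)) N) (L (X (L (X 86 b) N) (A (L (X (L (X 1024 (A (L (R D 64) 4294967295) (X c (L (R D 20288) 4294967295)))) N) f) N) (L (X (L (X 86 b) N) (A (L (R D 96) 4294967295) (X c (L (R D 20320) 4294967295)))) N))) N))) N)) N) (A 0 (S M (L (L (X 12 1) N) N)))) N) (L (X (L (X (A (L (R D 15456) 4294967295) (X c (L (R D 35680) 4294967295))) (L (X (L (X 86 b) N) (A (L (X (L (X 1048576 (A (L (R D 32) 4294967295) (X c (L (R D 20256) 4294967295)))) N) (P f 2)) N) (L (X (L (X 86 b) N) (A (L (X (L (X 1024 (A (L (R D 64) 4294967295) (X c (L (R D 20288) 4294967295)))) N) f) N) (L (X (L (X 86 b) N) (A (L (R D 96) 4294967295) (X c (L (R D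 20320) 4294967295)))) N))) N))) N)) N) (L (X 144 1) N)) N))))))) N) (P e 2)) N) g) N) N))), 132, 3, 4, 4, 1⟩,
  ⟨fun A S X L P R M N m a b c d e f g h D => (A (A (L (X (L (X (L (X 0 (P e 3)) N) (P f 5)) N) (P g 3)) N) (S M (L (L (X (L (X (L (X 86 b) N) (A (L (X (L (X 1048576 (A (L (R D 32) 4294967295) (X c (L (R D 20256) 4294967295)))) N) (P f 2)) N) (L (X (L (X 86 b) N) (A (L (X (L (X 1024 (A (L (R D 64) 4294967295) (X c (L (R D 20288) 4294967295)))) N) f) N) (L (X (L (X 86 b) N) (A (L (R D 96) 4294967295) (X c (L (R D 20320) 4294967295)))) N))) N))) N) (L (X (A (L (X 1 (A (L (R D 128) 4294967295) (X a (A (L (R D 160) 4294967295) (X a (L (R D 192) 4294967295)))))) N) (L (X c (A (L (R D 20352) 4294967295) (X a (A (L (R D 20384) 4294967295) (X a (L (R D 20416) 4294967295)))))) N)) (L (X 1 (A (L (X (L (X (A (L (X (L (X 1024 (A (A (L (R D 960) 4294967295) (X c (L (R D 21184) 4294967295)))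 (S M (L (X 2147483648 (A 1 (X c 1))) N)))) N) e) N) (L (X (L (X 171 a) N) (A (A (L (R D 1056) 4294967295) (X c (L (R D 21280) 4294967295))) (S M (L (X 2147483648 (A 1 (X c 1))) N)))) N)) (L (X 86 b) N)) N) f) N) (L (X (L (X (A (A (L (R D 1024) 4294967295) (X c (L (R D 21248) 4294967295))) (S M (L (X 2147483648 (A 1 (X c 1))) N))) (L (X (L (X 86 b) N) (L (X 86 b) N)) N)) N) e) N))) N)) N)) N) N))) (S M (L (L (X (L (X (L (X 33554432 (A (L (X (L (X 1024 (L (X (L (X (A (L (R D 15328) 4294967295) (X c (L (R D 35552) 4294967295))) (L (X (L (X 86 b) N) (A (L (X (L (X 1048576 (A (L (R D 32) 4294967295) (X c (L (R D 20256) 4294967295)))) N) (P f 2)) N) (L (X (L (X 86 b) N) (A (L (X (L (X 1024 (A (L (R D 64) 4294967295) (X c (L (R D 20288) 4294967295)))) N) f) N) (L (X (L (X 86 b) N) (A (L (R D 96) 4294967295) (X c (L (R D 20320) 4294967295)))) N))) N))) N)) N) (A (L (X 0 f) N) (S M (L (L (X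 12 (L (X 86 b) N)) N) N)))) N)) N) f) N) (A (L (X (L (X (A (L (R D 15392) 4294967295) (X c (L (R D 35616) 4294967295))) (L (X (L (X 86 b) N) (A (L (X (L (X 1048576 (A (L (R D 32) 4294967295) (X c (L (R D 20256) 4294967295)))) N) (P f 2)) N) (L (X (L (X 86 b) N) (A (L (X (L (X 1024 (A (L (R D 64) 4294967295) (X c (L (R D 20288) 4294967295)))) N) f) N) (L (X (L (X 86 b) N) (A (L (R D 96) 4294967295) (X c (L (R D 20320) 4294967295)))) N))) N))) N)) N) (A (L (X (L (X 1024 (L (X 86 b) N)) N) f) N) (S M (L (L (X 12 (L (X (L (X 86 b) N) (L (X 86 b) N)) N)) N) N)))) N) (A (L (X (L (X (A (L (R D 15424) 4294967295) (X c (L (R D 35648) 4294967295))) (L (X (L (X 86 b) N) (A (L (X (L (X 1048576 (A (L (R D 32) 4294967295) (X c (L (R D 20256) 4294967295)))) N) (P f 2)) N) (L (X (L (X 86 b) N) (A (L (X (L (X 1024 (A (L (R D 64) 4294967295) (X c (L (R D 20288) 4294967295)))) N) f) N) (L (X (L (X 86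 b) N) (A (L (R D 96) 4294967295) (X c (L (R D 20320) 4294967295)))) N))) N))) N)) N) (A (L (X 0 (P f 2)) N) (S M (L (L (X 12 (L (X (L (X 86 b) N) (L (X 86 b) N)) N)) N) N)))) N) (A (L (X (L (X (A (L (R D 15456) 4294967295) (X c (L (R D 35680) 4294967295))) (L (X (L (X 86 b) N) (A (L (X (L (X 1048576 (A (L (R D 32) 4294967295) (X c (L (R D 20256) 4294967295)))) N) (P f 2)) N) (L (X (L (X 86 b) N) (A (L (X (L (X 1024 (A (L (R D 64) 4294967295) (X c (L (R D 20288) 4294967295)))) N) f) N) (L (X (L (X 86 b) N) (A (L (R D 96) 4294967295) (X c (L (R D 20320) 4294967295)))) N))) N))) N)) N) (A (L (X 144 (L (X (L (X 86 b) N) (L (X 86 b) N)) N)) N) (S M (L (L (X (L (X 1024 (L (X 12 (L (X 86 b) N)) N)) N) f) N) N)))) N) (L (X (L (X 1048576 (L (X (L (X (A (L (R D 15488) 4294967295) (X c (L (R D 35712) 4294967295))) (L (X (L (X 86 b) N) (A (L (X (L (X 1048576 (A (L (R D 32) 4294967295) (X c (L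 (R D 20256) 4294967295)))) N) (P f 2)) N) (L (X (L (X 86 b) N) (A (L (X (L (X 1024 (A (L (R D 64) 4294967295) (X c (L (R D 20288) 4294967295)))) N) f) N) (L (X (L (X 86 b) N) (A (L (R D 96) 4294967295) (X c (L (R D 20320) 4294967295)))) N))) N))) N)) N) (A 0 (S M (L (L (X 12 1) N) N)))) N)) N) (P f 2)) N)))))) N) (P e 3)) N) g) N) N))), 150, 4, 6, 4, 1⟩,
  ⟨fun A S X L P R M N m a b c d e f g h D => (A (L (X (L (X (L (X (L (X 16777216 (L (X (L (X 86 b) N) (A (L (X 1024 (A (L (X (A (L (X (L (X 1024 (A (A (L (R D 10464) 4294967295) (X c (L (R D 30688) 4294967295))) (S M (L (X 2147483648 (A 1 (X c 1))) N)))) N) e) N) (L (X (A (A (L (R D 10496) 4294967295) (X c (L (R D 30720) 4294967295))) (S M (L (X 2147483648 (A 1 (X c 1))) N))) (L (X 171 a) N)) N)) f) N) (L (X (L (X (A (A (L (R D 10528) 4294967295) (X c (L (R D 30752) 4294967295))) (S M (L (X 2147483648 (A 1 (X c 1))) N))) (L (X 86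 b) N)) N) e) N))) N) (L (X (A (A (L (R D 10560) 4294967295) (X c (L (R D 30784) 4294967295))) (S M (L (X 2147483648 (A 1 (X c 1))) N))) (L (X (L (X 86 b) N) (L (X 171 a) N)) N)) N))) N)) N) e) N) f) N) g) N) (S M (L (L (X (L (X (L (X 86 b) N) (A (L (X (L (X 1048576 (A (L (R D 32) 4294967295) (X c (L (R D 20256) 4294967295)))) N) (P f 2)) N) (L (X (L (X 86 b) N) (A (L (X (L (X 1024 (A (L (R D 64) 4294967295) (X c (L (R D 20288) 4294967295)))) N) f) N) (L (X (L (X 86 b) N) (A (L (R D 96) 4294967295) (X c (L (R D 20320) 4294967295)))) N))) N))) N) (L (X (A (L (X 1 (A (L (R D 128) 4294967295) (X a (A (L (R D 160) 4294967295) (X a (L (R D 192) 4294967295)))))) N) (L (X c (A (L (R D 20352) 4294967295) (X a (A (L (R D 20384) 4294967295) (X a (L (R D 20416) 4294967295)))))) N)) 1) N)) N) N))), 97, 3, 4, 3, 1⟩,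
  ⟨fun A S X L P R M N m a b c d e f g h D => (A (L (X (L (X (L (X 17179869184 (L (X (L (X 86 b) N) (A (L (X 1024 (A (L (X (A (L (X (L (X 1024 (A (A (L (R D 10720) 4294967295) (X c (L (R D 30944) 4294967295))) (S M (L (X 2147483648 (A 1 (X c 1))) N)))) N) e) N) (L (X (A (A (L (R D 10752) 4294967295) (X c (L (R D 30976) 4294967295))) (S M (L (X 2147483648 (A 1 (X c 1))) N))) (L (X 171 a) N)) N)) f) N) (L (X (L (X (A (A (L (R D 10784) 4294967295) (X c (L (R D 31008) 4294967295))) (S M (L (X 2147483648 (A 1 (X c 1))) N))) (L (X 86 b) N)) N) e) N))) N) (L (X (A (A (L (R D 10816) 4294967295) (X c (L (R D 31040) 4294967295))) (S M (L (X 2147483648 (A 1 (X c 1))) N))) (L (X (L (X 86 b) N) (L (X 171 a) N)) N)) N))) N)) N) f) N) g) N) (S M (L (L (X (L (X (L (X 86 b) N) (A (L (X (L (X 1048576 (A (L (R D 1792) 4294967295) (X c (L (R D 22016) 4294967295)))) N) (P f 2)) N) (L (X (L (X 86 b) N)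 (A (L (X (L (X 1024 (A (L (R D 1824) 4294967295) (X c (L (R D 22048) 4294967295)))) N) f) N) (L (X (L (X 86 b) N) (A (L (R D 1856) 4294967295) (X c (L (R D 22080) 4294967295)))) N))) N))) N) (A (L (X (A (L (R D 9248) 4294967295) (X c (L (R D 29472) 4294967295))) (L (X 1 (A (L (X 853 e) N) (L (X 171 1) N))) N)) N) (L (X (L (X 1024 (L (X (A (L (R D 9280) 4294967295) (X c (L (R D 29504) 4294967295))) 1) N)) N) e) N))) N) N))), 107, 2, 4, 3, 1⟩,
  ⟨fun A S X L P R M N m a b c d e f g h D => (A (A (L (X (L (X (L (X (L (X 17592186044416 (L (X (L (X 86 b) N) (A (L (X 1024 (A (L (X (A (L (X (L (X 1024 (A (A (L (R D 10976) 4294967295) (X c (L (R D 31200) 4294967295))) (S M (L (X 2147483648 (A 1 (X c 1))) N)))) N) e) N) (L (X (A (A (L (R D 11008) 4294967295) (X c (L (R D 31232) 4294967295))) (S M (L (X 2147483648 (A 1 (X c 1))) N))) (L (X 171 a) N)) N)) f) N) (L (X (L (X (A (A (L (R D 11040)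 4294967295) (X c (L (R D 31264) 4294967295))) (S M (L (X 2147483648 (A 1 (X c 1))) N))) (L (X 86 b) N)) N) e) N))) N) (L (X (A (A (L (R D 11072) 4294967295) (X c (L (R D 31296) 4294967295))) (S M (L (X 2147483648 (A 1 (X c 1))) N))) (L (X (L (X 86 b) N) (L (X 171 a) N)) N)) N))) N)) N) e) N) (P f 2)) N) g) N) (S M (L (A (L (X (L (X (L (X 86 b) N) (A (L (X (L (X 1048576 (A (L (R D 1888) 4294967295) (X c (L (R D 22112) 4294967295)))) N) (P f 2)) N) (L (X (L (X 86 b) N) (A (L (X (L (X 1024 (A (L (R D 1920) 4294967295) (X c (L (R D 22144) 4294967295)))) N) f) N) (L (X (L (X 86 b) N) (A (L (R D 1952) 4294967295) (X c (L (R D 22176) 4294967295)))) N))) N))) N) (A (L (X (L (X 1024 (L (X (A (A (L (R D 8864) 4294967295) (X c (L (R D 29088) 4294967295))) (S M (L (X 2147483648 (A 1 (X c 1))) N))) (A (L (X (L (X 767 e) N) f) N) (A (L (X (L (X 171 1) N) f) N) (L (X (L (X 86 1) N) e) N)))) N)) N)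 e) N) (L (X (A (A (L (R D 8896) 4294967295) (X c (L (R D 29120) 4294967295))) (S M (L (X 2147483648 (A 1 (X c 1))) N))) (L (X (L (X 171 a) N) (A (L (X (L (X 767 e) N) f) N) (A (L (X (L (X 171 1) N) f) N) (L (X (L (X 86 1) N) e) N)))) N)) N))) N) (L (X (L (X (L (X 1024 (L (X (L (X (L (X 86 b) N) (A (L (X (L (X 1048576 (A (L (R D 1792) 4294967295) (X c (L (R D 22016) 4294967295)))) N) (P f 2)) N) (L (X (L (X 86 b) N) (A (L (X (L (X 1024 (A (L (R D 1824) 4294967295) (X c (L (R D 22048) 4294967295)))) N) f) N) (L (X (L (X 86 b) N) (A (L (R D 1856) 4294967295) (X c (L (R D 22080) 4294967295)))) N))) N))) N) (A (L (X (A (L (R D 9504) 4294967295) (X c (L (R D 29728) 4294967295))) (L (X 1 (A (L (X 853 e) N) (L (X 171 1) N))) N)) N) (L (X (L (X 1024 (L (X (A (L (R D 9536) 4294967295) (X c (L (R D 29760) 4294967295))) 1) N)) N) e) N))) N)) N) e) N) f) N)) N))) (S M (L (L (X (L (X (L (X (L (X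 18014398509481984 (A (L (X (L (X (A (L (R D 15680) 4294967295) (X c (L (R D 35904) 4294967295))) (L (X 86 b) N)) N) (L (X 2 (A (L (X (L (X 767 e) N) f) N) (A (L (X (L (X 171 1) N) f) N) (L (X (L (X 86 1) N) e) N)))) N)) N) (A (L (X (L (X (A (L (R D 15712) 4294967295) (X c (L (R D 35936) 4294967295))) (L (X 86 b) N)) N) (A (L (X (L (X 767 e) N) f) N) (A (L (X (L (X 171 1) N) f) N) (L (X (L (X 86 1) N) e) N)))) N) (L (X (L (X (A (L (R D 15808) 4294967295) (X c (L (R D 36032) 4294967295))) (L (X 86 b) N)) N) (L (X 2 (A (L (X (L (X 767 e) N) f) N) (A (L (X (L (X 171 1) N) f) N) (L (X (L (X 86 1) N) e) N)))) N)) N)))) N) e) N) (P f 2)) N) g) N) N))), 120, 3, 5, 3, 1⟩,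
  ⟨fun A S X L P R M N m a b c d e f g h D => (A (A (L (X (L (X (L (X 0 e) N) (P f 3)) N) (P g 2)) N) (S M (L (L (X (L (X (L (X 86 b) N) (A (L (X (L (X 1048576 (A (L (R D 1888) 4294967295) (X c (L (R D 22112) 4294967295)))) N) (P f 2)) N) (L (X (L (X 86 b) N) (A (L (X (L (X 1024 (A (L (R D 1920) 4294967295) (X c (L (R D 22144) 4294967295)))) N) f) N) (L (X (L (X 86 b) N) (A (L (R D 1952) 4294967295) (X c (L (R D 22176) 4294967295)))) N))) N))) N) (L (X (A (L (X (L (X 1024 (A (A (L (R D 8928) 4294967295) (X c (L (R D 29152) 4294967295))) (S M (L (X 2147483648 (A 1 (X c 1))) N)))) N) e) N) (L (X (L (X 171 a) N) (A (A (L (R D 9024) 4294967295) (X c (L (R D 29248) 4294967295))) (S M (L (X 2147483648 (A 1 (X c 1))) N)))) N)) 1) N)) N) N))) (S M (L (L (X (L (X (L (X (L (X 18014398509481984 (A (L (X (L (X (A (L (R D 15680) 4294967295) (X c (L (R D 35904) 4294967295))) (L (X 86 b) N)) N) (A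 0 (S M (L (L (X 12 1) N) N)))) N) (A (L (X (L (X (A (L (R D 15744) 4294967295) (X c (L (R D 35968) 4294967295))) (L (X 86 b) N)) N) 1) N) (L (X (L (X (A (L (R D 15808) 4294967295) (X c (L (R D 36032) 4294967295))) (L (X 86 b) N)) N) (A 0 (S M (L (L (X 12 1) N) N)))) N)))) N) e) N) (P f 2)) N) g) N) N))), 106, 2, 4, 3, 1⟩,
  ⟨fun A S X L P R M N m a b c d e f g h D => (A (A (L (X (L (X 0 (P f 3)) N) (P g 2)) N) (S M (L (L (X (L (X (L (X 86 b) N) (A (L (X (L (X 1048576 (A (L (R D 1888) 4294967295) (X c (L (R D 22112) 4294967295)))) N) (P f 2)) N) (L (X (L (X 86 b) N) (A (L (X (L (X 1024 (A (L (R D 1920) 4294967295) (X c (L (R D 22144) 4294967295)))) N) f) N) (L (X (L (X 86 b) N) (A (L (R D 1952) 4294967295) (X c (L (R D 22176) 4294967295)))) N))) N))) N) (L (X (A (A (L (R D 8960) 4294967295) (X c (L (R D 29184) 4294967295))) (S M (L (X 2147483648 (A 1 (X c 1))) N))) 1) N)) N) N))) (S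 M (L (L (X (L (X (L (X 17592186044416 (A (L (X (L (X (A (L (R D 15712) 4294967295) (X c (L (R D 35936) 4294967295))) (L (X 86 b) N)) N) (A 0 (S M (L (L (X 12 1) N) N)))) N) (A (L (X (L (X (A (L (R D 15776) 4294967295) (X c (L (R D 36000) 4294967295))) (L (X 86 b) N)) N) (L (X 2 1) N)) N) (L (X (L (X (A (L (R D 15808) 4294967295) (X c (L (R D 36032) 4294967295))) (L (X 86 b) N)) N) (A 0 (S M (L (L (X 24 1) N) N)))) N)))) N) (P f 2)) N) g) N) N))), 95, 1, 4, 3, 1⟩,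
  ⟨fun A S X L P R M N m a b c d e f g h D => (A (A (L (X (L (X 0 (P f 3)) N) (P g 2)) N) (S M (L (L (X (L (X (L (X 86 b) N) (A (L (X (L (X 1048576 (A (L (R D 1888) 4294967295) (X c (L (R D 22112) 4294967295)))) N) (P f 2)) N) (L (X (L (X 86 b) N) (A (L (X (L (X 1024 (A (L (R D 1920) 4294967295) (X c (L (R D 22144) 4294967295)))) N) f) N) (L (X (L (X 86 b) N) (A (L (R D 1952) 4294967295) (X c (L (R D 22176) 4294967295)))) N))) N))) N) (L (X (A (A (L (R D 8992) 4294967295) (X c (L (R D 29216) 4294967295))) (S M (L (X 2147483648 (A 1 (X c 1))) N))) 1) N)) N) N))) (S M (L (L (X (L (X (L (X 17592186044416 (A (L (X (L (X (A (L (R D 15744) 4294967295) (X c (L (R D 35968) 4294967295))) (L (X 86 b) N)) N) (A 0 (S M (L (L (X 12 1) N) N)))) N) (A (L (X (L (X (A (L (R D 15776) 4294967295) (X c (L (R D 36000) 4294967295))) (L (X 86 b) N)) N) (A 0 (S M (L (L (X 12 1) N) N)))) N) (L (X (L (X (A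 (L (R D 15808) 4294967295) (X c (L (R D 36032) 4294967295))) (L (X 86 b) N)) N) (L (X 144 1) N)) N)))) N) (P f 2)) N) g) N) N))), 96, 1, 4, 3, 1⟩,
  ⟨fun A S X L P R M N m a b c d e f g h D => (A (A (L (X (L (X (L (X 16384 (A (L (X (L (X 1024 (L (X (A (A (L (R D 8864) 4294967295) (X c (L (R D 29088) 4294967295))) (S M (L (X 2147483648 (A 1 (X c 1))) N))) (A (L (X (L (X 767 e) N) f) N) (A (L (X (L (X 171 1) N) f) N) (L (X (L (X 86 1) N) e) N)))) N)) N) e) N) (L (X (A (A (L (R D 8896) 4294967295) (X c (L (R D 29120) 4294967295))) (S M (L (X 2147483648 (A 1 (X c 1))) N))) (L (X (L (X 171 a) N) (A (L (X (L (X 767 e) N) f) N) (A (L (X (L (X 171 1) N) f) N) (L (X (L (X 86 1) N) e) N)))) N)) N))) N) e) N) g) N) (S M (L (L (X (A (L (X 1 (A (L (R D 128) 4294967295) (X a (A (L (R D 160) 4294967295) (X a (L (R D 192) 4294967295)))))) N) (L (X c (A (L (R D 20352) 4294967295) (X a (A (L (R D 20384)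 4294967295) (X a (L (R D 20416) 4294967295)))))) N)) (L (X (A (A (L (R D 10464) 4294967295) (X c (L (R D 30688) 4294967295))) (S M (L (X 2147483648 (A 1 (X c 1))) N))) (A (L (X (L (X 767 e) N) f) N) (A (L (X (L (X 171 1) N) f) N) (L (X (L (X 86 1) N) e) N)))) N)) N) N))) (S M (L (L (X (L (X (L (X 16777216 (A (L (X (A (L (R D 16000) 4294967295) (X c (L (R D 36224) 4294967295))) (L (X 2 (A (L (X (L (X 767 e) N) f) N) (A (L (X (L (X 171 1) N) f) N) (L (X (L (X 86 1) N) e) N)))) N)) N) (A (L (X (A (L (R D 16032) 4294967295) (X c (L (R D 36256) 4294967295))) (A (L (X (L (X 767 e) N) f) N) (A (L (X (L (X 171 1) N) f) N) (L (X (L (X 86 1) N) e) N)))) N) (L (X (A (L (R D 16128) 4294967295) (X c (L (R D 36352) 4294967295))) (L (X 2 (A (L (X (L (X 767 e) N) f) N) (A (L (X (L (X 171 1) N) f) N) (L (X (L (X 86 1) N) e) N)))) N)) N)))) N) (P e 2)) N) g) N) N))), 80, 4, 2, 3, 1⟩,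
  ⟨fun A S X L P R M N m a b c d e f g h D => (A (A (L (X (L (X (L (X 16384 (L (X (A (L (X (L (X 1024 (A (A (L (R D 8928) 4294967295) (X c (L (R D 29152) 4294967295))) (S M (L (X 2147483648 (A 1 (X c 1))) N)))) N) e) N) (L (X (L (X 171 a) N) (A (A (L (R D 9024) 4294967295) (X c (L (R D 29248) 4294967295))) (S M (L (X 2147483648 (A 1 (X c 1))) N)))) N)) 1) N)) N) e) N) g) N) (S M (L (L (X (A (L (X 1 (A (L (R D 128) 4294967295) (X a (A (L (R D 160) 4294967295) (X a (L (R D 192) 4294967295)))))) N) (L (X c (A (L (R D 20352) 4294967295) (X a (A (L (R D 20384) 4294967295) (X a (L (R D 20416) 4294967295)))))) N)) (L (X (A (A (L (R D 10496) 4294967295) (X c (L (R D 30720) 4294967295))) (S M (L (X 2147483648 (A 1 (X c 1))) N))) 1) N)) N) N))) (S M (L (L (X (L (X (L (X 16777216 (A (L (X (A (L (R D 16000) 4294967295) (X c (L (R D 36224) 4294967295))) (A 0 (S M (L (L (X 12 1) N) N)))) N) (A (L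 (X (A (L (R D 16064) 4294967295) (X c (L (R D 36288) 4294967295))) 1) N) (L (X (A (L (R D 16128) 4294967295) (X c (L (R D 36352) 4294967295))) (A 0 (S M (L (L (X 12 1) N) N)))) N)))) N) (P e 2)) N) g) N) N))), 68, 3, 1, 3, 1⟩,
  ⟨fun A S X L P R M N m a b c d e f g h D => (A (A (L (X (L (X (L (X 16777216 (L (X (A (A (L (R D 8960) 4294967295) (X c (L (R D 29184) 4294967295))) (S M (L (X 2147483648 (A 1 (X c 1))) N))) 1) N)) N) (P e 2)) N) g) N) (S M (L (L (X (A (L (X 1 (A (L (R D 128) 4294967295) (X a (A (L (R D 160) 4294967295) (X a (L (R D 192) 4294967295)))))) N) (L (X c (A (L (R D 20352) 4294967295) (X a (A (L (R D 20384) 4294967295) (X a (L (R D 20416) 4294967295)))))) N)) (L (X (A (A (L (R D 10528) 4294967295) (X c (L (R D 30752) 4294967295))) (S M (L (X 2147483648 (A 1 (X c 1))) N))) 1) N)) N) N))) (S M (L (L (X (L (X (L (X 16777216 (A (L (X (A (L (R D 16032) 4294967295) (X c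 (L (R D 36256) 4294967295))) (A 0 (S M (L (L (X 12 1) N) N)))) N) (A (L (X (A (L (R D 16096) 4294967295) (X c (L (R D 36320) 4294967295))) (L (X 2 1) N)) N) (L (X (A (L (R D 16128) 4294967295) (X c (L (R D 36352) 4294967295))) (A 0 (S M (L (L (X 24 1) N) N)))) N)))) N) (P e 2)) N) g) N) N))), 68, 3, 1, 3, 1⟩,
  ⟨fun A S X L P R M N m a b c d e f g h D => (A (A (L (X (L (X (L (X 16777216 (L (X (A (A (L (R D 8992) 4294967295) (X c (L (R D 29216) 4294967295))) (S M (L (X 2147483648 (A 1 (X c 1))) N))) 1) N)) N) (P e 2)) N) g) N) (S M (L (L (X (A (L (X 1 (A (L (R D 128) 4294967295) (X a (A (L (R D 160) 4294967295) (X a (L (R D 192) 4294967295)))))) N) (L (X c (A (L (R D 20352) 4294967295) (X a (A (L (R D 20384) 4294967295) (X a (L (R D 20416) 4294967295)))))) N)) (L (X (A (A (L (R D 10560) 4294967295) (X c (L (R D 30784) 4294967295))) (S M (L (X 2147483648 (A 1 (X c 1))) N))) 1) N)) N)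 N))) (S M (L (L (X (L (X (L (X 16777216 (A (L (X (A (L (R D 16064) 4294967295) (X c (L (R D 36288) 4294967295))) (A 0 (S M (L (L (X 12 1) N) N)))) N) (A (L (X (A (L (R D 16096) 4294967295) (X c (L (R D 36320) 4294967295))) (A 0 (S M (L (L (X 12 1) N) N)))) N) (L (X (A (L (R D 16128) 4294967295) (X c (L (R D 36352) 4294967295))) (L (X 144 1) N)) N)))) N) (P e 2)) N) g) N) N))), 69, 3, 1, 3, 1⟩,
  ⟨fun A S X L P R M N m a b c d e f g h D => (A (A (L (X (L (X 281474976710656 (A (L (X (L (X 1024 (L (X (A (A (L (R D 11680) 4294967295) (X c (L (R D 31904) 4294967295))) (S M (L (X 2147483648 (A 1 (X c 1))) N))) (A (L (X (L (X 767 e) N) f) N) (A (L (X (L (X 171 1) N) f) N) (L (X (L (X 86 1) N) e) N)))) N)) N) e) N) (L (X (A (A (L (R D 11776) 4294967295) (X c (L (R D 32000) 4294967295))) (S M (L (X 2147483648 (A 1 (X c 1))) N))) (L (X (L (X 171 a) N) (A (L (X (L (X 767 e) N) f) N) (A (L (X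 (L (X 171 1) N) f) N) (L (X (L (X 86 1) N) e) N)))) N)) N))) N) (P g 2)) N) (S M (L (A (L (X (L (X (L (X 288230376151711744 (L (X (A (A (L (R D 10720) 4294967295) (X c (L (R D 30944) 4294967295))) (S M (L (X 2147483648 (A 1 (X c 1))) N))) (A (L (X (L (X 767 e) N) f) N) (A (L (X (L (X 171 1) N) f) N) (L (X (L (X 86 1) N) e) N)))) N)) N) e) N) (P g 2)) N) (A (A (L (X (L (X 16777216 (L (X (A (L (R D 9120) 4294967295) (X c (L (R D 29344) 4294967295))) (A (A (L (X (L (X 1024 (L (X (A (A (L (R D 2336) 4294967295) (X c (L (R D 22560) 4294967295))) (S M (L (X 2147483648 (A 1 (X c 1))) N))) (A (L (X (L (X 767 e) N) f) N) (A (L (X (L (X 171 1) N) f) N) (L (X (L (X 86 1) N) e) N)))) N)) N) e) N) (L (X (A (A (L (R D 2368) 4294967295) (X c (L (R D 22592) 4294967295))) (S M (L (X 2147483648 (A 1 (X c 1))) N))) (L (X (L (X 171 a) N) (A (L (X (L (X 767 e) N) f) N) (A (L (X (L (X 171 1) N) f) N) (L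 (X (L (X 86 1) N) e) N)))) N)) N)) (A (L (X (L (X 1024 (L (X (A (A (L (R D 12320) 4294967295) (X c (L (R D 32544) 4294967295))) (S M (L (X 2147483648 (A 1 (X c 1))) N))) (A (L (X (L (X 767 e) N) f) N) (A (L (X (L (X 171 1) N) f) N) (L (X (L (X 86 1) N) e) N)))) N)) N) e) N) (L (X (A (A (L (R D 12416) 4294967295) (X c (L (R D 32640) 4294967295))) (S M (L (X 2147483648 (A 1 (X c 1))) N))) (L (X (L (X 171 a) N) (A (L (X (L (X 767 e) N) f) N) (A (L (X (L (X 171 1) N) f) N) (L (X (L (X 86 1) N) e) N)))) N)) N)))) N)) N) g) N) (L (X (A (L (R D 9248) 4294967295) (X c (L (R D 29472) 4294967295))) (A (L (X (A (L (R D 1984) 4294967295) (X c (L (R D 22208) 4294967295))) (A (L (X (L (X 1024 (L (X (A (A (L (R D 2720) 4294967295) (X c (L (R D 22944) 4294967295))) (S M (L (X 2147483648 (A 1 (X c 1))) N))) (A (L (X (L (X 767 e) N) f) N) (A (L (X (L (X 171 1) N) f) N) (L (X (L (X 86 1) N) e) N))))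 N)) N) e) N) (L (X (A (A (L (R D 2752) 4294967295) (X c (L (R D 22976) 4294967295))) (S M (L (X 2147483648 (A 1 (X c 1))) N))) (L (X (L (X 171 a) N) (A (L (X (L (X 767 e) N) f) N) (A (L (X (L (X 171 1) N) f) N) (L (X (L (X 86 1) N) e) N)))) N)) N))) N) (L (X (A (L (R D 2080) 4294967295) (X c (L (R D 22304) 4294967295))) (A (L (X (L (X 1024 (L (X (A (A (L (R D 11168) 4294967295) (X c (L (R D 31392) 4294967295))) (S M (L (X 2147483648 (A 1 (X c 1))) N))) (A (L (X (L (X 767 e) N) f) N) (A (L (X (L (X 171 1) N) f) N) (L (X (L (X 86 1) N) e) N)))) N)) N) e) N) (L (X (A (A (L (R D 11264) 4294967295) (X c (L (R D 31488) 4294967295))) (S M (L (X 2147483648 (A 1 (X c 1))) N))) (L (X (L (X 171 a) N) (A (L (X (L (X 767 e) N) f) N) (A (L (X (L (X 171 1) N) f) N) (L (X (L (X 86 1) N) e) N)))) N)) N))) N))) N)) (A (L (X (L (X 16777216 (L (X (A (L (R D 9152) 4294967295) (X c (L (R D 29376) 4294967295)))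 (A (A (L (X (L (X 1024 (L (X (A (A (L (R D 2528) 4294967295) (X c (L (R D 22752) 4294967295))) (S M (L (X 2147483648 (A 1 (X c 1))) N))) (A (L (X (L (X 767 e) N) f) N) (A (L (X (L (X 171 1) N) f) N) (L (X (L (X 86 1) N) e) N)))) N)) N) e) N) (L (X (A (A (L (R D 2560) 4294967295) (X c (L (R D 22784) 4294967295))) (S M (L (X 2147483648 (A 1 (X c 1))) N))) (L (X (L (X 171 a) N) (A (L (X (L (X 767 e) N) f) N) (A (L (X (L (X 171 1) N) f) N) (L (X (L (X 86 1) N) e) N)))) N)) N)) (A (L (X (L (X 1024 (L (X (A (A (L (R D 12896) 4294967295) (X c (L (R D 33120) 4294967295))) (S M (L (X 2147483648 (A 1 (X c 1))) N))) (A (L (X (L (X 767 e) N) f) N) (A (L (X (L (X 171 1) N) f) N) (L (X (L (X 86 1) N) e) N)))) N)) N) e) N) (L (X (A (A (L (R D 12992) 4294967295) (X c (L (R D 33216) 4294967295))) (S M (L (X 2147483648 (A 1 (X c 1))) N))) (L (X (L (X 171 a) N) (A (L (X (L (X 767 e) N) f) N) (A (L (X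 (L (X 171 1) N) f) N) (L (X (L (X 86 1) N) e) N)))) N)) N)))) N)) N) g) N) (L (X (A (L (R D 9280) 4294967295) (X c (L (R D 29504) 4294967295))) (A (L (X (A (L (R D 1984) 4294967295) (X c (L (R D 22208) 4294967295))) (A (L (X (L (X 1024 (L (X (A (A (L (R D 2912) 4294967295) (X c (L (R D 23136) 4294967295))) (S M (L (X 2147483648 (A 1 (X c 1))) N))) (A (L (X (L (X 767 e) N) f) N) (A (L (X (L (X 171 1) N) f) N) (L (X (L (X 86 1) N) e) N)))) N)) N) e) N) (L (X (A (A (L (R D 2944) 4294967295) (X c (L (R D 23168) 4294967295))) (S M (L (X 2147483648 (A 1 (X c 1))) N))) (L (X (L (X 171 a) N) (A (L (X (L (X 767 e) N) f) N) (A (L (X (L (X 171 1) N) f) N) (L (X (L (X 86 1) N) e) N)))) N)) N))) N) (L (X (A (L (R D 2080) 4294967295) (X c (L (R D 22304) 4294967295))) (A (L (X (L (X 1024 (L (X (A (A (L (R D 11744) 4294967295) (X c (L (R D 31968) 4294967295))) (S M (L (X 2147483648 (A 1 (X c 1)))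 N))) (A (L (X (L (X 767 e) N) f) N) (A (L (X (L (X 171 1) N) f) N) (L (X (L (X 86 1) N) e) N)))) N)) N) e) N) (L (X (A (A (L (R D 11840) 4294967295) (X c (L (R D 32064) 4294967295))) (S M (L (X 2147483648 (A 1 (X c 1))) N))) (L (X (L (X 171 a) N) (A (L (X (L (X 767 e) N) f) N) (A (L (X (L (X 171 1) N) f) N) (L (X (L (X 86 1) N) e) N)))) N)) N))) N))) N)))) N))) (S M (L (L (X (L (X (L (X 288230376151711744 (A (L (X (A (L (R D 16320) 4294967295) (X c (L (R D 36544) 4294967295))) (L (X 2 (A (L (X (L (X 767 e) N) f) N) (A (L (X (L (X 171 1) N) f) N) (L (X (L (X 86 1) N) e) N)))) N)) N) (A (L (X (A (L (R D 16352) 4294967295) (X c (L (R D 36576) 4294967295))) (A (L (X (L (X 767 e) N) f) N) (A (L (X (L (X 171 1) N) f) N) (L (X (L (X 86 1) N) e) N)))) N) (L (X (A (L (R D 16448) 4294967295) (X c (L (R D 36672) 4294967295))) (L (X 2 (A (L (X (L (X 767 e) N) f) N) (A (L (X (L (X 171 1) N) f)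 N) (L (X (L (X 86 1) N) e) N)))) N)) N)))) N) e) N) (P g 2)) N) N))), 124, 3, 2, 4, 1⟩,
  ⟨fun A S X L P R M N m a b c d e f g h D => (A (A (L (X (L (X 281474976710656 (L (X (A (L (X (L (X 1024 (A (A (L (R D 11872) 4294967295) (X c (L (R D 32096) 4294967295))) (S M (L (X 2147483648 (A 1 (X c 1))) N)))) N) e) N) (L (X (L (X 171 a) N) (A (A (L (R D 12160) 4294967295) (X c (L (R D 32384) 4294967295))) (S M (L (X 2147483648 (A 1 (X c 1))) N)))) N)) 1) N)) N) (P g 2)) N) (S M (L (A (L (X (L (X (L (X 288230376151711744 (L (X (A (A (L (R D 10752) 4294967295) (X c (L (R D 30976) 4294967295))) (S M (L (X 2147483648 (A 1 (X c 1))) N))) 1) N)) N) e) N) (P g 2)) N) (A (A (L (X (L (X 16777216 (L (X (A (L (R D 9120) 4294967295) (X c (L (R D 29344) 4294967295))) (A (L (X (A (L (X (L (X 1024 (A (A (L (R D 2400) 4294967295) (X c (L (R D 22624) 4294967295))) (S M (L (X 2147483648 (A 1 (X c 1))) N))))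 N) e) N) (L (X (L (X 171 a) N) (A (A (L (R D 2496) 4294967295) (X c (L (R D 22720) 4294967295))) (S M (L (X 2147483648 (A 1 (X c 1))) N)))) N)) 1) N) (L (X (A (L (X (L (X 1024 (A (A (L (R D 12512) 4294967295) (X c (L (R D 32736) 4294967295))) (S M (L (X 2147483648 (A 1 (X c 1))) N)))) N) e) N) (L (X (L (X 171 a) N) (A (A (L (R D 12800) 4294967295) (X c (L (R D 33024) 4294967295))) (S M (L (X 2147483648 (A 1 (X c 1))) N)))) N)) 1) N))) N)) N) g) N) (L (X (A (L (R D 9248) 4294967295) (X c (L (R D 29472) 4294967295))) (A (L (X (A (L (R D 1984) 4294967295) (X c (L (R D 22208) 4294967295))) (L (X (A (L (X (L (X 1024 (A (A (L (R D 2784) 4294967295) (X c (L (R D 23008) 4294967295))) (S M (L (X 2147483648 (A 1 (X c 1))) N)))) N) e) N) (L (X (L (X 171 a) N) (A (A (L (R D 2880) 4294967295) (X c (L (R D 23104) 4294967295))) (S M (L (X 2147483648 (A 1 (X c 1))) N)))) N)) 1) N)) N) (L (X (A (L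 (R D 2080) 4294967295) (X c (L (R D 22304) 4294967295))) (L (X (A (L (X (L (X 1024 (A (A (L (R D 11360) 4294967295) (X c (L (R D 31584) 4294967295))) (S M (L (X 2147483648 (A 1 (X c 1))) N)))) N) e) N) (L (X (L (X 171 a) N) (A (A (L (R D 11648) 4294967295) (X c (L (R D 31872) 4294967295))) (S M (L (X 2147483648 (A 1 (X c 1))) N)))) N)) 1) N)) N))) N)) (A (L (X (L (X 16777216 (L (X (A (L (R D 9152) 4294967295) (X c (L (R D 29376) 4294967295))) (A (L (X (A (L (X (L (X 1024 (A (A (L (R D 2592) 4294967295) (X c (L (R D 22816) 4294967295))) (S M (L (X 2147483648 (A 1 (X c 1))) N)))) N) e) N) (L (X (L (X 171 a) N) (A (A (L (R D 2688) 4294967295) (X c (L (R D 22912) 4294967295))) (S M (L (X 2147483648 (A 1 (X c 1))) N)))) N)) 1) N) (L (X (A (L (X (L (X 1024 (A (A (L (R D 13088) 4294967295) (X c (L (R D 33312) 4294967295))) (S M (L (X 2147483648 (A 1 (X c 1))) N)))) N) e) N) (L (X (L (X 171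 a) N) (A (A (L (R D 13376) 4294967295) (X c (L (R D 33600) 4294967295))) (S M (L (X 2147483648 (A 1 (X c 1))) N)))) N)) 1) N))) N)) N) g) N) (L (X (A (L (R D 9280) 4294967295) (X c (L (R D 29504) 4294967295))) (A (L (X (A (L (R D 1984) 4294967295) (X c (L (R D 22208) 4294967295))) (L (X (A (L (X (L (X 1024 (A (A (L (R D 2976) 4294967295) (X c (L (R D 23200) 4294967295))) (S M (L (X 2147483648 (A 1 (X c 1))) N)))) N) e) N) (L (X (L (X 171 a) N) (A (A (L (R D 3072) 4294967295) (X c (L (R D 23296) 4294967295))) (S M (L (X 2147483648 (A 1 (X c 1))) N)))) N)) 1) N)) N) (L (X (A (L (R D 2080) 4294967295) (X c (L (R D 22304) 4294967295))) (L (X (A (L (X (L (X 1024 (A (A (L (R D 11936) 4294967295) (X c (L (R D 32160) 4294967295))) (S M (L (X 2147483648 (A 1 (X c 1))) N)))) N) e) N) (L (X (L (X 171 a) N) (A (A (L (R D 12224) 4294967295) (X c (L (R D 32448) 4294967295))) (S M (L (X 2147483648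 (A 1 (X c 1))) N)))) N)) 1) N)) N))) N)))) N))) (S M (L (L (X (L (X (L (X 288230376151711744 (A (L (X (A (L (R D 16320) 4294967295) (X c (L (R D 36544) 4294967295))) (A 0 (S M (L (L (X 12 1) N) N)))) N) (A (L (X (A (L (R D 16384) 4294967295) (X c (L (R D 36608) 4294967295))) 1) N) (L (X (A (L (R D 16448) 4294967295) (X c (L (R D 36672) 4294967295))) (A 0 (S M (L (L (X 12 1) N) N)))) N)))) N) e) N) (P g 2)) N) N))), 113, 2, 1, 4, 1⟩,
  ⟨fun A S X L P R M N m a b c d e f g h D => (A (A (L (X (L (X 281474976710656 (L (X (A (A (L (R D 11968) 4294967295) (X c (L (R D 32192) 4294967295))) (S M (L (X 2147483648 (A 1 (X c 1))) N))) 1) N)) N) (P g 2)) N) (S M (L (A (L (X (L (X 281474976710656 (L (X (A (A (L (R D 10784) 4294967295) (X c (L (R D 31008) 4294967295))) (S M (L (X 2147483648 (A 1 (X c 1))) N))) 1) N)) N) (P g 2)) N) (A (A (L (X (L (X 16777216 (L (X (A (L (R D 9120) 4294967295) (X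 c (L (R D 29344) 4294967295))) (A (L (X (A (A (L (R D 2432) 4294967295) (X c (L (R D 22656) 4294967295))) (S M (L (X 2147483648 (A 1 (X c 1))) N))) 1) N) (L (X (A (A (L (R D 12608) 4294967295) (X c (L (R D 32832) 4294967295))) (S M (L (X 2147483648 (A 1 (X c 1))) N))) 1) N))) N)) N) g) N) (L (X (A (L (R D 9248) 4294967295) (X c (L (R D 29472) 4294967295))) (A (L (X (A (L (R D 1984) 4294967295) (X c (L (R D 22208) 4294967295))) (L (X (A (A (L (R D 2816) 4294967295) (X c (L (R D 23040) 4294967295))) (S M (L (X 2147483648 (A 1 (X c 1))) N))) 1) N)) N) (L (X (A (L (R D 2080) 4294967295) (X c (L (R D 22304) 4294967295))) (L (X (A (A (L (R D 11456) 4294967295) (X c (L (R D 31680) 4294967295))) (S M (L (X 2147483648 (A 1 (X c 1))) N))) 1) N)) N))) N)) (A (L (X (L (X 16777216 (L (X (A (L (R D 9152) 4294967295) (X c (L (R D 29376) 4294967295))) (A (L (X (A (A (L (R D 2624) 4294967295) (X c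 (L (R D 22848) 4294967295))) (S M (L (X 2147483648 (A 1 (X c 1))) N))) 1) N) (L (X (A (A (L (R D 13184) 4294967295) (X c (L (R D 33408) 4294967295))) (S M (L (X 2147483648 (A 1 (X c 1))) N))) 1) N))) N)) N) g) N) (L (X (A (L (R D 9280) 4294967295) (X c (L (R D 29504) 4294967295))) (A (L (X (A (L (R D 1984) 4294967295) (X c (L (R D 22208) 4294967295))) (L (X (A (A (L (R D 3008) 4294967295) (X c (L (R D 23232) 4294967295))) (S M (L (X 2147483648 (A 1 (X c 1))) N))) 1) N)) N) (L (X (A (L (R D 2080) 4294967295) (X c (L (R D 22304) 4294967295))) (L (X (A (A (L (R D 12032) 4294967295) (X c (L (R D 32256) 4294967295))) (S M (L (X 2147483648 (A 1 (X c 1))) N))) 1) N)) N))) N)))) N))) (S M (L (L (X (L (X 281474976710656 (A (L (X (A (L (R D 16352) 4294967295) (X c (L (R D 36576) 4294967295))) (A 0 (S M (L (L (X 12 1) N) N)))) N) (A (L (X (A (L (R D 16416) 4294967295) (X c (L (R D 36640) 4294967295)))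 (L (X 2 1) N)) N) (L (X (A (L (R D 16448) 4294967295) (X c (L (R D 36672) 4294967295))) (A 0 (S M (L (L (X 24 1) N) N)))) N)))) N) (P g 2)) N) N))), 102, 1, 1, 4, 1⟩,
  ⟨fun A S X L P R M N m a b c d e f g h D => (A (A (L (X (L (X 281474976710656 (L (X (A (A (L (R D 12064) 4294967295) (X c (L (R D 32288) 4294967295))) (S M (L (X 2147483648 (A 1 (X c 1))) N))) 1) N)) N) (P g 2)) N) (S M (L (A (L (X (L (X 281474976710656 (L (X (A (A (L (R D 10816) 4294967295) (X c (L (R D 31040) 4294967295))) (S M (L (X 2147483648 (A 1 (X c 1))) N))) 1) N)) N) (P g 2)) N) (A (A (L (X (L (X 16777216 (L (X (A (L (R D 9120) 4294967295) (X c (L (R D 29344) 4294967295))) (A (L (X (A (A (L (R D 2464) 4294967295) (X c (L (R D 22688) 4294967295))) (S M (L (X 2147483648 (A 1 (X c 1))) N))) 1) N) (L (X (A (A (L (R D 12704) 4294967295) (X c (L (R D 32928) 4294967295))) (S M (L (X 2147483648 (A 1 (X c 1))) N)))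 1) N))) N)) N) g) N) (L (X (A (L (R D 9248) 4294967295) (X c (L (R D 29472) 4294967295))) (A (L (X (A (L (R D 1984) 4294967295) (X c (L (R D 22208) 4294967295))) (L (X (A (A (L (R D 2848) 4294967295) (X c (L (R D 23072) 4294967295))) (S M (L (X 2147483648 (A 1 (X c 1))) N))) 1) N)) N) (L (X (A (L (R D 2080) 4294967295) (X c (L (R D 22304) 4294967295))) (L (X (A (A (L (R D 11552) 4294967295) (X c (L (R D 31776) 4294967295))) (S M (L (X 2147483648 (A 1 (X c 1))) N))) 1) N)) N))) N)) (A (L (X (L (X 16777216 (L (X (A (L (R D 9152) 4294967295) (X c (L (R D 29376) 4294967295))) (A (L (X (A (A (L (R D 2656) 4294967295) (X c (L (R D 22880) 4294967295))) (S M (L (X 2147483648 (A 1 (X c 1))) N))) 1) N) (L (X (A (A (L (R D 13280) 4294967295) (X c (L (R D 33504) 4294967295))) (S M (L (X 2147483648 (A 1 (X c 1))) N))) 1) N))) N)) N) g) N) (L (X (A (L (R D 9280) 4294967295) (X c (L (R D 29504) 4294967295)))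 (A (L (X (A (L (R D 1984) 4294967295) (X c (L (R D 22208) 4294967295))) (L (X (A (A (L (R D 3040) 4294967295) (X c (L (R D 23264) 4294967295))) (S M (L (X 2147483648 (A 1 (X c 1))) N))) 1) N)) N) (L (X (A (L (R D 2080) 4294967295) (X c (L (R D 22304) 4294967295))) (L (X (A (A (L (R D 12128) 4294967295) (X c (L (R D 32352) 4294967295))) (S M (L (X 2147483648 (A 1 (X c 1))) N))) 1) N)) N))) N)))) N))) (S M (L (L (X (L (X 281474976710656 (A (L (X (A (L (R D 16384) 4294967295) (X c (L (R D 36608) 4294967295))) (A 0 (S M (L (L (X 12 1) N) N)))) N) (A (L (X (A (L (R D 16416) 4294967295) (X c (L (R D 36640) 4294967295))) (A 0 (S M (L (L (X 12 1) N) N)))) N) (L (X (A (L (R D 16448) 4294967295) (X c (L (R D 36672) 4294967295))) (L (X 144 1) N)) N)))) N) (P g 2)) N) N))), 102, 1, 1, 4, 1⟩,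
  ⟨fun A S X L P R M N m a b c d e f g h D => (A (A (L (X (L (X 281474976710656 (A (L (X (L (X 1024 (L (X (A (A (L (R D 12832) 4294967295) (X c (L (R D 33056) 4294967295))) (S M (L (X 2147483648 (A 1 (X c 1))) N))) (A (L (X (L (X 767 e) N) f) N) (A (L (X (L (X 171 1) N) f) N) (L (X (L (X 86 1) N) e) N)))) N)) N) e) N) (L (X (A (A (L (R D 12928) 4294967295) (X c (L (R D 33152) 4294967295))) (S M (L (X 2147483648 (A 1 (X c 1))) N))) (L (X (L (X 171 a) N) (A (L (X (L (X 767 e) N) f) N) (A (L (X (L (X 171 1) N) f) N) (L (X (L (X 86 1) N) e) N)))) N)) N))) N) (P g 2)) N) (S M (L (A (L (X (L (X (L (X 288230376151711744 (L (X (A (A (L (R D 10976) 4294967295) (X c (L (R D 31200) 4294967295))) (S M (L (X 2147483648 (A 1 (X c 1))) N))) (A (L (X (L (X 767 e) N) f) N) (A (L (X (L (X 171 1) N) f) N) (L (X (L (X 86 1) N) e) N)))) N)) N) e) N) (P g 2)) N) (A (A (L (X (A (L (R D 9376) 4294967295)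 (X c (L (R D 29600) 4294967295))) (A (L (X (A (L (R D 2016) 4294967295) (X c (L (R D 22240) 4294967295))) (A (L (X (L (X 1024 (L (X (A (A (L (R D 2720) 4294967295) (X c (L (R D 22944) 4294967295))) (S M (L (X 2147483648 (A 1 (X c 1))) N))) (A (L (X (L (X 767 e) N) f) N) (A (L (X (L (X 171 1) N) f) N) (L (X (L (X 86 1) N) e) N)))) N)) N) e) N) (L (X (A (A (L (R D 2752) 4294967295) (X c (L (R D 22976) 4294967295))) (S M (L (X 2147483648 (A 1 (X c 1))) N))) (L (X (L (X 171 a) N) (A (L (X (L (X 767 e) N) f) N) (A (L (X (L (X 171 1) N) f) N) (L (X (L (X 86 1) N) e) N)))) N)) N))) N) (L (X (A (L (R D 2048) 4294967295) (X c (L (R D 22272) 4294967295))) (A (L (X (L (X 1024 (L (X (A (A (L (R D 11168) 4294967295) (X c (L (R D 31392) 4294967295))) (S M (L (X 2147483648 (A 1 (X c 1))) N))) (A (L (X (L (X 767 e) N) f) N) (A (L (X (L (X 171 1) N) f) N) (L (X (L (X 86 1) N) e) N)))) N)) N) e) N)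 (L (X (A (A (L (R D 11264) 4294967295) (X c (L (R D 31488) 4294967295))) (S M (L (X 2147483648 (A 1 (X c 1))) N))) (L (X (L (X 171 a) N) (A (L (X (L (X 767 e) N) f) N) (A (L (X (L (X 171 1) N) f) N) (L (X (L (X 86 1) N) e) N)))) N)) N))) N))) N) (A (L (X (L (X 16777216 (L (X (A (L (R D 9248) 4294967295) (X c (L (R D 29472) 4294967295))) (A (A (L (X (L (X 1024 (L (X (A (A (L (R D 2336) 4294967295) (X c (L (R D 22560) 4294967295))) (S M (L (X 2147483648 (A 1 (X c 1))) N))) (A (L (X (L (X 767 e) N) f) N) (A (L (X (L (X 171 1) N) f) N) (L (X (L (X 86 1) N) e) N)))) N)) N) e) N) (L (X (A (A (L (R D 2368) 4294967295) (X c (L (R D 22592) 4294967295))) (S M (L (X 2147483648 (A 1 (X c 1))) N))) (L (X (L (X 171 a) N) (A (L (X (L (X 767 e) N) f) N) (A (L (X (L (X 171 1) N) f) N) (L (X (L (X 86 1) N) e) N)))) N)) N)) (A (L (X (L (X 1024 (L (X (A (A (L (R D 12320) 4294967295) (X c (L (R D 32544)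 4294967295))) (S M (L (X 2147483648 (A 1 (X c 1))) N))) (A (L (X (L (X 767 e) N) f) N) (A (L (X (L (X 171 1) N) f) N) (L (X (L (X 86 1) N) e) N)))) N)) N) e) N) (L (X (A (A (L (R D 12416) 4294967295) (X c (L (R D 32640) 4294967295))) (S M (L (X 2147483648 (A 1 (X c 1))) N))) (L (X (L (X 171 a) N) (A (L (X (L (X 767 e) N) f) N) (A (L (X (L (X 171 1) N) f) N) (L (X (L (X 86 1) N) e) N)))) N)) N)))) N)) N) g) N) (L (X (A (L (R D 9504) 4294967295) (X c (L (R D 29728) 4294967295))) (A (L (X (A (L (R D 1984) 4294967295) (X c (L (R D 22208) 4294967295))) (A (L (X (L (X 1024 (L (X (A (A (L (R D 2720) 4294967295) (X c (L (R D 22944) 4294967295))) (S M (L (X 2147483648 (A 1 (X c 1))) N))) (A (L (X (L (X 767 e) N) f) N) (A (L (X (L (X 171 1) N) f) N) (L (X (L (X 86 1) N) e) N)))) N)) N) e) N) (L (X (A (A (L (R D 2752) 4294967295) (X c (L (R D 22976) 4294967295))) (S M (L (X 2147483648 (A 1 (X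 c 1))) N))) (L (X (L (X 171 a) N) (A (L (X (L (X 767 e) N) f) N) (A (L (X (L (X 171 1) N) f) N) (L (X (L (X 86 1) N) e) N)))) N)) N))) N) (L (X (A (L (R D 2080) 4294967295) (X c (L (R D 22304) 4294967295))) (A (L (X (L (X 1024 (L (X (A (A (L (R D 11168) 4294967295) (X c (L (R D 31392) 4294967295))) (S M (L (X 2147483648 (A 1 (X c 1))) N))) (A (L (X (L (X 767 e) N) f) N) (A (L (X (L (X 171 1) N) f) N) (L (X (L (X 86 1) N) e) N)))) N)) N) e) N) (L (X (A (A (L (R D 11264) 4294967295) (X c (L (R D 31488) 4294967295))) (S M (L (X 2147483648 (A 1 (X c 1))) N))) (L (X (L (X 171 a) N) (A (L (X (L (X 767 e) N) f) N) (A (L (X (L (X 171 1) N) f) N) (L (X (L (X 86 1) N) e) N)))) N)) N))) N))) N))) (A (L (X (A (L (R D 9408) 4294967295) (X c (L (R D 29632) 4294967295))) (A (L (X (A (L (R D 2016) 4294967295) (X c (L (R D 22240) 4294967295))) (A (L (X (L (X 1024 (L (X (A (A (L (R D 2912) 4294967295)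 (X c (L (R D 23136) 4294967295))) (S M (L (X 2147483648 (A 1 (X c 1))) N))) (A (L (X (L (X 767 e) N) f) N) (A (L (X (L (X 171 1) N) f) N) (L (X (L (X 86 1) N) e) N)))) N)) N) e) N) (L (X (A (A (L (R D 2944) 4294967295) (X c (L (R D 23168) 4294967295))) (S M (L (X 2147483648 (A 1 (X c 1))) N))) (L (X (L (X 171 a) N) (A (L (X (L (X 767 e) N) f) N) (A (L (X (L (X 171 1) N) f) N) (L (X (L (X 86 1) N) e) N)))) N)) N))) N) (L (X (A (L (R D 2048) 4294967295) (X c (L (R D 22272) 4294967295))) (A (L (X (L (X 1024 (L (X (A (A (L (R D 11744) 4294967295) (X c (L (R D 31968) 4294967295))) (S M (L (X 2147483648 (A 1 (X c 1))) N))) (A (L (X (L (X 767 e) N) f) N) (A (L (X (L (X 171 1) N) f) N) (L (X (L (X 86 1) N) e) N)))) N)) N) e) N) (L (X (A (A (L (R D 11840) 4294967295) (X c (L (R D 32064) 4294967295))) (S M (L (X 2147483648 (A 1 (X c 1))) N))) (L (X (L (X 171 a) N) (A (L (X (L (X 767 e) N) f)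 N) (A (L (X (L (X 171 1) N) f) N) (L (X (L (X 86 1) N) e) N)))) N)) N))) N))) N) (A (L (X (L (X 16777216 (L (X (A (L (R D 9280) 4294967295) (X c (L (R D 29504) 4294967295))) (A (A (L (X (L (X 1024 (L (X (A (A (L (R D 2528) 4294967295) (X c (L (R D 22752) 4294967295))) (S M (L (X 2147483648 (A 1 (X c 1))) N))) (A (L (X (L (X 767 e) N) f) N) (A (L (X (L (X 171 1) N) f) N) (L (X (L (X 86 1) N) e) N)))) N)) N) e) N) (L (X (A (A (L (R D 2560) 4294967295) (X c (L (R D 22784) 4294967295))) (S M (L (X 2147483648 (A 1 (X c 1))) N))) (L (X (L (X 171 a) N) (A (L (X (L (X 767 e) N) f) N) (A (L (X (L (X 171 1) N) f) N) (L (X (L (X 86 1) N) e) N)))) N)) N)) (A (L (X (L (X 1024 (L (X (A (A (L (R D 12896) 4294967295) (X c (L (R D 33120) 4294967295))) (S M (L (X 2147483648 (A 1 (X c 1))) N))) (A (L (X (L (X 767 e) N) f) N) (A (L (X (L (X 171 1) N) f) N) (L (X (L (X 86 1) N) e) N)))) N)) N) e) N) (L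 (X (A (A (L (R D 12992) 4294967295) (X c (L (R D 33216) 4294967295))) (S M (L (X 2147483648 (A 1 (X c 1))) N))) (L (X (L (X 171 a) N) (A (L (X (L (X 767 e) N) f) N) (A (L (X (L (X 171 1) N) f) N) (L (X (L (X 86 1) N) e) N)))) N)) N)))) N)) N) g) N) (L (X (A (L (R D 9536) 4294967295) (X c (L (R D 29760) 4294967295))) (A (L (X (A (L (R D 1984) 4294967295) (X c (L (R D 22208) 4294967295))) (A (L (X (L (X 1024 (L (X (A (A (L (R D 2912) 4294967295) (X c (L (R D 23136) 4294967295))) (S M (L (X 2147483648 (A 1 (X c 1))) N))) (A (L (X (L (X 767 e) N) f) N) (A (L (X (L (X 171 1) N) f) N) (L (X (L (X 86 1) N) e) N)))) N)) N) e) N) (L (X (A (A (L (R D 2944) 4294967295) (X c (L (R D 23168) 4294967295))) (S M (L (X 2147483648 (A 1 (X c 1))) N))) (L (X (L (X 171 a) N) (A (L (X (L (X 767 e) N) f) N) (A (L (X (L (X 171 1) N) f) N) (L (X (L (X 86 1) N) e) N)))) N)) N))) N) (L (X (A (L (R D 2080) 4294967295)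 (X c (L (R D 22304) 4294967295))) (A (L (X (L (X 1024 (L (X (A (A (L (R D 11744) 4294967295) (X c (L (R D 31968) 4294967295))) (S M (L (X 2147483648 (A 1 (X c 1))) N))) (A (L (X (L (X 767 e) N) f) N) (A (L (X (L (X 171 1) N) f) N) (L (X (L (X 86 1) N) e) N)))) N)) N) e) N) (L (X (A (A (L (R D 11840) 4294967295) (X c (L (R D 32064) 4294967295))) (S M (L (X 2147483648 (A 1 (X c 1))) N))) (L (X (L (X 171 a) N) (A (L (X (L (X 767 e) N) f) N) (A (L (X (L (X 171 1) N) f) N) (L (X (L (X 86 1) N) e) N)))) N)) N))) N))) N))))) N))) (S M (L (L (X (L (X (L (X 288230376151711744 (A (L (X (A (L (R D 16640) 4294967295) (X c (L (R D 36864) 4294967295))) (L (X 2 (A (L (X (L (X 767 e) N) f) N) (A (L (X (L (X 171 1) N) f) N) (L (X (L (X 86 1) N) e) N)))) N)) N) (A (L (X (A (L (R D 16672) 4294967295) (X c (L (R D 36896) 4294967295))) (A (L (X (L (X 767 e) N) f) N) (A (L (X (L (X 171 1) N) f) N) (L (X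 (L (X 86 1) N) e) N)))) N) (L (X (A (L (R D 16768) 4294967295) (X c (L (R D 36992) 4294967295))) (L (X 2 (A (L (X (L (X 767 e) N) f) N) (A (L (X (L (X 171 1) N) f) N) (L (X (L (X 86 1) N) e) N)))) N)) N)))) N) e) N) (P g 2)) N) N))), 125, 3, 2, 4, 1⟩,
  ⟨fun A S X L P R M N m a b c d e f g h D => (A (A (L (X (L (X 281474976710656 (L (X (A (L (X (L (X 1024 (A (A (L (R D 13024) 4294967295) (X c (L (R D 33248) 4294967295))) (S M (L (X 2147483648 (A 1 (X c 1))) N)))) N) e) N) (L (X (L (X 171 a) N) (A (A (L (R D 13312) 4294967295) (X c (L (R D 33536) 4294967295))) (S M (L (X 2147483648 (A 1 (X c 1))) N)))) N)) 1) N)) N) (P g 2)) N) (S M (L (A (L (X (L (X (L (X 288230376151711744 (L (X (A (A (L (R D 11008) 4294967295) (X c (L (R D 31232) 4294967295))) (S M (L (X 2147483648 (A 1 (X c 1))) N))) 1) N)) N) e) N) (P g 2)) N) (A (A (L (X (A (L (R D 9376) 4294967295) (X c (L (R D 29600) 4294967295)))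 (A (L (X (A (L (R D 2016) 4294967295) (X c (L (R D 22240) 4294967295))) (L (X (A (L (X (L (X 1024 (A (A (L (R D 2784) 4294967295) (X c (L (R D 23008) 4294967295))) (S M (L (X 2147483648 (A 1 (X c 1))) N)))) N) e) N) (L (X (L (X 171 a) N) (A (A (L (R D 2880) 4294967295) (X c (L (R D 23104) 4294967295))) (S M (L (X 2147483648 (A 1 (X c 1))) N)))) N)) 1) N)) N) (L (X (A (L (R D 2048) 4294967295) (X c (L (R D 22272) 4294967295))) (L (X (A (L (X (L (X 1024 (A (A (L (R D 11360) 4294967295) (X c (L (R D 31584) 4294967295))) (S M (L (X 2147483648 (A 1 (X c 1))) N)))) N) e) N) (L (X (L (X 171 a) N) (A (A (L (R D 11648) 4294967295) (X c (L (R D 31872) 4294967295))) (S M (L (X 2147483648 (A 1 (X c 1))) N)))) N)) 1) N)) N))) N) (A (L (X (L (X 16777216 (L (X (A (L (R D 9248) 4294967295) (X c (L (R D 29472) 4294967295))) (A (L (X (A (L (X (L (X 1024 (A (A (L (R D 2400) 4294967295) (X c (L (R D 22624)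 4294967295))) (S M (L (X 2147483648 (A 1 (X c 1))) N)))) N) e) N) (L (X (L (X 171 a) N) (A (A (L (R D 2496) 4294967295) (X c (L (R D 22720) 4294967295))) (S M (L (X 2147483648 (A 1 (X c 1))) N)))) N)) 1) N) (L (X (A (L (X (L (X 1024 (A (A (L (R D 12512) 4294967295) (X c (L (R D 32736) 4294967295))) (S M (L (X 2147483648 (A 1 (X c 1))) N)))) N) e) N) (L (X (L (X 171 a) N) (A (A (L (R D 12800) 4294967295) (X c (L (R D 33024) 4294967295))) (S M (L (X 2147483648 (A 1 (X c 1))) N)))) N)) 1) N))) N)) N) g) N) (L (X (A (L (R D 9504) 4294967295) (X c (L (R D 29728) 4294967295))) (A (L (X (A (L (R D 1984) 4294967295) (X c (L (R D 22208) 4294967295))) (L (X (A (L (X (L (X 1024 (A (A (L (R D 2784) 4294967295) (X c (L (R D 23008) 4294967295))) (S M (L (X 2147483648 (A 1 (X c 1))) N)))) N) e) N) (L (X (L (X 171 a) N) (A (A (L (R D 2880) 4294967295) (X c (L (R D 23104) 4294967295))) (S M (L (X 2147483648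 (A 1 (X c 1))) N)))) N)) 1) N)) N) (L (X (A (L (R D 2080) 4294967295) (X c (L (R D 22304) 4294967295))) (L (X (A (L (X (L (X 1024 (A (A (L (R D 11360) 4294967295) (X c (L (R D 31584) 4294967295))) (S M (L (X 2147483648 (A 1 (X c 1))) N)))) N) e) N) (L (X (L (X 171 a) N) (A (A (L (R D 11648) 4294967295) (X c (L (R D 31872) 4294967295))) (S M (L (X 2147483648 (A 1 (X c 1))) N)))) N)) 1) N)) N))) N))) (A (L (X (A (L (R D 9408) 4294967295) (X c (L (R D 29632) 4294967295))) (A (L (X (A (L (R D 2016) 4294967295) (X c (L (R D 22240) 4294967295))) (L (X (A (L (X (L (X 1024 (A (A (L (R D 2976) 4294967295) (X c (L (R D 23200) 4294967295))) (S M (L (X 2147483648 (A 1 (X c 1))) N)))) N) e) N) (L (X (L (X 171 a) N) (A (A (L (R D 3072) 4294967295) (X c (L (R D 23296) 4294967295))) (S M (L (X 2147483648 (A 1 (X c 1))) N)))) N)) 1) N)) N) (L (X (A (L (R D 2048) 4294967295) (X c (L (R D 22272) 4294967295)))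 (L (X (A (L (X (L (X 1024 (A (A (L (R D 11936) 4294967295) (X c (L (R D 32160) 4294967295))) (S M (L (X 2147483648 (A 1 (X c 1))) N)))) N) e) N) (L (X (L (X 171 a) N) (A (A (L (R D 12224) 4294967295) (X c (L (R D 32448) 4294967295))) (S M (L (X 2147483648 (A 1 (X c 1))) N)))) N)) 1) N)) N))) N) (A (L (X (L (X 16777216 (L (X (A (L (R D 9280) 4294967295) (X c (L (R D 29504) 4294967295))) (A (L (X (A (L (X (L (X 1024 (A (A (L (R D 2592) 4294967295) (X c (L (R D 22816) 4294967295))) (S M (L (X 2147483648 (A 1 (X c 1))) N)))) N) e) N) (L (X (L (X 171 a) N) (A (A (L (R D 2688) 4294967295) (X c (L (R D 22912) 4294967295))) (S M (L (X 2147483648 (A 1 (X c 1))) N)))) N)) 1) N) (L (X (A (L (X (L (X 1024 (A (A (L (R D 13088) 4294967295) (X c (L (R D 33312) 4294967295))) (S M (L (X 2147483648 (A 1 (X c 1))) N)))) N) e) N) (L (X (L (X 171 a) N) (A (A (L (R D 13376) 4294967295) (X c (L (R D 33600)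 4294967295))) (S M (L (X 2147483648 (A 1 (X c 1))) N)))) N)) 1) N))) N)) N) g) N) (L (X (A (L (R D 9536) 4294967295) (X c (L (R D 29760) 4294967295))) (A (L (X (A (L (R D 1984) 4294967295) (X c (L (R D 22208) 4294967295))) (L (X (A (L (X (L (X 1024 (A (A (L (R D 2976) 4294967295) (X c (L (R D 23200) 4294967295))) (S M (L (X 2147483648 (A 1 (X c 1))) N)))) N) e) N) (L (X (L (X 171 a) N) (A (A (L (R D 3072) 4294967295) (X c (L (R D 23296) 4294967295))) (S M (L (X 2147483648 (A 1 (X c 1))) N)))) N)) 1) N)) N) (L (X (A (L (R D 2080) 4294967295) (X c (L (R D 22304) 4294967295))) (L (X (A (L (X (L (X 1024 (A (A (L (R D 11936) 4294967295) (X c (L (R D 32160) 4294967295))) (S M (L (X 2147483648 (A 1 (X c 1))) N)))) N) e) N) (L (X (L (X 171 a) N) (A (A (L (R D 12224) 4294967295) (X c (L (R D 32448) 4294967295))) (S M (L (X 2147483648 (A 1 (X c 1))) N)))) N)) 1) N)) N))) N))))) N))) (S M (L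 (L (X (L (X (L (X 288230376151711744 (A (L (X (A (L (R D 16640) 4294967295) (X c (L (R D 36864) 4294967295))) (A 0 (S M (L (L (X 12 1) N) N)))) N) (A (L (X (A (L (R D 16704) 4294967295) (X c (L (R D 36928) 4294967295))) 1) N) (L (X (A (L (R D 16768) 4294967295) (X c (L (R D 36992) 4294967295))) (A 0 (S M (L (L (X 12 1) N) N)))) N)))) N) e) N) (P g 2)) N) N))), 114, 2, 1, 4, 1⟩,
  ⟨fun A S X L P R M N m a b c d e f g h D => (A (A (L (X (L (X 281474976710656 (L (X (A (A (L (R D 13120) 4294967295) (X c (L (R D 33344) 4294967295))) (S M (L (X 2147483648 (A 1 (X c 1))) N))) 1) N)) N) (P g 2)) N) (S M (L (A (L (X (L (X 281474976710656 (L (X (A (A (L (R D 11040) 4294967295) (X c (L (R D 31264) 4294967295))) (S M (L (X 2147483648 (A 1 (X c 1))) N))) 1) N)) N) (P g 2)) N) (A (A (L (X (A (L (R D 9376) 4294967295) (X c (L (R D 29600) 4294967295))) (A (L (X (A (L (R D 2016) 4294967295) (X c (L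 (R D 22240) 4294967295))) (L (X (A (A (L (R D 2816) 4294967295) (X c (L (R D 23040) 4294967295))) (S M (L (X 2147483648 (A 1 (X c 1))) N))) 1) N)) N) (L (X (A (L (R D 2048) 4294967295) (X c (L (R D 22272) 4294967295))) (L (X (A (A (L (R D 11456) 4294967295) (X c (L (R D 31680) 4294967295))) (S M (L (X 2147483648 (A 1 (X c 1))) N))) 1) N)) N))) N) (A (L (X (L (X 16777216 (L (X (A (L (R D 9248) 4294967295) (X c (L (R D 29472) 4294967295))) (A (L (X (A (A (L (R D 2432) 4294967295) (X c (L (R D 22656) 4294967295))) (S M (L (X 2147483648 (A 1 (X c 1))) N))) 1) N) (L (X (A (A (L (R D 12608) 4294967295) (X c (L (R D 32832) 4294967295))) (S M (L (X 2147483648 (A 1 (X c 1))) N))) 1) N))) N)) N) g) N) (L (X (A (L (R D 9504) 4294967295) (X c (L (R D 29728) 4294967295))) (A (L (X (A (L (R D 1984) 4294967295) (X c (L (R D 22208) 4294967295))) (L (X (A (A (L (R D 2816) 4294967295) (X c (L (R D 23040)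 4294967295))) (S M (L (X 2147483648 (A 1 (X c 1))) N))) 1) N)) N) (L (X (A (L (R D 2080) 4294967295) (X c (L (R D 22304) 4294967295))) (L (X (A (A (L (R D 11456) 4294967295) (X c (L (R D 31680) 4294967295))) (S M (L (X 2147483648 (A 1 (X c 1))) N))) 1) N)) N))) N))) (A (L (X (A (L (R D 9408) 4294967295) (X c (L (R D 29632) 4294967295))) (A (L (X (A (L (R D 2016) 4294967295) (X c (L (R D 22240) 4294967295))) (L (X (A (A (L (R D 3008) 4294967295) (X c (L (R D 23232) 4294967295))) (S M (L (X 2147483648 (A 1 (X c 1))) N))) 1) N)) N) (L (X (A (L (R D 2048) 4294967295) (X c (L (R D 22272) 4294967295))) (L (X (A (A (L (R D 12032) 4294967295) (X c (L (R D 32256) 4294967295))) (S M (L (X 2147483648 (A 1 (X c 1))) N))) 1) N)) N))) N) (A (L (X (L (X 16777216 (L (X (A (L (R D 9280) 4294967295) (X c (L (R D 29504) 4294967295))) (A (L (X (A (A (L (R D 2624) 4294967295) (X c (L (R D 22848) 4294967295)))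 (S M (L (X 2147483648 (A 1 (X c 1))) N))) 1) N) (L (X (A (A (L (R D 13184) 4294967295) (X c (L (R D 33408) 4294967295))) (S M (L (X 2147483648 (A 1 (X c 1))) N))) 1) N))) N)) N) g) N) (L (X (A (L (R D 9536) 4294967295) (X c (L (R D 29760) 4294967295))) (A (L (X (A (L (R D 1984) 4294967295) (X c (L (R D 22208) 4294967295))) (L (X (A (A (L (R D 3008) 4294967295) (X c (L (R D 23232) 4294967295))) (S M (L (X 2147483648 (A 1 (X c 1))) N))) 1) N)) N) (L (X (A (L (R D 2080) 4294967295) (X c (L (R D 22304) 4294967295))) (L (X (A (A (L (R D 12032) 4294967295) (X c (L (R D 32256) 4294967295))) (S M (L (X 2147483648 (A 1 (X c 1))) N))) 1) N)) N))) N))))) N))) (S M (L (L (X (L (X 281474976710656 (A (L (X (A (L (R D 16672) 4294967295) (X c (L (R D 36896) 4294967295))) (A 0 (S M (L (L (X 12 1) N) N)))) N) (A (L (X (A (L (R D 16736) 4294967295) (X c (L (R D 36960) 4294967295))) (L (X 2 1) N)) N)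 (L (X (A (L (R D 16768) 4294967295) (X c (L (R D 36992) 4294967295))) (A 0 (S M (L (L (X 24 1) N) N)))) N)))) N) (P g 2)) N) N))), 103, 1, 1, 4, 1⟩,
  ⟨fun A S X L P R M N m a b c d e f g h D => (A (A (L (X (L (X 281474976710656 (L (X (A (A (L (R D 13216) 4294967295) (X c (L (R D 33440) 4294967295))) (S M (L (X 2147483648 (A 1 (X c 1))) N))) 1) N)) N) (P g 2)) N) (S M (L (A (L (X (L (X 281474976710656 (L (X (A (A (L (R D 11072) 4294967295) (X c (L (R D 31296) 4294967295))) (S M (L (X 2147483648 (A 1 (X c 1))) N))) 1) N)) N) (P g 2)) N) (A (A (L (X (A (L (R D 9376) 4294967295) (X c (L (R D 29600) 4294967295))) (A (L (X (A (L (R D 2016) 4294967295) (X c (L (R D 22240) 4294967295))) (L (X (A (A (L (R D 2848) 4294967295) (X c (L (R D 23072) 4294967295))) (S M (L (X 2147483648 (A 1 (X c 1))) N))) 1) N)) N) (L (X (A (L (R D 2048) 4294967295) (X c (L (R D 22272) 4294967295))) (L (X (A (A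 (L (R D 11552) 4294967295) (X c (L (R D 31776) 4294967295))) (S M (L (X 2147483648 (A 1 (X c 1))) N))) 1) N)) N))) N) (A (L (X (L (X 16777216 (L (X (A (L (R D 9248) 4294967295) (X c (L (R D 29472) 4294967295))) (A (L (X (A (A (L (R D 2464) 4294967295) (X c (L (R D 22688) 4294967295))) (S M (L (X 2147483648 (A 1 (X c 1))) N))) 1) N) (L (X (A (A (L (R D 12704) 4294967295) (X c (L (R D 32928) 4294967295))) (S M (L (X 2147483648 (A 1 (X c 1))) N))) 1) N))) N)) N) g) N) (L (X (A (L (R D 9504) 4294967295) (X c (L (R D 29728) 4294967295))) (A (L (X (A (L (R D 1984) 4294967295) (X c (L (R D 22208) 4294967295))) (L (X (A (A (L (R D 2848) 4294967295) (X c (L (R D 23072) 4294967295))) (S M (L (X 2147483648 (A 1 (X c 1))) N))) 1) N)) N) (L (X (A (L (R D 2080) 4294967295) (X c (L (R D 22304) 4294967295))) (L (X (A (A (L (R D 11552) 4294967295) (X c (L (R D 31776) 4294967295))) (S M (L (X 2147483648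 (A 1 (X c 1))) N))) 1) N)) N))) N))) (A (L (X (A (L (R D 9408) 4294967295) (X c (L (R D 29632) 4294967295))) (A (L (X (A (L (R D 2016) 4294967295) (X c (L (R D 22240) 4294967295))) (L (X (A (A (L (R D 3040) 4294967295) (X c (L (R D 23264) 4294967295))) (S M (L (X 2147483648 (A 1 (X c 1))) N))) 1) N)) N) (L (X (A (L (R D 2048) 4294967295) (X c (L (R D 22272) 4294967295))) (L (X (A (A (L (R D 12128) 4294967295) (X c (L (R D 32352) 4294967295))) (S M (L (X 2147483648 (A 1 (X c 1))) N))) 1) N)) N))) N) (A (L (X (L (X 16777216 (L (X (A (L (R D 9280) 4294967295) (X c (L (R D 29504) 4294967295))) (A (L (X (A (A (L (R D 2656) 4294967295) (X c (L (R D 22880) 4294967295))) (S M (L (X 2147483648 (A 1 (X c 1))) N))) 1) N) (L (X (A (A (L (R D 13280) 4294967295) (X c (L (R D 33504) 4294967295))) (S M (L (X 2147483648 (A 1 (X c 1))) N))) 1) N))) N)) N) g) N) (L (X (A (L (R D 9536) 4294967295) (X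 c (L (R D 29760) 4294967295))) (A (L (X (A (L (R D 1984) 4294967295) (X c (L (R D 22208) 4294967295))) (L (X (A (A (L (R D 3040) 4294967295) (X c (L (R D 23264) 4294967295))) (S M (L (X 2147483648 (A 1 (X c 1))) N))) 1) N)) N) (L (X (A (L (R D 2080) 4294967295) (X c (L (R D 22304) 4294967295))) (L (X (A (A (L (R D 12128) 4294967295) (X c (L (R D 32352) 4294967295))) (S M (L (X 2147483648 (A 1 (X c 1))) N))) 1) N)) N))) N))))) N))) (S M (L (L (X (L (X 281474976710656 (A (L (X (A (L (R D 16704) 4294967295) (X c (L (R D 36928) 4294967295))) (A 0 (S M (L (L (X 12 1) N) N)))) N) (A (L (X (A (L (R D 16736) 4294967295) (X c (L (R D 36960) 4294967295))) (A 0 (S M (L (L (X 12 1) N) N)))) N) (L (X (A (L (R D 16768) 4294967295) (X c (L (R D 36992) 4294967295))) (L (X 144 1) N)) N)))) N) (P g 2)) N) N))), 103, 1, 1, 4, 1⟩,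
  ⟨fun A S X L P R M N m a b c d e f g h D => (A (A (L (X (L (X 1024 (L (X (A (A (L (R D 11680) 4294967295) (X c (L (R D 31904) 4294967295))) (S M (L (X 2147483648 (A 1 (X c 1))) N))) (A (L (X (L (X 767 e) N) f) N) (A (L (X (L (X 171 1) N) f) N) (L (X (L (X 86 1) N) e) N)))) N)) N) e) N) (L (X (A (A (L (R D 11776) 4294967295) (X c (L (R D 32000) 4294967295))) (S M (L (X 2147483648 (A 1 (X c 1))) N))) (L (X (L (X 171 a) N) (A (L (X (L (X 767 e) N) f) N) (A (L (X (L (X 171 1) N) f) N) (L (X (L (X 86 1) N) e) N)))) N)) N)) (S M (L (L (X (L (X 1024 (A (L (X (A (L (R D 16960) 4294967295) (X c (L (R D 37184) 4294967295))) (L (X 2 (A (L (X (L (X 767 e) N) f) N) (A (L (X (L (X 171 1) N) f) N) (L (X (L (X 86 1) N) e) N)))) N)) N) (A (L (X (A (L (R D 16992) 4294967295) (X c (L (R D 37216) 4294967295))) (A (L (X (L (X 767 e) N) f) N) (A (L (X (L (X 171 1) N) f) N) (L (X (L (X 86 1) N) e) N))))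 N) (L (X (A (L (R D 17088) 4294967295) (X c (L (R D 37312) 4294967295))) (L (X 2 (A (L (X (L (X 767 e) N) f) N) (A (L (X (L (X 171 1) N) f) N) (L (X (L (X 86 1) N) e) N)))) N)) N)))) N) e) N) N))), 59, 3, 2, 2, 1⟩,
  ⟨fun A S X L P R M N m a b c d e f g h D => (A (L (X (A (L (X (L (X 1024 (A (A (L (R D 11872) 4294967295) (X c (L (R D 32096) 4294967295))) (S M (L (X 2147483648 (A 1 (X c 1))) N)))) N) e) N) (L (X (L (X 171 a) N) (A (A (L (R D 12160) 4294967295) (X c (L (R D 32384) 4294967295))) (S M (L (X 2147483648 (A 1 (X c 1))) N)))) N)) 1) N) (S M (L (L (X (L (X 1024 (A (L (X (A (L (R D 16960) 4294967295) (X c (L (R D 37184) 4294967295))) (A 0 (S M (L (L (X 12 1) N) N)))) N) (A (L (X (A (L (R D 17024) 4294967295) (X c (L (R D 37248) 4294967295))) 1) N) (L (X (A (L (R D 17088) 4294967295) (X c (L (R D 37312) 4294967295))) (A 0 (S M (L (L (X 12 1) N) N)))) N)))) N) e) N) N))), 49,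 2, 1, 2, 1⟩,
  ⟨fun A S X L P R M N m a b c d e f g h D => (A (L (X (A (A (L (R D 11968) 4294967295) (X c (L (R D 32192) 4294967295))) (S M (L (X 2147483648 (A 1 (X c 1))) N))) 1) N) (S M (L (A (L (X (A (L (R D 16992) 4294967295) (X c (L (R D 37216) 4294967295))) (A 0 (S M (L (L (X 12 1) N) N)))) N) (A (L (X (A (L (R D 17056) 4294967295) (X c (L (R D 37280) 4294967295))) (L (X 2 1) N)) N) (L (X (A (L (R D 17088) 4294967295) (X c (L (R D 37312) 4294967295))) (A 0 (S M (L (L (X 24 1) N) N)))) N))) N))), 39, 1, 1, 2, 1⟩,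
  ⟨fun A S X L P R M N m a b c d e f g h D => (A (L (X (A (A (L (R D 12064) 4294967295) (X c (L (R D 32288) 4294967295))) (S M (L (X 2147483648 (A 1 (X c 1))) N))) 1) N) (S M (L (A (L (X (A (L (R D 17024) 4294967295) (X c (L (R D 37248) 4294967295))) (A 0 (S M (L (L (X 12 1) N) N)))) N) (A (L (X (A (L (R D 17056) 4294967295) (X c (L (R D 37280) 4294967295))) (A 0 (S M (L (L (X 12 1) N) N)))) N) (L (X (A (L (R D 17088) 4294967295) (X c (L (R D 37312) 4294967295))) (L (X 144 1) N)) N))) N))), 41, 1, 1, 2, 1⟩,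
  ⟨fun A S X L P R M N m a b c d e f g h D => (A (A (L (X (L (X 1024 (L (X (A (A (L (R D 12832) 4294967295) (X c (L (R D 33056) 4294967295))) (S M (L (X 2147483648 (A 1 (X c 1))) N))) (A (L (X (L (X 767 e) N) f) N) (A (L (X (L (X 171 1) N) f) N) (L (X (L (X 86 1) N) e) N)))) N)) N) e) N) (L (X (A (A (L (R D 12928) 4294967295) (X c (L (R D 33152) 4294967295))) (S M (L (X 2147483648 (A 1 (X c 1))) N))) (L (X (L (X 171 a) N) (A (L (X (L (X 767 e) N) f) N) (A (L (X (L (X 171 1) N) f) N) (L (X (L (X 86 1) N) e) N)))) N)) N)) (S M (L (L (X (L (X 1024 (A (L (X (A (L (R D 17280) 4294967295) (X c (L (R D 37504) 4294967295))) (L (X 2 (A (L (X (L (X 767 e) N) f) N) (A (L (X (L (X 171 1) N) f) N) (L (X (L (X 86 1) N) e) N)))) N)) N) (A (L (X (A (L (R D 17312) 4294967295) (X c (L (R D 37536) 4294967295))) (A (L (X (L (X 767 e) N) f) N) (A (L (X (L (X 171 1) N) f) N) (L (X (L (X 86 1) N) e) N))))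 N) (L (X (A (L (R D 17408) 4294967295) (X c (L (R D 37632) 4294967295))) (L (X 2 (A (L (X (L (X 767 e) N) f) N) (A (L (X (L (X 171 1) N) f) N) (L (X (L (X 86 1) N) e) N)))) N)) N)))) N) e) N) N))), 59, 3, 2, 2, 1⟩,
  ⟨fun A S X L P R M N m a b c d e f g h D => (A (L (X (A (L (X (L (X 1024 (A (A (L (R D 13024) 4294967295) (X c (L (R D 33248) 4294967295))) (S M (L (X 2147483648 (A 1 (X c 1))) N)))) N) e) N) (L (X (L (X 171 a) N) (A (A (L (R D 13312) 4294967295) (X c (L (R D 33536) 4294967295))) (S M (L (X 2147483648 (A 1 (X c 1))) N)))) N)) 1) N) (S M (L (L (X (L (X 1024 (A (L (X (A (L (R D 17280) 4294967295) (X c (L (R D 37504) 4294967295))) (A 0 (S M (L (L (X 12 1) N) N)))) N) (A (L (X (A (L (R D 17344) 4294967295) (X c (L (R D 37568) 4294967295))) 1) N) (L (X (A (L (R D 17408) 4294967295) (X c (L (R D 37632) 4294967295))) (A 0 (S M (L (L (X 12 1) N) N)))) N)))) N) e) N) N))), 49,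 2, 1, 2, 1⟩,
  ⟨fun A S X L P R M N m a b c d e f g h D => (A (L (X (A (A (L (R D 13120) 4294967295) (X c (L (R D 33344) 4294967295))) (S M (L (X 2147483648 (A 1 (X c 1))) N))) 1) N) (S M (L (A (L (X (A (L (R D 17312) 4294967295) (X c (L (R D 37536) 4294967295))) (A 0 (S M (L (L (X 12 1) N) N)))) N) (A (L (X (A (L (R D 17376) 4294967295) (X c (L (R D 37600) 4294967295))) (L (X 2 1) N)) N) (L (X (A (L (R D 17408) 4294967295) (X c (L (R D 37632) 4294967295))) (A 0 (S M (L (L (X 24 1) N) N)))) N))) N))), 39, 1, 1, 2, 1⟩,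
  ⟨fun A S X L P R M N m a b c d e f g h D => (A (L (X (A (A (L (R D 13216) 4294967295) (X c (L (R D 33440) 4294967295))) (S M (L (X 2147483648 (A 1 (X c 1))) N))) 1) N) (S M (L (A (L (X (A (L (R D 17344) 4294967295) (X c (L (R D 37568) 4294967295))) (A 0 (S M (L (L (X 12 1) N) N)))) N) (A (L (X (A (L (R D 17376) 4294967295) (X c (L (R D 37600) 4294967295))) (A 0 (S M (L (L (X 12 1) N) N)))) N) (L (X (A (L (R D 17408) 4294967295) (X c (L (R D 37632) 4294967295))) (L (X 144 1) N)) N))) N))), 41, 1, 1, 2, 1⟩,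
  ⟨fun A S X L P R M N m a b c d e f g h D => (A (A (L (X (L (X (L (X 1048576 (A (L (R D 2112) 4294967295) (X c (L (R D 22336) 4294967295)))) N) (P e 2)) N) f) N) (S M (L (A (L (X (L (X 1024 (L (X (A (A (L (R D 4640) 4294967295) (X c (L (R D 24864) 4294967295))) (S M (L (X 2147483648 (A 1 (X c 1))) N))) (A (L (X (L (X 767 e) N) f) N) (A (L (X (L (X 171 1) N) f) N) (L (X (L (X 86 1) N) e) N)))) N)) N) e) N) (L (X (A (A (L (R D 4736) 4294967295) (X c (L (R D 24960) 4294967295))) (S M (L (X 2147483648 (A 1 (X c 1))) N))) (L (X (L (X 171 a) N) (A (L (X (L (X 767 e) N) f) N) (A (L (X (L (X 171 1) N) f) N) (L (X (L (X 86 1) N) e) N)))) N)) N)) N))) (S M (L (L (X (L (X 1024 (A (L (X (A (L (R D 19520) 4294967295) (X c (L (R D 39744) 4294967295))) (L (X 2 (A (L (X (L (X 767 e) N) f) N) (A (L (X (L (X 171 1) N) f) N) (L (X (L (X 86 1) N) e) N)))) N)) N) (A (L (X (A (L (R D 19552) 4294967295)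 (X c (L (R D 39776) 4294967295))) (A (L (X (L (X 767 e) N) f) N) (A (L (X (L (X 171 1) N) f) N) (L (X (L (X 86 1) N) e) N)))) N) (L (X (A (L (R D 19648) 4294967295) (X c (L (R D 39872) 4294967295))) (L (X 2 (A (L (X (L (X 767 e) N) f) N) (A (L (X (L (X 171 1) N) f) N) (L (X (L (X 86 1) N) e) N)))) N)) N)))) N) e) N) N))), 59, 3, 2, 2, 1⟩,
  ⟨fun A S X L P R M N m a b c d e f g h D => (A (A (L (X (L (X 0 e) N) g) N) (S M (L (L (X (A (L (X (L (X 1024 (A (A (L (R D 4832) 4294967295) (X c (L (R D 25056) 4294967295))) (S M (L (X 2147483648 (A 1 (X c 1))) N)))) N) e) N) (L (X (L (X 171 a) N) (A (A (L (R D 5120) 4294967295) (X c (L (R D 25344) 4294967295))) (S M (L (X 2147483648 (A 1 (X c 1))) N)))) N)) 1) N) N))) (S M (L (L (X (L (X 1024 (A (L (X (A (L (R D 19520) 4294967295) (X c (L (R D 39744) 4294967295))) (A 0 (S M (L (L (X 12 1) N) N)))) N) (A (L (X (A (L (R D 19584) 4294967295) (X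 c (L (R D 39808) 4294967295))) 1) N) (L (X (A (L (R D 19648) 4294967295) (X c (L (R D 39872) 4294967295))) (A 0 (S M (L (L (X 12 1) N) N)))) N)))) N) e) N) N))), 49, 2, 1, 2, 1⟩,
  ⟨fun A S X L P R M N m a b c d e f g h D => (A (A (L (X 0 g) N) (S M (L (L (X (A (A (L (R D 4928) 4294967295) (X c (L (R D 25152) 4294967295))) (S M (L (X 2147483648 (A 1 (X c 1))) N))) 1) N) N))) (S M (L (A (L (X (A (L (R D 19552) 4294967295) (X c (L (R D 39776) 4294967295))) (A 0 (S M (L (L (X 12 1) N) N)))) N) (A (L (X (A (L (R D 19616) 4294967295) (X c (L (R D 39840) 4294967295))) (L (X 2 1) N)) N) (L (X (A (L (R D 19648) 4294967295) (X c (L (R D 39872) 4294967295))) (A 0 (S M (L (L (X 24 1) N) N)))) N))) N))), 39, 1, 1, 2, 1⟩,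
  ⟨fun A S X L P R M N m a b c d e f g h D => (A (A (L (X 0 g) N) (S M (L (L (X (A (A (L (R D 5024) 4294967295) (X c (L (R D 25248) 4294967295))) (S M (L (X 2147483648 (A 1 (X c 1))) N))) 1) N) N))) (S M (L (A (L (X (A (L (R D 19584) 4294967295) (X c (L (R D 39808) 4294967295))) (A 0 (S M (L (L (X 12 1) N) N)))) N) (A (L (X (A (L (R D 19616) 4294967295) (X c (L (R D 39840) 4294967295))) (A 0 (S M (L (L (X 12 1) N) N)))) N) (L (X (A (L (R D 19648) 4294967295) (X c (L (R D 39872) 4294967295))) (L (X 144 1) N)) N))) N))), 41, 1, 1, 2, 1⟩,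
  ⟨fun A S X L P R M N m a b c d e f g h D => (A (A (L (X (L (X (L (X 1048576 (A (L (R D 2144) 4294967295) (X c (L (R D 22368) 4294967295)))) N) (P e 2)) N) f) N) (S M (L (A (L (X (L (X 1024 (L (X (A (A (L (R D 11744) 4294967295) (X c (L (R D 31968) 4294967295))) (S M (L (X 2147483648 (A 1 (X c 1))) N))) (A (L (X (L (X 767 e) N) f) N) (A (L (X (L (X 171 1) N) f) N) (L (X (L (X 86 1) N) e) N)))) N)) N) e) N) (L (X (A (A (L (R D 11840) 4294967295) (X c (L (R D 32064) 4294967295))) (S M (L (X 2147483648 (A 1 (X c 1))) N))) (L (X (L (X 171 a) N) (A (L (X (L (X 767 e) N) f) N) (A (L (X (L (X 171 1) N) f) N) (L (X (L (X 86 1) N) e) N)))) N)) N)) N))) (S M (L (L (X (L (X 1024 (A (L (X (A (L (R D 19680) 4294967295) (X c (L (R D 39904) 4294967295))) (L (X 2 (A (L (X (L (X 767 e) N) f) N) (A (L (X (L (X 171 1) N) f) N) (L (X (L (X 86 1) N) e) N)))) N)) N) (A (L (X (A (L (R D 19712) 4294967295)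 (X c (L (R D 39936) 4294967295))) (A (L (X (L (X 767 e) N) f) N) (A (L (X (L (X 171 1) N) f) N) (L (X (L (X 86 1) N) e) N)))) N) (L (X (A (L (R D 19808) 4294967295) (X c (L (R D 40032) 4294967295))) (L (X 2 (A (L (X (L (X 767 e) N) f) N) (A (L (X (L (X 171 1) N) f) N) (L (X (L (X 86 1) N) e) N)))) N)) N)))) N) e) N) N))), 59, 3, 2, 2, 1⟩,
  ⟨fun A S X L P R M N m a b c d e f g h D => (A (A (L (X (L (X 0 e) N) g) N) (S M (L (L (X (A (L (X (L (X 1024 (A (A (L (R D 11936) 4294967295) (X c (L (R D 32160) 4294967295))) (S M (L (X 2147483648 (A 1 (X c 1))) N)))) N) e) N) (L (X (L (X 171 a) N) (A (A (L (R D 12224) 4294967295) (X c (L (R D 32448) 4294967295))) (S M (L (X 2147483648 (A 1 (X c 1))) N)))) N)) 1) N) N))) (S M (L (L (X (L (X 1024 (A (L (X (A (L (R D 19680) 4294967295) (X c (L (R D 39904) 4294967295))) (A 0 (S M (L (L (X 12 1) N) N)))) N) (A (L (X (A (L (R D 19744) 4294967295) (X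 c (L (R D 39968) 4294967295))) 1) N) (L (X (A (L (R D 19808) 4294967295) (X c (L (R D 40032) 4294967295))) (A 0 (S M (L (L (X 12 1) N) N)))) N)))) N) e) N) N))), 49, 2, 1, 2, 1⟩,
  ⟨fun A S X L P R M N m a b c d e f g h D => (A (A (L (X 0 g) N) (S M (L (L (X (A (A (L (R D 12032) 4294967295) (X c (L (R D 32256) 4294967295))) (S M (L (X 2147483648 (A 1 (X c 1))) N))) 1) N) N))) (S M (L (A (L (X (A (L (R D 19712) 4294967295) (X c (L (R D 39936) 4294967295))) (A 0 (S M (L (L (X 12 1) N) N)))) N) (A (L (X (A (L (R D 19776) 4294967295) (X c (L (R D 40000) 4294967295))) (L (X 2 1) N)) N) (L (X (A (L (R D 19808) 4294967295) (X c (L (R D 40032) 4294967295))) (A 0 (S M (L (L (X 24 1) N) N)))) N))) N))), 39, 1, 1, 2, 1⟩,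
  ⟨fun A S X L P R M N m a b c d e f g h D => (A (A (L (X 0 g) N) (S M (L (L (X (A (A (L (R D 12128) 4294967295) (X c (L (R D 32352) 4294967295))) (S M (L (X 2147483648 (A 1 (X c 1))) N))) 1) N) N))) (S M (L (A (L (X (A (L (R D 19744) 4294967295) (X c (L (R D 39968) 4294967295))) (A 0 (S M (L (L (X 12 1) N) N)))) N) (A (L (X (A (L (R D 19776) 4294967295) (X c (L (R D 40000) 4294967295))) (A 0 (S M (L (L (X 12 1) N) N)))) N) (L (X (A (L (R D 19808) 4294967295) (X c (L (R D 40032) 4294967295))) (L (X 144 1) N)) N))) N))), 41, 1, 1, 2, 1⟩,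
  ⟨fun A S X L P R M N m a b c d e f g h D => (A (A (L (X (L (X (L (X (L (X 1048576 (L (R D 2304) 4294967295)) N) (P e 2)) N) f) N) g) N) (S M (L (A (L (X (L (X 1024 (L (X (A (A (L (R D 2912) 4294967295) (X c (L (R D 23136) 4294967295))) (S M (L (X 2147483648 (A 1 (X c 1))) N))) (A (L (X (L (X 767 e) N) f) N) (A (L (X (L (X 171 1) N) f) N) (L (X (L (X 86 1) N) e) N)))) N)) N) e) N) (L (X (A (A (L (R D 2944) 4294967295) (X c (L (R D 23168) 4294967295))) (S M (L (X 2147483648 (A 1 (X c 1))) N))) (L (X (L (X 171 a) N) (A (L (X (L (X 767 e) N) f) N) (A (L (X (L (X 171 1) N) f) N) (L (X (L (X 86 1) N) e) N)))) N)) N)) N))) (S M (L (L (X (L (X 1024 (A (L (X (A (L (R D 19840) 4294967295) (X c (L (R D 40064) 4294967295))) (L (X 2 (A (L (X (L (X 767 e) N) f) N) (A (L (X (L (X 171 1) N) f) N) (L (X (L (X 86 1) N) e) N)))) N)) N) (A (L (X (A (L (R D 19872) 4294967295) (X c (L (R D 40096) 4294967295)))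 (A (L (X (L (X 767 e) N) f) N) (A (L (X (L (X 171 1) N) f) N) (L (X (L (X 86 1) N) e) N)))) N) (L (X (A (L (R D 19968) 4294967295) (X c (L (R D 40192) 4294967295))) (L (X 2 (A (L (X (L (X 767 e) N) f) N) (A (L (X (L (X 171 1) N) f) N) (L (X (L (X 86 1) N) e) N)))) N)) N)))) N) e) N) N))), 59, 3, 2, 2, 1⟩,
  ⟨fun A S X L P R M N m a b c d e f g h D => (A (A (L (X (L (X 0 e) N) g) N) (S M (L (L (X (A (L (X (L (X 1024 (A (A (L (R D 2976) 4294967295) (X c (L (R D 23200) 4294967295))) (S M (L (X 2147483648 (A 1 (X c 1))) N)))) N) e) N) (L (X (L (X 171 a) N) (A (A (L (R D 3072) 4294967295) (X c (L (R D 23296) 4294967295))) (S M (L (X 2147483648 (A 1 (X c 1))) N)))) N)) 1) N) N))) (S M (L (L (X (L (X 1024 (A (L (X (A (L (R D 19840) 4294967295) (X c (L (R D 40064) 4294967295))) (A 0 (S M (L (L (X 12 1) N) N)))) N) (A (L (X (A (L (R D 19904) 4294967295) (X c (L (R D 40128) 4294967295))) 1)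 N) (L (X (A (L (R D 19968) 4294967295) (X c (L (R D 40192) 4294967295))) (A 0 (S M (L (L (X 12 1) N) N)))) N)))) N) e) N) N))), 49, 2, 1, 2, 1⟩,
  ⟨fun A S X L P R M N m a b c d e f g h D => (A (A (L (X 0 g) N) (S M (L (L (X (A (A (L (R D 3008) 4294967295) (X c (L (R D 23232) 4294967295))) (S M (L (X 2147483648 (A 1 (X c 1))) N))) 1) N) N))) (S M (L (A (L (X (A (L (R D 19872) 4294967295) (X c (L (R D 40096) 4294967295))) (A 0 (S M (L (L (X 12 1) N) N)))) N) (A (L (X (A (L (R D 19936) 4294967295) (X c (L (R D 40160) 4294967295))) (L (X 2 1) N)) N) (L (X (A (L (R D 19968) 4294967295) (X c (L (R D 40192) 4294967295))) (A 0 (S M (L (L (X 24 1) N) N)))) N))) N))), 39, 1, 1, 2, 1⟩,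
  ⟨fun A S X L P R M N m a b c d e f g h D => (A (A (L (X 0 g) N) (S M (L (L (X (A (A (L (R D 3040) 4294967295) (X c (L (R D 23264) 4294967295))) (S M (L (X 2147483648 (A 1 (X c 1))) N))) 1) N) N))) (S M (L (A (L (X (A (L (R D 19904) 4294967295) (X c (L (R D 40128) 4294967295))) (A 0 (S M (L (L (X 12 1) N) N)))) N) (A (L (X (A (L (R D 19936) 4294967295) (X c (L (R D 40160) 4294967295))) (A 0 (S M (L (L (X 12 1) N) N)))) N) (L (X (A (L (R D 19968) 4294967295) (X c (L (R D 40192) 4294967295))) (L (X 144 1) N)) N))) N))), 41, 1, 1, 2, 1⟩,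
  ⟨fun A S X L P R M N m a b c d e f g h D => (A (A (L (X 1024 (A (L (X 1 (A (L (R D 224) 4294967295) (X a (A (L (R D 256) 4294967295) (X a (L (R D 288) 4294967295)))))) N) (L (X c (A (L (R D 20448) 4294967295) (X a (A (L (R D 20480) 4294967295) (X a (L (R D 20512) 4294967295)))))) N))) N) (S M (L (L (X (L (X (A (A (L (R D 1088) 4294967295) (X c (L (R D 21312) 4294967295))) (S M (L (X 2147483648 (A 1 (X c 1))) N))) (A (L (X 853 e) N) (L (X 171 1) N))) N) e) N) N))) (S M (L (L (X (A (L (X (A (L (R D 7872) 4294967295) (X c (L (R D 28096) 4294967295))) (L (X 2 (A (L (X 853 e) N) (L (X 171 1) N))) N)) N) (A (L (X (A (L (R D 7904) 4294967295) (X c (L (R D 28128) 4294967295))) (A (L (X 853 e) N) (L (X 171 1) N))) N) (L (X (A (L (R D 8000) 4294967295) (X c (L (R D 28224) 4294967295))) (L (X 2 (A (L (X 853 e) N) (L (X 171 1) N))) N)) N))) e) N) N))), 48, 3, 1, 2, 1⟩,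
  ⟨fun A S X L P R M N m a b c d e f g h D => (A (A (L (X 0 g) N) (S M (L (L (X (A (A (L (R D 1120) 4294967295) (X c (L (R D 21344) 4294967295))) (S M (L (X 2147483648 (A 1 (X c 1))) N))) 1) N) N))) (S M (L (A (L (X (A (L (R D 7872) 4294967295) (X c (L (R D 28096) 4294967295))) (A 0 (S M (L (L (X 12 1) N) N)))) N) (A (L (X (A (L (R D 7936) 4294967295) (X c (L (R D 28160) 4294967295))) 1) N) (L (X (A (L (R D 8000) 4294967295) (X c (L (R D 28224) 4294967295))) (A 0 (S M (L (L (X 12 1) N) N)))) N))) N))), 38, 1, 1, 2, 1⟩,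
  ⟨fun A S X L P R M N m a b c d e f g h D => (A (A (L (X 0 g) N) (S M (L (L (X (A (A (L (R D 1152) 4294967295) (X c (L (R D 21376) 4294967295))) (S M (L (X 2147483648 (A 1 (X c 1))) N))) 1) N) N))) (S M (L (A (L (X (A (L (R D 7904) 4294967295) (X c (L (R D 28128) 4294967295))) (A 0 (S M (L (L (X 12 1) N) N)))) N) (A (L (X (A (L (R D 7968) 4294967295) (X c (L (R D 28192) 4294967295))) (L (X 2 1) N)) N) (L (X (A (L (R D 8000) 4294967295) (X c (L (R D 28224) 4294967295))) (A 0 (S M (L (L (X 24 1) N) N)))) N))) N))), 39, 1, 1, 2, 1⟩,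
  ⟨fun A S X L P R M N m a b c d e f g h D => (A (A (L (X 0 g) N) (S M (L (L (X (A (A (L (R D 1184) 4294967295) (X c (L (R D 21408) 4294967295))) (S M (L (X 2147483648 (A 1 (X c 1))) N))) 1) N) N))) (S M (L (A (L (X (A (L (R D 7936) 4294967295) (X c (L (R D 28160) 4294967295))) (A 0 (S M (L (L (X 12 1) N) N)))) N) (A (L (X (A (L (R D 7968) 4294967295) (X c (L (R D 28192) 4294967295))) (A 0 (S M (L (L (X 12 1) N) N)))) N) (L (X (A (L (R D 8000) 4294967295) (X c (L (R D 28224) 4294967295))) (L (X 144 1) N)) N))) N))), 41, 1, 1, 2, 1⟩,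
  ⟨fun A S X L P R M N m a b c d e f g h D => (A (A (L (X (L (X 1024 (L (X (A (A (L (R D 3104) 4294967295) (X c (L (R D 23328) 4294967295))) (S M (L (X 2147483648 (A 1 (X c 1))) N))) (A (L (X 853 e) N) (L (X 171 1) N))) N)) N) e) N) (L (X (A (A (L (R D 3136) 4294967295) (X c (L (R D 23360) 4294967295))) (S M (L (X 2147483648 (A 1 (X c 1))) N))) (L (X (L (X 171 a) N) (A (L (X 853 e) N) (L (X 171 1) N))) N)) N)) (S M (L (L (X (L (X 1024 (A (L (X (A (L (R D 8032) 4294967295) (X c (L (R D 28256) 4294967295))) (L (X 2 (A (L (X 853 e) N) (L (X 171 1) N))) N)) N) (A (L (X (A (L (R D 8064) 4294967295) (X c (L (R D 28288) 4294967295))) (A (L (X 853 e) N) (L (X 171 1) N))) N) (L (X (A (L (R D 8160) 4294967295) (X c (L (R D 28384) 4294967295))) (L (X 2 (A (L (X 853 e) N) (L (X 171 1) N))) N)) N)))) N) e) N) N))), 58, 3, 1, 2, 1⟩,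
  ⟨fun A S X L P R M N m a b c d e f g h D => (A (L (X (A (L (X (L (X 1024 (A (A (L (R D 3168) 4294967295) (X c (L (R D 23392) 4294967295))) (S M (L (X 2147483648 (A 1 (X c 1))) N)))) N) e) N) (L (X (L (X 171 a) N) (A (A (L (R D 3264) 4294967295) (X c (L (R D 23488) 4294967295))) (S M (L (X 2147483648 (A 1 (X c 1))) N)))) N)) 1) N) (S M (L (L (X (L (X 1024 (A (L (X (A (L (R D 8032) 4294967295) (X c (L (R D 28256) 4294967295))) (A 0 (S M (L (L (X 12 1) N) N)))) N) (A (L (X (A (L (R D 8096) 4294967295) (X c (L (R D 28320) 4294967295))) 1) N) (L (X (A (L (R D 8160) 4294967295) (X c (L (R D 28384) 4294967295))) (A 0 (S M (L (L (X 12 1) N) N)))) N)))) N) e) N) N))), 49, 2, 1, 2, 1⟩]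

end Pool.Agent.RZ.RCO.SBrL
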