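import Pool.Agent.RZ.RCO.Gg9
import Pool.Agent.RZ.RCO.SAsdE_2
import Pool.Agent.RZ.RCO.SBs18K_2
import Pool.Agent.RZ.RCO.SBs18R_2
import Pool.Agent.RZ.RCO.SCr

/-! The tables of a cell (MP_73ccd0_lc). -/

set_option autoImplicit false
set_option maxRecDepth 100000

namespace Pool.Agent.RZ.RCO.SCs18

open Sg

def a : ℕ → ℕ := fun l => match l with | 0 => 0 | 1 => 3 | 2 => 6 | 3 => 9 | 4 => 12 | 5 => 15 | 6 => 18 | 7 => 21 | _ => 24
def K : ℕ → ℕ := fun l => match l with | 0 => 0 | 1 => SBs18K1.D | 2 => SBs18K2.D | 3 => SBs18K3.D | 4 => SBs18K4.D | 5 => SBs18K5.D | 6 => SBs18K6.D | 7 => SBs18K7.D | _ => SBs18K8.D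
def R : ℕ → ℕ := fun l => match l with | 0 => 0 | 1 => SBs18R1.D | 2 => SBs18R2.D | 3 => SBs18R3.D | 4 => SBs18R4.D | 5 => SBs18R5.D | 6 => SBs18R6.D | 7 => SBs18R7.D | _ => SBs18R8.D

/-- the data of the cell -/
def c : Cdc := ⟨SAs18.D, 24, 8, a, K, R⟩

theorem bK1 : SC.Fs.bK SBs18K1.D 3 SAs18.D = true := by decide +kernel
theorem bK2 : SC.Fs.bK SBs18K2.D 6 SAs18.D = true := by decide +kernel
theorem bK3 : SC.Fs.bK SBs18K3.D 9 SAs18.D = true := by decide +kernel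
theorem bK4 : SC.Fs.bK SBs18K4.D 12 SAs18.D = true := by decide +kernel
theorem bK5 : SC.Fs.bK SBs18K5.D 15 SAs18.D = true := by decide +kernel
theorem bK6 : SC.Fs.bK SBs18K6.D 18 SAs18.D = true := by decide +kernel
theorem bK7 : SC.Fs.bK SBs18K7.D 21 SAs18.D = true := by decide +kernel
theorem bK8 : SC.Fs.bK SBs18K8.D 24 SAs18.D = true := by decide +kernel
theorem bN1 : SC.Fs.bN SBs18K1.D 3 SBs18K2.D 6 = true := by decide +kernel
theorem bN2 : SC.Fs.bN SBs18K2.D 6 SBs18K3.D 9 = true := by decide +kernel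
theorem bN3 : SC.Fs.bN SBs18K3.D 9 SBs18K4.D 12 = true := by decide +kernel
theorem bN4 : SC.Fs.bN SBs18K4.D 12 SBs18K5.D 15 = true := by decide +kernel
theorem bN5 : SC.Fs.bN SBs18K5.D 15 SBs18K6.D 18 = true := by decide +kernel
theorem bN6 : SC.Fs.bN SBs18K6.D 18 SBs18K7.D 21 = true := by decide +kernel
theorem bN7 : SC.Fs.bN SBs18K7.D 21 SBs18K8.D 24 = true := by decide +kernel
theorem bR0 : SC.Fs.bR SBs18R1.D 3 SAs18.D 0 = true := by decide +kernel
theorem bR1 : SC.Fs.bR SBs18R2.D 6 SAs18.D 3 = true := by decide +kernel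
theorem bR2 : SC.Fs.bR SBs18R3.D 9 SAs18.D 6 = true := by decide +kernel
theorem bR3 : SC.Fs.bR SBs18R4.D 12 SAs18.D 9 = true := by decide +kernel
theorem bR4 : SC.Fs.bR SBs18R5.D 15 SAs18.D 12 = true := by decide +kernel
theorem bR5 : SC.Fs.bR SBs18R6.D 18 SAs18.D 15 = true := by decide +kernel
theorem bR6 : SC.Fs.bR SBs18R7.D 21 SAs18.D 18 = true := by decide +kernel
theorem bR7 : SC.Fs.bR SBs18R8.D 24 SAs18.D 21 = true := by decide +kernel
theorem mo : SC.Fs.X.moD SBs18K1.D 3 = true := by decide +kernel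

theorem sx : ∀ j < 24, SC.Fs.x.sheet.At SAs18.D SC.Fs.x.R j := fun j hj => Sheet.At.left (SAs18.rowsSASL j hj)

/-- **the checks of the data** -/
theorem dat : SC.Fs.Dat c where
  hm := Tp12.msh sx
  nc := by decide
  a0 := rfl
  an := rfl
  lt := lowS (lowS (lowS (lowS (lowS (lowS (lowS (lowS low0 (by decide)) (by decide)) (by decide)) (by decide)) (by decide)) (by decide)) (by decide)) (by decide)
  sK := allS (allS (allS (allS (allS (allS (allS (allS all0 SBs18K1.rows) SBs18K2.rows) SBs18K3.rows) SBs18K4.rows) SBs18K5.rows) SBs18K6.rows) SBs18K7.rows) SBs18K8.rows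
  bK := allS (allS (allS (allS (allS (allS (allS (allS all0 bK1) bK2) bK3) bK4) bK5) bK6) bK7) bK8
  bN := nbrS (nbrS (nbrS (nbrS (nbrS (nbrS (nbrS nbr0 bN1) bN2) bN3) bN4) bN5) bN6) bN7
  mo := mo
  sR := allS (allS (allS (allS (allS (allS (allS (allS all0 SBs18R1.rows) SBs18R2.rows) SBs18R3.rows) SBs18R4.rows) SBs18R5.rows) SBs18R6.rows) SBs18R7.rows) SBs18R8.rows
  bR := lowS (lowS (lowS (lowS (lowS (lowS (lowS (lowS low0 bR0) bR1) bR2) bR3) bR4) bR5) bR6) bR7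

end Pool.Agent.RZ.RCO.SCs18
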