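import Pool.Agent.RZ.RCO.KsD19
import Pool.Agent.RZ.RCO.SCk
import Pool.Agent.RZ.RCO.SCs19

/-! The sums of level 2 of a cell (MP_73ccd0_lc). -/

set_option autoImplicit false
set_option maxRecDepth 100000

namespace Pool.Agent.RZ.RCO.SKs19

open Sg

def d12 : ℕ → ℕ := fun l => match l with | 0 => 0 | 1 => Ks12_19_1.D | 2 => Ks12_19_2.D | 3 => Ks12_19_3.D | 4 => Ks12_19_4.D | 5 => Ks12_19_5.D | 6 => Ks12_19_6.D | 7 => Ks12_19_7.D | _ => Ks12_19_8.D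
def d13 : ℕ → ℕ := fun l => match l with | 0 => 0 | 1 => Ks13_19_1.D | 2 => Ks13_19_2.D | 3 => Ks13_19_3.D | 4 => Ks13_19_4.D | 5 => Ks13_19_5.D | 6 => Ks13_19_6.D | 7 => Ks13_19_7.D | _ => Ks13_19_8.D

/-- the data of the sums of level 2 -/
def e : Cdk := ⟨d12, d13, d12, d12⟩

theorem b12_1 : SC.rs.r12.bZ SC.Fs.X SC.Fs.X Ks12_19_1.D 3 SBs19K8.D SBs19K1.D = true := by decide +kernel
theorem b12_2 : SC.rs.r12.bZ SC.Fs.X SC.Fs.X Ks12_19_2.D 6 SBs19K8.D SBs19K2.D = true := by decide +kernel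
theorem b12_3 : SC.rs.r12.bZ SC.Fs.X SC.Fs.X Ks12_19_3.D 9 SBs19K8.D SBs19K3.D = true := by decide +kernel
theorem b12_4 : SC.rs.r12.bZ SC.Fs.X SC.Fs.X Ks12_19_4.D 12 SBs19K8.D SBs19K4.D = true := by decide +kernel
theorem b12_5 : SC.rs.r12.bZ SC.Fs.X SC.Fs.X Ks12_19_5.D 15 SBs19K8.D SBs19K5.D = true := by decide +kernel
theorem b12_6 : SC.rs.r12.bZ SC.Fs.X SC.Fs.X Ks12_19_6.D 18 SBs19K8.D SBs19K6.D = true := by decide +kernel
theorem b12_7 : SC.rs.r12.bZ SC.Fs.X SC.Fs.X Ks12_19_7.D 21 SBs19K8.D SBs19K7.D = true := by decide +kernel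
theorem b12_8 : SC.rs.r12.bZ SC.Fs.X SC.Fs.X Ks12_19_8.D 24 SBs19K8.D SBs19K8.D = true := by decide +kernel
theorem b13_1 : SC.rs.r13.bE SC.Fs.X SC.Fs.Y Ks13_19_1.D 3 SBs19K8.D SBs19R1.D = true := by decide +kernel
theorem b13_2 : SC.rs.r13.bE SC.Fs.X SC.Fs.Y Ks13_19_2.D 6 SBs19K8.D SBs19R2.D = true := by decide +kernel
theorem b13_3 : SC.rs.r13.bE SC.Fs.X SC.Fs.Y Ks13_19_3.D 9 SBs19K8.D SBs19R3.D = true := by decide +kernel
theorem b13_4 : SC.rs.r13.bE SC.Fs.X SC.Fs.Y Ks13_19_4.D 12 SBs19K8.D SBs19R4.D = true := by decide +kernel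
theorem b13_5 : SC.rs.r13.bE SC.Fs.X SC.Fs.Y Ks13_19_5.D 15 SBs19K8.D SBs19R5.D = true := by decide +kernel
theorem b13_6 : SC.rs.r13.bE SC.Fs.X SC.Fs.Y Ks13_19_6.D 18 SBs19K8.D SBs19R6.D = true := by decide +kernel
theorem b13_7 : SC.rs.r13.bE SC.Fs.X SC.Fs.Y Ks13_19_7.D 21 SBs19K8.D SBs19R7.D = true := by decide +kernel
theorem b13_8 : SC.rs.r13.bE SC.Fs.X SC.Fs.Y Ks13_19_8.D 24 SBs19K8.D SBs19R8.D = true := by decide +kernel
theorem g12_1 : lnkB Ks12_19_1.D SC.rs.r12.k.R Ks12_19_2.D SC.rs.r12.k.R 3 SC.rs.r12.LG = true := by decide +kernel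
theorem g12_2 : lnkB Ks12_19_2.D SC.rs.r12.k.R Ks12_19_3.D SC.rs.r12.k.R 6 SC.rs.r12.LG = true := by decide +kernel
theorem g12_3 : lnkB Ks12_19_3.D SC.rs.r12.k.R Ks12_19_4.D SC.rs.r12.k.R 9 SC.rs.r12.LG = true := by decide +kernel
theorem g12_4 : lnkB Ks12_19_4.D SC.rs.r12.k.R Ks12_19_5.D SC.rs.r12.k.R 12 SC.rs.r12.LG = true := by decide +kernel
theorem g12_5 : lnkB Ks12_19_5.D SC.rs.r12.k.R Ks12_19_6.D SC.rs.r12.k.R 15 SC.rs.r12.LG = true := by decide +kernel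
theorem g12_6 : lnkB Ks12_19_6.D SC.rs.r12.k.R Ks12_19_7.D SC.rs.r12.k.R 18 SC.rs.r12.LG = true := by decide +kernel
theorem g12_7 : lnkB Ks12_19_7.D SC.rs.r12.k.R Ks12_19_8.D SC.rs.r12.k.R 21 SC.rs.r12.LG = true := by decide +kernel

/-- **the checks of the data**, columns -/
theorem datC : Crk.DatC SC.Fs SCs19.c SC.rs e where
  s12 := allS (allS (allS (allS (allS (allS (allS (allS all0 Ks12_19_1.rows) Ks12_19_2.rows) Ks12_19_3.rows) Ks12_19_4.rows) Ks12_19_5.rows) Ks12_19_6.rows) Ks12_19_7.rows) Ks12_19_8.rows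
  b12 := allS (allS (allS (allS (allS (allS (allS (allS all0 b12_1) b12_2) b12_3) b12_4) b12_5) b12_6) b12_7) b12_8
  g12 := nbrS (nbrS (nbrS (nbrS (nbrS (nbrS (nbrS nbr0 g12_1) g12_2) g12_3) g12_4) g12_5) g12_6) g12_7
  s13 := allS (allS (allS (allS (allS (allS (allS (allS all0 Ks13_19_1.rows) Ks13_19_2.rows) Ks13_19_3.rows) Ks13_19_4.rows) Ks13_19_5.rows) Ks13_19_6.rows) Ks13_19_7.rows) Ks13_19_8.rows
  b13 := allS (allS (allS (allS (allS (allS (allS (allS all0 b13_1) b13_2) b13_3) b13_4) b13_5) b13_6) b13_7) b13_8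

end Pool.Agent.RZ.RCO.SKs19
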