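import Mathlib

/-! Signed packed checker with row parameters, part 1: expressions, semantics, monomials
(MP_73ccd0_lc). -/

set_option autoImplicit false

namespace Pool.Agent.RZ.RCO.Sg

/-- `c n` constant; `v p` the variable, `q p` one minus the variable, `w p n` the number one as a
homogeneous polynomial of degree `n` in the pair `p`; `u p l` homogeneous list of constants in the pair `p`; `r p i t n` the `n`
parameters `i, i + t, i + 2 t, ...`; `s p i t n` the same, read as signed (offset `2 ^ 31`) -/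
inductive Ex
  | c : ℕ → Ex
  | v : ℕ → Ex
  | q : ℕ → Ex
  | w : ℕ → ℕ → Ex
  | u : ℕ → List ℕ → Ex
  | r : ℕ → ℕ → ℕ → ℕ → Ex
  | s : ℕ → ℕ → ℕ → ℕ → Ex
  | add : Ex → Ex → Ex
  | sub : Ex → Ex → Ex
  | mul : Ex → Ex → Ex

/-! ### semantics -/

/-- the list of `n` entries with stride `t` -/
def rl (e : ℕ → ℤ) : ℕ → ℕ → ℕ → List ℤ
  | _, _, 0 => []
  | i, t, n + 1 => e i :: rl e (i + t) t n

theorem rl_length (e : ℕ → ℤ) (t n : ℕ) : ∀ i, (rl e i t n).length = n := by
  induction n with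
  | zero => intro i; rfl
  | succ n ih => intro i; simp [rl, ih]

/-- cast of a list -/
def cz : List ℕ → List ℤ
  | [] => []
  | a :: l => (a : ℤ) :: cz l

theorem cz_length (l : List ℕ) : (cz l).length = l.length := by
  induction l with
  | nil => rfl
  | cons a l ih => simp [cz, ih]

/-- unsigned and signed reading -/
def ue (e : ℕ → ℕ) (i : ℕ) : ℤ := (e i : ℤ)
def se (e : ℕ → ℕ) (i : ℕ) : ℤ := (e i : ℤ) - 2147483648

/-- value of a homogeneous list: `∑ ai x ^ i (1 - x) ^ (d - i)` -/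
noncomputable def hv (x : ℝ) : List ℤ → ℝ
  | [] => 0
  | a :: l => (a : ℝ) * (1 - x) ^ l.length + x * hv x l

noncomputable def Ex.val (ρ : ℕ → ℝ) (e : ℕ → ℕ) : Ex → ℝ
  | .c n => n
  | .v p => ρ p
  | .q p => 1 - ρ p
  | .w _ _ => 1
  | .u p l => hv (ρ p) (cz l)
  | .r p i t n => hv (ρ p) (rl (ue e) i t n)
  | .s p i t n => hv (ρ p) (rl (se e) i t n)
  | .add a b => a.val ρ e + b.val ρ e
  | .sub a b => a.val ρ e - b.val ρ e
  | .mul a b => a.val ρ e * b.val ρ e

/-- Horner evaluation in a commutative ring -/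
def gl {S : Type*} [CommRing S] (s : S) : List ℤ → S
  | [] => 0
  | a :: l => (a : S) + s * gl s l

def Ex.gen {S : Type*} [CommRing S] (s : ℕ → S) (e : ℕ → ℕ) : Ex → S
  | .c n => n
  | .v p => s p
  | .q _ => 1
  | .w p n => (1 + s p) ^ n
  | .u p l => gl (s p) (cz l)
  | .r p i t n => gl (s p) (rl (ue e) i t n)
  | .s p i t n => gl (s p) (rl (se e) i t n)
  | .add a b => a.gen s e + b.gen s e
  | .sub a b => a.gen s e - b.gen s e
  | .mul a b => a.gen s e * b.gen s e

/-! ### shape -/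

/-- degree code of a leaf -/
def lc (p n : ℕ) : ℕ :=
  match p with
  | 0 => n
  | 1 => 65536 * n
  | 2 => 4294967296 * n
  | _ => 281474976710656 * n

def Ex.dgc : Ex → ℕ
  | .c _ => 0
  | .v p => lc p 1
  | .q p => lc p 1
  | .w p n => lc p n
  | .u p l => lc p (l.length - 1)
  | .r p _ _ n => lc p (n - 1)
  | .s p _ _ n => lc p (n - 1)
  | .add a _ => a.dgc
  | .sub a _ => a.dgc
  | .mul a b => a.dgc + b.dgc

/-- degree in the pair `q` -/
def Ex.dg (q : ℕ) : Ex → ℕ
  | .c _ => 0
  | .v p => if min p 3 = q then 1 else 0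
  | .q p => if min p 3 = q then 1 else 0
  | .w p n => if min p 3 = q then n else 0
  | .u p l => if min p 3 = q then l.length - 1 else 0
  | .r p _ _ n => if min p 3 = q then n - 1 else 0
  | .s p _ _ n => if min p 3 = q then n - 1 else 0
  | .add a _ => a.dg q
  | .sub a _ => a.dg q
  | .mul a b => a.dg q + b.dg q

def Ex.sz : Ex → ℕ
  | .c _ => 0
  | .v _ => 1
  | .q _ => 1
  | .w _ n => n
  | .u _ l => l.length
  | .r _ _ _ n => n
  | .s _ _ _ n => n
  | .add a b => a.sz + b.sz
  | .sub a b => a.sz + b.sz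
  | .mul a b => a.sz + b.sz

def Ex.ok : Ex → Bool
  | .c _ => true
  | .v p => Nat.blt p 4
  | .q p => Nat.blt p 4
  | .w p _ => Nat.blt p 4
  | .u p _ => Nat.blt p 4
  | .r p _ _ _ => Nat.blt p 4
  | .s p _ _ _ => Nat.blt p 4
  | .add a b => a.ok && b.ok && Nat.beq a.dgc b.dgc
  | .sub a b => a.ok && b.ok && Nat.beq a.dgc b.dgc
  | .mul a b => a.ok && b.ok

/-- bound of the sum of the absolute values of the coefficients -/
def Ex.ab : Ex → ℕ
  | .c n => n
  | .v _ => 1
  | .q _ => 1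
  | .w _ n => 2 ^ n
  | .u _ l => l.sum
  | .r _ _ _ n => n * 4294967296
  | .s _ _ _ n => n * 4294967296
  | .add a b => a.ab + b.ab
  | .sub a b => a.ab + b.ab
  | .mul a b => a.ab * b.ab

theorem dgc_eq (a : Ex) : a.dgc = a.dg 0 + 65536 * a.dg 1 + 4294967296 * a.dg 2
    + 281474976710656 * a.dg 3 := by
  have key : ∀ p n : ℕ, lc p n = (if min p 3 = 0 then n else 0) + 65536 * (if min p 3 = 1 then n
      else 0) + 4294967296 * (if min p 3 = 2 then n else 0)
      + 281474976710656 * (if min p 3 = 3 then n else 0) := by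
    intro p n
    match p with
    | 0 => simp [lc]
    | 1 => simp [lc]
    | 2 => simp [lc]
    | (p + 3) => simp [lc, show min (p + 3) 3 = 3 by omega]
  induction a with
  | c n => simp [Ex.dgc, Ex.dg]
  | v p => simpa only [Ex.dgc, Ex.dg] using key p _
  | q p => simpa only [Ex.dgc, Ex.dg] using key p _
  | w p n => simpa only [Ex.dgc, Ex.dg] using key p _
  | u p l => simpa only [Ex.dgc, Ex.dg] using key p _
  | r p i t n => simpa only [Ex.dgc, Ex.dg] using key p _
  | s p i t n => simpa only [Ex.dgc, Ex.dg] using key p _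
  | add a b iha ihb => simpa only [Ex.dgc, Ex.dg] using iha
  | sub a b iha ihb => simpa only [Ex.dgc, Ex.dg] using iha
  | mul a b iha ihb => simp only [Ex.dgc, Ex.dg]; omega

theorem dg_le (q : ℕ) (a : Ex) : a.dg q ≤ a.sz := by
  induction a with
  | c n => simp [Ex.dg, Ex.sz]
  | v p => simp only [Ex.dg, Ex.sz]; split_ifs <;> omega
  | q p => simp only [Ex.dg, Ex.sz]; split_ifs <;> omega
  | w p n => simp only [Ex.dg, Ex.sz]; split_ifs <;> omega
  | u p l => simp only [Ex.dg, Ex.sz]; split_ifs <;> omega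
  | r p i t n => simp only [Ex.dg, Ex.sz]; split_ifs <;> omega
  | s p i t n => simp only [Ex.dg, Ex.sz]; split_ifs <;> omega
  | add a b iha ihb => simp only [Ex.dg, Ex.sz]; omega
  | sub a b iha ihb => simp only [Ex.dg, Ex.sz]; omega
  | mul a b iha ihb => simp only [Ex.dg, Ex.sz]; omega

/-- homogeneity at the sums -/
def Ex.Hg : Ex → Prop
  | .c _ => True
  | .v p => p < 4
  | .q p => p < 4
  | .w p _ => p < 4
  | .u p _ => p < 4
  | .r p _ _ _ => p < 4
  | .s p _ _ _ => p < 4
  | .add a b => a.Hg ∧ b.Hg ∧ ∀ q < 4, a.dg q = b.dg q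
  | .sub a b => a.Hg ∧ b.Hg ∧ ∀ q < 4, a.dg q = b.dg q
  | .mul a b => a.Hg ∧ b.Hg

theorem dg_of_dgc {a b : Ex} (h : a.dgc = b.dgc) (ha : a.sz < 65536) (hb : b.sz < 65536) :
    ∀ q < 4, a.dg q = b.dg q := by
  rw [dgc_eq, dgc_eq] at h
  have a0 := dg_le 0 a; have a1 := dg_le 1 a; have a2 := dg_le 2 a; have a3 := dg_le 3 a
  have b0 := dg_le 0 b; have b1 := dg_le 1 b; have b2 := dg_le 2 b; have b3 := dg_le 3 b
  intro q hq
  interval_cases q <;> omega

theorem hg_of_ok (a : Ex) (h : a.ok = true) (hs : a.sz < 65536) : a.Hg := by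
  induction a with
  | c n => trivial
  | v p => simpa [Ex.ok, Ex.Hg, Nat.blt_eq] using h
  | q p => simpa [Ex.ok, Ex.Hg, Nat.blt_eq] using h
  | w p n => simpa [Ex.ok, Ex.Hg, Nat.blt_eq] using h
  | u p l => simpa [Ex.ok, Ex.Hg, Nat.blt_eq] using h
  | r p i t n => simpa [Ex.ok, Ex.Hg, Nat.blt_eq] using h
  | s p i t n => simpa [Ex.ok, Ex.Hg, Nat.blt_eq] using h
  | add a b iha ihb =>
    simp only [Ex.ok, Bool.and_eq_true] at h
    simp only [Ex.sz] at hs
    exact ⟨iha h.1.1 (by omega), ihb h.1.2 (by omega),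
      dg_of_dgc (Nat.eq_of_beq_eq_true h.2) (by omega) (by omega)⟩
  | sub a b iha ihb =>
    simp only [Ex.ok, Bool.and_eq_true] at h
    simp only [Ex.sz] at hs
    exact ⟨iha h.1.1 (by omega), ihb h.1.2 (by omega),
      dg_of_dgc (Nat.eq_of_beq_eq_true h.2) (by omega) (by omega)⟩
  | mul a b iha ihb =>
    simp only [Ex.ok, Bool.and_eq_true] at h
    simp only [Ex.sz] at hs
    exact ⟨iha h.1 (by omega), ihb h.2 (by omega)⟩

/-! ### homogenisation -/

theorem hv_eq {x κ : ℝ} (hκ : x = (1 - x) * κ) (l : List ℤ) :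
    (1 - x) * hv x l = (1 - x) ^ l.length * gl κ l := by
  induction l with
  | nil => simp [hv, gl]
  | cons a l ih =>
    simp only [hv, gl, List.length_cons, pow_succ]
    have : (1 - x) * (x * hv x l) = x * ((1 - x) ^ l.length * gl κ l) := by rw [← ih]; ring
    rw [mul_add, this]
    nth_rewrite 3 [hκ]
    ring

theorem hv_eq' {x κ : ℝ} (hx : x ≠ 1) (hκ : x = (1 - x) * κ) (l : List ℤ) :
    hv x l = (1 - x) ^ (l.length - 1) * gl κ l := by
  cases l with
  | nil => simp [hv, gl]
  | cons a l =>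
    have h2 := hv_eq hκ (a :: l)
    have h3 : (1 - x) ≠ 0 := sub_ne_zero.2 hx.symm
    simp only [List.length_cons, pow_succ, Nat.add_sub_cancel] at h2 ⊢
    have h4 : (1 - x) * (hv x (a :: l)) = (1 - x) * ((1 - x) ^ l.length
      * gl κ (a :: l)) := by rw [h2]; ring
    exact mul_left_cancel₀ h3 h4

theorem leaf_eq {ρ κ : ℕ → ℝ} (h1 : ∀ p, ρ p ≠ 1) (hκ : ∀ p, ρ p = (1 - ρ p) * κ p) {p : ℕ}
    (hp : p < 4) (l : List ℤ) (n : ℕ) (hn : l.length = n) :
    hv (ρ p) l = (1 - ρ 0) ^ (if min p 3 = 0 then n - 1 else 0)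
      * (1 - ρ 1) ^ (if min p 3 = 1 then n - 1 else 0)
      * (1 - ρ 2) ^ (if min p 3 = 2 then n - 1 else 0)
      * (1 - ρ 3) ^ (if min p 3 = 3 then n - 1 else 0) * gl (κ p) l := by
  rw [hv_eq' (h1 p) (hκ p) l, hn]
  interval_cases p <;> simp

theorem pow_eq {ρ : ℕ → ℝ} {p : ℕ} (hp : p < 4) (n : ℕ) (c : ℝ) :
    (1 - ρ 0) ^ (if min p 3 = 0 then n else 0) * (1 - ρ 1) ^ (if min p 3 = 1 then n else 0)
      * (1 - ρ 2) ^ (if min p 3 = 2 then n else 0) * (1 - ρ 3) ^ (if min p 3 = 3 then n else 0) * c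
      = (1 - ρ p) ^ n * c := by
  interval_cases p <;> simp

theorem val_eq (a : Ex) (h : a.Hg) {ρ κ : ℕ → ℝ} (e : ℕ → ℕ) (h1 : ∀ p, ρ p ≠ 1)
    (hκ : ∀ p, ρ p = (1 - ρ p) * κ p) :
    a.val ρ e = (1 - ρ 0) ^ a.dg 0 * (1 - ρ 1) ^ a.dg 1 * (1 - ρ 2) ^ a.dg 2 * (1 - ρ 3) ^ a.dg 3
      * a.gen κ e := by
  induction a with
  | c n => simp [Ex.val, Ex.dg, Ex.gen]
  | v p =>
    simp only [Ex.val, Ex.dg, Ex.gen]
    rw [pow_eq h, pow_one]
    exact hκ p
  | q p =>
    simp only [Ex.val, Ex.dg, Ex.gen]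
    rw [pow_eq h, pow_one, mul_one]
  | w p n =>
    simp only [Ex.val, Ex.dg, Ex.gen]
    rw [pow_eq h, ← mul_pow]
    have : (1 - ρ p) * (1 + κ p) = 1 := by
      rw [mul_add, ← hκ p]
      ring
    rw [this, one_pow]
  | u p l => exact leaf_eq h1 hκ h _ _ (cz_length l)
  | r p i t n => exact leaf_eq h1 hκ h _ _ (rl_length _ _ _ _)
  | s p i t n => exact leaf_eq h1 hκ h _ _ (rl_length _ _ _ _)
  | add a b iha ihb =>
    obtain ⟨ha, hb, e⟩ := h
    simp only [Ex.val, Ex.dg, Ex.gen]
    rw [iha ha, ihb hb, ← e 0 (by norm_num), ← e 1 (by norm_num), ← e 2 (by norm_num),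
      ← e 3 (by norm_num)]
    ring
  | sub a b iha ihb =>
    obtain ⟨ha, hb, e⟩ := h
    simp only [Ex.val, Ex.dg, Ex.gen]
    rw [iha ha, ihb hb, ← e 0 (by norm_num), ← e 1 (by norm_num), ← e 2 (by norm_num),
      ← e 3 (by norm_num)]
    ring
  | mul a b iha ihb =>
    obtain ⟨ha, hb⟩ := h
    simp only [Ex.val, Ex.dg, Ex.gen]
    rw [iha ha, ihb hb]
    simp only [pow_add]
    ring

/-! ### lists of monomials -/

/-- coefficient and exponents -/
abbrev Mn : Type := ℤ × ℕ × ℕ × ℕ × ℕ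

def mulM (x y : Mn) : Mn :=
  (x.1 * y.1, x.2.1 + y.2.1, x.2.2.1 + y.2.2.1, x.2.2.2.1 + y.2.2.2.1, x.2.2.2.2 + y.2.2.2.2)

def negM (x : Mn) : Mn := (-x.1, x.2)

/-- value of a monomial -/
def em {S : Type*} [CommRing S] (s : ℕ → S) (m : Mn) : S :=
  (m.1 : S) * (s 0 ^ m.2.1 * s 1 ^ m.2.2.1 * s 2 ^ m.2.2.2.1 * s 3 ^ m.2.2.2.2)

theorem em_mul {S : Type*} [CommRing S] (s : ℕ → S) (x y : Mn) :
    em s (mulM x y) = em s x * em s y := by
  simp only [em, mulM, pow_add, Int.cast_mul]
  ring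

theorem em_neg {S : Type*} [CommRing S] (s : ℕ → S) (x : Mn) : em s (negM x) = - em s x := by
  simp only [em, negM, Int.cast_neg]
  ring

def el {S : Type*} [CommRing S] (s : ℕ → S) (l : List Mn) : S := (l.map (em s)).sum

theorem el_append {S : Type*} [CommRing S] (s : ℕ → S) (p q : List Mn) :
    el s (p ++ q) = el s p + el s q := by simp [el]

theorem el_neg {S : Type*} [CommRing S] (s : ℕ → S) (q : List Mn) :
    el s (q.map negM) = - el s q := by
  induction q with
  | nil => simp [el]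
  | cons y q ih =>
    simp only [el, List.map_cons, List.sum_cons] at ih ⊢
    rw [ih, em_neg]
    ring

theorem el_map {S : Type*} [CommRing S] (s : ℕ → S) (x : Mn) (q : List Mn) :
    el s (q.map (mulM x)) = em s x * el s q := by
  induction q with
  | nil => simp [el]
  | cons y q ih =>
    simp only [el, List.map_cons, List.sum_cons] at ih ⊢
    rw [ih, em_mul]
    ring

theorem el_mul {S : Type*} [CommRing S] (s : ℕ → S) (p q : List Mn) :
    el s (p.flatMap fun x => q.map (mulM x)) = el s p * el s q := by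
  induction p with
  | nil => simp [el]
  | cons x p ih =>
    rw [List.flatMap_cons, el_append, ih, el_map]
    simp only [el, List.map_cons, List.sum_cons]
    ring

/-- one step in the direction `p` -/
def bmp (p : ℕ) (m : Mn) : Mn :=
  match p with
  | 0 => (m.1, m.2.1 + 1, m.2.2.1, m.2.2.2.1, m.2.2.2.2)
  | 1 => (m.1, m.2.1, m.2.2.1 + 1, m.2.2.2.1, m.2.2.2.2)
  | 2 => (m.1, m.2.1, m.2.2.1, m.2.2.2.1 + 1, m.2.2.2.2)
  | _ => (m.1, m.2.1, m.2.2.1, m.2.2.2.1, m.2.2.2.2 + 1)

theorem bmp_fst (p : ℕ) (m : Mn) : (bmp p m).1 = m.1 := by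
  unfold bmp
  split <;> rfl

theorem em_bmp {S : Type*} [CommRing S] (s : ℕ → S) {p : ℕ} (hp : p < 4) (m : Mn) :
    em s (bmp p m) = s p * em s m := by
  interval_cases p <;> (simp only [bmp, em, pow_succ]; ring)

def lP (p : ℕ) : List ℤ → List Mn
  | [] => []
  | a :: l => (a, 0, 0, 0, 0) :: (lP p l).map (bmp p)

theorem el_lP {S : Type*} [CommRing S] (s : ℕ → S) {p : ℕ} (hp : p < 4) (l : List ℤ) :
    el s (lP p l) = gl (s p) l := by
  induction l with
  | nil => simp [lP, el, gl]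
  | cons a l ih =>
    have h1 : ∀ q : List Mn, el s (q.map (bmp p)) = s p * el s q := by
      intro q
      induction q with
      | nil => simp [el]
      | cons y q ihq =>
        simp only [el, List.map_cons, List.sum_cons] at ihq ⊢
        rw [ihq, em_bmp s hp]
        ring
    have h2 : el s (lP p (a :: l)) = em s (a, 0, 0, 0, 0) + el s ((lP p l).map (bmp p)) := by
      simp [lP, el]
    rw [h2, h1, ih]
    simp [em, gl]

/-- monomials of the power of the sum of the pair `p` -/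
def wP (p : ℕ) : ℕ → List Mn
  | 0 => [(1, 0, 0, 0, 0)]
  | n + 1 => wP p n ++ (wP p n).map (bmp p)

theorem el_bmp {S : Type*} [CommRing S] (s : ℕ → S) {p : ℕ} (hp : p < 4) (q : List Mn) :
    el s (q.map (bmp p)) = s p * el s q := by
  induction q with
  | nil => simp [el]
  | cons y q ihq =>
    simp only [el, List.map_cons, List.sum_cons] at ihq ⊢
    rw [ihq, em_bmp s hp]
    ring

theorem el_wP {S : Type*} [CommRing S] (s : ℕ → S) {p : ℕ} (hp : p < 4) (n : ℕ) :
    el s (wP p n) = (1 + s p) ^ n := by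
  induction n with
  | zero => simp [wP, el, em]
  | succ n ih =>
    rw [wP, el_append, el_bmp s hp, ih, pow_succ]
    ring

/-- the coefficient list of a leaf -/
def Ex.P (e : ℕ → ℕ) : Ex → List Mn
  | .c n => [((n : ℤ), 0, 0, 0, 0)]
  | .v p => [bmp p (1, 0, 0, 0, 0)]
  | .q _ => [(1, 0, 0, 0, 0)]
  | .w p n => wP p n
  | .u p l => lP p (cz l)
  | .r p i t n => lP p (rl (ue e) i t n)
  | .s p i t n => lP p (rl (se e) i t n)
  | .add a b => a.P e ++ b.P e
  | .sub a b => a.P e ++ (b.P e).map negM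
  | .mul a b => (a.P e).flatMap fun x => (b.P e).map (mulM x)

theorem el_P {S : Type*} [CommRing S] (s : ℕ → S) (e : ℕ → ℕ) (a : Ex) (h : a.Hg) :
    el s (a.P e) = a.gen s e := by
  induction a with
  | c n => simp [Ex.P, el, em, Ex.gen]
  | v p =>
    have h1 : el s [bmp p ((1, 0, 0, 0, 0) : Mn)] = em s (bmp p (1, 0, 0, 0, 0)) := by simp [el]
    rw [Ex.P, h1, em_bmp s h]
    simp [em, Ex.gen]
  | q p => simp [Ex.P, el, em, Ex.gen]
  | w p n => exact el_wP s h n
  | u p l => exact el_lP s h _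
  | r p i t n => exact el_lP s h _
  | s p i t n => exact el_lP s h _
  | add a b iha ihb => rw [Ex.P, el_append, iha h.1, ihb h.2.1, Ex.gen]
  | sub a b iha ihb => rw [Ex.P, el_append, el_neg, iha h.1, ihb h.2.1, Ex.gen, sub_eq_add_neg]
  | mul a b iha ihb => rw [Ex.P, el_mul, iha h.1, ihb h.2, Ex.gen]

/-- the exponents are bounded by the degrees -/
def Bd (d0 d1 d2 d3 : ℕ) (m : Mn) : Prop :=
  m.2.1 ≤ d0 ∧ m.2.2.1 ≤ d1 ∧ m.2.2.2.1 ≤ d2 ∧ m.2.2.2.2 ≤ d3

theorem bd_lP {p : ℕ} (hp : p < 4) (l : List ℤ) : ∀ m ∈ lP p l,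
    Bd (if p = 0 then l.length - 1 else 0) (if p = 1 then l.length - 1 else 0)
      (if p = 2 then l.length - 1 else 0) (if p = 3 then l.length - 1 else 0) m := by
  induction l with
  | nil => intro m hm; simp [lP] at hm
  | cons a l ih =>
    intro m hm
    simp only [lP, List.mem_cons, List.mem_map] at hm
    rcases hm with rfl | ⟨y, hy, rfl⟩
    · simp [Bd]
    · have h1 := ih y hy
      have hl : 0 < l.length := by
        cases l with
        | nil => simp [lP] at hy
        | cons b l => simp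
      unfold Bd at h1 ⊢
      simp only [List.length_cons, Nat.add_sub_cancel]
      interval_cases p <;> simp [bmp] at h1 ⊢ <;> omega

theorem bd_leaf {p : ℕ} (hp : p < 4) (l : List ℤ) (n : ℕ) (hn : l.length = n) : ∀ m ∈ lP p l,
    Bd (if min p 3 = 0 then n - 1 else 0) (if min p 3 = 1 then n - 1 else 0)
      (if min p 3 = 2 then n - 1 else 0) (if min p 3 = 3 then n - 1 else 0) m := by
  intro m hm
  have h1 := bd_lP hp l m hm
  rw [hn] at h1
  interval_cases p <;> simpa using h1

theorem bd_bmp {p : ℕ} (hp : p < 4) {n : ℕ} {m : Mn} (h : Bd (if min p 3 = 0 then n else 0)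
    (if min p 3 = 1 then n else 0) (if min p 3 = 2 then n else 0)
    (if min p 3 = 3 then n else 0) m) : Bd (if min p 3 = 0 then n + 1 else 0)
    (if min p 3 = 1 then n + 1 else 0) (if min p 3 = 2 then n + 1 else 0)
    (if min p 3 = 3 then n + 1 else 0) (bmp p m) := by
  unfold Bd at h ⊢
  interval_cases p <;> simp [bmp] at h ⊢ <;> omega

theorem bd_up {p : ℕ} {n : ℕ} {m : Mn} (h : Bd (if min p 3 = 0 then n else 0)
    (if min p 3 = 1 then n else 0) (if min p 3 = 2 then n else 0)
    (if min p 3 = 3 then n else 0) m) : Bd (if min p 3 = 0 then n + 1 else 0)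
    (if min p 3 = 1 then n + 1 else 0) (if min p 3 = 2 then n + 1 else 0)
    (if min p 3 = 3 then n + 1 else 0) m := by
  unfold Bd at h ⊢
  obtain ⟨h0, h1, h2, h3⟩ := h
  refine ⟨h0.trans ?_, h1.trans ?_, h2.trans ?_, h3.trans ?_⟩ <;> split_ifs <;> omega

theorem bd_wP {p : ℕ} (hp : p < 4) (n : ℕ) : ∀ m ∈ wP p n,
    Bd (if min p 3 = 0 then n else 0) (if min p 3 = 1 then n else 0)
      (if min p 3 = 2 then n else 0) (if min p 3 = 3 then n else 0) m := by
  induction n with
  | zero =>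
    intro m hm
    simp only [wP, List.mem_singleton] at hm
    subst hm
    simp [Bd]
  | succ n ih =>
    intro m hm
    simp only [wP, List.mem_append, List.mem_map] at hm
    rcases hm with hm | ⟨y, hy, rfl⟩
    · exact bd_up (ih m hm)
    · exact bd_bmp hp (ih y hy)

theorem bd_P (e : ℕ → ℕ) (a : Ex) (h : a.Hg) :
    ∀ m ∈ a.P e, Bd (a.dg 0) (a.dg 1) (a.dg 2) (a.dg 3) m := by
  induction a with
  | c n =>
    intro m hm
    simp only [Ex.P, List.mem_singleton] at hm
    subst hm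
    simp [Bd, Ex.dg]
  | v p =>
    intro m hm
    simp only [Ex.P, List.mem_singleton] at hm
    subst hm
    exact bd_bmp (n := 0) h (by simp [Bd])
  | q p =>
    intro m hm
    simp only [Ex.P, List.mem_singleton] at hm
    subst hm
    simp [Bd]
  | w p n => exact bd_wP h n
  | u p l => exact bd_leaf h _ _ (cz_length l)
  | r p i t n => exact bd_leaf h _ _ (rl_length _ _ _ _)
  | s p i t n => exact bd_leaf h _ _ (rl_length _ _ _ _)
  | add a b iha ihb =>
    intro m hm
    obtain ⟨ha, hb, e⟩ := h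
    simp only [Ex.P, List.mem_append] at hm
    simp only [Ex.dg]
    rcases hm with hm | hm
    · exact iha ha m hm
    · have := ihb hb m hm
      rwa [← e 0 (by norm_num), ← e 1 (by norm_num), ← e 2 (by norm_num),
        ← e 3 (by norm_num)] at this
  | sub a b iha ihb =>
    intro m hm
    obtain ⟨ha, hb, e⟩ := h
    simp only [Ex.P, List.mem_append, List.mem_map] at hm
    simp only [Ex.dg]
    rcases hm with hm | ⟨y, hy, rfl⟩
    · exact iha ha m hm
    · have := ihb hb y hy
      rw [← e 0 (by norm_num), ← e 1 (by norm_num), ← e 2 (by norm_num),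
        ← e 3 (by norm_num)] at this
      simpa [Bd, negM] using this
  | mul a b iha ihb =>
    intro m hm
    obtain ⟨ha, hb⟩ := h
    simp only [Ex.P, List.mem_flatMap, List.mem_map] at hm
    obtain ⟨x, hx, y, hy, rfl⟩ := hm
    have h1 := iha ha x hx
    have h2 := ihb hb y hy
    unfold Bd at *
    simp only [mulM, Ex.dg]
    omega

/-! ### size of the coefficients -/

/-- sum of the absolute values -/
def sa (l : List Mn) : ℕ := (l.map fun m => m.1.natAbs).sum

theorem sa_append (p q : List Mn) : sa (p ++ q) = sa p + sa q := by simp [sa]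

theorem sa_neg (q : List Mn) : sa (q.map negM) = sa q := by
  induction q with
  | nil => simp [sa]
  | cons y q ih =>
    simp only [sa, List.map_cons, List.sum_cons] at ih ⊢
    rw [ih]
    simp [negM]

theorem sa_bmp (p : ℕ) (q : List Mn) : sa (q.map (bmp p)) = sa q := by
  induction q with
  | nil => simp [sa]
  | cons y q ih =>
    simp only [sa, List.map_cons, List.sum_cons] at ih ⊢
    rw [ih, bmp_fst]

theorem sa_map (x : Mn) (q : List Mn) : sa (q.map (mulM x)) = x.1.natAbs * sa q := by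
  induction q with
  | nil => simp [sa]
  | cons y q ih =>
    simp only [sa, List.map_cons, List.sum_cons] at ih ⊢
    rw [ih]
    simp only [mulM, Int.natAbs_mul]
    ring

theorem sa_mul (p q : List Mn) : sa (p.flatMap fun x => q.map (mulM x)) = sa p * sa q := by
  induction p with
  | nil => simp [sa]
  | cons x p ih =>
    rw [List.flatMap_cons, sa_append, ih, sa_map]
    simp only [sa, List.map_cons, List.sum_cons]
    ring

theorem sa_lP (p : ℕ) (l : List ℤ) : sa (lP p l) = (l.map Int.natAbs).sum := by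
  induction l with
  | nil => simp [lP, sa]
  | cons a l ih =>
    have : sa (lP p (a :: l)) = a.natAbs + sa ((lP p l).map (bmp p)) := by simp [lP, sa]
    rw [this, sa_bmp, ih]
    simp

theorem sa_rl {e : ℕ → ℤ} {N : ℕ} (he : ∀ i, (e i).natAbs ≤ N) (t n : ℕ) :
    ∀ i, ((rl e i t n).map Int.natAbs).sum ≤ n * N := by
  induction n with
  | zero => intro i; simp [rl]
  | succ n ih =>
    intro i
    simp only [rl, List.map_cons, List.sum_cons, Nat.succ_mul]
    have := ih (i + t)
    have := he i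
    omega

theorem sa_P {e : ℕ → ℕ} (he : ∀ i, e i < 4294967296) (a : Ex) : sa (a.P e) ≤ a.ab := by
  induction a with
  | c n => simp [Ex.P, sa, Ex.ab]
  | v p => simp [Ex.P, sa, Ex.ab, bmp_fst]
  | q p => simp [Ex.P, sa, Ex.ab]
  | w p n =>
    rw [Ex.P, Ex.ab]
    apply le_of_eq
    induction n with
    | zero => simp [wP, sa]
    | succ n ih =>
      rw [wP, sa_append, sa_bmp, ih]
      ring
  | u p l =>
    rw [Ex.P, sa_lP, Ex.ab]
    apply le_of_eq
    induction l with
    | nil => rfl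
    | cons a l ih => simp [cz, ih]
  | r p i t n =>
    rw [Ex.P, sa_lP, Ex.ab]
    refine sa_rl (fun j => ?_) t n i
    have := he j
    simp only [ue]
    omega
  | s p i t n =>
    rw [Ex.P, sa_lP, Ex.ab]
    refine sa_rl (fun j => ?_) t n i
    have := he j
    simp only [se]
    omega
  | add a b iha ihb => rw [Ex.P, sa_append, Ex.ab]; omega
  | sub a b iha ihb => rw [Ex.P, sa_append, sa_neg, Ex.ab]; omega
  | mul a b iha ihb => rw [Ex.P, sa_mul, Ex.ab]; exact Nat.mul_le_mul iha ihb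

end Pool.Agent.RZ.RCO.Sg
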