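import Mathlib

/-! The packed checker, soundness (MP_73ccd0_lc). -/

set_option autoImplicit false

namespace Pool.Agent.RZ.RCO.Sim

open Finset

/-! ### digits -/

theorem dig_lt {W : ℕ} {x : ℕ → ℕ} (L : ℕ) (hx : ∀ j < L, x j < W) :
    ∑ j ∈ range L, x j * W ^ j < W ^ L := by
  induction L with
  | zero => simp
  | succ L ih =>
    rw [Finset.sum_range_succ, pow_succ]
    have h1 := ih fun j hj => hx j (by omega)
    have h2 := hx L (by omega)
    have h3 : (x L + 1) * W ^ L ≤ W * W ^ L := Nat.mul_le_mul_right _ h2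
    nlinarith

theorem dig_split {W : ℕ} (_hW : 0 < W) {x : ℕ → ℕ} (L : ℕ) (hx : ∀ j < L, x j < W) :
    ∀ i < L, ∃ lo R, ∑ j ∈ range L, x j * W ^ j = lo + W ^ i * (x i + W * R) ∧ lo < W ^ i := by
  induction L with
  | zero => intro i hi; omega
  | succ L ih =>
    intro i hi
    rw [Finset.sum_range_succ]
    rcases Nat.lt_succ_iff_lt_or_eq.1 hi with h1 | h1
    · obtain ⟨lo, R, e, hlo⟩ := ih (fun j hj => hx j (by omega)) i h1
      refine ⟨lo, R + x L * W ^ (L - i - 1), ?_, hlo⟩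
      rw [e]
      have : W ^ L = W ^ i * (W * W ^ (L - i - 1)) := by
        rw [← pow_succ', ← pow_add]
        congr 1
        omega
      rw [this]
      ring
    · subst h1
      refine ⟨∑ j ∈ range i, x j * W ^ j, 0, by ring, dig_lt i fun j hj => hx j (by omega)⟩

theorem dig_bit {β : ℕ} {x : ℕ → ℕ} {L : ℕ} (hx : ∀ j < L, x j < 2 ^ (β + 1)) {i : ℕ} (hi : i < L) :
    (∑ j ∈ range L, x j * (2 ^ (β + 1)) ^ j).testBit ((β + 1) * i + β)
      = decide (2 ^ β ≤ x i) := by
  obtain ⟨lo, R, e, hlo⟩ := dig_split (W := 2 ^ (β + 1)) (by positivity) L hx i hi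
  rw [e, Nat.testBit_eq_decide_div_mod_eq]
  have h1 : (lo + (2 ^ (β + 1)) ^ i * (x i + 2 ^ (β + 1) * R)) / 2 ^ ((β + 1) * i + β)
      = x i / 2 ^ β + 2 * R := by
    have e2 : 2 ^ ((β + 1) * i + β) = (2 ^ (β + 1)) ^ i * 2 ^ β := by rw [pow_add, pow_mul]
    rw [e2, ← Nat.div_div_eq_div_mul, Nat.add_mul_div_left _ _ (by positivity),
      Nat.div_eq_of_lt hlo, zero_add]
    have : x i + 2 ^ (β + 1) * R = x i + 2 ^ β * (2 * R) := by ring
    rw [this, Nat.add_mul_div_left _ _ (by positivity)]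
  rw [h1, Nat.add_mul_mod_self_left]
  have h2 := hx i hi
  have h3 : x i / 2 ^ β < 2 := by
    rw [Nat.div_lt_iff_lt_mul (by positivity)]
    rw [pow_succ] at h2
    linarith
  rw [Nat.mod_eq_of_lt h3]
  congr 1
  apply propext
  constructor
  · intro h4
    have := (Nat.le_div_iff_mul_le (y := x i) (k := 2 ^ β) (x := 1) (by positivity)).1 h4.ge
    linarith
  · intro h4
    have : 1 ≤ x i / 2 ^ β := (Nat.le_div_iff_mul_le (by positivity)).2 (by linarith)
    omega

/-! ### regrouping -/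

/-! ### the checker -/

end Pool.Agent.RZ.RCO.Sim
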