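import Pool.Agent.RZ.RCO.Sg1
import Pool.Agent.RZ.RCO.Sim2

/-! Signed packed checker with row parameters, part 2: kernel evaluation and soundness
(MP_73ccd0_lc). -/

set_option autoImplicit false

namespace Pool.Agent.RZ.RCO.Sg

open Finset

/-! ### kernel evaluation -/

/-- evaluation of the argument first -/
noncomputable def frc {α : Type} (n : ℕ) (f : ℕ → α) : α :=
  @Nat.rec (fun _ => α) (f 0) (fun m _ => f (Nat.succ m)) n

theorem frc_eq {α : Type} (n : ℕ) (f : ℕ → α) : frc n f = f n := by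
  cases n <;> rfl

/-- entry `i` of the packed data -/
noncomputable def g (D i : ℕ) : ℕ :=
  Nat.land (Nat.shiftRight D (Nat.mul (nat_lit 32) i)) (nat_lit 4294967295)

noncomputable def pk (s0 s1 s2 s3 p : ℕ) : ℕ :=
  @Nat.rec (fun _ => ℕ) s0 (fun q _ => @Nat.rec (fun _ => ℕ) s1 (fun q _ =>
    @Nat.rec (fun _ => ℕ) s2 (fun _ _ => s3) q) q) p

noncomputable def nu (s : ℕ) (l : List ℕ) : ℕ :=
  @List.rec ℕ (fun _ => ℕ) (nat_lit 0) (fun a _ ih => Nat.add a (Nat.mul s ih)) l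

noncomputable def nr (s D t n : ℕ) : ℕ → ℕ :=
  @Nat.rec (fun _ => ℕ → ℕ) (fun _ => nat_lit 0)
    (fun _ ih i => Nat.add (g D i) (Nat.mul s (ih (Nat.add i t)))) n

noncomputable def ng (s n : ℕ) : ℕ :=
  @Nat.rec (fun _ => ℕ) (nat_lit 0) (fun _ ih => Nat.add (nat_lit 1) (Nat.mul s ih)) n

noncomputable def ev (M M1 s0 s1 s2 s3 D : ℕ) (E : Ex) : ℕ :=
  @Ex.rec (fun _ => ℕ) (fun n => n)
    (fun p => pk s0 s1 s2 s3 p)
    (fun _ => nat_lit 1)
    (fun p n => Nat.pow (Nat.succ (pk s0 s1 s2 s3 p)) n)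
    (fun p l => frc (pk s0 s1 s2 s3 p) fun s => nu s l)
    (fun p i t n => frc (pk s0 s1 s2 s3 p) fun s => nr s D t n i)
    (fun p i t n => frc (pk s0 s1 s2 s3 p) fun s => Nat.add (nr s D t n i)
      (Nat.sub M (Nat.land (Nat.mul (nat_lit 2147483648) (ng s n)) M1)))
    (fun _ _ x y => Nat.add x y)
    (fun _ _ x y => Nat.add x (Nat.sub M (Nat.land y M1)))
    (fun _ _ x y => Nat.land (Nat.mul x y) M1) E

theorem land_eq (x K : ℕ) : Nat.land x (2 ^ K - 1) = x % 2 ^ K :=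
  Nat.and_two_pow_sub_one_eq_mod x K

theorem g_eq (D i : ℕ) : g D i = D / 2 ^ (32 * i) % 2 ^ 32 := by
  have h := land_eq (Nat.shiftRight D (Nat.mul 32 i)) 32
  have h3 : (2 ^ 32 - 1 : ℕ) = 4294967295 := by norm_num
  have h2 : Nat.shiftRight D (Nat.mul 32 i) = D / 2 ^ (32 * i) := Nat.shiftRight_eq_div_pow D _
  rw [h3] at h
  calc g D i = Nat.land (Nat.shiftRight D (Nat.mul 32 i)) 4294967295 := rfl
    _ = _ := by rw [h, h2]

theorem g_lt (D i : ℕ) : g D i < 4294967296 := by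
  rw [g_eq]
  exact Nat.mod_lt _ (by norm_num)

theorem g_shift (D a i : ℕ) : g (Nat.shiftRight D (Nat.mul 32 a)) i = g D (a + i) := by
  rw [g_eq, g_eq]
  have h2 : Nat.shiftRight D (Nat.mul 32 a) = D / 2 ^ (32 * a) := Nat.shiftRight_eq_div_pow D _
  rw [h2, Nat.div_div_eq_div_mul, ← pow_add, Nat.mul_add]

theorem g_cut (D m i : ℕ) (hi : i < m) : g (Nat.land D (2 ^ (32 * m) - 1)) i = g D i := by
  rw [land_eq, g_eq, g_eq]
  have e1 : 2 ^ (32 * m) = 2 ^ (32 * i) * 2 ^ (32 * (m - i)) := by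
    rw [← pow_add]
    congr 1
    omega
  rw [e1, Nat.mod_mul_right_div_self]
  have e2 : 2 ^ (32 * (m - i)) = 2 ^ 32 * 2 ^ (32 * (m - i - 1)) := by
    rw [← pow_add]
    congr 1
    omega
  rw [e2, Nat.mod_mul_right_mod]

theorem nu_eq (s : ℕ) (l : List ℕ) : ((nu s l : ℕ) : ℤ) = gl (s : ℤ) (cz l) := by
  induction l with
  | nil => rfl
  | cons a l ih =>
    have : nu s (a :: l) = a + s * nu s l := rfl
    rw [this]
    simp only [cz, gl, ← ih]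
    push_cast
    rfl

theorem nr_eq (s D t n : ℕ) :
    ∀ i, ((nr s D t n i : ℕ) : ℤ) = gl (s : ℤ) (rl (ue (g D)) i t n) := by
  induction n with
  | zero => intro i; rfl
  | succ n ih =>
    intro i
    have : nr s D t (n + 1) i = g D i + s * nr s D t n (i + t) := rfl
    rw [this]
    simp only [rl, gl, ← ih, ue]
    push_cast
    rfl

theorem ng_eq (s t n : ℕ) (e : ℕ → ℕ) : ∀ i, gl (s : ℤ) (rl (se e) i t n)
    = gl (s : ℤ) (rl (ue e) i t n) - 2147483648 * ((ng s n : ℕ) : ℤ) := by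
  induction n with
  | zero => intro i; simp [rl, gl, ng]
  | succ n ih =>
    intro i
    have : ng s (n + 1) = 1 + s * ng s n := rfl
    rw [this]
    simp only [rl, gl, ih, ue, se]
    push_cast
    ring

theorem neg_mod (M y : ℕ) (hM : 0 < M) : (((M - y % M : ℕ) : ℕ) : ℤ) ≡ - (y : ℤ) [ZMOD (M : ℤ)] := by
  have h1 : y % M ≤ M := (Nat.mod_lt _ hM).le
  rw [Nat.cast_sub h1, Int.modEq_iff_dvd]
  refine ⟨-(y / M : ℕ) - 1, ?_⟩
  have h2 := Nat.div_add_mod y M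
  have h3 : (y : ℤ) = M * (y / M : ℕ) + (y % M : ℕ) := by exact_mod_cast h2.symm
  rw [mul_sub, mul_neg]
  linarith

theorem pk_eq (s : ℕ → ℕ) {p : ℕ} (hp : p < 4) : pk (s 0) (s 1) (s 2) (s 3) p = s p := by
  interval_cases p <;> rfl

theorem ev_mod (K : ℕ) (s : ℕ → ℕ) (D : ℕ) (E : Ex) (h : E.Hg) :
    ((ev (2 ^ K) (2 ^ K - 1) (s 0) (s 1) (s 2) (s 3) D E : ℕ) : ℤ)
      ≡ E.gen (fun p => (s p : ℤ)) (g D) [ZMOD ((2 ^ K : ℕ) : ℤ)] := by
  have hM : 0 < 2 ^ K := by positivity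
  induction E with
  | c n => rfl
  | v p =>
    have e1 : ev (2 ^ K) (2 ^ K - 1) (s 0) (s 1) (s 2) (s 3) D (.v p)
        = pk (s 0) (s 1) (s 2) (s 3) p := rfl
    rw [e1, pk_eq s h]
    rfl
  | q p => rfl
  | w p n =>
    have e1 : ev (2 ^ K) (2 ^ K - 1) (s 0) (s 1) (s 2) (s 3) D (.w p n)
        = (pk (s 0) (s 1) (s 2) (s 3) p + 1) ^ n := rfl
    rw [e1, pk_eq s h]
    have e2 : (((s p + 1) ^ n : ℕ) : ℤ) = (1 + (s p : ℤ)) ^ n := by
      push_cast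
      ring
    rw [e2]
    rfl
  | u p l =>
    have e1 : ev (2 ^ K) (2 ^ K - 1) (s 0) (s 1) (s 2) (s 3) D (.u p l)
        = frc (pk (s 0) (s 1) (s 2) (s 3) p) fun s => nu s l := rfl
    rw [e1, frc_eq, pk_eq s h, nu_eq]
    rfl
  | r p i t n =>
    have e1 : ev (2 ^ K) (2 ^ K - 1) (s 0) (s 1) (s 2) (s 3) D (.r p i t n)
        = frc (pk (s 0) (s 1) (s 2) (s 3) p) fun s => nr s D t n i := rfl
    rw [e1, frc_eq, pk_eq s h, nr_eq]
    rfl
  | s p i t n =>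
    have e1 : ev (2 ^ K) (2 ^ K - 1) (s 0) (s 1) (s 2) (s 3) D (.s p i t n)
        = frc (pk (s 0) (s 1) (s 2) (s 3) p) fun s => nr s D t n i
          + (2 ^ K - Nat.land (2147483648 * ng s n) (2 ^ K - 1)) := rfl
    rw [e1, frc_eq, pk_eq s h, land_eq, Nat.cast_add, nr_eq]
    have e2 : Ex.gen (fun p => (s p : ℤ)) (g D) (.s p i t n)
        = gl (s p : ℤ) (rl (ue (g D)) i t n) + - ((2147483648 * ng (s p) n : ℕ) : ℤ) := by
      simp only [Ex.gen, ng_eq]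
      push_cast
      ring
    rw [e2]
    exact Int.ModEq.add rfl (neg_mod _ _ hM)
  | add a b iha ihb =>
    have e1 : ev (2 ^ K) (2 ^ K - 1) (s 0) (s 1) (s 2) (s 3) D (.add a b)
        = ev (2 ^ K) (2 ^ K - 1) (s 0) (s 1) (s 2) (s 3) D a
          + ev (2 ^ K) (2 ^ K - 1) (s 0) (s 1) (s 2) (s 3) D b := rfl
    rw [e1, Nat.cast_add]
    exact Int.ModEq.add (iha h.1) (ihb h.2.1)
  | sub a b iha ihb =>
    have e1 : ev (2 ^ K) (2 ^ K - 1) (s 0) (s 1) (s 2) (s 3) D (.sub a b)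
        = ev (2 ^ K) (2 ^ K - 1) (s 0) (s 1) (s 2) (s 3) D a
          + (2 ^ K - Nat.land (ev (2 ^ K) (2 ^ K - 1) (s 0) (s 1) (s 2) (s 3) D b) (2 ^ K - 1)) :=
      rfl
    rw [e1, Nat.cast_add, land_eq]
    have e2 : Ex.gen (fun p => (s p : ℤ)) (g D) (.sub a b)
        = Ex.gen (fun p => (s p : ℤ)) (g D) a + - Ex.gen (fun p => (s p : ℤ)) (g D) b := by
      simp only [Ex.gen]
      ring
    rw [e2]
    exact Int.ModEq.add (iha h.1) ((neg_mod _ _ hM).trans (Int.ModEq.neg (ihb h.2.1)))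
  | mul a b iha ihb =>
    have e1 : ev (2 ^ K) (2 ^ K - 1) (s 0) (s 1) (s 2) (s 3) D (.mul a b)
        = Nat.land (ev (2 ^ K) (2 ^ K - 1) (s 0) (s 1) (s 2) (s 3) D a
          * ev (2 ^ K) (2 ^ K - 1) (s 0) (s 1) (s 2) (s 3) D b) (2 ^ K - 1) := rfl
    rw [e1, land_eq, Int.natCast_mod, Nat.cast_mul]
    exact (Int.mod_modEq _ _).trans (Int.ModEq.mul (iha h.1) (ihb h.2))

/-! ### regrouping -/

/-- position of a monomial -/
def pos (D0 D1 D2 : ℕ) (m : Mn) : ℕ := m.2.1 + D0 * (m.2.2.1 + D1 * (m.2.2.2.1 + D2 * m.2.2.2.2))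

/-- the coefficient at a position -/
def cf (pos : Mn → ℕ) (p : List Mn) (i : ℕ) : ℤ :=
  (p.map fun m => if pos m = i then m.1 else 0).sum

theorem regroup {S : Type*} [CommRing S] {pos : Mn → ℕ} {L : ℕ} {f : Mn → S} {g : ℕ → S}
    (p : List Mn) (h : ∀ m ∈ p, pos m < L ∧ f m = (m.1 : S) * g (pos m)) :
    (p.map f).sum = ∑ i ∈ range L, (cf pos p i : S) * g i := by
  induction p with
  | nil => simp [cf]
  | cons m p ih =>
    have h1 := h m (by simp)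
    rw [List.map_cons, List.sum_cons, ih fun m hm => h m (by simp [hm])]
    have h2 : ∀ i, (cf pos (m :: p) i : S) = (if pos m = i then (m.1 : S) else 0)
        + (cf pos p i : S) := by
      intro i
      simp only [cf, List.map_cons, List.sum_cons, Int.cast_add]
      congr 1
      split_ifs <;> simp
    simp only [h2, add_mul, Finset.sum_add_distrib, ite_mul, zero_mul]
    rw [Finset.sum_ite_eq, if_pos (Finset.mem_range.2 h1.1), h1.2]

theorem cf_abs (pos : Mn → ℕ) (p : List Mn) (i : ℕ) : (cf pos p i).natAbs ≤ sa p := by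
  induction p with
  | nil => simp [cf, sa]
  | cons m p ih =>
    simp only [cf, sa, List.map_cons, List.sum_cons] at ih ⊢
    split_ifs <;> omega

/-- the points of the evaluation -/
def sW (W D0 D1 D2 : ℕ) (p : ℕ) : ℕ :=
  match p with
  | 0 => W
  | 1 => W ^ D0
  | 2 => W ^ (D0 * D1)
  | _ => W ^ (D0 * D1 * D2)

theorem em_pos (W D0 D1 D2 : ℕ) (m : Mn) : em (fun p => ((sW W D0 D1 D2 p : ℕ) : ℤ)) m
    = (m.1 : ℤ) * (W : ℤ) ^ pos D0 D1 D2 m := by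
  simp only [em, sW, pos, Int.cast_id]
  push_cast
  rw [← pow_mul, ← pow_mul, ← pow_mul, ← pow_add, ← pow_add, ← pow_add]
  congr 2
  ring

/-- the value of the monomial of a position -/
noncomputable def gp (D0 D1 D2 : ℕ) (κ : ℕ → ℝ) (i : ℕ) : ℝ :=
  κ 0 ^ (i % D0) * κ 1 ^ (i / D0 % D1) * κ 2 ^ (i / D0 / D1 % D2) * κ 3 ^ (i / D0 / D1 / D2)

theorem em_gp {D0 D1 D2 : ℕ} (κ : ℕ → ℝ) {m : Mn} (h0 : m.2.1 < D0) (h1 : m.2.2.1 < D1)
    (h2 : m.2.2.2.1 < D2) : em κ m = (m.1 : ℝ) * gp D0 D1 D2 κ (pos D0 D1 D2 m) := by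
  have e0 : pos D0 D1 D2 m % D0 = m.2.1 := by
    rw [pos, Nat.add_mul_mod_self_left, Nat.mod_eq_of_lt h0]
  have e1 : pos D0 D1 D2 m / D0 = m.2.2.1 + D1 * (m.2.2.2.1 + D2 * m.2.2.2.2) := by
    rw [pos, Nat.add_mul_div_left _ _ (by omega), Nat.div_eq_of_lt h0, zero_add]
  have e2 : (m.2.2.1 + D1 * (m.2.2.2.1 + D2 * m.2.2.2.2)) % D1 = m.2.2.1 := by
    rw [Nat.add_mul_mod_self_left, Nat.mod_eq_of_lt h1]
  have e3 : (m.2.2.1 + D1 * (m.2.2.2.1 + D2 * m.2.2.2.2)) / D1 = m.2.2.2.1 + D2 * m.2.2.2.2 := by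
    rw [Nat.add_mul_div_left _ _ (by omega), Nat.div_eq_of_lt h1, zero_add]
  have e4 : (m.2.2.2.1 + D2 * m.2.2.2.2) % D2 = m.2.2.2.1 := by
    rw [Nat.add_mul_mod_self_left, Nat.mod_eq_of_lt h2]
  have e5 : (m.2.2.2.1 + D2 * m.2.2.2.2) / D2 = m.2.2.2.2 := by
    rw [Nat.add_mul_div_left _ _ (by omega), Nat.div_eq_of_lt h2, zero_add]
  unfold gp em
  rw [e0, e1, e2, e3, e4, e5]

theorem pos_lt {D0 D1 D2 D3 : ℕ} {m : Mn} (h0 : m.2.1 < D0) (h1 : m.2.2.1 < D1)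
    (h2 : m.2.2.2.1 < D2) (h3 : m.2.2.2.2 < D3) : pos D0 D1 D2 m < D0 * D1 * D2 * D3 := by
  have a3 : m.2.2.2.1 + D2 * m.2.2.2.2 + 1 ≤ D2 * D3 := by
    have := Nat.mul_le_mul_left D2 (show m.2.2.2.2 + 1 ≤ D3 by omega)
    rw [Nat.mul_add] at this
    omega
  have a2 : m.2.2.1 + D1 * (m.2.2.2.1 + D2 * m.2.2.2.2) + 1 ≤ D1 * (D2 * D3) := by
    have := Nat.mul_le_mul_left D1 a3
    rw [Nat.mul_add] at this
    omega
  have a1 := Nat.mul_le_mul_left D0 a2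
  rw [Nat.mul_add] at a1
  have a0 : D0 * D1 * D2 * D3 = D0 * (D1 * (D2 * D3)) := by ring
  rw [a0]
  unfold pos
  omega

/-! ### the check of a row -/

/-- a type of inequality: expression, exponent of the coefficient bound, degrees plus one -/
structure Ty where
  E : Ex
  β : ℕ
  D0 : ℕ
  D1 : ℕ
  D2 : ℕ
  D3 : ℕ

/-- shape facts, decided once for every type -/
def Ty.shp (T : Ty) : Bool :=
  T.E.ok && Nat.blt T.E.sz 65536 && Nat.beq (T.E.dg 0 + 1) T.D0 && Nat.beq (T.E.dg 1 + 1) T.D1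
    && Nat.beq (T.E.dg 2 + 1) T.D2 && Nat.beq (T.E.dg 3 + 1) T.D3 && Nat.blt T.E.ab (2 ^ T.β)

/-- the numerical check of a row -/
noncomputable def row (E : Ex) (β D0 D1 D2 D3 D : ℕ) : Bool :=
  frc (Nat.pow (nat_lit 2) (Nat.succ β)) fun W =>
  frc (Nat.pow W D0) fun s1 =>
  frc (Nat.pow s1 D1) fun s2 =>
  frc (Nat.pow s2 D2) fun s3 =>
  frc (Nat.pow s3 D3) fun M =>
  frc (Nat.pred M) fun M1 =>
  frc (Nat.mul (Nat.pow (nat_lit 2) β) (Nat.div M1 (Nat.pred W))) fun HR =>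
  Nat.beq (Nat.land (Nat.land (Nat.add (ev M M1 W s1 s2 s3 D E) HR) M1) HR) HR

theorem gsum {W : ℕ} (hW : 2 ≤ W) (L : ℕ) : (W ^ L - 1) / (W - 1) = ∑ j ∈ range L, W ^ j :=
  (Nat.geomSum_eq hW L).symm

theorem le_open {E : Ex} {β D0 D1 D2 D3 D : ℕ} (hE : E.Hg) (d0 : E.dg 0 + 1 = D0)
    (d1 : E.dg 1 + 1 = D1) (d2 : E.dg 2 + 1 = D2) (d3 : E.dg 3 + 1 = D3) (hb : E.ab < 2 ^ β)
    (hr : row E β D0 D1 D2 D3 D = true) {ρ : ℕ → ℝ} (h0 : ∀ p, 0 ≤ ρ p)
    (h1 : ∀ p, ρ p < 1) : 0 ≤ E.val ρ (g D) := by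
  unfold row at hr
  simp only [frc_eq] at hr
  set κ : ℕ → ℝ := fun p => ρ p / (1 - ρ p) with hκ
  have k1 : ∀ p, 0 < 1 - ρ p := fun p => by linarith [h1 p]
  have k0 : ∀ p, 0 ≤ κ p := fun p => div_nonneg (h0 p) (k1 p).le
  have ke : ∀ p, ρ p = (1 - ρ p) * κ p := fun p => by
    simp only [hκ]
    rw [mul_div_cancel₀ _ (k1 p).ne']
  have ne1 : ∀ p, ρ p ≠ 1 := fun p => (h1 p).ne
  rw [val_eq E hE (g D) ne1 ke]
  refine mul_nonneg (mul_nonneg (mul_nonneg (mul_nonneg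
    (pow_nonneg (k1 0).le _) (pow_nonneg (k1 1).le _)) (pow_nonneg (k1 2).le _))
    (pow_nonneg (k1 3).le _)) ?_
  -- the positions
  have bE : ∀ m ∈ E.P (g D), m.2.1 < D0 ∧ m.2.2.1 < D1 ∧ m.2.2.2.1 < D2 ∧ m.2.2.2.2 < D3 :=
    fun m hm => by
      have := bd_P (g D) E hE m hm
      unfold Bd at this
      omega
  set L := D0 * D1 * D2 * D3 with hL
  set W := 2 ^ (β + 1) with hW
  set c : ℕ → ℤ := cf (pos D0 D1 D2) (E.P (g D)) with hc
  have rW : E.gen (fun p => ((sW W D0 D1 D2 p : ℕ) : ℤ)) (g D)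
      = ∑ j ∈ range L, c j * (W : ℤ) ^ j := by
    rw [← el_P _ (g D) E hE]
    unfold el
    exact regroup (pos := pos D0 D1 D2) (L := L) (g := fun j => (W : ℤ) ^ j) (E.P (g D))
      fun m hm => ⟨pos_lt (bE m hm).1 (bE m hm).2.1 (bE m hm).2.2.1 (bE m hm).2.2.2,
        em_pos _ _ _ _ m⟩
  have rK : E.gen κ (g D) = ∑ j ∈ range L, (c j : ℝ) * gp D0 D1 D2 κ j := by
    rw [← el_P κ (g D) E hE]
    unfold el
    exact regroup (S := ℝ) (pos := pos D0 D1 D2) (L := L) (f := em κ) (g := gp D0 D1 D2 κ)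
      (E.P (g D)) fun m hm => ⟨pos_lt (bE m hm).1 (bE m hm).2.1 (bE m hm).2.2.1 (bE m hm).2.2.2,
        em_gp κ (bE m hm).1 (bE m hm).2.1 (bE m hm).2.2.1⟩
  have cb : ∀ j, (c j).natAbs < 2 ^ β := fun j =>
    lt_of_le_of_lt (cf_abs _ _ _) (lt_of_le_of_lt (sa_P (g_lt D) E) hb)
  -- the digits
  set x : ℕ → ℕ := fun j => (c j + 2 ^ β).toNat with hx
  have pβ : 0 < 2 ^ β := by positivity
  have xe : ∀ j, ((x j : ℕ) : ℤ) = c j + 2 ^ β := fun j => by
    simp only [hx]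
    rw [Int.toNat_of_nonneg]
    have := cb j
    have h3 : ((c j).natAbs : ℤ) < 2 ^ β := by exact_mod_cast this
    omega
  have p2 : W = 2 ^ β + 2 ^ β := by rw [hW]; ring
  have xl : ∀ j < L, x j < W := fun j _ => by
    have := cb j
    have h3 : ((c j).natAbs : ℤ) < 2 ^ β := by exact_mod_cast this
    have h4 : ((x j : ℕ) : ℤ) < ((W : ℕ) : ℤ) := by
      rw [xe, p2]
      push_cast
      omega
    exact_mod_cast h4
  have eW : 2 ≤ W := by
    calc 2 = 2 ^ 1 := by norm_num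
      _ ≤ 2 ^ (β + 1) := Nat.pow_le_pow_right (by norm_num) (by omega)
  set HR := 2 ^ β * ((W ^ L - 1) / (W - 1)) with hHR
  have eH : HR = ∑ j ∈ range L, 2 ^ β * W ^ j := by
    rw [hHR, ← Finset.mul_sum, gsum eW]
  set X := ∑ j ∈ range L, x j * W ^ j with hX
  have eX : (X : ℤ) = E.gen (fun p => ((sW W D0 D1 D2 p : ℕ) : ℤ)) (g D) + (HR : ℤ) := by
    rw [rW, eH, hX]
    push_cast
    rw [← Finset.sum_add_distrib]
    refine Finset.sum_congr rfl fun j _ => ?_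
    have := xe j
    rw [this]
    ring
  have Xl : X < W ^ L := Sim.dig_lt L xl
  -- the evaluation
  set K := (β + 1) * L with hK
  have eM : W ^ L = 2 ^ K := by rw [hW, ← pow_mul]
  have m1 := ev_mod K (sW W D0 D1 D2) D E hE
  have e1 : (W ^ D0) = sW W D0 D1 D2 1 := rfl
  have e2 : ((W ^ D0) ^ D1) = sW W D0 D1 D2 2 := by rw [← pow_mul]; rfl
  have e3 : (((W ^ D0) ^ D1) ^ D2) = sW W D0 D1 D2 3 := by
    rw [← pow_mul, ← pow_mul, ← Nat.mul_assoc]; rfl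
  have e4 : ((((W ^ D0) ^ D1) ^ D2) ^ D3) = 2 ^ K := by
    rw [← pow_mul, ← pow_mul, ← pow_mul, ← eM, hL]
    congr 1
    ring
  have hr2 : ((ev (2 ^ K) (2 ^ K - 1) (sW W D0 D1 D2 0) (sW W D0 D1 D2 1) (sW W D0 D1 D2 2)
      (sW W D0 D1 D2 3) D E + HR) % 2 ^ K) &&& HR = HR := by
    have h3 := Nat.eq_of_beq_eq_true hr
    have h4 : ∀ a b : ℕ, Nat.pow a b = a ^ b := fun _ _ => rfl
    simp only [h4] at h3
    rw [show (2 : ℕ) ^ Nat.succ β = W from rfl] at h3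
    rw [e4, e3, e2, e1] at h3
    have h5 : (Nat.pred (2 ^ K)) = 2 ^ K - 1 := rfl
    have h6 : (Nat.mul (2 ^ β) ((Nat.pred (2 ^ K)).div W.pred)) = HR := by
      rw [hHR, eM]
      rfl
    rw [h6, h5, land_eq] at h3
    exact h3
  have m2 : ((ev (2 ^ K) (2 ^ K - 1) (sW W D0 D1 D2 0) (sW W D0 D1 D2 1) (sW W D0 D1 D2 2)
      (sW W D0 D1 D2 3) D E + HR : ℕ) : ℤ) ≡ (X : ℤ) [ZMOD ((2 ^ K : ℕ) : ℤ)] := by
    rw [Nat.cast_add, eX]
    exact Int.ModEq.add m1 rfl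
  have m3 : (ev (2 ^ K) (2 ^ K - 1) (sW W D0 D1 D2 0) (sW W D0 D1 D2 1) (sW W D0 D1 D2 2)
      (sW W D0 D1 D2 3) D E + HR) % 2 ^ K = X := by
    have h3 := (Int.natCast_modEq_iff).1 m2
    unfold Nat.ModEq at h3
    rw [h3, ← eM, Nat.mod_eq_of_lt Xl]
  rw [m3] at hr2
  rw [rK]
  refine Finset.sum_nonneg fun j hj => mul_nonneg ?_ ?_
  · have hj' := Finset.mem_range.1 hj
    have t1 := Sim.dig_bit (β := β) (x := x) xl hj'
    have hl : ∀ j < L, 2 ^ β < 2 ^ (β + 1) := fun j _ => by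
      rw [← hW, p2]
      omega
    have t2 := Sim.dig_bit (β := β) (x := fun _ => 2 ^ β) hl hj'
    rw [← hW, ← hX] at t1
    rw [← hW, ← eH] at t2
    have t3 : (X &&& HR).testBit ((β + 1) * j + β)
        = (X.testBit ((β + 1) * j + β) && HR.testBit ((β + 1) * j + β)) :=
      Nat.testBit_land _ _ _
    rw [hr2, t1, t2] at t3
    simp only [le_refl, decide_true, Bool.and_true] at t3
    have t4 := of_decide_eq_true t3.symm
    have t5 : ((2 ^ β : ℕ) : ℤ) ≤ (x j : ℤ) := by exact_mod_cast t4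
    rw [xe] at t5
    push_cast at t5
    have t6 : 0 ≤ c j := by linarith
    exact_mod_cast t6
  · unfold gp
    exact mul_nonneg (mul_nonneg (mul_nonneg (pow_nonneg (k0 0) _) (pow_nonneg (k0 1) _))
      (pow_nonneg (k0 2) _)) (pow_nonneg (k0 3) _)

theorem hv_cont (l : List ℤ) : Continuous fun x => hv x l := by
  induction l with
  | nil => simpa [hv] using continuous_const
  | cons a l ih =>
    simp only [hv]
    exact (continuous_const.mul ((continuous_const.sub continuous_id).pow _)).add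
      (continuous_id.mul ih)

theorem val_cont (a : Ex) (e : ℕ → ℕ) {f : ℝ → ℕ → ℝ} (hf : ∀ p, Continuous fun e => f e p) :
    Continuous fun t => a.val (f t) e := by
  induction a with
  | c n => exact continuous_const
  | v p => exact hf p
  | q p => exact continuous_const.sub (hf p)
  | w p n => exact continuous_const
  | u p l => exact (hv_cont _).comp (hf p)
  | r p i t n => exact (hv_cont _).comp (hf p)
  | s p i t n => exact (hv_cont _).comp (hf p)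
  | add a b iha ihb => exact iha.add ihb
  | sub a b iha ihb => exact iha.sub ihb
  | mul a b iha ihb => exact iha.mul ihb

/-- **soundness of a row** -/
theorem row_le {T : Ty} (hs : T.shp = true) {D : ℕ}
    (hr : row T.E T.β T.D0 T.D1 T.D2 T.D3 D = true) {ρ : ℕ → ℝ} (h0 : ∀ p, 0 ≤ ρ p)
    (h1 : ∀ p, ρ p ≤ 1) : 0 ≤ T.E.val ρ (g D) := by
  unfold Ty.shp at hs
  simp only [Bool.and_eq_true] at hs
  obtain ⟨⟨⟨⟨⟨⟨ok, sz⟩, a0⟩, a1⟩, a2⟩, a3⟩, hb⟩ := hs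
  rw [Nat.blt_eq] at sz hb
  have hE := hg_of_ok T.E ok sz
  have hc : ∀ p, Continuous fun e : ℝ => (1 - e) * ρ p := fun p =>
    (continuous_const.sub continuous_id).mul continuous_const
  have cA := val_cont T.E (g D) (f := fun e p => (1 - e) * ρ p) hc
  have tA : Filter.Tendsto (fun e : ℝ => T.E.val (fun p => (1 - e) * ρ p) (g D))
      (nhdsWithin 0 (Set.Ioi 0)) (nhds (T.E.val ρ (g D))) := by
    have := (cA.tendsto 0).mono_left (nhdsWithin_le_nhds (s := Set.Ioi 0))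
    simpa using this
  refine ge_of_tendsto tA ?_
  have : Set.Ioo (0 : ℝ) 1 ∈ nhdsWithin (0 : ℝ) (Set.Ioi 0) := Ioo_mem_nhdsGT one_pos
  filter_upwards [this] with e he
  refine le_open hE (Nat.eq_of_beq_eq_true a0) (Nat.eq_of_beq_eq_true a1)
    (Nat.eq_of_beq_eq_true a2) (Nat.eq_of_beq_eq_true a3) hb hr
    (fun p => mul_nonneg (by linarith [he.2]) (h0 p)) fun p => ?_
  nlinarith [he.1, he.2, h0 p, h1 p]

end Pool.Agent.RZ.RCO.Sg
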