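import Pool.Agent.RZ.RCO.Sg2

/-! Signed packed checker with row parameters, part 3: tables of rows (MP_73ccd0_lc). -/

set_option autoImplicit false

namespace Pool.Agent.RZ.RCO.Sg

/-- bound of the parameters which are used -/
def Ex.mx : Ex → ℕ
  | .c _ => 0
  | .v _ => 0
  | .q _ => 0
  | .w _ _ => 0
  | .u _ _ => 0
  | .r _ i t n => i + t * (n - 1) + 1
  | .s _ i t n => i + t * (n - 1) + 1
  | .add a b => max a.mx b.mx
  | .sub a b => max a.mx b.mx
  | .mul a b => max a.mx b.mx

theorem rl_congr {e e' : ℕ → ℤ} (t n : ℕ) :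
    ∀ i, (∀ j < i + t * (n - 1) + 1, e j = e' j) → rl e i t n = rl e' i t n := by
  induction n with
  | zero => intro i _; rfl
  | succ n ih =>
    intro i h
    simp only [rl]
    have e0 : e i = e' i := h i (by omega)
    rw [e0]
    cases n with
    | zero => rfl
    | succ n =>
      rw [ih (i + t) fun j hj => h j ?_]
      have e1 : i + t * (n + 1 + 1 - 1) = i + t + t * (n + 1 - 1) := by
        simp only [Nat.add_sub_cancel]
        ring
      omega

theorem val_congr (ρ : ℕ → ℝ) {e e' : ℕ → ℕ} (E : Ex) (h : ∀ j < E.mx, e j = e' j) :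
    E.val ρ e = E.val ρ e' := by
  induction E with
  | c n => rfl
  | v p => rfl
  | q p => rfl
  | w p n => rfl
  | u p l => rfl
  | r p i t n =>
    simp only [Ex.val]
    rw [rl_congr (e := ue e) (e' := ue e') t n i fun j hj => by simp only [ue]; rw [h j hj]]
  | s p i t n =>
    simp only [Ex.val]
    rw [rl_congr (e := se e) (e' := se e') t n i fun j hj => by simp only [se]; rw [h j hj]]
  | add a b iha ihb =>
    simp only [Ex.val, Ex.mx] at h ⊢
    rw [iha fun j hj => h j (by omega), ihb fun j hj => h j (by omega)]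
  | sub a b iha ihb =>
    simp only [Ex.val, Ex.mx] at h ⊢
    rw [iha fun j hj => h j (by omega), ihb fun j hj => h j (by omega)]
  | mul a b iha ihb =>
    simp only [Ex.val, Ex.mx] at h ⊢
    rw [iha fun j hj => h j (by omega), ihb fun j hj => h j (by omega)]

/-! ### loops -/

noncomputable def allr (f : ℕ → Bool) (n : ℕ) : Bool :=
  @Nat.rec (fun _ => Bool) true (fun j ih => @Bool.rec (fun _ => Bool) false ih (f j)) n

theorem allr_of {f : ℕ → Bool} {n : ℕ} (h : allr f n = true) : ∀ j < n, f j = true := by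
  induction n with
  | zero => intro j hj; omega
  | succ n ih =>
    intro j hj
    have e : allr f (n + 1) = @Bool.rec (fun _ => Bool) false (allr f n) (f n) := rfl
    rw [e] at h
    cases hf : f n with
    | false => rw [hf] at h; cases h
    | true =>
      rw [hf] at h
      rcases Nat.lt_succ_iff_lt_or_eq.1 hj with h1 | h1
      · exact ih h j h1
      · rw [h1]; exact hf

noncomputable def alll (f : Ty → Bool) (l : List Ty) : Bool :=
  @List.rec Ty (fun _ => Bool) true (fun T _ ih => @Bool.rec (fun _ => Bool) false ih (f T)) l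

theorem alll_of {f : Ty → Bool} {l : List Ty} (h : alll f l = true) : ∀ T ∈ l, f T = true := by
  induction l with
  | nil => intro T hT; simp at hT
  | cons T l ih =>
    intro T' hT'
    have e : alll f (T :: l) = @Bool.rec (fun _ => Bool) false (alll f l) (f T) := rfl
    rw [e] at h
    cases hf : f T with
    | false => rw [hf] at h; cases h
    | true =>
      rw [hf] at h
      rcases List.mem_cons.1 hT' with h1 | h1
      · rw [h1]; exact hf
      · exact ih h T' h1

/-! ### tables: the entries of node `j` start at `R * j` -/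

/-- all rows `j0 ≤ j < j0 + n`, all types; the step `j` sees `m` entries from `R * j` on -/
noncomputable def steps (ts : List Ty) (R m D j0 n : ℕ) : Bool :=
  frc (Nat.pred (Nat.pow (nat_lit 2) (Nat.mul (nat_lit 32) m))) fun mask =>
  allr (fun j => frc (Nat.land (Nat.shiftRight D (Nat.mul (nat_lit 32)
    (Nat.mul R (Nat.add j0 j)))) mask) fun d =>
    alll (fun T => row T.E T.β T.D0 T.D1 T.D2 T.D3 d) ts) n

/-- shape facts of the types -/
def shps (ts : List Ty) (m : ℕ) : Bool :=
  ts.all fun T => T.shp && Nat.ble T.E.mx m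

/-- **soundness of a table** -/
theorem steps_le {ts : List Ty} {R m D j0 n : ℕ} (hs : shps ts m = true)
    (h : steps ts R m D j0 n = true) {j : ℕ} (h0 : j0 ≤ j) (h1 : j < j0 + n) {T : Ty}
    (hT : T ∈ ts) {ρ : ℕ → ℝ} (r0 : ∀ p, 0 ≤ ρ p) (r1 : ∀ p, ρ p ≤ 1) :
    0 ≤ T.E.val ρ (fun i => g D (R * j + i)) := by
  unfold shps at hs
  rw [List.all_eq_true] at hs
  have h2 := hs T hT
  simp only [Bool.and_eq_true] at h2
  obtain ⟨sh, mx⟩ := h2
  have mx' : T.E.mx ≤ m := Nat.le_of_ble_eq_true mx
  unfold steps at h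
  rw [frc_eq] at h
  have h3 := allr_of h (j - j0) (by omega)
  rw [frc_eq] at h3
  have h4 := alll_of h3 T hT
  have h5 := row_le sh h4 r0 r1
  have e1 : Nat.add j0 (j - j0) = j := by
    show j0 + (j - j0) = j
    omega
  rw [e1] at h5
  have e2 : ∀ i < T.E.mx, g (Nat.land (Nat.shiftRight D (Nat.mul 32 (Nat.mul R j)))
      (Nat.pred (Nat.pow 2 (Nat.mul 32 m)))) i = g D (R * j + i) := by
    intro i hi
    have h6 := g_cut (Nat.shiftRight D (Nat.mul 32 (Nat.mul R j))) m i (by omega)
    have h7 := g_shift D (Nat.mul R j) i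
    rw [h7] at h6
    exact h6
  rw [val_congr ρ T.E e2] at h5
  exact h5

/-! ### node values -/

/-- value of the entry `i` of the node `j`, unsigned and signed -/
noncomputable def nv (D R i j : ℕ) : ℝ := (g D (R * j + i) : ℝ)
noncomputable def sv (D R i j : ℕ) : ℝ := (g D (R * j + i) : ℝ) - 2147483648

theorem nv_nonneg (D R i j : ℕ) : 0 ≤ nv D R i j := Nat.cast_nonneg _

/-- a piecewise linear function on the step `j` -/
theorem r_lin (ρ : ℕ → ℝ) (p D R i j : ℕ) : (Ex.r p i R 2).val ρ (fun k => g D (R * j + k))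
    = (1 - ρ p) * nv D R i j + ρ p * nv D R i (j + 1) := by
  have e : R * j + (i + R) = R * (j + 1) + i := by ring
  simp only [Ex.val, rl, hv, ue, nv, List.length_cons, List.length_nil, e]
  push_cast
  ring

theorem s_lin (ρ : ℕ → ℝ) (p D R i j : ℕ) : (Ex.s p i R 2).val ρ (fun k => g D (R * j + k))
    = (1 - ρ p) * sv D R i j + ρ p * sv D R i (j + 1) := by
  have e : R * j + (i + R) = R * (j + 1) + i := by ring
  simp only [Ex.val, rl, hv, se, sv, List.length_cons, List.length_nil, e]
  push_cast
  ring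

/-- a parameter -/
theorem r_one (ρ : ℕ → ℝ) (p D R i t j : ℕ) : (Ex.r p i t 1).val ρ (fun k => g D (R * j + k))
    = nv D R i j := by
  simp only [Ex.val, rl, hv, ue, nv, List.length_nil]
  push_cast
  ring

theorem s_one (ρ : ℕ → ℝ) (p D R i t j : ℕ) : (Ex.s p i t 1).val ρ (fun k => g D (R * j + k))
    = sv D R i j := by
  simp only [Ex.val, rl, hv, se, sv, List.length_nil]
  push_cast
  ring

/-! ### simp lemmas for the evaluation of the types -/

theorem v_add (ρ : ℕ → ℝ) (e : ℕ → ℕ) (a b : Ex) :
    (Ex.add a b).val ρ e = a.val ρ e + b.val ρ e := rfl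

theorem v_sub (ρ : ℕ → ℝ) (e : ℕ → ℕ) (a b : Ex) :
    (Ex.sub a b).val ρ e = a.val ρ e - b.val ρ e := rfl

end Pool.Agent.RZ.RCO.Sg
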