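import Pool.Agent.RZ.RCO.Gl6
import Pool.Agent.RZ.RCO.Gz1
import Pool.Agent.RZ.RCO.St1

/-! Route P: the star of a vertex `a`: majorants of level 0 of all the worlds `(b, a)` at once
(MP_73ccd0_lc). -/

namespace Pool.Agent.RZ.RCO

open Set Finset MeasureTheory Pool.Agent.RZ.RCRSHalf Pool.Agent.RZ.RCG Pool.Agent.RZ.RCG.Ct
open Pool.Agent.RZ.RCN Pool.Agent.RZ.RCN.K

set_option linter.unusedSectionVars false

variable {V : Type*} [Fintype V] [DecidableEq V]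

/-! ### the star functions -/

/-- the functions of the pair worlds `W`, `Nr` are below those of the star `Ws`, `Ns` -/
structure StC (W Ws Nr Ns : Pt → ℝ) : Prop where
  W : ∀ p q : Pt, p.Ful → q.Ful → q.k ≤ XM → q.k ≤ p.k → p.k ≤ q.k + XM → W p ≤ Ws q
  N : ∀ p q : Pt, p.Ful → q.Ful → q.k ≤ XM → q.k ≤ p.k → p.k ≤ q.k + XM → Nr p ≤ Ns q

/-- the exponents of the star -/
noncomputable def ysv (x : V → V → ℝ) (P : V → Prop) (D : Finset V) (W : ℝ → Pt → ℝ)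
    (Wp : ℝ → ℝ → ℝ) (v : V) (r : ℝ) : ℝ := Real.log (vo x P D (W r) (Wp r) v)

/-- the lower functions of the star -/
noncomputable def nsv (x : V → V → ℝ) (P : V → Prop) (D : Finset V) (N : ℝ → Pt → ℝ)
    (Np : ℝ → ℝ → ℝ) (v : V) (r : ℝ) : ℝ := vo x P D (N r) (Np r) v

/-- the data of the star are regular -/
structure StR (x : V → V → ℝ) (P : V → Prop) (D : Finset V) (τ : ℝ) (W : ℝ → Pt → ℝ)
    (Wp : ℝ → ℝ → ℝ) (N : ℝ → Pt → ℝ) (Np : ℝ → ℝ → ℝ) : Prop where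
  W1 : ∀ r ∈ Icc 0 τ, ∀ v ∈ Dᶜ, 1 ≤ vo x P D (W r) (Wp r) v
  N1 : ∀ r ∈ Icc 0 τ, ∀ v ∈ Dᶜ, vo x P D (N r) (Np r) v ≤ 1
  cW : ∀ v ∈ Dᶜ, ContinuousOn (fun r => vo x P D (W r) (Wp r) v) (Icc 0 τ)
  cN : ∀ v ∈ Dᶜ, ContinuousOn (fun r => vo x P D (N r) (Np r) v) (Icc 0 τ)

section star

variable {Z : Hzd} {x : V → V → ℝ} {P : V → Prop} [DecidablePred P] {sl : ℝ → ℝ → ℝ}
variable {A D : Finset V} {α τ σ : ℝ} {ζ : V → V → ℝ → ℝ} {Y Y' N N' : V → ℝ → ℝ}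
  {W Ws Nr Ns : ℝ → Pt → ℝ} {Wp Np : ℝ → ℝ → ℝ}

/-- no killing in the exponents of the star -/
def zs0 : V → V → ℝ → ℝ := fun _ _ _ => 0

theorem yv_star (D : Finset V) (Y : V → ℝ → ℝ) (v : V) (r : ℝ) : yv D zs0 Y v r = Y v r := by
  unfold yv zs0
  rw [Finset.sum_const_zero, zero_add]

theorem StR.exp (h : StR x P D τ W Wp Ns Np) {r : ℝ} (hr : r ∈ Icc 0 τ) {v : V} (hv : v ∈ Dᶜ) :
    Real.exp (ysv x P D W Wp v r) = vo x P D (W r) (Wp r) v :=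
  Real.exp_log (lt_of_lt_of_le one_pos (h.W1 r hr v hv))

theorem StR.y0 (h : StR x P D τ W Wp Ns Np) {r : ℝ} (hr : r ∈ Icc 0 τ) {v : V} (hv : v ∈ Dᶜ) :
    0 ≤ ysv x P D W Wp v r := Real.log_nonneg (h.W1 r hr v hv)

/-- the regular data of the star -/
theorem StR.dat (h : StR x P D τ W Wp Ns Np) (hZ : Z.Ok sl) (hx : RCG.Ct.Wt x P 1)
    (τ1 : τ ≤ 1) : GDat Dᶜ τ (Tc0 (Z.hh x P) D zs0 (ysv x P D W Wp))
      (Ac0 (Z.hh x P) D zs0 (ysv x P D W Wp)) (Bc0 (Z.hh x P) D (nsv x P D Ns Np)) := by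
  have hc : ∀ u v, ContinuousOn (fun r => Z.hh x P r u v) (Icc 0 τ) := fun u v =>
    (hZ.hh_cont hx u v).mono (Icc_subset_Icc_right τ1)
  have cy : ∀ u ∈ Dᶜ, ContinuousOn (fun r => yv D zs0 (ysv x P D W Wp) u r) (Icc 0 τ) :=
    fun u hu => (ContinuousOn.log (h.cW u hu) fun r hr =>
      (lt_of_lt_of_le one_pos (h.W1 r hr u hu)).ne').congr fun r _ => yv_star _ _ _ _
  have cE : ∀ u ∈ Dᶜ, ∀ v ∈ Dᶜ, ContinuousOn
      (fun r => Real.exp (yv D zs0 (ysv x P D W Wp) u r + yv D zs0 (ysv x P D W Wp) v r))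
      (Icc 0 τ) := fun u hu v hv =>
    Real.continuous_exp.comp_continuousOn ((cy u hu).add (cy v hv))
  have s0 : ∀ r u v, Z.hh x P r u v = Z.hh x P r v u := fun r u v => Z.hh_symm hx r u v
  have b0 : ∀ r ∈ Icc 0 τ, ∀ u v, 0 ≤ Z.hh x P r u v := fun r hr u v =>
    hZ.hh_nonneg hx ⟨hr.1, hr.2.trans τ1⟩ u v
  have y0 : ∀ r ∈ Icc 0 τ, ∀ u ∈ Dᶜ, 0 ≤ yv D zs0 (ysv x P D W Wp) u r := fun r hr u hu => by
    rw [yv_star]
    exact h.y0 hr hu
  refine ⟨fun r hr => cut_nonneg fun u _ v _ => mul_nonneg (b0 r hr u v) (Real.exp_pos _).le,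
    fun r hr => cut_nonneg fun u hu v hv => mul_nonneg (b0 r hr u v)
      (sub_nonneg.2 (Real.one_le_exp (add_nonneg (y0 r hr u hu) (y0 r hr v hv)))),
    fun r hr => cut_nonneg fun u _ v _ => mul_nonneg (b0 r hr u v) (le_max_left _ _),
    fun r _ => cut_symm fun u v => ?_, fun r _ => cut_symm fun u v => ?_,
    fun r _ => cut_symm fun u v => ?_,
    cut_cont fun u hu v hv => (hc u v).mul (cE u hu v hv),
    cut_cont fun u hu v hv => (hc u v).mul ((cE u hu v hv).sub continuousOn_const),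
    cut_cont fun u hu v hv => (hc u v).mul (ContinuousOn.sup continuousOn_const
      (continuousOn_const.sub ((continuousOn_const.sub (h.cN u hu)).mul
        (continuousOn_const.sub (h.cN v hv)))))⟩
  · unfold RCM.Tb
    rw [s0, add_comm]
  · unfold RCM.Ab
    rw [s0, add_comm]
  · unfold Bq
    rw [s0, mul_comm (1 - nsv x P D Ns Np u r)]

/-- **the bounds of the rates of the star** -/
theorem StR.wbd (h : StR x P D τ W Wp Ns Np) (hZ : Z.Ok sl) (hx : RCG.Ct.Wt x P 1)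
    (τ1 : τ ≤ 1) {r : ℝ} (hr : r ∈ Icc 0 τ) :
    WBd x P D (Z.hh x P r) (Tc0 (Z.hh x P) D zs0 (ysv x P D W Wp) r)
      (Ac0 (Z.hh x P) D zs0 (ysv x P D W Wp) r) (Bc0 (Z.hh x P) D (nsv x P D Ns Np) r)
      (W r) (Wp r) (Ns r) (Np r) := by
  have hD := h.dat (Z := Z) hZ hx τ1
  have ex : ∀ u ∈ Dᶜ, ∀ w ∈ Dᶜ, Real.exp (yv D zs0 (ysv x P D W Wp) u r
      + yv D zs0 (ysv x P D W Wp) w r) = vo x P D (W r) (Wp r) u * vo x P D (W r) (Wp r) w :=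
    fun u hu w hw => by
      rw [yv_star, yv_star, Real.exp_add, h.exp hr hu, h.exp hr hw]
  refine ⟨h.W1 r hr, hD.T0 r hr, hD.A0 r hr, hD.B0 r hr, fun u => ?_, hD.Ts r hr,
    fun u hu w hw => ?_, fun u hu w hw => ?_, fun u hu w hw => ?_⟩
  · unfold Tc0 cut
    split_ifs
    · rfl
    · show Z.hh x P r u u * _ = 0
      rw [Hzd.hh_zero (hx.diag u), zero_mul]
  · have e : Tc0 (Z.hh x P) D zs0 (ysv x P D W Wp) r u w
        = Z.hh x P r u w * Real.exp (yv D zs0 (ysv x P D W Wp) u r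
          + yv D zs0 (ysv x P D W Wp) w r) := cut_eq hu hw
    rw [e, ex u hu w hw]
  · have e : Ac0 (Z.hh x P) D zs0 (ysv x P D W Wp) r u w
        = Z.hh x P r u w * (Real.exp (yv D zs0 (ysv x P D W Wp) u r
          + yv D zs0 (ysv x P D W Wp) w r) - 1) := cut_eq hu hw
    rw [e, ex u hu w hw]
  · have e : Bc0 (Z.hh x P) D (nsv x P D Ns Np) r u w
        = Z.hh x P r u w * bmx (nsv x P D Ns Np u r) (nsv x P D Ns Np w r) := cut_eq hu hw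
    rw [e]
    exact le_rfl

end star

/-! ### level 0 of the pairs -/

section lev0

variable {Z : Hzd} {x : V → V → ℝ} {P : V → Prop} [DecidablePred P] {sl : ℝ → ℝ → ℝ}
variable {a b : V} {α τ σ : ℝ} {ζ : V → V → ℝ → ℝ} {Y Y' N N' : V → ℝ → ℝ}
  {W Ws Nr Ns : ℝ → Pt → ℝ} {Wp Np : ℝ → ℝ → ℝ}

/-- the killed mass of the pair world -/
theorem kk_pair (x : V → V → ℝ) {a b : V} (hab : b ≠ a) (v : V) :
    kk x {b, a} v = x b v + kk x {a} v := by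
  unfold kk
  rw [Finset.sum_pair hab, Finset.sum_singleton]

/-- **level 0 of the pair `(b, a)` with the majorants of the star of `a`** -/
theorem w0_star (hx : RCG.Ct.Wt x P 1) (hR : StR x P {a} τ Ws Wp Ns Np)
    (hC : ∀ r ∈ Icc 0 τ, StC (W r) (Ws r) (Nr r) (Ns r)) (hb : P b) (hab : b ≠ a)
    (h : Dt0 Z x P {b} {b, a} α τ σ ζ Y Y' N N')
    {Wq Nq : ℝ → ℝ → ℝ}
    (hL : ∀ r ∈ Icc 0 τ, L0b Z x P {b, a} ζ Y N r (W r) (Wq r) (Nr r) (Nq r)) :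
    W0cq Z x P {b} {b, a} α τ σ (Tc0 (Z.hh x P) {a} zs0 (ysv x P {a} Ws Wp))
      (Ac0 (Z.hh x P) {a} zs0 (ysv x P {a} Ws Wp)) (Bc0 (Z.hh x P) {a} (nsv x P {a} Ns Np)) := by
  have hx' : RCM.Wt x := wt_of hx
  have hDc := Finset.compl_subset_compl.2 (pair_sub b a)
  have c2 : ({b, a} : Finset V).card ≤ 2 := Finset.card_le_two
  have c1 : ({a} : Finset V).card ≤ 2 := by rw [Finset.card_singleton]; norm_num
  have kle : ∀ v, kk x {a} v ≤ kk x {b, a} v ∧ kk x {b, a} v ≤ kk x {a} v + XM :=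
    fun v => by
      rw [kk_pair x hab]
      exact ⟨by linarith [hx.nonneg b v], by linarith [hx.leX b v]⟩
  have k1 : ∀ v, kk x {a} v ≤ XM := fun v => by
    unfold kk
    rw [Finset.sum_singleton]
    exact hx.leX a v
  have b0 : ∀ u v, ∀ r ∈ Icc 0 τ, 0 ≤ Z.hh x P r u v := h.L.b0
  -- the factors
  have hE : ∀ r ∈ Icc 0 τ, ∀ u ∈ ({b, a} : Finset V)ᶜ, ∀ w ∈ ({b, a} : Finset V)ᶜ, x u w ≠ 0 →
      Real.exp (yv {b, a} ζ Y u r) ≤ vo x P {a} (Ws r) (Wp r) u ∧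
        N u r ≤ vo x P {a} (Ns r) (Np r) u := fun r hr u hu w hw h0 => by
    have hP : P u := by
      by_contra hP
      exact h0 (hx.pz u w fun h => hP h.1)
    rw [vo_l hP, vo_l hP]
    have k := kle u
    have f1 := ful_fp hx c2 hu hP
    have f2 := ful_fp hx c1 (hDc hu) hP
    exact ⟨((hL r hr).hW u hu hP).trans ((hC r hr).W _ _ f1 f2 (k1 u) k.1 k.2),
      ((hL r hr).hN u hu hP).trans ((hC r hr).N _ _ f1 f2 (k1 u) k.1 k.2)⟩
  have z : ∀ r u w, x u w = 0 → Z.hh x P r u w = 0 := fun r u w h0 => Hzd.hh_zero h0 r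
  have ex : ∀ r ∈ Icc 0 τ, ∀ u ∈ ({b, a} : Finset V)ᶜ, ∀ w ∈ ({b, a} : Finset V)ᶜ, x u w ≠ 0 →
      Real.exp (yv {b, a} ζ Y u r + yv {b, a} ζ Y w r)
        ≤ Real.exp (yv {a} zs0 (ysv x P {a} Ws Wp) u r + yv {a} zs0 (ysv x P {a} Ws Wp) w r) :=
    fun r hr u hu w hw h0 => by
      rw [yv_star, yv_star, Real.exp_add, Real.exp_add, hR.exp hr (hDc hu),
        hR.exp hr (hDc hw)]
      exact mul_le_mul (hE r hr u hu w hw h0).1
        (hE r hr w hw u hu (by rwa [hx.symm w u])).1 (Real.exp_pos _).le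
        (zero_le_one.trans (hR.W1 r hr u (hDc hu)))
  refine w0cq_ofv h.L h.AD h.α0 h.ζa h.ζs (fun r hr u hu w hw => ?_) (fun r hr u hu w hw => ?_)
    fun r hr u hu w hw => ?_
  · rw [show Tc0 (Z.hh x P) {a} zs0 (ysv x P {a} Ws Wp) r u w = Z.hh x P r u w
      * Real.exp (yv {a} zs0 (ysv x P {a} Ws Wp) u r + yv {a} zs0 (ysv x P {a} Ws Wp) w r) from
      cut_eq (hDc hu) (hDc hw)]
    show Z.hh x P r u w * Real.exp (yv {b, a} ζ Y u r + yv {b, a} ζ Y w r) ≤ _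
    by_cases h0 : x u w = 0
    · rw [z r u w h0, zero_mul, zero_mul]
    · exact mul_le_mul_of_nonneg_left (ex r hr u hu w hw h0) (b0 u w r hr)
  · rw [show Ac0 (Z.hh x P) {a} zs0 (ysv x P {a} Ws Wp) r u w = Z.hh x P r u w
      * (Real.exp (yv {a} zs0 (ysv x P {a} Ws Wp) u r + yv {a} zs0 (ysv x P {a} Ws Wp) w r) - 1)
      from cut_eq (hDc hu) (hDc hw)]
    show Z.hh x P r u w * (Real.exp (yv {b, a} ζ Y u r + yv {b, a} ζ Y w r) - 1) ≤ _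
    by_cases h0 : x u w = 0
    · rw [z r u w h0, zero_mul, zero_mul]
    · exact mul_le_mul_of_nonneg_left (sub_le_sub_right (ex r hr u hu w hw h0) 1) (b0 u w r hr)
  · rw [show Bc0 (Z.hh x P) {a} (nsv x P {a} Ns Np) r u w = Z.hh x P r u w
      * bmx (nsv x P {a} Ns Np u r) (nsv x P {a} Ns Np w r) from cut_eq (hDc hu) (hDc hw)]
    show Z.hh x P r u w * bmx (N u r) (N w r) ≤ _
    by_cases h0 : x u w = 0
    · rw [z r u w h0, zero_mul, zero_mul]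
    · exact mul_le_mul_of_nonneg_left (bmx_mono (hE r hr u hu w hw h0).2
        (hE r hr w hw u hu (by rwa [hx.symm w u])).2 (hR.N1 r hr u (hDc hu))
        (hR.N1 r hr w (hDc hw))) (b0 u w r hr)

end lev0

end Pool.Agent.RZ.RCO
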