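import Pool.Agent.RZ.RCO.Gz5
import Pool.Agent.RZ.RCO.Gz8_1
import Pool.Agent.RZ.RCO.St2

/-! Route P: level 0 of the star from the coefficient tables of the pairs (MP_73ccd0_lc). -/

set_option autoImplicit false

namespace Pool.Agent.RZ.RCO

open Set Finset MeasureTheory Pool.Agent.RZ.RCRSHalf Pool.Agent.RZ.RCG Pool.Agent.RZ.RCG.Ct
open Pool.Agent.RZ.RCN Pool.Agent.RZ.RCN.K

set_option linter.unusedSectionVars false

/-! ### piecewise linear tables -/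

section pl

variable {t : ℕ → ℝ} {n : ℕ}

theorem kp_pl (hm : Msh t n) {j : ℕ} (hj : j < n) {r : ℝ} (hr : r ∈ Icc (t j) (t (j + 1)))
    (φ : ℕ → ℝ → ℝ) (N : ℕ) (f : ℕ → ℕ → ℝ) (k : ℝ) : kp φ N (fun i => pl t (f i) n r) k
      = (1 - stc t j r) * kp φ N (fun i => f i j) k
        + stc t j r * kp φ N (fun i => f i (j + 1)) k := by
  unfold kp
  rw [Finset.mul_sum, Finset.mul_sum, ← Finset.sum_add_distrib]
  refine Finset.sum_congr rfl fun i _ => ?_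
  dsimp only
  rw [pl_stc hm hj hr]
  ring

theorem ff_pl {FF : (ℕ → ℝ) → Pt → ℝ} {m : ℕ} {ft : ℕ → Pt → ℝ} (hF : Lf FF m ft)
    (hm : Msh t n) {j : ℕ} (hj : j < n) {r : ℝ} (hr : r ∈ Icc (t j) (t (j + 1)))
    (f : ℕ → ℕ → ℝ) (p : Pt) : FF (fun i => pl t (f i) n r) p
      = (1 - stc t j r) * FF (fun i => f i j) p + stc t j r * FF (fun i => f i (j + 1)) p := by
  simp only [hF.eq]
  rw [Finset.mul_sum, Finset.mul_sum, ← Finset.sum_add_distrib]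
  refine Finset.sum_congr rfl fun i _ => ?_
  rw [pl_stc hm hj hr]
  ring

theorem mix_le {c a a' b b' : ℝ} (c0 : 0 ≤ c) (c1 : c ≤ 1) (h : a ≤ b) (h' : a' ≤ b') :
    (1 - c) * a + c * a' ≤ (1 - c) * b + c * b' :=
  add_le_add (mul_le_mul_of_nonneg_left h (by linarith)) (mul_le_mul_of_nonneg_left h' c0)

theorem kp_cont {φ : ℕ → ℝ → ℝ} {N : ℕ} {f : ℝ → ℕ → ℝ} {k : ℝ}
    (h : ∀ i, Continuous fun r => f r i) : Continuous fun r => kp φ N (f r) k := by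
  unfold kp
  exact continuous_finsetSum _ fun i _ => (h i).mul continuous_const

theorem ff_cont {FF : (ℕ → ℝ) → Pt → ℝ} {m : ℕ} {ft : ℕ → Pt → ℝ} (hF : Lf FF m ft)
    {f : ℝ → ℕ → ℝ} {p : Pt} (h : ∀ i, Continuous fun r => f r i) :
    Continuous fun r => FF (f r) p := by
  simp only [hF.eq]
  exact continuous_finsetSum _ fun i _ => (h i).mul continuous_const

end pl

/-! ### the tables of the star -/

/-- the node values of the boosts (a combination of the functions `φ` of the killed mass) and of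
the losses of a star -/
structure T0S where
  φ : ℕ → ℝ → ℝ
  nW : ℕ
  w : ℕ → ℕ → ℝ
  fn : ℕ → ℕ → ℝ

namespace T0S

/-- the boosts -/
noncomputable def W (t : ℕ → ℝ) (n : ℕ) (s : T0S) (ρ k : ℝ) : ℝ :=
  kp s.φ s.nW (fun i => pl t (s.w i) n ρ) k

/-- the losses -/
noncomputable def N (FF : (ℕ → ℝ) → Pt → ℝ) (t : ℕ → ℝ) (n : ℕ) (s : T0S) (ρ : ℝ) (p : Pt) : ℝ :=
  FF (fun i => pl t (s.fn i) n ρ) p

/-- the conditions of the tables of the star; `d`, `t'`, `n'` the tables of the pairs -/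
structure Ok (FF : (ℕ → ℝ) → Pt → ℝ) (t : ℕ → ℝ) (n : ℕ) (t' : ℕ → ℝ) (n' : ℕ) (d : T0Z)
    (s : T0S) : Prop where
  C : ∀ ρ ∈ Icc (t 0) (t n), StC (fun p => d.wu t' n' ρ p.k) (fun p => s.W t n ρ p.k)
    (FF fun i => (d.fn i).up t' n' ρ) (s.N FF t n ρ)
  w1 : ∀ j ≤ n, ∀ k ∈ Icc (0 : ℝ) (2 * XM), 1 ≤ kp s.φ s.nW (fun i => s.w i j) k
  n1 : ∀ j ≤ n, ∀ p : Pt, p.Ful → FF (fun i => s.fn i j) p ≤ 1

/-- the conditions at the nodes of a common mesh -/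
structure Nd (FF : (ℕ → ℝ) → Pt → ℝ) (n : ℕ) (d : T0Z) (s : T0S) : Prop where
  w : ∀ j ≤ n, ∀ k ∈ Icc (0 : ℝ) XM, ∀ k' ∈ Icc k (k + XM),
    kp d.φw d.nW (fun i => (d.w i).u j) k' ≤ kp s.φ s.nW (fun i => s.w i j) k
  nl : ∀ j ≤ n, ∀ p q : Pt, p.Ful → q.Ful → q.k ≤ XM → q.k ≤ p.k → p.k ≤ q.k + XM →
    FF (fun i => (d.fn i).u j) p ≤ FF (fun i => s.fn i j) q
  w1 : ∀ j ≤ n, ∀ k ∈ Icc (0 : ℝ) (2 * XM), 1 ≤ kp s.φ s.nW (fun i => s.w i j) k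
  n1 : ∀ j ≤ n, ∀ p : Pt, p.Ful → FF (fun i => s.fn i j) p ≤ 1

variable {FF : (ℕ → ℝ) → Pt → ℝ} {m : ℕ} {ft : ℕ → Pt → ℝ} {t : ℕ → ℝ} {n : ℕ} {t' : ℕ → ℝ}
  {n' : ℕ} {d : T0Z} {s : T0S}

/-- the functions of the pairs are below those of the star if they are at the nodes -/
theorem Nd.ok (hF : Lf FF m ft) (h : s.Nd FF n d) (hm : Msh t n) (hn : 0 < n) :
    s.Ok FF t n t n d where
  w1 := h.w1
  n1 := h.n1
  C := fun ρ hρ => by
    obtain ⟨j, hj, hj2⟩ := hm.stepc hn hρ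
    have c0 := stc_nonneg hm hj hj2
    have c1 := stc_le_one hm hj hj2
    constructor
    · intro p q hp hq hX h1 h2
      have k0 : 0 ≤ q.k := hq.k_mem.1
      show kp d.φw d.nW (fun i => pl t (d.w i).u n ρ) p.k
        ≤ kp s.φ s.nW (fun i => pl t (s.w i) n ρ) q.k
      rw [kp_pl hm hj hj2 d.φw d.nW (fun i => (d.w i).u), kp_pl hm hj hj2]
      exact mix_le c0 c1 (h.w j hj.le _ ⟨k0, hX⟩ _ ⟨h1, h2⟩)
        (h.w (j + 1) hj _ ⟨k0, hX⟩ _ ⟨h1, h2⟩)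
    · intro p q hp hq hX h1 h2
      show FF (fun i => pl t (d.fn i).u n ρ) p ≤ FF (fun i => pl t (s.fn i) n ρ) q
      rw [ff_pl hF hm hj hj2 (fun i => (d.fn i).u), ff_pl hF hm hj hj2]
      exact mix_le c0 c1 (h.nl j hj.le p q hp hq hX h1 h2)
        (h.nl (j + 1) hj p q hp hq hX h1 h2)

variable {V : Type*} [Fintype V] [DecidableEq V]
variable {x : V → V → ℝ} {P : V → Prop} [DecidablePred P]

/-- the data of the star are regular -/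
theorem Ok.str (hF : Lf FF m ft) (h : s.Ok FF t n t' n' d) (hm : Msh t n) (hn : 0 < n)
    (hx : RCG.Ct.Wt x P 1) (a : V) {δ τ : ℝ} (h0 : t 0 ≤ δ) (h1 : τ + δ ≤ t n) :
    StR x P {a} τ (fun r p => s.W t n (r + δ) p.k) (fun _ _ => 1)
      (fun r => s.N FF t n (r + δ)) (fun _ _ => 0) := by
  have c1 : ({a} : Finset V).card ≤ 2 := by rw [Finset.card_singleton]; norm_num
  have mem : ∀ {r}, r ∈ Icc 0 τ → r + δ ∈ Icc (t 0) (t n) := fun {r} hr =>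
    ⟨by linarith [hr.1], by linarith [hr.2]⟩
  constructor
  · intro r hr v hv
    by_cases hP : P v
    · rw [vo_l hP]
      have hf := ful_fp hx c1 hv hP
      obtain ⟨j, hj, hj2⟩ := hm.stepc hn (mem hr)
      show 1 ≤ kp s.φ s.nW (fun i => pl t (s.w i) n (r + δ)) (fp x {a} v).k
      rw [kp_pl hm hj hj2]
      have := mix_le (stc_nonneg hm hj hj2) (stc_le_one hm hj hj2)
        (h.w1 j hj.le _ hf.k_mem) (h.w1 (j + 1) hj _ hf.k_mem)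
      linarith
    · rw [vo_p hP]
  · intro r hr v hv
    by_cases hP : P v
    · rw [vo_l hP]
      have hf := ful_fp hx c1 hv hP
      obtain ⟨j, hj, hj2⟩ := hm.stepc hn (mem hr)
      show FF (fun i => pl t (s.fn i) n (r + δ)) (fp x {a} v) ≤ 1
      rw [ff_pl hF hm hj hj2]
      have := mix_le (stc_nonneg hm hj hj2) (stc_le_one hm hj hj2)
        (h.n1 j hj.le _ hf) (h.n1 (j + 1) hj _ hf)
      linarith
    · rw [vo_p hP]
      exact zero_le_one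
  · intro v hv
    by_cases hP : P v
    · simp only [vo_l hP]
      exact (kp_cont fun i => (pl_cont t (s.w i) n).comp (continuous_add_const δ)).continuousOn
    · simp only [vo_p hP]
      exact continuousOn_const
  · intro v hv
    by_cases hP : P v
    · simp only [vo_l hP]
      exact (ff_cont hF fun i =>
        (pl_cont t (s.fn i) n).comp (continuous_add_const δ)).continuousOn
    · simp only [vo_p hP]
      exact continuousOn_const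

end T0S

/-! ### all worlds of a star -/

section star

variable {V : Type*} [Fintype V] [DecidableEq V]
variable {Z : Hzd} {x : V → V → ℝ} {P : V → Prop} [DecidablePred P] {sl : ℝ → ℝ → ℝ}
variable {FF : (ℕ → ℝ) → Pt → ℝ} {m : ℕ} {ft : ℕ → Pt → ℝ} {t : ℕ → ℝ} {n : ℕ} {t' : ℕ → ℝ}
  {n' : ℕ} {d0 : T0Z} {s : T0S}

/-- the exponents of the star of the tables -/
noncomputable def T0S.Y (x : V → V → ℝ) (P : V → Prop) (t : ℕ → ℝ) (n : ℕ) (s : T0S) (δ : ℝ)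
    (a : V) : V → ℝ → ℝ := ysv x P {a} (fun r p => s.W t n (r + δ) p.k) (fun _ _ => 1)

/-- the losses of the star of the tables -/
noncomputable def T0S.Ns (x : V → V → ℝ) (P : V → Prop) (FF : (ℕ → ℝ) → Pt → ℝ) (t : ℕ → ℝ)
    (n : ℕ) (s : T0S) (δ : ℝ) (a : V) : V → ℝ → ℝ :=
  nsv x P {a} (fun r => s.N FF t n (r + δ)) (fun _ _ => 0)

/-- **the rates of all pairs `(b, a)`** in the cell `[α, τ]` with the killing time `σ` -/
theorem star_w0 (hF : Lf FF m ft) (h : d0.Ok FF m t' n') (hs : s.Ok FF t n t' n' d0)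
    (hZ : Z.Ok sl) (hx : RCG.Ct.Wt x P 1) (hm : Msh t n) (hn : 0 < n) (hm' : Msh t' n')
    (hn' : 0 < n') {a : V} {α τ σ δ : ℝ}
    (α0 : 0 ≤ α) (σ0 : 0 ≤ σ) (στ : σ ≤ τ) (τ1 : τ ≤ 1) (h0 : t 0 ≤ δ) (h1 : τ + δ ≤ t n)
    (h0' : t' 0 ≤ δ) (h1' : τ + δ ≤ t' n')
    (hR : ∀ r ∈ Icc 0 τ, ∀ y ∈ Icc (0 : ℝ) XM, Z.rr y r ≤ d0.R (r + δ) y)
    {b : V} (hb : P b) (hba : b ≠ a) :
    W0cq Z x P {b} {b, a} α τ σ (Tc0 (Z.hh x P) {a} zs0 (s.Y x P t n δ a))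
        (Ac0 (Z.hh x P) {a} zs0 (s.Y x P t n δ a))
        (Bc0 (Z.hh x P) {a} (s.Ns x P FF t n δ a)) := by
  have hR' := hs.str hF hm hn hx a h0 h1
  obtain ⟨Y, Y', N, N', k1, k2⟩ := h.l0 (A := {b}) (D := {b, a}) hF hZ hx hn' hm'
    Finset.card_le_two (Finset.singleton_subset_iff.2 (Finset.mem_insert_self b {a})) α0 σ0 στ τ1
    h0' h1' hR
  exact w0_star hx hR' (fun r hr => hs.C _ ⟨by linarith [hr.1], by linarith [hr.2]⟩)
    hb hba k1 k2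

end star

/-! ### the star world -/

/-- **the tables of level 0 and of level 1/2 of a star**; `l1` the weight one, `d0`, `t'`, `n'`
the tables of level 0 of the pairs -/
structure WS12 {Λ : Type*} [Fintype Λ] (FF : (ℕ → ℝ) → Pt → ℝ) (N : ℕ) (ft : ℕ → Pt → ℝ)
    (t : ℕ → ℝ) (n : ℕ) (t' : ℕ → ℝ) (n' : ℕ) (d0 : T0Z) (s : T0S) (d : T12 Λ) (l1 : Λ) :
    Prop where
  hF : Lf FF N ft
  hm : Msh t n
  hn : 0 < n
  hm' : Msh t' n'
  hn' : 0 < n'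
  z : d0.Ok FF N t' n'
  st : s.Ok FF t n t' n' d0
  r : d.Ok FF N t n
  W : ∀ ρ ∈ Icc (t 0) (t n), ∀ p : Pt, p.Ful → s.W t n ρ p.k ≤ d.W ρ p
  Nr : ∀ ρ ∈ Icc (t 0) (t n), ∀ p : Pt, p.Ful → s.N FF t n ρ p ≤ d.Nr ρ p ∧ d.Nr ρ p ≤ 1
  Wp : ∀ ρ ∈ Icc (t 0) (t n), ∀ y ∈ Icc (0 : ℝ) 1, 1 ≤ d.Wp ρ y
  Np : ∀ ρ ∈ Icc (t 0) (t n), ∀ y ∈ Icc (0 : ℝ) 1, 0 ≤ d.Np ρ y ∧ d.Np ρ y ≤ 1
  w1 : ∀ p, d.wv l1 p = 1

section world

variable {V : Type*} [Fintype V] [DecidableEq V] {Λ : Type*} [Fintype Λ]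
variable {Z : Hzd} {x : V → V → ℝ} {P : V → Prop} [DecidablePred P] {sl : ℝ → ℝ → ℝ}
variable {FF : (ℕ → ℝ) → Pt → ℝ} {M : ℕ} {ft : ℕ → Pt → ℝ} {t : ℕ → ℝ} {n : ℕ} {t' : ℕ → ℝ}
  {n' : ℕ} {d0 : T0Z} {s : T0S} {d : T12 Λ} {l1 : Λ} {τ σ δ : ℝ}

/-- larger functions -/
theorem WBd.mono {D : Finset V} {hb T A B : V → V → ℝ} {W W' Nr Nr' : Pt → ℝ}
    {Wp Wp' Np Np' : ℝ → ℝ} (h : WBd x P D hb T A B W Wp Nr Np) (hb0 : ∀ u w, 0 ≤ hb u w)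
    (hW : ∀ v ∈ Dᶜ, vo x P D W Wp v ≤ vo x P D W' Wp' v)
    (hN : ∀ v ∈ Dᶜ, vo x P D Nr Np v ≤ vo x P D Nr' Np' v)
    (hN1 : ∀ v ∈ Dᶜ, vo x P D Nr' Np' v ≤ 1) : WBd x P D hb T A B W' Wp' Nr' Np' where
  W1 := fun v hv => (h.W1 v hv).trans (hW v hv)
  T0 := h.T0
  A0 := h.A0
  B0 := h.B0
  Td := h.Td
  Ts := h.Ts
  hT := fun u hu w hw => (h.hT u hu w hw).trans (mul_le_mul_of_nonneg_left
    (mul_le_mul (hW u hu) (hW w hw) (zero_le_one.trans (h.W1 w hw))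
      (zero_le_one.trans ((h.W1 u hu).trans (hW u hu)))) (hb0 u w))
  hA := fun u hu w hw => (h.hA u hu w hw).trans (mul_le_mul_of_nonneg_left
    (sub_le_sub_right (mul_le_mul (hW u hu) (hW w hw) (zero_le_one.trans (h.W1 w hw))
      (zero_le_one.trans ((h.W1 u hu).trans (hW u hu)))) 1) (hb0 u w))
  hB := fun u hu w hw => (h.hB u hu w hw).trans (mul_le_mul_of_nonneg_left
    (bmx_mono (hN u hu) (hN w hw) (hN1 u hu) (hN1 w hw)) (hb0 u w))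

/-- **the star world from the tables**, and the rates of all pairs -/
theorem WS12.wrl (h : WS12 FF M ft t n t' n' d0 s d l1) (hZ : Z.Ok sl) (hx : RCG.Ct.Wt x P 1)
    (a : V) (τ1 : τ ≤ 1) (h0 : t 0 ≤ δ) (h1 : τ + δ ≤ t n)
    (hR : ∀ r ∈ Icc 0 τ, ∀ y ∈ Icc (0 : ℝ) XM, Z.rr y r ≤ d.R (r + δ) y) (S : Finset ℝ) :
    Wrl Z x P ∅ {a} (τ + 1) τ σ S zs0 (s.Y x P t n δ a) (s.Ns x P FF t n δ a)
      (d.dat FF t n δ) l1 := by
  have c1 : ({a} : Finset V).card ≤ 2 := by rw [Finset.card_singleton]; norm_num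
  have mem : ∀ r ∈ Icc 0 τ, r + δ ∈ Icc (t 0) (t n) := fun r hr =>
    ⟨by linarith [hr.1], by linarith [hr.2]⟩
  have b0 : ∀ u v, ∀ r ∈ Icc 0 τ, 0 ≤ Z.hh x P r u v := fun u v r hr =>
    hZ.hh_nonneg hx ⟨hr.1, hr.2.trans τ1⟩ u v
  have xm : ∀ u v, x u v ∈ Icc (0 : ℝ) XM := fun u v => ⟨hx.nonneg u v, hx.leX u v⟩
  have hR' := h.st.str h.hF h.hm h.hn hx a h0 h1
  have mm : ∀ v, mas x {a} v ∈ Icc (0 : ℝ) 1 := fun v => by
    have h3 : mas x {a} v = ∑ w ∈ (({a} : Finset V)ᶜ).erase v, x v w := rfl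
    rw [h3]
    exact ⟨Finset.sum_nonneg fun w _ => hx.nonneg v w,
      (Finset.sum_le_univ_sum_of_nonneg fun w => hx.nonneg v w).trans (hx.row v)⟩
  refine Wrl.of hx c1 (h.r.d12 h.hF h.hm h.hn h0 h1 S) b0 (hR'.dat hZ hx τ1)
    (w0cq_triv (by linarith)) (fun r hr => ?_) (fun r hr => ?_) h.w1
  · exact krn_hhX hZ hx ⟨hr.1, hr.2.trans τ1⟩ fun u v _ _ => hR r hr _ (xm u v)
  · have m := mem r hr
    refine (hR'.wbd hZ hx τ1 hr).mono (fun u w => b0 u w r hr) (fun v hv => ?_) (fun v hv => ?_)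
      fun v hv => ?_
    · by_cases hP : P v
      · rw [vo_l hP, vo_l hP]
        exact h.W _ m _ (ful_fp hx c1 hv hP)
      · rw [vo_p hP, vo_p hP]
        exact h.Wp _ m _ (mm v)
    · by_cases hP : P v
      · rw [vo_l hP, vo_l hP]
        exact (h.Nr _ m _ (ful_fp hx c1 hv hP)).1
      · rw [vo_p hP, vo_p hP]
        exact (h.Np _ m _ (mm v)).1
    · by_cases hP : P v
      · rw [vo_l hP]
        exact (h.Nr _ m _ (ful_fp hx c1 hv hP)).2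
      · rw [vo_p hP]
        exact (h.Np _ m _ (mm v)).2

/-- the rates of all pairs of the star world -/
theorem WS12.w0 (h : WS12 FF M ft t n t' n' d0 s d l1) (hZ : Z.Ok sl) (hx : RCG.Ct.Wt x P 1)
    {a : V} {α : ℝ} (α0 : 0 ≤ α) (σ0 : 0 ≤ σ) (στ : σ ≤ τ) (τ1 : τ ≤ 1)
    (h0 : t 0 ≤ δ) (h1 : τ + δ ≤ t n) (h0' : t' 0 ≤ δ) (h1' : τ + δ ≤ t' n')
    (hR : ∀ r ∈ Icc 0 τ, ∀ y ∈ Icc (0 : ℝ) XM, Z.rr y r ≤ d0.R (r + δ) y)
    {b : V} (hb : P b) (hba : b ≠ a) :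
    W0cq Z x P {b} {b, a} α τ σ (Tc0 (Z.hh x P) {a} zs0 (s.Y x P t n δ a))
        (Ac0 (Z.hh x P) {a} zs0 (s.Y x P t n δ a))
        (Bc0 (Z.hh x P) {a} (s.Ns x P FF t n δ a)) :=
  star_w0 h.hF h.z h.st hZ hx h.hm h.hn h.hm' h.hn' α0 σ0 στ τ1 h0 h1 h0' h1' hR hb hba

end world

end Pool.Agent.RZ.RCO
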