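import Pool.Agent.RZ.RCO.Gz7
import Pool.Agent.RZ.RCO.St4

/-! Route P: the tables of a star from the arrays (MP_73ccd0_lc). -/

set_option autoImplicit false

namespace Pool.Agent.RZ.RCO

open Sg Set Sp12

/-! ### piecewise linear functions of equal meshes -/

theorem pl_congr {t t' : ℕ → ℝ} {n : ℕ} (h : ∀ j ≤ n, t j = t' j) (v : ℕ → ℝ) (r : ℝ) :
    pl t v n r = pl t' v n r := by
  unfold pl
  congr 1
  refine Finset.sum_congr rfl fun j hj => ?_
  rw [h j (Finset.mem_range.1 hj).le, h (j + 1) (Finset.mem_range.1 hj)]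

/-- equal steps -/
theorem tmD_congr {D R iH D' R' iH' n : ℕ}
    (h : ∀ j < n, g D (R * j + iH) = g D' (R' * j + iH')) :
    ∀ j ≤ n, tmD D R iH j = tmD D' R' iH' j := fun j hj => by
  unfold tmD
  refine Finset.sum_congr rfl fun i hi => ?_
  unfold un Sg.nv
  rw [h i ((Finset.mem_range.1 hi).trans_le hj)]

/-! ### the boosts: quadratic Bernstein polynomials -/

/-- the value of three coefficients (without binomials) -/
def b3 (u0 u1 u2 : ℝ) (s : ℝ) : ℝ := u0 * (1 - s) ^ 2 + u1 * (s * (1 - s)) + u2 * s ^ 2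

theorem kp3 (u : ℕ → ℝ) (k : ℝ) : kp (bφ 3) 3 u k = b3 (u 0) (u 1) (u 2) (k / kS) := by
  unfold kp bφ b3
  simp only [Finset.sum_range_succ, Finset.sum_range_zero, zero_add]
  ring

theorem kp2 (u : ℕ → ℝ) (k : ℝ) :
    kp (bφ 2) 2 u k = b3 (u 0) (u 0 + u 1) (u 1) (k / kS) := by
  unfold kp bφ b3
  simp only [Finset.sum_range_succ, Finset.sum_range_zero, zero_add]
  ring

/-- monotone coefficients: monotone values -/
theorem b3_mono {u0 u1 u2 s s' : ℝ} (h1 : 2 * u0 ≤ u1) (h2 : u1 ≤ 2 * u2) (h0 : 0 ≤ s)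
    (hs : s ≤ s') (h3 : s' ≤ 1) : b3 u0 u1 u2 s ≤ b3 u0 u1 u2 s' := by
  have e : b3 u0 u1 u2 s' - b3 u0 u1 u2 s
      = (s' - s) * ((u1 - 2 * u0) * (1 - (s + s') / 2) + (2 * u2 - u1) * ((s + s') / 2)) := by
    unfold b3
    ring
  have h4 : 0 ≤ (s' - s) * ((u1 - 2 * u0) * (1 - (s + s') / 2)
      + (2 * u2 - u1) * ((s + s') / 2)) :=
    mul_nonneg (by linarith) (add_nonneg (mul_nonneg (by linarith) (by linarith))
      (mul_nonneg (by linarith) (by linarith)))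
  linarith

/-- a shift by `c` on `[0, c]`: the three coefficients on the intervals -/
theorem b3_shift {u0 u1 u2 w0 w1 w2 c s : ℝ} (c0 : 0 < c) (s0 : 0 ≤ s) (sc : s ≤ c)
    (h0 : b3 u0 u1 u2 c ≤ w0)
    (h1 : 2 * u0 * (1 - c) * (1 - 2 * c) + u1 * (c * (1 - 2 * c) + 2 * c * (1 - c))
      + 4 * u2 * c ^ 2 ≤ 2 * w0 * (1 - c) + w1 * c)
    (h2 : b3 u0 u1 u2 (2 * c) ≤ b3 w0 w1 w2 c) : b3 u0 u1 u2 (s + c) ≤ b3 w0 w1 w2 s := by
  -- Bernstein form of both sides on the interval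
  have e1 : b3 u0 u1 u2 (s + c) = b3 u0 u1 u2 c * (1 - s / c) ^ 2
      + (2 * u0 * (1 - c) * (1 - 2 * c) + u1 * (c * (1 - 2 * c) + 2 * c * (1 - c))
        + 4 * u2 * c ^ 2) * (s / c * (1 - s / c)) + b3 u0 u1 u2 (2 * c) * (s / c) ^ 2 := by
    unfold b3
    field_simp
    ring
  have e2 : b3 w0 w1 w2 s = w0 * (1 - s / c) ^ 2
      + (2 * w0 * (1 - c) + w1 * c) * (s / c * (1 - s / c)) + b3 w0 w1 w2 c * (s / c) ^ 2 := by
    unfold b3
    field_simp
    ring
  have a0 : 0 ≤ s / c := div_nonneg s0 c0.le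
  have a1 : s / c ≤ 1 := (div_le_one c0).2 sc
  rw [e1, e2]
  exact add_le_add (add_le_add (mul_le_mul_of_nonneg_right h0 (sq_nonneg _))
    (mul_le_mul_of_nonneg_right h1 (mul_nonneg a0 (by linarith))))
    (mul_le_mul_of_nonneg_right h2 (sq_nonneg _))

/-! ### the layout of the tables of level 0 of a star -/

/-- the layout: two or three unsigned boosts from the entry `iW`, the signed losses `ia` (times
the mass) and `ib` (times the mass and the killed mass) -/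
structure Ts0 where
  R : ℕ
  iH : ℕ
  iW : ℕ
  nW : ℕ
  ia : ℕ
  ib : ℕ

namespace Ts0

variable (s : Ts0)

/-- the boost -/
def W : Re := plr s.R 0 s.iW s.nW

/-- the loss: a multiple of the mass, linear in the killed mass -/
def fn : ℕ → Option Cf
  | 0 => some ⟨s.ia, s.ia, s.ia⟩
  | 1 => some ⟨s.ib, s.ib, s.ib⟩
  | _ => none

def nf : ℕ → Re := cre2 Cf.u s.R s.fn

/-- the tables -/
noncomputable def t0s (D : ℕ) : T0S where
  φ := bφ s.nW
  nW := s.nW
  w := fun m j => un D s.R (s.iW + m) j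
  fn := fun i j => (oTq D s.R (s.fn i)).u j

end Ts0

/-! ### the check -/

/-- `1 / 10 = 1024 / (10 * 1024)`: the bound of the weights in units of `kS` is `1024 / cB` -/
def cB : ℕ := RCG.xN * kN

/-- the boosts of a row; `u` the pair, `w` the star -/
def wOk (u0 u1 u2 w0 w1 w2 : ℕ) : Bool :=
  Nat.ble (2 * u0) u1 && Nat.ble u1 (2 * u2)
    && Nat.ble (u0 * (cB - 1024) ^ 2 + u1 * (1024 * (cB - 1024)) + u2 * 1024 ^ 2) (w0 * cB ^ 2)
    && Nat.ble (2 * u0 * (cB - 1024) * (cB - 2048)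
        + u1 * (1024 * (cB - 2048) + 2048 * (cB - 1024)) + 4 * u2 * 1024 ^ 2)
      ((2 * w0 * (cB - 1024) + w1 * 1024) * cB)
    && Nat.ble (u0 * (cB - 2048) ^ 2 + u1 * (2048 * (cB - 2048)) + u2 * 2048 ^ 2)
      (w0 * (cB - 1024) ^ 2 + w1 * (1024 * (cB - 1024)) + w2 * 1024 ^ 2)
    && Nat.ble 16777216 w0 && Nat.ble 33554432 w1 && Nat.ble 16777216 w2

/-- the bounds of the features by the mass, in units of `XM ^ 2`; the feature `1` is the mass times
the killed mass -/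
def wts : ℕ → ℕ
  | 0 => RCG.xN ^ 2
  | 1 => 0
  | 2 => 2 * RCG.xN
  | 3 => 2 * RCG.xN
  | 4 => RCG.xN
  | 5 => 2 * RCG.xN
  | 6 => 2 * RCG.xN
  | 7 => RCG.xN
  | 8 => 2 * RCG.xN
  | 9 => 2
  | 10 => 2 * RCG.xN
  | _ => 2

/-- the positive part of a used value -/
noncomputable def pPos (D R j : ℕ) : Option Cf → ℕ
  | none => 0
  | some a => g D (R * j + a.u) - 2147483648

/-- the losses of the pairs are at most `m (A0 + A1 k)`, in units of `XM ^ 2 / 2 ^ 24` -/
noncomputable def nA0 (D R j : ℕ) (fn : ℕ → Option Cf) : ℕ :=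
  ((List.range 12).map fun i => wts i * pPos D R j (fn i)).sum

noncomputable def nA1 (D R j : ℕ) (fn : ℕ → Option Cf) : ℕ :=
  ((List.range 12).map fun i => wts i * pPos D R j (fn (i + 13))).sum
    + (RCG.xN ^ 2 * pPos D R j (fn 1) + 2 * RCG.xN * pPos D R j (fn 14))

/-- the losses of a row: `m (A0 + A1 k)` at `k' ∈ [k, k + XM]` is at most `m (a + b k)` -/
def lOk (A0 A1 a b : ℕ) : Bool :=
  (Nat.ble A1 A0 && Nat.ble (A0 + RCG.xN ^ 2 * 2147483648) (RCG.xN ^ 2 * a)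
      && Nat.ble (RCG.xN * A0 + A1 + RCG.xN ^ 2 * (RCG.xN + 1) * 2147483648)
        (RCG.xN ^ 2 * (RCG.xN * a + b)))
    || (Nat.ble (RCG.xN * A0 + A1 + RCG.xN ^ 3 * 2147483648) (RCG.xN ^ 3 * a)
      && Nat.ble (RCG.xN * A0 + 2 * A1 + RCG.xN ^ 2 * (RCG.xN + 1) * 2147483648)
        (RCG.xN ^ 2 * (RCG.xN * a + b)))

/-- the losses of a row; `a`, `b` the star -/
noncomputable def nOk (D R j : ℕ) (fn : ℕ → Option Cf) (a b : ℕ) : Bool :=
  Nat.ble 2147483648 b && Nat.ble b a && Nat.ble a 2164260864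
    && Nat.beq (pPos D R j (fn 12)) 0 && Nat.beq (pPos D R j (fn 25)) 0
    && lOk (nA0 D R j fn) (nA1 D R j fn) a b

/-- two coefficients as three: the second and the third one -/
def w3b (m a b : ℕ) : ℕ := bif Nat.beq m 2 then a + b else b

def w3c (m b c : ℕ) : ℕ := bif Nat.beq m 2 then b else c

/-- **the check of the tables of level 0 of a star** -/
noncomputable def sOk (x : Tp0) (D : ℕ) (s : Ts0) (D' n : ℕ) : Bool :=
  Nat.beq x.nW 3 && (Nat.beq s.nW 2 || Nat.beq s.nW 3)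
    && allL (fun j => Nat.beq (g D (x.R * j + x.iH)) (g D' (s.R * j + s.iH))) (List.range n)
    && allL (fun j => wOk (g D (x.R * j + x.W.u)) (g D (x.R * j + (x.W.u + 1)))
        (g D (x.R * j + (x.W.u + 2))) (g D' (s.R * j + s.iW))
        (w3b s.nW (g D' (s.R * j + s.iW)) (g D' (s.R * j + (s.iW + 1))))
        (w3c s.nW (g D' (s.R * j + (s.iW + 1))) (g D' (s.R * j + (s.iW + 2)))) && nOk D x.R j x.fn (g D' (s.R * j + s.ia))
          (g D' (s.R * j + s.ib)))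
      (List.range (n + 1))

end Pool.Agent.RZ.RCO
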