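import Pool.Agent.RZ.RCO.St6

/-! Route P: the check of the tables of level 0 of a star (MP_73ccd0_lc). -/

set_option autoImplicit false

namespace Pool.Agent.RZ.RCO

open Sg Set Sp12

/-! ### the boosts -/

theorem cB_ge : 2048 ≤ cB := kN_eq

theorem X_cB : RCG.XM / kS = 1024 / (cB : ℝ) := by
  have h : (0 : ℝ) < (kN : ℝ) := by exact_mod_cast (by decide : 0 < kN)
  have h2 := RCG.xN_pos
  unfold RCG.XM kS cB
  push_cast
  field_simp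
  norm_num

theorem b3_div (u0 u1 u2 a s : ℝ) : b3 (u0 / a) (u1 / a) (u2 / a) s = b3 u0 u1 u2 s / a := by
  unfold b3
  ring

/-- the conditions of a row -/
structure WOk (u0 u1 u2 w0 w1 w2 : ℕ) : Prop where
  m1 : 2 * u0 ≤ u1
  m2 : u1 ≤ 2 * u2
  h0 : u0 * (cB - 1024) ^ 2 + u1 * (1024 * (cB - 1024)) + u2 * 1024 ^ 2 ≤ w0 * cB ^ 2
  h1 : 2 * u0 * (cB - 1024) * (cB - 2048)
        + u1 * (1024 * (cB - 2048) + 2048 * (cB - 1024)) + 4 * u2 * 1024 ^ 2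
      ≤ (2 * w0 * (cB - 1024) + w1 * 1024) * cB
  h2 : u0 * (cB - 2048) ^ 2 + u1 * (2048 * (cB - 2048)) + u2 * 2048 ^ 2
      ≤ w0 * (cB - 1024) ^ 2 + w1 * (1024 * (cB - 1024)) + w2 * 1024 ^ 2
  o0 : 16777216 ≤ w0
  o1 : 33554432 ≤ w1
  o2 : 16777216 ≤ w2

theorem WOk.of {u0 u1 u2 w0 w1 w2 : ℕ} (h : wOk u0 u1 u2 w0 w1 w2 = true) :
    WOk u0 u1 u2 w0 w1 w2 := by
  unfold wOk at h
  simp only [Bool.and_eq_true] at h
  obtain ⟨⟨⟨⟨⟨⟨⟨a1, a2⟩, a3⟩, a4⟩, a5⟩, a6⟩, a7⟩, a8⟩ := h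
  exact ⟨Nat.le_of_ble_eq_true a1, Nat.le_of_ble_eq_true a2, Nat.le_of_ble_eq_true a3,
    Nat.le_of_ble_eq_true a4, Nat.le_of_ble_eq_true a5, Nat.le_of_ble_eq_true a6,
    Nat.le_of_ble_eq_true a7, Nat.le_of_ble_eq_true a8⟩

/-- **the boosts of the star are above those of the pairs** -/
theorem WOk.le {u0 u1 u2 w0 w1 w2 : ℕ} (h : WOk u0 u1 u2 w0 w1 w2) {k k' : ℝ}
    (hk : k ∈ Icc (0 : ℝ) RCG.XM) (hk' : k' ∈ Icc k (k + RCG.XM)) :
    b3 u0 u1 u2 (k' / kS) ≤ b3 w0 w1 w2 (k / kS) := by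
  obtain ⟨B, hB⟩ : ∃ B : ℝ, B = (cB : ℝ) := ⟨_, rfl⟩
  have hB2 : (2048 : ℝ) ≤ B := by
    rw [hB]
    exact_mod_cast cB_ge
  have B0 : (0 : ℝ) < B := by linarith
  have s1 : ((cB - 1024 : ℕ) : ℝ) = B - 1024 := by
    rw [Nat.cast_sub (by have := cB_ge; omega), hB]
    norm_num
  have s2 : ((cB - 2048 : ℕ) : ℝ) = B - 2048 := by
    rw [Nat.cast_sub cB_ge, hB]
    norm_num
  have m1 : 2 * (u0 : ℝ) ≤ u1 := by exact_mod_cast h.m1
  have m2 : (u1 : ℝ) ≤ 2 * u2 := by exact_mod_cast h.m2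
  have h0 := (Nat.cast_le (α := ℝ)).2 h.h0
  have h1 := (Nat.cast_le (α := ℝ)).2 h.h1
  have h2 := (Nat.cast_le (α := ℝ)).2 h.h2
  push_cast [s1, s2, ← hB] at h0 h1 h2
  have hc : RCG.XM / kS = 1024 / B := by rw [hB]; exact X_cB
  have X0 := RCG.XM_pos
  have K0 := kS_pos
  have c0 : 0 < 1024 / B := by positivity
  have c2 : 2 * (1024 / B) ≤ 1 := by
    rw [← mul_div_assoc, div_le_one B0]
    linarith
  have a0 : 0 ≤ k / kS := div_nonneg hk.1 K0.le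
  have a1 : k / kS ≤ 1024 / B := by
    rw [← hc]
    exact div_le_div_of_nonneg_right hk.2 K0.le
  have a2 : k' / kS ≤ k / kS + 1024 / B := by
    rw [← hc, ← add_div]
    exact div_le_div_of_nonneg_right hk'.2 K0.le
  have a3 : 0 ≤ k' / kS := div_nonneg (hk.1.trans hk'.1) K0.le
  refine (b3_mono m1 m2 a3 a2 (by linarith)).trans (b3_shift c0 a0 a1 ?_ ?_ ?_)
  · have e : b3 (u0 : ℝ) u1 u2 (1024 / B)
        = (u0 * (B - 1024) ^ 2 + u1 * (1024 * (B - 1024)) + u2 * 1024 ^ 2) / B ^ 2 := by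
      unfold b3
      field_simp
    rw [e, div_le_iff₀ (by positivity)]
    linarith
  · have e : 2 * (u0 : ℝ) * (1 - 1024 / B) * (1 - 2 * (1024 / B))
        + u1 * (1024 / B * (1 - 2 * (1024 / B)) + 2 * (1024 / B) * (1 - 1024 / B))
        + 4 * u2 * (1024 / B) ^ 2
        = (2 * u0 * (B - 1024) * (B - 2048)
        + u1 * (1024 * (B - 2048) + 2048 * (B - 1024)) + 4 * u2 * 1024 ^ 2) / B ^ 2 := by
      field_simp
      ring
    have e2 : 2 * (w0 : ℝ) * (1 - 1024 / B) + w1 * (1024 / B)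
        = ((2 * w0 * (B - 1024) + w1 * 1024) * B) / B ^ 2 := by
      field_simp
    rw [e, e2]
    exact div_le_div_of_nonneg_right (by linarith) (by positivity)
  · have e : b3 (u0 : ℝ) u1 u2 (2 * (1024 / B))
        = (u0 * (B - 2048) ^ 2 + u1 * (2048 * (B - 2048)) + u2 * 2048 ^ 2) / B ^ 2 := by
      unfold b3
      field_simp
      ring
    have e2 : b3 (w0 : ℝ) w1 w2 (1024 / B)
        = (w0 * (B - 1024) ^ 2 + w1 * (1024 * (B - 1024)) + w2 * 1024 ^ 2) / B ^ 2 := by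
      unfold b3
      field_simp
    rw [e, e2]
    exact div_le_div_of_nonneg_right (by linarith) (by positivity)

/-- the boosts are at least one -/
theorem WOk.one {u0 u1 u2 w0 w1 w2 : ℕ} (h : WOk u0 u1 u2 w0 w1 w2) {s : ℝ}
    (s0 : 0 ≤ s) (s1 : s ≤ 1) : 16777216 ≤ b3 w0 w1 w2 s := by
  have o0 : (16777216 : ℝ) ≤ w0 := by exact_mod_cast h.o0
  have o1 : (33554432 : ℝ) ≤ w1 := by exact_mod_cast h.o1
  have o2 : (16777216 : ℝ) ≤ w2 := by exact_mod_cast h.o2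
  have e : b3 16777216 33554432 16777216 s = 16777216 := by
    unfold b3
    ring
  rw [← e]
  unfold b3
  exact add_le_add (add_le_add (mul_le_mul_of_nonneg_right o0 (sq_nonneg _))
    (mul_le_mul_of_nonneg_right o1 (mul_nonneg s0 (by linarith))))
    (mul_le_mul_of_nonneg_right o2 (sq_nonneg _))

/-! ### the losses -/

/-- the features are at most multiples of the mass -/
theorem ft12_le {p : Pt} (hp : p.Ful) {i : ℕ} (hi : i < 12) (hi1 : i ≠ 1) :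
    (RCG.xN : ℝ) ^ 2 * ft12 i p ≤ (wts i : ℝ) * p.m := by
  have N0 := RCG.xN_pos
  have hX := RCG.xN_mul
  obtain ⟨s, hf⟩ := hp
  have hM : p.M = p.m := (congrArg Pt.m hf).symm
  have hH : p.H = p.h := (congrArg Pt.h hf).symm
  have hQ : p.Q = p.q := (congrArg Pt.q hf).symm
  have hE : p.E = p.e := (congrArg Pt.e hf).symm
  have hG : p.G = p.g := (congrArg Pt.g hf).symm
  have hS : p.S = p.s := (congrArg Pt.s hf).symm
  have m0 := s.f.m0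
  have m1 : p.m ≤ 1 := by linarith [s.f.km, s.k0]
  have h0 := s.f.h0
  have q0 := s.f.q0
  have e0 := s.f.e0
  have g0 := s.f.g0
  have s0 := s.f.s0
  have X0 := RCG.XM_pos
  -- in terms of the mass
  have bh : (RCG.xN : ℝ) * p.h ≤ 2 * p.m := by
    have := mul_le_mul_of_nonneg_left s.fX.hm N0.le
    calc (RCG.xN : ℝ) * p.h ≤ RCG.xN * (2 * RCG.XM * p.m) := this
      _ = 2 * (RCG.xN * RCG.XM) * p.m := by ring
      _ = 2 * p.m := by rw [hX]; ring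
  have bq : (RCG.xN : ℝ) * p.q ≤ p.m := by
    have := mul_le_mul_of_nonneg_left s.fX.qm N0.le
    calc (RCG.xN : ℝ) * p.q ≤ RCG.xN * (RCG.XM * p.m) := this
      _ = (RCG.xN * RCG.XM) * p.m := by ring
      _ = p.m := by rw [hX]; ring
  have bs : (RCG.xN : ℝ) ^ 2 * p.s ≤ 2 * p.m := by
    have := mul_le_mul_of_nonneg_left s.fX.sh (sq_nonneg (RCG.xN : ℝ))
    calc (RCG.xN : ℝ) ^ 2 * p.s ≤ RCG.xN ^ 2 * (RCG.XM * p.h) := this
      _ = (RCG.xN * RCG.XM) * (RCG.xN * p.h) := by ring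
      _ ≤ 2 * p.m := by rw [hX]; linarith
  have be : (RCG.xN : ℝ) * p.e ≤ 2 * p.m := by
    have h1 := s.fX.em' s.kX q0
    have h2 : p.e ≤ 2 * RCG.XM * p.m := h1.trans
      (mul_le_mul_of_nonneg_left (by linarith) (by linarith))
    have := mul_le_mul_of_nonneg_left h2 N0.le
    calc (RCG.xN : ℝ) * p.e ≤ RCG.xN * (2 * RCG.XM * p.m) := this
      _ = 2 * (RCG.xN * RCG.XM) * p.m := by ring
      _ = 2 * p.m := by rw [hX]; ring
  have bg : (RCG.xN : ℝ) * p.g ≤ 2 * p.m :=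
    (mul_le_mul_of_nonneg_left s.f.gh N0.le).trans bh
  -- a bound by the mass times a factor at most one
  have two : ∀ {y : ℝ}, (RCG.xN : ℝ) * y ≤ 2 * p.m → (RCG.xN : ℝ) ^ 2 * y ≤ 2 * RCG.xN * p.m :=
    fun {y} h => by
      calc (RCG.xN : ℝ) ^ 2 * y = RCG.xN * (RCG.xN * y) := by ring
        _ ≤ RCG.xN * (2 * p.m) := mul_le_mul_of_nonneg_left h N0.le
        _ = 2 * RCG.xN * p.m := by ring
  have one : ∀ {y : ℝ}, 0 ≤ y → p.m * y ≤ y := fun {y} h => by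
    calc p.m * y ≤ 1 * y := mul_le_mul_of_nonneg_right m1 h
      _ = y := one_mul y
  have mul : ∀ {y : ℝ}, 0 ≤ y → (RCG.xN : ℝ) * y ≤ 2 * p.m →
      (RCG.xN : ℝ) ^ 2 * (p.m * y) ≤ 2 * RCG.xN * p.m := fun {y} y0 h =>
    two ((mul_le_mul_of_nonneg_left (one y0) N0.le).trans h)
  interval_cases i
  · show (RCG.xN : ℝ) ^ 2 * p.m ≤ ((RCG.xN ^ 2 : ℕ) : ℝ) * p.m
    push_cast
    exact le_rfl
  · exact absurd rfl hi1
  · show (RCG.xN : ℝ) ^ 2 * p.h ≤ ((2 * RCG.xN : ℕ) : ℝ) * p.m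
    push_cast
    exact two bh
  · show (RCG.xN : ℝ) ^ 2 * p.g ≤ ((2 * RCG.xN : ℕ) : ℝ) * p.m
    push_cast
    exact two bg
  · show (RCG.xN : ℝ) ^ 2 * p.q ≤ ((RCG.xN : ℕ) : ℝ) * p.m
    calc (RCG.xN : ℝ) ^ 2 * p.q = RCG.xN * (RCG.xN * p.q) := by ring
      _ ≤ RCG.xN * p.m := mul_le_mul_of_nonneg_left bq N0.le
  · show (RCG.xN : ℝ) ^ 2 * p.e ≤ ((2 * RCG.xN : ℕ) : ℝ) * p.m
    push_cast
    exact two be
  · show (RCG.xN : ℝ) ^ 2 * (p.m * p.H) ≤ ((2 * RCG.xN : ℕ) : ℝ) * p.m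
    push_cast
    rw [hH]
    exact mul h0 bh
  · show (RCG.xN : ℝ) ^ 2 * (p.m * p.Q) ≤ ((RCG.xN : ℕ) : ℝ) * p.m
    rw [hQ]
    calc (RCG.xN : ℝ) ^ 2 * (p.m * p.q) = RCG.xN * (RCG.xN * (p.m * p.q)) := by ring
      _ ≤ RCG.xN * p.m := mul_le_mul_of_nonneg_left
        ((mul_le_mul_of_nonneg_left (one q0) N0.le).trans bq) N0.le
  · show (RCG.xN : ℝ) ^ 2 * (p.m * p.E) ≤ ((2 * RCG.xN : ℕ) : ℝ) * p.m
    push_cast
    rw [hE]
    exact mul e0 be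
  · show (RCG.xN : ℝ) ^ 2 * p.s ≤ ((2 : ℕ) : ℝ) * p.m
    push_cast
    exact bs
  · show (RCG.xN : ℝ) ^ 2 * (p.m * p.G) ≤ ((2 * RCG.xN : ℕ) : ℝ) * p.m
    push_cast
    rw [hG]
    exact mul g0 bg
  · show (RCG.xN : ℝ) ^ 2 * (p.m * p.S) ≤ ((2 : ℕ) : ℝ) * p.m
    push_cast
    rw [hS]
    exact (mul_le_mul_of_nonneg_left (one s0) (sq_nonneg _)).trans bs

theorem bk_le {p : Pt} (hp : p.Ful) : (RCG.xN : ℝ) * p.k ≤ 2 := by
  have := mul_le_mul_of_nonneg_left hp.1.kX RCG.xN_pos.le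
  calc (RCG.xN : ℝ) * p.k ≤ RCG.xN * (2 * RCG.XM) := this
    _ = 2 * (RCG.xN * RCG.XM) := by ring
    _ = 2 := by rw [RCG.xN_mul]; ring

end Pool.Agent.RZ.RCO
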