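import Mathlib

/-! Step tables: piecewise linear functions of the time (MP_73ccd0_lc). -/

namespace Pool.Agent.RZ.RCO

open Set Finset

/-- the ramp -/
noncomputable def rmpS (z : ℝ) : ℝ := max 0 (min 1 z)

theorem rmpS_lo {z : ℝ} (h : z ≤ 0) : rmpS z = 0 := by
  unfold rmpS
  rw [min_eq_right (by linarith), max_eq_left h]

theorem rmpS_hi {z : ℝ} (h : 1 ≤ z) : rmpS z = 1 := by
  unfold rmpS
  rw [min_eq_left h, max_eq_right zero_le_one]

theorem rmpS_mid {z : ℝ} (h0 : 0 ≤ z) (h1 : z ≤ 1) : rmpS z = z := by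
  unfold rmpS
  rw [min_eq_right h1, max_eq_right h0]

theorem rmpS_cont : Continuous rmpS := continuous_const.max (continuous_const.min continuous_id)

/-- the piecewise linear function with the nodes `t 0 < ... < t n` and the values `v 0, ..., v n` -/
noncomputable def pl (t v : ℕ → ℝ) (n : ℕ) (r : ℝ) : ℝ :=
  v 0 + ∑ j ∈ Finset.range n, (v (j + 1) - v j) * rmpS ((r - t j) / (t (j + 1) - t j))

theorem pl_cont (t v : ℕ → ℝ) (n : ℕ) : Continuous (pl t v n) := by
  unfold pl
  refine continuous_const.add (continuous_finsetSum _ fun j _ => continuous_const.mul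
    (rmpS_cont.comp ((continuous_id.sub continuous_const).div_const _)))

/-- the mesh -/
structure Msh (t : ℕ → ℝ) (n : ℕ) : Prop where
  mono : ∀ j < n, t j < t (j + 1)

variable {t v w : ℕ → ℝ} {n : ℕ}

theorem Msh.lt (h : Msh t n) {i j : ℕ} (hij : i < j) (hj : j ≤ n) : t i < t j := by
  induction j with
  | zero => omega
  | succ j ih =>
    have h1 := h.mono j (by omega)
    rcases Nat.lt_succ_iff_lt_or_eq.1 hij with h2 | h2
    · exact (ih h2 (by omega)).trans h1
    · rw [h2]; exact h1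

theorem Msh.le (h : Msh t n) {i j : ℕ} (hij : i ≤ j) (hj : j ≤ n) : t i ≤ t j := by
  rcases hij.lt_or_eq with h1 | h1
  · exact (h.lt h1 hj).le
  · rw [h1]

/-- the value in a step -/
theorem pl_on (h : Msh t n) {j : ℕ} (hj : j < n) {r : ℝ} (hr : r ∈ Icc (t j) (t (j + 1))) :
    pl t v n r = v j + (v (j + 1) - v j) * ((r - t j) / (t (j + 1) - t j)) := by
  unfold pl
  have key : ∀ m ≤ n, ∑ i ∈ Finset.range m, (v (i + 1) - v i)
      * rmpS ((r - t i) / (t (i + 1) - t i))
      = if m ≤ j then v m - v 0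
        else v j - v 0 + (v (j + 1) - v j) * ((r - t j) / (t (j + 1) - t j)) := by
    intro m
    induction m with
    | zero => intro _; simp
    | succ m ih =>
      intro hm
      rw [Finset.sum_range_succ, ih (by omega)]
      have hd : 0 < t (m + 1) - t m := by linarith [h.mono m (by omega)]
      rcases lt_trichotomy m j with h1 | h1 | h1
      · rw [if_pos (by omega), if_pos (by omega), rmpS_hi]
        · ring
        · rw [le_div_iff₀ hd]
          have := h.le (i := m + 1) (j := j) (by omega) (by omega)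
          linarith [hr.1]
      · subst h1
        rw [if_pos le_rfl, if_neg (by omega), rmpS_mid]
        · exact div_nonneg (by linarith [hr.1]) hd.le
        · rw [div_le_iff₀ hd]; linarith [hr.2]
      · rw [if_neg (by omega), if_neg (by omega), rmpS_lo, mul_zero, add_zero]
        have := h.le (i := j + 1) (j := m) (by omega) (by omega)
        exact div_nonpos_of_nonpos_of_nonneg (by linarith [hr.2]) hd.le
  rw [key n le_rfl, if_neg (by omega)]
  ring

theorem pl_node (h : Msh t n) {j : ℕ} (hj : j ≤ n) (hn : 0 < n) : pl t v n (t j) = v j := by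
  rcases hj.lt_or_eq with h1 | h1
  · rw [pl_on h h1 ⟨le_rfl, (h.mono j h1).le⟩]
    simp
  · obtain ⟨m, rfl⟩ : ∃ m, n = m + 1 := ⟨n - 1, by omega⟩
    subst h1
    rw [pl_on h (Nat.lt_succ_self m) ⟨(h.mono m (by omega)).le, le_rfl⟩, div_self]
    · ring
    · have := h.mono m (by omega)
      linarith

/-- the derivative in a step -/
theorem pl_deriv (h : Msh t n) {j : ℕ} (hj : j < n) {r : ℝ} (hr : r ∈ Ioo (t j) (t (j + 1))) :
    HasDerivAt (pl t v n) ((v (j + 1) - v j) / (t (j + 1) - t j)) r := by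
  have h1 : HasDerivAt (fun r => v j + (v (j + 1) - v j) * ((r - t j) / (t (j + 1) - t j)))
      ((v (j + 1) - v j) / (t (j + 1) - t j)) r := by
    have := ((((hasDerivAt_id r).sub_const (t j)).div_const (t (j + 1) - t j)).const_mul
      (v (j + 1) - v j)).const_add (v j)
    refine this.congr_deriv ?_
    rw [mul_one_div]
  refine h1.congr_of_eventuallyEq ?_
  filter_upwards [isOpen_Ioo.mem_nhds hr] with s hs
  exact pl_on h hj ⟨hs.1.le, hs.2.le⟩

/-- the nodes -/
noncomputable def nds (t : ℕ → ℝ) (n : ℕ) : Finset ℝ := (Finset.range (n + 1)).image t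

/-- every time is a node or inside of a step -/
theorem Msh.step (h : Msh t n) {r : ℝ} (hr : r ∈ Icc (t 0) (t n)) (hS : r ∉ nds t n) :
    ∃ j < n, r ∈ Ioo (t j) (t (j + 1)) := by
  have hne : ∀ j ≤ n, r ≠ t j := fun j hj e => hS (by
    unfold nds
    exact Finset.mem_image.2 ⟨j, Finset.mem_range.2 (by omega), e.symm⟩)
  have key : ∀ m ≤ n, r < t m → ∃ j < m, r ∈ Ioo (t j) (t (j + 1)) := by
    intro m
    induction m with
    | zero => intro _ h0; exact absurd hr.1 (not_le.2 h0)
    | succ m ih =>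
      intro hm h1
      rcases lt_or_gt_of_ne (hne m (by omega)) with h2 | h2
      · obtain ⟨j, hj, hj2⟩ := ih (by omega) h2
        exact ⟨j, by omega, hj2⟩
      · exact ⟨m, by omega, h2, h1⟩
  exact key n le_rfl (lt_of_le_of_ne hr.2 (hne n le_rfl))

/-- every time is in a closed step -/
theorem Msh.stepc (h : Msh t n) (hn : 0 < n) {r : ℝ} (hr : r ∈ Icc (t 0) (t n)) :
    ∃ j < n, r ∈ Icc (t j) (t (j + 1)) := by
  have key : ∀ m ≤ n, r ≤ t m → 0 < m → ∃ j < m, r ∈ Icc (t j) (t (j + 1)) := by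
    intro m
    induction m with
    | zero => intro _ _ h0; omega
    | succ m ih =>
      intro hm h1 _
      rcases le_total r (t m) with h2 | h2
      · rcases Nat.eq_zero_or_pos m with h3 | h3
        · subst h3
          exact ⟨0, by omega, hr.1, h1⟩
        · obtain ⟨j, hj, hj2⟩ := ih (by omega) h2 h3
          exact ⟨j, by omega, hj2⟩
      · exact ⟨m, by omega, h2, h1⟩
  exact key n le_rfl hr.2 hn

theorem pl_mem (h : Msh t n) {j : ℕ} (hj : j < n) {r a b : ℝ} (hr : r ∈ Icc (t j) (t (j + 1)))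
    (h1 : v j ∈ Icc a b) (h2 : v (j + 1) ∈ Icc a b) : pl t v n r ∈ Icc a b := by
  rw [pl_on h hj hr]
  have hd : 0 < t (j + 1) - t j := by linarith [h.mono j hj]
  have z0 : 0 ≤ (r - t j) / (t (j + 1) - t j) := div_nonneg (by linarith [hr.1]) hd.le
  have z1 : (r - t j) / (t (j + 1) - t j) ≤ 1 := by rw [div_le_iff₀ hd]; linarith [hr.2]
  constructor
  · nlinarith [h1.1, h2.1]
  · nlinarith [h1.2, h2.2]

theorem pl_nonneg (h : Msh t n) (hn : 0 < n) (hv : ∀ j ≤ n, 0 ≤ v j) {r : ℝ}
    (hr : r ∈ Icc (t 0) (t n)) : 0 ≤ pl t v n r := by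
  obtain ⟨j, hj, hj2⟩ := h.stepc hn hr
  exact (pl_mem (a := 0) (b := max (v j) (v (j + 1))) h hj hj2 ⟨hv j hj.le, le_max_left _ _⟩
    ⟨hv (j + 1) hj, le_max_right _ _⟩).1

end Pool.Agent.RZ.RCO
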