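import Pool.Agent.RZ.RCO.Kh

/-! Forward quantities of a vertex in a world: mass, killed mass, squares and their walk averages;
monotonicity, budgets and the edge majorant lemma (MP_73ccd0_lc). -/

namespace Pool.Agent.RZ.RCO

open Set Finset Pool.Agent.RZ.RCM

set_option linter.unusedSectionVars false

variable {V : Type*} [Fintype V] [DecidableEq V]

/-- forward mass -/
def fm (x : V → V → ℝ) (F : Finset V) (e : V) : ℝ := ∑ f ∈ F, x e f

/-- forward average of `k` -/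
def fh (x : V → V → ℝ) (k : V → ℝ) (F : Finset V) (e : V) : ℝ := ∑ f ∈ F, x e f * k f

/-- forward average of `k (1 - k)` -/
def ft (x : V → V → ℝ) (k : V → ℝ) (F : Finset V) (e : V) : ℝ :=
  ∑ f ∈ F, x e f * (k f * (1 - k f))

/-- forward sum of squares -/
def fQ (x : V → V → ℝ) (F : Finset V) (e : V) : ℝ := ∑ f ∈ F, x e f ^ 2

/-- forward sum of squares times `k` -/
def fP (x : V → V → ℝ) (k : V → ℝ) (F : Finset V) (e : V) : ℝ := ∑ f ∈ F, x e f ^ 2 * k f

/-- forward sum of cubes -/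
def fC (x : V → V → ℝ) (F : Finset V) (e : V) : ℝ := ∑ f ∈ F, x e f ^ 3

section

variable {x : V → V → ℝ} {k : V → ℝ}

/-! ### (a) signs and monotonicity in the world -/

theorem fm_nonneg (x0 : ∀ a b, 0 ≤ x a b) (F : Finset V) (e : V) : 0 ≤ fm x F e :=
  Finset.sum_nonneg fun f _ => x0 e f

theorem fh_nonneg (x0 : ∀ a b, 0 ≤ x a b) (k0 : ∀ f, 0 ≤ k f) (F : Finset V) (e : V) :
    0 ≤ fh x k F e := Finset.sum_nonneg fun f _ => mul_nonneg (x0 e f) (k0 f)

theorem ft_nonneg (x0 : ∀ a b, 0 ≤ x a b) (k0 : ∀ f, 0 ≤ k f) (k1 : ∀ f, k f ≤ 1)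
    (F : Finset V) (e : V) : 0 ≤ ft x k F e :=
  Finset.sum_nonneg fun f _ => mul_nonneg (x0 e f) (mul_nonneg (k0 f) (by linarith [k1 f]))

theorem fQ_nonneg (F : Finset V) (e : V) : 0 ≤ fQ x F e :=
  Finset.sum_nonneg fun _ _ => sq_nonneg _

theorem fP_nonneg (k0 : ∀ f, 0 ≤ k f) (F : Finset V) (e : V) : 0 ≤ fP x k F e :=
  Finset.sum_nonneg fun f _ => mul_nonneg (sq_nonneg _) (k0 f)

theorem fm_mono (x0 : ∀ a b, 0 ≤ x a b) {F G : Finset V} (h : F ⊆ G) (e : V) :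
    fm x F e ≤ fm x G e := Finset.sum_le_sum_of_subset_of_nonneg h fun f _ _ => x0 e f

theorem fh_mono (x0 : ∀ a b, 0 ≤ x a b) (k0 : ∀ f, 0 ≤ k f) {F G : Finset V} (h : F ⊆ G)
    (e : V) : fh x k F e ≤ fh x k G e :=
  Finset.sum_le_sum_of_subset_of_nonneg h fun f _ _ => mul_nonneg (x0 e f) (k0 f)

theorem ft_mono (x0 : ∀ a b, 0 ≤ x a b) (k0 : ∀ f, 0 ≤ k f) (k1 : ∀ f, k f ≤ 1)
    {F G : Finset V} (h : F ⊆ G) (e : V) : ft x k F e ≤ ft x k G e :=
  Finset.sum_le_sum_of_subset_of_nonneg h fun f _ _ =>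
    mul_nonneg (x0 e f) (mul_nonneg (k0 f) (by linarith [k1 f]))

theorem fQ_mono {F G : Finset V} (h : F ⊆ G) (e : V) : fQ x F e ≤ fQ x G e :=
  Finset.sum_le_sum_of_subset_of_nonneg h fun _ _ _ => sq_nonneg _

theorem fP_mono (k0 : ∀ f, 0 ≤ k f) {F G : Finset V} (h : F ⊆ G) (e : V) :
    fP x k F e ≤ fP x k G e :=
  Finset.sum_le_sum_of_subset_of_nonneg h fun f _ _ => mul_nonneg (sq_nonneg _) (k0 f)

theorem ft_le_fh (x0 : ∀ a b, 0 ≤ x a b) (F : Finset V) (e : V) :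
    ft x k F e ≤ fh x k F e := Finset.sum_le_sum fun f _ =>
  mul_le_mul_of_nonneg_left (by nlinarith [sq_nonneg (k f)]) (x0 e f)

theorem fP_le_fQ (k1 : ∀ f, k f ≤ 1) (F : Finset V) (e : V) : fP x k F e ≤ fQ x F e :=
  Finset.sum_le_sum fun f _ => by
    have := mul_le_mul_of_nonneg_left (k1 f) (sq_nonneg (x e f))
    linarith

theorem fQ_le (x0 : ∀ a b, 0 ≤ x a b) {F : Finset V} {e : V} {M : ℝ} (h : ∀ f ∈ F, x e f ≤ M) :
    fQ x F e ≤ M * fm x F e := by
  unfold fQ fm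
  rw [Finset.mul_sum]
  refine Finset.sum_le_sum fun f hf => ?_
  have := mul_le_mul_of_nonneg_right (h f hf) (x0 e f)
  nlinarith

/-- Cauchy: the squares bound the mass from below by the number of neighbours; here the form
`fm ≤ c fQ / 2 + 1 / (2c) * card` is not needed, only the tangent of `fC`:
`2 t fQ - t² fm ≤ fC` -/
theorem fC_ge (x0 : ∀ a b, 0 ≤ x a b) (F : Finset V) (e : V) (t : ℝ) :
    2 * t * fQ x F e - t ^ 2 * fm x F e ≤ fC x F e := by
  unfold fQ fm fC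
  rw [Finset.mul_sum, Finset.mul_sum, ← Finset.sum_sub_distrib]
  refine Finset.sum_le_sum fun f _ => ?_
  nlinarith [mul_nonneg (x0 e f) (sq_nonneg (x e f - t))]

/-! ### (d) the edge majorant lemma -/

end

/-! ### (b) masses and absorption with the killed mass of a removed set -/

section kill

variable {x : V → V → ℝ} {D F : Finset V}

theorem x_le_one (hx : Wt x) (a b : V) : x a b ≤ 1 :=
  (Finset.single_le_sum (f := fun b => x a b) (fun b _ => hx.nn a b) (Finset.mem_univ b)).trans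
    (hx.row a)

theorem fm_le (hx : Wt x) (hF : F ⊆ Dᶜ) (e : V) : fm x F e ≤ 1 - kk x D e :=
  (fm_mono hx.nn hF e).trans (row_kk hx D e)

/-! ### (c) direct budgets -/

/-- **the direct budget** -/
theorem sum_kk_world (hx : Wt x) (hF : F ⊆ Dᶜ) {e : V} (he : e ∈ Dᶜ) (heF : e ∉ F) :
    ∑ f ∈ F, kk x D f ≤ D.card - kk x D e := by
  have h2 : F ⊆ Dᶜ.erase e := fun z hz => Finset.mem_erase.2 ⟨fun h => heF (h ▸ hz), hF hz⟩
  exact (Finset.sum_le_sum_of_subset_of_nonneg h2 fun f _ _ => kk_nonneg hx D f).trans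
    (sum_kk_erase hx D he)

theorem sum_kk_world2 (hx : Wt x) (hF : F ⊆ Dᶜ) {e : V} (he : e ∈ Dᶜ) (heF : e ∉ F)
    (hD : D.card ≤ 2) : ∑ f ∈ F, kk x D f ≤ 2 - kk x D e := by
  have h1 := sum_kk_world hx hF he heF
  have h2 : ((D.card : ℕ) : ℝ) ≤ 2 := by exact_mod_cast hD
  linarith

/-- **(Q1)** -/
theorem fh_le_Q (hx : Wt x) (hF : F ⊆ Dᶜ) {e : V} (he : e ∈ Dᶜ) (heF : e ∉ F) {c : ℝ}
    (c0 : 0 < c) : fh x (kk x D) F e * (1 + 1 / (2 * c))
      ≤ c * fQ x F e / 2 + (D.card - kk x D e) / (2 * c) := by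
  have h1 : fh x (kk x D) F e ≤ ∑ f ∈ F, (c / 2 * x e f ^ 2
      + 1 / (2 * c) * (kk x D f - x e f * kk x D f)) := by
    refine Finset.sum_le_sum fun f _ => ?_
    have h2 : 0 ≤ (c * x e f - kk x D f) ^ 2 / (2 * c) := by positivity
    have h3 : (c * x e f - kk x D f) ^ 2 / (2 * c)
        = c / 2 * x e f ^ 2 + 1 / (2 * c) * kk x D f ^ 2 - x e f * kk x D f := by
      field_simp
      ring
    have h4 : kk x D f ^ 2 ≤ kk x D f - x e f * kk x D f := by
      nlinarith [kk_nonneg hx D f, x_add_kk hx (f := f) he]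
    have h5 := mul_le_mul_of_nonneg_left h4 (by positivity : 0 ≤ 1 / (2 * c))
    linarith
  have e1 : ∑ f ∈ F, (c / 2 * x e f ^ 2 + 1 / (2 * c) * (kk x D f - x e f * kk x D f))
      = c / 2 * fQ x F e + 1 / (2 * c) * (∑ f ∈ F, kk x D f - fh x (kk x D) F e) := by
    rw [Finset.sum_add_distrib, ← Finset.mul_sum, ← Finset.mul_sum, Finset.sum_sub_distrib]
    rfl
  rw [e1] at h1
  have h2 := mul_le_mul_of_nonneg_left (sum_kk_world hx hF he heF)
    (by positivity : 0 ≤ 1 / (2 * c))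
  have e2 : 1 / (2 * c) * ((D.card : ℝ) - kk x D e) = (D.card - kk x D e) / (2 * c) := by ring
  have e3 : 1 / (2 * c) * (∑ f ∈ F, kk x D f - fh x (kk x D) F e)
      = 1 / (2 * c) * ∑ f ∈ F, kk x D f - fh x (kk x D) F e * (1 / (2 * c)) := by ring
  rw [e3] at h1
  rw [e2] at h2
  linarith

/-- `Q ≤ m (1 - m)`-type bound is false in general; the weights at a vertex are at most
`1 - k` of both ends -/
theorem x_mul_kk_le (hx : Wt x) {e f : V} (he : e ∈ Dᶜ) :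
    x e f * kk x D f ≤ x e f * (1 - x e f) :=
  mul_le_mul_of_nonneg_left (by linarith [x_add_kk hx (f := f) he]) (hx.nn e f)

theorem fh_le_sub (hx : Wt x) {e : V} (he : e ∈ Dᶜ) (F : Finset V) :
    fh x (kk x D) F e ≤ fm x F e - fQ x F e := by
  have h1 : fh x (kk x D) F e ≤ ∑ f ∈ F, x e f * (1 - x e f) :=
    Finset.sum_le_sum fun f _ => x_mul_kk_le hx he
  refine h1.trans (le_of_eq ?_)
  unfold fm fQ
  rw [← Finset.sum_sub_distrib]
  exact Finset.sum_congr rfl fun f _ => by ring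

/-- the bound of `h` in the world: `q = 1/3` for two removed vertices -/
theorem fh_le_q (hx : Wt x) (hF : F ⊆ Dᶜ) {e : V} (he : e ∈ Dᶜ) (heF : e ∉ F) (q : ℝ) :
    fh x (kk x D) F e ≤ (1 - q) ^ 2 * fm x F e + q ^ 2 * (D.card - kk x D e) := by
  have h1 : fh x (kk x D) F e ≤ ∑ f ∈ F, ((1 - q) ^ 2 * x e f + q ^ 2 * kk x D f) :=
    Finset.sum_le_sum fun f _ => xk_le (hx.nn e f) (kk_nonneg hx D f) (x_add_kk hx he)
  rw [Finset.sum_add_distrib, ← Finset.mul_sum, ← Finset.mul_sum] at h1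
  have h3 := mul_le_mul_of_nonneg_left (sum_kk_world hx hF he heF) (sq_nonneg q)
  unfold fm
  linarith

end kill

end Pool.Agent.RZ.RCO
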