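import Mathlib

/-! The amplified errors at a neighbour of the centre up to the time 1 (MP_73ccd0_lc). -/

namespace Pool.Agent.RZ.RCN.K

open Set Finset MeasureTheory

set_option linter.unusedSectionVars false

variable {V : Type*} [Fintype V] [DecidableEq V]

variable {x : V → V → ℝ} {P : V → Prop} [DecidablePred P] {N : ℕ}

variable {κd : ℝ → ℝ → ℝ → ℝ} {R : V → V → V → ℝ → ℝ → ℝ} {L Lt : V → V → V → V → ℝ → ℝ → ℝ}

/-- the amplification minus one -/
noncomputable def psB (Bf : ℝ → ℝ → ℝ) (z w : ℝ) : ℝ := ((1 - Bf z w) ^ 2)⁻¹ - 1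

end Pool.Agent.RZ.RCN.K
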