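import Pool.Agent.RZ.RCN.KleA

/-! The linear errors of one side and the rows with a general mass of the fluxes (MP_73ccd0_lc). -/

namespace Pool.Agent.RZ.RCN.K

open Set Finset MeasureTheory

set_option linter.unusedSectionVars false

variable {V : Type*} [Fintype V] [DecidableEq V]
variable {x : V → V → ℝ} {P : V → Prop} [DecidablePred P] {k : Kf} {N : ℕ}
variable {κd : ℝ → ℝ → ℝ → ℝ} {R : V → V → V → ℝ → ℝ → ℝ} {L Lt : V → V → V → V → ℝ → ℝ → ℝ}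
variable {a b : V} {t γ : ℝ} {κ0 Fs ρ : ℝ → ℝ} {w : V → ℝ → ℝ} {l1 l2 h1 h2 : ℝ → ℝ → ℝ → ℝ}
variable {S St : ℝ → ℝ} {BA BB : ℝ} {c2 c4 : ℝ → ℝ → ℝ → ℝ} {IA IB : ℝ → ℝ → ℝ}

/-- the density of the quadratic bound of the error at one vertex, with the masses `Mc`, `Mb` -/
noncomputable def Bd3 (k : Kf) (γ : ℝ) (κ0 Fs ρ : ℝ → ℝ) (l1 l2 h1 h2 : ℝ → ℝ → ℝ → ℝ)
    (θ θh u Mc Mb y z yl zl v zb s : ℝ) : ℝ :=
  (κ0 s * (1 + γ * u) * (θ * v ^ 2 * l1 yl zl s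
      + θ⁻¹ * (zb * (1 + γ * y) * k.fh z s) ^ 2 * l2 yl zl s)
    + Fs s * (θh * v ^ 2 * Mc * h1 yl zl s
      + θh⁻¹ * (zb * ρ s) ^ 2 * Mb * h2 yl zl s)) / 2

/-- one term of the linear error -/
noncomputable def Td3 (k : Kf) (γ : ℝ) (κ0 Fs ρ : ℝ → ℝ)
    (θ θh u Mc Mb vc yd zd zb w l lt s : ℝ) : ℝ :=
  κ0 s * (1 + γ * u) * (θ * vc ^ 2) / 2 * (l * w⁻¹)
    + κ0 s * (1 + γ * u) * (θ⁻¹ * (zb * (1 + γ * yd) * k.fh zd s) ^ 2) / 2 * (l * w)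
    + Fs s * (θh * vc ^ 2 * Mc) / 2 * (lt * w⁻¹)
    + Fs s * (θh⁻¹ * (zb * ρ s) ^ 2 * Mb) / 2 * (lt * w)

end Pool.Agent.RZ.RCN.K
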