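import Pool.Agent.RZ.RCM.Jen

/-! The first part of the inequality of the centres up to the time 1 (MP_73ccd0_lc): symmetrisation
with a second weight, concavity with bounded errors, and the negative term of the pairs. -/

namespace Pool.Agent.RZ.RCN.K

open Set Finset MeasureTheory

open Pool.Agent.RZ.RCM.Jen

set_option linter.unusedSectionVars false

/-! ### the concavity lemma for bounded errors -/

/-- the constant `C` belongs to the mass ratio `m`, errors up to `p0` -/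
def CJr (C m p0 : ℝ) : Prop :=
  ∀ p ∈ Icc (0 : ℝ) p0, 6 - 6 * p + p ^ 2 ≤ C * ((6 - 3 * p) * (1 - m * p))

theorem CJr.expX {C m p0 : ℝ} (h : CJr C m p0) {x : ℝ} (hx : 0 ≤ x)
    (hx0 : 1 - Real.exp (-x) ≤ p0) :
    1 - Real.exp (-x) ≤ C * x * (1 - m * (1 - Real.exp (-x))) := by
  have e0 := Real.exp_pos (-x)
  have e1 : Real.exp (-x) ≤ 1 := by rw [Real.exp_le_one_iff]; linarith
  have e2 : 1 - Real.exp (-x) ≤ x := by
    have := Real.add_one_le_exp (-x)
    linarith
  have h1 := pade hx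
  have h2 := mul_le_mul_of_nonneg_left (h (1 - Real.exp (-x)) ⟨by linarith, by linarith⟩) hx
  have h3 : (3 * (1 + Real.exp (-x))) * (1 - Real.exp (-x))
      ≤ (3 * (1 + Real.exp (-x))) * (C * x * (1 - m * (1 - Real.exp (-x)))) := by
    nlinarith
  exact le_of_mul_le_mul_left h3 (by linarith)

/-- **the concavity pays for the amplification**, small errors -/
theorem amp_leX {C mt p0 x0 M mu Lam E' : ℝ} (hC : CJr C mt p0) (C0 : 0 ≤ C) (mt0 : 0 ≤ mt)
    (hp0 : 1 - Real.exp (-x0) ≤ p0)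
    (mt1 : mt * p0 < 1) (M0 : 0 < M) (hmu : mu ≤ mt * M) (Lam0 : 0 ≤ Lam)
    (hcap : Lam ≤ x0 * (mt * M))
    (hE : ∀ l, 0 ≤ l → E' ≤ mu * (1 - Real.exp (-l)) + Real.exp (-l) * (Lam - mu * l)) :
    E' < M ∧ E' * M ≤ C * Lam * (M - E') := by
  have hEL : E' ≤ Lam := by
    have := hE 0 le_rfl
    simpa using this
  rcases eq_or_lt_of_le (mul_nonneg mt0 M0.le) with h0 | h0
  · have hL : Lam = 0 := le_antisymm (by rw [← h0, mul_zero] at hcap; exact hcap) Lam0
    rw [hL] at hEL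
    refine ⟨by linarith, ?_⟩
    rw [hL]
    have : E' * M ≤ 0 := mul_nonpos_of_nonpos_of_nonneg hEL M0.le
    simpa using this
  · set μ := mt * M with hμ
    set x := Lam / μ with hx
    have xn : 0 ≤ x := div_nonneg Lam0 h0.le
    have xp' : x ≤ x0 := by rw [hx, div_le_iff₀ h0]; exact hcap
    have xp : 1 - Real.exp (-x) ≤ p0 := by
      have := Real.exp_le_exp.2 (neg_le_neg xp')
      linarith
    have e0 := Real.exp_pos (-x)
    have e1 : Real.exp (-x) ≤ 1 := by rw [Real.exp_le_one_iff]; linarith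
    have e2 : 1 - Real.exp (-x) ≤ x := by
      have := Real.add_one_le_exp (-x)
      linarith
    have hL : Lam = μ * x := by rw [hx]; field_simp
    have h1 : E' ≤ μ * (1 - Real.exp (-x)) := by
      have h2 := hE x xn
      have h3 := mul_le_mul_of_nonneg_right hmu (tangent_coef (l := x))
      rw [hL] at h2
      nlinarith
    have h4 := hC.expX xn xp
    have h5 : μ * (1 - Real.exp (-x)) < M := by
      have i1 : mt * (1 - Real.exp (-x)) ≤ mt * p0 :=
        mul_le_mul_of_nonneg_left xp mt0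
      have i2 : mt * (1 - Real.exp (-x)) * M < 1 * M :=
        mul_lt_mul_of_pos_right (lt_of_le_of_lt i1 mt1) M0
      rw [hμ]
      linarith
    refine ⟨by linarith, ?_⟩
    -- monotone in `E'`
    have h6 : μ * (1 - Real.exp (-x)) * M ≤ C * Lam * (M - μ * (1 - Real.exp (-x))) := by
      rw [hL, hμ]
      have := mul_le_mul_of_nonneg_left h4 (mul_nonneg (mul_nonneg mt0 M0.le) M0.le)
      nlinarith
    have h7 : E' * M ≤ μ * (1 - Real.exp (-x)) * M := mul_le_mul_of_nonneg_right h1 M0.le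
    have h8 : C * Lam * (M - μ * (1 - Real.exp (-x))) ≤ C * Lam * (M - E') :=
      mul_le_mul_of_nonneg_left (by linarith) (mul_nonneg C0 Lam0)
    linarith

/-- **the amplified error**, small errors -/
theorem amp_boundX {C mt p0 x0 mb e0 mu Lam E' e : ℝ} (hC : CJr C mt p0) (C0 : 0 ≤ C)
    (hp0 : 1 - Real.exp (-x0) ≤ p0)
    (mt0 : 0 ≤ mt) (mt1 : mt * p0 < 1)
    (mb0 : 0 ≤ mb) (e00 : 0 ≤ e0) (hM : mb + e0 < 1)
    (hmu : mu ≤ mt * (1 - mb - e0)) (Lam0 : 0 ≤ Lam) (hcap : Lam ≤ x0 * (mt * (1 - mb - e0)))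
    (hE : ∀ l, 0 ≤ l → E' ≤ mu * (1 - Real.exp (-l)) + Real.exp (-l) * (Lam - mu * l))
    (he0 : 0 ≤ e) (he : e ≤ e0 + E') :
    e * ((1 - mb) * (1 - mb - e))⁻¹
      ≤ e0 / ((1 - mb) * (1 - mb - e0)) + C * Lam / (1 - mb - e0) ^ 2 := by
  set M := 1 - mb - e0 with hMd
  have M0 : 0 < M := by rw [hMd]; linarith
  obtain ⟨h1, h2⟩ := amp_leX hC C0 mt0 hp0 mt1 M0 hmu Lam0 hcap hE
  have h3 : 0 < 1 - mb - e := by linarith
  have h4 : 0 < 1 - mb := by linarith
  have h5 : 0 < M - E' := by linarith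
  -- monotone in `e`
  have h6 : e * ((1 - mb) * (1 - mb - e))⁻¹ ≤ (e0 + E') * ((1 - mb) * (M - E'))⁻¹ := by
    rw [← div_eq_mul_inv, ← div_eq_mul_inv]
    rw [div_le_div_iff₀ (mul_pos h4 h3) (mul_pos h4 h5)]
    have : e * (M - E') ≤ (e0 + E') * (1 - mb - e) := by
      rw [hMd]
      nlinarith
    nlinarith
  refine h6.trans ?_
  rw [← div_eq_mul_inv]
  have hCL : 0 ≤ C * Lam := mul_nonneg C0 Lam0
  have k1 : E' / (M - E') ≤ C * Lam / M := by
    rw [div_le_div_iff₀ h5 M0]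
    linarith
  have k2 : (e0 + E') / ((1 - mb) * (M - E'))
      = (1 / (1 - mb)) * (e0 / M + (e0 / M + 1) * (E' / (M - E'))) := by
    field_simp
    ring
  have k3 : 1 - mb = M + e0 := by rw [hMd]; ring
  rw [k2]
  have k4 : (1 / (1 - mb)) * (e0 / M + (e0 / M + 1) * (E' / (M - E')))
      ≤ (1 / (1 - mb)) * (e0 / M + (e0 / M + 1) * (C * Lam / M)) := by
    refine mul_le_mul_of_nonneg_left ?_ (by positivity)
    have : 0 ≤ e0 / M + 1 := by positivity
    have := mul_le_mul_of_nonneg_left k1 this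
    linarith
  refine k4.trans (le_of_eq ?_)
  rw [k3]
  have : M + e0 ≠ 0 := by rw [← k3]; exact h4.ne'
  field_simp
  ring

/-! ### symmetrisation -/

/-- symmetrisation with a second weight -/
theorem symm_gen {V : Type*} [Fintype V] {u c g : V → ℝ} {M : V → V → ℝ}
    (hM : ∀ b d, M b d = M d b) (hM0 : ∀ b d, 0 ≤ M b d)
    (hm : ∀ b d, M b d ≠ 0 → u b * u d * (c b + c d) ≤ u b ^ 2 * g b + u d ^ 2 * g d) :
    ∑ b, ∑ d, u b * u d * c d * M b d ≤ ∑ b, ∑ d, u b ^ 2 * g b * M b d := by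
  have h1 : ∑ b, ∑ d, u b * u d * c d * M b d = ∑ b, ∑ d, u b * u d * c b * M b d := by
    rw [Finset.sum_comm]
    refine Finset.sum_congr rfl fun b _ => Finset.sum_congr rfl fun d _ => ?_
    rw [hM d b]; ring
  have h2 : ∑ b, ∑ d, u b ^ 2 * g b * M b d = ∑ b, ∑ d, u d ^ 2 * g d * M b d := by
    rw [Finset.sum_comm]
    refine Finset.sum_congr rfl fun b _ => Finset.sum_congr rfl fun d _ => ?_
    rw [hM d b]
  have h3 : ∑ b, ∑ d, (u b * u d * c d * M b d + u b * u d * c b * M b d)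
      ≤ ∑ b, ∑ d, (u b ^ 2 * g b * M b d + u d ^ 2 * g d * M b d) := by
    refine Finset.sum_le_sum fun b _ => Finset.sum_le_sum fun d _ => ?_
    by_cases h0 : M b d = 0
    · rw [h0]; simp
    · have := mul_le_mul_of_nonneg_right (hm b d h0) (hM0 b d)
      nlinarith
  simp only [Finset.sum_add_distrib] at h3
  rw [← h1, ← h2] at h3
  linarith

end Pool.Agent.RZ.RCN.K
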