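import Pool.Agent.RZ.RCN.Jn
import Pool.Agent.RZ.RCN.T1A

/-! The linear error of a centre from rows and entries that depend on the removed vertex
(MP_73ccd0_lc). -/

namespace Pool.Agent.RZ.RCN.K

open Set Finset MeasureTheory Pool.Agent.RZ.RCRSHalf Pool.Agent.RZ.RCG Pool.Agent.RZ.RCG.Ct
open Pool.Agent.RZ.RCN.Ker Pool.Agent.RZ.RCRS Pool.Agent.RZ.RCM.Jen

set_option linter.unusedSectionVars false

variable {V : Type*} [Fintype V] [DecidableEq V]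
variable {x : V → V → ℝ} {P : V → Prop} [DecidablePred P] {k : Kf} {N : ℕ}
variable {κd : ℝ → ℝ → ℝ → ℝ} {R : V → V → V → ℝ → ℝ → ℝ} {L Lt : V → V → V → V → ℝ → ℝ → ℝ}

/-- the data of the rows and entries at the time `t` -/
structure T1q (x : V → V → ℝ) (P : V → Prop) [DecidablePred P] (k : Kf) (κd : ℝ → ℝ → ℝ → ℝ)
    (R : V → V → V → ℝ → ℝ → ℝ) (L Lt : V → V → V → V → ℝ → ℝ → ℝ) (a b : V) (t γ : ℝ)
    (κ0 Fs : ℝ → ℝ) (rA eA rH eH : V → ℝ → ℝ) (RA RH EA EH : V → ℝ) : Prop where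
  γ0 : 0 ≤ γ
  cκ0 : ContinuousOn κ0 (Icc 0 t)
  k0 : ∀ s ∈ Icc 0 t, 0 ≤ κ0 s
  hκ : ∀ w ∈ Icc (0 : ℝ) 1, ∀ s ∈ Icc 0 t, κd w t s ≤ κ0 s * (1 + γ * w)
  cFs : ContinuousOn Fs (Icc 0 t)
  Fs0 : ∀ s ∈ Icc 0 t, 0 ≤ Fs s
  hF : ∀ d ∈ ({a, b} : Finset V)ᶜ, ∀ s ∈ Icc 0 t,
    ∫ r in (0 : ℝ)..s, fq x P k.fh b d r * κ0 r ≤ Fs s
  crA : ∀ d, ContinuousOn (rA d) (Icc 0 t)
  ceA : ∀ d, ContinuousOn (eA d) (Icc 0 t)
  crH : ∀ d, ContinuousOn (rH d) (Icc 0 t)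
  ceH : ∀ d, ContinuousOn (eH d) (Icc 0 t)
  R0 : ∀ d ∈ ({a, b} : Finset V)ᶜ, x b d = 0 → ∀ s ∈ Icc 0 t, R a b d t s = 0
  rL : ∀ d ∈ ({a, b} : Finset V)ᶜ, x b d ≠ 0 → ∀ s ∈ Icc 0 t,
    (1 + γ * x a d) * ∑ c ∈ ({a, b, d} : Finset V)ᶜ, (if P c then L a b c d t s else 0)
      ≤ rA d s
  rI : ∀ d ∈ ({a, b} : Finset V)ᶜ,
    ∫ s in (0 : ℝ)..t, fq x P k.fh b d s * κ0 s * rA d s ≤ RA d
  rT : ∀ d ∈ ({a, b} : Finset V)ᶜ, x b d ≠ 0 → ∀ s ∈ Icc 0 t,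
    R a b d t s * ∑ c ∈ ({a, b, d} : Finset V)ᶜ, (if P c then Lt a b c d t s else 0)
      ≤ x b d * rH d s
  rJ : ∀ d ∈ ({a, b} : Finset V)ᶜ, ∫ s in (0 : ℝ)..t, Fs s * rH d s ≤ RH d
  eL : ∀ d ∈ ({a, b} : Finset V)ᶜ, x b d ≠ 0 → ∀ c ∈ ({a, b, d} : Finset V)ᶜ, P c →
    ∀ s ∈ Icc 0 t, (1 + γ * x a d) * L a b c d t s ≤ eA d s
  eI : ∀ d ∈ ({a, b} : Finset V)ᶜ,
    ∫ s in (0 : ℝ)..t, fq x P k.fh b d s * κ0 s * eA d s ≤ EA d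
  eT : ∀ d ∈ ({a, b} : Finset V)ᶜ, x b d ≠ 0 → ∀ c ∈ ({a, b, d} : Finset V)ᶜ, P c →
    ∀ s ∈ Icc 0 t, R a b d t s * Lt a b c d t s ≤ x b d * eH d s
  eJ : ∀ d ∈ ({a, b} : Finset V)ᶜ, ∫ s in (0 : ℝ)..t, Fs s * eH d s ≤ EH d

variable {a b : V} {t γ : ℝ} {κ0 Fs : ℝ → ℝ} {rA eA rH eH : V → ℝ → ℝ}
  {RA RH EA EH : V → ℝ}

/-- the flux against a function -/
theorem flx_int_leQ (hf : Lf N k κd R L Lt) (hx : Wt x P 1) (hk : k.Ok)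
    (hfc : ∀ y ∈ Icc (0 : ℝ) 1, ContinuousOn (k.fh y) (Icc 0 1)) (ht : t ∈ Icc (0 : ℝ) 1)
    (hr : T1q x P k κd R L Lt a b t γ κ0 Fs rA eA rH eH RA RH EA EH) {d : V}
    (hd : d ∈ ({a, b} : Finset V)ᶜ) {f g : ℝ → ℝ} (cf : ContinuousOn f (Icc 0 t))
    (f0 : ∀ s ∈ Icc 0 t, 0 ≤ f s)
    (cg : ContinuousOn g (Icc 0 t)) (hfg : ∀ s ∈ Icc 0 t, (1 + γ * x a d) * f s ≤ g s) {G : ℝ}
    (hG : ∫ s in (0 : ℝ)..t, fq x P k.fh b d s * κ0 s * g s ≤ G) :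
    ∫ s in (0 : ℝ)..t, flx x P k κd a b d t s * f s ≤ x b d * ((1 + γ * x a b) * G) := by
  have cfq : ContinuousOn (fq x P k.fh b d) (Icc 0 t) :=
    (fq_cont' hfc hx b d).mono (Icc_subset_Icc_right ht.2)
  have m0 : (0 : ℝ) ∈ Icc 0 t := ⟨le_rfl, ht.1⟩
  have mt : t ∈ Icc 0 t := ⟨ht.1, le_rfl⟩
  have hd' := hd
  rw [mem2] at hd'
  have hw := two_mem hx a (Ne.symm hd'.2)
  have v0 := hx.nonneg b d
  have u0 := hx.nonneg a b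
  have w0 := hx.nonneg a d
  have γu : 0 ≤ γ * x a b := mul_nonneg hr.γ0 u0
  have γw : 0 ≤ γ * x a d := mul_nonneg hr.γ0 w0
  have h1 : ∫ s in (0 : ℝ)..t, flx x P k κd a b d t s * f s
      ≤ ∫ s in (0 : ℝ)..t, (x b d * (1 + γ * x a b)) * (fq x P k.fh b d s * κ0 s * g s) := by
    refine intervalIntegral.integral_mono_on ht.1
      (ii_of ht.1 ((flx_slice hf hx hfc a b d ht).mul cf) m0 mt)
      (ii_of ht.1 (continuousOn_const.mul ((cfq.mul hr.cκ0).mul cg)) m0 mt) fun s hs => ?_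
    have q0 : 0 ≤ fq x P k.fh b d s := fq_nonneg' hk hx b d ⟨hs.1, hs.2.trans ht.2⟩
    have k0 := hr.k0 s hs
    have i1 : κd (x a b + x a d) t s ≤ κ0 s * ((1 + γ * x a b) * (1 + γ * x a d)) := by
      refine (hr.hκ _ hw s hs).trans (mul_le_mul_of_nonneg_left ?_ k0)
      have := mul_nonneg γu γw
      nlinarith
    have i2 : flx x P k κd a b d t s * f s
        ≤ x b d * fq x P k.fh b d s * (κ0 s * ((1 + γ * x a b) * (1 + γ * x a d))) * f s := by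
      unfold flx
      exact mul_le_mul_of_nonneg_right (mul_le_mul_of_nonneg_left i1 (mul_nonneg v0 q0))
        (f0 s hs)
    have i3 := mul_le_mul_of_nonneg_left (hfg s hs)
      (mul_nonneg (mul_nonneg v0 (show 0 ≤ 1 + γ * x a b by linarith)) (mul_nonneg q0 k0))
    refine i2.trans ?_
    calc _ = x b d * (1 + γ * x a b) * (fq x P k.fh b d s * κ0 s)
          * ((1 + γ * x a d) * f s) := by ring
      _ ≤ x b d * (1 + γ * x a b) * (fq x P k.fh b d s * κ0 s) * g s := i3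
      _ = _ := by ring
  refine h1.trans ?_
  rw [intervalIntegral.integral_const_mul]
  calc _ ≤ x b d * (1 + γ * x a b) * G :=
        mul_le_mul_of_nonneg_left hG (mul_nonneg v0 (by linarith))
    _ = _ := by ring

/-- the terms without weight vanish -/
theorem LamL_zeroQ (hr : T1q x P k κd R L Lt a b t γ κ0 Fs rA eA rH eH RA RH EA EH)
    (ht : t ∈ Icc (0 : ℝ) 1) {c d : V} (hd : d ∈ ({a, b} : Finset V)ᶜ) (hbd : x b d = 0) :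
    (∫ s in (0 : ℝ)..t, (flx x P k κd a b d t s * L a b c d t s
      + muL x P k κd a b c t s * (R a b d t s * Lt a b c d t s))) = 0 := by
  have e : ∀ s ∈ uIcc 0 t, (flx x P k κd a b d t s * L a b c d t s
      + muL x P k κd a b c t s * (R a b d t s * Lt a b c d t s)) = 0 := fun s hs => by
    rw [uIcc_of_le ht.1] at hs
    rw [hr.R0 d hd hbd s hs]
    unfold flx
    rw [hbd]
    ring
  rw [intervalIntegral.integral_congr e]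
  simp

end Pool.Agent.RZ.RCN.K
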