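import Pool.Agent.RZ.RCG.CtA

/-! The first part of the inequality of the centres: the terms with two edges at a common
neighbour of `a` and `b` are summed over the star of `a` (MP_73ccd0_lc). -/

namespace Pool.Agent.RZ.RCN.K

open Set Finset MeasureTheory Pool.Agent.RZ.RCG Pool.Agent.RZ.RCG.Ct

set_option linter.unusedSectionVars false

variable {V : Type*} [Fintype V] [DecidableEq V]
variable {x : V → V → ℝ} {P : V → Prop} [DecidablePred P] {N : ℕ}

variable {κd : ℝ → ℝ → ℝ → ℝ} {R : V → V → V → ℝ → ℝ → ℝ} {L Lt : V → V → V → V → ℝ → ℝ → ℝ}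

/-! ### the sums over the common neighbours -/

theorem row_twoS (hx : Wt x P 1) (f : V) {a b : V} (hab : a ≠ b) :
    ∑ c ∈ ({a, b} : Finset V)ᶜ, x f c ≤ 1 - x f a - x f b := by
  have h1 := Finset.sum_add_sum_compl ({a, b} : Finset V) (fun c => x f c)
  rw [Finset.sum_pair hab] at h1
  have h3 := hx.row f
  linarith

/-- the sum over the common neighbours of `a` and `b` -/
noncomputable def Nn (x : V → V → ℝ) (a b : V) : ℝ := ∑ e ∈ ({a, b} : Finset V)ᶜ, x b e * x a e

theorem Nn_nonneg (hx : Wt x P 1) (a b : V) : 0 ≤ Nn x a b :=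
  Finset.sum_nonneg fun e _ => mul_nonneg (hx.nonneg b e) (hx.nonneg a e)

/-- the terms of a common neighbour without a row vanish -/
theorem pend_zero (hx : Wt x P 1) {a b e : V} (hab : a ≠ b) (he : ¬P e) :
    x b e * x a e = 0 := by
  by_contra h
  have h1 : x b e ≠ 0 := fun h' => h (by rw [h', zero_mul])
  have h2 : x a e ≠ 0 := fun h' => h (by rw [h', mul_zero])
  rw [hx.symm a e] at h2
  exact hab (hx.pend1 b e a he h1 h2)

end Pool.Agent.RZ.RCN.K
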