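import Pool.Agent.RZ.RCN.Jn
import Pool.Agent.RZ.RCN.T1A
import Pool.Agent.RZ.RCO.T1S

/-! The linear errors with a general mass of the fluxes (MP_73ccd0_lc). -/

namespace Pool.Agent.RZ.RCN.K

open Set Finset MeasureTheory Pool.Agent.RZ.RCRSHalf Pool.Agent.RZ.RCG Pool.Agent.RZ.RCG.Ct
open Pool.Agent.RZ.RCN.Ker Pool.Agent.RZ.RCRS Pool.Agent.RZ.RCM.Jen

set_option linter.unusedSectionVars false

variable {V : Type*} [Fintype V] [DecidableEq V]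
variable {x : V → V → ℝ} {P : V → Prop} [DecidablePred P] {k : Kf} {N : ℕ}
variable {κd : ℝ → ℝ → ℝ → ℝ} {R : V → V → V → ℝ → ℝ → ℝ} {L Lt : V → V → V → V → ℝ → ℝ → ℝ}
variable {a b : V} {t γ : ℝ} {κ0 Fs ρ : ℝ → ℝ} {w : V → ℝ → ℝ} {l1 l2 h1 h2 : ℝ → ℝ → ℝ → ℝ}
variable {S St : ℝ → ℝ} {BA BB : ℝ} {c2 c4 : ℝ → ℝ → ℝ → ℝ} {IA IB : ℝ → ℝ → ℝ}

/-- the mass of the fluxes at `b` without `c` -/
noncomputable def Mn (x : V → V → ℝ) (γ : ℝ) (a b c : V) : ℝ :=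
  (1 + γ * x a b) * (1 - x a b - x b c + γ * Nn x a b)

/-- the mass of the fluxes at `b` -/
noncomputable def Mn0 (x : V → V → ℝ) (γ : ℝ) (a b : V) : ℝ :=
  (1 + γ * x a b) * (1 - x a b + γ * Nn x a b)

theorem Mn_le0 (hx : Wt x P 1) (γ0 : 0 ≤ γ) (c : V) : Mn x γ a b c ≤ Mn0 x γ a b := by
  have u0 := mul_nonneg γ0 (hx.nonneg a b)
  unfold Mn Mn0
  exact mul_le_mul_of_nonneg_left (by linarith [hx.nonneg b c]) (by linarith)

/-- the sum of the masses -/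
theorem mass_sum (hx : Wt x P 1) (γ0 : 0 ≤ γ) {c : V} (hac : a ≠ c) :
    ∑ d ∈ ({a, b, c} : Finset V)ᶜ, x b d * (1 + γ * (x a b + x a d)) ≤ Mn x γ a b c := by
  have u0 := mul_nonneg γ0 (hx.nonneg a b)
  have h1 : ∀ d ∈ ({a, b, c} : Finset V)ᶜ, x b d * (1 + γ * (x a b + x a d))
      ≤ (1 + γ * x a b) * (x b d + γ * (x b d * x a d)) := by
    intro d _
    have := mul_nonneg u0 (mul_nonneg γ0 (mul_nonneg (hx.nonneg b d) (hx.nonneg a d)))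
    nlinarith
  refine (Finset.sum_le_sum h1).trans ?_
  rw [← Finset.mul_sum, Finset.sum_add_distrib, ← Finset.mul_sum]
  unfold Mn
  refine mul_le_mul_of_nonneg_left ?_ (by linarith)
  have r1 := row_two hx b (a := a) (c := c) hac (({a, b, c} : Finset V)ᶜ) fun d hd => by
    rw [mem3] at hd; exact ⟨hd.1, hd.2.2⟩
  rw [hx.symm b a] at r1
  have r2 : ∑ d ∈ ({a, b, c} : Finset V)ᶜ, x b d * x a d ≤ Nn x a b := by
    unfold Nn
    refine Finset.sum_le_sum_of_subset_of_nonneg ?_ fun d _ _ =>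
      mul_nonneg (hx.nonneg b d) (hx.nonneg a d)
    intro d hd
    rw [mem3] at hd
    exact mem2.2 ⟨hd.1, hd.2.1⟩
  have := mul_le_mul_of_nonneg_left r2 γ0
  linarith

/-- the mass of the fluxes up to `s` -/
theorem muL_leN (hf : Lf N k κd R L Lt) (hx : Wt x P 1) (hk : k.Ok)
    (hfc : ∀ y ∈ Icc (0 : ℝ) 1, ContinuousOn (k.fh y) (Icc 0 1)) (ht : t ∈ Icc (0 : ℝ) 1)
    (γ0 : 0 ≤ γ) (cκ0 : ContinuousOn κ0 (Icc 0 t))
    (hκ : ∀ w ∈ Icc (0 : ℝ) 1, ∀ s ∈ Icc 0 t, κd w t s ≤ κ0 s * (1 + γ * w))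
    (Fs0 : ∀ s ∈ Icc 0 t, 0 ≤ Fs s)
    (hF : ∀ d ∈ ({a, b} : Finset V)ᶜ, ∀ s ∈ Icc 0 t,
      ∫ r in (0 : ℝ)..s, fq x P k.fh b d r * κ0 r ≤ Fs s) {c : V} (hac : a ≠ c) {s : ℝ}
    (hs : s ∈ Icc 0 t) :
    muL x P k κd a b c t s ≤ Mn x γ a b c * Fs s := by
  have cfq : ∀ d, ContinuousOn (fq x P k.fh b d) (Icc 0 t) := fun d =>
    (fq_cont' hfc hx b d).mono (Icc_subset_Icc_right ht.2)
  have m0 : (0 : ℝ) ∈ Icc 0 t := ⟨le_rfl, ht.1⟩
  have u0 := hx.nonneg a b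
  have hq : ∀ d, ∀ r ∈ Icc 0 t, 0 ≤ fq x P k.fh b d r := fun d r hr =>
    fq_nonneg' hk hx b d ⟨hr.1, hr.2.trans ht.2⟩
  have h2 : ∀ d ∈ ({a, b, c} : Finset V)ᶜ, ∫ r in (0 : ℝ)..s, flx x P k κd a b d t r
      ≤ x b d * (1 + γ * (x a b + x a d)) * Fs s := by
    intro d hd
    have hd' := hd
    rw [mem3] at hd'
    have hw := two_mem hx a (Ne.symm hd'.2.1)
    have v0 := hx.nonneg b d
    have w0 := hx.nonneg a d
    have i0 : ∫ r in (0 : ℝ)..s, flx x P k κd a b d t r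
        ≤ ∫ r in (0 : ℝ)..s, (x b d * (1 + γ * (x a b + x a d)))
          * (fq x P k.fh b d r * κ0 r) := by
      refine intervalIntegral.integral_mono_on hs.1
        (ii_of ht.1 (flx_slice hf hx hfc a b d ht) m0 hs)
        (ii_of ht.1 (continuousOn_const.mul ((cfq d).mul cκ0)) m0 hs) fun r hr => ?_
      have hr' : r ∈ Icc 0 t := ⟨hr.1, hr.2.trans hs.2⟩
      unfold flx
      have := mul_le_mul_of_nonneg_left (hκ _ hw r hr') (mul_nonneg v0 (hq d r hr'))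
      calc _ ≤ x b d * fq x P k.fh b d r * (κ0 r * (1 + γ * (x a b + x a d))) := this
        _ = _ := by ring
    rw [intervalIntegral.integral_const_mul] at i0
    have g0 : 0 ≤ x b d * (1 + γ * (x a b + x a d)) :=
      mul_nonneg v0 (by nlinarith)
    exact i0.trans (mul_le_mul_of_nonneg_left (hF d (mem2.2 ⟨hd'.1, hd'.2.1⟩) s hs) g0)
  unfold muL
  rw [intervalIntegral.integral_finsetSum fun d _ =>
    ii_of ht.1 (flx_slice hf hx hfc a b d ht) m0 hs]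
  refine (Finset.sum_le_sum h2).trans ?_
  rw [← Finset.sum_mul]
  exact mul_le_mul_of_nonneg_right (mass_sum hx γ0 hac) (Fs0 s hs)

end Pool.Agent.RZ.RCN.K
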