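import Pool.Agent.RZ.RCN.T1B
import Pool.Agent.RZ.RCO.T1N
import Pool.Agent.RZ.RCO.T1P
import Pool.Agent.RZ.RCO.T1T

/-! The first part of the inequality of the centres: rows with a general mass, the amplified
errors with a mass ratio of the vertex (MP_73ccd0_lc). -/

namespace Pool.Agent.RZ.RCN.K

open Set Finset MeasureTheory Pool.Agent.RZ.RCRSHalf Pool.Agent.RZ.RCG Pool.Agent.RZ.RCG.Ct
open Pool.Agent.RZ.RCN.Ker Pool.Agent.RZ.RCRS Pool.Agent.RZ.RCM.Jen

set_option linter.unusedSectionVars false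

variable {V : Type*} [Fintype V] [DecidableEq V]
variable {x : V → V → ℝ} {P : V → Prop} [DecidablePred P] {k : Kf} {N : ℕ}
variable {κd : ℝ → ℝ → ℝ → ℝ} {R : V → V → V → ℝ → ℝ → ℝ} {L Lt : V → V → V → V → ℝ → ℝ → ℝ}
variable {a b : V} {t γ : ℝ} {κ0 Fs ρ : ℝ → ℝ} {w : V → ℝ → ℝ} {l1 l2 h1 h2 : ℝ → ℝ → ℝ → ℝ}
variable {S St : ℝ → ℝ} {BA BB : ℝ} {c2 c4 : ℝ → ℝ → ℝ → ℝ} {IA IB : ℝ → ℝ → ℝ}
variable {rA eA rH eH : V → ℝ → ℝ} {RA RH EA EH : V → ℝ}

/-- **the rows of the linear error** -/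
theorem lam_rowN (hf : Lf N k κd R L Lt) (hx : Wt x P 1) (hk : k.Ok)
    (hfc : ∀ y ∈ Icc (0 : ℝ) 1, ContinuousOn (k.fh y) (Icc 0 1)) (ht : t ∈ Icc (0 : ℝ) 1)
    (hr : T1q x P k κd R L Lt a b t γ κ0 Fs rA eA rH eH RA RH EA EH) :
    ∑ c ∈ ({a, b} : Finset V)ᶜ, (if P c then LamL x P k κd R L Lt a b c t else 0)
      ≤ ∑ d ∈ ({a, b} : Finset V)ᶜ, x b d
        * ((1 + γ * x a b) * RA d + Mn0 x γ a b * RH d) := by
  have m0 : (0 : ℝ) ∈ Icc 0 t := ⟨le_rfl, ht.1⟩
  have mt : t ∈ Icc 0 t := ⟨ht.1, le_rfl⟩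
  have u0 := hx.nonneg a b
  have u1 := (x_mem hx a b).2
  have γu : 0 ≤ γ * x a b := mul_nonneg hr.γ0 u0
  have M0 : 0 ≤ Mn0 x γ a b := by
    have n0 := mul_nonneg hr.γ0 (Nn_nonneg hx a b)
    unfold Mn0
    exact mul_nonneg (by linarith) (by linarith)
  have e0 : ∑ c ∈ ({a, b} : Finset V)ᶜ, (if P c then LamL x P k κd R L Lt a b c t else 0)
      = ∑ c ∈ ({a, b} : Finset V)ᶜ, ∑ d ∈ ({a, b, c} : Finset V)ᶜ,
        (if P c then ∫ s in (0 : ℝ)..t, (flx x P k κd a b d t s * L a b c d t s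
          + muL x P k κd a b c t s * (R a b d t s * Lt a b c d t s)) else 0) := by
    refine Finset.sum_congr rfl fun c _ => ?_
    unfold LamL
    split_ifs
    · rfl
    · simp
  rw [e0, swap_tri]
  have key : ∀ d ∈ ({a, b} : Finset V)ᶜ, (∑ c ∈ ({a, b, d} : Finset V)ᶜ,
      (if P c then ∫ s in (0 : ℝ)..t, (flx x P k κd a b d t s * L a b c d t s
      + muL x P k κd a b c t s * (R a b d t s * Lt a b c d t s)) else 0))
      ≤ x b d * ((1 + γ * x a b) * RA d + Mn0 x γ a b * RH d) := by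
    intro d hd
    by_cases hbd : x b d = 0
    · rw [hbd, zero_mul]
      refine le_of_eq (Finset.sum_eq_zero fun c _ => ?_)
      split_ifs
      · exact LamL_zeroQ hr ht hd hbd
      · rfl
    have v0 := hx.nonneg b d
    have cL : ∀ c, ContinuousOn (fun s => if P c then L a b c d t s else 0) (Icc 0 t) :=
      fun c => by
        split_ifs
        · exact (hf.cL a b c d).slice hf.N0 ht
        · exact continuousOn_const
    have cLt : ∀ c, ContinuousOn (fun s => if P c then Lt a b c d t s else 0) (Icc 0 t) :=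
      fun c => by
        split_ifs
        · exact (hf.cLt a b c d).slice hf.N0 ht
        · exact continuousOn_const
    have L0 : ∀ c, ∀ s ∈ Icc 0 t, 0 ≤ (if P c then L a b c d t s else 0) := fun c s hs => by
      split_ifs
      · exact hf.L0 a b c d t s hs.1 hs.2 ht.2
      · exact le_rfl
    have Lt0 : ∀ c, ∀ s ∈ Icc 0 t, 0 ≤ (if P c then Lt a b c d t s else 0) := fun c s hs => by
      split_ifs
      · exact hf.Lt0 a b c d t s hs.1 hs.2 ht.2
      · exact le_rfl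
    have cR : ContinuousOn (R a b d t) (Icc 0 t) := (hf.cR a b d).slice hf.N0 ht
    have cF := flx_slice hf hx hfc a b d ht
    have e2 : ∀ c, (if P c then ∫ s in (0 : ℝ)..t, (flx x P k κd a b d t s * L a b c d t s
        + muL x P k κd a b c t s * (R a b d t s * Lt a b c d t s)) else 0)
        = (∫ s in (0 : ℝ)..t, flx x P k κd a b d t s * (if P c then L a b c d t s else 0))
          + ∫ s in (0 : ℝ)..t, muL x P k κd a b c t s
            * (R a b d t s * (if P c then Lt a b c d t s else 0)) := fun c => by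
      by_cases hPc : P c
      · simp only [if_pos hPc]
        exact lam_term hf hx hfc ht a b c d
      · simp only [if_neg hPc, mul_zero, intervalIntegral.integral_zero, add_zero]
    have e1 : (∑ c ∈ ({a, b, d} : Finset V)ᶜ, (if P c then ∫ s in (0 : ℝ)..t,
        (flx x P k κd a b d t s * L a b c d t s
        + muL x P k κd a b c t s * (R a b d t s * Lt a b c d t s)) else 0))
        = (∫ s in (0 : ℝ)..t, flx x P k κd a b d t s
            * ∑ c ∈ ({a, b, d} : Finset V)ᶜ, (if P c then L a b c d t s else 0))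
          + ∑ c ∈ ({a, b, d} : Finset V)ᶜ, ∫ s in (0 : ℝ)..t,
            muL x P k κd a b c t s * (R a b d t s * (if P c then Lt a b c d t s else 0)) := by
      simp only [e2]
      rw [Finset.sum_add_distrib]
      congr 1
      have := intervalIntegral.integral_finsetSum (μ := volume) (a := 0) (b := t)
        (s := ({a, b, d} : Finset V)ᶜ) (f := fun c s => flx x P k κd a b d t s
          * (if P c then L a b c d t s else 0))
        fun c _ => ii_of ht.1 (cF.mul (cL c)) m0 mt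
      rw [← this]
      simp only [Finset.mul_sum]
    have i1 := flx_int_leQ hf hx hk hfc ht hr hd
      (f := fun s => ∑ c ∈ ({a, b, d} : Finset V)ᶜ, (if P c then L a b c d t s else 0))
      (continuousOn_finsetSum _ fun c _ => cL c)
      (fun s hs => Finset.sum_nonneg fun c _ => L0 c s hs)
      (hr.crA d) (fun s hs => hr.rL d hd hbd s hs) (hr.rI d hd)
    have i2 : (∑ c ∈ ({a, b, d} : Finset V)ᶜ, ∫ s in (0 : ℝ)..t,
          muL x P k κd a b c t s * (R a b d t s * (if P c then Lt a b c d t s else 0)))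
        ≤ ∫ s in (0 : ℝ)..t, (Mn0 x γ a b * x b d) * (Fs s * rH d s) := by
      have := intervalIntegral.integral_finsetSum (μ := volume) (a := 0) (b := t)
        (s := ({a, b, d} : Finset V)ᶜ) (f := fun c s =>
          muL x P k κd a b c t s * (R a b d t s * (if P c then Lt a b c d t s else 0)))
        fun c _ => ii_of ht.1 ((mu_cont hf hx hfc ht a b c).mul (cR.mul (cLt c))) m0 mt
      rw [← this]
      refine intervalIntegral.integral_mono_on ht.1
        (ii_of ht.1 (continuousOn_finsetSum _ fun c _ =>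
          (mu_cont hf hx hfc ht a b c).mul (cR.mul (cLt c))) m0 mt)
        (ii_of ht.1 (continuousOn_const.mul (hr.cFs.mul (hr.crH d))) m0 mt) fun s hs => ?_
      have F0 := hr.Fs0 s hs
      have j1 : ∀ c ∈ ({a, b, d} : Finset V)ᶜ,
          muL x P k κd a b c t s * (R a b d t s * (if P c then Lt a b c d t s else 0))
          ≤ Mn0 x γ a b * Fs s
            * (R a b d t s * (if P c then Lt a b c d t s else 0)) := fun c hc => by
        rw [mem3] at hc
        refine mul_le_mul_of_nonneg_right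
          ((muL_leN hf hx hk hfc ht hr.γ0 hr.cκ0 hr.hκ hr.Fs0 hr.hF (Ne.symm hc.1) hs).trans
            (mul_le_mul_of_nonneg_right (Mn_le0 hx hr.γ0 c) F0))
          (mul_nonneg (hf.R0 a b d t s hs.1 hs.2 ht.2) (Lt0 c s hs))
      refine (Finset.sum_le_sum j1).trans ?_
      rw [← Finset.mul_sum, ← Finset.mul_sum]
      calc _ ≤ Mn0 x γ a b * Fs s * (x b d * rH d s) :=
            mul_le_mul_of_nonneg_left (hr.rT d hd hbd s hs) (mul_nonneg M0 F0)
        _ = _ := by ring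
    rw [intervalIntegral.integral_const_mul] at i2
    have i3 := i2.trans (mul_le_mul_of_nonneg_left (hr.rJ d hd) (mul_nonneg M0 v0))
    rw [e1]
    calc _ ≤ x b d * ((1 + γ * x a b) * RA d) + Mn0 x γ a b * x b d * RH d := add_le_add i1 i3
      _ = _ := by ring
  exact Finset.sum_le_sum key

/-! ### the amplified errors -/

/-- the bounds of the masses, weights at most `em` -/
structure T1v (k : Kf) (κd : ℝ → ℝ → ℝ → ℝ) (t em : ℝ) (Bm Bf ef : ℝ → ℝ → ℝ) : Prop where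
  bm : ∀ z w : ℝ, 0 ≤ z → 0 ≤ w → w ≤ 1 → z + w / 2 ≤ 1 → z ≤ em → w ≤ 2 * em →
    z * (k.Pe w t * k.fi z t) ≤ Bm z w
  bf : ∀ z w : ℝ, 0 ≤ z → 0 ≤ w → w ≤ 1 → z + w / 2 ≤ 1 → z ≤ em → w ≤ 2 * em →
    z * (k.Pe w t * k.fi z t + ∫ s in (0 : ℝ)..t, k.fh z s * (κd w t s - k.Pe w t)) ≤ Bf z w
  bmf : ∀ z w : ℝ, 0 ≤ z → 0 ≤ w → w ≤ 1 → z + w / 2 ≤ 1 → z ≤ em → w ≤ 2 * em →
    Bm z w ≤ Bf z w
  b1 : ∀ z w : ℝ, 0 ≤ z → 0 ≤ w → w ≤ 1 → z + w / 2 ≤ 1 → z ≤ em → w ≤ 2 * em → Bf z w < 1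
  ε : ∀ z w : ℝ, 0 ≤ z → 0 ≤ w → w ≤ 1 → z + w / 2 ≤ 1 → z ≤ em → w ≤ 2 * em →
    ∫ s in (0 : ℝ)..t, k.fh z s * (κd w t s - k.Pe w t) ≤ ef z w

/-- the constants of the concavity at a linear mass ratio -/
theorem CJr_lin {C0 C1 m0 m1 p0 n n1 : ℝ} (h0 : CJr C0 m0 p0)
    (h1 : CJr (C0 + C1 * n1) (m0 + m1 * n1) p0) (p2 : p0 ≤ 2) (C10 : 0 ≤ C1)
    (m10 : 0 ≤ m1) (n0 : 0 ≤ n) (hn : n ≤ n1) :
    CJr (C0 + C1 * n) (m0 + m1 * n) p0 := by
  intro p hp
  have a1 := h0 p hp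
  have a2 := h1 p hp
  have q : 0 ≤ 6 - 3 * p := by linarith [hp.2]
  rcases eq_or_lt_of_le n0 with h | h
  · rw [← h]
    simpa using a1
  have n1p : 0 < n1 := lt_of_lt_of_le h hn
  -- concavity in `n`
  have key : n1 * (6 - 6 * p + p ^ 2)
      ≤ n1 * ((C0 + C1 * n) * ((6 - 3 * p) * (1 - (m0 + m1 * n) * p))) := by
    have e : n1 * ((C0 + C1 * n) * ((6 - 3 * p) * (1 - (m0 + m1 * n) * p)))
        = (n1 - n) * (C0 * ((6 - 3 * p) * (1 - m0 * p)))
          + n * ((C0 + C1 * n1) * ((6 - 3 * p) * (1 - (m0 + m1 * n1) * p)))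
          + n * (n1 - n) * n1 * (C1 * m1 * p * (6 - 3 * p)) := by ring
    rw [e]
    have b1 := mul_le_mul_of_nonneg_left a1 (sub_nonneg.2 hn)
    have b2 := mul_le_mul_of_nonneg_left a2 n0
    have b3 : 0 ≤ n * (n1 - n) * n1 * (C1 * m1 * p * (6 - 3 * p)) :=
      mul_nonneg (mul_nonneg (mul_nonneg n0 (sub_nonneg.2 hn)) n1p.le)
        (mul_nonneg (mul_nonneg (mul_nonneg C10 m10) hp.1) q)
    nlinarith
  exact le_of_mul_le_mul_left key n1p

end Pool.Agent.RZ.RCN.K
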