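import Pool.Agent.RZ.RCO.PB
import Pool.Agent.RZ.RCO.PC
import Pool.Agent.RZ.RCO.T1O
import Pool.Agent.RZ.RCO.T1U
import Pool.Agent.RZ.RCO.T1V

/-! The linear errors with the exact mass of the fluxes without one vertex and hazards that depend
on the weight (MP_73ccd0_lc). -/

namespace Pool.Agent.RZ.RCN.K

open Set Finset MeasureTheory Pool.Agent.RZ.RCRSHalf Pool.Agent.RZ.RCG Pool.Agent.RZ.RCG.Ct
open Pool.Agent.RZ.RCN.Ker Pool.Agent.RZ.RCRS Pool.Agent.RZ.RCM.Jen

set_option linter.unusedSectionVars false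
set_option linter.unusedVariables false

variable {V : Type*} [Fintype V] [DecidableEq V]
variable {x : V → V → ℝ} {P : V → Prop} [DecidablePred P] {k : Kf} {N : ℕ}
variable {κd : ℝ → ℝ → ℝ → ℝ} {R : V → V → V → ℝ → ℝ → ℝ} {L Lt : V → V → V → V → ℝ → ℝ → ℝ}
variable {a b : V} {t γ : ℝ} {κ0 Fs ρ : ℝ → ℝ} {w : V → ℝ → ℝ} {l1 l2 h1 h2 : ℝ → ℝ → ℝ → ℝ}
variable {S St : ℝ → ℝ} {BA BB : ℝ} {c2 c4 : ℝ → ℝ → ℝ → ℝ} {IA IB : ℝ → ℝ → ℝ}

/-- the mass of the fluxes at `b` without `c`, common neighbours other than `c` -/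
noncomputable def My (x : V → V → ℝ) (γ : ℝ) (a b c : V) : ℝ :=
  (1 + γ * x a b) * (1 - x a b - x b c + γ * (Nn x a b - x b c * x a c))

theorem Nn_erase {c : V} (hc : c ∈ ({a, b} : Finset V)ᶜ) :
    ∑ d ∈ ({a, b, c} : Finset V)ᶜ, x b d * x a d = Nn x a b - x b c * x a c := by
  unfold Nn
  have e : ({a, b} : Finset V)ᶜ = insert c ({a, b, c} : Finset V)ᶜ := by
    ext d
    have hc' := mem2.1 hc
    simp only [Finset.mem_insert, mem2, mem3]
    constructor
    · rintro ⟨h1, h2⟩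
      by_cases h : d = c
      · exact Or.inl h
      · exact Or.inr ⟨h1, h2, h⟩
    · rintro (h | h)
      · rw [h]; exact hc'
      · exact ⟨h.1, h.2.1⟩
  have hn : c ∉ ({a, b, c} : Finset V)ᶜ := by
    rw [mem3]
    exact fun h => h.2.2 rfl
  rw [e, Finset.sum_insert hn]
  ring

theorem My_nonneg (hx : Wt x P 1) (γ0 : 0 ≤ γ) {c : V} (hc : c ∈ ({a, b} : Finset V)ᶜ) :
    0 ≤ My x γ a b c := by
  have hc' := mem2.1 hc
  have u0 := mul_nonneg γ0 (hx.nonneg a b)
  have n1 : 0 ≤ Nn x a b - x b c * x a c := by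
    rw [← Nn_erase hc]
    exact Finset.sum_nonneg fun d _ => mul_nonneg (hx.nonneg b d) (hx.nonneg a d)
  have n0 := mul_nonneg γ0 n1
  have := (two_mem hx b (Ne.symm hc'.1)).2
  rw [hx.symm b a] at this
  unfold My
  exact mul_nonneg (by linarith) (by linarith)

theorem My_le0 (hx : Wt x P 1) (γ0 : 0 ≤ γ) (c : V) : My x γ a b c ≤ Mn0 x γ a b := by
  have u0 := mul_nonneg γ0 (hx.nonneg a b)
  have y0 := mul_nonneg γ0 (mul_nonneg (hx.nonneg b c) (hx.nonneg a c))
  unfold My Mn0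
  exact mul_le_mul_of_nonneg_left (by linarith [hx.nonneg b c]) (by linarith)

/-- the sum of the masses -/
theorem mass_sumY (hx : Wt x P 1) (γ0 : 0 ≤ γ) {c : V} (hc : c ∈ ({a, b} : Finset V)ᶜ) :
    ∑ d ∈ ({a, b, c} : Finset V)ᶜ, x b d * (1 + γ * (x a b + x a d)) ≤ My x γ a b c := by
  have hac := Ne.symm (mem2.1 hc).1
  have u0 := mul_nonneg γ0 (hx.nonneg a b)
  have h1 : ∀ d ∈ ({a, b, c} : Finset V)ᶜ, x b d * (1 + γ * (x a b + x a d))
      ≤ (1 + γ * x a b) * (x b d + γ * (x b d * x a d)) := by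
    intro d _
    have := mul_nonneg u0 (mul_nonneg γ0 (mul_nonneg (hx.nonneg b d) (hx.nonneg a d)))
    nlinarith
  refine (Finset.sum_le_sum h1).trans ?_
  rw [← Finset.mul_sum, Finset.sum_add_distrib, ← Finset.mul_sum, Nn_erase hc]
  unfold My
  refine mul_le_mul_of_nonneg_left ?_ (by linarith)
  have r1 := row_two hx b (a := a) (c := c) hac (({a, b, c} : Finset V)ᶜ) fun d hd => by
    rw [mem3] at hd; exact ⟨hd.1, hd.2.2⟩
  rw [hx.symm b a] at r1
  linarith

/-- the mass of the fluxes up to `s` -/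
theorem muL_leY (hf : Lf N k κd R L Lt) (hx : Wt x P 1) (hk : k.Ok)
    (hfc : ∀ y ∈ Icc (0 : ℝ) 1, ContinuousOn (k.fh y) (Icc 0 1)) (ht : t ∈ Icc (0 : ℝ) 1)
    (γ0 : 0 ≤ γ) (cκ0 : ContinuousOn κ0 (Icc 0 t))
    (hκ : ∀ w ∈ Icc (0 : ℝ) 1, ∀ s ∈ Icc 0 t, κd w t s ≤ κ0 s * (1 + γ * w))
    (Fs0 : ∀ s ∈ Icc 0 t, 0 ≤ Fs s)
    (hF : ∀ d ∈ ({a, b} : Finset V)ᶜ, ∀ s ∈ Icc 0 t,
      ∫ r in (0 : ℝ)..s, fq x P k.fh b d r * κ0 r ≤ Fs s) {c : V} (hc : c ∈ ({a, b} : Finset V)ᶜ) {s : ℝ}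
    (hs : s ∈ Icc 0 t) :
    muL x P k κd a b c t s ≤ My x γ a b c * Fs s := by
  have cfq : ∀ d, ContinuousOn (fq x P k.fh b d) (Icc 0 t) := fun d =>
    (fq_cont' hfc hx b d).mono (Icc_subset_Icc_right ht.2)
  have m0 : (0 : ℝ) ∈ Icc 0 t := ⟨le_rfl, ht.1⟩
  have u0 := hx.nonneg a b
  have hq : ∀ d, ∀ r ∈ Icc 0 t, 0 ≤ fq x P k.fh b d r := fun d r hr =>
    fq_nonneg' hk hx b d ⟨hr.1, hr.2.trans ht.2⟩
  have h2 : ∀ d ∈ ({a, b, c} : Finset V)ᶜ, ∫ r in (0 : ℝ)..s, flx x P k κd a b d t r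
      ≤ x b d * (1 + γ * (x a b + x a d)) * Fs s := by
    intro d hd
    have hd' := hd
    rw [mem3] at hd'
    have hw := two_mem hx a (Ne.symm hd'.2.1)
    have v0 := hx.nonneg b d
    have w0 := hx.nonneg a d
    have i0 : ∫ r in (0 : ℝ)..s, flx x P k κd a b d t r
        ≤ ∫ r in (0 : ℝ)..s, (x b d * (1 + γ * (x a b + x a d)))
          * (fq x P k.fh b d r * κ0 r) := by
      refine intervalIntegral.integral_mono_on hs.1
        (ii_of ht.1 (flx_slice hf hx hfc a b d ht) m0 hs)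
        (ii_of ht.1 (continuousOn_const.mul ((cfq d).mul cκ0)) m0 hs) fun r hr => ?_
      have hr' : r ∈ Icc 0 t := ⟨hr.1, hr.2.trans hs.2⟩
      unfold flx
      have := mul_le_mul_of_nonneg_left (hκ _ hw r hr') (mul_nonneg v0 (hq d r hr'))
      calc _ ≤ x b d * fq x P k.fh b d r * (κ0 r * (1 + γ * (x a b + x a d))) := this
        _ = _ := by ring
    rw [intervalIntegral.integral_const_mul] at i0
    have g0 : 0 ≤ x b d * (1 + γ * (x a b + x a d)) :=
      mul_nonneg v0 (by nlinarith)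
    exact i0.trans (mul_le_mul_of_nonneg_left (hF d (mem2.2 ⟨hd'.1, hd'.2.1⟩) s hs) g0)
  unfold muL
  rw [intervalIntegral.integral_finsetSum fun d _ =>
    ii_of ht.1 (flx_slice hf hx hfc a b d ht) m0 hs]
  refine (Finset.sum_le_sum h2).trans ?_
  rw [← Finset.sum_mul]
  exact mul_le_mul_of_nonneg_right (mass_sumY hx γ0 hc) (Fs0 s hs)

/-- the bound of the integrated fluxes at the time `t` -/
structure Al (k : Kf) (κd : ℝ → ℝ → ℝ → ℝ) (t α γ : ℝ) : Prop where
  fh : ∀ w ∈ Icc (0 : ℝ) 1, ∀ y ∈ Icc (0 : ℝ) 1,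
    ∫ s in (0 : ℝ)..t, k.fh y s * κd w t s ≤ α * (1 + γ * w)
  qq : ∀ w ∈ Icc (0 : ℝ) 1, ∫ s in (0 : ℝ)..t, qq s * κd w t s ≤ α * (1 + γ * w)

/-- the mass of the fluxes up to the end -/
theorem muL_leY' (hf : Lf N k κd R L Lt) (hx : Wt x P 1)
    (hfc : ∀ y ∈ Icc (0 : ℝ) 1, ContinuousOn (k.fh y) (Icc 0 1)) (ht : t ∈ Icc (0 : ℝ) 1) {α : ℝ} (hA : Al k κd t α γ) (α0 : 0 ≤ α) (γ0 : 0 ≤ γ)
    {c : V} (hc : c ∈ ({a, b} : Finset V)ᶜ) :
    muL x P k κd a b c t t ≤ α * My x γ a b c := by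
  have m0 : (0 : ℝ) ∈ Icc 0 t := ⟨le_rfl, ht.1⟩
  have mt : t ∈ Icc 0 t := ⟨ht.1, le_rfl⟩
  have h1 : muL x P k κd a b c t t = ∑ d ∈ ({a, b, c} : Finset V)ᶜ, x b d
      * ∫ s in (0 : ℝ)..t, fq x P k.fh b d s * κd (x a b + x a d) t s := by
    unfold muL
    rw [intervalIntegral.integral_finsetSum]
    · refine Finset.sum_congr rfl fun d _ => ?_
      rw [← intervalIntegral.integral_const_mul]
      refine intervalIntegral.integral_congr fun s _ => ?_
      unfold flx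
      ring
    · intro d _
      exact ii_of ht.1 (flx_slice hf hx hfc a b d ht) m0 mt
  have h2 : ∀ d ∈ ({a, b, c} : Finset V)ᶜ, x b d
      * (∫ s in (0 : ℝ)..t, fq x P k.fh b d s * κd (x a b + x a d) t s)
      ≤ α * (x b d * (1 + γ * (x a b + x a d))) := by
    intro d hd
    rw [mem3] at hd
    have hw := two_mem hx a (Ne.symm hd.2.1)
    have i1 : (∫ s in (0 : ℝ)..t, fq x P k.fh b d s * κd (x a b + x a d) t s)
        ≤ α * (1 + γ * (x a b + x a d)) := by
      by_cases hP : P d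
      · have e : ∀ s, fq x P k.fh b d s = k.fh (x b d) s := fun s => by
          unfold fq; rw [if_pos hP]
        simp only [e]
        exact hA.fh _ hw _ (x_mem hx b d)
      · have e : ∀ s, fq x P k.fh b d s = qq s := fun s => by
          unfold fq; rw [if_neg hP]
        simp only [e]
        exact hA.qq _ hw
    have i2 := mul_le_mul_of_nonneg_left i1 (hx.nonneg b d)
    linarith
  rw [h1]
  refine (Finset.sum_le_sum h2).trans ?_
  rw [← Finset.mul_sum]
  exact mul_le_mul_of_nonneg_left (mass_sumY hx γ0 hc) α0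

/-- **one amplified error** -/
theorem em_entryY {mt p0 x0 C em : ℝ} {Bm Bf ef : ℝ → ℝ → ℝ}
    (hs : T1v k κd t em Bm Bf ef) (hem : ∀ a b, P a → P b → x a b ≤ em)
    (hf : Lf N k κd R L Lt) (hx : Wt x P 1) (hk : k.Ok)
    (hfc : ∀ y ∈ Icc (0 : ℝ) 1, ContinuousOn (k.fh y) (Icc 0 1))
    (cPe : ∀ w, ContinuousOn (k.Pe w) (Icc 0 1)) (ht : t ∈ Icc (0 : ℝ) 1)
    {c : V} (ha : P a) (hb : P b) (hc : P c) (hab : a ≠ b) (hac : a ≠ c) (hbc : b ≠ c)
    (cj : CJr C mt p0) (C0 : 0 ≤ C) (mt0 : 0 ≤ mt) (mt1 : mt * p0 < 1) (x00 : 0 ≤ x0)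
    (hp0 : 1 - Real.exp (-x0) ≤ p0)
    (hmu : muL x P k κd a b c t t ≤ mt * (1 - Bf (x b c) (x a b + x a c)))
    (hcap : LamL x P k κd R L Lt a b c t
      ≤ x0 * (mt * (1 - Bf (x b c) (x a b + x a c)))) :
    emin ((xdOf x κd R L Lt).E x P k) P a b c t
        * amp k.mb ((xdOf x κd R L Lt).E x P k) x P a b c t
      ≤ x b c * (ef (x b c) (x a b + x a c)
          / ((1 - Bm (x b c) (x a b + x a c)) * (1 - Bf (x b c) (x a b + x a c))))
        + C * LamL x P k κd R L Lt a b c t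
        + C * (psB Bf (x b c) (x a b + x a c) * LamL x P k κd R L Lt a b c t) := by
  have hΛ := LamL_nonneg (R := R) (L := L) (Lt := Lt) hf hx hk a b c ht
  have z0 := hx.nonneg b c
  have q1 : ∀ {u v : V}, P u → P v → xr x P u v = x u v := fun hu hv => by
    unfold xr; rw [if_pos ⟨hu, hv⟩]
  have hw := two_mem hx a hbc
  have hz := x_mem hx b c
  have e0 := e0L_nonneg hf hx hk a hbc ht
  have u0 := hx.nonneg a b
  have y0 := hx.nonneg a c
  have huz : x a b + x b c ≤ 1 := by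
    have := row_one hx b a {c} (by simpa using hac.symm)
    rw [Finset.sum_singleton, hx.symm b a] at this
    linarith
  have hyz : x a c + x b c ≤ 1 := by
    have := row_one hx c a {b} (by simpa using hab.symm)
    rw [Finset.sum_singleton, hx.symm c a, hx.symm c b] at this
    linarith
  have hzw : x b c + (x a b + x a c) / 2 ≤ 1 := by linarith
  have hw2 : x a b + x a c ≤ 2 * em := by
    linarith [hem _ _ ha hb, hem _ _ ha hc]
  have i1 : xr x P a b + xr x P a c ≤ 1 := xr_add_le hx hbc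
  have m0 : 0 ≤ k.mb (xr x P a b) (xr x P a c) (xr x P b c) t :=
    hk.mb_nonneg (xmem1 hx a b) (xmem1 hx a c) (xmem1 hx b c) i1 ht
  set Bm0 := Bm (x b c) (x a b + x a c) with hBm
  set Bf0 := Bf (x b c) (x a b + x a c) with hBf
  have hmm : k.mb (xr x P a b) (xr x P a c) (xr x P b c) t ≤ Bm0 := by
    have j1 := hs.bm _ _ z0 hw.1 hw.2 hzw (hem _ _ hb hc) hw2
    rw [q1 ha hb, q1 ha hc, q1 hb hc]
    refine le_trans (le_of_eq ?_) j1
    unfold Kf.mb
    ring
  have hm' : k.mb (xr x P a b) (xr x P a c) (xr x P b c) t + e0L x P k κd a b c t ≤ Bf0 := by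
    have e : ∀ s, fq x P k.fh b c s = k.fh (x b c) s := fun s => by
      unfold fq; rw [if_pos hc]
    have j1 := hs.bf _ _ z0 hw.1 hw.2 hzw (hem _ _ hb hc) hw2
    rw [q1 ha hb, q1 ha hc, q1 hb hc]
    unfold e0L Kf.mb
    simp only [e]
    calc _ = x b c * (k.Pe (x a b + x a c) t * k.fi (x b c) t
          + ∫ s in (0 : ℝ)..t, k.fh (x b c) s
            * (κd (x a b + x a c) t s - k.Pe (x a b + x a c) t)) := by ring
      _ ≤ _ := j1
  set m := k.mb (xr x P a b) (xr x P a c) (xr x P b c) t with hmdef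
  set e := e0L x P k κd a b c t with hedef
  have g5 : Bf0 < 1 := hs.b1 _ _ z0 hw.1 hw.2 hzw (hem _ _ hb hc) hw2
  have g5' : Bm0 ≤ Bf0 := hs.bmf _ _ z0 hw.1 hw.2 hzw (hem _ _ hb hc) hw2
  have hM : m + e < 1 := lt_of_le_of_lt hm' g5
  have hMM : 1 - Bf0 ≤ 1 - m - e := by linarith
  have hmu' : muL x P k κd a b c t t ≤ mt * (1 - m - e) :=
    hmu.trans (mul_le_mul_of_nonneg_left hMM mt0)
  have hcap' : LamL x P k κd R L Lt a b c t ≤ x0 * (mt * (1 - m - e)) :=
    hcap.trans (mul_le_mul_of_nonneg_left (mul_le_mul_of_nonneg_left hMM mt0) x00)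
  have hE0 : 0 ≤ (xdOf x κd R L Lt).E x P k a b c t := E_nonneg' hf hx hk a hbc ht
  have hE0' : 0 ≤ (xdOf x κd R L Lt).E x P k a c b t := E_nonneg' hf hx hk a hbc.symm ht
  have he0 : 0 ≤ emin ((xdOf x κd R L Lt).E x P k) P a b c t := by
    unfold emin
    rw [if_pos hc]
    exact le_min hE0 hE0'
  have he1 : emin ((xdOf x κd R L Lt).E x P k) P a b c t
      ≤ (xdOf x κd R L Lt).E x P k a b c t := by
    unfold emin
    rw [if_pos hc]
    exact min_le_left _ _
  have key := amp_boundX (E' := (xdOf x κd R L Lt).E x P k a b c t - e) cj C0 hp0 mt0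
    mt1 m0 e0 hM hmu' hΛ hcap' (fun l hl => by
      have := E_le_tan hf hx hk hfc cPe a b c ht hl
      linarith) he0 (by linarith)
  have p1 : 0 < 1 - m - e := by linarith
  have p3 : 0 < 1 - Bf0 := by linarith
  unfold amp
  rw [add_assoc]
  refine key.trans (add_le_add ?_ ?_)
  · -- the direct part
    have d2 : e ≤ x b c * ef (x b c) (x a b + x a c) := by
      have ee : ∀ s, fq x P k.fh b c s = k.fh (x b c) s := fun s => by
        unfold fq; rw [if_pos hc]
      rw [hedef]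
      unfold e0L
      simp only [ee]
      exact mul_le_mul_of_nonneg_left (hs.ε _ _ z0 hw.1 hw.2 hzw (hem _ _ hb hc) hw2) z0
    rw [← mul_div_assoc]
    refine div_le_div₀ (e0.trans d2) d2 (mul_pos (by linarith) p3) ?_
    exact mul_le_mul (by linarith) hMM p3.le (by linarith)
  · have d3 : (1 - Bf0) ^ 2 ≤ (1 - m - e) ^ 2 := pow_le_pow_left₀ p3.le hMM 2
    have d4 : ((1 - m - e) ^ 2)⁻¹ ≤ ((1 - Bf0) ^ 2)⁻¹ := inv_anti₀ (by positivity) d3
    have c0 : 0 ≤ C * LamL x P k κd R L Lt a b c t := mul_nonneg C0 hΛ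
    have h1 := mul_le_mul_of_nonneg_left d4 c0
    rw [div_eq_mul_inv]
    refine h1.trans (le_of_eq ?_)
    unfold psB
    ring

/-- **the linear errors of one side** -/
theorem lam_sideY (hf : Lf N k κd R L Lt) (hx : Wt x P 1) (hk : k.Ok)
    (hfc : ∀ y ∈ Icc (0 : ℝ) 1, ContinuousOn (k.fh y) (Icc 0 1)) (ht : t ∈ Icc (0 : ℝ) 1)
    (hw : Pw2 x P k κd R L Lt a b t γ κ0 Fs ρ w l1 l2 h1 h2 S St BA BB)
    (ha : P a) (hb : P b) (hab : a ≠ b)
    {ρ2 : ℝ → ℝ → ℝ} (cρ2 : ∀ z ∈ Icc (0 : ℝ) 1, ContinuousOn (ρ2 z) (Icc 0 t))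
    (ρ20 : ∀ z ∈ Icc (0 : ℝ) 1, ∀ s ∈ Icc 0 t, 0 ≤ ρ2 z s)
    (hR2 : ∀ d, P d → ∀ s ∈ Icc 0 t, R a b d t s ≤ x b d * ρ2 (x b d) s)
    {θ θh : ℝ → ℝ} (cθ : ContinuousOn θ (Icc 0 t)) (cθh : ContinuousOn θh (Icc 0 t))
    (θ0 : ∀ s ∈ Icc 0 t, 0 < θ s) (θh0 : ∀ s ∈ Icc 0 t, 0 < θh s) (v : V → ℝ)
    (v0 : ∀ c, 0 ≤ v c) (vz : ∀ c, ¬P c → v c = 0) :
    ∑ c ∈ ({a, b} : Finset V)ᶜ, v c * LamL x P k κd R L Lt a b c t
      ≤ ∑ c ∈ ({a, b} : Finset V)ᶜ, (∫ s in (0 : ℝ)..t,
          Bd3 k γ κ0 Fs (ρ2 (xr x P b c)) l1 l2 h1 h2 (θ s) (θh s) (x a b) (My x γ a b c) (Mn0 x γ a b)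
            (xr x P a c) (xr x P b c) (x a c) (x b c) (v c) (xr x P b c) s) := by
  have m0 : (0 : ℝ) ∈ Icc 0 t := ⟨le_rfl, ht.1⟩
  have mt : t ∈ Icc 0 t := ⟨ht.1, le_rfl⟩
  have hsub : Icc (0 : ℝ) t ⊆ Icc 0 1 := Icc_subset_Icc_right ht.2
  have u0 := hx.nonneg a b
  have u1 := (x_mem hx a b).2
  have γ0 := hw.γ0
  have γu : 0 ≤ γ * x a b := mul_nonneg γ0 u0
  have cL : ∀ c d, ContinuousOn (L a b c d t) (Icc 0 t) := fun c d =>
    (hf.cL a b c d).slice hf.N0 ht
  have cLt : ∀ c d, ContinuousOn (Lt a b c d t) (Icc 0 t) := fun c d =>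
    (hf.cLt a b c d).slice hf.N0 ht
  have cR : ∀ d, ContinuousOn (R a b d t) (Icc 0 t) := fun d => (hf.cR a b d).slice hf.N0 ht
  have cF := fun d => flx_slice hf hx hfc a b d ht
  have cm := fun c => mu_cont hf hx hfc ht a b c
  have cfh : ∀ z ∈ Icc (0 : ℝ) 1, ContinuousOn (k.fh z) (Icc 0 t) := fun z hz =>
    (hfc z hz).mono hsub
  have xb1 := xmem1 (P := P) hx b
  have xa1 := xmem1 (P := P) hx a
  have iθ : ∀ s ∈ Icc 0 t, 0 < (θ s)⁻¹ := fun s hs => inv_pos.2 (θ0 s hs)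
  have iθh : ∀ s ∈ Icc 0 t, 0 < (θh s)⁻¹ := fun s hs => inv_pos.2 (θh0 s hs)
  have ci : ContinuousOn (fun s => (θ s)⁻¹) (Icc 0 t) := cθ.inv₀ fun s hs => (θ0 s hs).ne'
  have cih : ContinuousOn (fun s => (θh s)⁻¹) (Icc 0 t) := cθh.inv₀ fun s hs => (θh0 s hs).ne'
  have ciw : ∀ d, ContinuousOn (fun s => (w d s)⁻¹) (Icc 0 t) := fun d =>
    (hw.cw d).inv₀ fun s hs => (hw.w0 d s hs).ne'
  have Mb0 : 0 ≤ Mn0 x γ a b := by
    have n0 := mul_nonneg γ0 (Nn_nonneg hx a b)
    unfold Mn0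
    exact mul_nonneg (by linarith) (by linarith)
  have hq : ∀ c ∈ ({a, b} : Finset V)ᶜ, 0 ≤ x a c ∧ 0 ≤ x b c ∧ x a c + x b c ≤ 1 :=
    fun c hc => by
      have := two_mem hx c hab
      rw [hx.symm c a, hx.symm c b] at this
      exact ⟨hx.nonneg a c, hx.nonneg b c, this.2⟩
  have xre : ∀ {u w : V}, P u → P w → xr x P u w = x u w := fun hu hw => by
    unfold xr; rw [if_pos ⟨hu, hw⟩]
  have rz : ∀ (L : V → V → V → V → ℝ → ℝ → ℝ) (c d : V), ¬(P c ∧ P d) → ∀ s,
      rP P L a b c d t s = 0 := fun L c d h s => by unfold rP; rw [if_neg h]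
  have rp : ∀ (L : V → V → V → V → ℝ → ℝ → ℝ) (c d : V), P c → P d → ∀ s,
      rP P L a b c d t s = L a b c d t s := fun L c d h1 h2 s => by
    unfold rP; rw [if_pos ⟨h1, h2⟩]
  have cr : ∀ (L : V → V → V → V → ℝ → ℝ → ℝ) (c d : V),
      ContinuousOn (L a b c d t) (Icc 0 t) → ContinuousOn (rP P L a b c d t) (Icc 0 t) := by
    intro L c d h
    by_cases h1 : P c ∧ P d
    · have : rP P L a b c d t = L a b c d t := by
        funext s; exact rp L c d h1.1 h1.2 s
      rw [this]; exact h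
    · have : rP P L a b c d t = fun _ => 0 := by
        funext s; exact rz L c d h1 s
      rw [this]; exact continuousOn_const
  have rn : ∀ (c d : V), ∀ s ∈ Icc 0 t, 0 ≤ rP P L a b c d t s ∧ 0 ≤ rP P Lt a b c d t s := by
    intro c d s hs
    by_cases h1 : P c ∧ P d
    · rw [rp L c d h1.1 h1.2, rp Lt c d h1.1 h1.2]
      exact ⟨hf.L0 a b c d t s hs.1 hs.2 ht.2, hf.Lt0 a b c d t s hs.1 hs.2 ht.2⟩
    · rw [rz L c d h1, rz Lt c d h1]
      exact ⟨le_rfl, le_rfl⟩
  have Mcn : ∀ c, c ∈ ({a, b} : Finset V)ᶜ → 0 ≤ My x γ a b c := by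
    intro c hc
    exact My_nonneg hx γ0 hc
  -- the terms
  set T : V → V → ℝ → ℝ := fun c d s => Td3 k γ κ0 Fs (ρ2 (xr x P b d)) (θ s) (θh s) (x a b)
    (My x γ a b c) (Mn0 x γ a b) (v c) (xr x P a d) (xr x P b d) (xr x P b d) (w d s)
    (rP P L a b c d t s) (rP P Lt a b c d t s) s with hT
  have cT : ∀ c d, ContinuousOn (T c d) (Icc 0 t) := by
    intro c d
    have c1 := cfh _ (xb1 d)
    have c2 := cr L c d (cL c d)
    have c3 := cr Lt c d (cLt c d)
    have c4 := hw.cκ0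
    have c5 := hw.cFs
    have c6 := cρ2 _ (xb1 d)
    have c7 := hw.cw d
    have c8 := ciw d
    exact ((((((c4.mul continuousOn_const).mul (cθ.mul continuousOn_const)).div_const 2).mul
      (c2.mul c8)).add ((((c4.mul continuousOn_const).mul (ci.mul ((continuousOn_const.mul
        c1).pow 2))).div_const 2).mul (c2.mul c7))).add
      (((c5.mul ((cθh.mul continuousOn_const).mul continuousOn_const)).div_const 2).mul
        (c3.mul c8))).add
      (((c5.mul ((cih.mul ((continuousOn_const.mul c6).pow 2)).mul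
        continuousOn_const)).div_const 2).mul (c3.mul c7))
  have T0 : ∀ c ∈ ({a, b} : Finset V)ᶜ, ∀ d, ∀ s ∈ Icc 0 t, 0 ≤ T c d s := by
    intro c hc d s hs
    have k0 := hw.k0 s hs
    have F0 := hw.Fs0 s hs
    have iθs := iθ s hs
    have iθhs := iθh s hs
    have θs := θ0 s hs
    have θhs := θh0 s hs
    have w0 := hw.w0 d s hs
    have iw0 := inv_pos.2 w0
    have e1 : 0 ≤ 1 + γ * x a b := by linarith
    obtain ⟨l0, lt0⟩ := rn c d s hs
    have n1 : 0 ≤ κ0 s * (1 + γ * x a b) * (θ s * v c ^ 2) / 2 := by positivity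
    have n2 : 0 ≤ κ0 s * (1 + γ * x a b) * ((θ s)⁻¹ * (xr x P b d * (1 + γ * xr x P a d)
            * k.fh (xr x P b d) s) ^ 2) / 2 := by positivity
    have n4 : 0 ≤ Fs s * ((θh s)⁻¹ * (xr x P b d * ρ2 (xr x P b d) s) ^ 2 * Mn0 x γ a b) / 2 := by positivity
    have n3 : 0 ≤ Fs s * (θh s * v c ^ 2 * My x γ a b c) / 2
        * (rP P Lt a b c d t s * (w d s)⁻¹) := by
      have M0 := Mcn c hc
      positivity
    show 0 ≤ Td3 k γ κ0 Fs (ρ2 (xr x P b d)) (θ s) (θh s) (x a b)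
      (My x γ a b c) (Mn0 x γ a b) (v c) (xr x P a d) (xr x P b d) (xr x P b d) (w d s)
      (rP P L a b c d t s) (rP P Lt a b c d t s) s
    unfold Td3
    have p1 := mul_nonneg n1 (mul_nonneg l0 iw0.le)
    have p2 := mul_nonneg n2 (mul_nonneg l0 w0.le)
    have p4 := mul_nonneg n4 (mul_nonneg lt0 w0.le)
    linarith
  -- one vertex
  have step1 : ∀ c ∈ ({a, b} : Finset V)ᶜ, v c * LamL x P k κd R L Lt a b c t
      ≤ (∫ s in (0 : ℝ)..t, ∑ d ∈ ({a, b, c} : Finset V)ᶜ, T c d s) := by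
    intro c hc
    have hc' := mem2.1 hc
    have hI0 : 0 ≤ ∫ s in (0 : ℝ)..t, ∑ d ∈ ({a, b, c} : Finset V)ᶜ, T c d s :=
      intervalIntegral.integral_nonneg ht.1 fun s hs => Finset.sum_nonneg fun d _ =>
        T0 c hc d s hs
    by_cases hcP : P c
    swap
    · rw [vz c hcP, zero_mul]
      exact hI0
    · unfold LamL
      rw [Finset.mul_sum, intervalIntegral.integral_finsetSum fun d _ =>
        ii_of ht.1 (cT c d) m0 mt]
      refine Finset.sum_le_sum fun d hd => ?_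
      have hd' := mem3.1 hd
      · skip
        rw [← intervalIntegral.integral_const_mul]
        refine intervalIntegral.integral_mono_on ht.1 (ii_of ht.1 (continuousOn_const.mul
          (((cF d).mul (cL c d)).add ((cm c).mul ((cR d).mul (cLt c d))))) m0 mt)
          (ii_of ht.1 (cT c d) m0 mt) fun s hs => ?_
        have k0 := hw.k0 s hs
        have F0 := hw.Fs0 s hs
        have ρ0 := ρ20 _ (xb1 d) s hs
        have iθs := iθ s hs
        have iθhs := iθh s hs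
        have w0 := hw.w0 d s hs
        have L0 : 0 ≤ L a b c d t s := hf.L0 a b c d t s hs.1 hs.2 ht.2
        have Lt0 : 0 ≤ Lt a b c d t s := hf.Lt0 a b c d t s hs.1 hs.2 ht.2
        have yz0 := (xa1 d).1
        have zz0 := (xb1 d).1
        have fh0 : 0 ≤ k.fh (xr x P b d) s := hk.fh_nonneg (xb1 d) (hsub hs)
        have hwd := two_mem hx a (Ne.symm hd'.2.1)
        -- the flux
        have f1 : flx x P k κd a b d t s * L a b c d t s
            ≤ κ0 s * (1 + γ * x a b) * (xr x P b d * (1 + γ * xr x P a d)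
              * k.fh (xr x P b d) s) * L a b c d t s := by
          by_cases hd1 : P d
          · refine mul_le_mul_of_nonneg_right ?_ L0
            unfold flx fq
            rw [if_pos hd1, xre hb hd1, xre ha hd1]
            rw [xre hb hd1] at fh0
            have w0 := hx.nonneg a d
            have i1 : κd (x a b + x a d) t s
                ≤ κ0 s * ((1 + γ * x a b) * (1 + γ * x a d)) := by
              refine (hw.hκ _ hwd s hs).trans (mul_le_mul_of_nonneg_left ?_ k0)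
              have := mul_nonneg γu (mul_nonneg γ0 w0)
              nlinarith
            have i2 := mul_le_mul_of_nonneg_left i1 (mul_nonneg (hx.nonneg b d) fh0)
            linarith
          · have r0 : 0 ≤ κ0 s * (1 + γ * x a b) * (xr x P b d * (1 + γ * xr x P a d)
                * k.fh (xr x P b d) s) * L a b c d t s :=
              mul_nonneg (mul_nonneg (mul_nonneg k0 (by linarith)) (mul_nonneg (mul_nonneg zz0
                (by have := mul_nonneg γ0 yz0; linarith)) fh0)) L0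
            by_cases hbd : x b d = 0
            · unfold flx
              rw [hbd, zero_mul, zero_mul, zero_mul]
              exact r0
            · rw [(hw.pd c d hd1 hbd s hs).1, mul_zero, mul_zero]
        have f2 : R a b d t s * Lt a b c d t s ≤ xr x P b d * ρ2 (xr x P b d) s * Lt a b c d t s := by
          by_cases hd1 : P d
          · rw [xre hb hd1]
            exact mul_le_mul_of_nonneg_right (hR2 d hd1 s hs) Lt0
          · by_cases hbd : x b d = 0
            · have h3 := hw.hR d s hs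
              rw [hbd, zero_mul] at h3
              have h4 := hf.R0 a b d t s hs.1 hs.2 ht.2
              have h5 : R a b d t s = 0 := le_antisymm h3 h4
              rw [h5, zero_mul]
              exact mul_nonneg (mul_nonneg zz0 ρ0) Lt0
            · rw [(hw.pd c d hd1 hbd s hs).2, mul_zero, mul_zero]
        have f3 := muL_leY hf hx hk hfc ht γ0 hw.cκ0 hw.hκ hw.Fs0 hw.hF hc hs
        have f4 : 0 ≤ R a b d t s * Lt a b c d t s :=
          mul_nonneg (hf.R0 a b d t s hs.1 hs.2 ht.2) Lt0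
        show v c * (flx x P k κd a b d t s * L a b c d t s
          + muL x P k κd a b c t s * (R a b d t s * Lt a b c d t s)) ≤
          Td3 k γ κ0 Fs (ρ2 (xr x P b d)) (θ s) (θh s) (x a b) (My x γ a b c) (Mn0 x γ a b) (v c)
            (xr x P a d) (xr x P b d) (xr x P b d) (w d s) (rP P L a b c d t s)
            (rP P Lt a b c d t s) s
        have M0 : 0 ≤ My x γ a b c := Mcn c hc
        have M1 : My x γ a b c ≤ Mn0 x γ a b := My_le0 hx γ0 c
        set Mc := My x γ a b c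
        set Mb := Mn0 x γ a b
        set β := xr x P b d * (1 + γ * xr x P a d) * k.fh (xr x P b d) s
        set ζ := xr x P b d * ρ2 (xr x P b d) s
        have ζ0 : 0 ≤ ζ := mul_nonneg zz0 ρ0
        have g1 : muL x P k κd a b c t s * (R a b d t s * Lt a b c d t s)
            ≤ Mc * Fs s * (ζ * Lt a b c d t s) :=
          mul_le_mul f3 f2 f4 (mul_nonneg M0 F0)
        have g2 := mul_le_mul_of_nonneg_left (add_le_add f1 g1) (v0 c)
        refine g2.trans ?_
        by_cases hd1 : P d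
        swap
        · have z : xr x P b d = 0 := by unfold xr; rw [if_neg fun h => hd1 h.2]
          have eβ : β = 0 := by
            show xr x P b d * (1 + γ * xr x P a d) * k.fh (xr x P b d) s = 0
            rw [z, zero_mul, zero_mul]
          have eζ : ζ = 0 := by
            show xr x P b d * ρ2 (xr x P b d) s = 0
            rw [z, zero_mul]
          rw [rz L c d (fun h => hd1 h.2), rz Lt c d (fun h => hd1 h.2), eβ, eζ]
          unfold Td3
          simp
        rw [rp L c d hcP hd1, rp Lt c d hcP hd1]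
        have a1 := mul_le_mul_of_nonneg_left (amgm_w (a := v c) (b := β) (θ0 s hs) w0)
          (mul_nonneg (mul_nonneg k0 (show 0 ≤ 1 + γ * x a b by linarith)) L0)
        have a2 := mul_le_mul_of_nonneg_left (amgm_w (a := v c) (b := ζ) (θh0 s hs) w0)
          (mul_nonneg (mul_nonneg M0 F0) Lt0)
        have a3 : Mc * (Fs s * ((θh s)⁻¹ * ζ ^ 2) / 2 * (Lt a b c d t s * w d s))
            ≤ Mb * (Fs s * ((θh s)⁻¹ * ζ ^ 2) / 2 * (Lt a b c d t s * w d s)) := by
          refine mul_le_mul_of_nonneg_right M1 ?_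
          positivity
        show _ ≤ Td3 k γ κ0 Fs (ρ2 (xr x P b d)) (θ s) (θh s) (x a b) Mc Mb (v c) (xr x P a d) (xr x P b d)
          (xr x P b d) (w d s) (L a b c d t s) (Lt a b c d t s) s
        unfold Td3
        calc _ = κ0 s * (1 + γ * x a b) * L a b c d t s * (v c * β)
              + Mc * Fs s * Lt a b c d t s * (v c * ζ) := by ring
          _ ≤ κ0 s * (1 + γ * x a b) * L a b c d t s
                * ((θ s * v c ^ 2 * (w d s)⁻¹ + (θ s)⁻¹ * β ^ 2 * w d s) / 2)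
              + Mc * Fs s * Lt a b c d t s
                * ((θh s * v c ^ 2 * (w d s)⁻¹ + (θh s)⁻¹ * ζ ^ 2 * w d s) / 2) :=
            add_le_add a1 a2
          _ = κ0 s * (1 + γ * x a b) * L a b c d t s
                * ((θ s * v c ^ 2 * (w d s)⁻¹ + (θ s)⁻¹ * β ^ 2 * w d s) / 2)
              + Mc * Fs s * Lt a b c d t s * ((θh s * v c ^ 2 * (w d s)⁻¹) / 2)
              + Mc * (Fs s * ((θh s)⁻¹ * ζ ^ 2) / 2 * (Lt a b c d t s * w d s)) := by ring
          _ ≤ κ0 s * (1 + γ * x a b) * L a b c d t s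
                * ((θ s * v c ^ 2 * (w d s)⁻¹ + (θ s)⁻¹ * β ^ 2 * w d s) / 2)
              + Mc * Fs s * Lt a b c d t s * ((θh s * v c ^ 2 * (w d s)⁻¹) / 2)
              + Mb * (Fs s * ((θh s)⁻¹ * ζ ^ 2) / 2 * (Lt a b c d t s * w d s)) := by
            linarith
          _ = _ := by ring
  have cB : ∀ c ∈ ({a, b} : Finset V)ᶜ, ContinuousOn (fun s => Bd3 k γ κ0 Fs (ρ2 (xr x P b c)) l1 l2 h1 h2
      (θ s) (θh s) (x a b) (My x γ a b c) (Mn0 x γ a b) (xr x P a c) (xr x P b c) (x a c) (x b c)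
      (v c) (xr x P b c) s)
      (Icc 0 t) := by
    intro c hc
    obtain ⟨q1, q2, q3⟩ := hq c hc
    have c1 := cfh _ (xb1 c)
    have c4 := hw.cκ0
    have c5 := hw.cFs
    have c6 := cρ2 _ (xb1 c)
    have j1 := hw.cl1 _ _ q1 q2 q3
    have j2 := hw.cl2 _ _ q1 q2 q3
    have j3 := hw.ch1 _ _ q1 q2 q3
    have j4 := hw.ch2 _ _ q1 q2 q3
    exact ((((c4.mul continuousOn_const).mul (((cθ.mul
      continuousOn_const).mul j1).add ((ci.mul ((continuousOn_const.mul c1).pow 2)).mul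
      j2))).add (c5.mul ((((cθh.mul continuousOn_const).mul continuousOn_const).mul j3).add
      (((cih.mul ((continuousOn_const.mul c6).pow 2)).mul continuousOn_const).mul
      j4)))).div_const 2)
  refine (Finset.sum_le_sum step1).trans ?_
  · rw [← intervalIntegral.integral_finsetSum fun c _ => ii_of ht.1
        (continuousOn_finsetSum _ fun d _ => cT c d) m0 mt,
      ← intervalIntegral.integral_finsetSum fun c hc => ii_of ht.1 (cB c hc) m0 mt]
    refine intervalIntegral.integral_mono_on ht.1 (ii_of ht.1 (continuousOn_finsetSum _ fun c _ =>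
      continuousOn_finsetSum _ fun d _ => cT c d) m0 mt)
      (ii_of ht.1 (continuousOn_finsetSum _ fun c hc => cB c hc) m0 mt) fun s hs => ?_
    have k0 := hw.k0 s hs
    have F0 := hw.Fs0 s hs
    have e1 : 0 ≤ 1 + γ * x a b := by linarith
    have split : (∑ c ∈ ({a, b} : Finset V)ᶜ, ∑ d ∈ ({a, b, c} : Finset V)ᶜ, T c d s)
        = ∑ c ∈ ({a, b} : Finset V)ᶜ, (κ0 s * (1 + γ * x a b) * (θ s * v c ^ 2) / 2
            * (∑ d ∈ ({a, b, c} : Finset V)ᶜ, rP P L a b c d t s * (w d s)⁻¹)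
          + κ0 s * (1 + γ * x a b) * ((θ s)⁻¹ * (xr x P b c * (1 + γ * xr x P a c)
            * k.fh (xr x P b c) s) ^ 2) / 2
            * (∑ d ∈ ({a, b, c} : Finset V)ᶜ, rP P L a b d c t s * w c s)
          + Fs s * (θh s * v c ^ 2 * My x γ a b c) / 2
            * (∑ d ∈ ({a, b, c} : Finset V)ᶜ, rP P Lt a b c d t s * (w d s)⁻¹)
          + Fs s * ((θh s)⁻¹ * (xr x P b c * ρ2 (xr x P b c) s) ^ 2 * Mn0 x γ a b) / 2
            * (∑ d ∈ ({a, b, c} : Finset V)ᶜ, rP P Lt a b d c t s * w c s)) := by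
      simp only [hT, Td3, Finset.sum_add_distrib]
      congr 1
      · congr 1
        · congr 1
          · exact Finset.sum_congr rfl fun c _ => (Finset.mul_sum _ _ _).symm
          · rw [swap_tri]
            exact Finset.sum_congr rfl fun c _ => (Finset.mul_sum _ _ _).symm
        · exact Finset.sum_congr rfl fun c _ => (Finset.mul_sum _ _ _).symm
      · rw [swap_tri]
        exact Finset.sum_congr rfl fun c _ => (Finset.mul_sum _ _ _).symm
    rw [split]
    refine Finset.sum_le_sum fun c hc => ?_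
    have hc' := mem2.1 hc
    have i1 := hw.r1 c hc s hs
    have i2 := hw.r2 c hc s hs
    have i3 := hw.r3 c hc s hs
    have i4 := hw.r4 c hc s hs
    have iθs := iθ s hs
    have iθhs := iθh s hs
    have θs := θ0 s hs
    have θhs := θh0 s hs
    have n1 : 0 ≤ κ0 s * (1 + γ * x a b) * (θ s * v c ^ 2) / 2 := by positivity
    have n2 : 0 ≤ κ0 s * (1 + γ * x a b) * ((θ s)⁻¹ * (xr x P b c * (1 + γ * xr x P a c)
            * k.fh (xr x P b c) s) ^ 2) / 2 := by positivity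
    have M0 := Mcn c hc
    have n3 : 0 ≤ Fs s * (θh s * v c ^ 2 * My x γ a b c) / 2 := by positivity
    have n4 : 0 ≤ Fs s * ((θh s)⁻¹ * (xr x P b c * ρ2 (xr x P b c) s) ^ 2 * Mn0 x γ a b) / 2 := by positivity
    have o1 := mul_le_mul_of_nonneg_left i1 n1
    have o2 := mul_le_mul_of_nonneg_left i2 n2
    have o3 := mul_le_mul_of_nonneg_left i3 n3
    have o4 := mul_le_mul_of_nonneg_left i4 n4
    refine (add_le_add (add_le_add (add_le_add o1 o2) o3) o4).trans (le_of_eq ?_)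
    unfold Bd3
    ring

end Pool.Agent.RZ.RCN.K
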