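import Pool.Agent.RZ.RCO.T1X
import Pool.Agent.RZ.RCO.T1Y

/-! The linear error of one vertex: entries above a threshold of the weight, rows below
(MP_73ccd0_lc). -/

namespace Pool.Agent.RZ.RCN.K

open Set Finset MeasureTheory Pool.Agent.RZ.RCRSHalf Pool.Agent.RZ.RCG Pool.Agent.RZ.RCG.Ct
open Pool.Agent.RZ.RCN.Ker Pool.Agent.RZ.RCRS Pool.Agent.RZ.RCM.Jen

set_option linter.unusedSectionVars false
set_option linter.unusedVariables false

variable {V : Type*} [Fintype V] [DecidableEq V]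
variable {x : V → V → ℝ} {P : V → Prop} [DecidablePred P] {k : Kf} {N : ℕ}
variable {κd : ℝ → ℝ → ℝ → ℝ} {R : V → V → V → ℝ → ℝ → ℝ} {L Lt : V → V → V → V → ℝ → ℝ → ℝ}
variable {a b : V} {t γ : ℝ} {κ0 Fs ρ : ℝ → ℝ} {w : V → ℝ → ℝ} {l1 l2 h1 h2 : ℝ → ℝ → ℝ → ℝ}
variable {S St : ℝ → ℝ} {BA BB : ℝ}

/-- bounds of the linear error of one vertex: entries above the thresholds `qA`, `qB` of the
weight, rows below -/
structure Eh (x : V → V → ℝ) (P : V → Prop) [DecidablePred P] (k : Kf)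
    (L Lt : V → V → V → V → ℝ → ℝ → ℝ) (a b : V) (t γ : ℝ)
    (κ0 Fs ρ : ℝ → ℝ) (qA qB : ℝ) (HA HB RA RB : ℝ → ℝ → ℝ) : Prop where
  qA0 : 0 ≤ qA
  qB0 : 0 ≤ qB
  HA0 : ∀ y z : ℝ, 0 ≤ y → 0 ≤ z → y + z ≤ 1 → 0 ≤ HA y z
  HB0 : ∀ y z : ℝ, 0 ≤ y → 0 ≤ z → y + z ≤ 1 → 0 ≤ HB y z
  eA : ∀ c ∈ ({a, b} : Finset V)ᶜ, ∀ d ∈ ({a, b, c} : Finset V)ᶜ, P c → P d →
    (x b d * (1 + γ * x a d) - qA) * (∫ s in (0 : ℝ)..t, fq x P k.fh b d s * κ0 s * L a b c d t s)
      ≤ x b d * (1 + γ * x a d) * HA (x a c) (x b c)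
  eB : ∀ c ∈ ({a, b} : Finset V)ᶜ, ∀ d ∈ ({a, b, c} : Finset V)ᶜ, P c → P d →
    (x b d - qB) * (∫ s in (0 : ℝ)..t, Fs s * (ρ s * Lt a b c d t s))
      ≤ x b d * HB (x a c) (x b c)
  rA : ∀ c ∈ ({a, b} : Finset V)ᶜ, P c → ∑ d ∈ ({a, b, c} : Finset V)ᶜ,
    (if P d then ∫ s in (0 : ℝ)..t, fq x P k.fh b d s * κ0 s * L a b c d t s else 0)
      ≤ RA (x a c) (x b c)
  rB : ∀ c ∈ ({a, b} : Finset V)ᶜ, P c → ∑ d ∈ ({a, b, c} : Finset V)ᶜ,
    (if P d then ∫ s in (0 : ℝ)..t, Fs s * (ρ s * Lt a b c d t s) else 0)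
      ≤ RB (x a c) (x b c)

/-- the bound of the linear error -/
noncomputable def Lh (γ qA qB : ℝ) (HA HB RA RB : ℝ → ℝ → ℝ) (M u y z : ℝ) : ℝ :=
  M * (HA y z + (1 - u - z) * HB y z + qB * RB y z) + (1 + γ * u) * (qA * RA y z)

/-- **the linear error of one vertex** -/
theorem LamL_entH (hf : Lf N k κd R L Lt) (hx : Wt x P 1) (hk : k.Ok)
    (hfc : ∀ y ∈ Icc (0 : ℝ) 1, ContinuousOn (k.fh y) (Icc 0 1)) (ht : t ∈ Icc (0 : ℝ) 1)
    (hab : a ≠ b)
    (hw : Pw2 x P k κd R L Lt a b t γ κ0 Fs ρ w l1 l2 h1 h2 S St BA BB)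
    {rA eA rH eH : V → ℝ → ℝ} {RA' RH EA EH : V → ℝ}
    (hr : T1q x P k κd R L Lt a b t γ κ0 Fs rA eA rH eH RA' RH EA EH)
    {qA qB : ℝ} {HA HB RA RB : ℝ → ℝ → ℝ}
    (he : Eh x P k L Lt a b t γ κ0 Fs ρ qA qB HA HB RA RB)
    {c : V} (hc : c ∈ ({a, b} : Finset V)ᶜ) (hPc : P c) :
    LamL x P k κd R L Lt a b c t
      ≤ Lh γ qA qB HA HB RA RB (My x γ a b c) (x a b) (x a c) (x b c) := by
  have m0 : (0 : ℝ) ∈ Icc 0 t := ⟨le_rfl, ht.1⟩
  have mt : t ∈ Icc 0 t := ⟨ht.1, le_rfl⟩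
  have hc' := hc
  rw [mem2] at hc'
  have γ0 := hw.γ0
  have u0 := hx.nonneg a b
  have γu : 0 ≤ γ * x a b := mul_nonneg γ0 u0
  have M0 : 0 ≤ My x γ a b c := My_nonneg hx γ0 hc
  obtain ⟨d1, d2, d3, d4, d5, d6⟩ := dm_of hx hab hc
  have HA0 := he.HA0 _ _ d2 d3 (by linarith)
  have HB0 := he.HB0 _ _ d2 d3 (by linarith)
  have cfq : ∀ d, ContinuousOn (fq x P k.fh b d) (Icc 0 t) := fun d =>
    (fq_cont' hfc hx b d).mono (Icc_subset_Icc_right ht.2)
  set IA : V → ℝ := fun d => if P d then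
    ∫ s in (0 : ℝ)..t, fq x P k.fh b d s * κ0 s * L a b c d t s else 0 with hIA
  set IB : V → ℝ := fun d => if P d then
    ∫ s in (0 : ℝ)..t, Fs s * (ρ s * Lt a b c d t s) else 0 with hIB
  have IA0 : ∀ d, 0 ≤ IA d := fun d => by
    rw [hIA]
    beta_reduce
    split_ifs
    · exact intervalIntegral.integral_nonneg ht.1 fun s hs =>
        mul_nonneg (mul_nonneg (fq_nonneg' hk hx b d ⟨hs.1, hs.2.trans ht.2⟩) (hw.k0 s hs))
          (hf.L0 a b c d t s hs.1 hs.2 ht.2)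
    · exact le_rfl
  have IB0 : ∀ d, 0 ≤ IB d := fun d => by
    rw [hIB]
    beta_reduce
    split_ifs
    · exact intervalIntegral.integral_nonneg ht.1 fun s hs =>
        mul_nonneg (hw.Fs0 s hs) (mul_nonneg (hw.ρ0 s hs) (hf.Lt0 a b c d t s hs.1 hs.2 ht.2))
    · exact le_rfl
  have key : ∀ d ∈ ({a, b, c} : Finset V)ᶜ, (∫ s in (0 : ℝ)..t,
      (flx x P k κd a b d t s * L a b c d t s
      + muL x P k κd a b c t s * (R a b d t s * Lt a b c d t s)))
      ≤ (1 + γ * x a b) * (x b d * (1 + γ * x a d) * HA (x a c) (x b c) + qA * IA d)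
        + My x γ a b c * (x b d * HB (x a c) (x b c) + qB * IB d) := by
    intro d hd
    have hd3 := hd
    rw [mem3] at hd3
    have hd2 : d ∈ ({a, b} : Finset V)ᶜ := mem2.2 ⟨hd3.1, hd3.2.1⟩
    have v0 := hx.nonneg b d
    have w0 := mul_nonneg γ0 (hx.nonneg a d)
    have rhs0 : 0 ≤ (1 + γ * x a b) * (x b d * (1 + γ * x a d) * HA (x a c) (x b c) + qA * IA d)
        + My x γ a b c * (x b d * HB (x a c) (x b c) + qB * IB d) := by
      have := IA0 d
      have := IB0 d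
      have := he.qA0
      have := he.qB0
      positivity
    by_cases hbd : x b d = 0
    · rw [LamL_zeroQ hr ht hd2 hbd]
      exact rhs0
    by_cases hPd : P d
    swap
    · have e : ∀ s ∈ uIcc 0 t, (flx x P k κd a b d t s * L a b c d t s
          + muL x P k κd a b c t s * (R a b d t s * Lt a b c d t s)) = 0 := fun s hs => by
        rw [uIcc_of_le ht.1] at hs
        rw [(hw.pd c d hPd hbd s hs).1, (hw.pd c d hPd hbd s hs).2]
        ring
      rw [intervalIntegral.integral_congr e]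
      simpa using rhs0
    have cL : ContinuousOn (L a b c d t) (Icc 0 t) := (hf.cL a b c d).slice hf.N0 ht
    have cLt : ContinuousOn (Lt a b c d t) (Icc 0 t) := (hf.cLt a b c d).slice hf.N0 ht
    have cR : ContinuousOn (R a b d t) (Icc 0 t) := (hf.cR a b d).slice hf.N0 ht
    have eA' : IA d = ∫ s in (0 : ℝ)..t, fq x P k.fh b d s * κ0 s * L a b c d t s := by
      rw [hIA]; beta_reduce; rw [if_pos hPd]
    have eB' : IB d = ∫ s in (0 : ℝ)..t, Fs s * (ρ s * Lt a b c d t s) := by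
      rw [hIB]; beta_reduce; rw [if_pos hPd]
    have hG : ∫ s in (0 : ℝ)..t, fq x P k.fh b d s * κ0 s
        * ((fun s => (1 + γ * x a d) * L a b c d t s) s) ≤ (1 + γ * x a d) * IA d := by
      have e : ∀ s, fq x P k.fh b d s * κ0 s * ((fun s => (1 + γ * x a d) * L a b c d t s) s)
          = (1 + γ * x a d) * (fq x P k.fh b d s * κ0 s * L a b c d t s) := fun s => by
        beta_reduce; ring
      simp only [e]
      rw [intervalIntegral.integral_const_mul, eA']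
    have i1 := flx_int_leQ hf hx hk hfc ht hr hd2 cL
      (fun s hs => hf.L0 a b c d t s hs.1 hs.2 ht.2)
      (g := fun s => (1 + γ * x a d) * L a b c d t s) (continuousOn_const.mul cL)
      (fun s hs => le_rfl) hG
    have i2 : (∫ s in (0 : ℝ)..t, muL x P k κd a b c t s * (R a b d t s * Lt a b c d t s))
        ≤ ∫ s in (0 : ℝ)..t, (My x γ a b c * x b d) * (Fs s * (ρ s * Lt a b c d t s)) := by
      refine intervalIntegral.integral_mono_on ht.1
        (ii_of ht.1 ((mu_cont hf hx hfc ht a b c).mul (cR.mul cLt)) m0 mt)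
        (ii_of ht.1 (continuousOn_const.mul (hw.cFs.mul (hw.cρ.mul cLt))) m0 mt)
        fun s hs => ?_
      have j1 := muL_leY hf hx hk hfc ht γ0 hr.cκ0 hr.hκ hr.Fs0 hr.hF hc hs
      have j3 := hf.Lt0 a b c d t s hs.1 hs.2 ht.2
      have j2 := mul_le_mul_of_nonneg_right (hw.hR d s hs) j3
      have j0 : 0 ≤ R a b d t s * Lt a b c d t s := mul_nonneg (hf.R0 a b d t s hs.1 hs.2 ht.2) j3
      calc _ ≤ My x γ a b c * Fs s * (x b d * ρ s * Lt a b c d t s) :=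
            mul_le_mul j1 j2 j0 (mul_nonneg M0 (hr.Fs0 s hs))
        _ = _ := by ring
    rw [intervalIntegral.integral_const_mul, ← eB'] at i2
    rw [lam_term hf hx hfc ht a b c d]
    have i3 := he.eA c hc d hd hPc hPd
    have i4 := he.eB c hc d hd hPc hPd
    rw [← eA'] at i3
    rw [← eB'] at i4
    have i5 := mul_le_mul_of_nonneg_left i3 (show 0 ≤ 1 + γ * x a b by linarith)
    have i6 := mul_le_mul_of_nonneg_left i4 M0
    have e1 : x b d * ((1 + γ * x a b) * ((1 + γ * x a d) * IA d))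
        = (1 + γ * x a b) * ((x b d * (1 + γ * x a d) - qA) * IA d)
          + (1 + γ * x a b) * (qA * IA d) := by ring
    have e2 : My x γ a b c * x b d * IB d = My x γ a b c * ((x b d - qB) * IB d)
        + My x γ a b c * (qB * IB d) := by ring
    rw [e1] at i1
    rw [e2] at i2
    rw [mul_add, mul_add]
    linarith
  unfold LamL
  refine (Finset.sum_le_sum key).trans ?_
  rw [Finset.sum_add_distrib, ← Finset.mul_sum, ← Finset.mul_sum, Finset.sum_add_distrib,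
    Finset.sum_add_distrib, ← Finset.sum_mul, ← Finset.sum_mul, ← Finset.mul_sum,
    ← Finset.mul_sum]
  have r0 : ∑ d ∈ ({a, b, c} : Finset V)ᶜ, x b d ≤ 1 - x a b - x b c := by
    have := row_two hx b (a := a) (c := c) (Ne.symm hc'.1) (({a, b, c} : Finset V)ᶜ) fun d hd => by
      rw [mem3] at hd; exact ⟨hd.1, hd.2.2⟩
    rw [hx.symm b a] at this
    linarith
  have r1 : (1 + γ * x a b) * ∑ d ∈ ({a, b, c} : Finset V)ᶜ, x b d * (1 + γ * x a d)
      ≤ My x γ a b c := by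
    unfold My
    refine mul_le_mul_of_nonneg_left ?_ (by linarith)
    have e : ∑ d ∈ ({a, b, c} : Finset V)ᶜ, x b d * (1 + γ * x a d)
        = ∑ d ∈ ({a, b, c} : Finset V)ᶜ, x b d
          + γ * ∑ d ∈ ({a, b, c} : Finset V)ᶜ, x b d * x a d := by
      rw [Finset.mul_sum, ← Finset.sum_add_distrib]
      exact Finset.sum_congr rfl fun d _ => by ring
    rw [e, Nn_erase hc]
    linarith
  have r2 := mul_le_mul_of_nonneg_right r1 HA0
  have r3 := mul_le_mul_of_nonneg_left (mul_le_mul_of_nonneg_left (he.rA c hc hPc) he.qA0)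
    (show 0 ≤ 1 + γ * x a b by linarith)
  have r4 := mul_le_mul_of_nonneg_left (mul_le_mul_of_nonneg_right r0 HB0) M0
  have r5 := mul_le_mul_of_nonneg_left (mul_le_mul_of_nonneg_left (he.rB c hc hPc) he.qB0) M0
  unfold Lh
  rw [mul_add, mul_add]
  rw [mul_assoc] at r2
  linarith

end Pool.Agent.RZ.RCN.K
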