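import Pool.Agent.RZ.RCN.T1A
import Pool.Agent.RZ.RCO.T1N

/-! The first part of the inequality of the centres as a sum over the star with a function of the
weights of the triple (MP_73ccd0_lc). -/

namespace Pool.Agent.RZ.RCN.K

open Set Finset MeasureTheory Pool.Agent.RZ.RCRSHalf Pool.Agent.RZ.RCG Pool.Agent.RZ.RCG.Ct
open Pool.Agent.RZ.RCN.Ker Pool.Agent.RZ.RCRS Pool.Agent.RZ.RCM.Jen

set_option linter.unusedSectionVars false
set_option linter.unusedVariables false

variable {V : Type*} [Fintype V] [DecidableEq V]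
variable {x : V → V → ℝ} {P : V → Prop} [DecidablePred P] {k : Kf} {N : ℕ}
variable {κd : ℝ → ℝ → ℝ → ℝ} {R : V → V → V → ℝ → ℝ → ℝ} {L Lt : V → V → V → V → ℝ → ℝ → ℝ}

/-- the symmetrised first part -/
theorem t1_core {t : ℝ} {ch g : ℝ → ℝ}
    (hf : Lf N k κd R L Lt) (hx : Wt x P 1) (hk : k.Ok)
    (hms : ∀ x y z t, k.mb x y z t = k.mb y x z t) (ht : t ∈ Icc (0 : ℝ) 1)
    {a : V} (ha : P a)
    (hgap : ∀ b d, P b → P d → a ≠ b → a ≠ d → b ≠ d →
      k.mb (xr x P a b) (xr x P a d) (xr x P b d) t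
        + min ((xdOf x κd R L Lt).E x P k a b d t) ((xdOf x κd R L Lt).E x P k a d b t) ≤ 1)
    (ch1 : ∀ y ∈ Icc (0 : ℝ) 1, (1 + t) * k.fh y t ≤ ch y)
    (ch0 : ∀ y ∈ Icc (0 : ℝ) 1, 0 ≤ ch y)
    (hg : ∀ y z : ℝ, 0 ≤ y → 0 ≤ z → y + z ≤ 1 →
      y * z * (ch y + ch z) ≤ y ^ 2 * g y + z ^ 2 * g z)
    (g0 : ∀ y ∈ Icc (0 : ℝ) 1, 0 ≤ g y) {Z : V → ℝ}
    (hsum : ∀ b, P b → a ≠ b → ∑ c ∈ ({a, b} : Finset V)ᶜ,
        emin ((xdOf x κd R L Lt).E x P k) P a b c t
          * amp k.mb ((xdOf x κd R L Lt).E x P k) x P a b c t ≤ Z b) :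
    ∑ b, xr x P a b * ∑ d ∈ ({a, b} : Finset V)ᶜ,
        wS k.fh k.mb ((xdOf x κd R L Lt).E x P k) x P a b d t
      ≤ ∑ b, xr x P a b ^ 2 * (g (xr x P a b) * Z b) := by
  classical
  set E := (xdOf x κd R L Lt).E x P k with hE
  have hu0 : ∀ b, 0 ≤ xr x P a b := fun b => xr_nonneg hx a b
  have hm1 := xmem1 (P := P) hx a
  have hxe : ∀ {b : V}, P b → xr x P a b = x a b := fun hb => by
    unfold xr; rw [if_pos ⟨ha, hb⟩]
  have hxz : ∀ {b : V}, ¬ P b → xr x P a b = 0 := fun hb => by
    unfold xr; rw [if_neg fun h => hb h.2]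
  have hxa : xr x P a a = 0 := by rw [hxe ha, hx.diag]
  -- the nonnegativity
  have hn : ∀ b d, P b → a ≠ b → d ∈ ({a, b} : Finset V)ᶜ →
      0 ≤ emin E P a b d t * amp k.mb E x P a b d t := by
    intro b d hb hab hd
    rw [mem2] at hd
    by_cases hPd : P d
    · have i1 : xr x P a b + xr x P a d ≤ 1 := xr_add_le hx (Ne.symm hd.2)
      have m0 : 0 ≤ k.mb (xr x P a b) (xr x P a d) (xr x P b d) t :=
        hk.mb_nonneg (xmem1 hx a b) (xmem1 hx a d) (xmem1 hx b d) i1 ht
      have e1 : 0 ≤ E a b d t := E_nonneg' hf hx hk a (Ne.symm hd.2) ht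
      have e2 : 0 ≤ E a d b t := E_nonneg' hf hx hk a hd.2 ht
      have g := hgap b d hb hPd hab (Ne.symm hd.1) (Ne.symm hd.2)
      have ee : emin E P a b d t = min (E a b d t) (E a d b t) := by
        unfold emin; rw [if_pos hPd]
      have e3 : 0 ≤ emin E P a b d t := by rw [ee]; exact le_min e1 e2
      rw [← ee] at g
      refine mul_nonneg e3 (inv_nonneg.2 (mul_nonneg ?_ ?_)) <;> linarith
    · have ee : emin E P a b d t = 0 := by unfold emin; rw [if_neg hPd]
      rw [ee, zero_mul]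
  -- the symmetric matrix
  set M : V → V → ℝ := fun b d =>
    if P b ∧ P d ∧ a ≠ b ∧ a ≠ d ∧ b ≠ d then emin E P a b d t * amp k.mb E x P a b d t else 0
    with hMdef
  have hM0 : ∀ b d, 0 ≤ M b d := by
    intro b d
    rw [hMdef]
    beta_reduce
    split_ifs with h
    · exact hn b d h.1 h.2.2.1 (mem2.2 ⟨Ne.symm h.2.2.2.1, Ne.symm h.2.2.2.2⟩)
    · exact le_rfl
  have hMs : ∀ b d, M b d = M d b := by
    intro b d
    rw [hMdef]
    beta_reduce
    by_cases h : P b ∧ P d ∧ a ≠ b ∧ a ≠ d ∧ b ≠ d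
    · rw [if_pos h, if_pos ⟨h.2.1, h.1, h.2.2.2.1, h.2.2.1, Ne.symm h.2.2.2.2⟩]
      have e1 : emin E P a b d t = emin E P a d b t := by
        unfold emin
        rw [if_pos h.2.1, if_pos h.1, min_comm]
      unfold amp
      rw [← e1, hms (xr x P a d) (xr x P a b), xr_symm hx d b]
    · rw [if_neg h, if_neg fun h' => h ⟨h'.2.1, h'.1, h'.2.2.2.1, h'.2.2.1,
        Ne.symm h'.2.2.2.2⟩]
  -- the sum with the matrix
  have hT : ∑ b, xr x P a b * ∑ d ∈ ({a, b} : Finset V)ᶜ,
        wS k.fh k.mb E x P a b d t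
      ≤ ∑ b, ∑ d, xr x P a b * xr x P a d * ch (xr x P a d) * M b d := by
    refine Finset.sum_le_sum fun b _ => ?_
    by_cases hb : P b ∧ a ≠ b
    · rw [Finset.mul_sum]
      refine le_trans (Finset.sum_le_sum fun d hd => ?_)
        (Finset.sum_le_sum_of_subset_of_nonneg (Finset.subset_univ _) fun d _ _ =>
          mul_nonneg (mul_nonneg (mul_nonneg (hu0 b) (hu0 d)) (ch0 _ (hm1 d))) (hM0 b d))
      have hd' := hd
      rw [mem2] at hd'
      by_cases hPd : P d
      · have e1 : M b d = emin E P a b d t * amp k.mb E x P a b d t := by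
          rw [hMdef]
          beta_reduce
          rw [if_pos ⟨hb.1, hPd, hb.2, Ne.symm hd'.1, Ne.symm hd'.2⟩]
        rw [e1]
        unfold wS
        have k1 := ch1 _ (hm1 d)
        have k2 := hn b d hb.1 hb.2 hd
        calc xr x P a b * (xr x P a d * ((1 + t) * k.fh (xr x P a d) t)
              * (emin E P a b d t * amp k.mb E x P a b d t))
            = (xr x P a b * xr x P a d * (emin E P a b d t * amp k.mb E x P a b d t))
              * ((1 + t) * k.fh (xr x P a d) t) := by ring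
          _ ≤ (xr x P a b * xr x P a d * (emin E P a b d t * amp k.mb E x P a b d t))
              * ch (xr x P a d) :=
            mul_le_mul_of_nonneg_left k1 (mul_nonneg (mul_nonneg (hu0 b) (hu0 d)) k2)
          _ = _ := by ring
      · unfold wS
        rw [hxz hPd]
        simp
    · have : xr x P a b = 0 := by
        by_cases h : P b
        · have hab : a = b := by
            by_contra h'
            exact hb ⟨h, h'⟩
          rw [← hab]; exact hxa
        · exact hxz h
      rw [this]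
      simp
  refine hT.trans ((symm_gen (u := fun b => xr x P a b) (c := fun b => ch (xr x P a b))
    (g := fun b => g (xr x P a b)) hMs hM0 fun b d hbd => ?_).trans ?_)
  · beta_reduce
    have h : P b ∧ P d ∧ a ≠ b ∧ a ≠ d ∧ b ≠ d := by
      by_contra h
      exact hbd (by rw [hMdef]; beta_reduce; rw [if_neg h])
    exact hg _ _ (hu0 b) (hu0 d) (xr_add_le hx h.2.2.2.2)
  · refine Finset.sum_le_sum fun b _ => ?_
    by_cases hb : P b ∧ a ≠ b
    · have h1 : ∑ d, M b d ≤ ∑ c ∈ ({a, b} : Finset V)ᶜ, emin E P a b c t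
          * amp k.mb E x P a b c t := by
        rw [← Finset.sum_subset (Finset.subset_univ (({a, b} : Finset V)ᶜ)) fun d _ hd => ?_]
        · refine Finset.sum_le_sum fun d hd => ?_
          rw [hMdef]
          beta_reduce
          split_ifs
          · exact le_rfl
          · exact hn b d hb.1 hb.2 hd
        · rw [hMdef]
          beta_reduce
          rw [mem2] at hd
          rw [if_neg fun h => hd ⟨Ne.symm h.2.2.2.1, Ne.symm h.2.2.2.2⟩]
      have h2 := h1.trans (hsum b hb.1 hb.2)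
      beta_reduce
      rw [← Finset.mul_sum]
      have c0 := g0 _ (hm1 b)
      have h4 := mul_le_mul_of_nonneg_left h2 (mul_nonneg (sq_nonneg (xr x P a b)) c0)
      rw [mul_assoc] at h4
      rw [mul_assoc]
      calc _ ≤ xr x P a b ^ 2 * (g (xr x P a b) * ∑ d, M b d) := le_rfl
        _ ≤ xr x P a b ^ 2 * (g (xr x P a b) * Z b) :=
          mul_le_mul_of_nonneg_left (mul_le_mul_of_nonneg_left h2 c0) (sq_nonneg _)
    · have : xr x P a b = 0 := by
        by_cases h : P b
        · have hab : a = b := by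
            by_contra h'
            exact hb ⟨h, h'⟩
          rw [← hab]; exact hxa
        · exact hxz h
      rw [this]
      simp

end Pool.Agent.RZ.RCN.K
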