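import Pool.Agent.RZ.RCN.T1A
import Pool.Agent.RZ.RCN.Top
import Pool.Agent.RZ.RCO.T1S

/-! The end theorem of the first part of the inequality of the centres (MP_73ccd0_lc). -/

namespace Pool.Agent.RZ.RCN.K

open Set Finset MeasureTheory Pool.Agent.RZ.RCRSHalf Pool.Agent.RZ.RCG Pool.Agent.RZ.RCG.Ct
open Pool.Agent.RZ.RCN.Ker Pool.Agent.RZ.RCRS

set_option linter.unusedSectionVars false
set_option linter.unusedVariables false

section end_theorem

variable {V : Type*} [Fintype V] [DecidableEq V]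
variable {x : V → V → ℝ} {P : V → Prop} [DecidablePred P] {k : Kf} {N : ℕ}
variable {κd : ℝ → ℝ → ℝ → ℝ} {R : V → V → V → ℝ → ℝ → ℝ} {L Lt : V → V → V → V → ℝ → ℝ → ℝ}
variable {a b : V} {t γ : ℝ} {κ0 Fs ρ : ℝ → ℝ} {w : V → ℝ → ℝ} {l1 l2 h1 h2 : ℝ → ℝ → ℝ → ℝ}
variable {S St : ℝ → ℝ} {BA BB : ℝ} {c2 c4 : ℝ → ℝ → ℝ → ℝ} {IA IB : ℝ → ℝ → ℝ}

/-- the domain of the weights of a triple -/
def Dm (u y z : ℝ) : Prop := 0 ≤ u ∧ 0 ≤ y ∧ 0 ≤ z ∧ u + y ≤ 1 ∧ u + z ≤ 1 ∧ y + z ≤ 1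

/-- the domain with weights at most `em` -/
def De (em u y z : ℝ) : Prop := Dm u y z ∧ u ≤ em ∧ y ≤ em ∧ z ≤ em

/-- the density of the part of the common neighbours -/
noncomputable def Be3 (Fs ρ : ℝ → ℝ) (h1 h2 : ℝ → ℝ → ℝ → ℝ) (θh yl zl v zb s : ℝ) : ℝ :=
  Fs s * (θh * v ^ 2 * h1 yl zl s + θh⁻¹ * (zb * ρ s) ^ 2 * h2 yl zl s) / 2

theorem dm_of (hx : Wt x P 1) (hab : a ≠ b) {c : V} (hc : c ∈ ({a, b} : Finset V)ᶜ) :
    Dm (x a b) (x a c) (x b c) := by
  have hc' := mem2.1 hc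
  have j1 := (two_mem hx a (Ne.symm hc'.2)).2
  have j2 := (two_mem hx b (Ne.symm hc'.1)).2
  have j3 := (two_mem hx c hab).2
  rw [hx.symm b a] at j2
  rw [hx.symm c a, hx.symm c b] at j3
  exact ⟨hx.nonneg a b, hx.nonneg a c, hx.nonneg b c, j1, j2, j3⟩

theorem de_of (hx : Wt x P 1) {em : ℝ} (hem : ∀ a b, P a → P b → x a b ≤ em) (ha : P a)
    (hb : P b) (hab : a ≠ b) {c : V} (hPc : P c) (hc : c ∈ ({a, b} : Finset V)ᶜ) :
    De em (x a b) (x a c) (x b c) :=
  ⟨dm_of hx hab hc, hem _ _ ha hb, hem _ _ ha hPc, hem _ _ hb hPc⟩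

end end_theorem

/-! ### the inequality of the centres -/

section tt

variable {V : Type} [Fintype V] [DecidableEq V]
variable {Gr : SimpleGraph V} [Fintype Gr.edgeSet] [DecidableEq Gr.edgeSet]

/-- **the inequality of the centres from one inequality in the weights of a triple** -/
theorem tt_ofF {D : Da V} {x : Gr.edgeSet → ℝ} [Pool.Agent.RZ.RCG.CX x] (hx : IsFractionalMatching Gr x)
    {F1 F2 : ℝ → ℝ → ℝ → ℝ → ℝ} {hs : ℝ → ℝ}
    (h1 : ∀ a, P0 V a → ∀ t ∈ Icc (0 : ℝ) 1,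
      ∑ b, xr (xe x) (P0 V) a b * ∑ d ∈ ({a, b} : Finset (V ⊕ V))ᶜ,
          wS D.k.fh D.k.mb (D.E x) (xe x) (P0 V) a b d t
        ≤ ∑ b, xr (xe x) (P0 V) a b ^ 2 * ∑ c ∈ ({a, b} : Finset (V ⊕ V))ᶜ,
          xe x b c * F1 t (xe x a b) (xe x a c) (xr (xe x) (P0 V) b c))
    (h2 : ∀ a, P0 V a → ∀ t ∈ Icc (0 : ℝ) 1,
      ∑ b, xr (xe x) (P0 V) a b * ∑ d ∈ ({a, b} : Finset (V ⊕ V))ᶜ,
          wS D.k.fh D.k.mb (D.E x) (xe x) (P0 V) b a d t
        ≤ ∑ b, xr (xe x) (P0 V) a b ^ 2 * ∑ c ∈ ({a, b} : Finset (V ⊕ V))ᶜ,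
          xe x b c * F2 t (xe x a b) (xe x a c) (xr (xe x) (P0 V) b c))
    (hS : ∀ y ∈ Icc (0 : ℝ) 1, y ^ 2 * (1 - y) * hs y ≤ D.T.sT y)
    (sT0 : 0 ≤ D.T.sT 0) (kt0 : ∀ t ∈ Icc (0 : ℝ) 1, 0 ≤ D.T.kt t)
    {em : ℝ} (em0 : 0 ≤ em) (hem : ∀ a b, P0 V a → P0 V b → xe x a b ≤ em)
    (hF : ∀ t ∈ Icc (0 : ℝ) 1, ∀ u y z, De em u y z →
      F1 t u y z + F2 t u y z ≤ D.T.kt t * (hs u - D.T.k1 * z)) :
    TT D x := by
  have hw := wt_xe hx zero_le_one le_rfl fun e => (hx.1 e).2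
  intro a ha t ht
  have e : ∑ b, xr (xe x) (P0 V) a b * D.w x a b t
      = ∑ b, xr (xe x) (P0 V) a b * wE D.k.fh D.k.mb (D.E x) (xe x) (P0 V) a b t := rfl
  rw [e, sum_wE hw]
  refine (add_le_add (h1 a ha t ht) (h2 a ha t ht)).trans ?_
  rw [← Finset.sum_add_distrib]
  have n0 := hw.nonneg
  have key : ∀ b, xr (xe x) (P0 V) a b ^ 2 * ∑ c ∈ ({a, b} : Finset (V ⊕ V))ᶜ,
          xe x b c * F1 t (xe x a b) (xe x a c) (xr (xe x) (P0 V) b c)
        + xr (xe x) (P0 V) a b ^ 2 * ∑ c ∈ ({a, b} : Finset (V ⊕ V))ᶜ,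
          xe x b c * F2 t (xe x a b) (xe x a c) (xr (xe x) (P0 V) b c)
      ≤ D.T.kt t * (D.T.sT (xr (xe x) (P0 V) a b)
        - D.T.k1 * (xr (xe x) (P0 V) a b ^ 2
          * ∑ d ∈ ({a} : Finset (V ⊕ V))ᶜ, xr (xe x) (P0 V) b d ^ 2)) := by
    intro b
    by_cases hb : P0 V b ∧ a ≠ b
    · have xe' : xr (xe x) (P0 V) a b = xe x a b := by unfold xr; rw [if_pos ⟨ha, hb.1⟩]
      rw [xe']
      have hu := x_mem hw a b
      have s1 : ∑ c ∈ ({a, b} : Finset (V ⊕ V))ᶜ,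
          xe x b c * F1 t (xe x a b) (xe x a c) (xr (xe x) (P0 V) b c)
          + ∑ c ∈ ({a, b} : Finset (V ⊕ V))ᶜ,
          xe x b c * F2 t (xe x a b) (xe x a c) (xr (xe x) (P0 V) b c)
          ≤ ∑ c ∈ ({a, b} : Finset (V ⊕ V))ᶜ,
            (xe x b c * (D.T.kt t * hs (xe x a b))
              - D.T.kt t * D.T.k1 * xr (xe x) (P0 V) b c ^ 2) := by
        rw [← Finset.sum_add_distrib]
        refine Finset.sum_le_sum fun c hc => ?_
        have hd := dm_of hw hb.2 hc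
        by_cases hPc : P0 V c
        · have xb : xr (xe x) (P0 V) b c = xe x b c := by unfold xr; rw [if_pos ⟨hb.1, hPc⟩]
          rw [xb]
          have := mul_le_mul_of_nonneg_left (hF t ht _ _ _
            ⟨hd, hem _ _ ha hb.1, hem _ _ ha hPc, hem _ _ hb.1 hPc⟩) (n0 b c)
          calc _ = xe x b c * (F1 t (xe x a b) (xe x a c) (xe x b c)
                + F2 t (xe x a b) (xe x a c) (xe x b c)) := by ring
            _ ≤ _ := this
            _ = _ := by ring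
        · have xb : xr (xe x) (P0 V) b c = 0 := by unfold xr; rw [if_neg fun h => hPc h.2]
          rw [xb]
          obtain ⟨d1, d2, d3, d4, d5, d6⟩ := hd
          by_cases hbc0 : xe x b c = 0
          · rw [hbc0]
            simp
          have hac0 : xe x a c = 0 := by
            have h0 := pend_zero hw hb.2 hPc
            rcases mul_eq_zero.1 h0 with h0 | h0
            · exact absurd h0 hbc0
            · exact h0
          have := mul_le_mul_of_nonneg_left (hF t ht (xe x a b) (xe x a c) 0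
            ⟨⟨d1, d2, le_rfl, d4, by linarith, by linarith⟩, hem _ _ ha hb.1,
              by rw [hac0]; exact em0, em0⟩) d3
          calc _ = xe x b c * (F1 t (xe x a b) (xe x a c) 0
                + F2 t (xe x a b) (xe x a c) 0) := by ring
            _ ≤ _ := this
            _ = _ := by ring
      have s2 : ∑ c ∈ ({a, b} : Finset (V ⊕ V))ᶜ, xe x b c = 1 - xe x a b := by
        have r1 := hw.row1 b hb.1
        rw [← Finset.sum_add_sum_compl ({a, b} : Finset (V ⊕ V)), Finset.sum_pair hb.2,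
          hw.symm b a, hw.diag b] at r1
        linarith
      have h7 : ∑ c ∈ ({a, b} : Finset (V ⊕ V))ᶜ, xr (xe x) (P0 V) b c ^ 2
          = ∑ d ∈ ({a} : Finset (V ⊕ V))ᶜ, xr (xe x) (P0 V) b d ^ 2 := by
        refine Finset.sum_subset (fun c hc => ?_) fun c hc hc' => ?_
        · rw [mem2] at hc
          simp only [Finset.mem_compl, Finset.mem_singleton]
          exact hc.1
        · have : c = b := by
            by_contra h
            simp only [Finset.mem_compl, Finset.mem_singleton] at hc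
            exact hc' (mem2.2 ⟨hc, h⟩)
          rw [this]
          have : xr (xe x) (P0 V) b b = 0 := by
            unfold xr; rw [if_pos ⟨hb.1, hb.1⟩, hw.diag]
          rw [this]; ring
      rw [Finset.sum_sub_distrib, ← Finset.sum_mul, ← Finset.mul_sum, s2, h7] at s1
      have s3 := mul_le_mul_of_nonneg_left s1 (sq_nonneg (xe x a b))
      have s4 := mul_le_mul_of_nonneg_left (hS _ hu) (kt0 t ht)
      nlinarith
    · have : xr (xe x) (P0 V) a b = 0 := by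
        by_cases h : P0 V b
        · have hab : a = b := by
            by_contra h'
            exact hb ⟨h, h'⟩
          rw [← hab]
          unfold xr
          rw [if_pos ⟨ha, ha⟩, hw.diag]
        · unfold xr; rw [if_neg fun h' => h h'.2]
      rw [this]
      have := mul_nonneg (kt0 t ht) sT0
      simpa using this
  refine (Finset.sum_le_sum fun b _ => key b).trans (le_of_eq ?_)
  unfold Qs
  rw [← Finset.mul_sum, Finset.sum_sub_distrib, ← Finset.mul_sum]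

end tt

end Pool.Agent.RZ.RCN.K
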