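import Pool.Agent.RZ.RCO.PB
import Pool.Agent.RZ.RCO.T1P
import Pool.Agent.RZ.RCO.T1R

/-! The end theorem of the first part of the inequality of the centres, with the cost of the common
neighbours distributed over the pairs of neighbours of the centre (MP_73ccd0_lc). -/

namespace Pool.Agent.RZ.RCN.K

open Set Finset MeasureTheory Pool.Agent.RZ.RCRSHalf Pool.Agent.RZ.RCG Pool.Agent.RZ.RCG.Ct
open Pool.Agent.RZ.RCN.Ker Pool.Agent.RZ.RCRS Pool.Agent.RZ.RCM.Jen

set_option linter.unusedSectionVars false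
set_option linter.unusedVariables false


section end_theorem

variable {V : Type*} [Fintype V] [DecidableEq V]
variable {x : V → V → ℝ} {P : V → Prop} [DecidablePred P] {k : Kf} {N : ℕ}
variable {κd : ℝ → ℝ → ℝ → ℝ} {R : V → V → V → ℝ → ℝ → ℝ} {L Lt : V → V → V → V → ℝ → ℝ → ℝ}
variable {a b : V} {t γ : ℝ} {κ0 Fs ρ : ℝ → ℝ} {w : V → ℝ → ℝ} {l1 l2 h1 h2 : ℝ → ℝ → ℝ → ℝ}
variable {S St : ℝ → ℝ} {BA BB : ℝ} {c2 c4 : ℝ → ℝ → ℝ → ℝ} {IA IB : ℝ → ℝ → ℝ}

/-- the rows from the columns -/
theorem Pc2.toQ2 (hp : Pc2 x P L Lt a b t c2 c4) (hf : Lf N k κd R L Lt) (hx : Wt x P 1)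
    (ht : t ∈ Icc (0 : ℝ) 1)
    (hw : Pw2 x P k κd R L Lt a b t γ κ0 Fs ρ w l1 l2 h1 h2 S St BA BB) (hab : a ≠ b)
    {ρ2 : ℝ → ℝ → ℝ} (cρ2 : ∀ z ∈ Icc (0 : ℝ) 1, ContinuousOn (ρ2 z) (Icc 0 t))
    (ρ20 : ∀ z ∈ Icc (0 : ℝ) 1, ∀ s ∈ Icc 0 t, 0 ≤ ρ2 z s)
    (hR2 : ∀ d, P d → ∀ s ∈ Icc 0 t, R a b d t s ≤ x b d * ρ2 (x b d) s)
    (hIA : ∀ y z : ℝ, 0 ≤ y → 0 ≤ z → y + z ≤ 1 →
      ∫ s in (0 : ℝ)..t, k.fh z s * κ0 s * ((1 + γ * y) * c2 y z s) ≤ IA y z)
    (hIB : ∀ y z : ℝ, 0 ≤ y → 0 ≤ z → y + z ≤ 1 →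
      ∫ s in (0 : ℝ)..t, Fs s * (ρ2 z s * c4 y z s) ≤ IB y z) :
    T1q x P k κd R L Lt a b t γ κ0 Fs
      (fun d s => if P d then (1 + γ * x a d) * c2 (x a d) (x b d) s else 0)
      (fun d s => if P d then (1 + γ * x a d) * S s else 0)
      (fun d s => if P d then ρ2 (x b d) s * c4 (x a d) (x b d) s else 0)
      (fun d s => if P d then ρ s * St s else 0)
      (fun d => if P d then IA (x a d) (x b d) else 0)
      (fun d => if P d then IB (x a d) (x b d) else 0)
      (fun d => if P d then (1 + γ * x a d) * BA else 0)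
      (fun d => if P d then BB else 0) := by
  have hdom : ∀ d, 0 ≤ x a d ∧ 0 ≤ x b d ∧ x a d + x b d ≤ 1 :=
    fun d => by
      have := two_mem hx d hab
      rw [hx.symm d a, hx.symm d b] at this
      exact ⟨hx.nonneg a d, hx.nonneg b d, this.2⟩
  have n1 : ∀ d, 0 ≤ 1 + γ * x a d := fun d => by
    have := mul_nonneg hw.γ0 (hx.nonneg a d)
    linarith
  have rp : ∀ (L : V → V → V → V → ℝ → ℝ → ℝ) (c d : V), P d → ∀ s,
      (if P c then L a b c d t s else 0) = rP P L a b c d t s := fun L c d hd s => by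
    unfold rP
    by_cases h : P c
    · rw [if_pos h, if_pos ⟨h, hd⟩]
    · rw [if_neg h, if_neg fun q => h q.1]
  have hfq : ∀ d, P d → ∀ s, fq x P k.fh b d s = k.fh (x b d) s := fun d hd s => by
    unfold fq; rw [if_pos hd]
  refine
    { γ0 := hw.γ0
      cκ0 := hw.cκ0
      k0 := hw.k0
      hκ := hw.hκ
      cFs := hw.cFs
      Fs0 := hw.Fs0
      hF := hw.hF
      crA := ?_
      ceA := ?_
      crH := ?_
      ceH := ?_
      R0 := ?_
      rL := ?_
      rI := ?_
      rT := ?_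
      rJ := ?_
      eL := ?_
      eI := ?_
      eT := ?_
      eJ := ?_ }
  · intro d
    obtain ⟨q1, q2, q3⟩ := hdom d
    by_cases h : P d
    · simp only [if_pos h]; exact continuousOn_const.mul (hp.cc2 _ _ q1 q2 q3)
    · simp only [if_neg h]; exact continuousOn_const
  · intro d
    by_cases h : P d
    · simp only [if_pos h]; exact continuousOn_const.mul hw.cS
    · simp only [if_neg h]; exact continuousOn_const
  · intro d
    obtain ⟨q1, q2, q3⟩ := hdom d
    by_cases h : P d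
    · simp only [if_pos h]; exact (cρ2 _ (x_mem hx b d)).mul (hp.cc4 _ _ q1 q2 q3)
    · simp only [if_neg h]; exact continuousOn_const
  · intro d
    by_cases h : P d
    · simp only [if_pos h]; exact hw.cρ.mul hw.cSt
    · simp only [if_neg h]; exact continuousOn_const
  · intro d _ hbd s hs
    have h3 := hw.hR d s hs
    rw [hbd, zero_mul] at h3
    exact le_antisymm h3 (hf.R0 a b d t s hs.1 hs.2 ht.2)
  · intro d hd hbd s hs
    by_cases h : P d
    · simp only [if_pos h, rp L _ d h]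
      exact mul_le_mul_of_nonneg_left (hp.q2 d hd h s hs) (n1 d)
    · simp only [if_neg h]
      have : ∀ c, L a b c d t s = 0 := fun c => (hw.pd c d h hbd s hs).1
      simp [this]
  · intro d hd
    by_cases h : P d
    · simp only [if_pos h, hfq d h]
      obtain ⟨q1, q2, q3⟩ := hdom d
      exact hIA _ _ q1 q2 q3
    · simp only [if_neg h, mul_zero, intervalIntegral.integral_zero]
      exact le_rfl
  · intro d hd hbd s hs
    by_cases h : P d
    · simp only [if_pos h, rp Lt _ d h]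
      have s0 : 0 ≤ ∑ c ∈ ({a, b, d} : Finset V)ᶜ, rP P Lt a b c d t s :=
        Finset.sum_nonneg fun c _ => by
          unfold rP
          split_ifs
          · exact hf.Lt0 a b c d t s hs.1 hs.2 ht.2
          · exact le_rfl
      calc _ ≤ x b d * ρ2 (x b d) s * c4 (x a d) (x b d) s :=
            mul_le_mul (hR2 d h s hs) (hp.q4 d hd h s hs) s0
              (mul_nonneg (hx.nonneg b d) (ρ20 _ (x_mem hx b d) s hs))
        _ = _ := by ring
    · simp only [if_neg h]
      have : ∀ c, Lt a b c d t s = 0 := fun c => (hw.pd c d h hbd s hs).2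
      simp [this]
  · intro d hd
    by_cases h : P d
    · simp only [if_pos h]
      obtain ⟨q1, q2, q3⟩ := hdom d
      exact hIB _ _ q1 q2 q3
    · simp only [if_neg h, mul_zero, intervalIntegral.integral_zero]
      exact le_rfl
  · intro d hd hbd c hc hcP s hs
    have hc' := mem3.1 hc
    have hd' := mem2.1 hd
    by_cases h : P d
    · simp only [if_pos h]
      exact mul_le_mul_of_nonneg_left (hw.eL c (mem2.2 ⟨hc'.1, hc'.2.1⟩) d
        (mem3.2 ⟨hd'.1, hd'.2, Ne.symm hc'.2.2⟩) hcP h s hs) (n1 d)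
    · simp only [if_neg h]
      rw [(hw.pd c d h hbd s hs).1, mul_zero]
  · intro d hd
    by_cases h : P d
    · simp only [if_pos h]
      have e : ∀ s, fq x P k.fh b d s * κ0 s * ((1 + γ * x a d) * S s)
          = (1 + γ * x a d) * (fq x P k.fh b d s * κ0 s * S s) := fun s => by ring
      simp only [e]
      rw [intervalIntegral.integral_const_mul]
      exact mul_le_mul_of_nonneg_left (hw.eA d hd) (n1 d)
    · simp only [if_neg h, mul_zero, intervalIntegral.integral_zero]
      exact le_rfl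
  · intro d hd hbd c hc hcP s hs
    have hc' := mem3.1 hc
    have hd' := mem2.1 hd
    by_cases h : P d
    · simp only [if_pos h]
      calc _ ≤ x b d * ρ s * St s :=
            mul_le_mul (hw.hR d s hs) (hw.eT c (mem2.2 ⟨hc'.1, hc'.2.1⟩) d
              (mem3.2 ⟨hd'.1, hd'.2, Ne.symm hc'.2.2⟩) hcP h s hs)
              (hf.Lt0 a b c d t s hs.1 hs.2 ht.2)
              (mul_nonneg (hx.nonneg b d) (hw.ρ0 s hs))
        _ = _ := by ring
    · simp only [if_neg h]
      rw [(hw.pd c d h hbd s hs).2, mul_zero, mul_zero]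
  · intro d hd
    by_cases h : P d
    · simp only [if_pos h]
      exact hw.eB
    · simp only [if_neg h, mul_zero, intervalIntegral.integral_zero]
      exact le_rfl

end end_theorem

end Pool.Agent.RZ.RCN.K
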