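import Mathlib

/-! The end theorem of the first part of the inequality of the centres: product of two means with
the diagonal separated, entries above a threshold (MP_73ccd0_lc). -/

namespace Pool.Agent.RZ.RCN.K

open Set Finset MeasureTheory

set_option linter.unusedSectionVars false
set_option linter.unusedVariables false

section star

variable {V : Type*} [Fintype V] [DecidableEq V]
variable {x : V → V → ℝ} {P : V → Prop} [DecidablePred P]

/-- the weight of a pair -/
noncomputable def jh (u y z : ℝ) : ℝ :=
  if y ≤ u then y * (1 - y - z) * (1 - y ^ 2 / u ^ 2) + y ^ 2 / u * (1 - u - z)
  else u * (1 - u - z)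

end star

section end_theorem

end end_theorem

end Pool.Agent.RZ.RCN.K
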