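import Pool.Agent.RZ.RCO.T1H
import Pool.Agent.RZ.RCO.T1W
import Pool.Agent.RZ.RCO.T1Z
import Pool.Agent.RZ.RCO.T1ZH_1

/-! The end theorem of the first part of the inequality of the centres: product of two means with
the diagonal separated, entries above a threshold (MP_73ccd0_lc). -/

namespace Pool.Agent.RZ.RCN.K

open Set Finset MeasureTheory Pool.Agent.RZ.RCRSHalf Pool.Agent.RZ.RCG Pool.Agent.RZ.RCG.Ct
open Pool.Agent.RZ.RCN.Ker Pool.Agent.RZ.RCRS Pool.Agent.RZ.RCM.Jen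

set_option linter.unusedSectionVars false
set_option linter.unusedVariables false

section star

variable {V : Type*} [Fintype V] [DecidableEq V]
variable {x : V → V → ℝ} {P : V → Prop} [DecidablePred P]

/-- **the sum over the star of `a`, distributed over the pairs**: `J` pays `A` -/
theorem star_sumH (hx : Wt x P 1) {a : V} {A J : ℝ → ℝ → ℝ → ℝ}
    (hJ : ∀ u y z : ℝ, Dm u y z →
      u ^ 2 * A u y z + y ^ 2 * A y u z ≤ u ^ 2 * J u y z + y ^ 2 * J y u z) (ha : P a) :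
    ∑ b, xr x P a b ^ 2 * ∑ c ∈ ({a, b} : Finset V)ᶜ,
        (if P c then x b c * A (xr x P a b) (x a c) (x b c) else 0)
      ≤ ∑ b, xr x P a b ^ 2 * ∑ c ∈ ({a, b} : Finset V)ᶜ,
        (if P c then x b c * J (xr x P a b) (x a c) (x b c) else 0) := by
  classical
  set u : V → ℝ := fun b => xr x P a b with hu
  have u0 : ∀ b, 0 ≤ u b := fun b => xr_nonneg hx a b
  have um : ∀ b, u b ∈ Icc (0 : ℝ) 1 := fun b => xmem1 (P := P) hx a b
  have ue : ∀ {b : V}, P b → u b = x a b := fun hb => by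
    rw [hu]; beta_reduce; unfold xr; rw [if_pos ⟨ha, hb⟩]
  have uz : ∀ {b : V}, ¬P b → u b = 0 := fun hb => by
    rw [hu]; beta_reduce; unfold xr; rw [if_neg fun h => hb h.2]
  have ua : u a = 0 := by rw [ue ha, hx.diag]
  -- the matrix
  set M : V → V → ℝ := fun b e => if P b ∧ P e ∧ a ≠ b ∧ a ≠ e ∧ b ≠ e then x b e else 0 with hM
  have M0 : ∀ b e, 0 ≤ M b e := fun b e => by
    rw [hM]; beta_reduce; split_ifs
    · exact hx.nonneg b e
    · exact le_rfl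
  have Ms : ∀ b e, M b e = M e b := fun b e => by
    rw [hM]; beta_reduce
    by_cases h : P b ∧ P e ∧ a ≠ b ∧ a ≠ e ∧ b ≠ e
    · rw [if_pos h, if_pos ⟨h.2.1, h.1, h.2.2.2.1, h.2.2.1, Ne.symm h.2.2.2.2⟩]
      exact hx.symm b e
    · rw [if_neg h, if_neg fun h' => h ⟨h'.2.1, h'.1, h'.2.2.2.1, h'.2.2.1,
        Ne.symm h'.2.2.2.2⟩]
  have h1' : ∀ J : ℝ → ℝ → ℝ → ℝ, ∀ b, u b ^ 2 * ∑ c ∈ ({a, b} : Finset V)ᶜ,
      (if P c then x b c * J (u b) (x a c) (x b c) else 0)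
      = ∑ e, M b e * (u b ^ 2 * J (u b) (u e) (x b e)) := by
    intro J b
    by_cases hb : P b ∧ a ≠ b
    · rw [← Finset.sum_subset (Finset.subset_univ (({a, b} : Finset V)ᶜ)) (fun e _ he => ?_),
        Finset.mul_sum]
      · refine Finset.sum_congr rfl fun e he => ?_
        have he' := mem2.1 he
        by_cases hP : P e
        · rw [if_pos hP, ue hP, hM]
          beta_reduce
          rw [if_pos ⟨hb.1, hP, hb.2, Ne.symm he'.1, Ne.symm he'.2⟩]
          ring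
        · rw [if_neg hP, hM]
          beta_reduce
          rw [if_neg fun h => hP h.2.1]
          ring
      · rw [hM]
        beta_reduce
        rw [mem2] at he
        rw [if_neg, zero_mul]
        intro h
        exact he ⟨Ne.symm h.2.2.2.1, Ne.symm h.2.2.2.2⟩
    · have : u b = 0 := by
        by_cases h : P b
        · have hab : a = b := by
            by_contra h'
            exact hb ⟨h, h'⟩
          rw [← hab]; exact ua
        · exact uz h
      rw [this]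
      simp
  show ∑ b, u b ^ 2 * ∑ c ∈ ({a, b} : Finset V)ᶜ,
        (if P c then x b c * A (u b) (x a c) (x b c) else 0)
      ≤ ∑ b, u b ^ 2 * ∑ c ∈ ({a, b} : Finset V)ᶜ,
        (if P c then x b c * J (u b) (x a c) (x b c) else 0)
  rw [Finset.sum_congr rfl fun b _ => h1' A b, Finset.sum_congr rfl fun b _ => h1' J b]
  -- symmetrisation
  have h2 : ∀ J : ℝ → ℝ → ℝ → ℝ, ∑ b, ∑ e, M b e * (u b ^ 2 * J (u b) (u e) (x b e))
      = ∑ b, ∑ e, M b e * (u e ^ 2 * J (u e) (u b) (x b e)) := by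
    intro J
    rw [Finset.sum_comm]
    refine Finset.sum_congr rfl fun b _ => Finset.sum_congr rfl fun e _ => ?_
    rw [Ms e b, hx.symm e b]
  have h4 : ∑ b, ∑ e, (M b e * (u b ^ 2 * A (u b) (u e) (x b e))
        + M b e * (u e ^ 2 * A (u e) (u b) (x b e)))
      ≤ ∑ b, ∑ e, (M b e * (u b ^ 2 * J (u b) (u e) (x b e))
        + M b e * (u e ^ 2 * J (u e) (u b) (x b e))) := by
    refine Finset.sum_le_sum fun b _ => Finset.sum_le_sum fun e _ => ?_
    by_cases h0 : M b e = 0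
    · rw [h0]; simp
    · have hbe : P b ∧ P e ∧ a ≠ b ∧ a ≠ e ∧ b ≠ e := by
        by_contra h
        exact h0 (by rw [hM]; beta_reduce; rw [if_neg h])
      have hd : Dm (u b) (u e) (x b e) := by
        rw [ue hbe.1, ue hbe.2.1]
        exact dm_of hx hbe.2.2.1 (mem2.2 ⟨Ne.symm hbe.2.2.2.1, Ne.symm hbe.2.2.2.2⟩)
      have := mul_le_mul_of_nonneg_left (hJ _ _ _ hd) (M0 b e)
      rw [← mul_add, ← mul_add]
      exact this
  simp only [Finset.sum_add_distrib] at h4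
  rw [← h2 A, ← h2 J] at h4
  linarith

theorem jh_nonneg {u y z : ℝ} (h : Dm u y z) : 0 ≤ jh u y z := by
  obtain ⟨u0, y0, z0, uy, uz, yz⟩ := h
  unfold jh
  split_ifs with h
  · have h1 : 0 ≤ 1 - y - z := by linarith
    have h2 : 0 ≤ 1 - u - z := by linarith
    have h3 : 0 ≤ 1 - y ^ 2 / u ^ 2 := by
      rcases eq_or_lt_of_le u0 with h0 | h0
      · rw [← h0]; simp
      · rw [sub_nonneg, div_le_one (by positivity)]
        exact pow_le_pow_left₀ y0 h 2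
    positivity
  · exact mul_nonneg u0 (by linarith)

theorem jh_sym {u y z : ℝ} (h : Dm u y z) :
    u * y * (y * (1 - u - z) + u * (1 - y - z)) ≤ u ^ 2 * jh u y z + y ^ 2 * jh y u z := by
  have key : ∀ {u y z : ℝ}, Dm u y z → y ≤ u →
      u * y * (y * (1 - u - z) + u * (1 - y - z)) ≤ u ^ 2 * jh u y z + y ^ 2 * jh y u z := by
    intro u y z h hyu
    obtain ⟨u0, y0, z0, uy, uz, yz⟩ := h
    rcases eq_or_lt_of_le u0 with h0 | h0
    · have : y = 0 := le_antisymm (hyu.trans (le_of_eq h0.symm)) y0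
      rw [this, ← h0]; simp
    have e1 : u ^ 2 * jh u y z = u ^ 2 * (y * (1 - y - z)) - y ^ 2 * (y * (1 - y - z))
        + u * (y ^ 2 * (1 - u - z)) := by
      unfold jh
      rw [if_pos hyu]
      field_simp
    have e2 : y ^ 2 * jh y u z = y ^ 2 * (y * (1 - y - z)) := by
      unfold jh
      by_cases h' : u ≤ y
      · have : u = y := le_antisymm h' hyu
        rw [if_pos h', this]
        rcases eq_or_lt_of_le y0 with hy | hy
        · rw [← hy]; simp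
        · field_simp
          ring
      · rw [if_neg h']
    rw [e1, e2]
    exact le_of_eq (by ring)
  rcases le_total y u with hyu | hyu
  · exact key h hyu
  · obtain ⟨u0, y0, z0, uy, uz, yz⟩ := h
    have := key (u := y) (y := u) (z := z) ⟨y0, u0, z0, by linarith, yz, uz⟩ hyu
    linarith

end star

section end_theorem

variable {V : Type*} [Fintype V] [DecidableEq V]
variable {x : V → V → ℝ} {P : V → Prop} [DecidablePred P] {k : Kf} {N : ℕ}
variable {κd : ℝ → ℝ → ℝ → ℝ} {R : V → V → V → ℝ → ℝ → ℝ} {L Lt : V → V → V → V → ℝ → ℝ → ℝ}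
variable {a b : V} {t γ : ℝ} {κ0 Fs ρ : ℝ → ℝ} {w : V → ℝ → ℝ} {l1 l2 h1 h2 : ℝ → ℝ → ℝ → ℝ}
variable {S St : ℝ → ℝ} {BA BB : ℝ} {c2 c4 : ℝ → ℝ → ℝ → ℝ} {IA IB : ℝ → ℝ → ℝ}

/-- rows, amplified part and linear error of one vertex, without the other common neighbours -/
noncomputable def W0h (k : Kf) (t γ : ℝ) (IA IB : ℝ → ℝ → ℝ) (κ0 Fs : ℝ → ℝ) (ρ2 : ℝ → ℝ → ℝ)
    (l1 l2 h1 h2 : ℝ → ℝ → ℝ → ℝ) (θ θh : ℝ → ℝ) (qA qB : ℝ) (HA HB RA RB : ℝ → ℝ → ℝ)
    (v r : ℝ → ℝ → ℝ → ℝ) (u y z : ℝ) : ℝ :=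
  z * ((1 + γ * u) * (IA y z + (1 - u + γ * (z * y)) * IB y z))
    + (∫ s in (0 : ℝ)..t, Bd3 k γ κ0 Fs (ρ2 z) l1 l2 h1 h2 (θ s) (θh s) u
        ((1 + γ * u) * (1 - u - z)) ((1 + γ * u) * (1 - u + γ * (z * y))) y z y z (v u y z) z s)
    + r u y z * Lh γ qA qB HA HB RA RB ((1 + γ * u) * (1 - u - z)) u y z

/-- the part of the other common neighbours -/
noncomputable def W1h (t γ : ℝ) (IB : ℝ → ℝ → ℝ) (Fs : ℝ → ℝ) (ρ2 : ℝ → ℝ → ℝ)
    (h1 h2 : ℝ → ℝ → ℝ → ℝ) (θh : ℝ → ℝ) (qB : ℝ) (HA HB RB : ℝ → ℝ → ℝ)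
    (v r : ℝ → ℝ → ℝ → ℝ) (u y z : ℝ) : ℝ :=
  γ * (1 + γ * u) * (z * IB y z
    + (∫ s in (0 : ℝ)..t, Be3 Fs (ρ2 z) h1 h2 (θh s) y z (v u y z) z s)
    + r u y z * (HA y z + (1 - u - z) * HB y z + qB * RB y z))

/-- the common neighbours other than `c`, weights at most `em` -/
theorem Nn_erX (hx : Wt x P 1) {em : ℝ} (hem : ∀ a b, P a → P b → x a b ≤ em) (ha : P a)
    (hb : P b) (hab : a ≠ b) {c : V} (hPc : P c) (hc : c ∈ ({a, b} : Finset V)ᶜ) :
    Nn x a b - x b c * x a c ≤ em * (1 - x a b - x b c) := by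
  have hc' := mem2.1 hc
  rw [← Nn_erase hc]
  have em0 : 0 ≤ em := (hx.nonneg a b).trans (hem _ _ ha hb)
  have h2 : ∀ d ∈ ({a, b, c} : Finset V)ᶜ, x b d * x a d ≤ em * x b d := by
    intro d hd
    by_cases hPd : P d
    · have := mul_le_mul_of_nonneg_left (hem _ _ ha hPd) (hx.nonneg b d)
      linarith
    · rw [pend_zero hx hab hPd]
      exact mul_nonneg em0 (hx.nonneg b d)
  refine (Finset.sum_le_sum h2).trans ?_
  rw [← Finset.mul_sum]
  refine mul_le_mul_of_nonneg_left ?_ em0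
  have := row_two hx b (a := a) (c := c) (Ne.symm hc'.1) (({a, b, c} : Finset V)ᶜ)
    fun d hd => by rw [mem3] at hd; exact ⟨hd.1, hd.2.2⟩
  rw [hx.symm b a] at this
  linarith

/-- the common neighbours, weights at most `em` -/
theorem Nn_leX (hx : Wt x P 1) {em : ℝ} (hem : ∀ a b, P a → P b → x a b ≤ em) (ha : P a)
    (hb : P b) (hab : a ≠ b) : Nn x a b ≤ em * (1 - x a b) := by
  have em0 : 0 ≤ em := (hx.nonneg a b).trans (hem _ _ ha hb)
  have h2 : ∀ d ∈ ({a, b} : Finset V)ᶜ, x b d * x a d ≤ em * x b d := by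
    intro d hd
    by_cases hPd : P d
    · have := mul_le_mul_of_nonneg_left (hem _ _ ha hPd) (hx.nonneg b d)
      linarith
    · rw [pend_zero hx hab hPd]
      exact mul_nonneg em0 (hx.nonneg b d)
  refine (Finset.sum_le_sum h2).trans ?_
  rw [← Finset.mul_sum]
  refine mul_le_mul_of_nonneg_left ?_ em0
  have r1 := row_twoS hx b hab
  rw [hx.symm b a, hx.diag b] at r1
  linarith

/-- **the sum of the amplified errors at a neighbour of the centre** -/
theorem em_sumH {α m0 m1 p0 x0 C0 C1 : ℝ} {Bm Bf ef : ℝ → ℝ → ℝ} {em : ℝ}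
    (hv : T1v k κd t em Bm Bf ef) (hem : ∀ a b, P a → P b → x a b ≤ em)
    (hf : Lf N k κd R L Lt) (hx : Wt x P 1) (hk : k.Ok)
    (hfc : ∀ y ∈ Icc (0 : ℝ) 1, ContinuousOn (k.fh y) (Icc 0 1))
    (cPe : ∀ w, ContinuousOn (k.Pe w) (Icc 0 1)) (ht : t ∈ Icc (0 : ℝ) 1)
    (ha : P a) (hb : P b) (hab : a ≠ b)
    (hA : Al k κd t α γ) (α0 : 0 ≤ α)
    (hm : ∀ y z n, De em (x a b) y z → z * y ≤ n → n ≤ z * y + em * (1 - x a b - z) →
      α * ((1 + γ * x a b) * (1 - x a b - z + γ * (n - z * y)))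
        ≤ (m0 + m1 * n) * (1 - Bf z (x a b + y)))
    (m00 : 0 ≤ m0) (m10 : 0 ≤ m1) (mp : (m0 + m1 * (em * (1 - x a b))) * p0 < 1)
    (p00 : 0 ≤ p0) (p02 : p0 ≤ 2) (x00 : 0 ≤ x0) (hp0 : 1 - Real.exp (-x0) ≤ p0)
    (C00 : 0 ≤ C0) (C10 : 0 ≤ C1)
    (cj0 : CJr C0 m0 p0) (cj1 : CJr (C0 + C1 * (em * (1 - x a b))) (m0 + m1 * (em * (1 - x a b))) p0)
    (hw : Pw2 x P k κd R L Lt a b t γ κ0 Fs ρ w l1 l2 h1 h2 S St BA BB)
    (hp : Pc2 x P L Lt a b t c2 c4)
    {ρ2 : ℝ → ℝ → ℝ} (cρ2 : ∀ z ∈ Icc (0 : ℝ) 1, ContinuousOn (ρ2 z) (Icc 0 t))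
    (ρ20 : ∀ z ∈ Icc (0 : ℝ) 1, ∀ s ∈ Icc 0 t, 0 ≤ ρ2 z s)
    (hR2 : ∀ d, P d → ∀ s ∈ Icc 0 t, R a b d t s ≤ x b d * ρ2 (x b d) s)
    (hIA : ∀ y z : ℝ, 0 ≤ y → 0 ≤ z → y + z ≤ 1 →
      ∫ s in (0 : ℝ)..t, k.fh z s * κ0 s * ((1 + γ * y) * c2 y z s) ≤ IA y z)
    (hIB : ∀ y z : ℝ, 0 ≤ y → 0 ≤ z → y + z ≤ 1 →
      ∫ s in (0 : ℝ)..t, Fs s * (ρ2 z s * c4 y z s) ≤ IB y z)
    {qA qB : ℝ} {HA HB RA RB : ℝ → ℝ → ℝ}
    (he : Eh x P k L Lt a b t γ κ0 Fs ρ qA qB HA HB RA RB)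
    (hcap : ∀ y z n, De em (x a b) y z → z * y ≤ n →
      n ≤ z * y + em * (1 - x a b - z) →
      Lh γ qA qB HA HB RA RB ((1 + γ * x a b) * (1 - x a b - z + γ * (n - z * y))) (x a b) y z
        ≤ x0 * ((m0 + m1 * n) * (1 - Bf z (x a b + y))))
    {θ θh : ℝ → ℝ} (cθ : ContinuousOn θ (Icc 0 t)) (cθh : ContinuousOn θh (Icc 0 t))
    (θ0 : ∀ s ∈ Icc 0 t, 0 < θ s) (θh0 : ∀ s ∈ Icc 0 t, 0 < θh s) {v r : ℝ → ℝ → ℝ → ℝ}
    (v0 : ∀ u y z, Dm u y z → 0 ≤ v u y z) (r0 : ∀ u y z, Dm u y z → 0 ≤ r u y z)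
    (hvr : ∀ u y z, Dm u y z → psB Bf z (u + y) ≤ v u y z + r u y z)
    (w1n : ∀ u y z, De em u y z → 0 ≤ W1h t γ IB Fs ρ2 h1 h2 θh qB HA HB RB v r u y z)
    {X : ℝ → ℝ → ℝ} {l : ℝ} (l0 : 0 < l)
    (hX : ∀ y z, De em (x a b) y z →
      C1 * W0h k t γ IA IB κ0 Fs ρ2 l1 l2 h1 h2 θ θh qA qB HA HB RA RB v r (x a b) y z
        + (C0 + C1 * (em * (1 - x a b))) * W1h t γ IB Fs ρ2 h1 h2 θh qB HA HB RB v r (x a b) y z
          ≤ z * X y z) :
    ∑ c ∈ ({a, b} : Finset V)ᶜ, emin ((xdOf x κd R L Lt).E x P k) P a b c t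
        * amp k.mb ((xdOf x κd R L Lt).E x P k) x P a b c t
      ≤ ∑ c ∈ ({a, b} : Finset V)ᶜ, (if P c then
          x b c * (ef (x b c) (x a b + x a c)
            / ((1 - Bm (x b c) (x a b + x a c)) * (1 - Bf (x b c) (x a b + x a c))))
          + (C0 + C1 * (x b c * x a c))
            * W0h k t γ IA IB κ0 Fs ρ2 l1 l2 h1 h2 θ θh qA qB HA HB RA RB v r (x a b) (x a c) (x b c)
          + x b c * ((1 - x a b - x b c) * (l / 2 * X (x a c) (x b c) ^ 2 + x a c ^ 2 / (2 * l)))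
          else 0) := by
  have γ0 := hw.γ0
  have n0 := hx.nonneg
  have u0 := n0 a b
  have u1 := (x_mem hx a b).2
  have mt1 : t ∈ Icc 0 t := ⟨ht.1, le_rfl⟩
  have m01 : (0 : ℝ) ∈ Icc 0 t := ⟨le_rfl, ht.1⟩
  have γu : 0 ≤ γ * x a b := mul_nonneg γ0 u0
  have hΛ : ∀ c, 0 ≤ LamL x P k κd R L Lt a b c t := fun c =>
    LamL_nonneg (R := R) (L := L) (Lt := Lt) hf hx hk a b c ht
  have xre : ∀ {u w : V}, P u → P w → xr x P u w = x u w := fun hu hw => by
    unfold xr; rw [if_pos ⟨hu, hw⟩]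
  have xrz : ∀ {u w : V}, ¬P w → xr x P u w = 0 := fun hw => by
    unfold xr; rw [if_neg fun h => hw h.2]
  have Nb := Nn_nonneg hx a b
  have Nb1 : Nn x a b ≤ em * (1 - x a b) := Nn_leX hx hem ha hb hab
  set n := Nn x a b with hn
  set mt := m0 + m1 * n with hmt
  set C := C0 + C1 * n with hC
  have Cn : 0 ≤ C := add_nonneg C00 (mul_nonneg C10 Nb)
  have Cle : C ≤ C0 + C1 * (em * (1 - x a b)) := by
    have := mul_le_mul_of_nonneg_left Nb1 C10
    linarith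
  have mtn : 0 ≤ mt := add_nonneg m00 (mul_nonneg m10 Nb)
  have cj : CJr C mt p0 := CJr_lin cj0 cj1 p02 C10 m10 Nb Nb1
  have mtp : mt * p0 < 1 := by
    have h1 : mt ≤ m0 + m1 * (em * (1 - x a b)) := by
      have := mul_le_mul_of_nonneg_left Nb1 m10
      linarith
    exact lt_of_le_of_lt (mul_le_mul_of_nonneg_right h1 p00) mp
  -- the rows
  have hq := hp.toQ2 hf hx ht hw hab cρ2 ρ20 hR2 hIA hIB
  -- one entry
  have ent : ∀ c ∈ ({a, b} : Finset V)ᶜ, P c → LamL x P k κd R L Lt a b c t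
      ≤ Lh γ qA qB HA HB RA RB (My x γ a b c) (x a b) (x a c) (x b c) := fun c hc hPc =>
    LamL_entH hf hx hk hfc ht hab hw hq he hc hPc
  have hE : ∀ c ∈ ({a, b} : Finset V)ᶜ, emin ((xdOf x κd R L Lt).E x P k) P a b c t
        * amp k.mb ((xdOf x κd R L Lt).E x P k) x P a b c t
      ≤ (if P c then x b c * (ef (x b c) (x a b + x a c)
          / ((1 - Bm (x b c) (x a b + x a c)) * (1 - Bf (x b c) (x a b + x a c)))) else 0)
        + C * (if P c then LamL x P k κd R L Lt a b c t else 0)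
        + C * ((if P c then v (x a b) (x a c) (x b c) else 0) * LamL x P k κd R L Lt a b c t)
        + C * (if P c then r (x a b) (x a c) (x b c)
          * (Lh γ qA qB HA HB RA RB (My x γ a b c) (x a b) (x a c) (x b c)) else 0) := by
    intro c hc
    have hc' := mem2.1 hc
    have hd := dm_of hx hab hc
    by_cases hPc : P c
    · simp only [if_pos hPc]
      have M0 := My_nonneg hx γ0 hc
      obtain ⟨dd1, dd2, dd3, dd4, dd5, dd6⟩ := hd
      have hN1 : x b c * x a c ≤ n := by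
        have h1 : 0 ≤ n - x b c * x a c := by
          rw [hn, ← Nn_erase hc]
          exact Finset.sum_nonneg fun d _ => mul_nonneg (hx.nonneg b d) (hx.nonneg a d)
        linarith
      have hN2 : n ≤ x b c * x a c + em * (1 - x a b - x b c) := by
        have := Nn_erX hx hem ha hb hab hPc hc
        linarith
      have hd := dm_of hx hab hc
      have hde := de_of hx hem ha hb hab hPc hc
      have hmass : α * My x γ a b c ≤ mt * (1 - Bf (x b c) (x a b + x a c)) := by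
        unfold My
        exact hm _ _ _ hde hN1 hN2
      have hmu : muL x P k κd a b c t t ≤ mt * (1 - Bf (x b c) (x a b + x a c)) :=
        (muL_leY' hf hx hfc ht hA α0 γ0 hc).trans hmass
      have cap : LamL x P k κd R L Lt a b c t
          ≤ x0 * (mt * (1 - Bf (x b c) (x a b + x a c))) := by
        refine (ent c hc hPc).trans ?_
        unfold My
        exact hcap _ _ _ hde hN1 hN2
      have e1 := em_entryY hv hem hf hx hk hfc cPe ht ha hb hPc hab (Ne.symm hc'.1)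
        (Ne.symm hc'.2) cj Cn mtn mtp x00 hp0 hmu cap
      have e2 : psB Bf (x b c) (x a b + x a c) * LamL x P k κd R L Lt a b c t
          ≤ v (x a b) (x a c) (x b c) * LamL x P k κd R L Lt a b c t
            + r (x a b) (x a c) (x b c) * (Lh γ qA qB HA HB RA RB (My x γ a b c) (x a b) (x a c) (x b c)) := by
        have i1 := mul_le_mul_of_nonneg_right (hvr _ _ _ hd) (hΛ c)
        have i2 := mul_le_mul_of_nonneg_left (ent c hc hPc) (r0 _ _ _ hd)
        rw [add_mul] at i1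
        linarith
      have e3 := mul_le_mul_of_nonneg_left e2 Cn
      linarith
    · have ee : emin ((xdOf x κd R L Lt).E x P k) P a b c t = 0 := by
        unfold emin; rw [if_neg hPc]
      simp only [if_neg hPc]
      rw [ee]
      simp
  refine (Finset.sum_le_sum hE).trans ?_
  rw [Finset.sum_add_distrib, Finset.sum_add_distrib, Finset.sum_add_distrib,
    ← Finset.mul_sum, ← Finset.mul_sum, ← Finset.mul_sum]
  have s1 := lam_rowN hf hx hk hfc ht hq
  -- the amplified part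
  set v' : V → ℝ := fun c => if P c ∧ c ∈ ({a, b} : Finset V)ᶜ then
    v (x a b) (x a c) (x b c) else 0 with hv'
  have v'0 : ∀ c, 0 ≤ v' c := by
    intro c
    rw [hv']; beta_reduce
    split_ifs with h
    · exact v0 _ _ _ (dm_of hx hab h.2)
    · exact le_rfl
  have v'z : ∀ c, ¬P c → v' c = 0 := fun c hc => by
    rw [hv']; beta_reduce; rw [if_neg fun h => hc h.1]
  have s2 := lam_sideY hf hx hk hfc ht hw ha hb hab cρ2 ρ20 hR2 cθ cθh θ0 θh0 v' v'0 v'z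
  have e1 : ∑ c ∈ ({a, b} : Finset V)ᶜ, (if P c then v (x a b) (x a c) (x b c) else 0)
        * LamL x P k κd R L Lt a b c t
      = ∑ c ∈ ({a, b} : Finset V)ᶜ, v' c * LamL x P k κd R L Lt a b c t := by
    refine Finset.sum_congr rfl fun c hc => ?_
    rw [hv']; beta_reduce
    by_cases hPc : P c
    · rw [if_pos hPc, if_pos ⟨hPc, hc⟩]
    · rw [if_neg hPc, if_neg fun h => hPc h.1]
  -- the linear dependence on the masses
  have ib : ∀ c ∈ ({a, b} : Finset V)ᶜ, P c →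
      (∫ s in (0 : ℝ)..t, Bd3 k γ κ0 Fs (ρ2 (x b c)) l1 l2 h1 h2 (θ s) (θh s) (x a b)
        (My x γ a b c) (Mn0 x γ a b) (x a c) (x b c) (x a c) (x b c)
        (v (x a b) (x a c) (x b c)) (x b c) s)
      = (∫ s in (0 : ℝ)..t, Bd3 k γ κ0 Fs (ρ2 (x b c)) l1 l2 h1 h2 (θ s) (θh s) (x a b)
          ((1 + γ * x a b) * (1 - x a b - x b c))
          ((1 + γ * x a b) * (1 - x a b + γ * (x b c * x a c)))
          (x a c) (x b c) (x a c) (x b c) (v (x a b) (x a c) (x b c)) (x b c) s)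
        + (n - x b c * x a c) * (γ * (1 + γ * x a b) * ∫ s in (0 : ℝ)..t, Be3 Fs (ρ2 (x b c)) h1 h2 (θh s) (x a c) (x b c)
          (v (x a b) (x a c) (x b c)) (x b c) s) := by
    intro c hc hPc
    obtain ⟨_, q1, q2, _, _, q3⟩ := dm_of hx hab hc
    have c1 : ContinuousOn (k.fh (x b c)) (Icc 0 t) :=
      (hfc _ (x_mem hx b c)).mono (Icc_subset_Icc_right ht.2)
    have c4 := hw.cκ0
    have c5 := hw.cFs
    have c6 := cρ2 _ (x_mem hx b c)
    have j1 := hw.cl1 _ _ q1 q2 q3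
    have j2 := hw.cl2 _ _ q1 q2 q3
    have j3 := hw.ch1 _ _ q1 q2 q3
    have j4 := hw.ch2 _ _ q1 q2 q3
    have ci : ContinuousOn (fun s => (θ s)⁻¹) (Icc 0 t) := cθ.inv₀ fun s hs => (θ0 s hs).ne'
    have cih : ContinuousOn (fun s => (θh s)⁻¹) (Icc 0 t) := cθh.inv₀ fun s hs => (θh0 s hs).ne'
    have cB : ∀ Mc Mb vv : ℝ, ContinuousOn (fun s => Bd3 k γ κ0 Fs (ρ2 (x b c)) l1 l2 h1 h2
        (θ s) (θh s) (x a b) Mc Mb (x a c) (x b c) (x a c) (x b c) vv (x b c) s)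
        (Icc 0 t) := fun Mc Mb vv =>
      ((((c4.mul continuousOn_const).mul (((cθ.mul
        continuousOn_const).mul j1).add ((ci.mul ((continuousOn_const.mul c1).pow 2)).mul
        j2))).add (c5.mul ((((cθh.mul continuousOn_const).mul continuousOn_const).mul j3).add
        (((cih.mul ((continuousOn_const.mul c6).pow 2)).mul continuousOn_const).mul
        j4)))).div_const 2)
    have cE : ∀ vv : ℝ, ContinuousOn (fun s => Be3 Fs (ρ2 (x b c)) h1 h2 (θh s) (x a c) (x b c) vv (x b c) s)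
        (Icc 0 t) := fun vv =>
      (c5.mul (((cθh.mul continuousOn_const).mul j3).add
        ((cih.mul ((continuousOn_const.mul c6).pow 2)).mul j4))).div_const 2
    have hadd := intervalIntegral.integral_add (μ := volume) (a := 0) (b := t)
      (f := fun s => Bd3 k γ κ0 Fs (ρ2 (x b c)) l1 l2 h1 h2 (θ s) (θh s) (x a b)
          ((1 + γ * x a b) * (1 - x a b - x b c))
          ((1 + γ * x a b) * (1 - x a b + γ * (x b c * x a c)))
          (x a c) (x b c) (x a c) (x b c) (v (x a b) (x a c) (x b c)) (x b c) s)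
      (g := fun s => ((n - x b c * x a c) * (γ * (1 + γ * x a b))) * Be3 Fs (ρ2 (x b c)) h1 h2 (θh s) (x a c) (x b c)
          (v (x a b) (x a c) (x b c)) (x b c) s)
      (ii_of ht.1 (cB _ _ _) m01 mt1)
      (ii_of ht.1 (continuousOn_const.mul (cE _)) m01 mt1)
    rw [intervalIntegral.integral_const_mul] at hadd
    rw [← mul_assoc (n - x b c * x a c), ← hadd]
    refine intervalIntegral.integral_congr fun s _ => ?_
    show _ = _
    unfold Bd3 Be3 My Mn0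
    ring
  have e2 : ∑ c ∈ ({a, b} : Finset V)ᶜ, (∫ s in (0 : ℝ)..t,
          Bd3 k γ κ0 Fs (ρ2 (xr x P b c)) l1 l2 h1 h2 (θ s) (θh s) (x a b) (My x γ a b c)
            (Mn0 x γ a b) (xr x P a c) (xr x P b c) (x a c) (x b c) (v' c) (xr x P b c) s)
      = ∑ c ∈ ({a, b} : Finset V)ᶜ, (if P c then
          ((∫ s in (0 : ℝ)..t, Bd3 k γ κ0 Fs (ρ2 (x b c)) l1 l2 h1 h2 (θ s) (θh s) (x a b)
          ((1 + γ * x a b) * (1 - x a b - x b c))
          ((1 + γ * x a b) * (1 - x a b + γ * (x b c * x a c)))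
          (x a c) (x b c) (x a c) (x b c) (v (x a b) (x a c) (x b c)) (x b c) s)
        + (n - x b c * x a c) * (γ * (1 + γ * x a b) * ∫ s in (0 : ℝ)..t, Be3 Fs (ρ2 (x b c)) h1 h2 (θh s) (x a c) (x b c)
          (v (x a b) (x a c) (x b c)) (x b c) s)) else 0) := by
    refine Finset.sum_congr rfl fun c hc => ?_
    by_cases hPc : P c
    · rw [if_pos hPc, ← ib c hc hPc, xre ha hPc, xre hb hPc, hv']
      beta_reduce
      rw [if_pos ⟨hPc, hc⟩]
    · rw [if_neg hPc, v'z c hPc, xrz hPc, xrz hPc]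
      have : ∀ s, Bd3 k γ κ0 Fs (ρ2 0) l1 l2 h1 h2 (θ s) (θh s) (x a b) (My x γ a b c)
          (Mn0 x γ a b) 0 0 (x a c) (x b c) 0 0 s = 0 := by
        intro s
        unfold Bd3
        simp
      simp only [this]
      simp
  rw [e2] at s2
  have e3 : ∑ d ∈ ({a, b} : Finset V)ᶜ, x b d * ((1 + γ * x a b)
        * (if P d then IA (x a d) (x b d) else 0)
          + Mn0 x γ a b * (if P d then IB (x a d) (x b d) else 0))
      = ∑ c ∈ ({a, b} : Finset V)ᶜ, (if P c then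
          (x b c * ((1 + γ * x a b) * (IA (x a c) (x b c) + (1 - x a b + γ * (x b c * x a c))
            * IB (x a c) (x b c)))
          + (n - x b c * x a c) * (γ * (1 + γ * x a b) * (x b c * IB (x a c) (x b c)))) else 0) := by
    refine Finset.sum_congr rfl fun c _ => ?_
    by_cases hPc : P c
    · simp only [if_pos hPc]
      unfold Mn0
      ring
    · simp only [if_neg hPc]
      ring
  rw [e3] at s1
  rw [e1]
  have t1 := mul_le_mul_of_nonneg_left s1 Cn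
  have t2 := mul_le_mul_of_nonneg_left s2 Cn
  -- the total of one vertex
  set W0 : V → ℝ := fun c => W0h k t γ IA IB κ0 Fs ρ2 l1 l2 h1 h2 θ θh qA qB HA HB RA RB v r
    (x a b) (x a c) (x b c) with hW0
  set W1 : V → ℝ := fun c => W1h t γ IB Fs ρ2 h1 h2 θh qB HA HB RB v r (x a b) (x a c) (x b c)
    with hW1
  have e4 : C * ∑ c ∈ ({a, b} : Finset V)ᶜ, (if P c then
          (x b c * ((1 + γ * x a b) * (IA (x a c) (x b c) + (1 - x a b + γ * (x b c * x a c))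
            * IB (x a c) (x b c)))
          + (n - x b c * x a c) * (γ * (1 + γ * x a b) * (x b c * IB (x a c) (x b c)))) else 0)
      + C * ∑ c ∈ ({a, b} : Finset V)ᶜ, (if P c then
          ((∫ s in (0 : ℝ)..t, Bd3 k γ κ0 Fs (ρ2 (x b c)) l1 l2 h1 h2 (θ s) (θh s) (x a b)
          ((1 + γ * x a b) * (1 - x a b - x b c))
          ((1 + γ * x a b) * (1 - x a b + γ * (x b c * x a c)))
          (x a c) (x b c) (x a c) (x b c) (v (x a b) (x a c) (x b c)) (x b c) s)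
        + (n - x b c * x a c) * (γ * (1 + γ * x a b) * ∫ s in (0 : ℝ)..t, Be3 Fs (ρ2 (x b c)) h1 h2 (θh s) (x a c) (x b c)
          (v (x a b) (x a c) (x b c)) (x b c) s)) else 0)
      + C * ∑ c ∈ ({a, b} : Finset V)ᶜ, (if P c then r (x a b) (x a c) (x b c)
          * (Lh γ qA qB HA HB RA RB (My x γ a b c) (x a b) (x a c) (x b c)) else 0)
      = ∑ c ∈ ({a, b} : Finset V)ᶜ,
        (if P c then (C * W0 c + C * ((n - x b c * x a c) * W1 c)) else 0) := by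
    rw [Finset.mul_sum, Finset.mul_sum, Finset.mul_sum, ← Finset.sum_add_distrib,
      ← Finset.sum_add_distrib]
    refine Finset.sum_congr rfl fun c _ => ?_
    by_cases hPc : P c
    · simp only [if_pos hPc]
      rw [hW0, hW1]
      beta_reduce
      unfold W0h W1h Lh My
      ring
    · simp only [if_neg hPc]
      ring
  set Y : V → ℝ := fun c => if P c then X (x a c) (x b c) else 0 with hY
  have e5 : ∀ c ∈ ({a, b} : Finset V)ᶜ,
      (if P c then (C * W0 c + C * ((n - x b c * x a c) * W1 c)) else 0)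
      ≤ (if P c then (C0 + C1 * (x b c * x a c)) * W0 c else 0)
        + ∑ d ∈ ({a, b, c} : Finset V)ᶜ, x b c * x b d * (l / 2 * Y c ^ 2 + x a d ^ 2 / (2 * l)) := by
    intro c hc
    have hd := dm_of hx hab hc
    have q0 : ∀ d, 0 ≤ x b c * x b d * (l / 2 * Y c ^ 2 + x a d ^ 2 / (2 * l)) := fun d =>
      mul_nonneg (mul_nonneg (n0 b c) (n0 b d)) (by positivity)
    by_cases hPc : P c
    · simp only [if_pos hPc]
      have hde := de_of hx hem ha hb hab hPc hc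
      have i1 := w1n _ _ _ hde
      have i2 := hX _ _ hde
      have i3 : C * W1 c ≤ (C0 + C1 * (em * (1 - x a b))) * W1 c := mul_le_mul_of_nonneg_right Cle i1
      have nc : n - x b c * x a c = ∑ d ∈ ({a, b, c} : Finset V)ᶜ, x b d * x a d := by
        rw [hn, Nn_erase hc]
      have nc0 : 0 ≤ n - x b c * x a c := by
        rw [nc]
        exact Finset.sum_nonneg fun d _ => mul_nonneg (n0 b d) (n0 a d)
      have i4 := mul_le_mul_of_nonneg_left i3 nc0
      have i5 := mul_le_mul_of_nonneg_left i2 nc0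
      have i6 : (n - x b c * x a c) * (C1 * W0 c + (C0 + C1 * (em * (1 - x a b))) * W1 c)
          ≤ (n - x b c * x a c) * (x b c * X (x a c) (x b c)) := i5
      have i7 : C * W0 c = (C0 + C1 * (x b c * x a c)) * W0 c
          + (n - x b c * x a c) * (C1 * W0 c) := by rw [hC]; ring
      have i8 : (n - x b c * x a c) * (x b c * X (x a c) (x b c))
          ≤ ∑ d ∈ ({a, b, c} : Finset V)ᶜ, x b c * x b d
            * (l / 2 * Y c ^ 2 + x a d ^ 2 / (2 * l)) := by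
        rw [nc, Finset.sum_mul]
        refine Finset.sum_le_sum fun d _ => ?_
        have y1 : Y c = X (x a c) (x b c) := by rw [hY]; beta_reduce; rw [if_pos hPc]
        rw [y1]
        have j1 : x a d * X (x a c) (x b c)
            ≤ l / 2 * X (x a c) (x b c) ^ 2 + x a d ^ 2 / (2 * l) := by
          have : l / 2 * X (x a c) (x b c) ^ 2 + x a d ^ 2 / (2 * l)
              - x a d * X (x a c) (x b c) = (l * X (x a c) (x b c) - x a d) ^ 2 / (2 * l) := by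
            field_simp
            ring
          have h2 : 0 ≤ (l * X (x a c) (x b c) - x a d) ^ 2 / (2 * l) := by positivity
          linarith
        have j2 := mul_le_mul_of_nonneg_left j1 (mul_nonneg (n0 b c) (n0 b d))
        calc _ = x b c * x b d * (x a d * X (x a c) (x b c)) := by ring
          _ ≤ _ := j2
      rw [i7]
      nlinarith
    · simp only [if_neg hPc, zero_add]
      exact Finset.sum_nonneg fun d _ => q0 d
  have e6 := Finset.sum_le_sum e5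
  rw [Finset.sum_add_distrib] at e6
  -- the double sum
  have rr0 : ∀ c ∈ ({a, b} : Finset V)ᶜ, ∑ d ∈ ({a, b, c} : Finset V)ᶜ, x b d
      ≤ 1 - x a b - x b c := fun c hc => by
    have hc' := mem2.1 hc
    have := row_two hx b (a := a) (c := c) (Ne.symm hc'.1) (({a, b, c} : Finset V)ᶜ) fun d hd => by
      rw [mem3] at hd; exact ⟨hd.1, hd.2.2⟩
    rw [hx.symm b a] at this
    linarith
  have e7 : ∑ c ∈ ({a, b} : Finset V)ᶜ, ∑ d ∈ ({a, b, c} : Finset V)ᶜ,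
        x b c * x b d * (l / 2 * Y c ^ 2 + x a d ^ 2 / (2 * l))
      ≤ ∑ c ∈ ({a, b} : Finset V)ᶜ, (if P c then x b c * ((1 - x a b - x b c)
        * (l / 2 * X (x a c) (x b c) ^ 2 + x a c ^ 2 / (2 * l))) else 0) := by
    have f1 : ∑ c ∈ ({a, b} : Finset V)ᶜ, ∑ d ∈ ({a, b, c} : Finset V)ᶜ,
          x b c * x b d * (l / 2 * Y c ^ 2 + x a d ^ 2 / (2 * l))
        = ∑ c ∈ ({a, b} : Finset V)ᶜ, ∑ d ∈ ({a, b, c} : Finset V)ᶜ,
            x b c * (l / 2 * Y c ^ 2) * x b d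
          + ∑ c ∈ ({a, b} : Finset V)ᶜ, ∑ d ∈ ({a, b, c} : Finset V)ᶜ,
            x b d * (x a d ^ 2 / (2 * l)) * x b c := by
      rw [← Finset.sum_add_distrib]
      refine Finset.sum_congr rfl fun c _ => ?_
      rw [← Finset.sum_add_distrib]
      exact Finset.sum_congr rfl fun d _ => by ring
    have f2 : ∑ c ∈ ({a, b} : Finset V)ᶜ, ∑ d ∈ ({a, b, c} : Finset V)ᶜ,
            x b d * (x a d ^ 2 / (2 * l)) * x b c
        = ∑ c ∈ ({a, b} : Finset V)ᶜ, ∑ d ∈ ({a, b, c} : Finset V)ᶜ,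
            x b c * (x a c ^ 2 / (2 * l)) * x b d := by
      refine Finset.sum_comm' fun c d => ?_
      rw [mem2, mem3, mem3, mem2]
      constructor
      · rintro ⟨⟨h1, h2⟩, h3, h4, h5⟩
        exact ⟨⟨h1, h2, Ne.symm h5⟩, h3, h4⟩
      · rintro ⟨⟨h1, h2, h5⟩, h3, h4⟩
        exact ⟨⟨h1, h2⟩, h3, h4, Ne.symm h5⟩
    rw [f1, f2, ← Finset.sum_add_distrib]
    refine Finset.sum_le_sum fun c hc => ?_
    rw [← Finset.mul_sum, ← Finset.mul_sum, ← add_mul]
    by_cases hPc : P c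
    · rw [if_pos hPc]
      have y1 : Y c = X (x a c) (x b c) := by rw [hY]; beta_reduce; rw [if_pos hPc]
      rw [y1]
      have := mul_le_mul_of_nonneg_left (rr0 c hc) (show 0 ≤ x b c * (l / 2 * X (x a c) (x b c) ^ 2)
        + x b c * (x a c ^ 2 / (2 * l)) from add_nonneg (mul_nonneg (n0 b c) (by positivity))
          (mul_nonneg (n0 b c) (by positivity)))
      refine this.trans (le_of_eq (by ring))
    · rw [if_neg hPc]
      have y1 : Y c = 0 := by rw [hY]; beta_reduce; rw [if_neg hPc]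
      rw [y1]
      have h0 := pend_zero hx hab hPc
      have : x b c * (x a c ^ 2 / (2 * l)) = 0 := by
        calc _ = x b c * x a c * (x a c / (2 * l)) := by ring
          _ = 0 := by rw [h0, zero_mul]
      rw [this]
      simp
  have e8 : ∑ c ∈ ({a, b} : Finset V)ᶜ, (if P c then
          x b c * (ef (x b c) (x a b + x a c)
            / ((1 - Bm (x b c) (x a b + x a c)) * (1 - Bf (x b c) (x a b + x a c))))
          + (C0 + C1 * (x b c * x a c))
            * W0h k t γ IA IB κ0 Fs ρ2 l1 l2 h1 h2 θ θh qA qB HA HB RA RB v r (x a b) (x a c) (x b c)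
          + x b c * ((1 - x a b - x b c) * (l / 2 * X (x a c) (x b c) ^ 2 + x a c ^ 2 / (2 * l)))
          else 0)
      = ∑ c ∈ ({a, b} : Finset V)ᶜ, (if P c then x b c * (ef (x b c) (x a b + x a c)
          / ((1 - Bm (x b c) (x a b + x a c)) * (1 - Bf (x b c) (x a b + x a c)))) else 0)
        + ∑ c ∈ ({a, b} : Finset V)ᶜ, (if P c then (C0 + C1 * (x b c * x a c)) * W0 c else 0)
        + ∑ c ∈ ({a, b} : Finset V)ᶜ, (if P c then x b c * ((1 - x a b - x b c)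
        * (l / 2 * X (x a c) (x b c) ^ 2 + x a c ^ 2 / (2 * l))) else 0) := by
    rw [← Finset.sum_add_distrib, ← Finset.sum_add_distrib]
    refine Finset.sum_congr rfl fun c _ => ?_
    by_cases hPc : P c
    · simp only [if_pos hPc, hW0]
    · simp only [if_neg hPc, add_zero]
  rw [e8]
  linarith

/-- the symmetrised first part with the pairs of neighbours -/
theorem t1_topH {ch g : ℝ → ℝ}
    (hf : Lf N k κd R L Lt) (hx : Wt x P 1) (hk : k.Ok)
    (hms : ∀ x y z t, k.mb x y z t = k.mb y x z t) (ht : t ∈ Icc (0 : ℝ) 1)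
    (ha : P a)
    (hgap : ∀ b d, P b → P d → a ≠ b → a ≠ d → b ≠ d →
      k.mb (xr x P a b) (xr x P a d) (xr x P b d) t
        + min ((xdOf x κd R L Lt).E x P k a b d t) ((xdOf x κd R L Lt).E x P k a d b t) ≤ 1)
    (ch1 : ∀ y ∈ Icc (0 : ℝ) 1, (1 + t) * k.fh y t ≤ ch y)
    (ch0 : ∀ y ∈ Icc (0 : ℝ) 1, 0 ≤ ch y)
    (hg : ∀ y z : ℝ, 0 ≤ y → 0 ≤ z → y + z ≤ 1 →
      y * z * (ch y + ch z) ≤ y ^ 2 * g y + z ^ 2 * g z)
    (g0 : ∀ y ∈ Icc (0 : ℝ) 1, 0 ≤ g y) {Φ : V → V → ℝ} {A J : ℝ → ℝ → ℝ → ℝ}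
    {F1 : ℝ → ℝ → ℝ → ℝ}
    (hsum : ∀ b, P b → a ≠ b → ∑ c ∈ ({a, b} : Finset V)ᶜ,
        emin ((xdOf x κd R L Lt).E x P k) P a b c t
          * amp k.mb ((xdOf x κd R L Lt).E x P k) x P a b c t
      ≤ ∑ c ∈ ({a, b} : Finset V)ᶜ, Φ b c)
    (hfin : ∀ b, P b → a ≠ b → x a b ≠ 0 → ∀ c ∈ ({a, b} : Finset V)ᶜ,
      g (x a b) * Φ b c + (if P c then x b c * J (x a b) (x a c) (x b c) else 0)
        ≤ x b c * F1 (x a b) (x a c) (xr x P b c)
          + (if P c then x b c * A (x a b) (x a c) (x b c) else 0))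
    (hJ : ∀ u y z : ℝ, Dm u y z →
      u ^ 2 * A u y z + y ^ 2 * A y u z ≤ u ^ 2 * J u y z + y ^ 2 * J y u z) :
    ∑ b, xr x P a b * ∑ d ∈ ({a, b} : Finset V)ᶜ,
        wS k.fh k.mb ((xdOf x κd R L Lt).E x P k) x P a b d t
      ≤ ∑ b, xr x P a b ^ 2 * ∑ c ∈ ({a, b} : Finset V)ᶜ,
        x b c * F1 (x a b) (x a c) (xr x P b c) := by
  refine (t1_core hf hx hk hms ht ha hgap ch1 ch0 hg g0 hsum).trans ?_
  have st := star_sumH hx hJ ha
  have h1 : ∀ b, xr x P a b ^ 2 * (g (xr x P a b) * ∑ c ∈ ({a, b} : Finset V)ᶜ, Φ b c)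
      ≤ xr x P a b ^ 2 * ∑ c ∈ ({a, b} : Finset V)ᶜ, x b c * F1 (x a b) (x a c) (xr x P b c)
        + (xr x P a b ^ 2 * ∑ c ∈ ({a, b} : Finset V)ᶜ,
            (if P c then x b c * A (xr x P a b) (x a c) (x b c) else 0)
          - xr x P a b ^ 2 * ∑ c ∈ ({a, b} : Finset V)ᶜ,
            (if P c then x b c * J (xr x P a b) (x a c) (x b c) else 0)) := by
    intro b
    by_cases hb : P b ∧ a ≠ b ∧ x a b ≠ 0
    · have xe : xr x P a b = x a b := by unfold xr; rw [if_pos ⟨ha, hb.1⟩]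
      rw [xe]
      have s1 : g (x a b) * ∑ c ∈ ({a, b} : Finset V)ᶜ, Φ b c
          + ∑ c ∈ ({a, b} : Finset V)ᶜ, (if P c then x b c * J (x a b) (x a c) (x b c) else 0)
          ≤ ∑ c ∈ ({a, b} : Finset V)ᶜ, x b c * F1 (x a b) (x a c) (xr x P b c)
            + ∑ c ∈ ({a, b} : Finset V)ᶜ,
              (if P c then x b c * A (x a b) (x a c) (x b c) else 0) := by
        rw [Finset.mul_sum, ← Finset.sum_add_distrib, ← Finset.sum_add_distrib]
        exact Finset.sum_le_sum fun c hc => hfin b hb.1 hb.2.1 hb.2.2 c hc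
      have s2 := mul_le_mul_of_nonneg_left s1 (sq_nonneg (x a b))
      rw [mul_add, mul_add] at s2
      linarith
    · have : xr x P a b = 0 := by
        by_cases h : P b
        · by_cases h2 : x a b = 0
          · unfold xr; rw [if_pos ⟨ha, h⟩, h2]
          · have hab : a = b := by
              by_contra h'
              exact hb ⟨h, h', h2⟩
            rw [← hab]
            unfold xr
            rw [if_pos ⟨ha, ha⟩, hx.diag]
        · unfold xr; rw [if_neg fun h' => h h'.2]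
      rw [this]
      simp
  refine (Finset.sum_le_sum fun b _ => h1 b).trans ?_
  rw [Finset.sum_add_distrib, Finset.sum_sub_distrib]
  linarith

/-- **the first part of the inequality of the centres**: `F1` bounds the contribution of a triple
with the weights `u = x a b`, `y = x a c`, `z = x b c` -/
theorem t1_endH {α : ℝ} {m0 m1 C0 C1 p0 x0 : ℝ → ℝ} {Bm Bf ef : ℝ → ℝ → ℝ} {em : ℝ}
    (hv : T1v k κd t em Bm Bf ef) (hem : ∀ a b, P a → P b → x a b ≤ em)
    (hf : Lf N k κd R L Lt) (hx : Wt x P 1) (hk : k.Ok)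
    (hfc : ∀ y ∈ Icc (0 : ℝ) 1, ContinuousOn (k.fh y) (Icc 0 1))
    (cPe : ∀ w, ContinuousOn (k.Pe w) (Icc 0 1)) (ht : t ∈ Icc (0 : ℝ) 1)
    (ha : P a) (hA : Al k κd t α γ) (α0 : 0 ≤ α)
    (hm : ∀ u y z n, De em u y z → z * y ≤ n → n ≤ z * y + em * (1 - u - z) → α * ((1 + γ * u) * (1 - u - z + γ * (n - z * y)))
        ≤ (m0 u + m1 u * n) * (1 - Bf z (u + y)))
    (m00 : ∀ u ∈ Icc (0 : ℝ) em, 0 ≤ m0 u) (m10 : ∀ u ∈ Icc (0 : ℝ) em, 0 ≤ m1 u)
    (mp : ∀ u ∈ Icc (0 : ℝ) em, (m0 u + m1 u * (em * (1 - u))) * p0 u < 1)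
    (p00 : ∀ u ∈ Icc (0 : ℝ) em, 0 ≤ p0 u) (p02 : ∀ u ∈ Icc (0 : ℝ) em, p0 u ≤ 2)
    (x00 : ∀ u ∈ Icc (0 : ℝ) em, 0 ≤ x0 u)
    (hp0 : ∀ u ∈ Icc (0 : ℝ) em, 1 - Real.exp (-(x0 u)) ≤ p0 u)
    (C00 : ∀ u ∈ Icc (0 : ℝ) em, 0 ≤ C0 u) (C10 : ∀ u ∈ Icc (0 : ℝ) em, 0 ≤ C1 u)
    (cj0 : ∀ u ∈ Icc (0 : ℝ) em, CJr (C0 u) (m0 u) (p0 u))
    (cj1 : ∀ u ∈ Icc (0 : ℝ) em, CJr (C0 u + C1 u * (em * (1 - u)))
      (m0 u + m1 u * (em * (1 - u))) (p0 u))
    {w : V → V → ℝ → ℝ}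
    (hw : ∀ b, P b → a ≠ b →
      Pw2 x P k κd R L Lt a b t γ κ0 Fs ρ (w b) l1 l2 h1 h2 S St BA BB)
    (hp : ∀ b, P b → a ≠ b → Pc2 x P L Lt a b t c2 c4)
    {ρ2 : ℝ → ℝ → ℝ} (cρ2 : ∀ z ∈ Icc (0 : ℝ) 1, ContinuousOn (ρ2 z) (Icc 0 t))
    (ρ20 : ∀ z ∈ Icc (0 : ℝ) 1, ∀ s ∈ Icc 0 t, 0 ≤ ρ2 z s)
    (hR2 : ∀ b d, P b → a ≠ b → P d → ∀ s ∈ Icc 0 t, R a b d t s ≤ x b d * ρ2 (x b d) s)
    (hIA : ∀ y z : ℝ, 0 ≤ y → 0 ≤ z → y + z ≤ 1 →
      ∫ s in (0 : ℝ)..t, k.fh z s * κ0 s * ((1 + γ * y) * c2 y z s) ≤ IA y z)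
    (hIB : ∀ y z : ℝ, 0 ≤ y → 0 ≤ z → y + z ≤ 1 →
      ∫ s in (0 : ℝ)..t, Fs s * (ρ2 z s * c4 y z s) ≤ IB y z)
    {qA qB : ℝ} {HA HB RA RB : ℝ → ℝ → ℝ}
    (he : ∀ b, P b → a ≠ b → Eh x P k L Lt a b t γ κ0 Fs ρ qA qB HA HB RA RB)
    (hcap : ∀ u y z n, De em u y z → z * y ≤ n →
      n ≤ z * y + em * (1 - u - z) →
      Lh γ qA qB HA HB RA RB ((1 + γ * u) * (1 - u - z + γ * (n - z * y))) u y z
        ≤ x0 u * ((m0 u + m1 u * n) * (1 - Bf z (u + y))))
    {θ θh : ℝ → ℝ → ℝ} (cθ : ∀ u, ContinuousOn (θ u) (Icc 0 t))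
    (cθh : ∀ u, ContinuousOn (θh u) (Icc 0 t))
    (θ0 : ∀ u, ∀ s ∈ Icc 0 t, 0 < θ u s) (θh0 : ∀ u, ∀ s ∈ Icc 0 t, 0 < θh u s)
    {v r : ℝ → ℝ → ℝ → ℝ}
    (v0 : ∀ u y z, Dm u y z → 0 ≤ v u y z) (r0 : ∀ u y z, Dm u y z → 0 ≤ r u y z)
    (hvr : ∀ u y z, Dm u y z → psB Bf z (u + y) ≤ v u y z + r u y z)
    (w1n : ∀ u', ∀ u y z, De em u y z → 0 ≤ W1h t γ IB Fs ρ2 h1 h2 (θh u') qB HA HB RB v r u y z)
    {X : ℝ → ℝ → ℝ → ℝ} {lam : ℝ} (lam0 : 0 < lam) {J : ℝ → ℝ → ℝ → ℝ}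
    (hX : ∀ u y z, De em u y z →
      C1 u * W0h k t γ IA IB κ0 Fs ρ2 l1 l2 h1 h2 (θ u) (θh u) qA qB HA HB RA RB v r u y z
        + (C0 u + C1 u * (em * (1 - u)))
          * W1h t γ IB Fs ρ2 h1 h2 (θh u) qB HA HB RB v r u y z ≤ z * X u y z)
    {ch g : ℝ → ℝ} {F1 : ℝ → ℝ → ℝ → ℝ}
    (hms : ∀ x y z t, k.mb x y z t = k.mb y x z t)
    (hgap : ∀ b d, P b → P d → a ≠ b → a ≠ d → b ≠ d →
      k.mb (xr x P a b) (xr x P a d) (xr x P b d) t
        + min ((xdOf x κd R L Lt).E x P k a b d t) ((xdOf x κd R L Lt).E x P k a d b t) ≤ 1)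
    (ch1 : ∀ y ∈ Icc (0 : ℝ) 1, (1 + t) * k.fh y t ≤ ch y)
    (ch0 : ∀ y ∈ Icc (0 : ℝ) 1, 0 ≤ ch y)
    (hg : ∀ y z : ℝ, 0 ≤ y → 0 ≤ z → y + z ≤ 1 →
      y * z * (ch y + ch z) ≤ y ^ 2 * g y + z ^ 2 * g z)
    (g0 : ∀ y ∈ Icc (0 : ℝ) 1, 0 < g y)
    (hJ : ∀ u y z : ℝ, Dm u y z →
      u * y * (y * (1 - u - z) + u * (1 - y - z))
        ≤ 2 * lam * (u ^ 2 * J u y z + y ^ 2 * J y u z))
    (hfin : ∀ u y z, De em u y z →
      g u * (z * (ef z (u + y) / ((1 - Bm z (u + y)) * (1 - Bf z (u + y))))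
        + (C0 u + C1 u * (z * y))
          * W0h k t γ IA IB κ0 Fs ρ2 l1 l2 h1 h2 (θ u) (θh u) qA qB HA HB RA RB v r u y z)
        + z * ((1 - u - z) / 2 * (lam * u * (g u * X u y z) ^ 2)) + z * J u y z
          ≤ z * F1 u y z)
    (em0 : 0 ≤ em) (hfin0 : ∀ u y, De em u y 0 → 0 ≤ F1 u y 0) :
    ∑ b, xr x P a b * ∑ d ∈ ({a, b} : Finset V)ᶜ,
        wS k.fh k.mb ((xdOf x κd R L Lt).E x P k) x P a b d t
      ≤ ∑ b, xr x P a b ^ 2 * ∑ c ∈ ({a, b} : Finset V)ᶜ,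
        x b c * F1 (x a b) (x a c) (xr x P b c) := by
  have gn : ∀ u ∈ Icc (0 : ℝ) 1, 0 < g u := g0
  set l : ℝ → ℝ := fun u => if u = 0 then 1 else lam * u * g u with hl
  have l0 : ∀ u ∈ Icc (0 : ℝ) 1, 0 < l u := fun u hu => by
    rw [hl]
    beta_reduce
    split_ifs with h
    · exact one_pos
    · exact mul_pos (mul_pos lam0 (lt_of_le_of_ne hu.1 (Ne.symm h))) (gn u hu)
  refine t1_topH (A := fun u y z => (1 - u - z) * (g u * (y ^ 2 / (2 * l u)))) (J := J)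
    (Φ := fun b c => if P c then
      x b c * (ef (x b c) (x a b + x a c)
        / ((1 - Bm (x b c) (x a b + x a c)) * (1 - Bf (x b c) (x a b + x a c))))
      + (C0 (x a b) + C1 (x a b) * (x b c * x a c))
        * W0h k t γ IA IB κ0 Fs ρ2 l1 l2 h1 h2 (θ (x a b)) (θh (x a b)) qA qB HA HB RA RB v r
          (x a b) (x a c) (x b c)
      + x b c * ((1 - x a b - x b c) * (l (x a b) / 2 * X (x a b) (x a c) (x b c) ^ 2
        + x a c ^ 2 / (2 * l (x a b)))) else 0) hf hx hk hms ht ha hgap ch1 ch0 hg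
    (fun y hy => (g0 y hy).le) (fun b hb hab => ?_) (fun b hb hab hb0 c hc => ?_)
    (fun u y z hd => ?_)
  · have hu := x_mem hx a b
    have hue : x a b ∈ Icc (0 : ℝ) em := ⟨hu.1, hem _ _ ha hb⟩
    exact em_sumH hv hem hf hx hk hfc cPe ht ha hb hab hA α0 (fun y z n => hm _ y z n)
      (m00 _ hue) (m10 _ hue) (mp _ hue) (p00 _ hue) (p02 _ hue) (x00 _ hue) (hp0 _ hue)
      (C00 _ hue) (C10 _ hue) (cj0 _ hue) (cj1 _ hue) (hw b hb hab) (hp b hb hab) cρ2 ρ20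
      (fun d hd => hR2 b d hb hab hd) hIA hIB (he b hb hab) (fun y z n => hcap _ y z n)
      (cθ (x a b)) (cθh (x a b))
      (θ0 _) (θh0 _) v0 r0 hvr (w1n (x a b)) (X := X (x a b)) (l0 _ hu)
      (fun y z h => hX _ _ _ h)
  · have hd := dm_of hx hab hc
    by_cases hPc : P c
    · have xe : xr x P b c = x b c := by unfold xr; rw [if_pos ⟨hb, hPc⟩]
      simp only [if_pos hPc, xe]
      have h1 := hfin _ _ _ (de_of hx hem ha hb hab hPc hc)
      have e : l (x a b) = lam * x a b * g (x a b) := by rw [hl]; beta_reduce; rw [if_neg hb0]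
      have e2 : g (x a b) * (x b c * ((1 - x a b - x b c)
          * (l (x a b) / 2 * X (x a b) (x a c) (x b c) ^ 2)))
          = x b c * ((1 - x a b - x b c) / 2
            * (lam * x a b * (g (x a b) * X (x a b) (x a c) (x b c)) ^ 2)) := by
        rw [e]; ring
      nlinarith
    · have xe : xr x P b c = 0 := by unfold xr; rw [if_neg fun h => hPc h.2]
      simp only [if_neg hPc, xe, mul_zero, add_zero]
      obtain ⟨d1, d2, d3, d4, d5, d6⟩ := hd
      by_cases hbc0 : x b c = 0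
      · rw [hbc0, zero_mul]
      have hac0 : x a c = 0 := by
        have h0 := pend_zero hx hab hPc
        rcases mul_eq_zero.1 h0 with h0 | h0
        · exact absurd h0 hbc0
        · exact h0
      exact mul_nonneg d3 (hfin0 (x a b) (x a c) ⟨⟨d1, d2, le_rfl, d4, by linarith, by linarith⟩,
        hem _ _ ha hb, by rw [hac0]; exact em0, em0⟩)
  · beta_reduce
    have h1 := hJ u y z hd
    obtain ⟨u0, y0, z0, uy, uz, yz⟩ := hd
    have key : ∀ {u y z : ℝ}, 0 ≤ u → u ≤ 1 →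
        u ^ 2 * ((1 - u - z) * (g u * (y ^ 2 / (2 * l u)))) = u * y ^ 2 * (1 - u - z) / (2 * lam) := by
      intro u y z u0 u1
      rcases eq_or_lt_of_le u0 with h | h
      · rw [← h]; simp
      · have e : l u = lam * u * g u := by rw [hl]; beta_reduce; rw [if_neg h.ne']
        have gp := gn u ⟨u0, u1⟩
        rw [e]
        field_simp
    rw [key u0 (by linarith), key y0 (by linarith), ← add_div, div_le_iff₀ (by positivity)]
    nlinarith

end end_theorem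

end Pool.Agent.RZ.RCN.K
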