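import Pool.Agent.RZ.RCN.KleA
import Pool.Agent.RZ.RCO.NumI
import Pool.Agent.RZ.RCO.T1ZH_1

/-! The first part of the inequality of the centres on a cell of the time: interpolation in the
weight, the function `Fh` of the weights of a triple (MP_73ccd0_lc). -/

namespace Pool.Agent.RZ.RCN.K

open Set Finset MeasureTheory

open Pool.Agent.RZ.RCO.RT

set_option linter.unusedSectionVars false
set_option linter.unusedVariables false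

/-! ### interpolation with the nodes `0, 1/2, 1` -/

/-- the piecewise linear function with the nodes `0, 1/2, 1` -/
noncomputable def lp (z a b c : ℝ) : ℝ :=
  if z ≤ 1 / 2 then (1 - 2 * z) * a + 2 * z * b else (2 - 2 * z) * b + (2 * z - 1) * c

theorem lp_nonneg {z a b c : ℝ} (z0 : 0 ≤ z) (z1 : z ≤ 1) (a0 : 0 ≤ a) (b0 : 0 ≤ b)
    (c0 : 0 ≤ c) : 0 ≤ lp z a b c := by
  unfold lp
  split_ifs with h
  · have : 0 ≤ 1 - 2 * z := by linarith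
    positivity
  · have h1 : 0 ≤ 2 - 2 * z := by linarith
    have h2 : 0 ≤ 2 * z - 1 := by linarith
    positivity

theorem lp_pos {z a b c : ℝ} (z0 : 0 ≤ z) (z1 : z ≤ 1) (a0 : 0 < a) (b0 : 0 < b)
    (c0 : 0 < c) : 0 < lp z a b c := by
  unfold lp
  split_ifs with h
  · rcases eq_or_lt_of_le h with h1 | h1
    · rw [h1]; norm_num; exact b0
    · have : 0 < (1 - 2 * z) * a := mul_pos (by linarith) a0
      have : 0 ≤ 2 * z * b := by positivity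
      linarith
  · have h2 : 0 < (2 * z - 1) * c := mul_pos (by linarith) c0
    have h3 : 0 ≤ (2 - 2 * z) * b := mul_nonneg (by linarith) b0.le
    linarith

theorem lp_mono {z a b c a' b' c' : ℝ} (z0 : 0 ≤ z) (z1 : z ≤ 1) (ha : a ≤ a') (hb : b ≤ b')
    (hc : c ≤ c') : lp z a b c ≤ lp z a' b' c' := by
  unfold lp
  split_ifs with h
  · have h1 : 0 ≤ 1 - 2 * z := by linarith
    have := mul_le_mul_of_nonneg_left ha h1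
    have := mul_le_mul_of_nonneg_left hb (mul_nonneg zero_le_two z0)
    linarith
  · have h1 : 0 ≤ 2 - 2 * z := by linarith
    have h2 : 0 ≤ 2 * z - 1 := by linarith
    have := mul_le_mul_of_nonneg_left hb h1
    have := mul_le_mul_of_nonneg_left hc h2
    linarith

theorem lp_const (z a : ℝ) : lp z a a a = a := by
  unfold lp
  split_ifs <;> ring

theorem lp_smul (z k a b c : ℝ) : lp z (k * a) (k * b) (k * c) = k * lp z a b c := by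
  unfold lp
  split_ifs <;> ring

theorem lp_sq {z a b c : ℝ} (z0 : 0 ≤ z) (z1 : z ≤ 1) :
    lp z a b c ^ 2 ≤ lp z (a ^ 2) (b ^ 2) (c ^ 2) := by
  unfold lp
  split_ifs with h
  · have h1 : 0 ≤ 1 - 2 * z := by linarith
    nlinarith [mul_nonneg (mul_nonneg h1 z0) (sq_nonneg (a - b))]
  · have h1 : 0 ≤ 2 - 2 * z := by linarith
    have h2 : 0 ≤ 2 * z - 1 := by linarith
    nlinarith [mul_nonneg (mul_nonneg h1 h2) (sq_nonneg (b - c))]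

theorem plx_lp (n : ℕ) (z : ℝ) (a b c : ℕ → ℝ) (x : ℝ) :
    plx n (fun l => lp z (a l) (b l) (c l)) x = lp z (plx n a x) (plx n b x) (plx n c x) := by
  unfold lp
  split_ifs
  · rw [plx_add, plx_smul, plx_smul]
  · rw [plx_add, plx_smul, plx_smul]

theorem tri3_lp (n : ℕ) (z : ℝ) (a b c v w : ℕ → ℝ) :
    tri3 n (fun l => lp z (a l) (b l) (c l)) v w
      = lp z (tri3 n a v w) (tri3 n b v w) (tri3 n c v w) := by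
  unfold lp
  split_ifs
  · rw [tri3_add1, tri3_smul1, tri3_smul1]
  · rw [tri3_add1, tri3_smul1, tri3_smul1]

theorem plx_one {x : ℝ} (h0 : 0 ≤ x) (h1 : x ≤ 1) : plx 10 (fun _ => 1) x = 1 := by
  obtain ⟨l, hl, c, c0, c1, hc⟩ := cell_ex (n := 10) (by norm_num) h0 h1
  rw [plx_cell hl _ c0 c1 hc]
  ring

theorem fh_lp (k : Kf) {z : ℝ} (s : ℝ) :
    k.fh z s = lp z (k.fh 0 s) (k.fh (1 / 2) s) (k.fh 1 s) := by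
  unfold lp Kf.fh Kf.b eta
  split_ifs with h
  · rw [min_eq_left h, min_eq_left (by norm_num : (0 : ℝ) ≤ 1 / 2), min_self]
    ring
  · push Not at h
    rw [min_eq_right h.le, min_self, min_eq_right (by norm_num : (1 / 2 : ℝ) ≤ 1)]
    ring

theorem fi_lp (k : Kf) {z : ℝ} (t : ℝ) :
    k.fi z t = lp z (k.fi 0 t) (k.fi (1 / 2) t) (k.fi 1 t) := by
  unfold lp Kf.fi eta
  split_ifs with h
  · rw [min_eq_left h, min_eq_left (by norm_num : (0 : ℝ) ≤ 1 / 2), min_self]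
    ring
  · push Not at h
    rw [min_eq_right h.le, min_self, min_eq_right (by norm_num : (1 / 2 : ℝ) ≤ 1)]
    ring

/-- a square over a line: convex -/
theorem sq_div_line {a a' d d' c : ℝ} (c0 : 0 ≤ c) (c1 : c ≤ 1) (d0 : 0 < d) (d0' : 0 < d') :
    ((1 - c) * a + c * a') ^ 2 / ((1 - c) * d + c * d')
      ≤ (1 - c) * (a ^ 2 / d) + c * (a' ^ 2 / d') := by
  have h1 := sub_nonneg.2 c1
  have dp : 0 < (1 - c) * d + c * d' := by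
    rcases eq_or_lt_of_le c0 with h | h
    · rw [← h]; simpa using d0
    · have := mul_pos h d0'
      have := mul_nonneg h1 d0.le
      linarith
  rw [div_le_iff₀ dp]
  have e : ((1 - c) * (a ^ 2 / d) + c * (a' ^ 2 / d')) * ((1 - c) * d + c * d')
      - ((1 - c) * a + c * a') ^ 2 = (1 - c) * c * (a * d' - a' * d) ^ 2 / (d * d') := by
    field_simp
    ring
  have : 0 ≤ (1 - c) * c * (a * d' - a' * d) ^ 2 / (d * d') := by positivity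
  linarith

/-- a square over a piecewise linear function -/
theorem plx_sq_div {n : ℕ} (n0 : 0 < n) {u d : ℕ → ℝ} (hd : ∀ l ≤ n, 0 < d l) {x : ℝ}
    (h0 : 0 ≤ x) (h1 : x ≤ 1) :
    plx n u x ^ 2 / plx n d x ≤ plx n (fun l => u l ^ 2 / d l) x := by
  obtain ⟨l, hl, c, c0, c1, hc⟩ := cell_ex n0 h0 h1
  rw [plx_cell hl _ c0 c1 hc, plx_cell hl _ c0 c1 hc, plx_cell hl _ c0 c1 hc]
  exact sq_div_line c0 c1 (hd l hl.le) (hd (l + 1) hl)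

theorem plx_sq {n : ℕ} (n0 : 0 < n) (u : ℕ → ℝ) {x : ℝ} (h0 : 0 ≤ x) (h1 : x ≤ 1) :
    plx n u x ^ 2 ≤ plx n (fun l => u l ^ 2) x := by
  obtain ⟨l, hl, c, c0, c1, hc⟩ := cell_ex n0 h0 h1
  rw [plx_cell hl _ c0 c1 hc, plx_cell hl _ c0 c1 hc]
  nlinarith [mul_nonneg (mul_nonneg c0 (sub_nonneg.2 c1)) (sq_nonneg (u l - u (l + 1)))]

theorem plx_pos {n : ℕ} (n0 : 0 < n) {d : ℕ → ℝ} (hd : ∀ l ≤ n, 0 < d l) {x : ℝ}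
    (h0 : 0 ≤ x) (h1 : x ≤ 1) : 0 < plx n d x := by
  obtain ⟨l, hl, c, c0, c1, hc⟩ := cell_ex n0 h0 h1
  rw [plx_cell hl _ c0 c1 hc]
  rcases eq_or_lt_of_le c0 with h | h
  · rw [← h]
    have := hd l hl.le
    simpa using this
  · have a1 := mul_pos h (hd (l + 1) hl)
    have a2 := mul_nonneg (sub_nonneg.2 c1) (hd l hl.le).le
    linarith

/-! ### the data of a cell -/

/-- the numbers of a cell -/
structure Cq where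
  T0 : ℝ
  T1 : ℝ
  δ : ℝ
  μ : ℝ
  em : ℝ
  pm : ℝ
  f0 : ℕ → ℝ
  f1 : ℕ → ℝ
  f2 : ℕ → ℝ
  κ : ℕ → ℝ
  κh : ℕ → ℝ
  ρ0 : ℕ → ℝ
  ρ1 : ℕ → ℝ
  ρ2 : ℕ → ℝ
  Φ : ℕ → ℝ
  b0 : ℝ
  b1 : ℝ
  b2 : ℝ
  e0 : ℝ
  e1 : ℝ
  e2 : ℝ
  β0 : ℝ
  β1 : ℝ
  β2 : ℝ
  c0 : ℝ
  c1 : ℝ
  c2 : ℝ
  α : ℝ
  A0 : ℝ → ℝ
  A1 : ℝ → ℝ
  A2 : ℝ → ℝ
  B0 : ℝ → ℝ
  B1 : ℝ → ℝ
  B2 : ℝ → ℝ
  K1 : ℝ → ℝ
  K20 : ℝ → ℝ
  K21 : ℝ → ℝ
  K22 : ℝ → ℝ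
  K3 : ℝ → ℝ
  K40 : ℝ → ℝ
  K41 : ℝ → ℝ
  K42 : ℝ → ℝ
  HA : ℝ → ℝ
  HB : ℝ → ℝ
  RB : ℝ → ℝ
  qa : ℝ
  qb : ℝ
  φ : ℝ
  th : ℝ
  thh : ℝ
  ν0 : ℝ
  v0 : ℝ
  p0 : ℝ → ℝ
  x0 : ℝ → ℝ
  m0 : ℝ → ℝ
  m1 : ℝ → ℝ
  C0 : ℝ → ℝ
  C1 : ℝ → ℝ
  lam : ℝ
  il : ℝ

namespace Cq

variable (c : Cq)

/-- the scale -/
noncomputable def S (t : ℝ) : ℝ := ((t + c.δ) ^ 2 + c.μ * t) * t
/-- the hazard at the nodes for all weights -/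
noncomputable def ρx (l : ℕ) : ℝ := max (c.ρ0 l) (max (c.ρ1 l) (c.ρ2 l))
noncomputable def bh (z w : ℝ) : ℝ := (1 + c.T1 * w) * lp z c.β0 c.β1 c.β2
noncomputable def Bm (z w : ℝ) : ℝ := z * ((1 + c.T1 * w) * lp z c.b0 c.b1 c.b2)
noncomputable def Bf (z w : ℝ) : ℝ := z * c.bh z w
noncomputable def A (z k : ℝ) : ℝ := lp z (c.A0 k) (c.A1 k) (c.A2 k)
noncomputable def B (z k : ℝ) : ℝ := lp z (c.B0 k) (c.B1 k) (c.B2 k)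
noncomputable def K2 (z k : ℝ) : ℝ := lp z (c.K20 k) (c.K21 k) (c.K22 k)
noncomputable def K4 (z k : ℝ) : ℝ := lp z (c.K40 k) (c.K41 k) (c.K42 k)
/-- the threshold of the quadratic bound -/
noncomputable def v (z : ℝ) : ℝ := min (c.ν0 * z) c.v0
noncomputable def vz (z : ℝ) : ℝ := c.v z ^ 2 / z
/-- the rest of the amplification over `z` -/
noncomputable def rz (z w : ℝ) : ℝ :=
  max 0 (c.bh z w * (2 - c.Bf z w) / (1 - c.Bf z w) ^ 2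
    - if z = 0 then c.ν0 else min c.ν0 (c.v0 / z))
/-- the linear error over `S` for the mass one -/
noncomputable def hh (u y z : ℝ) : ℝ :=
  c.HA (y + z) + (1 - u - z) * c.HB (y + z) + c.qb * c.RB (y + z)

/-- the errors of a triple over `z S`, without the other common neighbours -/
noncomputable def W0 (u y z : ℝ) : ℝ :=
  (1 + c.T1 * u) * ((1 + c.T1 * y) * c.A z (y + z)
    + (1 - u + c.T1 * (z * y)) * c.B z (y + z)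
    + (c.K1 (y + z) * c.vz z + c.K2 z (y + z) * (z * (1 + c.T1 * y) ^ 2)
      + c.K3 (y + z) * (c.vz z * (1 - u - z))
      + c.K4 z (y + z) * (z * (1 - u + c.T1 * (z * y)))) / 2
    + c.rz z (u + y) * ((1 - u - z) * c.hh u y z + c.qa * c.K1 (y + z)))

/-- the part of the common neighbours -/
noncomputable def W1 (u y z : ℝ) : ℝ :=
  c.T1 * (1 + c.T1 * u) * (c.B z (y + z) + (c.K3 (y + z) * c.vz z + c.K4 z (y + z) * z) / 2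
    + c.rz z (u + y) * c.hh u y z)

/-- the factor of the product of the means -/
noncomputable def X (u y z : ℝ) : ℝ :=
  lp u c.c0 c.c1 c.c2
    * (c.C1 u * c.W0 u y z + (c.C0 u + c.C1 u * (c.em * (1 - u))) * c.W1 u y z)

/-- **the function of a triple over `S`** -/
noncomputable def F (u y z : ℝ) : ℝ :=
  lp u c.c0 c.c1 c.c2 * ((1 + c.T1 * (u + y)) * lp z c.e0 c.e1 c.e2
      / ((1 - c.Bm z (u + y)) * (1 - c.Bf z (u + y)))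
    + (c.C0 u + c.C1 u * (z * y)) * c.W0 u y z)
    + ((1 - u - z) / 2 * (c.lam * u * c.X u y z ^ 2) + c.il * jh u y z)

/-- nonnegativity of the numbers, and the arithmetic relations -/
structure Nn : Prop where
  T0 : 0 ≤ c.T0
  T01 : c.T0 ≤ c.T1
  T1 : c.T1 ≤ 1
  δ : 0 ≤ c.δ
  μ : 0 ≤ c.μ
  em : 0 ≤ c.em
  em1 : c.em ≤ 1 / 2
  pm : c.em * (1 + c.T1 * c.em) ≤ c.pm
  pm1 : c.pm ≤ 1
  f0 : ∀ l ≤ 10, 0 < c.f0 l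
  f1 : ∀ l ≤ 10, 0 ≤ c.f1 l
  f2 : ∀ l ≤ 10, 0 ≤ c.f2 l
  φ1 : 1 ≤ c.φ
  φe : ∀ l ≤ 10, (1 - 2 * c.em) * c.f0 l + 2 * c.em * c.f1 l ≤ c.φ * c.f0 l
  κ : ∀ l ≤ 10, 0 ≤ c.κ l
  κh : ∀ l ≤ 10, 0 ≤ c.κh l
  ρ0 : ∀ l ≤ 10, 0 ≤ c.ρ0 l
  ρ1 : ∀ l ≤ 10, 0 ≤ c.ρ1 l
  ρ2 : ∀ l ≤ 10, 0 ≤ c.ρ2 l
  Φ : ∀ l ≤ 10, 0 ≤ c.Φ l
  b0 : 0 ≤ c.b0
  b1 : 0 ≤ c.b1
  b2 : 0 ≤ c.b2
  e0 : 0 ≤ c.e0
  e1 : 0 ≤ c.e1
  e2 : 0 ≤ c.e2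
  β0 : c.b0 + c.S c.T1 * c.e0 ≤ c.β0
  β1 : c.b1 + c.S c.T1 * c.e1 ≤ c.β1
  β2 : c.b2 + c.S c.T1 * c.e2 ≤ c.β2
  c0 : 0 < c.c0
  c1 : 0 < c.c1
  c2 : 0 < c.c2
  α : 0 ≤ c.α
  A0 : ∀ k ∈ Icc (0 : ℝ) 1, 0 ≤ c.A0 k
  A1 : ∀ k ∈ Icc (0 : ℝ) 1, 0 ≤ c.A1 k
  A2 : ∀ k ∈ Icc (0 : ℝ) 1, 0 ≤ c.A2 k
  B0 : ∀ k ∈ Icc (0 : ℝ) 1, 0 ≤ c.B0 k
  B1 : ∀ k ∈ Icc (0 : ℝ) 1, 0 ≤ c.B1 k
  B2 : ∀ k ∈ Icc (0 : ℝ) 1, 0 ≤ c.B2 k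
  K1 : ∀ k ∈ Icc (0 : ℝ) 1, 0 ≤ c.K1 k
  K20 : ∀ k ∈ Icc (0 : ℝ) 1, 0 ≤ c.K20 k
  K21 : ∀ k ∈ Icc (0 : ℝ) 1, 0 ≤ c.K21 k
  K22 : ∀ k ∈ Icc (0 : ℝ) 1, 0 ≤ c.K22 k
  K3 : ∀ k ∈ Icc (0 : ℝ) 1, 0 ≤ c.K3 k
  K40 : ∀ k ∈ Icc (0 : ℝ) 1, 0 ≤ c.K40 k
  K41 : ∀ k ∈ Icc (0 : ℝ) 1, 0 ≤ c.K41 k
  K42 : ∀ k ∈ Icc (0 : ℝ) 1, 0 ≤ c.K42 k
  HA : ∀ k ∈ Icc (0 : ℝ) 1, 0 ≤ c.HA k
  HB : ∀ k ∈ Icc (0 : ℝ) 1, 0 ≤ c.HB k
  RB : ∀ k ∈ Icc (0 : ℝ) 1, 0 ≤ c.RB k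
  qa : 0 ≤ c.qa
  qb : 0 ≤ c.qb
  th : 0 < c.th
  thh : 0 < c.thh
  ν0 : 0 ≤ c.ν0
  v0 : 0 ≤ c.v0
  p0 : ∀ u ∈ Icc (0 : ℝ) c.em, 0 ≤ c.p0 u
  p02 : ∀ u ∈ Icc (0 : ℝ) c.em, c.p0 u ≤ 2
  x0 : ∀ u ∈ Icc (0 : ℝ) c.em, 0 ≤ c.x0 u
  m0 : ∀ u ∈ Icc (0 : ℝ) c.em, 0 ≤ c.m0 u
  m1 : ∀ u ∈ Icc (0 : ℝ) c.em, 0 ≤ c.m1 u
  C0 : ∀ u ∈ Icc (0 : ℝ) c.em, 0 ≤ c.C0 u
  C1 : ∀ u ∈ Icc (0 : ℝ) c.em, 0 ≤ c.C1 u
  lam : 0 < c.lam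
  il : 1 ≤ 2 * c.lam * c.il

end Cq

end Pool.Agent.RZ.RCN.K
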