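import Pool.Agent.RZ.RCO.T1X
import Pool.Agent.RZ.RCO.T1Y
import Pool.Agent.RZ.RCO.T1c

/-! The first part of the inequality of the centres on a cell of the time: the errors of a triple
(MP_73ccd0_lc). -/

namespace Pool.Agent.RZ.RCN.K

open Set Finset MeasureTheory Pool.Agent.RZ.RCRSHalf Pool.Agent.RZ.RCG Pool.Agent.RZ.RCG.Ct
open Pool.Agent.RZ.RCN.Ker Pool.Agent.RZ.RCRS Pool.Agent.RZ.RCM.Jen Pool.Agent.RZ.RCO.RT

set_option linter.unusedSectionVars false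
set_option linter.unusedVariables false

/-- the mass below a piecewise linear function, from the two factors -/
def Mass (u v Φ : ℕ → ℝ) : Prop := ∃ (C : ℕ → ℝ) (E : ℝ), 0 ≤ C 0 ∧
  (∀ l < 10, C l + bi (u l) (u (l + 1)) (v l) (v (l + 1)) / 10 ≤ C (l + 1)) ∧ 0 ≤ E ∧
  (∀ l < 10, (u l * v l - u (l + 1) * v (l + 1)) / 2
    + |(u (l + 1) - u l) * (v (l + 1) - v l)| / 6 ≤ 4 * 10 * E) ∧
  (∀ l ≤ 10, C l + E ≤ Φ l)

/-- the frame functions in the cell -/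
structure Cq.Fr (c : Cq) (k : Kf) (κd : ℝ → ℝ → ℝ → ℝ) (rr : ℝ → ℝ → ℝ) : Prop where
  fh0 : ∀ t ∈ Icc c.T0 c.T1, ∀ s ∈ Icc 0 t, k.fh 0 s ≤ plx 10 c.f0 (s / t)
  fh1 : ∀ t ∈ Icc c.T0 c.T1, ∀ s ∈ Icc 0 t, k.fh (1 / 2) s ≤ plx 10 c.f1 (s / t)
  fh2 : ∀ t ∈ Icc c.T0 c.T1, ∀ s ∈ Icc 0 t, k.fh 1 s ≤ plx 10 c.f2 (s / t)
  κ : ∀ t ∈ Icc c.T0 c.T1, ∀ s ∈ Icc 0 t, ∀ w ∈ Icc (0 : ℝ) 1,
    κd w t s ≤ plx 10 c.κ (s / t) * (1 + t * w)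
  κh : ∀ t ∈ Icc c.T0 c.T1, ∀ s ∈ Icc 0 t, ∀ w ∈ Icc (0 : ℝ) 1,
    κd w t s - k.Pe w t ≤ (1 + t * w) * (((t + c.δ) ^ 2 + c.μ * t) * plx 10 c.κh (s / t))
  rr : ∀ t ∈ Icc c.T0 c.T1, ∀ s ∈ Icc 0 t, ∀ z ∈ Icc (0 : ℝ) c.em,
    rr z s ≤ lp z (plx 10 c.ρ0 (s / t)) (plx 10 c.ρ1 (s / t)) (plx 10 c.ρ2 (s / t))
  rq : ∀ l ≤ 10, 1 ≤ c.ρ0 l
  bm : ∀ t ∈ Icc c.T0 c.T1, ∀ w ∈ Icc (0 : ℝ) 1, ∀ z ∈ Icc (0 : ℝ) 1,
    k.Pe w t * k.fi z t ≤ (1 + t * w) * lp z c.b0 c.b1 c.b2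
  ch : ∀ t ∈ Icc c.T0 c.T1, ∀ y ∈ Icc (0 : ℝ) 1, (1 + t) * k.fh y t ≤ lp y c.c0 c.c1 c.c2

/-- the integrals of the cell -/
structure Cq.It (c : Cq) (R : Tab) (m : ℕ) : Prop where
  Φ0 : Mass c.f0 c.κ c.Φ
  Φ1 : Mass c.f1 c.κ c.Φ
  Φ2 : Mass c.f2 c.κ c.Φ
  α0 : tri3 10 c.f0 c.κ (fun _ => 1) ≤ c.α
  α1 : tri3 10 c.f1 c.κ (fun _ => 1) ≤ c.α
  α2 : tri3 10 c.f2 c.κ (fun _ => 1) ≤ c.α
  e0 : tri3 10 c.f0 c.κh (fun _ => 1) ≤ c.e0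
  e1 : tri3 10 c.f1 c.κh (fun _ => 1) ≤ c.e1
  e2 : tri3 10 c.f2 c.κh (fun _ => 1) ≤ c.e2
  A0 : ∀ k ∈ Icc (0 : ℝ) 1, tri3 10 c.f0 c.κ (fun l => (R.r kCL m l).ev k) ≤ c.A0 k
  A1 : ∀ k ∈ Icc (0 : ℝ) 1, tri3 10 c.f1 c.κ (fun l => (R.r kCL m l).ev k) ≤ c.A1 k
  A2 : ∀ k ∈ Icc (0 : ℝ) 1, tri3 10 c.f2 c.κ (fun l => (R.r kCL m l).ev k) ≤ c.A2 k
  B0 : ∀ k ∈ Icc (0 : ℝ) 1, tri3 10 c.Φ c.ρ0 (fun l => (R.r kCF m l).ev k) ≤ c.B0 k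
  B1 : ∀ k ∈ Icc (0 : ℝ) 1, tri3 10 c.Φ c.ρ1 (fun l => (R.r kCF m l).ev k) ≤ c.B1 k
  B2 : ∀ k ∈ Icc (0 : ℝ) 1, tri3 10 c.Φ c.ρ2 (fun l => (R.r kCF m l).ev k) ≤ c.B2 k
  K1 : ∀ k ∈ Icc (0 : ℝ) 1, c.th * tri3 10 c.κ c.f0 (fun l => (R.r kRL m l).ev k) ≤ c.K1 k
  K20 : ∀ k ∈ Icc (0 : ℝ) 1,
    tri3 10 c.κ (fun l => c.f0 l ^ 2 / c.f0 l) (fun l => (R.r kCL m l).ev k) ≤ c.th * c.K20 k
  K21 : ∀ k ∈ Icc (0 : ℝ) 1,
    tri3 10 c.κ (fun l => c.f1 l ^ 2 / c.f0 l) (fun l => (R.r kCL m l).ev k) ≤ c.th * c.K21 k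
  K22 : ∀ k ∈ Icc (0 : ℝ) 1,
    tri3 10 c.κ (fun l => c.f2 l ^ 2 / c.f0 l) (fun l => (R.r kCL m l).ev k) ≤ c.th * c.K22 k
  K3 : ∀ k ∈ Icc (0 : ℝ) 1,
    c.thh * tri3 10 c.Φ (fun _ => 1) (fun l => (R.r kRF m l).ev k) ≤ c.K3 k
  K40 : ∀ k ∈ Icc (0 : ℝ) 1,
    tri3 10 c.Φ (fun l => c.ρ0 l ^ 2) (fun l => (R.r kCF m l).ev k) ≤ c.thh * c.K40 k
  K41 : ∀ k ∈ Icc (0 : ℝ) 1,
    tri3 10 c.Φ (fun l => c.ρ1 l ^ 2) (fun l => (R.r kCF m l).ev k) ≤ c.thh * c.K41 k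
  K42 : ∀ k ∈ Icc (0 : ℝ) 1,
    tri3 10 c.Φ (fun l => c.ρ2 l ^ 2) (fun l => (R.r kCF m l).ev k) ≤ c.thh * c.K42 k
  qap : c.φ * c.pm ≤ c.qa * c.th
  qbe : c.em ≤ c.qb
  RB : ∀ k ∈ Icc (0 : ℝ) 1, tri3 10 c.Φ c.ρx (fun l => (R.r kRF m l).ev k) ≤ c.RB k
  px : ∀ u ∈ Icc (0 : ℝ) c.em, 1 - Real.exp (-c.x0 u) ≤ c.p0 u
  mp : ∀ u ∈ Icc (0 : ℝ) c.em, (c.m0 u + c.m1 u * (c.em * (1 - u))) * c.p0 u < 1
  cj0 : ∀ u ∈ Icc (0 : ℝ) c.em, CJr (c.C0 u) (c.m0 u) (c.p0 u)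
  cj1 : ∀ u ∈ Icc (0 : ℝ) c.em, CJr (c.C0 u + c.C1 u * (c.em * (1 - u)))
    (c.m0 u + c.m1 u * (c.em * (1 - u))) (c.p0 u)
  dl : R.dl m = c.δ
  EL : ∀ l ≤ 10, (R.r kEL m l).Anti
  EF : ∀ l ≤ 10, (R.r kEF m l).Anti
  EC : ∀ l ≤ 10, (R.r kEC m l).Anti
  EG : ∀ l ≤ 10, (R.r kEG m l).Anti

/-- the conditions on all triples, checked on boxes -/
structure Cq.Bx (c : Cq) : Prop where
  bf : ∀ u y z, De c.em u y z → c.Bf z (u + y) < 1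
  hm : ∀ u y z n, De c.em u y z → z * y ≤ n → n ≤ z * y + c.em * (1 - u - z) →
    c.T1 * c.α * ((1 + c.T1 * u) * (1 - u - z + c.T1 * (n - z * y)))
      ≤ (c.m0 u + c.m1 u * n) * (1 - c.Bf z (u + y))
  cap : ∀ u y z n, De c.em u y z → z * y ≤ n → n ≤ z * y + c.em * (1 - u - z) →
    c.S c.T1 * ((1 + c.T1 * u)
      * ((1 - u - z + c.T1 * (n - z * y)) * c.hh u y z + c.qa * c.K1 (y + z)))
      ≤ c.x0 u * ((c.m0 u + c.m1 u * n) * (1 - c.Bf z (u + y)))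

section

variable {c : Cq} {k : Kf} {κd : ℝ → ℝ → ℝ → ℝ} {rr : ℝ → ℝ → ℝ} {R : Tab} {m : ℕ} {t : ℝ}

theorem Cq.Nn.A_nonneg (h : c.Nn) {z q : ℝ} (z0 : 0 ≤ z) (z1 : z ≤ 1) (hq : q ∈ Icc (0 : ℝ) 1) :
    0 ≤ c.A z q := lp_nonneg z0 z1 (h.A0 q hq) (h.A1 q hq) (h.A2 q hq)

theorem Cq.Nn.B_nonneg (h : c.Nn) {z q : ℝ} (z0 : 0 ≤ z) (z1 : z ≤ 1) (hq : q ∈ Icc (0 : ℝ) 1) :
    0 ≤ c.B z q := lp_nonneg z0 z1 (h.B0 q hq) (h.B1 q hq) (h.B2 q hq)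

theorem Cq.Nn.K2_nonneg (h : c.Nn) {z q : ℝ} (z0 : 0 ≤ z) (z1 : z ≤ 1) (hq : q ∈ Icc (0 : ℝ) 1) :
    0 ≤ c.K2 z q := lp_nonneg z0 z1 (h.K20 q hq) (h.K21 q hq) (h.K22 q hq)

theorem Cq.Nn.K4_nonneg (h : c.Nn) {z q : ℝ} (z0 : 0 ≤ z) (z1 : z ≤ 1) (hq : q ∈ Icc (0 : ℝ) 1) :
    0 ≤ c.K4 z q := lp_nonneg z0 z1 (h.K40 q hq) (h.K41 q hq) (h.K42 q hq)

theorem Cq.Nn.v_nonneg (h : c.Nn) {z : ℝ} (z0 : 0 ≤ z) : 0 ≤ c.v z :=
  le_min (mul_nonneg h.ν0 z0) h.v0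

theorem Cq.Nn.v_zero (h : c.Nn) : c.v 0 = 0 := by
  unfold Cq.v
  rw [mul_zero]
  exact min_eq_left h.v0

theorem Cq.vz_nonneg {z : ℝ} (z0 : 0 ≤ z) : 0 ≤ c.vz z := div_nonneg (sq_nonneg _) z0

theorem Cq.Nn.z_vz (h : c.Nn) {z : ℝ} (z0 : 0 ≤ z) : z * c.vz z = c.v z ^ 2 := by
  unfold Cq.vz
  rcases eq_or_lt_of_le z0 with h0 | h0
  · rw [← h0, h.v_zero]; simp
  · field_simp

theorem Cq.rz_nonneg (z w : ℝ) : 0 ≤ c.rz z w := le_max_left _ _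

/-- the rest of the amplification -/
noncomputable def Cq.r (c : Cq) (z w : ℝ) : ℝ := max 0 (psB c.Bf z w - c.v z)

theorem Cq.r_eq (h : c.Nn) {z w : ℝ} (z0 : 0 ≤ z) (hb : c.Bf z w < 1) :
    c.r z w = z * c.rz z w := by
  unfold Cq.r Cq.rz
  rcases eq_or_lt_of_le z0 with h0 | h0
  · rw [← h0, h.v_zero]
    unfold psB Cq.Bf
    simp
  · have h1 : 0 < 1 - c.Bf z w := by linarith
    rw [if_neg h0.ne', mul_max_of_nonneg _ _ z0, mul_zero]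
    congr 1
    have e1 : z * min c.ν0 (c.v0 / z) = c.v z := by
      unfold Cq.v
      rw [mul_min_of_nonneg _ _ z0, mul_comm z c.ν0]
      congr 1
      field_simp
    rw [mul_sub, e1]
    congr 1
    have e2 : psB c.Bf z w = c.Bf z w * (2 - c.Bf z w) / (1 - c.Bf z w) ^ 2 := by
      unfold psB
      field_simp
      ring
    rw [e2]
    have e3 : c.Bf z w = z * c.bh z w := rfl
    rw [← mul_div_assoc, ← mul_assoc]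
    congr 2

/-- the interpolated density is below the interpolated nodes -/
theorem Cq.Fr.fh (h : c.Fr k κd rr) (ht : t ∈ Icc c.T0 c.T1) {s : ℝ} (hs : s ∈ Icc 0 t) {z : ℝ}
    (hz : z ∈ Icc (0 : ℝ) 1) :
    k.fh z s ≤ plx 10 (fun l => lp z (c.f0 l) (c.f1 l) (c.f2 l)) (s / t) := by
  rw [fh_lp, plx_lp]
  exact lp_mono hz.1 hz.2 (h.fh0 t ht s hs) (h.fh1 t ht s hs) (h.fh2 t ht s hs)

theorem tri3_lp_le {z : ℝ} (z0 : 0 ≤ z) (z1 : z ≤ 1) {a b d v w : ℕ → ℝ} {B : ℝ}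
    (h0 : tri3 10 a v w ≤ B) (h1 : tri3 10 b v w ≤ B) (h2 : tri3 10 d v w ≤ B) :
    tri3 10 (fun l => lp z (a l) (b l) (d l)) v w ≤ B := by
  rw [tri3_lp]
  exact (lp_mono z0 z1 h0 h1 h2).trans (le_of_eq (lp_const z B))

end

/-- the facts on the kernel functions used in the integrals -/
structure Kc (k : Kf) (κd : ℝ → ℝ → ℝ → ℝ) (t : ℝ) : Prop where
  ok : k.Ok
  fc : ∀ y ∈ Icc (0 : ℝ) 1, ContinuousOn (k.fh y) (Icc 0 1)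
  kc : ∀ w ∈ Icc (0 : ℝ) 1, ContinuousOn (κd w t) (Icc 0 t)
  k0 : ∀ w ∈ Icc (0 : ℝ) 1, ∀ s ∈ Icc 0 t, 0 ≤ κd w t s
  t01 : t ∈ Icc (0 : ℝ) 1

section

variable {c : Cq} {k : Kf} {κd : ℝ → ℝ → ℝ → ℝ} {rr : ℝ → ℝ → ℝ} {R : Tab} {m : ℕ} {t : ℝ}

theorem Kc.f (hk : Kc k κd t) {y : ℝ} (hy : y ∈ Icc (0 : ℝ) 1) :
    ContinuousOn (k.fh y) (Icc 0 t) := (hk.fc y hy).mono (Icc_subset_Icc_right hk.t01.2)

theorem Kc.f0 (hk : Kc k κd t) {y : ℝ} (hy : y ∈ Icc (0 : ℝ) 1) {s : ℝ} (hs : s ∈ Icc 0 t) :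
    0 ≤ k.fh y s := hk.ok.fh_nonneg hy ⟨hs.1, hs.2.trans hk.t01.2⟩

/-- the pendant density -/
theorem Kc.qq_le (hk : Kc k κd t) {s : ℝ} (hs : s ∈ Icc 0 t) : qq s ≤ k.fh 0 s := by
  have hs1 : s ∈ Icc (0 : ℝ) 1 := ⟨hs.1, hs.2.trans hk.t01.2⟩
  have h1 := hk.ok.b00 s hs1
  have h2 := mul_nonneg (mul_nonneg hk.ok.rho0 hk.ok.sp0) (hk.ok.m0 s hs1)
  unfold qq Kf.fh Kf.b eta
  have h3 : 0 < ((1 + s) ^ 2)⁻¹ := by
    have := hs.1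
    positivity
  rw [min_eq_left (by norm_num : (0 : ℝ) ≤ 1 / 2)]
  nlinarith

theorem qq_cont {t : ℝ} : ContinuousOn qq (Icc 0 t) := by
  unfold qq
  refine ContinuousOn.inv₀ (by fun_prop) fun s hs => ?_
  have := hs.1
  positivity

theorem one_c {t : ℝ} : ContinuousOn (fun _ : ℝ => (1 : ℝ)) (Icc 0 t) := continuousOn_const

/-- a density against the density factor -/
theorem int_fk (h : c.Nn) (hI : c.It R m) (hk : Kc k κd t) (ht : t ∈ Icc c.T0 c.T1)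
    {κ' : ℝ → ℝ} (ck : ContinuousOn κ' (Icc 0 t)) (k0 : ∀ s ∈ Icc 0 t, 0 ≤ κ' s)
    (hκ : ∀ s ∈ Icc 0 t, κ' s ≤ plx 10 c.κ (s / t)) {f : ℝ → ℝ} (cf : ContinuousOn f (Icc 0 t))
    (f0 : ∀ s ∈ Icc 0 t, 0 ≤ f s) {z : ℝ} (hz : z ∈ Icc (0 : ℝ) 1)
    (hf : ∀ s ∈ Icc 0 t, f s ≤ plx 10 (fun l => lp z (c.f0 l) (c.f1 l) (c.f2 l)) (s / t)) :
    ∫ s in (0 : ℝ)..t, f s * κ' s ≤ t * c.α := by
  have h1 := int3_le (n := 10) (by norm_num) hk.t01.1 cf ck (one_c (t := t)) f0 k0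
    (fun _ _ => zero_le_one) hf hκ (w := fun _ => 1) fun s hs => by
      have := div_mem01 hs
      rw [plx_one this.1 this.2]
  simp only [mul_one] at h1
  exact h1.trans (mul_le_mul_of_nonneg_left (tri3_lp_le hz.1 hz.2 hI.α0 hI.α1 hI.α2) hk.t01.1)

/-- the bound of the integrated fluxes -/
theorem Cq.It.al (h : c.Nn) (hI : c.It R m) (hF : c.Fr k κd rr) (hk : Kc k κd t)
    (ht : t ∈ Icc c.T0 c.T1) : Al k κd t (t * c.α) t := by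
  have m0 : (0 : ℝ) ∈ Icc (0 : ℝ) 1 := ⟨le_rfl, zero_le_one⟩
  have cκ := (plx_div_cont 10 c.κ t).continuousOn (s := Icc 0 t)
  have k0 : ∀ s ∈ Icc 0 t, 0 ≤ plx 10 c.κ (s / t) := fun s _ => plx_nonneg h.κ _
  have i00 : (0 : ℝ) ∈ Icc 0 t := ⟨le_rfl, hk.t01.1⟩
  have itt : t ∈ Icc 0 t := ⟨hk.t01.1, le_rfl⟩
  constructor
  · intro w hw y hy
    have e : ∫ s in (0 : ℝ)..t, k.fh y s * κd w t s
        ≤ ∫ s in (0 : ℝ)..t, (1 + t * w) * (k.fh y s * plx 10 c.κ (s / t)) := by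
      refine intervalIntegral.integral_mono_on hk.t01.1
        (ii_of hk.t01.1 ((hk.f hy).mul (hk.kc w hw)) i00 itt)
        (ii_of hk.t01.1 (continuousOn_const.mul ((hk.f hy).mul cκ)) i00 itt) fun s hs => ?_
      have := mul_le_mul_of_nonneg_left (hF.κ t ht s hs w hw) (hk.f0 hy hs)
      linarith
    refine e.trans ?_
    rw [intervalIntegral.integral_const_mul]
    have h1 := int_fk h hI hk ht cκ k0 (fun s _ => le_rfl) (hk.f hy) (fun s hs => hk.f0 hy hs) hy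
      fun s hs => hF.fh ht hs hy
    have h2 : 0 ≤ 1 + t * w := by
      have := mul_nonneg hk.t01.1 hw.1
      linarith
    have := mul_le_mul_of_nonneg_left h1 h2
    linarith
  · intro w hw
    have q0 : ∀ s ∈ Icc 0 t, 0 ≤ qq s := fun s hs => by
      unfold qq
      have := hs.1
      positivity
    have e : ∫ s in (0 : ℝ)..t, qq s * κd w t s
        ≤ ∫ s in (0 : ℝ)..t, (1 + t * w) * (qq s * plx 10 c.κ (s / t)) := by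
      refine intervalIntegral.integral_mono_on hk.t01.1
        (ii_of hk.t01.1 (qq_cont.mul (hk.kc w hw)) i00 itt)
        (ii_of hk.t01.1 (continuousOn_const.mul (qq_cont.mul cκ)) i00 itt) fun s hs => ?_
      have := mul_le_mul_of_nonneg_left (hF.κ t ht s hs w hw) (q0 s hs)
      linarith
    refine e.trans ?_
    rw [intervalIntegral.integral_const_mul]
    have h1 := int_fk h hI hk ht cκ k0 (fun s _ => le_rfl) qq_cont q0 m0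
      fun s hs => (hk.qq_le hs).trans (hF.fh ht hs m0)
    have h2 : 0 ≤ 1 + t * w := by
      have := mul_nonneg hk.t01.1 hw.1
      linarith
    have := mul_le_mul_of_nonneg_left h1 h2
    linarith

theorem Cq.Nn.S_nonneg {c : Cq} (h : c.Nn) {t : ℝ} (t0 : 0 ≤ t) : 0 ≤ c.S t :=
  mul_nonneg (add_nonneg (sq_nonneg _) (mul_nonneg h.μ t0)) t0

theorem Cq.Nn.S_mono {c : Cq} (h : c.Nn) {t t' : ℝ} (t0 : 0 ≤ t) (tt : t ≤ t') :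
    c.S t ≤ c.S t' := by
  have h1 := h.δ
  have h2 := h.μ
  have h3 : 0 ≤ t' := t0.trans tt
  unfold Cq.S
  refine mul_le_mul ?_ tt t0 (by positivity)
  gcongr

/-- the direct error and the amplification -/
theorem Cq.It.t1v (h : c.Nn) (hI : c.It R m) (hF : c.Fr k κd rr) (hX : c.Bx) (hk : Kc k κd t)
    (ht : t ∈ Icc c.T0 c.T1) :
    T1v k κd t c.em c.Bm c.Bf (fun z w => c.S t * ((1 + c.T1 * w) * lp z c.e0 c.e1 c.e2)) := by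
  have t0 := hk.t01.1
  have T10 : 0 ≤ c.T1 := h.T0.trans h.T01
  have cκ := (plx_div_cont 10 c.κh t).continuousOn (s := Icc 0 t)
  have i00 : (0 : ℝ) ∈ Icc 0 t := ⟨le_rfl, hk.t01.1⟩
  have itt : t ∈ Icc 0 t := ⟨hk.t01.1, le_rfl⟩
  have hS := h.S_nonneg t0
  have hSt : c.S t ≤ c.S c.T1 := h.S_mono t0 ht.2
  have q0 : 0 ≤ (t + c.δ) ^ 2 + c.μ * t := add_nonneg (sq_nonneg _) (mul_nonneg h.μ t0)
  -- the integral
  have key : ∀ z ∈ Icc (0 : ℝ) 1, ∀ w ∈ Icc (0 : ℝ) 1,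
      ∫ s in (0 : ℝ)..t, k.fh z s * (κd w t s - k.Pe w t)
        ≤ c.S t * ((1 + c.T1 * w) * lp z c.e0 c.e1 c.e2) := by
    intro z hz w hw
    have e : ∫ s in (0 : ℝ)..t, k.fh z s * (κd w t s - k.Pe w t)
        ≤ ∫ s in (0 : ℝ)..t, ((1 + t * w) * ((t + c.δ) ^ 2 + c.μ * t))
          * (k.fh z s * plx 10 c.κh (s / t)) := by
      refine intervalIntegral.integral_mono_on t0
        (ii_of t0 ((hk.f hz).mul ((hk.kc w hw).sub continuousOn_const)) i00 itt)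
        (ii_of t0 (continuousOn_const.mul ((hk.f hz).mul cκ)) i00 itt) fun s hs => ?_
      have := mul_le_mul_of_nonneg_left (hF.κh t ht s hs w hw) (hk.f0 hz hs)
      linarith
    refine e.trans ?_
    rw [intervalIntegral.integral_const_mul]
    have h1 := int3_le (n := 10) (by norm_num) t0 (hk.f hz) cκ (one_c (t := t))
      (fun s hs => hk.f0 hz hs) (fun s _ => plx_nonneg h.κh _)
      (fun _ _ => zero_le_one) (fun s hs => hF.fh ht hs hz) (fun s _ => le_rfl)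
      (w := fun _ => 1) fun s hs => by
        have := div_mem01 hs
        rw [plx_one this.1 this.2]
    simp only [mul_one] at h1
    rw [tri3_lp] at h1
    have h2 : lp z (tri3 10 c.f0 c.κh fun _ => 1) (tri3 10 c.f1 c.κh fun _ => 1)
        (tri3 10 c.f2 c.κh fun _ => 1) ≤ lp z c.e0 c.e1 c.e2 :=
      lp_mono hz.1 hz.2 hI.e0 hI.e1 hI.e2
    have h3 := h1.trans (mul_le_mul_of_nonneg_left h2 t0)
    have w0 : 0 ≤ 1 + t * w := by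
      have := mul_nonneg t0 hw.1
      linarith
    have h4 := mul_le_mul_of_nonneg_left h3 (mul_nonneg w0 q0)
    have h5 : (1 + t * w) ≤ 1 + c.T1 * w := by
      have := mul_le_mul_of_nonneg_right ht.2 hw.1
      linarith
    have l0 : 0 ≤ lp z c.e0 c.e1 c.e2 := lp_nonneg hz.1 hz.2 h.e0 h.e1 h.e2
    have h6 := mul_le_mul_of_nonneg_right h5 (mul_nonneg hS l0)
    unfold Cq.S at h6 ⊢
    nlinarith
  have hzm : ∀ z w : ℝ, 0 ≤ z → 0 ≤ w → z + w / 2 ≤ 1 → z ∈ Icc (0 : ℝ) 1 :=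
    fun z w z0 w0 h => ⟨z0, by linarith⟩
  constructor
  · intro z w z0 w0 w1 hzw hze hwe
    have hz := hzm z w z0 w0 hzw
    have h1 := hF.bm t ht w ⟨w0, w1⟩ z hz
    have l0 : 0 ≤ lp z c.b0 c.b1 c.b2 := lp_nonneg hz.1 hz.2 h.b0 h.b1 h.b2
    have h5 : (1 + t * w) ≤ 1 + c.T1 * w := by
      have := mul_le_mul_of_nonneg_right ht.2 w0
      linarith
    exact mul_le_mul_of_nonneg_left (h1.trans (mul_le_mul_of_nonneg_right h5 l0)) z0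
  · intro z w z0 w0 w1 hzw hze hwe
    have hz := hzm z w z0 w0 hzw
    have h1 := hF.bm t ht w ⟨w0, w1⟩ z hz
    have l0 : 0 ≤ lp z c.b0 c.b1 c.b2 := lp_nonneg hz.1 hz.2 h.b0 h.b1 h.b2
    have le0 : 0 ≤ lp z c.e0 c.e1 c.e2 := lp_nonneg hz.1 hz.2 h.e0 h.e1 h.e2
    have h5 : (1 + t * w) ≤ 1 + c.T1 * w := by
      have := mul_le_mul_of_nonneg_right ht.2 w0
      linarith
    have h2 := h1.trans (mul_le_mul_of_nonneg_right h5 l0)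
    have h3 := key z hz w ⟨w0, w1⟩
    have w10 : 0 ≤ 1 + c.T1 * w := by
      have := mul_nonneg T10 w0
      linarith
    have h4 : c.S t * ((1 + c.T1 * w) * lp z c.e0 c.e1 c.e2)
        ≤ (1 + c.T1 * w) * (c.S c.T1 * lp z c.e0 c.e1 c.e2) := by
      have := mul_le_mul_of_nonneg_right hSt (mul_nonneg w10 le0)
      linarith
    have h6 : lp z c.b0 c.b1 c.b2 + c.S c.T1 * lp z c.e0 c.e1 c.e2 ≤ lp z c.β0 c.β1 c.β2 := by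
      have e : lp z c.b0 c.b1 c.b2 + c.S c.T1 * lp z c.e0 c.e1 c.e2
          = lp z (c.b0 + c.S c.T1 * c.e0) (c.b1 + c.S c.T1 * c.e1) (c.b2 + c.S c.T1 * c.e2) := by
        unfold lp
        split_ifs <;> ring
      rw [e]
      exact lp_mono hz.1 hz.2 h.β0 h.β1 h.β2
    have h7 := mul_le_mul_of_nonneg_left h6 w10
    refine mul_le_mul_of_nonneg_left ?_ z0
    show _ ≤ (1 + c.T1 * w) * lp z c.β0 c.β1 c.β2
    linarith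
  · intro z w z0 w0 w1 hzw hze hwe
    have hz := hzm z w z0 w0 hzw
    have w10 : 0 ≤ 1 + c.T1 * w := by
      have := mul_nonneg T10 w0
      linarith
    have hS1 : 0 ≤ c.S c.T1 := h.S_nonneg T10
    refine mul_le_mul_of_nonneg_left (mul_le_mul_of_nonneg_left (lp_mono hz.1 hz.2 ?_ ?_ ?_) w10) z0
    · have := mul_nonneg hS1 h.e0
      linarith [h.β0]
    · have := mul_nonneg hS1 h.e1
      linarith [h.β1]
    · have := mul_nonneg hS1 h.e2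
      linarith [h.β2]
  · intro z w z0 w0 w1 hzw hze hwe
    have hz := hzm z w z0 w0 hzw
    -- a triple with `u + y = w`
    have em0 := h.em
    have em1 := h.em1
    have := hX.bf (min w c.em) (w - min w c.em) z ⟨⟨le_min w0 em0,
      sub_nonneg.2 (min_le_left _ _), z0, by linarith,
      by linarith [min_le_right w c.em], by
        rcases le_total w c.em with h1 | h1
        · rw [min_eq_left h1]; linarith [hz.2]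
        · rw [min_eq_right h1]; linarith⟩, min_le_right _ _, by
        rcases le_total w c.em with h1 | h1
        · rw [min_eq_left h1]; linarith
        · rw [min_eq_right h1]; linarith, hze⟩
    rwa [show min w c.em + (w - min w c.em) = w by ring] at this
  · intro z w z0 w0 w1 hzw hze hwe
    exact key z (hzm z w z0 w0 hzw) w ⟨w0, w1⟩

end

end Pool.Agent.RZ.RCN.K
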