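import Pool.Agent.RZ.RCO.BxN
import Pool.Agent.RZ.RCO.T1g

/-! The numbers of a cell and the upper bounds on boxes (MP_73ccd0_lc). -/

namespace Pool.Agent.RZ.RCN.K

open Set Finset Pool.Agent.RZ.RCO.RT Pool.Agent.RZ.RCO.BxN

set_option linter.unusedSectionVars false
set_option linter.unusedVariables false

/-- the element of a list -/
noncomputable def nth (l : List ℕ) : ℕ → ℕ :=
  List.rec (motive := fun _ => ℕ → ℕ) (fun _ => 0)
    (fun a _ ih i => Nat.rec (motive := fun _ => ℕ) a (fun j _ => ih j) i) l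

/-- the numbers of a cell, over `2 ^ 20` -/
structure CqN where
  T0 : ℕ
  T1 : ℕ
  δ : ℕ
  μ : ℕ
  em : ℕ
  pm : ℕ
  f0 : List ℕ
  f1 : List ℕ
  f2 : List ℕ
  κ : List ℕ
  κh : List ℕ
  ρ1 : List ℕ
  ρ2 : List ℕ
  Φ : List ℕ
  Cm : List ℕ
  Em : ℕ
  b0 : ℕ
  b1 : ℕ
  b2 : ℕ
  e0 : ℕ
  e1 : ℕ
  e2 : ℕ
  β0 : ℕ
  β1 : ℕ
  β2 : ℕ
  c0 : ℕ
  c1 : ℕ
  c2 : ℕ
  α : ℕ
  A0 : Cub
  A1 : Cub
  A2 : Cub
  B0 : Cub
  B1 : Cub
  B2 : Cub
  K1 : Cub
  K20 : Cub
  K21 : Cub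
  K22 : Cub
  K3 : Cub
  K40 : Cub
  K41 : Cub
  K42 : Cub
  HA : Cub
  HB : Cub
  RB : Cub
  qa : ℕ
  qb : ℕ
  φ : ℕ
  th : ℕ
  thh : ℕ
  ν0 : ℕ
  v0 : ℕ
  p0 : List ℕ
  x0 : List ℕ
  m0 : List ℕ
  m1 : List ℕ
  C0 : List ℕ
  C1 : List ℕ
  lam : ℕ
  il : ℕ

/-- the interval `(i / 64, (i + 1) / 64]` of a weight -/
noncomputable def ix (u : ℝ) : ℕ := ⌈64 * u⌉₊ - 1

/-- the real numbers of the cell, with the exact shift `δ` -/
noncomputable def CqN.cq (d : CqN) (δ : ℝ) : Cq where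
  T0 := rD d.T0
  T1 := rD d.T1
  δ := δ
  μ := rD d.μ
  em := rD d.em
  pm := rD d.pm
  f0 l := rD (nth d.f0 l)
  f1 l := rD (nth d.f1 l)
  f2 l := rD (nth d.f2 l)
  κ l := rD (nth d.κ l)
  κh l := rD (nth d.κh l)
  ρ0 _ := 1
  ρ1 l := rD (nth d.ρ1 l)
  ρ2 l := rD (nth d.ρ2 l)
  Φ l := rD (nth d.Φ l)
  b0 := rD d.b0
  b1 := rD d.b1
  b2 := rD d.b2
  e0 := rD d.e0
  e1 := rD d.e1
  e2 := rD d.e2
  β0 := rD d.β0
  β1 := rD d.β1
  β2 := rD d.β2
  c0 := rD d.c0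
  c1 := rD d.c1
  c2 := rD d.c2
  α := rD d.α
  A0 := d.A0.ev
  A1 := d.A1.ev
  A2 := d.A2.ev
  B0 := d.B0.ev
  B1 := d.B1.ev
  B2 := d.B2.ev
  K1 := d.K1.ev
  K20 := d.K20.ev
  K21 := d.K21.ev
  K22 := d.K22.ev
  K3 := d.K3.ev
  K40 := d.K40.ev
  K41 := d.K41.ev
  K42 := d.K42.ev
  HA := d.HA.ev
  HB := d.HB.ev
  RB := d.RB.ev
  qa := rD d.qa
  qb := rD d.qb
  φ := rD d.φ
  th := rD d.th
  thh := rD d.thh
  ν0 := rD d.ν0
  v0 := rD d.v0
  p0 u := rD (nth d.p0 (ix u))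
  x0 u := rD (nth d.x0 (ix u))
  m0 u := rD (nth d.m0 (ix u))
  m1 u := rD (nth d.m1 (ix u))
  C0 u := rD (nth d.C0 (ix u))
  C1 u := rD (nth d.C1 (ix u))
  lam := rD d.lam
  il := rD d.il

/-! ### interpolation -/

noncomputable def lpLo (z a b : ℕ) : ℕ :=
  Nat.add (Nat.div (Nat.add (Nat.mul a (Nat.sub 1048576 (Nat.mul 2 z)))
    (Nat.mul b (Nat.mul 2 z))) 1048576) 1
noncomputable def lpHi (z b c : ℕ) : ℕ :=
  Nat.add (Nat.div (Nat.add (Nat.mul b (Nat.sub 2097152 (Nat.mul 2 z)))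
    (Nat.mul c (Nat.sub (Nat.mul 2 z) 1048576))) 1048576) 1
/-- upper bound of the interpolation on a box -/
noncomputable def lp2 (z0 z1 a b c : ℕ) : ℕ :=
  cond (Nat.ble z1 524288) (mx (lpLo z0 a b) (lpLo z1 a b))
    (cond (Nat.ble z0 524287) (mx a (mx b c)) (mx (lpHi z0 b c) (lpHi z1 b c)))

theorem sub_ge_cast (a b : ℕ) : (a : ℝ) - b ≤ ((Nat.sub a b : ℕ) : ℝ) := by
  rcases le_total b a with h | h
  · have : ((Nat.sub a b : ℕ) : ℝ) = a - b := Nat.cast_sub h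
    rw [this]
  · have h1 : (a : ℝ) ≤ b := by exact_mod_cast h
    have : (0 : ℝ) ≤ ((Nat.sub a b : ℕ) : ℝ) := Nat.cast_nonneg _
    linarith

theorem lpLo_ge (z a b : ℕ) :
    (1 - 2 * rD z) * rD a + 2 * rD z * rD b ≤ rD (lpLo z a b) := by
  have h := div_up (a * (1048576 - 2 * z) + b * (2 * z)) 1048576 (by norm_num)
  have e : rD (lpLo z a b)
      = (((a * (1048576 - 2 * z) + b * (2 * z)) / 1048576 + 1 : ℕ) : ℝ) / 1048576 := rfl
  rw [e]
  refine le_trans ?_ (div_le_div_of_nonneg_right h (by norm_num))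
  have h1 := sub_ge_cast 1048576 (2 * z)
  have h2 : ((Nat.sub 1048576 (2 * z) : ℕ) : ℝ) = ((1048576 - 2 * z : ℕ) : ℝ) := rfl
  rw [h2] at h1
  push_cast at h1 ⊢
  have a0 : (0 : ℝ) ≤ a := Nat.cast_nonneg _
  have h3 := mul_le_mul_of_nonneg_left h1 a0
  unfold rD
  rw [div_div, le_div_iff₀ (by norm_num)]
  have e3 : ((1 - 2 * ((z : ℝ) / 1048576)) * ((a : ℝ) / 1048576)
      + 2 * ((z : ℝ) / 1048576) * ((b : ℝ) / 1048576)) * (1048576 * 1048576)
      = a * (1048576 - 2 * z) + b * (2 * z) := by ring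
  rw [e3]
  linarith

theorem lpHi_ge {z : ℕ} (b c : ℕ) (hz : 524288 ≤ z) :
    (2 - 2 * rD z) * rD b + (2 * rD z - 1) * rD c ≤ rD (lpHi z b c) := by
  have h := div_up (b * (2097152 - 2 * z) + c * (2 * z - 1048576)) 1048576 (by norm_num)
  have e : rD (lpHi z b c)
      = (((b * (2097152 - 2 * z) + c * (2 * z - 1048576)) / 1048576 + 1 : ℕ) : ℝ) / 1048576 := rfl
  rw [e]
  refine le_trans ?_ (div_le_div_of_nonneg_right h (by norm_num))
  have h1 := sub_ge_cast 2097152 (2 * z)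
  have h2 : ((Nat.sub 2097152 (2 * z) : ℕ) : ℝ) = ((2097152 - 2 * z : ℕ) : ℝ) := rfl
  rw [h2] at h1
  have h4 : ((2 * z - 1048576 : ℕ) : ℝ) = 2 * z - 1048576 := by
    rw [Nat.cast_sub (by omega)]
    push_cast
    ring
  push_cast at h1 ⊢
  rw [h4]
  have a0 : (0 : ℝ) ≤ b := Nat.cast_nonneg _
  have h3 := mul_le_mul_of_nonneg_left h1 a0
  unfold rD
  rw [div_div, le_div_iff₀ (by norm_num)]
  have e3 : ((2 - 2 * ((z : ℝ) / 1048576)) * ((b : ℝ) / 1048576)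
      + (2 * ((z : ℝ) / 1048576) - 1) * ((c : ℝ) / 1048576)) * (1048576 * 1048576)
      = b * (2097152 - 2 * z) + c * (2 * z - 1048576) := by ring
  rw [e3]
  linarith

theorem line_le {a b x p q : ℝ} (hp : p ≤ x) (hq : x ≤ q) :
    (1 - 2 * x) * a + 2 * x * b ≤ max ((1 - 2 * p) * a + 2 * p * b) ((1 - 2 * q) * a + 2 * q * b) := by
  rcases le_total a b with h | h
  · refine le_trans ?_ (le_max_right _ _)
    nlinarith [mul_nonneg (sub_nonneg.2 hq) (sub_nonneg.2 h)]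
  · refine le_trans ?_ (le_max_left _ _)
    nlinarith [mul_nonneg (sub_nonneg.2 hp) (sub_nonneg.2 h)]

theorem lp2_mid {z : ℝ} (hz0 : 0 ≤ z) (hz1 : z ≤ 1) (a b c : ℕ) :
    U (lp z (rD a) (rD b) (rD c)) (mx a (mx b c)) := by
      have m : lp z (rD a) (rD b) (rD c) ≤ max (rD a) (max (rD b) (rD c)) := lp_le_max ⟨hz0, hz1⟩
      have e : ∀ a b : ℕ, max (rD a) (rD b) ≤ rD (mx a b) := fun a b => by
        rw [mx_eq]
        exact max_le (rD_mono (le_max_left _ _)) (rD_mono (le_max_right _ _))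
      exact m.trans ((max_le_max le_rfl (e b c)).trans (e a (mx b c)))

theorem lp2_hi {z : ℝ} {z0 z1 : ℕ} (hz : Inb z z0 z1) (h3 : 524288 ≤ z0) (a b c : ℕ) :
    U (lp z (rD a) (rD b) (rD c)) (mx (lpHi z0 b c) (lpHi z1 b c)) := by
      have hlo : 1 / 2 ≤ z := by
        rw [← rD_half]
        exact (rD_mono h3).trans hz.2.1
      have e : lp z (rD a) (rD b) (rD c) = (2 - 2 * z) * rD b + (2 * z - 1) * rD c := by
        unfold lp
        split_ifs with h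
        · have : z = 1 / 2 := le_antisymm h hlo
          rw [this]; ring
        · rfl
      rw [e]
      have e2 : ∀ x : ℝ, (2 - 2 * x) * rD b + (2 * x - 1) * rD c
          = (1 - 2 * (x - 1 / 2)) * rD b + 2 * (x - 1 / 2) * rD c := fun x => by ring
      have l1 := lpHi_ge b c h3
      have h31 : 524288 ≤ z1 := by
        have : rD z0 ≤ rD z1 := hz.2.1.trans hz.2.2
        exact h3.trans (rD_le.1 this)
      have l2 := lpHi_ge b c h31
      have := line_le (a := rD b) (b := rD c) (x := z - 1 / 2) (p := rD z0 - 1 / 2)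
        (q := rD z1 - 1 / 2) (by linarith [hz.2.1]) (by linarith [hz.2.2])
      rw [← e2, ← e2, ← e2] at this
      refine this.trans (max_le ?_ ?_)
      · exact U.mx1 (a := lpHi z0 b c) (b := lpHi z1 b c) l1
      · exact U.mx2 (a := lpHi z0 b c) (b := lpHi z1 b c) l2

theorem lp2_lo {z : ℝ} {z0 z1 : ℕ} (hz : Inb z z0 z1) (h3 : z1 ≤ 524288) (a b c : ℕ) :
    U (lp z (rD a) (rD b) (rD c)) (mx (lpLo z0 a b) (lpLo z1 a b)) := by
    have hhi : z ≤ 1 / 2 := by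
      rw [← rD_half]
      exact hz.2.2.trans (rD_mono h3)
    have e : lp z (rD a) (rD b) (rD c) = (1 - 2 * z) * rD a + 2 * z * rD b := by
      unfold lp
      rw [if_pos hhi]
    rw [e]
    refine (line_le hz.2.1 hz.2.2).trans (max_le ?_ ?_)
    · exact U.mx1 (a := lpLo z0 a b) (b := lpLo z1 a b) (lpLo_ge z0 a b)
    · exact U.mx2 (a := lpLo z0 a b) (b := lpLo z1 a b) (lpLo_ge z1 a b)

/-- **the interpolation on a box** -/
theorem lp2_ge {z : ℝ} {z0 z1 : ℕ} (hz : Inb z z0 z1) (hz1 : z ≤ 1) (a b c : ℕ) :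
    U (lp z (rD a) (rD b) (rD c)) (lp2 z0 z1 a b c) := by
  have z0' := hz.nonneg
  have key : ∀ (b1 b2 : Bool), Nat.ble z1 524288 = b1 → Nat.ble z0 524287 = b2 → ∀ X Y W : ℕ,
      (b1 = true → U (lp z (rD a) (rD b) (rD c)) X) →
      (b2 = true → U (lp z (rD a) (rD b) (rD c)) Y) →
      (b2 = false → U (lp z (rD a) (rD b) (rD c)) W) →
      U (lp z (rD a) (rD b) (rD c)) (cond b1 X (cond b2 Y W)) := by
    intro b1 b2 _ _ X Y W h1 h2 h3
    cases b1
    · cases b2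
      · exact h3 rfl
      · exact h2 rfl
    · exact h1 rfl
  refine key _ _ rfl rfl _ _ _ (fun h1 => lp2_lo hz (Nat.le_of_ble_eq_true h1) a b c)
    (fun _ => lp2_mid z0' hz1 a b c) (fun h2 => lp2_hi hz ?_ a b c)
  by_contra h4
  have : Nat.ble z0 524287 = true := Nat.ble_eq_true_of_le (by omega)
  rw [this] at h2
  cases h2
/-- the cubic on a box of the first variable -/
noncomputable def lpC (z0 z1 : ℕ) (a b c : Cub) : Cub :=
  (lp2 z0 z1 a.1 b.1 c.1, lp2 z0 z1 a.2.1 b.2.1 c.2.1, lp2 z0 z1 a.2.2.1 b.2.2.1 c.2.2.1,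
    lp2 z0 z1 a.2.2.2 b.2.2.2 c.2.2.2)

theorem lpC_ge {z : ℝ} {z0 z1 : ℕ} (hz : Inb z z0 z1) (hz1 : z ≤ 1) (a b c : Cub) {k : ℝ}
    (hk : k ∈ Icc (0 : ℝ) 1) :
    lp z (a.ev k) (b.ev k) (c.ev k) ≤ (lpC z0 z1 a b c).ev k := by
  have e : lp z (a.ev k) (b.ev k) (c.ev k)
      = cubR (lp z (rD a.1) (rD b.1) (rD c.1)) (lp z (rD a.2.1) (rD b.2.1) (rD c.2.1))
        (lp z (rD a.2.2.1) (rD b.2.2.1) (rD c.2.2.1))
        (lp z (rD a.2.2.2) (rD b.2.2.2) (rD c.2.2.2)) k := by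
    unfold Cub.ev cubR RD rD lp
    split_ifs <;> (push_cast; ring)
  rw [e]
  have r : ∀ n : ℕ, (n : ℝ) / (RD : ℝ) = rD n := fun n => by unfold RD rD; norm_num
  unfold Cub.ev
  rw [r, r, r, r]
  exact cubR_mono (lp2_ge hz hz1 _ _ _) (lp2_ge hz hz1 _ _ _) (lp2_ge hz hz1 _ _ _)
    (lp2_ge hz hz1 _ _ _) hk.1 hk.2

/-- the value of a cubic at a point, from above -/
noncomputable def evN (p : Cub) (k : ℕ) : ℕ :=
  Nat.add (Nat.add (mu (mu (mu (Nat.sub 1048576 k) (Nat.sub 1048576 k)) (Nat.sub 1048576 k)) p.1)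
      (mu (Nat.mul 3 (mu (mu (Nat.sub 1048576 k) (Nat.sub 1048576 k)) k)) p.2.1))
    (Nat.add (mu (Nat.mul 3 (mu (mu k k) (Nat.sub 1048576 k))) p.2.2.1)
      (mu (mu (mu k k) k) p.2.2.2))

/-- nonincreasing coefficients -/
noncomputable def antB (p : Cub) : Bool :=
  cond (Nat.ble p.2.1 p.1) (cond (Nat.ble p.2.2.1 p.2.1) (Nat.ble p.2.2.2 p.2.2.1) false) false

theorem antB_ok {p : Cub} (h : antB p = true) : p.Anti := by
  unfold antB at h
  rcases h1 : Nat.ble p.2.1 p.1 with _ | _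
  · rw [h1] at h; simp at h
  · rw [h1] at h
    rcases h2 : Nat.ble p.2.2.1 p.2.1 with _ | _
    · rw [h2] at h; simp at h
    · rw [h2] at h
      simp only [cond_true] at h
      exact ⟨Nat.le_of_ble_eq_true h1, Nat.le_of_ble_eq_true h2, Nat.le_of_ble_eq_true h⟩

/-- **the value of a nonincreasing cubic beyond a point** -/
theorem evN_ge {p : Cub} (hp : p.Anti) {k : ℝ} {k0 : ℕ} (h0 : L k k0) (h1 : k ≤ 1) :
    U (p.ev k) (evN p k0) := by
  have k00 := rD_nonneg k0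
  have hk1 : rD k0 ≤ 1 := h0.trans h1
  have hk : k0 ≤ 1048576 := by
    rw [← rD_one] at hk1
    exact rD_le.1 hk1
  refine U.mono ?_ (Cub.ev_anti hp k00 h0 h1)
  have hl : U (1 - rD k0) (Nat.sub 1048576 k0) := by
    have := rD_sub_ge 1048576 k0
    rw [rD_one] at this
    exact this
  have l0 : 0 ≤ 1 - rD k0 := by linarith
  have hkk : U (rD k0) k0 := le_rfl
  have e1 : ∀ n : ℕ, U (rD n) n := fun n => le_rfl
  have r : ∀ n : ℕ, (n : ℝ) / (RD : ℝ) = rD n := fun n => by unfold RD rD; norm_num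
  have hll := hl.mu hl l0 l0
  have hk2 := hkk.mu hkk k00 k00
  have ll0 : 0 ≤ (1 - rD k0) * (1 - rD k0) := mul_nonneg l0 l0
  have kk0 : 0 ≤ rD k0 * rD k0 := mul_nonneg k00 k00
  have p1 := (hll.mu hl ll0 l0).mu (e1 p.1) (mul_nonneg ll0 l0) (rD_nonneg _)
  have p2 := (hll.mu hkk ll0 k00).three.mu (e1 p.2.1)
    (mul_nonneg zero_le_three (mul_nonneg ll0 k00)) (rD_nonneg _)
  have p3 := (hk2.mu hl kk0 l0).three.mu (e1 p.2.2.1)
    (mul_nonneg zero_le_three (mul_nonneg kk0 l0)) (rD_nonneg _)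
  have p4 := (hk2.mu hkk kk0 k00).mu (e1 p.2.2.2) (mul_nonneg kk0 k00) (rD_nonneg _)
  have := (p1.add p2).add (p3.add p4)
  refine this.mono (le_of_eq ?_)
  unfold Cub.ev cubR
  rw [r, r, r, r]
  ring

/-! ### nonincreasing lists -/

def AntL (l : List ℕ) : Prop := ∀ i j, i ≤ j → nth l j ≤ nth l i

noncomputable def antLB (l : List ℕ) : Bool :=
  List.rec (motive := fun _ => Bool) true (fun a l ih => cond (Nat.ble (nth l 0) a) ih false) l

theorem nth_zero (a : ℕ) (l : List ℕ) : nth (a :: l) 0 = a := rfl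
theorem nth_succ (a : ℕ) (l : List ℕ) (i : ℕ) : nth (a :: l) (i + 1) = nth l i := rfl

theorem antLB_ok (l : List ℕ) (h : antLB l = true) : AntL l := by
  induction l with
  | nil => exact fun i j _ => le_rfl
  | cons a l ih =>
    have e : antLB (a :: l) = cond (Nat.ble (nth l 0) a) (antLB l) false := rfl
    rw [e] at h
    rcases h1 : Nat.ble (nth l 0) a with _ | _
    · rw [h1] at h; simp at h
    · rw [h1] at h
      simp only [cond_true] at h
      have h2 := Nat.le_of_ble_eq_true h1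
      have h3 := ih h
      intro i j hij
      cases j with
      | zero =>
        have : i = 0 := by omega
        rw [this]
      | succ j =>
        cases i with
        | zero =>
          rw [nth_succ, nth_zero]
          exact (h3 0 j (Nat.zero_le _)).trans h2
        | succ i =>
          rw [nth_succ, nth_succ]
          exact h3 i j (by omega)

/-- the interval of the left end -/
noncomputable def iLo (u0 : ℕ) : ℕ := Nat.div u0 16384
/-- the interval of the right end -/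
noncomputable def iHi (u1 : ℕ) : ℕ := Nat.sub (Nat.div (Nat.add u1 16383) 16384) 1

theorem iLo_le {u : ℝ} {u0 u1 : ℕ} (hu : Inb u u0 u1) : iLo u0 ≤ ix u := by
  have e : iLo u0 = u0 / 16384 := rfl
  rw [e]
  unfold ix
  set k := u0 / 16384 with hk
  have hk1 : k * 16384 ≤ u0 := Nat.div_mul_le_self u0 16384
  rcases hu.1 with h | h
  · have h1 : (k : ℝ) < 64 * u := by
      have h2 : ((k * 16384 : ℕ) : ℝ) ≤ (u0 : ℝ) := by exact_mod_cast hk1
      push_cast at h2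
      unfold rD at h
      rw [div_lt_iff₀ (by norm_num)] at h
      linarith
    have h3 : k < ⌈64 * u⌉₊ := Nat.lt_ceil.2 h1
    omega
  · have : k = 0 := by rw [hk, h]
    omega

theorem le_iHi {u : ℝ} {u0 u1 : ℕ} (hu : Inb u u0 u1) : ix u ≤ iHi u1 := by
  have e : iHi u1 = (u1 + 16383) / 16384 - 1 := rfl
  rw [e]
  unfold ix
  refine Nat.sub_le_sub_right ?_ 1
  rw [Nat.ceil_le]
  have h1 : u1 ≤ 16384 * ((u1 + 16383) / 16384) := by omega
  have h2 : (u1 : ℝ) ≤ 16384 * (((u1 + 16383) / 16384 : ℕ) : ℝ) := by exact_mod_cast h1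
  have h3 := hu.2.2
  unfold rD at h3
  rw [le_div_iff₀ (by norm_num)] at h3
  linarith

theorem U_idx {l : List ℕ} (hl : AntL l) {u : ℝ} {u0 u1 : ℕ} (hu : Inb u u0 u1) :
    U (rD (nth l (ix u))) (nth l (iLo u0)) := rD_mono (hl _ _ (iLo_le hu))

theorem L_idx {l : List ℕ} (hl : AntL l) {u : ℝ} {u0 u1 : ℕ} (hu : Inb u u0 u1) :
    L (rD (nth l (ix u))) (nth l (iHi u1)) := rD_mono (hl _ _ (le_iHi hu))

end Pool.Agent.RZ.RCN.K
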