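import Pool.Agent.RZ.RCO.T1f
import Pool.Agent.RZ.RCO.T1i

/-! The function of a triple on a box, from above (MP_73ccd0_lc). -/

namespace Pool.Agent.RZ.RCN.K

open Set Finset Pool.Agent.RZ.RCO.RT Pool.Agent.RZ.RCO.BxN

set_option linter.unusedSectionVars false
set_option linter.unusedVariables false

/-- the weight of a pair -/
noncomputable def jj (u y : ℝ) : ℝ := if y ≤ u then y + y ^ 2 / u - y ^ 3 / u ^ 2 else u

theorem jj_nonneg {u y : ℝ} (u0 : 0 ≤ u) (y0 : 0 ≤ y) : 0 ≤ jj u y := by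
  unfold jj
  split_ifs with h
  · rcases eq_or_lt_of_le u0 with h0 | h0
    · have : y = 0 := le_antisymm (h.trans (le_of_eq h0.symm)) y0
      rw [this]; simp
    · have e : y ^ 3 / u ^ 2 ≤ y ^ 2 / u := by
        rw [div_le_div_iff₀ (by positivity) h0]
        nlinarith [mul_nonneg (mul_nonneg (sq_nonneg y) u0) (sub_nonneg.2 h)]
      linarith
  · exact u0

/-- an upper bound of the weight on a box -/
theorem jj_le {u y u0 u1 y1 : ℝ} (hu0 : 0 ≤ u0) (h0 : u0 ≤ u) (h1 : u ≤ u1) (y0 : 0 ≤ y)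
    (hy : y ≤ y1) : jj u y ≤ u1 ∧ (0 < u0 → jj u y ≤ y1 + y1 ^ 2 / u0) := by
  have hu : 0 ≤ u := hu0.trans h0
  unfold jj
  split_ifs with h
  · rcases eq_or_lt_of_le hu with h2 | h2
    · have : y = 0 := le_antisymm (h.trans (le_of_eq h2.symm)) y0
      rw [this]
      simp only [ne_eq, OfNat.ofNat_ne_zero, not_false_eq_true, zero_pow, zero_div, add_zero,
        sub_zero]
      refine ⟨by linarith, fun h3 => ?_⟩
      have : 0 ≤ y1 := y0.trans hy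
      positivity
    · have e3 : 0 ≤ y ^ 3 / u ^ 2 := by positivity
      constructor
      · have e : y + y ^ 2 / u - y ^ 3 / u ^ 2 ≤ u := by
          have : y + y ^ 2 / u - y ^ 3 / u ^ 2 - u = -((u - y) ^ 2 * (u + y)) / u ^ 2 := by
            field_simp
            ring
          have h5 : 0 ≤ (u - y) ^ 2 * (u + y) / u ^ 2 := by positivity
          have h6 : -((u - y) ^ 2 * (u + y)) / u ^ 2 = -((u - y) ^ 2 * (u + y) / u ^ 2) := by ring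
          linarith
        linarith
      · intro h3
        have e4 : y ^ 2 / u ≤ y1 ^ 2 / u0 :=
          div_le_div₀ (sq_nonneg _) (pow_le_pow_left₀ y0 hy 2) h3 h0
        linarith
  · push Not at h
    refine ⟨h1, fun h3 => ?_⟩
    have : 0 ≤ y1 ^ 2 / u0 := by positivity
    linarith

/-- the weight of a pair below the weight without the masses -/
theorem jh_le {u y z : ℝ} (h : Dm u y z) : jh u y z ≤ jj u y * (1 - z - min u y) := by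
  obtain ⟨u0, y0, z0, uy, uz, yz⟩ := h
  unfold jh jj
  split_ifs with h
  · rw [min_eq_right h]
    rcases eq_or_lt_of_le u0 with h0 | h0
    · have : y = 0 := le_antisymm (h.trans (le_of_eq h0.symm)) y0
      rw [this]; simp
    · have e : (y + y ^ 2 / u - y ^ 3 / u ^ 2) * (1 - z - y)
          - (y * (1 - y - z) * (1 - y ^ 2 / u ^ 2) + y ^ 2 / u * (1 - u - z))
          = y ^ 2 / u * (u - y) := by
        field_simp
        ring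
      have : 0 ≤ y ^ 2 / u * (u - y) := mul_nonneg (by positivity) (by linarith)
      linarith
  · push Not at h
    rw [min_eq_left h.le]
    exact le_of_eq (by ring)

namespace CqN

variable (d : CqN)

/-- `1 + T1 x` -/
noncomputable def fT (x : ℕ) : ℕ := Nat.add 1048576 (mu d.T1 x)
noncomputable def zE (z0 z1 : ℕ) : ℕ := lp2 z0 z1 d.e0 d.e1 d.e2
noncomputable def zM (z0 z1 : ℕ) : ℕ := lp2 z0 z1 d.b0 d.b1 d.b2
noncomputable def zF (z0 z1 : ℕ) : ℕ := lp2 z0 z1 d.β0 d.β1 d.β2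
noncomputable def zA (z0 z1 : ℕ) : Cub := lpC z0 z1 d.A0 d.A1 d.A2
noncomputable def zB (z0 z1 : ℕ) : Cub := lpC z0 z1 d.B0 d.B1 d.B2
noncomputable def zK2 (z0 z1 : ℕ) : Cub := lpC z0 z1 d.K20 d.K21 d.K22
noncomputable def zK4 (z0 z1 : ℕ) : Cub := lpC z0 z1 d.K40 d.K41 d.K42
noncomputable def vzU (z0 z1 : ℕ) : ℕ :=
  cond (Nat.ble z0 0) (mu (mu d.ν0 d.ν0) z1)
    (mn (mu (mu d.ν0 d.ν0) z1) (qu (mu d.v0 d.v0) z0))
noncomputable def nuL (z1 : ℕ) : ℕ := mn d.ν0 (qd d.v0 z1)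

noncomputable def yP (z0 z1 y0 y1 : ℕ) : ℕ :=
  Nat.add (mu (d.fT y1) (evN (d.zA z0 z1) (Nat.add y0 z0)))
    (hf (Nat.add (mu (evN d.K1 (Nat.add y0 z0)) (d.vzU z0 z1))
      (mu (mu (evN (d.zK2 z0 z1) (Nat.add y0 z0)) z1) (mu (d.fT y1) (d.fT y1)))))
noncomputable def yQ (z0 z1 y0 : ℕ) : ℕ :=
  Nat.add (evN (d.zB z0 z1) (Nat.add y0 z0)) (hf (mu (evN (d.zK4 z0 z1) (Nat.add y0 z0)) z1))
noncomputable def yR (z0 z1 y0 : ℕ) : ℕ := hf (mu (evN d.K3 (Nat.add y0 z0)) (d.vzU z0 z1))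

noncomputable def bh (z0 z1 w1 : ℕ) : ℕ := mu (d.fT w1) (d.zF z0 z1)
noncomputable def bf (z0 z1 w1 : ℕ) : ℕ := mu z1 (d.bh z0 z1 w1)
noncomputable def bm (z0 z1 w1 : ℕ) : ℕ := mu z1 (mu (d.fT w1) (d.zM z0 z1))
noncomputable def q1 (z0 z1 w1 : ℕ) : ℕ := qu 1048576 (Nat.sub 1048576 (d.bf z0 z1 w1))
noncomputable def q2 (z0 z1 w1 : ℕ) : ℕ := qu 1048576 (Nat.sub 1048576 (d.bm z0 z1 w1))
noncomputable def dir (z0 z1 w1 : ℕ) : ℕ :=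
  mu (mu (mu (d.fT w1) (d.zE z0 z1)) (d.q1 z0 z1 w1)) (d.q2 z0 z1 w1)
noncomputable def rz (z0 z1 w1 : ℕ) : ℕ :=
  Nat.sub (mu (d.bh z0 z1 w1) (Nat.add (d.q1 z0 z1 w1) (mu (d.q1 z0 z1 w1) (d.q1 z0 z1 w1))))
    (d.nuL z1)
noncomputable def l0 (u0 z0 : ℕ) : ℕ := Nat.sub (Nat.sub 1048576 u0) z0
noncomputable def hh (z0 y0 u0 : ℕ) : ℕ :=
  Nat.add (Nat.add (evN d.HA (Nat.add y0 z0)) (mu (l0 u0 z0) (evN d.HB (Nat.add y0 z0))))
    (mu d.qb (evN d.RB (Nat.add y0 z0)))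
noncomputable def lK (z0 y0 u0 : ℕ) : ℕ :=
  Nat.add (mu (l0 u0 z0) (d.hh z0 y0 u0)) (mu d.qa (evN d.K1 (Nat.add y0 z0)))
noncomputable def nU (z1 y1 u0 : ℕ) : ℕ := Nat.add (Nat.sub 1048576 u0) (mu d.T1 (mu z1 y1))
noncomputable def W0 (z0 z1 y0 y1 u0 u1 : ℕ) : ℕ :=
  mu (d.fT u1) (Nat.add (Nat.add (d.yP z0 z1 y0 y1) (mu (d.nU z1 y1 u0) (d.yQ z0 z1 y0)))
    (Nat.add (mu (l0 u0 z0) (d.yR z0 z1 y0))
      (mu (d.rz z0 z1 (Nat.add u1 y1)) (d.lK z0 y0 u0))))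
noncomputable def W1 (z0 z1 y0 y1 u0 u1 : ℕ) : ℕ :=
  mu (mu d.T1 (d.fT u1)) (Nat.add (Nat.add (d.yQ z0 z1 y0) (d.yR z0 z1 y0))
    (mu (d.rz z0 z1 (Nat.add u1 y1)) (d.hh z0 y0 u0)))
noncomputable def gU (u0 u1 : ℕ) : ℕ := lp2 u0 u1 d.c0 d.c1 d.c2
noncomputable def ph (y1 u0 : ℕ) : ℕ :=
  cond (Nat.ble (Nat.mul 2 y1) u0)
    (cond (Nat.ble (qu y1 u0) 524288) (Nat.sub (Nat.add 1048576 (qu y1 u0))
      (md (qu y1 u0) (qu y1 u0))) 1310720) 1310720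
noncomputable def jU (u0 u1 y1 : ℕ) : ℕ := mn u1 (mu y1 (ph y1 u0))
noncomputable def jH (z0 y0 y1 u0 u1 : ℕ) : ℕ :=
  mu (jU u0 u1 y1) (Nat.sub (Nat.sub 1048576 z0) (mn u0 y0))
/-- the factor of the product of the means -/
noncomputable def X (z0 z1 y0 y1 u0 u1 : ℕ) : ℕ :=
  mu (d.gU u0 u1) (Nat.add (mu (nth d.C1 (iLo u0)) (d.W0 z0 z1 y0 y1 u0 u1))
    (mu (Nat.add (nth d.C0 (iLo u0)) (mu (nth d.C1 (iLo u0)) (mu d.em (Nat.sub 1048576 u0))))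
      (d.W1 z0 z1 y0 y1 u0 u1)))
/-- **the bound of `F`** -/
noncomputable def F (z0 z1 y0 y1 u0 u1 : ℕ) : ℕ :=
  Nat.add (mu (d.gU u0 u1) (Nat.add (d.dir z0 z1 (Nat.add u1 y1))
    (mu (Nat.add (nth d.C0 (iLo u0)) (mu (nth d.C1 (iLo u0)) (mu z1 y1)))
      (d.W0 z0 z1 y0 y1 u0 u1))))
    (Nat.add (mu (hf (l0 u0 z0)) (mu (mu d.lam u1)
      (mu (d.X z0 z1 y0 y1 u0 u1) (d.X z0 z1 y0 y1 u0 u1)))) (mu d.il (jH z0 y0 y1 u0 u1)))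

end CqN

section

variable {d : CqN} {δ : ℝ} {u y z : ℝ} {u0 u1 y0 y1 z0 z1 : ℕ}

/-- a point in a box -/
structure Pt3 (u y z : ℝ) (u0 u1 y0 y1 z0 z1 : ℕ) : Prop where
  d : Dm u y z
  u : Inb u u0 u1
  y : Inb y y0 y1
  z : Inb z z0 z1

theorem Urf (n : ℕ) : U (rD n) n := le_rfl
theorem Lrf (n : ℕ) : L (rD n) n := le_rfl

theorem fT_ge {x : ℝ} {n : ℕ} (h : U x n) (x0 : 0 ≤ x) : U (1 + rD d.T1 * x) (d.fT n) :=
  U.one.add ((Urf d.T1).mu h (rD_nonneg _) x0)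

theorem lp_nn {z : ℝ} (hz : z ∈ Icc (0 : ℝ) 1) (a b c : ℕ) : 0 ≤ lp z (rD a) (rD b) (rD c) :=
  lp_nonneg hz.1 hz.2 (rD_nonneg _) (rD_nonneg _) (rD_nonneg _)

theorem Pt3.w (h : Pt3 u y z u0 u1 y0 y1 z0 z1) : U (u + y) (Nat.add u1 y1) := h.u.up.add h.y.up

theorem f1_nn {x : ℝ} (x0 : 0 ≤ x) : 0 ≤ 1 + rD d.T1 * x := by
  have := mul_nonneg (rD_nonneg d.T1) x0
  linarith

theorem bh_ge (h : Pt3 u y z u0 u1 y0 y1 z0 z1) :
    0 ≤ (d.cq δ).bh z (u + y) ∧ U ((d.cq δ).bh z (u + y)) (d.bh z0 z1 (Nat.add u1 y1)) := by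
  have hz := h.d.mem.2.2.1
  have w0 : 0 ≤ u + y := add_nonneg h.d.1 h.d.2.1
  have e : (d.cq δ).bh z (u + y) = (1 + rD d.T1 * (u + y)) * lp z (rD d.β0) (rD d.β1) (rD d.β2) :=
    rfl
  rw [e]
  refine ⟨mul_nonneg (f1_nn w0) (lp_nn hz _ _ _), ?_⟩
  exact (fT_ge h.w w0).mu (lp2_ge h.z hz.2 _ _ _) (f1_nn w0) (lp_nn hz _ _ _)

theorem bf_ge (h : Pt3 u y z u0 u1 y0 y1 z0 z1) :
    0 ≤ (d.cq δ).Bf z (u + y) ∧ U ((d.cq δ).Bf z (u + y)) (d.bf z0 z1 (Nat.add u1 y1)) := by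
  have hz := h.d.mem.2.2.1
  obtain ⟨b0, b1⟩ := bh_ge (δ := δ) (d := d) h
  exact ⟨mul_nonneg hz.1 b0, h.z.up.mu b1 hz.1 b0⟩

theorem bm_ge (h : Pt3 u y z u0 u1 y0 y1 z0 z1) :
    0 ≤ (d.cq δ).Bm z (u + y) ∧ U ((d.cq δ).Bm z (u + y)) (d.bm z0 z1 (Nat.add u1 y1)) := by
  have hz := h.d.mem.2.2.1
  have w0 : 0 ≤ u + y := add_nonneg h.d.1 h.d.2.1
  have e : (d.cq δ).Bm z (u + y)
      = z * ((1 + rD d.T1 * (u + y)) * lp z (rD d.b0) (rD d.b1) (rD d.b2)) := rfl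
  rw [e]
  have n1 := mul_nonneg (f1_nn (d := d) w0) (lp_nn hz d.b0 d.b1 d.b2)
  exact ⟨mul_nonneg hz.1 n1, h.z.up.mu
    ((fT_ge h.w w0).mu (lp2_ge h.z hz.2 _ _ _) (f1_nn w0) (lp_nn hz _ _ _)) hz.1 n1⟩

/-- the reciprocal of `1 - B` -/
theorem inv_ge {B : ℝ} {b : ℕ} (hB : U B b) (hb : b < 1048576) :
    0 < 1 - B ∧ U (1 - B)⁻¹ (qu 1048576 (Nat.sub 1048576 b)) := by
  have h1 : L (1 - B) (Nat.sub 1048576 b) := L.one.sub hB hb.le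
  have h2 : 0 < Nat.sub 1048576 b := Nat.sub_pos_of_lt hb
  exact ⟨(rD_pos h2).trans_le h1, U.inv h1 h2⟩

theorem dir_ge (h : Pt3 u y z u0 u1 y0 y1 z0 z1) (h1 : d.bf z0 z1 (Nat.add u1 y1) < 1048576)
    (h2 : d.bm z0 z1 (Nat.add u1 y1) < 1048576) :
    0 ≤ (1 + (d.cq δ).T1 * (u + y)) * lp z (d.cq δ).e0 (d.cq δ).e1 (d.cq δ).e2
      / ((1 - (d.cq δ).Bm z (u + y)) * (1 - (d.cq δ).Bf z (u + y)))
    ∧ U ((1 + (d.cq δ).T1 * (u + y)) * lp z (d.cq δ).e0 (d.cq δ).e1 (d.cq δ).e2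
      / ((1 - (d.cq δ).Bm z (u + y)) * (1 - (d.cq δ).Bf z (u + y))))
      (d.dir z0 z1 (Nat.add u1 y1)) := by
  have hz := h.d.mem.2.2.1
  have w0 : 0 ≤ u + y := add_nonneg h.d.1 h.d.2.1
  obtain ⟨i1, j1⟩ := inv_ge (bf_ge (δ := δ) (d := d) h).2 h1
  obtain ⟨i2, j2⟩ := inv_ge (bm_ge (δ := δ) (d := d) h).2 h2
  set Bf := (d.cq δ).Bf z (u + y)
  set Bm := (d.cq δ).Bm z (u + y)
  have n1 : 0 ≤ 1 + rD d.T1 * (u + y) := f1_nn w0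
  have n2 : 0 ≤ lp z (rD d.e0) (rD d.e1) (rD d.e2) := lp_nn hz _ _ _
  have e : (1 + (d.cq δ).T1 * (u + y)) * lp z (d.cq δ).e0 (d.cq δ).e1 (d.cq δ).e2
      / ((1 - Bm) * (1 - Bf))
      = (1 + rD d.T1 * (u + y)) * lp z (rD d.e0) (rD d.e1) (rD d.e2) * (1 - Bf)⁻¹
        * (1 - Bm)⁻¹ := by
    have : (1 + (d.cq δ).T1 * (u + y)) * lp z (d.cq δ).e0 (d.cq δ).e1 (d.cq δ).e2
      = (1 + rD d.T1 * (u + y)) * lp z (rD d.e0) (rD d.e1) (rD d.e2) := rfl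
    rw [this]
    field_simp
  rw [e]
  have k1 := mul_nonneg (mul_nonneg n1 n2) (inv_nonneg.2 i1.le)
  refine ⟨mul_nonneg k1 (inv_nonneg.2 i2.le), ?_⟩
  exact (((fT_ge h.w w0).mu (lp2_ge h.z hz.2 _ _ _) n1 n2).mu j1 (mul_nonneg n1 n2)
    (inv_nonneg.2 i1.le)).mu j2 k1 (inv_nonneg.2 i2.le)

theorem nuLo_le (hz : Inb z z0 z1) (z0' : 0 ≤ z) :
    L (if z = 0 then (d.cq δ).ν0 else min (d.cq δ).ν0 ((d.cq δ).v0 / z)) (d.nuL z1) := by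
  split_ifs with h
  · show rD (mn d.ν0 (qd d.v0 z1)) ≤ rD d.ν0
    rw [mn_eq]
    exact rD_mono (min_le_left _ _)
  · have hp : 0 < z := lt_of_le_of_ne z0' (Ne.symm h)
    exact (Lrf d.ν0).mn ((Lrf d.v0).qd hz.up hp)

theorem rz_ge (h : Pt3 u y z u0 u1 y0 y1 z0 z1) (h1 : d.bf z0 z1 (Nat.add u1 y1) < 1048576) :
    U ((d.cq δ).rz z (u + y)) (d.rz z0 z1 (Nat.add u1 y1)) := by
  have hz := h.d.mem.2.2.1
  obtain ⟨i1, j1⟩ := inv_ge (bf_ge (δ := δ) (d := d) h).2 h1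
  obtain ⟨b0, b1⟩ := bh_ge (δ := δ) (d := d) h
  have ii := inv_nonneg.2 i1.le
  have e : (d.cq δ).bh z (u + y) * (2 - (d.cq δ).Bf z (u + y)) / (1 - (d.cq δ).Bf z (u + y)) ^ 2
      = (d.cq δ).bh z (u + y) * ((1 - (d.cq δ).Bf z (u + y))⁻¹
        + (1 - (d.cq δ).Bf z (u + y))⁻¹ * (1 - (d.cq δ).Bf z (u + y))⁻¹) := by
    have := i1.ne'
    field_simp
    ring
  unfold Cq.rz
  rw [e]
  exact (b1.mu (j1.add (j1.mu j1 ii ii)) b0 (add_nonneg ii (mul_nonneg ii ii))).sub0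
    (nuLo_le h.z hz.1)

theorem vz_ge (hz : Inb z z0 z1) : U ((d.cq δ).vz z) (d.vzU z0 z1) := by
  have z0' := hz.nonneg
  have n0 := rD_nonneg d.ν0
  have v0 := rD_nonneg d.v0
  have i0 : 0 ≤ (d.cq δ).v z := le_min (mul_nonneg n0 z0') v0
  have i1 : (d.cq δ).v z ≤ rD d.ν0 * z := min_le_left _ _
  have i2 : (d.cq δ).v z ≤ rD d.v0 := min_le_right _ _
  have k1 : (d.cq δ).vz z ≤ rD d.ν0 * rD d.ν0 * z := by
    unfold Cq.vz
    rcases eq_or_lt_of_le z0' with h | h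
    · rw [← h]; simp
    · rw [div_le_iff₀ h]
      calc (d.cq δ).v z ^ 2 ≤ (rD d.ν0 * z) ^ 2 := pow_le_pow_left₀ i0 i1 2
        _ = _ := by ring
  have u1 : U ((d.cq δ).vz z) (mu (mu d.ν0 d.ν0) z1) :=
    (((Urf d.ν0).mu (Urf d.ν0) n0 n0).mu hz.up (mul_nonneg n0 n0) z0').mono k1
  have key : ∀ (b : Bool) (X Y : ℕ), (b = false → U ((d.cq δ).vz z) Y) →
      U ((d.cq δ).vz z) X → U ((d.cq δ).vz z) (cond b X Y) := by
    intro b X Y h2 h3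
    cases b
    · exact h2 rfl
    · exact h3
  refine key _ _ _ (fun hb => u1.mn ?_) u1
  have hz0 : 0 < z0 := by
    by_contra hc
    have : z0 = 0 := by omega
    rw [this] at hb
    cases hb
  have hp : 0 < z := (rD_pos hz0).trans_le hz.2.1
  have e1 := qu_ge (mu d.v0 d.v0) hz0
  refine le_trans ?_ e1
  unfold Cq.vz
  refine div_le_div₀ (rD_nonneg _) ?_ (rD_pos hz0) hz.2.1
  refine le_trans ?_ (mu_ge d.v0 d.v0)
  calc (d.cq δ).v z ^ 2 ≤ rD d.v0 ^ 2 := pow_le_pow_left₀ i0 i2 2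
    _ = _ := by ring

/-- the cubics of a box are nonincreasing -/
structure AntZ (d : CqN) (z0 z1 : ℕ) : Prop where
  C0 : AntL d.C0
  C1 : AntL d.C1
  m0 : AntL d.m0
  m1 : AntL d.m1
  A : (d.zA z0 z1).Anti
  B : (d.zB z0 z1).Anti
  K2 : (d.zK2 z0 z1).Anti
  K4 : (d.zK4 z0 z1).Anti
  K1 : d.K1.Anti
  K3 : d.K3.Anti
  HA : d.HA.Anti
  HB : d.HB.Anti
  RB : d.RB.Anti
  x0 : AntL d.x0

theorem Pt3.k (h : Pt3 u y z u0 u1 y0 y1 z0 z1) : L (y + z) (Nat.add y0 z0) := h.y.lo.add h.z.lo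

theorem lpC_ev (h : Pt3 u y z u0 u1 y0 y1 z0 z1) {a b c : Cub} (ha : (lpC z0 z1 a b c).Anti) :
    0 ≤ lp z (a.ev (y + z)) (b.ev (y + z)) (c.ev (y + z)) ∧
    U (lp z (a.ev (y + z)) (b.ev (y + z)) (c.ev (y + z)))
      (evN (lpC z0 z1 a b c) (Nat.add y0 z0)) := by
  obtain ⟨_, _, hz, hk⟩ := h.d.mem
  refine ⟨lp_nonneg hz.1 hz.2 (Cub.ev_nonneg _ hk.1 hk.2) (Cub.ev_nonneg _ hk.1 hk.2)
    (Cub.ev_nonneg _ hk.1 hk.2), ?_⟩
  exact (evN_ge ha h.k hk.2).mono (lpC_ge h.z hz.2 a b c hk)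

/-- the part of a triple that depends on `y`, `z` only -/
theorem yP_ge (h : Pt3 u y z u0 u1 y0 y1 z0 z1) (hA : AntZ d z0 z1) :
    0 ≤ (1 + (d.cq δ).T1 * y) * (d.cq δ).A z (y + z)
      + ((d.cq δ).K1 (y + z) * (d.cq δ).vz z
        + (d.cq δ).K2 z (y + z) * (z * (1 + (d.cq δ).T1 * y) ^ 2)) / 2 ∧
    U ((1 + (d.cq δ).T1 * y) * (d.cq δ).A z (y + z)
      + ((d.cq δ).K1 (y + z) * (d.cq δ).vz z
        + (d.cq δ).K2 z (y + z) * (z * (1 + (d.cq δ).T1 * y) ^ 2)) / 2)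
      (d.yP z0 z1 y0 y1) := by
  obtain ⟨hu, hy, hz, hk⟩ := h.d.mem
  obtain ⟨a0, a1⟩ := lpC_ev h hA.A
  obtain ⟨k20, k21⟩ := lpC_ev h hA.K2
  have k11 := evN_ge hA.K1 h.k hk.2
  have k10 := Cub.ev_nonneg d.K1 hk.1 hk.2
  have f0 : 0 ≤ 1 + rD d.T1 * y := f1_nn hy.1
  have f1 : U (1 + rD d.T1 * y) (d.fT y1) := fT_ge h.y.up hy.1
  have v0 : 0 ≤ (d.cq δ).vz z := Cq.vz_nonneg hz.1
  have v1 := vz_ge (d := d) (δ := δ) h.z
  have e : (1 + (d.cq δ).T1 * y) * (d.cq δ).A z (y + z)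
      + ((d.cq δ).K1 (y + z) * (d.cq δ).vz z
        + (d.cq δ).K2 z (y + z) * (z * (1 + (d.cq δ).T1 * y) ^ 2)) / 2
      = (1 + rD d.T1 * y) * lp z (d.A0.ev (y + z)) (d.A1.ev (y + z)) (d.A2.ev (y + z))
        + (d.K1.ev (y + z) * (d.cq δ).vz z
          + lp z (d.K20.ev (y + z)) (d.K21.ev (y + z)) (d.K22.ev (y + z)) * z
            * ((1 + rD d.T1 * y) * (1 + rD d.T1 * y))) / 2 := by
    have e1 : (d.cq δ).T1 = rD d.T1 := rfl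
    have e2 : (d.cq δ).A z (y + z) = lp z (d.A0.ev (y + z)) (d.A1.ev (y + z)) (d.A2.ev (y + z)) :=
      rfl
    have e3 : (d.cq δ).K1 (y + z) = d.K1.ev (y + z) := rfl
    have e4 : (d.cq δ).K2 z (y + z)
      = lp z (d.K20.ev (y + z)) (d.K21.ev (y + z)) (d.K22.ev (y + z)) := rfl
    rw [e1, e2, e3, e4]
    ring
  rw [e]
  constructor
  · have := hz.1
    positivity
  · exact (f1.mu a1 f0 a0).add (((k11.mu v1 k10 v0).add
      ((k21.mu h.z.up k20 hz.1).mu (f1.mu f1 f0 f0) (mul_nonneg k20 hz.1)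
        (mul_nonneg f0 f0))).hf)

theorem yQ_ge (h : Pt3 u y z u0 u1 y0 y1 z0 z1) (hA : AntZ d z0 z1) :
    0 ≤ (d.cq δ).B z (y + z) + (d.cq δ).K4 z (y + z) * z / 2 ∧
    U ((d.cq δ).B z (y + z) + (d.cq δ).K4 z (y + z) * z / 2) (d.yQ z0 z1 y0) := by
  obtain ⟨hu, hy, hz, hk⟩ := h.d.mem
  obtain ⟨b0, b1⟩ := lpC_ev h hA.B
  obtain ⟨k40, k41⟩ := lpC_ev h hA.K4
  have e : (d.cq δ).B z (y + z) + (d.cq δ).K4 z (y + z) * z / 2
      = lp z (d.B0.ev (y + z)) (d.B1.ev (y + z)) (d.B2.ev (y + z))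
        + lp z (d.K40.ev (y + z)) (d.K41.ev (y + z)) (d.K42.ev (y + z)) * z / 2 := rfl
  rw [e]
  constructor
  · have := hz.1
    positivity
  · exact b1.add ((k41.mu h.z.up k40 hz.1).hf)

theorem yR_ge (h : Pt3 u y z u0 u1 y0 y1 z0 z1) (hA : AntZ d z0 z1) :
    0 ≤ (d.cq δ).K3 (y + z) * (d.cq δ).vz z / 2 ∧
    U ((d.cq δ).K3 (y + z) * (d.cq δ).vz z / 2) (d.yR z0 z1 y0) := by
  obtain ⟨hu, hy, hz, hk⟩ := h.d.mem
  have k11 := evN_ge hA.K3 h.k hk.2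
  have k10 := Cub.ev_nonneg d.K3 hk.1 hk.2
  have v0 : 0 ≤ (d.cq δ).vz z := Cq.vz_nonneg hz.1
  have v1 := vz_ge (d := d) (δ := δ) h.z
  have e : (d.cq δ).K3 (y + z) * (d.cq δ).vz z / 2 = d.K3.ev (y + z) * (d.cq δ).vz z / 2 := rfl
  rw [e]
  exact ⟨by positivity, (k11.mu v1 k10 v0).hf⟩

theorem om_ge (hu : Inb u u0 u1) : U (1 - u) (Nat.sub 1048576 u0) := U.one.sub hu.lo

theorem l0_ge (h : Pt3 u y z u0 u1 y0 y1 z0 z1) : U (1 - u - z) (CqN.l0 u0 z0) :=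
  (om_ge h.u).sub h.z.lo

theorem hh_ge (h : Pt3 u y z u0 u1 y0 y1 z0 z1) (hA : AntZ d z0 z1) :
    0 ≤ (d.cq δ).hh u y z ∧ U ((d.cq δ).hh u y z) (d.hh z0 y0 u0) := by
  obtain ⟨hu, hy, hz, hk⟩ := h.d.mem
  have nuz : 0 ≤ 1 - u - z := by linarith [h.d.2.2.2.2.1]
  have a0 := Cub.ev_nonneg d.HA hk.1 hk.2
  have b0 := Cub.ev_nonneg d.HB hk.1 hk.2
  have r0 := Cub.ev_nonneg d.RB hk.1 hk.2
  have a1 := evN_ge hA.HA h.k hk.2
  have b1 := evN_ge hA.HB h.k hk.2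
  have r1 := evN_ge hA.RB h.k hk.2
  have q0 := rD_nonneg d.qb
  have e : (d.cq δ).hh u y z = d.HA.ev (y + z) + (1 - u - z) * d.HB.ev (y + z)
      + rD d.qb * d.RB.ev (y + z) := rfl
  rw [e]
  exact ⟨by positivity, (a1.add ((l0_ge h).mu b1 nuz b0)).add ((Urf d.qb).mu r1 q0 r0)⟩

theorem lK_ge (h : Pt3 u y z u0 u1 y0 y1 z0 z1) (hA : AntZ d z0 z1) :
    0 ≤ (1 - u - z) * (d.cq δ).hh u y z + (d.cq δ).qa * (d.cq δ).K1 (y + z) ∧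
    U ((1 - u - z) * (d.cq δ).hh u y z + (d.cq δ).qa * (d.cq δ).K1 (y + z))
      (d.lK z0 y0 u0) := by
  obtain ⟨hu, hy, hz, hk⟩ := h.d.mem
  obtain ⟨h0, h1⟩ := hh_ge (δ := δ) h hA
  have nuz : 0 ≤ 1 - u - z := by linarith [h.d.2.2.2.2.1]
  have a0 := Cub.ev_nonneg d.K1 hk.1 hk.2
  have a1 := evN_ge hA.K1 h.k hk.2
  have q0 := rD_nonneg d.qa
  have e : (1 - u - z) * (d.cq δ).hh u y z + (d.cq δ).qa * (d.cq δ).K1 (y + z)
      = (1 - u - z) * (d.cq δ).hh u y z + rD d.qa * d.K1.ev (y + z) := rfl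
  rw [e]
  exact ⟨by positivity, ((l0_ge h).mu h1 nuz h0).add ((Urf d.qa).mu a1 q0 a0)⟩

theorem nU_ge (h : Pt3 u y z u0 u1 y0 y1 z0 z1) :
    0 ≤ 1 - u + (d.cq δ).T1 * (z * y) ∧
    U (1 - u + (d.cq δ).T1 * (z * y)) (d.nU z1 y1 u0) := by
  obtain ⟨hu, hy, hz, hk⟩ := h.d.mem
  have T0 := rD_nonneg d.T1
  have zy := mul_nonneg hz.1 hy.1
  have e : 1 - u + (d.cq δ).T1 * (z * y) = 1 - u + rD d.T1 * (z * y) := rfl
  rw [e]
  refine ⟨by have := mul_nonneg T0 zy; linarith [hu.2], ?_⟩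
  exact (om_ge h.u).add ((Urf d.T1).mu (h.z.up.mu h.y.up hz.1 hy.1) T0 zy)

/-- **the errors of a triple on a box** -/
theorem W0_ge (h : Pt3 u y z u0 u1 y0 y1 z0 z1) (hA : AntZ d z0 z1)
    (h1 : d.bf z0 z1 (Nat.add u1 y1) < 1048576) :
    0 ≤ (d.cq δ).W0 u y z ∧ U ((d.cq δ).W0 u y z) (d.W0 z0 z1 y0 y1 u0 u1) := by
  obtain ⟨hu, hy, hz, hk⟩ := h.d.mem
  obtain ⟨p0, p1⟩ := yP_ge (δ := δ) h hA
  obtain ⟨q0, q1⟩ := yQ_ge (δ := δ) h hA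
  obtain ⟨r0, r1⟩ := yR_ge (δ := δ) h hA
  obtain ⟨s0, s1⟩ := lK_ge (δ := δ) h hA
  obtain ⟨n0, n1⟩ := nU_ge (δ := δ) (d := d) h
  have nuz : 0 ≤ 1 - u - z := by linarith [h.d.2.2.2.2.1]
  have z0' : 0 ≤ (d.cq δ).rz z (u + y) := Cq.rz_nonneg _ _
  have z1' := rz_ge (δ := δ) h h1
  have f0 : 0 ≤ 1 + rD d.T1 * u := f1_nn hu.1
  have f1 : U (1 + rD d.T1 * u) (d.fT u1) := fT_ge h.u.up hu.1
  have e : (d.cq δ).W0 u y z = (1 + rD d.T1 * u) * (((1 + (d.cq δ).T1 * y) * (d.cq δ).A z (y + z)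
      + ((d.cq δ).K1 (y + z) * (d.cq δ).vz z
        + (d.cq δ).K2 z (y + z) * (z * (1 + (d.cq δ).T1 * y) ^ 2)) / 2)
      + (1 - u + (d.cq δ).T1 * (z * y))
        * ((d.cq δ).B z (y + z) + (d.cq δ).K4 z (y + z) * z / 2)
      + ((1 - u - z) * ((d.cq δ).K3 (y + z) * (d.cq δ).vz z / 2)
        + (d.cq δ).rz z (u + y) * ((1 - u - z) * (d.cq δ).hh u y z
          + (d.cq δ).qa * (d.cq δ).K1 (y + z)))) := by
    have e1 : (1 + rD d.T1 * u) = (1 + (d.cq δ).T1 * u) := rfl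
    rw [e1]
    unfold Cq.W0
    ring
  rw [e]
  have k0 := add_nonneg (add_nonneg p0 (mul_nonneg n0 q0))
    (add_nonneg (mul_nonneg nuz r0) (mul_nonneg z0' s0))
  exact ⟨mul_nonneg f0 k0, f1.mu ((p1.add (n1.mu q1 n0 q0)).add
    (((l0_ge h).mu r1 nuz r0).add (z1'.mu s1 z0' s0))) f0 k0⟩

theorem W1_ge (h : Pt3 u y z u0 u1 y0 y1 z0 z1) (hA : AntZ d z0 z1)
    (h1 : d.bf z0 z1 (Nat.add u1 y1) < 1048576) :
    0 ≤ (d.cq δ).W1 u y z ∧ U ((d.cq δ).W1 u y z) (d.W1 z0 z1 y0 y1 u0 u1) := by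
  obtain ⟨hu, hy, hz, hk⟩ := h.d.mem
  obtain ⟨q0, q1⟩ := yQ_ge (δ := δ) h hA
  obtain ⟨r0, r1⟩ := yR_ge (δ := δ) h hA
  obtain ⟨s0, s1⟩ := hh_ge (δ := δ) h hA
  have z0' : 0 ≤ (d.cq δ).rz z (u + y) := Cq.rz_nonneg _ _
  have z1' := rz_ge (δ := δ) h h1
  have T0 := rD_nonneg d.T1
  have f0 : 0 ≤ 1 + rD d.T1 * u := f1_nn hu.1
  have f1 : U (1 + rD d.T1 * u) (d.fT u1) := fT_ge h.u.up hu.1
  have e : (d.cq δ).W1 u y z = rD d.T1 * (1 + rD d.T1 * u) * ((d.cq δ).B z (y + z)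
      + (d.cq δ).K4 z (y + z) * z / 2
      + (d.cq δ).K3 (y + z) * (d.cq δ).vz z / 2
      + (d.cq δ).rz z (u + y) * (d.cq δ).hh u y z) := by
    have e1 : rD d.T1 = (d.cq δ).T1 := rfl
    rw [e1]
    unfold Cq.W1
    ring
  rw [e]
  have k0 := add_nonneg (add_nonneg q0 r0) (mul_nonneg z0' s0)
  exact ⟨mul_nonneg (mul_nonneg T0 f0) k0, ((Urf d.T1).mu f1 T0 f0).mu
    ((q1.add r1).add (z1'.mu s1 z0' s0)) (mul_nonneg T0 f0) k0⟩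

/-- the factor of the product of the means on a box -/
theorem X_ge (h : Pt3 u y z u0 u1 y0 y1 z0 z1) (hA : AntZ d z0 z1)
    (h1 : d.bf z0 z1 (Nat.add u1 y1) < 1048576) :
    0 ≤ (d.cq δ).X u y z ∧ U ((d.cq δ).X u y z) (d.X z0 z1 y0 y1 u0 u1) := by
  obtain ⟨hu, hy, hz, hk⟩ := h.d.mem
  obtain ⟨w0, w1⟩ := W0_ge (δ := δ) h hA h1
  obtain ⟨x0, x1⟩ := W1_ge (δ := δ) h hA h1
  have g0 : 0 ≤ lp u (rD d.c0) (rD d.c1) (rD d.c2) := lp_nn hu _ _ _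
  have g1 : U (lp u (rD d.c0) (rD d.c1) (rD d.c2)) (d.gU u0 u1) := lp2_ge h.u hu.2 _ _ _
  have C0 := rD_nonneg (nth d.C0 (ix u))
  have C1 := rD_nonneg (nth d.C1 (ix u))
  have E0 := rD_nonneg d.em
  have UC0 := U_idx hA.C0 h.u
  have UC1 := U_idx hA.C1 h.u
  have om0 : 0 ≤ 1 - u := by linarith [hu.2]
  have om1 := om_ge h.u
  have eo := mul_nonneg E0 om0
  have c1 : U (rD (nth d.C1 (ix u)) * (rD d.em * (1 - u)))
      (mu (nth d.C1 (iLo u0)) (mu d.em (Nat.sub 1048576 u0))) :=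
    UC1.mu ((Urf d.em).mu om1 E0 om0) C1 eo
  have e : (d.cq δ).X u y z
      = lp u (rD d.c0) (rD d.c1) (rD d.c2) * (rD (nth d.C1 (ix u))
        * (d.cq δ).W0 u y z + (rD (nth d.C0 (ix u)) + rD (nth d.C1 (ix u)) * (rD d.em * (1 - u)))
        * (d.cq δ).W1 u y z) := rfl
  rw [e]
  have cc0 : 0 ≤ rD (nth d.C0 (ix u)) + rD (nth d.C1 (ix u)) * (rD d.em * (1 - u)) := by
    have := mul_nonneg C1 eo
    linarith
  have k0 := add_nonneg (mul_nonneg C1 w0) (mul_nonneg cc0 x0)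
  exact ⟨mul_nonneg g0 k0,
    g1.mu ((UC1.mu w1 C1 w0).add ((UC0.add c1).mu x1 cc0 x0)) g0 k0⟩

theorem jj_54 {u y : ℝ} (u0 : 0 ≤ u) (y0 : 0 ≤ y) : jj u y ≤ y * (5 / 4) := by
  unfold jj
  split_ifs with h
  · rcases eq_or_lt_of_le u0 with h0 | h0
    · have : y = 0 := le_antisymm (h.trans (le_of_eq h0.symm)) y0
      rw [this]; simp
    · have e : y * (5 / 4) - (y + y ^ 2 / u - y ^ 3 / u ^ 2) = y * (1 / 2 - y / u) ^ 2 := by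
        field_simp
        ring
      have := mul_nonneg y0 (sq_nonneg (1 / 2 - y / u))
      linarith
  · push Not at h
    linarith

/-- the weight for a small ratio -/
theorem jj_ratio {u y r : ℝ} (u0 : 0 < u) (y0 : 0 ≤ y) (hr : y / u ≤ r) (hr2 : r ≤ 1 / 2) :
    jj u y ≤ y * (1 + r - r * r) := by
  have h1 : y ≤ u := by
    have : y / u ≤ 1 := by linarith
    rwa [div_le_one u0] at this
  unfold jj
  rw [if_pos h1]
  have e : y + y ^ 2 / u - y ^ 3 / u ^ 2 = y * (1 + y / u - (y / u) * (y / u)) := by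
    field_simp
  rw [e]
  refine mul_le_mul_of_nonneg_left ?_ y0
  nlinarith [mul_nonneg (sub_nonneg.2 hr) (show 0 ≤ 1 - r - y / u by linarith)]

theorem rD_54 : rD 1310720 = 5 / 4 := by unfold rD; norm_num

theorem jU_ge (h : Pt3 u y z u0 u1 y0 y1 z0 z1) : U (jj u y) (CqN.jU u0 u1 y1) := by
  have hu0 := h.d.1
  have hy0 := h.d.2.1
  have h54 : jj u y ≤ y * (5 / 4) := jj_54 hu0 hy0
  have g54 : jj u y ≤ rD y1 * rD 1310720 := by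
    rw [rD_54]
    exact h54.trans (mul_le_mul_of_nonneg_right h.y.2.2 (by norm_num))
  refine U.mn ?_ ?_
  · have : jj u y ≤ u := (jj_le (u0 := u) (u1 := u) (y1 := y) hu0 le_rfl le_rfl hy0 le_rfl).1
    exact this.trans h.u.2.2
  · refine le_trans ?_ (mu_ge y1 (CqN.ph y1 u0))
    have key : ∀ (b1 b2 : Bool) (X Y : ℕ), (b1 = true → b2 = true → jj u y ≤ rD y1 * rD X) →
        (jj u y ≤ rD y1 * rD Y) → jj u y ≤ rD y1 * rD (cond b1 (cond b2 X Y) Y) := by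
      intro b1 b2 X Y h1 h2
      cases b1
      · exact h2
      · cases b2
        · exact h2
        · exact h1 rfl rfl
    refine key _ _ _ _ (fun hb1 hb2 => ?_) g54
    have c1 : Nat.mul 2 y1 ≤ u0 := Nat.le_of_ble_eq_true hb1
    have c2 : qu y1 u0 ≤ 524288 := Nat.le_of_ble_eq_true hb2
    rcases eq_or_lt_of_le hy0 with hy | hy
    · have : jj u y = 0 := by
        rw [← hy]
        unfold jj
        rw [if_pos hu0]
        simp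
      rw [this]
      exact mul_nonneg (rD_nonneg _) (rD_nonneg _)
    · have y1p : 0 < y1 := by
        by_contra hc
        have : y1 = 0 := by omega
        have h3 := h.y.2.2
        rw [this, rD_zero] at h3
        linarith
      have u0p : 0 < u0 := by
        have : Nat.mul 2 y1 = 2 * y1 := rfl
        rw [this] at c1
        omega
      have up : 0 < u := (rD_pos u0p).trans_le h.u.2.1
      have hr : y / u ≤ rD (qu y1 u0) := by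
        refine le_trans ?_ (qu_ge y1 u0p)
        exact div_le_div₀ (rD_nonneg _) h.y.2.2 (rD_pos u0p) h.u.2.1
      have hr2 : rD (qu y1 u0) ≤ 1 / 2 := by
        rw [← rD_half]
        exact rD_mono c2
      refine (jj_ratio up hy.le hr hr2).trans ?_
      have n0 : 0 ≤ 1 + rD (qu y1 u0) - rD (qu y1 u0) * rD (qu y1 u0) := by
        nlinarith [rD_nonneg (qu y1 u0)]
      have s1 : U (1 + rD (qu y1 u0) - rD (qu y1 u0) * rD (qu y1 u0))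
          (Nat.sub (Nat.add 1048576 (qu y1 u0)) (md (qu y1 u0) (qu y1 u0))) :=
        (U.one.add (Urf _)).sub ((Lrf _).md (Lrf _))
      exact mul_le_mul h.y.2.2 s1 n0 (rD_nonneg _)

theorem jH_ge (h : Pt3 u y z u0 u1 y0 y1 z0 z1) : U (jh u y z) (CqN.jH z0 y0 y1 u0 u1) := by
  have hd := h.d
  obtain ⟨d1, d2, d3, d4, d5, d6⟩ := h.d
  refine U.mono ?_ (jh_le hd)
  have m0 : 0 ≤ 1 - z - min u y := by
    rcases min_choice u y with e | e <;> rw [e] <;> linarith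
  exact (jU_ge h).mu ((U.one.sub h.z.lo).sub (h.u.lo.mn h.y.lo)) (jj_nonneg d1 d2) m0

/-- the function of a triple on a box -/
theorem F_ge (h : Pt3 u y z u0 u1 y0 y1 z0 z1) (hA : AntZ d z0 z1)
    (h1 : d.bf z0 z1 (Nat.add u1 y1) < 1048576) (h2 : d.bm z0 z1 (Nat.add u1 y1) < 1048576) :
    U ((d.cq δ).F u y z) (d.F z0 z1 y0 y1 u0 u1) := by
  obtain ⟨hu, hy, hz, hk⟩ := h.d.mem
  obtain ⟨w0, w1⟩ := W0_ge (δ := δ) h hA h1
  obtain ⟨x0, x1⟩ := X_ge (δ := δ) h hA h1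
  obtain ⟨d0, d1⟩ := dir_ge (δ := δ) h h1 h2
  have g0 : 0 ≤ lp u (rD d.c0) (rD d.c1) (rD d.c2) := lp_nn hu _ _ _
  have g1 : U (lp u (rD d.c0) (rD d.c1) (rD d.c2)) (d.gU u0 u1) := lp2_ge h.u hu.2 _ _ _
  have C0 := rD_nonneg (nth d.C0 (ix u))
  have C1 := rD_nonneg (nth d.C1 (ix u))
  have L0 := rD_nonneg d.lam
  have I0 := rD_nonneg d.il
  have zy := mul_nonneg hz.1 hy.1
  have nuz : 0 ≤ 1 - u - z := by linarith [h.d.2.2.2.2.1]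
  have j0 := jh_nonneg h.d
  have cc0 : 0 ≤ rD (nth d.C0 (ix u)) + rD (nth d.C1 (ix u)) * (z * y) :=
    add_nonneg C0 (mul_nonneg C1 zy)
  have cc1 : U (rD (nth d.C0 (ix u)) + rD (nth d.C1 (ix u)) * (z * y))
      (Nat.add (nth d.C0 (iLo u0)) (mu (nth d.C1 (iLo u0)) (mu z1 y1))) :=
    (U_idx hA.C0 h.u).add ((U_idx hA.C1 h.u).mu (h.z.up.mu h.y.up hz.1 hy.1) C1 zy)
  have e : (d.cq δ).F u y z = lp u (rD d.c0) (rD d.c1) (rD d.c2)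
      * ((1 + (d.cq δ).T1 * (u + y)) * lp z (d.cq δ).e0 (d.cq δ).e1 (d.cq δ).e2
      / ((1 - (d.cq δ).Bm z (u + y)) * (1 - (d.cq δ).Bf z (u + y)))
      + (rD (nth d.C0 (ix u)) + rD (nth d.C1 (ix u)) * (z * y)) * (d.cq δ).W0 u y z)
      + ((1 - u - z) / 2 * (rD d.lam * u * ((d.cq δ).X u y z * (d.cq δ).X u y z))
        + rD d.il * jh u y z) := by
    rw [← sq]
    rfl
  rw [e]
  have xx := mul_nonneg x0 x0
  have lu := mul_nonneg L0 hu.1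
  exact (g1.mu (d1.add (cc1.mu w1 cc0 w0)) g0 (add_nonneg d0 (mul_nonneg cc0 w0))).add
    (((l0_ge h).hf.mu (((Urf d.lam).mu h.u.up L0 hu.1).mu (x1.mu x1 x0 x0) lu xx)
      (by linarith) (mul_nonneg lu xx)).add ((Urf d.il).mu (jH_ge h) I0 j0))

end

end Pool.Agent.RZ.RCN.K
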