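import Pool.Agent.RZ.RCO.T1i

/-! Comparison of piecewise linear functions of `s` (nodes `j / 64`) with piecewise linear
functions of `s / t` (nodes `l / 10`) on a cell of the time (MP_73ccd0_lc). -/

namespace Pool.Agent.RZ.RCN.K

open Set Finset Pool.Agent.RZ.RCO.RT Pool.Agent.RZ.RCO.BxN

set_option linter.unusedSectionVars false
set_option linter.unusedVariables false

/-- an affine function on an interval is nonnegative if it is at the ends -/
theorem aff_nonneg {p q a b x : ℝ} (ha : a ≤ x) (hb : x ≤ b) (h1 : 0 ≤ p + q * a)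
    (h2 : 0 ≤ p + q * b) : 0 ≤ p + q * x := by
  rcases le_total 0 q with h | h
  · have := mul_le_mul_of_nonneg_left ha h
    linarith
  · have := mul_le_mul_of_nonpos_left hb h
    linarith

theorem plx_aff {n l : ℕ} (hl : l < n) (v : ℕ → ℝ) {x : ℝ} (h0 : (l : ℝ) ≤ n * x)
    (h1 : n * x ≤ l + 1) : plx n v x = v l + (n * x - l) * (v (l + 1) - v l) := by
  rw [plx_cell hl v (c := n * x - l) (by linarith) (by linarith) (by ring)]
  ring

theorem plx_node {n j : ℕ} (n0 : 0 < n) (hj : j ≤ n) (v : ℕ → ℝ) :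
    plx n v ((j : ℝ) / n) = v j := by
  have n0' : (0 : ℝ) < n := Nat.cast_pos.2 n0
  rcases lt_or_eq_of_le hj with h | h
  · rw [plx_cell h v (c := 0) le_rfl zero_le_one (by field_simp; ring)]
    ring
  · obtain ⟨i, rfl⟩ : ∃ i, n = i + 1 := ⟨n - 1, by omega⟩
    rw [plx_cell (l := i) (by omega) v (c := 1) zero_le_one le_rfl (by
      rw [h]; push_cast at n0' ⊢; field_simp), h]
    ring

/-- the comparison at a fixed time -/
theorem pl_fix {n : ℕ} (n0 : 0 < n) {G F : ℕ → ℝ} {T : ℝ} (T0 : 0 < T) (T1 : T ≤ 1)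
    (hl : ∀ l : ℕ, l ≤ 10 → plx n G (T * (l / 10)) ≤ F l)
    (hj : ∀ j : ℕ, j ≤ n → (j : ℝ) ≤ n * T → G j ≤ plx 10 F (j / (n * T)))
    {σ : ℝ} (h0 : 0 ≤ σ) (h1 : σ ≤ 1) : plx n G (T * σ) ≤ plx 10 F σ := by
  have n0' : (0 : ℝ) < n := Nat.cast_pos.2 n0
  have nT : 0 < n * T := mul_pos n0' T0
  obtain ⟨l, hl', c, c0, c1, hc⟩ := cell_ex (n := 10) (by norm_num) h0 h1
  obtain ⟨j, hj', e, e0, e1, he⟩ := cell_ex n0 (mul_nonneg T0.le h0)
    (mul_le_one₀ T1 h0 h1)
  push_cast at hc
  set a := max ((l : ℝ) / 10) (j / (n * T)) with ha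
  set b := min (((l : ℝ) + 1) / 10) ((j + 1) / (n * T)) with hb
  have key : ∀ τ, a ≤ τ → τ ≤ b → plx 10 F τ - plx n G (T * τ)
      = (F l - l * (F (l + 1) - F l) - G j + j * (G (j + 1) - G j))
        + (10 * (F (l + 1) - F l) - n * T * (G (j + 1) - G j)) * τ := by
    intro τ h2 h3
    have i1 := (le_max_left _ _).trans h2
    have i2 := (le_max_right _ _).trans h2
    have i3 := h3.trans (min_le_left _ _)
    have i4 := h3.trans (min_le_right _ _)
    rw [div_le_iff₀ nT] at i2
    rw [le_div_iff₀ nT] at i4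
    rw [plx_aff hl' F (by push_cast; linarith) (by push_cast; linarith),
      plx_aff hj' G (by linarith) (by linarith)]
    push_cast
    ring
  have aσ : a ≤ σ := by
    refine max_le ?_ ?_
    · linarith
    · rw [div_le_iff₀ nT]; linarith
  have σb : σ ≤ b := by
    refine le_min ?_ ?_
    · linarith
    · rw [le_div_iff₀ nT]; linarith
  have va : 0 ≤ plx 10 F a - plx n G (T * a) := by
    rcases le_total ((l : ℝ) / 10) (j / (n * T)) with h | h
    · rw [ha, max_eq_right h]
      have e1 : T * ((j : ℝ) / (n * T)) = j / n := by field_simp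
      rw [e1, plx_node n0 hj'.le]
      have : (j : ℝ) ≤ n * T := by
        have : (j : ℝ) ≤ n * (T * σ) := by linarith
        have h2 : T * σ ≤ T := by
          have := mul_le_mul_of_nonneg_left h1 T0.le
          linarith
        have h3 := mul_le_mul_of_nonneg_left h2 n0'.le
        linarith
      linarith [hj j hj'.le this]
    · rw [ha, max_eq_left h]
      have e1 : plx 10 F ((l : ℝ) / 10) = F l := by
        have := plx_node (n := 10) (j := l) (by norm_num) hl'.le F
        push_cast at this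
        exact this
      rw [e1]
      linarith [hl l hl'.le]
  have vb : 0 ≤ plx 10 F b - plx n G (T * b) := by
    rcases le_total (((l : ℝ) + 1) / 10) ((j + 1) / (n * T)) with h | h
    · rw [hb, min_eq_left h]
      have e1 : plx 10 F (((l : ℝ) + 1) / 10) = F (l + 1) := by
        have := plx_node (n := 10) (j := l + 1) (by norm_num) hl' F
        push_cast at this
        exact this
      rw [e1]
      have := hl (l + 1) hl'
      push_cast at this
      linarith
    · rw [hb, min_eq_right h]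
      have e1 : T * (((j : ℝ) + 1) / (n * T)) = ((j + 1 : ℕ) : ℝ) / n := by
        push_cast; field_simp
      rw [e1, plx_node n0 hj']
      have h4 : (((j : ℝ) + 1) / (n * T)) ≤ 1 := h.trans (by
        rw [div_le_one (by norm_num)]
        have : ((l + 1 : ℕ) : ℝ) ≤ 10 := by exact_mod_cast hl'
        push_cast at this
        exact this)
      rw [div_le_one nT] at h4
      have := hj (j + 1) hj' (by push_cast; linarith)
      push_cast at this
      linarith
  rw [key a le_rfl (aσ.trans σb)] at va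
  rw [key b (aσ.trans σb) le_rfl] at vb
  have := aff_nonneg aσ σb va vb
  rw [← key σ aσ σb] at this
  linarith

/-- the maximum on an interval -/
theorem pl_max {n : ℕ} (n0 : 0 < n) {G : ℕ → ℝ} {a b M : ℝ} (a0 : 0 ≤ a) (b1 : b ≤ 1)
    (ha : plx n G a ≤ M) (hb : plx n G b ≤ M)
    (hj : ∀ j : ℕ, j ≤ n → n * a ≤ j → (j : ℝ) ≤ n * b → G j ≤ M) {s : ℝ} (hs : s ∈ Icc a b) :
    plx n G s ≤ M := by
  have n0' : (0 : ℝ) < n := Nat.cast_pos.2 n0
  obtain ⟨j, hj', e, e0, e1, he⟩ := cell_ex n0 (a0.trans hs.1) (hs.2.trans b1)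
  set a' := max a (j / n) with ha'
  set b' := min b ((j + 1) / n) with hb'
  have key : ∀ τ, a' ≤ τ → τ ≤ b' → M - plx n G τ
      = (M - G j + j * (G (j + 1) - G j)) + (-(n * (G (j + 1) - G j))) * τ := by
    intro τ h2 h3
    have i2 := (le_max_right _ _).trans h2
    have i4 := h3.trans (min_le_right _ _)
    rw [div_le_iff₀ n0'] at i2
    rw [le_div_iff₀ n0'] at i4
    rw [plx_aff hj' G (by linarith) (by linarith)]
    ring
  have aσ : a' ≤ s := by
    refine max_le hs.1 ?_
    rw [div_le_iff₀ n0']; linarith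
  have σb : s ≤ b' := by
    refine le_min hs.2 ?_
    rw [le_div_iff₀ n0']; linarith
  have va : 0 ≤ M - plx n G a' := by
    rcases le_total a ((j : ℝ) / n) with h | h
    · rw [ha', max_eq_right h, plx_node n0 hj'.le]
      rw [le_div_iff₀ n0'] at h
      have h5 : (j : ℝ) ≤ n * b := by
        have := mul_le_mul_of_nonneg_left hs.2 n0'.le
        linarith
      linarith [hj j hj'.le (by linarith) h5]
    · rw [ha', max_eq_left h]; linarith
  have vb : 0 ≤ M - plx n G b' := by
    rcases le_total b (((j : ℝ) + 1) / n) with h | h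
    · rw [hb', min_eq_left h]; linarith
    · have e1 : ((j : ℝ) + 1) / n = ((j + 1 : ℕ) : ℝ) / n := by push_cast; rfl
      rw [hb', min_eq_right h, e1, plx_node n0 hj']
      rw [div_le_iff₀ n0'] at h
      have h5 : n * a ≤ ((j + 1 : ℕ) : ℝ) := by
        push_cast
        have := mul_le_mul_of_nonneg_left hs.1 n0'.le
        linarith
      linarith [hj (j + 1) hj' h5 (by push_cast; linarith)]
  rw [key a' le_rfl (aσ.trans σb)] at va
  rw [key b' (aσ.trans σb) le_rfl] at vb
  have := aff_nonneg aσ σb va vb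
  rw [← key s aσ σb] at this
  linarith

/-- the comparison on a cell of the time -/
theorem pl_cmp {n : ℕ} (n0 : 0 < n) {G F : ℕ → ℝ} {T0 T1 : ℝ} (hT0 : 0 ≤ T0) (hT : T0 ≤ T1)
    (T1p : 0 < T1) (T11 : T1 ≤ 1)
    (hl : ∀ l : ℕ, l ≤ 10 → ∀ s ∈ Icc (T0 * (l / 10)) (T1 * (l / 10)), plx n G s ≤ F l)
    (h1 : ∀ σ ∈ Icc (0 : ℝ) 1, plx n G (T1 * σ) ≤ plx 10 F σ)
    (h0 : 0 < T0 → ∀ σ ∈ Icc (0 : ℝ) 1, plx n G (T0 * σ) ≤ plx 10 F σ)
    {t : ℝ} (ht : t ∈ Icc T0 T1) {s : ℝ} (hs : s ∈ Icc 0 t) : plx n G s ≤ plx 10 F (s / t) := by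
  have t0 : 0 ≤ t := hT0.trans ht.1
  rcases eq_or_lt_of_le t0 with h | tp
  · have s0 : s = 0 := le_antisymm (by rw [h]; exact hs.2) hs.1
    have e1 : plx 10 F 0 = F 0 := by
      have := plx_node (n := 10) (j := 0) (by norm_num) (by norm_num) F
      push_cast at this
      rw [zero_div] at this
      exact this
    rw [s0, zero_div, e1]
    refine hl 0 (by norm_num) 0 ⟨?_, ?_⟩ <;> push_cast <;> simp
  have d0 : 0 ≤ s / t := div_nonneg hs.1 tp.le
  have d1 : s / t ≤ 1 := (div_le_one tp).2 hs.2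
  have st : s = t * (s / t) := by field_simp
  obtain ⟨l, hl', c, c0, c1, hc⟩ := cell_ex (n := 10) (by norm_num) d0 d1
  push_cast at hc
  have l1 : ((l + 1 : ℕ) : ℝ) = l + 1 := by push_cast; rfl
  have lt10 : ((l + 1 : ℕ) : ℝ) ≤ 10 := by exact_mod_cast hl'
  have aff : ∀ τ, (l : ℝ) / 10 ≤ τ → τ ≤ ((l : ℝ) + 1) / 10 →
      plx 10 F τ = F l + (10 * τ - l) * (F (l + 1) - F l) := fun τ i1 i2 => by
    rw [plx_aff hl' F (by push_cast; linarith) (by push_cast; linarith)]
    push_cast; ring
  have σl : (l : ℝ) / 10 ≤ s / t := by linarith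
  have σr : s / t ≤ ((l : ℝ) + 1) / 10 := by linarith
  have eσ := aff _ σl σr
  rcases le_total (F l) (F (l + 1)) with hF | hF
  · -- increasing: the time `T1`
    have s1 : s / T1 ≤ s / t := div_le_div_of_nonneg_left hs.1 tp ht.2
    rcases le_total ((l : ℝ) / 10) (s / T1) with h2 | h2
    · have h3 := h1 (s / T1) ⟨div_nonneg hs.1 T1p.le, s1.trans d1⟩
      rw [show T1 * (s / T1) = s by field_simp, aff _ h2 (s1.trans σr)] at h3
      rw [eσ]
      have := mul_le_mul_of_nonneg_right s1 (sub_nonneg.2 hF)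
      nlinarith
    · have h3 : s ≤ T1 * (l / 10) := by
        rw [div_le_iff₀ T1p] at h2
        linarith
      have h4 : T0 * (l / 10) ≤ s := by
        rw [st]
        exact mul_le_mul ht.1 σl (by positivity) t0
      have h5 := hl l hl'.le s ⟨h4, h3⟩
      rw [eσ]
      have := mul_nonneg (show 0 ≤ 10 * (s / t) - l by linarith) (sub_nonneg.2 hF)
      linarith
  · have hge : F (l + 1) ≤ plx 10 F (s / t) := by
      rw [eσ]
      have := mul_nonneg (show 0 ≤ l + 1 - 10 * (s / t) by linarith) (sub_nonneg.2 hF)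
      nlinarith
    have h3 : s ≤ T1 * (((l + 1 : ℕ) : ℝ) / 10) := by
      rw [l1]
      calc s = t * (s / t) := st
        _ ≤ T1 * (((l : ℝ) + 1) / 10) := mul_le_mul ht.2 σr d0 T1p.le
    rcases eq_or_lt_of_le hT0 with h2 | h2
    · refine (hl (l + 1) hl' s ⟨?_, h3⟩).trans hge
      rw [← h2, zero_mul]
      exact hs.1
    · have s1 : s / t ≤ s / T0 := div_le_div_of_nonneg_left hs.1 h2 ht.1
      rcases le_total (s / T0) (((l : ℝ) + 1) / 10) with h4 | h4
      · have h5 := h0 h2 (s / T0) ⟨div_nonneg hs.1 h2.le, h4.trans (by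
          rw [div_le_one (by norm_num)]; rw [l1] at lt10; exact lt10)⟩
        rw [show T0 * (s / T0) = s by field_simp, aff _ (σl.trans s1) h4] at h5
        rw [eσ]
        have := mul_le_mul_of_nonneg_right s1 (sub_nonneg.2 hF)
        nlinarith
      · refine (hl (l + 1) hl' s ⟨?_, h3⟩).trans hge
        rw [le_div_iff₀ h2] at h4
        rw [l1]
        linarith

/-! ### the check with natural numbers -/

/-- a test for all elements of a list -/
noncomputable def walk (p : ℕ → ℕ → Bool) (G : List ℕ) : ℕ → Bool :=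
  List.rec (motive := fun _ => ℕ → Bool) (fun _ => true)
    (fun g _ ih j => and (p j g) (ih (Nat.succ j))) G

theorem walk_ok {p : ℕ → ℕ → Bool} : ∀ {G : List ℕ} {j : ℕ}, walk p G j = true →
    ∀ i < G.length, p (j + i) (nth G i) = true := by
  intro G
  induction G with
  | nil => intro j _ i hi; simp at hi
  | cons g G ih =>
    intro j h i hi
    have h' : and (p j g) (walk p G (Nat.succ j)) = true := h
    rw [Bool.and_eq_true] at h'
    cases i with
    | zero => exact h'.1
    | succ i =>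
      have := ih h'.2 i (by simpa using hi)
      rw [show Nat.succ j + i = j + (i + 1) by omega] at this
      exact this

/-- the tests for all numbers below `n` -/
noncomputable def allB (p : ℕ → Bool) (n : ℕ) : Bool :=
  Nat.rec (motive := fun _ => Bool) true (fun i ih => and (p i) ih) n

theorem allB_ok {p : ℕ → Bool} {n : ℕ} (h : allB p n = true) : ∀ i < n, p i = true := by
  induction n with
  | zero => intro i hi; omega
  | succ n ih =>
    have h' : and (p n) (allB p n) = true := h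
    rw [Bool.and_eq_true] at h'
    intro i hi
    rcases Nat.lt_succ_iff_lt_or_eq.1 hi with h1 | h1
    · exact ih h'.2 i h1
    · rw [h1]; exact h'.1

/-- the node `j / 64` against the piecewise linear function of `s / t` at the time `T` -/
noncomputable def jT (F : List ℕ) (T j g : ℕ) : Bool :=
  cond (Nat.ble (Nat.mul 1048576 j) (Nat.mul 64 T))
    (Nat.ble (Nat.mul g (Nat.mul 64 T))
      (Nat.add
        (Nat.mul (nth F (Nat.div (Nat.mul 10485760 j) (Nat.mul 64 T)))
          (Nat.sub (Nat.mul 64 T) (Nat.mod (Nat.mul 10485760 j) (Nat.mul 64 T))))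
        (Nat.mul (nth F (Nat.succ (Nat.div (Nat.mul 10485760 j) (Nat.mul 64 T))))
          (Nat.mod (Nat.mul 10485760 j) (Nat.mul 64 T))))) true

theorem jT_ok {F : List ℕ} {T j g : ℕ} (h : jT F T j g = true) (T0 : 0 < T)
    (hj : (j : ℝ) ≤ 64 * rD T) :
    rD g ≤ plx 10 (fun l => rD (nth F l)) (j / (64 * rD T)) := by
  have T0' : (0 : ℝ) < T := by exact_mod_cast T0
  have hj' : 1048576 * j ≤ 64 * T := by
    unfold rD at hj
    have : ((1048576 * j : ℕ) : ℝ) ≤ ((64 * T : ℕ) : ℝ) := by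
      push_cast
      have := mul_le_mul_of_nonneg_left hj (show (0 : ℝ) ≤ 1048576 by norm_num)
      calc (1048576 : ℝ) * j ≤ 1048576 * (64 * (T / 1048576)) := this
        _ = 64 * T := by ring
    exact_mod_cast this
  unfold jT at h
  rw [show Nat.ble (Nat.mul 1048576 j) (Nat.mul 64 T) = true from Nat.ble_eq_true_of_le hj',
    cond_true] at h
  have h1 := Nat.le_of_ble_eq_true h
  set D := Nat.mul 64 T with hD
  have D0 : 0 < D := by rw [hD]; exact Nat.mul_pos (by norm_num) T0
  have D0' : (0 : ℝ) < D := by exact_mod_cast D0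
  set N := Nat.mul 10485760 j with hN
  set l := Nat.div N D with hl
  set r := Nat.mod N D with hr
  have e : N = D * l + r := (Nat.div_add_mod N D).symm
  have rD' : r < D := Nat.mod_lt _ D0
  have l10 : l ≤ 10 := by
    have h2 : N ≤ 10 * D := by
      show 10485760 * j ≤ 10 * (64 * T)
      omega
    exact Nat.div_le_of_le_mul (by rw [Nat.mul_comm]; exact h2)
  have eDR : (D : ℝ) = 64 * T := by
    rw [hD]
    exact_mod_cast rfl
  have eNR : (N : ℝ) = 10485760 * j := by
    rw [hN]
    exact_mod_cast rfl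
  have eR : (N : ℝ) = D * l + r := by exact_mod_cast e
  have hx : (10 : ℝ) * ((j : ℝ) / (64 * rD T)) = l + r / D := by
    have : (10 : ℝ) * ((j : ℝ) / (64 * rD T)) = N / D := by
      rw [eNR, eDR]
      unfold rD
      field_simp
      ring
    rw [this, eR]
    field_simp
  have h2 : (g : ℝ) * D ≤ nth F l * (D - r) + nth F (l + 1) * r := by
    have h3 : ((Nat.mul g D : ℕ) : ℝ)
        ≤ ((Nat.add (Nat.mul (nth F l) (Nat.sub D r)) (Nat.mul (nth F (l + 1)) r) : ℕ) : ℝ) := by
      exact_mod_cast h1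
    have e1 : ((Nat.mul g D : ℕ) : ℝ) = g * D := by exact_mod_cast rfl
    have e2 : ((Nat.add (Nat.mul (nth F l) (Nat.sub D r)) (Nat.mul (nth F (l + 1)) r) : ℕ) : ℝ)
        = nth F l * (D - r) + nth F (l + 1) * r := by
      show ((nth F l * (D - r) + nth F (l + 1) * r : ℕ) : ℝ) = _
      rw [Nat.cast_add, Nat.cast_mul, Nat.cast_mul, Nat.cast_sub rD'.le]
    rw [e1, e2] at h3
    exact h3
  rcases lt_or_eq_of_le l10 with h4 | h4
  · rw [plx_cell h4 _ (c := (r : ℝ) / D) (by positivity) (by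
      rw [div_le_one D0']; exact_mod_cast rD'.le) (by push_cast; exact hx)]
    have e3 : (1 - (r : ℝ) / D) * rD (nth F l) + r / D * rD (nth F (l + 1))
        = ((nth F l * (D - r) + nth F (l + 1) * r) / D) / 1048576 := by
      unfold rD
      field_simp
    rw [e3]
    unfold rD
    refine div_le_div_of_nonneg_right ?_ (by norm_num)
    rw [le_div_iff₀ D0']
    exact h2
  · have r0 : r = 0 := by
      have h2 : N ≤ 10 * D := by
        show 10485760 * j ≤ 10 * (64 * T)
        omega
      rw [e, h4] at h2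
      omega
    rw [h4, r0] at hx h2
    have hx' : ((j : ℝ) / (64 * rD T)) = ((10 : ℕ) : ℝ) / (10 : ℕ) := by
      push_cast at hx ⊢
      rw [zero_div, add_zero] at hx
      linarith
    rw [hx', plx_node (n := 10) (j := 10) (by norm_num) le_rfl]
    push_cast at h2
    have h5 : (g : ℝ) * D ≤ nth F 10 * D := by linarith
    have := le_of_mul_le_mul_right h5 D0'
    exact div_le_div_of_nonneg_right this (by norm_num)

/-- the value at the time `T`, position `l / 10`, is at most `M` -/
noncomputable def atM (G : List ℕ) (M T l : ℕ) : Bool :=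
  Nat.ble
    (Nat.add
      (Nat.mul (nth G (Nat.div (Nat.mul (Nat.mul 64 T) l) 10485760))
        (Nat.sub 10485760 (Nat.mod (Nat.mul (Nat.mul 64 T) l) 10485760)))
      (Nat.mul (nth G (Nat.succ (Nat.div (Nat.mul (Nat.mul 64 T) l) 10485760)))
        (Nat.mod (Nat.mul (Nat.mul 64 T) l) 10485760)))
    (Nat.mul M 10485760)

/-- the value at the time `T`, position `l / 10` -/
noncomputable def atN (G F : List ℕ) (T l : ℕ) : Bool := atM G (nth F l) T l

/-- the value of a piecewise linear function from the division with remainder -/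
theorem plx_div_eq {G : List ℕ} {N D : ℕ} (D0 : 0 < D) (hN : N ≤ 64 * D) {x : ℝ}
    (hx : 64 * x = N / D) :
    plx 64 (fun l => rD (nth G l)) x * D
      = (nth G (N / D) * (D - (N % D : ℕ)) + nth G (N / D + 1) * (N % D : ℕ)) / 1048576 := by
  have D0' : (0 : ℝ) < D := by exact_mod_cast D0
  have e : N = D * (N / D) + N % D := (Nat.div_add_mod N D).symm
  have rD' : N % D < D := Nat.mod_lt _ D0
  have l64 : N / D ≤ 64 := Nat.div_le_of_le_mul (by rw [Nat.mul_comm]; exact hN)
  set l := N / D with hl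
  set r := N % D with hr
  have eR : (N : ℝ) = D * l + r := by exact_mod_cast e
  have hx2 : 64 * x = l + r / D := by
    rw [hx, eR]; field_simp
  rcases lt_or_eq_of_le l64 with h4 | h4
  · rw [plx_cell h4 _ (c := (r : ℝ) / D) (by positivity) (by
      rw [div_le_one D0']; exact_mod_cast rD'.le) (by push_cast; exact hx2)]
    unfold rD
    field_simp
  · have r0 : r = 0 := by
      rw [e, h4] at hN
      have : D * 64 = 64 * D := Nat.mul_comm _ _
      omega
    rw [h4, r0] at hx2
    have hx' : x = ((64 : ℕ) : ℝ) / (64 : ℕ) := by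
      push_cast at hx2 ⊢
      rw [zero_div, add_zero] at hx2
      linarith
    rw [hx', plx_node (n := 64) (j := 64) (by norm_num) le_rfl, h4, r0]
    unfold rD
    push_cast
    ring

theorem atM_ok {G : List ℕ} {M T l : ℕ} (h : atM G M T l = true) (hT : T ≤ 1048576)
    (hl : l ≤ 10) :
    plx 64 (fun l => rD (nth G l)) (rD T * (l / 10)) ≤ rD M := by
  have h1 := Nat.le_of_ble_eq_true h
  have hN : (64 * T) * l ≤ 64 * 10485760 := by
    calc (64 * T) * l ≤ (64 * 1048576) * 10 := Nat.mul_le_mul (Nat.mul_le_mul_left _ hT) hl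
      _ = 64 * 10485760 := by norm_num
  have hx : 64 * (rD T * (l / 10)) = ((64 * T * l : ℕ) : ℝ) / ((10485760 : ℕ) : ℝ) := by
    unfold rD
    push_cast
    ring
  have key := plx_div_eq (G := G) (by norm_num : 0 < 10485760) hN hx
  have rl : 64 * T * l % 10485760 ≤ 10485760 := (Nat.mod_lt _ (by norm_num)).le
  have h2 : ((nth G (64 * T * l / 10485760) * (10485760 - 64 * T * l % 10485760)
      + nth G (64 * T * l / 10485760 + 1) * (64 * T * l % 10485760) : ℕ) : ℝ)
      ≤ ((M * 10485760 : ℕ) : ℝ) := by exact_mod_cast h1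
  rw [Nat.cast_add, Nat.cast_mul, Nat.cast_mul, Nat.cast_sub rl, Nat.cast_mul] at h2
  have h3 : plx 64 (fun l => rD (nth G l)) (rD T * (l / 10)) * ((10485760 : ℕ) : ℝ)
      ≤ rD M * ((10485760 : ℕ) : ℝ) := by
    rw [key]
    have e : rD M * ((10485760 : ℕ) : ℝ)
        = (M * ((10485760 : ℕ) : ℝ)) / 1048576 := by unfold rD; ring
    rw [e]
    exact div_le_div_of_nonneg_right h2 (by norm_num)
  exact le_of_mul_le_mul_right h3 (by norm_num)

theorem atN_ok {G F : List ℕ} {T l : ℕ} (h : atN G F T l = true) (hT : T ≤ 1048576)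
    (hl : l ≤ 10) :
    plx 64 (fun l => rD (nth G l)) (rD T * (l / 10)) ≤ rD (nth F l) := atM_ok h hT hl

/-- the nodes between the two times -/
noncomputable def okA (F : List ℕ) (T0 T1 j g l : ℕ) : Bool :=
  cond (Nat.ble (Nat.mul (Nat.mul 64 T0) l) (Nat.mul 10485760 j))
    (cond (Nat.ble (Nat.mul 10485760 j) (Nat.mul (Nat.mul 64 T1) l))
      (Nat.ble g (nth F l)) true) true

/-- **the check**: `T0 = 0` is the first cell -/
noncomputable def ckP (T0 T1 : ℕ) (G F : List ℕ) : Bool :=
  and (Nat.beq (List.length G) 65)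
    (and (walk (fun j g => and (jT F T1 j g) (and (cond (Nat.beq T0 0) true (jT F T0 j g))
        (allB (okA F T0 T1 j g) 11))) G 0)
      (allB (fun l => and (atN G F T0 l) (atN G F T1 l)) 11))

theorem ckP_ok {T0 T1 : ℕ} {G F : List ℕ} (h : ckP T0 T1 G F = true) (hT : T0 ≤ T1)
    (T1p : 0 < T1) (T11 : T1 ≤ 1048576) {t : ℝ} (ht : t ∈ Icc (rD T0) (rD T1)) {s : ℝ}
    (hs : s ∈ Icc 0 t) :
    plx 64 (fun j => rD (nth G j)) s ≤ plx 10 (fun l => rD (nth F l)) (s / t) := by
  unfold ckP at h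
  rw [Bool.and_eq_true, Bool.and_eq_true] at h
  obtain ⟨hlen, hw, hat⟩ := h
  have len : G.length = 65 := Nat.eq_of_beq_eq_true hlen
  have W := walk_ok hw
  have A := allB_ok hat
  have T1r : rD T1 ≤ 1 := by
    unfold rD
    rw [div_le_one (by norm_num)]
    exact_mod_cast T11
  have T1pr : 0 < rD T1 := by
    unfold rD
    have : (0 : ℝ) < T1 := by exact_mod_cast T1p
    positivity
  have T0r : 0 ≤ rD T0 := rD_nonneg _
  have T01 : rD T0 ≤ rD T1 := div_le_div_of_nonneg_right (by exact_mod_cast hT) (by norm_num)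
  have fx : ∀ T, T = T1 ∨ (T = T0 ∧ 0 < T0) → ∀ σ ∈ Icc (0 : ℝ) 1,
      plx 64 (fun j => rD (nth G j)) (rD T * σ) ≤ plx 10 (fun l => rD (nth F l)) σ := by
    intro T hTT σ hσ
    have hTp : 0 < T := by
      rcases hTT with h1 | ⟨h1, h2⟩
      · rw [h1]; exact T1p
      · rw [h1]; exact h2
    have hT1 : T ≤ 1048576 := by
      rcases hTT with h1 | ⟨h1, h2⟩
      · rw [h1]; exact T11
      · rw [h1]; exact hT.trans T11
    have hTr : 0 < rD T := by
      unfold rD
      have : (0 : ℝ) < T := by exact_mod_cast hTp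
      positivity
    have hT1r : rD T ≤ 1 := by
      unfold rD
      rw [div_le_one (by norm_num)]
      exact_mod_cast hT1
    refine pl_fix (n := 64) (by norm_num) hTr hT1r (fun l hl => ?_) (fun j hj hjT => ?_) hσ.1 hσ.2
    · have h1 := A l (by omega)
      rw [Bool.and_eq_true] at h1
      rcases hTT with h2 | ⟨h2, _⟩
      · rw [h2]; exact atN_ok h1.2 T11 hl
      · rw [h2]; exact atN_ok h1.1 (hT.trans T11) hl
    · have h1 := W j (by omega)
      rw [Nat.zero_add, Bool.and_eq_true, Bool.and_eq_true] at h1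
      push_cast at hjT
      have e : ((64 : ℕ) : ℝ) = 64 := by norm_num
      rw [e]
      rcases hTT with h2 | ⟨h2, h3⟩
      · rw [h2] at hjT ⊢; exact jT_ok h1.1 T1p hjT
      · rw [h2] at hjT ⊢
        have h4 := h1.2.1
        have h5 : Nat.beq T0 0 = false := by
          cases h6 : Nat.beq T0 0 with
          | true => have := Nat.eq_of_beq_eq_true h6; omega
          | false => rfl
        rw [h5, cond_false] at h4
        exact jT_ok h4 h3 hjT
  refine pl_cmp (n := 64) (by norm_num) T0r T01 T1pr T1r (fun l hl s hs => ?_)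
    (fx T1 (Or.inl rfl)) (fun h0 => fx T0 (Or.inr ⟨rfl, ?_⟩)) ht hs
  · have h1 := A l (by omega)
    rw [Bool.and_eq_true] at h1
    have l0 : (0 : ℝ) ≤ l / 10 := by positivity
    have l1 : (l : ℝ) / 10 ≤ 1 := by
      rw [div_le_one (by norm_num)]
      exact_mod_cast hl
    refine pl_max (n := 64) (by norm_num) (mul_nonneg T0r l0) (mul_le_one₀ T1r l0 l1)
      (atN_ok h1.1 (hT.trans T11) hl) (atN_ok h1.2 T11 hl) (fun j hj j0 j1 => ?_) hs
    have h2 := W j (by omega)
    rw [Nat.zero_add, Bool.and_eq_true, Bool.and_eq_true] at h2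
    have h3 := allB_ok h2.2.2 l (by omega)
    push_cast at j0 j1
    have i0 : 64 * T0 * l ≤ 10485760 * j := by
      have : ((64 * T0 * l : ℕ) : ℝ) ≤ ((10485760 * j : ℕ) : ℝ) := by
        push_cast
        unfold rD at j0
        have := mul_le_mul_of_nonneg_left j0 (show (0 : ℝ) ≤ 10485760 by norm_num)
        calc (64 : ℝ) * T0 * l = 10485760 * (64 * (T0 / 1048576 * (l / 10))) := by ring
          _ ≤ _ := this
      exact_mod_cast this
    have i1 : 10485760 * j ≤ 64 * T1 * l := by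
      have : ((10485760 * j : ℕ) : ℝ) ≤ ((64 * T1 * l : ℕ) : ℝ) := by
        push_cast
        unfold rD at j1
        have := mul_le_mul_of_nonneg_left j1 (show (0 : ℝ) ≤ 10485760 by norm_num)
        calc (10485760 : ℝ) * j ≤ _ := this
          _ = (64 : ℝ) * T1 * l := by ring
      exact_mod_cast this
    unfold okA at h3
    rw [show Nat.ble (Nat.mul (Nat.mul 64 T0) l) (Nat.mul 10485760 j) = true from
      Nat.ble_eq_true_of_le i0, show Nat.ble (Nat.mul 10485760 j) (Nat.mul (Nat.mul 64 T1) l) = true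
      from Nat.ble_eq_true_of_le i1, cond_true, cond_true] at h3
    exact div_le_div_of_nonneg_right (by exact_mod_cast Nat.le_of_ble_eq_true h3) (by norm_num)
  · by_contra h1
    have h2 : T0 = 0 := by omega
    rw [h2] at h0
    unfold rD at h0
    simp at h0

/-- the maximum over the times of the cell -/
noncomputable def ckI (T0 T1 : ℕ) (G : List ℕ) (M : ℕ) : Bool :=
  and (Nat.beq (List.length G) 65)
    (and (walk (fun j g => cond (Nat.ble (Nat.mul 64 T0) (Nat.mul 1048576 j))
        (cond (Nat.ble (Nat.mul 1048576 j) (Nat.mul 64 T1)) (Nat.ble g M) true) true) G 0)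
      (and (atM G M T0 10) (atM G M T1 10)))

theorem ckI_ok {T0 T1 : ℕ} {G : List ℕ} {M : ℕ} (h : ckI T0 T1 G M = true) (hT : T0 ≤ T1)
    (T11 : T1 ≤ 1048576) {t : ℝ} (ht : t ∈ Icc (rD T0) (rD T1)) :
    plx 64 (fun j => rD (nth G j)) t ≤ rD M := by
  unfold ckI at h
  rw [Bool.and_eq_true, Bool.and_eq_true, Bool.and_eq_true] at h
  obtain ⟨hlen, hw, h0, h1⟩ := h
  have len : G.length = 65 := Nat.eq_of_beq_eq_true hlen
  have W := walk_ok hw
  have T1r : rD T1 ≤ 1 := by
    unfold rD
    rw [div_le_one (by norm_num)]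
    exact_mod_cast T11
  have e0 := atM_ok h0 (hT.trans T11) le_rfl
  have e1 := atM_ok h1 T11 le_rfl
  push_cast at e0 e1
  norm_num at e0 e1
  refine pl_max (n := 64) (by norm_num) (rD_nonneg _) T1r e0 e1 (fun j hj j0 j1 => ?_) ht
  have h2 := W j (by omega)
  rw [Nat.zero_add] at h2
  push_cast at j0 j1
  have i0 : 64 * T0 ≤ 1048576 * j := by
    have : ((64 * T0 : ℕ) : ℝ) ≤ ((1048576 * j : ℕ) : ℝ) := by
      push_cast
      unfold rD at j0
      have := mul_le_mul_of_nonneg_left j0 (show (0 : ℝ) ≤ 1048576 by norm_num)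
      calc (64 : ℝ) * T0 = 1048576 * (64 * (T0 / 1048576)) := by ring
        _ ≤ _ := this
    exact_mod_cast this
  have i1 : 1048576 * j ≤ 64 * T1 := by
    have : ((1048576 * j : ℕ) : ℝ) ≤ ((64 * T1 : ℕ) : ℝ) := by
      push_cast
      unfold rD at j1
      have := mul_le_mul_of_nonneg_left j1 (show (0 : ℝ) ≤ 1048576 by norm_num)
      calc (1048576 : ℝ) * j ≤ _ := this
        _ = (64 : ℝ) * T1 := by ring
    exact_mod_cast this
  rw [show Nat.ble (Nat.mul 64 T0) (Nat.mul 1048576 j) = true from Nat.ble_eq_true_of_le i0,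
    show Nat.ble (Nat.mul 1048576 j) (Nat.mul 64 T1) = true from Nat.ble_eq_true_of_le i1,
    cond_true, cond_true] at h2
  exact div_le_div_of_nonneg_right (by exact_mod_cast Nat.le_of_ble_eq_true h2) (by norm_num)

/-! ### simple functions at the nodes -/

theorem plx_c (n : ℕ) (n0 : 0 < n) {x : ℝ} (h0 : 0 ≤ x) (h1 : x ≤ 1) :
    plx n (fun _ => 1) x = 1 := by
  obtain ⟨l, hl, c, c0, c1, hc⟩ := cell_ex n0 h0 h1
  rw [plx_cell hl _ c0 c1 hc]
  ring

theorem plx_id (n : ℕ) (n0 : 0 < n) {x : ℝ} (h0 : 0 ≤ x) (h1 : x ≤ 1) :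
    plx n (fun j => (j : ℝ) / n) x = x := by
  have n0' : (0 : ℝ) < n := Nat.cast_pos.2 n0
  obtain ⟨l, hl, c, c0, c1, hc⟩ := cell_ex n0 h0 h1
  rw [plx_cell hl _ c0 c1 hc]
  push_cast
  field_simp
  linarith

theorem plx_id2 (n : ℕ) (n0 : 0 < n) {x : ℝ} (h0 : 0 ≤ x) (h1 : x ≤ 1) :
    x ^ 2 ≤ plx n (fun j => ((j : ℝ) / n) ^ 2) x := by
  have n0' : (0 : ℝ) < n := Nat.cast_pos.2 n0
  obtain ⟨l, hl, c, c0, c1, hc⟩ := cell_ex n0 h0 h1
  rw [plx_cell hl _ c0 c1 hc]
  have e : x = ((l : ℝ) + c) / n := by field_simp; linarith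
  rw [e]
  push_cast
  have h2 : ((l : ℝ) + c) ^ 2 ≤ (1 - c) * (l : ℝ) ^ 2 + c * ((l : ℝ) + 1) ^ 2 := by
    nlinarith [mul_nonneg c0 (sub_nonneg.2 c1)]
  have h3 := div_le_div_of_nonneg_right h2 (sq_nonneg (n : ℝ))
  calc (((l : ℝ) + c) / n) ^ 2 = ((l : ℝ) + c) ^ 2 / n ^ 2 := by rw [div_pow]
    _ ≤ _ := h3
    _ = _ := by field_simp

/-- the exponential of a piecewise linear function -/
theorem exp_plx {n : ℕ} (n0 : 0 < n) (v : ℕ → ℝ) {x : ℝ} (h0 : 0 ≤ x) (h1 : x ≤ 1) :
    Real.exp (plx n v x) ≤ plx n (fun j => Real.exp (v j)) x := by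
  obtain ⟨l, hl, c, c0, c1, hc⟩ := cell_ex n0 h0 h1
  rw [plx_cell hl _ c0 c1 hc, plx_cell hl _ c0 c1 hc]
  have := convexOn_exp.2 (mem_univ (v l)) (mem_univ (v (l + 1))) (sub_nonneg.2 c1) c0
    (by ring)
  simpa only [smul_eq_mul] using this

end Pool.Agent.RZ.RCN.K
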