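import Pool.Agent.RZ.RCM9.PVal2
import Pool.Agent.RZ.RCO.T1i

/-! Piecewise linear majorants (nodes `j / 64`) of rational functions, checked with rational
numbers (MP_73ccd0_lc). -/

namespace Pool.Agent.RZ.RCN.K

open Set Finset Pool.Agent.RZ.RCO.RT Pool.Agent.RZ.RCO.BxN Pool.Agent.RZ.RCM9

set_option linter.unusedSectionVars false
set_option linter.unusedVariables false

/-- the polynomial `l (a + h y)` -/
def shl (a h : ℚ) : List ℚ → List ℚ
  | [] => []
  | x :: l => ladd [x] (lmul [a, h] (shl a h l))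

theorem pv_shl (a h : ℚ) (l : List ℚ) (y : ℝ) :
    pv (shl a h l) y = pv l ((a : ℝ) + (h : ℝ) * y) := by
  induction l with
  | nil => simp [shl, pv]
  | cons x l ih =>
    rw [shl, pv_ladd, pv_lmul, ih]
    simp only [pv]
    ring

/-- the weighted sum of the positive parts -/
def bigM : ℚ → List ℚ → ℚ
  | _, [] => 0
  | k, x :: l => k * max 0 x + bigM (k + 1) l

/-- the value at one -/
def sumQ : List ℚ → ℚ
  | [] => 0
  | x :: l => x + sumQ l

/-- a sufficient condition for a polynomial to be nonnegative on `[0, 1]` -/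
def pos01 : List ℚ → Bool
  | [] => true
  | [a] => decide (0 ≤ a)
  | a :: b :: l => decide (bigM 1 l ≤ 4 * a) && decide (bigM 1 l ≤ 4 * (a + b + sumQ l))

theorem bigM_nonneg : ∀ (l : List ℚ) (k : ℕ), 0 ≤ bigM k l := by
  intro l
  induction l with
  | nil => intro k; simp [bigM]
  | cons x l ih =>
    intro k
    have h1 := ih (k + 1)
    push_cast at h1
    have h2 : (0 : ℚ) ≤ k * max 0 x := mul_nonneg (Nat.cast_nonneg k) (le_max_left _ _)
    simp only [bigM]
    linarith

theorem bigM_ok {y : ℝ} (y0 : 0 ≤ y) (y1 : y ≤ 1) : ∀ (l : List ℚ) (k : ℕ),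
    (sumQ l : ℝ) - y ^ k * pv l y ≤ (1 - y) * (bigM k l : ℝ) := by
  intro l
  induction l with
  | nil => intro k; simp [sumQ, pv, bigM]
  | cons x l ih =>
    intro k
    have h1 := ih (k + 1)
    have h2 : 1 - y ^ k ≤ k * (1 - y) := by
      have := one_add_mul_sub_le_pow (a := y) (by linarith) k
      linarith
    have h3 : (x : ℝ) * (1 - y ^ k) ≤ ((max 0 x : ℚ) : ℝ) * (k * (1 - y)) := by
      have p0 : (0 : ℝ) ≤ ((max 0 x : ℚ) : ℝ) := by exact_mod_cast le_max_left 0 x
      have p1 : (x : ℝ) ≤ ((max 0 x : ℚ) : ℝ) := by exact_mod_cast le_max_right 0 x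
      have p2 : 0 ≤ 1 - y ^ k := by
        have := pow_le_one₀ (n := k) y0 y1
        linarith
      exact (mul_le_mul_of_nonneg_right p1 p2).trans (mul_le_mul_of_nonneg_left h2 p0)
    simp only [sumQ, pv, bigM]
    push_cast at h1 h3 ⊢
    have e : (x : ℝ) + (sumQ l : ℝ) - y ^ k * ((x : ℝ) + y * pv l y)
        = (x : ℝ) * (1 - y ^ k) + ((sumQ l : ℝ) - y ^ (k + 1) * pv l y) := by ring
    rw [e]
    linarith

theorem pos01_ok {l : List ℚ} (h : pos01 l = true) {y : ℝ} (y0 : 0 ≤ y) (y1 : y ≤ 1) :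
    0 ≤ pv l y := by
  match l, h with
  | [], _ => simp [pv]
  | [a], h =>
    have h1 : (0 : ℚ) ≤ a := of_decide_eq_true h
    have h2 : (0 : ℝ) ≤ a := by exact_mod_cast h1
    simpa [pv] using h2
  | a :: b :: l, h =>
    have h' : (decide (bigM 1 l ≤ 4 * a) && decide (bigM 1 l ≤ 4 * (a + b + sumQ l))) = true := h
    rw [Bool.and_eq_true] at h'
    have h1 : bigM 1 l ≤ 4 * a := of_decide_eq_true h'.1
    have h2 : bigM 1 l ≤ 4 * (a + b + sumQ l) := of_decide_eq_true h'.2
    have M0 : (0 : ℝ) ≤ (bigM 1 l : ℝ) := by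
      have := bigM_nonneg l 1
      push_cast at this
      exact_mod_cast this
    have h1' : (bigM 1 l : ℝ) ≤ 4 * a := by exact_mod_cast h1
    have h2' : (bigM 1 l : ℝ) ≤ 4 * (a + b + sumQ l) := by exact_mod_cast h2
    have h3 := bigM_ok y0 y1 l 1
    push_cast at h3
    rw [pow_one] at h3
    simp only [pv]
    have h4 := mul_le_mul_of_nonneg_left h3 y0
    have h5 := mul_le_mul_of_nonneg_left h1' (sub_nonneg.2 y1)
    have h6 := mul_le_mul_of_nonneg_left h2' y0
    have h7 : y * (1 - y) * (bigM 1 l : ℝ) ≤ (1 / 4) * (bigM 1 l : ℝ) := by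
      refine mul_le_mul_of_nonneg_right ?_ M0
      nlinarith [sq_nonneg (y - 1 / 2)]
    nlinarith

/-- one segment of the majorant -/
def segB (N D : List ℚ) (j g g' : ℕ) : Bool :=
  pos01 (ladd (lmul (shl ((j : ℚ) / 64) (1 / 64) D)
    [(g : ℚ) / 1048576, ((g' : ℚ) - g) / 1048576])
    (lsmul (-1) (shl ((j : ℚ) / 64) (1 / 64) N)))

/-- all segments; the numerator may depend on the segment -/
def majB (N : ℕ → List ℚ) (D : List ℚ) : List ℕ → ℕ → Bool
  | [], _ => true
  | [_], _ => true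
  | g :: g' :: G, j => segB (N j) D j g g' && majB N D (g' :: G) (j + 1)

theorem majB_seg {N : ℕ → List ℚ} {D : List ℚ} : ∀ {G : List ℕ} {k : ℕ}, majB N D G k = true →
    ∀ i, i + 1 < G.length → segB (N (k + i)) D (k + i) (nth G i) (nth G (i + 1)) = true := by
  intro G
  induction G with
  | nil => intro k _ i hi; simp at hi
  | cons g G ih =>
    intro k h i hi
    cases G with
    | nil => simp at hi
    | cons g' G =>
      have h' : (segB (N k) D k g g' && majB N D (g' :: G) (k + 1)) = true := h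
      rw [Bool.and_eq_true] at h'
      cases i with
      | zero => exact h'.1
      | succ i =>
        have := ih h'.2 i (by simpa using hi)
        rw [show k + 1 + i = k + (i + 1) by omega] at this
        exact this

/-- **the majorant**, from zero to the end of the list -/
theorem majB_ok {N : ℕ → List ℚ} {D : List ℚ} {G : List ℕ} (h : majB N D G 0 = true)
    {n : ℕ} (hn : n < G.length) (n0 : 0 < n) {s : ℝ} (s0 : 0 ≤ s) (s1 : 64 * s ≤ n)
    (n64 : n ≤ 64) :
    ∃ j : ℕ, j < 64 ∧ (j : ℝ) ≤ 64 * s ∧ 64 * s ≤ j + 1 ∧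
      pv (N j) s ≤ pv D s * plx 64 (fun j => rD (nth G j)) s := by
  have hs1 : s ≤ 1 := by
    have : (n : ℝ) ≤ 64 := by exact_mod_cast n64
    linarith
  obtain ⟨j, hj, c, c0, c1, hc⟩ := cell_ex (n := 64) (by norm_num) s0 hs1
  push_cast at hc
  -- the segment lies in the list
  obtain ⟨j, c, hj, c0, c1, hc, hjn⟩ : ∃ (j : ℕ) (c : ℝ), j < 64 ∧ 0 ≤ c ∧ c ≤ 1 ∧
      64 * s = j + c ∧ j + 1 ≤ n := by
    rcases Nat.lt_or_ge j n with h1 | h1
    · exact ⟨j, c, hj, c0, c1, hc, h1⟩
    · have h2 : (n : ℝ) ≤ j := by exact_mod_cast h1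
      have h3 : c = 0 ∧ (j : ℝ) = n := ⟨by linarith, by linarith⟩
      have h5 : j = n := by exact_mod_cast h3.2
      refine ⟨j - 1, 1, by omega, zero_le_one, le_rfl, ?_, by omega⟩
      rw [hc, h3.1, Nat.cast_sub (by omega)]
      push_cast
      ring
  · refine ⟨j, hj, by linarith, by linarith, ?_⟩
    have h1 := majB_seg h j (by omega)
    rw [Nat.zero_add] at h1
    have h2 := pos01_ok h1 c0 c1
    have es : ((((j : ℚ) / 64 : ℚ)) : ℝ) + (((1 / 64 : ℚ)) : ℝ) * c = s := by
      push_cast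
      linarith
    rw [pv_ladd, pv_lmul, pv_lsmul, pv_shl, pv_shl, es] at h2
    rw [plx_cell hj _ c0 c1 (by push_cast; exact hc)]
    simp only [pv] at h2
    have e : (1 - c) * rD (nth G j) + c * rD (nth G (j + 1))
        = ((((nth G j : ℕ) : ℚ) / 1048576 : ℚ) : ℝ)
          + c * (((((nth G (j + 1) : ℕ) : ℚ) - ((nth G j : ℕ) : ℚ)) / 1048576 : ℚ) : ℝ) := by
      unfold rD
      push_cast
      ring
    rw [e]
    push_cast at h2 ⊢
    linarith

end Pool.Agent.RZ.RCN.K
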