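import Pool.Agent.RZ.RCE.Nn
import Pool.Agent.RZ.RCN.Ins
import Pool.Agent.RZ.RCO.T1l
import Pool.Agent.RZ.RCO.T1n

/-! The frame functions of a cell from the polynomial data: the facts `Cq.Fr` by a check with
numbers (MP_73ccd0_lc). -/

namespace Pool.Agent.RZ.RCN.K

open Set Finset Pool.Agent.RZ.RCO.RT Pool.Agent.RZ.RCO.BxN Pool.Agent.RZ.RCM9
open Pool.Agent.RZ.RCN.Ker

set_option linter.unusedSectionVars false
set_option linter.unusedVariables false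

/-! ### the exponents of the densities -/

/-- the polynomials of the exponents, with one knot -/
structure ExD where
  ap : List ℚ
  ap2 : List ℚ
  cp : List ℚ
  cp2 : List ℚ
  ep : List ℚ
  ep2 : List ℚ
  bp : List ℚ
  τ : ℚ

/-- a primitive with one knot -/
noncomputable def kq (l l2 : List ℚ) (τ r : ℝ) : ℝ := pv (pri l) r + pv (pri l2) (max 0 (r - τ))

/-- the exponent of the density factor -/
noncomputable def ExD.v (e : ExD) (t s : ℝ) : ℝ :=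
  kq e.ap e.ap2 e.τ s + (kq e.cp e.cp2 e.τ t - kq e.cp e.cp2 e.τ s)
    + s ^ 2 * (pv (pri e.bp) t - pv (pri e.bp) s) + kq e.ep e.ep2 e.τ s

/-- the part which depends on `s` only -/
noncomputable def ExD.u (e : ExD) (s : ℝ) : ℝ :=
  kq e.ap e.ap2 e.τ s - kq e.cp e.cp2 e.τ s + kq e.ep e.ep2 e.τ s - s ^ 2 * pv (pri e.bp) s

/-- its polynomial on a segment, with a linear shift -/
def ExD.UN (e : ExD) (b1 jt j : ℕ) : List ℚ :=
  let base := ladd [0, (b1 : ℚ) / 1048576] (ladd (pri e.ap) (ladd (lsmul (-1) (pri e.cp))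
    (ladd (pri e.ep) (lmul [0, 0, -1] (pri e.bp)))))
  if j < jt then base else ladd base (shl (-e.τ) 1 (ladd (pri e.ap2)
    (ladd (lsmul (-1) (pri e.cp2)) (pri e.ep2))))

theorem ExD.UN_eq {e : ExD} {b1 jt j : ℕ} (hτ : e.τ = (jt : ℚ) / 64) {s : ℝ}
    (h0 : (j : ℝ) ≤ 64 * s) (h1 : 64 * s ≤ j + 1) :
    pv (e.UN b1 jt j) s = e.u s + rD b1 * s := by
  have hτ' : (e.τ : ℝ) = (jt : ℝ) / 64 := by rw [hτ]; push_cast; rfl
  have hb : rD b1 = (b1 : ℝ) / 1048576 := rfl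
  unfold ExD.UN
  by_cases h : j < jt
  · have h2 : s - (e.τ : ℝ) ≤ 0 := by
      have : ((j + 1 : ℕ) : ℝ) ≤ jt := by exact_mod_cast h
      push_cast at this
      rw [hτ']
      linarith
    simp only [if_pos h, pv_ladd, pv_lmul, pv_lsmul, ExD.u, kq, max_eq_left h2, pri_zero, pv, hb]
    push_cast
    ring
  · have h2 : 0 ≤ s - (e.τ : ℝ) := by
      have : (jt : ℝ) ≤ j := by exact_mod_cast not_lt.1 h
      rw [hτ']
      linarith
    have e1 : ((((-e.τ : ℚ)) : ℝ) + ((1 : ℚ) : ℝ) * s) = s - (e.τ : ℝ) := by push_cast; ring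
    simp only [if_neg h, pv_ladd, pv_lmul, pv_lsmul, pv_shl, e1, ExD.u, kq, max_eq_right h2, pv, hb]
    push_cast
    ring

/-! ### the numbers -/

/-- the majorants of the frame functions at the nodes `j / 64`, over `2 ^ 20` -/
structure FrG where
  f0 : List ℕ
  f1 : List ℕ
  f2 : List ℕ
  φ0 : List ℕ
  φ1 : List ℕ
  φ2 : List ℕ
  c0 : List ℕ
  c1 : List ℕ
  c2 : List ℕ
  ρ : List ℕ
  U : List ℕ
  b1 : ℕ
  jt : ℕ
  em : ℕ
  Ga : List ℕ
  Gu : List ℕ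

/-- the numerators -/
def Ps.n0 (p : Ps) : List ℚ := p.d.be0
def Ps.n1 (p : Ps) : List ℚ := ladd [1 / 2] (ladd (lsmul (1 / 2) p.d.be0) (lsmul (1 / 2) p.d.be1))
def Ps.n2 (p : Ps) : List ℚ := ladd [1] (lsmul (1 / 2) p.d.be1)
def Ps.nF (p : Ps) : List ℚ := ladd p.d.F (ladd p.d.F3 p.d.F2)
def Ps.m0 (p : Ps) : List ℚ := lmul [1, p.d.ee] (ladd [0, 1] (lmul [1, 1]
  (ladd (lsmul (1 / 2) p.nF) (lsmul p.d.SP p.d.Gp))))
def Ps.m1 (p : Ps) : List ℚ := lmul [1, p.d.ee] (ladd [0, 1] (lmul [1, 1]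
  (ladd (lsmul (-1 / 2) p.d.Z) (ladd (lsmul (1 / 4) p.nF) (lsmul (p.d.SP / 2) p.d.Gp)))))
def Ps.m2 (p : Ps) : List ℚ := lmul [1, p.d.ee] (ladd [0, 1] (lmul [1, 1]
  (lsmul (-1 / 2) p.d.Z)))

/-- the Bernstein coefficients in the weight of the hazard on `[0, em]`: `1 + β / 2` -/
def Ps.r (p : Ps) (em : ℚ) (k : ℕ) : List ℚ :=
  match p.z.Rlo with
  | [r0, r1, r2, r3] =>
    match k with
    | 0 => ladd [1] (lsmul (1 / 2) r0)
    | 1 => ladd [1] (lsmul (1 / 2) (ladd r0 (lsmul (em / 3) r1)))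
    | 2 => ladd [1] (lsmul (1 / 2) (ladd r0 (ladd (lsmul (2 * em / 3) r1) (lsmul (em ^ 2 / 3) r2))))
    | _ => ladd [1] (lsmul (1 / 2) (ladd r0 (ladd (lsmul em r1) (ladd (lsmul (em ^ 2) r2)
        (lsmul (em ^ 3) r3)))))
  | _ => []

/-- the hazard has four rows -/
def Ps.four (p : Ps) : Bool :=
  match p.z.Rlo with
  | [_, _, _, _] => true
  | _ => false

/-- the majorants of the frame are correct -/
structure FrG.Ok (g : FrG) (p : Ps) (e : ExD) : Prop where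
  l : (Nat.beq g.f0.length 65 && Nat.beq g.f1.length 65 && Nat.beq g.f2.length 65
    && Nat.beq g.φ0.length 65 && Nat.beq g.φ1.length 65 && Nat.beq g.φ2.length 65
    && Nat.beq g.c0.length 65 && Nat.beq g.c1.length 65 && Nat.beq g.c2.length 65
    && Nat.beq g.ρ.length 65 && Nat.beq g.U.length 65 && Nat.beq g.Ga.length 9
    && Nat.beq g.Gu.length 9 && decide (8 ≤ g.jt) && p.four) = true
  f0 : majB (fun _ => p.n0) [1, 2, 1] g.f0 0 = true
  f1 : majB (fun _ => p.n1) [1, 2, 1] g.f1 0 = true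
  f2 : majB (fun _ => p.n2) [1, 2, 1] g.f2 0 = true
  φ0 : majB (fun _ => p.m0) [1, 1] g.φ0 0 = true
  φ1 : majB (fun _ => p.m1) [1, 1] g.φ1 0 = true
  φ2 : majB (fun _ => p.m2) [1, 1] g.φ2 0 = true
  c0 : majB (fun _ => p.n0) [1, 1] g.c0 0 = true
  c1 : majB (fun _ => p.n1) [1, 1] g.c1 0 = true
  c2 : majB (fun _ => p.n2) [1, 1] g.c2 0 = true
  r0 : majB (fun _ => p.r ((g.em : ℚ) / 1048576) 0) [1] g.ρ 0 = true
  r1 : majB (fun _ => p.r ((g.em : ℚ) / 1048576) 1) [1] g.ρ 0 = true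
  r2 : majB (fun _ => p.r ((g.em : ℚ) / 1048576) 2) [1] g.ρ 0 = true
  r3 : majB (fun _ => p.r ((g.em : ℚ) / 1048576) 3) [1] g.ρ 0 = true
  U : majB (e.UN g.b1 g.jt) [1] g.U 0 = true
  Ga : majB (fun _ => (pri e.cp).tail) [1] g.Ga 0 = true
  Gu : majB (fun _ => (e.UN g.b1 1 0).tail) [1] g.Gu 0 = true
  τ : e.τ = (g.jt : ℚ) / 64
  e0 : 0 < g.em
  e1 : g.em ≤ 524288
  e2 : 0 ≤ p.d.ee

/-- the numbers of a cell for the frame -/
structure FrC where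
  L : List ℕ
  E : List ℕ
  W : List ℕ
  aT : ℕ
  bT : ℕ
  ee : ℕ
  dl : ℕ
  Em : ℕ
  Lh : List ℕ
  a1 : ℕ
  a2 : ℕ
  c1 : ℕ
  c2 : ℕ

/-- the bound of the exponential -/
def t5q (z : ℚ) : ℚ := 1 + z + z ^ 2 / 2 + z ^ 3 / 6 + z ^ 4 / 24 + z ^ 5 / 88

theorem t5q_cast (z : ℚ) : ((t5q z : ℚ) : ℝ) = Pool.Agent.RZ.RCE.t5 (z : ℝ) := by
  unfold t5q Pool.Agent.RZ.RCE.t5
  push_cast
  rfl

variable (g : FrG) (p : Ps) (e : ExD) (d : CqN) (c : FrC)

/-- the rational numbers of the cell -/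
def FrC.qB : Bool :=
  decide (ev (pri e.cp) ((d.T1 : ℚ) / 1048576)
      + ev (pri e.cp2) (max 0 ((d.T1 : ℚ) / 1048576 - e.τ)) ≤ (c.aT : ℚ) / 1048576)
    && (decide (ev (pri e.bp) ((d.T1 : ℚ) / 1048576) ≤ (c.bT : ℚ) / 1048576)
    && decide (1 + p.d.ee * ((d.T1 : ℚ) / 1048576) ≤ (c.ee : ℚ) / 1048576))

/-- the exponential at a node -/
def FrC.tB (l : ℕ) : Bool :=
  decide (50 * c.L.getD l 0 ≤ 81 * 1048576)
    && decide (t5q ((c.L.getD l 0 : ℚ) / 1048576) ≤ (c.E.getD l 0 : ℚ) / 1048576)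

/-- the exponents at the nodes `j / 64` -/
noncomputable def FrC.wB : Bool :=
  walk (fun j U => Nat.ble (Nat.sub (Nat.add (Nat.add c.aT U)
      (Nat.succ (Nat.div (Nat.mul c.bT (Nat.mul j j)) 4096))) (Nat.div (Nat.mul g.b1 j) 64))
    (nth c.W j)) g.U 0

/-- the density factors -/
noncomputable def FrC.kB : Bool :=
  allB (fun l => and (Nat.ble (mu c.ee (nth c.E l)) (nth d.κ l))
    (cond (Nat.beq d.T0 0)
      (and (Nat.ble (nth c.E l) c.Em)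
        (and (Nat.ble (mu (mu c.ee c.Em) (nth c.Lh l)) (nth d.κh l))
          (and (Nat.ble (Nat.add (Nat.mul 10 c.a1) (Nat.mul c.c1 l))
              (Nat.mul 10 (md (Nat.add d.μ (Nat.add c.dl c.dl)) (nth c.Lh l))))
            (Nat.ble (Nat.add (Nat.mul 100 c.a2) (Nat.mul (Nat.add c.c2 c.bT) (Nat.mul l l)))
              (Nat.mul 100 (nth c.Lh l))))))
      (Nat.ble (mu c.ee (Nat.sub (nth c.E l) 1048576))
        (md (nth d.κh l) (md d.T0 d.T0))))) 11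

/-- the linear terms near the time `0` -/
noncomputable def FrC.zB : Bool :=
  cond (Nat.beq d.T0 0)
    (and (Nat.ble d.T1 131072)
      (and (walk (fun j G => Nat.ble (Nat.mul 64 G) (Nat.add (Nat.mul 64 c.a1) (Nat.mul c.a2 j)))
          g.Ga 0)
        (walk (fun j G => Nat.ble (Nat.mul 64 G)
          (Nat.add (Nat.mul 64 (Nat.add g.b1 c.c1)) (Nat.mul c.c2 j))) g.Gu 0))) true

/-- the comparisons of the cell -/
noncomputable def FrC.cB : Bool :=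
  and (and (ckP d.T0 d.T1 g.f0 d.f0) (and (ckP d.T0 d.T1 g.f1 d.f1) (ckP d.T0 d.T1 g.f2 d.f2)))
    (and (and (ckI d.T0 d.T1 g.φ0 d.b0) (and (ckI d.T0 d.T1 g.φ1 d.b1) (ckI d.T0 d.T1 g.φ2 d.b2)))
      (and (and (ckI d.T0 d.T1 g.c0 d.c0) (and (ckI d.T0 d.T1 g.c1 d.c1)
        (ckI d.T0 d.T1 g.c2 d.c2)))
        (and (ckP d.T0 d.T1 g.ρ d.ρ1) (ckP d.T0 d.T1 c.W c.L))))

/-- **the check of the cell** -/
noncomputable def FrC.okB : Bool :=
  and (Nat.ble d.T0 d.T1) (and (Nat.blt 0 d.T1) (and (Nat.ble d.T1 1048576)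
    (and (Nat.ble d.em g.em) (and (c.wB g) (and (c.kB d) (and (c.zB g d) (c.cB g d)))))))

end Pool.Agent.RZ.RCN.K
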