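import Pool.Agent.RZ.RCO.FrX_1
import Pool.Agent.RZ.RCO.FrX_3
import Pool.Agent.RZ.RCO.FrXc
import Pool.Agent.RZ.RCO.RTab
import Pool.Agent.RZ.RCO.TTs

/-! Generated: the numbers of the cell 18b (MP_73ccd0_lc). -/

set_option maxRecDepth 100000

namespace Pool.Agent.RZ.RCO.TD

open Pool.Agent.RZ.RCN.K Pool.Agent.RZ.RCO.RT Pool.Agent.RZ.RCO.RTab Pool.Agent.RZ.RCM9

/-- the numbers of the first type -/
def n18bc : CqN where
  T0 := 1027604
  T1 := 1034945
  δ := 0
  μ := 0
  em := 87382
  pm := 94570
  f0 := [1064460, 1008274, 868361, 729808, 605017, 503774, 426926, 370975, 330339, 298533, 268823]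
  f1 := [80011, 523974, 676508, 723936, 692735, 643710, 586246, 534506, 491525, 458484, 434447]
  f2 := [68489, 451470, 607768, 671207, 661565, 628659, 580713, 533463, 491095, 457299, 433899]
  κ := [1100651, 1102333, 1107256, 1115432, 1127092, 1142819, 1163662, 1191629, 1230716, 1288386, 1377046]
  κh := [52067, 53819, 58945, 67458, 79599, 95974, 117677, 146797, 187496, 247544, 339859]
  ρ1 := [117746, 472936, 782823, 1024777, 1177933, 1274926, 1338021, 1401306, 1467153, 1528740, 1591689]
  ρ2 := [0, 0, 0, 0, 0, 0, 0, 0, 0, 0, 0]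
  Φ := [1791, 110657, 209514, 294197, 369938, 442259, 509886, 572810, 632054, 689097, 745825]
  Cm := [0, 108866, 207723, 292406, 368147, 440468, 508095, 571019, 630263, 687306, 744034]
  Em := 1791
  b0 := 524577
  b1 := 521095
  b2 := 519753
  e0 := 54129
  e1 := 63340
  e2 := 61703
  β0 := 576623
  β1 := 581997
  β2 := 579081
  c0 := 531812
  c1 := 860401
  c2 := 859652
  α := 633997
  A0 := (1021763, 981108, 640521, 0)
  A1 := (1136832, 1050050, 671106, 0)
  A2 := (1101918, 1013865, 646559, 0)
  B0 := (1353536, 1198680, 749556, 0)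
  B1 := (1722172, 1497663, 925666, 0)
  B2 := (0, 0, 0, 0)
  K1 := (881063, 701387, 407699, 0)
  K20 := (1276336, 1225552, 800107, 0)
  K21 := (1814444, 1637691, 1032877, 0)
  K22 := (1740856, 1562854, 982569, 0)
  K3 := (1110852, 885244, 514960, 0)
  K40 := (1706436, 1511205, 944983, 0)
  K41 := (2863270, 2460414, 1508758, 0)
  K42 := (2, 2, 1, 0)
  HA := (0, 0, 0, 0)
  HB := (0, 0, 0, 0)
  RB := (1818611, 1448320, 842117, 0)
  qa := 130264
  qb := 87382
  φ := 1156250
  th := 839433
  thh := 831725
  ν0 := 1441694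
  v0 := 384380
  p0 := [349226, 349226, 349226, 349226, 349226, 349226]
  x0 := [424649, 424649, 424649, 424649, 424649, 424649]
  m0 := [651032, 651032, 651032, 651032, 651032, 651032]
  m1 := [391751, 391751, 391751, 391751, 391751, 391751]
  C0 := [1087132, 1087132, 1087132, 1087132, 1087132, 1087132]
  C1 := [172797, 172797, 172797, 172797, 172797, 172797]
  lam := 929050
  il := 591740

/-- the numbers of the second type -/
def n18bq : C2N where
  th2 := 2267358
  thh2 := 2386061
  k1 := 3317345
  k3 := 3523372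
  io := 1143902
  QA0 := (963334, 903728, 582617, 0)
  QA1 := (1404305, 1237354, 769253, 0)
  QH0 := (1099642, 962302, 597428, 0)
  QH1 := (1888588, 1597555, 970273, 0)

/-- the cell -/
def c18b : Cell where
  c := n18bc
  f := FrX.f27
  q := n18bq
  kap := 4501499
  n := 16
  l := [(6144, 43), (16384, 43), (32768, 43), (49152, 43), (75776, 43), (87382, 43)]

theorem n18b : c18b.nB1 FrX.G (tabq 1).r 18 = true := by decide +kernel

theorem q18b : c18b.qB FrX.p FrX.e 18 = true := by decide +kernel

theorem t18b : c18b.c.t2B (tabq 1).r 18 c18b.q = true := by decide +kernel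

theorem ok18b (k : ℕ) : CellOk1 FrX.p FrX.e FrX.G (tabq k) 18 c18b := .of n18b q18b t18b

end Pool.Agent.RZ.RCO.TD
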