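import Pool.Agent.RZ.RCO.FrX_1
import Pool.Agent.RZ.RCO.FrX_3
import Pool.Agent.RZ.RCO.FrXc
import Pool.Agent.RZ.RCO.RTab
import Pool.Agent.RZ.RCO.TTs

/-! Generated: the numbers of the cell 8 (MP_73ccd0_lc). -/

set_option maxRecDepth 100000

namespace Pool.Agent.RZ.RCO.TD

open Pool.Agent.RZ.RCN.K Pool.Agent.RZ.RCO.RT Pool.Agent.RZ.RCO.RTab Pool.Agent.RZ.RCM9

/-- the numbers of the first type -/
def n8c : CqN where
  T0 := 650117
  T1 := 713032
  δ := 0
  μ := 0
  em := 87382
  pm := 92334
  f0 := [1056036, 1034387, 966087, 883992, 794209, 708088, 628748, 558565, 498374, 448001, 406607]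
  f1 := [58287, 400206, 583694, 683441, 710500, 713057, 700492, 672143, 639147, 603221, 568594]
  f2 := [51747, 343318, 513445, 613707, 656427, 667392, 663522, 648976, 624018, 595679, 565078]
  κ := [1066948, 1067390, 1068637, 1070679, 1073524, 1077194, 1081809, 1087573, 1094755, 1103792, 1115380]
  κh := [44082, 45232, 48476, 53788, 61189, 70737, 82743, 97737, 116421, 139930, 170076]
  ρ1 := [113413, 365582, 592720, 797381, 967303, 1097075, 1191655, 1257502, 1307972, 1350263, 1394197]
  ρ2 := [0, 0, 0, 0, 0, 0, 0, 0, 0, 0, 0]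
  Φ := [1121, 107496, 209374, 303737, 389528, 466559, 539321, 610316, 678542, 743662, 805659]
  Cm := [0, 106375, 208253, 302616, 388407, 465438, 538200, 609195, 677421, 742541, 804538]
  Em := 1121
  b0 := 463654
  b1 := 392434
  b2 := 373107
  e0 := 50194
  e1 := 48581
  e2 := 46197
  β0 := 479437
  β1 := 407710
  β2 := 387633
  c0 := 658672
  c1 := 921098
  c2 := 915428
  α := 745459
  A0 := (677626, 574159, 348284, 0)
  A1 := (626697, 519840, 310941, 0)
  A2 := (593255, 491073, 293322, 0)
  B0 := (580404, 459828, 266360, 0)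
  B1 := (630651, 495382, 285165, 0)
  B2 := (0, 0, 0, 0)
  K1 := (725428, 546728, 304919, 0)
  K20 := (658800, 558207, 338607, 0)
  K21 := (653665, 535140, 317252, 0)
  K22 := (598842, 488683, 289069, 0)
  K3 := (658919, 497982, 278342, 0)
  K40 := (519303, 411420, 238319, 0)
  K41 := (645465, 504349, 289194, 0)
  K42 := (1, 1, 1, 0)
  HA := (0, 0, 0, 0)
  HB := (0, 0, 0, 0)
  RB := (681297, 515114, 288015, 0)
  qa := 95730
  qb := 87382
  φ := 1118200
  th := 1078543
  thh := 1171952
  ν0 := 987297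
  v0 := 188844
  p0 := [76851, 76851, 76851, 76851, 76851, 76851]
  x0 := [79812, 79812, 79812, 79812, 79812, 79812]
  m0 := [529058, 529058, 529058, 529058, 529058, 529058]
  m1 := [141918, 141918, 141918, 141918, 141918, 141918]
  C0 := [1048758, 1048758, 1048758, 1048758, 1048758, 1048758]
  C1 := [6912, 6912, 6912, 6912, 6912, 6912]
  lam := 1478514
  il := 371830

/-- the numbers of the second type -/
def n8q : C2N where
  th2 := 1670093
  thh2 := 1638197
  k1 := 1812927
  k3 := 1636566
  io := 1143902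
  QA0 := (522625, 441543, 267335, 0)
  QA1 := (516059, 421794, 249774, 0)
  QH0 := (437908, 347642, 201673, 0)
  QH1 := (546228, 427663, 245587, 0)

/-- the cell -/
def c8 : Cell where
  c := n8c
  f := FrX.f14
  q := n8q
  kap := 2207985
  n := 16
  l := [(16384, 43), (36864, 43), (63488, 43), (79872, 43), (87382, 43)]

theorem n8 : c8.nB1 FrX.G (tabq 1).r 8 = true := by decide +kernel

theorem q8 : c8.qB FrX.p FrX.e 8 = true := by decide +kernel

theorem t8 : c8.c.t2B (tabq 1).r 8 c8.q = true := by decide +kernel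

theorem ok8 (k : ℕ) : CellOk1 FrX.p FrX.e FrX.G (tabq k) 8 c8 := .of n8 q8 t8

end Pool.Agent.RZ.RCO.TD
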