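import Pool.Agent.RZ.RCO.Ed14
import Pool.Agent.RZ.RCO.SCr

/-! Route P: common facts of the cells (MP_73ccd0_lc). -/

set_option autoImplicit false

namespace Pool.Agent.RZ.RCO.WC

open Sg

/-- the right ends of the big cells are positive -/
theorem hT : ∀ m < (RTab.tabq 1).M, 0 < m → 0 < (RTab.tabq 1).T m := by
  show ∀ m < 20, 0 < m → 0 < RTab.tT m
  decide +kernel

/-- the records of level 0, of level 1/2 and of the hazard line -/
theorem ab0 : Ab0 SA.x0 SC.F.x SA.xh := ⟨SA.fit, SA.ok0, SA.okx, SA.okh, rfl, rfl, rfl⟩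

theorem as0 : As0 SAs.s0 SC.Fs.x SAs.xh := ⟨SAs.fit, SAs.okx, SAs.okh, rfl, rfl, rfl⟩

end Pool.Agent.RZ.RCO.WC
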