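import Pool.Agent.RZ.RCM9.CertP
import Pool.Agent.RZ.RCO.EC1
import Pool.Agent.RZ.RCO.WCa

/-! Route P: the pair worlds of a cell (MP_73ccd0_lc). -/

set_option autoImplicit false
set_option maxRecDepth 100000

namespace Pool.Agent.RZ.RCO.WC1

open Sg Pool.Agent.RZ.RCM9

/-- the data of level 0 and of level 1/2 -/
theorem ab1 : Ab1 SA.x0 SC.F.x SA.xh SC1.c.D SC1.c.n :=
  ⟨SA1.rowsSAL, SA1.ok0, SA1.okE, SA1.okH⟩

/-- **the pair worlds of the cell** -/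
theorem pairW : PairW CertP.p.z.hz (RTab.tabq 1) 1 :=
  pair_cell SC.F_ok SC1.dat SC.r_okC SC.r_okR SK1.datC SK1.datR WC.ab0 ab1
    (show 1 < 20 by decide) WC.hT EC1.rel EC1.djo EC1.djr EC1.djt rfl rfl rfl rfl
    (by decide +kernel) EC1.pc EC1.cnl EC1.rnl

end Pool.Agent.RZ.RCO.WC1
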