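import Pool.Agent.RZ.RCM9.CertP
import Pool.Agent.RZ.RCO.EC10
import Pool.Agent.RZ.RCO.WCa

/-! Route P: the pair worlds of a cell (MP_73ccd0_lc). -/

set_option autoImplicit false
set_option maxRecDepth 100000

namespace Pool.Agent.RZ.RCO.WC10

open Sg Pool.Agent.RZ.RCM9

/-- the data of level 0 and of level 1/2 -/
theorem ab1 : Ab1 SA.x0 SC.F.x SA.xh SC10.c.D SC10.c.n :=
  ⟨SA10.rowsSAL, SA10.ok0, SA10.okE, SA10.okH⟩

/-- **the pair worlds of the cell** -/
theorem pairW : PairW CertP.p.z.hz (RTab.tabq 1) 10 :=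
  pair_cell SC.F_ok SC10.dat SC.r_okC SC.r_okR SK10.datC SK10.datR WC.ab0 ab1
    (show 10 < 20 by decide) WC.hT EC10.rel EC10.djo EC10.djr EC10.djt rfl rfl rfl rfl
    (by decide +kernel) EC10.pc EC10.cnl EC10.rnl

end Pool.Agent.RZ.RCO.WC10
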