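import Pool.Agent.RZ.RCM9.CertP
import Pool.Agent.RZ.RCO.EC13
import Pool.Agent.RZ.RCO.WCa

/-! Route P: the pair worlds of a cell (MP_73ccd0_lc). -/

set_option autoImplicit false
set_option maxRecDepth 100000

namespace Pool.Agent.RZ.RCO.WC13

open Sg Pool.Agent.RZ.RCM9

/-- the data of level 0 and of level 1/2 -/
theorem ab1 : Ab1 SA.x0 SC.F.x SA.xh SC13.c.D SC13.c.n :=
  ⟨SA13.rowsSAL, SA13.ok0, SA13.okE, SA13.okH⟩

/-- **the pair worlds of the cell** -/
theorem pairW : PairW CertP.p.z.hz (RTab.tabq 1) 13 :=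
  pair_cell SC.F_ok SC13.dat SC.r_okC SC.r_okR SK13.datC SK13.datR WC.ab0 ab1
    (show 13 < 20 by decide) WC.hT EC13.rel EC13.djo EC13.djr EC13.djt rfl rfl rfl rfl
    (by decide +kernel) EC13.pc EC13.cnl EC13.rnl

end Pool.Agent.RZ.RCO.WC13
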