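import Pool.Agent.RZ.RCM9.CertP
import Pool.Agent.RZ.RCO.EC16
import Pool.Agent.RZ.RCO.WCa

/-! Route P: the pair worlds of a cell (MP_73ccd0_lc). -/

set_option autoImplicit false
set_option maxRecDepth 100000

namespace Pool.Agent.RZ.RCO.WC16

open Sg Pool.Agent.RZ.RCM9

/-- the data of level 0 and of level 1/2 -/
theorem ab1 : Ab1 SA.x0 SC.F.x SA.xh SC16.c.D SC16.c.n :=
  ⟨SA16.rowsSAL, SA16.ok0, SA16.okE, SA16.okH⟩

/-- **the pair worlds of the cell** -/
theorem pairW : PairW CertP.p.z.hz (RTab.tabq 1) 16 :=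
  pair_cell SC.F_ok SC16.dat SC.r_okC SC.r_okR SK16.datC SK16.datR WC.ab0 ab1
    (show 16 < 20 by decide) WC.hT EC16.rel EC16.djo EC16.djr EC16.djt rfl rfl rfl rfl
    (by decide +kernel) EC16.pc EC16.cnl EC16.rnl

end Pool.Agent.RZ.RCO.WC16
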