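import Pool.Agent.RZ.RCM9.CertP
import Pool.Agent.RZ.RCO.EC4
import Pool.Agent.RZ.RCO.WCa

/-! Route P: the pair worlds of a cell (MP_73ccd0_lc). -/

set_option autoImplicit false
set_option maxRecDepth 100000

namespace Pool.Agent.RZ.RCO.WC4

open Sg Pool.Agent.RZ.RCM9

/-- the data of level 0 and of level 1/2 -/
theorem ab1 : Ab1 SA.x0 SC.F.x SA.xh SC4.c.D SC4.c.n :=
  ⟨SA4.rowsSAL, SA4.ok0, SA4.okE, SA4.okH⟩

/-- **the pair worlds of the cell** -/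
theorem pairW : PairW CertP.p.z.hz (RTab.tabq 1) 4 :=
  pair_cell SC.F_ok SC4.dat SC.r_okC SC.r_okR SK4.datC SK4.datR WC.ab0 ab1
    (show 4 < 20 by decide) WC.hT EC4.rel EC4.djo EC4.djr EC4.djt rfl rfl rfl rfl
    (by decide +kernel) EC4.pc EC4.cnl EC4.rnl

end Pool.Agent.RZ.RCO.WC4
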