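import Pool.Agent.RZ.RCM9.CertP
import Pool.Agent.RZ.RCO.EC7
import Pool.Agent.RZ.RCO.WCa

/-! Route P: the pair worlds of a cell (MP_73ccd0_lc). -/

set_option autoImplicit false
set_option maxRecDepth 100000

namespace Pool.Agent.RZ.RCO.WC7

open Sg Pool.Agent.RZ.RCM9

/-- the data of level 0 and of level 1/2 -/
theorem ab1 : Ab1 SA.x0 SC.F.x SA.xh SC7.c.D SC7.c.n :=
  ⟨SA7.rowsSAL, SA7.ok0, SA7.okE, SA7.okH⟩

/-- **the pair worlds of the cell** -/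
theorem pairW : PairW CertP.p.z.hz (RTab.tabq 1) 7 :=
  pair_cell SC.F_ok SC7.dat SC.r_okC SC.r_okR SK7.datC SK7.datR WC.ab0 ab1
    (show 7 < 20 by decide) WC.hT EC7.rel EC7.djo EC7.djr EC7.djt rfl rfl rfl rfl
    (by decide +kernel) EC7.pc EC7.cnl EC7.rnl

end Pool.Agent.RZ.RCO.WC7
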