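import Pool.Agent.RZ.RCM9.CertP
import Pool.Agent.RZ.RCO.ECs0
import Pool.Agent.RZ.RCO.WCa

/-! Route P: the star worlds of a cell (MP_73ccd0_lc). -/

set_option autoImplicit false
set_option maxRecDepth 100000

namespace Pool.Agent.RZ.RCO.WCs0

open Sg Pool.Agent.RZ.RCM9

/-- the data of level 0 and of level 1/2, pairs -/
theorem ab1 : Ab1 SA.x0 SA.x SA.xh SA0.D SCs0.c.n :=
  ⟨SA0.rowsSAL, SA0.ok0, SA0.okE, SA0.okH⟩

/-- the same for the stars -/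
theorem as1 : As1 SA.x0 SA0.D SAs.s0 SC.Fs.x SAs.xh SCs0.c.D SCs0.c.n :=
  ⟨SAs0.rowsSASL, SAs0.sok, SAs0.okE, SAs0.okH⟩

/-- **the star worlds of the cell** -/
theorem starW : StarW CertP.p.z.hz (RTab.tabq 1) 0 :=
  star_cell SC.Fs_ok SCs0.dat SC.rs_okC SKs0.datC WC.ab0 ab1 WC.as0 as1
    (show 0 < 20 by decide) WC.hT ECs0.rel ECs0.djo ECs0.djr ECs0.djt rfl rfl rfl rfl
    (by decide +kernel) ECs0.sH ECs0.snl

end Pool.Agent.RZ.RCO.WCs0
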