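import Pool.Agent.RZ.RCM9.CertP
import Pool.Agent.RZ.RCO.ECs1
import Pool.Agent.RZ.RCO.WCa

/-! Route P: the star worlds of a cell (MP_73ccd0_lc). -/

set_option autoImplicit false
set_option maxRecDepth 100000

namespace Pool.Agent.RZ.RCO.WCs1

open Sg Pool.Agent.RZ.RCM9

/-- the data of level 0 and of level 1/2, pairs -/
theorem ab1 : Ab1 SA.x0 SA.x SA.xh SA1.D SCs1.c.n :=
  ⟨SA1.rowsSAL, SA1.ok0, SA1.okE, SA1.okH⟩

/-- the same for the stars -/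
theorem as1 : As1 SA.x0 SA1.D SAs.s0 SC.Fs.x SAs.xh SCs1.c.D SCs1.c.n :=
  ⟨SAs1.rowsSASL, SAs1.sok, SAs1.okE, SAs1.okH⟩

/-- **the star worlds of the cell** -/
theorem starW : StarW CertP.p.z.hz (RTab.tabq 1) 1 :=
  star_cell SC.Fs_ok SCs1.dat SC.rs_okC SKs1.datC WC.ab0 ab1 WC.as0 as1
    (show 1 < 20 by decide) WC.hT ECs1.rel ECs1.djo ECs1.djr ECs1.djt rfl rfl rfl rfl
    (by decide +kernel) ECs1.sH ECs1.snl

end Pool.Agent.RZ.RCO.WCs1
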