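import Pool.Agent.RZ.RCM9.CertP
import Pool.Agent.RZ.RCO.ECs10
import Pool.Agent.RZ.RCO.SAdC_2
import Pool.Agent.RZ.RCO.WCa

/-! Route P: the star worlds of a cell (MP_73ccd0_lc). -/

set_option autoImplicit false
set_option maxRecDepth 100000

namespace Pool.Agent.RZ.RCO.WCs10

open Sg Pool.Agent.RZ.RCM9

/-- the data of level 0 and of level 1/2, pairs -/
theorem ab1 : Ab1 SA.x0 SA.x SA.xh SA10.D SCs10.c.n :=
  ⟨SA10.rowsSAL, SA10.ok0, SA10.okE, SA10.okH⟩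

/-- the same for the stars -/
theorem as1 : As1 SA.x0 SA10.D SAs.s0 SC.Fs.x SAs.xh SCs10.c.D SCs10.c.n :=
  ⟨SAs10.rowsSASL, SAs10.sok, SAs10.okE, SAs10.okH⟩

/-- **the star worlds of the cell** -/
theorem starW : StarW CertP.p.z.hz (RTab.tabq 1) 10 :=
  star_cell SC.Fs_ok SCs10.dat SC.rs_okC SKs10.datC WC.ab0 ab1 WC.as0 as1
    (show 10 < 20 by decide) WC.hT ECs10.rel ECs10.djo ECs10.djr ECs10.djt rfl rfl rfl rfl
    (by decide +kernel) ECs10.sH ECs10.snl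

end Pool.Agent.RZ.RCO.WCs10
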