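import Pool.Agent.RZ.RCM9.CertP
import Pool.Agent.RZ.RCO.ECs13
import Pool.Agent.RZ.RCO.SAdD_2
import Pool.Agent.RZ.RCO.WCa

/-! Route P: the star worlds of a cell (MP_73ccd0_lc). -/

set_option autoImplicit false
set_option maxRecDepth 100000

namespace Pool.Agent.RZ.RCO.WCs13

open Sg Pool.Agent.RZ.RCM9

/-- the data of level 0 and of level 1/2, pairs -/
theorem ab1 : Ab1 SA.x0 SA.x SA.xh SA13.D SCs13.c.n :=
  ⟨SA13.rowsSAL, SA13.ok0, SA13.okE, SA13.okH⟩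

/-- the same for the stars -/
theorem as1 : As1 SA.x0 SA13.D SAs.s0 SC.Fs.x SAs.xh SCs13.c.D SCs13.c.n :=
  ⟨SAs13.rowsSASL, SAs13.sok, SAs13.okE, SAs13.okH⟩

/-- **the star worlds of the cell** -/
theorem starW : StarW CertP.p.z.hz (RTab.tabq 1) 13 :=
  star_cell SC.Fs_ok SCs13.dat SC.rs_okC SKs13.datC WC.ab0 ab1 WC.as0 as1
    (show 13 < 20 by decide) WC.hT ECs13.rel ECs13.djo ECs13.djr ECs13.djt rfl rfl rfl rfl
    (by decide +kernel) ECs13.sH ECs13.snl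

end Pool.Agent.RZ.RCO.WCs13
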