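import Pool.Agent.RZ.RCM9.CertP
import Pool.Agent.RZ.RCO.ECs15
import Pool.Agent.RZ.RCO.SAdD_2
import Pool.Agent.RZ.RCO.WCa

/-! Route P: the star worlds of a cell (MP_73ccd0_lc). -/

set_option autoImplicit false
set_option maxRecDepth 100000

namespace Pool.Agent.RZ.RCO.WCs15

open Sg Pool.Agent.RZ.RCM9

/-- the data of level 0 and of level 1/2, pairs -/
theorem ab1 : Ab1 SA.x0 SA.x SA.xh SA15.D SCs15.c.n :=
  ⟨SA15.rowsSAL, SA15.ok0, SA15.okE, SA15.okH⟩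

/-- the same for the stars -/
theorem as1 : As1 SA.x0 SA15.D SAs.s0 SC.Fs.x SAs.xh SCs15.c.D SCs15.c.n :=
  ⟨SAs15.rowsSASL, SAs15.sok, SAs15.okE, SAs15.okH⟩

/-- **the star worlds of the cell** -/
theorem starW : StarW CertP.p.z.hz (RTab.tabq 1) 15 :=
  star_cell SC.Fs_ok SCs15.dat SC.rs_okC SKs15.datC WC.ab0 ab1 WC.as0 as1
    (show 15 < 20 by decide) WC.hT ECs15.rel ECs15.djo ECs15.djr ECs15.djt rfl rfl rfl rfl
    (by decide +kernel) ECs15.sH ECs15.snl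

end Pool.Agent.RZ.RCO.WCs15
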