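import Pool.Agent.RZ.RCM9.CertP
import Pool.Agent.RZ.RCO.ECs18
import Pool.Agent.RZ.RCO.SAsdE_3
import Pool.Agent.RZ.RCO.WCa

/-! Route P: the star worlds of a cell (MP_73ccd0_lc). -/

set_option autoImplicit false
set_option maxRecDepth 100000

namespace Pool.Agent.RZ.RCO.WCs18

open Sg Pool.Agent.RZ.RCM9

/-- the data of level 0 and of level 1/2, pairs -/
theorem ab1 : Ab1 SA.x0 SA.x SA.xh SA18.D SCs18.c.n :=
  ⟨SA18.rowsSAL, SA18.ok0, SA18.okE, SA18.okH⟩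

/-- the same for the stars -/
theorem as1 : As1 SA.x0 SA18.D SAs.s0 SC.Fs.x SAs.xh SCs18.c.D SCs18.c.n :=
  ⟨SAs18.rowsSASL, SAs18.sok, SAs18.okE, SAs18.okH⟩

/-- **the star worlds of the cell** -/
theorem starW : StarW CertP.p.z.hz (RTab.tabq 1) 18 :=
  star_cell SC.Fs_ok SCs18.dat SC.rs_okC SKs18.datC WC.ab0 ab1 WC.as0 as1
    (show 18 < 20 by decide) WC.hT ECs18.rel ECs18.djo ECs18.djr ECs18.djt rfl rfl rfl rfl
    (by decide +kernel) ECs18.sH ECs18.snl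

end Pool.Agent.RZ.RCO.WCs18
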