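import Pool.Agent.RZ.RCM9.CertP
import Pool.Agent.RZ.RCO.ECs19
import Pool.Agent.RZ.RCO.SAsdE_3
import Pool.Agent.RZ.RCO.WCa

/-! Route P: the star worlds of a cell (MP_73ccd0_lc). -/

set_option autoImplicit false
set_option maxRecDepth 100000

namespace Pool.Agent.RZ.RCO.WCs19

open Sg Pool.Agent.RZ.RCM9

/-- the data of level 0 and of level 1/2, pairs -/
theorem ab1 : Ab1 SA.x0 SA.x SA.xh SA19.D SCs19.c.n :=
  ⟨SA19.rowsSAL, SA19.ok0, SA19.okE, SA19.okH⟩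

/-- the same for the stars -/
theorem as1 : As1 SA.x0 SA19.D SAs.s0 SC.Fs.x SAs.xh SCs19.c.D SCs19.c.n :=
  ⟨SAs19.rowsSASL, SAs19.sok, SAs19.okE, SAs19.okH⟩

/-- **the star worlds of the cell** -/
theorem starW : StarW CertP.p.z.hz (RTab.tabq 1) 19 :=
  star_cell SC.Fs_ok SCs19.dat SC.rs_okC SKs19.datC WC.ab0 ab1 WC.as0 as1
    (show 19 < 20 by decide) WC.hT ECs19.rel ECs19.djo ECs19.djr ECs19.djt rfl rfl rfl rfl
    (by decide +kernel) ECs19.sH ECs19.snl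

end Pool.Agent.RZ.RCO.WCs19
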