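import Pool.Agent.RZ.RCM9.CertP
import Pool.Agent.RZ.RCO.ECs3
import Pool.Agent.RZ.RCO.WCa

/-! Route P: the star worlds of a cell (MP_73ccd0_lc). -/

set_option autoImplicit false
set_option maxRecDepth 100000

namespace Pool.Agent.RZ.RCO.WCs3

open Sg Pool.Agent.RZ.RCM9

/-- the data of level 0 and of level 1/2, pairs -/
theorem ab1 : Ab1 SA.x0 SA.x SA.xh SA3.D SCs3.c.n :=
  ⟨SA3.rowsSAL, SA3.ok0, SA3.okE, SA3.okH⟩

/-- the same for the stars -/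
theorem as1 : As1 SA.x0 SA3.D SAs.s0 SC.Fs.x SAs.xh SCs3.c.D SCs3.c.n :=
  ⟨SAs3.rowsSASL, SAs3.sok, SAs3.okE, SAs3.okH⟩

/-- **the star worlds of the cell** -/
theorem starW : StarW CertP.p.z.hz (RTab.tabq 1) 3 :=
  star_cell SC.Fs_ok SCs3.dat SC.rs_okC SKs3.datC WC.ab0 ab1 WC.as0 as1
    (show 3 < 20 by decide) WC.hT ECs3.rel ECs3.djo ECs3.djr ECs3.djt rfl rfl rfl rfl
    (by decide +kernel) ECs3.sH ECs3.snl

end Pool.Agent.RZ.RCO.WCs3
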