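import Pool.Agent.RZ.RCM9.CertP
import Pool.Agent.RZ.RCO.ECs5
import Pool.Agent.RZ.RCO.SAdB_2
import Pool.Agent.RZ.RCO.WCa

/-! Route P: the star worlds of a cell (MP_73ccd0_lc). -/

set_option autoImplicit false
set_option maxRecDepth 100000

namespace Pool.Agent.RZ.RCO.WCs5

open Sg Pool.Agent.RZ.RCM9

/-- the data of level 0 and of level 1/2, pairs -/
theorem ab1 : Ab1 SA.x0 SA.x SA.xh SA5.D SCs5.c.n :=
  ⟨SA5.rowsSAL, SA5.ok0, SA5.okE, SA5.okH⟩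

/-- the same for the stars -/
theorem as1 : As1 SA.x0 SA5.D SAs.s0 SC.Fs.x SAs.xh SCs5.c.D SCs5.c.n :=
  ⟨SAs5.rowsSASL, SAs5.sok, SAs5.okE, SAs5.okH⟩

/-- **the star worlds of the cell** -/
theorem starW : StarW CertP.p.z.hz (RTab.tabq 1) 5 :=
  star_cell SC.Fs_ok SCs5.dat SC.rs_okC SKs5.datC WC.ab0 ab1 WC.as0 as1
    (show 5 < 20 by decide) WC.hT ECs5.rel ECs5.djo ECs5.djr ECs5.djt rfl rfl rfl rfl
    (by decide +kernel) ECs5.sH ECs5.snl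

end Pool.Agent.RZ.RCO.WCs5
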