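import Pool.Agent.RZ.RCO.FinC
import Pool.Agent.RZ.RCO.WC0
import Pool.Agent.RZ.RCO.WC1
import Pool.Agent.RZ.RCO.WC10
import Pool.Agent.RZ.RCO.WC11
import Pool.Agent.RZ.RCO.WC12
import Pool.Agent.RZ.RCO.WC13
import Pool.Agent.RZ.RCO.WC14
import Pool.Agent.RZ.RCO.WC15
import Pool.Agent.RZ.RCO.WC16
import Pool.Agent.RZ.RCO.WC17
import Pool.Agent.RZ.RCO.WC18
import Pool.Agent.RZ.RCO.WC19
import Pool.Agent.RZ.RCO.WC2
import Pool.Agent.RZ.RCO.WC3
import Pool.Agent.RZ.RCO.WC4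
import Pool.Agent.RZ.RCO.WC5
import Pool.Agent.RZ.RCO.WC6
import Pool.Agent.RZ.RCO.WC7
import Pool.Agent.RZ.RCO.WC8
import Pool.Agent.RZ.RCO.WC9
import Pool.Agent.RZ.RCO.WCs0
import Pool.Agent.RZ.RCO.WCs1
import Pool.Agent.RZ.RCO.WCs10
import Pool.Agent.RZ.RCO.WCs11
import Pool.Agent.RZ.RCO.WCs12
import Pool.Agent.RZ.RCO.WCs13
import Pool.Agent.RZ.RCO.WCs14
import Pool.Agent.RZ.RCO.WCs15
import Pool.Agent.RZ.RCO.WCs16
import Pool.Agent.RZ.RCO.WCs17
import Pool.Agent.RZ.RCO.WCs18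
import Pool.Agent.RZ.RCO.WCs19
import Pool.Agent.RZ.RCO.WCs2
import Pool.Agent.RZ.RCO.WCs3
import Pool.Agent.RZ.RCO.WCs4
import Pool.Agent.RZ.RCO.WCs5
import Pool.Agent.RZ.RCO.WCs6
import Pool.Agent.RZ.RCO.WCs7
import Pool.Agent.RZ.RCO.WCs8
import Pool.Agent.RZ.RCO.WCs9

/-! The final theorem of the class of small weights (MP_73ccd0_lc). -/

set_option autoImplicit false

namespace Pool.Agent.RZ.RCO.WinX

open Set Finset MeasureTheory Pool.Agent.RZ.RCRSHalf Pool.Agent.RZ.RCG Pool.Agent.RZ.RCG.Ct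
open Pool.Agent.RZ.RCN.Ker Pool.Agent.RZ.RCRS Pool.Agent.RZ.RCM9 Pool.Agent.RZ.RCM9.Bern Pool.Agent.RZ.RCM9.Pk
open Pool.Agent.RZ.RCN Pool.Agent.RZ.RCN.K Pool.Agent.RZ.RCE Pool.Agent.RZ.RCO.RTab

/-- the pair worlds of all cells -/
theorem pairs : ∀ m < (tabq 1).M, PairW CertP.p.z.hz (tabq 1) m
  | 0, _ => WC0.pairW
  | 1, _ => WC1.pairW
  | 2, _ => WC2.pairW
  | 3, _ => WC3.pairW
  | 4, _ => WC4.pairW
  | 5, _ => WC5.pairW
  | 6, _ => WC6.pairW
  | 7, _ => WC7.pairW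
  | 8, _ => WC8.pairW
  | 9, _ => WC9.pairW
  | 10, _ => WC10.pairW
  | 11, _ => WC11.pairW
  | 12, _ => WC12.pairW
  | 13, _ => WC13.pairW
  | 14, _ => WC14.pairW
  | 15, _ => WC15.pairW
  | 16, _ => WC16.pairW
  | 17, _ => WC17.pairW
  | 18, _ => WC18.pairW
  | 19, _ => WC19.pairW
  | m + 20, h => absurd (show m + 20 < 20 from h) (by omega)

/-- the star worlds of all cells -/
theorem stars : ∀ m < (tabq 1).M, StarW CertP.p.z.hz (tabq 1) m
  | 0, _ => WCs0.starW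
  | 1, _ => WCs1.starW
  | 2, _ => WCs2.starW
  | 3, _ => WCs3.starW
  | 4, _ => WCs4.starW
  | 5, _ => WCs5.starW
  | 6, _ => WCs6.starW
  | 7, _ => WCs7.starW
  | 8, _ => WCs8.starW
  | 9, _ => WCs9.starW
  | 10, _ => WCs10.starW
  | 11, _ => WCs11.starW
  | 12, _ => WCs12.starW
  | 13, _ => WCs13.starW
  | 14, _ => WCs14.starW
  | 15, _ => WCs15.starW
  | 16, _ => WCs16.starW
  | 17, _ => WCs17.starW
  | 18, _ => WCs18.starW
  | 19, _ => WCs19.starW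
  | m + 20, h => absurd (show m + 20 < 20 from h) (by omega)

/-- **the worlds and the star constants of every graph** -/
theorem win {V : Type} [Fintype V] [DecidableEq V] (Gr : SimpleGraph V) [Fintype Gr.edgeSet]
    [DecidableEq Gr.edgeSet] (x : Gr.edgeSet → ℝ) [CX x] (hx : IsFractionalMatching Gr x) :
    FinC.WIn x :=
  win_of pairs stars (wt_xe hx zero_le_one le_rfl fun e => (hx.1 e).2)

/-- **the final theorem** -/
theorem half (V : Type) [Fintype V] [DecidableEq V] (G : SimpleGraph V) [Fintype G.edgeSet]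
    [DecidableEq G.edgeSet] (x : G.edgeSet → ℝ) (hx : IsFractionalMatching G x)
    (hX : ∀ e, x e ≤ XM) : ∃ S : Scheme G, ∀ e, S.selProb x e = x e / 2 :=
  FinC.half (fun _ _ _ Gr _ _ x _ hx => win Gr x hx) V G x hx hX

/-- **the final theorem**, weights up to `1 / 12` -/
theorem half12 (V : Type) [Fintype V] [DecidableEq V] (G : SimpleGraph V) [Fintype G.edgeSet]
    [DecidableEq G.edgeSet] (x : G.edgeSet → ℝ) (hx : IsFractionalMatching G x)
    (hX : ∀ e, x e ≤ 1 / 12) : ∃ S : Scheme G, ∀ e, S.selProb x e = x e / 2 := by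
  have hXM : XM = 1 / 12 := by
    unfold XM xN
    norm_num
  exact half V G x hx fun e => (hX e).trans (le_of_eq hXM.symm)

end Pool.Agent.RZ.RCO.WinX
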